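import Pool.Agent.MP_92191b_al.K3.Eng

/-! Excluded configurations of cells. -/

namespace Pool.Agent.MP_92191b_al.K3.E

open Tr

set_option maxRecDepth 100000

def ka7 : List ℕ := [0, 2, 6, 708, 359, 386, 44, 53]

def la7 : List (ℕ × List ℕ) := []

def ka27 : List ℕ := [108, 1, 706, 387, 605, 255, 152, 506]

def la27 : List (ℕ × List ℕ) := []

def ka26 : List ℕ := [513, 567, 298, 406, 299, 569, 462, 468, 510]

def la26 : List (ℕ × List ℕ) := [(3, ka7), (3, ka27)]

def ka29 : List ℕ := [0, 108, 441, 370, 372, 507, 238, 239]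

def la29 : List (ℕ × List ℕ) := [(3, ka7), (3, ka27)]

def kb80 : List ℕ := [2108, 1059, 5681, 5684, 2699, 4643, 2216, 275, 6270, 4327, 4903, 1349, 5483, 888]

def lb80 : List (ℕ × List ℕ) := [(3, ka7), (3, ka27), (3, ka26), (3, ka29)]

def kb178 : List ℕ := [1, 4070, 4478, 1241, 1809, 192, 3517, 2306, 1337, 2400, 1433, 3227, 3797, 4850]

def lb178 : List (ℕ × List ℕ) := [(3, ka7), (3, ka27), (3, ka26), (3, ka29)]

def kb179 : List ℕ := [2355, 2197, 3737, 5601, 3912, 2293, 2217, 5217, 2400, 219, 1603, 2414, 157]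

def lb179 : List (ℕ × List ℕ) := [(3, ka7), (3, ka27), (3, ka26), (3, ka29)]

def kb183 : List ℕ := [0, 6403, 3651, 4222, 743, 2607, 593, 4082, 4421, 49, 471, 2831, 5910]

def lb183 : List (ℕ × List ℕ) := [(3, ka7), (3, ka27), (3, ka26), (3, ka29)]

def kb264 : List ℕ := [0, 5591, 2352, 6241, 2113, 3167, 590, 1161, 2539, 2472, 5956, 1421, 5815]

def lb264 : List (ℕ × List ℕ) := [(3, ka7), (3, ka27), (3, ka26), (3, ka29)]

def kb180 : List ℕ := [2836, 6241, 4791, 5116, 1718, 6347, 5465, 2309, 6525, 5731, 6065, 1290, 5021]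

def lb180 : List (ℕ × List ℕ) := [(3, ka7), (3, ka27), (3, ka26), (3, ka29), (4, kb179)]

def kb81 : List ℕ := [0, 3, 1059, 2366, 6179, 3275, 5875, 5390, 1991, 1670, 1934, 2096, 2504]

def lb81 : List (ℕ × List ℕ) := [(3, ka7), (3, ka27), (3, ka26), (3, ka29), (4, kb80)]

def kb182 : List ℕ := [0, 2027, 1473, 5120, 1489, 5135, 5544, 1916, 2807, 5730, 2259, 479, 4286, 5177]

def lb182 : List (ℕ × List ℕ) := [(3, ka7), (3, ka27), (3, ka26), (3, ka29), (4, kb80), (4, kb81), (4, kb178), (4, kb180), (4, kb183), (4, kb179), (4, kb264)]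

def kb75 : List ℕ := [2107, 1056, 4, 2760, 2216, 1253, 1589, 629, 953, 1763, 637, 3797, 970]

def lb75 : List (ℕ × List ℕ) := [(3, ka7), (3, ka27), (3, ka26), (3, ka29), (4, kb80), (4, kb81), (4, kb182), (4, kb178), (4, kb180), (4, kb183), (4, kb179), (4, kb264)]

def ka14 : List ℕ := [623, 3, 680, 439, 254, 502, 266, 161]

def la14 : List (ℕ × List ℕ) := [(3, ka7), (3, ka27), (3, ka26), (3, ka29), (4, kb75), (4, kb80), (4, kb81), (4, kb180), (4, kb182), (4, kb183)]

def kb177 : List ℕ := [0, 4457, 2202, 1637, 2939, 1733, 2306, 52, 3697, 4508, 2735, 2415, 4523]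

def lb177 : List (ℕ × List ℕ) := [(3, ka7), (3, ka27), (3, ka26), (3, ka29), (3, ka14), (4, kb178), (4, kb179)]

def ka13 : List ℕ := [1, 623, 3, 439, 254, 257, 584, 79]

def la13 : List (ℕ × List ℕ) := [(3, ka7), (3, ka27), (3, ka26), (3, ka29), (3, ka14), (4, kb177), (4, kb178), (4, kb179)]

def kb262 : List ℕ := [0, 3082, 6083, 5762, 2942, 5301, 2953, 4016, 1030, 2337, 2499, 2912, 5505, 971]

def lb262 : List (ℕ × List ℕ) := [(3, ka7), (3, ka27), (3, ka26), (3, ka29), (3, ka14), (3, ka13), (4, kb264)]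

def ka35 : List ℕ := [108, 1, 708, 468, 96, 506, 614, 239, 296]

def la35 : List (ℕ × List ℕ) := [(3, ka7), (3, ka27), (3, ka26), (3, ka29), (3, ka14), (3, ka13), (4, kb262), (4, kb264)]

def ka39 : List ℕ := [0, 462, 490, 59, 253, 556, 315, 695]

def la39 : List (ℕ × List ℕ) := [(3, ka7), (3, ka27), (3, ka26), (3, ka29), (3, ka14), (3, ka13), (3, ka35)]

def kb246 : List ℕ := [0, 648, 338, 5117, 349, 2941, 42, 695, 5167, 75, 399, 5907]

def lb246 : List (ℕ × List ℕ) := [(3, ka7), (3, ka27), (3, ka26), (3, ka29), (3, ka14), (3, ka13), (3, ka35), (3, ka39)]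

def ka37 : List ℕ := [0, 136, 299, 203, 206, 314, 584]

def la37 : List (ℕ × List ℕ) := [(3, ka7), (3, ka27), (3, ka26), (3, ka29), (3, ka14), (3, ka13), (3, ka35), (3, ka39), (4, kb246)]

def kpl : List ℕ := [39, 75, 42, 78, 64, 46, 65, 47, 0]

def lpl : List (ℕ × List ℕ) := [(3, ka7), (3, ka27), (3, ka26), (3, ka29), (3, ka14), (3, ka13), (3, ka35), (3, ka39), (3, ka37)]

def gpl : List (List ℕ × List ℕ) := [
  ([114, 136, 137, 147, 156, 190, 191, 201, 210, 222, 352, 353, 363, 372, 384, 438, 460, 461, 471, 480, 486, 489, 490, 491, 492, 495, 504], []),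
  ([114, 118, 131, 137, 147, 160, 191, 201, 214, 222, 226, 239, 353, 363, 376, 384, 388, 401, 438, 442, 455, 461, 471, 484, 490, 503, 504], []),
  ([118, 137, 147, 150, 155, 191, 201, 204, 209, 226, 353, 363, 366, 371, 388, 442, 461, 471, 474, 479, 486, 495, 496, 497, 500, 503, 504], []),
  ([126, 136, 137, 147, 150, 190, 191, 201, 204, 234, 352, 353, 363, 366, 396, 450, 460, 461, 471, 474, 486, 489, 492, 495, 496, 497, 504], []),
  ([114, 119, 130, 136, 147, 161, 190, 201, 215, 222, 227, 238, 352, 363, 377, 384, 389, 400, 438, 443, 454, 460, 471, 485, 491, 502, 504], []),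
  ([114, 118, 119, 132, 147, 201, 222, 226, 227, 240, 363, 384, 388, 389, 402, 438, 442, 443, 456, 471, 486, 495, 498, 501, 502, 503, 504], []),
  ([119, 136, 147, 150, 154, 190, 201, 204, 208, 227, 352, 363, 366, 370, 389, 443, 460, 471, 474, 478, 486, 495, 496, 497, 499, 502, 504], []),
  ([118, 119, 147, 150, 201, 204, 226, 227, 363, 366, 388, 389, 442, 443, 471, 474, 486, 495, 496, 497, 498, 499, 500, 501, 502, 503, 504], []),
  ([9, 118, 119, 147, 150, 201, 204, 226, 227, 252, 363, 366, 388, 389, 442, 443, 471, 474, 495, 499, 500, 502, 503, 522, 549, 576, 657], []),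
  ([0, 9, 10, 11, 12, 13, 14, 15, 16, 17, 18, 363, 366, 388, 389, 442, 443, 471, 474, 604, 605, 633, 636, 687, 690, 712, 713], []),
  ([9, 13, 14, 16, 17, 36, 63, 90, 171, 252, 363, 366, 388, 389, 442, 443, 471, 474, 495, 604, 605, 633, 636, 687, 690, 712, 713], []),
  ([0, 9, 10, 11, 13, 16, 18, 352, 363, 366, 370, 389, 443, 460, 471, 474, 478, 605, 622, 633, 636, 640, 676, 687, 690, 694, 713], []),
  ([0, 9, 12, 15, 16, 17, 18, 363, 384, 388, 389, 402, 438, 442, 443, 456, 471, 600, 604, 605, 618, 633, 687, 708, 712, 713, 726], []),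
  ([0, 16, 23, 359, 363, 370, 382, 389, 402, 436, 443, 456, 467, 471, 478, 598, 605, 618, 629, 633, 640, 683, 687, 694, 706, 713, 726], []),
  ([0, 9, 18, 21, 22, 23, 24, 354, 363, 370, 371, 402, 456, 462, 471, 478, 479, 618, 624, 633, 640, 641, 678, 687, 694, 695, 726], []),
  ([0, 9, 10, 11, 18, 21, 24, 363, 366, 370, 371, 378, 432, 471, 474, 478, 479, 594, 633, 636, 640, 641, 687, 690, 694, 695, 702], []),
  ([0, 9, 10, 11, 14, 17, 18, 353, 363, 366, 371, 388, 442, 461, 471, 474, 479, 604, 623, 633, 636, 641, 677, 687, 690, 695, 712], []),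
  ([0, 17, 22, 358, 363, 371, 383, 388, 402, 437, 442, 456, 466, 471, 479, 599, 604, 618, 628, 633, 641, 682, 687, 695, 707, 712, 726], [])]

end Pool.Agent.MP_92191b_al.K3.E
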