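import Pool.Agent.MP_92191b_al.K3.CR15

/-! Refutation trees. -/

namespace Pool.Agent.MP_92191b_al.K3.E

open Tr

set_option maxRecDepth 100000

noncomputable def tb75_1 : Tr :=
(S (nat_lit 5172) (S (nat_lit 1262) (S (nat_lit 1771) (S (nat_lit 15839) (S (nat_lit 19500) (S (nat_lit 3159) (S (nat_lit 3167) (S (nat_lit 3) (S (nat_lit 6319) (S (nat_lit 4667) (S (nat_lit 13183) (L (nat_lit 19295588))
(L (nat_lit 25075203)))
(L (nat_lit 20197564)))
(L (nat_lit 3662442)))
(L (nat_lit 19981581)))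
(L (nat_lit 14945207)))
(L (nat_lit 20211204)))
(S (nat_lit 39264) (S (nat_lit 5165) (S (nat_lit 4667) (L (nat_lit 20235289))
(L (nat_lit 20186652)))
(L (nat_lit 10880951)))
(S (nat_lit 59028) (S (nat_lit 3159) (L (nat_lit 8991620))
(L (nat_lit 18965002)))
(L (nat_lit 25826761)))))
(S (nat_lit 35603) (S (nat_lit 11249) (S (nat_lit 44710) (S (nat_lit 24929) (S (nat_lit 3) (S (nat_lit 52439) (L (nat_lit 7005568))
(L (nat_lit 20759778)))
(L (nat_lit 19673158)))
(L (nat_lit 14360729)))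
(L (nat_lit 23859654)))
(S (nat_lit 31013) (S (nat_lit 24929) (S (nat_lit 13183) (L (nat_lit 18781555))
(L (nat_lit 14589107)))
(L (nat_lit 14352633)))
(S (nat_lit 50777) (S (nat_lit 3) (S (nat_lit 24929) (L (nat_lit 4118922))
(L (nat_lit 21283993)))
(L (nat_lit 1847974)))
(L (nat_lit 25542771)))))
(S (nat_lit 55367) (S (nat_lit 1256) (S (nat_lit 1250) (S (nat_lit 13183) (S (nat_lit 3) (S (nat_lit 10286) (L (nat_lit 2510758))
(L (nat_lit 11718543)))
(L (nat_lit 20144236)))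
(L (nat_lit 12944986)))
(L (nat_lit 18916241)))
(S (nat_lit 21020) (S (nat_lit 1250) (L (nat_lit 21520490))
(L (nat_lit 19374976)))
(S (nat_lit 40784) (S (nat_lit 22931) (L (nat_lit 9951291))
(L (nat_lit 12873783)))
(L (nat_lit 25219529)))))
(L (nat_lit 25211250)))))
(S (nat_lit 21535) (S (nat_lit 29005) (S (nat_lit 54404) (S (nat_lit 12911) (S (nat_lit 21020) (S (nat_lit 32947) (S (nat_lit 3163) (L (nat_lit 20477001))
(L (nat_lit 11322016)))
(L (nat_lit 23961122)))
(L (nat_lit 30887977)))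
(L (nat_lit 11588029)))
(L (nat_lit 18665729)))
(L (nat_lit 9981976)))
(S (nat_lit 41299) (S (nat_lit 32675) (S (nat_lit 48769) (S (nat_lit 34640) (S (nat_lit 1253) (S (nat_lit 40784) (S (nat_lit 46121) (S (nat_lit 42270) (S (nat_lit 28033) (S (nat_lit 52711) (S (nat_lit 19500) (S (nat_lit 21534) (S (nat_lit 55367) (L (nat_lit 17834716))
(L (nat_lit 11327968)))
(L (nat_lit 30953666)))
(L (nat_lit 26887241)))
(L (nat_lit 17433353)))
(L (nat_lit 10941024)))
(L (nat_lit 2446158)))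
(L (nat_lit 10574737)))
(L (nat_lit 512905)))
(S (nat_lit 21017) (S (nat_lit 26357) (S (nat_lit 35612) (S (nat_lit 47797) (S (nat_lit 42271) (S (nat_lit 11670) (S (nat_lit 40784) (S (nat_lit 2742) (S (nat_lit 21029) (S (nat_lit 24419) (S (nat_lit 59029) (S (nat_lit 6322) (S (nat_lit 31022) (S (nat_lit 36183) (S (nat_lit 40700) (S (nat_lit 55722) (S (nat_lit 37432) (S (nat_lit 17833) (S (nat_lit 2912) (S (nat_lit 31372) (D (nat_lit 18) (nat_lit 11387556) (nat_lit 19095973) (nat_lit 72093948790734881))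
(L (nat_lit 16394082)))
(L (nat_lit 29796502)))
(L (nat_lit 705385)))
(L (nat_lit 30064776)))
(L (nat_lit 30449264)))
(L (nat_lit 15066720)))
(L (nat_lit 28915882)))
(L (nat_lit 8810081)))
(L (nat_lit 3745616)))
(L (nat_lit 8994628)))
(L (nat_lit 5788490)))
(L (nat_lit 1268219)))
(L (nat_lit 18952537)))
(L (nat_lit 27728022)))
(L (nat_lit 26235121)))
(L (nat_lit 11621201)))
(L (nat_lit 3527503)))
(L (nat_lit 30724111)))
(L (nat_lit 16535626)))
(S (nat_lit 40781) (S (nat_lit 40784) (S (nat_lit 6593) (S (nat_lit 4658) (S (nat_lit 32672) (S (nat_lit 52711) (S (nat_lit 19500) (S (nat_lit 49277) (S (nat_lit 48768) (S (nat_lit 49280) (S (nat_lit 4655) (S (nat_lit 1780) (L (nat_lit 9625117))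
(L (nat_lit 9493018)))
(L (nat_lit 7164387)))
(L (nat_lit 10277251)))
(L (nat_lit 13751047)))
(L (nat_lit 14569607)))
(L (nat_lit 16409673)))
(L (nat_lit 27930761)))
(L (nat_lit 16929670)))
(L (nat_lit 7786684)))
(L (nat_lit 1954064)))
(L (nat_lit 27775170)))
(L (nat_lit 25363862)))))
(L (nat_lit 15959641)))
(L (nat_lit 14602593)))
(L (nat_lit 1855724)))
(L (nat_lit 25377509)))))
(S (nat_lit 21026) (S (nat_lit 5165) (S (nat_lit 11249) (S (nat_lit 12908) (S (nat_lit 12911) (L (nat_lit 4103571))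
(S (nat_lit 32675) (L (nat_lit 21266905))
(S (nat_lit 52439) (S (nat_lit 49280) (S (nat_lit 10286) (L (nat_lit 12192220))
(L (nat_lit 21935300)))
(L (nat_lit 7753752)))
(L (nat_lit 25924942)))))
(S (nat_lit 32672) (S (nat_lit 6593) (S (nat_lit 8269) (S (nat_lit 7856) (S (nat_lit 11258) (L (nat_lit 7024765))
(L (nat_lit 4894604)))
(L (nat_lit 14329730)))
(L (nat_lit 21400458)))
(S (nat_lit 26357) (S (nat_lit 51199) (S (nat_lit 38042) (S (nat_lit 34631) (L (nat_lit 12255641))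
(L (nat_lit 16056921)))
(L (nat_lit 7262596)))
(L (nat_lit 5165446)))
(S (nat_lit 46121) (S (nat_lit 6319) (S (nat_lit 36533) (S (nat_lit 2751) (L (nat_lit 21282628))
(L (nat_lit 8303699)))
(L (nat_lit 23390660)))
(L (nat_lit 16048708)))
(L (nat_lit 25277747)))))
(S (nat_lit 52436) (S (nat_lit 4667) (S (nat_lit 35612) (L (nat_lit 31162762))
(L (nat_lit 17879850)))
(S (nat_lit 36430) (L (nat_lit 31001965))
(L (nat_lit 26532876))))
(L (nat_lit 25773410)))))
(S (nat_lit 31013) (S (nat_lit 14867) (S (nat_lit 719) (L (nat_lit 17093508))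
(S (nat_lit 46121) (S (nat_lit 23005) (L (nat_lit 9898681))
(S (nat_lit 42691) (S (nat_lit 2751) (S (nat_lit 11671) (S (nat_lit 37505) (L (nat_lit 5764341))
(L (nat_lit 13724395)))
(L (nat_lit 26267949)))
(L (nat_lit 19215385)))
(L (nat_lit 1527691))))
(L (nat_lit 12289937))))
(S (nat_lit 34631) (S (nat_lit 9752) (S (nat_lit 24579) (L (nat_lit 23355500))
(S (nat_lit 49814) (S (nat_lit 4652) (S (nat_lit 11671) (L (nat_lit 29925985))
(L (nat_lit 287344)))
(L (nat_lit 7528854)))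
(L (nat_lit 5693651))))
(S (nat_lit 29516) (S (nat_lit 6321) (S (nat_lit 11671) (L (nat_lit 23895458))
(L (nat_lit 680390)))
(L (nat_lit 20504619)))
(S (nat_lit 49280) (S (nat_lit 22499) (S (nat_lit 31435) (L (nat_lit 501623))
(L (nat_lit 2828696)))
(L (nat_lit 18550105)))
(L (nat_lit 25581761)))))
(S (nat_lit 54395) (S (nat_lit 16772) (S (nat_lit 49814) (S (nat_lit 11671) (L (nat_lit 2933351))
(L (nat_lit 1794502)))
(L (nat_lit 8905317)))
(S (nat_lit 36536) (S (nat_lit 5010) (L (nat_lit 1527626))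
(S (nat_lit 23459) (S (nat_lit 29005) (L (nat_lit 23527736))
(L (nat_lit 4673885)))
(L (nat_lit 21045657))))
(S (nat_lit 56300) (S (nat_lit 40793) (L (nat_lit 21433192))
(L (nat_lit 27722375)))
(L (nat_lit 25855215)))))
(L (nat_lit 25647361)))))
(S (nat_lit 50777) (S (nat_lit 1779) (S (nat_lit 14339) (S (nat_lit 6779) (L (nat_lit 17065636))
(S (nat_lit 16772) (S (nat_lit 6319) (S (nat_lit 9752) (S (nat_lit 5182) (S (nat_lit 37505) (L (nat_lit 770859))
(L (nat_lit 20061753)))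
(L (nat_lit 17980299)))
(L (nat_lit 11264545)))
(L (nat_lit 5891440)))
(L (nat_lit 22406532))))
(S (nat_lit 34103) (S (nat_lit 42691) (S (nat_lit 5182) (S (nat_lit 1763) (S (nat_lit 36533) (S (nat_lit 5173) (L (nat_lit 2829722))
(L (nat_lit 1816491)))
(L (nat_lit 20391813)))
(L (nat_lit 12497014)))
(L (nat_lit 2021613)))
(L (nat_lit 9981824)))
(S (nat_lit 53867) (S (nat_lit 44186) (S (nat_lit 6319) (S (nat_lit 47384) (L (nat_lit 2563989))
(L (nat_lit 27951345)))
(L (nat_lit 10020420)))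
(S (nat_lit 51041) (L (nat_lit 1402391))
(L (nat_lit 1720600))))
(L (nat_lit 25277095)))))
(S (nat_lit 21543) (S (nat_lit 3160) (S (nat_lit 8) (S (nat_lit 3162) (S (nat_lit 44186) (L (nat_lit 20202402))
(L (nat_lit 1328023)))
(L (nat_lit 14770858)))
(L (nat_lit 19129860)))
(S (nat_lit 22924) (S (nat_lit 15713) (L (nat_lit 3595142))
(S (nat_lit 44192) (S (nat_lit 16772) (S (nat_lit 32672) (S (nat_lit 6319) (S (nat_lit 27611) (S (nat_lit 22499) (S (nat_lit 57797) (L (nat_lit 6139284))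
(L (nat_lit 13413956)))
(L (nat_lit 22407183)))
(L (nat_lit 16025459)))
(L (nat_lit 12183012)))
(L (nat_lit 10935168)))
(L (nat_lit 9922244)))
(L (nat_lit 13242282))))
(S (nat_lit 42688) (S (nat_lit 5173) (S (nat_lit 6319) (S (nat_lit 6321) (L (nat_lit 17984790))
(L (nat_lit 15851762)))
(L (nat_lit 20440167)))
(L (nat_lit 1983179)))
(L (nat_lit 25513413)))))
(S (nat_lit 41307) (S (nat_lit 1780) (S (nat_lit 0) (S (nat_lit 6319) (S (nat_lit 34103) (L (nat_lit 20189068))
(L (nat_lit 20324473)))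
(L (nat_lit 20712749)))
(S (nat_lit 34684) (L (nat_lit 19705895))
(L (nat_lit 6742067))))
(S (nat_lit 21544) (S (nat_lit 16341) (S (nat_lit 26085) (S (nat_lit 16769) (S (nat_lit 16772) (L (nat_lit 31163597))
(L (nat_lit 16833789)))
(L (nat_lit 15477810)))
(L (nat_lit 11356207)))
(L (nat_lit 22274094)))
(S (nat_lit 41308) (S (nat_lit 49280) (S (nat_lit 35603) (L (nat_lit 28877472))
(L (nat_lit 1464667)))
(L (nat_lit 1988815)))
(L (nat_lit 25693930)))))
(L (nat_lit 25450604)))))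
(L (nat_lit 25512044)))))
(S (nat_lit 24929) (S (nat_lit 13183) (S (nat_lit 10286) (S (nat_lit 44195) (S (nat_lit 40784) (S (nat_lit 56300) (S (nat_lit 26083) (S (nat_lit 3) (S (nat_lit 44710) (S (nat_lit 42695) (S (nat_lit 39264) (S (nat_lit 34640) (S (nat_lit 7847) (L (nat_lit 8405656))
(L (nat_lit 14326658)))
(L (nat_lit 971025)))
(L (nat_lit 23970825)))
(L (nat_lit 14600419)))
(L (nat_lit 23390352)))
(L (nat_lit 1847571)))
(L (nat_lit 22196109)))
(L (nat_lit 21267343)))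
(L (nat_lit 3026390)))
(L (nat_lit 12083222)))
(L (nat_lit 11718543)))
(S (nat_lit 32947) (S (nat_lit 13182) (S (nat_lit 11311) (L (nat_lit 7046959))
(S (nat_lit 56300) (S (nat_lit 11249) (S (nat_lit 10286) (S (nat_lit 26083) (L (nat_lit 22885544))
(L (nat_lit 21270416)))
(L (nat_lit 12236677)))
(L (nat_lit 21922250)))
(L (nat_lit 14387080))))
(S (nat_lit 32946) (S (nat_lit 9241) (S (nat_lit 1771) (S (nat_lit 56300) (L (nat_lit 9833179))
(L (nat_lit 7073316)))
(L (nat_lit 12256143)))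
(S (nat_lit 40223) (S (nat_lit 23459) (L (nat_lit 26522181))
(L (nat_lit 2890135)))
(L (nat_lit 26876945))))
(S (nat_lit 52710) (S (nat_lit 5173) (S (nat_lit 51199) (S (nat_lit 18269) (L (nat_lit 10641814))
(L (nat_lit 26948777)))
(L (nat_lit 27754743)))
(S (nat_lit 24937) (S (nat_lit 15839) (L (nat_lit 26353207))
(L (nat_lit 26358132)))
(S (nat_lit 44701) (S (nat_lit 49814) (S (nat_lit 39531) (L (nat_lit 18547593))
(L (nat_lit 23494941)))
(L (nat_lit 27538611)))
(L (nat_lit 25898160)))))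
(L (nat_lit 25746785)))))
(S (nat_lit 52711) (S (nat_lit 3159) (S (nat_lit 21020) (S (nat_lit 21014) (S (nat_lit 22931) (S (nat_lit 44710) (L (nat_lit 5666038))
(L (nat_lit 14936771)))
(L (nat_lit 533211)))
(L (nat_lit 22812169)))
(S (nat_lit 28458) (L (nat_lit 1846803))
(L (nat_lit 21772327))))
(S (nat_lit 22923) (S (nat_lit 21020) (S (nat_lit 21014) (S (nat_lit 30050) (L (nat_lit 12045469))
(L (nat_lit 18015507)))
(L (nat_lit 22812169)))
(L (nat_lit 22811081)))
(S (nat_lit 42687) (S (nat_lit 11249) (S (nat_lit 24946) (L (nat_lit 7761079))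
(L (nat_lit 21149949)))
(L (nat_lit 5161331)))
(L (nat_lit 25446542)))))
(L (nat_lit 25768104)))))
(S (nat_lit 44693) (S (nat_lit 1250) (S (nat_lit 11671) (S (nat_lit 14867) (S (nat_lit 48768) (S (nat_lit 36536) (S (nat_lit 43223) (L (nat_lit 23300879))
(L (nat_lit 13885316)))
(L (nat_lit 12878770)))
(L (nat_lit 14292806)))
(S (nat_lit 34631) (S (nat_lit 15397) (L (nat_lit 23519585))
(S (nat_lit 40784) (S (nat_lit 16769) (L (nat_lit 4994359))
(L (nat_lit 1761798)))
(L (nat_lit 23116681))))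
(S (nat_lit 54395) (S (nat_lit 44709) (S (nat_lit 13183) (L (nat_lit 15440059))
(L (nat_lit 12968578)))
(L (nat_lit 24600801)))
(L (nat_lit 25181766)))))
(S (nat_lit 31435) (S (nat_lit 3569) (L (nat_lit 7369110))
(S (nat_lit 22931) (S (nat_lit 13183) (S (nat_lit 44195) (S (nat_lit 36536) (L (nat_lit 29830198))
(L (nat_lit 12878770)))
(L (nat_lit 12235651)))
(L (nat_lit 22393731)))
(L (nat_lit 469879))))
(S (nat_lit 51199) (S (nat_lit 33600) (L (nat_lit 11321399))
(S (nat_lit 45847) (S (nat_lit 36536) (S (nat_lit 40784) (L (nat_lit 6687320))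
(L (nat_lit 24613769)))
(L (nat_lit 10945145)))
(L (nat_lit 12898209))))
(L (nat_lit 25658679)))))
(S (nat_lit 21014) (S (nat_lit 3) (S (nat_lit 41299) (L (nat_lit 1364539))
(L (nat_lit 1842894)))
(S (nat_lit 19767) (S (nat_lit 4529) (S (nat_lit 5181) (L (nat_lit 484599))
(L (nat_lit 1536242)))
(S (nat_lit 24946) (S (nat_lit 21020) (S (nat_lit 24431) (S (nat_lit 12911) (L (nat_lit 29907018))
(L (nat_lit 11592117)))
(L (nat_lit 22819075)))
(L (nat_lit 21936167)))
(L (nat_lit 2513149))))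
(S (nat_lit 39531) (S (nat_lit 9241) (L (nat_lit 21165297))
(L (nat_lit 7081580)))
(L (nat_lit 25363085)))))
(S (nat_lit 40778) (S (nat_lit 9240) (S (nat_lit 6326) (S (nat_lit 55870) (S (nat_lit 11671) (L (nat_lit 957040))
(L (nat_lit 23561094)))
(L (nat_lit 16028502)))
(S (nat_lit 26090) (S (nat_lit 53867) (S (nat_lit 23450) (L (nat_lit 17435401))
(L (nat_lit 8302678)))
(S (nat_lit 57167) (L (nat_lit 23533386))
(L (nat_lit 7468436))))
(S (nat_lit 45854) (S (nat_lit 23456) (S (nat_lit 36536) (S (nat_lit 1779) (S (nat_lit 21017) (S (nat_lit 24419) (S (nat_lit 24946) (S (nat_lit 42691) (S (nat_lit 24937) (S (nat_lit 32947) (L (nat_lit 17943773))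
(L (nat_lit 31071746)))
(L (nat_lit 22328504)))
(L (nat_lit 8292916)))
(L (nat_lit 21280952)))
(L (nat_lit 9192033)))
(L (nat_lit 30871830)))
(L (nat_lit 12868484)))
(L (nat_lit 13512292)))
(L (nat_lit 7454614)))
(L (nat_lit 25773128)))))
(S (nat_lit 29004) (S (nat_lit 1256) (S (nat_lit 44701) (S (nat_lit 36536) (L (nat_lit 24196345))
(L (nat_lit 13500658)))
(L (nat_lit 27676962)))
(S (nat_lit 56464) (L (nat_lit 7047705))
(L (nat_lit 12971062))))
(S (nat_lit 48768) (S (nat_lit 14339) (S (nat_lit 1771) (S (nat_lit 57797) (S (nat_lit 51199) (L (nat_lit 20299931))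
(L (nat_lit 10408322)))
(L (nat_lit 12947282)))
(S (nat_lit 32016) (L (nat_lit 22195088))
(L (nat_lit 13331653))))
(S (nat_lit 34103) (S (nat_lit 25975) (L (nat_lit 23259377))
(S (nat_lit 57797) (S (nat_lit 1770) (S (nat_lit 11670) (S (nat_lit 47384) (L (nat_lit 26270089))
(L (nat_lit 18633799)))
(L (nat_lit 1721657)))
(L (nat_lit 13508324)))
(L (nat_lit 13306695))))
(S (nat_lit 53867) (S (nat_lit 7847) (S (nat_lit 59029) (L (nat_lit 21771337))
(L (nat_lit 21434122)))
(S (nat_lit 16183) (L (nat_lit 18631689))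
(L (nat_lit 24025105))))
(L (nat_lit 25288016)))))
(L (nat_lit 25377379)))))
(L (nat_lit 25866311)))))
(L (nat_lit 25897134)))))
(S (nat_lit 40790) (S (nat_lit 3159) (S (nat_lit 57269) (S (nat_lit 3160) (S (nat_lit 30041) (S (nat_lit 5173) (S (nat_lit 17744) (S (nat_lit 8269) (S (nat_lit 22515) (L (nat_lit 8541005))
(L (nat_lit 10259182)))
(L (nat_lit 26511982)))
(L (nat_lit 26446446)))
(L (nat_lit 26511765)))
(L (nat_lit 10979961)))
(S (nat_lit 22924) (S (nat_lit 22515) (S (nat_lit 22927) (S (nat_lit 42695) (S (nat_lit 23450) (S (nat_lit 57272) (S (nat_lit 7856) (L (nat_lit 17402170))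
(L (nat_lit 21203856)))
(L (nat_lit 21465898)))
(L (nat_lit 21760552)))
(L (nat_lit 14518582)))
(L (nat_lit 21498790)))
(L (nat_lit 31131984)))
(S (nat_lit 42688) (S (nat_lit 10277) (S (nat_lit 47797) (S (nat_lit 21029) (S (nat_lit 37508) (S (nat_lit 24416) (S (nat_lit 22515) (S (nat_lit 42695) (L (nat_lit 29643790))
(L (nat_lit 27593206)))
(L (nat_lit 21858670)))
(L (nat_lit 14584183)))
(L (nat_lit 30607982)))
(L (nat_lit 30607862)))
(L (nat_lit 17730151)))
(L (nat_lit 23563176)))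
(L (nat_lit 25770304)))))
(L (nat_lit 10980276)))
(S (nat_lit 22923) (S (nat_lit 16769) (S (nat_lit 6321) (S (nat_lit 31013) (S (nat_lit 6319) (S (nat_lit 34631) (S (nat_lit 16772) (S (nat_lit 4667) (S (nat_lit 31434) (S (nat_lit 15713) (S (nat_lit 40784) (S (nat_lit 7856) (S (nat_lit 22926) (S (nat_lit 32672) (S (nat_lit 6074) (S (nat_lit 16733) (S (nat_lit 30788) (S (nat_lit 58148) (S (nat_lit 24037) (D (nat_lit 10) (nat_lit 22475008) (nat_lit 25175694) (nat_lit 2253999945286689))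
(L (nat_lit 28806890)))
(L (nat_lit 5727474)))
(L (nat_lit 28329642)))
(L (nat_lit 2729437)))
(L (nat_lit 29842568)))
(L (nat_lit 14233472)))
(L (nat_lit 543656)))
(L (nat_lit 26904880)))
(L (nat_lit 23113521)))
(L (nat_lit 13544498)))
(L (nat_lit 12114721)))
(L (nat_lit 19402570)))
(L (nat_lit 9484924)))
(L (nat_lit 5709465)))
(L (nat_lit 18656865)))
(S (nat_lit 51407) (L (nat_lit 17555498))
(L (nat_lit 828883))))
(S (nat_lit 26085) (S (nat_lit 15275) (L (nat_lit 18189020))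
(S (nat_lit 22927) (S (nat_lit 57269) (S (nat_lit 22931) (S (nat_lit 18278) (S (nat_lit 59028) (S (nat_lit 18269) (S (nat_lit 22506) (S (nat_lit 2743) (L (nat_lit 15816028))
(L (nat_lit 16864136)))
(L (nat_lit 21333436)))
(L (nat_lit 18712820)))
(L (nat_lit 875915)))
(L (nat_lit 17932210)))
(L (nat_lit 13175033)))
(L (nat_lit 12672216)))
(L (nat_lit 21832064))))
(S (nat_lit 45849) (S (nat_lit 11671) (S (nat_lit 4) (S (nat_lit 47797) (S (nat_lit 16341) (L (nat_lit 29854312))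
(L (nat_lit 2548983)))
(L (nat_lit 8482322)))
(L (nat_lit 806345)))
(S (nat_lit 31435) (S (nat_lit 7847) (S (nat_lit 40778) (S (nat_lit 43220) (L (nat_lit 10017538))
(L (nat_lit 27959749)))
(L (nat_lit 27954481)))
(L (nat_lit 13210535)))
(S (nat_lit 51199) (S (nat_lit 38042) (S (nat_lit 42271) (S (nat_lit 22931) (S (nat_lit 26357) (L (nat_lit 29082852))
(L (nat_lit 10410436)))
(L (nat_lit 13177083)))
(L (nat_lit 2618057)))
(L (nat_lit 3068297)))
(L (nat_lit 25831810)))))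
(L (nat_lit 25544753)))))
(S (nat_lit 36533) (S (nat_lit 8) (S (nat_lit 43582) (S (nat_lit 37098) (L (nat_lit 632378))
(L (nat_lit 13807511)))
(S (nat_lit 45850) (S (nat_lit 24428) (S (nat_lit 1779) (S (nat_lit 22931) (S (nat_lit 42270) (S (nat_lit 22927) (S (nat_lit 44183) (S (nat_lit 0) (S (nat_lit 29513) (S (nat_lit 51198) (S (nat_lit 44709) (S (nat_lit 4) (S (nat_lit 59028) (S (nat_lit 21188) (S (nat_lit 7847) (S (nat_lit 36106) (S (nat_lit 30041) (S (nat_lit 6593) (L (nat_lit 11590139))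
(L (nat_lit 7190245)))
(L (nat_lit 30629285)))
(L (nat_lit 30662053)))
(S (nat_lit 27611) (S (nat_lit 16342) (S (nat_lit 4658) (L (nat_lit 1613405))
(L (nat_lit 2970027)))
(L (nat_lit 3069419)))
(L (nat_lit 25399829))))
(L (nat_lit 29842789)))
(L (nat_lit 13200579)))
(L (nat_lit 615881)))
(L (nat_lit 13377217)))
(L (nat_lit 13268256)))
(L (nat_lit 565913)))
(L (nat_lit 20716589)))
(L (nat_lit 24297688)))
(L (nat_lit 606424)))
(L (nat_lit 23938055)))
(L (nat_lit 12847835)))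
(L (nat_lit 4421139)))
(L (nat_lit 13818105)))
(L (nat_lit 12883861))))
(S (nat_lit 19772) (S (nat_lit 1) (L (nat_lit 2530941))
(L (nat_lit 794036)))
(S (nat_lit 39536) (S (nat_lit 41307) (L (nat_lit 12313028))
(L (nat_lit 23938308)))
(L (nat_lit 25610596)))))
(S (nat_lit 56297) (S (nat_lit 22931) (S (nat_lit 22927) (S (nat_lit 44192) (S (nat_lit 26086) (S (nat_lit 21543) (S (nat_lit 57269) (S (nat_lit 19772) (S (nat_lit 19764) (S (nat_lit 26082) (S (nat_lit 43220) (S (nat_lit 22884) (S (nat_lit 11765) (S (nat_lit 14876) (S (nat_lit 31022) (S (nat_lit 43223) (L (nat_lit 5942776))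
(L (nat_lit 13883514)))
(L (nat_lit 19279715)))
(S (nat_lit 54404) (S (nat_lit 7856) (S (nat_lit 26083) (L (nat_lit 5499537))
(L (nat_lit 17704545)))
(L (nat_lit 9040416)))
(L (nat_lit 25903144))))
(L (nat_lit 2374365)))
(L (nat_lit 29938916)))
(L (nat_lit 5938029)))
(L (nat_lit 21827113)))
(L (nat_lit 21391367)))
(L (nat_lit 21391685)))
(L (nat_lit 13538027)))
(L (nat_lit 11329028)))
(L (nat_lit 21162410)))
(S (nat_lit 46440) (S (nat_lit 58566) (L (nat_lit 22850052))
(L (nat_lit 12487279)))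
(L (nat_lit 13503702))))
(S (nat_lit 36913) (L (nat_lit 12847030))
(L (nat_lit 6896549))))
(L (nat_lit 22505511)))
(L (nat_lit 25175725)))))
(S (nat_lit 42687) (S (nat_lit 1) (S (nat_lit 13182) (S (nat_lit 1779) (S (nat_lit 3692) (S (nat_lit 57269) (L (nat_lit 13865592))
(L (nat_lit 21110328)))
(L (nat_lit 26304008)))
(S (nat_lit 21543) (S (nat_lit 40784) (S (nat_lit 27611) (L (nat_lit 30902887))
(L (nat_lit 1879603)))
(L (nat_lit 7825058)))
(S (nat_lit 41307) (S (nat_lit 22924) (S (nat_lit 14342) (S (nat_lit 16769) (L (nat_lit 26912783))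
(L (nat_lit 24913413)))
(L (nat_lit 8839220)))
(L (nat_lit 7211540)))
(L (nat_lit 25927725)))))
(S (nat_lit 32946) (S (nat_lit 11258) (S (nat_lit 2751) (L (nat_lit 3520123))
(L (nat_lit 15413155)))
(S (nat_lit 31022) (S (nat_lit 11671) (L (nat_lit 2385518))
(L (nat_lit 21325186)))
(S (nat_lit 50786) (S (nat_lit 27611) (S (nat_lit 1763) (S (nat_lit 50777) (S (nat_lit 39532) (S (nat_lit 31435) (S (nat_lit 57269) (S (nat_lit 46121) (L (nat_lit 5806747))
(L (nat_lit 20754725)))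
(L (nat_lit 12784376)))
(L (nat_lit 4074157)))
(L (nat_lit 10880665)))
(L (nat_lit 1533547)))
(L (nat_lit 20852776)))
(L (nat_lit 7125600)))
(L (nat_lit 25527982)))))
(S (nat_lit 52710) (S (nat_lit 18278) (S (nat_lit 3686) (S (nat_lit 39528) (L (nat_lit 29962406))
(L (nat_lit 27663936)))
(L (nat_lit 663373)))
(S (nat_lit 38042) (S (nat_lit 19501) (S (nat_lit 26357) (S (nat_lit 50786) (L (nat_lit 1529053))
(L (nat_lit 1429324)))
(L (nat_lit 24425561)))
(L (nat_lit 18781770)))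
(S (nat_lit 57806) (S (nat_lit 7856) (S (nat_lit 14342) (S (nat_lit 6593) (L (nat_lit 13993909))
(L (nat_lit 14246180)))
(L (nat_lit 8807008)))
(L (nat_lit 13929397)))
(L (nat_lit 25273812)))))
(L (nat_lit 25353581)))))
(S (nat_lit 19765) (S (nat_lit 1265) (S (nat_lit 2742) (S (nat_lit 43220) (S (nat_lit 22515) (S (nat_lit 32675) (L (nat_lit 23266192))
(L (nat_lit 16929113)))
(L (nat_lit 30923109)))
(L (nat_lit 14293860)))
(S (nat_lit 22506) (S (nat_lit 22927) (S (nat_lit 26357) (S (nat_lit 1780) (L (nat_lit 4857337))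
(L (nat_lit 14382277)))
(L (nat_lit 18966800)))
(L (nat_lit 21054374)))
(S (nat_lit 42270) (S (nat_lit 16936) (L (nat_lit 11039298))
(S (nat_lit 26357) (S (nat_lit 22515) (S (nat_lit 21527) (S (nat_lit 3162) (L (nat_lit 12013658))
(L (nat_lit 4808910)))
(L (nat_lit 10597113)))
(L (nat_lit 13404903)))
(L (nat_lit 19333403))))
(L (nat_lit 25927694)))))
(S (nat_lit 21029) (S (nat_lit 7951) (L (nat_lit 23534466))
(S (nat_lit 59028) (S (nat_lit 57269) (S (nat_lit 10277) (S (nat_lit 38033) (S (nat_lit 24428) (S (nat_lit 37508) (L (nat_lit 2311803))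
(L (nat_lit 14322442)))
(L (nat_lit 10120334)))
(L (nat_lit 3064393)))
(L (nat_lit 21896676)))
(L (nat_lit 21531562)))
(L (nat_lit 2387415))))
(S (nat_lit 40793) (S (nat_lit 14876) (S (nat_lit 52711) (S (nat_lit 41307) (L (nat_lit 18751172))
(L (nat_lit 23634756)))
(L (nat_lit 27859459)))
(S (nat_lit 34640) (S (nat_lit 23450) (S (nat_lit 13183) (S (nat_lit 42690) (L (nat_lit 10968253))
(L (nat_lit 23532424)))
(L (nat_lit 8304258)))
(L (nat_lit 8128918)))
(S (nat_lit 54404) (S (nat_lit 7856) (S (nat_lit 22927) (L (nat_lit 18455578))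
(L (nat_lit 21054374)))
(L (nat_lit 23993361)))
(L (nat_lit 25795075)))))
(L (nat_lit 25208310)))))
(S (nat_lit 39529) (S (nat_lit 9241) (S (nat_lit 22927) (S (nat_lit 57269) (S (nat_lit 1771) (S (nat_lit 2743) (L (nat_lit 14585449))
(L (nat_lit 7426993)))
(L (nat_lit 13508325)))
(L (nat_lit 12656562)))
(L (nat_lit 21054374)))
(S (nat_lit 29005) (S (nat_lit 11671) (S (nat_lit 31022) (S (nat_lit 34106) (S (nat_lit 31013) (S (nat_lit 49277) (S (nat_lit 31434) (S (nat_lit 6319) (S (nat_lit 59029) (S (nat_lit 23444) (S (nat_lit 7847) (S (nat_lit 23459) (L (nat_lit 16062140))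
(L (nat_lit 18079652)))
(L (nat_lit 13953632)))
(L (nat_lit 18084548)))
(L (nat_lit 8981916)))
(L (nat_lit 18145889)))
(L (nat_lit 16786044)))
(L (nat_lit 20756553)))
(L (nat_lit 10272819)))
(L (nat_lit 23401979)))
(L (nat_lit 9922147)))
(S (nat_lit 41924) (L (nat_lit 14260139))
(L (nat_lit 18113123))))
(S (nat_lit 48769) (S (nat_lit 32675) (S (nat_lit 34640) (S (nat_lit 41299) (S (nat_lit 40784) (S (nat_lit 22927) (S (nat_lit 13183) (L (nat_lit 19137945))
(L (nat_lit 14589507)))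
(L (nat_lit 18418603)))
(L (nat_lit 7492497)))
(L (nat_lit 1856042)))
(L (nat_lit 10670896)))
(L (nat_lit 14602374)))
(L (nat_lit 25894308)))))
(L (nat_lit 25598563)))))
(L (nat_lit 25694546)))))
(L (nat_lit 25320839)))))
(S (nat_lit 24936) (S (nat_lit 1256) (S (nat_lit 1262) (S (nat_lit 3692) (S (nat_lit 1771) (S (nat_lit 6318) (S (nat_lit 16342) (S (nat_lit 13183) (S (nat_lit 40793) (S (nat_lit 52439) (L (nat_lit 22512890))
(L (nat_lit 14937141)))
(L (nat_lit 17439802)))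
(L (nat_lit 14294170)))
(L (nat_lit 26729510)))
(S (nat_lit 26082) (S (nat_lit 7847) (S (nat_lit 14342) (S (nat_lit 32946) (S (nat_lit 52439) (S (nat_lit 42691) (S (nat_lit 16342) (S (nat_lit 43223) (S (nat_lit 39264) (S (nat_lit 49814) (S (nat_lit 36649) (S (nat_lit 16996) (S (nat_lit 15978) (S (nat_lit 52339) (S (nat_lit 34529) (D (nat_lit 16) (nat_lit 26746930) (nat_lit 1466953) (nat_lit 1152957825032390722))
(L (nat_lit 14388571)))
(L (nat_lit 30094375)))
(L (nat_lit 14429237)))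
(L (nat_lit 14604514)))
(L (nat_lit 5824819)))
(L (nat_lit 14505156)))
(L (nat_lit 17378396)))
(L (nat_lit 23412612)))
(L (nat_lit 26262086)))
(L (nat_lit 14534848)))
(L (nat_lit 13522984)))
(L (nat_lit 8936604)))
(L (nat_lit 14393404)))
(L (nat_lit 12675687)))
(S (nat_lit 45846) (S (nat_lit 52439) (S (nat_lit 14876) (S (nat_lit 4658) (S (nat_lit 1250) (L (nat_lit 13247512))
(L (nat_lit 3814716)))
(L (nat_lit 2766141)))
(L (nat_lit 13488387)))
(L (nat_lit 13348738)))
(L (nat_lit 25764975)))))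
(S (nat_lit 21535) (L (nat_lit 8802429))
(S (nat_lit 41299) (S (nat_lit 14876) (S (nat_lit 32675) (S (nat_lit 1250) (S (nat_lit 12908) (L (nat_lit 10375648))
(L (nat_lit 21219106)))
(L (nat_lit 4011318)))
(L (nat_lit 14602466)))
(L (nat_lit 9949308)))
(L (nat_lit 25901095)))))
(S (nat_lit 23456) (S (nat_lit 3680) (S (nat_lit 5165) (S (nat_lit 3167) (S (nat_lit 8) (S (nat_lit 1250) (S (nat_lit 11249) (L (nat_lit 22164765))
(L (nat_lit 6703164)))
(L (nat_lit 3825905)))
(L (nat_lit 12781462)))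
(L (nat_lit 14754710)))
(S (nat_lit 24929) (S (nat_lit 19501) (S (nat_lit 23450) (L (nat_lit 13370582))
(L (nat_lit 8130102)))
(L (nat_lit 3563734)))
(S (nat_lit 44693) (S (nat_lit 17453) (L (nat_lit 19022205))
(S (nat_lit 24945) (S (nat_lit 6593) (S (nat_lit 1265) (S (nat_lit 55869) (L (nat_lit 31073328))
(L (nat_lit 14422327)))
(L (nat_lit 13435095)))
(L (nat_lit 13928028)))
(L (nat_lit 2513212))))
(L (nat_lit 25307607)))))
(S (nat_lit 23444) (S (nat_lit 2751) (S (nat_lit 44195) (S (nat_lit 13183) (S (nat_lit 29516) (S (nat_lit 23450) (S (nat_lit 44710) (L (nat_lit 26554391))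
(L (nat_lit 7821497)))
(L (nat_lit 30758276)))
(L (nat_lit 18208953)))
(L (nat_lit 14288251)))
(S (nat_lit 48461) (L (nat_lit 12688211))
(L (nat_lit 13263105))))
(S (nat_lit 22515) (S (nat_lit 22924) (S (nat_lit 14876) (S (nat_lit 22516) (L (nat_lit 18646390))
(L (nat_lit 21398313)))
(L (nat_lit 22878321)))
(L (nat_lit 21119878)))
(S (nat_lit 42279) (S (nat_lit 51198) (S (nat_lit 11258) (S (nat_lit 2742) (L (nat_lit 12218821))
(L (nat_lit 20016550)))
(L (nat_lit 21375873)))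
(L (nat_lit 13247297)))
(L (nat_lit 25242035)))))
(S (nat_lit 43208) (S (nat_lit 11258) (S (nat_lit 19764) (S (nat_lit 52710) (L (nat_lit 9073772))
(L (nat_lit 17635509)))
(S (nat_lit 33216) (L (nat_lit 22416701))
(L (nat_lit 21835814))))
(S (nat_lit 31022) (S (nat_lit 40341) (L (nat_lit 30803658))
(S (nat_lit 42690) (S (nat_lit 39265) (S (nat_lit 1265) (S (nat_lit 39264) (S (nat_lit 48769) (L (nat_lit 9049561))
(L (nat_lit 10599036)))
(L (nat_lit 11320343)))
(L (nat_lit 13248354)))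
(L (nat_lit 23897537)))
(L (nat_lit 13706131))))
(S (nat_lit 50786) (S (nat_lit 44693) (S (nat_lit 8269) (S (nat_lit 57272) (L (nat_lit 3830989))
(L (nat_lit 13277985)))
(L (nat_lit 13248389)))
(L (nat_lit 12813142)))
(L (nat_lit 25578602)))))
(L (nat_lit 25832591)))))
(S (nat_lit 43220) (S (nat_lit 11258) (S (nat_lit 18269) (S (nat_lit 9752) (S (nat_lit 1250) (S (nat_lit 26357) (L (nat_lit 6377949))
(L (nat_lit 4102737)))
(L (nat_lit 26594850)))
(L (nat_lit 23925129)))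
(S (nat_lit 38033) (S (nat_lit 1250) (S (nat_lit 55870) (L (nat_lit 26883428))
(L (nat_lit 14485814)))
(L (nat_lit 18931953)))
(S (nat_lit 57797) (S (nat_lit 22516) (S (nat_lit 22927) (L (nat_lit 20027868))
(L (nat_lit 21825905)))
(S (nat_lit 24784) (L (nat_lit 26774153))
(L (nat_lit 12933988))))
(L (nat_lit 25712809)))))
(S (nat_lit 31022) (S (nat_lit 14339) (S (nat_lit 42271) (S (nat_lit 43214) (S (nat_lit 4) (S (nat_lit 26357) (S (nat_lit 13182) (S (nat_lit 38042) (L (nat_lit 29068744))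
(L (nat_lit 3363225)))
(L (nat_lit 26576460)))
(L (nat_lit 3625899)))
(L (nat_lit 19706114)))
(L (nat_lit 8500023)))
(S (nat_lit 44377) (L (nat_lit 23422436))
(L (nat_lit 13980764))))
(S (nat_lit 34103) (S (nat_lit 8269) (L (nat_lit 23491627))
(L (nat_lit 11984946)))
(S (nat_lit 53867) (S (nat_lit 6326) (S (nat_lit 48769) (L (nat_lit 19019688))
(L (nat_lit 13823319)))
(L (nat_lit 19709184)))
(L (nat_lit 25277095)))))
(S (nat_lit 50786) (S (nat_lit 9240) (S (nat_lit 9241) (L (nat_lit 7098512))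
(L (nat_lit 16900439)))
(S (nat_lit 29004) (S (nat_lit 36105) (S (nat_lit 14339) (S (nat_lit 47472) (L (nat_lit 14519667))
(L (nat_lit 3560201)))
(L (nat_lit 14344514)))
(L (nat_lit 13265000)))
(S (nat_lit 48768) (S (nat_lit 56300) (S (nat_lit 24937) (S (nat_lit 43214) (S (nat_lit 0) (S (nat_lit 48769) (S (nat_lit 45317) (L (nat_lit 21335448))
(L (nat_lit 14461540)))
(L (nat_lit 465532)))
(L (nat_lit 13829907)))
(L (nat_lit 15984292)))
(L (nat_lit 3559736)))
(L (nat_lit 14528101)))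
(L (nat_lit 25352526)))))
(L (nat_lit 25539171)))))
(L (nat_lit 25581861)))))
(S (nat_lit 21026) (S (nat_lit 2752) (S (nat_lit 4658) (S (nat_lit 5173) (S (nat_lit 12908) (S (nat_lit 18278) (S (nat_lit 21534) (S (nat_lit 1780) (S (nat_lit 4667) (S (nat_lit 42690) (L (nat_lit 7453338))
(L (nat_lit 24021544)))
(L (nat_lit 18700458)))
(L (nat_lit 26974752)))
(L (nat_lit 6148365)))
(L (nat_lit 16634149)))
(L (nat_lit 17978120)))
(S (nat_lit 24937) (L (nat_lit 3592477))
(S (nat_lit 44701) (S (nat_lit 24419) (S (nat_lit 14876) (L (nat_lit 1328023))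
(L (nat_lit 13881404)))
(L (nat_lit 13652810)))
(L (nat_lit 25926019)))))
(S (nat_lit 24422) (S (nat_lit 27257) (S (nat_lit 19437) (L (nat_lit 3848475))
(L (nat_lit 13553771)))
(S (nat_lit 59028) (S (nat_lit 8269) (S (nat_lit 48769) (S (nat_lit 23459) (S (nat_lit 34106) (L (nat_lit 21762416))
(L (nat_lit 7167024)))
(L (nat_lit 8001083)))
(L (nat_lit 14604361)))
(L (nat_lit 26529902)))
(L (nat_lit 21197841))))
(S (nat_lit 44186) (S (nat_lit 1339) (L (nat_lit 5907343))
(S (nat_lit 41298) (S (nat_lit 1771) (S (nat_lit 29513) (S (nat_lit 51198) (S (nat_lit 14339) (L (nat_lit 15401240))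
(L (nat_lit 12706473)))
(L (nat_lit 8311169)))
(L (nat_lit 6706049)))
(L (nat_lit 12111930)))
(L (nat_lit 27480580))))
(L (nat_lit 25428407)))))
(S (nat_lit 22516) (S (nat_lit 13183) (S (nat_lit 22515) (S (nat_lit 8) (S (nat_lit 22923) (S (nat_lit 14339) (L (nat_lit 9056445))
(L (nat_lit 22372768)))
(L (nat_lit 21052298)))
(L (nat_lit 13375638)))
(S (nat_lit 26790) (L (nat_lit 8056320))
(L (nat_lit 21312538))))
(S (nat_lit 32947) (S (nat_lit 12911) (S (nat_lit 11249) (L (nat_lit 1744348))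
(L (nat_lit 21391402)))
(S (nat_lit 32675) (S (nat_lit 22927) (S (nat_lit 57269) (S (nat_lit 22931) (L (nat_lit 13993907))
(L (nat_lit 21054247)))
(L (nat_lit 21110636)))
(L (nat_lit 31000945)))
(S (nat_lit 52439) (S (nat_lit 14876) (S (nat_lit 1771) (S (nat_lit 24937) (S (nat_lit 16769) (S (nat_lit 9752) (S (nat_lit 4667) (L (nat_lit 28677586))
(L (nat_lit 18679095)))
(L (nat_lit 2516713)))
(L (nat_lit 22037286)))
(L (nat_lit 22164797)))
(L (nat_lit 4739978)))
(L (nat_lit 13979773)))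
(L (nat_lit 25597670)))))
(S (nat_lit 52711) (S (nat_lit 10286) (S (nat_lit 19767) (S (nat_lit 24929) (L (nat_lit 3566870))
(L (nat_lit 30803657)))
(S (nat_lit 26247) (L (nat_lit 13685642))
(L (nat_lit 21823788))))
(S (nat_lit 40674) (L (nat_lit 21198307))
(L (nat_lit 11720189))))
(L (nat_lit 25729603)))))
(S (nat_lit 42280) (S (nat_lit 17741) (S (nat_lit 6319) (L (nat_lit 7092374))
(S (nat_lit 26083) (S (nat_lit 0) (L (nat_lit 8161905))
(L (nat_lit 14425697)))
(S (nat_lit 45847) (S (nat_lit 1763) (S (nat_lit 14876) (L (nat_lit 4437755))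
(L (nat_lit 9949308)))
(L (nat_lit 2876625)))
(L (nat_lit 25759085)))))
(S (nat_lit 37505) (S (nat_lit 19500) (S (nat_lit 55869) (L (nat_lit 22221275))
(L (nat_lit 14289738)))
(S (nat_lit 39264) (S (nat_lit 3162) (S (nat_lit 38033) (S (nat_lit 4667) (L (nat_lit 3938960))
(L (nat_lit 16385867)))
(L (nat_lit 23506789)))
(L (nat_lit 18964848)))
(S (nat_lit 59028) (S (nat_lit 48769) (S (nat_lit 49814) (L (nat_lit 29736672))
(L (nat_lit 13915972)))
(L (nat_lit 14360388)))
(L (nat_lit 25449859)))))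
(S (nat_lit 57269) (S (nat_lit 10100) (L (nat_lit 12701978))
(S (nat_lit 14876) (S (nat_lit 59028) (S (nat_lit 30050) (S (nat_lit 32947) (S (nat_lit 1771) (L (nat_lit 3678036))
(L (nat_lit 14603306)))
(L (nat_lit 2989711)))
(L (nat_lit 11390095)))
(L (nat_lit 21055241)))
(L (nat_lit 4706588))))
(L (nat_lit 25365228)))))
(L (nat_lit 25549284)))))
(S (nat_lit 40790) (S (nat_lit 11670) (S (nat_lit 14342) (S (nat_lit 13033) (L (nat_lit 12964024))
(S (nat_lit 50786) (S (nat_lit 49931) (L (nat_lit 798163))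
(S (nat_lit 52439) (S (nat_lit 44192) (S (nat_lit 1771) (S (nat_lit 24419) (S (nat_lit 14876) (S (nat_lit 34631) (L (nat_lit 29012104))
(L (nat_lit 5988561)))
(L (nat_lit 13979773)))
(L (nat_lit 5694058)))
(L (nat_lit 14602501)))
(L (nat_lit 1716140)))
(L (nat_lit 12832826))))
(L (nat_lit 10901249))))
(S (nat_lit 34106) (S (nat_lit 5173) (S (nat_lit 3167) (S (nat_lit 47797) (S (nat_lit 51199) (S (nat_lit 15848) (S (nat_lit 21014) (S (nat_lit 0) (L (nat_lit 3816764))
(L (nat_lit 19707072)))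
(L (nat_lit 22505762)))
(L (nat_lit 7754656)))
(L (nat_lit 27316525)))
(L (nat_lit 27676714)))
(L (nat_lit 20013359)))
(S (nat_lit 24937) (S (nat_lit 21017) (L (nat_lit 28458729))
(L (nat_lit 6771586)))
(S (nat_lit 44701) (S (nat_lit 26357) (S (nat_lit 52439) (L (nat_lit 29544843))
(L (nat_lit 13520934)))
(L (nat_lit 9523673)))
(L (nat_lit 25463188)))))
(S (nat_lit 53870) (S (nat_lit 3859) (S (nat_lit 13182) (L (nat_lit 26527360))
(L (nat_lit 13244568)))
(S (nat_lit 21017) (S (nat_lit 12908) (S (nat_lit 51199) (S (nat_lit 9749) (S (nat_lit 14876) (L (nat_lit 29823252))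
(L (nat_lit 12768168)))
(L (nat_lit 4575708)))
(L (nat_lit 27611586)))
(L (nat_lit 18698344)))
(L (nat_lit 31079591))))
(L (nat_lit 25613504)))))
(S (nat_lit 31434) (S (nat_lit 3680) (S (nat_lit 10374) (L (nat_lit 14012475))
(S (nat_lit 24422) (S (nat_lit 4664) (S (nat_lit 44180) (S (nat_lit 48769) (S (nat_lit 52711) (S (nat_lit 48768) (S (nat_lit 55376) (S (nat_lit 24945) (L (nat_lit 10247313))
(L (nat_lit 3388154)))
(L (nat_lit 13689483)))
(L (nat_lit 663310)))
(L (nat_lit 21836130)))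
(L (nat_lit 2998889)))
(L (nat_lit 11564502)))
(S (nat_lit 28356) (L (nat_lit 26904043))
(L (nat_lit 18484444))))
(L (nat_lit 14418198))))
(S (nat_lit 23444) (S (nat_lit 9752) (S (nat_lit 14876) (S (nat_lit 31435) (L (nat_lit 7401942))
(L (nat_lit 2969837)))
(L (nat_lit 13881468)))
(S (nat_lit 29516) (S (nat_lit 32672) (L (nat_lit 7262353))
(L (nat_lit 30462502)))
(S (nat_lit 49280) (S (nat_lit 19765) (S (nat_lit 48769) (L (nat_lit 2675561))
(L (nat_lit 905704)))
(L (nat_lit 30820393)))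
(L (nat_lit 25188559)))))
(S (nat_lit 43208) (S (nat_lit 5798) (S (nat_lit 40781) (L (nat_lit 31075840))
(L (nat_lit 2767783)))
(S (nat_lit 48769) (S (nat_lit 43214) (S (nat_lit 19500) (L (nat_lit 28984360))
(L (nat_lit 16387352)))
(L (nat_lit 14290726)))
(L (nat_lit 2308732))))
(L (nat_lit 25494006)))))
(S (nat_lit 51198) (S (nat_lit 9749) (S (nat_lit 51199) (S (nat_lit 3686) (L (nat_lit 1616504))
(L (nat_lit 15552584)))
(L (nat_lit 12931843)))
(S (nat_lit 29513) (S (nat_lit 22507) (S (nat_lit 41298) (S (nat_lit 1253) (S (nat_lit 2742) (S (nat_lit 52711) (S (nat_lit 19500) (S (nat_lit 52439) (S (nat_lit 39532) (L (nat_lit 3746328))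
(L (nat_lit 23960686)))
(L (nat_lit 27698914)))
(L (nat_lit 22943177)))
(L (nat_lit 17460361)))
(L (nat_lit 3527600)))
(L (nat_lit 3658537)))
(L (nat_lit 27480580)))
(L (nat_lit 8409597)))
(S (nat_lit 49277) (S (nat_lit 14876) (L (nat_lit 2609371))
(L (nat_lit 13652189)))
(L (nat_lit 25930243)))))
(L (nat_lit 25902304)))))
(L (nat_lit 25647209)))))
(S (nat_lit 21020) (S (nat_lit 9241) (S (nat_lit 21535) (S (nat_lit 54404) (S (nat_lit 12911) (S (nat_lit 6318) (S (nat_lit 1250) (S (nat_lit 14342) (S (nat_lit 9240) (S (nat_lit 42280) (L (nat_lit 21866978))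
(L (nat_lit 11285525)))
(L (nat_lit 5773945)))
(L (nat_lit 6051273)))
(S (nat_lit 21014) (S (nat_lit 44701) (S (nat_lit 26083) (S (nat_lit 48768) (S (nat_lit 40781) (S (nat_lit 46121) (S (nat_lit 50786) (L (nat_lit 30790833))
(L (nat_lit 13372755)))
(L (nat_lit 4673816)))
(L (nat_lit 2576664)))
(L (nat_lit 22482758)))
(L (nat_lit 21270352)))
(L (nat_lit 14978809)))
(S (nat_lit 40778) (S (nat_lit 29004) (S (nat_lit 49280) (S (nat_lit 44183) (S (nat_lit 42280) (L (nat_lit 29065487))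
(L (nat_lit 23442524)))
(L (nat_lit 23896547)))
(L (nat_lit 10272787)))
(L (nat_lit 19339047)))
(L (nat_lit 25866464)))))
(S (nat_lit 26082) (S (nat_lit 2751) (S (nat_lit 39264) (S (nat_lit 36536) (S (nat_lit 59029) (S (nat_lit 57797) (L (nat_lit 5658537))
(L (nat_lit 21197189)))
(L (nat_lit 7160915)))
(L (nat_lit 13282393)))
(L (nat_lit 8242755)))
(S (nat_lit 22515) (S (nat_lit 21026) (S (nat_lit 55367) (S (nat_lit 21527) (S (nat_lit 23459) (S (nat_lit 19765) (S (nat_lit 24929) (S (nat_lit 52711) (S (nat_lit 57797) (S (nat_lit 9749) (S (nat_lit 10345) (S (nat_lit 23450) (S (nat_lit 58961) (S (nat_lit 10277) (S (nat_lit 11314) (S (nat_lit 11317) (S (nat_lit 55214) (S (nat_lit 13011) (S (nat_lit 24496) (S (nat_lit 9335) (D (nat_lit 8) (nat_lit 1829073) (nat_lit 14686968) (nat_lit 39272516851815449602))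
(L (nat_lit 8566579)))
(L (nat_lit 28625968)))
(L (nat_lit 28743702)))
(L (nat_lit 8177679)))
(L (nat_lit 419400)))
(L (nat_lit 13753128)))
(L (nat_lit 15375516)))
(L (nat_lit 13828978)))
(L (nat_lit 3940015)))
(L (nat_lit 7488251)))
(L (nat_lit 9166927)))
(L (nat_lit 10270340)))
(L (nat_lit 12322382)))
(L (nat_lit 13782331)))
(L (nat_lit 30606926)))
(L (nat_lit 22373924)))
(L (nat_lit 22130480)))
(L (nat_lit 2415098)))
(L (nat_lit 31104113)))
(S (nat_lit 42279) (S (nat_lit 54249) (L (nat_lit 11649656))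
(S (nat_lit 59029) (S (nat_lit 23459) (S (nat_lit 55869) (S (nat_lit 17741) (L (nat_lit 4543246))
(L (nat_lit 26985665)))
(L (nat_lit 3940789)))
(L (nat_lit 22144550)))
(L (nat_lit 13184836))))
(L (nat_lit 25668691)))))
(S (nat_lit 45846) (S (nat_lit 3159) (S (nat_lit 10872) (L (nat_lit 26643730))
(S (nat_lit 41291) (S (nat_lit 42690) (S (nat_lit 2752) (S (nat_lit 5165) (S (nat_lit 39529) (L (nat_lit 12688247))
(L (nat_lit 11597391)))
(L (nat_lit 9125021)))
(L (nat_lit 4078932)))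
(L (nat_lit 3699922)))
(L (nat_lit 7080656))))
(S (nat_lit 22923) (S (nat_lit 9749) (S (nat_lit 22515) (L (nat_lit 12636541))
(L (nat_lit 1500499)))
(S (nat_lit 29513) (S (nat_lit 24929) (S (nat_lit 31435) (S (nat_lit 26357) (S (nat_lit 44183) (S (nat_lit 21014) (L (nat_lit 8404919))
(L (nat_lit 16443463)))
(L (nat_lit 12604266)))
(L (nat_lit 9949275)))
(L (nat_lit 6312752)))
(L (nat_lit 6474606)))
(S (nat_lit 49277) (S (nat_lit 41291) (S (nat_lit 21014) (L (nat_lit 18511042))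
(L (nat_lit 6344219)))
(L (nat_lit 23131656)))
(L (nat_lit 25376915)))))
(S (nat_lit 42687) (S (nat_lit 26189) (L (nat_lit 3031315))
(S (nat_lit 34106) (S (nat_lit 31022) (S (nat_lit 39264) (L (nat_lit 29004296))
(L (nat_lit 8162897)))
(L (nat_lit 30518892)))
(L (nat_lit 6468315))))
(L (nat_lit 25432531)))))
(L (nat_lit 25281843)))))
(L (nat_lit 16633894)))
(L (nat_lit 7114384)))
(L (nat_lit 15520005)))
(L (nat_lit 7098785)))
(S (nat_lit 40784) (S (nat_lit 7847) (S (nat_lit 1780) (S (nat_lit 18278) (S (nat_lit 41714) (L (nat_lit 8540573))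
(S (nat_lit 44709) (S (nat_lit 44180) (S (nat_lit 11258) (S (nat_lit 36106) (L (nat_lit 24003877))
(L (nat_lit 12644595)))
(L (nat_lit 26684467)))
(L (nat_lit 12611274)))
(L (nat_lit 13374154))))
(S (nat_lit 38042) (S (nat_lit 3160) (S (nat_lit 47384) (S (nat_lit 37505) (L (nat_lit 22938865))
(L (nat_lit 13720795)))
(L (nat_lit 2744560)))
(S (nat_lit 22924) (S (nat_lit 37505) (S (nat_lit 7856) (S (nat_lit 49280) (L (nat_lit 2683561))
(L (nat_lit 14226311)))
(L (nat_lit 23633792)))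
(L (nat_lit 14411850)))
(S (nat_lit 42688) (S (nat_lit 44709) (S (nat_lit 42690) (S (nat_lit 1265) (S (nat_lit 22506) (L (nat_lit 28392106))
(L (nat_lit 9524732)))
(L (nat_lit 14491296)))
(L (nat_lit 23358850)))
(L (nat_lit 23390593)))
(L (nat_lit 25442917)))))
(S (nat_lit 57806) (S (nat_lit 3159) (S (nat_lit 50786) (S (nat_lit 27620) (L (nat_lit 2577226))
(L (nat_lit 4449904)))
(L (nat_lit 12708213)))
(S (nat_lit 22923) (S (nat_lit 1763) (S (nat_lit 29005) (S (nat_lit 27620) (L (nat_lit 3054002))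
(L (nat_lit 4744807)))
(L (nat_lit 1972849)))
(S (nat_lit 26231) (L (nat_lit 12805267))
(L (nat_lit 12804150))))
(S (nat_lit 42687) (S (nat_lit 8269) (S (nat_lit 45849) (S (nat_lit 19764) (L (nat_lit 14265404))
(L (nat_lit 21901351)))
(L (nat_lit 23459333)))
(L (nat_lit 21063175)))
(L (nat_lit 25797060)))))
(L (nat_lit 25694791)))))
(S (nat_lit 21544) (S (nat_lit 6319) (S (nat_lit 11671) (S (nat_lit 22507) (S (nat_lit 35603) (S (nat_lit 34640) (S (nat_lit 57806) (L (nat_lit 16551286))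
(L (nat_lit 12964026)))
(L (nat_lit 807185)))
(L (nat_lit 12902976)))
(L (nat_lit 13423625)))
(S (nat_lit 31435) (S (nat_lit 41299) (S (nat_lit 1779) (L (nat_lit 28871986))
(L (nat_lit 2857869)))
(L (nat_lit 23633728)))
(S (nat_lit 51199) (S (nat_lit 15839) (S (nat_lit 30041) (L (nat_lit 13542420))
(L (nat_lit 13409957)))
(L (nat_lit 3726219)))
(L (nat_lit 25494192)))))
(S (nat_lit 26083) (S (nat_lit 2743) (S (nat_lit 46121) (S (nat_lit 34640) (S (nat_lit 10286) (S (nat_lit 56297) (L (nat_lit 28368264))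
(L (nat_lit 21268335)))
(L (nat_lit 21894415)))
(L (nat_lit 23856401)))
(L (nat_lit 27742282)))
(S (nat_lit 22507) (S (nat_lit 24937) (S (nat_lit 9752) (S (nat_lit 34640) (L (nat_lit 7132612))
(L (nat_lit 30429702)))
(L (nat_lit 11385013)))
(L (nat_lit 13863677)))
(S (nat_lit 42271) (S (nat_lit 11670) (S (nat_lit 55376) (S (nat_lit 0) (L (nat_lit 29413679))
(L (nat_lit 8177708)))
(L (nat_lit 3026420)))
(L (nat_lit 1729841)))
(L (nat_lit 25514060)))))
(S (nat_lit 45847) (S (nat_lit 2751) (S (nat_lit 37505) (S (nat_lit 32947) (L (nat_lit 2792957))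
(L (nat_lit 2683251)))
(L (nat_lit 8535954)))
(S (nat_lit 22515) (S (nat_lit 22507) (S (nat_lit 31013) (S (nat_lit 57272) (L (nat_lit 28509809))
(L (nat_lit 21873674)))
(L (nat_lit 8807009)))
(L (nat_lit 10342881)))
(S (nat_lit 42279) (S (nat_lit 36536) (S (nat_lit 32947) (S (nat_lit 39265) (L (nat_lit 14536896))
(L (nat_lit 13852513)))
(L (nat_lit 3495485)))
(S (nat_lit 36698) (L (nat_lit 6371253))
(L (nat_lit 2472724))))
(L (nat_lit 25181523)))))
(L (nat_lit 25662837)))))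
(S (nat_lit 41308) (S (nat_lit 3680) (S (nat_lit 18278) (S (nat_lit 32946) (S (nat_lit 51199) (S (nat_lit 2735) (S (nat_lit 2743) (S (nat_lit 26086) (L (nat_lit 16897340))
(L (nat_lit 30969077)))
(L (nat_lit 17508225)))
(L (nat_lit 26941920)))
(L (nat_lit 4542940)))
(L (nat_lit 4038165)))
(S (nat_lit 38042) (S (nat_lit 32675) (S (nat_lit 49814) (L (nat_lit 12677335))
(L (nat_lit 14424245)))
(L (nat_lit 14440672)))
(S (nat_lit 57806) (S (nat_lit 12911) (S (nat_lit 43223) (L (nat_lit 21193775))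
(L (nat_lit 23176077)))
(L (nat_lit 21835168)))
(L (nat_lit 25800841)))))
(S (nat_lit 23444) (S (nat_lit 3167) (S (nat_lit 49814) (S (nat_lit 15839) (L (nat_lit 28466602))
(L (nat_lit 3463612)))
(L (nat_lit 14424245)))
(S (nat_lit 22931) (S (nat_lit 34640) (S (nat_lit 1770) (S (nat_lit 29005) (S (nat_lit 16772) (L (nat_lit 24192813))
(L (nat_lit 26591941)))
(L (nat_lit 13246241)))
(L (nat_lit 13522116)))
(L (nat_lit 30920897)))
(S (nat_lit 42695) (S (nat_lit 6321) (S (nat_lit 32946) (S (nat_lit 2735) (S (nat_lit 17744) (L (nat_lit 28859619))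
(L (nat_lit 17982155)))
(L (nat_lit 4078283)))
(L (nat_lit 3692326)))
(S (nat_lit 29602) (S (nat_lit 39880) (L (nat_lit 13476452))
(L (nat_lit 3655929)))
(L (nat_lit 3721560))))
(L (nat_lit 25305839)))))
(S (nat_lit 43208) (S (nat_lit 8269) (S (nat_lit 39529) (S (nat_lit 9752) (S (nat_lit 1763) (L (nat_lit 10934333))
(L (nat_lit 26946608)))
(L (nat_lit 23925101)))
(L (nat_lit 23495932)))
(S (nat_lit 28033) (S (nat_lit 32947) (S (nat_lit 42687) (L (nat_lit 7040047))
(L (nat_lit 27347466)))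
(L (nat_lit 3807768)))
(S (nat_lit 47797) (S (nat_lit 15848) (S (nat_lit 32672) (S (nat_lit 41299) (S (nat_lit 16342) (L (nat_lit 23366073))
(L (nat_lit 17031222)))
(L (nat_lit 18042937)))
(L (nat_lit 14429301)))
(L (nat_lit 3428796)))
(L (nat_lit 25889038)))))
(L (nat_lit 25248456)))))
(L (nat_lit 25445088)))))
(S (nat_lit 27611) (S (nat_lit 14876) (S (nat_lit 1771) (S (nat_lit 15848) (S (nat_lit 5173) (S (nat_lit 49280) (S (nat_lit 32947) (L (nat_lit 12375181))
(L (nat_lit 15571094)))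
(L (nat_lit 7361082)))
(L (nat_lit 26357141)))
(S (nat_lit 35612) (S (nat_lit 2742) (L (nat_lit 13783819))
(L (nat_lit 17748325)))
(S (nat_lit 55376) (S (nat_lit 31434) (S (nat_lit 24937) (S (nat_lit 8269) (L (nat_lit 19339323))
(L (nat_lit 13708922)))
(L (nat_lit 6705954)))
(L (nat_lit 6345519)))
(L (nat_lit 25307636)))))
(L (nat_lit 4739978)))
(S (nat_lit 34640) (S (nat_lit 1779) (S (nat_lit 3159) (S (nat_lit 19772) (S (nat_lit 29005) (S (nat_lit 32675) (S (nat_lit 52711) (S (nat_lit 45850) (S (nat_lit 4664) (S (nat_lit 36533) (S (nat_lit 26083) (S (nat_lit 39289) (S (nat_lit 11258) (S (nat_lit 59029) (S (nat_lit 38042) (S (nat_lit 57144) (S (nat_lit 13050) (S (nat_lit 11776) (S (nat_lit 32790) (S (nat_lit 29128) (D (nat_lit 16) (nat_lit 27843623) (nat_lit 3592472) (nat_lit 2305915646843552801))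
(L (nat_lit 22342700)))
(L (nat_lit 6714422)))
(L (nat_lit 17684674)))
(L (nat_lit 2766200)))
(L (nat_lit 28484209)))
(L (nat_lit 16883353)))
(L (nat_lit 12594841)))
(L (nat_lit 4911470)))
(L (nat_lit 21147405)))
(L (nat_lit 1916490)))
(L (nat_lit 23987501)))
(L (nat_lit 6961953)))
(L (nat_lit 3067402)))
(L (nat_lit 4578873)))
(L (nat_lit 18922841)))
(L (nat_lit 24317809)))
(L (nat_lit 22250289)))
(S (nat_lit 22923) (S (nat_lit 36533) (S (nat_lit 5182) (S (nat_lit 23459) (L (nat_lit 7243439))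
(L (nat_lit 22419545)))
(L (nat_lit 488171)))
(L (nat_lit 18210692)))
(S (nat_lit 42687) (S (nat_lit 8269) (S (nat_lit 29513) (L (nat_lit 11454978))
(L (nat_lit 12292633)))
(L (nat_lit 12358167)))
(L (nat_lit 25513410)))))
(S (nat_lit 21543) (S (nat_lit 5173) (S (nat_lit 19772) (S (nat_lit 38033) (S (nat_lit 37508) (L (nat_lit 28529709))
(L (nat_lit 30972611)))
(L (nat_lit 30939316)))
(L (nat_lit 22034219)))
(S (nat_lit 24937) (S (nat_lit 40778) (S (nat_lit 14342) (S (nat_lit 19772) (L (nat_lit 30717636))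
(L (nat_lit 22278692)))
(L (nat_lit 22852649)))
(L (nat_lit 23893513)))
(S (nat_lit 44701) (S (nat_lit 29005) (S (nat_lit 35612) (S (nat_lit 32675) (S (nat_lit 1) (S (nat_lit 38033) (S (nat_lit 31435) (S (nat_lit 44186) (S (nat_lit 40793) (L (nat_lit 7358140))
(L (nat_lit 10273847)))
(L (nat_lit 27578785)))
(L (nat_lit 2675563)))
(L (nat_lit 7255620)))
(L (nat_lit 19096962)))
(L (nat_lit 30757282)))
(L (nat_lit 4505396)))
(L (nat_lit 30939218)))
(L (nat_lit 25898435)))))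
(S (nat_lit 41307) (S (nat_lit 1250) (S (nat_lit 41299) (S (nat_lit 13183) (S (nat_lit 32675) (S (nat_lit 19772) (S (nat_lit 3) (S (nat_lit 41291) (L (nat_lit 28319223))
(L (nat_lit 24915459)))
(L (nat_lit 7123059)))
(L (nat_lit 21168667)))
(L (nat_lit 11030585)))
(L (nat_lit 7889043)))
(L (nat_lit 23626009)))
(S (nat_lit 21014) (S (nat_lit 29005) (S (nat_lit 41299) (L (nat_lit 18613555))
(L (nat_lit 7159520)))
(L (nat_lit 12800801)))
(S (nat_lit 40778) (S (nat_lit 32675) (S (nat_lit 41299) (S (nat_lit 40790) (S (nat_lit 6322) (L (nat_lit 18733282))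
(L (nat_lit 20504804)))
(L (nat_lit 8281201)))
(L (nat_lit 17584170)))
(L (nat_lit 14438440)))
(L (nat_lit 25316903)))))
(L (nat_lit 25444402)))))
(S (nat_lit 54404) (S (nat_lit 9241) (L (nat_lit 6803611))
(L (nat_lit 3985772)))
(L (nat_lit 25904323)))))
(S (nat_lit 47375) (S (nat_lit 9752) (S (nat_lit 24937) (S (nat_lit 15839) (S (nat_lit 54971) (L (nat_lit 3629675))
(S (nat_lit 55376) (S (nat_lit 8269) (S (nat_lit 4667) (S (nat_lit 52436) (S (nat_lit 34640) (S (nat_lit 29005) (S (nat_lit 36106) (L (nat_lit 11210172))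
(L (nat_lit 12882589)))
(L (nat_lit 8868641)))
(L (nat_lit 30415504)))
(L (nat_lit 839980)))
(L (nat_lit 2382269)))
(L (nat_lit 21802533)))
(L (nat_lit 2502232))))
(S (nat_lit 35603) (S (nat_lit 41840) (L (nat_lit 26511798))
(S (nat_lit 55376) (S (nat_lit 52436) (S (nat_lit 8269) (S (nat_lit 2742) (S (nat_lit 44183) (S (nat_lit 42687) (S (nat_lit 42688) (S (nat_lit 30425) (L (nat_lit 7362072))
(L (nat_lit 10204928)))
(L (nat_lit 10057152)))
(L (nat_lit 10057154)))
(L (nat_lit 13422785)))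
(L (nat_lit 8278501)))
(L (nat_lit 21802533)))
(L (nat_lit 22851104)))
(L (nat_lit 3035503))))
(S (nat_lit 55367) (S (nat_lit 55376) (S (nat_lit 8269) (S (nat_lit 52436) (L (nat_lit 6010632))
(L (nat_lit 839980)))
(L (nat_lit 21128743)))
(L (nat_lit 21804107)))
(L (nat_lit 25207373)))))
(L (nat_lit 14536930)))
(S (nat_lit 29516) (S (nat_lit 18278) (S (nat_lit 29513) (S (nat_lit 44701) (S (nat_lit 34640) (L (nat_lit 4576111))
(L (nat_lit 512872)))
(L (nat_lit 27742435)))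
(L (nat_lit 25072073)))
(S (nat_lit 38042) (S (nat_lit 29005) (S (nat_lit 42271) (S (nat_lit 11670) (S (nat_lit 44701) (S (nat_lit 21534) (S (nat_lit 43214) (S (nat_lit 34640) (S (nat_lit 50777) (S (nat_lit 12908) (S (nat_lit 3167) (S (nat_lit 21429) (S (nat_lit 49725) (S (nat_lit 34258) (S (nat_lit 11258) (S (nat_lit 34103) (S (nat_lit 26085) (L (nat_lit 1369492))
(L (nat_lit 14020755)))
(L (nat_lit 31173024)))
(S (nat_lit 31022) (S (nat_lit 42688) (S (nat_lit 37508) (L (nat_lit 5840652))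
(L (nat_lit 31180035)))
(L (nat_lit 27867392)))
(L (nat_lit 25570979))))
(L (nat_lit 17009430)))
(L (nat_lit 18683926)))
(L (nat_lit 2759500)))
(L (nat_lit 17601225)))
(L (nat_lit 5788454)))
(L (nat_lit 12386707)))
(L (nat_lit 30429393)))
(L (nat_lit 6706052)))
(L (nat_lit 30462473)))
(L (nat_lit 12734713)))
(L (nat_lit 18632842)))
(L (nat_lit 2904401)))
(L (nat_lit 12702568)))
(S (nat_lit 57806) (S (nat_lit 22507) (S (nat_lit 1253) (S (nat_lit 29005) (L (nat_lit 7917592))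
(L (nat_lit 12800801)))
(L (nat_lit 4018567)))
(L (nat_lit 18649833)))
(L (nat_lit 25599557)))))
(S (nat_lit 49280) (S (nat_lit 8) (S (nat_lit 13182) (S (nat_lit 0) (S (nat_lit 4) (S (nat_lit 15848) (S (nat_lit 43220) (S (nat_lit 22499) (L (nat_lit 19248186))
(L (nat_lit 31168992)))
(L (nat_lit 6068813)))
(L (nat_lit 6441869)))
(L (nat_lit 19707170)))
(L (nat_lit 7090785)))
(S (nat_lit 32946) (S (nat_lit 19764) (S (nat_lit 11249) (S (nat_lit 45849) (S (nat_lit 41299) (S (nat_lit 5181) (L (nat_lit 5026506))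
(L (nat_lit 9343379)))
(L (nat_lit 27465269)))
(L (nat_lit 2731919)))
(L (nat_lit 2509149)))
(L (nat_lit 2962023)))
(S (nat_lit 52710) (S (nat_lit 23456) (S (nat_lit 47384) (S (nat_lit 15839) (S (nat_lit 29005) (L (nat_lit 6319637))
(L (nat_lit 18488100)))
(L (nat_lit 7494541)))
(L (nat_lit 8053248)))
(L (nat_lit 11285526)))
(L (nat_lit 25762989)))))
(S (nat_lit 19772) (S (nat_lit 19767) (S (nat_lit 19765) (S (nat_lit 41307) (L (nat_lit 3749083))
(L (nat_lit 3948819)))
(L (nat_lit 21201304)))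
(S (nat_lit 37398) (S (nat_lit 48769) (L (nat_lit 21325184))
(L (nat_lit 20028177)))
(L (nat_lit 21365511))))
(S (nat_lit 39536) (S (nat_lit 5173) (S (nat_lit 44183) (L (nat_lit 25047236))
(L (nat_lit 27440375)))
(S (nat_lit 43802) (S (nat_lit 23459) (L (nat_lit 5891559))
(L (nat_lit 30810756)))
(L (nat_lit 400090))))
(L (nat_lit 25178858)))))
(L (nat_lit 25725671)))))
(L (nat_lit 25855281)))))
(L (nat_lit 25677863)))))
(S (nat_lit 44700) (S (nat_lit 6318) (S (nat_lit 6326) (S (nat_lit 16341) (S (nat_lit 19500) (S (nat_lit 9749) (S (nat_lit 0) (S (nat_lit 8) (S (nat_lit 3163) (S (nat_lit 3167) (S (nat_lit 16769) (S (nat_lit 21026) (S (nat_lit 42270) (S (nat_lit 13182) (S (nat_lit 17741) (S (nat_lit 46064) (S (nat_lit 41298) (S (nat_lit 39318) (S (nat_lit 1406) (S (nat_lit 54272) (S (nat_lit 16772) (S (nat_lit 3680) (S (nat_lit 5165) (L (nat_lit 2341468))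
(L (nat_lit 15958781)))
(L (nat_lit 14911229)))
(S (nat_lit 36536) (S (nat_lit 32675) (S (nat_lit 41291) (L (nat_lit 2989647))
(L (nat_lit 24651523)))
(L (nat_lit 24651522)))
(L (nat_lit 25626312))))
(L (nat_lit 29515056)))
(L (nat_lit 29827680)))
(L (nat_lit 19664331)))
(L (nat_lit 7098884)))
(L (nat_lit 19673284)))
(L (nat_lit 2938062)))
(L (nat_lit 6959257)))
(L (nat_lit 864627)))
(L (nat_lit 4988528)))
(L (nat_lit 26257071)))
(L (nat_lit 4991693)))
(L (nat_lit 20714022)))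
(L (nat_lit 26424004)))
(L (nat_lit 26424371)))
(S (nat_lit 29513) (S (nat_lit 16769) (S (nat_lit 38033) (S (nat_lit 9241) (L (nat_lit 20155833))
(L (nat_lit 7016337)))
(L (nat_lit 7015833)))
(L (nat_lit 22406596)))
(S (nat_lit 49277) (S (nat_lit 16769) (S (nat_lit 6593) (L (nat_lit 9834108))
(L (nat_lit 1533514)))
(L (nat_lit 22340036)))
(L (nat_lit 25186825)))))
(S (nat_lit 39264) (S (nat_lit 3686) (S (nat_lit 49805) (S (nat_lit 6322) (S (nat_lit 47797) (S (nat_lit 9241) (S (nat_lit 19772) (S (nat_lit 22516) (L (nat_lit 2471765))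
(L (nat_lit 21465896)))
(L (nat_lit 21836100)))
(L (nat_lit 5924328)))
(L (nat_lit 27930821)))
(L (nat_lit 19259812)))
(L (nat_lit 20123471)))
(S (nat_lit 23450) (S (nat_lit 6593) (S (nat_lit 40790) (S (nat_lit 42263) (S (nat_lit 24428) (L (nat_lit 10325647))
(L (nat_lit 10247713)))
(L (nat_lit 11341551)))
(L (nat_lit 7856247)))
(L (nat_lit 12902980)))
(S (nat_lit 43214) (S (nat_lit 26085) (S (nat_lit 30041) (S (nat_lit 21544) (S (nat_lit 16769) (S (nat_lit 44183) (S (nat_lit 44195) (L (nat_lit 3982026))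
(L (nat_lit 13405834)))
(L (nat_lit 13243608)))
(L (nat_lit 10238693)))
(L (nat_lit 8163055)))
(L (nat_lit 8162991)))
(L (nat_lit 8261295)))
(L (nat_lit 25514061)))))
(S (nat_lit 59028) (S (nat_lit 6322) (S (nat_lit 24428) (S (nat_lit 41307) (S (nat_lit 16769) (S (nat_lit 32672) (S (nat_lit 29513) (L (nat_lit 5795122))
(S (nat_lit 48404) (S (nat_lit 33603) (S (nat_lit 45294) (S (nat_lit 47994) (S (nat_lit 19941) (S (nat_lit 5181) (S (nat_lit 587) (S (nat_lit 34103) (S (nat_lit 1780) (S (nat_lit 30041) (S (nat_lit 14867) (L (nat_lit 4473467))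
(L (nat_lit 22905350)))
(L (nat_lit 31109316)))
(S (nat_lit 41308) (S (nat_lit 59029) (S (nat_lit 49805) (L (nat_lit 4505276))
(L (nat_lit 27963588)))
(L (nat_lit 21374785)))
(L (nat_lit 25890343))))
(L (nat_lit 12302144)))
(L (nat_lit 9860672)))
(L (nat_lit 26612456)))
(L (nat_lit 6447667)))
(L (nat_lit 24613149)))
(L (nat_lit 22579485)))
(L (nat_lit 8938048)))
(L (nat_lit 30812803))))
(L (nat_lit 17377090)))
(L (nat_lit 17491237)))
(S (nat_lit 45759) (L (nat_lit 10150400))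
(L (nat_lit 18585659))))
(S (nat_lit 44363) (S (nat_lit 3579) (L (nat_lit 13363339))
(L (nat_lit 10241106)))
(L (nat_lit 10227308))))
(L (nat_lit 9932629)))
(L (nat_lit 25449861)))))
(S (nat_lit 36105) (S (nat_lit 44192) (L (nat_lit 5550808))
(L (nat_lit 24437281)))
(S (nat_lit 55869) (S (nat_lit 4655) (S (nat_lit 6322) (S (nat_lit 59029) (S (nat_lit 21020) (L (nat_lit 2380185))
(L (nat_lit 15477815)))
(L (nat_lit 15478340)))
(L (nat_lit 20243876)))
(S (nat_lit 24419) (L (nat_lit 16044057))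
(S (nat_lit 44183) (L (nat_lit 12905494))
(L (nat_lit 25711690)))))
(L (nat_lit 25667701)))))
(S (nat_lit 26090) (S (nat_lit 45850) (S (nat_lit 3163) (S (nat_lit 8) (S (nat_lit 21802) (S (nat_lit 42687) (L (nat_lit 22165384))
(L (nat_lit 16348298)))
(S (nat_lit 44192) (S (nat_lit 21534) (S (nat_lit 2742) (S (nat_lit 17741) (S (nat_lit 19500) (S (nat_lit 3692) (S (nat_lit 24945) (S (nat_lit 34468) (S (nat_lit 52831) (S (nat_lit 17744) (S (nat_lit 47384) (S (nat_lit 53870) (S (nat_lit 19765) (L (nat_lit 20000253))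
(L (nat_lit 16359298)))
(L (nat_lit 27549154)))
(L (nat_lit 27893282)))
(S (nat_lit 37508) (S (nat_lit 41308) (S (nat_lit 16342) (L (nat_lit 217657))
(L (nat_lit 14803251)))
(L (nat_lit 16900842)))
(L (nat_lit 25239058))))
(L (nat_lit 29774021)))
(L (nat_lit 18997518)))
(L (nat_lit 2513148)))
(L (nat_lit 20017606)))
(L (nat_lit 9921557)))
(L (nat_lit 22111787)))
(L (nat_lit 6318830)))
(L (nat_lit 6083788)))
(L (nat_lit 23378072))))
(S (nat_lit 2517) (L (nat_lit 14279851))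
(L (nat_lit 13410020))))
(S (nat_lit 22927) (S (nat_lit 16342) (S (nat_lit 6593) (S (nat_lit 35603) (S (nat_lit 44192) (S (nat_lit 1779) (S (nat_lit 35612) (S (nat_lit 11249) (L (nat_lit 2830712))
(L (nat_lit 21078958)))
(L (nat_lit 12870674)))
(L (nat_lit 13366468)))
(L (nat_lit 1368567)))
(L (nat_lit 4514383)))
(L (nat_lit 23389637)))
(S (nat_lit 36106) (S (nat_lit 7856) (S (nat_lit 44180) (S (nat_lit 36533) (S (nat_lit 59028) (S (nat_lit 44192) (S (nat_lit 41310) (L (nat_lit 4048183))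
(L (nat_lit 13200491)))
(L (nat_lit 23390753)))
(L (nat_lit 12676745)))
(L (nat_lit 23997453)))
(L (nat_lit 14994179)))
(L (nat_lit 26510000)))
(S (nat_lit 55870) (S (nat_lit 26083) (S (nat_lit 36533) (S (nat_lit 59028) (L (nat_lit 12947222))
(L (nat_lit 21767185)))
(L (nat_lit 2960914)))
(L (nat_lit 13944957)))
(L (nat_lit 25275020)))))
(S (nat_lit 42691) (S (nat_lit 6593) (S (nat_lit 44269) (L (nat_lit 2582186))
(S (nat_lit 57806) (S (nat_lit 8269) (L (nat_lit 28610286))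
(L (nat_lit 21292079)))
(L (nat_lit 7885636))))
(S (nat_lit 26357) (S (nat_lit 24416) (S (nat_lit 24929) (S (nat_lit 36105) (S (nat_lit 55870) (L (nat_lit 29474103))
(L (nat_lit 10247648)))
(L (nat_lit 23390626)))
(L (nat_lit 30719685)))
(S (nat_lit 44098) (S (nat_lit 16871) (L (nat_lit 24198492))
(L (nat_lit 12622676)))
(L (nat_lit 313049))))
(S (nat_lit 46121) (S (nat_lit 36533) (S (nat_lit 44180) (S (nat_lit 36105) (S (nat_lit 44192) (S (nat_lit 42270) (S (nat_lit 36106) (S (nat_lit 5165) (L (nat_lit 2372187))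
(L (nat_lit 311036)))
(L (nat_lit 13406859)))
(L (nat_lit 23930277)))
(L (nat_lit 13413527)))
(L (nat_lit 13491426)))
(L (nat_lit 12897027)))
(L (nat_lit 23931951)))
(L (nat_lit 25440339)))))
(L (nat_lit 25248422)))))
(L (nat_lit 23381793)))
(S (nat_lit 45854) (S (nat_lit 14867) (S (nat_lit 13183) (S (nat_lit 16769) (S (nat_lit 42279) (S (nat_lit 30050) (L (nat_lit 2438966))
(L (nat_lit 7530093)))
(L (nat_lit 23868773)))
(S (nat_lit 36533) (S (nat_lit 24937) (S (nat_lit 30050) (S (nat_lit 45847) (L (nat_lit 13852853))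
(L (nat_lit 12897401)))
(L (nat_lit 2617000)))
(L (nat_lit 2417392)))
(S (nat_lit 56297) (S (nat_lit 30050) (S (nat_lit 36536) (S (nat_lit 3) (S (nat_lit 2743) (S (nat_lit 3686) (L (nat_lit 28463439))
(L (nat_lit 26564133)))
(L (nat_lit 26300904)))
(L (nat_lit 12622706)))
(L (nat_lit 2800392)))
(L (nat_lit 13407443)))
(L (nat_lit 25691878)))))
(S (nat_lit 32947) (S (nat_lit 3686) (S (nat_lit 30050) (L (nat_lit 6874259))
(L (nat_lit 2616936)))
(L (nat_lit 10339973)))
(S (nat_lit 52711) (S (nat_lit 16342) (S (nat_lit 3163) (L (nat_lit 5562839))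
(L (nat_lit 4809073)))
(S (nat_lit 36106) (S (nat_lit 15701) (L (nat_lit 13375115))
(S (nat_lit 45847) (S (nat_lit 38033) (L (nat_lit 2005583))
(L (nat_lit 23858478)))
(L (nat_lit 27378996))))
(S (nat_lit 55870) (S (nat_lit 3686) (S (nat_lit 24431) (S (nat_lit 26085) (L (nat_lit 29660723))
(L (nat_lit 21085961)))
(L (nat_lit 9625356)))
(L (nat_lit 12406895)))
(L (nat_lit 25209331)))))
(L (nat_lit 25757006)))))
(S (nat_lit 34631) (S (nat_lit 14342) (S (nat_lit 15839) (S (nat_lit 16342) (S (nat_lit 32672) (S (nat_lit 4652) (S (nat_lit 44709) (L (nat_lit 10032604))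
(L (nat_lit 13377216)))
(L (nat_lit 7519965)))
(L (nat_lit 8142528)))
(L (nat_lit 24437809)))
(S (nat_lit 35603) (S (nat_lit 1) (S (nat_lit 59029) (L (nat_lit 962127))
(L (nat_lit 13242122)))
(L (nat_lit 14437384)))
(S (nat_lit 55367) (S (nat_lit 59029) (S (nat_lit 50786) (S (nat_lit 6593) (L (nat_lit 2700107))
(L (nat_lit 6808133)))
(L (nat_lit 27594348)))
(L (nat_lit 13374678)))
(L (nat_lit 25732738)))))
(S (nat_lit 34106) (S (nat_lit 3167) (S (nat_lit 22507) (S (nat_lit 59028) (L (nat_lit 12706505))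
(L (nat_lit 2899529)))
(L (nat_lit 1499849)))
(S (nat_lit 22931) (S (nat_lit 16769) (S (nat_lit 19501) (L (nat_lit 7070145))
(L (nat_lit 5923274)))
(S (nat_lit 29213) (S (nat_lit 31022) (L (nat_lit 5118705))
(L (nat_lit 19278971)))
(L (nat_lit 808239))))
(S (nat_lit 42695) (S (nat_lit 41308) (S (nat_lit 41291) (L (nat_lit 8089645))
(L (nat_lit 23360561)))
(L (nat_lit 23629017)))
(L (nat_lit 25507894)))))
(S (nat_lit 53870) (S (nat_lit 5173) (S (nat_lit 4652) (S (nat_lit 4664) (S (nat_lit 38033) (L (nat_lit 6992802))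
(L (nat_lit 31133127)))
(L (nat_lit 15922422)))
(L (nat_lit 2417047)))
(S (nat_lit 24937) (S (nat_lit 59028) (S (nat_lit 39265) (S (nat_lit 38033) (S (nat_lit 22515) (S (nat_lit 31013) (L (nat_lit 6788978))
(L (nat_lit 483114)))
(L (nat_lit 13478595)))
(L (nat_lit 20876745)))
(L (nat_lit 20188632)))
(L (nat_lit 27921865)))
(S (nat_lit 44701) (S (nat_lit 9749) (S (nat_lit 4652) (L (nat_lit 22190556))
(L (nat_lit 7529164)))
(L (nat_lit 14869193)))
(L (nat_lit 25922955)))))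
(L (nat_lit 25441332)))))
(S (nat_lit 54395) (S (nat_lit 4) (S (nat_lit 21543) (S (nat_lit 14283) (L (nat_lit 21390506))
(S (nat_lit 55869) (S (nat_lit 8269) (S (nat_lit 26086) (S (nat_lit 21534) (S (nat_lit 44701) (L (nat_lit 10219568))
(L (nat_lit 10245261)))
(L (nat_lit 21506172)))
(L (nat_lit 17405706)))
(L (nat_lit 13406826)))
(L (nat_lit 19370762))))
(S (nat_lit 54578) (L (nat_lit 6041907))
(L (nat_lit 7923426))))
(S (nat_lit 19768) (S (nat_lit 9749) (S (nat_lit 13068) (L (nat_lit 23571580))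
(S (nat_lit 21543) (L (nat_lit 9626071))
(L (nat_lit 15459435))))
(S (nat_lit 29513) (S (nat_lit 22506) (S (nat_lit 42263) (L (nat_lit 11723223))
(L (nat_lit 23435023)))
(L (nat_lit 8401715)))
(S (nat_lit 49277) (S (nat_lit 8269) (S (nat_lit 44195) (L (nat_lit 13542579))
(L (nat_lit 1356440)))
(L (nat_lit 13406487)))
(L (nat_lit 25579779)))))
(S (nat_lit 39532) (S (nat_lit 22876) (L (nat_lit 23085277))
(S (nat_lit 26086) (S (nat_lit 16621) (L (nat_lit 23506012))
(S (nat_lit 43214) (S (nat_lit 55869) (S (nat_lit 13985) (S (nat_lit 16772) (L (nat_lit 3633833))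
(L (nat_lit 22406221)))
(L (nat_lit 27644420)))
(L (nat_lit 13759797)))
(L (nat_lit 27378934))))
(L (nat_lit 4771064))))
(L (nat_lit 25761903)))))
(L (nat_lit 25676840)))))
(L (nat_lit 25532108)))))
(S (nat_lit 26082) (S (nat_lit 2742) (S (nat_lit 2735) (S (nat_lit 5165) (S (nat_lit 21017) (S (nat_lit 11258) (S (nat_lit 13182) (L (nat_lit 26590786))
(L (nat_lit 12945303)))
(L (nat_lit 4577166)))
(S (nat_lit 40703) (S (nat_lit 11258) (L (nat_lit 10573740))
(L (nat_lit 4577166)))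
(L (nat_lit 6752151))))
(S (nat_lit 24929) (S (nat_lit 11258) (S (nat_lit 2752) (S (nat_lit 32675) (S (nat_lit 32672) (S (nat_lit 53870) (L (nat_lit 7072876))
(L (nat_lit 18110336)))
(L (nat_lit 8147426)))
(L (nat_lit 8311200)))
(S (nat_lit 20404) (L (nat_lit 17730280))
(L (nat_lit 26575284))))
(S (nat_lit 31022) (S (nat_lit 8269) (S (nat_lit 17744) (L (nat_lit 3626858))
(L (nat_lit 8052750)))
(L (nat_lit 21292079)))
(S (nat_lit 50786) (S (nat_lit 17116) (L (nat_lit 3460508))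
(S (nat_lit 40781) (S (nat_lit 32947) (S (nat_lit 39264) (L (nat_lit 21147505))
(L (nat_lit 7958981)))
(L (nat_lit 15500630)))
(L (nat_lit 7800758))))
(L (nat_lit 25546177)))))
(S (nat_lit 44693) (S (nat_lit 17744) (S (nat_lit 31133) (L (nat_lit 27381965))
(S (nat_lit 32672) (S (nat_lit 57806) (S (nat_lit 55870) (S (nat_lit 47384) (S (nat_lit 40781) (S (nat_lit 21544) (S (nat_lit 32675) (L (nat_lit 17882424))
(L (nat_lit 5001734)))
(L (nat_lit 15506117)))
(L (nat_lit 27628145)))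
(L (nat_lit 27346227)))
(L (nat_lit 27513900)))
(L (nat_lit 21803236)))
(L (nat_lit 8130190))))
(S (nat_lit 37508) (S (nat_lit 4655) (L (nat_lit 4907435))
(L (nat_lit 26399275)))
(S (nat_lit 57272) (S (nat_lit 28033) (S (nat_lit 43220) (S (nat_lit 45850) (L (nat_lit 17009370))
(L (nat_lit 23379745)))
(L (nat_lit 27342438)))
(L (nat_lit 8269874)))
(L (nat_lit 25320748)))))
(L (nat_lit 25348398)))))
(S (nat_lit 22499) (S (nat_lit 18278) (S (nat_lit 8269) (S (nat_lit 2743) (S (nat_lit 7856) (S (nat_lit 35612) (S (nat_lit 29516) (L (nat_lit 738649))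
(L (nat_lit 5820795)))
(L (nat_lit 4608347)))
(L (nat_lit 23144336)))
(L (nat_lit 7418805)))
(L (nat_lit 21050282)))
(S (nat_lit 38042) (S (nat_lit 42271) (S (nat_lit 43214) (S (nat_lit 26357) (S (nat_lit 7856) (S (nat_lit 11671) (S (nat_lit 1780) (L (nat_lit 9102852))
(L (nat_lit 26984640)))
(L (nat_lit 23872803)))
(L (nat_lit 14329728)))
(L (nat_lit 30497227)))
(L (nat_lit 23147400)))
(L (nat_lit 23146844)))
(S (nat_lit 57806) (S (nat_lit 16772) (S (nat_lit 48768) (S (nat_lit 35603) (L (nat_lit 7389915))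
(L (nat_lit 5154226)))
(L (nat_lit 27382183)))
(S (nat_lit 36536) (S (nat_lit 1842) (L (nat_lit 21890443))
(S (nat_lit 28033) (S (nat_lit 15848) (S (nat_lit 50777) (L (nat_lit 3521244))
(L (nat_lit 12691066)))
(L (nat_lit 5812146)))
(L (nat_lit 8269938))))
(S (nat_lit 56300) (S (nat_lit 22515) (S (nat_lit 42280) (L (nat_lit 27639525))
(L (nat_lit 24209777)))
(L (nat_lit 13329765)))
(L (nat_lit 25527700)))))
(L (nat_lit 25894276)))))
(S (nat_lit 42263) (S (nat_lit 19501) (S (nat_lit 1205) (S (nat_lit 40379) (L (nat_lit 18763786))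
(L (nat_lit 13522087)))
(S (nat_lit 53867) (S (nat_lit 14876) (S (nat_lit 1763) (S (nat_lit 42279) (S (nat_lit 21020) (L (nat_lit 29755765))
(L (nat_lit 22821929)))
(L (nat_lit 27754867)))
(L (nat_lit 2864040)))
(L (nat_lit 13864852)))
(L (nat_lit 7466737))))
(S (nat_lit 39265) (S (nat_lit 42695) (S (nat_lit 32675) (S (nat_lit 4) (S (nat_lit 48768) (S (nat_lit 42687) (S (nat_lit 44701) (L (nat_lit 28463496))
(L (nat_lit 23225734)))
(L (nat_lit 13782363)))
(L (nat_lit 14356295)))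
(L (nat_lit 7942234)))
(L (nat_lit 7893043)))
(S (nat_lit 53714) (L (nat_lit 14503046))
(L (nat_lit 13898488))))
(S (nat_lit 59029) (S (nat_lit 22516) (S (nat_lit 57797) (S (nat_lit 22926) (S (nat_lit 23459) (S (nat_lit 50786) (S (nat_lit 1763) (L (nat_lit 10564284))
(L (nat_lit 13315133)))
(L (nat_lit 13390954)))
(L (nat_lit 8150095)))
(L (nat_lit 22489860)))
(L (nat_lit 12693332)))
(L (nat_lit 21347357)))
(L (nat_lit 25830785)))))
(L (nat_lit 25935947)))))
(S (nat_lit 22506) (S (nat_lit 15848) (S (nat_lit 9241) (S (nat_lit 12911) (L (nat_lit 840171))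
(L (nat_lit 10342816)))
(S (nat_lit 29005) (S (nat_lit 29513) (S (nat_lit 1256) (L (nat_lit 17977721))
(L (nat_lit 9261200)))
(L (nat_lit 30790145)))
(S (nat_lit 48769) (S (nat_lit 11671) (S (nat_lit 49280) (S (nat_lit 54404) (S (nat_lit 1253) (S (nat_lit 44183) (S (nat_lit 38042) (S (nat_lit 14342) (S (nat_lit 3159) (S (nat_lit 1) (S (nat_lit 59029) (L (nat_lit 2824733))
(L (nat_lit 12868636)))
(L (nat_lit 8171572)))
(L (nat_lit 4991506)))
(L (nat_lit 13405556)))
(L (nat_lit 3527131)))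
(L (nat_lit 27709514)))
(L (nat_lit 10965762)))
(L (nat_lit 9228801)))
(L (nat_lit 4083919)))
(L (nat_lit 807152)))
(L (nat_lit 25696929)))))
(S (nat_lit 35612) (S (nat_lit 16342) (S (nat_lit 29005) (S (nat_lit 1256) (S (nat_lit 39529) (S (nat_lit 8269) (L (nat_lit 23179642))
(L (nat_lit 12904037)))
(L (nat_lit 4797289)))
(L (nat_lit 9261200)))
(S (nat_lit 31273) (S (nat_lit 29513) (L (nat_lit 30626829))
(L (nat_lit 381773)))
(L (nat_lit 13311780))))
(S (nat_lit 36106) (S (nat_lit 7856) (S (nat_lit 8269) (S (nat_lit 44186) (S (nat_lit 6593) (L (nat_lit 7191667))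
(L (nat_lit 23147339)))
(L (nat_lit 23500683)))
(S (nat_lit 10537) (S (nat_lit 51313) (L (nat_lit 23923112))
(L (nat_lit 23520453)))
(L (nat_lit 13389866))))
(S (nat_lit 43849) (S (nat_lit 25285) (L (nat_lit 30559437))
(L (nat_lit 9261200)))
(L (nat_lit 13927349))))
(S (nat_lit 55870) (S (nat_lit 56300) (S (nat_lit 4667) (S (nat_lit 32947) (S (nat_lit 44701) (S (nat_lit 57806) (S (nat_lit 21029) (S (nat_lit 29513) (S (nat_lit 6593) (S (nat_lit 34106) (S (nat_lit 54395) (L (nat_lit 29562386))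
(L (nat_lit 1795590)))
(L (nat_lit 4956667)))
(L (nat_lit 12878588)))
(L (nat_lit 19663367)))
(L (nat_lit 16517334)))
(L (nat_lit 8076101)))
(L (nat_lit 23366480)))
(L (nat_lit 30750274)))
(S (nat_lit 6017) (L (nat_lit 23392303))
(L (nat_lit 4518422))))
(S (nat_lit 57731) (S (nat_lit 56134) (L (nat_lit 22082926))
(L (nat_lit 14996537)))
(L (nat_lit 13927316))))
(L (nat_lit 25837797)))))
(S (nat_lit 55376) (S (nat_lit 1) (S (nat_lit 4664) (S (nat_lit 3167) (S (nat_lit 43220) (S (nat_lit 39265) (S (nat_lit 32946) (S (nat_lit 30050) (L (nat_lit 8566394))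
(L (nat_lit 2932328)))
(L (nat_lit 8991521)))
(L (nat_lit 14462529)))
(L (nat_lit 23486472)))
(L (nat_lit 4809129)))
(S (nat_lit 24428) (S (nat_lit 23450) (L (nat_lit 10572283))
(L (nat_lit 7917659)))
(S (nat_lit 44192) (S (nat_lit 42279) (S (nat_lit 50786) (S (nat_lit 5173) (L (nat_lit 11612890))
(L (nat_lit 26629410)))
(L (nat_lit 1684298)))
(L (nat_lit 11286243)))
(L (nat_lit 25593418)))))
(S (nat_lit 19765) (S (nat_lit 0) (S (nat_lit 28033) (S (nat_lit 53870) (L (nat_lit 732568))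
(L (nat_lit 19214392)))
(L (nat_lit 19247160)))
(S (nat_lit 19764) (S (nat_lit 24937) (S (nat_lit 34103) (L (nat_lit 22917316))
(L (nat_lit 1922439)))
(L (nat_lit 2937286)))
(S (nat_lit 39528) (S (nat_lit 29004) (S (nat_lit 11258) (S (nat_lit 24422) (S (nat_lit 9241) (S (nat_lit 24937) (S (nat_lit 49814) (S (nat_lit 3695) (L (nat_lit 2310844))
(L (nat_lit 1472166)))
(L (nat_lit 4823885)))
(L (nat_lit 21434150)))
(L (nat_lit 15506450)))
(L (nat_lit 30855178)))
(L (nat_lit 23408701)))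
(L (nat_lit 18763782)))
(L (nat_lit 25205139)))))
(S (nat_lit 39529) (S (nat_lit 1253) (S (nat_lit 18278) (S (nat_lit 51198) (S (nat_lit 47797) (L (nat_lit 13235491))
(L (nat_lit 6369980)))
(L (nat_lit 5591453)))
(L (nat_lit 381341)))
(S (nat_lit 21017) (S (nat_lit 24937) (S (nat_lit 42271) (L (nat_lit 28398985))
(L (nat_lit 27349417)))
(L (nat_lit 2937286)))
(S (nat_lit 40781) (S (nat_lit 24937) (S (nat_lit 19501) (L (nat_lit 21890473))
(L (nat_lit 26873290)))
(L (nat_lit 13783910)))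
(L (nat_lit 25835689)))))
(L (nat_lit 25217262)))))
(L (nat_lit 25559410)))))
(S (nat_lit 42270) (S (nat_lit 12911) (S (nat_lit 9752) (S (nat_lit 48769) (S (nat_lit 9749) (S (nat_lit 12908) (S (nat_lit 51199) (S (nat_lit 21020) (S (nat_lit 55376) (S (nat_lit 23450) (S (nat_lit 17744) (S (nat_lit 26085) (S (nat_lit 55870) (S (nat_lit 24431) (S (nat_lit 55367) (S (nat_lit 1) (S (nat_lit 52615) (S (nat_lit 15964) (S (nat_lit 8376) (S (nat_lit 56160) (S (nat_lit 9872) (S (nat_lit 38148) (S (nat_lit 11886) (S (nat_lit 35481) (S (nat_lit 21122) (D (nat_lit 10) (nat_lit 16551126) (nat_lit 8803072) (nat_lit 36031031542842434))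
(L (nat_lit 28839158)))
(L (nat_lit 15538325)))
(L (nat_lit 13296778)))
(L (nat_lit 13264010)))
(L (nat_lit 29011427)))
(L (nat_lit 1987886)))
(L (nat_lit 15902392)))
(L (nat_lit 19699113)))
(L (nat_lit 20753827)))
(L (nat_lit 12797978)))
(L (nat_lit 19277634)))
(L (nat_lit 30432682)))
(L (nat_lit 1367884)))
(L (nat_lit 4828604)))
(L (nat_lit 4898076)))
(L (nat_lit 21204537)))
(L (nat_lit 12112706)))
(L (nat_lit 12505538)))
(L (nat_lit 5821259)))
(L (nat_lit 12406958)))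
(L (nat_lit 15552833)))
(L (nat_lit 11031364)))
(S (nat_lit 29516) (S (nat_lit 23450) (L (nat_lit 10014749))
(L (nat_lit 3953192)))
(S (nat_lit 49280) (S (nat_lit 51199) (S (nat_lit 18278) (L (nat_lit 6803613))
(L (nat_lit 18698469)))
(L (nat_lit 7918402)))
(L (nat_lit 25344583)))))
(S (nat_lit 32675) (S (nat_lit 4667) (S (nat_lit 6593) (S (nat_lit 23450) (S (nat_lit 44701) (L (nat_lit 14331067))
(L (nat_lit 7754499)))
(L (nat_lit 13390053)))
(S (nat_lit 26357) (S (nat_lit 42271) (S (nat_lit 38042) (S (nat_lit 34640) (S (nat_lit 45849) (L (nat_lit 24975409))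
(L (nat_lit 23391651)))
(L (nat_lit 8144515)))
(L (nat_lit 23147305)))
(L (nat_lit 13718281)))
(S (nat_lit 46121) (S (nat_lit 43214) (L (nat_lit 30487178))
(L (nat_lit 27676776)))
(L (nat_lit 25462259)))))
(S (nat_lit 24431) (S (nat_lit 3695) (S (nat_lit 43208) (S (nat_lit 7856) (S (nat_lit 22924) (S (nat_lit 11671) (L (nat_lit 9058050))
(L (nat_lit 1626427)))
(L (nat_lit 21045789)))
(L (nat_lit 14584115)))
(L (nat_lit 13881092)))
(S (nat_lit 23459) (S (nat_lit 57797) (S (nat_lit 11670) (S (nat_lit 26357) (S (nat_lit 38042) (L (nat_lit 3502548))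
(L (nat_lit 6369947)))
(L (nat_lit 25081125)))
(L (nat_lit 807151)))
(L (nat_lit 21095881)))
(S (nat_lit 43223) (S (nat_lit 41299) (S (nat_lit 55367) (S (nat_lit 52711) (L (nat_lit 7434925))
(L (nat_lit 4993672)))
(L (nat_lit 13895508)))
(L (nat_lit 23598858)))
(L (nat_lit 25411204)))))
(S (nat_lit 44195) (S (nat_lit 1265) (S (nat_lit 43214) (S (nat_lit 1250) (S (nat_lit 28033) (L (nat_lit 19771717))
(L (nat_lit 11360366)))
(L (nat_lit 13443158)))
(L (nat_lit 27349544)))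
(S (nat_lit 21029) (S (nat_lit 32672) (S (nat_lit 17744) (L (nat_lit 8307795))
(L (nat_lit 4998450)))
(L (nat_lit 14438752)))
(S (nat_lit 40793) (S (nat_lit 20928) (S (nat_lit 45847) (S (nat_lit 19553) (S (nat_lit 44710) (L (nat_lit 2731452))
(L (nat_lit 7823541)))
(L (nat_lit 5057970)))
(L (nat_lit 902517)))
(S (nat_lit 50777) (S (nat_lit 21017) (L (nat_lit 24372740))
(L (nat_lit 12013691)))
(L (nat_lit 3520275))))
(L (nat_lit 25823440)))))
(L (nat_lit 25865228)))))
(S (nat_lit 52439) (S (nat_lit 1763) (S (nat_lit 6326) (S (nat_lit 22516) (S (nat_lit 45850) (S (nat_lit 36105) (S (nat_lit 59029) (L (nat_lit 9278871))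
(L (nat_lit 12658518)))
(L (nat_lit 23177660)))
(L (nat_lit 3057077)))
(L (nat_lit 12609256)))
(S (nat_lit 26090) (S (nat_lit 36536) (S (nat_lit 50777) (L (nat_lit 26682482))
(L (nat_lit 13444147)))
(L (nat_lit 13444804)))
(S (nat_lit 45854) (S (nat_lit 32946) (S (nat_lit 44709) (S (nat_lit 36533) (L (nat_lit 24022319))
(L (nat_lit 13510308)))
(L (nat_lit 13377248)))
(L (nat_lit 2716166)))
(L (nat_lit 25734882)))))
(S (nat_lit 21527) (S (nat_lit 11258) (S (nat_lit 26090) (S (nat_lit 44701) (L (nat_lit 2010833))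
(L (nat_lit 13315907)))
(L (nat_lit 21272027)))
(S (nat_lit 31022) (S (nat_lit 55869) (L (nat_lit 9833052))
(L (nat_lit 21294192)))
(S (nat_lit 50786) (S (nat_lit 50777) (L (nat_lit 8205924))
(L (nat_lit 12645034)))
(L (nat_lit 25855308)))))
(S (nat_lit 41291) (S (nat_lit 13182) (S (nat_lit 24419) (S (nat_lit 3) (S (nat_lit 24428) (S (nat_lit 17741) (L (nat_lit 8106849))
(L (nat_lit 8119843)))
(L (nat_lit 22548298)))
(L (nat_lit 7767891)))
(L (nat_lit 13947713)))
(S (nat_lit 32946) (S (nat_lit 1250) (S (nat_lit 31435) (S (nat_lit 34103) (L (nat_lit 28352947))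
(L (nat_lit 23409538)))
(L (nat_lit 2846957)))
(S (nat_lit 21632) (L (nat_lit 26587840))
(L (nat_lit 13453538))))
(S (nat_lit 52710) (S (nat_lit 44710) (S (nat_lit 49805) (S (nat_lit 26090) (L (nat_lit 28974597))
(L (nat_lit 11343318)))
(L (nat_lit 7155859)))
(L (nat_lit 23933218)))
(L (nat_lit 25690455)))))
(L (nat_lit 25212183)))))
(L (nat_lit 25710914)))))
(L (nat_lit 25662150)))))
(S (nat_lit 45846) (S (nat_lit 2751) (S (nat_lit 4667) (S (nat_lit 9241) (S (nat_lit 10286) (S (nat_lit 42691) (S (nat_lit 32947) (S (nat_lit 40784) (S (nat_lit 56300) (L (nat_lit 13825399))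
(L (nat_lit 7009359)))
(L (nat_lit 2611081)))
(L (nat_lit 2650483)))
(L (nat_lit 23426597)))
(S (nat_lit 30050) (S (nat_lit 3) (S (nat_lit 13183) (S (nat_lit 15839) (L (nat_lit 316303))
(L (nat_lit 7040416)))
(L (nat_lit 8304195)))
(L (nat_lit 1292147)))
(S (nat_lit 49814) (S (nat_lit 21014) (S (nat_lit 39531) (L (nat_lit 4517299))
(L (nat_lit 4595387)))
(L (nat_lit 7091222)))
(L (nat_lit 25441427)))))
(S (nat_lit 29005) (S (nat_lit 1256) (S (nat_lit 21014) (L (nat_lit 9353238))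
(L (nat_lit 6809622)))
(L (nat_lit 9261200)))
(S (nat_lit 48769) (S (nat_lit 5181) (S (nat_lit 37505) (S (nat_lit 42270) (L (nat_lit 7822241))
(L (nat_lit 2893234)))
(L (nat_lit 20155276)))
(S (nat_lit 24945) (S (nat_lit 42280) (S (nat_lit 40784) (L (nat_lit 26384818))
(L (nat_lit 2568087)))
(L (nat_lit 2480636)))
(S (nat_lit 44709) (S (nat_lit 44710) (L (nat_lit 5561201))
(L (nat_lit 8099661)))
(L (nat_lit 25581738)))))
(L (nat_lit 25346418)))))
(S (nat_lit 24431) (S (nat_lit 1771) (S (nat_lit 9752) (S (nat_lit 32672) (S (nat_lit 14876) (S (nat_lit 23444) (L (nat_lit 2482611))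
(L (nat_lit 18525371)))
(L (nat_lit 10310147)))
(L (nat_lit 13685051)))
(S (nat_lit 29516) (S (nat_lit 23444) (S (nat_lit 1763) (L (nat_lit 6687671))
(L (nat_lit 12864417)))
(L (nat_lit 12668123)))
(S (nat_lit 49280) (S (nat_lit 14876) (S (nat_lit 43220) (S (nat_lit 42687) (S (nat_lit 37505) (L (nat_lit 23241275))
(L (nat_lit 23628025)))
(L (nat_lit 14257066)))
(L (nat_lit 13981722)))
(L (nat_lit 14381315)))
(L (nat_lit 25352557)))))
(S (nat_lit 21535) (S (nat_lit 16772) (S (nat_lit 54404) (S (nat_lit 21014) (S (nat_lit 6319) (L (nat_lit 9956036))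
(L (nat_lit 20244001)))
(L (nat_lit 31107616)))
(L (nat_lit 16961816)))
(L (nat_lit 22818341)))
(S (nat_lit 41299) (S (nat_lit 16772) (S (nat_lit 34640) (S (nat_lit 24946) (L (nat_lit 30092465))
(L (nat_lit 21161197)))
(L (nat_lit 15487016)))
(S (nat_lit 28126) (S (nat_lit 21544) (L (nat_lit 16934634))
(L (nat_lit 8121861)))
(L (nat_lit 17160005))))
(L (nat_lit 25695975)))))
(S (nat_lit 44195) (S (nat_lit 19500) (S (nat_lit 36536) (S (nat_lit 35612) (S (nat_lit 45847) (S (nat_lit 32675) (S (nat_lit 39529) (L (nat_lit 15637125))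
(L (nat_lit 23076281)))
(L (nat_lit 14604326)))
(L (nat_lit 27888941)))
(L (nat_lit 24030285)))
(L (nat_lit 13512293)))
(S (nat_lit 39264) (S (nat_lit 3695) (S (nat_lit 39536) (S (nat_lit 45847) (S (nat_lit 44693) (S (nat_lit 43208) (L (nat_lit 17903479))
(L (nat_lit 24212904)))
(L (nat_lit 14841142)))
(L (nat_lit 15576245)))
(L (nat_lit 24031371)))
(S (nat_lit 23459) (S (nat_lit 42691) (S (nat_lit 27611) (S (nat_lit 59029) (S (nat_lit 37505) (S (nat_lit 40790) (S (nat_lit 23444) (L (nat_lit 30879457))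
(L (nat_lit 2454253)))
(L (nat_lit 10377393)))
(L (nat_lit 13726442)))
(L (nat_lit 7093270)))
(L (nat_lit 6994971)))
(S (nat_lit 43581) (L (nat_lit 16092087))
(L (nat_lit 7992869))))
(S (nat_lit 43223) (S (nat_lit 42691) (S (nat_lit 37505) (S (nat_lit 34103) (S (nat_lit 44710) (S (nat_lit 3680) (L (nat_lit 28398800))
(L (nat_lit 20318088)))
(L (nat_lit 28031203)))
(L (nat_lit 23336785)))
(L (nat_lit 23988778)))
(L (nat_lit 23348096)))
(L (nat_lit 25270925)))))
(S (nat_lit 59028) (S (nat_lit 15848) (S (nat_lit 45854) (S (nat_lit 59029) (S (nat_lit 52439) (L (nat_lit 4477371))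
(L (nat_lit 28028322)))
(L (nat_lit 13249564)))
(L (nat_lit 13479648)))
(S (nat_lit 35612) (S (nat_lit 44710) (S (nat_lit 44701) (S (nat_lit 13183) (S (nat_lit 44693) (S (nat_lit 35603) (L (nat_lit 7073219))
(L (nat_lit 23872522)))
(L (nat_lit 23491813)))
(L (nat_lit 7897755)))
(L (nat_lit 15487266)))
(L (nat_lit 23242573)))
(S (nat_lit 55376) (L (nat_lit 19443493))
(L (nat_lit 25219563)))))
(L (nat_lit 25582787)))))
(L (nat_lit 25483436)))))
(S (nat_lit 22515) (S (nat_lit 5165) (S (nat_lit 1) (S (nat_lit 6326) (S (nat_lit 39528) (S (nat_lit 21543) (S (nat_lit 1763) (S (nat_lit 55869) (S (nat_lit 32675) (S (nat_lit 28033) (L (nat_lit 23629018))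
(L (nat_lit 7759922)))
(L (nat_lit 1656059)))
(L (nat_lit 10029840)))
(L (nat_lit 20852774)))
(L (nat_lit 21554370)))
(L (nat_lit 24032262)))
(S (nat_lit 26090) (S (nat_lit 44195) (S (nat_lit 9749) (L (nat_lit 16965875))
(L (nat_lit 21358017)))
(L (nat_lit 23365422)))
(S (nat_lit 45854) (S (nat_lit 23459) (S (nat_lit 45850) (S (nat_lit 1763) (S (nat_lit 24946) (L (nat_lit 9581276))
(L (nat_lit 21226640)))
(L (nat_lit 2666423)))
(L (nat_lit 23637889)))
(L (nat_lit 8140421)))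
(L (nat_lit 25663174)))))
(S (nat_lit 19765) (S (nat_lit 0) (S (nat_lit 28033) (S (nat_lit 53870) (S (nat_lit 29513) (S (nat_lit 51198) (S (nat_lit 5173) (L (nat_lit 14852729))
(L (nat_lit 16494499)))
(L (nat_lit 15566068)))
(L (nat_lit 12605723)))
(L (nat_lit 19214392)))
(L (nat_lit 19247160)))
(S (nat_lit 19764) (S (nat_lit 23456) (L (nat_lit 4044395))
(L (nat_lit 21935112)))
(S (nat_lit 39528) (S (nat_lit 48769) (L (nat_lit 28711091))
(L (nat_lit 2989681)))
(L (nat_lit 25769184)))))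
(S (nat_lit 39529) (S (nat_lit 15002) (L (nat_lit 1485655))
(S (nat_lit 22927) (S (nat_lit 19767) (S (nat_lit 4658) (S (nat_lit 8) (S (nat_lit 43223) (L (nat_lit 29689235))
(L (nat_lit 23991535)))
(L (nat_lit 13198475)))
(L (nat_lit 18489372)))
(L (nat_lit 15271847)))
(L (nat_lit 17902516))))
(L (nat_lit 25206196)))))
(S (nat_lit 24929) (S (nat_lit 6319) (S (nat_lit 4664) (S (nat_lit 6593) (L (nat_lit 17075805))
(L (nat_lit 320241)))
(S (nat_lit 24428) (S (nat_lit 6593) (S (nat_lit 24431) (L (nat_lit 309044))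
(L (nat_lit 14429206)))
(L (nat_lit 13362468)))
(S (nat_lit 44192) (S (nat_lit 6593) (L (nat_lit 3878393))
(L (nat_lit 12673771)))
(L (nat_lit 25344618)))))
(S (nat_lit 26083) (S (nat_lit 11671) (S (nat_lit 32672) (S (nat_lit 42688) (S (nat_lit 4655) (S (nat_lit 39531) (S (nat_lit 24937) (L (nat_lit 765400))
(L (nat_lit 31146118)))
(L (nat_lit 24540448)))
(L (nat_lit 5067306)))
(L (nat_lit 14534981)))
(L (nat_lit 31180066)))
(S (nat_lit 31435) (S (nat_lit 51198) (S (nat_lit 0) (S (nat_lit 47797) (S (nat_lit 24937) (L (nat_lit 30804647))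
(L (nat_lit 22482237)))
(L (nat_lit 27920903)))
(L (nat_lit 8159634)))
(L (nat_lit 22070587)))
(S (nat_lit 51199) (S (nat_lit 12908) (S (nat_lit 7856) (L (nat_lit 23323695))
(L (nat_lit 21939490)))
(L (nat_lit 21873954)))
(L (nat_lit 25516173)))))
(S (nat_lit 45847) (S (nat_lit 1250) (S (nat_lit 14424) (L (nat_lit 4595449))
(S (nat_lit 44701) (S (nat_lit 1763) (S (nat_lit 22516) (L (nat_lit 23563015))
(L (nat_lit 9451229)))
(L (nat_lit 9483997)))
(L (nat_lit 23246137))))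
(S (nat_lit 21014) (S (nat_lit 22931) (L (nat_lit 732633))
(L (nat_lit 12677833)))
(S (nat_lit 40778) (S (nat_lit 55376) (S (nat_lit 59028) (L (nat_lit 21867969))
(L (nat_lit 21049169)))
(L (nat_lit 21267279)))
(L (nat_lit 25545250)))))
(L (nat_lit 25480673)))))
(S (nat_lit 44693) (S (nat_lit 4) (S (nat_lit 5181) (S (nat_lit 31434) (L (nat_lit 682287))
(S (nat_lit 57885) (L (nat_lit 4809224))
(L (nat_lit 3035377))))
(S (nat_lit 24945) (S (nat_lit 23459) (S (nat_lit 6326) (L (nat_lit 19696943))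
(L (nat_lit 12052194)))
(L (nat_lit 21226607)))
(S (nat_lit 44709) (S (nat_lit 44701) (S (nat_lit 8) (S (nat_lit 35612) (S (nat_lit 3) (L (nat_lit 10040445))
(L (nat_lit 8139891)))
(L (nat_lit 4503195)))
(L (nat_lit 7366384)))
(L (nat_lit 10194329)))
(L (nat_lit 25931914)))))
(S (nat_lit 19768) (S (nat_lit 52710) (S (nat_lit 56760) (S (nat_lit 23459) (L (nat_lit 27274895))
(L (nat_lit 22820069)))
(S (nat_lit 59028) (S (nat_lit 39528) (S (nat_lit 35603) (S (nat_lit 8) (S (nat_lit 24419) (S (nat_lit 41291) (S (nat_lit 11671) (L (nat_lit 19969244))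
(L (nat_lit 21766285)))
(L (nat_lit 9254593)))
(L (nat_lit 8815510)))
(L (nat_lit 1462187)))
(L (nat_lit 9860672)))
(L (nat_lit 27506241)))
(L (nat_lit 13265929))))
(L (nat_lit 4798278)))
(S (nat_lit 39532) (S (nat_lit 32946) (S (nat_lit 43116) (L (nat_lit 13343770))
(S (nat_lit 57269) (S (nat_lit 4655) (S (nat_lit 14876) (S (nat_lit 42695) (S (nat_lit 48768) (S (nat_lit 10277) (L (nat_lit 26709609))
(L (nat_lit 9629295)))
(L (nat_lit 16479238)))
(L (nat_lit 10056751)))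
(L (nat_lit 9619037)))
(L (nat_lit 2642140)))
(L (nat_lit 21871809))))
(L (nat_lit 2701095)))
(L (nat_lit 25173492)))))
(L (nat_lit 25625911)))))
(S (nat_lit 42279) (S (nat_lit 3692) (S (nat_lit 9240) (S (nat_lit 16769) (S (nat_lit 3163) (S (nat_lit 2742) (L (nat_lit 5891439))
(L (nat_lit 15460709)))
(L (nat_lit 20472165)))
(L (nat_lit 22569317)))
(S (nat_lit 29004) (S (nat_lit 19772) (S (nat_lit 56297) (S (nat_lit 2742) (S (nat_lit 3163) (L (nat_lit 23082763))
(L (nat_lit 15518053)))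
(L (nat_lit 26980709)))
(L (nat_lit 21525861)))
(L (nat_lit 21836133)))
(S (nat_lit 48768) (S (nat_lit 19772) (S (nat_lit 2742) (S (nat_lit 36533) (S (nat_lit 3163) (S (nat_lit 4655) (S (nat_lit 21026) (S (nat_lit 16710) (S (nat_lit 31434) (S (nat_lit 40781) (S (nat_lit 9569) (S (nat_lit 52013) (S (nat_lit 34106) (S (nat_lit 19501) (S (nat_lit 44701) (L (nat_lit 24291769))
(L (nat_lit 9589584)))
(L (nat_lit 9527888)))
(S (nat_lit 53870) (S (nat_lit 54404) (S (nat_lit 19767) (L (nat_lit 16077944))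
(L (nat_lit 21896672)))
(L (nat_lit 21906625)))
(L (nat_lit 25597300))))
(L (nat_lit 12051539)))
(L (nat_lit 28592581)))
(L (nat_lit 27400631)))
(L (nat_lit 18936111)))
(L (nat_lit 19232229)))
(L (nat_lit 11995771)))
(L (nat_lit 7354135)))
(L (nat_lit 15328613)))
(L (nat_lit 30956901)))
(L (nat_lit 19837285)))
(L (nat_lit 22878757)))
(L (nat_lit 25346727)))))
(S (nat_lit 23456) (S (nat_lit 2752) (S (nat_lit 17741) (S (nat_lit 28033) (S (nat_lit 46121) (S (nat_lit 3695) (S (nat_lit 22499) (L (nat_lit 30021708))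
(L (nat_lit 21491787)))
(L (nat_lit 26303014)))
(L (nat_lit 20002104)))
(L (nat_lit 7419762)))
(L (nat_lit 7431852)))
(S (nat_lit 22516) (S (nat_lit 6593) (S (nat_lit 23459) (S (nat_lit 14342) (S (nat_lit 57806) (S (nat_lit 47797) (L (nat_lit 4108873))
(L (nat_lit 27342442)))
(L (nat_lit 7426894)))
(L (nat_lit 9156416)))
(L (nat_lit 21771493)))
(L (nat_lit 13719869)))
(S (nat_lit 42280) (S (nat_lit 15285) (L (nat_lit 2482647))
(S (nat_lit 24419) (S (nat_lit 44701) (S (nat_lit 8269) (S (nat_lit 36536) (S (nat_lit 35612) (S (nat_lit 29516) (S (nat_lit 26357) (S (nat_lit 30041) (S (nat_lit 44195) (S (nat_lit 4) (S (nat_lit 1250) (S (nat_lit 47660) (S (nat_lit 52491) (S (nat_lit 31030) (S (nat_lit 32783) (S (nat_lit 32834) (S (nat_lit 47142) (D (nat_lit 10) (nat_lit 25726694) (nat_lit 5464563) (nat_lit 2216690754))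
(L (nat_lit 9359781)))
(L (nat_lit 735050)))
(L (nat_lit 14766329)))
(L (nat_lit 10572589)))
(L (nat_lit 767261)))
(L (nat_lit 30420721)))
(L (nat_lit 8533725)))
(L (nat_lit 6883151)))
(L (nat_lit 27547660)))
(L (nat_lit 7835257)))
(L (nat_lit 3061483)))
(L (nat_lit 12323407)))
(L (nat_lit 18614923)))
(L (nat_lit 2960788)))
(L (nat_lit 2895470)))
(L (nat_lit 13371700)))
(L (nat_lit 21935243))))
(L (nat_lit 25189708)))))
(S (nat_lit 43220) (S (nat_lit 16769) (S (nat_lit 9240) (S (nat_lit 8269) (S (nat_lit 41307) (S (nat_lit 19500) (L (nat_lit 21215044))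
(L (nat_lit 24143307)))
(L (nat_lit 23861796)))
(L (nat_lit 21422119)))
(L (nat_lit 17584485)))
(S (nat_lit 36533) (S (nat_lit 48768) (S (nat_lit 3163) (S (nat_lit 19772) (S (nat_lit 22506) (S (nat_lit 11670) (L (nat_lit 28627117))
(L (nat_lit 809263)))
(L (nat_lit 21422437)))
(L (nat_lit 21424485)))
(L (nat_lit 19708261)))
(L (nat_lit 27998565)))
(S (nat_lit 56297) (S (nat_lit 39532) (S (nat_lit 51198) (S (nat_lit 42695) (S (nat_lit 0) (S (nat_lit 19500) (S (nat_lit 21543) (S (nat_lit 5181) (S (nat_lit 55869) (S (nat_lit 13977) (S (nat_lit 21026) (S (nat_lit 5985) (S (nat_lit 57393) (S (nat_lit 13183) (S (nat_lit 59029) (S (nat_lit 38033) (S (nat_lit 3686) (L (nat_lit 3523258))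
(L (nat_lit 14931780)))
(L (nat_lit 17004100)))
(L (nat_lit 14906948)))
(S (nat_lit 32947) (S (nat_lit 44186) (S (nat_lit 55870) (S (nat_lit 46121) (L (nat_lit 10665561))
(L (nat_lit 27580869)))
(L (nat_lit 27378315)))
(L (nat_lit 27447819)))
(L (nat_lit 25834819))))
(L (nat_lit 7024765)))
(L (nat_lit 28028939)))
(L (nat_lit 15336263)))
(L (nat_lit 23960589)))
(L (nat_lit 13760136)))
(L (nat_lit 958161)))
(L (nat_lit 21859533)))
(L (nat_lit 22110667)))
(L (nat_lit 6316653)))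
(L (nat_lit 24023343)))
(L (nat_lit 20874543)))
(L (nat_lit 24020271)))
(L (nat_lit 25540658)))))
(L (nat_lit 25247302)))))
(L (nat_lit 25539667)))))
(L (nat_lit 25476274)))))
(L (nat_lit 25922954)))))

theorem rb75_1 : run 4 lb75 [] tb75_1 kb75 (P4 4 2216 2760 1253 2760 0 0 1 0) [] = true := by
  decide +kernel

noncomputable def tb246_0_5 : Tr :=
(S (nat_lit 54884) (S (nat_lit 15323) (S (nat_lit 64) (S (nat_lit 14) (S (nat_lit 25) (S (nat_lit 30699) (S (nat_lit 17571) (S (nat_lit 17560) (S (nat_lit 15334) (S (nat_lit 8810) (S (nat_lit 1765) (S (nat_lit 2006) (L (nat_lit 18549978))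
(L (nat_lit 13912992)))
(L (nat_lit 26792293)))
(L (nat_lit 7210671)))
(L (nat_lit 259665)))
(L (nat_lit 8260336)))
(S (nat_lit 37335) (S (nat_lit 37322) (S (nat_lit 1036) (S (nat_lit 15309) (S (nat_lit 15334) (S (nat_lit 2006) (S (nat_lit 10977) (S (nat_lit 41293) (L (nat_lit 8951546))
(L (nat_lit 6845024)))
(L (nat_lit 18114708)))
(L (nat_lit 26782742)))
(L (nat_lit 8109243)))
(L (nat_lit 16831736)))
(L (nat_lit 20507909)))
(L (nat_lit 10278277)))
(S (nat_lit 57099) (S (nat_lit 2006) (S (nat_lit 1036) (S (nat_lit 75) (S (nat_lit 2019) (S (nat_lit 57088) (S (nat_lit 15334) (S (nat_lit 1047) (S (nat_lit 28587) (S (nat_lit 10982) (S (nat_lit 41293) (L (nat_lit 18028250))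
(L (nat_lit 7074176)))
(L (nat_lit 21525700)))
(L (nat_lit 12741940)))
(L (nat_lit 20488004)))
(L (nat_lit 15445891)))
(L (nat_lit 12324406)))
(L (nat_lit 26780291)))
(L (nat_lit 20492128)))
(L (nat_lit 10545557)))
(L (nat_lit 10182737)))
(L (nat_lit 25760166)))))
(S (nat_lit 37341) (S (nat_lit 28593) (L (nat_lit 5695732))
(L (nat_lit 14504129)))
(L (nat_lit 19087232))))
(S (nat_lit 19789) (S (nat_lit 1229) (S (nat_lit 57024) (S (nat_lit 48276) (S (nat_lit 48351) (L (nat_lit 28491124))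
(L (nat_lit 14266144)))
(L (nat_lit 13652187)))
(L (nat_lit 18889947)))
(S (nat_lit 20993) (S (nat_lit 14517) (L (nat_lit 3493337))
(S (nat_lit 30761) (S (nat_lit 1991) (S (nat_lit 37285) (L (nat_lit 30660992))
(L (nat_lit 30626178)))
(L (nat_lit 26466480)))
(L (nat_lit 19067274))))
(S (nat_lit 40757) (S (nat_lit 1765) (S (nat_lit 1014) (S (nat_lit 1701) (L (nat_lit 28490003))
(L (nat_lit 19239352)))
(L (nat_lit 19098146)))
(S (nat_lit 29587) (L (nat_lit 20849677))
(L (nat_lit 14570853))))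
(L (nat_lit 25767057)))))
(S (nat_lit 39553) (S (nat_lit 1969) (S (nat_lit 1776) (S (nat_lit 8795) (S (nat_lit 17543) (L (nat_lit 7362477))
(L (nat_lit 26749972)))
(L (nat_lit 26979343)))
(S (nat_lit 21540) (S (nat_lit 1240) (S (nat_lit 1262) (L (nat_lit 12336149))
(L (nat_lit 13830749)))
(L (nat_lit 14452981)))
(S (nat_lit 41304) (S (nat_lit 40790) (S (nat_lit 40525) (L (nat_lit 902887))
(L (nat_lit 3745551)))
(L (nat_lit 24340657)))
(L (nat_lit 25729043)))))
(S (nat_lit 21733) (S (nat_lit 8812) (S (nat_lit 37274) (L (nat_lit 2319983))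
(L (nat_lit 14571594)))
(S (nat_lit 28576) (S (nat_lit 28512) (S (nat_lit 1246) (L (nat_lit 5877979))
(L (nat_lit 13832053)))
(L (nat_lit 24340929)))
(S (nat_lit 48340) (S (nat_lit 21496) (S (nat_lit 21010) (L (nat_lit 31170946))
(L (nat_lit 16534724)))
(L (nat_lit 16534538)))
(L (nat_lit 25805864)))))
(S (nat_lit 41497) (S (nat_lit 1279) (S (nat_lit 1765) (S (nat_lit 57024) (S (nat_lit 48276) (L (nat_lit 28889098))
(L (nat_lit 14536742)))
(L (nat_lit 19774502)))
(S (nat_lit 2891) (L (nat_lit 6175337))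
(L (nat_lit 2858767))))
(S (nat_lit 21043) (S (nat_lit 19795) (S (nat_lit 21739) (S (nat_lit 39575) (S (nat_lit 35135) (S (nat_lit 19826) (S (nat_lit 19839) (S (nat_lit 2121) (L (nat_lit 9995869))
(S (nat_lit 37307) (L (nat_lit 4829405))
(L (nat_lit 2894386))))
(L (nat_lit 21801441)))
(L (nat_lit 8571760)))
(L (nat_lit 13408837)))
(L (nat_lit 12359280)))
(L (nat_lit 1519380)))
(L (nat_lit 9896724)))
(S (nat_lit 40807) (S (nat_lit 1246) (S (nat_lit 21739) (S (nat_lit 19795) (S (nat_lit 50527) (S (nat_lit 21004) (S (nat_lit 19826) (S (nat_lit 39570) (S (nat_lit 10966) (S (nat_lit 19839) (S (nat_lit 1726) (S (nat_lit 44509) (L (nat_lit 29465106))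
(L (nat_lit 20856934)))
(S (nat_lit 54061) (L (nat_lit 8818429))
(L (nat_lit 20743439))))
(L (nat_lit 10260979)))
(L (nat_lit 1369618)))
(L (nat_lit 4859725)))
(L (nat_lit 4050257)))
(L (nat_lit 11955221)))
(L (nat_lit 20783152)))
(L (nat_lit 3066159)))
(L (nat_lit 11454511)))
(L (nat_lit 13673301)))
(L (nat_lit 25237941)))))
(L (nat_lit 25286863)))))
(L (nat_lit 25804969)))))
(S (nat_lit 19778) (S (nat_lit 10935) (S (nat_lit 382) (L (nat_lit 13685606))
(S (nat_lit 8823) (S (nat_lit 40542) (S (nat_lit 17527) (L (nat_lit 1777550))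
(L (nat_lit 6938733)))
(L (nat_lit 25050216)))
(L (nat_lit 931124))))
(S (nat_lit 30699) (S (nat_lit 75) (S (nat_lit 10997) (S (nat_lit 30763) (S (nat_lit 8823) (S (nat_lit 41293) (L (nat_lit 19833965))
(L (nat_lit 27480143)))
(S (nat_lit 28587) (S (nat_lit 1279) (L (nat_lit 2315118))
(L (nat_lit 19197316)))
(S (nat_lit 48351) (S (nat_lit 41514) (S (nat_lit 1036) (L (nat_lit 8109240))
(L (nat_lit 9321556)))
(L (nat_lit 8535803)))
(L (nat_lit 25345766)))))
(S (nat_lit 37405) (L (nat_lit 8304754))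
(L (nat_lit 19226637))))
(S (nat_lit 30761) (S (nat_lit 28537) (L (nat_lit 13214812))
(L (nat_lit 10304658)))
(S (nat_lit 50525) (S (nat_lit 57049) (L (nat_lit 26609013))
(L (nat_lit 19095725)))
(L (nat_lit 25494933)))))
(S (nat_lit 19839) (S (nat_lit 17571) (S (nat_lit 10949) (L (nat_lit 26458787))
(L (nat_lit 8087973)))
(S (nat_lit 58359) (S (nat_lit 1765) (L (nat_lit 3029238))
(L (nat_lit 10186144)))
(L (nat_lit 1976945))))
(S (nat_lit 39603) (S (nat_lit 1036) (S (nat_lit 1257) (S (nat_lit 57049) (L (nat_lit 6006575))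
(L (nat_lit 18901449)))
(S (nat_lit 21206) (L (nat_lit 14013349))
(L (nat_lit 19086213))))
(L (nat_lit 19459328)))
(L (nat_lit 25543795)))))
(S (nat_lit 50463) (S (nat_lit 8823) (S (nat_lit 1215) (S (nat_lit 1279) (S (nat_lit 1765) (S (nat_lit 1262) (S (nat_lit 1748) (L (nat_lit 20134012))
(L (nat_lit 18903432)))
(L (nat_lit 19100034)))
(L (nat_lit 19097984)))
(L (nat_lit 14380198)))
(S (nat_lit 40366) (S (nat_lit 17558) (L (nat_lit 6307484))
(L (nat_lit 16668005)))
(L (nat_lit 13806201))))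
(S (nat_lit 28587) (S (nat_lit 1262) (S (nat_lit 41304) (L (nat_lit 5467570))
(L (nat_lit 17885426)))
(S (nat_lit 16736) (S (nat_lit 21527) (S (nat_lit 48338) (L (nat_lit 28524257))
(L (nat_lit 27414895)))
(L (nat_lit 21505147)))
(L (nat_lit 13830780))))
(S (nat_lit 48351) (S (nat_lit 1246) (S (nat_lit 21041) (S (nat_lit 8810) (L (nat_lit 5591919))
(L (nat_lit 21487787)))
(L (nat_lit 16485691)))
(S (nat_lit 30062) (S (nat_lit 48307) (S (nat_lit 45039) (S (nat_lit 57708) (S (nat_lit 52588) (L (nat_lit 10158617))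
(L (nat_lit 20144175)))
(L (nat_lit 20145199)))
(L (nat_lit 14229563)))
(L (nat_lit 5828329)))
(L (nat_lit 14493749))))
(L (nat_lit 25869600)))))
(L (nat_lit 25723591)))))
(S (nat_lit 39542) (S (nat_lit 1726) (S (nat_lit 986) (S (nat_lit 1765) (S (nat_lit 20979) (S (nat_lit 1969) (L (nat_lit 26775794))
(L (nat_lit 26647268)))
(L (nat_lit 14871114)))
(S (nat_lit 4114) (L (nat_lit 9890469))
(L (nat_lit 14380389))))
(S (nat_lit 20750) (S (nat_lit 22085) (L (nat_lit 11630002))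
(S (nat_lit 39570) (S (nat_lit 1036) (S (nat_lit 54868) (L (nat_lit 4446616))
(L (nat_lit 5035308)))
(S (nat_lit 26926) (L (nat_lit 8120493))
(L (nat_lit 19982671))))
(L (nat_lit 5521147))))
(S (nat_lit 40514) (S (nat_lit 21529) (S (nat_lit 35148) (L (nat_lit 28588645))
(L (nat_lit 13479029)))
(L (nat_lit 277112)))
(L (nat_lit 25312471)))))
(S (nat_lit 21490) (S (nat_lit 42) (S (nat_lit 8773) (L (nat_lit 8090735))
(S (nat_lit 28455) (L (nat_lit 216509))
(L (nat_lit 731642))))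
(S (nat_lit 19806) (S (nat_lit 21750) (S (nat_lit 10982) (S (nat_lit 21739) (S (nat_lit 41486) (L (nat_lit 10531699))
(L (nat_lit 633304)))
(L (nat_lit 31106094)))
(L (nat_lit 6402869)))
(L (nat_lit 5001421)))
(S (nat_lit 39570) (S (nat_lit 3873) (S (nat_lit 41514) (L (nat_lit 10375712))
(L (nat_lit 18763851)))
(S (nat_lit 48338) (S (nat_lit 1036) (S (nat_lit 1986) (L (nat_lit 5956909))
(L (nat_lit 12407821)))
(L (nat_lit 9321024)))
(L (nat_lit 5689688))))
(L (nat_lit 25252391)))))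
(S (nat_lit 41254) (S (nat_lit 15309) (S (nat_lit 1765) (S (nat_lit 50525) (S (nat_lit 21021) (S (nat_lit 10982) (S (nat_lit 30713) (S (nat_lit 17543) (L (nat_lit 7357021))
(L (nat_lit 1682222)))
(L (nat_lit 17697354)))
(L (nat_lit 1485621)))
(L (nat_lit 12505101)))
(L (nat_lit 5722456)))
(L (nat_lit 26497413)))
(S (nat_lit 35073) (S (nat_lit 28512) (S (nat_lit 37260) (L (nat_lit 24318396))
(L (nat_lit 20146223)))
(L (nat_lit 12806196)))
(S (nat_lit 54837) (S (nat_lit 1765) (S (nat_lit 1262) (S (nat_lit 1036) (S (nat_lit 15384) (S (nat_lit 48301) (L (nat_lit 28982438))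
(L (nat_lit 22243747)))
(L (nat_lit 2014822)))
(L (nat_lit 13948059)))
(L (nat_lit 26411632)))
(S (nat_lit 15049) (L (nat_lit 22232933))
(L (nat_lit 19459146))))
(L (nat_lit 25711622)))))
(L (nat_lit 25549871)))))
(L (nat_lit 25398774)))))
(S (nat_lit 19828) (S (nat_lit 1279) (S (nat_lit 10997) (S (nat_lit 48307) (L (nat_lit 20061592))
(L (nat_lit 12472707)))
(S (nat_lit 30761) (S (nat_lit 41293) (S (nat_lit 37335) (L (nat_lit 9255524))
(L (nat_lit 3979879)))
(L (nat_lit 3954055)))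
(S (nat_lit 50525) (S (nat_lit 10999) (S (nat_lit 1036) (S (nat_lit 57024) (L (nat_lit 5827177))
(L (nat_lit 5500591)))
(S (nat_lit 43623) (L (nat_lit 4779346))
(L (nat_lit 4450926))))
(S (nat_lit 30763) (S (nat_lit 1715) (S (nat_lit 1748) (S (nat_lit 15371) (L (nat_lit 5710456))
(L (nat_lit 7256242)))
(L (nat_lit 19105552)))
(S (nat_lit 21479) (S (nat_lit 10935) (S (nat_lit 21021) (L (nat_lit 3494766))
(L (nat_lit 22985957)))
(L (nat_lit 26464303)))
(S (nat_lit 41243) (S (nat_lit 37285) (L (nat_lit 12184993))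
(L (nat_lit 3370573)))
(L (nat_lit 25307792)))))
(S (nat_lit 50527) (S (nat_lit 1036) (S (nat_lit 56019) (L (nat_lit 6869892))
(L (nat_lit 6449557)))
(S (nat_lit 56748) (S (nat_lit 40564) (L (nat_lit 28673646))
(L (nat_lit 1298841)))
(L (nat_lit 4450709))))
(L (nat_lit 25346258)))))
(L (nat_lit 25789774)))))
(S (nat_lit 21043) (S (nat_lit 17571) (S (nat_lit 21529) (S (nat_lit 57038) (L (nat_lit 5465709))
(L (nat_lit 14879352)))
(L (nat_lit 10605391)))
(S (nat_lit 37335) (S (nat_lit 28574) (S (nat_lit 35104) (L (nat_lit 2660985))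
(L (nat_lit 2407032)))
(L (nat_lit 2931306)))
(S (nat_lit 57099) (S (nat_lit 21529) (S (nat_lit 50525) (S (nat_lit 50505) (L (nat_lit 5487227))
(L (nat_lit 27561583)))
(L (nat_lit 4583022)))
(L (nat_lit 8179791)))
(L (nat_lit 25498321)))))
(S (nat_lit 40807) (S (nat_lit 17558) (S (nat_lit 35104) (S (nat_lit 1765) (L (nat_lit 19073434))
(L (nat_lit 5127476)))
(L (nat_lit 2381213)))
(S (nat_lit 37322) (S (nat_lit 28587) (S (nat_lit 1701) (L (nat_lit 11103617))
(L (nat_lit 10243460)))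
(L (nat_lit 30561670)))
(S (nat_lit 57086) (S (nat_lit 40564) (S (nat_lit 1765) (S (nat_lit 35104) (L (nat_lit 7013788))
(L (nat_lit 3462552)))
(L (nat_lit 4484500)))
(L (nat_lit 10224020)))
(L (nat_lit 25762990)))))
(L (nat_lit 25181525)))))
(S (nat_lit 39592) (S (nat_lit 1019) (S (nat_lit 17496) (S (nat_lit 15351) (S (nat_lit 1373) (L (nat_lit 737098))
(S (nat_lit 21770) (S (nat_lit 41547) (S (nat_lit 6470) (L (nat_lit 18881021))
(L (nat_lit 28595586)))
(L (nat_lit 7039429)))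
(L (nat_lit 1779568))))
(S (nat_lit 35115) (S (nat_lit 1229) (S (nat_lit 1715) (L (nat_lit 26234192))
(L (nat_lit 18947953)))
(L (nat_lit 19138417)))
(S (nat_lit 54879) (S (nat_lit 13932) (L (nat_lit 22045066))
(S (nat_lit 20800) (S (nat_lit 8748) (L (nat_lit 4449684))
(S (nat_lit 28695) (L (nat_lit 547590))
(L (nat_lit 23529222))))
(L (nat_lit 12375456))))
(L (nat_lit 25483680)))))
(S (nat_lit 37260) (S (nat_lit 25) (S (nat_lit 2019) (S (nat_lit 1003) (S (nat_lit 30774) (S (nat_lit 1047) (L (nat_lit 2317787))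
(L (nat_lit 8976036)))
(L (nat_lit 14260134)))
(L (nat_lit 18900175)))
(L (nat_lit 18892024)))
(S (nat_lit 19789) (S (nat_lit 1246) (S (nat_lit 1763) (L (nat_lit 11560340))
(L (nat_lit 13853750)))
(S (nat_lit 57204) (S (nat_lit 1748) (L (nat_lit 19941286))
(L (nat_lit 13654790)))
(L (nat_lit 5452661))))
(S (nat_lit 39553) (S (nat_lit 1290) (S (nat_lit 14) (L (nat_lit 24144236))
(L (nat_lit 12833917)))
(S (nat_lit 49213) (S (nat_lit 49456) (L (nat_lit 2927063))
(L (nat_lit 19086460)))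
(L (nat_lit 12590962))))
(L (nat_lit 25806147)))))
(S (nat_lit 57024) (S (nat_lit 20800) (S (nat_lit 711) (S (nat_lit 54912) (L (nat_lit 27775143))
(L (nat_lit 27922823)))
(S (nat_lit 51845) (S (nat_lit 54912) (S (nat_lit 36906) (L (nat_lit 14600483))
(L (nat_lit 6319694)))
(L (nat_lit 27765345)))
(L (nat_lit 24145318))))
(S (nat_lit 51620) (S (nat_lit 711) (L (nat_lit 7046589))
(L (nat_lit 3069351)))
(L (nat_lit 12113792))))
(L (nat_lit 25681088)))))
(S (nat_lit 20783) (S (nat_lit 15309) (S (nat_lit 8810) (S (nat_lit 8748) (S (nat_lit 20778) (S (nat_lit 41497) (S (nat_lit 1944) (L (nat_lit 7804691))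
(L (nat_lit 26515053)))
(L (nat_lit 27695125)))
(L (nat_lit 6306674)))
(S (nat_lit 30433) (L (nat_lit 19086243))
(L (nat_lit 23280385))))
(S (nat_lit 28574) (S (nat_lit 30746) (S (nat_lit 1958) (S (nat_lit 40818) (L (nat_lit 24289168))
(L (nat_lit 18620067)))
(L (nat_lit 19671488)))
(L (nat_lit 19675332)))
(S (nat_lit 48338) (S (nat_lit 1765) (S (nat_lit 1279) (L (nat_lit 5454461))
(L (nat_lit 6213903)))
(L (nat_lit 12505167)))
(L (nat_lit 25598565)))))
(S (nat_lit 35073) (S (nat_lit 1958) (S (nat_lit 1034) (S (nat_lit 1884) (L (nat_lit 4081320))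
(S (nat_lit 19789) (S (nat_lit 21770) (S (nat_lit 10966) (S (nat_lit 41497) (S (nat_lit 15351) (S (nat_lit 19839) (S (nat_lit 20811) (S (nat_lit 50477) (S (nat_lit 30746) (S (nat_lit 972) (S (nat_lit 10997) (S (nat_lit 9873) (L (nat_lit 1258141))
(S (nat_lit 20761) (S (nat_lit 30774) (S (nat_lit 32142) (S (nat_lit 35940) (S (nat_lit 4705) (L (nat_lit 2341500))
(L (nat_lit 28917056)))
(L (nat_lit 21218049)))
(S (nat_lit 35954) (S (nat_lit 8595) (L (nat_lit 1484376))
(L (nat_lit 19174156)))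
(L (nat_lit 10324404))))
(L (nat_lit 31043841)))
(S (nat_lit 32975) (L (nat_lit 3709595))
(L (nat_lit 6168084)))))
(L (nat_lit 7262380)))
(S (nat_lit 53796) (L (nat_lit 3423933))
(L (nat_lit 20210829))))
(L (nat_lit 24667332)))
(L (nat_lit 27773221)))
(S (nat_lit 47047) (L (nat_lit 18979293))
(L (nat_lit 14998556))))
(L (nat_lit 10274432)))
(L (nat_lit 17408896)))
(L (nat_lit 3071246)))
(L (nat_lit 23928227)))
(S (nat_lit 46297) (L (nat_lit 13704117))
(L (nat_lit 14692215))))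
(L (nat_lit 3595113))))
(S (nat_lit 47293) (L (nat_lit 11031708))
(L (nat_lit 19457249))))
(S (nat_lit 21722) (S (nat_lit 1732) (S (nat_lit 21770) (S (nat_lit 1229) (L (nat_lit 5456571))
(L (nat_lit 20746695)))
(L (nat_lit 7359344)))
(S (nat_lit 21496) (S (nat_lit 21770) (S (nat_lit 54912) (S (nat_lit 39590) (L (nat_lit 11010747))
(L (nat_lit 4928266)))
(L (nat_lit 11293056)))
(L (nat_lit 11252825)))
(S (nat_lit 41260) (S (nat_lit 50510) (L (nat_lit 17944826))
(L (nat_lit 13413397)))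
(L (nat_lit 25399982)))))
(S (nat_lit 41486) (S (nat_lit 47) (S (nat_lit 4043) (L (nat_lit 6169231))
(L (nat_lit 27461229)))
(S (nat_lit 19811) (S (nat_lit 972) (S (nat_lit 40564) (S (nat_lit 54912) (S (nat_lit 35104) (S (nat_lit 1975) (S (nat_lit 50505) (S (nat_lit 41519) (S (nat_lit 15373) (S (nat_lit 21783) (S (nat_lit 45602) (L (nat_lit 533429))
(S (nat_lit 54879) (S (nat_lit 35098) (S (nat_lit 32728) (L (nat_lit 6474172))
(S (nat_lit 48976) (L (nat_lit 4469372))
(L (nat_lit 2473751))))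
(L (nat_lit 20856162)))
(L (nat_lit 10882839))))
(L (nat_lit 22855723)))
(L (nat_lit 2018760)))
(L (nat_lit 17605184)))
(L (nat_lit 13519201)))
(L (nat_lit 13262887)))
(L (nat_lit 9176684)))
(L (nat_lit 21769600)))
(L (nat_lit 24910213)))
(L (nat_lit 9194882)))
(S (nat_lit 39575) (S (nat_lit 1701) (L (nat_lit 28686390))
(L (nat_lit 12333636)))
(L (nat_lit 25287920)))))
(L (nat_lit 25799136)))))
(S (nat_lit 54837) (S (nat_lit 62) (S (nat_lit 1257) (S (nat_lit 54899) (S (nat_lit 972) (L (nat_lit 6205650))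
(L (nat_lit 26481042)))
(L (nat_lit 27625037)))
(S (nat_lit 3606) (L (nat_lit 5469589))
(L (nat_lit 13829881))))
(S (nat_lit 19826) (S (nat_lit 1014) (S (nat_lit 10949) (S (nat_lit 35115) (S (nat_lit 711) (L (nat_lit 6876867))
(S (nat_lit 39570) (S (nat_lit 41534) (S (nat_lit 22423) (L (nat_lit 24126939))
(S (nat_lit 40757) (L (nat_lit 4418995))
(L (nat_lit 17682569))))
(L (nat_lit 23602944)))
(L (nat_lit 10572557))))
(L (nat_lit 24022350)))
(S (nat_lit 56284) (L (nat_lit 18887530))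
(L (nat_lit 26414668))))
(S (nat_lit 6729) (L (nat_lit 22045097))
(L (nat_lit 4411928))))
(S (nat_lit 39590) (S (nat_lit 21054) (L (nat_lit 28843058))
(S (nat_lit 53834) (L (nat_lit 28357224))
(L (nat_lit 12271674))))
(L (nat_lit 25336528)))))
(L (nat_lit 25630743)))))
(S (nat_lit 40547) (S (nat_lit 28526) (L (nat_lit 5458328))
(L (nat_lit 18883995)))
(L (nat_lit 25353553)))))
(L (nat_lit 25901097)))))
(S (nat_lit 35087) (S (nat_lit 25) (S (nat_lit 1732) (S (nat_lit 1036) (S (nat_lit 8790) (S (nat_lit 1240) (S (nat_lit 1034) (S (nat_lit 2006) (S (nat_lit 1003) (L (nat_lit 2385486))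
(L (nat_lit 20777167)))
(L (nat_lit 13853410)))
(L (nat_lit 13689577)))
(L (nat_lit 13922388)))
(S (nat_lit 28554) (S (nat_lit 57038) (S (nat_lit 30699) (L (nat_lit 15737748))
(L (nat_lit 9497076)))
(L (nat_lit 4417134)))
(S (nat_lit 48318) (S (nat_lit 1240) (S (nat_lit 1975) (S (nat_lit 1003) (L (nat_lit 5164303))
(L (nat_lit 13273467)))
(L (nat_lit 13280411)))
(L (nat_lit 26494036)))
(L (nat_lit 25731254)))))
(S (nat_lit 20800) (S (nat_lit 17521) (S (nat_lit 1215) (S (nat_lit 8773) (S (nat_lit 30713) (S (nat_lit 41503) (L (nat_lit 2309753))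
(L (nat_lit 27497941)))
(L (nat_lit 2356812)))
(L (nat_lit 14915506)))
(L (nat_lit 20747658)))
(S (nat_lit 37285) (S (nat_lit 50463) (L (nat_lit 13882459))
(L (nat_lit 12112736)))
(S (nat_lit 57049) (S (nat_lit 41503) (L (nat_lit 29602434))
(L (nat_lit 27511951)))
(L (nat_lit 25858504)))))
(S (nat_lit 40564) (S (nat_lit 31) (S (nat_lit 28587) (S (nat_lit 37335) (L (nat_lit 30493966))
(L (nat_lit 20256687)))
(L (nat_lit 12916660)))
(S (nat_lit 19795) (S (nat_lit 24827) (L (nat_lit 2672923))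
(S (nat_lit 37274) (S (nat_lit 2019) (L (nat_lit 20152731))
(L (nat_lit 19071853)))
(L (nat_lit 20123065))))
(S (nat_lit 39559) (S (nat_lit 35135) (L (nat_lit 19118171))
(L (nat_lit 10280111)))
(L (nat_lit 25473108)))))
(L (nat_lit 25893006)))))
(S (nat_lit 21496) (S (nat_lit 1257) (S (nat_lit 1019) (S (nat_lit 2019) (S (nat_lit 30713) (S (nat_lit 50510) (S (nat_lit 19795) (S (nat_lit 2006) (S (nat_lit 40743) (S (nat_lit 40500) (S (nat_lit 54879) (S (nat_lit 30329) (L (nat_lit 1361560))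
(L (nat_lit 8417903)))
(L (nat_lit 5134670)))
(L (nat_lit 3763469)))
(L (nat_lit 9555884)))
(L (nat_lit 12603302)))
(L (nat_lit 8474382)))
(L (nat_lit 12659416)))
(L (nat_lit 16976661)))
(L (nat_lit 12606809)))
(S (nat_lit 20783) (L (nat_lit 12601690))
(S (nat_lit 40547) (S (nat_lit 11307) (L (nat_lit 30417332))
(S (nat_lit 40807) (S (nat_lit 48276) (L (nat_lit 8411581))
(L (nat_lit 19973031)))
(L (nat_lit 9466447))))
(L (nat_lit 25378902)))))
(S (nat_lit 21021) (S (nat_lit 26717) (L (nat_lit 13866773))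
(S (nat_lit 30713) (S (nat_lit 2019) (S (nat_lit 2006) (S (nat_lit 14) (S (nat_lit 35098) (S (nat_lit 54879) (S (nat_lit 30699) (S (nat_lit 40818) (S (nat_lit 21512) (S (nat_lit 40807) (S (nat_lit 41291) (S (nat_lit 19369) (L (nat_lit 565848))
(L (nat_lit 29514215)))
(L (nat_lit 23637112)))
(L (nat_lit 23630694)))
(L (nat_lit 8021379)))
(L (nat_lit 23650661)))
(L (nat_lit 10107930)))
(L (nat_lit 21046715)))
(L (nat_lit 23278744)))
(L (nat_lit 20134756)))
(L (nat_lit 12603302)))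
(L (nat_lit 12809266)))
(L (nat_lit 3721994))))
(S (nat_lit 40785) (S (nat_lit 1986) (S (nat_lit 19778) (S (nat_lit 50463) (S (nat_lit 75) (S (nat_lit 1034) (S (nat_lit 54862) (S (nat_lit 37274) (L (nat_lit 7025723))
(L (nat_lit 23323141)))
(L (nat_lit 18899433)))
(L (nat_lit 19796487)))
(L (nat_lit 19796422)))
(L (nat_lit 20135840)))
(S (nat_lit 48600) (L (nat_lit 12830907))
(L (nat_lit 30620293))))
(S (nat_lit 12828) (L (nat_lit 19937528))
(L (nat_lit 12817144))))
(L (nat_lit 25384453)))))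
(S (nat_lit 41260) (S (nat_lit 10935) (S (nat_lit 8762) (L (nat_lit 11558671))
(L (nat_lit 26227435)))
(S (nat_lit 30699) (S (nat_lit 41276) (S (nat_lit 35073) (S (nat_lit 35098) (S (nat_lit 30713) (S (nat_lit 41271) (S (nat_lit 2006) (S (nat_lit 2019) (S (nat_lit 54879) (S (nat_lit 14) (S (nat_lit 54868) (S (nat_lit 17558) (S (nat_lit 19811) (L (nat_lit 8226198))
(L (nat_lit 22308260)))
(S (nat_lit 37322) (S (nat_lit 8810) (L (nat_lit 6444445))
(L (nat_lit 15604324)))
(S (nat_lit 57086) (S (nat_lit 20979) (L (nat_lit 4861340))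
(L (nat_lit 30821701)))
(L (nat_lit 25336276)))))
(L (nat_lit 27581987)))
(L (nat_lit 20757579)))
(L (nat_lit 27580558)))
(L (nat_lit 10188229)))
(L (nat_lit 10019552)))
(L (nat_lit 16798939)))
(L (nat_lit 9451445)))
(L (nat_lit 23084841)))
(L (nat_lit 19937498)))
(L (nat_lit 24134008)))
(S (nat_lit 50463) (S (nat_lit 15340) (S (nat_lit 37833) (L (nat_lit 13409429))
(S (nat_lit 39592) (S (nat_lit 1003) (S (nat_lit 20800) (S (nat_lit 21043) (S (nat_lit 21733) (S (nat_lit 37302) (L (nat_lit 8837209))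
(L (nat_lit 3880807)))
(L (nat_lit 7947108)))
(L (nat_lit 7197870)))
(L (nat_lit 11582072)))
(L (nat_lit 26233198)))
(L (nat_lit 11720559))))
(S (nat_lit 35104) (S (nat_lit 1003) (S (nat_lit 1047) (S (nat_lit 62) (S (nat_lit 1958) (S (nat_lit 1944) (L (nat_lit 30977701))
(L (nat_lit 10051973)))
(L (nat_lit 13406888)))
(L (nat_lit 14352765)))
(L (nat_lit 14360418)))
(L (nat_lit 26430917)))
(S (nat_lit 54868) (S (nat_lit 30713) (S (nat_lit 28537) (L (nat_lit 18886107))
(L (nat_lit 30420588)))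
(S (nat_lit 43012) (L (nat_lit 19708226))
(L (nat_lit 9454169))))
(L (nat_lit 25286024)))))
(L (nat_lit 25821393)))))
(L (nat_lit 25339535)))))
(S (nat_lit 19789) (S (nat_lit 8779) (S (nat_lit 8795) (S (nat_lit 15373) (S (nat_lit 11010) (S (nat_lit 21733) (S (nat_lit 30699) (L (nat_lit 4016551))
(L (nat_lit 10304564)))
(L (nat_lit 16603332)))
(L (nat_lit 26847343)))
(S (nat_lit 35137) (S (nat_lit 2019) (S (nat_lit 40547) (L (nat_lit 22048973))
(L (nat_lit 3819433)))
(S (nat_lit 26260) (L (nat_lit 8943329))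
(L (nat_lit 13306729))))
(S (nat_lit 54901) (S (nat_lit 21465) (S (nat_lit 20979) (L (nat_lit 10088461))
(L (nat_lit 30689389)))
(L (nat_lit 30492973)))
(L (nat_lit 25829425)))))
(S (nat_lit 28559) (S (nat_lit 21855) (L (nat_lit 3762541))
(S (nat_lit 41547) (S (nat_lit 45941) (L (nat_lit 16816949))
(S (nat_lit 50477) (S (nat_lit 10935) (S (nat_lit 54837) (S (nat_lit 39542) (S (nat_lit 15334) (S (nat_lit 21770) (S (nat_lit 35104) (S (nat_lit 15351) (S (nat_lit 48318) (S (nat_lit 1359) (L (nat_lit 8435293))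
(S (nat_lit 11504) (L (nat_lit 13671005))
(S (nat_lit 21750) (S (nat_lit 10982) (S (nat_lit 48338) (S (nat_lit 1991) (S (nat_lit 8762) (S (nat_lit 1743) (L (nat_lit 5457716))
(S (nat_lit 31528) (S (nat_lit 17242) (L (nat_lit 3359387))
(L (nat_lit 21934341)))
(L (nat_lit 9957058))))
(L (nat_lit 6843475)))
(L (nat_lit 5927216)))
(L (nat_lit 11005077)))
(L (nat_lit 21870789)))
(L (nat_lit 4439859)))))
(L (nat_lit 20483846)))
(L (nat_lit 26794336)))
(L (nat_lit 20486914)))
(L (nat_lit 10499803)))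
(L (nat_lit 14898083)))
(L (nat_lit 12139397)))
(L (nat_lit 11582205)))
(L (nat_lit 26792160)))
(L (nat_lit 12838003))))
(L (nat_lit 2384338))))
(S (nat_lit 48323) (S (nat_lit 17571) (S (nat_lit 35098) (S (nat_lit 1290) (S (nat_lit 1776) (L (nat_lit 12313677))
(L (nat_lit 18916204)))
(L (nat_lit 19106668)))
(L (nat_lit 23303025)))
(L (nat_lit 25046095)))
(L (nat_lit 25766405)))))
(S (nat_lit 28543) (S (nat_lit 10949) (S (nat_lit 1732) (S (nat_lit 41271) (S (nat_lit 1034) (L (nat_lit 29595027))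
(L (nat_lit 2672893)))
(L (nat_lit 3975730)))
(S (nat_lit 21496) (S (nat_lit 21540) (L (nat_lit 30620788))
(L (nat_lit 21556395)))
(S (nat_lit 41260) (S (nat_lit 28526) (L (nat_lit 20985610))
(L (nat_lit 12815097)))
(L (nat_lit 25667205)))))
(S (nat_lit 30713) (S (nat_lit 1257) (S (nat_lit 41567) (L (nat_lit 22045964))
(L (nat_lit 18892090)))
(S (nat_lit 21021) (S (nat_lit 21529) (S (nat_lit 37285) (L (nat_lit 2932019))
(L (nat_lit 9491245)))
(L (nat_lit 30605934)))
(S (nat_lit 40785) (S (nat_lit 40542) (S (nat_lit 1765) (S (nat_lit 1732) (L (nat_lit 4446616))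
(L (nat_lit 14298949)))
(L (nat_lit 12800773)))
(L (nat_lit 3371724)))
(L (nat_lit 25384451)))))
(S (nat_lit 50477) (S (nat_lit 17510) (S (nat_lit 21770) (S (nat_lit 37260) (S (nat_lit 57049) (S (nat_lit 21750) (S (nat_lit 39542) (S (nat_lit 57086) (S (nat_lit 50561) (L (nat_lit 5452506))
(L (nat_lit 30624131)))
(L (nat_lit 11273804)))
(L (nat_lit 17847608)))
(L (nat_lit 30639634)))
(L (nat_lit 21181187)))
(L (nat_lit 8412732)))
(S (nat_lit 48376) (L (nat_lit 30422728))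
(L (nat_lit 21195264))))
(S (nat_lit 37274) (S (nat_lit 1290) (S (nat_lit 28537) (L (nat_lit 10392082))
(L (nat_lit 30422633)))
(S (nat_lit 53506) (L (nat_lit 13436210))
(L (nat_lit 13641587))))
(S (nat_lit 57038) (S (nat_lit 8848) (S (nat_lit 15409) (L (nat_lit 19935610))
(L (nat_lit 19936506)))
(S (nat_lit 28537) (S (nat_lit 48323) (S (nat_lit 35104) (S (nat_lit 1765) (L (nat_lit 10357172))
(L (nat_lit 12473423)))
(L (nat_lit 10088835)))
(L (nat_lit 11065188)))
(L (nat_lit 18886444))))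
(L (nat_lit 25185707)))))
(L (nat_lit 25903178)))))
(S (nat_lit 48307) (S (nat_lit 8795) (S (nat_lit 1019) (S (nat_lit 54837) (S (nat_lit 50477) (S (nat_lit 40531) (S (nat_lit 50494) (S (nat_lit 21770) (S (nat_lit 10982) (S (nat_lit 37375) (L (nat_lit 284057))
(L (nat_lit 11457922)))
(L (nat_lit 7075364)))
(L (nat_lit 21048891)))
(L (nat_lit 11404877)))
(L (nat_lit 9631375)))
(L (nat_lit 20155928)))
(L (nat_lit 10540573)))
(S (nat_lit 20783) (S (nat_lit 37274) (L (nat_lit 4404858))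
(L (nat_lit 3356283)))
(S (nat_lit 40547) (S (nat_lit 17558) (L (nat_lit 30114187))
(S (nat_lit 24554) (S (nat_lit 16496) (L (nat_lit 19376252))
(L (nat_lit 30623789)))
(L (nat_lit 18744907))))
(L (nat_lit 25385104)))))
(S (nat_lit 28559) (S (nat_lit 37335) (S (nat_lit 40785) (L (nat_lit 22938829))
(L (nat_lit 8273605)))
(L (nat_lit 3826959)))
(S (nat_lit 48323) (S (nat_lit 14) (S (nat_lit 2006) (S (nat_lit 35098) (S (nat_lit 37285) (S (nat_lit 2019) (S (nat_lit 28537) (S (nat_lit 1277) (L (nat_lit 19273608))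
(L (nat_lit 10511927)))
(L (nat_lit 30621283)))
(L (nat_lit 20508899)))
(L (nat_lit 20180355)))
(L (nat_lit 23311544)))
(S (nat_lit 31762) (L (nat_lit 19798061))
(L (nat_lit 20013328))))
(S (nat_lit 19778) (S (nat_lit 1203) (L (nat_lit 13674200))
(S (nat_lit 40542) (S (nat_lit 2374) (L (nat_lit 4411180))
(L (nat_lit 14455496)))
(L (nat_lit 25046532))))
(S (nat_lit 39542) (S (nat_lit 1765) (S (nat_lit 1279) (L (nat_lit 3434898))
(L (nat_lit 19803247)))
(L (nat_lit 19797295)))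
(L (nat_lit 25562763)))))
(L (nat_lit 25569989)))))
(L (nat_lit 25730162)))))
(S (nat_lit 39553) (S (nat_lit 10966) (S (nat_lit 17558) (S (nat_lit 17560) (S (nat_lit 36222) (L (nat_lit 10898208))
(S (nat_lit 41276) (L (nat_lit 27525709))
(L (nat_lit 25041315))))
(S (nat_lit 37324) (S (nat_lit 48301) (S (nat_lit 19806) (S (nat_lit 1986) (L (nat_lit 6138480))
(L (nat_lit 9491373)))
(L (nat_lit 30686354)))
(L (nat_lit 27464300)))
(S (nat_lit 57088) (S (nat_lit 19523) (L (nat_lit 20098461))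
(S (nat_lit 21733) (S (nat_lit 1277) (L (nat_lit 3022258))
(L (nat_lit 20178466)))
(L (nat_lit 4580916))))
(L (nat_lit 25319977)))))
(S (nat_lit 37322) (S (nat_lit 1279) (S (nat_lit 1748) (L (nat_lit 12627794))
(L (nat_lit 12912220)))
(S (nat_lit 21043) (S (nat_lit 48307) (L (nat_lit 11586969))
(L (nat_lit 14550601)))
(S (nat_lit 40807) (L (nat_lit 10356301))
(L (nat_lit 25734756)))))
(S (nat_lit 57086) (S (nat_lit 14) (S (nat_lit 1748) (S (nat_lit 35135) (L (nat_lit 11929179))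
(L (nat_lit 4037042)))
(S (nat_lit 10850) (L (nat_lit 19101157))
(L (nat_lit 18904454))))
(S (nat_lit 19778) (S (nat_lit 50463) (S (nat_lit 1986) (S (nat_lit 54862) (S (nat_lit 40514) (L (nat_lit 16798601))
(L (nat_lit 18109624)))
(L (nat_lit 19096034)))
(L (nat_lit 14490642)))
(L (nat_lit 4407003)))
(S (nat_lit 39542) (S (nat_lit 1003) (S (nat_lit 21043) (L (nat_lit 30129256))
(L (nat_lit 21271374)))
(S (nat_lit 20767) (S (nat_lit 8773) (S (nat_lit 1765) (L (nat_lit 2306682))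
(L (nat_lit 14570848)))
(L (nat_lit 14899107)))
(S (nat_lit 40531) (S (nat_lit 39710) (L (nat_lit 5647155))
(L (nat_lit 21169594)))
(L (nat_lit 25375360)))))
(L (nat_lit 25770276)))))
(L (nat_lit 25337300)))))
(S (nat_lit 30730) (S (nat_lit 1991) (S (nat_lit 10977) (S (nat_lit 1034) (S (nat_lit 37285) (L (nat_lit 30453971))
(L (nat_lit 23310488)))
(S (nat_lit 17242) (L (nat_lit 11582388))
(L (nat_lit 14559350))))
(S (nat_lit 30741) (S (nat_lit 1277) (S (nat_lit 1763) (S (nat_lit 1743) (L (nat_lit 29920873))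
(L (nat_lit 18885548)))
(L (nat_lit 12798076)))
(L (nat_lit 12601660)))
(S (nat_lit 50505) (S (nat_lit 1748) (S (nat_lit 1262) (S (nat_lit 37291) (L (nat_lit 3689254))
(L (nat_lit 9963133)))
(L (nat_lit 14015613)))
(S (nat_lit 41872) (L (nat_lit 3905949))
(L (nat_lit 19727752))))
(L (nat_lit 25763983)))))
(S (nat_lit 21755) (S (nat_lit 10982) (S (nat_lit 1763) (S (nat_lit 1277) (L (nat_lit 5790600))
(L (nat_lit 19949097)))
(L (nat_lit 20145699)))
(S (nat_lit 30746) (S (nat_lit 1763) (S (nat_lit 57049) (L (nat_lit 12293690))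
(L (nat_lit 19835053)))
(S (nat_lit 46422) (L (nat_lit 30660993))
(L (nat_lit 12798077))))
(S (nat_lit 50510) (S (nat_lit 28537) (S (nat_lit 48290) (L (nat_lit 15983732))
(L (nat_lit 20145540)))
(S (nat_lit 57893) (L (nat_lit 12604329))
(L (nat_lit 8449644))))
(L (nat_lit 25449957)))))
(S (nat_lit 41519) (S (nat_lit 47) (S (nat_lit 972) (S (nat_lit 28537) (S (nat_lit 1215) (L (nat_lit 4005484))
(L (nat_lit 9037187)))
(S (nat_lit 58116) (L (nat_lit 3358519))
(L (nat_lit 18048611))))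
(S (nat_lit 25494) (L (nat_lit 2630455))
(L (nat_lit 2924946))))
(S (nat_lit 19811) (S (nat_lit 35115) (S (nat_lit 15373) (S (nat_lit 42) (S (nat_lit 50505) (S (nat_lit 54899) (S (nat_lit 10949) (S (nat_lit 20767) (S (nat_lit 986) (S (nat_lit 3266) (L (nat_lit 30674386))
(S (nat_lit 50527) (S (nat_lit 30746) (S (nat_lit 54868) (S (nat_lit 3864) (L (nat_lit 4405852))
(S (nat_lit 15384) (S (nat_lit 35073) (S (nat_lit 19826) (S (nat_lit 1279) (S (nat_lit 40805) (L (nat_lit 9585304))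
(L (nat_lit 27994656)))
(S (nat_lit 44514) (L (nat_lit 532188))
(L (nat_lit 19796239))))
(L (nat_lit 15037125)))
(L (nat_lit 20857056)))
(L (nat_lit 25046094))))
(L (nat_lit 19295523)))
(S (nat_lit 56915) (L (nat_lit 8567669))
(L (nat_lit 30845572))))
(L (nat_lit 12324557))))
(L (nat_lit 18968009)))
(S (nat_lit 31585) (L (nat_lit 29659698))
(L (nat_lit 5943677))))
(L (nat_lit 6319692)))
(L (nat_lit 27625037)))
(L (nat_lit 20857184)))
(S (nat_lit 19345) (L (nat_lit 13739924))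
(L (nat_lit 682317))))
(S (nat_lit 41171) (L (nat_lit 18417016))
(L (nat_lit 26821859))))
(L (nat_lit 3465653)))
(S (nat_lit 39575) (S (nat_lit 1279) (S (nat_lit 40785) (L (nat_lit 9451130))
(L (nat_lit 667405)))
(S (nat_lit 16900) (L (nat_lit 4581812))
(L (nat_lit 20156858))))
(L (nat_lit 25287889)))))
(L (nat_lit 25397686)))))
(S (nat_lit 50494) (S (nat_lit 47) (S (nat_lit 1003) (S (nat_lit 1743) (S (nat_lit 1765) (L (nat_lit 29403822))
(L (nat_lit 12780155)))
(S (nat_lit 21507) (S (nat_lit 1701) (S (nat_lit 1732) (L (nat_lit 29594222))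
(L (nat_lit 12602715)))
(L (nat_lit 13388939)))
(S (nat_lit 41271) (S (nat_lit 41293) (L (nat_lit 29829170))
(L (nat_lit 16821108)))
(L (nat_lit 25340621)))))
(S (nat_lit 20767) (S (nat_lit 64) (S (nat_lit 50538) (S (nat_lit 1034) (S (nat_lit 54901) (S (nat_lit 41503) (S (nat_lit 20356) (L (nat_lit 29926486))
(L (nat_lit 2959892)))
(L (nat_lit 929454)))
(L (nat_lit 27762707)))
(L (nat_lit 18931952)))
(L (nat_lit 22385455)))
(S (nat_lit 19828) (S (nat_lit 6475) (L (nat_lit 6112842))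
(S (nat_lit 21733) (S (nat_lit 6687) (L (nat_lit 576296))
(S (nat_lit 40564) (S (nat_lit 19806) (S (nat_lit 39542) (S (nat_lit 997) (S (nat_lit 19826) (S (nat_lit 21043) (S (nat_lit 8823) (L (nat_lit 28482965))
(L (nat_lit 7263342)))
(S (nat_lit 37419) (L (nat_lit 9613979))
(S (nat_lit 41845) (L (nat_lit 4672294))
(L (nat_lit 5025173)))))
(L (nat_lit 16085143)))
(S (nat_lit 46294) (L (nat_lit 18957593))
(L (nat_lit 26500613))))
(L (nat_lit 17028216)))
(L (nat_lit 30707437)))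
(L (nat_lit 9564596))))
(L (nat_lit 22940167))))
(S (nat_lit 39592) (S (nat_lit 1019) (S (nat_lit 19795) (S (nat_lit 13351) (L (nat_lit 9594260))
(L (nat_lit 30975587)))
(S (nat_lit 29579) (L (nat_lit 5032329))
(L (nat_lit 9515797))))
(S (nat_lit 21411) (L (nat_lit 13505099))
(L (nat_lit 13641340))))
(L (nat_lit 25529780)))))
(S (nat_lit 40531) (S (nat_lit 2006) (S (nat_lit 1036) (S (nat_lit 21722) (S (nat_lit 1765) (L (nat_lit 20190095))
(S (nat_lit 45477) (L (nat_lit 2924112))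
(L (nat_lit 20447547))))
(L (nat_lit 11110160)))
(L (nat_lit 20856064)))
(S (nat_lit 21770) (S (nat_lit 35171) (S (nat_lit 19806) (S (nat_lit 1332) (L (nat_lit 12365974))
(L (nat_lit 27464301)))
(L (nat_lit 30495085)))
(S (nat_lit 51843) (L (nat_lit 17835829))
(L (nat_lit 18884399))))
(S (nat_lit 41534) (S (nat_lit 28537) (L (nat_lit 24194863))
(L (nat_lit 30424681)))
(L (nat_lit 25708800)))))
(L (nat_lit 25381344)))))
(S (nat_lit 19811) (S (nat_lit 1715) (S (nat_lit 27275) (L (nat_lit 27385291))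
(S (nat_lit 37307) (S (nat_lit 1246) (L (nat_lit 20818061))
(L (nat_lit 14494340)))
(L (nat_lit 13740795))))
(S (nat_lit 21479) (S (nat_lit 41293) (S (nat_lit 28537) (L (nat_lit 30618208))
(L (nat_lit 3030632)))
(L (nat_lit 27481477)))
(S (nat_lit 41243) (S (nat_lit 1277) (S (nat_lit 37260) (L (nat_lit 23097735))
(L (nat_lit 13658854)))
(S (nat_lit 5081) (L (nat_lit 12610807))
(L (nat_lit 10577430))))
(L (nat_lit 25592456)))))
(S (nat_lit 39575) (S (nat_lit 1958) (S (nat_lit 1240) (S (nat_lit 50525) (S (nat_lit 54912) (S (nat_lit 62) (S (nat_lit 1262) (S (nat_lit 21041) (S (nat_lit 21755) (S (nat_lit 41503) (S (nat_lit 54862) (S (nat_lit 19806) (S (nat_lit 47418) (L (nat_lit 5485211))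
(S (nat_lit 51411) (S (nat_lit 24235) (L (nat_lit 5488315))
(L (nat_lit 26850626)))
(L (nat_lit 12013755))))
(L (nat_lit 15488352)))
(L (nat_lit 6138513)))
(L (nat_lit 23532796)))
(L (nat_lit 7398806)))
(L (nat_lit 22255472)))
(L (nat_lit 20415241)))
(L (nat_lit 20454276)))
(L (nat_lit 5595758)))
(L (nat_lit 5873422)))
(S (nat_lit 21004) (S (nat_lit 54912) (S (nat_lit 1257) (S (nat_lit 31) (S (nat_lit 41472) (S (nat_lit 39603) (S (nat_lit 21755) (S (nat_lit 15309) (S (nat_lit 15340) (S (nat_lit 19828) (S (nat_lit 2649) (L (nat_lit 3488347))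
(S (nat_lit 22170) (S (nat_lit 2892) (L (nat_lit 2441849))
(L (nat_lit 31146275)))
(L (nat_lit 30130343))))
(L (nat_lit 15519938)))
(L (nat_lit 26853667)))
(L (nat_lit 22853671)))
(L (nat_lit 21226880)))
(L (nat_lit 5980477)))
(L (nat_lit 24515901)))
(L (nat_lit 26319317)))
(L (nat_lit 3815673)))
(L (nat_lit 12129070)))
(S (nat_lit 40768) (S (nat_lit 1215) (S (nat_lit 1277) (S (nat_lit 35115) (S (nat_lit 31) (S (nat_lit 19806) (S (nat_lit 1246) (S (nat_lit 41472) (S (nat_lit 40790) (S (nat_lit 21755) (S (nat_lit 20993) (S (nat_lit 15056) (L (nat_lit 278107))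
(S (nat_lit 20800) (S (nat_lit 7144) (L (nat_lit 1262171))
(L (nat_lit 27934017)))
(L (nat_lit 6405012))))
(L (nat_lit 6928537)))
(L (nat_lit 5167526)))
(L (nat_lit 10119552)))
(L (nat_lit 27577517)))
(L (nat_lit 26912815)))
(L (nat_lit 8469299)))
(L (nat_lit 19996122)))
(L (nat_lit 20209840)))
(L (nat_lit 19802192)))
(L (nat_lit 14461541)))
(L (nat_lit 25451009)))))
(S (nat_lit 21722) (S (nat_lit 1034) (S (nat_lit 75) (S (nat_lit 8834) (L (nat_lit 13654824))
(S (nat_lit 28526) (S (nat_lit 21479) (L (nat_lit 10507673))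
(L (nat_lit 21267217)))
(L (nat_lit 18080485))))
(S (nat_lit 5007) (L (nat_lit 5485176))
(L (nat_lit 14356760))))
(S (nat_lit 33784) (L (nat_lit 4610854))
(L (nat_lit 9310742))))
(S (nat_lit 41486) (S (nat_lit 4278) (L (nat_lit 27887019))
(S (nat_lit 57049) (S (nat_lit 48301) (S (nat_lit 1215) (L (nat_lit 11547256))
(L (nat_lit 9227683)))
(L (nat_lit 27497068)))
(L (nat_lit 4417939))))
(L (nat_lit 25757160)))))
(L (nat_lit 25483312)))))
(L (nat_lit 25254408)))))
(L (nat_lit 25188873)))))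
(S (nat_lit 54851) (S (nat_lit 8790) (S (nat_lit 1036) (S (nat_lit 15334) (S (nat_lit 17558) (S (nat_lit 8256) (L (nat_lit 352694))
(S (nat_lit 39553) (S (nat_lit 57099) (S (nat_lit 20736) (S (nat_lit 40514) (S (nat_lit 41486) (S (nat_lit 40562) (S (nat_lit 42912) (L (nat_lit 5155318))
(L (nat_lit 18059899)))
(L (nat_lit 1625400)))
(L (nat_lit 972264)))
(L (nat_lit 2020841)))
(L (nat_lit 21260674)))
(L (nat_lit 11165807)))
(L (nat_lit 17404249))))
(S (nat_lit 37322) (S (nat_lit 4779) (S (nat_lit 37285) (L (nat_lit 17885427))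
(L (nat_lit 13853843)))
(S (nat_lit 39553) (S (nat_lit 30741) (S (nat_lit 50463) (S (nat_lit 50538) (S (nat_lit 21739) (S (nat_lit 64) (L (nat_lit 3358612))
(L (nat_lit 20456474)))
(L (nat_lit 11449396)))
(L (nat_lit 11343599)))
(L (nat_lit 4447151)))
(S (nat_lit 41647) (L (nat_lit 26224207))
(L (nat_lit 10390932))))
(L (nat_lit 11125913))))
(S (nat_lit 57086) (S (nat_lit 1701) (S (nat_lit 1215) (S (nat_lit 40514) (L (nat_lit 4016552))
(L (nat_lit 24521912)))
(L (nat_lit 6039986)))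
(S (nat_lit 35234) (L (nat_lit 26400166))
(L (nat_lit 19707236))))
(L (nat_lit 25566788)))))
(S (nat_lit 35098) (S (nat_lit 17496) (S (nat_lit 15340) (S (nat_lit 41293) (L (nat_lit 6870914))
(L (nat_lit 27798085)))
(S (nat_lit 35104) (S (nat_lit 75) (S (nat_lit 50510) (S (nat_lit 1975) (S (nat_lit 17538) (S (nat_lit 1019) (S (nat_lit 1991) (S (nat_lit 1262) (L (nat_lit 12847740))
(L (nat_lit 6118736)))
(L (nat_lit 19132834)))
(L (nat_lit 19100067)))
(L (nat_lit 16050817)))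
(L (nat_lit 20788449)))
(L (nat_lit 20457498)))
(S (nat_lit 23123) (L (nat_lit 4069998))
(L (nat_lit 20491385))))
(S (nat_lit 54868) (S (nat_lit 1019) (S (nat_lit 64) (S (nat_lit 30761) (S (nat_lit 8773) (S (nat_lit 50477) (S (nat_lit 75) (L (nat_lit 9139308))
(L (nat_lit 20490360)))
(L (nat_lit 20423556)))
(L (nat_lit 6340219)))
(L (nat_lit 9209452)))
(L (nat_lit 20507843)))
(S (nat_lit 30118) (L (nat_lit 5123664))
(L (nat_lit 20123037))))
(L (nat_lit 25279176)))))
(S (nat_lit 37260) (S (nat_lit 160) (S (nat_lit 1765) (L (nat_lit 26837231))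
(L (nat_lit 13850405)))
(S (nat_lit 19789) (S (nat_lit 27645) (S (nat_lit 50477) (S (nat_lit 42829) (L (nat_lit 5561232))
(L (nat_lit 19940102)))
(L (nat_lit 20133764)))
(S (nat_lit 50494) (S (nat_lit 64) (S (nat_lit 40531) (S (nat_lit 41503) (L (nat_lit 325140))
(L (nat_lit 2356911)))
(L (nat_lit 9467567)))
(L (nat_lit 6836994)))
(L (nat_lit 20847693))))
(L (nat_lit 3038574))))
(S (nat_lit 57024) (S (nat_lit 1246) (S (nat_lit 1732) (L (nat_lit 2875878))
(L (nat_lit 12603242)))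
(L (nat_lit 12636011)))
(L (nat_lit 25681089)))))
(S (nat_lit 54862) (S (nat_lit 1776) (S (nat_lit 75) (S (nat_lit 1765) (S (nat_lit 1277) (S (nat_lit 1262) (S (nat_lit 2019) (S (nat_lit 1047) (S (nat_lit 30699) (S (nat_lit 35154) (S (nat_lit 54837) (S (nat_lit 64) (S (nat_lit 1003) (S (nat_lit 1975) (S (nat_lit 54879) (S (nat_lit 1701) (S (nat_lit 42) (S (nat_lit 30730) (S (nat_lit 17496) (S (nat_lit 8795) (S (nat_lit 1215) (S (nat_lit 35218) (S (nat_lit 5053) (S (nat_lit 13736) (S (nat_lit 49586) (S (nat_lit 48857) (S (nat_lit 8223) (D (nat_lit 11) (nat_lit 903471) (nat_lit 25768291) (nat_lit 1316028448))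
(L (nat_lit 29826198)))
(L (nat_lit 21459140)))
(L (nat_lit 21459172)))
(L (nat_lit 28000450)))
(S (nat_lit 38712) (S (nat_lit 7234) (S (nat_lit 48647) (S (nat_lit 48404) (S (nat_lit 57633) (S (nat_lit 13946) (D (nat_lit 11) (nat_lit 8178701) (nat_lit 25768107) (nat_lit 280488902688))
(L (nat_lit 28334537)))
(L (nat_lit 9329088)))
(L (nat_lit 21899713)))
(L (nat_lit 21899712)))
(L (nat_lit 30097729)))
(L (nat_lit 29497877))))
(L (nat_lit 28674515)))
(L (nat_lit 20188972)))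
(L (nat_lit 17542916)))
(L (nat_lit 18586401)))
(L (nat_lit 8481360)))
(L (nat_lit 20200320)))
(L (nat_lit 20000184)))
(L (nat_lit 11210510)))
(L (nat_lit 26260821)))
(L (nat_lit 26424501)))
(L (nat_lit 26779701)))
(L (nat_lit 6024647)))
(L (nat_lit 12315073)))
(L (nat_lit 10185184)))
(L (nat_lit 4964729)))
(L (nat_lit 12304537)))
(L (nat_lit 26427968)))
(L (nat_lit 26791136)))
(L (nat_lit 12485012)))
(S (nat_lit 39079) (L (nat_lit 15963800))
(L (nat_lit 13314136))))
(S (nat_lit 21540) (S (nat_lit 1003) (S (nat_lit 21496) (S (nat_lit 21465) (S (nat_lit 21529) (S (nat_lit 30774) (S (nat_lit 30761) (S (nat_lit 55915) (S (nat_lit 55890) (S (nat_lit 8773) (S (nat_lit 8823) (S (nat_lit 1991) (S (nat_lit 1014) (S (nat_lit 55932) (S (nat_lit 32394) (S (nat_lit 21527) (S (nat_lit 48874) (S (nat_lit 37486) (S (nat_lit 42556) (D (nat_lit 15) (nat_lit 8179075) (nat_lit 25761160) (nat_lit 107648910469))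
(L (nat_lit 9310860)))
(L (nat_lit 27931784)))
(S (nat_lit 49198) (S (nat_lit 38338) (S (nat_lit 28736) (S (nat_lit 57605) (D (nat_lit 15) (nat_lit 7189152) (nat_lit 4995346) (nat_lit 247028911304))
(L (nat_lit 22540484)))
(L (nat_lit 27711843)))
(L (nat_lit 21836069)))
(L (nat_lit 577913))))
(L (nat_lit 15943739)))
(L (nat_lit 9489850)))
(L (nat_lit 14724887)))
(L (nat_lit 4910381)))
(L (nat_lit 12240674)))
(L (nat_lit 700272)))
(L (nat_lit 23603355)))
(L (nat_lit 11441840)))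
(L (nat_lit 11035201)))
(L (nat_lit 19362148)))
(L (nat_lit 10326767)))
(L (nat_lit 7459256)))
(L (nat_lit 11135396)))
(L (nat_lit 11449364)))
(S (nat_lit 37410) (L (nat_lit 21248771))
(L (nat_lit 13476021))))
(S (nat_lit 41304) (S (nat_lit 31864) (S (nat_lit 41293) (S (nat_lit 31897) (S (nat_lit 1991) (S (nat_lit 2006) (S (nat_lit 8762) (S (nat_lit 8773) (S (nat_lit 1975) (S (nat_lit 21041) (S (nat_lit 1014) (S (nat_lit 17496) (S (nat_lit 8823) (S (nat_lit 1944) (S (nat_lit 17543) (S (nat_lit 31) (S (nat_lit 56376) (S (nat_lit 56401) (S (nat_lit 42556) (S (nat_lit 5296) (S (nat_lit 29629) (D (nat_lit 15) (nat_lit 6146504) (nat_lit 25761036) (nat_lit 107646820416))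
(L (nat_lit 29017222)))
(L (nat_lit 30026146)))
(S (nat_lit 49198) (S (nat_lit 38338) (S (nat_lit 29222) (S (nat_lit 57119) (D (nat_lit 15) (nat_lit 7189152) (nat_lit 4995656) (nat_lit 247028911304))
(L (nat_lit 22540545)))
(L (nat_lit 27711781)))
(L (nat_lit 21836069)))
(L (nat_lit 19710149))))
(L (nat_lit 29073824)))
(L (nat_lit 12440720)))
(L (nat_lit 12879515)))
(L (nat_lit 7424814)))
(L (nat_lit 14246057)))
(L (nat_lit 17739329)))
(L (nat_lit 6872120)))
(L (nat_lit 26431533)))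
(L (nat_lit 22604002)))
(L (nat_lit 26449364)))
(L (nat_lit 14741879)))
(L (nat_lit 6835012)))
(L (nat_lit 14389128)))
(L (nat_lit 26264951)))
(L (nat_lit 9297069)))
(L (nat_lit 27311690)))
(S (nat_lit 57086) (S (nat_lit 1003) (L (nat_lit 13197479))
(L (nat_lit 14502059)))
(L (nat_lit 10632792))))
(L (nat_lit 25927853)))))
(L (nat_lit 25930147)))))
(S (nat_lit 20800) (S (nat_lit 1958) (S (nat_lit 1229) (S (nat_lit 1701) (S (nat_lit 1215) (S (nat_lit 75) (L (nat_lit 26618898))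
(L (nat_lit 20484408)))
(L (nat_lit 3433069)))
(L (nat_lit 26627426)))
(S (nat_lit 20993) (S (nat_lit 8862) (S (nat_lit 37274) (L (nat_lit 15601255))
(L (nat_lit 30975589)))
(S (nat_lit 50505) (S (nat_lit 39592) (S (nat_lit 54879) (S (nat_lit 41254) (L (nat_lit 26845358))
(L (nat_lit 6908448)))
(L (nat_lit 28001414)))
(L (nat_lit 5825748)))
(L (nat_lit 13362496))))
(S (nat_lit 40757) (S (nat_lit 47) (S (nat_lit 54912) (S (nat_lit 15340) (L (nat_lit 8239684))
(L (nat_lit 418409)))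
(L (nat_lit 27628144)))
(S (nat_lit 8138) (L (nat_lit 12141720))
(L (nat_lit 18983325))))
(L (nat_lit 25284977)))))
(S (nat_lit 21722) (S (nat_lit 14) (S (nat_lit 2019) (S (nat_lit 15340) (S (nat_lit 50510) (S (nat_lit 15351) (L (nat_lit 22581596))
(L (nat_lit 24414713)))
(L (nat_lit 11654650)))
(L (nat_lit 26793032)))
(S (nat_lit 41387) (L (nat_lit 13640379))
(L (nat_lit 13705880))))
(S (nat_lit 19778) (S (nat_lit 17571) (S (nat_lit 15340) (S (nat_lit 30763) (S (nat_lit 21512) (L (nat_lit 15818041))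
(L (nat_lit 6199735)))
(L (nat_lit 30782514)))
(L (nat_lit 582248)))
(S (nat_lit 40181) (L (nat_lit 9555888))
(L (nat_lit 16328824))))
(S (nat_lit 39542) (S (nat_lit 11411) (L (nat_lit 20317063))
(S (nat_lit 50477) (S (nat_lit 2088) (S (nat_lit 37285) (S (nat_lit 21770) (S (nat_lit 142) (L (nat_lit 26774249))
(L (nat_lit 21929134)))
(L (nat_lit 11233360)))
(L (nat_lit 23651497)))
(S (nat_lit 41293) (S (nat_lit 19789) (L (nat_lit 29917492))
(L (nat_lit 22222702)))
(L (nat_lit 27841893))))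
(L (nat_lit 10542990))))
(L (nat_lit 25186576)))))
(S (nat_lit 41486) (S (nat_lit 42) (S (nat_lit 1019) (S (nat_lit 75) (S (nat_lit 17571) (S (nat_lit 41519) (S (nat_lit 8823) (S (nat_lit 1034) (S (nat_lit 8748) (S (nat_lit 17496) (S (nat_lit 41534) (S (nat_lit 20767) (S (nat_lit 20761) (S (nat_lit 15351) (S (nat_lit 21527) (L (nat_lit 28328554))
(L (nat_lit 21524737)))
(S (nat_lit 35115) (S (nat_lit 50463) (S (nat_lit 37274) (S (nat_lit 39559) (S (nat_lit 28526) (S (nat_lit 19811) (S (nat_lit 19826) (S (nat_lit 40500) (S (nat_lit 21708) (S (nat_lit 21783) (S (nat_lit 19533) (S (nat_lit 41647) (S (nat_lit 45970) (S (nat_lit 58807) (S (nat_lit 44981) (S (nat_lit 21021) (S (nat_lit 9473) (S (nat_lit 5671) (D (nat_lit 11) (nat_lit 29006894) (nat_lit 8145072) (nat_lit 176169090))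
(L (nat_lit 27762804)))
(L (nat_lit 31112480)))
(L (nat_lit 31112485)))
(S (nat_lit 51771) (S (nat_lit 10445) (S (nat_lit 21507) (S (nat_lit 6157) (D (nat_lit 11) (nat_lit 29006894) (nat_lit 8145413) (nat_lit 176169090))
(L (nat_lit 27763796)))
(L (nat_lit 31112452)))
(L (nat_lit 31112516)))
(L (nat_lit 28810976))))
(L (nat_lit 22515623)))
(L (nat_lit 21438649)))
(L (nat_lit 21438585)))
(S (nat_lit 24949) (S (nat_lit 28152) (S (nat_lit 49891) (S (nat_lit 42879) (S (nat_lit 3641) (S (nat_lit 47660) (S (nat_lit 44481) (S (nat_lit 11989) (S (nat_lit 15029) (S (nat_lit 19389) (D (nat_lit 15) (nat_lit 31011072) (nat_lit 25307698) (nat_lit 106374075425))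
(L (nat_lit 30083593)))
(L (nat_lit 30095617)))
(S (nat_lit 30569) (S (nat_lit 56987) (S (nat_lit 29480) (D (nat_lit 13) (nat_lit 9528908) (nat_lit 11291107) (nat_lit 5642785001504))
(L (nat_lit 9227651)))
(L (nat_lit 26850629)))
(L (nat_lit 13979803))))
(L (nat_lit 8883899)))
(L (nat_lit 28553793)))
(L (nat_lit 30116391)))
(L (nat_lit 30059043)))
(L (nat_lit 2971175)))
(L (nat_lit 17998740)))
(S (nat_lit 37678) (S (nat_lit 30209) (S (nat_lit 27666) (S (nat_lit 4127) (S (nat_lit 43365) (S (nat_lit 57137) (S (nat_lit 7397) (S (nat_lit 17459) (S (nat_lit 51299) (D (nat_lit 15) (nat_lit 31142986) (nat_lit 25761192) (nat_lit 110662619272))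
(L (nat_lit 28822755)))
(L (nat_lit 31048898)))
(S (nat_lit 42669) (S (nat_lit 37384) (S (nat_lit 50134) (D (nat_lit 13) (nat_lit 11626061) (nat_lit 9193649) (nat_lit 7839658676320))
(L (nat_lit 3952010)))
(L (nat_lit 26850627)))
(L (nat_lit 12284048))))
(L (nat_lit 22048170)))
(L (nat_lit 22375600)))
(L (nat_lit 24395617)))
(L (nat_lit 22408365)))
(L (nat_lit 10153505)))
(L (nat_lit 7898744)))))
(L (nat_lit 11256741)))
(L (nat_lit 11423141)))
(L (nat_lit 3567176)))
(L (nat_lit 2935121)))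
(L (nat_lit 3070161)))
(L (nat_lit 4075797)))
(L (nat_lit 6180110)))
(L (nat_lit 4082958)))
(L (nat_lit 5926439)))
(S (nat_lit 54879) (S (nat_lit 1277) (L (nat_lit 10569652))
(L (nat_lit 4116007)))
(L (nat_lit 25445557)))))
(L (nat_lit 21063174)))
(L (nat_lit 6810277)))
(L (nat_lit 7018010)))
(L (nat_lit 6808224)))
(L (nat_lit 6971840)))
(L (nat_lit 19409021)))
(L (nat_lit 8310145)))
(L (nat_lit 7209584)))
(L (nat_lit 7221856)))
(L (nat_lit 20490328)))
(S (nat_lit 41069) (S (nat_lit 40583) (L (nat_lit 20000220))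
(L (nat_lit 9276855)))
(L (nat_lit 2991543))))
(S (nat_lit 19726) (S (nat_lit 15002) (L (nat_lit 30704365))
(L (nat_lit 18956166)))
(L (nat_lit 13717848))))
(L (nat_lit 25279735)))))
(S (nat_lit 40564) (S (nat_lit 10977) (S (nat_lit 21755) (S (nat_lit 1019) (S (nat_lit 19828) (S (nat_lit 17571) (S (nat_lit 15384) (S (nat_lit 48338) (S (nat_lit 37291) (S (nat_lit 50525) (S (nat_lit 28537) (S (nat_lit 57038) (S (nat_lit 50510) (S (nat_lit 39575) (S (nat_lit 35104) (S (nat_lit 30763) (S (nat_lit 15309) (S (nat_lit 35137) (S (nat_lit 1748) (S (nat_lit 28543) (S (nat_lit 57086) (S (nat_lit 39542) (S (nat_lit 75) (S (nat_lit 40525) (S (nat_lit 326) (S (nat_lit 40743) (S (nat_lit 39655) (S (nat_lit 1763) (S (nat_lit 20151) (S (nat_lit 21770) (S (nat_lit 41953) (S (nat_lit 2657) (S (nat_lit 25950) (S (nat_lit 23034) (D (nat_lit 11) (nat_lit 30120044) (nat_lit 19670190) (nat_lit 71109248001))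
(L (nat_lit 23490754)))
(L (nat_lit 23521506)))
(L (nat_lit 30093507)))
(S (nat_lit 43817) (S (nat_lit 25298) (S (nat_lit 42069) (S (nat_lit 23840) (D (nat_lit 11) (nat_lit 25892209) (nat_lit 19670128) (nat_lit 138413121))
(L (nat_lit 19358912)))
(L (nat_lit 19797382)))
(L (nat_lit 27865378)))
(L (nat_lit 874764))))
(L (nat_lit 20984616)))
(L (nat_lit 1406573)))
(L (nat_lit 19837032)))
(L (nat_lit 13504104)))
(L (nat_lit 27659880)))
(L (nat_lit 28711521)))
(L (nat_lit 23463691)))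
(L (nat_lit 13332550)))
(L (nat_lit 23490635)))
(L (nat_lit 13436491)))
(L (nat_lit 12874307)))
(S (nat_lit 21512) (S (nat_lit 17538) (S (nat_lit 42) (S (nat_lit 19795) (S (nat_lit 1975) (S (nat_lit 887) (S (nat_lit 20811) (S (nat_lit 20778) (S (nat_lit 4518) (S (nat_lit 25784) (S (nat_lit 43074) (S (nat_lit 34206) (S (nat_lit 7484) (S (nat_lit 23840) (D (nat_lit 9) (nat_lit 28978349) (nat_lit 19052297) (nat_lit 282435098757))
(L (nat_lit 19358912)))
(L (nat_lit 31011173)))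
(L (nat_lit 19743818)))
(L (nat_lit 19738977)))
(L (nat_lit 27865281)))
(S (nat_lit 43886) (S (nat_lit 42571) (S (nat_lit 45001) (S (nat_lit 3110) (D (nat_lit 11) (nat_lit 31074722) (nat_lit 25765317) (nat_lit 106438957062))
(L (nat_lit 31078757)))
(L (nat_lit 9330145)))
(L (nat_lit 9330112)))
(L (nat_lit 3490392))))
(L (nat_lit 22986020)))
(L (nat_lit 31169548)))
(L (nat_lit 4119920)))
(L (nat_lit 13886613)))
(L (nat_lit 21934370)))
(L (nat_lit 13299040)))
(L (nat_lit 7190080)))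
(S (nat_lit 41276) (S (nat_lit 21529) (S (nat_lit 21043) (S (nat_lit 1179) (S (nat_lit 40790) (S (nat_lit 40531) (S (nat_lit 19789) (S (nat_lit 21722) (S (nat_lit 48323) (S (nat_lit 20778) (S (nat_lit 41312) (S (nat_lit 21496) (S (nat_lit 14707) (S (nat_lit 47769) (S (nat_lit 5752) (S (nat_lit 14981) (S (nat_lit 23117) (S (nat_lit 52813) (D (nat_lit 13) (nat_lit 27866432) (nat_lit 16966217) (nat_lit 139623209024))
(L (nat_lit 20885728)))
(L (nat_lit 27828898)))
(L (nat_lit 27870374)))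
(L (nat_lit 30000388)))
(L (nat_lit 29995266)))
(S (nat_lit 24360) (S (nat_lit 4844) (S (nat_lit 14542) (S (nat_lit 47188) (S (nat_lit 7484) (S (nat_lit 46443) (D (nat_lit 13) (nat_lit 31073423) (nat_lit 25282864) (nat_lit 2302207334406))
(L (nat_lit 28913702)))
(L (nat_lit 31011172)))
(L (nat_lit 9328001)))
(L (nat_lit 29989409)))
(L (nat_lit 29840577)))
(L (nat_lit 27740514))))
(L (nat_lit 346894)))
(L (nat_lit 13543010)))
(L (nat_lit 15946594)))
(L (nat_lit 11255652)))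
(L (nat_lit 16666946)))
(L (nat_lit 16668994)))
(L (nat_lit 18511205)))
(L (nat_lit 16974456)))
(L (nat_lit 16975480)))
(L (nat_lit 14911096)))
(L (nat_lit 14877304)))
(L (nat_lit 25648200)))))
(L (nat_lit 13424866)))
(L (nat_lit 15522822)))
(L (nat_lit 13825737)))
(L (nat_lit 10389105)))
(L (nat_lit 16869994)))
(L (nat_lit 15445050)))
(L (nat_lit 5161579)))
(L (nat_lit 30879331)))
(L (nat_lit 15070821)))
(L (nat_lit 13894264)))
(L (nat_lit 13959800)))
(L (nat_lit 15012472)))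
(L (nat_lit 8305249)))
(L (nat_lit 9288291)))
(L (nat_lit 13444705)))
(L (nat_lit 2015846)))
(S (nat_lit 30741) (S (nat_lit 54912) (S (nat_lit 997) (S (nat_lit 31) (S (nat_lit 1958) (S (nat_lit 1726) (L (nat_lit 8804224))
(L (nat_lit 12947348)))
(L (nat_lit 19249308)))
(L (nat_lit 12879732)))
(S (nat_lit 20761) (S (nat_lit 41486) (S (nat_lit 57086) (L (nat_lit 4796765))
(L (nat_lit 12322196)))
(L (nat_lit 24427672)))
(S (nat_lit 40525) (S (nat_lit 21755) (S (nat_lit 41276) (L (nat_lit 4418160))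
(L (nat_lit 3973745)))
(S (nat_lit 45927) (L (nat_lit 15822164))
(L (nat_lit 21922182))))
(L (nat_lit 25805093)))))
(L (nat_lit 27700833)))
(S (nat_lit 50505) (S (nat_lit 10966) (S (nat_lit 15371) (S (nat_lit 17571) (S (nat_lit 21755) (S (nat_lit 1019) (S (nat_lit 35148) (S (nat_lit 30763) (S (nat_lit 21041) (L (nat_lit 7244338))
(L (nat_lit 12283985)))
(L (nat_lit 30754861)))
(L (nat_lit 18212449)))
(L (nat_lit 26428001)))
(L (nat_lit 8292977)))
(L (nat_lit 7960065)))
(L (nat_lit 7496116)))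
(S (nat_lit 30730) (S (nat_lit 75) (S (nat_lit 1969) (S (nat_lit 1975) (S (nat_lit 50538) (S (nat_lit 42) (S (nat_lit 8823) (S (nat_lit 40525) (S (nat_lit 35115) (S (nat_lit 8748) (S (nat_lit 8437) (L (nat_lit 10610195))
(S (nat_lit 17571) (S (nat_lit 21722) (S (nat_lit 21755) (S (nat_lit 1019) (S (nat_lit 1748) (L (nat_lit 5456475))
(L (nat_lit 10312065)))
(L (nat_lit 26873223)))
(L (nat_lit 30874208)))
(L (nat_lit 31045856)))
(L (nat_lit 18487143))))
(L (nat_lit 6840960)))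
(L (nat_lit 20490081)))
(L (nat_lit 3762694)))
(L (nat_lit 7230849)))
(L (nat_lit 12880632)))
(L (nat_lit 5656454)))
(L (nat_lit 12405902)))
(L (nat_lit 20039594)))
(S (nat_lit 29363) (L (nat_lit 13915261))
(L (nat_lit 14414951))))
(S (nat_lit 50494) (S (nat_lit 36706) (L (nat_lit 12062487))
(S (nat_lit 40790) (L (nat_lit 8130159))
(L (nat_lit 17162848))))
(L (nat_lit 25756976)))))
(L (nat_lit 25280854)))))
(L (nat_lit 25476704)))))
(S (nat_lit 28554) (S (nat_lit 8773) (S (nat_lit 1257) (S (nat_lit 1246) (S (nat_lit 57099) (S (nat_lit 1776) (S (nat_lit 1215) (S (nat_lit 41260) (L (nat_lit 26939760))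
(L (nat_lit 27733012)))
(L (nat_lit 5531245)))
(L (nat_lit 14589970)))
(L (nat_lit 5923335)))
(S (nat_lit 21010) (S (nat_lit 1036) (S (nat_lit 11010) (S (nat_lit 1215) (S (nat_lit 1776) (L (nat_lit 6475194))
(L (nat_lit 13365570)))
(L (nat_lit 26482066)))
(L (nat_lit 21933473)))
(L (nat_lit 19840325)))
(S (nat_lit 40774) (S (nat_lit 1776) (S (nat_lit 57099) (S (nat_lit 1019) (S (nat_lit 1290) (S (nat_lit 10997) (S (nat_lit 986) (S (nat_lit 57024) (S (nat_lit 19778) (S (nat_lit 17510) (S (nat_lit 37285) (S (nat_lit 21512) (S (nat_lit 26031) (S (nat_lit 40768) (S (nat_lit 39559) (S (nat_lit 26064) (S (nat_lit 54899) (S (nat_lit 1215) (S (nat_lit 3305) (S (nat_lit 1644) (S (nat_lit 12342) (S (nat_lit 20153) (S (nat_lit 41150) (D (nat_lit 13) (nat_lit 15736597) (nat_lit 3938834) (nat_lit 5533065054241))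
(L (nat_lit 21865553)))
(L (nat_lit 29046922)))
(L (nat_lit 30953829)))
(S (nat_lit 17136) (S (nat_lit 19160) (S (nat_lit 52144) (S (nat_lit 20922) (S (nat_lit 17103) (D (nat_lit 13) (nat_lit 30594601) (nat_lit 19055992) (nat_lit 2444039915680))
(L (nat_lit 28396937)))
(L (nat_lit 19295461)))
(L (nat_lit 19295424)))
(L (nat_lit 31044805)))
(L (nat_lit 5665515))))
(L (nat_lit 27492941)))
(L (nat_lit 20340904)))
(L (nat_lit 5053071)))
(L (nat_lit 27988335)))
(L (nat_lit 27761780)))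
(L (nat_lit 23348996)))
(L (nat_lit 29604914)))
(L (nat_lit 22028731)))
(L (nat_lit 16979763)))
(L (nat_lit 519787)))
(L (nat_lit 9328101)))
(L (nat_lit 19100721)))
(L (nat_lit 13414049)))
(L (nat_lit 18178724)))
(L (nat_lit 8483501)))
(L (nat_lit 20136739)))
(L (nat_lit 15275814)))
(S (nat_lit 40388) (L (nat_lit 14568454))
(L (nat_lit 19074520))))
(L (nat_lit 25857478)))))
(S (nat_lit 21021) (S (nat_lit 1944) (S (nat_lit 75) (S (nat_lit 17543) (S (nat_lit 41229) (L (nat_lit 19344409))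
(L (nat_lit 17969010)))
(L (nat_lit 536370)))
(L (nat_lit 12948338)))
(S (nat_lit 21708) (S (nat_lit 19811) (S (nat_lit 10997) (S (nat_lit 35148) (S (nat_lit 48338) (S (nat_lit 41519) (S (nat_lit 20979) (S (nat_lit 57099) (S (nat_lit 21496) (S (nat_lit 40805) (S (nat_lit 40542) (S (nat_lit 50463) (S (nat_lit 10982) (S (nat_lit 21750) (S (nat_lit 10949) (S (nat_lit 20767) (S (nat_lit 24302) (S (nat_lit 15334) (S (nat_lit 21414) (S (nat_lit 31150) (S (nat_lit 10785) (S (nat_lit 36401) (S (nat_lit 39685) (D (nat_lit 13) (nat_lit 26810820) (nat_lit 18988811) (nat_lit 76403474566))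
(L (nat_lit 2972137)))
(L (nat_lit 19097647)))
(L (nat_lit 27740389)))
(L (nat_lit 27867332)))
(S (nat_lit 25479) (S (nat_lit 18654) (S (nat_lit 12822) (S (nat_lit 54983) (D (nat_lit 11) (nat_lit 27857228) (nat_lit 19259566) (nat_lit 35537328294))
(L (nat_lit 28976577)))
(L (nat_lit 30559625)))
(L (nat_lit 30558600)))
(L (nat_lit 3060051))))
(L (nat_lit 1765740)))
(L (nat_lit 16347361)))
(L (nat_lit 22538437)))
(L (nat_lit 16566533)))
(L (nat_lit 21303868)))
(L (nat_lit 16028435)))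
(L (nat_lit 4877799)))
(L (nat_lit 17607731)))
(L (nat_lit 27342535)))
(L (nat_lit 20998383)))
(L (nat_lit 21114671)))
(L (nat_lit 5125394)))
(L (nat_lit 2351729)))
(L (nat_lit 27695717)))
(L (nat_lit 10272352)))
(L (nat_lit 2019692)))
(L (nat_lit 16689733)))
(S (nat_lit 41472) (S (nat_lit 41229) (S (nat_lit 20979) (S (nat_lit 57099) (L (nat_lit 11985506))
(L (nat_lit 27636321)))
(L (nat_lit 12465330)))
(L (nat_lit 16920498)))
(L (nat_lit 25802083)))))
(S (nat_lit 40785) (S (nat_lit 15340) (S (nat_lit 25071) (L (nat_lit 18881422))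
(S (nat_lit 39592) (S (nat_lit 1277) (S (nat_lit 19778) (S (nat_lit 50463) (S (nat_lit 48338) (S (nat_lit 21540) (S (nat_lit 41534) (S (nat_lit 20800) (S (nat_lit 40500) (S (nat_lit 10949) (S (nat_lit 24830) (S (nat_lit 19826) (S (nat_lit 37285) (S (nat_lit 21507) (S (nat_lit 20685) (S (nat_lit 10542) (S (nat_lit 32122) (S (nat_lit 37130) (S (nat_lit 40171) (D (nat_lit 13) (nat_lit 25762244) (nat_lit 18988408) (nat_lit 73282912483))
(L (nat_lit 9263586)))
(L (nat_lit 19132463)))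
(L (nat_lit 27867146)))
(L (nat_lit 27740388)))
(S (nat_lit 51643) (S (nat_lit 18897) (S (nat_lit 12093) (S (nat_lit 48875) (D (nat_lit 11) (nat_lit 31172748) (nat_lit 25479621) (nat_lit 106473556194))
(L (nat_lit 28901929)))
(L (nat_lit 30756226)))
(L (nat_lit 30755203)))
(L (nat_lit 29576676))))
(L (nat_lit 5502482)))
(L (nat_lit 23083817)))
(L (nat_lit 31137284)))
(L (nat_lit 29480236)))
(L (nat_lit 23278685)))
(L (nat_lit 3779436)))
(L (nat_lit 12113728)))
(L (nat_lit 16979672)))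
(L (nat_lit 11210509)))
(L (nat_lit 12322415)))
(L (nat_lit 5488347)))
(L (nat_lit 21904458)))
(L (nat_lit 19457031)))
(L (nat_lit 27448712))))
(S (nat_lit 35104) (S (nat_lit 75) (S (nat_lit 19828) (S (nat_lit 8812) (S (nat_lit 1034) (L (nat_lit 29407477))
(L (nat_lit 3028713)))
(L (nat_lit 1566962)))
(L (nat_lit 3733097)))
(L (nat_lit 26782834)))
(S (nat_lit 54868) (S (nat_lit 19806) (S (nat_lit 57099) (L (nat_lit 21467515))
(L (nat_lit 19357799)))
(L (nat_lit 21249824)))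
(L (nat_lit 25288072)))))
(L (nat_lit 25628979)))))
(S (nat_lit 28537) (S (nat_lit 10949) (S (nat_lit 1726) (S (nat_lit 1019) (S (nat_lit 57038) (S (nat_lit 37285) (S (nat_lit 1229) (L (nat_lit 20422744))
(L (nat_lit 13212512)))
(L (nat_lit 14396600)))
(L (nat_lit 10502778)))
(S (nat_lit 30796) (L (nat_lit 11350628))
(L (nat_lit 12592765))))
(S (nat_lit 21490) (S (nat_lit 57038) (L (nat_lit 6170100))
(L (nat_lit 19120932)))
(S (nat_lit 41254) (S (nat_lit 1279) (S (nat_lit 54837) (S (nat_lit 64) (S (nat_lit 1019) (L (nat_lit 21206491))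
(L (nat_lit 10514871)))
(L (nat_lit 13542452)))
(L (nat_lit 13653862)))
(L (nat_lit 19807556)))
(L (nat_lit 25543797)))))
(S (nat_lit 30713) (S (nat_lit 1743) (S (nat_lit 1198) (L (nat_lit 20134693))
(S (nat_lit 1765) (S (nat_lit 1262) (S (nat_lit 28526) (S (nat_lit 57038) (S (nat_lit 1047) (S (nat_lit 62) (S (nat_lit 1014) (S (nat_lit 57071) (S (nat_lit 1257) (S (nat_lit 31) (S (nat_lit 75) (S (nat_lit 45941) (S (nat_lit 30761) (S (nat_lit 1732) (S (nat_lit 30763) (S (nat_lit 1246) (S (nat_lit 54912) (S (nat_lit 45991) (S (nat_lit 13994) (S (nat_lit 38662) (S (nat_lit 37933) (S (nat_lit 39997) (S (nat_lit 20588) (S (nat_lit 14708) (S (nat_lit 48419) (D (nat_lit 9) (nat_lit 7164078) (nat_lit 25761132) (nat_lit 206393576610))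
(L (nat_lit 15538851)))
(L (nat_lit 27728548)))
(L (nat_lit 25049284)))
(L (nat_lit 30128324)))
(L (nat_lit 27965666)))
(L (nat_lit 27965634)))
(S (nat_lit 20088) (S (nat_lit 37690) (S (nat_lit 40967) (S (nat_lit 49636) (S (nat_lit 7494) (D (nat_lit 9) (nat_lit 8210819) (nat_lit 25759021) (nat_lit 103247124705))
(L (nat_lit 30116392)))
(L (nat_lit 15534791)))
(L (nat_lit 30126276)))
(L (nat_lit 27963748)))
(L (nat_lit 4076103))))
(L (nat_lit 697788)))
(L (nat_lit 12129851)))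
(L (nat_lit 20783556)))
(L (nat_lit 17162258)))
(L (nat_lit 12830906)))
(L (nat_lit 3972499)))
(L (nat_lit 12782170)))
(L (nat_lit 8280141)))
(L (nat_lit 12903540)))
(L (nat_lit 12740914)))
(L (nat_lit 12669803)))
(L (nat_lit 13243640)))
(L (nat_lit 26935818)))
(L (nat_lit 26740082)))
(L (nat_lit 12808805)))
(L (nat_lit 24126009)))
(L (nat_lit 12809824)))
(L (nat_lit 10355310))))
(S (nat_lit 21507) (S (nat_lit 50396) (L (nat_lit 9455411))
(S (nat_lit 57038) (S (nat_lit 1019) (S (nat_lit 2006) (S (nat_lit 1034) (S (nat_lit 14) (S (nat_lit 75) (S (nat_lit 40818) (S (nat_lit 28526) (S (nat_lit 57024) (S (nat_lit 57099) (S (nat_lit 30774) (S (nat_lit 21529) (S (nat_lit 40807) (S (nat_lit 30746) (S (nat_lit 7871) (S (nat_lit 14999) (S (nat_lit 2131) (S (nat_lit 37469) (S (nat_lit 31799) (D (nat_lit 15) (nat_lit 14438443) (nat_lit 25348488) (nat_lit 103084463365))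
(L (nat_lit 22554497)))
(L (nat_lit 27996298)))
(S (nat_lit 50801) (S (nat_lit 50862) (S (nat_lit 13996) (S (nat_lit 27280) (S (nat_lit 58912) (D (nat_lit 15) (nat_lit 18213505) (nat_lit 18014791) (nat_lit 1113626886))
(L (nat_lit 24033537)))
(L (nat_lit 27966534)))
(L (nat_lit 27930019)))
(L (nat_lit 21836067)))
(L (nat_lit 6472597))))
(L (nat_lit 29726194)))
(L (nat_lit 14961506)))
(L (nat_lit 2641115)))
(L (nat_lit 24372641)))
(L (nat_lit 31135087)))
(L (nat_lit 9921622)))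
(L (nat_lit 13453568)))
(L (nat_lit 12607399)))
(L (nat_lit 24332037)))
(L (nat_lit 2828173)))
(L (nat_lit 20452664)))
(L (nat_lit 13641559)))
(L (nat_lit 26790177)))
(L (nat_lit 26789958)))
(L (nat_lit 13639260)))
(L (nat_lit 18900238))))
(S (nat_lit 41271) (S (nat_lit 1290) (S (nat_lit 28526) (L (nat_lit 12610771))
(L (nat_lit 24135435)))
(S (nat_lit 14574) (S (nat_lit 64) (S (nat_lit 57038) (S (nat_lit 28526) (S (nat_lit 14) (S (nat_lit 14546) (S (nat_lit 1019) (S (nat_lit 28512) (S (nat_lit 30741) (S (nat_lit 62) (S (nat_lit 28543) (S (nat_lit 8407) (S (nat_lit 25) (S (nat_lit 41293) (S (nat_lit 54868) (S (nat_lit 35540) (S (nat_lit 40190) (S (nat_lit 49603) (S (nat_lit 53524) (S (nat_lit 20152) (D (nat_lit 15) (nat_lit 16870024) (nat_lit 11723186) (nat_lit 1110477987))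
(L (nat_lit 24683328)))
(L (nat_lit 22887680)))
(L (nat_lit 21900675)))
(L (nat_lit 29806949)))
(S (nat_lit 54457) (S (nat_lit 2100) (S (nat_lit 31783) (S (nat_lit 48371) (S (nat_lit 55770) (D (nat_lit 13) (nat_lit 5003753) (nat_lit 19369737) (nat_lit 209650353282))
(L (nat_lit 29923445)))
(L (nat_lit 14906083)))
(L (nat_lit 22573253)))
(L (nat_lit 28033253)))
(L (nat_lit 22910991))))
(L (nat_lit 11326540)))
(L (nat_lit 1332665)))
(L (nat_lit 20181166)))
(L (nat_lit 15772434)))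
(L (nat_lit 8803234)))
(L (nat_lit 20853931)))
(L (nat_lit 30935655)))
(L (nat_lit 9466510)))
(L (nat_lit 8412977)))
(L (nat_lit 9491248)))
(L (nat_lit 13214564)))
(L (nat_lit 24127247)))
(L (nat_lit 27279978)))
(L (nat_lit 7212655)))
(L (nat_lit 19809322))))
(L (nat_lit 25657555)))))
(S (nat_lit 50477) (S (nat_lit 8812) (S (nat_lit 37651) (L (nat_lit 19359910))
(S (nat_lit 57038) (S (nat_lit 35098) (S (nat_lit 1776) (L (nat_lit 20885672))
(L (nat_lit 19809604)))
(L (nat_lit 3925417)))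
(L (nat_lit 14732600))))
(S (nat_lit 28576) (S (nat_lit 57071) (S (nat_lit 18842) (L (nat_lit 12284450))
(S (nat_lit 57038) (S (nat_lit 30763) (S (nat_lit 1019) (S (nat_lit 1715) (S (nat_lit 1229) (S (nat_lit 1277) (L (nat_lit 3891470))
(L (nat_lit 13508631)))
(L (nat_lit 13232169)))
(L (nat_lit 13232355)))
(L (nat_lit 13660775)))
(L (nat_lit 30749746)))
(L (nat_lit 27305580))))
(L (nat_lit 27570194)))
(S (nat_lit 48340) (S (nat_lit 57038) (S (nat_lit 1019) (S (nat_lit 35098) (S (nat_lit 57099) (S (nat_lit 1765) (S (nat_lit 1279) (S (nat_lit 1246) (L (nat_lit 3882826))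
(L (nat_lit 18915835)))
(L (nat_lit 26286484)))
(L (nat_lit 26476948)))
(L (nat_lit 21312288)))
(L (nat_lit 8416694)))
(L (nat_lit 13660775)))
(L (nat_lit 21215012)))
(L (nat_lit 25595528)))))
(L (nat_lit 25365011)))))
(S (nat_lit 48301) (S (nat_lit 8823) (S (nat_lit 10935) (S (nat_lit 21041) (S (nat_lit 1279) (L (nat_lit 30085511))
(L (nat_lit 9125665)))
(S (nat_lit 38114) (L (nat_lit 26952032))
(L (nat_lit 15404839))))
(S (nat_lit 30699) (S (nat_lit 1765) (S (nat_lit 1279) (S (nat_lit 1003) (S (nat_lit 39542) (L (nat_lit 28545526))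
(L (nat_lit 18025114)))
(L (nat_lit 2307770)))
(L (nat_lit 19807489)))
(S (nat_lit 9883) (L (nat_lit 8581556))
(L (nat_lit 13914202))))
(S (nat_lit 50463) (S (nat_lit 21529) (S (nat_lit 21043) (L (nat_lit 12112986))
(L (nat_lit 12083809)))
(S (nat_lit 36949) (S (nat_lit 22550) (L (nat_lit 15642272))
(L (nat_lit 14600482)))
(L (nat_lit 5792359))))
(L (nat_lit 25745414)))))
(S (nat_lit 28587) (S (nat_lit 15351) (S (nat_lit 14907) (L (nat_lit 7901881))
(S (nat_lit 39590) (S (nat_lit 48340) (S (nat_lit 39575) (S (nat_lit 30763) (S (nat_lit 39542) (S (nat_lit 1975) (S (nat_lit 8795) (S (nat_lit 50510) (S (nat_lit 8762) (S (nat_lit 48307) (S (nat_lit 21722) (S (nat_lit 35098) (S (nat_lit 41472) (S (nat_lit 19789) (S (nat_lit 15309) (S (nat_lit 21755) (S (nat_lit 50525) (S (nat_lit 19795) (S (nat_lit 11010) (S (nat_lit 17527) (S (nat_lit 37307) (S (nat_lit 40531) (S (nat_lit 37274) (S (nat_lit 40564) (S (nat_lit 17560) (S (nat_lit 57066) (S (nat_lit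 1019) (S (nat_lit 57099) (S (nat_lit 43590) (S (nat_lit 50364) (S (nat_lit 4518) (S (nat_lit 55649) (S (nat_lit 36937) (S (nat_lit 1748) (S (nat_lit 31296) (S (nat_lit 54202) (S (nat_lit 6998) (D (nat_lit 15) (nat_lit 29003052) (nat_lit 12323409) (nat_lit 106409593090))
(L (nat_lit 30116298)))
(L (nat_lit 22344133)))
(L (nat_lit 22573349)))
(S (nat_lit 23597) (S (nat_lit 53749) (S (nat_lit 21021) (D (nat_lit 13) (nat_lit 28974469) (nat_lit 11291109) (nat_lit 73182249190))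
(L (nat_lit 31111459)))
(L (nat_lit 22954241)))
(L (nat_lit 19729832))))
(L (nat_lit 22482823)))
(L (nat_lit 22506631)))
(L (nat_lit 29067815)))
(L (nat_lit 16085633)))
(S (nat_lit 53037) (S (nat_lit 52079) (S (nat_lit 22173) (S (nat_lit 12741) (S (nat_lit 25950) (S (nat_lit 47268) (S (nat_lit 12051) (S (nat_lit 54799) (S (nat_lit 32638) (D (nat_lit 13) (nat_lit 9528941) (nat_lit 11290801) (nat_lit 8972423828576))
(L (nat_lit 3984810)))
(L (nat_lit 26849603)))
(S (nat_lit 53764) (S (nat_lit 29429) (S (nat_lit 19565) (D (nat_lit 15) (nat_lit 27997536) (nat_lit 25759144) (nat_lit 210521760003))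
(L (nat_lit 29042764)))
(L (nat_lit 21261793)))
(L (nat_lit 24352527))))
(L (nat_lit 11682740)))
(L (nat_lit 8579761)))
(L (nat_lit 24506481)))
(L (nat_lit 15462503)))
(L (nat_lit 28595713)))
(S (nat_lit 56146) (S (nat_lit 3143) (S (nat_lit 51593) (S (nat_lit 51560) (S (nat_lit 47754) (S (nat_lit 25464) (S (nat_lit 28253) (S (nat_lit 54799) (S (nat_lit 32638) (D (nat_lit 13) (nat_lit 9528941) (nat_lit 11291173) (nat_lit 8972423828576))
(L (nat_lit 3984810)))
(L (nat_lit 26849603)))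
(S (nat_lit 39348) (S (nat_lit 19598) (S (nat_lit 29429) (D (nat_lit 15) (nat_lit 30083498) (nat_lit 19664141) (nat_lit 73221086432))
(L (nat_lit 27741411)))
(L (nat_lit 27867362)))
(L (nat_lit 12850005))))
(L (nat_lit 24275313)))
(L (nat_lit 24308076)))
(L (nat_lit 3916615)))
(L (nat_lit 3860999)))
(L (nat_lit 30656069)))
(L (nat_lit 22406531)))))
(L (nat_lit 27863553)))
(L (nat_lit 19743041)))
(L (nat_lit 27902305)))
(L (nat_lit 7264269)))
(L (nat_lit 23599973)))
(L (nat_lit 30661124)))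
(L (nat_lit 23557317)))
(L (nat_lit 31144132)))
(S (nat_lit 30357) (S (nat_lit 40188) (S (nat_lit 28654) (L (nat_lit 4502235))
(L (nat_lit 26851683)))
(L (nat_lit 26851521)))
(L (nat_lit 6742102))))
(L (nat_lit 8032697)))
(L (nat_lit 8474382)))
(L (nat_lit 27613358)))
(L (nat_lit 22251961)))
(L (nat_lit 24361729)))
(L (nat_lit 3037550)))
(L (nat_lit 963147)))
(L (nat_lit 9321651)))
(L (nat_lit 11425248)))
(L (nat_lit 10566233)))
(L (nat_lit 26681924)))
(L (nat_lit 20457528)))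
(L (nat_lit 26981386)))
(L (nat_lit 13879354)))
(L (nat_lit 11549368)))
(L (nat_lit 30811191)))
(L (nat_lit 18656869)))
(L (nat_lit 11120665)))
(L (nat_lit 23212376))))
(S (nat_lit 35115) (S (nat_lit 1975) (S (nat_lit 75) (S (nat_lit 30763) (S (nat_lit 30730) (S (nat_lit 48340) (S (nat_lit 54899) (S (nat_lit 42) (S (nat_lit 28512) (S (nat_lit 48307) (S (nat_lit 35148) (S (nat_lit 35073) (S (nat_lit 1765) (S (nat_lit 50463) (L (nat_lit 1260340))
(L (nat_lit 27933921)))
(S (nat_lit 9073) (L (nat_lit 28321420))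
(L (nat_lit 19405914))))
(L (nat_lit 31111361)))
(L (nat_lit 18015943)))
(L (nat_lit 28016940)))
(L (nat_lit 24648512)))
(L (nat_lit 20817069)))
(L (nat_lit 27624077)))
(L (nat_lit 27445484)))
(L (nat_lit 3456605)))
(L (nat_lit 9025346)))
(L (nat_lit 26580653)))
(L (nat_lit 19358020)))
(S (nat_lit 54879) (S (nat_lit 1765) (S (nat_lit 1262) (S (nat_lit 37274) (L (nat_lit 12815122))
(L (nat_lit 23312133)))
(L (nat_lit 26271143)))
(S (nat_lit 15049) (L (nat_lit 9484052))
(L (nat_lit 18988807))))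
(L (nat_lit 25430670)))))
(S (nat_lit 48351) (S (nat_lit 14) (S (nat_lit 24099) (S (nat_lit 39603) (L (nat_lit 5988720))
(L (nat_lit 24647463)))
(S (nat_lit 37302) (S (nat_lit 1279) (S (nat_lit 1765) (S (nat_lit 1290) (L (nat_lit 12594813))
(L (nat_lit 19171832)))
(L (nat_lit 19807370)))
(L (nat_lit 19807556)))
(L (nat_lit 20886849))))
(S (nat_lit 19778) (S (nat_lit 1279) (L (nat_lit 10513008))
(L (nat_lit 11451572)))
(S (nat_lit 39542) (S (nat_lit 32814) (L (nat_lit 12611893))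
(S (nat_lit 50477) (S (nat_lit 57055) (S (nat_lit 1279) (S (nat_lit 1765) (L (nat_lit 13653309))
(L (nat_lit 13309738)))
(L (nat_lit 13315876)))
(L (nat_lit 27809058)))
(L (nat_lit 12783354))))
(L (nat_lit 25791792)))))
(L (nat_lit 25546113)))))
(L (nat_lit 25210359)))))
(S (nat_lit 48318) (S (nat_lit 1036) (S (nat_lit 15371) (S (nat_lit 31) (S (nat_lit 1991) (S (nat_lit 1019) (S (nat_lit 1969) (S (nat_lit 5086) (L (nat_lit 967988))
(L (nat_lit 11628020)))
(S (nat_lit 4318) (L (nat_lit 1631814))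
(L (nat_lit 14453012))))
(L (nat_lit 19940137)))
(S (nat_lit 4340) (L (nat_lit 20154781))
(L (nat_lit 14483830))))
(S (nat_lit 19795) (S (nat_lit 8795) (S (nat_lit 1229) (S (nat_lit 1715) (S (nat_lit 39570) (L (nat_lit 20506635))
(L (nat_lit 17618087)))
(L (nat_lit 13725352)))
(S (nat_lit 21648) (L (nat_lit 14453323))
(L (nat_lit 13758121))))
(S (nat_lit 28559) (S (nat_lit 11010) (S (nat_lit 41503) (S (nat_lit 40531) (L (nat_lit 14994212))
(L (nat_lit 4074127)))
(L (nat_lit 9311887)))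
(S (nat_lit 38582) (L (nat_lit 19066225))
(L (nat_lit 8269908))))
(S (nat_lit 48323) (S (nat_lit 28526) (S (nat_lit 54868) (L (nat_lit 5811800))
(L (nat_lit 12093049)))
(L (nat_lit 8938052)))
(L (nat_lit 25564403)))))
(S (nat_lit 39559) (S (nat_lit 1279) (S (nat_lit 21733) (S (nat_lit 57038) (L (nat_lit 6082982))
(L (nat_lit 11439540)))
(L (nat_lit 4596532)))
(S (nat_lit 36989) (L (nat_lit 5456788))
(L (nat_lit 5806900))))
(L (nat_lit 25664596)))))
(S (nat_lit 35135) (S (nat_lit 15373) (S (nat_lit 1776) (S (nat_lit 64) (S (nat_lit 57049) (S (nat_lit 1991) (L (nat_lit 6215024))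
(L (nat_lit 14524994)))
(L (nat_lit 19837251)))
(L (nat_lit 14360602)))
(S (nat_lit 21540) (S (nat_lit 50505) (S (nat_lit 50494) (L (nat_lit 26782373))
(L (nat_lit 6183337)))
(L (nat_lit 11420257)))
(S (nat_lit 41304) (S (nat_lit 40743) (L (nat_lit 23590057))
(L (nat_lit 7752891)))
(L (nat_lit 25921003)))))
(S (nat_lit 35137) (S (nat_lit 1246) (S (nat_lit 30699) (L (nat_lit 6199860))
(L (nat_lit 9060161)))
(S (nat_lit 5701) (L (nat_lit 4808910))
(L (nat_lit 13782395))))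
(S (nat_lit 54901) (S (nat_lit 1290) (S (nat_lit 1019) (S (nat_lit 64) (S (nat_lit 47) (S (nat_lit 30746) (L (nat_lit 18574533))
(L (nat_lit 9187379)))
(L (nat_lit 19361802)))
(L (nat_lit 19840227)))
(L (nat_lit 19343107)))
(S (nat_lit 5745) (L (nat_lit 4595290))
(L (nat_lit 13641400))))
(L (nat_lit 25765378)))))
(S (nat_lit 54899) (S (nat_lit 1776) (S (nat_lit 1290) (S (nat_lit 75) (S (nat_lit 42) (S (nat_lit 1215) (S (nat_lit 1701) (S (nat_lit 986) (S (nat_lit 1958) (S (nat_lit 30763) (S (nat_lit 1991) (S (nat_lit 1743) (S (nat_lit 30730) (S (nat_lit 1748) (S (nat_lit 1262) (S (nat_lit 48276) (S (nat_lit 54862) (S (nat_lit 37335) (S (nat_lit 64) (S (nat_lit 47) (S (nat_lit 21945) (S (nat_lit 43815) (S (nat_lit 43782) (S (nat_lit 48323) (S (nat_lit 48307) (S (nat_lit 48340) (S (nat_lit 5340) (S (nat_lit 2542) (S (nat_lit 20356) (S (nat_lit 35525) (S (nat_lit 40190) (S (nat_lit 51823) (D (nat_lit 9) (nat_lit 7097392) (nat_lit 19063209)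 (nat_lit 68988077187))
(L (nat_lit 10312752)))
(L (nat_lit 29413833)))
(L (nat_lit 27995584)))
(L (nat_lit 24002913)))
(L (nat_lit 27932960)))
(S (nat_lit 29953) (S (nat_lit 3011) (S (nat_lit 3740) (S (nat_lit 57379) (S (nat_lit 21367) (S (nat_lit 39975) (D (nat_lit 11) (nat_lit 13423876) (nat_lit 25768291) (nat_lit 282394296416))
(L (nat_lit 30062663)))
(L (nat_lit 24649602)))
(L (nat_lit 22945284)))
(L (nat_lit 27743460)))
(L (nat_lit 27743428)))
(L (nat_lit 9581394))))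
(L (nat_lit 27614658)))
(L (nat_lit 27860354)))
(L (nat_lit 28027332)))
(L (nat_lit 18522269)))
(L (nat_lit 18158269)))
(L (nat_lit 29692592)))
(L (nat_lit 13445700)))
(L (nat_lit 26562947)))
(L (nat_lit 8545719)))
(L (nat_lit 28027362)))
(L (nat_lit 15782107)))
(L (nat_lit 13442658)))
(L (nat_lit 13441635)))
(L (nat_lit 30705229)))
(L (nat_lit 20782596)))
(L (nat_lit 20775280)))
(L (nat_lit 30772877)))
(L (nat_lit 20752866)))
(L (nat_lit 20753891)))
(L (nat_lit 19998508)))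
(L (nat_lit 20030252)))
(L (nat_lit 26498189)))
(L (nat_lit 20492097)))
(L (nat_lit 20450120)))
(S (nat_lit 21540) (S (nat_lit 48276) (S (nat_lit 2006) (S (nat_lit 1034) (S (nat_lit 21507) (S (nat_lit 42) (S (nat_lit 54868) (S (nat_lit 37302) (S (nat_lit 1003) (S (nat_lit 2019) (S (nat_lit 54901) (S (nat_lit 5712) (S (nat_lit 40818) (S (nat_lit 5695) (S (nat_lit 4092) (S (nat_lit 21512) (S (nat_lit 25) (S (nat_lit 4075) (S (nat_lit 3044) (S (nat_lit 57412) (S (nat_lit 56764) (D (nat_lit 15) (nat_lit 13391881) (nat_lit 25761194) (nat_lit 206166827176))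
(L (nat_lit 30023108)))
(L (nat_lit 16600233)))
(S (nat_lit 35266) (S (nat_lit 40930) (S (nat_lit 31752) (S (nat_lit 51092) (S (nat_lit 28738) (S (nat_lit 20345) (D (nat_lit 13) (nat_lit 9530060) (nat_lit 8505106) (nat_lit 6874330074116))
(L (nat_lit 24000800)))
(L (nat_lit 27903048)))
(L (nat_lit 16589412)))
(L (nat_lit 20856066)))
(L (nat_lit 30000386)))
(L (nat_lit 22420509))))
(L (nat_lit 29991025)))
(L (nat_lit 13413090)))
(L (nat_lit 22976929)))
(L (nat_lit 29602498)))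
(L (nat_lit 28654305)))
(L (nat_lit 10215469)))
(L (nat_lit 4418963)))
(L (nat_lit 16108569)))
(L (nat_lit 26941891)))
(L (nat_lit 20132027)))
(L (nat_lit 10183040)))
(L (nat_lit 5824296)))
(L (nat_lit 26530989)))
(L (nat_lit 699245)))
(L (nat_lit 20505891)))
(L (nat_lit 20505672)))
(L (nat_lit 12255771)))
(S (nat_lit 41304) (S (nat_lit 21021) (S (nat_lit 986) (S (nat_lit 1958) (S (nat_lit 48276) (S (nat_lit 30730) (S (nat_lit 20979) (S (nat_lit 64) (S (nat_lit 6231) (S (nat_lit 37260) (S (nat_lit 37302) (S (nat_lit 48307) (S (nat_lit 6220) (S (nat_lit 6187) (S (nat_lit 31) (S (nat_lit 14) (S (nat_lit 20993) (S (nat_lit 37285) (S (nat_lit 54912) (S (nat_lit 3639) (S (nat_lit 41243) (S (nat_lit 3595) (S (nat_lit 25071) (S (nat_lit 35540) (S (nat_lit 56762) (D (nat_lit 15) (nat_lit 13403787) (nat_lit 3760554) (nat_lit 103084463365))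
(L (nat_lit 30032128)))
(L (nat_lit 27932992)))
(S (nat_lit 39933) (S (nat_lit 35746) (S (nat_lit 38338) (D (nat_lit 15) (nat_lit 14502025) (nat_lit 25758988) (nat_lit 103084463365))
(L (nat_lit 28821733)))
(L (nat_lit 27546019)))
(L (nat_lit 4650226))))
(L (nat_lit 30062945)))
(L (nat_lit 8535863)))
(L (nat_lit 9518777)))
(L (nat_lit 11081518)))
(L (nat_lit 19983725)))
(L (nat_lit 12466818)))
(L (nat_lit 20147685)))
(L (nat_lit 13244507)))
(L (nat_lit 6143316)))
(L (nat_lit 5974800)))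
(L (nat_lit 11319875)))
(L (nat_lit 20199200)))
(L (nat_lit 14555808)))
(L (nat_lit 13923347)))
(L (nat_lit 19441411)))
(L (nat_lit 16360261)))
(L (nat_lit 30672461)))
(L (nat_lit 14588545)))
(L (nat_lit 19250333)))
(L (nat_lit 19217597)))
(L (nat_lit 21011245)))
(L (nat_lit 25282187)))))
(L (nat_lit 25821675)))))
(S (nat_lit 20800) (S (nat_lit 10982) (S (nat_lit 25) (S (nat_lit 37335) (S (nat_lit 57038) (S (nat_lit 1763) (L (nat_lit 13831899))
(L (nat_lit 26939912)))
(L (nat_lit 5825844)))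
(S (nat_lit 54194) (L (nat_lit 14258493))
(L (nat_lit 14520934))))
(S (nat_lit 19789) (S (nat_lit 1279) (S (nat_lit 37335) (S (nat_lit 21465) (L (nat_lit 5680794))
(L (nat_lit 30813266)))
(L (nat_lit 14225722)))
(S (nat_lit 7515) (L (nat_lit 20316970))
(L (nat_lit 5827924))))
(S (nat_lit 39553) (S (nat_lit 19826) (S (nat_lit 50463) (S (nat_lit 8810) (S (nat_lit 57038) (S (nat_lit 28543) (S (nat_lit 15340) (S (nat_lit 1034) (S (nat_lit 1019) (S (nat_lit 39592) (S (nat_lit 986) (S (nat_lit 21708) (S (nat_lit 50505) (S (nat_lit 41534) (S (nat_lit 19811) (S (nat_lit 1975) (S (nat_lit 37335) (S (nat_lit 35148) (S (nat_lit 48276) (S (nat_lit 20761) (S (nat_lit 1969) (S (nat_lit 30730) (S (nat_lit 75) (S (nat_lit 35115) (S (nat_lit 15334) (S (nat_lit 41486) (S (nat_lit 39559) (S (nat_lit 1290) (S (nat_lit 1257) (S (nat_lit 8680) (S (nat_lit 40807) (S (nat_lit 34326) (S (nat_lit 21414) (S (nat_lit 36401) (S (nat_lit 10149) (S (nat_lit 50931) (D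 (nat_lit 13) (nat_lit 28904685) (nat_lit 19369739) (nat_lit 1346641200195))
(L (nat_lit 19276643)))
(L (nat_lit 30756259)))
(L (nat_lit 28944770)))
(L (nat_lit 19838274)))
(S (nat_lit 35409) (S (nat_lit 35457) (S (nat_lit 52096) (S (nat_lit 19338) (D (nat_lit 11) (nat_lit 30017030) (nat_lit 2699022) (nat_lit 103113918696))
(L (nat_lit 27862404)))
(L (nat_lit 25077933)))
(L (nat_lit 28824900)))
(L (nat_lit 13787445))))
(L (nat_lit 7361454)))
(L (nat_lit 30841906)))
(L (nat_lit 13488355)))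
(S (nat_lit 37384) (S (nat_lit 31634) (S (nat_lit 17642) (S (nat_lit 17603) (S (nat_lit 21790) (S (nat_lit 28395) (S (nat_lit 28410) (S (nat_lit 52630) (S (nat_lit 1732) (S (nat_lit 14721) (S (nat_lit 18382) (D (nat_lit 13) (nat_lit 27860450) (nat_lit 10032536) (nat_lit 2412901435426))
(L (nat_lit 27865282)))
(L (nat_lit 27865280)))
(S (nat_lit 37629) (S (nat_lit 47174) (S (nat_lit 12822) (D (nat_lit 15) (nat_lit 27281742) (nat_lit 2411276) (nat_lit 109630720066))
(L (nat_lit 30791042)))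
(L (nat_lit 29078882)))
(L (nat_lit 18886479))))
(L (nat_lit 29548072)))
(L (nat_lit 20188972)))
(L (nat_lit 20276333)))
(L (nat_lit 24554685)))
(L (nat_lit 29014372)))
(L (nat_lit 28452588)))
(L (nat_lit 3071431)))
(S (nat_lit 56620) (S (nat_lit 39317) (S (nat_lit 17379) (S (nat_lit 58882) (S (nat_lit 39431) (S (nat_lit 53050) (S (nat_lit 21414) (S (nat_lit 26564) (D (nat_lit 15) (nat_lit 25887022) (nat_lit 254545) (nat_lit 2105506))
(L (nat_lit 13487363)))
(L (nat_lit 19838274)))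
(S (nat_lit 58606) (S (nat_lit 56452) (S (nat_lit 12599) (S (nat_lit 1229) (D (nat_lit 11) (nat_lit 13390114) (nat_lit 19672579) (nat_lit 2285936744))
(L (nat_lit 19295424)))
(L (nat_lit 31012037)))
(L (nat_lit 28914912)))
(L (nat_lit 24133913))))
(L (nat_lit 13379141)))
(L (nat_lit 28705011)))
(L (nat_lit 28705449)))
(L (nat_lit 28759266)))
(L (nat_lit 5797235)))))
(L (nat_lit 12464212)))
(L (nat_lit 27376296)))
(L (nat_lit 14938691)))
(L (nat_lit 20319079)))
(L (nat_lit 13544530)))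
(L (nat_lit 13949048)))
(L (nat_lit 12710602)))
(L (nat_lit 12468341)))
(L (nat_lit 12086324)))
(L (nat_lit 20746791)))
(L (nat_lit 20756768)))
(L (nat_lit 12399669)))
(L (nat_lit 16028566)))
(L (nat_lit 17540864)))
(L (nat_lit 12454292)))
(L (nat_lit 10603932)))
(L (nat_lit 5028521)))
(L (nat_lit 12284290)))
(L (nat_lit 14523542)))
(L (nat_lit 14592055)))
(L (nat_lit 26941826)))
(L (nat_lit 10016888)))
(L (nat_lit 27462068)))
(L (nat_lit 21487973)))
(L (nat_lit 27842785)))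
(S (nat_lit 50834) (L (nat_lit 27810987))
(L (nat_lit 30933707))))
(L (nat_lit 25793871)))))
(S (nat_lit 30746) (S (nat_lit 75) (S (nat_lit 57038) (S (nat_lit 57071) (S (nat_lit 1969) (S (nat_lit 48276) (S (nat_lit 1975) (S (nat_lit 30730) (S (nat_lit 30761) (S (nat_lit 54899) (S (nat_lit 30763) (S (nat_lit 28576) (S (nat_lit 28543) (S (nat_lit 15351) (S (nat_lit 39553) (L (nat_lit 8536665))
(L (nat_lit 25077902)))
(L (nat_lit 22913166)))
(L (nat_lit 25084162)))
(S (nat_lit 55709) (S (nat_lit 20395) (L (nat_lit 10599003))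
(L (nat_lit 26982593)))
(L (nat_lit 8883026))))
(L (nat_lit 8577522)))
(L (nat_lit 27710789)))
(L (nat_lit 9853733)))
(L (nat_lit 30939250)))
(L (nat_lit 14534980)))
(L (nat_lit 16701632)))
(L (nat_lit 14457572)))
(L (nat_lit 27793067)))
(S (nat_lit 58334) (L (nat_lit 22589217))
(L (nat_lit 12095096))))
(S (nat_lit 19839) (S (nat_lit 37285) (L (nat_lit 10064717))
(L (nat_lit 10203288)))
(S (nat_lit 39603) (S (nat_lit 1246) (S (nat_lit 50494) (S (nat_lit 1944) (L (nat_lit 14934162))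
(L (nat_lit 14233381)))
(L (nat_lit 11076493)))
(S (nat_lit 55469) (L (nat_lit 10602292))
(L (nat_lit 10981050))))
(L (nat_lit 25510560)))))
(S (nat_lit 50510) (S (nat_lit 17521) (S (nat_lit 9642) (L (nat_lit 4780682))
(S (nat_lit 30774) (S (nat_lit 19826) (L (nat_lit 1583891))
(L (nat_lit 15518021)))
(L (nat_lit 14461505))))
(S (nat_lit 37285) (S (nat_lit 55442) (L (nat_lit 9322515))
(S (nat_lit 57071) (S (nat_lit 10855) (S (nat_lit 39575) (S (nat_lit 28606) (L (nat_lit 550167))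
(L (nat_lit 26434947)))
(L (nat_lit 27580837)))
(S (nat_lit 48323) (S (nat_lit 50505) (S (nat_lit 39590) (S (nat_lit 54879) (L (nat_lit 4975014))
(L (nat_lit 11068993)))
(L (nat_lit 5066282)))
(L (nat_lit 28026240)))
(L (nat_lit 20032986))))
(L (nat_lit 11219812))))
(S (nat_lit 57049) (S (nat_lit 19323) (L (nat_lit 13655357))
(S (nat_lit 39590) (S (nat_lit 2019) (S (nat_lit 50477) (S (nat_lit 15351) (S (nat_lit 1279) (L (nat_lit 28876917))
(L (nat_lit 20474116)))
(L (nat_lit 22605121)))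
(L (nat_lit 27843876)))
(S (nat_lit 27253) (L (nat_lit 2380189))
(L (nat_lit 14385995))))
(L (nat_lit 11350167))))
(L (nat_lit 25734294)))))
(L (nat_lit 25611492)))))
(S (nat_lit 40564) (S (nat_lit 1262) (S (nat_lit 37335) (S (nat_lit 1034) (S (nat_lit 1765) (S (nat_lit 1019) (S (nat_lit 1975) (S (nat_lit 75) (S (nat_lit 1726) (S (nat_lit 1277) (S (nat_lit 35104) (S (nat_lit 28574) (S (nat_lit 21054) (S (nat_lit 21770) (S (nat_lit 986) (S (nat_lit 38649) (S (nat_lit 40531) (S (nat_lit 48906) (S (nat_lit 19795) (S (nat_lit 41304) (S (nat_lit 15351) (S (nat_lit 8812) (S (nat_lit 8773) (S (nat_lit 15309) (S (nat_lit 37012) (S (nat_lit 36187) (S (nat_lit 23277) (S (nat_lit 30782) (S (nat_lit 56483) (D (nat_lit 13) (nat_lit 18147968) (nat_lit 25765347) (nat_lit 3437121241189))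
(L (nat_lit 30127299)))
(L (nat_lit 12472805)))
(L (nat_lit 23652709)))
(L (nat_lit 21489952)))
(S (nat_lit 52601) (S (nat_lit 45810) (S (nat_lit 41597) (S (nat_lit 52358) (S (nat_lit 27684) (S (nat_lit 3739) (D (nat_lit 13) (nat_lit 26850409) (nat_lit 19117829) (nat_lit 2357465255))
(L (nat_lit 27743303)))
(L (nat_lit 22556485)))
(L (nat_lit 30123520)))
(L (nat_lit 15619429)))
(L (nat_lit 30062949)))
(L (nat_lit 15499882))))
(L (nat_lit 705287)))
(L (nat_lit 226929)))
(L (nat_lit 926417)))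
(L (nat_lit 7923893)))
(L (nat_lit 24174924)))
(L (nat_lit 14785301)))
(L (nat_lit 28624942)))
(L (nat_lit 18748038)))
(L (nat_lit 16492666)))
(L (nat_lit 18951644)))
(L (nat_lit 11384512)))
(L (nat_lit 12280876)))
(L (nat_lit 30836330)))
(L (nat_lit 30672492)))
(L (nat_lit 19436797)))
(L (nat_lit 12901498)))
(L (nat_lit 19460167)))
(L (nat_lit 18933226)))
(L (nat_lit 19375875)))
(L (nat_lit 19439397)))
(L (nat_lit 20157360)))
(L (nat_lit 17131104)))
(S (nat_lit 21026) (S (nat_lit 21755) (S (nat_lit 37335) (S (nat_lit 41293) (S (nat_lit 35104) (S (nat_lit 1034) (S (nat_lit 21465) (S (nat_lit 21770) (S (nat_lit 8773) (S (nat_lit 20736) (S (nat_lit 41472) (S (nat_lit 30730) (S (nat_lit 1975) (S (nat_lit 41514) (S (nat_lit 19828) (S (nat_lit 21540) (S (nat_lit 28526) (S (nat_lit 18170) (S (nat_lit 57505) (S (nat_lit 2800) (S (nat_lit 35300) (S (nat_lit 12357) (S (nat_lit 26027) (D (nat_lit 11) (nat_lit 18630663) (nat_lit 1853809) (nat_lit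 144955413568))
(L (nat_lit 27385286)))
(L (nat_lit 29957603)))
(L (nat_lit 27870435)))
(S (nat_lit 34814) (S (nat_lit 50325) (S (nat_lit 55691) (S (nat_lit 17460) (S (nat_lit 43315) (D (nat_lit 13) (nat_lit 31138309) (nat_lit 25765039) (nat_lit 3544559193350))
(L (nat_lit 15551744)))
(L (nat_lit 30096491)))
(L (nat_lit 9329121)))
(L (nat_lit 21489985)))
(L (nat_lit 27830452))))
(L (nat_lit 26816804)))
(L (nat_lit 19071389)))
(L (nat_lit 19095941)))
(L (nat_lit 22136060)))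
(L (nat_lit 31145155)))
(L (nat_lit 18763973)))
(L (nat_lit 13242218)))
(L (nat_lit 13927186)))
(L (nat_lit 6747749)))
(L (nat_lit 5663338)))
(L (nat_lit 6338171)))
(L (nat_lit 31135238)))
(L (nat_lit 5565037)))
(L (nat_lit 19436425)))
(L (nat_lit 10023522)))
(L (nat_lit 1340015)))
(L (nat_lit 30782049)))
(L (nat_lit 15960697)))
(S (nat_lit 40790) (S (nat_lit 15334) (S (nat_lit 21529) (S (nat_lit 972) (L (nat_lit 5558712))
(L (nat_lit 19702180)))
(L (nat_lit 21796263)))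
(S (nat_lit 35098) (S (nat_lit 50477) (S (nat_lit 1257) (S (nat_lit 11010) (S (nat_lit 57049) (S (nat_lit 39542) (S (nat_lit 28559) (S (nat_lit 35104) (S (nat_lit 30567) (S (nat_lit 1975) (S (nat_lit 1743) (S (nat_lit 48276) (S (nat_lit 39575) (S (nat_lit 54899) (S (nat_lit 40525) (S (nat_lit 38183) (S (nat_lit 10850) (S (nat_lit 5330) (S (nat_lit 3527) (S (nat_lit 15790) (S (nat_lit 35703) (S (nat_lit 51772) (D (nat_lit 13) (nat_lit 31079649) (nat_lit 599825) (nat_lit 242705569859))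
(L (nat_lit 21491786)))
(L (nat_lit 21473093)))
(L (nat_lit 30031141)))
(L (nat_lit 27936032)))
(S (nat_lit 12810) (S (nat_lit 51518) (S (nat_lit 14078) (D (nat_lit 15) (nat_lit 31176746) (nat_lit 19063053) (nat_lit 76344791168))
(L (nat_lit 31079749)))
(L (nat_lit 28982592)))
(L (nat_lit 13330441))))
(L (nat_lit 27460173)))
(L (nat_lit 29559220)))
(L (nat_lit 27417903)))
(L (nat_lit 27867460)))
(L (nat_lit 4480410)))
(L (nat_lit 20454241)))
(L (nat_lit 20113613)))
(L (nat_lit 13684583)))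
(L (nat_lit 14412101)))
(L (nat_lit 3893641)))
(L (nat_lit 30977043)))
(L (nat_lit 27284752)))
(L (nat_lit 28021072)))
(L (nat_lit 16651847)))
(L (nat_lit 20134819)))
(L (nat_lit 27992485)))
(S (nat_lit 54862) (S (nat_lit 1701) (S (nat_lit 1944) (S (nat_lit 10977) (L (nat_lit 927341))
(L (nat_lit 15836792)))
(L (nat_lit 14469475)))
(S (nat_lit 35230) (L (nat_lit 27405936))
(L (nat_lit 14469410))))
(L (nat_lit 25869666)))))
(L (nat_lit 25221393)))))
(L (nat_lit 25919910)))))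
(L (nat_lit 25484705)))))
(L (nat_lit 25932068)))))
(L (nat_lit 25276077)))

theorem rb246_0_5 : run 4 lb246 [] tb246_0_5 kb246 [0, 2008, 30724] [15356, 35120] = true := by
  decide +kernel

noncomputable def tb183_1 : Tr :=
(S (nat_lit 10036) (S (nat_lit 2226) (S (nat_lit 6077) (S (nat_lit 3456) (S (nat_lit 32027) (S (nat_lit 22862) (L (nat_lit 19705991))
(L (nat_lit 17425665)))
(S (nat_lit 51629) (S (nat_lit 19657) (L (nat_lit 968391))
(L (nat_lit 19087137)))
(L (nat_lit 26354414))))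
(S (nat_lit 23220) (S (nat_lit 13129) (S (nat_lit 8277) (S (nat_lit 1241) (S (nat_lit 8757) (S (nat_lit 8762) (L (nat_lit 4648147))
(L (nat_lit 26461765)))
(L (nat_lit 26429486)))
(L (nat_lit 20717056)))
(L (nat_lit 26575533)))
(S (nat_lit 32893) (S (nat_lit 8757) (S (nat_lit 56113) (L (nat_lit 243354))
(L (nat_lit 15737433)))
(S (nat_lit 20878) (L (nat_lit 4447768))
(L (nat_lit 17507104))))
(S (nat_lit 52657) (S (nat_lit 56599) (S (nat_lit 43468) (S (nat_lit 15331) (L (nat_lit 29369878))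
(L (nat_lit 1307187)))
(L (nat_lit 1302353)))
(L (nat_lit 1333073)))
(L (nat_lit 25867587)))))
(S (nat_lit 42984) (S (nat_lit 17514) (S (nat_lit 1727) (S (nat_lit 32922) (S (nat_lit 10941) (L (nat_lit 24618915))
(L (nat_lit 16535904)))
(L (nat_lit 16523937)))
(S (nat_lit 41174) (L (nat_lit 971022))
(L (nat_lit 26854502))))
(S (nat_lit 37278) (S (nat_lit 43468) (S (nat_lit 34658) (S (nat_lit 22018) (S (nat_lit 15353) (S (nat_lit 26344) (S (nat_lit 24216) (S (nat_lit 18552) (L (nat_lit 4825529))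
(L (nat_lit 6438775)))
(L (nat_lit 17606802)))
(L (nat_lit 14929731)))
(L (nat_lit 26944932)))
(L (nat_lit 3985676)))
(L (nat_lit 20756582)))
(L (nat_lit 23903271)))
(S (nat_lit 57042) (S (nat_lit 1382) (L (nat_lit 26481139))
(S (nat_lit 30777) (S (nat_lit 16585) (S (nat_lit 54372) (L (nat_lit 29938758))
(L (nat_lit 9103844)))
(L (nat_lit 15294753)))
(L (nat_lit 2732903))))
(L (nat_lit 25662119)))))
(L (nat_lit 25182546)))))
(S (nat_lit 25841) (S (nat_lit 15312) (S (nat_lit 3940) (S (nat_lit 17071) (S (nat_lit 6580) (L (nat_lit 6949713))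
(L (nat_lit 1308050)))
(S (nat_lit 53828) (S (nat_lit 39584) (S (nat_lit 26355) (L (nat_lit 5625306))
(L (nat_lit 19367687)))
(L (nat_lit 17157989)))
(L (nat_lit 26425984))))
(S (nat_lit 23704) (S (nat_lit 10941) (S (nat_lit 53936) (S (nat_lit 28521) (L (nat_lit 30954784))
(L (nat_lit 24142343)))
(L (nat_lit 19662375)))
(L (nat_lit 26235334)))
(S (nat_lit 43468) (S (nat_lit 46108) (S (nat_lit 54372) (S (nat_lit 34122) (L (nat_lit 7047984))
(L (nat_lit 7209676)))
(L (nat_lit 6744245)))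
(L (nat_lit 17001155)))
(L (nat_lit 25508916)))))
(S (nat_lit 35076) (S (nat_lit 49) (S (nat_lit 23704) (S (nat_lit 52196) (L (nat_lit 29863027))
(L (nat_lit 7213491)))
(S (nat_lit 39440) (L (nat_lit 7227532))
(L (nat_lit 7920485))))
(S (nat_lit 19813) (S (nat_lit 10522) (S (nat_lit 41255) (S (nat_lit 18715) (S (nat_lit 32893) (L (nat_lit 29580773))
(L (nat_lit 10355222)))
(L (nat_lit 10667642)))
(L (nat_lit 1361687)))
(S (nat_lit 23352) (L (nat_lit 11294210))
(L (nat_lit 17408800))))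
(S (nat_lit 39577) (S (nat_lit 28521) (S (nat_lit 56113) (L (nat_lit 29952454))
(L (nat_lit 13884505)))
(L (nat_lit 19343233)))
(L (nat_lit 25243278)))))
(S (nat_lit 54840) (S (nat_lit 17574) (S (nat_lit 2254) (S (nat_lit 54372) (S (nat_lit 11011) (L (nat_lit 21132593))
(L (nat_lit 18524283)))
(L (nat_lit 16863579)))
(L (nat_lit 7259778)))
(S (nat_lit 37338) (S (nat_lit 30705) (S (nat_lit 16585) (S (nat_lit 56599) (L (nat_lit 6982476))
(L (nat_lit 14314752)))
(L (nat_lit 26814540)))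
(L (nat_lit 24330016)))
(S (nat_lit 57102) (S (nat_lit 30741) (S (nat_lit 25879) (S (nat_lit 30777) (L (nat_lit 11031640))
(L (nat_lit 24604000)))
(L (nat_lit 17490144)))
(S (nat_lit 36653) (L (nat_lit 30608787))
(L (nat_lit 18964870))))
(L (nat_lit 25579873)))))
(L (nat_lit 25927040)))))
(S (nat_lit 45605) (S (nat_lit 8277) (S (nat_lit 4427) (S (nat_lit 10977) (L (nat_lit 1365900))
(S (nat_lit 43139) (L (nat_lit 26841611))
(L (nat_lit 7432662))))
(S (nat_lit 24191) (S (nat_lit 11011) (S (nat_lit 8798) (L (nat_lit 26295671))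
(L (nat_lit 26627364)))
(L (nat_lit 26594381)))
(S (nat_lit 43955) (S (nat_lit 32922) (S (nat_lit 52678) (S (nat_lit 50541) (L (nat_lit 17401702))
(L (nat_lit 12333728)))
(L (nat_lit 27558326)))
(S (nat_lit 56284) (L (nat_lit 26522771))
(L (nat_lit 23333708))))
(L (nat_lit 25832836)))))
(S (nat_lit 28041) (S (nat_lit 10941) (S (nat_lit 36349) (S (nat_lit 54902) (L (nat_lit 1942966))
(L (nat_lit 19329252)))
(S (nat_lit 46776) (L (nat_lit 6713984))
(L (nat_lit 6381356))))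
(S (nat_lit 30705) (S (nat_lit 21491) (S (nat_lit 32893) (S (nat_lit 3456) (S (nat_lit 8339) (L (nat_lit 28805833))
(L (nat_lit 24003905)))
(L (nat_lit 17703091)))
(L (nat_lit 14878579)))
(L (nat_lit 312182)))
(S (nat_lit 50469) (S (nat_lit 12160) (S (nat_lit 22018) (S (nat_lit 41255) (L (nat_lit 7014971))
(L (nat_lit 27854033)))
(L (nat_lit 9225859)))
(S (nat_lit 43852) (L (nat_lit 19827144))
(L (nat_lit 26319501))))
(L (nat_lit 25887055)))))
(S (nat_lit 47805) (S (nat_lit 4431) (S (nat_lit 34172) (S (nat_lit 11011) (S (nat_lit 1281) (S (nat_lit 56583) (L (nat_lit 15406955))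
(L (nat_lit 19107355)))
(L (nat_lit 11047795)))
(L (nat_lit 21114395)))
(L (nat_lit 23378971)))
(S (nat_lit 24195) (S (nat_lit 37308) (S (nat_lit 18557) (L (nat_lit 17142428))
(L (nat_lit 27346567)))
(L (nat_lit 17097847)))
(S (nat_lit 43959) (S (nat_lit 13129) (S (nat_lit 56599) (S (nat_lit 17558) (L (nat_lit 2016935))
(L (nat_lit 26590386)))
(L (nat_lit 1668586)))
(S (nat_lit 19681) (L (nat_lit 7230542))
(L (nat_lit 6304411))))
(L (nat_lit 25559718)))))
(L (nat_lit 25610283)))))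
(L (nat_lit 25544257)))))
(S (nat_lit 21990) (S (nat_lit 1241) (S (nat_lit 11011) (S (nat_lit 8277) (S (nat_lit 21045) (S (nat_lit 36333) (S (nat_lit 17514) (L (nat_lit 6386285))
(L (nat_lit 7092897)))
(L (nat_lit 7078421)))
(L (nat_lit 11556314)))
(S (nat_lit 28041) (S (nat_lit 2207) (S (nat_lit 41782) (S (nat_lit 17514) (L (nat_lit 21393601))
(L (nat_lit 22821088)))
(L (nat_lit 24490108)))
(S (nat_lit 6938) (L (nat_lit 19804514))
(L (nat_lit 15298603))))
(S (nat_lit 47805) (S (nat_lit 10941) (S (nat_lit 26360) (L (nat_lit 5166351))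
(L (nat_lit 19668144)))
(S (nat_lit 46736) (S (nat_lit 46493) (L (nat_lit 418131))
(L (nat_lit 8143456)))
(L (nat_lit 23872679))))
(L (nat_lit 25615403)))))
(S (nat_lit 30775) (S (nat_lit 10941) (S (nat_lit 18715) (S (nat_lit 5591) (S (nat_lit 6077) (L (nat_lit 28982374))
(L (nat_lit 19711331)))
(L (nat_lit 20712935)))
(L (nat_lit 26559635)))
(S (nat_lit 30705) (S (nat_lit 45119) (S (nat_lit 43959) (S (nat_lit 47381) (S (nat_lit 31924) (L (nat_lit 28485264))
(L (nat_lit 17706103)))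
(L (nat_lit 10307136)))
(L (nat_lit 24986880)))
(L (nat_lit 25019648)))
(S (nat_lit 50469) (S (nat_lit 57102) (S (nat_lit 30741) (L (nat_lit 22453120))
(L (nat_lit 19330368)))
(L (nat_lit 19673408)))
(L (nat_lit 25417903)))))
(S (nat_lit 50539) (S (nat_lit 6596) (S (nat_lit 25879) (S (nat_lit 8762) (L (nat_lit 859671))
(L (nat_lit 15490340)))
(L (nat_lit 17584448)))
(S (nat_lit 26360) (S (nat_lit 4399) (S (nat_lit 41782) (S (nat_lit 29760) (L (nat_lit 15504967))
(L (nat_lit 4813104)))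
(L (nat_lit 16091836)))
(L (nat_lit 7958701)))
(S (nat_lit 46124) (S (nat_lit 41782) (S (nat_lit 1281) (L (nat_lit 10567443))
(L (nat_lit 11032421)))
(L (nat_lit 11686300)))
(L (nat_lit 25645227)))))
(L (nat_lit 25866498)))))
(S (nat_lit 21005) (S (nat_lit 6580) (S (nat_lit 15353) (S (nat_lit 10522) (S (nat_lit 34122) (S (nat_lit 47867) (L (nat_lit 3842929))
(L (nat_lit 17585377)))
(L (nat_lit 1328917)))
(L (nat_lit 26662245)))
(S (nat_lit 35117) (S (nat_lit 15262) (L (nat_lit 6381325))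
(S (nat_lit 56097) (S (nat_lit 57072) (L (nat_lit 17568455))
(L (nat_lit 13210907)))
(L (nat_lit 18916891))))
(S (nat_lit 54881) (S (nat_lit 41782) (S (nat_lit 52697) (L (nat_lit 5490551))
(L (nat_lit 21282842)))
(L (nat_lit 16524962)))
(L (nat_lit 25561426)))))
(S (nat_lit 26344) (S (nat_lit 18913) (S (nat_lit 43959) (L (nat_lit 30490902))
(L (nat_lit 12404352)))
(S (nat_lit 34658) (S (nat_lit 15164) (L (nat_lit 15850312))
(S (nat_lit 43959) (S (nat_lit 5629) (S (nat_lit 56599) (S (nat_lit 37278) (L (nat_lit 18665511))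
(L (nat_lit 30623793)))
(L (nat_lit 15952950)))
(L (nat_lit 10940036)))
(L (nat_lit 14871826))))
(L (nat_lit 30461446))))
(S (nat_lit 46108) (S (nat_lit 45605) (S (nat_lit 41782) (S (nat_lit 17558) (S (nat_lit 14844) (S (nat_lit 30741) (L (nat_lit 26298023))
(L (nat_lit 24551610)))
(L (nat_lit 22333284)))
(L (nat_lit 1722283)))
(L (nat_lit 12404387)))
(L (nat_lit 1951094)))
(L (nat_lit 25367959)))))
(S (nat_lit 40769) (S (nat_lit 14894) (S (nat_lit 6591) (S (nat_lit 6625) (S (nat_lit 43) (S (nat_lit 24216) (L (nat_lit 4975047))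
(L (nat_lit 14455527)))
(L (nat_lit 19139099)))
(L (nat_lit 26780727)))
(S (nat_lit 26355) (S (nat_lit 25879) (S (nat_lit 10522) (S (nat_lit 4431) (L (nat_lit 3985831))
(L (nat_lit 7257729)))
(L (nat_lit 21182208)))
(S (nat_lit 45107) (L (nat_lit 14832391))
(L (nat_lit 22823136))))
(S (nat_lit 46119) (S (nat_lit 23875) (L (nat_lit 13362215))
(S (nat_lit 57042) (S (nat_lit 23218) (L (nat_lit 14977720))
(L (nat_lit 13533926)))
(L (nat_lit 12053217))))
(L (nat_lit 25287143)))))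
(S (nat_lit 34658) (S (nat_lit 17558) (S (nat_lit 13180) (S (nat_lit 43959) (L (nat_lit 1532178))
(L (nat_lit 4932891)))
(L (nat_lit 26811502)))
(S (nat_lit 37322) (S (nat_lit 19813) (S (nat_lit 14844) (S (nat_lit 17722) (L (nat_lit 4827024))
(S (nat_lit 52686) (S (nat_lit 39556) (S (nat_lit 24216) (S (nat_lit 43955) (S (nat_lit 15509) (L (nat_lit 18093789))
(L (nat_lit 10564402)))
(L (nat_lit 24418060)))
(L (nat_lit 9230721)))
(L (nat_lit 17899380)))
(L (nat_lit 21439515))))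
(L (nat_lit 22824164)))
(S (nat_lit 54510) (L (nat_lit 30515793))
(L (nat_lit 9520917))))
(S (nat_lit 57086) (S (nat_lit 43959) (S (nat_lit 6625) (S (nat_lit 43965) (L (nat_lit 401080))
(L (nat_lit 11294240)))
(L (nat_lit 8030650)))
(L (nat_lit 28018183)))
(L (nat_lit 25515148)))))
(S (nat_lit 54422) (S (nat_lit 6589) (S (nat_lit 32410) (S (nat_lit 40809) (L (nat_lit 26287602))
(L (nat_lit 7918747)))
(L (nat_lit 7897938)))
(S (nat_lit 26353) (S (nat_lit 57042) (S (nat_lit 28571) (S (nat_lit 46124) (S (nat_lit 28521) (L (nat_lit 2417175))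
(L (nat_lit 18550599)))
(L (nat_lit 18580235)))
(L (nat_lit 19300635)))
(L (nat_lit 18932263)))
(S (nat_lit 46117) (S (nat_lit 46119) (S (nat_lit 46124) (S (nat_lit 56599) (L (nat_lit 14329605))
(L (nat_lit 27867328)))
(L (nat_lit 5550776)))
(L (nat_lit 18415931)))
(L (nat_lit 25762831)))))
(L (nat_lit 25271888)))))
(L (nat_lit 25566944)))))
(S (nat_lit 41754) (S (nat_lit 8339) (S (nat_lit 13129) (S (nat_lit 2207) (S (nat_lit 10941) (S (nat_lit 2195) (S (nat_lit 1727) (S (nat_lit 4399) (S (nat_lit 27617) (L (nat_lit 28854464))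
(L (nat_lit 12084371)))
(L (nat_lit 7370445)))
(L (nat_lit 20759590)))
(L (nat_lit 550231)))
(L (nat_lit 26431936)))
(S (nat_lit 21971) (S (nat_lit 56599) (S (nat_lit 49524) (S (nat_lit 4399) (S (nat_lit 19235) (S (nat_lit 41723) (L (nat_lit 7493149))
(L (nat_lit 13692279)))
(L (nat_lit 2531090)))
(L (nat_lit 7991469)))
(L (nat_lit 13856355)))
(L (nat_lit 13855859)))
(S (nat_lit 41735) (S (nat_lit 14894) (S (nat_lit 6596) (S (nat_lit 27617) (L (nat_lit 3945811))
(L (nat_lit 15508531)))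
(L (nat_lit 7418803)))
(L (nat_lit 26258000)))
(L (nat_lit 25210327)))))
(S (nat_lit 32893) (S (nat_lit 9583) (L (nat_lit 30430573))
(S (nat_lit 22018) (S (nat_lit 36420) (L (nat_lit 14225628))
(S (nat_lit 56599) (S (nat_lit 31077) (S (nat_lit 45643) (S (nat_lit 27617) (L (nat_lit 1957133))
(L (nat_lit 15521120)))
(L (nat_lit 24572224)))
(S (nat_lit 46108) (S (nat_lit 26266) (L (nat_lit 24144079))
(L (nat_lit 6706947)))
(L (nat_lit 11585180))))
(L (nat_lit 21767589))))
(L (nat_lit 18666786))))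
(S (nat_lit 52657) (S (nat_lit 2207) (S (nat_lit 56599) (S (nat_lit 27617) (S (nat_lit 3942) (S (nat_lit 4399) (L (nat_lit 26446291))
(L (nat_lit 18903373)))
(L (nat_lit 17000004)))
(L (nat_lit 4773641)))
(L (nat_lit 13694538)))
(S (nat_lit 21971) (S (nat_lit 56599) (S (nat_lit 4399) (S (nat_lit 38479) (S (nat_lit 37308) (S (nat_lit 3942) (S (nat_lit 50537) (S (nat_lit 35087) (L (nat_lit 1330715))
(L (nat_lit 12809924)))
(L (nat_lit 4992563)))
(L (nat_lit 12030771)))
(L (nat_lit 30724512)))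
(L (nat_lit 5133835)))
(L (nat_lit 6910338)))
(L (nat_lit 13857907)))
(S (nat_lit 41735) (S (nat_lit 3942) (S (nat_lit 56599) (S (nat_lit 50537) (S (nat_lit 25879) (L (nat_lit 30026176))
(L (nat_lit 21929376)))
(L (nat_lit 27667475)))
(L (nat_lit 8449617)))
(L (nat_lit 14739019)))
(L (nat_lit 25712836)))))
(L (nat_lit 25178696)))))
(S (nat_lit 28103) (S (nat_lit 8757) (S (nat_lit 43) (S (nat_lit 27617) (S (nat_lit 4399) (S (nat_lit 1241) (S (nat_lit 32432) (S (nat_lit 43959) (S (nat_lit 4437) (S (nat_lit 23220) (L (nat_lit 6775891))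
(L (nat_lit 7130286)))
(L (nat_lit 6449745)))
(L (nat_lit 28034119)))
(L (nat_lit 19401051)))
(L (nat_lit 20759840)))
(L (nat_lit 242613)))
(L (nat_lit 6914833)))
(S (nat_lit 19807) (S (nat_lit 17514) (S (nat_lit 6077) (S (nat_lit 42984) (L (nat_lit 20221497))
(L (nat_lit 24350173)))
(L (nat_lit 26846753)))
(L (nat_lit 18518822)))
(S (nat_lit 39571) (S (nat_lit 54881) (S (nat_lit 22018) (S (nat_lit 4437) (L (nat_lit 20030011))
(L (nat_lit 18752530)))
(L (nat_lit 21406813)))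
(L (nat_lit 11045650)))
(L (nat_lit 25667266)))))
(S (nat_lit 28521) (S (nat_lit 10977) (S (nat_lit 50010) (S (nat_lit 46153) (S (nat_lit 28528) (S (nat_lit 27617) (S (nat_lit 4437) (L (nat_lit 4793135))
(L (nat_lit 8311328)))
(L (nat_lit 7128115)))
(L (nat_lit 24650531)))
(L (nat_lit 27796099)))
(L (nat_lit 27272630)))
(S (nat_lit 30741) (S (nat_lit 50010) (S (nat_lit 24216) (S (nat_lit 22018) (S (nat_lit 8807) (S (nat_lit 26389) (S (nat_lit 3942) (L (nat_lit 9583355))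
(L (nat_lit 16828793)))
(L (nat_lit 3712850)))
(L (nat_lit 714122)))
(L (nat_lit 18654882)))
(L (nat_lit 21357953)))
(L (nat_lit 8948502)))
(S (nat_lit 50505) (S (nat_lit 40769) (S (nat_lit 28528) (S (nat_lit 3942) (S (nat_lit 27617) (L (nat_lit 15507476))
(L (nat_lit 12174080)))
(L (nat_lit 26256976)))
(L (nat_lit 8916664)))
(L (nat_lit 24518464)))
(L (nat_lit 25282951)))))
(S (nat_lit 48285) (S (nat_lit 8807) (S (nat_lit 15353) (S (nat_lit 4399) (S (nat_lit 4437) (L (nat_lit 26329429))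
(L (nat_lit 26682386)))
(L (nat_lit 6918618)))
(S (nat_lit 28963) (L (nat_lit 24536257))
(L (nat_lit 17042077))))
(S (nat_lit 28571) (S (nat_lit 41295) (S (nat_lit 49524) (L (nat_lit 17866365))
(L (nat_lit 15945819)))
(L (nat_lit 17949939)))
(S (nat_lit 48335) (S (nat_lit 50541) (S (nat_lit 46153) (S (nat_lit 10522) (L (nat_lit 28910977))
(L (nat_lit 11982592)))
(L (nat_lit 11274959)))
(L (nat_lit 27612609)))
(L (nat_lit 25870442)))))
(L (nat_lit 25397968)))))
(S (nat_lit 47867) (S (nat_lit 3942) (S (nat_lit 52657) (S (nat_lit 43959) (S (nat_lit 57094) (S (nat_lit 56599) (S (nat_lit 8762) (S (nat_lit 40809) (S (nat_lit 52678) (L (nat_lit 4930780))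
(L (nat_lit 27756201)))
(L (nat_lit 9528787)))
(L (nat_lit 17573605)))
(L (nat_lit 8504083)))
(L (nat_lit 11953331)))
(L (nat_lit 12401779)))
(S (nat_lit 53953) (L (nat_lit 1615450))
(L (nat_lit 11928339))))
(S (nat_lit 23706) (S (nat_lit 1727) (S (nat_lit 4399) (S (nat_lit 24216) (S (nat_lit 34658) (S (nat_lit 14408) (S (nat_lit 12160) (S (nat_lit 56599) (S (nat_lit 46117) (S (nat_lit 47319) (S (nat_lit 42982) (L (nat_lit 2341597))
(L (nat_lit 15926100)))
(L (nat_lit 20201285)))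
(L (nat_lit 22851811)))
(L (nat_lit 19740869)))
(L (nat_lit 15995610)))
(L (nat_lit 11422736)))
(L (nat_lit 14882459)))
(L (nat_lit 14474375)))
(L (nat_lit 651656)))
(S (nat_lit 21491) (S (nat_lit 38352) (L (nat_lit 11088705))
(S (nat_lit 40769) (S (nat_lit 6077) (L (nat_lit 6047030))
(L (nat_lit 15879974)))
(L (nat_lit 7963162))))
(S (nat_lit 41255) (S (nat_lit 4437) (S (nat_lit 30741) (L (nat_lit 869718))
(L (nat_lit 17075898)))
(L (nat_lit 20384550)))
(L (nat_lit 25756945)))))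
(S (nat_lit 43470) (S (nat_lit 14358) (S (nat_lit 13757) (L (nat_lit 15501618))
(S (nat_lit 15323) (S (nat_lit 30741) (S (nat_lit 8762) (S (nat_lit 56599) (S (nat_lit 10482) (L (nat_lit 28620448))
(L (nat_lit 26977392)))
(L (nat_lit 13855859)))
(L (nat_lit 7090756)))
(L (nat_lit 24913280)))
(L (nat_lit 1600106))))
(S (nat_lit 34122) (S (nat_lit 56599) (S (nat_lit 1767) (L (nat_lit 5971884))
(L (nat_lit 4472691)))
(L (nat_lit 27305395)))
(S (nat_lit 53886) (S (nat_lit 52686) (S (nat_lit 30705) (S (nat_lit 4437) (L (nat_lit 28576211))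
(L (nat_lit 16688704)))
(L (nat_lit 24158001)))
(L (nat_lit 27893805)))
(L (nat_lit 25272012)))))
(L (nat_lit 25380944)))))
(L (nat_lit 25711939)))))
(L (nat_lit 25253414)))))
(S (nat_lit 29800) (S (nat_lit 4399) (S (nat_lit 5629) (S (nat_lit 3942) (S (nat_lit 1727) (S (nat_lit 3454) (S (nat_lit 38434) (L (nat_lit 13555850))
(S (nat_lit 58763) (S (nat_lit 56599) (S (nat_lit 24201) (S (nat_lit 54902) (S (nat_lit 6596) (L (nat_lit 6785724))
(L (nat_lit 1533299)))
(L (nat_lit 12141624)))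
(L (nat_lit 10278433)))
(L (nat_lit 27474496)))
(L (nat_lit 27899233))))
(S (nat_lit 16738) (S (nat_lit 49929) (L (nat_lit 16321417))
(L (nat_lit 26979440)))
(L (nat_lit 19073937))))
(S (nat_lit 21491) (S (nat_lit 10482) (S (nat_lit 45119) (S (nat_lit 48285) (L (nat_lit 15617348))
(L (nat_lit 11553307)))
(L (nat_lit 620071)))
(S (nat_lit 37405) (S (nat_lit 47024) (L (nat_lit 19031344))
(L (nat_lit 19260465)))
(L (nat_lit 26813488))))
(S (nat_lit 41255) (S (nat_lit 28) (S (nat_lit 3456) (S (nat_lit 8757) (L (nat_lit 17883347))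
(L (nat_lit 7134254)))
(L (nat_lit 20243568)))
(S (nat_lit 19792) (S (nat_lit 8757) (L (nat_lit 24906185))
(L (nat_lit 17033857)))
(S (nat_lit 39556) (S (nat_lit 56599) (S (nat_lit 24201) (L (nat_lit 19015100))
(L (nat_lit 16918354)))
(L (nat_lit 1856999)))
(L (nat_lit 25480206)))))
(L (nat_lit 25805862)))))
(S (nat_lit 23706) (S (nat_lit 14844) (S (nat_lit 1767) (S (nat_lit 42982) (S (nat_lit 26389) (S (nat_lit 54859) (S (nat_lit 30773) (S (nat_lit 57072) (L (nat_lit 28579223))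
(L (nat_lit 19705345)))
(L (nat_lit 14461973)))
(L (nat_lit 4406905)))
(L (nat_lit 19021048)))
(L (nat_lit 24316748)))
(S (nat_lit 54249) (L (nat_lit 12870372))
(L (nat_lit 11589452))))
(S (nat_lit 34608) (S (nat_lit 9561) (L (nat_lit 12079973))
(S (nat_lit 58763) (S (nat_lit 56599) (S (nat_lit 53936) (L (nat_lit 28805330))
(L (nat_lit 7425872)))
(L (nat_lit 1502483)))
(L (nat_lit 6308600))))
(S (nat_lit 54372) (S (nat_lit 12160) (S (nat_lit 30246) (S (nat_lit 28562) (S (nat_lit 7853) (L (nat_lit 27307477))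
(L (nat_lit 26463682)))
(L (nat_lit 18092633)))
(L (nat_lit 7947044)))
(S (nat_lit 36246) (L (nat_lit 19663181))
(L (nat_lit 6036176))))
(L (nat_lit 25252299)))))
(S (nat_lit 43470) (S (nat_lit 12160) (S (nat_lit 10606) (S (nat_lit 11011) (L (nat_lit 19662193))
(L (nat_lit 6444912)))
(S (nat_lit 13129) (S (nat_lit 8764) (S (nat_lit 10522) (S (nat_lit 50010) (S (nat_lit 11011) (S (nat_lit 32933) (L (nat_lit 4441943))
(L (nat_lit 9563889)))
(L (nat_lit 21113371)))
(L (nat_lit 16327803)))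
(L (nat_lit 16829754)))
(L (nat_lit 7030658)))
(L (nat_lit 210523))))
(S (nat_lit 57238) (S (nat_lit 58453) (L (nat_lit 18950989))
(L (nat_lit 23892240)))
(L (nat_lit 6074000))))
(L (nat_lit 25276014)))))
(S (nat_lit 25393) (S (nat_lit 2207) (S (nat_lit 6625) (S (nat_lit 2195) (S (nat_lit 26033) (L (nat_lit 10638777))
(S (nat_lit 56599) (S (nat_lit 56583) (S (nat_lit 54422) (S (nat_lit 41295) (S (nat_lit 15331) (L (nat_lit 4419217))
(L (nat_lit 17607795)))
(L (nat_lit 17584450)))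
(L (nat_lit 19671089)))
(L (nat_lit 19105712)))
(L (nat_lit 18918841))))
(S (nat_lit 2762) (L (nat_lit 6052173))
(L (nat_lit 1304271))))
(S (nat_lit 26389) (S (nat_lit 52697) (S (nat_lit 2195) (S (nat_lit 27617) (S (nat_lit 41295) (S (nat_lit 57072) (L (nat_lit 31046666))
(L (nat_lit 18951055)))
(L (nat_lit 1584018)))
(L (nat_lit 6939793)))
(L (nat_lit 1271503)))
(L (nat_lit 19711019)))
(S (nat_lit 46153) (S (nat_lit 10536) (S (nat_lit 23218) (L (nat_lit 6383182))
(L (nat_lit 21128614)))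
(S (nat_lit 30246) (S (nat_lit 2195) (S (nat_lit 6580) (S (nat_lit 32432) (S (nat_lit 56583) (L (nat_lit 16797912))
(L (nat_lit 6928292)))
(L (nat_lit 19407899)))
(L (nat_lit 1885399)))
(L (nat_lit 8178829)))
(L (nat_lit 8146990))))
(L (nat_lit 25305807)))))
(S (nat_lit 21971) (S (nat_lit 16569) (S (nat_lit 13129) (S (nat_lit 56599) (S (nat_lit 50050) (L (nat_lit 27887884))
(L (nat_lit 22069098)))
(L (nat_lit 13694163)))
(L (nat_lit 26260822)))
(S (nat_lit 36333) (S (nat_lit 15312) (S (nat_lit 10941) (S (nat_lit 47867) (S (nat_lit 41295) (L (nat_lit 2308916))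
(L (nat_lit 16839339)))
(L (nat_lit 27313493)))
(L (nat_lit 6317743)))
(S (nat_lit 16473) (L (nat_lit 1493372))
(L (nat_lit 1269305))))
(S (nat_lit 56097) (S (nat_lit 28103) (S (nat_lit 56599) (S (nat_lit 12160) (S (nat_lit 57042) (L (nat_lit 1273301))
(L (nat_lit 14895131)))
(L (nat_lit 21802157)))
(L (nat_lit 19085369)))
(L (nat_lit 18924454)))
(L (nat_lit 25902341)))))
(S (nat_lit 41735) (S (nat_lit 7791) (S (nat_lit 14844) (S (nat_lit 4452) (L (nat_lit 1846807))
(L (nat_lit 16683751)))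
(S (nat_lit 58613) (L (nat_lit 19426533))
(L (nat_lit 24939756))))
(S (nat_lit 27555) (S (nat_lit 17055) (S (nat_lit 14894) (S (nat_lit 58763) (S (nat_lit 39571) (S (nat_lit 2226) (S (nat_lit 28) (S (nat_lit 9996) (S (nat_lit 56599) (S (nat_lit 24201) (L (nat_lit 4469337))
(L (nat_lit 17540156)))
(L (nat_lit 19099040)))
(L (nat_lit 26807784)))
(L (nat_lit 26713698)))
(L (nat_lit 20817006)))
(L (nat_lit 4878888)))
(L (nat_lit 19710241)))
(L (nat_lit 12085825)))
(L (nat_lit 12432471)))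
(S (nat_lit 47319) (S (nat_lit 11548) (L (nat_lit 20081869))
(S (nat_lit 41295) (S (nat_lit 9830) (L (nat_lit 2699053))
(S (nat_lit 31924) (S (nat_lit 39584) (L (nat_lit 5101933))
(L (nat_lit 17506148)))
(L (nat_lit 24973645))))
(L (nat_lit 1333037))))
(L (nat_lit 25278710)))))
(L (nat_lit 25759951)))))
(S (nat_lit 45157) (S (nat_lit 2195) (S (nat_lit 13169) (S (nat_lit 2207) (S (nat_lit 21531) (S (nat_lit 30775) (S (nat_lit 53936) (S (nat_lit 24201) (L (nat_lit 2611576))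
(L (nat_lit 22848561)))
(L (nat_lit 18951953)))
(L (nat_lit 24947203)))
(L (nat_lit 769963)))
(L (nat_lit 1667595)))
(S (nat_lit 32933) (S (nat_lit 10482) (S (nat_lit 2207) (S (nat_lit 58763) (S (nat_lit 30775) (S (nat_lit 46117) (S (nat_lit 21531) (L (nat_lit 29889746))
(L (nat_lit 8181186)))
(L (nat_lit 12289465)))
(L (nat_lit 10153072)))
(L (nat_lit 13231174)))
(L (nat_lit 7091255)))
(S (nat_lit 39467) (L (nat_lit 15471242))
(L (nat_lit 26808747))))
(S (nat_lit 52697) (S (nat_lit 2207) (S (nat_lit 21045) (S (nat_lit 28571) (S (nat_lit 12160) (L (nat_lit 1481652))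
(L (nat_lit 21769389)))
(L (nat_lit 24616869)))
(S (nat_lit 40701) (L (nat_lit 6451921))
(L (nat_lit 5034442))))
(S (nat_lit 33577) (L (nat_lit 1268592))
(L (nat_lit 1846806))))
(L (nat_lit 25662676)))))
(S (nat_lit 21959) (S (nat_lit 8757) (S (nat_lit 9075) (L (nat_lit 5452505))
(S (nat_lit 17514) (S (nat_lit 56599) (S (nat_lit 56113) (S (nat_lit 58763) (S (nat_lit 48138) (L (nat_lit 13242747))
(L (nat_lit 28323254)))
(L (nat_lit 19129420)))
(L (nat_lit 9459129)))
(L (nat_lit 18922250)))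
(L (nat_lit 217656))))
(S (nat_lit 28521) (S (nat_lit 14894) (S (nat_lit 35095) (S (nat_lit 9996) (S (nat_lit 41735) (S (nat_lit 21531) (L (nat_lit 28847813))
(L (nat_lit 7403148)))
(L (nat_lit 27311690)))
(L (nat_lit 8438708)))
(L (nat_lit 30455497)))
(L (nat_lit 9485236)))
(S (nat_lit 48285) (S (nat_lit 20248) (L (nat_lit 4583118))
(S (nat_lit 58763) (S (nat_lit 4452) (S (nat_lit 50539) (S (nat_lit 17055) (S (nat_lit 4427) (S (nat_lit 42984) (S (nat_lit 7853) (L (nat_lit 2727452))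
(L (nat_lit 23993488)))
(L (nat_lit 7425563)))
(L (nat_lit 26663268)))
(L (nat_lit 14686969)))
(L (nat_lit 11685305)))
(L (nat_lit 17985906)))
(L (nat_lit 18891128))))
(L (nat_lit 25397718)))))
(S (nat_lit 41723) (S (nat_lit 8339) (S (nat_lit 21971) (S (nat_lit 16569) (S (nat_lit 48290) (S (nat_lit 35095) (L (nat_lit 19948043))
(L (nat_lit 18028467)))
(L (nat_lit 13854277)))
(L (nat_lit 17003237)))
(L (nat_lit 12627798)))
(S (nat_lit 28103) (S (nat_lit 21531) (S (nat_lit 8757) (S (nat_lit 49524) (L (nat_lit 14737781))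
(L (nat_lit 13675284)))
(L (nat_lit 16977684)))
(L (nat_lit 7394060)))
(S (nat_lit 47867) (S (nat_lit 56599) (S (nat_lit 49524) (S (nat_lit 43959) (L (nat_lit 9493946))
(L (nat_lit 12316065)))
(L (nat_lit 19970888)))
(L (nat_lit 1260307)))
(L (nat_lit 25207283)))))
(L (nat_lit 25643179)))))
(L (nat_lit 25308816)))))
(S (nat_lit 24163) (S (nat_lit 2207) (S (nat_lit 10482) (S (nat_lit 6077) (S (nat_lit 15331) (S (nat_lit 17566) (S (nat_lit 8762) (L (nat_lit 20745581))
(L (nat_lit 26256109)))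
(L (nat_lit 6908355)))
(L (nat_lit 15478371)))
(S (nat_lit 25841) (S (nat_lit 45119) (S (nat_lit 15374) (L (nat_lit 29952487))
(L (nat_lit 598829)))
(L (nat_lit 7945336)))
(S (nat_lit 45605) (S (nat_lit 32944) (S (nat_lit 18715) (L (nat_lit 26773879))
(L (nat_lit 22816909)))
(L (nat_lit 15276157)))
(L (nat_lit 25308663)))))
(S (nat_lit 30246) (S (nat_lit 17055) (S (nat_lit 52196) (L (nat_lit 29604946))
(L (nat_lit 6319692)))
(S (nat_lit 36819) (S (nat_lit 27617) (L (nat_lit 18083428))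
(L (nat_lit 19131874)))
(S (nat_lit 56583) (S (nat_lit 7853) (S (nat_lit 56113) (S (nat_lit 28136) (L (nat_lit 17715490))
(L (nat_lit 26237320)))
(L (nat_lit 13659382)))
(S (nat_lit 47533) (L (nat_lit 19076908))
(L (nat_lit 11137474))))
(L (nat_lit 25514498)))))
(S (nat_lit 50010) (S (nat_lit 5629) (S (nat_lit 15353) (S (nat_lit 11011) (S (nat_lit 21005) (L (nat_lit 28530765))
(L (nat_lit 1655593)))
(L (nat_lit 1686345)))
(L (nat_lit 1699306)))
(S (nat_lit 25393) (S (nat_lit 36333) (S (nat_lit 8757) (L (nat_lit 221069))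
(L (nat_lit 1847540)))
(L (nat_lit 30624259)))
(S (nat_lit 45157) (S (nat_lit 3497) (L (nat_lit 843024))
(S (nat_lit 52678) (S (nat_lit 24136) (L (nat_lit 13390983))
(L (nat_lit 20746608)))
(L (nat_lit 18651190))))
(L (nat_lit 25865261)))))
(L (nat_lit 25732706)))))
(S (nat_lit 21971) (S (nat_lit 4431) (S (nat_lit 56) (S (nat_lit 2195) (S (nat_lit 31404) (L (nat_lit 1398203))
(L (nat_lit 1687306)))
(L (nat_lit 7097828)))
(S (nat_lit 1595) (S (nat_lit 30588) (L (nat_lit 6469243))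
(L (nat_lit 8971877)))
(L (nat_lit 8119685))))
(S (nat_lit 24195) (S (nat_lit 8277) (S (nat_lit 15374) (S (nat_lit 17558) (L (nat_lit 29950507))
(L (nat_lit 1654667)))
(L (nat_lit 1666571)))
(S (nat_lit 28041) (S (nat_lit 3454) (S (nat_lit 37322) (L (nat_lit 4890476))
(L (nat_lit 2473780)))
(L (nat_lit 18923403)))
(S (nat_lit 47805) (S (nat_lit 25393) (S (nat_lit 57086) (L (nat_lit 29759604))
(L (nat_lit 21347480)))
(L (nat_lit 30773780)))
(L (nat_lit 25828866)))))
(S (nat_lit 43959) (S (nat_lit 17055) (L (nat_lit 10043168))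
(S (nat_lit 36819) (S (nat_lit 41723) (S (nat_lit 14894) (L (nat_lit 4800363))
(L (nat_lit 9485981)))
(L (nat_lit 23118667)))
(S (nat_lit 56583) (S (nat_lit 27617) (S (nat_lit 39584) (L (nat_lit 29413612))
(L (nat_lit 24507781)))
(L (nat_lit 6313744)))
(L (nat_lit 25724215)))))
(L (nat_lit 25545839)))))
(S (nat_lit 41735) (S (nat_lit 6115) (S (nat_lit 17566) (S (nat_lit 8798) (S (nat_lit 46117) (L (nat_lit 16635141))
(L (nat_lit 27548034)))
(L (nat_lit 23369581)))
(S (nat_lit 37330) (S (nat_lit 8798) (S (nat_lit 54902) (S (nat_lit 28) (S (nat_lit 56599) (S (nat_lit 3454) (L (nat_lit 29415882))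
(L (nat_lit 19739937)))
(L (nat_lit 19670432)))
(L (nat_lit 7176782)))
(L (nat_lit 16327524)))
(S (nat_lit 44332) (L (nat_lit 31008813))
(L (nat_lit 26814541))))
(S (nat_lit 57094) (S (nat_lit 54881) (L (nat_lit 18919181))
(L (nat_lit 12160781)))
(L (nat_lit 25634371)))))
(S (nat_lit 25879) (S (nat_lit 10522) (S (nat_lit 26360) (S (nat_lit 38479) (L (nat_lit 30086667))
(L (nat_lit 5135878)))
(L (nat_lit 30530058)))
(S (nat_lit 30286) (S (nat_lit 25393) (S (nat_lit 10941) (L (nat_lit 21196228))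
(L (nat_lit 17866424)))
(L (nat_lit 13684952)))
(S (nat_lit 50050) (S (nat_lit 14894) (S (nat_lit 20634) (L (nat_lit 19033610))
(L (nat_lit 24347501)))
(L (nat_lit 11594384)))
(L (nat_lit 25679141)))))
(S (nat_lit 45643) (S (nat_lit 1281) (L (nat_lit 22277133))
(S (nat_lit 21045) (S (nat_lit 23218) (S (nat_lit 48326) (S (nat_lit 17055) (S (nat_lit 28) (S (nat_lit 52697) (L (nat_lit 18904271))
(L (nat_lit 19378020)))
(L (nat_lit 1357403)))
(L (nat_lit 4437813)))
(L (nat_lit 12358223)))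
(L (nat_lit 12803937)))
(S (nat_lit 40809) (S (nat_lit 43262) (L (nat_lit 5793354))
(S (nat_lit 57094) (S (nat_lit 41255) (S (nat_lit 55169) (L (nat_lit 19076911))
(L (nat_lit 30659597)))
(L (nat_lit 17375288)))
(L (nat_lit 12126989))))
(L (nat_lit 25465516)))))
(L (nat_lit 25499060)))))
(L (nat_lit 25368022)))))
(S (nat_lit 43927) (S (nat_lit 6625) (S (nat_lit 8277) (S (nat_lit 8807) (S (nat_lit 11013) (S (nat_lit 47867) (S (nat_lit 6589) (L (nat_lit 1268621))
(L (nat_lit 1827023)))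
(L (nat_lit 27479489)))
(S (nat_lit 29355) (L (nat_lit 26616887))
(L (nat_lit 8304788))))
(S (nat_lit 28571) (S (nat_lit 45643) (S (nat_lit 18906) (L (nat_lit 5881084))
(L (nat_lit 21171609)))
(S (nat_lit 47901) (L (nat_lit 13834068))
(L (nat_lit 3985645))))
(S (nat_lit 48335) (S (nat_lit 3454) (S (nat_lit 24201) (L (nat_lit 4833128))
(L (nat_lit 21793319)))
(L (nat_lit 20283835)))
(L (nat_lit 25546863)))))
(S (nat_lit 28041) (S (nat_lit 16569) (S (nat_lit 57086) (S (nat_lit 32432) (S (nat_lit 27617) (L (nat_lit 6047950))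
(L (nat_lit 19439362)))
(L (nat_lit 19840006)))
(L (nat_lit 10632980)))
(S (nat_lit 35421) (L (nat_lit 30555846))
(L (nat_lit 10633013))))
(S (nat_lit 47805) (S (nat_lit 36180) (L (nat_lit 1682877))
(S (nat_lit 53936) (S (nat_lit 47381) (S (nat_lit 50050) (S (nat_lit 8762) (L (nat_lit 23110478))
(L (nat_lit 7358291)))
(L (nat_lit 6338201)))
(S (nat_lit 50810) (L (nat_lit 6470301))
(L (nat_lit 7924288))))
(L (nat_lit 19108688))))
(L (nat_lit 25902121)))))
(S (nat_lit 26389) (S (nat_lit 2195) (S (nat_lit 14844) (S (nat_lit 15312) (S (nat_lit 11780) (L (nat_lit 19304796))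
(L (nat_lit 19325097)))
(L (nat_lit 1598150)))
(S (nat_lit 34608) (S (nat_lit 56599) (S (nat_lit 36349) (S (nat_lit 29760) (L (nat_lit 12804183))
(L (nat_lit 18921724)))
(L (nat_lit 6308504)))
(L (nat_lit 6354419)))
(S (nat_lit 54372) (S (nat_lit 30286) (S (nat_lit 27617) (S (nat_lit 31924) (S (nat_lit 54840) (L (nat_lit 28363982))
(L (nat_lit 27492759)))
(L (nat_lit 6469458)))
(L (nat_lit 6319696)))
(L (nat_lit 12781399)))
(L (nat_lit 25530061)))))
(S (nat_lit 21959) (S (nat_lit 8764) (S (nat_lit 9996) (S (nat_lit 28562) (S (nat_lit 32933) (L (nat_lit 28368145))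
(L (nat_lit 15485125)))
(L (nat_lit 2712845)))
(S (nat_lit 50791) (L (nat_lit 30727309))
(L (nat_lit 5460409))))
(S (nat_lit 28528) (S (nat_lit 7853) (S (nat_lit 48290) (L (nat_lit 30973506))
(L (nat_lit 22275149)))
(L (nat_lit 12605287)))
(S (nat_lit 48292) (S (nat_lit 3942) (S (nat_lit 40809) (S (nat_lit 31924) (L (nat_lit 2339607))
(L (nat_lit 19226797)))
(L (nat_lit 2352781)))
(S (nat_lit 24312) (L (nat_lit 6897411))
(L (nat_lit 19375874))))
(L (nat_lit 25648265)))))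
(S (nat_lit 41723) (S (nat_lit 6115) (S (nat_lit 14844) (S (nat_lit 30777) (L (nat_lit 18889085))
(L (nat_lit 19020122)))
(L (nat_lit 12370103)))
(S (nat_lit 25879) (S (nat_lit 52697) (S (nat_lit 41255) (L (nat_lit 29072800))
(L (nat_lit 6719192)))
(L (nat_lit 19710148)))
(S (nat_lit 45643) (S (nat_lit 14844) (S (nat_lit 30286) (S (nat_lit 49524) (L (nat_lit 252813))
(L (nat_lit 20313509)))
(L (nat_lit 25017696)))
(L (nat_lit 24942765)))
(L (nat_lit 25592490)))))
(L (nat_lit 25709924)))))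
(S (nat_lit 46153) (S (nat_lit 11009) (S (nat_lit 4452) (S (nat_lit 8764) (S (nat_lit 21045) (S (nat_lit 2254) (S (nat_lit 41735) (S (nat_lit 17055) (S (nat_lit 23218) (S (nat_lit 42984) (L (nat_lit 28808436))
(L (nat_lit 8076195)))
(L (nat_lit 7005601)))
(L (nat_lit 26235248)))
(L (nat_lit 12182021)))
(L (nat_lit 8087939)))
(L (nat_lit 7132205)))
(L (nat_lit 1853032)))
(S (nat_lit 24216) (S (nat_lit 2195) (S (nat_lit 54372) (S (nat_lit 27617) (L (nat_lit 2008719))
(L (nat_lit 19106576)))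
(L (nat_lit 6742197)))
(L (nat_lit 7825092)))
(S (nat_lit 43980) (S (nat_lit 14844) (S (nat_lit 43955) (L (nat_lit 27402956))
(L (nat_lit 5028555)))
(L (nat_lit 24921257)))
(L (nat_lit 25892231)))))
(S (nat_lit 30773) (S (nat_lit 6589) (S (nat_lit 26344) (S (nat_lit 15353) (S (nat_lit 12668) (L (nat_lit 28326534))
(L (nat_lit 4808942)))
(L (nat_lit 6942180)))
(L (nat_lit 24569058)))
(S (nat_lit 26353) (S (nat_lit 40769) (S (nat_lit 18715) (S (nat_lit 17544) (L (nat_lit 8442265))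
(L (nat_lit 18459488)))
(L (nat_lit 3663563)))
(L (nat_lit 17377090)))
(S (nat_lit 46117) (S (nat_lit 34172) (S (nat_lit 52708) (L (nat_lit 19047246))
(L (nat_lit 12333666)))
(L (nat_lit 12358196)))
(L (nat_lit 25678050)))))
(S (nat_lit 50537) (S (nat_lit 14844) (S (nat_lit 43470) (S (nat_lit 41723) (S (nat_lit 57094) (S (nat_lit 43980) (L (nat_lit 5492123))
(L (nat_lit 4991443)))
(L (nat_lit 5062995)))
(L (nat_lit 12174149)))
(L (nat_lit 1846894)))
(L (nat_lit 11683545)))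
(L (nat_lit 25505811)))))
(L (nat_lit 25338290)))))
(L (nat_lit 25766274)))))
(S (nat_lit 49564) (S (nat_lit 5629) (S (nat_lit 8807) (S (nat_lit 17071) (S (nat_lit 17055) (S (nat_lit 8277) (S (nat_lit 4431) (L (nat_lit 19292203))
(L (nat_lit 26590848)))
(L (nat_lit 11978873)))
(S (nat_lit 36819) (S (nat_lit 37322) (S (nat_lit 40769) (S (nat_lit 57042) (S (nat_lit 24191) (S (nat_lit 38513) (L (nat_lit 6720375))
(L (nat_lit 30607020)))
(L (nat_lit 10228428)))
(L (nat_lit 27310823)))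
(L (nat_lit 7989328)))
(L (nat_lit 20823179)))
(S (nat_lit 56583) (S (nat_lit 28521) (S (nat_lit 2207) (L (nat_lit 19663338))
(L (nat_lit 26270927)))
(L (nat_lit 18925446)))
(L (nat_lit 25579593)))))
(S (nat_lit 36835) (S (nat_lit 50050) (S (nat_lit 8798) (L (nat_lit 7080529))
(L (nat_lit 17061701)))
(L (nat_lit 3659626)))
(S (nat_lit 56599) (S (nat_lit 18749) (S (nat_lit 23220) (S (nat_lit 41782) (S (nat_lit 43980) (S (nat_lit 54859) (S (nat_lit 26344) (S (nat_lit 30777) (S (nat_lit 54422) (S (nat_lit 43959) (L (nat_lit 23110445))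
(L (nat_lit 27640915)))
(L (nat_lit 16997185)))
(L (nat_lit 16930662)))
(L (nat_lit 4080265)))
(L (nat_lit 11550428)))
(L (nat_lit 27646400)))
(L (nat_lit 23503961)))
(L (nat_lit 21424453)))
(S (nat_lit 38513) (S (nat_lit 48270) (L (nat_lit 24254909))
(S (nat_lit 53936) (S (nat_lit 43959) (S (nat_lit 11011) (S (nat_lit 57102) (S (nat_lit 8762) (L (nat_lit 28335376))
(L (nat_lit 17000563)))
(L (nat_lit 19020615)))
(L (nat_lit 23434682)))
(L (nat_lit 27643296)))
(L (nat_lit 19665447))))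
(S (nat_lit 58277) (S (nat_lit 40769) (S (nat_lit 38999) (S (nat_lit 50505) (S (nat_lit 24191) (S (nat_lit 54422) (S (nat_lit 36819) (S (nat_lit 19792) (S (nat_lit 43980) (S (nat_lit 16585) (S (nat_lit 29760) (S (nat_lit 11009) (L (nat_lit 29440680))
(L (nat_lit 26677898)))
(L (nat_lit 12637034)))
(L (nat_lit 17718342)))
(L (nat_lit 15012603)))
(L (nat_lit 2791869)))
(L (nat_lit 8305749)))
(L (nat_lit 18917946)))
(L (nat_lit 9869174)))
(L (nat_lit 27707559)))
(L (nat_lit 20356249)))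
(L (nat_lit 7989329)))
(L (nat_lit 25893038)))))
(L (nat_lit 25678954)))))
(S (nat_lit 28571) (S (nat_lit 14894) (S (nat_lit 4437) (S (nat_lit 30191) (L (nat_lit 15394950))
(S (nat_lit 41735) (S (nat_lit 48491) (L (nat_lit 12435169))
(L (nat_lit 10271795)))
(L (nat_lit 11594319))))
(S (nat_lit 24201) (S (nat_lit 8277) (S (nat_lit 38479) (L (nat_lit 8869796))
(L (nat_lit 23652395)))
(L (nat_lit 13330475)))
(S (nat_lit 43965) (S (nat_lit 19807) (S (nat_lit 37278) (S (nat_lit 47319) (L (nat_lit 23279675))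
(L (nat_lit 20279813)))
(L (nat_lit 9082428)))
(L (nat_lit 15488137)))
(L (nat_lit 25561298)))))
(S (nat_lit 34658) (S (nat_lit 13150) (S (nat_lit 38999) (S (nat_lit 56097) (S (nat_lit 25879) (S (nat_lit 21005) (L (nat_lit 16974488))
(L (nat_lit 6718203)))
(L (nat_lit 22279584)))
(L (nat_lit 19096069)))
(L (nat_lit 7517947)))
(S (nat_lit 32914) (S (nat_lit 12317) (L (nat_lit 20006104))
(S (nat_lit 56113) (S (nat_lit 32432) (S (nat_lit 56599) (S (nat_lit 21005) (S (nat_lit 54372) (L (nat_lit 6314798))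
(L (nat_lit 19032555)))
(L (nat_lit 16013337)))
(L (nat_lit 16320729)))
(L (nat_lit 18886169)))
(L (nat_lit 8129971))))
(S (nat_lit 52678) (S (nat_lit 39556) (S (nat_lit 37278) (S (nat_lit 49524) (S (nat_lit 27555) (L (nat_lit 5663954))
(L (nat_lit 30513837)))
(L (nat_lit 224694)))
(L (nat_lit 14331713)))
(L (nat_lit 17072761)))
(L (nat_lit 25461174)))))
(S (nat_lit 54422) (S (nat_lit 1281) (S (nat_lit 7617) (L (nat_lit 19272923))
(S (nat_lit 56599) (S (nat_lit 26389) (S (nat_lit 32893) (L (nat_lit 24339972))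
(L (nat_lit 16509065)))
(L (nat_lit 9226627)))
(L (nat_lit 19663052))))
(S (nat_lit 21045) (S (nat_lit 40702) (L (nat_lit 30621349))
(S (nat_lit 56599) (S (nat_lit 52657) (L (nat_lit 18946553))
(L (nat_lit 19831299)))
(L (nat_lit 21182521))))
(S (nat_lit 40809) (S (nat_lit 39584) (S (nat_lit 28526) (S (nat_lit 1727) (S (nat_lit 43959) (L (nat_lit 5490330))
(L (nat_lit 13371014)))
(L (nat_lit 19678403)))
(L (nat_lit 18047091)))
(L (nat_lit 24909872)))
(L (nat_lit 25252205)))))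
(L (nat_lit 25451009)))))
(S (nat_lit 48335) (S (nat_lit 8757) (S (nat_lit 1241) (S (nat_lit 6077) (S (nat_lit 32922) (S (nat_lit 17514) (S (nat_lit 57086) (S (nat_lit 38999) (L (nat_lit 28529185))
(L (nat_lit 636808)))
(L (nat_lit 4814156)))
(L (nat_lit 15943737)))
(L (nat_lit 20406310)))
(S (nat_lit 45497) (S (nat_lit 4399) (L (nat_lit 19071856))
(L (nat_lit 16323497)))
(L (nat_lit 12339745))))
(S (nat_lit 2843) (L (nat_lit 20725831))
(L (nat_lit 11322048))))
(S (nat_lit 28521) (S (nat_lit 17055) (S (nat_lit 31864) (L (nat_lit 5055056))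
(S (nat_lit 54422) (S (nat_lit 12160) (S (nat_lit 12646) (L (nat_lit 24289037))
(L (nat_lit 10224272)))
(L (nat_lit 16533764)))
(L (nat_lit 17881304))))
(S (nat_lit 36819) (S (nat_lit 24094) (L (nat_lit 3948203))
(S (nat_lit 47381) (S (nat_lit 40769) (S (nat_lit 30741) (S (nat_lit 21990) (S (nat_lit 54422) (S (nat_lit 41782) (S (nat_lit 25841) (L (nat_lit 5455515))
(L (nat_lit 7956961)))
(L (nat_lit 27697827)))
(L (nat_lit 8993848)))
(L (nat_lit 22808966)))
(L (nat_lit 19402598)))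
(L (nat_lit 24551232)))
(L (nat_lit 8148450))))
(S (nat_lit 56583) (S (nat_lit 52686) (S (nat_lit 34608) (S (nat_lit 8277) (L (nat_lit 29441365))
(L (nat_lit 10238070)))
(L (nat_lit 16423842)))
(L (nat_lit 12357292)))
(L (nat_lit 25186827)))))
(S (nat_lit 48285) (S (nat_lit 10977) (S (nat_lit 56599) (S (nat_lit 50050) (L (nat_lit 213689))
(L (nat_lit 9189061)))
(L (nat_lit 16019072)))
(S (nat_lit 30741) (S (nat_lit 6077) (S (nat_lit 41754) (S (nat_lit 56599) (L (nat_lit 26446358))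
(L (nat_lit 19677440)))
(L (nat_lit 14460576)))
(S (nat_lit 7873) (L (nat_lit 19677190))
(L (nat_lit 16533793))))
(S (nat_lit 50505) (S (nat_lit 21005) (S (nat_lit 41754) (L (nat_lit 4792890))
(L (nat_lit 11307571)))
(L (nat_lit 16353531)))
(L (nat_lit 25484672)))))
(L (nat_lit 25648134)))))
(L (nat_lit 25346323)))))
(S (nat_lit 25393) (S (nat_lit 2226) (S (nat_lit 1727) (S (nat_lit 6625) (S (nat_lit 37308) (S (nat_lit 7853) (S (nat_lit 32432) (L (nat_lit 29905088))
(L (nat_lit 8147459)))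
(L (nat_lit 26236273)))
(L (nat_lit 14282016)))
(S (nat_lit 26389) (S (nat_lit 30246) (S (nat_lit 8798) (L (nat_lit 19312449))
(L (nat_lit 7061348)))
(L (nat_lit 19663056)))
(S (nat_lit 46153) (S (nat_lit 6077) (S (nat_lit 30592) (L (nat_lit 2568055))
(L (nat_lit 26661217)))
(S (nat_lit 25787) (S (nat_lit 38513) (L (nat_lit 20476070))
(L (nat_lit 4627129)))
(L (nat_lit 12336737))))
(L (nat_lit 25713672)))))
(S (nat_lit 21491) (S (nat_lit 5591) (S (nat_lit 10941) (S (nat_lit 43959) (S (nat_lit 34658) (L (nat_lit 7487128))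
(L (nat_lit 8164882)))
(L (nat_lit 15473280)))
(L (nat_lit 8144481)))
(S (nat_lit 25355) (S (nat_lit 45643) (S (nat_lit 8757) (S (nat_lit 52196) (L (nat_lit 15519881))
(L (nat_lit 1656614)))
(L (nat_lit 7096001)))
(L (nat_lit 1500810)))
(S (nat_lit 45119) (S (nat_lit 2254) (S (nat_lit 29186) (L (nat_lit 4607321))
(S (nat_lit 41295) (S (nat_lit 54372) (S (nat_lit 4399) (S (nat_lit 29760) (L (nat_lit 18924390))
(L (nat_lit 7100430)))
(L (nat_lit 6353301)))
(L (nat_lit 6744676)))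
(L (nat_lit 1785641))))
(S (nat_lit 27650) (L (nat_lit 6450581))
(L (nat_lit 20422779))))
(L (nat_lit 25347351)))))
(S (nat_lit 41255) (S (nat_lit 9806) (L (nat_lit 6041168))
(S (nat_lit 15331) (S (nat_lit 6580) (S (nat_lit 45605) (S (nat_lit 13129) (S (nat_lit 25355) (L (nat_lit 4990542))
(L (nat_lit 1911406)))
(L (nat_lit 6313530)))
(L (nat_lit 6916666)))
(S (nat_lit 46000) (S (nat_lit 29440) (L (nat_lit 5620445))
(L (nat_lit 20989766)))
(L (nat_lit 8130999))))
(L (nat_lit 7082547))))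
(L (nat_lit 25598070)))))
(S (nat_lit 21990) (S (nat_lit 2195) (S (nat_lit 13180) (S (nat_lit 6023) (S (nat_lit 56599) (S (nat_lit 45605) (L (nat_lit 6440701))
(L (nat_lit 1648558)))
(L (nat_lit 6411708)))
(S (nat_lit 41255) (S (nat_lit 6580) (S (nat_lit 8757) (L (nat_lit 20135961))
(L (nat_lit 17566406)))
(L (nat_lit 7097391)))
(L (nat_lit 6742071))))
(S (nat_lit 32944) (S (nat_lit 36819) (S (nat_lit 43980) (S (nat_lit 4399) (S (nat_lit 47381) (S (nat_lit 41782) (S (nat_lit 57042) (S (nat_lit 2207) (L (nat_lit 17870427))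
(L (nat_lit 18903247)))
(L (nat_lit 10539581)))
(L (nat_lit 23497020)))
(L (nat_lit 20013543)))
(L (nat_lit 7402221)))
(L (nat_lit 15065793)))
(S (nat_lit 56529) (S (nat_lit 4399) (L (nat_lit 13783325))
(L (nat_lit 19084195)))
(L (nat_lit 8144976))))
(S (nat_lit 52708) (S (nat_lit 30638) (L (nat_lit 8946483))
(S (nat_lit 41295) (S (nat_lit 19807) (S (nat_lit 50539) (S (nat_lit 26360) (S (nat_lit 47381) (S (nat_lit 56599) (S (nat_lit 57086) (L (nat_lit 4812144))
(L (nat_lit 12015365)))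
(L (nat_lit 6785811)))
(L (nat_lit 17072890)))
(L (nat_lit 16326436)))
(L (nat_lit 27645005)))
(L (nat_lit 31106222)))
(L (nat_lit 18044804))))
(L (nat_lit 25342665)))))
(S (nat_lit 21959) (S (nat_lit 1767) (S (nat_lit 27445) (L (nat_lit 11587097))
(S (nat_lit 47381) (S (nat_lit 35117) (S (nat_lit 54422) (L (nat_lit 18440327))
(L (nat_lit 1592600)))
(L (nat_lit 10246285)))
(L (nat_lit 8053216))))
(S (nat_lit 21531) (S (nat_lit 38513) (S (nat_lit 56097) (L (nat_lit 28362990))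
(L (nat_lit 13853413)))
(L (nat_lit 14377280)))
(S (nat_lit 41295) (S (nat_lit 4399) (S (nat_lit 15331) (S (nat_lit 56599) (S (nat_lit 25879) (L (nat_lit 3397147))
(L (nat_lit 22545162)))
(L (nat_lit 6787859)))
(S (nat_lit 16492) (L (nat_lit 6927141))
(L (nat_lit 1275286))))
(L (nat_lit 6354637)))
(L (nat_lit 25894340)))))
(S (nat_lit 41723) (S (nat_lit 10941) (S (nat_lit 11584) (L (nat_lit 6473655))
(S (nat_lit 36333) (S (nat_lit 56599) (S (nat_lit 6580) (S (nat_lit 47867) (L (nat_lit 18027442))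
(L (nat_lit 6873107)))
(L (nat_lit 12627735)))
(L (nat_lit 19073804)))
(L (nat_lit 30625904))))
(S (nat_lit 30705) (S (nat_lit 35117) (S (nat_lit 1241) (S (nat_lit 30741) (L (nat_lit 18899311))
(L (nat_lit 14246241)))
(L (nat_lit 14441696)))
(L (nat_lit 2893389)))
(S (nat_lit 50469) (S (nat_lit 10778) (L (nat_lit 5988742))
(S (nat_lit 43980) (S (nat_lit 8757) (S (nat_lit 3942) (L (nat_lit 26266027))
(L (nat_lit 11979928)))
(L (nat_lit 21170649)))
(L (nat_lit 12771667))))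
(L (nat_lit 25730656)))))
(L (nat_lit 25625291)))))
(S (nat_lit 41754) (S (nat_lit 11013) (S (nat_lit 2207) (S (nat_lit 50050) (S (nat_lit 28103) (S (nat_lit 56599) (L (nat_lit 893585))
(L (nat_lit 13857843)))
(L (nat_lit 10606041)))
(L (nat_lit 15783786)))
(S (nat_lit 21971) (S (nat_lit 35076) (S (nat_lit 34608) (S (nat_lit 13150) (L (nat_lit 244345))
(L (nat_lit 6939695)))
(L (nat_lit 7794276)))
(L (nat_lit 31098246)))
(S (nat_lit 41735) (S (nat_lit 56599) (S (nat_lit 25879) (S (nat_lit 50050) (S (nat_lit 27617) (L (nat_lit 28871335))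
(L (nat_lit 12373440)))
(L (nat_lit 16536933)))
(L (nat_lit 30638765)))
(L (nat_lit 13858432)))
(L (nat_lit 25694826)))))
(S (nat_lit 30777) (S (nat_lit 56) (S (nat_lit 30741) (S (nat_lit 37330) (S (nat_lit 56599) (S (nat_lit 38999) (L (nat_lit 2815366))
(L (nat_lit 11289249)))
(L (nat_lit 13832979)))
(L (nat_lit 14526083)))
(S (nat_lit 35977) (L (nat_lit 24915087))
(L (nat_lit 2646630))))
(S (nat_lit 19820) (S (nat_lit 46119) (S (nat_lit 52686) (L (nat_lit 4802347))
(L (nat_lit 27888006)))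
(L (nat_lit 22846912)))
(S (nat_lit 39584) (S (nat_lit 30741) (S (nat_lit 15331) (S (nat_lit 45119) (L (nat_lit 20376619))
(L (nat_lit 15026362)))
(L (nat_lit 1603177)))
(L (nat_lit 19402108)))
(L (nat_lit 25926052)))))
(S (nat_lit 50541) (S (nat_lit 15331) (S (nat_lit 37384) (S (nat_lit 42363) (L (nat_lit 22570176))
(L (nat_lit 26758465)))
(S (nat_lit 57094) (S (nat_lit 6580) (S (nat_lit 41295) (S (nat_lit 40809) (S (nat_lit 42984) (L (nat_lit 30116294))
(L (nat_lit 27697330)))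
(L (nat_lit 544987)))
(L (nat_lit 7027739)))
(L (nat_lit 26266830)))
(L (nat_lit 15474838))))
(S (nat_lit 35095) (S (nat_lit 10522) (S (nat_lit 50537) (L (nat_lit 1848967))
(L (nat_lit 4993674)))
(L (nat_lit 9492236)))
(S (nat_lit 54859) (S (nat_lit 29112) (L (nat_lit 13781305))
(S (nat_lit 38999) (S (nat_lit 36819) (S (nat_lit 56599) (S (nat_lit 24191) (L (nat_lit 4727607))
(L (nat_lit 22456505)))
(L (nat_lit 14439680)))
(L (nat_lit 11122500)))
(L (nat_lit 20726115))))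
(L (nat_lit 25378403)))))
(L (nat_lit 25507990)))))
(L (nat_lit 25580832)))))
(S (nat_lit 45157) (S (nat_lit 6580) (S (nat_lit 17544) (S (nat_lit 18715) (S (nat_lit 40168) (L (nat_lit 11693492))
(S (nat_lit 50541) (S (nat_lit 5683) (L (nat_lit 1942223))
(L (nat_lit 14419590)))
(L (nat_lit 13374054))))
(S (nat_lit 38479) (S (nat_lit 2226) (L (nat_lit 829877))
(L (nat_lit 7198080)))
(S (nat_lit 58243) (S (nat_lit 8757) (L (nat_lit 26983558))
(L (nat_lit 7128769)))
(L (nat_lit 25927725)))))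
(S (nat_lit 37308) (S (nat_lit 8764) (S (nat_lit 25879) (S (nat_lit 15312) (S (nat_lit 13129) (S (nat_lit 40809) (L (nat_lit 24650904))
(L (nat_lit 7421597)))
(L (nat_lit 6316563)))
(L (nat_lit 26269063)))
(L (nat_lit 7524797)))
(S (nat_lit 28528) (S (nat_lit 56097) (L (nat_lit 16999043))
(L (nat_lit 7386999)))
(S (nat_lit 48292) (S (nat_lit 6589) (S (nat_lit 48285) (S (nat_lit 36819) (L (nat_lit 30082537))
(L (nat_lit 7366103)))
(L (nat_lit 27483182)))
(L (nat_lit 8119715)))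
(L (nat_lit 25833827)))))
(S (nat_lit 57072) (S (nat_lit 4437) (S (nat_lit 28103) (L (nat_lit 29938726))
(L (nat_lit 15520774)))
(S (nat_lit 24201) (S (nat_lit 30775) (S (nat_lit 30773) (S (nat_lit 30246) (L (nat_lit 22177996))
(L (nat_lit 809387)))
(L (nat_lit 13997971)))
(L (nat_lit 24941064)))
(S (nat_lit 43965) (S (nat_lit 21531) (S (nat_lit 52196) (S (nat_lit 6115) (L (nat_lit 26985478))
(L (nat_lit 26744053)))
(L (nat_lit 20753420)))
(L (nat_lit 15520779)))
(L (nat_lit 25515488)))))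
(L (nat_lit 25448865)))))
(S (nat_lit 26344) (S (nat_lit 49) (S (nat_lit 8762) (S (nat_lit 22397) (S (nat_lit 5289) (L (nat_lit 468603))
(L (nat_lit 8138931)))
(S (nat_lit 40809) (S (nat_lit 18715) (L (nat_lit 28530080))
(L (nat_lit 24951846)))
(L (nat_lit 8131213))))
(S (nat_lit 28526) (S (nat_lit 2226) (S (nat_lit 54859) (L (nat_lit 16788121))
(L (nat_lit 27505779)))
(S (nat_lit 19084) (L (nat_lit 18558789))
(L (nat_lit 7426928))))
(S (nat_lit 48290) (S (nat_lit 25757) (L (nat_lit 5467793))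
(S (nat_lit 29760) (S (nat_lit 2226) (L (nat_lit 20376619))
(L (nat_lit 7426928)))
(L (nat_lit 24319790))))
(L (nat_lit 25633875)))))
(S (nat_lit 19813) (S (nat_lit 17558) (S (nat_lit 21005) (S (nat_lit 19792) (S (nat_lit 30705) (S (nat_lit 35095) (S (nat_lit 2195) (L (nat_lit 28528037))
(L (nat_lit 26255055)))
(L (nat_lit 10196381)))
(L (nat_lit 14293857)))
(S (nat_lit 36040) (L (nat_lit 14701320))
(L (nat_lit 22518808))))
(S (nat_lit 52362) (L (nat_lit 5695206))
(L (nat_lit 1664553))))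
(S (nat_lit 37322) (S (nat_lit 19792) (S (nat_lit 21990) (S (nat_lit 2195) (S (nat_lit 40769) (L (nat_lit 19075514))
(L (nat_lit 10045184)))
(L (nat_lit 15270826)))
(L (nat_lit 10409505)))
(L (nat_lit 10225045)))
(S (nat_lit 57086) (S (nat_lit 32893) (S (nat_lit 32922) (L (nat_lit 28327654))
(L (nat_lit 2422197)))
(L (nat_lit 9451160)))
(L (nat_lit 25762181)))))
(S (nat_lit 39577) (S (nat_lit 54840) (S (nat_lit 18715) (S (nat_lit 15374) (L (nat_lit 29574295))
(L (nat_lit 26879492)))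
(L (nat_lit 16569382)))
(L (nat_lit 27284870)))
(L (nat_lit 25628981)))))
(S (nat_lit 46108) (S (nat_lit 8339) (S (nat_lit 13150) (S (nat_lit 25879) (S (nat_lit 35095) (S (nat_lit 12668) (S (nat_lit 30777) (L (nat_lit 5452598))
(L (nat_lit 9918305)))
(L (nat_lit 9463219)))
(L (nat_lit 13282211)))
(L (nat_lit 807431)))
(S (nat_lit 32914) (S (nat_lit 54735) (L (nat_lit 26366224))
(S (nat_lit 56113) (S (nat_lit 48326) (L (nat_lit 4642630))
(L (nat_lit 12473732)))
(L (nat_lit 513862))))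
(S (nat_lit 52678) (S (nat_lit 2195) (S (nat_lit 43965) (S (nat_lit 3456) (S (nat_lit 30777) (L (nat_lit 29886707))
(L (nat_lit 17618272)))
(L (nat_lit 10576339)))
(L (nat_lit 4924271)))
(S (nat_lit 7022) (L (nat_lit 23114667))
(L (nat_lit 16816860))))
(L (nat_lit 25630771)))))
(S (nat_lit 28103) (S (nat_lit 56) (S (nat_lit 47381) (S (nat_lit 43959) (S (nat_lit 10941) (L (nat_lit 6114545))
(L (nat_lit 7391126)))
(L (nat_lit 27401651)))
(L (nat_lit 20719074)))
(S (nat_lit 19820) (S (nat_lit 13158) (S (nat_lit 43468) (S (nat_lit 49524) (S (nat_lit 34172) (S (nat_lit 11013) (L (nat_lit 28562508))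
(L (nat_lit 26694822)))
(L (nat_lit 6820441)))
(L (nat_lit 20490267)))
(L (nat_lit 24362044)))
(S (nat_lit 40129) (L (nat_lit 1519321))
(L (nat_lit 13716729))))
(S (nat_lit 39584) (S (nat_lit 52686) (S (nat_lit 3940) (S (nat_lit 10977) (S (nat_lit 14408) (S (nat_lit 4399) (S (nat_lit 35095) (S (nat_lit 38999) (L (nat_lit 30028903))
(L (nat_lit 23862817)))
(L (nat_lit 20133794)))
(L (nat_lit 618829)))
(L (nat_lit 5790633)))
(L (nat_lit 6908353)))
(L (nat_lit 20264864)))
(L (nat_lit 18113559)))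
(L (nat_lit 25336215)))))
(S (nat_lit 47867) (S (nat_lit 4431) (S (nat_lit 30705) (S (nat_lit 47381) (S (nat_lit 50050) (L (nat_lit 21120807))
(L (nat_lit 20146624)))
(L (nat_lit 20179392)))
(L (nat_lit 13855393)))
(S (nat_lit 24195) (S (nat_lit 8277) (S (nat_lit 14358) (L (nat_lit 3598982))
(L (nat_lit 22455352)))
(L (nat_lit 9587225)))
(S (nat_lit 43959) (S (nat_lit 3536) (L (nat_lit 5461468))
(S (nat_lit 56599) (S (nat_lit 21531) (S (nat_lit 18715) (S (nat_lit 54840) (S (nat_lit 8762) (S (nat_lit 48326) (L (nat_lit 5459357))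
(L (nat_lit 27546701)))
(L (nat_lit 7128149)))
(L (nat_lit 27483246)))
(L (nat_lit 16518854)))
(L (nat_lit 30987433)))
(L (nat_lit 6348220))))
(L (nat_lit 25314578)))))
(L (nat_lit 25860577)))))
(L (nat_lit 25597175)))))
(L (nat_lit 25710630)))))
(L (nat_lit 25185734)))))

theorem rb183_1 : run 4 lb183 [] tb183_1 kb183 (P4 4 743 0 4082 6403 0 0 1 0) [] = true := by
  decide +kernel

noncomputable def ta35_1 : Tr :=
(S (nat_lit 509) (S (nat_lit 590) (S (nat_lit 1478) (S (nat_lit 6541) (S (nat_lit 2948) (S (nat_lit 650) (S (nat_lit 6230) (S (nat_lit 756) (S (nat_lit 4890) (S (nat_lit 4992) (S (nat_lit 6248) (S (nat_lit 647) (D (nat_lit 10) (nat_lit 150832) (nat_lit 432306) (nat_lit 2181104641))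
(L (nat_lit 722472)))
(L (nat_lit 561426)))
(L (nat_lit 479428)))
(L (nat_lit 340055)))
(L (nat_lit 281025)))
(L (nat_lit 460052)))
(L (nat_lit 437856)))
(L (nat_lit 415850)))
(L (nat_lit 673028)))
(S (nat_lit 3692) (S (nat_lit 1553) (S (nat_lit 5093) (S (nat_lit 1432) (L (nat_lit 234996))
(L (nat_lit 281028)))
(L (nat_lit 567316)))
(L (nat_lit 635914)))
(S (nat_lit 5906) (S (nat_lit 325) (S (nat_lit 6230) (S (nat_lit 96) (S (nat_lit 734) (S (nat_lit 3627) (L (nat_lit 501380))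
(L (nat_lit 630213)))
(L (nat_lit 623887)))
(L (nat_lit 434227)))
(L (nat_lit 313420)))
(L (nat_lit 627022)))
(L (nat_lit 602155)))))
(S (nat_lit 2804) (S (nat_lit 185) (S (nat_lit 3212) (S (nat_lit 5981) (S (nat_lit 1715) (L (nat_lit 8630))
(L (nat_lit 275574)))
(L (nat_lit 416003)))
(L (nat_lit 398643)))
(S (nat_lit 2399) (S (nat_lit 3212) (S (nat_lit 4525) (S (nat_lit 2113) (S (nat_lit 325) (S (nat_lit 5981) (S (nat_lit 259) (S (nat_lit 1767) (S (nat_lit 2594) (D (nat_lit 10) (nat_lit 604326) (nat_lit 215116) (nat_lit 65570))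
(L (nat_lit 119120)))
(L (nat_lit 396499)))
(L (nat_lit 638091)))
(L (nat_lit 402019)))
(L (nat_lit 150799)))
(L (nat_lit 313360)))
(L (nat_lit 576837)))
(L (nat_lit 576741)))
(S (nat_lit 4613) (S (nat_lit 2879) (S (nat_lit 258) (S (nat_lit 4856) (S (nat_lit 2113) (S (nat_lit 3212) (L (nat_lit 140788))
(L (nat_lit 576804)))
(L (nat_lit 379332)))
(L (nat_lit 655817)))
(L (nat_lit 414888)))
(L (nat_lit 510024)))
(L (nat_lit 600512)))))
(S (nat_lit 5018) (S (nat_lit 998) (S (nat_lit 6230) (S (nat_lit 4856) (L (nat_lit 8628))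
(L (nat_lit 248258)))
(L (nat_lit 53582)))
(S (nat_lit 3212) (S (nat_lit 5906) (S (nat_lit 4613) (L (nat_lit 333204))
(L (nat_lit 575627)))
(L (nat_lit 405157)))
(S (nat_lit 5426) (S (nat_lit 2311) (S (nat_lit 2885) (S (nat_lit 3929) (S (nat_lit 4327) (L (nat_lit 737287))
(L (nat_lit 765377)))
(L (nat_lit 765036)))
(L (nat_lit 771110)))
(L (nat_lit 500325)))
(L (nat_lit 594159)))))
(L (nat_lit 593136)))))
(S (nat_lit 2723) (S (nat_lit 671) (S (nat_lit 1715) (S (nat_lit 141) (L (nat_lit 246834))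
(S (nat_lit 6230) (S (nat_lit 5719) (S (nat_lit 665) (L (nat_lit 428775))
(L (nat_lit 447680)))
(L (nat_lit 734437)))
(L (nat_lit 45799))))
(S (nat_lit 3929) (S (nat_lit 5264) (S (nat_lit 5018) (S (nat_lit 4753) (S (nat_lit 2311) (S (nat_lit 4686) (S (nat_lit 4576) (S (nat_lit 4120) (S (nat_lit 1173) (S (nat_lit 2069) (S (nat_lit 783) (S (nat_lit 6194) (S (nat_lit 4349) (D (nat_lit 14) (nat_lit 702818) (nat_lit 701634) (nat_lit 0))
(L (nat_lit 20844)))
(L (nat_lit 210002)))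
(L (nat_lit 150734)))
(L (nat_lit 242742)))
(L (nat_lit 558451)))
(L (nat_lit 694349)))
(L (nat_lit 150798)))
(L (nat_lit 576648)))
(L (nat_lit 459368)))
(L (nat_lit 111891)))
(L (nat_lit 119270)))
(L (nat_lit 112203)))
(S (nat_lit 6143) (S (nat_lit 325) (S (nat_lit 2642) (S (nat_lit 2113) (L (nat_lit 116331))
(L (nat_lit 313421)))
(L (nat_lit 216112)))
(L (nat_lit 347215)))
(L (nat_lit 593100)))))
(S (nat_lit 2885) (S (nat_lit 1058) (S (nat_lit 4686) (S (nat_lit 6230) (S (nat_lit 650) (S (nat_lit 3803) (L (nat_lit 462167))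
(S (nat_lit 5981) (S (nat_lit 2979) (L (nat_lit 280224))
(L (nat_lit 373441)))
(L (nat_lit 118030))))
(L (nat_lit 307776)))
(L (nat_lit 231084)))
(L (nat_lit 137783)))
(S (nat_lit 3272) (S (nat_lit 3212) (L (nat_lit 45397))
(L (nat_lit 412807)))
(S (nat_lit 5486) (S (nat_lit 2642) (S (nat_lit 0) (S (nat_lit 4525) (L (nat_lit 498307))
(L (nat_lit 576837)))
(L (nat_lit 248193)))
(L (nat_lit 499264)))
(L (nat_lit 600077)))))
(S (nat_lit 5099) (S (nat_lit 734) (S (nat_lit 97) (S (nat_lit 5906) (S (nat_lit 2879) (S (nat_lit 6143) (S (nat_lit 3601) (S (nat_lit 1058) (S (nat_lit 5453) (S (nat_lit 3628) (S (nat_lit 5879) (D (nat_lit 8) (nat_lit 444584) (nat_lit 607557) (nat_lit 69861376000))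
(L (nat_lit 634891)))
(L (nat_lit 263698)))
(L (nat_lit 283043)))
(L (nat_lit 463222)))
(L (nat_lit 242372)))
(L (nat_lit 252324)))
(L (nat_lit 252944)))
(L (nat_lit 340709)))
(L (nat_lit 630831)))
(S (nat_lit 2939) (L (nat_lit 8595))
(L (nat_lit 543851))))
(L (nat_lit 590312)))))
(S (nat_lit 4937) (S (nat_lit 1553) (S (nat_lit 2680) (L (nat_lit 241810))
(S (nat_lit 6230) (S (nat_lit 998) (S (nat_lit 4687) (S (nat_lit 650) (S (nat_lit 2642) (L (nat_lit 295412))
(L (nat_lit 461011)))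
(L (nat_lit 626056)))
(L (nat_lit 249346)))
(S (nat_lit 3239) (L (nat_lit 153993))
(L (nat_lit 630245))))
(L (nat_lit 402578))))
(S (nat_lit 3767) (S (nat_lit 3652) (L (nat_lit 343619))
(S (nat_lit 4856) (S (nat_lit 0) (S (nat_lit 325) (S (nat_lit 650) (S (nat_lit 5426) (S (nat_lit 6230) (L (nat_lit 638089))
(L (nat_lit 460052)))
(L (nat_lit 140879)))
(L (nat_lit 314786)))
(L (nat_lit 445579)))
(L (nat_lit 197010)))
(L (nat_lit 564370))))
(S (nat_lit 5981) (S (nat_lit 1387) (S (nat_lit 221) (S (nat_lit 2214) (S (nat_lit 2472) (S (nat_lit 3212) (S (nat_lit 612) (S (nat_lit 2948) (S (nat_lit 4525) (S (nat_lit 606) (S (nat_lit 6280) (D (nat_lit 8) (nat_lit 142867) (nat_lit 596387) (nat_lit 34359740481))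
(L (nat_lit 209939)))
(L (nat_lit 512228)))
(L (nat_lit 55816)))
(L (nat_lit 399941)))
(L (nat_lit 694412)))
(L (nat_lit 562483)))
(L (nat_lit 364140)))
(L (nat_lit 307252)))
(S (nat_lit 4613) (S (nat_lit 6230) (S (nat_lit 5162) (S (nat_lit 6143) (S (nat_lit 5107) (L (nat_lit 348333))
(L (nat_lit 532067)))
(L (nat_lit 462194)))
(L (nat_lit 147762)))
(L (nat_lit 45799)))
(L (nat_lit 346256))))
(S (nat_lit 3601) (S (nat_lit 0) (S (nat_lit 6230) (S (nat_lit 962) (L (nat_lit 736265))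
(L (nat_lit 373442)))
(L (nat_lit 394983)))
(S (nat_lit 4392) (L (nat_lit 49736))
(L (nat_lit 51405))))
(S (nat_lit 5815) (S (nat_lit 650) (S (nat_lit 2885) (L (nat_lit 110965))
(L (nat_lit 347586)))
(L (nat_lit 412962)))
(L (nat_lit 607524)))))
(L (nat_lit 598531)))))
(L (nat_lit 607334)))))

theorem ra35_1 : run 3 la35 [] ta35_1 ka35 (P4 3 1 108 468 708 0 0 1 0) [] = true := by
  decide +kernel

noncomputable def ta29_3 : Tr :=
(S (nat_lit 1953) (S (nat_lit 1077) (S (nat_lit 657) (S (nat_lit 3287) (S (nat_lit 3314) (S (nat_lit 3313) (S (nat_lit 1143) (L (nat_lit 284032))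
(S (nat_lit 3357) (S (nat_lit 4860) (S (nat_lit 5932) (S (nat_lit 3160) (D (nat_lit 0) (nat_lit 314755) (nat_lit 80178) (nat_lit 35435610177))
(L (nat_lit 721228)))
(L (nat_lit 757288)))
(L (nat_lit 318849)))
(L (nat_lit 596485))))
(L (nat_lit 638272)))
(L (nat_lit 689607)))
(S (nat_lit 5473) (S (nat_lit 648) (S (nat_lit 5501) (L (nat_lit 374870))
(L (nat_lit 668929)))
(L (nat_lit 298572)))
(L (nat_lit 198163))))
(S (nat_lit 2871) (L (nat_lit 7732))
(S (nat_lit 5085) (S (nat_lit 1944) (S (nat_lit 1620) (L (nat_lit 329236))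
(L (nat_lit 630243)))
(L (nat_lit 624107)))
(L (nat_lit 594220)))))
(S (nat_lit 3291) (S (nat_lit 1629) (S (nat_lit 648) (S (nat_lit 657) (S (nat_lit 1620) (S (nat_lit 9) (S (nat_lit 6159) (L (nat_lit 770058))
(L (nat_lit 578754)))
(L (nat_lit 15943)))
(L (nat_lit 212547)))
(L (nat_lit 179785)))
(L (nat_lit 308339)))
(L (nat_lit 210035)))
(S (nat_lit 5505) (S (nat_lit 1629) (S (nat_lit 648) (S (nat_lit 3287) (L (nat_lit 210657))
(S (nat_lit 5473) (S (nat_lit 666) (L (nat_lit 106129))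
(L (nat_lit 312933)))
(L (nat_lit 363987))))
(L (nat_lit 636261)))
(L (nat_lit 636099)))
(L (nat_lit 593322)))))
(S (nat_lit 4167) (S (nat_lit 648) (S (nat_lit 9) (S (nat_lit 3291) (L (nat_lit 275510))
(L (nat_lit 396970)))
(S (nat_lit 2223) (S (nat_lit 2887) (S (nat_lit 1944) (S (nat_lit 3519) (S (nat_lit 6329) (S (nat_lit 4407) (S (nat_lit 5458) (S (nat_lit 2195) (S (nat_lit 3299) (D (nat_lit 2) (nat_lit 466656) (nat_lit 542792) (nat_lit 36540842016))
(L (nat_lit 47687)))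
(L (nat_lit 663045)))
(L (nat_lit 395878)))
(L (nat_lit 493190)))
(L (nat_lit 498706)))
(L (nat_lit 229844)))
(L (nat_lit 314849)))
(S (nat_lit 3426) (L (nat_lit 435382))
(L (nat_lit 478465))))
(S (nat_lit 4437) (S (nat_lit 1077) (S (nat_lit 6057) (L (nat_lit 173620))
(L (nat_lit 478437)))
(L (nat_lit 462066)))
(L (nat_lit 605377)))))
(L (nat_lit 373939)))
(S (nat_lit 6381) (S (nat_lit 648) (S (nat_lit 1477) (S (nat_lit 2535) (S (nat_lit 6094) (S (nat_lit 1077) (S (nat_lit 4536) (S (nat_lit 2998) (S (nat_lit 657) (S (nat_lit 3519) (D (nat_lit 0) (nat_lit 314755) (nat_lit 80457) (nat_lit 35435610177))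
(L (nat_lit 24073)))
(L (nat_lit 394827)))
(L (nat_lit 530578)))
(L (nat_lit 432309)))
(L (nat_lit 147176)))
(L (nat_lit 266739)))
(S (nat_lit 3291) (S (nat_lit 6057) (S (nat_lit 3287) (L (nat_lit 527636))
(L (nat_lit 212051)))
(L (nat_lit 374501)))
(L (nat_lit 400994))))
(S (nat_lit 3691) (S (nat_lit 2843) (S (nat_lit 2197) (L (nat_lit 446692))
(L (nat_lit 435218)))
(S (nat_lit 3291) (S (nat_lit 6057) (S (nat_lit 2885) (S (nat_lit 4761) (S (nat_lit 2845) (S (nat_lit 5906) (S (nat_lit 718) (S (nat_lit 3659) (S (nat_lit 1502) (D (nat_lit 2) (nat_lit 173590) (nat_lit 436801) (nat_lit 1075872770))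
(L (nat_lit 697732)))
(L (nat_lit 658859)))
(L (nat_lit 761380)))
(L (nat_lit 184526)))
(L (nat_lit 171447)))
(L (nat_lit 121224)))
(L (nat_lit 480294)))
(L (nat_lit 374501)))
(L (nat_lit 403042))))
(S (nat_lit 5905) (S (nat_lit 4394) (S (nat_lit 6057) (L (nat_lit 465633))
(L (nat_lit 362161)))
(S (nat_lit 5906) (S (nat_lit 3287) (S (nat_lit 2888) (L (nat_lit 10802))
(L (nat_lit 139827)))
(L (nat_lit 173587)))
(L (nat_lit 411659))))
(L (nat_lit 602121)))))
(L (nat_lit 636197)))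
(L (nat_lit 597473)))))

theorem ra29_3 : run 3 la29 [] ta29_3 ka29 (P4 3 372 370 108 0 0 1 0 0) [] = true := by
  decide +kernel

noncomputable def tb178_4 : Tr :=
(L (nat_lit 25836802))

theorem rb178_4 : run 4 lb178 [] tb178_4 kb178 (P4 4 1809 4070 192 1809 1 0 0 0) [] = true := by
  decide +kernel

noncomputable def tb182_2 : Tr :=
(L (nat_lit 25768128))

theorem rb182_2 : run 4 lb182 [] tb182_2 kb182 (P4 4 1473 0 5135 0 0 0 1 2) [] = true := by
  decide +kernel

noncomputable def ta13_0 : Tr :=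
(L (nat_lit 605440))

theorem ra13_0 : run 3 la13 [] ta13_0 ka13 (P4 3 3 623 79 623 0 0 0 1) [] = true := by
  decide +kernel

noncomputable def ta37_5 : Tr :=
(L (nat_lit 604385))

theorem ra37_5 : run 3 la37 [] ta37_5 ka37 (P4 3 203 0 314 203 1 2 0 0) [] = true := by
  decide +kernel

end Pool.Agent.MP_92191b_al.K3.E
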