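import Pool.Agent.MP_92191b_al.K3.CR16

/-! Refutation trees. -/

namespace Pool.Agent.MP_92191b_al.K3.E

open Tr

set_option maxRecDepth 100000

noncomputable def tb246_0_20 : Tr :=
(S (nat_lit 50494) (S (nat_lit 15356) (S (nat_lit 15373) (S (nat_lit 1019) (S (nat_lit 10960) (S (nat_lit 17521) (S (nat_lit 8795) (S (nat_lit 41472) (S (nat_lit 17558) (S (nat_lit 47) (S (nat_lit 40743) (L (nat_lit 23228810))
(L (nat_lit 17069667)))
(L (nat_lit 1341041)))
(L (nat_lit 1465725)))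
(L (nat_lit 6419890)))
(L (nat_lit 7738165)))
(S (nat_lit 37285) (S (nat_lit 1215) (S (nat_lit 1701) (S (nat_lit 1763) (L (nat_lit 26290613))
(L (nat_lit 20124593)))
(L (nat_lit 26817673)))
(L (nat_lit 26817859)))
(S (nat_lit 57049) (S (nat_lit 8762) (S (nat_lit 8779) (S (nat_lit 21507) (L (nat_lit 8417868))
(L (nat_lit 7365357)))
(L (nat_lit 26810755)))
(S (nat_lit 27414) (L (nat_lit 22199676))
(L (nat_lit 26429828))))
(L (nat_lit 25400723)))))
(S (nat_lit 30724) (S (nat_lit 42) (S (nat_lit 21540) (S (nat_lit 21054) (L (nat_lit 29656530))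
(L (nat_lit 6375346)))
(L (nat_lit 280498)))
(S (nat_lit 19806) (S (nat_lit 35135) (S (nat_lit 20778) (S (nat_lit 10840) (L (nat_lit 18016938))
(S (nat_lit 21750) (S (nat_lit 25727) (L (nat_lit 417113))
(S (nat_lit 39590) (S (nat_lit 42369) (L (nat_lit 8509979))
(S (nat_lit 54837) (S (nat_lit 14) (S (nat_lit 40564) (S (nat_lit 37260) (L (nat_lit 8445466))
(L (nat_lit 20414684)))
(L (nat_lit 8192623)))
(S (nat_lit 25533) (L (nat_lit 22029880))
(L (nat_lit 1679868))))
(L (nat_lit 12059389))))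
(L (nat_lit 23599876))))
(L (nat_lit 2009836))))
(S (nat_lit 44294) (L (nat_lit 4577070))
(L (nat_lit 6313772))))
(L (nat_lit 8904484)))
(S (nat_lit 39570) (S (nat_lit 14032) (L (nat_lit 24199976))
(S (nat_lit 39559) (S (nat_lit 19811) (S (nat_lit 21004) (L (nat_lit 1274477))
(S (nat_lit 24239) (L (nat_lit 828141))
(L (nat_lit 15295499))))
(L (nat_lit 8482385)))
(L (nat_lit 17604258))))
(L (nat_lit 25464371)))))
(S (nat_lit 50488) (S (nat_lit 17527) (S (nat_lit 41514) (S (nat_lit 19795) (S (nat_lit 48307) (L (nat_lit 14819122))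
(L (nat_lit 16484137)))
(L (nat_lit 16686755)))
(L (nat_lit 6948620)))
(S (nat_lit 37291) (S (nat_lit 28543) (S (nat_lit 1958) (S (nat_lit 15340) (L (nat_lit 14583367))
(L (nat_lit 26773096)))
(L (nat_lit 26811842)))
(L (nat_lit 10028817)))
(S (nat_lit 57055) (S (nat_lit 19795) (S (nat_lit 40807) (S (nat_lit 41293) (L (nat_lit 24190736))
(L (nat_lit 27376234)))
(L (nat_lit 27572836)))
(L (nat_lit 14995202)))
(L (nat_lit 25788840)))))
(L (nat_lit 25677154)))))
(S (nat_lit 20783) (S (nat_lit 11010) (S (nat_lit 1215) (S (nat_lit 15351) (S (nat_lit 25) (S (nat_lit 41547) (S (nat_lit 50477) (L (nat_lit 26478098))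
(L (nat_lit 14688858)))
(L (nat_lit 810443)))
(L (nat_lit 8132303)))
(S (nat_lit 35036) (L (nat_lit 2012372))
(L (nat_lit 7451225))))
(S (nat_lit 20979) (S (nat_lit 39609) (S (nat_lit 17571) (L (nat_lit 9832338))
(L (nat_lit 1986983)))
(S (nat_lit 41229) (S (nat_lit 25) (L (nat_lit 1820488))
(L (nat_lit 1845998)))
(L (nat_lit 7254163))))
(S (nat_lit 40743) (S (nat_lit 14) (S (nat_lit 21479) (S (nat_lit 21490) (L (nat_lit 31001804))
(L (nat_lit 7792357)))
(L (nat_lit 7959569)))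
(L (nat_lit 6929500)))
(L (nat_lit 25349544)))))
(S (nat_lit 30774) (S (nat_lit 1003) (S (nat_lit 15340) (S (nat_lit 35135) (S (nat_lit 54879) (S (nat_lit 2006) (S (nat_lit 10982) (S (nat_lit 54862) (S (nat_lit 5488) (L (nat_lit 14823130))
(S (nat_lit 10999) (S (nat_lit 30713) (S (nat_lit 37604) (L (nat_lit 501559))
(S (nat_lit 40974) (L (nat_lit 10950363))
(L (nat_lit 15543009))))
(L (nat_lit 30918762)))
(L (nat_lit 968941))))
(L (nat_lit 27283880)))
(L (nat_lit 1920206)))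
(L (nat_lit 3924488)))
(L (nat_lit 5527997)))
(L (nat_lit 20104043)))
(S (nat_lit 35104) (S (nat_lit 37302) (L (nat_lit 28385683))
(L (nat_lit 30690688)))
(S (nat_lit 54868) (S (nat_lit 10982) (S (nat_lit 30713) (S (nat_lit 10999) (S (nat_lit 18680) (L (nat_lit 18979324))
(L (nat_lit 30770798)))
(S (nat_lit 24123) (L (nat_lit 22579514))
(L (nat_lit 403098))))
(S (nat_lit 44775) (L (nat_lit 14823034))
(L (nat_lit 2963018))))
(S (nat_lit 17486) (L (nat_lit 353718))
(L (nat_lit 6893596))))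
(L (nat_lit 25449859)))))
(S (nat_lit 20767) (S (nat_lit 21739) (S (nat_lit 10982) (S (nat_lit 19978) (L (nat_lit 7356309))
(S (nat_lit 21004) (S (nat_lit 35135) (S (nat_lit 17560) (L (nat_lit 28914884))
(L (nat_lit 934569)))
(L (nat_lit 10271365)))
(L (nat_lit 6483477))))
(S (nat_lit 48031) (L (nat_lit 22517788))
(L (nat_lit 1592540))))
(L (nat_lit 22505796)))
(S (nat_lit 40531) (S (nat_lit 35250) (L (nat_lit 6816444))
(S (nat_lit 40575) (S (nat_lit 29945) (S (nat_lit 48351) (L (nat_lit 12932251))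
(L (nat_lit 12173089)))
(S (nat_lit 35135) (S (nat_lit 39341) (L (nat_lit 19237337))
(S (nat_lit 54879) (S (nat_lit 26942) (L (nat_lit 16901429))
(S (nat_lit 39590) (S (nat_lit 10982) (S (nat_lit 15340) (S (nat_lit 54862) (S (nat_lit 21750) (S (nat_lit 20736) (S (nat_lit 32615) (L (nat_lit 4598395))
(S (nat_lit 50488) (S (nat_lit 35148) (S (nat_lit 1034) (S (nat_lit 21770) (S (nat_lit 30713) (S (nat_lit 33006) (L (nat_lit 5555833))
(S (nat_lit 41254) (S (nat_lit 1828) (L (nat_lit 5586520))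
(L (nat_lit 27935013)))
(L (nat_lit 17424640))))
(L (nat_lit 30984298)))
(S (nat_lit 27422) (L (nat_lit 13784345))
(L (nat_lit 1814075))))
(L (nat_lit 19116931)))
(L (nat_lit 23434650)))
(L (nat_lit 27514306))))
(L (nat_lit 16600138)))
(L (nat_lit 16700677)))
(L (nat_lit 27498065)))
(L (nat_lit 6931266)))
(S (nat_lit 55556) (L (nat_lit 9990324))
(L (nat_lit 6894340))))
(L (nat_lit 10637072))))
(L (nat_lit 19703264))))
(L (nat_lit 23496059))))
(L (nat_lit 17540900))))
(L (nat_lit 25528821)))))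
(S (nat_lit 50538) (S (nat_lit 10999) (S (nat_lit 10935) (S (nat_lit 41472) (S (nat_lit 64) (S (nat_lit 20800) (S (nat_lit 10960) (S (nat_lit 5707) (S (nat_lit 54729) (L (nat_lit 1306101))
(L (nat_lit 22821056)))
(S (nat_lit 10982) (S (nat_lit 20736) (S (nat_lit 47) (S (nat_lit 41519) (S (nat_lit 10977) (S (nat_lit 50477) (S (nat_lit 1290) (S (nat_lit 35135) (S (nat_lit 15340) (S (nat_lit 17538) (L (nat_lit 10667706))
(L (nat_lit 22913473)))
(L (nat_lit 8076130)))
(L (nat_lit 20377770)))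
(S (nat_lit 21054) (S (nat_lit 15384) (S (nat_lit 8795) (L (nat_lit 1357402))
(L (nat_lit 21869797)))
(L (nat_lit 26880385)))
(S (nat_lit 40818) (S (nat_lit 21490) (S (nat_lit 35115) (S (nat_lit 15384) (S (nat_lit 28559) (L (nat_lit 14980824))
(L (nat_lit 19838180)))
(L (nat_lit 26814848)))
(L (nat_lit 18631846)))
(L (nat_lit 22415143)))
(L (nat_lit 25895981)))))
(L (nat_lit 4417260)))
(L (nat_lit 7892150)))
(L (nat_lit 18651318)))
(L (nat_lit 18984349)))
(L (nat_lit 16362372)))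
(L (nat_lit 1955371))))
(S (nat_lit 24857) (S (nat_lit 45836) (L (nat_lit 4962682))
(L (nat_lit 26945922)))
(L (nat_lit 1308055))))
(S (nat_lit 21124) (L (nat_lit 3598922))
(L (nat_lit 825748))))
(L (nat_lit 19833219)))
(L (nat_lit 23504739)))
(S (nat_lit 30699) (S (nat_lit 21750) (S (nat_lit 10960) (S (nat_lit 39590) (S (nat_lit 54862) (S (nat_lit 56411) (L (nat_lit 12088436))
(L (nat_lit 12260109)))
(L (nat_lit 21205777)))
(L (nat_lit 23927333)))
(L (nat_lit 26946704)))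
(L (nat_lit 2006765)))
(S (nat_lit 50463) (S (nat_lit 75) (S (nat_lit 46072) (L (nat_lit 2759097))
(L (nat_lit 15474738)))
(S (nat_lit 19839) (S (nat_lit 62) (S (nat_lit 42) (L (nat_lit 16387942))
(L (nat_lit 8023584)))
(L (nat_lit 14359461)))
(S (nat_lit 39603) (S (nat_lit 35135) (S (nat_lit 8690) (L (nat_lit 17898358))
(L (nat_lit 22815202)))
(L (nat_lit 23496057)))
(L (nat_lit 25897441)))))
(L (nat_lit 25172532)))))
(S (nat_lit 30763) (S (nat_lit 40531) (S (nat_lit 1014) (S (nat_lit 10977) (S (nat_lit 30746) (S (nat_lit 19778) (S (nat_lit 39553) (S (nat_lit 21770) (S (nat_lit 54879) (S (nat_lit 35104) (S (nat_lit 54899) (S (nat_lit 35148) (S (nat_lit 5294) (L (nat_lit 11584120))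
(S (nat_lit 39570) (S (nat_lit 40514) (S (nat_lit 47) (S (nat_lit 20800) (S (nat_lit 50477) (S (nat_lit 54862) (S (nat_lit 20247) (S (nat_lit 14004) (L (nat_lit 5624312))
(L (nat_lit 27869504)))
(S (nat_lit 31076) (S (nat_lit 49703) (L (nat_lit 4504313))
(L (nat_lit 18997640)))
(L (nat_lit 19950924))))
(L (nat_lit 27480482)))
(L (nat_lit 27483652)))
(S (nat_lit 56001) (L (nat_lit 18059896))
(L (nat_lit 6354325))))
(L (nat_lit 19743940)))
(L (nat_lit 27868353)))
(L (nat_lit 24191549))))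
(L (nat_lit 20299520)))
(L (nat_lit 27932996)))
(L (nat_lit 9111308)))
(L (nat_lit 21531399)))
(L (nat_lit 1947366)))
(L (nat_lit 17850121)))
(L (nat_lit 21019961)))
(L (nat_lit 10195449)))
(L (nat_lit 26813889)))
(L (nat_lit 20299650)))
(S (nat_lit 55319) (L (nat_lit 7487283))
(L (nat_lit 18189204))))
(S (nat_lit 50527) (S (nat_lit 986) (S (nat_lit 10960) (S (nat_lit 33341) (L (nat_lit 3426043))
(L (nat_lit 7990320)))
(L (nat_lit 16525923)))
(S (nat_lit 20750) (S (nat_lit 20696) (L (nat_lit 21434153))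
(S (nat_lit 50463) (S (nat_lit 42) (S (nat_lit 10982) (S (nat_lit 41497) (S (nat_lit 45599) (L (nat_lit 7390936))
(L (nat_lit 21373731)))
(L (nat_lit 23496921)))
(S (nat_lit 41802) (L (nat_lit 1359450))
(L (nat_lit 7960036))))
(S (nat_lit 21923) (L (nat_lit 5493613))
(L (nat_lit 19184825))))
(L (nat_lit 20420635))))
(S (nat_lit 40514) (S (nat_lit 2614) (L (nat_lit 404089))
(S (nat_lit 8773) (S (nat_lit 40575) (S (nat_lit 21004) (L (nat_lit 17981225))
(L (nat_lit 6916910)))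
(L (nat_lit 27318477)))
(L (nat_lit 1261243))))
(L (nat_lit 25579529)))))
(L (nat_lit 25648136)))))
(L (nat_lit 25793959)))))
(S (nat_lit 40547) (S (nat_lit 10935) (S (nat_lit 2019) (S (nat_lit 10960) (S (nat_lit 1047) (S (nat_lit 40500) (S (nat_lit 54862) (S (nat_lit 8748) (L (nat_lit 5905849))
(S (nat_lit 36760) (L (nat_lit 10633914))
(L (nat_lit 15360224))))
(L (nat_lit 28021100)))
(L (nat_lit 1330028)))
(L (nat_lit 26985480)))
(S (nat_lit 30724) (S (nat_lit 41293) (L (nat_lit 17866333))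
(L (nat_lit 23294373)))
(S (nat_lit 50488) (S (nat_lit 14) (S (nat_lit 19789) (L (nat_lit 2341655))
(S (nat_lit 48006) (L (nat_lit 19085154))
(L (nat_lit 15757001))))
(S (nat_lit 16722) (L (nat_lit 28918954))
(L (nat_lit 223920))))
(L (nat_lit 25401005)))))
(S (nat_lit 21783) (S (nat_lit 8748) (S (nat_lit 21490) (L (nat_lit 24123930))
(L (nat_lit 8280110)))
(S (nat_lit 36447) (L (nat_lit 7499251))
(L (nat_lit 8159886))))
(S (nat_lit 41547) (S (nat_lit 17558) (S (nat_lit 40564) (L (nat_lit 27886987))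
(L (nat_lit 24680604)))
(S (nat_lit 36416) (L (nat_lit 1515100))
(L (nat_lit 401300))))
(L (nat_lit 25451660)))))
(S (nat_lit 30699) (S (nat_lit 12586) (L (nat_lit 8029997))
(S (nat_lit 21750) (S (nat_lit 20761) (S (nat_lit 39590) (S (nat_lit 1958) (S (nat_lit 1047) (S (nat_lit 19795) (S (nat_lit 35087) (S (nat_lit 35148) (S (nat_lit 54862) (S (nat_lit 8810) (S (nat_lit 28512) (S (nat_lit 8790) (S (nat_lit 28559) (S (nat_lit 10977) (S (nat_lit 13806) (L (nat_lit 1422969))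
(L (nat_lit 19774659)))
(L (nat_lit 8210817)))
(L (nat_lit 19293195)))
(L (nat_lit 17395041)))
(L (nat_lit 19734016)))
(S (nat_lit 43645) (S (nat_lit 42673) (L (nat_lit 16819837))
(L (nat_lit 6808597)))
(S (nat_lit 43855) (S (nat_lit 1290) (L (nat_lit 18028125))
(L (nat_lit 9139651)))
(L (nat_lit 21398876)))))
(L (nat_lit 27497105)))
(L (nat_lit 23570524)))
(L (nat_lit 20850212)))
(L (nat_lit 30874741)))
(L (nat_lit 26761384)))
(L (nat_lit 26530272)))
(L (nat_lit 23928325)))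
(L (nat_lit 21372704)))
(L (nat_lit 30639853))))
(S (nat_lit 50463) (S (nat_lit 1763) (S (nat_lit 37322) (S (nat_lit 48338) (L (nat_lit 28417614))
(L (nat_lit 27401837)))
(S (nat_lit 43850) (L (nat_lit 7869117))
(L (nat_lit 17598026))))
(S (nat_lit 21527) (S (nat_lit 5294) (L (nat_lit 7833212))
(S (nat_lit 8779) (S (nat_lit 21054) (L (nat_lit 22846639))
(L (nat_lit 7013293)))
(L (nat_lit 8193612))))
(S (nat_lit 41291) (S (nat_lit 12633) (L (nat_lit 17143450))
(S (nat_lit 17571) (L (nat_lit 16021057))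
(L (nat_lit 7213681))))
(L (nat_lit 25734198)))))
(L (nat_lit 25663540)))))
(L (nat_lit 25549905)))))
(S (nat_lit 35137) (S (nat_lit 1262) (S (nat_lit 1986) (S (nat_lit 10999) (S (nat_lit 35135) (S (nat_lit 20783) (S (nat_lit 37322) (L (nat_lit 4070989))
(L (nat_lit 3809134)))
(L (nat_lit 219577)))
(L (nat_lit 23429933)))
(S (nat_lit 30763) (S (nat_lit 56520) (L (nat_lit 13239112))
(S (nat_lit 57024) (S (nat_lit 1748) (L (nat_lit 5937560))
(L (nat_lit 12814103)))
(L (nat_lit 12623613))))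
(S (nat_lit 50527) (S (nat_lit 986) (S (nat_lit 40818) (L (nat_lit 8913847))
(L (nat_lit 859789)))
(L (nat_lit 20742352)))
(L (nat_lit 25540227)))))
(S (nat_lit 21750) (S (nat_lit 21054) (S (nat_lit 19795) (S (nat_lit 39590) (S (nat_lit 1969) (S (nat_lit 40743) (S (nat_lit 1944) (S (nat_lit 1958) (S (nat_lit 40768) (S (nat_lit 30699) (S (nat_lit 41547) (S (nat_lit 15351) (S (nat_lit 1257) (S (nat_lit 41534) (S (nat_lit 14) (S (nat_lit 54837) (S (nat_lit 40757) (S (nat_lit 39592) (S (nat_lit 15340) (S (nat_lit 21490) (S (nat_lit 1765) (S (nat_lit 20767) (S (nat_lit 21479) (S (nat_lit 1776) (S (nat_lit 986) (S (nat_lit 40564) (S (nat_lit 27290) (S (nat_lit 14243) (S (nat_lit 9394) (S (nat_lit 38706) (S (nat_lit 33954) (S (nat_lit 19168) (S (nat_lit 39175) (S (nat_lit 33764) (S (nat_lit 17521) (S (nat_lit 2791) (S (nat_lit 18385) (S (nat_lit 28732) (D (nat_lit 15) (nat_lit 27346505) (nat_lit 25773194) (nat_lit 212735171749))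
(L (nat_lit 27900197)))
(L (nat_lit 27930850)))
(L (nat_lit 27930820)))
(S (nat_lit 57049) (S (nat_lit 40353) (S (nat_lit 12980) (D (nat_lit 11) (nat_lit 25414048) (nat_lit 10227276) (nat_lit 173987338467))
(L (nat_lit 28429864)))
(L (nat_lit 28916004)))
(L (nat_lit 25213576))))
(L (nat_lit 28495335)))
(L (nat_lit 4102611)))
(L (nat_lit 29987210)))
(L (nat_lit 19741802)))
(L (nat_lit 27860353)))
(L (nat_lit 27901281)))
(L (nat_lit 27868513)))
(S (nat_lit 37480) (S (nat_lit 8694) (S (nat_lit 29326) (S (nat_lit 17942) (S (nat_lit 57207) (S (nat_lit 38192) (S (nat_lit 29613) (S (nat_lit 27723) (S (nat_lit 17496) (S (nat_lit 37842) (S (nat_lit 58874) (D (nat_lit 15) (nat_lit 874768) (nat_lit 25741636) (nat_lit 109659096232))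
(L (nat_lit 28911758)))
(L (nat_lit 29073861)))
(S (nat_lit 21193) (S (nat_lit 21868) (S (nat_lit 51067) (D (nat_lit 13) (nat_lit 12325453) (nat_lit 8886034) (nat_lit 8972456299648))
(L (nat_lit 21807110)))
(L (nat_lit 26951873)))
(L (nat_lit 255727))))
(L (nat_lit 27662057)))
(L (nat_lit 4117870)))
(L (nat_lit 9361580)))
(L (nat_lit 20874663)))
(L (nat_lit 29982990)))
(L (nat_lit 20840838)))
(L (nat_lit 29961605)))
(S (nat_lit 57055) (S (nat_lit 5707) (S (nat_lit 48276) (S (nat_lit 23581) (S (nat_lit 23592) (S (nat_lit 44959) (S (nat_lit 29430) (S (nat_lit 11799) (D (nat_lit 15) (nat_lit 27840737) (nat_lit 25761036) (nat_lit 206263491809))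
(L (nat_lit 28944864)))
(S (nat_lit 39759) (S (nat_lit 17425) (S (nat_lit 37847) (D (nat_lit 15) (nat_lit 25416753) (nat_lit 19666346) (nat_lit 2187337991))
(L (nat_lit 19737772)))
(L (nat_lit 29740484)))
(L (nat_lit 9157444))))
(L (nat_lit 9026716)))
(L (nat_lit 2728506)))
(L (nat_lit 2730833)))
(L (nat_lit 14380257)))
(L (nat_lit 27710724)))
(L (nat_lit 5035280)))))
(L (nat_lit 27999493)))
(L (nat_lit 19164176)))
(L (nat_lit 19842059)))
(L (nat_lit 31046662)))
(L (nat_lit 30919872)))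
(L (nat_lit 19840352)))
(S (nat_lit 55682) (S (nat_lit 27432) (S (nat_lit 51881) (L (nat_lit 3458776))
(L (nat_lit 26817860)))
(L (nat_lit 26849538)))
(L (nat_lit 11124856))))
(L (nat_lit 22306929)))
(L (nat_lit 23654595)))
(L (nat_lit 24571943)))
(L (nat_lit 27728608)))
(L (nat_lit 20325468)))
(L (nat_lit 16863048)))
(L (nat_lit 26595843)))
(L (nat_lit 6407768)))
(L (nat_lit 23650347)))
(L (nat_lit 14360385)))
(L (nat_lit 23502657)))
(L (nat_lit 13212733)))
(L (nat_lit 26594691)))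
(L (nat_lit 24311116)))
(L (nat_lit 26597921)))
(L (nat_lit 23922187)))
(L (nat_lit 22486787)))
(S (nat_lit 56413) (L (nat_lit 21044668))
(L (nat_lit 4759475))))
(S (nat_lit 41514) (S (nat_lit 10977) (S (nat_lit 37335) (S (nat_lit 28587) (L (nat_lit 18420582))
(L (nat_lit 8900353)))
(L (nat_lit 9057025)))
(S (nat_lit 30741) (S (nat_lit 17543) (S (nat_lit 8795) (S (nat_lit 10935) (L (nat_lit 16896906))
(L (nat_lit 212788)))
(L (nat_lit 7192260)))
(L (nat_lit 7197220)))
(S (nat_lit 50505) (S (nat_lit 17558) (S (nat_lit 8810) (S (nat_lit 39590) (L (nat_lit 17669300))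
(L (nat_lit 18155226)))
(L (nat_lit 15375549)))
(S (nat_lit 56148) (L (nat_lit 17887846))
(L (nat_lit 24495293))))
(L (nat_lit 25431510)))))
(L (nat_lit 25318955)))))
(S (nat_lit 21026) (S (nat_lit 14) (S (nat_lit 11010) (S (nat_lit 21021) (S (nat_lit 41534) (S (nat_lit 41547) (S (nat_lit 15351) (S (nat_lit 35148) (S (nat_lit 50510) (S (nat_lit 25) (S (nat_lit 15340) (S (nat_lit 35135) (S (nat_lit 50505) (S (nat_lit 10999) (S (nat_lit 21010) (S (nat_lit 41293) (S (nat_lit 20778) (S (nat_lit 41304) (S (nat_lit 20767) (S (nat_lit 14324) (L (nat_lit 9548504))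
(S (nat_lit 40575) (S (nat_lit 40564) (S (nat_lit 40807) (S (nat_lit 40818) (S (nat_lit 21755) (S (nat_lit 39590) (S (nat_lit 1215) (S (nat_lit 1701) (S (nat_lit 1229) (S (nat_lit 21512) (S (nat_lit 21496) (S (nat_lit 19795) (S (nat_lit 54837) (S (nat_lit 30724) (S (nat_lit 986) (S (nat_lit 30699) (S (nat_lit 54862) (S (nat_lit 13481) (S (nat_lit 26983) (S (nat_lit 27712) (S (nat_lit 18171) (S (nat_lit 52735) (S (nat_lit 4837) (S (nat_lit 3774) (S (nat_lit 18131) (S (nat_lit 24551) (D (nat_lit 11) (nat_lit 27796532) (nat_lit 25577827) (nat_lit 77413390374))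
(L (nat_lit 27774272)))
(L (nat_lit 27931904)))
(L (nat_lit 27931968)))
(S (nat_lit 39906) (S (nat_lit 15741) (S (nat_lit 28512) (D (nat_lit 11) (nat_lit 30525862) (nat_lit 25695817) (nat_lit 106438951104))
(L (nat_lit 30933638)))
(L (nat_lit 31045826)))
(L (nat_lit 31169957))))
(L (nat_lit 6720121)))
(L (nat_lit 21830179)))
(L (nat_lit 27303346)))
(L (nat_lit 27302322)))
(S (nat_lit 21944) (S (nat_lit 41655) (S (nat_lit 8779) (S (nat_lit 814) (S (nat_lit 669) (S (nat_lit 16241) (S (nat_lit 57385) (S (nat_lit 57142) (S (nat_lit 40174) (D (nat_lit 11) (nat_lit 30693425) (nat_lit 25769131) (nat_lit 73291467779))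
(L (nat_lit 19743910)))
(L (nat_lit 16665797)))
(L (nat_lit 16665796)))
(L (nat_lit 30000325)))
(L (nat_lit 30000389)))
(S (nat_lit 38814) (S (nat_lit 28743) (S (nat_lit 35547) (S (nat_lit 41816) (D (nat_lit 11) (nat_lit 26561056) (nat_lit 19053321) (nat_lit 173016129))
(L (nat_lit 19098051)))
(L (nat_lit 15584611)))
(L (nat_lit 15583586)))
(L (nat_lit 14723738))))
(L (nat_lit 6685527)))
(L (nat_lit 12784435)))
(S (nat_lit 37977) (S (nat_lit 28840) (S (nat_lit 46535) (S (nat_lit 29099) (S (nat_lit 57682) (S (nat_lit 48635) (S (nat_lit 46278) (S (nat_lit 34504) (S (nat_lit 814) (S (nat_lit 39748) (S (nat_lit 36524) (D (nat_lit 13) (nat_lit 9855554) (nat_lit 11046674) (nat_lit 5642547959904))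
(L (nat_lit 15519782)))
(L (nat_lit 26941888)))
(S (nat_lit 2546) (S (nat_lit 45331) (S (nat_lit 8773) (S (nat_lit 38814) (D (nat_lit 13) (nat_lit 26643146) (nat_lit 25598130) (nat_lit 7787878465))
(L (nat_lit 19373244)))
(L (nat_lit 7097763)))
(L (nat_lit 30060739)))
(L (nat_lit 27544687))))
(L (nat_lit 21554435)))
(L (nat_lit 16666820)))
(L (nat_lit 21372738)))
(L (nat_lit 29871147)))
(L (nat_lit 20166464)))
(L (nat_lit 29861440)))
(L (nat_lit 20181376)))
(L (nat_lit 898634)))))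
(L (nat_lit 11561617)))
(L (nat_lit 9466575)))
(L (nat_lit 2439869)))
(L (nat_lit 9452221)))
(L (nat_lit 11551669)))
(L (nat_lit 16417704)))
(L (nat_lit 7850912)))
(L (nat_lit 7859809)))
(L (nat_lit 13987490)))
(L (nat_lit 13787723)))
(L (nat_lit 13984325)))
(L (nat_lit 6113802)))
(L (nat_lit 14739014)))
(L (nat_lit 771880)))
(L (nat_lit 782726)))
(L (nat_lit 27310420)))
(S (nat_lit 44787) (L (nat_lit 9552573))
(L (nat_lit 18081970)))))
(L (nat_lit 6973888)))
(L (nat_lit 7062404)))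
(L (nat_lit 31111460)))
(S (nat_lit 55176) (S (nat_lit 11657) (S (nat_lit 13778) (L (nat_lit 5584477))
(L (nat_lit 21770592)))
(L (nat_lit 31109312)))
(L (nat_lit 6844501))))
(L (nat_lit 12324526)))
(L (nat_lit 26911789)))
(L (nat_lit 20457217)))
(L (nat_lit 23586986)))
(L (nat_lit 7431788)))
(L (nat_lit 14462690)))
(L (nat_lit 22450426)))
(L (nat_lit 13488417)))
(L (nat_lit 26774087)))
(L (nat_lit 6314459)))
(L (nat_lit 6819670)))
(L (nat_lit 1275628)))
(S (nat_lit 30774) (S (nat_lit 38229) (L (nat_lit 12215684))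
(S (nat_lit 41293) (S (nat_lit 20783) (S (nat_lit 21021) (S (nat_lit 41547) (L (nat_lit 1406484))
(L (nat_lit 16800649)))
(L (nat_lit 6354668)))
(L (nat_lit 30431623)))
(L (nat_lit 17866332))))
(S (nat_lit 50538) (S (nat_lit 14709) (L (nat_lit 13523046))
(S (nat_lit 17571) (S (nat_lit 41243) (S (nat_lit 8790) (L (nat_lit 859792))
(L (nat_lit 6687353)))
(L (nat_lit 6723382)))
(L (nat_lit 7819385))))
(L (nat_lit 25515520)))))
(S (nat_lit 19778) (S (nat_lit 1277) (S (nat_lit 20993) (S (nat_lit 41304) (S (nat_lit 17538) (L (nat_lit 28706164))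
(L (nat_lit 1498023)))
(L (nat_lit 6872964)))
(S (nat_lit 42869) (L (nat_lit 13235271))
(L (nat_lit 6406071))))
(S (nat_lit 21041) (S (nat_lit 20783) (S (nat_lit 8810) (S (nat_lit 17558) (L (nat_lit 15889747))
(L (nat_lit 6440882)))
(L (nat_lit 6445997)))
(S (nat_lit 47263) (L (nat_lit 6896701))
(L (nat_lit 12019265))))
(S (nat_lit 40805) (S (nat_lit 8889) (L (nat_lit 8849082))
(S (nat_lit 28574) (S (nat_lit 30724) (S (nat_lit 40564) (L (nat_lit 28529124))
(L (nat_lit 27316495)))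
(L (nat_lit 8408536)))
(L (nat_lit 13277369))))
(L (nat_lit 25900258)))))
(S (nat_lit 39542) (S (nat_lit 17527) (S (nat_lit 41304) (S (nat_lit 8810) (L (nat_lit 1451709))
(L (nat_lit 26386031)))
(L (nat_lit 28001449)))
(S (nat_lit 37291) (S (nat_lit 20783) (L (nat_lit 29413801))
(L (nat_lit 15638115)))
(S (nat_lit 57055) (S (nat_lit 41293) (S (nat_lit 41304) (L (nat_lit 6929253))
(L (nat_lit 16997250)))
(L (nat_lit 16883324)))
(L (nat_lit 25285901)))))
(L (nat_lit 25763921)))))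
(S (nat_lit 40790) (S (nat_lit 75) (S (nat_lit 1986) (S (nat_lit 20783) (S (nat_lit 8790) (S (nat_lit 17538) (L (nat_lit 4572982))
(L (nat_lit 874886)))
(L (nat_lit 869990)))
(L (nat_lit 21142969)))
(S (nat_lit 21750) (S (nat_lit 20778) (S (nat_lit 14) (S (nat_lit 21527) (S (nat_lit 41229) (S (nat_lit 8748) (L (nat_lit 28903878))
(L (nat_lit 8159888)))
(L (nat_lit 24573220)))
(L (nat_lit 733040)))
(S (nat_lit 57393) (L (nat_lit 8161815))
(L (nat_lit 6929253))))
(S (nat_lit 24742) (L (nat_lit 259789))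
(L (nat_lit 712941))))
(S (nat_lit 41514) (S (nat_lit 8810) (S (nat_lit 17558) (L (nat_lit 8311820))
(L (nat_lit 935250)))
(L (nat_lit 940365)))
(L (nat_lit 25410578)))))
(S (nat_lit 19839) (S (nat_lit 1763) (S (nat_lit 40525) (S (nat_lit 21722) (L (nat_lit 9864892))
(L (nat_lit 14803191)))
(L (nat_lit 27411765)))
(S (nat_lit 21527) (S (nat_lit 2629) (L (nat_lit 9496144))
(S (nat_lit 20778) (S (nat_lit 14) (S (nat_lit 40785) (S (nat_lit 48307) (L (nat_lit 16558196))
(L (nat_lit 27860081)))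
(L (nat_lit 7833363)))
(L (nat_lit 807371)))
(L (nat_lit 15913768))))
(S (nat_lit 41291) (S (nat_lit 11409) (L (nat_lit 18902566))
(S (nat_lit 21755) (S (nat_lit 21512) (S (nat_lit 10352) (L (nat_lit 29851954))
(L (nat_lit 24266045)))
(L (nat_lit 500630)))
(L (nat_lit 30868070))))
(L (nat_lit 25367280)))))
(S (nat_lit 39603) (S (nat_lit 15371) (S (nat_lit 16673) (S (nat_lit 21043) (L (nat_lit 1529771))
(L (nat_lit 6321775)))
(S (nat_lit 41254) (S (nat_lit 2166) (L (nat_lit 17368380))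
(S (nat_lit 16688) (L (nat_lit 6786932))
(L (nat_lit 287469))))
(L (nat_lit 27711527))))
(S (nat_lit 35135) (S (nat_lit 15340) (S (nat_lit 10999) (S (nat_lit 50510) (S (nat_lit 20993) (S (nat_lit 21739) (S (nat_lit 1277) (S (nat_lit 54862) (S (nat_lit 30724) (S (nat_lit 19806) (S (nat_lit 54851) (S (nat_lit 30713) (S (nat_lit 986) (S (nat_lit 40562) (S (nat_lit 41254) (S (nat_lit 21529) (S (nat_lit 17558) (S (nat_lit 21755) (S (nat_lit 3633) (S (nat_lit 25974) (S (nat_lit 23106) (S (nat_lit 45445) (S (nat_lit 14) (S (nat_lit 28587) (S (nat_lit 28574) (S (nat_lit 1279) (S (nat_lit 45456) (S (nat_lit 30699) (S (nat_lit 20871) (S (nat_lit 48689) (S (nat_lit 12975) (D (nat_lit 15) (nat_lit 25384080) (nat_lit 19664298) (nat_lit 1144000645))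
(L (nat_lit 28625283)))
(L (nat_lit 19773762)))
(S (nat_lit 45773) (S (nat_lit 9666) (S (nat_lit 51327) (D (nat_lit 15) (nat_lit 30920710) (nat_lit 25758988) (nat_lit 103287984257))
(L (nat_lit 28938792)))
(L (nat_lit 31009216)))
(L (nat_lit 16895258))))
(L (nat_lit 25034991)))
(L (nat_lit 16623730)))
(L (nat_lit 14602564)))
(L (nat_lit 24295771)))
(L (nat_lit 24942119)))
(L (nat_lit 841194)))
(L (nat_lit 2475925)))
(L (nat_lit 3784060)))
(L (nat_lit 24161788)))
(L (nat_lit 30092771)))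
(L (nat_lit 21488742)))
(S (nat_lit 37322) (S (nat_lit 41243) (S (nat_lit 40774) (S (nat_lit 20767) (S (nat_lit 41534) (S (nat_lit 28161) (S (nat_lit 48318) (S (nat_lit 57049) (S (nat_lit 658) (S (nat_lit 9151) (S (nat_lit 20196) (S (nat_lit 35790) (S (nat_lit 9821) (S (nat_lit 26751) (D (nat_lit 13) (nat_lit 27544593) (nat_lit 25758956) (nat_lit 6807624914152))
(L (nat_lit 28000547)))
(L (nat_lit 28399049)))
(L (nat_lit 9293280)))
(L (nat_lit 19838149)))
(L (nat_lit 28947813)))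
(S (nat_lit 12964) (S (nat_lit 10366) (S (nat_lit 26994) (S (nat_lit 10793) (S (nat_lit 35547) (S (nat_lit 20439) (D (nat_lit 13) (nat_lit 27544593) (nat_lit 25759142) (nat_lit 6807624914152))
(L (nat_lit 27930944)))
(L (nat_lit 27865094)))
(L (nat_lit 27577858)))
(L (nat_lit 27675840)))
(L (nat_lit 27899074)))
(L (nat_lit 16950874))))
(L (nat_lit 18917849)))
(L (nat_lit 20858023)))
(L (nat_lit 20508964)))
(L (nat_lit 6835970)))
(L (nat_lit 12218383)))
(L (nat_lit 27627183)))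
(L (nat_lit 9294864)))
(S (nat_lit 57086) (S (nat_lit 28554) (S (nat_lit 37291) (S (nat_lit 39590) (S (nat_lit 12353) (S (nat_lit 17159) (S (nat_lit 19795) (S (nat_lit 40774) (S (nat_lit 20979) (S (nat_lit 56424) (S (nat_lit 31907) (S (nat_lit 17510) (S (nat_lit 34493) (S (nat_lit 18439) (S (nat_lit 42560) (D (nat_lit 15) (nat_lit 30722191) (nat_lit 25761036) (nat_lit 104427786370))
(L (nat_lit 19808481)))
(L (nat_lit 29990338)))
(S (nat_lit 57437) (S (nat_lit 48932) (S (nat_lit 33959) (D (nat_lit 15) (nat_lit 30430730) (nat_lit 18997516) (nat_lit 76337453253))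
(L (nat_lit 28395913)))
(L (nat_lit 19773733)))
(L (nat_lit 26414546))))
(L (nat_lit 22852869)))
(L (nat_lit 3630421)))
(L (nat_lit 2672893)))
(L (nat_lit 31044867)))
(L (nat_lit 27729973)))
(L (nat_lit 9896885)))
(L (nat_lit 28908929)))
(L (nat_lit 31004716)))
(L (nat_lit 10677968)))
(L (nat_lit 20874509)))
(L (nat_lit 19828135)))
(L (nat_lit 25822602)))))
(L (nat_lit 14967360)))
(L (nat_lit 27869287)))
(L (nat_lit 27806947)))
(S (nat_lit 22850) (S (nat_lit 53582) (S (nat_lit 36691) (L (nat_lit 3421850))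
(L (nat_lit 26819779)))
(L (nat_lit 26851521)))
(L (nat_lit 10643958))))
(L (nat_lit 2967854)))
(L (nat_lit 4908335)))
(L (nat_lit 15815463)))
(L (nat_lit 30921897)))
(L (nat_lit 14586505)))
(L (nat_lit 26940967)))
(L (nat_lit 7400111)))
(L (nat_lit 22437927)))
(L (nat_lit 22112492)))
(L (nat_lit 26911757)))
(S (nat_lit 15988) (L (nat_lit 3817787))
(L (nat_lit 891596))))
(S (nat_lit 54899) (S (nat_lit 8779) (L (nat_lit 3939920))
(L (nat_lit 596378)))
(L (nat_lit 25763237)))))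
(L (nat_lit 25712897)))))
(L (nat_lit 25385136)))))
(S (nat_lit 54901) (S (nat_lit 42) (S (nat_lit 1229) (S (nat_lit 62) (S (nat_lit 37260) (L (nat_lit 11339287))
(L (nat_lit 13829973)))
(S (nat_lit 19826) (S (nat_lit 57086) (S (nat_lit 48338) (L (nat_lit 30770796))
(L (nat_lit 14504074)))
(L (nat_lit 19741834)))
(S (nat_lit 39590) (S (nat_lit 18816) (L (nat_lit 17059994))
(S (nat_lit 41293) (S (nat_lit 21021) (S (nat_lit 21750) (S (nat_lit 21507) (S (nat_lit 41503) (S (nat_lit 13752) (L (nat_lit 13993725))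
(L (nat_lit 1653977)))
(L (nat_lit 17124225)))
(L (nat_lit 6051021)))
(L (nat_lit 1845996)))
(L (nat_lit 6751994)))
(L (nat_lit 17059929))))
(L (nat_lit 25539734)))))
(S (nat_lit 20993) (S (nat_lit 10982) (S (nat_lit 1958) (S (nat_lit 1279) (S (nat_lit 30699) (S (nat_lit 50488) (S (nat_lit 19795) (S (nat_lit 21708) (S (nat_lit 40818) (S (nat_lit 41497) (S (nat_lit 21026) (S (nat_lit 10554) (S (nat_lit 12520) (S (nat_lit 58689) (L (nat_lit 17869498))
(L (nat_lit 29995298)))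
(L (nat_lit 27865379)))
(S (nat_lit 38459) (L (nat_lit 5453433))
(L (nat_lit 5558158))))
(L (nat_lit 7264369)))
(L (nat_lit 7264772)))
(L (nat_lit 17571459)))
(L (nat_lit 22344069)))
(L (nat_lit 3420948)))
(L (nat_lit 19970393)))
(L (nat_lit 19727567)))
(L (nat_lit 20233988)))
(S (nat_lit 38373) (L (nat_lit 4813005))
(L (nat_lit 26819810))))
(S (nat_lit 30746) (S (nat_lit 19354) (L (nat_lit 29642864))
(S (nat_lit 21708) (S (nat_lit 40575) (S (nat_lit 19789) (L (nat_lit 26804744))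
(L (nat_lit 22883843)))
(L (nat_lit 1367949)))
(L (nat_lit 8276141))))
(S (nat_lit 50510) (S (nat_lit 28559) (L (nat_lit 1817917))
(L (nat_lit 18955481)))
(L (nat_lit 25694923)))))
(S (nat_lit 40757) (S (nat_lit 972) (S (nat_lit 28559) (L (nat_lit 2375388))
(L (nat_lit 18988938)))
(S (nat_lit 20736) (S (nat_lit 10554) (S (nat_lit 57086) (L (nat_lit 12738471))
(L (nat_lit 19742020)))
(S (nat_lit 21479) (S (nat_lit 14) (L (nat_lit 14766426))
(L (nat_lit 7945308)))
(L (nat_lit 7421625))))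
(S (nat_lit 40500) (S (nat_lit 21619) (L (nat_lit 1582681))
(S (nat_lit 40575) (S (nat_lit 21708) (S (nat_lit 1290) (S (nat_lit 30741) (S (nat_lit 41503) (S (nat_lit 21010) (S (nat_lit 28949) (L (nat_lit 7392761))
(L (nat_lit 30121101)))
(L (nat_lit 1518516)))
(L (nat_lit 17034913)))
(L (nat_lit 24573281)))
(L (nat_lit 18969965)))
(L (nat_lit 1919277)))
(L (nat_lit 16898954))))
(L (nat_lit 25305523)))))
(L (nat_lit 25432752)))))
(S (nat_lit 19806) (S (nat_lit 8779) (S (nat_lit 1215) (S (nat_lit 21021) (S (nat_lit 972) (S (nat_lit 41304) (L (nat_lit 15996508))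
(L (nat_lit 23332652)))
(L (nat_lit 8806980)))
(S (nat_lit 21831) (L (nat_lit 3546932))
(L (nat_lit 7004677))))
(S (nat_lit 20979) (S (nat_lit 38601) (L (nat_lit 938257))
(S (nat_lit 57055) (S (nat_lit 21021) (L (nat_lit 21053322))
(L (nat_lit 22480746)))
(L (nat_lit 21404796))))
(S (nat_lit 40743) (S (nat_lit 21750) (S (nat_lit 57071) (S (nat_lit 40575) (L (nat_lit 1909139))
(L (nat_lit 3400146)))
(L (nat_lit 27572242)))
(S (nat_lit 32845) (L (nat_lit 900679))
(L (nat_lit 2013459))))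
(L (nat_lit 25564746)))))
(S (nat_lit 28543) (S (nat_lit 25) (S (nat_lit 28559) (S (nat_lit 1958) (S (nat_lit 1969) (S (nat_lit 37291) (L (nat_lit 13205880))
(L (nat_lit 20880464)))
(L (nat_lit 13179780)))
(L (nat_lit 13174108)))
(S (nat_lit 39443) (L (nat_lit 563899))
(L (nat_lit 30970506))))
(S (nat_lit 19789) (S (nat_lit 14) (S (nat_lit 9397) (L (nat_lit 11090108))
(S (nat_lit 20778) (S (nat_lit 40818) (L (nat_lit 28607026))
(L (nat_lit 17570867)))
(L (nat_lit 217626))))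
(S (nat_lit 58689) (L (nat_lit 19052924))
(L (nat_lit 26464740))))
(S (nat_lit 39553) (S (nat_lit 1776) (S (nat_lit 35135) (L (nat_lit 26641780))
(L (nat_lit 13179684)))
(S (nat_lit 21540) (S (nat_lit 17527) (L (nat_lit 26327782))
(L (nat_lit 26510957)))
(S (nat_lit 41304) (S (nat_lit 35135) (S (nat_lit 57086) (S (nat_lit 19839) (L (nat_lit 13501779))
(L (nat_lit 9167981)))
(L (nat_lit 5062283)))
(L (nat_lit 18652740)))
(L (nat_lit 25691819)))))
(L (nat_lit 25417871)))))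
(S (nat_lit 48307) (S (nat_lit 1969) (S (nat_lit 17543) (S (nat_lit 986) (S (nat_lit 30746) (S (nat_lit 54862) (L (nat_lit 27966635))
(L (nat_lit 16634178)))
(L (nat_lit 30840019)))
(L (nat_lit 10884796)))
(S (nat_lit 56912) (S (nat_lit 51869) (L (nat_lit 7112117))
(L (nat_lit 17715557)))
(L (nat_lit 18109221))))
(S (nat_lit 21733) (S (nat_lit 20783) (S (nat_lit 21021) (L (nat_lit 15271132))
(L (nat_lit 1719612)))
(S (nat_lit 58094) (L (nat_lit 24413595))
(L (nat_lit 5760583))))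
(S (nat_lit 41497) (S (nat_lit 17543) (S (nat_lit 10949) (S (nat_lit 40807) (S (nat_lit 41293) (S (nat_lit 17510) (L (nat_lit 22878220))
(L (nat_lit 223668)))
(L (nat_lit 27460020)))
(L (nat_lit 27269556)))
(S (nat_lit 53811) (L (nat_lit 5645053))
(L (nat_lit 26414828))))
(S (nat_lit 37224) (S (nat_lit 25442) (L (nat_lit 16786137))
(L (nat_lit 24385324)))
(L (nat_lit 24426556))))
(L (nat_lit 25528884)))))
(L (nat_lit 25723464)))))
(S (nat_lit 39570) (S (nat_lit 15351) (S (nat_lit 62) (S (nat_lit 17543) (L (nat_lit 24190397))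
(S (nat_lit 44587) (L (nat_lit 4569011))
(L (nat_lit 6737948))))
(S (nat_lit 19826) (S (nat_lit 10935) (S (nat_lit 695) (L (nat_lit 19219200))
(S (nat_lit 30741) (L (nat_lit 3677784))
(L (nat_lit 24409265))))
(L (nat_lit 840166)))
(S (nat_lit 39590) (S (nat_lit 18340) (L (nat_lit 23969124))
(S (nat_lit 48323) (S (nat_lit 20778) (S (nat_lit 40575) (L (nat_lit 15539251))
(L (nat_lit 27561645)))
(L (nat_lit 21773540)))
(L (nat_lit 27344115))))
(L (nat_lit 25495249)))))
(S (nat_lit 35115) (S (nat_lit 10949) (S (nat_lit 125) (S (nat_lit 7467) (L (nat_lit 7457305))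
(L (nat_lit 19972010)))
(S (nat_lit 48323) (S (nat_lit 41497) (S (nat_lit 21708) (L (nat_lit 5873053))
(L (nat_lit 16327804)))
(L (nat_lit 27575317)))
(L (nat_lit 27547141))))
(S (nat_lit 30713) (S (nat_lit 1765) (S (nat_lit 21054) (S (nat_lit 40768) (S (nat_lit 57071) (L (nat_lit 22843758))
(L (nat_lit 6171374)))
(L (nat_lit 24382009)))
(L (nat_lit 22578090)))
(S (nat_lit 21529) (S (nat_lit 37335) (L (nat_lit 9466290))
(L (nat_lit 17617153)))
(S (nat_lit 41293) (S (nat_lit 48276) (L (nat_lit 6050158))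
(L (nat_lit 4857774)))
(L (nat_lit 25214261)))))
(S (nat_lit 50477) (S (nat_lit 30796) (L (nat_lit 15943769))
(S (nat_lit 35098) (S (nat_lit 64) (S (nat_lit 8773) (S (nat_lit 40531) (S (nat_lit 8790) (L (nat_lit 16863512))
(L (nat_lit 17539969)))
(L (nat_lit 7517881)))
(S (nat_lit 28537) (S (nat_lit 41519) (L (nat_lit 17714216))
(L (nat_lit 23994786)))
(S (nat_lit 48301) (S (nat_lit 37291) (S (nat_lit 8795) (L (nat_lit 16863512))
(L (nat_lit 7158803)))
(L (nat_lit 16866621)))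
(L (nat_lit 25826729)))))
(L (nat_lit 26557492)))
(L (nat_lit 12634984))))
(L (nat_lit 25215563)))))
(S (nat_lit 54879) (S (nat_lit 10949) (S (nat_lit 20783) (S (nat_lit 15340) (S (nat_lit 13818) (L (nat_lit 26792227))
(S (nat_lit 41293) (S (nat_lit 40500) (S (nat_lit 41291) (L (nat_lit 17040311))
(L (nat_lit 27462353)))
(L (nat_lit 25014530)))
(L (nat_lit 17060709))))
(L (nat_lit 14967891)))
(S (nat_lit 34768) (S (nat_lit 15340) (L (nat_lit 24266107))
(L (nat_lit 22308227)))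
(L (nat_lit 12248449))))
(S (nat_lit 30713) (S (nat_lit 1082) (S (nat_lit 41623) (L (nat_lit 4927801))
(L (nat_lit 8097209)))
(S (nat_lit 20783) (S (nat_lit 15340) (S (nat_lit 28175) (L (nat_lit 5534162))
(L (nat_lit 8517200)))
(L (nat_lit 22298747)))
(L (nat_lit 21357985))))
(S (nat_lit 50477) (S (nat_lit 2032) (S (nat_lit 11894) (L (nat_lit 325199))
(L (nat_lit 8260334)))
(S (nat_lit 21733) (S (nat_lit 15309) (S (nat_lit 19839) (S (nat_lit 35148) (S (nat_lit 15340) (S (nat_lit 54899) (S (nat_lit 35087) (S (nat_lit 10960) (S (nat_lit 30746) (S (nat_lit 30763) (S (nat_lit 20338) (L (nat_lit 6804289))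
(S (nat_lit 58128) (L (nat_lit 19402043))
(L (nat_lit 24340559))))
(L (nat_lit 24273385)))
(L (nat_lit 24417102)))
(L (nat_lit 18656434)))
(L (nat_lit 9172047)))
(L (nat_lit 5004715)))
(L (nat_lit 14767977)))
(L (nat_lit 23213991)))
(L (nat_lit 21327297)))
(L (nat_lit 22552353)))
(L (nat_lit 10905316))))
(L (nat_lit 25889195)))))
(L (nat_lit 25240142)))))
(L (nat_lit 25660102)))))
(L (nat_lit 25824460)))))
(S (nat_lit 35120) (S (nat_lit 8790) (S (nat_lit 1290) (S (nat_lit 1732) (S (nat_lit 15334) (S (nat_lit 17538) (S (nat_lit 8690) (L (nat_lit 651537))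
(S (nat_lit 8823) (S (nat_lit 42) (L (nat_lit 6317741))
(L (nat_lit 20036953)))
(L (nat_lit 6747712))))
(L (nat_lit 16452985)))
(L (nat_lit 26757288)))
(S (nat_lit 21496) (S (nat_lit 1701) (S (nat_lit 30741) (S (nat_lit 19795) (S (nat_lit 997) (S (nat_lit 17538) (S (nat_lit 39590) (S (nat_lit 39542) (S (nat_lit 40500) (S (nat_lit 19828) (S (nat_lit 50527) (S (nat_lit 28576) (S (nat_lit 32594) (S (nat_lit 20798) (S (nat_lit 52386) (S (nat_lit 16364) (S (nat_lit 32588) (S (nat_lit 55708) (S (nat_lit 27762) (S (nat_lit 27714) (S (nat_lit 10068) (D (nat_lit 15) (nat_lit 30626272) (nat_lit 2372370) (nat_lit 8729402502))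
(L (nat_lit 28792037)))
(L (nat_lit 27932993)))
(S (nat_lit 29689) (S (nat_lit 38923) (S (nat_lit 22319) (D (nat_lit 15) (nat_lit 30498161) (nat_lit 19664296) (nat_lit 77484593281))
(L (nat_lit 23491905)))
(L (nat_lit 27902213)))
(L (nat_lit 21114732))))
(L (nat_lit 8908416)))
(L (nat_lit 29657557)))
(L (nat_lit 20210113)))
(L (nat_lit 29763235)))
(L (nat_lit 21504057)))
(L (nat_lit 29967400)))
(L (nat_lit 3982578)))
(L (nat_lit 22423458)))
(L (nat_lit 2631261)))
(L (nat_lit 7424876)))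
(L (nat_lit 27676933)))
(L (nat_lit 18632037)))
(L (nat_lit 22112623)))
(L (nat_lit 20202368)))
(L (nat_lit 8473048)))
(S (nat_lit 44987) (L (nat_lit 18922343))
(L (nat_lit 30853255))))
(S (nat_lit 21465) (S (nat_lit 35135) (S (nat_lit 1743) (S (nat_lit 17571) (L (nat_lit 21218460))
(L (nat_lit 7229857)))
(L (nat_lit 13442098)))
(L (nat_lit 31005837)))
(S (nat_lit 41229) (S (nat_lit 20783) (S (nat_lit 40542) (S (nat_lit 1743) (S (nat_lit 35135) (L (nat_lit 9105453))
(L (nat_lit 23888298)))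
(L (nat_lit 12609810)))
(L (nat_lit 18754674)))
(L (nat_lit 224695)))
(L (nat_lit 25250219)))))
(S (nat_lit 41260) (S (nat_lit 1975) (S (nat_lit 40575) (S (nat_lit 39590) (L (nat_lit 17870521))
(L (nat_lit 18576555)))
(L (nat_lit 27823786)))
(S (nat_lit 21739) (S (nat_lit 8810) (S (nat_lit 20767) (L (nat_lit 16785085))
(L (nat_lit 7080436)))
(L (nat_lit 1566378)))
(S (nat_lit 41503) (S (nat_lit 8836) (L (nat_lit 19307677))
(S (nat_lit 35135) (S (nat_lit 1014) (S (nat_lit 17571) (S (nat_lit 41293) (L (nat_lit 8913661))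
(L (nat_lit 27827348)))
(L (nat_lit 7229857)))
(L (nat_lit 20102026)))
(L (nat_lit 9208306))))
(L (nat_lit 25867399)))))
(L (nat_lit 25179476)))))
(S (nat_lit 21054) (S (nat_lit 17538) (S (nat_lit 20750) (S (nat_lit 42) (S (nat_lit 41229) (S (nat_lit 41497) (S (nat_lit 15334) (S (nat_lit 17571) (S (nat_lit 40768) (S (nat_lit 20979) (S (nat_lit 50527) (S (nat_lit 8748) (S (nat_lit 20798) (S (nat_lit 21479) (S (nat_lit 21750) (S (nat_lit 21021) (S (nat_lit 11372) (S (nat_lit 41503) (S (nat_lit 15373) (S (nat_lit 50668) (S (nat_lit 39590) (S (nat_lit 57071) (S (nat_lit 19795) (S (nat_lit 27242) (S (nat_lit 3560) (S (nat_lit 50102) (S (nat_lit 33212) (S (nat_lit 18145) (D (nat_lit 13) (nat_lit 27577521) (nat_lit 1850955) (nat_lit 207302626465))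
(L (nat_lit 29613601)))
(L (nat_lit 18764874)))
(L (nat_lit 10378720)))
(L (nat_lit 28032352)))
(S (nat_lit 39331) (S (nat_lit 14462) (S (nat_lit 18642) (S (nat_lit 39346) (S (nat_lit 48138) (D (nat_lit 13) (nat_lit 27447849) (nat_lit 19259505) (nat_lit 1280002163936))
(L (nat_lit 6318704)))
(L (nat_lit 19097613)))
(L (nat_lit 29936834)))
(L (nat_lit 27901154)))
(L (nat_lit 8840307))))
(L (nat_lit 2781672)))
(L (nat_lit 12456620)))
(L (nat_lit 17156932)))
(L (nat_lit 10373504)))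
(L (nat_lit 1989064)))
(L (nat_lit 477433)))
(L (nat_lit 1332046)))
(L (nat_lit 2014514)))
(L (nat_lit 1752284)))
(L (nat_lit 315865)))
(L (nat_lit 14912311)))
(L (nat_lit 213780)))
(L (nat_lit 27641869)))
(L (nat_lit 1685322)))
(L (nat_lit 350745)))
(L (nat_lit 16348262)))
(L (nat_lit 764812)))
(L (nat_lit 598556)))
(L (nat_lit 18729316)))
(L (nat_lit 12670854)))
(L (nat_lit 16580982)))
(L (nat_lit 6371223)))
(S (nat_lit 40818) (S (nat_lit 17510) (S (nat_lit 21527) (S (nat_lit 20800) (S (nat_lit 64) (S (nat_lit 35098) (L (nat_lit 20243632))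
(L (nat_lit 12832925)))
(L (nat_lit 7072130)))
(L (nat_lit 7045528)))
(L (nat_lit 8107065)))
(S (nat_lit 37274) (S (nat_lit 15373) (S (nat_lit 17496) (S (nat_lit 39559) (S (nat_lit 39575) (S (nat_lit 21540) (L (nat_lit 19072507))
(L (nat_lit 8182796)))
(L (nat_lit 18667716)))
(L (nat_lit 24380302)))
(S (nat_lit 51144) (L (nat_lit 9170061))
(L (nat_lit 7128737))))
(S (nat_lit 35137) (S (nat_lit 10935) (S (nat_lit 41304) (S (nat_lit 21783) (L (nat_lit 2869129))
(L (nat_lit 8176786)))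
(L (nat_lit 8937490)))
(L (nat_lit 727545)))
(S (nat_lit 54901) (S (nat_lit 17571) (S (nat_lit 21755) (S (nat_lit 50527) (S (nat_lit 39592) (S (nat_lit 21010) (L (nat_lit 29530517))
(L (nat_lit 7091876)))
(L (nat_lit 28025250)))
(L (nat_lit 13437640)))
(L (nat_lit 1858929)))
(S (nat_lit 56938) (L (nat_lit 17979271))
(L (nat_lit 411961))))
(L (nat_lit 25306646)))))
(S (nat_lit 57038) (S (nat_lit 997) (S (nat_lit 40575) (S (nat_lit 41293) (S (nat_lit 41260) (S (nat_lit 1958) (S (nat_lit 21750) (S (nat_lit 2006) (S (nat_lit 15334) (S (nat_lit 40785) (S (nat_lit 1279) (S (nat_lit 75) (S (nat_lit 19789) (S (nat_lit 21041) (S (nat_lit 10982) (S (nat_lit 30774) (S (nat_lit 17496) (S (nat_lit 36614) (S (nat_lit 4596) (S (nat_lit 47268) (S (nat_lit 52532) (S (nat_lit 49442) (S (nat_lit 24039) (S (nat_lit 13945) (D (nat_lit 13) (nat_lit 25801833) (nat_lit 19275525) (nat_lit 2253561092))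
(L (nat_lit 27966534)))
(L (nat_lit 24619845)))
(L (nat_lit 30122528)))
(L (nat_lit 22953285)))
(L (nat_lit 30131525)))
(S (nat_lit 54478) (S (nat_lit 57941) (S (nat_lit 45096) (S (nat_lit 39298) (S (nat_lit 48238) (D (nat_lit 13) (nat_lit 26978852) (nat_lit 25767397) (nat_lit 242699370758))
(L (nat_lit 29953449)))
(L (nat_lit 28629505)))
(L (nat_lit 21458211)))
(L (nat_lit 24033569)))
(L (nat_lit 12721075))))
(L (nat_lit 26977732)))
(L (nat_lit 6317807)))
(L (nat_lit 8786708)))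
(L (nat_lit 18420490)))
(L (nat_lit 6835040)))
(L (nat_lit 8786740)))
(L (nat_lit 2022855)))
(L (nat_lit 9144079)))
(L (nat_lit 18215621)))
(L (nat_lit 7049659)))
(L (nat_lit 20000316)))
(L (nat_lit 4991506)))
(L (nat_lit 13180060)))
(L (nat_lit 18755205)))
(L (nat_lit 24700042)))
(L (nat_lit 24682372)))
(S (nat_lit 30591) (L (nat_lit 8899460))
(L (nat_lit 20005771))))
(L (nat_lit 25928780)))))
(L (nat_lit 25889132)))))
(S (nat_lit 28554) (S (nat_lit 10960) (S (nat_lit 15384) (S (nat_lit 17510) (S (nat_lit 21479) (L (nat_lit 603047))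
(L (nat_lit 21296144)))
(S (nat_lit 37274) (S (nat_lit 17127) (L (nat_lit 12915289))
(S (nat_lit 40768) (S (nat_lit 64) (L (nat_lit 28878434))
(L (nat_lit 8273475)))
(L (nat_lit 18455641))))
(S (nat_lit 57038) (S (nat_lit 20800) (S (nat_lit 64) (S (nat_lit 15340) (S (nat_lit 57099) (S (nat_lit 35098) (S (nat_lit 50463) (S (nat_lit 41472) (S (nat_lit 50477) (S (nat_lit 20736) (S (nat_lit 10977) (S (nat_lit 1229) (L (nat_lit 3454586))
(L (nat_lit 26400112)))
(L (nat_lit 16027257)))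
(L (nat_lit 6713956)))
(L (nat_lit 27838724)))
(L (nat_lit 27891053)))
(L (nat_lit 13468916)))
(L (nat_lit 9168291)))
(L (nat_lit 27733600)))
(L (nat_lit 7923298)))
(L (nat_lit 7245422)))
(L (nat_lit 7191136)))
(L (nat_lit 25221643)))))
(S (nat_lit 35148) (S (nat_lit 15373) (S (nat_lit 21479) (S (nat_lit 57071) (L (nat_lit 13309305))
(L (nat_lit 12702634)))
(S (nat_lit 36444) (L (nat_lit 2890350))
(L (nat_lit 316336))))
(S (nat_lit 35137) (S (nat_lit 21569) (L (nat_lit 18652339))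
(S (nat_lit 41243) (S (nat_lit 28559) (S (nat_lit 40564) (S (nat_lit 8748) (L (nat_lit 2352752))
(L (nat_lit 7098382)))
(L (nat_lit 23861326)))
(L (nat_lit 3063029)))
(L (nat_lit 23389360))))
(S (nat_lit 54901) (S (nat_lit 36003) (L (nat_lit 2701098))
(S (nat_lit 41293) (S (nat_lit 40564) (S (nat_lit 17527) (L (nat_lit 3954088))
(L (nat_lit 6743650)))
(L (nat_lit 17570405)))
(L (nat_lit 9180782))))
(L (nat_lit 25513475)))))
(S (nat_lit 54912) (S (nat_lit 17521) (S (nat_lit 8726) (L (nat_lit 30462192))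
(S (nat_lit 8762) (S (nat_lit 85) (L (nat_lit 2924111))
(S (nat_lit 19795) (S (nat_lit 57099) (S (nat_lit 39590) (S (nat_lit 30746) (S (nat_lit 15334) (S (nat_lit 30699) (S (nat_lit 40575) (S (nat_lit 50527) (S (nat_lit 54901) (S (nat_lit 35135) (S (nat_lit 41260) (L (nat_lit 6472285))
(L (nat_lit 27964645)))
(L (nat_lit 18188084)))
(L (nat_lit 27774146)))
(L (nat_lit 27964610)))
(S (nat_lit 58906) (S (nat_lit 40542) (S (nat_lit 19088) (L (nat_lit 2310873))
(L (nat_lit 20355228)))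
(L (nat_lit 27447850)))
(L (nat_lit 17555812))))
(L (nat_lit 14489652)))
(L (nat_lit 26429922)))
(L (nat_lit 16853845)))
(L (nat_lit 23921194)))
(L (nat_lit 27674912)))
(L (nat_lit 9176565))))
(L (nat_lit 209781))))
(S (nat_lit 37285) (S (nat_lit 30409) (L (nat_lit 6040177))
(S (nat_lit 39542) (S (nat_lit 8748) (S (nat_lit 17496) (S (nat_lit 17560) (S (nat_lit 40542) (S (nat_lit 41293) (L (nat_lit 29642768))
(L (nat_lit 18109532)))
(L (nat_lit 23556322)))
(L (nat_lit 25081026)))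
(L (nat_lit 7128737)))
(L (nat_lit 6345177)))
(L (nat_lit 27676932))))
(S (nat_lit 57049) (S (nat_lit 18820) (S (nat_lit 58147) (S (nat_lit 48960) (L (nat_lit 6380333))
(L (nat_lit 12700584)))
(L (nat_lit 9188435)))
(S (nat_lit 39542) (S (nat_lit 29713) (L (nat_lit 318973))
(S (nat_lit 40542) (S (nat_lit 17560) (S (nat_lit 41243) (L (nat_lit 5625402))
(L (nat_lit 24483632)))
(L (nat_lit 16346339)))
(L (nat_lit 27766500))))
(L (nat_lit 4407094))))
(L (nat_lit 25210326)))))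
(L (nat_lit 25340309)))))
(S (nat_lit 30724) (S (nat_lit 1732) (S (nat_lit 1290) (S (nat_lit 1958) (S (nat_lit 35115) (S (nat_lit 37260) (L (nat_lit 30495241))
(L (nat_lit 9994938)))
(L (nat_lit 2828142)))
(L (nat_lit 19665350)))
(S (nat_lit 21054) (S (nat_lit 57066) (S (nat_lit 21540) (S (nat_lit 20750) (L (nat_lit 30717109))
(L (nat_lit 6373017)))
(L (nat_lit 30628292)))
(L (nat_lit 10937493)))
(S (nat_lit 40818) (S (nat_lit 40575) (S (nat_lit 48323) (L (nat_lit 19065290))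
(L (nat_lit 28021194)))
(L (nat_lit 18122547)))
(L (nat_lit 25182890)))))
(S (nat_lit 21496) (S (nat_lit 17538) (S (nat_lit 20783) (S (nat_lit 40514) (L (nat_lit 29477197))
(L (nat_lit 23506104)))
(L (nat_lit 973191)))
(S (nat_lit 37302) (S (nat_lit 1715) (S (nat_lit 1701) (S (nat_lit 17521) (L (nat_lit 3054007))
(L (nat_lit 8108219)))
(L (nat_lit 10275236)))
(S (nat_lit 11144) (L (nat_lit 3431342))
(L (nat_lit 12659356))))
(S (nat_lit 57066) (S (nat_lit 54899) (S (nat_lit 20750) (S (nat_lit 41304) (L (nat_lit 14361376))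
(L (nat_lit 27548845)))
(L (nat_lit 30856359)))
(L (nat_lit 19677354)))
(L (nat_lit 25698880)))))
(S (nat_lit 41260) (S (nat_lit 15351) (S (nat_lit 57099) (S (nat_lit 40564) (S (nat_lit 10977) (L (nat_lit 27340308))
(L (nat_lit 290479)))
(L (nat_lit 17879385)))
(L (nat_lit 13440615)))
(S (nat_lit 35115) (S (nat_lit 40807) (S (nat_lit 39553) (L (nat_lit 312953))
(L (nat_lit 25078958)))
(L (nat_lit 24915118)))
(S (nat_lit 54879) (S (nat_lit 15642) (L (nat_lit 18584358))
(S (nat_lit 40774) (S (nat_lit 37302) (S (nat_lit 28574) (L (nat_lit 24680234))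
(L (nat_lit 31111338)))
(L (nat_lit 14382433)))
(L (nat_lit 18028217))))
(L (nat_lit 25800871)))))
(L (nat_lit 25675943)))))
(S (nat_lit 50488) (S (nat_lit 15323) (S (nat_lit 1240) (S (nat_lit 57086) (L (nat_lit 9012634))
(L (nat_lit 19667332)))
(S (nat_lit 21004) (S (nat_lit 46015) (L (nat_lit 26746004))
(L (nat_lit 15925884)))
(S (nat_lit 40768) (S (nat_lit 19828) (S (nat_lit 8810) (S (nat_lit 8795) (L (nat_lit 25007343))
(L (nat_lit 21099759)))
(L (nat_lit 957039)))
(L (nat_lit 8577428)))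
(L (nat_lit 25287982)))))
(S (nat_lit 35087) (S (nat_lit 75) (S (nat_lit 17527) (S (nat_lit 8810) (S (nat_lit 8762) (S (nat_lit 39575) (S (nat_lit 20798) (S (nat_lit 20783) (S (nat_lit 39542) (S (nat_lit 10982) (S (nat_lit 41503) (S (nat_lit 28587) (S (nat_lit 57024) (S (nat_lit 37274) (S (nat_lit 19795) (S (nat_lit 30741) (S (nat_lit 35135) (S (nat_lit 37307) (S (nat_lit 2006) (S (nat_lit 57066) (S (nat_lit 21750) (S (nat_lit 21708) (S (nat_lit 42) (S (nat_lit 1958) (S (nat_lit 7191) (S (nat_lit 52844) (S (nat_lit 1277) (S (nat_lit 20979) (S (nat_lit 26790) (S (nat_lit 58670) (S (nat_lit 55754) (S (nat_lit 41373) (D (nat_lit 11) (nat_lit 26886314) (nat_lit 17567090) (nat_lit 206227741767))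
(L (nat_lit 29046953)))
(L (nat_lit 20886753)))
(L (nat_lit 20885697)))
(S (nat_lit 49373) (S (nat_lit 10074) (S (nat_lit 12990) (S (nat_lit 8467) (D (nat_lit 11) (nat_lit 26876353) (nat_lit 19336568) (nat_lit 242227302))
(L (nat_lit 29957230)))
(L (nat_lit 27856297)))
(L (nat_lit 27856264)))
(L (nat_lit 3535469))))
(L (nat_lit 1493338)))
(L (nat_lit 12602281)))
(L (nat_lit 23393729)))
(S (nat_lit 13978) (S (nat_lit 12747) (S (nat_lit 32527) (S (nat_lit 1442) (S (nat_lit 16930) (S (nat_lit 36482) (S (nat_lit 7627) (S (nat_lit 58670) (S (nat_lit 1776) (D (nat_lit 13) (nat_lit 970033) (nat_lit 25728370) (nat_lit 3372656760935))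
(L (nat_lit 13524290)))
(L (nat_lit 30126339)))
(S (nat_lit 53330) (S (nat_lit 10803) (S (nat_lit 1246) (D (nat_lit 11) (nat_lit 25446881) (nat_lit 19670531) (nat_lit 138415299))
(L (nat_lit 19738817)))
(L (nat_lit 19292299)))
(L (nat_lit 16477541))))
(L (nat_lit 10076283)))
(L (nat_lit 19185723)))
(L (nat_lit 31145280)))
(L (nat_lit 28484301)))
(L (nat_lit 28498441)))
(S (nat_lit 21548) (S (nat_lit 11789) (S (nat_lit 18933) (S (nat_lit 36250) (S (nat_lit 11747) (S (nat_lit 47467) (S (nat_lit 1215) (S (nat_lit 41243) (S (nat_lit 49373) (D (nat_lit 11) (nat_lit 29073956) (nat_lit 10950232) (nat_lit 246160557127))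
(L (nat_lit 29069799)))
(L (nat_lit 25082081)))
(S (nat_lit 27877) (S (nat_lit 16503) (S (nat_lit 1246) (D (nat_lit 11) (nat_lit 25741632) (nat_lit 19672515) (nat_lit 138418278))
(L (nat_lit 19771585)))
(L (nat_lit 19326056)))
(L (nat_lit 20359288))))
(L (nat_lit 25078830)))
(L (nat_lit 14438441)))
(L (nat_lit 27479457)))
(L (nat_lit 29592981)))
(L (nat_lit 27463278)))
(L (nat_lit 28943779)))))
(L (nat_lit 12342722)))
(L (nat_lit 1909267)))
(L (nat_lit 7517820)))
(L (nat_lit 22377548)))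
(L (nat_lit 12865345)))
(L (nat_lit 14554391)))
(L (nat_lit 17098469)))
(L (nat_lit 8836251)))
(L (nat_lit 17102433)))
(L (nat_lit 10237045)))
(L (nat_lit 17490213)))
(L (nat_lit 13475553)))
(L (nat_lit 19328256)))
(L (nat_lit 347950)))
(L (nat_lit 7869203)))
(L (nat_lit 23490852)))
(L (nat_lit 968295)))
(L (nat_lit 31175719)))
(L (nat_lit 23584964)))
(L (nat_lit 1852723)))
(L (nat_lit 7210607)))
(S (nat_lit 37291) (S (nat_lit 41497) (S (nat_lit 28512) (S (nat_lit 10949) (S (nat_lit 35135) (S (nat_lit 42) (S (nat_lit 41503) (S (nat_lit 1257) (L (nat_lit 3522169))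
(S (nat_lit 50701) (L (nat_lit 10966848))
(L (nat_lit 9255653))))
(L (nat_lit 17026105)))
(L (nat_lit 19140493)))
(L (nat_lit 23496025)))
(L (nat_lit 6852467)))
(L (nat_lit 2825038)))
(L (nat_lit 6718172)))
(S (nat_lit 57055) (S (nat_lit 591) (L (nat_lit 6073072))
(S (nat_lit 41497) (S (nat_lit 10982) (S (nat_lit 42) (S (nat_lit 57049) (S (nat_lit 15373) (S (nat_lit 15334) (S (nat_lit 28512) (S (nat_lit 35135) (S (nat_lit 4965) (L (nat_lit 15963987))
(S (nat_lit 21041) (L (nat_lit 6381421))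
(L (nat_lit 4436729))))
(L (nat_lit 18422939)))
(L (nat_lit 9493392)))
(L (nat_lit 6846019)))
(L (nat_lit 7261635)))
(L (nat_lit 27474563)))
(L (nat_lit 18955609)))
(L (nat_lit 6419955)))
(L (nat_lit 8815321))))
(L (nat_lit 25452035)))))
(S (nat_lit 21840) (L (nat_lit 1601810))
(L (nat_lit 26368269))))
(S (nat_lit 54851) (S (nat_lit 15384) (S (nat_lit 42) (S (nat_lit 41291) (L (nat_lit 7063425))
(L (nat_lit 9170433)))
(S (nat_lit 46774) (L (nat_lit 277177))
(L (nat_lit 26328402))))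
(S (nat_lit 35148) (S (nat_lit 21465) (L (nat_lit 6215022))
(L (nat_lit 16093820)))
(S (nat_lit 54912) (S (nat_lit 29481) (L (nat_lit 1336942))
(S (nat_lit 39542) (S (nat_lit 1701) (L (nat_lit 4595325))
(L (nat_lit 5000493)))
(L (nat_lit 10534710))))
(L (nat_lit 25602165)))))
(L (nat_lit 25628363)))))
(L (nat_lit 25399703)))))
(S (nat_lit 48318) (S (nat_lit 1036) (S (nat_lit 14) (S (nat_lit 17538) (S (nat_lit 57038) (S (nat_lit 37335) (S (nat_lit 52994) (L (nat_lit 5624251))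
(L (nat_lit 28430762)))
(L (nat_lit 9288289)))
(L (nat_lit 13362469)))
(S (nat_lit 37302) (S (nat_lit 42) (S (nat_lit 19828) (L (nat_lit 28759210))
(L (nat_lit 2875784)))
(L (nat_lit 13954785)))
(S (nat_lit 57066) (S (nat_lit 41276) (L (nat_lit 28416624))
(L (nat_lit 23894160)))
(L (nat_lit 25281094)))))
(S (nat_lit 19778) (S (nat_lit 1765) (S (nat_lit 41271) (S (nat_lit 20750) (L (nat_lit 10061273))
(L (nat_lit 31046823)))
(L (nat_lit 8868612)))
(S (nat_lit 21529) (S (nat_lit 21043) (L (nat_lit 29474379))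
(L (nat_lit 6850388)))
(S (nat_lit 41293) (S (nat_lit 54912) (S (nat_lit 54868) (L (nat_lit 12359279))
(L (nat_lit 16358521)))
(L (nat_lit 27595374)))
(L (nat_lit 25219439)))))
(S (nat_lit 39542) (S (nat_lit 57088) (S (nat_lit 54912) (S (nat_lit 21750) (S (nat_lit 40542) (S (nat_lit 17510) (S (nat_lit 8812) (S (nat_lit 28526) (S (nat_lit 37302) (S (nat_lit 19828) (S (nat_lit 1958) (S (nat_lit 15334) (S (nat_lit 30699) (S (nat_lit 39590) (S (nat_lit 19795) (S (nat_lit 10960) (S (nat_lit 21512) (L (nat_lit 6442554))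
(L (nat_lit 16387449)))
(S (nat_lit 30724) (S (nat_lit 41229) (L (nat_lit 23379033))
(L (nat_lit 8991588)))
(S (nat_lit 50488) (S (nat_lit 57049) (S (nat_lit 8779) (S (nat_lit 17543) (S (nat_lit 48276) (S (nat_lit 2006) (S (nat_lit 37335) (S (nat_lit 21708) (S (nat_lit 40500) (S (nat_lit 41497) (S (nat_lit 21783) (S (nat_lit 997) (S (nat_lit 75) (S (nat_lit 15373) (S (nat_lit 30741) (S (nat_lit 40462) (S (nat_lit 39412) (S (nat_lit 19584) (S (nat_lit 39298) (S (nat_lit 2292) (S (nat_lit 41597) (S (nat_lit 36476) (S (nat_lit 20910) (S (nat_lit 25298) (D (nat_lit 13) (nat_lit 25901250) (nat_lit 19667429) (nat_lit 4466840437761))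
(L (nat_lit 27867360)))
(L (nat_lit 27867333)))
(S (nat_lit 41271) (S (nat_lit 25784) (S (nat_lit 12261) (S (nat_lit 41229) (D (nat_lit 13) (nat_lit 27853069) (nat_lit 25767089) (nat_lit 6605900978210))
(L (nat_lit 27864204)))
(L (nat_lit 27868515)))
(L (nat_lit 27867331)))
(L (nat_lit 1752347))))
(L (nat_lit 28577485)))
(L (nat_lit 27810982)))
(L (nat_lit 19733552)))
(L (nat_lit 27860515)))
(L (nat_lit 19809507)))
(S (nat_lit 44383) (S (nat_lit 11303) (S (nat_lit 30175) (S (nat_lit 56522) (S (nat_lit 21062) (S (nat_lit 24000) (S (nat_lit 37418) (S (nat_lit 43510) (D (nat_lit 13) (nat_lit 12339620) (nat_lit 9193649) (nat_lit 4647430521856))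
(L (nat_lit 18998666)))
(L (nat_lit 26816773)))
(S (nat_lit 49713) (S (nat_lit 5440) (S (nat_lit 23826) (D (nat_lit 15) (nat_lit 27862161) (nat_lit 25761192) (nat_lit 206263491809))
(L (nat_lit 27870435)))
(L (nat_lit 27869381)))
(L (nat_lit 24308942))))
(L (nat_lit 870791)))
(L (nat_lit 29627858)))
(L (nat_lit 27596460)))
(L (nat_lit 27530924)))
(S (nat_lit 57604) (S (nat_lit 10185) (S (nat_lit 43267) (S (nat_lit 21548) (S (nat_lit 56036) (S (nat_lit 12261) (S (nat_lit 28949) (S (nat_lit 5440) (S (nat_lit 23826) (D (nat_lit 15) (nat_lit 27854096) (nat_lit 25759114) (nat_lit 209380908260))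
(L (nat_lit 27870435)))
(L (nat_lit 27869195)))
(L (nat_lit 27867394)))
(S (nat_lit 16488) (S (nat_lit 43847) (S (nat_lit 29446) (D (nat_lit 13) (nat_lit 10242436) (nat_lit 11291107) (nat_lit 9040973304032))
(L (nat_lit 9193893)))
(L (nat_lit 26849605)))
(L (nat_lit 1266200))))
(L (nat_lit 20243631)))
(L (nat_lit 18752598)))
(L (nat_lit 28677772)))
(L (nat_lit 31047909)))
(L (nat_lit 22031897)))))
(L (nat_lit 8506225)))
(L (nat_lit 7254690)))
(L (nat_lit 8078425)))
(L (nat_lit 18968879)))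
(L (nat_lit 7364365)))
(L (nat_lit 6707969)))
(L (nat_lit 4108872)))
(L (nat_lit 10662522)))
(L (nat_lit 20392026)))
(L (nat_lit 19838210)))
(L (nat_lit 20166717)))
(L (nat_lit 7992366)))
(L (nat_lit 6896450)))
(L (nat_lit 19086146)))
(L (nat_lit 25825645)))))
(L (nat_lit 31077634)))
(L (nat_lit 18574692)))
(L (nat_lit 18922716)))
(L (nat_lit 8058028)))
(L (nat_lit 19274909)))
(L (nat_lit 15044501)))
(L (nat_lit 13897308)))
(L (nat_lit 9139311)))
(L (nat_lit 15044315)))
(L (nat_lit 16523348)))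
(L (nat_lit 24001826)))
(L (nat_lit 11457613)))
(L (nat_lit 27595374)))
(S (nat_lit 58636) (L (nat_lit 5001551))
(L (nat_lit 4596412))))
(L (nat_lit 25186762)))))
(S (nat_lit 20800) (S (nat_lit 1215) (S (nat_lit 1701) (S (nat_lit 1944) (S (nat_lit 21529) (S (nat_lit 972) (L (nat_lit 22286776))
(L (nat_lit 4809130)))
(L (nat_lit 22143402)))
(S (nat_lit 17340) (S (nat_lit 58130) (L (nat_lit 11688844))
(L (nat_lit 5678680)))
(L (nat_lit 20242853))))
(S (nat_lit 51179) (L (nat_lit 12281250))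
(L (nat_lit 12159416))))
(S (nat_lit 20979) (S (nat_lit 37302) (S (nat_lit 20750) (L (nat_lit 11983037))
(L (nat_lit 22296601)))
(L (nat_lit 20215168)))
(S (nat_lit 40743) (S (nat_lit 37302) (S (nat_lit 21540) (S (nat_lit 42) (S (nat_lit 15384) (L (nat_lit 1849685))
(L (nat_lit 619822)))
(L (nat_lit 13758183)))
(L (nat_lit 22146284)))
(L (nat_lit 20051335)))
(L (nat_lit 25569394)))))
(S (nat_lit 40564) (S (nat_lit 64) (S (nat_lit 1991) (S (nat_lit 8823) (S (nat_lit 41293) (L (nat_lit 1340852))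
(L (nat_lit 7093856)))
(L (nat_lit 7009664)))
(S (nat_lit 21755) (S (nat_lit 17521) (L (nat_lit 1627453))
(S (nat_lit 36444) (L (nat_lit 18081377))
(L (nat_lit 840072))))
(S (nat_lit 41519) (S (nat_lit 10960) (S (nat_lit 40500) (S (nat_lit 40807) (L (nat_lit 28606901))
(L (nat_lit 18146485)))
(L (nat_lit 17965691)))
(L (nat_lit 6853242)))
(L (nat_lit 25633344)))))
(S (nat_lit 19828) (S (nat_lit 1958) (S (nat_lit 2035) (L (nat_lit 6209194))
(S (nat_lit 54912) (S (nat_lit 30741) (S (nat_lit 39542) (S (nat_lit 986) (S (nat_lit 28574) (S (nat_lit 49436) (L (nat_lit 5877241))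
(L (nat_lit 29480175)))
(L (nat_lit 8548975)))
(L (nat_lit 11326480)))
(L (nat_lit 27475621)))
(L (nat_lit 9893472)))
(L (nat_lit 27437678))))
(S (nat_lit 21722) (S (nat_lit 15334) (S (nat_lit 42) (S (nat_lit 17510) (L (nat_lit 19793263))
(L (nat_lit 7114350)))
(L (nat_lit 6411149)))
(L (nat_lit 15462722)))
(S (nat_lit 41486) (S (nat_lit 37322) (L (nat_lit 5619321))
(L (nat_lit 10108089)))
(L (nat_lit 25350632)))))
(S (nat_lit 39592) (S (nat_lit 10999) (S (nat_lit 8823) (S (nat_lit 25) (S (nat_lit 15323) (S (nat_lit 54899) (S (nat_lit 39603) (S (nat_lit 20783) (S (nat_lit 21755) (S (nat_lit 15334) (S (nat_lit 32971) (S (nat_lit 11107) (L (nat_lit 3391099))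
(L (nat_lit 15490242)))
(L (nat_lit 17537112)))
(L (nat_lit 6312443)))
(L (nat_lit 8313008)))
(L (nat_lit 7264400)))
(L (nat_lit 27994189)))
(L (nat_lit 11272626)))
(L (nat_lit 1852690)))
(L (nat_lit 26619028)))
(S (nat_lit 34183) (S (nat_lit 25) (L (nat_lit 8269973))
(L (nat_lit 6689684)))
(L (nat_lit 8263062))))
(S (nat_lit 30763) (S (nat_lit 1003) (S (nat_lit 31) (S (nat_lit 30774) (S (nat_lit 15309) (S (nat_lit 1763) (L (nat_lit 29575184))
(L (nat_lit 13846653)))
(L (nat_lit 17564917)))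
(L (nat_lit 3615668)))
(L (nat_lit 12897090)))
(S (nat_lit 20767) (S (nat_lit 5330) (L (nat_lit 23901412))
(S (nat_lit 21041) (L (nat_lit 30051535))
(L (nat_lit 30651414))))
(S (nat_lit 40531) (S (nat_lit 17571) (S (nat_lit 41497) (L (nat_lit 15987265))
(L (nat_lit 24495940)))
(S (nat_lit 32564) (L (nat_lit 23995840))
(L (nat_lit 18018613))))
(L (nat_lit 25862624)))))
(S (nat_lit 50527) (S (nat_lit 1082) (S (nat_lit 1098) (L (nat_lit 27809929))
(L (nat_lit 22381977)))
(S (nat_lit 20783) (S (nat_lit 1215) (S (nat_lit 1944) (S (nat_lit 1701) (S (nat_lit 54901) (S (nat_lit 35087) (L (nat_lit 29642117))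
(L (nat_lit 18681450)))
(L (nat_lit 27613635)))
(L (nat_lit 2515563)))
(L (nat_lit 20753827)))
(S (nat_lit 40590) (S (nat_lit 54868) (L (nat_lit 30490898))
(L (nat_lit 27574882)))
(L (nat_lit 5531244))))
(L (nat_lit 15066689))))
(L (nat_lit 25568279)))))
(L (nat_lit 25711810)))))
(L (nat_lit 25476709)))))
(L (nat_lit 25928878)))))
(S (nat_lit 54884) (S (nat_lit 31) (S (nat_lit 15371) (S (nat_lit 1034) (S (nat_lit 15351) (S (nat_lit 18621) (L (nat_lit 15604388))
(S (nat_lit 41486) (S (nat_lit 40564) (S (nat_lit 17558) (L (nat_lit 3743535))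
(S (nat_lit 31170) (L (nat_lit 11948185))
(L (nat_lit 6751836))))
(S (nat_lit 50105) (L (nat_lit 7958914))
(L (nat_lit 10016672))))
(L (nat_lit 6404919))))
(S (nat_lit 35115) (S (nat_lit 1262) (S (nat_lit 1748) (S (nat_lit 28574) (L (nat_lit 2607389))
(L (nat_lit 31104175)))
(L (nat_lit 19105212)))
(L (nat_lit 18914748)))
(S (nat_lit 54879) (S (nat_lit 1944) (S (nat_lit 1215) (S (nat_lit 57066) (L (nat_lit 15819336))
(L (nat_lit 11232640)))
(S (nat_lit 51420) (L (nat_lit 27792756))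
(L (nat_lit 18998696))))
(S (nat_lit 39640) (L (nat_lit 13755667))
(L (nat_lit 14469289))))
(L (nat_lit 25791911)))))
(S (nat_lit 20798) (S (nat_lit 10935) (S (nat_lit 15309) (S (nat_lit 19828) (S (nat_lit 20761) (S (nat_lit 8748) (L (nat_lit 8815228))
(S (nat_lit 48117) (L (nat_lit 5775188))
(L (nat_lit 15342369))))
(S (nat_lit 58872) (L (nat_lit 15598803))
(L (nat_lit 22421285))))
(S (nat_lit 41957) (L (nat_lit 20874449))
(L (nat_lit 10215471))))
(L (nat_lit 26412501)))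
(S (nat_lit 30699) (S (nat_lit 37322) (L (nat_lit 25003212))
(L (nat_lit 31079780)))
(S (nat_lit 50463) (S (nat_lit 45507) (L (nat_lit 23895215))
(S (nat_lit 48307) (S (nat_lit 48276) (L (nat_lit 1810285))
(L (nat_lit 10946205)))
(L (nat_lit 4595602))))
(L (nat_lit 25219279)))))
(S (nat_lit 40562) (S (nat_lit 17496) (S (nat_lit 8810) (S (nat_lit 8748) (S (nat_lit 41243) (L (nat_lit 9863988))
(L (nat_lit 25075137)))
(L (nat_lit 23895056)))
(L (nat_lit 1547964)))
(S (nat_lit 37260) (S (nat_lit 37322) (S (nat_lit 39603) (L (nat_lit 2530969))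
(L (nat_lit 28027360)))
(L (nat_lit 31071406)))
(S (nat_lit 57024) (S (nat_lit 57055) (S (nat_lit 21054) (L (nat_lit 12846869))
(L (nat_lit 21503036)))
(L (nat_lit 12879484)))
(L (nat_lit 25411233)))))
(L (nat_lit 25218567)))))
(S (nat_lit 35135) (S (nat_lit 1014) (S (nat_lit 1743) (S (nat_lit 1290) (S (nat_lit 2019) (S (nat_lit 15309) (S (nat_lit 8779) (L (nat_lit 532123))
(L (nat_lit 23142252)))
(S (nat_lit 37347) (L (nat_lit 26740053))
(L (nat_lit 26254805))))
(L (nat_lit 26937581)))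
(S (nat_lit 5574) (L (nat_lit 17040122))
(L (nat_lit 12812984))))
(S (nat_lit 21507) (S (nat_lit 13793) (L (nat_lit 21856715))
(S (nat_lit 39590) (S (nat_lit 21750) (L (nat_lit 15900409))
(L (nat_lit 10647276)))
(L (nat_lit 18612939))))
(S (nat_lit 41271) (S (nat_lit 12388) (S (nat_lit 19778) (L (nat_lit 7005328))
(L (nat_lit 9321092)))
(S (nat_lit 20783) (S (nat_lit 30763) (S (nat_lit 19806) (S (nat_lit 21054) (S (nat_lit 57055) (L (nat_lit 4890137))
(L (nat_lit 19197346)))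
(L (nat_lit 6380028)))
(L (nat_lit 9106605)))
(L (nat_lit 30582322)))
(L (nat_lit 466523))))
(L (nat_lit 25625323)))))
(S (nat_lit 20778) (S (nat_lit 8812) (S (nat_lit 17543) (S (nat_lit 40818) (S (nat_lit 41304) (L (nat_lit 17001522))
(L (nat_lit 1272461)))
(L (nat_lit 7367309)))
(S (nat_lit 56912) (L (nat_lit 26327282))
(L (nat_lit 6378284))))
(S (nat_lit 28576) (S (nat_lit 19826) (S (nat_lit 17571) (L (nat_lit 23239194))
(L (nat_lit 16329849)))
(L (nat_lit 16490276)))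
(S (nat_lit 48340) (S (nat_lit 30786) (L (nat_lit 19930033))
(S (nat_lit 50463) (S (nat_lit 41243) (S (nat_lit 40757) (L (nat_lit 22348717))
(L (nat_lit 27690198)))
(L (nat_lit 27696150)))
(L (nat_lit 11043700))))
(L (nat_lit 25550338)))))
(S (nat_lit 40542) (S (nat_lit 8790) (S (nat_lit 21783) (S (nat_lit 17571) (S (nat_lit 20783) (S (nat_lit 30763) (L (nat_lit 5708629))
(L (nat_lit 19297474)))
(L (nat_lit 6965123)))
(L (nat_lit 8010593)))
(S (nat_lit 45814) (L (nat_lit 8043428))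
(L (nat_lit 1890541))))
(S (nat_lit 28554) (S (nat_lit 37274) (S (nat_lit 28574) (L (nat_lit 1628476))
(L (nat_lit 13408405)))
(S (nat_lit 46685) (L (nat_lit 29722003))
(L (nat_lit 9329060))))
(S (nat_lit 48318) (S (nat_lit 21004) (S (nat_lit 21490) (L (nat_lit 924146))
(L (nat_lit 7431918)))
(L (nat_lit 1337070)))
(L (nat_lit 25430638)))))
(L (nat_lit 25546861)))))
(S (nat_lit 54899) (S (nat_lit 25) (S (nat_lit 1277) (S (nat_lit 10935) (S (nat_lit 2006) (S (nat_lit 57038) (L (nat_lit 11235840))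
(L (nat_lit 28030026)))
(L (nat_lit 13897655)))
(S (nat_lit 43621) (L (nat_lit 7111156))
(L (nat_lit 21791953))))
(S (nat_lit 21041) (S (nat_lit 21026) (S (nat_lit 48307) (L (nat_lit 14294140))
(L (nat_lit 20487289)))
(S (nat_lit 33959) (L (nat_lit 19301692))
(L (nat_lit 1744281))))
(S (nat_lit 40805) (S (nat_lit 29220) (L (nat_lit 762297))
(S (nat_lit 41276) (S (nat_lit 41497) (S (nat_lit 40807) (L (nat_lit 7865981))
(L (nat_lit 27269711)))
(L (nat_lit 27858959)))
(L (nat_lit 27493814))))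
(L (nat_lit 25399025)))))
(S (nat_lit 19789) (S (nat_lit 17527) (S (nat_lit 21750) (S (nat_lit 41304) (L (nat_lit 9340559))
(L (nat_lit 23856617)))
(L (nat_lit 11175450)))
(S (nat_lit 37291) (S (nat_lit 1047) (S (nat_lit 28512) (S (nat_lit 20800) (L (nat_lit 8882100))
(L (nat_lit 22249912)))
(L (nat_lit 19339290)))
(L (nat_lit 26778802)))
(S (nat_lit 57055) (S (nat_lit 21750) (S (nat_lit 1047) (L (nat_lit 16975730))
(L (nat_lit 9111373)))
(L (nat_lit 11437805)))
(L (nat_lit 25484368)))))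
(S (nat_lit 39553) (S (nat_lit 17496) (S (nat_lit 21512) (L (nat_lit 5642872))
(L (nat_lit 16385401)))
(S (nat_lit 37260) (S (nat_lit 50538) (S (nat_lit 41271) (L (nat_lit 28463439))
(L (nat_lit 27965636)))
(L (nat_lit 11200591)))
(S (nat_lit 57024) (S (nat_lit 41254) (L (nat_lit 28738805))
(L (nat_lit 27891823)))
(L (nat_lit 25934854)))))
(L (nat_lit 25189743)))))
(L (nat_lit 25679205)))))
(S (nat_lit 19795) (S (nat_lit 17496) (S (nat_lit 1776) (S (nat_lit 37291) (S (nat_lit 21750) (S (nat_lit 41276) (S (nat_lit 997) (S (nat_lit 30699) (S (nat_lit 35098) (S (nat_lit 39590) (S (nat_lit 1257) (S (nat_lit 15384) (S (nat_lit 54837) (S (nat_lit 48301) (S (nat_lit 40757) (S (nat_lit 1975) (S (nat_lit 41472) (S (nat_lit 64) (S (nat_lit 55415) (S (nat_lit 19839) (S (nat_lit 39553) (S (nat_lit 1034) (S (nat_lit 35115) (S (nat_lit 14245) (S (nat_lit 58904) (S (nat_lit 18864) (S (nat_lit 6304) (S (nat_lit 28467) (D (nat_lit 13) (nat_lit 30129257)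 (nat_lit 19672613) (nat_lit 2339920611336))
(L (nat_lit 21930000)))
(L (nat_lit 30097733)))
(L (nat_lit 27860079)))
(L (nat_lit 29936896)))
(S (nat_lit 37925) (S (nat_lit 10667) (S (nat_lit 17636) (S (nat_lit 29604) (S (nat_lit 42790) (D (nat_lit 13) (nat_lit 26973640) (nat_lit 19670499) (nat_lit 213842493508))
(L (nat_lit 28597636)))
(L (nat_lit 13829044)))
(L (nat_lit 27924556)))
(L (nat_lit 29806881)))
(L (nat_lit 27307662))))
(L (nat_lit 23334394)))
(L (nat_lit 11422769)))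
(L (nat_lit 5462798)))
(L (nat_lit 3987911)))
(L (nat_lit 29082631)))
(L (nat_lit 387663)))
(L (nat_lit 2717097)))
(L (nat_lit 19215201)))
(L (nat_lit 10388951)))
(L (nat_lit 13886114)))
(L (nat_lit 19072942)))
(L (nat_lit 2014918)))
(L (nat_lit 26674888)))
(L (nat_lit 27985419)))
(L (nat_lit 2312632)))
(L (nat_lit 19072572)))
(L (nat_lit 19138478)))
(L (nat_lit 9045872)))
(L (nat_lit 11175724)))
(L (nat_lit 10159885)))
(S (nat_lit 21540) (S (nat_lit 21750) (S (nat_lit 20783) (S (nat_lit 40785) (S (nat_lit 8748) (S (nat_lit 48338) (S (nat_lit 20993) (S (nat_lit 37291) (S (nat_lit 20800) (S (nat_lit 997) (S (nat_lit 30699) (S (nat_lit 39590) (S (nat_lit 50477) (S (nat_lit 48301) (S (nat_lit 41519) (S (nat_lit 17387) (S (nat_lit 47) (S (nat_lit 17340) (S (nat_lit 31668) (S (nat_lit 17404) (S (nat_lit 50538) (S (nat_lit 40531) (S (nat_lit 30079) (S (nat_lit 53002) (S (nat_lit 34210) (D (nat_lit 15) (nat_lit 13956706) (nat_lit 6048138) (nat_lit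 240524468390))
(L (nat_lit 28824836)))
(L (nat_lit 22943144)))
(S (nat_lit 34679) (S (nat_lit 37925) (S (nat_lit 3489) (D (nat_lit 15) (nat_lit 27282768) (nat_lit 25761037) (nat_lit 210520710373))
(L (nat_lit 27730661)))
(L (nat_lit 27548037)))
(L (nat_lit 29079843))))
(L (nat_lit 23590080)))
(L (nat_lit 15380257)))
(L (nat_lit 28825860)))
(L (nat_lit 11201988)))
(L (nat_lit 28424469)))
(L (nat_lit 901335)))
(L (nat_lit 27492786)))
(L (nat_lit 252344)))
(L (nat_lit 4940200)))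
(L (nat_lit 5456691)))
(L (nat_lit 27985419)))
(L (nat_lit 19438620)))
(L (nat_lit 20743718)))
(L (nat_lit 21797253)))
(L (nat_lit 24020269)))
(L (nat_lit 21399303)))
(L (nat_lit 20710891)))
(L (nat_lit 21202704)))
(L (nat_lit 17467146)))
(L (nat_lit 22807888)))
(L (nat_lit 16516307)))
(S (nat_lit 41304) (S (nat_lit 25) (S (nat_lit 1058) (L (nat_lit 6320595))
(S (nat_lit 15384) (S (nat_lit 57086) (S (nat_lit 21512) (S (nat_lit 8795) (S (nat_lit 1014) (S (nat_lit 972) (L (nat_lit 21151005))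
(L (nat_lit 13706034)))
(L (nat_lit 10506809)))
(L (nat_lit 1372693)))
(L (nat_lit 10979223)))
(L (nat_lit 27662981)))
(L (nat_lit 6886256))))
(S (nat_lit 19789) (S (nat_lit 11010) (S (nat_lit 1246) (S (nat_lit 15371) (L (nat_lit 422260))
(L (nat_lit 6971812)))
(L (nat_lit 19096718)))
(L (nat_lit 7213492)))
(S (nat_lit 39553) (S (nat_lit 37274) (S (nat_lit 2019) (S (nat_lit 35098) (S (nat_lit 21529) (S (nat_lit 1958) (S (nat_lit 28526) (S (nat_lit 15323) (S (nat_lit 35135) (S (nat_lit 21750) (S (nat_lit 21512) (S (nat_lit 40575) (S (nat_lit 35467) (S (nat_lit 40807) (S (nat_lit 31140) (S (nat_lit 54990) (S (nat_lit 45092) (S (nat_lit 33967) (S (nat_lit 18892) (D (nat_lit 15) (nat_lit 26817763) (nat_lit 19216131) (nat_lit 2184189092))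
(L (nat_lit 29545003)))
(L (nat_lit 21457221)))
(S (nat_lit 47988) (S (nat_lit 10873) (S (nat_lit 56934) (S (nat_lit 43293) (S (nat_lit 49092) (D (nat_lit 13) (nat_lit 31070380) (nat_lit 25765039) (nat_lit 3577878711526))
(L (nat_lit 28791010)))
(L (nat_lit 29017316)))
(L (nat_lit 22882353)))
(L (nat_lit 29545994)))
(L (nat_lit 1813356))))
(L (nat_lit 16829287)))
(L (nat_lit 29886087)))
(L (nat_lit 17912153)))
(L (nat_lit 3753309)))
(L (nat_lit 23193964)))
(L (nat_lit 10667641)))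
(L (nat_lit 30920715)))
(L (nat_lit 4054349)))
(L (nat_lit 1272212)))
(L (nat_lit 8440589)))
(L (nat_lit 13928092)))
(L (nat_lit 7463503)))
(L (nat_lit 18048643)))
(L (nat_lit 26745507)))
(L (nat_lit 16999013)))
(L (nat_lit 25368117)))))
(L (nat_lit 25920749)))))
(S (nat_lit 37260) (S (nat_lit 1215) (S (nat_lit 17558) (S (nat_lit 1701) (S (nat_lit 21750) (S (nat_lit 57055) (S (nat_lit 40575) (S (nat_lit 35098) (S (nat_lit 1958) (S (nat_lit 41291) (S (nat_lit 35135) (S (nat_lit 28574) (S (nat_lit 48323) (S (nat_lit 1014) (S (nat_lit 40768) (S (nat_lit 41254) (S (nat_lit 20800) (S (nat_lit 6421) (S (nat_lit 22898) (S (nat_lit 21733) (S (nat_lit 16705) (S (nat_lit 11572) (S (nat_lit 38615) (S (nat_lit 16722) (S (nat_lit 41139) (D (nat_lit 13) (nat_lit 28889257) (nat_lit 19056395) (nat_lit 1381000905732))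
(L (nat_lit 19734604)))
(L (nat_lit 29995114)))
(L (nat_lit 19294400)))
(L (nat_lit 27899233)))
(S (nat_lit 39081) (S (nat_lit 19105) (S (nat_lit 17208) (S (nat_lit 32540) (S (nat_lit 40653) (D (nat_lit 13) (nat_lit 28889381) (nat_lit 19055992) (nat_lit 1379960718464))
(L (nat_lit 19733676)))
(L (nat_lit 20344838)))
(L (nat_lit 29995300)))
(L (nat_lit 27866370)))
(L (nat_lit 19428676))))
(L (nat_lit 16654420)))
(L (nat_lit 29871427)))
(L (nat_lit 28946756)))
(L (nat_lit 6846048)))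
(L (nat_lit 18442346)))
(L (nat_lit 18442532)))
(L (nat_lit 20441380)))
(L (nat_lit 11065189)))
(L (nat_lit 24570212)))
(L (nat_lit 23521636)))
(L (nat_lit 24678682)))
(L (nat_lit 12689053)))
(L (nat_lit 2315052)))
(L (nat_lit 1923528)))
(L (nat_lit 21044013)))
(L (nat_lit 8292044)))
(L (nat_lit 14280036)))
(S (nat_lit 47758) (S (nat_lit 9353) (L (nat_lit 9963164))
(L (nat_lit 8979932)))
(L (nat_lit 8259150))))
(S (nat_lit 20979) (S (nat_lit 17558) (S (nat_lit 15384) (S (nat_lit 64) (S (nat_lit 10977) (S (nat_lit 40774) (S (nat_lit 20783) (S (nat_lit 1958) (S (nat_lit 21527) (S (nat_lit 54901) (S (nat_lit 1732) (S (nat_lit 47) (S (nat_lit 1014) (S (nat_lit 40514) (S (nat_lit 21770) (S (nat_lit 41229) (S (nat_lit 37307) (S (nat_lit 50538) (S (nat_lit 15488) (S (nat_lit 25775) (S (nat_lit 31774) (S (nat_lit 18820) (S (nat_lit 41623) (D (nat_lit 13) (nat_lit 26870991) (nat_lit 19672547) (nat_lit 74323099844))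
(L (nat_lit 15552834)))
(L (nat_lit 27896289)))
(L (nat_lit 20852928)))
(L (nat_lit 27866305)))
(S (nat_lit 37347) (S (nat_lit 21066) (S (nat_lit 30442) (S (nat_lit 50329) (S (nat_lit 56778) (S (nat_lit 51818) (D (nat_lit 13) (nat_lit 30030923) (nat_lit 11285061) (nat_lit 6703543485474))
(L (nat_lit 16601192)))
(L (nat_lit 29963523)))
(L (nat_lit 28918824)))
(L (nat_lit 15572548)))
(L (nat_lit 28913957)))
(L (nat_lit 12249231))))
(L (nat_lit 27404879)))
(L (nat_lit 9563636)))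
(L (nat_lit 18458532)))
(L (nat_lit 8107810)))
(L (nat_lit 24549257)))
(L (nat_lit 19240844)))
(L (nat_lit 6413725)))
(L (nat_lit 2451087)))
(L (nat_lit 21161164)))
(L (nat_lit 22294649)))
(L (nat_lit 26805736)))
(L (nat_lit 22242691)))
(L (nat_lit 2936015)))
(L (nat_lit 6413721)))
(L (nat_lit 6443418)))
(L (nat_lit 6975872)))
(S (nat_lit 47497) (L (nat_lit 1514386))
(L (nat_lit 8259150))))
(S (nat_lit 40743) (S (nat_lit 17558) (S (nat_lit 15384) (S (nat_lit 64) (S (nat_lit 1958) (S (nat_lit 28537) (S (nat_lit 39570) (S (nat_lit 21041) (S (nat_lit 10960) (S (nat_lit 8823) (S (nat_lit 997) (S (nat_lit 57055) (S (nat_lit 8779) (S (nat_lit 2019) (S (nat_lit 1763) (S (nat_lit 2891) (S (nat_lit 44036) (S (nat_lit 24107) (S (nat_lit 57407) (S (nat_lit 441) (S (nat_lit 30425) (S (nat_lit 36257) (S (nat_lit 20887) (D (nat_lit 9) (nat_lit 28890404) (nat_lit 4508088) (nat_lit 110804175105))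
(L (nat_lit 29047915)))
(L (nat_lit 9359746)))
(L (nat_lit 21937378)))
(L (nat_lit 31079652)))
(L (nat_lit 28982562)))
(S (nat_lit 55018) (S (nat_lit 32503) (S (nat_lit 18621) (S (nat_lit 41606) (S (nat_lit 26018) (D (nat_lit 13) (nat_lit 26952896) (nat_lit 19672239) (nat_lit 74323099844))
(L (nat_lit 27382152)))
(L (nat_lit 15620453)))
(L (nat_lit 27860049)))
(L (nat_lit 20847008)))
(L (nat_lit 18787414))))
(L (nat_lit 28981569)))
(L (nat_lit 23566460)))
(L (nat_lit 11658992)))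
(L (nat_lit 20480841)))
(L (nat_lit 891628)))
(L (nat_lit 13235273)))
(L (nat_lit 13982629)))
(L (nat_lit 7246416)))
(L (nat_lit 806280)))
(L (nat_lit 4977161)))
(L (nat_lit 24230727)))
(L (nat_lit 25046193)))
(L (nat_lit 26660904)))
(L (nat_lit 938376)))
(L (nat_lit 348568)))
(S (nat_lit 37322) (S (nat_lit 1014) (S (nat_lit 20783) (S (nat_lit 30763) (L (nat_lit 14294106))
(L (nat_lit 30553330)))
(L (nat_lit 31104417)))
(L (nat_lit 4571058)))
(S (nat_lit 57086) (S (nat_lit 1958) (L (nat_lit 22027769))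
(L (nat_lit 3743196)))
(L (nat_lit 25631365)))))
(L (nat_lit 25569394)))))
(S (nat_lit 57024) (S (nat_lit 75) (S (nat_lit 1958) (S (nat_lit 37322) (S (nat_lit 17527) (S (nat_lit 35098) (S (nat_lit 15384) (S (nat_lit 21750) (S (nat_lit 30699) (S (nat_lit 39590) (S (nat_lit 39575) (S (nat_lit 19789) (S (nat_lit 1290) (S (nat_lit 41497) (S (nat_lit 40790) (S (nat_lit 21490) (L (nat_lit 11928155))
(L (nat_lit 22888704)))
(L (nat_lit 27967744)))
(L (nat_lit 9361423)))
(S (nat_lit 21054) (S (nat_lit 41503) (S (nat_lit 37307) (L (nat_lit 6308789))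
(L (nat_lit 17746149)))
(L (nat_lit 2780618)))
(S (nat_lit 40818) (S (nat_lit 40575) (S (nat_lit 19778) (L (nat_lit 19067274))
(L (nat_lit 21193157)))
(L (nat_lit 16832733)))
(L (nat_lit 25903144)))))
(L (nat_lit 31016104)))
(L (nat_lit 23997860)))
(L (nat_lit 23862821)))
(L (nat_lit 30966996)))
(L (nat_lit 22519589)))
(L (nat_lit 17159009)))
(L (nat_lit 10370690)))
(L (nat_lit 22879341)))
(S (nat_lit 43775) (L (nat_lit 17696327))
(L (nat_lit 20749701))))
(S (nat_lit 54263) (L (nat_lit 21923206))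
(L (nat_lit 13371048))))
(S (nat_lit 19839) (S (nat_lit 1958) (S (nat_lit 17170) (L (nat_lit 11646901))
(S (nat_lit 57071) (S (nat_lit 2019) (S (nat_lit 15384) (S (nat_lit 39570) (S (nat_lit 21733) (S (nat_lit 1975) (S (nat_lit 47) (S (nat_lit 37322) (S (nat_lit 15340) (S (nat_lit 54901) (S (nat_lit 10977) (S (nat_lit 41519) (S (nat_lit 21750) (S (nat_lit 50477) (S (nat_lit 35135) (S (nat_lit 19778) (S (nat_lit 35115) (S (nat_lit 37302) (S (nat_lit 50538) (S (nat_lit 37285) (S (nat_lit 39553) (S (nat_lit 41472) (S (nat_lit 35098) (S (nat_lit 17510) (S (nat_lit 21770) (S (nat_lit 64) (S (nat_lit 20783) (S (nat_lit 20800) (S (nat_lit 8790) (S (nat_lit 28512) (S (nat_lit 28559) (S (nat_lit 48307) (S (nat_lit 14778) (S (nat_lit 1277) (S (nat_lit 21507) (S (nat_lit 2123) (S (nat_lit 55521) (S (nat_lit 31774) (S (nat_lit 29830) (D (nat_lit 11) (nat_lit 26951939) (nat_lit 19670467) (nat_lit 173019396))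
(L (nat_lit 14556897)))
(L (nat_lit 13442784)))
(L (nat_lit 30093568)))
(S (nat_lit 36696) (S (nat_lit 19621) (S (nat_lit 17191) (S (nat_lit 49631) (D (nat_lit 11) (nat_lit 31107490) (nat_lit 25765381) (nat_lit 106473556194))
(L (nat_lit 21837896)))
(L (nat_lit 31178085)))
(L (nat_lit 31176996)))
(L (nat_lit 24482364))))
(L (nat_lit 22199514)))
(L (nat_lit 12832674)))
(S (nat_lit 20993) (S (nat_lit 8608) (S (nat_lit 14273) (S (nat_lit 28420) (S (nat_lit 41271) (S (nat_lit 1215) (S (nat_lit 15764) (S (nat_lit 55055) (S (nat_lit 30079) (S (nat_lit 13711) (S (nat_lit 39922) (S (nat_lit 56535) (D (nat_lit 13) (nat_lit 26809645) (nat_lit 19664076) (nat_lit 2357465255))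
(L (nat_lit 29859895)))
(L (nat_lit 4019720)))
(L (nat_lit 27968648)))
(L (nat_lit 22606179)))
(L (nat_lit 29875395)))
(S (nat_lit 40894) (S (nat_lit 10072) (S (nat_lit 32017) (S (nat_lit 1941) (D (nat_lit 15) (nat_lit 11013014) (nat_lit 3432978) (nat_lit 180495615042))
(L (nat_lit 31146242)))
(L (nat_lit 22881700)))
(L (nat_lit 28033348)))
(L (nat_lit 14355740))))
(L (nat_lit 12848947)))
(L (nat_lit 6313531)))
(L (nat_lit 6321719)))
(L (nat_lit 30841409)))
(L (nat_lit 28726593)))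
(S (nat_lit 46240) (S (nat_lit 21465) (S (nat_lit 40807) (S (nat_lit 13789) (S (nat_lit 9873) (S (nat_lit 12789) (S (nat_lit 9829) (S (nat_lit 12745) (S (nat_lit 28266) (D (nat_lit 11) (nat_lit 27865315) (nat_lit 25628018) (nat_lit 212877903009))
(L (nat_lit 27891725)))
(L (nat_lit 27855335)))
(L (nat_lit 27855302)))
(L (nat_lit 27898146)))
(S (nat_lit 11075) (S (nat_lit 16722) (S (nat_lit 19638) (S (nat_lit 50846) (D (nat_lit 11) (nat_lit 31034791) (nat_lit 25767024) (nat_lit 106473556194))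
(L (nat_lit 28791074)))
(L (nat_lit 31044963)))
(L (nat_lit 31043907)))
(L (nat_lit 29015114))))
(L (nat_lit 12317092)))
(L (nat_lit 24441220)))
(L (nat_lit 22344100)))
(L (nat_lit 21084937)))))
(L (nat_lit 27859052)))
(L (nat_lit 19195332)))
(L (nat_lit 30939777)))
(L (nat_lit 15588704)))
(L (nat_lit 31177024)))
(S (nat_lit 35176) (S (nat_lit 41955) (S (nat_lit 43628) (L (nat_lit 5584472))
(L (nat_lit 26885442)))
(L (nat_lit 26948930)))
(L (nat_lit 5467542))))
(L (nat_lit 26562979)))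
(L (nat_lit 14948059)))
(L (nat_lit 715054)))
(L (nat_lit 2876905)))
(L (nat_lit 8844403)))
(L (nat_lit 11124921)))
(L (nat_lit 23323821)))
(L (nat_lit 10664701)))
(L (nat_lit 30494087)))
(L (nat_lit 30494119)))
(L (nat_lit 9500336)))
(L (nat_lit 23895524)))
(L (nat_lit 14933114)))
(L (nat_lit 21225549)))
(L (nat_lit 27968864)))
(L (nat_lit 18116256)))
(L (nat_lit 14018210)))
(L (nat_lit 15001186)))
(L (nat_lit 20749701)))
(L (nat_lit 19343420)))
(L (nat_lit 12818106)))
(L (nat_lit 10907364)))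
(L (nat_lit 10613484)))
(L (nat_lit 436856)))
(L (nat_lit 4080299)))
(L (nat_lit 12702634))))
(S (nat_lit 46072) (S (nat_lit 662) (L (nat_lit 13174012))
(L (nat_lit 12336802)))
(L (nat_lit 19676386))))
(S (nat_lit 39603) (S (nat_lit 1958) (S (nat_lit 17527) (S (nat_lit 21750) (S (nat_lit 37322) (S (nat_lit 39590) (S (nat_lit 15384) (S (nat_lit 30699) (S (nat_lit 25) (S (nat_lit 35098) (S (nat_lit 17543) (S (nat_lit 50505) (S (nat_lit 41547) (S (nat_lit 11010) (S (nat_lit 30724) (S (nat_lit 17538) (S (nat_lit 28458) (L (nat_lit 8786685))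
(S (nat_lit 45975) (S (nat_lit 18925) (L (nat_lit 2343611))
(L (nat_lit 31043809)))
(L (nat_lit 23348097))))
(L (nat_lit 1366425)))
(L (nat_lit 24973705)))
(L (nat_lit 7763681)))
(L (nat_lit 27984363)))
(L (nat_lit 12906644)))
(S (nat_lit 37307) (S (nat_lit 40757) (L (nat_lit 2697720))
(L (nat_lit 23466791)))
(S (nat_lit 57071) (S (nat_lit 39570) (S (nat_lit 64) (S (nat_lit 28512) (S (nat_lit 21490) (L (nat_lit 3712632))
(L (nat_lit 30721728)))
(L (nat_lit 9321088)))
(L (nat_lit 7229858)))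
(L (nat_lit 24000832)))
(L (nat_lit 25799724)))))
(L (nat_lit 10305090)))
(L (nat_lit 19088571)))
(L (nat_lit 31079648)))
(L (nat_lit 7224928)))
(L (nat_lit 4759288)))
(L (nat_lit 20743627)))
(L (nat_lit 16680147)))
(S (nat_lit 38119) (L (nat_lit 8131281))
(L (nat_lit 26942573))))
(S (nat_lit 54002) (L (nat_lit 21934118))
(L (nat_lit 13371048))))
(L (nat_lit 25313959)))))
(L (nat_lit 25222630)))))
(S (nat_lit 39559) (S (nat_lit 1003) (S (nat_lit 15373) (S (nat_lit 1776) (S (nat_lit 20811) (S (nat_lit 21479) (S (nat_lit 35073) (S (nat_lit 1958) (L (nat_lit 2793391))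
(L (nat_lit 26510839)))
(L (nat_lit 19930588)))
(L (nat_lit 21831105)))
(L (nat_lit 749002)))
(S (nat_lit 21540) (S (nat_lit 20811) (S (nat_lit 50505) (S (nat_lit 19811) (S (nat_lit 21755) (S (nat_lit 48290) (L (nat_lit 17867384))
(L (nat_lit 22275151)))
(L (nat_lit 30661026)))
(L (nat_lit 21458116)))
(L (nat_lit 10610351)))
(S (nat_lit 55468) (L (nat_lit 16051379))
(L (nat_lit 247484))))
(S (nat_lit 41304) (S (nat_lit 40514) (S (nat_lit 20811) (S (nat_lit 50505) (S (nat_lit 39592) (S (nat_lit 40525) (L (nat_lit 7256116))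
(L (nat_lit 27887115)))
(L (nat_lit 17130516)))
(L (nat_lit 27561428)))
(L (nat_lit 7112364)))
(L (nat_lit 27414985)))
(L (nat_lit 25287916)))))
(S (nat_lit 35137) (S (nat_lit 8790) (S (nat_lit 40525) (S (nat_lit 40500) (S (nat_lit 37291) (S (nat_lit 37307) (L (nat_lit 24380955))
(L (nat_lit 17059897)))
(L (nat_lit 23495992)))
(L (nat_lit 1460573)))
(S (nat_lit 46537) (L (nat_lit 24296825))
(L (nat_lit 1648156))))
(S (nat_lit 28554) (S (nat_lit 16673) (L (nat_lit 13281401))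
(S (nat_lit 41254) (S (nat_lit 19828) (L (nat_lit 9078574))
(L (nat_lit 8544878)))
(L (nat_lit 23500860))))
(S (nat_lit 48318) (S (nat_lit 21739) (S (nat_lit 10935) (S (nat_lit 1290) (L (nat_lit 4070836))
(L (nat_lit 5830312)))
(L (nat_lit 16450777)))
(S (nat_lit 49913) (L (nat_lit 21529817))
(L (nat_lit 10629816))))
(L (nat_lit 25249140)))))
(S (nat_lit 54901) (S (nat_lit 1975) (S (nat_lit 21054) (S (nat_lit 21540) (S (nat_lit 21021) (L (nat_lit 29504139))
(L (nat_lit 12204901)))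
(L (nat_lit 5826219)))
(L (nat_lit 12117669)))
(S (nat_lit 21739) (S (nat_lit 6439) (L (nat_lit 21128583))
(S (nat_lit 40525) (S (nat_lit 35073) (S (nat_lit 28574) (L (nat_lit 16916089))
(S (nat_lit 36152) (L (nat_lit 21111292))
(L (nat_lit 10126777))))
(S (nat_lit 40129) (L (nat_lit 26804527))
(L (nat_lit 31097070))))
(L (nat_lit 27592212))))
(S (nat_lit 41503) (S (nat_lit 1229) (S (nat_lit 48351) (L (nat_lit 29446601))
(L (nat_lit 10669872)))
(S (nat_lit 49930) (L (nat_lit 11045560))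
(L (nat_lit 12915388))))
(L (nat_lit 25507457)))))
(L (nat_lit 25759241)))))
(S (nat_lit 20767) (S (nat_lit 1732) (S (nat_lit 1944) (S (nat_lit 972) (S (nat_lit 21783) (S (nat_lit 21010) (S (nat_lit 19811) (L (nat_lit 16533511))
(L (nat_lit 21488683)))
(L (nat_lit 5158566)))
(L (nat_lit 11239898)))
(S (nat_lit 11567) (L (nat_lit 12672380))
(L (nat_lit 19272490))))
(S (nat_lit 21708) (S (nat_lit 24603) (L (nat_lit 7975101))
(S (nat_lit 50505) (S (nat_lit 1975) (S (nat_lit 20783) (S (nat_lit 40525) (L (nat_lit 13802107))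
(L (nat_lit 27698293)))
(L (nat_lit 22209927)))
(L (nat_lit 6104751)))
(L (nat_lit 6080966))))
(S (nat_lit 41472) (S (nat_lit 62) (S (nat_lit 35073) (S (nat_lit 15371) (L (nat_lit 9549748))
(L (nat_lit 615757)))
(L (nat_lit 20840686)))
(L (nat_lit 13978533)))
(L (nat_lit 25611369)))))
(S (nat_lit 21496) (S (nat_lit 1257) (S (nat_lit 17633) (L (nat_lit 17073752))
(S (nat_lit 35073) (S (nat_lit 1986) (S (nat_lit 1991) (S (nat_lit 28574) (L (nat_lit 10322606))
(L (nat_lit 24544601)))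
(L (nat_lit 20387964)))
(L (nat_lit 12013656)))
(L (nat_lit 9307886))))
(S (nat_lit 21021) (S (nat_lit 21750) (S (nat_lit 41254) (S (nat_lit 54851) (L (nat_lit 14753717))
(L (nat_lit 11202637)))
(L (nat_lit 27400943)))
(S (nat_lit 40945) (L (nat_lit 22062585))
(L (nat_lit 21437532))))
(S (nat_lit 40785) (S (nat_lit 37322) (S (nat_lit 28574) (L (nat_lit 17106619))
(L (nat_lit 13408933)))
(L (nat_lit 20748741)))
(L (nat_lit 25663571)))))
(S (nat_lit 41260) (S (nat_lit 17543) (S (nat_lit 40774) (S (nat_lit 21041) (S (nat_lit 15384) (L (nat_lit 3983814))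
(L (nat_lit 15616071)))
(L (nat_lit 15517703)))
(L (nat_lit 9598638)))
(S (nat_lit 37307) (S (nat_lit 48340) (S (nat_lit 48351) (S (nat_lit 30763) (S (nat_lit 30774) (L (nat_lit 7826115))
(L (nat_lit 17142708)))
(L (nat_lit 13977624)))
(L (nat_lit 27693364)))
(L (nat_lit 14010393)))
(S (nat_lit 57071) (S (nat_lit 21783) (S (nat_lit 41534) (S (nat_lit 8810) (L (nat_lit 1888558))
(L (nat_lit 6808229)))
(L (nat_lit 27838470)))
(L (nat_lit 11327941)))
(L (nat_lit 25252078)))))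
(L (nat_lit 25511950)))))
(S (nat_lit 40531) (S (nat_lit 47) (S (nat_lit 10960) (S (nat_lit 14) (S (nat_lit 37322) (L (nat_lit 597405))
(L (nat_lit 20749765)))
(S (nat_lit 19778) (S (nat_lit 15323) (S (nat_lit 19839) (S (nat_lit 50477) (S (nat_lit 1975) (S (nat_lit 25) (S (nat_lit 997) (S (nat_lit 17521) (L (nat_lit 15373531))
(S (nat_lit 47279) (L (nat_lit 6689714))
(L (nat_lit 26914985))))
(L (nat_lit 10915732)))
(L (nat_lit 20182159)))
(L (nat_lit 19980778)))
(L (nat_lit 10512108)))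
(L (nat_lit 31141312)))
(L (nat_lit 22848623)))
(S (nat_lit 39542) (S (nat_lit 35533) (S (nat_lit 18340) (L (nat_lit 23960750))
(L (nat_lit 6838146)))
(S (nat_lit 54901) (S (nat_lit 35912) (L (nat_lit 7223972))
(S (nat_lit 50538) (S (nat_lit 28199) (L (nat_lit 4535189))
(S (nat_lit 35115) (S (nat_lit 35098) (S (nat_lit 39553) (S (nat_lit 39590) (S (nat_lit 11272) (L (nat_lit 563932))
(S (nat_lit 40575) (S (nat_lit 41519) (S (nat_lit 10977) (S (nat_lit 39570) (S (nat_lit 15728) (L (nat_lit 26321458))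
(S (nat_lit 46556) (L (nat_lit 4827578))
(L (nat_lit 15817547))))
(L (nat_lit 11170304)))
(S (nat_lit 34438) (L (nat_lit 10663545))
(L (nat_lit 6720438))))
(L (nat_lit 23323010)))
(L (nat_lit 27829426))))
(L (nat_lit 27996484)))
(L (nat_lit 4834684)))
(L (nat_lit 18074402)))
(L (nat_lit 23191974))))
(L (nat_lit 4598523))))
(L (nat_lit 5697782))))
(L (nat_lit 25181495)))))
(S (nat_lit 30724) (S (nat_lit 17496) (S (nat_lit 10977) (S (nat_lit 40774) (L (nat_lit 717286))
(L (nat_lit 380377)))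
(L (nat_lit 26512047)))
(S (nat_lit 37260) (S (nat_lit 54851) (L (nat_lit 3612469))
(L (nat_lit 27471986)))
(S (nat_lit 57024) (S (nat_lit 48338) (S (nat_lit 41304) (L (nat_lit 30131394))
(L (nat_lit 27461074)))
(L (nat_lit 27957733)))
(L (nat_lit 25937120)))))
(S (nat_lit 50488) (S (nat_lit 1279) (S (nat_lit 1776) (S (nat_lit 21479) (L (nat_lit 11165871))
(L (nat_lit 10567607)))
(L (nat_lit 20843979)))
(S (nat_lit 45293) (L (nat_lit 11375123))
(L (nat_lit 10507054))))
(L (nat_lit 25178455)))))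
(S (nat_lit 19811) (S (nat_lit 8779) (S (nat_lit 17558) (S (nat_lit 35135) (S (nat_lit 15384) (S (nat_lit 1014) (S (nat_lit 41293) (L (nat_lit 17607795))
(L (nat_lit 17934972)))
(L (nat_lit 10965892)))
(L (nat_lit 933478)))
(L (nat_lit 23894189)))
(S (nat_lit 29325) (L (nat_lit 10666746))
(L (nat_lit 7996828))))
(S (nat_lit 28543) (S (nat_lit 8795) (S (nat_lit 37335) (S (nat_lit 21770) (S (nat_lit 40805) (L (nat_lit 17669207))
(L (nat_lit 10220560)))
(L (nat_lit 21247003)))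
(L (nat_lit 14012540)))
(L (nat_lit 23378972)))
(S (nat_lit 48307) (S (nat_lit 17571) (S (nat_lit 8790) (S (nat_lit 35135) (S (nat_lit 35115) (S (nat_lit 42) (S (nat_lit 21479) (L (nat_lit 4582900))
(L (nat_lit 16044057)))
(L (nat_lit 309977)))
(L (nat_lit 9533006)))
(L (nat_lit 18187058)))
(L (nat_lit 7462800)))
(L (nat_lit 8278127)))
(L (nat_lit 25270839)))))
(S (nat_lit 39575) (S (nat_lit 40818) (S (nat_lit 41304) (S (nat_lit 40768) (S (nat_lit 41254) (S (nat_lit 8823) (L (nat_lit 7488309))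
(L (nat_lit 15607892)))
(L (nat_lit 27854031)))
(L (nat_lit 27859983)))
(L (nat_lit 27788971)))
(L (nat_lit 27795109)))
(L (nat_lit 25635429)))))
(L (nat_lit 25545157)))))
(L (nat_lit 25821641)))))
(L (nat_lit 25274900)))))
(L (nat_lit 25478882)))

theorem rb246_0_20 : run 4 lb246 [] tb246_0_20 kb246 [0, 41536, 10997] [10966, 30730] = true := by
  decide +kernel

noncomputable def tb177_4 : Tr :=
(S (nat_lit 8057) (S (nat_lit 5642) (S (nat_lit 5135) (S (nat_lit 14582) (S (nat_lit 52) (S (nat_lit 7113) (S (nat_lit 13367) (S (nat_lit 6577) (S (nat_lit 13145) (S (nat_lit 8810) (L (nat_lit 5923150))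
(L (nat_lit 21332476)))
(L (nat_lit 13650762)))
(L (nat_lit 12606811)))
(L (nat_lit 7134352)))
(S (nat_lit 26877) (S (nat_lit 5177) (S (nat_lit 7341) (L (nat_lit 13265249))
(L (nat_lit 390678)))
(L (nat_lit 26616886)))
(S (nat_lit 46641) (S (nat_lit 13367) (S (nat_lit 24656) (L (nat_lit 14315623))
(L (nat_lit 1730862)))
(L (nat_lit 12835933)))
(L (nat_lit 25868581)))))
(S (nat_lit 19816) (S (nat_lit 32948) (S (nat_lit 1289) (S (nat_lit 7291) (S (nat_lit 8810) (S (nat_lit 56599) (S (nat_lit 4892) (L (nat_lit 2384529))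
(L (nat_lit 18914845)))
(L (nat_lit 21170620)))
(L (nat_lit 21404828)))
(L (nat_lit 8782642)))
(S (nat_lit 34082) (L (nat_lit 26359431))
(L (nat_lit 8412976))))
(S (nat_lit 35777) (S (nat_lit 12167) (L (nat_lit 21015996))
(L (nat_lit 16014364)))
(L (nat_lit 9297413))))
(S (nat_lit 39580) (S (nat_lit 15362) (S (nat_lit 5029) (L (nat_lit 24404357))
(S (nat_lit 8810) (S (nat_lit 4892) (S (nat_lit 50515) (S (nat_lit 1289) (S (nat_lit 7291) (L (nat_lit 895378))
(L (nat_lit 1712910)))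
(L (nat_lit 26446230)))
(L (nat_lit 12312720)))
(L (nat_lit 26647170)))
(L (nat_lit 516469))))
(S (nat_lit 35126) (S (nat_lit 1289) (S (nat_lit 36795) (S (nat_lit 5177) (L (nat_lit 8473390))
(L (nat_lit 9124613)))
(L (nat_lit 12667228)))
(L (nat_lit 9143088)))
(S (nat_lit 54890) (S (nat_lit 7099) (S (nat_lit 56599) (L (nat_lit 21096812))
(L (nat_lit 19375164)))
(L (nat_lit 14483826)))
(L (nat_lit 25476244)))))
(L (nat_lit 25826856)))))
(S (nat_lit 34346) (S (nat_lit 8330) (S (nat_lit 4892) (S (nat_lit 26862) (S (nat_lit 46819) (S (nat_lit 10987) (S (nat_lit 33131) (S (nat_lit 36834) (L (nat_lit 18980752))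
(L (nat_lit 7768732)))
(L (nat_lit 20001675)))
(L (nat_lit 8204439)))
(L (nat_lit 20873643)))
(L (nat_lit 15773558)))
(L (nat_lit 6340252)))
(S (nat_lit 28094) (S (nat_lit 36795) (S (nat_lit 26811) (S (nat_lit 4892) (S (nat_lit 46819) (S (nat_lit 4877) (L (nat_lit 3582742))
(L (nat_lit 20048267)))
(L (nat_lit 20873611)))
(L (nat_lit 17877308)))
(L (nat_lit 9253046)))
(S (nat_lit 37953) (L (nat_lit 2472540))
(L (nat_lit 379452))))
(S (nat_lit 47858) (S (nat_lit 33819) (S (nat_lit 4892) (L (nat_lit 10501884))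
(L (nat_lit 16042045)))
(S (nat_lit 48587) (S (nat_lit 49802) (S (nat_lit 19765) (S (nat_lit 8786) (S (nat_lit 33131) (S (nat_lit 15362) (L (nat_lit 403350))
(L (nat_lit 1460573)))
(L (nat_lit 20131993)))
(L (nat_lit 14998588)))
(L (nat_lit 30460143)))
(L (nat_lit 20137048)))
(L (nat_lit 27755082))))
(L (nat_lit 25798832)))))
(S (nat_lit 54110) (S (nat_lit 8264) (S (nat_lit 7341) (S (nat_lit 56599) (L (nat_lit 18968966))
(L (nat_lit 27483244)))
(S (nat_lit 27105) (S (nat_lit 32636) (L (nat_lit 18210995))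
(S (nat_lit 56575) (S (nat_lit 26862) (S (nat_lit 39594) (S (nat_lit 5657) (L (nat_lit 5500524))
(L (nat_lit 18888061)))
(L (nat_lit 6109862)))
(L (nat_lit 24175980)))
(L (nat_lit 21791020))))
(S (nat_lit 46869) (S (nat_lit 1247) (S (nat_lit 7047) (L (nat_lit 3369548))
(L (nat_lit 12805300)))
(L (nat_lit 13846685)))
(L (nat_lit 25546272)))))
(S (nat_lit 28028) (S (nat_lit 4892) (S (nat_lit 8315) (S (nat_lit 52895) (S (nat_lit 15362) (S (nat_lit 27806) (S (nat_lit 30751) (S (nat_lit 39579) (S (nat_lit 26811) (L (nat_lit 28463311))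
(L (nat_lit 19274565)))
(L (nat_lit 4874604)))
(L (nat_lit 8834200)))
(L (nat_lit 7794245)))
(L (nat_lit 8229298)))
(L (nat_lit 28019114)))
(L (nat_lit 14537766)))
(L (nat_lit 19140028)))
(S (nat_lit 47792) (S (nat_lit 4892) (S (nat_lit 52895) (S (nat_lit 15362) (S (nat_lit 30750) (L (nat_lit 19362955))
(L (nat_lit 8834912)))
(L (nat_lit 26300842)))
(L (nat_lit 11984739)))
(L (nat_lit 20188605)))
(L (nat_lit 25548881)))))
(L (nat_lit 25212274)))))
(S (nat_lit 24899) (S (nat_lit 10274) (S (nat_lit 10987) (S (nat_lit 15377) (S (nat_lit 13160) (S (nat_lit 7047) (S (nat_lit 9059) (S (nat_lit 14582) (S (nat_lit 31946) (S (nat_lit 6634) (S (nat_lit 47570) (L (nat_lit 29677616))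
(L (nat_lit 20375780)))
(L (nat_lit 937384)))
(L (nat_lit 4631129)))
(L (nat_lit 24544572)))
(L (nat_lit 14736700)))
(L (nat_lit 26386060)))
(L (nat_lit 871664)))
(S (nat_lit 57633) (L (nat_lit 17472256))
(L (nat_lit 380317))))
(S (nat_lit 30751) (S (nat_lit 12182) (S (nat_lit 28574) (S (nat_lit 6827) (L (nat_lit 20356282))
(L (nat_lit 13848387)))
(L (nat_lit 9886500)))
(S (nat_lit 31946) (S (nat_lit 24980) (S (nat_lit 52673) (L (nat_lit 6011688))
(L (nat_lit 11979653)))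
(S (nat_lit 28574) (S (nat_lit 56599) (S (nat_lit 52673) (S (nat_lit 28028) (L (nat_lit 29001967))
(L (nat_lit 19329158)))
(L (nat_lit 11985604)))
(L (nat_lit 8838917)))
(L (nat_lit 24543611))))
(S (nat_lit 51710) (S (nat_lit 13367) (S (nat_lit 26341) (S (nat_lit 1232) (L (nat_lit 13821267))
(L (nat_lit 19327200)))
(L (nat_lit 2547561)))
(L (nat_lit 13278300)))
(L (nat_lit 25698357)))))
(S (nat_lit 50515) (S (nat_lit 13418) (S (nat_lit 9059) (S (nat_lit 1247) (S (nat_lit 46161) (L (nat_lit 10912627))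
(L (nat_lit 12406145)))
(L (nat_lit 12961949)))
(L (nat_lit 6343069)))
(S (nat_lit 33182) (S (nat_lit 28550) (S (nat_lit 40775) (S (nat_lit 54890) (L (nat_lit 16828763))
(L (nat_lit 14567748)))
(L (nat_lit 9915168)))
(S (nat_lit 47640) (L (nat_lit 14549705))
(L (nat_lit 13551627))))
(S (nat_lit 52946) (S (nat_lit 56599) (S (nat_lit 52673) (S (nat_lit 1) (L (nat_lit 29477255))
(L (nat_lit 1264431)))
(L (nat_lit 16993157)))
(L (nat_lit 9243281)))
(L (nat_lit 25481729)))))
(L (nat_lit 25596584)))))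
(S (nat_lit 30038) (S (nat_lit 4877) (S (nat_lit 31946) (S (nat_lit 5120) (S (nat_lit 7047) (S (nat_lit 56599) (S (nat_lit 26591) (S (nat_lit 28823) (L (nat_lit 29477286))
(L (nat_lit 19702147)))
(L (nat_lit 19311641)))
(L (nat_lit 21173004)))
(L (nat_lit 26414732)))
(L (nat_lit 20213125)))
(L (nat_lit 1268652)))
(S (nat_lit 24641) (S (nat_lit 56599) (S (nat_lit 31946) (S (nat_lit 7341) (S (nat_lit 52895) (S (nat_lit 32909) (L (nat_lit 10261046))
(L (nat_lit 3363291)))
(L (nat_lit 3370736)))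
(L (nat_lit 23295148)))
(L (nat_lit 30608972)))
(L (nat_lit 3372684)))
(S (nat_lit 44405) (S (nat_lit 56599) (S (nat_lit 19765) (S (nat_lit 31946) (S (nat_lit 7047) (S (nat_lit 36796) (L (nat_lit 210870))
(L (nat_lit 13453632)))
(L (nat_lit 21171980)))
(L (nat_lit 19099788)))
(L (nat_lit 22230045)))
(L (nat_lit 27462220)))
(L (nat_lit 25757130)))))
(S (nat_lit 49802) (S (nat_lit 7290) (S (nat_lit 56599) (S (nat_lit 7047) (S (nat_lit 24656) (S (nat_lit 48587) (S (nat_lit 46885) (S (nat_lit 54905) (S (nat_lit 28574) (S (nat_lit 6577) (S (nat_lit 8042) (S (nat_lit 46576) (S (nat_lit 17070) (S (nat_lit 11864) (S (nat_lit 51831) (S (nat_lit 40775) (S (nat_lit 35412) (S (nat_lit 12628) (D (nat_lit 8) (nat_lit 2897545) (nat_lit 15281921) (nat_lit 73256701032))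
(L (nat_lit 30062631)))
(L (nat_lit 21115228)))
(L (nat_lit 18541920)))
(L (nat_lit 21373856)))
(L (nat_lit 13470035)))
(L (nat_lit 10041465)))
(L (nat_lit 27373810)))
(L (nat_lit 26659944)))
(L (nat_lit 21405883)))
(L (nat_lit 8841828)))
(L (nat_lit 27697764)))
(L (nat_lit 22887494)))
(L (nat_lit 15851402)))
(L (nat_lit 8843319)))
(L (nat_lit 23278777)))
(L (nat_lit 9177676)))
(S (nat_lit 27054) (S (nat_lit 56599) (S (nat_lit 7047) (S (nat_lit 31946) (S (nat_lit 40142) (L (nat_lit 13806300))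
(L (nat_lit 19097989)))
(L (nat_lit 30838343)))
(L (nat_lit 3594488)))
(L (nat_lit 21825804)))
(S (nat_lit 46818) (S (nat_lit 11409) (L (nat_lit 26478998))
(S (nat_lit 46575) (S (nat_lit 35141) (S (nat_lit 33131) (L (nat_lit 435094))
(L (nat_lit 23928195)))
(L (nat_lit 8837241)))
(L (nat_lit 20049287))))
(L (nat_lit 25600054)))))
(L (nat_lit 25866342)))))
(S (nat_lit 44663) (S (nat_lit 11002) (S (nat_lit 1247) (S (nat_lit 46884) (L (nat_lit 28461297))
(L (nat_lit 4442621)))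
(S (nat_lit 21011) (S (nat_lit 13160) (S (nat_lit 48314) (L (nat_lit 417020))
(L (nat_lit 11421741)))
(L (nat_lit 24978820)))
(S (nat_lit 40775) (S (nat_lit 6577) (L (nat_lit 903689))
(L (nat_lit 12601722)))
(L (nat_lit 25381008)))))
(S (nat_lit 30766) (S (nat_lit 10935) (S (nat_lit 13160) (S (nat_lit 56560) (S (nat_lit 8786) (L (nat_lit 7802589))
(L (nat_lit 8248836)))
(L (nat_lit 19250976)))
(S (nat_lit 32846) (L (nat_lit 3623719))
(L (nat_lit 632593))))
(S (nat_lit 30699) (S (nat_lit 13160) (S (nat_lit 56559) (L (nat_lit 28449174))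
(L (nat_lit 14536930)))
(L (nat_lit 24192412)))
(S (nat_lit 50463) (S (nat_lit 13160) (S (nat_lit 4720) (L (nat_lit 20149421))
(S (nat_lit 6634) (S (nat_lit 17031) (S (nat_lit 40775) (S (nat_lit 26877) (L (nat_lit 26256016))
(L (nat_lit 9521932)))
(L (nat_lit 477991)))
(L (nat_lit 26691810)))
(L (nat_lit 633274))))
(L (nat_lit 13207805)))
(L (nat_lit 25838630)))))
(S (nat_lit 50530) (S (nat_lit 67) (S (nat_lit 46642) (S (nat_lit 46885) (S (nat_lit 8786) (S (nat_lit 10180) (L (nat_lit 718064))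
(S (nat_lit 40775) (S (nat_lit 44420) (S (nat_lit 56599) (S (nat_lit 31946) (S (nat_lit 33182) (S (nat_lit 46818) (S (nat_lit 49787) (S (nat_lit 50463) (S (nat_lit 26863) (L (nat_lit 5629461))
(L (nat_lit 15469161)))
(L (nat_lit 27311751)))
(L (nat_lit 27606692)))
(L (nat_lit 9893568)))
(L (nat_lit 30689328)))
(L (nat_lit 24569895)))
(L (nat_lit 15952950)))
(L (nat_lit 27966722)))
(L (nat_lit 926353))))
(L (nat_lit 23184636)))
(L (nat_lit 20711910)))
(L (nat_lit 20719073)))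
(S (nat_lit 19831) (S (nat_lit 6592) (S (nat_lit 51695) (S (nat_lit 17046) (S (nat_lit 20996) (S (nat_lit 8786) (S (nat_lit 30038) (L (nat_lit 277145))
(L (nat_lit 19766349)))
(L (nat_lit 15534794)))
(L (nat_lit 15332425)))
(L (nat_lit 25019465)))
(L (nat_lit 15583305)))
(S (nat_lit 26356) (S (nat_lit 12167) (S (nat_lit 13367) (S (nat_lit 40760) (S (nat_lit 34397) (L (nat_lit 8109923))
(L (nat_lit 3644212)))
(L (nat_lit 10088528)))
(L (nat_lit 6991965)))
(L (nat_lit 3983596)))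
(S (nat_lit 46120) (S (nat_lit 1232) (S (nat_lit 36810) (S (nat_lit 17047) (S (nat_lit 7099) (S (nat_lit 8786) (L (nat_lit 28630464))
(L (nat_lit 23464156)))
(L (nat_lit 26821705)))
(L (nat_lit 22375505)))
(L (nat_lit 20504649)))
(L (nat_lit 19709001)))
(L (nat_lit 25252111)))))
(S (nat_lit 39595) (S (nat_lit 7099) (S (nat_lit 46120) (S (nat_lit 1232) (S (nat_lit 13433) (S (nat_lit 7290) (L (nat_lit 13238584))
(L (nat_lit 21375777)))
(L (nat_lit 13552651)))
(L (nat_lit 14419255)))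
(L (nat_lit 27865161)))
(S (nat_lit 26863) (S (nat_lit 7516) (L (nat_lit 14913176))
(S (nat_lit 46885) (S (nat_lit 8786) (S (nat_lit 35126) (S (nat_lit 34397) (S (nat_lit 13160) (S (nat_lit 56599) (L (nat_lit 29804583))
(L (nat_lit 15789270)))
(L (nat_lit 24426556)))
(L (nat_lit 14935620)))
(L (nat_lit 9528909)))
(L (nat_lit 7751740)))
(L (nat_lit 17009458))))
(S (nat_lit 46627) (S (nat_lit 46885) (S (nat_lit 8786) (S (nat_lit 7290) (S (nat_lit 10935) (S (nat_lit 44648) (S (nat_lit 40775) (L (nat_lit 11593270))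
(L (nat_lit 2925200)))
(L (nat_lit 10324686)))
(L (nat_lit 26444340)))
(L (nat_lit 26607956)))
(L (nat_lit 6408732)))
(L (nat_lit 20711878)))
(L (nat_lit 25314920)))))
(L (nat_lit 25726261)))))
(L (nat_lit 25353640)))))
(L (nat_lit 25378469)))))
(S (nat_lit 25406) (S (nat_lit 7290) (S (nat_lit 6827) (S (nat_lit 15377) (S (nat_lit 13160) (S (nat_lit 10274) (S (nat_lit 9059) (S (nat_lit 7047) (S (nat_lit 20996) (S (nat_lit 47792) (L (nat_lit 22475942))
(L (nat_lit 20351846)))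
(L (nat_lit 21401849)))
(L (nat_lit 7464342)))
(L (nat_lit 21031306)))
(L (nat_lit 26724581)))
(S (nat_lit 16160) (S (nat_lit 49901) (L (nat_lit 30791821))
(L (nat_lit 388501)))
(L (nat_lit 6385044))))
(S (nat_lit 35141) (S (nat_lit 13160) (S (nat_lit 30038) (S (nat_lit 44405) (S (nat_lit 44648) (S (nat_lit 28823) (S (nat_lit 36796) (S (nat_lit 44420) (S (nat_lit 51710) (S (nat_lit 44705) (S (nat_lit 39529) (S (nat_lit 33182) (S (nat_lit 26355) (S (nat_lit 19719) (S (nat_lit 9175) (S (nat_lit 19918) (S (nat_lit 39485) (S (nat_lit 49602) (S (nat_lit 4977) (S (nat_lit 15532) (D (nat_lit 12) (nat_lit 15813385) (nat_lit 4994292) (nat_lit 1154117773258950657))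
(L (nat_lit 29702787)))
(L (nat_lit 28759207)))
(L (nat_lit 10015520)))
(L (nat_lit 26288534)))
(L (nat_lit 12377475)))
(L (nat_lit 13850464)))
(L (nat_lit 8031052)))
(L (nat_lit 30873684)))
(L (nat_lit 30903636)))
(L (nat_lit 12157337)))
(L (nat_lit 27996167)))
(L (nat_lit 7795765)))
(L (nat_lit 23524395)))
(L (nat_lit 313752)))
(L (nat_lit 838027)))
(L (nat_lit 24022409)))
(L (nat_lit 24027522)))
(L (nat_lit 30673299)))
(S (nat_lit 16160) (L (nat_lit 12668252))
(L (nat_lit 7040388))))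
(S (nat_lit 54905) (S (nat_lit 13160) (S (nat_lit 7047) (S (nat_lit 56599) (S (nat_lit 14582) (S (nat_lit 49802) (S (nat_lit 48587) (L (nat_lit 29787414))
(L (nat_lit 22061464)))
(L (nat_lit 22220184)))
(L (nat_lit 1498886)))
(L (nat_lit 21407493)))
(S (nat_lit 26736) (L (nat_lit 7526808))
(L (nat_lit 21143341))))
(S (nat_lit 39610) (L (nat_lit 6917531))
(L (nat_lit 6942085))))
(L (nat_lit 25768229)))))
(S (nat_lit 26591) (S (nat_lit 8810) (S (nat_lit 51) (S (nat_lit 7047) (S (nat_lit 13160) (S (nat_lit 15377) (L (nat_lit 224660))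
(L (nat_lit 26644171)))
(L (nat_lit 7859941)))
(L (nat_lit 7098757)))
(S (nat_lit 19815) (S (nat_lit 10935) (S (nat_lit 54110) (L (nat_lit 26256916))
(L (nat_lit 20999590)))
(L (nat_lit 21463847)))
(S (nat_lit 39579) (S (nat_lit 23739) (L (nat_lit 26398120))
(S (nat_lit 56559) (S (nat_lit 7047) (S (nat_lit 28550) (S (nat_lit 11001) (S (nat_lit 13160) (S (nat_lit 52895) (S (nat_lit 46105) (S (nat_lit 47792) (S (nat_lit 30038) (L (nat_lit 12226105))
(L (nat_lit 7768853)))
(L (nat_lit 1373621)))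
(L (nat_lit 27665586)))
(L (nat_lit 1939892)))
(L (nat_lit 26725418)))
(L (nat_lit 7244310)))
(L (nat_lit 12897092)))
(L (nat_lit 14454407)))
(L (nat_lit 1370830))))
(L (nat_lit 25859622)))))
(S (nat_lit 28574) (S (nat_lit 17070) (S (nat_lit 40760) (S (nat_lit 44663) (S (nat_lit 30751) (L (nat_lit 10051729))
(L (nat_lit 8840370)))
(L (nat_lit 24544632)))
(L (nat_lit 24544568)))
(S (nat_lit 36834) (S (nat_lit 7047) (S (nat_lit 50463) (S (nat_lit 26812) (L (nat_lit 9496055))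
(L (nat_lit 31077601)))
(L (nat_lit 12807808)))
(L (nat_lit 21794214)))
(S (nat_lit 56598) (S (nat_lit 13160) (S (nat_lit 27806) (S (nat_lit 56559) (S (nat_lit 5135) (L (nat_lit 21403773))
(L (nat_lit 452233)))
(L (nat_lit 8874005)))
(L (nat_lit 18916112)))
(L (nat_lit 6942085)))
(L (nat_lit 25766960)))))
(S (nat_lit 48338) (S (nat_lit 7047) (S (nat_lit 36835) (S (nat_lit 27055) (S (nat_lit 26812) (S (nat_lit 47792) (S (nat_lit 32909) (S (nat_lit 19765) (S (nat_lit 31988) (S (nat_lit 30023) (S (nat_lit 39595) (S (nat_lit 52821) (S (nat_lit 52) (S (nat_lit 8330) (S (nat_lit 14817) (S (nat_lit 46034) (S (nat_lit 1303) (S (nat_lit 39481) (S (nat_lit 19759) (D (nat_lit 12) (nat_lit 2545947) (nat_lit 2890132) (nat_lit 1154117773258950657))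
(L (nat_lit 7521205)))
(L (nat_lit 29622990)))
(L (nat_lit 15485003)))
(L (nat_lit 26429029)))
(L (nat_lit 29935691)))
(L (nat_lit 21904707)))
(L (nat_lit 13248698)))
(L (nat_lit 6213030)))
(L (nat_lit 18212515)))
(L (nat_lit 30758309)))
(L (nat_lit 13887168)))
(L (nat_lit 8407448)))
(L (nat_lit 23499530)))
(L (nat_lit 1502854)))
(L (nat_lit 30658977)))
(L (nat_lit 30429606)))
(L (nat_lit 450343)))
(S (nat_lit 19991) (S (nat_lit 45359) (L (nat_lit 13314884))
(L (nat_lit 21764485)))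
(L (nat_lit 7017881))))
(L (nat_lit 25599157)))))
(S (nat_lit 46355) (S (nat_lit 10987) (S (nat_lit 406) (L (nat_lit 23239469))
(S (nat_lit 7047) (S (nat_lit 9059) (S (nat_lit 8264) (S (nat_lit 13367) (S (nat_lit 13160) (L (nat_lit 2447804))
(L (nat_lit 1797515)))
(L (nat_lit 22453025)))
(L (nat_lit 21409569)))
(L (nat_lit 21425411)))
(L (nat_lit 3368340))))
(S (nat_lit 30751) (S (nat_lit 7047) (S (nat_lit 6634) (S (nat_lit 13160) (S (nat_lit 56559) (S (nat_lit 13367) (S (nat_lit 8264) (S (nat_lit 31931) (S (nat_lit 17046) (S (nat_lit 56560) (L (nat_lit 4639654))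
(L (nat_lit 21859569)))
(L (nat_lit 25009296)))
(L (nat_lit 31142919)))
(L (nat_lit 14420339)))
(L (nat_lit 14420650)))
(L (nat_lit 1600203)))
(L (nat_lit 1363388)))
(L (nat_lit 26847619)))
(S (nat_lit 55526) (L (nat_lit 6819634))
(L (nat_lit 23291269))))
(S (nat_lit 50515) (S (nat_lit 7047) (S (nat_lit 6634) (S (nat_lit 13160) (S (nat_lit 56559) (S (nat_lit 47570) (S (nat_lit 56560) (S (nat_lit 5135) (L (nat_lit 16687747))
(L (nat_lit 1712669)))
(L (nat_lit 21864465)))
(L (nat_lit 5688664)))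
(L (nat_lit 6843076)))
(L (nat_lit 7179666)))
(S (nat_lit 47144) (L (nat_lit 4631192))
(L (nat_lit 24029570))))
(S (nat_lit 19991) (L (nat_lit 8836216))
(L (nat_lit 6410649))))
(L (nat_lit 25930114)))))
(L (nat_lit 25570017)))))
(S (nat_lit 27054) (S (nat_lit 17071) (S (nat_lit 10936) (S (nat_lit 26811) (S (nat_lit 48521) (L (nat_lit 28737750))
(L (nat_lit 14358682)))
(S (nat_lit 40132) (L (nat_lit 5126760))
(L (nat_lit 1266076))))
(S (nat_lit 30700) (S (nat_lit 26811) (S (nat_lit 44594) (L (nat_lit 12206883))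
(L (nat_lit 11989174)))
(L (nat_lit 30660780)))
(S (nat_lit 50464) (S (nat_lit 44603) (L (nat_lit 12023491))
(S (nat_lit 50514) (L (nat_lit 30846528))
(L (nat_lit 11985046))))
(L (nat_lit 25724114)))))
(S (nat_lit 36835) (S (nat_lit 5177) (S (nat_lit 15311) (S (nat_lit 26418) (L (nat_lit 665018))
(S (nat_lit 46885) (S (nat_lit 46642) (S (nat_lit 46641) (S (nat_lit 4934) (S (nat_lit 56575) (L (nat_lit 12609846))
(L (nat_lit 6914588)))
(L (nat_lit 20873452)))
(L (nat_lit 810253)))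
(L (nat_lit 17161372)))
(L (nat_lit 4438780))))
(S (nat_lit 35075) (S (nat_lit 10088) (L (nat_lit 9264517))
(S (nat_lit 14582) (S (nat_lit 54680) (L (nat_lit 29959185))
(L (nat_lit 24328997)))
(L (nat_lit 12966941))))
(S (nat_lit 54839) (S (nat_lit 33182) (S (nat_lit 10935) (L (nat_lit 17538073))
(L (nat_lit 16554038)))
(L (nat_lit 16044833)))
(L (nat_lit 25854189)))))
(S (nat_lit 24941) (S (nat_lit 13145) (S (nat_lit 8330) (S (nat_lit 48314) (L (nat_lit 13176057))
(L (nat_lit 14572741)))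
(S (nat_lit 39462) (L (nat_lit 12836673))
(L (nat_lit 26261843))))
(S (nat_lit 32909) (S (nat_lit 26811) (S (nat_lit 51710) (S (nat_lit 27120) (S (nat_lit 24698) (S (nat_lit 19765) (L (nat_lit 29917430))
(L (nat_lit 2519252)))
(L (nat_lit 21375161)))
(L (nat_lit 15960854)))
(L (nat_lit 7959970)))
(L (nat_lit 1921415)))
(S (nat_lit 52673) (S (nat_lit 6203) (L (nat_lit 12029750))
(S (nat_lit 46642) (S (nat_lit 32980) (S (nat_lit 46885) (S (nat_lit 40775) (L (nat_lit 969007))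
(L (nat_lit 27304438)))
(L (nat_lit 22886470)))
(L (nat_lit 11550486)))
(L (nat_lit 10500700))))
(L (nat_lit 25217482)))))
(S (nat_lit 44705) (S (nat_lit 41394) (L (nat_lit 21333868))
(S (nat_lit 51710) (S (nat_lit 24656) (S (nat_lit 7113) (S (nat_lit 6577) (S (nat_lit 54890) (S (nat_lit 30023) (L (nat_lit 13278362))
(L (nat_lit 2342709)))
(L (nat_lit 21806219)))
(L (nat_lit 21216411)))
(L (nat_lit 24020455)))
(L (nat_lit 10119586)))
(L (nat_lit 7935788))))
(L (nat_lit 25408101)))))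
(S (nat_lit 56599) (S (nat_lit 9059) (S (nat_lit 1) (S (nat_lit 10274) (S (nat_lit 54110) (L (nat_lit 9886745))
(L (nat_lit 27698194)))
(L (nat_lit 215453)))
(L (nat_lit 26804616)))
(S (nat_lit 28823) (S (nat_lit 46819) (S (nat_lit 36796) (S (nat_lit 52) (S (nat_lit 40817) (L (nat_lit 12050273))
(L (nat_lit 23095687)))
(L (nat_lit 6976687)))
(L (nat_lit 870791)))
(L (nat_lit 27525522)))
(S (nat_lit 48587) (S (nat_lit 26649) (L (nat_lit 6982042))
(S (nat_lit 26811) (S (nat_lit 49802) (L (nat_lit 6741176))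
(L (nat_lit 27696211)))
(L (nat_lit 1274260))))
(L (nat_lit 25800714)))))
(L (nat_lit 25615621)))))
(S (nat_lit 46818) (S (nat_lit 1232) (S (nat_lit 4892) (S (nat_lit 51710) (S (nat_lit 36835) (S (nat_lit 33182) (S (nat_lit 50514) (S (nat_lit 36795) (S (nat_lit 48521) (S (nat_lit 46642) (L (nat_lit 29005102))
(L (nat_lit 20266785)))
(L (nat_lit 20082123)))
(L (nat_lit 20286876)))
(L (nat_lit 6172273)))
(L (nat_lit 20720161)))
(L (nat_lit 20361056)))
(L (nat_lit 20376928)))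
(L (nat_lit 19307360)))
(S (nat_lit 20996) (S (nat_lit 4892) (S (nat_lit 30750) (S (nat_lit 51710) (S (nat_lit 36835) (S (nat_lit 52961) (S (nat_lit 27106) (S (nat_lit 33182) (S (nat_lit 30023) (L (nat_lit 18686530))
(L (nat_lit 8305845)))
(L (nat_lit 10240641)))
(L (nat_lit 2616934)))
(L (nat_lit 1920304)))
(L (nat_lit 30856384)))
(L (nat_lit 22476128)))
(L (nat_lit 30856544)))
(L (nat_lit 6742688)))
(S (nat_lit 40760) (S (nat_lit 4892) (S (nat_lit 36835) (S (nat_lit 51710) (S (nat_lit 10986) (S (nat_lit 36795) (S (nat_lit 15362) (L (nat_lit 6705178))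
(L (nat_lit 22887595)))
(L (nat_lit 8212868)))
(L (nat_lit 896406)))
(L (nat_lit 7787296)))
(L (nat_lit 7795328)))
(L (nat_lit 7792256)))
(L (nat_lit 25345735)))))
(L (nat_lit 25209485)))))
(S (nat_lit 45170) (S (nat_lit 10274) (S (nat_lit 67) (S (nat_lit 5591) (S (nat_lit 1232) (S (nat_lit 1247) (S (nat_lit 26032) (L (nat_lit 14592118))
(L (nat_lit 20266916)))
(L (nat_lit 26716311)))
(S (nat_lit 20996) (S (nat_lit 51710) (S (nat_lit 36795) (L (nat_lit 13687655))
(L (nat_lit 8109244)))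
(L (nat_lit 20299552)))
(S (nat_lit 40760) (S (nat_lit 1247) (S (nat_lit 30765) (S (nat_lit 13418) (L (nat_lit 13640598))
(L (nat_lit 12863612)))
(L (nat_lit 17156864)))
(L (nat_lit 19358855)))
(L (nat_lit 25432784)))))
(S (nat_lit 25355) (S (nat_lit 24884) (S (nat_lit 24641) (S (nat_lit 26811) (S (nat_lit 9059) (S (nat_lit 46626) (L (nat_lit 15469254))
(L (nat_lit 22176076)))
(L (nat_lit 15035971)))
(L (nat_lit 1482646)))
(L (nat_lit 21094794)))
(S (nat_lit 37250) (L (nat_lit 1780282))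
(L (nat_lit 6898468))))
(S (nat_lit 45119) (S (nat_lit 6592) (S (nat_lit 4934) (S (nat_lit 36834) (S (nat_lit 36810) (L (nat_lit 2844976))
(L (nat_lit 13215834)))
(L (nat_lit 12872322)))
(L (nat_lit 26587714)))
(S (nat_lit 26356) (S (nat_lit 9059) (S (nat_lit 17046) (S (nat_lit 12167) (S (nat_lit 26397) (S (nat_lit 17070) (S (nat_lit 40817) (L (nat_lit 16883292))
(L (nat_lit 2631258)))
(L (nat_lit 3024462)))
(L (nat_lit 2682503)))
(L (nat_lit 23653664)))
(L (nat_lit 10185808)))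
(L (nat_lit 6352277)))
(S (nat_lit 46120) (S (nat_lit 27106) (S (nat_lit 46642) (S (nat_lit 17032) (L (nat_lit 28386870))
(L (nat_lit 9518966)))
(L (nat_lit 18204828)))
(L (nat_lit 2616998)))
(L (nat_lit 25244392)))))
(L (nat_lit 25796782)))))
(S (nat_lit 19831) (S (nat_lit 13433) (S (nat_lit 26341) (S (nat_lit 14648) (S (nat_lit 1) (S (nat_lit 9059) (S (nat_lit 56574) (L (nat_lit 4077813))
(L (nat_lit 21535901)))
(L (nat_lit 16902890)))
(L (nat_lit 12798755)))
(L (nat_lit 10369138)))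
(L (nat_lit 9452157)))
(S (nat_lit 33197) (S (nat_lit 4877) (S (nat_lit 9059) (S (nat_lit 26877) (L (nat_lit 24978882))
(L (nat_lit 9980837)))
(L (nat_lit 21327235)))
(S (nat_lit 24641) (S (nat_lit 28550) (S (nat_lit 24884) (S (nat_lit 30766) (L (nat_lit 30605718))
(L (nat_lit 8571664)))
(L (nat_lit 21258629)))
(L (nat_lit 13377557)))
(S (nat_lit 44405) (S (nat_lit 9059) (S (nat_lit 30765) (S (nat_lit 34412) (S (nat_lit 26862) (L (nat_lit 28913734))
(L (nat_lit 10027885)))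
(L (nat_lit 2996840)))
(L (nat_lit 10345585)))
(L (nat_lit 21326211)))
(L (nat_lit 25364204)))))
(S (nat_lit 52961) (S (nat_lit 54176) (S (nat_lit 9059) (S (nat_lit 46642) (S (nat_lit 8264) (S (nat_lit 17071) (L (nat_lit 24288733))
(L (nat_lit 10402368)))
(L (nat_lit 10226101)))
(S (nat_lit 47686) (L (nat_lit 12733692))
(L (nat_lit 2795311))))
(L (nat_lit 7784476)))
(L (nat_lit 21150600)))
(L (nat_lit 25208528)))))
(S (nat_lit 39595) (S (nat_lit 7341) (S (nat_lit 10987) (S (nat_lit 6634) (S (nat_lit 9059) (S (nat_lit 15377) (S (nat_lit 13160) (S (nat_lit 5120) (S (nat_lit 12182) (S (nat_lit 5135) (S (nat_lit 36795) (S (nat_lit 30765) (S (nat_lit 51) (S (nat_lit 46885) (S (nat_lit 6592) (S (nat_lit 15311) (S (nat_lit 8042) (S (nat_lit 17047) (S (nat_lit 34346) (S (nat_lit 26355) (S (nat_lit 11002) (S (nat_lit 17695) (S (nat_lit 11039) (S (nat_lit 42783) (S (nat_lit 8976) (D (nat_lit 12) (nat_lit 20450218) (nat_lit 21760390) (nat_lit 1191239520303973441))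
(L (nat_lit 30065952)))
(L (nat_lit 5839291)))
(L (nat_lit 28562853)))
(L (nat_lit 4738825)))
(L (nat_lit 7736183)))
(L (nat_lit 19392615)))
(L (nat_lit 15435131)))
(L (nat_lit 26547884)))
(L (nat_lit 804584)))
(L (nat_lit 8094477)))
(L (nat_lit 21049627)))
(L (nat_lit 8031119)))
(L (nat_lit 7008769)))
(L (nat_lit 30754927)))
(L (nat_lit 767228)))
(L (nat_lit 1261244)))
(L (nat_lit 23434685)))
(L (nat_lit 1561916)))
(L (nat_lit 7965085)))
(L (nat_lit 8292754)))
(L (nat_lit 6343069)))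
(L (nat_lit 26356367)))
(S (nat_lit 30751) (S (nat_lit 9059) (S (nat_lit 46819) (S (nat_lit 15377) (L (nat_lit 6747314))
(L (nat_lit 598588)))
(L (nat_lit 9864050)))
(L (nat_lit 23569249)))
(S (nat_lit 50515) (S (nat_lit 9059) (S (nat_lit 36834) (S (nat_lit 46885) (S (nat_lit 15377) (L (nat_lit 1494363))
(L (nat_lit 15278204)))
(L (nat_lit 4995287)))
(L (nat_lit 10935420)))
(L (nat_lit 21424417)))
(L (nat_lit 25760080)))))
(S (nat_lit 27105) (S (nat_lit 7047) (S (nat_lit 44405) (S (nat_lit 12182) (S (nat_lit 13160) (S (nat_lit 7290) (L (nat_lit 28418764))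
(L (nat_lit 21029258)))
(L (nat_lit 12905125)))
(L (nat_lit 3368524)))
(L (nat_lit 2320108)))
(S (nat_lit 26811) (S (nat_lit 8264) (S (nat_lit 8771) (L (nat_lit 684422))
(L (nat_lit 21173101)))
(L (nat_lit 2405171)))
(S (nat_lit 46575) (S (nat_lit 8771) (S (nat_lit 1) (L (nat_lit 26457270))
(L (nat_lit 26811778)))
(L (nat_lit 23278684)))
(L (nat_lit 25566853)))))
(S (nat_lit 46869) (S (nat_lit 17032) (S (nat_lit 46642) (S (nat_lit 30700) (S (nat_lit 48587) (L (nat_lit 13993842))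
(L (nat_lit 27698355)))
(L (nat_lit 17459208)))
(L (nat_lit 12238724)))
(S (nat_lit 36796) (S (nat_lit 8786) (S (nat_lit 9059) (L (nat_lit 27305525))
(L (nat_lit 23569596)))
(L (nat_lit 15534323)))
(S (nat_lit 56560) (S (nat_lit 46626) (S (nat_lit 8786) (S (nat_lit 44462) (L (nat_lit 22219320))
(L (nat_lit 23464186)))
(L (nat_lit 15272188)))
(L (nat_lit 11594412)))
(L (nat_lit 25305804)))))
(L (nat_lit 25631926)))))
(L (nat_lit 25934114)))))
(S (nat_lit 30038) (S (nat_lit 17031) (S (nat_lit 14633) (S (nat_lit 44822) (L (nat_lit 903687))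
(S (nat_lit 51392) (L (nat_lit 903687))
(L (nat_lit 837964))))
(S (nat_lit 34397) (S (nat_lit 5120) (S (nat_lit 33182) (S (nat_lit 52688) (S (nat_lit 6633) (S (nat_lit 51695) (L (nat_lit 29040689))
(L (nat_lit 27526549)))
(L (nat_lit 1747353)))
(L (nat_lit 27548037)))
(L (nat_lit 14865194)))
(S (nat_lit 24884) (S (nat_lit 24641) (S (nat_lit 30751) (S (nat_lit 47792) (S (nat_lit 33131) (L (nat_lit 10357139))
(L (nat_lit 23206297)))
(L (nat_lit 1799558)))
(L (nat_lit 2861464)))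
(L (nat_lit 21094794)))
(S (nat_lit 44648) (S (nat_lit 7290) (S (nat_lit 6633) (L (nat_lit 381338))
(L (nat_lit 23228806)))
(S (nat_lit 27983) (L (nat_lit 13209850))
(L (nat_lit 12593881))))
(L (nat_lit 25759177)))))
(S (nat_lit 54161) (S (nat_lit 51695) (S (nat_lit 24899) (L (nat_lit 28559377))
(L (nat_lit 6834948)))
(L (nat_lit 14863111)))
(L (nat_lit 25499188)))))
(S (nat_lit 36795) (S (nat_lit 28823) (S (nat_lit 51695) (S (nat_lit 1) (S (nat_lit 36796) (S (nat_lit 14582) (S (nat_lit 7048) (S (nat_lit 7291) (S (nat_lit 7047) (S (nat_lit 44648) (S (nat_lit 6633) (S (nat_lit 50515) (L (nat_lit 14764936))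
(L (nat_lit 5562770)))
(L (nat_lit 23433624)))
(L (nat_lit 27859333)))
(L (nat_lit 7529164)))
(L (nat_lit 26870150)))
(L (nat_lit 26877313)))
(L (nat_lit 26902918)))
(L (nat_lit 23455109)))
(L (nat_lit 8178082)))
(L (nat_lit 10340738)))
(L (nat_lit 10340739)))
(S (nat_lit 56559) (S (nat_lit 28823) (S (nat_lit 36796) (S (nat_lit 39529) (S (nat_lit 7291) (S (nat_lit 7048) (S (nat_lit 1289) (L (nat_lit 6201751))
(L (nat_lit 4070807)))
(L (nat_lit 23240090)))
(L (nat_lit 23396762)))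
(L (nat_lit 23266713)))
(L (nat_lit 7424413)))
(L (nat_lit 30525834)))
(L (nat_lit 25862320)))))
(S (nat_lit 49802) (S (nat_lit 15362) (S (nat_lit 14582) (S (nat_lit 7047) (S (nat_lit 30750) (S (nat_lit 8993) (S (nat_lit 8264) (L (nat_lit 29444305))
(L (nat_lit 2843014)))
(L (nat_lit 23160045)))
(L (nat_lit 2549350)))
(L (nat_lit 7739188)))
(S (nat_lit 34346) (S (nat_lit 13160) (S (nat_lit 1432) (L (nat_lit 16866123))
(S (nat_lit 36795) (S (nat_lit 48587) (L (nat_lit 10675605))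
(L (nat_lit 27380106)))
(L (nat_lit 30722436))))
(L (nat_lit 6916540)))
(S (nat_lit 54110) (S (nat_lit 48587) (S (nat_lit 52895) (S (nat_lit 21053) (S (nat_lit 31931) (S (nat_lit 27055) (S (nat_lit 50529) (L (nat_lit 13639292))
(L (nat_lit 13458689)))
(L (nat_lit 19136920)))
(L (nat_lit 7167360)))
(L (nat_lit 6380953)))
(L (nat_lit 27516291)))
(L (nat_lit 27614593)))
(L (nat_lit 25484305)))))
(S (nat_lit 35126) (S (nat_lit 7098) (S (nat_lit 6634) (S (nat_lit 50529) (S (nat_lit 36811) (S (nat_lit 24884) (L (nat_lit 7736182))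
(L (nat_lit 6911364)))
(L (nat_lit 13235493)))
(L (nat_lit 13214497)))
(S (nat_lit 26398) (S (nat_lit 46884) (S (nat_lit 50529) (S (nat_lit 34397) (L (nat_lit 27472481))
(L (nat_lit 3949780)))
(L (nat_lit 13371974)))
(L (nat_lit 10226252)))
(S (nat_lit 46162) (S (nat_lit 15377) (S (nat_lit 8786) (S (nat_lit 44663) (L (nat_lit 8128917))
(L (nat_lit 13280036)))
(L (nat_lit 23357485)))
(L (nat_lit 387476)))
(L (nat_lit 25858473)))))
(S (nat_lit 26862) (S (nat_lit 8315) (S (nat_lit 10549) (L (nat_lit 24414681))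
(S (nat_lit 44663) (S (nat_lit 17047) (S (nat_lit 46885) (S (nat_lit 50530) (L (nat_lit 8505885))
(L (nat_lit 11112237)))
(L (nat_lit 10304227)))
(L (nat_lit 10289841)))
(L (nat_lit 12657306))))
(S (nat_lit 28079) (S (nat_lit 1289) (S (nat_lit 30751) (S (nat_lit 48587) (L (nat_lit 30918731))
(L (nat_lit 20721955)))
(L (nat_lit 9006466)))
(S (nat_lit 40658) (S (nat_lit 30751) (S (nat_lit 44960) (L (nat_lit 19105240))
(L (nat_lit 20442466)))
(L (nat_lit 9006466)))
(L (nat_lit 3874608))))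
(S (nat_lit 47843) (S (nat_lit 6591) (S (nat_lit 48587) (S (nat_lit 7342) (L (nat_lit 2608006))
(L (nat_lit 1529766)))
(L (nat_lit 13978497)))
(L (nat_lit 13751142)))
(L (nat_lit 25658982)))))
(S (nat_lit 46626) (S (nat_lit 17071) (S (nat_lit 46885) (S (nat_lit 24884) (S (nat_lit 46642) (S (nat_lit 52895) (L (nat_lit 29482192))
(L (nat_lit 27483553)))
(L (nat_lit 17652873)))
(L (nat_lit 2971079)))
(L (nat_lit 20777446)))
(S (nat_lit 36835) (S (nat_lit 7290) (S (nat_lit 40775) (S (nat_lit 51710) (L (nat_lit 28494189))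
(L (nat_lit 2932085)))
(L (nat_lit 10274960)))
(L (nat_lit 13402762)))
(S (nat_lit 56599) (S (nat_lit 35141) (L (nat_lit 10029964))
(L (nat_lit 18418442)))
(L (nat_lit 25442885)))))
(L (nat_lit 25624948)))))
(S (nat_lit 54890) (S (nat_lit 14648) (S (nat_lit 4877) (S (nat_lit 5120) (S (nat_lit 1232) (L (nat_lit 250266))
(L (nat_lit 11135490)))
(L (nat_lit 20213125)))
(S (nat_lit 24641) (S (nat_lit 24884) (S (nat_lit 48587) (L (nat_lit 22940038))
(L (nat_lit 1745304)))
(L (nat_lit 21258629)))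
(S (nat_lit 44405) (S (nat_lit 48299) (S (nat_lit 52895) (S (nat_lit 26812) (S (nat_lit 7356) (L (nat_lit 28949700))
(L (nat_lit 12880472)))
(L (nat_lit 24350104)))
(L (nat_lit 27516289)))
(L (nat_lit 27311850)))
(L (nat_lit 25343723)))))
(S (nat_lit 34412) (S (nat_lit 13184) (S (nat_lit 8081) (S (nat_lit 24899) (L (nat_lit 18489124))
(L (nat_lit 14428836)))
(L (nat_lit 12869811)))
(S (nat_lit 32948) (S (nat_lit 30766) (S (nat_lit 5177) (S (nat_lit 24899) (L (nat_lit 5655337))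
(L (nat_lit 30621317)))
(L (nat_lit 20165380)))
(L (nat_lit 9015053)))
(S (nat_lit 52712) (S (nat_lit 46642) (S (nat_lit 40760) (S (nat_lit 24656) (S (nat_lit 50463) (L (nat_lit 28324424))
(L (nat_lit 27270644)))
(L (nat_lit 8932096)))
(L (nat_lit 3062006)))
(L (nat_lit 19938088)))
(L (nat_lit 25515556)))))
(S (nat_lit 54176) (S (nat_lit 7098) (S (nat_lit 27106) (S (nat_lit 13184) (S (nat_lit 48521) (S (nat_lit 30766) (L (nat_lit 28970439))
(L (nat_lit 8536664)))
(L (nat_lit 20070648)))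
(L (nat_lit 26810545)))
(L (nat_lit 2867448)))
(S (nat_lit 26862) (S (nat_lit 34397) (S (nat_lit 13145) (L (nat_lit 13372070))
(L (nat_lit 14428773)))
(L (nat_lit 16475270)))
(S (nat_lit 46626) (S (nat_lit 39594) (S (nat_lit 50529) (S (nat_lit 47792) (S (nat_lit 17047) (L (nat_lit 20200539))
(L (nat_lit 10077957)))
(L (nat_lit 27986342)))
(L (nat_lit 27658822)))
(L (nat_lit 27986406)))
(L (nat_lit 25624918)))))
(L (nat_lit 25443442)))))
(L (nat_lit 25250283)))))
(L (nat_lit 25445493)))))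
(L (nat_lit 25320839)))))
(S (nat_lit 27821) (S (nat_lit 15311) (S (nat_lit 17031) (S (nat_lit 17047) (S (nat_lit 15362) (S (nat_lit 67) (S (nat_lit 1247) (S (nat_lit 26862) (S (nat_lit 45170) (L (nat_lit 24131833))
(L (nat_lit 12803098)))
(L (nat_lit 14961756)))
(L (nat_lit 26429585)))
(S (nat_lit 19831) (S (nat_lit 10208) (S (nat_lit 32909) (S (nat_lit 27121) (L (nat_lit 28592269))
(L (nat_lit 14850839)))
(L (nat_lit 2967856)))
(L (nat_lit 15337222)))
(S (nat_lit 39595) (S (nat_lit 28028) (S (nat_lit 27121) (L (nat_lit 26595747))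
(L (nat_lit 15518050)))
(L (nat_lit 15541333)))
(L (nat_lit 25515490)))))
(S (nat_lit 35126) (S (nat_lit 5051) (L (nat_lit 2932459))
(S (nat_lit 44420) (S (nat_lit 27121) (S (nat_lit 27105) (S (nat_lit 24899) (S (nat_lit 44705) (L (nat_lit 28330221))
(L (nat_lit 9854999)))
(L (nat_lit 30853317)))
(L (nat_lit 30482092)))
(L (nat_lit 2815342)))
(L (nat_lit 445226))))
(S (nat_lit 54890) (S (nat_lit 8993) (S (nat_lit 26591) (S (nat_lit 52712) (L (nat_lit 26467377))
(L (nat_lit 4988497)))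
(L (nat_lit 14896897)))
(S (nat_lit 28757) (S (nat_lit 44705) (S (nat_lit 28550) (L (nat_lit 9952317))
(L (nat_lit 13373130)))
(L (nat_lit 15555623)))
(S (nat_lit 48521) (S (nat_lit 45185) (S (nat_lit 49787) (S (nat_lit 26356) (S (nat_lit 46869) (L (nat_lit 29924532))
(L (nat_lit 4693693)))
(L (nat_lit 9897746)))
(L (nat_lit 28032197)))
(L (nat_lit 8122786)))
(L (nat_lit 25696899)))))
(L (nat_lit 25579659)))))
(S (nat_lit 36811) (S (nat_lit 7291) (S (nat_lit 14648) (S (nat_lit 7047) (S (nat_lit 10936) (S (nat_lit 26877) (L (nat_lit 10501852))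
(L (nat_lit 24945708)))
(L (nat_lit 839917)))
(L (nat_lit 5988775)))
(S (nat_lit 34412) (S (nat_lit 7047) (S (nat_lit 10936) (L (nat_lit 12700454))
(L (nat_lit 8181808)))
(L (nat_lit 8147333)))
(S (nat_lit 54176) (S (nat_lit 47858) (S (nat_lit 10936) (S (nat_lit 8993) (S (nat_lit 7047) (L (nat_lit 28589760))
(L (nat_lit 7759493)))
(L (nat_lit 15425675)))
(L (nat_lit 7922371)))
(L (nat_lit 18630664)))
(L (nat_lit 25307604)))))
(S (nat_lit 27055) (S (nat_lit 7357) (S (nat_lit 7047) (S (nat_lit 26863) (S (nat_lit 44705) (S (nat_lit 50529) (L (nat_lit 15305080))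
(L (nat_lit 15475425)))
(L (nat_lit 24515928)))
(L (nat_lit 15630953)))
(L (nat_lit 13373127)))
(S (nat_lit 27121) (S (nat_lit 5013) (L (nat_lit 16522917))
(S (nat_lit 19765) (S (nat_lit 47843) (S (nat_lit 32909) (L (nat_lit 6343504))
(L (nat_lit 2542346)))
(L (nat_lit 22190616)))
(L (nat_lit 22032632))))
(S (nat_lit 46885) (S (nat_lit 52712) (L (nat_lit 29383050))
(L (nat_lit 11294245)))
(L (nat_lit 25860174)))))
(S (nat_lit 46819) (S (nat_lit 66) (S (nat_lit 10935) (S (nat_lit 10936) (L (nat_lit 21323791))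
(L (nat_lit 7832338)))
(L (nat_lit 7365108)))
(S (nat_lit 19830) (S (nat_lit 32948) (S (nat_lit 39529) (L (nat_lit 24544536))
(L (nat_lit 16795865)))
(L (nat_lit 2928978)))
(S (nat_lit 39594) (S (nat_lit 10935) (S (nat_lit 24899) (S (nat_lit 40817) (L (nat_lit 16974556))
(L (nat_lit 24910961)))
(L (nat_lit 2312974)))
(L (nat_lit 26459776)))
(L (nat_lit 25496204)))))
(L (nat_lit 25207502)))))
(S (nat_lit 56575) (S (nat_lit 8993) (S (nat_lit 8214) (S (nat_lit 26397) (L (nat_lit 17747137))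
(L (nat_lit 24306893)))
(S (nat_lit 47843) (S (nat_lit 29972) (L (nat_lit 5595603))
(L (nat_lit 30868789)))
(L (nat_lit 7070241))))
(S (nat_lit 28757) (S (nat_lit 17032) (S (nat_lit 1) (S (nat_lit 31988) (S (nat_lit 52688) (L (nat_lit 29726099))
(L (nat_lit 4681970)))
(L (nat_lit 1941043)))
(L (nat_lit 8178050)))
(S (nat_lit 36796) (S (nat_lit 39580) (S (nat_lit 51695) (S (nat_lit 19765) (L (nat_lit 27932897))
(L (nat_lit 9488792)))
(L (nat_lit 9554328)))
(L (nat_lit 27732117)))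
(S (nat_lit 56560) (S (nat_lit 54161) (S (nat_lit 27105) (S (nat_lit 49802) (L (nat_lit 8571291))
(L (nat_lit 27478404)))
(L (nat_lit 24601824)))
(L (nat_lit 21226020)))
(L (nat_lit 25643178)))))
(S (nat_lit 48521) (S (nat_lit 24899) (S (nat_lit 30023) (S (nat_lit 50530) (L (nat_lit 11551604))
(L (nat_lit 12324274)))
(L (nat_lit 24917189)))
(S (nat_lit 37692) (L (nat_lit 1664368))
(L (nat_lit 7093925))))
(L (nat_lit 25415757)))))
(L (nat_lit 25723254)))))
(S (nat_lit 36795) (S (nat_lit 8771) (S (nat_lit 1247) (S (nat_lit 8993) (S (nat_lit 10274) (L (nat_lit 24338821))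
(L (nat_lit 1264029)))
(S (nat_lit 45572) (L (nat_lit 7370480))
(L (nat_lit 17457377))))
(S (nat_lit 21011) (S (nat_lit 8081) (S (nat_lit 28574) (S (nat_lit 39579) (S (nat_lit 46642) (S (nat_lit 46394) (S (nat_lit 44705) (L (nat_lit 15063228))
(L (nat_lit 8206949)))
(L (nat_lit 1847915)))
(L (nat_lit 17156900)))
(L (nat_lit 27732147)))
(L (nat_lit 12776042)))
(S (nat_lit 27845) (S (nat_lit 36796) (L (nat_lit 31176933))
(L (nat_lit 8272915)))
(S (nat_lit 47609) (S (nat_lit 28550) (S (nat_lit 19765) (L (nat_lit 12339214))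
(L (nat_lit 14895133)))
(L (nat_lit 2896083)))
(L (nat_lit 25798181)))))
(S (nat_lit 40775) (S (nat_lit 13418) (S (nat_lit 44705) (S (nat_lit 7290) (S (nat_lit 8993) (L (nat_lit 23141820))
(L (nat_lit 16849715)))
(L (nat_lit 12912436)))
(L (nat_lit 27728918)))
(L (nat_lit 22482300)))
(L (nat_lit 25366007)))))
(S (nat_lit 28535) (S (nat_lit 15377) (S (nat_lit 13367) (S (nat_lit 44648) (S (nat_lit 7048) (S (nat_lit 40817) (S (nat_lit 10987) (L (nat_lit 10196880))
(L (nat_lit 904584)))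
(L (nat_lit 24142215)))
(L (nat_lit 23192968)))
(L (nat_lit 27612549)))
(S (nat_lit 33131) (S (nat_lit 44705) (S (nat_lit 10935) (L (nat_lit 764688))
(L (nat_lit 21553190)))
(L (nat_lit 8206948)))
(S (nat_lit 52895) (S (nat_lit 24122) (L (nat_lit 26710260))
(S (nat_lit 52712) (S (nat_lit 7341) (L (nat_lit 5846267))
(L (nat_lit 1922284)))
(L (nat_lit 19265060))))
(L (nat_lit 25407572)))))
(S (nat_lit 35141) (S (nat_lit 13184) (S (nat_lit 5135) (S (nat_lit 44405) (S (nat_lit 14582) (L (nat_lit 24314796))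
(L (nat_lit 12640564)))
(L (nat_lit 2615019)))
(L (nat_lit 18696548)))
(S (nat_lit 32948) (S (nat_lit 8786) (S (nat_lit 17046) (S (nat_lit 44405) (L (nat_lit 19152025))
(L (nat_lit 12755674)))
(L (nat_lit 25019748)))
(L (nat_lit 15442693)))
(S (nat_lit 52712) (S (nat_lit 19830) (S (nat_lit 32909) (S (nat_lit 5135) (L (nat_lit 15753130))
(L (nat_lit 17910140)))
(L (nat_lit 2876689)))
(L (nat_lit 21334797)))
(L (nat_lit 25539204)))))
(S (nat_lit 54905) (S (nat_lit 17047) (S (nat_lit 27806) (S (nat_lit 7290) (L (nat_lit 11560371))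
(L (nat_lit 13312768)))
(L (nat_lit 18891528)))
(S (nat_lit 36811) (S (nat_lit 39529) (S (nat_lit 7047) (L (nat_lit 5497235))
(L (nat_lit 12804212)))
(L (nat_lit 24123804)))
(S (nat_lit 56575) (S (nat_lit 5135) (L (nat_lit 19400491))
(L (nat_lit 19736997)))
(L (nat_lit 25511062)))))
(L (nat_lit 25319819)))))
(S (nat_lit 48299) (S (nat_lit 7290) (S (nat_lit 32924) (S (nat_lit 46870) (S (nat_lit 33182) (S (nat_lit 4934) (S (nat_lit 46162) (L (nat_lit 16483146))
(L (nat_lit 11294082)))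
(L (nat_lit 20384555)))
(L (nat_lit 20385579)))
(L (nat_lit 20406411)))
(S (nat_lit 49000) (L (nat_lit 4894108))
(L (nat_lit 3952011))))
(S (nat_lit 27054) (S (nat_lit 13418) (S (nat_lit 10936) (S (nat_lit 15362) (S (nat_lit 44663) (L (nat_lit 7401014))
(L (nat_lit 7883556)))
(L (nat_lit 15552651)))
(L (nat_lit 7996986)))
(S (nat_lit 33182) (S (nat_lit 9081) (L (nat_lit 19066248))
(S (nat_lit 54161) (S (nat_lit 56575) (S (nat_lit 44705) (L (nat_lit 19424517))
(L (nat_lit 13361413)))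
(L (nat_lit 6710944)))
(L (nat_lit 5728468))))
(S (nat_lit 52946) (S (nat_lit 17047) (L (nat_lit 10215841))
(L (nat_lit 24516394)))
(L (nat_lit 25348650)))))
(S (nat_lit 46818) (S (nat_lit 7047) (S (nat_lit 30750) (S (nat_lit 13160) (S (nat_lit 46642) (L (nat_lit 14507365))
(L (nat_lit 20265116)))
(L (nat_lit 6417810)))
(L (nat_lit 30676374)))
(S (nat_lit 34067) (L (nat_lit 13849349))
(L (nat_lit 6036884))))
(L (nat_lit 25822602)))))
(L (nat_lit 25897069)))))
(S (nat_lit 56559) (S (nat_lit 13145) (S (nat_lit 17032) (S (nat_lit 19765) (L (nat_lit 9881689))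
(L (nat_lit 3033481)))
(S (nat_lit 36796) (S (nat_lit 44663) (S (nat_lit 9059) (S (nat_lit 4892) (S (nat_lit 27121) (L (nat_lit 14895877))
(L (nat_lit 2640093)))
(L (nat_lit 7391677)))
(L (nat_lit 6343069)))
(L (nat_lit 12798852)))
(S (nat_lit 56560) (S (nat_lit 54161) (S (nat_lit 47858) (S (nat_lit 49802) (S (nat_lit 27121) (S (nat_lit 5591) (L (nat_lit 4770140))
(L (nat_lit 3427116)))
(L (nat_lit 16632002)))
(L (nat_lit 6441775)))
(L (nat_lit 6834979)))
(L (nat_lit 27511332)))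
(L (nat_lit 25867488)))))
(S (nat_lit 32909) (S (nat_lit 52) (S (nat_lit 7357) (S (nat_lit 4934) (S (nat_lit 30766) (L (nat_lit 19830797))
(L (nat_lit 8865885)))
(L (nat_lit 19333930)))
(S (nat_lit 27121) (S (nat_lit 54161) (S (nat_lit 19765) (S (nat_lit 52712) (L (nat_lit 14704885))
(L (nat_lit 19739787)))
(L (nat_lit 3558280)))
(L (nat_lit 18964689)))
(S (nat_lit 46885) (S (nat_lit 48299) (S (nat_lit 35126) (L (nat_lit 29821301))
(L (nat_lit 2411003)))
(L (nat_lit 15985380)))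
(L (nat_lit 25419203)))))
(S (nat_lit 19816) (S (nat_lit 17032) (S (nat_lit 27121) (S (nat_lit 48521) (S (nat_lit 4892) (L (nat_lit 30427376))
(L (nat_lit 16631946)))
(L (nat_lit 16681674)))
(L (nat_lit 14993501)))
(S (nat_lit 36796) (S (nat_lit 39579) (L (nat_lit 14490677))
(L (nat_lit 27726535)))
(S (nat_lit 56560) (S (nat_lit 19765) (L (nat_lit 9587098))
(L (nat_lit 14732168)))
(L (nat_lit 25312595)))))
(S (nat_lit 39580) (S (nat_lit 7098) (S (nat_lit 51752) (S (nat_lit 46105) (S (nat_lit 21011) (L (nat_lit 29404847))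
(L (nat_lit 6442769)))
(L (nat_lit 20357305)))
(L (nat_lit 9921216)))
(S (nat_lit 26862) (S (nat_lit 8786) (S (nat_lit 20996) (S (nat_lit 33197) (L (nat_lit 24404112))
(L (nat_lit 15771259)))
(L (nat_lit 1663216)))
(L (nat_lit 14999301)))
(S (nat_lit 46626) (S (nat_lit 47843) (S (nat_lit 51752) (L (nat_lit 27510865))
(L (nat_lit 9920629)))
(L (nat_lit 3924240)))
(L (nat_lit 25480204)))))
(L (nat_lit 25281256)))))
(S (nat_lit 52673) (S (nat_lit 17047) (S (nat_lit 8993) (S (nat_lit 10935) (S (nat_lit 26341) (S (nat_lit 27121) (L (nat_lit 15962840))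
(L (nat_lit 3391250)))
(L (nat_lit 14912120)))
(L (nat_lit 21201681)))
(S (nat_lit 28757) (S (nat_lit 4934) (S (nat_lit 33131) (L (nat_lit 18882012))
(L (nat_lit 15460491)))
(L (nat_lit 18887467)))
(S (nat_lit 48521) (S (nat_lit 12224) (S (nat_lit 48299) (S (nat_lit 26811) (S (nat_lit 17046) (L (nat_lit 12442673))
(L (nat_lit 24359001)))
(L (nat_lit 24293628)))
(L (nat_lit 15945509)))
(L (nat_lit 15958835)))
(L (nat_lit 25692403)))))
(S (nat_lit 36811) (S (nat_lit 13433) (S (nat_lit 34412) (S (nat_lit 40760) (L (nat_lit 2013800))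
(L (nat_lit 7530192)))
(L (nat_lit 8227536)))
(S (nat_lit 33197) (S (nat_lit 7291) (S (nat_lit 10936) (S (nat_lit 26341) (S (nat_lit 47426) (L (nat_lit 24946148))
(L (nat_lit 9554736)))
(L (nat_lit 18889080)))
(L (nat_lit 7361328)))
(L (nat_lit 8782642)))
(S (nat_lit 52961) (S (nat_lit 10935) (S (nat_lit 28808) (S (nat_lit 46355) (L (nat_lit 13387942))
(L (nat_lit 20065168)))
(L (nat_lit 18631786)))
(L (nat_lit 17850580)))
(L (nat_lit 25821643)))))
(S (nat_lit 56575) (S (nat_lit 6634) (S (nat_lit 10936) (S (nat_lit 8786) (S (nat_lit 48299) (L (nat_lit 21767713))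
(L (nat_lit 27496851)))
(L (nat_lit 15437611)))
(L (nat_lit 21029069)))
(S (nat_lit 26398) (S (nat_lit 27106) (S (nat_lit 28808) (S (nat_lit 56599) (L (nat_lit 16027475))
(L (nat_lit 18989898)))
(L (nat_lit 19459178)))
(L (nat_lit 3907375)))
(S (nat_lit 46162) (S (nat_lit 52946) (S (nat_lit 8993) (L (nat_lit 28836083))
(L (nat_lit 23552225)))
(L (nat_lit 11723409)))
(L (nat_lit 25511618)))))
(L (nat_lit 25417868)))))
(L (nat_lit 25177586)))))
(L (nat_lit 25481230)))))
(S (nat_lit 35075) (S (nat_lit 10936) (S (nat_lit 7047) (S (nat_lit 13160) (S (nat_lit 17031) (S (nat_lit 28550) (S (nat_lit 14298) (L (nat_lit 4899065))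
(L (nat_lit 3783929)))
(S (nat_lit 54018) (L (nat_lit 29890647))
(L (nat_lit 10242061))))
(S (nat_lit 36795) (S (nat_lit 22593) (L (nat_lit 2579371))
(S (nat_lit 45170) (S (nat_lit 27121) (S (nat_lit 28550) (L (nat_lit 29789394))
(L (nat_lit 24207565)))
(L (nat_lit 3980870)))
(L (nat_lit 23429902))))
(S (nat_lit 56559) (S (nat_lit 28757) (S (nat_lit 56575) (L (nat_lit 1271533))
(L (nat_lit 3398169)))
(L (nat_lit 30488789)))
(L (nat_lit 25310551)))))
(L (nat_lit 8194736)))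
(S (nat_lit 26811) (S (nat_lit 7291) (S (nat_lit 1) (S (nat_lit 7290) (S (nat_lit 10259) (L (nat_lit 29612207))
(L (nat_lit 258671)))
(L (nat_lit 12641930)))
(L (nat_lit 14221530)))
(S (nat_lit 27055) (S (nat_lit 7341) (L (nat_lit 29579437))
(L (nat_lit 14490772)))
(S (nat_lit 46819) (S (nat_lit 6866) (S (nat_lit 44705) (S (nat_lit 32924) (L (nat_lit 23313156))
(L (nat_lit 15474738)))
(L (nat_lit 8214572)))
(S (nat_lit 26630) (S (nat_lit 39529) (L (nat_lit 25009196))
(L (nat_lit 27892783)))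
(S (nat_lit 46394) (S (nat_lit 7113) (L (nat_lit 29569079))
(L (nat_lit 7260205)))
(L (nat_lit 25498165)))))
(L (nat_lit 25188779)))))
(S (nat_lit 46575) (S (nat_lit 6577) (S (nat_lit 7113) (S (nat_lit 6591) (S (nat_lit 56575) (L (nat_lit 2863420))
(L (nat_lit 6304630)))
(S (nat_lit 10814) (L (nat_lit 18083492))
(L (nat_lit 8095597))))
(S (nat_lit 26877) (S (nat_lit 38701) (L (nat_lit 4438648))
(L (nat_lit 27859981)))
(S (nat_lit 46641) (S (nat_lit 17071) (L (nat_lit 2308797))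
(L (nat_lit 3062346)))
(L (nat_lit 25699043)))))
(S (nat_lit 26341) (S (nat_lit 27121) (S (nat_lit 48299) (L (nat_lit 29608109))
(L (nat_lit 22274157)))
(L (nat_lit 2341810)))
(S (nat_lit 46105) (S (nat_lit 46059) (S (nat_lit 48299) (L (nat_lit 29822196))
(L (nat_lit 22222637)))
(S (nat_lit 50514) (S (nat_lit 10208) (L (nat_lit 29540596))
(L (nat_lit 680303)))
(L (nat_lit 14772902))))
(L (nat_lit 25561704)))))
(L (nat_lit 25271948)))))
(S (nat_lit 30700) (S (nat_lit 17032) (S (nat_lit 17070) (S (nat_lit 8042) (S (nat_lit 6577) (S (nat_lit 51587) (L (nat_lit 23555396))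
(L (nat_lit 30415468)))
(L (nat_lit 13650824)))
(S (nat_lit 27806) (S (nat_lit 27121) (S (nat_lit 17071) (L (nat_lit 15532275))
(L (nat_lit 24167335)))
(L (nat_lit 3983846)))
(S (nat_lit 47570) (S (nat_lit 44462) (S (nat_lit 24941) (L (nat_lit 3402163))
(L (nat_lit 13950853)))
(L (nat_lit 2907374)))
(L (nat_lit 25895364)))))
(S (nat_lit 36834) (S (nat_lit 28028) (L (nat_lit 30482835))
(S (nat_lit 35239) (L (nat_lit 23268236))
(L (nat_lit 7500179))))
(S (nat_lit 56598) (S (nat_lit 1) (S (nat_lit 28094) (L (nat_lit 2322869))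
(L (nat_lit 19693809)))
(S (nat_lit 5695) (L (nat_lit 14348512))
(L (nat_lit 14221563))))
(L (nat_lit 25596181)))))
(S (nat_lit 36796) (S (nat_lit 10208) (S (nat_lit 25046) (L (nat_lit 14451063))
(S (nat_lit 26811) (S (nat_lit 12224) (L (nat_lit 3647347))
(L (nat_lit 8848179)))
(L (nat_lit 5066988))))
(S (nat_lit 29972) (S (nat_lit 8042) (S (nat_lit 30038) (L (nat_lit 2564950))
(L (nat_lit 30607763)))
(S (nat_lit 27806) (S (nat_lit 49802) (L (nat_lit 9306515))
(L (nat_lit 9244051)))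
(S (nat_lit 47570) (S (nat_lit 8993) (L (nat_lit 16787251))
(L (nat_lit 2351571)))
(L (nat_lit 25565301)))))
(S (nat_lit 49736) (S (nat_lit 30038) (S (nat_lit 28757) (S (nat_lit 28823) (L (nat_lit 12839957))
(L (nat_lit 30909619)))
(L (nat_lit 9257107)))
(L (nat_lit 30674323)))
(L (nat_lit 25624947)))))
(S (nat_lit 56560) (S (nat_lit 7341) (S (nat_lit 28028) (L (nat_lit 30417299))
(L (nat_lit 389523)))
(S (nat_lit 27105) (S (nat_lit 48587) (L (nat_lit 13756723))
(L (nat_lit 3581747)))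
(S (nat_lit 46869) (S (nat_lit 28535) (L (nat_lit 30415251))
(L (nat_lit 3882762)))
(L (nat_lit 25285868)))))
(L (nat_lit 25710599)))))
(S (nat_lit 50464) (S (nat_lit 10935) (S (nat_lit 17071) (S (nat_lit 39529) (S (nat_lit 36834) (S (nat_lit 52946) (S (nat_lit 10259) (L (nat_lit 12193549))
(L (nat_lit 1667496)))
(L (nat_lit 1551002)))
(L (nat_lit 520841)))
(L (nat_lit 24019183)))
(S (nat_lit 36835) (S (nat_lit 34397) (S (nat_lit 29694) (L (nat_lit 14933924))
(S (nat_lit 39529) (S (nat_lit 56444) (L (nat_lit 2717037))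
(L (nat_lit 30907412)))
(L (nat_lit 23114972))))
(L (nat_lit 10983065)))
(S (nat_lit 56599) (S (nat_lit 17031) (S (nat_lit 56560) (S (nat_lit 54176) (S (nat_lit 39529) (S (nat_lit 44462) (S (nat_lit 46869) (S (nat_lit 26355) (S (nat_lit 7113) (S (nat_lit 25516) (S (nat_lit 12490) (S (nat_lit 35743) (S (nat_lit 55700) (D (nat_lit 8) (nat_lit 6048014) (nat_lit 17373240) (nat_lit 176134586370))
(L (nat_lit 14878296)))
(L (nat_lit 27311318)))
(L (nat_lit 27319501)))
(L (nat_lit 16599079)))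
(L (nat_lit 7227437)))
(L (nat_lit 16325756)))
(L (nat_lit 27761814)))
(L (nat_lit 13369558)))
(L (nat_lit 4790716)))
(L (nat_lit 27410118)))
(L (nat_lit 27410119)))
(S (nat_lit 36795) (S (nat_lit 1232) (S (nat_lit 39529) (S (nat_lit 8771) (S (nat_lit 31946) (L (nat_lit 23117018))
(L (nat_lit 19402503)))
(L (nat_lit 21183580)))
(L (nat_lit 27662946)))
(L (nat_lit 20724809)))
(S (nat_lit 56559) (S (nat_lit 40760) (S (nat_lit 34412) (S (nat_lit 13433) (L (nat_lit 30031016))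
(L (nat_lit 8273601)))
(L (nat_lit 7487193)))
(L (nat_lit 8306368)))
(L (nat_lit 25869321)))))
(L (nat_lit 25659975)))))
(S (nat_lit 30699) (S (nat_lit 8786) (S (nat_lit 5177) (S (nat_lit 26397) (S (nat_lit 30023) (S (nat_lit 27106) (L (nat_lit 14701789))
(L (nat_lit 19360995)))
(L (nat_lit 30808676)))
(L (nat_lit 24701990)))
(S (nat_lit 24941) (S (nat_lit 44462) (S (nat_lit 27121) (S (nat_lit 8771) (S (nat_lit 54161) (L (nat_lit 9308663))
(L (nat_lit 7018042)))
(L (nat_lit 7018044)))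
(L (nat_lit 31034734)))
(L (nat_lit 2582775)))
(S (nat_lit 44705) (S (nat_lit 26397) (S (nat_lit 7356) (L (nat_lit 21489672))
(L (nat_lit 12836673)))
(L (nat_lit 24669222)))
(L (nat_lit 25409590)))))
(S (nat_lit 28550) (S (nat_lit 1247) (S (nat_lit 52946) (S (nat_lit 36834) (L (nat_lit 7833241))
(L (nat_lit 10979994)))
(L (nat_lit 10981018)))
(S (nat_lit 21011) (S (nat_lit 33182) (S (nat_lit 17070) (S (nat_lit 44462) (S (nat_lit 24941) (S (nat_lit 24656) (L (nat_lit 20787552))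
(L (nat_lit 31079466)))
(L (nat_lit 2865993)))
(L (nat_lit 28016876)))
(L (nat_lit 9933465)))
(L (nat_lit 30429552)))
(S (nat_lit 40775) (S (nat_lit 13418) (S (nat_lit 17031) (S (nat_lit 7048) (L (nat_lit 14294850))
(L (nat_lit 13405399)))
(L (nat_lit 10272450)))
(L (nat_lit 6786716)))
(L (nat_lit 25833666)))))
(S (nat_lit 48314) (S (nat_lit 13367) (S (nat_lit 30023) (S (nat_lit 19815) (L (nat_lit 3370737))
(L (nat_lit 16013468)))
(L (nat_lit 3946150)))
(S (nat_lit 33131) (S (nat_lit 46394) (S (nat_lit 19765) (L (nat_lit 1924518))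
(L (nat_lit 3021422)))
(L (nat_lit 20777514)))
(S (nat_lit 52895) (S (nat_lit 8771) (S (nat_lit 44462) (S (nat_lit 56575) (S (nat_lit 26591) (L (nat_lit 29576241))
(L (nat_lit 15950869)))
(L (nat_lit 19116188)))
(L (nat_lit 13457600)))
(L (nat_lit 243452)))
(L (nat_lit 25304468)))))
(L (nat_lit 25473669)))))
(S (nat_lit 50463) (S (nat_lit 8315) (S (nat_lit 44462) (S (nat_lit 1) (S (nat_lit 45185) (S (nat_lit 12224) (S (nat_lit 8771) (S (nat_lit 24941) (S (nat_lit 48572) (L (nat_lit 25067756))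
(L (nat_lit 13658731)))
(L (nat_lit 21437499)))
(L (nat_lit 8091173)))
(L (nat_lit 20981308)))
(L (nat_lit 27284684)))
(L (nat_lit 26227924)))
(L (nat_lit 11558828)))
(S (nat_lit 28079) (S (nat_lit 25421) (S (nat_lit 1) (S (nat_lit 24941) (S (nat_lit 33182) (S (nat_lit 8771) (S (nat_lit 51752) (S (nat_lit 36811) (L (nat_lit 29995269))
(L (nat_lit 23098737)))
(L (nat_lit 27272755)))
(L (nat_lit 23098923)))
(L (nat_lit 8406898)))
(L (nat_lit 13884475)))
(L (nat_lit 19117115)))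
(L (nat_lit 30651446)))
(S (nat_lit 47843) (S (nat_lit 44462) (S (nat_lit 46642) (S (nat_lit 8771) (S (nat_lit 33182) (L (nat_lit 7368212))
(L (nat_lit 9455410)))
(L (nat_lit 23328292)))
(L (nat_lit 20719073)))
(L (nat_lit 27286732)))
(L (nat_lit 25773251)))))
(L (nat_lit 25377814)))))
(L (nat_lit 25186856)))))
(S (nat_lit 54839) (S (nat_lit 10259) (S (nat_lit 66) (S (nat_lit 10986) (S (nat_lit 5177) (S (nat_lit 36834) (S (nat_lit 24698) (S (nat_lit 13145) (S (nat_lit 46642) (S (nat_lit 30751) (L (nat_lit 7398866))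
(L (nat_lit 19675458)))
(L (nat_lit 27965700)))
(L (nat_lit 13366379)))
(L (nat_lit 31176898)))
(L (nat_lit 211767)))
(L (nat_lit 26982725)))
(S (nat_lit 30750) (S (nat_lit 30751) (S (nat_lit 67) (S (nat_lit 24698) (S (nat_lit 28574) (S (nat_lit 34412) (L (nat_lit 12667197))
(L (nat_lit 3695206)))
(L (nat_lit 25016458)))
(L (nat_lit 31176898)))
(L (nat_lit 768872)))
(L (nat_lit 10206051)))
(S (nat_lit 50514) (S (nat_lit 39595) (S (nat_lit 24698) (S (nat_lit 36795) (S (nat_lit 30751) (S (nat_lit 5135) (S (nat_lit 12224) (L (nat_lit 16680279))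
(L (nat_lit 8811136)))
(L (nat_lit 434844)))
(L (nat_lit 19839299)))
(L (nat_lit 6012156)))
(L (nat_lit 4963146)))
(L (nat_lit 4962588)))
(L (nat_lit 25465236)))))
(S (nat_lit 19830) (S (nat_lit 6577) (S (nat_lit 34412) (S (nat_lit 12182) (S (nat_lit 67) (S (nat_lit 27121) (S (nat_lit 40760) (L (nat_lit 28854561))
(L (nat_lit 8239808)))
(L (nat_lit 2996594)))
(L (nat_lit 7519930)))
(L (nat_lit 4046035)))
(L (nat_lit 2767624)))
(S (nat_lit 26341) (S (nat_lit 15362) (S (nat_lit 28079) (L (nat_lit 9851684))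
(L (nat_lit 14937203)))
(S (nat_lit 35126) (S (nat_lit 12182) (S (nat_lit 56560) (S (nat_lit 32354) (L (nat_lit 4955545))
(L (nat_lit 12304161)))
(L (nat_lit 7060668)))
(L (nat_lit 8993949)))
(S (nat_lit 54890) (S (nat_lit 28550) (S (nat_lit 56560) (L (nat_lit 9462481))
(L (nat_lit 3915562)))
(L (nat_lit 3066093)))
(L (nat_lit 25733701)))))
(S (nat_lit 46105) (S (nat_lit 5657) (S (nat_lit 28094) (S (nat_lit 36810) (L (nat_lit 15818963))
(L (nat_lit 30638766)))
(L (nat_lit 31112360)))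
(S (nat_lit 25421) (S (nat_lit 8315) (S (nat_lit 31931) (S (nat_lit 26591) (S (nat_lit 52895) (S (nat_lit 36811) (S (nat_lit 30765) (L (nat_lit 11144731))
(L (nat_lit 19768833)))
(L (nat_lit 23327825)))
(L (nat_lit 19117144)))
(L (nat_lit 5494233)))
(L (nat_lit 1335701)))
(L (nat_lit 2343612)))
(S (nat_lit 45185) (S (nat_lit 26877) (S (nat_lit 7099) (S (nat_lit 50463) (L (nat_lit 19834241))
(L (nat_lit 12842624)))
(L (nat_lit 13202785)))
(L (nat_lit 19216444)))
(L (nat_lit 25920878)))))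
(L (nat_lit 25615528)))))
(S (nat_lit 39594) (S (nat_lit 7290) (S (nat_lit 17405) (L (nat_lit 10978198))
(S (nat_lit 46119) (S (nat_lit 49736) (S (nat_lit 15362) (S (nat_lit 8042) (S (nat_lit 19815) (S (nat_lit 32924) (S (nat_lit 36796) (S (nat_lit 7048) (S (nat_lit 7342) (L (nat_lit 7835388))
(L (nat_lit 13342635)))
(L (nat_lit 21206427)))
(L (nat_lit 19997452)))
(L (nat_lit 2389396)))
(L (nat_lit 9558893)))
(L (nat_lit 21000646)))
(L (nat_lit 281517)))
(L (nat_lit 19952941)))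
(L (nat_lit 11404877))))
(S (nat_lit 27054) (S (nat_lit 6577) (S (nat_lit 10986) (S (nat_lit 13145) (S (nat_lit 5642) (L (nat_lit 26617012))
(L (nat_lit 19768332)))
(L (nat_lit 12831588)))
(L (nat_lit 16511142)))
(S (nat_lit 26341) (S (nat_lit 8786) (L (nat_lit 2383693))
(L (nat_lit 15555813)))
(S (nat_lit 46105) (S (nat_lit 7356) (S (nat_lit 8315) (S (nat_lit 44420) (L (nat_lit 23110168))
(L (nat_lit 924086)))
(L (nat_lit 2695740)))
(L (nat_lit 23300940)))
(L (nat_lit 25386159)))))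
(S (nat_lit 46818) (S (nat_lit 7114) (S (nat_lit 26341) (L (nat_lit 23077433))
(L (nat_lit 3390258)))
(S (nat_lit 26878) (S (nat_lit 30766) (S (nat_lit 28550) (L (nat_lit 9920661))
(L (nat_lit 19297477)))
(L (nat_lit 24448944)))
(S (nat_lit 46642) (S (nat_lit 28550) (S (nat_lit 47843) (S (nat_lit 48587) (L (nat_lit 16348387))
(L (nat_lit 27609101)))
(L (nat_lit 18442433)))
(L (nat_lit 31170605)))
(L (nat_lit 25540759)))))
(L (nat_lit 25567254)))))
(L (nat_lit 25317676)))))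
(S (nat_lit 30023) (S (nat_lit 4877) (S (nat_lit 10987) (S (nat_lit 7341) (S (nat_lit 9044) (L (nat_lit 26319533))
(L (nat_lit 7074863)))
(S (nat_lit 27105) (S (nat_lit 26591) (S (nat_lit 47843) (L (nat_lit 5848282))
(L (nat_lit 3973744)))
(L (nat_lit 15953473)))
(S (nat_lit 46869) (S (nat_lit 36835) (S (nat_lit 15377) (S (nat_lit 27120) (S (nat_lit 6592) (S (nat_lit 51710) (L (nat_lit 2799867))
(L (nat_lit 8123904)))
(L (nat_lit 13180027)))
(L (nat_lit 19128800)))
(L (nat_lit 6894405)))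
(L (nat_lit 18442279)))
(L (nat_lit 25679072)))))
(S (nat_lit 30751) (S (nat_lit 27105) (S (nat_lit 28574) (S (nat_lit 36835) (L (nat_lit 28577452))
(L (nat_lit 30451123)))
(L (nat_lit 30751332)))
(S (nat_lit 56683) (L (nat_lit 3745584))
(L (nat_lit 3952138))))
(S (nat_lit 50515) (S (nat_lit 7048) (S (nat_lit 1) (S (nat_lit 27120) (S (nat_lit 6633) (L (nat_lit 24348056))
(L (nat_lit 7968152)))
(L (nat_lit 15982336)))
(L (nat_lit 18881327)))
(S (nat_lit 26812) (S (nat_lit 28535) (S (nat_lit 1289) (S (nat_lit 6633) (L (nat_lit 21080848))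
(L (nat_lit 12962873)))
(L (nat_lit 19199360)))
(L (nat_lit 30642925)))
(S (nat_lit 46576) (S (nat_lit 5177) (S (nat_lit 36795) (L (nat_lit 6962081))
(L (nat_lit 8107196)))
(L (nat_lit 15987300)))
(L (nat_lit 25894273)))))
(L (nat_lit 25761224)))))
(S (nat_lit 24641) (S (nat_lit 8771) (S (nat_lit 6827) (S (nat_lit 51752) (L (nat_lit 2352717))
(L (nat_lit 20167522)))
(L (nat_lit 4444017)))
(S (nat_lit 28535) (S (nat_lit 30700) (S (nat_lit 27120) (S (nat_lit 26341) (S (nat_lit 27121) (S (nat_lit 36835) (S (nat_lit 25421) (L (nat_lit 12437553))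
(L (nat_lit 4446126)))
(L (nat_lit 31008160)))
(L (nat_lit 3399439)))
(L (nat_lit 2345501)))
(L (nat_lit 30656621)))
(L (nat_lit 30655538)))
(S (nat_lit 48299) (S (nat_lit 52673) (S (nat_lit 27120) (L (nat_lit 4439958))
(L (nat_lit 19128769)))
(L (nat_lit 21225924)))
(L (nat_lit 25832527)))))
(S (nat_lit 44405) (S (nat_lit 1247) (S (nat_lit 4934) (S (nat_lit 27120) (L (nat_lit 18777298))
(L (nat_lit 19133920)))
(S (nat_lit 24698) (S (nat_lit 25421) (S (nat_lit 34412) (S (nat_lit 14633) (L (nat_lit 18081377))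
(L (nat_lit 903377)))
(L (nat_lit 3980902)))
(S (nat_lit 49617) (L (nat_lit 3980966))
(L (nat_lit 30652032))))
(S (nat_lit 44462) (S (nat_lit 26862) (L (nat_lit 29960738))
(L (nat_lit 19345251)))
(L (nat_lit 25508023)))))
(S (nat_lit 21011) (S (nat_lit 51710) (S (nat_lit 24698) (S (nat_lit 49802) (S (nat_lit 54161) (S (nat_lit 27121) (S (nat_lit 46642) (S (nat_lit 25406) (L (nat_lit 8272449))
(L (nat_lit 30858249)))
(L (nat_lit 12336178)))
(L (nat_lit 14934594)))
(L (nat_lit 27511332)))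
(L (nat_lit 15944581)))
(L (nat_lit 5037262)))
(L (nat_lit 14820149)))
(S (nat_lit 40775) (S (nat_lit 14483) (L (nat_lit 12062518))
(S (nat_lit 17046) (S (nat_lit 30700) (S (nat_lit 54161) (S (nat_lit 40817) (L (nat_lit 29819092))
(L (nat_lit 24373424)))
(L (nat_lit 19130885)))
(L (nat_lit 24364056)))
(L (nat_lit 14929698))))
(L (nat_lit 25643047)))))
(L (nat_lit 25383950)))))
(S (nat_lit 49787) (S (nat_lit 13367) (S (nat_lit 8993) (S (nat_lit 32909) (S (nat_lit 54161) (S (nat_lit 27121) (S (nat_lit 10935) (S (nat_lit 46105) (S (nat_lit 36811) (L (nat_lit 29079623))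
(L (nat_lit 12842661)))
(L (nat_lit 27506834)))
(L (nat_lit 21219105)))
(L (nat_lit 30662114)))
(L (nat_lit 27496980)))
(L (nat_lit 15984324)))
(S (nat_lit 28757) (S (nat_lit 7356) (S (nat_lit 36811) (L (nat_lit 12814162))
(L (nat_lit 20177344)))
(L (nat_lit 13863672)))
(S (nat_lit 48521) (S (nat_lit 10208) (S (nat_lit 48338) (S (nat_lit 12224) (S (nat_lit 30700) (L (nat_lit 4447021))
(L (nat_lit 31135789)))
(L (nat_lit 16653491)))
(S (nat_lit 54105) (L (nat_lit 5460781))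
(L (nat_lit 16521365))))
(S (nat_lit 29972) (S (nat_lit 28535) (S (nat_lit 19815) (L (nat_lit 22045901))
(L (nat_lit 30878867)))
(L (nat_lit 2319949)))
(S (nat_lit 49736) (S (nat_lit 56599) (S (nat_lit 7048) (L (nat_lit 12466227))
(L (nat_lit 14438596)))
(L (nat_lit 14439621)))
(L (nat_lit 25887023)))))
(L (nat_lit 25238035)))))
(S (nat_lit 33131) (S (nat_lit 11002) (S (nat_lit 8264) (S (nat_lit 56599) (S (nat_lit 21053) (L (nat_lit 21227936))
(L (nat_lit 1301945)))
(L (nat_lit 27462067)))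
(L (nat_lit 21389446)))
(S (nat_lit 30766) (S (nat_lit 9044) (S (nat_lit 36834) (S (nat_lit 1289) (L (nat_lit 17377121))
(L (nat_lit 5561789)))
(L (nat_lit 8229301)))
(S (nat_lit 28808) (S (nat_lit 26877) (S (nat_lit 56599) (S (nat_lit 28550) (S (nat_lit 32909) (S (nat_lit 54890) (S (nat_lit 26397) (S (nat_lit 19765) (S (nat_lit 21053) (S (nat_lit 11001) (S (nat_lit 26811) (S (nat_lit 7889) (S (nat_lit 26930) (S (nat_lit 26488) (S (nat_lit 56717) (S (nat_lit 26723) (D (nat_lit 12) (nat_lit 22485796) (nat_lit 19390660) (nat_lit 2305843043573465089))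
(L (nat_lit 29001099)))
(L (nat_lit 26576308)))
(L (nat_lit 27407570)))
(L (nat_lit 28771978)))
(L (nat_lit 27762835)))
(L (nat_lit 31077478)))
(L (nat_lit 7818049)))
(L (nat_lit 30942784)))
(L (nat_lit 30820392)))
(L (nat_lit 16442592)))
(L (nat_lit 12359245)))
(L (nat_lit 16442475)))
(L (nat_lit 30722061)))
(L (nat_lit 3946707)))
(L (nat_lit 9035821)))
(S (nat_lit 48572) (S (nat_lit 7290) (S (nat_lit 27806) (L (nat_lit 21902529))
(L (nat_lit 30821478)))
(L (nat_lit 23126440)))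
(L (nat_lit 25765933)))))
(S (nat_lit 50530) (S (nat_lit 15377) (S (nat_lit 15150) (L (nat_lit 4535125))
(S (nat_lit 39579) (S (nat_lit 7356) (S (nat_lit 17047) (L (nat_lit 22252400))
(L (nat_lit 15034515)))
(L (nat_lit 14551412)))
(L (nat_lit 11179853))))
(S (nat_lit 35141) (S (nat_lit 13184) (S (nat_lit 32909) (L (nat_lit 12798821))
(L (nat_lit 15602962)))
(L (nat_lit 14311780)))
(S (nat_lit 54905) (S (nat_lit 27106) (S (nat_lit 56560) (L (nat_lit 8874660))
(L (nat_lit 16507050)))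
(L (nat_lit 16490274)))
(L (nat_lit 25339599)))))
(L (nat_lit 25315849)))))
(S (nat_lit 52895) (S (nat_lit 6634) (S (nat_lit 6203) (S (nat_lit 48521) (L (nat_lit 14392161))
(L (nat_lit 13726965)))
(S (nat_lit 46642) (S (nat_lit 39579) (S (nat_lit 8081) (S (nat_lit 24698) (S (nat_lit 48521) (L (nat_lit 15738771))
(L (nat_lit 2013429)))
(L (nat_lit 31176928)))
(L (nat_lit 13534421)))
(L (nat_lit 12019858)))
(L (nat_lit 11188380))))
(S (nat_lit 26398) (S (nat_lit 4877) (S (nat_lit 28535) (S (nat_lit 30750) (S (nat_lit 26591) (S (nat_lit 47843) (L (nat_lit 29607949))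
(L (nat_lit 17847514)))
(L (nat_lit 15986243)))
(L (nat_lit 30692737)))
(L (nat_lit 4079339)))
(S (nat_lit 24641) (S (nat_lit 56599) (S (nat_lit 10935) (L (nat_lit 1922255))
(L (nat_lit 15959860)))
(L (nat_lit 14439621)))
(S (nat_lit 44405) (S (nat_lit 27121) (S (nat_lit 54161) (L (nat_lit 29001935))
(L (nat_lit 19120900)))
(L (nat_lit 19118850)))
(L (nat_lit 25662187)))))
(S (nat_lit 46162) (S (nat_lit 17032) (S (nat_lit 48521) (S (nat_lit 30700) (L (nat_lit 1635538))
(L (nat_lit 30900434)))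
(L (nat_lit 27932810)))
(S (nat_lit 36796) (S (nat_lit 4463) (L (nat_lit 26641750))
(S (nat_lit 28550) (L (nat_lit 6021329))
(L (nat_lit 2679498))))
(S (nat_lit 56560) (S (nat_lit 10935) (S (nat_lit 28808) (S (nat_lit 28550) (L (nat_lit 8877141))
(L (nat_lit 19161101)))
(L (nat_lit 31174049)))
(L (nat_lit 20996335)))
(L (nat_lit 25862528)))))
(L (nat_lit 25864206)))))
(L (nat_lit 25365232)))))
(L (nat_lit 25731685)))))
(L (nat_lit 25625259)))))
(S (nat_lit 47585) (S (nat_lit 10259) (S (nat_lit 8264) (S (nat_lit 10936) (S (nat_lit 17032) (S (nat_lit 8771) (S (nat_lit 10935) (L (nat_lit 6077651))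
(L (nat_lit 23895087)))
(L (nat_lit 7082387)))
(S (nat_lit 36796) (S (nat_lit 51695) (S (nat_lit 28535) (L (nat_lit 31079464))
(L (nat_lit 30609811)))
(L (nat_lit 8229267)))
(S (nat_lit 56560) (S (nat_lit 31931) (S (nat_lit 48299) (S (nat_lit 5591) (S (nat_lit 10935) (S (nat_lit 46642) (S (nat_lit 49802) (L (nat_lit 17507482))
(L (nat_lit 20785540)))
(L (nat_lit 22887681)))
(L (nat_lit 18046998)))
(L (nat_lit 9190518)))
(L (nat_lit 5156243)))
(L (nat_lit 5123475)))
(L (nat_lit 25464428)))))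
(S (nat_lit 30700) (S (nat_lit 52) (S (nat_lit 10406) (L (nat_lit 19116933))
(S (nat_lit 17046) (S (nat_lit 7357) (S (nat_lit 10935) (S (nat_lit 12182) (S (nat_lit 4877) (L (nat_lit 17443586))
(L (nat_lit 3369710)))
(L (nat_lit 21873858)))
(L (nat_lit 23298552)))
(S (nat_lit 19413) (L (nat_lit 14911165))
(L (nat_lit 21904738))))
(L (nat_lit 5096757))))
(S (nat_lit 19816) (S (nat_lit 46105) (S (nat_lit 46884) (S (nat_lit 17071) (S (nat_lit 26877) (L (nat_lit 28969416))
(L (nat_lit 16108291)))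
(L (nat_lit 10118629)))
(L (nat_lit 4999532)))
(L (nat_lit 17855080)))
(S (nat_lit 39580) (S (nat_lit 14633) (S (nat_lit 7357) (S (nat_lit 10935) (S (nat_lit 1247) (S (nat_lit 33182) (L (nat_lit 28368424))
(L (nat_lit 10391184)))
(L (nat_lit 26414736)))
(L (nat_lit 26885158)))
(L (nat_lit 23301999)))
(L (nat_lit 24375813)))
(L (nat_lit 25450670)))))
(S (nat_lit 50464) (S (nat_lit 52) (S (nat_lit 17046) (S (nat_lit 28808) (S (nat_lit 35075) (S (nat_lit 10935) (S (nat_lit 12182) (L (nat_lit 15472692))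
(L (nat_lit 4006325)))
(L (nat_lit 18055832)))
(L (nat_lit 23312409)))
(L (nat_lit 12879731)))
(S (nat_lit 20734) (S (nat_lit 31068) (L (nat_lit 13643635))
(L (nat_lit 13373062)))
(L (nat_lit 4779317))))
(S (nat_lit 19816) (S (nat_lit 17071) (S (nat_lit 28808) (S (nat_lit 56574) (S (nat_lit 32948) (S (nat_lit 10935) (L (nat_lit 1973840))
(L (nat_lit 21021912)))
(L (nat_lit 15032164)))
(L (nat_lit 15754549)))
(L (nat_lit 9463219)))
(L (nat_lit 10118188)))
(S (nat_lit 39580) (S (nat_lit 10935) (S (nat_lit 46627) (S (nat_lit 7357) (S (nat_lit 14582) (S (nat_lit 14633) (S (nat_lit 35141) (S (nat_lit 46642) (S (nat_lit 6577) (S (nat_lit 12167) (S (nat_lit 47570) (S (nat_lit 7291) (S (nat_lit 36038) (S (nat_lit 8181) (S (nat_lit 14648) (S (nat_lit 8117) (S (nat_lit 7394) (D (nat_lit 12) (nat_lit 19733957) (nat_lit 23867463) (nat_lit 37191050637411362))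
(L (nat_lit 2934131)))
(L (nat_lit 28319345)))
(L (nat_lit 13179997)))
(L (nat_lit 22078828)))
(L (nat_lit 10600121)))
(L (nat_lit 9221138)))
(L (nat_lit 5161544)))
(L (nat_lit 21247004)))
(L (nat_lit 843118)))
(L (nat_lit 16868936)))
(L (nat_lit 3667658)))
(L (nat_lit 24375813)))
(L (nat_lit 24936840)))
(L (nat_lit 23301999)))
(L (nat_lit 17597032)))
(L (nat_lit 255695)))
(L (nat_lit 25648483)))))
(L (nat_lit 25219312)))))
(S (nat_lit 28028) (S (nat_lit 17071) (S (nat_lit 28808) (S (nat_lit 12182) (S (nat_lit 7357) (S (nat_lit 48338) (S (nat_lit 45170) (S (nat_lit 46642) (S (nat_lit 14633) (L (nat_lit 19013020))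
(L (nat_lit 22876678)))
(L (nat_lit 22886689)))
(L (nat_lit 8271958)))
(L (nat_lit 11693491)))
(L (nat_lit 637766)))
(L (nat_lit 26414515)))
(L (nat_lit 290227)))
(L (nat_lit 10389939)))
(S (nat_lit 47792) (S (nat_lit 7357) (S (nat_lit 28574) (S (nat_lit 14633) (S (nat_lit 26862) (S (nat_lit 32948) (S (nat_lit 10935) (S (nat_lit 1247) (S (nat_lit 33182) (S (nat_lit 46642) (S (nat_lit 19816) (S (nat_lit 24641) (S (nat_lit 7947) (L (nat_lit 2440797))
(L (nat_lit 29703811)))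
(L (nat_lit 10073954)))
(L (nat_lit 9199106)))
(L (nat_lit 22363012)))
(L (nat_lit 15306538)))
(L (nat_lit 19336412)))
(L (nat_lit 842214)))
(L (nat_lit 4038224)))
(L (nat_lit 9896636)))
(L (nat_lit 24581030)))
(L (nat_lit 30547379)))
(L (nat_lit 23214950)))
(L (nat_lit 25579809)))))
(S (nat_lit 30023) (S (nat_lit 8810) (S (nat_lit 7357) (S (nat_lit 9044) (S (nat_lit 26862) (S (nat_lit 35141) (S (nat_lit 50515) (L (nat_lit 2563803))
(L (nat_lit 11625069)))
(L (nat_lit 9593453)))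
(L (nat_lit 9594477)))
(S (nat_lit 28808) (S (nat_lit 12182) (L (nat_lit 26323379))
(L (nat_lit 6136243)))
(S (nat_lit 48572) (S (nat_lit 28028) (S (nat_lit 51710) (S (nat_lit 1247) (L (nat_lit 10106625))
(L (nat_lit 13443746)))
(L (nat_lit 10358195)))
(L (nat_lit 6172083)))
(L (nat_lit 25932842)))))
(S (nat_lit 27121) (S (nat_lit 6634) (S (nat_lit 13184) (S (nat_lit 10935) (S (nat_lit 7047) (L (nat_lit 19067302))
(L (nat_lit 13262950)))
(L (nat_lit 680422)))
(S (nat_lit 32948) (S (nat_lit 7047) (S (nat_lit 36811) (L (nat_lit 29903204))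
(L (nat_lit 23650439)))
(L (nat_lit 23894435)))
(S (nat_lit 52712) (S (nat_lit 46119) (S (nat_lit 14633) (L (nat_lit 12814939))
(L (nat_lit 13988420)))
(L (nat_lit 17532806)))
(L (nat_lit 25729605)))))
(S (nat_lit 26398) (S (nat_lit 28550) (S (nat_lit 8315) (L (nat_lit 12835963))
(L (nat_lit 12914611)))
(S (nat_lit 28712) (S (nat_lit 26862) (L (nat_lit 3405234))
(L (nat_lit 15434534)))
(L (nat_lit 2383385))))
(S (nat_lit 46162) (S (nat_lit 24884) (S (nat_lit 32924) (L (nat_lit 29919474))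
(L (nat_lit 8506777)))
(L (nat_lit 6898468)))
(L (nat_lit 25499342)))))
(S (nat_lit 46885) (S (nat_lit 14582) (S (nat_lit 7099) (S (nat_lit 44648) (S (nat_lit 11002) (L (nat_lit 28916037))
(L (nat_lit 7490413)))
(L (nat_lit 23651620)))
(S (nat_lit 26863) (S (nat_lit 56574) (S (nat_lit 36835) (L (nat_lit 23182086))
(L (nat_lit 30858437)))
(L (nat_lit 1697136)))
(S (nat_lit 46627) (S (nat_lit 8786) (S (nat_lit 28079) (S (nat_lit 13184) (L (nat_lit 5463581))
(L (nat_lit 7493180)))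
(L (nat_lit 7853859)))
(L (nat_lit 7932717)))
(L (nat_lit 25218383)))))
(S (nat_lit 34346) (S (nat_lit 4892) (S (nat_lit 8993) (S (nat_lit 13433) (L (nat_lit 452326))
(L (nat_lit 7388796)))
(L (nat_lit 7825025)))
(S (nat_lit 24656) (S (nat_lit 13160) (S (nat_lit 45170) (L (nat_lit 19806436))
(L (nat_lit 23207320)))
(L (nat_lit 24983594)))
(S (nat_lit 44420) (S (nat_lit 7047) (S (nat_lit 10986) (L (nat_lit 1982182))
(L (nat_lit 23965830)))
(L (nat_lit 7999277)))
(L (nat_lit 25611403)))))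
(S (nat_lit 54110) (S (nat_lit 4892) (S (nat_lit 15362) (S (nat_lit 21053) (L (nat_lit 19020586))
(L (nat_lit 21226914)))
(L (nat_lit 8230322)))
(S (nat_lit 10433) (L (nat_lit 6404886))
(L (nat_lit 16009276))))
(L (nat_lit 25178420)))))
(L (nat_lit 25729143)))))
(S (nat_lit 28574) (S (nat_lit 51710) (S (nat_lit 36835) (S (nat_lit 8264) (S (nat_lit 30751) (S (nat_lit 27105) (S (nat_lit 25406) (S (nat_lit 24641) (S (nat_lit 6592) (S (nat_lit 54905) (S (nat_lit 33182) (S (nat_lit 44648) (S (nat_lit 46642) (S (nat_lit 1247) (S (nat_lit 25421) (L (nat_lit 9486939))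
(L (nat_lit 22250939)))
(L (nat_lit 12635517)))
(L (nat_lit 22045999)))
(L (nat_lit 12608822)))
(L (nat_lit 19949067)))
(L (nat_lit 19374170)))
(L (nat_lit 1336818)))
(L (nat_lit 8995682)))
(L (nat_lit 5004681)))
(L (nat_lit 19393674)))
(S (nat_lit 56381) (L (nat_lit 8941217))
(L (nat_lit 30718563))))
(L (nat_lit 12358067)))
(L (nat_lit 828851)))
(L (nat_lit 27402675)))
(S (nat_lit 48338) (S (nat_lit 47792) (S (nat_lit 17047) (S (nat_lit 51710) (S (nat_lit 19815) (S (nat_lit 36835) (S (nat_lit 10208) (S (nat_lit 13367) (S (nat_lit 31931) (S (nat_lit 46642) (S (nat_lit 54890) (L (nat_lit 4790778))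
(L (nat_lit 4841837)))
(L (nat_lit 22586145)))
(L (nat_lit 4715827)))
(L (nat_lit 22263585)))
(L (nat_lit 17563955)))
(L (nat_lit 18090803)))
(L (nat_lit 2377587)))
(L (nat_lit 9892915)))
(S (nat_lit 36811) (S (nat_lit 47858) (S (nat_lit 48572) (S (nat_lit 48521) (S (nat_lit 51710) (S (nat_lit 48314) (S (nat_lit 48587) (S (nat_lit 46642) (S (nat_lit 47570) (S (nat_lit 26862) (L (nat_lit 8435602))
(L (nat_lit 10226285)))
(L (nat_lit 27271761)))
(L (nat_lit 20298529)))
(L (nat_lit 16057139)))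
(L (nat_lit 10907667)))
(L (nat_lit 27797651)))
(L (nat_lit 4110547)))
(L (nat_lit 13642515)))
(L (nat_lit 7093427)))
(S (nat_lit 56575) (S (nat_lit 31988) (S (nat_lit 8993) (S (nat_lit 26591) (S (nat_lit 49736) (S (nat_lit 8786) (S (nat_lit 27845) (S (nat_lit 28823) (S (nat_lit 35126) (S (nat_lit 6591) (S (nat_lit 5657) (S (nat_lit 50463) (L (nat_lit 10597979))
(L (nat_lit 11391521)))
(L (nat_lit 8808502)))
(L (nat_lit 13719865)))
(L (nat_lit 2745709)))
(L (nat_lit 17868563)))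
(L (nat_lit 15926067)))
(L (nat_lit 1924554)))
(L (nat_lit 6778500)))
(L (nat_lit 15885899)))
(L (nat_lit 2647251)))
(L (nat_lit 11953331)))
(L (nat_lit 25800775)))))
(L (nat_lit 7180723)))
(L (nat_lit 25599123)))))
(S (nat_lit 49787) (S (nat_lit 6634) (S (nat_lit 5177) (S (nat_lit 7098) (S (nat_lit 7357) (S (nat_lit 8264) (S (nat_lit 1289) (S (nat_lit 10208) (L (nat_lit 30098693))
(L (nat_lit 26264262)))
(L (nat_lit 13655847)))
(L (nat_lit 23901254)))
(L (nat_lit 13786950)))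
(S (nat_lit 26862) (S (nat_lit 8172) (L (nat_lit 11147052))
(S (nat_lit 27054) (S (nat_lit 23127) (L (nat_lit 18916762))
(S (nat_lit 46355) (S (nat_lit 4892) (S (nat_lit 5591) (L (nat_lit 26367495))
(L (nat_lit 16525888)))
(L (nat_lit 20778252)))
(L (nat_lit 16995354))))
(L (nat_lit 19800077))))
(S (nat_lit 46626) (S (nat_lit 17047) (S (nat_lit 48314) (S (nat_lit 24899) (S (nat_lit 27054) (S (nat_lit 8315) (L (nat_lit 29840645))
(L (nat_lit 4956732)))
(L (nat_lit 2513178)))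
(L (nat_lit 14437449)))
(L (nat_lit 20858084)))
(S (nat_lit 36811) (S (nat_lit 42627) (L (nat_lit 6482542))
(S (nat_lit 56560) (S (nat_lit 46884) (L (nat_lit 4542225))
(L (nat_lit 8032044)))
(L (nat_lit 7243155))))
(S (nat_lit 56575) (S (nat_lit 32909) (S (nat_lit 56599) (S (nat_lit 30699) (L (nat_lit 29589939))
(L (nat_lit 19130385)))
(L (nat_lit 15928083)))
(L (nat_lit 30643825)))
(L (nat_lit 25342631)))))
(L (nat_lit 25445396)))))
(S (nat_lit 24941) (S (nat_lit 10987) (S (nat_lit 14633) (S (nat_lit 7047) (S (nat_lit 7357) (S (nat_lit 8315) (S (nat_lit 48314) (S (nat_lit 8993) (L (nat_lit 23961647))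
(L (nat_lit 26458817)))
(L (nat_lit 12475909)))
(L (nat_lit 14519910)))
(L (nat_lit 23214298)))
(L (nat_lit 21404419)))
(S (nat_lit 34397) (S (nat_lit 7047) (S (nat_lit 8993) (L (nat_lit 19109678))
(L (nat_lit 26458817)))
(L (nat_lit 7018285)))
(S (nat_lit 54161) (S (nat_lit 7048) (S (nat_lit 6633) (L (nat_lit 7737978))
(L (nat_lit 21305100)))
(L (nat_lit 21402874)))
(L (nat_lit 25238161)))))
(S (nat_lit 30751) (S (nat_lit 8042) (S (nat_lit 7341) (S (nat_lit 51) (S (nat_lit 8315) (L (nat_lit 23570460))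
(L (nat_lit 14387078)))
(L (nat_lit 26886497)))
(S (nat_lit 10803) (L (nat_lit 1649049))
(L (nat_lit 13440246))))
(S (nat_lit 27806) (S (nat_lit 46642) (S (nat_lit 40760) (L (nat_lit 22549416))
(L (nat_lit 27857136)))
(L (nat_lit 19932974)))
(S (nat_lit 47570) (S (nat_lit 54839) (S (nat_lit 13145) (L (nat_lit 6722482))
(L (nat_lit 7096432)))
(L (nat_lit 4962554)))
(L (nat_lit 25482320)))))
(S (nat_lit 50515) (S (nat_lit 17046) (S (nat_lit 4934) (S (nat_lit 46355) (L (nat_lit 10967845))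
(L (nat_lit 20176912)))
(S (nat_lit 26490) (L (nat_lit 4628274))
(L (nat_lit 6687510))))
(S (nat_lit 36810) (S (nat_lit 48299) (L (nat_lit 17036964))
(L (nat_lit 20166532)))
(S (nat_lit 56574) (S (nat_lit 7047) (S (nat_lit 46869) (S (nat_lit 7357) (L (nat_lit 21227940))
(L (nat_lit 13884506)))
(L (nat_lit 18748010)))
(L (nat_lit 21796045)))
(L (nat_lit 25733860)))))
(L (nat_lit 25285968)))))
(S (nat_lit 44705) (S (nat_lit 10987) (S (nat_lit 5120) (S (nat_lit 36811) (S (nat_lit 8771) (L (nat_lit 26303912))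
(L (nat_lit 7392668)))
(L (nat_lit 12837014)))
(S (nat_lit 24884) (S (nat_lit 7047) (S (nat_lit 13160) (S (nat_lit 11002) (L (nat_lit 23934213))
(L (nat_lit 6916973)))
(L (nat_lit 7819012)))
(S (nat_lit 31167) (L (nat_lit 21326991))
(L (nat_lit 21804227))))
(S (nat_lit 44648) (S (nat_lit 11002) (S (nat_lit 54839) (S (nat_lit 6577) (L (nat_lit 28368173))
(L (nat_lit 23471258)))
(L (nat_lit 21430522)))
(L (nat_lit 7966573)))
(L (nat_lit 25215287)))))
(S (nat_lit 30751) (S (nat_lit 14582) (S (nat_lit 8264) (S (nat_lit 7342) (L (nat_lit 12707430))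
(L (nat_lit 13177146)))
(L (nat_lit 21357953)))
(S (nat_lit 34346) (S (nat_lit 28028) (S (nat_lit 29972) (S (nat_lit 13160) (S (nat_lit 14648) (L (nat_lit 30998950))
(L (nat_lit 10370660)))
(L (nat_lit 6417072)))
(L (nat_lit 18752533)))
(L (nat_lit 25047112)))
(S (nat_lit 54110) (S (nat_lit 7047) (S (nat_lit 19815) (S (nat_lit 54905) (S (nat_lit 13160) (L (nat_lit 16898918))
(L (nat_lit 6930212)))
(L (nat_lit 19214456)))
(L (nat_lit 8853299)))
(L (nat_lit 6480525)))
(L (nat_lit 25931173)))))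
(S (nat_lit 50515) (S (nat_lit 6827) (S (nat_lit 28535) (L (nat_lit 12816147))
(L (nat_lit 12799749)))
(S (nat_lit 26591) (S (nat_lit 13160) (S (nat_lit 24698) (L (nat_lit 22103851))
(L (nat_lit 31176874)))
(S (nat_lit 56987) (L (nat_lit 7227537))
(L (nat_lit 26529157))))
(S (nat_lit 46355) (S (nat_lit 7047) (S (nat_lit 17032) (S (nat_lit 54839) (S (nat_lit 46119) (L (nat_lit 20813191))
(L (nat_lit 4975884)))
(L (nat_lit 4445722)))
(L (nat_lit 24196442)))
(L (nat_lit 12837046)))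
(L (nat_lit 25383953)))))
(L (nat_lit 25694583)))))
(L (nat_lit 25399798)))))
(S (nat_lit 26398) (S (nat_lit 9059) (S (nat_lit 15362) (S (nat_lit 8771) (S (nat_lit 46870) (S (nat_lit 10935) (L (nat_lit 1293944))
(L (nat_lit 15950868)))
(L (nat_lit 8164975)))
(S (nat_lit 28535) (S (nat_lit 31931) (S (nat_lit 28028) (S (nat_lit 49802) (L (nat_lit 6951757))
(L (nat_lit 4419987)))
(L (nat_lit 6172051)))
(L (nat_lit 5118355)))
(S (nat_lit 48299) (S (nat_lit 56560) (S (nat_lit 10936) (S (nat_lit 66) (L (nat_lit 29474406))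
(L (nat_lit 7224961)))
(L (nat_lit 20996301)))
(L (nat_lit 8481171)))
(L (nat_lit 25212181)))))
(S (nat_lit 35126) (S (nat_lit 66) (S (nat_lit 26862) (S (nat_lit 7357) (L (nat_lit 3061350))
(L (nat_lit 8932194)))
(L (nat_lit 9339501)))
(S (nat_lit 19830) (S (nat_lit 26862) (L (nat_lit 30754829))
(L (nat_lit 9143085)))
(S (nat_lit 39594) (S (nat_lit 48299) (L (nat_lit 4071827))
(L (nat_lit 4439859)))
(L (nat_lit 25542273)))))
(S (nat_lit 54890) (S (nat_lit 31614) (S (nat_lit 44663) (L (nat_lit 5120689))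
(L (nat_lit 4573626)))
(S (nat_lit 52688) (S (nat_lit 44663) (S (nat_lit 7290) (S (nat_lit 30766) (S (nat_lit 24641) (S (nat_lit 28550) (L (nat_lit 30515636))
(L (nat_lit 30492877)))
(L (nat_lit 17703618)))
(L (nat_lit 14460483)))
(L (nat_lit 8816404)))
(L (nat_lit 27346569)))
(L (nat_lit 10566330))))
(L (nat_lit 25284943)))))
(S (nat_lit 28823) (S (nat_lit 10987) (S (nat_lit 17071) (S (nat_lit 11001) (S (nat_lit 12167) (S (nat_lit 27055) (L (nat_lit 357810))
(L (nat_lit 24379832)))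
(L (nat_lit 26546581)))
(L (nat_lit 26610246)))
(S (nat_lit 36835) (S (nat_lit 15377) (S (nat_lit 26591) (S (nat_lit 31946) (L (nat_lit 18935052))
(L (nat_lit 6887340)))
(L (nat_lit 30655507)))
(S (nat_lit 28350) (L (nat_lit 618800))
(L (nat_lit 6744773))))
(S (nat_lit 56599) (S (nat_lit 31946) (S (nat_lit 7357) (S (nat_lit 27806) (S (nat_lit 5642) (L (nat_lit 29706252))
(L (nat_lit 16413986)))
(L (nat_lit 19175344)))
(L (nat_lit 21216066)))
(S (nat_lit 41130) (L (nat_lit 8978969))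
(L (nat_lit 13834163))))
(L (nat_lit 25376819)))))
(S (nat_lit 30751) (S (nat_lit 7291) (S (nat_lit 1) (L (nat_lit 10215811))
(L (nat_lit 18900360)))
(S (nat_lit 27055) (S (nat_lit 19765) (S (nat_lit 54110) (L (nat_lit 28421556))
(L (nat_lit 8410520)))
(L (nat_lit 8408472)))
(S (nat_lit 46819) (S (nat_lit 54890) (S (nat_lit 56599) (L (nat_lit 8816466))
(L (nat_lit 27855274)))
(L (nat_lit 10883672)))
(L (nat_lit 25514403)))))
(S (nat_lit 50515) (S (nat_lit 12182) (S (nat_lit 30038) (L (nat_lit 837997))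
(L (nat_lit 24306056)))
(S (nat_lit 31946) (S (nat_lit 36834) (S (nat_lit 46869) (L (nat_lit 22844782))
(L (nat_lit 18442410)))
(L (nat_lit 31002832)))
(S (nat_lit 51710) (S (nat_lit 46869) (S (nat_lit 33197) (L (nat_lit 20840874))
(L (nat_lit 8979217)))
(L (nat_lit 27760234)))
(L (nat_lit 25693927)))))
(L (nat_lit 25694551)))))
(S (nat_lit 48587) (S (nat_lit 10986) (S (nat_lit 8081) (S (nat_lit 7098) (L (nat_lit 5126758))
(L (nat_lit 6802520)))
(S (nat_lit 27845) (S (nat_lit 26591) (S (nat_lit 10208) (S (nat_lit 15311) (S (nat_lit 7099) (L (nat_lit 5620378))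
(L (nat_lit 13183908)))
(L (nat_lit 22569994)))
(L (nat_lit 10272787)))
(L (nat_lit 15542451)))
(S (nat_lit 47609) (S (nat_lit 19830) (S (nat_lit 44462) (L (nat_lit 28486035))
(L (nat_lit 24447544)))
(L (nat_lit 16485690)))
(L (nat_lit 25732709)))))
(S (nat_lit 30750) (S (nat_lit 9044) (S (nat_lit 30766) (S (nat_lit 7113) (S (nat_lit 28550) (L (nat_lit 12700454))
(L (nat_lit 2907373)))
(L (nat_lit 13655910)))
(S (nat_lit 41852) (L (nat_lit 4509082))
(L (nat_lit 19204632))))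
(S (nat_lit 28808) (S (nat_lit 6592) (S (nat_lit 39529) (L (nat_lit 30694817))
(L (nat_lit 5862824)))
(L (nat_lit 14411010)))
(S (nat_lit 48572) (S (nat_lit 7290) (S (nat_lit 7356) (L (nat_lit 29860417))
(L (nat_lit 14560833)))
(L (nat_lit 13984385)))
(L (nat_lit 25744427)))))
(S (nat_lit 50514) (S (nat_lit 52688) (S (nat_lit 13987) (L (nat_lit 4962584))
(S (nat_lit 44405) (S (nat_lit 44663) (L (nat_lit 30118283))
(L (nat_lit 27798180)))
(L (nat_lit 11720090))))
(L (nat_lit 12160408)))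
(L (nat_lit 25931200)))))
(L (nat_lit 25788717)))))
(S (nat_lit 46162) (S (nat_lit 1232) (S (nat_lit 1247) (S (nat_lit 11154) (S (nat_lit 13463) (L (nat_lit 20136801))
(L (nat_lit 9223811)))
(S (nat_lit 47843) (S (nat_lit 40851) (L (nat_lit 11310483))
(S (nat_lit 46818) (S (nat_lit 32924) (S (nat_lit 33182) (S (nat_lit 5120) (L (nat_lit 604540))
(L (nat_lit 8901788)))
(L (nat_lit 8573744)))
(L (nat_lit 16375819)))
(L (nat_lit 20280737))))
(L (nat_lit 20275313))))
(S (nat_lit 21011) (S (nat_lit 6866) (S (nat_lit 8786) (S (nat_lit 39529) (L (nat_lit 29470963))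
(L (nat_lit 27314383)))
(L (nat_lit 6898748)))
(S (nat_lit 26630) (S (nat_lit 10639) (L (nat_lit 6939139))
(S (nat_lit 56599) (S (nat_lit 54161) (S (nat_lit 36811) (S (nat_lit 19815) (L (nat_lit 21805191))
(L (nat_lit 15996723)))
(L (nat_lit 6049137)))
(L (nat_lit 27762834)))
(L (nat_lit 3745548))))
(S (nat_lit 46394) (S (nat_lit 9044) (S (nat_lit 36834) (L (nat_lit 22413532))
(L (nat_lit 20375593)))
(L (nat_lit 7157411)))
(L (nat_lit 25861667)))))
(S (nat_lit 40775) (S (nat_lit 14582) (S (nat_lit 26591) (S (nat_lit 52712) (L (nat_lit 22453276))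
(L (nat_lit 27448688)))
(S (nat_lit 57660) (L (nat_lit 18718336))
(L (nat_lit 9244241))))
(S (nat_lit 34346) (S (nat_lit 46161) (S (nat_lit 10208) (S (nat_lit 47843) (L (nat_lit 10013752))
(L (nat_lit 20113617)))
(L (nat_lit 17138332)))
(L (nat_lit 5892519)))
(S (nat_lit 54110) (S (nat_lit 26812) (S (nat_lit 56598) (L (nat_lit 20852132))
(L (nat_lit 7099812)))
(L (nat_lit 4647122)))
(L (nat_lit 25547824)))))
(L (nat_lit 25529814)))))
(S (nat_lit 20996) (S (nat_lit 10274) (S (nat_lit 7047) (S (nat_lit 11001) (S (nat_lit 56599) (S (nat_lit 28823) (L (nat_lit 28759232))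
(L (nat_lit 13214745)))
(L (nat_lit 6909349)))
(L (nat_lit 21891495)))
(S (nat_lit 26811) (S (nat_lit 12167) (S (nat_lit 28823) (S (nat_lit 47843) (L (nat_lit 7530161))
(L (nat_lit 20406374)))
(L (nat_lit 9278869)))
(L (nat_lit 26546579)))
(S (nat_lit 46575) (S (nat_lit 8993) (S (nat_lit 15377) (L (nat_lit 12192280))
(L (nat_lit 6483348)))
(L (nat_lit 4678347)))
(L (nat_lit 25287079)))))
(S (nat_lit 30038) (S (nat_lit 1193) (L (nat_lit 18997673))
(S (nat_lit 47843) (S (nat_lit 8786) (S (nat_lit 46394) (S (nat_lit 50529) (S (nat_lit 39580) (L (nat_lit 9899829))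
(L (nat_lit 23584936)))
(L (nat_lit 5894566)))
(L (nat_lit 12388915)))
(L (nat_lit 16884531)))
(L (nat_lit 18080417))))
(S (nat_lit 49802) (S (nat_lit 6591) (S (nat_lit 8993) (S (nat_lit 7099) (L (nat_lit 4797350))
(L (nat_lit 14224296)))
(L (nat_lit 21225613)))
(S (nat_lit 26355) (S (nat_lit 32948) (S (nat_lit 46884) (S (nat_lit 19765) (L (nat_lit 6736801))
(L (nat_lit 31004719)))
(L (nat_lit 4898600)))
(L (nat_lit 16324763)))
(S (nat_lit 46119) (S (nat_lit 8810) (S (nat_lit 54176) (L (nat_lit 28428678))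
(L (nat_lit 27479493)))
(L (nat_lit 7209395)))
(L (nat_lit 25680160)))))
(L (nat_lit 25340653)))))
(S (nat_lit 40760) (S (nat_lit 12167) (S (nat_lit 17032) (S (nat_lit 45119) (S (nat_lit 30699) (S (nat_lit 8786) (L (nat_lit 20321191))
(L (nat_lit 6413852)))
(L (nat_lit 24165626)))
(L (nat_lit 10076002)))
(S (nat_lit 46521) (L (nat_lit 13736540))
(L (nat_lit 5020364))))
(S (nat_lit 31931) (S (nat_lit 56599) (S (nat_lit 5135) (S (nat_lit 46870) (S (nat_lit 49802) (L (nat_lit 22209063))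
(L (nat_lit 8882995)))
(L (nat_lit 4708102)))
(L (nat_lit 1909175)))
(L (nat_lit 27527603)))
(S (nat_lit 51695) (S (nat_lit 14648) (S (nat_lit 30751) (S (nat_lit 30699) (L (nat_lit 14388541))
(L (nat_lit 2768124)))
(L (nat_lit 9555352)))
(S (nat_lit 34412) (S (nat_lit 30038) (S (nat_lit 48299) (S (nat_lit 46870) (S (nat_lit 31946) (S (nat_lit 10935) (L (nat_lit 28556928))
(L (nat_lit 17866457)))
(L (nat_lit 24264455)))
(L (nat_lit 16978706)))
(L (nat_lit 20157850)))
(L (nat_lit 8171605)))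
(S (nat_lit 54176) (S (nat_lit 52895) (S (nat_lit 47843) (L (nat_lit 29547729))
(L (nat_lit 7069808)))
(L (nat_lit 28022864)))
(L (nat_lit 25693798)))))
(L (nat_lit 25280819)))))
(L (nat_lit 25336343)))))
(L (nat_lit 25727689)))))
(L (nat_lit 25509013)))))
(L (nat_lit 25922950)))))

theorem rb177_4 : run 4 lb177 [] tb177_4 kb177 (P4 4 2202 0 2306 0 1 0 0 0) [] = true := by
  decide +kernel

noncomputable def tb183_0 : Tr :=
(S (nat_lit 10036) (S (nat_lit 2226) (S (nat_lit 6077) (S (nat_lit 3456) (S (nat_lit 14844) (S (nat_lit 17558) (S (nat_lit 6580) (S (nat_lit 2254) (S (nat_lit 10977) (S (nat_lit 4452) (L (nat_lit 30131552))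
(L (nat_lit 7213522)))
(L (nat_lit 8107160)))
(L (nat_lit 8111971)))
(L (nat_lit 7095314)))
(L (nat_lit 24503470)))
(S (nat_lit 34608) (S (nat_lit 56) (S (nat_lit 28) (S (nat_lit 13150) (S (nat_lit 6580) (L (nat_lit 20321532))
(L (nat_lit 6311727)))
(L (nat_lit 13928211)))
(L (nat_lit 7857730)))
(L (nat_lit 385616)))
(S (nat_lit 54372) (S (nat_lit 18749) (S (nat_lit 37308) (L (nat_lit 5523133))
(L (nat_lit 17091489)))
(S (nat_lit 40965) (L (nat_lit 16862983))
(L (nat_lit 10637068))))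
(L (nat_lit 25252299)))))
(S (nat_lit 23220) (S (nat_lit 3942) (S (nat_lit 53936) (S (nat_lit 10977) (S (nat_lit 17071) (L (nat_lit 6898842))
(L (nat_lit 24339505)))
(L (nat_lit 26479281)))
(L (nat_lit 21227010)))
(S (nat_lit 23706) (S (nat_lit 17071) (S (nat_lit 54902) (S (nat_lit 47381) (L (nat_lit 6440538))
(L (nat_lit 27829824)))
(L (nat_lit 27862532)))
(L (nat_lit 26813548)))
(S (nat_lit 43470) (S (nat_lit 17071) (S (nat_lit 17558) (S (nat_lit 26389) (L (nat_lit 29983243))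
(L (nat_lit 9013661)))
(L (nat_lit 6447692)))
(S (nat_lit 32033) (L (nat_lit 26641001))
(L (nat_lit 26820864))))
(L (nat_lit 25208338)))))
(S (nat_lit 42984) (S (nat_lit 6596) (S (nat_lit 6752) (L (nat_lit 17913639))
(S (nat_lit 17071) (S (nat_lit 13180) (S (nat_lit 40769) (S (nat_lit 28571) (S (nat_lit 40688) (L (nat_lit 2597629))
(L (nat_lit 26664162)))
(L (nat_lit 31047941)))
(L (nat_lit 27696150)))
(L (nat_lit 930099)))
(L (nat_lit 17391658))))
(S (nat_lit 26360) (S (nat_lit 47805) (S (nat_lit 51688) (L (nat_lit 3065107))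
(L (nat_lit 20210797)))
(L (nat_lit 8480278)))
(S (nat_lit 46124) (S (nat_lit 3940) (S (nat_lit 34658) (S (nat_lit 22384) (L (nat_lit 20222365))
(L (nat_lit 19172888)))
(L (nat_lit 20814896)))
(S (nat_lit 32978) (S (nat_lit 10977) (L (nat_lit 15822470))
(L (nat_lit 17919591)))
(L (nat_lit 19734949))))
(L (nat_lit 25632420)))))
(L (nat_lit 25182546)))))
(S (nat_lit 25841) (S (nat_lit 12668) (S (nat_lit 15331) (S (nat_lit 2254) (S (nat_lit 4399) (S (nat_lit 36819) (S (nat_lit 43470) (L (nat_lit 6208790))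
(L (nat_lit 23570274)))
(L (nat_lit 12604233)))
(L (nat_lit 26716341)))
(L (nat_lit 8096620)))
(S (nat_lit 35095) (S (nat_lit 41255) (S (nat_lit 40769) (S (nat_lit 16585) (L (nat_lit 5491564))
(L (nat_lit 15000129)))
(L (nat_lit 17736791)))
(L (nat_lit 23447361)))
(S (nat_lit 54859) (S (nat_lit 18698) (S (nat_lit 34658) (L (nat_lit 8030748))
(L (nat_lit 11100675)))
(S (nat_lit 26344) (S (nat_lit 43959) (S (nat_lit 2254) (S (nat_lit 15353) (S (nat_lit 21531) (L (nat_lit 14930786))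
(L (nat_lit 8225421)))
(L (nat_lit 7418461)))
(L (nat_lit 8275619)))
(L (nat_lit 11357601)))
(L (nat_lit 18919246))))
(L (nat_lit 25867554)))))
(S (nat_lit 32432) (S (nat_lit 10941) (S (nat_lit 49694) (L (nat_lit 8078456))
(S (nat_lit 51062) (S (nat_lit 15312) (S (nat_lit 2254) (S (nat_lit 6591) (L (nat_lit 20069693))
(L (nat_lit 6882156)))
(L (nat_lit 26643112)))
(L (nat_lit 17537857)))
(L (nat_lit 11093112))))
(S (nat_lit 30705) (S (nat_lit 12367) (S (nat_lit 46292) (S (nat_lit 38479) (L (nat_lit 9015832))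
(L (nat_lit 4900779)))
(L (nat_lit 14689075)))
(S (nat_lit 21491) (S (nat_lit 46108) (L (nat_lit 28525718))
(L (nat_lit 17459395)))
(L (nat_lit 8275649))))
(S (nat_lit 50469) (S (nat_lit 57086) (S (nat_lit 40769) (S (nat_lit 15323) (S (nat_lit 18715) (S (nat_lit 32933) (L (nat_lit 28708151))
(L (nat_lit 20203396)))
(L (nat_lit 5949259)))
(L (nat_lit 706379)))
(L (nat_lit 8242199)))
(L (nat_lit 11159364)))
(L (nat_lit 25216340)))))
(S (nat_lit 52196) (S (nat_lit 16585) (S (nat_lit 30741) (S (nat_lit 47381) (S (nat_lit 2254) (L (nat_lit 29017222))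
(L (nat_lit 20858147)))
(L (nat_lit 632312)))
(L (nat_lit 17101974)))
(S (nat_lit 36349) (S (nat_lit 17071) (S (nat_lit 4452) (S (nat_lit 4399) (S (nat_lit 47381) (S (nat_lit 47805) (S (nat_lit 23704) (S (nat_lit 24201) (S (nat_lit 51688) (S (nat_lit 30741) (L (nat_lit 17372968))
(L (nat_lit 14394524)))
(L (nat_lit 7462829)))
(L (nat_lit 13994899)))
(L (nat_lit 8043645)))
(L (nat_lit 8538651)))
(L (nat_lit 20711792)))
(L (nat_lit 26816835)))
(L (nat_lit 7762098)))
(S (nat_lit 43098) (L (nat_lit 7916449))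
(L (nat_lit 26261779))))
(S (nat_lit 56113) (S (nat_lit 51688) (S (nat_lit 34658) (S (nat_lit 47381) (S (nat_lit 37278) (L (nat_lit 29399539))
(L (nat_lit 20785697)))
(L (nat_lit 8148418)))
(L (nat_lit 7960065)))
(L (nat_lit 20426657)))
(L (nat_lit 25246003)))))
(L (nat_lit 25601203)))))
(S (nat_lit 45605) (S (nat_lit 28) (S (nat_lit 4437) (S (nat_lit 56) (S (nat_lit 41295) (S (nat_lit 36819) (S (nat_lit 34658) (S (nat_lit 2195) (S (nat_lit 43468) (S (nat_lit 4427) (S (nat_lit 7791) (S (nat_lit 28521) (S (nat_lit 46803) (L (nat_lit 5624219))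
(L (nat_lit 29998273)))
(S (nat_lit 53518) (L (nat_lit 22817937))
(L (nat_lit 9056284))))
(L (nat_lit 26557526)))
(L (nat_lit 867019)))
(L (nat_lit 1720135)))
(L (nat_lit 20453533)))
(L (nat_lit 211826)))
(L (nat_lit 414603)))
(L (nat_lit 7045933)))
(L (nat_lit 19456197)))
(S (nat_lit 24201) (S (nat_lit 36819) (S (nat_lit 2254) (S (nat_lit 34658) (S (nat_lit 51688) (S (nat_lit 17071) (S (nat_lit 39571) (L (nat_lit 6135187))
(L (nat_lit 17474307)))
(L (nat_lit 15337690)))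
(L (nat_lit 7457273)))
(L (nat_lit 549074)))
(L (nat_lit 26944625)))
(L (nat_lit 7737239)))
(S (nat_lit 43965) (S (nat_lit 14844) (S (nat_lit 34658) (S (nat_lit 2254) (S (nat_lit 41295) (S (nat_lit 50505) (S (nat_lit 17071) (S (nat_lit 39577) (S (nat_lit 56) (S (nat_lit 28528) (L (nat_lit 8882844))
(L (nat_lit 18687586)))
(L (nat_lit 6867717)))
(L (nat_lit 23898222)))
(L (nat_lit 14881435)))
(L (nat_lit 15502951)))
(L (nat_lit 28023821)))
(L (nat_lit 19303273)))
(L (nat_lit 7389042)))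
(S (nat_lit 42407) (L (nat_lit 23151896))
(L (nat_lit 26610935))))
(L (nat_lit 25514033)))))
(S (nat_lit 19792) (S (nat_lit 4431) (S (nat_lit 10907) (L (nat_lit 30462222))
(S (nat_lit 58243) (S (nat_lit 15323) (L (nat_lit 15532614))
(L (nat_lit 6309714)))
(L (nat_lit 357811))))
(S (nat_lit 24195) (S (nat_lit 25355) (S (nat_lit 28521) (L (nat_lit 29379111))
(L (nat_lit 19089280)))
(L (nat_lit 21251968)))
(S (nat_lit 43959) (S (nat_lit 17071) (S (nat_lit 37322) (S (nat_lit 39584) (S (nat_lit 25393) (S (nat_lit 2254) (L (nat_lit 29382054))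
(L (nat_lit 8307829)))
(L (nat_lit 13792902)))
(L (nat_lit 11285092)))
(L (nat_lit 20814990)))
(S (nat_lit 24966) (L (nat_lit 15296680))
(L (nat_lit 26256977))))
(L (nat_lit 25314579)))))
(S (nat_lit 39556) (S (nat_lit 15374) (S (nat_lit 3240) (L (nat_lit 26528257))
(S (nat_lit 21005) (S (nat_lit 1727) (L (nat_lit 5842490))
(L (nat_lit 20235324)))
(L (nat_lit 6916633))))
(S (nat_lit 35138) (S (nat_lit 24201) (S (nat_lit 28521) (S (nat_lit 17071) (S (nat_lit 10522) (L (nat_lit 16355115))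
(L (nat_lit 17495397)))
(L (nat_lit 14967859)))
(L (nat_lit 9046490)))
(S (nat_lit 44568) (L (nat_lit 26837198))
(L (nat_lit 17671186))))
(S (nat_lit 54902) (S (nat_lit 1281) (S (nat_lit 11009) (S (nat_lit 2254) (S (nat_lit 25393) (L (nat_lit 18970119))
(L (nat_lit 17472257)))
(L (nat_lit 1987112)))
(L (nat_lit 21336572)))
(S (nat_lit 8879) (L (nat_lit 9006596))
(L (nat_lit 12670826))))
(L (nat_lit 25758155)))))
(L (nat_lit 25631796)))))
(L (nat_lit 25544257)))))
(S (nat_lit 21990) (S (nat_lit 6589) (S (nat_lit 28) (S (nat_lit 49) (S (nat_lit 34608) (S (nat_lit 58243) (S (nat_lit 53936) (S (nat_lit 47381) (L (nat_lit 2881031))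
(L (nat_lit 7422771)))
(L (nat_lit 7434833)))
(L (nat_lit 8046465)))
(L (nat_lit 20791524)))
(S (nat_lit 19813) (S (nat_lit 34608) (S (nat_lit 2254) (S (nat_lit 56097) (S (nat_lit 13129) (S (nat_lit 15331) (L (nat_lit 28984424))
(L (nat_lit 1274262)))
(L (nat_lit 1847635)))
(L (nat_lit 927470)))
(S (nat_lit 22018) (S (nat_lit 50010) (L (nat_lit 3367599))
(L (nat_lit 16485129)))
(S (nat_lit 41782) (S (nat_lit 39571) (S (nat_lit 43955) (L (nat_lit 7434895))
(L (nat_lit 23146874)))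
(L (nat_lit 23160175)))
(L (nat_lit 25895299)))))
(S (nat_lit 54078) (L (nat_lit 21471323))
(L (nat_lit 7423767))))
(S (nat_lit 39577) (S (nat_lit 41255) (L (nat_lit 6375219))
(L (nat_lit 23388675)))
(L (nat_lit 25281844)))))
(S (nat_lit 19792) (S (nat_lit 17558) (S (nat_lit 9996) (S (nat_lit 10941) (S (nat_lit 17071) (L (nat_lit 29601847))
(L (nat_lit 15295744)))
(L (nat_lit 26431633)))
(L (nat_lit 17391626)))
(S (nat_lit 37322) (S (nat_lit 50469) (S (nat_lit 9996) (L (nat_lit 28318100))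
(L (nat_lit 9004048)))
(L (nat_lit 15337223)))
(S (nat_lit 57086) (S (nat_lit 8659) (L (nat_lit 19099820))
(S (nat_lit 21531) (S (nat_lit 14894) (L (nat_lit 12656280))
(L (nat_lit 14556212)))
(L (nat_lit 15991570))))
(L (nat_lit 25527950)))))
(S (nat_lit 39556) (S (nat_lit 17071) (S (nat_lit 2340) (L (nat_lit 30422228))
(S (nat_lit 43980) (S (nat_lit 19820) (S (nat_lit 19235) (S (nat_lit 41723) (S (nat_lit 11013) (L (nat_lit 5465741))
(L (nat_lit 8311983)))
(L (nat_lit 25009572)))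
(L (nat_lit 24649473)))
(L (nat_lit 21344281)))
(L (nat_lit 12933888))))
(S (nat_lit 36835) (S (nat_lit 22074) (L (nat_lit 14820060))
(S (nat_lit 43980) (S (nat_lit 34608) (S (nat_lit 21908) (L (nat_lit 29432399))
(L (nat_lit 30056463)))
(L (nat_lit 11341516)))
(L (nat_lit 23867527))))
(S (nat_lit 56599) (S (nat_lit 25355) (S (nat_lit 35087) (S (nat_lit 21491) (L (nat_lit 21218425))
(L (nat_lit 7947323)))
(L (nat_lit 23283461)))
(S (nat_lit 40118) (L (nat_lit 9015153))
(L (nat_lit 31016039))))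
(L (nat_lit 25432721)))))
(L (nat_lit 25271886)))))
(S (nat_lit 26353) (S (nat_lit 10941) (S (nat_lit 17544) (S (nat_lit 54372) (S (nat_lit 57102) (L (nat_lit 27349230))
(L (nat_lit 11293057)))
(L (nat_lit 21063916)))
(S (nat_lit 37308) (S (nat_lit 57102) (S (nat_lit 28521) (L (nat_lit 29937670))
(L (nat_lit 30651008)))
(L (nat_lit 15487328)))
(S (nat_lit 57072) (S (nat_lit 25289) (L (nat_lit 7753916))
(S (nat_lit 57042) (S (nat_lit 15312) (L (nat_lit 13652806))
(L (nat_lit 14877304)))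
(L (nat_lit 5825255))))
(L (nat_lit 25282983)))))
(S (nat_lit 30705) (S (nat_lit 49) (S (nat_lit 13169) (S (nat_lit 35095) (S (nat_lit 36349) (L (nat_lit 17832571))
(L (nat_lit 20377828)))
(L (nat_lit 8934146)))
(S (nat_lit 19734) (L (nat_lit 13299882))
(L (nat_lit 313138))))
(S (nat_lit 19813) (S (nat_lit 28562) (S (nat_lit 28526) (S (nat_lit 35095) (S (nat_lit 41255) (S (nat_lit 28041) (L (nat_lit 29790516))
(L (nat_lit 30722596)))
(L (nat_lit 8808566)))
(L (nat_lit 9982723)))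
(L (nat_lit 30624133)))
(L (nat_lit 10243460)))
(S (nat_lit 39577) (S (nat_lit 28526) (S (nat_lit 4427) (S (nat_lit 14358) (L (nat_lit 9049870))
(L (nat_lit 9095013)))
(L (nat_lit 308151)))
(L (nat_lit 24174987)))
(L (nat_lit 25274868)))))
(S (nat_lit 50469) (S (nat_lit 3456) (S (nat_lit 12629) (L (nat_lit 10369171))
(S (nat_lit 34608) (S (nat_lit 43959) (S (nat_lit 4399) (L (nat_lit 617895))
(L (nat_lit 26260201)))
(L (nat_lit 6004625)))
(L (nat_lit 15375108))))
(S (nat_lit 23220) (S (nat_lit 12668) (L (nat_lit 5762290))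
(L (nat_lit 21505859)))
(S (nat_lit 42984) (S (nat_lit 1727) (S (nat_lit 34608) (L (nat_lit 16849533))
(L (nat_lit 23503034)))
(S (nat_lit 20726) (L (nat_lit 27820615))
(L (nat_lit 4519446))))
(L (nat_lit 25398738)))))
(L (nat_lit 25888199)))))
(S (nat_lit 46117) (S (nat_lit 6591) (S (nat_lit 7791) (S (nat_lit 34658) (S (nat_lit 32922) (L (nat_lit 23960589))
(L (nat_lit 20221372)))
(L (nat_lit 23183144)))
(S (nat_lit 27555) (S (nat_lit 32410) (S (nat_lit 8807) (S (nat_lit 19235) (S (nat_lit 58243) (L (nat_lit 22028857))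
(L (nat_lit 7468752)))
(L (nat_lit 26222316)))
(L (nat_lit 8280143)))
(S (nat_lit 40953) (L (nat_lit 26949857))
(L (nat_lit 11166176))))
(S (nat_lit 47319) (S (nat_lit 15374) (S (nat_lit 34608) (S (nat_lit 51688) (S (nat_lit 14894) (L (nat_lit 28809330))
(L (nat_lit 26761318)))
(L (nat_lit 7855972)))
(L (nat_lit 20235292)))
(S (nat_lit 56199) (L (nat_lit 7860279))
(L (nat_lit 17370365))))
(L (nat_lit 25598038)))))
(S (nat_lit 26355) (S (nat_lit 8807) (S (nat_lit 37308) (S (nat_lit 46153) (S (nat_lit 36333) (L (nat_lit 24316314))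
(L (nat_lit 6927484)))
(L (nat_lit 17566344)))
(L (nat_lit 13718278)))
(S (nat_lit 28571) (S (nat_lit 41255) (S (nat_lit 40769) (S (nat_lit 37308) (S (nat_lit 42984) (L (nat_lit 8978877))
(L (nat_lit 24416174)))
(L (nat_lit 20198145)))
(L (nat_lit 10045184)))
(L (nat_lit 17401606)))
(S (nat_lit 48335) (S (nat_lit 3454) (S (nat_lit 47381) (L (nat_lit 26297619))
(L (nat_lit 27558357)))
(L (nat_lit 11340277)))
(L (nat_lit 25592085)))))
(S (nat_lit 46119) (S (nat_lit 6580) (S (nat_lit 38513) (S (nat_lit 3456) (S (nat_lit 58243) (L (nat_lit 7179667))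
(L (nat_lit 8295859)))
(L (nat_lit 26514963)))
(L (nat_lit 20149358)))
(S (nat_lit 26344) (S (nat_lit 32410) (S (nat_lit 6115) (S (nat_lit 54851) (L (nat_lit 6319820))
(L (nat_lit 27495826)))
(L (nat_lit 10343840)))
(L (nat_lit 17097344)))
(S (nat_lit 46108) (S (nat_lit 34608) (S (nat_lit 41782) (S (nat_lit 50469) (L (nat_lit 13914200))
(L (nat_lit 11171201)))
(L (nat_lit 23431740)))
(L (nat_lit 20857060)))
(L (nat_lit 25837576)))))
(L (nat_lit 25926765)))))
(L (nat_lit 25679880)))))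
(S (nat_lit 41754) (S (nat_lit 5591) (S (nat_lit 6591) (S (nat_lit 4427) (S (nat_lit 11009) (S (nat_lit 3454) (S (nat_lit 36819) (S (nat_lit 34658) (S (nat_lit 2254) (S (nat_lit 8764) (S (nat_lit 39584) (S (nat_lit 1281) (S (nat_lit 37330) (S (nat_lit 35037) (L (nat_lit 214619))
(L (nat_lit 17045335)))
(S (nat_lit 48204) (L (nat_lit 214619))
(L (nat_lit 2991760))))
(L (nat_lit 14555781)))
(L (nat_lit 23926800)))
(L (nat_lit 7867314)))
(L (nat_lit 20890882)))
(L (nat_lit 8247811)))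
(L (nat_lit 20505890)))
(L (nat_lit 9263116)))
(L (nat_lit 7533198)))
(S (nat_lit 24191) (S (nat_lit 1727) (S (nat_lit 45643) (L (nat_lit 3360411))
(L (nat_lit 23502720)))
(L (nat_lit 26615862)))
(S (nat_lit 43955) (S (nat_lit 17071) (S (nat_lit 28528) (S (nat_lit 50537) (L (nat_lit 22252396))
(L (nat_lit 15012504)))
(L (nat_lit 13247677)))
(S (nat_lit 47243) (L (nat_lit 26297992))
(L (nat_lit 26643079))))
(L (nat_lit 25483438)))))
(S (nat_lit 26355) (S (nat_lit 14844) (S (nat_lit 57102) (L (nat_lit 4011623))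
(L (nat_lit 27865255)))
(S (nat_lit 34608) (S (nat_lit 14358) (S (nat_lit 32893) (S (nat_lit 54851) (L (nat_lit 23653543))
(L (nat_lit 6014763)))
(L (nat_lit 16646486)))
(S (nat_lit 30419) (L (nat_lit 3912029))
(L (nat_lit 6004589))))
(S (nat_lit 54372) (S (nat_lit 22018) (S (nat_lit 56599) (S (nat_lit 23706) (L (nat_lit 19087264))
(L (nat_lit 11266564)))
(L (nat_lit 21467911)))
(S (nat_lit 25745) (L (nat_lit 26447378))
(L (nat_lit 9145100))))
(L (nat_lit 25936905)))))
(S (nat_lit 46119) (S (nat_lit 17566) (S (nat_lit 4431) (S (nat_lit 8762) (L (nat_lit 935495))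
(L (nat_lit 23900420)))
(S (nat_lit 50457) (L (nat_lit 16321849))
(L (nat_lit 19030535))))
(S (nat_lit 37330) (S (nat_lit 32914) (S (nat_lit 37308) (L (nat_lit 14567527))
(L (nat_lit 17091328)))
(S (nat_lit 41859) (L (nat_lit 4678247))
(L (nat_lit 14800125))))
(S (nat_lit 57094) (S (nat_lit 39571) (S (nat_lit 1241) (L (nat_lit 20198240))
(L (nat_lit 26820679)))
(L (nat_lit 23378691)))
(L (nat_lit 25343560)))))
(L (nat_lit 25278183)))))
(S (nat_lit 25355) (S (nat_lit 6591) (S (nat_lit 10522) (S (nat_lit 56113) (S (nat_lit 40769) (S (nat_lit 11013) (L (nat_lit 21825840))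
(L (nat_lit 21934215)))
(L (nat_lit 23471936)))
(L (nat_lit 27861068)))
(S (nat_lit 30286) (S (nat_lit 28521) (L (nat_lit 10373536))
(L (nat_lit 24981696)))
(S (nat_lit 50050) (S (nat_lit 30705) (S (nat_lit 7853) (L (nat_lit 4774727))
(L (nat_lit 26793312)))
(L (nat_lit 17650016)))
(L (nat_lit 25598592)))))
(S (nat_lit 26355) (S (nat_lit 7791) (S (nat_lit 54859) (L (nat_lit 9158528))
(L (nat_lit 5957932)))
(S (nat_lit 27555) (S (nat_lit 3940) (S (nat_lit 57086) (S (nat_lit 15331) (L (nat_lit 2869127))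
(L (nat_lit 1848630)))
(L (nat_lit 12125594)))
(S (nat_lit 33947) (L (nat_lit 12690073))
(L (nat_lit 17494119))))
(S (nat_lit 47319) (S (nat_lit 7853) (S (nat_lit 28571) (S (nat_lit 50539) (L (nat_lit 6173255))
(L (nat_lit 27612237)))
(L (nat_lit 9038372)))
(S (nat_lit 42189) (L (nat_lit 14834503))
(L (nat_lit 21055303))))
(L (nat_lit 25275956)))))
(S (nat_lit 46119) (S (nat_lit 2254) (S (nat_lit 4437) (S (nat_lit 17071) (S (nat_lit 50908) (L (nat_lit 17067749))
(L (nat_lit 17540993)))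
(L (nat_lit 17730122)))
(S (nat_lit 26905) (S (nat_lit 27148) (S (nat_lit 52697) (L (nat_lit 26714293))
(L (nat_lit 10572216)))
(L (nat_lit 20842982)))
(L (nat_lit 20850145))))
(S (nat_lit 22018) (S (nat_lit 7853) (S (nat_lit 37390) (L (nat_lit 5760307))
(S (nat_lit 57072) (S (nat_lit 25879) (S (nat_lit 24216) (S (nat_lit 54372) (L (nat_lit 30921899))
(L (nat_lit 21368157)))
(L (nat_lit 14473383)))
(L (nat_lit 22569280)))
(L (nat_lit 18985277))))
(S (nat_lit 19414) (L (nat_lit 18109529))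
(L (nat_lit 21898720))))
(S (nat_lit 41782) (S (nat_lit 35087) (S (nat_lit 8757) (L (nat_lit 4793752))
(L (nat_lit 17009462)))
(S (nat_lit 52324) (L (nat_lit 6116719))
(L (nat_lit 18516249))))
(L (nat_lit 25339284)))))
(L (nat_lit 25429741)))))
(S (nat_lit 45119) (S (nat_lit 16585) (S (nat_lit 15331) (S (nat_lit 18617) (L (nat_lit 958062))
(S (nat_lit 43955) (S (nat_lit 57072) (L (nat_lit 6206123))
(L (nat_lit 15329383)))
(L (nat_lit 27563724))))
(S (nat_lit 35095) (S (nat_lit 3942) (S (nat_lit 40809) (S (nat_lit 17566) (L (nat_lit 6146350))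
(L (nat_lit 26616979)))
(L (nat_lit 7360987)))
(S (nat_lit 6677) (L (nat_lit 9060256))
(L (nat_lit 14968420))))
(S (nat_lit 54859) (S (nat_lit 48335) (S (nat_lit 21491) (S (nat_lit 7853) (S (nat_lit 23704) (L (nat_lit 28902703))
(L (nat_lit 5498609)))
(L (nat_lit 6176979)))
(L (nat_lit 11406870)))
(L (nat_lit 11292749)))
(L (nat_lit 25184524)))))
(S (nat_lit 36349) (S (nat_lit 49) (S (nat_lit 9996) (S (nat_lit 40809) (S (nat_lit 6115) (L (nat_lit 26852610))
(L (nat_lit 20455264)))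
(L (nat_lit 17094437)))
(L (nat_lit 11343536)))
(S (nat_lit 19813) (S (nat_lit 1401) (L (nat_lit 23141883))
(S (nat_lit 40769) (S (nat_lit 28526) (L (nat_lit 10400416))
(L (nat_lit 30617715)))
(L (nat_lit 599576))))
(S (nat_lit 39577) (S (nat_lit 3456) (S (nat_lit 18715) (L (nat_lit 28906800))
(L (nat_lit 11192129)))
(L (nat_lit 17032307)))
(L (nat_lit 25484398)))))
(S (nat_lit 56113) (S (nat_lit 8764) (S (nat_lit 35087) (S (nat_lit 13129) (L (nat_lit 16817939))
(L (nat_lit 7366163)))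
(L (nat_lit 23938154)))
(S (nat_lit 28528) (S (nat_lit 43959) (S (nat_lit 17566) (S (nat_lit 26355) (L (nat_lit 7755616))
(L (nat_lit 24917281)))
(L (nat_lit 1985872)))
(L (nat_lit 11355777)))
(S (nat_lit 48292) (S (nat_lit 54902) (S (nat_lit 21491) (S (nat_lit 43468) (S (nat_lit 48285) (L (nat_lit 15574725))
(L (nat_lit 19973373)))
(L (nat_lit 23299513)))
(L (nat_lit 16027510)))
(L (nat_lit 11158586)))
(L (nat_lit 25364983)))))
(L (nat_lit 25615652)))))
(L (nat_lit 25662806)))))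
(L (nat_lit 25253414)))))
(S (nat_lit 29800) (S (nat_lit 43) (S (nat_lit 18715) (S (nat_lit 2195) (S (nat_lit 12646) (S (nat_lit 35523) (L (nat_lit 19228196))
(S (nat_lit 36333) (S (nat_lit 47867) (S (nat_lit 14894) (S (nat_lit 56583) (S (nat_lit 8277) (L (nat_lit 30903636))
(L (nat_lit 26524726)))
(L (nat_lit 6941188)))
(L (nat_lit 26819777)))
(L (nat_lit 7004336)))
(L (nat_lit 6350357))))
(S (nat_lit 32410) (S (nat_lit 2226) (S (nat_lit 25841) (L (nat_lit 26509879))
(L (nat_lit 8211596)))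
(S (nat_lit 22323) (L (nat_lit 13675161))
(L (nat_lit 26513072))))
(S (nat_lit 52174) (S (nat_lit 27617) (S (nat_lit 25393) (L (nat_lit 4891165))
(L (nat_lit 6739101)))
(L (nat_lit 7132305)))
(L (nat_lit 25307789)))))
(S (nat_lit 21959) (S (nat_lit 41735) (S (nat_lit 574) (L (nat_lit 12641621))
(S (nat_lit 4399) (S (nat_lit 50505) (L (nat_lit 20756804))
(S (nat_lit 57230) (L (nat_lit 8174308))
(L (nat_lit 20357953))))
(L (nat_lit 1258203))))
(S (nat_lit 51324) (L (nat_lit 7490413))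
(L (nat_lit 4745462))))
(S (nat_lit 41723) (S (nat_lit 10522) (S (nat_lit 32933) (L (nat_lit 716203))
(L (nat_lit 16461636)))
(S (nat_lit 30286) (L (nat_lit 5100845))
(S (nat_lit 50050) (S (nat_lit 3456) (S (nat_lit 30741) (L (nat_lit 18899277))
(L (nat_lit 19173233)))
(L (nat_lit 26944005)))
(L (nat_lit 25376389)))))
(L (nat_lit 25173709)))))
(S (nat_lit 38479) (S (nat_lit 15353) (S (nat_lit 12668) (S (nat_lit 10977) (S (nat_lit 21045) (L (nat_lit 4630203))
(L (nat_lit 7196717)))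
(L (nat_lit 23962769)))
(L (nat_lit 23250172)))
(S (nat_lit 35117) (S (nat_lit 7791) (S (nat_lit 21959) (S (nat_lit 41735) (L (nat_lit 18418443))
(L (nat_lit 23968810)))
(L (nat_lit 9922742)))
(S (nat_lit 27555) (S (nat_lit 24216) (S (nat_lit 30286) (L (nat_lit 19762598))
(L (nat_lit 447869)))
(L (nat_lit 13997788)))
(S (nat_lit 47319) (S (nat_lit 41735) (S (nat_lit 50505) (L (nat_lit 12708150))
(L (nat_lit 20751505)))
(L (nat_lit 5160182)))
(L (nat_lit 25827843)))))
(S (nat_lit 54881) (S (nat_lit 3942) (S (nat_lit 56599) (S (nat_lit 2226) (L (nat_lit 28805335))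
(L (nat_lit 17639041)))
(L (nat_lit 6805248)))
(S (nat_lit 23706) (S (nat_lit 42982) (S (nat_lit 32922) (L (nat_lit 289266))
(L (nat_lit 9932540)))
(L (nat_lit 13830997)))
(S (nat_lit 43470) (S (nat_lit 16367) (L (nat_lit 6444509))
(S (nat_lit 52174) (L (nat_lit 14505284))
(L (nat_lit 6381421))))
(L (nat_lit 25896452)))))
(L (nat_lit 25904299)))))
(S (nat_lit 58243) (S (nat_lit 1241) (S (nat_lit 15331) (S (nat_lit 3454) (S (nat_lit 6596) (L (nat_lit 580363))
(L (nat_lit 6805660)))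
(L (nat_lit 19741985)))
(S (nat_lit 35095) (L (nat_lit 7356124))
(S (nat_lit 54859) (S (nat_lit 3454) (L (nat_lit 7356123))
(L (nat_lit 20823110)))
(L (nat_lit 25645161)))))
(S (nat_lit 21005) (S (nat_lit 15353) (S (nat_lit 8798) (S (nat_lit 23163) (L (nat_lit 534236))
(L (nat_lit 27560656)))
(S (nat_lit 53082) (L (nat_lit 26841511))
(L (nat_lit 26482413))))
(S (nat_lit 35117) (S (nat_lit 3454) (S (nat_lit 35087) (L (nat_lit 30707439))
(L (nat_lit 23929935)))
(S (nat_lit 22323) (L (nat_lit 6983164))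
(L (nat_lit 26918180))))
(S (nat_lit 54881) (S (nat_lit 3940) (S (nat_lit 14844) (L (nat_lit 18967789))
(L (nat_lit 26526903)))
(L (nat_lit 20816288)))
(L (nat_lit 25562762)))))
(S (nat_lit 40769) (S (nat_lit 6591) (S (nat_lit 30773) (S (nat_lit 28103) (S (nat_lit 2226) (L (nat_lit 14319961))
(L (nat_lit 8227378)))
(L (nat_lit 705286)))
(L (nat_lit 14347461)))
(S (nat_lit 26355) (S (nat_lit 54902) (S (nat_lit 17055) (L (nat_lit 1763755))
(L (nat_lit 24970699)))
(L (nat_lit 19670533)))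
(S (nat_lit 46119) (S (nat_lit 3454) (S (nat_lit 30286) (L (nat_lit 1752970))
(L (nat_lit 19140125)))
(L (nat_lit 20817313)))
(L (nat_lit 25645313)))))
(L (nat_lit 25559286)))))
(L (nat_lit 25274899)))))
(S (nat_lit 19807) (S (nat_lit 4399) (S (nat_lit 2254) (S (nat_lit 11011) (S (nat_lit 15323) (S (nat_lit 43965) (S (nat_lit 6591) (L (nat_lit 7081548))
(L (nat_lit 8107128)))
(L (nat_lit 15437670)))
(S (nat_lit 35087) (S (nat_lit 48290) (S (nat_lit 3942) (L (nat_lit 14485812))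
(L (nat_lit 26257008)))
(L (nat_lit 20816420)))
(S (nat_lit 54851) (S (nat_lit 45157) (S (nat_lit 51688) (L (nat_lit 1438444))
(L (nat_lit 20819492)))
(L (nat_lit 938349)))
(L (nat_lit 25188747)))))
(S (nat_lit 30775) (S (nat_lit 2226) (S (nat_lit 37419) (L (nat_lit 20752497))
(S (nat_lit 43965) (S (nat_lit 56599) (L (nat_lit 19076876))
(L (nat_lit 19735596)))
(L (nat_lit 5591921))))
(S (nat_lit 57404) (L (nat_lit 30424649))
(L (nat_lit 7754872))))
(S (nat_lit 50539) (S (nat_lit 2226) (S (nat_lit 1767) (S (nat_lit 47381) (S (nat_lit 56599) (S (nat_lit 51688) (L (nat_lit 28813026))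
(L (nat_lit 515942)))
(L (nat_lit 1922252)))
(L (nat_lit 20474208)))
(S (nat_lit 7500) (L (nat_lit 7946144))
(L (nat_lit 20125548))))
(S (nat_lit 46171) (L (nat_lit 10342574))
(L (nat_lit 7753817))))
(L (nat_lit 25635954)))))
(S (nat_lit 22018) (S (nat_lit 9996) (S (nat_lit 43965) (S (nat_lit 39584) (S (nat_lit 43980) (L (nat_lit 4580757))
(L (nat_lit 10642127)))
(L (nat_lit 23457157)))
(L (nat_lit 15487200)))
(S (nat_lit 29760) (S (nat_lit 54422) (S (nat_lit 58763) (S (nat_lit 49) (S (nat_lit 36819) (L (nat_lit 311035))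
(L (nat_lit 18474274)))
(L (nat_lit 19199459)))
(L (nat_lit 21798371)))
(L (nat_lit 7093364)))
(S (nat_lit 49524) (S (nat_lit 56583) (S (nat_lit 58763) (S (nat_lit 43965) (S (nat_lit 51688) (S (nat_lit 54372) (L (nat_lit 13825675))
(L (nat_lit 4116971)))
(L (nat_lit 7521143)))
(L (nat_lit 15443809)))
(L (nat_lit 7209708)))
(L (nat_lit 3973655)))
(L (nat_lit 25761006)))))
(S (nat_lit 41782) (S (nat_lit 6596) (S (nat_lit 17071) (S (nat_lit 13180) (S (nat_lit 21990) (S (nat_lit 51688) (S (nat_lit 30775) (S (nat_lit 43965) (L (nat_lit 16930665))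
(L (nat_lit 27645409)))
(L (nat_lit 30889218)))
(L (nat_lit 20884592)))
(L (nat_lit 21367100)))
(L (nat_lit 615912)))
(S (nat_lit 33004) (S (nat_lit 43965) (S (nat_lit 42984) (L (nat_lit 26949828))
(L (nat_lit 8210606)))
(L (nat_lit 23863311)))
(L (nat_lit 4695955))))
(S (nat_lit 26360) (S (nat_lit 5098) (L (nat_lit 7850169))
(S (nat_lit 51688) (S (nat_lit 23220) (S (nat_lit 43959) (S (nat_lit 19813) (S (nat_lit 21990) (S (nat_lit 14894) (S (nat_lit 17071) (L (nat_lit 30051564))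
(L (nat_lit 25044453)))
(L (nat_lit 24329340)))
(L (nat_lit 21536892)))
(L (nat_lit 9180847)))
(L (nat_lit 24976897)))
(L (nat_lit 21492035)))
(L (nat_lit 733040))))
(S (nat_lit 46124) (S (nat_lit 17071) (S (nat_lit 36901) (L (nat_lit 6305434))
(S (nat_lit 58763) (S (nat_lit 51688) (S (nat_lit 32944) (S (nat_lit 3456) (S (nat_lit 43959) (S (nat_lit 27617) (S (nat_lit 43965) (L (nat_lit 2565819))
(L (nat_lit 13312864)))
(L (nat_lit 4771195)))
(L (nat_lit 27638866)))
(L (nat_lit 19371352)))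
(L (nat_lit 16637032)))
(L (nat_lit 974096)))
(L (nat_lit 1697132))))
(S (nat_lit 51376) (L (nat_lit 12055703))
(L (nat_lit 24618880))))
(L (nat_lit 25440933)))))
(L (nat_lit 25515121)))))
(S (nat_lit 24163) (S (nat_lit 14358) (S (nat_lit 13129) (S (nat_lit 45643) (S (nat_lit 56113) (S (nat_lit 58763) (L (nat_lit 2346865))
(L (nat_lit 1503910)))
(L (nat_lit 14230337)))
(L (nat_lit 23895053)))
(S (nat_lit 32893) (S (nat_lit 25879) (S (nat_lit 41754) (S (nat_lit 3456) (L (nat_lit 5452563))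
(L (nat_lit 10983000)))
(L (nat_lit 6083888)))
(L (nat_lit 10933437)))
(S (nat_lit 52657) (S (nat_lit 28136) (S (nat_lit 54859) (L (nat_lit 13389894))
(L (nat_lit 10512787)))
(S (nat_lit 56037) (L (nat_lit 14589075))
(L (nat_lit 26456771))))
(L (nat_lit 25363087)))))
(S (nat_lit 34122) (S (nat_lit 14408) (S (nat_lit 47805) (S (nat_lit 36901) (L (nat_lit 9145880))
(S (nat_lit 56583) (S (nat_lit 35138) (L (nat_lit 19047343))
(L (nat_lit 30771668)))
(L (nat_lit 21368125))))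
(L (nat_lit 1718557)))
(S (nat_lit 34172) (S (nat_lit 43959) (S (nat_lit 6580) (L (nat_lit 4409202))
(L (nat_lit 26265288)))
(L (nat_lit 23872800)))
(S (nat_lit 53936) (S (nat_lit 8910) (L (nat_lit 16584391))
(S (nat_lit 48285) (S (nat_lit 45643) (S (nat_lit 8277) (L (nat_lit 738553))
(L (nat_lit 21272088)))
(L (nat_lit 23520480)))
(L (nat_lit 13690100))))
(L (nat_lit 25181769)))))
(S (nat_lit 53886) (S (nat_lit 18715) (S (nat_lit 30741) (S (nat_lit 48292) (L (nat_lit 29757161))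
(L (nat_lit 22220625)))
(L (nat_lit 19173233)))
(S (nat_lit 38479) (S (nat_lit 30286) (S (nat_lit 36901) (L (nat_lit 26447472))
(S (nat_lit 56583) (S (nat_lit 43959) (S (nat_lit 2195) (S (nat_lit 1767) (L (nat_lit 465560))
(L (nat_lit 18933996)))
(L (nat_lit 6938765)))
(L (nat_lit 11289683)))
(L (nat_lit 19275933))))
(S (nat_lit 49968) (L (nat_lit 6112968))
(L (nat_lit 24224221))))
(S (nat_lit 58243) (S (nat_lit 342) (L (nat_lit 565043))
(S (nat_lit 2207) (S (nat_lit 57102) (S (nat_lit 34172) (S (nat_lit 56583) (S (nat_lit 56) (S (nat_lit 24191) (S (nat_lit 19792) (S (nat_lit 50010) (S (nat_lit 58763) (L (nat_lit 4760248))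
(L (nat_lit 21201464)))
(L (nat_lit 6896450)))
(L (nat_lit 21293103)))
(L (nat_lit 10137753)))
(L (nat_lit 20852933)))
(L (nat_lit 21325968)))
(L (nat_lit 20822240)))
(L (nat_lit 15487328)))
(L (nat_lit 810221))))
(L (nat_lit 25287885)))))
(L (nat_lit 25922024)))))
(S (nat_lit 43927) (S (nat_lit 4437) (S (nat_lit 2207) (S (nat_lit 36901) (L (nat_lit 26231028))
(L (nat_lit 7098880)))
(L (nat_lit 7126070)))
(S (nat_lit 24201) (S (nat_lit 15323) (S (nat_lit 2226) (S (nat_lit 52686) (S (nat_lit 47381) (L (nat_lit 16548423))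
(L (nat_lit 17075091)))
(L (nat_lit 17605280)))
(S (nat_lit 31754) (L (nat_lit 965322))
(L (nat_lit 14754643))))
(S (nat_lit 35087) (S (nat_lit 5054) (L (nat_lit 17534264))
(S (nat_lit 43959) (S (nat_lit 19792) (S (nat_lit 58763) (S (nat_lit 54250) (L (nat_lit 3356251))
(L (nat_lit 22881829)))
(L (nat_lit 14706034)))
(L (nat_lit 3623133)))
(L (nat_lit 12402304))))
(S (nat_lit 54851) (S (nat_lit 12668) (S (nat_lit 14358) (S (nat_lit 47867) (S (nat_lit 30775) (L (nat_lit 6997765))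
(L (nat_lit 14265469)))
(L (nat_lit 17571859)))
(L (nat_lit 14453448)))
(L (nat_lit 12079293)))
(L (nat_lit 25693899)))))
(S (nat_lit 43965) (S (nat_lit 7853) (S (nat_lit 43980) (S (nat_lit 57042) (S (nat_lit 28528) (L (nat_lit 8410893))
(L (nat_lit 24125949)))
(L (nat_lit 12603645)))
(L (nat_lit 23867744)))
(S (nat_lit 27617) (S (nat_lit 15331) (S (nat_lit 24854) (L (nat_lit 1304115))
(S (nat_lit 56583) (S (nat_lit 41782) (S (nat_lit 2195) (S (nat_lit 32922) (S (nat_lit 50539) (L (nat_lit 8182928))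
(L (nat_lit 27645442)))
(L (nat_lit 23345178)))
(L (nat_lit 14935191)))
(L (nat_lit 4977032)))
(L (nat_lit 9228804))))
(S (nat_lit 35095) (S (nat_lit 41782) (S (nat_lit 43980) (S (nat_lit 56583) (S (nat_lit 41295) (L (nat_lit 5822379))
(L (nat_lit 28032322)))
(L (nat_lit 19120036)))
(L (nat_lit 11951872)))
(L (nat_lit 27644291)))
(S (nat_lit 54859) (S (nat_lit 43980) (S (nat_lit 17071) (S (nat_lit 56583) (S (nat_lit 46124) (S (nat_lit 15312) (L (nat_lit 6870041))
(L (nat_lit 6346137)))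
(L (nat_lit 11318421)))
(L (nat_lit 1302997)))
(L (nat_lit 11657804)))
(L (nat_lit 24306054)))
(L (nat_lit 25694483)))))
(S (nat_lit 47381) (S (nat_lit 2226) (S (nat_lit 2254) (S (nat_lit 56599) (S (nat_lit 45302) (L (nat_lit 19435769))
(S (nat_lit 50107) (L (nat_lit 23896143))
(L (nat_lit 3762412))))
(L (nat_lit 19736037)))
(L (nat_lit 17749282)))
(L (nat_lit 6370131)))
(L (nat_lit 25699477)))))
(L (nat_lit 25507393)))))
(L (nat_lit 25409716)))))
(S (nat_lit 39571) (S (nat_lit 16569) (S (nat_lit 8762) (S (nat_lit 15331) (S (nat_lit 15323) (S (nat_lit 15312) (S (nat_lit 24201) (S (nat_lit 53886) (L (nat_lit 21046810))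
(L (nat_lit 8293069)))
(L (nat_lit 17500999)))
(L (nat_lit 17030977)))
(L (nat_lit 16819933)))
(S (nat_lit 35095) (S (nat_lit 45605) (S (nat_lit 54881) (L (nat_lit 4403896))
(L (nat_lit 27829829)))
(S (nat_lit 58232) (L (nat_lit 16950941))
(L (nat_lit 23366200))))
(S (nat_lit 54859) (S (nat_lit 47381) (S (nat_lit 15323) (S (nat_lit 4399) (S (nat_lit 58763) (L (nat_lit 19935545))
(L (nat_lit 6943201)))
(L (nat_lit 26466691)))
(L (nat_lit 6342364)))
(L (nat_lit 534325)))
(L (nat_lit 25859624)))))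
(S (nat_lit 28526) (S (nat_lit 10522) (S (nat_lit 21870) (L (nat_lit 4518295))
(L (nat_lit 29412870)))
(S (nat_lit 30286) (S (nat_lit 8807) (S (nat_lit 21531) (L (nat_lit 215579))
(L (nat_lit 7403180)))
(L (nat_lit 7857267)))
(S (nat_lit 50050) (S (nat_lit 27617) (S (nat_lit 51688) (S (nat_lit 56113) (S (nat_lit 25393) (L (nat_lit 29857941))
(L (nat_lit 1267133)))
(L (nat_lit 27514340)))
(L (nat_lit 27831415)))
(L (nat_lit 14977811)))
(L (nat_lit 25212279)))))
(S (nat_lit 48290) (S (nat_lit 7791) (S (nat_lit 35087) (S (nat_lit 23704) (S (nat_lit 2254) (L (nat_lit 28740820))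
(L (nat_lit 19801164)))
(L (nat_lit 5913885)))
(L (nat_lit 30869778)))
(S (nat_lit 27555) (S (nat_lit 21959) (S (nat_lit 32893) (L (nat_lit 29408906))
(L (nat_lit 23267119)))
(S (nat_lit 54262) (L (nat_lit 15993655))
(L (nat_lit 30460330))))
(S (nat_lit 47319) (S (nat_lit 43980) (S (nat_lit 41295) (S (nat_lit 46124) (L (nat_lit 5878570))
(L (nat_lit 20389048)))
(L (nat_lit 23936324)))
(L (nat_lit 12269757)))
(L (nat_lit 25891368)))))
(L (nat_lit 25890063)))))
(S (nat_lit 36333) (S (nat_lit 13180) (S (nat_lit 4437) (S (nat_lit 21005) (S (nat_lit 12668) (L (nat_lit 26905097))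
(L (nat_lit 18687713)))
(L (nat_lit 6907394)))
(S (nat_lit 24201) (S (nat_lit 4399) (S (nat_lit 47381) (S (nat_lit 37330) (L (nat_lit 23143899))
(L (nat_lit 20744649)))
(L (nat_lit 8148416)))
(S (nat_lit 29630) (L (nat_lit 1580950))
(L (nat_lit 1290971))))
(S (nat_lit 43965) (S (nat_lit 4616) (L (nat_lit 5585683))
(S (nat_lit 43980) (S (nat_lit 50050) (L (nat_lit 4773738))
(L (nat_lit 20710858)))
(L (nat_lit 12948221))))
(L (nat_lit 25921777)))))
(S (nat_lit 32944) (S (nat_lit 13158) (S (nat_lit 26355) (S (nat_lit 38479) (S (nat_lit 6625) (L (nat_lit 23333308))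
(L (nat_lit 13280282)))
(L (nat_lit 20048390)))
(S (nat_lit 37121) (L (nat_lit 7211413))
(L (nat_lit 16044800))))
(S (nat_lit 32922) (S (nat_lit 13150) (S (nat_lit 8798) (S (nat_lit 47805) (L (nat_lit 2680051))
(L (nat_lit 20069659)))
(L (nat_lit 21282629)))
(L (nat_lit 7176598)))
(S (nat_lit 52686) (S (nat_lit 17558) (S (nat_lit 54372) (L (nat_lit 17009370))
(L (nat_lit 17977693)))
(L (nat_lit 1431005)))
(L (nat_lit 25798016)))))
(S (nat_lit 52708) (S (nat_lit 7853) (S (nat_lit 1767) (S (nat_lit 50505) (S (nat_lit 50541) (L (nat_lit 2314717))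
(L (nat_lit 15062848)))
(L (nat_lit 12290897)))
(L (nat_lit 12801858)))
(S (nat_lit 27617) (S (nat_lit 30246) (S (nat_lit 56583) (S (nat_lit 49) (L (nat_lit 247605))
(L (nat_lit 19744002)))
(L (nat_lit 6928292)))
(L (nat_lit 30640566)))
(S (nat_lit 47381) (S (nat_lit 33271) (L (nat_lit 19131504))
(S (nat_lit 46108) (S (nat_lit 2254) (S (nat_lit 24201) (L (nat_lit 4577101))
(L (nat_lit 17507388)))
(L (nat_lit 20286010)))
(L (nat_lit 18732072))))
(L (nat_lit 25790953)))))
(L (nat_lit 25539266)))))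
(S (nat_lit 56097) (S (nat_lit 2207) (S (nat_lit 4616) (L (nat_lit 4596380))
(S (nat_lit 43980) (S (nat_lit 30741) (L (nat_lit 4776278))
(L (nat_lit 24546652)))
(L (nat_lit 12966077))))
(S (nat_lit 21971) (S (nat_lit 16585) (S (nat_lit 34608) (S (nat_lit 30705) (S (nat_lit 30777) (L (nat_lit 4898042))
(L (nat_lit 14014241)))
(L (nat_lit 24984896)))
(L (nat_lit 5563863)))
(S (nat_lit 36349) (S (nat_lit 15476) (S (nat_lit 52196) (S (nat_lit 10482) (L (nat_lit 6706019))
(L (nat_lit 14706347)))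
(L (nat_lit 20746476)))
(S (nat_lit 54840) (S (nat_lit 1241) (S (nat_lit 14894) (S (nat_lit 17071) (L (nat_lit 20386045))
(L (nat_lit 26432928)))
(L (nat_lit 22067485)))
(L (nat_lit 3974679)))
(L (nat_lit 15750429))))
(S (nat_lit 56113) (S (nat_lit 48285) (S (nat_lit 5591) (S (nat_lit 1241) (L (nat_lit 29952369))
(L (nat_lit 19703298)))
(L (nat_lit 19709250)))
(L (nat_lit 27272848)))
(L (nat_lit 25667603)))))
(S (nat_lit 41735) (S (nat_lit 8757) (S (nat_lit 36349) (L (nat_lit 13653304))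
(L (nat_lit 23898529)))
(S (nat_lit 28521) (S (nat_lit 1281) (S (nat_lit 28528) (S (nat_lit 57042) (L (nat_lit 29895858))
(L (nat_lit 19084128)))
(L (nat_lit 18058936)))
(L (nat_lit 19108685)))
(S (nat_lit 48285) (S (nat_lit 5629) (S (nat_lit 7853) (L (nat_lit 4412952))
(L (nat_lit 26846656)))
(L (nat_lit 10540880)))
(L (nat_lit 25365972)))))
(L (nat_lit 25189581)))))
(L (nat_lit 25317896)))))
(L (nat_lit 25274062)))))
(S (nat_lit 49564) (S (nat_lit 56) (S (nat_lit 4431) (S (nat_lit 13150) (S (nat_lit 11009) (S (nat_lit 13158) (S (nat_lit 17514) (S (nat_lit 53936) (L (nat_lit 31031532))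
(L (nat_lit 17914631)))
(L (nat_lit 18591520)))
(S (nat_lit 14049) (S (nat_lit 39073) (L (nat_lit 536500))
(L (nat_lit 26748083)))
(L (nat_lit 7851809))))
(S (nat_lit 30773) (S (nat_lit 12668) (S (nat_lit 13158) (S (nat_lit 8798) (L (nat_lit 19181596))
(L (nat_lit 7061316)))
(L (nat_lit 8076313)))
(L (nat_lit 26979745)))
(S (nat_lit 50537) (S (nat_lit 28041) (S (nat_lit 6589) (S (nat_lit 46153) (L (nat_lit 5879037))
(L (nat_lit 20298809)))
(L (nat_lit 7045903)))
(S (nat_lit 45953) (L (nat_lit 563832))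
(L (nat_lit 418475))))
(L (nat_lit 25499123)))))
(S (nat_lit 32914) (S (nat_lit 8798) (S (nat_lit 2195) (S (nat_lit 25841) (S (nat_lit 15353) (L (nat_lit 26355126))
(L (nat_lit 7925380)))
(L (nat_lit 7421561)))
(L (nat_lit 1854891)))
(S (nat_lit 28562) (S (nat_lit 50050) (S (nat_lit 47805) (S (nat_lit 15331) (L (nat_lit 22582058))
(L (nat_lit 7389043)))
(L (nat_lit 20808235)))
(L (nat_lit 20135845)))
(S (nat_lit 48326) (S (nat_lit 2195) (S (nat_lit 12668) (S (nat_lit 47381) (L (nat_lit 26295539))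
(L (nat_lit 7989696)))
(L (nat_lit 16320861)))
(L (nat_lit 1853867)))
(L (nat_lit 25251371)))))
(S (nat_lit 52678) (S (nat_lit 4452) (S (nat_lit 4437) (S (nat_lit 43) (S (nat_lit 36835) (S (nat_lit 6077) (L (nat_lit 8162741))
(L (nat_lit 19021116)))
(L (nat_lit 8229299)))
(L (nat_lit 19375259)))
(L (nat_lit 26596399)))
(S (nat_lit 24216) (S (nat_lit 31320) (L (nat_lit 833226))
(S (nat_lit 34608) (S (nat_lit 49) (S (nat_lit 4437) (S (nat_lit 12646) (L (nat_lit 23993516))
(L (nat_lit 18121490)))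
(L (nat_lit 20850208)))
(L (nat_lit 20392770)))
(L (nat_lit 378588))))
(S (nat_lit 43980) (S (nat_lit 57042) (S (nat_lit 23218) (L (nat_lit 26295911))
(L (nat_lit 6436725)))
(L (nat_lit 13361159)))
(L (nat_lit 25563475)))))
(L (nat_lit 25451534)))))
(S (nat_lit 24195) (S (nat_lit 18715) (S (nat_lit 6625) (S (nat_lit 34608) (S (nat_lit 30775) (L (nat_lit 21112252))
(L (nat_lit 14020322)))
(S (nat_lit 56199) (L (nat_lit 9111963))
(L (nat_lit 869995))))
(S (nat_lit 26389) (S (nat_lit 4437) (S (nat_lit 6589) (S (nat_lit 2207) (S (nat_lit 24216) (L (nat_lit 14835463))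
(L (nat_lit 17556614)))
(L (nat_lit 20757546)))
(L (nat_lit 6775858)))
(L (nat_lit 16077568)))
(S (nat_lit 46153) (S (nat_lit 17558) (S (nat_lit 56097) (L (nat_lit 19032270))
(L (nat_lit 638890)))
(L (nat_lit 343709)))
(L (nat_lit 25507890)))))
(S (nat_lit 38479) (S (nat_lit 4437) (S (nat_lit 2207) (S (nat_lit 6115) (S (nat_lit 50050) (S (nat_lit 11013) (L (nat_lit 20067143))
(L (nat_lit 18208673)))
(L (nat_lit 20783616)))
(L (nat_lit 20817933)))
(L (nat_lit 7356029)))
(S (nat_lit 5328) (S (nat_lit 5085) (L (nat_lit 14569478))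
(L (nat_lit 738055)))
(L (nat_lit 8078080))))
(S (nat_lit 58243) (S (nat_lit 4437) (S (nat_lit 2207) (S (nat_lit 34608) (S (nat_lit 21531) (S (nat_lit 43885) (L (nat_lit 18681075))
(L (nat_lit 17507356)))
(L (nat_lit 731917)))
(L (nat_lit 16491268)))
(L (nat_lit 7093271)))
(S (nat_lit 21433) (L (nat_lit 19980807))
(L (nat_lit 20103943))))
(L (nat_lit 25433805)))))
(S (nat_lit 43959) (S (nat_lit 19235) (S (nat_lit 17574) (S (nat_lit 34284) (L (nat_lit 2309853))
(S (nat_lit 34608) (S (nat_lit 4427) (S (nat_lit 53886) (S (nat_lit 58277) (S (nat_lit 30286) (S (nat_lit 32410) (L (nat_lit 22083114))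
(L (nat_lit 5622672)))
(L (nat_lit 7785565)))
(L (nat_lit 19239854)))
(L (nat_lit 453320)))
(L (nat_lit 20359357)))
(L (nat_lit 694748))))
(S (nat_lit 37338) (S (nat_lit 13046) (L (nat_lit 421482))
(S (nat_lit 49524) (S (nat_lit 15323) (S (nat_lit 43) (S (nat_lit 38513) (S (nat_lit 48285) (L (nat_lit 4482612))
(L (nat_lit 20131869)))
(L (nat_lit 14437696)))
(L (nat_lit 716142)))
(S (nat_lit 38376) (L (nat_lit 26456736))
(L (nat_lit 7818332))))
(L (nat_lit 22384061))))
(S (nat_lit 57102) (S (nat_lit 18749) (S (nat_lit 15374) (S (nat_lit 34608) (S (nat_lit 50010) (L (nat_lit 29077829))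
(L (nat_lit 22350269)))
(L (nat_lit 7791637)))
(L (nat_lit 7785501)))
(S (nat_lit 19289) (S (nat_lit 32344) (L (nat_lit 19033512))
(L (nat_lit 16109344)))
(L (nat_lit 10644140))))
(L (nat_lit 25643360)))))
(S (nat_lit 38999) (S (nat_lit 28) (S (nat_lit 12160) (S (nat_lit 14282) (L (nat_lit 445723))
(S (nat_lit 54422) (S (nat_lit 21990) (S (nat_lit 43955) (L (nat_lit 6168175))
(L (nat_lit 23506756)))
(L (nat_lit 3858704)))
(L (nat_lit 21765633))))
(S (nat_lit 31924) (S (nat_lit 34608) (S (nat_lit 47381) (S (nat_lit 1727) (L (nat_lit 25015430))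
(L (nat_lit 20715632)))
(L (nat_lit 7917440)))
(L (nat_lit 8208996)))
(S (nat_lit 51688) (S (nat_lit 15312) (S (nat_lit 17071) (S (nat_lit 36819) (L (nat_lit 28318226))
(L (nat_lit 8141911)))
(L (nat_lit 15295680)))
(S (nat_lit 35076) (S (nat_lit 14408) (L (nat_lit 26740326))
(L (nat_lit 22545660)))
(S (nat_lit 54840) (S (nat_lit 21959) (S (nat_lit 49524) (S (nat_lit 30705) (L (nat_lit 28022183))
(L (nat_lit 19071791)))
(L (nat_lit 14413093)))
(L (nat_lit 13212516)))
(L (nat_lit 25215255)))))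
(L (nat_lit 25507521)))))
(S (nat_lit 19792) (S (nat_lit 4437) (S (nat_lit 2195) (L (nat_lit 11448370))
(L (nat_lit 20120463)))
(L (nat_lit 20390656)))
(S (nat_lit 39556) (S (nat_lit 54422) (S (nat_lit 164) (S (nat_lit 19883) (L (nat_lit 30593419))
(L (nat_lit 17457349)))
(S (nat_lit 17071) (S (nat_lit 21971) (S (nat_lit 43955) (S (nat_lit 27555) (S (nat_lit 17055) (S (nat_lit 43927) (S (nat_lit 54372) (S (nat_lit 24216) (S (nat_lit 21990) (S (nat_lit 22018) (S (nat_lit 17558) (S (nat_lit 21531) (S (nat_lit 18603) (L (nat_lit 5618331))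
(L (nat_lit 28917058)))
(L (nat_lit 22601899)))
(S (nat_lit 37322) (S (nat_lit 31320) (L (nat_lit 2530938))
(L (nat_lit 29015237)))
(S (nat_lit 57086) (S (nat_lit 13205) (L (nat_lit 13722868))
(L (nat_lit 15459556)))
(L (nat_lit 25565828)))))
(L (nat_lit 21344381)))
(L (nat_lit 31114529)))
(L (nat_lit 3615450)))
(L (nat_lit 17490148)))
(L (nat_lit 24352592)))
(L (nat_lit 24362073)))
(L (nat_lit 25050186)))
(L (nat_lit 27962820)))
(S (nat_lit 32978) (L (nat_lit 216603))
(L (nat_lit 18077755))))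
(L (nat_lit 17391813))))
(L (nat_lit 18631939)))
(L (nat_lit 25867491)))))
(S (nat_lit 58763) (S (nat_lit 37176) (S (nat_lit 31816) (L (nat_lit 20726790))
(L (nat_lit 20742635)))
(S (nat_lit 56583) (S (nat_lit 2195) (S (nat_lit 7791) (L (nat_lit 26398215))
(L (nat_lit 14436645)))
(L (nat_lit 7393167)))
(L (nat_lit 6307701))))
(L (nat_lit 25602785)))))
(L (nat_lit 25559347)))))
(S (nat_lit 19820) (S (nat_lit 4427) (S (nat_lit 7853) (S (nat_lit 13158) (S (nat_lit 17514) (S (nat_lit 17071) (L (nat_lit 16345095))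
(L (nat_lit 22306865)))
(S (nat_lit 19299) (L (nat_lit 26427109))
(L (nat_lit 8173591))))
(S (nat_lit 32922) (S (nat_lit 17071) (S (nat_lit 2207) (L (nat_lit 29500918))
(L (nat_lit 20757732)))
(S (nat_lit 32043) (L (nat_lit 23144989))
(L (nat_lit 15295530))))
(S (nat_lit 52686) (S (nat_lit 2207) (S (nat_lit 43927) (L (nat_lit 6377228))
(L (nat_lit 5880156)))
(S (nat_lit 21219) (L (nat_lit 452295))
(L (nat_lit 20124188))))
(L (nat_lit 25798049)))))
(S (nat_lit 27617) (S (nat_lit 3942) (S (nat_lit 3266) (L (nat_lit 11684281))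
(S (nat_lit 46153) (S (nat_lit 21990) (L (nat_lit 1752871))
(L (nat_lit 21538721)))
(L (nat_lit 27796535))))
(S (nat_lit 23706) (S (nat_lit 14441) (L (nat_lit 20002109))
(S (nat_lit 34122) (S (nat_lit 21990) (S (nat_lit 6625) (L (nat_lit 22449370))
(L (nat_lit 7965454)))
(L (nat_lit 18523905)))
(L (nat_lit 23504028))))
(S (nat_lit 43470) (S (nat_lit 47867) (S (nat_lit 3530) (L (nat_lit 26426519))
(L (nat_lit 7009792)))
(L (nat_lit 1597685)))
(L (nat_lit 25930896)))))
(S (nat_lit 47381) (S (nat_lit 36835) (S (nat_lit 2207) (S (nat_lit 2226) (S (nat_lit 4437) (L (nat_lit 26357975))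
(L (nat_lit 1529048)))
(L (nat_lit 15395072)))
(L (nat_lit 20148740)))
(L (nat_lit 447709)))
(L (nat_lit 25700064)))))
(S (nat_lit 24191) (S (nat_lit 3456) (S (nat_lit 15323) (S (nat_lit 1281) (L (nat_lit 28837579))
(S (nat_lit 54088) (L (nat_lit 580889))
(L (nat_lit 3698314))))
(S (nat_lit 35087) (S (nat_lit 14358) (L (nat_lit 28429770))
(S (nat_lit 54956) (L (nat_lit 15060836))
(L (nat_lit 22283117))))
(S (nat_lit 54851) (S (nat_lit 52657) (S (nat_lit 10977) (L (nat_lit 6041846))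
(L (nat_lit 7792822)))
(S (nat_lit 53728) (L (nat_lit 24331321))
(L (nat_lit 6004281))))
(L (nat_lit 25633876)))))
(S (nat_lit 23220) (S (nat_lit 4437) (S (nat_lit 31354) (L (nat_lit 30910611))
(S (nat_lit 53886) (S (nat_lit 43) (S (nat_lit 15323) (L (nat_lit 20352903))
(L (nat_lit 781866)))
(L (nat_lit 8212655)))
(L (nat_lit 354775))))
(S (nat_lit 24201) (S (nat_lit 8762) (S (nat_lit 15353) (L (nat_lit 22220687))
(L (nat_lit 17681765)))
(S (nat_lit 21935) (L (nat_lit 17373066))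
(L (nat_lit 8177221))))
(S (nat_lit 43965) (S (nat_lit 41735) (S (nat_lit 39556) (L (nat_lit 5564823))
(L (nat_lit 18140185)))
(L (nat_lit 16343268)))
(L (nat_lit 25507393)))))
(S (nat_lit 42984) (S (nat_lit 17544) (S (nat_lit 6115) (S (nat_lit 1281) (S (nat_lit 50050) (L (nat_lit 19120004))
(L (nat_lit 20421477)))
(L (nat_lit 13948773)))
(L (nat_lit 20356960)))
(S (nat_lit 37308) (S (nat_lit 30741) (S (nat_lit 47867) (L (nat_lit 3395993))
(L (nat_lit 4017488)))
(L (nat_lit 13950753)))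
(S (nat_lit 57072) (S (nat_lit 30741) (S (nat_lit 35095) (L (nat_lit 8434361))
(L (nat_lit 8941154)))
(L (nat_lit 8473457)))
(L (nat_lit 25479247)))))
(L (nat_lit 25897411)))))
(S (nat_lit 43955) (S (nat_lit 6589) (S (nat_lit 8277) (S (nat_lit 4399) (S (nat_lit 30286) (S (nat_lit 28526) (S (nat_lit 54851) (S (nat_lit 14358) (S (nat_lit 58243) (S (nat_lit 29760) (L (nat_lit 4444730))
(L (nat_lit 19460325)))
(L (nat_lit 19835396)))
(L (nat_lit 26909740)))
(L (nat_lit 14524500)))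
(L (nat_lit 12607403)))
(L (nat_lit 10913496)))
(L (nat_lit 7943042)))
(S (nat_lit 28041) (S (nat_lit 13169) (S (nat_lit 28562) (S (nat_lit 6591) (S (nat_lit 35076) (L (nat_lit 28423751))
(L (nat_lit 23921031)))
(L (nat_lit 7419732)))
(L (nat_lit 30717668)))
(S (nat_lit 45959) (S (nat_lit 39556) (S (nat_lit 53936) (L (nat_lit 449384))
(L (nat_lit 7431698)))
(L (nat_lit 5926313)))
(L (nat_lit 13727467))))
(S (nat_lit 47805) (S (nat_lit 38673) (S (nat_lit 23704) (L (nat_lit 17439488))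
(L (nat_lit 21314621)))
(S (nat_lit 54902) (S (nat_lit 21491) (S (nat_lit 32914) (L (nat_lit 29570103))
(L (nat_lit 30704302)))
(L (nat_lit 7947321)))
(L (nat_lit 27691691))))
(L (nat_lit 25894436)))))
(S (nat_lit 26353) (S (nat_lit 15312) (S (nat_lit 20621) (S (nat_lit 26389) (L (nat_lit 19013052))
(L (nat_lit 2991511)))
(S (nat_lit 39556) (S (nat_lit 30171) (L (nat_lit 17004162))
(S (nat_lit 37330) (S (nat_lit 17055) (S (nat_lit 41754) (S (nat_lit 57102) (S (nat_lit 1241) (S (nat_lit 1281) (L (nat_lit 4534904))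
(L (nat_lit 13330627)))
(L (nat_lit 20214274)))
(L (nat_lit 11948221)))
(L (nat_lit 14345504)))
(L (nat_lit 24975502)))
(L (nat_lit 9855158))))
(L (nat_lit 24190361))))
(S (nat_lit 35076) (S (nat_lit 6625) (S (nat_lit 38999) (S (nat_lit 54372) (S (nat_lit 4399) (S (nat_lit 13169) (S (nat_lit 13158) (S (nat_lit 1727) (L (nat_lit 6982076))
(L (nat_lit 12906551)))
(L (nat_lit 7458232)))
(L (nat_lit 14493746)))
(L (nat_lit 20149635)))
(L (nat_lit 27346167)))
(L (nat_lit 30742254)))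
(S (nat_lit 55751) (L (nat_lit 10971841))
(L (nat_lit 714959))))
(S (nat_lit 54840) (S (nat_lit 30203) (L (nat_lit 31102443))
(S (nat_lit 39556) (S (nat_lit 41754) (S (nat_lit 48290) (S (nat_lit 32933) (S (nat_lit 17566) (S (nat_lit 13150) (S (nat_lit 29760) (S (nat_lit 42984) (S (nat_lit 8764) (L (nat_lit 4763258))
(L (nat_lit 8138935)))
(L (nat_lit 7360029)))
(L (nat_lit 24504334)))
(L (nat_lit 13918227)))
(L (nat_lit 1462185)))
(L (nat_lit 20884528)))
(L (nat_lit 5730581)))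
(S (nat_lit 42402) (L (nat_lit 17978584))
(L (nat_lit 12225947))))
(L (nat_lit 23331257))))
(L (nat_lit 25860208)))))
(S (nat_lit 46117) (S (nat_lit 2254) (S (nat_lit 38479) (S (nat_lit 38999) (S (nat_lit 37338) (S (nat_lit 2195) (S (nat_lit 12668) (L (nat_lit 18888523))
(L (nat_lit 9455196)))
(L (nat_lit 17367947)))
(L (nat_lit 20321126)))
(L (nat_lit 7796385)))
(L (nat_lit 17541272)))
(S (nat_lit 22018) (S (nat_lit 24216) (S (nat_lit 41754) (S (nat_lit 39556) (S (nat_lit 4399) (S (nat_lit 27555) (S (nat_lit 30777) (S (nat_lit 8762) (S (nat_lit 54422) (S (nat_lit 43) (S (nat_lit 38999) (S (nat_lit 21971) (S (nat_lit 7853) (S (nat_lit 41723) (L (nat_lit 5488216))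
(L (nat_lit 23960719)))
(L (nat_lit 23633053)))
(L (nat_lit 8941124)))
(L (nat_lit 31047969)))
(S (nat_lit 24070) (L (nat_lit 6820788))
(S (nat_lit 41617) (L (nat_lit 6786902))
(L (nat_lit 1921544)))))
(L (nat_lit 27806915)))
(L (nat_lit 17525834)))
(L (nat_lit 19215200)))
(L (nat_lit 30853347)))
(L (nat_lit 18655381)))
(L (nat_lit 5533294)))
(L (nat_lit 24945742)))
(L (nat_lit 22386545)))
(S (nat_lit 41782) (S (nat_lit 25841) (S (nat_lit 30246) (S (nat_lit 46153) (L (nat_lit 28740203))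
(L (nat_lit 27796535)))
(L (nat_lit 798198)))
(S (nat_lit 36154) (S (nat_lit 52657) (L (nat_lit 10606445))
(L (nat_lit 11241017)))
(L (nat_lit 13994838))))
(L (nat_lit 25347752)))))
(L (nat_lit 25286862)))))
(L (nat_lit 25246410)))))
(S (nat_lit 39584) (S (nat_lit 12160) (S (nat_lit 10482) (S (nat_lit 4452) (S (nat_lit 2226) (S (nat_lit 2207) (S (nat_lit 46153) (L (nat_lit 16538631))
(L (nat_lit 18156471)))
(L (nat_lit 8175204)))
(L (nat_lit 8204928)))
(S (nat_lit 24216) (S (nat_lit 52657) (S (nat_lit 54851) (S (nat_lit 38479) (L (nat_lit 6180358))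
(L (nat_lit 20486059)))
(L (nat_lit 21193837)))
(S (nat_lit 54682) (L (nat_lit 13832020))
(L (nat_lit 17036470))))
(S (nat_lit 43980) (S (nat_lit 15665) (L (nat_lit 6169196))
(S (nat_lit 35117) (S (nat_lit 43955) (L (nat_lit 20111755))
(L (nat_lit 23519557)))
(L (nat_lit 23650475))))
(L (nat_lit 25353606)))))
(S (nat_lit 30246) (S (nat_lit 8757) (S (nat_lit 15331) (S (nat_lit 2207) (S (nat_lit 5591) (L (nat_lit 5777206))
(L (nat_lit 6081804)))
(L (nat_lit 243511)))
(S (nat_lit 29886) (L (nat_lit 566938))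
(L (nat_lit 834870))))
(S (nat_lit 28521) (S (nat_lit 5240) (L (nat_lit 20104412))
(S (nat_lit 46108) (S (nat_lit 43959) (S (nat_lit 38999) (L (nat_lit 5458365))
(L (nat_lit 16802098)))
(L (nat_lit 11290240)))
(L (nat_lit 17026108))))
(S (nat_lit 48285) (S (nat_lit 21491) (S (nat_lit 54902) (L (nat_lit 7518066))
(L (nat_lit 5000399)))
(L (nat_lit 10915702)))
(L (nat_lit 25365134)))))
(S (nat_lit 50010) (S (nat_lit 2353) (S (nat_lit 10616) (L (nat_lit 20410596))
(L (nat_lit 14452981)))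
(S (nat_lit 7791) (S (nat_lit 7264) (L (nat_lit 14281957))
(S (nat_lit 28571) (S (nat_lit 45157) (S (nat_lit 4437) (L (nat_lit 4896518))
(L (nat_lit 1403442)))
(L (nat_lit 27690667)))
(L (nat_lit 18456324))))
(L (nat_lit 23889196))))
(L (nat_lit 25934082)))))
(S (nat_lit 31924) (S (nat_lit 10977) (S (nat_lit 16569) (S (nat_lit 15353) (S (nat_lit 53886) (L (nat_lit 4728727))
(L (nat_lit 8245293)))
(L (nat_lit 16885682)))
(S (nat_lit 36333) (S (nat_lit 47867) (L (nat_lit 552179))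
(L (nat_lit 6837272)))
(S (nat_lit 56097) (S (nat_lit 52174) (S (nat_lit 8277) (S (nat_lit 28562) (L (nat_lit 5644211))
(L (nat_lit 19182681)))
(L (nat_lit 26524790)))
(L (nat_lit 20232101)))
(L (nat_lit 25217482)))))
(S (nat_lit 30741) (S (nat_lit 13180) (S (nat_lit 34658) (S (nat_lit 9996) (L (nat_lit 20480252))
(L (nat_lit 17162326)))
(L (nat_lit 549076)))
(S (nat_lit 32944) (S (nat_lit 17055) (S (nat_lit 9996) (S (nat_lit 22018) (S (nat_lit 16585) (L (nat_lit 19310434))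
(L (nat_lit 8839809)))
(L (nat_lit 2610456)))
(L (nat_lit 9003022)))
(S (nat_lit 55534) (L (nat_lit 30422231))
(L (nat_lit 26948683))))
(S (nat_lit 52708) (S (nat_lit 37308) (S (nat_lit 52657) (S (nat_lit 52678) (L (nat_lit 1357590))
(L (nat_lit 17095708)))
(L (nat_lit 10499676)))
(L (nat_lit 30938823)))
(L (nat_lit 25517134)))))
(S (nat_lit 50505) (S (nat_lit 2254) (S (nat_lit 2226) (S (nat_lit 32922) (S (nat_lit 27555) (S (nat_lit 58243) (L (nat_lit 2607979))
(L (nat_lit 8293997)))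
(L (nat_lit 4475756)))
(S (nat_lit 35748) (L (nat_lit 23627996))
(L (nat_lit 15311680))))
(S (nat_lit 25346) (L (nat_lit 5497330))
(L (nat_lit 18952473))))
(S (nat_lit 22018) (S (nat_lit 9996) (S (nat_lit 17055) (S (nat_lit 43) (S (nat_lit 2226) (S (nat_lit 28521) (S (nat_lit 43836) (L (nat_lit 435060))
(L (nat_lit 29560527)))
(L (nat_lit 13438166)))
(L (nat_lit 19149632)))
(L (nat_lit 13444802)))
(L (nat_lit 26392235)))
(L (nat_lit 6021610)))
(S (nat_lit 41782) (S (nat_lit 36349) (S (nat_lit 52678) (L (nat_lit 5760307))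
(L (nat_lit 11121724)))
(S (nat_lit 37887) (L (nat_lit 7197056))
(L (nat_lit 13178726))))
(L (nat_lit 25928226)))))
(L (nat_lit 25601633)))))
(S (nat_lit 51688) (S (nat_lit 49) (S (nat_lit 8339) (S (nat_lit 4399) (S (nat_lit 7853) (S (nat_lit 12668) (S (nat_lit 1767) (L (nat_lit 29602870))
(L (nat_lit 26426546)))
(L (nat_lit 2532957)))
(L (nat_lit 20979568)))
(S (nat_lit 34974) (L (nat_lit 897611))
(L (nat_lit 26794153))))
(S (nat_lit 28103) (S (nat_lit 13169) (S (nat_lit 15353) (S (nat_lit 2254) (L (nat_lit 26793128))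
(L (nat_lit 448360)))
(L (nat_lit 902516)))
(S (nat_lit 18914) (L (nat_lit 7499223))
(L (nat_lit 7967164))))
(S (nat_lit 47867) (S (nat_lit 36835) (S (nat_lit 2226) (S (nat_lit 21491) (L (nat_lit 9262629))
(L (nat_lit 7767926)))
(L (nat_lit 8213616)))
(S (nat_lit 58911) (L (nat_lit 20410629))
(L (nat_lit 7858821))))
(L (nat_lit 25871528)))))
(S (nat_lit 19813) (S (nat_lit 6580) (S (nat_lit 4431) (S (nat_lit 15331) (S (nat_lit 38479) (L (nat_lit 29508819))
(L (nat_lit 4540179)))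
(L (nat_lit 7389043)))
(S (nat_lit 24195) (S (nat_lit 4427) (L (nat_lit 28488331))
(L (nat_lit 8057220)))
(S (nat_lit 43959) (S (nat_lit 17071) (S (nat_lit 4399) (S (nat_lit 1767) (L (nat_lit 2967942))
(L (nat_lit 26749602)))
(L (nat_lit 635817)))
(L (nat_lit 22948977)))
(L (nat_lit 25888262)))))
(S (nat_lit 26344) (S (nat_lit 4437) (S (nat_lit 13180) (S (nat_lit 8798) (L (nat_lit 8302615))
(L (nat_lit 906511)))
(S (nat_lit 32944) (S (nat_lit 54422) (S (nat_lit 14844) (S (nat_lit 26353) (L (nat_lit 29374743))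
(L (nat_lit 16521271)))
(L (nat_lit 12371981)))
(L (nat_lit 21538936)))
(S (nat_lit 52708) (S (nat_lit 50469) (L (nat_lit 7485021))
(L (nat_lit 27827809)))
(L (nat_lit 25549934)))))
(S (nat_lit 26174) (L (nat_lit 13640563))
(L (nat_lit 939558))))
(S (nat_lit 46108) (S (nat_lit 4431) (S (nat_lit 22018) (S (nat_lit 14408) (S (nat_lit 50539) (L (nat_lit 4761211))
(L (nat_lit 20393049)))
(L (nat_lit 12817330)))
(L (nat_lit 22536450)))
(S (nat_lit 24195) (S (nat_lit 17558) (S (nat_lit 27617) (L (nat_lit 30622838))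
(L (nat_lit 16424704)))
(L (nat_lit 22382510)))
(S (nat_lit 43959) (S (nat_lit 17071) (S (nat_lit 4399) (S (nat_lit 41295) (S (nat_lit 41754) (S (nat_lit 54881) (L (nat_lit 28743238))
(L (nat_lit 12114104)))
(L (nat_lit 27829888)))
(L (nat_lit 23862756)))
(L (nat_lit 20719792)))
(L (nat_lit 10051628)))
(L (nat_lit 25493938)))))
(L (nat_lit 25412631)))))
(S (nat_lit 39577) (S (nat_lit 4437) (S (nat_lit 9996) (S (nat_lit 43) (S (nat_lit 4399) (L (nat_lit 4648215))
(L (nat_lit 1651624)))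
(L (nat_lit 7180015)))
(S (nat_lit 39133) (L (nat_lit 12369011))
(L (nat_lit 5628592))))
(S (nat_lit 24201) (S (nat_lit 43955) (S (nat_lit 38999) (L (nat_lit 29667940))
(L (nat_lit 19953126)))
(L (nat_lit 23898501)))
(S (nat_lit 43965) (S (nat_lit 41782) (S (nat_lit 2207) (L (nat_lit 4445725))
(L (nat_lit 7827479)))
(L (nat_lit 23457868)))
(L (nat_lit 25306674)))))
(L (nat_lit 25662089)))))
(L (nat_lit 25832932)))))
(L (nat_lit 25336400)))))
(L (nat_lit 25185734)))))

theorem rb183_0 : run 4 lb183 [] tb183_0 kb183 (P4 4 743 0 4082 6403 0 0 0 1) [] = true := by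
  decide +kernel

noncomputable def ta35_2 : Tr :=
(S (nat_lit 509) (S (nat_lit 590) (S (nat_lit 428) (S (nat_lit 6541) (S (nat_lit 3601) (S (nat_lit 325) (S (nat_lit 665) (S (nat_lit 5981) (S (nat_lit 6143) (S (nat_lit 3050) (S (nat_lit 629) (S (nat_lit 6230) (S (nat_lit 650) (S (nat_lit 112) (S (nat_lit 51) (S (nat_lit 3586) (D (nat_lit 8) (nat_lit 704736) (nat_lit 229965) (nat_lit 36509384705))
(L (nat_lit 380049)))
(L (nat_lit 286209)))
(L (nat_lit 511232)))
(L (nat_lit 437366)))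
(L (nat_lit 667905)))
(L (nat_lit 274551)))
(L (nat_lit 755115)))
(L (nat_lit 668745)))
(L (nat_lit 668931)))
(L (nat_lit 446472)))
(L (nat_lit 428372)))
(L (nat_lit 234129)))
(L (nat_lit 220240)))
(S (nat_lit 1184) (S (nat_lit 96) (S (nat_lit 2183) (L (nat_lit 88614))
(L (nat_lit 209570)))
(S (nat_lit 2310) (S (nat_lit 3089) (S (nat_lit 6245) (L (nat_lit 300621))
(L (nat_lit 286146)))
(L (nat_lit 234127)))
(L (nat_lit 604516))))
(S (nat_lit 1940) (S (nat_lit 3212) (S (nat_lit 153) (L (nat_lit 279703))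
(L (nat_lit 755110)))
(S (nat_lit 3266) (L (nat_lit 576555))
(L (nat_lit 85481))))
(L (nat_lit 403104)))))
(S (nat_lit 2804) (S (nat_lit 671) (S (nat_lit 836) (L (nat_lit 626150))
(L (nat_lit 548163)))
(S (nat_lit 2885) (S (nat_lit 274) (L (nat_lit 211029))
(S (nat_lit 3214) (L (nat_lit 444739))
(L (nat_lit 696771))))
(S (nat_lit 5099) (S (nat_lit 258) (S (nat_lit 650) (S (nat_lit 2879) (S (nat_lit 4525) (S (nat_lit 3272) (L (nat_lit 688647))
(L (nat_lit 211521)))
(L (nat_lit 543784)))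
(L (nat_lit 460392)))
(S (nat_lit 1406) (L (nat_lit 243269))
(L (nat_lit 411938))))
(L (nat_lit 428338)))
(L (nat_lit 606434)))))
(S (nat_lit 5018) (S (nat_lit 325) (S (nat_lit 2885) (S (nat_lit 4613) (S (nat_lit 2311) (S (nat_lit 428) (L (nat_lit 738346))
(L (nat_lit 632290)))
(L (nat_lit 467557)))
(L (nat_lit 542858)))
(L (nat_lit 771298)))
(S (nat_lit 2539) (S (nat_lit 4856) (S (nat_lit 2885) (L (nat_lit 17748))
(L (nat_lit 771394)))
(L (nat_lit 313826)))
(S (nat_lit 4753) (S (nat_lit 3272) (S (nat_lit 4327) (S (nat_lit 5264) (L (nat_lit 81479))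
(L (nat_lit 53615)))
(L (nat_lit 53639)))
(L (nat_lit 413705)))
(L (nat_lit 594254)))))
(L (nat_lit 593136)))))
(S (nat_lit 2723) (S (nat_lit 836) (S (nat_lit 1577) (L (nat_lit 174580))
(S (nat_lit 3767) (S (nat_lit 2473) (S (nat_lit 1387) (S (nat_lit 6230) (S (nat_lit 4856) (S (nat_lit 2214) (S (nat_lit 4686) (L (nat_lit 187815))
(L (nat_lit 244885)))
(L (nat_lit 119174)))
(L (nat_lit 248290)))
(L (nat_lit 667785)))
(L (nat_lit 110901)))
(L (nat_lit 81574)))
(L (nat_lit 8782))))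
(S (nat_lit 3050) (S (nat_lit 259) (S (nat_lit 4428) (S (nat_lit 3272) (S (nat_lit 428) (S (nat_lit 5981) (S (nat_lit 3212) (L (nat_lit 310291))
(L (nat_lit 763055)))
(L (nat_lit 49426)))
(L (nat_lit 286178)))
(L (nat_lit 201453)))
(L (nat_lit 340641)))
(L (nat_lit 331502)))
(S (nat_lit 5264) (S (nat_lit 1553) (S (nat_lit 0) (S (nat_lit 2642) (S (nat_lit 4687) (S (nat_lit 998) (S (nat_lit 650) (S (nat_lit 6541) (S (nat_lit 3668) (S (nat_lit 6346) (S (nat_lit 3537) (S (nat_lit 6084) (D (nat_lit 10) (nat_lit 89510) (nat_lit 142925) (nat_lit 69273665))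
(L (nat_lit 701696)))
(L (nat_lit 634308)))
(L (nat_lit 351277)))
(L (nat_lit 21930)))
(L (nat_lit 220612)))
(L (nat_lit 109975)))
(S (nat_lit 6202) (L (nat_lit 171573))
(L (nat_lit 7917))))
(L (nat_lit 245314)))
(L (nat_lit 499266)))
(L (nat_lit 399937)))
(L (nat_lit 566913)))
(L (nat_lit 600109)))))
(S (nat_lit 4937) (S (nat_lit 1478) (S (nat_lit 1553) (S (nat_lit 5078) (S (nat_lit 5815) (L (nat_lit 78474))
(L (nat_lit 209572)))
(L (nat_lit 220337)))
(S (nat_lit 3767) (S (nat_lit 4753) (S (nat_lit 4788) (L (nat_lit 48469))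
(L (nat_lit 281989)))
(L (nat_lit 56590)))
(S (nat_lit 5981) (S (nat_lit 3212) (S (nat_lit 2214) (S (nat_lit 259) (L (nat_lit 558293))
(L (nat_lit 432308)))
(L (nat_lit 283009)))
(L (nat_lit 403045)))
(L (nat_lit 595214)))))
(S (nat_lit 3692) (S (nat_lit 1485) (S (nat_lit 4279) (L (nat_lit 346531))
(L (nat_lit 411872)))
(S (nat_lit 2311) (S (nat_lit 5099) (S (nat_lit 734) (S (nat_lit 2539) (S (nat_lit 2113) (S (nat_lit 5815) (L (nat_lit 461142))
(L (nat_lit 22892)))
(L (nat_lit 500820)))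
(L (nat_lit 494283)))
(L (nat_lit 248356)))
(L (nat_lit 280625)))
(L (nat_lit 280623))))
(S (nat_lit 5906) (S (nat_lit 97) (S (nat_lit 5162) (L (nat_lit 431721))
(L (nat_lit 138802)))
(S (nat_lit 2311) (S (nat_lit 3601) (L (nat_lit 275076))
(L (nat_lit 561458)))
(S (nat_lit 4525) (S (nat_lit 2021) (S (nat_lit 2948) (S (nat_lit 3601) (S (nat_lit 325) (S (nat_lit 1715) (S (nat_lit 3503) (S (nat_lit 306) (S (nat_lit 6022) (S (nat_lit 115) (D (nat_lit 10) (nat_lit 248192) (nat_lit 210497) (nat_lit 68158528))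
(L (nat_lit 662639)))
(L (nat_lit 728173)))
(L (nat_lit 535571)))
(L (nat_lit 145030)))
(L (nat_lit 348580)))
(L (nat_lit 332180)))
(L (nat_lit 332428)))
(L (nat_lit 416004)))
(S (nat_lit 4687) (S (nat_lit 3272) (S (nat_lit 2472) (S (nat_lit 4613) (S (nat_lit 325) (L (nat_lit 172562))
(L (nat_lit 347278)))
(L (nat_lit 672034)))
(L (nat_lit 470166)))
(L (nat_lit 756105)))
(L (nat_lit 154118))))
(L (nat_lit 604201)))))
(L (nat_lit 601572)))))
(L (nat_lit 607334)))))

theorem ra35_2 : run 3 la35 [] ta35_2 ka35 (P4 3 1 108 468 708 0 0 1 2) [] = true := by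
  decide +kernel

noncomputable def ta29_5 : Tr :=
(S (nat_lit 1953) (S (nat_lit 1629) (S (nat_lit 648) (S (nat_lit 1478) (S (nat_lit 9) (S (nat_lit 1944) (L (nat_lit 197173))
(L (nat_lit 310290)))
(L (nat_lit 244754)))
(S (nat_lit 3692) (S (nat_lit 666) (S (nat_lit 657) (S (nat_lit 4437) (L (nat_lit 201109))
(L (nat_lit 374839)))
(L (nat_lit 446821)))
(S (nat_lit 4315) (L (nat_lit 626000))
(L (nat_lit 363085))))
(S (nat_lit 5906) (S (nat_lit 5094) (S (nat_lit 1482) (L (nat_lit 51407))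
(L (nat_lit 233938)))
(L (nat_lit 657708)))
(L (nat_lit 594474)))))
(L (nat_lit 636197)))
(L (nat_lit 636071)))
(S (nat_lit 4167) (S (nat_lit 5505) (S (nat_lit 648) (S (nat_lit 1620) (S (nat_lit 1944) (S (nat_lit 3302) (S (nat_lit 3814) (S (nat_lit 1478) (S (nat_lit 1110) (S (nat_lit 695) (S (nat_lit 5441) (S (nat_lit 2223) (S (nat_lit 6009) (D (nat_lit 2) (nat_lit 462407) (nat_lit 510210) (nat_lit 36540842016))
(L (nat_lit 697359)))
(L (nat_lit 515078)))
(L (nat_lit 536161)))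
(L (nat_lit 465474)))
(L (nat_lit 314916)))
(L (nat_lit 211524)))
(L (nat_lit 245345)))
(L (nat_lit 501811)))
(L (nat_lit 631855)))
(L (nat_lit 106097)))
(L (nat_lit 308805)))
(L (nat_lit 668900)))
(S (nat_lit 6381) (S (nat_lit 3287) (S (nat_lit 648) (S (nat_lit 1620) (S (nat_lit 1944) (S (nat_lit 5462) (S (nat_lit 2244) (S (nat_lit 6323) (S (nat_lit 4437) (S (nat_lit 3256) (S (nat_lit 1081) (S (nat_lit 4142) (S (nat_lit 726) (D (nat_lit 2) (nat_lit 527602) (nat_lit 575560) (nat_lit 36540842016))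
(L (nat_lit 530515)))
(L (nat_lit 575528)))
(L (nat_lit 575808)))
(L (nat_lit 470066)))
(L (nat_lit 567009)))
(L (nat_lit 558418)))
(L (nat_lit 564961)))
(L (nat_lit 567873)))
(L (nat_lit 632289)))
(L (nat_lit 630307)))
(L (nat_lit 373939)))
(L (nat_lit 210067)))
(L (nat_lit 597473)))))

theorem ra29_5 : run 3 la29 [] ta29_5 ka29 (P4 3 372 370 108 0 1 2 0 0) [] = true := by
  decide +kernel

noncomputable def tb264_0 : Tr :=
(L (nat_lit 25833731))

theorem rb264_0 : run 4 lb264 [] tb264_0 kb264 (P4 4 2472 2352 6241 2352 0 0 0 1) [] = true := by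
  decide +kernel

noncomputable def tb182_5 : Tr :=
(L (nat_lit 25768128))

theorem rb182_5 : run 4 lb182 [] tb182_5 kb182 (P4 4 1473 0 5135 0 1 2 0 0) [] = true := by
  decide +kernel

noncomputable def ta13_3 : Tr :=
(L (nat_lit 605440))

theorem ra13_3 : run 3 la13 [] ta13_3 ka13 (P4 3 3 623 79 623 0 1 0 0) [] = true := by
  decide +kernel

end Pool.Agent.MP_92191b_al.K3.E
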