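import Pool.Agent.MP_92191b_al.K3.CR17
import Pool.Agent.MP_92191b_al.K3.CR18
import Pool.Agent.MP_92191b_al.K3.CR19

/-! The excluded configurations do not occur. -/

namespace Pool.Agent.MP_92191b_al.K3.E

theorem da7 : DeadC 3 ka7 :=
  have hl : All (fun e => DeadC e.1 e.2) la7 := trivial
  eqRule 44 359 386 359 (by decide +kernel)
    (dead_of ra7_0 hl trivial)
    (dead_of ra7_1 hl trivial)
    (dead_of ra7_2 hl trivial)
    (dead_of ra7_3 hl trivial)
    (dead_of ra7_4 hl trivial)
    (dead_of ra7_5 hl trivial)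

theorem da27 : DeadC 3 ka27 :=
  have hl : All (fun e => DeadC e.1 e.2) la27 := trivial
  eqRule 1 108 152 108 (by decide +kernel)
    (dead_of ra27_0 hl trivial)
    (dead_of ra27_1 hl trivial)
    (dead_of ra27_2 hl trivial)
    (dead_of ra27_3 hl trivial)
    (dead_of ra27_4 hl trivial)
    (dead_of ra27_5 hl trivial)

theorem da26 : DeadC 3 ka26 :=
  have hl : All (fun e => DeadC e.1 e.2) la26 := ⟨da7, da27, trivial⟩
  eqRule 468 462 406 298 (by decide +kernel)
    (dead_of ra26_0 hl trivial)
    (dead_of ra26_1 hl trivial)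
    (dead_of ra26_2 hl trivial)
    (dead_of ra26_3 hl trivial)
    (dead_of ra26_4 hl trivial)
    (dead_of ra26_5 hl trivial)

theorem da29 : DeadC 3 ka29 :=
  have hl : All (fun e => DeadC e.1 e.2) la29 := ⟨da7, da27, trivial⟩
  eqRule 372 370 108 0 (by decide +kernel)
    (dead_of ra29_0 hl trivial)
    (dead_of ra29_1 hl trivial)
    (dead_of ra29_2 hl trivial)
    (dead_of ra29_3 hl trivial)
    (dead_of ra29_4 hl trivial)
    (dead_of ra29_5 hl trivial)

theorem db80 : DeadC 4 kb80 :=
  have hl : All (fun e => DeadC e.1 e.2) lb80 := ⟨da7, da27, da26, da29, trivial⟩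
  eqRule 5681 1059 6270 1059 (by decide +kernel)
    (dead_of rb80_0 hl trivial)
    (dead_of rb80_1 hl trivial)
    (dead_of rb80_2 hl trivial)
    (dead_of rb80_3 hl trivial)
    (dead_of rb80_4 hl trivial)
    (dead_of rb80_5 hl trivial)

theorem db178 : DeadC 4 kb178 :=
  have hl : All (fun e => DeadC e.1 e.2) lb178 := ⟨da7, da27, da26, da29, trivial⟩
  eqRule 1809 4070 192 1809 (by decide +kernel)
    (dead_of rb178_0 hl trivial)
    (dead_of rb178_1 hl trivial)
    (dead_of rb178_2 hl trivial)
    (dead_of rb178_3 hl trivial)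
    (dead_of rb178_4 hl trivial)
    (dead_of rb178_5 hl trivial)

theorem db179 : DeadC 4 kb179 :=
  have hl : All (fun e => DeadC e.1 e.2) lb179 := ⟨da7, da27, da26, da29, trivial⟩
  eqRule 2197 2355 2217 5601 (by decide +kernel)
    (dead_of rb179_0 hl trivial)
    (dead_of rb179_1 hl trivial)
    (dead_of rb179_2 hl trivial)
    (dead_of rb179_3 hl trivial)
    (dead_of rb179_4 hl trivial)
    (dead_of rb179_5 hl trivial)

theorem db183 : DeadC 4 kb183 :=
  have hl : All (fun e => DeadC e.1 e.2) lb183 := ⟨da7, da27, da26, da29, trivial⟩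
  eqRule 743 0 4082 6403 (by decide +kernel)
    (dead_of rb183_0 hl trivial)
    (dead_of rb183_1 hl trivial)
    (dead_of rb183_2 hl trivial)
    (dead_of rb183_3 hl trivial)
    (dead_of rb183_4 hl trivial)
    (dead_of rb183_5 hl trivial)

theorem db264 : DeadC 4 kb264 :=
  have hl : All (fun e => DeadC e.1 e.2) lb264 := ⟨da7, da27, da26, da29, trivial⟩
  eqRule 2472 2352 6241 2352 (by decide +kernel)
    (dead_of rb264_0 hl trivial)
    (dead_of rb264_1 hl trivial)
    (dead_of rb264_2 hl trivial)
    (dead_of rb264_3 hl trivial)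
    (dead_of rb264_4 hl trivial)
    (dead_of rb264_5 hl trivial)

theorem db180 : DeadC 4 kb180 :=
  have hl : All (fun e => DeadC e.1 e.2) lb180 := ⟨da7, da27, da26, da29, db179, trivial⟩
  eqRule 4791 2836 6347 2836 (by decide +kernel)
    (dead_of rb180_0 hl trivial)
    (dead_of rb180_1 hl trivial)
    (dead_of rb180_2 hl trivial)
    (dead_of rb180_3 hl trivial)
    (dead_of rb180_4 hl trivial)
    (dead_of rb180_5 hl trivial)

theorem db81 : DeadC 4 kb81 :=
  have hl : All (fun e => DeadC e.1 e.2) lb81 := ⟨da7, da27, da26, da29, db80, trivial⟩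
  eqRule 2366 0 3275 2366 (by decide +kernel)
    (dead_of rb81_0 hl trivial)
    (dead_of rb81_1 hl trivial)
    (dead_of rb81_2 hl trivial)
    (dead_of rb81_3 hl trivial)
    (dead_of rb81_4 hl trivial)
    (dead_of rb81_5 hl trivial)

theorem db182 : DeadC 4 kb182 :=
  have hl : All (fun e => DeadC e.1 e.2) lb182 := ⟨da7, da27, da26, da29, db80, db81, db178, db180, db183, db179, db264, trivial⟩
  eqRule 1473 0 5135 0 (by decide +kernel)
    (dead_of rb182_0 hl trivial)
    (dead_of rb182_1 hl trivial)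
    (dead_of rb182_2 hl trivial)
    (dead_of rb182_3 hl trivial)
    (dead_of rb182_4 hl trivial)
    (dead_of rb182_5 hl trivial)

theorem db75 : DeadC 4 kb75 :=
  have hl : All (fun e => DeadC e.1 e.2) lb75 := ⟨da7, da27, da26, da29, db80, db81, db182, db178, db180, db183, db179, db264, trivial⟩
  eqRule 2216 2760 1253 2760 (by decide +kernel)
    (dead_of rb75_0 hl trivial)
    (dead_of rb75_1 hl trivial)
    (dead_of rb75_2 hl trivial)
    (dead_of rb75_3 hl trivial)
    (dead_of rb75_4 hl trivial)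
    (dead_of rb75_5 hl trivial)

theorem da14 : DeadC 3 ka14 :=
  have hl : All (fun e => DeadC e.1 e.2) la14 := ⟨da7, da27, da26, da29, db75, db80, db81, db180, db182, db183, trivial⟩
  eqRule 3 623 502 623 (by decide +kernel)
    (dead_of ra14_0 hl trivial)
    (dead_of ra14_1 hl trivial)
    (dead_of ra14_2 hl trivial)
    (dead_of ra14_3 hl trivial)
    (dead_of ra14_4 hl trivial)
    (dead_of ra14_5 hl trivial)

theorem db177 : DeadC 4 kb177 :=
  have hl : All (fun e => DeadC e.1 e.2) lb177 := ⟨da7, da27, da26, da29, da14, db178, db179, trivial⟩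
  eqRule 2202 0 2306 0 (by decide +kernel)
    (dead_of rb177_0 hl trivial)
    (dead_of rb177_1 hl trivial)
    (dead_of rb177_2 hl trivial)
    (dead_of rb177_3 hl trivial)
    (dead_of rb177_4 hl trivial)
    (dead_of rb177_5 hl trivial)

theorem da13 : DeadC 3 ka13 :=
  have hl : All (fun e => DeadC e.1 e.2) la13 := ⟨da7, da27, da26, da29, da14, db177, db178, db179, trivial⟩
  eqRule 3 623 79 623 (by decide +kernel)
    (dead_of ra13_0 hl trivial)
    (dead_of ra13_1 hl trivial)
    (dead_of ra13_2 hl trivial)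
    (dead_of ra13_3 hl trivial)
    (dead_of ra13_4 hl trivial)
    (dead_of ra13_5 hl trivial)

theorem db262 : DeadC 4 kb262 :=
  have hl : All (fun e => DeadC e.1 e.2) lb262 := ⟨da7, da27, da26, da29, da14, da13, db264, trivial⟩
  eqRule 3082 0 2942 0 (by decide +kernel)
    (dead_of rb262_0 hl trivial)
    (dead_of rb262_1 hl trivial)
    (dead_of rb262_2 hl trivial)
    (dead_of rb262_3 hl trivial)
    (dead_of rb262_4 hl trivial)
    (dead_of rb262_5 hl trivial)

theorem da35 : DeadC 3 ka35 :=
  have hl : All (fun e => DeadC e.1 e.2) la35 := ⟨da7, da27, da26, da29, da14, da13, db262, db264, trivial⟩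
  eqRule 1 108 468 708 (by decide +kernel)
    (dead_of ra35_0 hl trivial)
    (dead_of ra35_1 hl trivial)
    (dead_of ra35_2 hl trivial)
    (dead_of ra35_3 hl trivial)
    (dead_of ra35_4 hl trivial)
    (dead_of ra35_5 hl trivial)

theorem da39 : DeadC 3 ka39 :=
  have hl : All (fun e => DeadC e.1 e.2) la39 := ⟨da7, da27, da26, da29, da14, da13, da35, trivial⟩
  eqRule 490 0 695 490 (by decide +kernel)
    (dead_of ra39_0 hl trivial)
    (dead_of ra39_1 hl trivial)
    (dead_of ra39_2 hl trivial)
    (dead_of ra39_3 hl trivial)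
    (dead_of ra39_4 hl trivial)
    (dead_of ra39_5 hl trivial)

theorem db246 : DeadC 4 kb246 :=
  have hl : All (fun e => DeadC e.1 e.2) lb246 := ⟨da7, da27, da26, da29, da14, da13, da35, da39, trivial⟩
  liftRule 0 338 0 648 648 5117 (by decide +kernel)
    (dead_of rb246_0 hl ⟨dead_of rb246_0_0 hl trivial, dead_of rb246_0_1 hl trivial, dead_of rb246_0_2 hl trivial, dead_of rb246_0_3 hl trivial, dead_of rb246_0_4 hl trivial, dead_of rb246_0_5 hl trivial, dead_of rb246_0_6 hl trivial, dead_of rb246_0_7 hl trivial, dead_of rb246_0_8 hl trivial, dead_of rb246_0_9 hl trivial, dead_of rb246_0_10 hl trivial, dead_of rb246_0_11 hl trivial, dead_of rb246_0_12 hl trivial, dead_of rb246_0_13 hl trivial, dead_of rb246_0_14 hl trivial, dead_of rb246_0_15 hl trivial, dead_of rb246_0_16 hl trivial, dead_of rb246_0_17 hl trivial, dead_of rb246_0_18 hl trivial, dead_of rb246_0_19 hl trivial, dead_of rb246_0_20 hl trivial, dead_of rb246_0_21 hl trivial, dead_of rb246_0_22 hl trivial, dead_of rb246_0_23 hl trivial, dead_of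 rb246_0_24 hl trivial, dead_of rb246_0_25 hl trivial, trivial⟩)

theorem da37 : DeadC 3 ka37 :=
  have hl : All (fun e => DeadC e.1 e.2) la37 := ⟨da7, da27, da26, da29, da14, da13, da35, da39, db246, trivial⟩
  eqRule 203 0 314 203 (by decide +kernel)
    (dead_of ra37_0 hl trivial)
    (dead_of ra37_1 hl trivial)
    (dead_of ra37_2 hl trivial)
    (dead_of ra37_3 hl trivial)
    (dead_of ra37_4 hl trivial)
    (dead_of ra37_5 hl trivial)

end Pool.Agent.MP_92191b_al.K3.E
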