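import Pool.Agent.MP_92191b_al.K3.CData

/-! Refutation trees. -/

namespace Pool.Agent.MP_92191b_al.K3.E

open Tr

set_option maxRecDepth 100000

noncomputable def tb182_4 : Tr :=
(S (nat_lit 12182) (S (nat_lit 17558) (S (nat_lit 13184) (S (nat_lit 10935) (S (nat_lit 2210) (S (nat_lit 8810) (S (nat_lit 30414) (L (nat_lit 5843452))
(S (nat_lit 39529) (S (nat_lit 17071) (S (nat_lit 15371) (S (nat_lit 25892) (L (nat_lit 6166930))
(L (nat_lit 22275116)))
(L (nat_lit 6481549)))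
(L (nat_lit 17391813)))
(L (nat_lit 17368316))))
(S (nat_lit 32881) (L (nat_lit 7038127))
(L (nat_lit 7530095))))
(S (nat_lit 21974) (S (nat_lit 15332) (S (nat_lit 8810) (S (nat_lit 39448) (L (nat_lit 606056))
(L (nat_lit 22453276)))
(S (nat_lit 32857) (L (nat_lit 2418321))
(L (nat_lit 7988399))))
(S (nat_lit 35096) (S (nat_lit 2249) (S (nat_lit 8810) (S (nat_lit 54814) (L (nat_lit 23126320))
(L (nat_lit 3742108)))
(L (nat_lit 973227)))
(L (nat_lit 8062863)))
(S (nat_lit 54860) (S (nat_lit 2249) (S (nat_lit 1247) (S (nat_lit 25892) (L (nat_lit 29602496))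
(L (nat_lit 17491203)))
(L (nat_lit 26259830)))
(S (nat_lit 53339) (L (nat_lit 6378906))
(L (nat_lit 7228901))))
(L (nat_lit 25867370)))))
(S (nat_lit 41738) (S (nat_lit 4404) (S (nat_lit 2249) (S (nat_lit 6591) (S (nat_lit 15311) (S (nat_lit 15332) (S (nat_lit 45671) (L (nat_lit 10225202))
(L (nat_lit 9142712)))
(L (nat_lit 6821748)))
(S (nat_lit 56225) (L (nat_lit 2450867))
(L (nat_lit 26909743))))
(S (nat_lit 46290) (L (nat_lit 15915261))
(L (nat_lit 615724))))
(L (nat_lit 958191)))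
(S (nat_lit 16648) (S (nat_lit 15311) (S (nat_lit 44099) (L (nat_lit 22971628))
(L (nat_lit 22845484)))
(L (nat_lit 26428133)))
(L (nat_lit 1907345))))
(L (nat_lit 25212215)))))
(S (nat_lit 30699) (S (nat_lit 17047) (S (nat_lit 6634) (S (nat_lit 1289) (L (nat_lit 23086854))
(S (nat_lit 23527) (L (nat_lit 16392034))
(L (nat_lit 26287697))))
(S (nat_lit 26398) (S (nat_lit 17071) (S (nat_lit 41738) (L (nat_lit 28460244))
(L (nat_lit 24371748)))
(L (nat_lit 22471722)))
(S (nat_lit 46162) (S (nat_lit 15371) (S (nat_lit 15311) (S (nat_lit 39529) (S (nat_lit 6592) (L (nat_lit 29367884))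
(L (nat_lit 7176783)))
(L (nat_lit 16974460)))
(L (nat_lit 14877492)))
(S (nat_lit 56049) (L (nat_lit 26837326))
(L (nat_lit 26706570))))
(L (nat_lit 25499278)))))
(S (nat_lit 36811) (S (nat_lit 17071) (S (nat_lit 35141) (S (nat_lit 6077) (S (nat_lit 40775) (L (nat_lit 3859824))
(L (nat_lit 23991505)))
(L (nat_lit 17975676)))
(S (nat_lit 54833) (S (nat_lit 54860) (L (nat_lit 30484884))
(L (nat_lit 20987786)))
(L (nat_lit 9888453))))
(S (nat_lit 36835) (S (nat_lit 2225) (S (nat_lit 8786) (L (nat_lit 26773127))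
(L (nat_lit 602365)))
(L (nat_lit 869962)))
(S (nat_lit 56599) (S (nat_lit 2210) (S (nat_lit 16545) (L (nat_lit 28889445))
(L (nat_lit 22822085)))
(L (nat_lit 1269148)))
(L (nat_lit 25442355)))))
(S (nat_lit 56575) (S (nat_lit 52) (S (nat_lit 2210) (S (nat_lit 15326) (L (nat_lit 7398964))
(L (nat_lit 7821468)))
(S (nat_lit 7382) (L (nat_lit 10884732))
(L (nat_lit 6315420))))
(S (nat_lit 19816) (S (nat_lit 36795) (S (nat_lit 1289) (S (nat_lit 25406) (L (nat_lit 30055809))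
(L (nat_lit 7005570)))
(L (nat_lit 14556342)))
(L (nat_lit 924272)))
(S (nat_lit 39580) (S (nat_lit 6592) (S (nat_lit 8330) (S (nat_lit 7844) (S (nat_lit 1775) (S (nat_lit 8315) (L (nat_lit 29858501))
(L (nat_lit 14386396)))
(L (nat_lit 19407004)))
(L (nat_lit 9092252)))
(L (nat_lit 13828979)))
(S (nat_lit 6997) (L (nat_lit 22453091))
(L (nat_lit 1646447))))
(L (nat_lit 25242351)))))
(L (nat_lit 25513408)))))
(S (nat_lit 50463) (S (nat_lit 17071) (S (nat_lit 11117) (S (nat_lit 56598) (L (nat_lit 1269212))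
(L (nat_lit 19087421)))
(S (nat_lit 15311) (S (nat_lit 10358) (L (nat_lit 8815197))
(S (nat_lit 15371) (S (nat_lit 16584) (S (nat_lit 6592) (S (nat_lit 1733) (S (nat_lit 47792) (S (nat_lit 46119) (L (nat_lit 5052818))
(L (nat_lit 22329216)))
(L (nat_lit 7190209)))
(L (nat_lit 2352817)))
(S (nat_lit 7654) (L (nat_lit 29956113))
(L (nat_lit 6881754))))
(L (nat_lit 15653898)))
(L (nat_lit 24288701))))
(L (nat_lit 14734556))))
(S (nat_lit 36835) (S (nat_lit 4405) (S (nat_lit 6591) (S (nat_lit 15326) (L (nat_lit 26262151))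
(L (nat_lit 6342301)))
(L (nat_lit 26477132)))
(S (nat_lit 24169) (S (nat_lit 6077) (L (nat_lit 5491564))
(S (nat_lit 25759) (L (nat_lit 20069127))
(L (nat_lit 17910141))))
(S (nat_lit 43933) (L (nat_lit 17845095))
(L (nat_lit 25251088)))))
(S (nat_lit 56599) (S (nat_lit 15311) (S (nat_lit 36348) (S (nat_lit 15371) (S (nat_lit 4404) (S (nat_lit 6143) (L (nat_lit 3071370))
(L (nat_lit 11588028)))
(L (nat_lit 26877345)))
(L (nat_lit 6881724)))
(L (nat_lit 6910437)))
(S (nat_lit 50391) (L (nat_lit 13857845))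
(L (nat_lit 26263764))))
(L (nat_lit 25444406)))))
(L (nat_lit 25205457)))))
(S (nat_lit 32948) (S (nat_lit 15362) (S (nat_lit 4404) (S (nat_lit 13145) (S (nat_lit 13943) (L (nat_lit 15046580))
(S (nat_lit 15347) (S (nat_lit 822) (L (nat_lit 15983233))
(S (nat_lit 52238) (S (nat_lit 35090) (S (nat_lit 50514) (L (nat_lit 29904008))
(L (nat_lit 22569094)))
(L (nat_lit 9258132)))
(L (nat_lit 22068072))))
(L (nat_lit 6688509))))
(S (nat_lit 43778) (L (nat_lit 27788870))
(L (nat_lit 6738789))))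
(S (nat_lit 24168) (S (nat_lit 1289) (S (nat_lit 54899) (S (nat_lit 6077) (S (nat_lit 35090) (L (nat_lit 6451788))
(L (nat_lit 8943236)))
(L (nat_lit 20233372)))
(L (nat_lit 27860389)))
(S (nat_lit 21053) (S (nat_lit 6591) (S (nat_lit 46120) (S (nat_lit 1733) (L (nat_lit 17630794))
(L (nat_lit 14528161)))
(L (nat_lit 16850839)))
(S (nat_lit 47164) (S (nat_lit 25406) (L (nat_lit 18717879))
(L (nat_lit 22454114)))
(L (nat_lit 14516806))))
(S (nat_lit 40817) (S (nat_lit 66) (S (nat_lit 36834) (S (nat_lit 56089) (S (nat_lit 56112) (L (nat_lit 28738214))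
(L (nat_lit 10313189)))
(L (nat_lit 583403)))
(L (nat_lit 454871)))
(S (nat_lit 57638) (L (nat_lit 18587524))
(L (nat_lit 375666))))
(L (nat_lit 25189648)))))
(S (nat_lit 43932) (S (nat_lit 8315) (S (nat_lit 2249) (S (nat_lit 36796) (L (nat_lit 9242034))
(L (nat_lit 12945021)))
(L (nat_lit 15435101)))
(S (nat_lit 28079) (S (nat_lit 66) (S (nat_lit 6591) (L (nat_lit 1599111))
(L (nat_lit 7955904)))
(L (nat_lit 6870881)))
(S (nat_lit 47843) (S (nat_lit 39594) (S (nat_lit 16585) (L (nat_lit 17683626))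
(L (nat_lit 8984465)))
(L (nat_lit 27841639)))
(L (nat_lit 25513475)))))
(L (nat_lit 25429649)))))
(S (nat_lit 35126) (S (nat_lit 16545) (S (nat_lit 12224) (S (nat_lit 5778) (L (nat_lit 14868724))
(S (nat_lit 32909) (S (nat_lit 35075) (S (nat_lit 47372) (S (nat_lit 15326) (S (nat_lit 16560) (S (nat_lit 35141) (S (nat_lit 12167) (S (nat_lit 13469) (L (nat_lit 5712508))
(S (nat_lit 17032) (S (nat_lit 14256) (L (nat_lit 17901146))
(L (nat_lit 30061890)))
(L (nat_lit 9532113))))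
(L (nat_lit 9179756)))
(L (nat_lit 8990841)))
(L (nat_lit 16975669)))
(L (nat_lit 24921445)))
(L (nat_lit 10020416)))
(L (nat_lit 23922186)))
(L (nat_lit 23926250))))
(S (nat_lit 31988) (S (nat_lit 39580) (S (nat_lit 67) (L (nat_lit 1921392))
(L (nat_lit 7060323)))
(S (nat_lit 58716) (S (nat_lit 43918) (L (nat_lit 2994889))
(L (nat_lit 27480208)))
(L (nat_lit 17064085))))
(S (nat_lit 51752) (S (nat_lit 48338) (S (nat_lit 41777) (L (nat_lit 27861137))
(L (nat_lit 27773285)))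
(L (nat_lit 27775333)))
(L (nat_lit 25253353)))))
(S (nat_lit 36309) (S (nat_lit 10986) (S (nat_lit 4390) (S (nat_lit 1775) (S (nat_lit 2249) (L (nat_lit 6713988))
(L (nat_lit 20094861)))
(L (nat_lit 12803228)))
(L (nat_lit 18418042)))
(S (nat_lit 30750) (S (nat_lit 6077) (S (nat_lit 47372) (L (nat_lit 28592270))
(L (nat_lit 20473184)))
(L (nat_lit 19250332)))
(S (nat_lit 50514) (S (nat_lit 36310) (S (nat_lit 6077) (L (nat_lit 12965018))
(L (nat_lit 16322941)))
(L (nat_lit 20854113)))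
(L (nat_lit 25244327)))))
(S (nat_lit 56073) (S (nat_lit 5657) (S (nat_lit 19816) (S (nat_lit 26341) (S (nat_lit 6077) (L (nat_lit 5166449))
(L (nat_lit 18473313)))
(L (nat_lit 8806551)))
(L (nat_lit 9102479)))
(S (nat_lit 25421) (S (nat_lit 36310) (S (nat_lit 28028) (S (nat_lit 23608) (L (nat_lit 24535110))
(L (nat_lit 27512972)))
(L (nat_lit 30855521)))
(L (nat_lit 30953828)))
(S (nat_lit 45185) (S (nat_lit 24154) (S (nat_lit 50515) (S (nat_lit 47372) (L (nat_lit 17377435))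
(L (nat_lit 7988674)))
(L (nat_lit 13522275)))
(L (nat_lit 3749240)))
(L (nat_lit 25891239)))))
(L (nat_lit 25348488)))))
(S (nat_lit 54890) (S (nat_lit 15371) (S (nat_lit 8330) (S (nat_lit 17071) (S (nat_lit 30766) (L (nat_lit 26353232))
(L (nat_lit 14017091)))
(L (nat_lit 14901829)))
(S (nat_lit 28094) (S (nat_lit 5591) (S (nat_lit 8315) (L (nat_lit 9011644))
(L (nat_lit 14222557)))
(L (nat_lit 15903324)))
(S (nat_lit 47858) (S (nat_lit 39529) (L (nat_lit 958032))
(L (nat_lit 27461198)))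
(L (nat_lit 25222600)))))
(S (nat_lit 35135) (S (nat_lit 5642) (S (nat_lit 1289) (S (nat_lit 35075) (S (nat_lit 30766) (L (nat_lit 28770678))
(L (nat_lit 8582578)))
(L (nat_lit 23928261)))
(L (nat_lit 20218269)))
(S (nat_lit 25406) (S (nat_lit 23826) (L (nat_lit 30587529))
(S (nat_lit 56088) (L (nat_lit 2516555))
(L (nat_lit 27903301))))
(S (nat_lit 45170) (S (nat_lit 28550) (S (nat_lit 26340) (L (nat_lit 8541998))
(L (nat_lit 15982772)))
(L (nat_lit 8807044)))
(L (nat_lit 25594102)))))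
(S (nat_lit 54899) (S (nat_lit 4405) (S (nat_lit 27532) (L (nat_lit 2405207))
(S (nat_lit 54854) (S (nat_lit 7646) (L (nat_lit 21534905))
(S (nat_lit 50515) (S (nat_lit 6077) (S (nat_lit 39579) (S (nat_lit 27608) (S (nat_lit 35075) (L (nat_lit 6932321))
(L (nat_lit 20782095)))
(L (nat_lit 5085685)))
(L (nat_lit 17700210)))
(L (nat_lit 18964846)))
(L (nat_lit 5845372))))
(L (nat_lit 27796658))))
(S (nat_lit 24169) (S (nat_lit 6077) (S (nat_lit 50515) (S (nat_lit 15383) (S (nat_lit 16546) (L (nat_lit 17728723))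
(L (nat_lit 3689291)))
(L (nat_lit 6438676)))
(L (nat_lit 13178236)))
(L (nat_lit 2712942)))
(S (nat_lit 43933) (S (nat_lit 6077) (S (nat_lit 27608) (S (nat_lit 24154) (L (nat_lit 28876946))
(L (nat_lit 21192877)))
(L (nat_lit 12368450)))
(S (nat_lit 47919) (L (nat_lit 23429629))
(L (nat_lit 12148876))))
(L (nat_lit 25697396)))))
(L (nat_lit 25527796)))))
(L (nat_lit 25792847)))))
(S (nat_lit 52712) (S (nat_lit 17534) (S (nat_lit 15383) (S (nat_lit 6077) (S (nat_lit 5216) (L (nat_lit 12175109))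
(S (nat_lit 17071) (S (nat_lit 6128) (S (nat_lit 1733) (S (nat_lit 1718) (S (nat_lit 52673) (S (nat_lit 51548) (L (nat_lit 4412826))
(L (nat_lit 11105324)))
(L (nat_lit 18041637)))
(L (nat_lit 13178141)))
(L (nat_lit 4436636)))
(L (nat_lit 18482396)))
(L (nat_lit 22241388))))
(S (nat_lit 25841) (S (nat_lit 1247) (S (nat_lit 17071) (S (nat_lit 47357) (L (nat_lit 30481970))
(L (nat_lit 17367815)))
(L (nat_lit 15295527)))
(S (nat_lit 11333) (L (nat_lit 6747189))
(L (nat_lit 19247260))))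
(S (nat_lit 45605) (S (nat_lit 12668) (L (nat_lit 28909744))
(S (nat_lit 44087) (L (nat_lit 3746608))
(L (nat_lit 26815500))))
(L (nat_lit 25250278)))))
(S (nat_lit 35147) (S (nat_lit 1733) (S (nat_lit 10986) (S (nat_lit 35090) (S (nat_lit 6077) (L (nat_lit 7959596))
(L (nat_lit 18440545)))
(L (nat_lit 18745682)))
(S (nat_lit 40663) (L (nat_lit 4830588))
(L (nat_lit 1945940))))
(S (nat_lit 21497) (S (nat_lit 35126) (S (nat_lit 35141) (S (nat_lit 8786) (L (nat_lit 29955623))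
(L (nat_lit 7156420)))
(L (nat_lit 31001131)))
(L (nat_lit 30487892)))
(S (nat_lit 41261) (S (nat_lit 5945) (L (nat_lit 14491364))
(S (nat_lit 16561) (S (nat_lit 17032) (S (nat_lit 15326) (L (nat_lit 12640594))
(L (nat_lit 26433956)))
(L (nat_lit 22328506)))
(L (nat_lit 22873420))))
(L (nat_lit 25834819)))))
(S (nat_lit 54911) (S (nat_lit 52238) (S (nat_lit 13160) (S (nat_lit 25421) (L (nat_lit 19727818))
(L (nat_lit 22251278)))
(L (nat_lit 14487274)))
(L (nat_lit 22878348)))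
(L (nat_lit 25508884)))))
(S (nat_lit 37298) (S (nat_lit 6077) (S (nat_lit 16546) (S (nat_lit 44128) (L (nat_lit 26543602))
(S (nat_lit 51752) (S (nat_lit 36811) (S (nat_lit 35141) (L (nat_lit 5486418))
(L (nat_lit 10117668)))
(L (nat_lit 23486752)))
(L (nat_lit 22816224))))
(S (nat_lit 36310) (S (nat_lit 22870) (L (nat_lit 16951032))
(S (nat_lit 46104) (S (nat_lit 27608) (S (nat_lit 36324) (L (nat_lit 30787724))
(L (nat_lit 18473283)))
(L (nat_lit 6938769)))
(L (nat_lit 10897565))))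
(S (nat_lit 56074) (S (nat_lit 17071) (S (nat_lit 35135) (S (nat_lit 32417) (L (nat_lit 451954))
(L (nat_lit 14567619)))
(L (nat_lit 2693935)))
(S (nat_lit 36763) (L (nat_lit 31004070))
(L (nat_lit 10117228))))
(L (nat_lit 25861260)))))
(S (nat_lit 25841) (S (nat_lit 8315) (S (nat_lit 6591) (S (nat_lit 17070) (L (nat_lit 6481488))
(L (nat_lit 17370027)))
(L (nat_lit 26816768)))
(S (nat_lit 28079) (S (nat_lit 21482) (L (nat_lit 5858694))
(L (nat_lit 7959601)))
(S (nat_lit 47843) (S (nat_lit 47357) (S (nat_lit 1718) (L (nat_lit 13178663))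
(L (nat_lit 10055169)))
(S (nat_lit 49823) (L (nat_lit 21871782))
(L (nat_lit 17140565))))
(L (nat_lit 25772225)))))
(S (nat_lit 45605) (S (nat_lit 15347) (S (nat_lit 15326) (S (nat_lit 12668) (S (nat_lit 15371) (L (nat_lit 13819227))
(L (nat_lit 17391973)))
(L (nat_lit 26813612)))
(S (nat_lit 39444) (L (nat_lit 1296213))
(L (nat_lit 1852754))))
(S (nat_lit 35111) (S (nat_lit 11624) (L (nat_lit 15299876))
(S (nat_lit 35147) (S (nat_lit 32909) (S (nat_lit 35090) (L (nat_lit 28889259))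
(L (nat_lit 30450100)))
(L (nat_lit 9465300)))
(L (nat_lit 31011882))))
(S (nat_lit 54875) (S (nat_lit 6634) (S (nat_lit 1247) (S (nat_lit 35090) (L (nat_lit 10345612))
(L (nat_lit 13520196)))
(L (nat_lit 12962658)))
(L (nat_lit 1592570)))
(L (nat_lit 25742347)))))
(L (nat_lit 25463351)))))
(S (nat_lit 57062) (S (nat_lit 8810) (S (nat_lit 7829) (S (nat_lit 50515) (S (nat_lit 1289) (S (nat_lit 26356) (L (nat_lit 31002121))
(L (nat_lit 19372157)))
(L (nat_lit 4070992)))
(L (nat_lit 12149122)))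
(S (nat_lit 27593) (S (nat_lit 17071) (S (nat_lit 45671) (L (nat_lit 25048234))
(L (nat_lit 24969550)))
(S (nat_lit 19856) (L (nat_lit 13438536))
(L (nat_lit 4808913))))
(S (nat_lit 47357) (S (nat_lit 17071) (S (nat_lit 56074) (S (nat_lit 50515) (S (nat_lit 6077) (S (nat_lit 45170) (L (nat_lit 827858))
(L (nat_lit 10126092)))
(L (nat_lit 15879485)))
(L (nat_lit 10573276)))
(L (nat_lit 19137420)))
(S (nat_lit 27144) (L (nat_lit 319927))
(L (nat_lit 9887798))))
(L (nat_lit 25764880)))))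
(S (nat_lit 28574) (S (nat_lit 17047) (S (nat_lit 5452) (L (nat_lit 7370164))
(L (nat_lit 27893125)))
(S (nat_lit 36811) (S (nat_lit 35147) (S (nat_lit 35141) (S (nat_lit 16584) (S (nat_lit 8330) (L (nat_lit 30690788))
(L (nat_lit 13278237)))
(L (nat_lit 8839189)))
(L (nat_lit 31008293)))
(L (nat_lit 30750373)))
(S (nat_lit 56575) (S (nat_lit 22013) (S (nat_lit 15362) (S (nat_lit 16545) (L (nat_lit 2716012))
(L (nat_lit 24649573)))
(L (nat_lit 15332709)))
(L (nat_lit 13304682)))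
(L (nat_lit 25188652)))))
(S (nat_lit 48338) (S (nat_lit 1775) (S (nat_lit 6128) (S (nat_lit 50515) (L (nat_lit 4627035))
(L (nat_lit 10573276)))
(L (nat_lit 9864925)))
(S (nat_lit 21539) (S (nat_lit 54854) (S (nat_lit 47843) (S (nat_lit 39594) (S (nat_lit 12668) (S (nat_lit 54839) (S (nat_lit 17071) (S (nat_lit 1247) (L (nat_lit 20029884))
(L (nat_lit 19391840)))
(L (nat_lit 12052096)))
(L (nat_lit 10540504)))
(L (nat_lit 21827820)))
(L (nat_lit 11691660)))
(L (nat_lit 17368904)))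
(L (nat_lit 21030315)))
(S (nat_lit 41303) (S (nat_lit 24211) (S (nat_lit 35147) (S (nat_lit 54860) (L (nat_lit 2485685))
(L (nat_lit 21193092)))
(L (nat_lit 30790148)))
(L (nat_lit 8807476)))
(L (nat_lit 25714019)))))
(L (nat_lit 25794735)))))
(L (nat_lit 25700005)))))
(L (nat_lit 25540229)))))
(S (nat_lit 37322) (S (nat_lit 15371) (S (nat_lit 67) (S (nat_lit 6592) (S (nat_lit 13145) (S (nat_lit 6591) (S (nat_lit 2210) (S (nat_lit 20996) (L (nat_lit 7210452))
(L (nat_lit 6897504)))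
(L (nat_lit 7386999)))
(L (nat_lit 1816423)))
(S (nat_lit 32909) (S (nat_lit 30751) (S (nat_lit 35111) (S (nat_lit 56073) (L (nat_lit 438098))
(L (nat_lit 8107165)))
(L (nat_lit 9342418)))
(L (nat_lit 14247266)))
(S (nat_lit 52673) (S (nat_lit 39529) (S (nat_lit 21482) (S (nat_lit 25406) (L (nat_lit 15884874))
(L (nat_lit 21019433)))
(L (nat_lit 10638192)))
(L (nat_lit 23468962)))
(L (nat_lit 25414117)))))
(S (nat_lit 26356) (S (nat_lit 13145) (S (nat_lit 43296) (S (nat_lit 30751) (L (nat_lit 9170341))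
(L (nat_lit 9179538)))
(S (nat_lit 52712) (S (nat_lit 30751) (S (nat_lit 45119) (S (nat_lit 16584) (L (nat_lit 5883165))
(L (nat_lit 9003427)))
(L (nat_lit 3056206)))
(L (nat_lit 9180562)))
(L (nat_lit 16963403))))
(S (nat_lit 32909) (S (nat_lit 52712) (S (nat_lit 26397) (S (nat_lit 17071) (S (nat_lit 28535) (S (nat_lit 24210) (L (nat_lit 24291835))
(L (nat_lit 16919132)))
(L (nat_lit 8939076)))
(L (nat_lit 15361127)))
(L (nat_lit 19208012)))
(S (nat_lit 55700) (L (nat_lit 6339348))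
(L (nat_lit 16949074))))
(S (nat_lit 52673) (S (nat_lit 16584) (S (nat_lit 45605) (S (nat_lit 52712) (S (nat_lit 30751) (S (nat_lit 17031) (L (nat_lit 10388077))
(L (nat_lit 17159012)))
(L (nat_lit 14247266)))
(L (nat_lit 27843755)))
(S (nat_lit 55295) (L (nat_lit 3456602))
(L (nat_lit 8948312))))
(S (nat_lit 35520) (L (nat_lit 24259439))
(L (nat_lit 3465806))))
(L (nat_lit 25570916)))))
(S (nat_lit 46120) (S (nat_lit 10987) (S (nat_lit 1718) (S (nat_lit 17071) (L (nat_lit 5068140))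
(L (nat_lit 22307296)))
(L (nat_lit 14222216)))
(S (nat_lit 30751) (S (nat_lit 24168) (S (nat_lit 25406) (S (nat_lit 30700) (L (nat_lit 8815412))
(L (nat_lit 16975512)))
(L (nat_lit 17138427)))
(S (nat_lit 39906) (L (nat_lit 13638234))
(L (nat_lit 13704114))))
(S (nat_lit 50515) (S (nat_lit 8771) (S (nat_lit 1232) (L (nat_lit 7943353))
(L (nat_lit 14227484)))
(L (nat_lit 8148047)))
(L (nat_lit 25253232)))))
(L (nat_lit 25625906)))))
(S (nat_lit 19831) (S (nat_lit 6633) (S (nat_lit 7829) (S (nat_lit 2210) (S (nat_lit 46162) (S (nat_lit 52712) (S (nat_lit 21482) (S (nat_lit 56559) (L (nat_lit 2542471))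
(L (nat_lit 6836253)))
(L (nat_lit 30790705)))
(L (nat_lit 17159941)))
(L (nat_lit 20299836)))
(L (nat_lit 8164759)))
(S (nat_lit 27593) (S (nat_lit 36325) (S (nat_lit 15311) (S (nat_lit 45671) (S (nat_lit 52712) (S (nat_lit 8264) (L (nat_lit 764344))
(L (nat_lit 10118529)))
(L (nat_lit 17126584)))
(L (nat_lit 1845932)))
(L (nat_lit 7092900)))
(S (nat_lit 37220) (L (nat_lit 3531155))
(L (nat_lit 1696267))))
(S (nat_lit 47357) (S (nat_lit 52712) (S (nat_lit 41246) (S (nat_lit 17071) (S (nat_lit 26356) (S (nat_lit 46162) (S (nat_lit 16584) (L (nat_lit 28728362))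
(L (nat_lit 9003429)))
(L (nat_lit 17127266)))
(L (nat_lit 9175538)))
(L (nat_lit 9495987)))
(L (nat_lit 17160001)))
(S (nat_lit 56420) (L (nat_lit 17700981))
(L (nat_lit 16949076))))
(L (nat_lit 25626867)))))
(S (nat_lit 26397) (S (nat_lit 5642) (S (nat_lit 28535) (S (nat_lit 42551) (L (nat_lit 2416525))
(L (nat_lit 14836423)))
(L (nat_lit 8449773)))
(S (nat_lit 25406) (S (nat_lit 30165) (L (nat_lit 9113019))
(S (nat_lit 43975) (S (nat_lit 47357) (S (nat_lit 12653) (L (nat_lit 28458600))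
(L (nat_lit 16112764)))
(L (nat_lit 27641440)))
(L (nat_lit 27441364))))
(S (nat_lit 45170) (S (nat_lit 21989) (S (nat_lit 45656) (S (nat_lit 32924) (L (nat_lit 8574393))
(L (nat_lit 8511922)))
(L (nat_lit 24371587)))
(L (nat_lit 2384461)))
(L (nat_lit 25861506)))))
(S (nat_lit 46161) (S (nat_lit 15377) (S (nat_lit 8810) (S (nat_lit 56560) (L (nat_lit 26385874))
(L (nat_lit 9167237)))
(L (nat_lit 21127594)))
(S (nat_lit 35141) (S (nat_lit 35219) (L (nat_lit 7531924))
(S (nat_lit 54911) (S (nat_lit 43975) (S (nat_lit 24541) (L (nat_lit 3398510))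
(L (nat_lit 28642708)))
(L (nat_lit 27645997)))
(L (nat_lit 5628370))))
(S (nat_lit 54905) (S (nat_lit 24154) (S (nat_lit 30751) (S (nat_lit 56559) (L (nat_lit 22398754))
(L (nat_lit 8535773)))
(L (nat_lit 14249315)))
(S (nat_lit 43836) (L (nat_lit 9113052))
(L (nat_lit 2676093))))
(L (nat_lit 25833764)))))
(L (nat_lit 25728246)))))
(S (nat_lit 39595) (S (nat_lit 1733) (S (nat_lit 16546) (S (nat_lit 36795) (S (nat_lit 45605) (S (nat_lit 27608) (S (nat_lit 30750) (L (nat_lit 29541095))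
(L (nat_lit 17097910)))
(L (nat_lit 25003377)))
(L (nat_lit 9341518)))
(L (nat_lit 18522300)))
(S (nat_lit 36310) (S (nat_lit 5642) (S (nat_lit 30751) (S (nat_lit 17071) (S (nat_lit 46162) (L (nat_lit 17470246))
(L (nat_lit 10638748)))
(L (nat_lit 26818757)))
(L (nat_lit 10228178)))
(L (nat_lit 18685634)))
(S (nat_lit 56074) (S (nat_lit 15311) (S (nat_lit 26470) (L (nat_lit 9025693))
(S (nat_lit 46162) (S (nat_lit 8810) (S (nat_lit 46161) (L (nat_lit 28809794))
(L (nat_lit 11723404)))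
(L (nat_lit 15008444)))
(L (nat_lit 22175983))))
(S (nat_lit 26230) (L (nat_lit 17663223))
(L (nat_lit 24583940))))
(L (nat_lit 25496177)))))
(S (nat_lit 21497) (S (nat_lit 17534) (S (nat_lit 47372) (S (nat_lit 26355) (S (nat_lit 2249) (L (nat_lit 19699823))
(L (nat_lit 16915196)))
(L (nat_lit 24904135)))
(L (nat_lit 22817937)))
(S (nat_lit 37298) (S (nat_lit 2225) (S (nat_lit 30766) (S (nat_lit 56574) (L (nat_lit 20813997))
(L (nat_lit 6914992)))
(L (nat_lit 17605346)))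
(L (nat_lit 17441820)))
(S (nat_lit 57062) (S (nat_lit 7778) (S (nat_lit 6591) (S (nat_lit 15311) (L (nat_lit 24255900))
(L (nat_lit 794066)))
(L (nat_lit 6383180)))
(S (nat_lit 31612) (L (nat_lit 11388087))
(L (nat_lit 21259680))))
(L (nat_lit 25712868)))))
(S (nat_lit 41261) (S (nat_lit 8771) (S (nat_lit 30750) (S (nat_lit 32924) (S (nat_lit 30751) (L (nat_lit 28760070))
(L (nat_lit 10052749)))
(L (nat_lit 20013451)))
(L (nat_lit 17738932)))
(S (nat_lit 28535) (S (nat_lit 16561) (S (nat_lit 52712) (L (nat_lit 16581194))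
(L (nat_lit 27841707)))
(L (nat_lit 24986881)))
(S (nat_lit 48299) (S (nat_lit 56599) (S (nat_lit 46162) (L (nat_lit 28982530))
(L (nat_lit 10674895)))
(L (nat_lit 1917511)))
(L (nat_lit 25711722)))))
(L (nat_lit 25858502)))))
(L (nat_lit 25699970)))))
(S (nat_lit 35135) (S (nat_lit 10986) (S (nat_lit 30751) (S (nat_lit 17071) (S (nat_lit 45605) (S (nat_lit 47357) (S (nat_lit 54905) (S (nat_lit 1733) (S (nat_lit 35096) (S (nat_lit 12167) (S (nat_lit 47792) (S (nat_lit 12710) (S (nat_lit 45185) (S (nat_lit 46120) (S (nat_lit 15383) (S (nat_lit 16546) (S (nat_lit 8374) (S (nat_lit 13314) (S (nat_lit 17144) (S (nat_lit 51663) (S (nat_lit 41605) (D (nat_lit 16) (nat_lit 17950343) (nat_lit 13361377) (nat_lit 1226140183998562368))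
(L (nat_lit 28977634)))
(L (nat_lit 29999301)))
(L (nat_lit 27592269)))
(L (nat_lit 17947961)))
(L (nat_lit 27763890)))
(L (nat_lit 24670561)))
(L (nat_lit 15616228)))
(L (nat_lit 22539555)))
(L (nat_lit 2965878)))
(L (nat_lit 18024156)))
(L (nat_lit 9139345)))
(L (nat_lit 8947324)))
(L (nat_lit 9167983)))
(L (nat_lit 26725697)))
(L (nat_lit 14231332)))
(L (nat_lit 17393888)))
(L (nat_lit 6886254)))
(S (nat_lit 36835) (S (nat_lit 28550) (L (nat_lit 29957295))
(L (nat_lit 31008197)))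
(S (nat_lit 56599) (S (nat_lit 7829) (S (nat_lit 28550) (S (nat_lit 41246) (L (nat_lit 17372539))
(L (nat_lit 8984120)))
(L (nat_lit 10052101)))
(L (nat_lit 5850023)))
(L (nat_lit 25286058)))))
(L (nat_lit 2712941)))
(S (nat_lit 30750) (S (nat_lit 1733) (S (nat_lit 17071) (S (nat_lit 19815) (S (nat_lit 22013) (S (nat_lit 45605) (L (nat_lit 19054972))
(L (nat_lit 6897505)))
(L (nat_lit 9618230)))
(S (nat_lit 20865) (S (nat_lit 45605) (S (nat_lit 21837) (L (nat_lit 8839781))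
(L (nat_lit 9362572)))
(L (nat_lit 25013388)))
(L (nat_lit 4119916))))
(L (nat_lit 22144204)))
(S (nat_lit 21497) (S (nat_lit 15377) (S (nat_lit 5591) (S (nat_lit 56113) (L (nat_lit 1649580))
(L (nat_lit 2697660)))
(L (nat_lit 3761486)))
(S (nat_lit 35141) (S (nat_lit 56575) (S (nat_lit 19815) (S (nat_lit 22013) (L (nat_lit 20857002))
(L (nat_lit 8581837)))
(L (nat_lit 3071340)))
(L (nat_lit 3879786)))
(S (nat_lit 54905) (S (nat_lit 15289) (L (nat_lit 2716071))
(S (nat_lit 17070) (S (nat_lit 40760) (S (nat_lit 47357) (S (nat_lit 56089) (L (nat_lit 29533587))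
(L (nat_lit 2475955)))
(L (nat_lit 10027793)))
(L (nat_lit 10028817)))
(L (nat_lit 2712782))))
(L (nat_lit 25506501)))))
(S (nat_lit 41261) (S (nat_lit 30751) (S (nat_lit 32948) (S (nat_lit 46120) (S (nat_lit 56560) (S (nat_lit 28574) (L (nat_lit 7976121))
(L (nat_lit 24551205)))
(L (nat_lit 4037011)))
(L (nat_lit 16883511)))
(S (nat_lit 34079) (L (nat_lit 8532600))
(L (nat_lit 3697012))))
(S (nat_lit 31882) (L (nat_lit 8993818))
(L (nat_lit 3944818))))
(L (nat_lit 25833638)))))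
(S (nat_lit 50514) (S (nat_lit 30751) (S (nat_lit 8264) (S (nat_lit 26341) (S (nat_lit 8810) (S (nat_lit 41303) (S (nat_lit 35126) (L (nat_lit 28724358))
(L (nat_lit 31041679)))
(L (nat_lit 9136272)))
(L (nat_lit 6738109)))
(L (nat_lit 9893010)))
(S (nat_lit 28028) (S (nat_lit 20885) (L (nat_lit 8502011))
(S (nat_lit 32948) (S (nat_lit 21011) (S (nat_lit 54839) (S (nat_lit 4390) (L (nat_lit 28904839))
(L (nat_lit 20146563)))
(L (nat_lit 21863940)))
(L (nat_lit 4567707)))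
(L (nat_lit 10015931))))
(S (nat_lit 47792) (S (nat_lit 26340) (S (nat_lit 32948) (S (nat_lit 16546) (S (nat_lit 45605) (S (nat_lit 17071) (L (nat_lit 28905805))
(L (nat_lit 14804551)))
(L (nat_lit 23971169)))
(L (nat_lit 9226625)))
(L (nat_lit 31077732)))
(L (nat_lit 19303802)))
(L (nat_lit 25900166)))))
(L (nat_lit 31011170)))
(L (nat_lit 25243030)))))
(S (nat_lit 54899) (S (nat_lit 1232) (S (nat_lit 6128) (S (nat_lit 1718) (S (nat_lit 17047) (S (nat_lit 25355) (L (nat_lit 28901802))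
(L (nat_lit 12128078)))
(L (nat_lit 26945617)))
(S (nat_lit 21482) (S (nat_lit 46162) (S (nat_lit 6592) (S (nat_lit 54911) (S (nat_lit 56598) (L (nat_lit 7965080))
(L (nat_lit 9262126)))
(L (nat_lit 14233445)))
(L (nat_lit 858702)))
(L (nat_lit 12112924)))
(S (nat_lit 41246) (S (nat_lit 17071) (S (nat_lit 19765) (S (nat_lit 52196) (L (nat_lit 29497908))
(L (nat_lit 13177178)))
(L (nat_lit 8990744)))
(L (nat_lit 22308256)))
(L (nat_lit 25239094)))))
(S (nat_lit 25892) (S (nat_lit 10986) (S (nat_lit 45605) (S (nat_lit 30751) (S (nat_lit 36348) (S (nat_lit 21974) (S (nat_lit 54905) (L (nat_lit 28918050))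
(L (nat_lit 27625874)))
(L (nat_lit 9004109)))
(L (nat_lit 12815964)))
(L (nat_lit 3763565)))
(L (nat_lit 9006220)))
(S (nat_lit 30750) (S (nat_lit 54905) (S (nat_lit 7778) (L (nat_lit 8978844))
(L (nat_lit 8840896)))
(L (nat_lit 5842733)))
(S (nat_lit 50514) (S (nat_lit 25355) (S (nat_lit 30751) (L (nat_lit 4627037))
(L (nat_lit 14247266)))
(L (nat_lit 14283072)))
(L (nat_lit 25695572)))))
(S (nat_lit 45656) (S (nat_lit 16560) (S (nat_lit 5245) (L (nat_lit 16345130))
(S (nat_lit 35111) (S (nat_lit 2225) (L (nat_lit 15468106))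
(L (nat_lit 19771589)))
(L (nat_lit 3465965))))
(S (nat_lit 36324) (S (nat_lit 39529) (S (nat_lit 21974) (L (nat_lit 8978877))
(L (nat_lit 9004109)))
(L (nat_lit 27662915)))
(S (nat_lit 56088) (S (nat_lit 16561) (S (nat_lit 56559) (L (nat_lit 29923906))
(L (nat_lit 19335051)))
(L (nat_lit 24511834)))
(L (nat_lit 25363991)))))
(L (nat_lit 25417772)))))
(S (nat_lit 20996) (S (nat_lit 12668) (S (nat_lit 15332) (S (nat_lit 17071) (S (nat_lit 39529) (L (nat_lit 29066634))
(L (nat_lit 18443273)))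
(L (nat_lit 22241388)))
(S (nat_lit 35096) (S (nat_lit 32924) (S (nat_lit 30751) (S (nat_lit 21482) (S (nat_lit 54905) (S (nat_lit 36834) (S (nat_lit 46162) (L (nat_lit 28574230))
(L (nat_lit 17129490)))
(L (nat_lit 11092772)))
(L (nat_lit 19391749)))
(L (nat_lit 16666819)))
(L (nat_lit 9180562)))
(L (nat_lit 8479122)))
(S (nat_lit 54860) (S (nat_lit 13184) (S (nat_lit 54905) (L (nat_lit 6167245))
(L (nat_lit 16344325)))
(S (nat_lit 56724) (L (nat_lit 23075758))
(L (nat_lit 7889477))))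
(L (nat_lit 25645163)))))
(S (nat_lit 32432) (S (nat_lit 35147) (S (nat_lit 30751) (L (nat_lit 14245930))
(L (nat_lit 17392809)))
(L (nat_lit 31012069)))
(S (nat_lit 52196) (S (nat_lit 6591) (S (nat_lit 36349) (S (nat_lit 45605) (S (nat_lit 36348) (L (nat_lit 2701560))
(L (nat_lit 13176616)))
(L (nat_lit 13202568)))
(L (nat_lit 13176683)))
(L (nat_lit 13180768)))
(L (nat_lit 25922054)))))
(S (nat_lit 40760) (S (nat_lit 17071) (S (nat_lit 17031) (S (nat_lit 19830) (S (nat_lit 47357) (S (nat_lit 35075) (L (nat_lit 2940331))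
(L (nat_lit 9492303)))
(L (nat_lit 17159258)))
(S (nat_lit 28989) (S (nat_lit 47357) (S (nat_lit 30750) (L (nat_lit 24408452))
(L (nat_lit 30856327)))
(L (nat_lit 17159194)))
(L (nat_lit 15029370))))
(S (nat_lit 36795) (S (nat_lit 30750) (S (nat_lit 24154) (S (nat_lit 47357) (S (nat_lit 32474) (L (nat_lit 28545494))
(L (nat_lit 30803654)))
(L (nat_lit 10029840)))
(L (nat_lit 30430541)))
(L (nat_lit 24227631)))
(S (nat_lit 56559) (S (nat_lit 6592) (S (nat_lit 47357) (S (nat_lit 19831) (S (nat_lit 32474) (S (nat_lit 26340) (L (nat_lit 14570602))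
(L (nat_lit 3825996)))
(L (nat_lit 19138380)))
(L (nat_lit 10015864)))
(L (nat_lit 22538311)))
(L (nat_lit 6751058)))
(L (nat_lit 25237911)))))
(S (nat_lit 36835) (S (nat_lit 6634) (S (nat_lit 35075) (L (nat_lit 26236271))
(L (nat_lit 23937220)))
(S (nat_lit 26398) (S (nat_lit 24211) (S (nat_lit 30751) (S (nat_lit 36349) (L (nat_lit 23963821))
(L (nat_lit 31007140)))
(L (nat_lit 31011171)))
(L (nat_lit 30741069)))
(S (nat_lit 46162) (S (nat_lit 30206) (L (nat_lit 13477010))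
(S (nat_lit 32474) (S (nat_lit 13184) (L (nat_lit 29983146))
(L (nat_lit 13983890)))
(L (nat_lit 17668243))))
(L (nat_lit 25531799)))))
(S (nat_lit 56599) (S (nat_lit 36348) (S (nat_lit 54905) (S (nat_lit 21482) (S (nat_lit 47357) (L (nat_lit 2699153))
(L (nat_lit 2705223)))
(L (nat_lit 16329505)))
(L (nat_lit 16327460)))
(L (nat_lit 31007205)))
(L (nat_lit 25442949)))))
(L (nat_lit 25275927)))))
(L (nat_lit 25353707)))))
(S (nat_lit 57086) (S (nat_lit 11002) (S (nat_lit 12668) (S (nat_lit 1247) (S (nat_lit 13160) (S (nat_lit 16585) (S (nat_lit 25355) (S (nat_lit 24169) (L (nat_lit 7399890))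
(L (nat_lit 3579669)))
(L (nat_lit 7147084)))
(S (nat_lit 49130) (L (nat_lit 3611570))
(L (nat_lit 9004513))))
(S (nat_lit 32924) (S (nat_lit 16585) (S (nat_lit 15347) (S (nat_lit 25355) (S (nat_lit 17031) (S (nat_lit 15362) (S (nat_lit 17071) (L (nat_lit 30054576))
(L (nat_lit 22242720)))
(L (nat_lit 7148978)))
(L (nat_lit 22485826)))
(L (nat_lit 12175170)))
(L (nat_lit 7146221)))
(L (nat_lit 26662116)))
(S (nat_lit 52688) (S (nat_lit 16585) (S (nat_lit 17071) (S (nat_lit 25355) (S (nat_lit 11001) (L (nat_lit 24028609))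
(L (nat_lit 21313344)))
(L (nat_lit 6885196)))
(L (nat_lit 22470759)))
(L (nat_lit 22470726)))
(L (nat_lit 25286864)))))
(S (nat_lit 21011) (S (nat_lit 17032) (S (nat_lit 16546) (S (nat_lit 25892) (S (nat_lit 15377) (S (nat_lit 20996) (L (nat_lit 29872266))
(L (nat_lit 15538912)))
(L (nat_lit 22448970)))
(L (nat_lit 22453089)))
(L (nat_lit 26911788)))
(S (nat_lit 36796) (S (nat_lit 36199) (L (nat_lit 20093772))
(S (nat_lit 52181) (S (nat_lit 15377) (S (nat_lit 21539) (L (nat_lit 8538034))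
(L (nat_lit 8086947)))
(L (nat_lit 15272811)))
(L (nat_lit 1718086))))
(S (nat_lit 56560) (S (nat_lit 7778) (S (nat_lit 8810) (S (nat_lit 1775) (L (nat_lit 16456484))
(L (nat_lit 26974627)))
(L (nat_lit 23584938)))
(S (nat_lit 52041) (L (nat_lit 21146012))
(L (nat_lit 21804354))))
(L (nat_lit 25862533)))))
(S (nat_lit 40775) (S (nat_lit 66) (S (nat_lit 17071) (S (nat_lit 15326) (S (nat_lit 11001) (S (nat_lit 15362) (L (nat_lit 12722845))
(L (nat_lit 1914226)))
(L (nat_lit 6931265)))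
(L (nat_lit 26447439)))
(L (nat_lit 26664039)))
(S (nat_lit 19830) (S (nat_lit 7778) (S (nat_lit 8264) (S (nat_lit 15377) (S (nat_lit 56560) (L (nat_lit 28826698))
(L (nat_lit 1750364)))
(L (nat_lit 7498130)))
(L (nat_lit 21389382)))
(S (nat_lit 17589) (L (nat_lit 18080914))
(L (nat_lit 23863712))))
(S (nat_lit 39594) (S (nat_lit 1329) (L (nat_lit 21182212))
(S (nat_lit 15347) (S (nat_lit 15362) (S (nat_lit 54860) (L (nat_lit 20816320))
(L (nat_lit 4743474)))
(L (nat_lit 7164324)))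
(L (nat_lit 15535346))))
(L (nat_lit 25318855)))))
(L (nat_lit 25857232)))))
(S (nat_lit 32432) (S (nat_lit 15311) (S (nat_lit 6577) (S (nat_lit 17071) (S (nat_lit 56113) (S (nat_lit 47372) (L (nat_lit 5487510))
(L (nat_lit 7920698)))
(L (nat_lit 27869190)))
(L (nat_lit 26425925)))
(S (nat_lit 26341) (S (nat_lit 26356) (S (nat_lit 17071) (L (nat_lit 10345612))
(L (nat_lit 26645063)))
(L (nat_lit 30873714)))
(S (nat_lit 46105) (S (nat_lit 15371) (S (nat_lit 15362) (S (nat_lit 15326) (S (nat_lit 56113) (S (nat_lit 15347) (S (nat_lit 40817) (S (nat_lit 51) (L (nat_lit 28325205))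
(L (nat_lit 685389)))
(L (nat_lit 17031350)))
(L (nat_lit 7160850)))
(L (nat_lit 7771737)))
(L (nat_lit 7048700)))
(L (nat_lit 7976869)))
(S (nat_lit 52339) (L (nat_lit 737629))
(L (nat_lit 7529906))))
(L (nat_lit 25365102)))))
(S (nat_lit 35075) (S (nat_lit 6592) (S (nat_lit 15347) (S (nat_lit 17519) (S (nat_lit 21482) (S (nat_lit 32924) (L (nat_lit 2583273))
(L (nat_lit 20411588)))
(L (nat_lit 7496433)))
(L (nat_lit 7370258)))
(L (nat_lit 7146962)))
(S (nat_lit 26356) (S (nat_lit 43932) (S (nat_lit 50464) (S (nat_lit 16561) (L (nat_lit 15308828))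
(L (nat_lit 3550971)))
(L (nat_lit 13467858)))
(L (nat_lit 13403410)))
(S (nat_lit 46120) (S (nat_lit 54875) (L (nat_lit 285485))
(L (nat_lit 12469988)))
(L (nat_lit 25238254)))))
(S (nat_lit 54839) (S (nat_lit 17519) (S (nat_lit 15362) (S (nat_lit 54854) (S (nat_lit 56113) (L (nat_lit 30660101))
(L (nat_lit 8197708)))
(L (nat_lit 21504772)))
(S (nat_lit 43026) (L (nat_lit 19129518))
(L (nat_lit 1943986))))
(S (nat_lit 37283) (S (nat_lit 14297) (L (nat_lit 11010781))
(S (nat_lit 30700) (S (nat_lit 15347) (S (nat_lit 36795) (L (nat_lit 14551787))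
(L (nat_lit 8031644)))
(L (nat_lit 7760549)))
(L (nat_lit 17635346))))
(S (nat_lit 57047) (S (nat_lit 13145) (L (nat_lit 20979130))
(S (nat_lit 23490) (L (nat_lit 7956620))
(L (nat_lit 26258898))))
(L (nat_lit 25678084)))))
(L (nat_lit 25182452)))))
(S (nat_lit 52196) (S (nat_lit 7778) (S (nat_lit 1289) (S (nat_lit 26355) (S (nat_lit 16545) (S (nat_lit 54911) (L (nat_lit 15983331))
(L (nat_lit 21345336)))
(L (nat_lit 3841872)))
(L (nat_lit 9171020)))
(S (nat_lit 21053) (S (nat_lit 6143) (S (nat_lit 31931) (S (nat_lit 15362) (S (nat_lit 56598) (L (nat_lit 29918514))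
(L (nat_lit 13856324)))
(L (nat_lit 1914194)))
(L (nat_lit 4546963)))
(S (nat_lit 42067) (L (nat_lit 6808754))
(L (nat_lit 20323516))))
(S (nat_lit 40817) (S (nat_lit 1) (S (nat_lit 6591) (L (nat_lit 893648))
(L (nat_lit 8205889)))
(S (nat_lit 27022) (L (nat_lit 344669))
(L (nat_lit 1842766))))
(L (nat_lit 25484672)))))
(S (nat_lit 27542) (S (nat_lit 15383) (S (nat_lit 15332) (S (nat_lit 15347) (S (nat_lit 20996) (L (nat_lit 14735738))
(L (nat_lit 14963552)))
(L (nat_lit 6932260)))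
(L (nat_lit 1853995)))
(S (nat_lit 35147) (S (nat_lit 51695) (S (nat_lit 15377) (S (nat_lit 47357) (S (nat_lit 2210) (L (nat_lit 26396230))
(L (nat_lit 6887245)))
(L (nat_lit 2694992)))
(L (nat_lit 7933775)))
(L (nat_lit 15426784)))
(S (nat_lit 54911) (S (nat_lit 15347) (S (nat_lit 15362) (S (nat_lit 56112) (L (nat_lit 16320888))
(L (nat_lit 19330275)))
(L (nat_lit 8197554)))
(L (nat_lit 15540965)))
(L (nat_lit 25345706)))))
(S (nat_lit 47306) (S (nat_lit 11788) (L (nat_lit 12367027))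
(S (nat_lit 15347) (S (nat_lit 4857) (L (nat_lit 3906316))
(S (nat_lit 15362) (S (nat_lit 52238) (S (nat_lit 25907) (S (nat_lit 17071) (L (nat_lit 2512251))
(L (nat_lit 22972842)))
(L (nat_lit 22438211)))
(L (nat_lit 12849011)))
(L (nat_lit 1454002))))
(L (nat_lit 7178706))))
(L (nat_lit 25352464)))))
(L (nat_lit 25612294)))))
(S (nat_lit 30766) (S (nat_lit 15377) (S (nat_lit 12668) (S (nat_lit 13184) (S (nat_lit 28151) (L (nat_lit 30579438))
(S (nat_lit 47843) (S (nat_lit 47357) (S (nat_lit 4404) (S (nat_lit 39594) (L (nat_lit 30987339))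
(L (nat_lit 27829362)))
(L (nat_lit 1952017)))
(L (nat_lit 18423616)))
(L (nat_lit 9003553))))
(S (nat_lit 32948) (S (nat_lit 30686) (L (nat_lit 17664714))
(S (nat_lit 47357) (S (nat_lit 47843) (S (nat_lit 25841) (S (nat_lit 15383) (S (nat_lit 21539) (L (nat_lit 22163837))
(L (nat_lit 30458166)))
(L (nat_lit 26819627)))
(L (nat_lit 11091843)))
(L (nat_lit 18422593)))
(L (nat_lit 7496211))))
(S (nat_lit 52712) (S (nat_lit 10987) (S (nat_lit 29109) (L (nat_lit 1668430))
(S (nat_lit 54899) (S (nat_lit 25841) (S (nat_lit 16585) (S (nat_lit 17071) (S (nat_lit 4446) (S (nat_lit 17046) (S (nat_lit 51695) (S (nat_lit 45170) (S (nat_lit 6577) (S (nat_lit 57001) (S (nat_lit 8488) (S (nat_lit 52627) (S (nat_lit 43850) (S (nat_lit 22071) (S (nat_lit 41161) (S (nat_lit 47758) (S (nat_lit 15414) (S (nat_lit 39436) (D (nat_lit 16) (nat_lit 14012570) (nat_lit 18440384) (nat_lit 1155243741952344096))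
(L (nat_lit 28641845)))
(L (nat_lit 20133049)))
(L (nat_lit 14852919)))
(L (nat_lit 26589364)))
(L (nat_lit 16053330)))
(L (nat_lit 21267002)))
(L (nat_lit 29890678)))
(L (nat_lit 31045925)))
(L (nat_lit 29753622)))
(L (nat_lit 26631490)))
(L (nat_lit 10357206)))
(L (nat_lit 22200634)))
(L (nat_lit 26791051)))
(L (nat_lit 18191122)))
(L (nat_lit 9495116)))
(L (nat_lit 8413772)))
(L (nat_lit 11091779)))
(L (nat_lit 16324762))))
(S (nat_lit 38660) (L (nat_lit 22579421))
(L (nat_lit 16585042))))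
(L (nat_lit 25538708)))))
(S (nat_lit 32432) (S (nat_lit 16584) (S (nat_lit 10987) (S (nat_lit 30750) (S (nat_lit 25841) (S (nat_lit 56113) (L (nat_lit 30020912))
(L (nat_lit 27863116)))
(L (nat_lit 5851016)))
(L (nat_lit 3750759)))
(L (nat_lit 16590994)))
(S (nat_lit 36348) (S (nat_lit 14229) (L (nat_lit 14222150))
(S (nat_lit 56113) (S (nat_lit 41246) (S (nat_lit 50514) (S (nat_lit 46162) (L (nat_lit 4796270))
(L (nat_lit 5890286)))
(L (nat_lit 13183809)))
(L (nat_lit 18426689)))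
(L (nat_lit 600844))))
(S (nat_lit 56112) (S (nat_lit 21482) (S (nat_lit 8315) (S (nat_lit 10987) (S (nat_lit 56113) (L (nat_lit 808273))
(L (nat_lit 7960033)))
(L (nat_lit 16592018)))
(L (nat_lit 26820865)))
(L (nat_lit 597531)))
(L (nat_lit 25174517)))))
(S (nat_lit 52196) (S (nat_lit 10987) (S (nat_lit 15332) (S (nat_lit 32924) (S (nat_lit 39594) (S (nat_lit 46162) (S (nat_lit 4446) (S (nat_lit 28079) (L (nat_lit 28656821))
(L (nat_lit 11079472)))
(L (nat_lit 7533167)))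
(L (nat_lit 22385519)))
(L (nat_lit 24918118)))
(L (nat_lit 9551698)))
(L (nat_lit 1519228)))
(S (nat_lit 18355) (L (nat_lit 15520934))
(L (nat_lit 7189090))))
(L (nat_lit 25514156)))))
(S (nat_lit 35141) (S (nat_lit 16545) (S (nat_lit 4404) (S (nat_lit 7778) (S (nat_lit 32417) (S (nat_lit 16689) (L (nat_lit 30885994))
(L (nat_lit 8053123)))
(L (nat_lit 8020353)))
(S (nat_lit 19857) (L (nat_lit 3924518))
(L (nat_lit 5660947))))
(S (nat_lit 24168) (S (nat_lit 56598) (L (nat_lit 18986365))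
(L (nat_lit 8981326)))
(S (nat_lit 43932) (S (nat_lit 26356) (S (nat_lit 50464) (S (nat_lit 17519) (S (nat_lit 47357) (L (nat_lit 14391209))
(L (nat_lit 7932689)))
(L (nat_lit 15955058)))
(L (nat_lit 6143218)))
(L (nat_lit 16521330)))
(L (nat_lit 25611553)))))
(S (nat_lit 36309) (S (nat_lit 4405) (S (nat_lit 54860) (S (nat_lit 52181) (L (nat_lit 4824475))
(L (nat_lit 6441740)))
(L (nat_lit 19763594)))
(S (nat_lit 24169) (S (nat_lit 10935) (S (nat_lit 40817) (S (nat_lit 17071) (L (nat_lit 22169450))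
(L (nat_lit 22307884)))
(L (nat_lit 27558294)))
(L (nat_lit 18612871)))
(S (nat_lit 43933) (S (nat_lit 32417) (L (nat_lit 2487733))
(L (nat_lit 24976428)))
(L (nat_lit 25479683)))))
(S (nat_lit 56073) (S (nat_lit 10987) (S (nat_lit 4446) (S (nat_lit 25841) (S (nat_lit 54854) (S (nat_lit 56560) (S (nat_lit 7778) (L (nat_lit 2510662))
(L (nat_lit 21302685)))
(L (nat_lit 21925258)))
(L (nat_lit 21939557)))
(L (nat_lit 607545)))
(L (nat_lit 18191122)))
(S (nat_lit 30751) (L (nat_lit 3054994))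
(S (nat_lit 50515) (S (nat_lit 17176) (S (nat_lit 23737) (L (nat_lit 8574360))
(L (nat_lit 6943109)))
(S (nat_lit 56560) (S (nat_lit 19830) (S (nat_lit 41303) (L (nat_lit 24264028))
(L (nat_lit 1843607)))
(L (nat_lit 9145100)))
(L (nat_lit 7004544))))
(L (nat_lit 25449922)))))
(L (nat_lit 25854158)))))
(S (nat_lit 54905) (S (nat_lit 15326) (S (nat_lit 51) (S (nat_lit 54839) (S (nat_lit 35135) (S (nat_lit 30700) (S (nat_lit 12167) (S (nat_lit 57047) (S (nat_lit 17047) (S (nat_lit 15383) (S (nat_lit 16584) (L (nat_lit 29530611))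
(L (nat_lit 22984933)))
(L (nat_lit 7960069)))
(L (nat_lit 10312197)))
(L (nat_lit 27474533)))
(L (nat_lit 21316480)))
(L (nat_lit 8947538)))
(L (nat_lit 12937362)))
(L (nat_lit 11584434)))
(S (nat_lit 19815) (S (nat_lit 12668) (S (nat_lit 37436) (L (nat_lit 2322866))
(L (nat_lit 29861042)))
(S (nat_lit 39949) (L (nat_lit 21295618))
(L (nat_lit 10052622))))
(S (nat_lit 39579) (L (nat_lit 27725138))
(L (nat_lit 25477298)))))
(S (nat_lit 35090) (S (nat_lit 16584) (S (nat_lit 46161) (S (nat_lit 41738) (S (nat_lit 56073) (L (nat_lit 7933370))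
(L (nat_lit 2875784)))
(L (nat_lit 14278917)))
(L (nat_lit 11354752)))
(S (nat_lit 24836) (S (nat_lit 24593) (L (nat_lit 5949291))
(L (nat_lit 3597962)))
(L (nat_lit 8840837))))
(S (nat_lit 54854) (S (nat_lit 8264) (S (nat_lit 15371) (S (nat_lit 25421) (L (nat_lit 5756248))
(L (nat_lit 21807296)))
(L (nat_lit 7955599)))
(S (nat_lit 28028) (S (nat_lit 36348) (S (nat_lit 48338) (S (nat_lit 1247) (L (nat_lit 19032431))
(L (nat_lit 19734978)))
(L (nat_lit 10637752)))
(L (nat_lit 31007141)))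
(S (nat_lit 47792) (S (nat_lit 6592) (S (nat_lit 12653) (L (nat_lit 21112221))
(L (nat_lit 21798275)))
(S (nat_lit 9925) (L (nat_lit 14534945))
(L (nat_lit 14483762))))
(L (nat_lit 25309832)))))
(L (nat_lit 25698450)))))
(L (nat_lit 25758989)))))
(S (nat_lit 50530) (S (nat_lit 2210) (S (nat_lit 8264) (S (nat_lit 17519) (S (nat_lit 24169) (S (nat_lit 6633) (L (nat_lit 3780028))
(L (nat_lit 26912813)))
(L (nat_lit 22813805)))
(S (nat_lit 37283) (S (nat_lit 7778) (S (nat_lit 6633) (S (nat_lit 5657) (L (nat_lit 22179208))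
(L (nat_lit 26529838)))
(L (nat_lit 8056877)))
(L (nat_lit 23422338)))
(S (nat_lit 57047) (S (nat_lit 17071) (S (nat_lit 56575) (L (nat_lit 19370826))
(L (nat_lit 21538908)))
(L (nat_lit 14967859)))
(L (nat_lit 25383429)))))
(S (nat_lit 28028) (S (nat_lit 6143) (S (nat_lit 10419) (L (nat_lit 22440006))
(S (nat_lit 10987) (S (nat_lit 17047) (L (nat_lit 7739158))
(L (nat_lit 15587616)))
(L (nat_lit 16602281))))
(S (nat_lit 25907) (S (nat_lit 26355) (S (nat_lit 25841) (S (nat_lit 19830) (L (nat_lit 21389448))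
(L (nat_lit 9156732)))
(L (nat_lit 30559598)))
(L (nat_lit 3742172)))
(S (nat_lit 45671) (S (nat_lit 17071) (S (nat_lit 36310) (S (nat_lit 5591) (L (nat_lit 1843731))
(L (nat_lit 9004140)))
(L (nat_lit 18698379)))
(L (nat_lit 14737994)))
(L (nat_lit 25624822)))))
(S (nat_lit 47792) (S (nat_lit 36309) (S (nat_lit 6633) (S (nat_lit 4390) (S (nat_lit 54875) (S (nat_lit 5657) (L (nat_lit 18745650))
(L (nat_lit 20005735)))
(L (nat_lit 27660010)))
(L (nat_lit 650633)))
(L (nat_lit 7009665)))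
(S (nat_lit 51061) (L (nat_lit 20005735))
(L (nat_lit 1593724))))
(L (nat_lit 25825584)))))
(S (nat_lit 21974) (S (nat_lit 8315) (S (nat_lit 51) (S (nat_lit 36348) (S (nat_lit 50529) (S (nat_lit 50514) (L (nat_lit 10076282))
(L (nat_lit 12670791)))
(L (nat_lit 12972608)))
(L (nat_lit 12833884)))
(S (nat_lit 19815) (S (nat_lit 56575) (S (nat_lit 13145) (S (nat_lit 25841) (L (nat_lit 6348348))
(L (nat_lit 31016070)))
(L (nat_lit 22811921)))
(L (nat_lit 21325312)))
(S (nat_lit 39579) (S (nat_lit 27593) (S (nat_lit 13184) (L (nat_lit 5068331))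
(L (nat_lit 13197451)))
(S (nat_lit 56440) (S (nat_lit 36811) (S (nat_lit 25841) (S (nat_lit 33775) (L (nat_lit 4441852))
(L (nat_lit 28918918)))
(L (nat_lit 31016070)))
(L (nat_lit 30812896)))
(L (nat_lit 12141657))))
(L (nat_lit 25276108)))))
(S (nat_lit 28079) (S (nat_lit 7778) (S (nat_lit 15371) (S (nat_lit 19765) (S (nat_lit 15383) (L (nat_lit 5591576))
(L (nat_lit 7525165)))
(L (nat_lit 16587331)))
(L (nat_lit 7955876)))
(S (nat_lit 27542) (S (nat_lit 1718) (S (nat_lit 20996) (L (nat_lit 2825627))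
(L (nat_lit 16013152)))
(L (nat_lit 13199462)))
(S (nat_lit 47306) (S (nat_lit 9363) (L (nat_lit 4708633))
(S (nat_lit 56575) (S (nat_lit 26341) (S (nat_lit 56598) (L (nat_lit 14734616))
(L (nat_lit 8994941)))
(L (nat_lit 30811282)))
(L (nat_lit 19278693))))
(L (nat_lit 25516144)))))
(S (nat_lit 47843) (S (nat_lit 4390) (S (nat_lit 17534) (S (nat_lit 28550) (S (nat_lit 15377) (L (nat_lit 29773060))
(L (nat_lit 6885199)))
(L (nat_lit 13181764)))
(L (nat_lit 16589540)))
(S (nat_lit 24154) (S (nat_lit 28550) (S (nat_lit 12668) (L (nat_lit 28916872))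
(L (nat_lit 10053121)))
(L (nat_lit 9003460)))
(S (nat_lit 43918) (S (nat_lit 17071) (S (nat_lit 28550) (S (nat_lit 20996) (L (nat_lit 9242003))
(L (nat_lit 12408354)))
(L (nat_lit 9003053)))
(L (nat_lit 26818599)))
(L (nat_lit 25732834)))))
(L (nat_lit 25187848)))))
(S (nat_lit 41738) (S (nat_lit 2225) (S (nat_lit 4587) (L (nat_lit 863638))
(S (nat_lit 27542) (S (nat_lit 36795) (S (nat_lit 15377) (S (nat_lit 39595) (L (nat_lit 28492394))
(L (nat_lit 24481244)))
(L (nat_lit 26545554)))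
(L (nat_lit 8212866)))
(L (nat_lit 12409216))))
(S (nat_lit 21989) (S (nat_lit 6077) (S (nat_lit 16690) (S (nat_lit 19831) (L (nat_lit 5710613))
(L (nat_lit 21520457)))
(S (nat_lit 56074) (S (nat_lit 19831) (L (nat_lit 19678247))
(L (nat_lit 21520457)))
(L (nat_lit 10215468))))
(S (nat_lit 25841) (S (nat_lit 21053) (S (nat_lit 1) (S (nat_lit 6128) (S (nat_lit 10987) (S (nat_lit 36309) (L (nat_lit 4445597))
(L (nat_lit 30671415)))
(L (nat_lit 7943074)))
(L (nat_lit 11722141)))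
(L (nat_lit 6939043)))
(S (nat_lit 54924) (L (nat_lit 963144))
(L (nat_lit 22093243))))
(S (nat_lit 45605) (S (nat_lit 46161) (S (nat_lit 26340) (S (nat_lit 47858) (L (nat_lit 13781894))
(L (nat_lit 9037251)))
(L (nat_lit 19095693)))
(L (nat_lit 5067981)))
(L (nat_lit 25251182)))))
(S (nat_lit 41753) (S (nat_lit 6576) (S (nat_lit 1775) (S (nat_lit 52238) (L (nat_lit 28355094))
(L (nat_lit 20324506)))
(S (nat_lit 27490) (L (nat_lit 16684779))
(L (nat_lit 13687165))))
(S (nat_lit 26340) (S (nat_lit 35075) (S (nat_lit 54875) (L (nat_lit 9101828))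
(L (nat_lit 12160877)))
(L (nat_lit 4004370)))
(S (nat_lit 46104) (S (nat_lit 46161) (S (nat_lit 54875) (S (nat_lit 25406) (S (nat_lit 50464) (L (nat_lit 12094171))
(L (nat_lit 27311753)))
(L (nat_lit 11688812)))
(L (nat_lit 11134405)))
(L (nat_lit 12391862)))
(L (nat_lit 25410209)))))
(L (nat_lit 25440869)))))
(L (nat_lit 25701495)))))
(L (nat_lit 25870626)))))
(L (nat_lit 25527950)))))
(S (nat_lit 31946) (S (nat_lit 1232) (S (nat_lit 6077) (S (nat_lit 1718) (S (nat_lit 17047) (S (nat_lit 32924) (S (nat_lit 16561) (S (nat_lit 47372) (S (nat_lit 35126) (S (nat_lit 6633) (L (nat_lit 629276))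
(L (nat_lit 14284001)))
(L (nat_lit 13231461)))
(L (nat_lit 10085520)))
(L (nat_lit 9039020)))
(L (nat_lit 9035824)))
(S (nat_lit 36811) (S (nat_lit 50529) (S (nat_lit 2210) (L (nat_lit 26853479))
(L (nat_lit 17405244)))
(L (nat_lit 11134065)))
(S (nat_lit 56575) (S (nat_lit 30765) (S (nat_lit 56089) (S (nat_lit 47858) (L (nat_lit 2727821))
(L (nat_lit 1697224)))
(L (nat_lit 10088625)))
(L (nat_lit 14278913)))
(L (nat_lit 25494252)))))
(S (nat_lit 21482) (S (nat_lit 6592) (S (nat_lit 56599) (L (nat_lit 16344105))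
(L (nat_lit 14248999)))
(S (nat_lit 26356) (S (nat_lit 2210) (S (nat_lit 39529) (S (nat_lit 30750) (L (nat_lit 18421049))
(L (nat_lit 8983343)))
(L (nat_lit 17368316)))
(S (nat_lit 29463) (L (nat_lit 29995266))
(L (nat_lit 17410172))))
(S (nat_lit 46120) (S (nat_lit 15377) (L (nat_lit 2698030))
(L (nat_lit 6909007)))
(L (nat_lit 25647394)))))
(S (nat_lit 41246) (S (nat_lit 8771) (S (nat_lit 35055) (L (nat_lit 1681948))
(S (nat_lit 36324) (S (nat_lit 57062) (S (nat_lit 15362) (S (nat_lit 15332) (S (nat_lit 32924) (S (nat_lit 46162) (S (nat_lit 6591) (S (nat_lit 56575) (L (nat_lit 29540599))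
(L (nat_lit 19296549)))
(L (nat_lit 6883148)))
(L (nat_lit 11133314)))
(L (nat_lit 9036164)))
(L (nat_lit 6312508)))
(L (nat_lit 6919612)))
(L (nat_lit 13234405)))
(L (nat_lit 6440700))))
(S (nat_lit 28535) (S (nat_lit 17047) (S (nat_lit 4390) (S (nat_lit 6633) (L (nat_lit 29998154))
(L (nat_lit 26854625)))
(L (nat_lit 6930586)))
(S (nat_lit 36811) (S (nat_lit 56599) (S (nat_lit 6591) (L (nat_lit 19792141))
(L (nat_lit 14246144)))
(L (nat_lit 8981260)))
(S (nat_lit 56575) (S (nat_lit 31988) (S (nat_lit 30765) (S (nat_lit 15362) (S (nat_lit 36324) (S (nat_lit 17046) (L (nat_lit 29538675))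
(L (nat_lit 10072868)))
(L (nat_lit 1682908)))
(L (nat_lit 1682940)))
(L (nat_lit 2744591)))
(S (nat_lit 43296) (L (nat_lit 17618055))
(L (nat_lit 17472635))))
(L (nat_lit 25337299)))))
(S (nat_lit 48299) (S (nat_lit 66) (S (nat_lit 15383) (S (nat_lit 8330) (S (nat_lit 1247) (S (nat_lit 48314) (S (nat_lit 56599) (S (nat_lit 46162) (L (nat_lit 20857993))
(L (nat_lit 17159228)))
(L (nat_lit 6896384)))
(L (nat_lit 14246955)))
(L (nat_lit 13853751)))
(L (nat_lit 13855765)))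
(L (nat_lit 1561355)))
(S (nat_lit 19830) (S (nat_lit 31988) (S (nat_lit 12710) (S (nat_lit 27593) (L (nat_lit 29077543))
(L (nat_lit 12506624)))
(L (nat_lit 9852707)))
(L (nat_lit 30823680)))
(S (nat_lit 39594) (S (nat_lit 50529) (S (nat_lit 46120) (S (nat_lit 56599) (L (nat_lit 6437747))
(L (nat_lit 6896384)))
(L (nat_lit 27866403)))
(L (nat_lit 20309071)))
(L (nat_lit 25902336)))))
(L (nat_lit 25214261)))))
(L (nat_lit 25765936)))))
(S (nat_lit 25841) (S (nat_lit 4447) (S (nat_lit 17558) (S (nat_lit 4390) (S (nat_lit 54899) (L (nat_lit 1654138))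
(L (nat_lit 14228293)))
(S (nat_lit 24154) (S (nat_lit 1) (S (nat_lit 41738) (S (nat_lit 5657) (L (nat_lit 2014519))
(L (nat_lit 19268829)))
(L (nat_lit 13655850)))
(S (nat_lit 46512) (L (nat_lit 9309900))
(L (nat_lit 1466580))))
(S (nat_lit 43918) (S (nat_lit 30750) (S (nat_lit 56599) (L (nat_lit 14018706))
(L (nat_lit 1666474)))
(L (nat_lit 17392961)))
(L (nat_lit 25805123)))))
(S (nat_lit 37322) (S (nat_lit 8810) (S (nat_lit 7844) (S (nat_lit 41738) (S (nat_lit 40817) (L (nat_lit 900343))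
(L (nat_lit 8192438)))
(L (nat_lit 14586507)))
(L (nat_lit 14555714)))
(S (nat_lit 28574) (S (nat_lit 56088) (S (nat_lit 16561) (L (nat_lit 9114414))
(L (nat_lit 17401178)))
(L (nat_lit 18919771)))
(S (nat_lit 48338) (S (nat_lit 56599) (S (nat_lit 50529) (S (nat_lit 2225) (S (nat_lit 40817) (S (nat_lit 56074) (L (nat_lit 30622277))
(L (nat_lit 13962131)))
(L (nat_lit 8208962)))
(L (nat_lit 860749)))
(L (nat_lit 20264736)))
(L (nat_lit 21184569)))
(L (nat_lit 25311571)))))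
(S (nat_lit 57086) (S (nat_lit 16585) (S (nat_lit 30750) (L (nat_lit 19457158))
(L (nat_lit 17392992)))
(S (nat_lit 36349) (S (nat_lit 36348) (S (nat_lit 30750) (L (nat_lit 5850333))
(L (nat_lit 14247264)))
(L (nat_lit 6907920)))
(S (nat_lit 56113) (S (nat_lit 32432) (S (nat_lit 7829) (L (nat_lit 5913510))
(L (nat_lit 26820832)))
(L (nat_lit 17378329)))
(L (nat_lit 25412228)))))
(L (nat_lit 25515150)))))
(S (nat_lit 24211) (S (nat_lit 2225) (S (nat_lit 6591) (S (nat_lit 32417) (S (nat_lit 7829) (S (nat_lit 30765) (L (nat_lit 7824034))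
(L (nat_lit 17408769)))
(L (nat_lit 26821703)))
(L (nat_lit 17652931)))
(S (nat_lit 26355) (S (nat_lit 56599) (S (nat_lit 52712) (L (nat_lit 16816733))
(L (nat_lit 17585477)))
(L (nat_lit 16323335)))
(S (nat_lit 46119) (S (nat_lit 30750) (S (nat_lit 36834) (L (nat_lit 29952206))
(L (nat_lit 31073764)))
(L (nat_lit 14592609)))
(L (nat_lit 25768225)))))
(S (nat_lit 21989) (S (nat_lit 4405) (S (nat_lit 56598) (S (nat_lit 25355) (L (nat_lit 22250316))
(L (nat_lit 17703490)))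
(L (nat_lit 13915195)))
(S (nat_lit 24169) (S (nat_lit 26397) (S (nat_lit 46120) (L (nat_lit 30588617))
(L (nat_lit 17072732)))
(L (nat_lit 3780429)))
(S (nat_lit 43933) (S (nat_lit 36766) (L (nat_lit 26412565))
(S (nat_lit 41738) (S (nat_lit 16584) (S (nat_lit 12710) (L (nat_lit 26854470))
(L (nat_lit 26917155)))
(L (nat_lit 17028995)))
(L (nat_lit 27868453))))
(L (nat_lit 25239216)))))
(S (nat_lit 41753) (S (nat_lit 5591) (S (nat_lit 26355) (S (nat_lit 54905) (S (nat_lit 36810) (L (nat_lit 23209531))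
(L (nat_lit 633308)))
(L (nat_lit 13994618)))
(L (nat_lit 16319239)))
(S (nat_lit 25355) (S (nat_lit 30750) (S (nat_lit 56599) (S (nat_lit 16561) (S (nat_lit 30765) (L (nat_lit 24677191))
(L (nat_lit 16917428)))
(L (nat_lit 22424698)))
(L (nat_lit 21406777)))
(L (nat_lit 31010983)))
(S (nat_lit 45119) (S (nat_lit 7829) (S (nat_lit 56559) (S (nat_lit 56574) (S (nat_lit 47792) (L (nat_lit 1561510))
(L (nat_lit 17099859)))
(L (nat_lit 14265188)))
(L (nat_lit 14524439)))
(L (nat_lit 13182880)))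
(L (nat_lit 25667703)))))
(L (nat_lit 25857546)))))
(S (nat_lit 43975) (S (nat_lit 6633) (S (nat_lit 15383) (S (nat_lit 47792) (S (nat_lit 36796) (L (nat_lit 26355308))
(L (nat_lit 13455370)))
(L (nat_lit 22385585)))
(S (nat_lit 35147) (S (nat_lit 39466) (L (nat_lit 23496921))
(S (nat_lit 56599) (S (nat_lit 25421) (S (nat_lit 7829) (L (nat_lit 12128828))
(L (nat_lit 14022240)))
(L (nat_lit 13882521)))
(L (nat_lit 3747257))))
(S (nat_lit 54911) (S (nat_lit 30750) (S (nat_lit 32924) (L (nat_lit 6046934))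
(L (nat_lit 15327461)))
(L (nat_lit 13954656)))
(L (nat_lit 25341460)))))
(S (nat_lit 26397) (S (nat_lit 11001) (S (nat_lit 11819) (L (nat_lit 4833063))
(S (nat_lit 12224) (S (nat_lit 45119) (S (nat_lit 17047) (L (nat_lit 13642614))
(L (nat_lit 15329632)))
(L (nat_lit 27901248)))
(L (nat_lit 4118055))))
(S (nat_lit 30765) (S (nat_lit 52238) (S (nat_lit 5657) (L (nat_lit 14866279))
(L (nat_lit 19805536)))
(L (nat_lit 9036257)))
(S (nat_lit 50529) (S (nat_lit 1718) (S (nat_lit 25355) (L (nat_lit 17574592))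
(L (nat_lit 14280960)))
(L (nat_lit 14280806)))
(L (nat_lit 25797121)))))
(S (nat_lit 46161) (S (nat_lit 15332) (S (nat_lit 15377) (S (nat_lit 12758) (L (nat_lit 14225757))
(S (nat_lit 32432) (S (nat_lit 1718) (S (nat_lit 54911) (S (nat_lit 39579) (S (nat_lit 7829) (L (nat_lit 512252))
(L (nat_lit 13694197)))
(L (nat_lit 24227389)))
(L (nat_lit 5848282)))
(L (nat_lit 19261987)))
(L (nat_lit 16968262))))
(S (nat_lit 47224) (L (nat_lit 9016108))
(L (nat_lit 1389426))))
(S (nat_lit 35096) (S (nat_lit 1718) (S (nat_lit 7829) (S (nat_lit 41738) (S (nat_lit 47372) (L (nat_lit 30000169))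
(L (nat_lit 17636064)))
(L (nat_lit 5728535)))
(L (nat_lit 13994899)))
(L (nat_lit 14014371)))
(S (nat_lit 54860) (S (nat_lit 46162) (S (nat_lit 1) (S (nat_lit 30750) (L (nat_lit 8407452))
(L (nat_lit 31010983)))
(L (nat_lit 14278850)))
(L (nat_lit 17410076)))
(L (nat_lit 25708619)))))
(L (nat_lit 25701430)))))
(L (nat_lit 25901064)))))
(S (nat_lit 45605) (S (nat_lit 12653) (S (nat_lit 8771) (S (nat_lit 13145) (S (nat_lit 35019) (L (nat_lit 1636010))
(S (nat_lit 47858) (S (nat_lit 16561) (S (nat_lit 32432) (L (nat_lit 13424646))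
(L (nat_lit 14427875)))
(L (nat_lit 10546643)))
(L (nat_lit 1700080))))
(S (nat_lit 32909) (S (nat_lit 30750) (S (nat_lit 56088) (S (nat_lit 41303) (L (nat_lit 10238068))
(L (nat_lit 7095905)))
(L (nat_lit 27667575)))
(L (nat_lit 14429793)))
(S (nat_lit 52673) (S (nat_lit 47858) (S (nat_lit 47372) (S (nat_lit 15347) (L (nat_lit 632652))
(L (nat_lit 7163332)))
(L (nat_lit 16784120)))
(S (nat_lit 54931) (L (nat_lit 26301740))
(L (nat_lit 6821683))))
(L (nat_lit 25870597)))))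
(S (nat_lit 28535) (S (nat_lit 15383) (S (nat_lit 41605) (L (nat_lit 1650172))
(S (nat_lit 56599) (S (nat_lit 17534) (L (nat_lit 26297960))
(L (nat_lit 6403860)))
(L (nat_lit 6951692))))
(S (nat_lit 35147) (S (nat_lit 2114) (L (nat_lit 20755592))
(S (nat_lit 30765) (S (nat_lit 32909) (S (nat_lit 43932) (L (nat_lit 16533515))
(L (nat_lit 24545159)))
(L (nat_lit 8820660)))
(L (nat_lit 9221856))))
(S (nat_lit 54911) (S (nat_lit 37283) (S (nat_lit 47792) (S (nat_lit 27608) (L (nat_lit 1951950))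
(L (nat_lit 6995874)))
(L (nat_lit 6974849)))
(S (nat_lit 39047) (L (nat_lit 19774473))
(L (nat_lit 3649460))))
(L (nat_lit 25341679)))))
(S (nat_lit 48299) (S (nat_lit 6592) (S (nat_lit 16561) (S (nat_lit 36348) (L (nat_lit 16345379))
(L (nat_lit 1943991)))
(L (nat_lit 26841356)))
(S (nat_lit 26356) (S (nat_lit 19765) (S (nat_lit 50515) (S (nat_lit 25355) (L (nat_lit 1678126))
(L (nat_lit 4483639)))
(L (nat_lit 4483479)))
(L (nat_lit 9005475)))
(S (nat_lit 46120) (S (nat_lit 12505) (S (nat_lit 48314) (L (nat_lit 26328682))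
(L (nat_lit 27341013)))
(S (nat_lit 24154) (S (nat_lit 46119) (L (nat_lit 16962874))
(L (nat_lit 27866369)))
(L (nat_lit 13886179))))
(L (nat_lit 25286959)))))
(L (nat_lit 25635957)))))
(S (nat_lit 32417) (S (nat_lit 12224) (S (nat_lit 4404) (S (nat_lit 7829) (S (nat_lit 1718) (S (nat_lit 50515) (S (nat_lit 8771) (L (nat_lit 28803349))
(L (nat_lit 6837341)))
(L (nat_lit 13197666)))
(L (nat_lit 19170224)))
(S (nat_lit 25311) (L (nat_lit 1561820))
(L (nat_lit 10535859))))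
(S (nat_lit 24168) (S (nat_lit 1718) (S (nat_lit 30751) (L (nat_lit 8984092))
(L (nat_lit 8467255)))
(L (nat_lit 13997788)))
(S (nat_lit 43932) (S (nat_lit 26969) (L (nat_lit 11961084))
(S (nat_lit 46162) (S (nat_lit 40817) (S (nat_lit 30750) (L (nat_lit 20858048))
(L (nat_lit 31013184)))
(L (nat_lit 23364464)))
(L (nat_lit 17410105))))
(L (nat_lit 25827745)))))
(S (nat_lit 31988) (S (nat_lit 6143) (S (nat_lit 26355) (S (nat_lit 5642) (S (nat_lit 56575) (L (nat_lit 13927218))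
(L (nat_lit 19442592)))
(L (nat_lit 19086240)))
(L (nat_lit 25067788)))
(S (nat_lit 25907) (S (nat_lit 25355) (S (nat_lit 56088) (L (nat_lit 17681415))
(L (nat_lit 14255978)))
(L (nat_lit 6940780)))
(S (nat_lit 45671) (S (nat_lit 7637) (L (nat_lit 24535179))
(S (nat_lit 17558) (S (nat_lit 16561) (S (nat_lit 8264) (L (nat_lit 29963366))
(L (nat_lit 14312582)))
(L (nat_lit 24680634)))
(L (nat_lit 6444509))))
(L (nat_lit 25383948)))))
(S (nat_lit 51752) (S (nat_lit 1733) (S (nat_lit 36349) (S (nat_lit 13145) (S (nat_lit 8771) (L (nat_lit 6959288))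
(L (nat_lit 243573)))
(L (nat_lit 215516)))
(L (nat_lit 6308723)))
(S (nat_lit 21497) (S (nat_lit 16402) (S (nat_lit 36811) (L (nat_lit 31013088))
(L (nat_lit 20182528)))
(S (nat_lit 25355) (S (nat_lit 36811) (L (nat_lit 28878400))
(L (nat_lit 20182528)))
(L (nat_lit 6482540))))
(S (nat_lit 41261) (S (nat_lit 51833) (L (nat_lit 4834216))
(S (nat_lit 56088) (S (nat_lit 48338) (S (nat_lit 40817) (L (nat_lit 2735019))
(L (nat_lit 7900086)))
(L (nat_lit 14260997)))
(L (nat_lit 629614))))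
(L (nat_lit 25349457)))))
(L (nat_lit 25790798)))))
(S (nat_lit 52181) (S (nat_lit 1775) (S (nat_lit 66) (S (nat_lit 36325) (S (nat_lit 8330) (L (nat_lit 24677190))
(L (nat_lit 13279073)))
(L (nat_lit 30988545)))
(S (nat_lit 19830) (S (nat_lit 51695) (L (nat_lit 26775861))
(L (nat_lit 20189594)))
(S (nat_lit 39594) (S (nat_lit 30699) (S (nat_lit 8330) (S (nat_lit 54854) (L (nat_lit 16947930))
(L (nat_lit 10514866)))
(L (nat_lit 13279073)))
(L (nat_lit 8974977)))
(L (nat_lit 25725235)))))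
(S (nat_lit 21539) (S (nat_lit 15371) (S (nat_lit 39729) (L (nat_lit 1940078))
(S (nat_lit 51695) (S (nat_lit 30750) (S (nat_lit 21053) (S (nat_lit 19765) (S (nat_lit 17031) (L (nat_lit 1427869))
(L (nat_lit 15042168)))
(L (nat_lit 8783480)))
(L (nat_lit 1828177)))
(L (nat_lit 14603584)))
(L (nat_lit 22209836))))
(S (nat_lit 35135) (S (nat_lit 17558) (S (nat_lit 56599) (S (nat_lit 52712) (S (nat_lit 25406) (L (nat_lit 28903727))
(L (nat_lit 1858953)))
(L (nat_lit 27826324)))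
(L (nat_lit 3763690)))
(S (nat_lit 54730) (L (nat_lit 7101826))
(L (nat_lit 7495596))))
(S (nat_lit 54899) (S (nat_lit 21053) (S (nat_lit 51695) (S (nat_lit 15347) (S (nat_lit 36796) (S (nat_lit 45119) (L (nat_lit 29466007))
(L (nat_lit 13202754)))
(L (nat_lit 13436615)))
(L (nat_lit 6852370)))
(L (nat_lit 28000329)))
(L (nat_lit 21872743)))
(L (nat_lit 25541252)))))
(S (nat_lit 41303) (S (nat_lit 1) (S (nat_lit 47792) (S (nat_lit 56599) (S (nat_lit 15332) (L (nat_lit 22027708))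
(L (nat_lit 1518204)))
(L (nat_lit 19368711)))
(L (nat_lit 6689498)))
(S (nat_lit 19765) (S (nat_lit 36310) (S (nat_lit 56599) (S (nat_lit 56560) (L (nat_lit 21389383))
(L (nat_lit 9103749)))
(L (nat_lit 6741113)))
(L (nat_lit 7045688)))
(S (nat_lit 39529) (S (nat_lit 4390) (L (nat_lit 6918960))
(L (nat_lit 6928259)))
(L (nat_lit 25598563)))))
(L (nat_lit 25222448)))))
(L (nat_lit 25723091)))))
(L (nat_lit 25545868)))))
(S (nat_lit 20996) (S (nat_lit 17031) (S (nat_lit 8315) (S (nat_lit 17558) (S (nat_lit 66) (S (nat_lit 2225) (S (nat_lit 56599) (S (nat_lit 25355) (S (nat_lit 17534) (S (nat_lit 35135) (S (nat_lit 39529) (S (nat_lit 10986) (L (nat_lit 17847578))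
(L (nat_lit 7788416)))
(L (nat_lit 24348060)))
(L (nat_lit 30750898)))
(L (nat_lit 1920238)))
(L (nat_lit 17703031)))
(L (nat_lit 1922474)))
(L (nat_lit 1365773)))
(S (nat_lit 19830) (S (nat_lit 17948) (L (nat_lit 12027612))
(S (nat_lit 39595) (S (nat_lit 27608) (S (nat_lit 36310) (L (nat_lit 6473555))
(L (nat_lit 30686913)))
(L (nat_lit 31037488)))
(L (nat_lit 12079907))))
(S (nat_lit 39594) (S (nat_lit 46162) (S (nat_lit 52238) (S (nat_lit 54890) (S (nat_lit 25421) (S (nat_lit 46119) (L (nat_lit 6996739))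
(L (nat_lit 22485793)))
(L (nat_lit 4678279)))
(L (nat_lit 4778322)))
(L (nat_lit 22485921)))
(L (nat_lit 12342659)))
(L (nat_lit 25889223)))))
(S (nat_lit 37322) (S (nat_lit 17032) (S (nat_lit 46161) (S (nat_lit 15371) (L (nat_lit 17373211))
(L (nat_lit 15009682)))
(L (nat_lit 27897217)))
(S (nat_lit 36796) (S (nat_lit 4404) (S (nat_lit 21539) (S (nat_lit 51695) (S (nat_lit 36325) (L (nat_lit 20748337))
(L (nat_lit 30808182)))
(L (nat_lit 661912)))
(L (nat_lit 21797249)))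
(L (nat_lit 6817650)))
(S (nat_lit 56560) (S (nat_lit 50464) (S (nat_lit 31931) (S (nat_lit 39529) (L (nat_lit 17662163))
(L (nat_lit 27478402)))
(L (nat_lit 17500007)))
(L (nat_lit 12420658)))
(L (nat_lit 25922897)))))
(S (nat_lit 57086) (S (nat_lit 52) (S (nat_lit 10935) (S (nat_lit 41303) (S (nat_lit 4390) (L (nat_lit 26424499))
(L (nat_lit 800084)))
(L (nat_lit 7014321)))
(S (nat_lit 51779) (L (nat_lit 11946136))
(L (nat_lit 16390168))))
(S (nat_lit 19816) (S (nat_lit 36325) (S (nat_lit 45671) (S (nat_lit 50464) (S (nat_lit 21482) (S (nat_lit 28550) (L (nat_lit 18883131))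
(L (nat_lit 30825700)))
(L (nat_lit 15070913)))
(L (nat_lit 12205923)))
(L (nat_lit 24914092)))
(L (nat_lit 13310785)))
(S (nat_lit 39580) (S (nat_lit 41738) (S (nat_lit 54899) (S (nat_lit 45185) (S (nat_lit 48314) (S (nat_lit 50530) (L (nat_lit 11077548))
(L (nat_lit 5056018)))
(L (nat_lit 4813259)))
(L (nat_lit 15439930)))
(L (nat_lit 12141316)))
(L (nat_lit 11592086)))
(L (nat_lit 25667764)))))
(L (nat_lit 25320907)))))
(S (nat_lit 28079) (S (nat_lit 5657) (S (nat_lit 52238) (S (nat_lit 46162) (S (nat_lit 36349) (S (nat_lit 25406) (S (nat_lit 32924) (L (nat_lit 21469244))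
(L (nat_lit 10074137)))
(L (nat_lit 21767554)))
(L (nat_lit 6379377)))
(L (nat_lit 12407823)))
(L (nat_lit 6704993)))
(S (nat_lit 25421) (S (nat_lit 50464) (S (nat_lit 35075) (S (nat_lit 17519) (S (nat_lit 10986) (S (nat_lit 6633) (S (nat_lit 46120) (L (nat_lit 13725286))
(L (nat_lit 17538169)))
(L (nat_lit 26783424)))
(L (nat_lit 1815431)))
(L (nat_lit 18085572)))
(L (nat_lit 23267149)))
(L (nat_lit 22518627)))
(S (nat_lit 45185) (S (nat_lit 6591) (S (nat_lit 51695) (S (nat_lit 16546) (L (nat_lit 4962087))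
(L (nat_lit 26975372)))
(L (nat_lit 15009619)))
(S (nat_lit 26355) (S (nat_lit 21539) (S (nat_lit 2649) (L (nat_lit 25018408))
(L (nat_lit 25074210)))
(L (nat_lit 15992441)))
(S (nat_lit 46119) (S (nat_lit 41303) (L (nat_lit 30115367))
(L (nat_lit 27461232)))
(L (nat_lit 25440833)))))
(L (nat_lit 25893282)))))
(S (nat_lit 47843) (S (nat_lit 1) (S (nat_lit 17032) (S (nat_lit 13184) (S (nat_lit 6592) (S (nat_lit 16585) (S (nat_lit 50463) (L (nat_lit 13638333))
(L (nat_lit 22217583)))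
(L (nat_lit 22045099)))
(L (nat_lit 1907154)))
(L (nat_lit 26384948)))
(L (nat_lit 17570400)))
(S (nat_lit 19765) (S (nat_lit 21539) (S (nat_lit 51695) (S (nat_lit 36796) (S (nat_lit 13184) (S (nat_lit 21974) (S (nat_lit 52238) (L (nat_lit 21001736))
(L (nat_lit 22503715)))
(L (nat_lit 2745739)))
(L (nat_lit 7210514)))
(L (nat_lit 30939744)))
(L (nat_lit 15571552)))
(L (nat_lit 15506017)))
(S (nat_lit 39529) (S (nat_lit 31931) (S (nat_lit 50464) (S (nat_lit 2210) (S (nat_lit 10935) (S (nat_lit 41303) (L (nat_lit 29038607))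
(L (nat_lit 17569878)))
(L (nat_lit 16455737)))
(L (nat_lit 6895460)))
(L (nat_lit 20153913)))
(L (nat_lit 7210604)))
(L (nat_lit 25794575)))))
(L (nat_lit 25351376)))))
(S (nat_lit 36795) (S (nat_lit 16546) (S (nat_lit 2210) (S (nat_lit 16561) (S (nat_lit 30923) (L (nat_lit 652492))
(S (nat_lit 47792) (S (nat_lit 31931) (L (nat_lit 29545929))
(L (nat_lit 30740883)))
(L (nat_lit 18207585))))
(S (nat_lit 36325) (S (nat_lit 6633) (S (nat_lit 1289) (S (nat_lit 1775) (L (nat_lit 8309121))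
(L (nat_lit 11590448)))
(L (nat_lit 26779200)))
(S (nat_lit 40885) (L (nat_lit 26977664))
(L (nat_lit 554695))))
(S (nat_lit 56089) (S (nat_lit 15371) (S (nat_lit 30700) (L (nat_lit 1453752))
(L (nat_lit 17008530)))
(S (nat_lit 42781) (L (nat_lit 17404252))
(L (nat_lit 17373340))))
(L (nat_lit 25578598)))))
(S (nat_lit 21974) (S (nat_lit 1775) (S (nat_lit 47792) (S (nat_lit 45656) (S (nat_lit 54860) (L (nat_lit 14586167))
(L (nat_lit 19835268)))
(L (nat_lit 6315418)))
(L (nat_lit 20285850)))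
(S (nat_lit 21539) (S (nat_lit 30699) (L (nat_lit 30449042))
(L (nat_lit 19733025)))
(S (nat_lit 41303) (S (nat_lit 5642) (S (nat_lit 31931) (S (nat_lit 26340) (S (nat_lit 56599) (L (nat_lit 1395473))
(L (nat_lit 7160384)))
(L (nat_lit 24519456)))
(L (nat_lit 7210389)))
(L (nat_lit 8542620)))
(L (nat_lit 25726263)))))
(S (nat_lit 41738) (S (nat_lit 15362) (S (nat_lit 32924) (S (nat_lit 39594) (S (nat_lit 48299) (L (nat_lit 23377764))
(L (nat_lit 11457925)))
(L (nat_lit 11353760)))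
(L (nat_lit 31046853)))
(S (nat_lit 35126) (S (nat_lit 33494) (L (nat_lit 30825542))
(S (nat_lit 36811) (S (nat_lit 14320) (L (nat_lit 17124133))
(L (nat_lit 17007355)))
(L (nat_lit 647626))))
(S (nat_lit 54890) (S (nat_lit 37298) (S (nat_lit 54860) (S (nat_lit 48299) (L (nat_lit 6928164))
(L (nat_lit 12280356)))
(L (nat_lit 11391365)))
(L (nat_lit 17063954)))
(L (nat_lit 25563506)))))
(L (nat_lit 25798765)))))
(S (nat_lit 36310) (S (nat_lit 4446) (S (nat_lit 6592) (S (nat_lit 13184) (S (nat_lit 4404) (S (nat_lit 21482) (L (nat_lit 30060550))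
(L (nat_lit 7930673)))
(L (nat_lit 7431825)))
(L (nat_lit 6873234)))
(S (nat_lit 26356) (S (nat_lit 25841) (S (nat_lit 30700) (S (nat_lit 35147) (L (nat_lit 15603059))
(L (nat_lit 30782514)))
(L (nat_lit 31130861)))
(S (nat_lit 52563) (L (nat_lit 6755251))
(L (nat_lit 8196716))))
(S (nat_lit 46120) (S (nat_lit 30700) (S (nat_lit 31931) (S (nat_lit 21989) (L (nat_lit 18115170))
(L (nat_lit 30527727)))
(L (nat_lit 12475776)))
(S (nat_lit 55688) (L (nat_lit 6874722))
(L (nat_lit 25040909))))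
(L (nat_lit 25270775)))))
(S (nat_lit 24210) (S (nat_lit 15362) (S (nat_lit 52181) (S (nat_lit 51) (S (nat_lit 50463) (S (nat_lit 56599) (L (nat_lit 21193743))
(L (nat_lit 15930131)))
(L (nat_lit 20814305)))
(L (nat_lit 26494656)))
(S (nat_lit 56146) (L (nat_lit 31167978))
(L (nat_lit 1435244))))
(S (nat_lit 35126) (S (nat_lit 7844) (S (nat_lit 31931) (L (nat_lit 18088569))
(L (nat_lit 30675564)))
(S (nat_lit 40858) (L (nat_lit 26684562))
(L (nat_lit 14550759))))
(S (nat_lit 54890) (S (nat_lit 21053) (S (nat_lit 21989) (S (nat_lit 36349) (S (nat_lit 22013) (S (nat_lit 52181) (S (nat_lit 36834) (S (nat_lit 36325) (S (nat_lit 26340) (S (nat_lit 51) (S (nat_lit 46120) (S (nat_lit 7844) (S (nat_lit 19765) (S (nat_lit 5657) (S (nat_lit 25907) (S (nat_lit 52196) (S (nat_lit 10986) (S (nat_lit 41261) (S (nat_lit 24986) (S (nat_lit 35552) (S (nat_lit 6415) (S (nat_lit 827) (S (nat_lit 45281) (S (nat_lit 51405) (S (nat_lit 50581) (S (nat_lit 5043)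 (S (nat_lit 24478) (D (nat_lit 14) (nat_lit 18630665) (nat_lit 2904365) (nat_lit 1226106098065375265))
(L (nat_lit 23994416)))
(L (nat_lit 29612453)))
(L (nat_lit 21902528)))
(L (nat_lit 24650813)))
(L (nat_lit 22914062)))
(L (nat_lit 28333577)))
(L (nat_lit 28628417)))
(L (nat_lit 22916608)))
(S (nat_lit 33120) (S (nat_lit 28248) (S (nat_lit 44262) (S (nat_lit 7687) (S (nat_lit 11401) (S (nat_lit 40861) (S (nat_lit 35738) (S (nat_lit 20854) (S (nat_lit 41442) (S (nat_lit 46319) (D (nat_lit 14) (nat_lit 15566131) (nat_lit 15490055) (nat_lit 36064051217826818))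
(L (nat_lit 24667427)))
(L (nat_lit 22485083)))
(L (nat_lit 29014086)))
(L (nat_lit 22508772)))
(L (nat_lit 19799427)))
(L (nat_lit 29989253)))
(L (nat_lit 27893125)))
(L (nat_lit 19805379)))
(L (nat_lit 27899075)))
(L (nat_lit 24227660))))
(L (nat_lit 27602966)))
(L (nat_lit 873927)))
(L (nat_lit 6722136)))
(L (nat_lit 21081006)))
(L (nat_lit 18902382)))
(L (nat_lit 21371928)))
(L (nat_lit 13950108)))
(L (nat_lit 12054083)))
(L (nat_lit 7455448)))
(L (nat_lit 24330017)))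
(L (nat_lit 12182017)))
(L (nat_lit 30675534)))
(L (nat_lit 7037998)))
(L (nat_lit 30900567)))
(L (nat_lit 11561548)))
(L (nat_lit 30805579)))
(S (nat_lit 47638) (L (nat_lit 7497139))
(L (nat_lit 21292416))))
(L (nat_lit 25243122)))))
(S (nat_lit 43974) (S (nat_lit 66) (S (nat_lit 52196) (S (nat_lit 28028) (L (nat_lit 13785926))
(L (nat_lit 25044049)))
(L (nat_lit 7229454)))
(S (nat_lit 19830) (S (nat_lit 18872) (S (nat_lit 36796) (L (nat_lit 21119229))
(L (nat_lit 30789644)))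
(S (nat_lit 30699) (S (nat_lit 46161) (S (nat_lit 1247) (S (nat_lit 51695) (L (nat_lit 5893423))
(L (nat_lit 22516487)))
(L (nat_lit 19357888)))
(L (nat_lit 22601952)))
(L (nat_lit 17715424))))
(S (nat_lit 39594) (S (nat_lit 12224) (S (nat_lit 5642) (L (nat_lit 30554791))
(L (nat_lit 18685632)))
(L (nat_lit 17913639)))
(L (nat_lit 25312562)))))
(L (nat_lit 25899015)))))
(S (nat_lit 56074) (S (nat_lit 15371) (S (nat_lit 5591) (S (nat_lit 26355) (S (nat_lit 56599) (S (nat_lit 10936) (L (nat_lit 21497641))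
(L (nat_lit 7079565)))
(L (nat_lit 6354513)))
(L (nat_lit 31011072)))
(S (nat_lit 25355) (S (nat_lit 15377) (S (nat_lit 45605) (S (nat_lit 17558) (L (nat_lit 2777642))
(L (nat_lit 6477212)))
(L (nat_lit 6943886)))
(L (nat_lit 6884764)))
(S (nat_lit 45119) (S (nat_lit 15377) (S (nat_lit 36349) (S (nat_lit 15383) (S (nat_lit 52196) (S (nat_lit 40817) (L (nat_lit 13817208))
(L (nat_lit 8208960)))
(L (nat_lit 1650200)))
(L (nat_lit 605994)))
(L (nat_lit 6885169)))
(L (nat_lit 26807851)))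
(L (nat_lit 25282119)))))
(S (nat_lit 35135) (S (nat_lit 52238) (S (nat_lit 30700) (S (nat_lit 21614) (L (nat_lit 21533944))
(S (nat_lit 36325) (S (nat_lit 54839) (S (nat_lit 28094) (S (nat_lit 25907) (S (nat_lit 41261) (L (nat_lit 18521144))
(L (nat_lit 8408536)))
(L (nat_lit 30809271)))
(L (nat_lit 31038640)))
(L (nat_lit 21436472)))
(L (nat_lit 7042225))))
(S (nat_lit 54480) (L (nat_lit 23323076))
(L (nat_lit 30907075))))
(L (nat_lit 20387928)))
(S (nat_lit 54899) (S (nat_lit 39058) (L (nat_lit 1916243))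
(S (nat_lit 56599) (S (nat_lit 10987) (S (nat_lit 57086) (S (nat_lit 48338) (S (nat_lit 15377) (L (nat_lit 16318682))
(L (nat_lit 6909005)))
(L (nat_lit 27760787)))
(L (nat_lit 21829772)))
(L (nat_lit 8244610)))
(L (nat_lit 1917511))))
(L (nat_lit 25517231)))))
(L (nat_lit 25493907)))))
(S (nat_lit 56559) (S (nat_lit 4447) (S (nat_lit 6591) (S (nat_lit 8786) (S (nat_lit 26783) (S (nat_lit 13160) (L (nat_lit 10343844))
(L (nat_lit 24395556)))
(S (nat_lit 27593) (S (nat_lit 7778) (S (nat_lit 30750) (L (nat_lit 26811938))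
(L (nat_lit 14249280)))
(L (nat_lit 13914914)))
(L (nat_lit 6883867))))
(S (nat_lit 28550) (S (nat_lit 56560) (S (nat_lit 15377) (L (nat_lit 29905063))
(L (nat_lit 15634123)))
(L (nat_lit 6381971)))
(S (nat_lit 48314) (S (nat_lit 12167) (S (nat_lit 45671) (L (nat_lit 28423911))
(L (nat_lit 7165102)))
(L (nat_lit 21771271)))
(L (nat_lit 25431571)))))
(S (nat_lit 26355) (S (nat_lit 16545) (S (nat_lit 56560) (S (nat_lit 35096) (L (nat_lit 22098727))
(L (nat_lit 30626341)))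
(L (nat_lit 16491296)))
(S (nat_lit 36309) (S (nat_lit 35126) (S (nat_lit 47843) (S (nat_lit 10936) (S (nat_lit 48338) (L (nat_lit 29037777))
(L (nat_lit 16109722)))
(L (nat_lit 15945786)))
(L (nat_lit 6882874)))
(L (nat_lit 30691503)))
(S (nat_lit 56073) (S (nat_lit 19740) (L (nat_lit 6940096))
(S (nat_lit 41261) (S (nat_lit 30750) (S (nat_lit 12167) (L (nat_lit 8515094))
(L (nat_lit 15992723)))
(L (nat_lit 19409696)))
(L (nat_lit 1390266))))
(L (nat_lit 25932938)))))
(S (nat_lit 46119) (S (nat_lit 10986) (S (nat_lit 7829) (S (nat_lit 56599) (S (nat_lit 52) (L (nat_lit 22177321))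
(L (nat_lit 6418996)))
(L (nat_lit 6911456)))
(L (nat_lit 26820896)))
(L (nat_lit 26808775)))
(L (nat_lit 25769062)))))
(S (nat_lit 24211) (S (nat_lit 10935) (S (nat_lit 4405) (S (nat_lit 31931) (S (nat_lit 6592) (S (nat_lit 10936) (S (nat_lit 52238) (L (nat_lit 4672361))
(L (nat_lit 20781601)))
(L (nat_lit 18057015)))
(L (nat_lit 1827087)))
(L (nat_lit 13978400)))
(S (nat_lit 24169) (S (nat_lit 26437) (L (nat_lit 21532986))
(S (nat_lit 46119) (S (nat_lit 66) (S (nat_lit 7844) (S (nat_lit 56560) (S (nat_lit 28574) (L (nat_lit 2693965))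
(L (nat_lit 19373860)))
(L (nat_lit 7262592)))
(L (nat_lit 21502784)))
(L (nat_lit 26563008)))
(L (nat_lit 22486141))))
(S (nat_lit 43933) (S (nat_lit 31931) (S (nat_lit 56560) (S (nat_lit 10936) (S (nat_lit 15332) (L (nat_lit 29413896))
(L (nat_lit 1537298)))
(L (nat_lit 15927095)))
(L (nat_lit 21862412)))
(S (nat_lit 41853) (L (nat_lit 7820315))
(L (nat_lit 17505058))))
(L (nat_lit 25461421)))))
(S (nat_lit 30699) (S (nat_lit 15377) (S (nat_lit 7829) (S (nat_lit 15332) (S (nat_lit 39594) (L (nat_lit 26792103))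
(L (nat_lit 17556736)))
(L (nat_lit 1817885)))
(L (nat_lit 4005429)))
(S (nat_lit 35141) (S (nat_lit 4390) (S (nat_lit 37298) (S (nat_lit 48338) (L (nat_lit 26663019))
(L (nat_lit 27414861)))
(L (nat_lit 9178676)))
(L (nat_lit 6869922)))
(S (nat_lit 54905) (S (nat_lit 27173) (L (nat_lit 16820858))
(S (nat_lit 47372) (S (nat_lit 36325) (S (nat_lit 43974) (L (nat_lit 18970055))
(L (nat_lit 27994657)))
(L (nat_lit 30967531)))
(L (nat_lit 22092688))))
(L (nat_lit 25349389)))))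
(S (nat_lit 50463) (S (nat_lit 15371) (S (nat_lit 15311) (S (nat_lit 46162) (S (nat_lit 36325) (L (nat_lit 21218212))
(L (nat_lit 6337277)))
(L (nat_lit 11690703)))
(L (nat_lit 22846477)))
(S (nat_lit 35135) (S (nat_lit 4404) (S (nat_lit 25421) (S (nat_lit 47372) (L (nat_lit 29433266))
(L (nat_lit 22578985)))
(L (nat_lit 14517897)))
(S (nat_lit 14512) (S (nat_lit 18619) (L (nat_lit 30876695))
(L (nat_lit 6908357)))
(L (nat_lit 433011))))
(S (nat_lit 54899) (S (nat_lit 10986) (S (nat_lit 57047) (S (nat_lit 36324) (S (nat_lit 45671) (L (nat_lit 12724984))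
(L (nat_lit 7164942)))
(L (nat_lit 6337365)))
(L (nat_lit 21225892)))
(L (nat_lit 1485432)))
(L (nat_lit 25320815)))))
(L (nat_lit 25379862)))))
(S (nat_lit 43975) (S (nat_lit 8330) (S (nat_lit 48299) (S (nat_lit 46162) (S (nat_lit 50514) (S (nat_lit 47357) (L (nat_lit 17371913))
(L (nat_lit 22407712)))
(L (nat_lit 12312751)))
(L (nat_lit 11690703)))
(L (nat_lit 20177444)))
(S (nat_lit 28094) (S (nat_lit 36325) (S (nat_lit 52238) (S (nat_lit 10986) (S (nat_lit 67) (L (nat_lit 12734812))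
(L (nat_lit 13344859)))
(L (nat_lit 1815431)))
(L (nat_lit 6704995)))
(L (nat_lit 1701323)))
(S (nat_lit 47858) (S (nat_lit 1733) (S (nat_lit 56560) (S (nat_lit 10986) (L (nat_lit 21823911))
(L (nat_lit 21262784)))
(L (nat_lit 6834361)))
(S (nat_lit 21497) (S (nat_lit 56112) (S (nat_lit 47357) (L (nat_lit 28941360))
(L (nat_lit 27862032)))
(L (nat_lit 27861008)))
(S (nat_lit 41261) (S (nat_lit 25907) (L (nat_lit 14488232))
(L (nat_lit 7758499)))
(L (nat_lit 25399766)))))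
(L (nat_lit 25868515)))))
(L (nat_lit 25499125)))))
(L (nat_lit 25481764)))))
(S (nat_lit 40760) (S (nat_lit 16584) (S (nat_lit 17032) (S (nat_lit 2210) (S (nat_lit 16560) (S (nat_lit 3615) (L (nat_lit 9242320))
(S (nat_lit 39595) (S (nat_lit 4390) (S (nat_lit 8786) (L (nat_lit 4629082))
(L (nat_lit 26790085)))
(L (nat_lit 6305717)))
(L (nat_lit 24277294))))
(S (nat_lit 36324) (S (nat_lit 41246) (S (nat_lit 37322) (S (nat_lit 11002) (S (nat_lit 15332) (L (nat_lit 15276869))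
(L (nat_lit 22573349)))
(L (nat_lit 26853635)))
(L (nat_lit 10055820)))
(L (nat_lit 17425512)))
(S (nat_lit 56088) (S (nat_lit 30700) (S (nat_lit 39595) (S (nat_lit 17070) (L (nat_lit 30117132))
(L (nat_lit 17716484)))
(L (nat_lit 11038805)))
(L (nat_lit 16975576)))
(L (nat_lit 25570981)))))
(S (nat_lit 21974) (S (nat_lit 16561) (S (nat_lit 27542) (S (nat_lit 17071) (L (nat_lit 26416563))
(L (nat_lit 17704054)))
(L (nat_lit 24518777)))
(S (nat_lit 36325) (S (nat_lit 46119) (S (nat_lit 56599) (L (nat_lit 4408211))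
(L (nat_lit 1655562)))
(L (nat_lit 17368966)))
(S (nat_lit 56089) (S (nat_lit 35135) (S (nat_lit 56599) (S (nat_lit 8330) (L (nat_lit 29643168))
(L (nat_lit 23993793)))
(L (nat_lit 27712773)))
(S (nat_lit 44724) (L (nat_lit 3372563))
(L (nat_lit 2716074))))
(L (nat_lit 25221574)))))
(S (nat_lit 41738) (S (nat_lit 1247) (S (nat_lit 15347) (S (nat_lit 45185) (L (nat_lit 29994400))
(L (nat_lit 24348460)))
(L (nat_lit 25014500)))
(S (nat_lit 21011) (S (nat_lit 46104) (S (nat_lit 41246) (L (nat_lit 14904896))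
(L (nat_lit 6438678)))
(L (nat_lit 17670753)))
(S (nat_lit 40775) (S (nat_lit 45671) (S (nat_lit 16546) (S (nat_lit 54860) (L (nat_lit 28915782))
(L (nat_lit 27472978)))
(L (nat_lit 24913041)))
(L (nat_lit 24327352)))
(L (nat_lit 25539734)))))
(L (nat_lit 25648234)))))
(S (nat_lit 36796) (S (nat_lit 16546) (S (nat_lit 17031) (S (nat_lit 30700) (S (nat_lit 27542) (S (nat_lit 25421) (L (nat_lit 13947067))
(L (nat_lit 17555810)))
(L (nat_lit 30750402)))
(L (nat_lit 17701938)))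
(S (nat_lit 36795) (S (nat_lit 54860) (S (nat_lit 51695) (S (nat_lit 26398) (L (nat_lit 24683328))
(L (nat_lit 24667363)))
(L (nat_lit 20879744)))
(L (nat_lit 11035237)))
(S (nat_lit 56559) (S (nat_lit 46104) (S (nat_lit 15332) (L (nat_lit 28391018))
(L (nat_lit 7893700)))
(L (nat_lit 17664615)))
(L (nat_lit 25544880)))))
(S (nat_lit 36310) (S (nat_lit 15311) (S (nat_lit 12965) (L (nat_lit 5693191))
(S (nat_lit 26397) (S (nat_lit 45170) (L (nat_lit 4896583))
(L (nat_lit 24641784)))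
(L (nat_lit 24306924))))
(S (nat_lit 35075) (S (nat_lit 42858) (L (nat_lit 20452600))
(S (nat_lit 56559) (S (nat_lit 19830) (S (nat_lit 10935) (S (nat_lit 43933) (L (nat_lit 323061))
(L (nat_lit 23494972)))
(L (nat_lit 21225487)))
(L (nat_lit 2938343)))
(L (nat_lit 2005614))))
(S (nat_lit 54839) (S (nat_lit 30700) (S (nat_lit 56599) (S (nat_lit 17031) (S (nat_lit 25907) (L (nat_lit 30489847))
(L (nat_lit 30802262)))
(L (nat_lit 16851577)))
(L (nat_lit 14439621)))
(L (nat_lit 24124920)))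
(L (nat_lit 25861573)))))
(S (nat_lit 56074) (S (nat_lit 1) (S (nat_lit 21125) (S (nat_lit 15311) (L (nat_lit 213625))
(L (nat_lit 17556677)))
(S (nat_lit 40817) (S (nat_lit 32924) (S (nat_lit 28550) (S (nat_lit 21539) (L (nat_lit 26821674))
(L (nat_lit 7464529)))
(L (nat_lit 12903108)))
(L (nat_lit 10243460)))
(L (nat_lit 24142215))))
(S (nat_lit 19765) (S (nat_lit 21974) (S (nat_lit 26340) (S (nat_lit 30700) (S (nat_lit 54839) (S (nat_lit 32417) (L (nat_lit 28335526))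
(L (nat_lit 31129990)))
(L (nat_lit 19775684)))
(L (nat_lit 17505304)))
(L (nat_lit 25050279)))
(L (nat_lit 10085765)))
(S (nat_lit 39529) (S (nat_lit 35075) (S (nat_lit 30751) (S (nat_lit 15383) (L (nat_lit 13783943))
(L (nat_lit 25040079)))
(L (nat_lit 8480365)))
(L (nat_lit 23267213)))
(L (nat_lit 25381250)))))
(L (nat_lit 25631798)))))
(S (nat_lit 56560) (S (nat_lit 5657) (S (nat_lit 32098) (S (nat_lit 26355) (L (nat_lit 14291783))
(L (nat_lit 19836999)))
(S (nat_lit 56599) (S (nat_lit 66) (S (nat_lit 31988) (S (nat_lit 5591) (S (nat_lit 24210) (S (nat_lit 21826) (S (nat_lit 21989) (S (nat_lit 26397) (S (nat_lit 11377) (S (nat_lit 30700) (L (nat_lit 16918170))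
(L (nat_lit 30971954)))
(L (nat_lit 29958688)))
(L (nat_lit 3784956)))
(L (nat_lit 18797610)))
(L (nat_lit 9360494)))
(L (nat_lit 22853824)))
(L (nat_lit 20210208)))
(L (nat_lit 16865097)))
(L (nat_lit 19839264)))
(L (nat_lit 27317671))))
(S (nat_lit 25421) (S (nat_lit 31931) (S (nat_lit 56599) (S (nat_lit 41303) (S (nat_lit 6591) (S (nat_lit 7778) (S (nat_lit 37298) (S (nat_lit 39595) (S (nat_lit 56089) (S (nat_lit 30751) (S (nat_lit 21901) (S (nat_lit 43407) (S (nat_lit 11097) (S (nat_lit 47776) (S (nat_lit 8926) (S (nat_lit 1311) (S (nat_lit 32356) (D (nat_lit 16) (nat_lit 12322413) (nat_lit 25680064) (nat_lit 1226140183998562368))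
(L (nat_lit 16329541)))
(L (nat_lit 11659981)))
(L (nat_lit 29574819)))
(L (nat_lit 29641152)))
(L (nat_lit 12341792)))
(L (nat_lit 29623888)))
(L (nat_lit 29760163)))
(L (nat_lit 8509296)))
(L (nat_lit 27892161)))
(L (nat_lit 4760217)))
(L (nat_lit 17429700)))
(L (nat_lit 21312256)))
(L (nat_lit 6383180)))
(L (nat_lit 3924358)))
(L (nat_lit 1655562)))
(L (nat_lit 17647904)))
(S (nat_lit 45185) (S (nat_lit 46119) (S (nat_lit 7778) (S (nat_lit 31931) (S (nat_lit 24168) (S (nat_lit 48299) (S (nat_lit 40775) (S (nat_lit 39595) (S (nat_lit 50463) (S (nat_lit 57120) (L (nat_lit 5807804))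
(L (nat_lit 24277383)))
(L (nat_lit 15572672)))
(L (nat_lit 24459385)))
(L (nat_lit 24948928)))
(L (nat_lit 15979640)))
(L (nat_lit 22446855)))
(L (nat_lit 19738048)))
(L (nat_lit 13914912)))
(L (nat_lit 12047136)))
(L (nat_lit 25245353)))))
(L (nat_lit 25708711)))))
(S (nat_lit 36348) (S (nat_lit 4447) (S (nat_lit 7778) (S (nat_lit 13184) (S (nat_lit 1) (S (nat_lit 36349) (S (nat_lit 52196) (L (nat_lit 14423283))
(L (nat_lit 6911489)))
(L (nat_lit 6723160)))
(S (nat_lit 19702) (L (nat_lit 400149))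
(L (nat_lit 1303956))))
(S (nat_lit 32948) (S (nat_lit 7829) (S (nat_lit 56599) (S (nat_lit 32924) (L (nat_lit 17737751))
(L (nat_lit 10089520)))
(L (nat_lit 15930131)))
(S (nat_lit 31042) (L (nat_lit 7112247))
(L (nat_lit 4019440))))
(S (nat_lit 52712) (S (nat_lit 52688) (S (nat_lit 36309) (S (nat_lit 47843) (S (nat_lit 47858) (L (nat_lit 3422937))
(L (nat_lit 17563987)))
(L (nat_lit 6884922)))
(L (nat_lit 6410650)))
(L (nat_lit 18572517)))
(L (nat_lit 25495184)))))
(S (nat_lit 27542) (S (nat_lit 10935) (S (nat_lit 1) (S (nat_lit 51695) (S (nat_lit 26398) (L (nat_lit 14439431))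
(L (nat_lit 30954722)))
(L (nat_lit 20050158)))
(S (nat_lit 51801) (L (nat_lit 16904434))
(L (nat_lit 1500777))))
(S (nat_lit 31132) (L (nat_lit 6789046))
(L (nat_lit 6347256))))
(S (nat_lit 47306) (S (nat_lit 15383) (S (nat_lit 10987) (S (nat_lit 32432) (S (nat_lit 36834) (S (nat_lit 4405) (S (nat_lit 41246) (S (nat_lit 52673) (L (nat_lit 26838256))
(L (nat_lit 21927217)))
(L (nat_lit 6743094)))
(L (nat_lit 7177748)))
(L (nat_lit 18420585)))
(L (nat_lit 7795425)))
(L (nat_lit 7958915)))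
(S (nat_lit 35147) (S (nat_lit 56089) (S (nat_lit 50514) (S (nat_lit 7829) (S (nat_lit 8786) (L (nat_lit 29544999))
(L (nat_lit 8106044)))
(L (nat_lit 12972115)))
(L (nat_lit 20852096)))
(L (nat_lit 651532)))
(S (nat_lit 54911) (S (nat_lit 37283) (S (nat_lit 36349) (S (nat_lit 2225) (L (nat_lit 18799690))
(L (nat_lit 17637956)))
(L (nat_lit 20352870)))
(L (nat_lit 17012441)))
(L (nat_lit 25677866)))))
(L (nat_lit 25433491)))))
(S (nat_lit 24211) (S (nat_lit 12224) (S (nat_lit 13160) (S (nat_lit 15311) (S (nat_lit 15371) (S (nat_lit 6634) (S (nat_lit 6633) (L (nat_lit 24295641))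
(L (nat_lit 13235424)))
(L (nat_lit 26853602)))
(L (nat_lit 14865756)))
(L (nat_lit 1269276)))
(S (nat_lit 32924) (L (nat_lit 8843282))
(S (nat_lit 52688) (S (nat_lit 47858) (L (nat_lit 3661112))
(L (nat_lit 17039960)))
(L (nat_lit 25464244)))))
(S (nat_lit 31988) (S (nat_lit 8810) (S (nat_lit 5591) (L (nat_lit 8992793))
(L (nat_lit 26819904)))
(S (nat_lit 28574) (S (nat_lit 8492) (L (nat_lit 639911))
(S (nat_lit 28094) (S (nat_lit 56575) (S (nat_lit 13160) (S (nat_lit 46104) (L (nat_lit 2826681))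
(L (nat_lit 17685824)))
(L (nat_lit 6929156)))
(L (nat_lit 7116310)))
(L (nat_lit 30671315))))
(S (nat_lit 48338) (S (nat_lit 7844) (S (nat_lit 56575) (S (nat_lit 32474) (L (nat_lit 5085685))
(L (nat_lit 14345569)))
(L (nat_lit 27896256)))
(S (nat_lit 43866) (L (nat_lit 24207783))
(L (nat_lit 13724231))))
(L (nat_lit 25311571)))))
(S (nat_lit 51752) (S (nat_lit 8264) (S (nat_lit 32924) (S (nat_lit 36482) (L (nat_lit 13955091))
(L (nat_lit 10402405)))
(L (nat_lit 10084400)))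
(S (nat_lit 28028) (S (nat_lit 55765) (L (nat_lit 20310432))
(S (nat_lit 56089) (S (nat_lit 11001) (S (nat_lit 43918) (L (nat_lit 28826912))
(L (nat_lit 27775145)))
(L (nat_lit 7760449)))
(L (nat_lit 629276))))
(S (nat_lit 47792) (S (nat_lit 30593) (L (nat_lit 635193))
(S (nat_lit 46104) (S (nat_lit 16560) (S (nat_lit 8810) (S (nat_lit 56089) (L (nat_lit 29964454))
(L (nat_lit 651596)))
(L (nat_lit 6743221)))
(L (nat_lit 22419576)))
(L (nat_lit 22908269))))
(L (nat_lit 25896323)))))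
(L (nat_lit 25863278)))))
(S (nat_lit 43975) (S (nat_lit 1733) (S (nat_lit 17708) (S (nat_lit 11056) (L (nat_lit 18088791))
(L (nat_lit 10208099)))
(S (nat_lit 46162) (S (nat_lit 6143) (S (nat_lit 21989) (S (nat_lit 56089) (S (nat_lit 56559) (L (nat_lit 5906906))
(L (nat_lit 13787477)))
(L (nat_lit 651723)))
(L (nat_lit 22818826)))
(L (nat_lit 10175331)))
(L (nat_lit 12161468))))
(S (nat_lit 21497) (S (nat_lit 1554) (L (nat_lit 18108473))
(S (nat_lit 21989) (S (nat_lit 56089) (S (nat_lit 19831) (S (nat_lit 6143) (S (nat_lit 56599) (L (nat_lit 28811315))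
(L (nat_lit 16526912)))
(L (nat_lit 10175331)))
(L (nat_lit 22553347)))
(L (nat_lit 10072249)))
(L (nat_lit 2511065))))
(S (nat_lit 41261) (S (nat_lit 17534) (S (nat_lit 5029) (L (nat_lit 12840019))
(S (nat_lit 15311) (S (nat_lit 28574) (S (nat_lit 36795) (L (nat_lit 13275485))
(L (nat_lit 17912156)))
(L (nat_lit 10074917)))
(L (nat_lit 24943629))))
(S (nat_lit 37298) (S (nat_lit 56599) (S (nat_lit 15311) (S (nat_lit 25892) (L (nat_lit 16801080))
(L (nat_lit 17438779)))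
(L (nat_lit 7887932)))
(L (nat_lit 1851978)))
(S (nat_lit 57062) (S (nat_lit 32474) (S (nat_lit 21989) (S (nat_lit 19831) (S (nat_lit 56599) (S (nat_lit 46162) (S (nat_lit 36795) (L (nat_lit 6045320))
(L (nat_lit 8195694)))
(L (nat_lit 4575086)))
(L (nat_lit 6720089)))
(L (nat_lit 15573634)))
(L (nat_lit 13300778)))
(S (nat_lit 48954) (L (nat_lit 16801080))
(L (nat_lit 24950856))))
(L (nat_lit 25600018)))))
(L (nat_lit 25513411)))))
(L (nat_lit 25581794)))))
(S (nat_lit 56112) (S (nat_lit 17558) (S (nat_lit 1247) (S (nat_lit 15371) (S (nat_lit 36835) (S (nat_lit 10986) (L (nat_lit 13178663))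
(L (nat_lit 618831)))
(L (nat_lit 7788384)))
(S (nat_lit 35135) (S (nat_lit 35141) (S (nat_lit 41246) (S (nat_lit 54839) (L (nat_lit 29611397))
(L (nat_lit 21218212)))
(L (nat_lit 6881816)))
(L (nat_lit 13197604)))
(S (nat_lit 54899) (S (nat_lit 56599) (S (nat_lit 35075) (S (nat_lit 22013) (S (nat_lit 56113) (L (nat_lit 447768))
(L (nat_lit 7362044)))
(L (nat_lit 22921572)))
(L (nat_lit 9492303)))
(L (nat_lit 27864108)))
(L (nat_lit 25548196)))))
(S (nat_lit 21011) (S (nat_lit 10935) (S (nat_lit 25295) (L (nat_lit 3359387))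
(S (nat_lit 56599) (S (nat_lit 56285) (S (nat_lit 56755) (L (nat_lit 10032697))
(L (nat_lit 7787708)))
(L (nat_lit 7959013)))
(L (nat_lit 16328448))))
(S (nat_lit 30699) (S (nat_lit 8810) (S (nat_lit 24168) (L (nat_lit 21808167))
(L (nat_lit 10389135)))
(L (nat_lit 7833523)))
(S (nat_lit 50463) (S (nat_lit 46119) (L (nat_lit 24278471))
(L (nat_lit 27375335)))
(L (nat_lit 25214164)))))
(S (nat_lit 40775) (S (nat_lit 15383) (S (nat_lit 1) (S (nat_lit 56599) (S (nat_lit 41246) (S (nat_lit 45605) (S (nat_lit 56598) (S (nat_lit 41777) (L (nat_lit 7990656))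
(L (nat_lit 24910991)))
(L (nat_lit 16329787)))
(L (nat_lit 1668396)))
(L (nat_lit 6881816)))
(L (nat_lit 27869376)))
(L (nat_lit 418005)))
(L (nat_lit 963796)))
(L (nat_lit 25217511)))))
(S (nat_lit 37322) (S (nat_lit 6591) (S (nat_lit 56113) (S (nat_lit 25841) (S (nat_lit 6592) (S (nat_lit 7829) (S (nat_lit 54905) (S (nat_lit 56599) (S (nat_lit 32432) (L (nat_lit 28543727))
(L (nat_lit 11080121)))
(L (nat_lit 16323402)))
(L (nat_lit 12141656)))
(L (nat_lit 14505250)))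
(L (nat_lit 597870)))
(L (nat_lit 7934521)))
(L (nat_lit 10041369)))
(S (nat_lit 26355) (S (nat_lit 56599) (S (nat_lit 6077) (L (nat_lit 28910766))
(L (nat_lit 10031886)))
(L (nat_lit 14251205)))
(S (nat_lit 46119) (S (nat_lit 15311) (S (nat_lit 36835) (S (nat_lit 17070) (L (nat_lit 9007488))
(L (nat_lit 2711979)))
(L (nat_lit 8012576)))
(S (nat_lit 35075) (S (nat_lit 4404) (S (nat_lit 50464) (S (nat_lit 13184) (L (nat_lit 1299216))
(L (nat_lit 6816690)))
(L (nat_lit 20421657)))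
(L (nat_lit 17931123)))
(S (nat_lit 54839) (S (nat_lit 32924) (S (nat_lit 37283) (S (nat_lit 54875) (L (nat_lit 17598187))
(L (nat_lit 27828965)))
(L (nat_lit 13690132)))
(L (nat_lit 10237970)))
(L (nat_lit 25410277)))))
(L (nat_lit 25931846)))))
(S (nat_lit 57086) (S (nat_lit 10987) (S (nat_lit 6077) (S (nat_lit 36834) (S (nat_lit 21974) (S (nat_lit 19765) (L (nat_lit 29955496))
(L (nat_lit 2716072)))
(L (nat_lit 13198410)))
(L (nat_lit 7956898)))
(L (nat_lit 12149838)))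
(L (nat_lit 16329882)))
(L (nat_lit 25320842)))))
(L (nat_lit 25831438)))))
(L (nat_lit 25762304)))))
(S (nat_lit 51710) (S (nat_lit 16545) (S (nat_lit 8315) (S (nat_lit 6591) (S (nat_lit 6077) (S (nat_lit 27593) (S (nat_lit 30751) (S (nat_lit 37322) (S (nat_lit 41303) (S (nat_lit 4446) (L (nat_lit 4998355))
(L (nat_lit 7804536)))
(L (nat_lit 8446576)))
(L (nat_lit 17373989)))
(L (nat_lit 9515826)))
(S (nat_lit 39893) (L (nat_lit 26459841))
(L (nat_lit 19343136))))
(S (nat_lit 25841) (S (nat_lit 6143) (S (nat_lit 56113) (S (nat_lit 10935) (S (nat_lit 50530) (S (nat_lit 24210) (L (nat_lit 26710598))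
(L (nat_lit 22504672)))
(L (nat_lit 22200633)))
(S (nat_lit 51849) (L (nat_lit 17506490))
(L (nat_lit 26942513))))
(L (nat_lit 27869409)))
(S (nat_lit 25907) (S (nat_lit 1545) (L (nat_lit 15532679))
(S (nat_lit 24210) (S (nat_lit 25287) (L (nat_lit 26498595))
(S (nat_lit 46120) (S (nat_lit 6576) (S (nat_lit 56074) (S (nat_lit 32909) (L (nat_lit 15439750))
(L (nat_lit 30425364)))
(L (nat_lit 13894361)))
(L (nat_lit 21806400)))
(L (nat_lit 11424195))))
(L (nat_lit 22851104))))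
(S (nat_lit 45671) (S (nat_lit 56113) (S (nat_lit 10935) (S (nat_lit 36310) (S (nat_lit 40775) (S (nat_lit 52181) (L (nat_lit 22191980))
(L (nat_lit 13329510)))
(L (nat_lit 18041728)))
(L (nat_lit 12013624)))
(L (nat_lit 21806273)))
(L (nat_lit 27869473)))
(L (nat_lit 25629942)))))
(S (nat_lit 45605) (S (nat_lit 13145) (S (nat_lit 36835) (S (nat_lit 10987) (L (nat_lit 5849958))
(L (nat_lit 1944983)))
(L (nat_lit 12703594)))
(S (nat_lit 32909) (S (nat_lit 8330) (L (nat_lit 3592573))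
(L (nat_lit 13847395)))
(S (nat_lit 52673) (S (nat_lit 19765) (S (nat_lit 6576) (L (nat_lit 22513447))
(L (nat_lit 6307448)))
(L (nat_lit 21214264)))
(L (nat_lit 25381317)))))
(L (nat_lit 25314888)))))
(S (nat_lit 26355) (S (nat_lit 8810) (S (nat_lit 6128) (S (nat_lit 56559) (S (nat_lit 19765) (S (nat_lit 36324) (L (nat_lit 26352023))
(L (nat_lit 6850234)))
(L (nat_lit 21365981)))
(L (nat_lit 19339293)))
(S (nat_lit 25892) (S (nat_lit 1775) (S (nat_lit 12167) (S (nat_lit 17032) (S (nat_lit 6576) (L (nat_lit 13693511))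
(L (nat_lit 21203513)))
(L (nat_lit 26903946)))
(L (nat_lit 21797312)))
(S (nat_lit 53526) (L (nat_lit 24478269))
(L (nat_lit 13671037))))
(S (nat_lit 45656) (S (nat_lit 28550) (S (nat_lit 50464) (L (nat_lit 15295622))
(L (nat_lit 15637187)))
(S (nat_lit 42381) (L (nat_lit 28911072))
(L (nat_lit 2712074))))
(L (nat_lit 25693896)))))
(S (nat_lit 28574) (S (nat_lit 6634) (S (nat_lit 27657) (L (nat_lit 6750842))
(S (nat_lit 36795) (S (nat_lit 6143) (L (nat_lit 30887944))
(L (nat_lit 2577256)))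
(L (nat_lit 760220))))
(S (nat_lit 26398) (S (nat_lit 21053) (S (nat_lit 21497) (L (nat_lit 10015833))
(L (nat_lit 22540609)))
(L (nat_lit 15507042)))
(S (nat_lit 46162) (S (nat_lit 35135) (S (nat_lit 37283) (S (nat_lit 32924) (S (nat_lit 56074) (L (nat_lit 246393))
(L (nat_lit 2576764)))
(L (nat_lit 2586347)))
(L (nat_lit 8403675)))
(L (nat_lit 10028911)))
(L (nat_lit 25793774)))))
(S (nat_lit 48338) (S (nat_lit 12710) (S (nat_lit 51) (S (nat_lit 4446) (L (nat_lit 4478360))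
(L (nat_lit 20411585)))
(L (nat_lit 20214925)))
(S (nat_lit 32474) (S (nat_lit 47000) (L (nat_lit 19727786))
(S (nat_lit 56560) (S (nat_lit 24154) (S (nat_lit 40760) (S (nat_lit 46162) (L (nat_lit 8500085))
(L (nat_lit 22364220)))
(L (nat_lit 24020519)))
(L (nat_lit 17370984)))
(L (nat_lit 16616787))))
(S (nat_lit 52238) (S (nat_lit 32924) (S (nat_lit 41303) (S (nat_lit 56113) (S (nat_lit 22013) (S (nat_lit 28094) (L (nat_lit 8109117))
(L (nat_lit 14906387)))
(L (nat_lit 9209549)))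
(L (nat_lit 27561395)))
(L (nat_lit 7015864)))
(L (nat_lit 8871986)))
(L (nat_lit 25220582)))))
(L (nat_lit 25336309)))))
(S (nat_lit 46119) (S (nat_lit 6592) (S (nat_lit 66) (S (nat_lit 15311) (S (nat_lit 17031) (S (nat_lit 43974) (L (nat_lit 29590967))
(L (nat_lit 15444029)))
(L (nat_lit 4510574)))
(S (nat_lit 52520) (L (nat_lit 22872334))
(L (nat_lit 7800626))))
(S (nat_lit 19830) (S (nat_lit 21974) (S (nat_lit 6143) (S (nat_lit 47858) (S (nat_lit 24169) (S (nat_lit 25421) (L (nat_lit 23075757))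
(L (nat_lit 21460160)))
(L (nat_lit 22310992)))
(L (nat_lit 22308289)))
(L (nat_lit 9917249)))
(L (nat_lit 10302582)))
(S (nat_lit 39594) (S (nat_lit 1232) (S (nat_lit 1247) (L (nat_lit 19051741))
(L (nat_lit 20821344)))
(L (nat_lit 12931165)))
(L (nat_lit 25901345)))))
(S (nat_lit 26356) (S (nat_lit 11001) (S (nat_lit 4801) (L (nat_lit 31002829))
(S (nat_lit 20996) (S (nat_lit 45671) (S (nat_lit 30750) (L (nat_lit 13173018))
(L (nat_lit 8993569)))
(L (nat_lit 24393507)))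
(L (nat_lit 15299872))))
(S (nat_lit 30765) (S (nat_lit 10935) (S (nat_lit 43932) (L (nat_lit 15277985))
(L (nat_lit 24943697)))
(L (nat_lit 26942511)))
(S (nat_lit 50529) (S (nat_lit 39529) (S (nat_lit 28094) (L (nat_lit 15822443))
(L (nat_lit 14743272)))
(L (nat_lit 17374268)))
(L (nat_lit 25543393)))))
(S (nat_lit 46120) (S (nat_lit 17047) (S (nat_lit 20608) (L (nat_lit 24582949))
(S (nat_lit 47858) (S (nat_lit 47372) (S (nat_lit 24154) (L (nat_lit 10061210))
(L (nat_lit 22219565)))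
(L (nat_lit 22027057)))
(L (nat_lit 17564390))))
(S (nat_lit 36811) (S (nat_lit 21482) (S (nat_lit 51752) (S (nat_lit 28550) (L (nat_lit 17965939))
(L (nat_lit 30805203)))
(L (nat_lit 20782624)))
(L (nat_lit 7754593)))
(S (nat_lit 56575) (S (nat_lit 7844) (S (nat_lit 32948) (S (nat_lit 27593) (L (nat_lit 2700604))
(L (nat_lit 31006208)))
(L (nat_lit 20742666)))
(S (nat_lit 50195) (L (nat_lit 16381066))
(L (nat_lit 12610931))))
(L (nat_lit 25793991)))))
(L (nat_lit 25244393)))))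
(L (nat_lit 25927104)))))
(S (nat_lit 28079) (S (nat_lit 15383) (S (nat_lit 15347) (S (nat_lit 51) (S (nat_lit 8786) (S (nat_lit 15362) (S (nat_lit 52196) (S (nat_lit 28028) (L (nat_lit 22113645))
(L (nat_lit 14979803)))
(L (nat_lit 13182755)))
(L (nat_lit 15005252)))
(L (nat_lit 17558724)))
(S (nat_lit 19815) (S (nat_lit 15311) (S (nat_lit 39529) (L (nat_lit 26746931))
(L (nat_lit 17001524)))
(L (nat_lit 466738)))
(S (nat_lit 39579) (S (nat_lit 41303) (S (nat_lit 17071) (L (nat_lit 513834))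
(L (nat_lit 15639603)))
(L (nat_lit 24985955)))
(L (nat_lit 25681030)))))
(S (nat_lit 35111) (S (nat_lit 16546) (S (nat_lit 43974) (S (nat_lit 28550) (L (nat_lit 423123))
(L (nat_lit 9198639)))
(L (nat_lit 15471826)))
(S (nat_lit 36310) (S (nat_lit 24210) (L (nat_lit 20100314))
(L (nat_lit 13986867)))
(S (nat_lit 56074) (S (nat_lit 43975) (S (nat_lit 21482) (S (nat_lit 10935) (L (nat_lit 19828941))
(L (nat_lit 26726593)))
(L (nat_lit 15618243)))
(L (nat_lit 13380661)))
(L (nat_lit 25854347)))))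
(S (nat_lit 54875) (S (nat_lit 2249) (S (nat_lit 21989) (S (nat_lit 6591) (S (nat_lit 52196) (S (nat_lit 10987) (L (nat_lit 1655624))
(L (nat_lit 7960003)))
(L (nat_lit 14937825)))
(L (nat_lit 498548)))
(S (nat_lit 53482) (S (nat_lit 36835) (L (nat_lit 30465229))
(L (nat_lit 8182828)))
(L (nat_lit 22987973))))
(S (nat_lit 22013) (S (nat_lit 21989) (S (nat_lit 16560) (S (nat_lit 16584) (S (nat_lit 19816) (S (nat_lit 35126) (L (nat_lit 31004071))
(L (nat_lit 18558821)))
(L (nat_lit 9952034)))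
(L (nat_lit 22986981)))
(L (nat_lit 22244805)))
(S (nat_lit 44869) (L (nat_lit 22145265))
(L (nat_lit 22416601))))
(S (nat_lit 41777) (S (nat_lit 3281) (L (nat_lit 9260079))
(S (nat_lit 50464) (S (nat_lit 17031) (S (nat_lit 46104) (S (nat_lit 8786) (L (nat_lit 18646258))
(L (nat_lit 14969875)))
(L (nat_lit 27305645)))
(L (nat_lit 24254873)))
(L (nat_lit 22037724))))
(L (nat_lit 25936196)))))
(L (nat_lit 25241261)))))
(S (nat_lit 35147) (S (nat_lit 6633) (S (nat_lit 13184) (S (nat_lit 22592) (L (nat_lit 617898))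
(S (nat_lit 27593) (S (nat_lit 36835) (S (nat_lit 56112) (S (nat_lit 10936) (L (nat_lit 17979146))
(L (nat_lit 802002)))
(L (nat_lit 8148389)))
(L (nat_lit 7947045)))
(L (nat_lit 16089721))))
(S (nat_lit 32948) (S (nat_lit 34486) (L (nat_lit 16479270))
(S (nat_lit 56560) (S (nat_lit 7778) (S (nat_lit 20996) (L (nat_lit 1911219))
(L (nat_lit 15309600)))
(L (nat_lit 21801137)))
(L (nat_lit 6436659))))
(S (nat_lit 52712) (S (nat_lit 27593) (S (nat_lit 52196) (S (nat_lit 17031) (S (nat_lit 45671) (S (nat_lit 10936) (L (nat_lit 512344))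
(L (nat_lit 8143895)))
(L (nat_lit 13379607)))
(L (nat_lit 24949931)))
(L (nat_lit 6309781)))
(S (nat_lit 31056) (L (nat_lit 9160483))
(L (nat_lit 1656679))))
(L (nat_lit 25337394)))))
(S (nat_lit 26397) (S (nat_lit 4404) (S (nat_lit 17070) (S (nat_lit 36310) (L (nat_lit 8906805))
(L (nat_lit 31169580)))
(L (nat_lit 24568875)))
(S (nat_lit 24168) (S (nat_lit 8771) (S (nat_lit 25892) (S (nat_lit 26398) (L (nat_lit 28451223))
(L (nat_lit 15509559)))
(L (nat_lit 21163212)))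
(L (nat_lit 14929765)))
(S (nat_lit 43932) (S (nat_lit 25421) (S (nat_lit 52196) (L (nat_lit 3971605))
(L (nat_lit 14872134)))
(S (nat_lit 56157) (L (nat_lit 17065013))
(L (nat_lit 22911392))))
(L (nat_lit 25443411)))))
(S (nat_lit 46161) (S (nat_lit 13145) (S (nat_lit 25892) (S (nat_lit 16561) (S (nat_lit 7778) (L (nat_lit 28554949))
(L (nat_lit 3985831)))
(L (nat_lit 26854657)))
(L (nat_lit 22045902)))
(S (nat_lit 32909) (S (nat_lit 16617) (L (nat_lit 8580500))
(S (nat_lit 17031) (S (nat_lit 41777) (S (nat_lit 52196) (S (nat_lit 15311) (L (nat_lit 12743367))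
(L (nat_lit 17032869)))
(L (nat_lit 19953158)))
(L (nat_lit 27443914)))
(L (nat_lit 12322197))))
(S (nat_lit 52673) (S (nat_lit 27593) (S (nat_lit 43974) (L (nat_lit 640217))
(L (nat_lit 10674033)))
(L (nat_lit 15277920)))
(L (nat_lit 25612395)))))
(L (nat_lit 25341644)))))
(S (nat_lit 54911) (S (nat_lit 10935) (S (nat_lit 11001) (S (nat_lit 8786) (S (nat_lit 17519) (S (nat_lit 26355) (L (nat_lit 1646413))
(L (nat_lit 30907969)))
(L (nat_lit 7903090)))
(S (nat_lit 55758) (L (nat_lit 404338))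
(L (nat_lit 421077))))
(S (nat_lit 30765) (S (nat_lit 43975) (S (nat_lit 36835) (S (nat_lit 52181) (S (nat_lit 27593) (S (nat_lit 56162) (L (nat_lit 15013625))
(L (nat_lit 22855720)))
(L (nat_lit 19073841)))
(L (nat_lit 27411110)))
(L (nat_lit 13201664)))
(S (nat_lit 48193) (L (nat_lit 794289))
(L (nat_lit 15065698))))
(S (nat_lit 50529) (S (nat_lit 7711) (L (nat_lit 7467632))
(S (nat_lit 25892) (S (nat_lit 56560) (S (nat_lit 1718) (L (nat_lit 29603524))
(L (nat_lit 13390081)))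
(L (nat_lit 28018215)))
(L (nat_lit 17587238))))
(L (nat_lit 25338388)))))
(S (nat_lit 30699) (S (nat_lit 5642) (S (nat_lit 27593) (S (nat_lit 46161) (L (nat_lit 2020742))
(L (nat_lit 22365024)))
(L (nat_lit 18924327)))
(S (nat_lit 25406) (S (nat_lit 27593) (S (nat_lit 52196) (S (nat_lit 46162) (S (nat_lit 8786) (S (nat_lit 26340) (S (nat_lit 36835) (L (nat_lit 27856081))
(L (nat_lit 30456391)))
(L (nat_lit 30624256)))
(L (nat_lit 7956527)))
(L (nat_lit 22407215)))
(L (nat_lit 9145132)))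
(L (nat_lit 30625280)))
(S (nat_lit 45170) (S (nat_lit 41246) (S (nat_lit 10986) (S (nat_lit 16546) (L (nat_lit 8238691))
(L (nat_lit 22813745)))
(L (nat_lit 8213889)))
(L (nat_lit 24543450)))
(L (nat_lit 25713952)))))
(S (nat_lit 50463) (S (nat_lit 48509) (L (nat_lit 5756680))
(S (nat_lit 57062) (S (nat_lit 46161) (S (nat_lit 25406) (S (nat_lit 26340) (S (nat_lit 43975) (S (nat_lit 52196) (L (nat_lit 14395416))
(L (nat_lit 14937825)))
(L (nat_lit 4942029)))
(L (nat_lit 24361825)))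
(L (nat_lit 22229856)))
(S (nat_lit 56446) (L (nat_lit 21394629))
(L (nat_lit 22824128))))
(L (nat_lit 19309624))))
(L (nat_lit 25412662)))))
(L (nat_lit 25612517)))))
(S (nat_lit 47843) (S (nat_lit 15332) (S (nat_lit 17031) (S (nat_lit 4405) (S (nat_lit 10987) (S (nat_lit 16546) (L (nat_lit 6817403))
(L (nat_lit 22852801)))
(L (nat_lit 7180912)))
(S (nat_lit 24169) (S (nat_lit 13206) (L (nat_lit 15522888))
(S (nat_lit 16546) (S (nat_lit 47357) (S (nat_lit 17032) (S (nat_lit 52181) (L (nat_lit 2307706))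
(L (nat_lit 7189557)))
(L (nat_lit 24939914)))
(L (nat_lit 18645609)))
(L (nat_lit 15474273))))
(S (nat_lit 43933) (S (nat_lit 22013) (S (nat_lit 16546) (S (nat_lit 17032) (S (nat_lit 19816) (S (nat_lit 15377) (S (nat_lit 1) (L (nat_lit 18934155))
(L (nat_lit 7079534)))
(L (nat_lit 15606468)))
(L (nat_lit 8903523)))
(L (nat_lit 17605216)))
(L (nat_lit 15507041)))
(L (nat_lit 9209549)))
(L (nat_lit 25251085)))))
(S (nat_lit 36795) (S (nat_lit 16546) (S (nat_lit 21539) (L (nat_lit 29399445))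
(L (nat_lit 15506017)))
(S (nat_lit 36310) (S (nat_lit 19765) (S (nat_lit 5820) (L (nat_lit 31174663))
(L (nat_lit 30658949)))
(L (nat_lit 22027677)))
(S (nat_lit 56074) (S (nat_lit 28574) (S (nat_lit 32417) (S (nat_lit 15377) (L (nat_lit 27435631))
(L (nat_lit 26577298)))
(L (nat_lit 8197740)))
(L (nat_lit 10256883)))
(L (nat_lit 25343595)))))
(S (nat_lit 56559) (S (nat_lit 6128) (S (nat_lit 16167) (L (nat_lit 16787067))
(S (nat_lit 36310) (S (nat_lit 15377) (S (nat_lit 28028) (L (nat_lit 28495238))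
(L (nat_lit 19735937)))
(L (nat_lit 22351261)))
(L (nat_lit 6405848))))
(S (nat_lit 25892) (S (nat_lit 39595) (S (nat_lit 10987) (S (nat_lit 43918) (L (nat_lit 29073794))
(L (nat_lit 27480450)))
(L (nat_lit 7180690)))
(S (nat_lit 51377) (L (nat_lit 6997016))
(L (nat_lit 17108789))))
(S (nat_lit 45656) (S (nat_lit 36310) (S (nat_lit 15377) (S (nat_lit 19765) (L (nat_lit 14850867))
(L (nat_lit 22249885)))
(L (nat_lit 26545554)))
(L (nat_lit 6403709)))
(L (nat_lit 25860140)))))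
(L (nat_lit 25250128)))))
(S (nat_lit 35096) (S (nat_lit 5657) (S (nat_lit 10986) (S (nat_lit 35147) (S (nat_lit 36835) (S (nat_lit 39594) (S (nat_lit 56574) (L (nat_lit 28319345))
(L (nat_lit 9306800)))
(L (nat_lit 17539969)))
(L (nat_lit 7958636)))
(L (nat_lit 9221170)))
(S (nat_lit 30750) (S (nat_lit 26355) (S (nat_lit 41738) (S (nat_lit 1) (L (nat_lit 5879559))
(L (nat_lit 1292084)))
(L (nat_lit 24360741)))
(L (nat_lit 16347393)))
(S (nat_lit 50514) (S (nat_lit 35090) (S (nat_lit 36310) (L (nat_lit 259476))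
(L (nat_lit 13362529)))
(L (nat_lit 3627883)))
(L (nat_lit 25760134)))))
(S (nat_lit 25421) (S (nat_lit 15311) (S (nat_lit 35951) (L (nat_lit 22209926))
(S (nat_lit 54854) (S (nat_lit 10936) (S (nat_lit 41303) (L (nat_lit 16974771))
(L (nat_lit 17630790)))
(L (nat_lit 23093488)))
(L (nat_lit 5490450))))
(S (nat_lit 35075) (S (nat_lit 18095) (L (nat_lit 16785016))
(S (nat_lit 26341) (S (nat_lit 46120) (L (nat_lit 22241327))
(L (nat_lit 18609410)))
(L (nat_lit 8437618))))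
(S (nat_lit 54839) (S (nat_lit 30751) (S (nat_lit 16546) (L (nat_lit 6007192))
(L (nat_lit 22508740)))
(L (nat_lit 9557400)))
(L (nat_lit 25377445)))))
(S (nat_lit 45185) (S (nat_lit 15326) (S (nat_lit 46104) (S (nat_lit 16546) (S (nat_lit 51) (L (nat_lit 24201031))
(L (nat_lit 26697056)))
(L (nat_lit 15501686)))
(L (nat_lit 22242444)))
(S (nat_lit 35090) (S (nat_lit 36348) (S (nat_lit 1289) (L (nat_lit 9158812))
(L (nat_lit 19940105)))
(L (nat_lit 19931950)))
(S (nat_lit 54854) (S (nat_lit 47372) (S (nat_lit 19765) (L (nat_lit 6836378))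
(L (nat_lit 9450104)))
(L (nat_lit 17025176)))
(L (nat_lit 25712965)))))
(L (nat_lit 25926146)))))
(S (nat_lit 54860) (S (nat_lit 12224) (S (nat_lit 17046) (S (nat_lit 20996) (S (nat_lit 6633) (L (nat_lit 28945552))
(L (nat_lit 8274624)))
(S (nat_lit 45598) (L (nat_lit 24314669))
(L (nat_lit 22297376))))
(S (nat_lit 36810) (S (nat_lit 2210) (S (nat_lit 39135) (L (nat_lit 5973436))
(S (nat_lit 41777) (S (nat_lit 6633) (S (nat_lit 13145) (L (nat_lit 9197092))
(L (nat_lit 8145349)))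
(L (nat_lit 21329313)))
(L (nat_lit 6013274))))
(L (nat_lit 7992429)))
(S (nat_lit 56574) (S (nat_lit 15792) (S (nat_lit 54854) (L (nat_lit 1431960))
(L (nat_lit 27282858)))
(S (nat_lit 32948) (S (nat_lit 19765) (L (nat_lit 20323482))
(L (nat_lit 22419512)))
(L (nat_lit 3502736))))
(L (nat_lit 25800843)))))
(S (nat_lit 31988) (S (nat_lit 13184) (S (nat_lit 52238) (S (nat_lit 52673) (L (nat_lit 218520))
(L (nat_lit 17033925)))
(L (nat_lit 22878753)))
(S (nat_lit 32948) (S (nat_lit 36796) (S (nat_lit 51695) (S (nat_lit 41246) (L (nat_lit 9005472))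
(L (nat_lit 3751192)))
(L (nat_lit 22296320)))
(L (nat_lit 10972768)))
(S (nat_lit 52712) (S (nat_lit 10986) (S (nat_lit 44612) (L (nat_lit 17000130))
(L (nat_lit 17541306)))
(L (nat_lit 6837432)))
(L (nat_lit 25769098)))))
(S (nat_lit 51752) (S (nat_lit 6077) (S (nat_lit 6576) (S (nat_lit 24210) (L (nat_lit 10612274))
(L (nat_lit 14455398)))
(L (nat_lit 13884568)))
(S (nat_lit 25841) (S (nat_lit 4044) (L (nat_lit 22125114))
(S (nat_lit 24154) (S (nat_lit 46119) (S (nat_lit 36811) (S (nat_lit 41738) (L (nat_lit 29000911))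
(L (nat_lit 13886116)))
(L (nat_lit 13212760)))
(L (nat_lit 27775232)))
(L (nat_lit 22941008))))
(S (nat_lit 45605) (S (nat_lit 36811) (S (nat_lit 47858) (S (nat_lit 45656) (S (nat_lit 51) (S (nat_lit 21539) (L (nat_lit 20449062))
(L (nat_lit 7466608)))
(L (nat_lit 20411526)))
(L (nat_lit 27504694)))
(L (nat_lit 1681912)))
(L (nat_lit 20346144)))
(L (nat_lit 25306679)))))
(L (nat_lit 25578663)))))
(L (nat_lit 25416229)))))
(L (nat_lit 25495152)))))
(S (nat_lit 36309) (S (nat_lit 6577) (S (nat_lit 17534) (S (nat_lit 7778) (S (nat_lit 15347) (S (nat_lit 36349) (S (nat_lit 56559) (S (nat_lit 52196) (L (nat_lit 12671883))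
(L (nat_lit 22363939)))
(L (nat_lit 7179671)))
(L (nat_lit 18061107)))
(S (nat_lit 35111) (S (nat_lit 14477) (L (nat_lit 6713955))
(S (nat_lit 15332) (S (nat_lit 10936) (S (nat_lit 39594) (S (nat_lit 56560) (S (nat_lit 45671) (L (nat_lit 3546841))
(L (nat_lit 3560698)))
(L (nat_lit 27964426)))
(L (nat_lit 23431645)))
(L (nat_lit 8085987)))
(L (nat_lit 1291900))))
(S (nat_lit 54875) (S (nat_lit 10986) (S (nat_lit 54905) (L (nat_lit 16344256))
(L (nat_lit 14225194)))
(L (nat_lit 1326004)))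
(L (nat_lit 25463314)))))
(S (nat_lit 27542) (S (nat_lit 8810) (S (nat_lit 10936) (S (nat_lit 6591) (S (nat_lit 15311) (S (nat_lit 27593) (S (nat_lit 31988) (L (nat_lit 15467145))
(L (nat_lit 30640691)))
(L (nat_lit 15272743)))
(L (nat_lit 8161007)))
(L (nat_lit 7857889)))
(L (nat_lit 7037410)))
(S (nat_lit 28574) (S (nat_lit 8264) (S (nat_lit 56074) (L (nat_lit 3597525))
(L (nat_lit 28030305)))
(L (nat_lit 13390177)))
(S (nat_lit 48338) (S (nat_lit 39595) (S (nat_lit 6128) (L (nat_lit 28451569))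
(L (nat_lit 4643036)))
(L (nat_lit 12341699)))
(L (nat_lit 25337331)))))
(S (nat_lit 47306) (S (nat_lit 17070) (S (nat_lit 40760) (S (nat_lit 45671) (L (nat_lit 279478))
(L (nat_lit 14964513)))
(S (nat_lit 44513) (S (nat_lit 28094) (L (nat_lit 26906118))
(L (nat_lit 286203)))
(L (nat_lit 438010))))
(S (nat_lit 36834) (S (nat_lit 8786) (S (nat_lit 13184) (S (nat_lit 10987) (L (nat_lit 11241946))
(L (nat_lit 277178)))
(L (nat_lit 7888060)))
(S (nat_lit 46286) (L (nat_lit 13914170))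
(L (nat_lit 290323))))
(S (nat_lit 56598) (S (nat_lit 50702) (L (nat_lit 905423))
(S (nat_lit 56112) (S (nat_lit 15371) (S (nat_lit 52) (L (nat_lit 6870200))
(L (nat_lit 1570505)))
(L (nat_lit 7995901)))
(L (nat_lit 10227125))))
(L (nat_lit 25823721)))))
(L (nat_lit 25579625)))))
(S (nat_lit 37298) (S (nat_lit 15326) (S (nat_lit 12224) (S (nat_lit 27974) (S (nat_lit 27176) (L (nat_lit 6849113))
(L (nat_lit 8293877)))
(S (nat_lit 56074) (S (nat_lit 4390) (L (nat_lit 17605687))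
(L (nat_lit 7899866)))
(L (nat_lit 28026001))))
(S (nat_lit 31988) (S (nat_lit 46104) (S (nat_lit 6128) (L (nat_lit 1302348))
(L (nat_lit 26447598)))
(L (nat_lit 22422715)))
(S (nat_lit 51752) (S (nat_lit 6634) (S (nat_lit 36811) (S (nat_lit 37322) (L (nat_lit 20811087))
(L (nat_lit 23535396)))
(L (nat_lit 745927)))
(L (nat_lit 652713)))
(L (nat_lit 25854505)))))
(S (nat_lit 35090) (S (nat_lit 5642) (S (nat_lit 20456) (L (nat_lit 13279325))
(S (nat_lit 36835) (S (nat_lit 8786) (S (nat_lit 35141) (L (nat_lit 9866103))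
(L (nat_lit 30910148)))
(L (nat_lit 23143901)))
(L (nat_lit 12703527))))
(S (nat_lit 25406) (S (nat_lit 36835) (S (nat_lit 40775) (S (nat_lit 35111) (L (nat_lit 28520630))
(L (nat_lit 12874770)))
(L (nat_lit 16936151)))
(L (nat_lit 13182757)))
(S (nat_lit 45170) (L (nat_lit 18933071))
(L (nat_lit 25319726)))))
(S (nat_lit 54854) (S (nat_lit 6077) (S (nat_lit 30766) (S (nat_lit 13145) (S (nat_lit 36835) (S (nat_lit 57086) (L (nat_lit 4833564))
(L (nat_lit 27662916)))
(L (nat_lit 13411909)))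
(S (nat_lit 52998) (L (nat_lit 11373264))
(L (nat_lit 13281373))))
(S (nat_lit 41075) (L (nat_lit 30968394))
(L (nat_lit 2500375))))
(S (nat_lit 25841) (S (nat_lit 30766) (S (nat_lit 16584) (S (nat_lit 41303) (S (nat_lit 21497) (L (nat_lit 27338316))
(L (nat_lit 7359408)))
(L (nat_lit 27842913)))
(S (nat_lit 55726) (L (nat_lit 18681416))
(L (nat_lit 17097349))))
(L (nat_lit 31040931)))
(S (nat_lit 45605) (S (nat_lit 21667) (L (nat_lit 20344871))
(S (nat_lit 57086) (S (nat_lit 36835) (S (nat_lit 6128) (S (nat_lit 13145) (S (nat_lit 21497) (S (nat_lit 27593) (L (nat_lit 29873225))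
(L (nat_lit 14735145)))
(L (nat_lit 21931489)))
(L (nat_lit 7096805)))
(L (nat_lit 20781100)))
(S (nat_lit 49157) (L (nat_lit 8916570))
(L (nat_lit 23505976))))
(L (nat_lit 13268106))))
(L (nat_lit 25316838)))))
(L (nat_lit 25931915)))))
(S (nat_lit 57062) (S (nat_lit 7844) (S (nat_lit 1247) (S (nat_lit 30750) (S (nat_lit 36310) (L (nat_lit 7817274))
(L (nat_lit 13444243)))
(L (nat_lit 14396570)))
(S (nat_lit 21011) (S (nat_lit 12653) (S (nat_lit 8786) (L (nat_lit 7496147))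
(L (nat_lit 6867004)))
(L (nat_lit 12109885)))
(S (nat_lit 40775) (S (nat_lit 11644) (L (nat_lit 12193306))
(S (nat_lit 36795) (S (nat_lit 45605) (S (nat_lit 25355) (L (nat_lit 19021705))
(L (nat_lit 21899810)))
(L (nat_lit 23955820)))
(L (nat_lit 381338))))
(L (nat_lit 25532049)))))
(S (nat_lit 27608) (S (nat_lit 6128) (S (nat_lit 16546) (L (nat_lit 29903040))
(S (nat_lit 43857) (L (nat_lit 6070991))
(L (nat_lit 3698899))))
(S (nat_lit 25892) (S (nat_lit 36834) (L (nat_lit 28621537))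
(L (nat_lit 218554)))
(S (nat_lit 45656) (S (nat_lit 30700) (S (nat_lit 47843) (S (nat_lit 36348) (L (nat_lit 6784730))
(L (nat_lit 1307063)))
(L (nat_lit 6906403)))
(S (nat_lit 57908) (L (nat_lit 27862560))
(L (nat_lit 30639666))))
(L (nat_lit 25174732)))))
(S (nat_lit 47372) (S (nat_lit 66) (S (nat_lit 11419) (L (nat_lit 1816858))
(S (nat_lit 36795) (S (nat_lit 6634) (S (nat_lit 8810) (S (nat_lit 45656) (L (nat_lit 29572833))
(L (nat_lit 13241626)))
(L (nat_lit 15618187)))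
(L (nat_lit 7230510)))
(L (nat_lit 10948218))))
(S (nat_lit 19830) (S (nat_lit 4390) (S (nat_lit 28028) (L (nat_lit 21902504))
(L (nat_lit 927441)))
(L (nat_lit 632282)))
(S (nat_lit 39594) (S (nat_lit 54854) (S (nat_lit 4446) (S (nat_lit 27593) (S (nat_lit 46162) (S (nat_lit 36835) (S (nat_lit 41303) (S (nat_lit 19815) (L (nat_lit 27378314))
(L (nat_lit 15818599)))
(L (nat_lit 16996440)))
(L (nat_lit 12801080)))
(L (nat_lit 11015026)))
(L (nat_lit 24634658)))
(L (nat_lit 1470674)))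
(L (nat_lit 27482287)))
(L (nat_lit 25711719)))))
(L (nat_lit 25180743)))))
(L (nat_lit 25430516)))))
(S (nat_lit 26341) (S (nat_lit 1775) (S (nat_lit 8264) (S (nat_lit 17031) (S (nat_lit 43918) (S (nat_lit 56074) (S (nat_lit 32924) (L (nat_lit 31175873))
(L (nat_lit 8479124)))
(L (nat_lit 28026241)))
(L (nat_lit 27895171)))
(S (nat_lit 36795) (S (nat_lit 56074) (S (nat_lit 7778) (S (nat_lit 30750) (S (nat_lit 15332) (S (nat_lit 35090) (L (nat_lit 1295065))
(L (nat_lit 13295972)))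
(L (nat_lit 699805)))
(L (nat_lit 2385302)))
(L (nat_lit 10674581)))
(L (nat_lit 19161473)))
(S (nat_lit 56559) (S (nat_lit 17558) (S (nat_lit 6128) (S (nat_lit 50515) (L (nat_lit 13802292))
(L (nat_lit 20754568)))
(L (nat_lit 12191132)))
(L (nat_lit 6948252)))
(L (nat_lit 25867433)))))
(S (nat_lit 28028) (S (nat_lit 5642) (S (nat_lit 36310) (S (nat_lit 52181) (S (nat_lit 2249) (S (nat_lit 2210) (L (nat_lit 18776646))
(L (nat_lit 6348189)))
(L (nat_lit 8094140)))
(L (nat_lit 20808070)))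
(L (nat_lit 20782468)))
(S (nat_lit 25406) (S (nat_lit 17032) (S (nat_lit 50515) (S (nat_lit 32924) (S (nat_lit 50514) (L (nat_lit 5163398))
(L (nat_lit 27857286)))
(L (nat_lit 31138181)))
(L (nat_lit 12312962)))
(L (nat_lit 26911104)))
(S (nat_lit 45170) (S (nat_lit 40817) (S (nat_lit 1247) (S (nat_lit 50514) (L (nat_lit 17868722))
(L (nat_lit 4516246)))
(L (nat_lit 12947318)))
(L (nat_lit 745863)))
(L (nat_lit 25319662)))))
(S (nat_lit 47792) (S (nat_lit 1733) (S (nat_lit 32015) (L (nat_lit 13519014))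
(S (nat_lit 51752) (S (nat_lit 24623) (L (nat_lit 17848168))
(S (nat_lit 35090) (S (nat_lit 17534) (S (nat_lit 30700) (S (nat_lit 17558) (L (nat_lit 733073))
(L (nat_lit 6750877)))
(L (nat_lit 4004338)))
(L (nat_lit 7458574)))
(L (nat_lit 20384554))))
(L (nat_lit 2958901))))
(S (nat_lit 21497) (S (nat_lit 19830) (S (nat_lit 54911) (S (nat_lit 12167) (S (nat_lit 56112) (S (nat_lit 43974) (S (nat_lit 47306) (S (nat_lit 2210) (S (nat_lit 52196) (L (nat_lit 19273510))
(L (nat_lit 1486426)))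
(L (nat_lit 7363996)))
(L (nat_lit 10186112)))
(L (nat_lit 13315937)))
(L (nat_lit 9868955)))
(L (nat_lit 21312604)))
(L (nat_lit 21313381)))
(L (nat_lit 3691270)))
(S (nat_lit 41261) (S (nat_lit 32924) (S (nat_lit 47372) (S (nat_lit 56599) (L (nat_lit 7100832))
(L (nat_lit 8903804)))
(L (nat_lit 27493969)))
(S (nat_lit 43088) (S (nat_lit 13457) (L (nat_lit 12755547))
(L (nat_lit 402226)))
(L (nat_lit 30693764))))
(L (nat_lit 25343222)))))
(L (nat_lit 25823600)))))
(S (nat_lit 21539) (S (nat_lit 5642) (S (nat_lit 15371) (S (nat_lit 24210) (S (nat_lit 7844) (L (nat_lit 22078799))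
(L (nat_lit 9329809)))
(S (nat_lit 55934) (L (nat_lit 22046062))
(L (nat_lit 30552647))))
(S (nat_lit 35135) (S (nat_lit 4982) (L (nat_lit 21011373))
(L (nat_lit 22914190)))
(S (nat_lit 54899) (S (nat_lit 28574) (S (nat_lit 26340) (L (nat_lit 22068073))
(L (nat_lit 30629005)))
(L (nat_lit 8816251)))
(L (nat_lit 25665156)))))
(S (nat_lit 25406) (S (nat_lit 13184) (S (nat_lit 25841) (S (nat_lit 52181) (S (nat_lit 52238) (L (nat_lit 29613473))
(L (nat_lit 22886755)))
(L (nat_lit 22329091)))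
(S (nat_lit 54311) (L (nat_lit 925106))
(L (nat_lit 8273507))))
(S (nat_lit 32948) (S (nat_lit 10935) (S (nat_lit 26340) (S (nat_lit 24168) (L (nat_lit 31064271))
(L (nat_lit 31097254)))
(L (nat_lit 25049440)))
(L (nat_lit 15927094)))
(S (nat_lit 52712) (S (nat_lit 21053) (L (nat_lit 6916504))
(L (nat_lit 12115065)))
(L (nat_lit 25304656)))))
(S (nat_lit 45170) (S (nat_lit 10986) (S (nat_lit 6576) (S (nat_lit 25841) (S (nat_lit 32924) (S (nat_lit 2210) (L (nat_lit 29009347))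
(L (nat_lit 1649053)))
(L (nat_lit 9134468)))
(L (nat_lit 14487927)))
(L (nat_lit 6720120)))
(S (nat_lit 30750) (S (nat_lit 17070) (S (nat_lit 25841) (L (nat_lit 4416918))
(L (nat_lit 31040654)))
(L (nat_lit 9495991)))
(S (nat_lit 50514) (S (nat_lit 1289) (S (nat_lit 6633) (L (nat_lit 4741927))
(L (nat_lit 1987975)))
(L (nat_lit 19794311)))
(L (nat_lit 25613665)))))
(L (nat_lit 25528790)))))
(S (nat_lit 41303) (S (nat_lit 8810) (S (nat_lit 10641) (L (nat_lit 30939283))
(S (nat_lit 17558) (S (nat_lit 25841) (S (nat_lit 52238) (S (nat_lit 4405) (L (nat_lit 14555223))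
(L (nat_lit 1919401)))
(L (nat_lit 20341089)))
(L (nat_lit 31046790)))
(L (nat_lit 6906030))))
(S (nat_lit 28574) (S (nat_lit 51) (S (nat_lit 45119) (S (nat_lit 67) (L (nat_lit 212602))
(L (nat_lit 6819700)))
(L (nat_lit 2440826)))
(S (nat_lit 19815) (S (nat_lit 4390) (L (nat_lit 18720917))
(L (nat_lit 18923898)))
(S (nat_lit 39579) (S (nat_lit 1247) (S (nat_lit 56575) (L (nat_lit 14314633))
(L (nat_lit 14571658)))
(L (nat_lit 19390816)))
(L (nat_lit 25287206)))))
(S (nat_lit 48338) (S (nat_lit 6634) (S (nat_lit 19815) (S (nat_lit 10935) (L (nat_lit 29997131))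
(L (nat_lit 1777425)))
(L (nat_lit 9552602)))
(S (nat_lit 26398) (S (nat_lit 57086) (S (nat_lit 45671) (L (nat_lit 220698))
(L (nat_lit 27525559)))
(L (nat_lit 19667332)))
(S (nat_lit 46162) (S (nat_lit 6128) (S (nat_lit 43974) (S (nat_lit 57086) (L (nat_lit 4594547))
(L (nat_lit 27450734)))
(L (nat_lit 12270433)))
(L (nat_lit 20783555)))
(L (nat_lit 25546114)))))
(L (nat_lit 25546893)))))
(L (nat_lit 25926049)))))
(S (nat_lit 46105) (S (nat_lit 6634) (S (nat_lit 8330) (S (nat_lit 67) (S (nat_lit 7844) (S (nat_lit 36795) (L (nat_lit 566162))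
(L (nat_lit 7487415)))
(S (nat_lit 35403) (L (nat_lit 13672308))
(L (nat_lit 14572898))))
(S (nat_lit 19831) (S (nat_lit 32909) (S (nat_lit 32432) (S (nat_lit 15371) (L (nat_lit 14550292))
(L (nat_lit 8274501)))
(L (nat_lit 7361294)))
(L (nat_lit 10359504)))
(S (nat_lit 39595) (S (nat_lit 7844) (S (nat_lit 45170) (L (nat_lit 28889442))
(L (nat_lit 8272576)))
(S (nat_lit 21375) (L (nat_lit 1616540))
(L (nat_lit 23630204))))
(L (nat_lit 25496053)))))
(S (nat_lit 28094) (S (nat_lit 5830) (S (nat_lit 35272) (L (nat_lit 7739250))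
(L (nat_lit 14972645)))
(S (nat_lit 40817) (S (nat_lit 35296) (L (nat_lit 17425513))
(S (nat_lit 36835) (S (nat_lit 45170) (L (nat_lit 22569993))
(L (nat_lit 8281472)))
(L (nat_lit 7462328))))
(L (nat_lit 24414618))))
(S (nat_lit 47858) (S (nat_lit 6592) (S (nat_lit 9315) (L (nat_lit 1580855))
(S (nat_lit 45671) (S (nat_lit 15311) (S (nat_lit 21539) (L (nat_lit 1262202))
(L (nat_lit 22135624)))
(L (nat_lit 6341372)))
(L (nat_lit 1786662))))
(S (nat_lit 26356) (S (nat_lit 16560) (S (nat_lit 54911) (S (nat_lit 43974) (S (nat_lit 8315) (S (nat_lit 56112) (S (nat_lit 39579) (S (nat_lit 8810) (L (nat_lit 9157789))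
(L (nat_lit 1687901)))
(L (nat_lit 23586951)))
(L (nat_lit 2900215)))
(L (nat_lit 13824616)))
(L (nat_lit 15477778)))
(L (nat_lit 27928623)))
(L (nat_lit 8968963)))
(S (nat_lit 46120) (S (nat_lit 1148) (L (nat_lit 940425))
(S (nat_lit 16546) (S (nat_lit 47792) (L (nat_lit 6410648))
(L (nat_lit 18206874)))
(L (nat_lit 17060673))))
(L (nat_lit 25474162)))))
(L (nat_lit 25728245)))))
(S (nat_lit 26398) (S (nat_lit 12668) (S (nat_lit 12224) (S (nat_lit 29916) (L (nat_lit 8946428))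
(S (nat_lit 50464) (S (nat_lit 17047) (S (nat_lit 16585) (S (nat_lit 17534) (L (nat_lit 24134013))
(L (nat_lit 22553660)))
(L (nat_lit 14771443)))
(L (nat_lit 9450291)))
(L (nat_lit 12111900))))
(S (nat_lit 31988) (S (nat_lit 6077) (S (nat_lit 25406) (S (nat_lit 17070) (L (nat_lit 29381868))
(L (nat_lit 10357237)))
(L (nat_lit 31066505)))
(L (nat_lit 20505953)))
(S (nat_lit 51752) (S (nat_lit 48314) (S (nat_lit 21539) (S (nat_lit 32909) (L (nat_lit 28323534))
(L (nat_lit 15951461)))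
(L (nat_lit 22572387)))
(L (nat_lit 22841551)))
(L (nat_lit 25633907)))))
(S (nat_lit 32432) (S (nat_lit 4404) (S (nat_lit 26196) (L (nat_lit 24646973))
(S (nat_lit 45170) (S (nat_lit 8771) (L (nat_lit 5808978))
(L (nat_lit 6344527)))
(L (nat_lit 435930))))
(S (nat_lit 24168) (S (nat_lit 29352) (L (nat_lit 2860440))
(S (nat_lit 54839) (S (nat_lit 30700) (S (nat_lit 40760) (L (nat_lit 6144711))
(L (nat_lit 27693799)))
(L (nat_lit 13671255)))
(L (nat_lit 14386394))))
(S (nat_lit 43932) (S (nat_lit 45170) (S (nat_lit 12224) (S (nat_lit 10936) (L (nat_lit 24536386))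
(L (nat_lit 23903459)))
(L (nat_lit 21931182)))
(S (nat_lit 54715) (S (nat_lit 2210) (L (nat_lit 285520))
(L (nat_lit 6918556)))
(L (nat_lit 15607490))))
(L (nat_lit 25283079)))))
(S (nat_lit 52196) (S (nat_lit 67) (S (nat_lit 2852) (L (nat_lit 8164044))
(S (nat_lit 36795) (S (nat_lit 15326) (S (nat_lit 30751) (S (nat_lit 10935) (L (nat_lit 15769426))
(L (nat_lit 6350543)))
(L (nat_lit 17556617)))
(S (nat_lit 54928) (L (nat_lit 26985576))
(L (nat_lit 17473692))))
(L (nat_lit 11031458))))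
(S (nat_lit 19831) (S (nat_lit 25355) (S (nat_lit 19815) (L (nat_lit 29381966))
(L (nat_lit 2581874)))
(L (nat_lit 1982057)))
(S (nat_lit 39595) (S (nat_lit 36795) (S (nat_lit 24154) (S (nat_lit 48314) (L (nat_lit 28806859))
(L (nat_lit 22319023)))
(L (nat_lit 22951048)))
(L (nat_lit 20243844)))
(L (nat_lit 25711907)))))
(L (nat_lit 25413347)))))
(S (nat_lit 46162) (S (nat_lit 16546) (S (nat_lit 15332) (S (nat_lit 14278) (L (nat_lit 16828792))
(S (nat_lit 47792) (S (nat_lit 57086) (S (nat_lit 40775) (L (nat_lit 28606869))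
(L (nat_lit 27314385)))
(L (nat_lit 5002634)))
(L (nat_lit 17966963))))
(S (nat_lit 35096) (S (nat_lit 30751) (S (nat_lit 47792) (S (nat_lit 32924) (S (nat_lit 6128) (L (nat_lit 23257478))
(L (nat_lit 20116870)))
(L (nat_lit 3667186)))
(L (nat_lit 20812168)))
(L (nat_lit 9989266)))
(S (nat_lit 54860) (S (nat_lit 35141) (S (nat_lit 12653) (L (nat_lit 5678808))
(L (nat_lit 2891155)))
(L (nat_lit 20275588)))
(L (nat_lit 25408626)))))
(S (nat_lit 36310) (S (nat_lit 2225) (S (nat_lit 6128) (S (nat_lit 6077) (S (nat_lit 51695) (S (nat_lit 15326) (S (nat_lit 32909) (S (nat_lit 46104) (L (nat_lit 29985005))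
(L (nat_lit 22265601)))
(L (nat_lit 14705938)))
(L (nat_lit 771421)))
(L (nat_lit 8243648)))
(S (nat_lit 58901) (L (nat_lit 4695830))
(L (nat_lit 20309132))))
(L (nat_lit 20776328)))
(S (nat_lit 21989) (S (nat_lit 24356) (L (nat_lit 20411586))
(S (nat_lit 25355) (S (nat_lit 8315) (S (nat_lit 40775) (L (nat_lit 4830983))
(L (nat_lit 17888471)))
(L (nat_lit 13441075)))
(L (nat_lit 6417006))))
(S (nat_lit 41753) (S (nat_lit 52181) (S (nat_lit 67) (S (nat_lit 21053) (S (nat_lit 36834) (L (nat_lit 6962330))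
(L (nat_lit 20199482)))
(L (nat_lit 6874688)))
(L (nat_lit 729967)))
(L (nat_lit 13304584)))
(L (nat_lit 25863215)))))
(S (nat_lit 56074) (S (nat_lit 15362) (S (nat_lit 15347) (S (nat_lit 37322) (L (nat_lit 20340779))
(L (nat_lit 31079780)))
(L (nat_lit 14968882)))
(S (nat_lit 35126) (S (nat_lit 6077) (S (nat_lit 43918) (S (nat_lit 26340) (S (nat_lit 47372) (L (nat_lit 5879160))
(L (nat_lit 17917299)))
(L (nat_lit 2964854)))
(L (nat_lit 12832924)))
(L (nat_lit 10239126)))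
(S (nat_lit 54890) (S (nat_lit 43918) (S (nat_lit 25421) (S (nat_lit 37322) (S (nat_lit 6128) (S (nat_lit 26340) (S (nat_lit 28574) (S (nat_lit 26397) (S (nat_lit 32909) (S (nat_lit 30766) (S (nat_lit 17046) (S (nat_lit 21539) (S (nat_lit 8330) (S (nat_lit 10986) (S (nat_lit 36324) (S (nat_lit 32474) (S (nat_lit 11001) (S (nat_lit 17031) (S (nat_lit 6987) (S (nat_lit 16415) (S (nat_lit 46805) (S (nat_lit 35267) (S (nat_lit 56732) (S (nat_lit 16885) (S (nat_lit 55212) (S (nat_lit 24721) (S (nat_lit 15745) (D (nat_lit 14) (nat_lit 13408834) (nat_lit 3954989) (nat_lit 2308167413370259520))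
(L (nat_lit 29546024)))
(L (nat_lit 23994384)))
(L (nat_lit 15616355)))
(L (nat_lit 28001635)))
(L (nat_lit 29986344)))
(L (nat_lit 27893281)))
(L (nat_lit 29998276)))
(L (nat_lit 27901153)))
(S (nat_lit 17336) (S (nat_lit 36467) (S (nat_lit 356) (S (nat_lit 6430) (S (nat_lit 51420) (S (nat_lit 6030) (S (nat_lit 44360) (S (nat_lit 51091) (S (nat_lit 24979) (D (nat_lit 14) (nat_lit 13476918) (nat_lit 16533515) (nat_lit 36064051217826818))
(L (nat_lit 28984427)))
(L (nat_lit 9261200)))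
(L (nat_lit 29896416)))
(L (nat_lit 29905185)))
(L (nat_lit 24582331)))
(L (nat_lit 29003271)))
(L (nat_lit 29006275)))
(L (nat_lit 22508741)))
(L (nat_lit 20726050))))
(L (nat_lit 24479129)))
(L (nat_lit 697784)))
(L (nat_lit 13919379)))
(L (nat_lit 11929340)))
(L (nat_lit 18142361)))
(L (nat_lit 2313040)))
(L (nat_lit 11208089)))
(L (nat_lit 5098953)))
(L (nat_lit 10275331)))
(L (nat_lit 14882578)))
(L (nat_lit 10327444)))
(L (nat_lit 19203513)))
(L (nat_lit 24132986)))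
(L (nat_lit 20448476)))
(L (nat_lit 10343566)))
(L (nat_lit 31176034)))
(L (nat_lit 27775331)))
(L (nat_lit 25898127)))))
(L (nat_lit 25926801)))))
(L (nat_lit 25314546)))))
(L (nat_lit 25610563)))))
(S (nat_lit 56073) (S (nat_lit 16584) (S (nat_lit 16560) (S (nat_lit 8771) (S (nat_lit 11002) (S (nat_lit 15362) (S (nat_lit 6591) (S (nat_lit 36835) (S (nat_lit 15371) (L (nat_lit 29376787))
(L (nat_lit 15652165)))
(L (nat_lit 20751468)))
(L (nat_lit 1532487)))
(S (nat_lit 21547) (L (nat_lit 6469213))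
(L (nat_lit 26626186))))
(S (nat_lit 30766) (S (nat_lit 27593) (S (nat_lit 32924) (S (nat_lit 37298) (L (nat_lit 17698474))
(L (nat_lit 9352933)))
(L (nat_lit 9134469)))
(S (nat_lit 56196) (L (nat_lit 30515698))
(L (nat_lit 14879605))))
(S (nat_lit 50530) (S (nat_lit 15311) (S (nat_lit 21539) (L (nat_lit 21011900))
(L (nat_lit 22578555)))
(S (nat_lit 55193) (L (nat_lit 7916605))
(L (nat_lit 22068011))))
(L (nat_lit 25544813)))))
(S (nat_lit 28535) (S (nat_lit 2249) (S (nat_lit 15383) (S (nat_lit 32924) (L (nat_lit 29548074))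
(L (nat_lit 2382233)))
(S (nat_lit 49119) (L (nat_lit 2319985))
(L (nat_lit 17715242))))
(S (nat_lit 22013) (S (nat_lit 13160) (S (nat_lit 52196) (L (nat_lit 3360627))
(L (nat_lit 12938979)))
(S (nat_lit 19927) (L (nat_lit 19736036))
(L (nat_lit 7163301))))
(S (nat_lit 41777) (S (nat_lit 722) (L (nat_lit 24180266))
(S (nat_lit 15347) (S (nat_lit 36835) (S (nat_lit 46162) (L (nat_lit 22512426))
(L (nat_lit 17424610)))
(L (nat_lit 23269816)))
(L (nat_lit 24200970))))
(L (nat_lit 25592554)))))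
(S (nat_lit 48299) (S (nat_lit 16585) (S (nat_lit 1115) (L (nat_lit 3389332))
(S (nat_lit 47858) (S (nat_lit 21497) (S (nat_lit 43933) (L (nat_lit 8918617))
(L (nat_lit 5676949)))
(L (nat_lit 22984001)))
(L (nat_lit 22129552))))
(S (nat_lit 36349) (S (nat_lit 15362) (S (nat_lit 8786) (S (nat_lit 47372) (S (nat_lit 1718) (L (nat_lit 5563827))
(L (nat_lit 14248038)))
(L (nat_lit 7902005)))
(L (nat_lit 17370922)))
(L (nat_lit 22583210)))
(S (nat_lit 56113) (S (nat_lit 26269) (L (nat_lit 606088))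
(S (nat_lit 45185) (S (nat_lit 50514) (L (nat_lit 24194863))
(L (nat_lit 22342017)))
(L (nat_lit 251694))))
(L (nat_lit 25417185)))))
(L (nat_lit 25376325)))))
(S (nat_lit 36324) (S (nat_lit 17071) (S (nat_lit 31988) (S (nat_lit 39579) (S (nat_lit 56560) (S (nat_lit 35090) (S (nat_lit 43974) (S (nat_lit 19830) (S (nat_lit 12167) (S (nat_lit 36811) (S (nat_lit 54911) (S (nat_lit 4404) (S (nat_lit 13145) (S (nat_lit 4447) (L (nat_lit 5455613))
(L (nat_lit 8090669)))
(S (nat_lit 32909) (L (nat_lit 280313))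
(S (nat_lit 52673) (S (nat_lit 15903) (L (nat_lit 10161691))
(S (nat_lit 35667) (L (nat_lit 8110137))
(L (nat_lit 28358871))))
(L (nat_lit 25569892)))))
(L (nat_lit 19406689)))
(L (nat_lit 19376996)))
(L (nat_lit 751047)))
(L (nat_lit 26941888)))
(L (nat_lit 10343872)))
(L (nat_lit 13315936)))
(L (nat_lit 30955877)))
(L (nat_lit 21502848)))
(L (nat_lit 27541683)))
(S (nat_lit 45112) (S (nat_lit 25477) (L (nat_lit 13785466))
(L (nat_lit 24338884)))
(L (nat_lit 13861781))))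
(S (nat_lit 36835) (S (nat_lit 37014) (S (nat_lit 35403) (L (nat_lit 587029))
(L (nat_lit 19088162)))
(S (nat_lit 54911) (S (nat_lit 43974) (S (nat_lit 4404) (S (nat_lit 17032) (S (nat_lit 31988) (S (nat_lit 35090) (S (nat_lit 12167) (S (nat_lit 56575) (S (nat_lit 19830) (S (nat_lit 17070) (S (nat_lit 13184) (S (nat_lit 41246) (S (nat_lit 35096) (L (nat_lit 29837415))
(L (nat_lit 8435419)))
(L (nat_lit 24256024)))
(L (nat_lit 22938960)))
(S (nat_lit 36834) (S (nat_lit 7844) (S (nat_lit 6077) (S (nat_lit 26341) (S (nat_lit 54899) (S (nat_lit 21497) (L (nat_lit 4439643))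
(L (nat_lit 21770406)))
(L (nat_lit 19264932)))
(L (nat_lit 19309411)))
(L (nat_lit 12174428)))
(L (nat_lit 21904425)))
(S (nat_lit 56598) (S (nat_lit 1775) (S (nat_lit 54899) (S (nat_lit 7844) (S (nat_lit 45656) (L (nat_lit 15599179))
(L (nat_lit 27603683)))
(L (nat_lit 23378754)))
(L (nat_lit 19302219)))
(L (nat_lit 13524321)))
(L (nat_lit 25757966)))))
(L (nat_lit 15463680)))
(L (nat_lit 27903269)))
(L (nat_lit 9221205)))
(L (nat_lit 18026354)))
(L (nat_lit 7111310)))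
(L (nat_lit 24212010)))
(L (nat_lit 7195137)))
(L (nat_lit 13458471)))
(L (nat_lit 27866309))))
(S (nat_lit 56599) (S (nat_lit 15527) (S (nat_lit 35135) (L (nat_lit 8993945))
(L (nat_lit 31013034)))
(S (nat_lit 54911) (S (nat_lit 35090) (S (nat_lit 4404) (S (nat_lit 17047) (S (nat_lit 12167) (S (nat_lit 19830) (S (nat_lit 31988) (S (nat_lit 36796) (S (nat_lit 1359) (S (nat_lit 26340) (L (nat_lit 4694748))
(L (nat_lit 30661773)))
(S (nat_lit 1674) (S (nat_lit 17948) (L (nat_lit 3747632))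
(L (nat_lit 19140364)))
(S (nat_lit 48299) (S (nat_lit 28550) (S (nat_lit 2225) (L (nat_lit 20030904))
(L (nat_lit 20820197)))
(L (nat_lit 31011045)))
(L (nat_lit 5156243)))))
(L (nat_lit 20070151)))
(L (nat_lit 30704270)))
(L (nat_lit 10343904)))
(L (nat_lit 21807392)))
(L (nat_lit 22877548)))
(L (nat_lit 451206)))
(L (nat_lit 2880938)))
(L (nat_lit 14017189))))
(L (nat_lit 25220305)))))
(S (nat_lit 56088) (S (nat_lit 7829) (S (nat_lit 13184) (S (nat_lit 32924) (S (nat_lit 15326) (L (nat_lit 1261493))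
(L (nat_lit 14897029)))
(L (nat_lit 10084400)))
(S (nat_lit 32948) (S (nat_lit 52673) (S (nat_lit 56598) (L (nat_lit 18023035))
(L (nat_lit 27462288)))
(S (nat_lit 55938) (L (nat_lit 5938749))
(L (nat_lit 16999013))))
(S (nat_lit 52712) (S (nat_lit 21482) (S (nat_lit 11858) (L (nat_lit 26749505))
(L (nat_lit 30999047)))
(L (nat_lit 873992)))
(L (nat_lit 25834667)))))
(S (nat_lit 27593) (S (nat_lit 4404) (S (nat_lit 2225) (S (nat_lit 4447) (S (nat_lit 32474) (S (nat_lit 31988) (L (nat_lit 315246))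
(L (nat_lit 1363788)))
(L (nat_lit 7393166)))
(L (nat_lit 7484213)))
(S (nat_lit 21989) (S (nat_lit 54899) (S (nat_lit 25907) (S (nat_lit 26340) (L (nat_lit 29646240))
(L (nat_lit 2515284)))
(L (nat_lit 8077339)))
(L (nat_lit 27869541)))
(S (nat_lit 41753) (S (nat_lit 1) (S (nat_lit 36795) (S (nat_lit 39579) (L (nat_lit 5840751))
(L (nat_lit 12370067)))
(L (nat_lit 11423920)))
(L (nat_lit 647374)))
(L (nat_lit 25829829)))))
(S (nat_lit 24168) (S (nat_lit 7140) (L (nat_lit 15631668))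
(S (nat_lit 51695) (S (nat_lit 36835) (S (nat_lit 15347) (S (nat_lit 15332) (L (nat_lit 5623568))
(L (nat_lit 6343501)))
(L (nat_lit 14968850)))
(L (nat_lit 7793280)))
(L (nat_lit 9554392))))
(S (nat_lit 43932) (S (nat_lit 15332) (S (nat_lit 36835) (S (nat_lit 52673) (S (nat_lit 45605) (S (nat_lit 15347) (L (nat_lit 24316410))
(L (nat_lit 17100453)))
(L (nat_lit 15576150)))
(L (nat_lit 27476581)))
(L (nat_lit 20136805)))
(S (nat_lit 46468) (L (nat_lit 16424866))
(L (nat_lit 7870322))))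
(L (nat_lit 25270961)))))
(S (nat_lit 47357) (S (nat_lit 12224) (S (nat_lit 46104) (S (nat_lit 36835) (L (nat_lit 29573206))
(L (nat_lit 7944997)))
(S (nat_lit 56433) (L (nat_lit 22241667))
(L (nat_lit 22219325))))
(S (nat_lit 31988) (S (nat_lit 46161) (S (nat_lit 54899) (L (nat_lit 30496170))
(L (nat_lit 19235320)))
(L (nat_lit 17650913)))
(S (nat_lit 51752) (S (nat_lit 44522) (L (nat_lit 2306776))
(S (nat_lit 45170) (S (nat_lit 40775) (L (nat_lit 15769178))
(L (nat_lit 3025584)))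
(L (nat_lit 221934))))
(L (nat_lit 25790798)))))
(L (nat_lit 25666581)))))
(L (nat_lit 25727317)))))
(S (nat_lit 36348) (S (nat_lit 1) (S (nat_lit 17031) (S (nat_lit 2249) (S (nat_lit 8345) (L (nat_lit 14771447))
(S (nat_lit 32417) (S (nat_lit 10986) (L (nat_lit 26711656))
(L (nat_lit 8211841)))
(L (nat_lit 8020353))))
(S (nat_lit 22013) (S (nat_lit 56074) (S (nat_lit 21482) (S (nat_lit 15332) (L (nat_lit 18117316))
(L (nat_lit 7393693)))
(L (nat_lit 16359203)))
(L (nat_lit 8309124)))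
(S (nat_lit 41777) (S (nat_lit 37283) (S (nat_lit 8786) (L (nat_lit 16489252))
(L (nat_lit 6703876)))
(S (nat_lit 52073) (S (nat_lit 56074) (L (nat_lit 7224930))
(L (nat_lit 8290710)))
(L (nat_lit 9496174))))
(L (nat_lit 25337549)))))
(S (nat_lit 36795) (S (nat_lit 6592) (S (nat_lit 28079) (S (nat_lit 10987) (S (nat_lit 13160) (L (nat_lit 1942224))
(L (nat_lit 8214577)))
(L (nat_lit 6893722)))
(L (nat_lit 7931696)))
(S (nat_lit 26356) (S (nat_lit 1892) (S (nat_lit 28574) (L (nat_lit 19274563))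
(L (nat_lit 19307301)))
(S (nat_lit 15332) (S (nat_lit 35147) (S (nat_lit 36796) (S (nat_lit 43933) (L (nat_lit 19019559))
(L (nat_lit 13279010)))
(L (nat_lit 12904037)))
(L (nat_lit 2930411)))
(L (nat_lit 1291900))))
(S (nat_lit 46120) (S (nat_lit 35135) (S (nat_lit 32948) (S (nat_lit 5657) (L (nat_lit 13821298))
(L (nat_lit 20165789)))
(L (nat_lit 31071781)))
(L (nat_lit 20814989)))
(L (nat_lit 25756136)))))
(S (nat_lit 56559) (S (nat_lit 17145) (L (nat_lit 1630583))
(S (nat_lit 36834) (S (nat_lit 1775) (S (nat_lit 36349) (S (nat_lit 41738) (L (nat_lit 30049675))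
(L (nat_lit 27464087)))
(L (nat_lit 7193153)))
(S (nat_lit 21539) (S (nat_lit 4390) (L (nat_lit 28365192))
(L (nat_lit 649609)))
(S (nat_lit 41303) (S (nat_lit 36835) (S (nat_lit 54854) (S (nat_lit 56560) (S (nat_lit 31931) (S (nat_lit 52196) (S (nat_lit 40817) (L (nat_lit 4070803))
(L (nat_lit 10016890)))
(L (nat_lit 27512846)))
(L (nat_lit 14490208)))
(L (nat_lit 27957637)))
(L (nat_lit 27472453)))
(L (nat_lit 7788320)))
(L (nat_lit 25429430)))))
(L (nat_lit 218928))))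
(L (nat_lit 25855529)))))
(S (nat_lit 19765) (S (nat_lit 7829) (S (nat_lit 16546) (S (nat_lit 1289) (S (nat_lit 8810) (S (nat_lit 12653) (S (nat_lit 37283) (L (nat_lit 14231707))
(L (nat_lit 9311950)))
(L (nat_lit 26713697)))
(L (nat_lit 15008381)))
(L (nat_lit 13927037)))
(S (nat_lit 36310) (L (nat_lit 26386030))
(S (nat_lit 56074) (L (nat_lit 2956908))
(L (nat_lit 25624787)))))
(S (nat_lit 27593) (S (nat_lit 48338) (S (nat_lit 16546) (S (nat_lit 12653) (S (nat_lit 1289) (S (nat_lit 15347) (S (nat_lit 47792) (S (nat_lit 43918) (L (nat_lit 23393293))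
(L (nat_lit 27775113)))
(L (nat_lit 27414896)))
(L (nat_lit 22421532)))
(L (nat_lit 3677820)))
(L (nat_lit 16555617)))
(L (nat_lit 15507041)))
(L (nat_lit 15900282)))
(S (nat_lit 47357) (S (nat_lit 66) (S (nat_lit 26355) (S (nat_lit 47858) (S (nat_lit 35135) (L (nat_lit 16318840))
(L (nat_lit 2693997)))
(L (nat_lit 19970392)))
(L (nat_lit 3645018)))
(S (nat_lit 19830) (S (nat_lit 56089) (S (nat_lit 32948) (S (nat_lit 12653) (L (nat_lit 6872220))
(L (nat_lit 21791110)))
(L (nat_lit 20284208)))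
(L (nat_lit 27471987)))
(S (nat_lit 39594) (S (nat_lit 28574) (S (nat_lit 20996) (S (nat_lit 24154) (L (nat_lit 6916504))
(L (nat_lit 9950050)))
(L (nat_lit 22200105)))
(S (nat_lit 46689) (L (nat_lit 11322081))
(L (nat_lit 13402730))))
(L (nat_lit 25529996)))))
(L (nat_lit 25546274)))))
(S (nat_lit 39529) (S (nat_lit 16560) (S (nat_lit 31931) (S (nat_lit 12224) (S (nat_lit 19831) (S (nat_lit 35147) (S (nat_lit 4446) (S (nat_lit 19815) (S (nat_lit 39594) (S (nat_lit 54854) (S (nat_lit 21866) (L (nat_lit 22092315))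
(S (nat_lit 31152) (L (nat_lit 1592570))
(S (nat_lit 36310) (S (nat_lit 1718) (S (nat_lit 4390) (S (nat_lit 54860) (S (nat_lit 46162) (L (nat_lit 5591451))
(L (nat_lit 18699273)))
(L (nat_lit 16690789)))
(L (nat_lit 20489122)))
(L (nat_lit 10055169)))
(L (nat_lit 23358513)))))
(L (nat_lit 21931149)))
(L (nat_lit 12335186)))
(L (nat_lit 9095008)))
(L (nat_lit 18748999)))
(L (nat_lit 30855365)))
(L (nat_lit 31137903)))
(S (nat_lit 55545) (L (nat_lit 15638115))
(L (nat_lit 26523829))))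
(S (nat_lit 55440) (S (nat_lit 55197) (L (nat_lit 24944686))
(L (nat_lit 30967029)))
(L (nat_lit 1612661))))
(S (nat_lit 36324) (S (nat_lit 17558) (S (nat_lit 12710) (L (nat_lit 1260405))
(L (nat_lit 26609013)))
(S (nat_lit 37322) (S (nat_lit 1232) (S (nat_lit 21053) (S (nat_lit 6077) (S (nat_lit 56598) (S (nat_lit 32924) (L (nat_lit 9170992))
(L (nat_lit 2613458)))
(L (nat_lit 9008548)))
(L (nat_lit 10239553)))
(L (nat_lit 22315417)))
(L (nat_lit 20322396)))
(S (nat_lit 57086) (S (nat_lit 2210) (S (nat_lit 10987) (S (nat_lit 15311) (L (nat_lit 29557326))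
(L (nat_lit 15501034)))
(L (nat_lit 6911427)))
(S (nat_lit 35060) (L (nat_lit 5857580))
(L (nat_lit 1668490))))
(L (nat_lit 25632389)))))
(S (nat_lit 56088) (S (nat_lit 16546) (S (nat_lit 12310) (L (nat_lit 456298))
(S (nat_lit 27593) (L (nat_lit 9306734))
(L (nat_lit 4660859))))
(S (nat_lit 36310) (S (nat_lit 460) (S (nat_lit 52134) (L (nat_lit 13366315))
(L (nat_lit 340603)))
(S (nat_lit 21053) (S (nat_lit 52181) (S (nat_lit 27593) (S (nat_lit 52) (L (nat_lit 29070542))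
(L (nat_lit 12868763)))
(L (nat_lit 1646448)))
(L (nat_lit 20813192)))
(L (nat_lit 1613435))))
(S (nat_lit 56074) (S (nat_lit 6778) (L (nat_lit 6004121))
(S (nat_lit 52181) (S (nat_lit 2210) (L (nat_lit 14556769))
(L (nat_lit 7967132)))
(L (nat_lit 20880771))))
(L (nat_lit 25861668)))))
(L (nat_lit 25367278)))))
(L (nat_lit 25577666)))))
(S (nat_lit 56112) (S (nat_lit 15332) (S (nat_lit 1247) (S (nat_lit 27608) (S (nat_lit 36796) (S (nat_lit 51) (S (nat_lit 51695) (S (nat_lit 50463) (S (nat_lit 51752) (S (nat_lit 12653) (S (nat_lit 15362) (S (nat_lit 45605) (L (nat_lit 28890152))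
(L (nat_lit 9026714)))
(L (nat_lit 26852708)))
(L (nat_lit 26533313)))
(L (nat_lit 12900192)))
(L (nat_lit 13488320)))
(L (nat_lit 27380169)))
(L (nat_lit 19363169)))
(L (nat_lit 8031645)))
(L (nat_lit 19133488)))
(S (nat_lit 21011) (S (nat_lit 12653) (S (nat_lit 10936) (S (nat_lit 15383) (S (nat_lit 51752) (L (nat_lit 26301929))
(L (nat_lit 8127029)))
(L (nat_lit 8009508)))
(S (nat_lit 45228) (L (nat_lit 1876466))
(L (nat_lit 245554))))
(S (nat_lit 32417) (S (nat_lit 5591) (S (nat_lit 15383) (L (nat_lit 28365009))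
(L (nat_lit 8270898)))
(S (nat_lit 52105) (L (nat_lit 246394))
(L (nat_lit 5743415))))
(S (nat_lit 52181) (S (nat_lit 21497) (S (nat_lit 36796) (S (nat_lit 56559) (S (nat_lit 10936) (S (nat_lit 30765) (L (nat_lit 29434577))
(L (nat_lit 9090817)))
(L (nat_lit 21168909)))
(L (nat_lit 9357328)))
(L (nat_lit 7824992)))
(L (nat_lit 22983846)))
(L (nat_lit 25897409)))))
(S (nat_lit 40775) (S (nat_lit 10987) (S (nat_lit 15377) (S (nat_lit 36147) (S (nat_lit 36796) (S (nat_lit 40817) (L (nat_lit 24638789))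
(L (nat_lit 875943)))
(L (nat_lit 870954)))
(S (nat_lit 36795) (S (nat_lit 40817) (S (nat_lit 10986) (S (nat_lit 56074) (L (nat_lit 4793754))
(L (nat_lit 27951499)))
(L (nat_lit 16348512)))
(L (nat_lit 9527703)))
(L (nat_lit 7431792))))
(S (nat_lit 16916) (L (nat_lit 27690728))
(L (nat_lit 7484028))))
(S (nat_lit 30751) (S (nat_lit 15311) (S (nat_lit 36835) (S (nat_lit 25421) (L (nat_lit 2567864))
(L (nat_lit 21804386)))
(L (nat_lit 7853861)))
(L (nat_lit 218925)))
(S (nat_lit 50515) (S (nat_lit 45170) (S (nat_lit 17534) (S (nat_lit 15371) (S (nat_lit 13184) (L (nat_lit 22574437))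
(L (nat_lit 8281637)))
(L (nat_lit 941546)))
(L (nat_lit 8063790)))
(L (nat_lit 7399831)))
(L (nat_lit 25933992)))))
(L (nat_lit 25546210)))))
(S (nat_lit 35096) (S (nat_lit 13145) (S (nat_lit 67) (S (nat_lit 10936) (S (nat_lit 28094) (S (nat_lit 15362) (L (nat_lit 2352752))
(L (nat_lit 8077221)))
(L (nat_lit 7468533)))
(L (nat_lit 7388978)))
(S (nat_lit 19831) (S (nat_lit 24169) (S (nat_lit 24168) (S (nat_lit 8264) (L (nat_lit 10196752))
(L (nat_lit 10276944)))
(L (nat_lit 30723151)))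
(S (nat_lit 54458) (L (nat_lit 10357173))
(L (nat_lit 30721108))))
(S (nat_lit 39595) (S (nat_lit 43388) (L (nat_lit 826000))
(S (nat_lit 45656) (S (nat_lit 48338) (S (nat_lit 45671) (L (nat_lit 246520))
(L (nat_lit 8869667)))
(L (nat_lit 13816587)))
(L (nat_lit 12816088))))
(L (nat_lit 25732770)))))
(S (nat_lit 32909) (S (nat_lit 6634) (S (nat_lit 27593) (S (nat_lit 24154) (S (nat_lit 45170) (L (nat_lit 21903434))
(L (nat_lit 10377666)))
(L (nat_lit 3035528)))
(L (nat_lit 6342267)))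
(S (nat_lit 26398) (S (nat_lit 30700) (S (nat_lit 36482) (L (nat_lit 22383503))
(L (nat_lit 9854724)))
(S (nat_lit 50599) (L (nat_lit 2927127))
(L (nat_lit 30459122))))
(S (nat_lit 46162) (S (nat_lit 23626) (L (nat_lit 9998970))
(S (nat_lit 24210) (S (nat_lit 51) (S (nat_lit 15383) (S (nat_lit 46105) (S (nat_lit 45656) (S (nat_lit 35111) (S (nat_lit 66) (S (nat_lit 51695) (S (nat_lit 50419) (L (nat_lit 6837061))
(L (nat_lit 19406908)))
(L (nat_lit 15407938)))
(L (nat_lit 8096248)))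
(L (nat_lit 10089925)))
(L (nat_lit 15033025)))
(L (nat_lit 27707747)))
(L (nat_lit 600605)))
(L (nat_lit 14494400)))
(L (nat_lit 10206016))))
(L (nat_lit 25340343)))))
(S (nat_lit 52673) (S (nat_lit 1775) (S (nat_lit 30751) (S (nat_lit 35090) (S (nat_lit 26341) (S (nat_lit 56559) (L (nat_lit 18915867))
(L (nat_lit 14344203)))
(L (nat_lit 15943864)))
(L (nat_lit 19985743)))
(L (nat_lit 10228336)))
(S (nat_lit 21539) (S (nat_lit 30699) (S (nat_lit 14248) (L (nat_lit 10537433))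
(L (nat_lit 27840646)))
(L (nat_lit 10174337)))
(S (nat_lit 41303) (S (nat_lit 21989) (S (nat_lit 28574) (L (nat_lit 15392939))
(L (nat_lit 18182757)))
(L (nat_lit 18622053)))
(L (nat_lit 25696833)))))
(L (nat_lit 25399762)))))
(S (nat_lit 54860) (S (nat_lit 15311) (S (nat_lit 7829) (S (nat_lit 21870) (S (nat_lit 51) (L (nat_lit 26743398))
(L (nat_lit 7468781)))
(S (nat_lit 36810) (S (nat_lit 51) (S (nat_lit 10935) (L (nat_lit 14438439))
(L (nat_lit 7856832)))
(L (nat_lit 7468781)))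
(L (nat_lit 7963536))))
(S (nat_lit 27593) (S (nat_lit 15371) (S (nat_lit 45671) (S (nat_lit 36835) (S (nat_lit 46162) (S (nat_lit 32924) (L (nat_lit 28982440))
(L (nat_lit 15327429)))
(L (nat_lit 17650883)))
(L (nat_lit 906449)))
(L (nat_lit 7160483)))
(L (nat_lit 6897821)))
(S (nat_lit 47357) (S (nat_lit 10935) (S (nat_lit 40760) (L (nat_lit 1266511))
(L (nat_lit 10407952)))
(S (nat_lit 52359) (L (nat_lit 17141434))
(L (nat_lit 7394063))))
(L (nat_lit 25218569)))))
(S (nat_lit 35075) (S (nat_lit 54899) (S (nat_lit 10678) (L (nat_lit 9142682))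
(S (nat_lit 56575) (S (nat_lit 17448) (L (nat_lit 15947557))
(S (nat_lit 56599) (S (nat_lit 66) (S (nat_lit 32948) (S (nat_lit 17519) (S (nat_lit 57178) (L (nat_lit 22068134))
(L (nat_lit 22065005)))
(L (nat_lit 7926468)))
(L (nat_lit 8913716)))
(L (nat_lit 7229920)))
(L (nat_lit 9257605))))
(L (nat_lit 14262117))))
(L (nat_lit 19301195)))
(S (nat_lit 54839) (S (nat_lit 8771) (S (nat_lit 21936) (L (nat_lit 7770962))
(S (nat_lit 36834) (S (nat_lit 17558) (L (nat_lit 5459757))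
(L (nat_lit 8291732)))
(L (nat_lit 447770))))
(S (nat_lit 28535) (S (nat_lit 31988) (S (nat_lit 37283) (S (nat_lit 17046) (L (nat_lit 28712053))
(L (nat_lit 2339637)))
(L (nat_lit 2339451)))
(L (nat_lit 13883202)))
(S (nat_lit 48299) (S (nat_lit 1733) (S (nat_lit 1) (S (nat_lit 39594) (L (nat_lit 28744292))
(L (nat_lit 27611584)))
(L (nat_lit 19117082)))
(S (nat_lit 27692) (L (nat_lit 22112558))
(L (nat_lit 19947761))))
(L (nat_lit 25176813)))))
(L (nat_lit 25172498)))))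
(L (nat_lit 25929839)))))
(L (nat_lit 25613541)))))
(L (nat_lit 25337237)))))
(L (nat_lit 25928096)))))

theorem rb182_4 : run 4 lb182 [] tb182_4 kb182 (P4 4 1473 0 5135 0 1 0 0 0) [] = true := by
  decide +kernel

noncomputable def tb246_0_9 : Tr :=
(S (nat_lit 1240) (S (nat_lit 1763) (S (nat_lit 1036) (S (nat_lit 1991) (S (nat_lit 10949) (S (nat_lit 1003) (S (nat_lit 42) (S (nat_lit 1715) (S (nat_lit 21496) (L (nat_lit 29625072))
(L (nat_lit 7354008)))
(L (nat_lit 20062064)))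
(L (nat_lit 13916032)))
(L (nat_lit 20383963)))
(S (nat_lit 30713) (S (nat_lit 15340) (S (nat_lit 15351) (S (nat_lit 15371) (L (nat_lit 7458329))
(L (nat_lit 26871210)))
(L (nat_lit 26528942)))
(L (nat_lit 26838321)))
(S (nat_lit 50477) (S (nat_lit 1969) (S (nat_lit 35098) (S (nat_lit 50505) (L (nat_lit 13915937))
(L (nat_lit 20857185)))
(L (nat_lit 20180108)))
(L (nat_lit 14456853)))
(L (nat_lit 25365939)))))
(S (nat_lit 21755) (S (nat_lit 1257) (S (nat_lit 8779) (S (nat_lit 8823) (L (nat_lit 19163521))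
(L (nat_lit 937510)))
(S (nat_lit 48226) (S (nat_lit 1765) (S (nat_lit 28537) (L (nat_lit 18416551))
(L (nat_lit 12644009)))
(L (nat_lit 20147584)))
(L (nat_lit 26497105))))
(S (nat_lit 21021) (S (nat_lit 1944) (S (nat_lit 10977) (L (nat_lit 19035526))
(L (nat_lit 17918566)))
(L (nat_lit 20319544)))
(S (nat_lit 40785) (S (nat_lit 48338) (S (nat_lit 30699) (L (nat_lit 26481263))
(L (nat_lit 19089280)))
(L (nat_lit 14260376)))
(L (nat_lit 25868579)))))
(S (nat_lit 41519) (S (nat_lit 1715) (S (nat_lit 35120) (S (nat_lit 30746) (L (nat_lit 18885050))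
(L (nat_lit 13947929)))
(L (nat_lit 20233241)))
(S (nat_lit 21479) (L (nat_lit 13750118))
(S (nat_lit 41243) (S (nat_lit 21496) (S (nat_lit 39592) (S (nat_lit 37285) (L (nat_lit 8948349))
(L (nat_lit 20485496)))
(L (nat_lit 5056078)))
(L (nat_lit 16524468)))
(L (nat_lit 25526960)))))
(L (nat_lit 25627238)))))
(S (nat_lit 20800) (S (nat_lit 1277) (S (nat_lit 1279) (S (nat_lit 1726) (S (nat_lit 48307) (S (nat_lit 1748) (S (nat_lit 21708) (S (nat_lit 21739) (S (nat_lit 20761) (S (nat_lit 17496) (S (nat_lit 1262) (S (nat_lit 20798) (S (nat_lit 5489) (L (nat_lit 2311868))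
(L (nat_lit 17541244)))
(L (nat_lit 30970167)))
(L (nat_lit 13994807)))
(L (nat_lit 22071078)))
(L (nat_lit 5528120)))
(L (nat_lit 11454607)))
(L (nat_lit 11079565)))
(L (nat_lit 20816257)))
(S (nat_lit 58172) (S (nat_lit 49910) (L (nat_lit 5819142))
(L (nat_lit 8086543)))
(L (nat_lit 4774793))))
(S (nat_lit 10165) (L (nat_lit 257557))
(L (nat_lit 20060731))))
(S (nat_lit 21043) (S (nat_lit 17510) (S (nat_lit 1715) (S (nat_lit 62) (S (nat_lit 15340) (L (nat_lit 1602839))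
(L (nat_lit 6404826)))
(L (nat_lit 6867133)))
(S (nat_lit 43791) (L (nat_lit 1776093))
(L (nat_lit 19708225))))
(L (nat_lit 8107101)))
(S (nat_lit 40807) (S (nat_lit 41497) (S (nat_lit 40525) (S (nat_lit 20750) (S (nat_lit 19806) (S (nat_lit 39603) (L (nat_lit 22328411))
(L (nat_lit 24698950)))
(L (nat_lit 9196033)))
(L (nat_lit 6718391)))
(L (nat_lit 2006549)))
(L (nat_lit 7242261)))
(L (nat_lit 25246996)))))
(S (nat_lit 21041) (S (nat_lit 10982) (S (nat_lit 15351) (S (nat_lit 8795) (L (nat_lit 30529903))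
(L (nat_lit 14808277)))
(L (nat_lit 7466421)))
(S (nat_lit 30746) (S (nat_lit 32878) (S (nat_lit 1047) (L (nat_lit 31147019))
(L (nat_lit 4747912)))
(S (nat_lit 41260) (S (nat_lit 19828) (S (nat_lit 35073) (S (nat_lit 21770) (L (nat_lit 5788891))
(L (nat_lit 1881303)))
(L (nat_lit 10206081)))
(L (nat_lit 22847502)))
(L (nat_lit 1395599))))
(S (nat_lit 50510) (S (nat_lit 41260) (S (nat_lit 35115) (S (nat_lit 41497) (L (nat_lit 13486400))
(L (nat_lit 17948885)))
(L (nat_lit 8511925)))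
(L (nat_lit 7130597)))
(L (nat_lit 25596149)))))
(S (nat_lit 40805) (S (nat_lit 972) (S (nat_lit 2006) (S (nat_lit 10977) (L (nat_lit 13411511))
(L (nat_lit 6409137)))
(S (nat_lit 33530) (L (nat_lit 12440065))
(L (nat_lit 19424512))))
(S (nat_lit 20736) (S (nat_lit 24790) (L (nat_lit 969126))
(S (nat_lit 41534) (S (nat_lit 8795) (L (nat_lit 28424774))
(L (nat_lit 1330957)))
(L (nat_lit 576728))))
(S (nat_lit 40500) (S (nat_lit 10977) (S (nat_lit 15351) (L (nat_lit 28396937))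
(L (nat_lit 576888)))
(L (nat_lit 767352)))
(L (nat_lit 25447812)))))
(L (nat_lit 25709577)))))
(S (nat_lit 40564) (S (nat_lit 1047) (S (nat_lit 15334) (S (nat_lit 8795) (S (nat_lit 1290) (L (nat_lit 28874002))
(L (nat_lit 19406691)))
(L (nat_lit 1341135)))
(S (nat_lit 35098) (S (nat_lit 50463) (S (nat_lit 8762) (L (nat_lit 26257996))
(L (nat_lit 7883589)))
(L (nat_lit 13475521)))
(S (nat_lit 54862) (S (nat_lit 37335) (S (nat_lit 30699) (L (nat_lit 17730246))
(L (nat_lit 13888193)))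
(L (nat_lit 14527169)))
(L (nat_lit 25410710)))))
(S (nat_lit 20811) (S (nat_lit 1229) (S (nat_lit 1732) (S (nat_lit 20798) (S (nat_lit 21722) (L (nat_lit 7892675))
(L (nat_lit 30528966)))
(L (nat_lit 22127131)))
(L (nat_lit 19116896)))
(S (nat_lit 20993) (S (nat_lit 19811) (S (nat_lit 41293) (S (nat_lit 21540) (S (nat_lit 21722) (S (nat_lit 39542) (S (nat_lit 1732) (S (nat_lit 21043) (S (nat_lit 57099) (S (nat_lit 52771) (L (nat_lit 5584541))
(L (nat_lit 2388590)))
(L (nat_lit 19339142)))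
(L (nat_lit 31145281)))
(L (nat_lit 11554671)))
(L (nat_lit 12441028)))
(L (nat_lit 14996384)))
(L (nat_lit 30515666)))
(L (nat_lit 1336943)))
(L (nat_lit 22136059)))
(S (nat_lit 40757) (S (nat_lit 21733) (S (nat_lit 47692) (L (nat_lit 19759562))
(L (nat_lit 30523015)))
(L (nat_lit 7464655)))
(L (nat_lit 25762272)))))
(S (nat_lit 40575) (S (nat_lit 42) (S (nat_lit 1246) (S (nat_lit 1290) (S (nat_lit 1215) (S (nat_lit 8795) (S (nat_lit 17510) (S (nat_lit 8762) (S (nat_lit 40525) (S (nat_lit 1748) (S (nat_lit 1277) (S (nat_lit 40542) (S (nat_lit 1715) (S (nat_lit 1726) (S (nat_lit 17527) (S (nat_lit 17496) (S (nat_lit 17558) (S (nat_lit 8748) (S (nat_lit 1701) (S (nat_lit 21770) (S (nat_lit 1257) (S (nat_lit 21755) (S (nat_lit 21739) (S (nat_lit 21783) (S (nat_lit 8779) (S (nat_lit 1279) (S (nat_lit 47) (S (nat_lit 40531) (S (nat_lit 6927) (S (nat_lit 6916) (S (nat_lit 5231) (S (nat_lit 47670) (S (nat_lit 14784) (S (nat_lit 23127) (S (nat_lit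 23160) (S (nat_lit 11010) (S (nat_lit 13477) (S (nat_lit 25297) (D (nat_lit 11) (nat_lit 13454408) (nat_lit 25529932) (nat_lit 144955179072))
(L (nat_lit 27384262)))
(L (nat_lit 27991493)))
(S (nat_lit 30341) (S (nat_lit 51335) (S (nat_lit 28931) (S (nat_lit 38684) (S (nat_lit 49485) (D (nat_lit 15) (nat_lit 8175205) (nat_lit 9932562) (nat_lit 280253141154))
(L (nat_lit 26713142)))
(L (nat_lit 16535558)))
(L (nat_lit 21193248)))
(L (nat_lit 21773537)))
(L (nat_lit 7263311))))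
(L (nat_lit 27762339)))
(L (nat_lit 27841763)))
(L (nat_lit 16853943)))
(L (nat_lit 10360374)))
(L (nat_lit 16872791)))
(L (nat_lit 27578543)))
(S (nat_lit 23571) (S (nat_lit 23613) (S (nat_lit 23618) (S (nat_lit 45488) (S (nat_lit 47217) (S (nat_lit 4740) (S (nat_lit 15356) (S (nat_lit 7234) (S (nat_lit 41438) (D (nat_lit 11) (nat_lit 13440747) (nat_lit 12324431) (nat_lit 209448863778))
(L (nat_lit 30032160)))
(L (nat_lit 30097761)))
(S (nat_lit 39104) (S (nat_lit 51335) (S (nat_lit 37679) (S (nat_lit 29936) (S (nat_lit 49938) (D (nat_lit 15) (nat_lit 8177253) (nat_lit 9932562) (nat_lit 282396365030))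
(L (nat_lit 26778676)))
(L (nat_lit 21773318)))
(L (nat_lit 15950528)))
(L (nat_lit 21773537)))
(L (nat_lit 6713394))))
(L (nat_lit 16962936)))
(L (nat_lit 4007661)))
(L (nat_lit 16668742)))
(L (nat_lit 27842630)))
(L (nat_lit 27827908)))
(S (nat_lit 32576) (S (nat_lit 55678) (S (nat_lit 32609) (S (nat_lit 54901) (S (nat_lit 6058) (S (nat_lit 38581) (S (nat_lit 13946) (S (nat_lit 38662) (S (nat_lit 48388) (S (nat_lit 30325) (D (nat_lit 15) (nat_lit 6214152) (nat_lit 16533797) (nat_lit 206292914344))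
(L (nat_lit 22606053)))
(L (nat_lit 21893513)))
(L (nat_lit 27578754)))
(L (nat_lit 27679076)))
(L (nat_lit 21836068)))
(S (nat_lit 13460) (S (nat_lit 29903) (S (nat_lit 8195) (S (nat_lit 57169) (D (nat_lit 15) (nat_lit 6104688) (nat_lit 1841740) (nat_lit 69995763813))
(L (nat_lit 16600201)))
(L (nat_lit 29739492)))
(L (nat_lit 27576868)))
(L (nat_lit 14839402))))
(L (nat_lit 10673004)))
(L (nat_lit 3501772)))
(L (nat_lit 8580812)))
(L (nat_lit 27576834)))))
(L (nat_lit 1764718)))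
(L (nat_lit 13491397)))
(L (nat_lit 20015531)))
(L (nat_lit 14768443)))
(L (nat_lit 14705907)))
(L (nat_lit 21114360)))
(L (nat_lit 21456038)))
(L (nat_lit 20386728)))
(L (nat_lit 21180441)))
(L (nat_lit 20718733)))
(L (nat_lit 23290926)))
(L (nat_lit 680302)))
(L (nat_lit 7005665)))
(L (nat_lit 7463533)))
(L (nat_lit 20715630)))
(L (nat_lit 20015590)))
(L (nat_lit 3849533)))
(L (nat_lit 14355709)))
(L (nat_lit 20791585)))
(L (nat_lit 24207878)))
(L (nat_lit 26434671)))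
(L (nat_lit 1292146)))
(L (nat_lit 8213551)))
(L (nat_lit 18985770)))
(L (nat_lit 14352760)))
(L (nat_lit 20788262)))
(L (nat_lit 14538081)))
(L (nat_lit 25222602)))))
(L (nat_lit 25466260)))))
(S (nat_lit 21527) (S (nat_lit 17571) (S (nat_lit 1215) (S (nat_lit 8773) (S (nat_lit 8790) (S (nat_lit 40095) (S (nat_lit 1246) (S (nat_lit 21750) (S (nat_lit 1047) (S (nat_lit 41212) (L (nat_lit 9966418))
(L (nat_lit 26950944)))
(L (nat_lit 20456473)))
(L (nat_lit 11273779)))
(L (nat_lit 19085121)))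
(L (nat_lit 635227)))
(L (nat_lit 23333304)))
(S (nat_lit 28537) (S (nat_lit 21496) (S (nat_lit 21479) (S (nat_lit 33517) (S (nat_lit 23099) (L (nat_lit 2310776))
(L (nat_lit 10614415)))
(L (nat_lit 11306671)))
(L (nat_lit 8279217)))
(L (nat_lit 806378)))
(S (nat_lit 48301) (S (nat_lit 10935) (S (nat_lit 15309) (L (nat_lit 22905318))
(L (nat_lit 8053249)))
(L (nat_lit 7856833)))
(L (nat_lit 25636023)))))
(S (nat_lit 20979) (S (nat_lit 1986) (S (nat_lit 48307) (S (nat_lit 15340) (L (nat_lit 28588770))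
(L (nat_lit 22307202)))
(L (nat_lit 22100249)))
(S (nat_lit 21750) (S (nat_lit 19101) (L (nat_lit 18046785))
(S (nat_lit 40547) (S (nat_lit 15384) (S (nat_lit 11010) (L (nat_lit 11350134))
(L (nat_lit 18477127)))
(L (nat_lit 24571975)))
(L (nat_lit 7821400))))
(S (nat_lit 41514) (S (nat_lit 8823) (S (nat_lit 10966) (L (nat_lit 22456411))
(L (nat_lit 16016503)))
(L (nat_lit 7795264)))
(L (nat_lit 25855497)))))
(S (nat_lit 40743) (S (nat_lit 1047) (S (nat_lit 8762) (S (nat_lit 37291) (S (nat_lit 40525) (S (nat_lit 21512) (L (nat_lit 28714098))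
(L (nat_lit 15982465)))
(L (nat_lit 1696262)))
(L (nat_lit 23379064)))
(S (nat_lit 9653) (S (nat_lit 46753) (L (nat_lit 5533076))
(L (nat_lit 26938671)))
(L (nat_lit 8087663))))
(S (nat_lit 20811) (S (nat_lit 10997) (S (nat_lit 8762) (S (nat_lit 15351) (L (nat_lit 15992757))
(L (nat_lit 7196129)))
(L (nat_lit 26429519)))
(S (nat_lit 16687) (L (nat_lit 487635))
(L (nat_lit 8052908))))
(S (nat_lit 40575) (S (nat_lit 8762) (S (nat_lit 15351) (S (nat_lit 10977) (L (nat_lit 17934165))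
(L (nat_lit 16014520)))
(L (nat_lit 22299832)))
(S (nat_lit 9653) (L (nat_lit 551221))
(L (nat_lit 8008548))))
(L (nat_lit 25929156)))))
(L (nat_lit 25513379)))))
(S (nat_lit 37335) (S (nat_lit 1047) (S (nat_lit 10960) (S (nat_lit 8748) (S (nat_lit 40743) (S (nat_lit 21512) (L (nat_lit 936358))
(L (nat_lit 7857729)))
(L (nat_lit 636251)))
(S (nat_lit 48141) (L (nat_lit 8145968))
(L (nat_lit 8173590))))
(S (nat_lit 30724) (S (nat_lit 15351) (S (nat_lit 8748) (S (nat_lit 10935) (L (nat_lit 30966471))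
(L (nat_lit 16554689)))
(L (nat_lit 15506113)))
(S (nat_lit 32483) (L (nat_lit 1582811))
(L (nat_lit 15403385))))
(S (nat_lit 50488) (S (nat_lit 1975) (S (nat_lit 1003) (S (nat_lit 35073) (L (nat_lit 29405397))
(L (nat_lit 20383622)))
(L (nat_lit 20821158)))
(S (nat_lit 4569) (L (nat_lit 19774819))
(L (nat_lit 13486401))))
(L (nat_lit 25744521)))))
(S (nat_lit 20811) (S (nat_lit 1743) (S (nat_lit 16625) (L (nat_lit 11308595))
(S (nat_lit 21041) (S (nat_lit 21722) (L (nat_lit 21295555))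
(L (nat_lit 16320422)))
(L (nat_lit 1886727))))
(S (nat_lit 21507) (S (nat_lit 40774) (S (nat_lit 10949) (S (nat_lit 15323) (L (nat_lit 26498436))
(L (nat_lit 257426)))
(L (nat_lit 257612)))
(L (nat_lit 8178148)))
(S (nat_lit 41271) (S (nat_lit 21041) (S (nat_lit 19826) (S (nat_lit 10960) (L (nat_lit 16320390))
(L (nat_lit 1882482)))
(S (nat_lit 25086) (S (nat_lit 19296) (L (nat_lit 2925297))
(L (nat_lit 8171671)))
(L (nat_lit 16478564))))
(L (nat_lit 22842919)))
(L (nat_lit 25821739)))))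
(S (nat_lit 40575) (S (nat_lit 8795) (S (nat_lit 21722) (S (nat_lit 40525) (S (nat_lit 40743) (S (nat_lit 21496) (S (nat_lit 21465) (S (nat_lit 1765) (S (nat_lit 62) (S (nat_lit 35087) (L (nat_lit 8913657))
(L (nat_lit 31099183)))
(L (nat_lit 14358717)))
(L (nat_lit 9983131)))
(L (nat_lit 7434829)))
(L (nat_lit 8007704)))
(L (nat_lit 602984)))
(L (nat_lit 27856175)))
(S (nat_lit 27713) (L (nat_lit 13477908))
(L (nat_lit 1467016))))
(S (nat_lit 28559) (S (nat_lit 21465) (S (nat_lit 28587) (S (nat_lit 35148) (L (nat_lit 28913124))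
(L (nat_lit 20821062)))
(L (nat_lit 9293185)))
(L (nat_lit 7434829)))
(S (nat_lit 48323) (S (nat_lit 1003) (S (nat_lit 41293) (S (nat_lit 1975) (S (nat_lit 21496) (S (nat_lit 26317) (S (nat_lit 3499) (L (nat_lit 5583577))
(L (nat_lit 4665237)))
(L (nat_lit 23898127)))
(L (nat_lit 7367311)))
(L (nat_lit 20821313)))
(L (nat_lit 18113621)))
(L (nat_lit 20820998)))
(L (nat_lit 25727187)))))
(L (nat_lit 25215656)))))
(S (nat_lit 57099) (S (nat_lit 75) (S (nat_lit 10977) (S (nat_lit 15351) (L (nat_lit 12701510))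
(L (nat_lit 7920513)))
(L (nat_lit 8110977)))
(S (nat_lit 19839) (S (nat_lit 8762) (S (nat_lit 1969) (S (nat_lit 21043) (S (nat_lit 19789) (S (nat_lit 41503) (S (nat_lit 40774) (S (nat_lit 48323) (S (nat_lit 37260) (S (nat_lit 39592) (S (nat_lit 19826) (S (nat_lit 20798) (S (nat_lit 14) (S (nat_lit 30774) (L (nat_lit 12096252))
(L (nat_lit 19295520)))
(L (nat_lit 19295525)))
(L (nat_lit 16478313)))
(S (nat_lit 40345) (L (nat_lit 11586479))
(L (nat_lit 2994891))))
(L (nat_lit 10664885)))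
(L (nat_lit 14413830)))
(L (nat_lit 11081583)))
(L (nat_lit 833195)))
(L (nat_lit 838119)))
(L (nat_lit 3780399)))
(L (nat_lit 16552523)))
(L (nat_lit 13404903)))
(S (nat_lit 28526) (S (nat_lit 21043) (S (nat_lit 1969) (S (nat_lit 39592) (S (nat_lit 39570) (S (nat_lit 8795) (S (nat_lit 1715) (S (nat_lit 40743) (S (nat_lit 48276) (S (nat_lit 41503) (S (nat_lit 41276) (S (nat_lit 8823) (S (nat_lit 1765) (S (nat_lit 37260) (S (nat_lit 57049) (S (nat_lit 37291) (S (nat_lit 21021) (S (nat_lit 21750) (S (nat_lit 20767) (S (nat_lit 1036) (S (nat_lit 41472) (S (nat_lit 41534) (S (nat_lit 57071) (S (nat_lit 28576) (S (nat_lit 1014) (S (nat_lit 20736) (S (nat_lit 40547) (S (nat_lit 62) (S (nat_lit 11113) (S (nat_lit 55687) (S (nat_lit 16369) (S (nat_lit 46470) (S (nat_lit 30927) (S (nat_lit 21660) (S (nat_lit 54862) (S (nat_lit 19285) (D (nat_lit 11) (nat_lit 27964552) (nat_lit 25767022) (nat_lit 212877904002))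
(L (nat_lit 27757194)))
(L (nat_lit 27478435)))
(S (nat_lit 28907) (S (nat_lit 3978) (D (nat_lit 11) (nat_lit 16566465) (nat_lit 805167) (nat_lit 140660311264))
(L (nat_lit 27865442)))
(L (nat_lit 13978467))))
(L (nat_lit 2998855)))
(L (nat_lit 28874902)))
(L (nat_lit 6379441)))
(L (nat_lit 2323057)))
(S (nat_lit 47651) (S (nat_lit 13074) (S (nat_lit 28164) (S (nat_lit 32642) (S (nat_lit 15916) (S (nat_lit 35697) (S (nat_lit 51663) (S (nat_lit 15537) (S (nat_lit 41562) (S (nat_lit 6498) (D (nat_lit 11) (nat_lit 17614886) (nat_lit 8145008) (nat_lit 107407900898))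
(L (nat_lit 31043877)))
(L (nat_lit 28913888)))
(S (nat_lit 56919) (S (nat_lit 20857) (S (nat_lit 56869) (D (nat_lit 13) (nat_lit 12339277) (nat_lit 8951384) (nat_lit 5642655105216))
(L (nat_lit 15926038)))
(L (nat_lit 26885312)))
(L (nat_lit 30753909))))
(L (nat_lit 19197999)))
(L (nat_lit 28809367)))
(L (nat_lit 28891272)))
(L (nat_lit 16620194)))
(L (nat_lit 28528813)))
(L (nat_lit 30658947)))
(S (nat_lit 54899) (S (nat_lit 50510) (S (nat_lit 4727) (S (nat_lit 2840) (S (nat_lit 22405) (S (nat_lit 17628) (S (nat_lit 37016) (S (nat_lit 4009) (S (nat_lit 24106) (S (nat_lit 29664) (D (nat_lit 13) (nat_lit 27935783) (nat_lit 25765041) (nat_lit 6708980095109))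
(L (nat_lit 27381192)))
(L (nat_lit 27699842)))
(L (nat_lit 27667104)))
(L (nat_lit 27866306)))
(S (nat_lit 20953) (S (nat_lit 12017) (S (nat_lit 41593) (S (nat_lit 12724) (S (nat_lit 26067) (S (nat_lit 39417) (D (nat_lit 13) (nat_lit 25789679) (nat_lit 19667121) (nat_lit 8866963129376))
(L (nat_lit 19803681)))
(L (nat_lit 19772645)))
(L (nat_lit 27757226)))
(L (nat_lit 19809539)))
(L (nat_lit 27868417)))
(L (nat_lit 13726278))))
(L (nat_lit 3829288)))
(L (nat_lit 29543978)))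
(L (nat_lit 27446826)))
(L (nat_lit 27381290)))
(L (nat_lit 12206266)))))
(L (nat_lit 20448637)))
(L (nat_lit 27482497)))
(L (nat_lit 21901384)))
(L (nat_lit 19085369)))
(L (nat_lit 25005576)))
(L (nat_lit 19404026)))
(L (nat_lit 18585352)))
(L (nat_lit 24417723)))
(L (nat_lit 11452005)))
(L (nat_lit 21359045)))
(L (nat_lit 7487347)))
(L (nat_lit 22518563)))
(L (nat_lit 3464637)))
(L (nat_lit 20984584)))
(L (nat_lit 9077647)))
(L (nat_lit 12118629)))
(L (nat_lit 6438772)))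
(L (nat_lit 27285926)))
(L (nat_lit 6803332)))
(L (nat_lit 22233115)))
(L (nat_lit 23344315)))
(L (nat_lit 20344129)))
(L (nat_lit 6371093)))
(L (nat_lit 11203105)))
(L (nat_lit 4576175)))
(L (nat_lit 19710986)))
(S (nat_lit 31601) (L (nat_lit 3714933))
(L (nat_lit 16461697))))
(S (nat_lit 48290) (S (nat_lit 14817) (L (nat_lit 30722594))
(S (nat_lit 21043) (S (nat_lit 41503) (S (nat_lit 1969) (S (nat_lit 41276) (S (nat_lit 40774) (S (nat_lit 19789) (S (nat_lit 8810) (S (nat_lit 37260) (S (nat_lit 39592) (S (nat_lit 20466) (L (nat_lit 17042013))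
(S (nat_lit 40743) (S (nat_lit 37381) (L (nat_lit 2343517))
(L (nat_lit 19674371)))
(L (nat_lit 898387))))
(L (nat_lit 10643055)))
(L (nat_lit 14387079)))
(L (nat_lit 1696111)))
(L (nat_lit 15787349)))
(L (nat_lit 8276417)))
(L (nat_lit 27285926)))
(L (nat_lit 10077089)))
(L (nat_lit 839146)))
(L (nat_lit 21525611))))
(L (nat_lit 25386373)))))
(S (nat_lit 39603) (S (nat_lit 986) (S (nat_lit 39570) (S (nat_lit 28554) (S (nat_lit 40547) (L (nat_lit 28661217))
(L (nat_lit 8280481)))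
(L (nat_lit 18425633)))
(L (nat_lit 27546145)))
(L (nat_lit 26563009)))
(L (nat_lit 25712743)))))
(L (nat_lit 25833761)))))
(S (nat_lit 41291) (S (nat_lit 8812) (S (nat_lit 15309) (S (nat_lit 8790) (S (nat_lit 41260) (S (nat_lit 10935) (S (nat_lit 1290) (S (nat_lit 21722) (S (nat_lit 17543) (S (nat_lit 8795) (S (nat_lit 50510) (L (nat_lit 31108581))
(L (nat_lit 14765272)))
(L (nat_lit 26328277)))
(L (nat_lit 26523668)))
(L (nat_lit 15332390)))
(L (nat_lit 19399032)))
(L (nat_lit 26885158)))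
(L (nat_lit 7113173)))
(S (nat_lit 9357) (S (nat_lit 17521) (S (nat_lit 19806) (L (nat_lit 21014318))
(L (nat_lit 22312448)))
(L (nat_lit 7355315)))
(L (nat_lit 1451705))))
(S (nat_lit 35073) (S (nat_lit 8823) (S (nat_lit 40547) (S (nat_lit 40525) (S (nat_lit 8795) (S (nat_lit 15876) (L (nat_lit 26663168))
(L (nat_lit 1874391)))
(L (nat_lit 7191573)))
(L (nat_lit 1648462)))
(L (nat_lit 23895425)))
(L (nat_lit 6943265)))
(S (nat_lit 54837) (S (nat_lit 8823) (S (nat_lit 57024) (S (nat_lit 21010) (S (nat_lit 40547) (L (nat_lit 695800))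
(L (nat_lit 8281505)))
(L (nat_lit 15486145)))
(L (nat_lit 21863969)))
(L (nat_lit 15332609)))
(L (nat_lit 25860545)))))
(S (nat_lit 28576) (S (nat_lit 10935) (S (nat_lit 20750) (S (nat_lit 15309) (S (nat_lit 54912) (L (nat_lit 7757909))
(L (nat_lit 19671585)))
(L (nat_lit 8148481)))
(S (nat_lit 21315) (L (nat_lit 5862826))
(L (nat_lit 6706081))))
(S (nat_lit 30699) (S (nat_lit 8823) (S (nat_lit 40547) (S (nat_lit 1014) (S (nat_lit 1715) (L (nat_lit 10302515))
(L (nat_lit 14471334)))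
(L (nat_lit 9295396)))
(L (nat_lit 17604161)))
(L (nat_lit 6746849)))
(S (nat_lit 50463) (S (nat_lit 8823) (S (nat_lit 57024) (S (nat_lit 21010) (S (nat_lit 19806) (L (nat_lit 4579892))
(L (nat_lit 21767713)))
(L (nat_lit 21771457)))
(L (nat_lit 15572705)))
(L (nat_lit 21427457)))
(L (nat_lit 25904321)))))
(S (nat_lit 48340) (S (nat_lit 1765) (S (nat_lit 1262) (S (nat_lit 17510) (S (nat_lit 8823) (S (nat_lit 37307) (S (nat_lit 37285) (S (nat_lit 40547) (S (nat_lit 40525) (S (nat_lit 48318) (S (nat_lit 21010) (S (nat_lit 41497) (S (nat_lit 41519) (S (nat_lit 8773) (S (nat_lit 19806) (S (nat_lit 21750) (S (nat_lit 1743) (S (nat_lit 1715) (S (nat_lit 39575) (S (nat_lit 2006) (S (nat_lit 19778) (S (nat_lit 41229) (S (nat_lit 40575) (S (nat_lit 17560) (S (nat_lit 20750) (S (nat_lit 37335) (S (nat_lit 62) (S (nat_lit 21512) (S (nat_lit 28543) (S (nat_lit 40757) (S (nat_lit 10977) (S (nat_lit 35104) (S (nat_lit 3985) (S (nat_lit 35135) (S (nat_lit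 5802) (S (nat_lit 45107) (S (nat_lit 43287) (S (nat_lit 10949) (S (nat_lit 6479) (S (nat_lit 54984) (S (nat_lit 18687) (D (nat_lit 15) (nat_lit 31078470) (nat_lit 25759112) (nat_lit 109523866792))
(L (nat_lit 31008785)))
(L (nat_lit 28913671)))
(S (nat_lit 20866) (S (nat_lit 31155) (S (nat_lit 50138) (D (nat_lit 15) (nat_lit 27857229) (nat_lit 19666346) (nat_lit 36512500836))
(L (nat_lit 28949576)))
(L (nat_lit 16698693)))
(L (nat_lit 17750208))))
(L (nat_lit 21489771)))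
(L (nat_lit 2769673)))
(L (nat_lit 21063113)))
(L (nat_lit 30552778)))
(L (nat_lit 30561770)))
(L (nat_lit 28399082)))
(L (nat_lit 23357986)))
(S (nat_lit 34966) (S (nat_lit 11277) (S (nat_lit 47981) (S (nat_lit 15165) (S (nat_lit 12043) (S (nat_lit 11339) (S (nat_lit 47661) (S (nat_lit 21319) (S (nat_lit 37981) (S (nat_lit 655) (D (nat_lit 15) (nat_lit 31011848) (nat_lit 13388034) (nat_lit 8396965))
(L (nat_lit 31037953)))
(L (nat_lit 16632067)))
(L (nat_lit 28916995)))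
(S (nat_lit 54862) (S (nat_lit 19327) (S (nat_lit 35137) (S (nat_lit 50897) (S (nat_lit 49467) (D (nat_lit 15) (nat_lit 10279984) (nat_lit 18997674) (nat_lit 5570072680))
(L (nat_lit 19330088)))
(L (nat_lit 19330272)))
(L (nat_lit 31011042)))
(L (nat_lit 28946752)))
(L (nat_lit 21435145))))
(L (nat_lit 28774058)))
(L (nat_lit 28951622)))
(L (nat_lit 28625283)))
(L (nat_lit 10647185)))
(L (nat_lit 8484497)))
(S (nat_lit 56773) (S (nat_lit 12523) (S (nat_lit 46777) (S (nat_lit 45203) (S (nat_lit 23837) (S (nat_lit 31630) (S (nat_lit 10165) (D (nat_lit 15) (nat_lit 18630948) (nat_lit 6036049) (nat_lit 4430366977))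
(L (nat_lit 29961601)))
(L (nat_lit 27859360)))
(L (nat_lit 27868480)))
(S (nat_lit 53824) (S (nat_lit 10305) (S (nat_lit 8409) (S (nat_lit 35120) (D (nat_lit 15) (nat_lit 9890867) (nat_lit 18997581) (nat_lit 72388707))
(L (nat_lit 31046884)))
(L (nat_lit 28949828)))
(L (nat_lit 18651776)))
(L (nat_lit 1552182))))
(L (nat_lit 15801084)))
(L (nat_lit 27867363)))
(L (nat_lit 17918326)))))
(L (nat_lit 18782358)))
(L (nat_lit 18782787)))
(L (nat_lit 21939555)))
(L (nat_lit 20847761)))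
(L (nat_lit 14455061)))
(L (nat_lit 31043011)))
(L (nat_lit 22488835)))
(L (nat_lit 9552573)))
(L (nat_lit 1648059)))
(L (nat_lit 22232836)))
(L (nat_lit 26291735)))
(L (nat_lit 5031498)))
(L (nat_lit 14222152)))
(L (nat_lit 14287787)))
(L (nat_lit 1529641)))
(L (nat_lit 22297786)))
(L (nat_lit 1856936)))
(L (nat_lit 6349207)))
(L (nat_lit 27370222)))
(L (nat_lit 22245860)))
(L (nat_lit 22144366)))
(L (nat_lit 1696046)))
(L (nat_lit 27756103)))
(L (nat_lit 14391145)))
(L (nat_lit 14357753)))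
(L (nat_lit 7230849)))
(S (nat_lit 40713) (S (nat_lit 8823) (L (nat_lit 1615700))
(L (nat_lit 7228960)))
(L (nat_lit 16550602))))
(S (nat_lit 9428) (S (nat_lit 8795) (L (nat_lit 18946461))
(L (nat_lit 292559)))
(L (nat_lit 20815232))))
(S (nat_lit 21529) (S (nat_lit 1246) (S (nat_lit 42832) (L (nat_lit 20050287))
(S (nat_lit 50510) (L (nat_lit 26482101))
(L (nat_lit 10564533))))
(S (nat_lit 21010) (S (nat_lit 41260) (S (nat_lit 19828) (S (nat_lit 20993) (S (nat_lit 20800) (S (nat_lit 37307) (L (nat_lit 899287))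
(L (nat_lit 30689294)))
(L (nat_lit 22339726)))
(L (nat_lit 22297344)))
(L (nat_lit 3908494)))
(S (nat_lit 45795) (L (nat_lit 22162319))
(L (nat_lit 1716111))))
(S (nat_lit 40774) (S (nat_lit 17510) (S (nat_lit 41534) (S (nat_lit 19592) (S (nat_lit 21750) (S (nat_lit 43554) (S (nat_lit 47928) (L (nat_lit 25338323))
(L (nat_lit 28521526)))
(L (nat_lit 28527664)))
(L (nat_lit 1761485)))
(L (nat_lit 28528064)))
(L (nat_lit 18631752)))
(L (nat_lit 24939822)))
(L (nat_lit 25375396)))))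
(S (nat_lit 41293) (S (nat_lit 15356) (L (nat_lit 2378671))
(S (nat_lit 35120) (S (nat_lit 30741) (L (nat_lit 29990337))
(L (nat_lit 30689423)))
(S (nat_lit 54884) (L (nat_lit 29625071))
(L (nat_lit 25243311)))))
(L (nat_lit 25220398)))))
(L (nat_lit 25543698)))))
(L (nat_lit 25274096)))))
(S (nat_lit 21004) (S (nat_lit 11010) (S (nat_lit 1279) (S (nat_lit 2019) (S (nat_lit 1246) (S (nat_lit 8823) (S (nat_lit 35104) (S (nat_lit 15384) (L (nat_lit 18212417))
(L (nat_lit 16952149)))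
(L (nat_lit 23347320)))
(L (nat_lit 7786305)))
(S (nat_lit 21010) (S (nat_lit 40547) (S (nat_lit 41304) (S (nat_lit 28543) (L (nat_lit 28859398))
(L (nat_lit 3906968)))
(L (nat_lit 1909389)))
(L (nat_lit 8274529)))
(S (nat_lit 40774) (S (nat_lit 50505) (S (nat_lit 15323) (S (nat_lit 1003) (L (nat_lit 29871298))
(L (nat_lit 5054965)))
(L (nat_lit 1305199)))
(L (nat_lit 28025007)))
(L (nat_lit 25665588)))))
(S (nat_lit 21783) (S (nat_lit 1047) (S (nat_lit 39590) (S (nat_lit 21540) (S (nat_lit 8790) (L (nat_lit 16009985))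
(L (nat_lit 17558881)))
(L (nat_lit 8121796)))
(L (nat_lit 4746614)))
(S (nat_lit 20811) (S (nat_lit 16697) (L (nat_lit 16486651))
(S (nat_lit 24088) (L (nat_lit 1263224))
(L (nat_lit 15833876))))
(S (nat_lit 40575) (S (nat_lit 15351) (S (nat_lit 10960) (S (nat_lit 10935) (L (nat_lit 10608558))
(L (nat_lit 16474118)))
(L (nat_lit 7024827)))
(L (nat_lit 6407832)))
(L (nat_lit 25418764)))))
(S (nat_lit 41547) (S (nat_lit 17510) (S (nat_lit 15323) (S (nat_lit 41243) (S (nat_lit 40525) (S (nat_lit 40547) (S (nat_lit 10960) (S (nat_lit 15351) (S (nat_lit 50477) (S (nat_lit 20800) (S (nat_lit 972) (S (nat_lit 28543) (S (nat_lit 1003) (S (nat_lit 57055) (S (nat_lit 54868) (S (nat_lit 27701) (S (nat_lit 21722) (S (nat_lit 37335) (S (nat_lit 1257) (S (nat_lit 52263) (S (nat_lit 58408) (S (nat_lit 58910) (S (nat_lit 30603) (S (nat_lit 20612) (S (nat_lit 31321) (D (nat_lit 13) (nat_lit 26912193) (nat_lit 25761291) (nat_lit 3302831038600))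
(L (nat_lit 20345025)))
(L (nat_lit 29005872)))
(L (nat_lit 29012011)))
(L (nat_lit 14588512)))
(L (nat_lit 14603522)))
(S (nat_lit 55056) (S (nat_lit 53029) (S (nat_lit 15785) (S (nat_lit 48881) (S (nat_lit 16500) (S (nat_lit 39870) (D (nat_lit 13) (nat_lit 31009248) (nat_lit 25758956) (nat_lit 3410407529636))
(L (nat_lit 28728517)))
(L (nat_lit 31008784)))
(L (nat_lit 28913671)))
(L (nat_lit 31011169)))
(L (nat_lit 28913857)))
(L (nat_lit 5741275))))
(L (nat_lit 3644338)))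
(L (nat_lit 17615104)))
(L (nat_lit 21085958)))
(L (nat_lit 26289685)))
(L (nat_lit 13928342)))
(L (nat_lit 14753497)))
(L (nat_lit 26725733)))
(L (nat_lit 18114674)))
(L (nat_lit 26627396)))
(L (nat_lit 22569030)))
(L (nat_lit 11553582)))
(L (nat_lit 1337847)))
(L (nat_lit 17836667)))
(L (nat_lit 27280999)))
(L (nat_lit 27542644)))
(L (nat_lit 6378970)))
(L (nat_lit 1763629)))
(S (nat_lit 37274) (S (nat_lit 1726) (L (nat_lit 1632564))
(L (nat_lit 14458996)))
(S (nat_lit 57038) (S (nat_lit 8790) (L (nat_lit 24341921))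
(L (nat_lit 1633620)))
(L (nat_lit 25376357)))))
(L (nat_lit 25745547)))))
(S (nat_lit 21043) (S (nat_lit 8748) (S (nat_lit 21733) (S (nat_lit 17496) (S (nat_lit 21010) (S (nat_lit 21739) (S (nat_lit 8910) (S (nat_lit 17658) (L (nat_lit 12172065))
(L (nat_lit 21773351)))
(S (nat_lit 10935) (S (nat_lit 15309) (S (nat_lit 10977) (S (nat_lit 8790) (S (nat_lit 15351) (S (nat_lit 42) (S (nat_lit 39877) (S (nat_lit 41291) (S (nat_lit 40562) (S (nat_lit 41276) (S (nat_lit 25) (S (nat_lit 39883) (S (nat_lit 39866) (S (nat_lit 39916) (S (nat_lit 75) (S (nat_lit 17510) (S (nat_lit 15323) (S (nat_lit 8773) (S (nat_lit 10960) (S (nat_lit 40500) (S (nat_lit 41229) (S (nat_lit 21041) (S (nat_lit 19951) (S (nat_lit 13845) (S (nat_lit 2542) (S (nat_lit 25820) (S (nat_lit 22904) (D (nat_lit 11) (nat_lit 1952112) (nat_lit 25765038) (nat_lit 103114017795))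
(L (nat_lit 27988393)))
(L (nat_lit 27988360)))
(L (nat_lit 27920776)))
(S (nat_lit 27945) (S (nat_lit 5022) (S (nat_lit 45017) (S (nat_lit 43559) (D (nat_lit 11) (nat_lit 806442) (nat_lit 25767088) (nat_lit 206227740678))
(L (nat_lit 19737615)))
(L (nat_lit 19743753)))
(L (nat_lit 30000323)))
(L (nat_lit 21049164))))
(L (nat_lit 29607028)))
(L (nat_lit 21868617)))
(L (nat_lit 17411940)))
(L (nat_lit 17410916)))
(L (nat_lit 8138903)))
(L (nat_lit 8139927)))
(L (nat_lit 26980612)))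
(L (nat_lit 26708274)))
(L (nat_lit 19428609)))
(L (nat_lit 19407033)))
(L (nat_lit 19001616)))
(L (nat_lit 19148857)))
(L (nat_lit 809295)))
(L (nat_lit 24945025)))
(L (nat_lit 27992609)))
(L (nat_lit 27993633)))
(S (nat_lit 40687) (S (nat_lit 41416) (S (nat_lit 40693) (S (nat_lit 19957) (L (nat_lit 5583700))
(L (nat_lit 8008453)))
(L (nat_lit 29838374)))
(L (nat_lit 7979036)))
(L (nat_lit 6914588))))
(S (nat_lit 690) (L (nat_lit 17996409))
(L (nat_lit 518482))))
(L (nat_lit 15587463)))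
(L (nat_lit 15588486)))
(S (nat_lit 17700) (L (nat_lit 4409109))
(L (nat_lit 21872774))))
(L (nat_lit 24950977)))
(L (nat_lit 15753460))))
(L (nat_lit 30918881)))
(L (nat_lit 30918849)))
(L (nat_lit 22274529)))
(L (nat_lit 30808769)))
(S (nat_lit 28512) (S (nat_lit 41243) (S (nat_lit 40547) (S (nat_lit 15351) (S (nat_lit 8790) (S (nat_lit 41276) (L (nat_lit 30721633))
(L (nat_lit 17130049)))
(L (nat_lit 21832097)))
(L (nat_lit 7156353)))
(L (nat_lit 8281473)))
(L (nat_lit 6714017)))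
(S (nat_lit 48276) (S (nat_lit 17571) (S (nat_lit 8823) (S (nat_lit 20800) (S (nat_lit 17510) (S (nat_lit 15384) (L (nat_lit 21063982))
(L (nat_lit 22983969)))
(L (nat_lit 7007342)))
(L (nat_lit 6873236)))
(L (nat_lit 17160001)))
(L (nat_lit 6896449)))
(L (nat_lit 25417774)))))
(S (nat_lit 40807) (S (nat_lit 1003) (S (nat_lit 41293) (S (nat_lit 48323) (L (nat_lit 21337007))
(L (nat_lit 22288239)))
(L (nat_lit 1336911)))
(S (nat_lit 20767) (S (nat_lit 15323) (S (nat_lit 21490) (S (nat_lit 19789) (S (nat_lit 8795) (S (nat_lit 15351) (S (nat_lit 10960) (S (nat_lit 57099) (S (nat_lit 40757) (S (nat_lit 54884) (S (nat_lit 50525) (S (nat_lit 15198) (S (nat_lit 17560) (S (nat_lit 34982) (S (nat_lit 62) (S (nat_lit 57071) (S (nat_lit 15373) (S (nat_lit 34920) (S (nat_lit 47029) (S (nat_lit 1701) (S (nat_lit 986) (S (nat_lit 10616) (S (nat_lit 11389) (S (nat_lit 34086) (S (nat_lit 36669) (S (nat_lit 32368) (S (nat_lit 40192) (D (nat_lit 15) (nat_lit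 807181) (nat_lit 15485221) (nat_lit 168006854))
(L (nat_lit 12487374)))
(L (nat_lit 10407424)))
(L (nat_lit 28911136)))
(L (nat_lit 13487301)))
(L (nat_lit 31011072)))
(S (nat_lit 55930) (S (nat_lit 51144) (S (nat_lit 37884) (S (nat_lit 52892) (S (nat_lit 39706) (S (nat_lit 51635) (D (nat_lit 13) (nat_lit 26815877) (nat_lit 25761005) (nat_lit 7703299791906))
(L (nat_lit 30127207)))
(L (nat_lit 29807973)))
(L (nat_lit 29960240)))
(L (nat_lit 19294247)))
(L (nat_lit 29960640)))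
(L (nat_lit 3976595))))
(L (nat_lit 2898599)))
(L (nat_lit 20287929)))
(L (nat_lit 16653888)))
(L (nat_lit 26618037)))
(L (nat_lit 26662921)))
(L (nat_lit 12280356)))
(L (nat_lit 1782141)))
(L (nat_lit 7115284)))
(L (nat_lit 26813986)))
(L (nat_lit 1295253)))
(L (nat_lit 11955349)))
(L (nat_lit 27529748)))
(L (nat_lit 23501600)))
(L (nat_lit 27437589)))
(L (nat_lit 26449298)))
(L (nat_lit 1338805)))
(L (nat_lit 1952975)))
(L (nat_lit 31009967)))
(L (nat_lit 21826767)))
(L (nat_lit 1844847)))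
(S (nat_lit 40531) (S (nat_lit 8795) (S (nat_lit 41293) (S (nat_lit 8810) (L (nat_lit 226895))
(L (nat_lit 26385007)))
(L (nat_lit 24979535)))
(S (nat_lit 28559) (S (nat_lit 20800) (L (nat_lit 896719))
(L (nat_lit 30528783)))
(S (nat_lit 48323) (S (nat_lit 20800) (L (nat_lit 9212495))
(L (nat_lit 12424783)))
(L (nat_lit 25274901)))))
(L (nat_lit 25174671)))))
(L (nat_lit 25476673)))))
(S (nat_lit 30774) (S (nat_lit 1969) (S (nat_lit 986) (S (nat_lit 54879) (S (nat_lit 50505) (S (nat_lit 15309) (S (nat_lit 1763) (S (nat_lit 39570) (S (nat_lit 57099) (S (nat_lit 19839) (S (nat_lit 1732) (S (nat_lit 40547) (S (nat_lit 40807) (S (nat_lit 41243) (S (nat_lit 54851) (S (nat_lit 50477) (S (nat_lit 35120) (S (nat_lit 1036) (S (nat_lit 30544) (S (nat_lit 57049) (S (nat_lit 10844) (S (nat_lit 38167) (S (nat_lit 18648) (S (nat_lit 36256) (S (nat_lit 36225) (S (nat_lit 27650) (S (nat_lit 36619) (S (nat_lit 4040) (D (nat_lit 13) (nat_lit 18784899) (nat_lit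 3939920) (nat_lit 2441730858020))
(L (nat_lit 27764854)))
(L (nat_lit 19726759)))
(L (nat_lit 20443241)))
(L (nat_lit 27544069)))
(S (nat_lit 42791) (S (nat_lit 3523) (S (nat_lit 31413) (D (nat_lit 15) (nat_lit 27959372) (nat_lit 25761037) (nat_lit 211560898820))
(L (nat_lit 21869921)))
(L (nat_lit 28979556)))
(L (nat_lit 3781848))))
(L (nat_lit 1765649)))
(L (nat_lit 16512224)))
(L (nat_lit 27963648)))
(L (nat_lit 19773795)))
(L (nat_lit 26513073)))
(L (nat_lit 19184730)))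
(L (nat_lit 20201349)))
(L (nat_lit 5095733)))
(L (nat_lit 21858607)))
(L (nat_lit 7262657)))
(L (nat_lit 7434831)))
(L (nat_lit 1973686)))
(L (nat_lit 5090959)))
(L (nat_lit 15576705)))
(L (nat_lit 12151201)))
(L (nat_lit 18147009)))
(L (nat_lit 19805377)))
(L (nat_lit 22823105)))
(L (nat_lit 27542113)))
(L (nat_lit 14280033)))
(L (nat_lit 14282081)))
(S (nat_lit 21733) (S (nat_lit 10960) (S (nat_lit 1279) (S (nat_lit 40564) (L (nat_lit 22916271))
(L (nat_lit 8192436)))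
(S (nat_lit 21043) (S (nat_lit 40525) (S (nat_lit 8810) (S (nat_lit 8795) (L (nat_lit 6709332))
(L (nat_lit 7458607)))
(L (nat_lit 8030095)))
(L (nat_lit 7757940)))
(S (nat_lit 40807) (L (nat_lit 288148))
(L (nat_lit 25410148)))))
(S (nat_lit 30724) (S (nat_lit 2006) (S (nat_lit 35177) (L (nat_lit 4679957))
(S (nat_lit 54851) (S (nat_lit 40525) (S (nat_lit 54879) (L (nat_lit 15812893))
(L (nat_lit 16049729)))
(L (nat_lit 1941199)))
(L (nat_lit 16442628))))
(S (nat_lit 21770) (S (nat_lit 21010) (S (nat_lit 40500) (S (nat_lit 40564) (S (nat_lit 17543) (S (nat_lit 64) (S (nat_lit 41293) (S (nat_lit 54879) (S (nat_lit 54912) (S (nat_lit 20993) (S (nat_lit 17558) (S (nat_lit 15918) (S (nat_lit 8812) (S (nat_lit 62) (S (nat_lit 40542) (S (nat_lit 30746) (S (nat_lit 8843) (S (nat_lit 58675) (S (nat_lit 8985) (S (nat_lit 25043) (S (nat_lit 38556) (D (nat_lit 13) (nat_lit 3036617) (nat_lit 25767023) (nat_lit 36644755715))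
(L (nat_lit 8279523)))
(L (nat_lit 27349417)))
(L (nat_lit 29796438)))
(L (nat_lit 30083498)))
(S (nat_lit 57147) (S (nat_lit 27976) (S (nat_lit 17733) (S (nat_lit 49181) (S (nat_lit 29850) (D (nat_lit 13) (nat_lit 7260643) (nat_lit 25479279) (nat_lit 74125023335))
(L (nat_lit 20491356)))
(L (nat_lit 29510185)))
(L (nat_lit 29960271)))
(L (nat_lit 27855338)))
(L (nat_lit 28844149))))
(L (nat_lit 19151748)))
(L (nat_lit 10369074)))
(L (nat_lit 7517111)))
(L (nat_lit 8040474)))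
(L (nat_lit 28946439)))
(L (nat_lit 6710452)))
(L (nat_lit 30528967)))
(L (nat_lit 15911718)))
(L (nat_lit 15847174)))
(L (nat_lit 6415983)))
(L (nat_lit 8261231)))
(L (nat_lit 8237076)))
(L (nat_lit 8207509)))
(L (nat_lit 7786340)))
(L (nat_lit 22229761)))
(S (nat_lit 41534) (S (nat_lit 1139) (L (nat_lit 31007105))
(S (nat_lit 40514) (S (nat_lit 1748) (S (nat_lit 40564) (S (nat_lit 54899) (L (nat_lit 15270665))
(L (nat_lit 21403800)))
(L (nat_lit 18678374)))
(L (nat_lit 2966118)))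
(L (nat_lit 10085857))))
(L (nat_lit 25932992)))))
(S (nat_lit 50488) (S (nat_lit 10966) (S (nat_lit 15340) (S (nat_lit 21490) (S (nat_lit 8790) (L (nat_lit 6109460))
(L (nat_lit 1356473)))
(L (nat_lit 22177039)))
(L (nat_lit 7464561)))
(S (nat_lit 30730) (S (nat_lit 8762) (S (nat_lit 8795) (S (nat_lit 41293) (L (nat_lit 30690414))
(L (nat_lit 1339983)))
(L (nat_lit 1340047)))
(L (nat_lit 1273583)))
(S (nat_lit 50494) (S (nat_lit 41254) (S (nat_lit 1748) (S (nat_lit 25) (L (nat_lit 12593754))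
(L (nat_lit 830191)))
(L (nat_lit 10323383)))
(L (nat_lit 7177967)))
(L (nat_lit 25773128)))))
(L (nat_lit 25185736)))))
(S (nat_lit 41497) (S (nat_lit 17510) (S (nat_lit 54851) (S (nat_lit 40525) (S (nat_lit 41293) (S (nat_lit 20800) (S (nat_lit 8823) (S (nat_lit 15356) (S (nat_lit 8795) (S (nat_lit 21054) (S (nat_lit 39553) (S (nat_lit 20778) (S (nat_lit 41243) (S (nat_lit 19828) (S (nat_lit 42801) (S (nat_lit 57086) (S (nat_lit 30724) (S (nat_lit 28512) (S (nat_lit 3499) (S (nat_lit 6310) (S (nat_lit 25765) (S (nat_lit 42823) (S (nat_lit 54901) (S (nat_lit 1069) (S (nat_lit 38710) (S (nat_lit 17389) (D (nat_lit 15) (nat_lit 27869192) (nat_lit 25761101) (nat_lit 209381957893))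
(L (nat_lit 28904970)))
(L (nat_lit 16632098)))
(S (nat_lit 4302) (S (nat_lit 48859) (S (nat_lit 12076) (D (nat_lit 15) (nat_lit 31144105) (nat_lit 25758988) (nat_lit 109522817159))
(L (nat_lit 30739120)))
(L (nat_lit 28592611)))
(L (nat_lit 16378149))))
(L (nat_lit 11158588)))
(L (nat_lit 28811444)))
(L (nat_lit 12030772)))
(L (nat_lit 6688565)))
(L (nat_lit 7098788)))
(L (nat_lit 18078592)))
(L (nat_lit 13866616)))
(L (nat_lit 15035540)))
(L (nat_lit 9093893)))
(L (nat_lit 22192975)))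
(L (nat_lit 6371994)))
(L (nat_lit 7262316)))
(L (nat_lit 23270223)))
(L (nat_lit 1830378)))
(L (nat_lit 26334415)))
(L (nat_lit 1948916)))
(L (nat_lit 7771988)))
(L (nat_lit 16624724)))
(L (nat_lit 17884468)))
(L (nat_lit 18713908)))
(L (nat_lit 15787316)))
(S (nat_lit 37274) (S (nat_lit 41293) (S (nat_lit 20800) (S (nat_lit 8795) (S (nat_lit 21139) (L (nat_lit 26499084))
(L (nat_lit 10322671)))
(L (nat_lit 7156789)))
(L (nat_lit 30513589)))
(L (nat_lit 17639508)))
(S (nat_lit 57038) (S (nat_lit 20800) (S (nat_lit 41293) (S (nat_lit 8790) (L (nat_lit 22905199))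
(L (nat_lit 7073185)))
(L (nat_lit 7092308)))
(L (nat_lit 7125076)))
(L (nat_lit 25379429)))))
(L (nat_lit 25338606)))))
(S (nat_lit 50538) (S (nat_lit 15373) (S (nat_lit 14) (S (nat_lit 25) (S (nat_lit 15371) (S (nat_lit 20800) (S (nat_lit 50525) (S (nat_lit 50505) (L (nat_lit 31015080))
(L (nat_lit 5531247)))
(L (nat_lit 5062005)))
(L (nat_lit 6340437)))
(L (nat_lit 6907055)))
(S (nat_lit 19789) (S (nat_lit 3114) (L (nat_lit 7826487))
(S (nat_lit 20783) (S (nat_lit 21507) (L (nat_lit 15925882))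
(L (nat_lit 30594569)))
(L (nat_lit 15953505))))
(S (nat_lit 39553) (S (nat_lit 8790) (S (nat_lit 41497) (S (nat_lit 40525) (L (nat_lit 7752792))
(L (nat_lit 1497867)))
(L (nat_lit 6740740)))
(S (nat_lit 32805) (L (nat_lit 1372629))
(L (nat_lit 1829286))))
(L (nat_lit 25177839)))))
(S (nat_lit 19778) (S (nat_lit 1975) (S (nat_lit 39883) (L (nat_lit 9041313))
(S (nat_lit 40774) (S (nat_lit 40547) (L (nat_lit 3860751))
(L (nat_lit 27958657)))
(L (nat_lit 7861301))))
(S (nat_lit 21739) (S (nat_lit 19826) (S (nat_lit 50505) (S (nat_lit 21507) (S (nat_lit 21010) (S (nat_lit 21496) (L (nat_lit 2411005))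
(L (nat_lit 10996920)))
(L (nat_lit 15929021)))
(L (nat_lit 16422699)))
(L (nat_lit 13175558)))
(L (nat_lit 16116420)))
(S (nat_lit 41503) (S (nat_lit 8795) (S (nat_lit 21507) (S (nat_lit 10997) (L (nat_lit 16010333))
(L (nat_lit 1427349)))
(L (nat_lit 7804723)))
(L (nat_lit 1373903)))
(L (nat_lit 25832495)))))
(S (nat_lit 39542) (S (nat_lit 20643) (S (nat_lit 1279) (L (nat_lit 30921835))
(L (nat_lit 14603366)))
(S (nat_lit 21507) (S (nat_lit 1279) (S (nat_lit 39603) (S (nat_lit 48301) (S (nat_lit 21783) (L (nat_lit 4931965))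
(L (nat_lit 14944922)))
(L (nat_lit 5988721)))
(L (nat_lit 24265511)))
(L (nat_lit 26458228)))
(L (nat_lit 7519027))))
(L (nat_lit 25365169)))))
(S (nat_lit 35137) (S (nat_lit 8762) (S (nat_lit 40525) (S (nat_lit 8790) (S (nat_lit 17560) (S (nat_lit 42) (S (nat_lit 35115) (S (nat_lit 40547) (S (nat_lit 41271) (S (nat_lit 17543) (S (nat_lit 41229) (S (nat_lit 40514) (S (nat_lit 8795) (S (nat_lit 35073) (S (nat_lit 50505) (S (nat_lit 21054) (S (nat_lit 50463) (S (nat_lit 21770) (S (nat_lit 35098) (S (nat_lit 11502) (S (nat_lit 75) (S (nat_lit 8829) (S (nat_lit 58686) (S (nat_lit 8972) (S (nat_lit 33802) (S (nat_lit 38570) (D (nat_lit 13) (nat_lit 3037734) (nat_lit 25544815) (nat_lit 36644755715))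
(L (nat_lit 8277408)))
(L (nat_lit 27349542)))
(L (nat_lit 29989039)))
(L (nat_lit 29983113)))
(S (nat_lit 47885) (S (nat_lit 23633) (S (nat_lit 17700) (S (nat_lit 49192) (S (nat_lit 30612) (D (nat_lit 13) (nat_lit 3001897) (nat_lit 25765039) (nat_lit 69964273891))
(L (nat_lit 28949827)))
(L (nat_lit 29513131)))
(L (nat_lit 30097574)))
(L (nat_lit 28000451)))
(L (nat_lit 13329446))))
(L (nat_lit 26939879)))
(L (nat_lit 24911023)))
(L (nat_lit 19936632)))
(L (nat_lit 8179232)))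
(L (nat_lit 27919569)))
(L (nat_lit 11628205)))
(L (nat_lit 13339462)))
(L (nat_lit 20454458)))
(L (nat_lit 8240149)))
(L (nat_lit 27710471)))
(L (nat_lit 18425700)))
(L (nat_lit 7771901)))
(L (nat_lit 27591404)))
(L (nat_lit 8280449)))
(L (nat_lit 20345990)))
(L (nat_lit 13470438)))
(L (nat_lit 15869691)))
(L (nat_lit 308118)))
(L (nat_lit 1501429)))
(S (nat_lit 28526) (S (nat_lit 4123) (L (nat_lit 1663247))
(S (nat_lit 8795) (S (nat_lit 40547) (S (nat_lit 40525) (S (nat_lit 1969) (S (nat_lit 57099) (S (nat_lit 39542) (S (nat_lit 1732) (S (nat_lit 39570) (S (nat_lit 54899) (S (nat_lit 6450) (S (nat_lit 6422) (S (nat_lit 22875) (S (nat_lit 22847) (S (nat_lit 23254) (S (nat_lit 35301) (S (nat_lit 19335) (D (nat_lit 15) (nat_lit 27932742) (nat_lit 25759144) (nat_lit 209381957893))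
(L (nat_lit 27862033)))
(L (nat_lit 27865094)))
(S (nat_lit 31323) (S (nat_lit 35787) (S (nat_lit 18849) (D (nat_lit 15) (nat_lit 27867392) (nat_lit 25758989) (nat_lit 209381957893))
(L (nat_lit 27861041)))
(L (nat_lit 27865280)))
(L (nat_lit 28774118))))
(L (nat_lit 29999113)))
(L (nat_lit 29762274)))
(L (nat_lit 27885990)))
(L (nat_lit 27515983)))
(L (nat_lit 4856655)))
(L (nat_lit 17698131)))
(L (nat_lit 26448527)))
(L (nat_lit 24546091)))
(L (nat_lit 19673190)))
(L (nat_lit 26843215)))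
(L (nat_lit 1449813)))
(L (nat_lit 7802456)))
(L (nat_lit 1340885))))
(S (nat_lit 48290) (S (nat_lit 1344) (L (nat_lit 1711919))
(S (nat_lit 21054) (S (nat_lit 35087) (S (nat_lit 37335) (S (nat_lit 50488) (S (nat_lit 20800) (S (nat_lit 17560) (S (nat_lit 41243) (S (nat_lit 37307) (S (nat_lit 8795) (S (nat_lit 19828) (S (nat_lit 20750) (S (nat_lit 30741) (S (nat_lit 21026) (S (nat_lit 1229) (S (nat_lit 18872) (S (nat_lit 19806) (S (nat_lit 10620) (S (nat_lit 39553) (S (nat_lit 58143) (S (nat_lit 30183) (S (nat_lit 17000) (S (nat_lit 7039) (S (nat_lit 55665) (D (nat_lit 15) (nat_lit 30124046) (nat_lit 18997640) (nat_lit 73221086432))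
(L (nat_lit 28592644)))
(L (nat_lit 31048901)))
(S (nat_lit 42613) (S (nat_lit 51046) (S (nat_lit 3361) (D (nat_lit 15) (nat_lit 31072803) (nat_lit 25761036) (nat_lit 111702807719))
(L (nat_lit 30972544)))
(L (nat_lit 28821794)))
(L (nat_lit 29501876))))
(L (nat_lit 29938948)))
(L (nat_lit 28912783)))
(L (nat_lit 5892648)))
(L (nat_lit 6435606)))
(L (nat_lit 15345441)))
(L (nat_lit 6960034)))
(L (nat_lit 5860807)))
(L (nat_lit 30890153)))
(L (nat_lit 31012007)))
(L (nat_lit 31014055)))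
(L (nat_lit 30785122)))
(L (nat_lit 7164975)))
(L (nat_lit 31142116)))
(L (nat_lit 1700294)))
(L (nat_lit 6442555)))
(L (nat_lit 30953792)))
(L (nat_lit 14934691)))
(L (nat_lit 31069487)))
(L (nat_lit 30886987)))
(L (nat_lit 7178739))))
(L (nat_lit 25208213)))))
(S (nat_lit 54901) (S (nat_lit 62) (S (nat_lit 17510) (S (nat_lit 21026) (S (nat_lit 21722) (S (nat_lit 21750) (S (nat_lit 17560) (S (nat_lit 54879) (S (nat_lit 54851) (S (nat_lit 50510) (S (nat_lit 21054) (S (nat_lit 1765) (S (nat_lit 1715) (S (nat_lit 8795) (L (nat_lit 24348061))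
(L (nat_lit 26777291)))
(L (nat_lit 14418600)))
(S (nat_lit 21529) (L (nat_lit 21234141))
(S (nat_lit 41293) (S (nat_lit 41271) (S (nat_lit 997) (S (nat_lit 1019) (S (nat_lit 8773) (L (nat_lit 23298523))
(L (nat_lit 21771433)))
(L (nat_lit 13660743)))
(L (nat_lit 13403851)))
(L (nat_lit 27728947)))
(L (nat_lit 25887143)))))
(L (nat_lit 22570341)))
(L (nat_lit 4469464)))
(L (nat_lit 4403928)))
(L (nat_lit 4469591)))
(L (nat_lit 26544880)))
(L (nat_lit 15488261)))
(L (nat_lit 4514449)))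
(L (nat_lit 22519680)))
(S (nat_lit 18077) (L (nat_lit 26330420))
(L (nat_lit 1559837))))
(S (nat_lit 19826) (S (nat_lit 1732) (S (nat_lit 48276) (S (nat_lit 41293) (S (nat_lit 1003) (L (nat_lit 15947584))
(L (nat_lit 4891502)))
(L (nat_lit 27787847)))
(L (nat_lit 5096135)))
(S (nat_lit 21496) (S (nat_lit 20800) (S (nat_lit 21479) (L (nat_lit 21836806))
(L (nat_lit 22438113)))
(L (nat_lit 21201807)))
(S (nat_lit 41260) (S (nat_lit 21490) (S (nat_lit 15356) (S (nat_lit 19789) (L (nat_lit 415559))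
(L (nat_lit 15953044)))
(L (nat_lit 1700047)))
(L (nat_lit 16584426)))
(L (nat_lit 25675943)))))
(S (nat_lit 39590) (S (nat_lit 1047) (S (nat_lit 1986) (S (nat_lit 41293) (S (nat_lit 48323) (L (nat_lit 1396250))
(L (nat_lit 12096216)))
(L (nat_lit 27787847)))
(S (nat_lit 4335) (L (nat_lit 2345464))
(L (nat_lit 14485195))))
(S (nat_lit 20811) (S (nat_lit 19069) (L (nat_lit 10511859))
(S (nat_lit 41293) (S (nat_lit 39760) (L (nat_lit 15845757))
(L (nat_lit 16478565)))
(L (nat_lit 17629767))))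
(S (nat_lit 40575) (S (nat_lit 41293) (S (nat_lit 1715) (L (nat_lit 24403982))
(L (nat_lit 4798717)))
(L (nat_lit 27787572)))
(L (nat_lit 25483436)))))
(L (nat_lit 25723627)))))
(L (nat_lit 25510963)))))
(L (nat_lit 25634934)))))
(S (nat_lit 40768) (S (nat_lit 986) (S (nat_lit 1229) (S (nat_lit 17571) (S (nat_lit 15356) (S (nat_lit 10977) (S (nat_lit 21529) (S (nat_lit 8762) (L (nat_lit 18110337))
(L (nat_lit 26937647)))
(L (nat_lit 22306959)))
(L (nat_lit 290260)))
(S (nat_lit 35120) (S (nat_lit 21529) (S (nat_lit 30746) (S (nat_lit 2019) (S (nat_lit 37291) (L (nat_lit 14377002))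
(L (nat_lit 20200568)))
(L (nat_lit 12874405)))
(L (nat_lit 19151748)))
(L (nat_lit 21239695)))
(S (nat_lit 54884) (S (nat_lit 40525) (S (nat_lit 50494) (S (nat_lit 15351) (L (nat_lit 317978))
(L (nat_lit 26479184)))
(L (nat_lit 27540599)))
(L (nat_lit 23357487)))
(L (nat_lit 25801739)))))
(S (nat_lit 37335) (S (nat_lit 1763) (S (nat_lit 1246) (S (nat_lit 1975) (S (nat_lit 2019) (S (nat_lit 21479) (L (nat_lit 27558543))
(L (nat_lit 7977729)))
(L (nat_lit 19137017)))
(L (nat_lit 13263073)))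
(L (nat_lit 13847393)))
(S (nat_lit 21527) (S (nat_lit 15309) (L (nat_lit 26820897))
(L (nat_lit 22853857)))
(S (nat_lit 41291) (S (nat_lit 20368) (L (nat_lit 6345617))
(S (nat_lit 21529) (S (nat_lit 41534) (S (nat_lit 39570) (S (nat_lit 37291) (S (nat_lit 28554) (S (nat_lit 2019) (S (nat_lit 50505) (L (nat_lit 5551804))
(L (nat_lit 27698784)))
(L (nat_lit 19831269)))
(L (nat_lit 18118305)))
(L (nat_lit 20004157)))
(L (nat_lit 27540160)))
(L (nat_lit 27544656)))
(L (nat_lit 292277))))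
(L (nat_lit 25694950)))))
(S (nat_lit 57099) (S (nat_lit 2019) (S (nat_lit 18874) (L (nat_lit 7455419))
(S (nat_lit 57071) (S (nat_lit 40525) (S (nat_lit 39570) (S (nat_lit 39542) (S (nat_lit 19811) (S (nat_lit 20767) (S (nat_lit 1036) (S (nat_lit 41534) (S (nat_lit 20736) (S (nat_lit 37322) (S (nat_lit 1257) (S (nat_lit 40818) (S (nat_lit 40547) (S (nat_lit 41472) (S (nat_lit 1991) (S (nat_lit 41503) (S (nat_lit 40790) (S (nat_lit 57049) (S (nat_lit 39592) (S (nat_lit 37260) (S (nat_lit 8795) (S (nat_lit 21529) (S (nat_lit 48338) (S (nat_lit 41260) (S (nat_lit 21507) (S (nat_lit 48307) (S (nat_lit 1776) (S (nat_lit 1879) (S (nat_lit 18821) (S (nat_lit 18556) (S (nat_lit 48929) (S (nat_lit 38386) (S (nat_lit 29226) (S (nat_lit 8214) (S (nat_lit 54862) (S (nat_lit 36442) (D (nat_lit 11) (nat_lit 25864610) (nat_lit 19670467) (nat_lit 276831399))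
(L (nat_lit 28910769)))
(L (nat_lit 19770850)))
(S (nat_lit 25824) (S (nat_lit 12238) (S (nat_lit 54899) (D (nat_lit 11) (nat_lit 27957391) (nat_lit 25479619) (nat_lit 212843300994))
(L (nat_lit 27924900)))
(L (nat_lit 27933988)))
(L (nat_lit 17945515))))
(L (nat_lit 21469306)))
(L (nat_lit 21279621)))
(L (nat_lit 18555781)))
(L (nat_lit 27763333)))
(L (nat_lit 27319783)))
(S (nat_lit 19044) (S (nat_lit 10644) (S (nat_lit 19106) (S (nat_lit 19075) (S (nat_lit 30393) (S (nat_lit 14079) (S (nat_lit 32337) (S (nat_lit 54912) (D (nat_lit 11) (nat_lit 27929984) (nat_lit 25767429) (nat_lit 212877905988))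
(L (nat_lit 27866400)))
(L (nat_lit 21490980)))
(S (nat_lit 24137) (S (nat_lit 17448) (S (nat_lit 30761) (D (nat_lit 11) (nat_lit 26903917) (nat_lit 19259907) (nat_lit 242224323))
(L (nat_lit 24539493)))
(L (nat_lit 29777093)))
(L (nat_lit 7526873))))
(L (nat_lit 27931939)))
(L (nat_lit 23184231)))
(L (nat_lit 28918021)))
(L (nat_lit 30431723)))
(S (nat_lit 30746) (S (nat_lit 54851) (S (nat_lit 30724) (S (nat_lit 14029) (S (nat_lit 26017) (S (nat_lit 12260) (S (nat_lit 15509) (S (nat_lit 52149) (D (nat_lit 13) (nat_lit 25835808) (nat_lit 19672613) (nat_lit 210721931425))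
(L (nat_lit 13856788)))
(L (nat_lit 31137805)))
(L (nat_lit 27480174)))
(L (nat_lit 27775236)))
(S (nat_lit 36392) (S (nat_lit 36954) (S (nat_lit 16612) (S (nat_lit 3311) (S (nat_lit 11067) (D (nat_lit 13) (nat_lit 28025349) (nat_lit 25765349) (nat_lit 6639220594690))
(L (nat_lit 28915847)))
(L (nat_lit 28029031)))
(L (nat_lit 27959780)))
(L (nat_lit 27964773)))
(L (nat_lit 19204667))))
(L (nat_lit 10309058)))
(L (nat_lit 11456036)))
(L (nat_lit 3942965)))))
(L (nat_lit 3071433)))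
(L (nat_lit 22606953)))
(L (nat_lit 31112297)))
(L (nat_lit 24638784)))
(L (nat_lit 22539589)))
(L (nat_lit 31178085)))
(S (nat_lit 40485) (S (nat_lit 51359) (S (nat_lit 22326) (L (nat_lit 5643896))
(L (nat_lit 26885442)))
(L (nat_lit 26951011)))
(L (nat_lit 26973642))))
(L (nat_lit 4005553)))
(L (nat_lit 11292718)))
(L (nat_lit 10543574)))
(L (nat_lit 23986567)))
(L (nat_lit 24163111)))
(L (nat_lit 12640038)))
(L (nat_lit 9285746)))
(L (nat_lit 27935879)))
(L (nat_lit 8063789)))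
(L (nat_lit 19086361)))
(L (nat_lit 8978905)))
(L (nat_lit 30683282)))
(L (nat_lit 27528945)))
(L (nat_lit 11221760)))
(L (nat_lit 5712660)))
(L (nat_lit 9526715)))
(L (nat_lit 11123588)))
(L (nat_lit 27545772)))
(L (nat_lit 23357486)))
(L (nat_lit 19142138))))
(S (nat_lit 18387) (L (nat_lit 11293057))
(L (nat_lit 12845752))))
(L (nat_lit 25563751)))))
(S (nat_lit 20993) (S (nat_lit 8812) (S (nat_lit 17543) (S (nat_lit 41254) (S (nat_lit 21479) (S (nat_lit 15371) (L (nat_lit 6747158))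
(L (nat_lit 22447452)))
(L (nat_lit 21402969)))
(S (nat_lit 42193) (L (nat_lit 30769809))
(L (nat_lit 1499348))))
(S (nat_lit 37307) (S (nat_lit 40500) (S (nat_lit 20761) (S (nat_lit 10982) (L (nat_lit 3426133))
(L (nat_lit 7195662)))
(L (nat_lit 21425190)))
(L (nat_lit 24382317)))
(S (nat_lit 57071) (S (nat_lit 54879) (L (nat_lit 31044615))
(L (nat_lit 14256903)))
(L (nat_lit 25695474)))))
(S (nat_lit 28576) (S (nat_lit 1257) (S (nat_lit 8823) (S (nat_lit 41254) (S (nat_lit 2019) (L (nat_lit 18979293))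
(L (nat_lit 19165669)))
(L (nat_lit 27887143)))
(L (nat_lit 6746849)))
(S (nat_lit 21021) (S (nat_lit 41304) (S (nat_lit 21722) (S (nat_lit 41254) (S (nat_lit 1014) (S (nat_lit 21043) (S (nat_lit 17510) (S (nat_lit 17560) (S (nat_lit 40818) (S (nat_lit 41276) (S (nat_lit 30846) (S (nat_lit 21479) (L (nat_lit 26229077))
(L (nat_lit 22877640)))
(S (nat_lit 50538) (S (nat_lit 21479) (L (nat_lit 10566235))
(L (nat_lit 21829064)))
(L (nat_lit 5890351))))
(L (nat_lit 27924560)))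
(L (nat_lit 27560620)))
(L (nat_lit 6974480)))
(L (nat_lit 1857963)))
(L (nat_lit 22583416)))
(L (nat_lit 19372153)))
(L (nat_lit 27891759)))
(L (nat_lit 22470792)))
(S (nat_lit 42057) (L (nat_lit 3727602))
(L (nat_lit 6416850))))
(S (nat_lit 40785) (S (nat_lit 8779) (S (nat_lit 54899) (L (nat_lit 29795969))
(L (nat_lit 21403832)))
(L (nat_lit 23332689)))
(L (nat_lit 25827845)))))
(S (nat_lit 48340) (S (nat_lit 8823) (S (nat_lit 21479) (S (nat_lit 20761) (S (nat_lit 41254) (S (nat_lit 57055) (S (nat_lit 19778) (S (nat_lit 19806) (S (nat_lit 1215) (S (nat_lit 39575) (S (nat_lit 20778) (S (nat_lit 2006) (S (nat_lit 50505) (L (nat_lit 5711611))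
(L (nat_lit 11265408)))
(L (nat_lit 12313090)))
(L (nat_lit 16118835)))
(L (nat_lit 5956010)))
(L (nat_lit 10937459)))
(L (nat_lit 22312449)))
(L (nat_lit 9885604)))
(L (nat_lit 21405570)))
(L (nat_lit 3777294)))
(S (nat_lit 56684) (L (nat_lit 18484538))
(L (nat_lit 11983712))))
(S (nat_lit 33331) (S (nat_lit 20761) (S (nat_lit 39553) (S (nat_lit 57403) (L (nat_lit 7486203))
(L (nat_lit 22364001)))
(L (nat_lit 12181679)))
(L (nat_lit 5893643)))
(L (nat_lit 7987681))))
(S (nat_lit 20833) (S (nat_lit 21479) (L (nat_lit 26847777))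
(L (nat_lit 31031782)))
(L (nat_lit 7796448))))
(L (nat_lit 25666615)))))
(S (nat_lit 40757) (S (nat_lit 15351) (S (nat_lit 10982) (S (nat_lit 10966) (S (nat_lit 8779) (L (nat_lit 24405009))
(L (nat_lit 26478161)))
(L (nat_lit 26478160)))
(L (nat_lit 26481205)))
(S (nat_lit 35115) (S (nat_lit 41291) (S (nat_lit 39570) (L (nat_lit 276279))
(L (nat_lit 27547137)))
(L (nat_lit 27545089)))
(S (nat_lit 54879) (S (nat_lit 21529) (L (nat_lit 28574353))
(L (nat_lit 14966869)))
(L (nat_lit 25899360)))))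
(L (nat_lit 25598007)))))
(S (nat_lit 20750) (S (nat_lit 15356) (S (nat_lit 21529) (S (nat_lit 10977) (S (nat_lit 8795) (S (nat_lit 40525) (S (nat_lit 15384) (S (nat_lit 17560) (S (nat_lit 10999) (S (nat_lit 10949) (S (nat_lit 17510) (S (nat_lit 41497) (S (nat_lit 20800) (S (nat_lit 62) (S (nat_lit 21043) (S (nat_lit 40818) (S (nat_lit 40547) (S (nat_lit 21750) (S (nat_lit 41254) (S (nat_lit 19778) (S (nat_lit 57024) (S (nat_lit 50463) (S (nat_lit 21021) (S (nat_lit 39553) (S (nat_lit 48340) (S (nat_lit 54851) (S (nat_lit 37335) (S (nat_lit 28543) (S (nat_lit 35104) (S (nat_lit 39603) (S (nat_lit 972) (S (nat_lit 43828) (S (nat_lit 5250) (S (nat_lit 22363) (S (nat_lit 22120) (S (nat_lit 40842) (S (nat_lit 39713) (S (nat_lit 19187) (D (nat_lit 11) (nat_lit 17584482) (nat_lit 19673193) (nat_lit 210488068162))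
(L (nat_lit 31074444)))
(L (nat_lit 21873923)))
(L (nat_lit 19292448)))
(L (nat_lit 27867488)))
(L (nat_lit 27867489)))
(S (nat_lit 42403) (S (nat_lit 35888) (S (nat_lit 30106) (S (nat_lit 3129) (S (nat_lit 44016) (D (nat_lit 13) (nat_lit 29701138) (nat_lit 15279224) (nat_lit 105263405090))
(L (nat_lit 19807334)))
(L (nat_lit 29762707)))
(L (nat_lit 20359042)))
(L (nat_lit 19740868)))
(L (nat_lit 12473457))))
(L (nat_lit 29967714)))
(L (nat_lit 19308697)))
(L (nat_lit 27811073)))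
(L (nat_lit 10159677)))
(L (nat_lit 10192445)))
(L (nat_lit 9921653)))
(L (nat_lit 27795572)))
(L (nat_lit 27893809)))
(L (nat_lit 10504020)))
(L (nat_lit 30789644)))
(L (nat_lit 12502657)))
(L (nat_lit 12502689)))
(L (nat_lit 30823716)))
(L (nat_lit 1696298)))
(L (nat_lit 16700611)))
(L (nat_lit 23552259)))
(L (nat_lit 24910893)))
(L (nat_lit 6817373)))
(L (nat_lit 1402422)))
(L (nat_lit 12375456)))
(L (nat_lit 27712705)))
(L (nat_lit 838958)))
(L (nat_lit 837934)))
(L (nat_lit 26631177)))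
(L (nat_lit 26630153)))
(L (nat_lit 26652353)))
(L (nat_lit 24404015)))
(L (nat_lit 26498095)))
(L (nat_lit 26500239)))
(L (nat_lit 22306959)))
(S (nat_lit 35120) (S (nat_lit 21529) (S (nat_lit 10966) (S (nat_lit 20993) (S (nat_lit 41547) (S (nat_lit 8823) (S (nat_lit 50505) (L (nat_lit 28836215))
(L (nat_lit 22311360)))
(L (nat_lit 7991840)))
(L (nat_lit 2377522)))
(L (nat_lit 30672375)))
(S (nat_lit 30730) (S (nat_lit 20993) (S (nat_lit 1763) (S (nat_lit 30699) (S (nat_lit 48318) (S (nat_lit 40525) (S (nat_lit 50505) (S (nat_lit 972) (S (nat_lit 19806) (S (nat_lit 41304) (S (nat_lit 54868) (S (nat_lit 40818) (S (nat_lit 8823) (S (nat_lit 32878) (S (nat_lit 41519) (S (nat_lit 37335) (S (nat_lit 35098) (S (nat_lit 9395) (S (nat_lit 11551) (S (nat_lit 21319) (S (nat_lit 434) (S (nat_lit 53272) (S (nat_lit 36473) (D (nat_lit 9) (nat_lit 31074416) (nat_lit 19664173) (nat_lit 2250441960))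
(L (nat_lit 27284006)))
(L (nat_lit 13443747)))
(L (nat_lit 30029027)))
(L (nat_lit 28726531)))
(L (nat_lit 29077793)))
(S (nat_lit 55028) (S (nat_lit 57436) (S (nat_lit 51825) (S (nat_lit 20126) (S (nat_lit 948) (D (nat_lit 9) (nat_lit 30129408) (nat_lit 17573042) (nat_lit 40805408871))
(L (nat_lit 31174728)))
(L (nat_lit 29007952)))
(L (nat_lit 29013097)))
(L (nat_lit 14603620)))
(L (nat_lit 12605354))))
(L (nat_lit 13440648)))
(L (nat_lit 13823686)))
(L (nat_lit 7209367)))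
(L (nat_lit 1626328)))
(L (nat_lit 23499623)))
(L (nat_lit 728972)))
(L (nat_lit 10606137)))
(L (nat_lit 18115236)))
(L (nat_lit 30921895)))
(L (nat_lit 13912153)))
(L (nat_lit 22295741)))
(L (nat_lit 24404512)))
(L (nat_lit 22300416)))
(L (nat_lit 14360449)))
(L (nat_lit 19162160)))
(L (nat_lit 30685824)))
(S (nat_lit 50494) (L (nat_lit 278205))
(L (nat_lit 25483682)))))
(L (nat_lit 21239695)))
(S (nat_lit 54884) (S (nat_lit 40525) (S (nat_lit 20993) (S (nat_lit 19806) (S (nat_lit 8795) (S (nat_lit 50510) (S (nat_lit 21529) (S (nat_lit 21479) (S (nat_lit 19778) (S (nat_lit 21722) (S (nat_lit 10966) (S (nat_lit 17560) (S (nat_lit 8823) (S (nat_lit 56911) (S (nat_lit 8939) (S (nat_lit 972) (S (nat_lit 1215) (S (nat_lit 41254) (S (nat_lit 50488) (S (nat_lit 1003) (S (nat_lit 28574) (S (nat_lit 17632) (S (nat_lit 35916) (S (nat_lit 16199) (S (nat_lit 50560) (S (nat_lit 50803) (S (nat_lit 13998) (S (nat_lit 26759) (D (nat_lit 11) (nat_lit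 30131522) (nat_lit 19674283) (nat_lit 212774094978))
(L (nat_lit 13541058)))
(L (nat_lit 28916808)))
(L (nat_lit 28821828)))
(L (nat_lit 28821829)))
(L (nat_lit 28916964)))
(S (nat_lit 45253) (S (nat_lit 25695) (S (nat_lit 16028) (S (nat_lit 15785) (S (nat_lit 42191) (D (nat_lit 11) (nat_lit 16682667) (nat_lit 5688073) (nat_lit 36542088294))
(L (nat_lit 22454362)))
(L (nat_lit 30842996)))
(L (nat_lit 30842962)))
(L (nat_lit 28335593)))
(L (nat_lit 15926876))))
(L (nat_lit 3522358)))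
(L (nat_lit 18665643)))
(L (nat_lit 13642613)))
(L (nat_lit 6139568)))
(L (nat_lit 23453806)))
(L (nat_lit 11317861)))
(L (nat_lit 11323812)))
(L (nat_lit 4776651)))
(L (nat_lit 535347)))
(L (nat_lit 15331398)))
(L (nat_lit 420083)))
(L (nat_lit 1332080)))
(L (nat_lit 1701201)))
(L (nat_lit 31046731)))
(L (nat_lit 652625)))
(L (nat_lit 16013120)))
(L (nat_lit 4476408)))
(L (nat_lit 23346237)))
(L (nat_lit 22298464)))
(L (nat_lit 22283737)))
(L (nat_lit 23357487)))
(L (nat_lit 25448461)))))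
(S (nat_lit 40514) (S (nat_lit 15334) (S (nat_lit 8810) (S (nat_lit 42) (S (nat_lit 6029) (L (nat_lit 7180754))
(S (nat_lit 8790) (S (nat_lit 10997) (S (nat_lit 15351) (S (nat_lit 10982) (S (nat_lit 8795) (S (nat_lit 21529) (S (nat_lit 15340) (S (nat_lit 10966) (S (nat_lit 17521) (S (nat_lit 15384) (S (nat_lit 17543) (S (nat_lit 8779) (S (nat_lit 21708) (S (nat_lit 40562) (S (nat_lit 47) (S (nat_lit 40542) (S (nat_lit 15323) (S (nat_lit 14) (S (nat_lit 40785) (S (nat_lit 21733) (S (nat_lit 21507) (S (nat_lit 20487) (S (nat_lit 64) (S (nat_lit 43835) (S (nat_lit 34067) (S (nat_lit 43511) (S (nat_lit 6058) (S (nat_lit 45455) (D (nat_lit 11) (nat_lit 971243) (nat_lit 25767429) (nat_lit 206193137670))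
(L (nat_lit 18969096)))
(L (nat_lit 29829698)))
(L (nat_lit 19362114)))
(L (nat_lit 27902210)))
(S (nat_lit 47933) (S (nat_lit 23132) (S (nat_lit 23149) (S (nat_lit 3011) (S (nat_lit 25093) (D (nat_lit 11) (nat_lit 1888681) (nat_lit 25765315) (nat_lit 103148620803))
(L (nat_lit 28030213)))
(L (nat_lit 27545988)))
(L (nat_lit 27996484)))
(L (nat_lit 27931970)))
(L (nat_lit 10014808))))
(L (nat_lit 938376)))
(L (nat_lit 20222458)))
(L (nat_lit 21471074)))
(L (nat_lit 16049892)))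
(L (nat_lit 27761347)))
(L (nat_lit 7113174)))
(L (nat_lit 7113327)))
(L (nat_lit 9955010)))
(L (nat_lit 280189)))
(L (nat_lit 24704225)))
(L (nat_lit 14788498)))
(L (nat_lit 287308)))
(L (nat_lit 865003)))
(L (nat_lit 6801529)))
(L (nat_lit 26792290)))
(L (nat_lit 287312)))
(L (nat_lit 901427)))
(L (nat_lit 905519)))
(L (nat_lit 26498095)))
(L (nat_lit 292339)))
(L (nat_lit 7178741)))
(L (nat_lit 6440853)))
(L (nat_lit 7193782))))
(S (nat_lit 19806) (S (nat_lit 21529) (L (nat_lit 905581))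
(L (nat_lit 30514581)))
(S (nat_lit 39570) (S (nat_lit 21529) (L (nat_lit 905581))
(L (nat_lit 578439)))
(L (nat_lit 25835872)))))
(S (nat_lit 28574) (S (nat_lit 8748) (S (nat_lit 17543) (S (nat_lit 15356) (S (nat_lit 10997) (L (nat_lit 381436))
(L (nat_lit 6939076)))
(L (nat_lit 749807)))
(S (nat_lit 19082) (L (nat_lit 353781))
(L (nat_lit 8230388))))
(S (nat_lit 28512) (S (nat_lit 40547) (S (nat_lit 40790) (S (nat_lit 32967) (L (nat_lit 30459495))
(L (nat_lit 28711649)))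
(L (nat_lit 2939303)))
(S (nat_lit 41195) (L (nat_lit 3359320))
(L (nat_lit 8053155))))
(S (nat_lit 48276) (S (nat_lit 41254) (S (nat_lit 40564) (S (nat_lit 35104) (L (nat_lit 31129990))
(L (nat_lit 18455645)))
(L (nat_lit 8192436)))
(L (nat_lit 27891823)))
(L (nat_lit 25710599)))))
(S (nat_lit 48338) (S (nat_lit 8823) (S (nat_lit 17527) (L (nat_lit 26385907))
(S (nat_lit 18418) (S (nat_lit 40525) (S (nat_lit 55710) (L (nat_lit 276185))
(L (nat_lit 30846101)))
(L (nat_lit 27526863)))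
(L (nat_lit 7460282))))
(S (nat_lit 11811) (S (nat_lit 18213) (L (nat_lit 20003193))
(L (nat_lit 416120)))
(L (nat_lit 6993017))))
(L (nat_lit 25352682)))))
(S (nat_lit 35098) (S (nat_lit 17543) (S (nat_lit 11126) (S (nat_lit 8876) (L (nat_lit 5092043))
(L (nat_lit 24394813)))
(S (nat_lit 21783) (S (nat_lit 40525) (S (nat_lit 47) (S (nat_lit 42) (S (nat_lit 40743) (S (nat_lit 40500) (S (nat_lit 14) (S (nat_lit 8795) (S (nat_lit 17527) (S (nat_lit 8823) (S (nat_lit 35087) (S (nat_lit 17571) (S (nat_lit 40531) (S (nat_lit 21527) (S (nat_lit 50477) (S (nat_lit 35115) (S (nat_lit 40805) (S (nat_lit 21708) (S (nat_lit 50488) (S (nat_lit 62) (S (nat_lit 21496) (S (nat_lit 50510) (S (nat_lit 5248) (S (nat_lit 17700) (S (nat_lit 30562) (S (nat_lit 49485) (S (nat_lit 22842) (D (nat_lit 13) (nat_lit 7162892) (nat_lit 25765349) (nat_lit 74125023335))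
(L (nat_lit 27740484)))
(L (nat_lit 30061706)))
(L (nat_lit 22885636)))
(L (nat_lit 30097760)))
(S (nat_lit 33802) (S (nat_lit 8974) (S (nat_lit 57940) (S (nat_lit 39089) (S (nat_lit 34051) (D (nat_lit 13) (nat_lit 7260271) (nat_lit 25545187) (nat_lit 38725130344))
(L (nat_lit 27776353)))
(L (nat_lit 19407747)))
(L (nat_lit 29706693)))
(L (nat_lit 29991363)))
(L (nat_lit 14552651))))
(L (nat_lit 15296740)))
(L (nat_lit 5728500)))
(L (nat_lit 7058620)))
(L (nat_lit 12260109)))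
(L (nat_lit 22442275)))
(L (nat_lit 28025376)))
(L (nat_lit 20488993)))
(L (nat_lit 13312120)))
(L (nat_lit 30689827)))
(L (nat_lit 10095097)))
(L (nat_lit 26555073)))
(L (nat_lit 4080916)))
(L (nat_lit 964327)))
(L (nat_lit 288464)))
(L (nat_lit 17633523)))
(L (nat_lit 7113207)))
(L (nat_lit 27529650)))
(L (nat_lit 963178)))
(L (nat_lit 26497196)))
(L (nat_lit 26499460)))
(L (nat_lit 27542645)))
(L (nat_lit 30671347))))
(S (nat_lit 37307) (S (nat_lit 1715) (S (nat_lit 40531) (S (nat_lit 8790) (L (nat_lit 23360995))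
(L (nat_lit 7466486)))
(L (nat_lit 10275296)))
(S (nat_lit 21479) (S (nat_lit 41304) (S (nat_lit 20993) (S (nat_lit 40564) (L (nat_lit 30704206))
(L (nat_lit 17880409)))
(L (nat_lit 15833785)))
(L (nat_lit 27526611)))
(S (nat_lit 41243) (S (nat_lit 10977) (L (nat_lit 18455393))
(L (nat_lit 8248497)))
(L (nat_lit 25592150)))))
(S (nat_lit 57071) (S (nat_lit 30774) (S (nat_lit 1776) (S (nat_lit 41291) (L (nat_lit 23346017))
(L (nat_lit 24228120)))
(L (nat_lit 14358712)))
(L (nat_lit 10341793)))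
(L (nat_lit 25708587)))))
(S (nat_lit 54862) (S (nat_lit 64) (S (nat_lit 8762) (S (nat_lit 9447) (L (nat_lit 11392079))
(S (nat_lit 21529) (S (nat_lit 30730) (S (nat_lit 8790) (S (nat_lit 40547) (S (nat_lit 40525) (S (nat_lit 42) (S (nat_lit 40790) (S (nat_lit 21496) (S (nat_lit 54899) (S (nat_lit 11840) (S (nat_lit 16923) (S (nat_lit 30774) (S (nat_lit 21770) (S (nat_lit 8812) (S (nat_lit 40743) (S (nat_lit 54851) (S (nat_lit 57616) (S (nat_lit 27521) (S (nat_lit 17705) (S (nat_lit 30601) (S (nat_lit 49181) (D (nat_lit 13) (nat_lit 3000625) (nat_lit 25479653) (nat_lit 69964273891))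
(L (nat_lit 29706787)))
(L (nat_lit 20425540)))
(L (nat_lit 29993508)))
(L (nat_lit 27896354)))
(S (nat_lit 58183) (S (nat_lit 25319) (S (nat_lit 39310) (S (nat_lit 22074) (S (nat_lit 54432) (D (nat_lit 13) (nat_lit 4049199) (nat_lit 9194021) (nat_lit 7835270322184))
(L (nat_lit 28628355)))
(L (nat_lit 23470234)))
(L (nat_lit 21836036)))
(L (nat_lit 27930882)))
(L (nat_lit 1401238))))
(L (nat_lit 11038836)))
(L (nat_lit 7534157)))
(L (nat_lit 518386)))
(L (nat_lit 8228406)))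
(L (nat_lit 14330785)))
(L (nat_lit 20149633)))
(L (nat_lit 5991847)))
(L (nat_lit 27860141)))
(L (nat_lit 806222)))
(L (nat_lit 8183202)))
(L (nat_lit 20201344)))
(L (nat_lit 27547758)))
(L (nat_lit 24338513)))
(L (nat_lit 1337846)))
(L (nat_lit 17734210)))
(L (nat_lit 22920549))))
(S (nat_lit 28526) (S (nat_lit 972) (S (nat_lit 50463) (L (nat_lit 5874447))
(L (nat_lit 13305767)))
(L (nat_lit 26481228)))
(S (nat_lit 48290) (S (nat_lit 40547) (S (nat_lit 8795) (S (nat_lit 21479) (L (nat_lit 12172193))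
(L (nat_lit 31038481)))
(L (nat_lit 1947275)))
(L (nat_lit 27476545)))
(L (nat_lit 25207533)))))
(S (nat_lit 19828) (S (nat_lit 10966) (S (nat_lit 15340) (S (nat_lit 15371) (S (nat_lit 10982) (S (nat_lit 21722) (L (nat_lit 12149219))
(L (nat_lit 1701105)))
(L (nat_lit 7188501)))
(L (nat_lit 1972877)))
(L (nat_lit 1630825)))
(S (nat_lit 37180) (L (nat_lit 16552681))
(L (nat_lit 18587458))))
(S (nat_lit 39592) (S (nat_lit 2073) (S (nat_lit 30761) (S (nat_lit 8823) (L (nat_lit 21234172))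
(L (nat_lit 7485302)))
(L (nat_lit 24445804)))
(S (nat_lit 21783) (S (nat_lit 10982) (S (nat_lit 8790) (S (nat_lit 21041) (S (nat_lit 8795) (L (nat_lit 782639))
(L (nat_lit 8196751)))
(L (nat_lit 1581878)))
(L (nat_lit 8194550)))
(L (nat_lit 21238332)))
(L (nat_lit 11370995))))
(L (nat_lit 25726536)))))
(L (nat_lit 25177587)))))
(L (nat_lit 25442947)))))
(L (nat_lit 25601044)))))

theorem rb246_0_9 : run 4 lb246 [] tb246_0_9 kb246 [0, 21772, 31, 17538] [] = true := by
  decide +kernel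

noncomputable def ta14_4 : Tr :=
(S (nat_lit 1868) (S (nat_lit 749) (S (nat_lit 422) (S (nat_lit 1303) (S (nat_lit 752) (S (nat_lit 52) (L (nat_lit 726534))
(L (nat_lit 469730)))
(L (nat_lit 469078)))
(S (nat_lit 3517) (S (nat_lit 2215) (L (nat_lit 496297))
(L (nat_lit 514274)))
(S (nat_lit 5731) (S (nat_lit 936) (L (nat_lit 246400))
(S (nat_lit 2218) (S (nat_lit 5730) (S (nat_lit 2215) (S (nat_lit 4067) (S (nat_lit 3696) (L (nat_lit 148821))
(L (nat_lit 759239)))
(L (nat_lit 734434)))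
(L (nat_lit 479426)))
(L (nat_lit 279170)))
(L (nat_lit 276035))))
(L (nat_lit 606464)))))
(S (nat_lit 2636) (S (nat_lit 1482) (S (nat_lit 1141) (S (nat_lit 2214) (S (nat_lit 752) (S (nat_lit 5469) (L (nat_lit 178547))
(L (nat_lit 219618)))
(L (nat_lit 13622)))
(L (nat_lit 481505)))
(S (nat_lit 2486) (L (nat_lit 632908))
(L (nat_lit 630801))))
(S (nat_lit 3696) (S (nat_lit 1483) (S (nat_lit 2214) (L (nat_lit 242803))
(L (nat_lit 317452)))
(L (nat_lit 635234)))
(S (nat_lit 5910) (L (nat_lit 198285))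
(L (nat_lit 595279)))))
(S (nat_lit 4850) (S (nat_lit 737) (S (nat_lit 752) (S (nat_lit 4151) (L (nat_lit 502802))
(L (nat_lit 52524)))
(L (nat_lit 251981)))
(S (nat_lit 2951) (S (nat_lit 1140) (S (nat_lit 584) (L (nat_lit 177801))
(L (nat_lit 403574)))
(L (nat_lit 280592)))
(S (nat_lit 5165) (S (nat_lit 2957) (L (nat_lit 724427))
(L (nat_lit 264783)))
(L (nat_lit 590315)))))
(L (nat_lit 601169)))))
(S (nat_lit 2963) (S (nat_lit 737) (S (nat_lit 1519) (S (nat_lit 2027) (L (nat_lit 313520))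
(L (nat_lit 576865)))
(S (nat_lit 2218) (S (nat_lit 2027) (L (nat_lit 82263))
(S (nat_lit 3832) (L (nat_lit 502373))
(L (nat_lit 576865))))
(S (nat_lit 3019) (S (nat_lit 2214) (L (nat_lit 771079))
(L (nat_lit 282636)))
(L (nat_lit 460521)))))
(S (nat_lit 2951) (S (nat_lit 752) (S (nat_lit 5569) (S (nat_lit 2954) (L (nat_lit 266643))
(L (nat_lit 122379)))
(L (nat_lit 431350)))
(S (nat_lit 2966) (S (nat_lit 2214) (S (nat_lit 5021) (S (nat_lit 3697) (S (nat_lit 2954) (S (nat_lit 3804) (L (nat_lit 246839))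
(L (nat_lit 460150)))
(L (nat_lit 313796)))
(L (nat_lit 87497)))
(S (nat_lit 5048) (S (nat_lit 2215) (L (nat_lit 75223))
(L (nat_lit 276098)))
(L (nat_lit 118992))))
(S (nat_lit 3215) (S (nat_lit 3134) (L (nat_lit 183504))
(L (nat_lit 86221)))
(L (nat_lit 295565))))
(S (nat_lit 5180) (S (nat_lit 3697) (L (nat_lit 175570))
(L (nat_lit 118152)))
(L (nat_lit 594189)))))
(S (nat_lit 5165) (S (nat_lit 743) (S (nat_lit 4818) (L (nat_lit 79223))
(S (nat_lit 5168) (S (nat_lit 5911) (L (nat_lit 185645))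
(L (nat_lit 141782)))
(L (nat_lit 514245))))
(S (nat_lit 2957) (S (nat_lit 3687) (L (nat_lit 560467))
(L (nat_lit 770369)))
(S (nat_lit 5171) (S (nat_lit 2027) (S (nat_lit 5568) (S (nat_lit 42) (L (nat_lit 144007))
(L (nat_lit 278241)))
(L (nat_lit 298576)))
(S (nat_lit 4669) (L (nat_lit 565394))
(L (nat_lit 640291))))
(L (nat_lit 592143)))))
(L (nat_lit 590191)))))
(S (nat_lit 5177) (S (nat_lit 1302) (S (nat_lit 422) (S (nat_lit 431) (S (nat_lit 1483) (S (nat_lit 5180) (S (nat_lit 5165) (L (nat_lit 277124))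
(L (nat_lit 447844)))
(L (nat_lit 436340)))
(L (nat_lit 569026)))
(L (nat_lit 279266)))
(S (nat_lit 2636) (S (nat_lit 4) (S (nat_lit 1) (S (nat_lit 2030) (S (nat_lit 5180) (L (nat_lit 11830))
(L (nat_lit 502373)))
(L (nat_lit 84302)))
(L (nat_lit 412898)))
(L (nat_lit 412962)))
(S (nat_lit 4850) (S (nat_lit 5731) (S (nat_lit 1) (S (nat_lit 4) (S (nat_lit 3680) (L (nat_lit 74412))
(L (nat_lit 86475)))
(L (nat_lit 444706)))
(L (nat_lit 444642)))
(L (nat_lit 501312)))
(L (nat_lit 605408)))))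
(S (nat_lit 3516) (S (nat_lit 1483) (S (nat_lit 3645) (L (nat_lit 41678))
(S (nat_lit 4859) (S (nat_lit 5731) (S (nat_lit 5568) (S (nat_lit 5168) (S (nat_lit 5901) (S (nat_lit 6458) (S (nat_lit 4432) (S (nat_lit 637) (S (nat_lit 1352) (S (nat_lit 1168) (S (nat_lit 35) (S (nat_lit 6271) (S (nat_lit 3392) (D (nat_lit 10) (nat_lit 533589) (nat_lit 313796) (nat_lit 0))
(L (nat_lit 627175)))
(L (nat_lit 638180)))
(L (nat_lit 314884)))
(L (nat_lit 565985)))
(L (nat_lit 280717)))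
(L (nat_lit 276597)))
(L (nat_lit 667906)))
(L (nat_lit 211988)))
(L (nat_lit 412992)))
(L (nat_lit 664591)))
(L (nat_lit 253349)))
(L (nat_lit 435254)))
(L (nat_lit 577760))))
(S (nat_lit 3697) (S (nat_lit 4432) (S (nat_lit 2636) (S (nat_lit 2214) (S (nat_lit 8) (S (nat_lit 5731) (S (nat_lit 2798) (S (nat_lit 5116) (S (nat_lit 2091) (S (nat_lit 4812) (S (nat_lit 1491) (S (nat_lit 5552) (S (nat_lit 1538) (D (nat_lit 16) (nat_lit 531541) (nat_lit 767168) (nat_lit 0))
(L (nat_lit 726382)))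
(L (nat_lit 561735)))
(L (nat_lit 694720)))
(L (nat_lit 729164)))
(L (nat_lit 119305)))
(L (nat_lit 467650)))
(L (nat_lit 510211)))
(L (nat_lit 667104)))
(L (nat_lit 46422)))
(L (nat_lit 275478)))
(L (nat_lit 470690)))
(L (nat_lit 341602)))
(S (nat_lit 5911) (S (nat_lit 422) (S (nat_lit 5731) (S (nat_lit 4859) (S (nat_lit 3696) (S (nat_lit 5180) (L (nat_lit 721104))
(L (nat_lit 497355)))
(L (nat_lit 765376)))
(L (nat_lit 671970)))
(L (nat_lit 114902)))
(L (nat_lit 627241)))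
(L (nat_lit 602434)))))
(S (nat_lit 5730) (S (nat_lit 422) (S (nat_lit 5731) (S (nat_lit 2218) (S (nat_lit 2215) (S (nat_lit 1473) (S (nat_lit 2214) (S (nat_lit 5180) (S (nat_lit 4241) (S (nat_lit 5894) (S (nat_lit 3697) (S (nat_lit 4121) (S (nat_lit 6441) (S (nat_lit 2768) (S (nat_lit 596) (S (nat_lit 4412) (S (nat_lit 4813) (S (nat_lit 1339) (D (nat_lit 10) (nat_lit 150056) (nat_lit 730626) (nat_lit 0))
(L (nat_lit 414759)))
(L (nat_lit 731151)))
(L (nat_lit 736266)))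
(L (nat_lit 11703)))
(L (nat_lit 721136)))
(L (nat_lit 721105)))
(L (nat_lit 482530)))
(L (nat_lit 546115)))
(L (nat_lit 349356)))
(L (nat_lit 446600)))
(L (nat_lit 374469)))
(L (nat_lit 459988)))
(L (nat_lit 243393)))
(L (nat_lit 119208)))
(S (nat_lit 2434) (L (nat_lit 151823))
(L (nat_lit 282734))))
(S (nat_lit 6406) (S (nat_lit 1925) (L (nat_lit 84522))
(L (nat_lit 314816)))
(L (nat_lit 513221))))
(S (nat_lit 2636) (S (nat_lit 2215) (S (nat_lit 1483) (S (nat_lit 2222) (S (nat_lit 2645) (S (nat_lit 2218) (S (nat_lit 5171) (S (nat_lit 2030) (S (nat_lit 5731) (S (nat_lit 2798) (S (nat_lit 1482) (S (nat_lit 5165) (S (nat_lit 2027) (S (nat_lit 2807) (S (nat_lit 5569) (S (nat_lit 2161) (S (nat_lit 1832) (S (nat_lit 1610) (S (nat_lit 5213) (S (nat_lit 1654) (S (nat_lit 2408) (S (nat_lit 1829) (S (nat_lit 2589) (S (nat_lit 2729) (D (nat_lit 10) (nat_lit 701634) (nat_lit 460391) (nat_lit 0))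
(L (nat_lit 697732)))
(L (nat_lit 704740)))
(L (nat_lit 702785)))
(L (nat_lit 691659)))
(L (nat_lit 691657)))
(L (nat_lit 316867)))
(L (nat_lit 770403)))
(L (nat_lit 702819)))
(S (nat_lit 5478) (S (nat_lit 2153) (S (nat_lit 1691) (S (nat_lit 5297) (S (nat_lit 1839) (S (nat_lit 1836) (S (nat_lit 5618) (S (nat_lit 1573) (S (nat_lit 2324) (D (nat_lit 10) (nat_lit 756944) (nat_lit 527975) (nat_lit 0))
(L (nat_lit 365200)))
(L (nat_lit 671072)))
(L (nat_lit 722438)))
(L (nat_lit 725544)))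
(L (nat_lit 725512)))
(L (nat_lit 728608)))
(L (nat_lit 734528)))
(L (nat_lit 668000)))
(L (nat_lit 212548))))
(L (nat_lit 671755)))
(L (nat_lit 349699)))
(L (nat_lit 380044)))
(L (nat_lit 351373)))
(L (nat_lit 633999)))
(L (nat_lit 230065)))
(L (nat_lit 664684)))
(L (nat_lit 378038)))
(L (nat_lit 350757)))
(L (nat_lit 753934)))
(L (nat_lit 467987)))
(L (nat_lit 283172)))
(L (nat_lit 569026)))
(L (nat_lit 111863)))
(S (nat_lit 4850) (S (nat_lit 4975) (L (nat_lit 234039))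
(S (nat_lit 5731) (S (nat_lit 2214) (S (nat_lit 5910) (S (nat_lit 5180) (S (nat_lit 2222) (L (nat_lit 528105))
(L (nat_lit 465075)))
(L (nat_lit 142738)))
(L (nat_lit 667968)))
(L (nat_lit 263885)))
(L (nat_lit 500790))))
(L (nat_lit 594224)))))
(L (nat_lit 606313)))))
(L (nat_lit 601101)))))
(S (nat_lit 4082) (S (nat_lit 1140) (S (nat_lit 1483) (S (nat_lit 1473) (S (nat_lit 2993) (S (nat_lit 437) (L (nat_lit 139668))
(L (nat_lit 658887)))
(S (nat_lit 5177) (S (nat_lit 5168) (S (nat_lit 593) (S (nat_lit 1466) (S (nat_lit 2218) (S (nat_lit 1141) (S (nat_lit 1482) (S (nat_lit 3487) (S (nat_lit 4109) (S (nat_lit 5150) (S (nat_lit 4944) (S (nat_lit 752) (S (nat_lit 2978) (S (nat_lit 3645) (S (nat_lit 437) (S (nat_lit 2066) (S (nat_lit 4238) (D (nat_lit 10) (nat_lit 176870) (nat_lit 381442) (nat_lit 0))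
(L (nat_lit 87494)))
(L (nat_lit 433335)))
(L (nat_lit 215184)))
(L (nat_lit 231119)))
(L (nat_lit 702788)))
(L (nat_lit 636164)))
(L (nat_lit 765410)))
(L (nat_lit 278180)))
(L (nat_lit 638146)))
(L (nat_lit 381472)))
(L (nat_lit 209601)))
(L (nat_lit 172469)))
(L (nat_lit 262734)))
(L (nat_lit 215428)))
(L (nat_lit 631329)))
(L (nat_lit 500389)))
(L (nat_lit 175853))))
(S (nat_lit 3687) (S (nat_lit 2951) (S (nat_lit 5894) (L (nat_lit 433792))
(L (nat_lit 465076)))
(L (nat_lit 755053)))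
(S (nat_lit 5901) (S (nat_lit 5168) (S (nat_lit 5731) (S (nat_lit 3355) (S (nat_lit 3680) (L (nat_lit 218125))
(L (nat_lit 285060)))
(L (nat_lit 366071)))
(L (nat_lit 515333)))
(L (nat_lit 172562)))
(L (nat_lit 603270)))))
(S (nat_lit 3697) (S (nat_lit 422) (S (nat_lit 1) (S (nat_lit 4244) (L (nat_lit 431688))
(L (nat_lit 330476)))
(L (nat_lit 635106)))
(S (nat_lit 2636) (S (nat_lit 0) (S (nat_lit 749) (L (nat_lit 723310))
(L (nat_lit 633284)))
(L (nat_lit 215053)))
(S (nat_lit 4850) (S (nat_lit 5012) (S (nat_lit 749) (S (nat_lit 2951) (S (nat_lit 2966) (S (nat_lit 1302) (L (nat_lit 769062))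
(L (nat_lit 80587)))
(L (nat_lit 398923)))
(L (nat_lit 121165)))
(L (nat_lit 10829)))
(L (nat_lit 666115)))
(L (nat_lit 594160)))))
(S (nat_lit 5911) (S (nat_lit 752) (S (nat_lit 740) (S (nat_lit 4468) (L (nat_lit 366189))
(L (nat_lit 219621)))
(S (nat_lit 1097) (L (nat_lit 623888))
(L (nat_lit 12534))))
(S (nat_lit 2966) (S (nat_lit 1141) (L (nat_lit 529749))
(L (nat_lit 467029)))
(S (nat_lit 5180) (S (nat_lit 42) (L (nat_lit 184774))
(S (nat_lit 2951) (S (nat_lit 2537) (L (nat_lit 121200))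
(S (nat_lit 5731) (S (nat_lit 740) (S (nat_lit 2798) (L (nat_lit 692779))
(L (nat_lit 465971)))
(L (nat_lit 479428)))
(L (nat_lit 283761))))
(L (nat_lit 282765))))
(L (nat_lit 603211)))))
(L (nat_lit 600514)))))
(S (nat_lit 3354) (S (nat_lit 1303) (S (nat_lit 1473) (S (nat_lit 2966) (S (nat_lit 740) (L (nat_lit 110220))
(L (nat_lit 626186)))
(L (nat_lit 300623)))
(S (nat_lit 3687) (S (nat_lit 5021) (S (nat_lit 1141) (S (nat_lit 737) (L (nat_lit 640102))
(L (nat_lit 465078)))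
(L (nat_lit 462132)))
(L (nat_lit 278580)))
(S (nat_lit 5901) (S (nat_lit 5021) (S (nat_lit 2957) (L (nat_lit 378593))
(L (nat_lit 298573)))
(L (nat_lit 658984)))
(L (nat_lit 603488)))))
(S (nat_lit 3517) (S (nat_lit 476) (S (nat_lit 3687) (S (nat_lit 740) (L (nat_lit 697454))
(L (nat_lit 466966)))
(L (nat_lit 318848)))
(S (nat_lit 1254) (S (nat_lit 5634) (S (nat_lit 1042) (L (nat_lit 177737))
(L (nat_lit 250001)))
(L (nat_lit 577888)))
(S (nat_lit 4859) (S (nat_lit 740) (S (nat_lit 3516) (L (nat_lit 173648))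
(L (nat_lit 252388)))
(L (nat_lit 466966)))
(L (nat_lit 577760)))))
(S (nat_lit 5731) (S (nat_lit 1483) (S (nat_lit 737) (S (nat_lit 0) (S (nat_lit 4800) (L (nat_lit 19849))
(S (nat_lit 5177) (S (nat_lit 1289) (L (nat_lit 10863))
(L (nat_lit 210501)))
(L (nat_lit 184778))))
(L (nat_lit 209473)))
(S (nat_lit 2902) (L (nat_lit 623016))
(L (nat_lit 211095))))
(S (nat_lit 3697) (S (nat_lit 737) (S (nat_lit 0) (S (nat_lit 431) (S (nat_lit 5021) (L (nat_lit 89422))
(L (nat_lit 532596)))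
(S (nat_lit 2846) (S (nat_lit 2798) (L (nat_lit 692524))
(L (nat_lit 498739)))
(L (nat_lit 449826))))
(L (nat_lit 210497)))
(S (nat_lit 6525) (L (nat_lit 198070))
(L (nat_lit 51567))))
(S (nat_lit 5911) (S (nat_lit 740) (S (nat_lit 584) (S (nat_lit 752) (S (nat_lit 5177) (S (nat_lit 737) (S (nat_lit 5021) (S (nat_lit 0) (S (nat_lit 2957) (S (nat_lit 3687) (S (nat_lit 1302) (S (nat_lit 1141) (S (nat_lit 2030) (S (nat_lit 6455) (S (nat_lit 1482) (S (nat_lit 4429) (S (nat_lit 1013) (S (nat_lit 1589) (S (nat_lit 1743) (S (nat_lit 5634) (S (nat_lit 4472) (S (nat_lit 2023) (S (nat_lit 3226) (S (nat_lit 3260) (S (nat_lit 5765) (S (nat_lit 3085) (D (nat_lit 14) (nat_lit 477474) (nat_lit 55721) (nat_lit 0))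
(L (nat_lit 672068)))
(L (nat_lit 705762)))
(L (nat_lit 671043)))
(L (nat_lit 437362)))
(L (nat_lit 733351)))
(L (nat_lit 416097)))
(L (nat_lit 734497)))
(L (nat_lit 668961)))
(L (nat_lit 667937)))
(S (nat_lit 1254) (S (nat_lit 932) (S (nat_lit 1618) (S (nat_lit 4877) (S (nat_lit 5229) (S (nat_lit 3145) (S (nat_lit 3584) (S (nat_lit 3166) (S (nat_lit 5441) (D (nat_lit 14) (nat_lit 477474) (nat_lit 55660) (nat_lit 0))
(L (nat_lit 478563)))
(L (nat_lit 481506)))
(L (nat_lit 480610)))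
(L (nat_lit 434322)))
(L (nat_lit 734278)))
(L (nat_lit 416005)))
(L (nat_lit 733504)))
(L (nat_lit 667904)))
(L (nat_lit 86409))))
(L (nat_lit 532194)))
(L (nat_lit 633216)))
(L (nat_lit 671011)))
(L (nat_lit 314881)))
(L (nat_lit 478436)))
(L (nat_lit 478404)))
(S (nat_lit 4419) (S (nat_lit 2822) (S (nat_lit 2939) (S (nat_lit 3516) (S (nat_lit 1515) (S (nat_lit 4953) (S (nat_lit 2616) (S (nat_lit 2074) (S (nat_lit 4402) (S (nat_lit 4231) (D (nat_lit 18) (nat_lit 328365) (nat_lit 607424) (nat_lit 0))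
(L (nat_lit 153127)))
(L (nat_lit 262830)))
(L (nat_lit 667815)))
(L (nat_lit 106156)))
(L (nat_lit 769195)))
(L (nat_lit 771361)))
(L (nat_lit 604354)))
(L (nat_lit 478500)))
(L (nat_lit 638273)))
(L (nat_lit 84358))))
(L (nat_lit 763268)))
(L (nat_lit 52614)))
(L (nat_lit 49798)))
(L (nat_lit 49867)))
(L (nat_lit 665645)))
(L (nat_lit 219245)))
(L (nat_lit 375489)))
(L (nat_lit 467525)))
(L (nat_lit 595280)))))
(L (nat_lit 606464)))))
(S (nat_lit 5568) (S (nat_lit 749) (S (nat_lit 752) (S (nat_lit 5731) (S (nat_lit 240) (L (nat_lit 547169))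
(L (nat_lit 764453)))
(L (nat_lit 56810)))
(S (nat_lit 2966) (S (nat_lit 0) (S (nat_lit 2954) (S (nat_lit 3305) (L (nat_lit 175789))
(L (nat_lit 51469)))
(L (nat_lit 565892)))
(S (nat_lit 2190) (L (nat_lit 17127))
(L (nat_lit 46662))))
(S (nat_lit 5180) (S (nat_lit 5730) (S (nat_lit 5894) (L (nat_lit 726320))
(L (nat_lit 349637)))
(L (nat_lit 502839)))
(L (nat_lit 595339)))))
(S (nat_lit 2963) (S (nat_lit 584) (S (nat_lit 3680) (S (nat_lit 358) (L (nat_lit 6709))
(L (nat_lit 666117)))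
(L (nat_lit 83285)))
(S (nat_lit 2798) (S (nat_lit 1483) (S (nat_lit 534) (L (nat_lit 229940))
(S (nat_lit 2954) (L (nat_lit 578662))
(L (nat_lit 116363))))
(L (nat_lit 503491)))
(S (nat_lit 5012) (S (nat_lit 4859) (L (nat_lit 108978))
(L (nat_lit 577760)))
(L (nat_lit 605286)))))
(S (nat_lit 5177) (S (nat_lit 1302) (S (nat_lit 5731) (S (nat_lit 584) (S (nat_lit 5171) (S (nat_lit 3680) (L (nat_lit 51686))
(L (nat_lit 283012)))
(L (nat_lit 663940)))
(L (nat_lit 638145)))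
(L (nat_lit 496199)))
(S (nat_lit 3516) (S (nat_lit 4859) (S (nat_lit 2807) (S (nat_lit 2222) (S (nat_lit 4432) (L (nat_lit 694784))
(L (nat_lit 532066)))
(L (nat_lit 498341)))
(L (nat_lit 170672)))
(S (nat_lit 6100) (L (nat_lit 245907))
(L (nat_lit 20784))))
(S (nat_lit 5730) (S (nat_lit 5731) (S (nat_lit 5171) (S (nat_lit 2807) (S (nat_lit 2645) (S (nat_lit 4244) (S (nat_lit 5894) (S (nat_lit 2939) (S (nat_lit 2078) (S (nat_lit 0) (S (nat_lit 1530) (S (nat_lit 599) (S (nat_lit 5120) (S (nat_lit 5135) (S (nat_lit 5529) (D (nat_lit 16) (nat_lit 432736) (nat_lit 602337) (nat_lit 0))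
(L (nat_lit 767331)))
(L (nat_lit 728613)))
(L (nat_lit 763300)))
(L (nat_lit 700643)))
(L (nat_lit 733190)))
(L (nat_lit 412710)))
(L (nat_lit 252014)))
(L (nat_lit 734315)))
(L (nat_lit 399940)))
(L (nat_lit 330261)))
(L (nat_lit 480329)))
(L (nat_lit 480515)))
(L (nat_lit 664101)))
(L (nat_lit 667104)))
(L (nat_lit 606466)))))
(L (nat_lit 595403)))))
(L (nat_lit 598499)))))
(S (nat_lit 6296) (S (nat_lit 584) (S (nat_lit 8) (S (nat_lit 743) (S (nat_lit 422) (S (nat_lit 6458) (S (nat_lit 2027) (L (nat_lit 79218))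
(L (nat_lit 77303)))
(L (nat_lit 470723)))
(L (nat_lit 283136)))
(S (nat_lit 2957) (S (nat_lit 5911) (L (nat_lit 429394))
(L (nat_lit 379056)))
(S (nat_lit 5171) (S (nat_lit 3687) (L (nat_lit 428648))
(L (nat_lit 298671)))
(L (nat_lit 598405)))))
(S (nat_lit 2222) (S (nat_lit 422) (S (nat_lit 2215) (S (nat_lit 6458) (L (nat_lit 298391))
(L (nat_lit 480483)))
(L (nat_lit 276163)))
(S (nat_lit 2636) (S (nat_lit 752) (S (nat_lit 2215) (S (nat_lit 5894) (L (nat_lit 316524))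
(L (nat_lit 154956)))
(L (nat_lit 499330)))
(L (nat_lit 469079)))
(S (nat_lit 4850) (S (nat_lit 4) (L (nat_lit 79529))
(L (nat_lit 393897)))
(L (nat_lit 605257)))))
(S (nat_lit 4436) (S (nat_lit 1141) (S (nat_lit 3516) (S (nat_lit 1) (S (nat_lit 5177) (L (nat_lit 431849))
(L (nat_lit 343781)))
(L (nat_lit 433730)))
(L (nat_lit 397524)))
(S (nat_lit 3355) (L (nat_lit 578662))
(S (nat_lit 5569) (S (nat_lit 3696) (S (nat_lit 2027) (S (nat_lit 5561) (L (nat_lit 73268))
(L (nat_lit 147017)))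
(L (nat_lit 576803)))
(L (nat_lit 284097)))
(L (nat_lit 598497)))))
(L (nat_lit 590161)))))
(S (nat_lit 2798) (S (nat_lit 2030) (S (nat_lit 1140) (S (nat_lit 1303) (L (nat_lit 248289))
(L (nat_lit 314481)))
(S (nat_lit 3354) (S (nat_lit 693) (L (nat_lit 499829))
(S (nat_lit 5793) (L (nat_lit 482472))
(L (nat_lit 247363))))
(S (nat_lit 5568) (S (nat_lit 5165) (S (nat_lit 5171) (L (nat_lit 524562))
(L (nat_lit 331373)))
(L (nat_lit 351373)))
(L (nat_lit 606499)))))
(S (nat_lit 4244) (S (nat_lit 2027) (S (nat_lit 1483) (L (nat_lit 6796))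
(L (nat_lit 514403)))
(S (nat_lit 4241) (S (nat_lit 422) (S (nat_lit 2807) (S (nat_lit 5180) (L (nat_lit 691754))
(L (nat_lit 381037)))
(L (nat_lit 331285)))
(L (nat_lit 175670)))
(S (nat_lit 6455) (S (nat_lit 1910) (L (nat_lit 767143))
(S (nat_lit 5894) (S (nat_lit 3696) (S (nat_lit 4104) (L (nat_lit 398709))
(L (nat_lit 23016)))
(L (nat_lit 300436)))
(L (nat_lit 384172))))
(L (nat_lit 592360)))))
(S (nat_lit 6458) (S (nat_lit 4) (S (nat_lit 5180) (S (nat_lit 593) (S (nat_lit 3354) (L (nat_lit 726569))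
(L (nat_lit 565859)))
(L (nat_lit 631299)))
(L (nat_lit 671013)))
(S (nat_lit 2218) (S (nat_lit 3680) (S (nat_lit 5568) (L (nat_lit 655816))
(L (nat_lit 76277)))
(L (nat_lit 121196)))
(S (nat_lit 4432) (S (nat_lit 2027) (S (nat_lit 2636) (S (nat_lit 5731) (L (nat_lit 51468))
(L (nat_lit 428310)))
(L (nat_lit 502869)))
(S (nat_lit 4830) (L (nat_lit 640043))
(L (nat_lit 624940))))
(L (nat_lit 590280)))))
(L (nat_lit 592206)))))
(S (nat_lit 5012) (S (nat_lit 422) (S (nat_lit 740) (S (nat_lit 2514) (L (nat_lit 179942))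
(S (nat_lit 4244) (S (nat_lit 3516) (S (nat_lit 5177) (S (nat_lit 4436) (S (nat_lit 4432) (S (nat_lit 5901) (S (nat_lit 4859) (S (nat_lit 1141) (S (nat_lit 6455) (S (nat_lit 4428) (S (nat_lit 2890) (S (nat_lit 242) (S (nat_lit 6369) (S (nat_lit 381) (S (nat_lit 4618) (S (nat_lit 289) (S (nat_lit 3058) (S (nat_lit 2685) (D (nat_lit 14) (nat_lit 431351) (nat_lit 187817) (nat_lit 0))
(L (nat_lit 297708)))
(L (nat_lit 497783)))
(L (nat_lit 695682)))
(L (nat_lit 285742)))
(L (nat_lit 733194)))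
(L (nat_lit 733441)))
(L (nat_lit 738624)))
(S (nat_lit 5964) (S (nat_lit 323) (S (nat_lit 705) (S (nat_lit 2566) (S (nat_lit 4537) (S (nat_lit 208) (S (nat_lit 3463) (S (nat_lit 2280) (D (nat_lit 14) (nat_lit 431351) (nat_lit 187756) (nat_lit 0))
(L (nat_lit 411940)))
(L (nat_lit 437431)))
(L (nat_lit 705705)))
(L (nat_lit 220334)))
(L (nat_lit 533189)))
(L (nat_lit 733411)))
(L (nat_lit 738533)))
(L (nat_lit 528007))))
(L (nat_lit 384416)))
(L (nat_lit 266988)))
(L (nat_lit 626091)))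
(L (nat_lit 544994)))
(L (nat_lit 468119)))
(L (nat_lit 341603)))
(L (nat_lit 531604)))
(L (nat_lit 444644)))
(L (nat_lit 332276)))
(L (nat_lit 330316))))
(S (nat_lit 2954) (S (nat_lit 4428) (S (nat_lit 6455) (S (nat_lit 1140) (S (nat_lit 2966) (S (nat_lit 4244) (L (nat_lit 174611))
(L (nat_lit 769251)))
(L (nat_lit 118154)))
(L (nat_lit 467685)))
(L (nat_lit 280225)))
(L (nat_lit 578784)))
(S (nat_lit 5168) (S (nat_lit 5177) (S (nat_lit 4244) (S (nat_lit 1483) (S (nat_lit 5021) (S (nat_lit 1302) (S (nat_lit 2214) (L (nat_lit 81234))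
(L (nat_lit 514240)))
(L (nat_lit 631920)))
(L (nat_lit 577731)))
(L (nat_lit 501908)))
(L (nat_lit 234220)))
(L (nat_lit 343092)))
(L (nat_lit 593419)))))
(S (nat_lit 2636) (S (nat_lit 1303) (S (nat_lit 157) (S (nat_lit 3687) (L (nat_lit 494215))
(L (nat_lit 548160)))
(S (nat_lit 5021) (S (nat_lit 693) (L (nat_lit 46355))
(L (nat_lit 482473)))
(L (nat_lit 525588))))
(S (nat_lit 3517) (S (nat_lit 1281) (L (nat_lit 558354))
(S (nat_lit 3696) (S (nat_lit 2030) (S (nat_lit 1141) (L (nat_lit 76528))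
(L (nat_lit 267764)))
(L (nat_lit 299542)))
(L (nat_lit 436896))))
(S (nat_lit 5731) (S (nat_lit 2966) (S (nat_lit 1482) (S (nat_lit 4241) (S (nat_lit 4428) (S (nat_lit 2030) (L (nat_lit 399081))
(L (nat_lit 379395)))
(L (nat_lit 563936)))
(L (nat_lit 526643)))
(S (nat_lit 2660) (S (nat_lit 807) (L (nat_lit 300503))
(L (nat_lit 514368)))
(L (nat_lit 24007))))
(L (nat_lit 284197)))
(L (nat_lit 599153)))))
(S (nat_lit 4850) (S (nat_lit 1141) (S (nat_lit 1519) (S (nat_lit 719) (L (nat_lit 6832))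
(L (nat_lit 81640)))
(S (nat_lit 5894) (S (nat_lit 4428) (S (nat_lit 4244) (S (nat_lit 749) (S (nat_lit 5731) (L (nat_lit 142868))
(L (nat_lit 664684)))
(L (nat_lit 463434)))
(S (nat_lit 5433) (L (nat_lit 725296))
(L (nat_lit 330318))))
(L (nat_lit 384384)))
(L (nat_lit 360916))))
(S (nat_lit 3355) (S (nat_lit 2911) (S (nat_lit 4357) (L (nat_lit 735585))
(L (nat_lit 73207)))
(S (nat_lit 4428) (S (nat_lit 62) (L (nat_lit 176712))
(S (nat_lit 1466) (S (nat_lit 2963) (S (nat_lit 2252) (L (nat_lit 8845))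
(L (nat_lit 375827)))
(S (nat_lit 3259) (L (nat_lit 565300))
(L (nat_lit 79563))))
(L (nat_lit 576837))))
(L (nat_lit 578599))))
(S (nat_lit 5569) (S (nat_lit 3680) (S (nat_lit 5177) (S (nat_lit 6458) (S (nat_lit 2966) (S (nat_lit 4428) (S (nat_lit 2027) (S (nat_lit 4287) (S (nat_lit 6442) (S (nat_lit 1914) (S (nat_lit 5118) (S (nat_lit 5711) (S (nat_lit 67) (S (nat_lit 431) (S (nat_lit 2951) (D (nat_lit 18) (nat_lit 396999) (nat_lit 578785) (nat_lit 0))
(L (nat_lit 761316)))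
(L (nat_lit 639202)))
(L (nat_lit 768291)))
(L (nat_lit 635107)))
(L (nat_lit 700736)))
(L (nat_lit 700645)))
(L (nat_lit 249216)))
(L (nat_lit 415042)))
(L (nat_lit 310422)))
(L (nat_lit 185549)))
(L (nat_lit 316965)))
(L (nat_lit 671043)))
(L (nat_lit 501780)))
(L (nat_lit 317580)))
(L (nat_lit 598092)))))
(L (nat_lit 591367)))))
(L (nat_lit 604198)))))
(L (nat_lit 593262)))))

theorem ra14_4 : run 3 la14 [] ta14_4 ka14 (P4 3 3 623 502 623 1 0 0 0) [] = true := by
  decide +kernel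

noncomputable def ta26_0 : Tr :=
(S (nat_lit 2) (S (nat_lit 1470) (S (nat_lit 3915) (L (nat_lit 341697))
(L (nat_lit 545089)))
(S (nat_lit 3684) (S (nat_lit 1053) (S (nat_lit 2107) (S (nat_lit 1395) (L (nat_lit 724427))
(L (nat_lit 630896)))
(L (nat_lit 175728)))
(S (nat_lit 3267) (S (nat_lit 3693) (L (nat_lit 329238))
(L (nat_lit 118033)))
(S (nat_lit 5481) (S (nat_lit 5967) (L (nat_lit 105036))
(L (nat_lit 672964)))
(L (nat_lit 592206)))))
(S (nat_lit 5898) (S (nat_lit 0) (S (nat_lit 5823) (S (nat_lit 5811) (L (nat_lit 736549))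
(L (nat_lit 213573)))
(L (nat_lit 215557)))
(S (nat_lit 2214) (S (nat_lit 893) (S (nat_lit 3431) (L (nat_lit 17128))
(L (nat_lit 770341)))
(L (nat_lit 478402)))
(S (nat_lit 4428) (S (nat_lit 3954) (S (nat_lit 1541) (S (nat_lit 1383) (L (nat_lit 735589))
(L (nat_lit 314448)))
(L (nat_lit 576705)))
(S (nat_lit 4062) (L (nat_lit 141969))
(L (nat_lit 170516))))
(L (nat_lit 591239)))))
(L (nat_lit 593318)))))
(S (nat_lit 2216) (S (nat_lit 324) (S (nat_lit 1383) (S (nat_lit 1395) (S (nat_lit 0) (L (nat_lit 529993))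
(L (nat_lit 635073)))
(L (nat_lit 467059)))
(S (nat_lit 2930) (S (nat_lit 1470) (L (nat_lit 230964))
(L (nat_lit 500851)))
(L (nat_lit 468051))))
(S (nat_lit 2538) (S (nat_lit 3915) (S (nat_lit 5898) (S (nat_lit 5901) (L (nat_lit 754028))
(L (nat_lit 350593)))
(L (nat_lit 153873)))
(L (nat_lit 544776)))
(S (nat_lit 4752) (S (nat_lit 3753) (S (nat_lit 1416) (S (nat_lit 4321) (S (nat_lit 3917) (S (nat_lit 2215) (S (nat_lit 3755) (S (nat_lit 5910) (L (nat_lit 263701))
(L (nat_lit 479553)))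
(L (nat_lit 771146)))
(L (nat_lit 481321)))
(L (nat_lit 217573)))
(L (nat_lit 249968)))
(S (nat_lit 4024) (S (nat_lit 3267) (L (nat_lit 366159))
(L (nat_lit 383056)))
(L (nat_lit 43664))))
(L (nat_lit 544903)))
(L (nat_lit 592264)))))
(S (nat_lit 4430) (S (nat_lit 1395) (S (nat_lit 405) (S (nat_lit 1470) (S (nat_lit 1479) (S (nat_lit 2781) (S (nat_lit 1242) (S (nat_lit 3915) (S (nat_lit 3916) (S (nat_lit 3889) (S (nat_lit 5367) (S (nat_lit 5370) (S (nat_lit 1540) (S (nat_lit 6480) (D (nat_lit 0) (nat_lit 316803) (nat_lit 117223) (nat_lit 35469199426))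
(L (nat_lit 568437)))
(L (nat_lit 628816)))
(L (nat_lit 477409)))
(L (nat_lit 346224)))
(L (nat_lit 558795)))
(L (nat_lit 544774)))
(L (nat_lit 545089)))
(L (nat_lit 655817)))
(L (nat_lit 186795)))
(L (nat_lit 220673)))
(L (nat_lit 218625)))
(S (nat_lit 2619) (S (nat_lit 1383) (S (nat_lit 1675) (S (nat_lit 6536) (L (nat_lit 562389))
(L (nat_lit 416936)))
(L (nat_lit 462441)))
(L (nat_lit 314789)))
(S (nat_lit 4833) (S (nat_lit 3687) (S (nat_lit 6130) (S (nat_lit 378) (S (nat_lit 1383) (S (nat_lit 2095) (L (nat_lit 6896))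
(L (nat_lit 53642)))
(L (nat_lit 117966)))
(L (nat_lit 248196)))
(L (nat_lit 480262)))
(S (nat_lit 4146) (S (nat_lit 1194) (L (nat_lit 493128))
(L (nat_lit 243794)))
(L (nat_lit 308406))))
(L (nat_lit 603306)))))
(S (nat_lit 3609) (S (nat_lit 3915) (S (nat_lit 963) (L (nat_lit 623145))
(S (nat_lit 4658) (L (nat_lit 146642))
(L (nat_lit 376421))))
(S (nat_lit 6104) (L (nat_lit 142928))
(L (nat_lit 377908))))
(S (nat_lit 5823) (S (nat_lit 2107) (S (nat_lit 2108) (L (nat_lit 625873))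
(L (nat_lit 377975)))
(S (nat_lit 4321) (S (nat_lit 5910) (S (nat_lit 6536) (L (nat_lit 42702))
(L (nat_lit 17714)))
(L (nat_lit 470199)))
(S (nat_lit 6535) (S (nat_lit 567) (S (nat_lit 5321) (L (nat_lit 295378))
(L (nat_lit 658671)))
(L (nat_lit 78194)))
(L (nat_lit 599524)))))
(L (nat_lit 605291)))))
(L (nat_lit 597413)))))

theorem ra26_0 : run 3 la26 [] ta26_0 ka26 (P4 3 468 462 406 298 0 0 0 1) [] = true := by
  decide +kernel

noncomputable def tb80_3 : Tr :=
(L (nat_lit 25770210))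

theorem rb80_3 : run 4 lb80 [] tb80_3 kb80 (P4 4 5681 1059 6270 1059 0 1 0 0) [] = true := by
  decide +kernel

noncomputable def tb81_2 : Tr :=
(L (nat_lit 25835840))

theorem rb81_2 : run 4 lb81 [] tb81_2 kb81 (P4 4 2366 0 3275 2366 0 0 1 2) [] = true := by
  decide +kernel

noncomputable def tb177_0 : Tr :=
(L (nat_lit 25768128))

theorem rb177_0 : run 4 lb177 [] tb177_0 kb177 (P4 4 2202 0 2306 0 0 0 0 1) [] = true := by
  decide +kernel

noncomputable def ta39_5 : Tr :=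
(L (nat_lit 605442))

theorem ra39_5 : run 3 la39 [] ta39_5 ka39 (P4 3 490 0 695 490 1 2 0 0) [] = true := by
  decide +kernel

end Pool.Agent.MP_92191b_al.K3.E
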