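import Pool.Agent.MP_92191b_al.K3.CData

/-! Refutation trees. -/

namespace Pool.Agent.MP_92191b_al.K3.E

open Tr

set_option maxRecDepth 100000

noncomputable def tb182_1 : Tr :=
(S (nat_lit 17032) (S (nat_lit 11002) (S (nat_lit 15332) (S (nat_lit 1247) (S (nat_lit 52) (S (nat_lit 8330) (S (nat_lit 4405) (S (nat_lit 11001) (S (nat_lit 17519) (L (nat_lit 29772904))
(L (nat_lit 6802276)))
(L (nat_lit 6436726)))
(L (nat_lit 704329)))
(S (nat_lit 28094) (S (nat_lit 28535) (S (nat_lit 21482) (L (nat_lit 7894757))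
(L (nat_lit 652838)))
(L (nat_lit 18921387)))
(S (nat_lit 47858) (S (nat_lit 41246) (S (nat_lit 46161) (S (nat_lit 11001) (L (nat_lit 28713600))
(L (nat_lit 7801686)))
(L (nat_lit 20490299)))
(L (nat_lit 1700390)))
(L (nat_lit 25868611)))))
(S (nat_lit 19816) (S (nat_lit 12182) (S (nat_lit 36349) (S (nat_lit 10935) (S (nat_lit 46104) (S (nat_lit 41777) (L (nat_lit 386550))
(L (nat_lit 23871813)))
(L (nat_lit 18084448)))
(L (nat_lit 23856369)))
(S (nat_lit 56764) (L (nat_lit 18582378))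
(L (nat_lit 23571300))))
(S (nat_lit 31946) (S (nat_lit 45185) (S (nat_lit 1) (L (nat_lit 22484187))
(L (nat_lit 18888457)))
(L (nat_lit 13390176)))
(S (nat_lit 51710) (S (nat_lit 16546) (S (nat_lit 16545) (S (nat_lit 1733) (S (nat_lit 21974) (L (nat_lit 2482096))
(L (nat_lit 30609975)))
(L (nat_lit 2438006)))
(L (nat_lit 26399088)))
(L (nat_lit 3699926)))
(L (nat_lit 25367987)))))
(S (nat_lit 39580) (S (nat_lit 35075) (S (nat_lit 16546) (S (nat_lit 41303) (S (nat_lit 1) (L (nat_lit 26608330))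
(L (nat_lit 26265992)))
(L (nat_lit 9176657)))
(L (nat_lit 11320467)))
(S (nat_lit 51784) (L (nat_lit 2310994))
(L (nat_lit 17865554))))
(L (nat_lit 25826856)))))
(S (nat_lit 21011) (S (nat_lit 12710) (S (nat_lit 19617) (L (nat_lit 1843606))
(S (nat_lit 41303) (S (nat_lit 19830) (S (nat_lit 32924) (S (nat_lit 54875) (S (nat_lit 7778) (L (nat_lit 6372146))
(L (nat_lit 21766256)))
(L (nat_lit 16458661)))
(L (nat_lit 9113019)))
(S (nat_lit 51086) (L (nat_lit 15850411))
(L (nat_lit 15901619))))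
(L (nat_lit 9176471))))
(S (nat_lit 32474) (S (nat_lit 7829) (S (nat_lit 25841) (S (nat_lit 54905) (S (nat_lit 46105) (S (nat_lit 41246) (L (nat_lit 30056561))
(L (nat_lit 8535894)))
(L (nat_lit 20148770)))
(L (nat_lit 21766223)))
(L (nat_lit 22344225)))
(S (nat_lit 27593) (S (nat_lit 28079) (S (nat_lit 31946) (S (nat_lit 1733) (L (nat_lit 9900761))
(L (nat_lit 12013379)))
(L (nat_lit 30626208)))
(L (nat_lit 803432)))
(S (nat_lit 47357) (S (nat_lit 30751) (S (nat_lit 8771) (S (nat_lit 7778) (L (nat_lit 23531833))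
(L (nat_lit 26883328)))
(L (nat_lit 15518794)))
(L (nat_lit 10243459)))
(L (nat_lit 25365169)))))
(S (nat_lit 52238) (S (nat_lit 4404) (S (nat_lit 25355) (S (nat_lit 13145) (L (nat_lit 29504758))
(L (nat_lit 8144976)))
(L (nat_lit 1919244)))
(S (nat_lit 24168) (S (nat_lit 47792) (S (nat_lit 15326) (S (nat_lit 11001) (L (nat_lit 26908750))
(L (nat_lit 1764657)))
(L (nat_lit 17572485)))
(L (nat_lit 1718118)))
(S (nat_lit 43932) (S (nat_lit 37209) (L (nat_lit 6874195))
(S (nat_lit 41303) (S (nat_lit 13184) (S (nat_lit 27608) (S (nat_lit 19830) (L (nat_lit 28457610))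
(L (nat_lit 16556146)))
(L (nat_lit 1624999)))
(L (nat_lit 6838181)))
(L (nat_lit 18613862))))
(L (nat_lit 25869600)))))
(L (nat_lit 25449953)))))
(S (nat_lit 40775) (S (nat_lit 17047) (S (nat_lit 16545) (S (nat_lit 51710) (S (nat_lit 10935) (S (nat_lit 1718) (S (nat_lit 67) (L (nat_lit 29604950))
(L (nat_lit 12970626)))
(L (nat_lit 10229302)))
(L (nat_lit 26412534)))
(L (nat_lit 20082183)))
(S (nat_lit 36309) (S (nat_lit 6077) (S (nat_lit 6143) (L (nat_lit 1259414))
(L (nat_lit 26424963)))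
(L (nat_lit 26790243)))
(S (nat_lit 56073) (S (nat_lit 1) (S (nat_lit 2210) (L (nat_lit 26560558))
(L (nat_lit 19084381)))
(L (nat_lit 7358874)))
(L (nat_lit 25443477)))))
(S (nat_lit 36811) (S (nat_lit 25892) (S (nat_lit 7778) (S (nat_lit 51752) (S (nat_lit 54905) (S (nat_lit 16545) (L (nat_lit 18061076))
(L (nat_lit 26981571)))
(L (nat_lit 21301656)))
(L (nat_lit 7975096)))
(L (nat_lit 23898496)))
(L (nat_lit 8150403)))
(S (nat_lit 56575) (S (nat_lit 19830) (S (nat_lit 24210) (S (nat_lit 36835) (S (nat_lit 30765) (S (nat_lit 47357) (S (nat_lit 52673) (S (nat_lit 15362) (L (nat_lit 2310876))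
(L (nat_lit 1685418)))
(L (nat_lit 17476728)))
(L (nat_lit 20310097)))
(L (nat_lit 30782582)))
(L (nat_lit 20824256)))
(S (nat_lit 47635) (L (nat_lit 22537383))
(L (nat_lit 10171200))))
(S (nat_lit 40217) (L (nat_lit 18655254))
(L (nat_lit 22854759))))
(L (nat_lit 25887025)))))
(L (nat_lit 25212278)))))
(S (nat_lit 35096) (S (nat_lit 17558) (S (nat_lit 8330) (S (nat_lit 1775) (S (nat_lit 1289) (S (nat_lit 41738) (L (nat_lit 30999946))
(L (nat_lit 24340868)))
(L (nat_lit 20850050)))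
(S (nat_lit 21539) (S (nat_lit 10987) (S (nat_lit 56073) (S (nat_lit 46105) (L (nat_lit 16549579))
(L (nat_lit 27483651)))
(L (nat_lit 7522715)))
(L (nat_lit 873864)))
(S (nat_lit 41303) (S (nat_lit 56073) (S (nat_lit 36811) (S (nat_lit 35141) (S (nat_lit 8786) (L (nat_lit 17877213))
(L (nat_lit 417021)))
(L (nat_lit 23896613)))
(L (nat_lit 18795594)))
(L (nat_lit 10207107)))
(L (nat_lit 25691511)))))
(S (nat_lit 28094) (S (nat_lit 10936) (S (nat_lit 28079) (S (nat_lit 10987) (S (nat_lit 4390) (S (nat_lit 17519) (S (nat_lit 1) (L (nat_lit 20125489))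
(L (nat_lit 7079503)))
(L (nat_lit 26782834)))
(L (nat_lit 7399828)))
(L (nat_lit 546728)))
(L (nat_lit 7931761)))
(S (nat_lit 30700) (S (nat_lit 50637) (L (nat_lit 6075079))
(S (nat_lit 56089) (S (nat_lit 36795) (S (nat_lit 32474) (L (nat_lit 9224931))
(L (nat_lit 7966604)))
(L (nat_lit 20060732)))
(L (nat_lit 19096753))))
(S (nat_lit 50464) (S (nat_lit 35075) (S (nat_lit 46105) (S (nat_lit 56073) (L (nat_lit 28330191))
(L (nat_lit 2574715)))
(L (nat_lit 22219321)))
(L (nat_lit 18057042)))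
(L (nat_lit 25173495)))))
(S (nat_lit 47858) (S (nat_lit 15362) (S (nat_lit 25355) (S (nat_lit 12167) (S (nat_lit 46104) (S (nat_lit 52196) (S (nat_lit 36348) (L (nat_lit 5893542))
(L (nat_lit 17853002)))
(L (nat_lit 6884238)))
(L (nat_lit 18051681)))
(S (nat_lit 33015) (L (nat_lit 26397191))
(L (nat_lit 26493536))))
(L (nat_lit 7158966)))
(S (nat_lit 16982) (L (nat_lit 10406001))
(L (nat_lit 6928292))))
(L (nat_lit 25798833)))))
(S (nat_lit 37322) (S (nat_lit 35141) (S (nat_lit 32924) (S (nat_lit 5642) (S (nat_lit 30859) (L (nat_lit 20048204))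
(S (nat_lit 50515) (S (nat_lit 41303) (S (nat_lit 45656) (S (nat_lit 56073) (S (nat_lit 12167) (S (nat_lit 7778) (L (nat_lit 26936589))
(L (nat_lit 21768576)))
(L (nat_lit 3938924)))
(L (nat_lit 21863811)))
(L (nat_lit 9330049)))
(L (nat_lit 23858566)))
(L (nat_lit 13407570))))
(S (nat_lit 25406) (S (nat_lit 27593) (S (nat_lit 46162) (S (nat_lit 21497) (S (nat_lit 39594) (S (nat_lit 4390) (L (nat_lit 6136527))
(L (nat_lit 1652059)))
(L (nat_lit 23870535)))
(L (nat_lit 15747321)))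
(L (nat_lit 18178066)))
(L (nat_lit 24478235)))
(S (nat_lit 45170) (S (nat_lit 46162) (S (nat_lit 50515) (S (nat_lit 43974) (S (nat_lit 26356) (L (nat_lit 29503702))
(L (nat_lit 2879791)))
(L (nat_lit 12970560)))
(L (nat_lit 12849938)))
(S (nat_lit 56480) (L (nat_lit 13404870))
(L (nat_lit 11034642))))
(L (nat_lit 25614409)))))
(L (nat_lit 9177490)))
(L (nat_lit 9210258)))
(S (nat_lit 57086) (S (nat_lit 7778) (S (nat_lit 12710) (S (nat_lit 1775) (S (nat_lit 30751) (L (nat_lit 13502154))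
(L (nat_lit 10245507)))
(L (nat_lit 20136707)))
(S (nat_lit 32474) (S (nat_lit 30751) (S (nat_lit 16546) (L (nat_lit 9622939))
(L (nat_lit 17582123)))
(L (nat_lit 10245571)))
(S (nat_lit 52238) (S (nat_lit 1232) (S (nat_lit 28550) (S (nat_lit 35141) (L (nat_lit 2486676))
(L (nat_lit 13246555)))
(L (nat_lit 12848857)))
(S (nat_lit 5012) (L (nat_lit 12867488))
(L (nat_lit 8802397))))
(L (nat_lit 25366222)))))
(S (nat_lit 27542) (S (nat_lit 8771) (S (nat_lit 4390) (L (nat_lit 4410776))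
(L (nat_lit 7361947)))
(L (nat_lit 26269067)))
(S (nat_lit 47306) (S (nat_lit 8264) (L (nat_lit 1439125))
(L (nat_lit 10277249)))
(L (nat_lit 25506432)))))
(L (nat_lit 25347442)))))
(S (nat_lit 54860) (S (nat_lit 15377) (S (nat_lit 10936) (S (nat_lit 17070) (S (nat_lit 51) (S (nat_lit 15311) (S (nat_lit 10935) (S (nat_lit 52) (S (nat_lit 4390) (S (nat_lit 25406) (S (nat_lit 17071) (S (nat_lit 10987) (S (nat_lit 4446) (S (nat_lit 52196) (S (nat_lit 6207) (S (nat_lit 28550) (S (nat_lit 3617) (S (nat_lit 30149) (S (nat_lit 51518) (S (nat_lit 1289) (S (nat_lit 6288) (S (nat_lit 33005) (S (nat_lit 23608) (D (nat_lit 8) (nat_lit 11597520) (nat_lit 25547168) (nat_lit 2341874040689393696))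
(L (nat_lit 30048714)))
(L (nat_lit 12324592)))
(L (nat_lit 29908226)))
(L (nat_lit 26985792)))
(L (nat_lit 16392312)))
(L (nat_lit 29738595)))
(L (nat_lit 24314767)))
(L (nat_lit 12874773)))
(L (nat_lit 7893700)))
(L (nat_lit 6836248)))
(L (nat_lit 6437651)))
(L (nat_lit 6747747)))
(L (nat_lit 16832423)))
(L (nat_lit 1498425)))
(L (nat_lit 18901325)))
(L (nat_lit 26515151)))
(L (nat_lit 26412751)))
(L (nat_lit 6775826)))
(S (nat_lit 49585) (L (nat_lit 15782105))
(L (nat_lit 1372722))))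
(S (nat_lit 36834) (S (nat_lit 66) (S (nat_lit 4446) (S (nat_lit 36795) (S (nat_lit 51) (S (nat_lit 12167) (S (nat_lit 5591) (S (nat_lit 4404) (S (nat_lit 7829) (L (nat_lit 5521053))
(L (nat_lit 23459362)))
(L (nat_lit 7767923)))
(L (nat_lit 19374848)))
(L (nat_lit 18630727)))
(L (nat_lit 7181874)))
(L (nat_lit 386613)))
(L (nat_lit 7494447)))
(S (nat_lit 27940) (L (nat_lit 26262805))
(L (nat_lit 26779730))))
(S (nat_lit 56598) (S (nat_lit 7680) (L (nat_lit 26321366))
(S (nat_lit 21053) (S (nat_lit 17534) (S (nat_lit 51) (S (nat_lit 56089) (S (nat_lit 17519) (S (nat_lit 32417) (L (nat_lit 29856358))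
(L (nat_lit 30482030)))
(L (nat_lit 16526418)))
(L (nat_lit 14462067)))
(L (nat_lit 26527425)))
(L (nat_lit 26845732)))
(L (nat_lit 15986242))))
(L (nat_lit 25222416)))))
(S (nat_lit 30700) (S (nat_lit 8810) (S (nat_lit 10987) (S (nat_lit 47858) (S (nat_lit 7778) (S (nat_lit 41261) (L (nat_lit 29401651))
(L (nat_lit 6982449)))
(L (nat_lit 21794129)))
(L (nat_lit 6942896)))
(S (nat_lit 27631) (L (nat_lit 26388022))
(L (nat_lit 26481042))))
(S (nat_lit 28574) (S (nat_lit 10987) (S (nat_lit 17558) (S (nat_lit 41303) (S (nat_lit 2225) (L (nat_lit 19153018))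
(L (nat_lit 14772810)))
(L (nat_lit 1776024)))
(S (nat_lit 21585) (L (nat_lit 7229988))
(L (nat_lit 1392562))))
(L (nat_lit 21296514)))
(S (nat_lit 48338) (S (nat_lit 10987) (S (nat_lit 66) (S (nat_lit 7778) (S (nat_lit 56088) (L (nat_lit 1481621))
(L (nat_lit 14378307)))
(L (nat_lit 23900480)))
(L (nat_lit 19228781)))
(S (nat_lit 33950) (L (nat_lit 19073594))
(L (nat_lit 26482066))))
(L (nat_lit 25678149)))))
(S (nat_lit 50464) (S (nat_lit 17070) (S (nat_lit 10987) (S (nat_lit 17558) (S (nat_lit 36325) (S (nat_lit 32924) (S (nat_lit 2210) (L (nat_lit 29474410))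
(L (nat_lit 26424438)))
(L (nat_lit 9919365)))
(L (nat_lit 23637892)))
(S (nat_lit 44991) (L (nat_lit 17855174))
(L (nat_lit 18764970))))
(S (nat_lit 15754) (L (nat_lit 500443))
(L (nat_lit 1363354))))
(S (nat_lit 36834) (S (nat_lit 10987) (S (nat_lit 7778) (S (nat_lit 41303) (S (nat_lit 12167) (S (nat_lit 6633) (L (nat_lit 1677724))
(L (nat_lit 7926464)))
(L (nat_lit 3946087)))
(L (nat_lit 23629178)))
(L (nat_lit 21761361)))
(S (nat_lit 54704) (L (nat_lit 6885787))
(L (nat_lit 1358770))))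
(S (nat_lit 56598) (S (nat_lit 10987) (S (nat_lit 7882) (L (nat_lit 26694948))
(S (nat_lit 20996) (S (nat_lit 32474) (S (nat_lit 36309) (L (nat_lit 30623426))
(L (nat_lit 6411184)))
(L (nat_lit 7460409)))
(L (nat_lit 6485559))))
(S (nat_lit 23259) (L (nat_lit 13671349))
(L (nat_lit 7869362))))
(L (nat_lit 25596555)))))
(L (nat_lit 25902306)))))
(S (nat_lit 35141) (S (nat_lit 10987) (S (nat_lit 6577) (S (nat_lit 37283) (S (nat_lit 41303) (S (nat_lit 35075) (S (nat_lit 36310) (L (nat_lit 18720355))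
(L (nat_lit 30868075)))
(L (nat_lit 12780434)))
(L (nat_lit 7079536)))
(L (nat_lit 3388027)))
(S (nat_lit 26341) (S (nat_lit 4404) (S (nat_lit 52673) (S (nat_lit 19815) (L (nat_lit 30051881))
(L (nat_lit 2895410)))
(L (nat_lit 11592146)))
(L (nat_lit 1500434)))
(S (nat_lit 46105) (S (nat_lit 17534) (S (nat_lit 6576) (L (nat_lit 7048761))
(L (nat_lit 1483384)))
(L (nat_lit 894450)))
(L (nat_lit 25214327)))))
(S (nat_lit 30751) (L (nat_lit 8418706))
(S (nat_lit 50515) (S (nat_lit 12167) (S (nat_lit 46161) (L (nat_lit 2321812))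
(L (nat_lit 27897216)))
(L (nat_lit 21792135)))
(L (nat_lit 25761224)))))
(S (nat_lit 54905) (S (nat_lit 10986) (S (nat_lit 45170) (S (nat_lit 41303) (L (nat_lit 21792134))
(L (nat_lit 24382872)))
(L (nat_lit 8030616)))
(S (nat_lit 30750) (S (nat_lit 4390) (S (nat_lit 52688) (L (nat_lit 5533074))
(L (nat_lit 19138968)))
(L (nat_lit 20123034)))
(S (nat_lit 50514) (S (nat_lit 41303) (S (nat_lit 57086) (S (nat_lit 28028) (L (nat_lit 5624216))
(L (nat_lit 10643859)))
(L (nat_lit 12344709)))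
(L (nat_lit 23334296)))
(L (nat_lit 25480367)))))
(L (nat_lit 25773349)))))
(L (nat_lit 25378405)))))
(S (nat_lit 30766) (S (nat_lit 13160) (S (nat_lit 17070) (S (nat_lit 13145) (S (nat_lit 4405) (S (nat_lit 5642) (S (nat_lit 28079) (S (nat_lit 52) (S (nat_lit 2210) (L (nat_lit 8782426))
(L (nat_lit 843146)))
(L (nat_lit 312027)))
(L (nat_lit 8142901)))
(S (nat_lit 36128) (L (nat_lit 26612359))
(L (nat_lit 19427399))))
(S (nat_lit 24169) (S (nat_lit 37283) (S (nat_lit 41777) (S (nat_lit 40817) (L (nat_lit 782762))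
(L (nat_lit 17538168)))
(L (nat_lit 11287236)))
(L (nat_lit 9498034)))
(S (nat_lit 43933) (S (nat_lit 6591) (S (nat_lit 28079) (S (nat_lit 28550) (L (nat_lit 23536697))
(L (nat_lit 17900185)))
(L (nat_lit 8110137)))
(L (nat_lit 26490592)))
(L (nat_lit 25871650)))))
(S (nat_lit 32909) (S (nat_lit 40817) (S (nat_lit 50515) (S (nat_lit 57086) (S (nat_lit 28028) (L (nat_lit 2735321))
(L (nat_lit 25044387)))
(L (nat_lit 27400594)))
(L (nat_lit 12902546)))
(S (nat_lit 56381) (L (nat_lit 12753746))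
(L (nat_lit 2867544))))
(S (nat_lit 52673) (S (nat_lit 40817) (S (nat_lit 9113) (L (nat_lit 6080780))
(S (nat_lit 28028) (S (nat_lit 15377) (L (nat_lit 7759557))
(L (nat_lit 2021770)))
(L (nat_lit 321941))))
(S (nat_lit 51341) (L (nat_lit 11649722))
(L (nat_lit 2343512))))
(L (nat_lit 25177588)))))
(S (nat_lit 36834) (S (nat_lit 15371) (S (nat_lit 8315) (S (nat_lit 2210) (L (nat_lit 606427))
(L (nat_lit 833162)))
(S (nat_lit 28079) (S (nat_lit 12167) (S (nat_lit 10936) (S (nat_lit 15377) (L (nat_lit 901428))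
(L (nat_lit 26648658)))
(L (nat_lit 8143922)))
(L (nat_lit 3946087)))
(S (nat_lit 47843) (S (nat_lit 7778) (S (nat_lit 13145) (L (nat_lit 13176583))
(L (nat_lit 8176229)))
(L (nat_lit 26883239)))
(L (nat_lit 25336339)))))
(S (nat_lit 35135) (S (nat_lit 5657) (S (nat_lit 13036) (L (nat_lit 19667116))
(S (nat_lit 17071) (S (nat_lit 32417) (L (nat_lit 2899186))
(L (nat_lit 30785651)))
(L (nat_lit 24316347))))
(S (nat_lit 25421) (S (nat_lit 36348) (L (nat_lit 515850))
(L (nat_lit 20750352)))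
(S (nat_lit 45185) (S (nat_lit 36349) (S (nat_lit 19815) (S (nat_lit 6634) (L (nat_lit 801078))
(L (nat_lit 21328290)))
(L (nat_lit 10247340)))
(S (nat_lit 45777) (L (nat_lit 15277147))
(L (nat_lit 1360691))))
(L (nat_lit 25925774)))))
(S (nat_lit 54899) (S (nat_lit 16584) (S (nat_lit 15347) (S (nat_lit 52712) (S (nat_lit 12368) (L (nat_lit 19804329))
(L (nat_lit 15311616)))
(L (nat_lit 27647525)))
(S (nat_lit 47059) (L (nat_lit 26367212))
(L (nat_lit 567058))))
(S (nat_lit 36348) (S (nat_lit 37283) (S (nat_lit 16585) (L (nat_lit 30563754))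
(L (nat_lit 26820836)))
(L (nat_lit 20786597)))
(S (nat_lit 56112) (S (nat_lit 6591) (S (nat_lit 11001) (S (nat_lit 7778) (L (nat_lit 28806391))
(L (nat_lit 13378240)))
(L (nat_lit 8314273)))
(L (nat_lit 7944032)))
(L (nat_lit 25255216)))))
(L (nat_lit 25664133)))))
(S (nat_lit 56598) (S (nat_lit 15332) (S (nat_lit 8264) (S (nat_lit 16546) (S (nat_lit 57062) (S (nat_lit 1232) (S (nat_lit 35126) (L (nat_lit 4845903))
(L (nat_lit 2511723)))
(L (nat_lit 14452022)))
(L (nat_lit 19703332)))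
(L (nat_lit 24946052)))
(S (nat_lit 28028) (S (nat_lit 54854) (L (nat_lit 28452278))
(L (nat_lit 19106637)))
(S (nat_lit 47792) (S (nat_lit 15410) (L (nat_lit 3438257))
(L (nat_lit 9191076)))
(L (nat_lit 25549219)))))
(S (nat_lit 35096) (S (nat_lit 8315) (S (nat_lit 15877) (L (nat_lit 23311172))
(S (nat_lit 19830) (S (nat_lit 35141) (S (nat_lit 45119) (L (nat_lit 3882826))
(L (nat_lit 9999992)))
(L (nat_lit 18648370)))
(L (nat_lit 10277996))))
(S (nat_lit 28079) (S (nat_lit 11297) (L (nat_lit 19120221))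
(S (nat_lit 56113) (S (nat_lit 4390) (S (nat_lit 35141) (L (nat_lit 18666603))
(L (nat_lit 23891339)))
(L (nat_lit 6346669)))
(L (nat_lit 312083))))
(S (nat_lit 47843) (S (nat_lit 52181) (S (nat_lit 36795) (L (nat_lit 2353555))
(L (nat_lit 8193589)))
(L (nat_lit 6436629)))
(L (nat_lit 25935974)))))
(S (nat_lit 54860) (S (nat_lit 12710) (S (nat_lit 35111) (S (nat_lit 30699) (L (nat_lit 16345281))
(L (nat_lit 18936015)))
(L (nat_lit 20717583)))
(S (nat_lit 32474) (S (nat_lit 7778) (S (nat_lit 6576) (S (nat_lit 57062) (S (nat_lit 56599) (L (nat_lit 19828103))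
(L (nat_lit 8838912)))
(L (nat_lit 15508197)))
(L (nat_lit 7356308)))
(L (nat_lit 13378240)))
(S (nat_lit 52238) (S (nat_lit 54839) (L (nat_lit 7802618))
(L (nat_lit 13694194)))
(L (nat_lit 25363955)))))
(L (nat_lit 25375860)))))
(L (nat_lit 25594505)))))
(S (nat_lit 32924) (S (nat_lit 13184) (S (nat_lit 5591) (S (nat_lit 1289) (S (nat_lit 19626) (L (nat_lit 19261553))
(S (nat_lit 21989) (S (nat_lit 41303) (S (nat_lit 6576) (S (nat_lit 12167) (S (nat_lit 56073) (S (nat_lit 36810) (L (nat_lit 25037319))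
(L (nat_lit 20340875)))
(L (nat_lit 19831950)))
(L (nat_lit 21771271)))
(L (nat_lit 21766316)))
(L (nat_lit 17570401)))
(L (nat_lit 2892247))))
(S (nat_lit 21053) (S (nat_lit 36011) (L (nat_lit 24192409))
(S (nat_lit 39595) (S (nat_lit 36810) (S (nat_lit 41303) (S (nat_lit 26397) (L (nat_lit 28836054))
(L (nat_lit 2643847)))
(L (nat_lit 17567094)))
(L (nat_lit 13230436)))
(L (nat_lit 24481241))))
(S (nat_lit 40817) (S (nat_lit 28094) (S (nat_lit 12167) (S (nat_lit 57062) (S (nat_lit 36810) (L (nat_lit 15279008))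
(L (nat_lit 13230372)))
(L (nat_lit 15306602)))
(L (nat_lit 18177920)))
(L (nat_lit 7403089)))
(L (nat_lit 25690727)))))
(S (nat_lit 25355) (S (nat_lit 6077) (S (nat_lit 17046) (S (nat_lit 36324) (S (nat_lit 19830) (S (nat_lit 56598) (L (nat_lit 2733306))
(L (nat_lit 14427716)))
(L (nat_lit 8915890)))
(L (nat_lit 13230405)))
(L (nat_lit 10086850)))
(S (nat_lit 25841) (S (nat_lit 25218) (S (nat_lit 37322) (L (nat_lit 19154075))
(L (nat_lit 3565938)))
(S (nat_lit 41303) (S (nat_lit 15383) (S (nat_lit 43932) (S (nat_lit 57047) (L (nat_lit 286137))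
(L (nat_lit 15460427)))
(L (nat_lit 25040975)))
(S (nat_lit 34762) (L (nat_lit 17999796))
(L (nat_lit 22953002))))
(L (nat_lit 1843793))))
(S (nat_lit 45605) (S (nat_lit 15347) (S (nat_lit 56088) (S (nat_lit 8330) (S (nat_lit 54890) (L (nat_lit 4486765))
(L (nat_lit 13945016)))
(L (nat_lit 13232294)))
(L (nat_lit 16362619)))
(L (nat_lit 6931485)))
(L (nat_lit 25546275)))))
(S (nat_lit 45119) (S (nat_lit 6577) (S (nat_lit 2602) (L (nat_lit 15803037))
(S (nat_lit 41303) (S (nat_lit 7778) (S (nat_lit 8810) (L (nat_lit 2843176))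
(L (nat_lit 1399725)))
(L (nat_lit 13312188)))
(L (nat_lit 1843825))))
(S (nat_lit 26341) (S (nat_lit 15994) (L (nat_lit 1613401))
(S (nat_lit 19830) (S (nat_lit 51710) (S (nat_lit 40775) (S (nat_lit 8315) (S (nat_lit 37322) (S (nat_lit 24211) (L (nat_lit 23552009))
(L (nat_lit 9922114)))
(L (nat_lit 9896539)))
(L (nat_lit 14230433)))
(L (nat_lit 9947288)))
(L (nat_lit 15278234)))
(L (nat_lit 30974625))))
(S (nat_lit 46105) (S (nat_lit 24259) (L (nat_lit 15573669))
(S (nat_lit 41303) (S (nat_lit 40817) (S (nat_lit 26340) (S (nat_lit 56574) (L (nat_lit 8805560))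
(L (nat_lit 9012142)))
(L (nat_lit 9893473)))
(L (nat_lit 7430064)))
(L (nat_lit 24650659))))
(L (nat_lit 25562728)))))
(L (nat_lit 25764322)))))
(S (nat_lit 32948) (S (nat_lit 16560) (S (nat_lit 16546) (S (nat_lit 35147) (S (nat_lit 41246) (S (nat_lit 7844) (S (nat_lit 41303) (S (nat_lit 40775) (S (nat_lit 41261) (S (nat_lit 7829) (S (nat_lit 17046) (L (nat_lit 2633619))
(L (nat_lit 17012473)))
(L (nat_lit 23458833)))
(L (nat_lit 3976695)))
(L (nat_lit 2574552)))
(L (nat_lit 9242225)))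
(L (nat_lit 8473425)))
(L (nat_lit 18449160)))
(L (nat_lit 3978452)))
(S (nat_lit 36310) (S (nat_lit 41246) (S (nat_lit 35147) (S (nat_lit 52181) (S (nat_lit 35090) (S (nat_lit 25841) (L (nat_lit 19047993))
(L (nat_lit 13945945)))
(L (nat_lit 30875826)))
(L (nat_lit 20821249)))
(L (nat_lit 23444505)))
(L (nat_lit 18449160)))
(S (nat_lit 56074) (S (nat_lit 35147) (S (nat_lit 15332) (S (nat_lit 30700) (S (nat_lit 41261) (S (nat_lit 43918) (L (nat_lit 5527341))
(L (nat_lit 11045593)))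
(L (nat_lit 24938833)))
(L (nat_lit 30971922)))
(L (nat_lit 838186)))
(L (nat_lit 8991801)))
(L (nat_lit 25690483)))))
(S (nat_lit 36324) (S (nat_lit 5642) (S (nat_lit 15347) (S (nat_lit 21989) (L (nat_lit 28946752))
(S (nat_lit 47199) (L (nat_lit 20084079))
(L (nat_lit 21766597))))
(S (nat_lit 50626) (S (nat_lit 35147) (L (nat_lit 8237797))
(L (nat_lit 9058117)))
(L (nat_lit 26794213))))
(S (nat_lit 25406) (S (nat_lit 8982) (L (nat_lit 20415302))
(S (nat_lit 27593) (S (nat_lit 17031) (S (nat_lit 17558) (L (nat_lit 13783945))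
(L (nat_lit 7496270)))
(L (nat_lit 22813060)))
(L (nat_lit 16110617))))
(S (nat_lit 45170) (S (nat_lit 31988) (S (nat_lit 6077) (S (nat_lit 56074) (L (nat_lit 15885992))
(L (nat_lit 9896851)))
(L (nat_lit 4841772)))
(L (nat_lit 31040992)))
(L (nat_lit 25526988)))))
(S (nat_lit 56088) (S (nat_lit 11001) (S (nat_lit 9149) (L (nat_lit 7255748))
(S (nat_lit 28574) (S (nat_lit 47843) (S (nat_lit 16561) (S (nat_lit 22013) (S (nat_lit 37322) (L (nat_lit 16915349))
(L (nat_lit 30869066)))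
(L (nat_lit 31168997)))
(L (nat_lit 24260122)))
(L (nat_lit 9209363)))
(L (nat_lit 9013101))))
(S (nat_lit 30765) (S (nat_lit 4390) (S (nat_lit 56089) (S (nat_lit 1) (S (nat_lit 51752) (L (nat_lit 2729436))
(L (nat_lit 10084832)))
(L (nat_lit 6928130)))
(L (nat_lit 14260412)))
(S (nat_lit 40662) (L (nat_lit 16928678))
(L (nat_lit 16359611))))
(S (nat_lit 50529) (S (nat_lit 22799) (L (nat_lit 20093711))
(S (nat_lit 48338) (S (nat_lit 35075) (S (nat_lit 5642) (S (nat_lit 35135) (L (nat_lit 29787818))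
(L (nat_lit 20748773)))
(L (nat_lit 5632716)))
(L (nat_lit 20388741)))
(L (nat_lit 16521828))))
(L (nat_lit 25863680)))))
(L (nat_lit 25385134)))))
(S (nat_lit 52712) (S (nat_lit 16546) (S (nat_lit 8264) (S (nat_lit 7778) (S (nat_lit 12167) (S (nat_lit 36795) (S (nat_lit 21497) (S (nat_lit 54890) (L (nat_lit 10608024))
(L (nat_lit 11122436)))
(L (nat_lit 22361859)))
(L (nat_lit 20297476)))
(S (nat_lit 51560) (L (nat_lit 13824243))
(L (nat_lit 3983753))))
(S (nat_lit 27488) (L (nat_lit 26807536))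
(L (nat_lit 9178832))))
(S (nat_lit 28028) (S (nat_lit 11001) (S (nat_lit 24168) (S (nat_lit 1247) (L (nat_lit 29996201))
(L (nat_lit 5945161)))
(L (nat_lit 30671505)))
(L (nat_lit 26588897)))
(S (nat_lit 47792) (S (nat_lit 11627) (L (nat_lit 2388374))
(S (nat_lit 47306) (S (nat_lit 41261) (S (nat_lit 19831) (L (nat_lit 2696666))
(L (nat_lit 9996952)))
(L (nat_lit 3389080)))
(L (nat_lit 22296482))))
(L (nat_lit 25614691)))))
(S (nat_lit 36310) (S (nat_lit 13145) (S (nat_lit 15326) (S (nat_lit 56599) (S (nat_lit 50464) (S (nat_lit 41303) (S (nat_lit 43974) (S (nat_lit 6577) (S (nat_lit 27593) (S (nat_lit 31946) (L (nat_lit 5787992))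
(L (nat_lit 7093986)))
(L (nat_lit 19663152)))
(L (nat_lit 13379171)))
(L (nat_lit 11688509)))
(L (nat_lit 24912016)))
(L (nat_lit 14877554)))
(L (nat_lit 21769265)))
(L (nat_lit 7113202)))
(S (nat_lit 32909) (S (nat_lit 15979) (L (nat_lit 833098))
(S (nat_lit 53734) (S (nat_lit 31946) (L (nat_lit 13754122))
(L (nat_lit 31007136)))
(L (nat_lit 11318326))))
(S (nat_lit 52673) (S (nat_lit 54890) (S (nat_lit 57062) (S (nat_lit 39579) (L (nat_lit 26335441))
(L (nat_lit 18668897)))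
(L (nat_lit 19707077)))
(L (nat_lit 10603277)))
(L (nat_lit 25216715)))))
(S (nat_lit 56074) (S (nat_lit 26356) (S (nat_lit 19815) (S (nat_lit 54911) (S (nat_lit 24168) (S (nat_lit 57062) (S (nat_lit 46162) (S (nat_lit 54890) (S (nat_lit 6577) (S (nat_lit 41303) (L (nat_lit 22158908))
(L (nat_lit 8916570)))
(L (nat_lit 13650298)))
(L (nat_lit 19194276)))
(L (nat_lit 10676943)))
(L (nat_lit 19402666)))
(L (nat_lit 8516241)))
(L (nat_lit 27866309)))
(L (nat_lit 3431213)))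
(S (nat_lit 54494) (L (nat_lit 21116843))
(L (nat_lit 10041090))))
(L (nat_lit 25863313)))))
(L (nat_lit 25729604)))))
(S (nat_lit 52688) (S (nat_lit 4390) (S (nat_lit 1289) (S (nat_lit 2210) (S (nat_lit 10986) (S (nat_lit 28028) (S (nat_lit 1) (L (nat_lit 19169850))
(L (nat_lit 19096963)))
(L (nat_lit 19735939)))
(L (nat_lit 26496384)))
(L (nat_lit 20148612)))
(S (nat_lit 21053) (S (nat_lit 2210) (S (nat_lit 12167) (S (nat_lit 1) (S (nat_lit 41303) (L (nat_lit 2729371))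
(L (nat_lit 1776026)))
(L (nat_lit 19129731)))
(L (nat_lit 26500482)))
(L (nat_lit 26434948)))
(S (nat_lit 40817) (S (nat_lit 8330) (S (nat_lit 36348) (S (nat_lit 30765) (S (nat_lit 8810) (L (nat_lit 14258023))
(L (nat_lit 26851466)))
(L (nat_lit 17408928)))
(L (nat_lit 18653763)))
(S (nat_lit 28094) (S (nat_lit 8810) (S (nat_lit 10935) (S (nat_lit 21539) (L (nat_lit 4758136))
(L (nat_lit 729497)))
(L (nat_lit 21796881)))
(L (nat_lit 26851498)))
(S (nat_lit 47858) (S (nat_lit 28550) (S (nat_lit 46161) (L (nat_lit 17010547))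
(L (nat_lit 11135360)))
(L (nat_lit 18139161)))
(L (nat_lit 25701091)))))
(L (nat_lit 25395606)))))
(S (nat_lit 24154) (S (nat_lit 1775) (S (nat_lit 2210) (L (nat_lit 1647002))
(L (nat_lit 19100037)))
(S (nat_lit 21539) (S (nat_lit 4446) (S (nat_lit 7778) (S (nat_lit 6531) (L (nat_lit 6416947))
(L (nat_lit 30640530)))
(S (nat_lit 47457) (L (nat_lit 5939709))
(L (nat_lit 14426752))))
(S (nat_lit 24210) (S (nat_lit 7778) (S (nat_lit 4341) (L (nat_lit 30770764))
(L (nat_lit 30640530)))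
(S (nat_lit 27515) (L (nat_lit 8024449))
(L (nat_lit 21794128))))
(S (nat_lit 43974) (S (nat_lit 7778) (S (nat_lit 1733) (S (nat_lit 56559) (S (nat_lit 36811) (S (nat_lit 57062) (L (nat_lit 29546701))
(L (nat_lit 19329253)))
(L (nat_lit 31038912)))
(L (nat_lit 27625072)))
(L (nat_lit 12017847)))
(S (nat_lit 27515) (L (nat_lit 8024449))
(L (nat_lit 21799298))))
(L (nat_lit 25320934)))))
(S (nat_lit 41303) (S (nat_lit 45170) (S (nat_lit 12167) (S (nat_lit 8264) (L (nat_lit 694680))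
(L (nat_lit 10277249)))
(L (nat_lit 9209235)))
(L (nat_lit 7396762)))
(L (nat_lit 25379393)))))
(S (nat_lit 43918) (S (nat_lit 16545) (S (nat_lit 7778) (S (nat_lit 26398) (L (nat_lit 5876121))
(L (nat_lit 9229699)))
(L (nat_lit 9178515)))
(S (nat_lit 36309) (S (nat_lit 50514) (S (nat_lit 36795) (L (nat_lit 598427))
(L (nat_lit 20778379)))
(L (nat_lit 27579776)))
(S (nat_lit 56073) (S (nat_lit 17047) (S (nat_lit 41753) (S (nat_lit 6576) (S (nat_lit 25907) (L (nat_lit 5655771))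
(L (nat_lit 30684803)))
(L (nat_lit 8161812)))
(L (nat_lit 16557637)))
(S (nat_lit 36811) (S (nat_lit 54890) (L (nat_lit 4824475))
(L (nat_lit 11133069)))
(S (nat_lit 56575) (S (nat_lit 40760) (S (nat_lit 12710) (S (nat_lit 39579) (L (nat_lit 17598837))
(L (nat_lit 17717415)))
(L (nat_lit 18477347)))
(L (nat_lit 18477346)))
(L (nat_lit 25730195)))))
(L (nat_lit 25339287)))))
(L (nat_lit 25666741)))))
(L (nat_lit 25240978)))))
(S (nat_lit 50530) (S (nat_lit 6576) (S (nat_lit 1733) (S (nat_lit 15347) (S (nat_lit 25406) (S (nat_lit 27593) (S (nat_lit 37298) (S (nat_lit 25892) (L (nat_lit 5911801))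
(L (nat_lit 22252953)))
(L (nat_lit 17571858)))
(L (nat_lit 24913408)))
(S (nat_lit 40492) (L (nat_lit 531378))
(L (nat_lit 7101824))))
(S (nat_lit 35111) (S (nat_lit 8786) (S (nat_lit 12068) (S (nat_lit 32753) (L (nat_lit 220569))
(L (nat_lit 13176710)))
(S (nat_lit 46105) (S (nat_lit 35126) (L (nat_lit 12691161))
(L (nat_lit 23193067)))
(L (nat_lit 11931324))))
(S (nat_lit 28550) (S (nat_lit 35126) (S (nat_lit 37298) (S (nat_lit 21989) (S (nat_lit 32924) (S (nat_lit 462) (L (nat_lit 1369618))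
(S (nat_lit 46162) (S (nat_lit 43975) (S (nat_lit 39595) (S (nat_lit 12167) (S (nat_lit 1232) (S (nat_lit 41303) (L (nat_lit 2307708))
(L (nat_lit 3875226)))
(L (nat_lit 13206780)))
(L (nat_lit 8964124)))
(L (nat_lit 23595289)))
(L (nat_lit 13314073)))
(L (nat_lit 12110873))))
(L (nat_lit 23393669)))
(L (nat_lit 18150981)))
(L (nat_lit 10076185)))
(L (nat_lit 12896441)))
(S (nat_lit 48314) (S (nat_lit 17004) (S (nat_lit 5591) (L (nat_lit 10012795))
(L (nat_lit 19709248)))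
(S (nat_lit 39529) (S (nat_lit 57062) (S (nat_lit 28094) (L (nat_lit 3558313))
(L (nat_lit 15517923)))
(L (nat_lit 21426405)))
(L (nat_lit 4797689))))
(L (nat_lit 25249482)))))
(S (nat_lit 54875) (S (nat_lit 16585) (S (nat_lit 6128) (S (nat_lit 8315) (S (nat_lit 5591) (L (nat_lit 26392136))
(L (nat_lit 9037346)))
(L (nat_lit 13883297)))
(L (nat_lit 19119009)))
(S (nat_lit 36349) (S (nat_lit 11001) (S (nat_lit 2210) (L (nat_lit 19120900))
(L (nat_lit 19099725)))
(L (nat_lit 26912160)))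
(S (nat_lit 56113) (S (nat_lit 1) (S (nat_lit 2210) (L (nat_lit 12605254))
(L (nat_lit 6942829)))
(S (nat_lit 47464) (L (nat_lit 226770))
(L (nat_lit 1841775))))
(L (nat_lit 25679137)))))
(L (nat_lit 25450949)))))
(S (nat_lit 21497) (S (nat_lit 16546) (S (nat_lit 67) (S (nat_lit 8264) (S (nat_lit 6077) (S (nat_lit 2225) (L (nat_lit 21531400))
(L (nat_lit 26781284)))
(L (nat_lit 26724422)))
(S (nat_lit 17679) (L (nat_lit 22212879))
(L (nat_lit 12374433))))
(S (nat_lit 19831) (S (nat_lit 22097) (L (nat_lit 5913977))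
(S (nat_lit 41753) (S (nat_lit 21011) (S (nat_lit 11001) (L (nat_lit 29368758))
(L (nat_lit 26617409)))
(L (nat_lit 4895961)))
(L (nat_lit 16550103))))
(S (nat_lit 39595) (S (nat_lit 47739) (L (nat_lit 24295178))
(S (nat_lit 50529) (S (nat_lit 17031) (S (nat_lit 6077) (S (nat_lit 8264) (S (nat_lit 31946) (L (nat_lit 13521031))
(L (nat_lit 17748162)))
(L (nat_lit 13422881)))
(L (nat_lit 20757793)))
(L (nat_lit 22157721)))
(L (nat_lit 14853940))))
(L (nat_lit 25497263)))))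
(S (nat_lit 36310) (S (nat_lit 15326) (S (nat_lit 51752) (S (nat_lit 24168) (S (nat_lit 1718) (S (nat_lit 4390) (S (nat_lit 6577) (S (nat_lit 1) (L (nat_lit 13520906))
(L (nat_lit 12831490)))
(L (nat_lit 6310831)))
(L (nat_lit 6305716)))
(L (nat_lit 12184099)))
(L (nat_lit 9357425)))
(L (nat_lit 20391842)))
(S (nat_lit 35090) (S (nat_lit 19721) (S (nat_lit 10785) (L (nat_lit 1462490))
(L (nat_lit 8145445)))
(S (nat_lit 40817) (S (nat_lit 17031) (S (nat_lit 52196) (L (nat_lit 6819449))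
(L (nat_lit 22251960)))
(L (nat_lit 15042169)))
(L (nat_lit 8129136))))
(S (nat_lit 54854) (S (nat_lit 7778) (S (nat_lit 52712) (S (nat_lit 32924) (L (nat_lit 7144850))
(L (nat_lit 20717956)))
(L (nat_lit 6051185)))
(S (nat_lit 26315) (S (nat_lit 16545) (L (nat_lit 4536242))
(L (nat_lit 14864761)))
(L (nat_lit 14459059))))
(L (nat_lit 25866410)))))
(S (nat_lit 56074) (S (nat_lit 6577) (S (nat_lit 35126) (S (nat_lit 21053) (S (nat_lit 25841) (S (nat_lit 13145) (L (nat_lit 22036295))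
(L (nat_lit 26462660)))
(L (nat_lit 7487097)))
(L (nat_lit 15960665)))
(S (nat_lit 54836) (S (nat_lit 41777) (S (nat_lit 52712) (L (nat_lit 21165327))
(L (nat_lit 19248312)))
(L (nat_lit 14010552)))
(L (nat_lit 2902351))))
(S (nat_lit 26341) (S (nat_lit 35126) (S (nat_lit 16545) (L (nat_lit 14502209))
(L (nat_lit 26691939)))
(L (nat_lit 8505785)))
(S (nat_lit 46105) (S (nat_lit 25841) (S (nat_lit 16545) (S (nat_lit 5591) (S (nat_lit 15332) (L (nat_lit 26397128))
(L (nat_lit 7817341)))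
(L (nat_lit 5819175)))
(L (nat_lit 11323534)))
(L (nat_lit 5622604)))
(L (nat_lit 25601207)))))
(L (nat_lit 25428371)))))
(S (nat_lit 41261) (S (nat_lit 52) (S (nat_lit 47843) (S (nat_lit 10935) (S (nat_lit 36349) (S (nat_lit 45656) (S (nat_lit 35126) (S (nat_lit 28550) (S (nat_lit 7778) (L (nat_lit 23584904))
(L (nat_lit 21771520)))
(L (nat_lit 13372043)))
(L (nat_lit 20004217)))
(L (nat_lit 14936769)))
(L (nat_lit 20179425)))
(L (nat_lit 26464737)))
(S (nat_lit 58695) (S (nat_lit 45170) (L (nat_lit 26757192))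
(L (nat_lit 828822)))
(L (nat_lit 20750385))))
(S (nat_lit 19816) (S (nat_lit 9099) (L (nat_lit 9923267))
(S (nat_lit 28550) (S (nat_lit 17588) (L (nat_lit 16446598))
(S (nat_lit 37298) (S (nat_lit 32567) (L (nat_lit 8946424))
(S (nat_lit 35147) (S (nat_lit 35126) (S (nat_lit 32948) (S (nat_lit 22013) (S (nat_lit 37283) (L (nat_lit 28742994))
(L (nat_lit 9934610)))
(L (nat_lit 9881753)))
(L (nat_lit 10040473)))
(L (nat_lit 8473389)))
(L (nat_lit 3816699))))
(L (nat_lit 20712686))))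
(L (nat_lit 24512761))))
(S (nat_lit 39580) (S (nat_lit 12339) (S (nat_lit 24210) (S (nat_lit 10134) (L (nat_lit 15520938))
(L (nat_lit 20388025)))
(S (nat_lit 43974) (L (nat_lit 23473955))
(L (nat_lit 25931969))))
(S (nat_lit 35096) (S (nat_lit 5591) (S (nat_lit 56073) (S (nat_lit 7778) (S (nat_lit 66) (S (nat_lit 47843) (L (nat_lit 28330255))
(L (nat_lit 20750851)))
(L (nat_lit 20848717)))
(L (nat_lit 21771520)))
(L (nat_lit 13912867)))
(S (nat_lit 6744) (L (nat_lit 15518855))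
(L (nat_lit 20726887))))
(L (nat_lit 2309849))))
(L (nat_lit 25282281)))))
(L (nat_lit 25867270)))))
(S (nat_lit 26340) (S (nat_lit 6591) (S (nat_lit 16546) (S (nat_lit 8810) (S (nat_lit 26286) (S (nat_lit 12167) (S (nat_lit 12653) (L (nat_lit 23392432))
(L (nat_lit 2902406)))
(L (nat_lit 9193856)))
(S (nat_lit 45605) (S (nat_lit 45119) (S (nat_lit 12167) (L (nat_lit 14551411))
(L (nat_lit 9193856)))
(L (nat_lit 12875360)))
(L (nat_lit 6813281))))
(S (nat_lit 28574) (S (nat_lit 12653) (S (nat_lit 12167) (S (nat_lit 37298) (L (nat_lit 3064487))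
(L (nat_lit 10236948)))
(L (nat_lit 16533575)))
(L (nat_lit 16533761)))
(S (nat_lit 48338) (S (nat_lit 35239) (L (nat_lit 26843681))
(S (nat_lit 40817) (S (nat_lit 45119) (S (nat_lit 6143) (S (nat_lit 36795) (L (nat_lit 31170944))
(L (nat_lit 23442618)))
(L (nat_lit 20317030)))
(L (nat_lit 23248218)))
(L (nat_lit 2629240))))
(L (nat_lit 25861293)))))
(S (nat_lit 36310) (S (nat_lit 4404) (S (nat_lit 5657) (S (nat_lit 7778) (S (nat_lit 12182) (S (nat_lit 35126) (L (nat_lit 26983620))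
(L (nat_lit 20725060)))
(L (nat_lit 16636256)))
(L (nat_lit 21161233)))
(S (nat_lit 44525) (L (nat_lit 14361445))
(L (nat_lit 20383591))))
(S (nat_lit 24168) (S (nat_lit 41303) (S (nat_lit 20996) (L (nat_lit 21454982))
(L (nat_lit 7224032)))
(L (nat_lit 23861393)))
(S (nat_lit 43932) (S (nat_lit 18578) (L (nat_lit 26794151))
(S (nat_lit 54860) (S (nat_lit 57047) (S (nat_lit 21011) (L (nat_lit 14687123))
(L (nat_lit 6993664)))
(L (nat_lit 13486154)))
(L (nat_lit 27278612))))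
(L (nat_lit 25429523)))))
(S (nat_lit 56074) (S (nat_lit 32924) (S (nat_lit 23783) (L (nat_lit 18554937))
(S (nat_lit 41303) (S (nat_lit 41753) (S (nat_lit 31988) (S (nat_lit 42289) (S (nat_lit 42046) (S (nat_lit 45119) (L (nat_lit 4436665))
(L (nat_lit 2379692)))
(L (nat_lit 6768665)))
(L (nat_lit 19341497)))
(L (nat_lit 11930329)))
(L (nat_lit 23143277)))
(L (nat_lit 9176470))))
(L (nat_lit 10075161)))
(L (nat_lit 25280198)))))
(S (nat_lit 26355) (S (nat_lit 1289) (S (nat_lit 17070) (S (nat_lit 20336) (L (nat_lit 3360345))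
(S (nat_lit 47357) (S (nat_lit 11001) (L (nat_lit 28463527))
(L (nat_lit 16687680)))
(L (nat_lit 17374976))))
(S (nat_lit 36834) (S (nat_lit 8786) (S (nat_lit 37298) (S (nat_lit 8771) (S (nat_lit 35126) (S (nat_lit 30750) (L (nat_lit 29988206))
(L (nat_lit 10236512)))
(L (nat_lit 12864292)))
(L (nat_lit 21459237)))
(L (nat_lit 23864869)))
(S (nat_lit 38616) (S (nat_lit 15898) (L (nat_lit 15438631))
(L (nat_lit 23556388)))
(L (nat_lit 21373733))))
(S (nat_lit 56598) (S (nat_lit 24169) (S (nat_lit 35147) (S (nat_lit 30765) (L (nat_lit 29861444))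
(L (nat_lit 19341434)))
(L (nat_lit 9226285)))
(L (nat_lit 21764611)))
(L (nat_lit 25288105)))))
(S (nat_lit 21053) (S (nat_lit 12167) (S (nat_lit 7778) (S (nat_lit 35126) (S (nat_lit 45671) (S (nat_lit 41303) (L (nat_lit 27541620))
(L (nat_lit 23872801)))
(L (nat_lit 3948887)))
(L (nat_lit 9521965)))
(S (nat_lit 26892) (L (nat_lit 20408487))
(L (nat_lit 26335623))))
(L (nat_lit 21764544)))
(S (nat_lit 40817) (S (nat_lit 10935) (S (nat_lit 51752) (S (nat_lit 36811) (S (nat_lit 1232) (L (nat_lit 13331623))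
(L (nat_lit 19328288)))
(L (nat_lit 18075520)))
(L (nat_lit 27512288)))
(S (nat_lit 30699) (S (nat_lit 45185) (S (nat_lit 41303) (S (nat_lit 35126) (S (nat_lit 12653) (S (nat_lit 30750) (S (nat_lit 37298) (S (nat_lit 45671) (S (nat_lit 41777) (L (nat_lit 14552775))
(L (nat_lit 24615064)))
(L (nat_lit 27316646)))
(L (nat_lit 14427154)))
(L (nat_lit 19182432)))
(L (nat_lit 16450470)))
(L (nat_lit 2904399)))
(L (nat_lit 9197985)))
(L (nat_lit 23868768)))
(S (nat_lit 50463) (S (nat_lit 27608) (S (nat_lit 56575) (L (nat_lit 20724775))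
(L (nat_lit 19129792)))
(L (nat_lit 19128768)))
(L (nat_lit 25173556)))))
(L (nat_lit 25937154)))))
(S (nat_lit 46119) (S (nat_lit 1) (S (nat_lit 12668) (S (nat_lit 26286) (S (nat_lit 8315) (L (nat_lit 23896512))
(L (nat_lit 14250241)))
(S (nat_lit 41753) (S (nat_lit 35111) (S (nat_lit 45656) (L (nat_lit 29789769))
(L (nat_lit 23313153)))
(L (nat_lit 30706413)))
(L (nat_lit 27527789))))
(S (nat_lit 32432) (S (nat_lit 8918) (L (nat_lit 20385114))
(S (nat_lit 48338) (S (nat_lit 35126) (S (nat_lit 41753) (L (nat_lit 6072973))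
(L (nat_lit 16556644)))
(L (nat_lit 12896441)))
(L (nat_lit 11292813))))
(S (nat_lit 52196) (S (nat_lit 6077) (S (nat_lit 41753) (L (nat_lit 19997240))
(L (nat_lit 27664997)))
(L (nat_lit 26808806)))
(L (nat_lit 25760262)))))
(S (nat_lit 19765) (S (nat_lit 15362) (S (nat_lit 36324) (S (nat_lit 27608) (L (nat_lit 26300903))
(L (nat_lit 30934599)))
(L (nat_lit 20486332)))
(S (nat_lit 35126) (S (nat_lit 12167) (S (nat_lit 56112) (S (nat_lit 37298) (S (nat_lit 35111) (S (nat_lit 39594) (L (nat_lit 16867210))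
(L (nat_lit 11359680)))
(L (nat_lit 18472971)))
(L (nat_lit 10062395)))
(L (nat_lit 10043419)))
(L (nat_lit 3946087)))
(S (nat_lit 54890) (S (nat_lit 7148) (L (nat_lit 10240055))
(S (nat_lit 16546) (S (nat_lit 57062) (L (nat_lit 29983022))
(L (nat_lit 27899076)))
(L (nat_lit 15499475))))
(L (nat_lit 25563474)))))
(S (nat_lit 39529) (S (nat_lit 13184) (S (nat_lit 8264) (L (nat_lit 4568728))
(L (nat_lit 4503349)))
(S (nat_lit 32948) (S (nat_lit 57086) (S (nat_lit 19831) (S (nat_lit 30699) (L (nat_lit 8408474))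
(L (nat_lit 9996180)))
(L (nat_lit 10271828)))
(L (nat_lit 15472786)))
(S (nat_lit 52712) (S (nat_lit 46175) (L (nat_lit 5666162))
(S (nat_lit 48299) (S (nat_lit 25421) (S (nat_lit 43918) (S (nat_lit 17519) (L (nat_lit 18915739))
(L (nat_lit 26458724)))
(L (nat_lit 23078297)))
(L (nat_lit 12355246)))
(L (nat_lit 5092938))))
(L (nat_lit 25723467)))))
(L (nat_lit 25173615)))))
(L (nat_lit 25769216)))))
(S (nat_lit 46104) (S (nat_lit 5642) (S (nat_lit 11001) (S (nat_lit 12167) (S (nat_lit 56112) (S (nat_lit 21974) (S (nat_lit 41303) (S (nat_lit 47843) (S (nat_lit 35111) (L (nat_lit 15507607))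
(L (nat_lit 9177554)))
(L (nat_lit 19931920)))
(L (nat_lit 3956017)))
(L (nat_lit 8871001)))
(L (nat_lit 10247248)))
(L (nat_lit 16516711)))
(S (nat_lit 30765) (S (nat_lit 17101) (L (nat_lit 19982637))
(S (nat_lit 47357) (S (nat_lit 594) (L (nat_lit 16361221))
(S (nat_lit 47843) (S (nat_lit 24154) (S (nat_lit 15377) (L (nat_lit 2926316))
(L (nat_lit 17702994)))
(L (nat_lit 17704675)))
(L (nat_lit 22482694))))
(L (nat_lit 20749824))))
(S (nat_lit 50529) (S (nat_lit 13145) (S (nat_lit 1289) (S (nat_lit 50463) (S (nat_lit 46105) (S (nat_lit 37298) (L (nat_lit 28400073))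
(L (nat_lit 20358171)))
(L (nat_lit 27712648)))
(L (nat_lit 20153915)))
(L (nat_lit 5824265)))
(S (nat_lit 32909) (S (nat_lit 48314) (S (nat_lit 46105) (S (nat_lit 28094) (S (nat_lit 12167) (S (nat_lit 35126) (L (nat_lit 21794124))
(L (nat_lit 9039023)))
(L (nat_lit 5824391)))
(L (nat_lit 5823833)))
(L (nat_lit 5655305)))
(L (nat_lit 4606890)))
(S (nat_lit 52673) (S (nat_lit 9455) (L (nat_lit 20155836))
(S (nat_lit 47357) (S (nat_lit 41303) (S (nat_lit 35111) (S (nat_lit 25355) (S (nat_lit 18185) (L (nat_lit 2311835))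
(L (nat_lit 19736064)))
(L (nat_lit 12404320)))
(L (nat_lit 20488249)))
(L (nat_lit 9193025)))
(L (nat_lit 20422464))))
(L (nat_lit 25176689)))))
(L (nat_lit 25509972)))))
(S (nat_lit 25406) (S (nat_lit 15332) (S (nat_lit 16560) (S (nat_lit 17031) (S (nat_lit 32432) (S (nat_lit 27608) (L (nat_lit 1876532))
(L (nat_lit 12369632)))
(L (nat_lit 19670028)))
(L (nat_lit 26911266)))
(L (nat_lit 16821945)))
(S (nat_lit 35096) (S (nat_lit 8330) (S (nat_lit 40760) (S (nat_lit 32432) (S (nat_lit 4447) (L (nat_lit 24329403))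
(L (nat_lit 20288059)))
(L (nat_lit 17566278)))
(L (nat_lit 23182650)))
(S (nat_lit 28094) (S (nat_lit 32474) (S (nat_lit 46105) (S (nat_lit 37283) (L (nat_lit 5956940))
(L (nat_lit 30456116)))
(L (nat_lit 10935449)))
(L (nat_lit 19072571)))
(S (nat_lit 47858) (S (nat_lit 22125) (L (nat_lit 4745927))
(S (nat_lit 46161) (S (nat_lit 12167) (S (nat_lit 23593) (L (nat_lit 16969044))
(L (nat_lit 20849024)))
(L (nat_lit 23856583)))
(L (nat_lit 20078983))))
(L (nat_lit 25697461)))))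
(S (nat_lit 54860) (S (nat_lit 16561) (S (nat_lit 41303) (S (nat_lit 17031) (S (nat_lit 10987) (L (nat_lit 29601971))
(L (nat_lit 21081499)))
(L (nat_lit 4989493)))
(L (nat_lit 24317336)))
(S (nat_lit 36325) (S (nat_lit 15793) (L (nat_lit 11581335))
(S (nat_lit 47792) (S (nat_lit 46105) (S (nat_lit 47858) (L (nat_lit 28454454))
(L (nat_lit 27475123)))
(L (nat_lit 4417047)))
(L (nat_lit 1486771))))
(S (nat_lit 56089) (S (nat_lit 28094) (S (nat_lit 48314) (S (nat_lit 50464) (L (nat_lit 12645062))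
(L (nat_lit 11583410)))
(L (nat_lit 22422436)))
(L (nat_lit 15769337)))
(L (nat_lit 25382404)))))
(L (nat_lit 25400013)))))
(S (nat_lit 45170) (S (nat_lit 17558) (S (nat_lit 15383) (S (nat_lit 37298) (S (nat_lit 15377) (S (nat_lit 24210) (L (nat_lit 450471))
(L (nat_lit 16934130)))
(L (nat_lit 26879365)))
(L (nat_lit 20719076)))
(S (nat_lit 35147) (S (nat_lit 7829) (S (nat_lit 35075) (L (nat_lit 2759067))
(L (nat_lit 20135961)))
(L (nat_lit 12972640)))
(S (nat_lit 54911) (S (nat_lit 17046) (S (nat_lit 24210) (S (nat_lit 4447) (L (nat_lit 6371965))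
(L (nat_lit 6690580)))
(L (nat_lit 22406624)))
(S (nat_lit 17691) (L (nat_lit 30497998))
(L (nat_lit 15303033))))
(L (nat_lit 25826763)))))
(S (nat_lit 37322) (S (nat_lit 1247) (S (nat_lit 12167) (S (nat_lit 30699) (S (nat_lit 56599) (L (nat_lit 6960032))
(L (nat_lit 19086080)))
(L (nat_lit 16833351)))
(L (nat_lit 21795207)))
(S (nat_lit 21011) (S (nat_lit 31946) (S (nat_lit 25892) (S (nat_lit 21497) (L (nat_lit 14585450))
(L (nat_lit 14928921)))
(L (nat_lit 22449371)))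
(L (nat_lit 24177159)))
(S (nat_lit 40775) (S (nat_lit 41303) (S (nat_lit 12167) (S (nat_lit 24154) (L (nat_lit 4104913))
(L (nat_lit 21171608)))
(L (nat_lit 18573536)))
(L (nat_lit 23856497)))
(L (nat_lit 25630071)))))
(S (nat_lit 57086) (S (nat_lit 16545) (S (nat_lit 12167) (S (nat_lit 37298) (S (nat_lit 52181) (S (nat_lit 35111) (L (nat_lit 5972911))
(L (nat_lit 9177773)))
(L (nat_lit 15408248)))
(L (nat_lit 23497977)))
(L (nat_lit 21802368)))
(S (nat_lit 19882) (L (nat_lit 3938897))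
(L (nat_lit 11287605))))
(L (nat_lit 25560651)))))
(L (nat_lit 25713952)))))
(L (nat_lit 25902246)))))
(L (nat_lit 25320873)))))
(S (nat_lit 36796) (S (nat_lit 6634) (S (nat_lit 8264) (S (nat_lit 17031) (S (nat_lit 10986) (L (nat_lit 29415814))
(L (nat_lit 26301831)))
(S (nat_lit 36795) (S (nat_lit 12224) (S (nat_lit 32909) (S (nat_lit 40760) (L (nat_lit 29754054))
(L (nat_lit 8292048)))
(L (nat_lit 3032779)))
(S (nat_lit 31988) (S (nat_lit 19816) (L (nat_lit 29760194))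
(L (nat_lit 8482511)))
(S (nat_lit 51752) (S (nat_lit 28550) (S (nat_lit 7778) (L (nat_lit 5501649))
(L (nat_lit 11285184)))
(L (nat_lit 18123481)))
(L (nat_lit 25175756)))))
(S (nat_lit 56559) (S (nat_lit 16546) (L (nat_lit 26320274))
(S (nat_lit 36310) (S (nat_lit 1289) (L (nat_lit 1369490))
(L (nat_lit 11207069)))
(S (nat_lit 56074) (L (nat_lit 8535769))
(L (nat_lit 25443478)))))
(L (nat_lit 25627893)))))
(S (nat_lit 28028) (S (nat_lit 13160) (S (nat_lit 4404) (S (nat_lit 6128) (S (nat_lit 51695) (S (nat_lit 8771) (L (nat_lit 8576412))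
(L (nat_lit 841098)))
(L (nat_lit 903559)))
(S (nat_lit 25892) (S (nat_lit 10986) (S (nat_lit 1) (S (nat_lit 4390) (S (nat_lit 17558) (S (nat_lit 2210) (S (nat_lit 51695) (L (nat_lit 29505781))
(L (nat_lit 20874476)))
(L (nat_lit 26847620)))
(L (nat_lit 26563973)))
(L (nat_lit 1299867)))
(L (nat_lit 6310299)))
(L (nat_lit 26301830)))
(S (nat_lit 45656) (S (nat_lit 32417) (L (nat_lit 5597591))
(L (nat_lit 8257939)))
(L (nat_lit 25353422)))))
(S (nat_lit 24168) (S (nat_lit 67) (S (nat_lit 51695) (S (nat_lit 8771) (S (nat_lit 56575) (S (nat_lit 27608) (L (nat_lit 20453465))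
(L (nat_lit 19183675)))
(L (nat_lit 6685619)))
(L (nat_lit 1307187)))
(L (nat_lit 8008792)))
(S (nat_lit 19831) (S (nat_lit 2225) (S (nat_lit 27608) (S (nat_lit 40817) (L (nat_lit 7072133))
(L (nat_lit 8129104)))
(L (nat_lit 16423682)))
(L (nat_lit 6378255)))
(S (nat_lit 39595) (S (nat_lit 8771) (S (nat_lit 56074) (S (nat_lit 12653) (L (nat_lit 17986931))
(L (nat_lit 23456193)))
(L (nat_lit 551123)))
(L (nat_lit 8024613)))
(L (nat_lit 25744674)))))
(S (nat_lit 43932) (S (nat_lit 6577) (S (nat_lit 7829) (S (nat_lit 66) (S (nat_lit 51695) (S (nat_lit 10935) (L (nat_lit 15780678))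
(L (nat_lit 736472)))
(L (nat_lit 903559)))
(L (nat_lit 7925409)))
(L (nat_lit 12638119)))
(S (nat_lit 26341) (S (nat_lit 26498) (L (nat_lit 7789597))
(S (nat_lit 32417) (S (nat_lit 19830) (L (nat_lit 2834315))
(L (nat_lit 31145248)))
(L (nat_lit 8263059))))
(S (nat_lit 46105) (S (nat_lit 33224) (L (nat_lit 19938619))
(S (nat_lit 35141) (L (nat_lit 3842457))
(L (nat_lit 3580633))))
(L (nat_lit 25896451)))))
(L (nat_lit 25821455)))))
(S (nat_lit 32924) (S (nat_lit 32417) (S (nat_lit 1775) (S (nat_lit 15377) (L (nat_lit 26322322))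
(L (nat_lit 7498132)))
(L (nat_lit 20879745)))
(L (nat_lit 7496085)))
(S (nat_lit 52688) (S (nat_lit 56073) (S (nat_lit 45656) (L (nat_lit 23209372))
(L (nat_lit 24448408)))
(L (nat_lit 19227011)))
(L (nat_lit 25475812)))))
(S (nat_lit 47792) (S (nat_lit 10935) (S (nat_lit 6591) (S (nat_lit 67) (S (nat_lit 56074) (S (nat_lit 21482) (L (nat_lit 1908275))
(L (nat_lit 385744)))
(L (nat_lit 713099)))
(S (nat_lit 19831) (S (nat_lit 40760) (S (nat_lit 19815) (S (nat_lit 7778) (L (nat_lit 5486299))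
(L (nat_lit 9134464)))
(L (nat_lit 14757596)))
(L (nat_lit 7945240)))
(S (nat_lit 39595) (S (nat_lit 43975) (S (nat_lit 28686) (L (nat_lit 21295489))
(L (nat_lit 23224710)))
(L (nat_lit 23455760)))
(L (nat_lit 25743618)))))
(S (nat_lit 26355) (S (nat_lit 23576) (L (nat_lit 8434454))
(S (nat_lit 36310) (S (nat_lit 26481) (L (nat_lit 3880152))
(S (nat_lit 52181) (S (nat_lit 25907) (L (nat_lit 29464982))
(L (nat_lit 31143233)))
(L (nat_lit 20300545))))
(L (nat_lit 20843046))))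
(S (nat_lit 46119) (S (nat_lit 15362) (S (nat_lit 31988) (S (nat_lit 21053) (L (nat_lit 20448039))
(L (nat_lit 7113111)))
(L (nat_lit 7113422)))
(S (nat_lit 35126) (S (nat_lit 5657) (S (nat_lit 17868) (L (nat_lit 20104568))
(S (nat_lit 35111) (S (nat_lit 43975) (S (nat_lit 27608) (L (nat_lit 29673026))
(L (nat_lit 1635911)))
(L (nat_lit 23473209)))
(L (nat_lit 9113113))))
(S (nat_lit 30057) (L (nat_lit 20847791))
(L (nat_lit 26530208))))
(S (nat_lit 54890) (S (nat_lit 52) (S (nat_lit 17519) (L (nat_lit 1814841))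
(L (nat_lit 7903092)))
(S (nat_lit 28640) (L (nat_lit 20235418))
(L (nat_lit 26514127))))
(L (nat_lit 25476276)))))
(L (nat_lit 25440374)))))
(S (nat_lit 30699) (S (nat_lit 2210) (S (nat_lit 16560) (S (nat_lit 25841) (L (nat_lit 30095649))
(L (nat_lit 21555489)))
(S (nat_lit 36324) (S (nat_lit 8810) (S (nat_lit 35147) (L (nat_lit 1777485))
(L (nat_lit 20440261)))
(S (nat_lit 39439) (L (nat_lit 6838331))
(L (nat_lit 383919))))
(S (nat_lit 56088) (S (nat_lit 36310) (S (nat_lit 56089) (L (nat_lit 29446534))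
(L (nat_lit 7991745)))
(L (nat_lit 30877377)))
(L (nat_lit 25211159)))))
(S (nat_lit 21974) (S (nat_lit 2603) (L (nat_lit 5839629))
(S (nat_lit 15311) (S (nat_lit 36310) (L (nat_lit 6378909))
(L (nat_lit 20788417)))
(L (nat_lit 24576778))))
(S (nat_lit 41738) (S (nat_lit 51695) (S (nat_lit 52181) (S (nat_lit 21053) (L (nat_lit 29433235))
(L (nat_lit 7113111)))
(L (nat_lit 20283800)))
(L (nat_lit 20252056)))
(L (nat_lit 25417839)))))
(S (nat_lit 50463) (S (nat_lit 8315) (S (nat_lit 6077) (S (nat_lit 39594) (S (nat_lit 1775) (L (nat_lit 26400045))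
(L (nat_lit 26951752)))
(L (nat_lit 18189106)))
(S (nat_lit 25841) (S (nat_lit 21497) (S (nat_lit 46119) (S (nat_lit 24169) (L (nat_lit 6377388))
(L (nat_lit 16863144)))
(L (nat_lit 18587521)))
(L (nat_lit 16075681)))
(S (nat_lit 45605) (S (nat_lit 36325) (S (nat_lit 1232) (S (nat_lit 15362) (L (nat_lit 26838570))
(L (nat_lit 6869924)))
(L (nat_lit 19138481)))
(L (nat_lit 12809889)))
(L (nat_lit 25727351)))))
(S (nat_lit 28079) (S (nat_lit 6143) (S (nat_lit 39529) (S (nat_lit 1718) (S (nat_lit 25892) (L (nat_lit 16521920))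
(L (nat_lit 30939191)))
(L (nat_lit 19251105)))
(L (nat_lit 18422691)))
(S (nat_lit 25907) (S (nat_lit 13160) (S (nat_lit 51695) (S (nat_lit 4390) (L (nat_lit 5883816))
(L (nat_lit 6851291)))
(L (nat_lit 20874631)))
(S (nat_lit 46728) (L (nat_lit 12965796))
(L (nat_lit 632221))))
(S (nat_lit 45671) (S (nat_lit 56088) (S (nat_lit 36310) (L (nat_lit 13553830))
(L (nat_lit 23555425)))
(L (nat_lit 7917475)))
(L (nat_lit 25212247)))))
(S (nat_lit 47843) (S (nat_lit 5591) (S (nat_lit 6077) (S (nat_lit 36310) (S (nat_lit 36324) (L (nat_lit 4540343))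
(L (nat_lit 31048808)))
(L (nat_lit 18698433)))
(L (nat_lit 26594849)))
(S (nat_lit 25355) (S (nat_lit 52181) (S (nat_lit 51695) (S (nat_lit 52238) (L (nat_lit 29433396))
(L (nat_lit 8785624)))
(L (nat_lit 13539938)))
(L (nat_lit 20480216)))
(S (nat_lit 45119) (S (nat_lit 47306) (S (nat_lit 2210) (S (nat_lit 1232) (L (nat_lit 6482422))
(L (nat_lit 13184029)))
(L (nat_lit 7991845)))
(L (nat_lit 20883842)))
(L (nat_lit 25733302)))))
(L (nat_lit 25772289)))))
(L (nat_lit 25904135)))))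
(L (nat_lit 25319793)))))
(S (nat_lit 26398) (S (nat_lit 8264) (S (nat_lit 15332) (S (nat_lit 28535) (S (nat_lit 25406) (S (nat_lit 41738) (L (nat_lit 383384))
(L (nat_lit 27897221)))
(L (nat_lit 6445465)))
(L (nat_lit 30461323)))
(S (nat_lit 35096) (S (nat_lit 66) (S (nat_lit 7829) (S (nat_lit 51695) (S (nat_lit 45170) (S (nat_lit 57047) (L (nat_lit 21397817))
(L (nat_lit 13473042)))
(L (nat_lit 13278978)))
(L (nat_lit 20813836)))
(S (nat_lit 27593) (S (nat_lit 50530) (S (nat_lit 35111) (S (nat_lit 45170) (S (nat_lit 43918) (L (nat_lit 4411960))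
(L (nat_lit 12783321)))
(L (nat_lit 13508288)))
(L (nat_lit 2500345)))
(L (nat_lit 11134032)))
(S (nat_lit 47357) (S (nat_lit 19831) (S (nat_lit 30765) (L (nat_lit 9223250))
(L (nat_lit 19216129)))
(L (nat_lit 10342478)))
(L (nat_lit 25365169)))))
(S (nat_lit 19830) (S (nat_lit 6077) (S (nat_lit 35141) (S (nat_lit 37298) (L (nat_lit 3367315))
(L (nat_lit 10160974)))
(L (nat_lit 18667813)))
(S (nat_lit 25841) (S (nat_lit 12653) (S (nat_lit 28535) (L (nat_lit 30463367))
(L (nat_lit 19131781)))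
(S (nat_lit 43581) (L (nat_lit 12359060))
(L (nat_lit 26593667))))
(S (nat_lit 45605) (S (nat_lit 25892) (S (nat_lit 17558) (S (nat_lit 41246) (S (nat_lit 36309) (L (nat_lit 23462822))
(L (nat_lit 13442659)))
(L (nat_lit 9354359)))
(L (nat_lit 7489458)))
(L (nat_lit 17032897)))
(L (nat_lit 25799822)))))
(S (nat_lit 39594) (S (nat_lit 17071) (S (nat_lit 24168) (S (nat_lit 12653) (S (nat_lit 43974) (S (nat_lit 6077) (L (nat_lit 28400943))
(L (nat_lit 16028439)))
(L (nat_lit 13316000)))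
(L (nat_lit 9530773)))
(L (nat_lit 10126257)))
(S (nat_lit 36835) (S (nat_lit 45170) (S (nat_lit 12653) (L (nat_lit 18540738))
(L (nat_lit 9530773)))
(L (nat_lit 13278978)))
(S (nat_lit 56599) (S (nat_lit 28550) (S (nat_lit 1232) (L (nat_lit 8541100))
(L (nat_lit 9179857)))
(L (nat_lit 2892431)))
(L (nat_lit 25660039)))))
(L (nat_lit 25929153)))))
(S (nat_lit 54860) (S (nat_lit 4390) (S (nat_lit 51695) (S (nat_lit 26397) (L (nat_lit 4824474))
(L (nat_lit 19764615)))
(L (nat_lit 27526547)))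
(L (nat_lit 6942082)))
(L (nat_lit 25210575)))))
(S (nat_lit 28028) (S (nat_lit 13184) (S (nat_lit 17071) (S (nat_lit 6633) (S (nat_lit 25892) (S (nat_lit 15377) (S (nat_lit 8771) (L (nat_lit 6841029))
(L (nat_lit 1856906)))
(L (nat_lit 7499154)))
(L (nat_lit 8314241)))
(S (nat_lit 26397) (S (nat_lit 41738) (L (nat_lit 5941657))
(L (nat_lit 24318360)))
(S (nat_lit 46161) (S (nat_lit 8771) (S (nat_lit 5642) (L (nat_lit 223884))
(L (nat_lit 9105792)))
(L (nat_lit 841098)))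
(L (nat_lit 25733172)))))
(S (nat_lit 36835) (S (nat_lit 10935) (S (nat_lit 8810) (S (nat_lit 6633) (S (nat_lit 51695) (L (nat_lit 28892352))
(L (nat_lit 8309184)))
(L (nat_lit 7902937)))
(L (nat_lit 433075)))
(S (nat_lit 52381) (L (nat_lit 7977145))
(L (nat_lit 7356057))))
(S (nat_lit 56599) (S (nat_lit 15383) (S (nat_lit 9194) (L (nat_lit 1599179))
(S (nat_lit 32417) (S (nat_lit 32924) (S (nat_lit 1775) (S (nat_lit 54860) (L (nat_lit 4893081))
(L (nat_lit 16683722)))
(L (nat_lit 19833219)))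
(L (nat_lit 20187545)))
(L (nat_lit 11343251))))
(S (nat_lit 16922) (L (nat_lit 6919056))
(L (nat_lit 7945245))))
(L (nat_lit 25613504)))))
(S (nat_lit 32948) (S (nat_lit 13160) (S (nat_lit 15377) (L (nat_lit 19664266))
(L (nat_lit 7498130)))
(S (nat_lit 32924) (S (nat_lit 1775) (S (nat_lit 26471) (L (nat_lit 28449171))
(S (nat_lit 35147) (S (nat_lit 32417) (S (nat_lit 1718) (S (nat_lit 36811) (S (nat_lit 36835) (S (nat_lit 8771) (L (nat_lit 2829881))
(L (nat_lit 8179077)))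
(L (nat_lit 30921770)))
(L (nat_lit 30426858)))
(L (nat_lit 9525136)))
(L (nat_lit 19240411)))
(L (nat_lit 20757700))))
(L (nat_lit 26941827)))
(S (nat_lit 52688) (S (nat_lit 6128) (S (nat_lit 50514) (L (nat_lit 28512659))
(L (nat_lit 11326848)))
(S (nat_lit 25892) (S (nat_lit 35096) (L (nat_lit 30451091))
(L (nat_lit 20178308)))
(S (nat_lit 45656) (S (nat_lit 36310) (L (nat_lit 7197059))
(L (nat_lit 20276612)))
(L (nat_lit 25418860)))))
(L (nat_lit 25679915)))))
(S (nat_lit 52712) (S (nat_lit 2249) (S (nat_lit 36310) (S (nat_lit 52196) (S (nat_lit 17534) (L (nat_lit 29036938))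
(L (nat_lit 8206052)))
(L (nat_lit 12775144)))
(L (nat_lit 30940868)))
(S (nat_lit 22013) (S (nat_lit 7778) (L (nat_lit 3567302))
(S (nat_lit 27542) (S (nat_lit 1775) (S (nat_lit 30750) (S (nat_lit 32924) (L (nat_lit 28496079))
(L (nat_lit 9341681)))
(L (nat_lit 30496081)))
(L (nat_lit 19100035)))
(S (nat_lit 47306) (S (nat_lit 6633) (S (nat_lit 6591) (L (nat_lit 17981682))
(L (nat_lit 13343585)))
(S (nat_lit 37916) (L (nat_lit 18444454))
(L (nat_lit 356756))))
(L (nat_lit 25567874)))))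
(S (nat_lit 41777) (S (nat_lit 13145) (S (nat_lit 10935) (S (nat_lit 21482) (L (nat_lit 1424088))
(L (nat_lit 7420633)))
(L (nat_lit 7079631)))
(S (nat_lit 32909) (S (nat_lit 26397) (S (nat_lit 30699) (L (nat_lit 4594392))
(L (nat_lit 30901958)))
(L (nat_lit 30773964)))
(S (nat_lit 52673) (S (nat_lit 15492) (L (nat_lit 24178054))
(L (nat_lit 11014873)))
(L (nat_lit 25210480)))))
(L (nat_lit 25894031)))))
(L (nat_lit 25696837)))))
(S (nat_lit 47792) (S (nat_lit 12167) (S (nat_lit 16545) (S (nat_lit 47306) (L (nat_lit 23225734))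
(L (nat_lit 20278658)))
(L (nat_lit 8507800)))
(S (nat_lit 31931) (S (nat_lit 50514) (L (nat_lit 28398982))
(L (nat_lit 20753792)))
(S (nat_lit 51695) (S (nat_lit 17558) (S (nat_lit 48299) (S (nat_lit 52181) (S (nat_lit 36310) (L (nat_lit 24257947))
(L (nat_lit 6982040)))
(L (nat_lit 7200129)))
(L (nat_lit 20818309)))
(S (nat_lit 37322) (S (nat_lit 1775) (L (nat_lit 3366296))
(L (nat_lit 10410371)))
(S (nat_lit 57086) (S (nat_lit 26397) (L (nat_lit 8443290))
(L (nat_lit 2813318)))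
(L (nat_lit 25495182)))))
(L (nat_lit 25441365)))))
(L (nat_lit 25596614)))))
(S (nat_lit 46162) (S (nat_lit 13160) (S (nat_lit 67) (S (nat_lit 2225) (S (nat_lit 12668) (S (nat_lit 11001) (S (nat_lit 25355) (L (nat_lit 7061381))
(L (nat_lit 1616473)))
(S (nat_lit 29681) (L (nat_lit 872753))
(L (nat_lit 23456160))))
(S (nat_lit 32432) (S (nat_lit 56113) (L (nat_lit 9189394))
(L (nat_lit 19740897)))
(S (nat_lit 52196) (S (nat_lit 31931) (S (nat_lit 43975) (S (nat_lit 45119) (L (nat_lit 28906920))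
(L (nat_lit 8244768)))
(L (nat_lit 12281869)))
(L (nat_lit 7161870)))
(L (nat_lit 25397779)))))
(L (nat_lit 7923734)))
(S (nat_lit 19831) (S (nat_lit 1232) (S (nat_lit 52238) (S (nat_lit 52) (S (nat_lit 1) (L (nat_lit 22300451))
(L (nat_lit 596379)))
(S (nat_lit 19816) (S (nat_lit 36325) (S (nat_lit 48314) (S (nat_lit 41753) (L (nat_lit 7916570))
(L (nat_lit 14345445)))
(L (nat_lit 11323077)))
(L (nat_lit 18623670)))
(S (nat_lit 39580) (S (nat_lit 50515) (S (nat_lit 25421) (L (nat_lit 15995826))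
(L (nat_lit 11949986)))
(L (nat_lit 12883641)))
(L (nat_lit 25450639)))))
(L (nat_lit 3793448)))
(S (nat_lit 20996) (S (nat_lit 6577) (S (nat_lit 32474) (S (nat_lit 51710) (S (nat_lit 8786) (L (nat_lit 747976))
(L (nat_lit 17539845)))
(L (nat_lit 12783352)))
(S (nat_lit 56863) (L (nat_lit 30580277))
(L (nat_lit 24156729))))
(S (nat_lit 26341) (S (nat_lit 24210) (S (nat_lit 32474) (S (nat_lit 8315) (S (nat_lit 47306) (L (nat_lit 28870930))
(L (nat_lit 20264864)))
(L (nat_lit 13980733)))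
(L (nat_lit 6136526)))
(L (nat_lit 3488380)))
(S (nat_lit 46105) (S (nat_lit 35126) (S (nat_lit 5591) (L (nat_lit 9027461))
(L (nat_lit 17932925)))
(L (nat_lit 30686386)))
(L (nat_lit 25601635)))))
(S (nat_lit 40760) (S (nat_lit 12710) (S (nat_lit 35141) (S (nat_lit 36309) (S (nat_lit 35096) (L (nat_lit 212604))
(L (nat_lit 8416658)))
(L (nat_lit 4740010)))
(S (nat_lit 36273) (L (nat_lit 7966477))
(L (nat_lit 8991493))))
(L (nat_lit 2728716)))
(L (nat_lit 25560375)))))
(S (nat_lit 39595) (S (nat_lit 17046) (S (nat_lit 17047) (S (nat_lit 7844) (S (nat_lit 45185) (S (nat_lit 11002) (L (nat_lit 28890150))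
(L (nat_lit 18180834)))
(L (nat_lit 8075040)))
(L (nat_lit 10513136)))
(S (nat_lit 36811) (S (nat_lit 19332) (L (nat_lit 17835673))
(S (nat_lit 40760) (S (nat_lit 16560) (L (nat_lit 24684289))
(L (nat_lit 3786506)))
(L (nat_lit 278264))))
(S (nat_lit 56575) (S (nat_lit 27608) (S (nat_lit 21539) (S (nat_lit 4404) (L (nat_lit 19760682))
(L (nat_lit 18520153)))
(L (nat_lit 15439961)))
(L (nat_lit 1696112)))
(L (nat_lit 25349578)))))
(S (nat_lit 36810) (S (nat_lit 6576) (L (nat_lit 17867540))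
(L (nat_lit 736632)))
(S (nat_lit 56574) (S (nat_lit 19721) (S (nat_lit 6576) (S (nat_lit 32874) (L (nat_lit 7819107))
(L (nat_lit 6962977)))
(L (nat_lit 6315949)))
(S (nat_lit 21989) (S (nat_lit 25355) (S (nat_lit 21539) (L (nat_lit 4771192))
(L (nat_lit 836983)))
(L (nat_lit 22587515)))
(L (nat_lit 13377559))))
(L (nat_lit 25904418)))))
(L (nat_lit 25711874)))))
(S (nat_lit 32924) (S (nat_lit 16585) (S (nat_lit 13184) (S (nat_lit 6633) (S (nat_lit 25805) (L (nat_lit 2342839))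
(S (nat_lit 51695) (S (nat_lit 47306) (S (nat_lit 12668) (S (nat_lit 35126) (S (nat_lit 6143) (L (nat_lit 27895168))
(L (nat_lit 16689793)))
(L (nat_lit 4106893)))
(L (nat_lit 21423329)))
(L (nat_lit 27447633)))
(L (nat_lit 20252492))))
(S (nat_lit 26397) (S (nat_lit 19830) (S (nat_lit 36011) (L (nat_lit 10675700))
(S (nat_lit 39595) (S (nat_lit 21989) (S (nat_lit 24154) (S (nat_lit 36309) (L (nat_lit 16442596))
(L (nat_lit 11658958)))
(L (nat_lit 30987619)))
(L (nat_lit 9061435)))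
(L (nat_lit 16951188))))
(S (nat_lit 46080) (L (nat_lit 23218091))
(L (nat_lit 10016673))))
(S (nat_lit 46161) (S (nat_lit 6591) (S (nat_lit 47306) (S (nat_lit 36325) (S (nat_lit 51695) (S (nat_lit 28028) (L (nat_lit 29377095))
(L (nat_lit 7998353)))
(L (nat_lit 20879372)))
(L (nat_lit 13206872)))
(L (nat_lit 20199328)))
(S (nat_lit 26355) (S (nat_lit 47306) (S (nat_lit 15326) (S (nat_lit 1775) (L (nat_lit 17065700))
(L (nat_lit 20881553)))
(L (nat_lit 24650661)))
(L (nat_lit 8228561)))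
(S (nat_lit 46119) (S (nat_lit 51695) (S (nat_lit 47306) (S (nat_lit 41753) (L (nat_lit 23462141))
(L (nat_lit 12112804)))
(L (nat_lit 27604672)))
(L (nat_lit 27604576)))
(L (nat_lit 25448556)))))
(L (nat_lit 25694422)))))
(S (nat_lit 32948) (S (nat_lit 16545) (S (nat_lit 25892) (S (nat_lit 66) (S (nat_lit 16006) (L (nat_lit 728972))
(S (nat_lit 47306) (S (nat_lit 10935) (S (nat_lit 54860) (S (nat_lit 1733) (S (nat_lit 46104) (S (nat_lit 32909) (S (nat_lit 15311) (S (nat_lit 5657) (S (nat_lit 46023) (S (nat_lit 7931) (S (nat_lit 49391) (S (nat_lit 37181) (S (nat_lit 19412) (S (nat_lit 54220) (D (nat_lit 10) (nat_lit 10271456) (nat_lit 10946323) (nat_lit 1152921575509491712))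
(L (nat_lit 11726542)))
(L (nat_lit 12939314)))
(L (nat_lit 30129162)))
(L (nat_lit 28806823)))
(L (nat_lit 6868738)))
(L (nat_lit 29575712)))
(L (nat_lit 6167182)))
(L (nat_lit 24950794)))
(L (nat_lit 15772281)))
(L (nat_lit 22253115)))
(L (nat_lit 4449783)))
(L (nat_lit 11452100)))
(L (nat_lit 7098417)))
(L (nat_lit 276339))))
(S (nat_lit 39433) (L (nat_lit 20886568))
(L (nat_lit 12947097))))
(S (nat_lit 45574) (L (nat_lit 631194))
(L (nat_lit 5496217))))
(S (nat_lit 36309) (S (nat_lit 1247) (S (nat_lit 35147) (L (nat_lit 9307570))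
(L (nat_lit 23901412)))
(S (nat_lit 21011) (S (nat_lit 35126) (S (nat_lit 30765) (S (nat_lit 37298) (S (nat_lit 51695) (L (nat_lit 5828171))
(L (nat_lit 20202304)))
(L (nat_lit 20886757)))
(L (nat_lit 9025280)))
(L (nat_lit 20714986)))
(S (nat_lit 40775) (S (nat_lit 1775) (S (nat_lit 6128) (S (nat_lit 35141) (S (nat_lit 8315) (L (nat_lit 29606006))
(L (nat_lit 21437347)))
(L (nat_lit 12946354)))
(L (nat_lit 16423843)))
(L (nat_lit 20846737)))
(L (nat_lit 25668258)))))
(S (nat_lit 56073) (S (nat_lit 1775) (S (nat_lit 47306) (S (nat_lit 51695) (L (nat_lit 30050542))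
(L (nat_lit 8309122)))
(L (nat_lit 22312049)))
(S (nat_lit 21539) (S (nat_lit 25406) (S (nat_lit 40775) (L (nat_lit 14804682))
(L (nat_lit 23435153)))
(L (nat_lit 14294105)))
(S (nat_lit 41303) (S (nat_lit 45656) (S (nat_lit 30765) (S (nat_lit 35075) (L (nat_lit 1680207))
(L (nat_lit 9169349)))
(L (nat_lit 9025441)))
(L (nat_lit 23619843)))
(L (nat_lit 25698883)))))
(L (nat_lit 25697429)))))
(S (nat_lit 52712) (S (nat_lit 4405) (S (nat_lit 51695) (S (nat_lit 1775) (S (nat_lit 47306) (S (nat_lit 40775) (S (nat_lit 12182) (L (nat_lit 12734840))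
(L (nat_lit 21422274)))
(L (nat_lit 7804570)))
(L (nat_lit 7999409)))
(L (nat_lit 10391153)))
(L (nat_lit 20440135)))
(S (nat_lit 24169) (S (nat_lit 39594) (S (nat_lit 36310) (S (nat_lit 12668) (S (nat_lit 1775) (S (nat_lit 24168) (S (nat_lit 40775) (S (nat_lit 47792) (L (nat_lit 15306973))
(L (nat_lit 6713027)))
(L (nat_lit 18041728)))
(L (nat_lit 31065393)))
(L (nat_lit 13895293)))
(L (nat_lit 18080947)))
(L (nat_lit 18587393)))
(S (nat_lit 57713) (L (nat_lit 9490190))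
(L (nat_lit 12062610))))
(S (nat_lit 43933) (S (nat_lit 40775) (S (nat_lit 28574) (S (nat_lit 47306) (S (nat_lit 12668) (S (nat_lit 11001) (L (nat_lit 29894277))
(L (nat_lit 24022289)))
(L (nat_lit 4741958)))
(L (nat_lit 20821314)))
(S (nat_lit 57622) (L (nat_lit 23422340))
(L (nat_lit 18186873))))
(L (nat_lit 23994513)))
(L (nat_lit 25270928)))))
(L (nat_lit 25723218)))))
(S (nat_lit 36349) (S (nat_lit 51) (S (nat_lit 17047) (S (nat_lit 6128) (S (nat_lit 47843) (S (nat_lit 10935) (S (nat_lit 52196) (S (nat_lit 1247) (L (nat_lit 26388044))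
(L (nat_lit 13281341)))
(L (nat_lit 13182136)))
(L (nat_lit 1263320)))
(L (nat_lit 18606337)))
(S (nat_lit 25892) (S (nat_lit 47306) (S (nat_lit 47843) (S (nat_lit 16545) (L (nat_lit 28559873))
(L (nat_lit 17467769)))
(L (nat_lit 18664486)))
(L (nat_lit 20344064)))
(S (nat_lit 45656) (S (nat_lit 1247) (S (nat_lit 47843) (S (nat_lit 35111) (L (nat_lit 18519814))
(L (nat_lit 12848978)))
(L (nat_lit 18440230)))
(L (nat_lit 19374912)))
(L (nat_lit 25398743)))))
(S (nat_lit 36811) (S (nat_lit 24718) (L (nat_lit 23366573))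
(S (nat_lit 36325) (S (nat_lit 35090) (S (nat_lit 46120) (S (nat_lit 66) (S (nat_lit 4404) (S (nat_lit 32909) (S (nat_lit 46105) (S (nat_lit 4446) (S (nat_lit 32948) (S (nat_lit 36835) (S (nat_lit 11001) (S (nat_lit 28535) (S (nat_lit 28550) (S (nat_lit 51752) (S (nat_lit 228) (L (nat_lit 17867354))
(L (nat_lit 30128417)))
(S (nat_lit 53522) (S (nat_lit 47306) (L (nat_lit 16886546))
(L (nat_lit 20885826)))
(L (nat_lit 13372041))))
(L (nat_lit 9833299)))
(L (nat_lit 10368083)))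
(S (nat_lit 30765) (S (nat_lit 8810) (S (nat_lit 44066) (L (nat_lit 242394))
(S (nat_lit 47357) (S (nat_lit 32417) (L (nat_lit 19371851))
(L (nat_lit 8281473)))
(L (nat_lit 16993368))))
(L (nat_lit 6448813)))
(S (nat_lit 50529) (S (nat_lit 47357) (S (nat_lit 51710) (S (nat_lit 47843) (S (nat_lit 48314) (S (nat_lit 48338) (S (nat_lit 6303) (S (nat_lit 4030) (S (nat_lit 46038) (S (nat_lit 50435) (S (nat_lit 39042) (S (nat_lit 52119) (S (nat_lit 18860) (S (nat_lit 16584) (S (nat_lit 41753) (S (nat_lit 30619) (D (nat_lit 16) (nat_lit 21899813) (nat_lit 25870528) (nat_lit 2344158792568046594))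
(L (nat_lit 16666818)))
(L (nat_lit 27930821)))
(L (nat_lit 17718565)))
(L (nat_lit 17011538)))
(L (nat_lit 29903204)))
(L (nat_lit 14996572)))
(L (nat_lit 4083020)))
(L (nat_lit 29826164)))
(L (nat_lit 28025964)))
(L (nat_lit 30097634)))
(L (nat_lit 27646372)))
(L (nat_lit 27861508)))
(L (nat_lit 16966310)))
(L (nat_lit 14822291)))
(L (nat_lit 16933543)))
(L (nat_lit 25797713)))))
(L (nat_lit 10613324)))
(L (nat_lit 9285810)))
(L (nat_lit 7256114)))
(L (nat_lit 18555714)))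
(L (nat_lit 9488146)))
(L (nat_lit 282447)))
(L (nat_lit 13543073)))
(L (nat_lit 10946450)))
(L (nat_lit 30624909)))
(L (nat_lit 12158488))))
(S (nat_lit 56575) (S (nat_lit 17534) (S (nat_lit 31946) (S (nat_lit 54875) (S (nat_lit 11002) (L (nat_lit 19694987))
(L (nat_lit 1517426)))
(L (nat_lit 27842756)))
(L (nat_lit 1654695)))
(S (nat_lit 37298) (S (nat_lit 35126) (S (nat_lit 52196) (S (nat_lit 35111) (S (nat_lit 27593) (L (nat_lit 29547759))
(L (nat_lit 7261201)))
(L (nat_lit 12908261)))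
(L (nat_lit 8404728)))
(L (nat_lit 23865765)))
(S (nat_lit 57062) (S (nat_lit 47306) (S (nat_lit 36835) (L (nat_lit 1550163))
(L (nat_lit 11145656)))
(L (nat_lit 20818336)))
(L (nat_lit 25903333)))))
(L (nat_lit 25887084)))))
(S (nat_lit 19815) (S (nat_lit 6591) (S (nat_lit 4985) (S (nat_lit 21011) (L (nat_lit 7485362))
(L (nat_lit 12236704)))
(S (nat_lit 47306) (S (nat_lit 1247) (S (nat_lit 54911) (S (nat_lit 26356) (S (nat_lit 51695) (L (nat_lit 29545772))
(L (nat_lit 20814208)))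
(L (nat_lit 8477455)))
(L (nat_lit 5908954)))
(L (nat_lit 9254528)))
(L (nat_lit 27539136))))
(S (nat_lit 26355) (S (nat_lit 24169) (S (nat_lit 19816) (S (nat_lit 6576) (S (nat_lit 24168) (S (nat_lit 17070) (S (nat_lit 21989) (S (nat_lit 41777) (L (nat_lit 23243194))
(L (nat_lit 14437733)))
(L (nat_lit 30691845)))
(L (nat_lit 11984802)))
(L (nat_lit 9553596)))
(L (nat_lit 23869761)))
(L (nat_lit 9529070)))
(S (nat_lit 43849) (L (nat_lit 9068557))
(L (nat_lit 9523117))))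
(S (nat_lit 46119) (S (nat_lit 2210) (S (nat_lit 46161) (S (nat_lit 16561) (L (nat_lit 30672460))
(L (nat_lit 14903475)))
(L (nat_lit 18631719)))
(S (nat_lit 21974) (S (nat_lit 13145) (S (nat_lit 56575) (S (nat_lit 26340) (S (nat_lit 21482) (S (nat_lit 21053) (S (nat_lit 12182) (S (nat_lit 43974) (S (nat_lit 28028) (L (nat_lit 30583407))
(L (nat_lit 734521)))
(L (nat_lit 23931361)))
(L (nat_lit 23505052)))
(L (nat_lit 11551353)))
(L (nat_lit 925425)))
(L (nat_lit 10373261)))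
(L (nat_lit 3731827)))
(L (nat_lit 13276476)))
(S (nat_lit 41738) (S (nat_lit 54890) (L (nat_lit 11122712))
(L (nat_lit 12367493)))
(L (nat_lit 25761071)))))
(L (nat_lit 25474134)))))
(S (nat_lit 39579) (S (nat_lit 2210) (S (nat_lit 4390) (S (nat_lit 1) (S (nat_lit 12653) (S (nat_lit 52673) (S (nat_lit 46161) (S (nat_lit 12224) (L (nat_lit 28709606))
(L (nat_lit 11111180)))
(L (nat_lit 11134989)))
(L (nat_lit 4909546)))
(L (nat_lit 23865452)))
(L (nat_lit 6939010)))
(S (nat_lit 43810) (L (nat_lit 20098456))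
(L (nat_lit 7080653))))
(S (nat_lit 21974) (S (nat_lit 8315) (S (nat_lit 35126) (S (nat_lit 28550) (L (nat_lit 1682317))
(L (nat_lit 30811155)))
(L (nat_lit 13380228)))
(S (nat_lit 28079) (S (nat_lit 43932) (S (nat_lit 54854) (L (nat_lit 3397423))
(L (nat_lit 18900333)))
(L (nat_lit 23346269)))
(S (nat_lit 47843) (S (nat_lit 37283) (S (nat_lit 28535) (S (nat_lit 50464) (S (nat_lit 12224) (L (nat_lit 2510761))
(L (nat_lit 26681024)))
(L (nat_lit 11595469)))
(L (nat_lit 9059419)))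
(S (nat_lit 56969) (S (nat_lit 39529) (L (nat_lit 3667528))
(L (nat_lit 23299481)))
(L (nat_lit 20426501))))
(L (nat_lit 25679043)))))
(S (nat_lit 41738) (S (nat_lit 28177) (L (nat_lit 4738360))
(S (nat_lit 52673) (S (nat_lit 6576) (S (nat_lit 43975) (S (nat_lit 40817) (S (nat_lit 51695) (S (nat_lit 6592) (S (nat_lit 12653) (S (nat_lit 41246) (S (nat_lit 45656) (L (nat_lit 1629402))
(L (nat_lit 27712552)))
(L (nat_lit 23455265)))
(L (nat_lit 23162246)))
(L (nat_lit 13474898)))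
(L (nat_lit 13540000)))
(L (nat_lit 23366513)))
(L (nat_lit 4975145)))
(L (nat_lit 6318701)))
(L (nat_lit 18519320))))
(L (nat_lit 25793066)))))
(L (nat_lit 25433837)))))
(S (nat_lit 56113) (S (nat_lit 7829) (S (nat_lit 17534) (S (nat_lit 28079) (S (nat_lit 47858) (S (nat_lit 50463) (S (nat_lit 43974) (S (nat_lit 21011) (S (nat_lit 1232) (L (nat_lit 6723165))
(L (nat_lit 20049137)))
(L (nat_lit 30559441)))
(L (nat_lit 27744480)))
(L (nat_lit 20442304)))
(L (nat_lit 27900131)))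
(L (nat_lit 16534721)))
(S (nat_lit 37298) (S (nat_lit 47858) (S (nat_lit 43974) (S (nat_lit 35111) (S (nat_lit 32432) (L (nat_lit 17025051))
(L (nat_lit 30431468)))
(L (nat_lit 23151865)))
(L (nat_lit 23869665)))
(L (nat_lit 20716560)))
(S (nat_lit 57062) (S (nat_lit 17141) (L (nat_lit 14284000))
(S (nat_lit 54911) (S (nat_lit 43974) (S (nat_lit 32432) (S (nat_lit 50464) (S (nat_lit 51695) (S (nat_lit 15347) (L (nat_lit 28588182))
(L (nat_lit 26627083)))
(L (nat_lit 27990028)))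
(L (nat_lit 27999459)))
(L (nat_lit 14440673)))
(L (nat_lit 28022001)))
(L (nat_lit 11353108))))
(L (nat_lit 25890347)))))
(S (nat_lit 27593) (S (nat_lit 15383) (S (nat_lit 21497) (S (nat_lit 51695) (S (nat_lit 32432) (S (nat_lit 10935) (S (nat_lit 24210) (S (nat_lit 56599) (S (nat_lit 28550) (S (nat_lit 28079) (S (nat_lit 21011) (S (nat_lit 12710) (S (nat_lit 41246) (S (nat_lit 7977) (S (nat_lit 8943) (S (nat_lit 47170) (S (nat_lit 16668) (S (nat_lit 46055) (S (nat_lit 1801) (S (nat_lit 35218) (S (nat_lit 17248) (S (nat_lit 57018) (S (nat_lit 45119) (D (nat_lit 16) (nat_lit 8131185) (nat_lit 13390049) (nat_lit 2344158792568046594))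
(L (nat_lit 27863214)))
(L (nat_lit 26814543)))
(L (nat_lit 19306523)))
(L (nat_lit 26816738)))
(L (nat_lit 27639893)))
(L (nat_lit 29660816)))
(L (nat_lit 28611248)))
(L (nat_lit 11406738)))
(L (nat_lit 29433520)))
(L (nat_lit 10326604)))
(L (nat_lit 6739779)))
(L (nat_lit 18782915)))
(L (nat_lit 15929019)))
(L (nat_lit 30660097)))
(L (nat_lit 18952443)))
(L (nat_lit 16604421)))
(L (nat_lit 31174881)))
(L (nat_lit 15982612)))
(L (nat_lit 31173646)))
(L (nat_lit 22986761)))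
(L (nat_lit 15344665)))
(S (nat_lit 35147) (S (nat_lit 28550) (S (nat_lit 21497) (S (nat_lit 32432) (S (nat_lit 10935) (L (nat_lit 9354259))
(L (nat_lit 23650528)))
(L (nat_lit 30758924)))
(L (nat_lit 30748694)))
(S (nat_lit 48232) (L (nat_lit 26839279))
(L (nat_lit 18111513))))
(S (nat_lit 54911) (S (nat_lit 24597) (L (nat_lit 20033756))
(S (nat_lit 43974) (S (nat_lit 10935) (S (nat_lit 28550) (S (nat_lit 54839) (L (nat_lit 21556234))
(L (nat_lit 21927949)))
(L (nat_lit 31010827)))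
(L (nat_lit 26952928)))
(L (nat_lit 5662962))))
(L (nat_lit 25668260)))))
(S (nat_lit 47357) (S (nat_lit 6592) (S (nat_lit 52) (S (nat_lit 28079) (S (nat_lit 2249) (S (nat_lit 5657) (L (nat_lit 30481068))
(L (nat_lit 19950087)))
(L (nat_lit 7488252)))
(L (nat_lit 24920257)))
(S (nat_lit 19816) (S (nat_lit 2249) (L (nat_lit 7488155))
(L (nat_lit 7856836)))
(S (nat_lit 39580) (S (nat_lit 1733) (S (nat_lit 12224) (S (nat_lit 41246) (L (nat_lit 24022471))
(L (nat_lit 8469271)))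
(L (nat_lit 8469269)))
(S (nat_lit 16411) (L (nat_lit 376537))
(L (nat_lit 20784145))))
(L (nat_lit 25838761)))))
(S (nat_lit 26356) (S (nat_lit 17558) (S (nat_lit 56112) (S (nat_lit 47306) (S (nat_lit 4446) (L (nat_lit 29509223))
(L (nat_lit 19249920)))
(L (nat_lit 8001457)))
(L (nat_lit 7853149)))
(S (nat_lit 37322) (S (nat_lit 17046) (S (nat_lit 6128) (S (nat_lit 40817) (L (nat_lit 28837575))
(L (nat_lit 9460152)))
(L (nat_lit 20820070)))
(L (nat_lit 17505369)))
(S (nat_lit 57086) (S (nat_lit 7844) (S (nat_lit 30751) (S (nat_lit 8786) (L (nat_lit 28589669))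
(L (nat_lit 15296740)))
(L (nat_lit 2714960)))
(L (nat_lit 3727177)))
(L (nat_lit 25318734)))))
(S (nat_lit 46120) (S (nat_lit 28667) (L (nat_lit 8065433))
(S (nat_lit 35147) (S (nat_lit 47306) (S (nat_lit 28079) (S (nat_lit 4446) (S (nat_lit 51695) (S (nat_lit 28028) (S (nat_lit 56074) (S (nat_lit 1775) (L (nat_lit 24174982))
(L (nat_lit 9984769)))
(L (nat_lit 7865049)))
(L (nat_lit 24490883)))
(L (nat_lit 10401378)))
(L (nat_lit 16487672)))
(L (nat_lit 7947385)))
(L (nat_lit 2827121)))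
(L (nat_lit 20757733))))
(L (nat_lit 25932904)))))
(L (nat_lit 25763330)))))
(L (nat_lit 25665622)))))
(S (nat_lit 52688) (S (nat_lit 66) (S (nat_lit 12224) (S (nat_lit 17031) (S (nat_lit 41246) (S (nat_lit 47306) (S (nat_lit 4404) (S (nat_lit 52673) (S (nat_lit 39579) (L (nat_lit 25068934))
(L (nat_lit 16902854)))
(L (nat_lit 17033925)))
(L (nat_lit 20473121)))
(L (nat_lit 20818304)))
(L (nat_lit 18206776)))
(S (nat_lit 36795) (S (nat_lit 47306) (S (nat_lit 52673) (S (nat_lit 39579) (S (nat_lit 35147) (L (nat_lit 6146438))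
(L (nat_lit 8840242)))
(L (nat_lit 11309772)))
(L (nat_lit 10939077)))
(L (nat_lit 20198584)))
(S (nat_lit 56559) (S (nat_lit 47306) (S (nat_lit 52673) (S (nat_lit 39579) (L (nat_lit 6135219))
(L (nat_lit 11309772)))
(L (nat_lit 12490448)))
(L (nat_lit 8245634)))
(L (nat_lit 25539767)))))
(S (nat_lit 31988) (S (nat_lit 1718) (S (nat_lit 17534) (L (nat_lit 18455579))
(L (nat_lit 6384178)))
(S (nat_lit 21482) (S (nat_lit 2274) (L (nat_lit 532371))
(S (nat_lit 41261) (S (nat_lit 28094) (L (nat_lit 29904193))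
(L (nat_lit 834118)))
(L (nat_lit 18664769))))
(S (nat_lit 41246) (L (nat_lit 5872059))
(L (nat_lit 25793808)))))
(S (nat_lit 51752) (S (nat_lit 1718) (S (nat_lit 47876) (L (nat_lit 13201447))
(S (nat_lit 51710) (S (nat_lit 35147) (S (nat_lit 36835) (S (nat_lit 1733) (S (nat_lit 4404) (S (nat_lit 46120) (S (nat_lit 4446) (S (nat_lit 51695) (S (nat_lit 39116) (L (nat_lit 4673287))
(L (nat_lit 14945977)))
(L (nat_lit 13537961)))
(L (nat_lit 1423992)))
(L (nat_lit 18116322)))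
(L (nat_lit 6376303)))
(L (nat_lit 14502115)))
(L (nat_lit 18417880)))
(L (nat_lit 13412370)))
(L (nat_lit 12947192))))
(L (nat_lit 12183664)))
(L (nat_lit 25463349)))))
(S (nat_lit 19830) (S (nat_lit 15362) (S (nat_lit 12668) (S (nat_lit 28574) (S (nat_lit 28028) (S (nat_lit 25907) (L (nat_lit 29445511))
(L (nat_lit 13848761)))
(L (nat_lit 10578323)))
(L (nat_lit 18174137)))
(S (nat_lit 32432) (S (nat_lit 39529) (S (nat_lit 40760) (L (nat_lit 29380943))
(L (nat_lit 18797575)))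
(L (nat_lit 27892099)))
(S (nat_lit 52196) (S (nat_lit 47306) (S (nat_lit 54875) (S (nat_lit 20996) (L (nat_lit 29366893))
(L (nat_lit 22443015)))
(L (nat_lit 14551786)))
(L (nat_lit 17060024)))
(L (nat_lit 25701955)))))
(S (nat_lit 35126) (S (nat_lit 35111) (S (nat_lit 6128) (S (nat_lit 21482) (S (nat_lit 8771) (L (nat_lit 1743256))
(L (nat_lit 26465389)))
(L (nat_lit 16376001)))
(S (nat_lit 25892) (S (nat_lit 30700) (S (nat_lit 10935) (S (nat_lit 28079) (L (nat_lit 23489574))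
(L (nat_lit 31170608)))
(L (nat_lit 7854105)))
(S (nat_lit 50302) (L (nat_lit 2678012))
(L (nat_lit 31144969))))
(S (nat_lit 45656) (S (nat_lit 47306) (S (nat_lit 31946) (S (nat_lit 45119) (L (nat_lit 13424681))
(L (nat_lit 15310968)))
(L (nat_lit 1429945)))
(L (nat_lit 8066456)))
(L (nat_lit 25827713)))))
(S (nat_lit 48730) (S (nat_lit 15383) (L (nat_lit 4505243))
(L (nat_lit 1552178)))
(L (nat_lit 9833209))))
(S (nat_lit 54890) (S (nat_lit 4447) (S (nat_lit 29128) (L (nat_lit 6409624))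
(S (nat_lit 36310) (S (nat_lit 57086) (L (nat_lit 5872027))
(L (nat_lit 14819090)))
(L (nat_lit 20185656))))
(S (nat_lit 24211) (S (nat_lit 15383) (S (nat_lit 10935) (S (nat_lit 47306) (L (nat_lit 2903248))
(L (nat_lit 8302707)))
(L (nat_lit 8076344)))
(S (nat_lit 24000) (L (nat_lit 703704))
(L (nat_lit 26590226))))
(S (nat_lit 43975) (S (nat_lit 47306) (S (nat_lit 43974) (S (nat_lit 45119) (L (nat_lit 4443579))
(L (nat_lit 27377257)))
(L (nat_lit 27994656)))
(L (nat_lit 20190648)))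
(L (nat_lit 25899017)))))
(L (nat_lit 25577643)))))
(S (nat_lit 39594) (S (nat_lit 1718) (S (nat_lit 51752) (S (nat_lit 67) (S (nat_lit 2225) (S (nat_lit 47306) (S (nat_lit 25355) (S (nat_lit 5657) (L (nat_lit 18419036))
(L (nat_lit 19195950)))
(L (nat_lit 6917625)))
(L (nat_lit 22417319)))
(L (nat_lit 7924293)))
(S (nat_lit 19831) (S (nat_lit 41753) (S (nat_lit 17070) (S (nat_lit 25421) (L (nat_lit 3024625))
(L (nat_lit 12423820)))
(L (nat_lit 11654648)))
(L (nat_lit 14459927)))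
(S (nat_lit 39595) (S (nat_lit 51) (S (nat_lit 36310) (L (nat_lit 5872027))
(L (nat_lit 12290616)))
(S (nat_lit 52097) (L (nat_lit 324300))
(L (nat_lit 26533036))))
(L (nat_lit 25698388)))))
(L (nat_lit 13442754)))
(S (nat_lit 21482) (S (nat_lit 4404) (S (nat_lit 6182) (L (nat_lit 485062))
(L (nat_lit 17406881)))
(S (nat_lit 24168) (S (nat_lit 31623) (L (nat_lit 19795334))
(S (nat_lit 54911) (S (nat_lit 43974) (S (nat_lit 41261) (S (nat_lit 17071) (L (nat_lit 2833659))
(L (nat_lit 17704051)))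
(L (nat_lit 18074648)))
(L (nat_lit 27678758)))
(L (nat_lit 10670959))))
(S (nat_lit 43932) (S (nat_lit 3288) (L (nat_lit 5584568))
(S (nat_lit 54911) (L (nat_lit 27315404))
(L (nat_lit 5617522))))
(L (nat_lit 25446017)))))
(S (nat_lit 41246) (S (nat_lit 6077) (S (nat_lit 41407) (L (nat_lit 9035792))
(S (nat_lit 50529) (L (nat_lit 12157805))
(L (nat_lit 11134465))))
(S (nat_lit 25841) (S (nat_lit 36310) (S (nat_lit 51) (L (nat_lit 19832193))
(L (nat_lit 18969126)))
(L (nat_lit 12701912)))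
(S (nat_lit 45605) (S (nat_lit 18384) (L (nat_lit 9518003))
(S (nat_lit 40760) (S (nat_lit 10442) (L (nat_lit 5891464))
(L (nat_lit 29998088)))
(L (nat_lit 23247096))))
(L (nat_lit 25546275)))))
(L (nat_lit 25602166)))))
(L (nat_lit 25700001)))))
(L (nat_lit 25247466)))))
(L (nat_lit 25734199)))))
(S (nat_lit 56560) (S (nat_lit 15377) (S (nat_lit 5657) (S (nat_lit 10936) (S (nat_lit 52) (S (nat_lit 16585) (S (nat_lit 15311) (S (nat_lit 5591) (S (nat_lit 56559) (L (nat_lit 18946618))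
(L (nat_lit 19826059)))
(L (nat_lit 20505858)))
(L (nat_lit 1267501)))
(S (nat_lit 31073) (L (nat_lit 26232053))
(L (nat_lit 26512819))))
(S (nat_lit 19816) (S (nat_lit 15371) (S (nat_lit 6592) (S (nat_lit 45605) (L (nat_lit 26615493))
(L (nat_lit 6810775)))
(L (nat_lit 26804495)))
(S (nat_lit 35135) (S (nat_lit 50529) (S (nat_lit 56073) (S (nat_lit 52712) (L (nat_lit 8569622))
(L (nat_lit 27826322)))
(L (nat_lit 16016069)))
(L (nat_lit 20297600)))
(S (nat_lit 54899) (S (nat_lit 26355) (S (nat_lit 56073) (S (nat_lit 48338) (S (nat_lit 31931) (L (nat_lit 1653643))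
(L (nat_lit 19161472)))
(L (nat_lit 16537739)))
(L (nat_lit 16016069)))
(L (nat_lit 15992596)))
(L (nat_lit 25770308)))))
(S (nat_lit 39580) (S (nat_lit 17519) (S (nat_lit 27542) (S (nat_lit 41303) (S (nat_lit 31931) (L (nat_lit 29538023))
(L (nat_lit 7157344)))
(L (nat_lit 8947288)))
(L (nat_lit 16060121)))
(L (nat_lit 1850059)))
(L (nat_lit 25667764)))))
(S (nat_lit 30700) (S (nat_lit 16584) (S (nat_lit 10986) (S (nat_lit 26212) (L (nat_lit 9343381))
(S (nat_lit 45656) (S (nat_lit 27542) (S (nat_lit 26341) (L (nat_lit 3581657))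
(L (nat_lit 18889512)))
(L (nat_lit 19163520)))
(L (nat_lit 6740024))))
(S (nat_lit 30750) (S (nat_lit 45656) (S (nat_lit 17031) (S (nat_lit 17558) (L (nat_lit 5755097))
(L (nat_lit 6948253)))
(L (nat_lit 26510958)))
(L (nat_lit 8841921)))
(S (nat_lit 50514) (S (nat_lit 2225) (S (nat_lit 35111) (S (nat_lit 46162) (L (nat_lit 21087481))
(L (nat_lit 11031612)))
(L (nat_lit 4104943)))
(L (nat_lit 6384207)))
(L (nat_lit 25923974)))))
(S (nat_lit 36348) (S (nat_lit 10935) (S (nat_lit 4545) (L (nat_lit 15735667))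
(S (nat_lit 28079) (S (nat_lit 56113) (S (nat_lit 54839) (S (nat_lit 32432) (S (nat_lit 41738) (L (nat_lit 30595343))
(L (nat_lit 27506309)))
(L (nat_lit 24362753)))
(L (nat_lit 27284687)))
(L (nat_lit 27762774)))
(L (nat_lit 24363065))))
(S (nat_lit 30699) (S (nat_lit 17672) (L (nat_lit 18904428))
(S (nat_lit 57047) (S (nat_lit 54839) (S (nat_lit 56559) (L (nat_lit 29542637))
(L (nat_lit 9293838)))
(L (nat_lit 19825162)))
(L (nat_lit 19392619))))
(S (nat_lit 50463) (S (nat_lit 36834) (S (nat_lit 31931) (S (nat_lit 40760) (L (nat_lit 1888809))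
(L (nat_lit 24025634)))
(L (nat_lit 7014254)))
(L (nat_lit 20441282)))
(L (nat_lit 25821670)))))
(S (nat_lit 56112) (S (nat_lit 66) (S (nat_lit 56559) (S (nat_lit 35090) (S (nat_lit 4390) (L (nat_lit 27828338))
(L (nat_lit 6875843)))
(L (nat_lit 9309837)))
(L (nat_lit 19840324)))
(S (nat_lit 19830) (S (nat_lit 37298) (S (nat_lit 46161) (S (nat_lit 7829) (L (nat_lit 26629195))
(L (nat_lit 8901660)))
(L (nat_lit 20277261)))
(L (nat_lit 31138341)))
(S (nat_lit 39594) (S (nat_lit 1733) (S (nat_lit 52712) (S (nat_lit 26355) (S (nat_lit 54911) (L (nat_lit 21076376))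
(L (nat_lit 21489893)))
(L (nat_lit 19196385)))
(L (nat_lit 19433291)))
(S (nat_lit 25786) (L (nat_lit 19119229))
(L (nat_lit 19108688))))
(L (nat_lit 25744641)))))
(L (nat_lit 25770213)))))
(S (nat_lit 50464) (S (nat_lit 16584) (S (nat_lit 13145) (S (nat_lit 30765) (S (nat_lit 17046) (S (nat_lit 39595) (S (nat_lit 46162) (L (nat_lit 28335656))
(L (nat_lit 20275247)))
(L (nat_lit 27795540)))
(L (nat_lit 25009232)))
(L (nat_lit 19767409)))
(S (nat_lit 32909) (S (nat_lit 5642) (S (nat_lit 36349) (S (nat_lit 1289) (L (nat_lit 6184236))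
(L (nat_lit 26467714)))
(L (nat_lit 20179425)))
(L (nat_lit 20120492)))
(S (nat_lit 52673) (S (nat_lit 26341) (S (nat_lit 12224) (L (nat_lit 26231090))
(L (nat_lit 8403763)))
(S (nat_lit 49971) (L (nat_lit 14358555))
(L (nat_lit 18932046))))
(L (nat_lit 25596212)))))
(S (nat_lit 36348) (S (nat_lit 17046) (S (nat_lit 13145) (S (nat_lit 25355) (S (nat_lit 6577) (S (nat_lit 36349) (L (nat_lit 386769))
(L (nat_lit 20167524)))
(L (nat_lit 6319727)))
(L (nat_lit 7147084)))
(L (nat_lit 26448592)))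
(S (nat_lit 36810) (S (nat_lit 6576) (S (nat_lit 50529) (S (nat_lit 46105) (L (nat_lit 27284782))
(L (nat_lit 19938057)))
(L (nat_lit 20297600)))
(L (nat_lit 6711905)))
(S (nat_lit 56574) (S (nat_lit 6576) (S (nat_lit 7844) (L (nat_lit 14359426))
(L (nat_lit 11135456)))
(L (nat_lit 6319788)))
(L (nat_lit 25742475)))))
(S (nat_lit 56112) (S (nat_lit 6077) (S (nat_lit 7829) (S (nat_lit 19815) (S (nat_lit 37283) (L (nat_lit 29594003))
(L (nat_lit 13659851)))
(L (nat_lit 9072160)))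
(S (nat_lit 37833) (L (nat_lit 13409463))
(L (nat_lit 10998876))))
(S (nat_lit 25841) (S (nat_lit 37283) (S (nat_lit 31931) (S (nat_lit 36349) (S (nat_lit 10935) (L (nat_lit 17400743))
(L (nat_lit 8076313)))
(L (nat_lit 18442529)))
(L (nat_lit 19803212)))
(S (nat_lit 44612) (L (nat_lit 21556512))
(L (nat_lit 3403470))))
(S (nat_lit 45605) (S (nat_lit 27593) (S (nat_lit 8771) (S (nat_lit 4446) (L (nat_lit 5881209))
(L (nat_lit 7264801)))
(L (nat_lit 14931069)))
(L (nat_lit 1567987)))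
(L (nat_lit 25251118)))))
(L (nat_lit 25398709)))))
(L (nat_lit 25221328)))))
(S (nat_lit 25421) (S (nat_lit 66) (S (nat_lit 16546) (S (nat_lit 12653) (S (nat_lit 27542) (S (nat_lit 48299) (S (nat_lit 31931) (S (nat_lit 8264) (S (nat_lit 25355) (L (nat_lit 17502584))
(L (nat_lit 14248192)))
(L (nat_lit 2417043)))
(L (nat_lit 24459040)))
(L (nat_lit 5486483)))
(S (nat_lit 39158) (L (nat_lit 1337751))
(L (nat_lit 12282240))))
(S (nat_lit 32417) (S (nat_lit 27542) (S (nat_lit 16545) (L (nat_lit 9296260))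
(L (nat_lit 8568537)))
(L (nat_lit 1452947)))
(S (nat_lit 52181) (S (nat_lit 27542) (S (nat_lit 25841) (S (nat_lit 45656) (L (nat_lit 12833537))
(L (nat_lit 27957292)))
(L (nat_lit 7916697)))
(L (nat_lit 1712537)))
(L (nat_lit 25539701)))))
(S (nat_lit 36310) (S (nat_lit 7778) (S (nat_lit 17534) (S (nat_lit 21497) (L (nat_lit 29012999))
(L (nat_lit 15977217)))
(L (nat_lit 1779470)))
(S (nat_lit 27542) (S (nat_lit 6633) (S (nat_lit 31931) (S (nat_lit 47792) (L (nat_lit 6212998))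
(L (nat_lit 9361793)))
(L (nat_lit 30591367)))
(S (nat_lit 8253) (L (nat_lit 4413853))
(L (nat_lit 7259841))))
(S (nat_lit 47306) (S (nat_lit 4404) (S (nat_lit 6576) (L (nat_lit 16484729))
(L (nat_lit 1797671)))
(L (nat_lit 19161504)))
(L (nat_lit 25340307)))))
(S (nat_lit 56074) (S (nat_lit 4405) (S (nat_lit 10986) (S (nat_lit 56559) (S (nat_lit 21539) (S (nat_lit 6576) (L (nat_lit 13408930))
(L (nat_lit 8088749)))
(L (nat_lit 21529977)))
(L (nat_lit 7072130)))
(L (nat_lit 6739129)))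
(S (nat_lit 24169) (S (nat_lit 11001) (S (nat_lit 6591) (S (nat_lit 27542) (S (nat_lit 27608) (L (nat_lit 5795527))
(L (nat_lit 6834235)))
(L (nat_lit 1468755)))
(L (nat_lit 23147833)))
(S (nat_lit 37233) (L (nat_lit 486024))
(L (nat_lit 1403633))))
(S (nat_lit 43933) (S (nat_lit 6591) (S (nat_lit 8786) (S (nat_lit 10987) (S (nat_lit 25841) (S (nat_lit 31931) (L (nat_lit 15296582))
(L (nat_lit 7028761)))
(L (nat_lit 649516)))
(L (nat_lit 7786371)))
(L (nat_lit 602890)))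
(S (nat_lit 26276) (L (nat_lit 1809263))
(L (nat_lit 23375993))))
(L (nat_lit 25869603)))))
(L (nat_lit 25922091)))))
(S (nat_lit 19830) (S (nat_lit 2225) (S (nat_lit 15371) (S (nat_lit 37206) (L (nat_lit 1499848))
(S (nat_lit 45170) (S (nat_lit 21053) (S (nat_lit 56074) (S (nat_lit 6591) (L (nat_lit 7209681))
(L (nat_lit 7156448)))
(L (nat_lit 27797092)))
(L (nat_lit 7113110)))
(L (nat_lit 7790400))))
(S (nat_lit 35135) (S (nat_lit 12224) (S (nat_lit 17070) (S (nat_lit 37298) (L (nat_lit 1939860))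
(L (nat_lit 20711978)))
(L (nat_lit 11654585)))
(L (nat_lit 17913639)))
(S (nat_lit 54899) (S (nat_lit 67) (S (nat_lit 10986) (S (nat_lit 2210) (L (nat_lit 6446588))
(L (nat_lit 1848970)))
(L (nat_lit 1504871)))
(L (nat_lit 6837339)))
(L (nat_lit 25542834)))))
(S (nat_lit 21989) (S (nat_lit 16584) (S (nat_lit 21053) (S (nat_lit 2249) (L (nat_lit 513802))
(L (nat_lit 7069871)))
(L (nat_lit 22027673)))
(S (nat_lit 36348) (S (nat_lit 19651) (L (nat_lit 31066663))
(S (nat_lit 30765) (S (nat_lit 26397) (S (nat_lit 12182) (L (nat_lit 30557899))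
(L (nat_lit 8981948)))
(L (nat_lit 9229728)))
(L (nat_lit 19014074))))
(S (nat_lit 56112) (S (nat_lit 10986) (S (nat_lit 10987) (S (nat_lit 2249) (L (nat_lit 15803318))
(L (nat_lit 8118415)))
(L (nat_lit 15816027)))
(L (nat_lit 16012441)))
(L (nat_lit 25466359)))))
(S (nat_lit 41753) (S (nat_lit 1232) (S (nat_lit 17558) (S (nat_lit 52238) (S (nat_lit 54839) (S (nat_lit 10987) (L (nat_lit 20285228))
(L (nat_lit 1667405)))
(L (nat_lit 13885349)))
(L (nat_lit 1857064)))
(L (nat_lit 1654698)))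
(S (nat_lit 27464) (S (nat_lit 1) (L (nat_lit 14437573))
(L (nat_lit 1679119)))
(L (nat_lit 8803232))))
(L (nat_lit 25829892)))))
(S (nat_lit 39594) (S (nat_lit 4405) (S (nat_lit 8771) (S (nat_lit 10935) (S (nat_lit 17558) (S (nat_lit 51710) (L (nat_lit 24517504))
(L (nat_lit 7885602)))
(L (nat_lit 6774693)))
(L (nat_lit 6309593)))
(S (nat_lit 28535) (S (nat_lit 52712) (S (nat_lit 31946) (L (nat_lit 28483123))
(L (nat_lit 2021801)))
(L (nat_lit 27612709)))
(S (nat_lit 48299) (S (nat_lit 1232) (S (nat_lit 6577) (L (nat_lit 7038501))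
(L (nat_lit 6318702)))
(L (nat_lit 26628384)))
(L (nat_lit 25400725)))))
(S (nat_lit 24169) (S (nat_lit 12710) (S (nat_lit 10935) (S (nat_lit 26355) (L (nat_lit 26679968))
(L (nat_lit 2713900)))
(L (nat_lit 6340374)))
(S (nat_lit 32474) (S (nat_lit 27542) (L (nat_lit 5728903))
(L (nat_lit 15011545)))
(S (nat_lit 52238) (S (nat_lit 2225) (S (nat_lit 1232) (S (nat_lit 17558) (L (nat_lit 13278112))
(L (nat_lit 483666)))
(L (nat_lit 3780528)))
(L (nat_lit 16851766)))
(L (nat_lit 25443011)))))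
(S (nat_lit 43933) (S (nat_lit 2210) (S (nat_lit 42422) (L (nat_lit 8246381))
(S (nat_lit 50530) (S (nat_lit 21539) (S (nat_lit 6591) (L (nat_lit 17158981))
(L (nat_lit 13361440)))
(L (nat_lit 11255961)))
(L (nat_lit 22814829))))
(S (nat_lit 21974) (S (nat_lit 31946) (S (nat_lit 54860) (L (nat_lit 28593229))
(L (nat_lit 19834957)))
(L (nat_lit 11588025)))
(S (nat_lit 41738) (S (nat_lit 675) (L (nat_lit 6469339))
(S (nat_lit 6591) (S (nat_lit 1733) (S (nat_lit 27542) (S (nat_lit 56073) (S (nat_lit 47858) (S (nat_lit 52712) (L (nat_lit 250670))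
(L (nat_lit 19247256)))
(L (nat_lit 1697009)))
(L (nat_lit 28019242)))
(L (nat_lit 7018385)))
(S (nat_lit 2383) (L (nat_lit 14534827))
(L (nat_lit 12214449))))
(L (nat_lit 23959660))))
(L (nat_lit 25401005)))))
(L (nat_lit 25690793)))))
(L (nat_lit 25895392)))))
(S (nat_lit 45185) (S (nat_lit 6592) (S (nat_lit 11002) (S (nat_lit 8264) (L (nat_lit 23082854))
(S (nat_lit 28028) (S (nat_lit 34183) (L (nat_lit 26352021))
(S (nat_lit 56074) (S (nat_lit 32417) (S (nat_lit 21053) (S (nat_lit 15362) (S (nat_lit 27542) (L (nat_lit 4570963))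
(L (nat_lit 1783689)))
(L (nat_lit 1324700)))
(L (nat_lit 7113110)))
(L (nat_lit 521830)))
(L (nat_lit 19065222))))
(S (nat_lit 47792) (S (nat_lit 20996) (S (nat_lit 56089) (S (nat_lit 26231) (L (nat_lit 23528667))
(L (nat_lit 7197090)))
(L (nat_lit 7967257)))
(L (nat_lit 1448822)))
(L (nat_lit 25483409)))))
(S (nat_lit 30766) (S (nat_lit 10987) (S (nat_lit 47792) (S (nat_lit 52181) (S (nat_lit 54890) (L (nat_lit 28805704))
(L (nat_lit 19182776)))
(L (nat_lit 1957256)))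
(L (nat_lit 9057432)))
(S (nat_lit 30751) (S (nat_lit 17519) (S (nat_lit 15332) (S (nat_lit 32909) (L (nat_lit 5158507))
(L (nat_lit 3566866)))
(L (nat_lit 1855883)))
(L (nat_lit 8138866)))
(S (nat_lit 50515) (S (nat_lit 39476) (L (nat_lit 18953466))
(S (nat_lit 52181) (S (nat_lit 43932) (S (nat_lit 2225) (L (nat_lit 17466119))
(L (nat_lit 17099364)))
(L (nat_lit 13402386)))
(L (nat_lit 3814616))))
(L (nat_lit 25929901)))))
(S (nat_lit 50530) (S (nat_lit 6577) (S (nat_lit 37298) (S (nat_lit 27542) (S (nat_lit 13184) (S (nat_lit 31931) (L (nat_lit 3564231))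
(L (nat_lit 6403891)))
(L (nat_lit 24491909)))
(L (nat_lit 19150720)))
(L (nat_lit 14426853)))
(S (nat_lit 26341) (S (nat_lit 15371) (S (nat_lit 4405) (S (nat_lit 47843) (S (nat_lit 7829) (L (nat_lit 29759575))
(L (nat_lit 12944275)))
(L (nat_lit 6318704)))
(L (nat_lit 26319284)))
(L (nat_lit 26646674)))
(S (nat_lit 46105) (S (nat_lit 32417) (S (nat_lit 28028) (L (nat_lit 7485018))
(L (nat_lit 11220121)))
(L (nat_lit 11220025)))
(L (nat_lit 25615715)))))
(L (nat_lit 25305522)))))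
(S (nat_lit 26356) (S (nat_lit 7844) (S (nat_lit 15347) (S (nat_lit 21539) (S (nat_lit 15326) (S (nat_lit 19815) (S (nat_lit 12224) (S (nat_lit 13145) (L (nat_lit 30422758))
(L (nat_lit 454930)))
(L (nat_lit 26692928)))
(L (nat_lit 9193185)))
(L (nat_lit 809386)))
(L (nat_lit 21171609)))
(S (nat_lit 35111) (S (nat_lit 16693) (L (nat_lit 283163))
(S (nat_lit 56113) (S (nat_lit 4446) (S (nat_lit 17519) (S (nat_lit 12224) (L (nat_lit 3977931))
(L (nat_lit 23393824)))
(L (nat_lit 8132206)))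
(L (nat_lit 941543)))
(L (nat_lit 2900550))))
(S (nat_lit 54875) (S (nat_lit 1801) (L (nat_lit 3777454))
(S (nat_lit 24168) (S (nat_lit 45656) (S (nat_lit 41261) (L (nat_lit 29656535))
(L (nat_lit 24290776)))
(L (nat_lit 1497304)))
(L (nat_lit 21404416))))
(L (nat_lit 25284043)))))
(S (nat_lit 27608) (S (nat_lit 5751) (L (nat_lit 694841))
(S (nat_lit 56089) (S (nat_lit 28574) (S (nat_lit 1775) (S (nat_lit 28079) (L (nat_lit 6167092))
(L (nat_lit 30738033)))
(L (nat_lit 2628406)))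
(L (nat_lit 13408437)))
(L (nat_lit 7980153))))
(S (nat_lit 47372) (S (nat_lit 8315) (S (nat_lit 51710) (S (nat_lit 39529) (S (nat_lit 6128) (L (nat_lit 14752474))
(L (nat_lit 12387799)))
(L (nat_lit 27859330)))
(L (nat_lit 435091)))
(S (nat_lit 28079) (S (nat_lit 10935) (S (nat_lit 13145) (L (nat_lit 26221077))
(L (nat_lit 1853745)))
(L (nat_lit 794257)))
(S (nat_lit 47843) (S (nat_lit 17031) (S (nat_lit 25355) (S (nat_lit 46119) (L (nat_lit 17570400))
(L (nat_lit 27854124)))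
(L (nat_lit 22946338)))
(S (nat_lit 58175) (L (nat_lit 24025135))
(L (nat_lit 12289432))))
(L (nat_lit 25347347)))))
(L (nat_lit 25189831)))))
(S (nat_lit 46120) (S (nat_lit 12182) (S (nat_lit 67) (S (nat_lit 1118) (L (nat_lit 27692618))
(S (nat_lit 20996) (S (nat_lit 56112) (S (nat_lit 17558) (S (nat_lit 2225) (L (nat_lit 24158649))
(L (nat_lit 1469034)))
(L (nat_lit 965970)))
(L (nat_lit 8130126)))
(L (nat_lit 6411057))))
(S (nat_lit 19831) (S (nat_lit 36348) (S (nat_lit 46119) (S (nat_lit 56559) (S (nat_lit 41246) (L (nat_lit 9240979))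
(L (nat_lit 6737976)))
(L (nat_lit 16027447)))
(L (nat_lit 18445383)))
(S (nat_lit 56930) (S (nat_lit 46119) (L (nat_lit 22234236))
(L (nat_lit 18445383)))
(L (nat_lit 31001902))))
(S (nat_lit 39595) (S (nat_lit 20996) (S (nat_lit 17558) (S (nat_lit 2249) (L (nat_lit 17983079))
(L (nat_lit 6784919)))
(L (nat_lit 6907022)))
(S (nat_lit 28491) (L (nat_lit 6312440))
(L (nat_lit 6738720))))
(L (nat_lit 25889224)))))
(S (nat_lit 31946) (S (nat_lit 8315) (S (nat_lit 24801) (L (nat_lit 31007105))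
(S (nat_lit 31931) (S (nat_lit 27542) (S (nat_lit 32474) (L (nat_lit 24610073))
(L (nat_lit 7964558)))
(L (nat_lit 1730953)))
(L (nat_lit 1547059))))
(S (nat_lit 28079) (S (nat_lit 27593) (S (nat_lit 56074) (S (nat_lit 17558) (S (nat_lit 66) (S (nat_lit 32432) (S (nat_lit 54860) (S (nat_lit 56113) (S (nat_lit 11002) (S (nat_lit 4446) (S (nat_lit 28574) (S (nat_lit 31988) (S (nat_lit 32948) (S (nat_lit 17534) (S (nat_lit 4447) (S (nat_lit 11001) (S (nat_lit 10987) (S (nat_lit 28550) (S (nat_lit 21539) (S (nat_lit 1) (S (nat_lit 54875) (S (nat_lit 35147) (S (nat_lit 3293) (S (nat_lit 46920) (S (nat_lit 53475) (S (nat_lit 39183) (S (nat_lit 25259) (S (nat_lit 51275) (S (nat_lit 36187) (S (nat_lit 8699) (S (nat_lit 10325) (D (nat_lit 12) (nat_lit 23960064) (nat_lit 25922862) (nat_lit 38047605989464671233))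
(L (nat_lit 27663379)))
(L (nat_lit 30125105)))
(L (nat_lit 28977637)))
(L (nat_lit 28984579)))
(L (nat_lit 28716214)))
(L (nat_lit 10325585)))
(L (nat_lit 28724514)))
(L (nat_lit 28724578)))
(S (nat_lit 9110) (S (nat_lit 13955) (S (nat_lit 22903) (S (nat_lit 9095) (S (nat_lit 50088) (S (nat_lit 4214) (S (nat_lit 26231) (S (nat_lit 41363) (S (nat_lit 7712) (D (nat_lit 12) (nat_lit 13422914) (nat_lit 25760973) (nat_lit 38351002085132288))
(L (nat_lit 30840885)))
(L (nat_lit 29006338)))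
(L (nat_lit 29042830)))
(L (nat_lit 27731063)))
(L (nat_lit 15609573)))
(L (nat_lit 27743523)))
(L (nat_lit 28033317)))
(L (nat_lit 27967845)))
(L (nat_lit 580860))))
(L (nat_lit 10277317)))
(L (nat_lit 19441509)))
(L (nat_lit 26816706)))
(L (nat_lit 7866199)))
(L (nat_lit 9834387)))
(L (nat_lit 7181714)))
(L (nat_lit 24021415)))
(L (nat_lit 7025443)))
(L (nat_lit 16453419)))
(L (nat_lit 16058162)))
(L (nat_lit 1363515)))
(L (nat_lit 13403507)))
(L (nat_lit 8122912)))
(L (nat_lit 16093042)))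
(L (nat_lit 9452121)))
(L (nat_lit 20998445)))
(L (nat_lit 17033235)))
(L (nat_lit 7257761)))
(L (nat_lit 1645484)))
(L (nat_lit 19053785)))
(L (nat_lit 7242293)))
(S (nat_lit 47843) (S (nat_lit 27593) (S (nat_lit 56599) (S (nat_lit 45605) (L (nat_lit 15961721))
(L (nat_lit 27862094)))
(L (nat_lit 7157811)))
(L (nat_lit 1857065)))
(L (nat_lit 25921032)))))
(S (nat_lit 51710) (S (nat_lit 8264) (S (nat_lit 10935) (S (nat_lit 20996) (S (nat_lit 28574) (S (nat_lit 27542) (L (nat_lit 28706131))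
(L (nat_lit 14799193)))
(L (nat_lit 18651283)))
(L (nat_lit 7210551)))
(S (nat_lit 50302) (L (nat_lit 26353045))
(L (nat_lit 7356057))))
(S (nat_lit 28028) (S (nat_lit 17558) (S (nat_lit 56089) (S (nat_lit 1718) (L (nat_lit 19013388))
(L (nat_lit 20284305)))
(L (nat_lit 416025)))
(L (nat_lit 16325509)))
(S (nat_lit 47792) (S (nat_lit 12558) (L (nat_lit 6413752))
(S (nat_lit 47357) (S (nat_lit 36835) (S (nat_lit 45656) (L (nat_lit 29497779))
(L (nat_lit 27271638)))
(L (nat_lit 20425784)))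
(L (nat_lit 20283928))))
(L (nat_lit 25830481)))))
(L (nat_lit 25379893)))))
(L (nat_lit 25238994)))))
(L (nat_lit 25248393)))))
(S (nat_lit 35141) (S (nat_lit 7844) (S (nat_lit 16545) (S (nat_lit 16584) (S (nat_lit 5642) (S (nat_lit 25892) (S (nat_lit 46162) (S (nat_lit 36310) (S (nat_lit 37322) (L (nat_lit 14865784))
(L (nat_lit 20310404)))
(L (nat_lit 18154104)))
(L (nat_lit 20310402)))
(S (nat_lit 43384) (L (nat_lit 18582841))
(L (nat_lit 21300633))))
(S (nat_lit 25406) (S (nat_lit 37283) (S (nat_lit 35096) (S (nat_lit 26398) (L (nat_lit 22279552))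
(L (nat_lit 8938514)))
(L (nat_lit 9322084)))
(S (nat_lit 56965) (L (nat_lit 26460214))
(L (nat_lit 3655993))))
(S (nat_lit 45170) (S (nat_lit 21539) (S (nat_lit 27542) (S (nat_lit 35111) (S (nat_lit 46161) (L (nat_lit 23175580))
(L (nat_lit 10676628)))
(L (nat_lit 23470137)))
(L (nat_lit 1730953)))
(S (nat_lit 45601) (L (nat_lit 9180880))
(L (nat_lit 22285721))))
(L (nat_lit 25362839)))))
(S (nat_lit 36348) (S (nat_lit 16585) (S (nat_lit 36811) (S (nat_lit 50529) (S (nat_lit 35096) (L (nat_lit 29367025))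
(L (nat_lit 9967321)))
(L (nat_lit 13234432)))
(L (nat_lit 20885792)))
(S (nat_lit 36349) (S (nat_lit 32924) (S (nat_lit 37322) (S (nat_lit 43932) (L (nat_lit 20481831))
(L (nat_lit 12656434)))
(L (nat_lit 9223748)))
(S (nat_lit 56986) (L (nat_lit 9211314))
(L (nat_lit 19998105))))
(S (nat_lit 56113) (S (nat_lit 6207) (S (nat_lit 54875) (L (nat_lit 26813892))
(L (nat_lit 16027570)))
(S (nat_lit 25892) (S (nat_lit 10935) (S (nat_lit 43975) (S (nat_lit 26356) (L (nat_lit 16028251))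
(L (nat_lit 2715950)))
(L (nat_lit 10676788)))
(L (nat_lit 6307545)))
(L (nat_lit 21300633))))
(L (nat_lit 25602134)))))
(S (nat_lit 56112) (S (nat_lit 2225) (S (nat_lit 4784) (L (nat_lit 12655413))
(S (nat_lit 45671) (S (nat_lit 24168) (S (nat_lit 48338) (S (nat_lit 5642) (S (nat_lit 35096) (L (nat_lit 12657368))
(L (nat_lit 13445829)))
(L (nat_lit 19329250)))
(L (nat_lit 20415242)))
(L (nat_lit 3938739)))
(L (nat_lit 13376535))))
(S (nat_lit 21989) (S (nat_lit 6576) (S (nat_lit 32924) (S (nat_lit 35096) (S (nat_lit 21539) (S (nat_lit 28574) (S (nat_lit 37322) (S (nat_lit 43975) (L (nat_lit 28387829))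
(L (nat_lit 23486690)))
(L (nat_lit 9229700)))
(L (nat_lit 9222756)))
(L (nat_lit 21799297)))
(L (nat_lit 10131375)))
(L (nat_lit 23360901)))
(L (nat_lit 8142006)))
(S (nat_lit 41753) (S (nat_lit 24125) (L (nat_lit 16426915))
(S (nat_lit 27542) (S (nat_lit 35096) (S (nat_lit 25892) (S (nat_lit 46162) (S (nat_lit 12224) (L (nat_lit 5518099))
(L (nat_lit 4116009)))
(L (nat_lit 18207769)))
(L (nat_lit 7767771)))
(L (nat_lit 23605156)))
(L (nat_lit 19275897))))
(L (nat_lit 25824778)))))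
(L (nat_lit 25417125)))))
(S (nat_lit 36309) (S (nat_lit 6592) (S (nat_lit 16584) (S (nat_lit 40113) (L (nat_lit 4598395))
(S (nat_lit 50514) (S (nat_lit 15362) (L (nat_lit 4513677))
(L (nat_lit 6927516)))
(L (nat_lit 20210048))))
(S (nat_lit 36348) (S (nat_lit 13257) (L (nat_lit 6874721))
(S (nat_lit 16560) (L (nat_lit 23206301))
(L (nat_lit 3709751))))
(S (nat_lit 56112) (S (nat_lit 43932) (S (nat_lit 35096) (S (nat_lit 28574) (L (nat_lit 16555716))
(L (nat_lit 8880827)))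
(L (nat_lit 23597337)))
(L (nat_lit 12907635)))
(L (nat_lit 25416720)))))
(S (nat_lit 26356) (S (nat_lit 11002) (S (nat_lit 17358) (L (nat_lit 30869746))
(S (nat_lit 40817) (S (nat_lit 17534) (L (nat_lit 16517428))
(L (nat_lit 6928132)))
(L (nat_lit 23366576))))
(S (nat_lit 30766) (S (nat_lit 37283) (S (nat_lit 24168) (S (nat_lit 21011) (L (nat_lit 5622545))
(L (nat_lit 6960898)))
(L (nat_lit 8942208)))
(L (nat_lit 3721994)))
(S (nat_lit 50530) (S (nat_lit 21989) (L (nat_lit 12657277))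
(S (nat_lit 37950) (L (nat_lit 23956849))
(L (nat_lit 18615882))))
(L (nat_lit 25320969)))))
(S (nat_lit 46120) (S (nat_lit 17161) (L (nat_lit 13275943))
(S (nat_lit 50463) (S (nat_lit 43933) (S (nat_lit 25406) (L (nat_lit 17865369))
(L (nat_lit 6450583)))
(L (nat_lit 27966568)))
(L (nat_lit 20120497))))
(L (nat_lit 25657928)))))
(S (nat_lit 56073) (S (nat_lit 8810) (S (nat_lit 21571) (S (nat_lit 39580) (L (nat_lit 13822697))
(L (nat_lit 18145987)))
(S (nat_lit 47843) (S (nat_lit 52196) (S (nat_lit 24211) (S (nat_lit 32924) (L (nat_lit 18450218))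
(L (nat_lit 9125764)))
(S (nat_lit 41321) (L (nat_lit 29655446))
(L (nat_lit 3521144))))
(S (nat_lit 57136) (L (nat_lit 18475296))
(L (nat_lit 6307731))))
(L (nat_lit 3742264))))
(S (nat_lit 28574) (S (nat_lit 5642) (S (nat_lit 34049) (L (nat_lit 1784153))
(S (nat_lit 37322) (S (nat_lit 45656) (L (nat_lit 2517235))
(L (nat_lit 3971478)))
(L (nat_lit 3528089))))
(S (nat_lit 25406) (S (nat_lit 56074) (S (nat_lit 32417) (S (nat_lit 28028) (L (nat_lit 4583987))
(L (nat_lit 7434643)))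
(L (nat_lit 7435667)))
(L (nat_lit 3057046)))
(S (nat_lit 45170) (S (nat_lit 38211) (L (nat_lit 3926321))
(S (nat_lit 48299) (S (nat_lit 35096) (L (nat_lit 15749931))
(L (nat_lit 2797487)))
(L (nat_lit 22079882))))
(L (nat_lit 25835808)))))
(S (nat_lit 48338) (S (nat_lit 19706) (L (nat_lit 7520889))
(S (nat_lit 56113) (S (nat_lit 56599) (S (nat_lit 28079) (L (nat_lit 5938585))
(L (nat_lit 16324729)))
(L (nat_lit 14231301)))
(L (nat_lit 606987))))
(L (nat_lit 25311603)))))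
(L (nat_lit 25430638)))))
(S (nat_lit 27608) (S (nat_lit 1289) (S (nat_lit 6128) (S (nat_lit 4390) (S (nat_lit 52181) (S (nat_lit 16545) (L (nat_lit 28450195))
(L (nat_lit 24944005)))
(L (nat_lit 6975873)))
(S (nat_lit 17674) (L (nat_lit 23206300))
(L (nat_lit 19106736))))
(S (nat_lit 25892) (S (nat_lit 6577) (S (nat_lit 16879) (L (nat_lit 748936))
(S (nat_lit 37322) (S (nat_lit 35096) (S (nat_lit 16545) (S (nat_lit 31988) (L (nat_lit 5500493))
(L (nat_lit 14458560)))
(L (nat_lit 17604293)))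
(L (nat_lit 3035530)))
(L (nat_lit 3497371))))
(S (nat_lit 26341) (S (nat_lit 9906) (L (nat_lit 14978745))
(S (nat_lit 16545) (S (nat_lit 35096) (S (nat_lit 52673) (S (nat_lit 31988) (L (nat_lit 3694439))
(L (nat_lit 31033895)))
(L (nat_lit 17012344)))
(L (nat_lit 9147309)))
(L (nat_lit 3612281))))
(S (nat_lit 46105) (S (nat_lit 36325) (S (nat_lit 35111) (S (nat_lit 16545) (S (nat_lit 26340) (L (nat_lit 2679495))
(L (nat_lit 8812129)))
(L (nat_lit 3972663)))
(L (nat_lit 20875471)))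
(L (nat_lit 20323140)))
(L (nat_lit 25381006)))))
(S (nat_lit 45656) (S (nat_lit 50515) (S (nat_lit 43918) (L (nat_lit 8413586))
(L (nat_lit 27513218)))
(L (nat_lit 20210051)))
(L (nat_lit 25866499)))))
(S (nat_lit 21053) (S (nat_lit 17070) (S (nat_lit 16545) (S (nat_lit 17031) (S (nat_lit 35096) (S (nat_lit 10935) (S (nat_lit 66) (L (nat_lit 2899559))
(L (nat_lit 12946072)))
(L (nat_lit 16568358)))
(L (nat_lit 31102506)))
(S (nat_lit 49899) (L (nat_lit 1533269))
(L (nat_lit 26366347))))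
(S (nat_lit 36309) (S (nat_lit 32924) (L (nat_lit 23300509))
(L (nat_lit 20220315)))
(S (nat_lit 56073) (S (nat_lit 31988) (S (nat_lit 32417) (S (nat_lit 28028) (L (nat_lit 22973834))
(L (nat_lit 389523)))
(L (nat_lit 390547)))
(L (nat_lit 1684361)))
(L (nat_lit 25869669)))))
(S (nat_lit 36834) (S (nat_lit 7829) (S (nat_lit 16545) (S (nat_lit 19830) (L (nat_lit 28354288))
(L (nat_lit 9223808)))
(S (nat_lit 57227) (L (nat_lit 13173083))
(L (nat_lit 8581742))))
(S (nat_lit 27593) (S (nat_lit 1854) (S (nat_lit 28574) (L (nat_lit 21794219))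
(L (nat_lit 12945019)))
(S (nat_lit 21539) (S (nat_lit 6576) (S (nat_lit 6591) (L (nat_lit 12782205))
(L (nat_lit 7177718)))
(L (nat_lit 7125601)))
(L (nat_lit 14943865))))
(S (nat_lit 47357) (S (nat_lit 51710) (S (nat_lit 1232) (S (nat_lit 28028) (S (nat_lit 36835) (L (nat_lit 16650983))
(L (nat_lit 18049139)))
(L (nat_lit 7426457)))
(L (nat_lit 3762727)))
(L (nat_lit 10055072)))
(L (nat_lit 25528944)))))
(S (nat_lit 56598) (S (nat_lit 51) (S (nat_lit 10935) (S (nat_lit 31988) (S (nat_lit 10986) (S (nat_lit 56575) (S (nat_lit 4390) (S (nat_lit 4404) (S (nat_lit 4446) (L (nat_lit 20756614))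
(L (nat_lit 7017231)))
(L (nat_lit 19766785)))
(L (nat_lit 639912)))
(L (nat_lit 19132864)))
(L (nat_lit 1649048)))
(L (nat_lit 6317555)))
(L (nat_lit 7133665)))
(S (nat_lit 19815) (S (nat_lit 28550) (S (nat_lit 24154) (S (nat_lit 37298) (L (nat_lit 14945077))
(L (nat_lit 9014841)))
(L (nat_lit 9244368)))
(L (nat_lit 12880537)))
(S (nat_lit 39579) (S (nat_lit 32417) (S (nat_lit 6576) (S (nat_lit 10935) (L (nat_lit 6415764))
(L (nat_lit 23324128)))
(L (nat_lit 7101580)))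
(S (nat_lit 49901) (L (nat_lit 8484371))
(L (nat_lit 7501203))))
(L (nat_lit 25630067)))))
(L (nat_lit 25764974)))))
(S (nat_lit 40817) (S (nat_lit 1775) (S (nat_lit 37322) (S (nat_lit 35096) (S (nat_lit 50515) (S (nat_lit 50514) (L (nat_lit 12735239))
(L (nat_lit 10609044)))
(L (nat_lit 10609042)))
(L (nat_lit 10373509)))
(L (nat_lit 8576409)))
(S (nat_lit 21539) (S (nat_lit 15383) (S (nat_lit 56089) (S (nat_lit 16545) (S (nat_lit 16546) (L (nat_lit 22264888))
(L (nat_lit 9208433)))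
(L (nat_lit 22816133)))
(S (nat_lit 58336) (L (nat_lit 908711))
(L (nat_lit 10013881))))
(S (nat_lit 35147) (S (nat_lit 15450) (L (nat_lit 31047849))
(S (nat_lit 35135) (S (nat_lit 16545) (S (nat_lit 46120) (S (nat_lit 12653) (S (nat_lit 27542) (S (nat_lit 4404) (S (nat_lit 25892) (L (nat_lit 13403443))
(L (nat_lit 30760046)))
(L (nat_lit 1494296)))
(L (nat_lit 7026562)))
(L (nat_lit 10272883)))
(L (nat_lit 27761746)))
(L (nat_lit 9208215)))
(L (nat_lit 20093433))))
(S (nat_lit 54911) (S (nat_lit 35096) (S (nat_lit 16546) (S (nat_lit 37322) (L (nat_lit 16319302))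
(L (nat_lit 9209234)))
(L (nat_lit 9077147)))
(L (nat_lit 3682228)))
(L (nat_lit 25826509)))))
(S (nat_lit 41303) (S (nat_lit 50514) (S (nat_lit 1) (S (nat_lit 25892) (L (nat_lit 760219))
(L (nat_lit 22275457)))
(L (nat_lit 7964058)))
(L (nat_lit 20242816)))
(L (nat_lit 25287984)))))
(L (nat_lit 25921873)))))
(S (nat_lit 47372) (S (nat_lit 67) (S (nat_lit 12710) (S (nat_lit 39168) (S (nat_lit 2568) (L (nat_lit 17968860))
(L (nat_lit 22977060)))
(S (nat_lit 51752) (S (nat_lit 37322) (S (nat_lit 50529) (S (nat_lit 32924) (S (nat_lit 25406) (L (nat_lit 18776777))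
(L (nat_lit 12321516)))
(L (nat_lit 10243492)))
(L (nat_lit 20319014)))
(S (nat_lit 42787) (L (nat_lit 20103018))
(L (nat_lit 20389049))))
(L (nat_lit 10226229))))
(S (nat_lit 32474) (S (nat_lit 10986) (S (nat_lit 28535) (S (nat_lit 35096) (S (nat_lit 25892) (S (nat_lit 6577) (L (nat_lit 28842131))
(L (nat_lit 7388795)))
(L (nat_lit 17008345)))
(L (nat_lit 20785263)))
(S (nat_lit 57868) (L (nat_lit 17986898))
(L (nat_lit 17847609))))
(S (nat_lit 30750) (S (nat_lit 27593) (S (nat_lit 25841) (S (nat_lit 25892) (L (nat_lit 26813516))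
(L (nat_lit 14293113)))
(L (nat_lit 7425593)))
(S (nat_lit 35717) (L (nat_lit 7181007))
(L (nat_lit 19263008))))
(S (nat_lit 50514) (S (nat_lit 21539) (S (nat_lit 28094) (L (nat_lit 19970392))
(L (nat_lit 8164821)))
(L (nat_lit 22550683)))
(L (nat_lit 25442484)))))
(S (nat_lit 52238) (S (nat_lit 17046) (S (nat_lit 51752) (S (nat_lit 16560) (S (nat_lit 27542) (S (nat_lit 1232) (L (nat_lit 4996807))
(L (nat_lit 20756706)))
(L (nat_lit 7221427)))
(L (nat_lit 26843312)))
(L (nat_lit 20177440)))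
(S (nat_lit 36810) (S (nat_lit 36349) (S (nat_lit 25892) (S (nat_lit 36811) (L (nat_lit 803062))
(L (nat_lit 30426483)))
(L (nat_lit 17570497)))
(L (nat_lit 18442251)))
(S (nat_lit 56574) (S (nat_lit 50529) (S (nat_lit 35096) (S (nat_lit 8786) (S (nat_lit 2225) (L (nat_lit 2892365))
(L (nat_lit 7179887)))
(L (nat_lit 1338061)))
(L (nat_lit 9326669)))
(L (nat_lit 20725863)))
(L (nat_lit 25415172)))))
(L (nat_lit 25633475)))))
(S (nat_lit 19831) (S (nat_lit 17031) (S (nat_lit 16584) (S (nat_lit 37322) (S (nat_lit 32924) (S (nat_lit 32909) (S (nat_lit 56074) (L (nat_lit 4537976))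
(L (nat_lit 10207012)))
(L (nat_lit 8835161)))
(L (nat_lit 15311929)))
(L (nat_lit 20251033)))
(S (nat_lit 36348) (S (nat_lit 16545) (S (nat_lit 32924) (S (nat_lit 35111) (L (nat_lit 29958193))
(L (nat_lit 20221401)))
(L (nat_lit 9026585)))
(L (nat_lit 22839690)))
(S (nat_lit 56112) (S (nat_lit 32948) (S (nat_lit 10935) (L (nat_lit 14451988))
(L (nat_lit 16535776)))
(S (nat_lit 51889) (L (nat_lit 21314681))
(L (nat_lit 2643754))))
(L (nat_lit 25678856)))))
(S (nat_lit 36795) (S (nat_lit 8264) (S (nat_lit 46161) (S (nat_lit 32924) (L (nat_lit 1483389))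
(L (nat_lit 20215173)))
(L (nat_lit 20310401)))
(S (nat_lit 28028) (S (nat_lit 31931) (S (nat_lit 32417) (S (nat_lit 37322) (L (nat_lit 3530510))
(L (nat_lit 20749765)))
(L (nat_lit 734489)))
(L (nat_lit 31075778)))
(S (nat_lit 47792) (S (nat_lit 35096) (S (nat_lit 24154) (S (nat_lit 36310) (S (nat_lit 36811) (S (nat_lit 30765) (L (nat_lit 22165287))
(L (nat_lit 2728879)))
(L (nat_lit 18786451)))
(L (nat_lit 12848054)))
(L (nat_lit 9254594)))
(L (nat_lit 4009677)))
(L (nat_lit 25601107)))))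
(S (nat_lit 56559) (S (nat_lit 50459) (S (nat_lit 55725) (L (nat_lit 3398139))
(L (nat_lit 8881941)))
(S (nat_lit 51752) (S (nat_lit 46162) (S (nat_lit 37322) (S (nat_lit 35096) (S (nat_lit 24210) (L (nat_lit 20474887))
(L (nat_lit 3532401)))
(L (nat_lit 2633433)))
(L (nat_lit 8543641)))
(S (nat_lit 58913) (L (nat_lit 2835800))
(L (nat_lit 20113800))))
(L (nat_lit 10236021))))
(L (nat_lit 25857262)))))
(S (nat_lit 39595) (S (nat_lit 13145) (S (nat_lit 1775) (S (nat_lit 25406) (S (nat_lit 6633) (L (nat_lit 16455769))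
(L (nat_lit 1602247)))
(L (nat_lit 7092928)))
(S (nat_lit 21539) (S (nat_lit 11528) (L (nat_lit 17035443))
(S (nat_lit 16545) (S (nat_lit 56113) (S (nat_lit 25355) (S (nat_lit 6077) (S (nat_lit 57047) (L (nat_lit 19138352))
(L (nat_lit 14881496)))
(L (nat_lit 16533795)))
(L (nat_lit 6867776)))
(L (nat_lit 16523908)))
(L (nat_lit 8517230))))
(S (nat_lit 41303) (S (nat_lit 26355) (S (nat_lit 25355) (S (nat_lit 57047) (L (nat_lit 31001991))
(L (nat_lit 28021036)))
(L (nat_lit 7226976)))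
(L (nat_lit 9196000)))
(L (nat_lit 25927761)))))
(S (nat_lit 32909) (S (nat_lit 10987) (S (nat_lit 6576) (S (nat_lit 25841) (S (nat_lit 32474) (L (nat_lit 5845927))
(L (nat_lit 7451353)))
(L (nat_lit 7425593)))
(L (nat_lit 7364153)))
(S (nat_lit 30751) (S (nat_lit 35096) (S (nat_lit 32752) (L (nat_lit 9931570))
(L (nat_lit 7098477)))
(S (nat_lit 40381) (L (nat_lit 5722425))
(L (nat_lit 9082425))))
(S (nat_lit 50515) (S (nat_lit 15411) (L (nat_lit 3590985))
(S (nat_lit 35096) (S (nat_lit 9900) (L (nat_lit 20852994))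
(S (nat_lit 37322) (S (nat_lit 32924) (S (nat_lit 35090) (S (nat_lit 37283) (S (nat_lit 41738) (L (nat_lit 23291265))
(L (nat_lit 27901003)))
(L (nat_lit 30976116)))
(L (nat_lit 20477252)))
(L (nat_lit 8484242)))
(L (nat_lit 20757828))))
(L (nat_lit 9483993))))
(L (nat_lit 25246377)))))
(S (nat_lit 52673) (S (nat_lit 15326) (S (nat_lit 25892) (S (nat_lit 11001) (S (nat_lit 41261) (L (nat_lit 6483348))
(L (nat_lit 24449840)))
(L (nat_lit 1684793)))
(L (nat_lit 340697)))
(S (nat_lit 35090) (S (nat_lit 46119) (S (nat_lit 6077) (S (nat_lit 26341) (L (nat_lit 15824243))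
(L (nat_lit 14722866)))
(L (nat_lit 2705190)))
(S (nat_lit 50151) (L (nat_lit 1389365))
(L (nat_lit 18122646))))
(S (nat_lit 54854) (S (nat_lit 39579) (S (nat_lit 27542) (S (nat_lit 1718) (S (nat_lit 43932) (S (nat_lit 10936) (S (nat_lit 51752) (L (nat_lit 8440652))
(L (nat_lit 27278025)))
(L (nat_lit 18482984)))
(L (nat_lit 11190049)))
(L (nat_lit 19196449)))
(L (nat_lit 6690521)))
(L (nat_lit 10576434)))
(L (nat_lit 25857515)))))
(L (nat_lit 25610314)))))
(L (nat_lit 25726229)))))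
(L (nat_lit 25475650)))))
(S (nat_lit 54905) (S (nat_lit 10935) (S (nat_lit 12710) (S (nat_lit 16560) (S (nat_lit 16585) (S (nat_lit 27542) (S (nat_lit 46119) (S (nat_lit 48314) (L (nat_lit 5893356))
(L (nat_lit 13897432)))
(L (nat_lit 22480679)))
(L (nat_lit 16410880)))
(S (nat_lit 36349) (S (nat_lit 20996) (S (nat_lit 47843) (L (nat_lit 5773944))
(L (nat_lit 18080417)))
(S (nat_lit 28913) (L (nat_lit 29722002))
(L (nat_lit 12158521))))
(S (nat_lit 56113) (S (nat_lit 13184) (L (nat_lit 631353))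
(L (nat_lit 26810916)))
(L (nat_lit 25475091)))))
(S (nat_lit 36324) (S (nat_lit 1289) (S (nat_lit 12224) (S (nat_lit 1775) (S (nat_lit 56074) (L (nat_lit 13861593))
(L (nat_lit 16009369)))
(L (nat_lit 2311958)))
(L (nat_lit 16361248)))
(S (nat_lit 21053) (S (nat_lit 6576) (S (nat_lit 27608) (S (nat_lit 25421) (S (nat_lit 46162) (L (nat_lit 22912544))
(L (nat_lit 11064345)))
(L (nat_lit 30803591)))
(L (nat_lit 31037920)))
(S (nat_lit 8196) (L (nat_lit 30792225))
(L (nat_lit 6962329))))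
(S (nat_lit 40817) (S (nat_lit 36811) (S (nat_lit 50514) (S (nat_lit 21974) (L (nat_lit 20153915))
(L (nat_lit 9329189)))
(L (nat_lit 12905057)))
(L (nat_lit 20480903)))
(L (nat_lit 25478326)))))
(S (nat_lit 56088) (S (nat_lit 16584) (S (nat_lit 45605) (S (nat_lit 1775) (S (nat_lit 32417) (L (nat_lit 14474314))
(L (nat_lit 17097313)))
(L (nat_lit 26974289)))
(L (nat_lit 1558840)))
(S (nat_lit 36348) (S (nat_lit 3267) (L (nat_lit 19163309))
(S (nat_lit 31931) (S (nat_lit 27542) (S (nat_lit 20996) (L (nat_lit 4945450))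
(L (nat_lit 14943961)))
(L (nat_lit 14946009)))
(L (nat_lit 6472313))))
(S (nat_lit 56112) (S (nat_lit 19765) (S (nat_lit 54860) (L (nat_lit 19708164))
(L (nat_lit 15950533)))
(S (nat_lit 24058) (L (nat_lit 17885494))
(L (nat_lit 16319709))))
(L (nat_lit 25400912)))))
(L (nat_lit 25734327)))))
(S (nat_lit 32474) (S (nat_lit 1) (S (nat_lit 1775) (S (nat_lit 54860) (L (nat_lit 8293938))
(L (nat_lit 19086424)))
(S (nat_lit 21539) (S (nat_lit 36309) (S (nat_lit 2210) (S (nat_lit 17519) (S (nat_lit 4390) (S (nat_lit 13184) (L (nat_lit 20480810))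
(L (nat_lit 6907428)))
(L (nat_lit 26812803)))
(L (nat_lit 8138834)))
(L (nat_lit 26270091)))
(L (nat_lit 1533544)))
(S (nat_lit 41303) (S (nat_lit 54899) (S (nat_lit 30750) (L (nat_lit 15735418))
(L (nat_lit 9004207)))
(L (nat_lit 14419594)))
(L (nat_lit 25431479)))))
(S (nat_lit 19765) (S (nat_lit 10986) (S (nat_lit 20996) (S (nat_lit 56089) (S (nat_lit 56074) (S (nat_lit 56599) (S (nat_lit 15332) (L (nat_lit 18921355))
(L (nat_lit 15476850)))
(L (nat_lit 6346233)))
(L (nat_lit 7522873)))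
(L (nat_lit 21371065)))
(S (nat_lit 48190) (L (nat_lit 8572315))
(L (nat_lit 1398329))))
(S (nat_lit 14494) (L (nat_lit 27658953))
(L (nat_lit 6386287))))
(S (nat_lit 39529) (S (nat_lit 16561) (S (nat_lit 21539) (S (nat_lit 50464) (S (nat_lit 27542) (L (nat_lit 15337318))
(L (nat_lit 19729831)))
(L (nat_lit 13474499)))
(L (nat_lit 21171641)))
(S (nat_lit 36325) (S (nat_lit 20996) (S (nat_lit 6576) (S (nat_lit 17491) (L (nat_lit 6878294))
(L (nat_lit 21182305)))
(L (nat_lit 21773446)))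
(L (nat_lit 15314009)))
(S (nat_lit 56089) (S (nat_lit 21539) (S (nat_lit 28550) (S (nat_lit 32924) (S (nat_lit 50514) (S (nat_lit 31931) (L (nat_lit 1268620))
(L (nat_lit 19218523)))
(L (nat_lit 12366432)))
(L (nat_lit 16523314)))
(L (nat_lit 19669007)))
(L (nat_lit 15853158)))
(L (nat_lit 25578667)))))
(L (nat_lit 25566787)))))
(S (nat_lit 52238) (S (nat_lit 4405) (S (nat_lit 15332) (S (nat_lit 6576) (S (nat_lit 1232) (S (nat_lit 41303) (L (nat_lit 3358550))
(L (nat_lit 18026104)))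
(L (nat_lit 3796519)))
(L (nat_lit 26414700)))
(L (nat_lit 1275442)))
(S (nat_lit 24169) (S (nat_lit 12653) (S (nat_lit 50400) (L (nat_lit 2728377))
(L (nat_lit 18934247)))
(S (nat_lit 32417) (S (nat_lit 25892) (S (nat_lit 41777) (L (nat_lit 3808828))
(L (nat_lit 14358712)))
(L (nat_lit 14424769)))
(S (nat_lit 52181) (S (nat_lit 15332) (S (nat_lit 45170) (S (nat_lit 36310) (L (nat_lit 22807943))
(L (nat_lit 7225028)))
(L (nat_lit 27472576)))
(S (nat_lit 41629) (L (nat_lit 6971941))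
(L (nat_lit 17569076))))
(L (nat_lit 25741416)))))
(S (nat_lit 43933) (S (nat_lit 1775) (L (nat_lit 28779235))
(S (nat_lit 21539) (L (nat_lit 22061532))
(S (nat_lit 41303) (S (nat_lit 36325) (S (nat_lit 6128) (L (nat_lit 28449175))
(L (nat_lit 19729864)))
(L (nat_lit 30448364)))
(L (nat_lit 25893008)))))
(L (nat_lit 25250217)))))
(L (nat_lit 25220462)))))
(S (nat_lit 30699) (S (nat_lit 12653) (S (nat_lit 16585) (S (nat_lit 10986) (S (nat_lit 15332) (S (nat_lit 25406) (L (nat_lit 379289))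
(L (nat_lit 7078294)))
(L (nat_lit 24915332)))
(S (nat_lit 30750) (S (nat_lit 30751) (S (nat_lit 46161) (L (nat_lit 24905036))
(L (nat_lit 27897216)))
(L (nat_lit 10032536)))
(S (nat_lit 50514) (S (nat_lit 6480) (L (nat_lit 12117699))
(S (nat_lit 40817) (S (nat_lit 17047) (S (nat_lit 41261) (S (nat_lit 35126) (L (nat_lit 12667098))
(L (nat_lit 2665051)))
(L (nat_lit 16805111)))
(S (nat_lit 53495) (L (nat_lit 10016923))
(L (nat_lit 2830650))))
(L (nat_lit 2679401))))
(L (nat_lit 25440404)))))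
(S (nat_lit 36349) (S (nat_lit 15332) (S (nat_lit 2249) (S (nat_lit 52) (S (nat_lit 8786) (L (nat_lit 8078361))
(L (nat_lit 7071791)))
(L (nat_lit 6380431)))
(L (nat_lit 1493899)))
(S (nat_lit 35096) (S (nat_lit 32924) (S (nat_lit 2249) (L (nat_lit 19929967))
(L (nat_lit 20415371)))
(L (nat_lit 9361797)))
(S (nat_lit 54860) (S (nat_lit 57047) (L (nat_lit 18955146))
(L (nat_lit 18919308)))
(L (nat_lit 25408628)))))
(S (nat_lit 56113) (S (nat_lit 17031) (S (nat_lit 27542) (S (nat_lit 50514) (S (nat_lit 6633) (L (nat_lit 6375837))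
(L (nat_lit 26547604)))
(L (nat_lit 20244864)))
(L (nat_lit 12282242)))
(S (nat_lit 36795) (S (nat_lit 6128) (S (nat_lit 21053) (L (nat_lit 23857543))
(L (nat_lit 30483862)))
(L (nat_lit 20154252)))
(S (nat_lit 56559) (S (nat_lit 1) (S (nat_lit 50514) (S (nat_lit 46161) (L (nat_lit 17680609))
(L (nat_lit 20308353)))
(L (nat_lit 22112646)))
(L (nat_lit 7079316)))
(L (nat_lit 25935172)))))
(L (nat_lit 25189867)))))
(S (nat_lit 32417) (S (nat_lit 6633) (S (nat_lit 16560) (S (nat_lit 27251) (L (nat_lit 24259129))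
(S (nat_lit 47843) (S (nat_lit 17534) (L (nat_lit 16653331))
(L (nat_lit 8214540)))
(L (nat_lit 8579637))))
(S (nat_lit 36324) (S (nat_lit 11001) (S (nat_lit 24168) (S (nat_lit 36349) (L (nat_lit 19055495))
(L (nat_lit 6975969)))
(L (nat_lit 14589568)))
(L (nat_lit 6753017)))
(S (nat_lit 56088) (S (nat_lit 10314) (L (nat_lit 258700))
(S (nat_lit 31931) (S (nat_lit 1232) (L (nat_lit 28870346))
(L (nat_lit 13822663)))
(L (nat_lit 19432761))))
(L (nat_lit 25805992)))))
(S (nat_lit 26397) (S (nat_lit 28028) (S (nat_lit 57086) (S (nat_lit 5642) (S (nat_lit 36309) (L (nat_lit 26352019))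
(L (nat_lit 20784515)))
(L (nat_lit 20782466)))
(L (nat_lit 27448714)))
(L (nat_lit 11145625)))
(S (nat_lit 46161) (S (nat_lit 27542) (S (nat_lit 46162) (S (nat_lit 56559) (S (nat_lit 31931) (S (nat_lit 2210) (L (nat_lit 5030162))
(L (nat_lit 7101829)))
(L (nat_lit 24380825)))
(L (nat_lit 7006596)))
(L (nat_lit 20256153)))
(L (nat_lit 18999687)))
(L (nat_lit 25701430)))))
(S (nat_lit 52181) (S (nat_lit 12182) (S (nat_lit 16546) (S (nat_lit 4404) (S (nat_lit 15332) (L (nat_lit 28869254))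
(L (nat_lit 7369106)))
(L (nat_lit 19301190)))
(S (nat_lit 36310) (S (nat_lit 2249) (S (nat_lit 8786) (S (nat_lit 1289) (S (nat_lit 47792) (L (nat_lit 5642970))
(L (nat_lit 8540568)))
(L (nat_lit 18881949)))
(L (nat_lit 6875844)))
(L (nat_lit 1558908)))
(S (nat_lit 56074) (S (nat_lit 43932) (S (nat_lit 48338) (L (nat_lit 19013484))
(L (nat_lit 27592301)))
(L (nat_lit 27795073)))
(L (nat_lit 25509476)))))
(S (nat_lit 31946) (S (nat_lit 1289) (S (nat_lit 28443) (L (nat_lit 258454))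
(S (nat_lit 56575) (S (nat_lit 52238) (S (nat_lit 1232) (S (nat_lit 27608) (S (nat_lit 8786) (S (nat_lit 4404) (L (nat_lit 22217549))
(L (nat_lit 6408729)))
(L (nat_lit 7147213)))
(L (nat_lit 1612537)))
(L (nat_lit 13390112)))
(L (nat_lit 13377619)))
(L (nat_lit 27280694))))
(L (nat_lit 20880802)))
(S (nat_lit 51710) (S (nat_lit 11002) (S (nat_lit 12310) (L (nat_lit 12799066))
(S (nat_lit 15332) (S (nat_lit 45170) (L (nat_lit 28907904))
(L (nat_lit 27787510)))
(L (nat_lit 1308050))))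
(S (nat_lit 30766) (S (nat_lit 66) (S (nat_lit 30751) (L (nat_lit 13789555))
(L (nat_lit 8982936)))
(S (nat_lit 58651) (L (nat_lit 9588248))
(L (nat_lit 26577549))))
(S (nat_lit 50530) (S (nat_lit 11046) (L (nat_lit 4051152))
(S (nat_lit 35126) (S (nat_lit 56089) (S (nat_lit 32924) (L (nat_lit 12627859))
(L (nat_lit 16518386)))
(L (nat_lit 21181345)))
(L (nat_lit 2408025))))
(L (nat_lit 25320969)))))
(L (nat_lit 25543827)))))
(L (nat_lit 25828739)))))
(S (nat_lit 50463) (S (nat_lit 10986) (S (nat_lit 12182) (S (nat_lit 5657) (S (nat_lit 26355) (S (nat_lit 19830) (S (nat_lit 7844) (L (nat_lit 4792237))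
(L (nat_lit 26238439)))
(L (nat_lit 4051431)))
(L (nat_lit 9359840)))
(S (nat_lit 25421) (S (nat_lit 46161) (S (nat_lit 19830) (L (nat_lit 6475161))
(L (nat_lit 15881127)))
(L (nat_lit 18633920)))
(S (nat_lit 45185) (S (nat_lit 1232) (L (nat_lit 5723047))
(L (nat_lit 8994688)))
(L (nat_lit 25645410)))))
(S (nat_lit 31946) (S (nat_lit 1775) (S (nat_lit 27593) (S (nat_lit 21053) (L (nat_lit 17900157))
(L (nat_lit 21201305)))
(L (nat_lit 24316473)))
(S (nat_lit 21539) (S (nat_lit 10542) (L (nat_lit 4988308))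
(S (nat_lit 32417) (S (nat_lit 31931) (S (nat_lit 15332) (L (nat_lit 6312751))
(L (nat_lit 24914309)))
(L (nat_lit 19161472)))
(L (nat_lit 384409))))
(S (nat_lit 41303) (S (nat_lit 15332) (S (nat_lit 27593) (L (nat_lit 5532052))
(L (nat_lit 1273363)))
(L (nat_lit 8130964)))
(L (nat_lit 25385105)))))
(S (nat_lit 51710) (S (nat_lit 6143) (S (nat_lit 17070) (S (nat_lit 24168) (S (nat_lit 36835) (S (nat_lit 27542) (L (nat_lit 5126791))
(L (nat_lit 24552320)))
(L (nat_lit 616657)))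
(L (nat_lit 2542502)))
(S (nat_lit 36944) (L (nat_lit 20285229))
(L (nat_lit 11654585))))
(S (nat_lit 25907) (S (nat_lit 32417) (S (nat_lit 21539) (S (nat_lit 31931) (S (nat_lit 52196) (L (nat_lit 3952007))
(L (nat_lit 6898874)))
(L (nat_lit 1914473)))
(L (nat_lit 10607001)))
(L (nat_lit 11141529)))
(S (nat_lit 45671) (S (nat_lit 51059) (L (nat_lit 26225203))
(S (nat_lit 52196) (S (nat_lit 47843) (S (nat_lit 46119) (L (nat_lit 4473464))
(L (nat_lit 4709255)))
(L (nat_lit 7062648)))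
(L (nat_lit 1817944))))
(L (nat_lit 25579843)))))
(L (nat_lit 25614377)))))
(S (nat_lit 30750) (S (nat_lit 17534) (S (nat_lit 15362) (S (nat_lit 12802) (S (nat_lit 19830) (S (nat_lit 48377) (L (nat_lit 3878700))
(L (nat_lit 7016367)))
(L (nat_lit 16459680)))
(S (nat_lit 32924) (S (nat_lit 43932) (S (nat_lit 54854) (S (nat_lit 15383) (S (nat_lit 1289) (S (nat_lit 39580) (S (nat_lit 17071) (S (nat_lit 7829) (L (nat_lit 4509085))
(L (nat_lit 13686663)))
(L (nat_lit 14964645)))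
(L (nat_lit 23369276)))
(L (nat_lit 26302855)))
(L (nat_lit 7255060)))
(L (nat_lit 27512293)))
(L (nat_lit 27577457)))
(L (nat_lit 20724965))))
(S (nat_lit 53811) (L (nat_lit 6305432))
(L (nat_lit 1684829))))
(S (nat_lit 37298) (S (nat_lit 6143) (S (nat_lit 6576) (S (nat_lit 35096) (L (nat_lit 217627))
(L (nat_lit 9498164)))
(L (nat_lit 23293440)))
(S (nat_lit 25907) (S (nat_lit 12182) (S (nat_lit 31931) (S (nat_lit 6591) (L (nat_lit 28590098))
(L (nat_lit 13952736)))
(L (nat_lit 16899385)))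
(S (nat_lit 31946) (S (nat_lit 1289) (S (nat_lit 5591) (L (nat_lit 20062617))
(L (nat_lit 16523872)))
(L (nat_lit 19427431)))
(S (nat_lit 51710) (S (nat_lit 15326) (L (nat_lit 7390873))
(L (nat_lit 22066091)))
(L (nat_lit 25530094)))))
(S (nat_lit 45671) (S (nat_lit 46104) (S (nat_lit 19830) (L (nat_lit 13685510))
(L (nat_lit 16458656)))
(L (nat_lit 20887872)))
(L (nat_lit 25368204)))))
(S (nat_lit 57062) (S (nat_lit 6592) (S (nat_lit 15383) (S (nat_lit 56074) (S (nat_lit 48314) (S (nat_lit 31946) (L (nat_lit 7058584))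
(L (nat_lit 19251104)))
(L (nat_lit 27865285)))
(L (nat_lit 19047996)))
(L (nat_lit 2012404)))
(S (nat_lit 26356) (S (nat_lit 43975) (S (nat_lit 1289) (S (nat_lit 1775) (L (nat_lit 12720856))
(L (nat_lit 11661718)))
(L (nat_lit 26509718)))
(L (nat_lit 12282402)))
(S (nat_lit 46120) (S (nat_lit 67) (S (nat_lit 10936) (S (nat_lit 4404) (L (nat_lit 19366200))
(L (nat_lit 26492018)))
(L (nat_lit 26777650)))
(L (nat_lit 19832911)))
(L (nat_lit 25277751)))))
(L (nat_lit 25896420)))))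
(S (nat_lit 50514) (S (nat_lit 4446) (S (nat_lit 16983) (L (nat_lit 6703936))
(S (nat_lit 56599) (S (nat_lit 66) (S (nat_lit 35147) (S (nat_lit 35090) (S (nat_lit 4404) (S (nat_lit 54839) (S (nat_lit 50529) (S (nat_lit 56575) (S (nat_lit 51) (S (nat_lit 12224) (S (nat_lit 12653) (S (nat_lit 12182) (S (nat_lit 48299) (L (nat_lit 10633913))
(L (nat_lit 14601508)))
(L (nat_lit 3917671)))
(L (nat_lit 21490881)))
(S (nat_lit 31988) (S (nat_lit 31931) (S (nat_lit 30766) (S (nat_lit 22013) (S (nat_lit 16561) (L (nat_lit 17999698))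
(L (nat_lit 24980593)))
(L (nat_lit 18664586)))
(L (nat_lit 31039597)))
(L (nat_lit 16965875)))
(S (nat_lit 51752) (S (nat_lit 36325) (L (nat_lit 5099047))
(L (nat_lit 6347288)))
(L (nat_lit 25866345)))))
(L (nat_lit 26500640)))
(L (nat_lit 3562407)))
(L (nat_lit 13215520)))
(L (nat_lit 19775498)))
(L (nat_lit 26740359)))
(L (nat_lit 20784301)))
(L (nat_lit 20757700)))
(S (nat_lit 52821) (L (nat_lit 6450801))
(L (nat_lit 26361511))))
(L (nat_lit 13850368))))
(S (nat_lit 24210) (S (nat_lit 16545) (S (nat_lit 46104) (L (nat_lit 22808103))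
(L (nat_lit 27664993)))
(S (nat_lit 36309) (S (nat_lit 15332) (S (nat_lit 8810) (S (nat_lit 12710) (L (nat_lit 28322226))
(L (nat_lit 11956931)))
(L (nat_lit 21323951)))
(L (nat_lit 7126629)))
(S (nat_lit 56073) (S (nat_lit 57086) (S (nat_lit 31931) (L (nat_lit 28364171))
(L (nat_lit 24380825)))
(L (nat_lit 27417994)))
(L (nat_lit 25272014)))))
(S (nat_lit 43974) (S (nat_lit 66) (S (nat_lit 33459) (L (nat_lit 11655087))
(L (nat_lit 26980359)))
(S (nat_lit 19830) (L (nat_lit 15503047))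
(S (nat_lit 39594) (S (nat_lit 47357) (S (nat_lit 51710) (S (nat_lit 45605) (L (nat_lit 28392695))
(L (nat_lit 12676710)))
(L (nat_lit 27870400)))
(S (nat_lit 52890) (L (nat_lit 10246256))
(L (nat_lit 616967))))
(L (nat_lit 25344274)))))
(L (nat_lit 25344242)))))
(L (nat_lit 25930112)))))
(L (nat_lit 25724150)))))
(L (nat_lit 25549188)))))
(L (nat_lit 25922954)))))

theorem rb182_1 : run 4 lb182 [] tb182_1 kb182 (P4 4 1473 0 5135 0 0 0 1 0) [] = true := by
  decide +kernel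

noncomputable def tb246_0_14 : Tr :=
(S (nat_lit 54862) (S (nat_lit 1262) (S (nat_lit 17521) (S (nat_lit 30713) (S (nat_lit 8762) (S (nat_lit 1765) (S (nat_lit 40547) (S (nat_lit 48340) (S (nat_lit 1986) (S (nat_lit 41271) (S (nat_lit 10999) (S (nat_lit 20761) (S (nat_lit 37307) (S (nat_lit 57099) (S (nat_lit 40768) (S (nat_lit 1047) (S (nat_lit 35148) (S (nat_lit 15356) (S (nat_lit 50505) (S (nat_lit 39590) (S (nat_lit 41486) (S (nat_lit 28554) (S (nat_lit 986) (S (nat_lit 19669) (S (nat_lit 21755) (S (nat_lit 20778) (S (nat_lit 30774) (S (nat_lit 49125) (S (nat_lit 64) (S (nat_lit 30730) (S (nat_lit 58943) (S (nat_lit 48323) (S (nat_lit 29637) (S (nat_lit 22814) (S (nat_lit 55463) (S (nat_lit 5818) (D (nat_lit 15) (nat_lit 13986932) (nat_lit 19664141) (nat_lit 38923145384))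
(L (nat_lit 31178948)))
(L (nat_lit 28975493)))
(S (nat_lit 25775) (S (nat_lit 15703) (S (nat_lit 6028) (S (nat_lit 23744) (S (nat_lit 46728) (S (nat_lit 6240) (D (nat_lit 13) (nat_lit 29809860) (nat_lit 805385) (nat_lit 3302834276386))
(L (nat_lit 30975652)))
(L (nat_lit 21840938)))
(L (nat_lit 24003939)))
(L (nat_lit 30033091)))
(L (nat_lit 27936101)))
(L (nat_lit 16094969))))
(L (nat_lit 20165722)))
(L (nat_lit 27350474)))
(L (nat_lit 19938680)))
(L (nat_lit 9556912)))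
(L (nat_lit 19261858)))
(L (nat_lit 28880054)))
(L (nat_lit 9229391)))
(L (nat_lit 16515315)))
(L (nat_lit 16515654)))
(L (nat_lit 29963489)))
(S (nat_lit 20750) (S (nat_lit 48338) (S (nat_lit 50510) (S (nat_lit 15681) (S (nat_lit 41260) (S (nat_lit 41472) (S (nat_lit 1763) (S (nat_lit 1975) (S (nat_lit 50197) (S (nat_lit 37409) (S (nat_lit 43302) (S (nat_lit 9805) (S (nat_lit 50213) (D (nat_lit 13) (nat_lit 25381314) (nat_lit 19670191) (nat_lit 245081735266))
(L (nat_lit 29792373)))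
(L (nat_lit 27920939)))
(L (nat_lit 28973442)))
(L (nat_lit 28918052)))
(S (nat_lit 58232) (S (nat_lit 19298) (S (nat_lit 38446) (S (nat_lit 28441) (S (nat_lit 26059) (D (nat_lit 13) (nat_lit 27380079) (nat_lit 25767089) (nat_lit 6743339899043))
(L (nat_lit 4049322)))
(L (nat_lit 27478467)))
(L (nat_lit 27893121)))
(L (nat_lit 27773283)))
(L (nat_lit 1915623))))
(L (nat_lit 12439009)))
(L (nat_lit 5164582)))
(L (nat_lit 17747115)))
(L (nat_lit 23588007)))
(L (nat_lit 10073113)))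
(L (nat_lit 12473892)))
(L (nat_lit 16077573)))
(S (nat_lit 40514) (S (nat_lit 40807) (S (nat_lit 48301) (S (nat_lit 5816) (S (nat_lit 41229) (S (nat_lit 43317) (S (nat_lit 19789) (S (nat_lit 1944) (S (nat_lit 31591) (S (nat_lit 9116) (S (nat_lit 55724) (S (nat_lit 42121) (S (nat_lit 25679) (D (nat_lit 13) (nat_lit 27856241) (nat_lit 4794127) (nat_lit 208345765925))
(L (nat_lit 28919076)))
(L (nat_lit 18782389)))
(L (nat_lit 15552705)))
(L (nat_lit 27865441)))
(S (nat_lit 39653) (S (nat_lit 40241) (S (nat_lit 10803) (S (nat_lit 20819) (D (nat_lit 13) (nat_lit 17833749) (nat_lit 6037070) (nat_lit 5533065054241))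
(L (nat_lit 23994448)))
(L (nat_lit 27842885)))
(L (nat_lit 30096645)))
(L (nat_lit 4878672))))
(L (nat_lit 9856579)))
(L (nat_lit 22424760)))
(L (nat_lit 14742089)))
(L (nat_lit 25078861)))
(L (nat_lit 29764790)))
(L (nat_lit 22981809)))
(L (nat_lit 7885665)))
(L (nat_lit 25793745)))))
(L (nat_lit 30968423)))
(L (nat_lit 9027362)))
(L (nat_lit 18679531)))
(L (nat_lit 20854081)))
(L (nat_lit 276276)))
(L (nat_lit 10106784)))
(L (nat_lit 13891202)))
(L (nat_lit 27689269)))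
(L (nat_lit 21435709)))
(L (nat_lit 17058693)))
(L (nat_lit 21053757)))
(L (nat_lit 16419593)))
(L (nat_lit 27918605)))
(L (nat_lit 3850153)))
(L (nat_lit 16420777)))
(L (nat_lit 1272401)))
(L (nat_lit 4418126)))
(S (nat_lit 28526) (S (nat_lit 21529) (S (nat_lit 40547) (S (nat_lit 24747) (L (nat_lit 26258033))
(L (nat_lit 680327)))
(L (nat_lit 17001027)))
(L (nat_lit 30611022)))
(S (nat_lit 48290) (S (nat_lit 20783) (S (nat_lit 48340) (S (nat_lit 1765) (S (nat_lit 10999) (L (nat_lit 1856935))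
(L (nat_lit 477961)))
(L (nat_lit 26425920)))
(L (nat_lit 27953609)))
(L (nat_lit 214619)))
(L (nat_lit 25838698)))))
(L (nat_lit 3372622)))
(S (nat_lit 37285) (S (nat_lit 1701) (S (nat_lit 17496) (S (nat_lit 10997) (S (nat_lit 21755) (S (nat_lit 48351) (L (nat_lit 12438912))
(L (nat_lit 5628310)))
(L (nat_lit 8053872)))
(S (nat_lit 30761) (S (nat_lit 48307) (S (nat_lit 1215) (S (nat_lit 42) (L (nat_lit 22485176))
(L (nat_lit 19392833)))
(L (nat_lit 20210053)))
(L (nat_lit 20743561)))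
(S (nat_lit 50525) (S (nat_lit 39570) (S (nat_lit 30730) (S (nat_lit 986) (L (nat_lit 9261228))
(L (nat_lit 19699175)))
(L (nat_lit 14419255)))
(S (nat_lit 41187) (L (nat_lit 3397145))
(L (nat_lit 5956940))))
(L (nat_lit 25509013)))))
(S (nat_lit 37260) (S (nat_lit 1215) (S (nat_lit 11101) (L (nat_lit 13832083))
(S (nat_lit 48290) (S (nat_lit 30730) (S (nat_lit 50525) (S (nat_lit 57038) (L (nat_lit 14411946))
(L (nat_lit 10544562)))
(L (nat_lit 11273836)))
(L (nat_lit 9171024)))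
(L (nat_lit 4417101))))
(S (nat_lit 55052) (S (nat_lit 44975) (L (nat_lit 1423960))
(L (nat_lit 10662488)))
(L (nat_lit 6072909))))
(S (nat_lit 57024) (S (nat_lit 15323) (S (nat_lit 54899) (L (nat_lit 14904502))
(L (nat_lit 19013112)))
(S (nat_lit 35087) (S (nat_lit 1003) (S (nat_lit 40547) (S (nat_lit 48290) (S (nat_lit 50488) (S (nat_lit 47) (S (nat_lit 28576) (S (nat_lit 1279) (S (nat_lit 50175) (S (nat_lit 10904) (S (nat_lit 20778) (S (nat_lit 38324) (S (nat_lit 10999) (S (nat_lit 57088) (S (nat_lit 41291) (S (nat_lit 64) (S (nat_lit 30409) (S (nat_lit 8491) (S (nat_lit 27758) (S (nat_lit 51896) (D (nat_lit 15) (nat_lit 12912436) (nat_lit 3421784) (nat_lit 274880009346))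
(L (nat_lit 24605989)))
(L (nat_lit 27842917)))
(S (nat_lit 25992) (S (nat_lit 6209) (S (nat_lit 53228) (S (nat_lit 23364) (S (nat_lit 31095) (S (nat_lit 35894) (D (nat_lit 15) (nat_lit 6182092) (nat_lit 15838994) (nat_lit 240619031809))
(L (nat_lit 28596677)))
(L (nat_lit 22489242)))
(L (nat_lit 27961392)))
(L (nat_lit 22311301)))
(L (nat_lit 27965635)))
(L (nat_lit 3357274))))
(L (nat_lit 27403889)))
(L (nat_lit 20070152)))
(L (nat_lit 9155395)))
(L (nat_lit 10970134)))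
(L (nat_lit 26392201)))
(L (nat_lit 13277275)))
(L (nat_lit 6307699)))
(L (nat_lit 8549965)))
(L (nat_lit 13510836)))
(L (nat_lit 9343567)))
(L (nat_lit 3858952)))
(L (nat_lit 13299754)))
(L (nat_lit 5464471)))
(L (nat_lit 22220184)))
(L (nat_lit 24338819)))
(L (nat_lit 13852853)))
(S (nat_lit 54851) (S (nat_lit 20798) (S (nat_lit 30724) (L (nat_lit 5459789))
(L (nat_lit 19076509)))
(L (nat_lit 21018407)))
(L (nat_lit 25385349)))))
(L (nat_lit 25383951)))))
(S (nat_lit 21465) (S (nat_lit 25) (S (nat_lit 1776) (S (nat_lit 30724) (S (nat_lit 1991) (S (nat_lit 35137) (S (nat_lit 48301) (S (nat_lit 40757) (S (nat_lit 57071) (S (nat_lit 35148) (S (nat_lit 44062) (S (nat_lit 28574) (S (nat_lit 19806) (S (nat_lit 21479) (S (nat_lit 30699) (S (nat_lit 22408) (S (nat_lit 42194) (S (nat_lit 413) (S (nat_lit 4546) (S (nat_lit 17436) (S (nat_lit 10133) (S (nat_lit 43291) (D (nat_lit 13) (nat_lit 30822756) (nat_lit 25765041) (nat_lit 3304041155618))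
(L (nat_lit 15619360)))
(L (nat_lit 30936745)))
(L (nat_lit 30951465)))
(L (nat_lit 31047721)))
(S (nat_lit 18564) (S (nat_lit 57913) (S (nat_lit 41621) (S (nat_lit 6521) (S (nat_lit 52056) (D (nat_lit 13) (nat_lit 30986562) (nat_lit 25767087) (nat_lit 3509159202055))
(L (nat_lit 16583371)))
(L (nat_lit 31071650)))
(L (nat_lit 28747429)))
(L (nat_lit 28913888)))
(L (nat_lit 17569911))))
(L (nat_lit 12673611)))
(L (nat_lit 18919281)))
(L (nat_lit 19130849)))
(L (nat_lit 619976)))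
(L (nat_lit 30686354)))
(L (nat_lit 4038253)))
(L (nat_lit 19966800)))
(L (nat_lit 3815174)))
(L (nat_lit 14770386)))
(L (nat_lit 27854281)))
(L (nat_lit 22221644)))
(L (nat_lit 8905442)))
(L (nat_lit 13687100)))
(L (nat_lit 19083453)))
(L (nat_lit 19100845)))
(S (nat_lit 19789) (S (nat_lit 28537) (S (nat_lit 20993) (S (nat_lit 20767) (S (nat_lit 48290) (S (nat_lit 57038) (L (nat_lit 5454459))
(L (nat_lit 11265444)))
(L (nat_lit 11036228)))
(L (nat_lit 22516093)))
(L (nat_lit 22876528)))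
(L (nat_lit 30618807)))
(S (nat_lit 39553) (S (nat_lit 1003) (S (nat_lit 1229) (S (nat_lit 40547) (L (nat_lit 29373002))
(L (nat_lit 3826057)))
(L (nat_lit 13177212)))
(L (nat_lit 13852853)))
(L (nat_lit 25189710)))))
(S (nat_lit 41229) (S (nat_lit 972) (S (nat_lit 1277) (S (nat_lit 30713) (S (nat_lit 50538) (S (nat_lit 35115) (S (nat_lit 28576) (S (nat_lit 48290) (S (nat_lit 1765) (S (nat_lit 50505) (S (nat_lit 57086) (S (nat_lit 48323) (S (nat_lit 48338) (S (nat_lit 39542) (S (nat_lit 21479) (S (nat_lit 19789) (S (nat_lit 36233) (S (nat_lit 32505) (S (nat_lit 12761) (S (nat_lit 36272) (S (nat_lit 6931) (S (nat_lit 19112) (S (nat_lit 23840) (D (nat_lit 15) (nat_lit 27857387) (nat_lit 25761101) (nat_lit 207403293922))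
(L (nat_lit 27744512)))
(L (nat_lit 27932997)))
(S (nat_lit 25254) (S (nat_lit 42666) (S (nat_lit 57166) (D (nat_lit 15) (nat_lit 28967246) (nat_lit 19666312) (nat_lit 38891721896))
(L (nat_lit 7165317)))
(L (nat_lit 30095652)))
(L (nat_lit 9917530))))
(L (nat_lit 24425282)))
(L (nat_lit 7882877)))
(L (nat_lit 6808694)))
(L (nat_lit 30050793)))
(L (nat_lit 2549109)))
(L (nat_lit 15542454)))
(L (nat_lit 16999510)))
(L (nat_lit 11136421)))
(L (nat_lit 14553802)))
(L (nat_lit 19264900)))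
(L (nat_lit 20755808)))
(L (nat_lit 12800768)))
(L (nat_lit 11036228)))
(L (nat_lit 18008312)))
(L (nat_lit 30487111)))
(L (nat_lit 11276879)))
(L (nat_lit 30455370)))
(L (nat_lit 13551906)))
(S (nat_lit 20736) (S (nat_lit 20979) (S (nat_lit 1765) (L (nat_lit 5452381))
(L (nat_lit 4778567)))
(L (nat_lit 1911372)))
(S (nat_lit 40500) (S (nat_lit 20800) (S (nat_lit 48351) (L (nat_lit 5697095))
(L (nat_lit 27759175)))
(L (nat_lit 244317)))
(L (nat_lit 25507394)))))
(L (nat_lit 25798018)))))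
(S (nat_lit 57049) (S (nat_lit 1975) (S (nat_lit 1986) (S (nat_lit 11010) (S (nat_lit 19811) (S (nat_lit 1246) (S (nat_lit 54851) (S (nat_lit 57024) (S (nat_lit 21041) (S (nat_lit 21054) (S (nat_lit 19806) (S (nat_lit 20736) (S (nat_lit 21479) (S (nat_lit 40743) (S (nat_lit 28512) (S (nat_lit 41260) (S (nat_lit 37335) (S (nat_lit 30699) (S (nat_lit 35148) (S (nat_lit 26684) (S (nat_lit 27533) (S (nat_lit 17953) (S (nat_lit 49140) (S (nat_lit 52056) (D (nat_lit 11) (nat_lit 30953697) (nat_lit 25767022) (nat_lit 106438958151))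
(L (nat_lit 28791074)))
(L (nat_lit 28938698)))
(L (nat_lit 31043909)))
(S (nat_lit 39150) (S (nat_lit 18894) (S (nat_lit 17436) (S (nat_lit 50824) (D (nat_lit 11) (nat_lit 30853222) (nat_lit 25767088) (nat_lit 106473556194))
(L (nat_lit 4082217)))
(L (nat_lit 31175817)))
(L (nat_lit 31174696)))
(L (nat_lit 5490517))))
(L (nat_lit 11448929)))
(L (nat_lit 23213831)))
(L (nat_lit 19743968)))
(L (nat_lit 23212807)))
(L (nat_lit 8867616)))
(L (nat_lit 19405884)))
(L (nat_lit 404061)))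
(L (nat_lit 21048081)))
(L (nat_lit 12170052)))
(L (nat_lit 10141537)))
(L (nat_lit 21063144)))
(L (nat_lit 21501735)))
(L (nat_lit 12250592)))
(L (nat_lit 14322968)))
(L (nat_lit 11179855)))
(L (nat_lit 15379513)))
(S (nat_lit 30774) (S (nat_lit 1014) (S (nat_lit 28587) (S (nat_lit 28574) (L (nat_lit 26904008))
(L (nat_lit 3860906)))
(L (nat_lit 3847484)))
(L (nat_lit 13297704)))
(S (nat_lit 50538) (S (nat_lit 48351) (S (nat_lit 972) (S (nat_lit 50525) (L (nat_lit 5721401))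
(L (nat_lit 11994744)))
(L (nat_lit 19019528)))
(L (nat_lit 14346310)))
(L (nat_lit 25571040)))))
(S (nat_lit 21750) (S (nat_lit 11010) (S (nat_lit 48301) (S (nat_lit 40542) (S (nat_lit 21465) (L (nat_lit 11437490))
(L (nat_lit 21129609)))
(L (nat_lit 1752840)))
(L (nat_lit 13684489)))
(S (nat_lit 30774) (S (nat_lit 21010) (S (nat_lit 21496) (S (nat_lit 50488) (L (nat_lit 11448370))
(L (nat_lit 27760297)))
(L (nat_lit 11178927)))
(L (nat_lit 4893615)))
(S (nat_lit 50538) (S (nat_lit 28526) (S (nat_lit 40562) (L (nat_lit 2967788))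
(L (nat_lit 9489168)))
(L (nat_lit 8446541)))
(L (nat_lit 25316775)))))
(S (nat_lit 41514) (S (nat_lit 41271) (S (nat_lit 1732) (S (nat_lit 1765) (L (nat_lit 20506791))
(L (nat_lit 12801797)))
(S (nat_lit 11568) (L (nat_lit 30547346))
(L (nat_lit 14324551))))
(L (nat_lit 27951657)))
(L (nat_lit 25868485)))))
(S (nat_lit 21739) (S (nat_lit 1969) (S (nat_lit 14) (S (nat_lit 20767) (S (nat_lit 33611) (L (nat_lit 2345744))
(S (nat_lit 40562) (S (nat_lit 21496) (S (nat_lit 41271) (L (nat_lit 13683591))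
(L (nat_lit 27932777)))
(L (nat_lit 5746365)))
(L (nat_lit 1362705))))
(S (nat_lit 57927) (L (nat_lit 5944698))
(L (nat_lit 5960047))))
(S (nat_lit 19778) (S (nat_lit 986) (S (nat_lit 1765) (S (nat_lit 30713) (S (nat_lit 50488) (L (nat_lit 22919239))
(L (nat_lit 4405948)))
(L (nat_lit 18921386)))
(S (nat_lit 4509) (L (nat_lit 1819399))
(L (nat_lit 14549607))))
(S (nat_lit 20750) (S (nat_lit 21465) (L (nat_lit 21011897))
(L (nat_lit 21391497)))
(S (nat_lit 40514) (S (nat_lit 35087) (S (nat_lit 37274) (L (nat_lit 15462692))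
(L (nat_lit 13694570)))
(L (nat_lit 12645994)))
(L (nat_lit 25253072)))))
(S (nat_lit 39542) (S (nat_lit 30730) (S (nat_lit 1765) (S (nat_lit 35115) (L (nat_lit 4476349))
(L (nat_lit 9358752)))
(L (nat_lit 12850965)))
(S (nat_lit 50165) (L (nat_lit 4954894))
(L (nat_lit 19398936))))
(L (nat_lit 25764976)))))
(S (nat_lit 21733) (S (nat_lit 1277) (S (nat_lit 20767) (S (nat_lit 7423) (L (nat_lit 21021448))
(S (nat_lit 57088) (S (nat_lit 20800) (S (nat_lit 54901) (S (nat_lit 57055) (S (nat_lit 20761) (S (nat_lit 54868) (S (nat_lit 19828) (S (nat_lit 19789) (S (nat_lit 30713) (S (nat_lit 28574) (S (nat_lit 28559) (S (nat_lit 7970) (S (nat_lit 41534) (S (nat_lit 54219) (S (nat_lit 35073) (S (nat_lit 50463) (S (nat_lit 48276) (S (nat_lit 21479) (S (nat_lit 39542) (S (nat_lit 21791) (S (nat_lit 9927) (S (nat_lit 41373) (S (nat_lit 57911) (S (nat_lit 54979) (D (nat_lit 13) (nat_lit 30985509) (nat_lit 25726537) (nat_lit 3577878711526))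
(L (nat_lit 28981605)))
(L (nat_lit 9259427)))
(L (nat_lit 19736995)))
(L (nat_lit 29963522)))
(S (nat_lit 50913) (S (nat_lit 52352) (S (nat_lit 17397) (S (nat_lit 9472) (S (nat_lit 20700) (D (nat_lit 13) (nat_lit 30131371) (nat_lit 19369739) (nat_lit 2344081361152))
(L (nat_lit 19834276)))
(L (nat_lit 31044900)))
(L (nat_lit 27929093)))
(L (nat_lit 30095616)))
(L (nat_lit 17706166))))
(L (nat_lit 27481200)))
(L (nat_lit 22882320)))
(L (nat_lit 12283392)))
(L (nat_lit 12283424)))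
(L (nat_lit 2877680)))
(L (nat_lit 22850733)))
(L (nat_lit 806408)))
(L (nat_lit 30782515)))
(L (nat_lit 10237636)))
(L (nat_lit 10279332)))
(L (nat_lit 10172164)))
(L (nat_lit 8806179)))
(L (nat_lit 9295235)))
(L (nat_lit 21797964)))
(L (nat_lit 15279229)))
(L (nat_lit 14753587)))
(L (nat_lit 14012322)))
(L (nat_lit 21291086)))
(L (nat_lit 15060899))))
(L (nat_lit 6469397)))
(S (nat_lit 39906) (S (nat_lit 54868) (L (nat_lit 21532584))
(L (nat_lit 16053859)))
(L (nat_lit 13716733))))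
(S (nat_lit 41497) (S (nat_lit 986) (S (nat_lit 21496) (S (nat_lit 28512) (S (nat_lit 30699) (L (nat_lit 14222247))
(L (nat_lit 3658567)))
(L (nat_lit 3625799)))
(L (nat_lit 10971781)))
(S (nat_lit 20750) (S (nat_lit 1036) (S (nat_lit 48301) (S (nat_lit 39553) (S (nat_lit 1765) (S (nat_lit 1944) (S (nat_lit 57066) (L (nat_lit 28384846))
(L (nat_lit 27571841)))
(L (nat_lit 6075977)))
(L (nat_lit 2877863)))
(L (nat_lit 27312468)))
(L (nat_lit 13684060)))
(S (nat_lit 40408) (S (nat_lit 12274) (L (nat_lit 6149456))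
(L (nat_lit 4974987)))
(L (nat_lit 18919182))))
(S (nat_lit 40514) (S (nat_lit 41276) (S (nat_lit 8812) (L (nat_lit 24273321))
(L (nat_lit 21401352)))
(L (nat_lit 17031747)))
(L (nat_lit 25559415)))))
(L (nat_lit 25549903)))))
(S (nat_lit 41503) (S (nat_lit 15309) (S (nat_lit 8812) (S (nat_lit 15636) (L (nat_lit 5939736))
(S (nat_lit 50525) (S (nat_lit 39570) (S (nat_lit 48338) (S (nat_lit 40547) (S (nat_lit 8748) (S (nat_lit 20761) (S (nat_lit 39553) (S (nat_lit 17560) (S (nat_lit 21755) (S (nat_lit 37274) (S (nat_lit 50488) (S (nat_lit 41291) (S (nat_lit 30774) (S (nat_lit 41547) (S (nat_lit 41425) (S (nat_lit 8795) (S (nat_lit 1701) (S (nat_lit 1081) (S (nat_lit 41408) (S (nat_lit 27649) (S (nat_lit 46497) (S (nat_lit 7863) (D (nat_lit 15) (nat_lit 27924961) (nat_lit 4809098) (nat_lit 1052897))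
(L (nat_lit 28594693)))
(L (nat_lit 19771653)))
(S (nat_lit 47728) (S (nat_lit 24954) (S (nat_lit 54094) (S (nat_lit 45055) (S (nat_lit 47516) (S (nat_lit 44310) (D (nat_lit 13) (nat_lit 26809771) (nat_lit 25761158) (nat_lit 6605900978210))
(L (nat_lit 22920453)))
(L (nat_lit 19341400)))
(L (nat_lit 17737313)))
(L (nat_lit 20473059)))
(L (nat_lit 28919009)))
(L (nat_lit 387506))))
(L (nat_lit 21404698)))
(L (nat_lit 28685461)))
(L (nat_lit 4842797)))
(L (nat_lit 414972)))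
(L (nat_lit 8008449)))
(L (nat_lit 27462130)))
(L (nat_lit 17427527)))
(L (nat_lit 8976065)))
(L (nat_lit 15360169)))
(L (nat_lit 10127897)))
(L (nat_lit 16442536)))
(L (nat_lit 7802675)))
(L (nat_lit 27465423)))
(L (nat_lit 14768998)))
(L (nat_lit 21216033)))
(L (nat_lit 27286919)))
(L (nat_lit 16446789)))
(L (nat_lit 27382093)))
(L (nat_lit 5939022))))
(L (nat_lit 15395848)))
(S (nat_lit 35073) (S (nat_lit 1277) (S (nat_lit 1732) (S (nat_lit 1003) (S (nat_lit 40547) (L (nat_lit 1263511))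
(L (nat_lit 24338851)))
(L (nat_lit 12804736)))
(L (nat_lit 18888522)))
(S (nat_lit 21041) (S (nat_lit 10999) (S (nat_lit 41260) (S (nat_lit 20798) (L (nat_lit 29562449))
(L (nat_lit 30985255)))
(L (nat_lit 27510798)))
(L (nat_lit 18522882)))
(S (nat_lit 40805) (S (nat_lit 17510) (L (nat_lit 8178147))
(S (nat_lit 41425) (L (nat_lit 18915900))
(L (nat_lit 22262876))))
(L (nat_lit 25741538)))))
(S (nat_lit 54837) (S (nat_lit 30699) (S (nat_lit 57024) (S (nat_lit 1246) (S (nat_lit 40547) (L (nat_lit 29855399))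
(L (nat_lit 27925921)))
(L (nat_lit 5464719)))
(L (nat_lit 27319782)))
(S (nat_lit 40840) (L (nat_lit 18919741))
(L (nat_lit 13684956))))
(L (nat_lit 25180375)))))
(L (nat_lit 25408661)))))
(L (nat_lit 25934179)))))
(S (nat_lit 21026) (S (nat_lit 15351) (S (nat_lit 8795) (S (nat_lit 10966) (S (nat_lit 11010) (S (nat_lit 39673) (S (nat_lit 20800) (L (nat_lit 14707271))
(L (nat_lit 15576148)))
(S (nat_lit 41293) (S (nat_lit 20800) (S (nat_lit 15371) (L (nat_lit 291439))
(L (nat_lit 382396)))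
(L (nat_lit 7061317)))
(L (nat_lit 6405721))))
(S (nat_lit 20092) (S (nat_lit 10977) (S (nat_lit 57038) (L (nat_lit 2018670))
(L (nat_lit 21869675)))
(L (nat_lit 1652056)))
(L (nat_lit 1461528))))
(S (nat_lit 30730) (S (nat_lit 1765) (S (nat_lit 8779) (L (nat_lit 26295879))
(L (nat_lit 1948233)))
(S (nat_lit 21529) (S (nat_lit 19811) (S (nat_lit 41472) (S (nat_lit 40807) (L (nat_lit 1613749))
(L (nat_lit 8142404)))
(L (nat_lit 17673795)))
(L (nat_lit 30517686)))
(S (nat_lit 41293) (S (nat_lit 17496) (S (nat_lit 64) (S (nat_lit 21043) (L (nat_lit 27988302))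
(L (nat_lit 1817949)))
(L (nat_lit 769801)))
(L (nat_lit 769799)))
(L (nat_lit 25285934)))))
(S (nat_lit 50494) (S (nat_lit 8812) (S (nat_lit 21527) (L (nat_lit 11254842))
(L (nat_lit 22230137)))
(S (nat_lit 28576) (S (nat_lit 6204) (L (nat_lit 11965330))
(S (nat_lit 21512) (S (nat_lit 8790) (S (nat_lit 57055) (S (nat_lit 11010) (S (nat_lit 1215) (S (nat_lit 19811) (S (nat_lit 1034) (S (nat_lit 54851) (S (nat_lit 50505) (S (nat_lit 19806) (S (nat_lit 35148) (S (nat_lit 37285) (S (nat_lit 57066) (S (nat_lit 3390) (S (nat_lit 22863) (S (nat_lit 45699) (S (nat_lit 24794) (S (nat_lit 15741) (S (nat_lit 39090) (D (nat_lit 15) (nat_lit 25283974) (nat_lit 19664296) (nat_lit 1148199174))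
(L (nat_lit 19328226)))
(L (nat_lit 29997127)))
(S (nat_lit 41200) (S (nat_lit 57396) (S (nat_lit 16707) (D (nat_lit 15) (nat_lit 30888007) (nat_lit 25761162) (nat_lit 109523866792))
(L (nat_lit 29706629)))
(L (nat_lit 16664869)))
(L (nat_lit 29705957))))
(L (nat_lit 28875794)))
(L (nat_lit 15604754)))
(L (nat_lit 9890930)))
(L (nat_lit 21259712)))
(L (nat_lit 9488856)))
(L (nat_lit 12765498)))
(L (nat_lit 15651169)))
(L (nat_lit 10914427)))
(L (nat_lit 16425080)))
(L (nat_lit 4737929)))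
(L (nat_lit 22307856)))
(L (nat_lit 11081113)))
(L (nat_lit 8279456)))
(L (nat_lit 14965884)))
(S (nat_lit 36434) (L (nat_lit 11016018))
(L (nat_lit 21284025))))
(L (nat_lit 21300665))))
(S (nat_lit 48340) (S (nat_lit 21512) (S (nat_lit 57038) (S (nat_lit 57088) (L (nat_lit 210838))
(L (nat_lit 10947510)))
(L (nat_lit 5101995)))
(L (nat_lit 21202361)))
(L (nat_lit 25790984)))))
(L (nat_lit 25712744)))))
(S (nat_lit 28559) (S (nat_lit 10966) (S (nat_lit 8790) (S (nat_lit 20800) (S (nat_lit 11010) (S (nat_lit 54899) (L (nat_lit 22440039))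
(L (nat_lit 11141560)))
(L (nat_lit 7263649)))
(L (nat_lit 31168928)))
(S (nat_lit 28554) (S (nat_lit 10977) (S (nat_lit 21512) (S (nat_lit 40500) (L (nat_lit 618920))
(L (nat_lit 7424445)))
(L (nat_lit 16680246)))
(L (nat_lit 21399929)))
(S (nat_lit 48318) (S (nat_lit 20800) (S (nat_lit 20979) (L (nat_lit 4507479))
(L (nat_lit 16011139)))
(L (nat_lit 21856590)))
(L (nat_lit 25255399)))))
(S (nat_lit 30730) (S (nat_lit 10960) (S (nat_lit 37302) (S (nat_lit 20767) (S (nat_lit 972) (L (nat_lit 30524791))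
(L (nat_lit 13378114)))
(L (nat_lit 21457062)))
(S (nat_lit 47875) (S (nat_lit 41472) (L (nat_lit 29789394))
(L (nat_lit 7247283)))
(L (nat_lit 30838343))))
(S (nat_lit 30724) (S (nat_lit 10999) (S (nat_lit 972) (L (nat_lit 30610867))
(L (nat_lit 18948504)))
(S (nat_lit 26544) (L (nat_lit 31109255))
(L (nat_lit 8055266))))
(S (nat_lit 50488) (S (nat_lit 17538) (L (nat_lit 13724021))
(L (nat_lit 1370703)))
(L (nat_lit 25831875)))))
(S (nat_lit 50494) (S (nat_lit 1991) (S (nat_lit 40807) (S (nat_lit 1215) (S (nat_lit 11010) (S (nat_lit 20736) (S (nat_lit 15340) (S (nat_lit 1726) (S (nat_lit 39592) (S (nat_lit 37307) (S (nat_lit 21770) (S (nat_lit 48351) (S (nat_lit 8773) (S (nat_lit 31648) (S (nat_lit 37102) (S (nat_lit 8465) (S (nat_lit 18439) (S (nat_lit 3562) (D (nat_lit 15) (nat_lit 27777161) (nat_lit 19666189) (nat_lit 38889622630))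
(L (nat_lit 29078820)))
(L (nat_lit 31045858)))
(S (nat_lit 30055) (S (nat_lit 57396) (S (nat_lit 47244) (D (nat_lit 15) (nat_lit 28791041) (nat_lit 19063178) (nat_lit 38891721896))
(L (nat_lit 29707717)))
(L (nat_lit 16664869)))
(L (nat_lit 20775153))))
(L (nat_lit 782730)))
(L (nat_lit 29821303)))
(L (nat_lit 15486307)))
(L (nat_lit 14346528)))
(L (nat_lit 30674672)))
(L (nat_lit 3427148)))
(L (nat_lit 4963580)))
(L (nat_lit 12657557)))
(L (nat_lit 15538291)))
(L (nat_lit 16589410)))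
(L (nat_lit 8279456)))
(L (nat_lit 19271001)))
(L (nat_lit 27508289)))
(S (nat_lit 56946) (S (nat_lit 21512) (L (nat_lit 11436654))
(L (nat_lit 11437495)))
(L (nat_lit 10322359))))
(L (nat_lit 25757097)))))
(S (nat_lit 48323) (S (nat_lit 8748) (S (nat_lit 1246) (S (nat_lit 50510) (S (nat_lit 20800) (S (nat_lit 57049) (L (nat_lit 13282456))
(L (nat_lit 5466768)))
(L (nat_lit 16619669)))
(L (nat_lit 22339598)))
(S (nat_lit 21010) (S (nat_lit 17496) (S (nat_lit 20800) (S (nat_lit 21512) (L (nat_lit 23093638))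
(L (nat_lit 22250905)))
(L (nat_lit 15505557)))
(L (nat_lit 1874673)))
(S (nat_lit 40774) (S (nat_lit 17496) (S (nat_lit 15309) (S (nat_lit 8823) (S (nat_lit 57086) (L (nat_lit 15748999))
(L (nat_lit 12015428)))
(L (nat_lit 15036534)))
(L (nat_lit 26412501)))
(L (nat_lit 7061281)))
(L (nat_lit 25307822)))))
(S (nat_lit 28512) (S (nat_lit 20761) (S (nat_lit 21512) (S (nat_lit 17538) (S (nat_lit 50510) (S (nat_lit 57049) (S (nat_lit 21507) (S (nat_lit 21021) (S (nat_lit 39603) (S (nat_lit 41293) (S (nat_lit 21783) (S (nat_lit 41497) (S (nat_lit 37322) (S (nat_lit 41486) (S (nat_lit 35137) (S (nat_lit 8634) (S (nat_lit 37335) (S (nat_lit 21614) (S (nat_lit 1554) (S (nat_lit 36234) (S (nat_lit 12251) (S (nat_lit 35779) (S (nat_lit 9394) (D (nat_lit 13) (nat_lit 27481508) (nat_lit 25759179) (nat_lit 207440876581))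
(L (nat_lit 28749476)))
(L (nat_lit 22919523)))
(L (nat_lit 28431849)))
(L (nat_lit 22975944)))
(L (nat_lit 28726529)))
(S (nat_lit 47244) (S (nat_lit 17953) (S (nat_lit 52994) (S (nat_lit 51794) (S (nat_lit 19380) (S (nat_lit 39920) (D (nat_lit 13) (nat_lit 30462156) (nat_lit 25760972) (nat_lit 3408327154821))
(L (nat_lit 29074914)))
(L (nat_lit 30787599)))
(L (nat_lit 28911045)))
(L (nat_lit 28723424)))
(L (nat_lit 31043909)))
(L (nat_lit 1332731))))
(L (nat_lit 30788097)))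
(L (nat_lit 29071405)))
(L (nat_lit 30748694)))
(L (nat_lit 17159040)))
(L (nat_lit 31081829)))
(L (nat_lit 27656404)))
(L (nat_lit 22855909)))
(L (nat_lit 27316647)))
(L (nat_lit 17161088)))
(L (nat_lit 22059820)))
(L (nat_lit 22250284)))
(L (nat_lit 14936246)))
(L (nat_lit 14805237)))
(L (nat_lit 22299520)))
(S (nat_lit 45470) (L (nat_lit 4503160))
(L (nat_lit 15756599))))
(S (nat_lit 58383) (S (nat_lit 31355) (L (nat_lit 22351760))
(L (nat_lit 289237)))
(L (nat_lit 16014176))))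
(S (nat_lit 48276) (S (nat_lit 1014) (S (nat_lit 1986) (S (nat_lit 57049) (S (nat_lit 57086) (L (nat_lit 16684339))
(L (nat_lit 19340472)))
(L (nat_lit 15583401)))
(L (nat_lit 13685643)))
(S (nat_lit 20778) (S (nat_lit 21755) (S (nat_lit 54899) (S (nat_lit 21527) (L (nat_lit 11065501))
(L (nat_lit 22555771)))
(L (nat_lit 11141903)))
(L (nat_lit 11201952)))
(S (nat_lit 40542) (S (nat_lit 40807) (S (nat_lit 21783) (L (nat_lit 22048973))
(L (nat_lit 4417010)))
(L (nat_lit 27788628)))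
(L (nat_lit 25172530)))))
(L (nat_lit 25384976)))))
(L (nat_lit 25242319)))))
(S (nat_lit 35115) (S (nat_lit 15371) (S (nat_lit 1944) (S (nat_lit 41519) (S (nat_lit 1279) (S (nat_lit 40743) (S (nat_lit 39575) (S (nat_lit 19828) (S (nat_lit 75) (S (nat_lit 39542) (S (nat_lit 2006) (S (nat_lit 41497) (S (nat_lit 12626) (L (nat_lit 12667750))
(S (nat_lit 32282) (L (nat_lit 6374166))
(S (nat_lit 37302) (L (nat_lit 16583367))
(L (nat_lit 20876742)))))
(L (nat_lit 27435573)))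
(S (nat_lit 21770) (S (nat_lit 41514) (S (nat_lit 1969) (S (nat_lit 10977) (S (nat_lit 30724) (S (nat_lit 30713) (L (nat_lit 2666170))
(L (nat_lit 10312780)))
(L (nat_lit 19738760)))
(S (nat_lit 30741) (S (nat_lit 8790) (L (nat_lit 28455188))
(L (nat_lit 15573665)))
(S (nat_lit 50505) (L (nat_lit 4596596))
(L (nat_lit 25765039)))))
(L (nat_lit 13391943)))
(L (nat_lit 27928653)))
(S (nat_lit 41534) (S (nat_lit 21733) (S (nat_lit 20993) (S (nat_lit 54868) (S (nat_lit 1986) (S (nat_lit 15356) (S (nat_lit 35073) (S (nat_lit 15323) (S (nat_lit 1246) (S (nat_lit 40785) (S (nat_lit 1240) (S (nat_lit 2019) (S (nat_lit 5937) (S (nat_lit 57472) (S (nat_lit 9428) (L (nat_lit 3357340))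
(L (nat_lit 10643021)))
(L (nat_lit 8545869)))
(S (nat_lit 29678) (S (nat_lit 20767) (S (nat_lit 35167) (S (nat_lit 45988) (L (nat_lit 5521147))
(L (nat_lit 6878819)))
(L (nat_lit 15955555)))
(L (nat_lit 11561614)))
(S (nat_lit 50463) (S (nat_lit 30713) (S (nat_lit 10999) (S (nat_lit 50538) (S (nat_lit 20767) (S (nat_lit 40514) (S (nat_lit 1748) (S (nat_lit 41293) (S (nat_lit 21507) (S (nat_lit 21540) (S (nat_lit 12114) (S (nat_lit 16386) (S (nat_lit 1632) (S (nat_lit 51419) (S (nat_lit 21833) (S (nat_lit 31591) (S (nat_lit 28554) (S (nat_lit 17527) (S (nat_lit 37454) (S (nat_lit 43638) (D (nat_lit 13) (nat_lit 31077571) (nat_lit 14869065) (nat_lit 172945968358))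
(L (nat_lit 22539523)))
(L (nat_lit 22988033)))
(L (nat_lit 22920451)))
(S (nat_lit 46443) (S (nat_lit 29404) (S (nat_lit 18612) (D (nat_lit 15) (nat_lit 29861504) (nat_lit 4645170) (nat_lit 145063215170))
(L (nat_lit 28915012)))
(L (nat_lit 21438552)))
(L (nat_lit 12907670))))
(L (nat_lit 3023501)))
(L (nat_lit 24348465)))
(L (nat_lit 17077912)))
(L (nat_lit 23443576)))
(L (nat_lit 23602296)))
(S (nat_lit 19545) (S (nat_lit 52813) (S (nat_lit 58883) (S (nat_lit 10914) (S (nat_lit 19584) (S (nat_lit 27408) (S (nat_lit 37857) (S (nat_lit 465) (S (nat_lit 40462) (S (nat_lit 20861) (S (nat_lit 32638) (D (nat_lit 13) (nat_lit 9462380) (nat_lit 8951570) (nat_lit 4677387427842))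
(L (nat_lit 21805281)))
(L (nat_lit 26884321)))
(L (nat_lit 26884320)))
(S (nat_lit 51529) (S (nat_lit 48290) (S (nat_lit 45745) (D (nat_lit 15) (nat_lit 26811907) (nat_lit 11276881) (nat_lit 106441114882))
(L (nat_lit 16590532)))
(L (nat_lit 27936036)))
(L (nat_lit 11440877))))
(L (nat_lit 19831205)))
(L (nat_lit 22031277)))
(L (nat_lit 28914859)))
(L (nat_lit 16012165)))
(L (nat_lit 28907936)))
(L (nat_lit 20886720)))
(S (nat_lit 38663) (S (nat_lit 3397) (S (nat_lit 5471) (S (nat_lit 25254) (S (nat_lit 42666) (S (nat_lit 19647) (S (nat_lit 41953) (S (nat_lit 19927) (S (nat_lit 3544) (S (nat_lit 840) (S (nat_lit 45523) (D (nat_lit 15) (nat_lit 29006209) (nat_lit 17582086) (nat_lit 274911527973))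
(L (nat_lit 29740512)))
(L (nat_lit 27961824)))
(L (nat_lit 28031201)))
(S (nat_lit 38359) (S (nat_lit 34781) (S (nat_lit 46437) (D (nat_lit 15) (nat_lit 25803942) (nat_lit 1466955) (nat_lit 77510971458))
(L (nat_lit 12806757)))
(L (nat_lit 27899104)))
(L (nat_lit 7975749))))
(L (nat_lit 21474176)))
(L (nat_lit 29499895)))
(L (nat_lit 11662834)))
(L (nat_lit 9565682)))
(L (nat_lit 11720620)))
(L (nat_lit 9565868)))
(L (nat_lit 1814809)))))
(L (nat_lit 22548233)))
(L (nat_lit 22503531)))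
(L (nat_lit 27820647)))
(L (nat_lit 19744099)))
(L (nat_lit 27868515)))
(S (nat_lit 45305) (S (nat_lit 56257) (S (nat_lit 31815) (L (nat_lit 2343545))
(L (nat_lit 26850626)))
(L (nat_lit 26849538)))
(L (nat_lit 22028760))))
(L (nat_lit 22362912)))
(L (nat_lit 6773818)))
(L (nat_lit 17037029)))
(L (nat_lit 27318479)))))
(L (nat_lit 12290924)))
(L (nat_lit 5850427)))
(L (nat_lit 24577864)))
(L (nat_lit 13486219)))
(L (nat_lit 17606340)))
(L (nat_lit 12814074)))
(L (nat_lit 22909450)))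
(L (nat_lit 12741323)))
(L (nat_lit 16554691)))
(L (nat_lit 16086166)))
(L (nat_lit 21830180)))
(L (nat_lit 25923078)))))
(L (nat_lit 12139608)))
(L (nat_lit 19252312)))
(L (nat_lit 21302712)))
(L (nat_lit 4480440)))
(L (nat_lit 25076133)))
(L (nat_lit 26936742)))
(L (nat_lit 27934888)))
(S (nat_lit 21708) (S (nat_lit 10966) (L (nat_lit 17833561))
(L (nat_lit 7070115)))
(S (nat_lit 41472) (S (nat_lit 19828) (S (nat_lit 10966) (L (nat_lit 3731015))
(L (nat_lit 1940048)))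
(L (nat_lit 31170978)))
(L (nat_lit 25473203)))))
(S (nat_lit 35135) (S (nat_lit 15309) (S (nat_lit 15384) (S (nat_lit 40547) (S (nat_lit 50494) (S (nat_lit 21527) (S (nat_lit 41293) (S (nat_lit 30713) (S (nat_lit 20761) (L (nat_lit 11551539))
(L (nat_lit 30805301)))
(L (nat_lit 16818779)))
(L (nat_lit 27795008)))
(L (nat_lit 16476262)))
(L (nat_lit 15500567)))
(S (nat_lit 41437) (L (nat_lit 22569067))
(L (nat_lit 1532487))))
(S (nat_lit 35148) (S (nat_lit 1240) (S (nat_lit 35215) (L (nat_lit 11338383))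
(L (nat_lit 10978904)))
(S (nat_lit 56735) (S (nat_lit 21512) (L (nat_lit 18781766))
(L (nat_lit 21923238)))
(L (nat_lit 20758598))))
(S (nat_lit 54912) (S (nat_lit 19806) (S (nat_lit 1975) (S (nat_lit 39603) (S (nat_lit 15356) (S (nat_lit 39592) (S (nat_lit 21010) (L (nat_lit 8950523))
(L (nat_lit 6436536)))
(L (nat_lit 12291513)))
(L (nat_lit 26323695)))
(L (nat_lit 27640481)))
(L (nat_lit 3400334)))
(L (nat_lit 22143526)))
(L (nat_lit 25506901)))))
(S (nat_lit 35073) (S (nat_lit 10935) (S (nat_lit 21479) (S (nat_lit 8812) (L (nat_lit 10256823))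
(L (nat_lit 2008716)))
(L (nat_lit 31006177)))
(S (nat_lit 30699) (S (nat_lit 17683) (S (nat_lit 20800) (L (nat_lit 16665921))
(L (nat_lit 21862816)))
(S (nat_lit 48290) (S (nat_lit 57038) (L (nat_lit 22230202))
(L (nat_lit 21196908)))
(L (nat_lit 4409754))))
(S (nat_lit 50463) (S (nat_lit 41293) (S (nat_lit 41254) (S (nat_lit 50494) (S (nat_lit 8748) (L (nat_lit 2309724))
(L (nat_lit 23076622)))
(L (nat_lit 27526733)))
(L (nat_lit 24025134)))
(L (nat_lit 24909223)))
(L (nat_lit 25887270)))))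
(S (nat_lit 54837) (S (nat_lit 64) (S (nat_lit 21043) (S (nat_lit 41293) (L (nat_lit 5618264))
(L (nat_lit 1798570)))
(L (nat_lit 16549451)))
(S (nat_lit 19828) (S (nat_lit 41519) (L (nat_lit 16916061))
(L (nat_lit 663992)))
(S (nat_lit 39592) (S (nat_lit 8779) (S (nat_lit 41293) (L (nat_lit 553545))
(L (nat_lit 6353487)))
(S (nat_lit 51375) (L (nat_lit 14823003))
(L (nat_lit 17663560))))
(L (nat_lit 25351592)))))
(L (nat_lit 25395888)))))
(S (nat_lit 54899) (S (nat_lit 1014) (S (nat_lit 1763) (S (nat_lit 23337) (L (nat_lit 7965084))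
(S (nat_lit 39542) (S (nat_lit 50510) (S (nat_lit 10999) (S (nat_lit 48323) (L (nat_lit 4889081))
(L (nat_lit 28020975)))
(L (nat_lit 16115730)))
(L (nat_lit 10571256)))
(L (nat_lit 11555728))))
(S (nat_lit 21527) (S (nat_lit 15323) (S (nat_lit 50538) (S (nat_lit 40547) (S (nat_lit 10935) (L (nat_lit 22816161))
(L (nat_lit 15786631)))
(L (nat_lit 24340561)))
(L (nat_lit 22176167)))
(S (nat_lit 45258) (L (nat_lit 30787972))
(L (nat_lit 1265053))))
(S (nat_lit 41291) (S (nat_lit 14) (S (nat_lit 28537) (L (nat_lit 7761473))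
(L (nat_lit 19403096)))
(S (nat_lit 40895) (L (nat_lit 30719557))
(L (nat_lit 19073872))))
(L (nat_lit 25374838)))))
(S (nat_lit 20778) (S (nat_lit 17571) (S (nat_lit 21755) (S (nat_lit 41293) (L (nat_lit 10540472))
(L (nat_lit 24909223)))
(L (nat_lit 16538792)))
(S (nat_lit 37335) (S (nat_lit 24995) (L (nat_lit 796146))
(S (nat_lit 50538) (S (nat_lit 48318) (S (nat_lit 21755) (L (nat_lit 6102455))
(L (nat_lit 15887670)))
(L (nat_lit 27855271)))
(L (nat_lit 6044231))))
(S (nat_lit 57099) (S (nat_lit 21755) (S (nat_lit 50538) (L (nat_lit 4628061))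
(L (nat_lit 15477313)))
(L (nat_lit 21491042)))
(L (nat_lit 25540725)))))
(S (nat_lit 40542) (S (nat_lit 972) (S (nat_lit 36728) (L (nat_lit 4546996))
(S (nat_lit 50538) (S (nat_lit 44499) (L (nat_lit 31032655))
(L (nat_lit 16384810)))
(L (nat_lit 4992591))))
(S (nat_lit 20736) (S (nat_lit 25346) (L (nat_lit 16681542))
(S (nat_lit 48307) (S (nat_lit 30730) (L (nat_lit 6769539))
(L (nat_lit 30671440)))
(L (nat_lit 16555586))))
(S (nat_lit 40500) (S (nat_lit 17558) (S (nat_lit 20993) (L (nat_lit 21329038))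
(L (nat_lit 1701232)))
(S (nat_lit 26923) (L (nat_lit 13774425))
(L (nat_lit 17964637))))
(L (nat_lit 25430605)))))
(L (nat_lit 25821421)))))
(L (nat_lit 25599621)))))
(S (nat_lit 54879) (S (nat_lit 10960) (S (nat_lit 1732) (S (nat_lit 8790) (S (nat_lit 50505) (S (nat_lit 19826) (L (nat_lit 8174774))
(L (nat_lit 16620727)))
(L (nat_lit 28033191)))
(S (nat_lit 28554) (S (nat_lit 21755) (L (nat_lit 4437595))
(L (nat_lit 11289782)))
(S (nat_lit 48318) (S (nat_lit 57066) (S (nat_lit 50477) (S (nat_lit 50505) (S (nat_lit 39570) (L (nat_lit 8238262))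
(L (nat_lit 27932839)))
(L (nat_lit 22852775)))
(L (nat_lit 4420019)))
(L (nat_lit 21406907)))
(L (nat_lit 25478816)))))
(S (nat_lit 21496) (S (nat_lit 1726) (S (nat_lit 57088) (S (nat_lit 48340) (L (nat_lit 5452411))
(L (nat_lit 16538665)))
(L (nat_lit 21771305)))
(S (nat_lit 21490) (S (nat_lit 12322) (L (nat_lit 7897877))
(S (nat_lit 19826) (S (nat_lit 21739) (S (nat_lit 10982) (S (nat_lit 10999) (S (nat_lit 20811) (S (nat_lit 21708) (L (nat_lit 31044646))
(L (nat_lit 31010179)))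
(L (nat_lit 22587138)))
(L (nat_lit 6993667)))
(L (nat_lit 6386165)))
(S (nat_lit 28219) (L (nat_lit 10983003))
(L (nat_lit 21935146))))
(L (nat_lit 10021047))))
(S (nat_lit 41254) (S (nat_lit 64) (S (nat_lit 41291) (S (nat_lit 15309) (S (nat_lit 21755) (S (nat_lit 1257) (S (nat_lit 54899) (S (nat_lit 30409) (L (nat_lit 10640796))
(L (nat_lit 14739735)))
(L (nat_lit 4692632)))
(L (nat_lit 5460877)))
(L (nat_lit 5004680)))
(L (nat_lit 24347406)))
(L (nat_lit 27478529)))
(S (nat_lit 12243) (L (nat_lit 9209424))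
(L (nat_lit 13985844))))
(L (nat_lit 25548846)))))
(S (nat_lit 41260) (S (nat_lit 1034) (S (nat_lit 8762) (S (nat_lit 17510) (L (nat_lit 29601906))
(L (nat_lit 15748938)))
(L (nat_lit 20984650)))
(S (nat_lit 20798) (S (nat_lit 17571) (S (nat_lit 8823) (L (nat_lit 5623696))
(L (nat_lit 8057216)))
(L (nat_lit 7828064)))
(S (nat_lit 40562) (S (nat_lit 340) (L (nat_lit 21502045))
(S (nat_lit 20800) (S (nat_lit 17571) (L (nat_lit 315214))
(L (nat_lit 8008512)))
(L (nat_lit 5488532))))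
(L (nat_lit 25921841)))))
(L (nat_lit 25633972)))))
(S (nat_lit 30724) (S (nat_lit 1715) (S (nat_lit 75) (S (nat_lit 1229) (S (nat_lit 57049) (L (nat_lit 14691154))
(L (nat_lit 21173072)))
(L (nat_lit 14422665)))
(S (nat_lit 19839) (S (nat_lit 21755) (S (nat_lit 35148) (S (nat_lit 15373) (S (nat_lit 21043) (S (nat_lit 31867) (S (nat_lit 31579) (L (nat_lit 5583480))
(L (nat_lit 22916482)))
(L (nat_lit 21358977)))
(L (nat_lit 22329533)))
(L (nat_lit 15363298)))
(L (nat_lit 30840423)))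
(L (nat_lit 21458088)))
(S (nat_lit 39603) (S (nat_lit 13320) (L (nat_lit 16689793))
(S (nat_lit 48351) (S (nat_lit 986) (L (nat_lit 26592439))
(L (nat_lit 11123523)))
(L (nat_lit 5066119))))
(L (nat_lit 25314611)))))
(S (nat_lit 21479) (S (nat_lit 15371) (S (nat_lit 20800) (S (nat_lit 32510) (L (nat_lit 4472475))
(S (nat_lit 57049) (S (nat_lit 20993) (L (nat_lit 3390041))
(L (nat_lit 15037494)))
(L (nat_lit 15445827))))
(L (nat_lit 12280224)))
(S (nat_lit 35135) (S (nat_lit 20811) (S (nat_lit 19826) (S (nat_lit 17683) (L (nat_lit 29077670))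
(L (nat_lit 21033325)))
(L (nat_lit 22911152)))
(S (nat_lit 30121) (L (nat_lit 11068598))
(L (nat_lit 16620722))))
(S (nat_lit 54899) (S (nat_lit 21755) (S (nat_lit 21540) (S (nat_lit 21043) (S (nat_lit 21496) (S (nat_lit 47) (S (nat_lit 30741) (S (nat_lit 20778) (S (nat_lit 40547) (S (nat_lit 28537) (L (nat_lit 2307674))
(L (nat_lit 3397112)))
(L (nat_lit 7996824)))
(L (nat_lit 22508770)))
(L (nat_lit 30843488)))
(L (nat_lit 8000272)))
(L (nat_lit 10504974)))
(L (nat_lit 12088501)))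
(L (nat_lit 8088749)))
(L (nat_lit 11452599)))
(L (nat_lit 25592459)))))
(S (nat_lit 41243) (S (nat_lit 1701) (S (nat_lit 21755) (S (nat_lit 62) (S (nat_lit 30741) (S (nat_lit 40575) (S (nat_lit 1748) (S (nat_lit 19839) (S (nat_lit 50494) (L (nat_lit 28748854))
(L (nat_lit 22315449)))
(L (nat_lit 21500678)))
(L (nat_lit 12223933)))
(L (nat_lit 27827842)))
(L (nat_lit 17555622)))
(L (nat_lit 19824976)))
(S (nat_lit 54557) (L (nat_lit 4505179))
(L (nat_lit 14739014))))
(S (nat_lit 21465) (S (nat_lit 591) (L (nat_lit 30805331))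
(S (nat_lit 20979) (S (nat_lit 21708) (S (nat_lit 21529) (S (nat_lit 30761) (S (nat_lit 21331) (L (nat_lit 5616249))
(L (nat_lit 24915362)))
(L (nat_lit 31037612)))
(L (nat_lit 22287768)))
(L (nat_lit 22341804)))
(L (nat_lit 4631443))))
(S (nat_lit 41229) (S (nat_lit 62) (S (nat_lit 8790) (S (nat_lit 17538) (L (nat_lit 9883521))
(L (nat_lit 8227409)))
(L (nat_lit 8227254)))
(S (nat_lit 27504) (L (nat_lit 3710867))
(L (nat_lit 12969142))))
(L (nat_lit 25798052)))))
(L (nat_lit 25795761)))))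
(S (nat_lit 50488) (S (nat_lit 1229) (S (nat_lit 14) (S (nat_lit 21783) (S (nat_lit 1991) (S (nat_lit 20736) (L (nat_lit 7432631))
(L (nat_lit 21373762)))
(L (nat_lit 18913725)))
(S (nat_lit 22091) (L (nat_lit 16377959))
(L (nat_lit 16554629))))
(S (nat_lit 19778) (S (nat_lit 21043) (S (nat_lit 54899) (S (nat_lit 50525) (S (nat_lit 21755) (S (nat_lit 50505) (S (nat_lit 1290) (S (nat_lit 21004) (S (nat_lit 21041) (S (nat_lit 15309) (S (nat_lit 35148) (L (nat_lit 10017947))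
(L (nat_lit 23258502)))
(L (nat_lit 218896)))
(L (nat_lit 22098169)))
(L (nat_lit 22415608)))
(L (nat_lit 19133484)))
(L (nat_lit 14754429)))
(L (nat_lit 16079035)))
(L (nat_lit 15304056)))
(L (nat_lit 16319864)))
(L (nat_lit 15753835)))
(S (nat_lit 39542) (S (nat_lit 19655) (L (nat_lit 22059854))
(S (nat_lit 20800) (S (nat_lit 57071) (S (nat_lit 48323) (L (nat_lit 21258384))
(L (nat_lit 6007258)))
(L (nat_lit 5778106)))
(L (nat_lit 21862784))))
(L (nat_lit 25771300)))))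
(S (nat_lit 20993) (S (nat_lit 15340) (S (nat_lit 48301) (S (nat_lit 20750) (L (nat_lit 16647783))
(L (nat_lit 21048825)))
(L (nat_lit 12280290)))
(S (nat_lit 35104) (S (nat_lit 21479) (S (nat_lit 50525) (S (nat_lit 30774) (S (nat_lit 21043) (S (nat_lit 57049) (L (nat_lit 16058261))
(L (nat_lit 12503426)))
(L (nat_lit 15750493)))
(L (nat_lit 30583537)))
(L (nat_lit 12322197)))
(L (nat_lit 21113617)))
(S (nat_lit 54868) (S (nat_lit 21496) (S (nat_lit 20800) (S (nat_lit 21540) (S (nat_lit 1944) (L (nat_lit 18950926))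
(L (nat_lit 12169401)))
(L (nat_lit 21792201)))
(L (nat_lit 21085003)))
(S (nat_lit 41467) (L (nat_lit 4660052))
(L (nat_lit 15755605))))
(L (nat_lit 25729142)))))
(S (nat_lit 40757) (S (nat_lit 1590) (L (nat_lit 4546382))
(S (nat_lit 19839) (S (nat_lit 21755) (S (nat_lit 21043) (S (nat_lit 21708) (S (nat_lit 50505) (S (nat_lit 15373) (S (nat_lit 54899) (S (nat_lit 40774) (S (nat_lit 10999) (S (nat_lit 41503) (S (nat_lit 19778) (S (nat_lit 15309) (S (nat_lit 10935) (S (nat_lit 1969) (S (nat_lit 40818) (S (nat_lit 1986) (S (nat_lit 47) (S (nat_lit 35104) (S (nat_lit 39570) (S (nat_lit 35087) (S (nat_lit 30713) (S (nat_lit 1257) (S (nat_lit 19719) (S (nat_lit 20099) (S (nat_lit 37637) (L (nat_lit 377468))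
(L (nat_lit 26851683)))
(L (nat_lit 26851521)))
(S (nat_lit 40500) (S (nat_lit 21527) (S (nat_lit 41276) (S (nat_lit 41293) (S (nat_lit 40564) (S (nat_lit 20778) (S (nat_lit 986) (S (nat_lit 24048) (S (nat_lit 15035) (S (nat_lit 45997) (S (nat_lit 5039) (S (nat_lit 34584) (S (nat_lit 4572) (S (nat_lit 42807) (S (nat_lit 16479) (S (nat_lit 48276) (S (nat_lit 56672) (S (nat_lit 30786) (S (nat_lit 36408) (D (nat_lit 15) (nat_lit 6080998) (nat_lit 9616984) (nat_lit 280246845703))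
(L (nat_lit 26941488)))
(L (nat_lit 26941888)))
(L (nat_lit 15519936)))
(L (nat_lit 25835712)))
(S (nat_lit 45743) (S (nat_lit 472) (S (nat_lit 8474) (D (nat_lit 11) (nat_lit 30822475) (nat_lit 25464396) (nat_lit 69209283))
(L (nat_lit 31178979)))
(L (nat_lit 31176997)))
(L (nat_lit 18902350))))
(L (nat_lit 3859662)))
(L (nat_lit 30017743)))
(L (nat_lit 2674906)))
(L (nat_lit 30986314)))
(L (nat_lit 28877411)))
(L (nat_lit 30920931)))
(S (nat_lit 32054) (S (nat_lit 51388) (S (nat_lit 51432) (S (nat_lit 15639) (S (nat_lit 35556) (S (nat_lit 54686) (S (nat_lit 25445) (S (nat_lit 22412) (S (nat_lit 28710) (S (nat_lit 57420) (D (nat_lit 15) (nat_lit 25771205) (nat_lit 11680530) (nat_lit 139593812032))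
(L (nat_lit 22884455)))
(L (nat_lit 28028999)))
(L (nat_lit 28024256)))
(S (nat_lit 53122) (S (nat_lit 28378) (S (nat_lit 8762) (D (nat_lit 13) (nat_lit 25834691) (nat_lit 16042104) (nat_lit 138586262728))
(L (nat_lit 14903379)))
(L (nat_lit 20410657)))
(L (nat_lit 15009686))))
(L (nat_lit 28838132)))
(L (nat_lit 27853222)))
(L (nat_lit 27350384)))
(L (nat_lit 19105551)))
(L (nat_lit 19087104)))
(S (nat_lit 43746) (S (nat_lit 14471) (S (nat_lit 26247) (S (nat_lit 26766) (S (nat_lit 620) (S (nat_lit 8639) (S (nat_lit 48301) (D (nat_lit 11) (nat_lit 27929777) (nat_lit 25479280) (nat_lit 212843298912))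
(L (nat_lit 27743586)))
(L (nat_lit 28033218)))
(S (nat_lit 30654) (S (nat_lit 28730) (S (nat_lit 56672) (S (nat_lit 30786) (S (nat_lit 50603) (D (nat_lit 15) (nat_lit 7129573) (nat_lit 12031576) (nat_lit 137447345155))
(L (nat_lit 21764609)))
(L (nat_lit 26941888)))
(L (nat_lit 15519936)))
(L (nat_lit 21807297)))
(L (nat_lit 16021184))))
(L (nat_lit 21936323)))
(L (nat_lit 7231937)))
(L (nat_lit 14879325)))
(L (nat_lit 900467)))))
(L (nat_lit 19295427)))
(L (nat_lit 31069706)))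
(L (nat_lit 23618635)))
(L (nat_lit 23618634)))
(L (nat_lit 23536545)))
(L (nat_lit 31142081)))
(L (nat_lit 27527789))))
(L (nat_lit 5624716)))
(L (nat_lit 16977497)))
(L (nat_lit 23323013)))
(L (nat_lit 23553159)))
(L (nat_lit 23855496)))
(L (nat_lit 26514838)))
(L (nat_lit 5942156)))
(L (nat_lit 10193403)))
(L (nat_lit 5849991)))
(L (nat_lit 7128118)))
(L (nat_lit 7134256)))
(L (nat_lit 16321450)))
(L (nat_lit 27930663)))
(L (nat_lit 1400624)))
(L (nat_lit 27740198)))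
(L (nat_lit 10638778)))
(L (nat_lit 1394486)))
(L (nat_lit 11241883)))
(L (nat_lit 22213033)))
(L (nat_lit 12439969)))
(L (nat_lit 16701792)))
(L (nat_lit 21860621))))
(L (nat_lit 25762274)))))
(L (nat_lit 25368023)))))
(L (nat_lit 25283918)))))
(S (nat_lit 40790) (S (nat_lit 15323) (S (nat_lit 17560) (S (nat_lit 1776) (S (nat_lit 1975) (S (nat_lit 48301) (S (nat_lit 10999) (S (nat_lit 41472) (L (nat_lit 14454377))
(L (nat_lit 3067305)))
(L (nat_lit 26577394)))
(L (nat_lit 27929058)))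
(S (nat_lit 21739) (S (nat_lit 41534) (S (nat_lit 20767) (S (nat_lit 10999) (S (nat_lit 41291) (S (nat_lit 21010) (S (nat_lit 48301) (S (nat_lit 1014) (S (nat_lit 21529) (S (nat_lit 15356) (S (nat_lit 75) (S (nat_lit 40805) (S (nat_lit 50505) (S (nat_lit 42) (S (nat_lit 41599) (S (nat_lit 39575) (S (nat_lit 30713) (S (nat_lit 40562) (S (nat_lit 17527) (S (nat_lit 23340) (S (nat_lit 44289) (S (nat_lit 37691) (S (nat_lit 30887) (D (nat_lit 11) (nat_lit 26886314) (nat_lit 18989835) (nat_lit 173016129))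
(L (nat_lit 27479425)))
(L (nat_lit 27478400)))
(L (nat_lit 19739877)))
(S (nat_lit 55222) (S (nat_lit 45222) (S (nat_lit 2900) (S (nat_lit 450) (S (nat_lit 11827) (D (nat_lit 9) (nat_lit 31104547) (nat_lit 25348489) (nat_lit 278169552096))
(L (nat_lit 29413931)))
(L (nat_lit 29830226)))
(L (nat_lit 30839402)))
(L (nat_lit 28913857)))
(L (nat_lit 17370460))))
(L (nat_lit 16604450)))
(L (nat_lit 28019241)))
(L (nat_lit 19073563)))
(L (nat_lit 10969110)))
(L (nat_lit 1750888)))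
(L (nat_lit 19336102)))
(L (nat_lit 15606932)))
(L (nat_lit 8073986)))
(L (nat_lit 1983143)))
(L (nat_lit 7925812)))
(L (nat_lit 30621280)))
(L (nat_lit 8907490)))
(L (nat_lit 16408930)))
(L (nat_lit 22229761)))
(L (nat_lit 1264465)))
(L (nat_lit 23531273)))
(L (nat_lit 14688952)))
(L (nat_lit 27472919)))
(S (nat_lit 41503) (S (nat_lit 1743) (S (nat_lit 21708) (S (nat_lit 1257) (L (nat_lit 22160856))
(L (nat_lit 18935021)))
(L (nat_lit 16664745)))
(L (nat_lit 9956466)))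
(L (nat_lit 25660757)))))
(S (nat_lit 21540) (S (nat_lit 9857) (S (nat_lit 601) (L (nat_lit 30708147))
(L (nat_lit 15393092)))
(S (nat_lit 10935) (S (nat_lit 8779) (S (nat_lit 25) (S (nat_lit 15309) (S (nat_lit 21479) (L (nat_lit 15630951))
(L (nat_lit 21405441)))
(L (nat_lit 24348430)))
(L (nat_lit 13424963)))
(S (nat_lit 12613) (L (nat_lit 15803994))
(L (nat_lit 14967362))))
(L (nat_lit 252687))))
(S (nat_lit 41304) (S (nat_lit 1743) (S (nat_lit 20736) (S (nat_lit 48301) (L (nat_lit 16394114))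
(L (nat_lit 22918281)))
(L (nat_lit 15296770)))
(S (nat_lit 21507) (L (nat_lit 8042338))
(S (nat_lit 41271) (S (nat_lit 20736) (S (nat_lit 10999) (L (nat_lit 14706931))
(L (nat_lit 23531273)))
(S (nat_lit 37697) (S (nat_lit 6644) (L (nat_lit 18488194))
(L (nat_lit 24371248)))
(L (nat_lit 22309282))))
(L (nat_lit 25854505)))))
(L (nat_lit 25222381)))))
(S (nat_lit 37324) (S (nat_lit 997) (S (nat_lit 1014) (S (nat_lit 41276) (S (nat_lit 41519) (L (nat_lit 4891033))
(L (nat_lit 24600930)))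
(L (nat_lit 27744609)))
(S (nat_lit 20778) (S (nat_lit 17527) (S (nat_lit 21021) (L (nat_lit 21097897))
(L (nat_lit 4407002)))
(L (nat_lit 22905133)))
(S (nat_lit 40542) (S (nat_lit 57038) (L (nat_lit 22375534))
(L (nat_lit 27473012)))
(L (nat_lit 25629939)))))
(S (nat_lit 20761) (S (nat_lit 62) (S (nat_lit 20893) (L (nat_lit 246520))
(S (nat_lit 40575) (S (nat_lit 17510) (S (nat_lit 50488) (L (nat_lit 13864786))
(L (nat_lit 13328738)))
(L (nat_lit 224690)))
(L (nat_lit 7920829))))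
(S (nat_lit 19826) (S (nat_lit 21750) (S (nat_lit 37180) (L (nat_lit 8110237))
(L (nat_lit 7897853)))
(L (nat_lit 22251372)))
(S (nat_lit 39590) (S (nat_lit 35115) (S (nat_lit 15356) (S (nat_lit 35148) (S (nat_lit 21733) (S (nat_lit 1290) (S (nat_lit 30746) (S (nat_lit 50505) (S (nat_lit 20800) (S (nat_lit 75) (S (nat_lit 1014) (S (nat_lit 1944) (S (nat_lit 972) (S (nat_lit 30793) (S (nat_lit 35068) (S (nat_lit 8146) (S (nat_lit 44013) (S (nat_lit 48904) (S (nat_lit 13796) (S (nat_lit 13553) (S (nat_lit 3143) (D (nat_lit 11) (nat_lit 31036783) (nat_lit 25610409) (nat_lit 244813171971))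
(L (nat_lit 31142149)))
(L (nat_lit 29610531)))
(L (nat_lit 29610530)))
(L (nat_lit 15552802)))
(L (nat_lit 19809538)))
(S (nat_lit 48613) (S (nat_lit 19117) (S (nat_lit 18388) (S (nat_lit 7141) (S (nat_lit 48741) (S (nat_lit 14768) (D (nat_lit 11) (nat_lit 25762828) (nat_lit 19674467) (nat_lit 176301375680))
(L (nat_lit 30840980)))
(L (nat_lit 19369798)))
(L (nat_lit 28532164)))
(L (nat_lit 30989634)))
(L (nat_lit 30989666)))
(L (nat_lit 28558391))))
(L (nat_lit 379825)))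
(L (nat_lit 28335624)))
(L (nat_lit 19206924)))
(L (nat_lit 10039481)))
(L (nat_lit 20388738)))
(L (nat_lit 1439186)))
(L (nat_lit 30658944)))
(L (nat_lit 14961472)))
(L (nat_lit 2699515)))
(L (nat_lit 20155245)))
(L (nat_lit 30589674)))
(L (nat_lit 30586471)))
(L (nat_lit 7419668)))
(L (nat_lit 10243248)))
(L (nat_lit 25708868)))))
(S (nat_lit 40525) (S (nat_lit 10999) (S (nat_lit 10977) (S (nat_lit 28526) (L (nat_lit 16393338))
(L (nat_lit 9898745)))
(S (nat_lit 49694) (L (nat_lit 7428909))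
(L (nat_lit 7933336))))
(S (nat_lit 30763) (S (nat_lit 21439) (L (nat_lit 9451224))
(S (nat_lit 35148) (S (nat_lit 41534) (S (nat_lit 21529) (S (nat_lit 1715) (L (nat_lit 22851778))
(L (nat_lit 20749795)))
(L (nat_lit 6149422)))
(L (nat_lit 23602264)))
(L (nat_lit 2930279))))
(S (nat_lit 50527) (S (nat_lit 57071) (S (nat_lit 21479) (L (nat_lit 22210768))
(L (nat_lit 22110696)))
(L (nat_lit 27890924)))
(L (nat_lit 25346263)))))
(L (nat_lit 25239093)))))
(S (nat_lit 57088) (S (nat_lit 10966) (S (nat_lit 15371) (S (nat_lit 8773) (S (nat_lit 21529) (S (nat_lit 8779) (S (nat_lit 10999) (S (nat_lit 41519) (S (nat_lit 19828) (S (nat_lit 21010) (S (nat_lit 1743) (S (nat_lit 41291) (S (nat_lit 52501) (S (nat_lit 54868) (S (nat_lit 15356) (S (nat_lit 50538) (S (nat_lit 972) (S (nat_lit 48351) (S (nat_lit 35073) (S (nat_lit 8146) (S (nat_lit 33351) (S (nat_lit 57409) (S (nat_lit 39755) (D (nat_lit 9) (nat_lit 7210574) (nat_lit 17372937) (nat_lit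 2217777216))
(L (nat_lit 22573251)))
(L (nat_lit 28907905)))
(L (nat_lit 27865411)))
(S (nat_lit 31130) (S (nat_lit 19079) (S (nat_lit 16163) (S (nat_lit 9439) (S (nat_lit 53374) (S (nat_lit 26651) (D (nat_lit 9) (nat_lit 26879119) (nat_lit 19672485) (nat_lit 281326787685))
(L (nat_lit 28531073)))
(L (nat_lit 29957198)))
(L (nat_lit 29962313)))
(L (nat_lit 27898085)))
(L (nat_lit 27899077)))
(L (nat_lit 4017518))))
(L (nat_lit 3677015)))
(L (nat_lit 11190145)))
(L (nat_lit 11323812)))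
(L (nat_lit 11954262)))
(L (nat_lit 24211663)))
(L (nat_lit 5028457)))
(L (nat_lit 24133513)))
(L (nat_lit 8933187)))
(L (nat_lit 20408580)))
(L (nat_lit 14895261)))
(L (nat_lit 15585474)))
(L (nat_lit 9208401)))
(L (nat_lit 23554089)))
(L (nat_lit 15434569)))
(L (nat_lit 14882424)))
(L (nat_lit 8131058)))
(S (nat_lit 35135) (S (nat_lit 21004) (S (nat_lit 28526) (S (nat_lit 54837) (L (nat_lit 29884628))
(L (nat_lit 5938717)))
(L (nat_lit 3614297)))
(L (nat_lit 6883896)))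
(S (nat_lit 54899) (S (nat_lit 57055) (L (nat_lit 29990308))
(L (nat_lit 27885992)))
(L (nat_lit 25515151)))))
(S (nat_lit 30730) (S (nat_lit 25) (S (nat_lit 21540) (S (nat_lit 10935) (S (nat_lit 21529) (L (nat_lit 21868618))
(L (nat_lit 8225204)))
(L (nat_lit 7363377)))
(L (nat_lit 7887618)))
(S (nat_lit 19789) (S (nat_lit 34275) (S (nat_lit 27212) (L (nat_lit 7998905))
(L (nat_lit 4738985)))
(S (nat_lit 41472) (S (nat_lit 10960) (S (nat_lit 8779) (L (nat_lit 2519625))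
(L (nat_lit 15270761)))
(L (nat_lit 15988322)))
(L (nat_lit 27692649))))
(S (nat_lit 39553) (S (nat_lit 50488) (S (nat_lit 17527) (L (nat_lit 22026684))
(L (nat_lit 22922530)))
(L (nat_lit 4448658)))
(L (nat_lit 25773193)))))
(S (nat_lit 50494) (S (nat_lit 1290) (S (nat_lit 465) (S (nat_lit 20761) (L (nat_lit 28651637))
(L (nat_lit 21830767)))
(S (nat_lit 21527) (S (nat_lit 50488) (S (nat_lit 15340) (L (nat_lit 12239995))
(L (nat_lit 22905225)))
(L (nat_lit 4443545)))
(L (nat_lit 11029625))))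
(S (nat_lit 21054) (S (nat_lit 21540) (S (nat_lit 8773) (S (nat_lit 48307) (L (nat_lit 21168570))
(L (nat_lit 16548146)))
(L (nat_lit 7124579)))
(L (nat_lit 15500971)))
(S (nat_lit 40818) (S (nat_lit 21529) (S (nat_lit 19839) (L (nat_lit 4998422))
(L (nat_lit 16492636)))
(L (nat_lit 30605934)))
(L (nat_lit 25182856)))))
(L (nat_lit 25478883)))))
(L (nat_lit 25305773)))))
(S (nat_lit 35087) (S (nat_lit 47) (S (nat_lit 1732) (S (nat_lit 1036) (S (nat_lit 846) (L (nat_lit 12204962))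
(S (nat_lit 41229) (S (nat_lit 1986) (S (nat_lit 40743) (S (nat_lit 972) (S (nat_lit 18465) (L (nat_lit 9515611))
(L (nat_lit 21894538)))
(L (nat_lit 9227650)))
(L (nat_lit 7466573)))
(L (nat_lit 20382936)))
(L (nat_lit 7178828))))
(S (nat_lit 20800) (S (nat_lit 1726) (S (nat_lit 37302) (L (nat_lit 19962299))
(L (nat_lit 10084495)))
(S (nat_lit 21490) (S (nat_lit 1246) (S (nat_lit 39553) (S (nat_lit 21021) (L (nat_lit 22549882))
(L (nat_lit 14897242)))
(L (nat_lit 11590414)))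
(L (nat_lit 19259439)))
(S (nat_lit 41254) (S (nat_lit 1246) (S (nat_lit 40768) (S (nat_lit 2006) (S (nat_lit 1701) (S (nat_lit 1975) (L (nat_lit 3393980))
(L (nat_lit 4010228)))
(L (nat_lit 19173816)))
(L (nat_lit 26226902)))
(L (nat_lit 18088788)))
(L (nat_lit 5459791)))
(L (nat_lit 25238036)))))
(S (nat_lit 40564) (S (nat_lit 54899) (S (nat_lit 40807) (S (nat_lit 21708) (S (nat_lit 1003) (S (nat_lit 1229) (S (nat_lit 21507) (S (nat_lit 21021) (S (nat_lit 27250) (L (nat_lit 12754585))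
(L (nat_lit 8409966)))
(L (nat_lit 21114428)))
(L (nat_lit 22209067)))
(L (nat_lit 11090784)))
(L (nat_lit 8572751)))
(L (nat_lit 21829035)))
(L (nat_lit 27350287)))
(L (nat_lit 16581972)))
(L (nat_lit 25723220)))))
(S (nat_lit 21496) (S (nat_lit 10960) (S (nat_lit 8810) (S (nat_lit 40807) (L (nat_lit 28330378))
(L (nat_lit 10228335)))
(S (nat_lit 16259) (L (nat_lit 16548117))
(L (nat_lit 8290927))))
(S (nat_lit 30724) (S (nat_lit 37285) (S (nat_lit 21529) (L (nat_lit 4078183))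
(L (nat_lit 30627205)))
(S (nat_lit 49145) (S (nat_lit 1986) (L (nat_lit 5463453))
(L (nat_lit 3861033)))
(L (nat_lit 2795928))))
(S (nat_lit 50488) (S (nat_lit 40547) (S (nat_lit 21529) (S (nat_lit 30713) (S (nat_lit 40805) (S (nat_lit 48301) (L (nat_lit 6102455))
(L (nat_lit 6147561)))
(L (nat_lit 27281959)))
(L (nat_lit 9454331)))
(L (nat_lit 22282680)))
(S (nat_lit 50080) (S (nat_lit 35148) (L (nat_lit 8120708))
(L (nat_lit 31068550)))
(L (nat_lit 3631687))))
(L (nat_lit 25825736)))))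
(S (nat_lit 41260) (S (nat_lit 41547) (S (nat_lit 1246) (S (nat_lit 15309) (S (nat_lit 39570) (S (nat_lit 1743) (S (nat_lit 19778) (S (nat_lit 21021) (S (nat_lit 21512) (S (nat_lit 39553) (S (nat_lit 2006) (S (nat_lit 986) (S (nat_lit 40500) (S (nat_lit 50525) (S (nat_lit 20761) (S (nat_lit 30774) (S (nat_lit 10999) (S (nat_lit 1003) (S (nat_lit 54879) (S (nat_lit 41243) (S (nat_lit 41503) (S (nat_lit 21465) (S (nat_lit 10935) (S (nat_lit 35148) (S (nat_lit 54899) (S (nat_lit 15373) (S (nat_lit 21529) (S (nat_lit 21004) (S (nat_lit 21708) (S (nat_lit 1047) (S (nat_lit 39590) (S (nat_lit 13214) (S (nat_lit 6469) (S (nat_lit 26235) (S (nat_lit 6209) (S (nat_lit 13991) (S (nat_lit 53289) (S (nat_lit 27233) (S (nat_lit 9656) (S (nat_lit 12728) (S (nat_lit 31640) (S (nat_lit 55443) (D (nat_lit 13) (nat_lit 29702197) (nat_lit 15276803) (nat_lit 1271485534404))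
(L (nat_lit 29045088)))
(L (nat_lit 27860481)))
(L (nat_lit 27773217)))
(S (nat_lit 21331) (S (nat_lit 4265) (S (nat_lit 57086) (S (nat_lit 45346) (D (nat_lit 11) (nat_lit 27935076) (nat_lit 19672581) (nat_lit 35710337088))
(L (nat_lit 30091778)))
(L (nat_lit 27934052)))
(L (nat_lit 27933890)))
(L (nat_lit 4549045))))
(L (nat_lit 9321059)))
(L (nat_lit 28622871)))
(L (nat_lit 28628453)))
(L (nat_lit 20980125)))
(L (nat_lit 23096623)))
(L (nat_lit 20999562)))
(S (nat_lit 22920) (S (nat_lit 14974) (S (nat_lit 8198) (S (nat_lit 14957) (S (nat_lit 15217) (S (nat_lit 47516) (S (nat_lit 13320) (S (nat_lit 8656) (S (nat_lit 8812) (D (nat_lit 11) (nat_lit 27986441) (nat_lit 19194371) (nat_lit 35537322048))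
(L (nat_lit 15621314)))
(L (nat_lit 27965636)))
(S (nat_lit 16499) (S (nat_lit 48927) (S (nat_lit 36014) (S (nat_lit 56689) (S (nat_lit 51052) (S (nat_lit 57024) (D (nat_lit 13) (nat_lit 14423627) (nat_lit 5586520) (nat_lit 2207782012040))
(L (nat_lit 25869504)))
(L (nat_lit 20996614)))
(L (nat_lit 15489217)))
(L (nat_lit 15487169)))
(L (nat_lit 26949824)))
(L (nat_lit 19172141))))
(L (nat_lit 30118129)))
(L (nat_lit 7360431)))
(L (nat_lit 23425073)))
(L (nat_lit 9060261)))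
(L (nat_lit 23347109)))
(S (nat_lit 28574) (S (nat_lit 30121) (S (nat_lit 37324) (S (nat_lit 57739) (S (nat_lit 6670) (S (nat_lit 24004) (S (nat_lit 55988) (S (nat_lit 17119) (D (nat_lit 11) (nat_lit 30082441) (nat_lit 801355) (nat_lit 206227841250))
(L (nat_lit 27988490)))
(L (nat_lit 29710754)))
(L (nat_lit 23652708)))
(S (nat_lit 42293) (S (nat_lit 28135) (S (nat_lit 54747) (S (nat_lit 12348) (S (nat_lit 25046) (D (nat_lit 11) (nat_lit 17583297) (nat_lit 11291077) (nat_lit 110602818816))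
(L (nat_lit 27547011)))
(L (nat_lit 29956207)))
(L (nat_lit 7162369)))
(L (nat_lit 20443424)))
(L (nat_lit 28776503))))
(L (nat_lit 20060973)))
(L (nat_lit 20078829)))
(L (nat_lit 20079015)))
(L (nat_lit 8837924)))))
(L (nat_lit 17647787)))
(L (nat_lit 2662040)))
(L (nat_lit 4843945)))
(L (nat_lit 15555659)))
(L (nat_lit 15575621)))
(L (nat_lit 15343675)))
(L (nat_lit 4879850)))
(L (nat_lit 2778502)))
(L (nat_lit 21488678)))
(L (nat_lit 14757500)))
(L (nat_lit 23211516)))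
(L (nat_lit 23160294)))
(L (nat_lit 21063078)))
(S (nat_lit 19679) (L (nat_lit 4436633))
(S (nat_lit 42558) (L (nat_lit 16818779))
(L (nat_lit 2761550)))))
(L (nat_lit 15919314)))
(L (nat_lit 24538400)))
(L (nat_lit 15621408)))
(L (nat_lit 27639397)))
(L (nat_lit 17746244)))
(S (nat_lit 41802) (S (nat_lit 33249) (S (nat_lit 11281) (L (nat_lit 25340341))
(L (nat_lit 19675145)))
(L (nat_lit 19675143)))
(S (nat_lit 53369) (L (nat_lit 6170070))
(L (nat_lit 2693968)))))
(L (nat_lit 26429456)))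
(L (nat_lit 27285871)))
(L (nat_lit 7824995)))
(L (nat_lit 31112202)))
(L (nat_lit 30608049)))
(L (nat_lit 14294073)))
(L (nat_lit 18665793)))
(L (nat_lit 8045312)))
(L (nat_lit 4049263)))
(S (nat_lit 41646) (L (nat_lit 4043370))
(L (nat_lit 18025149))))
(L (nat_lit 25339381)))))
(S (nat_lit 19811) (S (nat_lit 10997) (S (nat_lit 10999) (S (nat_lit 40774) (S (nat_lit 54837) (S (nat_lit 1569) (L (nat_lit 3626204))
(L (nat_lit 3859945)))
(L (nat_lit 27951559)))
(L (nat_lit 8009604)))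
(S (nat_lit 30763) (S (nat_lit 40774) (S (nat_lit 28554) (L (nat_lit 18645301))
(L (nat_lit 18604198)))
(L (nat_lit 9948036)))
(S (nat_lit 50527) (L (nat_lit 30065737))
(L (nat_lit 25648137)))))
(S (nat_lit 30761) (S (nat_lit 15351) (S (nat_lit 38921) (L (nat_lit 7919803))
(S (nat_lit 39553) (S (nat_lit 32244) (L (nat_lit 13506150))
(S (nat_lit 50488) (S (nat_lit 20979) (S (nat_lit 15384) (S (nat_lit 39592) (S (nat_lit 1246) (L (nat_lit 15901525))
(L (nat_lit 19016526)))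
(L (nat_lit 4728756)))
(L (nat_lit 22456441)))
(L (nat_lit 22287804)))
(L (nat_lit 12627580))))
(L (nat_lit 27285838))))
(S (nat_lit 35115) (S (nat_lit 14) (S (nat_lit 62) (S (nat_lit 40818) (L (nat_lit 22545194))
(L (nat_lit 2875882)))
(L (nat_lit 8302774)))
(S (nat_lit 19778) (S (nat_lit 42) (S (nat_lit 19828) (S (nat_lit 40805) (S (nat_lit 21739) (S (nat_lit 21010) (L (nat_lit 18485030))
(L (nat_lit 21439236)))
(L (nat_lit 15397002)))
(L (nat_lit 2406230)))
(L (nat_lit 9223746)))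
(L (nat_lit 20187673)))
(S (nat_lit 39542) (S (nat_lit 21010) (S (nat_lit 2019) (L (nat_lit 1596267))
(L (nat_lit 3371506)))
(L (nat_lit 22983012)))
(L (nat_lit 25220400)))))
(S (nat_lit 54879) (S (nat_lit 8941) (L (nat_lit 11264109))
(S (nat_lit 10966) (S (nat_lit 330) (L (nat_lit 18652179))
(S (nat_lit 54868) (S (nat_lit 17732) (L (nat_lit 11440631))
(S (nat_lit 19828) (S (nat_lit 21708) (L (nat_lit 13789769))
(L (nat_lit 10678860)))
(L (nat_lit 30560494))))
(L (nat_lit 16357497))))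
(L (nat_lit 16048247))))
(L (nat_lit 25430608)))))
(S (nat_lit 50525) (S (nat_lit 15351) (S (nat_lit 30741) (S (nat_lit 41260) (S (nat_lit 21479) (S (nat_lit 1991) (S (nat_lit 48323) (L (nat_lit 7524271))
(L (nat_lit 22340036)))
(L (nat_lit 10126128)))
(L (nat_lit 22110696)))
(L (nat_lit 3394009)))
(L (nat_lit 30717537)))
(S (nat_lit 35115) (S (nat_lit 30713) (S (nat_lit 21507) (S (nat_lit 28543) (L (nat_lit 28350869))
(L (nat_lit 9339473)))
(L (nat_lit 16441604)))
(L (nat_lit 24174894)))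
(S (nat_lit 54879) (S (nat_lit 4789) (L (nat_lit 22103850))
(S (nat_lit 19778) (S (nat_lit 2006) (S (nat_lit 40547) (L (nat_lit 7422743))
(L (nat_lit 8275521)))
(S (nat_lit 55773) (L (nat_lit 21172696))
(L (nat_lit 12601629))))
(L (nat_lit 3363600))))
(L (nat_lit 25581702)))))
(L (nat_lit 25803914)))))
(S (nat_lit 39575) (S (nat_lit 1240) (S (nat_lit 1715) (S (nat_lit 37302) (S (nat_lit 28554) (S (nat_lit 972) (L (nat_lit 9833051))
(L (nat_lit 13896312)))
(L (nat_lit 10052000)))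
(S (nat_lit 54804) (L (nat_lit 9522619))
(L (nat_lit 2384277))))
(S (nat_lit 12232) (S (nat_lit 54222) (L (nat_lit 19761643))
(L (nat_lit 24618756)))
(L (nat_lit 14461111))))
(S (nat_lit 21004) (S (nat_lit 1991) (S (nat_lit 40542) (S (nat_lit 1986) (L (nat_lit 26902801))
(L (nat_lit 10140579)))
(L (nat_lit 27965544)))
(S (nat_lit 21755) (S (nat_lit 32540) (L (nat_lit 4675336))
(S (nat_lit 41276) (S (nat_lit 57049) (S (nat_lit 48301) (L (nat_lit 19345156))
(L (nat_lit 27743400)))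
(L (nat_lit 27965608)))
(L (nat_lit 9103779))))
(S (nat_lit 41519) (S (nat_lit 5573) (L (nat_lit 8273044))
(S (nat_lit 40547) (S (nat_lit 25992) (L (nat_lit 3613559))
(S (nat_lit 41276) (S (nat_lit 2019) (S (nat_lit 30713) (S (nat_lit 21529) (S (nat_lit 50505) (L (nat_lit 8517014))
(L (nat_lit 27862401)))
(L (nat_lit 22246543)))
(L (nat_lit 19390538)))
(S (nat_lit 27188) (L (nat_lit 22413627))
(L (nat_lit 10208101))))
(L (nat_lit 8869978))))
(L (nat_lit 3631721))))
(L (nat_lit 25856422)))))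
(S (nat_lit 40768) (S (nat_lit 10977) (S (nat_lit 28537) (S (nat_lit 37184) (L (nat_lit 19073468))
(L (nat_lit 212603)))
(S (nat_lit 43259) (L (nat_lit 14584051))
(L (nat_lit 2567864))))
(S (nat_lit 30741) (S (nat_lit 41519) (S (nat_lit 1215) (S (nat_lit 39603) (L (nat_lit 8237172))
(L (nat_lit 23872614)))
(L (nat_lit 8565368)))
(L (nat_lit 23890225)))
(S (nat_lit 50505) (S (nat_lit 41486) (S (nat_lit 28537) (L (nat_lit 14287657))
(L (nat_lit 2307709)))
(L (nat_lit 27857382)))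
(L (nat_lit 25248359)))))
(L (nat_lit 25773281)))))
(L (nat_lit 25838821)))))
(S (nat_lit 54851) (S (nat_lit 8773) (S (nat_lit 21529) (S (nat_lit 40547) (S (nat_lit 17510) (S (nat_lit 57088) (S (nat_lit 48351) (S (nat_lit 20761) (S (nat_lit 21540) (S (nat_lit 28559) (S (nat_lit 1743) (S (nat_lit 39590) (S (nat_lit 1290) (S (nat_lit 30724) (S (nat_lit 41486) (S (nat_lit 50510) (S (nat_lit 21770) (S (nat_lit 1036) (S (nat_lit 1732) (S (nat_lit 55424) (S (nat_lit 14) (S (nat_lit 12613) (S (nat_lit 37307) (S (nat_lit 1034) (S (nat_lit 8877) (S (nat_lit 26075) (S (nat_lit 58718) (S (nat_lit 43015) (D (nat_lit 11) (nat_lit 26792132) (nat_lit 12339717) (nat_lit 273680424))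
(L (nat_lit 19826215)))
(L (nat_lit 13689510)))
(L (nat_lit 10345954)))
(S (nat_lit 49965) (S (nat_lit 10048) (S (nat_lit 42562) (S (nat_lit 37420) (D (nat_lit 13) (nat_lit 25381966) (nat_lit 19670499) (nat_lit 245081735266))
(L (nat_lit 28913801)))
(L (nat_lit 9327109)))
(L (nat_lit 27927076)))
(L (nat_lit 12692310))))
(L (nat_lit 14394275)))
(L (nat_lit 8842917)))
(L (nat_lit 22938861)))
(L (nat_lit 632688)))
(L (nat_lit 28358311)))
(L (nat_lit 4894575)))
(L (nat_lit 11424846)))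
(L (nat_lit 15758054)))
(L (nat_lit 4469621)))
(L (nat_lit 27625104)))
(L (nat_lit 2778569)))
(L (nat_lit 11012979)))
(L (nat_lit 27643396)))
(L (nat_lit 20408361)))
(L (nat_lit 24679306)))
(L (nat_lit 10536882)))
(L (nat_lit 30491956)))
(L (nat_lit 27964673)))
(L (nat_lit 27724457)))
(L (nat_lit 26428004)))
(L (nat_lit 18026106)))
(L (nat_lit 21168568)))
(S (nat_lit 28537) (S (nat_lit 30713) (S (nat_lit 57038) (S (nat_lit 40547) (S (nat_lit 40542) (S (nat_lit 21527) (S (nat_lit 57049) (S (nat_lit 40531) (S (nat_lit 57024) (S (nat_lit 37324) (S (nat_lit 1986) (S (nat_lit 46710) (S (nat_lit 41229) (S (nat_lit 41243) (S (nat_lit 54085) (S (nat_lit 39590) (S (nat_lit 39592) (S (nat_lit 19367) (S (nat_lit 36988) (S (nat_lit 38932) (S (nat_lit 12528) (D (nat_lit 11) (nat_lit 27742531) (nat_lit 25767429) (nat_lit 212877906981))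
(L (nat_lit 27901217)))
(L (nat_lit 22982759)))
(L (nat_lit 22983751)))
(S (nat_lit 39414) (S (nat_lit 10059) (S (nat_lit 12003) (S (nat_lit 37982) (D (nat_lit 11) (nat_lit 27510956) (nat_lit 25767365) (nat_lit 212877903009))
(L (nat_lit 27865095)))
(L (nat_lit 27931688)))
(L (nat_lit 27930632)))
(L (nat_lit 30904966))))
(L (nat_lit 23457807)))
(L (nat_lit 23443205)))
(L (nat_lit 23360994)))
(L (nat_lit 2013832)))
(L (nat_lit 1429357)))
(L (nat_lit 8947572)))
(L (nat_lit 3664146)))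
(L (nat_lit 3629737)))
(L (nat_lit 5463985)))
(L (nat_lit 24343727)))
(L (nat_lit 4417942)))
(L (nat_lit 21180537)))
(L (nat_lit 27474035)))
(L (nat_lit 27477603)))
(L (nat_lit 19100068)))
(L (nat_lit 19101092)))
(S (nat_lit 48301) (S (nat_lit 40547) (S (nat_lit 62) (S (nat_lit 37274) (S (nat_lit 21529) (S (nat_lit 30713) (S (nat_lit 28587) (L (nat_lit 26598512))
(L (nat_lit 2798876)))
(L (nat_lit 13858372)))
(L (nat_lit 22569034)))
(S (nat_lit 43841) (S (nat_lit 575) (L (nat_lit 8440748))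
(L (nat_lit 14901270)))
(L (nat_lit 16802411))))
(S (nat_lit 19826) (S (nat_lit 21529) (S (nat_lit 6466) (L (nat_lit 19074928))
(S (nat_lit 57049) (S (nat_lit 20800) (S (nat_lit 21043) (S (nat_lit 10997) (L (nat_lit 28791105))
(L (nat_lit 21937291)))
(L (nat_lit 16512107)))
(L (nat_lit 16512075)))
(L (nat_lit 11266189))))
(L (nat_lit 16548148)))
(S (nat_lit 39590) (S (nat_lit 50505) (S (nat_lit 1047) (S (nat_lit 1036) (S (nat_lit 21529) (S (nat_lit 41486) (S (nat_lit 50510) (S (nat_lit 21770) (S (nat_lit 37274) (S (nat_lit 3817) (S (nat_lit 21004) (S (nat_lit 35148) (S (nat_lit 21783) (S (nat_lit 30699) (S (nat_lit 20979) (S (nat_lit 28576) (S (nat_lit 44548) (S (nat_lit 19811) (S (nat_lit 20885) (S (nat_lit 17193) (S (nat_lit 10864) (S (nat_lit 4544) (S (nat_lit 42803) (D (nat_lit 13) (nat_lit 30820608) (nat_lit 25765413) (nat_lit 3303000968257))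
(L (nat_lit 15616226)))
(L (nat_lit 31031690)))
(L (nat_lit 30951530)))
(L (nat_lit 30951650)))
(S (nat_lit 26070) (S (nat_lit 58145) (S (nat_lit 41632) (S (nat_lit 6532) (S (nat_lit 51327) (D (nat_lit 13) (nat_lit 30988481) (nat_lit 25767397) (nat_lit 3510199389416))
(L (nat_lit 29015298)))
(L (nat_lit 30842900)))
(L (nat_lit 28747957)))
(L (nat_lit 28915040)))
(L (nat_lit 3985865))))
(L (nat_lit 30529962)))
(L (nat_lit 9121945)))
(L (nat_lit 18210866)))
(L (nat_lit 12153004)))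
(L (nat_lit 18914191)))
(L (nat_lit 11038371)))
(L (nat_lit 20256528)))
(L (nat_lit 31031535)))
(L (nat_lit 5794375)))
(L (nat_lit 13848485)))
(L (nat_lit 4410224)))
(L (nat_lit 4975082)))
(L (nat_lit 27664032)))
(L (nat_lit 16015968)))
(L (nat_lit 11036820)))
(L (nat_lit 19406692)))
(L (nat_lit 27574422)))
(L (nat_lit 25730231)))))
(L (nat_lit 27483553)))
(L (nat_lit 25902216)))))
(L (nat_lit 25366125)))))
(L (nat_lit 25313558)))))
(L (nat_lit 25924977)))

theorem rb246_0_14 : run 4 lb246 [] tb246_0_14 kb246 [0, 21772, 19795] [15334, 35098] = true := by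
  decide +kernel

noncomputable def ta37_3 : Tr :=
(S (nat_lit 590) (S (nat_lit 917) (S (nat_lit 569) (S (nat_lit 1053) (S (nat_lit 593) (S (nat_lit 584) (S (nat_lit 2619) (S (nat_lit 1109) (L (nat_lit 527639))
(L (nat_lit 117005)))
(S (nat_lit 4807) (S (nat_lit 3407) (L (nat_lit 178420))
(L (nat_lit 383085)))
(L (nat_lit 43446))))
(L (nat_lit 382000)))
(S (nat_lit 5754) (S (nat_lit 4865) (L (nat_lit 299509))
(L (nat_lit 414824)))
(L (nat_lit 364240))))
(S (nat_lit 3267) (S (nat_lit 593) (S (nat_lit 584) (S (nat_lit 914) (S (nat_lit 905) (S (nat_lit 1703) (S (nat_lit 4320) (S (nat_lit 1718) (S (nat_lit 1724) (S (nat_lit 893) (S (nat_lit 1715) (S (nat_lit 1727) (S (nat_lit 5429) (S (nat_lit 3749) (S (nat_lit 3428) (S (nat_lit 2215) (S (nat_lit 3410) (S (nat_lit 6500) (S (nat_lit 3422) (S (nat_lit 1568) (D (nat_lit 0) (nat_lit 693616) (nat_lit 461382) (nat_lit 2164802))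
(L (nat_lit 444555)))
(L (nat_lit 736612)))
(L (nat_lit 307378)))
(L (nat_lit 383461)))
(L (nat_lit 767171)))
(L (nat_lit 382372)))
(L (nat_lit 513281)))
(S (nat_lit 5644) (S (nat_lit 5968) (S (nat_lit 4834) (S (nat_lit 2241) (S (nat_lit 4807) (S (nat_lit 3294) (S (nat_lit 1054) (S (nat_lit 1) (S (nat_lit 34) (S (nat_lit 4382) (S (nat_lit 1602) (S (nat_lit 2612) (S (nat_lit 1087) (S (nat_lit 3082) (D (nat_lit 8) (nat_lit 110903) (nat_lit 215522) (nat_lit 67141665))
(L (nat_lit 464951)))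
(L (nat_lit 690667)))
(L (nat_lit 415042)))
(L (nat_lit 767202)))
(L (nat_lit 700740)))
(S (nat_lit 5268) (S (nat_lit 2179) (S (nat_lit 1599) (S (nat_lit 4394) (S (nat_lit 2600) (S (nat_lit 1596) (D (nat_lit 10) (nat_lit 593264) (nat_lit 215554) (nat_lit 69862424576))
(L (nat_lit 400004)))
(L (nat_lit 119337)))
(L (nat_lit 217476)))
(L (nat_lit 728452)))
(L (nat_lit 481569)))
(L (nat_lit 465603))))
(L (nat_lit 412866)))
(S (nat_lit 3268) (S (nat_lit 1755) (S (nat_lit 5615) (S (nat_lit 4796) (S (nat_lit 3266) (S (nat_lit 595) (D (nat_lit 17) (nat_lit 215461) (nat_lit 50822) (nat_lit 0))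
(L (nat_lit 511333)))
(L (nat_lit 543971)))
(L (nat_lit 282112)))
(L (nat_lit 477445)))
(L (nat_lit 477440)))
(L (nat_lit 592140))))
(L (nat_lit 495892)))
(L (nat_lit 480577)))
(S (nat_lit 3152) (S (nat_lit 3962) (S (nat_lit 1573) (S (nat_lit 436) (S (nat_lit 4976) (S (nat_lit 5300) (S (nat_lit 56) (S (nat_lit 438) (S (nat_lit 4833) (D (nat_lit 10) (nat_lit 477538) (nat_lit 18891) (nat_lit 34603008))
(L (nat_lit 667973)))
(L (nat_lit 667877)))
(S (nat_lit 4429) (S (nat_lit 4959) (S (nat_lit 4950) (D (nat_lit 10) (nat_lit 699504) (nat_lit 426568) (nat_lit 69208098))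
(L (nat_lit 416098)))
(L (nat_lit 414050)))
(L (nat_lit 361878))))
(L (nat_lit 54698)))
(L (nat_lit 513128)))
(L (nat_lit 366222)))
(L (nat_lit 433861)))
(L (nat_lit 401029)))
(S (nat_lit 5312) (S (nat_lit 57) (S (nat_lit 442) (S (nat_lit 4979) (S (nat_lit 3950) (S (nat_lit 2813) (S (nat_lit 465) (S (nat_lit 1599) (S (nat_lit 1596) (D (nat_lit 10) (nat_lit 660848) (nat_lit 215089) (nat_lit 69207105))
(L (nat_lit 738596)))
(L (nat_lit 761284)))
(S (nat_lit 2162) (S (nat_lit 61) (S (nat_lit 4833) (D (nat_lit 10) (nat_lit 543010) (nat_lit 51437) (nat_lit 34603008))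
(L (nat_lit 316589)))
(L (nat_lit 767298)))
(L (nat_lit 757288))))
(L (nat_lit 46824)))
(L (nat_lit 141996)))
(L (nat_lit 502435)))
(L (nat_lit 670827)))
(L (nat_lit 361133)))
(L (nat_lit 636128)))))
(L (nat_lit 253316)))
(L (nat_lit 414917)))
(L (nat_lit 279267))))
(L (nat_lit 515364)))
(S (nat_lit 3905) (L (nat_lit 76309))
(L (nat_lit 344740))))
(S (nat_lit 5265) (L (nat_lit 140755))
(L (nat_lit 114903))))
(L (nat_lit 514404)))
(S (nat_lit 6089) (L (nat_lit 201293))
(L (nat_lit 11982))))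
(L (nat_lit 765105)))
(S (nat_lit 6104) (L (nat_lit 253009))
(L (nat_lit 640324))))
(L (nat_lit 479488)))
(S (nat_lit 3083) (S (nat_lit 3091) (L (nat_lit 142062))
(L (nat_lit 467095)))
(L (nat_lit 481536))))
(L (nat_lit 381040)))
(L (nat_lit 383088)))
(S (nat_lit 5481) (S (nat_lit 395) (S (nat_lit 4212) (L (nat_lit 374464))
(L (nat_lit 502870)))
(S (nat_lit 584) (S (nat_lit 593) (S (nat_lit 1703) (S (nat_lit 1839) (L (nat_lit 249999))
(L (nat_lit 758280)))
(S (nat_lit 5381) (L (nat_lit 89642))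
(L (nat_lit 631269))))
(L (nat_lit 416872)))
(L (nat_lit 311009))))
(L (nat_lit 606466)))))
(S (nat_lit 2783) (S (nat_lit 1215) (S (nat_lit 2620) (S (nat_lit 6152) (S (nat_lit 5012) (S (nat_lit 1) (S (nat_lit 6535) (S (nat_lit 3268) (S (nat_lit 1540) (S (nat_lit 5321) (S (nat_lit 3941) (S (nat_lit 4075) (S (nat_lit 880) (S (nat_lit 6340) (S (nat_lit 241) (S (nat_lit 1512) (D (nat_lit 12) (nat_lit 759336) (nat_lit 434755) (nat_lit 1109459968))
(L (nat_lit 771078)))
(L (nat_lit 770372)))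
(L (nat_lit 512071)))
(L (nat_lit 738661)))
(S (nat_lit 4740) (S (nat_lit 4629) (S (nat_lit 3001) (S (nat_lit 2323) (D (nat_lit 14) (nat_lit 411842) (nat_lit 400961) (nat_lit 33620992))
(L (nat_lit 579781)))
(L (nat_lit 465632)))
(L (nat_lit 702656)))
(L (nat_lit 178423))))
(L (nat_lit 202348)))
(L (nat_lit 660939)))
(L (nat_lit 510025)))
(L (nat_lit 186891)))
(L (nat_lit 9965)))
(L (nat_lit 210531)))
(L (nat_lit 524934)))
(L (nat_lit 299540)))
(L (nat_lit 219553)))
(S (nat_lit 3429) (S (nat_lit 451) (S (nat_lit 442) (L (nat_lit 173772))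
(L (nat_lit 479489)))
(S (nat_lit 2620) (S (nat_lit 4970) (S (nat_lit 914) (S (nat_lit 56) (L (nat_lit 13994))
(L (nat_lit 721322)))
(L (nat_lit 253314)))
(S (nat_lit 6152) (S (nat_lit 6143) (S (nat_lit 4321) (S (nat_lit 2828) (L (nat_lit 283821))
(S (nat_lit 5021) (S (nat_lit 1923) (S (nat_lit 5644) (S (nat_lit 405) (S (nat_lit 4429) (S (nat_lit 2106) (S (nat_lit 5321) (S (nat_lit 381) (S (nat_lit 1336) (S (nat_lit 130) (S (nat_lit 4075) (S (nat_lit 1809) (D (nat_lit 12) (nat_lit 660968) (nat_lit 598159) (nat_lit 2201239980032))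
(L (nat_lit 670978)))
(L (nat_lit 284097)))
(L (nat_lit 666639)))
(L (nat_lit 667655)))
(S (nat_lit 1918) (S (nat_lit 2991) (S (nat_lit 5212) (S (nat_lit 4749) (S (nat_lit 6441) (D (nat_lit 12) (nat_lit 759334) (nat_lit 561522) (nat_lit 1136085960737))
(L (nat_lit 737321)))
(L (nat_lit 728108)))
(L (nat_lit 580681)))
(L (nat_lit 703745)))
(L (nat_lit 764077))))
(L (nat_lit 658890)))
(L (nat_lit 298575)))
(L (nat_lit 656623)))
(L (nat_lit 396874)))
(L (nat_lit 656842)))
(L (nat_lit 402115)))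
(L (nat_lit 558728))))
(L (nat_lit 435844)))
(L (nat_lit 242772)))
(L (nat_lit 173492))))
(L (nat_lit 383361))))
(S (nat_lit 5643) (S (nat_lit 5644) (S (nat_lit 1703) (S (nat_lit 2215) (S (nat_lit 3947) (L (nat_lit 176500))
(S (nat_lit 6143) (S (nat_lit 3866) (S (nat_lit 6434) (S (nat_lit 5012) (S (nat_lit 5481) (S (nat_lit 5482) (S (nat_lit 5321) (S (nat_lit 866) (S (nat_lit 6451) (S (nat_lit 2490) (S (nat_lit 6441) (D (nat_lit 10) (nat_lit 628230) (nat_lit 378435) (nat_lit 36541827106))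
(L (nat_lit 734468)))
(L (nat_lit 252045)))
(L (nat_lit 733445)))
(S (nat_lit 3882) (S (nat_lit 1336) (S (nat_lit 1344) (S (nat_lit 2353) (D (nat_lit 10) (nat_lit 660936) (nat_lit 593230) (nat_lit 70936231968))
(L (nat_lit 416033)))
(L (nat_lit 668841)))
(L (nat_lit 667655)))
(L (nat_lit 347279))))
(L (nat_lit 658955)))
(L (nat_lit 513280)))
(L (nat_lit 513282)))
(L (nat_lit 567410)))
(L (nat_lit 349294)))
(L (nat_lit 705826)))
(L (nat_lit 317861))))
(L (nat_lit 479240)))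
(L (nat_lit 637959)))
(L (nat_lit 449546)))
(L (nat_lit 601104)))))
(S (nat_lit 4997) (S (nat_lit 584) (S (nat_lit 914) (S (nat_lit 1703) (S (nat_lit 2215) (S (nat_lit 4320) (S (nat_lit 905) (S (nat_lit 3267) (S (nat_lit 3242) (L (nat_lit 185676))
(L (nat_lit 547137)))
(L (nat_lit 416002)))
(L (nat_lit 544907)))
(L (nat_lit 252451)))
(L (nat_lit 514088)))
(S (nat_lit 6075) (S (nat_lit 6104) (S (nat_lit 406) (S (nat_lit 5265) (S (nat_lit 4943) (S (nat_lit 3267) (S (nat_lit 2612) (S (nat_lit 2600) (S (nat_lit 461) (S (nat_lit 1215) (S (nat_lit 434) (D (nat_lit 4) (nat_lit 13558) (nat_lit 248194) (nat_lit 32769))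
(L (nat_lit 701545)))
(L (nat_lit 14643)))
(L (nat_lit 767232)))
(L (nat_lit 402082)))
(L (nat_lit 414978)))
(L (nat_lit 413954)))
(L (nat_lit 374435)))
(L (nat_lit 480451)))
(L (nat_lit 635201)))
(L (nat_lit 640325)))
(L (nat_lit 567319))))
(L (nat_lit 108951)))
(S (nat_lit 2798) (S (nat_lit 1703) (S (nat_lit 5644) (S (nat_lit 6534) (S (nat_lit 2807) (S (nat_lit 3754) (S (nat_lit 3929) (S (nat_lit 5342) (S (nat_lit 406) (S (nat_lit 5333) (S (nat_lit 6146) (S (nat_lit 6155) (S (nat_lit 3107) (S (nat_lit 4483) (S (nat_lit 5856) (S (nat_lit 2580) (S (nat_lit 2275) (S (nat_lit 2215) (S (nat_lit 5840) (S (nat_lit 1429) (D (nat_lit 10) (nat_lit 150024) (nat_lit 105038) (nat_lit 68719477824))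
(L (nat_lit 399380)))
(L (nat_lit 197198)))
(S (nat_lit 3217) (S (nat_lit 2619) (S (nat_lit 861) (S (nat_lit 1362) (S (nat_lit 5701) (D (nat_lit 10) (nat_lit 175821) (nat_lit 14920) (nat_lit 69862459392))
(L (nat_lit 639301)))
(L (nat_lit 436403)))
(L (nat_lit 403571)))
(L (nat_lit 602371)))
(L (nat_lit 296338))))
(L (nat_lit 662016)))
(L (nat_lit 563810)))
(L (nat_lit 217472)))
(S (nat_lit 4833) (S (nat_lit 3058) (S (nat_lit 3268) (S (nat_lit 5857) (S (nat_lit 839) (S (nat_lit 2858) (S (nat_lit 205) (S (nat_lit 5143) (S (nat_lit 4860) (D (nat_lit 12) (nat_lit 691690) (nat_lit 276037) (nat_lit 68719509570))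
(L (nat_lit 700705)))
(L (nat_lit 566358)))
(L (nat_lit 669704)))
(L (nat_lit 671970)))
(L (nat_lit 669891)))
(S (nat_lit 6400) (S (nat_lit 2917) (S (nat_lit 861) (S (nat_lit 2442) (S (nat_lit 4152) (D (nat_lit 12) (nat_lit 660966) (nat_lit 597100) (nat_lit 2235599685665))
(L (nat_lit 316497)))
(L (nat_lit 416872)))
(L (nat_lit 701764)))
(L (nat_lit 465602)))
(L (nat_lit 758125))))
(L (nat_lit 770373)))
(L (nat_lit 702789)))
(S (nat_lit 5754) (S (nat_lit 305) (S (nat_lit 4153) (S (nat_lit 4698) (S (nat_lit 1054) (S (nat_lit 530) (S (nat_lit 3619) (S (nat_lit 5547) (D (nat_lit 12) (nat_lit 232951) (nat_lit 600576) (nat_lit 1136018851872))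
(L (nat_lit 201422)))
(L (nat_lit 702756)))
(L (nat_lit 702724)))
(S (nat_lit 3489) (S (nat_lit 5482) (S (nat_lit 205) (S (nat_lit 724) (S (nat_lit 2409) (D (nat_lit 10) (nat_lit 110287) (nat_lit 40529) (nat_lit 1142980674))
(L (nat_lit 579907)))
(L (nat_lit 532628)))
(L (nat_lit 467028)))
(L (nat_lit 604416)))
(L (nat_lit 146027))))
(L (nat_lit 690568)))
(L (nat_lit 22023)))
(L (nat_lit 755207)))
(L (nat_lit 318853)))))
(L (nat_lit 756943)))
(L (nat_lit 242308)))
(L (nat_lit 243332)))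
(L (nat_lit 345234)))
(L (nat_lit 631201)))
(L (nat_lit 343744)))
(L (nat_lit 756137)))
(L (nat_lit 184809)))
(L (nat_lit 250928)))
(L (nat_lit 277685)))
(L (nat_lit 666668)))
(L (nat_lit 262647)))
(S (nat_lit 5012) (S (nat_lit 1703) (S (nat_lit 3128) (S (nat_lit 4321) (L (nat_lit 731213))
(L (nat_lit 527671)))
(L (nat_lit 278242)))
(S (nat_lit 6272) (S (nat_lit 5994) (L (nat_lit 151015))
(L (nat_lit 560375)))
(L (nat_lit 632846))))
(L (nat_lit 595153)))))
(L (nat_lit 601169)))))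
(S (nat_lit 3131) (S (nat_lit 569) (S (nat_lit 405) (S (nat_lit 1724) (L (nat_lit 766274))
(L (nat_lit 267702)))
(S (nat_lit 2619) (S (nat_lit 593) (S (nat_lit 2241) (L (nat_lit 299538))
(S (nat_lit 4429) (L (nat_lit 635915))
(L (nat_lit 372758))))
(L (nat_lit 384049)))
(S (nat_lit 4833) (S (nat_lit 4834) (S (nat_lit 584) (S (nat_lit 5526) (L (nat_lit 721201))
(L (nat_lit 461143)))
(L (nat_lit 413889)))
(L (nat_lit 78502)))
(L (nat_lit 595370)))))
(S (nat_lit 2783) (S (nat_lit 1216) (S (nat_lit 5103) (L (nat_lit 547850))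
(S (nat_lit 5271) (L (nat_lit 398985))
(L (nat_lit 464917))))
(S (nat_lit 3430) (L (nat_lit 75191))
(S (nat_lit 5644) (S (nat_lit 2106) (S (nat_lit 3102) (L (nat_lit 266675))
(L (nat_lit 111958)))
(S (nat_lit 5705) (L (nat_lit 231863))
(L (nat_lit 566851))))
(L (nat_lit 591148)))))
(S (nat_lit 4997) (S (nat_lit 1539) (S (nat_lit 1727) (S (nat_lit 5968) (L (nat_lit 725478))
(L (nat_lit 662605)))
(L (nat_lit 561398)))
(S (nat_lit 3753) (S (nat_lit 3938) (S (nat_lit 3754) (L (nat_lit 219617))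
(L (nat_lit 315877)))
(L (nat_lit 766025)))
(S (nat_lit 5967) (S (nat_lit 2338) (L (nat_lit 382093))
(L (nat_lit 524631)))
(L (nat_lit 596113)))))
(L (nat_lit 599459)))))
(S (nat_lit 5345) (S (nat_lit 1) (L (nat_lit 372754))
(S (nat_lit 2215) (S (nat_lit 1539) (S (nat_lit 3917) (L (nat_lit 350223))
(L (nat_lit 381476)))
(S (nat_lit 3753) (S (nat_lit 905) (S (nat_lit 5591) (L (nat_lit 244759))
(L (nat_lit 482312)))
(S (nat_lit 5282) (L (nat_lit 736267))
(L (nat_lit 234127))))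
(S (nat_lit 5967) (S (nat_lit 1756) (L (nat_lit 482315))
(S (nat_lit 1924) (L (nat_lit 77206))
(L (nat_lit 469013))))
(L (nat_lit 594161)))))
(S (nat_lit 4429) (L (nat_lit 635915))
(L (nat_lit 590030)))))
(L (nat_lit 601101)))))
(S (nat_lit 2804) (S (nat_lit 1215) (S (nat_lit 3131) (S (nat_lit 6131) (S (nat_lit 1727) (S (nat_lit 2215) (S (nat_lit 914) (S (nat_lit 893) (S (nat_lit 3929) (S (nat_lit 6535) (S (nat_lit 6534) (S (nat_lit 1216) (S (nat_lit 4292) (S (nat_lit 4721) (S (nat_lit 857) (S (nat_lit 5713) (S (nat_lit 5852) (S (nat_lit 2410) (S (nat_lit 2440) (D (nat_lit 12) (nat_lit 602306) (nat_lit 233010) (nat_lit 34394343426))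
(L (nat_lit 286082)))
(L (nat_lit 350286)))
(L (nat_lit 20970)))
(L (nat_lit 733376)))
(L (nat_lit 668865)))
(S (nat_lit 6025) (S (nat_lit 1017) (S (nat_lit 3828) (S (nat_lit 3235) (D (nat_lit 10) (nat_lit 180806) (nat_lit 592359) (nat_lit 34359772192))
(L (nat_lit 511171)))
(L (nat_lit 513285)))
(L (nat_lit 703744)))
(L (nat_lit 265936))))
(L (nat_lit 412865)))
(L (nat_lit 42572)))
(L (nat_lit 670827)))
(L (nat_lit 417060)))
(L (nat_lit 363246)))
(L (nat_lit 464119)))
(L (nat_lit 482346)))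
(L (nat_lit 481320)))
(S (nat_lit 3941) (S (nat_lit 5321) (S (nat_lit 405) (S (nat_lit 3128) (S (nat_lit 1718) (S (nat_lit 406) (S (nat_lit 2603) (S (nat_lit 2155) (S (nat_lit 1104) (S (nat_lit 1102) (S (nat_lit 5635) (D (nat_lit 10) (nat_lit 606376) (nat_lit 247887) (nat_lit 2147517473))
(L (nat_lit 734218)))
(L (nat_lit 668869)))
(L (nat_lit 668900)))
(S (nat_lit 3242) (S (nat_lit 4383) (S (nat_lit 2608) (S (nat_lit 2604) (D (nat_lit 10) (nat_lit 604326) (nat_lit 477290) (nat_lit 36507222016))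
(L (nat_lit 736611)))
(L (nat_lit 736545)))
(L (nat_lit 199404)))
(L (nat_lit 350721))))
(L (nat_lit 276659)))
(L (nat_lit 445606)))
(L (nat_lit 512229)))
(L (nat_lit 414763)))
(L (nat_lit 275635)))
(L (nat_lit 660717)))
(S (nat_lit 6155) (S (nat_lit 5342) (S (nat_lit 131) (S (nat_lit 3581) (S (nat_lit 3754) (S (nat_lit 4833) (S (nat_lit 569) (S (nat_lit 1216) (S (nat_lit 6341) (S (nat_lit 3654) (S (nat_lit 1440) (S (nat_lit 4467) (S (nat_lit 6176) (S (nat_lit 1525) (S (nat_lit 5511) (D (nat_lit 12) (nat_lit 768288) (nat_lit 600448) (nat_lit 2234524958722))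
(L (nat_lit 482661)))
(L (nat_lit 767049)))
(L (nat_lit 700487)))
(L (nat_lit 696772)))
(L (nat_lit 766309)))
(S (nat_lit 4480) (S (nat_lit 5802) (S (nat_lit 1438) (D (nat_lit 10) (nat_lit 117256) (nat_lit 598192) (nat_lit 68719544384))
(L (nat_lit 737473)))
(L (nat_lit 734219)))
(L (nat_lit 213632))))
(L (nat_lit 692558)))
(L (nat_lit 378929)))
(L (nat_lit 144694)))
(L (nat_lit 243429)))
(L (nat_lit 432832)))
(L (nat_lit 738496)))
(L (nat_lit 705825)))
(L (nat_lit 665645)))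
(L (nat_lit 594158)))))
(L (nat_lit 310292)))
(L (nat_lit 414730)))
(S (nat_lit 3429) (S (nat_lit 3131) (S (nat_lit 1703) (S (nat_lit 214) (L (nat_lit 567873))
(S (nat_lit 1216) (L (nat_lit 316430))
(L (nat_lit 295444))))
(S (nat_lit 3917) (S (nat_lit 1) (L (nat_lit 316430))
(L (nat_lit 635913)))
(S (nat_lit 6131) (S (nat_lit 1715) (S (nat_lit 1) (S (nat_lit 1216) (S (nat_lit 2619) (S (nat_lit 2107) (S (nat_lit 406) (S (nat_lit 936) (S (nat_lit 1718) (S (nat_lit 1054) (S (nat_lit 2764) (S (nat_lit 612) (S (nat_lit 3456) (S (nat_lit 5290) (S (nat_lit 4970) (S (nat_lit 3418) (S (nat_lit 3968) (S (nat_lit 3078) (D (nat_lit 12) (nat_lit 672938) (nat_lit 477352) (nat_lit 1136019932162))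
(L (nat_lit 737507)))
(L (nat_lit 637156)))
(L (nat_lit 662947)))
(L (nat_lit 480609)))
(L (nat_lit 703841)))
(S (nat_lit 6526) (S (nat_lit 1769) (S (nat_lit 453) (S (nat_lit 5267) (S (nat_lit 595) (S (nat_lit 4980) (D (nat_lit 12) (nat_lit 670827) (nat_lit 411844) (nat_lit 2181038114))
(L (nat_lit 251916)))
(L (nat_lit 697760)))
(L (nat_lit 465012)))
(L (nat_lit 664717)))
(L (nat_lit 734564)))
(L (nat_lit 151856))))
(L (nat_lit 481355)))
(L (nat_lit 736327)))
(L (nat_lit 532629)))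
(L (nat_lit 577705)))
(L (nat_lit 404035)))
(L (nat_lit 633252)))
(L (nat_lit 638308)))
(L (nat_lit 363958)))
(L (nat_lit 477226)))
(S (nat_lit 6279) (L (nat_lit 107153))
(L (nat_lit 636131))))
(S (nat_lit 3929) (S (nat_lit 2798) (S (nat_lit 2620) (S (nat_lit 2783) (S (nat_lit 5482) (S (nat_lit 1539) (S (nat_lit 3982) (S (nat_lit 5333) (S (nat_lit 3075) (S (nat_lit 4884) (S (nat_lit 1727) (S (nat_lit 715) (S (nat_lit 794) (S (nat_lit 6417) (S (nat_lit 4504) (D (nat_lit 14) (nat_lit 698752) (nat_lit 150025) (nat_lit 69860328450))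
(L (nat_lit 738312)))
(L (nat_lit 512356)))
(S (nat_lit 3823) (S (nat_lit 5766) (S (nat_lit 1360) (D (nat_lit 14) (nat_lit 762274) (nat_lit 593231) (nat_lit 34428978208))
(L (nat_lit 738375)))
(L (nat_lit 317859)))
(L (nat_lit 730564))))
(L (nat_lit 577578)))
(L (nat_lit 497351)))
(L (nat_lit 692492)))
(L (nat_lit 436340)))
(L (nat_lit 500786)))
(L (nat_lit 491890)))
(L (nat_lit 244882)))
(L (nat_lit 246437)))
(L (nat_lit 470721)))
(L (nat_lit 467585)))
(S (nat_lit 4983) (L (nat_lit 267666))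
(L (nat_lit 244853))))
(S (nat_lit 6143) (S (nat_lit 63) (S (nat_lit 569) (L (nat_lit 724337))
(L (nat_lit 397894)))
(S (nat_lit 6155) (S (nat_lit 3173) (L (nat_lit 331283))
(S (nat_lit 6535) (S (nat_lit 4834) (S (nat_lit 5481) (S (nat_lit 3754) (S (nat_lit 2106) (S (nat_lit 5124) (S (nat_lit 4066) (S (nat_lit 1) (S (nat_lit 3107) (S (nat_lit 5012) (S (nat_lit 880) (S (nat_lit 1830) (S (nat_lit 878) (S (nat_lit 6012) (S (nat_lit 1537) (D (nat_lit 14) (nat_lit 764320) (nat_lit 594128) (nat_lit 36507255842))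
(L (nat_lit 768355)))
(L (nat_lit 702659)))
(S (nat_lit 5682) (S (nat_lit 3169) (S (nat_lit 1173) (D (nat_lit 14) (nat_lit 663938) (nat_lit 592141) (nat_lit 69793286209))
(L (nat_lit 694659)))
(L (nat_lit 482563)))
(L (nat_lit 759339))))
(L (nat_lit 702632)))
(L (nat_lit 729504)))
(L (nat_lit 660689)))
(L (nat_lit 413890)))
(L (nat_lit 635107)))
(L (nat_lit 515361)))
(L (nat_lit 769313)))
(L (nat_lit 312434)))
(L (nat_lit 312402)))
(L (nat_lit 318606)))
(L (nat_lit 232851)))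
(L (nat_lit 482660))))
(L (nat_lit 178418))))
(L (nat_lit 603241)))))
(L (nat_lit 590313)))))
(L (nat_lit 763919)))
(S (nat_lit 5643) (S (nat_lit 593) (S (nat_lit 4834) (S (nat_lit 569) (S (nat_lit 1724) (S (nat_lit 4321) (S (nat_lit 1116) (L (nat_lit 727214))
(S (nat_lit 5481) (S (nat_lit 6131) (S (nat_lit 3131) (S (nat_lit 3119) (S (nat_lit 3174) (S (nat_lit 1539) (S (nat_lit 6016) (S (nat_lit 5012) (S (nat_lit 3107) (S (nat_lit 6441) (S (nat_lit 292) (S (nat_lit 4480) (S (nat_lit 4893) (D (nat_lit 14) (nat_lit 636224) (nat_lit 361036) (nat_lit 2147517442))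
(L (nat_lit 734401)))
(S (nat_lit 6012) (S (nat_lit 1174) (S (nat_lit 4059) (D (nat_lit 14) (nat_lit 663936) (nat_lit 607493) (nat_lit 69793286209))
(L (nat_lit 286181)))
(L (nat_lit 700612)))
(L (nat_lit 698479))))
(L (nat_lit 704619)))
(L (nat_lit 639172)))
(L (nat_lit 311936)))
(L (nat_lit 43570)))
(L (nat_lit 113353)))
(L (nat_lit 85233)))
(L (nat_lit 658736)))
(L (nat_lit 762400)))
(L (nat_lit 769344)))
(L (nat_lit 253412)))
(L (nat_lit 54728))))
(L (nat_lit 154087)))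
(S (nat_lit 5064) (S (nat_lit 6131) (L (nat_lit 144724))
(L (nat_lit 665612)))
(L (nat_lit 47319))))
(L (nat_lit 404567)))
(L (nat_lit 568033)))
(S (nat_lit 2807) (S (nat_lit 6535) (S (nat_lit 2585) (S (nat_lit 3754) (L (nat_lit 434752))
(L (nat_lit 20688)))
(S (nat_lit 2665) (S (nat_lit 3131) (S (nat_lit 6131) (S (nat_lit 1715) (S (nat_lit 5321) (S (nat_lit 3938) (S (nat_lit 4320) (S (nat_lit 406) (S (nat_lit 3128) (S (nat_lit 3267) (S (nat_lit 4418) (S (nat_lit 4966) (S (nat_lit 3780) (S (nat_lit 1102) (S (nat_lit 2200) (D (nat_lit 12) (nat_lit 607336) (nat_lit 346286) (nat_lit 2267809842177))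
(L (nat_lit 411938)))
(L (nat_lit 671077)))
(L (nat_lit 705670)))
(L (nat_lit 705797)))
(S (nat_lit 4805) (S (nat_lit 1587) (S (nat_lit 2180) (S (nat_lit 3295) (S (nat_lit 5939) (S (nat_lit 2604) (D (nat_lit 12) (nat_lit 413803) (nat_lit 346158) (nat_lit 1136054566976))
(L (nat_lit 666764)))
(L (nat_lit 86411)))
(L (nat_lit 448587)))
(L (nat_lit 733538)))
(L (nat_lit 667938)))
(L (nat_lit 264784))))
(L (nat_lit 402114)))
(L (nat_lit 281647)))
(L (nat_lit 401589)))
(L (nat_lit 152041)))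
(L (nat_lit 85196)))
(L (nat_lit 671970)))
(L (nat_lit 498340)))
(L (nat_lit 482629)))
(L (nat_lit 753999)))
(L (nat_lit 534145))))
(L (nat_lit 482593)))
(S (nat_lit 5021) (S (nat_lit 2620) (S (nat_lit 6131) (S (nat_lit 5333) (S (nat_lit 2783) (S (nat_lit 5968) (S (nat_lit 4723) (S (nat_lit 4143) (S (nat_lit 405) (S (nat_lit 3929) (S (nat_lit 147) (S (nat_lit 1510) (S (nat_lit 2433) (S (nat_lit 1018) (S (nat_lit 2937) (D (nat_lit 14) (nat_lit 665986) (nat_lit 592327) (nat_lit 68754147392))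
(L (nat_lit 22055)))
(L (nat_lit 701698)))
(S (nat_lit 3978) (S (nat_lit 2068) (D (nat_lit 14) (nat_lit 729504) (nat_lit 464456) (nat_lit 35717153))
(L (nat_lit 668864)))
(L (nat_lit 275542))))
(L (nat_lit 702787)))
(L (nat_lit 754151)))
(L (nat_lit 767079)))
(L (nat_lit 183565)))
(L (nat_lit 311414)))
(L (nat_lit 695342)))
(L (nat_lit 345760)))
(L (nat_lit 512289)))
(L (nat_lit 493162)))
(L (nat_lit 460455)))
(L (nat_lit 512257)))
(L (nat_lit 591398)))))
(L (nat_lit 601134)))))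
(S (nat_lit 5018) (S (nat_lit 1724) (S (nat_lit 1) (S (nat_lit 318) (L (nat_lit 184560))
(S (nat_lit 4321) (S (nat_lit 3753) (S (nat_lit 5333) (S (nat_lit 5345) (S (nat_lit 6146) (S (nat_lit 5643) (S (nat_lit 4834) (S (nat_lit 1419) (S (nat_lit 5482) (S (nat_lit 5321) (S (nat_lit 6534) (S (nat_lit 3343) (S (nat_lit 846) (S (nat_lit 3496) (D (nat_lit 14) (nat_lit 663936) (nat_lit 598434) (nat_lit 68754147392))
(L (nat_lit 666149)))
(S (nat_lit 1023) (S (nat_lit 2935) (D (nat_lit 14) (nat_lit 666018) (nat_lit 599424) (nat_lit 69793286209))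
(L (nat_lit 670760)))
(L (nat_lit 697486))))
(L (nat_lit 480390)))
(L (nat_lit 480611)))
(L (nat_lit 429739)))
(L (nat_lit 309331)))
(L (nat_lit 401093)))
(L (nat_lit 560470)))
(L (nat_lit 210965)))
(L (nat_lit 252292)))
(L (nat_lit 381005)))
(L (nat_lit 340674)))
(L (nat_lit 532100)))
(L (nat_lit 534145))))
(S (nat_lit 2215) (S (nat_lit 1703) (S (nat_lit 5643) (L (nat_lit 628753))
(L (nat_lit 513033)))
(S (nat_lit 3917) (S (nat_lit 3429) (S (nat_lit 3430) (S (nat_lit 3950) (S (nat_lit 6534) (S (nat_lit 4833) (L (nat_lit 245381))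
(L (nat_lit 74412)))
(L (nat_lit 83625)))
(S (nat_lit 6146) (S (nat_lit 3992) (S (nat_lit 4121) (S (nat_lit 3941) (S (nat_lit 3929) (S (nat_lit 593) (S (nat_lit 5321) (S (nat_lit 1054) (S (nat_lit 1053) (S (nat_lit 5333) (S (nat_lit 4834) (S (nat_lit 569) (S (nat_lit 847) (S (nat_lit 6195) (S (nat_lit 4873) (S (nat_lit 1840) (D (nat_lit 10) (nat_lit 118216) (nat_lit 607523) (nat_lit 68719544384))
(L (nat_lit 738496)))
(L (nat_lit 415847)))
(L (nat_lit 734404)))
(S (nat_lit 2859) (S (nat_lit 2063) (S (nat_lit 5762) (S (nat_lit 2734) (S (nat_lit 2935) (S (nat_lit 6208) (D (nat_lit 12) (nat_lit 734402) (nat_lit 248259) (nat_lit 1169374085152))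
(L (nat_lit 433728)))
(L (nat_lit 218626)))
(L (nat_lit 547074)))
(L (nat_lit 481570)))
(L (nat_lit 672035)))
(L (nat_lit 672841))))
(L (nat_lit 602401)))
(L (nat_lit 87462)))
(L (nat_lit 83659)))
(L (nat_lit 84426)))
(L (nat_lit 84427)))
(L (nat_lit 89546)))
(L (nat_lit 401526)))
(L (nat_lit 104883)))
(L (nat_lit 110835)))
(L (nat_lit 635911)))
(L (nat_lit 669705)))
(L (nat_lit 317893))))
(L (nat_lit 768007)))
(L (nat_lit 768009)))
(S (nat_lit 6131) (L (nat_lit 728077))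
(L (nat_lit 605508)))))
(S (nat_lit 4429) (S (nat_lit 593) (S (nat_lit 2619) (S (nat_lit 569) (S (nat_lit 4834) (S (nat_lit 3143) (L (nat_lit 52710))
(S (nat_lit 5333) (S (nat_lit 3917) (S (nat_lit 3268) (S (nat_lit 5362) (S (nat_lit 1053) (S (nat_lit 5718) (S (nat_lit 3128) (S (nat_lit 2107) (S (nat_lit 4282) (S (nat_lit 318) (S (nat_lit 3508) (S (nat_lit 6195) (S (nat_lit 2575) (D (nat_lit 14) (nat_lit 631170) (nat_lit 603208) (nat_lit 1142947841))
(L (nat_lit 580864)))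
(L (nat_lit 734404)))
(S (nat_lit 3643) (S (nat_lit 4723) (S (nat_lit 1854) (D (nat_lit 14) (nat_lit 764320) (nat_lit 606499) (nat_lit 34428978208))
(L (nat_lit 768138)))
(L (nat_lit 704800)))
(L (nat_lit 85265))))
(L (nat_lit 245875)))
(L (nat_lit 698480)))
(L (nat_lit 576679)))
(L (nat_lit 576770)))
(L (nat_lit 637961)))
(L (nat_lit 631298)))
(L (nat_lit 705827)))
(L (nat_lit 579840)))
(L (nat_lit 771396)))
(L (nat_lit 434882))))
(L (nat_lit 548006)))
(L (nat_lit 379265)))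
(L (nat_lit 151976)))
(S (nat_lit 3952) (L (nat_lit 149190))
(L (nat_lit 628784))))
(L (nat_lit 596015)))))
(S (nat_lit 3938) (S (nat_lit 893) (S (nat_lit 593) (S (nat_lit 3917) (S (nat_lit 3932) (S (nat_lit 5388) (S (nat_lit 2100) (L (nat_lit 55500))
(L (nat_lit 760322)))
(L (nat_lit 88554)))
(L (nat_lit 89479)))
(L (nat_lit 761868)))
(S (nat_lit 2807) (S (nat_lit 4997) (S (nat_lit 5012) (S (nat_lit 406) (S (nat_lit 6143) (S (nat_lit 5481) (S (nat_lit 5968) (S (nat_lit 3430) (S (nat_lit 3932) (S (nat_lit 914) (S (nat_lit 1727) (S (nat_lit 3119) (S (nat_lit 1340) (S (nat_lit 5230) (S (nat_lit 2973) (S (nat_lit 2910) (S (nat_lit 3167) (S (nat_lit 2528) (S (nat_lit 2911) (S (nat_lit 679) (S (nat_lit 4466) (D (nat_lit 12) (nat_lit 498274) (nat_lit 79431) (nat_lit 1099547279362))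
(L (nat_lit 216209)))
(L (nat_lit 510180)))
(L (nat_lit 640228)))
(S (nat_lit 5529) (S (nat_lit 3873) (S (nat_lit 5881) (S (nat_lit 4588) (D (nat_lit 14) (nat_lit 299478) (nat_lit 606400) (nat_lit 2148566050))
(L (nat_lit 640356)))
(L (nat_lit 635139)))
(L (nat_lit 636163)))
(L (nat_lit 262709))))
(L (nat_lit 262643)))
(L (nat_lit 690667)))
(L (nat_lit 383521)))
(L (nat_lit 394454)))
(S (nat_lit 4460) (S (nat_lit 1451) (S (nat_lit 4190) (S (nat_lit 2980) (S (nat_lit 1652) (S (nat_lit 6280) (S (nat_lit 1924) (S (nat_lit 3179) (D (nat_lit 12) (nat_lit 564866) (nat_lit 149993) (nat_lit 35435611170))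
(L (nat_lit 478249)))
(L (nat_lit 477473)))
(L (nat_lit 639265)))
(S (nat_lit 4321) (S (nat_lit 6321) (S (nat_lit 2364) (S (nat_lit 1531) (D (nat_lit 12) (nat_lit 24043) (nat_lit 598405) (nat_lit 2201171789858))
(L (nat_lit 366157)))
(L (nat_lit 117287)))
(L (nat_lit 501345)))
(L (nat_lit 528010))))
(L (nat_lit 444643)))
(L (nat_lit 154118)))
(L (nat_lit 88582)))
(S (nat_lit 5785) (S (nat_lit 1986) (S (nat_lit 3384) (S (nat_lit 4621) (S (nat_lit 1044) (S (nat_lit 4581) (S (nat_lit 5394) (S (nat_lit 1215) (S (nat_lit 2974) (D (nat_lit 14) (nat_lit 626956) (nat_lit 599488) (nat_lit 68190274))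
(L (nat_lit 448771)))
(S (nat_lit 2904) (S (nat_lit 5643) (S (nat_lit 6280) (D (nat_lit 14) (nat_lit 498306) (nat_lit 510086) (nat_lit 34394409025))
(L (nat_lit 639265)))
(L (nat_lit 604448)))
(L (nat_lit 624139))))
(L (nat_lit 398026)))
(L (nat_lit 492198)))
(L (nat_lit 501313)))
(L (nat_lit 402019)))
(L (nat_lit 444741)))
(L (nat_lit 429331)))
(L (nat_lit 414977)))))
(L (nat_lit 263573)))
(L (nat_lit 284844)))
(L (nat_lit 252448)))
(L (nat_lit 213669)))
(L (nat_lit 252418)))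
(L (nat_lit 399446)))
(L (nat_lit 493911)))
(L (nat_lit 399444)))
(L (nat_lit 183631)))
(L (nat_lit 211521)))
(L (nat_lit 218529)))
(S (nat_lit 5021) (S (nat_lit 4901) (L (nat_lit 316961))
(S (nat_lit 5036) (S (nat_lit 5675) (S (nat_lit 3167) (L (nat_lit 82197))
(L (nat_lit 525991)))
(L (nat_lit 546017)))
(L (nat_lit 106096))))
(L (nat_lit 596081)))))
(S (nat_lit 3107) (S (nat_lit 905) (S (nat_lit 3429) (S (nat_lit 3754) (L (nat_lit 689357))
(L (nat_lit 433856)))
(L (nat_lit 566294)))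
(S (nat_lit 3119) (S (nat_lit 286) (S (nat_lit 3932) (S (nat_lit 3131) (L (nat_lit 10707))
(L (nat_lit 767050)))
(L (nat_lit 530611)))
(S (nat_lit 3429) (S (nat_lit 6131) (S (nat_lit 3131) (L (nat_lit 464917))
(L (nat_lit 283727)))
(L (nat_lit 316965)))
(L (nat_lit 119307))))
(S (nat_lit 5333) (S (nat_lit 4997) (S (nat_lit 1) (L (nat_lit 764353))
(L (nat_lit 208949)))
(L (nat_lit 108209)))
(L (nat_lit 591403)))))
(S (nat_lit 5321) (S (nat_lit 1703) (S (nat_lit 3179) (S (nat_lit 241) (S (nat_lit 5012) (S (nat_lit 917) (L (nat_lit 76274))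
(L (nat_lit 469014)))
(L (nat_lit 562760)))
(L (nat_lit 771081)))
(S (nat_lit 3753) (L (nat_lit 525589))
(L (nat_lit 532100))))
(S (nat_lit 3917) (S (nat_lit 5345) (S (nat_lit 3429) (L (nat_lit 109046))
(L (nat_lit 77518)))
(S (nat_lit 6158) (S (nat_lit 2215) (L (nat_lit 524626))
(L (nat_lit 72398)))
(L (nat_lit 76274))))
(S (nat_lit 6131) (S (nat_lit 3941) (S (nat_lit 3267) (L (nat_lit 74162))
(L (nat_lit 375490)))
(L (nat_lit 546084)))
(L (nat_lit 605191)))))
(L (nat_lit 593103)))))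
(S (nat_lit 6152) (S (nat_lit 1) (S (nat_lit 905) (S (nat_lit 6155) (S (nat_lit 5021) (S (nat_lit 2620) (S (nat_lit 3430) (S (nat_lit 3917) (S (nat_lit 2783) (S (nat_lit 5967) (S (nat_lit 3754) (S (nat_lit 5643) (S (nat_lit 1715) (S (nat_lit 5342) (S (nat_lit 936) (S (nat_lit 5602) (S (nat_lit 5454) (S (nat_lit 3913) (S (nat_lit 481) (D (nat_lit 12) (nat_lit 607336) (nat_lit 266738) (nat_lit 1133904922626))
(L (nat_lit 770404)))
(L (nat_lit 284034)))
(L (nat_lit 414978)))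
(L (nat_lit 700738)))
(S (nat_lit 5591) (S (nat_lit 1586) (S (nat_lit 75) (S (nat_lit 3736) (S (nat_lit 2820) (D (nat_lit 14) (nat_lit 530090) (nat_lit 542889) (nat_lit 70934134784))
(L (nat_lit 702692)))
(L (nat_lit 500421)))
(L (nat_lit 765377)))
(L (nat_lit 702657)))
(L (nat_lit 699909))))
(L (nat_lit 655663)))
(L (nat_lit 49367)))
(L (nat_lit 210965)))
(L (nat_lit 171725)))
(L (nat_lit 662607)))
(L (nat_lit 176840)))
(L (nat_lit 526023)))
(L (nat_lit 230866)))
(L (nat_lit 209010)))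
(L (nat_lit 656593)))
(L (nat_lit 667876)))
(S (nat_lit 3119) (S (nat_lit 2620) (S (nat_lit 5021) (L (nat_lit 110868))
(L (nat_lit 661552)))
(L (nat_lit 512324)))
(S (nat_lit 5333) (S (nat_lit 3430) (S (nat_lit 3917) (S (nat_lit 5345) (L (nat_lit 557672))
(L (nat_lit 655786)))
(L (nat_lit 426695)))
(L (nat_lit 403138)))
(L (nat_lit 607488)))))
(S (nat_lit 2215) (S (nat_lit 1216) (L (nat_lit 564247))
(S (nat_lit 3430) (S (nat_lit 3429) (S (nat_lit 3917) (S (nat_lit 4321) (S (nat_lit 4320) (S (nat_lit 3753) (S (nat_lit 5021) (S (nat_lit 3107) (S (nat_lit 6155) (S (nat_lit 3268) (S (nat_lit 584) (S (nat_lit 905) (S (nat_lit 1718) (S (nat_lit 2774) (S (nat_lit 4364) (S (nat_lit 1746) (S (nat_lit 3909) (S (nat_lit 6518) (S (nat_lit 3099) (S (nat_lit 3103) (D (nat_lit 10) (nat_lit 738594) (nat_lit 477412) (nat_lit 70901629953))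
(L (nat_lit 120233)))
(L (nat_lit 120199)))
(L (nat_lit 436896)))
(L (nat_lit 284064)))
(L (nat_lit 700672)))
(S (nat_lit 4977) (S (nat_lit 3954) (S (nat_lit 1100) (S (nat_lit 5301) (S (nat_lit 3958) (D (nat_lit 10) (nat_lit 604326) (nat_lit 84455) (nat_lit 69827823650))
(L (nat_lit 470162)))
(L (nat_lit 565987)))
(L (nat_lit 695809)))
(L (nat_lit 704705)))
(L (nat_lit 630146))))
(L (nat_lit 400065)))
(L (nat_lit 278710)))
(L (nat_lit 534146)))
(L (nat_lit 436343)))
(L (nat_lit 764416)))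
(L (nat_lit 464521)))
(L (nat_lit 761007)))
(L (nat_lit 116358)))
(L (nat_lit 769218)))
(L (nat_lit 235153)))
(L (nat_lit 235152)))
(L (nat_lit 769031)))
(L (nat_lit 762896)))
(S (nat_lit 5644) (L (nat_lit 311319))
(L (nat_lit 606215)))))
(S (nat_lit 4429) (S (nat_lit 1053) (S (nat_lit 2783) (S (nat_lit 2798) (L (nat_lit 460520))
(L (nat_lit 761379)))
(L (nat_lit 463558)))
(S (nat_lit 3267) (S (nat_lit 5482) (S (nat_lit 1715) (S (nat_lit 2620) (S (nat_lit 2783) (S (nat_lit 905) (S (nat_lit 3430) (S (nat_lit 3107) (S (nat_lit 5634) (S (nat_lit 405) (S (nat_lit 1539) (S (nat_lit 2255) (S (nat_lit 2775) (S (nat_lit 5617) (S (nat_lit 4386) (S (nat_lit 2184) (D (nat_lit 12) (nat_lit 607334) (nat_lit 18955) (nat_lit 1134945110080))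
(L (nat_lit 768075)))
(L (nat_lit 702753)))
(L (nat_lit 732610)))
(L (nat_lit 673090)))
(S (nat_lit 2615) (S (nat_lit 2153) (S (nat_lit 1615) (S (nat_lit 5454) (S (nat_lit 3752) (S (nat_lit 4792) (D (nat_lit 12) (nat_lit 446570) (nat_lit 280622) (nat_lit 1136054566976))
(L (nat_lit 699534)))
(L (nat_lit 87434)))
(L (nat_lit 414794)))
(L (nat_lit 766245)))
(L (nat_lit 700704)))
(L (nat_lit 330227))))
(L (nat_lit 495826)))
(L (nat_lit 174668)))
(L (nat_lit 561527)))
(L (nat_lit 760943)))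
(L (nat_lit 115335)))
(L (nat_lit 116363)))
(L (nat_lit 758129)))
(L (nat_lit 762273)))
(L (nat_lit 628814)))
(L (nat_lit 120326)))
(S (nat_lit 5481) (S (nat_lit 5345) (S (nat_lit 1540) (L (nat_lit 283010))
(L (nat_lit 564800)))
(L (nat_lit 668992)))
(L (nat_lit 592392)))))
(L (nat_lit 596354)))))
(L (nat_lit 604263)))))
(L (nat_lit 593233)))))

theorem ra37_3 : run 3 la37 [] ta37_3 ka37 (P4 3 203 0 314 203 0 1 0 0) [] = true := by
  decide +kernel

noncomputable def ta35_4 : Tr :=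
(S (nat_lit 998) (S (nat_lit 1478) (S (nat_lit 734) (S (nat_lit 1715) (S (nat_lit 6230) (S (nat_lit 3050) (L (nat_lit 310852))
(L (nat_lit 281711)))
(L (nat_lit 460114)))
(S (nat_lit 3956) (L (nat_lit 144107))
(L (nat_lit 639047))))
(S (nat_lit 2948) (S (nat_lit 3767) (S (nat_lit 590) (L (nat_lit 624010))
(L (nat_lit 318915)))
(L (nat_lit 267852)))
(S (nat_lit 5162) (S (nat_lit 3601) (L (nat_lit 733507))
(L (nat_lit 561458)))
(L (nat_lit 606282)))))
(S (nat_lit 3692) (S (nat_lit 96) (S (nat_lit 4937) (S (nat_lit 61) (S (nat_lit 1538) (L (nat_lit 183502))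
(L (nat_lit 373476)))
(L (nat_lit 721262)))
(S (nat_lit 5516) (L (nat_lit 346595))
(L (nat_lit 172530))))
(S (nat_lit 2310) (S (nat_lit 2399) (S (nat_lit 6541) (S (nat_lit 2948) (S (nat_lit 5078) (S (nat_lit 54) (S (nat_lit 5615) (S (nat_lit 4721) (S (nat_lit 556) (S (nat_lit 212) (S (nat_lit 6444) (S (nat_lit 97) (S (nat_lit 6115) (S (nat_lit 534) (D (nat_lit 12) (nat_lit 41394) (nat_lit 243894) (nat_lit 0))
(L (nat_lit 661613)))
(L (nat_lit 625158)))
(L (nat_lit 622926)))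
(L (nat_lit 528041)))
(L (nat_lit 149163)))
(L (nat_lit 534676)))
(L (nat_lit 771081)))
(L (nat_lit 693670)))
(L (nat_lit 183501)))
(L (nat_lit 568434)))
(L (nat_lit 753965)))
(L (nat_lit 468609)))
(L (nat_lit 501811)))
(S (nat_lit 4524) (S (nat_lit 4753) (S (nat_lit 5815) (S (nat_lit 5099) (L (nat_lit 85387))
(L (nat_lit 532628)))
(L (nat_lit 659978)))
(L (nat_lit 122126)))
(L (nat_lit 598060)))))
(S (nat_lit 5906) (S (nat_lit 2113) (S (nat_lit 5093) (S (nat_lit 2214) (S (nat_lit 3601) (L (nat_lit 760942))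
(L (nat_lit 580900)))
(L (nat_lit 282637)))
(L (nat_lit 558290)))
(S (nat_lit 4327) (S (nat_lit 5162) (S (nat_lit 6230) (S (nat_lit 3601) (S (nat_lit 5078) (L (nat_lit 349603))
(L (nat_lit 79590)))
(L (nat_lit 332433)))
(L (nat_lit 477443)))
(L (nat_lit 349263)))
(S (nat_lit 6541) (S (nat_lit 836) (S (nat_lit 2948) (L (nat_lit 147049))
(L (nat_lit 282703)))
(L (nat_lit 220579)))
(L (nat_lit 599120)))))
(L (nat_lit 602308)))))
(S (nat_lit 3212) (S (nat_lit 1553) (S (nat_lit 836) (S (nat_lit 1104) (L (nat_lit 753967))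
(S (nat_lit 5078) (S (nat_lit 428) (S (nat_lit 3929) (S (nat_lit 259) (S (nat_lit 5486) (S (nat_lit 6230) (S (nat_lit 2804) (S (nat_lit 2694) (S (nat_lit 1937) (S (nat_lit 232) (S (nat_lit 2527) (S (nat_lit 2322) (S (nat_lit 373) (S (nat_lit 3948) (S (nat_lit 5538) (D (nat_lit 12) (nat_lit 605477) (nat_lit 49737) (nat_lit 0))
(L (nat_lit 637125)))
(L (nat_lit 624010)))
(L (nat_lit 466597)))
(L (nat_lit 373844)))
(L (nat_lit 735456)))
(L (nat_lit 730190)))
(L (nat_lit 730222)))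
(L (nat_lit 737355)))
(L (nat_lit 331253)))
(L (nat_lit 51687)))
(L (nat_lit 665773)))
(L (nat_lit 405219)))
(L (nat_lit 116940)))
(L (nat_lit 403072)))
(L (nat_lit 9650))))
(S (nat_lit 3050) (S (nat_lit 428) (S (nat_lit 1538) (L (nat_lit 382097))
(L (nat_lit 404165)))
(S (nat_lit 3709) (L (nat_lit 771363))
(L (nat_lit 631856))))
(S (nat_lit 5264) (S (nat_lit 1045) (L (nat_lit 629873))
(S (nat_lit 1802) (S (nat_lit 4525) (S (nat_lit 2804) (S (nat_lit 5486) (L (nat_lit 759304))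
(L (nat_lit 671913)))
(L (nat_lit 180467)))
(L (nat_lit 579689)))
(L (nat_lit 501315))))
(L (nat_lit 593261)))))
(S (nat_lit 3767) (S (nat_lit 836) (S (nat_lit 3929) (S (nat_lit 4525) (S (nat_lit 5513) (L (nat_lit 262678))
(L (nat_lit 482441)))
(L (nat_lit 114248)))
(L (nat_lit 543077)))
(S (nat_lit 3050) (S (nat_lit 1508) (S (nat_lit 3929) (S (nat_lit 5486) (L (nat_lit 178855))
(L (nat_lit 309857)))
(L (nat_lit 210501)))
(S (nat_lit 4753) (L (nat_lit 79531))
(L (nat_lit 299446))))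
(S (nat_lit 5264) (S (nat_lit 0) (L (nat_lit 366188))
(L (nat_lit 432147)))
(L (nat_lit 593261)))))
(S (nat_lit 5981) (S (nat_lit 2113) (S (nat_lit 5486) (L (nat_lit 300623))
(S (nat_lit 5513) (L (nat_lit 249348))
(L (nat_lit 120013))))
(S (nat_lit 4327) (S (nat_lit 0) (S (nat_lit 3729) (L (nat_lit 115302))
(L (nat_lit 499268)))
(S (nat_lit 2188) (L (nat_lit 400963))
(L (nat_lit 393458))))
(S (nat_lit 6541) (S (nat_lit 4525) (L (nat_lit 400963))
(L (nat_lit 665093)))
(L (nat_lit 595399)))))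
(L (nat_lit 599555)))))
(S (nat_lit 5426) (S (nat_lit 509) (S (nat_lit 258) (S (nat_lit 5264) (S (nat_lit 5272) (L (nat_lit 632292))
(L (nat_lit 105971)))
(L (nat_lit 381039)))
(S (nat_lit 2472) (S (nat_lit 6230) (L (nat_lit 198318))
(L (nat_lit 313889)))
(S (nat_lit 4686) (S (nat_lit 3076) (S (nat_lit 4753) (L (nat_lit 394583))
(L (nat_lit 318607)))
(S (nat_lit 5264) (S (nat_lit 6230) (S (nat_lit 5486) (S (nat_lit 2948) (L (nat_lit 39503))
(L (nat_lit 315781)))
(L (nat_lit 499730)))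
(L (nat_lit 110866)))
(L (nat_lit 44466))))
(L (nat_lit 596108)))))
(S (nat_lit 2723) (S (nat_lit 671) (S (nat_lit 1387) (S (nat_lit 2879) (S (nat_lit 2113) (S (nat_lit 6230) (S (nat_lit 5018) (S (nat_lit 6143) (S (nat_lit 2311) (S (nat_lit 2310) (S (nat_lit 2214) (S (nat_lit 2472) (S (nat_lit 5264) (S (nat_lit 2076) (S (nat_lit 4190) (S (nat_lit 2934) (D (nat_lit 10) (nat_lit 665986) (nat_lit 313761) (nat_lit 2214625345))
(L (nat_lit 480449)))
(L (nat_lit 479556)))
(S (nat_lit 6452) (S (nat_lit 1087) (S (nat_lit 2523) (S (nat_lit 2524) (S (nat_lit 1173) (S (nat_lit 2978) (D (nat_lit 10) (nat_lit 477222) (nat_lit 263756) (nat_lit 2182152225))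
(L (nat_lit 433331)))
(L (nat_lit 656776)))
(L (nat_lit 670048)))
(L (nat_lit 670050)))
(L (nat_lit 669984)))
(L (nat_lit 14546))))
(L (nat_lit 668995)))
(L (nat_lit 374932)))
(L (nat_lit 73110)))
(L (nat_lit 277092)))
(L (nat_lit 768320)))
(L (nat_lit 312004)))
(L (nat_lit 560742)))
(L (nat_lit 106034)))
(L (nat_lit 313060)))
(L (nat_lit 145683)))
(L (nat_lit 174668)))
(S (nat_lit 2885) (S (nat_lit 2311) (L (nat_lit 267857))
(L (nat_lit 477509)))
(S (nat_lit 5099) (S (nat_lit 1387) (S (nat_lit 2214) (L (nat_lit 640040))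
(L (nat_lit 118989)))
(L (nat_lit 299633)))
(L (nat_lit 607456)))))
(S (nat_lit 4937) (S (nat_lit 1530) (S (nat_lit 4856) (S (nat_lit 6484) (L (nat_lit 692463))
(L (nat_lit 179818)))
(L (nat_lit 297585)))
(S (nat_lit 3718) (S (nat_lit 5391) (L (nat_lit 86504))
(S (nat_lit 6230) (S (nat_lit 2974) (S (nat_lit 2311) (L (nat_lit 329108))
(L (nat_lit 310949)))
(L (nat_lit 446723)))
(L (nat_lit 108206))))
(S (nat_lit 5906) (S (nat_lit 2539) (S (nat_lit 5486) (S (nat_lit 6143) (S (nat_lit 2311) (S (nat_lit 5093) (S (nat_lit 4856) (S (nat_lit 96) (S (nat_lit 4327) (S (nat_lit 5078) (S (nat_lit 1427) (S (nat_lit 1733) (S (nat_lit 1120) (S (nat_lit 5622) (S (nat_lit 796) (S (nat_lit 3017) (S (nat_lit 6328) (S (nat_lit 5347) (S (nat_lit 6198) (S (nat_lit 4468) (D (nat_lit 12) (nat_lit 511082) (nat_lit 449606) (nat_lit 0))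
(L (nat_lit 435813)))
(L (nat_lit 216450)))
(L (nat_lit 704835)))
(L (nat_lit 698914)))
(L (nat_lit 218189)))
(L (nat_lit 771144)))
(L (nat_lit 580800)))
(L (nat_lit 771264)))
(L (nat_lit 703685)))
(S (nat_lit 6435) (S (nat_lit 5596) (S (nat_lit 3069) (S (nat_lit 1759) (S (nat_lit 6516) (S (nat_lit 6172) (S (nat_lit 770) (S (nat_lit 6354) (S (nat_lit 5373) (S (nat_lit 4494) (S (nat_lit 1094) (D (nat_lit 12) (nat_lit 347247) (nat_lit 449606) (nat_lit 0))
(L (nat_lit 694817)))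
(L (nat_lit 511236)))
(L (nat_lit 565985)))
(L (nat_lit 252385)))
(L (nat_lit 696868)))
(L (nat_lit 704555)))
(L (nat_lit 535203)))
(L (nat_lit 764419)))
(L (nat_lit 698882)))
(L (nat_lit 702722)))
(L (nat_lit 242839))))
(L (nat_lit 664688)))
(L (nat_lit 431783)))
(L (nat_lit 217132)))
(L (nat_lit 295536)))
(L (nat_lit 660006)))
(L (nat_lit 310880)))
(L (nat_lit 150734)))
(L (nat_lit 318639)))
(S (nat_lit 2593) (L (nat_lit 361970))
(L (nat_lit 186795))))
(L (nat_lit 366066)))))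
(L (nat_lit 595280)))))
(L (nat_lit 594157)))))

theorem ra35_4 : run 3 la35 [] ta35_4 ka35 (P4 3 1 108 468 708 1 0 0 0) [] = true := by
  decide +kernel

noncomputable def ta29_1 : Tr :=
(S (nat_lit 1953) (S (nat_lit 5505) (S (nat_lit 5501) (S (nat_lit 1825) (L (nat_lit 344212))
(S (nat_lit 5099) (S (nat_lit 3834) (L (nat_lit 433335))
(L (nat_lit 55783)))
(L (nat_lit 20720))))
(L (nat_lit 668809)))
(L (nat_lit 668964)))
(S (nat_lit 4167) (S (nat_lit 1296) (S (nat_lit 1143) (S (nat_lit 459) (S (nat_lit 4075) (L (nat_lit 72305))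
(L (nat_lit 118155)))
(S (nat_lit 4225) (L (nat_lit 731148))
(L (nat_lit 79186))))
(S (nat_lit 3357) (S (nat_lit 5906) (S (nat_lit 5910) (S (nat_lit 4158) (L (nat_lit 529782))
(L (nat_lit 435220)))
(L (nat_lit 151942)))
(L (nat_lit 151756)))
(S (nat_lit 5571) (S (nat_lit 2884) (L (nat_lit 143634))
(S (nat_lit 3586) (L (nat_lit 728078))
(L (nat_lit 466994))))
(L (nat_lit 596419)))))
(S (nat_lit 3510) (S (nat_lit 673) (S (nat_lit 671) (S (nat_lit 3658) (L (nat_lit 264726))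
(L (nat_lit 580680)))
(S (nat_lit 2840) (L (nat_lit 173586))
(L (nat_lit 121168))))
(S (nat_lit 2887) (S (nat_lit 1478) (L (nat_lit 461107))
(L (nat_lit 14550)))
(S (nat_lit 5101) (S (nat_lit 5907) (S (nat_lit 1495) (L (nat_lit 262800))
(L (nat_lit 446658)))
(L (nat_lit 332497)))
(L (nat_lit 590094)))))
(S (nat_lit 5724) (S (nat_lit 1629) (S (nat_lit 5501) (L (nat_lit 734314))
(L (nat_lit 668993)))
(S (nat_lit 3843) (S (nat_lit 1102) (L (nat_lit 275478))
(S (nat_lit 5076) (L (nat_lit 724518))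
(L (nat_lit 23916))))
(S (nat_lit 6057) (S (nat_lit 1077) (S (nat_lit 1073) (S (nat_lit 648) (L (nat_lit 142803))
(L (nat_lit 636195)))
(L (nat_lit 341142)))
(L (nat_lit 341700)))
(L (nat_lit 606310)))))
(L (nat_lit 594224)))))
(S (nat_lit 6381) (S (nat_lit 1629) (S (nat_lit 5505) (S (nat_lit 5501) (S (nat_lit 5910) (L (nat_lit 482625))
(L (nat_lit 665985)))
(L (nat_lit 668929)))
(L (nat_lit 668898)))
(S (nat_lit 3843) (S (nat_lit 1077) (S (nat_lit 1073) (S (nat_lit 648) (L (nat_lit 340115))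
(L (nat_lit 636195)))
(L (nat_lit 144999)))
(L (nat_lit 145098)))
(S (nat_lit 6057) (S (nat_lit 3291) (L (nat_lit 177364))
(L (nat_lit 177398)))
(L (nat_lit 591399)))))
(L (nat_lit 597473)))))

theorem ra29_1 : run 3 la29 [] ta29_1 ka29 (P4 3 372 370 108 0 0 0 1 0) [] = true := by
  decide +kernel

noncomputable def tb180_2 : Tr :=
(L (nat_lit 25833761))

theorem rb180_2 : run 4 lb180 [] tb180_2 kb180 (P4 4 4791 2836 6347 2836 0 0 1 2) [] = true := by
  decide +kernel

noncomputable def ta14_0 : Tr :=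
(L (nat_lit 605440))

theorem ra14_0 : run 3 la14 [] ta14_0 ka14 (P4 3 3 623 502 623 0 0 0 1) [] = true := by
  decide +kernel

noncomputable def tb262_5 : Tr :=
(L (nat_lit 25768128))

theorem rb262_5 : run 4 lb262 [] tb262_5 kb262 (P4 4 3082 0 2942 0 1 2 0 0) [] = true := by
  decide +kernel

end Pool.Agent.MP_92191b_al.K3.E
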