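import Pool.Agent.MP_92191b_al.K3.CR7

/-! Refutation trees. -/

namespace Pool.Agent.MP_92191b_al.K3.E

open Tr

set_option maxRecDepth 100000

noncomputable def tb178_1 : Tr :=
(S (nat_lit 16302) (S (nat_lit 15374) (S (nat_lit 14645) (S (nat_lit 0) (S (nat_lit 10262) (S (nat_lit 16303) (S (nat_lit 17750) (S (nat_lit 5374) (S (nat_lit 2990) (S (nat_lit 32948) (L (nat_lit 10532658))
(L (nat_lit 8546836)))
(L (nat_lit 8542684)))
(L (nat_lit 4865830)))
(L (nat_lit 16567523)))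
(S (nat_lit 36067) (S (nat_lit 17056) (S (nat_lit 12179) (S (nat_lit 43244) (L (nat_lit 16961820))
(L (nat_lit 23862447)))
(L (nat_lit 26578421)))
(L (nat_lit 9615155)))
(S (nat_lit 55831) (S (nat_lit 29744) (S (nat_lit 51989) (L (nat_lit 28845139))
(L (nat_lit 14822195)))
(L (nat_lit 1389363)))
(L (nat_lit 25869509)))))
(S (nat_lit 30026) (S (nat_lit 22359) (L (nat_lit 24190735))
(S (nat_lit 24915) (S (nat_lit 34172) (L (nat_lit 4711634))
(L (nat_lit 15510546)))
(L (nat_lit 16979730))))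
(S (nat_lit 49790) (S (nat_lit 753) (S (nat_lit 1472) (S (nat_lit 4398) (S (nat_lit 11708) (S (nat_lit 51707) (L (nat_lit 9884452))
(L (nat_lit 219640)))
(L (nat_lit 9006468)))
(L (nat_lit 26416847)))
(L (nat_lit 26222071)))
(S (nat_lit 20517) (S (nat_lit 17750) (S (nat_lit 18475) (S (nat_lit 24162) (S (nat_lit 32948) (L (nat_lit 5827954))
(L (nat_lit 15277860)))
(L (nat_lit 16838003)))
(L (nat_lit 24919078)))
(L (nat_lit 7917345)))
(S (nat_lit 40281) (S (nat_lit 14105) (S (nat_lit 31262) (L (nat_lit 445724))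
(L (nat_lit 8782611)))
(L (nat_lit 12865315)))
(L (nat_lit 25761322)))))
(L (nat_lit 25854406)))))
(S (nat_lit 19764) (S (nat_lit 4398) (S (nat_lit 19219) (S (nat_lit 49073) (S (nat_lit 9253) (S (nat_lit 38016) (S (nat_lit 4399) (S (nat_lit 57278) (S (nat_lit 5374) (S (nat_lit 753) (L (nat_lit 29435314))
(L (nat_lit 8450579)))
(L (nat_lit 15911195)))
(L (nat_lit 1307122)))
(L (nat_lit 1274576)))
(L (nat_lit 3371575)))
(L (nat_lit 17462376)))
(L (nat_lit 5004839)))
(L (nat_lit 4995687)))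
(S (nat_lit 24162) (S (nat_lit 12215) (S (nat_lit 49133) (L (nat_lit 8440344))
(S (nat_lit 56584) (S (nat_lit 11966) (S (nat_lit 5633) (S (nat_lit 12179) (L (nat_lit 22415273))
(L (nat_lit 16603303)))
(L (nat_lit 15866588)))
(L (nat_lit 8802492)))
(L (nat_lit 9321555))))
(S (nat_lit 31979) (S (nat_lit 13691) (L (nat_lit 8848124))
(S (nat_lit 56336) (S (nat_lit 33410) (S (nat_lit 46120) (L (nat_lit 831763))
(L (nat_lit 10979122)))
(L (nat_lit 8882066)))
(L (nat_lit 9220210))))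
(S (nat_lit 51743) (S (nat_lit 26862) (S (nat_lit 43715) (S (nat_lit 20281) (S (nat_lit 26863) (L (nat_lit 18508935))
(L (nat_lit 16011044)))
(L (nat_lit 21466888)))
(L (nat_lit 24129050)))
(L (nat_lit 8443756)))
(L (nat_lit 25625877)))))
(S (nat_lit 43926) (S (nat_lit 14408) (S (nat_lit 5374) (S (nat_lit 26356) (L (nat_lit 28810976))
(L (nat_lit 8880914)))
(L (nat_lit 15912715)))
(S (nat_lit 34172) (S (nat_lit 5374) (L (nat_lit 8885042))
(L (nat_lit 15912747)))
(S (nat_lit 53936) (S (nat_lit 53633) (S (nat_lit 26863) (S (nat_lit 57581) (S (nat_lit 33161) (S (nat_lit 8524) (L (nat_lit 19194341))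
(L (nat_lit 12880658)))
(L (nat_lit 9351346)))
(L (nat_lit 20985611)))
(L (nat_lit 9948961)))
(L (nat_lit 1461594)))
(L (nat_lit 25766993)))))
(L (nat_lit 25386368)))))
(S (nat_lit 39528) (S (nat_lit 1766) (S (nat_lit 40282) (S (nat_lit 9545) (S (nat_lit 30460) (L (nat_lit 24969767))
(L (nat_lit 24650909)))
(L (nat_lit 11439667)))
(L (nat_lit 4628220)))
(S (nat_lit 21530) (S (nat_lit 3929) (S (nat_lit 33161) (S (nat_lit 13184) (L (nat_lit 28319218))
(L (nat_lit 24681661)))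
(L (nat_lit 14851858)))
(S (nat_lit 23693) (S (nat_lit 8656) (L (nat_lit 3426066))
(L (nat_lit 19831822)))
(S (nat_lit 43457) (S (nat_lit 20362) (L (nat_lit 6135470))
(L (nat_lit 24615997)))
(L (nat_lit 25828737)))))
(S (nat_lit 41294) (S (nat_lit 21236) (S (nat_lit 3671) (S (nat_lit 38016) (S (nat_lit 58002) (S (nat_lit 4398) (S (nat_lit 19218) (S (nat_lit 49073) (S (nat_lit 8524) (S (nat_lit 6386) (S (nat_lit 37514) (S (nat_lit 23951) (L (nat_lit 1398331))
(L (nat_lit 22472806)))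
(L (nat_lit 23655651)))
(L (nat_lit 3560700)))
(L (nat_lit 26943599)))
(L (nat_lit 22874477)))
(L (nat_lit 12224025)))
(L (nat_lit 26816647)))
(L (nat_lit 19840104)))
(L (nat_lit 3063528)))
(L (nat_lit 19971976)))
(L (nat_lit 22879684)))
(L (nat_lit 25892209)))))
(L (nat_lit 25212146)))))
(S (nat_lit 34409) (S (nat_lit 13397) (S (nat_lit 1766) (S (nat_lit 9252) (S (nat_lit 18474) (S (nat_lit 28287) (S (nat_lit 18253) (L (nat_lit 5531342))
(L (nat_lit 9125667)))
(L (nat_lit 11340180)))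
(S (nat_lit 38319) (L (nat_lit 21924235))
(L (nat_lit 26546645))))
(S (nat_lit 54578) (L (nat_lit 26448464))
(L (nat_lit 26758310))))
(S (nat_lit 21530) (S (nat_lit 13184) (S (nat_lit 16303) (S (nat_lit 16808) (L (nat_lit 15801981))
(L (nat_lit 22912389)))
(L (nat_lit 24911020)))
(S (nat_lit 32948) (S (nat_lit 10483) (S (nat_lit 36819) (L (nat_lit 29531636))
(L (nat_lit 20155868)))
(L (nat_lit 14868690)))
(S (nat_lit 52712) (S (nat_lit 42518) (S (nat_lit 10483) (L (nat_lit 15913241))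
(L (nat_lit 15574066)))
(L (nat_lit 16522820)))
(L (nat_lit 25768261)))))
(S (nat_lit 41294) (S (nat_lit 5374) (S (nat_lit 3716) (S (nat_lit 46119) (S (nat_lit 46120) (S (nat_lit 24916) (L (nat_lit 29508980))
(L (nat_lit 2629556)))
(L (nat_lit 5119474)))
(L (nat_lit 17604160)))
(L (nat_lit 26942884)))
(S (nat_lit 25138) (S (nat_lit 12896) (S (nat_lit 19765) (L (nat_lit 15632040))
(L (nat_lit 4070805)))
(S (nat_lit 26043) (S (nat_lit 32660) (L (nat_lit 15340426))
(L (nat_lit 4863259)))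
(L (nat_lit 3811804))))
(S (nat_lit 44902) (S (nat_lit 9252) (S (nat_lit 28287) (S (nat_lit 48781) (S (nat_lit 8524) (L (nat_lit 24309126))
(L (nat_lit 26876015)))
(L (nat_lit 10669529)))
(L (nat_lit 16386955)))
(L (nat_lit 6475568)))
(L (nat_lit 25700933)))))
(L (nat_lit 25723191)))))
(S (nat_lit 33161) (S (nat_lit 305) (S (nat_lit 30460) (S (nat_lit 45161) (S (nat_lit 52712) (S (nat_lit 17055) (L (nat_lit 9137700))
(L (nat_lit 9630382)))
(L (nat_lit 10663762)))
(L (nat_lit 8024078)))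
(L (nat_lit 8024612)))
(S (nat_lit 20069) (S (nat_lit 8524) (S (nat_lit 21236) (S (nat_lit 50011) (L (nat_lit 13913209))
(L (nat_lit 20842986)))
(L (nat_lit 7932409)))
(S (nat_lit 28288) (S (nat_lit 20281) (S (nat_lit 26863) (S (nat_lit 19765) (L (nat_lit 31066666))
(L (nat_lit 30821416)))
(L (nat_lit 15486276)))
(L (nat_lit 16391224)))
(S (nat_lit 48052) (S (nat_lit 21236) (L (nat_lit 13994898))
(L (nat_lit 16320857)))
(L (nat_lit 25611434)))))
(S (nat_lit 39833) (S (nat_lit 36572) (S (nat_lit 43244) (S (nat_lit 1) (S (nat_lit 7853) (S (nat_lit 46627) (L (nat_lit 28574317))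
(L (nat_lit 10947410)))
(L (nat_lit 10505693)))
(L (nat_lit 13388809)))
(L (nat_lit 27991525)))
(L (nat_lit 10604463)))
(L (nat_lit 25217392)))))
(S (nat_lit 52925) (S (nat_lit 0) (S (nat_lit 8524) (S (nat_lit 14105) (S (nat_lit 9252) (S (nat_lit 58298) (S (nat_lit 13184) (L (nat_lit 18664486))
(L (nat_lit 26554546)))
(L (nat_lit 7826578)))
(L (nat_lit 26758311)))
(L (nat_lit 9194913)))
(S (nat_lit 40246) (L (nat_lit 26692774))
(L (nat_lit 26385103))))
(S (nat_lit 19764) (S (nat_lit 16808) (S (nat_lit 36067) (S (nat_lit 5151) (L (nat_lit 18914777))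
(L (nat_lit 15802008)))
(L (nat_lit 30875237)))
(S (nat_lit 36572) (S (nat_lit 9252) (S (nat_lit 48781) (L (nat_lit 2596572))
(L (nat_lit 2575580)))
(L (nat_lit 15518822)))
(S (nat_lit 56336) (S (nat_lit 4398) (S (nat_lit 54431) (L (nat_lit 9220146))
(L (nat_lit 9259523)))
(L (nat_lit 1291154)))
(L (nat_lit 25275085)))))
(S (nat_lit 39528) (S (nat_lit 1766) (S (nat_lit 23480) (S (nat_lit 32948) (S (nat_lit 47381) (L (nat_lit 17702003))
(L (nat_lit 2662291)))
(L (nat_lit 20749488)))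
(L (nat_lit 18718405)))
(S (nat_lit 21530) (S (nat_lit 27617) (L (nat_lit 14392347))
(L (nat_lit 31104144)))
(S (nat_lit 41294) (S (nat_lit 19218) (L (nat_lit 22604808))
(L (nat_lit 4781675)))
(L (nat_lit 25919880)))))
(L (nat_lit 25172371)))))
(L (nat_lit 25664097)))))
(S (nat_lit 54173) (S (nat_lit 16808) (S (nat_lit 305) (S (nat_lit 39529) (S (nat_lit 27617) (S (nat_lit 43199) (S (nat_lit 11498) (S (nat_lit 53936) (S (nat_lit 8524) (L (nat_lit 24578363))
(L (nat_lit 12700986)))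
(L (nat_lit 2673978)))
(L (nat_lit 16698507)))
(L (nat_lit 4799704)))
(L (nat_lit 1298353)))
(L (nat_lit 17026979)))
(S (nat_lit 20069) (S (nat_lit 29017) (L (nat_lit 2018609))
(L (nat_lit 8572748)))
(S (nat_lit 39833) (S (nat_lit 37817) (S (nat_lit 37514) (L (nat_lit 28855555))
(L (nat_lit 9260579)))
(L (nat_lit 1396524)))
(L (nat_lit 25933155)))))
(S (nat_lit 36572) (S (nat_lit 10482) (S (nat_lit 39833) (S (nat_lit 46627) (S (nat_lit 17287) (S (nat_lit 31262) (S (nat_lit 56583) (L (nat_lit 4544920))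
(L (nat_lit 7124708)))
(L (nat_lit 31033866)))
(L (nat_lit 22886596)))
(L (nat_lit 18107420)))
(L (nat_lit 17140442)))
(S (nat_lit 30246) (S (nat_lit 6842) (S (nat_lit 21965) (S (nat_lit 9252) (S (nat_lit 17287) (L (nat_lit 28563940))
(L (nat_lit 22875562)))
(L (nat_lit 15346437)))
(L (nat_lit 8991492)))
(S (nat_lit 26606) (S (nat_lit 3671) (S (nat_lit 20281) (S (nat_lit 26863) (L (nat_lit 28778212))
(L (nat_lit 8996708)))
(L (nat_lit 9073092)))
(L (nat_lit 19676421)))
(S (nat_lit 46370) (S (nat_lit 1) (S (nat_lit 23693) (L (nat_lit 6949435))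
(L (nat_lit 21768739)))
(L (nat_lit 26463618)))
(L (nat_lit 25338293)))))
(S (nat_lit 50010) (S (nat_lit 39833) (S (nat_lit 46627) (S (nat_lit 33869) (S (nat_lit 51236) (S (nat_lit 31730) (S (nat_lit 754) (L (nat_lit 10631868))
(L (nat_lit 619051)))
(L (nat_lit 17599207)))
(L (nat_lit 27691687)))
(L (nat_lit 15597842)))
(L (nat_lit 18107420)))
(L (nat_lit 18549578)))
(L (nat_lit 25725611)))))
(S (nat_lit 56336) (S (nat_lit 51707) (S (nat_lit 38982) (S (nat_lit 17287) (S (nat_lit 53936) (S (nat_lit 3470) (S (nat_lit 45434) (S (nat_lit 31979) (L (nat_lit 28530732))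
(L (nat_lit 13661831)))
(L (nat_lit 15441978)))
(L (nat_lit 19940572)))
(L (nat_lit 7955970)))
(L (nat_lit 11931290)))
(L (nat_lit 23563610)))
(L (nat_lit 15044248)))
(L (nat_lit 25513071)))))
(L (nat_lit 25377509)))))
(S (nat_lit 35138) (S (nat_lit 5151) (S (nat_lit 8523) (S (nat_lit 753) (S (nat_lit 9253) (S (nat_lit 14903) (S (nat_lit 30247) (S (nat_lit 1472) (L (nat_lit 29476584))
(L (nat_lit 26236360)))
(L (nat_lit 11071602)))
(L (nat_lit 22606952)))
(S (nat_lit 29017) (S (nat_lit 52925) (L (nat_lit 26713697))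
(L (nat_lit 21492906)))
(S (nat_lit 48781) (S (nat_lit 35396) (S (nat_lit 34409) (L (nat_lit 9046456))
(L (nat_lit 7998905)))
(L (nat_lit 18492473)))
(L (nat_lit 25351377)))))
(S (nat_lit 20517) (S (nat_lit 12277) (L (nat_lit 9990787))
(S (nat_lit 13388) (S (nat_lit 35396) (S (nat_lit 6591) (S (nat_lit 48052) (S (nat_lit 27368) (S (nat_lit 25670) (S (nat_lit 754) (S (nat_lit 11498) (S (nat_lit 14645) (S (nat_lit 25397) (L (nat_lit 21110200))
(L (nat_lit 7009358)))
(L (nat_lit 13176125)))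
(L (nat_lit 7009422)))
(L (nat_lit 20280462)))
(L (nat_lit 21261797)))
(L (nat_lit 16554099)))
(L (nat_lit 8579506)))
(L (nat_lit 21830732)))
(L (nat_lit 8905842)))
(L (nat_lit 4650258))))
(S (nat_lit 40281) (S (nat_lit 3680) (S (nat_lit 44902) (S (nat_lit 48052) (S (nat_lit 50777) (L (nat_lit 10568441))
(L (nat_lit 20251468)))
(L (nat_lit 17440953)))
(L (nat_lit 27927013)))
(S (nat_lit 23444) (S (nat_lit 50223) (L (nat_lit 5923085))
(L (nat_lit 9072005)))
(S (nat_lit 43208) (S (nat_lit 39528) (L (nat_lit 13474995))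
(L (nat_lit 4846796)))
(L (nat_lit 25560776)))))
(L (nat_lit 25517196)))))
(S (nat_lit 28287) (S (nat_lit 3680) (S (nat_lit 50223) (L (nat_lit 664333))
(L (nat_lit 9072005)))
(S (nat_lit 23444) (S (nat_lit 5374) (S (nat_lit 48781) (L (nat_lit 4858797))
(L (nat_lit 11165804)))
(S (nat_lit 25138) (S (nat_lit 30460) (S (nat_lit 18053) (S (nat_lit 40045) (L (nat_lit 30015820))
(L (nat_lit 18489124)))
(L (nat_lit 26878028)))
(L (nat_lit 31073329)))
(S (nat_lit 44902) (S (nat_lit 23693) (L (nat_lit 14289242))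
(L (nat_lit 31071247)))
(L (nat_lit 25831973)))))
(S (nat_lit 43208) (S (nat_lit 52712) (S (nat_lit 34409) (S (nat_lit 29016) (L (nat_lit 18630852))
(L (nat_lit 18492229)))
(L (nat_lit 16392004)))
(L (nat_lit 17462410)))
(L (nat_lit 25510596)))))
(S (nat_lit 48051) (S (nat_lit 14105) (S (nat_lit 1348) (L (nat_lit 4418223))
(S (nat_lit 49790) (S (nat_lit 18475) (S (nat_lit 2990) (S (nat_lit 35396) (S (nat_lit 56815) (S (nat_lit 754) (S (nat_lit 50224) (L (nat_lit 4545359))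
(L (nat_lit 27932714)))
(L (nat_lit 1498027)))
(L (nat_lit 27987212)))
(L (nat_lit 20743658)))
(L (nat_lit 11458605)))
(L (nat_lit 18621061)))
(L (nat_lit 6452757))))
(S (nat_lit 33869) (S (nat_lit 9980) (S (nat_lit 5374) (S (nat_lit 48052) (S (nat_lit 19219) (S (nat_lit 5152) (L (nat_lit 10879704))
(L (nat_lit 11153530)))
(L (nat_lit 26294887)))
(L (nat_lit 18507943)))
(L (nat_lit 16633152)))
(S (nat_lit 29744) (S (nat_lit 50010) (S (nat_lit 40045) (S (nat_lit 35396) (L (nat_lit 6478607))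
(L (nat_lit 666041)))
(L (nat_lit 27930881)))
(L (nat_lit 20280802)))
(S (nat_lit 49508) (S (nat_lit 19764) (S (nat_lit 39833) (S (nat_lit 43208) (L (nat_lit 17459522))
(L (nat_lit 9325988)))
(L (nat_lit 17943896)))
(L (nat_lit 9306546)))
(L (nat_lit 25696866)))))
(S (nat_lit 53633) (S (nat_lit 11498) (S (nat_lit 39528) (S (nat_lit 36572) (S (nat_lit 48052) (L (nat_lit 2826092))
(L (nat_lit 2543527)))
(L (nat_lit 11455876)))
(L (nat_lit 27282636)))
(S (nat_lit 31262) (S (nat_lit 37817) (S (nat_lit 13433) (L (nat_lit 4567858))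
(L (nat_lit 5131536)))
(L (nat_lit 5098890)))
(S (nat_lit 51026) (S (nat_lit 43208) (S (nat_lit 5374) (S (nat_lit 16808) (L (nat_lit 29510864))
(L (nat_lit 22360933)))
(L (nat_lit 18009862)))
(L (nat_lit 5820166)))
(L (nat_lit 25646219)))))
(L (nat_lit 25516177)))))
(L (nat_lit 25594228)))))
(S (nat_lit 24915) (S (nat_lit 11498) (S (nat_lit 18474) (S (nat_lit 33152) (S (nat_lit 58747) (S (nat_lit 15632) (S (nat_lit 31013) (S (nat_lit 4503) (S (nat_lit 36572) (L (nat_lit 23441497))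
(L (nat_lit 3498388)))
(L (nat_lit 9091904)))
(L (nat_lit 19775530)))
(L (nat_lit 2441138)))
(L (nat_lit 27963616)))
(L (nat_lit 16442538)))
(S (nat_lit 38238) (S (nat_lit 9545) (S (nat_lit 17750) (S (nat_lit 24162) (S (nat_lit 33152) (S (nat_lit 56815) (S (nat_lit 31013) (S (nat_lit 2201) (L (nat_lit 12366467))
(L (nat_lit 1889834)))
(L (nat_lit 17489962)))
(L (nat_lit 16378890)))
(L (nat_lit 16420618)))
(L (nat_lit 3649330)))
(L (nat_lit 8055331)))
(S (nat_lit 41898) (L (nat_lit 26904781))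
(L (nat_lit 9342515))))
(S (nat_lit 58002) (S (nat_lit 9545) (S (nat_lit 58747) (S (nat_lit 57278) (L (nat_lit 8483251))
(L (nat_lit 15649930)))
(L (nat_lit 9078573)))
(L (nat_lit 15379548)))
(L (nat_lit 25242193)))))
(S (nat_lit 31262) (S (nat_lit 754) (S (nat_lit 18053) (S (nat_lit 37050) (S (nat_lit 50777) (S (nat_lit 56815) (S (nat_lit 34409) (S (nat_lit 3470) (S (nat_lit 42518) (S (nat_lit 56336) (S (nat_lit 48052) (L (nat_lit 5584508))
(L (nat_lit 2550410)))
(L (nat_lit 5596722)))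
(L (nat_lit 10247684)))
(L (nat_lit 3598983)))
(L (nat_lit 30685234)))
(L (nat_lit 2940330)))
(L (nat_lit 13276939)))
(L (nat_lit 18624133)))
(S (nat_lit 37817) (S (nat_lit 51533) (L (nat_lit 30549555))
(S (nat_lit 52424) (S (nat_lit 56815) (S (nat_lit 5152) (L (nat_lit 29990402))
(L (nat_lit 16093883)))
(L (nat_lit 21303116)))
(L (nat_lit 8906400))))
(S (nat_lit 57581) (S (nat_lit 54431) (S (nat_lit 46626) (L (nat_lit 11389443))
(L (nat_lit 11078173)))
(L (nat_lit 9071139)))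
(L (nat_lit 25248116)))))
(S (nat_lit 20518) (S (nat_lit 30026) (S (nat_lit 51494) (S (nat_lit 31979) (L (nat_lit 10122786))
(L (nat_lit 7115251)))
(L (nat_lit 3470869)))
(L (nat_lit 2814255)))
(S (nat_lit 40282) (S (nat_lit 14408) (S (nat_lit 14105) (S (nat_lit 43715) (S (nat_lit 49790) (S (nat_lit 11966) (L (nat_lit 28630190))
(L (nat_lit 4891164)))
(L (nat_lit 4995381)))
(L (nat_lit 24907270)))
(L (nat_lit 8534716)))
(L (nat_lit 9358882)))
(L (nat_lit 25597172)))))
(S (nat_lit 51026) (S (nat_lit 18475) (S (nat_lit 31850) (L (nat_lit 15904691))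
(S (nat_lit 49073) (S (nat_lit 19219) (S (nat_lit 58298) (S (nat_lit 11249) (L (nat_lit 9003054))
(L (nat_lit 26915882)))
(L (nat_lit 2905292)))
(L (nat_lit 4912461)))
(L (nat_lit 15904563))))
(S (nat_lit 38239) (S (nat_lit 30026) (S (nat_lit 49073) (S (nat_lit 19219) (S (nat_lit 7604) (L (nat_lit 20719108))
(L (nat_lit 14331777)))
(L (nat_lit 2935306)))
(L (nat_lit 4889144)))
(L (nat_lit 2814470)))
(S (nat_lit 58003) (S (nat_lit 19219) (S (nat_lit 49073) (S (nat_lit 10262) (S (nat_lit 36819) (S (nat_lit 38016) (S (nat_lit 15632) (S (nat_lit 41294) (S (nat_lit 12215) (L (nat_lit 29471990))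
(L (nat_lit 3632467)))
(L (nat_lit 3895601)))
(L (nat_lit 17461569)))
(L (nat_lit 23457809)))
(L (nat_lit 11044757)))
(L (nat_lit 15392774)))
(L (nat_lit 4894605)))
(S (nat_lit 31654) (S (nat_lit 17750) (L (nat_lit 2792236))
(L (nat_lit 16426753)))
(L (nat_lit 4912461))))
(L (nat_lit 25727283)))))
(L (nat_lit 25569858)))))
(S (nat_lit 44679) (S (nat_lit 17056) (S (nat_lit 6386) (S (nat_lit 10695) (S (nat_lit 51236) (S (nat_lit 57781) (S (nat_lit 32660) (L (nat_lit 3593565))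
(L (nat_lit 4860782)))
(L (nat_lit 5029547)))
(L (nat_lit 10273445)))
(S (nat_lit 30459) (S (nat_lit 12116) (L (nat_lit 9831187))
(S (nat_lit 37514) (S (nat_lit 19218) (L (nat_lit 16074939))
(L (nat_lit 4694649)))
(L (nat_lit 10308750))))
(S (nat_lit 50223) (S (nat_lit 37514) (S (nat_lit 20069) (S (nat_lit 55160) (L (nat_lit 28877474))
(L (nat_lit 16408931)))
(L (nat_lit 21502755)))
(L (nat_lit 8468370)))
(L (nat_lit 25837795)))))
(S (nat_lit 26150) (S (nat_lit 13397) (S (nat_lit 46120) (S (nat_lit 56336) (S (nat_lit 4398) (S (nat_lit 36067) (S (nat_lit 19219) (L (nat_lit 23164454))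
(L (nat_lit 5028182)))
(L (nat_lit 12721939)))
(L (nat_lit 7386002)))
(L (nat_lit 16653426)))
(L (nat_lit 4477433)))
(S (nat_lit 33161) (S (nat_lit 305) (S (nat_lit 38238) (L (nat_lit 5959951))
(L (nat_lit 24001578)))
(L (nat_lit 2629559)))
(S (nat_lit 52925) (S (nat_lit 40045) (L (nat_lit 11323532))
(L (nat_lit 27925985)))
(L (nat_lit 25889073)))))
(S (nat_lit 45914) (S (nat_lit 17287) (S (nat_lit 34172) (L (nat_lit 14831402))
(L (nat_lit 23959633)))
(S (nat_lit 37051) (S (nat_lit 51743) (S (nat_lit 5906) (S (nat_lit 10262) (L (nat_lit 7005200))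
(L (nat_lit 436019)))
(L (nat_lit 1809196)))
(L (nat_lit 10225356)))
(S (nat_lit 56815) (S (nat_lit 12179) (S (nat_lit 48051) (S (nat_lit 0) (L (nat_lit 3357459))
(L (nat_lit 26411628)))
(L (nat_lit 2482612)))
(L (nat_lit 9277132)))
(L (nat_lit 25726602)))))
(L (nat_lit 25629320)))))
(S (nat_lit 36820) (S (nat_lit 46370) (S (nat_lit 13433) (S (nat_lit 30026) (S (nat_lit 56815) (S (nat_lit 517) (S (nat_lit 3680) (L (nat_lit 28723393))
(L (nat_lit 26881508)))
(L (nat_lit 26876385)))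
(L (nat_lit 27989482)))
(L (nat_lit 13281093)))
(S (nat_lit 33197) (S (nat_lit 48052) (S (nat_lit 2201) (S (nat_lit 5374) (S (nat_lit 38239) (S (nat_lit 56815) (S (nat_lit 37817) (L (nat_lit 29870186))
(L (nat_lit 23466858)))
(L (nat_lit 357878)))
(L (nat_lit 23569248)))
(L (nat_lit 11166176)))
(L (nat_lit 20474986)))
(S (nat_lit 50375) (L (nat_lit 27472581))
(L (nat_lit 18014858))))
(S (nat_lit 52961) (S (nat_lit 55160) (S (nat_lit 48052) (S (nat_lit 18474) (S (nat_lit 12179) (L (nat_lit 29708803))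
(L (nat_lit 3580691)))
(L (nat_lit 24919082)))
(L (nat_lit 18795626)))
(L (nat_lit 11291105)))
(L (nat_lit 25284043)))))
(L (nat_lit 20756618)))
(S (nat_lit 56584) (S (nat_lit 7098) (S (nat_lit 18770) (S (nat_lit 22259) (S (nat_lit 26606) (L (nat_lit 973322))
(L (nat_lit 15737747)))
(L (nat_lit 21492961)))
(S (nat_lit 38534) (S (nat_lit 39528) (S (nat_lit 52424) (L (nat_lit 20841838))
(L (nat_lit 9274988)))
(L (nat_lit 4650226)))
(S (nat_lit 58298) (S (nat_lit 11708) (S (nat_lit 29017) (L (nat_lit 15857011))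
(L (nat_lit 9060228)))
(L (nat_lit 9286835)))
(L (nat_lit 25248978)))))
(S (nat_lit 26862) (S (nat_lit 2495) (S (nat_lit 9980) (L (nat_lit 18666570))
(L (nat_lit 9056348)))
(S (nat_lit 22259) (S (nat_lit 43457) (S (nat_lit 57780) (L (nat_lit 212729))
(L (nat_lit 4945386)))
(L (nat_lit 1717030)))
(S (nat_lit 42023) (S (nat_lit 46119) (S (nat_lit 25670) (S (nat_lit 54431) (L (nat_lit 30033154))
(L (nat_lit 21766691)))
(L (nat_lit 3977830)))
(L (nat_lit 20754534)))
(L (nat_lit 25678049)))))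
(S (nat_lit 46626) (S (nat_lit 10482) (S (nat_lit 33410) (S (nat_lit 19218) (L (nat_lit 16074939))
(L (nat_lit 2863947)))
(L (nat_lit 14836394)))
(S (nat_lit 30246) (S (nat_lit 17286) (S (nat_lit 44680) (S (nat_lit 48052) (S (nat_lit 47381) (L (nat_lit 9986229))
(L (nat_lit 20457346)))
(L (nat_lit 2497394)))
(L (nat_lit 27369133)))
(S (nat_lit 56428) (L (nat_lit 17918325))
(L (nat_lit 24448505))))
(S (nat_lit 50010) (S (nat_lit 40045) (S (nat_lit 12896) (L (nat_lit 8900453))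
(L (nat_lit 10261164)))
(L (nat_lit 27762305)))
(L (nat_lit 25934084)))))
(L (nat_lit 25216340)))))
(L (nat_lit 25801802)))))
(L (nat_lit 25271953)))))
(S (nat_lit 54902) (S (nat_lit 1) (S (nat_lit 16808) (S (nat_lit 17750) (S (nat_lit 23444) (L (nat_lit 28528160))
(L (nat_lit 18075428)))
(S (nat_lit 37514) (S (nat_lit 48780) (S (nat_lit 13646) (L (nat_lit 11133316))
(L (nat_lit 12734219)))
(L (nat_lit 15978403)))
(S (nat_lit 57278) (S (nat_lit 5374) (S (nat_lit 7098) (L (nat_lit 8899641))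
(L (nat_lit 7163427)))
(L (nat_lit 2969131)))
(L (nat_lit 25313524)))))
(S (nat_lit 36572) (S (nat_lit 4398) (S (nat_lit 5151) (S (nat_lit 7098) (S (nat_lit 2201) (L (nat_lit 15769429))
(L (nat_lit 6894405)))
(L (nat_lit 26692615)))
(S (nat_lit 24915) (S (nat_lit 33161) (S (nat_lit 35396) (S (nat_lit 49073) (S (nat_lit 13646) (L (nat_lit 10499890))
(L (nat_lit 7486226)))
(L (nat_lit 16420218)))
(L (nat_lit 20287277)))
(L (nat_lit 15993778)))
(S (nat_lit 44679) (S (nat_lit 52925) (S (nat_lit 49073) (L (nat_lit 15338283))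
(L (nat_lit 4999559)))
(L (nat_lit 11309681)))
(L (nat_lit 25549216)))))
(S (nat_lit 24162) (S (nat_lit 2990) (S (nat_lit 43199) (S (nat_lit 9545) (S (nat_lit 9980) (L (nat_lit 7527215))
(L (nat_lit 9049007)))
(L (nat_lit 9351908)))
(L (nat_lit 9026746)))
(S (nat_lit 22754) (S (nat_lit 51026) (S (nat_lit 18252) (S (nat_lit 39833) (S (nat_lit 26355) (S (nat_lit 13646) (S (nat_lit 6386) (S (nat_lit 43199) (S (nat_lit 58747) (L (nat_lit 760281))
(L (nat_lit 21868869)))
(L (nat_lit 27271919)))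
(L (nat_lit 26290615)))
(L (nat_lit 7486226)))
(L (nat_lit 3955175)))
(L (nat_lit 10597207)))
(L (nat_lit 22242351)))
(L (nat_lit 13389090)))
(S (nat_lit 42518) (S (nat_lit 39833) (S (nat_lit 24916) (S (nat_lit 51026) (S (nat_lit 754) (L (nat_lit 30091345))
(L (nat_lit 9180692)))
(L (nat_lit 22809098)))
(L (nat_lit 2765574)))
(L (nat_lit 23867747)))
(L (nat_lit 25894341)))))
(S (nat_lit 43926) (S (nat_lit 13646) (S (nat_lit 36819) (S (nat_lit 31943) (S (nat_lit 39833) (L (nat_lit 18752626))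
(L (nat_lit 11350723)))
(L (nat_lit 24919298)))
(L (nat_lit 20712969)))
(S (nat_lit 18884) (L (nat_lit 10964770))
(L (nat_lit 7833364))))
(L (nat_lit 25210607)))))
(S (nat_lit 56336) (S (nat_lit 754) (S (nat_lit 31943) (S (nat_lit 13646) (L (nat_lit 28350994))
(L (nat_lit 13916960)))
(S (nat_lit 46776) (L (nat_lit 18887562))
(L (nat_lit 19263596))))
(S (nat_lit 20518) (S (nat_lit 12179) (S (nat_lit 12896) (S (nat_lit 42023) (L (nat_lit 21011342))
(L (nat_lit 1844845)))
(L (nat_lit 16394332)))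
(L (nat_lit 5679925)))
(S (nat_lit 40282) (S (nat_lit 17750) (S (nat_lit 4187) (L (nat_lit 24547114))
(L (nat_lit 11619119)))
(L (nat_lit 16520436)))
(L (nat_lit 25216742)))))
(L (nat_lit 25281780)))))
(S (nat_lit 19765) (S (nat_lit 7098) (S (nat_lit 5374) (S (nat_lit 9980) (S (nat_lit 57278) (L (nat_lit 30625317))
(L (nat_lit 21488714)))
(S (nat_lit 29744) (S (nat_lit 33197) (S (nat_lit 43715) (L (nat_lit 9915420))
(L (nat_lit 8844896)))
(L (nat_lit 5923307)))
(S (nat_lit 49508) (S (nat_lit 20281) (S (nat_lit 43208) (L (nat_lit 8901722))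
(L (nat_lit 4859386)))
(L (nat_lit 4878825)))
(L (nat_lit 25636512)))))
(S (nat_lit 25138) (S (nat_lit 28288) (S (nat_lit 8523) (S (nat_lit 52961) (S (nat_lit 26863) (S (nat_lit 47381) (S (nat_lit 40045) (L (nat_lit 18521987))
(L (nat_lit 27413961)))
(L (nat_lit 2968785)))
(L (nat_lit 9588527)))
(L (nat_lit 17878328)))
(L (nat_lit 5689129)))
(L (nat_lit 11357359)))
(S (nat_lit 44902) (S (nat_lit 36572) (S (nat_lit 48780) (S (nat_lit 517) (L (nat_lit 3001899))
(L (nat_lit 12864667)))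
(L (nat_lit 479142)))
(L (nat_lit 11292197)))
(L (nat_lit 25871499)))))
(S (nat_lit 26862) (S (nat_lit 7604) (S (nat_lit 17056) (S (nat_lit 31943) (S (nat_lit 56336) (S (nat_lit 51236) (L (nat_lit 28553957))
(L (nat_lit 22448442)))
(L (nat_lit 4846118)))
(L (nat_lit 5001769)))
(S (nat_lit 36820) (S (nat_lit 43208) (S (nat_lit 54431) (S (nat_lit 51989) (S (nat_lit 43715) (L (nat_lit 7264773))
(L (nat_lit 27479215)))
(L (nat_lit 4671736)))
(L (nat_lit 9259555)))
(L (nat_lit 5033229)))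
(S (nat_lit 56584) (S (nat_lit 51533) (S (nat_lit 26606) (L (nat_lit 19165197))
(L (nat_lit 16029525)))
(S (nat_lit 52424) (S (nat_lit 24163) (S (nat_lit 16303) (L (nat_lit 10906644))
(L (nat_lit 11038899)))
(L (nat_lit 21488777)))
(L (nat_lit 8974419))))
(L (nat_lit 25893381)))))
(S (nat_lit 27368) (S (nat_lit 6591) (S (nat_lit 26863) (S (nat_lit 5152) (L (nat_lit 2596630))
(L (nat_lit 16446819)))
(L (nat_lit 16517801)))
(S (nat_lit 26355) (S (nat_lit 34409) (S (nat_lit 34172) (S (nat_lit 27617) (S (nat_lit 30247) (L (nat_lit 11000704))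
(L (nat_lit 10908256)))
(L (nat_lit 5033415)))
(L (nat_lit 5033479)))
(S (nat_lit 36677) (S (nat_lit 54173) (S (nat_lit 20069) (S (nat_lit 21965) (L (nat_lit 15469256))
(L (nat_lit 31043877)))
(L (nat_lit 31142243)))
(L (nat_lit 4485808)))
(L (nat_lit 16550258))))
(S (nat_lit 46119) (S (nat_lit 9252) (S (nat_lit 517) (L (nat_lit 2891254))
(L (nat_lit 4050377)))
(L (nat_lit 15499974)))
(L (nat_lit 25238006)))))
(S (nat_lit 47132) (S (nat_lit 14408) (S (nat_lit 56336) (S (nat_lit 20281) (S (nat_lit 54431) (L (nat_lit 17865652))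
(L (nat_lit 8964929)))
(L (nat_lit 14742184)))
(L (nat_lit 5033293)))
(S (nat_lit 34172) (S (nat_lit 754) (S (nat_lit 11498) (S (nat_lit 41729) (L (nat_lit 5088820))
(L (nat_lit 15954006)))
(L (nat_lit 16689205)))
(L (nat_lit 9192597)))
(S (nat_lit 53936) (S (nat_lit 26863) (S (nat_lit 33410) (S (nat_lit 43715) (S (nat_lit 56336) (L (nat_lit 19391712))
(L (nat_lit 21066278)))
(L (nat_lit 9189984)))
(L (nat_lit 15486176)))
(L (nat_lit 4706153)))
(L (nat_lit 25475090)))))
(L (nat_lit 25278709)))))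
(S (nat_lit 46626) (S (nat_lit 13184) (S (nat_lit 12461) (S (nat_lit 33410) (S (nat_lit 3680) (S (nat_lit 50224) (L (nat_lit 9072785))
(L (nat_lit 3002700)))
(L (nat_lit 26879151)))
(L (nat_lit 15884498)))
(S (nat_lit 32225) (S (nat_lit 56336) (S (nat_lit 14105) (L (nat_lit 11209647))
(L (nat_lit 26627395)))
(L (nat_lit 16076581)))
(S (nat_lit 51989) (S (nat_lit 33410) (S (nat_lit 44680) (L (nat_lit 21152093))
(L (nat_lit 5923181)))
(L (nat_lit 8539547)))
(L (nat_lit 25857542)))))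
(S (nat_lit 32948) (S (nat_lit 7205) (S (nat_lit 869) (L (nat_lit 26772694))
(L (nat_lit 21496189)))
(S (nat_lit 37051) (S (nat_lit 50224) (S (nat_lit 51743) (S (nat_lit 11498) (S (nat_lit 56336) (L (nat_lit 3422067))
(L (nat_lit 9220709)))
(L (nat_lit 21300076)))
(L (nat_lit 10154466)))
(L (nat_lit 2829881)))
(L (nat_lit 4551155))))
(S (nat_lit 52712) (S (nat_lit 31943) (S (nat_lit 33410) (S (nat_lit 754) (S (nat_lit 37051) (S (nat_lit 17750) (L (nat_lit 5676885))
(L (nat_lit 2608907)))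
(L (nat_lit 18781395)))
(L (nat_lit 10940565)))
(L (nat_lit 8539547)))
(L (nat_lit 16937301)))
(L (nat_lit 25723530)))))
(L (nat_lit 25220461)))))
(S (nat_lit 39529) (S (nat_lit 12215) (S (nat_lit 9253) (S (nat_lit 18253) (S (nat_lit 57581) (S (nat_lit 52961) (S (nat_lit 3470) (S (nat_lit 8523) (L (nat_lit 23499128))
(L (nat_lit 5633676)))
(L (nat_lit 26662025)))
(L (nat_lit 17583115)))
(L (nat_lit 10963992)))
(S (nat_lit 38017) (S (nat_lit 51236) (L (nat_lit 22278531))
(L (nat_lit 4627064)))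
(S (nat_lit 57781) (S (nat_lit 30459) (S (nat_lit 58002) (L (nat_lit 14905397))
(L (nat_lit 21249794)))
(L (nat_lit 4866825)))
(L (nat_lit 25253350)))))
(S (nat_lit 29017) (S (nat_lit 17287) (S (nat_lit 26862) (L (nat_lit 7491469))
(L (nat_lit 9358883)))
(S (nat_lit 37051) (S (nat_lit 30459) (S (nat_lit 25397) (L (nat_lit 2815463))
(L (nat_lit 4863785)))
(L (nat_lit 4866825)))
(S (nat_lit 56815) (S (nat_lit 23567) (L (nat_lit 10647181))
(S (nat_lit 32948) (S (nat_lit 49508) (S (nat_lit 49073) (L (nat_lit 17461572))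
(L (nat_lit 4894264)))
(L (nat_lit 2454003)))
(L (nat_lit 9221765))))
(L (nat_lit 25308812)))))
(S (nat_lit 48781) (S (nat_lit 18474) (S (nat_lit 20281) (S (nat_lit 38982) (L (nat_lit 9291793))
(L (nat_lit 11199663)))
(L (nat_lit 4715176)))
(S (nat_lit 38238) (S (nat_lit 18053) (S (nat_lit 46370) (S (nat_lit 30026) (L (nat_lit 4679925))
(L (nat_lit 11188251)))
(L (nat_lit 10970261)))
(L (nat_lit 18490396)))
(S (nat_lit 58002) (S (nat_lit 30247) (S (nat_lit 48780) (L (nat_lit 17913768))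
(L (nat_lit 13757063)))
(L (nat_lit 11047549)))
(L (nat_lit 25930180)))))
(L (nat_lit 25278089)))))
(S (nat_lit 31979) (S (nat_lit 6591) (S (nat_lit 32660) (S (nat_lit 38017) (S (nat_lit 30247) (S (nat_lit 51707) (L (nat_lit 7484242))
(L (nat_lit 22082828)))
(L (nat_lit 31000844)))
(L (nat_lit 30834963)))
(L (nat_lit 1914536)))
(S (nat_lit 26355) (S (nat_lit 13184) (S (nat_lit 51707) (S (nat_lit 305) (L (nat_lit 22550585))
(L (nat_lit 20296764)))
(L (nat_lit 15502985)))
(S (nat_lit 32948) (S (nat_lit 20069) (S (nat_lit 17055) (L (nat_lit 12111682))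
(L (nat_lit 15429924)))
(L (nat_lit 22132057)))
(S (nat_lit 52712) (S (nat_lit 39833) (L (nat_lit 5164369))
(L (nat_lit 1849066)))
(L (nat_lit 25828528)))))
(S (nat_lit 46119) (S (nat_lit 18475) (S (nat_lit 29420) (S (nat_lit 9980) (S (nat_lit 753) (S (nat_lit 52916) (S (nat_lit 48780) (S (nat_lit 41405) (S (nat_lit 33005) (L (nat_lit 1263258))
(L (nat_lit 5731572)))
(L (nat_lit 11375280)))
(L (nat_lit 22490237)))
(L (nat_lit 18538787)))
(L (nat_lit 10509229)))
(L (nat_lit 11143085)))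
(S (nat_lit 29744) (S (nat_lit 46120) (L (nat_lit 28396010))
(L (nat_lit 11662834)))
(L (nat_lit 4743017))))
(S (nat_lit 38239) (S (nat_lit 30459) (S (nat_lit 17287) (L (nat_lit 18583466))
(L (nat_lit 5875195)))
(L (nat_lit 4866827)))
(S (nat_lit 58003) (S (nat_lit 40045) (L (nat_lit 17058937))
(L (nat_lit 10963001)))
(L (nat_lit 25508915)))))
(L (nat_lit 25238998)))))
(S (nat_lit 51743) (S (nat_lit 3470) (S (nat_lit 754) (S (nat_lit 34172) (S (nat_lit 37051) (L (nat_lit 20378634))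
(L (nat_lit 23326732)))
(L (nat_lit 23314272)))
(L (nat_lit 8811203)))
(S (nat_lit 23234) (S (nat_lit 31943) (S (nat_lit 32660) (S (nat_lit 31262) (L (nat_lit 9068591))
(L (nat_lit 5092075)))
(L (nat_lit 4710675)))
(L (nat_lit 17567367)))
(S (nat_lit 42998) (S (nat_lit 37051) (S (nat_lit 32660) (S (nat_lit 754) (L (nat_lit 1300399))
(L (nat_lit 10504116)))
(L (nat_lit 11356172)))
(L (nat_lit 23327204)))
(L (nat_lit 25937090)))))
(L (nat_lit 25870658)))))
(L (nat_lit 25761806)))))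
(L (nat_lit 25319947)))))
(S (nat_lit 36066) (S (nat_lit 11966) (S (nat_lit 17056) (S (nat_lit 13388) (S (nat_lit 13397) (S (nat_lit 3470) (S (nat_lit 24163) (L (nat_lit 15735548))
(L (nat_lit 8414612)))
(S (nat_lit 23234) (S (nat_lit 26862) (S (nat_lit 14903) (S (nat_lit 45434) (L (nat_lit 6942894))
(L (nat_lit 24580474)))
(L (nat_lit 4758173)))
(L (nat_lit 5002759)))
(S (nat_lit 42998) (S (nat_lit 20518) (L (nat_lit 6481461))
(L (nat_lit 15754484)))
(L (nat_lit 25252047)))))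
(S (nat_lit 33161) (S (nat_lit 305) (S (nat_lit 8730) (L (nat_lit 18107137))
(S (nat_lit 40282) (S (nat_lit 16808) (S (nat_lit 6842) (S (nat_lit 50223) (L (nat_lit 4482700))
(L (nat_lit 16688707)))
(L (nat_lit 13927133)))
(L (nat_lit 12095196)))
(L (nat_lit 17735363))))
(S (nat_lit 20069) (S (nat_lit 9980) (S (nat_lit 12896) (L (nat_lit 29510122))
(L (nat_lit 26528194)))
(L (nat_lit 26691874)))
(S (nat_lit 39833) (S (nat_lit 29309) (S (nat_lit 40282) (L (nat_lit 29903141))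
(L (nat_lit 18783938)))
(L (nat_lit 24615684)))
(L (nat_lit 25729761)))))
(S (nat_lit 52925) (S (nat_lit 8523) (S (nat_lit 26606) (S (nat_lit 14645) (L (nat_lit 12869747))
(L (nat_lit 22579976)))
(L (nat_lit 8877763)))
(S (nat_lit 28287) (S (nat_lit 32225) (S (nat_lit 43208) (S (nat_lit 5374) (L (nat_lit 4930439))
(L (nat_lit 16419595)))
(L (nat_lit 16426170)))
(L (nat_lit 31099212)))
(S (nat_lit 48051) (S (nat_lit 3929) (S (nat_lit 305) (S (nat_lit 40282) (L (nat_lit 18590595))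
(L (nat_lit 7934735)))
(L (nat_lit 26319569)))
(L (nat_lit 26887334)))
(L (nat_lit 25480579)))))
(L (nat_lit 25664097)))))
(S (nat_lit 33152) (S (nat_lit 11498) (S (nat_lit 29309) (S (nat_lit 31979) (L (nat_lit 6876275))
(L (nat_lit 4519475)))
(L (nat_lit 18516903)))
(S (nat_lit 31262) (S (nat_lit 17287) (S (nat_lit 11708) (L (nat_lit 15748007))
(L (nat_lit 9286837)))
(S (nat_lit 37051) (S (nat_lit 32660) (S (nat_lit 51743) (L (nat_lit 2454963))
(L (nat_lit 27276563)))
(L (nat_lit 1979667)))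
(S (nat_lit 56815) (S (nat_lit 29744) (S (nat_lit 12215) (L (nat_lit 6929500))
(L (nat_lit 6209811)))
(L (nat_lit 5123571)))
(L (nat_lit 25798113)))))
(S (nat_lit 51026) (S (nat_lit 19218) (S (nat_lit 40282) (S (nat_lit 12179) (L (nat_lit 17854741))
(L (nat_lit 11355317)))
(L (nat_lit 27596341)))
(S (nat_lit 38982) (S (nat_lit 50777) (S (nat_lit 57278) (L (nat_lit 29706725))
(L (nat_lit 11188129)))
(L (nat_lit 20297475)))
(S (nat_lit 58746) (S (nat_lit 3716) (L (nat_lit 3630355))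
(L (nat_lit 16994492)))
(L (nat_lit 25530063)))))
(L (nat_lit 25790766)))))
(S (nat_lit 52916) (S (nat_lit 10696) (S (nat_lit 19219) (S (nat_lit 14105) (S (nat_lit 39833) (L (nat_lit 12240643))
(L (nat_lit 18581850)))
(S (nat_lit 33219) (L (nat_lit 21205530))
(L (nat_lit 26360487))))
(S (nat_lit 38983) (S (nat_lit 19764) (S (nat_lit 15632) (L (nat_lit 16319864))
(L (nat_lit 17731210)))
(L (nat_lit 21836807)))
(S (nat_lit 58747) (S (nat_lit 55160) (S (nat_lit 11249) (L (nat_lit 16090747))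
(L (nat_lit 26911171)))
(L (nat_lit 19216131)))
(L (nat_lit 25317799)))))
(S (nat_lit 30460) (S (nat_lit 19219) (S (nat_lit 52712) (S (nat_lit 21965) (S (nat_lit 48051) (S (nat_lit 23693) (S (nat_lit 18475) (S (nat_lit 26863) (L (nat_lit 12437125))
(L (nat_lit 19663401)))
(L (nat_lit 2599578)))
(L (nat_lit 7516951)))
(L (nat_lit 17945981)))
(L (nat_lit 22884458)))
(L (nat_lit 11088058)))
(S (nat_lit 38983) (S (nat_lit 50777) (S (nat_lit 21965) (L (nat_lit 6177482))
(L (nat_lit 18681515)))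
(L (nat_lit 11191041)))
(S (nat_lit 58747) (S (nat_lit 18475) (S (nat_lit 20281) (L (nat_lit 15823562))
(L (nat_lit 8899329)))
(L (nat_lit 18539808)))
(L (nat_lit 25462198)))))
(S (nat_lit 50224) (S (nat_lit 11249) (S (nat_lit 19219) (S (nat_lit 20069) (L (nat_lit 27826912))
(L (nat_lit 16478250)))
(L (nat_lit 26300938)))
(S (nat_lit 49447) (L (nat_lit 16074909))
(L (nat_lit 18205601))))
(L (nat_lit 25629943)))))
(L (nat_lit 25871371)))))
(S (nat_lit 36820) (S (nat_lit 13397) (S (nat_lit 2990) (S (nat_lit 21236) (S (nat_lit 48780) (S (nat_lit 53633) (L (nat_lit 15979429))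
(L (nat_lit 17977257)))
(L (nat_lit 11233797)))
(S (nat_lit 49119) (S (nat_lit 7853) (L (nat_lit 18450716))
(L (nat_lit 23366141)))
(L (nat_lit 11090692))))
(S (nat_lit 22754) (S (nat_lit 52424) (S (nat_lit 5151) (S (nat_lit 11708) (L (nat_lit 16455836))
(L (nat_lit 11383987)))
(L (nat_lit 17899161)))
(L (nat_lit 517331)))
(S (nat_lit 42518) (S (nat_lit 9545) (S (nat_lit 46370) (S (nat_lit 9252) (S (nat_lit 10483) (S (nat_lit 16303) (L (nat_lit 9228704))
(L (nat_lit 9221299)))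
(L (nat_lit 23651520)))
(L (nat_lit 23244312)))
(L (nat_lit 10675920)))
(S (nat_lit 17131) (L (nat_lit 12624659))
(L (nat_lit 10667891))))
(L (nat_lit 25925063)))))
(S (nat_lit 33161) (S (nat_lit 5374) (S (nat_lit 830) (L (nat_lit 12625596))
(S (nat_lit 50011) (S (nat_lit 26356) (S (nat_lit 26862) (L (nat_lit 23531303))
(L (nat_lit 9360460)))
(L (nat_lit 2388466)))
(L (nat_lit 15738647))))
(S (nat_lit 25138) (S (nat_lit 35706) (L (nat_lit 12933212))
(S (nat_lit 50011) (S (nat_lit 26862) (L (nat_lit 11406988))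
(L (nat_lit 9360460)))
(L (nat_lit 16061207))))
(S (nat_lit 44902) (S (nat_lit 31860) (L (nat_lit 26592437))
(S (nat_lit 43244) (S (nat_lit 11582) (L (nat_lit 30515763))
(S (nat_lit 26862) (S (nat_lit 305) (L (nat_lit 15487143))
(L (nat_lit 20253617)))
(L (nat_lit 8847996))))
(L (nat_lit 23228687))))
(L (nat_lit 25610496)))))
(S (nat_lit 52925) (S (nat_lit 18053) (S (nat_lit 13646) (S (nat_lit 46627) (S (nat_lit 5906) (S (nat_lit 48781) (S (nat_lit 52712) (L (nat_lit 26680338))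
(L (nat_lit 11103377)))
(L (nat_lit 536220)))
(L (nat_lit 10409998)))
(L (nat_lit 18582281)))
(S (nat_lit 33410) (S (nat_lit 18475) (S (nat_lit 17750) (L (nat_lit 26392266))
(L (nat_lit 26714787)))
(L (nat_lit 18653760)))
(S (nat_lit 53174) (S (nat_lit 36819) (S (nat_lit 11249) (S (nat_lit 12215) (L (nat_lit 28947623))
(L (nat_lit 21458087)))
(L (nat_lit 16378922)))
(L (nat_lit 11220060)))
(L (nat_lit 25444000)))))
(S (nat_lit 37817) (S (nat_lit 26435) (L (nat_lit 18149557))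
(S (nat_lit 39528) (S (nat_lit 45914) (S (nat_lit 46370) (S (nat_lit 48051) (L (nat_lit 12473486))
(L (nat_lit 18730153)))
(L (nat_lit 10512080)))
(L (nat_lit 23534744)))
(L (nat_lit 18783251))))
(S (nat_lit 57581) (S (nat_lit 638) (L (nat_lit 16537674))
(S (nat_lit 18475) (S (nat_lit 20890) (L (nat_lit 18441473))
(S (nat_lit 46370) (S (nat_lit 53633) (S (nat_lit 30247) (L (nat_lit 8087724))
(L (nat_lit 18156338)))
(L (nat_lit 18107482)))
(L (nat_lit 18146389))))
(L (nat_lit 22364064))))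
(L (nat_lit 25567314)))))
(L (nat_lit 25891275)))))
(S (nat_lit 56584) (S (nat_lit 6842) (S (nat_lit 15374) (S (nat_lit 9958) (S (nat_lit 1766) (L (nat_lit 21490976))
(L (nat_lit 20487324)))
(S (nat_lit 19764) (S (nat_lit 11708) (S (nat_lit 35000) (L (nat_lit 21020889))
(L (nat_lit 7006351)))
(L (nat_lit 11356334)))
(L (nat_lit 16647378))))
(S (nat_lit 35138) (S (nat_lit 11708) (S (nat_lit 40282) (L (nat_lit 20980218))
(L (nat_lit 23423491)))
(L (nat_lit 9243308)))
(S (nat_lit 54902) (S (nat_lit 11708) (S (nat_lit 18475) (S (nat_lit 49790) (L (nat_lit 2499382))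
(L (nat_lit 9078703)))
(L (nat_lit 9095072)))
(L (nat_lit 23595324)))
(L (nat_lit 25339348)))))
(S (nat_lit 26606) (S (nat_lit 18475) (S (nat_lit 11708) (S (nat_lit 1766) (S (nat_lit 15632) (S (nat_lit 23234) (S (nat_lit 49790) (S (nat_lit 40282) (S (nat_lit 53633) (S (nat_lit 1182) (L (nat_lit 17041049))
(S (nat_lit 33152) (L (nat_lit 30090693))
(L (nat_lit 31100394))))
(L (nat_lit 1949415)))
(L (nat_lit 24549126)))
(L (nat_lit 20069286)))
(L (nat_lit 12670887)))
(S (nat_lit 42137) (L (nat_lit 21398907))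
(L (nat_lit 5165423))))
(L (nat_lit 26975617)))
(L (nat_lit 18026419)))
(L (nat_lit 4998387)))
(S (nat_lit 46370) (S (nat_lit 3929) (S (nat_lit 19219) (S (nat_lit 439) (L (nat_lit 9261198))
(S (nat_lit 43850) (L (nat_lit 3721992))
(L (nat_lit 29641253))))
(S (nat_lit 38983) (S (nat_lit 12179) (S (nat_lit 11708) (L (nat_lit 23463293))
(L (nat_lit 18680425)))
(S (nat_lit 52137) (L (nat_lit 23527676))
(L (nat_lit 11353794))))
(S (nat_lit 58747) (S (nat_lit 24162) (S (nat_lit 9545) (S (nat_lit 7853) (S (nat_lit 11708) (L (nat_lit 9617267))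
(L (nat_lit 18701479)))
(L (nat_lit 26232019)))
(L (nat_lit 8538684)))
(S (nat_lit 25701) (L (nat_lit 7363440))
(L (nat_lit 9255091))))
(L (nat_lit 25528016)))))
(S (nat_lit 23693) (S (nat_lit 19218) (S (nat_lit 5906) (S (nat_lit 51026) (S (nat_lit 27617) (L (nat_lit 29854003))
(L (nat_lit 11620113)))
(L (nat_lit 22360962)))
(L (nat_lit 15899415)))
(S (nat_lit 38982) (S (nat_lit 5906) (S (nat_lit 18475) (L (nat_lit 14869130))
(L (nat_lit 18518955)))
(L (nat_lit 1530632)))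
(S (nat_lit 58746) (S (nat_lit 22259) (S (nat_lit 1766) (S (nat_lit 29744) (L (nat_lit 24142064))
(L (nat_lit 4743785)))
(L (nat_lit 20840817)))
(L (nat_lit 21312385)))
(L (nat_lit 25743369)))))
(S (nat_lit 43457) (S (nat_lit 14645) (S (nat_lit 30247) (S (nat_lit 9253) (S (nat_lit 50010) (L (nat_lit 18451832))
(L (nat_lit 3403190)))
(L (nat_lit 21506852)))
(S (nat_lit 58600) (L (nat_lit 24424476))
(L (nat_lit 18018983))))
(S (nat_lit 34409) (S (nat_lit 38983) (S (nat_lit 9252) (L (nat_lit 20037511))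
(L (nat_lit 23903398)))
(L (nat_lit 11421869)))
(S (nat_lit 54173) (S (nat_lit 47522) (L (nat_lit 3858888))
(S (nat_lit 49790) (S (nat_lit 29017) (S (nat_lit 45434) (S (nat_lit 50224) (S (nat_lit 52712) (L (nat_lit 11720220))
(L (nat_lit 21143064)))
(L (nat_lit 27441735)))
(L (nat_lit 8576878)))
(L (nat_lit 9112088)))
(L (nat_lit 16418664))))
(L (nat_lit 25692532)))))
(L (nat_lit 25579843)))))
(L (nat_lit 25643083)))))
(L (nat_lit 25179815)))))
(S (nat_lit 31730) (S (nat_lit 753) (S (nat_lit 7099) (S (nat_lit 10482) (S (nat_lit 4187) (S (nat_lit 40282) (S (nat_lit 14645) (L (nat_lit 29402612))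
(L (nat_lit 13242120)))
(L (nat_lit 24026659)))
(S (nat_lit 23951) (S (nat_lit 51989) (S (nat_lit 1766) (S (nat_lit 17056) (S (nat_lit 52916) (L (nat_lit 20985145))
(L (nat_lit 19271563)))
(L (nat_lit 26611059)))
(L (nat_lit 26982536)))
(L (nat_lit 4899720)))
(S (nat_lit 43715) (S (nat_lit 33197) (S (nat_lit 38982) (L (nat_lit 904681))
(L (nat_lit 20418473)))
(L (nat_lit 16057266)))
(L (nat_lit 25931202)))))
(S (nat_lit 30246) (S (nat_lit 51236) (S (nat_lit 33482) (L (nat_lit 26715186))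
(S (nat_lit 53174) (S (nat_lit 3671) (S (nat_lit 11498) (S (nat_lit 18053) (S (nat_lit 32948) (S (nat_lit 19218) (S (nat_lit 14903) (S (nat_lit 45434) (S (nat_lit 17056) (S (nat_lit 42023) (S (nat_lit 8524) (L (nat_lit 24156635))
(L (nat_lit 21334798)))
(L (nat_lit 13674074)))
(L (nat_lit 5055148)))
(L (nat_lit 13309864)))
(L (nat_lit 13242280)))
(L (nat_lit 12055236)))
(L (nat_lit 20296889)))
(L (nat_lit 3496878)))
(L (nat_lit 7991810)))
(L (nat_lit 10228150)))
(L (nat_lit 2748624))))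
(L (nat_lit 20377737)))
(S (nat_lit 50010) (S (nat_lit 8523) (S (nat_lit 1472) (S (nat_lit 14645) (S (nat_lit 56814) (L (nat_lit 13894361))
(L (nat_lit 19271435)))
(L (nat_lit 24677128)))
(L (nat_lit 14453384)))
(S (nat_lit 28287) (S (nat_lit 14105) (S (nat_lit 12215) (L (nat_lit 18116227))
(L (nat_lit 26611989)))
(L (nat_lit 9091841)))
(S (nat_lit 48051) (S (nat_lit 48052) (S (nat_lit 33161) (L (nat_lit 29793463))
(L (nat_lit 23563179)))
(L (nat_lit 9275831)))
(L (nat_lit 25829763)))))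
(L (nat_lit 25175478)))))
(S (nat_lit 26863) (S (nat_lit 8524) (S (nat_lit 17055) (S (nat_lit 14105) (S (nat_lit 12179) (L (nat_lit 795122))
(L (nat_lit 10536725)))
(L (nat_lit 13283075)))
(S (nat_lit 36819) (S (nat_lit 20069) (S (nat_lit 38017) (L (nat_lit 29046051))
(L (nat_lit 23856400)))
(L (nat_lit 735018)))
(S (nat_lit 56583) (S (nat_lit 25670) (S (nat_lit 37817) (S (nat_lit 54431) (L (nat_lit 29626867))
(L (nat_lit 9257537)))
(L (nat_lit 30431598)))
(S (nat_lit 32880) (L (nat_lit 8949586))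
(L (nat_lit 14521655))))
(L (nat_lit 25789963)))))
(S (nat_lit 28288) (S (nat_lit 4187) (S (nat_lit 5633) (S (nat_lit 6386) (L (nat_lit 13855863))
(L (nat_lit 20212224)))
(L (nat_lit 8816349)))
(S (nat_lit 23951) (S (nat_lit 12896) (S (nat_lit 18474) (L (nat_lit 10904755))
(L (nat_lit 5024335)))
(L (nat_lit 16558099)))
(S (nat_lit 43715) (S (nat_lit 11030) (L (nat_lit 1715642))
(S (nat_lit 51989) (S (nat_lit 4398) (S (nat_lit 10482) (S (nat_lit 16303) (S (nat_lit 38982) (S (nat_lit 54431) (L (nat_lit 28577333))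
(L (nat_lit 9258098)))
(L (nat_lit 17637559)))
(L (nat_lit 11177530)))
(L (nat_lit 15272152)))
(L (nat_lit 16558259)))
(L (nat_lit 9188435))))
(L (nat_lit 25446511)))))
(S (nat_lit 48052) (S (nat_lit 12179) (S (nat_lit 18474) (S (nat_lit 40282) (L (nat_lit 19828977))
(L (nat_lit 24026286)))
(L (nat_lit 8906372)))
(S (nat_lit 31943) (S (nat_lit 57781) (S (nat_lit 23234) (S (nat_lit 29016) (S (nat_lit 33152) (L (nat_lit 10031020))
(L (nat_lit 23282713)))
(L (nat_lit 30624942)))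
(L (nat_lit 6804224)))
(L (nat_lit 19407715)))
(S (nat_lit 51707) (S (nat_lit 51236) (S (nat_lit 10262) (L (nat_lit 28973070))
(L (nat_lit 714031)))
(L (nat_lit 20748462)))
(L (nat_lit 25541749)))))
(L (nat_lit 25338258)))))
(S (nat_lit 46627) (S (nat_lit 12461) (S (nat_lit 3470) (S (nat_lit 19764) (S (nat_lit 17750) (L (nat_lit 9105794))
(L (nat_lit 26715809)))
(L (nat_lit 9252883)))
(S (nat_lit 23234) (S (nat_lit 52424) (S (nat_lit 47381) (L (nat_lit 16017429))
(L (nat_lit 18684979)))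
(L (nat_lit 6787859)))
(S (nat_lit 42998) (S (nat_lit 40045) (S (nat_lit 55831) (L (nat_lit 28773000))
(L (nat_lit 16616659)))
(L (nat_lit 683278)))
(L (nat_lit 25613447)))))
(S (nat_lit 32225) (S (nat_lit 15632) (S (nat_lit 20281) (S (nat_lit 13388) (L (nat_lit 11144973))
(L (nat_lit 26356178)))
(L (nat_lit 22067112)))
(S (nat_lit 35396) (S (nat_lit 36572) (S (nat_lit 21236) (S (nat_lit 6842) (L (nat_lit 13179996))
(L (nat_lit 21473025)))
(L (nat_lit 16320761)))
(L (nat_lit 31033896)))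
(S (nat_lit 55160) (S (nat_lit 11792) (L (nat_lit 5554962))
(S (nat_lit 26355) (S (nat_lit 57581) (S (nat_lit 38982) (L (nat_lit 28757315))
(L (nat_lit 10995900)))
(L (nat_lit 10880600)))
(L (nat_lit 2694652))))
(L (nat_lit 25509507)))))
(S (nat_lit 51989) (S (nat_lit 36572) (S (nat_lit 34667) (S (nat_lit 4187) (S (nat_lit 5906) (S (nat_lit 13646) (S (nat_lit 1) (S (nat_lit 16303) (L (nat_lit 1369623))
(L (nat_lit 24917349)))
(L (nat_lit 20131898)))
(L (nat_lit 12872352)))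
(L (nat_lit 26500110)))
(L (nat_lit 20191021)))
(S (nat_lit 50340) (L (nat_lit 20255502))
(L (nat_lit 23356929))))
(S (nat_lit 52162) (L (nat_lit 9045776))
(L (nat_lit 10597138))))
(L (nat_lit 25451598)))))
(L (nat_lit 25635425)))))
(S (nat_lit 20517) (S (nat_lit 8524) (S (nat_lit 9253) (S (nat_lit 17056) (S (nat_lit 5906) (S (nat_lit 12461) (S (nat_lit 1766) (S (nat_lit 2990) (S (nat_lit 10262) (L (nat_lit 28545429))
(L (nat_lit 21185316)))
(L (nat_lit 26514903)))
(L (nat_lit 26328438)))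
(L (nat_lit 26847748)))
(S (nat_lit 25592) (S (nat_lit 43199) (L (nat_lit 15737530))
(L (nat_lit 24130778)))
(L (nat_lit 19047180))))
(S (nat_lit 36820) (S (nat_lit 28640) (L (nat_lit 23391652))
(S (nat_lit 54902) (S (nat_lit 41000) (L (nat_lit 4924204))
(L (nat_lit 23097681)))
(L (nat_lit 16534724))))
(S (nat_lit 56584) (S (nat_lit 18253) (S (nat_lit 26606) (L (nat_lit 2735882))
(L (nat_lit 30685331)))
(L (nat_lit 16590867)))
(L (nat_lit 25415825)))))
(S (nat_lit 29017) (S (nat_lit 43715) (S (nat_lit 4398) (S (nat_lit 13184) (S (nat_lit 10262) (S (nat_lit 6842) (S (nat_lit 3929) (S (nat_lit 10482) (S (nat_lit 53936) (L (nat_lit 18884125))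
(L (nat_lit 17437447)))
(L (nat_lit 23242169)))
(L (nat_lit 20180141)))
(L (nat_lit 21436170)))
(L (nat_lit 16967368)))
(L (nat_lit 13263019)))
(L (nat_lit 19706023)))
(L (nat_lit 23935144)))
(S (nat_lit 48781) (S (nat_lit 14903) (S (nat_lit 24915) (S (nat_lit 42023) (S (nat_lit 30459) (L (nat_lit 15838035))
(L (nat_lit 4866298)))
(L (nat_lit 28001473)))
(L (nat_lit 13737906)))
(S (nat_lit 34667) (S (nat_lit 58003) (S (nat_lit 53936) (S (nat_lit 38534) (L (nat_lit 14710409))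
(L (nat_lit 30643730)))
(L (nat_lit 17439490)))
(L (nat_lit 15573043)))
(S (nat_lit 54431) (S (nat_lit 26356) (S (nat_lit 17056) (L (nat_lit 28418705))
(L (nat_lit 9620241)))
(L (nat_lit 2563858)))
(L (nat_lit 25281094)))))
(L (nat_lit 25410743)))))
(S (nat_lit 28288) (S (nat_lit 15632) (S (nat_lit 14105) (S (nat_lit 10262) (S (nat_lit 33152) (S (nat_lit 23234) (L (nat_lit 7007277))
(L (nat_lit 4933385)))
(L (nat_lit 15887666)))
(L (nat_lit 16951004)))
(S (nat_lit 32772) (L (nat_lit 597500))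
(L (nat_lit 12930819))))
(S (nat_lit 35396) (S (nat_lit 33197) (S (nat_lit 20281) (S (nat_lit 33152) (S (nat_lit 5374) (S (nat_lit 38238) (L (nat_lit 437077))
(L (nat_lit 23938090)))
(L (nat_lit 18516742)))
(L (nat_lit 16510123)))
(L (nat_lit 31067625)))
(L (nat_lit 31073763)))
(S (nat_lit 55160) (S (nat_lit 14645) (S (nat_lit 30459) (S (nat_lit 38534) (L (nat_lit 24177194))
(L (nat_lit 12130062)))
(L (nat_lit 19261582)))
(S (nat_lit 34409) (S (nat_lit 51236) (S (nat_lit 33152) (S (nat_lit 38983) (S (nat_lit 33197) (L (nat_lit 16632101))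
(L (nat_lit 30938386)))
(L (nat_lit 11356333)))
(L (nat_lit 16599211)))
(L (nat_lit 15043347)))
(S (nat_lit 54173) (S (nat_lit 5151) (S (nat_lit 1766) (S (nat_lit 34172) (S (nat_lit 54431) (L (nat_lit 7246417))
(L (nat_lit 6964993)))
(L (nat_lit 4879911)))
(L (nat_lit 20028860)))
(S (nat_lit 28109) (L (nat_lit 685478))
(L (nat_lit 26650241))))
(L (nat_lit 25311912)))))
(L (nat_lit 25210290)))))
(S (nat_lit 48052) (S (nat_lit 18053) (S (nat_lit 2058) (S (nat_lit 17750) (L (nat_lit 4844938))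
(L (nat_lit 15869714)))
(S (nat_lit 55831) (S (nat_lit 5633) (S (nat_lit 54431) (S (nat_lit 17750) (L (nat_lit 29888754))
(L (nat_lit 15869714)))
(L (nat_lit 6963971)))
(S (nat_lit 34669) (L (nat_lit 17847674))
(L (nat_lit 3860871))))
(L (nat_lit 16080915))))
(S (nat_lit 37817) (S (nat_lit 17056) (S (nat_lit 48051) (S (nat_lit 33197) (S (nat_lit 5374) (S (nat_lit 23435) (L (nat_lit 6938767))
(L (nat_lit 18686660)))
(L (nat_lit 2641178)))
(L (nat_lit 30952705)))
(L (nat_lit 2777388)))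
(S (nat_lit 36820) (S (nat_lit 46370) (S (nat_lit 31262) (S (nat_lit 20069) (L (nat_lit 6851227))
(L (nat_lit 30756387)))
(L (nat_lit 30889002)))
(L (nat_lit 18424739)))
(S (nat_lit 56584) (S (nat_lit 12795) (L (nat_lit 8870820))
(S (nat_lit 54173) (S (nat_lit 38534) (L (nat_lit 29804896))
(L (nat_lit 4682100)))
(L (nat_lit 17043380))))
(L (nat_lit 25577607)))))
(S (nat_lit 57581) (S (nat_lit 14408) (S (nat_lit 9253) (S (nat_lit 58746) (S (nat_lit 29016) (S (nat_lit 8523) (L (nat_lit 24507569))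
(L (nat_lit 14381161)))
(L (nat_lit 19400924)))
(L (nat_lit 27572930)))
(L (nat_lit 7097796)))
(S (nat_lit 34172) (S (nat_lit 24163) (S (nat_lit 17056) (S (nat_lit 13397) (L (nat_lit 21235598))
(L (nat_lit 7189522)))
(L (nat_lit 14928640)))
(L (nat_lit 21491042)))
(S (nat_lit 53936) (S (nat_lit 10483) (S (nat_lit 43457) (S (nat_lit 4399) (L (nat_lit 8417996))
(L (nat_lit 18426010)))
(L (nat_lit 9056282)))
(L (nat_lit 20997546)))
(L (nat_lit 25727284)))))
(L (nat_lit 25634434)))))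
(L (nat_lit 25480577)))))
(S (nat_lit 40281) (S (nat_lit 18770) (S (nat_lit 7098) (S (nat_lit 2201) (S (nat_lit 50224) (S (nat_lit 23480) (S (nat_lit 49508) (L (nat_lit 2744524))
(L (nat_lit 2999541)))
(L (nat_lit 3000038)))
(L (nat_lit 20223548)))
(L (nat_lit 20384060)))
(S (nat_lit 26862) (S (nat_lit 49508) (S (nat_lit 2201) (S (nat_lit 38016) (S (nat_lit 12215) (S (nat_lit 36819) (S (nat_lit 34409) (S (nat_lit 48781) (S (nat_lit 305) (S (nat_lit 35163) (L (nat_lit 2608905))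
(L (nat_lit 5134855)))
(L (nat_lit 19228193)))
(L (nat_lit 16452520)))
(L (nat_lit 16016036)))
(L (nat_lit 566012)))
(L (nat_lit 9015868)))
(L (nat_lit 12502689)))
(L (nat_lit 480540)))
(L (nat_lit 2999605)))
(S (nat_lit 46626) (S (nat_lit 51743) (S (nat_lit 2201) (S (nat_lit 50224) (S (nat_lit 18053) (S (nat_lit 37051) (S (nat_lit 57278) (S (nat_lit 51026) (L (nat_lit 5594618))
(L (nat_lit 22096684)))
(L (nat_lit 27493100)))
(L (nat_lit 20508932)))
(L (nat_lit 22974828)))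
(L (nat_lit 22148428)))
(L (nat_lit 486026)))
(L (nat_lit 22491040)))
(L (nat_lit 25210420)))))
(S (nat_lit 38534) (S (nat_lit 12461) (S (nat_lit 4398) (S (nat_lit 17750) (S (nat_lit 11249) (L (nat_lit 2844942))
(L (nat_lit 15770547)))
(L (nat_lit 15952018)))
(S (nat_lit 24162) (S (nat_lit 21965) (S (nat_lit 44679) (L (nat_lit 23086986))
(L (nat_lit 9527827)))
(L (nat_lit 20980493)))
(S (nat_lit 43926) (S (nat_lit 52424) (S (nat_lit 26862) (L (nat_lit 9344620))
(L (nat_lit 5166445)))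
(L (nat_lit 2995411)))
(L (nat_lit 25189711)))))
(S (nat_lit 32225) (S (nat_lit 5906) (S (nat_lit 17056) (S (nat_lit 45161) (S (nat_lit 57581) (S (nat_lit 31262) (L (nat_lit 1333132))
(L (nat_lit 5098766)))
(L (nat_lit 27271756)))
(L (nat_lit 9597676)))
(L (nat_lit 22212908)))
(S (nat_lit 25670) (S (nat_lit 37817) (S (nat_lit 26150) (S (nat_lit 36067) (S (nat_lit 31262) (L (nat_lit 31107217))
(L (nat_lit 19704876)))
(L (nat_lit 31169548)))
(L (nat_lit 4412334)))
(L (nat_lit 5087884)))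
(S (nat_lit 45434) (S (nat_lit 26150) (S (nat_lit 10262) (S (nat_lit 40282) (L (nat_lit 21247003))
(L (nat_lit 23355534)))
(L (nat_lit 17717288)))
(L (nat_lit 30625838)))
(L (nat_lit 25311816)))))
(S (nat_lit 51989) (S (nat_lit 9252) (S (nat_lit 26355) (S (nat_lit 22259) (S (nat_lit 31943) (S (nat_lit 18252) (L (nat_lit 4629429))
(L (nat_lit 26749665)))
(L (nat_lit 24912046)))
(L (nat_lit 5678713)))
(L (nat_lit 30514644)))
(S (nat_lit 29016) (S (nat_lit 5374) (S (nat_lit 29309) (L (nat_lit 4894938))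
(L (nat_lit 18124563)))
(L (nat_lit 18883341)))
(S (nat_lit 48780) (S (nat_lit 36067) (S (nat_lit 51236) (S (nat_lit 26150) (L (nat_lit 4049228))
(L (nat_lit 10508044)))
(L (nat_lit 6003468)))
(L (nat_lit 12914451)))
(L (nat_lit 25831534)))))
(L (nat_lit 25569397)))))
(S (nat_lit 58298) (S (nat_lit 5151) (S (nat_lit 14408) (S (nat_lit 37514) (S (nat_lit 13646) (S (nat_lit 52916) (L (nat_lit 28771634))
(L (nat_lit 17969042)))
(L (nat_lit 26481042)))
(L (nat_lit 8479218)))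
(S (nat_lit 34172) (S (nat_lit 55160) (S (nat_lit 17056) (S (nat_lit 36067) (L (nat_lit 18144000))
(L (nat_lit 6102636)))
(L (nat_lit 4833031)))
(L (nat_lit 11155203)))
(S (nat_lit 53936) (S (nat_lit 36572) (L (nat_lit 2629554))
(L (nat_lit 2498324)))
(L (nat_lit 25480706)))))
(S (nat_lit 24915) (S (nat_lit 3929) (S (nat_lit 40282) (S (nat_lit 19219) (S (nat_lit 44680) (L (nat_lit 28728422))
(L (nat_lit 10117635)))
(L (nat_lit 16424986)))
(L (nat_lit 18177212)))
(S (nat_lit 23693) (S (nat_lit 52712) (L (nat_lit 17731858))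
(L (nat_lit 11350660)))
(S (nat_lit 43457) (S (nat_lit 30246) (S (nat_lit 51743) (L (nat_lit 9866162))
(L (nat_lit 8056940)))
(L (nat_lit 24349178)))
(L (nat_lit 25415855)))))
(S (nat_lit 44679) (S (nat_lit 58003) (S (nat_lit 51743) (S (nat_lit 51236) (S (nat_lit 10262) (S (nat_lit 49508) (L (nat_lit 30124046))
(L (nat_lit 27595187)))
(L (nat_lit 10355155)))
(L (nat_lit 14764807)))
(L (nat_lit 8042400)))
(L (nat_lit 9931603)))
(L (nat_lit 25549216)))))
(L (nat_lit 25580681)))))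
(L (nat_lit 25206477)))))
(S (nat_lit 51494) (S (nat_lit 1) (S (nat_lit 12179) (S (nat_lit 4187) (S (nat_lit 8524) (S (nat_lit 12215) (S (nat_lit 5906) (S (nat_lit 52961) (S (nat_lit 17055) (L (nat_lit 2876716))
(L (nat_lit 26464398)))
(L (nat_lit 18205882)))
(L (nat_lit 20093740)))
(L (nat_lit 26843310)))
(S (nat_lit 28288) (S (nat_lit 12215) (S (nat_lit 31262) (S (nat_lit 31472) (L (nat_lit 4410126))
(L (nat_lit 3906350)))
(L (nat_lit 18950926)))
(L (nat_lit 11454638)))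
(S (nat_lit 48052) (S (nat_lit 39833) (S (nat_lit 29016) (S (nat_lit 1766) (L (nat_lit 17443619))
(L (nat_lit 10191260)))
(L (nat_lit 9260206)))
(L (nat_lit 18632035)))
(L (nat_lit 25338258)))))
(S (nat_lit 23951) (S (nat_lit 16808) (L (nat_lit 10505628))
(S (nat_lit 36572) (S (nat_lit 39833) (S (nat_lit 17055) (S (nat_lit 41294) (L (nat_lit 4472536))
(L (nat_lit 1916520)))
(L (nat_lit 11548469)))
(L (nat_lit 18609258)))
(S (nat_lit 56336) (S (nat_lit 31262) (L (nat_lit 10504604))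
(L (nat_lit 8802048)))
(L (nat_lit 25894276)))))
(S (nat_lit 43715) (S (nat_lit 12896) (S (nat_lit 20518) (L (nat_lit 7957986))
(L (nat_lit 16377058)))
(S (nat_lit 32660) (S (nat_lit 12215) (L (nat_lit 8440221))
(L (nat_lit 18744595)))
(S (nat_lit 52424) (S (nat_lit 12215) (L (nat_lit 379388))
(L (nat_lit 9013006)))
(L (nat_lit 25550208)))))
(L (nat_lit 25444962)))))
(S (nat_lit 31943) (S (nat_lit 14105) (S (nat_lit 42518) (S (nat_lit 49073) (S (nat_lit 1766) (L (nat_lit 3847976))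
(L (nat_lit 12688988)))
(L (nat_lit 20712839)))
(L (nat_lit 6023437)))
(S (nat_lit 33869) (S (nat_lit 754) (S (nat_lit 35138) (S (nat_lit 55160) (L (nat_lit 5588821))
(L (nat_lit 13689170)))
(L (nat_lit 8818427)))
(S (nat_lit 20518) (S (nat_lit 23234) (S (nat_lit 13646) (S (nat_lit 14408) (L (nat_lit 30803188))
(L (nat_lit 9358880)))
(L (nat_lit 3614482)))
(L (nat_lit 7075362)))
(S (nat_lit 40282) (S (nat_lit 38239) (S (nat_lit 13646) (S (nat_lit 4187) (S (nat_lit 36572) (S (nat_lit 52424) (S (nat_lit 23234) (L (nat_lit 19183458))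
(L (nat_lit 21873801)))
(L (nat_lit 13264130)))
(L (nat_lit 3395341)))
(L (nat_lit 14896930)))
(L (nat_lit 12722964)))
(S (nat_lit 41351) (L (nat_lit 9589518))
(L (nat_lit 20065072))))
(L (nat_lit 25206324)))))
(S (nat_lit 53633) (S (nat_lit 2990) (S (nat_lit 37051) (S (nat_lit 28288) (S (nat_lit 13646) (L (nat_lit 31138988))
(L (nat_lit 13782794)))
(L (nat_lit 11167137)))
(L (nat_lit 24022289)))
(S (nat_lit 23381) (S (nat_lit 47132) (L (nat_lit 9551545))
(L (nat_lit 10141505)))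
(L (nat_lit 19838212))))
(L (nat_lit 25516449)))))
(S (nat_lit 51707) (S (nat_lit 4187) (S (nat_lit 3671) (S (nat_lit 5906) (S (nat_lit 1766) (S (nat_lit 24915) (L (nat_lit 6841923))
(L (nat_lit 12064531)))
(L (nat_lit 19983782)))
(S (nat_lit 6912) (L (nat_lit 15309569))
(L (nat_lit 275222))))
(S (nat_lit 23435) (S (nat_lit 19916) (L (nat_lit 2997461))
(S (nat_lit 38239) (S (nat_lit 46119) (S (nat_lit 57780) (S (nat_lit 3680) (S (nat_lit 38017) (S (nat_lit 13646) (S (nat_lit 7604) (S (nat_lit 1766) (L (nat_lit 311036))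
(L (nat_lit 13337384)))
(L (nat_lit 21501865)))
(L (nat_lit 12642516)))
(L (nat_lit 30842931)))
(L (nat_lit 681384)))
(L (nat_lit 19311456)))
(L (nat_lit 12318176)))
(L (nat_lit 6012715))))
(S (nat_lit 43199) (S (nat_lit 40282) (S (nat_lit 23234) (S (nat_lit 37050) (L (nat_lit 29040098))
(L (nat_lit 23301934)))
(L (nat_lit 21205775)))
(L (nat_lit 10032910)))
(L (nat_lit 25474198)))))
(S (nat_lit 23951) (S (nat_lit 0) (S (nat_lit 24915) (S (nat_lit 22754) (L (nat_lit 8840896))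
(L (nat_lit 6745700)))
(L (nat_lit 14294785)))
(S (nat_lit 19764) (S (nat_lit 8746) (L (nat_lit 2967111))
(S (nat_lit 31262) (L (nat_lit 10504604))
(L (nat_lit 8409006))))
(S (nat_lit 39528) (S (nat_lit 5633) (L (nat_lit 9457583))
(L (nat_lit 20121486)))
(L (nat_lit 25380877)))))
(S (nat_lit 43715) (S (nat_lit 11249) (S (nat_lit 57581) (S (nat_lit 37050) (S (nat_lit 24916) (L (nat_lit 28905002))
(L (nat_lit 21929378)))
(L (nat_lit 23410714)))
(L (nat_lit 2957900)))
(S (nat_lit 31013) (S (nat_lit 9980) (S (nat_lit 43208) (L (nat_lit 28807443))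
(L (nat_lit 8505850)))
(L (nat_lit 26685026)))
(S (nat_lit 50777) (S (nat_lit 46370) (S (nat_lit 52925) (L (nat_lit 10095096))
(L (nat_lit 19051834)))
(L (nat_lit 20185498)))
(L (nat_lit 25509941)))))
(L (nat_lit 25677088)))))
(L (nat_lit 25221607)))))
(S (nat_lit 19765) (S (nat_lit 9980) (S (nat_lit 9252) (S (nat_lit 6674) (L (nat_lit 9287330))
(S (nat_lit 26355) (S (nat_lit 58298) (S (nat_lit 53936) (S (nat_lit 57278) (S (nat_lit 41729) (L (nat_lit 10289806))
(L (nat_lit 5730583)))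
(L (nat_lit 3389362)))
(L (nat_lit 21282560)))
(L (nat_lit 7827042)))
(L (nat_lit 3612252))))
(S (nat_lit 29016) (S (nat_lit 18474) (S (nat_lit 12179) (S (nat_lit 47381) (L (nat_lit 18014515))
(L (nat_lit 18614485)))
(L (nat_lit 10544627)))
(S (nat_lit 38238) (S (nat_lit 24163) (S (nat_lit 47132) (S (nat_lit 33869) (S (nat_lit 32660) (L (nat_lit 30939811))
(L (nat_lit 24979904)))
(L (nat_lit 6995779)))
(L (nat_lit 10303605)))
(S (nat_lit 45582) (L (nat_lit 16444708))
(L (nat_lit 21196226))))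
(S (nat_lit 58002) (S (nat_lit 26355) (L (nat_lit 23335386))
(L (nat_lit 3938892)))
(L (nat_lit 25660040)))))
(S (nat_lit 48780) (S (nat_lit 38016) (S (nat_lit 58746) (S (nat_lit 17750) (S (nat_lit 38534) (S (nat_lit 28287) (S (nat_lit 20069) (S (nat_lit 24916) (S (nat_lit 32225) (S (nat_lit 36067) (L (nat_lit 3710712))
(L (nat_lit 23400364)))
(L (nat_lit 17042197)))
(L (nat_lit 16885525)))
(L (nat_lit 9168944)))
(L (nat_lit 16411817)))
(L (nat_lit 20408361)))
(L (nat_lit 15985313)))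
(L (nat_lit 27347369)))
(S (nat_lit 39461) (S (nat_lit 30246) (L (nat_lit 4737308))
(L (nat_lit 10678774)))
(L (nat_lit 2316177))))
(L (nat_lit 25823687)))))
(S (nat_lit 29744) (S (nat_lit 32660) (S (nat_lit 3470) (S (nat_lit 11660) (L (nat_lit 2824700))
(S (nat_lit 46120) (S (nat_lit 44902) (S (nat_lit 20069) (L (nat_lit 10322483))
(L (nat_lit 9226289)))
(L (nat_lit 24309227)))
(L (nat_lit 11416130))))
(S (nat_lit 23234) (S (nat_lit 20517) (S (nat_lit 36820) (S (nat_lit 40282) (S (nat_lit 27368) (S (nat_lit 43715) (L (nat_lit 29079778))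
(L (nat_lit 16479586)))
(L (nat_lit 15791783)))
(L (nat_lit 27892910)))
(L (nat_lit 20710919)))
(L (nat_lit 31035693)))
(S (nat_lit 42998) (S (nat_lit 27368) (S (nat_lit 13646) (L (nat_lit 9987747))
(L (nat_lit 24440226)))
(L (nat_lit 19461159)))
(L (nat_lit 25593046)))))
(L (nat_lit 4508059)))
(S (nat_lit 49508) (S (nat_lit 8524) (S (nat_lit 14903) (S (nat_lit 24915) (S (nat_lit 17056) (L (nat_lit 10532659))
(L (nat_lit 2345745)))
(L (nat_lit 22229114)))
(S (nat_lit 34667) (S (nat_lit 36572) (S (nat_lit 23444) (L (nat_lit 3841838))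
(L (nat_lit 30525862)))
(L (nat_lit 20038907)))
(S (nat_lit 54431) (S (nat_lit 56336) (S (nat_lit 43715) (S (nat_lit 5151) (L (nat_lit 9225235))
(L (nat_lit 16413025)))
(L (nat_lit 2542438)))
(L (nat_lit 8505048)))
(L (nat_lit 25829425)))))
(S (nat_lit 28288) (S (nat_lit 16808) (S (nat_lit 7099) (S (nat_lit 52925) (S (nat_lit 22259) (L (nat_lit 9550709))
(L (nat_lit 10339905)))
(L (nat_lit 21268984)))
(L (nat_lit 6112873)))
(S (nat_lit 36572) (S (nat_lit 23444) (S (nat_lit 2990) (L (nat_lit 30519911))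
(L (nat_lit 19370759)))
(L (nat_lit 30493903)))
(S (nat_lit 56336) (S (nat_lit 1766) (S (nat_lit 43457) (S (nat_lit 43715) (L (nat_lit 20782255))
(L (nat_lit 2542438)))
(L (nat_lit 1754456)))
(S (nat_lit 57976) (L (nat_lit 836914))
(L (nat_lit 20049286))))
(L (nat_lit 25795972)))))
(S (nat_lit 48052) (S (nat_lit 3470) (S (nat_lit 54431) (S (nat_lit 53633) (L (nat_lit 18729993))
(L (nat_lit 4111079)))
(L (nat_lit 9062145)))
(S (nat_lit 23234) (S (nat_lit 37051) (S (nat_lit 29016) (S (nat_lit 58002) (S (nat_lit 56336) (L (nat_lit 30563567))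
(L (nat_lit 8515986)))
(L (nat_lit 12915477)))
(L (nat_lit 12693148)))
(L (nat_lit 5159559)))
(S (nat_lit 42998) (S (nat_lit 46119) (S (nat_lit 24162) (L (nat_lit 15850407))
(L (nat_lit 22950055)))
(L (nat_lit 22949991)))
(L (nat_lit 25186857)))))
(L (nat_lit 25285999)))))
(L (nat_lit 25629287)))))
(S (nat_lit 39529) (S (nat_lit 10695) (S (nat_lit 19219) (S (nat_lit 3671) (S (nat_lit 49073) (S (nat_lit 52916) (S (nat_lit 8523) (L (nat_lit 5710614))
(L (nat_lit 23894125)))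
(L (nat_lit 18794666)))
(L (nat_lit 6112841)))
(S (nat_lit 23435) (S (nat_lit 38982) (S (nat_lit 18253) (S (nat_lit 42518) (L (nat_lit 28483185))
(L (nat_lit 27563542)))
(L (nat_lit 18572299)))
(S (nat_lit 42076) (L (nat_lit 7386965))
(L (nat_lit 30724612))))
(S (nat_lit 43199) (S (nat_lit 43926) (S (nat_lit 8524) (S (nat_lit 43208) (L (nat_lit 23895181))
(L (nat_lit 4877517)))
(L (nat_lit 13268138)))
(L (nat_lit 24031367)))
(L (nat_lit 25483439)))))
(S (nat_lit 38983) (S (nat_lit 18770) (S (nat_lit 192) (L (nat_lit 12390988))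
(L (nat_lit 5720345)))
(S (nat_lit 38534) (S (nat_lit 22754) (L (nat_lit 23870503))
(L (nat_lit 18146326)))
(S (nat_lit 58298) (S (nat_lit 37514) (S (nat_lit 8524) (S (nat_lit 33152) (S (nat_lit 38239) (L (nat_lit 22317999))
(L (nat_lit 14330656)))
(L (nat_lit 16584395)))
(L (nat_lit 23855495)))
(L (nat_lit 23327886)))
(L (nat_lit 25628361)))))
(S (nat_lit 58747) (S (nat_lit 18474) (S (nat_lit 40282) (S (nat_lit 12896) (S (nat_lit 17286) (S (nat_lit 13388) (L (nat_lit 1367916))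
(L (nat_lit 26290896)))
(L (nat_lit 10325584)))
(L (nat_lit 3808732)))
(S (nat_lit 40606) (L (nat_lit 9178768))
(L (nat_lit 5873486))))
(S (nat_lit 38238) (S (nat_lit 24162) (S (nat_lit 38982) (L (nat_lit 12881658))
(L (nat_lit 10632117)))
(L (nat_lit 3663186)))
(S (nat_lit 58002) (S (nat_lit 38457) (L (nat_lit 3525455))
(S (nat_lit 53174) (S (nat_lit 18253) (S (nat_lit 21236) (L (nat_lit 28814515))
(L (nat_lit 22317841)))
(L (nat_lit 1785611)))
(L (nat_lit 10964154))))
(L (nat_lit 25744612)))))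
(L (nat_lit 25244359)))))
(S (nat_lit 30459) (S (nat_lit 14408) (S (nat_lit 14569) (L (nat_lit 5808051))
(S (nat_lit 48052) (S (nat_lit 12896) (S (nat_lit 49621) (L (nat_lit 12303517))
(S (nat_lit 57781) (S (nat_lit 1766) (S (nat_lit 23951) (S (nat_lit 37051) (L (nat_lit 11563570))
(L (nat_lit 4845772)))
(L (nat_lit 4649542)))
(L (nat_lit 12785244)))
(L (nat_lit 21045820))))
(L (nat_lit 18655842)))
(L (nat_lit 18508068))))
(S (nat_lit 34172) (S (nat_lit 305) (S (nat_lit 32660) (L (nat_lit 22385211))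
(L (nat_lit 1721126)))
(L (nat_lit 12930108)))
(S (nat_lit 53936) (S (nat_lit 1472) (S (nat_lit 12179) (S (nat_lit 8524) (L (nat_lit 26683573))
(L (nat_lit 12898052)))
(L (nat_lit 18043648)))
(S (nat_lit 21236) (S (nat_lit 47132) (S (nat_lit 12179) (S (nat_lit 34667) (L (nat_lit 28623989))
(L (nat_lit 30525062)))
(L (nat_lit 23210764)))
(L (nat_lit 20168451)))
(S (nat_lit 41000) (S (nat_lit 38982) (S (nat_lit 54431) (L (nat_lit 11175480))
(L (nat_lit 17943304)))
(L (nat_lit 11253946)))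
(L (nat_lit 25561736)))))
(L (nat_lit 25832960)))))
(S (nat_lit 50223) (S (nat_lit 8524) (S (nat_lit 517) (S (nat_lit 9252) (S (nat_lit 31472) (L (nat_lit 23244654))
(L (nat_lit 19002759)))
(S (nat_lit 32872) (L (nat_lit 26326663))
(L (nat_lit 6485710))))
(S (nat_lit 20281) (S (nat_lit 36819) (L (nat_lit 4517582))
(L (nat_lit 807214)))
(S (nat_lit 40045) (S (nat_lit 31979) (S (nat_lit 9253) (L (nat_lit 29013034))
(L (nat_lit 6949681)))
(L (nat_lit 5020213)))
(L (nat_lit 25304719)))))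
(S (nat_lit 28288) (S (nat_lit 7853) (S (nat_lit 52961) (S (nat_lit 23234) (S (nat_lit 46120) (L (nat_lit 18730151))
(L (nat_lit 11269198)))
(L (nat_lit 12908194)))
(L (nat_lit 11030403)))
(S (nat_lit 27617) (S (nat_lit 46120) (S (nat_lit 57278) (S (nat_lit 9545) (S (nat_lit 12896) (L (nat_lit 29017223))
(L (nat_lit 6048014)))
(L (nat_lit 2011721)))
(L (nat_lit 10640300)))
(L (nat_lit 27775081)))
(S (nat_lit 47381) (S (nat_lit 12896) (S (nat_lit 46120) (S (nat_lit 19219) (S (nat_lit 5152) (L (nat_lit 18652803))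
(L (nat_lit 26877443)))
(L (nat_lit 16092794)))
(L (nat_lit 20442217)))
(S (nat_lit 39166) (L (nat_lit 16075896))
(L (nat_lit 3939731))))
(L (nat_lit 25480640)))))
(S (nat_lit 48052) (S (nat_lit 13184) (S (nat_lit 46627) (L (nat_lit 792980))
(L (nat_lit 20220476)))
(S (nat_lit 32948) (S (nat_lit 50011) (L (nat_lit 20885826))
(L (nat_lit 20098556)))
(S (nat_lit 52712) (S (nat_lit 46120) (L (nat_lit 20113897))
(S (nat_lit 54975) (L (nat_lit 17107580))
(L (nat_lit 22146318))))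
(L (nat_lit 25833643)))))
(L (nat_lit 25349514)))))
(L (nat_lit 25350699)))))
(L (nat_lit 25599555)))))
(L (nat_lit 25869481)))))
(S (nat_lit 55830) (S (nat_lit 11249) (S (nat_lit 1472) (S (nat_lit 10696) (S (nat_lit 18770) (S (nat_lit 7604) (S (nat_lit 24915) (S (nat_lit 28288) (L (nat_lit 16684274))
(L (nat_lit 14996669)))
(L (nat_lit 16883388)))
(S (nat_lit 27368) (S (nat_lit 5152) (S (nat_lit 56814) (L (nat_lit 19140461))
(L (nat_lit 21020891)))
(L (nat_lit 26747989)))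
(S (nat_lit 47132) (S (nat_lit 46626) (S (nat_lit 3680) (L (nat_lit 5530098))
(L (nat_lit 9848989)))
(L (nat_lit 18113187)))
(L (nat_lit 25723497)))))
(S (nat_lit 38534) (S (nat_lit 6386) (S (nat_lit 4398) (S (nat_lit 48780) (L (nat_lit 4518544))
(L (nat_lit 16395171)))
(L (nat_lit 15757683)))
(S (nat_lit 52597) (L (nat_lit 26673799))
(L (nat_lit 26694696))))
(S (nat_lit 58298) (S (nat_lit 9253) (S (nat_lit 12896) (S (nat_lit 8523) (S (nat_lit 57581) (S (nat_lit 25397) (L (nat_lit 28675792))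
(L (nat_lit 12219404)))
(L (nat_lit 12218444)))
(L (nat_lit 23431980)))
(S (nat_lit 54270) (L (nat_lit 16050197))
(L (nat_lit 26514092))))
(S (nat_lit 29017) (S (nat_lit 19219) (S (nat_lit 19218) (S (nat_lit 33152) (L (nat_lit 5794130))
(L (nat_lit 9531088)))
(L (nat_lit 2407255)))
(S (nat_lit 52311) (L (nat_lit 21083512))
(L (nat_lit 16533829))))
(S (nat_lit 48781) (S (nat_lit 50010) (S (nat_lit 18252) (S (nat_lit 50011) (S (nat_lit 19218) (L (nat_lit 2993586))
(L (nat_lit 12121794)))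
(L (nat_lit 14223641)))
(L (nat_lit 17916648)))
(L (nat_lit 15902333)))
(L (nat_lit 25898161)))))
(L (nat_lit 25482754)))))
(S (nat_lit 30460) (S (nat_lit 1) (S (nat_lit 6591) (S (nat_lit 25138) (S (nat_lit 24915) (L (nat_lit 10118193))
(L (nat_lit 14294785)))
(L (nat_lit 14010525)))
(S (nat_lit 26355) (S (nat_lit 57278) (S (nat_lit 50010) (S (nat_lit 58003) (S (nat_lit 18053) (S (nat_lit 42998) (S (nat_lit 53633) (S (nat_lit 10262) (S (nat_lit 43199) (S (nat_lit 13646) (L (nat_lit 6448693))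
(L (nat_lit 13330602)))
(L (nat_lit 13996823)))
(L (nat_lit 9949989)))
(L (nat_lit 21304728)))
(L (nat_lit 8119842)))
(L (nat_lit 22979598)))
(L (nat_lit 12874870)))
(L (nat_lit 16059005)))
(L (nat_lit 19838179)))
(S (nat_lit 46119) (S (nat_lit 4187) (S (nat_lit 14645) (S (nat_lit 44679) (L (nat_lit 8045725))
(L (nat_lit 13281057)))
(L (nat_lit 1613620)))
(L (nat_lit 9932598)))
(L (nat_lit 25270742)))))
(S (nat_lit 19765) (S (nat_lit 46785) (L (nat_lit 16621123))
(S (nat_lit 55160) (S (nat_lit 56336) (S (nat_lit 37051) (S (nat_lit 2201) (S (nat_lit 24163) (L (nat_lit 4798810))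
(L (nat_lit 21835944)))
(L (nat_lit 15272221)))
(L (nat_lit 10643958)))
(L (nat_lit 16380228)))
(L (nat_lit 16115828))))
(S (nat_lit 39529) (S (nat_lit 2990) (S (nat_lit 12215) (S (nat_lit 31943) (L (nat_lit 25075141))
(L (nat_lit 1501459)))
(L (nat_lit 3781916)))
(S (nat_lit 22754) (S (nat_lit 20517) (S (nat_lit 30247) (L (nat_lit 2779404))
(L (nat_lit 18622117)))
(L (nat_lit 21011996)))
(S (nat_lit 42518) (S (nat_lit 56814) (S (nat_lit 21530) (L (nat_lit 15783161))
(L (nat_lit 16512072)))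
(L (nat_lit 16553173)))
(L (nat_lit 25465303)))))
(L (nat_lit 25788623)))))
(S (nat_lit 50224) (S (nat_lit 8524) (S (nat_lit 10695) (S (nat_lit 18770) (S (nat_lit 12896) (S (nat_lit 5152) (L (nat_lit 26938700))
(L (nat_lit 9057122)))
(L (nat_lit 5925254)))
(S (nat_lit 48001) (L (nat_lit 15736595))
(L (nat_lit 24600615))))
(S (nat_lit 30459) (S (nat_lit 32948) (S (nat_lit 12461) (L (nat_lit 29737047))
(L (nat_lit 21162316)))
(L (nat_lit 16412810)))
(S (nat_lit 50223) (S (nat_lit 9252) (S (nat_lit 32660) (S (nat_lit 32948) (L (nat_lit 28611091))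
(L (nat_lit 9208370)))
(L (nat_lit 24223534)))
(L (nat_lit 6949678)))
(L (nat_lit 25464560)))))
(S (nat_lit 28288) (S (nat_lit 18474) (S (nat_lit 41729) (S (nat_lit 26863) (S (nat_lit 48780) (L (nat_lit 9354884))
(L (nat_lit 14287101)))
(L (nat_lit 5164399)))
(L (nat_lit 24578954)))
(S (nat_lit 38238) (S (nat_lit 48781) (S (nat_lit 15632) (L (nat_lit 6845124))
(L (nat_lit 15336796)))
(L (nat_lit 15947681)))
(S (nat_lit 58002) (S (nat_lit 5633) (S (nat_lit 48780) (L (nat_lit 30122030))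
(L (nat_lit 16410851)))
(L (nat_lit 16090844)))
(L (nat_lit 25509508)))))
(S (nat_lit 48052) (S (nat_lit 17056) (S (nat_lit 44902) (S (nat_lit 41729) (S (nat_lit 13433) (L (nat_lit 1595741))
(L (nat_lit 12635420)))
(L (nat_lit 16688247)))
(L (nat_lit 24493212)))
(S (nat_lit 36820) (S (nat_lit 3716) (S (nat_lit 32948) (L (nat_lit 16518886))
(L (nat_lit 23652676)))
(L (nat_lit 10194428)))
(S (nat_lit 56584) (S (nat_lit 33152) (S (nat_lit 14903) (L (nat_lit 9552505))
(L (nat_lit 2628252)))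
(L (nat_lit 8833953)))
(L (nat_lit 25726695)))))
(L (nat_lit 25613415)))))
(L (nat_lit 25475652)))))
(S (nat_lit 21236) (S (nat_lit 517) (S (nat_lit 18475) (S (nat_lit 3929) (S (nat_lit 45914) (S (nat_lit 5151) (S (nat_lit 49790) (L (nat_lit 11203972))
(L (nat_lit 27951558)))
(L (nat_lit 16421736)))
(L (nat_lit 15539840)))
(S (nat_lit 23693) (S (nat_lit 24916) (L (nat_lit 16427809))
(L (nat_lit 14425730)))
(S (nat_lit 43457) (S (nat_lit 27617) (S (nat_lit 56814) (S (nat_lit 5152) (S (nat_lit 24915) (L (nat_lit 30050695))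
(L (nat_lit 2530970)))
(L (nat_lit 892560)))
(L (nat_lit 8449678)))
(L (nat_lit 4908487)))
(L (nat_lit 25337519)))))
(S (nat_lit 38239) (S (nat_lit 51759) (L (nat_lit 16455561))
(S (nat_lit 56814) (S (nat_lit 26862) (S (nat_lit 51494) (S (nat_lit 42518) (L (nat_lit 8305715))
(L (nat_lit 16522820)))
(L (nat_lit 15377187)))
(L (nat_lit 16049827)))
(L (nat_lit 16458781))))
(S (nat_lit 58003) (S (nat_lit 56814) (S (nat_lit 57781) (S (nat_lit 17750) (S (nat_lit 21530) (S (nat_lit 49508) (S (nat_lit 37051) (S (nat_lit 50010) (S (nat_lit 52712) (L (nat_lit 23413603))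
(L (nat_lit 21503130)))
(L (nat_lit 20850146)))
(L (nat_lit 31135207)))
(L (nat_lit 27740169)))
(L (nat_lit 16553576)))
(L (nat_lit 2860541)))
(L (nat_lit 18950649)))
(S (nat_lit 58839) (S (nat_lit 12215) (L (nat_lit 26905031))
(L (nat_lit 4102643)))
(L (nat_lit 15789707))))
(L (nat_lit 25725235)))))
(S (nat_lit 20281) (S (nat_lit 9980) (S (nat_lit 55831) (S (nat_lit 12461) (S (nat_lit 12215) (S (nat_lit 6842) (S (nat_lit 12179) (S (nat_lit 58002) (S (nat_lit 58003) (L (nat_lit 29830323))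
(L (nat_lit 7487251)))
(L (nat_lit 27527573)))
(L (nat_lit 10917683)))
(L (nat_lit 4671740)))
(L (nat_lit 8865916)))
(L (nat_lit 9915205)))
(L (nat_lit 9915269)))
(S (nat_lit 29744) (S (nat_lit 33197) (S (nat_lit 15632) (S (nat_lit 9253) (S (nat_lit 43208) (S (nat_lit 5633) (L (nat_lit 23213994))
(L (nat_lit 8448471)))
(L (nat_lit 4879846)))
(L (nat_lit 21459048)))
(L (nat_lit 6975969)))
(L (nat_lit 31064554)))
(S (nat_lit 49508) (S (nat_lit 6591) (S (nat_lit 23480) (S (nat_lit 30459) (L (nat_lit 11039428))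
(L (nat_lit 1534537)))
(L (nat_lit 22912485)))
(S (nat_lit 26355) (S (nat_lit 33161) (S (nat_lit 26356) (S (nat_lit 18053) (S (nat_lit 20518) (S (nat_lit 33152) (S (nat_lit 12215) (S (nat_lit 43244) (S (nat_lit 5374) (S (nat_lit 26863) (L (nat_lit 5729525))
(L (nat_lit 15630952)))
(L (nat_lit 10669562)))
(L (nat_lit 14439685)))
(L (nat_lit 26528224)))
(L (nat_lit 9882371)))
(L (nat_lit 15310627)))
(L (nat_lit 4105682)))
(L (nat_lit 4103666)))
(L (nat_lit 30673396)))
(S (nat_lit 46119) (S (nat_lit 47381) (S (nat_lit 12215) (L (nat_lit 30480884))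
(L (nat_lit 9103842)))
(L (nat_lit 22045159)))
(L (nat_lit 25237974)))))
(L (nat_lit 25277031)))))
(S (nat_lit 40045) (S (nat_lit 10482) (S (nat_lit 12026) (L (nat_lit 14819123))
(S (nat_lit 25138) (S (nat_lit 25670) (S (nat_lit 30247) (L (nat_lit 2386483))
(L (nat_lit 11438578)))
(L (nat_lit 21173753)))
(L (nat_lit 12077213))))
(S (nat_lit 30246) (S (nat_lit 25670) (S (nat_lit 50223) (S (nat_lit 56814) (S (nat_lit 23444) (L (nat_lit 16687717))
(L (nat_lit 8141541)))
(L (nat_lit 15789707)))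
(L (nat_lit 22384526)))
(L (nat_lit 22159865)))
(S (nat_lit 50010) (S (nat_lit 2172) (L (nat_lit 2415096))
(S (nat_lit 56814) (S (nat_lit 46120) (S (nat_lit 51707) (S (nat_lit 17750) (S (nat_lit 47381) (S (nat_lit 18053) (S (nat_lit 48052) (L (nat_lit 10500732))
(L (nat_lit 27577518)))
(L (nat_lit 5926222)))
(L (nat_lit 27348455)))
(L (nat_lit 22160893)))
(L (nat_lit 2485747)))
(L (nat_lit 11267555)))
(L (nat_lit 9321091))))
(L (nat_lit 25579627)))))
(L (nat_lit 25676936)))))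
(S (nat_lit 41000) (S (nat_lit 4399) (S (nat_lit 10696) (S (nat_lit 4398) (S (nat_lit 19219) (S (nat_lit 45161) (S (nat_lit 13184) (S (nat_lit 26356) (L (nat_lit 10173346))
(L (nat_lit 19837000)))
(L (nat_lit 26811940)))
(L (nat_lit 7398870)))
(L (nat_lit 16535776)))
(S (nat_lit 24162) (S (nat_lit 53633) (L (nat_lit 27373909))
(L (nat_lit 18781522)))
(S (nat_lit 43926) (S (nat_lit 56336) (L (nat_lit 28826945))
(L (nat_lit 21098829)))
(L (nat_lit 25385103)))))
(S (nat_lit 30460) (S (nat_lit 45161) (S (nat_lit 23693) (S (nat_lit 53633) (S (nat_lit 5374) (S (nat_lit 6386) (L (nat_lit 28508814))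
(L (nat_lit 16666848)))
(L (nat_lit 15739701)))
(L (nat_lit 18111393)))
(L (nat_lit 11179579)))
(L (nat_lit 7500492)))
(S (nat_lit 50224) (S (nat_lit 231) (L (nat_lit 18019668))
(S (nat_lit 18770) (S (nat_lit 0) (S (nat_lit 20518) (S (nat_lit 42998) (L (nat_lit 18650418))
(L (nat_lit 15987362)))
(L (nat_lit 16668962)))
(L (nat_lit 13639474)))
(L (nat_lit 11439634))))
(L (nat_lit 25693767)))))
(S (nat_lit 24163) (S (nat_lit 17056) (S (nat_lit 3680) (S (nat_lit 10262) (S (nat_lit 25138) (S (nat_lit 6842) (L (nat_lit 28825674))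
(L (nat_lit 21249116)))
(L (nat_lit 17469725)))
(L (nat_lit 26838381)))
(S (nat_lit 23444) (S (nat_lit 50224) (S (nat_lit 58746) (S (nat_lit 25138) (S (nat_lit 5633) (S (nat_lit 43457) (L (nat_lit 3069262))
(L (nat_lit 16424833)))
(L (nat_lit 17963772)))
(L (nat_lit 14600331)))
(L (nat_lit 19828049)))
(L (nat_lit 22490916)))
(S (nat_lit 43208) (S (nat_lit 20517) (S (nat_lit 38534) (S (nat_lit 16303) (L (nat_lit 29635762))
(L (nat_lit 5023345)))
(L (nat_lit 6714048)))
(L (nat_lit 21324940)))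
(L (nat_lit 25868548)))))
(S (nat_lit 36820) (S (nat_lit 4398) (S (nat_lit 52961) (S (nat_lit 42998) (S (nat_lit 52925) (L (nat_lit 7227568))
(L (nat_lit 19197379)))
(L (nat_lit 15749336)))
(L (nat_lit 21033419)))
(S (nat_lit 24162) (S (nat_lit 27617) (S (nat_lit 49790) (L (nat_lit 17467676))
(L (nat_lit 9012696)))
(L (nat_lit 15328608)))
(S (nat_lit 43926) (S (nat_lit 2990) (L (nat_lit 19984716))
(L (nat_lit 26401101)))
(L (nat_lit 25799040)))))
(S (nat_lit 56584) (S (nat_lit 11966) (S (nat_lit 11708) (S (nat_lit 21530) (S (nat_lit 5633) (L (nat_lit 10507153))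
(L (nat_lit 15768285)))
(L (nat_lit 21234073)))
(L (nat_lit 16091836)))
(S (nat_lit 31730) (S (nat_lit 23444) (S (nat_lit 7604) (L (nat_lit 12457459))
(L (nat_lit 13671347)))
(L (nat_lit 21557382)))
(S (nat_lit 51494) (S (nat_lit 55160) (S (nat_lit 27617) (S (nat_lit 20518) (L (nat_lit 7946113))
(L (nat_lit 21401848)))
(L (nat_lit 16361216)))
(L (nat_lit 16075521)))
(L (nat_lit 25463315)))))
(L (nat_lit 25509014)))))
(S (nat_lit 43927) (S (nat_lit 17750) (S (nat_lit 20518) (S (nat_lit 21530) (S (nat_lit 3929) (L (nat_lit 31105507))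
(L (nat_lit 5064360)))
(L (nat_lit 21536643)))
(S (nat_lit 27781) (S (nat_lit 18253) (L (nat_lit 6304565))
(L (nat_lit 22915618)))
(L (nat_lit 21261859))))
(S (nat_lit 37514) (S (nat_lit 34302) (S (nat_lit 32971) (L (nat_lit 26903885))
(L (nat_lit 20985608)))
(S (nat_lit 56814) (S (nat_lit 4398) (S (nat_lit 43199) (S (nat_lit 21530) (S (nat_lit 517) (S (nat_lit 13433) (S (nat_lit 44902) (L (nat_lit 5620345))
(L (nat_lit 10153504)))
(L (nat_lit 6344157)))
(L (nat_lit 6349268)))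
(L (nat_lit 21015377)))
(L (nat_lit 6941157)))
(L (nat_lit 15931129)))
(L (nat_lit 13988949))))
(S (nat_lit 57278) (S (nat_lit 2990) (S (nat_lit 56584) (S (nat_lit 30246) (S (nat_lit 20281) (L (nat_lit 9851680))
(L (nat_lit 16052865)))
(L (nat_lit 25077156)))
(L (nat_lit 9014748)))
(S (nat_lit 22754) (S (nat_lit 24915) (S (nat_lit 42998) (L (nat_lit 21401946))
(L (nat_lit 13955744)))
(L (nat_lit 14589600)))
(S (nat_lit 42518) (S (nat_lit 34172) (S (nat_lit 20281) (L (nat_lit 9005602))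
(L (nat_lit 16686756)))
(L (nat_lit 5099047)))
(L (nat_lit 25902087)))))
(L (nat_lit 25409249)))))
(L (nat_lit 25767298)))))
(L (nat_lit 25209303)))))
(S (nat_lit 31013) (S (nat_lit 4187) (S (nat_lit 4398) (S (nat_lit 2990) (S (nat_lit 2495) (S (nat_lit 43927) (S (nat_lit 517) (S (nat_lit 18474) (L (nat_lit 9954453))
(L (nat_lit 26976642)))
(L (nat_lit 20780488)))
(L (nat_lit 27891144)))
(L (nat_lit 20288988)))
(S (nat_lit 22754) (S (nat_lit 0) (L (nat_lit 1439283))
(S (nat_lit 19764) (S (nat_lit 19218) (S (nat_lit 13433) (S (nat_lit 20281) (L (nat_lit 24019339))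
(L (nat_lit 22320600)))
(L (nat_lit 22943178)))
(L (nat_lit 10268693)))
(S (nat_lit 39528) (S (nat_lit 49508) (S (nat_lit 19219) (L (nat_lit 18761737))
(L (nat_lit 18214931)))
(L (nat_lit 16010048)))
(L (nat_lit 25795628)))))
(S (nat_lit 42518) (S (nat_lit 24163) (S (nat_lit 34667) (S (nat_lit 14408) (L (nat_lit 8403763))
(L (nat_lit 4102800)))
(L (nat_lit 16566465)))
(L (nat_lit 21894601)))
(L (nat_lit 25664566)))))
(S (nat_lit 24162) (S (nat_lit 19219) (S (nat_lit 22049) (S (nat_lit 12179) (L (nat_lit 26545555))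
(L (nat_lit 18423996)))
(S (nat_lit 41729) (S (nat_lit 3629) (L (nat_lit 16508256))
(S (nat_lit 42998) (S (nat_lit 32948) (S (nat_lit 40282) (S (nat_lit 51494) (S (nat_lit 57780) (S (nat_lit 23435) (S (nat_lit 57366) (L (nat_lit 3393977))
(L (nat_lit 22131559)))
(L (nat_lit 8280239)))
(L (nat_lit 4926319)))
(L (nat_lit 9917313)))
(L (nat_lit 16817916)))
(L (nat_lit 20100906)))
(L (nat_lit 7427885))))
(L (nat_lit 23537445))))
(S (nat_lit 38983) (S (nat_lit 3929) (S (nat_lit 39833) (S (nat_lit 26355) (L (nat_lit 6810805))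
(L (nat_lit 10203260)))
(L (nat_lit 16903510)))
(S (nat_lit 23693) (S (nat_lit 37050) (S (nat_lit 41729) (S (nat_lit 18253) (L (nat_lit 13473106))
(L (nat_lit 9258006)))
(L (nat_lit 5452599)))
(L (nat_lit 7493424)))
(S (nat_lit 43457) (S (nat_lit 50224) (S (nat_lit 14105) (S (nat_lit 23435) (S (nat_lit 37050) (L (nat_lit 2007664))
(L (nat_lit 23312410)))
(L (nat_lit 10544845)))
(L (nat_lit 14423719)))
(L (nat_lit 15839031)))
(L (nat_lit 25744390)))))
(S (nat_lit 58747) (S (nat_lit 12215) (S (nat_lit 17055) (S (nat_lit 51989) (S (nat_lit 20518) (S (nat_lit 18253) (S (nat_lit 12179) (S (nat_lit 1) (L (nat_lit 29855432))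
(L (nat_lit 13880067)))
(L (nat_lit 16586067)))
(L (nat_lit 16451339)))
(L (nat_lit 21370731)))
(L (nat_lit 27544068)))
(S (nat_lit 21064) (L (nat_lit 15944609))
(L (nat_lit 26626404))))
(S (nat_lit 31979) (S (nat_lit 52916) (S (nat_lit 32660) (S (nat_lit 32225) (S (nat_lit 51494) (L (nat_lit 14901427))
(L (nat_lit 7736115)))
(L (nat_lit 2575112)))
(L (nat_lit 4508460)))
(L (nat_lit 19826123)))
(S (nat_lit 51743) (S (nat_lit 52916) (S (nat_lit 1) (S (nat_lit 20281) (S (nat_lit 32660) (S (nat_lit 5374) (L (nat_lit 22872457))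
(L (nat_lit 3000811)))
(L (nat_lit 1362395)))
(L (nat_lit 1559464)))
(L (nat_lit 6735899)))
(L (nat_lit 19828171)))
(L (nat_lit 25477762)))))
(L (nat_lit 25479181)))))
(S (nat_lit 43926) (S (nat_lit 16808) (S (nat_lit 2990) (S (nat_lit 2495) (S (nat_lit 6386) (L (nat_lit 10074912))
(L (nat_lit 15802045)))
(L (nat_lit 19207645)))
(S (nat_lit 17397) (L (nat_lit 11450484))
(L (nat_lit 1548087))))
(S (nat_lit 36572) (S (nat_lit 46627) (S (nat_lit 13646) (S (nat_lit 55160) (S (nat_lit 45434) (S (nat_lit 41729) (S (nat_lit 20518) (S (nat_lit 6591) (L (nat_lit 22125980))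
(L (nat_lit 7430733)))
(L (nat_lit 21250205)))
(L (nat_lit 14256939)))
(L (nat_lit 28022312)))
(L (nat_lit 11985010)))
(L (nat_lit 3777948)))
(L (nat_lit 11422798)))
(S (nat_lit 56336) (S (nat_lit 20517) (S (nat_lit 27368) (L (nat_lit 6217226))
(L (nat_lit 15510643)))
(S (nat_lit 33101) (S (nat_lit 37726) (L (nat_lit 13931314))
(L (nat_lit 24481581)))
(L (nat_lit 22037290))))
(L (nat_lit 25244360)))))
(L (nat_lit 25368303)))))
(S (nat_lit 23951) (S (nat_lit 305) (S (nat_lit 5633) (S (nat_lit 5151) (S (nat_lit 5374) (S (nat_lit 3671) (S (nat_lit 58746) (S (nat_lit 55831) (L (nat_lit 5586653))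
(L (nat_lit 3492652)))
(L (nat_lit 1745809)))
(L (nat_lit 20456356)))
(L (nat_lit 18191157)))
(S (nat_lit 24915) (S (nat_lit 56584) (S (nat_lit 37050) (S (nat_lit 52916) (S (nat_lit 9545) (L (nat_lit 17405865))
(L (nat_lit 8898685)))
(L (nat_lit 18538507)))
(L (nat_lit 13538955)))
(L (nat_lit 21389664)))
(S (nat_lit 44679) (S (nat_lit 56584) (S (nat_lit 52916) (S (nat_lit 29017) (S (nat_lit 25138) (L (nat_lit 28482102))
(L (nat_lit 14346496)))
(L (nat_lit 9549719)))
(L (nat_lit 1264529)))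
(L (nat_lit 14471520)))
(L (nat_lit 25541280)))))
(S (nat_lit 25397) (S (nat_lit 8523) (S (nat_lit 6842) (S (nat_lit 23435) (S (nat_lit 49790) (S (nat_lit 33869) (S (nat_lit 46119) (S (nat_lit 24162) (S (nat_lit 52916) (S (nat_lit 24916) (L (nat_lit 1813914))
(L (nat_lit 30784162)))
(L (nat_lit 18538666)))
(L (nat_lit 31035783)))
(L (nat_lit 27571286)))
(L (nat_lit 31168899)))
(L (nat_lit 4716230)))
(L (nat_lit 17865526)))
(S (nat_lit 33090) (L (nat_lit 26714817))
(L (nat_lit 12755765))))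
(S (nat_lit 28287) (S (nat_lit 3929) (S (nat_lit 13184) (S (nat_lit 48781) (S (nat_lit 3470) (S (nat_lit 46370) (S (nat_lit 10696) (L (nat_lit 21149917))
(L (nat_lit 21454890)))
(L (nat_lit 27441867)))
(L (nat_lit 4108935)))
(L (nat_lit 12438641)))
(L (nat_lit 26391179)))
(S (nat_lit 33039) (L (nat_lit 4476346))
(L (nat_lit 4542876))))
(S (nat_lit 48051) (S (nat_lit 9545) (S (nat_lit 39529) (S (nat_lit 58747) (S (nat_lit 53633) (S (nat_lit 55160) (L (nat_lit 16026421))
(L (nat_lit 21029355)))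
(L (nat_lit 21861648)))
(L (nat_lit 9359536)))
(L (nat_lit 5157480)))
(L (nat_lit 9351283)))
(L (nat_lit 25543860)))))
(S (nat_lit 45161) (S (nat_lit 6386) (S (nat_lit 7853) (S (nat_lit 9253) (S (nat_lit 39529) (S (nat_lit 52712) (L (nat_lit 19771683))
(L (nat_lit 6037136)))
(L (nat_lit 18795714)))
(L (nat_lit 5461467)))
(L (nat_lit 8932413)))
(S (nat_lit 26150) (S (nat_lit 6592) (S (nat_lit 58002) (S (nat_lit 9253) (S (nat_lit 52925) (L (nat_lit 16938258))
(L (nat_lit 20985642)))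
(L (nat_lit 21182244)))
(L (nat_lit 21871908)))
(S (nat_lit 9202) (L (nat_lit 13923937))
(L (nat_lit 1946898))))
(S (nat_lit 45914) (S (nat_lit 23435) (S (nat_lit 21530) (S (nat_lit 55160) (L (nat_lit 29735620))
(L (nat_lit 19248186)))
(L (nat_lit 30940771)))
(L (nat_lit 12904133)))
(L (nat_lit 25432718)))))
(L (nat_lit 25219465)))))
(S (nat_lit 20069) (S (nat_lit 12896) (S (nat_lit 17056) (S (nat_lit 58747) (S (nat_lit 5374) (L (nat_lit 30624292))
(L (nat_lit 26757259)))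
(L (nat_lit 15059845)))
(L (nat_lit 9456155)))
(S (nat_lit 32660) (S (nat_lit 16303) (L (nat_lit 4049265))
(L (nat_lit 14829947)))
(S (nat_lit 52424) (S (nat_lit 5906) (S (nat_lit 42998) (S (nat_lit 56336) (S (nat_lit 19765) (S (nat_lit 26863) (L (nat_lit 17888872))
(L (nat_lit 8545842)))
(L (nat_lit 22229021)))
(L (nat_lit 21062989)))
(L (nat_lit 16483704)))
(S (nat_lit 54307) (L (nat_lit 30973539))
(L (nat_lit 15921462))))
(L (nat_lit 25549900)))))
(S (nat_lit 39833) (S (nat_lit 3671) (S (nat_lit 18474) (S (nat_lit 31262) (L (nat_lit 4892590))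
(L (nat_lit 1887502)))
(S (nat_lit 38238) (S (nat_lit 55831) (S (nat_lit 22259) (L (nat_lit 10194460))
(L (nat_lit 10204035)))
(L (nat_lit 1827180)))
(S (nat_lit 58002) (S (nat_lit 6592) (L (nat_lit 1439219))
(L (nat_lit 21869640)))
(L (nat_lit 25508981)))))
(S (nat_lit 23435) (S (nat_lit 16808) (S (nat_lit 57780) (S (nat_lit 55831) (L (nat_lit 1711675))
(L (nat_lit 3677913)))
(L (nat_lit 19708968)))
(S (nat_lit 36572) (S (nat_lit 30026) (S (nat_lit 42998) (S (nat_lit 20518) (S (nat_lit 24162) (S (nat_lit 46627) (S (nat_lit 45434) (L (nat_lit 12872887))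
(L (nat_lit 27417126)))
(L (nat_lit 18108225)))
(L (nat_lit 21836128)))
(L (nat_lit 15738677)))
(L (nat_lit 7434925)))
(L (nat_lit 17984198)))
(S (nat_lit 56336) (S (nat_lit 6842) (S (nat_lit 33869) (L (nat_lit 18784931))
(L (nat_lit 16665737)))
(L (nat_lit 2575146)))
(L (nat_lit 25513071)))))
(S (nat_lit 43199) (S (nat_lit 4399) (S (nat_lit 19218) (S (nat_lit 55831) (L (nat_lit 10237110))
(L (nat_lit 4038353)))
(L (nat_lit 16521924)))
(S (nat_lit 24163) (S (nat_lit 46626) (S (nat_lit 46370) (L (nat_lit 11004611))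
(L (nat_lit 1340112)))
(L (nat_lit 17369467)))
(S (nat_lit 43927) (S (nat_lit 2990) (S (nat_lit 2495) (L (nat_lit 17732919))
(L (nat_lit 15439626)))
(L (nat_lit 11253508)))
(L (nat_lit 25213301)))))
(L (nat_lit 25205453)))))
(L (nat_lit 25696310)))))
(S (nat_lit 43715) (S (nat_lit 12896) (S (nat_lit 17750) (S (nat_lit 7098) (S (nat_lit 30247) (S (nat_lit 17056) (S (nat_lit 26150) (S (nat_lit 32948) (L (nat_lit 28524160))
(L (nat_lit 16083122)))
(L (nat_lit 11309740)))
(L (nat_lit 26543788)))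
(L (nat_lit 10676908)))
(S (nat_lit 26862) (S (nat_lit 26863) (S (nat_lit 5633) (L (nat_lit 2387628))
(L (nat_lit 3847421)))
(L (nat_lit 4706089)))
(S (nat_lit 46626) (S (nat_lit 26863) (S (nat_lit 20069) (S (nat_lit 36819) (S (nat_lit 38238) (L (nat_lit 29690359))
(L (nat_lit 13920373)))
(L (nat_lit 10663612)))
(L (nat_lit 15856330)))
(L (nat_lit 8899672)))
(L (nat_lit 25756013)))))
(S (nat_lit 37514) (S (nat_lit 5633) (S (nat_lit 18474) (S (nat_lit 27617) (S (nat_lit 20518) (L (nat_lit 2617066))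
(L (nat_lit 30449358)))
(L (nat_lit 12441058)))
(L (nat_lit 16017028)))
(S (nat_lit 25397) (S (nat_lit 1472) (S (nat_lit 57581) (S (nat_lit 21965) (S (nat_lit 36819) (L (nat_lit 487082))
(L (nat_lit 20712907)))
(L (nat_lit 9041445)))
(L (nat_lit 27926914)))
(L (nat_lit 1365468)))
(S (nat_lit 45161) (S (nat_lit 20281) (S (nat_lit 51743) (S (nat_lit 5374) (S (nat_lit 26863) (L (nat_lit 29677090))
(L (nat_lit 30920033)))
(L (nat_lit 16441605)))
(L (nat_lit 9527150)))
(L (nat_lit 9090109)))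
(L (nat_lit 25378839)))))
(S (nat_lit 57278) (S (nat_lit 1766) (S (nat_lit 12179) (S (nat_lit 19765) (S (nat_lit 753) (L (nat_lit 28771018))
(L (nat_lit 8445496)))
(L (nat_lit 15308829)))
(L (nat_lit 21020457)))
(S (nat_lit 21530) (S (nat_lit 10695) (S (nat_lit 19765) (S (nat_lit 20518) (S (nat_lit 9252) (S (nat_lit 53936) (L (nat_lit 6897442))
(L (nat_lit 18616905)))
(L (nat_lit 8010873)))
(L (nat_lit 15537460)))
(L (nat_lit 8833859)))
(L (nat_lit 21356686)))
(S (nat_lit 41294) (S (nat_lit 20069) (S (nat_lit 45434) (L (nat_lit 275222))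
(L (nat_lit 9198052)))
(L (nat_lit 15788407)))
(L (nat_lit 25279862)))))
(L (nat_lit 25742563)))))
(S (nat_lit 32660) (S (nat_lit 7098) (S (nat_lit 16808) (S (nat_lit 5374) (L (nat_lit 3367535))
(L (nat_lit 19769424)))
(S (nat_lit 36572) (S (nat_lit 50011) (S (nat_lit 31472) (S (nat_lit 19218) (L (nat_lit 10601080))
(L (nat_lit 18216546)))
(L (nat_lit 17162852)))
(L (nat_lit 13989472)))
(S (nat_lit 56336) (S (nat_lit 9545) (S (nat_lit 58747) (S (nat_lit 26863) (L (nat_lit 29405491))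
(L (nat_lit 4507320)))
(L (nat_lit 9292293)))
(L (nat_lit 9357389)))
(L (nat_lit 25745637)))))
(S (nat_lit 26862) (S (nat_lit 11830) (L (nat_lit 4715730))
(S (nat_lit 26863) (S (nat_lit 25138) (L (nat_lit 17732202))
(L (nat_lit 14592608)))
(L (nat_lit 4696946))))
(S (nat_lit 46626) (S (nat_lit 9253) (S (nat_lit 20069) (S (nat_lit 14105) (L (nat_lit 5459757))
(L (nat_lit 2542877)))
(L (nat_lit 16566378)))
(S (nat_lit 29017) (S (nat_lit 37817) (S (nat_lit 9980) (L (nat_lit 18630912))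
(L (nat_lit 9226253)))
(L (nat_lit 23093612)))
(S (nat_lit 48781) (S (nat_lit 13397) (S (nat_lit 31472) (S (nat_lit 18253) (L (nat_lit 14436426))
(L (nat_lit 16375814)))
(L (nat_lit 13830779)))
(L (nat_lit 13803132)))
(L (nat_lit 25416817)))))
(L (nat_lit 25210390)))))
(S (nat_lit 52424) (S (nat_lit 17287) (S (nat_lit 5906) (S (nat_lit 22822) (L (nat_lit 18728966))
(S (nat_lit 55831) (S (nat_lit 58747) (S (nat_lit 49508) (L (nat_lit 14741843))
(L (nat_lit 13978370)))
(L (nat_lit 9292288)))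
(L (nat_lit 10340529))))
(S (nat_lit 25670) (S (nat_lit 51989) (L (nat_lit 3841964))
(L (nat_lit 8800376)))
(S (nat_lit 45434) (S (nat_lit 51707) (L (nat_lit 28771944))
(L (nat_lit 28020199)))
(L (nat_lit 25631333)))))
(S (nat_lit 37051) (S (nat_lit 9252) (S (nat_lit 11498) (L (nat_lit 29545994))
(L (nat_lit 16681235)))
(L (nat_lit 15365222)))
(S (nat_lit 56815) (S (nat_lit 12215) (S (nat_lit 26606) (S (nat_lit 25138) (L (nat_lit 2574556))
(L (nat_lit 13650269)))
(L (nat_lit 9948033)))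
(L (nat_lit 3632403)))
(L (nat_lit 25898060)))))
(L (nat_lit 25822664)))))
(L (nat_lit 25677090)))))
(S (nat_lit 50777) (S (nat_lit 15632) (S (nat_lit 13397) (S (nat_lit 10696) (S (nat_lit 6591) (S (nat_lit 38016) (S (nat_lit 22259) (S (nat_lit 21965) (L (nat_lit 29839680))
(L (nat_lit 22045226)))
(L (nat_lit 22077898)))
(L (nat_lit 17565013)))
(S (nat_lit 26355) (S (nat_lit 17750) (S (nat_lit 51494) (S (nat_lit 22259) (L (nat_lit 16110746))
(L (nat_lit 22470794)))
(L (nat_lit 27742561)))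
(L (nat_lit 2906603)))
(S (nat_lit 46119) (S (nat_lit 19765) (S (nat_lit 17750) (S (nat_lit 21965) (L (nat_lit 22210828))
(L (nat_lit 21460074)))
(L (nat_lit 26908139)))
(L (nat_lit 10302051)))
(L (nat_lit 25441396)))))
(S (nat_lit 30460) (S (nat_lit 15374) (S (nat_lit 2201) (S (nat_lit 52712) (L (nat_lit 5908397))
(L (nat_lit 5002794)))
(L (nat_lit 26676906)))
(S (nat_lit 35138) (S (nat_lit 13388) (S (nat_lit 20069) (L (nat_lit 2586186))
(L (nat_lit 22918250)))
(L (nat_lit 26904010)))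
(S (nat_lit 54902) (S (nat_lit 13433) (S (nat_lit 38016) (S (nat_lit 19765) (S (nat_lit 29309) (L (nat_lit 28675539))
(L (nat_lit 12235524)))
(L (nat_lit 22276515)))
(L (nat_lit 2550506)))
(L (nat_lit 2779594)))
(L (nat_lit 25679882)))))
(S (nat_lit 50224) (S (nat_lit 4187) (S (nat_lit 51989) (S (nat_lit 2990) (S (nat_lit 51743) (L (nat_lit 29999456))
(L (nat_lit 2519379)))
(L (nat_lit 20423740)))
(L (nat_lit 22808812)))
(S (nat_lit 23951) (S (nat_lit 20518) (S (nat_lit 28288) (S (nat_lit 36820) (S (nat_lit 56336) (L (nat_lit 21269263))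
(L (nat_lit 4944424)))
(L (nat_lit 31044746)))
(L (nat_lit 30706066)))
(L (nat_lit 22439203)))
(S (nat_lit 43715) (S (nat_lit 16303) (S (nat_lit 19765) (S (nat_lit 14645) (L (nat_lit 29368014))
(L (nat_lit 22165820)))
(L (nat_lit 2956693)))
(L (nat_lit 2904619)))
(L (nat_lit 25251181)))))
(L (nat_lit 25890346)))))
(S (nat_lit 33161) (S (nat_lit 43244) (S (nat_lit 6386) (S (nat_lit 26356) (S (nat_lit 9252) (S (nat_lit 4399) (S (nat_lit 36820) (L (nat_lit 29045928))
(L (nat_lit 629277)))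
(L (nat_lit 18903432)))
(L (nat_lit 3356438)))
(L (nat_lit 19340194)))
(S (nat_lit 26150) (S (nat_lit 57278) (S (nat_lit 19765) (S (nat_lit 26356) (L (nat_lit 4106775))
(L (nat_lit 10237667)))
(L (nat_lit 21196847)))
(L (nat_lit 19100131)))
(S (nat_lit 45914) (S (nat_lit 56336) (S (nat_lit 53633) (L (nat_lit 22820008))
(L (nat_lit 1340080)))
(L (nat_lit 21393732)))
(L (nat_lit 25579842)))))
(L (nat_lit 7099877)))
(S (nat_lit 52925) (S (nat_lit 14105) (S (nat_lit 46769) (L (nat_lit 1754919))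
(S (nat_lit 51494) (S (nat_lit 26862) (S (nat_lit 6592) (S (nat_lit 31472) (L (nat_lit 16028531))
(L (nat_lit 14420585)))
(L (nat_lit 26319346)))
(L (nat_lit 19344165)))
(L (nat_lit 3615539))))
(S (nat_lit 33869) (S (nat_lit 21530) (S (nat_lit 37514) (S (nat_lit 19765) (S (nat_lit 20069) (S (nat_lit 29016) (L (nat_lit 14863704))
(L (nat_lit 10108803)))
(L (nat_lit 30460241)))
(L (nat_lit 9882499)))
(L (nat_lit 8549876)))
(S (nat_lit 52847) (L (nat_lit 16697419))
(L (nat_lit 16479585))))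
(S (nat_lit 53633) (S (nat_lit 10483) (S (nat_lit 54431) (S (nat_lit 5152) (L (nat_lit 28759393))
(L (nat_lit 16393338)))
(L (nat_lit 19434778)))
(S (nat_lit 30247) (S (nat_lit 54431) (S (nat_lit 6592) (S (nat_lit 58003) (S (nat_lit 38017) (L (nat_lit 4747846))
(L (nat_lit 4111699)))
(L (nat_lit 2020747)))
(L (nat_lit 21049658)))
(L (nat_lit 1918228)))
(S (nat_lit 50011) (S (nat_lit 35138) (L (nat_lit 7533042))
(L (nat_lit 3491577)))
(L (nat_lit 25352460)))))
(L (nat_lit 25251152)))))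
(L (nat_lit 25337298)))))
(S (nat_lit 35396) (S (nat_lit 3680) (S (nat_lit 6591) (S (nat_lit 14645) (S (nat_lit 44902) (S (nat_lit 32225) (L (nat_lit 8029070))
(L (nat_lit 25004364)))
(L (nat_lit 27929056)))
(S (nat_lit 34409) (S (nat_lit 25670) (S (nat_lit 17287) (L (nat_lit 23356964))
(L (nat_lit 4045075)))
(L (nat_lit 2317132)))
(S (nat_lit 54173) (S (nat_lit 48051) (S (nat_lit 12179) (S (nat_lit 27617) (S (nat_lit 34172) (S (nat_lit 3716) (S (nat_lit 29309) (L (nat_lit 9581363))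
(L (nat_lit 19695983)))
(L (nat_lit 20188668)))
(L (nat_lit 6835227)))
(L (nat_lit 16377186)))
(L (nat_lit 9261536)))
(L (nat_lit 18481533)))
(L (nat_lit 25304816)))))
(S (nat_lit 26355) (S (nat_lit 7853) (S (nat_lit 13433) (S (nat_lit 17750) (S (nat_lit 33152) (L (nat_lit 5797482))
(L (nat_lit 9259489)))
(L (nat_lit 8179171)))
(L (nat_lit 7392765)))
(S (nat_lit 27617) (S (nat_lit 13433) (S (nat_lit 10262) (S (nat_lit 44902) (L (nat_lit 21773354))
(L (nat_lit 1265148)))
(L (nat_lit 10150959)))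
(L (nat_lit 6344188)))
(S (nat_lit 47381) (S (nat_lit 51743) (L (nat_lit 5940728))
(L (nat_lit 10225139)))
(L (nat_lit 25395667)))))
(S (nat_lit 46119) (S (nat_lit 18474) (S (nat_lit 17286) (S (nat_lit 10483) (S (nat_lit 21530) (S (nat_lit 20518) (L (nat_lit 29067751))
(L (nat_lit 22287933)))
(L (nat_lit 10609265)))
(L (nat_lit 4547058)))
(L (nat_lit 22372835)))
(S (nat_lit 38238) (S (nat_lit 10482) (S (nat_lit 57780) (L (nat_lit 12228059))
(L (nat_lit 21067240)))
(L (nat_lit 4542968)))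
(S (nat_lit 58002) (S (nat_lit 44902) (S (nat_lit 16808) (S (nat_lit 2990) (L (nat_lit 28663330))
(L (nat_lit 19373117)))
(L (nat_lit 22374509)))
(L (nat_lit 27642341)))
(L (nat_lit 25858353)))))
(L (nat_lit 25474785)))))
(S (nat_lit 23444) (S (nat_lit 14903) (S (nat_lit 52424) (S (nat_lit 17056) (S (nat_lit 51236) (S (nat_lit 40045) (L (nat_lit 9554332))
(L (nat_lit 2780430)))
(L (nat_lit 9521998)))
(L (nat_lit 15583589)))
(L (nat_lit 2778382)))
(S (nat_lit 34667) (S (nat_lit 29744) (S (nat_lit 32660) (S (nat_lit 19764) (S (nat_lit 40045) (S (nat_lit 19218) (L (nat_lit 5556731))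
(L (nat_lit 26724363)))
(L (nat_lit 27925985)))
(L (nat_lit 15944512)))
(L (nat_lit 11061273)))
(L (nat_lit 18107170)))
(S (nat_lit 54431) (S (nat_lit 29744) (S (nat_lit 12896) (S (nat_lit 51989) (S (nat_lit 51236) (L (nat_lit 311994))
(L (nat_lit 9521932)))
(L (nat_lit 27740230)))
(L (nat_lit 16410880)))
(L (nat_lit 6474233)))
(L (nat_lit 25772225)))))
(S (nat_lit 43208) (S (nat_lit 5633) (S (nat_lit 18253) (S (nat_lit 20517) (S (nat_lit 5152) (S (nat_lit 19219) (L (nat_lit 26902922))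
(L (nat_lit 16418666)))
(L (nat_lit 16094069)))
(L (nat_lit 16590529)))
(S (nat_lit 38017) (S (nat_lit 18770) (S (nat_lit 41729) (L (nat_lit 6204015))
(L (nat_lit 15771542)))
(L (nat_lit 16408928)))
(S (nat_lit 57781) (S (nat_lit 18770) (S (nat_lit 38982) (L (nat_lit 6170007))
(L (nat_lit 5945596)))
(L (nat_lit 5913821)))
(L (nat_lit 25363181)))))
(S (nat_lit 25397) (S (nat_lit 33458) (L (nat_lit 6983536))
(S (nat_lit 38982) (S (nat_lit 11498) (S (nat_lit 17056) (L (nat_lit 12945175))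
(L (nat_lit 10340800)))
(L (nat_lit 16427872)))
(L (nat_lit 11186946))))
(S (nat_lit 45161) (S (nat_lit 11498) (S (nat_lit 30459) (S (nat_lit 8524) (L (nat_lit 28984581))
(L (nat_lit 21349124)))
(L (nat_lit 4866827)))
(S (nat_lit 31262) (S (nat_lit 33197) (S (nat_lit 13388) (S (nat_lit 14105) (L (nat_lit 29640881))
(L (nat_lit 13421827)))
(L (nat_lit 13420803)))
(L (nat_lit 15518979)))
(S (nat_lit 51026) (S (nat_lit 10262) (S (nat_lit 53633) (S (nat_lit 19218) (L (nat_lit 2814317))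
(L (nat_lit 12236824)))
(L (nat_lit 27966723)))
(L (nat_lit 15380229)))
(L (nat_lit 25253164)))))
(L (nat_lit 25546766)))))
(L (nat_lit 25742472)))))
(S (nat_lit 55160) (S (nat_lit 18252) (S (nat_lit 5633) (S (nat_lit 8524) (S (nat_lit 57581) (S (nat_lit 26606) (S (nat_lit 1) (L (nat_lit 2552149))
(L (nat_lit 19301128)))
(L (nat_lit 16687811)))
(L (nat_lit 20980494)))
(S (nat_lit 28288) (S (nat_lit 1) (S (nat_lit 34172) (S (nat_lit 24058) (L (nat_lit 18615880))
(L (nat_lit 16646760)))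
(L (nat_lit 31070754)))
(L (nat_lit 18881295)))
(S (nat_lit 48052) (S (nat_lit 27617) (S (nat_lit 38017) (S (nat_lit 57581) (L (nat_lit 18970091))
(L (nat_lit 27857230)))
(L (nat_lit 20030349)))
(L (nat_lit 7198178)))
(L (nat_lit 25461143)))))
(S (nat_lit 25397) (S (nat_lit 3929) (L (nat_lit 2901333))
(S (nat_lit 23693) (S (nat_lit 9252) (S (nat_lit 58298) (L (nat_lit 6140178))
(L (nat_lit 15344416)))
(L (nat_lit 21083385)))
(S (nat_lit 43457) (S (nat_lit 27617) (S (nat_lit 23480) (L (nat_lit 29700279))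
(L (nat_lit 21127656)))
(L (nat_lit 1877491)))
(L (nat_lit 25186543)))))
(S (nat_lit 45161) (S (nat_lit 8523) (S (nat_lit 9602) (L (nat_lit 12930946))
(S (nat_lit 43199) (S (nat_lit 26355) (S (nat_lit 5906) (L (nat_lit 19186812))
(L (nat_lit 15888694)))
(L (nat_lit 8867930)))
(L (nat_lit 27647460))))
(S (nat_lit 28287) (S (nat_lit 6842) (S (nat_lit 27617) (S (nat_lit 56814) (S (nat_lit 58003) (S (nat_lit 10262) (S (nat_lit 2287) (L (nat_lit 14719640))
(L (nat_lit 21525545)))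
(L (nat_lit 16918173)))
(L (nat_lit 1616723)))
(L (nat_lit 8812163)))
(L (nat_lit 1943029)))
(S (nat_lit 57105) (L (nat_lit 15991703))
(L (nat_lit 7191637))))
(S (nat_lit 48051) (S (nat_lit 19218) (S (nat_lit 52712) (L (nat_lit 11623930))
(L (nat_lit 19235352)))
(L (nat_lit 16107544)))
(L (nat_lit 25547949)))))
(L (nat_lit 25855214)))))
(S (nat_lit 38016) (S (nat_lit 13646) (S (nat_lit 305) (S (nat_lit 46773) (S (nat_lit 10425) (L (nat_lit 702813))
(L (nat_lit 6743617)))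
(S (nat_lit 54902) (S (nat_lit 7488) (L (nat_lit 17932954))
(L (nat_lit 30918698)))
(L (nat_lit 16347178))))
(S (nat_lit 20069) (S (nat_lit 19219) (S (nat_lit 26863) (L (nat_lit 28779107))
(L (nat_lit 16700740)))
(S (nat_lit 53057) (S (nat_lit 19764) (L (nat_lit 16052306))
(L (nat_lit 15769210)))
(L (nat_lit 16420714))))
(S (nat_lit 39833) (S (nat_lit 1) (S (nat_lit 46627) (S (nat_lit 36572) (S (nat_lit 42998) (S (nat_lit 4187) (L (nat_lit 16885651))
(L (nat_lit 26977453)))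
(L (nat_lit 14389466)))
(L (nat_lit 3939892)))
(L (nat_lit 17977161)))
(L (nat_lit 19674152)))
(L (nat_lit 25692907)))))
(S (nat_lit 33410) (S (nat_lit 2495) (S (nat_lit 37514) (L (nat_lit 23455854))
(L (nat_lit 20420426)))
(S (nat_lit 22259) (S (nat_lit 1191) (L (nat_lit 3951142))
(S (nat_lit 39833) (S (nat_lit 40281) (L (nat_lit 16475457))
(L (nat_lit 27903114)))
(L (nat_lit 3912522))))
(S (nat_lit 42023) (S (nat_lit 3671) (S (nat_lit 26356) (L (nat_lit 17435996))
(L (nat_lit 9195630)))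
(L (nat_lit 19669133)))
(L (nat_lit 25895425)))))
(S (nat_lit 53174) (S (nat_lit 5931) (L (nat_lit 11109262))
(S (nat_lit 43926) (S (nat_lit 35706) (L (nat_lit 9865013))
(S (nat_lit 39529) (S (nat_lit 13388) (S (nat_lit 41729) (S (nat_lit 2990) (L (nat_lit 29073892))
(L (nat_lit 19375877)))
(L (nat_lit 27888909)))
(L (nat_lit 26906090)))
(L (nat_lit 11390339))))
(L (nat_lit 11121408))))
(L (nat_lit 25480369)))))
(S (nat_lit 57780) (S (nat_lit 12179) (S (nat_lit 12215) (S (nat_lit 32225) (S (nat_lit 517) (S (nat_lit 44902) (L (nat_lit 680270))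
(L (nat_lit 3829222)))
(S (nat_lit 56636) (L (nat_lit 19335516))
(L (nat_lit 3859944))))
(S (nat_lit 51911) (S (nat_lit 20927) (L (nat_lit 18916112))
(L (nat_lit 3623753)))
(L (nat_lit 3359507))))
(S (nat_lit 54030) (L (nat_lit 3798505))
(L (nat_lit 26226165))))
(S (nat_lit 31943) (S (nat_lit 38907) (L (nat_lit 382460))
(S (nat_lit 51743) (S (nat_lit 5374) (S (nat_lit 52916) (S (nat_lit 57781) (L (nat_lit 1532179))
(L (nat_lit 27623923)))
(L (nat_lit 10635768)))
(L (nat_lit 11357669)))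
(L (nat_lit 2907625))))
(S (nat_lit 51707) (S (nat_lit 41000) (S (nat_lit 10695) (S (nat_lit 38017) (S (nat_lit 7853) (S (nat_lit 33161) (L (nat_lit 29402828))
(L (nat_lit 20875754)))
(L (nat_lit 11405811)))
(L (nat_lit 13720920)))
(L (nat_lit 5988688)))
(L (nat_lit 9359844)))
(L (nat_lit 25759054)))))
(L (nat_lit 25288168)))))
(L (nat_lit 25217451)))))
(L (nat_lit 25863214)))))
(L (nat_lit 25922954)))))

theorem rb178_1 : run 4 lb178 [] tb178_1 kb178 (P4 4 1809 4070 192 1809 0 0 1 0) [] = true := by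
  decide +kernel

noncomputable def tb246_0_19 : Tr :=
(S (nat_lit 1743) (S (nat_lit 25) (S (nat_lit 1958) (S (nat_lit 62) (S (nat_lit 997) (S (nat_lit 17527) (L (nat_lit 28941390))
(L (nat_lit 26942882)))
(L (nat_lit 19701285)))
(S (nat_lit 19826) (S (nat_lit 41293) (L (nat_lit 14687869))
(L (nat_lit 27795045)))
(S (nat_lit 39590) (S (nat_lit 30699) (S (nat_lit 19795) (L (nat_lit 4791740))
(L (nat_lit 3055093)))
(L (nat_lit 14490678)))
(L (nat_lit 25708901)))))
(S (nat_lit 21722) (S (nat_lit 2006) (S (nat_lit 1799) (S (nat_lit 11010) (S (nat_lit 21708) (L (nat_lit 26515149))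
(L (nat_lit 7752826)))
(L (nat_lit 7975032)))
(S (nat_lit 21479) (S (nat_lit 19826) (S (nat_lit 39559) (S (nat_lit 41293) (S (nat_lit 1986) (S (nat_lit 50463) (S (nat_lit 19839) (S (nat_lit 21739) (S (nat_lit 41472) (S (nat_lit 39575) (S (nat_lit 17889) (L (nat_lit 291409))
(S (nat_lit 20783) (S (nat_lit 1047) (S (nat_lit 18868) (L (nat_lit 15925851))
(S (nat_lit 35073) (S (nat_lit 37291) (L (nat_lit 29622707))
(L (nat_lit 31131144)))
(L (nat_lit 23556289))))
(L (nat_lit 2848234)))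
(S (nat_lit 41936) (L (nat_lit 4042997))
(L (nat_lit 377751)))))
(L (nat_lit 11310705)))
(L (nat_lit 6926461)))
(L (nat_lit 22811887)))
(L (nat_lit 15444060)))
(L (nat_lit 15342619)))
(L (nat_lit 26876940)))
(L (nat_lit 7045998)))
(L (nat_lit 24190862)))
(L (nat_lit 16483707)))
(L (nat_lit 434103))))
(S (nat_lit 21770) (S (nat_lit 332) (S (nat_lit 55783) (L (nat_lit 837964))
(L (nat_lit 244659)))
(S (nat_lit 21479) (S (nat_lit 4597) (L (nat_lit 22060602))
(S (nat_lit 19826) (S (nat_lit 39559) (S (nat_lit 50463) (S (nat_lit 1986) (S (nat_lit 41503) (S (nat_lit 41293) (S (nat_lit 1944) (S (nat_lit 39575) (S (nat_lit 19839) (S (nat_lit 15323) (S (nat_lit 21733) (L (nat_lit 488042))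
(L (nat_lit 15330311)))
(S (nat_lit 35087) (S (nat_lit 15351) (S (nat_lit 20800) (S (nat_lit 986) (S (nat_lit 8795) (L (nat_lit 3458650))
(L (nat_lit 21871812)))
(L (nat_lit 19032432)))
(L (nat_lit 549478)))
(L (nat_lit 864838)))
(S (nat_lit 54851) (L (nat_lit 7893107))
(L (nat_lit 25699013)))))
(L (nat_lit 21114330)))
(L (nat_lit 23990512)))
(L (nat_lit 20754537)))
(L (nat_lit 28016942)))
(L (nat_lit 6343132)))
(L (nat_lit 26876940)))
(L (nat_lit 15342651)))
(L (nat_lit 24190862)))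
(L (nat_lit 31136912))))
(L (nat_lit 5676983))))
(S (nat_lit 41534) (S (nat_lit 19742) (S (nat_lit 21063) (L (nat_lit 7752452))
(L (nat_lit 636680)))
(S (nat_lit 41304) (S (nat_lit 41293) (S (nat_lit 39559) (S (nat_lit 30746) (S (nat_lit 30741) (S (nat_lit 19839) (S (nat_lit 19828) (S (nat_lit 21479) (S (nat_lit 50463) (S (nat_lit 1732) (S (nat_lit 1986) (S (nat_lit 21708) (S (nat_lit 41547) (S (nat_lit 19826) (S (nat_lit 21733) (S (nat_lit 1748) (S (nat_lit 21465) (S (nat_lit 1975) (S (nat_lit 21195) (S (nat_lit 40953) (S (nat_lit 1624) (S (nat_lit 28512) (S (nat_lit 37302) (S (nat_lit 9585) (S (nat_lit 55473) (S (nat_lit 3747) (D (nat_lit 15) (nat_lit 9487186) (nat_lit 795154) (nat_lit 209584130080))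
(L (nat_lit 27899200)))
(L (nat_lit 15004224)))
(L (nat_lit 28031233)))
(L (nat_lit 13951616)))
(S (nat_lit 48276) (S (nat_lit 20783) (S (nat_lit 21010) (S (nat_lit 57665) (S (nat_lit 12327) (S (nat_lit 9897) (D (nat_lit 11) (nat_lit 30460422) (nat_lit 25759211) (nat_lit 137543025761))
(L (nat_lit 20474084)))
(L (nat_lit 31136195)))
(L (nat_lit 28974126)))
(L (nat_lit 31102411)))
(L (nat_lit 31114561)))
(L (nat_lit 25219527))))
(L (nat_lit 23111535)))
(L (nat_lit 21227629)))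
(S (nat_lit 37322) (S (nat_lit 8773) (S (nat_lit 1036) (S (nat_lit 21010) (S (nat_lit 37324) (S (nat_lit 35087) (S (nat_lit 51767) (S (nat_lit 17706) (S (nat_lit 10145) (S (nat_lit 49842) (S (nat_lit 4476) (S (nat_lit 47686) (S (nat_lit 3400) (D (nat_lit 13) (nat_lit 28532100) (nat_lit 19184387) (nat_lit 35708472424))
(L (nat_lit 31175904)))
(L (nat_lit 10310112)))
(L (nat_lit 27867207)))
(L (nat_lit 15609474)))
(L (nat_lit 29904194)))
(S (nat_lit 19299) (S (nat_lit 18888) (S (nat_lit 58847) (S (nat_lit 48135) (S (nat_lit 45499) (D (nat_lit 13) (nat_lit 30789091) (nat_lit 25767461) (nat_lit 3543519005896))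
(L (nat_lit 10309120)))
(L (nat_lit 28331399)))
(L (nat_lit 22951138)))
(L (nat_lit 30127331)))
(L (nat_lit 5550808))))
(L (nat_lit 28673708)))
(L (nat_lit 20858117)))
(L (nat_lit 2939368)))
(L (nat_lit 15060897)))
(L (nat_lit 19806528)))
(L (nat_lit 488786)))
(S (nat_lit 50450) (S (nat_lit 30638) (S (nat_lit 50436) (S (nat_lit 22349) (S (nat_lit 39440) (L (nat_lit 4436637))
(L (nat_lit 31146181)))
(S (nat_lit 37167) (S (nat_lit 54901) (S (nat_lit 40525) (S (nat_lit 56660) (S (nat_lit 20767) (S (nat_lit 51855) (S (nat_lit 12634) (S (nat_lit 1425) (S (nat_lit 43767) (S (nat_lit 5285) (S (nat_lit 3643) (D (nat_lit 13) (nat_lit 30657679) (nat_lit 12333637) (nat_lit 1205981152290))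
(L (nat_lit 30088273)))
(L (nat_lit 29415977)))
(S (nat_lit 53545) (S (nat_lit 28559) (S (nat_lit 58604) (D (nat_lit 11) (nat_lit 30723524) (nat_lit 25767429) (nat_lit 106438959144))
(L (nat_lit 28944558)))
(L (nat_lit 31014117)))
(L (nat_lit 290291))))
(L (nat_lit 30033091)))
(L (nat_lit 6484592)))
(L (nat_lit 7860833)))
(L (nat_lit 31099334)))
(L (nat_lit 30985442)))
(L (nat_lit 27903083)))
(L (nat_lit 19743938)))
(L (nat_lit 26662987))))
(L (nat_lit 10312224)))
(L (nat_lit 734027)))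
(L (nat_lit 9597516)))))
(L (nat_lit 5498511)))
(L (nat_lit 21280578)))
(L (nat_lit 19045169)))
(L (nat_lit 7965213)))
(L (nat_lit 21528953)))
(L (nat_lit 18111363)))
(L (nat_lit 7530930)))
(L (nat_lit 3841932)))
(L (nat_lit 12915387)))
(L (nat_lit 27827840)))
(L (nat_lit 597467)))
(L (nat_lit 21520578)))
(L (nat_lit 9115565)))
(L (nat_lit 9144732)))
(L (nat_lit 19424484)))
(L (nat_lit 24426274)))
(L (nat_lit 7074176)))
(L (nat_lit 6817467))))
(L (nat_lit 25895953)))))
(S (nat_lit 41486) (S (nat_lit 62) (S (nat_lit 10935) (S (nat_lit 5050) (L (nat_lit 20488001))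
(S (nat_lit 6517) (L (nat_lit 20488001))
(L (nat_lit 24976929))))
(L (nat_lit 18652214)))
(S (nat_lit 19826) (S (nat_lit 1019) (S (nat_lit 21479) (L (nat_lit 18947483))
(L (nat_lit 630704)))
(S (nat_lit 20783) (S (nat_lit 28543) (L (nat_lit 30514678))
(L (nat_lit 2498482)))
(S (nat_lit 40547) (S (nat_lit 41293) (L (nat_lit 15572576))
(L (nat_lit 24648860)))
(L (nat_lit 25346633)))))
(S (nat_lit 39590) (S (nat_lit 8810) (L (nat_lit 28941456))
(L (nat_lit 958127)))
(L (nat_lit 25309898)))))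
(L (nat_lit 25546896)))))
(S (nat_lit 19789) (S (nat_lit 1969) (S (nat_lit 1215) (S (nat_lit 10949) (S (nat_lit 1701) (S (nat_lit 75) (S (nat_lit 14) (L (nat_lit 6689650))
(L (nat_lit 13390117)))
(S (nat_lit 24295) (L (nat_lit 7115315))
(L (nat_lit 26564717))))
(L (nat_lit 10052685)))
(S (nat_lit 30713) (S (nat_lit 28559) (S (nat_lit 972) (L (nat_lit 29503699))
(L (nat_lit 14232324)))
(S (nat_lit 31559) (S (nat_lit 54851) (S (nat_lit 42433) (L (nat_lit 5023308))
(L (nat_lit 6476217)))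
(L (nat_lit 19834404)))
(L (nat_lit 10053125))))
(S (nat_lit 50477) (S (nat_lit 37322) (S (nat_lit 48276) (L (nat_lit 4485708))
(L (nat_lit 20154286)))
(S (nat_lit 43276) (L (nat_lit 14604549))
(L (nat_lit 31004844))))
(L (nat_lit 25666645)))))
(S (nat_lit 20979) (S (nat_lit 1290) (S (nat_lit 30713) (S (nat_lit 21043) (S (nat_lit 41276) (S (nat_lit 39603) (S (nat_lit 21540) (S (nat_lit 41229) (S (nat_lit 40785) (S (nat_lit 10960) (S (nat_lit 19806) (S (nat_lit 1726) (S (nat_lit 39542) (S (nat_lit 64) (S (nat_lit 2006) (S (nat_lit 1986) (S (nat_lit 21496) (S (nat_lit 50463) (S (nat_lit 10977) (S (nat_lit 40805) (S (nat_lit 1047) (S (nat_lit 20736) (S (nat_lit 35120) (S (nat_lit 54899) (S (nat_lit 15323) (S (nat_lit 35073) (S (nat_lit 15384) (S (nat_lit 20783) (S (nat_lit 17558) (S (nat_lit 48318) (S (nat_lit 37291) (S (nat_lit 21063) (S (nat_lit 25470) (S (nat_lit 58703) (S (nat_lit 32615) (S (nat_lit 2360) (D (nat_lit 13) (nat_lit 29951280)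 (nat_lit 19672613) (nat_lit 2202481494276))
(L (nat_lit 31043594)))
(L (nat_lit 28024846)))
(L (nat_lit 30024716)))
(L (nat_lit 23295461)))
(S (nat_lit 56996) (S (nat_lit 23836) (S (nat_lit 29582) (S (nat_lit 16661) (S (nat_lit 43790) (D (nat_lit 13) (nat_lit 26943633) (nat_lit 19670501) (nat_lit 76403474566))
(L (nat_lit 16668932)))
(L (nat_lit 27861504)))
(L (nat_lit 20852961)))
(L (nat_lit 27866337)))
(L (nat_lit 26482130))))
(L (nat_lit 9362851)))
(L (nat_lit 22284731)))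
(S (nat_lit 50178) (S (nat_lit 10882) (S (nat_lit 37344) (S (nat_lit 30428) (S (nat_lit 7664) (S (nat_lit 56918) (S (nat_lit 32875) (S (nat_lit 24236) (S (nat_lit 4491) (S (nat_lit 49379) (S (nat_lit 43589) (D (nat_lit 13) (nat_lit 27761781) (nat_lit 9194021) (nat_lit 7765573501956))
(L (nat_lit 22917472)))
(L (nat_lit 29078720)))
(L (nat_lit 29013185)))
(S (nat_lit 40357) (S (nat_lit 12826) (D (nat_lit 9) (nat_lit 25762865) (nat_lit 5842701) (nat_lit 145063216194))
(L (nat_lit 31016224)))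
(L (nat_lit 4841806))))
(L (nat_lit 27829826)))
(L (nat_lit 16604356)))
(L (nat_lit 18904521)))
(L (nat_lit 27853222)))
(L (nat_lit 19733921)))
(L (nat_lit 29964641)))
(S (nat_lit 54281) (S (nat_lit 18811) (S (nat_lit 38590) (S (nat_lit 57884) (S (nat_lit 48952) (S (nat_lit 41218) (S (nat_lit 41461) (S (nat_lit 30629) (D (nat_lit 13) (nat_lit 10237506) (nat_lit 10983186) (nat_lit 7977101820000))
(L (nat_lit 21192718)))
(L (nat_lit 26949825)))
(S (nat_lit 42416) (S (nat_lit 57099) (S (nat_lit 5494) (S (nat_lit 39176) (S (nat_lit 8863) (D (nat_lit 13) (nat_lit 27414799) (nat_lit 25767397) (nat_lit 6639220594690))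
(L (nat_lit 27676809)))
(L (nat_lit 27996416)))
(L (nat_lit 27997376)))
(L (nat_lit 27930881)))
(L (nat_lit 29923047))))
(L (nat_lit 18209635)))
(L (nat_lit 28839124)))
(L (nat_lit 28362374)))
(L (nat_lit 28592673)))
(L (nat_lit 26614932)))))
(L (nat_lit 21473153)))
(L (nat_lit 15616102)))
(L (nat_lit 20854822)))
(L (nat_lit 14904004)))
(L (nat_lit 19330372)))
(L (nat_lit 31044836)))
(L (nat_lit 31043908)))
(S (nat_lit 19345) (S (nat_lit 21563) (S (nat_lit 30350) (L (nat_lit 25340341))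
(L (nat_lit 26851683)))
(L (nat_lit 26851521)))
(L (nat_lit 11458733))))
(L (nat_lit 24669474)))
(L (nat_lit 21425472)))
(L (nat_lit 4411965)))
(L (nat_lit 15912280)))
(L (nat_lit 19120003)))
(L (nat_lit 19084317)))
(L (nat_lit 926287)))
(L (nat_lit 27868267)))
(L (nat_lit 2738058)))
(L (nat_lit 2597682)))
(L (nat_lit 6320530)))
(L (nat_lit 9496083)))
(L (nat_lit 8983468)))
(L (nat_lit 22546347)))
(L (nat_lit 11036755)))
(L (nat_lit 8415671)))
(L (nat_lit 30939317)))
(L (nat_lit 14486090)))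
(S (nat_lit 22847) (L (nat_lit 5644215))
(L (nat_lit 20017357))))
(S (nat_lit 40743) (S (nat_lit 972) (S (nat_lit 30923) (L (nat_lit 6689714))
(L (nat_lit 2939274)))
(S (nat_lit 20736) (S (nat_lit 12789) (L (nat_lit 15781209))
(S (nat_lit 50527) (S (nat_lit 20993) (S (nat_lit 1257) (S (nat_lit 39542) (S (nat_lit 40542) (S (nat_lit 168) (L (nat_lit 2791965))
(L (nat_lit 11077548)))
(L (nat_lit 24503405)))
(L (nat_lit 23490821)))
(L (nat_lit 13436210)))
(L (nat_lit 16381063)))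
(L (nat_lit 27665090))))
(S (nat_lit 40500) (S (nat_lit 8863) (S (nat_lit 21708) (L (nat_lit 19297635))
(L (nat_lit 8197740)))
(S (nat_lit 28543) (S (nat_lit 1726) (S (nat_lit 21708) (L (nat_lit 4594267))
(L (nat_lit 7762099)))
(L (nat_lit 2552554)))
(L (nat_lit 2511785))))
(L (nat_lit 25307539)))))
(L (nat_lit 25610410)))))
(S (nat_lit 21733) (S (nat_lit 1715) (S (nat_lit 2118) (S (nat_lit 54277) (L (nat_lit 19328138))
(L (nat_lit 421078)))
(S (nat_lit 41486) (S (nat_lit 31670) (L (nat_lit 7356213))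
(L (nat_lit 2727385)))
(L (nat_lit 446808))))
(S (nat_lit 21479) (S (nat_lit 1732) (S (nat_lit 17558) (S (nat_lit 8748) (L (nat_lit 29956239))
(L (nat_lit 826836)))
(S (nat_lit 45954) (S (nat_lit 17496) (L (nat_lit 16411688))
(L (nat_lit 827055)))
(L (nat_lit 597932))))
(S (nat_lit 21496) (S (nat_lit 36478) (L (nat_lit 13205723))
(S (nat_lit 40514) (S (nat_lit 17538) (L (nat_lit 16666793))
(L (nat_lit 7989423)))
(L (nat_lit 27656871))))
(S (nat_lit 41260) (S (nat_lit 1003) (S (nat_lit 8823) (S (nat_lit 17571) (L (nat_lit 8995865))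
(L (nat_lit 16389400)))
(L (nat_lit 21468440)))
(S (nat_lit 49668) (L (nat_lit 13521089))
(L (nat_lit 19260590))))
(L (nat_lit 25496021)))))
(S (nat_lit 41243) (S (nat_lit 986) (S (nat_lit 16487) (L (nat_lit 9258002))
(S (nat_lit 21004) (S (nat_lit 37322) (L (nat_lit 29065454))
(L (nat_lit 31014244)))
(L (nat_lit 31031535))))
(S (nat_lit 20750) (S (nat_lit 8795) (L (nat_lit 17392809))
(L (nat_lit 7755525)))
(S (nat_lit 40514) (S (nat_lit 39570) (S (nat_lit 1014) (S (nat_lit 39590) (L (nat_lit 20316538))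
(L (nat_lit 24911396)))
(L (nat_lit 10501848)))
(S (nat_lit 47421) (L (nat_lit 18988970))
(L (nat_lit 23589217))))
(L (nat_lit 25499094)))))
(L (nat_lit 25613633)))))
(S (nat_lit 41497) (S (nat_lit 1290) (S (nat_lit 15323) (S (nat_lit 41293) (S (nat_lit 20750) (S (nat_lit 21026) (S (nat_lit 39603) (S (nat_lit 20979) (L (nat_lit 15569482))
(L (nat_lit 6908293)))
(L (nat_lit 24920352)))
(L (nat_lit 7101826)))
(L (nat_lit 30999015)))
(L (nat_lit 24314268)))
(S (nat_lit 35087) (S (nat_lit 41276) (S (nat_lit 8823) (S (nat_lit 17571) (L (nat_lit 18781928))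
(L (nat_lit 7221857)))
(L (nat_lit 7228801)))
(L (nat_lit 9324097)))
(S (nat_lit 54851) (S (nat_lit 8812) (S (nat_lit 20783) (S (nat_lit 57055) (L (nat_lit 11616050))
(L (nat_lit 27999337)))
(L (nat_lit 30907969)))
(S (nat_lit 28576) (S (nat_lit 37291) (S (nat_lit 997) (L (nat_lit 5676979))
(L (nat_lit 9193157)))
(L (nat_lit 9356899)))
(S (nat_lit 48340) (S (nat_lit 1047) (S (nat_lit 1215) (S (nat_lit 10977) (L (nat_lit 28705352))
(L (nat_lit 6375833)))
(L (nat_lit 19293443)))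
(L (nat_lit 19842056)))
(L (nat_lit 25667267)))))
(L (nat_lit 25626900)))))
(S (nat_lit 21054) (S (nat_lit 1277) (S (nat_lit 2166) (L (nat_lit 30706195))
(S (nat_lit 35087) (S (nat_lit 2006) (S (nat_lit 40564) (L (nat_lit 26223156))
(L (nat_lit 10015648)))
(L (nat_lit 19161634)))
(L (nat_lit 2313785))))
(S (nat_lit 21041) (S (nat_lit 48276) (L (nat_lit 30999079))
(L (nat_lit 13638516)))
(S (nat_lit 40805) (S (nat_lit 16763) (S (nat_lit 16942) (L (nat_lit 6306426))
(L (nat_lit 7080652)))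
(S (nat_lit 37291) (S (nat_lit 35104) (S (nat_lit 997) (L (nat_lit 28712514))
(L (nat_lit 14425204)))
(L (nat_lit 30514739)))
(L (nat_lit 3055213))))
(L (nat_lit 25407510)))))
(S (nat_lit 40818) (S (nat_lit 1047) (S (nat_lit 57024) (L (nat_lit 7799666))
(L (nat_lit 12780285)))
(S (nat_lit 20811) (S (nat_lit 37260) (L (nat_lit 20218361))
(L (nat_lit 17538881)))
(S (nat_lit 40575) (S (nat_lit 41293) (S (nat_lit 41254) (L (nat_lit 26287603))
(L (nat_lit 27346196)))
(L (nat_lit 18586777)))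
(L (nat_lit 25745762)))))
(L (nat_lit 25936229)))))
(L (nat_lit 25273038)))))
(S (nat_lit 39553) (S (nat_lit 1944) (S (nat_lit 1991) (S (nat_lit 997) (S (nat_lit 21733) (S (nat_lit 75) (S (nat_lit 57055) (L (nat_lit 7131245))
(L (nat_lit 19798125)))
(L (nat_lit 14592115)))
(S (nat_lit 51338) (L (nat_lit 2501559))
(L (nat_lit 4823608))))
(S (nat_lit 20761) (S (nat_lit 11879) (L (nat_lit 5860657))
(S (nat_lit 28574) (S (nat_lit 19826) (S (nat_lit 28543) (L (nat_lit 6917531))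
(L (nat_lit 2694557)))
(L (nat_lit 21798437)))
(L (nat_lit 13475428))))
(S (nat_lit 40525) (S (nat_lit 972) (S (nat_lit 30763) (S (nat_lit 28576) (S (nat_lit 37324) (L (nat_lit 3567859))
(L (nat_lit 14453481)))
(L (nat_lit 19696137)))
(L (nat_lit 19768867)))
(S (nat_lit 31333) (L (nat_lit 1886577))
(L (nat_lit 12673608))))
(L (nat_lit 25431791)))))
(S (nat_lit 21755) (S (nat_lit 30724) (S (nat_lit 50505) (S (nat_lit 39592) (S (nat_lit 19811) (S (nat_lit 42) (S (nat_lit 50538) (S (nat_lit 21527) (S (nat_lit 1986) (S (nat_lit 10949) (S (nat_lit 41254) (S (nat_lit 2019) (S (nat_lit 21722) (S (nat_lit 19826) (S (nat_lit 41503) (S (nat_lit 21770) (S (nat_lit 21512) (S (nat_lit 30763) (S (nat_lit 10982) (S (nat_lit 19778) (S (nat_lit 9683) (S (nat_lit 9641) (S (nat_lit 9716) (S (nat_lit 15371) (S (nat_lit 17560) (L (nat_lit 7485083))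
(L (nat_lit 16701634)))
(S (nat_lit 54899) (S (nat_lit 47445) (S (nat_lit 20750) (S (nat_lit 21026) (S (nat_lit 7403) (S (nat_lit 53132) (S (nat_lit 49683) (S (nat_lit 15676) (S (nat_lit 12557) (S (nat_lit 37260) (D (nat_lit 11) (nat_lit 30820581) (nat_lit 25628018) (nat_lit 106473554112))
(L (nat_lit 30971927)))
(L (nat_lit 31144968)))
(S (nat_lit 37322) (S (nat_lit 4724) (S (nat_lit 4967) (D (nat_lit 11) (nat_lit 9199077) (nat_lit 3946059) (nat_lit 175019918406))
(L (nat_lit 28913986)))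
(L (nat_lit 28913987)))
(L (nat_lit 8782491))))
(L (nat_lit 19202864)))
(L (nat_lit 20459394)))
(L (nat_lit 28913860)))
(L (nat_lit 31073696)))
(L (nat_lit 30692833)))
(L (nat_lit 873003)))
(L (nat_lit 25494002))))
(L (nat_lit 22520956)))
(L (nat_lit 22036764)))
(S (nat_lit 34293) (S (nat_lit 14788) (S (nat_lit 54104) (S (nat_lit 27178) (S (nat_lit 17571) (S (nat_lit 13246) (L (nat_lit 23240216))
(L (nat_lit 16600387)))
(L (nat_lit 18761984)))
(S (nat_lit 28963) (S (nat_lit 18349) (S (nat_lit 40768) (S (nat_lit 1047) (S (nat_lit 9197) (S (nat_lit 9155) (S (nat_lit 46215) (S (nat_lit 16162) (S (nat_lit 31117) (S (nat_lit 55436) (S (nat_lit 37302) (D (nat_lit 9) (nat_lit 8280176) (nat_lit 6048109) (nat_lit 137606996198))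
(L (nat_lit 31044929)))
(L (nat_lit 29034025)))
(L (nat_lit 21492776)))
(S (nat_lit 25678) (S (nat_lit 24949) (D (nat_lit 11) (nat_lit 12341762) (nat_lit 19674469) (nat_lit 107408951554))
(L (nat_lit 24001795)))
(L (nat_lit 7163363))))
(L (nat_lit 31173773)))
(L (nat_lit 31144129)))
(L (nat_lit 13641619)))
(L (nat_lit 13523300)))
(L (nat_lit 27711780)))
(L (nat_lit 23970019)))
(L (nat_lit 6204951))))
(L (nat_lit 23860561)))
(L (nat_lit 21460322)))
(S (nat_lit 48323) (S (nat_lit 54884) (S (nat_lit 35148) (S (nat_lit 54851) (S (nat_lit 1014) (S (nat_lit 972) (S (nat_lit 37291) (S (nat_lit 37324) (S (nat_lit 855) (S (nat_lit 32137) (S (nat_lit 37969) (S (nat_lit 20213) (S (nat_lit 15634) (D (nat_lit 9) (nat_lit 27925923) (nat_lit 25479587) (nat_lit 5575384104))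
(L (nat_lit 28530181)))
(L (nat_lit 19834370)))
(L (nat_lit 16635170)))
(L (nat_lit 16634114)))
(S (nat_lit 17945) (S (nat_lit 10330) (S (nat_lit 18221) (S (nat_lit 50688) (S (nat_lit 50931) (S (nat_lit 23358) (D (nat_lit 11) (nat_lit 25767975) (nat_lit 14436459) (nat_lit 42049077504))
(L (nat_lit 19826059)))
(L (nat_lit 19276643)))
(L (nat_lit 19276642)))
(L (nat_lit 31011074)))
(L (nat_lit 28913922)))
(L (nat_lit 21839914))))
(L (nat_lit 31014920)))
(L (nat_lit 30528936)))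
(L (nat_lit 13183129)))
(L (nat_lit 13249593)))
(L (nat_lit 19833220)))
(L (nat_lit 20278382)))
(L (nat_lit 19150692)))
(L (nat_lit 22145261)))))
(L (nat_lit 22886506)))
(L (nat_lit 21867044)))
(L (nat_lit 9276109)))
(L (nat_lit 22251345)))
(L (nat_lit 21804040)))
(L (nat_lit 23901505)))
(L (nat_lit 21856811)))
(L (nat_lit 11091712)))
(L (nat_lit 12256076)))
(L (nat_lit 8783580)))
(L (nat_lit 7014845)))
(L (nat_lit 5499410)))
(L (nat_lit 11324931)))
(L (nat_lit 13456486)))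
(L (nat_lit 13266086)))
(L (nat_lit 30675569)))
(L (nat_lit 24918210)))
(L (nat_lit 27855217)))
(L (nat_lit 2319981)))
(S (nat_lit 41519) (S (nat_lit 1279) (S (nat_lit 972) (S (nat_lit 19811) (S (nat_lit 28543) (L (nat_lit 28594565))
(L (nat_lit 18122328)))
(S (nat_lit 25052) (L (nat_lit 5554103))
(L (nat_lit 8478137))))
(S (nat_lit 10319) (L (nat_lit 19172173))
(L (nat_lit 12935748))))
(S (nat_lit 21043) (S (nat_lit 8472) (L (nat_lit 6754907))
(S (nat_lit 41276) (S (nat_lit 39542) (S (nat_lit 17527) (L (nat_lit 12303483))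
(L (nat_lit 25002285)))
(L (nat_lit 27508388)))
(L (nat_lit 3393112))))
(S (nat_lit 40807) (S (nat_lit 972) (S (nat_lit 28543) (S (nat_lit 37291) (L (nat_lit 12485197))
(L (nat_lit 2826157)))
(L (nat_lit 2662322)))
(S (nat_lit 40339) (L (nat_lit 13897306))
(L (nat_lit 20064665))))
(L (nat_lit 25465236)))))
(L (nat_lit 25516450)))))
(S (nat_lit 21708) (S (nat_lit 1036) (S (nat_lit 1986) (S (nat_lit 50477) (S (nat_lit 40757) (S (nat_lit 48307) (L (nat_lit 28589795))
(L (nat_lit 4792204)))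
(L (nat_lit 24230695)))
(L (nat_lit 4941100)))
(S (nat_lit 21750) (S (nat_lit 41486) (S (nat_lit 1290) (L (nat_lit 29466190))
(L (nat_lit 19831948)))
(L (nat_lit 24493208)))
(S (nat_lit 41514) (S (nat_lit 40531) (S (nat_lit 986) (S (nat_lit 19828) (S (nat_lit 15309) (L (nat_lit 3841836))
(L (nat_lit 760590)))
(L (nat_lit 9294211)))
(L (nat_lit 20349769)))
(L (nat_lit 18747764)))
(L (nat_lit 25855245)))))
(S (nat_lit 20800) (S (nat_lit 1765) (S (nat_lit 1279) (S (nat_lit 50505) (L (nat_lit 13533798))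
(L (nat_lit 27380079)))
(S (nat_lit 38130) (L (nat_lit 26492023))
(L (nat_lit 26465665))))
(S (nat_lit 21529) (S (nat_lit 700) (L (nat_lit 18481528))
(S (nat_lit 39559) (L (nat_lit 18652211))
(L (nat_lit 17040277))))
(S (nat_lit 41293) (S (nat_lit 1986) (S (nat_lit 1975) (S (nat_lit 986) (S (nat_lit 21479) (S (nat_lit 75) (S (nat_lit 50463) (S (nat_lit 39559) (S (nat_lit 21041) (S (nat_lit 57066) (L (nat_lit 6203927))
(L (nat_lit 19427681)))
(S (nat_lit 50099) (L (nat_lit 5621402))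
(L (nat_lit 21539618))))
(L (nat_lit 5033449)))
(L (nat_lit 20414685)))
(L (nat_lit 13981817)))
(L (nat_lit 7739065)))
(L (nat_lit 20316540)))
(L (nat_lit 26684565)))
(S (nat_lit 28218) (L (nat_lit 26726597))
(L (nat_lit 3625899))))
(L (nat_lit 25730132)))))
(S (nat_lit 40564) (S (nat_lit 15334) (S (nat_lit 20993) (S (nat_lit 39592) (S (nat_lit 21026) (S (nat_lit 41503) (S (nat_lit 35148) (L (nat_lit 12818293))
(L (nat_lit 23402414)))
(L (nat_lit 23893231)))
(L (nat_lit 1268121)))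
(L (nat_lit 23936195)))
(S (nat_lit 45038) (L (nat_lit 1752344))
(L (nat_lit 22364066))))
(S (nat_lit 35098) (S (nat_lit 4103) (L (nat_lit 3784614))
(S (nat_lit 17527) (S (nat_lit 10982) (L (nat_lit 28847220))
(L (nat_lit 7148172)))
(L (nat_lit 7167085))))
(S (nat_lit 54862) (S (nat_lit 23805) (L (nat_lit 23377084))
(S (nat_lit 41293) (S (nat_lit 48318) (L (nat_lit 23178685))
(L (nat_lit 11268512)))
(L (nat_lit 1261148))))
(L (nat_lit 25181832)))))
(L (nat_lit 25734228)))))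
(S (nat_lit 41472) (S (nat_lit 1726) (S (nat_lit 986) (S (nat_lit 15340) (S (nat_lit 20979) (S (nat_lit 28559) (L (nat_lit 31001900))
(L (nat_lit 8803387)))
(L (nat_lit 1649052)))
(S (nat_lit 57479) (L (nat_lit 24314766))
(L (nat_lit 26509932))))
(S (nat_lit 20750) (S (nat_lit 12629) (L (nat_lit 5647996))
(S (nat_lit 37322) (L (nat_lit 10032569))
(L (nat_lit 30594412))))
(S (nat_lit 40514) (S (nat_lit 20736) (S (nat_lit 21465) (S (nat_lit 39570) (S (nat_lit 35115) (S (nat_lit 35098) (L (nat_lit 13436243))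
(L (nat_lit 18605411)))
(L (nat_lit 23857518)))
(L (nat_lit 4878854)))
(L (nat_lit 7991437)))
(S (nat_lit 39385) (L (nat_lit 5658473))
(L (nat_lit 633244))))
(L (nat_lit 25514001)))))
(S (nat_lit 21490) (S (nat_lit 972) (S (nat_lit 1215) (S (nat_lit 1257) (L (nat_lit 8980300))
(L (nat_lit 5619634)))
(L (nat_lit 26847340)))
(S (nat_lit 20736) (S (nat_lit 54899) (S (nat_lit 40757) (S (nat_lit 41304) (L (nat_lit 27638963))
(L (nat_lit 18635947)))
(L (nat_lit 23466200)))
(L (nat_lit 19307333)))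
(S (nat_lit 40500) (S (nat_lit 38182) (L (nat_lit 2552455))
(S (nat_lit 40757) (S (nat_lit 41293) (L (nat_lit 16816765))
(L (nat_lit 23865733)))
(L (nat_lit 18452696))))
(L (nat_lit 25567379)))))
(S (nat_lit 41254) (S (nat_lit 1958) (S (nat_lit 30763) (S (nat_lit 50538) (S (nat_lit 41514) (S (nat_lit 1701) (L (nat_lit 31130926))
(L (nat_lit 13197385)))
(L (nat_lit 27401965)))
(L (nat_lit 27896224)))
(L (nat_lit 19768368)))
(S (nat_lit 21722) (S (nat_lit 21479) (S (nat_lit 40768) (S (nat_lit 41497) (S (nat_lit 43542) (L (nat_lit 22839784))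
(L (nat_lit 3564105)))
(L (nat_lit 6711316)))
(L (nat_lit 23355905)))
(L (nat_lit 447400)))
(S (nat_lit 41486) (S (nat_lit 40757) (S (nat_lit 35115) (L (nat_lit 7991469))
(L (nat_lit 20340871)))
(L (nat_lit 18011015)))
(L (nat_lit 25271984)))))
(L (nat_lit 25595594)))))
(L (nat_lit 25341330)))))
(L (nat_lit 25799823)))))
(S (nat_lit 21507) (S (nat_lit 15334) (S (nat_lit 1229) (S (nat_lit 1047) (S (nat_lit 5500) (L (nat_lit 17833779))
(S (nat_lit 20783) (S (nat_lit 19826) (S (nat_lit 40785) (S (nat_lit 21043) (S (nat_lit 1986) (S (nat_lit 50463) (S (nat_lit 39559) (S (nat_lit 40525) (S (nat_lit 35148) (S (nat_lit 1765) (S (nat_lit 54884) (S (nat_lit 17496) (S (nat_lit 21540) (S (nat_lit 21770) (S (nat_lit 37322) (S (nat_lit 51542) (S (nat_lit 19811) (S (nat_lit 56481) (S (nat_lit 40743) (S (nat_lit 17249) (S (nat_lit 32007) (S (nat_lit 30569) (S (nat_lit 14788) (S (nat_lit 18382) (S (nat_lit 19193) (S (nat_lit 39200) (S (nat_lit 50101) (S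 (nat_lit 44744) (D (nat_lit 13) (nat_lit 12968549) (nat_lit 6048081) (nat_lit 8802806235396))
(L (nat_lit 28982625)))
(L (nat_lit 28902823)))
(L (nat_lit 16633894)))
(L (nat_lit 31007237)))
(L (nat_lit 28911107)))
(L (nat_lit 31047971)))
(S (nat_lit 33838) (S (nat_lit 45716) (S (nat_lit 10370) (D (nat_lit 15) (nat_lit 31064459) (nat_lit 25759053) (nat_lit 105467974817))
(L (nat_lit 30462472)))
(L (nat_lit 29015360)))
(L (nat_lit 9007648))))
(L (nat_lit 29038639)))
(L (nat_lit 29956271)))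
(L (nat_lit 24032424)))
(L (nat_lit 24032452)))
(L (nat_lit 16411659)))
(L (nat_lit 28974528)))
(L (nat_lit 10108708)))
(L (nat_lit 31142982)))
(L (nat_lit 31163881)))
(S (nat_lit 37260) (S (nat_lit 20750) (S (nat_lit 41276) (S (nat_lit 57086) (S (nat_lit 41503) (S (nat_lit 1944) (S (nat_lit 54899) (S (nat_lit 34225) (S (nat_lit 21755) (S (nat_lit 41355) (S (nat_lit 34810) (S (nat_lit 18382) (S (nat_lit 34326) (S (nat_lit 18609) (S (nat_lit 30874) (S (nat_lit 21185) (D (nat_lit 13) (nat_lit 27931786) (nat_lit 25761159) (nat_lit 6808699736327))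
(L (nat_lit 27932840)))
(L (nat_lit 27935008)))
(L (nat_lit 27855242)))
(L (nat_lit 27860385)))
(L (nat_lit 27865283)))
(L (nat_lit 27865281)))
(S (nat_lit 52372) (S (nat_lit 10412) (S (nat_lit 52387) (S (nat_lit 20679) (S (nat_lit 19533) (D (nat_lit 13) (nat_lit 29677093) (nat_lit 19371384) (nat_lit 2339920611336))
(L (nat_lit 28429737)))
(L (nat_lit 19295460)))
(L (nat_lit 19295425)))
(L (nat_lit 31011012)))
(L (nat_lit 18914221))))
(L (nat_lit 15361378)))
(L (nat_lit 17510180)))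
(L (nat_lit 14013626)))
(L (nat_lit 19273080)))
(L (nat_lit 27962415)))
(L (nat_lit 19021146)))
(L (nat_lit 18507910)))
(L (nat_lit 31047009)))
(S (nat_lit 57024) (S (nat_lit 40564) (S (nat_lit 50505) (S (nat_lit 1944) (S (nat_lit 1726) (S (nat_lit 28554) (S (nat_lit 25782) (S (nat_lit 3509) (S (nat_lit 19811) (S (nat_lit 21755) (S (nat_lit 22903) (S (nat_lit 17394) (S (nat_lit 52339) (S (nat_lit 29139) (D (nat_lit 11) (nat_lit 30049798) (nat_lit 314128) (nat_lit 206227840257))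
(L (nat_lit 29014341)))
(L (nat_lit 17737874)))
(L (nat_lit 28981509)))
(S (nat_lit 44238) (S (nat_lit 21657) (S (nat_lit 29597) (S (nat_lit 18654) (S (nat_lit 50688) (D (nat_lit 13) (nat_lit 28912781) (nat_lit 18990857) (nat_lit 1345601012834))
(L (nat_lit 19276642)))
(L (nat_lit 30755202)))
(L (nat_lit 28909955)))
(L (nat_lit 19838275)))
(L (nat_lit 20443174))))
(L (nat_lit 15653032)))
(L (nat_lit 15653060)))
(L (nat_lit 28936681)))
(L (nat_lit 29984137)))
(L (nat_lit 19187552)))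
(L (nat_lit 5004810)))
(L (nat_lit 10227309)))
(L (nat_lit 27543936)))
(L (nat_lit 23314336)))
(L (nat_lit 25730071)))))
(L (nat_lit 12116018)))
(L (nat_lit 20506976)))
(L (nat_lit 20065692)))
(L (nat_lit 27592430)))
(L (nat_lit 24603906)))
(L (nat_lit 22218301)))
(L (nat_lit 10290706)))
(L (nat_lit 7112303)))
(L (nat_lit 17598186)))
(L (nat_lit 21143345)))
(L (nat_lit 6751867))))
(S (nat_lit 20811) (S (nat_lit 8773) (S (nat_lit 15371) (S (nat_lit 40818) (L (nat_lit 23603389))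
(L (nat_lit 23862412)))
(L (nat_lit 22519716)))
(S (nat_lit 28537) (S (nat_lit 15371) (S (nat_lit 42) (S (nat_lit 57086) (L (nat_lit 28687474))
(L (nat_lit 21773669)))
(L (nat_lit 26885472)))
(L (nat_lit 26641778)))
(S (nat_lit 48301) (S (nat_lit 20750) (S (nat_lit 40818) (S (nat_lit 21540) (L (nat_lit 29072556))
(L (nat_lit 781801)))
(L (nat_lit 549512)))
(L (nat_lit 867703)))
(L (nat_lit 25700498)))))
(S (nat_lit 40575) (S (nat_lit 1975) (S (nat_lit 15186) (L (nat_lit 24437902))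
(S (nat_lit 40564) (S (nat_lit 39592) (S (nat_lit 1765) (S (nat_lit 8810) (L (nat_lit 30055812))
(L (nat_lit 6980525)))
(L (nat_lit 26749077)))
(L (nat_lit 18011048)))
(L (nat_lit 1785707))))
(S (nat_lit 21739) (S (nat_lit 21750) (S (nat_lit 40564) (S (nat_lit 39590) (S (nat_lit 21496) (S (nat_lit 17560) (L (nat_lit 29928629))
(L (nat_lit 24472035)))
(L (nat_lit 7803829)))
(L (nat_lit 23409818)))
(L (nat_lit 23313564)))
(S (nat_lit 52337) (L (nat_lit 7866293))
(L (nat_lit 1711980))))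
(S (nat_lit 41503) (S (nat_lit 40564) (S (nat_lit 41534) (S (nat_lit 39592) (S (nat_lit 30724) (S (nat_lit 28559) (L (nat_lit 24549403))
(L (nat_lit 17913081)))
(L (nat_lit 25046403)))
(L (nat_lit 17649891)))
(L (nat_lit 24704258)))
(L (nat_lit 23379100)))
(L (nat_lit 25211220)))))
(L (nat_lit 25746600)))))
(S (nat_lit 20993) (S (nat_lit 1726) (S (nat_lit 1732) (S (nat_lit 42) (S (nat_lit 1986) (S (nat_lit 39592) (S (nat_lit 11384) (L (nat_lit 17663189))
(L (nat_lit 12138401)))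
(L (nat_lit 24918210)))
(L (nat_lit 13672371)))
(L (nat_lit 19185568)))
(S (nat_lit 21496) (S (nat_lit 54899) (S (nat_lit 15309) (L (nat_lit 18450183))
(L (nat_lit 7079381)))
(L (nat_lit 19661291)))
(S (nat_lit 41260) (S (nat_lit 2155) (L (nat_lit 6963353))
(S (nat_lit 41503) (S (nat_lit 19826) (L (nat_lit 6709364))
(L (nat_lit 21333561)))
(L (nat_lit 6780545))))
(L (nat_lit 25830880)))))
(S (nat_lit 21490) (S (nat_lit 2019) (S (nat_lit 8795) (S (nat_lit 10935) (L (nat_lit 14799657))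
(L (nat_lit 1298937)))
(L (nat_lit 6373139)))
(S (nat_lit 21783) (S (nat_lit 21722) (S (nat_lit 41243) (L (nat_lit 10028509))
(L (nat_lit 7262659)))
(L (nat_lit 30803286)))
(S (nat_lit 41547) (S (nat_lit 20783) (S (nat_lit 17558) (L (nat_lit 30873747))
(L (nat_lit 924302)))
(L (nat_lit 30606929)))
(L (nat_lit 25713801)))))
(S (nat_lit 41254) (S (nat_lit 10999) (S (nat_lit 14) (S (nat_lit 15309) (S (nat_lit 41547) (S (nat_lit 20979) (S (nat_lit 21512) (S (nat_lit 41534) (S (nat_lit 11010) (S (nat_lit 21722) (S (nat_lit 39575) (S (nat_lit 54290) (L (nat_lit 17469756))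
(L (nat_lit 30051750)))
(L (nat_lit 23381924)))
(L (nat_lit 15304027)))
(L (nat_lit 637798)))
(L (nat_lit 6385361)))
(L (nat_lit 22807920)))
(L (nat_lit 21375813)))
(L (nat_lit 7101891)))
(L (nat_lit 1751256)))
(L (nat_lit 6345584)))
(S (nat_lit 30763) (S (nat_lit 15340) (S (nat_lit 36482) (L (nat_lit 17400745))
(S (nat_lit 40807) (S (nat_lit 20783) (S (nat_lit 54884) (S (nat_lit 8748) (L (nat_lit 18777330))
(L (nat_lit 23862784)))
(L (nat_lit 11653997)))
(L (nat_lit 30606929)))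
(L (nat_lit 16872038))))
(L (nat_lit 7758530)))
(S (nat_lit 50527) (S (nat_lit 8762) (S (nat_lit 40542) (L (nat_lit 12800866))
(L (nat_lit 16784146)))
(S (nat_lit 24100) (L (nat_lit 9187383))
(L (nat_lit 7080685))))
(L (nat_lit 25568311)))))
(L (nat_lit 25757223)))))
(S (nat_lit 40757) (S (nat_lit 1034) (S (nat_lit 1715) (S (nat_lit 17571) (L (nat_lit 6738104))
(L (nat_lit 971174)))
(S (nat_lit 21479) (S (nat_lit 17521) (L (nat_lit 24274160))
(L (nat_lit 26726569)))
(S (nat_lit 41243) (S (nat_lit 3738) (S (nat_lit 40542) (S (nat_lit 42669) (L (nat_lit 6743684))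
(L (nat_lit 18572610)))
(L (nat_lit 27480108)))
(S (nat_lit 40564) (S (nat_lit 1748) (S (nat_lit 19826) (S (nat_lit 35087) (S (nat_lit 20750) (S (nat_lit 56711) (L (nat_lit 28486066))
(L (nat_lit 8119405)))
(L (nat_lit 596913)))
(L (nat_lit 12842692)))
(L (nat_lit 9291920)))
(L (nat_lit 13862492)))
(L (nat_lit 8147328))))
(L (nat_lit 25245943)))))
(S (nat_lit 20798) (S (nat_lit 40466) (S (nat_lit 41243) (L (nat_lit 15981688))
(L (nat_lit 7196848)))
(S (nat_lit 40790) (S (nat_lit 40461) (L (nat_lit 5461434))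
(S (nat_lit 40785) (S (nat_lit 40818) (S (nat_lit 42) (S (nat_lit 20783) (S (nat_lit 21529) (S (nat_lit 41497) (S (nat_lit 15373) (S (nat_lit 17538) (L (nat_lit 17934099))
(L (nat_lit 1956177)))
(L (nat_lit 1717033)))
(L (nat_lit 27859457)))
(L (nat_lit 30449231)))
(L (nat_lit 21929040)))
(L (nat_lit 8246444)))
(L (nat_lit 27270828)))
(L (nat_lit 924396))))
(L (nat_lit 662938))))
(S (nat_lit 40562) (S (nat_lit 8823) (S (nat_lit 40564) (S (nat_lit 17496) (S (nat_lit 41243) (L (nat_lit 1940048))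
(L (nat_lit 7257271)))
(L (nat_lit 7093920)))
(L (nat_lit 23870784)))
(S (nat_lit 28587) (S (nat_lit 35148) (S (nat_lit 41291) (L (nat_lit 28327496))
(L (nat_lit 17568486)))
(L (nat_lit 8993916)))
(S (nat_lit 48351) (S (nat_lit 37260) (L (nat_lit 8993948))
(L (nat_lit 2309973)))
(L (nat_lit 25800064)))))
(L (nat_lit 25218599)))))
(L (nat_lit 25579657)))))
(S (nat_lit 35098) (S (nat_lit 17538) (S (nat_lit 25) (S (nat_lit 62) (S (nat_lit 15340) (S (nat_lit 10935) (S (nat_lit 41547) (S (nat_lit 39570) (L (nat_lit 19362116))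
(L (nat_lit 17458342)))
(L (nat_lit 7101923)))
(L (nat_lit 1711672)))
(S (nat_lit 16150) (L (nat_lit 18000819))
(L (nat_lit 6382131))))
(S (nat_lit 19826) (S (nat_lit 49880) (L (nat_lit 2891436))
(S (nat_lit 54899) (S (nat_lit 21708) (S (nat_lit 30741) (S (nat_lit 48301) (S (nat_lit 37285) (S (nat_lit 41534) (S (nat_lit 41254) (S (nat_lit 50477) (S (nat_lit 39570) (S (nat_lit 40818) (S (nat_lit 57086) (S (nat_lit 1991) (S (nat_lit 41243) (S (nat_lit 48290) (S (nat_lit 57099) (S (nat_lit 33522) (S (nat_lit 54912) (S (nat_lit 21496) (S (nat_lit 9475) (S (nat_lit 56660) (S (nat_lit 58118) (D (nat_lit 11) (nat_lit 28793124) (nat_lit 19670128) (nat_lit 35606536296))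
(L (nat_lit 28947648)))
(L (nat_lit 28946658)))
(S (nat_lit 12073) (S (nat_lit 29457) (S (nat_lit 32373) (S (nat_lit 17872) (D (nat_lit 11) (nat_lit 27644289) (nat_lit 25767022) (nat_lit 212877905988))
(L (nat_lit 27900009)))
(L (nat_lit 21858859)))
(L (nat_lit 21858826)))
(L (nat_lit 30738871))))
(L (nat_lit 30887232)))
(L (nat_lit 16107645)))
(L (nat_lit 2644314)))
(L (nat_lit 27595377)))
(L (nat_lit 13660907)))
(L (nat_lit 24211912)))
(L (nat_lit 26696034)))
(L (nat_lit 27657556)))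
(L (nat_lit 27794483)))
(L (nat_lit 17698163)))
(L (nat_lit 19937162)))
(L (nat_lit 1366588)))
(L (nat_lit 7090914)))
(L (nat_lit 19981680)))
(L (nat_lit 22276241)))
(L (nat_lit 2880879)))
(L (nat_lit 1685385)))
(L (nat_lit 11960984))))
(S (nat_lit 39590) (S (nat_lit 41276) (S (nat_lit 40542) (L (nat_lit 6836378))
(L (nat_lit 27269868)))
(L (nat_lit 18744695)))
(L (nat_lit 25696406)))))
(S (nat_lit 19789) (S (nat_lit 11010) (S (nat_lit 40500) (S (nat_lit 41243) (S (nat_lit 39575) (L (nat_lit 1681978))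
(L (nat_lit 27339345)))
(L (nat_lit 1452854)))
(L (nat_lit 7770995)))
(S (nat_lit 30774) (S (nat_lit 54879) (S (nat_lit 28554) (S (nat_lit 37291) (L (nat_lit 9527733))
(L (nat_lit 2645769)))
(L (nat_lit 8970849)))
(L (nat_lit 16049729)))
(S (nat_lit 50538) (S (nat_lit 15741) (L (nat_lit 663310))
(S (nat_lit 48338) (S (nat_lit 37260) (S (nat_lit 40807) (L (nat_lit 14775879))
(L (nat_lit 10244516)))
(L (nat_lit 13653895)))
(L (nat_lit 14260376))))
(L (nat_lit 25311508)))))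
(S (nat_lit 39553) (S (nat_lit 37274) (S (nat_lit 1765) (S (nat_lit 50477) (S (nat_lit 19811) (L (nat_lit 29985321))
(L (nat_lit 8503897)))
(L (nat_lit 27463091)))
(S (nat_lit 55995) (L (nat_lit 18075770))
(L (nat_lit 4974894))))
(S (nat_lit 43831) (S (nat_lit 40818) (L (nat_lit 23326244))
(L (nat_lit 18079890)))
(L (nat_lit 8405940))))
(L (nat_lit 25215720)))))
(S (nat_lit 37302) (S (nat_lit 8810) (S (nat_lit 1036) (S (nat_lit 21722) (S (nat_lit 35115) (S (nat_lit 10960) (L (nat_lit 30921029))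
(L (nat_lit 23902376)))
(L (nat_lit 23159206)))
(L (nat_lit 1495974)))
(L (nat_lit 3068299)))
(S (nat_lit 28574) (S (nat_lit 19826) (S (nat_lit 37322) (S (nat_lit 8748) (S (nat_lit 37335) (L (nat_lit 2347484))
(L (nat_lit 2577318)))
(L (nat_lit 663065)))
(L (nat_lit 31071684)))
(S (nat_lit 51561) (S (nat_lit 13512) (L (nat_lit 23409851))
(L (nat_lit 8940132)))
(L (nat_lit 16490341))))
(S (nat_lit 48338) (S (nat_lit 19839) (S (nat_lit 17560) (S (nat_lit 28526) (S (nat_lit 54901) (S (nat_lit 30746) (S (nat_lit 21733) (S (nat_lit 20979) (S (nat_lit 8795) (S (nat_lit 28512) (S (nat_lit 40818) (S (nat_lit 35087) (S (nat_lit 41243) (S (nat_lit 4783) (S (nat_lit 21512) (S (nat_lit 2764) (S (nat_lit 44099) (S (nat_lit 9099) (S (nat_lit 38959) (S (nat_lit 22371) (S (nat_lit 6440) (S (nat_lit 21938) (S (nat_lit 1365) (D (nat_lit 13) (nat_lit 27840646) (nat_lit 25769130) (nat_lit 1202696755206))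
(L (nat_lit 28032291)))
(L (nat_lit 27697829)))
(L (nat_lit 27699840)))
(L (nat_lit 27865445)))
(L (nat_lit 27865280)))
(S (nat_lit 57022) (S (nat_lit 43792) (S (nat_lit 56660) (S (nat_lit 49356) (S (nat_lit 4129) (D (nat_lit 13) (nat_lit 30922759) (nat_lit 25765041) (nat_lit 3510199389416))
(L (nat_lit 30843584)))
(L (nat_lit 15603336)))
(L (nat_lit 15617064)))
(L (nat_lit 19806344)))
(L (nat_lit 10042114))))
(L (nat_lit 29625038)))
(L (nat_lit 22571204)))
(L (nat_lit 22028697)))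
(L (nat_lit 29433364)))
(L (nat_lit 6705955)))
(L (nat_lit 2356845)))
(L (nat_lit 18079891)))
(L (nat_lit 2648774)))
(L (nat_lit 6373171)))
(L (nat_lit 30807379)))
(L (nat_lit 30999079)))
(L (nat_lit 19675364)))
(L (nat_lit 15921395)))
(L (nat_lit 9500051)))
(L (nat_lit 18213939)))
(S (nat_lit 51884) (S (nat_lit 40818) (L (nat_lit 8816563))
(L (nat_lit 27795109)))
(L (nat_lit 2647718))))
(L (nat_lit 25788843)))))
(S (nat_lit 57066) (S (nat_lit 1776) (S (nat_lit 42) (S (nat_lit 1215) (L (nat_lit 13212826))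
(L (nat_lit 20374698)))
(S (nat_lit 19806) (L (nat_lit 10142907))
(S (nat_lit 39570) (S (nat_lit 17496) (S (nat_lit 15356) (S (nat_lit 40514) (S (nat_lit 19828) (S (nat_lit 8773) (S (nat_lit 14) (S (nat_lit 21004) (S (nat_lit 40805) (S (nat_lit 1257) (S (nat_lit 30746) (S (nat_lit 35239) (S (nat_lit 1036) (S (nat_lit 19839) (S (nat_lit 15340) (S (nat_lit 20783) (S (nat_lit 37324) (S (nat_lit 33306) (S (nat_lit 43350) (S (nat_lit 29882) (S (nat_lit 56997) (S (nat_lit 49215) (D (nat_lit 13) (nat_lit 26432685) (nat_lit 25764975) (nat_lit 277059076295))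
(L (nat_lit 13409302)))
(L (nat_lit 23557312)))
(L (nat_lit 7368333)))
(L (nat_lit 29905154)))
(S (nat_lit 38205) (S (nat_lit 18645) (S (nat_lit 58118) (S (nat_lit 45758) (S (nat_lit 48122) (D (nat_lit 13) (nat_lit 30791696) (nat_lit 25767025) (nat_lit 3543519005896))
(L (nat_lit 28529125)))
(L (nat_lit 4021736)))
(L (nat_lit 22950953)))
(L (nat_lit 30127396)))
(L (nat_lit 22417756))))
(L (nat_lit 10030928)))
(L (nat_lit 21333841)))
(L (nat_lit 1679185)))
(L (nat_lit 10273441)))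
(L (nat_lit 9169998)))
(L (nat_lit 30120108)))
(L (nat_lit 19665132)))
(L (nat_lit 19732997)))
(L (nat_lit 18607175)))
(L (nat_lit 6907393)))
(L (nat_lit 1850647)))
(L (nat_lit 1850711)))
(L (nat_lit 2997833)))
(L (nat_lit 24395555)))
(L (nat_lit 6373117)))
(S (nat_lit 47753) (L (nat_lit 4449746))
(L (nat_lit 826933))))
(L (nat_lit 25665682)))))
(S (nat_lit 21540) (S (nat_lit 40514) (S (nat_lit 21739) (S (nat_lit 39570) (L (nat_lit 11290212))
(L (nat_lit 23586112)))
(L (nat_lit 8309220)))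
(L (nat_lit 23410872)))
(S (nat_lit 41304) (S (nat_lit 1229) (S (nat_lit 35104) (L (nat_lit 13377188))
(L (nat_lit 20214147)))
(S (nat_lit 20993) (S (nat_lit 19828) (S (nat_lit 28559) (S (nat_lit 1036) (L (nat_lit 30808083))
(L (nat_lit 9321024)))
(L (nat_lit 24392763)))
(L (nat_lit 8966168)))
(S (nat_lit 40757) (S (nat_lit 40743) (S (nat_lit 40807) (L (nat_lit 2968998))
(L (nat_lit 7890497)))
(L (nat_lit 17934941)))
(L (nat_lit 25508919)))))
(L (nat_lit 25693867)))))
(L (nat_lit 25251207)))))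
(S (nat_lit 54862) (S (nat_lit 1715) (S (nat_lit 42) (S (nat_lit 37285) (L (nat_lit 13914916))
(L (nat_lit 10309776)))
(S (nat_lit 19806) (S (nat_lit 17521) (S (nat_lit 48338) (S (nat_lit 8748) (L (nat_lit 5526413))
(L (nat_lit 250670)))
(L (nat_lit 16535909)))
(S (nat_lit 37285) (S (nat_lit 64) (S (nat_lit 21529) (L (nat_lit 18207617))
(L (nat_lit 283032)))
(L (nat_lit 13553673)))
(S (nat_lit 57049) (S (nat_lit 40807) (L (nat_lit 807248))
(L (nat_lit 10015588)))
(L (nat_lit 25859464)))))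
(S (nat_lit 39570) (S (nat_lit 17543) (L (nat_lit 11948186))
(L (nat_lit 905452)))
(L (nat_lit 25645222)))))
(S (nat_lit 21479) (S (nat_lit 1003) (S (nat_lit 15384) (S (nat_lit 20800) (S (nat_lit 64) (S (nat_lit 40757) (S (nat_lit 30713) (L (nat_lit 6714019))
(L (nat_lit 24338852)))
(L (nat_lit 8305814)))
(L (nat_lit 348942)))
(L (nat_lit 905486)))
(S (nat_lit 35148) (S (nat_lit 57055) (L (nat_lit 8109243))
(L (nat_lit 18988348)))
(S (nat_lit 54912) (S (nat_lit 21021) (S (nat_lit 19789) (S (nat_lit 19806) (S (nat_lit 41293) (L (nat_lit 28594287))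
(L (nat_lit 7158869)))
(L (nat_lit 22330556)))
(L (nat_lit 30419695)))
(S (nat_lit 25991) (L (nat_lit 287372))
(L (nat_lit 6345516))))
(L (nat_lit 25545088)))))
(S (nat_lit 20767) (S (nat_lit 75) (S (nat_lit 20800) (S (nat_lit 17560) (L (nat_lit 6438584))
(L (nat_lit 347917)))
(L (nat_lit 6148491)))
(S (nat_lit 19839) (S (nat_lit 30699) (S (nat_lit 17560) (L (nat_lit 935590))
(L (nat_lit 7998221)))
(L (nat_lit 30429671)))
(S (nat_lit 39603) (S (nat_lit 40818) (S (nat_lit 54899) (L (nat_lit 29400566))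
(L (nat_lit 21765541)))
(L (nat_lit 23862317)))
(L (nat_lit 25346694)))))
(S (nat_lit 40531) (S (nat_lit 1034) (S (nat_lit 8773) (S (nat_lit 17521) (L (nat_lit 8076161))
(L (nat_lit 17879977)))
(L (nat_lit 23117737)))
(S (nat_lit 20798) (S (nat_lit 21783) (S (nat_lit 40757) (S (nat_lit 8790) (L (nat_lit 14963618))
(L (nat_lit 15436153)))
(L (nat_lit 8245730)))
(S (nat_lit 23323) (L (nat_lit 564922))
(L (nat_lit 8061708))))
(S (nat_lit 40562) (S (nat_lit 21667) (L (nat_lit 7262691))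
(S (nat_lit 37335) (S (nat_lit 48307) (L (nat_lit 7884987))
(L (nat_lit 13750588)))
(L (nat_lit 20392705))))
(L (nat_lit 25742563)))))
(L (nat_lit 25381344)))))
(S (nat_lit 41243) (S (nat_lit 8762) (S (nat_lit 15323) (S (nat_lit 21739) (S (nat_lit 21021) (S (nat_lit 20800) (S (nat_lit 28512) (S (nat_lit 21783) (S (nat_lit 21722) (S (nat_lit 19806) (S (nat_lit 50527) (S (nat_lit 64) (S (nat_lit 48301) (S (nat_lit 15340) (S (nat_lit 21527) (S (nat_lit 19826) (S (nat_lit 25101) (S (nat_lit 40562) (S (nat_lit 21004) (S (nat_lit 57024) (S (nat_lit 54899) (S (nat_lit 986) (S (nat_lit 44846) (S (nat_lit 39559) (S (nat_lit 902) (S (nat_lit 20409) (S (nat_lit 5019) (S (nat_lit 42433) (D (nat_lit 15) (nat_lit 4538261) (nat_lit 18616530) (nat_lit 208341566499))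
(L (nat_lit 30098723)))
(L (nat_lit 29047139)))
(L (nat_lit 29049189)))
(S (nat_lit 31903) (S (nat_lit 16641) (S (nat_lit 11896) (S (nat_lit 58217) (S (nat_lit 21456) (D (nat_lit 13) (nat_lit 29938857) (nat_lit 19055928) (nat_lit 2339920611336))
(L (nat_lit 19765389)))
(L (nat_lit 20345895)))
(L (nat_lit 31044899)))
(L (nat_lit 28946693)))
(L (nat_lit 5642877))))
(L (nat_lit 5033263)))
(L (nat_lit 26876974)))
(L (nat_lit 20004711)))
(L (nat_lit 14293829)))
(L (nat_lit 15375387)))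
(L (nat_lit 15295713)))
(L (nat_lit 8210945)))
(L (nat_lit 10972772)))
(L (nat_lit 15035076)))
(L (nat_lit 767848)))
(L (nat_lit 1922441)))
(L (nat_lit 22032204)))
(L (nat_lit 6836251)))
(L (nat_lit 10963811)))
(L (nat_lit 22985863)))
(L (nat_lit 1649584)))
(L (nat_lit 1273517)))
(L (nat_lit 8409934)))
(L (nat_lit 6340221)))
(L (nat_lit 2005522)))
(L (nat_lit 7828100)))
(S (nat_lit 35087) (S (nat_lit 50463) (S (nat_lit 40542) (S (nat_lit 15384) (S (nat_lit 40818) (S (nat_lit 20767) (L (nat_lit 7786523))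
(L (nat_lit 488107)))
(L (nat_lit 23159242)))
(L (nat_lit 26399111)))
(L (nat_lit 27283693)))
(L (nat_lit 27460084)))
(S (nat_lit 54851) (S (nat_lit 21021) (S (nat_lit 41229) (S (nat_lit 64) (S (nat_lit 20778) (L (nat_lit 6719066))
(L (nat_lit 21198370)))
(L (nat_lit 7256675)))
(L (nat_lit 17747234)))
(S (nat_lit 37713) (L (nat_lit 16016964))
(L (nat_lit 16535845))))
(L (nat_lit 25712901)))))
(S (nat_lit 28526) (S (nat_lit 2019) (S (nat_lit 30713) (S (nat_lit 64) (S (nat_lit 41497) (S (nat_lit 40818) (L (nat_lit 868006))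
(L (nat_lit 27338194)))
(L (nat_lit 27886122)))
(L (nat_lit 7487284)))
(L (nat_lit 8418835)))
(S (nat_lit 21783) (S (nat_lit 64) (S (nat_lit 21021) (S (nat_lit 10977) (S (nat_lit 41519) (S (nat_lit 1969) (S (nat_lit 20736) (S (nat_lit 39559) (S (nat_lit 57066) (S (nat_lit 21490) (S (nat_lit 54899) (S (nat_lit 986) (S (nat_lit 54879) (S (nat_lit 1765) (S (nat_lit 34914) (S (nat_lit 48276) (S (nat_lit 1047) (S (nat_lit 17127) (S (nat_lit 9223) (S (nat_lit 52142) (S (nat_lit 20970) (D (nat_lit 13) (nat_lit 29938981) (nat_lit 19369737) (nat_lit 2344081361152))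
(L (nat_lit 19768429)))
(L (nat_lit 19295457)))
(L (nat_lit 31043904)))
(S (nat_lit 57426) (S (nat_lit 37846) (S (nat_lit 40874) (S (nat_lit 38573) (S (nat_lit 51139) (S (nat_lit 8178) (D (nat_lit 13) (nat_lit 25901348) (nat_lit 19666310) (nat_lit 7699877239944))
(L (nat_lit 29016233)))
(L (nat_lit 24669506)))
(L (nat_lit 29016290)))
(L (nat_lit 29016388)))
(L (nat_lit 29014244)))
(L (nat_lit 28324215))))
(L (nat_lit 20477124)))
(L (nat_lit 13639606)))
(L (nat_lit 7059363)))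
(L (nat_lit 14353162)))
(L (nat_lit 21901665)))
(L (nat_lit 26661217)))
(L (nat_lit 21425508)))
(L (nat_lit 30835925)))
(L (nat_lit 27797056)))
(L (nat_lit 11153500)))
(L (nat_lit 16061266)))
(L (nat_lit 13927317)))
(L (nat_lit 827985)))
(L (nat_lit 770982)))
(L (nat_lit 21182490)))
(L (nat_lit 20070153)))
(S (nat_lit 41547) (S (nat_lit 21021) (S (nat_lit 20778) (S (nat_lit 17496) (L (nat_lit 20121148))
(L (nat_lit 18612903)))
(L (nat_lit 801075)))
(L (nat_lit 16094067)))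
(L (nat_lit 25925676)))))
(S (nat_lit 48290) (S (nat_lit 1748) (S (nat_lit 37285) (S (nat_lit 30713) (S (nat_lit 39559) (S (nat_lit 20783) (S (nat_lit 8748) (S (nat_lit 21783) (S (nat_lit 1279) (S (nat_lit 28574) (S (nat_lit 1215) (S (nat_lit 28554) (S (nat_lit 20800) (S (nat_lit 54899) (S (nat_lit 41472) (S (nat_lit 41519) (S (nat_lit 47) (S (nat_lit 13027) (S (nat_lit 55739) (S (nat_lit 18945) (S (nat_lit 7206) (S (nat_lit 45475) (S (nat_lit 34059) (S (nat_lit 47220) (S (nat_lit 9365) (S (nat_lit 2651) (D (nat_lit 13) (nat_lit 13755699) (nat_lit 6048234) (nat_lit 1102869175491))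
(L (nat_lit 31144195)))
(L (nat_lit 27864109)))
(L (nat_lit 9262597)))
(L (nat_lit 27897285)))
(L (nat_lit 19809541)))
(L (nat_lit 27903301)))
(S (nat_lit 34545) (S (nat_lit 47421) (S (nat_lit 28143) (D (nat_lit 15) (nat_lit 13923936) (nat_lit 6048076) (nat_lit 171801841891))
(L (nat_lit 22521946)))
(L (nat_lit 29080587)))
(L (nat_lit 2341653))))
(L (nat_lit 701289)))
(L (nat_lit 14556740)))
(L (nat_lit 13275914)))
(L (nat_lit 9093242)))
(L (nat_lit 16952957)))
(L (nat_lit 14294168)))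
(L (nat_lit 12255645)))
(L (nat_lit 13536630)))
(L (nat_lit 14459059)))
(L (nat_lit 19701157)))
(L (nat_lit 19938091)))
(L (nat_lit 30622867)))
(L (nat_lit 21202704)))
(L (nat_lit 14706249)))
(L (nat_lit 23529256)))
(L (nat_lit 16787033)))
(L (nat_lit 16803401)))
(S (nat_lit 21512) (S (nat_lit 40500) (S (nat_lit 20811) (L (nat_lit 15739480))
(L (nat_lit 15789267)))
(L (nat_lit 8308877)))
(S (nat_lit 41276) (S (nat_lit 8014) (L (nat_lit 30487111))
(S (nat_lit 37302) (S (nat_lit 21021) (S (nat_lit 17527) (L (nat_lit 6345147))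
(L (nat_lit 6840930)))
(L (nat_lit 6995036)))
(L (nat_lit 17102401))))
(L (nat_lit 25182519)))))
(L (nat_lit 25700069)))))
(L (nat_lit 25548227)))))
(L (nat_lit 25399734)))))
(S (nat_lit 41271) (S (nat_lit 1975) (S (nat_lit 62) (S (nat_lit 17521) (S (nat_lit 29480) (S (nat_lit 54884) (L (nat_lit 24306187))
(L (nat_lit 27562733)))
(S (nat_lit 29714) (S (nat_lit 33767) (L (nat_lit 13774426))
(L (nat_lit 18080324)))
(L (nat_lit 23299483))))
(S (nat_lit 37285) (S (nat_lit 1034) (S (nat_lit 15340) (S (nat_lit 21054) (S (nat_lit 19839) (S (nat_lit 48290) (S (nat_lit 35098) (L (nat_lit 19261828))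
(L (nat_lit 3030387)))
(L (nat_lit 13890117)))
(L (nat_lit 30976114)))
(L (nat_lit 6851347)))
(S (nat_lit 54715) (L (nat_lit 24600834))
(L (nat_lit 6415923))))
(S (nat_lit 20798) (S (nat_lit 54851) (S (nat_lit 1765) (L (nat_lit 18986919))
(L (nat_lit 13833851)))
(L (nat_lit 13854309)))
(S (nat_lit 40562) (S (nat_lit 40757) (S (nat_lit 41243) (L (nat_lit 8833082))
(L (nat_lit 23520577)))
(L (nat_lit 23520391)))
(L (nat_lit 25473763)))))
(S (nat_lit 57049) (S (nat_lit 15340) (S (nat_lit 40790) (S (nat_lit 19839) (L (nat_lit 23469920))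
(L (nat_lit 15444090)))
(L (nat_lit 24600745)))
(S (nat_lit 16150) (L (nat_lit 2018696))
(L (nat_lit 6709366))))
(L (nat_lit 25743496)))))
(S (nat_lit 19826) (S (nat_lit 10935) (S (nat_lit 25) (S (nat_lit 41276) (S (nat_lit 41547) (S (nat_lit 10960) (L (nat_lit 24582299))
(L (nat_lit 6353517)))
(L (nat_lit 27269773)))
(L (nat_lit 7112086)))
(S (nat_lit 19789) (S (nat_lit 2813) (L (nat_lit 8538523))
(S (nat_lit 37302) (S (nat_lit 8795) (L (nat_lit 9004047))
(L (nat_lit 6877203)))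
(L (nat_lit 8839319))))
(S (nat_lit 39553) (S (nat_lit 28559) (S (nat_lit 17496) (S (nat_lit 40785) (L (nat_lit 17106805))
(L (nat_lit 18024274)))
(L (nat_lit 24937711)))
(S (nat_lit 45013) (L (nat_lit 17695399))
(L (nat_lit 3948171))))
(L (nat_lit 25564533)))))
(S (nat_lit 30699) (S (nat_lit 1019) (L (nat_lit 892653))
(S (nat_lit 20783) (S (nat_lit 21722) (L (nat_lit 20814897))
(L (nat_lit 22421248)))
(S (nat_lit 40547) (S (nat_lit 1240) (L (nat_lit 16817789))
(L (nat_lit 20749391)))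
(L (nat_lit 25648265)))))
(S (nat_lit 50463) (S (nat_lit 21529) (S (nat_lit 1715) (S (nat_lit 21722) (S (nat_lit 1986) (S (nat_lit 39559) (S (nat_lit 21708) (S (nat_lit 41534) (S (nat_lit 10982) (S (nat_lit 50538) (S (nat_lit 6519) (L (nat_lit 11716187))
(S (nat_lit 21054) (S (nat_lit 40790) (S (nat_lit 1240) (S (nat_lit 35115) (S (nat_lit 40525) (S (nat_lit 20767) (S (nat_lit 48276) (L (nat_lit 4469403))
(L (nat_lit 20887777)))
(L (nat_lit 30886080)))
(L (nat_lit 27870432)))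
(S (nat_lit 42535) (L (nat_lit 4572858))
(L (nat_lit 8467317))))
(L (nat_lit 20279310)))
(L (nat_lit 9953122)))
(S (nat_lit 48899) (L (nat_lit 4596659))
(L (nat_lit 14937733)))))
(L (nat_lit 27955719)))
(S (nat_lit 30746) (S (nat_lit 50488) (S (nat_lit 21540) (S (nat_lit 19828) (S (nat_lit 21527) (S (nat_lit 41260) (S (nat_lit 39570) (S (nat_lit 19839) (S (nat_lit 21733) (S (nat_lit 41547) (S (nat_lit 20778) (S (nat_lit 1034) (S (nat_lit 40500) (S (nat_lit 1229) (S (nat_lit 40774) (S (nat_lit 21041) (S (nat_lit 15356) (S (nat_lit 35073) (S (nat_lit 40785) (S (nat_lit 1215) (S (nat_lit 332) (S (nat_lit 55931) (S (nat_lit 31901) (S (nat_lit 16626) (S (nat_lit 16171) (S (nat_lit 17571) (S (nat_lit 6528) (S (nat_lit 37700) (S (nat_lit 23031) (D (nat_lit 15) (nat_lit 30693925) (nat_lit 19666314) (nat_lit 68761491655))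
(L (nat_lit 24539458)))
(L (nat_lit 27712834)))
(L (nat_lit 30060867)))
(S (nat_lit 58129) (S (nat_lit 14790) (S (nat_lit 26676) (S (nat_lit 48696) (D (nat_lit 15) (nat_lit 30464487) (nat_lit 19456074) (nat_lit 70905761891))
(L (nat_lit 29542823)))
(L (nat_lit 20443364)))
(L (nat_lit 30000449)))
(L (nat_lit 17977657))))
(L (nat_lit 23655714)))
(L (nat_lit 28641998)))
(L (nat_lit 21376930)))
(L (nat_lit 28716738)))
(S (nat_lit 7440) (S (nat_lit 49944) (S (nat_lit 17872) (S (nat_lit 37605) (S (nat_lit 33295) (S (nat_lit 58604) (S (nat_lit 29926) (S (nat_lit 4118) (S (nat_lit 9585) (S (nat_lit 10054) (D (nat_lit 15) (nat_lit 27310729) (nat_lit 25675850) (nat_lit 212671275041))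
(L (nat_lit 27544001)))
(L (nat_lit 27861441)))
(S (nat_lit 35405) (S (nat_lit 40741) (S (nat_lit 32113) (D (nat_lit 13) (nat_lit 10261069) (nat_lit 10983186) (nat_lit 5780121295072))
(L (nat_lit 21774375)))
(L (nat_lit 26951905)))
(L (nat_lit 1267567))))
(L (nat_lit 21375875)))
(L (nat_lit 10088961)))
(L (nat_lit 4087272)))
(L (nat_lit 15607991)))
(L (nat_lit 17403816)))
(L (nat_lit 19805410)))
(S (nat_lit 38674) (S (nat_lit 19184) (S (nat_lit 23120) (S (nat_lit 48431) (S (nat_lit 30368) (S (nat_lit 2872) (S (nat_lit 44479) (S (nat_lit 26676) (S (nat_lit 57660) (S (nat_lit 58118) (D (nat_lit 15) (nat_lit 27348459) (nat_lit 5850890) (nat_lit 109759956133))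
(L (nat_lit 16665639)))
(L (nat_lit 16600289)))
(S (nat_lit 37302) (S (nat_lit 12818) (S (nat_lit 12634) (D (nat_lit 15) (nat_lit 30856388) (nat_lit 25773192) (nat_lit 106307981345))
(L (nat_lit 30808739)))
(L (nat_lit 31142243)))
(L (nat_lit 3430810))))
(L (nat_lit 16380227)))
(L (nat_lit 29513225)))
(L (nat_lit 16620227)))
(L (nat_lit 28738803)))
(L (nat_lit 27662025)))
(L (nat_lit 29761220)))
(L (nat_lit 16354186)))))
(L (nat_lit 19673411)))
(L (nat_lit 27760723)))
(L (nat_lit 19984838)))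
(L (nat_lit 15583460)))
(L (nat_lit 15517922)))
(L (nat_lit 27774148)))
(S (nat_lit 13542) (S (nat_lit 38851) (S (nat_lit 21311) (L (nat_lit 5584477))
(L (nat_lit 26849541)))
(L (nat_lit 26849539)))
(L (nat_lit 11319938))))
(L (nat_lit 3503725)))
(L (nat_lit 19805475)))
(S (nat_lit 30558) (S (nat_lit 41638) (S (nat_lit 11101) (L (nat_lit 2344697))
(L (nat_lit 22603043)))
(L (nat_lit 22921507)))
(S (nat_lit 55975) (S (nat_lit 41823) (S (nat_lit 31050) (L (nat_lit 5618299))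
(L (nat_lit 20377828)))
(L (nat_lit 19708098)))
(L (nat_lit 6771772)))))
(L (nat_lit 27352300)))
(L (nat_lit 14999329)))
(L (nat_lit 3975852)))
(L (nat_lit 17606369)))
(L (nat_lit 16789177)))
(L (nat_lit 15445049)))
(L (nat_lit 15458345)))
(L (nat_lit 15461604)))
(L (nat_lit 15641251)))
(S (nat_lit 50510) (S (nat_lit 30774) (S (nat_lit 10960) (S (nat_lit 986) (S (nat_lit 1047) (S (nat_lit 21783) (S (nat_lit 37307) (L (nat_lit 1324730))
(L (nat_lit 9190117)))
(L (nat_lit 14904997)))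
(L (nat_lit 19460266)))
(S (nat_lit 20750) (S (nat_lit 15323) (S (nat_lit 1034) (S (nat_lit 41497) (S (nat_lit 57066) (L (nat_lit 10664668))
(L (nat_lit 21902471)))
(L (nat_lit 23521354)))
(L (nat_lit 20875815)))
(L (nat_lit 24359780)))
(S (nat_lit 40514) (L (nat_lit 18159476))
(L (nat_lit 25761223)))))
(L (nat_lit 733563)))
(L (nat_lit 9613916)))
(L (nat_lit 25285870)))))
(L (nat_lit 23867400)))
(L (nat_lit 7944069)))
(L (nat_lit 27925987)))
(L (nat_lit 4038162)))
(L (nat_lit 31038944)))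
(L (nat_lit 19308385)))
(L (nat_lit 826991)))
(L (nat_lit 25183478)))))
(S (nat_lit 39590) (S (nat_lit 2019) (S (nat_lit 1986) (S (nat_lit 40768) (S (nat_lit 15309) (S (nat_lit 8779) (L (nat_lit 12354066))
(L (nat_lit 21077563)))
(L (nat_lit 17571488)))
(S (nat_lit 51619) (L (nat_lit 15008690))
(L (nat_lit 17735393))))
(S (nat_lit 21750) (S (nat_lit 40575) (S (nat_lit 10935) (S (nat_lit 19839) (S (nat_lit 19778) (S (nat_lit 41254) (L (nat_lit 18881020))
(L (nat_lit 24020239)))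
(L (nat_lit 15749435)))
(L (nat_lit 9135180)))
(L (nat_lit 26713110)))
(L (nat_lit 24682276)))
(S (nat_lit 41514) (S (nat_lit 40768) (S (nat_lit 41276) (L (nat_lit 17106803))
(L (nat_lit 23987504)))
(L (nat_lit 18783940)))
(L (nat_lit 25864739)))))
(S (nat_lit 21783) (S (nat_lit 1229) (S (nat_lit 17496) (S (nat_lit 40542) (S (nat_lit 41254) (L (nat_lit 1668305))
(L (nat_lit 27695840)))
(L (nat_lit 27951340)))
(S (nat_lit 37920) (L (nat_lit 24025261))
(L (nat_lit 563989))))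
(S (nat_lit 20993) (S (nat_lit 40768) (S (nat_lit 1290) (L (nat_lit 29721075))
(L (nat_lit 19831852)))
(S (nat_lit 47643) (L (nat_lit 4792240))
(L (nat_lit 23469828))))
(S (nat_lit 40757) (S (nat_lit 21465) (S (nat_lit 54901) (S (nat_lit 40547) (L (nat_lit 1648557))
(L (nat_lit 27270583)))
(L (nat_lit 21128396)))
(S (nat_lit 23496) (L (nat_lit 24921412))
(L (nat_lit 16347275))))
(L (nat_lit 25442976)))))
(S (nat_lit 41547) (S (nat_lit 15351) (S (nat_lit 11077) (L (nat_lit 16849533))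
(S (nat_lit 41276) (S (nat_lit 21054) (S (nat_lit 17571) (L (nat_lit 23633797))
(L (nat_lit 7829088)))
(L (nat_lit 1940946)))
(L (nat_lit 25041040))))
(S (nat_lit 35115) (S (nat_lit 10935) (S (nat_lit 40818) (L (nat_lit 28542574))
(L (nat_lit 23862316)))
(S (nat_lit 38473) (L (nat_lit 21161197))
(L (nat_lit 17833624))))
(S (nat_lit 54879) (S (nat_lit 32111) (L (nat_lit 12112027))
(S (nat_lit 40575) (S (nat_lit 41276) (S (nat_lit 15309) (S (nat_lit 40768) (L (nat_lit 3978583))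
(L (nat_lit 18014923)))
(L (nat_lit 17569847)))
(L (nat_lit 27449713)))
(L (nat_lit 27796659))))
(L (nat_lit 25281911)))))
(L (nat_lit 25731747)))))
(L (nat_lit 25933156)))))
(S (nat_lit 21739) (S (nat_lit 8795) (S (nat_lit 1014) (S (nat_lit 1279) (S (nat_lit 29238) (L (nat_lit 17374363))
(S (nat_lit 35148) (S (nat_lit 19778) (S (nat_lit 10960) (S (nat_lit 21722) (S (nat_lit 37260) (L (nat_lit 28940398))
(L (nat_lit 8404823)))
(L (nat_lit 30835958)))
(L (nat_lit 23566248)))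
(L (nat_lit 31013994)))
(L (nat_lit 8568442))))
(L (nat_lit 26950916)))
(S (nat_lit 20778) (S (nat_lit 1726) (S (nat_lit 57071) (S (nat_lit 54851) (L (nat_lit 7828164))
(L (nat_lit 15757930)))
(L (nat_lit 5878698)))
(S (nat_lit 21490) (S (nat_lit 15334) (S (nat_lit 28537) (S (nat_lit 54851) (L (nat_lit 17473380))
(L (nat_lit 21499690)))
(L (nat_lit 9125021)))
(L (nat_lit 258486)))
(S (nat_lit 41254) (S (nat_lit 17558) (S (nat_lit 40575) (L (nat_lit 23312164))
(L (nat_lit 24904909)))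
(L (nat_lit 2016842)))
(L (nat_lit 25772074)))))
(S (nat_lit 40542) (S (nat_lit 15356) (S (nat_lit 17543) (S (nat_lit 40785) (S (nat_lit 10982) (S (nat_lit 39603) (L (nat_lit 8535923))
(L (nat_lit 23860525)))
(L (nat_lit 18721412)))
(L (nat_lit 7487250)))
(L (nat_lit 22458116)))
(S (nat_lit 35120) (S (nat_lit 40807) (S (nat_lit 39542) (S (nat_lit 17543) (S (nat_lit 21054) (S (nat_lit 37322) (S (nat_lit 40562) (S (nat_lit 28574) (S (nat_lit 1047) (S (nat_lit 17496) (S (nat_lit 40743) (S (nat_lit 40525) (S (nat_lit 39559) (S (nat_lit 986) (S (nat_lit 15323) (S (nat_lit 37285) (S (nat_lit 15340) (S (nat_lit 54879) (S (nat_lit 31073) (S (nat_lit 38347) (S (nat_lit 14569) (S (nat_lit 28503) (S (nat_lit 58946) (S (nat_lit 18585) (D (nat_lit 13) (nat_lit 29938981) (nat_lit 19259505) (nat_lit 2344081361152))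
(L (nat_lit 28940369)))
(L (nat_lit 20149664)))
(L (nat_lit 7196160)))
(L (nat_lit 31014177)))
(S (nat_lit 43589) (S (nat_lit 4346) (S (nat_lit 37251) (S (nat_lit 49432) (S (nat_lit 9837) (D (nat_lit 13) (nat_lit 31114411) (nat_lit 19670129) (nat_lit 2446120290309))
(L (nat_lit 28710996)))
(L (nat_lit 13475553)))
(L (nat_lit 7197153)))
(L (nat_lit 31077632)))
(L (nat_lit 13215864))))
(L (nat_lit 28497322)))
(L (nat_lit 11652605)))
(L (nat_lit 7963505)))
(L (nat_lit 2673021)))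
(L (nat_lit 6997861)))
(L (nat_lit 2703175)))
(L (nat_lit 16882364)))
(L (nat_lit 17729222)))
(L (nat_lit 602397)))
(L (nat_lit 24681528)))
(L (nat_lit 19170809)))
(L (nat_lit 2748843)))
(L (nat_lit 27996199)))
(L (nat_lit 9896754)))
(L (nat_lit 21807146)))
(L (nat_lit 22296637)))
(L (nat_lit 24569124)))
(L (nat_lit 24428452)))
(S (nat_lit 54884) (S (nat_lit 15371) (S (nat_lit 57086) (L (nat_lit 6718322))
(L (nat_lit 27868484)))
(L (nat_lit 17392964)))
(L (nat_lit 25898500)))))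
(L (nat_lit 25678052)))))
(S (nat_lit 28559) (S (nat_lit 25) (S (nat_lit 1047) (S (nat_lit 35098) (S (nat_lit 40785) (S (nat_lit 39542) (L (nat_lit 24310218))
(L (nat_lit 24034596)))
(L (nat_lit 18749459)))
(S (nat_lit 44366) (L (nat_lit 2897267))
(L (nat_lit 8404632))))
(S (nat_lit 20811) (S (nat_lit 4974) (L (nat_lit 7079565))
(S (nat_lit 15340) (S (nat_lit 10935) (S (nat_lit 62) (L (nat_lit 1654013))
(L (nat_lit 6841060)))
(L (nat_lit 250639)))
(L (nat_lit 17097811))))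
(S (nat_lit 40575) (S (nat_lit 40785) (S (nat_lit 17510) (L (nat_lit 16516842))
(L (nat_lit 18042692)))
(L (nat_lit 18542602)))
(L (nat_lit 25478322)))))
(S (nat_lit 19789) (S (nat_lit 1944) (S (nat_lit 54851) (S (nat_lit 1765) (S (nat_lit 40514) (L (nat_lit 23598457))
(L (nat_lit 18474337)))
(L (nat_lit 19830126)))
(L (nat_lit 13854405)))
(S (nat_lit 21708) (S (nat_lit 15340) (S (nat_lit 8762) (S (nat_lit 1003) (S (nat_lit 40790) (L (nat_lit 21266874))
(L (nat_lit 27925617)))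
(L (nat_lit 2995573)))
(L (nat_lit 17573445)))
(L (nat_lit 7145011)))
(S (nat_lit 41472) (S (nat_lit 8823) (S (nat_lit 8779) (S (nat_lit 39603) (S (nat_lit 21010) (S (nat_lit 28512) (S (nat_lit 40562) (S (nat_lit 30774) (S (nat_lit 47) (S (nat_lit 21512) (S (nat_lit 39559) (S (nat_lit 48338) (S (nat_lit 40743) (S (nat_lit 50510) (S (nat_lit 35137) (S (nat_lit 24596) (S (nat_lit 1257) (S (nat_lit 54899) (S (nat_lit 20736) (S (nat_lit 41863) (S (nat_lit 48318) (S (nat_lit 148) (S (nat_lit 10586) (S (nat_lit 16418) (S (nat_lit 23836) (D (nat_lit 11) (nat_lit 27951312) (nat_lit 25344370) (nat_lit 212877903009))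
(L (nat_lit 27384202)))
(L (nat_lit 27926979)))
(L (nat_lit 27775267)))
(S (nat_lit 41693) (S (nat_lit 35696) (S (nat_lit 52348) (S (nat_lit 433) (S (nat_lit 12323) (D (nat_lit 11) (nat_lit 12437924) (nat_lit 2417232) (nat_lit 3325070599))
(L (nat_lit 31146306)))
(L (nat_lit 31068552)))
(L (nat_lit 17736260)))
(L (nat_lit 28981442)))
(L (nat_lit 9629359))))
(L (nat_lit 27664564)))
(L (nat_lit 7402036)))
(L (nat_lit 21828008)))
(L (nat_lit 21333432)))
(L (nat_lit 19377240)))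
(L (nat_lit 19981678)))
(L (nat_lit 20071677)))
(L (nat_lit 13184868)))
(L (nat_lit 16905802)))
(L (nat_lit 27711627)))
(L (nat_lit 17067125)))
(L (nat_lit 14935126)))
(L (nat_lit 14297149)))
(L (nat_lit 2512647)))
(L (nat_lit 23114505)))
(L (nat_lit 12840980)))
(L (nat_lit 7260644)))
(L (nat_lit 18689138)))
(L (nat_lit 615977)))
(L (nat_lit 436824)))
(L (nat_lit 25349513)))))
(S (nat_lit 39553) (S (nat_lit 1019) (S (nat_lit 28512) (L (nat_lit 19832193))
(L (nat_lit 24583228)))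
(S (nat_lit 20783) (S (nat_lit 17571) (S (nat_lit 40805) (S (nat_lit 15309) (S (nat_lit 1036) (L (nat_lit 25003340))
(L (nat_lit 9339317)))
(L (nat_lit 251662)))
(L (nat_lit 18552583)))
(S (nat_lit 29189) (L (nat_lit 9339565))
(L (nat_lit 2009621))))
(S (nat_lit 40547) (S (nat_lit 17496) (S (nat_lit 8748) (S (nat_lit 17571) (S (nat_lit 20778) (L (nat_lit 22221646))
(L (nat_lit 21922029)))
(L (nat_lit 18786912)))
(L (nat_lit 23895488)))
(L (nat_lit 18652832)))
(L (nat_lit 25871497)))))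
(L (nat_lit 25615496)))))
(S (nat_lit 48323) (S (nat_lit 1701) (S (nat_lit 17558) (S (nat_lit 20736) (S (nat_lit 40774) (L (nat_lit 24521604))
(L (nat_lit 839115)))
(L (nat_lit 7222884)))
(S (nat_lit 37322) (S (nat_lit 15371) (L (nat_lit 18212420))
(L (nat_lit 15030180)))
(S (nat_lit 57086) (S (nat_lit 54899) (L (nat_lit 21314404))
(L (nat_lit 27925924)))
(L (nat_lit 25762958)))))
(S (nat_lit 21465) (S (nat_lit 10999) (S (nat_lit 40743) (S (nat_lit 21054) (S (nat_lit 17527) (L (nat_lit 18554661))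
(L (nat_lit 6382003)))
(L (nat_lit 7048109)))
(L (nat_lit 970154)))
(S (nat_lit 30763) (S (nat_lit 6017) (L (nat_lit 3797292))
(S (nat_lit 8773) (S (nat_lit 54912) (L (nat_lit 30583501))
(L (nat_lit 10665781)))
(L (nat_lit 6320567))))
(S (nat_lit 50527) (S (nat_lit 4341) (L (nat_lit 16409920))
(S (nat_lit 28526) (S (nat_lit 57049) (S (nat_lit 20783) (S (nat_lit 39542) (S (nat_lit 1969) (S (nat_lit 10960) (S (nat_lit 17510) (S (nat_lit 986) (S (nat_lit 54862) (S (nat_lit 57066) (S (nat_lit 47) (S (nat_lit 35137) (S (nat_lit 30713) (S (nat_lit 33227) (S (nat_lit 21010) (S (nat_lit 1715) (S (nat_lit 46533) (S (nat_lit 26736) (S (nat_lit 21613) (S (nat_lit 13052) (S (nat_lit 49469) (S (nat_lit 57426) (S (nat_lit 19979) (D (nat_lit 13) (nat_lit 25761872) (nat_lit 19371787) (nat_lit 43083956390))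
(L (nat_lit 3071530)))
(L (nat_lit 28979270)))
(L (nat_lit 12842560)))
(L (nat_lit 31143200)))
(S (nat_lit 30629) (S (nat_lit 36143) (S (nat_lit 39059) (S (nat_lit 21699) (D (nat_lit 11) (nat_lit 25830949) (nat_lit 15469938) (nat_lit 206193138759))
(L (nat_lit 28000549)))
(L (nat_lit 19739750)))
(L (nat_lit 19738663)))
(L (nat_lit 1794538))))
(L (nat_lit 6711382)))
(L (nat_lit 19709221)))
(L (nat_lit 12898492)))
(L (nat_lit 1518264)))
(L (nat_lit 28727339)))
(L (nat_lit 17036869)))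
(L (nat_lit 20275244)))
(L (nat_lit 1366460)))
(L (nat_lit 6180177)))
(L (nat_lit 27807880)))
(L (nat_lit 4811120)))
(L (nat_lit 500349)))
(L (nat_lit 6353362)))
(L (nat_lit 13424836)))
(L (nat_lit 10933125)))
(L (nat_lit 6983065)))
(L (nat_lit 10504976)))
(L (nat_lit 9243187))))
(L (nat_lit 25568898)))))
(S (nat_lit 41229) (S (nat_lit 1229) (S (nat_lit 28587) (S (nat_lit 40785) (S (nat_lit 17571) (L (nat_lit 7222358))
(L (nat_lit 24587352)))
(L (nat_lit 27311346)))
(L (nat_lit 9223284)))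
(S (nat_lit 20993) (S (nat_lit 8790) (S (nat_lit 21054) (L (nat_lit 21408922))
(L (nat_lit 21047213)))
(L (nat_lit 6898840)))
(S (nat_lit 40757) (S (nat_lit 8773) (S (nat_lit 37291) (L (nat_lit 4472759))
(L (nat_lit 8470136)))
(L (nat_lit 23599017)))
(L (nat_lit 25509015)))))
(L (nat_lit 25480333)))))
(L (nat_lit 25734163)))))
(S (nat_lit 41503) (S (nat_lit 1229) (S (nat_lit 17510) (S (nat_lit 986) (S (nat_lit 28587) (S (nat_lit 28512) (L (nat_lit 2700506))
(L (nat_lit 24132423)))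
(L (nat_lit 24951911)))
(S (nat_lit 20750) (S (nat_lit 8810) (L (nat_lit 28659788))
(L (nat_lit 6980093)))
(S (nat_lit 40514) (S (nat_lit 40785) (S (nat_lit 17558) (L (nat_lit 23267244))
(L (nat_lit 22190556)))
(L (nat_lit 18666787)))
(L (nat_lit 25247369)))))
(S (nat_lit 37274) (S (nat_lit 10935) (S (nat_lit 15309) (S (nat_lit 41293) (S (nat_lit 40542) (L (nat_lit 9077614))
(L (nat_lit 23528202)))
(L (nat_lit 18023033)))
(L (nat_lit 6837305)))
(S (nat_lit 30699) (S (nat_lit 41243) (S (nat_lit 15309) (L (nat_lit 18547961))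
(L (nat_lit 17466119)))
(L (nat_lit 8843446)))
(S (nat_lit 50463) (S (nat_lit 40785) (S (nat_lit 21722) (S (nat_lit 21043) (S (nat_lit 40547) (L (nat_lit 499418))
(L (nat_lit 17619201)))
(L (nat_lit 22545757)))
(L (nat_lit 22447878)))
(L (nat_lit 24601891)))
(L (nat_lit 25887983)))))
(S (nat_lit 57038) (S (nat_lit 8392) (L (nat_lit 25036298))
(S (nat_lit 40785) (S (nat_lit 1986) (S (nat_lit 8748) (S (nat_lit 15323) (L (nat_lit 16837842))
(L (nat_lit 242514)))
(L (nat_lit 23299856)))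
(S (nat_lit 22093) (L (nat_lit 12355247))
(L (nat_lit 26543820))))
(L (nat_lit 27756266))))
(L (nat_lit 25923082)))))
(S (nat_lit 20993) (S (nat_lit 31) (S (nat_lit 41304) (S (nat_lit 17521) (S (nat_lit 21026) (S (nat_lit 8810) (L (nat_lit 19341156))
(L (nat_lit 956853)))
(L (nat_lit 31071344)))
(S (nat_lit 19141) (S (nat_lit 852) (L (nat_lit 10605485))
(L (nat_lit 2610090)))
(L (nat_lit 6306739))))
(S (nat_lit 43169) (L (nat_lit 9111003))
(L (nat_lit 4004493))))
(S (nat_lit 19795) (S (nat_lit 1986) (S (nat_lit 1257) (S (nat_lit 17521) (L (nat_lit 24580347))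
(L (nat_lit 8043427)))
(S (nat_lit 25302) (L (nat_lit 13211677))
(L (nat_lit 10633139))))
(S (nat_lit 21750) (S (nat_lit 20783) (S (nat_lit 10935) (L (nat_lit 20061656))
(L (nat_lit 23109177)))
(S (nat_lit 55176) (L (nat_lit 1762759))
(L (nat_lit 15631943))))
(S (nat_lit 41514) (S (nat_lit 48338) (L (nat_lit 433789))
(L (nat_lit 27592367)))
(L (nat_lit 25514060)))))
(S (nat_lit 39559) (S (nat_lit 1034) (S (nat_lit 20882) (L (nat_lit 6340218))
(S (nat_lit 35115) (S (nat_lit 40500) (S (nat_lit 30763) (S (nat_lit 39592) (S (nat_lit 21496) (S (nat_lit 50799) (L (nat_lit 1423963))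
(L (nat_lit 21083943)))
(L (nat_lit 6048231)))
(L (nat_lit 18208674)))
(L (nat_lit 9080317)))
(L (nat_lit 23964068)))
(L (nat_lit 23191975))))
(S (nat_lit 20798) (S (nat_lit 20849) (L (nat_lit 16951898))
(S (nat_lit 40531) (S (nat_lit 4096) (S (nat_lit 21578) (L (nat_lit 18458779))
(L (nat_lit 6802459)))
(S (nat_lit 41254) (S (nat_lit 40807) (S (nat_lit 40525) (S (nat_lit 15340) (S (nat_lit 21722) (S (nat_lit 8762) (L (nat_lit 21294127))
(L (nat_lit 23554341)))
(L (nat_lit 15913211)))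
(L (nat_lit 735546)))
(L (nat_lit 24026158)))
(L (nat_lit 23932078)))
(L (nat_lit 8783637))))
(L (nat_lit 9614009))))
(S (nat_lit 40562) (S (nat_lit 7239) (L (nat_lit 19339175))
(S (nat_lit 41254) (S (nat_lit 40807) (S (nat_lit 8823) (L (nat_lit 484628))
(L (nat_lit 23410496)))
(L (nat_lit 18590841)))
(L (nat_lit 17981716))))
(L (nat_lit 25273041)))))
(L (nat_lit 25277749)))))
(S (nat_lit 40757) (S (nat_lit 8762) (S (nat_lit 1726) (S (nat_lit 21021) (S (nat_lit 37260) (L (nat_lit 9013133))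
(L (nat_lit 16975765)))
(L (nat_lit 6443821)))
(S (nat_lit 21490) (S (nat_lit 39592) (S (nat_lit 40525) (S (nat_lit 40564) (S (nat_lit 15340) (S (nat_lit 10949) (S (nat_lit 39559) (S (nat_lit 41304) (S (nat_lit 35148) (S (nat_lit 14930) (S (nat_lit 42) (S (nat_lit 30724) (S (nat_lit 47267) (S (nat_lit 17521) (S (nat_lit 28576) (S (nat_lit 37260) (S (nat_lit 1246) (S (nat_lit 54899) (S (nat_lit 34711) (S (nat_lit 16891) (S (nat_lit 37163) (S (nat_lit 48744) (D (nat_lit 15) (nat_lit 25863181) (nat_lit 6048170) (nat_lit 3429896420))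
(L (nat_lit 24617893)))
(L (nat_lit 28814048)))
(S (nat_lit 34810) (S (nat_lit 8132) (S (nat_lit 21329) (S (nat_lit 57170) (S (nat_lit 51174) (S (nat_lit 51415) (D (nat_lit 13) (nat_lit 31065390) (nat_lit 19666311) (nat_lit 2268922552516))
(L (nat_lit 24441965)))
(L (nat_lit 24588129)))
(L (nat_lit 28780193)))
(L (nat_lit 28630532)))
(L (nat_lit 29076932)))
(L (nat_lit 3730055))))
(L (nat_lit 18776275)))
(L (nat_lit 27612645)))
(L (nat_lit 3646293)))
(L (nat_lit 3709692)))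
(L (nat_lit 9014813)))
(L (nat_lit 26973577)))
(L (nat_lit 1980661)))
(L (nat_lit 8443757)))
(L (nat_lit 6804665)))
(L (nat_lit 23500861)))
(L (nat_lit 3663157)))
(L (nat_lit 28022957)))
(L (nat_lit 27957358)))
(L (nat_lit 6352462)))
(L (nat_lit 1697036)))
(L (nat_lit 7388085)))
(L (nat_lit 23397948)))
(L (nat_lit 23869480)))
(S (nat_lit 41254) (S (nat_lit 40564) (S (nat_lit 41519) (S (nat_lit 28543) (L (nat_lit 8938053))
(L (nat_lit 18421848)))
(L (nat_lit 18180672)))
(L (nat_lit 23298991)))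
(L (nat_lit 25240303)))))
(S (nat_lit 28526) (S (nat_lit 40564) (S (nat_lit 29676) (L (nat_lit 23565628))
(S (nat_lit 39592) (S (nat_lit 40525) (S (nat_lit 17538) (S (nat_lit 41229) (S (nat_lit 35148) (S (nat_lit 17496) (S (nat_lit 30724) (S (nat_lit 37307) (S (nat_lit 39553) (S (nat_lit 39559) (S (nat_lit 15373) (S (nat_lit 21722) (S (nat_lit 1279) (S (nat_lit 55995) (S (nat_lit 32541) (S (nat_lit 12718) (S (nat_lit 36220) (S (nat_lit 50538) (S (nat_lit 5470) (S (nat_lit 18146) (S (nat_lit 53057) (S (nat_lit 30563) (D (nat_lit 15) (nat_lit 2311028) (nat_lit 16519410) (nat_lit 214824028291))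
(L (nat_lit 28982530)))
(L (nat_lit 16634986)))
(L (nat_lit 31177834)))
(S (nat_lit 14026) (S (nat_lit 5939) (S (nat_lit 38153) (D (nat_lit 15) (nat_lit 29579780) (nat_lit 437010) (nat_lit 7688167590))
(L (nat_lit 22519897)))
(L (nat_lit 28826885)))
(L (nat_lit 5942747))))
(L (nat_lit 11952705)))
(L (nat_lit 30052747)))
(L (nat_lit 24952096)))
(L (nat_lit 12800122)))
(L (nat_lit 26759459)))
(L (nat_lit 12670726)))
(L (nat_lit 30835958)))
(L (nat_lit 7785498)))
(L (nat_lit 23999747)))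
(L (nat_lit 27678888)))
(L (nat_lit 9180910)))
(L (nat_lit 8401778)))
(L (nat_lit 18024185)))
(L (nat_lit 9069952)))
(L (nat_lit 17077171)))
(L (nat_lit 6412697)))
(L (nat_lit 18155228)))
(L (nat_lit 17559747))))
(L (nat_lit 18575680)))
(S (nat_lit 48290) (S (nat_lit 23886) (L (nat_lit 321075))
(S (nat_lit 37285) (S (nat_lit 20783) (S (nat_lit 40790) (S (nat_lit 39592) (S (nat_lit 21490) (S (nat_lit 1014) (S (nat_lit 39559) (S (nat_lit 57024) (S (nat_lit 41304) (S (nat_lit 25302) (S (nat_lit 54899) (S (nat_lit 21755) (S (nat_lit 1279) (S (nat_lit 10818) (S (nat_lit 18188) (S (nat_lit 20679) (S (nat_lit 17346) (S (nat_lit 52387) (D (nat_lit 13) (nat_lit 29546025) (nat_lit 19056395) (nat_lit 2344081361152))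
(L (nat_lit 19295239)))
(L (nat_lit 28626307)))
(L (nat_lit 19295522)))
(L (nat_lit 31044962)))
(S (nat_lit 31634) (S (nat_lit 18431) (S (nat_lit 21651) (S (nat_lit 51415) (S (nat_lit 16374) (D (nat_lit 13) (nat_lit 30594601) (nat_lit 19055928) (nat_lit 2444039915680))
(L (nat_lit 28396936)))
(L (nat_lit 19295461)))
(L (nat_lit 19295429)))
(L (nat_lit 31044837)))
(L (nat_lit 4978121))))
(L (nat_lit 4111636)))
(L (nat_lit 15768155)))
(L (nat_lit 27932811)))
(L (nat_lit 18542947)))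
(L (nat_lit 23128396)))
(L (nat_lit 19432669)))
(L (nat_lit 24609577)))
(L (nat_lit 9294370)))
(L (nat_lit 629615)))
(L (nat_lit 24473987)))
(L (nat_lit 27722343)))
(L (nat_lit 7243344)))
(L (nat_lit 17556835))))
(L (nat_lit 25833546)))))
(L (nat_lit 25603712)))))
(L (nat_lit 25630378)))))
(L (nat_lit 25176626)))))

theorem rb246_0_19 : run 4 lb246 [] tb246_0_19 kb246 [0, 41536, 30730, 10997] [] = true := by
  decide +kernel

noncomputable def tb183_5 : Tr :=
(S (nat_lit 10036) (S (nat_lit 2226) (S (nat_lit 6077) (S (nat_lit 3456) (S (nat_lit 1281) (S (nat_lit 10977) (S (nat_lit 54851) (S (nat_lit 41782) (L (nat_lit 24023340))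
(L (nat_lit 24289689)))
(L (nat_lit 27495021)))
(L (nat_lit 26748576)))
(S (nat_lit 21045) (S (nat_lit 52657) (S (nat_lit 23706) (S (nat_lit 30773) (S (nat_lit 7853) (L (nat_lit 29381065))
(L (nat_lit 26525843)))
(L (nat_lit 3526478)))
(L (nat_lit 11375123)))
(L (nat_lit 10498838)))
(S (nat_lit 40809) (S (nat_lit 41295) (S (nat_lit 28562) (S (nat_lit 3942) (L (nat_lit 10401970))
(L (nat_lit 17523044)))
(L (nat_lit 19436859)))
(L (nat_lit 16835923)))
(L (nat_lit 25252298)))))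
(S (nat_lit 23220) (S (nat_lit 15374) (S (nat_lit 14358) (S (nat_lit 52708) (S (nat_lit 17566) (L (nat_lit 939465))
(L (nat_lit 26683011)))
(L (nat_lit 21344380)))
(L (nat_lit 24945708)))
(S (nat_lit 35138) (S (nat_lit 41782) (S (nat_lit 46119) (S (nat_lit 24216) (S (nat_lit 17558) (L (nat_lit 21794065))
(L (nat_lit 26592900)))
(L (nat_lit 9212306)))
(L (nat_lit 18587425)))
(L (nat_lit 15869593)))
(S (nat_lit 54902) (S (nat_lit 7853) (S (nat_lit 28528) (S (nat_lit 47867) (L (nat_lit 9195600))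
(L (nat_lit 8443352)))
(L (nat_lit 18059122)))
(S (nat_lit 23129) (L (nat_lit 13208423))
(L (nat_lit 9095008))))
(L (nat_lit 25319661)))))
(S (nat_lit 42984) (S (nat_lit 10977) (S (nat_lit 8807) (S (nat_lit 17558) (S (nat_lit 4399) (S (nat_lit 3940) (S (nat_lit 40769) (S (nat_lit 36835) (L (nat_lit 6201780))
(L (nat_lit 7455539)))
(L (nat_lit 17424391)))
(L (nat_lit 18904332)))
(L (nat_lit 18904456)))
(L (nat_lit 16326565)))
(L (nat_lit 23429965)))
(S (nat_lit 30741) (S (nat_lit 24216) (S (nat_lit 17055) (S (nat_lit 43) (S (nat_lit 41782) (S (nat_lit 55940) (L (nat_lit 30020974))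
(L (nat_lit 24684416)))
(L (nat_lit 23922988)))
(L (nat_lit 19767470)))
(L (nat_lit 9849636)))
(S (nat_lit 50099) (L (nat_lit 23904450))
(L (nat_lit 21128582))))
(S (nat_lit 50505) (S (nat_lit 24216) (S (nat_lit 43965) (S (nat_lit 45157) (S (nat_lit 4431) (S (nat_lit 1767) (S (nat_lit 7853) (L (nat_lit 26760267))
(L (nat_lit 23626567)))
(L (nat_lit 26269004)))
(L (nat_lit 18572576)))
(L (nat_lit 24482332)))
(L (nat_lit 14821299)))
(L (nat_lit 21357743)))
(L (nat_lit 25282951)))))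
(L (nat_lit 25182546)))))
(S (nat_lit 25841) (S (nat_lit 49) (S (nat_lit 14844) (S (nat_lit 4530) (L (nat_lit 2994918))
(S (nat_lit 24216) (S (nat_lit 7853) (S (nat_lit 17055) (S (nat_lit 52708) (S (nat_lit 41735) (L (nat_lit 24190488))
(L (nat_lit 4418070)))
(L (nat_lit 21836035)))
(L (nat_lit 22911428)))
(L (nat_lit 9079632)))
(L (nat_lit 21345121))))
(S (nat_lit 34608) (S (nat_lit 28041) (S (nat_lit 56113) (L (nat_lit 863853))
(L (nat_lit 16045889)))
(S (nat_lit 54270) (S (nat_lit 41782) (L (nat_lit 10504018))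
(L (nat_lit 11243308)))
(L (nat_lit 10575724))))
(S (nat_lit 54372) (S (nat_lit 28562) (S (nat_lit 21005) (S (nat_lit 28526) (L (nat_lit 6387251))
(L (nat_lit 19744037)))
(L (nat_lit 1918263)))
(L (nat_lit 12899451)))
(L (nat_lit 25937067)))))
(S (nat_lit 19813) (S (nat_lit 23734) (S (nat_lit 50578) (L (nat_lit 3784490))
(L (nat_lit 21284672)))
(S (nat_lit 41782) (S (nat_lit 36835) (S (nat_lit 23704) (S (nat_lit 21959) (S (nat_lit 36333) (L (nat_lit 4846925))
(L (nat_lit 18574506)))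
(L (nat_lit 9012731)))
(L (nat_lit 22421565)))
(S (nat_lit 37646) (L (nat_lit 21283898))
(L (nat_lit 11373132))))
(L (nat_lit 23929932))))
(S (nat_lit 39577) (S (nat_lit 3454) (S (nat_lit 15260) (L (nat_lit 21131689))
(S (nat_lit 41255) (S (nat_lit 4431) (S (nat_lit 10941) (S (nat_lit 24216) (S (nat_lit 32933) (L (nat_lit 21400857))
(L (nat_lit 20235289)))
(L (nat_lit 9278866)))
(L (nat_lit 23119782)))
(L (nat_lit 19253089)))
(L (nat_lit 18714310))))
(S (nat_lit 23218) (S (nat_lit 48285) (S (nat_lit 25393) (S (nat_lit 52686) (S (nat_lit 54902) (S (nat_lit 7853) (L (nat_lit 214933))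
(L (nat_lit 11043667)))
(L (nat_lit 4867320)))
(L (nat_lit 27895169)))
(L (nat_lit 17748161)))
(L (nat_lit 11388609)))
(S (nat_lit 42982) (S (nat_lit 41782) (S (nat_lit 24216) (S (nat_lit 3942) (S (nat_lit 12160) (S (nat_lit 4431) (S (nat_lit 48285) (S (nat_lit 36835) (L (nat_lit 3875224))
(L (nat_lit 10939008)))
(L (nat_lit 5711734)))
(L (nat_lit 26590849)))
(L (nat_lit 23357985)))
(L (nat_lit 18932016)))
(L (nat_lit 21376864)))
(L (nat_lit 15913273)))
(L (nat_lit 25561830)))))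
(L (nat_lit 25858504)))))
(S (nat_lit 45605) (S (nat_lit 8762) (S (nat_lit 16569) (S (nat_lit 12668) (S (nat_lit 10482) (S (nat_lit 41782) (L (nat_lit 2478960))
(L (nat_lit 24618073)))
(L (nat_lit 26446512)))
(L (nat_lit 10029900)))
(S (nat_lit 36333) (S (nat_lit 8757) (S (nat_lit 3454) (S (nat_lit 43965) (L (nat_lit 24225339))
(L (nat_lit 23536480)))
(L (nat_lit 9046458)))
(L (nat_lit 7014937)))
(S (nat_lit 56097) (S (nat_lit 1241) (S (nat_lit 8764) (L (nat_lit 21031116))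
(L (nat_lit 21800113)))
(L (nat_lit 26616919)))
(L (nat_lit 25315850)))))
(S (nat_lit 28526) (S (nat_lit 8764) (S (nat_lit 34122) (S (nat_lit 43965) (L (nat_lit 23890314))
(L (nat_lit 23864800)))
(L (nat_lit 15606935)))
(S (nat_lit 28528) (S (nat_lit 7853) (S (nat_lit 36333) (S (nat_lit 36835) (S (nat_lit 28521) (L (nat_lit 18647414))
(L (nat_lit 18058070)))
(L (nat_lit 13248352)))
(L (nat_lit 12782266)))
(S (nat_lit 20707) (L (nat_lit 2598553))
(L (nat_lit 8406901))))
(S (nat_lit 48292) (S (nat_lit 43470) (S (nat_lit 35087) (S (nat_lit 36835) (S (nat_lit 50505) (S (nat_lit 41255) (S (nat_lit 37330) (L (nat_lit 6217005))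
(L (nat_lit 3613555)))
(L (nat_lit 3458839)))
(L (nat_lit 12061460)))
(L (nat_lit 5744499)))
(L (nat_lit 18588793)))
(L (nat_lit 27527792)))
(L (nat_lit 25634403)))))
(S (nat_lit 48290) (S (nat_lit 15331) (S (nat_lit 6115) (S (nat_lit 16585) (L (nat_lit 24539425))
(L (nat_lit 14913179)))
(L (nat_lit 17847111)))
(S (nat_lit 35095) (S (nat_lit 41782) (S (nat_lit 50505) (S (nat_lit 17055) (S (nat_lit 32922) (S (nat_lit 5629) (L (nat_lit 28543599))
(L (nat_lit 18208609)))
(L (nat_lit 16360506)))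
(L (nat_lit 17680674)))
(L (nat_lit 27342502)))
(L (nat_lit 23208505)))
(S (nat_lit 54859) (S (nat_lit 6625) (S (nat_lit 36835) (S (nat_lit 4399) (L (nat_lit 18746643))
(L (nat_lit 18478403)))
(L (nat_lit 23955879)))
(L (nat_lit 26781315)))
(L (nat_lit 25700438)))))
(L (nat_lit 25824810)))))
(L (nat_lit 25544257)))))
(S (nat_lit 21990) (S (nat_lit 10941) (S (nat_lit 14358) (S (nat_lit 5591) (S (nat_lit 4968) (S (nat_lit 47381) (S (nat_lit 39577) (L (nat_lit 10934362))
(L (nat_lit 11165807)))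
(L (nat_lit 27346503)))
(S (nat_lit 37322) (S (nat_lit 52196) (S (nat_lit 32914) (S (nat_lit 21971) (L (nat_lit 2716876))
(L (nat_lit 8414678)))
(L (nat_lit 9175727)))
(L (nat_lit 8996643)))
(L (nat_lit 9291333))))
(S (nat_lit 51303) (L (nat_lit 18441444))
(L (nat_lit 9225794))))
(S (nat_lit 34122) (S (nat_lit 38999) (S (nat_lit 3942) (S (nat_lit 41255) (S (nat_lit 43955) (L (nat_lit 24405102))
(L (nat_lit 23990636)))
(L (nat_lit 6742721)))
(S (nat_lit 23706) (S (nat_lit 57042) (L (nat_lit 18017958))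
(L (nat_lit 12804833)))
(S (nat_lit 43470) (S (nat_lit 10977) (S (nat_lit 36349) (L (nat_lit 4972912))
(L (nat_lit 11982692)))
(L (nat_lit 7769012)))
(L (nat_lit 25446916)))))
(S (nat_lit 45572) (S (nat_lit 365) (L (nat_lit 20388641))
(L (nat_lit 16589473)))
(L (nat_lit 5792422))))
(S (nat_lit 53886) (S (nat_lit 13180) (S (nat_lit 35087) (S (nat_lit 57102) (S (nat_lit 25393) (L (nat_lit 18487207))
(L (nat_lit 21422436)))
(L (nat_lit 19063175)))
(L (nat_lit 12814971)))
(S (nat_lit 32944) (S (nat_lit 54372) (S (nat_lit 12347) (L (nat_lit 22162845))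
(S (nat_lit 12668) (S (nat_lit 18715) (L (nat_lit 6107443))
(L (nat_lit 5745491)))
(L (nat_lit 10306581))))
(L (nat_lit 18714315)))
(S (nat_lit 52708) (S (nat_lit 225) (S (nat_lit 41295) (L (nat_lit 3536306))
(L (nat_lit 8934427)))
(S (nat_lit 4437) (S (nat_lit 6077) (S (nat_lit 36333) (L (nat_lit 29673056))
(L (nat_lit 23207452)))
(L (nat_lit 20727073)))
(L (nat_lit 18779750))))
(L (nat_lit 25547854)))))
(L (nat_lit 25512077)))))
(S (nat_lit 30705) (S (nat_lit 11009) (S (nat_lit 3942) (S (nat_lit 13150) (S (nat_lit 47381) (S (nat_lit 19792) (L (nat_lit 4082897))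
(L (nat_lit 22982665)))
(L (nat_lit 2417139)))
(S (nat_lit 29645) (L (nat_lit 26266892))
(L (nat_lit 26713139))))
(S (nat_lit 23706) (S (nat_lit 17544) (S (nat_lit 40809) (S (nat_lit 4399) (S (nat_lit 8764) (L (nat_lit 21534072))
(L (nat_lit 21227660)))
(L (nat_lit 1850057)))
(L (nat_lit 10205245)))
(L (nat_lit 18731296)))
(S (nat_lit 43470) (S (nat_lit 7985) (L (nat_lit 17935155))
(S (nat_lit 45157) (S (nat_lit 1767) (S (nat_lit 28562) (L (nat_lit 28525188))
(L (nat_lit 10407460)))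
(L (nat_lit 3068363)))
(L (nat_lit 2316080))))
(L (nat_lit 25901348)))))
(S (nat_lit 30773) (S (nat_lit 14894) (S (nat_lit 21689) (L (nat_lit 3910203))
(S (nat_lit 28562) (S (nat_lit 37322) (S (nat_lit 36349) (L (nat_lit 17979147))
(L (nat_lit 30856484)))
(L (nat_lit 2760091)))
(L (nat_lit 9522747))))
(S (nat_lit 34658) (S (nat_lit 8757) (S (nat_lit 21005) (L (nat_lit 1268250))
(L (nat_lit 31016160)))
(L (nat_lit 21808135)))
(S (nat_lit 54422) (S (nat_lit 32046) (L (nat_lit 9983133))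
(S (nat_lit 47319) (S (nat_lit 54372) (S (nat_lit 48292) (L (nat_lit 30825546))
(L (nat_lit 27477138)))
(L (nat_lit 9342423)))
(L (nat_lit 10401878))))
(L (nat_lit 25821393)))))
(S (nat_lit 50537) (S (nat_lit 10522) (S (nat_lit 5591) (S (nat_lit 30777) (L (nat_lit 29775168))
(L (nat_lit 14472512)))
(S (nat_lit 21325) (L (nat_lit 23500646))
(L (nat_lit 26854503))))
(S (nat_lit 30286) (S (nat_lit 48292) (S (nat_lit 45157) (L (nat_lit 30058976))
(L (nat_lit 12637990)))
(L (nat_lit 11591500)))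
(S (nat_lit 50050) (S (nat_lit 38999) (S (nat_lit 43470) (L (nat_lit 23126471))
(L (nat_lit 8817523)))
(L (nat_lit 11039826)))
(L (nat_lit 25666181)))))
(L (nat_lit 25634867)))))
(S (nat_lit 50469) (S (nat_lit 13129) (S (nat_lit 5629) (S (nat_lit 54372) (S (nat_lit 11009) (L (nat_lit 29499086))
(L (nat_lit 16446692)))
(S (nat_lit 55659) (L (nat_lit 5943675))
(L (nat_lit 9356471))))
(S (nat_lit 25393) (S (nat_lit 21531) (S (nat_lit 21491) (S (nat_lit 50050) (S (nat_lit 53936) (L (nat_lit 23149917))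
(L (nat_lit 16784026)))
(L (nat_lit 15947680)))
(L (nat_lit 21267995)))
(L (nat_lit 30449107)))
(S (nat_lit 45157) (S (nat_lit 36349) (S (nat_lit 28521) (L (nat_lit 2422262))
(L (nat_lit 25052199)))
(L (nat_lit 4642667)))
(L (nat_lit 25865264)))))
(S (nat_lit 32893) (S (nat_lit 17558) (S (nat_lit 1767) (S (nat_lit 36835) (L (nat_lit 18711174))
(L (nat_lit 18090867)))
(L (nat_lit 26261843)))
(S (nat_lit 37322) (S (nat_lit 41295) (S (nat_lit 58243) (S (nat_lit 13169) (L (nat_lit 26908070))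
(L (nat_lit 22922436)))
(L (nat_lit 9557433)))
(L (nat_lit 8967357)))
(S (nat_lit 57086) (S (nat_lit 47381) (S (nat_lit 25393) (L (nat_lit 22080935))
(L (nat_lit 4912646)))
(L (nat_lit 22267682)))
(L (nat_lit 25543828)))))
(S (nat_lit 52657) (S (nat_lit 15374) (S (nat_lit 25879) (S (nat_lit 21045) (S (nat_lit 54422) (L (nat_lit 9003524))
(L (nat_lit 6340370)))
(L (nat_lit 6313741)))
(L (nat_lit 11032320)))
(S (nat_lit 35138) (S (nat_lit 46124) (S (nat_lit 17558) (L (nat_lit 22413659))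
(L (nat_lit 18797739)))
(S (nat_lit 48230) (S (nat_lit 54784) (L (nat_lit 4019655))
(L (nat_lit 9041411)))
(L (nat_lit 17921365))))
(S (nat_lit 54902) (S (nat_lit 25355) (S (nat_lit 21491) (S (nat_lit 23218) (S (nat_lit 19792) (S (nat_lit 21971) (L (nat_lit 14289209))
(L (nat_lit 21030125)))
(L (nat_lit 9339502)))
(L (nat_lit 18025268)))
(L (nat_lit 10569467)))
(L (nat_lit 12404322)))
(L (nat_lit 25757903)))))
(L (nat_lit 25598530)))))
(L (nat_lit 25821519)))))
(S (nat_lit 41754) (S (nat_lit 8757) (S (nat_lit 17514) (S (nat_lit 15312) (S (nat_lit 6591) (L (nat_lit 24332096))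
(L (nat_lit 26816800)))
(S (nat_lit 35076) (S (nat_lit 43468) (L (nat_lit 8451792))
(L (nat_lit 27506368)))
(S (nat_lit 54840) (S (nat_lit 6115) (S (nat_lit 27617) (L (nat_lit 28330534))
(L (nat_lit 12119776)))
(L (nat_lit 26660871)))
(L (nat_lit 25377376)))))
(S (nat_lit 37278) (S (nat_lit 17574) (S (nat_lit 4431) (S (nat_lit 30286) (S (nat_lit 36835) (S (nat_lit 43980) (L (nat_lit 3496817))
(L (nat_lit 10971872)))
(L (nat_lit 31078656)))
(L (nat_lit 18523008)))
(L (nat_lit 18572576)))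
(S (nat_lit 37338) (S (nat_lit 8723) (L (nat_lit 8808032))
(S (nat_lit 37308) (S (nat_lit 1281) (S (nat_lit 50010) (S (nat_lit 6596) (L (nat_lit 14585043))
(L (nat_lit 7418803)))
(L (nat_lit 3724107)))
(S (nat_lit 52246) (L (nat_lit 23903587))
(L (nat_lit 3724138))))
(L (nat_lit 17065664))))
(S (nat_lit 57102) (S (nat_lit 4431) (S (nat_lit 38513) (S (nat_lit 17544) (L (nat_lit 18182785))
(L (nat_lit 18729217)))
(L (nat_lit 4940327)))
(S (nat_lit 44746) (L (nat_lit 15786228))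
(L (nat_lit 18206528))))
(L (nat_lit 25636021)))))
(S (nat_lit 57042) (S (nat_lit 10522) (S (nat_lit 16585) (L (nat_lit 21252000))
(L (nat_lit 11000923)))
(L (nat_lit 10128923)))
(L (nat_lit 25924135)))))
(S (nat_lit 28521) (S (nat_lit 8339) (S (nat_lit 19235) (S (nat_lit 36349) (L (nat_lit 12590681))
(L (nat_lit 18720790)))
(S (nat_lit 38999) (S (nat_lit 10793) (L (nat_lit 17887603))
(S (nat_lit 50469) (S (nat_lit 48292) (L (nat_lit 24637575))
(L (nat_lit 11012796)))
(L (nat_lit 11171264))))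
(S (nat_lit 58763) (S (nat_lit 54881) (S (nat_lit 35076) (S (nat_lit 34122) (L (nat_lit 31138989))
(L (nat_lit 23995875)))
(L (nat_lit 12834721)))
(L (nat_lit 19801572)))
(L (nat_lit 25494066)))))
(S (nat_lit 28103) (S (nat_lit 6625) (S (nat_lit 42984) (S (nat_lit 50541) (L (nat_lit 28740851))
(L (nat_lit 11198912)))
(L (nat_lit 23077339)))
(S (nat_lit 26389) (S (nat_lit 15323) (S (nat_lit 17071) (S (nat_lit 42982) (S (nat_lit 6077) (L (nat_lit 16681642))
(L (nat_lit 10274371)))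
(L (nat_lit 2926284)))
(L (nat_lit 24552507)))
(L (nat_lit 24650564)))
(S (nat_lit 46153) (S (nat_lit 34122) (L (nat_lit 3852039))
(L (nat_lit 23995875)))
(L (nat_lit 25496270)))))
(S (nat_lit 47867) (S (nat_lit 1281) (S (nat_lit 56583) (S (nat_lit 28528) (S (nat_lit 37330) (L (nat_lit 28510610))
(L (nat_lit 3974611)))
(L (nat_lit 18058098)))
(L (nat_lit 3777390)))
(S (nat_lit 21045) (S (nat_lit 28562) (S (nat_lit 52697) (L (nat_lit 316923))
(L (nat_lit 11112890)))
(L (nat_lit 3456947)))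
(S (nat_lit 40809) (S (nat_lit 20227) (L (nat_lit 11006628))
(S (nat_lit 54422) (S (nat_lit 5629) (L (nat_lit 27344583))
(L (nat_lit 11031611)))
(L (nat_lit 3699336))))
(L (nat_lit 25744741)))))
(L (nat_lit 25870502)))))
(S (nat_lit 48285) (S (nat_lit 10941) (S (nat_lit 27617) (S (nat_lit 5591) (S (nat_lit 13281) (L (nat_lit 23629670))
(S (nat_lit 17574) (S (nat_lit 4431) (S (nat_lit 30777) (S (nat_lit 52686) (L (nat_lit 30812737))
(L (nat_lit 17502119)))
(L (nat_lit 24521568)))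
(L (nat_lit 16489313)))
(L (nat_lit 16683591))))
(L (nat_lit 6080071)))
(L (nat_lit 5031495)))
(S (nat_lit 30705) (S (nat_lit 52697) (S (nat_lit 35117) (S (nat_lit 48290) (S (nat_lit 17071) (S (nat_lit 14844) (L (nat_lit 26224019))
(L (nat_lit 11618165)))
(L (nat_lit 4695706)))
(L (nat_lit 4924826)))
(L (nat_lit 8505202)))
(L (nat_lit 11126629)))
(S (nat_lit 50469) (S (nat_lit 21491) (S (nat_lit 6115) (S (nat_lit 54840) (S (nat_lit 57072) (L (nat_lit 21422247))
(L (nat_lit 13506246)))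
(L (nat_lit 16637184)))
(S (nat_lit 10184) (L (nat_lit 22114508))
(L (nat_lit 15979360))))
(S (nat_lit 52841) (L (nat_lit 10577648))
(L (nat_lit 5872496))))
(L (nat_lit 25827505)))))
(L (nat_lit 25895982)))))
(L (nat_lit 25253414)))))
(S (nat_lit 29800) (S (nat_lit 11009) (S (nat_lit 11013) (S (nat_lit 13129) (S (nat_lit 12160) (S (nat_lit 1417) (L (nat_lit 30594443))
(S (nat_lit 5629) (S (nat_lit 39571) (S (nat_lit 19235) (S (nat_lit 17544) (L (nat_lit 3423159))
(L (nat_lit 16042817)))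
(L (nat_lit 26948961)))
(L (nat_lit 5133833)))
(L (nat_lit 18050689))))
(S (nat_lit 31924) (S (nat_lit 46117) (S (nat_lit 41295) (S (nat_lit 5629) (L (nat_lit 29411755))
(L (nat_lit 18208577)))
(L (nat_lit 18622643)))
(L (nat_lit 18609192)))
(S (nat_lit 51688) (S (nat_lit 8807) (L (nat_lit 598893))
(L (nat_lit 6981485)))
(L (nat_lit 25741633)))))
(S (nat_lit 32893) (S (nat_lit 2226) (S (nat_lit 12668) (S (nat_lit 39577) (L (nat_lit 28857415))
(L (nat_lit 18519353)))
(L (nat_lit 21841121)))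
(S (nat_lit 21990) (S (nat_lit 52708) (S (nat_lit 12668) (S (nat_lit 47381) (L (nat_lit 15755474))
(L (nat_lit 2970993)))
(L (nat_lit 9866099)))
(S (nat_lit 56920) (S (nat_lit 35076) (L (nat_lit 8273506))
(L (nat_lit 9459472)))
(L (nat_lit 18683987))))
(S (nat_lit 41754) (S (nat_lit 41295) (S (nat_lit 36349) (S (nat_lit 11011) (S (nat_lit 5629) (S (nat_lit 27617) (L (nat_lit 29754022))
(L (nat_lit 16426754)))
(L (nat_lit 16602246)))
(L (nat_lit 6707043)))
(L (nat_lit 18149953)))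
(L (nat_lit 18688179)))
(L (nat_lit 25481600)))))
(S (nat_lit 52657) (S (nat_lit 15353) (S (nat_lit 4437) (S (nat_lit 52678) (S (nat_lit 34122) (L (nat_lit 636152))
(L (nat_lit 7062684)))
(L (nat_lit 12047420)))
(L (nat_lit 481031)))
(S (nat_lit 35117) (S (nat_lit 14408) (S (nat_lit 21990) (S (nat_lit 17544) (L (nat_lit 24492896))
(L (nat_lit 26841606)))
(L (nat_lit 3858822)))
(S (nat_lit 34172) (S (nat_lit 17544) (S (nat_lit 52708) (S (nat_lit 11011) (S (nat_lit 36349) (L (nat_lit 23076379))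
(L (nat_lit 4642667)))
(L (nat_lit 703305)))
(L (nat_lit 12080217)))
(L (nat_lit 6944256)))
(S (nat_lit 53936) (S (nat_lit 30286) (S (nat_lit 22018) (S (nat_lit 4431) (S (nat_lit 11011) (S (nat_lit 46117) (S (nat_lit 54372) (L (nat_lit 6209227))
(L (nat_lit 21859819)))
(L (nat_lit 10607535)))
(L (nat_lit 7501392)))
(L (nat_lit 957970)))
(L (nat_lit 8550028)))
(L (nat_lit 25003527)))
(L (nat_lit 25745698)))))
(S (nat_lit 54881) (S (nat_lit 28180) (S (nat_lit 8277) (L (nat_lit 25072135))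
(L (nat_lit 21118859)))
(S (nat_lit 30286) (S (nat_lit 33011) (S (nat_lit 47867) (L (nat_lit 4645482))
(L (nat_lit 6931480)))
(L (nat_lit 26852709)))
(L (nat_lit 18541925))))
(L (nat_lit 25447597)))))
(L (nat_lit 25363022)))))
(S (nat_lit 30777) (S (nat_lit 2195) (S (nat_lit 10482) (S (nat_lit 12160) (S (nat_lit 10941) (L (nat_lit 26296011))
(L (nat_lit 18081376)))
(L (nat_lit 23260646)))
(S (nat_lit 30246) (S (nat_lit 32914) (S (nat_lit 56113) (S (nat_lit 41735) (S (nat_lit 27555) (L (nat_lit 28917798))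
(L (nat_lit 19053882)))
(L (nat_lit 16624694)))
(L (nat_lit 2900278)))
(L (nat_lit 2890134)))
(S (nat_lit 50010) (S (nat_lit 34608) (S (nat_lit 3942) (L (nat_lit 24952843))
(L (nat_lit 18922251)))
(L (nat_lit 23160044)))
(L (nat_lit 25341614)))))
(S (nat_lit 21959) (S (nat_lit 2321) (S (nat_lit 43) (L (nat_lit 2372438))
(S (nat_lit 39571) (S (nat_lit 35899) (L (nat_lit 14518955))
(L (nat_lit 21441725)))
(L (nat_lit 25475778))))
(S (nat_lit 4427) (S (nat_lit 2331) (S (nat_lit 39577) (L (nat_lit 14833542))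
(L (nat_lit 12227374)))
(S (nat_lit 4437) (S (nat_lit 4452) (S (nat_lit 28528) (S (nat_lit 39577) (S (nat_lit 26360) (S (nat_lit 37322) (S (nat_lit 12160) (S (nat_lit 52697) (L (nat_lit 7837557))
(L (nat_lit 12161904)))
(L (nat_lit 16519511)))
(L (nat_lit 16930603)))
(L (nat_lit 15440057)))
(L (nat_lit 12227374)))
(L (nat_lit 24364221)))
(L (nat_lit 19363137)))
(L (nat_lit 18745586))))
(L (nat_lit 18151109))))
(S (nat_lit 41723) (S (nat_lit 17566) (S (nat_lit 4431) (S (nat_lit 4399) (S (nat_lit 19235) (S (nat_lit 35138) (L (nat_lit 29543882))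
(L (nat_lit 8570708)))
(L (nat_lit 18476385)))
(S (nat_lit 6886) (L (nat_lit 10015557))
(L (nat_lit 242395))))
(S (nat_lit 39364) (L (nat_lit 30998896))
(L (nat_lit 400243))))
(S (nat_lit 37330) (S (nat_lit 24848) (L (nat_lit 3458934))
(S (nat_lit 30286) (S (nat_lit 35095) (S (nat_lit 54881) (L (nat_lit 8979341))
(L (nat_lit 5131690)))
(L (nat_lit 3632841)))
(L (nat_lit 904647))))
(S (nat_lit 57094) (S (nat_lit 18827) (L (nat_lit 4833499))
(S (nat_lit 46153) (S (nat_lit 5591) (L (nat_lit 18478247))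
(L (nat_lit 18474240)))
(L (nat_lit 4580754))))
(L (nat_lit 25313929)))))
(L (nat_lit 25762213)))))
(S (nat_lit 50541) (S (nat_lit 1727) (S (nat_lit 21101) (S (nat_lit 24545) (L (nat_lit 17888530))
(L (nat_lit 18082400)))
(S (nat_lit 30775) (S (nat_lit 56097) (S (nat_lit 30705) (S (nat_lit 57072) (L (nat_lit 4595452))
(L (nat_lit 21403526)))
(L (nat_lit 2317167)))
(L (nat_lit 18914845)))
(L (nat_lit 24492802))))
(S (nat_lit 21491) (S (nat_lit 3456) (S (nat_lit 16585) (S (nat_lit 40809) (S (nat_lit 15353) (L (nat_lit 15982711))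
(L (nat_lit 7761540)))
(L (nat_lit 18077477)))
(S (nat_lit 47164) (L (nat_lit 3793415))
(L (nat_lit 10936897))))
(S (nat_lit 23220) (S (nat_lit 40809) (S (nat_lit 54902) (S (nat_lit 19820) (S (nat_lit 24191) (L (nat_lit 18968074))
(L (nat_lit 22098299)))
(L (nat_lit 15027259)))
(L (nat_lit 12142436)))
(L (nat_lit 18699461)))
(S (nat_lit 42984) (S (nat_lit 36835) (S (nat_lit 40809) (L (nat_lit 10051628))
(L (nat_lit 18122397)))
(S (nat_lit 43389) (L (nat_lit 12659323))
(L (nat_lit 12625779))))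
(L (nat_lit 25464430)))))
(S (nat_lit 41255) (S (nat_lit 17544) (S (nat_lit 4399) (S (nat_lit 5591) (S (nat_lit 4437) (S (nat_lit 35076) (L (nat_lit 24127277))
(L (nat_lit 30653024)))
(L (nat_lit 16654944)))
(L (nat_lit 26854567)))
(L (nat_lit 1683341)))
(L (nat_lit 1683313)))
(L (nat_lit 25593544)))))
(L (nat_lit 25792849)))))
(S (nat_lit 30773) (S (nat_lit 12160) (S (nat_lit 8807) (S (nat_lit 6596) (S (nat_lit 48290) (S (nat_lit 28041) (S (nat_lit 15323) (S (nat_lit 28562) (S (nat_lit 3456) (L (nat_lit 6072911))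
(L (nat_lit 9167984)))
(L (nat_lit 4116011)))
(L (nat_lit 26971691)))
(L (nat_lit 19194404)))
(L (nat_lit 11232804)))
(S (nat_lit 26360) (S (nat_lit 4399) (S (nat_lit 30286) (S (nat_lit 57072) (L (nat_lit 16651979))
(L (nat_lit 14947035)))
(L (nat_lit 31039628)))
(L (nat_lit 7968155)))
(S (nat_lit 46124) (S (nat_lit 8277) (S (nat_lit 8762) (S (nat_lit 8798) (S (nat_lit 42982) (L (nat_lit 22440010))
(L (nat_lit 23213899)))
(L (nat_lit 7074340)))
(L (nat_lit 1886763)))
(L (nat_lit 21796395)))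
(L (nat_lit 25768292)))))
(S (nat_lit 28571) (S (nat_lit 17544) (S (nat_lit 2841) (L (nat_lit 24936720))
(S (nat_lit 50539) (S (nat_lit 187) (L (nat_lit 24947141))
(L (nat_lit 11309589)))
(L (nat_lit 12171353))))
(S (nat_lit 37308) (S (nat_lit 4437) (S (nat_lit 57094) (S (nat_lit 4452) (L (nat_lit 12707531))
(L (nat_lit 15883641)))
(L (nat_lit 27639955)))
(S (nat_lit 20404) (L (nat_lit 23424177))
(L (nat_lit 18214497))))
(S (nat_lit 57072) (S (nat_lit 4399) (S (nat_lit 52686) (S (nat_lit 25879) (S (nat_lit 23704) (S (nat_lit 34122) (L (nat_lit 4726645))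
(L (nat_lit 23356460)))
(L (nat_lit 12838624)))
(L (nat_lit 22045095)))
(L (nat_lit 11210669)))
(L (nat_lit 6918555)))
(L (nat_lit 25700469)))))
(S (nat_lit 48335) (S (nat_lit 17544) (S (nat_lit 19235) (S (nat_lit 4431) (S (nat_lit 22018) (S (nat_lit 54422) (L (nat_lit 30021745))
(L (nat_lit 21018904)))
(L (nat_lit 21399832)))
(L (nat_lit 16489280)))
(S (nat_lit 20836) (L (nat_lit 17933048))
(L (nat_lit 10076253))))
(S (nat_lit 37308) (S (nat_lit 19235) (S (nat_lit 30286) (S (nat_lit 4431) (L (nat_lit 2454157))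
(L (nat_lit 412487)))
(L (nat_lit 31044901)))
(S (nat_lit 58592) (L (nat_lit 9159800))
(L (nat_lit 9465516))))
(S (nat_lit 57072) (S (nat_lit 4399) (S (nat_lit 32922) (S (nat_lit 36835) (S (nat_lit 25879) (S (nat_lit 21045) (S (nat_lit 43468) (L (nat_lit 15963835))
(L (nat_lit 23992736)))
(L (nat_lit 30659628)))
(L (nat_lit 30660000)))
(L (nat_lit 30627232)))
(L (nat_lit 10246189)))
(S (nat_lit 8488) (L (nat_lit 18584829))
(L (nat_lit 17869531))))
(L (nat_lit 25803040)))))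
(L (nat_lit 25657931)))))
(S (nat_lit 31924) (S (nat_lit 8798) (S (nat_lit 30286) (S (nat_lit 15323) (S (nat_lit 5629) (L (nat_lit 5092042))
(L (nat_lit 20133700)))
(L (nat_lit 17475396)))
(S (nat_lit 51537) (L (nat_lit 9294960))
(L (nat_lit 10999685))))
(S (nat_lit 28562) (S (nat_lit 42427) (S (nat_lit 42184) (L (nat_lit 12398707))
(L (nat_lit 18605281)))
(S (nat_lit 47805) (S (nat_lit 54851) (S (nat_lit 52708) (S (nat_lit 52686) (L (nat_lit 19770784))
(L (nat_lit 19342363)))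
(L (nat_lit 18678067)))
(L (nat_lit 19358980)))
(L (nat_lit 17983083))))
(S (nat_lit 48326) (S (nat_lit 57094) (S (nat_lit 21045) (S (nat_lit 36835) (S (nat_lit 1096) (L (nat_lit 26528160))
(L (nat_lit 12048261)))
(L (nat_lit 6142227)))
(S (nat_lit 49817) (S (nat_lit 36835) (L (nat_lit 30495948))
(L (nat_lit 18027160)))
(L (nat_lit 11630221))))
(L (nat_lit 11285651)))
(L (nat_lit 25563411)))))
(S (nat_lit 51688) (S (nat_lit 8762) (S (nat_lit 18715) (S (nat_lit 45495) (L (nat_lit 2314093))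
(S (nat_lit 52697) (S (nat_lit 23220) (L (nat_lit 6080845))
(L (nat_lit 18074437)))
(L (nat_lit 18092914))))
(S (nat_lit 25692) (S (nat_lit 24477) (L (nat_lit 15987859))
(L (nat_lit 24683364)))
(L (nat_lit 24678251))))
(S (nat_lit 28526) (S (nat_lit 7853) (S (nat_lit 28571) (S (nat_lit 32922) (L (nat_lit 28936433))
(L (nat_lit 10390253)))
(L (nat_lit 9273935)))
(S (nat_lit 27617) (S (nat_lit 34288) (L (nat_lit 24318365))
(S (nat_lit 42984) (S (nat_lit 24201) (S (nat_lit 22018) (L (nat_lit 17402698))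
(L (nat_lit 13476981)))
(L (nat_lit 17670163)))
(L (nat_lit 24145418))))
(S (nat_lit 47381) (S (nat_lit 13950) (L (nat_lit 11179545))
(S (nat_lit 22018) (S (nat_lit 18715) (S (nat_lit 30246) (L (nat_lit 2446876))
(L (nat_lit 12593012)))
(L (nat_lit 18524219)))
(L (nat_lit 2860812))))
(L (nat_lit 25871714)))))
(S (nat_lit 48290) (S (nat_lit 17055) (S (nat_lit 30775) (S (nat_lit 19820) (L (nat_lit 24288141))
(L (nat_lit 2672891)))
(L (nat_lit 10270839)))
(S (nat_lit 36819) (S (nat_lit 22018) (S (nat_lit 36835) (S (nat_lit 6589) (S (nat_lit 6591) (L (nat_lit 28353101))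
(L (nat_lit 8245357)))
(L (nat_lit 12870679)))
(L (nat_lit 23963045)))
(L (nat_lit 2544957)))
(S (nat_lit 56583) (S (nat_lit 39556) (S (nat_lit 15374) (S (nat_lit 6077) (L (nat_lit 10373132))
(L (nat_lit 9931575)))
(L (nat_lit 22521636)))
(L (nat_lit 18140002)))
(L (nat_lit 25579874)))))
(L (nat_lit 25366067)))))
(L (nat_lit 25353488)))))
(S (nat_lit 50537) (S (nat_lit 9996) (S (nat_lit 17574) (S (nat_lit 5591) (S (nat_lit 17544) (S (nat_lit 41255) (S (nat_lit 4431) (S (nat_lit 35138) (S (nat_lit 4437) (L (nat_lit 5655366))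
(L (nat_lit 18784833)))
(L (nat_lit 18418937)))
(L (nat_lit 18761831)))
(L (nat_lit 17141527)))
(L (nat_lit 17920615)))
(S (nat_lit 25355) (S (nat_lit 39571) (S (nat_lit 19235) (S (nat_lit 54840) (S (nat_lit 4437) (L (nat_lit 26782304))
(L (nat_lit 18188921)))
(L (nat_lit 4910631)))
(L (nat_lit 24979598)))
(S (nat_lit 43783) (S (nat_lit 43468) (L (nat_lit 3875289))
(L (nat_lit 9329120)))
(L (nat_lit 18523289))))
(S (nat_lit 45119) (S (nat_lit 14844) (S (nat_lit 28562) (S (nat_lit 50539) (L (nat_lit 24266505))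
(L (nat_lit 4569689)))
(L (nat_lit 24521636)))
(L (nat_lit 26578423)))
(L (nat_lit 25668162)))))
(S (nat_lit 37338) (S (nat_lit 1241) (S (nat_lit 18420) (S (nat_lit 54422) (S (nat_lit 37322) (L (nat_lit 12785586))
(L (nat_lit 9225364)))
(L (nat_lit 17884806)))
(S (nat_lit 30286) (S (nat_lit 26353) (S (nat_lit 1281) (L (nat_lit 28522080))
(L (nat_lit 8935269)))
(L (nat_lit 3631319)))
(L (nat_lit 13206840))))
(S (nat_lit 21005) (S (nat_lit 46108) (S (nat_lit 5591) (L (nat_lit 4073906))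
(L (nat_lit 3794471)))
(L (nat_lit 18077538)))
(S (nat_lit 40769) (S (nat_lit 32933) (S (nat_lit 8798) (L (nat_lit 22419272))
(L (nat_lit 17044309)))
(L (nat_lit 31041553)))
(L (nat_lit 25450577)))))
(S (nat_lit 57102) (S (nat_lit 16585) (S (nat_lit 52686) (S (nat_lit 54859) (S (nat_lit 43927) (L (nat_lit 28939504))
(L (nat_lit 11592085)))
(L (nat_lit 27306604)))
(L (nat_lit 12185612)))
(S (nat_lit 36349) (S (nat_lit 12668) (S (nat_lit 6077) (S (nat_lit 14894) (S (nat_lit 23218) (L (nat_lit 29937893))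
(L (nat_lit 18622148)))
(L (nat_lit 13833821)))
(L (nat_lit 2482798)))
(L (nat_lit 18440417)))
(S (nat_lit 56113) (S (nat_lit 7791) (S (nat_lit 8757) (L (nat_lit 2518262))
(L (nat_lit 23858414)))
(S (nat_lit 42601) (L (nat_lit 4629080))
(L (nat_lit 11287572))))
(L (nat_lit 25176499)))))
(L (nat_lit 25564743)))))
(S (nat_lit 29760) (S (nat_lit 8762) (S (nat_lit 7791) (S (nat_lit 26441) (L (nat_lit 4508526))
(S (nat_lit 54902) (S (nat_lit 39584) (S (nat_lit 25355) (S (nat_lit 13158) (L (nat_lit 16920405))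
(L (nat_lit 6776887)))
(L (nat_lit 11650681)))
(L (nat_lit 12119621)))
(L (nat_lit 6042282))))
(S (nat_lit 27555) (S (nat_lit 25559) (L (nat_lit 7421812))
(S (nat_lit 36349) (S (nat_lit 2195) (S (nat_lit 6115) (L (nat_lit 19933037))
(L (nat_lit 19306346)))
(L (nat_lit 6836133)))
(L (nat_lit 11617142))))
(S (nat_lit 47319) (S (nat_lit 47381) (S (nat_lit 39584) (S (nat_lit 50541) (S (nat_lit 54422) (S (nat_lit 4427) (S (nat_lit 21959) (S (nat_lit 36835) (L (nat_lit 4674347))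
(L (nat_lit 18493285)))
(L (nat_lit 30416621)))
(L (nat_lit 19737772)))
(L (nat_lit 7097393)))
(L (nat_lit 11998996)))
(L (nat_lit 18697226)))
(L (nat_lit 18057976)))
(L (nat_lit 25563752)))))
(S (nat_lit 28526) (S (nat_lit 215) (S (nat_lit 24191) (L (nat_lit 4846925))
(S (nat_lit 43955) (L (nat_lit 24581338))
(L (nat_lit 25702085))))
(S (nat_lit 4427) (S (nat_lit 30129) (L (nat_lit 4892121))
(S (nat_lit 39556) (S (nat_lit 6175) (L (nat_lit 4569015))
(S (nat_lit 39584) (S (nat_lit 46117) (S (nat_lit 54902) (S (nat_lit 53886) (S (nat_lit 19235) (L (nat_lit 10597114))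
(L (nat_lit 4738365)))
(L (nat_lit 10215469)))
(L (nat_lit 19743941)))
(L (nat_lit 28022798)))
(L (nat_lit 27406922))))
(L (nat_lit 4895964))))
(L (nat_lit 18700613))))
(S (nat_lit 48290) (S (nat_lit 13129) (S (nat_lit 30777) (S (nat_lit 28103) (S (nat_lit 54902) (S (nat_lit 4427) (S (nat_lit 47381) (S (nat_lit 39584) (S (nat_lit 36819) (S (nat_lit 10482) (S (nat_lit 42982) (L (nat_lit 12656469))
(L (nat_lit 24157964)))
(L (nat_lit 4448694)))
(L (nat_lit 13214594)))
(L (nat_lit 24278257)))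
(L (nat_lit 10077242)))
(L (nat_lit 6840228)))
(L (nat_lit 12127085)))
(L (nat_lit 30622739)))
(L (nat_lit 24460064)))
(S (nat_lit 32893) (S (nat_lit 36835) (S (nat_lit 54422) (S (nat_lit 19235) (L (nat_lit 4876840))
(L (nat_lit 4647590)))
(L (nat_lit 18506945)))
(S (nat_lit 39375) (L (nat_lit 22910188))
(L (nat_lit 30451276))))
(S (nat_lit 52657) (S (nat_lit 25393) (S (nat_lit 52686) (L (nat_lit 6884205))
(L (nat_lit 12270432)))
(S (nat_lit 53619) (L (nat_lit 5907372))
(L (nat_lit 11592333))))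
(L (nat_lit 25566786)))))
(L (nat_lit 25407605)))))
(S (nat_lit 49524) (S (nat_lit 14894) (S (nat_lit 2195) (S (nat_lit 36835) (S (nat_lit 1281) (S (nat_lit 6625) (L (nat_lit 26224273))
(L (nat_lit 13233379)))
(L (nat_lit 19949773)))
(L (nat_lit 20136056)))
(S (nat_lit 21959) (S (nat_lit 57102) (L (nat_lit 29401839))
(L (nat_lit 27863488)))
(S (nat_lit 41723) (S (nat_lit 10593) (L (nat_lit 26423318))
(S (nat_lit 36819) (S (nat_lit 52657) (L (nat_lit 17373098))
(L (nat_lit 4628310)))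
(L (nat_lit 11136080))))
(L (nat_lit 25217450)))))
(S (nat_lit 34658) (S (nat_lit 3456) (S (nat_lit 28) (S (nat_lit 2195) (S (nat_lit 19813) (S (nat_lit 17558) (S (nat_lit 19820) (L (nat_lit 6914456))
(L (nat_lit 30967402)))
(L (nat_lit 1434066)))
(L (nat_lit 16442472)))
(L (nat_lit 19358053)))
(S (nat_lit 22863) (L (nat_lit 19357867))
(L (nat_lit 20407304))))
(S (nat_lit 23220) (S (nat_lit 463) (L (nat_lit 30769840))
(S (nat_lit 25355) (S (nat_lit 4399) (S (nat_lit 28103) (L (nat_lit 15737467))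
(L (nat_lit 7924915)))
(L (nat_lit 20486057)))
(L (nat_lit 12111680))))
(S (nat_lit 42984) (S (nat_lit 3598) (L (nat_lit 7518875))
(S (nat_lit 4399) (S (nat_lit 3940) (S (nat_lit 34172) (L (nat_lit 20374752))
(L (nat_lit 11615090)))
(L (nat_lit 20168613)))
(L (nat_lit 7903157))))
(L (nat_lit 25398803)))))
(S (nat_lit 54422) (S (nat_lit 4452) (S (nat_lit 22018) (S (nat_lit 47319) (S (nat_lit 36819) (S (nat_lit 8764) (S (nat_lit 26355) (S (nat_lit 39556) (S (nat_lit 31924) (S (nat_lit 8762) (S (nat_lit 50469) (L (nat_lit 26228295))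
(L (nat_lit 14878486)))
(S (nat_lit 32392) (L (nat_lit 22972654))
(S (nat_lit 38863) (L (nat_lit 3981590))
(L (nat_lit 21434186)))))
(L (nat_lit 6977057)))
(L (nat_lit 6069653)))
(L (nat_lit 4102646)))
(L (nat_lit 21760337)))
(L (nat_lit 30641838)))
(S (nat_lit 58089) (L (nat_lit 18651844))
(L (nat_lit 22916611))))
(S (nat_lit 41700) (L (nat_lit 18016499))
(L (nat_lit 18207869))))
(S (nat_lit 24216) (S (nat_lit 4460) (L (nat_lit 20982607))
(S (nat_lit 19820) (S (nat_lit 7853) (S (nat_lit 57086) (S (nat_lit 11013) (L (nat_lit 12757693))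
(L (nat_lit 18458777)))
(L (nat_lit 13458757)))
(L (nat_lit 11422769)))
(L (nat_lit 22577995))))
(S (nat_lit 43980) (S (nat_lit 17558) (S (nat_lit 28528) (L (nat_lit 4795248))
(L (nat_lit 12782205)))
(L (nat_lit 24502660)))
(L (nat_lit 25548943)))))
(L (nat_lit 25214536)))))
(L (nat_lit 25532080)))))
(L (nat_lit 25351404)))))
(S (nat_lit 49564) (S (nat_lit 16569) (S (nat_lit 13180) (S (nat_lit 13169) (S (nat_lit 6580) (S (nat_lit 21959) (S (nat_lit 46119) (S (nat_lit 4399) (L (nat_lit 28510959))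
(L (nat_lit 19985773)))
(L (nat_lit 20197467)))
(L (nat_lit 21830829)))
(S (nat_lit 26344) (S (nat_lit 17055) (L (nat_lit 2679061))
(S (nat_lit 24772) (L (nat_lit 11339469))
(L (nat_lit 12257040))))
(S (nat_lit 46108) (S (nat_lit 24201) (S (nat_lit 19807) (S (nat_lit 35095) (S (nat_lit 26389) (L (nat_lit 15921768))
(L (nat_lit 24704226)))
(L (nat_lit 18074370)))
(L (nat_lit 10245667)))
(L (nat_lit 9134127)))
(L (nat_lit 25401038)))))
(S (nat_lit 32933) (S (nat_lit 17071) (S (nat_lit 17544) (S (nat_lit 30705) (S (nat_lit 30741) (L (nat_lit 7932785))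
(L (nat_lit 8839776)))
(L (nat_lit 24364896)))
(L (nat_lit 26495392)))
(S (nat_lit 36835) (S (nat_lit 22667) (S (nat_lit 22424) (S (nat_lit 1727) (L (nat_lit 2991822))
(L (nat_lit 26821891)))
(L (nat_lit 14770454)))
(S (nat_lit 28041) (S (nat_lit 41255) (L (nat_lit 26664041))
(L (nat_lit 3530266)))
(L (nat_lit 14999670))))
(S (nat_lit 56599) (S (nat_lit 38934) (L (nat_lit 18419961))
(S (nat_lit 48292) (S (nat_lit 53886) (L (nat_lit 29400595))
(L (nat_lit 10324471)))
(L (nat_lit 15771479))))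
(L (nat_lit 25287948)))))
(S (nat_lit 52697) (S (nat_lit 6596) (S (nat_lit 28571) (L (nat_lit 18048677))
(L (nat_lit 19373988)))
(S (nat_lit 26360) (S (nat_lit 56583) (S (nat_lit 23706) (S (nat_lit 30246) (S (nat_lit 30705) (L (nat_lit 29610436))
(L (nat_lit 24314737)))
(L (nat_lit 11064162)))
(L (nat_lit 11233796)))
(L (nat_lit 8413717)))
(S (nat_lit 46124) (S (nat_lit 18715) (S (nat_lit 34172) (L (nat_lit 8477553))
(L (nat_lit 16343328)))
(L (nat_lit 10609174)))
(L (nat_lit 25761968)))))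
(L (nat_lit 25282955)))))
(S (nat_lit 32944) (S (nat_lit 4431) (S (nat_lit 47051) (S (nat_lit 21162) (L (nat_lit 26661153))
(L (nat_lit 29792370)))
(S (nat_lit 48335) (S (nat_lit 34658) (S (nat_lit 8277) (S (nat_lit 39577) (S (nat_lit 24191) (S (nat_lit 54851) (S (nat_lit 34122) (S (nat_lit 52196) (S (nat_lit 53936) (S (nat_lit 8339) (S (nat_lit 40769) (L (nat_lit 2340444))
(L (nat_lit 17671874)))
(L (nat_lit 12251587)))
(L (nat_lit 21043984)))
(L (nat_lit 8416691)))
(L (nat_lit 11953763)))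
(L (nat_lit 12421743)))
(L (nat_lit 21272428)))
(L (nat_lit 24600834)))
(L (nat_lit 21365016)))
(L (nat_lit 20756582)))
(L (nat_lit 16515379))))
(S (nat_lit 24195) (S (nat_lit 6589) (S (nat_lit 21531) (S (nat_lit 27617) (S (nat_lit 52174) (L (nat_lit 8969401))
(L (nat_lit 8545933)))
(L (nat_lit 31038912)))
(L (nat_lit 21503748)))
(S (nat_lit 26353) (S (nat_lit 37330) (S (nat_lit 22018) (S (nat_lit 52196) (L (nat_lit 4607321))
(L (nat_lit 3489587)))
(L (nat_lit 30856451)))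
(L (nat_lit 8544723)))
(S (nat_lit 46117) (S (nat_lit 6115) (S (nat_lit 28521) (L (nat_lit 29903911))
(L (nat_lit 2827804)))
(L (nat_lit 9983840)))
(L (nat_lit 25237938)))))
(S (nat_lit 43959) (S (nat_lit 14844) (S (nat_lit 38479) (S (nat_lit 58763) (S (nat_lit 28521) (L (nat_lit 28389619))
(L (nat_lit 10292694)))
(L (nat_lit 14851954)))
(L (nat_lit 5056947)))
(S (nat_lit 34608) (S (nat_lit 28528) (S (nat_lit 13158) (L (nat_lit 9242034))
(L (nat_lit 24977824)))
(S (nat_lit 48265) (L (nat_lit 16871115))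
(L (nat_lit 24977580))))
(S (nat_lit 54372) (S (nat_lit 27617) (S (nat_lit 42982) (L (nat_lit 13784842))
(L (nat_lit 24681561)))
(L (nat_lit 31033801)))
(L (nat_lit 25249387)))))
(L (nat_lit 25543794)))))
(S (nat_lit 52708) (S (nat_lit 1281) (S (nat_lit 39577) (S (nat_lit 34658) (S (nat_lit 38479) (S (nat_lit 28103) (S (nat_lit 52657) (L (nat_lit 28330289))
(L (nat_lit 10540569)))
(L (nat_lit 10546643)))
(L (nat_lit 12291608)))
(L (nat_lit 23650561)))
(S (nat_lit 41360) (L (nat_lit 9175475))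
(L (nat_lit 6183368))))
(S (nat_lit 21045) (S (nat_lit 8410) (S (nat_lit 16612) (L (nat_lit 5628375))
(L (nat_lit 18175908)))
(S (nat_lit 34658) (S (nat_lit 39577) (S (nat_lit 18749) (S (nat_lit 52686) (S (nat_lit 42982) (L (nat_lit 25009265))
(L (nat_lit 16089852)))
(L (nat_lit 11996023)))
(L (nat_lit 18717344)))
(L (nat_lit 23388270)))
(L (nat_lit 5807986))))
(S (nat_lit 40809) (S (nat_lit 18715) (S (nat_lit 28571) (S (nat_lit 41295) (S (nat_lit 6115) (L (nat_lit 16553298))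
(L (nat_lit 15978683)))
(L (nat_lit 17869618)))
(L (nat_lit 18521179)))
(S (nat_lit 38479) (S (nat_lit 15353) (S (nat_lit 3454) (S (nat_lit 24191) (S (nat_lit 39584) (S (nat_lit 54902) (L (nat_lit 21862820))
(L (nat_lit 16588820)))
(L (nat_lit 18216517)))
(L (nat_lit 22974796)))
(L (nat_lit 17495110)))
(S (nat_lit 35009) (S (nat_lit 36241) (L (nat_lit 18017928))
(L (nat_lit 17749284)))
(L (nat_lit 874923))))
(S (nat_lit 58243) (S (nat_lit 43470) (S (nat_lit 30246) (S (nat_lit 32410) (L (nat_lit 9306578))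
(L (nat_lit 8215629)))
(L (nat_lit 24351598)))
(L (nat_lit 27698323)))
(L (nat_lit 25928100)))))
(L (nat_lit 25696307)))))
(L (nat_lit 25351657)))))
(S (nat_lit 36333) (S (nat_lit 15353) (S (nat_lit 6589) (S (nat_lit 15331) (S (nat_lit 40809) (S (nat_lit 28562) (S (nat_lit 19807) (S (nat_lit 32410) (S (nat_lit 50541) (L (nat_lit 28358281))
(L (nat_lit 22882689)))
(L (nat_lit 325328)))
(L (nat_lit 10244610)))
(L (nat_lit 10020420)))
(S (nat_lit 47208) (L (nat_lit 648398))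
(L (nat_lit 23594203))))
(S (nat_lit 35095) (S (nat_lit 35087) (S (nat_lit 14408) (S (nat_lit 38513) (S (nat_lit 36835) (S (nat_lit 57094) (S (nat_lit 27617) (L (nat_lit 5680829))
(L (nat_lit 1681169)))
(L (nat_lit 27927728)))
(L (nat_lit 13477445)))
(L (nat_lit 23213403)))
(L (nat_lit 12609844)))
(L (nat_lit 13438667)))
(S (nat_lit 54859) (S (nat_lit 43468) (S (nat_lit 29760) (S (nat_lit 54902) (L (nat_lit 29065639))
(L (nat_lit 27928069)))
(L (nat_lit 17879914)))
(L (nat_lit 14344234)))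
(L (nat_lit 25634899)))))
(S (nat_lit 26353) (S (nat_lit 7853) (S (nat_lit 6077) (S (nat_lit 46153) (S (nat_lit 47805) (S (nat_lit 40769) (L (nat_lit 9834137))
(L (nat_lit 18457690)))
(L (nat_lit 20356157)))
(L (nat_lit 22881698)))
(L (nat_lit 18190941)))
(S (nat_lit 27617) (S (nat_lit 24201) (S (nat_lit 28562) (S (nat_lit 45157) (S (nat_lit 56583) (S (nat_lit 2254) (S (nat_lit 13150) (L (nat_lit 24190493))
(L (nat_lit 1776059)))
(L (nat_lit 1561883)))
(L (nat_lit 1696203)))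
(L (nat_lit 2642140)))
(L (nat_lit 17913770)))
(L (nat_lit 13994588)))
(S (nat_lit 47381) (S (nat_lit 12668) (L (nat_lit 18539691))
(L (nat_lit 26813859)))
(L (nat_lit 25854407)))))
(S (nat_lit 46117) (S (nat_lit 13169) (S (nat_lit 42982) (S (nat_lit 21045) (S (nat_lit 24201) (S (nat_lit 45157) (L (nat_lit 28619396))
(L (nat_lit 7493052)))
(L (nat_lit 14361628)))
(L (nat_lit 11630034)))
(L (nat_lit 24165628)))
(S (nat_lit 32933) (S (nat_lit 35087) (S (nat_lit 18749) (S (nat_lit 37322) (L (nat_lit 2417140))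
(L (nat_lit 9291332)))
(L (nat_lit 16357564)))
(L (nat_lit 9455538)))
(S (nat_lit 52697) (S (nat_lit 47485) (L (nat_lit 8881074))
(S (nat_lit 56113) (S (nat_lit 21045) (L (nat_lit 3464634))
(L (nat_lit 11621292)))
(L (nat_lit 2414009))))
(L (nat_lit 25804997)))))
(L (nat_lit 25919881)))))
(S (nat_lit 35117) (S (nat_lit 4437) (S (nat_lit 18706) (L (nat_lit 10108837))
(S (nat_lit 42875) (S (nat_lit 4431) (L (nat_lit 13197382))
(L (nat_lit 16457568)))
(L (nat_lit 13543104))))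
(S (nat_lit 24201) (S (nat_lit 19807) (S (nat_lit 30741) (S (nat_lit 32432) (S (nat_lit 56583) (S (nat_lit 47805) (S (nat_lit 16585) (S (nat_lit 14408) (S (nat_lit 5629) (L (nat_lit 8411576))
(L (nat_lit 10938516)))
(L (nat_lit 3725565)))
(L (nat_lit 5857707)))
(L (nat_lit 8833149)))
(L (nat_lit 9027428)))
(L (nat_lit 31172003)))
(L (nat_lit 19670464)))
(L (nat_lit 15476419)))
(S (nat_lit 43965) (S (nat_lit 19807) (S (nat_lit 52686) (L (nat_lit 29926421))
(L (nat_lit 18452326)))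
(L (nat_lit 10390222)))
(L (nat_lit 25895456)))))
(S (nat_lit 54881) (S (nat_lit 56) (S (nat_lit 3456) (S (nat_lit 3454) (S (nat_lit 11009) (S (nat_lit 18749) (L (nat_lit 23562523))
(L (nat_lit 11357292)))
(L (nat_lit 18762948)))
(L (nat_lit 26916065)))
(S (nat_lit 23220) (S (nat_lit 23704) (S (nat_lit 10977) (S (nat_lit 9996) (S (nat_lit 46124) (L (nat_lit 4758136))
(L (nat_lit 22343172)))
(L (nat_lit 21389322)))
(L (nat_lit 26527921)))
(L (nat_lit 419530)))
(S (nat_lit 42984) (S (nat_lit 6077) (S (nat_lit 19792) (S (nat_lit 46153) (S (nat_lit 40769) (L (nat_lit 5501458))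
(L (nat_lit 27895330)))
(L (nat_lit 27895170)))
(L (nat_lit 22977954)))
(L (nat_lit 9528908)))
(L (nat_lit 25597202)))))
(S (nat_lit 19820) (S (nat_lit 3942) (S (nat_lit 24201) (S (nat_lit 56583) (S (nat_lit 42982) (S (nat_lit 12160) (L (nat_lit 215918))
(L (nat_lit 21771524)))
(L (nat_lit 25044452)))
(L (nat_lit 15748011)))
(L (nat_lit 17508160)))
(S (nat_lit 23706) (S (nat_lit 24201) (S (nat_lit 10977) (S (nat_lit 36835) (S (nat_lit 43468) (L (nat_lit 30838131))
(L (nat_lit 24952000)))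
(L (nat_lit 11307601)))
(L (nat_lit 18425728)))
(L (nat_lit 22423360)))
(S (nat_lit 43470) (S (nat_lit 8762) (S (nat_lit 54902) (S (nat_lit 3454) (S (nat_lit 24201) (L (nat_lit 13403346))
(L (nat_lit 17508160)))
(L (nat_lit 19277732)))
(L (nat_lit 27928069)))
(S (nat_lit 24712) (L (nat_lit 26815661))
(L (nat_lit 23292292))))
(L (nat_lit 25921904)))))
(S (nat_lit 39584) (S (nat_lit 11013) (S (nat_lit 47805) (S (nat_lit 35087) (S (nat_lit 12160) (S (nat_lit 14408) (L (nat_lit 3913547))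
(L (nat_lit 5488562)))
(L (nat_lit 18663748)))
(L (nat_lit 18080356)))
(S (nat_lit 52017) (L (nat_lit 23214919))
(L (nat_lit 18205506))))
(S (nat_lit 30777) (S (nat_lit 37338) (S (nat_lit 24201) (S (nat_lit 17558) (L (nat_lit 24033446))
(L (nat_lit 18441540)))
(L (nat_lit 17508160)))
(L (nat_lit 17163447)))
(S (nat_lit 50541) (S (nat_lit 28228) (L (nat_lit 5467726))
(S (nat_lit 57086) (S (nat_lit 47867) (L (nat_lit 30000299))
(L (nat_lit 27821395)))
(L (nat_lit 12336708))))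
(L (nat_lit 25864640)))))
(L (nat_lit 25343562)))))
(L (nat_lit 25450671)))))
(S (nat_lit 56097) (S (nat_lit 8277) (S (nat_lit 15323) (S (nat_lit 17558) (S (nat_lit 26360) (L (nat_lit 14770795))
(L (nat_lit 16522853)))
(S (nat_lit 37322) (S (nat_lit 24195) (S (nat_lit 24201) (S (nat_lit 42982) (S (nat_lit 18749) (L (nat_lit 4410936))
(L (nat_lit 18049202)))
(L (nat_lit 10119249)))
(L (nat_lit 10270305)))
(L (nat_lit 10185121)))
(S (nat_lit 57086) (S (nat_lit 21005) (S (nat_lit 46117) (L (nat_lit 21294592))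
(L (nat_lit 10945241)))
(L (nat_lit 11928281)))
(L (nat_lit 25648452)))))
(S (nat_lit 35087) (S (nat_lit 35138) (S (nat_lit 25393) (S (nat_lit 35095) (L (nat_lit 16386986))
(L (nat_lit 2642857)))
(L (nat_lit 22405633)))
(L (nat_lit 9593362)))
(S (nat_lit 54851) (S (nat_lit 23218) (S (nat_lit 34122) (S (nat_lit 52697) (S (nat_lit 25393) (L (nat_lit 19073969))
(L (nat_lit 21132806)))
(L (nat_lit 11625137)))
(L (nat_lit 11928343)))
(S (nat_lit 48921) (L (nat_lit 6807670))
(L (nat_lit 21118269))))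
(L (nat_lit 25188906)))))
(S (nat_lit 28041) (S (nat_lit 15331) (S (nat_lit 8807) (S (nat_lit 15312) (S (nat_lit 15323) (S (nat_lit 30705) (S (nat_lit 28) (S (nat_lit 13180) (L (nat_lit 24615845))
(L (nat_lit 24503406)))
(L (nat_lit 8192405)))
(L (nat_lit 25035143)))
(L (nat_lit 24578332)))
(L (nat_lit 14934135)))
(S (nat_lit 28571) (S (nat_lit 12668) (S (nat_lit 2254) (S (nat_lit 27617) (S (nat_lit 34658) (S (nat_lit 52686) (S (nat_lit 19820) (S (nat_lit 50050) (S (nat_lit 4431) (S (nat_lit 15323) (L (nat_lit 26902896))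
(L (nat_lit 22252399)))
(L (nat_lit 7045561)))
(L (nat_lit 14263205)))
(L (nat_lit 9581399)))
(L (nat_lit 19376033)))
(L (nat_lit 23290401)))
(L (nat_lit 15311931)))
(L (nat_lit 8087628)))
(L (nat_lit 17846620)))
(S (nat_lit 48335) (S (nat_lit 22018) (S (nat_lit 38513) (S (nat_lit 10482) (S (nat_lit 32944) (L (nat_lit 29774114))
(L (nat_lit 16116322)))
(L (nat_lit 9855030)))
(L (nat_lit 13792532)))
(L (nat_lit 22536450)))
(L (nat_lit 25510468)))))
(S (nat_lit 35095) (S (nat_lit 8807) (S (nat_lit 12668) (S (nat_lit 24201) (S (nat_lit 19807) (S (nat_lit 26360) (S (nat_lit 50010) (L (nat_lit 28352108))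
(L (nat_lit 16076923)))
(L (nat_lit 16489316)))
(L (nat_lit 3461998)))
(L (nat_lit 10215969)))
(L (nat_lit 9964403)))
(S (nat_lit 28571) (S (nat_lit 4223) (L (nat_lit 10137724))
(S (nat_lit 52708) (S (nat_lit 4431) (S (nat_lit 39577) (S (nat_lit 21990) (S (nat_lit 4452) (L (nat_lit 29545841))
(L (nat_lit 26547667)))
(L (nat_lit 17948946)))
(L (nat_lit 25045103)))
(L (nat_lit 19259808)))
(L (nat_lit 27794550))))
(S (nat_lit 48335) (S (nat_lit 39577) (S (nat_lit 11011) (S (nat_lit 28103) (S (nat_lit 4431) (L (nat_lit 18699272))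
(L (nat_lit 16489561)))
(L (nat_lit 7391155)))
(L (nat_lit 16651849)))
(L (nat_lit 10576526)))
(L (nat_lit 25788970)))))
(S (nat_lit 54859) (S (nat_lit 17574) (S (nat_lit 20102) (L (nat_lit 16550166))
(S (nat_lit 41255) (S (nat_lit 34658) (S (nat_lit 5591) (L (nat_lit 3592007))
(L (nat_lit 16525920)))
(L (nat_lit 16553608)))
(L (nat_lit 17916182))))
(S (nat_lit 37338) (S (nat_lit 10941) (S (nat_lit 34172) (S (nat_lit 35076) (S (nat_lit 2254) (S (nat_lit 15323) (S (nat_lit 5591) (L (nat_lit 3361180))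
(L (nat_lit 11133038)))
(L (nat_lit 799339)))
(L (nat_lit 15443067)))
(L (nat_lit 18701600)))
(L (nat_lit 16330592)))
(L (nat_lit 23290241)))
(S (nat_lit 57102) (S (nat_lit 12668) (S (nat_lit 4431) (S (nat_lit 41255) (S (nat_lit 5591) (L (nat_lit 24971786))
(L (nat_lit 5850397)))
(L (nat_lit 27870465)))
(S (nat_lit 34694) (L (nat_lit 13881467))
(L (nat_lit 19236377))))
(S (nat_lit 52052) (L (nat_lit 11309590))
(L (nat_lit 2351637))))
(L (nat_lit 25311879)))))
(L (nat_lit 25859464)))))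
(S (nat_lit 47805) (S (nat_lit 12668) (S (nat_lit 15353) (S (nat_lit 56583) (S (nat_lit 21990) (S (nat_lit 19807) (S (nat_lit 18715) (L (nat_lit 9197741))
(L (nat_lit 5949291)))
(L (nat_lit 22816291)))
(L (nat_lit 22317466)))
(L (nat_lit 7037070)))
(S (nat_lit 35117) (S (nat_lit 21971) (S (nat_lit 34227) (S (nat_lit 21959) (S (nat_lit 28103) (L (nat_lit 13266091))
(L (nat_lit 640249)))
(L (nat_lit 9259181)))
(L (nat_lit 18449290)))
(L (nat_lit 3398477)))
(S (nat_lit 54881) (S (nat_lit 52686) (L (nat_lit 4827020))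
(L (nat_lit 18555965)))
(L (nat_lit 25791978)))))
(S (nat_lit 32432) (S (nat_lit 13129) (S (nat_lit 6920) (L (nat_lit 21402941))
(S (nat_lit 18715) (S (nat_lit 56583) (S (nat_lit 24191) (S (nat_lit 36835) (S (nat_lit 35138) (L (nat_lit 3795335))
(L (nat_lit 10279428)))
(L (nat_lit 7768669)))
(L (nat_lit 21063020)))
(L (nat_lit 27278645)))
(L (nat_lit 8578579))))
(S (nat_lit 32893) (S (nat_lit 15312) (S (nat_lit 1767) (L (nat_lit 15982611))
(L (nat_lit 9485171)))
(S (nat_lit 54696) (L (nat_lit 6704032))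
(L (nat_lit 24371312))))
(S (nat_lit 52657) (S (nat_lit 27504) (S (nat_lit 44044) (L (nat_lit 5709563))
(L (nat_lit 18549084)))
(S (nat_lit 57086) (S (nat_lit 16522) (L (nat_lit 29905067))
(L (nat_lit 21216379)))
(L (nat_lit 5625676))))
(L (nat_lit 25860271)))))
(S (nat_lit 52196) (S (nat_lit 32770) (L (nat_lit 24359036))
(S (nat_lit 50505) (S (nat_lit 37322) (S (nat_lit 54851) (L (nat_lit 16490681))
(L (nat_lit 27724395)))
(L (nat_lit 20103018)))
(L (nat_lit 22471847))))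
(L (nat_lit 25937121)))))
(L (nat_lit 25475748)))))
(L (nat_lit 25579624)))))
(L (nat_lit 25185734)))))

theorem rb183_5 : run 4 lb183 [] tb183_5 kb183 (P4 4 743 0 4082 6403 1 2 0 0) [] = true := by
  decide +kernel

noncomputable def ta7_1 : Tr :=
(S (nat_lit 260) (S (nat_lit 1) (S (nat_lit 1304) (S (nat_lit 3270) (S (nat_lit 5435) (S (nat_lit 6536) (L (nat_lit 318509))
(L (nat_lit 468706)))
(S (nat_lit 6182) (L (nat_lit 360884))
(L (nat_lit 145650))))
(L (nat_lit 363062)))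
(S (nat_lit 3518) (S (nat_lit 2111) (S (nat_lit 107) (S (nat_lit 2) (L (nat_lit 735238))
(L (nat_lit 411690)))
(L (nat_lit 416810)))
(S (nat_lit 4325) (S (nat_lit 2181) (S (nat_lit 37) (L (nat_lit 73139))
(L (nat_lit 479459)))
(S (nat_lit 2519) (S (nat_lit 5786) (S (nat_lit 5862) (L (nat_lit 462101))
(L (nat_lit 262581)))
(L (nat_lit 145992)))
(L (nat_lit 402083))))
(S (nat_lit 6539) (S (nat_lit 2181) (L (nat_lit 493812))
(S (nat_lit 4314) (S (nat_lit 1450) (L (nat_lit 280225))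
(L (nat_lit 219652)))
(L (nat_lit 729135))))
(L (nat_lit 599182)))))
(S (nat_lit 5732) (S (nat_lit 3268) (L (nat_lit 112918))
(L (nat_lit 211095)))
(L (nat_lit 594127)))))
(S (nat_lit 2215) (S (nat_lit 6) (S (nat_lit 2111) (S (nat_lit 7) (S (nat_lit 5481) (L (nat_lit 689608))
(L (nat_lit 309986)))
(L (nat_lit 400099)))
(S (nat_lit 4325) (S (nat_lit 1790) (S (nat_lit 0) (L (nat_lit 689705))
(L (nat_lit 51436)))
(L (nat_lit 561399)))
(S (nat_lit 6539) (S (nat_lit 4004) (L (nat_lit 20969))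
(L (nat_lit 544993)))
(L (nat_lit 593132)))))
(S (nat_lit 2220) (S (nat_lit 0) (S (nat_lit 4327) (L (nat_lit 395943))
(L (nat_lit 53453)))
(S (nat_lit 2214) (S (nat_lit 3518) (S (nat_lit 6539) (L (nat_lit 726535))
(L (nat_lit 658668)))
(L (nat_lit 186790)))
(S (nat_lit 4428) (S (nat_lit 4697) (S (nat_lit 2111) (L (nat_lit 462131))
(L (nat_lit 116972)))
(L (nat_lit 661031)))
(L (nat_lit 596385)))))
(S (nat_lit 4434) (S (nat_lit 1790) (S (nat_lit 2483) (S (nat_lit 4326) (L (nat_lit 433302))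
(L (nat_lit 149097)))
(L (nat_lit 87561)))
(S (nat_lit 4004) (S (nat_lit 746) (S (nat_lit 4327) (L (nat_lit 147145))
(L (nat_lit 250241)))
(L (nat_lit 209047)))
(S (nat_lit 6218) (S (nat_lit 2112) (L (nat_lit 343747))
(L (nat_lit 182729)))
(L (nat_lit 598401)))))
(L (nat_lit 597536)))))
(S (nat_lit 4429) (S (nat_lit 2108) (S (nat_lit 3) (S (nat_lit 5) (S (nat_lit 4535) (L (nat_lit 724241))
(L (nat_lit 377411)))
(L (nat_lit 198134)))
(S (nat_lit 2217) (S (nat_lit 6) (S (nat_lit 3267) (L (nat_lit 153127))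
(L (nat_lit 577672)))
(L (nat_lit 394951)))
(S (nat_lit 4431) (S (nat_lit 4428) (S (nat_lit 3328) (S (nat_lit 4535) (L (nat_lit 118993))
(L (nat_lit 666737)))
(L (nat_lit 112887)))
(L (nat_lit 360855)))
(L (nat_lit 591116)))))
(S (nat_lit 4322) (S (nat_lit 1304) (S (nat_lit 2114) (L (nat_lit 628135))
(L (nat_lit 375895)))
(S (nat_lit 3518) (S (nat_lit 1434) (S (nat_lit 37) (L (nat_lit 265873))
(L (nat_lit 479459)))
(S (nat_lit 3567) (S (nat_lit 4327) (S (nat_lit 4724) (S (nat_lit 2969) (L (nat_lit 496978))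
(L (nat_lit 765071)))
(L (nat_lit 344641)))
(L (nat_lit 154055)))
(L (nat_lit 737507))))
(S (nat_lit 5732) (S (nat_lit 7) (L (nat_lit 426228))
(L (nat_lit 197327)))
(L (nat_lit 606403)))))
(S (nat_lit 6536) (S (nat_lit 1056) (S (nat_lit 4325) (S (nat_lit 4435) (L (nat_lit 770153))
(L (nat_lit 155177)))
(L (nat_lit 343091)))
(S (nat_lit 3270) (S (nat_lit 4432) (S (nat_lit 3518) (L (nat_lit 393524))
(L (nat_lit 348577)))
(L (nat_lit 578851)))
(S (nat_lit 5484) (S (nat_lit 4435) (S (nat_lit 4) (L (nat_lit 415847))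
(L (nat_lit 411939)))
(L (nat_lit 382498)))
(L (nat_lit 598030)))))
(L (nat_lit 601260)))))
(L (nat_lit 602306)))))
(S (nat_lit 2474) (S (nat_lit 5) (S (nat_lit 107) (S (nat_lit 4) (S (nat_lit 6) (S (nat_lit 1) (S (nat_lit 2108) (L (nat_lit 563349))
(L (nat_lit 576800)))
(L (nat_lit 399380)))
(L (nat_lit 399538)))
(S (nat_lit 2218) (S (nat_lit 453) (S (nat_lit 2) (L (nat_lit 431475))
(L (nat_lit 426231)))
(S (nat_lit 5732) (S (nat_lit 2) (L (nat_lit 691439))
(L (nat_lit 426231)))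
(L (nat_lit 199154))))
(S (nat_lit 4432) (S (nat_lit 4697) (S (nat_lit 5481) (L (nat_lit 263635))
(L (nat_lit 657866)))
(L (nat_lit 659760)))
(L (nat_lit 596451)))))
(S (nat_lit 2321) (S (nat_lit 6) (S (nat_lit 4326) (S (nat_lit 4325) (L (nat_lit 754218))
(L (nat_lit 437299)))
(L (nat_lit 437923)))
(S (nat_lit 2220) (S (nat_lit 1056) (L (nat_lit 155114))
(L (nat_lit 277156)))
(S (nat_lit 4434) (S (nat_lit 2960) (S (nat_lit 4327) (S (nat_lit 4326) (L (nat_lit 515393))
(L (nat_lit 429737)))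
(L (nat_lit 429735)))
(L (nat_lit 307876)))
(L (nat_lit 603489)))))
(S (nat_lit 4535) (S (nat_lit 746) (S (nat_lit 5183) (S (nat_lit 5481) (L (nat_lit 532503))
(L (nat_lit 434327)))
(L (nat_lit 151885)))
(S (nat_lit 2960) (S (nat_lit 1053) (S (nat_lit 1054) (S (nat_lit 755) (L (nat_lit 174669))
(L (nat_lit 548164)))
(L (nat_lit 74261)))
(L (nat_lit 74259)))
(S (nat_lit 5174) (S (nat_lit 1529) (L (nat_lit 738410))
(S (nat_lit 3268) (S (nat_lit 5697) (L (nat_lit 496359))
(L (nat_lit 639051)))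
(L (nat_lit 376983))))
(L (nat_lit 592205)))))
(L (nat_lit 606314)))))
(S (nat_lit 2219) (S (nat_lit 1304) (S (nat_lit 4) (S (nat_lit 4004) (S (nat_lit 4535) (L (nat_lit 729136))
(L (nat_lit 665712)))
(L (nat_lit 528691)))
(S (nat_lit 2218) (S (nat_lit 2216) (S (nat_lit 2215) (S (nat_lit 2483) (L (nat_lit 149809))
(L (nat_lit 496949)))
(L (nat_lit 479272)))
(L (nat_lit 479275)))
(S (nat_lit 4432) (S (nat_lit 3) (S (nat_lit 2960) (L (nat_lit 74228))
(L (nat_lit 84335)))
(L (nat_lit 210034)))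
(L (nat_lit 596078)))))
(S (nat_lit 3518) (S (nat_lit 1054) (S (nat_lit 1053) (S (nat_lit 2960) (L (nat_lit 459370))
(L (nat_lit 75189)))
(L (nat_lit 276563)))
(L (nat_lit 276565)))
(S (nat_lit 5732) (S (nat_lit 1057) (S (nat_lit 0) (L (nat_lit 175605))
(L (nat_lit 216449)))
(S (nat_lit 3271) (S (nat_lit 2214) (L (nat_lit 106999))
(L (nat_lit 766177)))
(S (nat_lit 5485) (S (nat_lit 0) (L (nat_lit 689543))
(L (nat_lit 427251)))
(L (nat_lit 606374)))))
(L (nat_lit 601507)))))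
(S (nat_lit 4433) (S (nat_lit 2112) (S (nat_lit 746) (S (nat_lit 4434) (S (nat_lit 2114) (L (nat_lit 51691))
(L (nat_lit 575680)))
(L (nat_lit 170572)))
(S (nat_lit 2960) (S (nat_lit 2055) (L (nat_lit 529717))
(S (nat_lit 4328) (S (nat_lit 4004) (L (nat_lit 363181))
(L (nat_lit 375925)))
(L (nat_lit 246803))))
(S (nat_lit 5174) (S (nat_lit 2215) (L (nat_lit 500853))
(L (nat_lit 498738)))
(L (nat_lit 607557)))))
(S (nat_lit 4326) (S (nat_lit 3) (S (nat_lit 1790) (S (nat_lit 4429) (L (nat_lit 347213))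
(L (nat_lit 144630)))
(L (nat_lit 149804)))
(S (nat_lit 2217) (S (nat_lit 4430) (S (nat_lit 2321) (L (nat_lit 179818))
(L (nat_lit 763953)))
(L (nat_lit 143572)))
(S (nat_lit 4431) (S (nat_lit 4432) (S (nat_lit 4322) (S (nat_lit 4832) (S (nat_lit 4428) (S (nat_lit 2969) (S (nat_lit 4430) (L (nat_lit 179883))
(L (nat_lit 667876)))
(L (nat_lit 562858)))
(L (nat_lit 656775)))
(L (nat_lit 479522)))
(L (nat_lit 547106)))
(L (nat_lit 548130)))
(L (nat_lit 603207)))))
(S (nat_lit 6540) (S (nat_lit 4) (S (nat_lit 2483) (L (nat_lit 460083))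
(L (nat_lit 468581)))
(S (nat_lit 2218) (S (nat_lit 4004) (L (nat_lit 78133))
(L (nat_lit 771113)))
(S (nat_lit 4432) (S (nat_lit 2221) (L (nat_lit 693520))
(L (nat_lit 88617)))
(L (nat_lit 597071)))))
(L (nat_lit 601105)))))
(L (nat_lit 590314)))))
(S (nat_lit 4688) (S (nat_lit 3) (S (nat_lit 1) (S (nat_lit 1057) (S (nat_lit 2186) (L (nat_lit 444522))
(S (nat_lit 6542) (S (nat_lit 4326) (L (nat_lit 397619))
(L (nat_lit 153993)))
(L (nat_lit 416840))))
(S (nat_lit 3271) (S (nat_lit 269) (S (nat_lit 4004) (L (nat_lit 467125))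
(L (nat_lit 758151)))
(S (nat_lit 2744) (S (nat_lit 122) (L (nat_lit 444587))
(L (nat_lit 173559)))
(L (nat_lit 629905))))
(S (nat_lit 5485) (S (nat_lit 3892) (L (nat_lit 186575))
(S (nat_lit 4325) (S (nat_lit 4327) (S (nat_lit 3559) (L (nat_lit 49894))
(L (nat_lit 638176)))
(L (nat_lit 55501)))
(L (nat_lit 48870))))
(L (nat_lit 592081)))))
(S (nat_lit 2215) (S (nat_lit 5174) (S (nat_lit 2064) (S (nat_lit 129) (L (nat_lit 624846))
(L (nat_lit 469170)))
(S (nat_lit 2206) (L (nat_lit 628013))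
(L (nat_lit 16626))))
(L (nat_lit 143946)))
(S (nat_lit 4429) (S (nat_lit 746) (S (nat_lit 3268) (S (nat_lit 4432) (L (nat_lit 54791))
(L (nat_lit 563907)))
(L (nat_lit 577611)))
(L (nat_lit 249999)))
(L (nat_lit 597410)))))
(S (nat_lit 2217) (S (nat_lit 2114) (S (nat_lit 80) (L (nat_lit 559478))
(S (nat_lit 3270) (S (nat_lit 3405) (L (nat_lit 110964))
(S (nat_lit 5482) (S (nat_lit 1304) (S (nat_lit 5930) (L (nat_lit 365013))
(L (nat_lit 202316)))
(L (nat_lit 299757)))
(L (nat_lit 312032))))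
(L (nat_lit 180598))))
(S (nat_lit 4328) (S (nat_lit 2108) (S (nat_lit 2969) (S (nat_lit 4432) (L (nat_lit 536261))
(L (nat_lit 155081)))
(L (nat_lit 299507)))
(S (nat_lit 4322) (S (nat_lit 4697) (S (nat_lit 4327) (S (nat_lit 2969) (L (nat_lit 515300))
(L (nat_lit 765413)))
(L (nat_lit 446535)))
(L (nat_lit 528690)))
(S (nat_lit 6536) (S (nat_lit 4004) (S (nat_lit 4428) (L (nat_lit 140942))
(L (nat_lit 152967)))
(L (nat_lit 430389)))
(L (nat_lit 593198)))))
(S (nat_lit 6542) (S (nat_lit 1054) (S (nat_lit 2215) (S (nat_lit 1056) (S (nat_lit 4433) (L (nat_lit 137654))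
(S (nat_lit 6281) (S (nat_lit 1575) (L (nat_lit 263703))
(L (nat_lit 671970)))
(L (nat_lit 144690))))
(L (nat_lit 84522)))
(L (nat_lit 86441)))
(S (nat_lit 6524) (L (nat_lit 76338))
(L (nat_lit 141900))))
(L (nat_lit 605376)))))
(S (nat_lit 4431) (S (nat_lit 1056) (S (nat_lit 1044) (L (nat_lit 144724))
(S (nat_lit 4328) (S (nat_lit 1054) (S (nat_lit 4429) (S (nat_lit 5174) (S (nat_lit 2321) (L (nat_lit 729169))
(L (nat_lit 757258)))
(L (nat_lit 176498)))
(L (nat_lit 361134)))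
(S (nat_lit 4901) (L (nat_lit 628138))
(L (nat_lit 461140))))
(L (nat_lit 245344))))
(S (nat_lit 3270) (S (nat_lit 1502) (L (nat_lit 177492))
(S (nat_lit 5482) (S (nat_lit 1304) (S (nat_lit 746) (S (nat_lit 4428) (L (nat_lit 118314))
(L (nat_lit 655750)))
(L (nat_lit 250029)))
(L (nat_lit 309987)))
(L (nat_lit 297708))))
(S (nat_lit 5484) (S (nat_lit 1132) (L (nat_lit 210102))
(S (nat_lit 2114) (S (nat_lit 1763) (L (nat_lit 736392))
(S (nat_lit 3268) (S (nat_lit 1304) (S (nat_lit 3104) (L (nat_lit 21898))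
(L (nat_lit 245346)))
(L (nat_lit 470721)))
(L (nat_lit 172748))))
(L (nat_lit 108236))))
(L (nat_lit 606218)))))
(L (nat_lit 596044)))))
(L (nat_lit 596517)))))

theorem ra7_1 : run 3 la7 [] ta7_1 ka7 (P4 3 44 359 386 359 0 0 1 0) [] = true := by
  decide +kernel

noncomputable def ta7_3 : Tr :=
(L (nat_lit 604385))

theorem ra7_3 : run 3 la7 [] ta7_3 ka7 (P4 3 44 359 386 359 0 1 0 0) [] = true := by
  decide +kernel

noncomputable def tb80_0 : Tr :=
(L (nat_lit 25770210))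

theorem rb80_0 : run 4 lb80 [] tb80_0 kb80 (P4 4 5681 1059 6270 1059 0 0 0 1) [] = true := by
  decide +kernel

noncomputable def tb180_3 : Tr :=
(L (nat_lit 25833761))

theorem rb180_3 : run 4 lb180 [] tb180_3 kb180 (P4 4 4791 2836 6347 2836 0 1 0 0) [] = true := by
  decide +kernel

noncomputable def ta14_2 : Tr :=
(L (nat_lit 605440))

theorem ra14_2 : run 3 la14 [] ta14_2 ka14 (P4 3 3 623 502 623 0 0 1 2) [] = true := by
  decide +kernel

noncomputable def ta39_0 : Tr :=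
(L (nat_lit 605442))

theorem ra39_0 : run 3 la39 [] ta39_0 ka39 (P4 3 490 0 695 490 0 0 0 1) [] = true := by
  decide +kernel

end Pool.Agent.MP_92191b_al.K3.E
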