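import Pool.Agent.MP_92191b_al.K3.CR8

/-! Refutation trees. -/

namespace Pool.Agent.MP_92191b_al.K3.E

open Tr

set_option maxRecDepth 100000

noncomputable def tb177_1 : Tr :=
(S (nat_lit 8057) (S (nat_lit 5642) (S (nat_lit 5135) (S (nat_lit 14582) (S (nat_lit 52) (S (nat_lit 7113) (S (nat_lit 6577) (S (nat_lit 13367) (L (nat_lit 8313872))
(L (nat_lit 13425802)))
(L (nat_lit 14474563)))
(S (nat_lit 26877) (S (nat_lit 13184) (S (nat_lit 1247) (L (nat_lit 13847461))
(L (nat_lit 26424375)))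
(L (nat_lit 13983652)))
(S (nat_lit 46641) (S (nat_lit 36796) (S (nat_lit 13145) (S (nat_lit 6577) (L (nat_lit 4504285))
(L (nat_lit 12836026)))
(L (nat_lit 26651732)))
(L (nat_lit 12962725)))
(L (nat_lit 25868581)))))
(S (nat_lit 19816) (S (nat_lit 17071) (S (nat_lit 7357) (S (nat_lit 12167) (S (nat_lit 11002) (S (nat_lit 8786) (L (nat_lit 8145317))
(L (nat_lit 1460477)))
(L (nat_lit 387602)))
(L (nat_lit 3955948)))
(L (nat_lit 253775)))
(L (nat_lit 9887621)))
(S (nat_lit 39580) (S (nat_lit 12182) (S (nat_lit 8264) (S (nat_lit 8786) (S (nat_lit 52673) (L (nat_lit 1427219))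
(L (nat_lit 11952837)))
(L (nat_lit 23179484)))
(L (nat_lit 26644787)))
(L (nat_lit 26661058)))
(L (nat_lit 25826856)))))
(S (nat_lit 34346) (S (nat_lit 12224) (S (nat_lit 7291) (S (nat_lit 46105) (L (nat_lit 2894259))
(L (nat_lit 5678866)))
(S (nat_lit 27055) (S (nat_lit 46394) (L (nat_lit 30454003))
(L (nat_lit 11274771)))
(S (nat_lit 46819) (S (nat_lit 21053) (S (nat_lit 50463) (S (nat_lit 48338) (S (nat_lit 6591) (L (nat_lit 4480413))
(L (nat_lit 14516967)))
(L (nat_lit 11204004)))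
(L (nat_lit 20808231)))
(L (nat_lit 16613654)))
(L (nat_lit 25450543)))))
(S (nat_lit 31988) (S (nat_lit 4543) (L (nat_lit 18916856))
(S (nat_lit 48587) (S (nat_lit 46819) (S (nat_lit 56560) (S (nat_lit 48338) (S (nat_lit 21053) (L (nat_lit 23502725))
(L (nat_lit 12354161)))
(L (nat_lit 22872429)))
(L (nat_lit 1362732)))
(S (nat_lit 53299) (L (nat_lit 3911896))
(L (nat_lit 20359193))))
(L (nat_lit 10978197))))
(S (nat_lit 51752) (S (nat_lit 44279) (L (nat_lit 19368775))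
(S (nat_lit 46355) (S (nat_lit 26812) (S (nat_lit 27054) (S (nat_lit 46119) (L (nat_lit 20155248))
(L (nat_lit 20002694)))
(L (nat_lit 6685590)))
(S (nat_lit 50330) (L (nat_lit 892654))
(L (nat_lit 1497336))))
(L (nat_lit 20373515))))
(L (nat_lit 25415200)))))
(S (nat_lit 54110) (S (nat_lit 13433) (S (nat_lit 1289) (S (nat_lit 11002) (S (nat_lit 15362) (S (nat_lit 8315) (S (nat_lit 10274) (S (nat_lit 17070) (L (nat_lit 20881921))
(L (nat_lit 26663979)))
(L (nat_lit 515942)))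
(L (nat_lit 26676838)))
(L (nat_lit 1461131)))
(L (nat_lit 26682482)))
(S (nat_lit 53108) (L (nat_lit 20153262))
(L (nat_lit 20218640))))
(S (nat_lit 33197) (S (nat_lit 8081) (S (nat_lit 13184) (L (nat_lit 20218736))
(L (nat_lit 680305)))
(S (nat_lit 27845) (S (nat_lit 28094) (S (nat_lit 32948) (L (nat_lit 23077649))
(L (nat_lit 8979312)))
(L (nat_lit 15991731)))
(S (nat_lit 47609) (S (nat_lit 35075) (S (nat_lit 1289) (S (nat_lit 6591) (S (nat_lit 28823) (L (nat_lit 1483512))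
(L (nat_lit 696729)))
(L (nat_lit 892653)))
(L (nat_lit 20153104)))
(L (nat_lit 18056018)))
(L (nat_lit 25855496)))))
(S (nat_lit 52961) (S (nat_lit 13367) (S (nat_lit 17070) (S (nat_lit 27845) (S (nat_lit 29972) (S (nat_lit 54839) (L (nat_lit 21115101))
(L (nat_lit 19399928)))
(L (nat_lit 19806501)))
(L (nat_lit 19399462)))
(L (nat_lit 26818756)))
(S (nat_lit 33131) (S (nat_lit 49802) (S (nat_lit 33182) (L (nat_lit 19063152))
(L (nat_lit 9463314)))
(L (nat_lit 8545683)))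
(S (nat_lit 52895) (S (nat_lit 21053) (S (nat_lit 54905) (L (nat_lit 24552472))
(L (nat_lit 19260495)))
(L (nat_lit 1942934)))
(L (nat_lit 25384355)))))
(L (nat_lit 25513443)))))
(L (nat_lit 25212274)))))
(S (nat_lit 24899) (S (nat_lit 13145) (S (nat_lit 7290) (S (nat_lit 13367) (S (nat_lit 6577) (S (nat_lit 8042) (S (nat_lit 14582) (L (nat_lit 780715))
(L (nat_lit 12608166)))
(L (nat_lit 21403741)))
(L (nat_lit 435127)))
(S (nat_lit 33131) (S (nat_lit 46575) (S (nat_lit 1) (S (nat_lit 51) (S (nat_lit 6577) (L (nat_lit 6686364))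
(L (nat_lit 1493897)))
(L (nat_lit 12875457)))
(L (nat_lit 1466612)))
(L (nat_lit 453846)))
(S (nat_lit 52895) (S (nat_lit 8042) (S (nat_lit 47792) (S (nat_lit 6577) (L (nat_lit 23962704))
(L (nat_lit 26643831)))
(L (nat_lit 6740899)))
(L (nat_lit 26649156)))
(L (nat_lit 25238257)))))
(S (nat_lit 27054) (S (nat_lit 36795) (S (nat_lit 6577) (S (nat_lit 7357) (S (nat_lit 36796) (L (nat_lit 30056461))
(L (nat_lit 7818149)))
(L (nat_lit 26397131)))
(L (nat_lit 14436707)))
(L (nat_lit 11358596)))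
(S (nat_lit 46818) (S (nat_lit 8810) (S (nat_lit 10986) (S (nat_lit 50463) (S (nat_lit 27055) (L (nat_lit 28523573))
(L (nat_lit 6718173)))
(L (nat_lit 27755207)))
(L (nat_lit 6722486)))
(S (nat_lit 28574) (S (nat_lit 50515) (S (nat_lit 35141) (S (nat_lit 48587) (L (nat_lit 1880342))
(L (nat_lit 20377889)))
(L (nat_lit 20351257)))
(L (nat_lit 4631383)))
(S (nat_lit 48338) (S (nat_lit 46575) (L (nat_lit 18983323))
(L (nat_lit 20378727)))
(L (nat_lit 25336245)))))
(L (nat_lit 25900074)))))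
(S (nat_lit 32909) (S (nat_lit 6866) (S (nat_lit 6592) (S (nat_lit 48587) (S (nat_lit 7341) (S (nat_lit 50529) (L (nat_lit 15535719))
(L (nat_lit 13388033)))
(L (nat_lit 21440417)))
(L (nat_lit 14426851)))
(S (nat_lit 26356) (S (nat_lit 12509) (L (nat_lit 26808529))
(S (nat_lit 56574) (S (nat_lit 51752) (S (nat_lit 7099) (S (nat_lit 19830) (S (nat_lit 46575) (L (nat_lit 2374365))
(L (nat_lit 2765021)))
(L (nat_lit 4051245)))
(L (nat_lit 6812759)))
(L (nat_lit 13279136)))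
(L (nat_lit 13884324))))
(S (nat_lit 46120) (S (nat_lit 14633) (S (nat_lit 56560) (S (nat_lit 26591) (L (nat_lit 6080721))
(L (nat_lit 14937267)))
(L (nat_lit 6378380)))
(L (nat_lit 13866898)))
(L (nat_lit 25483375)))))
(S (nat_lit 26630) (S (nat_lit 8081) (S (nat_lit 17071) (S (nat_lit 28094) (S (nat_lit 46642) (S (nat_lit 46627) (S (nat_lit 39529) (S (nat_lit 6633) (S (nat_lit 32924) (S (nat_lit 30038) (L (nat_lit 10531453))
(L (nat_lit 18025235)))
(L (nat_lit 3438256)))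
(L (nat_lit 1700045)))
(L (nat_lit 23500857)))
(L (nat_lit 469625)))
(L (nat_lit 22396801)))
(L (nat_lit 11174673)))
(L (nat_lit 10411052)))
(S (nat_lit 27845) (S (nat_lit 36834) (S (nat_lit 48521) (L (nat_lit 26411539))
(L (nat_lit 22231969)))
(L (nat_lit 901333)))
(S (nat_lit 47609) (S (nat_lit 54890) (S (nat_lit 46355) (L (nat_lit 20148737))
(L (nat_lit 18049045)))
(L (nat_lit 12372452)))
(L (nat_lit 25362965)))))
(S (nat_lit 46394) (S (nat_lit 8081) (S (nat_lit 28094) (S (nat_lit 26341) (L (nat_lit 6801434))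
(L (nat_lit 15535474)))
(L (nat_lit 11174673)))
(S (nat_lit 27845) (S (nat_lit 11601) (L (nat_lit 30527853))
(S (nat_lit 50464) (S (nat_lit 4892) (S (nat_lit 39529) (S (nat_lit 28535) (S (nat_lit 47858) (S (nat_lit 17046) (L (nat_lit 9967291))
(L (nat_lit 15539938)))
(L (nat_lit 1915123)))
(L (nat_lit 3368339)))
(L (nat_lit 17407906)))
(L (nat_lit 3695894)))
(L (nat_lit 11043481))))
(S (nat_lit 47609) (S (nat_lit 6634) (S (nat_lit 26591) (L (nat_lit 26387859))
(L (nat_lit 224755)))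
(L (nat_lit 718216)))
(L (nat_lit 25723494)))))
(L (nat_lit 25506931)))))
(S (nat_lit 52673) (S (nat_lit 17071) (S (nat_lit 1232) (S (nat_lit 46575) (S (nat_lit 10986) (S (nat_lit 12182) (S (nat_lit 10208) (L (nat_lit 17936179))
(L (nat_lit 26589893)))
(L (nat_lit 3597523)))
(L (nat_lit 601009)))
(L (nat_lit 27709543)))
(S (nat_lit 20996) (S (nat_lit 50514) (S (nat_lit 46575) (S (nat_lit 12182) (S (nat_lit 15377) (S (nat_lit 7290) (L (nat_lit 4471571))
(L (nat_lit 21375001)))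
(L (nat_lit 7793252)))
(L (nat_lit 21401447)))
(L (nat_lit 17462439)))
(L (nat_lit 22470823)))
(S (nat_lit 40760) (S (nat_lit 46575) (S (nat_lit 30750) (S (nat_lit 19765) (S (nat_lit 7290) (L (nat_lit 8402554))
(L (nat_lit 1714617)))
(L (nat_lit 9857635)))
(L (nat_lit 19141018)))
(L (nat_lit 27694727)))
(L (nat_lit 25449552)))))
(S (nat_lit 36835) (S (nat_lit 8993) (S (nat_lit 27055) (S (nat_lit 13367) (L (nat_lit 7785349))
(L (nat_lit 8118659)))
(L (nat_lit 18934155)))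
(S (nat_lit 28757) (S (nat_lit 26591) (L (nat_lit 5468780))
(L (nat_lit 5456661)))
(S (nat_lit 48521) (S (nat_lit 20996) (L (nat_lit 453351))
(L (nat_lit 21427490)))
(L (nat_lit 25647243)))))
(S (nat_lit 56599) (S (nat_lit 7290) (S (nat_lit 6634) (S (nat_lit 5208) (L (nat_lit 26907018))
(L (nat_lit 28810944)))
(L (nat_lit 12915418)))
(S (nat_lit 12318) (L (nat_lit 12785369))
(L (nat_lit 348569))))
(L (nat_lit 25208246)))))
(L (nat_lit 25571012)))))
(S (nat_lit 44663) (S (nat_lit 10936) (S (nat_lit 11002) (S (nat_lit 11001) (S (nat_lit 7357) (S (nat_lit 1) (S (nat_lit 15362) (L (nat_lit 4644219))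
(L (nat_lit 26528165)))
(L (nat_lit 26233256)))
(L (nat_lit 26757474)))
(S (nat_lit 30765) (S (nat_lit 44420) (S (nat_lit 19765) (L (nat_lit 6319509))
(L (nat_lit 9324962)))
(L (nat_lit 12372386)))
(S (nat_lit 50529) (L (nat_lit 5491131))
(L (nat_lit 25497167)))))
(S (nat_lit 30766) (S (nat_lit 5120) (L (nat_lit 7125700))
(L (nat_lit 15755975)))
(S (nat_lit 50530) (S (nat_lit 10259) (S (nat_lit 10935) (S (nat_lit 15311) (S (nat_lit 1) (S (nat_lit 32924) (S (nat_lit 30038) (S (nat_lit 14633) (L (nat_lit 18924797))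
(L (nat_lit 1918598)))
(L (nat_lit 7784537)))
(L (nat_lit 23864741)))
(L (nat_lit 26607828)))
(L (nat_lit 26902735)))
(L (nat_lit 26792128)))
(S (nat_lit 30023) (S (nat_lit 35126) (S (nat_lit 28550) (S (nat_lit 24656) (L (nat_lit 19107257))
(L (nat_lit 10242464)))
(L (nat_lit 19441541)))
(L (nat_lit 2899314)))
(S (nat_lit 49787) (S (nat_lit 39595) (S (nat_lit 17071) (L (nat_lit 10106904))
(L (nat_lit 26813856)))
(L (nat_lit 5777205)))
(L (nat_lit 25925807)))))
(L (nat_lit 25870594)))))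
(S (nat_lit 30700) (S (nat_lit 8771) (S (nat_lit 7047) (S (nat_lit 20996) (L (nat_lit 1501831))
(L (nat_lit 21427207)))
(S (nat_lit 31272) (L (nat_lit 30063973))
(L (nat_lit 26466691))))
(S (nat_lit 28535) (S (nat_lit 16912) (L (nat_lit 20167739))
(S (nat_lit 50463) (S (nat_lit 28094) (L (nat_lit 5455450))
(L (nat_lit 31104017)))
(L (nat_lit 13540374))))
(S (nat_lit 48299) (S (nat_lit 4892) (S (nat_lit 17071) (S (nat_lit 8042) (S (nat_lit 26811) (L (nat_lit 9223876))
(L (nat_lit 19306618)))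
(L (nat_lit 1734086)))
(L (nat_lit 26434668)))
(S (nat_lit 24656) (S (nat_lit 17071) (S (nat_lit 56559) (S (nat_lit 19830) (S (nat_lit 10208) (L (nat_lit 1711675))
(L (nat_lit 26589828)))
(L (nat_lit 22574336)))
(L (nat_lit 21925417)))
(L (nat_lit 26663975)))
(S (nat_lit 44420) (S (nat_lit 40775) (S (nat_lit 8786) (L (nat_lit 21832067))
(L (nat_lit 870639)))
(L (nat_lit 17438601)))
(L (nat_lit 25827744)))))
(L (nat_lit 25378533)))))
(S (nat_lit 50464) (S (nat_lit 12224) (S (nat_lit 30890) (S (nat_lit 50463) (L (nat_lit 13336792))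
(L (nat_lit 6209158)))
(S (nat_lit 47843) (S (nat_lit 5657) (S (nat_lit 33182) (S (nat_lit 50530) (S (nat_lit 8081) (S (nat_lit 49736) (L (nat_lit 29763140))
(L (nat_lit 9339411)))
(L (nat_lit 26366470)))
(L (nat_lit 5627324)))
(L (nat_lit 8580753)))
(L (nat_lit 26464674)))
(L (nat_lit 17852627))))
(S (nat_lit 31988) (S (nat_lit 7290) (S (nat_lit 29972) (S (nat_lit 24698) (S (nat_lit 13184) (S (nat_lit 17032) (L (nat_lit 29473510))
(L (nat_lit 26300652)))
(L (nat_lit 14017157)))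
(L (nat_lit 30769719)))
(L (nat_lit 13238585)))
(L (nat_lit 21397849)))
(S (nat_lit 51752) (S (nat_lit 67) (S (nat_lit 50463) (S (nat_lit 36811) (S (nat_lit 8264) (L (nat_lit 9858198))
(L (nat_lit 13412035)))
(L (nat_lit 12813206)))
(L (nat_lit 6209159)))
(S (nat_lit 19831) (S (nat_lit 30699) (S (nat_lit 19830) (L (nat_lit 30752389))
(L (nat_lit 10206113)))
(L (nat_lit 4079238)))
(S (nat_lit 39595) (S (nat_lit 10935) (S (nat_lit 7113) (L (nat_lit 12499988))
(L (nat_lit 26851367)))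
(L (nat_lit 26230407)))
(L (nat_lit 25338510)))))
(L (nat_lit 25416814)))))
(L (nat_lit 25836553)))))
(L (nat_lit 25378469)))))
(S (nat_lit 25406) (S (nat_lit 8993) (S (nat_lit 17071) (S (nat_lit 7290) (S (nat_lit 13184) (S (nat_lit 24884) (S (nat_lit 7114) (S (nat_lit 52) (L (nat_lit 15342437))
(L (nat_lit 12869506)))
(L (nat_lit 14572833)))
(L (nat_lit 13656374)))
(S (nat_lit 19751) (S (nat_lit 56598) (L (nat_lit 14293925))
(L (nat_lit 27540100)))
(L (nat_lit 582282))))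
(S (nat_lit 27054) (S (nat_lit 17031) (S (nat_lit 9044) (S (nat_lit 32924) (S (nat_lit 7047) (L (nat_lit 3596042))
(L (nat_lit 7098757)))
(L (nat_lit 20718981)))
(L (nat_lit 4518323)))
(L (nat_lit 11620761)))
(S (nat_lit 46818) (S (nat_lit 33182) (S (nat_lit 47843) (S (nat_lit 7291) (L (nat_lit 16803156))
(L (nat_lit 23332283)))
(L (nat_lit 20406465)))
(L (nat_lit 15468170)))
(L (nat_lit 25505814)))))
(S (nat_lit 36835) (S (nat_lit 6634) (S (nat_lit 7290) (S (nat_lit 19529) (L (nat_lit 23892361))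
(S (nat_lit 34296) (L (nat_lit 16804051))
(L (nat_lit 1858764))))
(S (nat_lit 13548) (L (nat_lit 12912344))
(L (nat_lit 1485528))))
(S (nat_lit 26398) (S (nat_lit 36795) (S (nat_lit 26811) (S (nat_lit 10935) (S (nat_lit 27845) (L (nat_lit 23888265))
(L (nat_lit 30953669)))
(L (nat_lit 7030560)))
(L (nat_lit 31070595)))
(S (nat_lit 43784) (L (nat_lit 6308569))
(L (nat_lit 320919))))
(S (nat_lit 46162) (S (nat_lit 15311) (S (nat_lit 44462) (L (nat_lit 4962520))
(L (nat_lit 483179)))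
(L (nat_lit 26230996)))
(L (nat_lit 25870345)))))
(S (nat_lit 56599) (S (nat_lit 10274) (S (nat_lit 17046) (S (nat_lit 31946) (S (nat_lit 36795) (S (nat_lit 56598) (S (nat_lit 19830) (S (nat_lit 46819) (S (nat_lit 52895) (L (nat_lit 5777051))
(L (nat_lit 21228929)))
(L (nat_lit 5697222)))
(L (nat_lit 10336896)))
(L (nat_lit 1564427)))
(L (nat_lit 870955)))
(L (nat_lit 2007475)))
(S (nat_lit 36810) (S (nat_lit 26507) (L (nat_lit 7529907))
(S (nat_lit 52895) (S (nat_lit 26356) (S (nat_lit 46575) (L (nat_lit 14589633))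
(L (nat_lit 259725)))
(L (nat_lit 15474402)))
(L (nat_lit 21196163))))
(S (nat_lit 56574) (S (nat_lit 31946) (S (nat_lit 19830) (S (nat_lit 54176) (S (nat_lit 36834) (S (nat_lit 27106) (L (nat_lit 28508630))
(L (nat_lit 15459554)))
(L (nat_lit 833813)))
(L (nat_lit 17392868)))
(L (nat_lit 10270835)))
(L (nat_lit 2014419)))
(L (nat_lit 25400789)))))
(S (nat_lit 30038) (S (nat_lit 13145) (S (nat_lit 31946) (S (nat_lit 50529) (S (nat_lit 1) (S (nat_lit 33131) (L (nat_lit 29561425))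
(L (nat_lit 31164842)))
(L (nat_lit 1679119)))
(L (nat_lit 12159791)))
(L (nat_lit 1817817)))
(S (nat_lit 32909) (S (nat_lit 33131) (S (nat_lit 31946) (S (nat_lit 46576) (S (nat_lit 39529) (L (nat_lit 1776557))
(L (nat_lit 23266716)))
(L (nat_lit 224663)))
(L (nat_lit 24319756)))
(L (nat_lit 20131931)))
(S (nat_lit 52673) (S (nat_lit 54176) (S (nat_lit 19765) (S (nat_lit 33182) (L (nat_lit 19766656))
(L (nat_lit 30918762)))
(L (nat_lit 3369397)))
(L (nat_lit 27474628)))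
(L (nat_lit 25182826)))))
(S (nat_lit 49802) (S (nat_lit 5591) (S (nat_lit 17032) (S (nat_lit 12167) (S (nat_lit 7357) (S (nat_lit 33182) (S (nat_lit 8042) (L (nat_lit 2613960))
(L (nat_lit 836851)))
(L (nat_lit 9357425)))
(L (nat_lit 1982182)))
(L (nat_lit 16566281)))
(L (nat_lit 26525376)))
(S (nat_lit 25355) (S (nat_lit 54176) (S (nat_lit 13367) (S (nat_lit 24884) (S (nat_lit 54905) (S (nat_lit 7048) (S (nat_lit 8042) (L (nat_lit 26976641))
(L (nat_lit 26646613)))
(L (nat_lit 21142939)))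
(L (nat_lit 5003819)))
(L (nat_lit 21466361)))
(L (nat_lit 6708993)))
(L (nat_lit 7146192)))
(S (nat_lit 45119) (S (nat_lit 54176) (S (nat_lit 13367) (S (nat_lit 10935) (S (nat_lit 47609) (S (nat_lit 7048) (S (nat_lit 21011) (L (nat_lit 12500677))
(L (nat_lit 21763280)))
(L (nat_lit 21372676)))
(L (nat_lit 4486769)))
(L (nat_lit 21463288)))
(L (nat_lit 26413460)))
(L (nat_lit 5060852)))
(L (nat_lit 25675881)))))
(L (nat_lit 25353455)))))
(L (nat_lit 25837824)))))
(S (nat_lit 28757) (S (nat_lit 67) (S (nat_lit 17032) (S (nat_lit 7291) (S (nat_lit 6634) (S (nat_lit 31946) (L (nat_lit 26812460))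
(L (nat_lit 1497307)))
(L (nat_lit 12973762)))
(S (nat_lit 27055) (S (nat_lit 56599) (S (nat_lit 39594) (S (nat_lit 49802) (S (nat_lit 46394) (S (nat_lit 7290) (L (nat_lit 2478862))
(L (nat_lit 14438721)))
(L (nat_lit 12323440)))
(L (nat_lit 14257032)))
(L (nat_lit 27435660)))
(S (nat_lit 58471) (L (nat_lit 3695859))
(L (nat_lit 14223641))))
(S (nat_lit 46819) (S (nat_lit 6634) (S (nat_lit 51752) (L (nat_lit 29959554))
(L (nat_lit 864967)))
(L (nat_lit 13825737)))
(L (nat_lit 25831842)))))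
(S (nat_lit 36796) (S (nat_lit 49876) (S (nat_lit 28823) (L (nat_lit 30640530))
(L (nat_lit 17868563)))
(S (nat_lit 56599) (S (nat_lit 13160) (S (nat_lit 46642) (S (nat_lit 7357) (S (nat_lit 8042) (L (nat_lit 13927133))
(L (nat_lit 1365841)))
(L (nat_lit 13888066)))
(L (nat_lit 22034713)))
(L (nat_lit 1909140)))
(L (nat_lit 21084441))))
(S (nat_lit 56560) (S (nat_lit 10274) (S (nat_lit 21053) (S (nat_lit 6633) (S (nat_lit 11001) (S (nat_lit 66) (L (nat_lit 23620775))
(L (nat_lit 13994649)))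
(L (nat_lit 21334863)))
(L (nat_lit 21938369)))
(L (nat_lit 1306007)))
(S (nat_lit 30038) (S (nat_lit 31931) (S (nat_lit 46869) (L (nat_lit 3623227))
(L (nat_lit 10053804)))
(S (nat_lit 50888) (L (nat_lit 15568583))
(L (nat_lit 24240366))))
(S (nat_lit 49802) (S (nat_lit 48299) (L (nat_lit 31107460))
(L (nat_lit 27273619)))
(L (nat_lit 25307541)))))
(L (nat_lit 25631424)))))
(S (nat_lit 19831) (S (nat_lit 8264) (S (nat_lit 30751) (S (nat_lit 24884) (S (nat_lit 27120) (S (nat_lit 56599) (L (nat_lit 9210293))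
(L (nat_lit 1733836)))
(L (nat_lit 4045172)))
(L (nat_lit 20983193)))
(L (nat_lit 10216834)))
(S (nat_lit 28028) (S (nat_lit 24641) (S (nat_lit 39594) (S (nat_lit 51752) (S (nat_lit 52961) (L (nat_lit 6452629))
(L (nat_lit 21505923)))
(L (nat_lit 10302082)))
(L (nat_lit 27593357)))
(L (nat_lit 1308054)))
(S (nat_lit 47792) (S (nat_lit 10986) (S (nat_lit 33182) (S (nat_lit 15377) (S (nat_lit 10208) (L (nat_lit 28878468))
(L (nat_lit 12335749)))
(L (nat_lit 8023428)))
(L (nat_lit 16535873)))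
(L (nat_lit 7156385)))
(L (nat_lit 25899297)))))
(S (nat_lit 39595) (S (nat_lit 6592) (S (nat_lit 3573) (L (nat_lit 281053))
(S (nat_lit 51752) (S (nat_lit 32924) (S (nat_lit 56598) (L (nat_lit 14602467))
(L (nat_lit 1849929)))
(L (nat_lit 23346052)))
(L (nat_lit 485715))))
(S (nat_lit 26356) (S (nat_lit 8042) (S (nat_lit 48338) (S (nat_lit 56599) (S (nat_lit 54905) (L (nat_lit 19395592))
(L (nat_lit 12127023)))
(L (nat_lit 14439527)))
(L (nat_lit 6044021)))
(S (nat_lit 27806) (S (nat_lit 28550) (S (nat_lit 4892) (L (nat_lit 1334680))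
(L (nat_lit 19326242)))
(L (nat_lit 8805401)))
(S (nat_lit 47570) (S (nat_lit 13367) (S (nat_lit 9059) (S (nat_lit 56599) (S (nat_lit 6827) (S (nat_lit 56598) (S (nat_lit 12167) (S (nat_lit 7356) (L (nat_lit 1393459))
(L (nat_lit 13884505)))
(L (nat_lit 18180181)))
(L (nat_lit 1844814)))
(L (nat_lit 6747873)))
(L (nat_lit 14427717)))
(L (nat_lit 6337277)))
(L (nat_lit 24948811)))
(L (nat_lit 25185734)))))
(S (nat_lit 46120) (S (nat_lit 8081) (S (nat_lit 10986) (S (nat_lit 56598) (S (nat_lit 46162) (L (nat_lit 551223))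
(L (nat_lit 11692751)))
(L (nat_lit 14420619)))
(L (nat_lit 1356694)))
(S (nat_lit 27845) (S (nat_lit 39594) (S (nat_lit 31946) (S (nat_lit 7098) (L (nat_lit 28457267))
(L (nat_lit 14484135)))
(L (nat_lit 13854773)))
(L (nat_lit 6044295)))
(S (nat_lit 47609) (S (nat_lit 46642) (S (nat_lit 31931) (S (nat_lit 30699) (L (nat_lit 29577666))
(L (nat_lit 13882240)))
(L (nat_lit 12387795)))
(L (nat_lit 12335684)))
(L (nat_lit 25375893)))))
(L (nat_lit 25287144)))))
(L (nat_lit 25508981)))))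
(S (nat_lit 48521) (S (nat_lit 10987) (S (nat_lit 7342) (S (nat_lit 8810) (S (nat_lit 7357) (S (nat_lit 14648) (S (nat_lit 46642) (S (nat_lit 40760) (S (nat_lit 26877) (L (nat_lit 29440278))
(L (nat_lit 24198054)))
(L (nat_lit 906481)))
(L (nat_lit 22821000)))
(L (nat_lit 12807877)))
(L (nat_lit 21903714)))
(S (nat_lit 25479) (S (nat_lit 17448) (L (nat_lit 220573))
(L (nat_lit 21314469)))
(L (nat_lit 23214986))))
(S (nat_lit 27106) (S (nat_lit 874) (L (nat_lit 13659348))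
(S (nat_lit 33182) (S (nat_lit 7099) (L (nat_lit 21045166))
(L (nat_lit 7176814)))
(L (nat_lit 16461603))))
(S (nat_lit 46870) (S (nat_lit 5177) (S (nat_lit 8810) (S (nat_lit 8081) (L (nat_lit 26808838))
(L (nat_lit 23278780)))
(L (nat_lit 21347236)))
(S (nat_lit 24941) (S (nat_lit 7357) (S (nat_lit 39595) (L (nat_lit 29047011))
(L (nat_lit 28031235)))
(L (nat_lit 23214299)))
(S (nat_lit 44705) (S (nat_lit 8810) (S (nat_lit 40760) (L (nat_lit 26678614))
(L (nat_lit 277270)))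
(L (nat_lit 23411588)))
(L (nat_lit 25633846)))))
(L (nat_lit 25379491)))))
(S (nat_lit 30751) (S (nat_lit 8264) (S (nat_lit 24884) (S (nat_lit 54905) (S (nat_lit 46642) (S (nat_lit 56599) (S (nat_lit 48314) (S (nat_lit 40775) (L (nat_lit 19133488))
(L (nat_lit 2323927)))
(L (nat_lit 12455631)))
(L (nat_lit 27932775)))
(L (nat_lit 17587336)))
(L (nat_lit 12409220)))
(L (nat_lit 20983193)))
(L (nat_lit 2483605)))
(S (nat_lit 50515) (S (nat_lit 17047) (S (nat_lit 11365) (L (nat_lit 29724054))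
(S (nat_lit 50514) (S (nat_lit 1) (S (nat_lit 46120) (S (nat_lit 48314) (L (nat_lit 4416141))
(L (nat_lit 11618776)))
(L (nat_lit 12152259)))
(L (nat_lit 20145539)))
(L (nat_lit 12368480))))
(S (nat_lit 36811) (S (nat_lit 6577) (S (nat_lit 50514) (S (nat_lit 31988) (L (nat_lit 1777521))
(L (nat_lit 1304206)))
(L (nat_lit 12368480)))
(S (nat_lit 6982) (S (nat_lit 44705) (L (nat_lit 20178957))
(L (nat_lit 12835864)))
(L (nat_lit 1882729))))
(S (nat_lit 56575) (S (nat_lit 17179) (S (nat_lit 10287) (L (nat_lit 19711169))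
(L (nat_lit 11221017)))
(S (nat_lit 56599) (S (nat_lit 31988) (S (nat_lit 14648) (S (nat_lit 46642) (S (nat_lit 66) (S (nat_lit 7357) (S (nat_lit 50514) (S (nat_lit 14633) (S (nat_lit 48572) (S (nat_lit 7341) (S (nat_lit 37134) (S (nat_lit 3109) (D (nat_lit 8) (nat_lit 26267016) (nat_lit 7954817) (nat_lit 138583184389))
(L (nat_lit 10125722)))
(L (nat_lit 3058135)))
(L (nat_lit 10571660)))
(L (nat_lit 14397185)))
(L (nat_lit 631729)))
(L (nat_lit 20232961)))
(L (nat_lit 21281603)))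
(L (nat_lit 1817415)))
(L (nat_lit 20724001)))
(L (nat_lit 1981128)))
(L (nat_lit 1762636)))
(L (nat_lit 21772330))))
(L (nat_lit 25499377)))))
(L (nat_lit 25701986)))))
(L (nat_lit 25837761)))))
(S (nat_lit 45170) (S (nat_lit 5120) (S (nat_lit 28028) (S (nat_lit 7342) (S (nat_lit 6633) (S (nat_lit 36811) (S (nat_lit 7290) (S (nat_lit 51710) (S (nat_lit 44462) (S (nat_lit 8810) (S (nat_lit 8042) (S (nat_lit 46576) (S (nat_lit 40775) (S (nat_lit 33197) (S (nat_lit 13160) (S (nat_lit 46481) (S (nat_lit 36877) (S (nat_lit 19943) (D (nat_lit 8) (nat_lit 12937367) (nat_lit 9882370) (nat_lit 110595414016))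
(L (nat_lit 14227242)))
(L (nat_lit 28627121)))
(L (nat_lit 8140853)))
(L (nat_lit 22342052)))
(L (nat_lit 15505099)))
(L (nat_lit 23114631)))
(L (nat_lit 11234689)))
(L (nat_lit 13423845)))
(L (nat_lit 7525261)))
(L (nat_lit 13314976)))
(L (nat_lit 7394188)))
(L (nat_lit 1857930)))
(L (nat_lit 13377189)))
(S (nat_lit 26397) (S (nat_lit 8786) (S (nat_lit 36811) (S (nat_lit 14648) (S (nat_lit 10987) (S (nat_lit 28757) (L (nat_lit 12897092))
(L (nat_lit 19733645)))
(L (nat_lit 23146875)))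
(L (nat_lit 26393844)))
(L (nat_lit 12837011)))
(S (nat_lit 53223) (L (nat_lit 585972))
(L (nat_lit 1830125))))
(S (nat_lit 46161) (S (nat_lit 10208) (S (nat_lit 10987) (S (nat_lit 7341) (L (nat_lit 10278029))
(L (nat_lit 23570305)))
(L (nat_lit 1486738)))
(S (nat_lit 10856) (L (nat_lit 16895752))
(L (nat_lit 833909))))
(L (nat_lit 25512972)))))
(S (nat_lit 27106) (S (nat_lit 6866) (S (nat_lit 44405) (S (nat_lit 56575) (S (nat_lit 15377) (S (nat_lit 54176) (L (nat_lit 28725477))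
(L (nat_lit 6044916)))
(L (nat_lit 22374788)))
(L (nat_lit 14571655)))
(L (nat_lit 960204)))
(S (nat_lit 26630) (S (nat_lit 46302) (L (nat_lit 19703982))
(S (nat_lit 46626) (S (nat_lit 27055) (S (nat_lit 36835) (S (nat_lit 10936) (L (nat_lit 26260818))
(L (nat_lit 16537795)))
(L (nat_lit 30837383)))
(L (nat_lit 24163206)))
(L (nat_lit 778604))))
(S (nat_lit 46394) (S (nat_lit 36810) (S (nat_lit 56575) (S (nat_lit 51695) (L (nat_lit 18712885))
(L (nat_lit 12699962)))
(L (nat_lit 3972630)))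
(L (nat_lit 413579)))
(L (nat_lit 25285130)))))
(S (nat_lit 46870) (S (nat_lit 7047) (S (nat_lit 27845) (S (nat_lit 15377) (S (nat_lit 7113) (S (nat_lit 28094) (L (nat_lit 10375716))
(L (nat_lit 19437318)))
(L (nat_lit 13655879)))
(L (nat_lit 15296805)))
(S (nat_lit 42814) (L (nat_lit 5645020))
(L (nat_lit 15521958))))
(S (nat_lit 26811) (S (nat_lit 44405) (S (nat_lit 47570) (S (nat_lit 19815) (S (nat_lit 10987) (S (nat_lit 32909) (L (nat_lit 9328066))
(L (nat_lit 14882425)))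
(L (nat_lit 7958915)))
(L (nat_lit 9520858)))
(L (nat_lit 17459428)))
(L (nat_lit 963926)))
(S (nat_lit 46575) (S (nat_lit 15377) (S (nat_lit 28823) (S (nat_lit 17047) (S (nat_lit 36835) (L (nat_lit 3982707))
(L (nat_lit 30607948)))
(L (nat_lit 22421253)))
(L (nat_lit 19693962)))
(L (nat_lit 22472997)))
(L (nat_lit 25343190)))))
(L (nat_lit 25924107)))))
(L (nat_lit 11168129)))
(S (nat_lit 24884) (S (nat_lit 1289) (S (nat_lit 10935) (S (nat_lit 51710) (S (nat_lit 40775) (S (nat_lit 12224) (S (nat_lit 36835) (S (nat_lit 17047) (S (nat_lit 26862) (S (nat_lit 46641) (L (nat_lit 9466262))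
(L (nat_lit 805319)))
(L (nat_lit 24609574)))
(L (nat_lit 2732807)))
(L (nat_lit 23130535)))
(L (nat_lit 21000679)))
(L (nat_lit 27309703)))
(L (nat_lit 12636967)))
(S (nat_lit 30699) (S (nat_lit 7113) (S (nat_lit 9044) (S (nat_lit 56575) (S (nat_lit 31988) (S (nat_lit 8330) (L (nat_lit 28326162))
(L (nat_lit 13692149)))
(L (nat_lit 13705043)))
(L (nat_lit 27820342)))
(L (nat_lit 23082890)))
(L (nat_lit 12602183)))
(S (nat_lit 50463) (S (nat_lit 1247) (S (nat_lit 39580) (S (nat_lit 66) (S (nat_lit 26862) (S (nat_lit 48572) (L (nat_lit 26230471))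
(L (nat_lit 19939082)))
(L (nat_lit 8995619)))
(L (nat_lit 26937799)))
(L (nat_lit 11657935)))
(L (nat_lit 13689479)))
(L (nat_lit 25894432)))))
(S (nat_lit 21053) (S (nat_lit 7048) (S (nat_lit 7047) (L (nat_lit 4857240))
(L (nat_lit 21204376)))
(S (nat_lit 26812) (S (nat_lit 17047) (S (nat_lit 46641) (S (nat_lit 12224) (S (nat_lit 46819) (L (nat_lit 12675815))
(L (nat_lit 4923801)))
(L (nat_lit 15750951)))
(L (nat_lit 22035239)))
(S (nat_lit 36811) (S (nat_lit 45185) (S (nat_lit 30699) (S (nat_lit 7357) (L (nat_lit 30487766))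
(L (nat_lit 248655)))
(L (nat_lit 18890631)))
(L (nat_lit 12604295)))
(S (nat_lit 56575) (S (nat_lit 10935) (S (nat_lit 31988) (S (nat_lit 52895) (S (nat_lit 48521) (L (nat_lit 2662230))
(L (nat_lit 27480513)))
(L (nat_lit 27473633)))
(L (nat_lit 24143399)))
(L (nat_lit 23094823)))
(L (nat_lit 25347751)))))
(S (nat_lit 46576) (S (nat_lit 5591) (S (nat_lit 17032) (L (nat_lit 30628225))
(L (nat_lit 12371980)))
(S (nat_lit 25355) (S (nat_lit 51710) (S (nat_lit 7047) (L (nat_lit 5085804))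
(L (nat_lit 14458038)))
(L (nat_lit 449417)))
(S (nat_lit 45119) (S (nat_lit 6633) (S (nat_lit 47792) (L (nat_lit 1923464))
(L (nat_lit 22972808)))
(L (nat_lit 12916377)))
(L (nat_lit 25272940)))))
(L (nat_lit 25833668)))))
(S (nat_lit 40817) (S (nat_lit 12182) (S (nat_lit 6930) (L (nat_lit 547192))
(S (nat_lit 46626) (S (nat_lit 7290) (L (nat_lit 26259148))
(L (nat_lit 13328704)))
(L (nat_lit 513799))))
(S (nat_lit 31946) (S (nat_lit 33131) (S (nat_lit 10935) (L (nat_lit 21017479))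
(S (nat_lit 32753) (L (nat_lit 794316))
(L (nat_lit 247513))))
(S (nat_lit 44521) (L (nat_lit 18073753))
(L (nat_lit 221008))))
(S (nat_lit 51710) (S (nat_lit 7113) (S (nat_lit 25421) (S (nat_lit 50463) (S (nat_lit 44705) (S (nat_lit 1) (S (nat_lit 28863) (L (nat_lit 26416846))
(L (nat_lit 16535687)))
(L (nat_lit 12640469)))
(L (nat_lit 14838343)))
(L (nat_lit 22038375)))
(L (nat_lit 20996519)))
(S (nat_lit 26877) (S (nat_lit 48299) (S (nat_lit 51752) (S (nat_lit 46642) (L (nat_lit 28904839))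
(L (nat_lit 27347246)))
(L (nat_lit 19936167)))
(L (nat_lit 27274645)))
(S (nat_lit 46641) (S (nat_lit 36511) (L (nat_lit 28979335))
(S (nat_lit 36835) (S (nat_lit 11001) (S (nat_lit 26356) (S (nat_lit 7357) (S (nat_lit 36834) (L (nat_lit 10673562))
(L (nat_lit 7768887)))
(L (nat_lit 11012858)))
(L (nat_lit 18952504)))
(L (nat_lit 8260118)))
(L (nat_lit 501336))))
(L (nat_lit 25246278)))))
(L (nat_lit 25214537)))))
(L (nat_lit 25887143)))))
(S (nat_lit 44648) (S (nat_lit 10208) (S (nat_lit 1289) (S (nat_lit 40465) (L (nat_lit 12813016))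
(S (nat_lit 48299) (S (nat_lit 48587) (S (nat_lit 54110) (S (nat_lit 27055) (S (nat_lit 51752) (S (nat_lit 7048) (L (nat_lit 24494981))
(L (nat_lit 13405897)))
(L (nat_lit 12813016)))
(L (nat_lit 19202461)))
(L (nat_lit 6024582)))
(L (nat_lit 13674293)))
(L (nat_lit 5464469))))
(S (nat_lit 21053) (S (nat_lit 67) (S (nat_lit 31988) (L (nat_lit 17835675))
(L (nat_lit 1889767)))
(S (nat_lit 19831) (S (nat_lit 8264) (S (nat_lit 7098) (S (nat_lit 52688) (S (nat_lit 17070) (L (nat_lit 5097681))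
(L (nat_lit 22062520)))
(L (nat_lit 12270616)))
(L (nat_lit 13338968)))
(L (nat_lit 10259153)))
(S (nat_lit 39595) (S (nat_lit 51752) (S (nat_lit 36811) (S (nat_lit 40760) (L (nat_lit 14287719))
(L (nat_lit 23247689)))
(L (nat_lit 23086919)))
(L (nat_lit 15474304)))
(L (nat_lit 25344309)))))
(S (nat_lit 40817) (S (nat_lit 10259) (S (nat_lit 51752) (S (nat_lit 28550) (S (nat_lit 36811) (S (nat_lit 36796) (S (nat_lit 33197) (L (nat_lit 8239809))
(L (nat_lit 9962201)))
(L (nat_lit 23594762)))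
(L (nat_lit 23472965)))
(L (nat_lit 10247684)))
(L (nat_lit 9457210)))
(S (nat_lit 30023) (S (nat_lit 1) (S (nat_lit 7047) (L (nat_lit 19107257))
(L (nat_lit 23862381)))
(L (nat_lit 614792)))
(S (nat_lit 49787) (S (nat_lit 51695) (S (nat_lit 36796) (S (nat_lit 33131) (S (nat_lit 50515) (L (nat_lit 20875655))
(L (nat_lit 4809161)))
(L (nat_lit 9852739)))
(L (nat_lit 769799)))
(L (nat_lit 974279)))
(L (nat_lit 25513101)))))
(L (nat_lit 25418144)))))
(S (nat_lit 29972) (S (nat_lit 4892) (S (nat_lit 1247) (S (nat_lit 12123) (L (nat_lit 13912960))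
(S (nat_lit 51752) (S (nat_lit 8786) (L (nat_lit 8055856))
(L (nat_lit 8248365)))
(L (nat_lit 7824002))))
(S (nat_lit 21011) (S (nat_lit 1) (S (nat_lit 13433) (L (nat_lit 7930301))
(L (nat_lit 13687626)))
(L (nat_lit 18882318)))
(S (nat_lit 40775) (S (nat_lit 46818) (S (nat_lit 51710) (S (nat_lit 7357) (L (nat_lit 12743991))
(L (nat_lit 23366478)))
(L (nat_lit 27311687)))
(L (nat_lit 27309334)))
(L (nat_lit 25309863)))))
(S (nat_lit 24656) (S (nat_lit 15416) (L (nat_lit 12635482))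
(S (nat_lit 35126) (S (nat_lit 50530) (S (nat_lit 46642) (S (nat_lit 28550) (S (nat_lit 1) (S (nat_lit 8081) (L (nat_lit 29787719))
(L (nat_lit 23290000)))
(L (nat_lit 13207304)))
(L (nat_lit 10405572)))
(L (nat_lit 19932633)))
(L (nat_lit 13372137)))
(L (nat_lit 13389995))))
(S (nat_lit 44420) (S (nat_lit 51710) (S (nat_lit 7290) (S (nat_lit 36835) (S (nat_lit 7291) (S (nat_lit 7357) (L (nat_lit 9177804))
(L (nat_lit 21925231)))
(L (nat_lit 26880418)))
(L (nat_lit 30465228)))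
(L (nat_lit 21013260)))
(L (nat_lit 27304524)))
(L (nat_lit 25443970)))))
(S (nat_lit 49736) (S (nat_lit 6577) (S (nat_lit 15311) (S (nat_lit 56574) (S (nat_lit 44462) (L (nat_lit 7357145))
(L (nat_lit 27286766)))
(L (nat_lit 13639543)))
(S (nat_lit 35075) (S (nat_lit 49802) (L (nat_lit 9494040))
(L (nat_lit 27450607)))
(S (nat_lit 54839) (S (nat_lit 36835) (S (nat_lit 13480) (L (nat_lit 27278023))
(L (nat_lit 9954944)))
(L (nat_lit 7401910)))
(L (nat_lit 25378868)))))
(S (nat_lit 26341) (S (nat_lit 9044) (S (nat_lit 33182) (S (nat_lit 17047) (S (nat_lit 26863) (S (nat_lit 56574) (L (nat_lit 16328763))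
(L (nat_lit 8408944)))
(L (nat_lit 16346465)))
(L (nat_lit 14702907)))
(L (nat_lit 14692212)))
(S (nat_lit 28808) (S (nat_lit 51710) (S (nat_lit 30750) (S (nat_lit 26863) (S (nat_lit 36835) (L (nat_lit 5778259))
(L (nat_lit 894604)))
(L (nat_lit 10216462)))
(L (nat_lit 24669351)))
(L (nat_lit 28032041)))
(S (nat_lit 48572) (S (nat_lit 8264) (S (nat_lit 19765) (S (nat_lit 10936) (S (nat_lit 56599) (L (nat_lit 23115689))
(L (nat_lit 27305395)))
(L (nat_lit 516745)))
(L (nat_lit 8815224)))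
(S (nat_lit 38715) (L (nat_lit 9156794))
(L (nat_lit 10097052))))
(L (nat_lit 25176563)))))
(S (nat_lit 46105) (S (nat_lit 10987) (S (nat_lit 44405) (L (nat_lit 12592917))
(L (nat_lit 23302552)))
(S (nat_lit 56912) (S (nat_lit 48521) (L (nat_lit 1358524))
(L (nat_lit 22263896)))
(L (nat_lit 309882))))
(L (nat_lit 25582914)))))
(L (nat_lit 25821704)))))
(L (nat_lit 25725238)))))
(L (nat_lit 25320839)))))
(S (nat_lit 27821) (S (nat_lit 8771) (S (nat_lit 52) (S (nat_lit 7341) (S (nat_lit 7114) (S (nat_lit 13367) (S (nat_lit 10987) (S (nat_lit 8315) (S (nat_lit 14582) (S (nat_lit 10259) (L (nat_lit 30889220))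
(L (nat_lit 1667279)))
(L (nat_lit 26631460)))
(L (nat_lit 13891171)))
(L (nat_lit 6747287)))
(S (nat_lit 33131) (S (nat_lit 7098) (S (nat_lit 13145) (S (nat_lit 34346) (S (nat_lit 7357) (L (nat_lit 14364549))
(L (nat_lit 21282626)))
(L (nat_lit 3843984)))
(L (nat_lit 6321620)))
(L (nat_lit 14386054)))
(S (nat_lit 52895) (S (nat_lit 47858) (L (nat_lit 499421))
(L (nat_lit 6343569)))
(L (nat_lit 25923979)))))
(S (nat_lit 26878) (S (nat_lit 25355) (S (nat_lit 31931) (S (nat_lit 15362) (L (nat_lit 4709753))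
(L (nat_lit 22298501)))
(L (nat_lit 1977964)))
(L (nat_lit 6896761)))
(S (nat_lit 46642) (S (nat_lit 8315) (S (nat_lit 7098) (S (nat_lit 7099) (S (nat_lit 8081) (S (nat_lit 51695) (S (nat_lit 14633) (L (nat_lit 15833788))
(L (nat_lit 478118)))
(L (nat_lit 896620)))
(L (nat_lit 13281188)))
(L (nat_lit 6911521)))
(S (nat_lit 20187) (L (nat_lit 3975603))
(L (nat_lit 7947141))))
(S (nat_lit 28079) (S (nat_lit 10936) (S (nat_lit 13145) (S (nat_lit 10208) (L (nat_lit 1551004))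
(L (nat_lit 17564294)))
(L (nat_lit 8147397)))
(L (nat_lit 7388978)))
(S (nat_lit 47843) (S (nat_lit 31988) (S (nat_lit 56559) (S (nat_lit 28550) (S (nat_lit 46818) (S (nat_lit 20996) (L (nat_lit 12227097))
(L (nat_lit 7229952)))
(L (nat_lit 27271820)))
(L (nat_lit 12848793)))
(L (nat_lit 6774965)))
(L (nat_lit 6751125)))
(L (nat_lit 25182421)))))
(L (nat_lit 25713705)))))
(S (nat_lit 27105) (S (nat_lit 7099) (S (nat_lit 5642) (S (nat_lit 16857) (L (nat_lit 802410))
(S (nat_lit 46162) (S (nat_lit 13145) (S (nat_lit 26862) (L (nat_lit 1908278))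
(L (nat_lit 9194509)))
(L (nat_lit 1262420)))
(L (nat_lit 20726793))))
(S (nat_lit 25406) (S (nat_lit 13145) (S (nat_lit 26862) (L (nat_lit 11589177))
(L (nat_lit 24168231)))
(L (nat_lit 6341490)))
(S (nat_lit 45170) (S (nat_lit 13433) (S (nat_lit 24941) (S (nat_lit 10936) (L (nat_lit 14877554))
(L (nat_lit 245527)))
(L (nat_lit 17536347)))
(L (nat_lit 7957953)))
(L (nat_lit 25549184)))))
(S (nat_lit 26863) (S (nat_lit 1247) (S (nat_lit 26862) (S (nat_lit 27106) (S (nat_lit 52946) (S (nat_lit 27806) (L (nat_lit 15634805))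
(L (nat_lit 14732537)))
(L (nat_lit 21441345)))
(L (nat_lit 19391779)))
(L (nat_lit 24576380)))
(S (nat_lit 21011) (S (nat_lit 46626) (S (nat_lit 8993) (L (nat_lit 6751029))
(L (nat_lit 6774931)))
(L (nat_lit 27732052)))
(S (nat_lit 40775) (S (nat_lit 6577) (S (nat_lit 39579) (L (nat_lit 5712507))
(L (nat_lit 24587009)))
(L (nat_lit 7093426)))
(L (nat_lit 25212585)))))
(S (nat_lit 46627) (S (nat_lit 8993) (S (nat_lit 25421) (S (nat_lit 46870) (L (nat_lit 28529152))
(L (nat_lit 7803671)))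
(L (nat_lit 21454985)))
(S (nat_lit 28757) (S (nat_lit 29972) (S (nat_lit 5657) (S (nat_lit 10936) (L (nat_lit 16807559))
(L (nat_lit 807465)))
(L (nat_lit 19345218)))
(L (nat_lit 8011801)))
(S (nat_lit 48521) (S (nat_lit 20996) (S (nat_lit 12182) (L (nat_lit 22849025))
(L (nat_lit 16623763)))
(L (nat_lit 1654073)))
(L (nat_lit 25827777)))))
(L (nat_lit 25209518)))))
(S (nat_lit 46869) (S (nat_lit 4934) (S (nat_lit 13184) (S (nat_lit 6592) (S (nat_lit 15311) (S (nat_lit 10936) (S (nat_lit 11001) (S (nat_lit 25421) (L (nat_lit 373336))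
(L (nat_lit 1519382)))
(L (nat_lit 26691686)))
(L (nat_lit 7079568)))
(L (nat_lit 1809165)))
(S (nat_lit 7483) (L (nat_lit 761678))
(L (nat_lit 8212591))))
(S (nat_lit 51780) (L (nat_lit 19980620))
(L (nat_lit 680273))))
(S (nat_lit 24698) (S (nat_lit 6592) (S (nat_lit 14035) (L (nat_lit 22856843))
(S (nat_lit 46885) (S (nat_lit 17070) (S (nat_lit 13184) (S (nat_lit 1247) (S (nat_lit 52946) (L (nat_lit 18946557))
(L (nat_lit 1878672)))
(L (nat_lit 26257911)))
(L (nat_lit 680272)))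
(L (nat_lit 10029966)))
(L (nat_lit 8145346))))
(S (nat_lit 58905) (L (nat_lit 7853985))
(L (nat_lit 14410019))))
(S (nat_lit 44462) (S (nat_lit 6592) (S (nat_lit 11001) (S (nat_lit 44705) (S (nat_lit 46626) (S (nat_lit 13184) (S (nat_lit 15311) (S (nat_lit 10936) (S (nat_lit 34397) (S (nat_lit 33182) (S (nat_lit 10987) (S (nat_lit 13160) (S (nat_lit 25355) (S (nat_lit 49350) (S (nat_lit 30023) (S (nat_lit 27806) (S (nat_lit 33197) (S (nat_lit 55957) (S (nat_lit 4809) (S (nat_lit 7990) (D (nat_lit 8) (nat_lit 30755889) (nat_lit 25773316) (nat_lit 7558271077))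
(L (nat_lit 30910049)))
(L (nat_lit 23366169)))
(L (nat_lit 28825956)))
(L (nat_lit 16319403)))
(L (nat_lit 15754581)))
(L (nat_lit 24372367)))
(L (nat_lit 29048003)))
(L (nat_lit 17110651)))
(L (nat_lit 1785610)))
(L (nat_lit 7943043)))
(L (nat_lit 23871530)))
(L (nat_lit 23861765)))
(L (nat_lit 1303184)))
(L (nat_lit 17555652)))
(L (nat_lit 680272)))
(L (nat_lit 12012635)))
(L (nat_lit 9900634)))
(L (nat_lit 23555361)))
(S (nat_lit 56475) (L (nat_lit 478491))
(L (nat_lit 767291))))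
(L (nat_lit 25561303)))))
(L (nat_lit 25251117)))))
(S (nat_lit 19816) (S (nat_lit 15377) (S (nat_lit 7290) (S (nat_lit 4934) (S (nat_lit 13433) (S (nat_lit 32924) (S (nat_lit 30023) (L (nat_lit 21327020))
(L (nat_lit 7761509)))
(L (nat_lit 20711818)))
(S (nat_lit 28458) (L (nat_lit 8095533))
(L (nat_lit 7930332))))
(S (nat_lit 24698) (S (nat_lit 7047) (S (nat_lit 17070) (S (nat_lit 24941) (S (nat_lit 31988) (S (nat_lit 51) (L (nat_lit 5151340))
(L (nat_lit 1551097)))
(L (nat_lit 18887001)))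
(L (nat_lit 2416185)))
(L (nat_lit 14736601)))
(L (nat_lit 7098540)))
(S (nat_lit 44462) (S (nat_lit 10274) (S (nat_lit 51752) (S (nat_lit 10987) (S (nat_lit 33182) (S (nat_lit 10936) (L (nat_lit 9452340))
(L (nat_lit 26237481)))
(L (nat_lit 20726891)))
(L (nat_lit 1667465)))
(L (nat_lit 15369129)))
(L (nat_lit 26413461)))
(L (nat_lit 25647298)))))
(S (nat_lit 27054) (S (nat_lit 5657) (S (nat_lit 33182) (S (nat_lit 26811) (S (nat_lit 44462) (S (nat_lit 30750) (L (nat_lit 25013763))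
(L (nat_lit 18984817)))
(L (nat_lit 14704554)))
(L (nat_lit 19273542)))
(L (nat_lit 9193584)))
(S (nat_lit 25421) (S (nat_lit 6633) (S (nat_lit 51) (S (nat_lit 31946) (S (nat_lit 56599) (S (nat_lit 34346) (L (nat_lit 8516304))
(L (nat_lit 7756827)))
(L (nat_lit 6949372)))
(L (nat_lit 2019753)))
(L (nat_lit 6787801)))
(L (nat_lit 587398)))
(S (nat_lit 45185) (S (nat_lit 9059) (S (nat_lit 34412) (S (nat_lit 21870) (S (nat_lit 17070) (L (nat_lit 15945537))
(L (nat_lit 2384311)))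
(L (nat_lit 14938721)))
(L (nat_lit 15510213)))
(L (nat_lit 8263059)))
(L (nat_lit 25932994)))))
(S (nat_lit 46818) (S (nat_lit 7113) (S (nat_lit 6953) (L (nat_lit 13898580))
(S (nat_lit 7356) (S (nat_lit 51710) (L (nat_lit 14710502))
(L (nat_lit 7794242)))
(L (nat_lit 704330))))
(S (nat_lit 26877) (S (nat_lit 10987) (S (nat_lit 14648) (S (nat_lit 33131) (L (nat_lit 14912372))
(L (nat_lit 15621259)))
(L (nat_lit 12757876)))
(L (nat_lit 1668488)))
(S (nat_lit 46641) (S (nat_lit 13145) (S (nat_lit 6577) (S (nat_lit 14648) (L (nat_lit 16518420))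
(L (nat_lit 535380)))
(L (nat_lit 23083355)))
(L (nat_lit 706378)))
(L (nat_lit 25541780)))))
(L (nat_lit 25506432)))))
(S (nat_lit 35141) (S (nat_lit 17031) (S (nat_lit 28079) (S (nat_lit 30038) (S (nat_lit 5177) (S (nat_lit 1232) (L (nat_lit 4104912))
(L (nat_lit 3985959)))
(L (nat_lit 1832487)))
(S (nat_lit 49720) (S (nat_lit 40644) (L (nat_lit 19696010))
(L (nat_lit 13381221)))
(L (nat_lit 7835225))))
(L (nat_lit 30873717)))
(S (nat_lit 36795) (S (nat_lit 7341) (S (nat_lit 28550) (S (nat_lit 7098) (S (nat_lit 24884) (L (nat_lit 29016235))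
(L (nat_lit 22514937)))
(L (nat_lit 23527801)))
(L (nat_lit 18424889)))
(S (nat_lit 27105) (S (nat_lit 26862) (S (nat_lit 34397) (S (nat_lit 30699) (S (nat_lit 10936) (L (nat_lit 17569973))
(L (nat_lit 6972963)))
(L (nat_lit 9073184)))
(L (nat_lit 3401268)))
(L (nat_lit 24576380)))
(S (nat_lit 46869) (S (nat_lit 32924) (S (nat_lit 46626) (S (nat_lit 12182) (S (nat_lit 17032) (L (nat_lit 16964458))
(L (nat_lit 14754523)))
(L (nat_lit 23289900)))
(L (nat_lit 10966789)))
(L (nat_lit 20717957)))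
(L (nat_lit 25761290)))))
(S (nat_lit 56559) (S (nat_lit 1247) (S (nat_lit 45040) (L (nat_lit 1531161))
(S (nat_lit 47858) (S (nat_lit 26397) (S (nat_lit 15311) (S (nat_lit 48521) (S (nat_lit 30765) (L (nat_lit 2341532))
(L (nat_lit 9286772)))
(L (nat_lit 16685763)))
(L (nat_lit 6775860)))
(L (nat_lit 9277846)))
(L (nat_lit 6406037))))
(S (nat_lit 21011) (S (nat_lit 24641) (S (nat_lit 24884) (S (nat_lit 52895) (S (nat_lit 8081) (L (nat_lit 2549970))
(L (nat_lit 1270325)))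
(L (nat_lit 21205936)))
(L (nat_lit 6917593)))
(S (nat_lit 42190) (L (nat_lit 376727))
(L (nat_lit 1549049))))
(S (nat_lit 40775) (S (nat_lit 13418) (S (nat_lit 1) (L (nat_lit 4858429))
(L (nat_lit 6349205)))
(S (nat_lit 30367) (L (nat_lit 17376128))
(L (nat_lit 22286225))))
(L (nat_lit 25217392)))))
(L (nat_lit 25869483)))))
(S (nat_lit 54905) (S (nat_lit 13418) (S (nat_lit 10935) (S (nat_lit 7465) (L (nat_lit 7391677))
(S (nat_lit 46885) (S (nat_lit 7291) (S (nat_lit 46626) (L (nat_lit 15412003))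
(L (nat_lit 27724148)))
(L (nat_lit 20996518)))
(L (nat_lit 8141943))))
(L (nat_lit 7366196)))
(S (nat_lit 33182) (S (nat_lit 13483) (S (nat_lit 10935) (L (nat_lit 16624291))
(L (nat_lit 6350388)))
(S (nat_lit 34397) (S (nat_lit 27105) (S (nat_lit 26862) (S (nat_lit 15311) (S (nat_lit 26356) (S (nat_lit 10936) (S (nat_lit 30023) (S (nat_lit 56599) (L (nat_lit 3614362))
(L (nat_lit 19375164)))
(L (nat_lit 31003853)))
(L (nat_lit 1795624)))
(L (nat_lit 15276120)))
(L (nat_lit 7825125)))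
(L (nat_lit 30551604)))
(L (nat_lit 30609972)))
(L (nat_lit 15311653))))
(S (nat_lit 52946) (S (nat_lit 15311) (S (nat_lit 10936) (S (nat_lit 18869) (S (nat_lit 47843) (L (nat_lit 5020115))
(L (nat_lit 6752083)))
(S (nat_lit 31946) (S (nat_lit 47843) (L (nat_lit 30425300))
(L (nat_lit 6752083)))
(L (nat_lit 1667495))))
(S (nat_lit 50356) (L (nat_lit 1951985))
(L (nat_lit 1852626))))
(S (nat_lit 54731) (L (nat_lit 7932440))
(L (nat_lit 17587242))))
(L (nat_lit 25477170)))))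
(L (nat_lit 25347691)))))
(S (nat_lit 39580) (S (nat_lit 10274) (S (nat_lit 14633) (S (nat_lit 38651) (S (nat_lit 45991) (L (nat_lit 6436509))
(L (nat_lit 7093890)))
(S (nat_lit 46627) (S (nat_lit 26356) (S (nat_lit 11002) (L (nat_lit 1564028))
(L (nat_lit 478025)))
(L (nat_lit 24635464)))
(L (nat_lit 516712))))
(S (nat_lit 34397) (S (nat_lit 9059) (S (nat_lit 51695) (S (nat_lit 33182) (S (nat_lit 45119) (S (nat_lit 7098) (S (nat_lit 46120) (L (nat_lit 29469076))
(L (nat_lit 10999897)))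
(L (nat_lit 23364121)))
(L (nat_lit 575834)))
(L (nat_lit 14863146)))
(L (nat_lit 891283)))
(S (nat_lit 28823) (S (nat_lit 56560) (L (nat_lit 30580115))
(L (nat_lit 1941907)))
(S (nat_lit 48587) (S (nat_lit 8264) (L (nat_lit 26321299))
(L (nat_lit 2925971)))
(L (nat_lit 25539139)))))
(S (nat_lit 54161) (S (nat_lit 7113) (S (nat_lit 50529) (L (nat_lit 15616353))
(L (nat_lit 27412902)))
(S (nat_lit 26877) (L (nat_lit 14797606))
(S (nat_lit 46641) (L (nat_lit 16894886))
(L (nat_lit 25542211)))))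
(L (nat_lit 25238068)))))
(S (nat_lit 30038) (S (nat_lit 17032) (S (nat_lit 9059) (L (nat_lit 5089683))
(S (nat_lit 28823) (S (nat_lit 8192) (S (nat_lit 28550) (L (nat_lit 30808085))
(L (nat_lit 30707407)))
(S (nat_lit 16952) (L (nat_lit 30416277))
(L (nat_lit 7096709))))
(S (nat_lit 48587) (L (nat_lit 3974547))
(L (nat_lit 25216277)))))
(S (nat_lit 36796) (S (nat_lit 28823) (S (nat_lit 28094) (S (nat_lit 14941) (L (nat_lit 5873213))
(L (nat_lit 8207443)))
(S (nat_lit 45498) (L (nat_lit 12645587))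
(L (nat_lit 30620691))))
(L (nat_lit 827795)))
(S (nat_lit 56560) (S (nat_lit 31931) (S (nat_lit 47792) (S (nat_lit 28823) (S (nat_lit 17070) (S (nat_lit 10936) (S (nat_lit 25355) (S (nat_lit 1247) (L (nat_lit 16952060))
(L (nat_lit 12804738)))
(L (nat_lit 7224438)))
(L (nat_lit 1729000)))
(L (nat_lit 24384400)))
(L (nat_lit 9565587)))
(L (nat_lit 4107667)))
(L (nat_lit 6485395)))
(L (nat_lit 25935077)))))
(S (nat_lit 49802) (S (nat_lit 10259) (S (nat_lit 5470) (L (nat_lit 20409350))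
(S (nat_lit 9044) (S (nat_lit 48587) (S (nat_lit 46355) (S (nat_lit 10936) (S (nat_lit 6866) (S (nat_lit 26397) (S (nat_lit 1) (S (nat_lit 46818) (S (nat_lit 10986) (L (nat_lit 1328733))
(L (nat_lit 23964849)))
(L (nat_lit 20376897)))
(L (nat_lit 1482517)))
(L (nat_lit 19769729)))
(L (nat_lit 7451539)))
(L (nat_lit 671528)))
(L (nat_lit 3550101)))
(L (nat_lit 10544691)))
(L (nat_lit 16953237))))
(S (nat_lit 30023) (S (nat_lit 8042) (S (nat_lit 28550) (S (nat_lit 46394) (S (nat_lit 6827) (S (nat_lit 36811) (S (nat_lit 8993) (S (nat_lit 56599) (S (nat_lit 15311) (S (nat_lit 14582) (S (nat_lit 49849) (L (nat_lit 12869780))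
(L (nat_lit 17029893)))
(L (nat_lit 26269041)))
(L (nat_lit 26269194)))
(L (nat_lit 13741907)))
(L (nat_lit 14835923)))
(L (nat_lit 12776755)))
(L (nat_lit 12743987)))
(L (nat_lit 1612627)))
(L (nat_lit 30524661)))
(S (nat_lit 47462) (L (nat_lit 21463417))
(L (nat_lit 795216))))
(S (nat_lit 49787) (S (nat_lit 36810) (S (nat_lit 12182) (S (nat_lit 48572) (S (nat_lit 5120) (S (nat_lit 48587) (S (nat_lit 17071) (S (nat_lit 40817) (S (nat_lit 10936) (L (nat_lit 6963354))
(L (nat_lit 8085517)))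
(L (nat_lit 8085920)))
(L (nat_lit 26649651)))
(L (nat_lit 15790387)))
(L (nat_lit 1881801)))
(L (nat_lit 28027299)))
(L (nat_lit 5858727)))
(S (nat_lit 56520) (L (nat_lit 5491097))
(L (nat_lit 13369653))))
(L (nat_lit 25272943)))))
(L (nat_lit 25340495)))))
(L (nat_lit 25662153)))))
(S (nat_lit 28535) (S (nat_lit 8330) (S (nat_lit 7099) (S (nat_lit 8993) (S (nat_lit 7290) (S (nat_lit 10936) (S (nat_lit 44405) (S (nat_lit 1) (S (nat_lit 44462) (L (nat_lit 30808672))
(L (nat_lit 23093803)))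
(L (nat_lit 13853717)))
(L (nat_lit 250328)))
(S (nat_lit 40733) (S (nat_lit 24698) (L (nat_lit 13406954))
(L (nat_lit 1814777)))
(L (nat_lit 1855728))))
(L (nat_lit 21770561)))
(S (nat_lit 28757) (S (nat_lit 27704) (S (nat_lit 8264) (L (nat_lit 13785931))
(L (nat_lit 12323219)))
(S (nat_lit 29972) (S (nat_lit 56575) (S (nat_lit 31988) (S (nat_lit 28079) (S (nat_lit 48338) (S (nat_lit 8081) (S (nat_lit 36835) (S (nat_lit 13433) (S (nat_lit 7290) (S (nat_lit 7342) (L (nat_lit 7822492))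
(L (nat_lit 1812366)))
(L (nat_lit 8401684)))
(L (nat_lit 7465680)))
(L (nat_lit 30609907)))
(L (nat_lit 10387987)))
(L (nat_lit 6036979)))
(L (nat_lit 8307763)))
(L (nat_lit 17075091)))
(L (nat_lit 7029849)))
(L (nat_lit 12625811))))
(S (nat_lit 48521) (S (nat_lit 11002) (S (nat_lit 28008) (L (nat_lit 12627796))
(S (nat_lit 44663) (S (nat_lit 44420) (S (nat_lit 49736) (S (nat_lit 34397) (L (nat_lit 5620316))
(L (nat_lit 8089092)))
(L (nat_lit 13661830)))
(L (nat_lit 15616138)))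
(L (nat_lit 12798852))))
(S (nat_lit 30766) (S (nat_lit 50463) (S (nat_lit 17047) (L (nat_lit 18904614))
(L (nat_lit 15575123)))
(L (nat_lit 12809921)))
(S (nat_lit 50530) (S (nat_lit 17070) (S (nat_lit 10274) (L (nat_lit 15945604))
(L (nat_lit 10405965)))
(L (nat_lit 26415605)))
(L (nat_lit 25626898)))))
(L (nat_lit 25627339)))))
(S (nat_lit 26863) (S (nat_lit 6577) (S (nat_lit 17046) (S (nat_lit 32924) (S (nat_lit 26862) (S (nat_lit 19816) (S (nat_lit 7047) (L (nat_lit 28906801))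
(L (nat_lit 23467257)))
(L (nat_lit 21441378)))
(L (nat_lit 24636741)))
(S (nat_lit 33734) (S (nat_lit 54314) (L (nat_lit 20484313))
(L (nat_lit 23076408)))
(L (nat_lit 9899705))))
(S (nat_lit 36810) (S (nat_lit 36811) (S (nat_lit 1) (S (nat_lit 34346) (L (nat_lit 26230003))
(L (nat_lit 31097200)))
(L (nat_lit 614606)))
(S (nat_lit 39079) (L (nat_lit 19661073))
(L (nat_lit 12594067))))
(S (nat_lit 56574) (S (nat_lit 3364) (L (nat_lit 7040452))
(S (nat_lit 10259) (S (nat_lit 31931) (S (nat_lit 26812) (L (nat_lit 28977295))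
(L (nat_lit 19130756)))
(L (nat_lit 30977109)))
(L (nat_lit 9836469))))
(L (nat_lit 25400853)))))
(S (nat_lit 26341) (S (nat_lit 5591) (S (nat_lit 7708) (L (nat_lit 11070642))
(S (nat_lit 30699) (S (nat_lit 44420) (L (nat_lit 24328992))
(L (nat_lit 24427672)))
(L (nat_lit 3816666))))
(S (nat_lit 25355) (S (nat_lit 26877) (S (nat_lit 27120) (S (nat_lit 28823) (S (nat_lit 46642) (L (nat_lit 11586382))
(L (nat_lit 17156993)))
(L (nat_lit 10280109)))
(L (nat_lit 31046728)))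
(L (nat_lit 31046947)))
(S (nat_lit 45119) (S (nat_lit 33182) (S (nat_lit 34397) (S (nat_lit 17031) (L (nat_lit 15770484))
(L (nat_lit 9521721)))
(L (nat_lit 16697480)))
(L (nat_lit 16697699)))
(L (nat_lit 25499190)))))
(S (nat_lit 46105) (S (nat_lit 13433) (S (nat_lit 14648) (S (nat_lit 26397) (S (nat_lit 40760) (L (nat_lit 24385457))
(L (nat_lit 24034311)))
(L (nat_lit 3698374)))
(L (nat_lit 606022)))
(S (nat_lit 33197) (S (nat_lit 17031) (S (nat_lit 24656) (L (nat_lit 4114672))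
(L (nat_lit 9486102)))
(L (nat_lit 17090585)))
(S (nat_lit 52961) (S (nat_lit 10935) (S (nat_lit 50464) (S (nat_lit 1232) (S (nat_lit 47570) (L (nat_lit 22027837))
(L (nat_lit 8448469)))
(L (nat_lit 19675426)))
(L (nat_lit 22232089)))
(L (nat_lit 21183513)))
(L (nat_lit 25835531)))))
(L (nat_lit 25824776)))))
(S (nat_lit 46627) (S (nat_lit 5591) (S (nat_lit 7113) (S (nat_lit 32924) (S (nat_lit 11002) (L (nat_lit 23554404))
(L (nat_lit 7523152)))
(L (nat_lit 9025561)))
(S (nat_lit 26877) (S (nat_lit 27054) (S (nat_lit 52712) (S (nat_lit 26341) (S (nat_lit 51710) (L (nat_lit 29986343))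
(L (nat_lit 10271797)))
(L (nat_lit 15425859)))
(L (nat_lit 11272784)))
(L (nat_lit 19726668)))
(S (nat_lit 46641) (S (nat_lit 35126) (L (nat_lit 3423992))
(L (nat_lit 9190981)))
(L (nat_lit 25724487)))))
(S (nat_lit 25355) (S (nat_lit 8993) (S (nat_lit 4892) (S (nat_lit 36811) (S (nat_lit 21011) (L (nat_lit 28486165))
(L (nat_lit 21768336)))
(L (nat_lit 18159443)))
(L (nat_lit 19423275)))
(S (nat_lit 50396) (L (nat_lit 11553272))
(L (nat_lit 26427475))))
(S (nat_lit 45119) (S (nat_lit 35126) (S (nat_lit 24899) (S (nat_lit 24656) (S (nat_lit 51695) (S (nat_lit 6591) (S (nat_lit 50530) (S (nat_lit 46642) (S (nat_lit 46885) (S (nat_lit 27120) (S (nat_lit 8264) (S (nat_lit 32837) (S (nat_lit 52673) (S (nat_lit 19831) (S (nat_lit 26356) (S (nat_lit 33131) (S (nat_lit 4043) (S (nat_lit 33033) (S (nat_lit 19706) (D (nat_lit 12) (nat_lit 21407557) (nat_lit 24124856) (nat_lit 2305843043573465089))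
(L (nat_lit 6342583)))
(L (nat_lit 19251105)))
(L (nat_lit 7855197)))
(L (nat_lit 717194)))
(L (nat_lit 2695086)))
(L (nat_lit 16458840)))
(L (nat_lit 27306484)))
(L (nat_lit 7820379)))
(L (nat_lit 11624851)))
(L (nat_lit 6441740)))
(L (nat_lit 8142562)))
(L (nat_lit 802537)))
(L (nat_lit 13388035)))
(L (nat_lit 7856864)))
(L (nat_lit 968940)))
(L (nat_lit 10107963)))
(L (nat_lit 2768091)))
(L (nat_lit 10242532)))
(L (nat_lit 25804032)))))
(L (nat_lit 25318952)))))
(S (nat_lit 28094) (S (nat_lit 13418) (S (nat_lit 7099) (S (nat_lit 4892) (S (nat_lit 10935) (S (nat_lit 13145) (L (nat_lit 839211))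
(L (nat_lit 6343536)))
(L (nat_lit 8147425)))
(S (nat_lit 24656) (S (nat_lit 46885) (S (nat_lit 31946) (S (nat_lit 35126) (L (nat_lit 16516434))
(L (nat_lit 12700027)))
(L (nat_lit 19076635)))
(L (nat_lit 8145378)))
(S (nat_lit 44420) (S (nat_lit 1) (S (nat_lit 11002) (L (nat_lit 27281772))
(L (nat_lit 21433659)))
(L (nat_lit 8145314)))
(L (nat_lit 25480608)))))
(S (nat_lit 26863) (S (nat_lit 26398) (S (nat_lit 28823) (L (nat_lit 6769409))
(L (nat_lit 19219641)))
(S (nat_lit 33040) (S (nat_lit 1) (L (nat_lit 12601626))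
(L (nat_lit 8144943)))
(L (nat_lit 19769763))))
(S (nat_lit 46627) (S (nat_lit 7291) (S (nat_lit 46162) (S (nat_lit 7048) (L (nat_lit 24146310))
(L (nat_lit 7516827)))
(L (nat_lit 18623107)))
(S (nat_lit 27055) (S (nat_lit 17031) (S (nat_lit 26862) (L (nat_lit 19334491))
(L (nat_lit 24396828)))
(L (nat_lit 16927065)))
(S (nat_lit 46819) (S (nat_lit 30699) (L (nat_lit 4407189))
(L (nat_lit 18903590)))
(L (nat_lit 25516450)))))
(L (nat_lit 25313960)))))
(S (nat_lit 33182) (S (nat_lit 1247) (S (nat_lit 51) (S (nat_lit 28823) (S (nat_lit 6591) (S (nat_lit 25355) (L (nat_lit 13683994))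
(L (nat_lit 30918912)))
(L (nat_lit 7954541)))
(S (nat_lit 48505) (L (nat_lit 18881946))
(L (nat_lit 17882393))))
(S (nat_lit 19815) (S (nat_lit 47758) (S (nat_lit 84) (L (nat_lit 18924793))
(L (nat_lit 16533760)))
(S (nat_lit 56560) (L (nat_lit 28428839))
(L (nat_lit 19336537))))
(S (nat_lit 39579) (S (nat_lit 23131) (L (nat_lit 11553241))
(S (nat_lit 46642) (S (nat_lit 30023) (S (nat_lit 26397) (L (nat_lit 12259153))
(L (nat_lit 8933185)))
(L (nat_lit 19838149)))
(L (nat_lit 17573441))))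
(L (nat_lit 25255463)))))
(S (nat_lit 21011) (S (nat_lit 5120) (S (nat_lit 14712) (L (nat_lit 3664587))
(S (nat_lit 34397) (S (nat_lit 15390) (L (nat_lit 2936358))
(S (nat_lit 35075) (S (nat_lit 10935) (S (nat_lit 54110) (L (nat_lit 29411878))
(L (nat_lit 8418706)))
(L (nat_lit 15787718)))
(L (nat_lit 8868921))))
(L (nat_lit 16359609))))
(S (nat_lit 24884) (S (nat_lit 20362) (S (nat_lit 31946) (L (nat_lit 21022471))
(L (nat_lit 30620723)))
(S (nat_lit 46642) (S (nat_lit 17046) (S (nat_lit 34397) (S (nat_lit 7356) (S (nat_lit 31946) (L (nat_lit 1687465))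
(L (nat_lit 30843029)))
(L (nat_lit 9324993)))
(L (nat_lit 23566491)))
(L (nat_lit 9465303)))
(L (nat_lit 12339681))))
(S (nat_lit 44648) (S (nat_lit 34397) (S (nat_lit 10987) (S (nat_lit 7356) (S (nat_lit 8810) (S (nat_lit 15377) (L (nat_lit 7522811))
(L (nat_lit 17730251)))
(L (nat_lit 21938315)))
(L (nat_lit 638329)))
(L (nat_lit 23177627)))
(S (nat_lit 40967) (L (nat_lit 7487411))
(L (nat_lit 3951110))))
(L (nat_lit 25729206)))))
(S (nat_lit 40775) (S (nat_lit 8081) (S (nat_lit 46642) (S (nat_lit 7356) (S (nat_lit 7342) (L (nat_lit 29576304))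
(L (nat_lit 226866)))
(L (nat_lit 933608)))
(S (nat_lit 58678) (L (nat_lit 5586617))
(L (nat_lit 19938585))))
(S (nat_lit 27845) (S (nat_lit 44985) (L (nat_lit 18028155))
(S (nat_lit 56599) (S (nat_lit 34412) (L (nat_lit 24292273))
(L (nat_lit 2316795)))
(L (nat_lit 19100721))))
(S (nat_lit 47609) (S (nat_lit 28808) (S (nat_lit 56599) (S (nat_lit 30751) (L (nat_lit 14742803))
(L (nat_lit 30676656)))
(L (nat_lit 6812787)))
(L (nat_lit 8993913)))
(L (nat_lit 25691750)))))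
(L (nat_lit 25309833)))))
(S (nat_lit 52946) (S (nat_lit 8993) (S (nat_lit 39742) (L (nat_lit 14704917))
(S (nat_lit 51752) (S (nat_lit 10208) (S (nat_lit 36811) (S (nat_lit 26811) (L (nat_lit 19132497))
(L (nat_lit 19130755)))
(L (nat_lit 804147)))
(L (nat_lit 14705971)))
(L (nat_lit 9920629))))
(S (nat_lit 28757) (S (nat_lit 5135) (S (nat_lit 7356) (L (nat_lit 10963034))
(L (nat_lit 12835929)))
(S (nat_lit 24899) (S (nat_lit 56599) (S (nat_lit 1232) (L (nat_lit 30879361))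
(L (nat_lit 19045264)))
(L (nat_lit 19141393)))
(S (nat_lit 44663) (S (nat_lit 17046) (S (nat_lit 11002) (L (nat_lit 29905152))
(L (nat_lit 969128)))
(L (nat_lit 24298873)))
(L (nat_lit 25283788)))))
(S (nat_lit 48521) (S (nat_lit 11148) (L (nat_lit 19275681))
(S (nat_lit 12770) (L (nat_lit 10665657))
(L (nat_lit 11105665))))
(L (nat_lit 25692874)))))
(L (nat_lit 25184810)))))
(S (nat_lit 47858) (S (nat_lit 6591) (S (nat_lit 17047) (S (nat_lit 6577) (S (nat_lit 49736) (S (nat_lit 1) (S (nat_lit 48587) (S (nat_lit 47792) (S (nat_lit 12224) (S (nat_lit 46870) (S (nat_lit 21011) (S (nat_lit 33182) (S (nat_lit 31885) (S (nat_lit 36406) (S (nat_lit 58143) (S (nat_lit 3822) (D (nat_lit 8) (nat_lit 28902609) (nat_lit 19325221) (nat_lit 111908262945))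
(L (nat_lit 14281897)))
(L (nat_lit 22885416)))
(L (nat_lit 26849537)))
(L (nat_lit 27860353)))
(L (nat_lit 283163)))
(L (nat_lit 6768795)))
(L (nat_lit 20013574)))
(L (nat_lit 21201678)))
(L (nat_lit 27693363)))
(L (nat_lit 27694387)))
(L (nat_lit 12590682)))
(L (nat_lit 7012888)))
(S (nat_lit 26341) (S (nat_lit 36889) (L (nat_lit 18016595))
(S (nat_lit 48521) (S (nat_lit 47843) (S (nat_lit 49736) (S (nat_lit 51) (S (nat_lit 26356) (S (nat_lit 44405) (S (nat_lit 46627) (L (nat_lit 29737044))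
(L (nat_lit 20242945)))
(L (nat_lit 2348506)))
(L (nat_lit 15276120)))
(L (nat_lit 6780609)))
(L (nat_lit 9045528)))
(L (nat_lit 3395096)))
(L (nat_lit 2013395))))
(S (nat_lit 46105) (S (nat_lit 32909) (S (nat_lit 1289) (S (nat_lit 48587) (S (nat_lit 10935) (L (nat_lit 16679222))
(L (nat_lit 6349364)))
(L (nat_lit 4015413)))
(L (nat_lit 8406807)))
(S (nat_lit 58603) (L (nat_lit 18023001))
(L (nat_lit 15739513))))
(L (nat_lit 25901193)))))
(S (nat_lit 36811) (S (nat_lit 10274) (S (nat_lit 51695) (S (nat_lit 9059) (L (nat_lit 13683558))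
(L (nat_lit 5153171)))
(L (nat_lit 10391955)))
(S (nat_lit 30038) (S (nat_lit 6866) (S (nat_lit 28823) (L (nat_lit 9025345))
(L (nat_lit 8440377)))
(L (nat_lit 12689299)))
(S (nat_lit 49802) (S (nat_lit 28550) (S (nat_lit 26591) (S (nat_lit 48587) (S (nat_lit 46884) (S (nat_lit 12182) (L (nat_lit 11553179))
(L (nat_lit 15884501)))
(L (nat_lit 5004493)))
(L (nat_lit 22812202)))
(L (nat_lit 30845107)))
(L (nat_lit 3432271)))
(L (nat_lit 25320687)))))
(S (nat_lit 56575) (S (nat_lit 8810) (S (nat_lit 39529) (S (nat_lit 49802) (L (nat_lit 14554694))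
(L (nat_lit 27761749)))
(S (nat_lit 57139) (L (nat_lit 15867545))
(L (nat_lit 24124825))))
(L (nat_lit 6807731)))
(L (nat_lit 25798801)))))
(S (nat_lit 26355) (S (nat_lit 13160) (S (nat_lit 13433) (S (nat_lit 6827) (S (nat_lit 24899) (L (nat_lit 22853672))
(L (nat_lit 22133977)))
(L (nat_lit 13379605)))
(S (nat_lit 33197) (S (nat_lit 36810) (L (nat_lit 16351450))
(L (nat_lit 13370091)))
(S (nat_lit 52961) (S (nat_lit 26863) (S (nat_lit 17071) (L (nat_lit 20189072))
(L (nat_lit 9561681)))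
(S (nat_lit 49910) (L (nat_lit 8142560))
(L (nat_lit 19359041))))
(L (nat_lit 25526993)))))
(S (nat_lit 32924) (S (nat_lit 10987) (S (nat_lit 41316) (L (nat_lit 3645181))
(S (nat_lit 54890) (S (nat_lit 7290) (S (nat_lit 7047) (S (nat_lit 48572) (S (nat_lit 50464) (S (nat_lit 28757) (L (nat_lit 17704981))
(L (nat_lit 30620353)))
(L (nat_lit 20134937)))
(L (nat_lit 3729781)))
(L (nat_lit 21370073)))
(L (nat_lit 21375033)))
(L (nat_lit 18986827))))
(S (nat_lit 30751) (S (nat_lit 7153) (S (nat_lit 34569) (L (nat_lit 10327660))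
(L (nat_lit 9485205)))
(S (nat_lit 26863) (S (nat_lit 19816) (S (nat_lit 27106) (S (nat_lit 28550) (S (nat_lit 1232) (S (nat_lit 10935) (S (nat_lit 52961) (S (nat_lit 49802) (S (nat_lit 12167) (L (nat_lit 10052688))
(L (nat_lit 15995797)))
(L (nat_lit 27527733)))
(L (nat_lit 27371120)))
(L (nat_lit 6349302)))
(L (nat_lit 3976944)))
(L (nat_lit 8785811)))
(L (nat_lit 2714926)))
(L (nat_lit 2387694)))
(L (nat_lit 19661134))))
(S (nat_lit 50515) (S (nat_lit 52961) (S (nat_lit 54176) (S (nat_lit 1232) (S (nat_lit 36834) (S (nat_lit 7047) (S (nat_lit 7290) (S (nat_lit 46884) (L (nat_lit 17604293))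
(L (nat_lit 20155276)))
(L (nat_lit 12638488)))
(L (nat_lit 12800120)))
(L (nat_lit 30685301)))
(L (nat_lit 3796272)))
(L (nat_lit 19675461)))
(L (nat_lit 19675306)))
(L (nat_lit 25473202)))))
(S (nat_lit 52688) (S (nat_lit 7098) (S (nat_lit 4722) (L (nat_lit 23300569))
(S (nat_lit 52606) (L (nat_lit 26496176))
(L (nat_lit 9222195))))
(S (nat_lit 26862) (S (nat_lit 39594) (S (nat_lit 27105) (S (nat_lit 52946) (L (nat_lit 22855969))
(L (nat_lit 27528848)))
(L (nat_lit 30922017)))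
(L (nat_lit 24919296)))
(S (nat_lit 46626) (S (nat_lit 10208) (S (nat_lit 30766) (S (nat_lit 27106) (L (nat_lit 29576643))
(L (nat_lit 18966022)))
(L (nat_lit 19343106)))
(S (nat_lit 53827) (L (nat_lit 4409752))
(L (nat_lit 26695686))))
(L (nat_lit 25218380)))))
(L (nat_lit 25463536)))))
(S (nat_lit 46119) (S (nat_lit 17031) (S (nat_lit 12182) (S (nat_lit 49787) (S (nat_lit 48572) (S (nat_lit 67) (S (nat_lit 46885) (S (nat_lit 24656) (S (nat_lit 46884) (L (nat_lit 5778009))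
(L (nat_lit 22275520)))
(L (nat_lit 30558510)))
(L (nat_lit 7916419)))
(L (nat_lit 26590850)))
(L (nat_lit 3456853)))
(L (nat_lit 8470357)))
(L (nat_lit 9288757)))
(S (nat_lit 36795) (S (nat_lit 7114) (S (nat_lit 13145) (S (nat_lit 33182) (L (nat_lit 29824710))
(L (nat_lit 969258)))
(L (nat_lit 7359312)))
(S (nat_lit 26878) (S (nat_lit 52961) (L (nat_lit 9059482))
(L (nat_lit 19676417)))
(S (nat_lit 46642) (S (nat_lit 50464) (S (nat_lit 46884) (S (nat_lit 32924) (S (nat_lit 1232) (L (nat_lit 3891750))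
(L (nat_lit 11292752)))
(L (nat_lit 30719026)))
(L (nat_lit 7883552)))
(L (nat_lit 22035673)))
(L (nat_lit 25746692)))))
(S (nat_lit 56559) (S (nat_lit 6633) (S (nat_lit 13160) (S (nat_lit 15311) (S (nat_lit 9059) (L (nat_lit 16318716))
(L (nat_lit 6992705)))
(L (nat_lit 7094324)))
(S (nat_lit 32924) (S (nat_lit 56560) (S (nat_lit 7099) (L (nat_lit 14247942))
(L (nat_lit 23557473)))
(L (nat_lit 8932229)))
(S (nat_lit 52688) (S (nat_lit 48587) (L (nat_lit 28611989))
(L (nat_lit 16359448)))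
(L (nat_lit 25666610)))))
(S (nat_lit 26397) (S (nat_lit 8315) (S (nat_lit 56560) (S (nat_lit 10208) (L (nat_lit 30546641))
(L (nat_lit 9920533)))
(L (nat_lit 6769536)))
(L (nat_lit 13345667)))
(S (nat_lit 46161) (S (nat_lit 16193) (L (nat_lit 7124705))
(S (nat_lit 49802) (S (nat_lit 48587) (S (nat_lit 12167) (L (nat_lit 1568326))
(L (nat_lit 16566496)))
(L (nat_lit 27596341)))
(L (nat_lit 6802213))))
(L (nat_lit 25498036)))))
(L (nat_lit 25691755)))))
(L (nat_lit 25448525)))))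
(L (nat_lit 25695475)))))
(S (nat_lit 48299) (S (nat_lit 4934) (S (nat_lit 4877) (S (nat_lit 7099) (S (nat_lit 7098) (S (nat_lit 48587) (S (nat_lit 49802) (S (nat_lit 51710) (L (nat_lit 8263221))
(L (nat_lit 8182178)))
(L (nat_lit 14441542)))
(L (nat_lit 12050305)))
(S (nat_lit 26862) (S (nat_lit 28823) (S (nat_lit 27105) (S (nat_lit 40760) (L (nat_lit 3624838))
(L (nat_lit 27867209)))
(L (nat_lit 19098797)))
(L (nat_lit 19701933)))
(S (nat_lit 46626) (S (nat_lit 52) (S (nat_lit 33182) (S (nat_lit 39579) (S (nat_lit 31988) (L (nat_lit 23324098))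
(L (nat_lit 30869845)))
(L (nat_lit 23537851)))
(L (nat_lit 30877812)))
(L (nat_lit 20392834)))
(L (nat_lit 25930275)))))
(S (nat_lit 26863) (S (nat_lit 8786) (S (nat_lit 49736) (S (nat_lit 45170) (L (nat_lit 18795526))
(L (nat_lit 15522825)))
(L (nat_lit 15758709)))
(S (nat_lit 28550) (S (nat_lit 1232) (S (nat_lit 52961) (S (nat_lit 33182) (S (nat_lit 26355) (S (nat_lit 46884) (L (nat_lit 28611149))
(L (nat_lit 5880712)))
(L (nat_lit 15434503)))
(L (nat_lit 6212138)))
(L (nat_lit 27868171)))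
(L (nat_lit 9191106)))
(S (nat_lit 48314) (S (nat_lit 21053) (S (nat_lit 52688) (S (nat_lit 56599) (L (nat_lit 1781581))
(L (nat_lit 19663338)))
(L (nat_lit 19336106)))
(S (nat_lit 25346) (L (nat_lit 17009559))
(L (nat_lit 15818567))))
(L (nat_lit 25773098)))))
(S (nat_lit 46627) (S (nat_lit 6591) (S (nat_lit 11887) (L (nat_lit 20409480))
(S (nat_lit 46870) (S (nat_lit 46885) (S (nat_lit 5120) (S (nat_lit 26630) (S (nat_lit 27845) (S (nat_lit 66) (S (nat_lit 30700) (S (nat_lit 54905) (S (nat_lit 36834) (L (nat_lit 30418454))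
(L (nat_lit 23904450)))
(L (nat_lit 19310469)))
(L (nat_lit 24144077)))
(L (nat_lit 7014873)))
(L (nat_lit 19051302)))
(L (nat_lit 19458403)))
(L (nat_lit 26726569)))
(L (nat_lit 20724838)))
(L (nat_lit 4678315))))
(S (nat_lit 18928) (S (nat_lit 48572) (L (nat_lit 11560340))
(L (nat_lit 27278675)))
(L (nat_lit 484070))))
(L (nat_lit 25676873)))))
(S (nat_lit 24641) (S (nat_lit 6577) (S (nat_lit 5177) (S (nat_lit 6827) (S (nat_lit 54839) (S (nat_lit 33182) (S (nat_lit 10259) (L (nat_lit 8090148))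
(L (nat_lit 1292181)))
(L (nat_lit 31133227)))
(L (nat_lit 13883300)))
(L (nat_lit 13890741)))
(S (nat_lit 27161) (S (nat_lit 56575) (L (nat_lit 17604758))
(L (nat_lit 15736691)))
(L (nat_lit 26940967))))
(S (nat_lit 26341) (S (nat_lit 13289) (S (nat_lit 10935) (L (nat_lit 5491101))
(L (nat_lit 15786694)))
(S (nat_lit 30700) (S (nat_lit 24884) (S (nat_lit 17046) (S (nat_lit 10935) (S (nat_lit 19765) (S (nat_lit 14582) (L (nat_lit 19325281))
(L (nat_lit 13656806)))
(L (nat_lit 8408504)))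
(L (nat_lit 23093489)))
(L (nat_lit 14915381)))
(L (nat_lit 22077742)))
(L (nat_lit 18882384))))
(S (nat_lit 46105) (S (nat_lit 10274) (S (nat_lit 51695) (S (nat_lit 26355) (S (nat_lit 7113) (L (nat_lit 28916001))
(L (nat_lit 6217191)))
(L (nat_lit 19832257)))
(L (nat_lit 515913)))
(S (nat_lit 30038) (S (nat_lit 7048) (S (nat_lit 7113) (S (nat_lit 28823) (L (nat_lit 22034715))
(L (nat_lit 30451091)))
(L (nat_lit 7429624)))
(L (nat_lit 13864667)))
(S (nat_lit 49802) (S (nat_lit 39529) (S (nat_lit 7048) (S (nat_lit 50463) (L (nat_lit 8161842))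
(L (nat_lit 5469750)))
(L (nat_lit 13864754)))
(L (nat_lit 17025049)))
(L (nat_lit 25594600)))))
(L (nat_lit 25594231)))))
(S (nat_lit 44405) (S (nat_lit 10935) (S (nat_lit 1401) (S (nat_lit 19765) (S (nat_lit 26877) (S (nat_lit 44648) (L (nat_lit 15921832))
(L (nat_lit 12871365)))
(L (nat_lit 24132359)))
(L (nat_lit 31031535)))
(S (nat_lit 28550) (S (nat_lit 7099) (S (nat_lit 39579) (S (nat_lit 26397) (S (nat_lit 50514) (S (nat_lit 46162) (S (nat_lit 46355) (S (nat_lit 30765) (S (nat_lit 52673) (S (nat_lit 50530) (S (nat_lit 19765) (S (nat_lit 17141) (S (nat_lit 188) (S (nat_lit 46493) (S (nat_lit 1315) (S (nat_lit 48492) (S (nat_lit 26315) (S (nat_lit 6699) (D (nat_lit 12) (nat_lit 3987821) (nat_lit 1857740) (nat_lit 1188985521465000961))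
(L (nat_lit 29012256)))
(L (nat_lit 23897636)))
(L (nat_lit 18682566)))
(L (nat_lit 12154273)))
(L (nat_lit 28387952)))
(L (nat_lit 4631292)))
(L (nat_lit 870790)))
(L (nat_lit 30998735)))
(L (nat_lit 20100377)))
(L (nat_lit 19130481)))
(L (nat_lit 3000623)))
(L (nat_lit 1464202)))
(L (nat_lit 11179449)))
(L (nat_lit 11244957)))
(L (nat_lit 19776704)))
(L (nat_lit 27745633)))
(S (nat_lit 26863) (S (nat_lit 32924) (S (nat_lit 52895) (S (nat_lit 26355) (L (nat_lit 29862932))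
(L (nat_lit 24576314)))
(L (nat_lit 1463512)))
(L (nat_lit 20724933)))
(S (nat_lit 46627) (S (nat_lit 46626) (L (nat_lit 600848))
(L (nat_lit 18604039)))
(L (nat_lit 25773065)))))
(L (nat_lit 18614986))))
(S (nat_lit 30699) (S (nat_lit 15311) (S (nat_lit 51752) (L (nat_lit 7356181))
(L (nat_lit 27507328)))
(S (nat_lit 35075) (S (nat_lit 6577) (S (nat_lit 24941) (L (nat_lit 20181132))
(L (nat_lit 30650391)))
(L (nat_lit 21217155)))
(S (nat_lit 54839) (S (nat_lit 26812) (S (nat_lit 13145) (S (nat_lit 30700) (S (nat_lit 46642) (S (nat_lit 46355) (S (nat_lit 9044) (L (nat_lit 16788057))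
(L (nat_lit 6321589)))
(L (nat_lit 22276112)))
(L (nat_lit 19932047)))
(L (nat_lit 17029144)))
(L (nat_lit 13889650)))
(L (nat_lit 24360836)))
(L (nat_lit 25206509)))))
(S (nat_lit 50463) (S (nat_lit 34397) (S (nat_lit 46105) (S (nat_lit 5177) (S (nat_lit 54839) (S (nat_lit 15377) (S (nat_lit 52895) (S (nat_lit 44648) (S (nat_lit 48572) (L (nat_lit 6408762))
(L (nat_lit 19949994)))
(L (nat_lit 7389946)))
(L (nat_lit 27495089)))
(L (nat_lit 8302674)))
(L (nat_lit 16637157)))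
(L (nat_lit 26677526)))
(L (nat_lit 5989928)))
(L (nat_lit 14930105)))
(L (nat_lit 25396881)))))
(L (nat_lit 25416130)))))
(S (nat_lit 24698) (S (nat_lit 17071) (S (nat_lit 66) (S (nat_lit 11002) (S (nat_lit 10274) (L (nat_lit 6348620))
(L (nat_lit 26388883)))
(S (nat_lit 30766) (S (nat_lit 24941) (S (nat_lit 7114) (S (nat_lit 6577) (L (nat_lit 26355255))
(L (nat_lit 1461128)))
(L (nat_lit 14258458)))
(S (nat_lit 44623) (L (nat_lit 18588856))
(L (nat_lit 13772409))))
(S (nat_lit 50530) (S (nat_lit 10259) (S (nat_lit 6577) (L (nat_lit 833811))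
(L (nat_lit 7790466)))
(L (nat_lit 1450899)))
(L (nat_lit 25497325)))))
(S (nat_lit 19830) (S (nat_lit 10935) (S (nat_lit 30831) (L (nat_lit 4976103))
(S (nat_lit 46884) (S (nat_lit 32924) (L (nat_lit 19807424))
(L (nat_lit 20724747)))
(L (nat_lit 22556448))))
(S (nat_lit 30699) (S (nat_lit 51752) (S (nat_lit 35075) (L (nat_lit 20998538))
(L (nat_lit 30430413)))
(L (nat_lit 10224268)))
(S (nat_lit 50463) (S (nat_lit 10208) (S (nat_lit 51752) (S (nat_lit 50464) (L (nat_lit 24351661))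
(L (nat_lit 12027545)))
(L (nat_lit 27572403)))
(L (nat_lit 9921157)))
(L (nat_lit 25385505)))))
(S (nat_lit 39594) (S (nat_lit 13367) (S (nat_lit 54839) (S (nat_lit 31988) (S (nat_lit 7048) (L (nat_lit 18078779))
(L (nat_lit 7759553)))
(L (nat_lit 13883264)))
(L (nat_lit 27493037)))
(S (nat_lit 33131) (S (nat_lit 39595) (S (nat_lit 32924) (S (nat_lit 28757) (L (nat_lit 15425638))
(L (nat_lit 9964185)))
(L (nat_lit 10227376)))
(L (nat_lit 12269689)))
(S (nat_lit 52895) (S (nat_lit 28757) (S (nat_lit 46884) (S (nat_lit 46355) (L (nat_lit 11450515))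
(L (nat_lit 1262485)))
(L (nat_lit 7528332)))
(L (nat_lit 19118979)))
(L (nat_lit 25565330)))))
(L (nat_lit 25530028)))))
(S (nat_lit 36835) (S (nat_lit 52) (S (nat_lit 6633) (S (nat_lit 7290) (S (nat_lit 28757) (L (nat_lit 5973773))
(L (nat_lit 488139)))
(L (nat_lit 666041)))
(S (nat_lit 26397) (S (nat_lit 36874) (S (nat_lit 51710) (S (nat_lit 29972) (S (nat_lit 24941) (L (nat_lit 1466182))
(L (nat_lit 2416185)))
(L (nat_lit 18922374)))
(L (nat_lit 13342599)))
(S (nat_lit 56560) (S (nat_lit 48587) (L (nat_lit 30853344))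
(L (nat_lit 13739923)))
(L (nat_lit 3908492))))
(S (nat_lit 46161) (S (nat_lit 5657) (S (nat_lit 51710) (S (nat_lit 35075) (S (nat_lit 13418) (L (nat_lit 8058273))
(L (nat_lit 5058129)))
(L (nat_lit 8403643)))
(L (nat_lit 7793811)))
(L (nat_lit 16690816)))
(L (nat_lit 25531085)))))
(S (nat_lit 19816) (S (nat_lit 10259) (S (nat_lit 51710) (S (nat_lit 26341) (S (nat_lit 9044) (S (nat_lit 47858) (S (nat_lit 17070) (S (nat_lit 24941) (S (nat_lit 46819) (L (nat_lit 9060411))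
(L (nat_lit 8023086)))
(L (nat_lit 3988812)))
(L (nat_lit 11591160)))
(L (nat_lit 6821685)))
(L (nat_lit 21375875)))
(L (nat_lit 9494072)))
(L (nat_lit 27628981)))
(S (nat_lit 30023) (S (nat_lit 10935) (S (nat_lit 5120) (L (nat_lit 29863520))
(L (nat_lit 19672452)))
(L (nat_lit 8143924)))
(S (nat_lit 49787) (S (nat_lit 44035) (L (nat_lit 16624229))
(S (nat_lit 46885) (S (nat_lit 24941) (L (nat_lit 598925))
(L (nat_lit 11955780)))
(L (nat_lit 8042617))))
(L (nat_lit 25728275)))))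
(S (nat_lit 39580) (S (nat_lit 44846) (L (nat_lit 4743878))
(S (nat_lit 45170) (S (nat_lit 51710) (S (nat_lit 46885) (S (nat_lit 46642) (S (nat_lit 14582) (L (nat_lit 7355994))
(L (nat_lit 11591473)))
(L (nat_lit 22395033)))
(L (nat_lit 16932217)))
(L (nat_lit 617836)))
(L (nat_lit 449850))))
(L (nat_lit 25662184)))))
(S (nat_lit 56599) (S (nat_lit 7098) (S (nat_lit 24057) (S (nat_lit 2788) (L (nat_lit 19766380))
(L (nat_lit 1331084)))
(S (nat_lit 25355) (S (nat_lit 24941) (S (nat_lit 7290) (S (nat_lit 7291) (L (nat_lit 26256972))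
(L (nat_lit 13689547)))
(L (nat_lit 13689108)))
(L (nat_lit 14460517)))
(L (nat_lit 6802304))))
(S (nat_lit 26862) (S (nat_lit 10987) (S (nat_lit 5120) (S (nat_lit 27054) (L (nat_lit 469724))
(L (nat_lit 18885453)))
(S (nat_lit 36885) (L (nat_lit 18881948))
(L (nat_lit 19677353))))
(S (nat_lit 30751) (S (nat_lit 31946) (S (nat_lit 25406) (S (nat_lit 28550) (S (nat_lit 54905) (L (nat_lit 4698003))
(L (nat_lit 21467019)))
(L (nat_lit 9146253)))
(L (nat_lit 30629248)))
(L (nat_lit 1653977)))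
(S (nat_lit 50515) (S (nat_lit 31988) (S (nat_lit 25406) (S (nat_lit 35075) (L (nat_lit 26268940))
(L (nat_lit 8403643)))
(L (nat_lit 31066348)))
(L (nat_lit 19171897)))
(L (nat_lit 25701027)))))
(S (nat_lit 46626) (S (nat_lit 17070) (S (nat_lit 46869) (S (nat_lit 24941) (S (nat_lit 5591) (S (nat_lit 10987) (L (nat_lit 29954288))
(L (nat_lit 21081997)))
(L (nat_lit 5759254)))
(L (nat_lit 13770363)))
(L (nat_lit 18421576)))
(S (nat_lit 38114) (L (nat_lit 7832315))
(L (nat_lit 14879385))))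
(L (nat_lit 25758028)))))
(L (nat_lit 25220522)))))
(S (nat_lit 44462) (S (nat_lit 67) (S (nat_lit 8810) (S (nat_lit 6633) (S (nat_lit 15311) (S (nat_lit 6592) (L (nat_lit 28326534))
(L (nat_lit 512840)))
(L (nat_lit 22821092)))
(S (nat_lit 26397) (S (nat_lit 8081) (S (nat_lit 10259) (S (nat_lit 10987) (L (nat_lit 553706))
(L (nat_lit 1915497)))
(L (nat_lit 245653)))
(L (nat_lit 23244689)))
(S (nat_lit 46161) (S (nat_lit 36810) (S (nat_lit 9044) (L (nat_lit 28491125))
(L (nat_lit 6707105)))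
(L (nat_lit 12837013)))
(L (nat_lit 25695476)))))
(S (nat_lit 28574) (S (nat_lit 7357) (S (nat_lit 15311) (S (nat_lit 14648) (S (nat_lit 10986) (L (nat_lit 29570785))
(L (nat_lit 26982721)))
(L (nat_lit 10402500)))
(L (nat_lit 22820907)))
(S (nat_lit 27121) (S (nat_lit 10986) (L (nat_lit 20233340))
(L (nat_lit 6372246)))
(S (nat_lit 46885) (S (nat_lit 10986) (S (nat_lit 46642) (S (nat_lit 28757) (L (nat_lit 488171))
(L (nat_lit 12815253)))
(L (nat_lit 20724993)))
(L (nat_lit 768377)))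
(L (nat_lit 25464306)))))
(S (nat_lit 48338) (S (nat_lit 13184) (S (nat_lit 27689) (S (nat_lit 15311) (L (nat_lit 28326134))
(L (nat_lit 22820906)))
(S (nat_lit 36810) (S (nat_lit 10986) (L (nat_lit 6011261))
(L (nat_lit 8108185)))
(L (nat_lit 20177346))))
(S (nat_lit 32948) (S (nat_lit 17178) (L (nat_lit 14603457))
(S (nat_lit 56598) (S (nat_lit 44705) (S (nat_lit 46120) (S (nat_lit 46885) (L (nat_lit 10665843))
(L (nat_lit 8129102)))
(L (nat_lit 17072729)))
(L (nat_lit 23214362)))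
(L (nat_lit 9189956))))
(S (nat_lit 52712) (S (nat_lit 10935) (S (nat_lit 10936) (L (nat_lit 245341))
(L (nat_lit 254605)))
(S (nat_lit 39752) (L (nat_lit 11071043))
(L (nat_lit 564952))))
(L (nat_lit 25353770)))))
(L (nat_lit 25526957)))))
(S (nat_lit 19831) (S (nat_lit 7113) (S (nat_lit 13433) (S (nat_lit 7356) (S (nat_lit 14648) (L (nat_lit 30063973))
(L (nat_lit 2014918)))
(L (nat_lit 11451476)))
(S (nat_lit 33197) (S (nat_lit 46885) (L (nat_lit 28655333))
(L (nat_lit 22264953)))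
(S (nat_lit 52961) (S (nat_lit 44420) (S (nat_lit 1232) (S (nat_lit 44705) (S (nat_lit 26863) (S (nat_lit 50463) (L (nat_lit 14736730))
(L (nat_lit 10534836)))
(L (nat_lit 15773304)))
(L (nat_lit 24417848)))
(L (nat_lit 11287638)))
(L (nat_lit 671000)))
(L (nat_lit 25764323)))))
(S (nat_lit 26877) (S (nat_lit 10986) (S (nat_lit 1) (S (nat_lit 4892) (L (nat_lit 8108123))
(L (nat_lit 19423275)))
(L (nat_lit 19128366)))
(S (nat_lit 30750) (S (nat_lit 1247) (S (nat_lit 44705) (S (nat_lit 26341) (L (nat_lit 2865435))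
(L (nat_lit 31078723)))
(L (nat_lit 13341976)))
(L (nat_lit 10969239)))
(S (nat_lit 50514) (S (nat_lit 46162) (S (nat_lit 7290) (S (nat_lit 7047) (L (nat_lit 28330253))
(L (nat_lit 23900262)))
(L (nat_lit 21299609)))
(L (nat_lit 11294083)))
(L (nat_lit 25447601)))))
(S (nat_lit 46641) (S (nat_lit 1316) (L (nat_lit 27505716))
(S (nat_lit 56598) (S (nat_lit 46884) (S (nat_lit 6577) (S (nat_lit 44705) (S (nat_lit 48521) (L (nat_lit 1654008))
(L (nat_lit 27343498)))
(L (nat_lit 28031017)))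
(L (nat_lit 23313283)))
(L (nat_lit 22822080)))
(L (nat_lit 7101858))))
(L (nat_lit 25804037)))))
(S (nat_lit 39595) (S (nat_lit 7114) (S (nat_lit 46885) (S (nat_lit 24899) (L (nat_lit 11454543))
(L (nat_lit 14436425)))
(L (nat_lit 5553756)))
(S (nat_lit 26878) (S (nat_lit 30700) (L (nat_lit 1367480))
(L (nat_lit 25050121)))
(S (nat_lit 46642) (S (nat_lit 36811) (S (nat_lit 46885) (S (nat_lit 32924) (S (nat_lit 51752) (S (nat_lit 8993) (S (nat_lit 56502) (L (nat_lit 11712253))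
(L (nat_lit 19939179)))
(L (nat_lit 23617674)))
(L (nat_lit 481191)))
(S (nat_lit 52610) (L (nat_lit 26680467))
(L (nat_lit 15410053))))
(L (nat_lit 22546809)))
(S (nat_lit 46470) (L (nat_lit 24913380))
(L (nat_lit 23409541))))
(L (nat_lit 25858536)))))
(L (nat_lit 25529998)))))
(L (nat_lit 25188906)))))
(L (nat_lit 25399861)))))
(S (nat_lit 47585) (S (nat_lit 13145) (S (nat_lit 6866) (S (nat_lit 6634) (S (nat_lit 15377) (S (nat_lit 7341) (S (nat_lit 8771) (S (nat_lit 10986) (S (nat_lit 10936) (S (nat_lit 8810) (S (nat_lit 11001) (L (nat_lit 29501040))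
(L (nat_lit 26615924)))
(L (nat_lit 26647204)))
(L (nat_lit 26426386)))
(L (nat_lit 26651796)))
(L (nat_lit 26448277)))
(S (nat_lit 27105) (S (nat_lit 6827) (S (nat_lit 10935) (S (nat_lit 20996) (L (nat_lit 12781430))
(L (nat_lit 1654631)))
(L (nat_lit 21773537)))
(L (nat_lit 14437667)))
(S (nat_lit 46869) (S (nat_lit 20996) (S (nat_lit 34412) (S (nat_lit 9044) (L (nat_lit 761773))
(L (nat_lit 7931389)))
(L (nat_lit 7529169)))
(L (nat_lit 6480593)))
(L (nat_lit 25937064)))))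
(S (nat_lit 35141) (S (nat_lit 14582) (S (nat_lit 10208) (S (nat_lit 8771) (S (nat_lit 15311) (L (nat_lit 6843411))
(L (nat_lit 22034685)))
(L (nat_lit 841258)))
(L (nat_lit 470803)))
(S (nat_lit 34346) (S (nat_lit 7098) (S (nat_lit 17031) (S (nat_lit 21053) (L (nat_lit 6441531))
(L (nat_lit 7047579)))
(L (nat_lit 26976272)))
(L (nat_lit 6897688)))
(S (nat_lit 54110) (S (nat_lit 1) (S (nat_lit 51) (S (nat_lit 6577) (S (nat_lit 50463) (L (nat_lit 831861))
(L (nat_lit 12622708)))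
(L (nat_lit 13683624)))
(L (nat_lit 8000429)))
(L (nat_lit 6350229)))
(L (nat_lit 25526960)))))
(S (nat_lit 54905) (S (nat_lit 12224) (S (nat_lit 33131) (S (nat_lit 6633) (L (nat_lit 1304115))
(L (nat_lit 1765766)))
(L (nat_lit 782731)))
(S (nat_lit 31988) (S (nat_lit 22793) (L (nat_lit 30723621))
(S (nat_lit 24899) (S (nat_lit 7341) (S (nat_lit 7098) (S (nat_lit 56574) (L (nat_lit 27505249))
(L (nat_lit 21143470)))
(L (nat_lit 13347715)))
(L (nat_lit 390765)))
(L (nat_lit 14329977))))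
(S (nat_lit 51752) (S (nat_lit 44648) (S (nat_lit 7048) (L (nat_lit 26556100))
(L (nat_lit 7081678)))
(L (nat_lit 7393752)))
(L (nat_lit 25243989)))))
(L (nat_lit 25319725)))))
(S (nat_lit 26398) (S (nat_lit 6591) (S (nat_lit 9059) (S (nat_lit 8771) (S (nat_lit 8810) (S (nat_lit 8042) (S (nat_lit 54161) (L (nat_lit 12911195))
(L (nat_lit 6918992)))
(L (nat_lit 12948307)))
(L (nat_lit 6928541)))
(L (nat_lit 6340467)))
(S (nat_lit 28823) (S (nat_lit 14582) (S (nat_lit 6577) (L (nat_lit 6337276))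
(L (nat_lit 13691250)))
(S (nat_lit 15899) (L (nat_lit 17559841))
(L (nat_lit 13380660))))
(S (nat_lit 48587) (S (nat_lit 1) (S (nat_lit 14582) (L (nat_lit 6337276))
(L (nat_lit 24937862)))
(L (nat_lit 7123988)))
(L (nat_lit 25526675)))))
(S (nat_lit 26355) (S (nat_lit 11002) (S (nat_lit 36835) (S (nat_lit 28823) (S (nat_lit 29972) (L (nat_lit 2694556))
(L (nat_lit 7402003)))
(L (nat_lit 444731)))
(L (nat_lit 7388019)))
(S (nat_lit 30766) (S (nat_lit 1) (S (nat_lit 7342) (S (nat_lit 14582) (L (nat_lit 19264560))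
(L (nat_lit 24936838)))
(L (nat_lit 14391206)))
(L (nat_lit 14436578)))
(S (nat_lit 50530) (S (nat_lit 9044) (S (nat_lit 6577) (S (nat_lit 7291) (S (nat_lit 56559) (L (nat_lit 28423881))
(L (nat_lit 7255748)))
(L (nat_lit 1467083)))
(L (nat_lit 12839090)))
(L (nat_lit 7761971)))
(L (nat_lit 25320873)))))
(S (nat_lit 46119) (S (nat_lit 14582) (S (nat_lit 6577) (S (nat_lit 8042) (S (nat_lit 1) (S (nat_lit 32948) (S (nat_lit 13433) (S (nat_lit 27845) (S (nat_lit 7290) (S (nat_lit 46870) (L (nat_lit 28485294))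
(L (nat_lit 17375043)))
(L (nat_lit 14312768)))
(L (nat_lit 19759313)))
(L (nat_lit 6896829)))
(L (nat_lit 2694960)))
(L (nat_lit 14255323)))
(L (nat_lit 1461596)))
(L (nat_lit 12635016)))
(S (nat_lit 34346) (S (nat_lit 6577) (S (nat_lit 10288) (L (nat_lit 7360364))
(S (nat_lit 52688) (S (nat_lit 19830) (S (nat_lit 8042) (S (nat_lit 14633) (S (nat_lit 46355) (S (nat_lit 26397) (S (nat_lit 5270) (L (nat_lit 13249316))
(S (nat_lit 35126) (L (nat_lit 5020305))
(L (nat_lit 12871300))))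
(L (nat_lit 2993588)))
(L (nat_lit 10915731)))
(L (nat_lit 26298577)))
(L (nat_lit 23131473)))
(L (nat_lit 30750835)))
(L (nat_lit 19194897))))
(S (nat_lit 46174) (L (nat_lit 4759415))
(L (nat_lit 13863826))))
(S (nat_lit 54110) (S (nat_lit 6741) (L (nat_lit 1889706))
(S (nat_lit 39579) (S (nat_lit 6577) (S (nat_lit 52688) (S (nat_lit 46355) (S (nat_lit 32948) (S (nat_lit 27845) (S (nat_lit 34397) (S (nat_lit 14648) (S (nat_lit 11374) (L (nat_lit 11373167))
(S (nat_lit 29159) (L (nat_lit 10531637))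
(L (nat_lit 22448507))))
(L (nat_lit 13241192)))
(L (nat_lit 24024272)))
(L (nat_lit 19097744)))
(L (nat_lit 23953777)))
(L (nat_lit 11954913)))
(L (nat_lit 12048440)))
(L (nat_lit 6352494)))
(L (nat_lit 17607360))))
(L (nat_lit 25919910)))))
(L (nat_lit 25429494)))))
(S (nat_lit 46162) (S (nat_lit 17031) (S (nat_lit 8042) (S (nat_lit 7047) (S (nat_lit 25406) (L (nat_lit 14936773))
(L (nat_lit 22446329)))
(L (nat_lit 21764517)))
(S (nat_lit 27806) (S (nat_lit 13367) (S (nat_lit 32924) (L (nat_lit 12055235))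
(L (nat_lit 14770418)))
(L (nat_lit 24908016)))
(S (nat_lit 47570) (S (nat_lit 7047) (L (nat_lit 4966283))
(L (nat_lit 5460376)))
(L (nat_lit 25544421)))))
(S (nat_lit 36795) (S (nat_lit 5642) (S (nat_lit 34412) (S (nat_lit 13433) (S (nat_lit 19815) (L (nat_lit 15336199))
(L (nat_lit 8908480)))
(L (nat_lit 2452176)))
(L (nat_lit 2989776)))
(S (nat_lit 26406) (S (nat_lit 10882) (L (nat_lit 242392))
(L (nat_lit 869066)))
(L (nat_lit 18023132))))
(S (nat_lit 56559) (S (nat_lit 32924) (S (nat_lit 8810) (S (nat_lit 7047) (L (nat_lit 29507273))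
(L (nat_lit 21763462)))
(L (nat_lit 1495389)))
(L (nat_lit 9177490)))
(L (nat_lit 25462384)))))
(L (nat_lit 25711625)))))
(S (nat_lit 26630) (S (nat_lit 4934) (S (nat_lit 13184) (S (nat_lit 7290) (S (nat_lit 33197) (S (nat_lit 6591) (S (nat_lit 54161) (S (nat_lit 17046) (L (nat_lit 29595216))
(L (nat_lit 22360836)))
(L (nat_lit 7129604)))
(L (nat_lit 13361441)))
(S (nat_lit 46289) (L (nat_lit 5727507))
(L (nat_lit 828112))))
(S (nat_lit 27054) (S (nat_lit 27105) (S (nat_lit 27120) (S (nat_lit 66) (S (nat_lit 31946) (S (nat_lit 47609) (S (nat_lit 54176) (S (nat_lit 54905) (S (nat_lit 9044) (L (nat_lit 20316509))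
(L (nat_lit 2992565)))
(L (nat_lit 16114802)))
(L (nat_lit 21196912)))
(L (nat_lit 27473509)))
(L (nat_lit 30791724)))
(L (nat_lit 926349)))
(L (nat_lit 24704074)))
(L (nat_lit 24909322)))
(S (nat_lit 46818) (S (nat_lit 46869) (S (nat_lit 4877) (S (nat_lit 47792) (S (nat_lit 26591) (L (nat_lit 23868486))
(L (nat_lit 24538282)))
(L (nat_lit 3536528)))
(L (nat_lit 26326358)))
(L (nat_lit 22856842)))
(L (nat_lit 25897005)))))
(S (nat_lit 32948) (S (nat_lit 13160) (S (nat_lit 36834) (S (nat_lit 27120) (L (nat_lit 24341889))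
(L (nat_lit 24951914)))
(S (nat_lit 39404) (L (nat_lit 10545841))
(L (nat_lit 520779))))
(S (nat_lit 32924) (S (nat_lit 7047) (S (nat_lit 30750) (L (nat_lit 615979))
(S (nat_lit 54940) (L (nat_lit 8259244))
(L (nat_lit 31172785))))
(L (nat_lit 5658841)))
(S (nat_lit 52688) (S (nat_lit 27121) (L (nat_lit 1559403))
(L (nat_lit 16550635)))
(L (nat_lit 25665586)))))
(S (nat_lit 52712) (S (nat_lit 5177) (S (nat_lit 30750) (S (nat_lit 28574) (L (nat_lit 15038149))
(L (nat_lit 30587498)))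
(L (nat_lit 19148956)))
(S (nat_lit 24941) (S (nat_lit 6577) (S (nat_lit 36811) (L (nat_lit 15523173))
(L (nat_lit 6052145)))
(L (nat_lit 6318703)))
(S (nat_lit 44705) (S (nat_lit 56598) (S (nat_lit 49802) (S (nat_lit 31946) (S (nat_lit 12167) (S (nat_lit 27121) (L (nat_lit 563805))
(L (nat_lit 16566379)))
(L (nat_lit 6086025)))
(L (nat_lit 7095445)))
(L (nat_lit 7167525)))
(L (nat_lit 7092804)))
(L (nat_lit 25409590)))))
(L (nat_lit 25526928)))))
(S (nat_lit 24698) (S (nat_lit 17046) (S (nat_lit 28574) (S (nat_lit 46627) (S (nat_lit 1) (S (nat_lit 28823) (L (nat_lit 30650387))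
(L (nat_lit 838027)))
(L (nat_lit 419028)))
(L (nat_lit 503417)))
(S (nat_lit 34581) (L (nat_lit 14456422))
(L (nat_lit 13422763))))
(S (nat_lit 36810) (S (nat_lit 7114) (S (nat_lit 48572) (S (nat_lit 27055) (S (nat_lit 13184) (L (nat_lit 8278529))
(L (nat_lit 341660)))
(L (nat_lit 6305437)))
(L (nat_lit 13656747)))
(S (nat_lit 26878) (S (nat_lit 52511) (L (nat_lit 16802071))
(S (nat_lit 58879) (L (nat_lit 30426698))
(L (nat_lit 28330288))))
(S (nat_lit 46642) (S (nat_lit 1) (S (nat_lit 35075) (S (nat_lit 46641) (L (nat_lit 13640535))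
(L (nat_lit 17849661)))
(L (nat_lit 19938122)))
(L (nat_lit 13656276)))
(L (nat_lit 25509015)))))
(S (nat_lit 56574) (S (nat_lit 17047) (S (nat_lit 26341) (L (nat_lit 402322))
(L (nat_lit 14689981)))
(S (nat_lit 36811) (S (nat_lit 48572) (S (nat_lit 47570) (L (nat_lit 8401811))
(L (nat_lit 6742099)))
(L (nat_lit 13642579)))
(S (nat_lit 56575) (S (nat_lit 6577) (S (nat_lit 31988) (S (nat_lit 29972) (S (nat_lit 1) (S (nat_lit 7290) (L (nat_lit 24177871))
(L (nat_lit 1857930)))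
(L (nat_lit 7366254)))
(L (nat_lit 18889081)))
(L (nat_lit 18889049)))
(L (nat_lit 6319634)))
(L (nat_lit 25173745)))))
(L (nat_lit 25183979)))))
(S (nat_lit 44462) (S (nat_lit 7113) (S (nat_lit 5591) (S (nat_lit 1) (S (nat_lit 54161) (S (nat_lit 46884) (L (nat_lit 29593233))
(L (nat_lit 10242496)))
(L (nat_lit 7129604)))
(L (nat_lit 7129474)))
(S (nat_lit 25355) (S (nat_lit 10935) (S (nat_lit 66) (L (nat_lit 24296728))
(L (nat_lit 938252)))
(L (nat_lit 6783705)))
(S (nat_lit 45119) (S (nat_lit 10935) (S (nat_lit 56574) (S (nat_lit 14648) (L (nat_lit 28531792))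
(L (nat_lit 605030)))
(L (nat_lit 6311790)))
(L (nat_lit 7393784)))
(L (nat_lit 25728617)))))
(S (nat_lit 26877) (S (nat_lit 1) (S (nat_lit 10935) (S (nat_lit 45170) (S (nat_lit 26398) (L (nat_lit 9494381))
(L (nat_lit 19260463)))
(L (nat_lit 24943630)))
(S (nat_lit 32357) (L (nat_lit 14698876))
(L (nat_lit 20996646))))
(S (nat_lit 649) (L (nat_lit 13422730))
(L (nat_lit 401172))))
(S (nat_lit 46641) (S (nat_lit 67) (S (nat_lit 10936) (S (nat_lit 33197) (S (nat_lit 1) (S (nat_lit 8810) (S (nat_lit 10986) (L (nat_lit 4825008))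
(L (nat_lit 7451256)))
(L (nat_lit 1435125)))
(L (nat_lit 19706921)))
(L (nat_lit 23411899)))
(L (nat_lit 6347322)))
(S (nat_lit 19831) (S (nat_lit 8771) (S (nat_lit 10936) (S (nat_lit 26811) (S (nat_lit 33182) (S (nat_lit 1) (L (nat_lit 28936496))
(L (nat_lit 7091220)))
(L (nat_lit 20726891)))
(L (nat_lit 14938294)))
(L (nat_lit 7098381)))
(L (nat_lit 834867)))
(S (nat_lit 39595) (S (nat_lit 6577) (S (nat_lit 1) (S (nat_lit 15311) (L (nat_lit 28490379))
(L (nat_lit 24142347)))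
(L (nat_lit 12608724)))
(L (nat_lit 257646)))
(L (nat_lit 25305743)))))
(L (nat_lit 25792813)))))
(L (nat_lit 25559658)))))
(S (nat_lit 46394) (S (nat_lit 6577) (S (nat_lit 6592) (S (nat_lit 6827) (S (nat_lit 8771) (S (nat_lit 56598) (L (nat_lit 436827))
(L (nat_lit 6961988)))
(L (nat_lit 6963012)))
(S (nat_lit 26591) (S (nat_lit 8771) (S (nat_lit 10935) (S (nat_lit 56598) (S (nat_lit 28028) (L (nat_lit 15440643))
(L (nat_lit 7768917)))
(L (nat_lit 6720341)))
(L (nat_lit 6317775)))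
(S (nat_lit 12380) (L (nat_lit 3433909))
(L (nat_lit 243571))))
(S (nat_lit 46355) (S (nat_lit 66) (S (nat_lit 1) (S (nat_lit 54176) (S (nat_lit 52895) (S (nat_lit 49736) (L (nat_lit 16805107))
(L (nat_lit 6963258)))
(L (nat_lit 17002209)))
(L (nat_lit 6885264)))
(L (nat_lit 13689448)))
(L (nat_lit 13346625)))
(L (nat_lit 25384113)))))
(S (nat_lit 26356) (S (nat_lit 27806) (S (nat_lit 14078) (L (nat_lit 26846321))
(S (nat_lit 52712) (S (nat_lit 6827) (S (nat_lit 19815) (S (nat_lit 46161) (S (nat_lit 32924) (S (nat_lit 39594) (S (nat_lit 8081) (S (nat_lit 46162) (S (nat_lit 26355) (S (nat_lit 7047) (S (nat_lit 27120) (S (nat_lit 7341) (S (nat_lit 46818) (S (nat_lit 15377) (S (nat_lit 26863) (S (nat_lit 35075) (S (nat_lit 48572) (L (nat_lit 23113275))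
(L (nat_lit 14387018)))
(L (nat_lit 18076697)))
(L (nat_lit 15887977)))
(S (nat_lit 35141) (S (nat_lit 33182) (S (nat_lit 30023) (L (nat_lit 6375098))
(L (nat_lit 18074809)))
(L (nat_lit 30689827)))
(S (nat_lit 54905) (S (nat_lit 34346) (S (nat_lit 29972) (L (nat_lit 3388307))
(L (nat_lit 13457701)))
(L (nat_lit 2961714)))
(L (nat_lit 25824557)))))
(L (nat_lit 27689238)))
(L (nat_lit 13442228)))
(L (nat_lit 30587254)))
(S (nat_lit 36683) (L (nat_lit 8885883))
(S (nat_lit 50093) (L (nat_lit 10065371))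
(L (nat_lit 21794214)))))
(L (nat_lit 15298631)))
(L (nat_lit 5628559)))
(L (nat_lit 12738835)))
(L (nat_lit 6109459)))
(L (nat_lit 8904756)))
(L (nat_lit 17129524)))
(L (nat_lit 14948090)))
(L (nat_lit 7794709)))
(L (nat_lit 21109521))))
(S (nat_lit 46016) (S (nat_lit 1) (S (nat_lit 17100) (L (nat_lit 2662072))
(L (nat_lit 836981)))
(L (nat_lit 7397999)))
(L (nat_lit 15735573))))
(S (nat_lit 46120) (S (nat_lit 14633) (S (nat_lit 13700) (L (nat_lit 830005))
(S (nat_lit 30751) (S (nat_lit 5657) (L (nat_lit 28555412))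
(L (nat_lit 9170338)))
(L (nat_lit 9170306))))
(S (nat_lit 34397) (S (nat_lit 1073) (L (nat_lit 1301019))
(S (nat_lit 13367) (S (nat_lit 21011) (S (nat_lit 45185) (L (nat_lit 30128232))
(L (nat_lit 7753880)))
(L (nat_lit 21766193)))
(L (nat_lit 22813777))))
(S (nat_lit 54161) (S (nat_lit 1) (S (nat_lit 10986) (S (nat_lit 32924) (L (nat_lit 7829124))
(L (nat_lit 14801803)))
(S (nat_lit 30750) (S (nat_lit 33182) (S (nat_lit 52712) (L (nat_lit 18782258))
(L (nat_lit 5002577)))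
(L (nat_lit 20712785)))
(S (nat_lit 50514) (S (nat_lit 47843) (S (nat_lit 36811) (L (nat_lit 12419475))
(L (nat_lit 18619475)))
(L (nat_lit 20849185)))
(L (nat_lit 25767089)))))
(L (nat_lit 248590)))
(L (nat_lit 25272977)))))
(L (nat_lit 25428559)))))
(S (nat_lit 26341) (S (nat_lit 9059) (S (nat_lit 54161) (S (nat_lit 56559) (L (nat_lit 26429583))
(L (nat_lit 6835076)))
(L (nat_lit 27773064)))
(S (nat_lit 28823) (S (nat_lit 17032) (S (nat_lit 12167) (L (nat_lit 13683034))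
(L (nat_lit 18630727)))
(L (nat_lit 17615018)))
(S (nat_lit 48587) (S (nat_lit 50529) (S (nat_lit 8330) (L (nat_lit 29739086))
(L (nat_lit 13749094)))
(L (nat_lit 13453383)))
(L (nat_lit 25527023)))))
(S (nat_lit 46105) (S (nat_lit 8771) (S (nat_lit 26687) (L (nat_lit 1452886))
(S (nat_lit 47858) (S (nat_lit 20430) (L (nat_lit 19963791))
(S (nat_lit 56599) (S (nat_lit 7113) (S (nat_lit 46884) (L (nat_lit 28494061))
(L (nat_lit 20167552)))
(L (nat_lit 20987161)))
(L (nat_lit 27319564))))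
(L (nat_lit 22806769))))
(S (nat_lit 28535) (S (nat_lit 1232) (S (nat_lit 17031) (L (nat_lit 1519445))
(L (nat_lit 26513104)))
(S (nat_lit 20996) (S (nat_lit 17031) (S (nat_lit 51710) (L (nat_lit 19119258))
(L (nat_lit 13410451)))
(L (nat_lit 11694800)))
(S (nat_lit 40760) (S (nat_lit 46626) (S (nat_lit 4892) (L (nat_lit 19663217))
(L (nat_lit 19774602)))
(L (nat_lit 27855212)))
(L (nat_lit 25789961)))))
(S (nat_lit 48299) (S (nat_lit 39435) (S (nat_lit 46626) (L (nat_lit 6943885))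
(L (nat_lit 20842861)))
(S (nat_lit 46641) (S (nat_lit 33182) (S (nat_lit 26591) (L (nat_lit 16801016))
(L (nat_lit 16475306)))
(L (nat_lit 969259)))
(L (nat_lit 20717708))))
(L (nat_lit 25700933)))))
(L (nat_lit 25376946)))))
(L (nat_lit 25730101)))))
(S (nat_lit 32909) (S (nat_lit 13418) (S (nat_lit 11001) (S (nat_lit 24899) (L (nat_lit 6146567))
(L (nat_lit 7096836)))
(S (nat_lit 30765) (S (nat_lit 15362) (S (nat_lit 8786) (L (nat_lit 26397095))
(L (nat_lit 6409005)))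
(L (nat_lit 412586)))
(S (nat_lit 50529) (S (nat_lit 28094) (L (nat_lit 26528129))
(L (nat_lit 6080849)))
(L (nat_lit 25577728)))))
(S (nat_lit 33182) (S (nat_lit 7113) (S (nat_lit 11002) (S (nat_lit 24899) (S (nat_lit 27121) (L (nat_lit 17156995))
(L (nat_lit 15911846)))
(L (nat_lit 7260676)))
(S (nat_lit 30766) (S (nat_lit 51695) (S (nat_lit 44663) (L (nat_lit 27642307))
(L (nat_lit 15059032)))
(L (nat_lit 15026264)))
(S (nat_lit 50530) (S (nat_lit 54161) (S (nat_lit 1247) (S (nat_lit 28823) (L (nat_lit 2443803))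
(L (nat_lit 347053)))
(L (nat_lit 11356305)))
(L (nat_lit 27740420)))
(L (nat_lit 25628393)))))
(S (nat_lit 26877) (S (nat_lit 35126) (S (nat_lit 54161) (L (nat_lit 30460422))
(L (nat_lit 27347216)))
(L (nat_lit 9357797)))
(S (nat_lit 46641) (S (nat_lit 54161) (S (nat_lit 7342) (S (nat_lit 46642) (S (nat_lit 46885) (L (nat_lit 29641221))
(L (nat_lit 10242530)))
(L (nat_lit 20718735)))
(S (nat_lit 27106) (S (nat_lit 27105) (S (nat_lit 8264) (S (nat_lit 46642) (S (nat_lit 26356) (L (nat_lit 29436492))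
(L (nat_lit 14772530)))
(L (nat_lit 17408057)))
(L (nat_lit 26643080)))
(S (nat_lit 37660) (L (nat_lit 14967862))
(L (nat_lit 19359008))))
(S (nat_lit 46870) (S (nat_lit 46119) (S (nat_lit 1247) (S (nat_lit 50529) (L (nat_lit 13420651))
(L (nat_lit 20384061)))
(L (nat_lit 20406311)))
(S (nat_lit 49604) (S (nat_lit 49881) (L (nat_lit 10269411))
(L (nat_lit 15485156)))
(L (nat_lit 17368966))))
(L (nat_lit 25273967)))))
(L (nat_lit 6179088)))
(L (nat_lit 25509014)))))
(S (nat_lit 52946) (S (nat_lit 1) (S (nat_lit 44420) (L (nat_lit 2312600))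
(L (nat_lit 13420587)))
(S (nat_lit 19765) (L (nat_lit 14698842))
(S (nat_lit 39529) (S (nat_lit 4892) (S (nat_lit 27121) (L (nat_lit 29477255))
(L (nat_lit 15517798)))
(S (nat_lit 24656) (S (nat_lit 8330) (L (nat_lit 10242561))
(L (nat_lit 9554769)))
(S (nat_lit 44420) (L (nat_lit 2312600))
(L (nat_lit 25431479)))))
(L (nat_lit 25396815)))))
(L (nat_lit 25898529)))))
(S (nat_lit 52673) (S (nat_lit 13418) (S (nat_lit 10936) (S (nat_lit 10986) (S (nat_lit 7356) (S (nat_lit 8330) (S (nat_lit 8315) (S (nat_lit 8081) (L (nat_lit 3849436))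
(L (nat_lit 927251)))
(L (nat_lit 23315329)))
(L (nat_lit 21929137)))
(L (nat_lit 1301976)))
(S (nat_lit 30750) (S (nat_lit 8330) (S (nat_lit 56598) (S (nat_lit 21011) (L (nat_lit 16525364))
(L (nat_lit 4989585)))
(L (nat_lit 8908418)))
(L (nat_lit 5152337)))
(S (nat_lit 50514) (S (nat_lit 7290) (S (nat_lit 36811) (L (nat_lit 29377748))
(L (nat_lit 19941258)))
(S (nat_lit 41597) (L (nat_lit 16871634))
(L (nat_lit 840106))))
(L (nat_lit 25465302)))))
(S (nat_lit 30700) (S (nat_lit 17047) (S (nat_lit 48299) (S (nat_lit 10935) (L (nat_lit 27278708))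
(L (nat_lit 17852103)))
(L (nat_lit 13658699)))
(S (nat_lit 36811) (S (nat_lit 54839) (S (nat_lit 48299) (S (nat_lit 45185) (L (nat_lit 15749994))
(L (nat_lit 872812)))
(L (nat_lit 22276205)))
(L (nat_lit 21001738)))
(S (nat_lit 56575) (S (nat_lit 9044) (L (nat_lit 6307548))
(L (nat_lit 6311823)))
(L (nat_lit 25506533)))))
(S (nat_lit 50464) (S (nat_lit 5177) (S (nat_lit 4934) (L (nat_lit 6320752))
(S (nat_lit 24698) (S (nat_lit 9044) (L (nat_lit 18779508))
(L (nat_lit 2520683)))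
(S (nat_lit 44462) (S (nat_lit 19765) (S (nat_lit 54161) (L (nat_lit 31129836))
(L (nat_lit 7039524)))
(L (nat_lit 22413560)))
(L (nat_lit 25178327)))))
(S (nat_lit 24941) (S (nat_lit 21011) (S (nat_lit 17070) (S (nat_lit 7356) (S (nat_lit 51710) (L (nat_lit 19980656))
(L (nat_lit 8097676)))
(L (nat_lit 13208953)))
(L (nat_lit 22062521)))
(L (nat_lit 7247504)))
(S (nat_lit 44705) (S (nat_lit 51752) (S (nat_lit 28535) (S (nat_lit 46819) (L (nat_lit 5494168))
(L (nat_lit 27275974)))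
(L (nat_lit 10108837)))
(L (nat_lit 12656565)))
(L (nat_lit 25352681)))))
(L (nat_lit 25723122)))))
(S (nat_lit 33182) (S (nat_lit 12182) (S (nat_lit 6827) (S (nat_lit 7048) (S (nat_lit 13367) (S (nat_lit 46642) (S (nat_lit 49787) (S (nat_lit 32948) (S (nat_lit 31988) (S (nat_lit 17071) (L (nat_lit 28709579))
(L (nat_lit 24404389)))
(L (nat_lit 14326905)))
(L (nat_lit 3743537)))
(L (nat_lit 8806547)))
(S (nat_lit 54833) (L (nat_lit 15342648))
(L (nat_lit 18630916))))
(L (nat_lit 12805268)))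
(S (nat_lit 26812) (S (nat_lit 28094) (S (nat_lit 1247) (S (nat_lit 49787) (L (nat_lit 29470965))
(L (nat_lit 8806579)))
(L (nat_lit 13846589)))
(S (nat_lit 28688) (L (nat_lit 26626405))
(L (nat_lit 14901269))))
(S (nat_lit 46576) (S (nat_lit 28808) (S (nat_lit 5642) (S (nat_lit 4934) (L (nat_lit 3550937))
(L (nat_lit 26631275)))
(L (nat_lit 15948706)))
(S (nat_lit 38200) (L (nat_lit 451892))
(L (nat_lit 18613619))))
(L (nat_lit 25336463)))))
(S (nat_lit 26591) (S (nat_lit 7342) (S (nat_lit 54161) (S (nat_lit 11001) (S (nat_lit 1289) (L (nat_lit 20999504))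
(L (nat_lit 19104528)))
(L (nat_lit 21892401)))
(L (nat_lit 19121336)))
(S (nat_lit 27106) (S (nat_lit 26877) (S (nat_lit 28808) (S (nat_lit 30700) (S (nat_lit 27121) (S (nat_lit 5591) (L (nat_lit 31016128))
(L (nat_lit 6040055)))
(L (nat_lit 19697006)))
(L (nat_lit 10159672)))
(L (nat_lit 5860717)))
(L (nat_lit 19708967)))
(S (nat_lit 46870) (S (nat_lit 16648) (L (nat_lit 22234139))
(L (nat_lit 18049043)))
(L (nat_lit 25773347)))))
(S (nat_lit 46355) (S (nat_lit 5657) (S (nat_lit 26877) (S (nat_lit 5135) (S (nat_lit 19830) (S (nat_lit 28808) (L (nat_lit 15845755))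
(L (nat_lit 9342387)))
(L (nat_lit 21356993)))
(L (nat_lit 20817996)))
(L (nat_lit 9462260)))
(S (nat_lit 25421) (S (nat_lit 31988) (S (nat_lit 56575) (S (nat_lit 28550) (L (nat_lit 1297264))
(L (nat_lit 30810131)))
(L (nat_lit 27493100)))
(L (nat_lit 1515161)))
(S (nat_lit 45185) (S (nat_lit 6729) (L (nat_lit 21205560))
(S (nat_lit 39579) (S (nat_lit 51752) (S (nat_lit 54161) (S (nat_lit 8042) (S (nat_lit 46626) (S (nat_lit 32924) (S (nat_lit 36811) (L (nat_lit 9833146))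
(L (nat_lit 6204076)))
(L (nat_lit 9035825)))
(L (nat_lit 483670)))
(L (nat_lit 26615891)))
(L (nat_lit 18571398)))
(L (nat_lit 14701912)))
(L (nat_lit 5036396))))
(L (nat_lit 25636480)))))
(L (nat_lit 25593109)))))
(S (nat_lit 31946) (S (nat_lit 5657) (S (nat_lit 12224) (S (nat_lit 25406) (S (nat_lit 30023) (S (nat_lit 54161) (S (nat_lit 5177) (S (nat_lit 46642) (L (nat_lit 4449779))
(L (nat_lit 18155314)))
(L (nat_lit 19340317)))
(L (nat_lit 18081940)))
(L (nat_lit 19271961)))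
(S (nat_lit 55985) (L (nat_lit 20324410))
(L (nat_lit 6842048))))
(S (nat_lit 41668) (L (nat_lit 3558313))
(L (nat_lit 26528940))))
(S (nat_lit 25421) (S (nat_lit 31988) (S (nat_lit 5300) (L (nat_lit 17465659))
(S (nat_lit 25406) (S (nat_lit 54161) (S (nat_lit 46642) (S (nat_lit 26341) (S (nat_lit 30023) (L (nat_lit 25069990))
(L (nat_lit 24682649)))
(L (nat_lit 18890537)))
(L (nat_lit 17106834)))
(L (nat_lit 4541200)))
(L (nat_lit 30835399))))
(S (nat_lit 54556) (S (nat_lit 1247) (L (nat_lit 7392177))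
(L (nat_lit 8873602)))
(L (nat_lit 1515161))))
(S (nat_lit 45185) (S (nat_lit 7099) (S (nat_lit 17046) (S (nat_lit 51752) (S (nat_lit 26341) (L (nat_lit 1683835))
(L (nat_lit 3891566)))
(L (nat_lit 9464307)))
(S (nat_lit 26059) (L (nat_lit 18891527))
(L (nat_lit 9850008))))
(S (nat_lit 26863) (S (nat_lit 51752) (S (nat_lit 46394) (S (nat_lit 36811) (S (nat_lit 19815) (S (nat_lit 10208) (S (nat_lit 9044) (L (nat_lit 28821611))
(L (nat_lit 17559873)))
(L (nat_lit 1358643)))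
(L (nat_lit 8875712)))
(L (nat_lit 20717061)))
(L (nat_lit 22820161)))
(L (nat_lit 12897464)))
(S (nat_lit 46627) (S (nat_lit 51752) (S (nat_lit 1232) (S (nat_lit 46394) (L (nat_lit 20148768))
(L (nat_lit 18614645)))
(L (nat_lit 8835968)))
(L (nat_lit 466586)))
(L (nat_lit 25430546)))))
(L (nat_lit 25629319)))))
(S (nat_lit 51710) (S (nat_lit 5120) (S (nat_lit 14648) (S (nat_lit 44420) (S (nat_lit 28079) (S (nat_lit 7290) (L (nat_lit 10501757))
(L (nat_lit 288148)))
(L (nat_lit 7368304)))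
(L (nat_lit 280250)))
(S (nat_lit 34412) (S (nat_lit 36810) (S (nat_lit 28079) (L (nat_lit 26814508))
(L (nat_lit 957041)))
(L (nat_lit 20327298)))
(S (nat_lit 54176) (S (nat_lit 1232) (S (nat_lit 46642) (S (nat_lit 36810) (S (nat_lit 47609) (L (nat_lit 18124378))
(L (nat_lit 5779128)))
(L (nat_lit 5876188)))
(L (nat_lit 802377)))
(S (nat_lit 33491) (L (nat_lit 20079824))
(L (nat_lit 19662065))))
(L (nat_lit 25692404)))))
(S (nat_lit 24884) (S (nat_lit 6592) (S (nat_lit 36811) (S (nat_lit 45170) (S (nat_lit 15377) (L (nat_lit 19118917))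
(L (nat_lit 8275026)))
(L (nat_lit 14900312)))
(L (nat_lit 19948042)))
(S (nat_lit 26356) (S (nat_lit 46642) (S (nat_lit 28028) (S (nat_lit 19816) (L (nat_lit 29076529))
(L (nat_lit 10246659)))
(L (nat_lit 6106832)))
(L (nat_lit 18696484)))
(S (nat_lit 46120) (S (nat_lit 44616) (L (nat_lit 17533145))
(S (nat_lit 56560) (S (nat_lit 25355) (S (nat_lit 17046) (S (nat_lit 7047) (L (nat_lit 5708563))
(L (nat_lit 21204376)))
(L (nat_lit 22191641)))
(L (nat_lit 7227500)))
(L (nat_lit 3906353))))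
(L (nat_lit 25254190)))))
(S (nat_lit 44648) (S (nat_lit 7098) (S (nat_lit 54161) (S (nat_lit 32948) (L (nat_lit 14739047))
(L (nat_lit 23423524)))
(L (nat_lit 6918680)))
(S (nat_lit 26862) (S (nat_lit 45170) (S (nat_lit 26341) (L (nat_lit 1296922))
(L (nat_lit 18922872)))
(L (nat_lit 14737159)))
(S (nat_lit 46626) (L (nat_lit 27314599))
(L (nat_lit 25209366)))))
(L (nat_lit 25510628)))))
(L (nat_lit 25221543)))))
(S (nat_lit 52946) (S (nat_lit 10936) (S (nat_lit 15362) (S (nat_lit 26244) (L (nat_lit 21796207))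
(S (nat_lit 51710) (S (nat_lit 15311) (S (nat_lit 50463) (L (nat_lit 517770))
(L (nat_lit 27480609)))
(L (nat_lit 14686994)))
(L (nat_lit 217530))))
(S (nat_lit 35126) (S (nat_lit 24656) (S (nat_lit 30038) (L (nat_lit 4639655))
(L (nat_lit 13420869)))
(L (nat_lit 4999594)))
(S (nat_lit 54890) (S (nat_lit 28823) (S (nat_lit 51710) (S (nat_lit 28550) (L (nat_lit 19119290))
(L (nat_lit 17910667)))
(L (nat_lit 22068440)))
(L (nat_lit 13420555)))
(L (nat_lit 25743498)))))
(S (nat_lit 30700) (S (nat_lit 8993) (S (nat_lit 15362) (S (nat_lit 46575) (S (nat_lit 36796) (L (nat_lit 17376408))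
(L (nat_lit 769272)))
(L (nat_lit 27513005)))
(S (nat_lit 35126) (S (nat_lit 24656) (S (nat_lit 30038) (L (nat_lit 10931105))
(L (nat_lit 13420869)))
(L (nat_lit 4999594)))
(S (nat_lit 54890) (S (nat_lit 54161) (L (nat_lit 12470417))
(L (nat_lit 7131684)))
(L (nat_lit 25446885)))))
(S (nat_lit 28757) (S (nat_lit 40775) (S (nat_lit 30699) (S (nat_lit 22642) (L (nat_lit 3360563))
(L (nat_lit 217592)))
(S (nat_lit 45243) (L (nat_lit 18646227))
(L (nat_lit 19130417))))
(L (nat_lit 9901720)))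
(S (nat_lit 48521) (S (nat_lit 5177) (L (nat_lit 18884154))
(S (nat_lit 24941) (S (nat_lit 40775) (S (nat_lit 10208) (L (nat_lit 3974579))
(L (nat_lit 12374469)))
(L (nat_lit 10262160)))
(S (nat_lit 44705) (S (nat_lit 46818) (L (nat_lit 27478432))
(L (nat_lit 27283880)))
(L (nat_lit 25465452)))))
(L (nat_lit 25823471)))))
(S (nat_lit 50464) (S (nat_lit 8771) (S (nat_lit 7047) (S (nat_lit 28094) (L (nat_lit 23322672))
(L (nat_lit 215513)))
(S (nat_lit 26811) (L (nat_lit 7393850))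
(S (nat_lit 46575) (S (nat_lit 17031) (L (nat_lit 27493810))
(L (nat_lit 4989648)))
(L (nat_lit 25337549)))))
(S (nat_lit 28535) (S (nat_lit 8993) (S (nat_lit 7356) (S (nat_lit 7290) (L (nat_lit 12841044))
(L (nat_lit 21389569)))
(L (nat_lit 253400)))
(S (nat_lit 28757) (S (nat_lit 40775) (L (nat_lit 24338977))
(L (nat_lit 9901720)))
(S (nat_lit 48521) (S (nat_lit 35075) (L (nat_lit 7389043))
(L (nat_lit 3916025)))
(L (nat_lit 25692403)))))
(S (nat_lit 48299) (S (nat_lit 7290) (L (nat_lit 13650794))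
(L (nat_lit 12608138)))
(L (nat_lit 25701459)))))
(L (nat_lit 25362994)))))
(L (nat_lit 25799792)))))
(L (nat_lit 25186763)))))
(L (nat_lit 25922950)))))

theorem rb177_1 : run 4 lb177 [] tb177_1 kb177 (P4 4 2202 0 2306 0 0 0 1 0) [] = true := by
  decide +kernel

noncomputable def tb246_0_2 : Tr :=
(S (nat_lit 40807) (S (nat_lit 1763) (S (nat_lit 15323) (S (nat_lit 1277) (S (nat_lit 11010) (S (nat_lit 14) (S (nat_lit 17496) (S (nat_lit 10949) (S (nat_lit 8748) (S (nat_lit 1732) (L (nat_lit 17854775))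
(L (nat_lit 12608757)))
(L (nat_lit 23075632)))
(L (nat_lit 21171644)))
(S (nat_lit 37341) (L (nat_lit 18557825))
(L (nat_lit 26412721))))
(S (nat_lit 19778) (S (nat_lit 1732) (S (nat_lit 1019) (S (nat_lit 28526) (L (nat_lit 14691127))
(L (nat_lit 18884527)))
(L (nat_lit 18903313)))
(L (nat_lit 26233322)))
(S (nat_lit 39542) (S (nat_lit 41547) (S (nat_lit 35073) (S (nat_lit 50463) (S (nat_lit 30713) (S (nat_lit 41293) (S (nat_lit 20778) (S (nat_lit 39570) (S (nat_lit 62) (S (nat_lit 54862) (S (nat_lit 19839) (S (nat_lit 19789) (S (nat_lit 1986) (S (nat_lit 21770) (S (nat_lit 41497) (S (nat_lit 21512) (S (nat_lit 21026) (S (nat_lit 54884) (S (nat_lit 50525) (S (nat_lit 39592) (S (nat_lit 1958) (S (nat_lit 40562) (S (nat_lit 1047) (S (nat_lit 20750) (S (nat_lit 21004) (S (nat_lit 40757) (S (nat_lit 41243) (S (nat_lit 7444) (S (nat_lit 49962) (S (nat_lit 27650) (S (nat_lit 10448) (S (nat_lit 14517) (S (nat_lit 37641) (S (nat_lit 13786) (S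 (nat_lit 58603) (S (nat_lit 14579) (S (nat_lit 57156) (S (nat_lit 17120) (S (nat_lit 14198) (S (nat_lit 32114) (D (nat_lit 13) (nat_lit 9496140) (nat_lit 16062226) (nat_lit 3578915952641))
(L (nat_lit 21774374)))
(L (nat_lit 23904449)))
(S (nat_lit 56705) (S (nat_lit 37307) (S (nat_lit 48916) (D (nat_lit 15) (nat_lit 31041548) (nat_lit 25741572) (nat_lit 106341602304))
(L (nat_lit 28947462)))
(L (nat_lit 31043812)))
(L (nat_lit 11394189))))
(L (nat_lit 28946471)))
(L (nat_lit 29966624)))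
(L (nat_lit 10374656)))
(L (nat_lit 18010024)))
(L (nat_lit 14807319)))
(L (nat_lit 16970410)))
(L (nat_lit 20148365)))
(L (nat_lit 20148610)))
(L (nat_lit 19100034)))
(S (nat_lit 8812) (S (nat_lit 6496) (S (nat_lit 23044) (S (nat_lit 8762) (S (nat_lit 9567) (S (nat_lit 9598) (S (nat_lit 23361) (S (nat_lit 10073) (S (nat_lit 31170) (S (nat_lit 21159) (D (nat_lit 13) (nat_lit 27863089) (nat_lit 25282950) (nat_lit 6807624914152))
(L (nat_lit 27869472)))
(L (nat_lit 27898919)))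
(L (nat_lit 27861440)))
(L (nat_lit 27674816)))
(L (nat_lit 27865282)))
(S (nat_lit 40711) (S (nat_lit 32368) (S (nat_lit 48430) (D (nat_lit 15) (nat_lit 29954440) (nat_lit 19664296) (nat_lit 69797481573))
(L (nat_lit 15551717)))
(L (nat_lit 27867365)))
(L (nat_lit 7134254))))
(L (nat_lit 21457995)))
(L (nat_lit 23257457)))
(L (nat_lit 29545930)))
(S (nat_lit 28983) (S (nat_lit 28136) (S (nat_lit 57664) (S (nat_lit 8383) (S (nat_lit 48686) (S (nat_lit 38607) (S (nat_lit 14780) (S (nat_lit 8748) (S (nat_lit 56733) (S (nat_lit 31809) (D (nat_lit 15) (nat_lit 26843525) (nat_lit 25440835) (nat_lit 4569695269))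
(L (nat_lit 29015396)))
(L (nat_lit 30097481)))
(S (nat_lit 12345) (S (nat_lit 31913) (S (nat_lit 14198) (D (nat_lit 13) (nat_lit 9463372) (nat_lit 16062226) (nat_lit 7840597120005))
(L (nat_lit 23904449)))
(L (nat_lit 21805280)))
(L (nat_lit 550132))))
(L (nat_lit 29993009)))
(L (nat_lit 21032239)))
(L (nat_lit 1797675)))
(L (nat_lit 10668507)))
(L (nat_lit 8571824)))
(L (nat_lit 8581776)))
(L (nat_lit 15311930)))))
(L (nat_lit 27336151)))
(L (nat_lit 27526615)))
(L (nat_lit 21261825)))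
(L (nat_lit 16602467)))
(L (nat_lit 20477124)))
(L (nat_lit 17036406)))
(L (nat_lit 20036454)))
(L (nat_lit 5776245)))
(L (nat_lit 27892878)))
(L (nat_lit 19151928)))
(L (nat_lit 2006608)))
(L (nat_lit 8291920)))
(L (nat_lit 25068039)))
(L (nat_lit 30427344)))
(L (nat_lit 19970329)))
(L (nat_lit 8412014)))
(L (nat_lit 21506977)))
(L (nat_lit 11553212)))
(L (nat_lit 7047057)))
(L (nat_lit 23563613)))
(L (nat_lit 375602)))
(L (nat_lit 6869145)))
(L (nat_lit 24142251)))
(L (nat_lit 12611271)))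
(L (nat_lit 12610279)))
(L (nat_lit 24135467)))
(L (nat_lit 25803045)))))
(S (nat_lit 30774) (S (nat_lit 8762) (S (nat_lit 21512) (S (nat_lit 39559) (S (nat_lit 41254) (S (nat_lit 40562) (L (nat_lit 29892759))
(L (nat_lit 7892087)))
(L (nat_lit 25008239)))
(L (nat_lit 24943727)))
(L (nat_lit 30431622)))
(S (nat_lit 28526) (S (nat_lit 35148) (S (nat_lit 1246) (S (nat_lit 21512) (L (nat_lit 12592050))
(L (nat_lit 30417302)))
(L (nat_lit 12785493)))
(L (nat_lit 12969077)))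
(S (nat_lit 48290) (S (nat_lit 1019) (S (nat_lit 21512) (S (nat_lit 35148) (L (nat_lit 11979680))
(L (nat_lit 20296826)))
(L (nat_lit 22046088)))
(L (nat_lit 18903433)))
(L (nat_lit 25189930)))))
(S (nat_lit 50538) (S (nat_lit 31) (S (nat_lit 21512) (S (nat_lit 1732) (S (nat_lit 35115) (S (nat_lit 1019) (L (nat_lit 20179395))
(L (nat_lit 20149667)))
(L (nat_lit 20885856)))
(L (nat_lit 26457108)))
(L (nat_lit 22275459)))
(S (nat_lit 19795) (S (nat_lit 62) (S (nat_lit 8779) (S (nat_lit 40562) (L (nat_lit 734985))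
(L (nat_lit 8121456)))
(S (nat_lit 50111) (L (nat_lit 6435452))
(L (nat_lit 15458376))))
(S (nat_lit 19826) (S (nat_lit 50510) (S (nat_lit 41547) (L (nat_lit 1630923))
(L (nat_lit 2857437)))
(L (nat_lit 15000260)))
(S (nat_lit 39590) (S (nat_lit 1229) (S (nat_lit 21465) (S (nat_lit 20979) (S (nat_lit 30746) (S (nat_lit 35115) (S (nat_lit 21722) (S (nat_lit 41260) (S (nat_lit 21507) (S (nat_lit 56712) (S (nat_lit 23810) (L (nat_lit 22064538))
(L (nat_lit 23961987)))
(L (nat_lit 23964035)))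
(L (nat_lit 5923369)))
(L (nat_lit 23901413)))
(L (nat_lit 11105762)))
(L (nat_lit 3433104)))
(L (nat_lit 24392580)))
(L (nat_lit 7156325)))
(L (nat_lit 8204900)))
(L (nat_lit 19665264)))
(L (nat_lit 25495063)))))
(S (nat_lit 39559) (S (nat_lit 41254) (S (nat_lit 28526) (L (nat_lit 21196911))
(L (nat_lit 19083353)))
(S (nat_lit 49245) (L (nat_lit 9924724))
(L (nat_lit 18145396))))
(L (nat_lit 25282830)))))
(L (nat_lit 25532143)))))
(S (nat_lit 21041) (S (nat_lit 1014) (S (nat_lit 75) (S (nat_lit 30746) (S (nat_lit 40562) (L (nat_lit 26749664))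
(L (nat_lit 7901944)))
(L (nat_lit 14390091)))
(S (nat_lit 19839) (S (nat_lit 41260) (S (nat_lit 1019) (S (nat_lit 2019) (S (nat_lit 21512) (S (nat_lit 41472) (S (nat_lit 28512) (L (nat_lit 3808177))
(L (nat_lit 17853127)))
(L (nat_lit 8582578)))
(L (nat_lit 21226881)))
(L (nat_lit 18904397)))
(L (nat_lit 18903433)))
(S (nat_lit 54553) (L (nat_lit 26514094))
(L (nat_lit 1985775))))
(S (nat_lit 39603) (S (nat_lit 10949) (S (nat_lit 21507) (S (nat_lit 41260) (L (nat_lit 6870916))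
(L (nat_lit 17853780)))
(L (nat_lit 7365171)))
(S (nat_lit 23302) (S (nat_lit 34237) (L (nat_lit 19437693))
(L (nat_lit 26795115)))
(L (nat_lit 26460277))))
(L (nat_lit 25898464)))))
(S (nat_lit 20778) (S (nat_lit 1701) (S (nat_lit 15671) (L (nat_lit 4758232))
(S (nat_lit 41260) (S (nat_lit 21512) (S (nat_lit 41547) (S (nat_lit 28559) (L (nat_lit 8916603))
(L (nat_lit 2878987)))
(L (nat_lit 27269804)))
(L (nat_lit 30426726)))
(L (nat_lit 17846058))))
(S (nat_lit 21465) (S (nat_lit 21755) (S (nat_lit 39590) (S (nat_lit 50538) (S (nat_lit 40564) (S (nat_lit 37307) (L (nat_lit 29627924))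
(L (nat_lit 30953668)))
(L (nat_lit 1634891)))
(L (nat_lit 22817873)))
(L (nat_lit 4962123)))
(L (nat_lit 22815138)))
(S (nat_lit 41229) (S (nat_lit 15941) (S (nat_lit 34536) (L (nat_lit 11186204))
(L (nat_lit 9459469)))
(S (nat_lit 41260) (S (nat_lit 21512) (S (nat_lit 41547) (S (nat_lit 17560) (L (nat_lit 9309904))
(L (nat_lit 24504336)))
(L (nat_lit 27269587)))
(L (nat_lit 30426726)))
(L (nat_lit 27282671))))
(L (nat_lit 25251243)))))
(S (nat_lit 40542) (S (nat_lit 1262) (S (nat_lit 1246) (S (nat_lit 1765) (S (nat_lit 1019) (S (nat_lit 41260) (S (nat_lit 28512) (L (nat_lit 29571776))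
(L (nat_lit 18882384)))
(L (nat_lit 23081770)))
(L (nat_lit 19100035)))
(L (nat_lit 19097989)))
(S (nat_lit 24596) (L (nat_lit 19239321))
(L (nat_lit 18919803))))
(S (nat_lit 21026) (S (nat_lit 21512) (S (nat_lit 41260) (S (nat_lit 54837) (L (nat_lit 30673431))
(L (nat_lit 27284935)))
(L (nat_lit 27282887)))
(S (nat_lit 42831) (L (nat_lit 9985144))
(L (nat_lit 14706280))))
(S (nat_lit 40790) (S (nat_lit 1019) (S (nat_lit 1246) (S (nat_lit 21529) (S (nat_lit 35098) (S (nat_lit 19778) (S (nat_lit 21783) (S (nat_lit 54837) (S (nat_lit 41260) (S (nat_lit 50477) (S (nat_lit 30699) (S (nat_lit 1743) (S (nat_lit 20767) (S (nat_lit 1290) (S (nat_lit 41534) (S (nat_lit 21021) (S (nat_lit 1991) (S (nat_lit 20811) (S (nat_lit 19795) (S (nat_lit 35115) (S (nat_lit 15384) (S (nat_lit 35135) (S (nat_lit 47) (S (nat_lit 30763) (S (nat_lit 15340) (S (nat_lit 41243) (S (nat_lit 41497) (S (nat_lit 21722) (S (nat_lit 17560) (S (nat_lit 36397) (S (nat_lit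 55912) (S (nat_lit 12801) (S (nat_lit 13971) (S (nat_lit 6011) (S (nat_lit 57840) (D (nat_lit 15) (nat_lit 27480208) (nat_lit 1485586) (nat_lit 7688167590))
(L (nat_lit 22520578)))
(L (nat_lit 29938884)))
(S (nat_lit 18133) (S (nat_lit 3056) (S (nat_lit 3246) (S (nat_lit 17951) (S (nat_lit 27738) (S (nat_lit 29923) (D (nat_lit 13) (nat_lit 27709664) (nat_lit 1853831) (nat_lit 4396720357))
(L (nat_lit 21938371)))
(L (nat_lit 27731990)))
(L (nat_lit 30095370)))
(L (nat_lit 27730660)))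
(L (nat_lit 28000452)))
(L (nat_lit 23161197))))
(L (nat_lit 31081483)))
(L (nat_lit 9357857)))
(L (nat_lit 3058353)))
(S (nat_lit 41394) (S (nat_lit 639) (S (nat_lit 51069) (S (nat_lit 55018) (S (nat_lit 35313) (S (nat_lit 31791) (S (nat_lit 9829) (S (nat_lit 47971) (S (nat_lit 15153) (D (nat_lit 15) (nat_lit 28031111) (nat_lit 14737995) (nat_lit 70969953313))
(L (nat_lit 28431883)))
(L (nat_lit 19776682)))
(S (nat_lit 28574) (S (nat_lit 57840) (S (nat_lit 37307) (D (nat_lit 13) (nat_lit 27920684) (nat_lit 10667794) (nat_lit 77544325220))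
(L (nat_lit 31144164)))
(L (nat_lit 22520578)))
(L (nat_lit 25016459))))
(L (nat_lit 28487249)))
(L (nat_lit 2441013)))
(L (nat_lit 8479409)))
(L (nat_lit 21499099)))
(L (nat_lit 21525701)))
(S (nat_lit 56270) (S (nat_lit 36484) (S (nat_lit 16996) (S (nat_lit 1112) (S (nat_lit 882) (S (nat_lit 40366) (S (nat_lit 40148) (S (nat_lit 28559) (S (nat_lit 38654) (S (nat_lit 7044) (D (nat_lit 13) (nat_lit 29073861) (nat_lit 1853831) (nat_lit 7784631463))
(L (nat_lit 31049028)))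
(L (nat_lit 22541573)))
(S (nat_lit 50156) (S (nat_lit 23032) (S (nat_lit 19593) (D (nat_lit 11) (nat_lit 26804460) (nat_lit 11657804) (nat_lit 277160826915))
(L (nat_lit 28981353)))
(L (nat_lit 28981504)))
(L (nat_lit 18786325))))
(L (nat_lit 28808438)))
(L (nat_lit 3023471)))
(L (nat_lit 27418026)))
(L (nat_lit 27830295)))
(L (nat_lit 29862594)))
(L (nat_lit 27841730)))
(L (nat_lit 7957549)))))
(L (nat_lit 21143035)))
(L (nat_lit 24019215)))
(L (nat_lit 24026595)))
(L (nat_lit 17669730)))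
(L (nat_lit 19237373)))
(L (nat_lit 19166225)))
(L (nat_lit 20069226)))
(L (nat_lit 15616257)))
(L (nat_lit 18795655)))
(L (nat_lit 16052867)))
(L (nat_lit 30942884)))
(S (nat_lit 16034) (L (nat_lit 13704956))
(S (nat_lit 55542) (L (nat_lit 13959804))
(L (nat_lit 12056160)))))
(L (nat_lit 21029165)))
(L (nat_lit 27281616)))
(L (nat_lit 19401081)))
(L (nat_lit 20998510)))
(L (nat_lit 19371289)))
(L (nat_lit 9499281)))
(L (nat_lit 22028728)))
(L (nat_lit 24147402)))
(L (nat_lit 13856417)))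
(L (nat_lit 22037257)))
(L (nat_lit 20986635)))
(L (nat_lit 9453366)))
(L (nat_lit 221807)))
(L (nat_lit 19084132)))
(S (nat_lit 21141) (L (nat_lit 10502746))
(L (nat_lit 18903433))))
(L (nat_lit 25681218)))))
(L (nat_lit 25869540)))))
(S (nat_lit 40805) (S (nat_lit 17521) (S (nat_lit 21512) (S (nat_lit 40562) (S (nat_lit 19839) (S (nat_lit 8762) (S (nat_lit 21496) (S (nat_lit 14) (S (nat_lit 21739) (S (nat_lit 40575) (S (nat_lit 15309) (S (nat_lit 40564) (S (nat_lit 8773) (S (nat_lit 17496) (S (nat_lit 54884) (S (nat_lit 20736) (S (nat_lit 57071) (S (nat_lit 30761) (S (nat_lit 28574) (S (nat_lit 20761) (S (nat_lit 40164) (S (nat_lit 39570) (S (nat_lit 41486) (S (nat_lit 3510) (S (nat_lit 5468) (S (nat_lit 44786) (S (nat_lit 42842) (S (nat_lit 5313) (D (nat_lit 11) (nat_lit 30562730) (nat_lit 25767365) (nat_lit 106438957062))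
(L (nat_lit 30792096)))
(L (nat_lit 9263554)))
(L (nat_lit 9263587)))
(L (nat_lit 27932003)))
(S (nat_lit 4104) (S (nat_lit 23608) (S (nat_lit 26038) (S (nat_lit 5982) (D (nat_lit 11) (nat_lit 27349231) (nat_lit 25767427) (nat_lit 212877904899))
(L (nat_lit 27545984)))
(L (nat_lit 10408484)))
(L (nat_lit 27830356)))
(L (nat_lit 6339379))))
(L (nat_lit 27637910)))
(L (nat_lit 27579904)))
(L (nat_lit 28628481)))
(L (nat_lit 21898286)))
(L (nat_lit 8903460)))
(L (nat_lit 8874163)))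
(L (nat_lit 19409764)))
(L (nat_lit 16665924)))
(L (nat_lit 12171108)))
(L (nat_lit 26230007)))
(L (nat_lit 14701947)))
(L (nat_lit 24667206)))
(L (nat_lit 26236144)))
(L (nat_lit 17502088)))
(L (nat_lit 21017511)))
(L (nat_lit 26235184)))
(L (nat_lit 14699271)))
(L (nat_lit 20999563)))
(L (nat_lit 30970130)))
(L (nat_lit 7901946)))
(L (nat_lit 22046088)))
(S (nat_lit 37285) (S (nat_lit 21512) (S (nat_lit 37260) (S (nat_lit 10949) (S (nat_lit 14) (S (nat_lit 19826) (S (nat_lit 1246) (S (nat_lit 10935) (S (nat_lit 28554) (S (nat_lit 19839) (S (nat_lit 1014) (S (nat_lit 37274) (S (nat_lit 1765) (S (nat_lit 21755) (S (nat_lit 20761) (S (nat_lit 8810) (S (nat_lit 48853) (S (nat_lit 30761) (S (nat_lit 31821) (S (nat_lit 6559) (S (nat_lit 51300) (S (nat_lit 12802) (S (nat_lit 15508) (D (nat_lit 13) (nat_lit 30759086) (nat_lit 25767459) (nat_lit 3372760665089))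
(L (nat_lit 29985224)))
(L (nat_lit 31139333)))
(L (nat_lit 28760324)))
(L (nat_lit 31142084)))
(S (nat_lit 54533) (S (nat_lit 26464) (S (nat_lit 23014) (S (nat_lit 30807) (S (nat_lit 56505) (D (nat_lit 13) (nat_lit 26268075) (nat_lit 25763363) (nat_lit 1241248702720))
(L (nat_lit 19949961)))
(L (nat_lit 28901862)))
(L (nat_lit 25040972)))
(L (nat_lit 22573314)))
(L (nat_lit 26919016))))
(L (nat_lit 24463204)))
(L (nat_lit 346652)))
(L (nat_lit 350717)))
(L (nat_lit 345972)))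
(L (nat_lit 10536537)))
(L (nat_lit 12118165)))
(L (nat_lit 9462292)))
(L (nat_lit 13856452)))
(L (nat_lit 2878919)))
(L (nat_lit 2673447)))
(L (nat_lit 23093489)))
(L (nat_lit 13853348)))
(L (nat_lit 2877808)))
(L (nat_lit 19939147)))
(L (nat_lit 7357180)))
(L (nat_lit 16799558)))
(L (nat_lit 30432646)))
(S (nat_lit 57049) (S (nat_lit 21512) (S (nat_lit 1019) (S (nat_lit 28526) (S (nat_lit 19839) (S (nat_lit 10935) (S (nat_lit 8795) (S (nat_lit 14) (S (nat_lit 1246) (S (nat_lit 1014) (S (nat_lit 21739) (S (nat_lit 50510) (S (nat_lit 39570) (S (nat_lit 28537) (S (nat_lit 57612) (S (nat_lit 54868) (S (nat_lit 1257) (S (nat_lit 22619) (S (nat_lit 47729) (S (nat_lit 33025) (S (nat_lit 31826) (S (nat_lit 52131) (S (nat_lit 35181) (D (nat_lit 13) (nat_lit 26367401) (nat_lit 25762339) (nat_lit 1271482293255))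
(L (nat_lit 21557440)))
(L (nat_lit 19699727)))
(L (nat_lit 29007329)))
(L (nat_lit 21557506)))
(L (nat_lit 30098723)))
(S (nat_lit 24293) (S (nat_lit 17187) (S (nat_lit 23862) (S (nat_lit 36443) (S (nat_lit 50436) (D (nat_lit 13) (nat_lit 25384109) (nat_lit 19670565) (nat_lit 180523073729))
(L (nat_lit 29998119)))
(L (nat_lit 28746930)))
(L (nat_lit 10411557)))
(L (nat_lit 31174852)))
(L (nat_lit 10950235))))
(L (nat_lit 8901507)))
(L (nat_lit 27985201)))
(L (nat_lit 28586593)))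
(L (nat_lit 10308785)))
(L (nat_lit 24612614)))
(L (nat_lit 28028939)))
(L (nat_lit 21016829)))
(L (nat_lit 13652874)))
(L (nat_lit 12805796)))
(L (nat_lit 6306647)))
(L (nat_lit 26776267)))
(L (nat_lit 17847046)))
(L (nat_lit 9999282)))
(L (nat_lit 24142218)))
(L (nat_lit 18903433)))
(L (nat_lit 30431622)))
(L (nat_lit 25400976)))))
(L (nat_lit 25892081)))))
(S (nat_lit 35087) (S (nat_lit 8812) (S (nat_lit 10999) (S (nat_lit 1240) (S (nat_lit 42) (S (nat_lit 8823) (L (nat_lit 828820))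
(L (nat_lit 8277536)))
(L (nat_lit 26498592)))
(S (nat_lit 21004) (S (nat_lit 1975) (L (nat_lit 12770553))
(L (nat_lit 11587439)))
(S (nat_lit 40768) (S (nat_lit 37274) (L (nat_lit 13805277))
(L (nat_lit 23628555)))
(L (nat_lit 25582820)))))
(S (nat_lit 30763) (S (nat_lit 1034) (S (nat_lit 41497) (S (nat_lit 40768) (L (nat_lit 2680116))
(L (nat_lit 18778827)))
(L (nat_lit 8784601)))
(S (nat_lit 20798) (S (nat_lit 28537) (L (nat_lit 12260175))
(L (nat_lit 31077699)))
(S (nat_lit 40562) (S (nat_lit 40768) (S (nat_lit 37954) (L (nat_lit 275381))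
(L (nat_lit 27707430)))
(L (nat_lit 17664715)))
(L (nat_lit 25272854)))))
(S (nat_lit 50527) (S (nat_lit 12606) (L (nat_lit 7943045))
(S (nat_lit 28537) (S (nat_lit 57038) (S (nat_lit 48307) (L (nat_lit 11586971))
(L (nat_lit 12317804)))
(L (nat_lit 12609130)))
(L (nat_lit 12833976))))
(L (nat_lit 25867458)))))
(S (nat_lit 28576) (S (nat_lit 1003) (S (nat_lit 2006) (S (nat_lit 25) (S (nat_lit 1014) (S (nat_lit 40818) (S (nat_lit 57055) (L (nat_lit 28396845))
(L (nat_lit 13507266)))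
(L (nat_lit 18556805)))
(L (nat_lit 13446258)))
(L (nat_lit 12607401)))
(L (nat_lit 20198272)))
(S (nat_lit 20767) (S (nat_lit 37274) (S (nat_lit 21512) (S (nat_lit 48301) (L (nat_lit 5497453))
(L (nat_lit 11559532)))
(L (nat_lit 14688891)))
(S (nat_lit 39134) (L (nat_lit 9527826))
(L (nat_lit 10207353))))
(S (nat_lit 40531) (S (nat_lit 31550) (L (nat_lit 9451284))
(S (nat_lit 37274) (L (nat_lit 26430543))
(L (nat_lit 10215532))))
(L (nat_lit 25825486)))))
(S (nat_lit 48340) (S (nat_lit 972) (S (nat_lit 17510) (L (nat_lit 28318318))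
(S (nat_lit 36370) (L (nat_lit 12594813))
(L (nat_lit 16509035))))
(S (nat_lit 20736) (S (nat_lit 41472) (L (nat_lit 11547415))
(L (nat_lit 24228777)))
(S (nat_lit 40500) (S (nat_lit 1246) (S (nat_lit 41472) (S (nat_lit 37307) (L (nat_lit 7467442))
(L (nat_lit 2372283)))
(L (nat_lit 23966053)))
(L (nat_lit 20787553)))
(L (nat_lit 25505939)))))
(L (nat_lit 25347314)))))
(S (nat_lit 54851) (S (nat_lit 1975) (S (nat_lit 1262) (S (nat_lit 14) (S (nat_lit 28607) (L (nat_lit 29371797))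
(S (nat_lit 30713) (S (nat_lit 8762) (L (nat_lit 26458229))
(L (nat_lit 26423876)))
(L (nat_lit 13880228))))
(S (nat_lit 19778) (S (nat_lit 1003) (S (nat_lit 1748) (S (nat_lit 10977) (L (nat_lit 13364331))
(L (nat_lit 26817889)))
(L (nat_lit 26679905)))
(L (nat_lit 12805765)))
(S (nat_lit 39542) (S (nat_lit 11320) (S (nat_lit 1277) (S (nat_lit 21755) (L (nat_lit 29497750))
(L (nat_lit 30464392)))
(L (nat_lit 19109776)))
(S (nat_lit 26566) (L (nat_lit 23127277))
(L (nat_lit 13690226))))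
(L (nat_lit 25613605)))))
(S (nat_lit 21026) (S (nat_lit 15351) (S (nat_lit 40743) (S (nat_lit 40514) (L (nat_lit 15958618))
(L (nat_lit 7988400)))
(L (nat_lit 10334386)))
(S (nat_lit 35115) (S (nat_lit 1715) (S (nat_lit 40774) (S (nat_lit 75) (S (nat_lit 21041) (S (nat_lit 41229) (S (nat_lit 22583) (L (nat_lit 29437491))
(L (nat_lit 26227306)))
(L (nat_lit 4105837)))
(L (nat_lit 7025691)))
(L (nat_lit 19835981)))
(L (nat_lit 27308245)))
(L (nat_lit 10239159)))
(S (nat_lit 54879) (S (nat_lit 50477) (S (nat_lit 20979) (L (nat_lit 13953601))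
(L (nat_lit 4476346)))
(L (nat_lit 19933070)))
(L (nat_lit 25732245)))))
(S (nat_lit 40790) (S (nat_lit 15373) (S (nat_lit 8923) (L (nat_lit 8415637))
(S (nat_lit 48290) (L (nat_lit 29371797))
(L (nat_lit 13674234))))
(S (nat_lit 35137) (S (nat_lit 32023) (L (nat_lit 10271926))
(S (nat_lit 57038) (L (nat_lit 13643384))
(L (nat_lit 12808306))))
(S (nat_lit 54901) (S (nat_lit 1944) (S (nat_lit 1732) (S (nat_lit 1748) (S (nat_lit 47) (S (nat_lit 11010) (S (nat_lit 37366) (L (nat_lit 6853212))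
(L (nat_lit 18900360)))
(L (nat_lit 26916967)))
(L (nat_lit 1918571)))
(L (nat_lit 12055137)))
(L (nat_lit 13814010)))
(L (nat_lit 10276227)))
(L (nat_lit 25600022)))))
(L (nat_lit 25632322)))))
(S (nat_lit 21739) (S (nat_lit 25) (S (nat_lit 10935) (S (nat_lit 21750) (S (nat_lit 21496) (S (nat_lit 54862) (S (nat_lit 21512) (S (nat_lit 1257) (S (nat_lit 32248) (L (nat_lit 8000061))
(L (nat_lit 26233322)))
(L (nat_lit 3369677)))
(L (nat_lit 31070625)))
(L (nat_lit 20987657)))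
(L (nat_lit 31075502)))
(L (nat_lit 15786729)))
(S (nat_lit 30699) (S (nat_lit 40564) (S (nat_lit 15334) (S (nat_lit 57024) (L (nat_lit 18059993))
(L (nat_lit 21034223)))
(L (nat_lit 22255500)))
(L (nat_lit 23860494)))
(S (nat_lit 50463) (S (nat_lit 57024) (L (nat_lit 10537531))
(L (nat_lit 18890662)))
(L (nat_lit 25822695)))))
(S (nat_lit 19789) (S (nat_lit 8790) (S (nat_lit 41293) (S (nat_lit 1732) (S (nat_lit 19839) (S (nat_lit 1986) (L (nat_lit 5982087))
(L (nat_lit 19972011)))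
(L (nat_lit 30944929)))
(L (nat_lit 9462228)))
(L (nat_lit 3363758)))
(S (nat_lit 28554) (S (nat_lit 35120) (S (nat_lit 28526) (L (nat_lit 8971875))
(L (nat_lit 9450421)))
(L (nat_lit 3728596)))
(S (nat_lit 48318) (S (nat_lit 40774) (L (nat_lit 29634740))
(L (nat_lit 27479086)))
(L (nat_lit 25243990)))))
(S (nat_lit 39553) (S (nat_lit 17571) (S (nat_lit 20767) (S (nat_lit 40743) (L (nat_lit 29534613))
(L (nat_lit 7942333)))
(L (nat_lit 21929999)))
(S (nat_lit 37335) (S (nat_lit 1003) (L (nat_lit 29754709))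
(L (nat_lit 2314095)))
(S (nat_lit 57099) (S (nat_lit 1003) (L (nat_lit 11309492))
(L (nat_lit 2314063)))
(L (nat_lit 25569985)))))
(L (nat_lit 25419267)))))
(S (nat_lit 41503) (S (nat_lit 8762) (L (nat_lit 8434268))
(S (nat_lit 28526) (L (nat_lit 26259764))
(S (nat_lit 48290) (L (nat_lit 18886040))
(L (nat_lit 25386372)))))
(L (nat_lit 25824495)))))
(L (nat_lit 25927791)))))
(S (nat_lit 21527) (S (nat_lit 10966) (S (nat_lit 15371) (S (nat_lit 17538) (S (nat_lit 25) (S (nat_lit 19826) (S (nat_lit 8823) (S (nat_lit 21512) (L (nat_lit 26395959))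
(L (nat_lit 30639728)))
(L (nat_lit 1977748)))
(S (nat_lit 41223) (S (nat_lit 8823) (S (nat_lit 21512) (S (nat_lit 41190) (S (nat_lit 42) (S (nat_lit 15323) (S (nat_lit 17521) (S (nat_lit 10977) (S (nat_lit 21490) (S (nat_lit 64) (S (nat_lit 1986) (S (nat_lit 21124) (S (nat_lit 1958) (S (nat_lit 40785) (S (nat_lit 41212) (S (nat_lit 41162) (S (nat_lit 62) (S (nat_lit 972) (S (nat_lit 1019) (S (nat_lit 5209) (S (nat_lit 13731) (S (nat_lit 42587) (S (nat_lit 54474) (S (nat_lit 7142) (S (nat_lit 4854) (S (nat_lit 28202) (D (nat_lit 13) (nat_lit 14569764) (nat_lit 6048298) (nat_lit 2205567418470))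
(L (nat_lit 27680066)))
(L (nat_lit 29830323)))
(L (nat_lit 27380171)))
(L (nat_lit 10374661)))
(L (nat_lit 19740963)))
(L (nat_lit 27900259)))
(S (nat_lit 43528) (S (nat_lit 26026) (S (nat_lit 13569) (S (nat_lit 4988) (S (nat_lit 6041) (S (nat_lit 43572) (D (nat_lit 13) (nat_lit 14506086) (nat_lit 25761136) (nat_lit 2202446856387))
(L (nat_lit 19734672)))
(L (nat_lit 29893188)))
(L (nat_lit 27798082)))
(L (nat_lit 29997380)))
(L (nat_lit 27867396)))
(L (nat_lit 12121236))))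
(L (nat_lit 11171235)))
(L (nat_lit 4841804)))
(L (nat_lit 26948964)))
(L (nat_lit 5894600)))
(L (nat_lit 10547605)))
(L (nat_lit 23266843)))
(L (nat_lit 20094801)))
(L (nat_lit 26229318)))
(L (nat_lit 19335049)))
(L (nat_lit 6836283)))
(L (nat_lit 31037984)))
(L (nat_lit 1665391)))
(L (nat_lit 1290842)))
(L (nat_lit 1885490)))
(L (nat_lit 1325970)))
(L (nat_lit 22264580)))
(L (nat_lit 30639728)))
(L (nat_lit 1977748)))
(L (nat_lit 16476331))))
(S (nat_lit 19789) (S (nat_lit 40531) (S (nat_lit 40774) (S (nat_lit 8790) (S (nat_lit 8748) (S (nat_lit 17496) (S (nat_lit 54862) (S (nat_lit 1765) (S (nat_lit 50505) (S (nat_lit 75) (S (nat_lit 1726) (S (nat_lit 37285) (S (nat_lit 20736) (S (nat_lit 56290) (S (nat_lit 54901) (S (nat_lit 51054) (S (nat_lit 39542) (S (nat_lit 33546) (S (nat_lit 9831) (S (nat_lit 10899) (S (nat_lit 45222) (S (nat_lit 23597) (D (nat_lit 13) (nat_lit 12341261) (nat_lit 13379139) (nat_lit 77511854244))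
(L (nat_lit 27581921)))
(L (nat_lit 18901449)))
(L (nat_lit 29956611)))
(L (nat_lit 27867330)))
(S (nat_lit 45971) (S (nat_lit 54558) (S (nat_lit 58919) (S (nat_lit 25497) (S (nat_lit 8113) (D (nat_lit 13) (nat_lit 26850661) (nat_lit 19307269) (nat_lit 6518214885))
(L (nat_lit 27932743)))
(L (nat_lit 23539525)))
(L (nat_lit 30090752)))
(L (nat_lit 30097765)))
(L (nat_lit 13897493))))
(L (nat_lit 11374070)))
(L (nat_lit 28888353)))
(L (nat_lit 11104273)))
(L (nat_lit 29790550)))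
(L (nat_lit 14945107)))
(L (nat_lit 19938153)))
(L (nat_lit 12945332)))
(L (nat_lit 1977997)))
(L (nat_lit 22847873)))
(L (nat_lit 20146318)))
(L (nat_lit 12077209)))
(L (nat_lit 26778337)))
(L (nat_lit 26941953)))
(L (nat_lit 875888)))
(L (nat_lit 18664801)))
(L (nat_lit 25043119)))
(S (nat_lit 39553) (S (nat_lit 8823) (S (nat_lit 17496) (S (nat_lit 20767) (S (nat_lit 8790) (S (nat_lit 21512) (S (nat_lit 42) (S (nat_lit 75) (S (nat_lit 21479) (S (nat_lit 55679) (S (nat_lit 16363) (S (nat_lit 30741) (S (nat_lit 41486) (S (nat_lit 55712) (S (nat_lit 50477) (S (nat_lit 54879) (S (nat_lit 48340) (S (nat_lit 13043) (S (nat_lit 19811) (S (nat_lit 9634) (S (nat_lit 8468) (S (nat_lit 57131) (D (nat_lit 15) (nat_lit 29017258) (nat_lit 4999592) (nat_lit 7687117960))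
(L (nat_lit 22538595)))
(L (nat_lit 31177985)))
(S (nat_lit 34242) (S (nat_lit 41841) (S (nat_lit 28881) (D (nat_lit 15) (nat_lit 13931410) (nat_lit 5644888) (nat_lit 137442104579))
(L (nat_lit 29080711)))
(L (nat_lit 29015111)))
(L (nat_lit 28554819))))
(L (nat_lit 21441413)))
(L (nat_lit 20243630)))
(L (nat_lit 12169244)))
(L (nat_lit 19460262)))
(L (nat_lit 5992875)))
(L (nat_lit 31011073)))
(L (nat_lit 24512392)))
(L (nat_lit 31001967)))
(L (nat_lit 18518790)))
(L (nat_lit 24318360)))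
(L (nat_lit 8258006)))
(L (nat_lit 14358374)))
(L (nat_lit 1922598)))
(L (nat_lit 30639542)))
(L (nat_lit 7921568)))
(L (nat_lit 21162351)))
(L (nat_lit 7394873)))
(L (nat_lit 8306240)))
(L (nat_lit 25215349)))))
(S (nat_lit 37302) (S (nat_lit 15323) (S (nat_lit 21512) (S (nat_lit 75) (S (nat_lit 37260) (S (nat_lit 37335) (S (nat_lit 40774) (S (nat_lit 1975) (S (nat_lit 48276) (S (nat_lit 1969) (S (nat_lit 40768) (S (nat_lit 10999) (S (nat_lit 1019) (S (nat_lit 986) (S (nat_lit 8241) (S (nat_lit 13956) (S (nat_lit 35115) (S (nat_lit 50463) (S (nat_lit 41514) (S (nat_lit 19828) (S (nat_lit 39575) (S (nat_lit 1277) (S (nat_lit 18573) (S (nat_lit 16425) (S (nat_lit 18855) (S (nat_lit 31373) (D (nat_lit 11) (nat_lit 27932679) (nat_lit 25767363) (nat_lit 212843300994))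
(L (nat_lit 27932965)))
(L (nat_lit 27866435)))
(L (nat_lit 27865346)))
(S (nat_lit 35231) (S (nat_lit 12858) (S (nat_lit 10914) (S (nat_lit 16925) (D (nat_lit 11) (nat_lit 26980704) (nat_lit 19670531) (nat_lit 242224323))
(L (nat_lit 28811346)))
(L (nat_lit 31040933)))
(L (nat_lit 31040900)))
(L (nat_lit 28823844))))
(L (nat_lit 20014633)))
(L (nat_lit 18092632)))
(L (nat_lit 14831832)))
(L (nat_lit 27952651)))
(L (nat_lit 11073153)))
(L (nat_lit 18118273)))
(L (nat_lit 16021121)))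
(S (nat_lit 8810) (S (nat_lit 41260) (S (nat_lit 39559) (S (nat_lit 35098) (S (nat_lit 39553) (S (nat_lit 57038) (S (nat_lit 57086) (S (nat_lit 43622) (S (nat_lit 5453) (S (nat_lit 54912) (S (nat_lit 23838) (S (nat_lit 40500) (S (nat_lit 1361) (S (nat_lit 17896) (S (nat_lit 36770) (D (nat_lit 15) (nat_lit 27864143) (nat_lit 25761192) (nat_lit 206264541442))
(L (nat_lit 27866120)))
(L (nat_lit 27865381)))
(S (nat_lit 16034) (S (nat_lit 55272) (S (nat_lit 25539) (S (nat_lit 56017) (S (nat_lit 57623) (S (nat_lit 1683) (D (nat_lit 13) (nat_lit 31138863) (nat_lit 19063174) (nat_lit 5573799318724))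
(L (nat_lit 31145248)))
(L (nat_lit 29050213)))
(L (nat_lit 20317094)))
(L (nat_lit 18902411)))
(L (nat_lit 20346115)))
(L (nat_lit 12467810))))
(L (nat_lit 7490412)))
(L (nat_lit 29668435)))
(L (nat_lit 10917687)))
(L (nat_lit 292311)))
(L (nat_lit 21202360)))
(L (nat_lit 21366602)))
(L (nat_lit 21033386)))
(L (nat_lit 23473987)))
(L (nat_lit 23997859)))
(L (nat_lit 23998755)))
(L (nat_lit 23401263)))
(S (nat_lit 49354) (S (nat_lit 38927) (S (nat_lit 15351) (S (nat_lit 10949) (S (nat_lit 10935) (S (nat_lit 37322) (S (nat_lit 21496) (S (nat_lit 49404) (S (nat_lit 38922) (S (nat_lit 6019) (S (nat_lit 51055) (S (nat_lit 37129) (S (nat_lit 2816) (S (nat_lit 31777) (S (nat_lit 35266) (D (nat_lit 15) (nat_lit 6181320) (nat_lit 16533675) (nat_lit 34527745287))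
(L (nat_lit 27677989)))
(L (nat_lit 22884645)))
(L (nat_lit 27991522)))
(L (nat_lit 21557476)))
(L (nat_lit 21489890)))
(S (nat_lit 55446) (S (nat_lit 30908) (S (nat_lit 42587) (D (nat_lit 15) (nat_lit 8146341) (nat_lit 25761160) (nat_lit 108689098916))
(L (nat_lit 9243373)))
(L (nat_lit 28029066)))
(L (nat_lit 30791856))))
(L (nat_lit 22812105)))
(L (nat_lit 21837155)))
(L (nat_lit 21465866)))
(L (nat_lit 23259470)))
(L (nat_lit 21773505)))
(L (nat_lit 8183300)))
(L (nat_lit 22343073)))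
(L (nat_lit 22474017)))
(L (nat_lit 16966315)))))
(L (nat_lit 19295585)))
(L (nat_lit 20808976)))
(L (nat_lit 1460474)))
(L (nat_lit 17369401)))
(L (nat_lit 14261121)))
(L (nat_lit 27788935)))
(L (nat_lit 20391745)))
(L (nat_lit 23999841)))
(L (nat_lit 3975607)))
(L (nat_lit 30626831)))
(L (nat_lit 19437414)))
(L (nat_lit 8144451)))
(L (nat_lit 6836068)))
(S (nat_lit 57066) (S (nat_lit 1991) (S (nat_lit 21512) (S (nat_lit 28587) (S (nat_lit 15323) (S (nat_lit 40774) (S (nat_lit 15351) (S (nat_lit 1019) (S (nat_lit 57024) (S (nat_lit 1003) (S (nat_lit 28576) (S (nat_lit 28537) (S (nat_lit 10949) (S (nat_lit 30196) (S (nat_lit 58124) (S (nat_lit 28188) (S (nat_lit 55775) (S (nat_lit 5184) (D (nat_lit 15) (nat_lit 3983597) (nat_lit 25761036) (nat_lit 214890975264))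
(L (nat_lit 27773185)))
(L (nat_lit 30094593)))
(S (nat_lit 50834) (S (nat_lit 36525) (S (nat_lit 45715) (D (nat_lit 15) (nat_lit 8177772) (nat_lit 25759053) (nat_lit 107648910469))
(L (nat_lit 10360461)))
(L (nat_lit 27931755)))
(L (nat_lit 5680858))))
(L (nat_lit 29047104)))
(L (nat_lit 29983025)))
(L (nat_lit 26948900)))
(L (nat_lit 18919281)))
(L (nat_lit 9867154)))
(L (nat_lit 11198638)))
(L (nat_lit 5490551)))
(L (nat_lit 9277009)))
(L (nat_lit 7156289)))
(L (nat_lit 701323)))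
(L (nat_lit 6351252)))
(L (nat_lit 18179649)))
(L (nat_lit 30581329)))
(S (nat_lit 21755) (S (nat_lit 75) (S (nat_lit 19789) (S (nat_lit 21512) (S (nat_lit 40564) (S (nat_lit 57099) (S (nat_lit 19795) (S (nat_lit 54868) (S (nat_lit 20979) (S (nat_lit 21054) (S (nat_lit 28587) (S (nat_lit 21479) (S (nat_lit 50463) (S (nat_lit 35073) (S (nat_lit 28512) (S (nat_lit 6006) (S (nat_lit 4294) (S (nat_lit 49163) (S (nat_lit 30663) (S (nat_lit 31412) (S (nat_lit 36187) (S (nat_lit 41149) (D (nat_lit 13) (nat_lit 27956711) (nat_lit 9187907) (nat_lit 6704549038114))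
(L (nat_lit 16624788)))
(L (nat_lit 28917803)))
(L (nat_lit 16620164)))
(L (nat_lit 16700609)))
(L (nat_lit 28947809)))
(S (nat_lit 40208) (S (nat_lit 56194) (S (nat_lit 39459) (S (nat_lit 32638) (S (nat_lit 3110) (S (nat_lit 20861) (D (nat_lit 9) (nat_lit 28692994) (nat_lit 7523085) (nat_lit 106575200484))
(L (nat_lit 28981351)))
(L (nat_lit 31080519)))
(L (nat_lit 21870913)))
(L (nat_lit 21870849)))
(L (nat_lit 28981507)))
(L (nat_lit 29739460))))
(L (nat_lit 6869113)))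
(L (nat_lit 19727815)))
(L (nat_lit 13524007)))
(L (nat_lit 14939190)))
(L (nat_lit 15604918)))
(L (nat_lit 19707168)))
(L (nat_lit 16475176)))
(L (nat_lit 16665704)))
(L (nat_lit 16667752)))
(L (nat_lit 16698472)))
(L (nat_lit 15347585)))
(L (nat_lit 1841589)))
(L (nat_lit 21764513)))
(L (nat_lit 15754952)))
(L (nat_lit 26947009)))
(S (nat_lit 41519) (S (nat_lit 21512) (S (nat_lit 75) (S (nat_lit 21479) (S (nat_lit 40774) (S (nat_lit 28587) (S (nat_lit 19811) (S (nat_lit 1975) (S (nat_lit 41534) (S (nat_lit 30741) (S (nat_lit 20761) (S (nat_lit 8779) (S (nat_lit 35104) (S (nat_lit 7679) (S (nat_lit 7640) (S (nat_lit 54590) (S (nat_lit 34812) (S (nat_lit 1683) (S (nat_lit 57453) (S (nat_lit 20153) (S (nat_lit 8426) (D (nat_lit 13) (nat_lit 15930133) (nat_lit 3694802) (nat_lit 1137295001859))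
(L (nat_lit 31138897)))
(L (nat_lit 29046922)))
(L (nat_lit 24033637)))
(S (nat_lit 52003) (S (nat_lit 36496) (S (nat_lit 14494) (D (nat_lit 15) (nat_lit 27928962) (nat_lit 15032498) (nat_lit 208341566499))
(L (nat_lit 27869380)))
(L (nat_lit 22986018)))
(L (nat_lit 17984882))))
(L (nat_lit 27922825)))
(L (nat_lit 14903444)))
(L (nat_lit 7029633)))
(L (nat_lit 25040265)))
(L (nat_lit 23365388)))
(L (nat_lit 15566409)))
(L (nat_lit 6907392)))
(L (nat_lit 8936634)))
(L (nat_lit 23279424)))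
(L (nat_lit 19357735)))
(L (nat_lit 14970436)))
(L (nat_lit 9221697)))
(L (nat_lit 519541)))
(L (nat_lit 7959729)))
(L (nat_lit 13348704)))
(L (nat_lit 22275459)))
(L (nat_lit 25680226)))))
(L (nat_lit 25251206)))))
(S (nat_lit 35135) (S (nat_lit 1743) (S (nat_lit 64) (S (nat_lit 1036) (S (nat_lit 37285) (S (nat_lit 28537) (L (nat_lit 29381999))
(L (nat_lit 12609129)))
(L (nat_lit 19948937)))
(L (nat_lit 13882523)))
(S (nat_lit 19828) (S (nat_lit 8748) (S (nat_lit 39570) (L (nat_lit 23298925))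
(L (nat_lit 23378075)))
(S (nat_lit 40241) (L (nat_lit 3750827))
(L (nat_lit 26464272))))
(S (nat_lit 39592) (S (nat_lit 39570) (S (nat_lit 37285) (L (nat_lit 23290990))
(L (nat_lit 19948937)))
(S (nat_lit 55272) (S (nat_lit 54515) (L (nat_lit 26596739))
(L (nat_lit 26533280)))
(L (nat_lit 23378075))))
(L (nat_lit 25901096)))))
(S (nat_lit 21507) (S (nat_lit 1969) (S (nat_lit 75) (S (nat_lit 21512) (S (nat_lit 21465) (S (nat_lit 35120) (S (nat_lit 14) (S (nat_lit 40774) (S (nat_lit 35098) (S (nat_lit 10977) (S (nat_lit 55203) (L (nat_lit 12063421))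
(L (nat_lit 29036878)))
(L (nat_lit 6884239)))
(L (nat_lit 19939113)))
(L (nat_lit 23901222)))
(L (nat_lit 20723973)))
(L (nat_lit 9015769)))
(L (nat_lit 5697907)))
(L (nat_lit 7368087)))
(L (nat_lit 13332736)))
(S (nat_lit 21733) (S (nat_lit 41276) (L (nat_lit 7931325))
(L (nat_lit 23889318)))
(S (nat_lit 41497) (S (nat_lit 15323) (S (nat_lit 20750) (S (nat_lit 10977) (L (nat_lit 1499474))
(L (nat_lit 276404)))
(L (nat_lit 619728)))
(L (nat_lit 7891058)))
(L (nat_lit 25761806)))))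
(S (nat_lit 41271) (S (nat_lit 1246) (S (nat_lit 8455) (L (nat_lit 10160569))
(S (nat_lit 30713) (S (nat_lit 1240) (S (nat_lit 8762) (L (nat_lit 958029))
(L (nat_lit 20998539)))
(L (nat_lit 20742667)))
(L (nat_lit 30418510))))
(S (nat_lit 21010) (S (nat_lit 28574) (L (nat_lit 12204217))
(L (nat_lit 18645611)))
(S (nat_lit 40774) (S (nat_lit 20351) (S (nat_lit 30761) (L (nat_lit 16833915))
(L (nat_lit 9853113)))
(S (nat_lit 39542) (S (nat_lit 39575) (S (nat_lit 50505) (S (nat_lit 30713) (S (nat_lit 21479) (S (nat_lit 21512) (S (nat_lit 58709) (L (nat_lit 11713241))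
(L (nat_lit 19966458)))
(L (nat_lit 31081825)))
(L (nat_lit 597467)))
(L (nat_lit 10160569)))
(L (nat_lit 27862191)))
(L (nat_lit 23904267)))
(L (nat_lit 18048118))))
(L (nat_lit 25217390)))))
(L (nat_lit 25508578)))))
(S (nat_lit 54899) (S (nat_lit 1003) (S (nat_lit 75) (S (nat_lit 1036) (S (nat_lit 1969) (S (nat_lit 21512) (S (nat_lit 40774) (S (nat_lit 40768) (S (nat_lit 997) (S (nat_lit 54884) (S (nat_lit 54851) (S (nat_lit 25) (S (nat_lit 15373) (L (nat_lit 1263444))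
(L (nat_lit 8277506)))
(S (nat_lit 30359) (L (nat_lit 209592))
(L (nat_lit 6723477))))
(L (nat_lit 18920234)))
(L (nat_lit 19273578)))
(L (nat_lit 20083951)))
(L (nat_lit 2744558)))
(L (nat_lit 209716)))
(L (nat_lit 30415472)))
(L (nat_lit 14453013)))
(S (nat_lit 48389) (L (nat_lit 17731861))
(L (nat_lit 2660954))))
(L (nat_lit 1781581)))
(S (nat_lit 20767) (S (nat_lit 75) (S (nat_lit 40774) (S (nat_lit 21479) (S (nat_lit 20761) (S (nat_lit 1969) (S (nat_lit 10999) (S (nat_lit 822) (L (nat_lit 11549404))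
(S (nat_lit 47415) (L (nat_lit 7957582))
(L (nat_lit 21327328))))
(L (nat_lit 8281133)))
(L (nat_lit 19172239)))
(L (nat_lit 6184239)))
(L (nat_lit 15070849)))
(L (nat_lit 828078)))
(S (nat_lit 5262) (L (nat_lit 1438194))
(L (nat_lit 7074241))))
(S (nat_lit 40531) (S (nat_lit 2006) (S (nat_lit 75) (S (nat_lit 1991) (S (nat_lit 10977) (S (nat_lit 54851) (S (nat_lit 54884) (S (nat_lit 21529) (S (nat_lit 40774) (S (nat_lit 40575) (S (nat_lit 25752) (L (nat_lit 2341501))
(L (nat_lit 26980459)))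
(L (nat_lit 8062765)))
(L (nat_lit 27314383)))
(L (nat_lit 21525856)))
(L (nat_lit 19442712)))
(L (nat_lit 11563570)))
(L (nat_lit 18718900)))
(L (nat_lit 20781472)))
(L (nat_lit 26782834)))
(S (nat_lit 21770) (S (nat_lit 75) (S (nat_lit 40564) (S (nat_lit 15323) (S (nat_lit 21021) (L (nat_lit 26646708))
(L (nat_lit 21169690)))
(L (nat_lit 1814812)))
(L (nat_lit 3676761)))
(S (nat_lit 966) (L (nat_lit 19410040))
(L (nat_lit 8089709))))
(S (nat_lit 41534) (S (nat_lit 75) (S (nat_lit 17521) (L (nat_lit 6878325))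
(L (nat_lit 7393690)))
(L (nat_lit 26972614)))
(L (nat_lit 25244887)))))
(L (nat_lit 25382062)))))
(L (nat_lit 25507988)))))
(S (nat_lit 30730) (S (nat_lit 986) (S (nat_lit 8748) (S (nat_lit 1931) (S (nat_lit 8810) (L (nat_lit 11621297))
(L (nat_lit 8304819)))
(S (nat_lit 8790) (S (nat_lit 16258) (L (nat_lit 17368441))
(S (nat_lit 21512) (S (nat_lit 42) (L (nat_lit 902889))
(L (nat_lit 19361089)))
(L (nat_lit 8291734))))
(L (nat_lit 17557825))))
(S (nat_lit 28512) (S (nat_lit 15323) (S (nat_lit 37291) (L (nat_lit 21052699))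
(L (nat_lit 30956648)))
(L (nat_lit 24341028)))
(S (nat_lit 48276) (S (nat_lit 1969) (S (nat_lit 75) (S (nat_lit 37260) (L (nat_lit 9059170))
(L (nat_lit 20148769)))
(L (nat_lit 19442529)))
(L (nat_lit 19274660)))
(L (nat_lit 25215222)))))
(S (nat_lit 20750) (S (nat_lit 42) (S (nat_lit 17176) (L (nat_lit 7093861))
(S (nat_lit 52353) (L (nat_lit 26297555))
(L (nat_lit 19410107))))
(S (nat_lit 19806) (S (nat_lit 14) (S (nat_lit 40547) (S (nat_lit 41503) (S (nat_lit 41243) (S (nat_lit 1240) (S (nat_lit 1748) (S (nat_lit 1034) (S (nat_lit 21010) (S (nat_lit 21733) (S (nat_lit 50527) (S (nat_lit 10935) (S (nat_lit 40805) (S (nat_lit 48615) (L (nat_lit 2499293))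
(L (nat_lit 31081542)))
(L (nat_lit 8091136)))
(S (nat_lit 52505) (L (nat_lit 22320573))
(L (nat_lit 6314552))))
(L (nat_lit 20101032)))
(L (nat_lit 31000847)))
(L (nat_lit 14830808)))
(L (nat_lit 26456119)))
(L (nat_lit 12252305)))
(L (nat_lit 5528494)))
(L (nat_lit 9359841)))
(L (nat_lit 23901505)))
(L (nat_lit 27280999)))
(S (nat_lit 19778) (S (nat_lit 41243) (S (nat_lit 1034) (S (nat_lit 62) (S (nat_lit 21010) (S (nat_lit 50527) (S (nat_lit 39575) (S (nat_lit 1240) (S (nat_lit 47505) (L (nat_lit 3522203))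
(S (nat_lit 54522) (S (nat_lit 51322) (L (nat_lit 5551771))
(L (nat_lit 31011008)))
(L (nat_lit 29473513))))
(L (nat_lit 19001862)))
(L (nat_lit 24940784)))
(L (nat_lit 5727479)))
(L (nat_lit 22540422)))
(L (nat_lit 7517079)))
(L (nat_lit 11220897)))
(L (nat_lit 8540632)))
(S (nat_lit 39542) (S (nat_lit 1034) (S (nat_lit 39603) (S (nat_lit 41243) (S (nat_lit 41503) (S (nat_lit 19826) (S (nat_lit 21733) (S (nat_lit 3052) (L (nat_lit 3583577))
(S (nat_lit 30713) (S (nat_lit 56267) (S (nat_lit 45301) (S (nat_lit 8209) (L (nat_lit 25340341))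
(L (nat_lit 29963274)))
(L (nat_lit 29995082)))
(L (nat_lit 29996292)))
(L (nat_lit 2345740))))
(L (nat_lit 31016007)))
(L (nat_lit 9121979)))
(L (nat_lit 17026852)))
(L (nat_lit 25072976)))
(L (nat_lit 28034151)))
(L (nat_lit 26790177)))
(L (nat_lit 25174672)))))
(S (nat_lit 39570) (S (nat_lit 15356) (S (nat_lit 75) (S (nat_lit 1240) (S (nat_lit 28543) (L (nat_lit 18986918))
(L (nat_lit 18613833)))
(L (nat_lit 5535438)))
(S (nat_lit 399) (S (nat_lit 13766) (L (nat_lit 2641176))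
(L (nat_lit 20508928)))
(L (nat_lit 586375))))
(S (nat_lit 51655) (S (nat_lit 47971) (L (nat_lit 10216864))
(L (nat_lit 24439201)))
(L (nat_lit 26295506))))
(L (nat_lit 25448588)))))
(S (nat_lit 40514) (S (nat_lit 8810) (S (nat_lit 21512) (S (nat_lit 1715) (L (nat_lit 277430))
(L (nat_lit 26523830)))
(L (nat_lit 8291767)))
(S (nat_lit 28574) (S (nat_lit 17682) (S (nat_lit 19778) (L (nat_lit 14250339))
(L (nat_lit 30462411)))
(S (nat_lit 19806) (S (nat_lit 3623) (L (nat_lit 2349466))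
(S (nat_lit 37285) (S (nat_lit 15356) (L (nat_lit 2413019))
(L (nat_lit 7902002)))
(L (nat_lit 31177058))))
(L (nat_lit 31111335))))
(S (nat_lit 48338) (S (nat_lit 19806) (S (nat_lit 37291) (S (nat_lit 1715) (S (nat_lit 54899) (S (nat_lit 43359) (L (nat_lit 1779568))
(L (nat_lit 10567443)))
(L (nat_lit 27867307)))
(L (nat_lit 10238134)))
(L (nat_lit 10061240)))
(L (nat_lit 10238131)))
(L (nat_lit 25317803)))))
(L (nat_lit 25247367)))))
(S (nat_lit 50494) (S (nat_lit 1958) (S (nat_lit 1229) (S (nat_lit 2006) (S (nat_lit 1003) (S (nat_lit 1019) (S (nat_lit 40575) (S (nat_lit 1715) (L (nat_lit 20998352))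
(L (nat_lit 19666256)))
(L (nat_lit 8079138)))
(L (nat_lit 20148368)))
(L (nat_lit 19370854)))
(S (nat_lit 21770) (S (nat_lit 54837) (S (nat_lit 37322) (L (nat_lit 4642137))
(L (nat_lit 14452052)))
(L (nat_lit 13850465)))
(S (nat_lit 41534) (S (nat_lit 8795) (S (nat_lit 17543) (L (nat_lit 448295))
(L (nat_lit 18558012)))
(L (nat_lit 23637052)))
(L (nat_lit 25892358)))))
(S (nat_lit 20993) (S (nat_lit 8748) (S (nat_lit 57055) (S (nat_lit 15309) (L (nat_lit 9012696))
(L (nat_lit 22545624)))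
(L (nat_lit 12355184)))
(S (nat_lit 28512) (S (nat_lit 57024) (S (nat_lit 35135) (L (nat_lit 26818917))
(L (nat_lit 20285295)))
(L (nat_lit 13469350)))
(S (nat_lit 48276) (S (nat_lit 35135) (S (nat_lit 37260) (L (nat_lit 26662245))
(L (nat_lit 14485159)))
(L (nat_lit 13174137)))
(L (nat_lit 25632448)))))
(S (nat_lit 40757) (S (nat_lit 1776) (S (nat_lit 15356) (S (nat_lit 1715) (S (nat_lit 75) (S (nat_lit 1034) (L (nat_lit 28875330))
(L (nat_lit 14357415)))
(L (nat_lit 19436391)))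
(L (nat_lit 19703984)))
(S (nat_lit 22834) (L (nat_lit 8881975))
(L (nat_lit 26948651))))
(S (nat_lit 21540) (S (nat_lit 21512) (S (nat_lit 62) (S (nat_lit 50463) (S (nat_lit 10982) (S (nat_lit 31) (S (nat_lit 35073) (S (nat_lit 15351) (S (nat_lit 997) (S (nat_lit 57049) (L (nat_lit 4469404))
(L (nat_lit 21867906)))
(L (nat_lit 19296485)))
(L (nat_lit 17426566)))
(L (nat_lit 20148272)))
(L (nat_lit 20808974)))
(L (nat_lit 23597276)))
(L (nat_lit 22579047)))
(L (nat_lit 19433387)))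
(S (nat_lit 58146) (L (nat_lit 15313980))
(L (nat_lit 22026651))))
(S (nat_lit 41304) (S (nat_lit 16122) (L (nat_lit 18155256))
(S (nat_lit 41276) (S (nat_lit 41519) (S (nat_lit 50463) (S (nat_lit 31) (S (nat_lit 21770) (S (nat_lit 19839) (S (nat_lit 30763) (S (nat_lit 40785) (S (nat_lit 1765) (S (nat_lit 8795) (L (nat_lit 3358300))
(S (nat_lit 55534) (S (nat_lit 13989) (L (nat_lit 2306685))
(L (nat_lit 27865280)))
(L (nat_lit 23182556))))
(L (nat_lit 2665083)))
(L (nat_lit 27775050)))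
(L (nat_lit 24944688)))
(L (nat_lit 22570087)))
(L (nat_lit 31174728)))
(L (nat_lit 6416014)))
(L (nat_lit 5821287)))
(L (nat_lit 842152)))
(L (nat_lit 18646632))))
(L (nat_lit 25927693)))))
(L (nat_lit 25336496)))))
(S (nat_lit 21722) (S (nat_lit 31) (S (nat_lit 15351) (S (nat_lit 40562) (S (nat_lit 17538) (L (nat_lit 26852486))
(L (nat_lit 1783161)))
(L (nat_lit 7458640)))
(S (nat_lit 35115) (S (nat_lit 21465) (S (nat_lit 15356) (S (nat_lit 50538) (L (nat_lit 29954254))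
(L (nat_lit 11357295)))
(L (nat_lit 7459629)))
(S (nat_lit 41816) (L (nat_lit 20033327))
(L (nat_lit 7419514))))
(S (nat_lit 54879) (S (nat_lit 19789) (S (nat_lit 48307) (L (nat_lit 29448496))
(L (nat_lit 20219289)))
(L (nat_lit 21893487)))
(L (nat_lit 25273781)))))
(S (nat_lit 19795) (S (nat_lit 972) (S (nat_lit 14456) (L (nat_lit 10969206))
(S (nat_lit 21021) (S (nat_lit 10997) (S (nat_lit 50538) (S (nat_lit 20811) (S (nat_lit 21507) (S (nat_lit 39590) (S (nat_lit 40562) (S (nat_lit 21004) (S (nat_lit 51279) (L (nat_lit 3458808))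
(L (nat_lit 21871722)))
(L (nat_lit 4834091)))
(L (nat_lit 23302680)))
(L (nat_lit 24970794)))
(L (nat_lit 21937412)))
(L (nat_lit 31133128)))
(L (nat_lit 11287265)))
(L (nat_lit 21890414)))
(L (nat_lit 4697906))))
(S (nat_lit 20736) (S (nat_lit 21021) (S (nat_lit 50538) (S (nat_lit 10997) (S (nat_lit 1732) (S (nat_lit 30746) (S (nat_lit 40531) (S (nat_lit 1229) (S (nat_lit 41514) (S (nat_lit 1034) (S (nat_lit 39590) (S (nat_lit 21783) (S (nat_lit 41293) (S (nat_lit 40743) (S (nat_lit 15019) (L (nat_lit 5519992))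
(L (nat_lit 17666695)))
(L (nat_lit 25015402)))
(L (nat_lit 17505369)))
(S (nat_lit 29192) (L (nat_lit 2310875))
(L (nat_lit 14768905))))
(L (nat_lit 23600964)))
(L (nat_lit 11015094)))
(L (nat_lit 27310354)))
(L (nat_lit 9026368)))
(L (nat_lit 10261135)))
(L (nat_lit 31166702)))
(L (nat_lit 10326671)))
(L (nat_lit 21890414)))
(L (nat_lit 22877455)))
(S (nat_lit 53226) (L (nat_lit 22587547))
(L (nat_lit 22984712))))
(S (nat_lit 40500) (S (nat_lit 7884) (L (nat_lit 22489888))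
(S (nat_lit 57049) (S (nat_lit 8773) (L (nat_lit 16552584))
(L (nat_lit 23269883)))
(L (nat_lit 19771560))))
(L (nat_lit 25799074)))))
(S (nat_lit 39559) (S (nat_lit 15340) (S (nat_lit 35148) (L (nat_lit 15337384))
(L (nat_lit 30790017)))
(S (nat_lit 35104) (S (nat_lit 1748) (L (nat_lit 16352537))
(L (nat_lit 12224272)))
(S (nat_lit 54868) (S (nat_lit 38592) (L (nat_lit 1783720))
(S (nat_lit 57055) (S (nat_lit 28574) (S (nat_lit 1019) (L (nat_lit 7209397))
(L (nat_lit 20121020)))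
(L (nat_lit 19695019)))
(L (nat_lit 13305736))))
(L (nat_lit 25238934)))))
(L (nat_lit 25480643)))))
(S (nat_lit 41486) (S (nat_lit 1014) (S (nat_lit 8812) (S (nat_lit 15356) (S (nat_lit 17558) (S (nat_lit 1257) (L (nat_lit 14222713))
(L (nat_lit 5455762)))
(L (nat_lit 957906)))
(L (nat_lit 7902002)))
(S (nat_lit 28576) (S (nat_lit 1257) (S (nat_lit 37324) (L (nat_lit 14451959))
(L (nat_lit 2510664)))
(L (nat_lit 5624717)))
(S (nat_lit 48340) (S (nat_lit 15356) (S (nat_lit 57055) (S (nat_lit 20993) (L (nat_lit 10515858))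
(L (nat_lit 22363193)))
(L (nat_lit 27991554)))
(L (nat_lit 8065837)))
(L (nat_lit 25610466)))))
(S (nat_lit 20778) (S (nat_lit 17560) (S (nat_lit 1034) (S (nat_lit 28554) (S (nat_lit 28537) (L (nat_lit 24700259))
(L (nat_lit 24601923)))
(L (nat_lit 24535361)))
(S (nat_lit 23987) (L (nat_lit 18051186))
(L (nat_lit 26323479))))
(S (nat_lit 37324) (S (nat_lit 40818) (S (nat_lit 21529) (S (nat_lit 41547) (L (nat_lit 17845469))
(L (nat_lit 7015213)))
(L (nat_lit 906631)))
(L (nat_lit 580488)))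
(S (nat_lit 57088) (S (nat_lit 17543) (S (nat_lit 39542) (S (nat_lit 54868) (L (nat_lit 11418274))
(L (nat_lit 16451369)))
(L (nat_lit 6209195)))
(L (nat_lit 18092796)))
(L (nat_lit 25529910)))))
(S (nat_lit 40542) (S (nat_lit 17496) (S (nat_lit 48301) (S (nat_lit 1743) (S (nat_lit 15309) (L (nat_lit 28510679))
(L (nat_lit 22231840)))
(L (nat_lit 26236172)))
(L (nat_lit 27475555)))
(S (nat_lit 37260) (S (nat_lit 19778) (S (nat_lit 28537) (L (nat_lit 22241453))
(L (nat_lit 9322082)))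
(L (nat_lit 22034715)))
(S (nat_lit 57024) (S (nat_lit 19778) (S (nat_lit 54868) (L (nat_lit 4642106))
(L (nat_lit 27677768)))
(L (nat_lit 9459633)))
(L (nat_lit 25214694)))))
(L (nat_lit 25836834)))))
(L (nat_lit 25612512)))))
(L (nat_lit 25690696)))))
(S (nat_lit 41291) (S (nat_lit 1958) (S (nat_lit 15340) (S (nat_lit 1262) (S (nat_lit 1019) (S (nat_lit 50538) (S (nat_lit 35098) (S (nat_lit 21512) (L (nat_lit 10949398))
(L (nat_lit 8021377)))
(L (nat_lit 8416849)))
(L (nat_lit 13446230)))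
(S (nat_lit 20783) (S (nat_lit 35115) (S (nat_lit 21512) (S (nat_lit 35087) (S (nat_lit 32133) (L (nat_lit 28655702))
(L (nat_lit 27461199)))
(L (nat_lit 8916603)))
(L (nat_lit 14935651)))
(L (nat_lit 3952039)))
(S (nat_lit 40547) (S (nat_lit 21529) (L (nat_lit 5643897))
(L (nat_lit 750983)))
(L (nat_lit 25870659)))))
(S (nat_lit 21026) (S (nat_lit 64) (S (nat_lit 1036) (S (nat_lit 21479) (S (nat_lit 42) (S (nat_lit 10982) (S (nat_lit 28543) (L (nat_lit 29466321))
(L (nat_lit 24910211)))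
(L (nat_lit 6886158)))
(L (nat_lit 26524353)))
(L (nat_lit 637275)))
(S (nat_lit 11632) (L (nat_lit 1499752))
(L (nat_lit 2643227))))
(S (nat_lit 19828) (S (nat_lit 21512) (S (nat_lit 17527) (L (nat_lit 22262594))
(L (nat_lit 16587362)))
(L (nat_lit 21302683)))
(S (nat_lit 39592) (S (nat_lit 41519) (S (nat_lit 30741) (S (nat_lit 21507) (S (nat_lit 39570) (S (nat_lit 41547) (S (nat_lit 1748) (S (nat_lit 15309) (S (nat_lit 11010) (S (nat_lit 11525) (L (nat_lit 7431635))
(L (nat_lit 17028930)))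
(L (nat_lit 18158454)))
(L (nat_lit 7134256)))
(L (nat_lit 26221137)))
(L (nat_lit 18684579)))
(L (nat_lit 17606336)))
(L (nat_lit 8010594)))
(L (nat_lit 24192410)))
(L (nat_lit 27515266)))
(L (nat_lit 25345268)))))
(S (nat_lit 40790) (S (nat_lit 1975) (S (nat_lit 64) (S (nat_lit 15323) (S (nat_lit 10977) (S (nat_lit 41271) (S (nat_lit 40743) (S (nat_lit 1991) (S (nat_lit 10997) (S (nat_lit 2019) (S (nat_lit 47) (S (nat_lit 25) (S (nat_lit 15371) (S (nat_lit 41276) (S (nat_lit 40774) (S (nat_lit 56742) (L (nat_lit 345690))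
(L (nat_lit 24003845)))
(L (nat_lit 24949956)))
(L (nat_lit 24134566)))
(L (nat_lit 15605317)))
(S (nat_lit 54033) (L (nat_lit 9618140))
(L (nat_lit 19953161))))
(L (nat_lit 1923499)))
(L (nat_lit 19100099)))
(L (nat_lit 1686876)))
(L (nat_lit 12644966)))
(L (nat_lit 10087843)))
(L (nat_lit 23902315)))
(L (nat_lit 1328054)))
(L (nat_lit 22047115)))
(S (nat_lit 26658) (L (nat_lit 9967322))
(L (nat_lit 1778074))))
(S (nat_lit 21739) (S (nat_lit 8810) (S (nat_lit 17527) (L (nat_lit 3938710))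
(L (nat_lit 17931898)))
(L (nat_lit 2006639)))
(S (nat_lit 41503) (S (nat_lit 39542) (S (nat_lit 20798) (S (nat_lit 39603) (S (nat_lit 35120) (L (nat_lit 23183142))
(L (nat_lit 18125563)))
(L (nat_lit 23597863)))
(L (nat_lit 7025505)))
(L (nat_lit 23280730)))
(L (nat_lit 25316687)))))
(L (nat_lit 25221456)))))
(S (nat_lit 35104) (S (nat_lit 1262) (S (nat_lit 10999) (S (nat_lit 40904) (L (nat_lit 6871810))
(S (nat_lit 57099) (S (nat_lit 30730) (S (nat_lit 54879) (L (nat_lit 19436454))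
(L (nat_lit 19703264)))
(L (nat_lit 19184760)))
(L (nat_lit 13373719))))
(S (nat_lit 30763) (S (nat_lit 28554) (S (nat_lit 30730) (L (nat_lit 30130278))
(L (nat_lit 13947000)))
(S (nat_lit 29690) (L (nat_lit 9228674))
(L (nat_lit 3945063))))
(S (nat_lit 50527) (S (nat_lit 37302) (S (nat_lit 25) (L (nat_lit 18980249))
(L (nat_lit 13392008)))
(S (nat_lit 46736) (S (nat_lit 40547) (L (nat_lit 30619233))
(L (nat_lit 27279977)))
(L (nat_lit 23864497))))
(L (nat_lit 25305741)))))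
(S (nat_lit 21026) (S (nat_lit 19882) (S (nat_lit 8823) (L (nat_lit 23335325))
(L (nat_lit 21893511)))
(S (nat_lit 39592) (S (nat_lit 15323) (S (nat_lit 21708) (S (nat_lit 41519) (S (nat_lit 41547) (S (nat_lit 1215) (S (nat_lit 50525) (S (nat_lit 54912) (S (nat_lit 30741) (S (nat_lit 21507) (S (nat_lit 1726) (S (nat_lit 28933) (L (nat_lit 1393309))
(S (nat_lit 40575) (S (nat_lit 19795) (S (nat_lit 1014) (L (nat_lit 3424953))
(L (nat_lit 11358722)))
(S (nat_lit 45006) (L (nat_lit 3365336))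
(L (nat_lit 3813693))))
(L (nat_lit 7462700))))
(L (nat_lit 2514139)))
(L (nat_lit 22985833)))
(L (nat_lit 4119942)))
(L (nat_lit 27637345)))
(L (nat_lit 27663972)))
(L (nat_lit 20097433)))
(L (nat_lit 2678571)))
(L (nat_lit 3038598)))
(L (nat_lit 22875529)))
(S (nat_lit 16646) (L (nat_lit 1599081))
(L (nat_lit 1268125))))
(L (nat_lit 18614856))))
(S (nat_lit 40790) (S (nat_lit 8779) (S (nat_lit 20736) (S (nat_lit 20798) (L (nat_lit 23377978))
(L (nat_lit 584393)))
(L (nat_lit 649608)))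
(S (nat_lit 28543) (S (nat_lit 1215) (S (nat_lit 11010) (L (nat_lit 2308983))
(L (nat_lit 964886)))
(S (nat_lit 23828) (S (nat_lit 10977) (L (nat_lit 11623832))
(L (nat_lit 6908288)))
(L (nat_lit 3760520))))
(S (nat_lit 48307) (S (nat_lit 37302) (S (nat_lit 11010) (S (nat_lit 41271) (L (nat_lit 28483095))
(L (nat_lit 7223411)))
(L (nat_lit 7223414)))
(L (nat_lit 9525660)))
(L (nat_lit 25926764)))))
(L (nat_lit 25863554)))))
(S (nat_lit 54868) (S (nat_lit 10966) (S (nat_lit 75) (S (nat_lit 40500) (S (nat_lit 41514) (L (nat_lit 7836467))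
(L (nat_lit 27497197)))
(L (nat_lit 8294988)))
(S (nat_lit 19839) (S (nat_lit 40562) (S (nat_lit 37335) (L (nat_lit 17011511))
(L (nat_lit 23899247)))
(L (nat_lit 10013816)))
(S (nat_lit 39603) (S (nat_lit 25014) (L (nat_lit 23295053))
(S (nat_lit 35087) (S (nat_lit 50477) (S (nat_lit 41534) (L (nat_lit 3949874))
(L (nat_lit 23146776)))
(L (nat_lit 28000330)))
(L (nat_lit 23322703))))
(L (nat_lit 25517537)))))
(S (nat_lit 30730) (S (nat_lit 17560) (S (nat_lit 21512) (S (nat_lit 19778) (S (nat_lit 997) (S (nat_lit 8795) (S (nat_lit 14771) (S (nat_lit 40785) (S (nat_lit 48340) (S (nat_lit 39553) (S (nat_lit 57055) (S (nat_lit 54050) (S (nat_lit 50527) (S (nat_lit 40757) (S (nat_lit 41472) (S (nat_lit 39575) (S (nat_lit 41503) (S (nat_lit 21441) (S (nat_lit 10099) (S (nat_lit 35772) (S (nat_lit 12043) (D (nat_lit 11) (nat_lit 27893123) (nat_lit 25765315) (nat_lit 212877903009))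
(L (nat_lit 27676806)))
(L (nat_lit 9357793)))
(L (nat_lit 28944833)))
(S (nat_lit 37007) (S (nat_lit 38889) (S (nat_lit 36945) (S (nat_lit 10367) (D (nat_lit 11) (nat_lit 27960332) (nat_lit 25765379) (nat_lit 212843303973))
(L (nat_lit 27899077)))
(L (nat_lit 22345157)))
(L (nat_lit 22345188)))
(L (nat_lit 10341389))))
(L (nat_lit 6780548)))
(L (nat_lit 5564823)))
(L (nat_lit 325042)))
(L (nat_lit 27854032)))
(L (nat_lit 22819848)))
(L (nat_lit 29381096)))
(L (nat_lit 12453485)))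
(L (nat_lit 24134408)))
(L (nat_lit 16517367)))
(L (nat_lit 27919912)))
(L (nat_lit 30094344)))
(L (nat_lit 8240179)))
(L (nat_lit 19662347)))
(L (nat_lit 9851001)))
(L (nat_lit 30431654)))
(S (nat_lit 37324) (S (nat_lit 28576) (S (nat_lit 1262) (S (nat_lit 54899) (S (nat_lit 19806) (S (nat_lit 19828) (S (nat_lit 40542) (S (nat_lit 1743) (S (nat_lit 51849) (S (nat_lit 30761) (S (nat_lit 1019) (S (nat_lit 41534) (S (nat_lit 62) (S (nat_lit 41260) (S (nat_lit 57049) (S (nat_lit 48301) (S (nat_lit 31) (S (nat_lit 39575) (S (nat_lit 17709) (S (nat_lit 30141) (S (nat_lit 9806) (S (nat_lit 3532) (S (nat_lit 17643) (D (nat_lit 13) (nat_lit 27929027) (nat_lit 25765347) (nat_lit 6674620487681))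
(L (nat_lit 28969383)))
(L (nat_lit 27931787)))
(L (nat_lit 27927075)))
(L (nat_lit 27930914)))
(S (nat_lit 46777) (S (nat_lit 25831) (S (nat_lit 19631) (S (nat_lit 38379) (S (nat_lit 48204) (D (nat_lit 13) (nat_lit 25861509) (nat_lit 19672611) (nat_lit 180523073729))
(L (nat_lit 19771616)))
(L (nat_lit 19133455)))
(L (nat_lit 29992480)))
(L (nat_lit 28022928)))
(L (nat_lit 18984409))))
(L (nat_lit 24940939)))
(L (nat_lit 13238586)))
(L (nat_lit 15748872)))
(L (nat_lit 20984584)))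
(L (nat_lit 8408879)))
(L (nat_lit 20284956)))
(L (nat_lit 8474168)))
(L (nat_lit 8877207)))
(L (nat_lit 3560235)))
(L (nat_lit 3710902)))
(L (nat_lit 19766380)))
(L (nat_lit 17618024)))
(L (nat_lit 15430850)))
(L (nat_lit 3946866)))
(L (nat_lit 11982008)))
(L (nat_lit 3818845)))
(L (nat_lit 3661704)))
(S (nat_lit 57088) (S (nat_lit 30761) (S (nat_lit 19828) (S (nat_lit 28559) (S (nat_lit 997) (S (nat_lit 37291) (S (nat_lit 57038) (S (nat_lit 35148) (S (nat_lit 57066) (S (nat_lit 8790) (S (nat_lit 44549) (S (nat_lit 21783) (S (nat_lit 21041) (S (nat_lit 30699) (S (nat_lit 21078) (S (nat_lit 43844) (S (nat_lit 23252) (S (nat_lit 56773) (S (nat_lit 39454) (D (nat_lit 13) (nat_lit 26821954) (nat_lit 25763301) (nat_lit 1305879776259))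
(L (nat_lit 29995331)))
(L (nat_lit 30021804)))
(L (nat_lit 24000866)))
(L (nat_lit 17739428)))
(S (nat_lit 54796) (S (nat_lit 58126) (S (nat_lit 41633) (S (nat_lit 6551) (S (nat_lit 51291) (D (nat_lit 13) (nat_lit 31147200) (nat_lit 25767397) (nat_lit 3510199389416))
(L (nat_lit 28593634)))
(L (nat_lit 30812182)))
(L (nat_lit 28747959)))
(L (nat_lit 28946785)))
(L (nat_lit 2513800))))
(L (nat_lit 13638484)))
(L (nat_lit 15508192)))
(L (nat_lit 30974098)))
(L (nat_lit 28620983)))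
(L (nat_lit 17671777)))
(L (nat_lit 5989767)))
(L (nat_lit 3492250)))
(L (nat_lit 12799098)))
(L (nat_lit 17571427)))
(L (nat_lit 14441760)))
(L (nat_lit 13543475)))
(L (nat_lit 30987459)))
(L (nat_lit 10272357)))
(L (nat_lit 25834505)))))
(S (nat_lit 50494) (S (nat_lit 15371) (S (nat_lit 40547) (S (nat_lit 37322) (L (nat_lit 7898717))
(L (nat_lit 20743627)))
(L (nat_lit 27270737)))
(S (nat_lit 35135) (S (nat_lit 37291) (L (nat_lit 3692326))
(S (nat_lit 49398) (L (nat_lit 3395408))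
(L (nat_lit 3938742))))
(S (nat_lit 54899) (S (nat_lit 28512) (S (nat_lit 37260) (L (nat_lit 20846766))
(L (nat_lit 14391356)))
(L (nat_lit 19404860)))
(L (nat_lit 25822543)))))
(L (nat_lit 25448528)))))
(L (nat_lit 25565302)))))
(S (nat_lit 21722) (S (nat_lit 15373) (S (nat_lit 15351) (S (nat_lit 15384) (S (nat_lit 8823) (S (nat_lit 17571) (L (nat_lit 24548263))
(L (nat_lit 8295025)))
(L (nat_lit 8294806)))
(S (nat_lit 35148) (S (nat_lit 55409) (L (nat_lit 551250))
(L (nat_lit 30430599)))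
(S (nat_lit 54912) (S (nat_lit 8790) (S (nat_lit 17538) (L (nat_lit 26980609))
(L (nat_lit 1796486)))
(L (nat_lit 1829286)))
(L (nat_lit 25596615)))))
(S (nat_lit 35115) (S (nat_lit 17496) (S (nat_lit 10935) (S (nat_lit 39603) (S (nat_lit 8748) (S (nat_lit 40805) (S (nat_lit 28554) (L (nat_lit 30944896))
(L (nat_lit 18139937)))
(L (nat_lit 23144986)))
(L (nat_lit 7889972)))
(L (nat_lit 12115745)))
(L (nat_lit 21536545)))
(S (nat_lit 48004) (S (nat_lit 40421) (L (nat_lit 12150177))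
(L (nat_lit 6926490)))
(L (nat_lit 1296151))))
(S (nat_lit 54879) (S (nat_lit 1229) (S (nat_lit 1726) (S (nat_lit 8741) (S (nat_lit 19795) (L (nat_lit 19934619))
(L (nat_lit 30480853)))
(S (nat_lit 48318) (S (nat_lit 19795) (S (nat_lit 19826) (L (nat_lit 22092590))
(L (nat_lit 22409360)))
(L (nat_lit 30481070)))
(L (nat_lit 20482822))))
(S (nat_lit 21490) (S (nat_lit 30746) (S (nat_lit 1776) (S (nat_lit 41514) (S (nat_lit 50538) (S (nat_lit 39590) (S (nat_lit 35120) (S (nat_lit 10966) (S (nat_lit 32136) (L (nat_lit 2418134))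
(L (nat_lit 18458400)))
(L (nat_lit 23174989)))
(L (nat_lit 30520530)))
(L (nat_lit 11219130)))
(L (nat_lit 6116871)))
(L (nat_lit 24941067)))
(L (nat_lit 19074553)))
(L (nat_lit 9179790)))
(S (nat_lit 41254) (S (nat_lit 57066) (L (nat_lit 6744215))
(L (nat_lit 5894535)))
(L (nat_lit 25319943)))))
(L (nat_lit 26614434)))
(L (nat_lit 25447566)))))
(S (nat_lit 35137) (S (nat_lit 1991) (S (nat_lit 1726) (S (nat_lit 25) (S (nat_lit 1229) (L (nat_lit 3764647))
(L (nat_lit 6074000)))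
(S (nat_lit 21667) (L (nat_lit 10261013))
(L (nat_lit 13890708))))
(S (nat_lit 21490) (S (nat_lit 17521) (L (nat_lit 26510926))
(L (nat_lit 22541666)))
(S (nat_lit 41254) (S (nat_lit 9609) (L (nat_lit 13235272))
(S (nat_lit 40743) (S (nat_lit 10977) (S (nat_lit 35120) (S (nat_lit 47) (S (nat_lit 64) (S (nat_lit 40790) (S (nat_lit 41271) (S (nat_lit 10997) (S (nat_lit 35073) (S (nat_lit 21783) (S (nat_lit 20353) (S (nat_lit 1036) (L (nat_lit 8573401))
(L (nat_lit 20459264)))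
(S (nat_lit 39542) (S (nat_lit 1047) (S (nat_lit 28576) (L (nat_lit 3455578))
(L (nat_lit 4049353)))
(L (nat_lit 20844008)))
(L (nat_lit 23267800))))
(L (nat_lit 30955843)))
(L (nat_lit 20121424)))
(L (nat_lit 8290926)))
(L (nat_lit 24375341)))
(L (nat_lit 24167768)))
(L (nat_lit 737064)))
(L (nat_lit 6952348)))
(L (nat_lit 23336781)))
(L (nat_lit 26664103)))
(L (nat_lit 18445480))))
(L (nat_lit 25582784)))))
(S (nat_lit 21755) (S (nat_lit 8748) (S (nat_lit 15309) (S (nat_lit 21026) (S (nat_lit 21041) (L (nat_lit 17003538))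
(L (nat_lit 1796401)))
(L (nat_lit 1548118)))
(L (nat_lit 1269520)))
(S (nat_lit 28512) (S (nat_lit 35135) (S (nat_lit 15323) (L (nat_lit 28857382))
(L (nat_lit 6351410)))
(L (nat_lit 12735833)))
(S (nat_lit 48276) (S (nat_lit 17521) (S (nat_lit 15323) (S (nat_lit 19828) (L (nat_lit 31139329))
(L (nat_lit 10173315)))
(L (nat_lit 14740754)))
(L (nat_lit 24147336)))
(L (nat_lit 25626247)))))
(S (nat_lit 41519) (S (nat_lit 17521) (S (nat_lit 30730) (S (nat_lit 39603) (S (nat_lit 35120) (L (nat_lit 18056795))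
(L (nat_lit 23630667)))
(L (nat_lit 24678685)))
(L (nat_lit 25082984)))
(S (nat_lit 37285) (S (nat_lit 30730) (S (nat_lit 35120) (S (nat_lit 1701) (L (nat_lit 13472360))
(L (nat_lit 10260882)))
(L (nat_lit 9999250)))
(L (nat_lit 17748072)))
(S (nat_lit 57049) (S (nat_lit 15340) (S (nat_lit 8748) (L (nat_lit 1799558))
(L (nat_lit 14702840)))
(L (nat_lit 14976634)))
(L (nat_lit 25219464)))))
(L (nat_lit 25411702)))))
(S (nat_lit 54901) (S (nat_lit 997) (S (nat_lit 10935) (S (nat_lit 40805) (S (nat_lit 41519) (S (nat_lit 21708) (L (nat_lit 1295963))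
(L (nat_lit 8197740)))
(L (nat_lit 23325056)))
(L (nat_lit 23145018)))
(S (nat_lit 30699) (S (nat_lit 28559) (L (nat_lit 10275889))
(L (nat_lit 24684603)))
(S (nat_lit 50463) (S (nat_lit 21496) (S (nat_lit 1262) (S (nat_lit 75) (S (nat_lit 21755) (S (nat_lit 21054) (S (nat_lit 25497) (L (nat_lit 13273338))
(L (nat_lit 28398863)))
(L (nat_lit 22846508)))
(L (nat_lit 22517945)))
(L (nat_lit 19206649)))
(L (nat_lit 11360640)))
(S (nat_lit 41458) (L (nat_lit 4726426))
(L (nat_lit 16519412))))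
(L (nat_lit 25172470)))))
(S (nat_lit 20761) (S (nat_lit 2019) (S (nat_lit 35120) (S (nat_lit 21507) (S (nat_lit 41293) (S (nat_lit 1726) (L (nat_lit 7865266))
(L (nat_lit 13956148)))
(L (nat_lit 3882858)))
(L (nat_lit 21230636)))
(L (nat_lit 31133903)))
(S (nat_lit 21783) (S (nat_lit 8617) (L (nat_lit 7770994))
(S (nat_lit 21021) (S (nat_lit 21496) (S (nat_lit 41497) (S (nat_lit 35115) (S (nat_lit 16887) (L (nat_lit 567191))
(L (nat_lit 23465209)))
(L (nat_lit 23465767)))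
(L (nat_lit 23173692)))
(L (nat_lit 21771584)))
(L (nat_lit 15884530))))
(S (nat_lit 41547) (S (nat_lit 35073) (S (nat_lit 39592) (L (nat_lit 22230076))
(L (nat_lit 18686005)))
(S (nat_lit 49363) (L (nat_lit 21151993))
(L (nat_lit 23279644))))
(L (nat_lit 25893347)))))
(S (nat_lit 40525) (S (nat_lit 1014) (S (nat_lit 41519) (S (nat_lit 50527) (S (nat_lit 19795) (S (nat_lit 1215) (S (nat_lit 1726) (S (nat_lit 2019) (S (nat_lit 30746) (S (nat_lit 21010) (S (nat_lit 39603) (S (nat_lit 15334) (S (nat_lit 20811) (S (nat_lit 30741) (S (nat_lit 21496) (S (nat_lit 20800) (S (nat_lit 41503) (S (nat_lit 21021) (S (nat_lit 21026) (S (nat_lit 1229) (S (nat_lit 30730) (S (nat_lit 20798) (S (nat_lit 21708) (S (nat_lit 10949) (S (nat_lit 3591) (S (nat_lit 5221) (S (nat_lit 3605) (S (nat_lit 42870) (S (nat_lit 5738) (S (nat_lit 5232) (S (nat_lit 33264) (S (nat_lit 1073) (S (nat_lit 1068) (S (nat_lit 44359) (D (nat_lit 13) (nat_lit 27316679) (nat_lit 19666224)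 (nat_lit 7732018022464))
(L (nat_lit 29907300)))
(L (nat_lit 27868450)))
(S (nat_lit 56040) (S (nat_lit 50147) (S (nat_lit 32371) (S (nat_lit 51584) (S (nat_lit 56455) (S (nat_lit 57024) (D (nat_lit 13) (nat_lit 13932306) (nat_lit 5745426) (nat_lit 5503034859749))
(L (nat_lit 25869504)))
(L (nat_lit 15487168)))
(L (nat_lit 21774528)))
(L (nat_lit 21772480)))
(L (nat_lit 26949824)))
(L (nat_lit 6719069))))
(L (nat_lit 1627975)))
(L (nat_lit 21837928)))
(L (nat_lit 21371746)))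
(L (nat_lit 7199267)))
(L (nat_lit 23927330)))
(L (nat_lit 21840131)))
(S (nat_lit 28587) (S (nat_lit 29569) (S (nat_lit 48301) (S (nat_lit 39181) (S (nat_lit 17560) (S (nat_lit 24564) (S (nat_lit 23262) (S (nat_lit 42297) (S (nat_lit 17180) (D (nat_lit 15) (nat_lit 259756) (nat_lit 4639495) (nat_lit 70029282500))
(L (nat_lit 31111361)))
(L (nat_lit 15652008)))
(L (nat_lit 23604316)))
(S (nat_lit 35417) (S (nat_lit 7925) (S (nat_lit 15998) (D (nat_lit 15) (nat_lit 28823844) (nat_lit 19063178) (nat_lit 42010187971))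
(L (nat_lit 31039874)))
(L (nat_lit 28948834)))
(L (nat_lit 19802255))))
(L (nat_lit 22506722)))
(L (nat_lit 3819271)))
(L (nat_lit 20453129)))
(L (nat_lit 20849024)))
(S (nat_lit 46546) (S (nat_lit 26738) (S (nat_lit 4746) (S (nat_lit 4735) (S (nat_lit 6235) (S (nat_lit 4102) (S (nat_lit 16956) (S (nat_lit 50147) (S (nat_lit 52081) (S (nat_lit 31874) (S (nat_lit 55958) (S (nat_lit 57024) (D (nat_lit 13) (nat_lit 13930258) (nat_lit 5745426) (nat_lit 7704136392871))
(L (nat_lit 25869504)))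
(L (nat_lit 15489216)))
(L (nat_lit 21774528)))
(L (nat_lit 21772480)))
(L (nat_lit 26949824)))
(S (nat_lit 28554) (S (nat_lit 45320) (S (nat_lit 13844) (D (nat_lit 13) (nat_lit 27416814) (nat_lit 19666124) (nat_lit 1138367662339))
(L (nat_lit 29967466)))
(L (nat_lit 29905221)))
(L (nat_lit 8970016))))
(L (nat_lit 29777157)))
(L (nat_lit 27680005)))
(L (nat_lit 27709513)))
(L (nat_lit 27711778)))
(L (nat_lit 27711842)))
(L (nat_lit 9588494)))))
(L (nat_lit 21215044)))
(L (nat_lit 10678860)))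
(L (nat_lit 6080753)))
(L (nat_lit 9523981)))
(L (nat_lit 26852546)))
(L (nat_lit 4579153)))
(L (nat_lit 5001453)))
(L (nat_lit 249340)))
(L (nat_lit 6008248)))
(L (nat_lit 7850008)))
(L (nat_lit 14420582)))
(L (nat_lit 21011932)))
(L (nat_lit 24671555)))
(L (nat_lit 23932384)))
(L (nat_lit 1718027)))
(L (nat_lit 8939204)))
(L (nat_lit 20879501)))
(L (nat_lit 13993908)))
(L (nat_lit 8566360)))
(L (nat_lit 21043983)))
(L (nat_lit 27954413)))
(L (nat_lit 23325056)))
(S (nat_lit 20778) (S (nat_lit 30410) (L (nat_lit 7026745))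
(S (nat_lit 30746) (S (nat_lit 21010) (S (nat_lit 17496) (S (nat_lit 41547) (S (nat_lit 21496) (L (nat_lit 10153007))
(L (nat_lit 31075813)))
(L (nat_lit 27793458)))
(L (nat_lit 802471)))
(L (nat_lit 1718027)))
(L (nat_lit 3946707))))
(S (nat_lit 40542) (S (nat_lit 19795) (S (nat_lit 15323) (S (nat_lit 40805) (S (nat_lit 1229) (S (nat_lit 1215) (S (nat_lit 21021) (S (nat_lit 1019) (S (nat_lit 17571) (L (nat_lit 12785369))
(L (nat_lit 7738072)))
(L (nat_lit 14493281)))
(L (nat_lit 21454922)))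
(L (nat_lit 3428141)))
(L (nat_lit 9209303)))
(L (nat_lit 18126679)))
(L (nat_lit 1810845)))
(S (nat_lit 57854) (L (nat_lit 342713))
(L (nat_lit 8899491))))
(L (nat_lit 25827436)))))
(L (nat_lit 25452037)))))
(L (nat_lit 25516547)))))
(S (nat_lit 41486) (S (nat_lit 1240) (S (nat_lit 17560) (S (nat_lit 35120) (S (nat_lit 21512) (S (nat_lit 50527) (S (nat_lit 39603) (S (nat_lit 1715) (S (nat_lit 48290) (S (nat_lit 57055) (S (nat_lit 30713) (S (nat_lit 19789) (S (nat_lit 50463) (S (nat_lit 51594) (S (nat_lit 54862) (S (nat_lit 36732) (S (nat_lit 12234) (S (nat_lit 17178) (S (nat_lit 40790) (S (nat_lit 47) (S (nat_lit 22185) (S (nat_lit 18356) (S (nat_lit 2651) (D (nat_lit 15) (nat_lit 31146277) (nat_lit 7935756) (nat_lit 210721834021))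
(L (nat_lit 31143946)))
(L (nat_lit 29047140)))
(S (nat_lit 45718) (S (nat_lit 33076) (S (nat_lit 53569) (D (nat_lit 15) (nat_lit 12908130) (nat_lit 3950984) (nat_lit 240524468390))
(L (nat_lit 29875461)))
(L (nat_lit 22974888)))
(L (nat_lit 18919248))))
(L (nat_lit 13300779)))
(L (nat_lit 24157626)))
(L (nat_lit 29908075)))
(L (nat_lit 18983448)))
(L (nat_lit 27666455)))
(L (nat_lit 11550486)))
(L (nat_lit 28724232)))
(L (nat_lit 20874449)))
(L (nat_lit 31042082)))
(L (nat_lit 30418510)))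
(L (nat_lit 5553971)))
(L (nat_lit 5976346)))
(L (nat_lit 26629347)))
(L (nat_lit 27831936)))
(L (nat_lit 22439139)))
(L (nat_lit 22275459)))
(L (nat_lit 18624228)))
(S (nat_lit 37324) (S (nat_lit 17538) (S (nat_lit 1715) (S (nat_lit 39603) (S (nat_lit 1726) (S (nat_lit 19806) (L (nat_lit 28738933))
(L (nat_lit 21766657)))
(L (nat_lit 20062747)))
(L (nat_lit 23605024)))
(L (nat_lit 26852518)))
(S (nat_lit 37302) (S (nat_lit 30730) (S (nat_lit 35115) (L (nat_lit 8992577))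
(L (nat_lit 3569223)))
(L (nat_lit 17072728)))
(S (nat_lit 57066) (S (nat_lit 30730) (S (nat_lit 1991) (S (nat_lit 1715) (S (nat_lit 39603) (S (nat_lit 48323) (S (nat_lit 1732) (S (nat_lit 1776) (S (nat_lit 19826) (S (nat_lit 27973) (S (nat_lit 28543) (S (nat_lit 21733) (S (nat_lit 50463) (S (nat_lit 57086) (S (nat_lit 39559) (S (nat_lit 12141) (S (nat_lit 48466) (S (nat_lit 12097) (S (nat_lit 38330) (D (nat_lit 11) (nat_lit 29066633) (nat_lit 4796174) (nat_lit 206193231012))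
(L (nat_lit 28593601)))
(L (nat_lit 31009248)))
(L (nat_lit 19295424)))
(S (nat_lit 19557) (S (nat_lit 10438) (S (nat_lit 52385) (S (nat_lit 20727) (D (nat_lit 13) (nat_lit 29938857) (nat_lit 19371384) (nat_lit 2339920611336))
(L (nat_lit 19766412)))
(L (nat_lit 19295270)))
(L (nat_lit 31043843)))
(L (nat_lit 19963449))))
(L (nat_lit 24605954)))
(L (nat_lit 5725963)))
(L (nat_lit 5829878)))
(L (nat_lit 1481589)))
(L (nat_lit 3429132)))
(L (nat_lit 9464242)))
(L (nat_lit 10023094)))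
(L (nat_lit 13856947)))
(L (nat_lit 18884430)))
(L (nat_lit 12293594)))
(L (nat_lit 16952210)))
(L (nat_lit 20356961)))
(L (nat_lit 20181378)))
(L (nat_lit 13737751)))
(L (nat_lit 25796992)))))
(S (nat_lit 57088) (S (nat_lit 18309) (L (nat_lit 6042901))
(S (nat_lit 37291) (S (nat_lit 30730) (S (nat_lit 20798) (S (nat_lit 1715) (S (nat_lit 1036) (S (nat_lit 8762) (S (nat_lit 35120) (S (nat_lit 19806) (S (nat_lit 21010) (S (nat_lit 19826) (S (nat_lit 50527) (S (nat_lit 21465) (S (nat_lit 23250) (S (nat_lit 3500) (S (nat_lit 1257) (S (nat_lit 45592) (S (nat_lit 1648) (S (nat_lit 20409) (S (nat_lit 5019) (S (nat_lit 43162) (D (nat_lit 15) (nat_lit 4539285) (nat_lit 3939762) (nat_lit 69794335938))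
(L (nat_lit 30098691)))
(L (nat_lit 29047107)))
(L (nat_lit 29049157)))
(S (nat_lit 20884) (S (nat_lit 32615) (S (nat_lit 48678) (D (nat_lit 15) (nat_lit 27857229) (nat_lit 19664298) (nat_lit 34431077477))
(L (nat_lit 28947526)))
(L (nat_lit 16700608)))
(L (nat_lit 24371214))))
(L (nat_lit 29773930)))
(L (nat_lit 12735737)))
(L (nat_lit 13390048)))
(L (nat_lit 637864)))
(L (nat_lit 30493997)))
(L (nat_lit 20788264)))
(L (nat_lit 31130960)))
(L (nat_lit 2017734)))
(L (nat_lit 10239122)))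
(L (nat_lit 8950523)))
(L (nat_lit 21505148)))
(L (nat_lit 26328678)))
(L (nat_lit 14418600)))
(L (nat_lit 6844535)))
(L (nat_lit 3950313)))
(L (nat_lit 23856552))))
(L (nat_lit 25542675)))))
(S (nat_lit 21004) (S (nat_lit 17521) (S (nat_lit 28559) (S (nat_lit 39603) (S (nat_lit 35120) (S (nat_lit 21512) (S (nat_lit 8762) (L (nat_lit 5523381))
(L (nat_lit 20998539)))
(L (nat_lit 30415255)))
(L (nat_lit 23630667)))
(L (nat_lit 24678685)))
(L (nat_lit 24678619)))
(S (nat_lit 37285) (S (nat_lit 39570) (S (nat_lit 35120) (L (nat_lit 29370774))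
(L (nat_lit 9999250)))
(L (nat_lit 27965761)))
(S (nat_lit 57049) (S (nat_lit 2006) (S (nat_lit 8762) (L (nat_lit 21180476))
(S (nat_lit 30433) (L (nat_lit 5518072))
(L (nat_lit 20981149))))
(S (nat_lit 21770) (S (nat_lit 35120) (S (nat_lit 21010) (L (nat_lit 22229889))
(L (nat_lit 21181185)))
(L (nat_lit 2666169)))
(S (nat_lit 41534) (L (nat_lit 17002048))
(L (nat_lit 25184774)))))
(L (nat_lit 25925000)))))
(S (nat_lit 40768) (S (nat_lit 1944) (S (nat_lit 25) (S (nat_lit 19037) (L (nat_lit 23240494))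
(S (nat_lit 35137) (S (nat_lit 37285) (L (nat_lit 13389864))
(L (nat_lit 23080344)))
(L (nat_lit 23905320))))
(S (nat_lit 19789) (S (nat_lit 34503) (L (nat_lit 12149772))
(S (nat_lit 40531) (S (nat_lit 39603) (S (nat_lit 1257) (S (nat_lit 40805) (L (nat_lit 14355773))
(L (nat_lit 27989545)))
(L (nat_lit 13686073)))
(L (nat_lit 24646438)))
(L (nat_lit 16978741))))
(S (nat_lit 39553) (S (nat_lit 20750) (S (nat_lit 37335) (L (nat_lit 22199208))
(L (nat_lit 17379072)))
(L (nat_lit 637703)))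
(L (nat_lit 25582760)))))
(S (nat_lit 21708) (S (nat_lit 1019) (S (nat_lit 17571) (S (nat_lit 40564) (L (nat_lit 211580))
(L (nat_lit 17953382)))
(S (nat_lit 43580) (S (nat_lit 6040) (L (nat_lit 26613045))
(L (nat_lit 24647034)))
(L (nat_lit 8296047))))
(S (nat_lit 20783) (S (nat_lit 40564) (S (nat_lit 30774) (S (nat_lit 39559) (S (nat_lit 21026) (S (nat_lit 1014) (S (nat_lit 19826) (S (nat_lit 34812) (L (nat_lit 3357437))
(L (nat_lit 24675644)))
(L (nat_lit 8941750)))
(L (nat_lit 8573465)))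
(L (nat_lit 21194144)))
(L (nat_lit 24413070)))
(S (nat_lit 42806) (L (nat_lit 4548207))
(L (nat_lit 9212495))))
(L (nat_lit 24244614)))
(S (nat_lit 40547) (S (nat_lit 35135) (S (nat_lit 28574) (L (nat_lit 30049707))
(L (nat_lit 19067245)))
(L (nat_lit 10323535)))
(L (nat_lit 25822633)))))
(S (nat_lit 41472) (S (nat_lit 10997) (S (nat_lit 28512) (S (nat_lit 37260) (L (nat_lit 20749825))
(L (nat_lit 23632705)))
(S (nat_lit 30618) (L (nat_lit 346007))
(L (nat_lit 18553665))))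
(S (nat_lit 30761) (S (nat_lit 30774) (S (nat_lit 40757) (S (nat_lit 39570) (L (nat_lit 19839142))
(L (nat_lit 24950951)))
(L (nat_lit 24536416)))
(S (nat_lit 36495) (S (nat_lit 20736) (L (nat_lit 400026))
(L (nat_lit 862828)))
(L (nat_lit 24514874))))
(S (nat_lit 50525) (S (nat_lit 3970) (L (nat_lit 4897146))
(S (nat_lit 28587) (S (nat_lit 17521) (L (nat_lit 3401111))
(L (nat_lit 702842)))
(L (nat_lit 18474272))))
(L (nat_lit 25352556)))))
(L (nat_lit 25791883)))))
(L (nat_lit 25559285)))))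
(L (nat_lit 25789776)))))
(L (nat_lit 25447537)))))
(L (nat_lit 25710913)))

theorem rb246_0_2 : run 4 lb246 [] tb246_0_2 kb246 [0, 2008, 10960] [1279, 21043] = true := by
  decide +kernel

noncomputable def tb183_3 : Tr :=
(S (nat_lit 10036) (S (nat_lit 2226) (S (nat_lit 6077) (S (nat_lit 3456) (S (nat_lit 14844) (S (nat_lit 28) (S (nat_lit 2254) (S (nat_lit 49) (S (nat_lit 8798) (L (nat_lit 23159087))
(L (nat_lit 21295181)))
(L (nat_lit 20235386)))
(L (nat_lit 20423522)))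
(L (nat_lit 20001576)))
(S (nat_lit 34608) (S (nat_lit 13158) (S (nat_lit 30773) (L (nat_lit 9295360))
(L (nat_lit 9229356)))
(L (nat_lit 8228279)))
(S (nat_lit 54372) (S (nat_lit 1241) (S (nat_lit 13158) (S (nat_lit 26344) (L (nat_lit 21368582))
(L (nat_lit 8439639)))
(L (nat_lit 22318861)))
(L (nat_lit 8979005)))
(L (nat_lit 25252299)))))
(S (nat_lit 23220) (S (nat_lit 6580) (S (nat_lit 1678) (L (nat_lit 5616466))
(S (nat_lit 58763) (S (nat_lit 17558) (S (nat_lit 1767) (S (nat_lit 24191) (S (nat_lit 43980) (L (nat_lit 4505431))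
(L (nat_lit 24294215)))
(L (nat_lit 22319916)))
(L (nat_lit 10015556)))
(L (nat_lit 18421948)))
(L (nat_lit 6475630))))
(S (nat_lit 26344) (S (nat_lit 7475) (L (nat_lit 10094416))
(S (nat_lit 30773) (S (nat_lit 30777) (L (nat_lit 1463548))
(L (nat_lit 9229697)))
(L (nat_lit 9852740))))
(S (nat_lit 46108) (S (nat_lit 4437) (S (nat_lit 7853) (L (nat_lit 18633830))
(L (nat_lit 5492560)))
(S (nat_lit 21139) (L (nat_lit 24199417))
(L (nat_lit 26937894))))
(L (nat_lit 25578537)))))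
(S (nat_lit 42984) (S (nat_lit 17566) (S (nat_lit 8757) (S (nat_lit 57108) (L (nat_lit 9957399))
(L (nat_lit 8030749)))
(L (nat_lit 26260102)))
(S (nat_lit 37330) (S (nat_lit 30741) (S (nat_lit 36819) (S (nat_lit 15323) (L (nat_lit 18890013))
(L (nat_lit 7868274)))
(L (nat_lit 23399964)))
(L (nat_lit 17377120)))
(S (nat_lit 57094) (S (nat_lit 2254) (S (nat_lit 54902) (S (nat_lit 46117) (L (nat_lit 26354349))
(L (nat_lit 10998627)))
(L (nat_lit 13995892)))
(S (nat_lit 46049) (L (nat_lit 3728723))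
(L (nat_lit 26971409))))
(L (nat_lit 25319757)))))
(L (nat_lit 25182546)))))
(S (nat_lit 25841) (S (nat_lit 2254) (S (nat_lit 5629) (S (nat_lit 1767) (S (nat_lit 8807) (S (nat_lit 6625) (S (nat_lit 14844) (S (nat_lit 34122) (L (nat_lit 12742005))
(L (nat_lit 20847756)))
(L (nat_lit 12306276)))
(L (nat_lit 23995438)))
(L (nat_lit 383853)))
(S (nat_lit 21612) (S (nat_lit 21971) (L (nat_lit 18025330))
(L (nat_lit 22232900)))
(L (nat_lit 26793282))))
(S (nat_lit 25393) (S (nat_lit 27555) (S (nat_lit 57072) (S (nat_lit 43) (L (nat_lit 13207867))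
(L (nat_lit 13948058)))
(L (nat_lit 21522689)))
(L (nat_lit 7161933)))
(S (nat_lit 45157) (S (nat_lit 9094) (L (nat_lit 17060890))
(S (nat_lit 30286) (S (nat_lit 7853) (S (nat_lit 32933) (L (nat_lit 29989284))
(L (nat_lit 23368528)))
(L (nat_lit 9095008)))
(L (nat_lit 212818))))
(L (nat_lit 25832592)))))
(S (nat_lit 22018) (S (nat_lit 15331) (S (nat_lit 11011) (S (nat_lit 26344) (S (nat_lit 7853) (S (nat_lit 5629) (S (nat_lit 49) (L (nat_lit 5555869))
(L (nat_lit 7861364)))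
(L (nat_lit 15930197)))
(L (nat_lit 10504019)))
(L (nat_lit 14931842)))
(L (nat_lit 26694915)))
(S (nat_lit 35095) (S (nat_lit 50469) (S (nat_lit 40769) (L (nat_lit 26400049))
(L (nat_lit 24463168)))
(L (nat_lit 22922593)))
(S (nat_lit 54859) (S (nat_lit 17055) (S (nat_lit 23704) (S (nat_lit 21531) (S (nat_lit 28) (S (nat_lit 7791) (S (nat_lit 57086) (S (nat_lit 24191) (S (nat_lit 56) (S (nat_lit 43) (S (nat_lit 1132) (L (nat_lit 18449656))
(L (nat_lit 15430949)))
(S (nat_lit 38331) (L (nat_lit 13914299))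
(L (nat_lit 13274458))))
(L (nat_lit 8277381)))
(L (nat_lit 30943382)))
(L (nat_lit 21300632)))
(L (nat_lit 14314570)))
(L (nat_lit 8243586)))
(L (nat_lit 22915244)))
(L (nat_lit 22036266)))
(L (nat_lit 17649954)))
(L (nat_lit 25700467)))))
(S (nat_lit 41782) (S (nat_lit 2195) (S (nat_lit 6625) (S (nat_lit 10522) (L (nat_lit 3594090))
(L (nat_lit 26662245)))
(L (nat_lit 26846626)))
(S (nat_lit 21959) (S (nat_lit 7853) (S (nat_lit 25355) (L (nat_lit 21225860))
(L (nat_lit 12470816)))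
(L (nat_lit 21219138)))
(S (nat_lit 41723) (S (nat_lit 26389) (S (nat_lit 50469) (L (nat_lit 28740262))
(L (nat_lit 11557713)))
(L (nat_lit 16360258)))
(L (nat_lit 25696964)))))
(L (nat_lit 25594165)))))
(S (nat_lit 45605) (S (nat_lit 3942) (S (nat_lit 2207) (S (nat_lit 32922) (S (nat_lit 10941) (S (nat_lit 4437) (L (nat_lit 18900172))
(L (nat_lit 26596897)))
(L (nat_lit 26429025)))
(L (nat_lit 15468791)))
(S (nat_lit 21971) (S (nat_lit 31924) (S (nat_lit 21005) (S (nat_lit 14844) (S (nat_lit 3454) (S (nat_lit 32922) (L (nat_lit 3066189))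
(L (nat_lit 9353239)))
(L (nat_lit 20313505)))
(L (nat_lit 12723031)))
(L (nat_lit 15541270)))
(L (nat_lit 17652843)))
(S (nat_lit 41735) (S (nat_lit 34122) (S (nat_lit 13129) (S (nat_lit 8764) (L (nat_lit 6304377))
(L (nat_lit 21800076)))
(L (nat_lit 26607987)))
(L (nat_lit 15378181)))
(L (nat_lit 25792717)))))
(S (nat_lit 23706) (S (nat_lit 13169) (S (nat_lit 26389) (S (nat_lit 34172) (L (nat_lit 30968115))
(L (nat_lit 6307698)))
(L (nat_lit 15574034)))
(S (nat_lit 32933) (S (nat_lit 26389) (S (nat_lit 32922) (S (nat_lit 32914) (L (nat_lit 30484108))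
(L (nat_lit 14774483)))
(L (nat_lit 8502103)))
(S (nat_lit 46078) (L (nat_lit 15307687))
(L (nat_lit 2630482))))
(S (nat_lit 52697) (S (nat_lit 5482) (L (nat_lit 11387988))
(S (nat_lit 34122) (S (nat_lit 15323) (L (nat_lit 29657709))
(L (nat_lit 15508562)))
(L (nat_lit 12305562))))
(L (nat_lit 25904356)))))
(S (nat_lit 43470) (S (nat_lit 13169) (S (nat_lit 32922) (S (nat_lit 17514) (S (nat_lit 17055) (L (nat_lit 7393816))
(L (nat_lit 5067118)))
(L (nat_lit 18041632)))
(L (nat_lit 23379776)))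
(S (nat_lit 32933) (S (nat_lit 7853) (S (nat_lit 35117) (S (nat_lit 37278) (L (nat_lit 29503799))
(L (nat_lit 23572289)))
(L (nat_lit 23143277)))
(L (nat_lit 9094301)))
(S (nat_lit 52697) (S (nat_lit 7853) (S (nat_lit 48285) (S (nat_lit 28528) (L (nat_lit 18049171))
(L (nat_lit 19342178)))
(L (nat_lit 5711798)))
(L (nat_lit 9095008)))
(L (nat_lit 25466260)))))
(L (nat_lit 25930894)))))
(L (nat_lit 25544257)))))
(S (nat_lit 21990) (S (nat_lit 1767) (S (nat_lit 15323) (S (nat_lit 3456) (S (nat_lit 14358) (S (nat_lit 35138) (S (nat_lit 50469) (L (nat_lit 8867963))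
(L (nat_lit 22267712)))
(L (nat_lit 10096461)))
(L (nat_lit 3909453)))
(S (nat_lit 23220) (S (nat_lit 40809) (S (nat_lit 8339) (L (nat_lit 18679123))
(L (nat_lit 26791137)))
(L (nat_lit 10019891)))
(S (nat_lit 42984) (S (nat_lit 30741) (S (nat_lit 43965) (S (nat_lit 35117) (L (nat_lit 29569731))
(L (nat_lit 2892365)))
(L (nat_lit 15469159)))
(S (nat_lit 56396) (L (nat_lit 14735206))
(L (nat_lit 2859887))))
(L (nat_lit 25480707)))))
(S (nat_lit 35087) (S (nat_lit 6115) (S (nat_lit 49) (S (nat_lit 46119) (S (nat_lit 1281) (L (nat_lit 29066445))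
(L (nat_lit 3396057)))
(L (nat_lit 20853024)))
(L (nat_lit 1361563)))
(S (nat_lit 25879) (S (nat_lit 57072) (S (nat_lit 11013) (L (nat_lit 3698279))
(L (nat_lit 8312257)))
(L (nat_lit 21064103)))
(S (nat_lit 45643) (S (nat_lit 45157) (S (nat_lit 22018) (L (nat_lit 30954602))
(L (nat_lit 3003785)))
(L (nat_lit 9990788)))
(L (nat_lit 25401005)))))
(S (nat_lit 54851) (S (nat_lit 2207) (S (nat_lit 46108) (S (nat_lit 45157) (S (nat_lit 2195) (L (nat_lit 717133))
(L (nat_lit 26429613)))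
(L (nat_lit 27480109)))
(L (nat_lit 27481103)))
(S (nat_lit 21971) (S (nat_lit 48335) (S (nat_lit 56599) (S (nat_lit 5629) (L (nat_lit 29003981))
(L (nat_lit 9093178)))
(L (nat_lit 21840128)))
(L (nat_lit 12184685)))
(S (nat_lit 41735) (S (nat_lit 49) (S (nat_lit 5629) (S (nat_lit 43927) (L (nat_lit 5778194))
(L (nat_lit 11592397)))
(L (nat_lit 18914125)))
(L (nat_lit 26527394)))
(L (nat_lit 25410614)))))
(L (nat_lit 25647397)))))
(S (nat_lit 21531) (S (nat_lit 17558) (S (nat_lit 49) (S (nat_lit 46117) (S (nat_lit 43965) (L (nat_lit 29439218))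
(L (nat_lit 15468786)))
(L (nat_lit 18121586)))
(S (nat_lit 19813) (S (nat_lit 46124) (S (nat_lit 21971) (L (nat_lit 17846587))
(L (nat_lit 20997325)))
(L (nat_lit 22480651)))
(S (nat_lit 39577) (S (nat_lit 18749) (L (nat_lit 18440266))
(L (nat_lit 3692892)))
(L (nat_lit 25865326)))))
(S (nat_lit 37322) (S (nat_lit 8807) (S (nat_lit 32922) (S (nat_lit 21005) (S (nat_lit 22018) (L (nat_lit 28451379))
(L (nat_lit 9134626)))
(L (nat_lit 15310688)))
(L (nat_lit 2564860)))
(L (nat_lit 15630643)))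
(S (nat_lit 57086) (S (nat_lit 11011) (S (nat_lit 12668) (S (nat_lit 40769) (L (nat_lit 28321202))
(L (nat_lit 18177858)))
(S (nat_lit 48718) (L (nat_lit 30806726))
(L (nat_lit 26821800))))
(S (nat_lit 30775) (S (nat_lit 45157) (S (nat_lit 54859) (S (nat_lit 12567) (L (nat_lit 16550471))
(S (nat_lit 46108) (S (nat_lit 24191) (L (nat_lit 25047296))
(L (nat_lit 10137785)))
(L (nat_lit 22031215))))
(L (nat_lit 15780124)))
(L (nat_lit 8181153)))
(S (nat_lit 50539) (S (nat_lit 35076) (S (nat_lit 16585) (L (nat_lit 21029165))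
(L (nat_lit 15652129)))
(L (nat_lit 20454522)))
(L (nat_lit 25508579)))))
(L (nat_lit 25493906)))))
(S (nat_lit 41295) (S (nat_lit 16585) (S (nat_lit 15353) (S (nat_lit 31924) (S (nat_lit 10977) (S (nat_lit 37322) (L (nat_lit 28391078))
(L (nat_lit 3566155)))
(L (nat_lit 26490038)))
(L (nat_lit 1794317)))
(S (nat_lit 35117) (S (nat_lit 37322) (S (nat_lit 32933) (L (nat_lit 26327723))
(L (nat_lit 8473019)))
(L (nat_lit 8996708)))
(S (nat_lit 54881) (S (nat_lit 51688) (S (nat_lit 37322) (S (nat_lit 30773) (L (nat_lit 30430603))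
(L (nat_lit 3565195)))
(L (nat_lit 9007492)))
(L (nat_lit 12710539)))
(L (nat_lit 25791914)))))
(S (nat_lit 36349) (S (nat_lit 11011) (S (nat_lit 18715) (S (nat_lit 10522) (S (nat_lit 11009) (L (nat_lit 26973673))
(L (nat_lit 16078628)))
(L (nat_lit 16995418)))
(L (nat_lit 9196964)))
(S (nat_lit 30775) (S (nat_lit 47867) (S (nat_lit 56599) (L (nat_lit 15816454))
(L (nat_lit 3647315)))
(L (nat_lit 9197027)))
(S (nat_lit 50539) (S (nat_lit 52708) (S (nat_lit 28571) (S (nat_lit 47381) (S (nat_lit 52657) (L (nat_lit 6112967))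
(L (nat_lit 5085747)))
(L (nat_lit 9525040)))
(L (nat_lit 4051245)))
(L (nat_lit 18633987)))
(L (nat_lit 25793837)))))
(S (nat_lit 56113) (S (nat_lit 8807) (S (nat_lit 54881) (S (nat_lit 12668) (S (nat_lit 56599) (L (nat_lit 28522116))
(L (nat_lit 8817491)))
(L (nat_lit 11986099)))
(L (nat_lit 16361284)))
(S (nat_lit 28571) (S (nat_lit 4238) (S (nat_lit 43468) (L (nat_lit 22476032))
(L (nat_lit 9045436)))
(S (nat_lit 52708) (S (nat_lit 1241) (S (nat_lit 32914) (S (nat_lit 56599) (L (nat_lit 3367318))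
(L (nat_lit 16524339)))
(L (nat_lit 16019507)))
(L (nat_lit 8804381)))
(L (nat_lit 18421852))))
(S (nat_lit 48335) (S (nat_lit 40809) (S (nat_lit 7763) (L (nat_lit 9884453))
(L (nat_lit 10000211)))
(L (nat_lit 10238003)))
(L (nat_lit 25514063)))))
(L (nat_lit 25416721)))))
(L (nat_lit 25213266)))))
(S (nat_lit 41754) (S (nat_lit 13180) (S (nat_lit 18715) (S (nat_lit 3940) (S (nat_lit 54840) (S (nat_lit 53886) (S (nat_lit 22018) (L (nat_lit 21193093))
(L (nat_lit 22448413)))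
(L (nat_lit 17105627)))
(L (nat_lit 16488539)))
(S (nat_lit 23704) (S (nat_lit 10522) (S (nat_lit 28562) (L (nat_lit 17911622))
(L (nat_lit 3466803)))
(L (nat_lit 26490560)))
(S (nat_lit 43468) (S (nat_lit 48292) (S (nat_lit 23220) (S (nat_lit 56599) (S (nat_lit 39571) (L (nat_lit 4715110))
(L (nat_lit 17946441)))
(L (nat_lit 27527603)))
(L (nat_lit 18084018)))
(S (nat_lit 58868) (L (nat_lit 12949332))
(L (nat_lit 15753032))))
(L (nat_lit 25172684)))))
(S (nat_lit 38479) (S (nat_lit 6580) (S (nat_lit 41295) (S (nat_lit 49) (S (nat_lit 11013) (S (nat_lit 37322) (L (nat_lit 4418188))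
(L (nat_lit 23396763)))
(L (nat_lit 16668001)))
(L (nat_lit 1361749)))
(L (nat_lit 1594715)))
(L (nat_lit 1496315)))
(S (nat_lit 58243) (S (nat_lit 6580) (S (nat_lit 43) (S (nat_lit 49) (S (nat_lit 27617) (S (nat_lit 56097) (S (nat_lit 15353) (S (nat_lit 45605) (L (nat_lit 3427835))
(L (nat_lit 14979706)))
(L (nat_lit 14787164)))
(L (nat_lit 13854837)))
(L (nat_lit 15000723)))
(L (nat_lit 7423861)))
(L (nat_lit 12899482)))
(L (nat_lit 7787546)))
(L (nat_lit 25445988)))))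
(S (nat_lit 32944) (S (nat_lit 16569) (S (nat_lit 9996) (S (nat_lit 25841) (L (nat_lit 6145674))
(L (nat_lit 11045718)))
(S (nat_lit 29760) (S (nat_lit 22018) (S (nat_lit 18715) (S (nat_lit 4437) (S (nat_lit 54859) (S (nat_lit 28103) (S (nat_lit 54372) (L (nat_lit 8948345))
(L (nat_lit 18190231)))
(L (nat_lit 14734683)))
(L (nat_lit 16699683)))
(L (nat_lit 16491296)))
(L (nat_lit 9178646)))
(L (nat_lit 17978685)))
(S (nat_lit 49524) (S (nat_lit 56599) (S (nat_lit 41723) (S (nat_lit 21971) (S (nat_lit 18715) (L (nat_lit 9341584))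
(L (nat_lit 11310518)))
(L (nat_lit 8444749)))
(L (nat_lit 23280453)))
(L (nat_lit 15791751)))
(L (nat_lit 25307636)))))
(S (nat_lit 36333) (S (nat_lit 20101) (S (nat_lit 2123) (L (nat_lit 23380125))
(L (nat_lit 415005)))
(S (nat_lit 22018) (S (nat_lit 41208) (L (nat_lit 4814092))
(S (nat_lit 56599) (S (nat_lit 30775) (S (nat_lit 15323) (S (nat_lit 39584) (S (nat_lit 25879) (L (nat_lit 8532571))
(L (nat_lit 31104421)))
(L (nat_lit 10645104)))
(L (nat_lit 26742066)))
(L (nat_lit 30758000)))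
(L (nat_lit 21760268))))
(L (nat_lit 17965757))))
(S (nat_lit 56097) (S (nat_lit 28) (S (nat_lit 30775) (S (nat_lit 22018) (S (nat_lit 26360) (S (nat_lit 56599) (S (nat_lit 24191) (S (nat_lit 35117) (S (nat_lit 1727) (S (nat_lit 53936) (S (nat_lit 47867) (L (nat_lit 4474522))
(L (nat_lit 17490241)))
(L (nat_lit 9466512)))
(L (nat_lit 2890480)))
(L (nat_lit 9526125)))
(L (nat_lit 10137787)))
(L (nat_lit 18922311)))
(L (nat_lit 8501109)))
(L (nat_lit 21334429)))
(S (nat_lit 58435) (S (nat_lit 25789) (L (nat_lit 26793128))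
(L (nat_lit 2648746)))
(L (nat_lit 14472451))))
(S (nat_lit 19792) (S (nat_lit 18703) (L (nat_lit 3830279))
(S (nat_lit 26360) (S (nat_lit 42984) (S (nat_lit 41723) (S (nat_lit 22018) (L (nat_lit 13719403))
(L (nat_lit 21301661)))
(L (nat_lit 16359236)))
(L (nat_lit 16042851)))
(L (nat_lit 15638181))))
(S (nat_lit 39556) (S (nat_lit 43959) (S (nat_lit 57094) (L (nat_lit 4928796))
(L (nat_lit 21440322)))
(L (nat_lit 23534685)))
(L (nat_lit 25643048)))))
(L (nat_lit 25732771)))))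
(S (nat_lit 52708) (S (nat_lit 17544) (S (nat_lit 22018) (S (nat_lit 54087) (L (nat_lit 16325443))
(S (nat_lit 56599) (S (nat_lit 11011) (S (nat_lit 4431) (S (nat_lit 43927) (S (nat_lit 1767) (L (nat_lit 28875458))
(L (nat_lit 9983810)))
(L (nat_lit 24340653)))
(L (nat_lit 8111193)))
(L (nat_lit 18175099)))
(L (nat_lit 4007500))))
(S (nat_lit 24583) (L (nat_lit 18903310))
(L (nat_lit 17977661))))
(S (nat_lit 37308) (S (nat_lit 15312) (S (nat_lit 11011) (S (nat_lit 6591) (S (nat_lit 22018) (S (nat_lit 26344) (S (nat_lit 4431) (L (nat_lit 28838131))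
(L (nat_lit 26561647)))
(L (nat_lit 14896962)))
(L (nat_lit 12932216)))
(L (nat_lit 26489568)))
(L (nat_lit 26563693)))
(S (nat_lit 35076) (S (nat_lit 56599) (S (nat_lit 28562) (S (nat_lit 11011) (S (nat_lit 38479) (S (nat_lit 45119) (L (nat_lit 15955031))
(L (nat_lit 24685472)))
(L (nat_lit 5129830)))
(L (nat_lit 7230573)))
(L (nat_lit 30692461)))
(L (nat_lit 16012412)))
(S (nat_lit 54840) (S (nat_lit 56599) (S (nat_lit 22018) (S (nat_lit 11011) (S (nat_lit 8798) (S (nat_lit 32893) (S (nat_lit 43965) (L (nat_lit 30117104))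
(L (nat_lit 11354720)))
(L (nat_lit 15946941)))
(L (nat_lit 17683562)))
(L (nat_lit 18011419)))
(L (nat_lit 18011421)))
(L (nat_lit 27710725)))
(L (nat_lit 25396944)))))
(S (nat_lit 57072) (S (nat_lit 20101) (L (nat_lit 9892544))
(S (nat_lit 22018) (S (nat_lit 4028) (S (nat_lit 4437) (L (nat_lit 16453480))
(L (nat_lit 16681575)))
(S (nat_lit 54881) (S (nat_lit 57042) (S (nat_lit 43927) (S (nat_lit 54902) (S (nat_lit 17055) (S (nat_lit 1767) (S (nat_lit 1241) (S (nat_lit 8757) (S (nat_lit 50537) (L (nat_lit 14852916))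
(L (nat_lit 13210874)))
(L (nat_lit 23890158)))
(L (nat_lit 10908352)))
(L (nat_lit 12472493)))
(L (nat_lit 4444942)))
(L (nat_lit 11104709)))
(L (nat_lit 23311170)))
(L (nat_lit 21936353)))
(L (nat_lit 21079885))))
(L (nat_lit 17977661))))
(L (nat_lit 25481327)))))
(L (nat_lit 25723593)))))
(L (nat_lit 25253414)))))
(S (nat_lit 29800) (S (nat_lit 14844) (S (nat_lit 8807) (S (nat_lit 15323) (S (nat_lit 14408) (S (nat_lit 15312) (S (nat_lit 1767) (S (nat_lit 15331) (S (nat_lit 14358) (L (nat_lit 28999917))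
(L (nat_lit 14458469)))
(L (nat_lit 24915330)))
(L (nat_lit 26792162)))
(L (nat_lit 26982471)))
(S (nat_lit 34172) (S (nat_lit 15312) (S (nat_lit 14358) (S (nat_lit 19820) (S (nat_lit 4431) (L (nat_lit 28870219))
(L (nat_lit 19031462)))
(L (nat_lit 21791114)))
(L (nat_lit 3916648)))
(L (nat_lit 14687095)))
(S (nat_lit 53936) (S (nat_lit 33573) (L (nat_lit 13891136))
(S (nat_lit 43955) (S (nat_lit 38999) (S (nat_lit 19820) (S (nat_lit 36819) (S (nat_lit 36333) (S (nat_lit 8762) (S (nat_lit 50010) (L (nat_lit 19931951))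
(L (nat_lit 16320797)))
(L (nat_lit 21505148)))
(L (nat_lit 12323568)))
(L (nat_lit 7361052)))
(L (nat_lit 21791114)))
(L (nat_lit 23298958)))
(L (nat_lit 10576588))))
(L (nat_lit 25734722)))))
(S (nat_lit 35087) (S (nat_lit 6625) (S (nat_lit 7853) (S (nat_lit 39571) (S (nat_lit 23220) (L (nat_lit 4451949))
(L (nat_lit 6721363)))
(L (nat_lit 27960463)))
(L (nat_lit 12656467)))
(S (nat_lit 26389) (S (nat_lit 53886) (S (nat_lit 54692) (L (nat_lit 29593165))
(L (nat_lit 14929733)))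
(L (nat_lit 2991820)))
(S (nat_lit 46153) (S (nat_lit 50050) (S (nat_lit 50505) (S (nat_lit 43955) (S (nat_lit 24201) (L (nat_lit 17156285))
(L (nat_lit 9590607)))
(L (nat_lit 13282117)))
(L (nat_lit 12881750)))
(L (nat_lit 3592042)))
(L (nat_lit 25862562)))))
(S (nat_lit 54851) (S (nat_lit 10522) (S (nat_lit 39571) (S (nat_lit 19820) (S (nat_lit 37278) (S (nat_lit 36819) (S (nat_lit 28041) (L (nat_lit 30126150))
(L (nat_lit 25045101)))
(L (nat_lit 18620567)))
(L (nat_lit 9954327)))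
(L (nat_lit 2877834)))
(L (nat_lit 12251650)))
(S (nat_lit 30286) (S (nat_lit 7853) (S (nat_lit 29760) (S (nat_lit 19792) (L (nat_lit 2795409))
(L (nat_lit 10138653)))
(L (nat_lit 30450102)))
(S (nat_lit 43597) (S (nat_lit 38932) (L (nat_lit 18648679))
(L (nat_lit 24372608)))
(L (nat_lit 12878428))))
(S (nat_lit 50050) (S (nat_lit 2633) (L (nat_lit 15780093))
(S (nat_lit 50541) (S (nat_lit 24201) (S (nat_lit 19820) (L (nat_lit 1470055))
(L (nat_lit 8532822)))
(L (nat_lit 14014272)))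
(L (nat_lit 12249263))))
(L (nat_lit 25220554)))))
(L (nat_lit 25633477)))))
(S (nat_lit 28571) (S (nat_lit 11013) (S (nat_lit 36704) (S (nat_lit 53610) (L (nat_lit 12013412))
(L (nat_lit 26514967)))
(S (nat_lit 43980) (S (nat_lit 11334) (L (nat_lit 3947078))
(S (nat_lit 56599) (S (nat_lit 2254) (S (nat_lit 19792) (S (nat_lit 10977) (S (nat_lit 23218) (S (nat_lit 36819) (S (nat_lit 3456) (S (nat_lit 13169) (L (nat_lit 246363))
(L (nat_lit 22909355)))
(L (nat_lit 3390072)))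
(L (nat_lit 343802)))
(L (nat_lit 18210657)))
(L (nat_lit 21406873)))
(L (nat_lit 9523087)))
(L (nat_lit 19375227)))
(L (nat_lit 13686599))))
(L (nat_lit 24261446))))
(S (nat_lit 30777) (S (nat_lit 11009) (S (nat_lit 43980) (S (nat_lit 19820) (S (nat_lit 17566) (S (nat_lit 3940) (L (nat_lit 4567830))
(L (nat_lit 9624460)))
(L (nat_lit 6450579)))
(L (nat_lit 9220709)))
(L (nat_lit 27637907)))
(S (nat_lit 30773) (S (nat_lit 26389) (S (nat_lit 17544) (S (nat_lit 19820) (S (nat_lit 28103) (S (nat_lit 32933) (L (nat_lit 30131429))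
(L (nat_lit 9039269)))
(L (nat_lit 31114246)))
(L (nat_lit 10322359)))
(L (nat_lit 25013664)))
(L (nat_lit 19264559)))
(S (nat_lit 50537) (S (nat_lit 22319) (L (nat_lit 24916320))
(S (nat_lit 43980) (S (nat_lit 34213) (L (nat_lit 1885895))
(L (nat_lit 17164435)))
(L (nat_lit 24916289))))
(L (nat_lit 25548261)))))
(S (nat_lit 50541) (S (nat_lit 24291) (S (nat_lit 35076) (L (nat_lit 9015869))
(L (nat_lit 10313088)))
(S (nat_lit 43980) (S (nat_lit 43927) (S (nat_lit 43955) (S (nat_lit 30705) (S (nat_lit 46108) (S (nat_lit 38999) (S (nat_lit 21005) (L (nat_lit 29536594))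
(L (nat_lit 4646601)))
(L (nat_lit 30857569)))
(L (nat_lit 11985602)))
(L (nat_lit 24975503)))
(L (nat_lit 24949093)))
(L (nat_lit 24144237)))
(L (nat_lit 4959055))))
(L (nat_lit 25308628)))))
(S (nat_lit 48335) (S (nat_lit 3454) (S (nat_lit 19235) (S (nat_lit 57042) (L (nat_lit 29065639))
(L (nat_lit 12228091)))
(S (nat_lit 38999) (S (nat_lit 43955) (S (nat_lit 19792) (S (nat_lit 21045) (S (nat_lit 36819) (S (nat_lit 6580) (S (nat_lit 19820) (S (nat_lit 43980) (S (nat_lit 39571) (S (nat_lit 54422) (S (nat_lit 48290) (S (nat_lit 53886) (L (nat_lit 9222849))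
(L (nat_lit 411869)))
(L (nat_lit 27993197)))
(L (nat_lit 21182522)))
(L (nat_lit 5957160)))
(L (nat_lit 11361425)))
(L (nat_lit 30934634)))
(L (nat_lit 23097551)))
(L (nat_lit 31034889)))
(L (nat_lit 22279621)))
(L (nat_lit 16515317)))
(L (nat_lit 11985605)))
(S (nat_lit 58763) (S (nat_lit 24201) (S (nat_lit 54851) (S (nat_lit 6625) (L (nat_lit 14819964))
(L (nat_lit 12946138)))
(L (nat_lit 15945604)))
(L (nat_lit 22394689)))
(L (nat_lit 25599122)))))
(S (nat_lit 23218) (S (nat_lit 43980) (S (nat_lit 43955) (S (nat_lit 43927) (S (nat_lit 40809) (S (nat_lit 46153) (S (nat_lit 12668) (S (nat_lit 19820) (L (nat_lit 28836459))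
(L (nat_lit 21358980)))
(L (nat_lit 11963253)))
(L (nat_lit 12159855)))
(L (nat_lit 24413661)))
(L (nat_lit 12433589)))
(L (nat_lit 24948906)))
(L (nat_lit 24490817)))
(S (nat_lit 42982) (S (nat_lit 1281) (S (nat_lit 2226) (S (nat_lit 56599) (S (nat_lit 43927) (S (nat_lit 43980) (S (nat_lit 26360) (S (nat_lit 8798) (L (nat_lit 19362951))
(L (nat_lit 1916651)))
(L (nat_lit 10224179)))
(L (nat_lit 23488864)))
(L (nat_lit 12116117)))
(L (nat_lit 7158405)))
(S (nat_lit 51905) (S (nat_lit 50690) (L (nat_lit 19728688))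
(L (nat_lit 26615891)))
(L (nat_lit 26610995))))
(S (nat_lit 20961) (S (nat_lit 39481) (L (nat_lit 16554003))
(L (nat_lit 22944258)))
(L (nat_lit 8469330))))
(L (nat_lit 25854257)))))
(L (nat_lit 25337581)))))
(S (nat_lit 34608) (S (nat_lit 13169) (S (nat_lit 1727) (S (nat_lit 4437) (S (nat_lit 3371) (L (nat_lit 1503944))
(S (nat_lit 25879) (S (nat_lit 57072) (S (nat_lit 1241) (L (nat_lit 26457139))
(L (nat_lit 26477264)))
(L (nat_lit 27570881)))
(L (nat_lit 7354045))))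
(S (nat_lit 24201) (S (nat_lit 2226) (S (nat_lit 39571) (S (nat_lit 26355) (S (nat_lit 56599) (S (nat_lit 15374) (L (nat_lit 6082769))
(L (nat_lit 26649252)))
(L (nat_lit 1917578)))
(L (nat_lit 16050294)))
(L (nat_lit 24428291)))
(S (nat_lit 7916) (L (nat_lit 18954492))
(L (nat_lit 14754643))))
(S (nat_lit 43965) (S (nat_lit 12668) (S (nat_lit 8807) (L (nat_lit 28623557))
(L (nat_lit 26591812)))
(L (nat_lit 26815907)))
(L (nat_lit 25561670)))))
(S (nat_lit 21491) (S (nat_lit 49) (S (nat_lit 8764) (S (nat_lit 4431) (S (nat_lit 47381) (S (nat_lit 34122) (S (nat_lit 21990) (L (nat_lit 1427965))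
(L (nat_lit 22332508)))
(L (nat_lit 12452556)))
(L (nat_lit 20792512)))
(L (nat_lit 7063392)))
(S (nat_lit 49940) (L (nat_lit 419559))
(L (nat_lit 7358906))))
(L (nat_lit 8013666)))
(S (nat_lit 41255) (S (nat_lit 56) (S (nat_lit 13158) (S (nat_lit 35076) (L (nat_lit 245468))
(L (nat_lit 20383036)))
(L (nat_lit 8240183)))
(S (nat_lit 19820) (S (nat_lit 43955) (S (nat_lit 46124) (L (nat_lit 29822667))
(L (nat_lit 18586436)))
(S (nat_lit 52368) (L (nat_lit 24360802))
(L (nat_lit 11014998))))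
(S (nat_lit 39584) (S (nat_lit 18715) (S (nat_lit 8762) (L (nat_lit 29067691))
(L (nat_lit 21013325)))
(S (nat_lit 30120) (L (nat_lit 1957418))
(L (nat_lit 26395862))))
(L (nat_lit 25697335)))))
(L (nat_lit 25255184)))))
(S (nat_lit 32933) (S (nat_lit 17055) (S (nat_lit 17566) (S (nat_lit 26389) (S (nat_lit 41782) (S (nat_lit 41754) (L (nat_lit 17966749))
(L (nat_lit 25044353)))
(L (nat_lit 16523906)))
(L (nat_lit 16091991)))
(S (nat_lit 37330) (S (nat_lit 10929) (L (nat_lit 8982939))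
(S (nat_lit 28562) (S (nat_lit 49524) (S (nat_lit 38999) (L (nat_lit 17736416))
(L (nat_lit 13965202)))
(L (nat_lit 14230339)))
(L (nat_lit 30496139))))
(S (nat_lit 57094) (S (nat_lit 50010) (S (nat_lit 52657) (S (nat_lit 54881) (L (nat_lit 30065889))
(L (nat_lit 4830026)))
(L (nat_lit 4628310)))
(L (nat_lit 1650512)))
(L (nat_lit 25627987)))))
(S (nat_lit 36819) (S (nat_lit 3454) (S (nat_lit 18715) (S (nat_lit 24195) (L (nat_lit 2513734))
(L (nat_lit 8876705)))
(L (nat_lit 16427841)))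
(S (nat_lit 23218) (S (nat_lit 10941) (S (nat_lit 25879) (S (nat_lit 39571) (L (nat_lit 9208245))
(L (nat_lit 18123604)))
(L (nat_lit 30658976)))
(L (nat_lit 15750023)))
(S (nat_lit 42982) (S (nat_lit 6591) (S (nat_lit 7853) (S (nat_lit 35138) (S (nat_lit 57094) (S (nat_lit 23706) (L (nat_lit 18685506))
(L (nat_lit 7391708)))
(L (nat_lit 13377686)))
(L (nat_lit 23962052)))
(S (nat_lit 27533) (L (nat_lit 5727819))
(L (nat_lit 3778384))))
(S (nat_lit 26271) (L (nat_lit 23860556))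
(L (nat_lit 480070))))
(L (nat_lit 25581643)))))
(S (nat_lit 56583) (S (nat_lit 8764) (S (nat_lit 2195) (S (nat_lit 2207) (S (nat_lit 6596) (L (nat_lit 15586471))
(L (nat_lit 905739)))
(L (nat_lit 26227959)))
(L (nat_lit 19668388)))
(S (nat_lit 28528) (S (nat_lit 11011) (L (nat_lit 22253388))
(L (nat_lit 6929218)))
(S (nat_lit 48292) (S (nat_lit 5591) (S (nat_lit 27555) (S (nat_lit 41782) (S (nat_lit 25841) (L (nat_lit 7870042))
(L (nat_lit 5812054)))
(L (nat_lit 11289717)))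
(L (nat_lit 15604389)))
(L (nat_lit 3951079)))
(L (nat_lit 25418892)))))
(L (nat_lit 25895056)))))
(S (nat_lit 52697) (S (nat_lit 6596) (S (nat_lit 12646) (S (nat_lit 36333) (S (nat_lit 21990) (L (nat_lit 21372029))
(L (nat_lit 21088007)))
(L (nat_lit 12171077)))
(S (nat_lit 32410) (S (nat_lit 50505) (S (nat_lit 46119) (S (nat_lit 3456) (S (nat_lit 41255) (L (nat_lit 217530))
(L (nat_lit 23446337)))
(L (nat_lit 20374853)))
(L (nat_lit 11628022)))
(L (nat_lit 12847958)))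
(S (nat_lit 52174) (S (nat_lit 17071) (S (nat_lit 41255) (L (nat_lit 8899461))
(L (nat_lit 27580529)))
(S (nat_lit 54232) (L (nat_lit 4772220))
(L (nat_lit 22537477))))
(L (nat_lit 25831565)))))
(S (nat_lit 26360) (S (nat_lit 16569) (S (nat_lit 21045) (S (nat_lit 41782) (L (nat_lit 3858764))
(L (nat_lit 5690153)))
(L (nat_lit 30937770)))
(S (nat_lit 36333) (S (nat_lit 32914) (S (nat_lit 39571) (L (nat_lit 26267984))
(L (nat_lit 11622222)))
(L (nat_lit 16019507)))
(S (nat_lit 56097) (S (nat_lit 28041) (S (nat_lit 36349) (S (nat_lit 1767) (L (nat_lit 10578358))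
(L (nat_lit 4740971)))
(L (nat_lit 20354923)))
(S (nat_lit 39403) (L (nat_lit 21293571))
(L (nat_lit 19185506))))
(L (nat_lit 25788874)))))
(S (nat_lit 46124) (S (nat_lit 14358) (S (nat_lit 8798) (S (nat_lit 27555) (S (nat_lit 39571) (L (nat_lit 23889133))
(L (nat_lit 24578888)))
(L (nat_lit 7210605)))
(S (nat_lit 56491) (L (nat_lit 18451304))
(L (nat_lit 23466826))))
(S (nat_lit 34122) (S (nat_lit 54026) (L (nat_lit 1888742))
(S (nat_lit 57086) (S (nat_lit 49524) (S (nat_lit 28041) (S (nat_lit 54851) (L (nat_lit 4627287))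
(L (nat_lit 10503898)))
(L (nat_lit 24428386)))
(L (nat_lit 9583444)))
(L (nat_lit 12142404))))
(S (nat_lit 53886) (S (nat_lit 57042) (S (nat_lit 50469) (S (nat_lit 21990) (L (nat_lit 1819531))
(L (nat_lit 18108508)))
(L (nat_lit 10997949)))
(L (nat_lit 10997789)))
(L (nat_lit 25559752)))))
(L (nat_lit 25762992)))))
(L (nat_lit 25249451)))))
(S (nat_lit 54372) (S (nat_lit 10482) (S (nat_lit 8764) (S (nat_lit 13150) (S (nat_lit 43927) (S (nat_lit 46108) (S (nat_lit 23220) (L (nat_lit 1951062))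
(L (nat_lit 1295250)))
(L (nat_lit 4612809)))
(L (nat_lit 15294818)))
(S (nat_lit 32914) (S (nat_lit 15331) (S (nat_lit 6589) (S (nat_lit 46108) (L (nat_lit 17035447))
(L (nat_lit 27988393)))
(L (nat_lit 6775831)))
(S (nat_lit 18463) (L (nat_lit 17833813))
(L (nat_lit 14930754))))
(S (nat_lit 52678) (S (nat_lit 24201) (S (nat_lit 48290) (S (nat_lit 57042) (L (nat_lit 29594221))
(L (nat_lit 14733565)))
(L (nat_lit 12268420)))
(S (nat_lit 37404) (L (nat_lit 14835526))
(L (nat_lit 21807328))))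
(L (nat_lit 25285871)))))
(S (nat_lit 28528) (S (nat_lit 6596) (S (nat_lit 12668) (S (nat_lit 32914) (S (nat_lit 32922) (L (nat_lit 31163725))
(L (nat_lit 10410401)))
(L (nat_lit 9896637)))
(L (nat_lit 18426908)))
(S (nat_lit 26360) (S (nat_lit 2254) (S (nat_lit 25393) (S (nat_lit 36819) (L (nat_lit 28845732))
(L (nat_lit 12768075)))
(L (nat_lit 5165483)))
(S (nat_lit 39429) (L (nat_lit 10030525))
(L (nat_lit 1812332))))
(S (nat_lit 46124) (S (nat_lit 7791) (S (nat_lit 11013) (S (nat_lit 10941) (L (nat_lit 16487243))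
(L (nat_lit 21183640)))
(L (nat_lit 18001529)))
(L (nat_lit 3599976)))
(L (nat_lit 25245290)))))
(S (nat_lit 48292) (S (nat_lit 4437) (S (nat_lit 10977) (S (nat_lit 30286) (L (nat_lit 4629334))
(L (nat_lit 30608919)))
(L (nat_lit 1648024)))
(S (nat_lit 24201) (S (nat_lit 26389) (S (nat_lit 30775) (S (nat_lit 23706) (L (nat_lit 15588362))
(L (nat_lit 18558786)))
(L (nat_lit 9295266)))
(S (nat_lit 47285) (S (nat_lit 37278) (L (nat_lit 1332049))
(L (nat_lit 20165505)))
(L (nat_lit 16360258))))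
(S (nat_lit 43965) (S (nat_lit 52657) (S (nat_lit 34172) (L (nat_lit 28561953))
(L (nat_lit 14705223)))
(L (nat_lit 18887497)))
(L (nat_lit 25927729)))))
(L (nat_lit 25648451)))))
(S (nat_lit 30246) (S (nat_lit 6115) (S (nat_lit 15312) (S (nat_lit 57042) (S (nat_lit 26360) (S (nat_lit 8757) (L (nat_lit 7100928))
(L (nat_lit 17614855)))
(L (nat_lit 16326501)))
(L (nat_lit 19116897)))
(S (nat_lit 35076) (S (nat_lit 52657) (S (nat_lit 8757) (L (nat_lit 30640813))
(L (nat_lit 7367190)))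
(L (nat_lit 19117241)))
(S (nat_lit 54840) (S (nat_lit 19663) (L (nat_lit 19932698))
(S (nat_lit 27617) (S (nat_lit 41754) (S (nat_lit 54851) (S (nat_lit 46117) (L (nat_lit 17681446))
(L (nat_lit 27860386)))
(L (nat_lit 12421839)))
(L (nat_lit 16394112)))
(L (nat_lit 30430663))))
(L (nat_lit 25691751)))))
(S (nat_lit 25879) (S (nat_lit 8762) (S (nat_lit 30905) (L (nat_lit 11294861))
(S (nat_lit 56583) (L (nat_lit 14280811))
(L (nat_lit 20985707))))
(S (nat_lit 28526) (S (nat_lit 50541) (S (nat_lit 36819) (L (nat_lit 6304597))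
(L (nat_lit 10882903)))
(L (nat_lit 27963712)))
(S (nat_lit 48290) (S (nat_lit 17055) (S (nat_lit 35076) (L (nat_lit 29374743))
(L (nat_lit 30430759)))
(L (nat_lit 22036265)))
(L (nat_lit 25895460)))))
(S (nat_lit 45643) (S (nat_lit 14358) (S (nat_lit 5629) (S (nat_lit 46124) (L (nat_lit 21465898))
(L (nat_lit 12367524)))
(L (nat_lit 8841860)))
(S (nat_lit 34122) (S (nat_lit 37278) (S (nat_lit 54851) (S (nat_lit 31924) (L (nat_lit 4999405))
(L (nat_lit 6853458)))
(L (nat_lit 11547540)))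
(L (nat_lit 9254933)))
(S (nat_lit 53886) (S (nat_lit 2207) (S (nat_lit 43470) (L (nat_lit 29888790))
(L (nat_lit 27766372)))
(S (nat_lit 42552) (L (nat_lit 21791056))
(L (nat_lit 19075549))))
(L (nat_lit 25559415)))))
(L (nat_lit 25837893)))))
(S (nat_lit 50010) (S (nat_lit 10522) (S (nat_lit 9996) (S (nat_lit 7209) (L (nat_lit 9062213))
(S (nat_lit 35095) (S (nat_lit 8465) (L (nat_lit 4576733))
(L (nat_lit 6310737)))
(L (nat_lit 18080886))))
(S (nat_lit 29760) (S (nat_lit 13158) (S (nat_lit 35076) (L (nat_lit 30061736))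
(L (nat_lit 17853031)))
(L (nat_lit 7166369)))
(S (nat_lit 49524) (S (nat_lit 35138) (S (nat_lit 22018) (L (nat_lit 17880376))
(L (nat_lit 12963965)))
(S (nat_lit 43028) (L (nat_lit 12117138))
(L (nat_lit 20286287))))
(L (nat_lit 25728308)))))
(S (nat_lit 30286) (S (nat_lit 13150) (S (nat_lit 23220) (S (nat_lit 25347) (L (nat_lit 18583868))
(L (nat_lit 19129861)))
(L (nat_lit 18075461)))
(S (nat_lit 32914) (S (nat_lit 19792) (S (nat_lit 12668) (S (nat_lit 49524) (S (nat_lit 47805) (S (nat_lit 36819) (S (nat_lit 36835) (S (nat_lit 57042) (L (nat_lit 28330503))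
(L (nat_lit 21213245)))
(L (nat_lit 18719798)))
(L (nat_lit 31138306)))
(L (nat_lit 22315581)))
(L (nat_lit 22418685)))
(L (nat_lit 18010461)))
(L (nat_lit 3807677)))
(S (nat_lit 52678) (S (nat_lit 36349) (S (nat_lit 4496) (L (nat_lit 15928150))
(S (nat_lit 7791) (S (nat_lit 53936) (S (nat_lit 25393) (L (nat_lit 22264861))
(L (nat_lit 6837309)))
(L (nat_lit 17586185)))
(L (nat_lit 8842326))))
(S (nat_lit 54758) (L (nat_lit 1677757))
(L (nat_lit 18732043))))
(L (nat_lit 25451939)))))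
(S (nat_lit 50050) (S (nat_lit 8807) (S (nat_lit 36333) (S (nat_lit 31924) (S (nat_lit 7853) (L (nat_lit 4418124))
(L (nat_lit 21203792)))
(L (nat_lit 1390418)))
(L (nat_lit 1624348)))
(S (nat_lit 28571) (S (nat_lit 35138) (S (nat_lit 56599) (L (nat_lit 11190085))
(L (nat_lit 8445777)))
(L (nat_lit 18424644)))
(S (nat_lit 48335) (S (nat_lit 19235) (S (nat_lit 19792) (S (nat_lit 7791) (L (nat_lit 28950756))
(L (nat_lit 9179757)))
(L (nat_lit 15801173)))
(S (nat_lit 33487) (L (nat_lit 11554365))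
(L (nat_lit 12183630))))
(L (nat_lit 25854346)))))
(L (nat_lit 25384081)))))
(L (nat_lit 25579561)))))
(L (nat_lit 25560681)))))
(S (nat_lit 49564) (S (nat_lit 6591) (S (nat_lit 13150) (S (nat_lit 2226) (S (nat_lit 1241) (S (nat_lit 1281) (S (nat_lit 19235) (S (nat_lit 14408) (L (nat_lit 12602584))
(L (nat_lit 26237232)))
(L (nat_lit 26444338)))
(L (nat_lit 20168549)))
(S (nat_lit 21005) (S (nat_lit 52174) (S (nat_lit 16569) (S (nat_lit 45605) (L (nat_lit 2958902))
(L (nat_lit 6785910)))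
(L (nat_lit 26610007)))
(L (nat_lit 6783858)))
(S (nat_lit 40769) (S (nat_lit 30286) (S (nat_lit 46124) (L (nat_lit 16490240))
(L (nat_lit 18122579)))
(L (nat_lit 212818)))
(L (nat_lit 25601760)))))
(S (nat_lit 21990) (S (nat_lit 15374) (S (nat_lit 26353) (S (nat_lit 24216) (S (nat_lit 50050) (L (nat_lit 15371046))
(L (nat_lit 20352316)))
(L (nat_lit 9278866)))
(L (nat_lit 3645266)))
(S (nat_lit 35138) (S (nat_lit 1123) (L (nat_lit 20823050))
(S (nat_lit 57072) (S (nat_lit 41782) (S (nat_lit 35087) (S (nat_lit 56583) (S (nat_lit 56599) (S (nat_lit 4427) (S (nat_lit 41255) (L (nat_lit 18752133))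
(L (nat_lit 27411734)))
(L (nat_lit 19738052)))
(L (nat_lit 15791379)))
(L (nat_lit 9122907)))
(L (nat_lit 10193305)))
(L (nat_lit 16077916)))
(L (nat_lit 21281664))))
(S (nat_lit 54902) (S (nat_lit 24216) (S (nat_lit 28528) (S (nat_lit 56599) (L (nat_lit 9309869))
(L (nat_lit 16589939)))
(L (nat_lit 24168296)))
(S (nat_lit 43128) (L (nat_lit 16803058))
(L (nat_lit 22851937))))
(L (nat_lit 25497261)))))
(S (nat_lit 41754) (S (nat_lit 17558) (S (nat_lit 6077) (S (nat_lit 16585) (S (nat_lit 34658) (S (nat_lit 15312) (S (nat_lit 6625) (L (nat_lit 17436518))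
(L (nat_lit 632622)))
(L (nat_lit 24942702)))
(L (nat_lit 20046374)))
(L (nat_lit 8480396)))
(L (nat_lit 10085516)))
(S (nat_lit 37322) (S (nat_lit 10941) (S (nat_lit 17071) (S (nat_lit 37308) (L (nat_lit 4940047))
(L (nat_lit 20374784)))
(L (nat_lit 17457408)))
(L (nat_lit 1728903)))
(S (nat_lit 57086) (S (nat_lit 43959) (S (nat_lit 56113) (L (nat_lit 26608263))
(L (nat_lit 16051777)))
(L (nat_lit 27729011)))
(L (nat_lit 25304530)))))
(L (nat_lit 25430672)))))
(S (nat_lit 32914) (S (nat_lit 17071) (S (nat_lit 25841) (S (nat_lit 56113) (S (nat_lit 12668) (S (nat_lit 23706) (S (nat_lit 43965) (L (nat_lit 29828275))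
(L (nat_lit 12323409)))
(L (nat_lit 10914643)))
(L (nat_lit 26813857)))
(L (nat_lit 257612)))
(L (nat_lit 22523713)))
(S (nat_lit 36835) (S (nat_lit 8798) (S (nat_lit 56113) (S (nat_lit 2226) (S (nat_lit 12668) (S (nat_lit 37278) (L (nat_lit 15816988))
(L (nat_lit 14324550)))
(L (nat_lit 10338017)))
(L (nat_lit 14996288)))
(L (nat_lit 7853889)))
(S (nat_lit 28562) (S (nat_lit 26360) (S (nat_lit 35138) (L (nat_lit 20441258))
(L (nat_lit 2712010)))
(L (nat_lit 16326501)))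
(S (nat_lit 48326) (S (nat_lit 2207) (S (nat_lit 35076) (S (nat_lit 30773) (L (nat_lit 1955270))
(L (nat_lit 10268723)))
(L (nat_lit 18049109)))
(L (nat_lit 7945244)))
(L (nat_lit 25766436)))))
(S (nat_lit 56599) (S (nat_lit 4427) (S (nat_lit 4090) (S (nat_lit 19235) (L (nat_lit 26499589))
(L (nat_lit 10322668)))
(S (nat_lit 35138) (S (nat_lit 24216) (S (nat_lit 3454) (S (nat_lit 21990) (S (nat_lit 18715) (S (nat_lit 39556) (S (nat_lit 28528) (S (nat_lit 19235) (S (nat_lit 28521) (L (nat_lit 18023165))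
(L (nat_lit 8870940)))
(L (nat_lit 9460221)))
(L (nat_lit 19734700)))
(L (nat_lit 11174300)))
(L (nat_lit 9158465)))
(L (nat_lit 18124444)))
(L (nat_lit 9254628)))
(L (nat_lit 8578451)))
(L (nat_lit 9057093))))
(S (nat_lit 24191) (S (nat_lit 18715) (S (nat_lit 7873) (L (nat_lit 21078926))
(S (nat_lit 56113) (S (nat_lit 12668) (S (nat_lit 3940) (S (nat_lit 40769) (L (nat_lit 9342390))
(L (nat_lit 630608)))
(L (nat_lit 19729676)))
(L (nat_lit 2958771)))
(L (nat_lit 16538852))))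
(L (nat_lit 16420683)))
(S (nat_lit 43955) (S (nat_lit 18715) (S (nat_lit 4718) (L (nat_lit 16807190))
(S (nat_lit 56113) (S (nat_lit 35117) (S (nat_lit 12668) (S (nat_lit 50050) (L (nat_lit 12670790))
(L (nat_lit 6805349)))
(L (nat_lit 2958771)))
(L (nat_lit 23143277)))
(L (nat_lit 810220))))
(L (nat_lit 16427162)))
(L (nat_lit 25858412)))))
(L (nat_lit 25596554)))))
(S (nat_lit 52678) (S (nat_lit 6625) (S (nat_lit 6115) (S (nat_lit 36349) (S (nat_lit 57072) (L (nat_lit 1592135))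
(L (nat_lit 12183968)))
(L (nat_lit 12424627)))
(S (nat_lit 25879) (S (nat_lit 49) (S (nat_lit 13129) (S (nat_lit 56) (S (nat_lit 4431) (S (nat_lit 21959) (L (nat_lit 16321848))
(L (nat_lit 21831076)))
(L (nat_lit 19340096)))
(L (nat_lit 13814012)))
(L (nat_lit 778760)))
(S (nat_lit 57593) (L (nat_lit 9288823))
(L (nat_lit 706409))))
(S (nat_lit 45643) (S (nat_lit 8624) (L (nat_lit 23367534))
(S (nat_lit 21045) (S (nat_lit 48285) (S (nat_lit 48292) (L (nat_lit 5826771))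
(L (nat_lit 4449714)))
(L (nat_lit 15976475)))
(L (nat_lit 1293980))))
(L (nat_lit 25340436)))))
(S (nat_lit 26389) (S (nat_lit 1281) (S (nat_lit 18749) (S (nat_lit 30777) (L (nat_lit 21497212))
(L (nat_lit 9024352)))
(L (nat_lit 16379136)))
(S (nat_lit 21045) (S (nat_lit 7791) (S (nat_lit 43955) (S (nat_lit 32933) (L (nat_lit 26286579))
(L (nat_lit 8480148)))
(L (nat_lit 12204869)))
(S (nat_lit 39522) (L (nat_lit 16444454))
(L (nat_lit 21769293))))
(S (nat_lit 40809) (S (nat_lit 1767) (S (nat_lit 54881) (L (nat_lit 21863596))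
(L (nat_lit 21270351)))
(L (nat_lit 2866025)))
(L (nat_lit 25933866)))))
(S (nat_lit 46153) (S (nat_lit 1241) (S (nat_lit 30741) (S (nat_lit 8339) (S (nat_lit 16585) (S (nat_lit 32893) (L (nat_lit 26234124))
(L (nat_lit 3546998)))
(L (nat_lit 26512819)))
(L (nat_lit 23631900)))
(L (nat_lit 17376096)))
(S (nat_lit 21005) (S (nat_lit 28608) (L (nat_lit 22889511))
(S (nat_lit 48285) (S (nat_lit 43927) (S (nat_lit 45605) (S (nat_lit 46108) (L (nat_lit 4776550))
(L (nat_lit 22070524)))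
(L (nat_lit 27829825)))
(L (nat_lit 27483523)))
(L (nat_lit 22062960))))
(S (nat_lit 40769) (S (nat_lit 12668) (S (nat_lit 25355) (L (nat_lit 2377591))
(L (nat_lit 4800329)))
(L (nat_lit 9622382)))
(L (nat_lit 25762897)))))
(L (nat_lit 25306514)))))
(L (nat_lit 25800744)))))
(S (nat_lit 26355) (S (nat_lit 3454) (S (nat_lit 16585) (S (nat_lit 56) (S (nat_lit 8277) (S (nat_lit 4427) (S (nat_lit 53886) (L (nat_lit 401116))
(L (nat_lit 10405933)))
(L (nat_lit 7893732)))
(L (nat_lit 26877036)))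
(S (nat_lit 19820) (S (nat_lit 5629) (S (nat_lit 56599) (S (nat_lit 52708) (L (nat_lit 16688772))
(L (nat_lit 21311580)))
(L (nat_lit 9264549)))
(L (nat_lit 9262497)))
(S (nat_lit 39584) (S (nat_lit 21354) (L (nat_lit 11077484))
(S (nat_lit 24191) (S (nat_lit 41782) (S (nat_lit 2195) (L (nat_lit 30083281))
(L (nat_lit 26429860)))
(L (nat_lit 12389036)))
(L (nat_lit 17437547))))
(L (nat_lit 25894309)))))
(S (nat_lit 36349) (S (nat_lit 1241) (S (nat_lit 41295) (S (nat_lit 30705) (L (nat_lit 6110547))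
(L (nat_lit 9499030)))
(L (nat_lit 9196556)))
(S (nat_lit 21005) (S (nat_lit 48285) (S (nat_lit 7426) (L (nat_lit 1954092))
(L (nat_lit 14975707)))
(L (nat_lit 11552630)))
(S (nat_lit 40769) (S (nat_lit 48335) (S (nat_lit 30777) (L (nat_lit 2923923))
(L (nat_lit 2996566)))
(L (nat_lit 16090003)))
(L (nat_lit 25762896)))))
(S (nat_lit 56113) (S (nat_lit 10977) (S (nat_lit 28521) (S (nat_lit 43965) (S (nat_lit 21491) (L (nat_lit 2701095))
(L (nat_lit 16379073)))
(L (nat_lit 24985606)))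
(L (nat_lit 19106702)))
(S (nat_lit 30741) (S (nat_lit 11019) (L (nat_lit 3954150))
(S (nat_lit 37308) (S (nat_lit 21990) (S (nat_lit 5591) (L (nat_lit 16026301))
(L (nat_lit 19678311)))
(L (nat_lit 21373052)))
(L (nat_lit 17584198))))
(S (nat_lit 50505) (S (nat_lit 21990) (L (nat_lit 14710406))
(L (nat_lit 22327388)))
(L (nat_lit 25922951)))))
(L (nat_lit 25398924)))))
(S (nat_lit 23218) (S (nat_lit 3942) (S (nat_lit 6664) (L (nat_lit 5678748))
(S (nat_lit 12646) (S (nat_lit 1767) (S (nat_lit 30286) (L (nat_lit 2309849))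
(L (nat_lit 13233440)))
(L (nat_lit 9498098)))
(L (nat_lit 2769210))))
(S (nat_lit 23706) (S (nat_lit 10977) (S (nat_lit 19807) (S (nat_lit 43965) (L (nat_lit 15788747))
(L (nat_lit 27604545)))
(L (nat_lit 30706196)))
(S (nat_lit 30741) (S (nat_lit 6115) (S (nat_lit 15331) (L (nat_lit 22299456))
(L (nat_lit 16979795)))
(L (nat_lit 10106725)))
(S (nat_lit 50505) (S (nat_lit 14358) (L (nat_lit 7899989))
(L (nat_lit 22348652)))
(L (nat_lit 25280884)))))
(S (nat_lit 43470) (S (nat_lit 14894) (S (nat_lit 32893) (S (nat_lit 14358) (L (nat_lit 16443467))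
(L (nat_lit 22421349)))
(L (nat_lit 20133021)))
(S (nat_lit 34658) (S (nat_lit 1570) (L (nat_lit 15848330))
(S (nat_lit 6115) (S (nat_lit 39556) (S (nat_lit 1281) (S (nat_lit 41782) (S (nat_lit 11009) (S (nat_lit 21491) (S (nat_lit 4427) (S (nat_lit 24025) (L (nat_lit 2347419))
(S (nat_lit 43965) (S (nat_lit 46153) (S (nat_lit 8798) (S (nat_lit 54902) (L (nat_lit 19046813))
(L (nat_lit 11003556)))
(L (nat_lit 17648714)))
(L (nat_lit 5793010)))
(L (nat_lit 24518717))))
(L (nat_lit 6839484)))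
(L (nat_lit 7769974)))
(L (nat_lit 23491781)))
(L (nat_lit 24971564)))
(L (nat_lit 3468941)))
(L (nat_lit 12252579)))
(L (nat_lit 16614023))))
(S (nat_lit 54422) (S (nat_lit 2406) (L (nat_lit 30605845))
(S (nat_lit 38999) (S (nat_lit 26360) (S (nat_lit 10941) (L (nat_lit 2629372))
(L (nat_lit 15950004)))
(L (nat_lit 3645301)))
(L (nat_lit 31137313))))
(L (nat_lit 25723154)))))
(L (nat_lit 25896388)))))
(S (nat_lit 42982) (S (nat_lit 12646) (S (nat_lit 5629) (S (nat_lit 14942) (L (nat_lit 649703))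
(S (nat_lit 19235) (S (nat_lit 26389) (S (nat_lit 26353) (S (nat_lit 47381) (L (nat_lit 18415865))
(L (nat_lit 19950055)))
(L (nat_lit 2713838)))
(L (nat_lit 2997897)))
(L (nat_lit 16449853))))
(S (nat_lit 25393) (S (nat_lit 19235) (S (nat_lit 26360) (S (nat_lit 50505) (S (nat_lit 26353) (S (nat_lit 2195) (S (nat_lit 32944) (L (nat_lit 4832541))
(L (nat_lit 20297475)))
(L (nat_lit 26430884)))
(L (nat_lit 10224055)))
(L (nat_lit 27866465)))
(L (nat_lit 16044187)))
(S (nat_lit 42874) (L (nat_lit 15853879))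
(L (nat_lit 22912076))))
(S (nat_lit 45157) (S (nat_lit 30741) (S (nat_lit 37330) (S (nat_lit 21531) (S (nat_lit 21971) (L (nat_lit 221618))
(L (nat_lit 9460185)))
(L (nat_lit 549513)))
(L (nat_lit 2701097)))
(L (nat_lit 9516730)))
(L (nat_lit 25593045)))))
(S (nat_lit 32410) (S (nat_lit 32933) (S (nat_lit 43927) (S (nat_lit 19235) (S (nat_lit 31924) (S (nat_lit 15374) (S (nat_lit 23706) (S (nat_lit 19807) (L (nat_lit 8899741))
(L (nat_lit 16048867)))
(L (nat_lit 765404)))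
(L (nat_lit 6449901)))
(L (nat_lit 19732653)))
(L (nat_lit 2546044)))
(L (nat_lit 24177005)))
(L (nat_lit 15813451)))
(S (nat_lit 52174) (S (nat_lit 32933) (S (nat_lit 2195) (S (nat_lit 18749) (S (nat_lit 23706) (S (nat_lit 4427) (L (nat_lit 9003085))
(L (nat_lit 1323740)))
(L (nat_lit 22231876)))
(L (nat_lit 16357500)))
(S (nat_lit 21959) (S (nat_lit 24216) (S (nat_lit 37278) (S (nat_lit 19807) (S (nat_lit 19235) (L (nat_lit 6872960))
(L (nat_lit 16459868)))
(L (nat_lit 9528047)))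
(L (nat_lit 10140480)))
(L (nat_lit 10216833)))
(S (nat_lit 41723) (S (nat_lit 41754) (S (nat_lit 48292) (L (nat_lit 29643141))
(L (nat_lit 16386396)))
(L (nat_lit 16409670)))
(L (nat_lit 25215722)))))
(L (nat_lit 9522001)))
(L (nat_lit 25466354)))))
(L (nat_lit 25869540)))))
(S (nat_lit 46119) (S (nat_lit 4452) (S (nat_lit 10482) (S (nat_lit 8757) (S (nat_lit 16403) (L (nat_lit 26413677))
(S (nat_lit 17544) (S (nat_lit 50469) (L (nat_lit 22980096))
(L (nat_lit 22977985)))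
(L (nat_lit 6927201))))
(S (nat_lit 28521) (S (nat_lit 35076) (S (nat_lit 7791) (L (nat_lit 20849056))
(L (nat_lit 3583609)))
(L (nat_lit 18684608)))
(S (nat_lit 48285) (S (nat_lit 4431) (S (nat_lit 34172) (S (nat_lit 12507) (L (nat_lit 26811409))
(L (nat_lit 27711680)))
(L (nat_lit 15753460)))
(L (nat_lit 26974321)))
(L (nat_lit 25698326)))))
(S (nat_lit 30246) (S (nat_lit 11013) (S (nat_lit 30705) (S (nat_lit 50505) (S (nat_lit 25841) (L (nat_lit 22178129))
(L (nat_lit 14021217)))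
(L (nat_lit 20751809)))
(L (nat_lit 10121600)))
(S (nat_lit 30777) (S (nat_lit 37338) (S (nat_lit 41782) (L (nat_lit 9114481))
(L (nat_lit 10933027)))
(L (nat_lit 3747695)))
(S (nat_lit 50541) (S (nat_lit 5629) (S (nat_lit 48285) (S (nat_lit 15323) (L (nat_lit 24293231))
(L (nat_lit 7399828)))
(L (nat_lit 22982880)))
(S (nat_lit 29860) (L (nat_lit 9949056))
(L (nat_lit 15947617))))
(L (nat_lit 25865600)))))
(S (nat_lit 50010) (S (nat_lit 12160) (S (nat_lit 39486) (L (nat_lit 6006607))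
(S (nat_lit 41754) (S (nat_lit 21531) (S (nat_lit 21005) (L (nat_lit 8786802))
(L (nat_lit 16059099)))
(L (nat_lit 11264173)))
(L (nat_lit 16012161))))
(S (nat_lit 31924) (S (nat_lit 46213) (L (nat_lit 17834748))
(S (nat_lit 53936) (S (nat_lit 12668) (S (nat_lit 8764) (L (nat_lit 29369068))
(L (nat_lit 8161714)))
(L (nat_lit 18590908)))
(L (nat_lit 7355218))))
(S (nat_lit 51688) (S (nat_lit 46117) (S (nat_lit 50541) (L (nat_lit 6011162))
(L (nat_lit 22484807)))
(L (nat_lit 12366898)))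
(L (nat_lit 25903425)))))
(L (nat_lit 25175476)))))
(S (nat_lit 24216) (S (nat_lit 17544) (S (nat_lit 13129) (S (nat_lit 43927) (S (nat_lit 54902) (S (nat_lit 19235) (S (nat_lit 4427) (L (nat_lit 15757651))
(L (nat_lit 16625380)))
(L (nat_lit 15748872)))
(L (nat_lit 11276013)))
(L (nat_lit 14933826)))
(S (nat_lit 32893) (S (nat_lit 30773) (S (nat_lit 4427) (S (nat_lit 27555) (S (nat_lit 8764) (S (nat_lit 41782) (S (nat_lit 54902) (S (nat_lit 39556) (S (nat_lit 34658) (S (nat_lit 56583) (S (nat_lit 4437) (S (nat_lit 19813) (S (nat_lit 17566) (S (nat_lit 43325) (L (nat_lit 2376442))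
(L (nat_lit 20443395)))
(S (nat_lit 54309) (L (nat_lit 22422714))
(L (nat_lit 16668994))))
(L (nat_lit 16690819)))
(S (nat_lit 24201) (S (nat_lit 2195) (S (nat_lit 9087) (L (nat_lit 6384053))
(S (nat_lit 19385) (L (nat_lit 17834680))
(L (nat_lit 13410420))))
(L (nat_lit 1515447)))
(S (nat_lit 43965) (S (nat_lit 47381) (S (nat_lit 23218) (S (nat_lit 35076) (L (nat_lit 8472316))
(L (nat_lit 9918368)))
(L (nat_lit 4988340)))
(L (nat_lit 17585344)))
(L (nat_lit 25579526)))))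
(L (nat_lit 8413934)))
(L (nat_lit 8182305)))
(L (nat_lit 17911004)))
(L (nat_lit 11285220)))
(L (nat_lit 16458530)))
(L (nat_lit 223671)))
(L (nat_lit 7210518)))
(S (nat_lit 32562) (L (nat_lit 18150583))
(L (nat_lit 16029404))))
(L (nat_lit 3567243)))
(S (nat_lit 52657) (S (nat_lit 5756) (L (nat_lit 19273543))
(S (nat_lit 45119) (S (nat_lit 21666) (L (nat_lit 19278627))
(S (nat_lit 30705) (S (nat_lit 4431) (S (nat_lit 2195) (L (nat_lit 24469681))
(L (nat_lit 19929596)))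
(L (nat_lit 7063392)))
(L (nat_lit 9490908))))
(L (nat_lit 2738023))))
(L (nat_lit 25363023)))))
(S (nat_lit 37308) (S (nat_lit 8339) (S (nat_lit 30777) (S (nat_lit 17574) (L (nat_lit 23538496))
(L (nat_lit 26816864)))
(L (nat_lit 9850720)))
(S (nat_lit 28103) (S (nat_lit 14408) (S (nat_lit 43468) (L (nat_lit 2376531))
(L (nat_lit 27678912)))
(S (nat_lit 26971) (L (nat_lit 7128675))
(L (nat_lit 22572105))))
(S (nat_lit 47867) (S (nat_lit 32914) (S (nat_lit 50050) (S (nat_lit 52686) (L (nat_lit 15815527))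
(L (nat_lit 21098919)))
(L (nat_lit 20121116)))
(L (nat_lit 9111439)))
(L (nat_lit 25711937)))))
(S (nat_lit 57072) (S (nat_lit 15353) (S (nat_lit 12296) (L (nat_lit 19730823))
(S (nat_lit 25355) (S (nat_lit 43965) (L (nat_lit 8212897))
(L (nat_lit 27724391)))
(L (nat_lit 7227872))))
(S (nat_lit 35117) (S (nat_lit 27647) (S (nat_lit 30741) (L (nat_lit 3029303))
(L (nat_lit 30488167)))
(S (nat_lit 30705) (S (nat_lit 35076) (S (nat_lit 19235) (L (nat_lit 28803783))
(L (nat_lit 4631292)))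
(L (nat_lit 13441632)))
(L (nat_lit 2836263))))
(S (nat_lit 54881) (S (nat_lit 34658) (S (nat_lit 35138) (S (nat_lit 13129) (S (nat_lit 32432) (L (nat_lit 5593560))
(L (nat_lit 17557729)))
(L (nat_lit 12641619)))
(L (nat_lit 30771730)))
(S (nat_lit 54577) (L (nat_lit 19165262))
(L (nat_lit 15280993))))
(L (nat_lit 25791821)))))
(L (nat_lit 25282831)))))
(S (nat_lit 43980) (S (nat_lit 7853) (S (nat_lit 18715) (S (nat_lit 8339) (S (nat_lit 50050) (S (nat_lit 12668) (S (nat_lit 43965) (L (nat_lit 2833255))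
(L (nat_lit 11274802)))
(L (nat_lit 18156405)))
(L (nat_lit 15929202)))
(S (nat_lit 28019) (L (nat_lit 16602250))
(L (nat_lit 4835142))))
(S (nat_lit 38479) (S (nat_lit 45643) (S (nat_lit 43927) (S (nat_lit 45119) (L (nat_lit 14590688))
(L (nat_lit 27773248)))
(L (nat_lit 11113293)))
(L (nat_lit 27709760)))
(S (nat_lit 58243) (S (nat_lit 2226) (S (nat_lit 28103) (S (nat_lit 10977) (L (nat_lit 7132673))
(L (nat_lit 16510273)))
(L (nat_lit 14735270)))
(L (nat_lit 15553606)))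
(L (nat_lit 25864612)))))
(S (nat_lit 27617) (S (nat_lit 6580) (S (nat_lit 50010) (S (nat_lit 48335) (L (nat_lit 29788371))
(L (nat_lit 12321519)))
(L (nat_lit 22416203)))
(S (nat_lit 26344) (S (nat_lit 18749) (S (nat_lit 32893) (L (nat_lit 24548571))
(L (nat_lit 15958902)))
(L (nat_lit 22473024)))
(S (nat_lit 46108) (S (nat_lit 56599) (S (nat_lit 40769) (L (nat_lit 15883143))
(L (nat_lit 9886464)))
(L (nat_lit 27864108)))
(L (nat_lit 25903298)))))
(S (nat_lit 47381) (S (nat_lit 16569) (S (nat_lit 41782) (S (nat_lit 40769) (L (nat_lit 5494575))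
(L (nat_lit 18458368)))
(L (nat_lit 10932348)))
(S (nat_lit 36333) (S (nat_lit 54902) (S (nat_lit 40769) (L (nat_lit 26224368))
(L (nat_lit 17999578)))
(L (nat_lit 21775557)))
(S (nat_lit 56097) (S (nat_lit 43927) (S (nat_lit 52686) (S (nat_lit 3942) (L (nat_lit 10196847))
(L (nat_lit 4416019)))
(L (nat_lit 27338167)))
(L (nat_lit 12183725)))
(L (nat_lit 25743621)))))
(L (nat_lit 25478722)))))
(L (nat_lit 25930927)))))
(L (nat_lit 25926733)))))
(L (nat_lit 25185734)))))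

theorem rb183_3 : run 4 lb183 [] tb183_3 kb183 (P4 4 743 0 4082 6403 0 1 0 0) [] = true := by
  decide +kernel

noncomputable def ta7_4 : Tr :=
(S (nat_lit 746) (S (nat_lit 6) (S (nat_lit 2114) (S (nat_lit 2436) (S (nat_lit 2201) (L (nat_lit 8910))
(L (nat_lit 444709)))
(S (nat_lit 3270) (S (nat_lit 3267) (S (nat_lit 260) (S (nat_lit 1790) (L (nat_lit 373911))
(L (nat_lit 640291)))
(L (nat_lit 15049)))
(L (nat_lit 21000)))
(L (nat_lit 21032))))
(S (nat_lit 4328) (S (nat_lit 0) (S (nat_lit 7) (S (nat_lit 5485) (L (nat_lit 211616))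
(L (nat_lit 253472)))
(L (nat_lit 215183)))
(S (nat_lit 2214) (S (nat_lit 269) (S (nat_lit 2969) (L (nat_lit 703530))
(L (nat_lit 576683)))
(L (nat_lit 7889)))
(S (nat_lit 4428) (S (nat_lit 269) (S (nat_lit 7) (L (nat_lit 393590))
(L (nat_lit 19823)))
(L (nat_lit 7921)))
(L (nat_lit 602150)))))
(S (nat_lit 6542) (S (nat_lit 946) (L (nat_lit 104947))
(S (nat_lit 1053) (S (nat_lit 2216) (L (nat_lit 426730))
(L (nat_lit 263888)))
(L (nat_lit 346628))))
(L (nat_lit 605378)))))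
(S (nat_lit 2220) (S (nat_lit 1790) (S (nat_lit 2113) (S (nat_lit 2214) (S (nat_lit 1304) (S (nat_lit 5482) (L (nat_lit 735306))
(L (nat_lit 115435)))
(L (nat_lit 477377)))
(L (nat_lit 263884)))
(S (nat_lit 4327) (S (nat_lit 4431) (L (nat_lit 764385))
(L (nat_lit 524999)))
(S (nat_lit 6541) (S (nat_lit 4733) (S (nat_lit 2217) (L (nat_lit 114407))
(L (nat_lit 766209)))
(S (nat_lit 5435) (S (nat_lit 2283) (S (nat_lit 4) (L (nat_lit 11828))
(L (nat_lit 444675)))
(L (nat_lit 398710)))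
(L (nat_lit 463495))))
(L (nat_lit 601101)))))
(S (nat_lit 4004) (S (nat_lit 0) (S (nat_lit 3518) (S (nat_lit 5183) (L (nat_lit 723433))
(L (nat_lit 659821)))
(L (nat_lit 403105)))
(S (nat_lit 2214) (S (nat_lit 2217) (S (nat_lit 2221) (S (nat_lit 2321) (L (nat_lit 543075))
(L (nat_lit 312929)))
(L (nat_lit 282799)))
(L (nat_lit 315873)))
(S (nat_lit 4428) (S (nat_lit 3) (S (nat_lit 2474) (L (nat_lit 148071))
(L (nat_lit 477413)))
(L (nat_lit 7821)))
(L (nat_lit 602151)))))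
(S (nat_lit 6218) (S (nat_lit 2112) (S (nat_lit 1053) (S (nat_lit 2215) (L (nat_lit 75223))
(L (nat_lit 766147)))
(S (nat_lit 4202) (S (nat_lit 2933) (L (nat_lit 144040))
(L (nat_lit 18859)))
(L (nat_lit 264659))))
(S (nat_lit 4326) (S (nat_lit 269) (S (nat_lit 2214) (L (nat_lit 264663))
(L (nat_lit 479425)))
(S (nat_lit 1493) (L (nat_lit 6897))
(L (nat_lit 433302))))
(S (nat_lit 6540) (S (nat_lit 2214) (S (nat_lit 2111) (L (nat_lit 697518))
(L (nat_lit 298423)))
(S (nat_lit 5138) (L (nat_lit 691535))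
(L (nat_lit 72333))))
(L (nat_lit 599429)))))
(L (nat_lit 605287)))))
(S (nat_lit 4434) (S (nat_lit 1054) (S (nat_lit 1057) (S (nat_lit 4325) (S (nat_lit 4322) (S (nat_lit 4435) (S (nat_lit 4185) (L (nat_lit 627110))
(L (nat_lit 640288)))
(L (nat_lit 351779)))
(L (nat_lit 348268)))
(L (nat_lit 348204)))
(S (nat_lit 3271) (S (nat_lit 2108) (S (nat_lit 5481) (L (nat_lit 280593))
(L (nat_lit 664066)))
(L (nat_lit 379360)))
(S (nat_lit 5485) (S (nat_lit 1056) (S (nat_lit 4431) (S (nat_lit 2969) (L (nat_lit 515242))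
(L (nat_lit 758093)))
(L (nat_lit 328396)))
(L (nat_lit 74414)))
(L (nat_lit 604326)))))
(S (nat_lit 3268) (S (nat_lit 2) (S (nat_lit 3267) (L (nat_lit 84300))
(L (nat_lit 567446)))
(S (nat_lit 2216) (S (nat_lit 4433) (S (nat_lit 5183) (L (nat_lit 153837))
(L (nat_lit 659883)))
(L (nat_lit 667723)))
(S (nat_lit 4430) (S (nat_lit 2114) (S (nat_lit 3270) (S (nat_lit 3267) (L (nat_lit 78195))
(L (nat_lit 567446)))
(L (nat_lit 363088)))
(L (nat_lit 115991)))
(L (nat_lit 602308)))))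
(S (nat_lit 5482) (S (nat_lit 3) (S (nat_lit 5) (L (nat_lit 465012))
(L (nat_lit 40407)))
(S (nat_lit 2217) (S (nat_lit 0) (S (nat_lit 2218) (L (nat_lit 498710))
(L (nat_lit 296439)))
(L (nat_lit 629773)))
(S (nat_lit 4431) (S (nat_lit 269) (S (nat_lit 4435) (L (nat_lit 263789))
(L (nat_lit 662703)))
(L (nat_lit 280261)))
(L (nat_lit 603239)))))
(L (nat_lit 600204)))))
(L (nat_lit 603489)))))
(S (nat_lit 2960) (S (nat_lit 1056) (S (nat_lit 2113) (S (nat_lit 2111) (S (nat_lit 755) (S (nat_lit 107) (L (nat_lit 180970))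
(L (nat_lit 640107)))
(L (nat_lit 634341)))
(S (nat_lit 4325) (S (nat_lit 4535) (S (nat_lit 260) (L (nat_lit 232884))
(L (nat_lit 283140)))
(L (nat_lit 119306)))
(S (nat_lit 6539) (S (nat_lit 3518) (S (nat_lit 4535) (L (nat_lit 502370))
(L (nat_lit 658954)))
(S (nat_lit 5469) (L (nat_lit 154958))
(L (nat_lit 568373))))
(L (nat_lit 605222)))))
(S (nat_lit 4327) (S (nat_lit 1790) (S (nat_lit 2434) (L (nat_lit 333487))
(S (nat_lit 2695) (S (nat_lit 2218) (L (nat_lit 89422))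
(L (nat_lit 283107)))
(L (nat_lit 41551))))
(S (nat_lit 2060) (S (nat_lit 1053) (S (nat_lit 2474) (S (nat_lit 2321) (L (nat_lit 759085))
(L (nat_lit 279603)))
(L (nat_lit 768292)))
(L (nat_lit 279106)))
(L (nat_lit 343747))))
(S (nat_lit 6541) (S (nat_lit 3) (S (nat_lit 2969) (S (nat_lit 1053) (L (nat_lit 530154))
(L (nat_lit 477442)))
(L (nat_lit 85357)))
(S (nat_lit 2217) (S (nat_lit 2474) (S (nat_lit 1057) (S (nat_lit 1790) (L (nat_lit 231924))
(L (nat_lit 332524)))
(L (nat_lit 150059)))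
(L (nat_lit 89641)))
(S (nat_lit 4431) (S (nat_lit 1054) (S (nat_lit 755) (L (nat_lit 330226))
(L (nat_lit 628138)))
(L (nat_lit 477445)))
(L (nat_lit 591117)))))
(L (nat_lit 605444)))))
(S (nat_lit 3270) (S (nat_lit 6) (S (nat_lit 1790) (S (nat_lit 1656) (L (nat_lit 139799))
(S (nat_lit 1890) (L (nat_lit 380080))
(L (nat_lit 663663))))
(L (nat_lit 280291)))
(S (nat_lit 2220) (S (nat_lit 1082) (L (nat_lit 139799))
(S (nat_lit 1343) (L (nat_lit 139799))
(S (nat_lit 6218) (S (nat_lit 5732) (S (nat_lit 2215) (L (nat_lit 297462))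
(L (nat_lit 274487)))
(L (nat_lit 283693)))
(L (nat_lit 664003)))))
(S (nat_lit 4434) (S (nat_lit 755) (S (nat_lit 7) (S (nat_lit 4430) (L (nat_lit 426602))
(L (nat_lit 143572)))
(L (nat_lit 12661)))
(S (nat_lit 2969) (S (nat_lit 2218) (S (nat_lit 3271) (L (nat_lit 244449))
(L (nat_lit 404037)))
(L (nat_lit 283107)))
(S (nat_lit 5183) (S (nat_lit 4433) (S (nat_lit 4430) (L (nat_lit 562827))
(L (nat_lit 525994)))
(L (nat_lit 525930)))
(L (nat_lit 601229)))))
(L (nat_lit 590189)))))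
(S (nat_lit 5484) (S (nat_lit 1057) (S (nat_lit 5482) (S (nat_lit 1053) (S (nat_lit 2474) (S (nat_lit 755) (S (nat_lit 4326) (L (nat_lit 721135))
(L (nat_lit 247397)))
(L (nat_lit 463594)))
(L (nat_lit 211557)))
(L (nat_lit 631300)))
(L (nat_lit 107185)))
(S (nat_lit 3271) (L (nat_lit 467653))
(S (nat_lit 5485) (S (nat_lit 5482) (L (nat_lit 41615))
(L (nat_lit 434848)))
(L (nat_lit 592236)))))
(L (nat_lit 600240)))))
(S (nat_lit 5174) (S (nat_lit 1790) (S (nat_lit 5481) (L (nat_lit 172502))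
(L (nat_lit 41712)))
(S (nat_lit 4004) (S (nat_lit 1) (S (nat_lit 0) (S (nat_lit 5732) (L (nat_lit 41397))
(L (nat_lit 669734)))
(S (nat_lit 2214) (S (nat_lit 4432) (L (nat_lit 351617))
(L (nat_lit 349295)))
(S (nat_lit 4428) (S (nat_lit 3518) (L (nat_lit 139701))
(L (nat_lit 413734)))
(L (nat_lit 603174)))))
(S (nat_lit 2215) (S (nat_lit 107) (S (nat_lit 2979) (L (nat_lit 286113))
(S (nat_lit 4430) (S (nat_lit 3482) (L (nat_lit 329422))
(L (nat_lit 636101)))
(L (nat_lit 351280))))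
(S (nat_lit 2321) (S (nat_lit 3518) (S (nat_lit 2218) (L (nat_lit 41583))
(L (nat_lit 307779)))
(L (nat_lit 11887)))
(S (nat_lit 4535) (S (nat_lit 755) (S (nat_lit 269) (L (nat_lit 265653))
(L (nat_lit 399049)))
(L (nat_lit 16075)))
(L (nat_lit 607555)))))
(S (nat_lit 4429) (S (nat_lit 260) (S (nat_lit 4432) (S (nat_lit 4428) (S (nat_lit 2114) (L (nat_lit 152913))
(L (nat_lit 567010)))
(L (nat_lit 557303)))
(L (nat_lit 557769)))
(S (nat_lit 2474) (S (nat_lit 2112) (L (nat_lit 627145))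
(L (nat_lit 379269)))
(S (nat_lit 4688) (S (nat_lit 269) (L (nat_lit 55535))
(L (nat_lit 42737)))
(L (nat_lit 592393)))))
(L (nat_lit 603363)))))
(S (nat_lit 6218) (S (nat_lit 4) (S (nat_lit 3267) (S (nat_lit 2113) (L (nat_lit 764387))
(L (nat_lit 366285)))
(L (nat_lit 178824)))
(S (nat_lit 2218) (S (nat_lit 1053) (S (nat_lit 6542) (S (nat_lit 6539) (L (nat_lit 201358))
(L (nat_lit 658670)))
(L (nat_lit 280128)))
(L (nat_lit 145682)))
(S (nat_lit 4432) (S (nat_lit 1053) (S (nat_lit 1057) (S (nat_lit 6173) (L (nat_lit 534578))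
(L (nat_lit 688366)))
(S (nat_lit 1840) (L (nat_lit 575595))
(L (nat_lit 469012))))
(S (nat_lit 3267) (S (nat_lit 1834) (L (nat_lit 756044))
(S (nat_lit 5732) (L (nat_lit 533620))
(L (nat_lit 220269))))
(S (nat_lit 5481) (S (nat_lit 6542) (S (nat_lit 2321) (L (nat_lit 698512))
(L (nat_lit 469601)))
(L (nat_lit 280192)))
(L (nat_lit 600578)))))
(L (nat_lit 590281)))))
(L (nat_lit 600451)))))
(L (nat_lit 592207)))))

theorem ra7_4 : run 3 la7 [] ta7_4 ka7 (P4 3 44 359 386 359 1 0 0 0) [] = true := by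
  decide +kernel

noncomputable def ta7_5 : Tr :=
(L (nat_lit 604385))

theorem ra7_5 : run 3 la7 [] ta7_5 ka7 (P4 3 44 359 386 359 1 2 0 0) [] = true := by
  decide +kernel

noncomputable def tb80_2 : Tr :=
(L (nat_lit 25770210))

theorem rb80_2 : run 4 lb80 [] tb80_2 kb80 (P4 4 5681 1059 6270 1059 0 0 1 2) [] = true := by
  decide +kernel

noncomputable def tb180_5 : Tr :=
(L (nat_lit 25833761))

theorem rb180_5 : run 4 lb180 [] tb180_5 kb180 (P4 4 4791 2836 6347 2836 1 2 0 0) [] = true := by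
  decide +kernel

noncomputable def ta14_3 : Tr :=
(L (nat_lit 605440))

theorem ra14_3 : run 3 la14 [] ta14_3 ka14 (P4 3 3 623 502 623 0 1 0 0) [] = true := by
  decide +kernel

noncomputable def ta39_2 : Tr :=
(L (nat_lit 605442))

theorem ra39_2 : run 3 la39 [] ta39_2 ka39 (P4 3 490 0 695 490 0 0 1 2) [] = true := by
  decide +kernel

end Pool.Agent.MP_92191b_al.K3.E
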