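import Pool.Agent.MP_92191b_al.K3.CR9

/-! Refutation trees. -/

namespace Pool.Agent.MP_92191b_al.K3.E

open Tr

set_option maxRecDepth 100000

noncomputable def tb180_4 : Tr :=
(S (nat_lit 15573) (S (nat_lit 9532) (S (nat_lit 254) (S (nat_lit 15095) (S (nat_lit 9730) (S (nat_lit 0) (S (nat_lit 56) (S (nat_lit 28) (S (nat_lit 6589) (S (nat_lit 14121) (S (nat_lit 14645) (L (nat_lit 30124419))
(L (nat_lit 12737320)))
(L (nat_lit 13230216)))
(L (nat_lit 7463346)))
(L (nat_lit 6948654)))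
(L (nat_lit 6817590)))
(S (nat_lit 39369) (S (nat_lit 31278) (L (nat_lit 26361414))
(L (nat_lit 14911414)))
(L (nat_lit 1448754))))
(S (nat_lit 29494) (S (nat_lit 7368) (S (nat_lit 2198) (L (nat_lit 11616055))
(L (nat_lit 19116805)))
(S (nat_lit 27132) (S (nat_lit 33693) (L (nat_lit 1303246))
(L (nat_lit 11724311)))
(S (nat_lit 46896) (S (nat_lit 2198) (L (nat_lit 11616055))
(L (nat_lit 1291030)))
(L (nat_lit 25478752)))))
(S (nat_lit 49258) (S (nat_lit 10986) (S (nat_lit 13899) (S (nat_lit 5120) (S (nat_lit 40310) (S (nat_lit 24210) (L (nat_lit 12660411))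
(L (nat_lit 17667687)))
(L (nat_lit 9921220)))
(L (nat_lit 1397678)))
(L (nat_lit 26431936)))
(S (nat_lit 30750) (S (nat_lit 3942) (S (nat_lit 13899) (L (nat_lit 10936470))
(L (nat_lit 26428535)))
(L (nat_lit 20439396)))
(S (nat_lit 50514) (S (nat_lit 46626) (S (nat_lit 3942) (S (nat_lit 27797) (L (nat_lit 28397991))
(L (nat_lit 10936068)))
(L (nat_lit 15458594)))
(S (nat_lit 53025) (L (nat_lit 16935284))
(L (nat_lit 22490947))))
(L (nat_lit 25480367)))))
(L (nat_lit 25826822)))))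
(S (nat_lit 34859) (S (nat_lit 13378) (S (nat_lit 56) (S (nat_lit 28) (S (nat_lit 47814) (S (nat_lit 17575) (S (nat_lit 1975) (L (nat_lit 15059003))
(L (nat_lit 14298266)))
(L (nat_lit 6441869)))
(L (nat_lit 6449772)))
(L (nat_lit 7177653)))
(S (nat_lit 19820) (S (nat_lit 23484) (S (nat_lit 47814) (S (nat_lit 50514) (L (nat_lit 29740144))
(L (nat_lit 20354822)))
(L (nat_lit 20357892)))
(L (nat_lit 7770898)))
(S (nat_lit 39584) (S (nat_lit 41503) (L (nat_lit 24348556))
(L (nat_lit 23303982)))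
(L (nat_lit 25512356)))))
(S (nat_lit 33142) (S (nat_lit 14903) (S (nat_lit 46892) (L (nat_lit 31031750))
(L (nat_lit 4448976)))
(S (nat_lit 34667) (S (nat_lit 34358) (S (nat_lit 58243) (S (nat_lit 0) (L (nat_lit 403067))
(L (nat_lit 20349735)))
(L (nat_lit 27961488)))
(S (nat_lit 51562) (L (nat_lit 15868692))
(L (nat_lit 15781798))))
(S (nat_lit 54431) (S (nat_lit 50514) (S (nat_lit 11436) (L (nat_lit 12816148))
(L (nat_lit 26707623)))
(L (nat_lit 22100743)))
(L (nat_lit 25270804)))))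
(S (nat_lit 52906) (S (nat_lit 26134) (S (nat_lit 19485) (S (nat_lit 20518) (S (nat_lit 50514) (S (nat_lit 0) (L (nat_lit 20030969))
(L (nat_lit 19129388)))
(L (nat_lit 20354822)))
(L (nat_lit 11986658)))
(L (nat_lit 22455045)))
(L (nat_lit 17029924)))
(L (nat_lit 25410240)))))
(S (nat_lit 54623) (S (nat_lit 1776) (S (nat_lit 3942) (S (nat_lit 0) (S (nat_lit 47814) (S (nat_lit 11436) (L (nat_lit 19798562))
(L (nat_lit 18555928)))
(L (nat_lit 7016204)))
(L (nat_lit 26837383)))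
(L (nat_lit 26947010)))
(S (nat_lit 21540) (S (nat_lit 3942) (S (nat_lit 0) (S (nat_lit 45898) (S (nat_lit 7588) (L (nat_lit 3401140))
(L (nat_lit 13884165)))
(L (nat_lit 6446861)))
(L (nat_lit 19071788)))
(L (nat_lit 15412994)))
(S (nat_lit 41304) (S (nat_lit 6589) (S (nat_lit 26862) (S (nat_lit 46373) (S (nat_lit 47561) (S (nat_lit 13869) (L (nat_lit 22939016))
(L (nat_lit 1820426)))
(L (nat_lit 7028516)))
(L (nat_lit 1828144)))
(L (nat_lit 16493594)))
(S (nat_lit 26353) (S (nat_lit 13899) (S (nat_lit 48317) (S (nat_lit 5120) (S (nat_lit 7366) (S (nat_lit 51922) (L (nat_lit 211547))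
(L (nat_lit 27775330)))
(L (nat_lit 13770583)))
(L (nat_lit 8442333)))
(L (nat_lit 27338133)))
(L (nat_lit 26683073)))
(S (nat_lit 46117) (S (nat_lit 3942) (S (nat_lit 56599) (S (nat_lit 23484) (S (nat_lit 32158) (S (nat_lit 46894) (L (nat_lit 28935658))
(L (nat_lit 27825362)))
(L (nat_lit 17073816)))
(L (nat_lit 7532208)))
(L (nat_lit 1648396)))
(L (nat_lit 14722866)))
(L (nat_lit 25762862)))))
(L (nat_lit 25745577)))))
(L (nat_lit 25211250)))))
(S (nat_lit 20018) (S (nat_lit 2950) (S (nat_lit 7844) (S (nat_lit 13129) (S (nat_lit 28) (S (nat_lit 48596) (S (nat_lit 2456) (S (nat_lit 41304) (L (nat_lit 21100074))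
(L (nat_lit 7072226)))
(L (nat_lit 26459873)))
(L (nat_lit 11175482)))
(L (nat_lit 13272314)))
(L (nat_lit 13272410)))
(S (nat_lit 27608) (S (nat_lit 21612) (S (nat_lit 3942) (S (nat_lit 25555) (L (nat_lit 1666503))
(L (nat_lit 1594119)))
(L (nat_lit 15412996)))
(S (nat_lit 41304) (S (nat_lit 24536) (L (nat_lit 1617562))
(S (nat_lit 50514) (S (nat_lit 47814) (S (nat_lit 34388) (S (nat_lit 57103) (S (nat_lit 12394) (S (nat_lit 0) (L (nat_lit 21366072))
(L (nat_lit 19301592)))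
(L (nat_lit 312987)))
(L (nat_lit 6041168)))
(L (nat_lit 7977147)))
(L (nat_lit 17094404)))
(L (nat_lit 10596987))))
(L (nat_lit 24240617))))
(S (nat_lit 47372) (S (nat_lit 10986) (S (nat_lit 7366) (S (nat_lit 12182) (L (nat_lit 26608234))
(L (nat_lit 16601440)))
(S (nat_lit 18694) (L (nat_lit 26838253))
(L (nat_lit 1297914))))
(S (nat_lit 30750) (S (nat_lit 1975) (S (nat_lit 40086) (L (nat_lit 11966075))
(L (nat_lit 27789927)))
(L (nat_lit 20819425)))
(S (nat_lit 50514) (S (nat_lit 47814) (S (nat_lit 22220) (L (nat_lit 24197499))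
(L (nat_lit 22490913)))
(L (nat_lit 8839844)))
(L (nat_lit 25700502)))))
(L (nat_lit 25803968)))))
(S (nat_lit 22714) (S (nat_lit 2456) (S (nat_lit 13180) (S (nat_lit 26353) (S (nat_lit 20996) (S (nat_lit 47814) (L (nat_lit 11682647))
(L (nat_lit 22906124)))
(L (nat_lit 30579409)))
(L (nat_lit 16516808)))
(L (nat_lit 26773192)))
(S (nat_lit 22220) (S (nat_lit 47814) (S (nat_lit 46117) (S (nat_lit 11436) (S (nat_lit 1776) (S (nat_lit 32944) (L (nat_lit 3980503))
(L (nat_lit 9275087)))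
(L (nat_lit 14354283)))
(L (nat_lit 16385958)))
(L (nat_lit 17695959)))
(S (nat_lit 57664) (S (nat_lit 6845) (L (nat_lit 26616386))
(L (nat_lit 8206915)))
(L (nat_lit 22339629))))
(S (nat_lit 41984) (S (nat_lit 6589) (S (nat_lit 2536) (L (nat_lit 26459314))
(S (nat_lit 52708) (S (nat_lit 7588) (S (nat_lit 1232) (L (nat_lit 28914944))
(L (nat_lit 13960925)))
(L (nat_lit 13755083)))
(L (nat_lit 27854312))))
(L (nat_lit 7145167)))
(L (nat_lit 25693931)))))
(S (nat_lit 42478) (S (nat_lit 10986) (S (nat_lit 1006) (S (nat_lit 33885) (S (nat_lit 46373) (L (nat_lit 14429237))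
(L (nat_lit 1985003)))
(S (nat_lit 53354) (L (nat_lit 1270478))
(L (nat_lit 23245146))))
(S (nat_lit 20770) (S (nat_lit 34388) (S (nat_lit 48596) (S (nat_lit 27799) (L (nat_lit 21441314))
(L (nat_lit 16474247)))
(L (nat_lit 1761583)))
(L (nat_lit 30517812)))
(S (nat_lit 40534) (S (nat_lit 41984) (S (nat_lit 59013) (L (nat_lit 29591031))
(L (nat_lit 451307)))
(L (nat_lit 23603969)))
(L (nat_lit 25178420)))))
(S (nat_lit 30750) (S (nat_lit 22220) (S (nat_lit 46117) (S (nat_lit 14624) (S (nat_lit 28) (L (nat_lit 9889379))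
(L (nat_lit 14288090)))
(L (nat_lit 12668124)))
(L (nat_lit 18089689)))
(S (nat_lit 39633) (L (nat_lit 9886466))
(L (nat_lit 30607053))))
(S (nat_lit 50514) (S (nat_lit 8035) (S (nat_lit 47814) (S (nat_lit 27792) (L (nat_lit 28704983))
(L (nat_lit 25050401)))
(L (nat_lit 6709924)))
(S (nat_lit 27799) (S (nat_lit 3942) (S (nat_lit 51260) (S (nat_lit 3199) (S (nat_lit 27792) (S (nat_lit 16319) (L (nat_lit 20135681))
(L (nat_lit 14877458)))
(L (nat_lit 14742838)))
(L (nat_lit 20316538)))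
(L (nat_lit 20318586)))
(S (nat_lit 23628) (L (nat_lit 4479547))
(L (nat_lit 14733067))))
(S (nat_lit 47563) (S (nat_lit 13180) (S (nat_lit 25355) (L (nat_lit 445817))
(L (nat_lit 22887746)))
(L (nat_lit 1990089)))
(L (nat_lit 25222350)))))
(L (nat_lit 25285999)))))
(L (nat_lit 25577763)))))
(S (nat_lit 39782) (S (nat_lit 28) (S (nat_lit 56) (S (nat_lit 13899) (S (nat_lit 49258) (S (nat_lit 5120) (S (nat_lit 5591) (S (nat_lit 20322) (S (nat_lit 14121) (S (nat_lit 33633) (S (nat_lit 47814) (S (nat_lit 13129) (L (nat_lit 9454267))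
(L (nat_lit 22218299)))
(L (nat_lit 20013609)))
(L (nat_lit 4007349)))
(L (nat_lit 24294184)))
(L (nat_lit 4744434)))
(L (nat_lit 20256558)))
(L (nat_lit 1678254)))
(L (nat_lit 27591127)))
(L (nat_lit 26289623)))
(L (nat_lit 13338411)))
(S (nat_lit 19792) (S (nat_lit 12182) (S (nat_lit 8789) (S (nat_lit 13899) (S (nat_lit 41053) (L (nat_lit 20440417))
(L (nat_lit 23290990)))
(L (nat_lit 26416631)))
(S (nat_lit 28553) (S (nat_lit 47561) (S (nat_lit 21236) (L (nat_lit 2549352))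
(L (nat_lit 21375749)))
(S (nat_lit 53713) (L (nat_lit 21283900))
(L (nat_lit 8840307))))
(S (nat_lit 48317) (S (nat_lit 17071) (S (nat_lit 57581) (S (nat_lit 26862) (L (nat_lit 20791619))
(L (nat_lit 15881594)))
(L (nat_lit 12137496)))
(S (nat_lit 56455) (L (nat_lit 11929240))
(L (nat_lit 9887798))))
(L (nat_lit 25746507)))))
(S (nat_lit 31946) (S (nat_lit 1525) (S (nat_lit 54431) (L (nat_lit 1484504))
(L (nat_lit 21195267)))
(S (nat_lit 21289) (S (nat_lit 26609) (S (nat_lit 26353) (L (nat_lit 9899797))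
(L (nat_lit 30724142)))
(L (nat_lit 14994339)))
(S (nat_lit 41053) (S (nat_lit 5120) (S (nat_lit 6596) (S (nat_lit 5591) (L (nat_lit 20243843))
(L (nat_lit 18474240)))
(L (nat_lit 21465002)))
(S (nat_lit 30349) (L (nat_lit 22451579))
(L (nat_lit 16559813))))
(L (nat_lit 25378466)))))
(S (nat_lit 51710) (S (nat_lit 2950) (S (nat_lit 40760) (S (nat_lit 45391) (S (nat_lit 9068) (L (nat_lit 2552178))
(L (nat_lit 26903821)))
(L (nat_lit 24553251)))
(L (nat_lit 27700247)))
(S (nat_lit 22714) (S (nat_lit 47372) (S (nat_lit 26360) (L (nat_lit 9532853))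
(L (nat_lit 15631701)))
(L (nat_lit 27952583)))
(S (nat_lit 42478) (S (nat_lit 33633) (S (nat_lit 56375) (S (nat_lit 48596) (L (nat_lit 22147558))
(L (nat_lit 16108570)))
(L (nat_lit 13816026)))
(L (nat_lit 11981632)))
(L (nat_lit 25567413)))))
(L (nat_lit 25377939)))))
(S (nat_lit 39556) (S (nat_lit 8789) (S (nat_lit 13180) (S (nat_lit 6596) (S (nat_lit 33142) (S (nat_lit 41304) (L (nat_lit 16851577))
(L (nat_lit 23348253)))
(L (nat_lit 30490217)))
(L (nat_lit 26510901)))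
(S (nat_lit 32944) (S (nat_lit 40534) (S (nat_lit 46124) (S (nat_lit 35086) (S (nat_lit 20518) (S (nat_lit 13899) (L (nat_lit 2531964))
(L (nat_lit 26677962)))
(L (nat_lit 15555875)))
(L (nat_lit 23081736)))
(L (nat_lit 12453553)))
(L (nat_lit 24950048)))
(S (nat_lit 52708) (S (nat_lit 6589) (L (nat_lit 26870030))
(L (nat_lit 13469384)))
(L (nat_lit 25723158)))))
(S (nat_lit 28553) (S (nat_lit 1975) (S (nat_lit 16065) (S (nat_lit 7588) (S (nat_lit 36835) (S (nat_lit 27128) (S (nat_lit 52708) (S (nat_lit 13150) (L (nat_lit 14223640))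
(L (nat_lit 24601609)))
(L (nat_lit 12153966)))
(L (nat_lit 14935685)))
(L (nat_lit 13477445)))
(L (nat_lit 4907342)))
(L (nat_lit 8806455)))
(S (nat_lit 21739) (S (nat_lit 27608) (S (nat_lit 40310) (S (nat_lit 46892) (L (nat_lit 17411131))
(L (nat_lit 4506549)))
(L (nat_lit 18505956)))
(S (nat_lit 44299) (L (nat_lit 11655737))
(L (nat_lit 6371929))))
(S (nat_lit 41503) (S (nat_lit 47116) (S (nat_lit 8028) (L (nat_lit 28619395))
(L (nat_lit 23891339)))
(L (nat_lit 10155392)))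
(L (nat_lit 25824495)))))
(S (nat_lit 48317) (S (nat_lit 4926) (S (nat_lit 33142) (S (nat_lit 52678) (S (nat_lit 14903) (L (nat_lit 19268362))
(L (nat_lit 10356369)))
(L (nat_lit 27350255)))
(L (nat_lit 15804342)))
(S (nat_lit 24690) (S (nat_lit 57765) (L (nat_lit 4568983))
(L (nat_lit 4894513)))
(S (nat_lit 44454) (S (nat_lit 11436) (S (nat_lit 29494) (S (nat_lit 12394) (L (nat_lit 9594513))
(L (nat_lit 12093082)))
(L (nat_lit 11630289)))
(L (nat_lit 23897105)))
(L (nat_lit 25625875)))))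
(L (nat_lit 25731189)))))
(L (nat_lit 25657961)))))
(L (nat_lit 25378371)))))
(S (nat_lit 29296) (S (nat_lit 8789) (S (nat_lit 13378) (S (nat_lit 15322) (S (nat_lit 12182) (S (nat_lit 45898) (S (nat_lit 3720) (L (nat_lit 28529184))
(L (nat_lit 1497931)))
(L (nat_lit 6740804)))
(S (nat_lit 31946) (S (nat_lit 41053) (S (nat_lit 12394) (S (nat_lit 43248) (L (nat_lit 1594218))
(L (nat_lit 7158867)))
(L (nat_lit 10278925)))
(L (nat_lit 7164354)))
(S (nat_lit 51710) (S (nat_lit 33633) (S (nat_lit 37817) (S (nat_lit 754) (L (nat_lit 1486679))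
(L (nat_lit 26813583)))
(L (nat_lit 17619298)))
(L (nat_lit 7063424)))
(L (nat_lit 25602101)))))
(S (nat_lit 35086) (S (nat_lit 1525) (S (nat_lit 754) (S (nat_lit 3720) (S (nat_lit 45898) (L (nat_lit 665017))
(L (nat_lit 9220804)))
(L (nat_lit 9584466)))
(S (nat_lit 23253) (L (nat_lit 26750038))
(L (nat_lit 26547918))))
(S (nat_lit 21289) (S (nat_lit 53397) (S (nat_lit 49258) (L (nat_lit 22447976))
(L (nat_lit 3699403)))
(L (nat_lit 8052748)))
(S (nat_lit 41053) (S (nat_lit 31946) (S (nat_lit 56) (S (nat_lit 27792) (L (nat_lit 30489908))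
(L (nat_lit 15005376)))
(L (nat_lit 7058461)))
(L (nat_lit 7083445)))
(L (nat_lit 25350478)))))
(S (nat_lit 54850) (S (nat_lit 37983) (L (nat_lit 1878736))
(S (nat_lit 53427) (S (nat_lit 5120) (S (nat_lit 27792) (S (nat_lit 49258) (S (nat_lit 54623) (S (nat_lit 20322) (S (nat_lit 14645) (S (nat_lit 6591) (L (nat_lit 4659866))
(L (nat_lit 778540)))
(L (nat_lit 22199677)))
(L (nat_lit 1431964)))
(L (nat_lit 18654386)))
(L (nat_lit 9532113)))
(L (nat_lit 10543821)))
(L (nat_lit 16550599)))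
(L (nat_lit 18650824))))
(L (nat_lit 25385036)))))
(S (nat_lit 33142) (S (nat_lit 13687) (S (nat_lit 14645) (S (nat_lit 10482) (S (nat_lit 8286) (S (nat_lit 32893) (S (nat_lit 37817) (L (nat_lit 12343746))
(L (nat_lit 10323346)))
(L (nat_lit 15440675)))
(L (nat_lit 11989604)))
(S (nat_lit 52579) (L (nat_lit 10137661))
(L (nat_lit 26466350))))
(S (nat_lit 34409) (S (nat_lit 28) (S (nat_lit 20571) (S (nat_lit 36083) (L (nat_lit 15915914))
(L (nat_lit 579865)))
(L (nat_lit 15882554)))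
(S (nat_lit 19873) (L (nat_lit 7195663))
(L (nat_lit 26331374))))
(S (nat_lit 54173) (S (nat_lit 31384) (L (nat_lit 6839325))
(S (nat_lit 39528) (S (nat_lit 40282) (S (nat_lit 56375) (L (nat_lit 29505159))
(L (nat_lit 6744644)))
(L (nat_lit 24404143)))
(L (nat_lit 23524358))))
(L (nat_lit 25759144)))))
(S (nat_lit 33451) (S (nat_lit 10482) (S (nat_lit 21962) (S (nat_lit 58243) (L (nat_lit 26560132))
(L (nat_lit 10337892)))
(L (nat_lit 31041028)))
(S (nat_lit 30246) (S (nat_lit 40310) (L (nat_lit 18440484))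
(L (nat_lit 24946180)))
(S (nat_lit 50010) (S (nat_lit 35086) (S (nat_lit 5120) (S (nat_lit 53427) (S (nat_lit 6845) (L (nat_lit 9102884))
(L (nat_lit 23935265)))
(L (nat_lit 17934045)))
(L (nat_lit 19710244)))
(L (nat_lit 18604290)))
(L (nat_lit 25175726)))))
(S (nat_lit 53215) (S (nat_lit 1525) (S (nat_lit 1472) (S (nat_lit 53427) (L (nat_lit 11953237))
(L (nat_lit 9556876)))
(L (nat_lit 638790)))
(S (nat_lit 21289) (S (nat_lit 26360) (L (nat_lit 24951141))
(L (nat_lit 16535909)))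
(S (nat_lit 41053) (S (nat_lit 25450) (L (nat_lit 10507120))
(S (nat_lit 30246) (S (nat_lit 2950) (L (nat_lit 26298735))
(L (nat_lit 1909236)))
(L (nat_lit 24686436))))
(L (nat_lit 25697365)))))
(L (nat_lit 25542675)))))
(S (nat_lit 52906) (S (nat_lit 7844) (S (nat_lit 1472) (S (nat_lit 2198) (S (nat_lit 52657) (L (nat_lit 26619493))
(L (nat_lit 17472322)))
(L (nat_lit 7090231)))
(S (nat_lit 21236) (S (nat_lit 56599) (S (nat_lit 59013) (L (nat_lit 3367477))
(L (nat_lit 21403773)))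
(L (nat_lit 27700869)))
(S (nat_lit 41000) (S (nat_lit 51922) (S (nat_lit 14624) (L (nat_lit 26707282))
(L (nat_lit 1686438)))
(L (nat_lit 27573954)))
(L (nat_lit 25795696)))))
(S (nat_lit 27608) (S (nat_lit 754) (S (nat_lit 41984) (S (nat_lit 39249) (L (nat_lit 17665399))
(L (nat_lit 23300604)))
(L (nat_lit 23150347)))
(S (nat_lit 20518) (S (nat_lit 17711) (L (nat_lit 12162830))
(S (nat_lit 33885) (S (nat_lit 41984) (S (nat_lit 47563) (L (nat_lit 23146043))
(L (nat_lit 7200290)))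
(L (nat_lit 27494095)))
(L (nat_lit 12185740))))
(S (nat_lit 40282) (S (nat_lit 27130) (S (nat_lit 41984) (L (nat_lit 6976623))
(L (nat_lit 24371247)))
(L (nat_lit 25007310)))
(L (nat_lit 25793062)))))
(S (nat_lit 47372) (S (nat_lit 11901) (S (nat_lit 21352) (L (nat_lit 13275451))
(L (nat_lit 26449397)))
(S (nat_lit 57765) (S (nat_lit 13687) (S (nat_lit 34667) (S (nat_lit 37339) (S (nat_lit 56599) (S (nat_lit 49758) (S (nat_lit 14121) (S (nat_lit 36083) (S (nat_lit 7988) (L (nat_lit 4998386))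
(S (nat_lit 11339) (L (nat_lit 15772565))
(S (nat_lit 24690) (S (nat_lit 21289) (S (nat_lit 27799) (S (nat_lit 49258) (S (nat_lit 32158) (L (nat_lit 3709688))
(L (nat_lit 30787202)))
(L (nat_lit 27740299)))
(L (nat_lit 15065762)))
(L (nat_lit 10674862)))
(L (nat_lit 9925683)))))
(L (nat_lit 23650561)))
(L (nat_lit 12757815)))
(L (nat_lit 22035739)))
(L (nat_lit 4009617)))
(L (nat_lit 20818061)))
(L (nat_lit 7459632)))
(S (nat_lit 23115) (L (nat_lit 16445608))
(L (nat_lit 3731827))))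
(L (nat_lit 13300065))))
(L (nat_lit 25399797)))))
(L (nat_lit 25241199)))))
(S (nat_lit 28553) (S (nat_lit 558) (S (nat_lit 12394) (S (nat_lit 0) (S (nat_lit 36611) (S (nat_lit 41984) (L (nat_lit 9156356))
(L (nat_lit 24577402)))
(L (nat_lit 7791794)))
(S (nat_lit 19764) (S (nat_lit 26609) (S (nat_lit 38001) (L (nat_lit 15856362))
(L (nat_lit 3709658)))
(L (nat_lit 10215905)))
(S (nat_lit 39528) (S (nat_lit 8286) (S (nat_lit 31200) (S (nat_lit 32716) (S (nat_lit 46117) (S (nat_lit 4446) (S (nat_lit 20571) (L (nat_lit 24683709))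
(L (nat_lit 3874605)))
(L (nat_lit 26402343)))
(L (nat_lit 18609379)))
(L (nat_lit 16868727)))
(L (nat_lit 30606961)))
(S (nat_lit 45468) (L (nat_lit 16960266))
(L (nat_lit 2543531))))
(L (nat_lit 25800896)))))
(S (nat_lit 32158) (S (nat_lit 254) (S (nat_lit 2198) (L (nat_lit 12502039))
(L (nat_lit 26813892)))
(S (nat_lit 6017) (S (nat_lit 3720) (L (nat_lit 5561757))
(L (nat_lit 12317776)))
(L (nat_lit 7116215))))
(S (nat_lit 51922) (S (nat_lit 12952) (S (nat_lit 6589) (S (nat_lit 36083) (S (nat_lit 39528) (L (nat_lit 23269294))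
(L (nat_lit 12485010)))
(L (nat_lit 11928402)))
(L (nat_lit 7143826)))
(S (nat_lit 32716) (S (nat_lit 34859) (S (nat_lit 49258) (S (nat_lit 18237) (S (nat_lit 31946) (S (nat_lit 31200) (S (nat_lit 45119) (L (nat_lit 28674582))
(L (nat_lit 10406062)))
(L (nat_lit 31065543)))
(L (nat_lit 13831929)))
(L (nat_lit 1849034)))
(L (nat_lit 4108998)))
(L (nat_lit 8064409)))
(S (nat_lit 52480) (S (nat_lit 16065) (S (nat_lit 33663) (L (nat_lit 3682199))
(L (nat_lit 20006664)))
(L (nat_lit 22415114)))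
(L (nat_lit 25365047)))))
(L (nat_lit 25208525)))))
(S (nat_lit 20322) (S (nat_lit 6845) (S (nat_lit 11344) (S (nat_lit 30549) (L (nat_lit 1463208))
(L (nat_lit 7025411)))
(S (nat_lit 17071) (S (nat_lit 5863) (S (nat_lit 20996) (S (nat_lit 51260) (S (nat_lit 8286) (S (nat_lit 8033) (S (nat_lit 33451) (S (nat_lit 52657) (L (nat_lit 5675892))
(L (nat_lit 11929430)))
(L (nat_lit 10324534)))
(L (nat_lit 9887556)))
(L (nat_lit 26641686)))
(L (nat_lit 15380261)))
(L (nat_lit 21094704)))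
(L (nat_lit 15806107)))
(L (nat_lit 12214693))))
(S (nat_lit 26609) (S (nat_lit 5120) (S (nat_lit 3942) (S (nat_lit 46896) (S (nat_lit 49758) (S (nat_lit 51710) (L (nat_lit 8845028))
(L (nat_lit 15602901)))
(L (nat_lit 20453533)))
(L (nat_lit 20472097)))
(S (nat_lit 33718) (L (nat_lit 26970416))
(L (nat_lit 17540866))))
(S (nat_lit 24884) (S (nat_lit 48596) (S (nat_lit 32944) (L (nat_lit 16551222))
(L (nat_lit 30596398)))
(L (nat_lit 22458243)))
(S (nat_lit 44648) (S (nat_lit 28832) (S (nat_lit 8028) (L (nat_lit 1874668))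
(L (nat_lit 449849)))
(L (nat_lit 30836458)))
(L (nat_lit 25677959)))))
(S (nat_lit 46373) (S (nat_lit 13129) (S (nat_lit 11121) (L (nat_lit 5056979))
(S (nat_lit 50514) (S (nat_lit 10230) (S (nat_lit 5120) (S (nat_lit 27608) (S (nat_lit 49258) (S (nat_lit 27132) (L (nat_lit 3730803))
(L (nat_lit 12438700)))
(L (nat_lit 22373829)))
(L (nat_lit 16571744)))
(L (nat_lit 833223)))
(L (nat_lit 26531297)))
(L (nat_lit 5028455))))
(S (nat_lit 32893) (S (nat_lit 13180) (L (nat_lit 9963130))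
(L (nat_lit 22950178)))
(S (nat_lit 52657) (S (nat_lit 27776) (L (nat_lit 18079489))
(S (nat_lit 40310) (S (nat_lit 38645) (L (nat_lit 3950801))
(L (nat_lit 18606246)))
(L (nat_lit 10143556))))
(L (nat_lit 25206414)))))
(L (nat_lit 25629973)))))
(S (nat_lit 40086) (S (nat_lit 10482) (S (nat_lit 11436) (S (nat_lit 39782) (S (nat_lit 37817) (L (nat_lit 12435042))
(L (nat_lit 23459202)))
(L (nat_lit 17028248)))
(S (nat_lit 31200) (S (nat_lit 53457) (S (nat_lit 41304) (S (nat_lit 46894) (L (nat_lit 16967272))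
(L (nat_lit 8209522)))
(L (nat_lit 3432914)))
(L (nat_lit 4776245)))
(S (nat_lit 50964) (S (nat_lit 13129) (S (nat_lit 41984) (L (nat_lit 24360803))
(L (nat_lit 23299855)))
(L (nat_lit 24917315)))
(L (nat_lit 25741635)))))
(S (nat_lit 30246) (S (nat_lit 254) (S (nat_lit 41053) (S (nat_lit 57581) (S (nat_lit 51710) (L (nat_lit 29577636))
(L (nat_lit 2861870)))
(L (nat_lit 2906478)))
(L (nat_lit 24979906)))
(S (nat_lit 20018) (S (nat_lit 5863) (S (nat_lit 31496) (S (nat_lit 29494) (L (nat_lit 13509682))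
(L (nat_lit 30956614)))
(L (nat_lit 24306030)))
(S (nat_lit 35412) (L (nat_lit 18109187))
(L (nat_lit 26289589))))
(S (nat_lit 39782) (S (nat_lit 13929) (S (nat_lit 14594) (S (nat_lit 31200) (L (nat_lit 21538661))
(L (nat_lit 24371217)))
(L (nat_lit 12324465)))
(L (nat_lit 1298968)))
(L (nat_lit 25384321)))))
(S (nat_lit 50010) (S (nat_lit 0) (S (nat_lit 7098) (S (nat_lit 52657) (S (nat_lit 1584) (L (nat_lit 20386041))
(L (nat_lit 27515916)))
(L (nat_lit 11929241)))
(L (nat_lit 14386086)))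
(S (nat_lit 19764) (S (nat_lit 13687) (S (nat_lit 14903) (L (nat_lit 11929458))
(L (nat_lit 11661874)))
(L (nat_lit 26773875)))
(S (nat_lit 39528) (S (nat_lit 31200) (S (nat_lit 8286) (S (nat_lit 807) (L (nat_lit 23598331))
(L (nat_lit 14587122)))
(L (nat_lit 11695724)))
(S (nat_lit 41113) (L (nat_lit 14587122))
(L (nat_lit 9953893))))
(L (nat_lit 25211494)))))
(L (nat_lit 25399920)))))
(L (nat_lit 25242220)))))
(S (nat_lit 48317) (S (nat_lit 18053) (S (nat_lit 5591) (S (nat_lit 782) (S (nat_lit 5863) (L (nat_lit 19801198))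
(L (nat_lit 16625282)))
(S (nat_lit 20546) (S (nat_lit 3942) (S (nat_lit 52480) (S (nat_lit 38001) (S (nat_lit 50514) (S (nat_lit 34409) (S (nat_lit 5120) (L (nat_lit 29013283))
(L (nat_lit 19707172)))
(L (nat_lit 31079716)))
(L (nat_lit 20035963)))
(L (nat_lit 7159927)))
(L (nat_lit 22503591)))
(L (nat_lit 19390756)))
(S (nat_lit 40310) (S (nat_lit 10927) (L (nat_lit 18543754))
(S (nat_lit 22963) (S (nat_lit 41304) (L (nat_lit 29016230))
(L (nat_lit 7079564)))
(L (nat_lit 6313740))))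
(L (nat_lit 25663177)))))
(S (nat_lit 25355) (S (nat_lit 1472) (S (nat_lit 2198) (S (nat_lit 38001) (S (nat_lit 41304) (S (nat_lit 39556) (L (nat_lit 31171012))
(L (nat_lit 12365877)))
(L (nat_lit 7014284)))
(L (nat_lit 7212567)))
(L (nat_lit 17572919)))
(S (nat_lit 21236) (S (nat_lit 34409) (S (nat_lit 50514) (L (nat_lit 14999575))
(L (nat_lit 15294785)))
(L (nat_lit 16555026)))
(S (nat_lit 41000) (S (nat_lit 53427) (S (nat_lit 2456) (L (nat_lit 15804183))
(L (nat_lit 2927341)))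
(L (nat_lit 8164855)))
(L (nat_lit 25595126)))))
(S (nat_lit 45119) (S (nat_lit 13869) (S (nat_lit 41304) (S (nat_lit 40760) (L (nat_lit 1877644))
(L (nat_lit 27700930)))
(L (nat_lit 7079596)))
(S (nat_lit 33633) (S (nat_lit 13150) (S (nat_lit 20546) (S (nat_lit 27352) (S (nat_lit 41984) (L (nat_lit 10673039))
(L (nat_lit 12486071)))
(L (nat_lit 5940046)))
(L (nat_lit 11655985)))
(L (nat_lit 24970446)))
(S (nat_lit 53397) (S (nat_lit 20018) (S (nat_lit 49258) (S (nat_lit 21261) (S (nat_lit 39249) (S (nat_lit 5120) (L (nat_lit 2988503))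
(L (nat_lit 8435639)))
(L (nat_lit 30560559)))
(L (nat_lit 21323884)))
(L (nat_lit 7489463)))
(L (nat_lit 22452106)))
(L (nat_lit 25859405)))))
(L (nat_lit 25348366)))))
(S (nat_lit 37817) (S (nat_lit 5863) (S (nat_lit 7364) (S (nat_lit 33885) (S (nat_lit 13869) (L (nat_lit 22208780))
(L (nat_lit 1451797)))
(L (nat_lit 23863684)))
(S (nat_lit 27128) (S (nat_lit 18359) (L (nat_lit 667532))
(S (nat_lit 41726) (S (nat_lit 39731) (L (nat_lit 16390267))
(L (nat_lit 841162)))
(L (nat_lit 23963076))))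
(S (nat_lit 46892) (S (nat_lit 51922) (S (nat_lit 24690) (S (nat_lit 39528) (L (nat_lit 29476551))
(L (nat_lit 17663218)))
(L (nat_lit 9519802)))
(L (nat_lit 22906346)))
(L (nat_lit 25480241)))))
(S (nat_lit 25627) (S (nat_lit 4446) (S (nat_lit 10986) (L (nat_lit 1503602))
(L (nat_lit 21426528)))
(S (nat_lit 24210) (S (nat_lit 20571) (S (nat_lit 23484) (L (nat_lit 28498342))
(L (nat_lit 18012508)))
(L (nat_lit 11721517)))
(S (nat_lit 43974) (S (nat_lit 13687) (S (nat_lit 15431) (L (nat_lit 27790984))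
(L (nat_lit 23488586)))
(L (nat_lit 22555675)))
(L (nat_lit 25647296)))))
(S (nat_lit 45391) (S (nat_lit 12182) (S (nat_lit 39528) (S (nat_lit 52678) (S (nat_lit 54850) (L (nat_lit 5960972))
(L (nat_lit 11393105)))
(L (nat_lit 21792136)))
(L (nat_lit 23524544)))
(S (nat_lit 31946) (S (nat_lit 50514) (S (nat_lit 39556) (S (nat_lit 53215) (L (nat_lit 17540933))
(L (nat_lit 12127054)))
(L (nat_lit 11630005)))
(L (nat_lit 4796795)))
(S (nat_lit 51710) (S (nat_lit 21289) (S (nat_lit 5120) (S (nat_lit 33693) (L (nat_lit 10672940))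
(L (nat_lit 23209773)))
(L (nat_lit 19705220)))
(S (nat_lit 32278) (L (nat_lit 4503226))
(L (nat_lit 22548394))))
(L (nat_lit 25383328)))))
(L (nat_lit 25690452)))))
(S (nat_lit 57581) (S (nat_lit 0) (S (nat_lit 20675) (L (nat_lit 30049671))
(S (nat_lit 33633) (S (nat_lit 19485) (S (nat_lit 8028) (L (nat_lit 8808128))
(L (nat_lit 13949976)))
(L (nat_lit 12407331)))
(L (nat_lit 20342081))))
(S (nat_lit 19764) (S (nat_lit 15095) (S (nat_lit 33633) (S (nat_lit 27130) (S (nat_lit 47561) (S (nat_lit 39782) (L (nat_lit 4539069))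
(L (nat_lit 11626096)))
(L (nat_lit 27692776)))
(L (nat_lit 2664189)))
(L (nat_lit 15541985)))
(S (nat_lit 34859) (S (nat_lit 12394) (L (nat_lit 23496582))
(L (nat_lit 16025362)))
(S (nat_lit 54623) (S (nat_lit 46892) (S (nat_lit 13378) (L (nat_lit 14856018))
(L (nat_lit 6704314)))
(L (nat_lit 22553658)))
(L (nat_lit 25417090)))))
(S (nat_lit 39528) (S (nat_lit 754) (S (nat_lit 27352) (S (nat_lit 24690) (S (nat_lit 19820) (L (nat_lit 29903880))
(L (nat_lit 16631851)))
(L (nat_lit 21792167)))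
(L (nat_lit 12081989)))
(S (nat_lit 20518) (S (nat_lit 33663) (S (nat_lit 24690) (L (nat_lit 21087548))
(L (nat_lit 30811781)))
(S (nat_lit 38595) (S (nat_lit 57103) (L (nat_lit 2842894))
(L (nat_lit 15478403)))
(L (nat_lit 2310874))))
(S (nat_lit 40282) (S (nat_lit 35268) (L (nat_lit 18444613))
(S (nat_lit 41000) (S (nat_lit 31200) (S (nat_lit 40760) (S (nat_lit 8286) (S (nat_lit 33633) (S (nat_lit 53427) (L (nat_lit 24428602))
(L (nat_lit 4418039)))
(L (nat_lit 11560373)))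
(L (nat_lit 11949956)))
(L (nat_lit 27668160)))
(L (nat_lit 24348527)))
(L (nat_lit 4595354))))
(L (nat_lit 25615587)))))
(L (nat_lit 25212147)))))
(L (nat_lit 25498190)))))
(L (nat_lit 25473604)))))
(S (nat_lit 49060) (S (nat_lit 28) (S (nat_lit 28050) (S (nat_lit 19764) (S (nat_lit 39584) (S (nat_lit 21169) (L (nat_lit 9990166))
(S (nat_lit 50964) (S (nat_lit 33693) (S (nat_lit 47561) (S (nat_lit 39782) (S (nat_lit 50514) (S (nat_lit 54850) (S (nat_lit 34358) (L (nat_lit 9582487))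
(L (nat_lit 23378692)))
(L (nat_lit 18916924)))
(L (nat_lit 5518011)))
(L (nat_lit 3560299)))
(L (nat_lit 20319016)))
(L (nat_lit 20103418)))
(L (nat_lit 510791))))
(L (nat_lit 24643499)))
(L (nat_lit 16647410)))
(L (nat_lit 7734972)))
(S (nat_lit 19792) (S (nat_lit 6596) (S (nat_lit 52708) (S (nat_lit 18715) (S (nat_lit 19820) (S (nat_lit 28050) (S (nat_lit 19764) (S (nat_lit 50514) (S (nat_lit 45119) (S (nat_lit 21739) (L (nat_lit 5557692))
(L (nat_lit 22360221)))
(L (nat_lit 10340898)))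
(L (nat_lit 22133511)))
(L (nat_lit 21824748)))
(L (nat_lit 15533675)))
(L (nat_lit 16484235)))
(L (nat_lit 15852755)))
(L (nat_lit 12387795)))
(S (nat_lit 26360) (S (nat_lit 8033) (S (nat_lit 12952) (S (nat_lit 47116) (S (nat_lit 43974) (S (nat_lit 26862) (L (nat_lit 22315579))
(L (nat_lit 16024372)))
(L (nat_lit 23869633)))
(L (nat_lit 9565618)))
(S (nat_lit 32716) (S (nat_lit 32944) (L (nat_lit 30934388))
(L (nat_lit 16548552)))
(S (nat_lit 52480) (S (nat_lit 54122) (S (nat_lit 55847) (L (nat_lit 7796420))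
(L (nat_lit 10060655)))
(L (nat_lit 28032228)))
(L (nat_lit 25253354)))))
(S (nat_lit 27797) (S (nat_lit 33663) (S (nat_lit 3942) (S (nat_lit 5120) (S (nat_lit 50964) (L (nat_lit 312082))
(L (nat_lit 22144367)))
(L (nat_lit 16535687)))
(L (nat_lit 14804338)))
(S (nat_lit 37956) (S (nat_lit 58243) (L (nat_lit 14942940))
(L (nat_lit 27385200)))
(L (nat_lit 15822039))))
(S (nat_lit 47561) (S (nat_lit 38425) (L (nat_lit 22157885))
(S (nat_lit 50514) (S (nat_lit 3942) (S (nat_lit 28050) (S (nat_lit 19764) (S (nat_lit 33142) (S (nat_lit 20322) (L (nat_lit 28499185))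
(L (nat_lit 30769772)))
(L (nat_lit 30490217)))
(L (nat_lit 9864019)))
(L (nat_lit 5691179)))
(L (nat_lit 20374667)))
(L (nat_lit 22456477))))
(L (nat_lit 25610468)))))
(S (nat_lit 46124) (S (nat_lit 28050) (S (nat_lit 50514) (S (nat_lit 19820) (S (nat_lit 13180) (S (nat_lit 47561) (S (nat_lit 20018) (L (nat_lit 4617899))
(L (nat_lit 8470139)))
(L (nat_lit 22318554)))
(L (nat_lit 22382042)))
(L (nat_lit 10323351)))
(L (nat_lit 22143431)))
(L (nat_lit 24970509)))
(L (nat_lit 25448624)))))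
(S (nat_lit 39556) (S (nat_lit 14121) (S (nat_lit 11732) (S (nat_lit 18053) (S (nat_lit 7366) (S (nat_lit 27792) (S (nat_lit 37339) (L (nat_lit 2897234))
(L (nat_lit 14011234)))
(L (nat_lit 8009788)))
(L (nat_lit 23990478)))
(S (nat_lit 37817) (S (nat_lit 19764) (S (nat_lit 34859) (S (nat_lit 25355) (L (nat_lit 21116710))
(L (nat_lit 17714434)))
(L (nat_lit 1517241)))
(L (nat_lit 9307756)))
(S (nat_lit 57581) (S (nat_lit 26862) (S (nat_lit 40310) (S (nat_lit 254) (L (nat_lit 28453583))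
(L (nat_lit 4615415)))
(L (nat_lit 5128439)))
(S (nat_lit 53134) (L (nat_lit 4006541))
(L (nat_lit 15270268))))
(L (nat_lit 25825646)))))
(S (nat_lit 31496) (S (nat_lit 26360) (S (nat_lit 28050) (S (nat_lit 50514) (S (nat_lit 34358) (S (nat_lit 19764) (L (nat_lit 26521620))
(L (nat_lit 22873479)))
(L (nat_lit 3470804)))
(L (nat_lit 22143431)))
(L (nat_lit 24970509)))
(L (nat_lit 19334489)))
(S (nat_lit 51260) (S (nat_lit 6845) (S (nat_lit 1006) (S (nat_lit 46892) (S (nat_lit 25355) (L (nat_lit 6473433))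
(L (nat_lit 12389879)))
(L (nat_lit 20111751)))
(L (nat_lit 26681397)))
(S (nat_lit 26609) (S (nat_lit 46124) (S (nat_lit 53457) (S (nat_lit 46896) (L (nat_lit 6115879))
(L (nat_lit 5955884)))
(L (nat_lit 5062903)))
(L (nat_lit 5731669)))
(S (nat_lit 46373) (S (nat_lit 46124) (L (nat_lit 17073975))
(L (nat_lit 27373941)))
(L (nat_lit 25348587)))))
(L (nat_lit 25800196)))))
(S (nat_lit 33885) (S (nat_lit 10805) (S (nat_lit 27792) (L (nat_lit 21171609))
(L (nat_lit 7756828)))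
(S (nat_lit 54850) (S (nat_lit 5120) (S (nat_lit 49258) (S (nat_lit 27792) (S (nat_lit 23484) (S (nat_lit 20322) (S (nat_lit 33693) (L (nat_lit 16968981))
(L (nat_lit 12215840)))
(L (nat_lit 1828076)))
(L (nat_lit 7788636)))
(L (nat_lit 16413737)))
(L (nat_lit 13982876)))
(L (nat_lit 16084676)))
(L (nat_lit 4957756))))
(S (nat_lit 53649) (S (nat_lit 6370) (S (nat_lit 13869) (S (nat_lit 27797) (S (nat_lit 46626) (S (nat_lit 42478) (L (nat_lit 24131338))
(L (nat_lit 23459234)))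
(L (nat_lit 18656340)))
(L (nat_lit 16026549)))
(S (nat_lit 33633) (S (nat_lit 27797) (S (nat_lit 2198) (S (nat_lit 40086) (L (nat_lit 28529060))
(L (nat_lit 23397228)))
(L (nat_lit 7090199)))
(L (nat_lit 16386984)))
(S (nat_lit 53397) (S (nat_lit 57581) (S (nat_lit 28832) (L (nat_lit 29656471))
(L (nat_lit 18525209)))
(L (nat_lit 27592268)))
(L (nat_lit 25596245)))))
(S (nat_lit 26134) (S (nat_lit 6845) (S (nat_lit 55593) (S (nat_lit 31946) (L (nat_lit 4583826))
(L (nat_lit 4974958)))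
(L (nat_lit 8271893)))
(S (nat_lit 26609) (S (nat_lit 33451) (S (nat_lit 16319) (S (nat_lit 51922) (L (nat_lit 16965906))
(L (nat_lit 4716231)))
(L (nat_lit 24522499)))
(L (nat_lit 9456494)))
(S (nat_lit 46373) (S (nat_lit 18715) (S (nat_lit 50514) (L (nat_lit 17717286))
(L (nat_lit 22143367)))
(L (nat_lit 18635969)))
(L (nat_lit 25666581)))))
(S (nat_lit 45898) (S (nat_lit 8033) (S (nat_lit 53427) (L (nat_lit 18755268))
(L (nat_lit 6079701)))
(S (nat_lit 27797) (S (nat_lit 32796) (L (nat_lit 15501650))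
(S (nat_lit 52480) (S (nat_lit 20546) (S (nat_lit 49258) (L (nat_lit 1910295))
(L (nat_lit 9526745)))
(L (nat_lit 6972932)))
(L (nat_lit 6980156))))
(S (nat_lit 47561) (S (nat_lit 52906) (S (nat_lit 41726) (L (nat_lit 4924204))
(L (nat_lit 27894799)))
(L (nat_lit 27966473)))
(L (nat_lit 25542212)))))
(L (nat_lit 25418829)))))
(L (nat_lit 25549965)))))
(L (nat_lit 25479587)))))
(L (nat_lit 25319947)))))
(S (nat_lit 35337) (S (nat_lit 6596) (S (nat_lit 14624) (S (nat_lit 7588) (S (nat_lit 6591) (S (nat_lit 6589) (S (nat_lit 56) (S (nat_lit 13129) (S (nat_lit 1975) (S (nat_lit 44648) (L (nat_lit 7856709))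
(L (nat_lit 23632645)))
(L (nat_lit 11691509)))
(L (nat_lit 14387112)))
(S (nat_lit 28477) (S (nat_lit 36611) (S (nat_lit 3942) (L (nat_lit 778760))
(L (nat_lit 14790418)))
(L (nat_lit 23586053)))
(L (nat_lit 2012407))))
(L (nat_lit 13756041)))
(S (nat_lit 26355) (S (nat_lit 782) (S (nat_lit 6589) (L (nat_lit 21095725))
(L (nat_lit 6412730)))
(L (nat_lit 8510012)))
(S (nat_lit 46119) (S (nat_lit 17071) (S (nat_lit 1776) (L (nat_lit 9556507))
(L (nat_lit 9558860)))
(L (nat_lit 9560652)))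
(L (nat_lit 25761900)))))
(S (nat_lit 27352) (S (nat_lit 6589) (S (nat_lit 20546) (S (nat_lit 13899) (L (nat_lit 10612245))
(L (nat_lit 13751112)))
(L (nat_lit 11655984)))
(S (nat_lit 26353) (L (nat_lit 9558894))
(S (nat_lit 46117) (S (nat_lit 12394) (S (nat_lit 26355) (S (nat_lit 18715) (S (nat_lit 39556) (L (nat_lit 30129508))
(L (nat_lit 11645532)))
(L (nat_lit 18538630)))
(L (nat_lit 31000007)))
(S (nat_lit 32158) (S (nat_lit 9532) (S (nat_lit 52657) (L (nat_lit 12014341))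
(L (nat_lit 12235961)))
(S (nat_lit 34461) (L (nat_lit 18110621))
(L (nat_lit 26728491))))
(S (nat_lit 51922) (S (nat_lit 19485) (S (nat_lit 26355) (L (nat_lit 350715))
(L (nat_lit 16483239)))
(L (nat_lit 12079288)))
(L (nat_lit 25723594)))))
(L (nat_lit 25664567)))))
(S (nat_lit 47116) (S (nat_lit 2456) (S (nat_lit 254) (S (nat_lit 13869) (S (nat_lit 18237) (S (nat_lit 52480) (S (nat_lit 44648) (S (nat_lit 47563) (L (nat_lit 28431818))
(L (nat_lit 8436503)))
(L (nat_lit 5741335)))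
(L (nat_lit 9253047)))
(L (nat_lit 800458)))
(L (nat_lit 26616887)))
(L (nat_lit 2348445)))
(S (nat_lit 22220) (S (nat_lit 5863) (S (nat_lit 17071) (S (nat_lit 47372) (S (nat_lit 3942) (S (nat_lit 20018) (S (nat_lit 11436) (S (nat_lit 50514) (L (nat_lit 19996218))
(L (nat_lit 22110599)))
(L (nat_lit 21533607)))
(L (nat_lit 22175952)))
(L (nat_lit 18998640)))
(L (nat_lit 648647)))
(L (nat_lit 16901706)))
(L (nat_lit 15984259)))
(S (nat_lit 41984) (S (nat_lit 19485) (S (nat_lit 782) (S (nat_lit 25627) (S (nat_lit 12394) (L (nat_lit 28749507))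
(L (nat_lit 16025367)))
(L (nat_lit 22101770)))
(L (nat_lit 1548028)))
(S (nat_lit 39249) (S (nat_lit 782) (S (nat_lit 39782) (S (nat_lit 0) (S (nat_lit 52480) (L (nat_lit 28748855))
(L (nat_lit 9243344)))
(L (nat_lit 1683704)))
(L (nat_lit 1687466)))
(L (nat_lit 14491333)))
(S (nat_lit 59013) (S (nat_lit 15095) (S (nat_lit 12394) (S (nat_lit 31200) (S (nat_lit 3942) (S (nat_lit 55593) (L (nat_lit 12797979))
(L (nat_lit 10159024)))
(L (nat_lit 26710386)))
(L (nat_lit 13862586)))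
(L (nat_lit 26794339)))
(S (nat_lit 19151) (L (nat_lit 18172092))
(L (nat_lit 13231272))))
(L (nat_lit 25899301)))))
(L (nat_lit 25801771)))))
(L (nat_lit 25743430)))))
(S (nat_lit 34388) (S (nat_lit 1525) (S (nat_lit 18237) (S (nat_lit 558) (S (nat_lit 51922) (S (nat_lit 54122) (S (nat_lit 43974) (L (nat_lit 29721168))
(L (nat_lit 6021329)))
(L (nat_lit 6022600)))
(L (nat_lit 13555754)))
(S (nat_lit 20322) (S (nat_lit 7588) (S (nat_lit 4446) (L (nat_lit 18075396))
(L (nat_lit 783601)))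
(L (nat_lit 8512142)))
(S (nat_lit 40086) (S (nat_lit 7243) (L (nat_lit 12867676))
(S (nat_lit 18715) (S (nat_lit 8789) (L (nat_lit 22481116))
(L (nat_lit 23194154)))
(L (nat_lit 18582906))))
(L (nat_lit 25189580)))))
(S (nat_lit 38001) (S (nat_lit 12182) (S (nat_lit 19820) (S (nat_lit 12394) (L (nat_lit 1630826))
(L (nat_lit 9460493)))
(L (nat_lit 31169957)))
(S (nat_lit 31946) (S (nat_lit 41984) (S (nat_lit 12394) (S (nat_lit 12952) (L (nat_lit 21052795))
(L (nat_lit 26299943)))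
(L (nat_lit 15751546)))
(L (nat_lit 1956205)))
(S (nat_lit 51710) (S (nat_lit 13869) (S (nat_lit 46373) (S (nat_lit 10230) (S (nat_lit 48317) (L (nat_lit 28400042))
(L (nat_lit 12290861)))
(L (nat_lit 26760449)))
(L (nat_lit 1811930)))
(L (nat_lit 13342472)))
(L (nat_lit 25595253)))))
(S (nat_lit 57765) (S (nat_lit 1385) (L (nat_lit 7461648))
(S (nat_lit 40310) (S (nat_lit 28553) (S (nat_lit 12952) (S (nat_lit 7588) (S (nat_lit 49060) (S (nat_lit 6591) (S (nat_lit 26862) (S (nat_lit 50514) (S (nat_lit 46373) (S (nat_lit 14645) (L (nat_lit 23083292))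
(L (nat_lit 11718416)))
(L (nat_lit 1653050)))
(L (nat_lit 11980544)))
(L (nat_lit 1819002)))
(L (nat_lit 23954886)))
(L (nat_lit 10240023)))
(L (nat_lit 13280005)))
(L (nat_lit 16419591)))
(L (nat_lit 24207914)))
(L (nat_lit 24240368))))
(L (nat_lit 25867336)))))
(S (nat_lit 21289) (S (nat_lit 2950) (S (nat_lit 3942) (S (nat_lit 42390) (L (nat_lit 26392819))
(S (nat_lit 50514) (S (nat_lit 18715) (S (nat_lit 558) (S (nat_lit 7588) (S (nat_lit 27792) (S (nat_lit 46896) (L (nat_lit 28658147))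
(L (nat_lit 22255163)))
(L (nat_lit 31144225)))
(L (nat_lit 26321330)))
(L (nat_lit 12671782)))
(L (nat_lit 24241579)))
(L (nat_lit 12701019))))
(S (nat_lit 45047) (L (nat_lit 30524105))
(L (nat_lit 11658862))))
(S (nat_lit 22714) (S (nat_lit 13129) (S (nat_lit 28553) (S (nat_lit 28832) (L (nat_lit 11285685))
(L (nat_lit 13403413)))
(L (nat_lit 12673770)))
(S (nat_lit 32893) (S (nat_lit 46896) (S (nat_lit 11732) (S (nat_lit 51710) (L (nat_lit 29903018))
(L (nat_lit 448890)))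
(L (nat_lit 405084)))
(L (nat_lit 10150060)))
(S (nat_lit 52657) (S (nat_lit 54122) (S (nat_lit 39584) (S (nat_lit 9730) (L (nat_lit 21399462))
(L (nat_lit 21055238)))
(L (nat_lit 18679403)))
(L (nat_lit 6200944)))
(L (nat_lit 25867586)))))
(S (nat_lit 42478) (S (nat_lit 7588) (S (nat_lit 12952) (S (nat_lit 24690) (S (nat_lit 26355) (L (nat_lit 15904658))
(L (nat_lit 15821382)))
(L (nat_lit 30484111)))
(L (nat_lit 21067056)))
(S (nat_lit 52298) (L (nat_lit 9516636))
(L (nat_lit 23110414))))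
(L (nat_lit 25381009)))))
(S (nat_lit 41053) (S (nat_lit 807) (S (nat_lit 17071) (S (nat_lit 57581) (S (nat_lit 41304) (L (nat_lit 17947562))
(L (nat_lit 18112690)))
(L (nat_lit 13454346)))
(S (nat_lit 36835) (S (nat_lit 7588) (S (nat_lit 18053) (S (nat_lit 40310) (S (nat_lit 21739) (S (nat_lit 28553) (S (nat_lit 54431) (L (nat_lit 6375160))
(L (nat_lit 17944794)))
(L (nat_lit 19161637)))
(L (nat_lit 30455434)))
(L (nat_lit 23993489)))
(L (nat_lit 17849258)))
(L (nat_lit 10544846)))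
(S (nat_lit 56599) (S (nat_lit 41726) (S (nat_lit 38001) (L (nat_lit 17702037))
(L (nat_lit 13654236)))
(L (nat_lit 23596970)))
(L (nat_lit 25764972)))))
(S (nat_lit 20571) (S (nat_lit 1776) (S (nat_lit 35086) (L (nat_lit 29546986))
(L (nat_lit 3037736)))
(S (nat_lit 21540) (S (nat_lit 6845) (S (nat_lit 14645) (S (nat_lit 12182) (L (nat_lit 18733192))
(L (nat_lit 16601442)))
(L (nat_lit 24649476)))
(L (nat_lit 7060508)))
(S (nat_lit 41304) (S (nat_lit 3942) (S (nat_lit 44454) (S (nat_lit 56) (S (nat_lit 6591) (L (nat_lit 28390090))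
(L (nat_lit 14410854)))
(L (nat_lit 14410981)))
(L (nat_lit 12314117)))
(L (nat_lit 14804338)))
(L (nat_lit 25272972)))))
(S (nat_lit 40335) (S (nat_lit 7844) (S (nat_lit 9532) (L (nat_lit 783912))
(S (nat_lit 16174) (S (nat_lit 39092) (S (nat_lit 3942) (S (nat_lit 39584) (S (nat_lit 34358) (L (nat_lit 29658546))
(L (nat_lit 8280516)))
(L (nat_lit 28029962)))
(L (nat_lit 19326244)))
(L (nat_lit 1402574)))
(L (nat_lit 23561995))))
(S (nat_lit 27608) (S (nat_lit 12182) (S (nat_lit 40282) (S (nat_lit 15095) (L (nat_lit 25017478))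
(L (nat_lit 13231458)))
(L (nat_lit 7788732)))
(S (nat_lit 31628) (L (nat_lit 3760678))
(L (nat_lit 23617671))))
(S (nat_lit 47372) (S (nat_lit 48596) (S (nat_lit 33693) (S (nat_lit 28553) (L (nat_lit 10375279))
(L (nat_lit 24207754)))
(L (nat_lit 30643733)))
(L (nat_lit 27311691)))
(L (nat_lit 25409587)))))
(L (nat_lit 25936160)))))
(L (nat_lit 25337519)))))
(S (nat_lit 54152) (S (nat_lit 5863) (S (nat_lit 11436) (S (nat_lit 18715) (S (nat_lit 17071) (L (nat_lit 21081593))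
(L (nat_lit 26336746)))
(L (nat_lit 24241520)))
(S (nat_lit 31200) (S (nat_lit 16065) (S (nat_lit 48596) (L (nat_lit 11657039))
(L (nat_lit 11646771)))
(L (nat_lit 14804650)))
(S (nat_lit 50964) (S (nat_lit 33663) (S (nat_lit 50514) (S (nat_lit 17071) (S (nat_lit 3942) (S (nat_lit 16065) (S (nat_lit 18715) (S (nat_lit 48317) (L (nat_lit 15927093))
(L (nat_lit 11645747)))
(L (nat_lit 26334576)))
(L (nat_lit 26329770)))
(L (nat_lit 26332528)))
(L (nat_lit 11657804)))
(L (nat_lit 12701053)))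
(L (nat_lit 23183740)))
(L (nat_lit 25894927)))))
(S (nat_lit 25627) (S (nat_lit 3199) (S (nat_lit 2198) (S (nat_lit 16509) (L (nat_lit 30514645))
(S (nat_lit 28832) (S (nat_lit 28) (L (nat_lit 26662058))
(L (nat_lit 14489652)))
(L (nat_lit 30518677))))
(S (nat_lit 21962) (S (nat_lit 36611) (S (nat_lit 40760) (S (nat_lit 754) (L (nat_lit 11454852))
(L (nat_lit 26224148)))
(L (nat_lit 23505946)))
(L (nat_lit 20374788)))
(S (nat_lit 41726) (S (nat_lit 27352) (S (nat_lit 28) (S (nat_lit 5591) (S (nat_lit 19485) (L (nat_lit 10160701))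
(L (nat_lit 26947939)))
(L (nat_lit 8507150)))
(L (nat_lit 13952052)))
(L (nat_lit 30955781)))
(L (nat_lit 25397719)))))
(S (nat_lit 22963) (S (nat_lit 34971) (L (nat_lit 320916))
(S (nat_lit 53215) (S (nat_lit 21739) (S (nat_lit 7364) (S (nat_lit 56599) (S (nat_lit 20546) (L (nat_lit 15740572))
(L (nat_lit 21045041)))
(L (nat_lit 7160453)))
(L (nat_lit 21898628)))
(S (nat_lit 41425) (L (nat_lit 31070756))
(L (nat_lit 21206798))))
(L (nat_lit 21507100))))
(S (nat_lit 42727) (S (nat_lit 8614) (L (nat_lit 12936769))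
(S (nat_lit 18715) (S (nat_lit 40760) (S (nat_lit 54173) (S (nat_lit 27132) (L (nat_lit 22093370))
(L (nat_lit 12248609)))
(L (nat_lit 21826982)))
(L (nat_lit 343802)))
(L (nat_lit 24634724))))
(L (nat_lit 25865393)))))
(S (nat_lit 45391) (S (nat_lit 3199) (S (nat_lit 33451) (S (nat_lit 28050) (S (nat_lit 32716) (S (nat_lit 48317) (S (nat_lit 36083) (S (nat_lit 31200) (S (nat_lit 24690) (L (nat_lit 9614010))
(L (nat_lit 21374012)))
(L (nat_lit 14288743)))
(L (nat_lit 214715)))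
(L (nat_lit 22111501)))
(L (nat_lit 31037988)))
(S (nat_lit 48031) (L (nat_lit 4442002))
(L (nat_lit 18946620))))
(S (nat_lit 57008) (S (nat_lit 56150) (L (nat_lit 21455974))
(L (nat_lit 22504708)))
(L (nat_lit 23455268))))
(S (nat_lit 22963) (S (nat_lit 15095) (S (nat_lit 39556) (S (nat_lit 50514) (S (nat_lit 30246) (S (nat_lit 9068) (L (nat_lit 30485073))
(L (nat_lit 6410063)))
(L (nat_lit 12931196)))
(L (nat_lit 13407604)))
(L (nat_lit 27367829)))
(S (nat_lit 34859) (S (nat_lit 9068) (S (nat_lit 45898) (S (nat_lit 48317) (L (nat_lit 28541365))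
(L (nat_lit 11650963)))
(L (nat_lit 15032340)))
(L (nat_lit 7243157)))
(S (nat_lit 54623) (S (nat_lit 13180) (S (nat_lit 55847) (S (nat_lit 32158) (L (nat_lit 8275125))
(L (nat_lit 30724643)))
(L (nat_lit 13807538)))
(L (nat_lit 12912346)))
(L (nat_lit 25306865)))))
(S (nat_lit 42727) (S (nat_lit 33693) (S (nat_lit 39249) (S (nat_lit 41503) (S (nat_lit 20546) (S (nat_lit 47556) (L (nat_lit 6741925))
(L (nat_lit 7037965)))
(L (nat_lit 16426788)))
(L (nat_lit 27308679)))
(L (nat_lit 23410876)))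
(L (nat_lit 16049333)))
(L (nat_lit 25347718)))))
(L (nat_lit 25690759)))))
(L (nat_lit 25509444)))))
(S (nat_lit 26360) (S (nat_lit 5120) (S (nat_lit 9532) (S (nat_lit 16065) (S (nat_lit 4460) (S (nat_lit 45391) (L (nat_lit 19138448))
(L (nat_lit 15599271)))
(S (nat_lit 54152) (S (nat_lit 50964) (S (nat_lit 54431) (L (nat_lit 6414960))
(L (nat_lit 18979354)))
(L (nat_lit 22537222)))
(L (nat_lit 21488900))))
(S (nat_lit 35829) (S (nat_lit 52906) (S (nat_lit 0) (S (nat_lit 11732) (L (nat_lit 29537926))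
(L (nat_lit 18525308)))
(L (nat_lit 1696135)))
(L (nat_lit 21922094)))
(S (nat_lit 55593) (S (nat_lit 5863) (S (nat_lit 48596) (S (nat_lit 47372) (S (nat_lit 0) (L (nat_lit 29441767))
(L (nat_lit 20177965)))
(L (nat_lit 10126840)))
(L (nat_lit 16418104)))
(S (nat_lit 47303) (L (nat_lit 20000221))
(L (nat_lit 15804090))))
(L (nat_lit 25378837)))))
(S (nat_lit 29296) (S (nat_lit 15322) (S (nat_lit 27792) (L (nat_lit 14719704))
(L (nat_lit 10881754)))
(S (nat_lit 35086) (S (nat_lit 13899) (S (nat_lit 30246) (L (nat_lit 29381067))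
(L (nat_lit 30811748)))
(L (nat_lit 14489288)))
(S (nat_lit 54850) (S (nat_lit 27792) (S (nat_lit 34859) (L (nat_lit 29481260))
(L (nat_lit 23563577)))
(L (nat_lit 14723804)))
(L (nat_lit 25931848)))))
(S (nat_lit 49060) (S (nat_lit 8789) (S (nat_lit 8369) (L (nat_lit 15849354))
(S (nat_lit 28050) (S (nat_lit 53215) (L (nat_lit 8508335))
(L (nat_lit 27840868)))
(L (nat_lit 15813916))))
(S (nat_lit 28553) (S (nat_lit 35086) (S (nat_lit 58243) (S (nat_lit 50514) (S (nat_lit 14624) (L (nat_lit 20048240))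
(L (nat_lit 12049316)))
(L (nat_lit 13361504)))
(L (nat_lit 10220964)))
(S (nat_lit 54766) (S (nat_lit 57244) (L (nat_lit 10098173))
(L (nat_lit 10239685)))
(L (nat_lit 8851379))))
(S (nat_lit 48317) (S (nat_lit 15322) (S (nat_lit 27792) (L (nat_lit 7114133))
(L (nat_lit 14723804)))
(S (nat_lit 39513) (L (nat_lit 317852))
(L (nat_lit 15437115))))
(L (nat_lit 25758091)))))
(L (nat_lit 25338391)))))
(S (nat_lit 24884) (S (nat_lit 17575) (S (nat_lit 2456) (S (nat_lit 11812) (L (nat_lit 21376154))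
(S (nat_lit 27792) (S (nat_lit 34859) (S (nat_lit 3199) (S (nat_lit 27130) (S (nat_lit 36835) (S (nat_lit 24210) (S (nat_lit 25627) (S (nat_lit 59013) (S (nat_lit 7098) (S (nat_lit 7720) (L (nat_lit 3844667))
(L (nat_lit 7762592)))
(L (nat_lit 13184899)))
(L (nat_lit 7037477)))
(L (nat_lit 30846069)))
(L (nat_lit 30742067)))
(L (nat_lit 30685235)))
(L (nat_lit 24364963)))
(L (nat_lit 14871924)))
(L (nat_lit 1531259)))
(L (nat_lit 24512890))))
(S (nat_lit 22220) (S (nat_lit 6001) (L (nat_lit 667564))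
(S (nat_lit 37817) (S (nat_lit 36611) (S (nat_lit 47814) (L (nat_lit 12085431))
(L (nat_lit 9062148)))
(L (nat_lit 18421544)))
(L (nat_lit 8979931))))
(S (nat_lit 41984) (S (nat_lit 16847) (S (nat_lit 59013) (S (nat_lit 15322) (S (nat_lit 7098) (L (nat_lit 29039108))
(L (nat_lit 21263877)))
(L (nat_lit 26742472)))
(L (nat_lit 15618219)))
(S (nat_lit 36611) (S (nat_lit 12394) (S (nat_lit 5591) (L (nat_lit 1814318))
(L (nat_lit 3499511)))
(S (nat_lit 50170) (L (nat_lit 2010679))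
(L (nat_lit 1879607))))
(S (nat_lit 56375) (L (nat_lit 5453563))
(L (nat_lit 25663668)))))
(L (nat_lit 25366221)))))
(S (nat_lit 37339) (S (nat_lit 12952) (S (nat_lit 20975) (S (nat_lit 34859) (L (nat_lit 10399924))
(L (nat_lit 20066683)))
(S (nat_lit 47372) (S (nat_lit 13687) (S (nat_lit 50514) (S (nat_lit 20018) (L (nat_lit 30529838))
(L (nat_lit 9589649)))
(L (nat_lit 20452731)))
(L (nat_lit 22103419)))
(L (nat_lit 27352432))))
(S (nat_lit 32716) (S (nat_lit 13129) (S (nat_lit 11408) (L (nat_lit 28619955))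
(S (nat_lit 20518) (L (nat_lit 19772708))
(L (nat_lit 30807787))))
(S (nat_lit 58349) (L (nat_lit 2960972))
(L (nat_lit 22840686))))
(S (nat_lit 52480) (S (nat_lit 18715) (S (nat_lit 26862) (S (nat_lit 54122) (S (nat_lit 54173) (L (nat_lit 20015404))
(L (nat_lit 18614642)))
(L (nat_lit 27961828)))
(L (nat_lit 15652195)))
(S (nat_lit 38479) (S (nat_lit 21540) (L (nat_lit 18580235))
(L (nat_lit 21251844)))
(S (nat_lit 58243) (S (nat_lit 21236) (L (nat_lit 16658116))
(L (nat_lit 2970960)))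
(L (nat_lit 25859499)))))
(L (nat_lit 25565828)))))
(S (nat_lit 57103) (S (nat_lit 4926) (S (nat_lit 7098) (S (nat_lit 558) (S (nat_lit 47116) (L (nat_lit 14390023))
(L (nat_lit 3723609)))
(L (nat_lit 6008588)))
(S (nat_lit 26862) (S (nat_lit 1525) (L (nat_lit 12289594))
(L (nat_lit 13816679)))
(S (nat_lit 46626) (S (nat_lit 31200) (S (nat_lit 31496) (L (nat_lit 18986823))
(L (nat_lit 17424741)))
(L (nat_lit 10371749)))
(L (nat_lit 25428652)))))
(S (nat_lit 24690) (S (nat_lit 7098) (S (nat_lit 558) (L (nat_lit 5592844))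
(L (nat_lit 13315845)))
(S (nat_lit 26862) (S (nat_lit 31200) (L (nat_lit 19774821))
(L (nat_lit 10290646)))
(S (nat_lit 46626) (S (nat_lit 5863) (S (nat_lit 39249) (S (nat_lit 31496) (L (nat_lit 28659857))
(L (nat_lit 12174245)))
(L (nat_lit 31045989)))
(L (nat_lit 15852167)))
(L (nat_lit 25318950)))))
(S (nat_lit 44454) (S (nat_lit 41304) (S (nat_lit 21962) (S (nat_lit 46117) (S (nat_lit 20546) (L (nat_lit 8280452))
(L (nat_lit 15849721)))
(L (nat_lit 12013625)))
(L (nat_lit 9921092)))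
(L (nat_lit 23267117)))
(L (nat_lit 25514403)))))
(L (nat_lit 25835875)))))
(S (nat_lit 44648) (S (nat_lit 7364) (S (nat_lit 4926) (S (nat_lit 0) (S (nat_lit 9730) (S (nat_lit 50964) (S (nat_lit 45898) (S (nat_lit 38479) (L (nat_lit 5764715))
(L (nat_lit 13915293)))
(L (nat_lit 842119)))
(L (nat_lit 20112775)))
(L (nat_lit 23894092)))
(S (nat_lit 19764) (S (nat_lit 10986) (S (nat_lit 49060) (L (nat_lit 15902546))
(L (nat_lit 10290897)))
(L (nat_lit 26301831)))
(S (nat_lit 39528) (S (nat_lit 16847) (S (nat_lit 52906) (L (nat_lit 17028120))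
(L (nat_lit 17750309)))
(L (nat_lit 10057125)))
(L (nat_lit 25610246)))))
(S (nat_lit 24690) (S (nat_lit 40534) (S (nat_lit 26355) (S (nat_lit 45898) (S (nat_lit 21540) (S (nat_lit 7366) (S (nat_lit 40335) (S (nat_lit 56599) (S (nat_lit 32944) (L (nat_lit 15345473))
(L (nat_lit 9274063)))
(L (nat_lit 6420113)))
(L (nat_lit 9986784)))
(L (nat_lit 1615610)))
(L (nat_lit 729564)))
(L (nat_lit 9308880)))
(S (nat_lit 56387) (L (nat_lit 14768412))
(L (nat_lit 24195386))))
(L (nat_lit 18216645)))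
(S (nat_lit 44454) (S (nat_lit 41304) (S (nat_lit 3942) (S (nat_lit 34388) (S (nat_lit 58243) (S (nat_lit 33451) (L (nat_lit 9194948))
(L (nat_lit 30953796)))
(L (nat_lit 28020080)))
(L (nat_lit 20422436)))
(L (nat_lit 10215876)))
(L (nat_lit 23267117)))
(L (nat_lit 25186607)))))
(S (nat_lit 27128) (S (nat_lit 3720) (S (nat_lit 3942) (S (nat_lit 15095) (S (nat_lit 33633) (S (nat_lit 39782) (S (nat_lit 27797) (S (nat_lit 28832) (L (nat_lit 10405900))
(L (nat_lit 10278273)))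
(L (nat_lit 8272981)))
(L (nat_lit 12185985)))
(L (nat_lit 12405121)))
(S (nat_lit 34859) (S (nat_lit 58243) (S (nat_lit 51922) (S (nat_lit 15322) (L (nat_lit 29377779))
(L (nat_lit 15436091)))
(L (nat_lit 15412281)))
(L (nat_lit 8099632)))
(S (nat_lit 54623) (S (nat_lit 37339) (L (nat_lit 20158320))
(L (nat_lit 23532920)))
(L (nat_lit 25499313)))))
(S (nat_lit 37663) (S (nat_lit 7139) (L (nat_lit 14960731))
(L (nat_lit 18982672)))
(L (nat_lit 14804339))))
(S (nat_lit 23484) (S (nat_lit 4446) (S (nat_lit 46626) (S (nat_lit 28553) (S (nat_lit 38001) (S (nat_lit 50010) (L (nat_lit 16485592))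
(L (nat_lit 15913739)))
(L (nat_lit 30968520)))
(L (nat_lit 9854725)))
(L (nat_lit 20742694)))
(S (nat_lit 24210) (S (nat_lit 3942) (S (nat_lit 42727) (S (nat_lit 5591) (S (nat_lit 35086) (S (nat_lit 41726) (S (nat_lit 26862) (L (nat_lit 29074540))
(L (nat_lit 14837350)))
(L (nat_lit 4744439)))
(L (nat_lit 2317068)))
(L (nat_lit 18474240)))
(L (nat_lit 10137788)))
(S (nat_lit 7865) (L (nat_lit 18179255))
(L (nat_lit 14967891))))
(S (nat_lit 43974) (S (nat_lit 3942) (S (nat_lit 26355) (S (nat_lit 9532) (L (nat_lit 9263648))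
(L (nat_lit 14867211)))
(L (nat_lit 3627782)))
(L (nat_lit 12292878)))
(L (nat_lit 25934016)))))
(S (nat_lit 43248) (S (nat_lit 17575) (S (nat_lit 3199) (S (nat_lit 3942) (S (nat_lit 27799) (S (nat_lit 27132) (S (nat_lit 27797) (S (nat_lit 9068) (L (nat_lit 17043195))
(L (nat_lit 3025301)))
(L (nat_lit 16048869)))
(L (nat_lit 31114408)))
(L (nat_lit 16474371)))
(L (nat_lit 9560656)))
(S (nat_lit 38807) (L (nat_lit 5877550))
(L (nat_lit 18886043))))
(S (nat_lit 37339) (S (nat_lit 3942) (S (nat_lit 42727) (S (nat_lit 22714) (S (nat_lit 20996) (L (nat_lit 29503799))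
(L (nat_lit 15307067)))
(L (nat_lit 6996120)))
(L (nat_lit 23991660)))
(L (nat_lit 18998640)))
(S (nat_lit 57103) (S (nat_lit 50514) (S (nat_lit 52906) (S (nat_lit 27608) (S (nat_lit 26134) (L (nat_lit 10192349))
(L (nat_lit 1764743)))
(L (nat_lit 24207815)))
(L (nat_lit 19099822)))
(L (nat_lit 15510708)))
(L (nat_lit 25570883)))))
(L (nat_lit 25597609)))))
(S (nat_lit 46892) (S (nat_lit 8789) (S (nat_lit 12182) (S (nat_lit 19485) (S (nat_lit 58243) (S (nat_lit 3942) (L (nat_lit 3883389))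
(L (nat_lit 4972848)))
(L (nat_lit 9629389)))
(L (nat_lit 18698409)))
(S (nat_lit 31946) (S (nat_lit 21289) (S (nat_lit 1006) (S (nat_lit 33633) (L (nat_lit 10965764))
(L (nat_lit 30687285)))
(L (nat_lit 5060299)))
(L (nat_lit 7486389)))
(S (nat_lit 51710) (S (nat_lit 19485) (S (nat_lit 50514) (S (nat_lit 53397) (S (nat_lit 14121) (L (nat_lit 22982948))
(L (nat_lit 13456708)))
(L (nat_lit 18092917)))
(L (nat_lit 15294817)))
(L (nat_lit 10309809)))
(L (nat_lit 25368300)))))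
(S (nat_lit 28553) (S (nat_lit 10230) (S (nat_lit 9730) (S (nat_lit 14645) (S (nat_lit 13180) (S (nat_lit 46894) (L (nat_lit 4743849))
(L (nat_lit 18633923)))
(L (nat_lit 1596730)))
(L (nat_lit 13246213)))
(S (nat_lit 12575) (S (nat_lit 53067) (L (nat_lit 23225708))
(L (nat_lit 9627341)))
(L (nat_lit 15473285))))
(S (nat_lit 29994) (S (nat_lit 16847) (S (nat_lit 12952) (S (nat_lit 9730) (S (nat_lit 13129) (S (nat_lit 14645) (S (nat_lit 40310) (L (nat_lit 28872980))
(L (nat_lit 23447300)))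
(L (nat_lit 24264456)))
(L (nat_lit 22230202)))
(L (nat_lit 21441690)))
(L (nat_lit 9524731)))
(L (nat_lit 10375653)))
(S (nat_lit 49758) (S (nat_lit 14594) (S (nat_lit 14624) (S (nat_lit 58243) (S (nat_lit 1472) (S (nat_lit 16847) (S (nat_lit 3942) (L (nat_lit 277213))
(L (nat_lit 9888354)))
(L (nat_lit 12205988)))
(L (nat_lit 12905124)))
(L (nat_lit 9551481)))
(L (nat_lit 13457669)))
(S (nat_lit 32040) (L (nat_lit 14901893))
(L (nat_lit 10226385))))
(L (nat_lit 25698454)))))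
(S (nat_lit 48317) (S (nat_lit 12952) (S (nat_lit 8286) (S (nat_lit 40310) (L (nat_lit 30975716))
(L (nat_lit 23993892)))
(L (nat_lit 26531364)))
(S (nat_lit 32716) (S (nat_lit 16847) (S (nat_lit 3942) (L (nat_lit 29965668))
(L (nat_lit 19310340)))
(L (nat_lit 22953220)))
(S (nat_lit 52480) (S (nat_lit 8286) (L (nat_lit 22097465))
(L (nat_lit 10276388)))
(L (nat_lit 25565367)))))
(L (nat_lit 25473109)))))
(L (nat_lit 25744393)))))
(L (nat_lit 25734327)))))
(S (nat_lit 46124) (S (nat_lit 28) (S (nat_lit 2198) (S (nat_lit 18715) (S (nat_lit 5591) (S (nat_lit 3942) (L (nat_lit 30903915))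
(L (nat_lit 11651888)))
(L (nat_lit 15846183)))
(S (nat_lit 38479) (S (nat_lit 16065) (S (nat_lit 50514) (S (nat_lit 44648) (S (nat_lit 13150) (S (nat_lit 3942) (S (nat_lit 25627) (L (nat_lit 5943088))
(L (nat_lit 16872103)))
(L (nat_lit 2842926)))
(L (nat_lit 7037999)))
(L (nat_lit 14967991)))
(L (nat_lit 12358255)))
(S (nat_lit 35829) (S (nat_lit 5863) (S (nat_lit 47372) (S (nat_lit 48596) (S (nat_lit 3942) (L (nat_lit 17683496))
(L (nat_lit 18982702)))
(L (nat_lit 27592085)))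
(L (nat_lit 27788501)))
(L (nat_lit 18155381)))
(S (nat_lit 55593) (S (nat_lit 50514) (S (nat_lit 5591) (S (nat_lit 46117) (S (nat_lit 3942) (S (nat_lit 51710) (S (nat_lit 32914) (L (nat_lit 27382991))
(L (nat_lit 15854313)))
(L (nat_lit 20300856)))
(L (nat_lit 18997550)))
(L (nat_lit 16870615)))
(L (nat_lit 17949289)))
(L (nat_lit 11657839)))
(L (nat_lit 25724245)))))
(S (nat_lit 58243) (S (nat_lit 3942) (S (nat_lit 254) (S (nat_lit 50010) (L (nat_lit 16902514))
(L (nat_lit 1975920)))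
(L (nat_lit 6745699)))
(L (nat_lit 20031280)))
(L (nat_lit 25733270)))))
(S (nat_lit 21962) (S (nat_lit 5863) (S (nat_lit 6370) (S (nat_lit 41053) (S (nat_lit 38001) (L (nat_lit 23618602))
(L (nat_lit 19947946)))
(L (nat_lit 6819733)))
(S (nat_lit 26134) (S (nat_lit 17071) (S (nat_lit 46896) (S (nat_lit 54850) (L (nat_lit 5498390))
(L (nat_lit 21219107)))
(L (nat_lit 5792360)))
(L (nat_lit 22536234)))
(S (nat_lit 45898) (S (nat_lit 53397) (S (nat_lit 56) (L (nat_lit 11645564))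
(L (nat_lit 12772970)))
(L (nat_lit 4907402)))
(L (nat_lit 25592554)))))
(S (nat_lit 25627) (S (nat_lit 7761) (L (nat_lit 18656993))
(S (nat_lit 27608) (S (nat_lit 28832) (S (nat_lit 16065) (S (nat_lit 40760) (S (nat_lit 41984) (S (nat_lit 12394) (L (nat_lit 22230852))
(L (nat_lit 18645642)))
(L (nat_lit 27494125)))
(L (nat_lit 24544506)))
(L (nat_lit 16868072)))
(L (nat_lit 30901557)))
(L (nat_lit 30719554))))
(S (nat_lit 45391) (S (nat_lit 27647) (L (nat_lit 26331690))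
(S (nat_lit 36835) (S (nat_lit 3942) (S (nat_lit 22714) (S (nat_lit 807) (S (nat_lit 46892) (S (nat_lit 9068) (S (nat_lit 5591) (L (nat_lit 28777650))
(L (nat_lit 26330695)))
(L (nat_lit 26660131)))
(L (nat_lit 20177317)))
(L (nat_lit 20858026)))
(L (nat_lit 17933109)))
(L (nat_lit 18982670)))
(L (nat_lit 17934131))))
(L (nat_lit 25511028)))))
(S (nat_lit 41726) (S (nat_lit 13180) (S (nat_lit 49060) (S (nat_lit 28050) (S (nat_lit 12952) (S (nat_lit 27792) (S (nat_lit 46892) (L (nat_lit 5789048))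
(L (nat_lit 20504585)))
(L (nat_lit 10534618)))
(L (nat_lit 23464714)))
(L (nat_lit 15533332)))
(S (nat_lit 52159) (S (nat_lit 19764) (L (nat_lit 8835844))
(L (nat_lit 22447322)))
(L (nat_lit 14484823))))
(S (nat_lit 32944) (S (nat_lit 9532) (S (nat_lit 56) (S (nat_lit 0) (S (nat_lit 50964) (S (nat_lit 20546) (S (nat_lit 50514) (L (nat_lit 602364))
(L (nat_lit 20046193)))
(L (nat_lit 6383313)))
(L (nat_lit 10610289)))
(L (nat_lit 20350168)))
(L (nat_lit 14354218)))
(S (nat_lit 24110) (L (nat_lit 30937706))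
(L (nat_lit 714060))))
(S (nat_lit 52708) (S (nat_lit 13899) (S (nat_lit 16065) (S (nat_lit 50514) (L (nat_lit 10581615))
(L (nat_lit 22143343)))
(L (nat_lit 14771541)))
(S (nat_lit 33663) (S (nat_lit 30246) (S (nat_lit 50964) (L (nat_lit 20743471))
(L (nat_lit 20030877)))
(L (nat_lit 11063418)))
(S (nat_lit 53427) (S (nat_lit 26862) (S (nat_lit 44648) (L (nat_lit 5588666))
(L (nat_lit 24175918)))
(L (nat_lit 8873571)))
(L (nat_lit 25271917)))))
(L (nat_lit 25515458)))))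
(L (nat_lit 25220619)))))
(S (nat_lit 19792) (S (nat_lit 50514) (S (nat_lit 8789) (S (nat_lit 4446) (S (nat_lit 558) (S (nat_lit 9730) (S (nat_lit 46626) (S (nat_lit 44648) (S (nat_lit 33142) (S (nat_lit 34358) (L (nat_lit 7425903))
(L (nat_lit 15005285)))
(L (nat_lit 9528015)))
(L (nat_lit 24030597)))
(L (nat_lit 28033031)))
(L (nat_lit 2770699)))
(S (nat_lit 3024) (L (nat_lit 16976690))
(L (nat_lit 12659321))))
(S (nat_lit 24210) (S (nat_lit 34409) (S (nat_lit 38479) (S (nat_lit 52480) (S (nat_lit 29296) (S (nat_lit 558) (L (nat_lit 4597469))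
(L (nat_lit 19792262)))
(L (nat_lit 17980230)))
(L (nat_lit 22306925)))
(L (nat_lit 31180132)))
(L (nat_lit 23903588)))
(S (nat_lit 43974) (S (nat_lit 33142) (S (nat_lit 10482) (S (nat_lit 7098) (S (nat_lit 45119) (L (nat_lit 19229710))
(L (nat_lit 9551480)))
(L (nat_lit 26494565)))
(L (nat_lit 15032436)))
(L (nat_lit 769801)))
(L (nat_lit 25340403)))))
(S (nat_lit 28553) (S (nat_lit 3942) (S (nat_lit 6589) (S (nat_lit 52678) (S (nat_lit 14903) (S (nat_lit 26355) (S (nat_lit 45119) (L (nat_lit 29826071))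
(L (nat_lit 27380265)))
(L (nat_lit 9548724)))
(L (nat_lit 12699868)))
(L (nat_lit 27374313)))
(L (nat_lit 26326728)))
(L (nat_lit 11657806)))
(S (nat_lit 48317) (S (nat_lit 46117) (S (nat_lit 45119) (S (nat_lit 3942) (S (nat_lit 558) (S (nat_lit 13150) (S (nat_lit 33142) (S (nat_lit 54431) (L (nat_lit 29574162))
(L (nat_lit 17930842)))
(L (nat_lit 20003101)))
(L (nat_lit 22480090)))
(L (nat_lit 20000556)))
(L (nat_lit 26324558)))
(L (nat_lit 7468654)))
(L (nat_lit 27570882)))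
(L (nat_lit 25765413)))))
(L (nat_lit 22143431)))
(S (nat_lit 39556) (S (nat_lit 13150) (S (nat_lit 3942) (S (nat_lit 15322) (S (nat_lit 50514) (S (nat_lit 44648) (S (nat_lit 25355) (S (nat_lit 27130) (L (nat_lit 12656251))
(L (nat_lit 6477582)))
(L (nat_lit 17714434)))
(L (nat_lit 24405166)))
(S (nat_lit 53860) (L (nat_lit 4506234))
(L (nat_lit 11625071))))
(S (nat_lit 35086) (S (nat_lit 50010) (S (nat_lit 28832) (S (nat_lit 21962) (S (nat_lit 21739) (S (nat_lit 38479) (L (nat_lit 3356285))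
(L (nat_lit 5133520)))
(L (nat_lit 4549108)))
(L (nat_lit 18764996)))
(L (nat_lit 30520627)))
(L (nat_lit 3503726)))
(S (nat_lit 54850) (S (nat_lit 40760) (S (nat_lit 16065) (S (nat_lit 50514) (S (nat_lit 25627) (L (nat_lit 16887730))
(L (nat_lit 30523050)))
(L (nat_lit 12149185)))
(L (nat_lit 14803285)))
(L (nat_lit 23332378)))
(L (nat_lit 25365910)))))
(S (nat_lit 23706) (S (nat_lit 40760) (S (nat_lit 18715) (L (nat_lit 16905591))
(L (nat_lit 10606010)))
(L (nat_lit 24227354)))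
(S (nat_lit 43470) (S (nat_lit 25627) (L (nat_lit 16887483))
(L (nat_lit 13749002)))
(L (nat_lit 25432686)))))
(S (nat_lit 32914) (S (nat_lit 3720) (S (nat_lit 3942) (S (nat_lit 38479) (S (nat_lit 32893) (L (nat_lit 11616053))
(L (nat_lit 23999842)))
(L (nat_lit 1564024)))
(S (nat_lit 23706) (S (nat_lit 20770) (S (nat_lit 49758) (L (nat_lit 28619957))
(L (nat_lit 22976654)))
(L (nat_lit 22972654)))
(S (nat_lit 43470) (S (nat_lit 45119) (S (nat_lit 8035) (L (nat_lit 12060381))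
(L (nat_lit 10247310)))
(L (nat_lit 10341486)))
(L (nat_lit 25444435)))))
(S (nat_lit 23484) (S (nat_lit 0) (S (nat_lit 40534) (S (nat_lit 28832) (L (nat_lit 6960252))
(L (nat_lit 6076138)))
(L (nat_lit 23901227)))
(S (nat_lit 19764) (S (nat_lit 47563) (S (nat_lit 9730) (L (nat_lit 8576571))
(L (nat_lit 23527770)))
(L (nat_lit 22331138)))
(S (nat_lit 39528) (S (nat_lit 15095) (S (nat_lit 7844) (L (nat_lit 28397935))
(L (nat_lit 23987409)))
(L (nat_lit 5875100)))
(L (nat_lit 25565760)))))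
(S (nat_lit 43248) (S (nat_lit 10986) (S (nat_lit 26355) (L (nat_lit 31143268))
(L (nat_lit 15834714)))
(S (nat_lit 30750) (S (nat_lit 48317) (L (nat_lit 21076780))
(L (nat_lit 11658645)))
(S (nat_lit 50514) (S (nat_lit 27799) (S (nat_lit 44648) (S (nat_lit 6589) (S (nat_lit 20018) (L (nat_lit 28943778))
(L (nat_lit 5464688)))
(L (nat_lit 23561993)))
(L (nat_lit 23567173)))
(L (nat_lit 16474307)))
(L (nat_lit 25276017)))))
(L (nat_lit 25925003)))))
(S (nat_lit 52678) (S (nat_lit 3720) (S (nat_lit 13869) (S (nat_lit 14903) (S (nat_lit 39528) (L (nat_lit 30684213))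
(L (nat_lit 5698771)))
(L (nat_lit 25036296)))
(S (nat_lit 33633) (S (nat_lit 14645) (S (nat_lit 50514) (L (nat_lit 6005550))
(L (nat_lit 27530927)))
(L (nat_lit 25050468)))
(S (nat_lit 53397) (S (nat_lit 54173) (L (nat_lit 30115184))
(L (nat_lit 27809832)))
(L (nat_lit 25566945)))))
(S (nat_lit 23484) (S (nat_lit 17575) (S (nat_lit 21739) (S (nat_lit 40335) (L (nat_lit 8021038))
(L (nat_lit 18682570)))
(L (nat_lit 11155361)))
(S (nat_lit 37339) (S (nat_lit 39584) (S (nat_lit 47116) (L (nat_lit 16887452))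
(L (nat_lit 9563538)))
(L (nat_lit 11251738)))
(S (nat_lit 57103) (S (nat_lit 38479) (S (nat_lit 33693) (L (nat_lit 13823351))
(L (nat_lit 23368252)))
(L (nat_lit 12304292)))
(L (nat_lit 25579842)))))
(S (nat_lit 43248) (S (nat_lit 1497) (S (nat_lit 14903) (S (nat_lit 20996) (S (nat_lit 20546) (S (nat_lit 46117) (L (nat_lit 7459696))
(L (nat_lit 17373212)))
(L (nat_lit 12248613)))
(L (nat_lit 22125113)))
(L (nat_lit 24222268)))
(S (nat_lit 21261) (S (nat_lit 46117) (S (nat_lit 47116) (L (nat_lit 17936247))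
(L (nat_lit 17935287)))
(L (nat_lit 4792175)))
(S (nat_lit 41025) (S (nat_lit 44648) (S (nat_lit 56375) (S (nat_lit 53427) (S (nat_lit 5863) (L (nat_lit 29015079))
(L (nat_lit 17944426)))
(L (nat_lit 27379402)))
(L (nat_lit 6115816)))
(L (nat_lit 5760713)))
(L (nat_lit 25836649)))))
(L (nat_lit 25452064)))))
(L (nat_lit 25665250)))))
(L (nat_lit 25474626)))))
(L (nat_lit 25278059)))))
(S (nat_lit 55101) (S (nat_lit 1497) (S (nat_lit 14645) (S (nat_lit 1472) (S (nat_lit 14594) (S (nat_lit 5863) (S (nat_lit 8035) (S (nat_lit 16847) (S (nat_lit 12394) (S (nat_lit 38001) (S (nat_lit 38479) (S (nat_lit 41984) (S (nat_lit 14903) (L (nat_lit 3724038))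
(L (nat_lit 13912124)))
(L (nat_lit 13853379)))
(L (nat_lit 14411972)))
(L (nat_lit 14552680)))
(L (nat_lit 26592962)))
(L (nat_lit 10042557)))
(L (nat_lit 26525282)))
(L (nat_lit 10140795)))
(S (nat_lit 34358) (S (nat_lit 33142) (S (nat_lit 50514) (S (nat_lit 54152) (S (nat_lit 3942) (S (nat_lit 29494) (L (nat_lit 780656))
(L (nat_lit 12214353)))
(L (nat_lit 11657840)))
(L (nat_lit 19336968)))
(L (nat_lit 12692246)))
(L (nat_lit 9322181)))
(S (nat_lit 54122) (S (nat_lit 58243) (S (nat_lit 13378) (S (nat_lit 10230) (S (nat_lit 34388) (S (nat_lit 8035) (L (nat_lit 23313281))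
(L (nat_lit 376727)))
(L (nat_lit 7454514)))
(L (nat_lit 26525280)))
(L (nat_lit 26427077)))
(L (nat_lit 3063494)))
(L (nat_lit 25206480)))))
(S (nat_lit 21236) (S (nat_lit 16319) (S (nat_lit 12394) (S (nat_lit 6589) (S (nat_lit 14624) (L (nat_lit 21216004))
(L (nat_lit 24199080)))
(L (nat_lit 13894450)))
(S (nat_lit 32158) (S (nat_lit 1232) (S (nat_lit 25355) (S (nat_lit 39556) (S (nat_lit 39782) (L (nat_lit 21806122))
(L (nat_lit 25002378)))
(L (nat_lit 24582204)))
(L (nat_lit 12467810)))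
(L (nat_lit 5586839)))
(S (nat_lit 51922) (S (nat_lit 7366) (L (nat_lit 245527))
(L (nat_lit 1973751)))
(L (nat_lit 25481261)))))
(S (nat_lit 36083) (S (nat_lit 6845) (S (nat_lit 41984) (S (nat_lit 24884) (S (nat_lit 16847) (S (nat_lit 14624) (S (nat_lit 21644) (L (nat_lit 1263194))
(L (nat_lit 29965318)))
(L (nat_lit 24199080)))
(L (nat_lit 24264616)))
(L (nat_lit 14570788)))
(L (nat_lit 11996950)))
(S (nat_lit 26609) (S (nat_lit 50514) (S (nat_lit 25355) (L (nat_lit 22198649))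
(L (nat_lit 12471840)))
(L (nat_lit 12293595)))
(S (nat_lit 46373) (S (nat_lit 43974) (S (nat_lit 47561) (S (nat_lit 28) (L (nat_lit 22438918))
(L (nat_lit 20406499)))
(L (nat_lit 19939110)))
(L (nat_lit 12771942)))
(L (nat_lit 25933835)))))
(S (nat_lit 55847) (S (nat_lit 13150) (S (nat_lit 14624) (S (nat_lit 47561) (L (nat_lit 20035867))
(L (nat_lit 20299556)))
(L (nat_lit 24362917)))
(S (nat_lit 32914) (S (nat_lit 3720) (S (nat_lit 53649) (L (nat_lit 28706472))
(L (nat_lit 1878700)))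
(L (nat_lit 12474912)))
(S (nat_lit 52678) (S (nat_lit 34514) (L (nat_lit 11628272))
(S (nat_lit 39782) (S (nat_lit 8035) (S (nat_lit 14903) (S (nat_lit 3720) (S (nat_lit 19485) (L (nat_lit 11040485))
(L (nat_lit 16601381)))
(L (nat_lit 11688505)))
(L (nat_lit 26741970)))
(L (nat_lit 12357170)))
(L (nat_lit 11694672))))
(L (nat_lit 25482286)))))
(L (nat_lit 25368020)))))
(S (nat_lit 41000) (S (nat_lit 8028) (S (nat_lit 12182) (S (nat_lit 7844) (S (nat_lit 2198) (S (nat_lit 2456) (S (nat_lit 6589) (S (nat_lit 54850) (L (nat_lit 700300))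
(L (nat_lit 15961907)))
(L (nat_lit 14229283)))
(L (nat_lit 26459873)))
(L (nat_lit 26676842)))
(L (nat_lit 24034343)))
(L (nat_lit 6012285)))
(S (nat_lit 27792) (S (nat_lit 27797) (S (nat_lit 5591) (L (nat_lit 4865833))
(L (nat_lit 18988809)))
(L (nat_lit 19250949)))
(S (nat_lit 47556) (S (nat_lit 51922) (S (nat_lit 52906) (S (nat_lit 14624) (S (nat_lit 3720) (L (nat_lit 311095))
(L (nat_lit 10402899)))
(L (nat_lit 12435076)))
(L (nat_lit 12434454)))
(L (nat_lit 22920202)))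
(L (nat_lit 25541686)))))
(L (nat_lit 25798736)))))
(S (nat_lit 34409) (S (nat_lit 18237) (S (nat_lit 9730) (S (nat_lit 0) (S (nat_lit 10230) (S (nat_lit 42478) (L (nat_lit 30027851))
(L (nat_lit 16549109)))
(L (nat_lit 12369505)))
(S (nat_lit 19764) (S (nat_lit 18053) (S (nat_lit 40335) (S (nat_lit 21739) (L (nat_lit 30019047))
(L (nat_lit 30920004)))
(L (nat_lit 27436594)))
(L (nat_lit 7367122)))
(S (nat_lit 39528) (S (nat_lit 50964) (L (nat_lit 23312132))
(L (nat_lit 12256731)))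
(L (nat_lit 25795597)))))
(S (nat_lit 29494) (S (nat_lit 15095) (S (nat_lit 4926) (S (nat_lit 28553) (L (nat_lit 20280433))
(L (nat_lit 19194245)))
(S (nat_lit 30098) (L (nat_lit 2745709))
(L (nat_lit 20278789))))
(S (nat_lit 34859) (S (nat_lit 28832) (S (nat_lit 56599) (S (nat_lit 24884) (S (nat_lit 7098) (S (nat_lit 56) (S (nat_lit 23484) (S (nat_lit 46892) (S (nat_lit 50514) (L (nat_lit 9227404))
(L (nat_lit 4481713)))
(L (nat_lit 27892753)))
(L (nat_lit 10982042)))
(L (nat_lit 352695)))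
(L (nat_lit 23538777)))
(L (nat_lit 12095225)))
(L (nat_lit 27864480)))
(L (nat_lit 18918969)))
(S (nat_lit 54623) (S (nat_lit 24884) (S (nat_lit 28553) (S (nat_lit 9068) (S (nat_lit 7588) (S (nat_lit 40086) (L (nat_lit 18057917))
(L (nat_lit 18154418)))
(L (nat_lit 26749010)))
(L (nat_lit 21474332)))
(L (nat_lit 19292453)))
(L (nat_lit 12407173)))
(L (nat_lit 25318790)))))
(S (nat_lit 49258) (S (nat_lit 15095) (S (nat_lit 41984) (S (nat_lit 46124) (L (nat_lit 22133113))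
(L (nat_lit 27384177)))
(S (nat_lit 44729) (L (nat_lit 12422861))
(L (nat_lit 16690295))))
(S (nat_lit 34859) (S (nat_lit 56599) (S (nat_lit 32893) (S (nat_lit 33663) (S (nat_lit 56) (S (nat_lit 51710) (L (nat_lit 18514265))
(L (nat_lit 22408610)))
(L (nat_lit 20062000)))
(L (nat_lit 20391680)))
(L (nat_lit 3355507)))
(L (nat_lit 21015993)))
(S (nat_lit 54623) (S (nat_lit 43974) (S (nat_lit 46894) (L (nat_lit 9276818))
(L (nat_lit 9620953)))
(L (nat_lit 10630002)))
(L (nat_lit 25212584)))))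
(L (nat_lit 25648198)))))
(S (nat_lit 38001) (S (nat_lit 2950) (S (nat_lit 7588) (S (nat_lit 12182) (S (nat_lit 12394) (S (nat_lit 53215) (S (nat_lit 41984) (L (nat_lit 29075534))
(L (nat_lit 27733697)))
(L (nat_lit 11010716)))
(L (nat_lit 26794026)))
(L (nat_lit 23956846)))
(S (nat_lit 27352) (S (nat_lit 53215) (S (nat_lit 59013) (S (nat_lit 45119) (L (nat_lit 3698999))
(L (nat_lit 12930234)))
(L (nat_lit 19030383)))
(L (nat_lit 18950927)))
(S (nat_lit 47116) (S (nat_lit 782) (S (nat_lit 27608) (S (nat_lit 1006) (L (nat_lit 2798938))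
(L (nat_lit 19357989)))
(L (nat_lit 24676263)))
(L (nat_lit 11178928)))
(L (nat_lit 25692439)))))
(S (nat_lit 22714) (S (nat_lit 20770) (S (nat_lit 15095) (S (nat_lit 12394) (S (nat_lit 28553) (S (nat_lit 20996) (L (nat_lit 16601194))
(L (nat_lit 21315360)))
(L (nat_lit 13338939)))
(L (nat_lit 26782775)))
(L (nat_lit 3616564)))
(L (nat_lit 7006725)))
(S (nat_lit 42478) (S (nat_lit 17575) (S (nat_lit 7380) (L (nat_lit 12139330))
(S (nat_lit 8028) (L (nat_lit 12139330))
(L (nat_lit 11964121))))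
(S (nat_lit 37339) (S (nat_lit 7364) (S (nat_lit 6845) (S (nat_lit 40534) (L (nat_lit 1424277))
(L (nat_lit 1518356)))
(L (nat_lit 23969057)))
(L (nat_lit 14327556)))
(S (nat_lit 57103) (S (nat_lit 15095) (S (nat_lit 53215) (S (nat_lit 27608) (S (nat_lit 46626) (S (nat_lit 2198) (S (nat_lit 26355) (S (nat_lit 52480) (S (nat_lit 45119) (S (nat_lit 21540) (S (nat_lit 48596) (L (nat_lit 10981115))
(L (nat_lit 11124515)))
(L (nat_lit 16637156)))
(L (nat_lit 13486336)))
(L (nat_lit 9025657)))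
(L (nat_lit 24577308)))
(L (nat_lit 1680860)))
(L (nat_lit 20425755)))
(L (nat_lit 15806389)))
(L (nat_lit 21048078)))
(L (nat_lit 13965074)))
(L (nat_lit 25512386)))))
(L (nat_lit 25250097)))))
(S (nat_lit 57765) (S (nat_lit 1975) (S (nat_lit 6589) (S (nat_lit 41726) (S (nat_lit 34388) (L (nat_lit 10195419))
(L (nat_lit 20266788)))
(S (nat_lit 50384) (L (nat_lit 907754))
(L (nat_lit 14536901))))
(S (nat_lit 26353) (S (nat_lit 31496) (S (nat_lit 41726) (S (nat_lit 10482) (L (nat_lit 29006245))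
(L (nat_lit 12293006)))
(L (nat_lit 16616010)))
(L (nat_lit 19770789)))
(S (nat_lit 46117) (S (nat_lit 27352) (S (nat_lit 31496) (S (nat_lit 27797) (L (nat_lit 30805703))
(L (nat_lit 19194309)))
(L (nat_lit 19345157)))
(L (nat_lit 12432005)))
(L (nat_lit 25767944)))))
(S (nat_lit 21739) (S (nat_lit 16847) (S (nat_lit 19792) (S (nat_lit 22220) (L (nat_lit 15009464))
(L (nat_lit 21900399)))
(L (nat_lit 3828105)))
(S (nat_lit 36611) (S (nat_lit 50010) (S (nat_lit 50514) (S (nat_lit 13150) (L (nat_lit 15576676))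
(L (nat_lit 7452346)))
(L (nat_lit 12706470)))
(S (nat_lit 51597) (L (nat_lit 4039220))
(L (nat_lit 1397245))))
(S (nat_lit 56375) (S (nat_lit 29494) (S (nat_lit 32158) (S (nat_lit 54623) (S (nat_lit 34358) (L (nat_lit 28760421))
(L (nat_lit 16441416)))
(L (nat_lit 27757938)))
(L (nat_lit 8022029)))
(L (nat_lit 12083346)))
(L (nat_lit 25443973)))))
(S (nat_lit 41503) (S (nat_lit 13687) (S (nat_lit 14903) (S (nat_lit 45391) (S (nat_lit 52657) (S (nat_lit 16847) (L (nat_lit 17042044))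
(L (nat_lit 11966356)))
(L (nat_lit 6151534)))
(L (nat_lit 13271946)))
(S (nat_lit 32085) (L (nat_lit 14536742))
(L (nat_lit 12219937))))
(S (nat_lit 33451) (S (nat_lit 8286) (S (nat_lit 27797) (L (nat_lit 29376200))
(L (nat_lit 19741800)))
(L (nat_lit 13410980)))
(S (nat_lit 53215) (S (nat_lit 6589) (S (nat_lit 6596) (L (nat_lit 16834935))
(L (nat_lit 778609)))
(L (nat_lit 778664)))
(L (nat_lit 25250344)))))
(L (nat_lit 25676100)))))
(L (nat_lit 25925711)))))
(S (nat_lit 54173) (S (nat_lit 18053) (S (nat_lit 6596) (S (nat_lit 51922) (S (nat_lit 32716) (S (nat_lit 14903) (S (nat_lit 21122) (L (nat_lit 4512285))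
(L (nat_lit 897735)))
(L (nat_lit 13508722)))
(L (nat_lit 14280033)))
(L (nat_lit 6216045)))
(S (nat_lit 26360) (S (nat_lit 41984) (S (nat_lit 12394) (S (nat_lit 38001) (S (nat_lit 16847) (L (nat_lit 20067642))
(L (nat_lit 26426546)))
(L (nat_lit 13654394)))
(L (nat_lit 16537954)))
(L (nat_lit 27351405)))
(S (nat_lit 46124) (S (nat_lit 46223) (L (nat_lit 14280033))
(S (nat_lit 50514) (S (nat_lit 3942) (S (nat_lit 47372) (S (nat_lit 22220) (S (nat_lit 28) (S (nat_lit 2198) (S (nat_lit 52906) (L (nat_lit 8098332))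
(L (nat_lit 10574638)))
(L (nat_lit 17393860)))
(L (nat_lit 26286485)))
(L (nat_lit 17914235)))
(L (nat_lit 17920371)))
(L (nat_lit 4710771)))
(L (nat_lit 13197665))))
(L (nat_lit 25677962)))))
(S (nat_lit 37817) (S (nat_lit 1525) (S (nat_lit 14903) (S (nat_lit 49258) (S (nat_lit 27799) (L (nat_lit 3488629))
(L (nat_lit 19734018)))
(L (nat_lit 13919319)))
(S (nat_lit 34667) (L (nat_lit 20153851))
(S (nat_lit 54431) (S (nat_lit 6589) (S (nat_lit 32716) (S (nat_lit 18237) (L (nat_lit 2580791))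
(L (nat_lit 1632970)))
(L (nat_lit 1953258)))
(L (nat_lit 1331610)))
(L (nat_lit 25446915)))))
(S (nat_lit 21289) (S (nat_lit 13899) (S (nat_lit 6589) (S (nat_lit 32716) (L (nat_lit 26491957))
(L (nat_lit 14518578)))
(L (nat_lit 1954216)))
(S (nat_lit 33663) (S (nat_lit 42727) (S (nat_lit 5591) (S (nat_lit 29494) (L (nat_lit 28890309))
(L (nat_lit 6840407)))
(L (nat_lit 19205629)))
(L (nat_lit 15918453)))
(S (nat_lit 53427) (S (nat_lit 6589) (S (nat_lit 45898) (L (nat_lit 28400007))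
(L (nat_lit 24567882)))
(L (nat_lit 13918851)))
(L (nat_lit 25281224)))))
(S (nat_lit 41053) (S (nat_lit 14903) (S (nat_lit 3942) (S (nat_lit 50514) (S (nat_lit 18237) (L (nat_lit 28524661))
(L (nat_lit 1857905)))
(L (nat_lit 4799239)))
(L (nat_lit 12312654)))
(S (nat_lit 34667) (S (nat_lit 48596) (S (nat_lit 12394) (L (nat_lit 9551671))
(L (nat_lit 23637795)))
(L (nat_lit 20418346)))
(S (nat_lit 54431) (S (nat_lit 33633) (S (nat_lit 46124) (L (nat_lit 29071875))
(L (nat_lit 27384177)))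
(L (nat_lit 23929900)))
(L (nat_lit 25726598)))))
(L (nat_lit 25890127)))))
(S (nat_lit 57581) (S (nat_lit 7588) (S (nat_lit 8033) (S (nat_lit 41726) (S (nat_lit 6589) (S (nat_lit 7364) (L (nat_lit 13890277))
(L (nat_lit 13865629)))
(L (nat_lit 21464840)))
(L (nat_lit 12182981)))
(S (nat_lit 27797) (S (nat_lit 6589) (S (nat_lit 41503) (S (nat_lit 3942) (L (nat_lit 29561236))
(L (nat_lit 14790418)))
(L (nat_lit 2764284)))
(L (nat_lit 13918258)))
(S (nat_lit 47561) (S (nat_lit 6589) (S (nat_lit 8028) (S (nat_lit 24884) (S (nat_lit 3942) (S (nat_lit 29494) (L (nat_lit 26579346))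
(L (nat_lit 11623960)))
(L (nat_lit 19325282)))
(L (nat_lit 12402870)))
(L (nat_lit 12336832)))
(L (nat_lit 12688146)))
(L (nat_lit 25594197)))))
(S (nat_lit 27352) (S (nat_lit 22179) (L (nat_lit 1485587))
(S (nat_lit 32716) (S (nat_lit 29494) (L (nat_lit 21501702))
(L (nat_lit 19226764)))
(L (nat_lit 19771684))))
(S (nat_lit 47116) (S (nat_lit 40086) (S (nat_lit 29494) (S (nat_lit 50514) (S (nat_lit 24884) (S (nat_lit 53397) (L (nat_lit 28839626))
(L (nat_lit 27676714)))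
(L (nat_lit 3662537)))
(L (nat_lit 20373671)))
(S (nat_lit 39353) (L (nat_lit 244658))
(L (nat_lit 12673734))))
(L (nat_lit 12321202)))
(L (nat_lit 25417870)))))
(L (nat_lit 25560651)))))
(L (nat_lit 25824625)))))
(S (nat_lit 21261) (S (nat_lit 14903) (S (nat_lit 18237) (S (nat_lit 12394) (S (nat_lit 13716) (L (nat_lit 713098))
(S (nat_lit 27797) (S (nat_lit 17071) (S (nat_lit 40760) (L (nat_lit 29839714))
(L (nat_lit 2375446)))
(L (nat_lit 2384374)))
(L (nat_lit 15786229))))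
(S (nat_lit 32158) (S (nat_lit 0) (S (nat_lit 1232) (S (nat_lit 44648) (L (nat_lit 30018766))
(L (nat_lit 23113112)))
(L (nat_lit 19676386)))
(S (nat_lit 19764) (S (nat_lit 28050) (L (nat_lit 12029592))
(L (nat_lit 11422829)))
(S (nat_lit 39528) (S (nat_lit 44648) (L (nat_lit 29986158))
(L (nat_lit 23080780)))
(L (nat_lit 25179346)))))
(S (nat_lit 51922) (S (nat_lit 10482) (S (nat_lit 14424) (L (nat_lit 13861532))
(S (nat_lit 46626) (S (nat_lit 36083) (L (nat_lit 12291612))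
(L (nat_lit 13315907)))
(L (nat_lit 12313093))))
(S (nat_lit 30246) (S (nat_lit 7844) (S (nat_lit 13378) (S (nat_lit 19820) (S (nat_lit 14594) (S (nat_lit 14121) (S (nat_lit 29494) (S (nat_lit 47190) (L (nat_lit 2830683))
(L (nat_lit 6023658)))
(L (nat_lit 6834333)))
(L (nat_lit 24291768)))
(L (nat_lit 24553564)))
(L (nat_lit 3721435)))
(L (nat_lit 26444398)))
(L (nat_lit 23637053)))
(S (nat_lit 50010) (S (nat_lit 11862) (L (nat_lit 22045037))
(S (nat_lit 50514) (S (nat_lit 13378) (S (nat_lit 28553) (L (nat_lit 22384494))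
(L (nat_lit 3727669)))
(L (nat_lit 8178703)))
(L (nat_lit 14790420))))
(L (nat_lit 25568930)))))
(L (nat_lit 25723591)))))
(S (nat_lit 38001) (S (nat_lit 12182) (S (nat_lit 21236) (S (nat_lit 49758) (S (nat_lit 21289) (S (nat_lit 12394) (L (nat_lit 22319023))
(L (nat_lit 15773463)))
(L (nat_lit 11386499)))
(L (nat_lit 9288884)))
(L (nat_lit 21839173)))
(S (nat_lit 31946) (S (nat_lit 2950) (S (nat_lit 12394) (S (nat_lit 20996) (S (nat_lit 41984) (L (nat_lit 21237520))
(L (nat_lit 15819467)))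
(L (nat_lit 16081600)))
(L (nat_lit 12205827)))
(S (nat_lit 22714) (S (nat_lit 41984) (S (nat_lit 12394) (S (nat_lit 17071) (L (nat_lit 3359386))
(L (nat_lit 22143402)))
(L (nat_lit 21029354)))
(L (nat_lit 13829850)))
(S (nat_lit 42478) (S (nat_lit 16847) (S (nat_lit 8035) (S (nat_lit 46373) (L (nat_lit 10633010))
(L (nat_lit 3655994)))
(L (nat_lit 21773507)))
(L (nat_lit 11686831)))
(L (nat_lit 25280821)))))
(S (nat_lit 51710) (S (nat_lit 2198) (L (nat_lit 12725015))
(S (nat_lit 21962) (S (nat_lit 27799) (S (nat_lit 34388) (L (nat_lit 30084366))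
(L (nat_lit 23557288)))
(L (nat_lit 7397906)))
(S (nat_lit 41726) (S (nat_lit 53215) (S (nat_lit 54173) (S (nat_lit 27799) (L (nat_lit 29539639))
(L (nat_lit 4082183)))
(L (nat_lit 27823846)))
(L (nat_lit 27808097)))
(L (nat_lit 25375300)))))
(L (nat_lit 25922926)))))
(S (nat_lit 57765) (S (nat_lit 12182) (S (nat_lit 21236) (S (nat_lit 49758) (S (nat_lit 21289) (S (nat_lit 34409) (L (nat_lit 11688377))
(L (nat_lit 3004784)))
(L (nat_lit 11386499)))
(L (nat_lit 9288884)))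
(L (nat_lit 21839173)))
(S (nat_lit 31946) (S (nat_lit 37453) (L (nat_lit 13652349))
(S (nat_lit 46896) (S (nat_lit 57581) (S (nat_lit 21289) (L (nat_lit 29372046))
(L (nat_lit 21118730)))
(L (nat_lit 12022400)))
(L (nat_lit 4745832))))
(S (nat_lit 51710) (S (nat_lit 11732) (S (nat_lit 48317) (S (nat_lit 33142) (L (nat_lit 15931221))
(L (nat_lit 456297)))
(L (nat_lit 27659573)))
(S (nat_lit 31496) (S (nat_lit 40760) (S (nat_lit 13687) (L (nat_lit 6963969))
(L (nat_lit 4117000)))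
(S (nat_lit 58372) (L (nat_lit 16075525))
(L (nat_lit 24230663))))
(S (nat_lit 51260) (S (nat_lit 16319) (S (nat_lit 47116) (L (nat_lit 3428922))
(L (nat_lit 8214944)))
(L (nat_lit 22195741)))
(L (nat_lit 25412164)))))
(L (nat_lit 25766306)))))
(L (nat_lit 25179511)))))
(S (nat_lit 34667) (S (nat_lit 13129) (S (nat_lit 11732) (S (nat_lit 37102) (L (nat_lit 16076859))
(S (nat_lit 45898) (S (nat_lit 12182) (S (nat_lit 1006) (S (nat_lit 21236) (S (nat_lit 50010) (L (nat_lit 6479630))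
(L (nat_lit 1462491)))
(L (nat_lit 21348101)))
(L (nat_lit 11188133)))
(L (nat_lit 23499997)))
(L (nat_lit 703239))))
(S (nat_lit 31496) (S (nat_lit 9532) (S (nat_lit 3942) (S (nat_lit 56375) (L (nat_lit 8504986))
(L (nat_lit 21142285)))
(L (nat_lit 11979522)))
(S (nat_lit 29296) (S (nat_lit 22963) (S (nat_lit 41304) (L (nat_lit 6754098))
(L (nat_lit 24330267)))
(L (nat_lit 11957888)))
(S (nat_lit 49060) (S (nat_lit 6589) (S (nat_lit 50514) (L (nat_lit 23594363))
(L (nat_lit 12083382)))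
(L (nat_lit 6382223)))
(L (nat_lit 25665559)))))
(S (nat_lit 51260) (S (nat_lit 13687) (S (nat_lit 21236) (S (nat_lit 47372) (L (nat_lit 9584405))
(L (nat_lit 22555706)))
(L (nat_lit 14738088)))
(S (nat_lit 33451) (S (nat_lit 12182) (S (nat_lit 3942) (L (nat_lit 23184297))
(L (nat_lit 20844910)))
(S (nat_lit 28199) (L (nat_lit 23148925))
(L (nat_lit 21422432))))
(S (nat_lit 53215) (S (nat_lit 5120) (L (nat_lit 16396164))
(L (nat_lit 15994807)))
(L (nat_lit 25823785)))))
(L (nat_lit 25463219)))))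
(S (nat_lit 32893) (S (nat_lit 32944) (S (nat_lit 3942) (S (nat_lit 50514) (S (nat_lit 9068) (S (nat_lit 51710) (S (nat_lit 40086) (L (nat_lit 23301627))
(L (nat_lit 23079325)))
(L (nat_lit 20845772)))
(L (nat_lit 23399996)))
(L (nat_lit 20046214)))
(L (nat_lit 20358914)))
(L (nat_lit 23627069)))
(S (nat_lit 52657) (S (nat_lit 28) (S (nat_lit 7588) (S (nat_lit 16065) (S (nat_lit 43248) (L (nat_lit 13274886))
(L (nat_lit 15915817)))
(S (nat_lit 33838) (L (nat_lit 11256957))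
(L (nat_lit 10608430))))
(S (nat_lit 40013) (L (nat_lit 6382071))
(L (nat_lit 4741899))))
(S (nat_lit 19792) (S (nat_lit 12952) (S (nat_lit 48317) (S (nat_lit 20546) (S (nat_lit 14645) (S (nat_lit 1975) (L (nat_lit 28907971))
(L (nat_lit 12235620)))
(L (nat_lit 24701220)))
(L (nat_lit 22102823)))
(L (nat_lit 10608186)))
(S (nat_lit 20615) (L (nat_lit 3634487))
(L (nat_lit 5946119))))
(S (nat_lit 39556) (S (nat_lit 6589) (S (nat_lit 3942) (S (nat_lit 7588) (L (nat_lit 23174957))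
(L (nat_lit 4825870)))
(S (nat_lit 36482) (L (nat_lit 11613972))
(L (nat_lit 9552658))))
(L (nat_lit 23561992)))
(L (nat_lit 25643048)))))
(L (nat_lit 25933122)))))
(S (nat_lit 54431) (S (nat_lit 4926) (S (nat_lit 754) (S (nat_lit 15095) (S (nat_lit 28878) (L (nat_lit 5777298))
(S (nat_lit 34358) (S (nat_lit 48596) (S (nat_lit 26355) (S (nat_lit 12394) (L (nat_lit 22349743))
(L (nat_lit 23084346)))
(L (nat_lit 16535622)))
(L (nat_lit 12226106)))
(L (nat_lit 3564134))))
(S (nat_lit 34859) (S (nat_lit 26355) (S (nat_lit 29296) (S (nat_lit 33663) (L (nat_lit 28791011))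
(L (nat_lit 11621132)))
(L (nat_lit 30560774)))
(L (nat_lit 19837030)))
(S (nat_lit 54623) (S (nat_lit 4340) (L (nat_lit 16622274))
(S (nat_lit 45898) (S (nat_lit 33663) (S (nat_lit 3942) (S (nat_lit 26862) (S (nat_lit 1006) (S (nat_lit 42478) (S (nat_lit 12182) (L (nat_lit 28949643))
(L (nat_lit 21022076)))
(L (nat_lit 16425730)))
(L (nat_lit 12804149)))
(L (nat_lit 14977660)))
(L (nat_lit 26951970)))
(L (nat_lit 15846152)))
(L (nat_lit 351708))))
(L (nat_lit 25506994)))))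
(S (nat_lit 20518) (S (nat_lit 558) (S (nat_lit 27130) (S (nat_lit 9068) (S (nat_lit 7098) (S (nat_lit 32158) (L (nat_lit 30422663))
(L (nat_lit 3458962)))
(L (nat_lit 7045656)))
(L (nat_lit 6719069)))
(L (nat_lit 2410258)))
(S (nat_lit 20322) (S (nat_lit 6596) (S (nat_lit 34388) (S (nat_lit 20996) (S (nat_lit 33633) (S (nat_lit 49258) (L (nat_lit 1731821))
(L (nat_lit 1402513)))
(L (nat_lit 30757281)))
(L (nat_lit 30757905)))
(L (nat_lit 30756017)))
(L (nat_lit 6882876)))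
(S (nat_lit 40086) (S (nat_lit 16065) (S (nat_lit 29494) (S (nat_lit 50514) (S (nat_lit 38479) (L (nat_lit 22374445))
(L (nat_lit 1924301)))
(L (nat_lit 12313025)))
(L (nat_lit 30736919)))
(L (nat_lit 1260311)))
(L (nat_lit 25929900)))))
(S (nat_lit 40282) (S (nat_lit 14594) (S (nat_lit 13150) (S (nat_lit 29296) (S (nat_lit 28) (L (nat_lit 11264113))
(L (nat_lit 13469288)))
(L (nat_lit 31098374)))
(S (nat_lit 32836) (L (nat_lit 25016358))
(L (nat_lit 1529608))))
(S (nat_lit 34358) (S (nat_lit 15095) (S (nat_lit 56375) (S (nat_lit 18715) (S (nat_lit 26355) (L (nat_lit 4111730))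
(L (nat_lit 16511078)))
(L (nat_lit 26983462)))
(L (nat_lit 27709606)))
(S (nat_lit 30065) (L (nat_lit 5624592))
(L (nat_lit 22482696))))
(S (nat_lit 54122) (S (nat_lit 28714) (L (nat_lit 10898243))
(S (nat_lit 33142) (S (nat_lit 42478) (S (nat_lit 46626) (S (nat_lit 40534) (L (nat_lit 29842661))
(L (nat_lit 1718022)))
(L (nat_lit 18113125)))
(L (nat_lit 27919846)))
(L (nat_lit 23486757))))
(L (nat_lit 25611492)))))
(L (nat_lit 25564907)))))
(S (nat_lit 24690) (S (nat_lit 6589) (S (nat_lit 6596) (S (nat_lit 41304) (S (nat_lit 6591) (S (nat_lit 2950) (S (nat_lit 0) (S (nat_lit 37817) (S (nat_lit 3942) (S (nat_lit 7588) (L (nat_lit 11389006))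
(L (nat_lit 8512914)))
(L (nat_lit 14804338)))
(L (nat_lit 17139506)))
(L (nat_lit 6686514)))
(L (nat_lit 26903857)))
(L (nat_lit 26674758)))
(L (nat_lit 23594795)))
(L (nat_lit 21824881)))
(S (nat_lit 26353) (S (nat_lit 9532) (S (nat_lit 13150) (S (nat_lit 16065) (S (nat_lit 37817) (S (nat_lit 47814) (S (nat_lit 6591) (L (nat_lit 28398926))
(L (nat_lit 14484756)))
(L (nat_lit 9340588)))
(L (nat_lit 30738060)))
(L (nat_lit 26609386)))
(S (nat_lit 32842) (S (nat_lit 27797) (L (nat_lit 30659045))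
(L (nat_lit 19250949)))
(L (nat_lit 6775459))))
(S (nat_lit 29296) (S (nat_lit 34388) (S (nat_lit 32893) (L (nat_lit 30582199))
(L (nat_lit 30639759)))
(L (nat_lit 30653060)))
(S (nat_lit 49060) (S (nat_lit 28050) (S (nat_lit 3942) (L (nat_lit 15402918))
(L (nat_lit 18984718)))
(L (nat_lit 19793165)))
(L (nat_lit 25657682)))))
(S (nat_lit 46117) (S (nat_lit 7098) (S (nat_lit 13150) (S (nat_lit 16065) (S (nat_lit 9532) (S (nat_lit 20546) (L (nat_lit 10642092))
(L (nat_lit 21471012)))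
(L (nat_lit 312114)))
(L (nat_lit 11110158)))
(S (nat_lit 42917) (L (nat_lit 21467047))
(L (nat_lit 1781978))))
(S (nat_lit 26862) (S (nat_lit 9532) (S (nat_lit 13150) (S (nat_lit 40335) (S (nat_lit 23484) (L (nat_lit 18114147))
(L (nat_lit 21247744)))
(L (nat_lit 5792456)))
(L (nat_lit 7037315)))
(L (nat_lit 14835991)))
(S (nat_lit 46626) (S (nat_lit 3942) (S (nat_lit 15095) (S (nat_lit 51625) (S (nat_lit 38001) (S (nat_lit 24884) (S (nat_lit 2950) (L (nat_lit 14484102))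
(L (nat_lit 17476515)))
(L (nat_lit 22286126)))
(L (nat_lit 17469192)))
(L (nat_lit 12127804)))
(L (nat_lit 22484742)))
(L (nat_lit 14790418)))
(L (nat_lit 25215590)))))
(L (nat_lit 25919912)))))
(S (nat_lit 44454) (S (nat_lit 13150) (S (nat_lit 8028) (S (nat_lit 4955) (L (nat_lit 11011862))
(S (nat_lit 49060) (S (nat_lit 21739) (S (nat_lit 28050) (S (nat_lit 4446) (L (nat_lit 15000256))
(L (nat_lit 20265729)))
(L (nat_lit 24547115)))
(L (nat_lit 1853927)))
(L (nat_lit 10244610))))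
(S (nat_lit 27792) (S (nat_lit 1975) (S (nat_lit 29323) (S (nat_lit 19764) (L (nat_lit 16053266))
(L (nat_lit 16353158)))
(S (nat_lit 49060) (S (nat_lit 20571) (S (nat_lit 24884) (S (nat_lit 33633) (S (nat_lit 19764) (L (nat_lit 28907630))
(L (nat_lit 15976474)))
(L (nat_lit 16074778)))
(L (nat_lit 22064942)))
(L (nat_lit 15963955)))
(L (nat_lit 16581906))))
(S (nat_lit 41359) (L (nat_lit 11978810))
(L (nat_lit 11690670))))
(S (nat_lit 47556) (S (nat_lit 17575) (S (nat_lit 29494) (S (nat_lit 24884) (S (nat_lit 16065) (L (nat_lit 1451922))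
(L (nat_lit 22888490)))
(L (nat_lit 22372740)))
(L (nat_lit 24207814)))
(S (nat_lit 37339) (S (nat_lit 49060) (S (nat_lit 36611) (S (nat_lit 22220) (L (nat_lit 17427497))
(L (nat_lit 8979899)))
(L (nat_lit 10670895)))
(L (nat_lit 27775299)))
(S (nat_lit 57103) (S (nat_lit 31496) (S (nat_lit 22963) (S (nat_lit 27608) (L (nat_lit 11358220))
(L (nat_lit 12227344)))
(L (nat_lit 5643029)))
(L (nat_lit 3545877)))
(L (nat_lit 25340496)))))
(L (nat_lit 25206198)))))
(S (nat_lit 32914) (S (nat_lit 3942) (S (nat_lit 24884) (S (nat_lit 40086) (S (nat_lit 47814) (S (nat_lit 31200) (L (nat_lit 17539843))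
(L (nat_lit 30910117)))
(L (nat_lit 3528221)))
(L (nat_lit 12410243)))
(L (nat_lit 3494702)))
(S (nat_lit 20399) (L (nat_lit 12125688))
(L (nat_lit 12280258))))
(S (nat_lit 52678) (S (nat_lit 3942) (S (nat_lit 2542) (L (nat_lit 19195056))
(S (nat_lit 24884) (S (nat_lit 14624) (S (nat_lit 1776) (S (nat_lit 8286) (L (nat_lit 14261027))
(L (nat_lit 12340740)))
(L (nat_lit 12088338)))
(L (nat_lit 11623345)))
(L (nat_lit 21829804))))
(S (nat_lit 54485) (L (nat_lit 12195357))
(L (nat_lit 12272386))))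
(L (nat_lit 25788622)))))
(L (nat_lit 25568403)))))
(L (nat_lit 25282769)))))
(S (nat_lit 41025) (S (nat_lit 8035) (S (nat_lit 6589) (S (nat_lit 17575) (S (nat_lit 12394) (S (nat_lit 0) (S (nat_lit 13180) (S (nat_lit 4446) (L (nat_lit 18745033))
(L (nat_lit 1518354)))
(L (nat_lit 26566115)))
(L (nat_lit 13690066)))
(S (nat_lit 45207) (L (nat_lit 4543899))
(L (nat_lit 16044091))))
(S (nat_lit 37339) (S (nat_lit 3942) (S (nat_lit 7366) (S (nat_lit 50514) (S (nat_lit 7588) (S (nat_lit 34409) (S (nat_lit 34667) (L (nat_lit 28872018))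
(L (nat_lit 23267120)))
(L (nat_lit 23635995)))
(L (nat_lit 14265120)))
(L (nat_lit 11652573)))
(S (nat_lit 56221) (L (nat_lit 23127309))
(L (nat_lit 26919107))))
(S (nat_lit 23875) (L (nat_lit 12660533))
(L (nat_lit 12303140))))
(S (nat_lit 57103) (S (nat_lit 1975) (S (nat_lit 15095) (S (nat_lit 3942) (S (nat_lit 7588) (S (nat_lit 43974) (S (nat_lit 24884) (S (nat_lit 39249) (L (nat_lit 12670888))
(L (nat_lit 4941167)))
(L (nat_lit 12112059)))
(L (nat_lit 12738803)))
(L (nat_lit 23191886)))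
(L (nat_lit 11647762)))
(L (nat_lit 12916498)))
(S (nat_lit 58394) (L (nat_lit 18145957))
(L (nat_lit 11690484))))
(L (nat_lit 25508418)))))
(S (nat_lit 26353) (S (nat_lit 15322) (S (nat_lit 9532) (S (nat_lit 1975) (S (nat_lit 39249) (S (nat_lit 22963) (L (nat_lit 533181))
(L (nat_lit 21389318)))
(L (nat_lit 23424483)))
(S (nat_lit 30093) (L (nat_lit 26838221))
(L (nat_lit 13864634))))
(S (nat_lit 29296) (S (nat_lit 24884) (S (nat_lit 22220) (L (nat_lit 24343566))
(L (nat_lit 9984803)))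
(L (nat_lit 17130180)))
(S (nat_lit 49060) (S (nat_lit 13129) (L (nat_lit 1331982))
(L (nat_lit 26981730)))
(L (nat_lit 25680194)))))
(S (nat_lit 35086) (S (nat_lit 14624) (S (nat_lit 1776) (S (nat_lit 12394) (S (nat_lit 37817) (L (nat_lit 29885815))
(L (nat_lit 9519771)))
(L (nat_lit 10014747)))
(L (nat_lit 26319314)))
(S (nat_lit 34388) (S (nat_lit 11436) (S (nat_lit 5863) (S (nat_lit 49758) (S (nat_lit 34667) (L (nat_lit 29920840))
(L (nat_lit 15852818)))
(L (nat_lit 14377131)))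
(L (nat_lit 9963163)))
(L (nat_lit 15985253)))
(S (nat_lit 54152) (S (nat_lit 24884) (S (nat_lit 47372) (S (nat_lit 36835) (L (nat_lit 11618811))
(L (nat_lit 12702941)))
(L (nat_lit 27343061)))
(L (nat_lit 12149188)))
(L (nat_lit 25246342)))))
(S (nat_lit 54850) (S (nat_lit 6596) (S (nat_lit 29296) (S (nat_lit 782) (L (nat_lit 24229767))
(L (nat_lit 1746492)))
(L (nat_lit 11727564)))
(S (nat_lit 26360) (S (nat_lit 20996) (S (nat_lit 13958) (S (nat_lit 4926) (L (nat_lit 7191173))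
(L (nat_lit 6777507)))
(L (nat_lit 3985961)))
(L (nat_lit 6412081)))
(S (nat_lit 46124) (S (nat_lit 29296) (S (nat_lit 10482) (L (nat_lit 23605125))
(L (nat_lit 4973774)))
(L (nat_lit 12354252)))
(L (nat_lit 25659050)))))
(L (nat_lit 25413315)))))
(S (nat_lit 46117) (S (nat_lit 7366) (S (nat_lit 5915) (L (nat_lit 12260826))
(S (nat_lit 57581) (S (nat_lit 3942) (S (nat_lit 50514) (L (nat_lit 19426658))
(L (nat_lit 4509455)))
(L (nat_lit 26717330)))
(L (nat_lit 21759340))))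
(S (nat_lit 27130) (S (nat_lit 15880) (L (nat_lit 16570724))
(S (nat_lit 34409) (S (nat_lit 3720) (S (nat_lit 52480) (S (nat_lit 39782) (S (nat_lit 20322) (S (nat_lit 32914) (S (nat_lit 57581) (L (nat_lit 10095036))
(L (nat_lit 27678730)))
(L (nat_lit 15653928)))
(L (nat_lit 22602919)))
(L (nat_lit 27661527)))
(L (nat_lit 20120432)))
(S (nat_lit 56200) (L (nat_lit 1500809))
(L (nat_lit 11688505))))
(L (nat_lit 23902248))))
(S (nat_lit 46894) (S (nat_lit 5026) (L (nat_lit 418474))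
(S (nat_lit 34409) (S (nat_lit 54431) (L (nat_lit 20147216))
(L (nat_lit 18630696)))
(L (nat_lit 23903272))))
(L (nat_lit 25465583)))))
(L (nat_lit 25631427)))))
(S (nat_lit 27799) (S (nat_lit 14645) (S (nat_lit 807) (S (nat_lit 7366) (S (nat_lit 42478) (S (nat_lit 24884) (S (nat_lit 34667) (L (nat_lit 24671398))
(L (nat_lit 15848232)))
(L (nat_lit 14570788)))
(S (nat_lit 46952) (L (nat_lit 12471308))
(L (nat_lit 14550325))))
(S (nat_lit 27130) (S (nat_lit 57581) (S (nat_lit 19764) (S (nat_lit 20322) (S (nat_lit 3942) (L (nat_lit 29907114))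
(L (nat_lit 19390756)))
(L (nat_lit 8480146)))
(L (nat_lit 15986738)))
(L (nat_lit 12969042)))
(S (nat_lit 46894) (S (nat_lit 37817) (S (nat_lit 6589) (S (nat_lit 14594) (S (nat_lit 14624) (S (nat_lit 43248) (S (nat_lit 3942) (L (nat_lit 29611184))
(L (nat_lit 9866002)))
(L (nat_lit 23279392)))
(L (nat_lit 1297949)))
(L (nat_lit 1816925)))
(L (nat_lit 21268270)))
(L (nat_lit 14455154)))
(L (nat_lit 25349486)))))
(S (nat_lit 20571) (S (nat_lit 2456) (S (nat_lit 4446) (S (nat_lit 0) (S (nat_lit 34667) (S (nat_lit 12182) (L (nat_lit 15818570))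
(L (nat_lit 23217533)))
(L (nat_lit 16322344)))
(L (nat_lit 20356897)))
(L (nat_lit 20393761)))
(S (nat_lit 22220) (S (nat_lit 43248) (S (nat_lit 24884) (S (nat_lit 5591) (S (nat_lit 32158) (L (nat_lit 16584055))
(L (nat_lit 3731826)))
(L (nat_lit 26557623)))
(L (nat_lit 4084167)))
(L (nat_lit 6438589)))
(S (nat_lit 41984) (S (nat_lit 1304) (L (nat_lit 1654075))
(S (nat_lit 20996) (S (nat_lit 38001) (S (nat_lit 9532) (S (nat_lit 5863) (L (nat_lit 3063154))
(L (nat_lit 12084341)))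
(L (nat_lit 312114)))
(L (nat_lit 30988394)))
(L (nat_lit 16016064))))
(L (nat_lit 25702113)))))
(S (nat_lit 40335) (S (nat_lit 1975) (S (nat_lit 5591) (S (nat_lit 22963) (S (nat_lit 39249) (L (nat_lit 29042766))
(L (nat_lit 20251132)))
(L (nat_lit 12234941)))
(L (nat_lit 11091744)))
(S (nat_lit 25562) (L (nat_lit 9145787))
(L (nat_lit 12235588))))
(L (nat_lit 25903274)))))
(S (nat_lit 34409) (S (nat_lit 17071) (S (nat_lit 8028) (L (nat_lit 1261244))
(S (nat_lit 27792) (S (nat_lit 5591) (S (nat_lit 48596) (L (nat_lit 20199549))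
(L (nat_lit 16420746)))
(L (nat_lit 18988317)))
(S (nat_lit 47556) (S (nat_lit 29494) (S (nat_lit 49758) (L (nat_lit 11143642))
(L (nat_lit 4568699)))
(L (nat_lit 5530316)))
(L (nat_lit 25901408)))))
(S (nat_lit 36835) (S (nat_lit 1791) (L (nat_lit 2703145))
(S (nat_lit 5591) (S (nat_lit 24884) (S (nat_lit 46119) (S (nat_lit 47814) (S (nat_lit 35086) (L (nat_lit 23965125))
(L (nat_lit 18746643)))
(L (nat_lit 17435931)))
(L (nat_lit 11240925)))
(L (nat_lit 4080327)))
(S (nat_lit 45283) (S (nat_lit 25738) (L (nat_lit 5992998))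
(L (nat_lit 23954640)))
(L (nat_lit 11091746)))))
(S (nat_lit 56599) (S (nat_lit 13129) (S (nat_lit 41304) (S (nat_lit 7588) (L (nat_lit 24264488))
(L (nat_lit 13951685)))
(L (nat_lit 23617764)))
(S (nat_lit 32893) (S (nat_lit 13899) (S (nat_lit 34859) (L (nat_lit 7767739))
(L (nat_lit 16538976)))
(L (nat_lit 22879308)))
(S (nat_lit 52657) (S (nat_lit 6596) (S (nat_lit 3942) (S (nat_lit 41053) (L (nat_lit 29509287))
(L (nat_lit 16951964)))
(L (nat_lit 11980578)))
(L (nat_lit 12669309)))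
(L (nat_lit 25560435)))))
(L (nat_lit 25759953)))))
(S (nat_lit 54173) (S (nat_lit 18715) (S (nat_lit 14624) (S (nat_lit 20018) (L (nat_lit 1720102))
(L (nat_lit 21839041)))
(L (nat_lit 24984772)))
(S (nat_lit 38479) (S (nat_lit 16847) (S (nat_lit 27792) (L (nat_lit 1719676))
(L (nat_lit 31145313)))
(L (nat_lit 11714204)))
(S (nat_lit 58243) (S (nat_lit 6845) (L (nat_lit 1916523))
(L (nat_lit 8208099)))
(L (nat_lit 25272854)))))
(L (nat_lit 25835526)))))
(S (nat_lit 47563) (S (nat_lit 8286) (S (nat_lit 12952) (S (nat_lit 20546) (S (nat_lit 14695) (L (nat_lit 9519867))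
(S (nat_lit 48317) (S (nat_lit 13929) (S (nat_lit 28) (S (nat_lit 23706) (L (nat_lit 30057580))
(L (nat_lit 18647657)))
(L (nat_lit 18965743)))
(L (nat_lit 12907137)))
(L (nat_lit 15820362))))
(S (nat_lit 25055) (S (nat_lit 51381) (L (nat_lit 21904552))
(L (nat_lit 12474852)))
(L (nat_lit 15804123))))
(S (nat_lit 32716) (S (nat_lit 1776) (S (nat_lit 1297) (L (nat_lit 4790778))
(S (nat_lit 24884) (S (nat_lit 23484) (S (nat_lit 21739) (L (nat_lit 30464237))
(L (nat_lit 4999658)))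
(L (nat_lit 11386528)))
(L (nat_lit 21247780))))
(S (nat_lit 21540) (S (nat_lit 3942) (S (nat_lit 12394) (S (nat_lit 21739) (S (nat_lit 54152) (L (nat_lit 8162926))
(L (nat_lit 5989928)))
(L (nat_lit 1746702)))
(L (nat_lit 15751547)))
(S (nat_lit 25224) (L (nat_lit 10207108))
(L (nat_lit 9866034))))
(S (nat_lit 41304) (S (nat_lit 32158) (S (nat_lit 40086) (S (nat_lit 26862) (L (nat_lit 16013340))
(L (nat_lit 1533607)))
(L (nat_lit 27346130)))
(L (nat_lit 8259058)))
(L (nat_lit 25923051)))))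
(S (nat_lit 52480) (S (nat_lit 1232) (S (nat_lit 13869) (S (nat_lit 50514) (S (nat_lit 34388) (L (nat_lit 11620109))
(L (nat_lit 3493435)))
(L (nat_lit 4631165)))
(L (nat_lit 8787735)))
(S (nat_lit 20996) (S (nat_lit 33451) (S (nat_lit 55847) (S (nat_lit 14903) (L (nat_lit 4482768))
(L (nat_lit 10096189)))
(L (nat_lit 27662484)))
(L (nat_lit 31075876)))
(S (nat_lit 40760) (S (nat_lit 33142) (S (nat_lit 6589) (S (nat_lit 21236) (L (nat_lit 12169988))
(L (nat_lit 30823652)))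
(L (nat_lit 23331630)))
(S (nat_lit 55807) (L (nat_lit 21469956))
(L (nat_lit 23936293))))
(L (nat_lit 25802823)))))
(L (nat_lit 25238224)))))
(S (nat_lit 28050) (S (nat_lit 13899) (S (nat_lit 29494) (S (nat_lit 49060) (S (nat_lit 24884) (S (nat_lit 254) (S (nat_lit 40086) (S (nat_lit 19764) (L (nat_lit 29602871))
(L (nat_lit 16665824)))
(L (nat_lit 23937127)))
(L (nat_lit 20168481)))
(L (nat_lit 12403396)))
(L (nat_lit 5568023)))
(S (nat_lit 34448) (S (nat_lit 36730) (L (nat_lit 23491875))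
(L (nat_lit 12261260)))
(L (nat_lit 6112594))))
(S (nat_lit 33663) (S (nat_lit 3942) (S (nat_lit 254) (S (nat_lit 13869) (S (nat_lit 56) (S (nat_lit 47561) (S (nat_lit 47556) (S (nat_lit 41304) (S (nat_lit 55593) (L (nat_lit 5456509))
(L (nat_lit 5128938)))
(L (nat_lit 27461292)))
(L (nat_lit 22341024)))
(L (nat_lit 20243569)))
(L (nat_lit 7530096)))
(L (nat_lit 22454049)))
(S (nat_lit 28122) (L (nat_lit 6964345))
(L (nat_lit 20070187))))
(S (nat_lit 57689) (L (nat_lit 7890658))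
(L (nat_lit 12046084))))
(S (nat_lit 53427) (S (nat_lit 6596) (S (nat_lit 3942) (S (nat_lit 5863) (L (nat_lit 16887452))
(L (nat_lit 18079861)))
(L (nat_lit 14804338)))
(S (nat_lit 26360) (S (nat_lit 50514) (S (nat_lit 16065) (L (nat_lit 8480309))
(L (nat_lit 731950)))
(L (nat_lit 20035963)))
(S (nat_lit 46124) (S (nat_lit 558) (S (nat_lit 31200) (L (nat_lit 30493223))
(L (nat_lit 18989434)))
(L (nat_lit 6171244)))
(L (nat_lit 25474195)))))
(L (nat_lit 25380973)))))
(S (nat_lit 47814) (S (nat_lit 0) (S (nat_lit 9068) (S (nat_lit 254) (S (nat_lit 41503) (S (nat_lit 13869) (L (nat_lit 1485717))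
(L (nat_lit 8819511)))
(L (nat_lit 702250)))
(L (nat_lit 6744643)))
(S (nat_lit 28832) (S (nat_lit 9532) (S (nat_lit 31946) (S (nat_lit 52657) (S (nat_lit 20571) (L (nat_lit 27842696))
(L (nat_lit 22191916)))
(L (nat_lit 21011215)))
(L (nat_lit 7048974)))
(L (nat_lit 8839874)))
(S (nat_lit 48596) (S (nat_lit 13869) (S (nat_lit 5863) (S (nat_lit 13129) (S (nat_lit 12394) (L (nat_lit 716048))
(L (nat_lit 1435191)))
(L (nat_lit 1762857)))
(L (nat_lit 1493338)))
(L (nat_lit 1484599)))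
(L (nat_lit 25286187)))))
(S (nat_lit 19764) (S (nat_lit 2950) (S (nat_lit 57765) (S (nat_lit 14594) (L (nat_lit 27560561))
(L (nat_lit 9865852)))
(L (nat_lit 19434875)))
(S (nat_lit 22714) (S (nat_lit 32914) (S (nat_lit 38001) (S (nat_lit 8789) (L (nat_lit 26611370))
(L (nat_lit 23965956)))
(L (nat_lit 17129589)))
(L (nat_lit 2579709)))
(S (nat_lit 42478) (S (nat_lit 41503) (L (nat_lit 5943546))
(L (nat_lit 27405812)))
(L (nat_lit 25835686)))))
(S (nat_lit 39528) (S (nat_lit 16368) (L (nat_lit 18425701))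
(S (nat_lit 41304) (S (nat_lit 40335) (S (nat_lit 3942) (S (nat_lit 20546) (L (nat_lit 29449549))
(L (nat_lit 6756059)))
(L (nat_lit 19325218)))
(L (nat_lit 23324844)))
(L (nat_lit 6840964))))
(L (nat_lit 25566785)))))
(L (nat_lit 25598068)))))
(L (nat_lit 25209518)))))
(L (nat_lit 25868395)))))
(L (nat_lit 25922950)))))

theorem rb180_4 : run 4 lb180 [] tb180_4 kb180 (P4 4 4791 2836 6347 2836 1 0 0 0) [] = true := by
  decide +kernel

noncomputable def tb246_0_3 : Tr :=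
(S (nat_lit 1715) (S (nat_lit 1215) (S (nat_lit 15334) (S (nat_lit 10997) (S (nat_lit 2019) (S (nat_lit 1701) (S (nat_lit 16696) (L (nat_lit 19232197))
(S (nat_lit 57086) (S (nat_lit 1240) (S (nat_lit 48220) (L (nat_lit 5877272))
(L (nat_lit 19772584)))
(L (nat_lit 20317067)))
(L (nat_lit 19334923))))
(L (nat_lit 19260556)))
(S (nat_lit 41466) (S (nat_lit 62) (L (nat_lit 5787997))
(L (nat_lit 12969143)))
(L (nat_lit 26238284))))
(S (nat_lit 30761) (S (nat_lit 1958) (S (nat_lit 50407) (S (nat_lit 1277) (S (nat_lit 15373) (S (nat_lit 1732) (S (nat_lit 1246) (L (nat_lit 21148520))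
(L (nat_lit 5908954)))
(L (nat_lit 11997882)))
(L (nat_lit 22408643)))
(L (nat_lit 6007325)))
(S (nat_lit 57049) (S (nat_lit 972) (L (nat_lit 11954354))
(L (nat_lit 20755780)))
(L (nat_lit 18922248))))
(S (nat_lit 21722) (S (nat_lit 28537) (L (nat_lit 14756472))
(L (nat_lit 24128305)))
(S (nat_lit 41486) (S (nat_lit 28537) (L (nat_lit 24292204))
(L (nat_lit 19344163)))
(L (nat_lit 25771046)))))
(S (nat_lit 50525) (S (nat_lit 14) (S (nat_lit 27676) (L (nat_lit 26391924))
(S (nat_lit 28574) (S (nat_lit 32830) (L (nat_lit 23434653))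
(L (nat_lit 13282082)))
(L (nat_lit 10277284))))
(S (nat_lit 19778) (S (nat_lit 51168) (S (nat_lit 40542) (L (nat_lit 19705864))
(L (nat_lit 27775268)))
(S (nat_lit 57099) (S (nat_lit 1701) (S (nat_lit 19828) (L (nat_lit 29739426))
(L (nat_lit 3527101)))
(L (nat_lit 9835282)))
(L (nat_lit 19343483))))
(S (nat_lit 39542) (S (nat_lit 8810) (S (nat_lit 17558) (L (nat_lit 28457330))
(L (nat_lit 26394251)))
(L (nat_lit 26399211)))
(L (nat_lit 25595530)))))
(L (nat_lit 25806149)))))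
(S (nat_lit 35098) (S (nat_lit 25) (S (nat_lit 819) (S (nat_lit 18209) (L (nat_lit 12723987))
(L (nat_lit 19277602)))
(S (nat_lit 1701) (S (nat_lit 10982) (S (nat_lit 37108) (S (nat_lit 1003) (L (nat_lit 26389012))
(L (nat_lit 19737029)))
(S (nat_lit 48338) (S (nat_lit 1229) (S (nat_lit 30699) (S (nat_lit 57099) (L (nat_lit 5787996))
(L (nat_lit 19207983)))
(L (nat_lit 19727567)))
(L (nat_lit 13406583)))
(L (nat_lit 13818232))))
(S (nat_lit 30746) (S (nat_lit 2006) (S (nat_lit 37285) (L (nat_lit 7870108))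
(L (nat_lit 2861533)))
(L (nat_lit 19409949)))
(S (nat_lit 50510) (S (nat_lit 1003) (S (nat_lit 40585) (L (nat_lit 4076171))
(L (nat_lit 3779375)))
(L (nat_lit 19737029)))
(L (nat_lit 25276659)))))
(L (nat_lit 2731448))))
(S (nat_lit 19789) (S (nat_lit 1958) (S (nat_lit 28537) (S (nat_lit 1277) (L (nat_lit 8807607))
(L (nat_lit 26225361)))
(L (nat_lit 4008625)))
(S (nat_lit 21722) (S (nat_lit 21507) (S (nat_lit 11010) (L (nat_lit 28912096))
(L (nat_lit 26356303)))
(L (nat_lit 22522724)))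
(S (nat_lit 41486) (S (nat_lit 20661) (L (nat_lit 3550098))
(S (nat_lit 21399) (L (nat_lit 30810130))
(L (nat_lit 2534259))))
(L (nat_lit 25285064)))))
(S (nat_lit 39553) (S (nat_lit 1986) (S (nat_lit 1991) (S (nat_lit 1014) (L (nat_lit 9917563))
(L (nat_lit 13473480)))
(L (nat_lit 13491368)))
(L (nat_lit 13478627)))
(L (nat_lit 25215688)))))
(S (nat_lit 54862) (S (nat_lit 1019) (S (nat_lit 31) (S (nat_lit 1701) (S (nat_lit 17521) (S (nat_lit 1003) (S (nat_lit 39603) (L (nat_lit 5091976))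
(L (nat_lit 27438765)))
(L (nat_lit 19933690)))
(L (nat_lit 26416717)))
(S (nat_lit 55285) (L (nat_lit 26229075))
(L (nat_lit 20222732))))
(S (nat_lit 19795) (S (nat_lit 40805) (S (nat_lit 11010) (S (nat_lit 41514) (S (nat_lit 39590) (S (nat_lit 21507) (S (nat_lit 21010) (S (nat_lit 21722) (S (nat_lit 41293) (S (nat_lit 35148) (S (nat_lit 50510) (S (nat_lit 20811) (S (nat_lit 25683) (S (nat_lit 15063) (L (nat_lit 1550043))
(L (nat_lit 19101218)))
(S (nat_lit 39603) (S (nat_lit 40500) (S (nat_lit 50505) (S (nat_lit 15351) (S (nat_lit 40818) (S (nat_lit 41291) (S (nat_lit 2019) (S (nat_lit 21496) (S (nat_lit 10999) (S (nat_lit 21021) (S (nat_lit 35135) (S (nat_lit 54837) (S (nat_lit 30699) (S (nat_lit 1014) (S (nat_lit 6068) (S (nat_lit 38604) (S (nat_lit 45530) (S (nat_lit 18385) (S (nat_lit 48691) (S (nat_lit 4048) (S (nat_lit 57628) (S (nat_lit 31513) (S (nat_lit 36248) (S (nat_lit 5462) (D (nat_lit 13) (nat_lit 10225260) (nat_lit 15903506)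 (nat_lit 7840597120005))
(L (nat_lit 21521633)))
(L (nat_lit 15489216)))
(S (nat_lit 48394) (S (nat_lit 37307) (S (nat_lit 9140) (D (nat_lit 15) (nat_lit 9357732) (nat_lit 25767328) (nat_lit 174053360901))
(L (nat_lit 28946602)))
(L (nat_lit 31043813)))
(L (nat_lit 4485655))))
(L (nat_lit 28531234)))
(L (nat_lit 11426277)))
(L (nat_lit 25077252)))
(L (nat_lit 14587462)))
(L (nat_lit 14601318)))
(L (nat_lit 13540965)))
(S (nat_lit 42816) (S (nat_lit 5778) (S (nat_lit 10409) (S (nat_lit 29963) (S (nat_lit 37599) (S (nat_lit 58642) (S (nat_lit 57153) (S (nat_lit 49965) (S (nat_lit 9626) (S (nat_lit 37307) (S (nat_lit 48880) (D (nat_lit 15) (nat_lit 30689328) (nat_lit 25766925) (nat_lit 283568544933))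
(L (nat_lit 28913702)))
(L (nat_lit 31043780)))
(S (nat_lit 12737) (S (nat_lit 52081) (S (nat_lit 20611) (D (nat_lit 13) (nat_lit 12323437) (nat_lit 8505106) (nat_lit 7976936217632))
(L (nat_lit 26884134)))
(L (nat_lit 21772480)))
(L (nat_lit 27406707))))
(L (nat_lit 29580398)))
(L (nat_lit 28748482)))
(L (nat_lit 10292816)))
(L (nat_lit 13440373)))
(L (nat_lit 27694453)))
(L (nat_lit 29760597)))
(L (nat_lit 29791850)))
(S (nat_lit 54540) (S (nat_lit 7662) (S (nat_lit 7651) (S (nat_lit 15286) (S (nat_lit 830) (S (nat_lit 38706) (S (nat_lit 38921) (S (nat_lit 10550) (S (nat_lit 814) (S (nat_lit 11338) (D (nat_lit 13) (nat_lit 27479057) (nat_lit 25761289) (nat_lit 207440876581))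
(L (nat_lit 27897960)))
(L (nat_lit 27865283)))
(L (nat_lit 28399048)))
(L (nat_lit 22983688)))
(L (nat_lit 22918400)))
(S (nat_lit 49408) (S (nat_lit 37734) (S (nat_lit 38435) (S (nat_lit 10064) (S (nat_lit 328) (S (nat_lit 11824) (D (nat_lit 13) (nat_lit 27479057) (nat_lit 25761072) (nat_lit 207440876581))
(L (nat_lit 27898146)))
(L (nat_lit 27865376)))
(L (nat_lit 28595650)))
(L (nat_lit 22983874)))
(L (nat_lit 22918499)))
(L (nat_lit 3941815))))
(L (nat_lit 19795431)))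
(L (nat_lit 19262880)))
(L (nat_lit 19264994)))
(L (nat_lit 15621477)))))
(L (nat_lit 19066378)))
(L (nat_lit 19392519)))
(L (nat_lit 19773447)))
(L (nat_lit 20441413)))
(L (nat_lit 16413989)))
(L (nat_lit 15919319)))
(L (nat_lit 16524965)))
(L (nat_lit 19099789)))
(L (nat_lit 17540929)))
(L (nat_lit 24200074)))
(L (nat_lit 22441312)))
(L (nat_lit 22954336)))
(L (nat_lit 27402860)))
(S (nat_lit 52888) (S (nat_lit 51629) (L (nat_lit 21302813))
(L (nat_lit 19711330)))
(L (nat_lit 6112531)))))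
(L (nat_lit 15435132)))
(L (nat_lit 6076629)))
(L (nat_lit 18001687)))
(L (nat_lit 23860590)))
(L (nat_lit 22939080)))
(L (nat_lit 1428989)))
(L (nat_lit 22031212)))
(L (nat_lit 27997354)))
(L (nat_lit 2778633)))
(L (nat_lit 26356148)))
(S (nat_lit 48734) (L (nat_lit 19433817))
(L (nat_lit 10014466))))
(S (nat_lit 39559) (S (nat_lit 30713) (S (nat_lit 1701) (S (nat_lit 1003) (S (nat_lit 54851) (S (nat_lit 14) (S (nat_lit 1229) (S (nat_lit 48290) (L (nat_lit 20485500))
(L (nat_lit 10510127)))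
(L (nat_lit 20277728)))
(L (nat_lit 13411414)))
(L (nat_lit 21226884)))
(L (nat_lit 26882219)))
(L (nat_lit 13411410)))
(L (nat_lit 13857907)))
(L (nat_lit 25461391)))))
(S (nat_lit 20783) (S (nat_lit 10949) (S (nat_lit 40790) (L (nat_lit 15953474))
(L (nat_lit 17001024)))
(S (nat_lit 30713) (S (nat_lit 1701) (S (nat_lit 1229) (S (nat_lit 2006) (S (nat_lit 54837) (S (nat_lit 30699) (S (nat_lit 1014) (L (nat_lit 19941159))
(L (nat_lit 26398956)))
(L (nat_lit 19433286)))
(L (nat_lit 6011750)))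
(L (nat_lit 14363741)))
(L (nat_lit 12775079)))
(S (nat_lit 14985) (L (nat_lit 23498507))
(L (nat_lit 19260556))))
(S (nat_lit 50477) (S (nat_lit 19157) (L (nat_lit 3399097))
(S (nat_lit 29725) (L (nat_lit 24133416))
(L (nat_lit 5697126))))
(L (nat_lit 25900293)))))
(S (nat_lit 40547) (S (nat_lit 1229) (S (nat_lit 1701) (S (nat_lit 25) (S (nat_lit 11010) (S (nat_lit 1003) (L (nat_lit 26232423))
(L (nat_lit 20424890)))
(L (nat_lit 26367399)))
(S (nat_lit 2374) (L (nat_lit 5712509))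
(L (nat_lit 14423753))))
(L (nat_lit 19702860)))
(S (nat_lit 20993) (S (nat_lit 25) (S (nat_lit 21783) (S (nat_lit 1003) (L (nat_lit 3749116))
(L (nat_lit 26716340)))
(L (nat_lit 7922834)))
(L (nat_lit 19699241)))
(S (nat_lit 40757) (S (nat_lit 48301) (S (nat_lit 57049) (L (nat_lit 13314236))
(L (nat_lit 19830153)))
(L (nat_lit 14587497)))
(L (nat_lit 25336497)))))
(L (nat_lit 25679943)))))
(L (nat_lit 25630281)))))
(S (nat_lit 20979) (S (nat_lit 1732) (S (nat_lit 8795) (S (nat_lit 37335) (S (nat_lit 37285) (S (nat_lit 1743) (S (nat_lit 8823) (L (nat_lit 20266109))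
(L (nat_lit 17705536)))
(L (nat_lit 19736621)))
(L (nat_lit 14493843)))
(L (nat_lit 13806300)))
(S (nat_lit 28559) (S (nat_lit 1034) (S (nat_lit 30761) (S (nat_lit 1277) (L (nat_lit 29928002))
(L (nat_lit 14363520)))
(L (nat_lit 19023722)))
(S (nat_lit 20798) (S (nat_lit 10999) (S (nat_lit 41229) (S (nat_lit 40785) (L (nat_lit 12137531))
(L (nat_lit 2315021)))
(L (nat_lit 1685419)))
(L (nat_lit 963831)))
(S (nat_lit 40562) (S (nat_lit 40774) (L (nat_lit 17836981))
(L (nat_lit 25045444)))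
(L (nat_lit 25725174)))))
(S (nat_lit 48323) (S (nat_lit 1019) (S (nat_lit 54851) (S (nat_lit 21043) (S (nat_lit 21010) (L (nat_lit 22817807))
(L (nat_lit 30911140)))
(L (nat_lit 30486127)))
(L (nat_lit 27479428)))
(S (nat_lit 20708) (S (nat_lit 27937) (L (nat_lit 4705161))
(L (nat_lit 26777287)))
(L (nat_lit 12945206))))
(L (nat_lit 25734852)))))
(S (nat_lit 21496) (S (nat_lit 1290) (S (nat_lit 1240) (S (nat_lit 1019) (S (nat_lit 1743) (S (nat_lit 54851) (S (nat_lit 40805) (S (nat_lit 41229) (S (nat_lit 40514) (S (nat_lit 17558) (L (nat_lit 10632857))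
(L (nat_lit 16056988)))
(L (nat_lit 1683344)))
(L (nat_lit 17100388)))
(L (nat_lit 733959)))
(L (nat_lit 5959949)))
(L (nat_lit 19734018)))
(S (nat_lit 14303) (S (nat_lit 3368) (L (nat_lit 21217025))
(L (nat_lit 13858371)))
(L (nat_lit 19101091))))
(S (nat_lit 21004) (S (nat_lit 1279) (S (nat_lit 9437) (S (nat_lit 2019) (S (nat_lit 57066) (L (nat_lit 11966075))
(L (nat_lit 12674423)))
(L (nat_lit 5830315)))
(S (nat_lit 48307) (S (nat_lit 2019) (L (nat_lit 28384659))
(L (nat_lit 5830315)))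
(L (nat_lit 20186524))))
(S (nat_lit 20698) (L (nat_lit 18953437))
(L (nat_lit 13653803))))
(S (nat_lit 40768) (S (nat_lit 28537) (S (nat_lit 19826) (L (nat_lit 26947721))
(L (nat_lit 10340901)))
(S (nat_lit 54836) (L (nat_lit 26707315))
(L (nat_lit 10108088))))
(L (nat_lit 25281222)))))
(S (nat_lit 21054) (S (nat_lit 17510) (S (nat_lit 10982) (S (nat_lit 19826) (S (nat_lit 40575) (L (nat_lit 26773194))
(L (nat_lit 1796554)))
(L (nat_lit 16509285)))
(L (nat_lit 1649454)))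
(S (nat_lit 37274) (S (nat_lit 1975) (S (nat_lit 28526) (S (nat_lit 21010) (L (nat_lit 12808274))
(L (nat_lit 31100358)))
(L (nat_lit 30418323)))
(L (nat_lit 6107786)))
(S (nat_lit 57038) (S (nat_lit 8762) (S (nat_lit 21750) (L (nat_lit 11627026))
(L (nat_lit 15392965)))
(L (nat_lit 20980124)))
(L (nat_lit 25862222)))))
(S (nat_lit 40818) (S (nat_lit 21683) (S (nat_lit 19696) (L (nat_lit 19273018))
(L (nat_lit 18884093)))
(S (nat_lit 39592) (S (nat_lit 33762) (L (nat_lit 21324229))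
(S (nat_lit 54837) (S (nat_lit 1229) (S (nat_lit 50505) (S (nat_lit 41304) (S (nat_lit 10997) (S (nat_lit 40790) (S (nat_lit 1279) (S (nat_lit 35137) (S (nat_lit 41519) (S (nat_lit 19811) (S (nat_lit 25750) (L (nat_lit 10574297))
(S (nat_lit 35148) (S (nat_lit 39603) (L (nat_lit 12929209))
(L (nat_lit 27831968)))
(L (nat_lit 9212469))))
(L (nat_lit 3851483)))
(L (nat_lit 17597000)))
(L (nat_lit 3760369)))
(L (nat_lit 6023558)))
(L (nat_lit 220602)))
(L (nat_lit 26562734)))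
(L (nat_lit 24645419)))
(L (nat_lit 22449927)))
(L (nat_lit 19295367)))
(L (nat_lit 19119009))))
(L (nat_lit 5992840))))
(L (nat_lit 25937091)))))
(S (nat_lit 41260) (S (nat_lit 2019) (S (nat_lit 31) (S (nat_lit 10977) (S (nat_lit 10999) (S (nat_lit 1290) (S (nat_lit 15334) (S (nat_lit 986) (L (nat_lit 24318364))
(L (nat_lit 12676743)))
(L (nat_lit 17569107)))
(L (nat_lit 13541029)))
(L (nat_lit 936176)))
(L (nat_lit 26981511)))
(S (nat_lit 19795) (S (nat_lit 21770) (S (nat_lit 26293) (L (nat_lit 2825071))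
(L (nat_lit 21261763)))
(S (nat_lit 49096) (L (nat_lit 6182409))
(L (nat_lit 14948057))))
(S (nat_lit 39559) (S (nat_lit 20761) (S (nat_lit 1701) (L (nat_lit 4403837))
(L (nat_lit 20002601)))
(L (nat_lit 11962165)))
(L (nat_lit 25271797)))))
(S (nat_lit 21783) (S (nat_lit 15351) (S (nat_lit 19084) (L (nat_lit 22100349))
(S (nat_lit 37285) (S (nat_lit 17538) (L (nat_lit 23095629))
(L (nat_lit 1366425)))
(L (nat_lit 20787522))))
(S (nat_lit 35115) (S (nat_lit 4212) (L (nat_lit 5711669))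
(S (nat_lit 17543) (S (nat_lit 54851) (L (nat_lit 4771590))
(L (nat_lit 15978276)))
(L (nat_lit 1584946))))
(S (nat_lit 54879) (S (nat_lit 41229) (S (nat_lit 41534) (S (nat_lit 21490) (S (nat_lit 30774) (S (nat_lit 39553) (S (nat_lit 35104) (S (nat_lit 54851) (S (nat_lit 62) (S (nat_lit 10999) (S (nat_lit 50463) (S (nat_lit 10949) (S (nat_lit 1743) (S (nat_lit 19778) (S (nat_lit 39603) (S (nat_lit 19828) (S (nat_lit 20767) (S (nat_lit 41472) (S (nat_lit 1019) (S (nat_lit 40542) (S (nat_lit 41503) (S (nat_lit 39575) (S (nat_lit 40807) (S (nat_lit 1958) (S (nat_lit 31) (S (nat_lit 40785) (S (nat_lit 50494) (S (nat_lit 3002) (S (nat_lit 42300) (S (nat_lit 8823) (S (nat_lit 45302) (S (nat_lit 37285) (S (nat_lit 21910) (S (nat_lit 32328) (S (nat_lit 2406) (S (nat_lit 58938) (S (nat_lit 25196) (D (nat_lit 13) (nat_lit 30092429) (nat_lit 19672611) (nat_lit 2202481494276))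
(L (nat_lit 13453505)))
(L (nat_lit 29995205)))
(L (nat_lit 30919750)))
(L (nat_lit 16053892)))
(S (nat_lit 36192) (S (nat_lit 57729) (S (nat_lit 25726) (S (nat_lit 30675) (D (nat_lit 11) (nat_lit 25690790) (nat_lit 9618194) (nat_lit 273681600))
(L (nat_lit 21862479)))
(L (nat_lit 28746402)))
(L (nat_lit 20346048)))
(L (nat_lit 1368469))))
(L (nat_lit 30452365)))
(L (nat_lit 13691526)))
(L (nat_lit 970119)))
(L (nat_lit 14707274)))
(S (nat_lit 46915) (S (nat_lit 49919) (S (nat_lit 37421) (S (nat_lit 32876) (S (nat_lit 49969) (S (nat_lit 8210) (S (nat_lit 171) (S (nat_lit 1119) (D (nat_lit 13) (nat_lit 12119059) (nat_lit 19128803) (nat_lit 8831531747392))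
(L (nat_lit 22583321)))
(L (nat_lit 24952000)))
(S (nat_lit 29824) (S (nat_lit 28576) (S (nat_lit 10077) (D (nat_lit 13) (nat_lit 25860640) (nat_lit 19194339) (nat_lit 245081735266))
(L (nat_lit 28910051)))
(L (nat_lit 31043779)))
(L (nat_lit 20776358))))
(L (nat_lit 11200965)))
(L (nat_lit 534107)))
(L (nat_lit 15013467)))
(L (nat_lit 891469)))
(S (nat_lit 58095) (S (nat_lit 57883) (S (nat_lit 54542) (S (nat_lit 54299) (S (nat_lit 9710) (S (nat_lit 21634) (S (nat_lit 55939) (S (nat_lit 8812) (D (nat_lit 11) (nat_lit 14570601) (nat_lit 25695819) (nat_lit 3498253575))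
(L (nat_lit 15606802)))
(L (nat_lit 15618241)))
(S (nat_lit 56285) (S (nat_lit 21879) (S (nat_lit 5445) (D (nat_lit 11) (nat_lit 15517920) (nat_lit 7096773) (nat_lit 213708439682))
(L (nat_lit 27865348)))
(L (nat_lit 27865280)))
(L (nat_lit 13438164))))
(L (nat_lit 30918884)))
(L (nat_lit 7363992)))
(L (nat_lit 7394712)))
(L (nat_lit 22218541)))
(L (nat_lit 28588709)))))
(L (nat_lit 12656535)))
(L (nat_lit 3021331)))
(L (nat_lit 1335951)))
(L (nat_lit 18987880)))
(L (nat_lit 18059868)))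
(L (nat_lit 18655254)))
(L (nat_lit 24948871)))
(L (nat_lit 24951012)))
(L (nat_lit 19047836)))
(L (nat_lit 24293757)))
(L (nat_lit 6770437)))
(L (nat_lit 21145422)))
(L (nat_lit 24292829)))
(L (nat_lit 10369669)))
(L (nat_lit 20266884)))
(L (nat_lit 20985117)))
(L (nat_lit 5991663)))
(L (nat_lit 21372987)))
(L (nat_lit 19804484)))
(L (nat_lit 20980527)))
(L (nat_lit 19996588)))
(L (nat_lit 24515401)))
(L (nat_lit 24521473)))
(L (nat_lit 21046063)))
(L (nat_lit 24194896)))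
(L (nat_lit 1699211)))
(L (nat_lit 25567413)))))
(S (nat_lit 41547) (S (nat_lit 10966) (S (nat_lit 17538) (S (nat_lit 54851) (L (nat_lit 17057915))
(L (nat_lit 19336075)))
(S (nat_lit 19875) (L (nat_lit 2662162))
(L (nat_lit 26490497))))
(S (nat_lit 30730) (S (nat_lit 37307) (S (nat_lit 28559) (L (nat_lit 24394533))
(L (nat_lit 31166703)))
(L (nat_lit 30937332)))
(S (nat_lit 50494) (S (nat_lit 54901) (S (nat_lit 50525) (S (nat_lit 40757) (S (nat_lit 40547) (L (nat_lit 1263260))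
(L (nat_lit 24944003)))
(L (nat_lit 24227728)))
(L (nat_lit 27664037)))
(L (nat_lit 27708643)))
(L (nat_lit 25935138)))))
(L (nat_lit 25698355)))))
(L (nat_lit 25823567)))))
(S (nat_lit 40743) (S (nat_lit 1290) (S (nat_lit 1743) (S (nat_lit 17560) (S (nat_lit 21465) (S (nat_lit 54851) (L (nat_lit 26940784))
(L (nat_lit 15748408)))
(L (nat_lit 871789)))
(S (nat_lit 37324) (S (nat_lit 17521) (S (nat_lit 1958) (L (nat_lit 9835346))
(L (nat_lit 13953666)))
(L (nat_lit 26716802)))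
(S (nat_lit 57088) (S (nat_lit 8779) (S (nat_lit 50477) (S (nat_lit 28559) (S (nat_lit 1958) (L (nat_lit 9881660))
(L (nat_lit 20101469)))
(L (nat_lit 30521034)))
(L (nat_lit 12830842)))
(L (nat_lit 26524387)))
(L (nat_lit 25568931)))))
(S (nat_lit 21507) (S (nat_lit 986) (S (nat_lit 1969) (L (nat_lit 10240051))
(L (nat_lit 13175003)))
(S (nat_lit 40349) (S (nat_lit 54868) (L (nat_lit 19105304))
(L (nat_lit 13725385)))
(L (nat_lit 14261091))))
(S (nat_lit 41271) (S (nat_lit 10977) (S (nat_lit 8795) (S (nat_lit 28537) (L (nat_lit 7072813))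
(L (nat_lit 18557730)))
(S (nat_lit 28722) (S (nat_lit 40564) (S (nat_lit 21026) (L (nat_lit 13760102))
(L (nat_lit 6783611)))
(L (nat_lit 23637861)))
(L (nat_lit 7945988))))
(S (nat_lit 30741) (S (nat_lit 54912) (S (nat_lit 57066) (S (nat_lit 48318) (L (nat_lit 29668530))
(L (nat_lit 13706939)))
(L (nat_lit 18949597)))
(L (nat_lit 27857287)))
(S (nat_lit 50505) (S (nat_lit 17521) (S (nat_lit 35098) (L (nat_lit 4074061))
(L (nat_lit 19948913)))
(S (nat_lit 41657) (L (nat_lit 12757942))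
(L (nat_lit 26225293))))
(L (nat_lit 25250247)))))
(L (nat_lit 25350667)))))
(S (nat_lit 21054) (S (nat_lit 8773) (S (nat_lit 35098) (S (nat_lit 40531) (S (nat_lit 19789) (S (nat_lit 41271) (S (nat_lit 41486) (S (nat_lit 54851) (S (nat_lit 37307) (S (nat_lit 47) (S (nat_lit 41503) (S (nat_lit 37324) (S (nat_lit 40807) (S (nat_lit 58655) (S (nat_lit 48323) (S (nat_lit 64) (S (nat_lit 19429) (S (nat_lit 36017) (S (nat_lit 7449) (S (nat_lit 43531) (S (nat_lit 11748) (S (nat_lit 51276) (S (nat_lit 6016) (D (nat_lit 13) (nat_lit 14592180) (nat_lit 5857551) (nat_lit 6604622667943))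
(L (nat_lit 31043811)))
(L (nat_lit 15824458)))
(L (nat_lit 27775169)))
(L (nat_lit 19808449)))
(L (nat_lit 27902177)))
(S (nat_lit 55421) (S (nat_lit 56242) (S (nat_lit 34291) (D (nat_lit 15) (nat_lit 12845878) (nat_lit 3486296) (nat_lit 171800797410))
(L (nat_lit 27743522)))
(L (nat_lit 23653730)))
(L (nat_lit 25071017))))
(L (nat_lit 29627859)))
(L (nat_lit 1424987)))
(L (nat_lit 27350474)))
(L (nat_lit 17163939)))
(L (nat_lit 8213679)))
(L (nat_lit 30559720)))
(L (nat_lit 24946148)))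
(L (nat_lit 19344164)))
(L (nat_lit 30943908)))
(L (nat_lit 27479117)))
(L (nat_lit 24292145)))
(L (nat_lit 23533323)))
(L (nat_lit 21833902)))
(L (nat_lit 27928750)))
(S (nat_lit 44991) (S (nat_lit 37322) (L (nat_lit 13736540))
(L (nat_lit 10343596)))
(L (nat_lit 20853928))))
(S (nat_lit 28537) (S (nat_lit 37285) (S (nat_lit 35098) (S (nat_lit 19789) (S (nat_lit 40343) (L (nat_lit 11932471))
(S (nat_lit 41486) (S (nat_lit 21733) (S (nat_lit 1874) (S (nat_lit 40531) (S (nat_lit 41271) (S (nat_lit 35115) (S (nat_lit 37322) (S (nat_lit 28574) (S (nat_lit 10999) (S (nat_lit 48290) (S (nat_lit 1944) (S (nat_lit 21454) (S (nat_lit 47) (S (nat_lit 23060) (S (nat_lit 42559) (S (nat_lit 22185) (S (nat_lit 25088) (S (nat_lit 14764) (S (nat_lit 42318) (D (nat_lit 13) (nat_lit 25802021) (nat_lit 19664329) (nat_lit 6598147737634))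
(L (nat_lit 28890368)))
(L (nat_lit 29804771)))
(L (nat_lit 27999425)))
(L (nat_lit 27765348)))
(L (nat_lit 19808549)))
(S (nat_lit 46991) (S (nat_lit 44245) (S (nat_lit 7449) (S (nat_lit 7025) (S (nat_lit 27185) (S (nat_lit 7765) (S (nat_lit 2832) (D (nat_lit 13) (nat_lit 31176838) (nat_lit 18997484) (nat_lit 2276433331334))
(L (nat_lit 28815075)))
(L (nat_lit 31037487)))
(L (nat_lit 28918887)))
(L (nat_lit 31043875)))
(L (nat_lit 28951777)))
(L (nat_lit 28913889)))
(L (nat_lit 16631945))))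
(L (nat_lit 18951984)))
(L (nat_lit 9550584)))
(L (nat_lit 20360995)))
(L (nat_lit 22251928)))
(L (nat_lit 6450674)))
(L (nat_lit 2727725)))
(L (nat_lit 2498354)))
(L (nat_lit 2510630)))
(L (nat_lit 24297225)))
(L (nat_lit 24341957)))
(L (nat_lit 23870600)))
(L (nat_lit 21365607)))
(L (nat_lit 3058353))))
(L (nat_lit 31041711)))
(L (nat_lit 13510838)))
(L (nat_lit 23636770)))
(S (nat_lit 48301) (S (nat_lit 35098) (S (nat_lit 50538) (S (nat_lit 54851) (S (nat_lit 17521) (S (nat_lit 972) (S (nat_lit 1277) (S (nat_lit 10982) (S (nat_lit 37335) (S (nat_lit 39603) (S (nat_lit 21770) (S (nat_lit 40790) (S (nat_lit 8779) (S (nat_lit 35115) (S (nat_lit 40807) (S (nat_lit 57071) (S (nat_lit 30171) (S (nat_lit 58155) (S (nat_lit 49924) (S (nat_lit 18795) (S (nat_lit 28210) (S (nat_lit 13767) (S (nat_lit 32568) (D (nat_lit 15) (nat_lit 30130311) (nat_lit 805290) (nat_lit 8729402502))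
(L (nat_lit 21473059)))
(L (nat_lit 28984643)))
(S (nat_lit 36143) (S (nat_lit 14010) (S (nat_lit 45718) (S (nat_lit 16381) (S (nat_lit 53538) (S (nat_lit 46321) (D (nat_lit 15) (nat_lit 1984876) (nat_lit 11100643) (nat_lit 275958005922))
(L (nat_lit 19440700)))
(L (nat_lit 2970122)))
(L (nat_lit 27742283)))
(L (nat_lit 19809473)))
(L (nat_lit 27870433)))
(L (nat_lit 4082927))))
(L (nat_lit 14411107)))
(L (nat_lit 18902380)))
(L (nat_lit 28326197)))
(L (nat_lit 29372758)))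
(L (nat_lit 5974892)))
(L (nat_lit 27283878)))
(L (nat_lit 9134254)))
(L (nat_lit 26497132)))
(L (nat_lit 17001056)))
(L (nat_lit 31134993)))
(L (nat_lit 18557053)))
(L (nat_lit 31074720)))
(L (nat_lit 23603973)))
(L (nat_lit 12659452)))
(L (nat_lit 12659506)))
(L (nat_lit 22063515)))
(L (nat_lit 27471954)))
(L (nat_lit 20097565)))
(L (nat_lit 20457661)))
(L (nat_lit 25187817)))))
(S (nat_lit 40818) (S (nat_lit 17510) (S (nat_lit 1701) (S (nat_lit 35137) (L (nat_lit 9467596))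
(L (nat_lit 10275852)))
(S (nat_lit 21465) (S (nat_lit 10999) (S (nat_lit 41304) (S (nat_lit 8773) (L (nat_lit 1633651))
(L (nat_lit 15471986)))
(L (nat_lit 23619810)))
(S (nat_lit 44563) (L (nat_lit 26793001))
(L (nat_lit 6928162))))
(S (nat_lit 41229) (S (nat_lit 1034) (S (nat_lit 41304) (L (nat_lit 387506))
(L (nat_lit 18685970)))
(L (nat_lit 13308157)))
(L (nat_lit 25768073)))))
(S (nat_lit 37274) (S (nat_lit 8983) (S (nat_lit 15436) (L (nat_lit 16861401))
(L (nat_lit 2733832)))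
(S (nat_lit 19789) (S (nat_lit 35098) (S (nat_lit 40542) (S (nat_lit 40531) (S (nat_lit 40575) (L (nat_lit 24646012))
(L (nat_lit 10018994)))
(L (nat_lit 10374597)))
(L (nat_lit 16789267)))
(S (nat_lit 47198) (L (nat_lit 13652251))
(L (nat_lit 12611209))))
(L (nat_lit 30845635))))
(S (nat_lit 57038) (S (nat_lit 41304) (S (nat_lit 28537) (S (nat_lit 35098) (S (nat_lit 35137) (S (nat_lit 19789) (S (nat_lit 40500) (L (nat_lit 29580428))
(L (nat_lit 10072221)))
(L (nat_lit 2698030)))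
(L (nat_lit 23890376)))
(L (nat_lit 30953640)))
(S (nat_lit 48757) (L (nat_lit 4469554))
(L (nat_lit 9451319))))
(L (nat_lit 24699106)))
(L (nat_lit 25742443)))))
(L (nat_lit 25478291)))))
(L (nat_lit 25274770)))))
(S (nat_lit 21479) (S (nat_lit 1991) (S (nat_lit 10999) (S (nat_lit 10977) (S (nat_lit 8812) (S (nat_lit 1838) (L (nat_lit 4760343))
(S (nat_lit 20736) (S (nat_lit 40790) (L (nat_lit 30760387))
(L (nat_lit 27762274)))
(L (nat_lit 931432))))
(S (nat_lit 28576) (S (nat_lit 1019) (S (nat_lit 15384) (L (nat_lit 19016561))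
(L (nat_lit 26590327)))
(L (nat_lit 14323463)))
(S (nat_lit 48340) (S (nat_lit 1019) (S (nat_lit 54851) (S (nat_lit 1036) (L (nat_lit 11375183))
(L (nat_lit 14587462)))
(L (nat_lit 21172013)))
(L (nat_lit 19733923)))
(L (nat_lit 25862193)))))
(S (nat_lit 30741) (S (nat_lit 1958) (S (nat_lit 47) (S (nat_lit 1019) (S (nat_lit 1975) (S (nat_lit 21540) (S (nat_lit 1036) (S (nat_lit 21496) (S (nat_lit 972) (S (nat_lit 997) (S (nat_lit 40785) (S (nat_lit 8762) (L (nat_lit 2313660))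
(L (nat_lit 20981615)))
(L (nat_lit 24613706)))
(L (nat_lit 12940341)))
(L (nat_lit 19215106)))
(L (nat_lit 5959919)))
(L (nat_lit 11212186)))
(L (nat_lit 30989538)))
(L (nat_lit 14345258)))
(L (nat_lit 13995799)))
(S (nat_lit 49909) (L (nat_lit 737532))
(L (nat_lit 12659511))))
(S (nat_lit 21722) (S (nat_lit 47) (S (nat_lit 1019) (S (nat_lit 15309) (S (nat_lit 17527) (L (nat_lit 11199536))
(L (nat_lit 7167056)))
(L (nat_lit 26411479)))
(S (nat_lit 20708) (L (nat_lit 1972663))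
(L (nat_lit 2769703))))
(S (nat_lit 16154) (L (nat_lit 20123503))
(L (nat_lit 6373980))))
(S (nat_lit 41486) (S (nat_lit 9455) (S (nat_lit 39559) (S (nat_lit 9868) (S (nat_lit 1072) (L (nat_lit 7193217))
(L (nat_lit 22423328)))
(L (nat_lit 6942245)))
(L (nat_lit 18121404)))
(S (nat_lit 20761) (S (nat_lit 29718) (S (nat_lit 20839) (L (nat_lit 26854442))
(L (nat_lit 3785085)))
(S (nat_lit 39559) (S (nat_lit 1290) (S (nat_lit 64) (S (nat_lit 54912) (S (nat_lit 1019) (S (nat_lit 1743) (S (nat_lit 50538) (S (nat_lit 10982) (S (nat_lit 1246) (S (nat_lit 41276) (S (nat_lit 20778) (S (nat_lit 40785) (S (nat_lit 10935) (S (nat_lit 1763) (S (nat_lit 41229) (S (nat_lit 40575) (S (nat_lit 39542) (S (nat_lit 20979) (S (nat_lit 35115) (S (nat_lit 47) (S (nat_lit 50477) (S (nat_lit 15309) (S (nat_lit 21770) (S (nat_lit 8823) (S (nat_lit 28576) (S (nat_lit 19328) (S (nat_lit 29685) (S (nat_lit 57088) (S (nat_lit 19345) (S (nat_lit 33213) (S (nat_lit 15636)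 (S (nat_lit 12524) (S (nat_lit 23836) (D (nat_lit 15) (nat_lit 27857201) (nat_lit 25761101) (nat_lit 208443482369))
(L (nat_lit 27745508)))
(L (nat_lit 28031204)))
(L (nat_lit 27965732)))
(S (nat_lit 35780) (S (nat_lit 54449) (S (nat_lit 37115) (D (nat_lit 15) (nat_lit 13640468) (nat_lit 5583448) (nat_lit 171807085704))
(L (nat_lit 19738816)))
(L (nat_lit 29014210)))
(L (nat_lit 10646125))))
(L (nat_lit 20878573)))
(L (nat_lit 19034601)))
(L (nat_lit 4114984)))
(L (nat_lit 20476129)))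
(L (nat_lit 30563849)))
(S (nat_lit 15281) (S (nat_lit 44620) (S (nat_lit 2528) (S (nat_lit 24858) (S (nat_lit 34788) (S (nat_lit 42603) (S (nat_lit 22342) (S (nat_lit 47421) (S (nat_lit 21563) (S (nat_lit 28227) (S (nat_lit 26758) (D (nat_lit 15) (nat_lit 26977729) (nat_lit 16343364) (nat_lit 202480673))
(L (nat_lit 21927337)))
(L (nat_lit 21937475)))
(S (nat_lit 51837) (S (nat_lit 49849) (S (nat_lit 31660) (S (nat_lit 51183) (S (nat_lit 35500) (D (nat_lit 15) (nat_lit 8173155) (nat_lit 5744402) (nat_lit 38925242471))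
(L (nat_lit 14902977)))
(L (nat_lit 26680960)))
(L (nat_lit 21807328)))
(L (nat_lit 21807296)))
(L (nat_lit 1685787))))
(L (nat_lit 21314587)))
(L (nat_lit 23426065)))
(L (nat_lit 9264548)))
(L (nat_lit 27726071)))
(L (nat_lit 27726410)))
(L (nat_lit 27743338)))
(L (nat_lit 29840610)))
(S (nat_lit 46206) (S (nat_lit 26060) (S (nat_lit 33562) (S (nat_lit 53569) (S (nat_lit 43575) (S (nat_lit 14225) (S (nat_lit 37285) (S (nat_lit 45217) (D (nat_lit 13) (nat_lit 26820742) (nat_lit 18617714) (nat_lit 242705566784))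
(L (nat_lit 28630563)))
(L (nat_lit 31177027)))
(S (nat_lit 18926) (S (nat_lit 48340) (D (nat_lit 15) (nat_lit 13420739) (nat_lit 3950860) (nat_lit 274884202726))
(L (nat_lit 27903170)))
(L (nat_lit 15058972))))
(L (nat_lit 29073422)))
(L (nat_lit 23262635)))
(L (nat_lit 27992450)))
(L (nat_lit 27999458)))
(L (nat_lit 6811732)))))
(L (nat_lit 30684866)))
(L (nat_lit 6840064)))
(L (nat_lit 27272629)))
(L (nat_lit 13917245)))
(L (nat_lit 30988640)))
(L (nat_lit 6943141)))
(L (nat_lit 24519802)))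
(L (nat_lit 3891405)))
(L (nat_lit 3782013)))
(L (nat_lit 19803184)))
(L (nat_lit 18023190)))
(L (nat_lit 18486088)))
(L (nat_lit 6471420)))
(L (nat_lit 17718406)))
(L (nat_lit 19739841)))
(L (nat_lit 26496485)))
(L (nat_lit 20068669)))
(L (nat_lit 18889611)))
(L (nat_lit 19744067)))
(L (nat_lit 19739936)))
(L (nat_lit 13817608)))
(L (nat_lit 6183400)))
(L (nat_lit 23364060))))
(L (nat_lit 648495))))
(L (nat_lit 25350385)))))
(S (nat_lit 50505) (S (nat_lit 8779) (S (nat_lit 1036) (S (nat_lit 21708) (S (nat_lit 1019) (L (nat_lit 1921358))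
(L (nat_lit 26680931)))
(L (nat_lit 7793251)))
(S (nat_lit 52350) (L (nat_lit 7015837))
(L (nat_lit 26941829))))
(S (nat_lit 28543) (S (nat_lit 21054) (S (nat_lit 1019) (S (nat_lit 37291) (S (nat_lit 1036) (L (nat_lit 18982364))
(L (nat_lit 19971883)))
(L (nat_lit 30492265)))
(L (nat_lit 20096816)))
(L (nat_lit 14755484)))
(S (nat_lit 48307) (S (nat_lit 19795) (S (nat_lit 37322) (S (nat_lit 39603) (S (nat_lit 37274) (L (nat_lit 246647))
(L (nat_lit 13689450)))
(L (nat_lit 27995584)))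
(L (nat_lit 20283865)))
(L (nat_lit 14976788)))
(L (nat_lit 25581673)))))
(L (nat_lit 25288070)))))
(S (nat_lit 30763) (S (nat_lit 1036) (S (nat_lit 15373) (S (nat_lit 64) (S (nat_lit 30699) (S (nat_lit 30746) (S (nat_lit 30761) (S (nat_lit 21496) (S (nat_lit 972) (S (nat_lit 15309) (S (nat_lit 40785) (L (nat_lit 247449))
(S (nat_lit 50444) (L (nat_lit 633242))
(L (nat_lit 24493829))))
(L (nat_lit 22552320)))
(L (nat_lit 13181698)))
(L (nat_lit 15485152)))
(L (nat_lit 17131701)))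
(L (nat_lit 14231611)))
(L (nat_lit 14556214)))
(L (nat_lit 6450612)))
(S (nat_lit 35137) (S (nat_lit 41472) (S (nat_lit 1019) (L (nat_lit 402139))
(L (nat_lit 13805335)))
(L (nat_lit 6469213)))
(S (nat_lit 54901) (S (nat_lit 64) (S (nat_lit 15371) (S (nat_lit 15309) (S (nat_lit 30746) (L (nat_lit 16510145))
(L (nat_lit 14395419)))
(L (nat_lit 26271239)))
(L (nat_lit 670044)))
(S (nat_lit 52639) (L (nat_lit 2309906))
(L (nat_lit 20298498))))
(L (nat_lit 25544418)))))
(S (nat_lit 20800) (S (nat_lit 8790) (S (nat_lit 1975) (S (nat_lit 10982) (S (nat_lit 1257) (L (nat_lit 13947648))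
(L (nat_lit 6116653)))
(L (nat_lit 6419148)))
(L (nat_lit 19738081)))
(S (nat_lit 28554) (S (nat_lit 10982) (S (nat_lit 57055) (L (nat_lit 19250364))
(L (nat_lit 21267245)))
(L (nat_lit 21281572)))
(S (nat_lit 48318) (S (nat_lit 54879) (S (nat_lit 21026) (L (nat_lit 7041200))
(L (nat_lit 22816160)))
(L (nat_lit 5894566)))
(L (nat_lit 25255278)))))
(S (nat_lit 40564) (S (nat_lit 1246) (S (nat_lit 57049) (S (nat_lit 48301) (L (nat_lit 26782339))
(L (nat_lit 14298947)))
(L (nat_lit 19377987)))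
(S (nat_lit 40405) (L (nat_lit 13435218))
(L (nat_lit 14488948))))
(L (nat_lit 25723157)))))
(S (nat_lit 50527) (S (nat_lit 14) (S (nat_lit 1047) (S (nat_lit 41486) (S (nat_lit 37291) (L (nat_lit 26844176))
(L (nat_lit 20214178)))
(L (nat_lit 651505)))
(S (nat_lit 20811) (S (nat_lit 48301) (S (nat_lit 57049) (S (nat_lit 31) (L (nat_lit 26781346))
(L (nat_lit 1919432)))
(L (nat_lit 14895874)))
(L (nat_lit 22230786)))
(S (nat_lit 40575) (S (nat_lit 1262) (S (nat_lit 35098) (S (nat_lit 1748) (L (nat_lit 19117890))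
(L (nat_lit 19045136)))
(L (nat_lit 20453160)))
(L (nat_lit 26598576)))
(L (nat_lit 25271949)))))
(S (nat_lit 19778) (S (nat_lit 1765) (S (nat_lit 11010) (S (nat_lit 21722) (S (nat_lit 54899) (S (nat_lit 1748) (S (nat_lit 64) (S (nat_lit 41254) (S (nat_lit 21496) (S (nat_lit 41534) (S (nat_lit 35104) (S (nat_lit 47) (S (nat_lit 1944) (S (nat_lit 15373) (S (nat_lit 1125) (L (nat_lit 9519705))
(S (nat_lit 14577) (S (nat_lit 33039) (L (nat_lit 8566525))
(L (nat_lit 26886369)))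
(L (nat_lit 21905480))))
(L (nat_lit 22514939)))
(L (nat_lit 14279013)))
(L (nat_lit 12875365)))
(L (nat_lit 20480937)))
(L (nat_lit 18026326)))
(L (nat_lit 30871796)))
(L (nat_lit 6712005)))
(L (nat_lit 1626920)))
(L (nat_lit 11728465)))
(L (nat_lit 13784442)))
(L (nat_lit 16381154)))
(L (nat_lit 26847345)))
(S (nat_lit 21529) (S (nat_lit 24510) (L (nat_lit 733105))
(S (nat_lit 57049) (S (nat_lit 21021) (L (nat_lit 19983727))
(L (nat_lit 14734186)))
(L (nat_lit 15379202))))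
(S (nat_lit 41293) (S (nat_lit 1019) (S (nat_lit 17571) (L (nat_lit 446780))
(L (nat_lit 24521569)))
(L (nat_lit 19729681)))
(L (nat_lit 25710727)))))
(S (nat_lit 39542) (S (nat_lit 1003) (S (nat_lit 48290) (S (nat_lit 48351) (L (nat_lit 5945099))
(L (nat_lit 20359968)))
(L (nat_lit 19931949)))
(S (nat_lit 20767) (S (nat_lit 1229) (S (nat_lit 21041) (L (nat_lit 9881628))
(L (nat_lit 12097335)))
(S (nat_lit 28627) (L (nat_lit 5462521))
(L (nat_lit 5520061))))
(S (nat_lit 40531) (S (nat_lit 54868) (S (nat_lit 41503) (S (nat_lit 39559) (S (nat_lit 41547) (L (nat_lit 3878361))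
(L (nat_lit 23923145)))
(L (nat_lit 4519567)))
(L (nat_lit 2356879)))
(L (nat_lit 5882664)))
(L (nat_lit 25544719)))))
(L (nat_lit 25398743)))))
(L (nat_lit 25348649)))))
(S (nat_lit 21755) (S (nat_lit 8773) (S (nat_lit 1765) (S (nat_lit 54851) (S (nat_lit 37307) (S (nat_lit 17510) (S (nat_lit 40564) (L (nat_lit 22937805))
(L (nat_lit 7399022)))
(L (nat_lit 15789674)))
(L (nat_lit 14362651)))
(L (nat_lit 27472485)))
(S (nat_lit 21529) (S (nat_lit 20798) (S (nat_lit 1277) (S (nat_lit 39603) (S (nat_lit 50494) (S (nat_lit 39575) (S (nat_lit 1958) (S (nat_lit 40818) (S (nat_lit 1019) (S (nat_lit 30746) (S (nat_lit 19806) (S (nat_lit 17538) (S (nat_lit 25058) (S (nat_lit 35104) (S (nat_lit 28543) (S (nat_lit 57086) (S (nat_lit 43552) (S (nat_lit 21783) (S (nat_lit 41472) (S (nat_lit 21564) (S (nat_lit 38465) (S (nat_lit 16660) (S (nat_lit 9364) (S (nat_lit 45457) (D (nat_lit 13) (nat_lit 31107151) (nat_lit 12771915) (nat_lit 277062326372))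
(L (nat_lit 16024404)))
(L (nat_lit 27868417)))
(L (nat_lit 28904971)))
(L (nat_lit 16633120)))
(S (nat_lit 56149) (S (nat_lit 10305) (S (nat_lit 52156) (D (nat_lit 15) (nat_lit 25761004) (nat_lit 19664204) (nat_lit 2186285187))
(L (nat_lit 17066629)))
(L (nat_lit 28626369)))
(L (nat_lit 1435212))))
(L (nat_lit 27374963)))
(L (nat_lit 15588675)))
(L (nat_lit 31141041)))
(L (nat_lit 4594452)))
(L (nat_lit 30973047)))
(L (nat_lit 18776680)))
(L (nat_lit 10513004)))
(L (nat_lit 7990657)))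
(L (nat_lit 22297377)))
(L (nat_lit 24554309)))
(L (nat_lit 11339376)))
(L (nat_lit 551282)))
(L (nat_lit 5690184)))
(L (nat_lit 25045381)))
(L (nat_lit 22839568)))
(L (nat_lit 17509152)))
(L (nat_lit 26946048)))
(L (nat_lit 15412001)))
(S (nat_lit 41293) (S (nat_lit 40564) (S (nat_lit 26939) (L (nat_lit 6040145))
(S (nat_lit 39603) (S (nat_lit 21026) (S (nat_lit 10935) (L (nat_lit 26946702))
(L (nat_lit 6307638)))
(L (nat_lit 30605719)))
(L (nat_lit 17541243))))
(L (nat_lit 27302510)))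
(L (nat_lit 25700960)))))
(S (nat_lit 28537) (S (nat_lit 1986) (S (nat_lit 1732) (S (nat_lit 11173) (L (nat_lit 12096252))
(S (nat_lit 48307) (S (nat_lit 28587) (S (nat_lit 1019) (S (nat_lit 1701) (S (nat_lit 1215) (S (nat_lit 1277) (S (nat_lit 19778) (S (nat_lit 20736) (S (nat_lit 50463) (S (nat_lit 21529) (S (nat_lit 35135) (S (nat_lit 41534) (S (nat_lit 15185) (S (nat_lit 10999) (S (nat_lit 34960) (S (nat_lit 21783) (S (nat_lit 11835) (S (nat_lit 9679) (S (nat_lit 10154) (S (nat_lit 55177) (S (nat_lit 27944) (S (nat_lit 1572) (D (nat_lit 13) (nat_lit 29001095) (nat_lit 19664262) (nat_lit 1138169585830))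
(L (nat_lit 28979456)))
(L (nat_lit 28942480)))
(L (nat_lit 28429801)))
(L (nat_lit 31009216)))
(L (nat_lit 31011170)))
(S (nat_lit 49919) (S (nat_lit 38832) (S (nat_lit 50682) (S (nat_lit 26972) (S (nat_lit 20347) (S (nat_lit 39080) (D (nat_lit 13) (nat_lit 26848645) (nat_lit 25760972) (nat_lit 5500919059521))
(L (nat_lit 29045830)))
(L (nat_lit 28725572)))
(L (nat_lit 28945424)))
(L (nat_lit 19295238)))
(L (nat_lit 28945857)))
(L (nat_lit 8064568))))
(L (nat_lit 22856003)))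
(L (nat_lit 6811233)))
(L (nat_lit 7990819)))
(L (nat_lit 20818306)))
(L (nat_lit 17648648)))
(L (nat_lit 2760493)))
(L (nat_lit 5461400)))
(L (nat_lit 20153915)))
(L (nat_lit 16591426)))
(L (nat_lit 10309745)))
(L (nat_lit 19949097)))
(L (nat_lit 19671148)))
(L (nat_lit 12668280)))
(L (nat_lit 13436489)))
(L (nat_lit 12774710)))
(L (nat_lit 20854857))))
(S (nat_lit 21496) (S (nat_lit 28587) (S (nat_lit 1257) (L (nat_lit 7370412))
(L (nat_lit 11353170)))
(L (nat_lit 13216512)))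
(S (nat_lit 41260) (S (nat_lit 37285) (S (nat_lit 21043) (L (nat_lit 11047698))
(L (nat_lit 30658734)))
(L (nat_lit 14488201)))
(L (nat_lit 25399983)))))
(S (nat_lit 21750) (S (nat_lit 41433) (S (nat_lit 17543) (S (nat_lit 972) (L (nat_lit 20266784))
(L (nat_lit 8786706)))
(L (nat_lit 7148082)))
(S (nat_lit 54851) (S (nat_lit 20798) (S (nat_lit 1246) (S (nat_lit 40564) (L (nat_lit 30460294))
(L (nat_lit 8207968)))
(L (nat_lit 6138324)))
(S (nat_lit 51060) (L (nat_lit 3676980))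
(L (nat_lit 30518001))))
(L (nat_lit 10544690))))
(S (nat_lit 41514) (S (nat_lit 1257) (S (nat_lit 1776) (S (nat_lit 20811) (L (nat_lit 8914738))
(L (nat_lit 30972946)))
(L (nat_lit 19074924)))
(S (nat_lit 21021) (S (nat_lit 17543) (S (nat_lit 40500) (S (nat_lit 986) (L (nat_lit 22221581))
(L (nat_lit 8804195)))
(L (nat_lit 7761042)))
(L (nat_lit 7148082)))
(S (nat_lit 40785) (S (nat_lit 15309) (S (nat_lit 10935) (S (nat_lit 21026) (S (nat_lit 8795) (L (nat_lit 26612982))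
(L (nat_lit 8098607)))
(L (nat_lit 14741095)))
(L (nat_lit 247449)))
(L (nat_lit 24576249)))
(L (nat_lit 25367059)))))
(L (nat_lit 25213139)))))
(S (nat_lit 48301) (S (nat_lit 17558) (S (nat_lit 1958) (S (nat_lit 39603) (S (nat_lit 20798) (S (nat_lit 20767) (S (nat_lit 1246) (S (nat_lit 57071) (S (nat_lit 50494) (S (nat_lit 12978) (S (nat_lit 62) (S (nat_lit 41534) (S (nat_lit 35135) (S (nat_lit 48323) (S (nat_lit 35987) (S (nat_lit 36015) (S (nat_lit 13009) (S (nat_lit 3101) (S (nat_lit 3604) (S (nat_lit 27882) (S (nat_lit 54277) (D (nat_lit 13) (nat_lit 16679561) (nat_lit 3743502) (nat_lit 3545598498054))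
(L (nat_lit 30127365)))
(L (nat_lit 17700553)))
(L (nat_lit 30033252)))
(S (nat_lit 7906) (S (nat_lit 23644) (S (nat_lit 19053) (D (nat_lit 15) (nat_lit 28027948) (nat_lit 25761100) (nat_lit 207403293922))
(L (nat_lit 28821792)))
(L (nat_lit 19774752)))
(L (nat_lit 15790295))))
(L (nat_lit 11390369)))
(L (nat_lit 30084334)))
(L (nat_lit 30129507)))
(L (nat_lit 16650890)))
(L (nat_lit 31006181)))
(L (nat_lit 7097858)))
(L (nat_lit 7922871)))
(L (nat_lit 8178865)))
(L (nat_lit 6078184)))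
(L (nat_lit 27578853)))
(L (nat_lit 14494372)))
(L (nat_lit 6040239)))
(L (nat_lit 830193)))
(L (nat_lit 27404973)))
(S (nat_lit 48247) (L (nat_lit 9962105))
(L (nat_lit 26618007))))
(S (nat_lit 37322) (S (nat_lit 40807) (S (nat_lit 42) (S (nat_lit 8812) (L (nat_lit 12611179))
(L (nat_lit 7498449)))
(L (nat_lit 7853241)))
(L (nat_lit 27841707)))
(S (nat_lit 57086) (S (nat_lit 20750) (S (nat_lit 1279) (S (nat_lit 39570) (S (nat_lit 17538) (S (nat_lit 15371) (L (nat_lit 26509968))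
(L (nat_lit 22984874)))
(L (nat_lit 748881)))
(L (nat_lit 17716390)))
(L (nat_lit 14570662)))
(L (nat_lit 7165104)))
(L (nat_lit 25345675)))))
(L (nat_lit 25177713)))))
(S (nat_lit 41519) (S (nat_lit 1014) (S (nat_lit 10949) (S (nat_lit 10977) (S (nat_lit 15334) (S (nat_lit 8823) (L (nat_lit 8239713))
(L (nat_lit 349593)))
(L (nat_lit 8044450)))
(S (nat_lit 30741) (S (nat_lit 2019) (S (nat_lit 54899) (S (nat_lit 28543) (L (nat_lit 19020648))
(L (nat_lit 3928457)))
(L (nat_lit 27918669)))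
(S (nat_lit 23877) (L (nat_lit 10140512))
(L (nat_lit 18904523))))
(S (nat_lit 50505) (S (nat_lit 35137) (S (nat_lit 40525) (S (nat_lit 1776) (S (nat_lit 30730) (S (nat_lit 39592) (S (nat_lit 50538) (S (nat_lit 21708) (S (nat_lit 41260) (S (nat_lit 40531) (S (nat_lit 21527) (S (nat_lit 1701) (S (nat_lit 42) (S (nat_lit 6767) (L (nat_lit 5452413))
(L (nat_lit 30694949)))
(L (nat_lit 20823206)))
(L (nat_lit 19704909)))
(L (nat_lit 30460454)))
(S (nat_lit 53221) (L (nat_lit 8783612))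
(L (nat_lit 24145263))))
(L (nat_lit 8882844)))
(L (nat_lit 7991468)))
(L (nat_lit 27629078)))
(L (nat_lit 12079129)))
(L (nat_lit 10191632)))
(L (nat_lit 13857971)))
(L (nat_lit 27679851)))
(L (nat_lit 13263075)))
(L (nat_lit 25444961)))))
(S (nat_lit 30713) (S (nat_lit 10999) (S (nat_lit 41271) (S (nat_lit 40768) (S (nat_lit 20811) (S (nat_lit 11010) (S (nat_lit 54851) (S (nat_lit 21054) (S (nat_lit 35148) (S (nat_lit 19795) (S (nat_lit 40514) (S (nat_lit 39603) (S (nat_lit 1019) (S (nat_lit 41260) (S (nat_lit 1257) (S (nat_lit 40743) (S (nat_lit 1776) (S (nat_lit 39592) (S (nat_lit 41503) (S (nat_lit 50494) (S (nat_lit 35135) (S (nat_lit 54837) (S (nat_lit 5792) (S (nat_lit 58874) (S (nat_lit 25346) (S (nat_lit 39079) (S (nat_lit 49663) (S (nat_lit 2272) (S (nat_lit 16956) (S (nat_lit 40471) (S (nat_lit 35000) (D (nat_lit 13) (nat_lit 10243458) (nat_lit 10665560) (nat_lit 7839528779840))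
(L (nat_lit 14877492)))
(L (nat_lit 26886368)))
(S (nat_lit 48338) (S (nat_lit 8864) (S (nat_lit 38203) (S (nat_lit 14972) (D (nat_lit 13) (nat_lit 27414736) (nat_lit 25381347) (nat_lit 7732216403110))
(L (nat_lit 27794612)))
(L (nat_lit 27795013)))
(L (nat_lit 28033348)))
(L (nat_lit 6109557))))
(L (nat_lit 27476642)))
(L (nat_lit 13478594)))
(L (nat_lit 6321901)))
(L (nat_lit 15958617)))
(L (nat_lit 15927090)))
(S (nat_lit 53232) (S (nat_lit 13967) (S (nat_lit 7747) (S (nat_lit 49894) (S (nat_lit 33002) (S (nat_lit 13207) (S (nat_lit 10550) (S (nat_lit 38090) (S (nat_lit 16896) (S (nat_lit 10146) (S (nat_lit 51152) (D (nat_lit 15) (nat_lit 27315469) (nat_lit 12896344) (nat_lit 139588567047))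
(L (nat_lit 29963369)))
(L (nat_lit 29707811)))
(L (nat_lit 27899105)))
(S (nat_lit 53372) (S (nat_lit 28512) (S (nat_lit 52313) (D (nat_lit 13) (nat_lit 30758993) (nat_lit 19194403) (nat_lit 2237881387267))
(L (nat_lit 21774560)))
(L (nat_lit 25835712)))
(L (nat_lit 15541988))))
(L (nat_lit 27645007)))
(L (nat_lit 27481199)))
(L (nat_lit 11458084)))
(L (nat_lit 21235532)))
(L (nat_lit 16975762)))
(L (nat_lit 14877586)))
(S (nat_lit 55797) (S (nat_lit 11051) (S (nat_lit 21168) (S (nat_lit 55802) (S (nat_lit 36248) (S (nat_lit 50316) (S (nat_lit 27899) (S (nat_lit 9637) (S (nat_lit 38192) (D (nat_lit 11) (nat_lit 27381009) (nat_lit 25761259) (nat_lit 278306788549))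
(L (nat_lit 22977027)))
(L (nat_lit 29015331)))
(S (nat_lit 37395) (S (nat_lit 29444) (S (nat_lit 17625) (S (nat_lit 23753) (D (nat_lit 13) (nat_lit 29409621) (nat_lit 11291107) (nat_lit 7971628126215))
(L (nat_lit 23534465)))
(L (nat_lit 27546017)))
(L (nat_lit 27865281)))
(L (nat_lit 26543793))))
(L (nat_lit 734555)))
(L (nat_lit 9122720)))
(L (nat_lit 6960282)))
(L (nat_lit 668491)))
(L (nat_lit 27545988)))
(L (nat_lit 432983)))))
(L (nat_lit 19333990)))
(L (nat_lit 3742509)))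
(L (nat_lit 5862669)))
(L (nat_lit 17476761)))
(L (nat_lit 27829268)))
(L (nat_lit 12087314)))
(L (nat_lit 9868891)))
(L (nat_lit 8901720)))
(L (nat_lit 8908416)))
(L (nat_lit 19367689)))
(L (nat_lit 23421409)))
(L (nat_lit 23412513)))
(L (nat_lit 31064520)))
(L (nat_lit 9060096)))
(L (nat_lit 22047948)))
(L (nat_lit 19100037)))
(L (nat_lit 7230881)))
(L (nat_lit 7047084)))
(L (nat_lit 23486470)))
(L (nat_lit 27284749)))
(S (nat_lit 30763) (S (nat_lit 28587) (S (nat_lit 41514) (L (nat_lit 24255960))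
(L (nat_lit 9322179)))
(S (nat_lit 49894) (L (nat_lit 17629426))
(L (nat_lit 10075904))))
(S (nat_lit 50527) (S (nat_lit 21054) (S (nat_lit 1776) (S (nat_lit 21733) (L (nat_lit 26391794))
(L (nat_lit 31047687)))
(L (nat_lit 3031689)))
(L (nat_lit 15572018)))
(L (nat_lit 25339597)))))
(S (nat_lit 50477) (S (nat_lit 1003) (S (nat_lit 54862) (S (nat_lit 48276) (L (nat_lit 19966397))
(L (nat_lit 20149294)))
(L (nat_lit 14527042)))
(S (nat_lit 20767) (S (nat_lit 40146) (S (nat_lit 6286) (L (nat_lit 19022075))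
(L (nat_lit 24983776)))
(S (nat_lit 48351) (S (nat_lit 48323) (S (nat_lit 62) (L (nat_lit 29601811))
(L (nat_lit 963927)))
(L (nat_lit 27863493)))
(L (nat_lit 11002593))))
(S (nat_lit 40531) (S (nat_lit 17527) (S (nat_lit 8779) (L (nat_lit 15336232))
(L (nat_lit 21837896)))
(L (nat_lit 16602184)))
(L (nat_lit 25644038)))))
(L (nat_lit 25680970)))))
(S (nat_lit 20778) (S (nat_lit 10966) (S (nat_lit 15323) (S (nat_lit 40807) (S (nat_lit 28543) (L (nat_lit 11948899))
(L (nat_lit 31176808)))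
(L (nat_lit 7421564)))
(S (nat_lit 35087) (S (nat_lit 1748) (S (nat_lit 35115) (S (nat_lit 42841) (L (nat_lit 3469783))
(L (nat_lit 30638705)))
(L (nat_lit 10183072)))
(S (nat_lit 40149) (L (nat_lit 30692867))
(L (nat_lit 19734913))))
(S (nat_lit 54851) (S (nat_lit 17571) (S (nat_lit 21041) (S (nat_lit 8748) (L (nat_lit 28889193))
(L (nat_lit 833780)))
(L (nat_lit 7129602)))
(S (nat_lit 48629) (S (nat_lit 40807) (L (nat_lit 8971348))
(L (nat_lit 7421564)))
(L (nat_lit 7229551))))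
(L (nat_lit 25862253)))))
(S (nat_lit 30730) (S (nat_lit 17496) (S (nat_lit 35148) (S (nat_lit 10935) (L (nat_lit 18782784))
(L (nat_lit 7036975)))
(L (nat_lit 2703111)))
(S (nat_lit 37260) (S (nat_lit 1229) (S (nat_lit 8773) (S (nat_lit 40818) (L (nat_lit 7356215))
(L (nat_lit 16802163)))
(L (nat_lit 245370)))
(L (nat_lit 6044886)))
(S (nat_lit 57024) (S (nat_lit 20798) (S (nat_lit 28512) (L (nat_lit 31145003))
(L (nat_lit 18882384)))
(L (nat_lit 22588257)))
(L (nat_lit 25413281)))))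
(S (nat_lit 50494) (S (nat_lit 10949) (S (nat_lit 21529) (S (nat_lit 17560) (L (nat_lit 8023458))
(L (nat_lit 926381)))
(L (nat_lit 840103)))
(S (nat_lit 30713) (S (nat_lit 29088) (L (nat_lit 22574401))
(S (nat_lit 54862) (S (nat_lit 25) (S (nat_lit 41271) (S (nat_lit 19806) (S (nat_lit 45331) (L (nat_lit 2314684))
(L (nat_lit 11146716)))
(L (nat_lit 21263501)))
(L (nat_lit 27513348)))
(L (nat_lit 14473352)))
(L (nat_lit 13853315))))
(S (nat_lit 50477) (S (nat_lit 40575) (S (nat_lit 1944) (S (nat_lit 54851) (S (nat_lit 10982) (S (nat_lit 21722) (S (nat_lit 1743) (L (nat_lit 26745874))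
(L (nat_lit 12406892)))
(L (nat_lit 11105328)))
(L (nat_lit 6723349)))
(L (nat_lit 27796596)))
(L (nat_lit 6040978)))
(L (nat_lit 27303378)))
(L (nat_lit 25890062)))))
(L (nat_lit 25712930)))))
(S (nat_lit 40542) (S (nat_lit 1732) (S (nat_lit 20993) (S (nat_lit 28574) (S (nat_lit 21783) (S (nat_lit 35073) (S (nat_lit 50525) (L (nat_lit 1260372))
(L (nat_lit 22878380)))
(L (nat_lit 23926800)))
(L (nat_lit 7368364)))
(S (nat_lit 44758) (L (nat_lit 16802408))
(L (nat_lit 30587221))))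
(S (nat_lit 35743) (L (nat_lit 6317621))
(L (nat_lit 22953314))))
(S (nat_lit 21496) (S (nat_lit 1701) (S (nat_lit 18599) (L (nat_lit 26651829))
(S (nat_lit 41472) (S (nat_lit 1246) (S (nat_lit 39603) (S (nat_lit 30774) (L (nat_lit 16928121))
(L (nat_lit 30789025)))
(L (nat_lit 24908076)))
(L (nat_lit 3813755)))
(L (nat_lit 23504061))))
(S (nat_lit 21465) (S (nat_lit 20736) (S (nat_lit 57049) (S (nat_lit 48301) (L (nat_lit 29032813))
(L (nat_lit 11157250)))
(L (nat_lit 10998530)))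
(L (nat_lit 651596)))
(S (nat_lit 41229) (S (nat_lit 48318) (S (nat_lit 20979) (L (nat_lit 28579440))
(L (nat_lit 7163052)))
(S (nat_lit 58454) (L (nat_lit 25034960))
(L (nat_lit 14567558))))
(L (nat_lit 25768009)))))
(S (nat_lit 41260) (S (nat_lit 17571) (S (nat_lit 10997) (S (nat_lit 20798) (L (nat_lit 18186904))
(L (nat_lit 830193)))
(L (nat_lit 18012540)))
(S (nat_lit 37335) (S (nat_lit 8823) (S (nat_lit 1246) (S (nat_lit 35148) (L (nat_lit 10120641))
(L (nat_lit 23424384)))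
(L (nat_lit 4008437)))
(L (nat_lit 8279424)))
(S (nat_lit 57099) (S (nat_lit 48351) (S (nat_lit 19811) (S (nat_lit 40774) (L (nat_lit 17405734))
(L (nat_lit 23571236)))
(L (nat_lit 8905750)))
(L (nat_lit 20424829)))
(L (nat_lit 25498225)))))
(L (nat_lit 25863648)))))
(L (nat_lit 25350444)))))
(L (nat_lit 25633344)))))
(S (nat_lit 41243) (S (nat_lit 1763) (S (nat_lit 2006) (S (nat_lit 31) (S (nat_lit 17558) (S (nat_lit 57024) (S (nat_lit 15384) (L (nat_lit 1592166))
(L (nat_lit 931095)))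
(L (nat_lit 19826214)))
(S (nat_lit 37322) (S (nat_lit 1246) (S (nat_lit 997) (S (nat_lit 28559) (L (nat_lit 29963461))
(L (nat_lit 19162125)))
(L (nat_lit 14282981)))
(L (nat_lit 19738758)))
(S (nat_lit 57086) (S (nat_lit 972) (S (nat_lit 30699) (L (nat_lit 13537618))
(L (nat_lit 14360448)))
(L (nat_lit 19150596)))
(L (nat_lit 25762988)))))
(S (nat_lit 19795) (S (nat_lit 11010) (S (nat_lit 21722) (S (nat_lit 54862) (S (nat_lit 25) (L (nat_lit 22405296))
(L (nat_lit 26613448)))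
(L (nat_lit 19086521)))
(S (nat_lit 55675) (L (nat_lit 13504754))
(L (nat_lit 4827609))))
(S (nat_lit 30774) (S (nat_lit 48301) (L (nat_lit 24653569))
(L (nat_lit 13880508)))
(S (nat_lit 50538) (S (nat_lit 28537) (S (nat_lit 37285) (S (nat_lit 40542) (L (nat_lit 3682008))
(L (nat_lit 17602280)))
(L (nat_lit 13855894)))
(L (nat_lit 19098769)))
(L (nat_lit 25311540)))))
(S (nat_lit 39559) (S (nat_lit 1003) (S (nat_lit 18181) (S (nat_lit 28377) (L (nat_lit 10370231))
(L (nat_lit 19968843)))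
(S (nat_lit 30741) (S (nat_lit 37302) (S (nat_lit 28554) (L (nat_lit 13519014))
(L (nat_lit 3433072)))
(L (nat_lit 3432855)))
(L (nat_lit 2406198))))
(S (nat_lit 20767) (S (nat_lit 28537) (S (nat_lit 37285) (L (nat_lit 30062758))
(L (nat_lit 13855894)))
(L (nat_lit 19098769)))
(S (nat_lit 40531) (S (nat_lit 28537) (S (nat_lit 37285) (S (nat_lit 20798) (L (nat_lit 14297922))
(L (nat_lit 21213987)))
(L (nat_lit 17541304)))
(S (nat_lit 35935) (S (nat_lit 40774) (L (nat_lit 3394972))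
(L (nat_lit 10374593)))
(L (nat_lit 19086520))))
(L (nat_lit 25375360)))))
(L (nat_lit 25833763)))))
(S (nat_lit 21770) (S (nat_lit 8823) (S (nat_lit 1240) (S (nat_lit 21043) (S (nat_lit 10966) (S (nat_lit 20798) (L (nat_lit 536315))
(L (nat_lit 6867747)))
(L (nat_lit 26492642)))
(L (nat_lit 4763256)))
(S (nat_lit 21004) (S (nat_lit 39603) (S (nat_lit 10977) (L (nat_lit 12801177))
(L (nat_lit 6371254)))
(L (nat_lit 17503517)))
(S (nat_lit 40768) (S (nat_lit 20798) (S (nat_lit 20750) (L (nat_lit 13216825))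
(L (nat_lit 22948880)))
(L (nat_lit 6853430)))
(L (nat_lit 25496085)))))
(S (nat_lit 28587) (S (nat_lit 1215) (S (nat_lit 41293) (S (nat_lit 35098) (L (nat_lit 7116464))
(L (nat_lit 13445699)))
(L (nat_lit 3357305)))
(S (nat_lit 26296) (S (nat_lit 24109) (L (nat_lit 22162220))
(L (nat_lit 19672240)))
(L (nat_lit 12865315))))
(S (nat_lit 48351) (S (nat_lit 40774) (S (nat_lit 20798) (S (nat_lit 39603) (S (nat_lit 54851) (L (nat_lit 4777271))
(L (nat_lit 14535787)))
(L (nat_lit 17541245)))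
(L (nat_lit 7195696)))
(L (nat_lit 25040363)))
(L (nat_lit 25799041)))))
(S (nat_lit 41534) (S (nat_lit 10999) (S (nat_lit 10966) (S (nat_lit 23317) (S (nat_lit 31593) (L (nat_lit 21901506))
(L (nat_lit 18117348)))
(S (nat_lit 28537) (S (nat_lit 20798) (L (nat_lit 11308784))
(L (nat_lit 16454441)))
(L (nat_lit 2829816))))
(S (nat_lit 30730) (S (nat_lit 1019) (S (nat_lit 54851) (S (nat_lit 39570) (L (nat_lit 12740232))
(L (nat_lit 27344242)))
(L (nat_lit 18886936)))
(S (nat_lit 37830) (L (nat_lit 8502199))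
(L (nat_lit 19074833))))
(S (nat_lit 50494) (S (nat_lit 41207) (L (nat_lit 2651383))
(L (nat_lit 5452598)))
(L (nat_lit 25593111)))))
(S (nat_lit 30763) (S (nat_lit 28559) (S (nat_lit 37307) (L (nat_lit 17067747))
(L (nat_lit 31041550)))
(S (nat_lit 40588) (L (nat_lit 19247873))
(L (nat_lit 19277849))))
(S (nat_lit 50527) (S (nat_lit 10966) (S (nat_lit 41497) (S (nat_lit 39570) (S (nat_lit 21739) (S (nat_lit 35087) (S (nat_lit 19839) (S (nat_lit 21722) (S (nat_lit 21512) (S (nat_lit 1991) (S (nat_lit 10935) (L (nat_lit 7212599))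
(S (nat_lit 30699) (S (nat_lit 28574) (L (nat_lit 18177178))
(L (nat_lit 18733413)))
(S (nat_lit 50463) (S (nat_lit 35104) (S (nat_lit 19778) (S (nat_lit 50510) (S (nat_lit 54879) (S (nat_lit 17406) (S (nat_lit 34235) (S (nat_lit 49388) (S (nat_lit 12125) (S (nat_lit 23317) (L (nat_lit 3389145))
(L (nat_lit 26985697)))
(L (nat_lit 14935681)))
(L (nat_lit 21772480)))
(L (nat_lit 26951904)))
(S (nat_lit 31624) (L (nat_lit 1328792))
(L (nat_lit 4412208))))
(L (nat_lit 19293350)))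
(L (nat_lit 20354298)))
(L (nat_lit 16649527)))
(L (nat_lit 2847273)))
(L (nat_lit 25216214)))))
(L (nat_lit 20253456)))
(L (nat_lit 683430)))
(L (nat_lit 1449751)))
(L (nat_lit 2442003)))
(L (nat_lit 31174762)))
(L (nat_lit 31110369)))
(L (nat_lit 24428289)))
(L (nat_lit 23501572)))
(S (nat_lit 30730) (S (nat_lit 2019) (S (nat_lit 19828) (S (nat_lit 45091) (L (nat_lit 19705006))
(L (nat_lit 29370989)))
(L (nat_lit 31144968)))
(S (nat_lit 51371) (S (nat_lit 52343) (L (nat_lit 14248968))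
(L (nat_lit 18983692)))
(L (nat_lit 19460323))))
(S (nat_lit 50494) (S (nat_lit 28559) (L (nat_lit 29996227))
(L (nat_lit 19436363)))
(L (nat_lit 25481293)))))
(L (nat_lit 25506839)))))
(L (nat_lit 25929216)))))
(S (nat_lit 21527) (S (nat_lit 986) (S (nat_lit 997) (S (nat_lit 1279) (S (nat_lit 50494) (S (nat_lit 20798) (L (nat_lit 17045399))
(L (nat_lit 31133937)))
(L (nat_lit 20186928)))
(S (nat_lit 21043) (S (nat_lit 2019) (S (nat_lit 41254) (S (nat_lit 21529) (S (nat_lit 15340) (S (nat_lit 54837) (S (nat_lit 39590) (S (nat_lit 41503) (S (nat_lit 51618) (L (nat_lit 2376413))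
(L (nat_lit 19456040)))
(L (nat_lit 7129135)))
(L (nat_lit 12285445)))
(L (nat_lit 13850529)))
(L (nat_lit 26531203)))
(L (nat_lit 7917720)))
(L (nat_lit 25068815)))
(L (nat_lit 12867736)))
(S (nat_lit 40807) (S (nat_lit 30730) (L (nat_lit 8173751))
(L (nat_lit 8470104)))
(L (nat_lit 25710694)))))
(S (nat_lit 20761) (S (nat_lit 1975) (S (nat_lit 28537) (L (nat_lit 16520872))
(L (nat_lit 30611121)))
(S (nat_lit 21739) (S (nat_lit 1969) (S (nat_lit 40774) (S (nat_lit 10999) (S (nat_lit 39603) (L (nat_lit 18633060))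
(L (nat_lit 28022215)))
(L (nat_lit 650448)))
(L (nat_lit 27308245)))
(S (nat_lit 20904) (L (nat_lit 18115266))
(L (nat_lit 14262298))))
(S (nat_lit 41503) (S (nat_lit 34428) (S (nat_lit 21004) (L (nat_lit 14722997))
(L (nat_lit 30825697)))
(S (nat_lit 35073) (S (nat_lit 45457) (S (nat_lit 47644) (L (nat_lit 16619179))
(L (nat_lit 30807722)))
(L (nat_lit 31036874)))
(L (nat_lit 18606305))))
(L (nat_lit 25315818)))))
(S (nat_lit 40525) (S (nat_lit 17543) (S (nat_lit 1279) (L (nat_lit 6377885))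
(L (nat_lit 26939662)))
(S (nat_lit 37307) (S (nat_lit 39603) (S (nat_lit 48307) (S (nat_lit 41547) (S (nat_lit 8773) (L (nat_lit 18586744))
(L (nat_lit 17502555)))
(L (nat_lit 24209865)))
(L (nat_lit 20481833)))
(L (nat_lit 12259835)))
(S (nat_lit 57071) (S (nat_lit 21043) (L (nat_lit 18551690))
(L (nat_lit 15520934)))
(L (nat_lit 25243186)))))
(L (nat_lit 25582816)))))
(S (nat_lit 20750) (S (nat_lit 10982) (S (nat_lit 1743) (S (nat_lit 234) (L (nat_lit 30676530))
(S (nat_lit 39603) (S (nat_lit 1246) (S (nat_lit 8795) (L (nat_lit 30489842))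
(L (nat_lit 26814980)))
(L (nat_lit 19737025)))
(L (nat_lit 17536807))))
(S (nat_lit 21507) (S (nat_lit 21750) (S (nat_lit 40564) (S (nat_lit 54912) (S (nat_lit 19826) (S (nat_lit 50538) (S (nat_lit 39559) (S (nat_lit 50477) (S (nat_lit 35115) (S (nat_lit 56225) (L (nat_lit 2352658))
(L (nat_lit 30055469)))
(L (nat_lit 3891622)))
(L (nat_lit 19984654)))
(L (nat_lit 5764372)))
(L (nat_lit 22877606)))
(L (nat_lit 22577497)))
(L (nat_lit 21828998)))
(L (nat_lit 1818475)))
(S (nat_lit 41430) (L (nat_lit 14865161))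
(L (nat_lit 1300269))))
(S (nat_lit 41271) (S (nat_lit 41547) (S (nat_lit 8795) (L (nat_lit 1949319))
(L (nat_lit 21539621)))
(L (nat_lit 7144108)))
(L (nat_lit 25509604)))))
(S (nat_lit 30746) (S (nat_lit 64) (S (nat_lit 8795) (S (nat_lit 17543) (L (nat_lit 25071855))
(L (nat_lit 6376236)))
(L (nat_lit 6371123)))
(S (nat_lit 19828) (S (nat_lit 17543) (S (nat_lit 8795) (L (nat_lit 284430))
(L (nat_lit 21533482)))
(S (nat_lit 43635) (S (nat_lit 40807) (L (nat_lit 30976577))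
(L (nat_lit 8213679)))
(L (nat_lit 7420605))))
(S (nat_lit 39592) (S (nat_lit 10338) (L (nat_lit 22308321))
(S (nat_lit 28559) (S (nat_lit 39603) (L (nat_lit 29921653))
(L (nat_lit 12096155)))
(L (nat_lit 13177049))))
(L (nat_lit 25732675)))))
(S (nat_lit 50510) (S (nat_lit 8790) (S (nat_lit 57055) (S (nat_lit 17571) (L (nat_lit 7420504))
(L (nat_lit 26613446)))
(L (nat_lit 21045037)))
(S (nat_lit 28554) (S (nat_lit 19811) (S (nat_lit 1240) (L (nat_lit 3558652))
(L (nat_lit 12845819)))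
(L (nat_lit 14757719)))
(S (nat_lit 48318) (S (nat_lit 17527) (S (nat_lit 1277) (S (nat_lit 37335) (L (nat_lit 29796373))
(L (nat_lit 20344065)))
(L (nat_lit 20001703)))
(L (nat_lit 22093338)))
(L (nat_lit 25440404)))))
(L (nat_lit 25251370)))))
(S (nat_lit 40514) (S (nat_lit 1958) (S (nat_lit 35135) (S (nat_lit 1279) (S (nat_lit 19806) (S (nat_lit 21733) (S (nat_lit 40774) (S (nat_lit 997) (S (nat_lit 41503) (S (nat_lit 40564) (S (nat_lit 1019) (S (nat_lit 39603) (S (nat_lit 50494) (S (nat_lit 41534) (S (nat_lit 21755) (S (nat_lit 20767) (S (nat_lit 15334) (S (nat_lit 31) (S (nat_lit 21465) (S (nat_lit 54901) (S (nat_lit 19778) (S (nat_lit 21026) (S (nat_lit 62) (S (nat_lit 1776) (S (nat_lit 21496) (S (nat_lit 1986) (S (nat_lit 10977) (S (nat_lit 35073) (S (nat_lit 202) (S (nat_lit 51648) (S (nat_lit 434) (S (nat_lit 35645) (S (nat_lit 13048) (S (nat_lit 41845) (S (nat_lit 48666) (S (nat_lit 18880) (D (nat_lit 11) (nat_lit 31097385) (nat_lit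 25348465) (nat_lit 171902732386))
(L (nat_lit 31178020)))
(L (nat_lit 29017381)))
(S (nat_lit 46517) (S (nat_lit 50190) (S (nat_lit 28537) (D (nat_lit 11) (nat_lit 25897100) (nat_lit 19670128) (nat_lit 138417381))
(L (nat_lit 19730920)))
(L (nat_lit 29956581)))
(L (nat_lit 19065137))))
(L (nat_lit 15339434)))
(L (nat_lit 21434282)))
(L (nat_lit 24583261)))
(L (nat_lit 24668232)))
(S (nat_lit 16030) (S (nat_lit 11297) (S (nat_lit 37324) (S (nat_lit 45479) (S (nat_lit 18930) (S (nat_lit 15268) (S (nat_lit 8933) (S (nat_lit 57914) (D (nat_lit 13) (nat_lit 31072738) (nat_lit 25544817) (nat_lit 3337360772098))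
(L (nat_lit 22884393)))
(L (nat_lit 29611557)))
(L (nat_lit 30908004)))
(L (nat_lit 30660005)))
(S (nat_lit 52821) (S (nat_lit 43635) (S (nat_lit 46965) (S (nat_lit 49895) (S (nat_lit 13313) (S (nat_lit 17709) (D (nat_lit 13) (nat_lit 27926604) (nat_lit 19668143) (nat_lit 9008729592993))
(L (nat_lit 31043008)))
(L (nat_lit 31044837)))
(L (nat_lit 21830051)))
(L (nat_lit 21838178)))
(L (nat_lit 30095683)))
(L (nat_lit 20181068))))
(L (nat_lit 20324376)))
(L (nat_lit 19309345)))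
(S (nat_lit 56394) (S (nat_lit 17146) (S (nat_lit 39901) (S (nat_lit 1428) (S (nat_lit 19850) (S (nat_lit 26910) (S (nat_lit 57914) (S (nat_lit 26422) (S (nat_lit 14539) (D (nat_lit 13) (nat_lit 31071748) (nat_lit 19095665) (nat_lit 4434595741760))
(L (nat_lit 29984230)))
(L (nat_lit 20849187)))
(L (nat_lit 16601315)))
(S (nat_lit 30360) (S (nat_lit 9856) (S (nat_lit 17972) (D (nat_lit 11) (nat_lit 25899203) (nat_lit 18997615) (nat_lit 139586636803))
(L (nat_lit 31077418)))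
(L (nat_lit 28760320)))
(L (nat_lit 20137146))))
(L (nat_lit 28521558)))
(L (nat_lit 30628940)))
(L (nat_lit 28803380)))
(L (nat_lit 28824869)))
(L (nat_lit 30490281)))))
(L (nat_lit 18055866)))
(L (nat_lit 7946425)))
(L (nat_lit 19108748)))
(L (nat_lit 11291662)))
(L (nat_lit 19428578)))
(L (nat_lit 6868868)))
(L (nat_lit 15064249)))
(L (nat_lit 15618155)))
(L (nat_lit 27861442)))
(L (nat_lit 7491002)))
(L (nat_lit 6992707)))
(S (nat_lit 21843) (L (nat_lit 1624413))
(S (nat_lit 34335) (L (nat_lit 1815467))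
(L (nat_lit 24941932)))))
(L (nat_lit 16517798)))
(L (nat_lit 1841591)))
(L (nat_lit 281146)))
(L (nat_lit 27368173)))
(L (nat_lit 18688672)))
(L (nat_lit 10515056)))
(L (nat_lit 3461529)))
(L (nat_lit 27923911)))
(L (nat_lit 20350859)))
(L (nat_lit 24941774)))
(L (nat_lit 31048711)))
(L (nat_lit 10238130)))
(S (nat_lit 20968) (L (nat_lit 3724509))
(L (nat_lit 19184420))))
(S (nat_lit 54815) (S (nat_lit 1036) (S (nat_lit 39603) (L (nat_lit 3692455))
(L (nat_lit 17968829)))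
(S (nat_lit 20800) (L (nat_lit 3391318))
(L (nat_lit 25744454))))
(L (nat_lit 10027823))))
(S (nat_lit 21722) (S (nat_lit 20798) (S (nat_lit 39603) (S (nat_lit 1279) (S (nat_lit 41503) (S (nat_lit 40774) (S (nat_lit 1003) (S (nat_lit 10999) (S (nat_lit 54851) (S (nat_lit 1748) (S (nat_lit 21004) (S (nat_lit 2006) (S (nat_lit 50494) (S (nat_lit 20800) (S (nat_lit 19806) (S (nat_lit 7474) (L (nat_lit 1613531))
(S (nat_lit 20897) (L (nat_lit 3712636))
(S (nat_lit 40790) (S (nat_lit 21529) (S (nat_lit 19795) (S (nat_lit 10997) (S (nat_lit 19811) (S (nat_lit 39590) (S (nat_lit 30699) (S (nat_lit 35148) (S (nat_lit 50505) (S (nat_lit 39592) (S (nat_lit 35137) (S (nat_lit 25) (S (nat_lit 41514) (S (nat_lit 20979) (S (nat_lit 2019) (S (nat_lit 16464) (S (nat_lit 2062) (S (nat_lit 55797) (S (nat_lit 31027) (S (nat_lit 39457) (S (nat_lit 7283) (S (nat_lit 8823) (S (nat_lit 19367) (D (nat_lit 13) (nat_lit 27677799) (nat_lit 8145071) (nat_lit 5502927080))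
(L (nat_lit 30050758)))
(L (nat_lit 15649862)))
(S (nat_lit 48276) (S (nat_lit 57066) (S (nat_lit 49965) (D (nat_lit 11) (nat_lit 25745542) (nat_lit 19193966) (nat_lit 276829413))
(L (nat_lit 29793954)))
(L (nat_lit 27997504)))
(L (nat_lit 10516112))))
(L (nat_lit 21217123)))
(L (nat_lit 1711888)))
(L (nat_lit 6959940)))
(L (nat_lit 27414922)))
(S (nat_lit 30871) (S (nat_lit 57099) (S (nat_lit 35694) (S (nat_lit 28559) (S (nat_lit 5091) (S (nat_lit 50137) (S (nat_lit 42803) (S (nat_lit 56877) (S (nat_lit 9903) (D (nat_lit 13) (nat_lit 30592553) (nat_lit 25764977) (nat_lit 3577878711526))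
(L (nat_lit 29826068)))
(L (nat_lit 7264640)))
(L (nat_lit 15616226)))
(L (nat_lit 21830052)))
(S (nat_lit 48394) (S (nat_lit 25827) (S (nat_lit 38203) (S (nat_lit 19541) (S (nat_lit 28439) (D (nat_lit 13) (nat_lit 27382280) (nat_lit 25767087) (nat_lit 6743339899043))
(L (nat_lit 27482533)))
(L (nat_lit 27773282)))
(L (nat_lit 22977648)))
(L (nat_lit 16635138)))
(L (nat_lit 30811218))))
(L (nat_lit 19150661)))
(L (nat_lit 2487024)))
(L (nat_lit 27740262)))
(S (nat_lit 32032) (S (nat_lit 12251) (S (nat_lit 16009) (S (nat_lit 37260) (S (nat_lit 19541) (D (nat_lit 11) (nat_lit 26269936) (nat_lit 19259504) (nat_lit 242227302))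
(L (nat_lit 29012256)))
(S (nat_lit 57437) (S (nat_lit 57038) (S (nat_lit 10793) (D (nat_lit 11) (nat_lit 25221515) (nat_lit 19670128) (nat_lit 276827331))
(L (nat_lit 28790048)))
(L (nat_lit 19775781)))
(L (nat_lit 13882394))))
(L (nat_lit 21367162)))
(L (nat_lit 28431913)))
(L (nat_lit 7485144)))))
(L (nat_lit 19830924)))
(L (nat_lit 14873160)))
(L (nat_lit 17494089)))
(L (nat_lit 19699022)))
(L (nat_lit 10051628)))
(L (nat_lit 24678312)))
(L (nat_lit 11986528)))
(L (nat_lit 9889376)))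
(L (nat_lit 10159612)))
(L (nat_lit 12285105)))
(L (nat_lit 10393169)))
(L (nat_lit 18515293)))
(L (nat_lit 15649026)))
(L (nat_lit 30940308)))
(L (nat_lit 10272887)))))
(L (nat_lit 21433690)))
(L (nat_lit 30462287)))
(L (nat_lit 22146569)))
(L (nat_lit 20209680)))
(L (nat_lit 1699366)))
(L (nat_lit 19068273)))
(L (nat_lit 20981146)))
(L (nat_lit 1699056)))
(L (nat_lit 19075579)))
(L (nat_lit 24491065)))
(L (nat_lit 18755236)))
(L (nat_lit 13882555)))
(L (nat_lit 12259835)))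
(S (nat_lit 40478) (S (nat_lit 28554) (L (nat_lit 9278128))
(L (nat_lit 3941040)))
(L (nat_lit 14798633))))
(S (nat_lit 41486) (S (nat_lit 47) (S (nat_lit 13235) (L (nat_lit 6444876))
(S (nat_lit 35135) (S (nat_lit 20798) (S (nat_lit 39603) (S (nat_lit 10982) (S (nat_lit 10999) (S (nat_lit 1036) (S (nat_lit 1279) (S (nat_lit 19826) (S (nat_lit 54851) (S (nat_lit 21021) (S (nat_lit 40757) (S (nat_lit 20761) (S (nat_lit 50494) (S (nat_lit 21507) (S (nat_lit 1019) (S (nat_lit 41304) (S (nat_lit 40818) (S (nat_lit 1748) (S (nat_lit 20778) (S (nat_lit 50477) (S (nat_lit 64) (S (nat_lit 10935) (S (nat_lit 54868) (S (nat_lit 30741) (S (nat_lit 41547) (S (nat_lit 3117) (S (nat_lit 5019) (S (nat_lit 54002) (S (nat_lit 22627) (S (nat_lit 42369) (S (nat_lit 46304) (S (nat_lit 33699) (S (nat_lit 11589) (S (nat_lit 28512) (S (nat_lit 50636) (S (nat_lit 55513) (S (nat_lit 36509) (D (nat_lit 15) (nat_lit 3950831) (nat_lit 11714322) (nat_lit 281321504963))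
(L (nat_lit 15500998)))
(L (nat_lit 26949638)))
(L (nat_lit 26951905)))
(L (nat_lit 25835712)))
(S (nat_lit 33059) (S (nat_lit 22585) (S (nat_lit 45285) (D (nat_lit 9) (nat_lit 26810849) (nat_lit 25343346) (nat_lit 178247664738))
(L (nat_lit 22920448)))
(L (nat_lit 29082881)))
(L (nat_lit 29579651))))
(L (nat_lit 18764906)))
(L (nat_lit 29873258)))
(L (nat_lit 21001520)))
(L (nat_lit 670598)))
(L (nat_lit 875910)))
(L (nat_lit 27286918)))
(S (nat_lit 32098) (S (nat_lit 55010) (S (nat_lit 32135) (S (nat_lit 55253) (S (nat_lit 51064) (S (nat_lit 35500) (S (nat_lit 51868) (S (nat_lit 22384) (S (nat_lit 52993) (S (nat_lit 22124) (S (nat_lit 56865) (D (nat_lit 15) (nat_lit 8145007) (nat_lit 9998098) (nat_lit 138519052322))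
(L (nat_lit 22518560)))
(L (nat_lit 14906945)))
(L (nat_lit 28529025)))
(S (nat_lit 27931) (S (nat_lit 13549) (S (nat_lit 8790) (S (nat_lit 27185) (D (nat_lit 9) (nat_lit 12508272) (nat_lit 2902380) (nat_lit 240719631461))
(L (nat_lit 29082695)))
(L (nat_lit 7200161)))
(L (nat_lit 31180064)))
(L (nat_lit 6983128))))
(L (nat_lit 8278064)))
(L (nat_lit 6408600)))
(L (nat_lit 771846)))
(L (nat_lit 23324096)))
(L (nat_lit 21168910)))
(L (nat_lit 23324097)))
(S (nat_lit 46469) (S (nat_lit 23493) (S (nat_lit 54033) (S (nat_lit 14035) (S (nat_lit 44377) (S (nat_lit 3014) (S (nat_lit 17669) (S (nat_lit 11505) (S (nat_lit 11262) (D (nat_lit 11) (nat_lit 9196064) (nat_lit 25769131) (nat_lit 1108413667))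
(L (nat_lit 28531106)))
(L (nat_lit 28531107)))
(S (nat_lit 45254) (S (nat_lit 33260) (S (nat_lit 46743) (D (nat_lit 9) (nat_lit 26811872) (nat_lit 25562418) (nat_lit 143887960161))
(L (nat_lit 15585569)))
(L (nat_lit 29049089)))
(L (nat_lit 19670564))))
(L (nat_lit 27275511)))
(L (nat_lit 30090320)))
(L (nat_lit 31180131)))
(L (nat_lit 8314368)))
(L (nat_lit 7158432)))
(L (nat_lit 23631992)))))
(L (nat_lit 6308755)))
(L (nat_lit 24920384)))
(L (nat_lit 4504467)))
(L (nat_lit 26791974)))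
(L (nat_lit 26791976)))
(L (nat_lit 27778309)))
(L (nat_lit 31078442)))
(L (nat_lit 9631312)))
(L (nat_lit 23380029)))
(L (nat_lit 24380891)))
(L (nat_lit 10516080)))
(L (nat_lit 21927116)))
(L (nat_lit 27853069)))
(L (nat_lit 16016436)))
(L (nat_lit 23487840)))
(L (nat_lit 31068396)))
(L (nat_lit 27271789)))
(L (nat_lit 9226416)))
(L (nat_lit 13928027)))
(L (nat_lit 19174810)))
(L (nat_lit 6711351)))
(L (nat_lit 21080637)))
(L (nat_lit 27988422)))
(S (nat_lit 49120) (L (nat_lit 9296257))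
(L (nat_lit 15503607))))
(L (nat_lit 9295332))))
(S (nat_lit 19811) (S (nat_lit 15446) (S (nat_lit 20811) (L (nat_lit 10107067))
(L (nat_lit 14804179)))
(S (nat_lit 35135) (S (nat_lit 1279) (S (nat_lit 19806) (S (nat_lit 40531) (S (nat_lit 1019) (S (nat_lit 21733) (S (nat_lit 17543) (L (nat_lit 4711763))
(L (nat_lit 16052901)))
(L (nat_lit 22135658)))
(L (nat_lit 2989680)))
(L (nat_lit 18655909)))
(L (nat_lit 21936294)))
(L (nat_lit 19839142)))
(L (nat_lit 8979247))))
(S (nat_lit 39575) (S (nat_lit 2134) (S (nat_lit 10982) (L (nat_lit 8574736))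
(L (nat_lit 21828074)))
(S (nat_lit 41503) (S (nat_lit 20761) (S (nat_lit 48276) (L (nat_lit 30026800))
(L (nat_lit 14524033)))
(L (nat_lit 648430)))
(L (nat_lit 8434484))))
(L (nat_lit 25634839)))))
(L (nat_lit 25527953)))))
(L (nat_lit 25559415)))))
(S (nat_lit 41291) (S (nat_lit 1776) (S (nat_lit 15373) (S (nat_lit 14) (S (nat_lit 10977) (S (nat_lit 20993) (S (nat_lit 19828) (L (nat_lit 10229202))
(L (nat_lit 3495320)))
(L (nat_lit 7210673)))
(S (nat_lit 30822) (L (nat_lit 18786980))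
(L (nat_lit 26981542))))
(S (nat_lit 19778) (S (nat_lit 1262) (S (nat_lit 41486) (S (nat_lit 41547) (L (nat_lit 6878819))
(L (nat_lit 18047651)))
(L (nat_lit 24295768)))
(L (nat_lit 13856887)))
(S (nat_lit 39542) (S (nat_lit 41486) (L (nat_lit 26301896))
(L (nat_lit 24426552)))
(L (nat_lit 25208465)))))
(S (nat_lit 35137) (S (nat_lit 2019) (S (nat_lit 41534) (S (nat_lit 35098) (S (nat_lit 19795) (L (nat_lit 3355228))
(L (nat_lit 9089149)))
(L (nat_lit 4084049)))
(L (nat_lit 24680262)))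
(S (nat_lit 21783) (S (nat_lit 12372) (L (nat_lit 6076658))
(S (nat_lit 37285) (S (nat_lit 20811) (L (nat_lit 8971282))
(L (nat_lit 5971885)))
(L (nat_lit 20178371))))
(S (nat_lit 41547) (S (nat_lit 19795) (S (nat_lit 40757) (S (nat_lit 54868) (S (nat_lit 1701) (L (nat_lit 23141132))
(L (nat_lit 10243460)))
(L (nat_lit 27985289)))
(L (nat_lit 16887480)))
(S (nat_lit 50121) (L (nat_lit 9307606))
(L (nat_lit 3426781))))
(L (nat_lit 25249010)))))
(S (nat_lit 54901) (S (nat_lit 62) (S (nat_lit 1986) (S (nat_lit 54879) (S (nat_lit 41229) (S (nat_lit 30774) (S (nat_lit 15384) (S (nat_lit 1748) (S (nat_lit 39603) (L (nat_lit 5587579))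
(L (nat_lit 23636093)))
(L (nat_lit 20169475)))
(L (nat_lit 669542)))
(L (nat_lit 10334785)))
(L (nat_lit 7196034)))
(L (nat_lit 27544752)))
(S (nat_lit 2878) (L (nat_lit 8842979))
(L (nat_lit 13691625))))
(S (nat_lit 19826) (S (nat_lit 20798) (S (nat_lit 40807) (S (nat_lit 19828) (S (nat_lit 40774) (S (nat_lit 21054) (S (nat_lit 20750) (L (nat_lit 4648146))
(L (nat_lit 6379280)))
(L (nat_lit 14771411)))
(L (nat_lit 9498287)))
(L (nat_lit 3494296)))
(L (nat_lit 24685753)))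
(L (nat_lit 7017265)))
(S (nat_lit 39590) (S (nat_lit 19828) (S (nat_lit 10977) (S (nat_lit 19789) (S (nat_lit 42) (S (nat_lit 21490) (S (nat_lit 10935) (S (nat_lit 50477) (S (nat_lit 11010) (S (nat_lit 1969) (S (nat_lit 1975) (S (nat_lit 54862) (S (nat_lit 41276) (S (nat_lit 10433) (L (nat_lit 28449237))
(S (nat_lit 21010) (S (nat_lit 27645) (L (nat_lit 2307675))
(L (nat_lit 20792611)))
(L (nat_lit 15878918))))
(L (nat_lit 18767201)))
(L (nat_lit 12085398)))
(L (nat_lit 19357735)))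
(L (nat_lit 19663367)))
(L (nat_lit 6442521)))
(L (nat_lit 19984686)))
(L (nat_lit 6850358)))
(L (nat_lit 30999758)))
(L (nat_lit 1333133)))
(L (nat_lit 4075247)))
(L (nat_lit 26981542)))
(L (nat_lit 22579448)))
(L (nat_lit 25723255)))))
(L (nat_lit 25510966)))))
(S (nat_lit 21540) (S (nat_lit 8773) (S (nat_lit 20798) (S (nat_lit 39603) (S (nat_lit 37307) (S (nat_lit 41503) (S (nat_lit 41534) (L (nat_lit 25014278))
(L (nat_lit 7048977)))
(L (nat_lit 16830343)))
(L (nat_lit 31133932)))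
(L (nat_lit 18551590)))
(L (nat_lit 31133937)))
(S (nat_lit 28537) (S (nat_lit 1765) (S (nat_lit 37291) (S (nat_lit 35104) (S (nat_lit 30730) (S (nat_lit 41534) (S (nat_lit 8762) (L (nat_lit 28359271))
(L (nat_lit 15428901)))
(L (nat_lit 8965890)))
(L (nat_lit 14393090)))
(L (nat_lit 9136515)))
(L (nat_lit 10174211)))
(S (nat_lit 21529) (S (nat_lit 20798) (S (nat_lit 54851) (L (nat_lit 30619233))
(L (nat_lit 19073432)))
(L (nat_lit 31139888)))
(S (nat_lit 41293) (S (nat_lit 21054) (S (nat_lit 17543) (L (nat_lit 7046556))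
(L (nat_lit 18552619)))
(L (nat_lit 15428965)))
(L (nat_lit 25897103)))))
(S (nat_lit 48301) (S (nat_lit 40807) (S (nat_lit 37302) (S (nat_lit 62) (S (nat_lit 54879) (S (nat_lit 37274) (L (nat_lit 13947684))
(L (nat_lit 8402553)))
(L (nat_lit 14381222)))
(L (nat_lit 26941617)))
(L (nat_lit 10187953)))
(L (nat_lit 27841702)))
(L (nat_lit 25368177)))))
(S (nat_lit 41304) (S (nat_lit 1036) (S (nat_lit 64) (S (nat_lit 30741) (S (nat_lit 15309) (S (nat_lit 1019) (S (nat_lit 15373) (S (nat_lit 30761) (S (nat_lit 47) (S (nat_lit 41254) (S (nat_lit 972) (S (nat_lit 1944) (S (nat_lit 41271) (S (nat_lit 21004) (S (nat_lit 10982) (S (nat_lit 54851) (S (nat_lit 17496) (L (nat_lit 8480276))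
(L (nat_lit 24952033)))
(L (nat_lit 19771684)))
(L (nat_lit 7195694)))
(S (nat_lit 52552) (S (nat_lit 30780) (S (nat_lit 29677) (L (nat_lit 4574680))
(L (nat_lit 21195140)))
(L (nat_lit 26943009)))
(L (nat_lit 7165966))))
(L (nat_lit 3397181)))
(L (nat_lit 3581529)))
(L (nat_lit 8839778)))
(L (nat_lit 3744316)))
(L (nat_lit 6756119)))
(L (nat_lit 25009292)))
(L (nat_lit 25085123)))
(S (nat_lit 18683) (L (nat_lit 18924454))
(L (nat_lit 19766657))))
(S (nat_lit 34998) (S (nat_lit 24951) (L (nat_lit 30583473))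
(L (nat_lit 9994906)))
(L (nat_lit 1597223))))
(S (nat_lit 50421) (S (nat_lit 28437) (L (nat_lit 925106))
(L (nat_lit 27998529)))
(L (nat_lit 17540897))))
(S (nat_lit 39433) (S (nat_lit 15340) (L (nat_lit 26776950))
(L (nat_lit 1794353)))
(L (nat_lit 7061282))))
(S (nat_lit 20800) (S (nat_lit 8823) (S (nat_lit 37285) (L (nat_lit 28588210))
(L (nat_lit 23571234)))
(S (nat_lit 28587) (S (nat_lit 986) (S (nat_lit 17496) (L (nat_lit 6337211))
(L (nat_lit 17880312)))
(L (nat_lit 19672080)))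
(S (nat_lit 48351) (S (nat_lit 15340) (S (nat_lit 1003) (S (nat_lit 10982) (L (nat_lit 26661185))
(L (nat_lit 7198244)))
(L (nat_lit 9254560)))
(L (nat_lit 7165315)))
(L (nat_lit 25667670)))))
(S (nat_lit 40564) (S (nat_lit 17543) (S (nat_lit 8795) (S (nat_lit 28537) (L (nat_lit 23618852))
(L (nat_lit 18492194)))
(L (nat_lit 1330989)))
(L (nat_lit 1323826)))
(L (nat_lit 25728587)))))
(L (nat_lit 25207468)))))
(L (nat_lit 25896049)))))
(L (nat_lit 25526960)))))

theorem rb246_0_3 : run 4 lb246 [] tb246_0_3 kb246 [0, 2008, 30724, 15356] [] = true := by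
  decide +kernel

noncomputable def tb183_2 : Tr :=
(S (nat_lit 10036) (S (nat_lit 2226) (S (nat_lit 6077) (S (nat_lit 3456) (S (nat_lit 8798) (S (nat_lit 19807) (S (nat_lit 41255) (L (nat_lit 26354099))
(L (nat_lit 17403654)))
(L (nat_lit 9191106)))
(S (nat_lit 28562) (S (nat_lit 27617) (S (nat_lit 3942) (S (nat_lit 27698) (L (nat_lit 968262))
(L (nat_lit 17074963)))
(L (nat_lit 9868050)))
(L (nat_lit 15501523)))
(S (nat_lit 48326) (S (nat_lit 21491) (S (nat_lit 54422) (L (nat_lit 19761675))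
(L (nat_lit 17583361)))
(L (nat_lit 15328358)))
(L (nat_lit 25251371)))))
(S (nat_lit 23220) (S (nat_lit 2207) (S (nat_lit 54372) (S (nat_lit 13158) (S (nat_lit 49) (S (nat_lit 54851) (S (nat_lit 10977) (S (nat_lit 5591) (L (nat_lit 8918649))
(L (nat_lit 19703980)))
(L (nat_lit 23962048)))
(L (nat_lit 19402010)))
(L (nat_lit 19395842)))
(L (nat_lit 1534165)))
(L (nat_lit 19261453)))
(S (nat_lit 21971) (S (nat_lit 10123) (L (nat_lit 20165819))
(S (nat_lit 56583) (S (nat_lit 27617) (S (nat_lit 7791) (S (nat_lit 30705) (L (nat_lit 4444730))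
(L (nat_lit 18890599)))
(L (nat_lit 9222166)))
(L (nat_lit 30725568)))
(L (nat_lit 1294011))))
(S (nat_lit 41735) (S (nat_lit 36819) (S (nat_lit 19807) (S (nat_lit 52196) (L (nat_lit 4662071))
(L (nat_lit 6307635)))
(L (nat_lit 30725634)))
(L (nat_lit 11285655)))
(L (nat_lit 25384973)))))
(S (nat_lit 42984) (S (nat_lit 15323) (S (nat_lit 6173) (L (nat_lit 4779282))
(S (nat_lit 52708) (S (nat_lit 38479) (L (nat_lit 20004715))
(L (nat_lit 7161441)))
(L (nat_lit 17159292))))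
(S (nat_lit 35087) (S (nat_lit 19708) (L (nat_lit 26649780))
(S (nat_lit 52196) (S (nat_lit 4431) (L (nat_lit 18082994))
(L (nat_lit 8305779)))
(L (nat_lit 1650478))))
(S (nat_lit 54851) (S (nat_lit 2207) (S (nat_lit 52686) (L (nat_lit 21499751))
(L (nat_lit 19336038)))
(L (nat_lit 19087140)))
(L (nat_lit 25374804)))))
(L (nat_lit 25182546)))))
(S (nat_lit 25841) (S (nat_lit 6596) (S (nat_lit 12877) (S (nat_lit 50565) (L (nat_lit 17747079))
(L (nat_lit 7418678)))
(S (nat_lit 47867) (S (nat_lit 36333) (S (nat_lit 17544) (S (nat_lit 6589) (L (nat_lit 863952))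
(L (nat_lit 7418679)))
(L (nat_lit 1340951)))
(L (nat_lit 1259260)))
(L (nat_lit 1680272))))
(S (nat_lit 26360) (S (nat_lit 17574) (S (nat_lit 11013) (S (nat_lit 38513) (S (nat_lit 50050) (L (nat_lit 26300938))
(L (nat_lit 20422809)))
(L (nat_lit 1265209)))
(S (nat_lit 35753) (L (nat_lit 2868601))
(L (nat_lit 1700231))))
(S (nat_lit 37338) (S (nat_lit 10941) (S (nat_lit 15374) (L (nat_lit 19953030))
(L (nat_lit 6899492)))
(L (nat_lit 26235249)))
(S (nat_lit 57102) (S (nat_lit 18709) (L (nat_lit 18990333))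
(S (nat_lit 45157) (S (nat_lit 56113) (L (nat_lit 29965318))
(L (nat_lit 7933372)))
(L (nat_lit 14734214))))
(L (nat_lit 25350479)))))
(S (nat_lit 46124) (S (nat_lit 1241) (S (nat_lit 4437) (S (nat_lit 17071) (L (nat_lit 29594035))
(L (nat_lit 17377152)))
(L (nat_lit 20850208)))
(S (nat_lit 21005) (S (nat_lit 34172) (S (nat_lit 8798) (L (nat_lit 6876739))
(L (nat_lit 1916211)))
(L (nat_lit 1645081)))
(S (nat_lit 40769) (S (nat_lit 15268) (L (nat_lit 7418585))
(S (nat_lit 38479) (S (nat_lit 50505) (S (nat_lit 3942) (L (nat_lit 18986361))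
(L (nat_lit 26413523)))
(L (nat_lit 12141313)))
(L (nat_lit 6809747))))
(L (nat_lit 25614562)))))
(L (nat_lit 25919857)))))
(S (nat_lit 45605) (S (nat_lit 15323) (S (nat_lit 5629) (S (nat_lit 3532) (L (nat_lit 6878388))
(S (nat_lit 41255) (S (nat_lit 8764) (S (nat_lit 15353) (L (nat_lit 17160100))
(L (nat_lit 17671348)))
(L (nat_lit 21194897)))
(L (nat_lit 1433146))))
(S (nat_lit 25393) (S (nat_lit 2207) (S (nat_lit 15353) (S (nat_lit 6580) (S (nat_lit 1281) (L (nat_lit 5629365))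
(L (nat_lit 26974349)))
(L (nat_lit 26264791)))
(L (nat_lit 17408901)))
(S (nat_lit 2774) (S (nat_lit 25355) (L (nat_lit 26294550))
(L (nat_lit 6812258)))
(L (nat_lit 1261181))))
(S (nat_lit 45157) (S (nat_lit 27617) (S (nat_lit 46153) (L (nat_lit 14720604))
(L (nat_lit 17474588)))
(L (nat_lit 6916601)))
(L (nat_lit 25822731)))))
(S (nat_lit 35087) (S (nat_lit 17544) (S (nat_lit 14358) (S (nat_lit 8339) (S (nat_lit 25393) (S (nat_lit 1727) (L (nat_lit 14602311))
(L (nat_lit 13214625)))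
(L (nat_lit 1275316)))
(L (nat_lit 12801889)))
(L (nat_lit 13346627)))
(S (nat_lit 37308) (S (nat_lit 50505) (S (nat_lit 27555) (S (nat_lit 48290) (L (nat_lit 1362457))
(L (nat_lit 20391002)))
(L (nat_lit 7148140)))
(S (nat_lit 53044) (L (nat_lit 6919705))
(L (nat_lit 12658454))))
(S (nat_lit 57072) (S (nat_lit 21005) (S (nat_lit 6580) (S (nat_lit 1921) (L (nat_lit 5789947))
(L (nat_lit 6835040)))
(L (nat_lit 804050)))
(L (nat_lit 6743744)))
(L (nat_lit 25798769)))))
(S (nat_lit 54851) (S (nat_lit 11009) (S (nat_lit 6625) (S (nat_lit 14894) (S (nat_lit 17566) (S (nat_lit 54372) (S (nat_lit 2207) (L (nat_lit 26362569))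
(L (nat_lit 1537643)))
(L (nat_lit 19271467)))
(L (nat_lit 6974605)))
(L (nat_lit 26411570)))
(L (nat_lit 26747954)))
(S (nat_lit 30773) (S (nat_lit 2254) (S (nat_lit 35076) (S (nat_lit 27617) (S (nat_lit 6625) (L (nat_lit 1887755))
(L (nat_lit 6819602)))
(L (nat_lit 19121305)))
(L (nat_lit 3862919)))
(L (nat_lit 19828104)))
(S (nat_lit 50537) (S (nat_lit 2254) (S (nat_lit 41255) (S (nat_lit 54372) (S (nat_lit 53886) (L (nat_lit 12656349))
(L (nat_lit 17475363)))
(L (nat_lit 27402709)))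
(L (nat_lit 6905968)))
(L (nat_lit 19833964)))
(L (nat_lit 25570948)))))
(L (nat_lit 25188907)))))
(L (nat_lit 25544257)))))
(S (nat_lit 21990) (S (nat_lit 43) (S (nat_lit 6625) (S (nat_lit 1767) (S (nat_lit 15374) (S (nat_lit 4437) (S (nat_lit 3454) (L (nat_lit 18588859))
(L (nat_lit 9079724)))
(L (nat_lit 16091923)))
(L (nat_lit 1976045)))
(S (nat_lit 21531) (S (nat_lit 25393) (S (nat_lit 40809) (L (nat_lit 28628354))
(L (nat_lit 7355067)))
(L (nat_lit 6836993)))
(S (nat_lit 41295) (S (nat_lit 13150) (S (nat_lit 9996) (S (nat_lit 4437) (L (nat_lit 28464366))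
(L (nat_lit 7222291)))
(L (nat_lit 26976334)))
(L (nat_lit 7025723)))
(L (nat_lit 25887053)))))
(S (nat_lit 26389) (S (nat_lit 3454) (S (nat_lit 21548) (L (nat_lit 26649621))
(S (nat_lit 58350) (L (nat_lit 11326575))
(L (nat_lit 24192913))))
(S (nat_lit 23218) (L (nat_lit 16419718))
(S (nat_lit 42982) (S (nat_lit 20975) (L (nat_lit 14455527))
(S (nat_lit 36835) (S (nat_lit 43468) (L (nat_lit 10127901))
(L (nat_lit 7231904)))
(L (nat_lit 11307665))))
(L (nat_lit 25861537)))))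
(S (nat_lit 46153) (S (nat_lit 7853) (S (nat_lit 41782) (S (nat_lit 17544) (L (nat_lit 20810119))
(L (nat_lit 6845120)))
(L (nat_lit 14420648)))
(S (nat_lit 27617) (L (nat_lit 6982075))
(S (nat_lit 47381) (S (nat_lit 36835) (S (nat_lit 17558) (L (nat_lit 28871923))
(L (nat_lit 6438492)))
(L (nat_lit 20817317)))
(L (nat_lit 25806178)))))
(L (nat_lit 25731779)))))
(S (nat_lit 19807) (S (nat_lit 4437) (S (nat_lit 18715) (S (nat_lit 7853) (S (nat_lit 13150) (L (nat_lit 6205683))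
(L (nat_lit 7427887)))
(L (nat_lit 9328096)))
(S (nat_lit 38479) (S (nat_lit 3942) (S (nat_lit 21531) (L (nat_lit 5157107))
(L (nat_lit 568082)))
(L (nat_lit 16976659)))
(S (nat_lit 58243) (S (nat_lit 7853) (S (nat_lit 29760) (L (nat_lit 26334598))
(L (nat_lit 7098851)))
(L (nat_lit 13522055)))
(L (nat_lit 25924973)))))
(S (nat_lit 24201) (S (nat_lit 56599) (L (nat_lit 2729743))
(L (nat_lit 8842880)))
(S (nat_lit 43965) (S (nat_lit 5591) (S (nat_lit 36819) (S (nat_lit 32933) (S (nat_lit 26355) (S (nat_lit 52708) (S (nat_lit 35117) (L (nat_lit 28422854))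
(L (nat_lit 3944820)))
(L (nat_lit 4568883)))
(L (nat_lit 14768903)))
(S (nat_lit 55794) (L (nat_lit 17583145))
(L (nat_lit 20440260))))
(S (nat_lit 56529) (S (nat_lit 17514) (L (nat_lit 30921734))
(L (nat_lit 18043680)))
(L (nat_lit 6050313))))
(S (nat_lit 25355) (S (nat_lit 6589) (S (nat_lit 6591) (S (nat_lit 13180) (S (nat_lit 31924) (L (nat_lit 872998))
(L (nat_lit 6873266)))
(L (nat_lit 6469242)))
(S (nat_lit 39930) (L (nat_lit 1597779))
(L (nat_lit 14385991))))
(S (nat_lit 26353) (S (nat_lit 41295) (S (nat_lit 32432) (S (nat_lit 10941) (L (nat_lit 6750999))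
(L (nat_lit 1630822)))
(L (nat_lit 19670433)))
(L (nat_lit 1267597)))
(S (nat_lit 46117) (S (nat_lit 4399) (S (nat_lit 34172) (L (nat_lit 4709128))
(L (nat_lit 31070720)))
(L (nat_lit 618829)))
(L (nat_lit 25286863)))))
(S (nat_lit 45119) (S (nat_lit 3940) (S (nat_lit 43959) (S (nat_lit 30777) (L (nat_lit 3634418))
(L (nat_lit 30813792)))
(L (nat_lit 14841479)))
(S (nat_lit 23704) (S (nat_lit 30741) (S (nat_lit 35117) (S (nat_lit 30773) (L (nat_lit 29511145))
(L (nat_lit 8572812)))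
(L (nat_lit 18621586)))
(L (nat_lit 25081152)))
(S (nat_lit 43468) (S (nat_lit 7853) (L (nat_lit 28951591))
(L (nat_lit 4081383)))
(L (nat_lit 25746471)))))
(L (nat_lit 25766432)))))
(L (nat_lit 25927727)))))
(S (nat_lit 39571) (S (nat_lit 2207) (S (nat_lit 7791) (S (nat_lit 49) (S (nat_lit 7853) (L (nat_lit 21432669))
(L (nat_lit 9308752)))
(L (nat_lit 14349571)))
(S (nat_lit 27555) (S (nat_lit 30741) (S (nat_lit 10522) (L (nat_lit 8410893))
(L (nat_lit 17749063)))
(S (nat_lit 36395) (L (nat_lit 25050187))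
(L (nat_lit 19408672))))
(S (nat_lit 47319) (S (nat_lit 56599) (S (nat_lit 24201) (S (nat_lit 56) (L (nat_lit 2732810))
(L (nat_lit 1794474)))
(L (nat_lit 21858790)))
(L (nat_lit 16393989)))
(L (nat_lit 25560374)))))
(S (nat_lit 21971) (S (nat_lit 3456) (S (nat_lit 52686) (S (nat_lit 28562) (L (nat_lit 17835798))
(L (nat_lit 8474383)))
(L (nat_lit 27560341)))
(S (nat_lit 23220) (S (nat_lit 17566) (S (nat_lit 30775) (S (nat_lit 34122) (L (nat_lit 7213805))
(L (nat_lit 16419592)))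
(L (nat_lit 9091843)))
(L (nat_lit 2008467)))
(S (nat_lit 42984) (S (nat_lit 11011) (S (nat_lit 34658) (S (nat_lit 4399) (L (nat_lit 636683))
(L (nat_lit 6320533)))
(L (nat_lit 30610962)))
(L (nat_lit 2020653)))
(L (nat_lit 25597512)))))
(S (nat_lit 41735) (S (nat_lit 12646) (S (nat_lit 25879) (L (nat_lit 698125))
(L (nat_lit 17748293)))
(S (nat_lit 32410) (S (nat_lit 30741) (S (nat_lit 56599) (S (nat_lit 54881) (L (nat_lit 5520182))
(L (nat_lit 11111181)))
(L (nat_lit 13858373)))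
(L (nat_lit 17737376)))
(S (nat_lit 52174) (S (nat_lit 10522) (S (nat_lit 45643) (L (nat_lit 6314799))
(L (nat_lit 1889799)))
(L (nat_lit 17736389)))
(L (nat_lit 25675911)))))
(L (nat_lit 25801957)))))
(L (nat_lit 25475253)))))
(S (nat_lit 41754) (S (nat_lit 17566) (S (nat_lit 8762) (S (nat_lit 10522) (S (nat_lit 43) (S (nat_lit 4399) (S (nat_lit 31924) (S (nat_lit 34608) (L (nat_lit 28454605))
(L (nat_lit 20849092)))
(L (nat_lit 7222386)))
(L (nat_lit 6944130)))
(S (nat_lit 5559) (L (nat_lit 26223246))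
(L (nat_lit 1714063))))
(S (nat_lit 30286) (S (nat_lit 4399) (S (nat_lit 56599) (S (nat_lit 23220) (S (nat_lit 4431) (L (nat_lit 4578128))
(L (nat_lit 26594817)))
(L (nat_lit 7074245)))
(L (nat_lit 6810739)))
(L (nat_lit 7992461)))
(S (nat_lit 50050) (S (nat_lit 54979) (L (nat_lit 18524032))
(S (nat_lit 56599) (S (nat_lit 22018) (S (nat_lit 36333) (S (nat_lit 46153) (L (nat_lit 26269194))
(L (nat_lit 20717954)))
(L (nat_lit 7093367)))
(L (nat_lit 12947101)))
(L (nat_lit 6805312))))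
(L (nat_lit 25441989)))))
(S (nat_lit 28526) (S (nat_lit 4399) (S (nat_lit 6255) (L (nat_lit 1830443))
(S (nat_lit 11009) (S (nat_lit 21005) (S (nat_lit 49) (S (nat_lit 45643) (L (nat_lit 11996055))
(L (nat_lit 1300269)))
(L (nat_lit 1518235)))
(L (nat_lit 7211760)))
(L (nat_lit 6435603))))
(S (nat_lit 51823) (L (nat_lit 1494954))
(L (nat_lit 221101))))
(S (nat_lit 48290) (S (nat_lit 43) (S (nat_lit 12668) (L (nat_lit 9243213))
(L (nat_lit 26977454)))
(S (nat_lit 19807) (S (nat_lit 4431) (S (nat_lit 54902) (S (nat_lit 48292) (S (nat_lit 30246) (S (nat_lit 48285) (L (nat_lit 30098535))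
(L (nat_lit 27926542)))
(L (nat_lit 19836016)))
(L (nat_lit 27926700)))
(L (nat_lit 27928069)))
(S (nat_lit 13603) (L (nat_lit 19405947))
(L (nat_lit 19842304))))
(S (nat_lit 39571) (S (nat_lit 35087) (S (nat_lit 46153) (L (nat_lit 29959554))
(L (nat_lit 27895171)))
(L (nat_lit 19964315)))
(L (nat_lit 25246409)))))
(L (nat_lit 25895021)))))
(S (nat_lit 37330) (S (nat_lit 6077) (S (nat_lit 10977) (S (nat_lit 15374) (S (nat_lit 26389) (L (nat_lit 16918455))
(L (nat_lit 16550536)))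
(L (nat_lit 15043378)))
(S (nat_lit 30741) (S (nat_lit 56599) (S (nat_lit 28528) (S (nat_lit 50010) (S (nat_lit 28521) (S (nat_lit 1241) (L (nat_lit 10243585))
(L (nat_lit 8784822)))
(L (nat_lit 9243342)))
(L (nat_lit 7211510)))
(L (nat_lit 19408738)))
(L (nat_lit 1668522)))
(S (nat_lit 50505) (S (nat_lit 12668) (S (nat_lit 15374) (S (nat_lit 50010) (L (nat_lit 28353263))
(L (nat_lit 7211630)))
(L (nat_lit 1975826)))
(L (nat_lit 23930030)))
(L (nat_lit 25600148)))))
(S (nat_lit 25841) (S (nat_lit 49) (S (nat_lit 4431) (S (nat_lit 4399) (S (nat_lit 15353) (S (nat_lit 37322) (L (nat_lit 28772938))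
(L (nat_lit 30785156)))
(L (nat_lit 7179698)))
(L (nat_lit 19100035)))
(S (nat_lit 37114) (L (nat_lit 13786492))
(L (nat_lit 19252312))))
(S (nat_lit 19813) (S (nat_lit 40769) (S (nat_lit 19807) (S (nat_lit 32432) (L (nat_lit 29559438))
(L (nat_lit 8307733)))
(L (nat_lit 9092280)))
(L (nat_lit 17736726)))
(S (nat_lit 39577) (S (nat_lit 47381) (S (nat_lit 40809) (S (nat_lit 36819) (S (nat_lit 3942) (L (nat_lit 11353792))
(L (nat_lit 5154259)))
(L (nat_lit 7366103)))
(L (nat_lit 16864042)))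
(L (nat_lit 17468295)))
(L (nat_lit 25483375)))))
(S (nat_lit 45605) (S (nat_lit 17071) (S (nat_lit 48290) (S (nat_lit 3454) (L (nat_lit 1615545))
(L (nat_lit 17441882)))
(L (nat_lit 27993637)))
(S (nat_lit 36835) (S (nat_lit 52196) (S (nat_lit 21005) (L (nat_lit 1746461))
(L (nat_lit 7211542)))
(L (nat_lit 12815155)))
(S (nat_lit 56599) (S (nat_lit 4399) (S (nat_lit 10977) (S (nat_lit 36819) (S (nat_lit 54881) (S (nat_lit 17558) (S (nat_lit 43955) (L (nat_lit 30951558))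
(L (nat_lit 12376238)))
(L (nat_lit 7930333)))
(L (nat_lit 27665588)))
(L (nat_lit 24032395)))
(L (nat_lit 16622774)))
(L (nat_lit 20148397)))
(L (nat_lit 25832492)))))
(L (nat_lit 25667169)))))
(S (nat_lit 57094) (S (nat_lit 11011) (S (nat_lit 56599) (S (nat_lit 4399) (S (nat_lit 6625) (S (nat_lit 22018) (S (nat_lit 52708) (S (nat_lit 34608) (S (nat_lit 28562) (S (nat_lit 3940) (S (nat_lit 4431) (L (nat_lit 5553752))
(L (nat_lit 1461062)))
(L (nat_lit 26795264)))
(L (nat_lit 13544004)))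
(L (nat_lit 445193)))
(L (nat_lit 19264623)))
(L (nat_lit 13470345)))
(L (nat_lit 26741385)))
(S (nat_lit 11635) (L (nat_lit 31033734))
(L (nat_lit 601499))))
(L (nat_lit 7099500)))
(S (nat_lit 30775) (S (nat_lit 17558) (S (nat_lit 4431) (S (nat_lit 19807) (S (nat_lit 13129) (L (nat_lit 29953415))
(L (nat_lit 1881427)))
(L (nat_lit 3659625)))
(L (nat_lit 19792391)))
(S (nat_lit 37322) (S (nat_lit 15390) (L (nat_lit 3725094))
(S (nat_lit 35076) (S (nat_lit 56599) (S (nat_lit 22018) (S (nat_lit 2195) (L (nat_lit 22511900))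
(L (nat_lit 19341221)))
(L (nat_lit 18666755)))
(L (nat_lit 14439680)))
(L (nat_lit 3840782))))
(S (nat_lit 57086) (S (nat_lit 22018) (S (nat_lit 4431) (S (nat_lit 4399) (S (nat_lit 32944) (L (nat_lit 5097099))
(L (nat_lit 30954754)))
(L (nat_lit 7101581)))
(L (nat_lit 19013145)))
(L (nat_lit 12913309)))
(L (nat_lit 25543828)))))
(S (nat_lit 50539) (S (nat_lit 4399) (S (nat_lit 2771) (L (nat_lit 19984775))
(S (nat_lit 56599) (S (nat_lit 6596) (S (nat_lit 22018) (S (nat_lit 23218) (S (nat_lit 28562) (S (nat_lit 8807) (L (nat_lit 23215977))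
(L (nat_lit 1401235)))
(L (nat_lit 19443460)))
(L (nat_lit 13372134)))
(L (nat_lit 21472376)))
(L (nat_lit 26975408)))
(L (nat_lit 1648060))))
(S (nat_lit 8855) (L (nat_lit 15639701))
(L (nat_lit 18919341))))
(L (nat_lit 25800195)))))
(L (nat_lit 25339533)))))
(L (nat_lit 25253414)))))
(S (nat_lit 29800) (S (nat_lit 1281) (S (nat_lit 13150) (S (nat_lit 17566) (S (nat_lit 15312) (S (nat_lit 54422) (S (nat_lit 36333) (S (nat_lit 4452) (S (nat_lit 18081) (L (nat_lit 26596869))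
(L (nat_lit 16992440)))
(L (nat_lit 26972550)))
(L (nat_lit 20711880)))
(L (nat_lit 21758470)))
(S (nat_lit 35076) (S (nat_lit 15331) (S (nat_lit 30246) (L (nat_lit 256657))
(L (nat_lit 12839586)))
(L (nat_lit 1888649)))
(S (nat_lit 54840) (S (nat_lit 27617) (S (nat_lit 4437) (S (nat_lit 2254) (S (nat_lit 6115) (L (nat_lit 16787255))
(L (nat_lit 19104589)))
(L (nat_lit 7263313)))
(L (nat_lit 26615859)))
(L (nat_lit 19106267)))
(L (nat_lit 25648231)))))
(S (nat_lit 37330) (S (nat_lit 11013) (S (nat_lit 54859) (S (nat_lit 56113) (L (nat_lit 12657240))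
(L (nat_lit 14428179)))
(L (nat_lit 13865779)))
(L (nat_lit 1684359)))
(S (nat_lit 57094) (S (nat_lit 7791) (S (nat_lit 20004) (L (nat_lit 19229808))
(S (nat_lit 30773) (S (nat_lit 54250) (L (nat_lit 6720092))
(S (nat_lit 56599) (S (nat_lit 13180) (L (nat_lit 15586346))
(L (nat_lit 7866198)))
(L (nat_lit 13751580))))
(L (nat_lit 13986867))))
(S (nat_lit 27555) (S (nat_lit 4452) (S (nat_lit 54422) (S (nat_lit 17574) (S (nat_lit 2254) (S (nat_lit 28562) (S (nat_lit 30773) (S (nat_lit 8762) (S (nat_lit 50010) (L (nat_lit 13790547))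
(L (nat_lit 27441833)))
(L (nat_lit 8178213)))
(L (nat_lit 17163315)))
(L (nat_lit 12882707)))
(L (nat_lit 15067779)))
(L (nat_lit 1651590)))
(L (nat_lit 1842738)))
(L (nat_lit 7213523)))
(S (nat_lit 47319) (S (nat_lit 4431) (S (nat_lit 53936) (S (nat_lit 56599) (S (nat_lit 30773) (L (nat_lit 29407879))
(L (nat_lit 9621049)))
(L (nat_lit 7092339)))
(L (nat_lit 27508352)))
(S (nat_lit 24195) (S (nat_lit 28571) (S (nat_lit 32410) (L (nat_lit 4709258))
(L (nat_lit 319309)))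
(L (nat_lit 12912403)))
(S (nat_lit 43959) (S (nat_lit 36349) (S (nat_lit 22584) (L (nat_lit 17847545))
(L (nat_lit 28689459)))
(L (nat_lit 12128049)))
(L (nat_lit 25559686)))))
(L (nat_lit 25283112)))))
(L (nat_lit 25530000)))))
(S (nat_lit 32914) (S (nat_lit 1241) (S (nat_lit 13158) (S (nat_lit 4431) (S (nat_lit 52697) (S (nat_lit 2195) (S (nat_lit 26389) (L (nat_lit 21438493))
(L (nat_lit 16424984)))
(L (nat_lit 7111158)))
(L (nat_lit 17099493)))
(L (nat_lit 6751896)))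
(S (nat_lit 32922) (S (nat_lit 24191) (S (nat_lit 47805) (S (nat_lit 32933) (S (nat_lit 47867) (L (nat_lit 6740156))
(L (nat_lit 18452262)))
(L (nat_lit 8480497)))
(L (nat_lit 27573922)))
(L (nat_lit 3944791)))
(S (nat_lit 52686) (S (nat_lit 5584) (L (nat_lit 7028765))
(S (nat_lit 28521) (S (nat_lit 4437) (S (nat_lit 6077) (S (nat_lit 4431) (S (nat_lit 8339) (S (nat_lit 43) (L (nat_lit 249372))
(L (nat_lit 12848891)))
(L (nat_lit 12801053)))
(L (nat_lit 1532583)))
(L (nat_lit 16320829)))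
(L (nat_lit 18574529)))
(L (nat_lit 13524160))))
(L (nat_lit 25240301)))))
(S (nat_lit 21005) (S (nat_lit 1767) (S (nat_lit 52657) (S (nat_lit 8807) (L (nat_lit 29377875))
(L (nat_lit 7223379)))
(L (nat_lit 11547475)))
(S (nat_lit 21531) (S (nat_lit 7269) (L (nat_lit 14593046))
(S (nat_lit 45157) (S (nat_lit 10977) (L (nat_lit 13718876))
(L (nat_lit 6744737)))
(L (nat_lit 545670))))
(S (nat_lit 41295) (S (nat_lit 17514) (S (nat_lit 11011) (S (nat_lit 31924) (S (nat_lit 8757) (S (nat_lit 25393) (L (nat_lit 5724042))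
(L (nat_lit 6838017)))
(L (nat_lit 7101953)))
(L (nat_lit 6853277)))
(L (nat_lit 7230576)))
(L (nat_lit 7075360)))
(L (nat_lit 25733138)))))
(S (nat_lit 40769) (S (nat_lit 3454) (S (nat_lit 4452) (S (nat_lit 2254) (S (nat_lit 16569) (S (nat_lit 50505) (S (nat_lit 56583) (S (nat_lit 28562) (L (nat_lit 321263))
(L (nat_lit 12900260)))
(L (nat_lit 6482672)))
(L (nat_lit 20220753)))
(L (nat_lit 26359464)))
(L (nat_lit 20357955)))
(S (nat_lit 15710) (L (nat_lit 6907918))
(L (nat_lit 20884865))))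
(S (nat_lit 23218) (S (nat_lit 6625) (S (nat_lit 56599) (S (nat_lit 41735) (L (nat_lit 13468918))
(L (nat_lit 14280932)))
(L (nat_lit 6741829)))
(S (nat_lit 53950) (L (nat_lit 1404560))
(L (nat_lit 13556962))))
(S (nat_lit 42982) (S (nat_lit 90) (L (nat_lit 605959))
(S (nat_lit 56599) (S (nat_lit 57094) (L (nat_lit 4503289))
(L (nat_lit 19015501)))
(L (nat_lit 27462067))))
(L (nat_lit 25823473)))))
(L (nat_lit 25430583)))))
(S (nat_lit 52678) (S (nat_lit 49) (S (nat_lit 7791) (S (nat_lit 2254) (S (nat_lit 4431) (S (nat_lit 56599) (S (nat_lit 17055) (S (nat_lit 2226) (L (nat_lit 13250341))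
(L (nat_lit 26904880)))
(L (nat_lit 26943568)))
(L (nat_lit 8907830)))
(L (nat_lit 20890912)))
(S (nat_lit 8896) (S (nat_lit 31561) (L (nat_lit 4582988))
(L (nat_lit 15068835)))
(L (nat_lit 19309411))))
(S (nat_lit 27555) (S (nat_lit 2195) (S (nat_lit 4452) (S (nat_lit 2254) (S (nat_lit 4437) (S (nat_lit 2207) (S (nat_lit 4427) (S (nat_lit 54851) (S (nat_lit 27617) (S (nat_lit 52657) (L (nat_lit 5553789))
(L (nat_lit 4419091)))
(L (nat_lit 24669376)))
(L (nat_lit 11454149)))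
(L (nat_lit 7796420)))
(L (nat_lit 20755653)))
(L (nat_lit 16688179)))
(L (nat_lit 8275618)))
(L (nat_lit 8091072)))
(S (nat_lit 2600) (L (nat_lit 24704071))
(L (nat_lit 1293020))))
(S (nat_lit 47319) (S (nat_lit 2254) (S (nat_lit 49524) (S (nat_lit 56599) (L (nat_lit 7126067))
(L (nat_lit 6805317)))
(L (nat_lit 16117411)))
(S (nat_lit 15538) (S (nat_lit 48133) (L (nat_lit 5535284))
(L (nat_lit 6318732)))
(L (nat_lit 19310435))))
(L (nat_lit 25517605)))))
(S (nat_lit 19813) (S (nat_lit 4427) (S (nat_lit 43) (S (nat_lit 4452) (S (nat_lit 58763) (S (nat_lit 46117) (L (nat_lit 29645221))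
(L (nat_lit 11660942)))
(L (nat_lit 1295284)))
(L (nat_lit 6447023)))
(S (nat_lit 13327) (S (nat_lit 28562) (L (nat_lit 2420246))
(L (nat_lit 8470451)))
(L (nat_lit 19163278))))
(S (nat_lit 24191) (S (nat_lit 22018) (S (nat_lit 21005) (L (nat_lit 17901398))
(L (nat_lit 11660822)))
(L (nat_lit 13346722)))
(S (nat_lit 43955) (S (nat_lit 28562) (S (nat_lit 26344) (S (nat_lit 4452) (L (nat_lit 4409142))
(L (nat_lit 19830095)))
(L (nat_lit 30856387)))
(L (nat_lit 19183524)))
(L (nat_lit 25443013)))))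
(S (nat_lit 39577) (S (nat_lit 1241) (S (nat_lit 3456) (S (nat_lit 32432) (L (nat_lit 5676979))
(L (nat_lit 11080121)))
(L (nat_lit 17508537)))
(S (nat_lit 21005) (S (nat_lit 52708) (S (nat_lit 28528) (L (nat_lit 17525896))
(L (nat_lit 19089187)))
(L (nat_lit 12119158)))
(S (nat_lit 40769) (S (nat_lit 26344) (S (nat_lit 2226) (S (nat_lit 27617) (L (nat_lit 28525682))
(L (nat_lit 19703266)))
(L (nat_lit 14977721)))
(L (nat_lit 19730638)))
(L (nat_lit 25592519)))))
(L (nat_lit 25280821)))))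
(L (nat_lit 25795970)))))
(S (nat_lit 21045) (S (nat_lit 2254) (S (nat_lit 7791) (S (nat_lit 17574) (S (nat_lit 2226) (S (nat_lit 56599) (S (nat_lit 4452) (S (nat_lit 4431) (L (nat_lit 10278309))
(L (nat_lit 26673799)))
(L (nat_lit 20851072)))
(L (nat_lit 19375225)))
(S (nat_lit 2631) (L (nat_lit 26353325))
(L (nat_lit 1921414))))
(S (nat_lit 37338) (S (nat_lit 6077) (S (nat_lit 10941) (S (nat_lit 56599) (S (nat_lit 14358) (L (nat_lit 10072153))
(L (nat_lit 24954213)))
(L (nat_lit 6787859)))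
(L (nat_lit 1888625)))
(L (nat_lit 19711331)))
(S (nat_lit 57102) (S (nat_lit 56113) (S (nat_lit 53936) (S (nat_lit 17566) (S (nat_lit 15353) (L (nat_lit 6868770))
(L (nat_lit 15002245)))
(L (nat_lit 1535561)))
(L (nat_lit 19118914)))
(L (nat_lit 19107601)))
(L (nat_lit 25348486)))))
(S (nat_lit 27555) (S (nat_lit 4427) (S (nat_lit 20585) (L (nat_lit 16637280))
(S (nat_lit 25355) (S (nat_lit 4452) (S (nat_lit 28) (S (nat_lit 23218) (S (nat_lit 3940) (S (nat_lit 6077) (S (nat_lit 1767) (S (nat_lit 54422) (S (nat_lit 56583) (S (nat_lit 34762) (S (nat_lit 13169) (L (nat_lit 15437080))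
(L (nat_lit 13472978)))
(S (nat_lit 52708) (S (nat_lit 48290) (S (nat_lit 35087) (S (nat_lit 54881) (S (nat_lit 31924) (L (nat_lit 9622041))
(L (nat_lit 7162404)))
(L (nat_lit 27829892)))
(L (nat_lit 23995940)))
(L (nat_lit 12083076)))
(S (nat_lit 56194) (S (nat_lit 10482) (L (nat_lit 17369338))
(L (nat_lit 5095702)))
(L (nat_lit 12387830)))))
(L (nat_lit 16649961)))
(L (nat_lit 17571457)))
(L (nat_lit 10355340)))
(L (nat_lit 2702716)))
(S (nat_lit 23704) (S (nat_lit 21531) (S (nat_lit 56583) (S (nat_lit 25841) (S (nat_lit 54422) (S (nat_lit 1727) (S (nat_lit 53886) (S (nat_lit 52657) (L (nat_lit 5850424))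
(L (nat_lit 27662483)))
(L (nat_lit 2544522)))
(S (nat_lit 21491) (S (nat_lit 54851) (L (nat_lit 15867641))
(L (nat_lit 5096724)))
(S (nat_lit 41255) (S (nat_lit 45157) (S (nat_lit 43) (S (nat_lit 50539) (S (nat_lit 37322) (L (nat_lit 30584275))
(L (nat_lit 2448857)))
(L (nat_lit 4547312)))
(L (nat_lit 12708552)))
(L (nat_lit 14818100)))
(L (nat_lit 25478883)))))
(L (nat_lit 19676417)))
(L (nat_lit 11091099)))
(L (nat_lit 27508452)))
(L (nat_lit 11386500)))
(S (nat_lit 43468) (S (nat_lit 41295) (S (nat_lit 45605) (S (nat_lit 56259) (L (nat_lit 703835))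
(S (nat_lit 56583) (S (nat_lit 54422) (S (nat_lit 23220) (S (nat_lit 17558) (S (nat_lit 8757) (S (nat_lit 13169) (S (nat_lit 6591) (L (nat_lit 9518748))
(L (nat_lit 13949761)))
(L (nat_lit 13932285)))
(L (nat_lit 23620615)))
(L (nat_lit 16325788)))
(S (nat_lit 30133) (S (nat_lit 37114) (L (nat_lit 20231321))
(L (nat_lit 19738881)))
(S (nat_lit 30814) (L (nat_lit 20480871))
(L (nat_lit 4516306)))))
(L (nat_lit 17002546)))
(L (nat_lit 3722091))))
(L (nat_lit 27901283)))
(L (nat_lit 27994284)))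
(L (nat_lit 25745450)))))
(L (nat_lit 11950945)))
(L (nat_lit 7996858)))
(L (nat_lit 7762656)))
(L (nat_lit 4472726))))
(S (nat_lit 11069) (S (nat_lit 6738) (S (nat_lit 25355) (L (nat_lit 23568443))
(L (nat_lit 25771264)))
(L (nat_lit 11561581)))
(L (nat_lit 19771562))))
(S (nat_lit 47319) (S (nat_lit 6625) (S (nat_lit 40445) (L (nat_lit 19765669))
(S (nat_lit 41255) (S (nat_lit 4452) (S (nat_lit 13129) (S (nat_lit 4437) (S (nat_lit 15374) (L (nat_lit 20422561))
(L (nat_lit 17157893)))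
(L (nat_lit 19841248)))
(L (nat_lit 825907)))
(L (nat_lit 8314241)))
(L (nat_lit 6917905))))
(S (nat_lit 26389) (S (nat_lit 55789) (S (nat_lit 7192) (L (nat_lit 19770752))
(L (nat_lit 19239694)))
(S (nat_lit 56599) (S (nat_lit 43) (S (nat_lit 15331) (S (nat_lit 13169) (L (nat_lit 20149388))
(L (nat_lit 7197093)))
(L (nat_lit 6338387)))
(L (nat_lit 19374978)))
(L (nat_lit 6896448))))
(S (nat_lit 46153) (S (nat_lit 11009) (S (nat_lit 7435) (L (nat_lit 11583133))
(S (nat_lit 31161) (L (nat_lit 9344620))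
(L (nat_lit 6917562))))
(L (nat_lit 2010613)))
(L (nat_lit 25507863)))))
(L (nat_lit 25345270)))))
(S (nat_lit 22018) (S (nat_lit 6589) (S (nat_lit 11009) (S (nat_lit 56599) (S (nat_lit 8798) (S (nat_lit 50675) (L (nat_lit 452267))
(L (nat_lit 8410924)))
(L (nat_lit 14963837)))
(L (nat_lit 18922250)))
(S (nat_lit 30773) (S (nat_lit 4431) (S (nat_lit 13129) (S (nat_lit 45605) (L (nat_lit 19116185))
(L (nat_lit 6375032)))
(L (nat_lit 6316566)))
(S (nat_lit 35488) (L (nat_lit 4673289))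
(L (nat_lit 7069809))))
(S (nat_lit 50537) (S (nat_lit 36349) (L (nat_lit 29561486))
(L (nat_lit 7193217)))
(L (nat_lit 25859276)))))
(S (nat_lit 26353) (S (nat_lit 33519) (L (nat_lit 18888583))
(S (nat_lit 58277) (S (nat_lit 49) (S (nat_lit 2226) (L (nat_lit 1496937))
(S (nat_lit 27029) (L (nat_lit 21344411))
(L (nat_lit 1370768))))
(S (nat_lit 6691) (S (nat_lit 57072) (L (nat_lit 15502549))
(L (nat_lit 15327489)))
(L (nat_lit 19001646))))
(L (nat_lit 19694860))))
(S (nat_lit 46117) (S (nat_lit 15331) (S (nat_lit 8757) (S (nat_lit 4437) (S (nat_lit 39584) (L (nat_lit 316174))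
(L (nat_lit 12086326)))
(L (nat_lit 1786105)))
(L (nat_lit 1306256)))
(S (nat_lit 35095) (S (nat_lit 22588) (L (nat_lit 30457074))
(S (nat_lit 57042) (S (nat_lit 56654) (L (nat_lit 454314))
(L (nat_lit 24360984)))
(L (nat_lit 11555697))))
(S (nat_lit 54859) (S (nat_lit 1198) (L (nat_lit 13486150))
(S (nat_lit 34172) (S (nat_lit 8757) (L (nat_lit 7082547))
(L (nat_lit 15501959)))
(L (nat_lit 30653524))))
(L (nat_lit 25934952)))))
(L (nat_lit 25285001)))))
(S (nat_lit 41782) (S (nat_lit 43) (S (nat_lit 11011) (S (nat_lit 4437) (S (nat_lit 45643) (S (nat_lit 13129) (S (nat_lit 56583) (L (nat_lit 25068780))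
(L (nat_lit 21368745)))
(L (nat_lit 7792259)))
(S (nat_lit 45805) (L (nat_lit 26301895))
(L (nat_lit 1299344))))
(S (nat_lit 4842) (L (nat_lit 30725664))
(L (nat_lit 1430319))))
(S (nat_lit 30775) (S (nat_lit 5629) (S (nat_lit 58763) (S (nat_lit 3940) (L (nat_lit 14453973))
(L (nat_lit 19767712)))
(L (nat_lit 19424392)))
(S (nat_lit 40974) (L (nat_lit 8031056))
(L (nat_lit 26367181))))
(S (nat_lit 50539) (S (nat_lit 4437) (S (nat_lit 58243) (S (nat_lit 4399) (S (nat_lit 31924) (L (nat_lit 251420))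
(L (nat_lit 7227937)))
(L (nat_lit 6895803)))
(L (nat_lit 7525913)))
(S (nat_lit 37120) (L (nat_lit 18981433))
(L (nat_lit 6483507))))
(L (nat_lit 25341458)))))
(S (nat_lit 19807) (S (nat_lit 29760) (S (nat_lit 14844) (S (nat_lit 43965) (S (nat_lit 4427) (L (nat_lit 5756250))
(L (nat_lit 1602250)))
(L (nat_lit 24585056)))
(L (nat_lit 11964279)))
(S (nat_lit 43804) (L (nat_lit 15619080))
(L (nat_lit 18620436))))
(S (nat_lit 39571) (S (nat_lit 17055) (S (nat_lit 56599) (S (nat_lit 7853) (S (nat_lit 4399) (S (nat_lit 14358) (L (nat_lit 29015210))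
(L (nat_lit 24938986)))
(L (nat_lit 19133891)))
(L (nat_lit 14264130)))
(L (nat_lit 6739712)))
(S (nat_lit 36819) (S (nat_lit 26389) (S (nat_lit 21990) (S (nat_lit 54372) (L (nat_lit 19768494))
(L (nat_lit 7193623)))
(L (nat_lit 18634017)))
(L (nat_lit 19703202)))
(S (nat_lit 56583) (S (nat_lit 56599) (S (nat_lit 4399) (L (nat_lit 28333391))
(L (nat_lit 6304661)))
(L (nat_lit 19328042)))
(L (nat_lit 25414084)))))
(L (nat_lit 25660105)))))
(L (nat_lit 25928812)))))
(S (nat_lit 40809) (S (nat_lit 6625) (S (nat_lit 2254) (S (nat_lit 15353) (S (nat_lit 8764) (S (nat_lit 8757) (S (nat_lit 17514) (S (nat_lit 32432) (L (nat_lit 16459523))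
(L (nat_lit 11266467)))
(L (nat_lit 8139425)))
(L (nat_lit 15469254)))
(S (nat_lit 9169) (L (nat_lit 16968330))
(L (nat_lit 1732008))))
(S (nat_lit 35117) (S (nat_lit 25841) (S (nat_lit 2226) (S (nat_lit 27617) (S (nat_lit 35138) (L (nat_lit 30582194))
(L (nat_lit 20287375)))
(L (nat_lit 1681169)))
(L (nat_lit 894606)))
(L (nat_lit 632313)))
(S (nat_lit 54881) (S (nat_lit 2226) (S (nat_lit 57042) (S (nat_lit 4452) (S (nat_lit 54859) (L (nat_lit 29375080))
(L (nat_lit 19076908)))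
(L (nat_lit 8294803)))
(L (nat_lit 19130417)))
(L (nat_lit 26610310)))
(L (nat_lit 25287083)))))
(S (nat_lit 22018) (S (nat_lit 36349) (S (nat_lit 13158) (S (nat_lit 4437) (S (nat_lit 20883) (L (nat_lit 30626988))
(L (nat_lit 28628450)))
(L (nat_lit 8306739)))
(L (nat_lit 7178645)))
(L (nat_lit 1501830)))
(S (nat_lit 41782) (S (nat_lit 4437) (S (nat_lit 43) (S (nat_lit 48292) (S (nat_lit 17558) (S (nat_lit 23220) (L (nat_lit 26354412))
(L (nat_lit 1503848)))
(L (nat_lit 26576276)))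
(L (nat_lit 27987369)))
(L (nat_lit 6379406)))
(S (nat_lit 24201) (S (nat_lit 36349) (S (nat_lit 49524) (L (nat_lit 4445660))
(L (nat_lit 13831867)))
(L (nat_lit 18666724)))
(S (nat_lit 43965) (S (nat_lit 57102) (S (nat_lit 41295) (L (nat_lit 26977295))
(L (nat_lit 27481100)))
(L (nat_lit 12341696)))
(L (nat_lit 25900071)))))
(L (nat_lit 25306769)))))
(S (nat_lit 26389) (S (nat_lit 6077) (S (nat_lit 3456) (S (nat_lit 28041) (S (nat_lit 4437) (S (nat_lit 26360) (L (nat_lit 6446619))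
(L (nat_lit 15467891)))
(L (nat_lit 18784274)))
(S (nat_lit 55477) (S (nat_lit 56583) (L (nat_lit 319959))
(L (nat_lit 9026717)))
(L (nat_lit 30719030))))
(S (nat_lit 23220) (S (nat_lit 52678) (S (nat_lit 56599) (L (nat_lit 29439622))
(L (nat_lit 1851667)))
(L (nat_lit 18122428)))
(S (nat_lit 42984) (S (nat_lit 52686) (S (nat_lit 58763) (S (nat_lit 54840) (L (nat_lit 4448908))
(L (nat_lit 15986272)))
(L (nat_lit 9036940)))
(L (nat_lit 19172795)))
(L (nat_lit 25676904)))))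
(S (nat_lit 25841) (S (nat_lit 43) (S (nat_lit 4399) (S (nat_lit 52196) (S (nat_lit 30705) (S (nat_lit 2226) (L (nat_lit 15311995))
(L (nat_lit 7163982)))
(L (nat_lit 19130817)))
(L (nat_lit 12913555)))
(S (nat_lit 6649) (L (nat_lit 19836046))
(L (nat_lit 19083451))))
(S (nat_lit 19807) (S (nat_lit 43167) (L (nat_lit 24126223))
(S (nat_lit 47319) (S (nat_lit 10482) (S (nat_lit 56) (L (nat_lit 6994691))
(L (nat_lit 7882781)))
(L (nat_lit 21531561)))
(L (nat_lit 22199547))))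
(S (nat_lit 39571) (S (nat_lit 10482) (S (nat_lit 30705) (L (nat_lit 28562445))
(L (nat_lit 19807584)))
(L (nat_lit 23630729)))
(L (nat_lit 25273876)))))
(S (nat_lit 45605) (S (nat_lit 13158) (S (nat_lit 8757) (S (nat_lit 4437) (S (nat_lit 3942) (S (nat_lit 43) (S (nat_lit 21005) (S (nat_lit 17514) (L (nat_lit 26643829))
(L (nat_lit 1751256)))
(L (nat_lit 21425159)))
(L (nat_lit 20234114)))
(L (nat_lit 19075886)))
(L (nat_lit 18606119)))
(S (nat_lit 17668) (L (nat_lit 15376412))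
(L (nat_lit 15508534))))
(S (nat_lit 21905) (L (nat_lit 1663246))
(L (nat_lit 1370551))))
(L (nat_lit 25675910)))))
(S (nat_lit 46153) (S (nat_lit 16569) (S (nat_lit 31299) (L (nat_lit 24460474))
(S (nat_lit 48326) (S (nat_lit 54422) (S (nat_lit 48396) (L (nat_lit 19076507))
(S (nat_lit 58763) (S (nat_lit 4431) (S (nat_lit 56599) (S (nat_lit 46124) (S (nat_lit 48292) (L (nat_lit 29610532))
(L (nat_lit 27319784)))
(L (nat_lit 20749488)))
(L (nat_lit 9177740)))
(L (nat_lit 6710354)))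
(L (nat_lit 6317806))))
(L (nat_lit 19741955)))
(L (nat_lit 12304165))))
(S (nat_lit 36333) (S (nat_lit 15374) (S (nat_lit 4399) (S (nat_lit 13150) (S (nat_lit 27617) (L (nat_lit 19694024))
(L (nat_lit 1687771)))
(L (nat_lit 7176630)))
(S (nat_lit 15775) (L (nat_lit 12946077))
(L (nat_lit 1653115))))
(S (nat_lit 35138) (S (nat_lit 4431) (S (nat_lit 4452) (S (nat_lit 56599) (S (nat_lit 54422) (S (nat_lit 48292) (S (nat_lit 43) (L (nat_lit 28979238))
(L (nat_lit 20384091)))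
(L (nat_lit 20154873)))
(L (nat_lit 6841458)))
(L (nat_lit 7099872)))
(L (nat_lit 18215091)))
(L (nat_lit 19236377)))
(S (nat_lit 54902) (S (nat_lit 15323) (S (nat_lit 52686) (S (nat_lit 56599) (S (nat_lit 43965) (S (nat_lit 8762) (L (nat_lit 12605194))
(L (nat_lit 15403850)))
(L (nat_lit 27627089)))
(L (nat_lit 19670437)))
(L (nat_lit 11111277)))
(L (nat_lit 1847572)))
(L (nat_lit 25352429)))))
(S (nat_lit 56097) (S (nat_lit 17514) (S (nat_lit 28103) (S (nat_lit 42982) (S (nat_lit 4399) (S (nat_lit 13158) (S (nat_lit 13180) (S (nat_lit 28526) (L (nat_lit 19950796))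
(L (nat_lit 30618180)))
(L (nat_lit 7230574)))
(L (nat_lit 649453)))
(L (nat_lit 1880808)))
(L (nat_lit 14329601)))
(L (nat_lit 7980057)))
(S (nat_lit 37278) (S (nat_lit 45202) (L (nat_lit 19937098))
(S (nat_lit 56599) (S (nat_lit 54851) (S (nat_lit 48292) (L (nat_lit 13673146))
(L (nat_lit 20181475)))
(L (nat_lit 19106701)))
(L (nat_lit 18935210))))
(S (nat_lit 57042) (S (nat_lit 2162) (L (nat_lit 8294029))
(S (nat_lit 31924) (S (nat_lit 25879) (L (nat_lit 11581271))
(L (nat_lit 7886752)))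
(L (nat_lit 30984294))))
(L (nat_lit 25923825)))))
(L (nat_lit 25723560)))))
(L (nat_lit 25353609)))))
(L (nat_lit 25482284)))))
(S (nat_lit 49564) (S (nat_lit 15331) (S (nat_lit 6625) (S (nat_lit 14844) (S (nat_lit 11013) (S (nat_lit 41295) (S (nat_lit 24191) (S (nat_lit 43980) (S (nat_lit 52174) (S (nat_lit 23704) (S (nat_lit 57086) (S (nat_lit 48326) (S (nat_lit 11011) (S (nat_lit 6580) (L (nat_lit 5518040))
(L (nat_lit 1885833)))
(L (nat_lit 2020872)))
(L (nat_lit 14233381)))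
(L (nat_lit 13179066)))
(L (nat_lit 702247)))
(L (nat_lit 20297632)))
(L (nat_lit 24515931)))
(L (nat_lit 14347589)))
(L (nat_lit 1855977)))
(S (nat_lit 30777) (S (nat_lit 21990) (S (nat_lit 25393) (S (nat_lit 50050) (S (nat_lit 58243) (L (nat_lit 2534197))
(L (nat_lit 7919393)))
(L (nat_lit 6930272)))
(L (nat_lit 1856877)))
(L (nat_lit 10241107)))
(S (nat_lit 50541) (S (nat_lit 82) (L (nat_lit 20756673))
(S (nat_lit 19792) (S (nat_lit 21971) (S (nat_lit 56599) (S (nat_lit 49) (S (nat_lit 35117) (L (nat_lit 30872884))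
(L (nat_lit 13392042)))
(L (nat_lit 8045378)))
(L (nat_lit 16524864)))
(L (nat_lit 13183001)))
(L (nat_lit 22818857))))
(L (nat_lit 25342566)))))
(S (nat_lit 34608) (S (nat_lit 10977) (S (nat_lit 26732) (L (nat_lit 13792906))
(S (nat_lit 50050) (S (nat_lit 58243) (S (nat_lit 32922) (L (nat_lit 1745373))
(L (nat_lit 9177772)))
(L (nat_lit 10143524)))
(L (nat_lit 6417041))))
(S (nat_lit 30741) (S (nat_lit 8339) (S (nat_lit 30705) (S (nat_lit 32922) (L (nat_lit 24180103))
(L (nat_lit 10391212)))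
(L (nat_lit 8967009)))
(S (nat_lit 18195) (L (nat_lit 19409761))
(L (nat_lit 21034321))))
(S (nat_lit 50505) (S (nat_lit 4399) (S (nat_lit 13169) (S (nat_lit 56599) (S (nat_lit 6580) (L (nat_lit 10228401))
(L (nat_lit 12627675)))
(L (nat_lit 18921753)))
(L (nat_lit 651658)))
(L (nat_lit 7958701)))
(L (nat_lit 25759175)))))
(S (nat_lit 54372) (S (nat_lit 8757) (S (nat_lit 17514) (S (nat_lit 2207) (S (nat_lit 2195) (S (nat_lit 32432) (L (nat_lit 20149760))
(L (nat_lit 19329032)))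
(L (nat_lit 26681029)))
(L (nat_lit 547627)))
(L (nat_lit 8146991)))
(S (nat_lit 28521) (S (nat_lit 17574) (S (nat_lit 58243) (S (nat_lit 25393) (L (nat_lit 1847540))
(L (nat_lit 1594118)))
(L (nat_lit 8308417)))
(S (nat_lit 18141) (L (nat_lit 12769532))
(L (nat_lit 2011783))))
(S (nat_lit 48285) (S (nat_lit 43470) (S (nat_lit 6589) (S (nat_lit 23218) (L (nat_lit 30459190))
(L (nat_lit 1857958)))
(L (nat_lit 1528027)))
(L (nat_lit 6343197)))
(L (nat_lit 25178324)))))
(L (nat_lit 25478754)))))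
(S (nat_lit 26389) (S (nat_lit 7791) (S (nat_lit 32922) (S (nat_lit 57086) (S (nat_lit 24191) (S (nat_lit 34658) (S (nat_lit 41782) (S (nat_lit 8798) (S (nat_lit 17055) (S (nat_lit 19792) (S (nat_lit 43980) (S (nat_lit 10522) (S (nat_lit 37338) (S (nat_lit 21990) (S (nat_lit 21491) (L (nat_lit 5520123))
(L (nat_lit 21392641)))
(L (nat_lit 21558560)))
(L (nat_lit 23467879)))
(S (nat_lit 30286) (S (nat_lit 30741) (L (nat_lit 18899249))
(L (nat_lit 25081184)))
(S (nat_lit 50050) (S (nat_lit 41723) (L (nat_lit 2768092))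
(L (nat_lit 27478437)))
(L (nat_lit 25270738)))))
(L (nat_lit 15033056)))
(L (nat_lit 15336669)))
(L (nat_lit 4833065)))
(L (nat_lit 8238197)))
(L (nat_lit 13994804)))
(L (nat_lit 7889539)))
(L (nat_lit 17569110)))
(L (nat_lit 27606661)))
(S (nat_lit 52632) (L (nat_lit 2342806))
(L (nat_lit 16517863))))
(S (nat_lit 27555) (S (nat_lit 10977) (S (nat_lit 2195) (S (nat_lit 44795) (L (nat_lit 24677130))
(S (nat_lit 45605) (S (nat_lit 2207) (S (nat_lit 16569) (S (nat_lit 52686) (L (nat_lit 17681447))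
(L (nat_lit 21466022)))
(L (nat_lit 24984680)))
(L (nat_lit 6845495)))
(L (nat_lit 6930275))))
(S (nat_lit 7911) (L (nat_lit 1272246))
(L (nat_lit 1303245))))
(S (nat_lit 30741) (S (nat_lit 3454) (S (nat_lit 32432) (S (nat_lit 2207) (S (nat_lit 10522) (L (nat_lit 3938961))
(L (nat_lit 15308890)))
(L (nat_lit 6897444)))
(L (nat_lit 19407897)))
(L (nat_lit 19735969)))
(S (nat_lit 50505) (S (nat_lit 2207) (S (nat_lit 3454) (S (nat_lit 25355) (S (nat_lit 8757) (L (nat_lit 28610068))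
(L (nat_lit 17002176)))
(L (nat_lit 6897536)))
(L (nat_lit 19733521)))
(S (nat_lit 37153) (L (nat_lit 6895801))
(L (nat_lit 26226198))))
(L (nat_lit 25273814)))))
(S (nat_lit 47319) (S (nat_lit 13129) (S (nat_lit 3454) (S (nat_lit 8764) (S (nat_lit 4431) (L (nat_lit 6445937))
(L (nat_lit 26363155)))
(L (nat_lit 7400108)))
(S (nat_lit 48864) (L (nat_lit 18890075))
(L (nat_lit 15345537))))
(S (nat_lit 32893) (S (nat_lit 2765) (L (nat_lit 15475267))
(S (nat_lit 8339) (S (nat_lit 54422) (S (nat_lit 30777) (L (nat_lit 8053283))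
(L (nat_lit 10278273)))
(L (nat_lit 19096689)))
(L (nat_lit 13206781))))
(S (nat_lit 52657) (S (nat_lit 2179) (L (nat_lit 26233198))
(S (nat_lit 23704) (S (nat_lit 10522) (S (nat_lit 34658) (L (nat_lit 3004620))
(L (nat_lit 834770)))
(L (nat_lit 21403738)))
(L (nat_lit 974247))))
(L (nat_lit 25409154)))))
(L (nat_lit 25836837)))))
(S (nat_lit 46153) (S (nat_lit 15312) (S (nat_lit 14844) (S (nat_lit 15323) (S (nat_lit 23704) (S (nat_lit 8762) (S (nat_lit 21971) (L (nat_lit 1746392))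
(L (nat_lit 22033657)))
(L (nat_lit 1302383)))
(L (nat_lit 8032108)))
(S (nat_lit 38388) (L (nat_lit 26449365))
(L (nat_lit 26257103))))
(S (nat_lit 34608) (S (nat_lit 15323) (S (nat_lit 41295) (S (nat_lit 25355) (L (nat_lit 7899922))
(L (nat_lit 17426688)))
(L (nat_lit 1851051)))
(L (nat_lit 7090884)))
(S (nat_lit 54372) (S (nat_lit 15323) (S (nat_lit 8764) (S (nat_lit 30741) (S (nat_lit 21491) (L (nat_lit 974063))
(L (nat_lit 7489399)))
(L (nat_lit 17566310)))
(L (nat_lit 1531227)))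
(L (nat_lit 1600202)))
(L (nat_lit 25923049)))))
(S (nat_lit 35076) (S (nat_lit 17558) (S (nat_lit 4399) (S (nat_lit 56599) (L (nat_lit 19984807))
(L (nat_lit 1849619)))
(L (nat_lit 1848009)))
(S (nat_lit 37322) (S (nat_lit 4431) (S (nat_lit 34172) (L (nat_lit 28319282))
(L (nat_lit 20177442)))
(L (nat_lit 20283833)))
(S (nat_lit 57086) (S (nat_lit 29611) (L (nat_lit 11597453))
(S (nat_lit 56599) (S (nat_lit 28103) (S (nat_lit 53936) (S (nat_lit 38479) (L (nat_lit 29613445))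
(L (nat_lit 7164973)))
(L (nat_lit 27507730)))
(L (nat_lit 24647705)))
(L (nat_lit 14427776))))
(L (nat_lit 25822666)))))
(S (nat_lit 54840) (S (nat_lit 15353) (S (nat_lit 20121) (L (nat_lit 19250264))
(S (nat_lit 54372) (S (nat_lit 2195) (S (nat_lit 31924) (S (nat_lit 42982) (L (nat_lit 30083499))
(L (nat_lit 7399861)))
(L (nat_lit 17041117)))
(L (nat_lit 7092932)))
(L (nat_lit 17492290))))
(S (nat_lit 35117) (S (nat_lit 14358) (S (nat_lit 50537) (S (nat_lit 50050) (L (nat_lit 7045998))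
(L (nat_lit 20201317)))
(L (nat_lit 11287173)))
(L (nat_lit 14425795)))
(S (nat_lit 54881) (S (nat_lit 48290) (S (nat_lit 56599) (S (nat_lit 32432) (L (nat_lit 15738460))
(L (nat_lit 19311641)))
(L (nat_lit 14439680)))
(L (nat_lit 27280659)))
(L (nat_lit 25798117)))))
(L (nat_lit 25631425)))))
(L (nat_lit 25544751)))))
(S (nat_lit 35095) (S (nat_lit 7853) (S (nat_lit 6591) (S (nat_lit 22306) (L (nat_lit 17738368))
(S (nat_lit 41782) (S (nat_lit 28571) (S (nat_lit 43980) (S (nat_lit 21990) (S (nat_lit 3456) (S (nat_lit 31924) (S (nat_lit 32893) (S (nat_lit 46108) (S (nat_lit 52686) (S (nat_lit 56599) (S (nat_lit 15374) (S (nat_lit 18749) (L (nat_lit 4572922))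
(L (nat_lit 24554685)))
(L (nat_lit 1497899)))
(L (nat_lit 27712704)))
(L (nat_lit 21237179)))
(L (nat_lit 20177282)))
(L (nat_lit 14878296)))
(L (nat_lit 1794598)))
(L (nat_lit 26651205)))
(L (nat_lit 21536860)))
(L (nat_lit 13393248)))
(S (nat_lit 41319) (L (nat_lit 31013991))
(L (nat_lit 3535251))))
(L (nat_lit 23857452))))
(S (nat_lit 26355) (S (nat_lit 6077) (S (nat_lit 17055) (S (nat_lit 4399) (S (nat_lit 17558) (L (nat_lit 19662158))
(L (nat_lit 18186845)))
(L (nat_lit 19133584)))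
(L (nat_lit 26230507)))
(S (nat_lit 25841) (S (nat_lit 36349) (S (nat_lit 13169) (S (nat_lit 43980) (L (nat_lit 29004049))
(L (nat_lit 15046419)))
(L (nat_lit 13955092)))
(L (nat_lit 30725201)))
(S (nat_lit 45605) (S (nat_lit 30372) (S (nat_lit 7142) (L (nat_lit 1615730))
(L (nat_lit 16523840)))
(S (nat_lit 56599) (S (nat_lit 17055) (S (nat_lit 21990) (S (nat_lit 5591) (L (nat_lit 28740979))
(L (nat_lit 18623040)))
(L (nat_lit 3942064)))
(L (nat_lit 24984866)))
(L (nat_lit 13692118))))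
(L (nat_lit 25243127)))))
(S (nat_lit 46119) (S (nat_lit 17558) (S (nat_lit 34281) (L (nat_lit 12641931))
(S (nat_lit 45157) (S (nat_lit 21531) (S (nat_lit 11009) (S (nat_lit 52708) (S (nat_lit 14358) (S (nat_lit 48290) (S (nat_lit 4399) (L (nat_lit 13268106))
(L (nat_lit 810349)))
(L (nat_lit 27511173)))
(L (nat_lit 9172012)))
(L (nat_lit 27808873)))
(L (nat_lit 6994724)))
(L (nat_lit 22552482)))
(L (nat_lit 12637067))))
(S (nat_lit 37322) (S (nat_lit 41782) (S (nat_lit 56599) (S (nat_lit 24201) (S (nat_lit 21990) (S (nat_lit 5629) (L (nat_lit 4595323))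
(L (nat_lit 8836961)))
(L (nat_lit 13372039)))
(L (nat_lit 10193468)))
(L (nat_lit 13830745)))
(L (nat_lit 27640948)))
(S (nat_lit 57086) (S (nat_lit 36349) (S (nat_lit 2207) (S (nat_lit 28571) (L (nat_lit 29940774))
(L (nat_lit 12939379)))
(L (nat_lit 20182468)))
(S (nat_lit 39945) (L (nat_lit 6411149))
(L (nat_lit 4813100))))
(L (nat_lit 25828526)))))
(L (nat_lit 25920999)))))
(S (nat_lit 27617) (S (nat_lit 6625) (S (nat_lit 6077) (S (nat_lit 32432) (S (nat_lit 56583) (S (nat_lit 16569) (L (nat_lit 2674971))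
(L (nat_lit 26846384)))
(L (nat_lit 19119970)))
(L (nat_lit 19407897)))
(S (nat_lit 25841) (S (nat_lit 13158) (S (nat_lit 4431) (S (nat_lit 2226) (S (nat_lit 23218) (L (nat_lit 22079878))
(L (nat_lit 6995809)))
(L (nat_lit 17671251)))
(L (nat_lit 26590291)))
(L (nat_lit 13214745)))
(S (nat_lit 45605) (S (nat_lit 25355) (S (nat_lit 15353) (L (nat_lit 4826991))
(L (nat_lit 7965613)))
(L (nat_lit 1698343)))
(L (nat_lit 25243214)))))
(S (nat_lit 26389) (S (nat_lit 17566) (S (nat_lit 11013) (S (nat_lit 6077) (L (nat_lit 7115315))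
(L (nat_lit 18458371)))
(S (nat_lit 28399) (L (nat_lit 6344219))
(L (nat_lit 347608))))
(S (nat_lit 37330) (S (nat_lit 8764) (S (nat_lit 24201) (S (nat_lit 30775) (L (nat_lit 5947305))
(L (nat_lit 24581033)))
(L (nat_lit 30581235)))
(L (nat_lit 21228721)))
(S (nat_lit 57094) (S (nat_lit 2226) (S (nat_lit 3942) (S (nat_lit 4452) (S (nat_lit 50050) (L (nat_lit 1552242))
(L (nat_lit 1696263)))
(L (nat_lit 6484371)))
(L (nat_lit 12030739)))
(S (nat_lit 18864) (L (nat_lit 23242236))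
(L (nat_lit 1451705))))
(L (nat_lit 25823568)))))
(S (nat_lit 46153) (S (nat_lit 4399) (S (nat_lit 25310) (L (nat_lit 18913820))
(S (nat_lit 56599) (S (nat_lit 43) (S (nat_lit 57094) (S (nat_lit 46480) (L (nat_lit 11306737))
(L (nat_lit 13214876)))
(L (nat_lit 12388819)))
(L (nat_lit 19742051)))
(L (nat_lit 19100780))))
(S (nat_lit 24163) (S (nat_lit 4431) (S (nat_lit 10482) (L (nat_lit 29886836))
(L (nat_lit 2713003)))
(L (nat_lit 6769785)))
(S (nat_lit 43927) (S (nat_lit 50539) (S (nat_lit 41647) (L (nat_lit 28904812))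
(L (nat_lit 12637465)))
(L (nat_lit 12169337)))
(L (nat_lit 25800841)))))
(L (nat_lit 25306546)))))
(S (nat_lit 47381) (S (nat_lit 10977) (S (nat_lit 3942) (S (nat_lit 8757) (S (nat_lit 24191) (S (nat_lit 17558) (L (nat_lit 26917003))
(L (nat_lit 6905998)))
(L (nat_lit 17099926)))
(L (nat_lit 7801654)))
(S (nat_lit 23706) (S (nat_lit 35117) (S (nat_lit 46108) (S (nat_lit 37338) (L (nat_lit 13533555))
(L (nat_lit 2715015)))
(L (nat_lit 19949961)))
(L (nat_lit 13371762)))
(S (nat_lit 43470) (S (nat_lit 6596) (S (nat_lit 46108) (S (nat_lit 37308) (L (nat_lit 28943809))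
(L (nat_lit 9989728)))
(L (nat_lit 19940569)))
(S (nat_lit 8630) (L (nat_lit 15445084))
(L (nat_lit 1646109))))
(L (nat_lit 25444498)))))
(S (nat_lit 30741) (S (nat_lit 2254) (S (nat_lit 54902) (S (nat_lit 34172) (L (nat_lit 18891993))
(L (nat_lit 20748834)))
(L (nat_lit 27698853)))
(S (nat_lit 22018) (S (nat_lit 32432) (S (nat_lit 16569) (S (nat_lit 30246) (L (nat_lit 28354007))
(L (nat_lit 19440700)))
(L (nat_lit 17639075)))
(L (nat_lit 19408803)))
(S (nat_lit 41782) (S (nat_lit 54902) (S (nat_lit 10482) (L (nat_lit 28739827))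
(L (nat_lit 17555714)))
(L (nat_lit 27862468)))
(L (nat_lit 25600675)))))
(S (nat_lit 50505) (S (nat_lit 15374) (S (nat_lit 17566) (S (nat_lit 23706) (S (nat_lit 21045) (S (nat_lit 32432) (L (nat_lit 29402516))
(L (nat_lit 8096524)))
(L (nat_lit 7049996)))
(L (nat_lit 22520924)))
(S (nat_lit 34672) (L (nat_lit 6170255))
(L (nat_lit 26577366))))
(S (nat_lit 35138) (S (nat_lit 45119) (S (nat_lit 37338) (S (nat_lit 4431) (L (nat_lit 9227436))
(L (nat_lit 20880800)))
(L (nat_lit 31003015)))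
(L (nat_lit 2695736)))
(S (nat_lit 54902) (S (nat_lit 48292) (S (nat_lit 37278) (S (nat_lit 29760) (L (nat_lit 6785788))
(L (nat_lit 24912357)))
(L (nat_lit 2352815)))
(L (nat_lit 20810153)))
(L (nat_lit 25306799)))))
(L (nat_lit 25708678)))))
(L (nat_lit 25709609)))))
(S (nat_lit 54859) (S (nat_lit 14894) (S (nat_lit 7853) (S (nat_lit 4452) (L (nat_lit 1688953))
(S (nat_lit 24216) (S (nat_lit 4399) (S (nat_lit 36333) (L (nat_lit 30419665))
(L (nat_lit 6914524)))
(S (nat_lit 19195) (L (nat_lit 19360069))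
(L (nat_lit 19099821))))
(S (nat_lit 43980) (S (nat_lit 18863) (L (nat_lit 5560892))
(S (nat_lit 23220) (S (nat_lit 13180) (S (nat_lit 31924) (S (nat_lit 41723) (L (nat_lit 5980507))
(L (nat_lit 13857975)))
(L (nat_lit 6850264)))
(L (nat_lit 1580883)))
(L (nat_lit 1297884))))
(L (nat_lit 25320902)))))
(S (nat_lit 27617) (S (nat_lit 6591) (S (nat_lit 45643) (S (nat_lit 15374) (S (nat_lit 21959) (L (nat_lit 5860775))
(L (nat_lit 12780407)))
(L (nat_lit 6974509)))
(S (nat_lit 49864) (L (nat_lit 4438681))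
(L (nat_lit 23311545))))
(S (nat_lit 26355) (S (nat_lit 21959) (S (nat_lit 26360) (S (nat_lit 41735) (L (nat_lit 22029721))
(L (nat_lit 27465293)))
(L (nat_lit 19667120)))
(L (nat_lit 22217145)))
(S (nat_lit 46119) (S (nat_lit 1422) (L (nat_lit 30618180))
(S (nat_lit 28526) (S (nat_lit 38999) (S (nat_lit 4437) (L (nat_lit 5035526))
(L (nat_lit 6777875)))
(L (nat_lit 20168793)))
(L (nat_lit 24316313))))
(L (nat_lit 25244391)))))
(S (nat_lit 47381) (S (nat_lit 2285) (L (nat_lit 1858983))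
(S (nat_lit 21959) (S (nat_lit 10941) (S (nat_lit 19820) (L (nat_lit 21203761))
(L (nat_lit 2629463)))
(S (nat_lit 12372) (L (nat_lit 20169849))
(L (nat_lit 247732))))
(L (nat_lit 22079823))))
(L (nat_lit 25804841)))))
(S (nat_lit 34658) (S (nat_lit 15323) (S (nat_lit 13180) (S (nat_lit 17544) (S (nat_lit 4431) (S (nat_lit 3942) (S (nat_lit 11009) (L (nat_lit 20145265))
(L (nat_lit 972267)))
(L (nat_lit 14724697)))
(L (nat_lit 7800473)))
(L (nat_lit 26757377)))
(S (nat_lit 32944) (S (nat_lit 35076) (S (nat_lit 8762) (S (nat_lit 48335) (S (nat_lit 43468) (L (nat_lit 28744786))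
(L (nat_lit 14454036)))
(L (nat_lit 16076922)))
(L (nat_lit 7887996)))
(L (nat_lit 20453500)))
(S (nat_lit 52708) (S (nat_lit 4431) (S (nat_lit 38999) (S (nat_lit 30246) (S (nat_lit 2226) (L (nat_lit 26401256))
(L (nat_lit 6982041)))
(L (nat_lit 604444)))
(L (nat_lit 17508441)))
(S (nat_lit 32030) (L (nat_lit 5461401))
(L (nat_lit 26983712))))
(L (nat_lit 25309897)))))
(S (nat_lit 35087) (S (nat_lit 7853) (S (nat_lit 12745) (L (nat_lit 252348))
(S (nat_lit 38999) (S (nat_lit 50050) (S (nat_lit 32432) (S (nat_lit 4431) (S (nat_lit 1767) (S (nat_lit 41723) (L (nat_lit 29402610))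
(L (nat_lit 15791478)))
(L (nat_lit 26973673)))
(L (nat_lit 20890881)))
(L (nat_lit 7866971)))
(L (nat_lit 6338482)))
(L (nat_lit 5790075))))
(S (nat_lit 27617) (S (nat_lit 25475) (S (nat_lit 37322) (S (nat_lit 5629) (L (nat_lit 21370666))
(L (nat_lit 19084442)))
(L (nat_lit 30752388)))
(S (nat_lit 45157) (S (nat_lit 8757) (S (nat_lit 28103) (L (nat_lit 19996464))
(L (nat_lit 19400614)))
(L (nat_lit 209684)))
(L (nat_lit 10141753))))
(S (nat_lit 47381) (S (nat_lit 1920) (L (nat_lit 1266233))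
(S (nat_lit 38513) (S (nat_lit 1767) (L (nat_lit 217900))
(L (nat_lit 12086946)))
(L (nat_lit 6840994))))
(L (nat_lit 25239280)))))
(S (nat_lit 54851) (S (nat_lit 16585) (S (nat_lit 22397) (L (nat_lit 12930169))
(S (nat_lit 28526) (S (nat_lit 45643) (L (nat_lit 17003603))
(L (nat_lit 6963225)))
(L (nat_lit 18937135))))
(S (nat_lit 36349) (S (nat_lit 37322) (S (nat_lit 13150) (S (nat_lit 53886) (S (nat_lit 52196) (S (nat_lit 4431) (S (nat_lit 41782) (S (nat_lit 17055) (S (nat_lit 50537) (L (nat_lit 6013304))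
(L (nat_lit 27727499)))
(L (nat_lit 9458137)))
(L (nat_lit 23857425)))
(L (nat_lit 1985030)))
(L (nat_lit 1654568)))
(L (nat_lit 21372707)))
(L (nat_lit 1946835)))
(L (nat_lit 14228324)))
(S (nat_lit 56113) (S (nat_lit 51601) (L (nat_lit 14320921))
(S (nat_lit 58243) (S (nat_lit 56599) (S (nat_lit 50050) (S (nat_lit 15402) (L (nat_lit 7074897))
(L (nat_lit 23268761)))
(L (nat_lit 14327897)))
(L (nat_lit 7147955)))
(L (nat_lit 19828235))))
(L (nat_lit 25761004)))))
(L (nat_lit 25931850)))))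
(S (nat_lit 54422) (S (nat_lit 7853) (S (nat_lit 15323) (S (nat_lit 36333) (S (nat_lit 48292) (L (nat_lit 23310457))
(L (nat_lit 13864791)))
(L (nat_lit 7093987)))
(S (nat_lit 35087) (S (nat_lit 15312) (S (nat_lit 57072) (S (nat_lit 48290) (L (nat_lit 29786822))
(L (nat_lit 27319565)))
(L (nat_lit 19423489)))
(L (nat_lit 1598150)))
(S (nat_lit 54851) (S (nat_lit 28521) (S (nat_lit 54840) (S (nat_lit 24201) (L (nat_lit 13470406))
(L (nat_lit 21301820)))
(L (nat_lit 14537984)))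
(L (nat_lit 19342394)))
(L (nat_lit 25644138)))))
(S (nat_lit 27617) (S (nat_lit 23158) (S (nat_lit 56599) (L (nat_lit 27446545))
(L (nat_lit 7164972)))
(S (nat_lit 36442) (S (nat_lit 5591) (S (nat_lit 56097) (L (nat_lit 13814108))
(L (nat_lit 27638967)))
(S (nat_lit 25355) (L (nat_lit 1326844))
(L (nat_lit 25511030))))
(L (nat_lit 19696134))))
(S (nat_lit 47381) (S (nat_lit 4399) (S (nat_lit 36819) (S (nat_lit 29760) (S (nat_lit 47867) (S (nat_lit 26344) (S (nat_lit 2207) (L (nat_lit 8239683))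
(L (nat_lit 6756150)))
(L (nat_lit 18891656)))
(L (nat_lit 3697382)))
(S (nat_lit 32730) (L (nat_lit 18650695))
(L (nat_lit 6854268))))
(L (nat_lit 7354263)))
(S (nat_lit 24163) (S (nat_lit 2195) (S (nat_lit 2207) (S (nat_lit 36819) (L (nat_lit 6926523))
(L (nat_lit 20180112)))
(L (nat_lit 19708970)))
(S (nat_lit 30372) (L (nat_lit 17885928))
(L (nat_lit 6915516))))
(S (nat_lit 43927) (S (nat_lit 2195) (S (nat_lit 3456) (S (nat_lit 2226) (L (nat_lit 14721939))
(L (nat_lit 19196016)))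
(L (nat_lit 17031347)))
(L (nat_lit 17031877)))
(L (nat_lit 25368301)))))
(L (nat_lit 25173493)))))
(L (nat_lit 25271953)))))
(L (nat_lit 25381251)))))
(L (nat_lit 25185734)))))

theorem rb183_2 : run 4 lb183 [] tb183_2 kb183 (P4 4 743 0 4082 6403 0 0 1 2) [] = true := by
  decide +kernel

noncomputable def ta35_3 : Tr :=
(S (nat_lit 1387) (S (nat_lit 650) (S (nat_lit 209) (S (nat_lit 6143) (L (nat_lit 477354))
(L (nat_lit 180839)))
(S (nat_lit 479) (S (nat_lit 4428) (L (nat_lit 567875))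
(L (nat_lit 382337)))
(S (nat_lit 4856) (S (nat_lit 2948) (L (nat_lit 360947))
(L (nat_lit 309828)))
(L (nat_lit 297585)))))
(S (nat_lit 2864) (S (nat_lit 1478) (L (nat_lit 274613))
(S (nat_lit 3692) (S (nat_lit 2567) (L (nat_lit 265937))
(S (nat_lit 4043) (L (nat_lit 314788))
(L (nat_lit 110869))))
(S (nat_lit 5906) (S (nat_lit 2539) (S (nat_lit 5162) (S (nat_lit 2917) (L (nat_lit 119024))
(L (nat_lit 465602)))
(S (nat_lit 5270) (L (nat_lit 462570))
(L (nat_lit 171572))))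
(L (nat_lit 20870)))
(L (nat_lit 604170)))))
(S (nat_lit 5078) (S (nat_lit 1715) (S (nat_lit 1094) (S (nat_lit 671) (L (nat_lit 42639))
(L (nat_lit 378496)))
(S (nat_lit 3050) (S (nat_lit 5906) (S (nat_lit 5018) (L (nat_lit 736328))
(L (nat_lit 525652)))
(L (nat_lit 182762)))
(L (nat_lit 185709))))
(S (nat_lit 3929) (S (nat_lit 5906) (S (nat_lit 836) (S (nat_lit 5162) (S (nat_lit 0) (L (nat_lit 436274))
(L (nat_lit 198253)))
(L (nat_lit 361874)))
(L (nat_lit 470134)))
(L (nat_lit 379364)))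
(S (nat_lit 6143) (S (nat_lit 5906) (S (nat_lit 5426) (S (nat_lit 5162) (S (nat_lit 4613) (S (nat_lit 5264) (S (nat_lit 2473) (S (nat_lit 2472) (S (nat_lit 1802) (S (nat_lit 2879) (S (nat_lit 671) (S (nat_lit 3620) (S (nat_lit 1995) (S (nat_lit 5704) (S (nat_lit 5442) (S (nat_lit 3258) (S (nat_lit 5630) (D (nat_lit 10) (nat_lit 729634) (nat_lit 139854) (nat_lit 34361903169))
(L (nat_lit 579812)))
(L (nat_lit 663042)))
(L (nat_lit 481506)))
(L (nat_lit 737472)))
(L (nat_lit 669888)))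
(S (nat_lit 6435) (S (nat_lit 5834) (S (nat_lit 3973) (D (nat_lit 10) (nat_lit 700486) (nat_lit 117038) (nat_lit 68719544384))
(L (nat_lit 514405)))
(L (nat_lit 497682)))
(L (nat_lit 22831))))
(L (nat_lit 317488)))
(L (nat_lit 498709)))
(L (nat_lit 631950)))
(L (nat_lit 379392)))
(L (nat_lit 379055)))
(L (nat_lit 502836)))
(L (nat_lit 378560)))
(L (nat_lit 185739)))
(L (nat_lit 310452)))
(L (nat_lit 470036)))
(L (nat_lit 593262)))))
(L (nat_lit 593318)))))
(S (nat_lit 3601) (S (nat_lit 258) (S (nat_lit 428) (S (nat_lit 509) (S (nat_lit 292) (S (nat_lit 5981) (L (nat_lit 171412))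
(L (nat_lit 49426)))
(L (nat_lit 695746)))
(L (nat_lit 366225)))
(S (nat_lit 2642) (S (nat_lit 5981) (S (nat_lit 5099) (S (nat_lit 5426) (S (nat_lit 2473) (L (nat_lit 332397))
(L (nat_lit 462066)))
(L (nat_lit 446757)))
(L (nat_lit 524628)))
(L (nat_lit 467649)))
(S (nat_lit 4856) (S (nat_lit 4613) (S (nat_lit 5099) (S (nat_lit 1663) (L (nat_lit 110066))
(L (nat_lit 446537)))
(L (nat_lit 575810)))
(L (nat_lit 665745)))
(L (nat_lit 607586)))))
(S (nat_lit 2472) (S (nat_lit 4937) (S (nat_lit 1058) (S (nat_lit 1802) (S (nat_lit 3692) (S (nat_lit 5093) (S (nat_lit 5099) (L (nat_lit 689424))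
(L (nat_lit 533184)))
(L (nat_lit 528658)))
(L (nat_lit 528595)))
(L (nat_lit 635137)))
(L (nat_lit 469665)))
(S (nat_lit 5964) (L (nat_lit 525522))
(L (nat_lit 182609))))
(S (nat_lit 4686) (S (nat_lit 836) (S (nat_lit 4428) (S (nat_lit 4327) (S (nat_lit 2723) (S (nat_lit 590) (L (nat_lit 72082))
(L (nat_lit 639201)))
(L (nat_lit 495861)))
(L (nat_lit 246871)))
(L (nat_lit 373473)))
(S (nat_lit 3050) (S (nat_lit 1802) (S (nat_lit 259) (S (nat_lit 1715) (L (nat_lit 462167))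
(L (nat_lit 577732)))
(L (nat_lit 446635)))
(L (nat_lit 493129)))
(S (nat_lit 5264) (S (nat_lit 1058) (S (nat_lit 4428) (L (nat_lit 691533))
(L (nat_lit 177365)))
(L (nat_lit 478561)))
(L (nat_lit 600547)))))
(L (nat_lit 601229)))))
(S (nat_lit 5815) (S (nat_lit 590) (S (nat_lit 861) (L (nat_lit 79592))
(S (nat_lit 2434) (L (nat_lit 283724))
(S (nat_lit 5078) (S (nat_lit 2214) (S (nat_lit 6541) (S (nat_lit 1802) (L (nat_lit 384014))
(L (nat_lit 78409)))
(L (nat_lit 21709)))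
(S (nat_lit 5593) (L (nat_lit 220709))
(L (nat_lit 296342))))
(L (nat_lit 13682)))))
(S (nat_lit 2804) (S (nat_lit 258) (S (nat_lit 5426) (S (nat_lit 6541) (S (nat_lit 1478) (L (nat_lit 200146))
(L (nat_lit 633316)))
(L (nat_lit 15571)))
(L (nat_lit 512292)))
(S (nat_lit 2472) (S (nat_lit 1058) (S (nat_lit 1802) (S (nat_lit 2539) (L (nat_lit 234157))
(L (nat_lit 494278)))
(L (nat_lit 501345)))
(L (nat_lit 544099)))
(S (nat_lit 4686) (S (nat_lit 5981) (S (nat_lit 1478) (S (nat_lit 5264) (S (nat_lit 1058) (S (nat_lit 2399) (S (nat_lit 2857) (S (nat_lit 3169) (S (nat_lit 77) (S (nat_lit 4536) (S (nat_lit 5872) (S (nat_lit 232) (S (nat_lit 1584) (S (nat_lit 1746) (D (nat_lit 12) (nat_lit 113973) (nat_lit 737472) (nat_lit 0))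
(L (nat_lit 384481)))
(L (nat_lit 698850)))
(L (nat_lit 735240)))
(L (nat_lit 729197)))
(L (nat_lit 220269)))
(L (nat_lit 771365)))
(L (nat_lit 477227)))
(L (nat_lit 185583)))
(L (nat_lit 316561)))
(L (nat_lit 477379)))
(L (nat_lit 379297)))
(L (nat_lit 561771)))
(L (nat_lit 478219)))
(L (nat_lit 601600)))))
(S (nat_lit 5018) (S (nat_lit 998) (S (nat_lit 3767) (S (nat_lit 1802) (S (nat_lit 4687) (S (nat_lit 1058) (S (nat_lit 5078) (S (nat_lit 3050) (L (nat_lit 109042))
(L (nat_lit 764387)))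
(L (nat_lit 578728)))
(L (nat_lit 347311)))
(L (nat_lit 249007)))
(L (nat_lit 495207)))
(L (nat_lit 435937)))
(S (nat_lit 3212) (S (nat_lit 1802) (S (nat_lit 2915) (L (nat_lit 8692))
(L (nat_lit 218129)))
(L (nat_lit 558695)))
(S (nat_lit 5426) (S (nat_lit 1802) (L (nat_lit 492885))
(L (nat_lit 499267)))
(L (nat_lit 605412)))))
(L (nat_lit 598032)))))
(L (nat_lit 597444)))))

theorem ra35_3 : run 3 la35 [] ta35_3 ka35 (P4 3 1 108 468 708 0 1 0 0) [] = true := by
  decide +kernel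

noncomputable def ta29_0 : Tr :=
(S (nat_lit 1953) (S (nat_lit 1073) (S (nat_lit 1077) (S (nat_lit 396) (S (nat_lit 945) (S (nat_lit 2250) (S (nat_lit 333) (L (nat_lit 55535))
(L (nat_lit 277058)))
(L (nat_lit 632192)))
(L (nat_lit 331374)))
(S (nat_lit 1134) (S (nat_lit 2888) (S (nat_lit 2885) (S (nat_lit 2884) (S (nat_lit 1296) (S (nat_lit 1629) (S (nat_lit 5906) (L (nat_lit 524534))
(L (nat_lit 145650)))
(L (nat_lit 632355)))
(L (nat_lit 82537)))
(L (nat_lit 461383)))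
(L (nat_lit 461382)))
(L (nat_lit 461414)))
(L (nat_lit 527634))))
(L (nat_lit 144690)))
(L (nat_lit 144969)))
(S (nat_lit 4167) (S (nat_lit 1143) (S (nat_lit 1077) (S (nat_lit 3249) (S (nat_lit 1503) (S (nat_lit 3240) (S (nat_lit 2884) (L (nat_lit 110100))
(L (nat_lit 606433)))
(L (nat_lit 277122)))
(L (nat_lit 529619)))
(S (nat_lit 3519) (S (nat_lit 2547) (S (nat_lit 6183) (L (nat_lit 622864))
(L (nat_lit 548098)))
(L (nat_lit 482626)))
(L (nat_lit 346192))))
(S (nat_lit 3291) (S (nat_lit 1073) (S (nat_lit 2871) (S (nat_lit 1347) (L (nat_lit 197074))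
(L (nat_lit 329138)))
(L (nat_lit 343683)))
(L (nat_lit 276033)))
(S (nat_lit 5505) (S (nat_lit 3843) (L (nat_lit 177864))
(L (nat_lit 276099)))
(L (nat_lit 599458)))))
(S (nat_lit 3357) (S (nat_lit 353) (S (nat_lit 3843) (L (nat_lit 280256))
(L (nat_lit 276099)))
(S (nat_lit 5907) (S (nat_lit 4158) (S (nat_lit 3834) (S (nat_lit 2223) (S (nat_lit 2880) (L (nat_lit 76214))
(L (nat_lit 328332)))
(L (nat_lit 461511)))
(L (nat_lit 528071)))
(L (nat_lit 328399)))
(L (nat_lit 182545))))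
(S (nat_lit 5571) (S (nat_lit 1073) (S (nat_lit 1077) (S (nat_lit 4572) (S (nat_lit 2871) (S (nat_lit 4896) (S (nat_lit 1440) (L (nat_lit 634983))
(L (nat_lit 722441)))
(L (nat_lit 625035)))
(L (nat_lit 149899)))
(S (nat_lit 5085) (S (nat_lit 1134) (S (nat_lit 3573) (L (nat_lit 430356))
(L (nat_lit 466563)))
(L (nat_lit 626120)))
(L (nat_lit 284844))))
(L (nat_lit 278210)))
(L (nat_lit 277590)))
(L (nat_lit 596419)))))
(S (nat_lit 6381) (S (nat_lit 1077) (S (nat_lit 1073) (S (nat_lit 1296) (S (nat_lit 3696) (S (nat_lit 5427) (S (nat_lit 5101) (L (nat_lit 231958))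
(L (nat_lit 533057)))
(L (nat_lit 548098)))
(S (nat_lit 5124) (S (nat_lit 3249) (L (nat_lit 86353))
(L (nat_lit 548098)))
(L (nat_lit 535137))))
(S (nat_lit 3510) (S (nat_lit 3537) (L (nat_lit 152969))
(S (nat_lit 5220) (S (nat_lit 1128) (S (nat_lit 1131) (L (nat_lit 122190))
(L (nat_lit 514274)))
(L (nat_lit 514242)))
(L (nat_lit 632324))))
(S (nat_lit 5724) (S (nat_lit 3519) (S (nat_lit 3834) (S (nat_lit 333) (S (nat_lit 1143) (L (nat_lit 466002))
(L (nat_lit 348611)))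
(L (nat_lit 349260)))
(L (nat_lit 138959)))
(L (nat_lit 351682)))
(L (nat_lit 599554)))))
(L (nat_lit 341142)))
(L (nat_lit 341700)))
(L (nat_lit 597473)))))

theorem ra29_0 : run 3 la29 [] ta29_0 ka29 (P4 3 372 370 108 0 0 0 0 1) [] = true := by
  decide +kernel

noncomputable def tb264_3 : Tr :=
(L (nat_lit 25833731))

theorem rb264_3 : run 4 lb264 [] tb264_3 kb264 (P4 4 2472 2352 6241 2352 0 1 0 0) [] = true := by
  decide +kernel

noncomputable def tb75_2 : Tr :=
(L (nat_lit 25833666))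

theorem rb75_2 : run 4 lb75 [] tb75_2 kb75 (P4 4 2216 2760 1253 2760 0 0 1 2) [] = true := by
  decide +kernel

noncomputable def tb262_0 : Tr :=
(L (nat_lit 25768128))

theorem rb262_0 : run 4 lb262 [] tb262_0 kb262 (P4 4 3082 0 2942 0 0 0 0 1) [] = true := by
  decide +kernel

end Pool.Agent.MP_92191b_al.K3.E
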