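import Pool.Agent.MP_92191b_al.K3.CR10

/-! Refutation trees. -/

namespace Pool.Agent.MP_92191b_al.K3.E

open Tr

set_option maxRecDepth 100000

noncomputable def tb264_1 : Tr :=
(S (nat_lit 16303) (S (nat_lit 11954) (S (nat_lit 6866) (S (nat_lit 2192) (S (nat_lit 15840) (S (nat_lit 509) (S (nat_lit 972) (S (nat_lit 15331) (L (nat_lit 13282051))
(L (nat_lit 7098449)))
(S (nat_lit 40419) (S (nat_lit 15331) (L (nat_lit 6780642))
(L (nat_lit 6821715)))
(L (nat_lit 26817796))))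
(S (nat_lit 20273) (S (nat_lit 40500) (S (nat_lit 2496) (L (nat_lit 23599909))
(L (nat_lit 26945060)))
(L (nat_lit 16927658)))
(S (nat_lit 40037) (S (nat_lit 11241) (S (nat_lit 10761) (L (nat_lit 6883212))
(L (nat_lit 26659011)))
(L (nat_lit 26591382)))
(L (nat_lit 25788688)))))
(S (nat_lit 35604) (S (nat_lit 11743) (S (nat_lit 10704) (S (nat_lit 44216) (S (nat_lit 11241) (L (nat_lit 20885542))
(L (nat_lit 26326663)))
(L (nat_lit 23196043)))
(L (nat_lit 21798437)))
(L (nat_lit 26909837)))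
(S (nat_lit 55368) (S (nat_lit 15143) (S (nat_lit 10761) (S (nat_lit 6388) (S (nat_lit 24452) (S (nat_lit 52899) (S (nat_lit 259) (S (nat_lit 57310) (S (nat_lit 18011) (L (nat_lit 1294044))
(L (nat_lit 5791956)))
(L (nat_lit 12874368)))
(L (nat_lit 14281768)))
(L (nat_lit 21045069)))
(L (nat_lit 13754742)))
(L (nat_lit 26693889)))
(L (nat_lit 26904043)))
(S (nat_lit 34907) (S (nat_lit 22928) (S (nat_lit 54650) (S (nat_lit 23701) (L (nat_lit 7362478))
(L (nat_lit 21303212)))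
(L (nat_lit 9047985)))
(L (nat_lit 17902518)))
(S (nat_lit 54671) (S (nat_lit 43200) (S (nat_lit 23939) (S (nat_lit 6589) (S (nat_lit 42024) (S (nat_lit 22741) (S (nat_lit 18011) (S (nat_lit 58044) (L (nat_lit 4452822))
(L (nat_lit 12800187)))
(L (nat_lit 6348558)))
(L (nat_lit 2834749)))
(L (nat_lit 23565595)))
(L (nat_lit 23933992)))
(L (nat_lit 5165263)))
(S (nat_lit 55513) (L (nat_lit 7123554))
(L (nat_lit 6372275))))
(L (nat_lit 25764322)))))
(L (nat_lit 25212151)))))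
(S (nat_lit 21956) (S (nat_lit 5178) (S (nat_lit 4631) (S (nat_lit 8133) (L (nat_lit 2384589))
(S (nat_lit 50950) (S (nat_lit 33685) (L (nat_lit 8579638))
(L (nat_lit 2628248)))
(L (nat_lit 2347577))))
(S (nat_lit 24395) (S (nat_lit 51271) (S (nat_lit 28825) (L (nat_lit 5938745))
(L (nat_lit 8439480)))
(L (nat_lit 13275449)))
(S (nat_lit 44159) (S (nat_lit 10982) (S (nat_lit 3429) (L (nat_lit 13197633))
(L (nat_lit 26414672)))
(L (nat_lit 26301995)))
(L (nat_lit 25363116)))))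
(S (nat_lit 24942) (S (nat_lit 972) (S (nat_lit 4655) (S (nat_lit 2977) (S (nat_lit 56845) (L (nat_lit 933579))
(L (nat_lit 2961782)))
(L (nat_lit 9157539)))
(L (nat_lit 6472470)))
(S (nat_lit 20736) (S (nat_lit 51271) (S (nat_lit 24395) (S (nat_lit 21488) (L (nat_lit 28555938))
(L (nat_lit 21824998)))
(L (nat_lit 21112750)))
(L (nat_lit 22879373)))
(S (nat_lit 40500) (S (nat_lit 36290) (S (nat_lit 11743) (L (nat_lit 23303709))
(L (nat_lit 23993517)))
(L (nat_lit 4537019)))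
(L (nat_lit 25567810)))))
(S (nat_lit 44706) (S (nat_lit 8069) (S (nat_lit 43200) (S (nat_lit 39528) (S (nat_lit 18516) (L (nat_lit 18744691))
(L (nat_lit 26222193)))
(L (nat_lit 23960960)))
(L (nat_lit 23626109)))
(S (nat_lit 27833) (S (nat_lit 54665) (S (nat_lit 10728) (L (nat_lit 7464500))
(L (nat_lit 17538169)))
(L (nat_lit 2903592)))
(S (nat_lit 47597) (S (nat_lit 9067) (S (nat_lit 54665) (L (nat_lit 12407888))
(L (nat_lit 7163426)))
(L (nat_lit 23433041)))
(L (nat_lit 25773285)))))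
(L (nat_lit 25899360)))))
(S (nat_lit 41720) (S (nat_lit 5178) (S (nat_lit 38722) (S (nat_lit 43703) (S (nat_lit 43200) (S (nat_lit 48574) (S (nat_lit 7826) (L (nat_lit 28368241))
(L (nat_lit 21438272)))
(L (nat_lit 14325849)))
(L (nat_lit 23995905)))
(L (nat_lit 16424024)))
(S (nat_lit 43127) (L (nat_lit 21084536))
(L (nat_lit 11405005))))
(S (nat_lit 24942) (S (nat_lit 15137) (S (nat_lit 43465) (S (nat_lit 6589) (L (nat_lit 26221975))
(L (nat_lit 14491267)))
(L (nat_lit 23400332)))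
(S (nat_lit 34901) (S (nat_lit 28810) (S (nat_lit 6388) (S (nat_lit 40789) (S (nat_lit 15143) (S (nat_lit 35604) (S (nat_lit 47354) (L (nat_lit 14265469))
(L (nat_lit 17538946)))
(L (nat_lit 1339056)))
(L (nat_lit 12120770)))
(L (nat_lit 17603701)))
(L (nat_lit 20386698)))
(L (nat_lit 13409984)))
(S (nat_lit 54665) (S (nat_lit 33198) (S (nat_lit 52424) (L (nat_lit 13803131))
(L (nat_lit 9340371)))
(L (nat_lit 23454244)))
(L (nat_lit 25765905)))))
(S (nat_lit 44706) (S (nat_lit 43703) (S (nat_lit 39528) (S (nat_lit 6388) (S (nat_lit 18011) (L (nat_lit 1580918))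
(L (nat_lit 26648226)))
(L (nat_lit 5644213)))
(L (nat_lit 27696704)))
(S (nat_lit 56744) (S (nat_lit 35960) (L (nat_lit 4791833))
(L (nat_lit 14294788)))
(L (nat_lit 23310362))))
(L (nat_lit 25466387)))))
(L (nat_lit 25205421)))))
(S (nat_lit 26630) (S (nat_lit 6589) (S (nat_lit 15143) (S (nat_lit 10761) (S (nat_lit 40789) (L (nat_lit 630205))
(L (nat_lit 23562524)))
(L (nat_lit 26423318)))
(S (nat_lit 34907) (S (nat_lit 4631) (S (nat_lit 9061) (S (nat_lit 40322) (L (nat_lit 2483824))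
(L (nat_lit 5067025)))
(L (nat_lit 26322609)))
(S (nat_lit 24395) (S (nat_lit 18516) (L (nat_lit 11105666))
(L (nat_lit 26414705)))
(S (nat_lit 44159) (S (nat_lit 41720) (S (nat_lit 41550) (L (nat_lit 873899))
(L (nat_lit 23266125)))
(L (nat_lit 14523478)))
(L (nat_lit 25376417)))))
(S (nat_lit 54671) (S (nat_lit 7561) (S (nat_lit 53449) (S (nat_lit 42024) (S (nat_lit 10982) (L (nat_lit 14395168))
(L (nat_lit 867019)))
(L (nat_lit 23588870)))
(L (nat_lit 21764238)))
(S (nat_lit 27325) (S (nat_lit 40037) (S (nat_lit 11241) (S (nat_lit 12171) (L (nat_lit 26323661))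
(L (nat_lit 9072783)))
(L (nat_lit 21325967)))
(L (nat_lit 17000599)))
(S (nat_lit 47089) (S (nat_lit 8069) (S (nat_lit 48100) (L (nat_lit 26333521))
(L (nat_lit 22232217)))
(L (nat_lit 26820710)))
(L (nat_lit 25921931)))))
(L (nat_lit 25183570)))))
(S (nat_lit 26353) (S (nat_lit 16526) (S (nat_lit 4072) (L (nat_lit 23301905))
(S (nat_lit 45916) (S (nat_lit 16053) (S (nat_lit 53392) (L (nat_lit 14360353))
(L (nat_lit 17134274)))
(L (nat_lit 15478401)))
(L (nat_lit 8483221))))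
(S (nat_lit 36290) (S (nat_lit 8265) (S (nat_lit 10982) (S (nat_lit 2496) (S (nat_lit 24936) (L (nat_lit 10219697))
(L (nat_lit 6443887)))
(L (nat_lit 2863417)))
(L (nat_lit 21262884)))
(S (nat_lit 28029) (S (nat_lit 7826) (L (nat_lit 28432620))
(L (nat_lit 14414178)))
(S (nat_lit 47793) (S (nat_lit 46313) (L (nat_lit 9998195))
(S (nat_lit 52424) (S (nat_lit 33685) (L (nat_lit 19132461))
(L (nat_lit 20811307)))
(L (nat_lit 8501077))))
(L (nat_lit 25309526)))))
(S (nat_lit 56054) (S (nat_lit 18516) (S (nat_lit 26089) (S (nat_lit 55160) (L (nat_lit 26709706))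
(L (nat_lit 21335887)))
(L (nat_lit 17075960)))
(S (nat_lit 38280) (S (nat_lit 35817) (S (nat_lit 21488) (L (nat_lit 5709682))
(L (nat_lit 21827016)))
(L (nat_lit 23399932)))
(S (nat_lit 58044) (S (nat_lit 55160) (S (nat_lit 50256) (S (nat_lit 53416) (L (nat_lit 10104890))
(L (nat_lit 21335919)))
(L (nat_lit 20749829)))
(L (nat_lit 21096815)))
(L (nat_lit 25795761)))))
(L (nat_lit 25628327)))))
(S (nat_lit 46117) (S (nat_lit 10728) (S (nat_lit 12896) (S (nat_lit 23436) (S (nat_lit 49058) (S (nat_lit 42250) (S (nat_lit 38990) (L (nat_lit 11257733))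
(L (nat_lit 23423052)))
(L (nat_lit 23996556)))
(L (nat_lit 6168237)))
(L (nat_lit 10580592)))
(S (nat_lit 32660) (S (nat_lit 29294) (S (nat_lit 26152) (L (nat_lit 16785051))
(L (nat_lit 30691344)))
(L (nat_lit 2662259)))
(S (nat_lit 52424) (S (nat_lit 9530) (S (nat_lit 23436) (L (nat_lit 2995510))
(L (nat_lit 11202576)))
(L (nat_lit 16883603)))
(L (nat_lit 25462380)))))
(S (nat_lit 30492) (S (nat_lit 26152) (S (nat_lit 13371) (S (nat_lit 53392) (S (nat_lit 10982) (L (nat_lit 3907504))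
(L (nat_lit 7074860)))
(L (nat_lit 4898012)))
(S (nat_lit 33135) (S (nat_lit 35817) (S (nat_lit 22260) (S (nat_lit 47354) (L (nat_lit 29074851))
(L (nat_lit 10215568)))
(L (nat_lit 31179782)))
(L (nat_lit 2863418)))
(S (nat_lit 52899) (S (nat_lit 21786) (S (nat_lit 53392) (L (nat_lit 30117387))
(L (nat_lit 4911311)))
(L (nat_lit 4954924)))
(L (nat_lit 25861228)))))
(L (nat_lit 21438305)))
(S (nat_lit 50256) (S (nat_lit 23436) (S (nat_lit 2789) (L (nat_lit 4482549))
(S (nat_lit 53392) (S (nat_lit 15632) (S (nat_lit 44700) (L (nat_lit 12814228))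
(L (nat_lit 5068170)))
(S (nat_lit 26175) (L (nat_lit 5025331))
(L (nat_lit 3035563))))
(L (nat_lit 4482550))))
(S (nat_lit 51915) (L (nat_lit 3863049))
(L (nat_lit 2812425))))
(L (nat_lit 25937003)))))
(L (nat_lit 25244882)))))
(S (nat_lit 46394) (S (nat_lit 5172) (S (nat_lit 12896) (S (nat_lit 6370) (S (nat_lit 44183) (S (nat_lit 17544) (L (nat_lit 26558145))
(L (nat_lit 18731265)))
(L (nat_lit 12374092)))
(S (nat_lit 26134) (S (nat_lit 24942) (S (nat_lit 17317) (S (nat_lit 47354) (L (nat_lit 26978448))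
(L (nat_lit 17964851)))
(L (nat_lit 6200851)))
(L (nat_lit 16951218)))
(S (nat_lit 45898) (S (nat_lit 57821) (S (nat_lit 48595) (L (nat_lit 13782791))
(L (nat_lit 11341548)))
(L (nat_lit 21826764)))
(L (nat_lit 25862224)))))
(S (nat_lit 32660) (S (nat_lit 16526) (S (nat_lit 16053) (S (nat_lit 12171) (S (nat_lit 10704) (L (nat_lit 16518388))
(L (nat_lit 23534744)))
(L (nat_lit 10597113)))
(S (nat_lit 17646) (L (nat_lit 14964920))
(L (nat_lit 8851033))))
(S (nat_lit 24041) (S (nat_lit 53788) (L (nat_lit 9155608))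
(L (nat_lit 1946214)))
(L (nat_lit 26498221))))
(S (nat_lit 52424) (S (nat_lit 6589) (S (nat_lit 10728) (L (nat_lit 23927233))
(L (nat_lit 26358473)))
(S (nat_lit 26353) (S (nat_lit 31186) (S (nat_lit 54650) (L (nat_lit 4961192))
(L (nat_lit 21499814)))
(S (nat_lit 55475) (L (nat_lit 11157661))
(L (nat_lit 8902840))))
(S (nat_lit 46117) (S (nat_lit 11241) (L (nat_lit 27506243))
(L (nat_lit 2574584)))
(L (nat_lit 25287048)))))
(L (nat_lit 25274773)))))
(S (nat_lit 24936) (S (nat_lit 1504) (S (nat_lit 3672) (S (nat_lit 4688) (S (nat_lit 35396) (S (nat_lit 6370) (L (nat_lit 10309807))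
(L (nat_lit 18182165)))
(L (nat_lit 20821034)))
(L (nat_lit 26981418)))
(S (nat_lit 23436) (S (nat_lit 5178) (L (nat_lit 5709587))
(L (nat_lit 18575553)))
(S (nat_lit 43200) (S (nat_lit 36819) (L (nat_lit 28384755))
(L (nat_lit 23870601)))
(L (nat_lit 25560681)))))
(S (nat_lit 21268) (S (nat_lit 6370) (S (nat_lit 54665) (S (nat_lit 3672) (L (nat_lit 23926929))
(L (nat_lit 26790241)))
(L (nat_lit 21497670)))
(S (nat_lit 26134) (S (nat_lit 21786) (S (nat_lit 31507) (L (nat_lit 30582323))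
(L (nat_lit 14347490)))
(L (nat_lit 4954989)))
(S (nat_lit 45898) (S (nat_lit 18011) (S (nat_lit 21786) (L (nat_lit 23497947))
(L (nat_lit 4954989)))
(L (nat_lit 7147060)))
(L (nat_lit 25494256)))))
(S (nat_lit 41032) (S (nat_lit 11422) (S (nat_lit 26353) (S (nat_lit 35396) (S (nat_lit 13888) (L (nat_lit 28416720))
(L (nat_lit 26319251)))
(L (nat_lit 23399931)))
(L (nat_lit 18979224)))
(S (nat_lit 31186) (S (nat_lit 33652) (L (nat_lit 13832019))
(L (nat_lit 20123032)))
(S (nat_lit 50950) (S (nat_lit 45853) (L (nat_lit 8228464))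
(L (nat_lit 6485396)))
(L (nat_lit 25416161)))))
(L (nat_lit 25248362)))))
(S (nat_lit 44700) (S (nat_lit 15632) (S (nat_lit 3937) (S (nat_lit 53416) (L (nat_lit 7835261))
(L (nat_lit 21335919)))
(S (nat_lit 23701) (S (nat_lit 29312) (L (nat_lit 15338810))
(L (nat_lit 7179765)))
(S (nat_lit 43465) (S (nat_lit 54650) (L (nat_lit 26971594))
(L (nat_lit 27921776)))
(L (nat_lit 25174673)))))
(S (nat_lit 35396) (S (nat_lit 11422) (S (nat_lit 37894) (L (nat_lit 13180736))
(S (nat_lit 45853) (S (nat_lit 35817) (L (nat_lit 15568246))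
(L (nat_lit 13454625)))
(L (nat_lit 12963585))))
(S (nat_lit 31186) (L (nat_lit 13963090))
(S (nat_lit 50950) (S (nat_lit 53449) (L (nat_lit 21172016))
(L (nat_lit 19435334)))
(L (nat_lit 25827437)))))
(S (nat_lit 55160) (S (nat_lit 21488) (S (nat_lit 53392) (S (nat_lit 56054) (S (nat_lit 36819) (L (nat_lit 18059005))
(L (nat_lit 6202094)))
(L (nat_lit 7802616)))
(L (nat_lit 19762382)))
(L (nat_lit 21826897)))
(L (nat_lit 25834538)))))
(L (nat_lit 25416879)))))
(L (nat_lit 25540259)))))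
(S (nat_lit 31718) (S (nat_lit 13864) (S (nat_lit 17317) (S (nat_lit 4688) (S (nat_lit 17782) (S (nat_lit 4655) (S (nat_lit 10728) (S (nat_lit 794) (S (nat_lit 22486) (L (nat_lit 11189307))
(L (nat_lit 9498252)))
(L (nat_lit 12838934)))
(L (nat_lit 14739766)))
(L (nat_lit 4647158)))
(L (nat_lit 2376598)))
(S (nat_lit 24452) (S (nat_lit 31005) (L (nat_lit 29574294))
(L (nat_lit 17604694)))
(S (nat_lit 44216) (S (nat_lit 31005) (L (nat_lit 29541750))
(L (nat_lit 16819030)))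
(L (nat_lit 25567939)))))
(S (nat_lit 37081) (S (nat_lit 8265) (S (nat_lit 30525) (S (nat_lit 30492) (L (nat_lit 4595638))
(L (nat_lit 1302998)))
(L (nat_lit 1499414)))
(S (nat_lit 28029) (S (nat_lit 3937) (S (nat_lit 35817) (L (nat_lit 11243035))
(L (nat_lit 12226414)))
(S (nat_lit 23701) (S (nat_lit 33685) (L (nat_lit 8884054))
(L (nat_lit 23891494)))
(S (nat_lit 43465) (S (nat_lit 37775) (S (nat_lit 38057) (L (nat_lit 17010516))
(L (nat_lit 11721644)))
(L (nat_lit 23858380)))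
(L (nat_lit 25857260)))))
(S (nat_lit 47793) (S (nat_lit 13371) (S (nat_lit 2977) (L (nat_lit 1498459))
(L (nat_lit 1794348)))
(S (nat_lit 33135) (S (nat_lit 49013) (S (nat_lit 37775) (L (nat_lit 31173804))
(L (nat_lit 20712652)))
(L (nat_lit 13923475)))
(S (nat_lit 52899) (S (nat_lit 794) (S (nat_lit 10798) (L (nat_lit 23335693))
(L (nat_lit 10665595)))
(S (nat_lit 34012) (L (nat_lit 18647254))
(L (nat_lit 26447254))))
(L (nat_lit 25409156)))))
(L (nat_lit 25563883)))))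
(S (nat_lit 56845) (S (nat_lit 6388) (S (nat_lit 3672) (S (nat_lit 6866) (S (nat_lit 972) (L (nat_lit 6867873))
(L (nat_lit 13213849)))
(S (nat_lit 25686) (L (nat_lit 13507667))
(L (nat_lit 23633793))))
(S (nat_lit 23436) (S (nat_lit 29249) (S (nat_lit 57072) (L (nat_lit 5526351))
(L (nat_lit 11135393)))
(L (nat_lit 30687411)))
(S (nat_lit 43200) (S (nat_lit 56297) (L (nat_lit 15916251))
(L (nat_lit 14413156)))
(L (nat_lit 25821550)))))
(S (nat_lit 26152) (S (nat_lit 13371) (S (nat_lit 56054) (S (nat_lit 54859) (L (nat_lit 6007629))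
(L (nat_lit 11252857)))
(L (nat_lit 8108896)))
(S (nat_lit 33135) (S (nat_lit 49058) (L (nat_lit 11255620))
(L (nat_lit 13752071)))
(S (nat_lit 52899) (S (nat_lit 19764) (S (nat_lit 27325) (L (nat_lit 30126273))
(L (nat_lit 767878)))
(L (nat_lit 21169996)))
(L (nat_lit 25375300)))))
(S (nat_lit 45916) (S (nat_lit 9530) (S (nat_lit 22260) (S (nat_lit 37546) (L (nat_lit 29853043))
(L (nat_lit 17586280)))
(L (nat_lit 783910)))
(S (nat_lit 29294) (S (nat_lit 13371) (L (nat_lit 29572706))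
(L (nat_lit 26432620)))
(S (nat_lit 49058) (S (nat_lit 36819) (L (nat_lit 11308656))
(L (nat_lit 23870756)))
(L (nat_lit 25730229)))))
(L (nat_lit 25631765)))))
(L (nat_lit 25662186)))))
(S (nat_lit 33628) (S (nat_lit 5157) (S (nat_lit 6866) (S (nat_lit 1504) (S (nat_lit 32660) (S (nat_lit 6589) (S (nat_lit 10704) (L (nat_lit 968908))
(L (nat_lit 23600963)))
(L (nat_lit 26693859)))
(L (nat_lit 14553704)))
(S (nat_lit 50195) (S (nat_lit 33685) (L (nat_lit 6476716))
(L (nat_lit 16387942)))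
(L (nat_lit 26919266))))
(S (nat_lit 26630) (S (nat_lit 6439) (L (nat_lit 1364844))
(S (nat_lit 56583) (S (nat_lit 16526) (S (nat_lit 57310) (S (nat_lit 55581) (L (nat_lit 28334470))
(L (nat_lit 16420157)))
(L (nat_lit 4077128)))
(S (nat_lit 57428) (L (nat_lit 381870))
(L (nat_lit 24469952))))
(L (nat_lit 1397616))))
(S (nat_lit 46394) (S (nat_lit 972) (S (nat_lit 49013) (S (nat_lit 38057) (L (nat_lit 7802493))
(L (nat_lit 20745580)))
(L (nat_lit 13673235)))
(S (nat_lit 20736) (S (nat_lit 17544) (S (nat_lit 54671) (L (nat_lit 484966))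
(L (nat_lit 17631848)))
(L (nat_lit 1341041)))
(S (nat_lit 40500) (S (nat_lit 24419) (L (nat_lit 550502))
(L (nat_lit 17069665)))
(L (nat_lit 25316620)))))
(L (nat_lit 25506933)))))
(S (nat_lit 24921) (S (nat_lit 2722) (S (nat_lit 5944) (L (nat_lit 13652874))
(S (nat_lit 56583) (S (nat_lit 44183) (S (nat_lit 47089) (L (nat_lit 28902764))
(L (nat_lit 20755526)))
(L (nat_lit 12366934)))
(L (nat_lit 13862773))))
(S (nat_lit 43999) (L (nat_lit 6883247))
(L (nat_lit 6436693))))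
(S (nat_lit 44685) (S (nat_lit 10761) (S (nat_lit 49058) (L (nat_lit 12224061))
(L (nat_lit 15931000)))
(S (nat_lit 30525) (L (nat_lit 357814))
(S (nat_lit 50289) (S (nat_lit 44183) (L (nat_lit 12740198))
(L (nat_lit 12366934)))
(L (nat_lit 25864208)))))
(L (nat_lit 25410611)))))
(S (nat_lit 53392) (S (nat_lit 9485) (S (nat_lit 4631) (S (nat_lit 13888) (S (nat_lit 21488) (S (nat_lit 29312) (S (nat_lit 20558) (S (nat_lit 30746) (L (nat_lit 26660037))
(L (nat_lit 17585349)))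
(L (nat_lit 15568489)))
(L (nat_lit 13208889)))
(L (nat_lit 30838006)))
(S (nat_lit 33652) (S (nat_lit 21488) (S (nat_lit 20558) (S (nat_lit 10728) (S (nat_lit 17317) (S (nat_lit 41720) (S (nat_lit 30746) (S (nat_lit 50289) (S (nat_lit 36290) (L (nat_lit 6341276))
(L (nat_lit 1751321)))
(L (nat_lit 15819990)))
(L (nat_lit 9983813)))
(L (nat_lit 4438935)))
(L (nat_lit 24210890)))
(L (nat_lit 3763566)))
(L (nat_lit 15962006)))
(L (nat_lit 8261110)))
(S (nat_lit 53416) (S (nat_lit 21488) (S (nat_lit 20558) (S (nat_lit 53449) (S (nat_lit 36290) (S (nat_lit 45853) (S (nat_lit 35396) (L (nat_lit 12029530))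
(L (nat_lit 20753519)))
(L (nat_lit 2696601)))
(L (nat_lit 18157394)))
(L (nat_lit 8130102)))
(L (nat_lit 21499161)))
(L (nat_lit 30805334)))
(L (nat_lit 25627987)))))
(S (nat_lit 24395) (S (nat_lit 2496) (S (nat_lit 48100) (S (nat_lit 3672) (S (nat_lit 0) (S (nat_lit 23939) (L (nat_lit 5873519))
(L (nat_lit 21011897)))
(L (nat_lit 648428)))
(L (nat_lit 17433977)))
(L (nat_lit 17401735)))
(S (nat_lit 22260) (S (nat_lit 20558) (S (nat_lit 21488) (S (nat_lit 3429) (S (nat_lit 23939) (L (nat_lit 30115120))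
(L (nat_lit 30753814)))
(L (nat_lit 9287858)))
(L (nat_lit 8261110)))
(L (nat_lit 15437705)))
(S (nat_lit 42024) (S (nat_lit 24936) (S (nat_lit 56845) (S (nat_lit 8069) (S (nat_lit 31186) (L (nat_lit 28976613))
(L (nat_lit 8508237)))
(L (nat_lit 12424691)))
(L (nat_lit 21193900)))
(L (nat_lit 30871242)))
(L (nat_lit 25506434)))))
(S (nat_lit 44159) (S (nat_lit 7561) (S (nat_lit 13371) (S (nat_lit 10982) (S (nat_lit 40500) (S (nat_lit 18011) (L (nat_lit 1270325))
(L (nat_lit 6346540)))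
(L (nat_lit 23360588)))
(L (nat_lit 6412076)))
(S (nat_lit 48700) (L (nat_lit 7857857))
(L (nat_lit 4413356))))
(S (nat_lit 27325) (S (nat_lit 9173) (L (nat_lit 14458565))
(S (nat_lit 24936) (S (nat_lit 22741) (S (nat_lit 56583) (S (nat_lit 12414) (S (nat_lit 39264) (L (nat_lit 290323))
(L (nat_lit 23964689)))
(L (nat_lit 1569353)))
(L (nat_lit 14358685)))
(L (nat_lit 30843587)))
(L (nat_lit 11996892))))
(S (nat_lit 47089) (S (nat_lit 1682) (L (nat_lit 24031371))
(S (nat_lit 2977) (S (nat_lit 19226) (S (nat_lit 13434) (S (nat_lit 28029) (S (nat_lit 44183) (S (nat_lit 21488) (L (nat_lit 28710231))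
(L (nat_lit 10642902)))
(L (nat_lit 23389324)))
(L (nat_lit 447403)))
(L (nat_lit 26322508)))
(L (nat_lit 26946700)))
(L (nat_lit 17523846))))
(L (nat_lit 25338511)))))
(L (nat_lit 25764014)))))
(S (nat_lit 29249) (S (nat_lit 2192) (S (nat_lit 4110) (L (nat_lit 11417718))
(S (nat_lit 11241) (S (nat_lit 23939) (S (nat_lit 10704) (S (nat_lit 21488) (S (nat_lit 22928) (S (nat_lit 51271) (S (nat_lit 54859) (S (nat_lit 57310) (S (nat_lit 52165) (L (nat_lit 11933341))
(L (nat_lit 7040549)))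
(L (nat_lit 11010838)))
(L (nat_lit 5728534)))
(L (nat_lit 13374054)))
(L (nat_lit 5728470)))
(L (nat_lit 7791638)))
(L (nat_lit 26936713)))
(L (nat_lit 17964918)))
(L (nat_lit 6408697))))
(S (nat_lit 21956) (S (nat_lit 18293) (S (nat_lit 24119) (L (nat_lit 13977787))
(S (nat_lit 33135) (S (nat_lit 47597) (S (nat_lit 17782) (S (nat_lit 48704) (L (nat_lit 26464302))
(L (nat_lit 24340621)))
(L (nat_lit 6842422)))
(L (nat_lit 17132261)))
(L (nat_lit 780652))))
(S (nat_lit 38057) (S (nat_lit 43465) (S (nat_lit 28831) (S (nat_lit 13416) (S (nat_lit 38280) (S (nat_lit 39264) (S (nat_lit 30746) (L (nat_lit 14523574))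
(L (nat_lit 30495948)))
(L (nat_lit 23334300)))
(L (nat_lit 23858543)))
(L (nat_lit 26938700)))
(L (nat_lit 10260204)))
(L (nat_lit 23891180)))
(S (nat_lit 57821) (S (nat_lit 20736) (S (nat_lit 51271) (S (nat_lit 23701) (L (nat_lit 30579158))
(L (nat_lit 30586196)))
(L (nat_lit 20780269)))
(S (nat_lit 38078) (L (nat_lit 4474556))
(L (nat_lit 21262476))))
(L (nat_lit 25414766)))))
(S (nat_lit 41720) (S (nat_lit 8069) (S (nat_lit 897) (L (nat_lit 7458701))
(S (nat_lit 42505) (S (nat_lit 38722) (S (nat_lit 43465) (S (nat_lit 42024) (S (nat_lit 51942) (S (nat_lit 6866) (S (nat_lit 24936) (S (nat_lit 39264) (S (nat_lit 38990) (L (nat_lit 564923))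
(L (nat_lit 23095782)))
(L (nat_lit 14227307)))
(L (nat_lit 17560864)))
(L (nat_lit 21358115)))
(L (nat_lit 27996267)))
(L (nat_lit 28034054)))
(L (nat_lit 27952679)))
(L (nat_lit 11239864)))
(L (nat_lit 23865484))))
(S (nat_lit 27833) (S (nat_lit 26630) (S (nat_lit 20736) (S (nat_lit 24936) (S (nat_lit 1261) (L (nat_lit 17684519))
(L (nat_lit 6135406)))
(L (nat_lit 30589171)))
(L (nat_lit 30845011)))
(L (nat_lit 24157041)))
(S (nat_lit 47597) (S (nat_lit 26286) (L (nat_lit 13410979))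
(S (nat_lit 30468) (S (nat_lit 57821) (S (nat_lit 17544) (S (nat_lit 52165) (L (nat_lit 28543664))
(L (nat_lit 9046521)))
(L (nat_lit 6378008)))
(L (nat_lit 4798345)))
(L (nat_lit 7468598))))
(L (nat_lit 25676872)))))
(L (nat_lit 25395607)))))
(S (nat_lit 49013) (S (nat_lit 13888) (S (nat_lit 21488) (S (nat_lit 29312) (S (nat_lit 36290) (S (nat_lit 45853) (L (nat_lit 29753622))
(L (nat_lit 13208857)))
(L (nat_lit 20385049)))
(L (nat_lit 13208889)))
(L (nat_lit 30838006)))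
(S (nat_lit 33652) (S (nat_lit 21488) (S (nat_lit 20558) (S (nat_lit 13921) (S (nat_lit 56583) (S (nat_lit 3164) (S (nat_lit 59028) (S (nat_lit 39787) (L (nat_lit 17997563))
(L (nat_lit 17028153)))
(L (nat_lit 19336477)))
(L (nat_lit 4995751)))
(L (nat_lit 14557269)))
(L (nat_lit 14552310)))
(L (nat_lit 15962006)))
(L (nat_lit 8261110)))
(S (nat_lit 53416) (S (nat_lit 21488) (S (nat_lit 20558) (S (nat_lit 53449) (S (nat_lit 55581) (S (nat_lit 18516) (S (nat_lit 9548) (L (nat_lit 9080750))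
(L (nat_lit 21925289)))
(L (nat_lit 26840488)))
(L (nat_lit 21925288)))
(L (nat_lit 8130102)))
(L (nat_lit 21499161)))
(L (nat_lit 30805334)))
(L (nat_lit 25663510)))))
(L (nat_lit 25645284)))))
(L (nat_lit 25603190)))))
(S (nat_lit 51482) (S (nat_lit 15143) (S (nat_lit 3164) (S (nat_lit 4631) (S (nat_lit 5157) (S (nat_lit 5178) (S (nat_lit 5172) (S (nat_lit 6388) (L (nat_lit 2313069))
(L (nat_lit 26694849)))
(L (nat_lit 18582840)))
(L (nat_lit 9319073)))
(S (nat_lit 24921) (S (nat_lit 509) (S (nat_lit 33685) (L (nat_lit 6073964))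
(L (nat_lit 6885230)))
(L (nat_lit 26461856)))
(S (nat_lit 44685) (S (nat_lit 26134) (S (nat_lit 15331) (S (nat_lit 8265) (L (nat_lit 1303151))
(L (nat_lit 13411350)))
(L (nat_lit 1526633)))
(L (nat_lit 4897639)))
(L (nat_lit 25411168)))))
(S (nat_lit 24395) (S (nat_lit 16053) (S (nat_lit 48885) (L (nat_lit 8510384))
(S (nat_lit 50256) (S (nat_lit 50289) (L (nat_lit 3566283))
(L (nat_lit 8480366)))
(L (nat_lit 9220278))))
(S (nat_lit 35817) (S (nat_lit 54859) (S (nat_lit 9046) (L (nat_lit 17472417))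
(L (nat_lit 23453841)))
(L (nat_lit 12018371)))
(S (nat_lit 55581) (S (nat_lit 28831) (S (nat_lit 972) (L (nat_lit 12848055))
(L (nat_lit 26806696)))
(L (nat_lit 12914615)))
(L (nat_lit 25185582)))))
(S (nat_lit 44159) (S (nat_lit 34203) (L (nat_lit 22555801))
(S (nat_lit 53392) (S (nat_lit 12414) (S (nat_lit 509) (S (nat_lit 5172) (S (nat_lit 55368) (S (nat_lit 3937) (S (nat_lit 1261) (S (nat_lit 35095) (L (nat_lit 3454649))
(L (nat_lit 20147276)))
(L (nat_lit 26413647)))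
(L (nat_lit 18881388)))
(L (nat_lit 12369571)))
(L (nat_lit 16489377)))
(L (nat_lit 12808246)))
(L (nat_lit 23083883)))
(L (nat_lit 17107580))))
(L (nat_lit 25667233)))))
(S (nat_lit 22928) (S (nat_lit 15331) (S (nat_lit 13371) (S (nat_lit 23701) (S (nat_lit 52310) (L (nat_lit 29446444))
(L (nat_lit 23270316)))
(L (nat_lit 22265760)))
(S (nat_lit 33135) (S (nat_lit 53392) (S (nat_lit 42957) (L (nat_lit 6023721))
(L (nat_lit 23991630)))
(L (nat_lit 27278550)))
(S (nat_lit 52899) (S (nat_lit 21786) (S (nat_lit 20558) (S (nat_lit 50232) (L (nat_lit 12768041))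
(L (nat_lit 728635)))
(L (nat_lit 7190582)))
(S (nat_lit 39924) (L (nat_lit 11408014))
(L (nat_lit 7429996))))
(L (nat_lit 25303607)))))
(S (nat_lit 35095) (S (nat_lit 8572) (S (nat_lit 2022) (S (nat_lit 32660) (L (nat_lit 26969356))
(L (nat_lit 5130444)))
(L (nat_lit 12088037)))
(S (nat_lit 28336) (S (nat_lit 49058) (S (nat_lit 58754) (L (nat_lit 19439672))
(L (nat_lit 1989932)))
(L (nat_lit 20144271)))
(S (nat_lit 48100) (S (nat_lit 53392) (S (nat_lit 40037) (S (nat_lit 6589) (L (nat_lit 7977112))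
(L (nat_lit 13469385)))
(L (nat_lit 24330392)))
(L (nat_lit 27659478)))
(L (nat_lit 25855215)))))
(S (nat_lit 54859) (S (nat_lit 6866) (S (nat_lit 22741) (S (nat_lit 9530) (L (nat_lit 3906413))
(L (nat_lit 26424933)))
(L (nat_lit 21792044)))
(S (nat_lit 26630) (S (nat_lit 33628) (S (nat_lit 17055) (L (nat_lit 357814))
(L (nat_lit 14862712)))
(S (nat_lit 40586) (L (nat_lit 5753641))
(L (nat_lit 30739958))))
(S (nat_lit 46394) (S (nat_lit 24419) (S (nat_lit 42957) (S (nat_lit 2722) (L (nat_lit 26907852))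
(L (nat_lit 20214305)))
(L (nat_lit 14559845)))
(L (nat_lit 5792362)))
(L (nat_lit 25696309)))))
(L (nat_lit 25865292)))))
(S (nat_lit 42692) (S (nat_lit 2977) (S (nat_lit 9530) (S (nat_lit 5172) (S (nat_lit 47089) (S (nat_lit 11241) (L (nat_lit 18588856))
(L (nat_lit 23455889)))
(L (nat_lit 4076171)))
(L (nat_lit 11267215)))
(S (nat_lit 29294) (S (nat_lit 24936) (L (nat_lit 12333203))
(L (nat_lit 14472328)))
(S (nat_lit 49058) (S (nat_lit 3672) (S (nat_lit 24419) (S (nat_lit 9046) (L (nat_lit 932055))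
(L (nat_lit 7262348)))
(L (nat_lit 21291148)))
(L (nat_lit 10013752)))
(L (nat_lit 25760167)))))
(S (nat_lit 22741) (S (nat_lit 3672) (S (nat_lit 41720) (S (nat_lit 17544) (S (nat_lit 26134) (S (nat_lit 15840) (S (nat_lit 50769) (S (nat_lit 44183) (L (nat_lit 14766887))
(L (nat_lit 12079969)))
(L (nat_lit 3941009)))
(L (nat_lit 7490072)))
(L (nat_lit 22263832)))
(L (nat_lit 7197185)))
(L (nat_lit 6142262)))
(S (nat_lit 50891) (L (nat_lit 12678887))
(L (nat_lit 9555480))))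
(S (nat_lit 42505) (S (nat_lit 9067) (S (nat_lit 10909) (L (nat_lit 25037100))
(S (nat_lit 55581) (S (nat_lit 35163) (L (nat_lit 17003540))
(L (nat_lit 26758369)))
(L (nat_lit 14323003))))
(S (nat_lit 28831) (S (nat_lit 19764) (S (nat_lit 15137) (L (nat_lit 24295334))
(L (nat_lit 22310432)))
(L (nat_lit 3361612)))
(S (nat_lit 48595) (S (nat_lit 57539) (S (nat_lit 8265) (S (nat_lit 57821) (L (nat_lit 29378153))
(L (nat_lit 19664076)))
(L (nat_lit 9868024)))
(L (nat_lit 19696844)))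
(L (nat_lit 25284137)))))
(L (nat_lit 25611430)))))
(L (nat_lit 25242007)))))
(S (nat_lit 34907) (S (nat_lit 794) (S (nat_lit 11743) (S (nat_lit 57072) (S (nat_lit 51626) (L (nat_lit 26693738))
(L (nat_lit 1583832)))
(S (nat_lit 57639) (S (nat_lit 39299) (L (nat_lit 14294946))
(L (nat_lit 26779232)))
(L (nat_lit 11409105))))
(S (nat_lit 31507) (S (nat_lit 9046) (S (nat_lit 12171) (L (nat_lit 12866713))
(L (nat_lit 23567512)))
(S (nat_lit 28810) (S (nat_lit 55581) (L (nat_lit 30781587))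
(L (nat_lit 16428189)))
(S (nat_lit 48574) (S (nat_lit 5172) (S (nat_lit 16053) (S (nat_lit 24419) (L (nat_lit 8029753))
(L (nat_lit 13816057)))
(L (nat_lit 24391832)))
(L (nat_lit 18076824)))
(L (nat_lit 25543365)))))
(S (nat_lit 51271) (S (nat_lit 34886) (S (nat_lit 34901) (S (nat_lit 40789) (L (nat_lit 29498992))
(L (nat_lit 23268206)))
(L (nat_lit 5033510)))
(S (nat_lit 38909) (S (nat_lit 19226) (L (nat_lit 5133704))
(L (nat_lit 9623308)))
(L (nat_lit 4740473))))
(L (nat_lit 25465298)))))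
(S (nat_lit 20558) (S (nat_lit 10728) (S (nat_lit 53392) (S (nat_lit 24452) (S (nat_lit 21488) (S (nat_lit 26630) (S (nat_lit 46117) (L (nat_lit 8973366))
(L (nat_lit 18667561)))
(L (nat_lit 24943665)))
(L (nat_lit 30772694)))
(L (nat_lit 17604726)))
(L (nat_lit 17065078)))
(S (nat_lit 30492) (S (nat_lit 4688) (S (nat_lit 21488) (S (nat_lit 53392) (S (nat_lit 46117) (S (nat_lit 6388) (L (nat_lit 26286799))
(L (nat_lit 20388890)))
(L (nat_lit 20754473)))
(L (nat_lit 17668182)))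
(L (nat_lit 10904598)))
(L (nat_lit 16095126)))
(S (nat_lit 50256) (S (nat_lit 8069) (S (nat_lit 16053) (S (nat_lit 50510) (L (nat_lit 11256923))
(L (nat_lit 28022251)))
(S (nat_lit 36220) (L (nat_lit 26531333))
(L (nat_lit 9160609))))
(S (nat_lit 27833) (S (nat_lit 57072) (S (nat_lit 44216) (S (nat_lit 53392) (S (nat_lit 21488) (S (nat_lit 6325) (S (nat_lit 15632) (S (nat_lit 23436) (S (nat_lit 45898) (S (nat_lit 22260) (S (nat_lit 5530) (L (nat_lit 2306717))
(L (nat_lit 29634580)))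
(L (nat_lit 8902562)))
(L (nat_lit 9318420)))
(L (nat_lit 7434770)))
(L (nat_lit 15042484)))
(L (nat_lit 9553627)))
(L (nat_lit 30838006)))
(L (nat_lit 27528910)))
(L (nat_lit 11581270)))
(L (nat_lit 15517985)))
(S (nat_lit 47597) (S (nat_lit 29294) (S (nat_lit 57072) (L (nat_lit 3753209))
(L (nat_lit 13406822)))
(S (nat_lit 52977) (L (nat_lit 6009210))
(L (nat_lit 13344549))))
(L (nat_lit 25271024)))))
(L (nat_lit 25582947)))))
(S (nat_lit 40322) (S (nat_lit 6325) (S (nat_lit 13434) (S (nat_lit 15632) (S (nat_lit 9530) (L (nat_lit 7453462))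
(L (nat_lit 26332397)))
(L (nat_lit 24226701)))
(S (nat_lit 33198) (S (nat_lit 15632) (S (nat_lit 56054) (L (nat_lit 7945092))
(L (nat_lit 9918304)))
(L (nat_lit 15271851)))
(S (nat_lit 52962) (S (nat_lit 39364) (L (nat_lit 13723206))
(L (nat_lit 15519751)))
(L (nat_lit 25695814)))))
(S (nat_lit 26089) (S (nat_lit 12171) (S (nat_lit 11241) (S (nat_lit 17055) (S (nat_lit 16053) (L (nat_lit 12357046))
(L (nat_lit 15437048)))
(L (nat_lit 10171544)))
(L (nat_lit 21435640)))
(S (nat_lit 31935) (S (nat_lit 58754) (S (nat_lit 47991) (L (nat_lit 4571060))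
(L (nat_lit 8273044)))
(L (nat_lit 1877556)))
(S (nat_lit 51699) (S (nat_lit 53416) (L (nat_lit 8162870))
(L (nat_lit 27376982)))
(L (nat_lit 25273876)))))
(S (nat_lit 45853) (S (nat_lit 18516) (S (nat_lit 49076) (L (nat_lit 13741784))
(L (nat_lit 27561581)))
(L (nat_lit 18451672)))
(L (nat_lit 25773127)))))
(L (nat_lit 25317801)))))
(S (nat_lit 54671) (S (nat_lit 18958) (S (nat_lit 4655) (S (nat_lit 42250) (S (nat_lit 10293) (L (nat_lit 21769261))
(S (nat_lit 42505) (S (nat_lit 51271) (S (nat_lit 24921) (S (nat_lit 52165) (S (nat_lit 38990) (S (nat_lit 7561) (L (nat_lit 28905992))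
(L (nat_lit 23442586)))
(L (nat_lit 24034440)))
(L (nat_lit 6962329)))
(L (nat_lit 17557514)))
(L (nat_lit 27663511)))
(L (nat_lit 8140948))))
(L (nat_lit 322188)))
(S (nat_lit 24419) (S (nat_lit 9485) (S (nat_lit 28810) (S (nat_lit 0) (S (nat_lit 57821) (L (nat_lit 704262))
(L (nat_lit 7533164)))
(L (nat_lit 13657702)))
(L (nat_lit 13299849)))
(S (nat_lit 31065) (L (nat_lit 1323862))
(L (nat_lit 11289188))))
(S (nat_lit 44183) (S (nat_lit 3429) (S (nat_lit 53392) (S (nat_lit 44216) (L (nat_lit 10216620))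
(L (nat_lit 4007630)))
(L (nat_lit 27278950)))
(S (nat_lit 23193) (S (nat_lit 46394) (S (nat_lit 972) (S (nat_lit 49058) (L (nat_lit 13504853))
(L (nat_lit 27377255)))
(L (nat_lit 13198472)))
(L (nat_lit 3939952)))
(S (nat_lit 42957) (S (nat_lit 794) (S (nat_lit 37308) (L (nat_lit 3458995))
(L (nat_lit 13952609)))
(L (nat_lit 1358461)))
(L (nat_lit 25578755)))))
(L (nat_lit 25477207)))))
(S (nat_lit 38722) (S (nat_lit 16053) (S (nat_lit 17055) (S (nat_lit 5172) (S (nat_lit 28810) (S (nat_lit 50510) (S (nat_lit 15840) (S (nat_lit 8265) (S (nat_lit 51699) (S (nat_lit 20273) (S (nat_lit 54650) (S (nat_lit 16526) (L (nat_lit 3712765))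
(L (nat_lit 22351629)))
(L (nat_lit 6381424)))
(L (nat_lit 14790582)))
(L (nat_lit 27376200)))
(L (nat_lit 23859689)))
(L (nat_lit 22905350)))
(L (nat_lit 13512389)))
(L (nat_lit 8909509)))
(S (nat_lit 39985) (L (nat_lit 11407890))
(L (nat_lit 8850137))))
(L (nat_lit 17670295)))
(S (nat_lit 35817) (S (nat_lit 22036) (S (nat_lit 6468) (L (nat_lit 15444058))
(L (nat_lit 22218673)))
(S (nat_lit 41720) (S (nat_lit 10761) (S (nat_lit 54665) (S (nat_lit 10728) (L (nat_lit 12722102))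
(L (nat_lit 11594262)))
(L (nat_lit 27854376)))
(S (nat_lit 22132) (L (nat_lit 13209514))
(L (nat_lit 14878328))))
(L (nat_lit 16324696))))
(S (nat_lit 55581) (S (nat_lit 28810) (L (nat_lit 19390602))
(L (nat_lit 13299849)))
(L (nat_lit 25183543)))))
(S (nat_lit 58486) (S (nat_lit 2022) (S (nat_lit 28810) (S (nat_lit 51271) (S (nat_lit 50256) (S (nat_lit 52165) (S (nat_lit 17055) (L (nat_lit 22299803))
(L (nat_lit 14850808)))
(L (nat_lit 6876869)))
(L (nat_lit 27830981)))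
(L (nat_lit 13297891)))
(S (nat_lit 56229) (S (nat_lit 41363) (L (nat_lit 13727062))
(L (nat_lit 11683544)))
(L (nat_lit 13299849))))
(S (nat_lit 21786) (S (nat_lit 17782) (S (nat_lit 6370) (S (nat_lit 53416) (L (nat_lit 29726317))
(L (nat_lit 21900707)))
(L (nat_lit 26542797)))
(S (nat_lit 37546) (S (nat_lit 5172) (L (nat_lit 7367373))
(L (nat_lit 1514200)))
(S (nat_lit 57310) (S (nat_lit 5172) (S (nat_lit 49058) (L (nat_lit 865491))
(L (nat_lit 22844653)))
(L (nat_lit 16485688)))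
(L (nat_lit 25444406)))))
(S (nat_lit 41550) (S (nat_lit 35158) (L (nat_lit 1816329))
(S (nat_lit 54859) (S (nat_lit 16126) (L (nat_lit 2868571))
(S (nat_lit 30746) (S (nat_lit 33135) (S (nat_lit 5172) (S (nat_lit 53392) (L (nat_lit 10667859))
(L (nat_lit 27540598)))
(L (nat_lit 9156481)))
(L (nat_lit 9171458)))
(L (nat_lit 2876652))))
(L (nat_lit 15952578))))
(L (nat_lit 25183977)))))
(L (nat_lit 25869538)))))
(L (nat_lit 25184592)))))
(L (nat_lit 25527950)))))
(S (nat_lit 36067) (S (nat_lit 17317) (S (nat_lit 4175) (S (nat_lit 4631) (S (nat_lit 2977) (S (nat_lit 15331) (S (nat_lit 10384) (L (nat_lit 12369571))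
(S (nat_lit 47793) (S (nat_lit 51942) (S (nat_lit 44216) (L (nat_lit 2576696))
(L (nat_lit 3567958)))
(L (nat_lit 27304470)))
(L (nat_lit 9071788))))
(S (nat_lit 35095) (S (nat_lit 20273) (L (nat_lit 30486838))
(L (nat_lit 9561558)))
(S (nat_lit 54859) (S (nat_lit 10704) (S (nat_lit 794) (S (nat_lit 18958) (S (nat_lit 45916) (S (nat_lit 15143) (S (nat_lit 1197) (L (nat_lit 4408060))
(L (nat_lit 30658700)))
(L (nat_lit 14569606)))
(L (nat_lit 779469)))
(L (nat_lit 18656374)))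
(L (nat_lit 1294102)))
(L (nat_lit 12355126)))
(L (nat_lit 25366931)))))
(S (nat_lit 22741) (S (nat_lit 17782) (S (nat_lit 48595) (S (nat_lit 794) (S (nat_lit 28029) (S (nat_lit 3164) (S (nat_lit 35227) (L (nat_lit 18918840))
(L (nat_lit 11724243)))
(L (nat_lit 14966806)))
(L (nat_lit 15541430)))
(L (nat_lit 12741910)))
(L (nat_lit 22407180)))
(S (nat_lit 37546) (S (nat_lit 33628) (S (nat_lit 51942) (L (nat_lit 4071830))
(L (nat_lit 6873174)))
(L (nat_lit 12400726)))
(S (nat_lit 57310) (S (nat_lit 48595) (S (nat_lit 10704) (S (nat_lit 33628) (S (nat_lit 41252) (S (nat_lit 23436) (L (nat_lit 23398220))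
(L (nat_lit 3565939)))
(L (nat_lit 18147510)))
(L (nat_lit 15534790)))
(L (nat_lit 12191568)))
(L (nat_lit 20785541)))
(L (nat_lit 25903209)))))
(S (nat_lit 42505) (S (nat_lit 11743) (S (nat_lit 13371) (S (nat_lit 33628) (L (nat_lit 6108470))
(L (nat_lit 12237571)))
(S (nat_lit 32809) (L (nat_lit 1634922))
(L (nat_lit 14393250))))
(S (nat_lit 31507) (S (nat_lit 49013) (S (nat_lit 20023) (S (nat_lit 13921) (L (nat_lit 28557366))
(L (nat_lit 22211822)))
(L (nat_lit 5494328)))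
(L (nat_lit 10185869)))
(S (nat_lit 51271) (S (nat_lit 28831) (S (nat_lit 10704) (S (nat_lit 23701) (S (nat_lit 12896) (L (nat_lit 18145187))
(L (nat_lit 10120268)))
(L (nat_lit 5595057)))
(L (nat_lit 17459523)))
(L (nat_lit 31032620)))
(L (nat_lit 25803042)))))
(L (nat_lit 25475221)))))
(S (nat_lit 24395) (S (nat_lit 33628) (S (nat_lit 32178) (S (nat_lit 21956) (S (nat_lit 794) (S (nat_lit 30468) (S (nat_lit 28029) (S (nat_lit 17782) (S (nat_lit 3164) (S (nat_lit 18958) (S (nat_lit 11241) (S (nat_lit 20273) (S (nat_lit 7826) (S (nat_lit 48595) (S (nat_lit 44706) (S (nat_lit 9548) (S (nat_lit 57470) (L (nat_lit 503449))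
(L (nat_lit 30094592)))
(L (nat_lit 17033395)))
(L (nat_lit 14932093)))
(L (nat_lit 13686041)))
(S (nat_lit 27590) (S (nat_lit 24942) (S (nat_lit 26353) (S (nat_lit 3368) (L (nat_lit 5556053))
(L (nat_lit 30031171)))
(L (nat_lit 15440925)))
(L (nat_lit 12261137)))
(S (nat_lit 47354) (S (nat_lit 43465) (S (nat_lit 15143) (S (nat_lit 20832) (L (nat_lit 5519065))
(L (nat_lit 24461154)))
(L (nat_lit 22284765)))
(L (nat_lit 7210673)))
(L (nat_lit 25206227)))))
(L (nat_lit 21375744)))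
(L (nat_lit 6712406)))
(L (nat_lit 26575286)))
(L (nat_lit 26354230)))
(L (nat_lit 6319574)))
(L (nat_lit 16592054)))
(L (nat_lit 1518358)))
(L (nat_lit 10644918)))
(L (nat_lit 4079926)))
(L (nat_lit 2663190)))
(L (nat_lit 12400758)))
(S (nat_lit 44159) (S (nat_lit 9067) (S (nat_lit 41252) (S (nat_lit 42692) (L (nat_lit 1944022))
(L (nat_lit 27797686)))
(L (nat_lit 23500984)))
(S (nat_lit 28831) (S (nat_lit 4329) (L (nat_lit 8969240))
(S (nat_lit 10728) (L (nat_lit 12659542))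
(L (nat_lit 23299608))))
(S (nat_lit 48595) (S (nat_lit 1724) (S (nat_lit 33685) (L (nat_lit 18730154))
(L (nat_lit 12368054)))
(S (nat_lit 21488) (L (nat_lit 9834422))
(S (nat_lit 41252) (S (nat_lit 42692) (L (nat_lit 1944022))
(L (nat_lit 27797686)))
(L (nat_lit 25582758)))))
(L (nat_lit 25792041)))))
(L (nat_lit 25317899)))))
(S (nat_lit 23939) (S (nat_lit 15122) (S (nat_lit 259) (S (nat_lit 22928) (S (nat_lit 41252) (S (nat_lit 21268) (S (nat_lit 52165) (S (nat_lit 50232) (S (nat_lit 46117) (L (nat_lit 10567387))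
(L (nat_lit 18443272)))
(L (nat_lit 7259286)))
(L (nat_lit 22113648)))
(L (nat_lit 22113646)))
(L (nat_lit 9005232)))
(S (nat_lit 36992) (L (nat_lit 5729652))
(L (nat_lit 5847417))))
(S (nat_lit 20023) (S (nat_lit 13607) (L (nat_lit 3815736))
(S (nat_lit 22928) (S (nat_lit 15840) (S (nat_lit 43200) (S (nat_lit 21025) (S (nat_lit 57310) (S (nat_lit 31718) (S (nat_lit 49013) (S (nat_lit 41252) (L (nat_lit 3523195))
(L (nat_lit 17375416)))
(L (nat_lit 9467567)))
(L (nat_lit 31001868)))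
(L (nat_lit 19153669)))
(L (nat_lit 21472445)))
(L (nat_lit 27348334)))
(L (nat_lit 22297784)))
(L (nat_lit 21899809))))
(S (nat_lit 39787) (S (nat_lit 13326) (L (nat_lit 18682230))
(S (nat_lit 22928) (S (nat_lit 52899) (S (nat_lit 12637) (S (nat_lit 31005) (S (nat_lit 33628) (S (nat_lit 11743) (L (nat_lit 9835132))
(L (nat_lit 18780779)))
(L (nat_lit 12302456)))
(L (nat_lit 5956134)))
(L (nat_lit 17916279)))
(L (nat_lit 17921397)))
(L (nat_lit 21457249))))
(L (nat_lit 25765413)))))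
(S (nat_lit 34886) (S (nat_lit 15331) (S (nat_lit 4631) (S (nat_lit 22928) (S (nat_lit 31935) (S (nat_lit 49058) (S (nat_lit 33628) (S (nat_lit 41252) (S (nat_lit 51942) (S (nat_lit 47793) (S (nat_lit 2192) (S (nat_lit 31005) (S (nat_lit 6370) (S (nat_lit 57310) (S (nat_lit 33180) (S (nat_lit 9548) (S (nat_lit 3672) (S (nat_lit 52962) (S (nat_lit 27590) (S (nat_lit 38280) (L (nat_lit 10098200))
(L (nat_lit 17409954)))
(L (nat_lit 19343266)))
(L (nat_lit 19736098)))
(L (nat_lit 14757651)))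
(S (nat_lit 29312) (S (nat_lit 21786) (S (nat_lit 42024) (S (nat_lit 19764) (L (nat_lit 4539097))
(L (nat_lit 22943757)))
(L (nat_lit 14411012)))
(L (nat_lit 22111501)))
(S (nat_lit 49076) (S (nat_lit 31507) (S (nat_lit 36533) (S (nat_lit 32401) (S (nat_lit 23436) (L (nat_lit 3357337))
(L (nat_lit 13551625)))
(L (nat_lit 24277293)))
(L (nat_lit 2814253)))
(L (nat_lit 24274221)))
(L (nat_lit 25414117)))))
(L (nat_lit 23356930)))
(L (nat_lit 11985971)))
(L (nat_lit 6109460)))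
(L (nat_lit 30788130)))
(L (nat_lit 15466774)))
(L (nat_lit 17165334)))
(L (nat_lit 27828310)))
(L (nat_lit 27402742)))
(L (nat_lit 11592182)))
(L (nat_lit 20144301)))
(L (nat_lit 30907446)))
(L (nat_lit 30943414)))
(L (nat_lit 6809782)))
(S (nat_lit 35095) (S (nat_lit 2192) (S (nat_lit 58486) (S (nat_lit 48574) (L (nat_lit 16787160))
(L (nat_lit 11352768)))
(L (nat_lit 15068246)))
(L (nat_lit 26254902)))
(S (nat_lit 54859) (S (nat_lit 22928) (S (nat_lit 2192) (S (nat_lit 40322) (L (nat_lit 4911499))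
(L (nat_lit 18680086)))
(L (nat_lit 1515382)))
(L (nat_lit 18753558)))
(L (nat_lit 25708648)))))
(S (nat_lit 54650) (S (nat_lit 19226) (S (nat_lit 14702) (L (nat_lit 7221985))
(S (nat_lit 33628) (S (nat_lit 31935) (S (nat_lit 2192) (S (nat_lit 22928) (S (nat_lit 45898) (S (nat_lit 52962) (S (nat_lit 509) (S (nat_lit 54671) (L (nat_lit 18450712))
(L (nat_lit 6840930)))
(L (nat_lit 3360445)))
(L (nat_lit 18982668)))
(L (nat_lit 12934233)))
(L (nat_lit 13504886)))
(L (nat_lit 15466774)))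
(L (nat_lit 30907542)))
(L (nat_lit 4013670))))
(S (nat_lit 38990) (S (nat_lit 33198) (S (nat_lit 42505) (S (nat_lit 31935) (S (nat_lit 42250) (S (nat_lit 45898) (S (nat_lit 52899) (L (nat_lit 12045088))
(L (nat_lit 18518790)))
(L (nat_lit 7221985)))
(L (nat_lit 23472281)))
(L (nat_lit 31076707)))
(L (nat_lit 23871654)))
(L (nat_lit 30522950)))
(S (nat_lit 58754) (S (nat_lit 31935) (S (nat_lit 9046) (S (nat_lit 50232) (S (nat_lit 22928) (S (nat_lit 28336) (S (nat_lit 29312) (S (nat_lit 51942) (S (nat_lit 23193) (S (nat_lit 43200) (S (nat_lit 58044) (L (nat_lit 3521112))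
(L (nat_lit 3781416)))
(L (nat_lit 16394145)))
(L (nat_lit 21361155)))
(L (nat_lit 27645344)))
(L (nat_lit 19051369)))
(L (nat_lit 19405976)))
(L (nat_lit 6177142)))
(L (nat_lit 6402966)))
(L (nat_lit 7213591)))
(L (nat_lit 14314851)))
(L (nat_lit 25713798)))))
(L (nat_lit 25734324)))))
(S (nat_lit 43703) (S (nat_lit 12414) (S (nat_lit 4631) (S (nat_lit 30468) (S (nat_lit 53392) (S (nat_lit 41720) (S (nat_lit 20558) (S (nat_lit 8265) (S (nat_lit 50769) (S (nat_lit 38722) (S (nat_lit 40037) (S (nat_lit 37546) (S (nat_lit 42692) (S (nat_lit 15143) (S (nat_lit 24942) (S (nat_lit 46394) (S (nat_lit 53336) (L (nat_lit 8503002))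
(L (nat_lit 29997381)))
(L (nat_lit 12119649)))
(L (nat_lit 12359313)))
(S (nat_lit 34907) (S (nat_lit 26630) (S (nat_lit 2977) (S (nat_lit 29312) (S (nat_lit 4255) (L (nat_lit 1550936))
(L (nat_lit 11391393)))
(L (nat_lit 2612473)))
(L (nat_lit 19326178)))
(L (nat_lit 19433817)))
(S (nat_lit 54671) (S (nat_lit 42505) (S (nat_lit 45916) (S (nat_lit 57821) (S (nat_lit 46269) (L (nat_lit 6439577))
(L (nat_lit 30098660)))
(L (nat_lit 13244538)))
(L (nat_lit 27526548)))
(L (nat_lit 5063366)))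
(L (nat_lit 25448930)))))
(L (nat_lit 7420822)))
(L (nat_lit 10224086)))
(L (nat_lit 27492822)))
(L (nat_lit 14020694)))
(L (nat_lit 12972118)))
(L (nat_lit 11678582)))
(L (nat_lit 3405238)))
(L (nat_lit 27312438)))
(L (nat_lit 27695190)))
(L (nat_lit 13507638)))
(S (nat_lit 24395) (L (nat_lit 9615286))
(S (nat_lit 44159) (S (nat_lit 50769) (S (nat_lit 38722) (S (nat_lit 8265) (S (nat_lit 40037) (S (nat_lit 42692) (S (nat_lit 10704) (S (nat_lit 41720) (S (nat_lit 37546) (S (nat_lit 20558) (S (nat_lit 18629) (L (nat_lit 2734953))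
(S (nat_lit 33468) (S (nat_lit 11359) (L (nat_lit 12816247))
(L (nat_lit 20134693)))
(S (nat_lit 56167) (L (nat_lit 22582490))
(L (nat_lit 28424839)))))
(L (nat_lit 15505430)))
(L (nat_lit 6202838)))
(L (nat_lit 14516534)))
(L (nat_lit 26674518)))
(L (nat_lit 27791734)))
(L (nat_lit 17662262)))
(L (nat_lit 10269878)))
(L (nat_lit 13993750)))
(L (nat_lit 12972118)))
(L (nat_lit 25240086)))))
(S (nat_lit 32178) (S (nat_lit 8265) (S (nat_lit 50256) (L (nat_lit 4404150))
(L (nat_lit 14559350)))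
(S (nat_lit 28029) (S (nat_lit 13888) (L (nat_lit 290230))
(L (nat_lit 14527542)))
(S (nat_lit 47793) (S (nat_lit 13864) (L (nat_lit 28611030))
(L (nat_lit 13985910)))
(L (nat_lit 25823565)))))
(S (nat_lit 51942) (S (nat_lit 7561) (S (nat_lit 2022) (S (nat_lit 28831) (S (nat_lit 57310) (S (nat_lit 22928) (L (nat_lit 21326213))
(L (nat_lit 12659638)))
(L (nat_lit 12591894)))
(L (nat_lit 12692247)))
(S (nat_lit 21786) (S (nat_lit 4631) (S (nat_lit 4688) (L (nat_lit 29823190))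
(L (nat_lit 7225398)))
(S (nat_lit 54294) (L (nat_lit 6375188))
(L (nat_lit 20015372))))
(S (nat_lit 41550) (S (nat_lit 36533) (S (nat_lit 10982) (L (nat_lit 7071823))
(L (nat_lit 6894341)))
(S (nat_lit 56234) (L (nat_lit 23531805))
(L (nat_lit 23554405))))
(L (nat_lit 25174547)))))
(S (nat_lit 27325) (S (nat_lit 13434) (S (nat_lit 30072) (L (nat_lit 30428583))
(S (nat_lit 33628) (S (nat_lit 41252) (S (nat_lit 58754) (S (nat_lit 57310) (S (nat_lit 11241) (S (nat_lit 22741) (L (nat_lit 21084934))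
(L (nat_lit 12722904)))
(L (nat_lit 23999559)))
(L (nat_lit 14948118)))
(L (nat_lit 19217496)))
(L (nat_lit 8808470)))
(L (nat_lit 7224406))))
(S (nat_lit 33198) (S (nat_lit 41252) (S (nat_lit 22928) (L (nat_lit 6768826))
(L (nat_lit 13443254)))
(S (nat_lit 50865) (L (nat_lit 2894326))
(L (nat_lit 6711318))))
(S (nat_lit 52962) (S (nat_lit 15792) (L (nat_lit 1624445))
(S (nat_lit 38280) (S (nat_lit 57310) (S (nat_lit 48595) (S (nat_lit 20023) (L (nat_lit 20749484))
(L (nat_lit 5455608)))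
(L (nat_lit 27964677)))
(L (nat_lit 1975766)))
(L (nat_lit 14602596))))
(L (nat_lit 25545836)))))
(S (nat_lit 47089) (S (nat_lit 5172) (S (nat_lit 51482) (S (nat_lit 33628) (S (nat_lit 57072) (L (nat_lit 1880649))
(L (nat_lit 12466881)))
(L (nat_lit 7223382)))
(L (nat_lit 1258200)))
(S (nat_lit 24936) (S (nat_lit 4631) (S (nat_lit 4688) (L (nat_lit 29823190))
(L (nat_lit 7225398)))
(S (nat_lit 37177) (L (nat_lit 13299936))
(L (nat_lit 26288566))))
(S (nat_lit 44700) (S (nat_lit 3800) (L (nat_lit 26489942))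
(S (nat_lit 57310) (S (nat_lit 22928) (S (nat_lit 0) (L (nat_lit 28619489))
(L (nat_lit 13828883)))
(L (nat_lit 13443254)))
(L (nat_lit 13505910))))
(L (nat_lit 25646250)))))
(L (nat_lit 25352619)))))
(L (nat_lit 25530959)))))
(L (nat_lit 25209551)))))
(S (nat_lit 37081) (S (nat_lit 6388) (S (nat_lit 18011) (S (nat_lit 0) (S (nat_lit 52424) (S (nat_lit 9046) (S (nat_lit 50510) (S (nat_lit 56297) (S (nat_lit 51482) (L (nat_lit 8044416))
(L (nat_lit 8118348)))
(L (nat_lit 7046616)))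
(L (nat_lit 20200356)))
(L (nat_lit 4890380)))
(L (nat_lit 20029196)))
(S (nat_lit 19764) (S (nat_lit 52899) (S (nat_lit 31718) (S (nat_lit 44216) (S (nat_lit 48595) (S (nat_lit 32660) (L (nat_lit 28968143))
(L (nat_lit 30787596)))
(L (nat_lit 20778252)))
(L (nat_lit 1819402)))
(L (nat_lit 24289100)))
(L (nat_lit 3907404)))
(S (nat_lit 39528) (S (nat_lit 28810) (S (nat_lit 11954) (S (nat_lit 12171) (S (nat_lit 44159) (S (nat_lit 12896) (L (nat_lit 9548566))
(L (nat_lit 18547933)))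
(L (nat_lit 12424844)))
(L (nat_lit 18633923)))
(L (nat_lit 21863564)))
(L (nat_lit 19766412)))
(L (nat_lit 25375794)))))
(S (nat_lit 37775) (S (nat_lit 13888) (S (nat_lit 18958) (S (nat_lit 20273) (S (nat_lit 12414) (L (nat_lit 8176790))
(L (nat_lit 26711382)))
(L (nat_lit 1268656)))
(S (nat_lit 38722) (S (nat_lit 12414) (S (nat_lit 27833) (S (nat_lit 44159) (L (nat_lit 26985796))
(L (nat_lit 1946902)))
(L (nat_lit 10577395)))
(L (nat_lit 1612536)))
(S (nat_lit 58486) (S (nat_lit 42872) (L (nat_lit 1326682))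
(S (nat_lit 51699) (S (nat_lit 44159) (S (nat_lit 35095) (L (nat_lit 3647254))
(L (nat_lit 18682134)))
(L (nat_lit 1946902)))
(L (nat_lit 12689206))))
(L (nat_lit 25928813)))))
(S (nat_lit 33652) (S (nat_lit 40322) (S (nat_lit 33628) (S (nat_lit 30468) (L (nat_lit 30514646))
(L (nat_lit 30875363)))
(L (nat_lit 12389846)))
(L (nat_lit 27790614)))
(S (nat_lit 53416) (S (nat_lit 13921) (S (nat_lit 33628) (S (nat_lit 43465) (S (nat_lit 31186) (S (nat_lit 40322) (S (nat_lit 5172) (L (nat_lit 29433363))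
(L (nat_lit 18142360)))
(L (nat_lit 9997944)))
(L (nat_lit 1916616)))
(L (nat_lit 9080217)))
(L (nat_lit 23334830)))
(L (nat_lit 932150)))
(L (nat_lit 25283974)))))
(S (nat_lit 57539) (S (nat_lit 2496) (S (nat_lit 13888) (S (nat_lit 419) (L (nat_lit 26739338))
(S (nat_lit 2192) (S (nat_lit 44159) (L (nat_lit 28806518))
(L (nat_lit 1298872)))
(L (nat_lit 17597098))))
(S (nat_lit 33652) (S (nat_lit 40322) (S (nat_lit 33628) (S (nat_lit 2722) (L (nat_lit 21261357))
(L (nat_lit 20199268)))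
(L (nat_lit 12389846)))
(L (nat_lit 27790614)))
(S (nat_lit 53416) (S (nat_lit 13921) (S (nat_lit 55368) (L (nat_lit 12270648))
(L (nat_lit 933543)))
(L (nat_lit 932150)))
(L (nat_lit 25893282)))))
(S (nat_lit 22260) (S (nat_lit 40322) (S (nat_lit 27833) (S (nat_lit 46117) (S (nat_lit 28831) (S (nat_lit 29312) (S (nat_lit 27590) (S (nat_lit 48100) (L (nat_lit 18207898))
(L (nat_lit 18117185)))
(L (nat_lit 4973936)))
(L (nat_lit 19706085)))
(L (nat_lit 19376152)))
(L (nat_lit 6024616)))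
(S (nat_lit 47513) (L (nat_lit 24379800))
(L (nat_lit 10966948))))
(L (nat_lit 18581784)))
(S (nat_lit 42024) (S (nat_lit 17782) (S (nat_lit 33652) (S (nat_lit 52424) (L (nat_lit 20231229))
(L (nat_lit 6408600)))
(L (nat_lit 6917528)))
(S (nat_lit 37546) (S (nat_lit 44183) (S (nat_lit 44685) (L (nat_lit 1291190))
(L (nat_lit 23863840)))
(L (nat_lit 23598328)))
(S (nat_lit 57310) (S (nat_lit 4688) (L (nat_lit 1528184))
(L (nat_lit 18159510)))
(L (nat_lit 25441331)))))
(L (nat_lit 25276722)))))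
(L (nat_lit 25795104)))))
(S (nat_lit 26152) (S (nat_lit 8069) (S (nat_lit 17544) (S (nat_lit 9485) (S (nat_lit 28336) (S (nat_lit 35095) (S (nat_lit 11743) (L (nat_lit 22308356))
(L (nat_lit 21896333)))
(L (nat_lit 13346936)))
(L (nat_lit 1747453)))
(S (nat_lit 29249) (S (nat_lit 34886) (S (nat_lit 52899) (L (nat_lit 18110276))
(L (nat_lit 1955367)))
(L (nat_lit 1955120)))
(S (nat_lit 49013) (S (nat_lit 13416) (L (nat_lit 12781332))
(L (nat_lit 5097031)))
(L (nat_lit 25712869)))))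
(S (nat_lit 37308) (S (nat_lit 19226) (S (nat_lit 17864) (L (nat_lit 1529610))
(S (nat_lit 41252) (S (nat_lit 44700) (L (nat_lit 10339937))
(L (nat_lit 8078145)))
(L (nat_lit 23390657))))
(S (nat_lit 38990) (S (nat_lit 37775) (L (nat_lit 20386040))
(L (nat_lit 30688436)))
(S (nat_lit 58754) (S (nat_lit 12414) (S (nat_lit 35095) (S (nat_lit 9548) (S (nat_lit 44159) (S (nat_lit 8265) (L (nat_lit 9122844))
(L (nat_lit 14363672)))
(L (nat_lit 2020779)))
(L (nat_lit 21409700)))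
(L (nat_lit 17869528)))
(L (nat_lit 20978200)))
(L (nat_lit 25803848)))))
(S (nat_lit 57072) (S (nat_lit 40789) (S (nat_lit 43200) (L (nat_lit 30691841))
(L (nat_lit 24002848)))
(L (nat_lit 23585025)))
(L (nat_lit 25282865)))))
(S (nat_lit 27833) (S (nat_lit 15143) (S (nat_lit 6589) (S (nat_lit 7561) (L (nat_lit 14247079))
(L (nat_lit 14387974)))
(S (nat_lit 26353) (S (nat_lit 28336) (S (nat_lit 52899) (S (nat_lit 57072) (L (nat_lit 21468413))
(L (nat_lit 27349265)))
(L (nat_lit 18946892)))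
(L (nat_lit 10567421)))
(S (nat_lit 46117) (S (nat_lit 9343) (L (nat_lit 17043162))
(S (nat_lit 41252) (S (nat_lit 44159) (S (nat_lit 2022) (L (nat_lit 27337266))
(L (nat_lit 18948664)))
(L (nat_lit 14754710)))
(L (nat_lit 1655592))))
(L (nat_lit 25286862)))))
(S (nat_lit 34907) (S (nat_lit 13416) (S (nat_lit 15137) (L (nat_lit 1469158))
(L (nat_lit 13174696)))
(S (nat_lit 50144) (S (nat_lit 22741) (L (nat_lit 14019638))
(L (nat_lit 30723217)))
(L (nat_lit 7802456))))
(S (nat_lit 54671) (S (nat_lit 9530) (S (nat_lit 9485) (S (nat_lit 50510) (L (nat_lit 29415725))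
(L (nat_lit 11425316)))
(L (nat_lit 23093485)))
(S (nat_lit 29294) (S (nat_lit 2496) (S (nat_lit 20736) (L (nat_lit 15603860))
(L (nat_lit 30487890)))
(L (nat_lit 6738968)))
(S (nat_lit 49058) (S (nat_lit 13371) (S (nat_lit 1724) (S (nat_lit 35095) (L (nat_lit 3907501))
(L (nat_lit 30642582)))
(L (nat_lit 26288785)))
(L (nat_lit 12656565)))
(L (nat_lit 25769127)))))
(L (nat_lit 25445058)))))
(S (nat_lit 47597) (S (nat_lit 2977) (S (nat_lit 16526) (S (nat_lit 56583) (S (nat_lit 40322) (S (nat_lit 42692) (L (nat_lit 19218305))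
(L (nat_lit 1329965)))
(L (nat_lit 17534234)))
(L (nat_lit 1881397)))
(S (nat_lit 36290) (S (nat_lit 11422) (S (nat_lit 2496) (S (nat_lit 48574) (L (nat_lit 22519716))
(L (nat_lit 12408972)))
(L (nat_lit 20030286)))
(L (nat_lit 23894497)))
(S (nat_lit 56054) (S (nat_lit 40322) (S (nat_lit 5172) (S (nat_lit 27590) (S (nat_lit 26134) (L (nat_lit 20417415))
(L (nat_lit 1301357)))
(L (nat_lit 31172034)))
(L (nat_lit 18607392)))
(L (nat_lit 4955057)))
(L (nat_lit 25862592)))))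
(S (nat_lit 22741) (S (nat_lit 22486) (S (nat_lit 8265) (S (nat_lit 35095) (S (nat_lit 44159) (S (nat_lit 12414) (S (nat_lit 40322) (S (nat_lit 23701) (S (nat_lit 13434) (L (nat_lit 5925197))
(L (nat_lit 7945092)))
(L (nat_lit 21368061)))
(L (nat_lit 18684517)))
(L (nat_lit 18653921)))
(L (nat_lit 1664268)))
(L (nat_lit 31174018)))
(L (nat_lit 5027062)))
(S (nat_lit 52071) (S (nat_lit 24856) (L (nat_lit 23563111))
(L (nat_lit 836326)))
(L (nat_lit 21247037))))
(S (nat_lit 42505) (S (nat_lit 11422) (S (nat_lit 26353) (S (nat_lit 21786) (S (nat_lit 44159) (L (nat_lit 30088365))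
(L (nat_lit 1614520)))
(L (nat_lit 8182797)))
(S (nat_lit 46687) (L (nat_lit 23588032))
(L (nat_lit 31012035))))
(S (nat_lit 31186) (S (nat_lit 9126) (L (nat_lit 25008581))
(S (nat_lit 28810) (S (nat_lit 31507) (S (nat_lit 9067) (L (nat_lit 24617828))
(L (nat_lit 24020268)))
(L (nat_lit 31102406)))
(L (nat_lit 8503960))))
(S (nat_lit 50950) (S (nat_lit 46394) (S (nat_lit 33198) (S (nat_lit 3672) (S (nat_lit 51482) (L (nat_lit 14247201))
(L (nat_lit 8181217)))
(L (nat_lit 20317963)))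
(L (nat_lit 30522950)))
(L (nat_lit 22879345)))
(L (nat_lit 25664129)))))
(L (nat_lit 25936006)))))
(L (nat_lit 25663573)))))
(S (nat_lit 45916) (S (nat_lit 13416) (S (nat_lit 12896) (S (nat_lit 8265) (S (nat_lit 8069) (S (nat_lit 36533) (S (nat_lit 29249) (L (nat_lit 8281601))
(L (nat_lit 2386605)))
(L (nat_lit 20392985)))
(S (nat_lit 57924) (L (nat_lit 23161037))
(L (nat_lit 12055268))))
(S (nat_lit 36862) (L (nat_lit 26646707))
(L (nat_lit 26577484))))
(S (nat_lit 32660) (S (nat_lit 31507) (S (nat_lit 29249) (S (nat_lit 38990) (L (nat_lit 2313069))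
(L (nat_lit 30594598)))
(L (nat_lit 13457636)))
(L (nat_lit 6919576)))
(S (nat_lit 52424) (S (nat_lit 8572) (S (nat_lit 28831) (S (nat_lit 58754) (S (nat_lit 51482) (S (nat_lit 7826) (L (nat_lit 23956969))
(L (nat_lit 26432960)))
(L (nat_lit 27860108)))
(L (nat_lit 27448684)))
(L (nat_lit 18983480)))
(S (nat_lit 28336) (S (nat_lit 27325) (S (nat_lit 28831) (S (nat_lit 50510) (L (nat_lit 29822567))
(L (nat_lit 12850101)))
(L (nat_lit 13413952)))
(L (nat_lit 6312349)))
(S (nat_lit 48100) (S (nat_lit 48574) (L (nat_lit 4922840))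
(L (nat_lit 20782533)))
(L (nat_lit 25255247)))))
(L (nat_lit 25465235)))))
(S (nat_lit 33180) (S (nat_lit 12637) (S (nat_lit 6325) (S (nat_lit 5344) (S (nat_lit 9485) (L (nat_lit 22095257))
(L (nat_lit 839981)))
(S (nat_lit 11743) (S (nat_lit 6866) (S (nat_lit 9485) (S (nat_lit 24936) (L (nat_lit 28483093))
(L (nat_lit 30888074)))
(L (nat_lit 9134221)))
(L (nat_lit 6874229)))
(L (nat_lit 23327885))))
(S (nat_lit 26089) (S (nat_lit 24505) (L (nat_lit 26497101))
(S (nat_lit 37546) (S (nat_lit 9485) (L (nat_lit 18885389))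
(L (nat_lit 21259437)))
(L (nat_lit 23347325))))
(S (nat_lit 45853) (S (nat_lit 45898) (S (nat_lit 9485) (S (nat_lit 40322) (S (nat_lit 35396) (S (nat_lit 33198) (S (nat_lit 37546) (S (nat_lit 8265) (S (nat_lit 44159) (S (nat_lit 36290) (S (nat_lit 36819) (L (nat_lit 22384125))
(L (nat_lit 12914581)))
(L (nat_lit 4483759)))
(L (nat_lit 15585451)))
(L (nat_lit 5025356)))
(L (nat_lit 729965)))
(L (nat_lit 9495117)))
(L (nat_lit 666477)))
(L (nat_lit 27987335)))
(L (nat_lit 809261)))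
(L (nat_lit 252685)))
(L (nat_lit 25764880)))))
(L (nat_lit 10246221)))
(S (nat_lit 52944) (S (nat_lit 794) (S (nat_lit 15632) (S (nat_lit 29312) (S (nat_lit 50950) (L (nat_lit 19107320))
(L (nat_lit 22908109)))
(L (nat_lit 7179949)))
(S (nat_lit 35396) (S (nat_lit 44700) (S (nat_lit 53416) (L (nat_lit 9834422))
(L (nat_lit 27344214)))
(L (nat_lit 24416017)))
(S (nat_lit 55160) (S (nat_lit 8572) (S (nat_lit 5172) (L (nat_lit 15919687))
(L (nat_lit 16027384)))
(L (nat_lit 13511233)))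
(L (nat_lit 25610282)))))
(S (nat_lit 20558) (S (nat_lit 15137) (S (nat_lit 13921) (L (nat_lit 26709366))
(L (nat_lit 13536502)))
(S (nat_lit 34901) (S (nat_lit 40789) (S (nat_lit 49013) (L (nat_lit 16391357))
(L (nat_lit 20186893)))
(L (nat_lit 23535457)))
(S (nat_lit 54665) (S (nat_lit 33628) (S (nat_lit 4655) (L (nat_lit 5488566))
(L (nat_lit 17848075)))
(L (nat_lit 23498507)))
(L (nat_lit 25730626)))))
(S (nat_lit 40322) (S (nat_lit 11241) (S (nat_lit 40037) (S (nat_lit 8265) (S (nat_lit 6370) (S (nat_lit 12414) (S (nat_lit 37546) (S (nat_lit 12171) (S (nat_lit 56054) (S (nat_lit 42250) (L (nat_lit 5648124))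
(L (nat_lit 14311716)))
(L (nat_lit 27385101)))
(L (nat_lit 21328387)))
(L (nat_lit 17409080)))
(L (nat_lit 26514966)))
(L (nat_lit 9892580)))
(L (nat_lit 21116747)))
(L (nat_lit 18786454)))
(S (nat_lit 31005) (S (nat_lit 49013) (S (nat_lit 33628) (S (nat_lit 7826) (S (nat_lit 8069) (L (nat_lit 9924758))
(L (nat_lit 26297064)))
(L (nat_lit 21438272)))
(L (nat_lit 6688477)))
(L (nat_lit 13980484)))
(S (nat_lit 50769) (S (nat_lit 15122) (S (nat_lit 49013) (S (nat_lit 8265) (L (nat_lit 16049796))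
(L (nat_lit 21799948)))
(L (nat_lit 13640469)))
(S (nat_lit 33544) (L (nat_lit 12782296))
(L (nat_lit 14552806))))
(L (nat_lit 25217510)))))
(L (nat_lit 25481264)))))
(L (nat_lit 25183878)))))
(L (nat_lit 25248455)))))
(S (nat_lit 56845) (S (nat_lit 12414) (S (nat_lit 13864) (S (nat_lit 18958) (S (nat_lit 1724) (L (nat_lit 1323862))
(L (nat_lit 10227158)))
(S (nat_lit 38722) (S (nat_lit 50232) (S (nat_lit 794) (S (nat_lit 8265) (S (nat_lit 24395) (S (nat_lit 43703) (S (nat_lit 31005) (S (nat_lit 40037) (S (nat_lit 42692) (S (nat_lit 41720) (S (nat_lit 0) (S (nat_lit 55368) (S (nat_lit 56297) (S (nat_lit 55534) (L (nat_lit 14722780))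
(L (nat_lit 20856163)))
(L (nat_lit 19775780)))
(L (nat_lit 27571383)))
(S (nat_lit 19764) (S (nat_lit 10982) (S (nat_lit 853) (L (nat_lit 10564221))
(L (nat_lit 27966630)))
(L (nat_lit 16011045)))
(S (nat_lit 39528) (S (nat_lit 21025) (S (nat_lit 50510) (S (nat_lit 17055) (S (nat_lit 35009) (L (nat_lit 8469145))
(L (nat_lit 28034404)))
(L (nat_lit 12440004)))
(L (nat_lit 11987652)))
(L (nat_lit 16679494)))
(L (nat_lit 25173426)))))
(L (nat_lit 10533686)))
(L (nat_lit 9520022)))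
(L (nat_lit 11438582)))
(L (nat_lit 17601750)))
(L (nat_lit 27824342)))
(L (nat_lit 8909846)))
(L (nat_lit 10237110)))
(L (nat_lit 8939574)))
(L (nat_lit 15855862)))
(S (nat_lit 58486) (L (nat_lit 9867190))
(L (nat_lit 25724522)))))
(S (nat_lit 33628) (S (nat_lit 6866) (S (nat_lit 15632) (S (nat_lit 13935) (L (nat_lit 11585395))
(S (nat_lit 31718) (S (nat_lit 56297) (S (nat_lit 57072) (L (nat_lit 4959771))
(L (nat_lit 21506945)))
(L (nat_lit 6346200)))
(L (nat_lit 7071201))))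
(S (nat_lit 35396) (S (nat_lit 12361) (L (nat_lit 14292317))
(S (nat_lit 44216) (L (nat_lit 12850006))
(L (nat_lit 12972769))))
(S (nat_lit 55160) (S (nat_lit 26089) (S (nat_lit 0) (L (nat_lit 8011681))
(L (nat_lit 1265080)))
(L (nat_lit 14224605)))
(L (nat_lit 25759087)))))
(S (nat_lit 26630) (S (nat_lit 2977) (S (nat_lit 38722) (S (nat_lit 44159) (S (nat_lit 43703) (S (nat_lit 41720) (S (nat_lit 18293) (S (nat_lit 51066) (L (nat_lit 8411677))
(L (nat_lit 9319446)))
(L (nat_lit 606589)))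
(L (nat_lit 14583094)))
(L (nat_lit 2454006)))
(L (nat_lit 11694614)))
(S (nat_lit 49131) (L (nat_lit 23176701))
(L (nat_lit 30418454))))
(S (nat_lit 22741) (S (nat_lit 21568) (L (nat_lit 6743124))
(S (nat_lit 41252) (S (nat_lit 41720) (S (nat_lit 55581) (L (nat_lit 21000493))
(L (nat_lit 16620097)))
(L (nat_lit 27277590)))
(L (nat_lit 6884856))))
(S (nat_lit 42505) (S (nat_lit 18582) (L (nat_lit 23654535))
(S (nat_lit 38990) (S (nat_lit 52165) (L (nat_lit 29723217))
(L (nat_lit 22317625)))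
(L (nat_lit 14256441))))
(L (nat_lit 25344710)))))
(S (nat_lit 46394) (S (nat_lit 2496) (S (nat_lit 3672) (S (nat_lit 47015) (S (nat_lit 17544) (L (nat_lit 9467503))
(L (nat_lit 24547609)))
(L (nat_lit 30122497)))
(L (nat_lit 16901490)))
(S (nat_lit 22260) (S (nat_lit 10728) (S (nat_lit 28810) (L (nat_lit 343955))
(L (nat_lit 19306584)))
(L (nat_lit 5840408)))
(S (nat_lit 42024) (S (nat_lit 7826) (S (nat_lit 35095) (S (nat_lit 44706) (S (nat_lit 37308) (L (nat_lit 20851853))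
(L (nat_lit 23618849)))
(L (nat_lit 23860593)))
(L (nat_lit 23931427)))
(L (nat_lit 23590023)))
(L (nat_lit 25544356)))))
(L (nat_lit 25538677)))))
(S (nat_lit 53392) (S (nat_lit 44216) (S (nat_lit 44183) (L (nat_lit 9561654))
(L (nat_lit 1369590)))
(L (nat_lit 1467734)))
(L (nat_lit 25595499)))))
(S (nat_lit 32178) (S (nat_lit 1261) (S (nat_lit 4655) (S (nat_lit 17782) (S (nat_lit 50289) (S (nat_lit 13888) (S (nat_lit 21956) (S (nat_lit 18958) (S (nat_lit 30468) (S (nat_lit 10728) (S (nat_lit 44216) (S (nat_lit 42505) (S (nat_lit 12896) (L (nat_lit 24157724))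
(L (nat_lit 26386092)))
(L (nat_lit 5743444)))
(L (nat_lit 1467734)))
(L (nat_lit 9596438)))
(L (nat_lit 4661014)))
(L (nat_lit 26232150)))
(L (nat_lit 2640811)))
(L (nat_lit 486742)))
(L (nat_lit 13853718)))
(L (nat_lit 18115638)))
(S (nat_lit 24419) (S (nat_lit 24395) (S (nat_lit 28029) (S (nat_lit 20159) (L (nat_lit 11004982))
(S (nat_lit 24452) (S (nat_lit 19500) (S (nat_lit 24942) (S (nat_lit 23701) (L (nat_lit 28973441))
(L (nat_lit 5584820)))
(L (nat_lit 21206961)))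
(L (nat_lit 3425881)))
(L (nat_lit 17110777))))
(L (nat_lit 6107382)))
(L (nat_lit 17634614)))
(S (nat_lit 44183) (S (nat_lit 28029) (S (nat_lit 4688) (S (nat_lit 24395) (S (nat_lit 17782) (S (nat_lit 23436) (S (nat_lit 41252) (S (nat_lit 54859) (S (nat_lit 3164) (S (nat_lit 26089) (L (nat_lit 3488408))
(L (nat_lit 21557505)))
(L (nat_lit 17573910)))
(L (nat_lit 5089846)))
(L (nat_lit 3533302)))
(L (nat_lit 13267296)))
(L (nat_lit 18017654)))
(L (nat_lit 30973974)))
(L (nat_lit 20382634)))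
(L (nat_lit 5678870)))
(L (nat_lit 25854506)))))
(S (nat_lit 21025) (S (nat_lit 12637) (S (nat_lit 0) (S (nat_lit 50769) (S (nat_lit 28029) (S (nat_lit 30746) (S (nat_lit 17782) (S (nat_lit 20273) (S (nat_lit 3164) (S (nat_lit 18958) (S (nat_lit 4175) (S (nat_lit 21956) (S (nat_lit 36819) (S (nat_lit 16526) (S (nat_lit 40322) (S (nat_lit 33628) (S (nat_lit 30468) (S (nat_lit 54859) (S (nat_lit 15788) (S (nat_lit 50950) (L (nat_lit 2530940))
(L (nat_lit 20888772)))
(S (nat_lit 58044) (S (nat_lit 39787) (L (nat_lit 705881))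
(L (nat_lit 27507429)))
(L (nat_lit 1985034))))
(L (nat_lit 19357769)))
(L (nat_lit 25052483)))
(S (nat_lit 53089) (L (nat_lit 12289433))
(L (nat_lit 16649587))))
(L (nat_lit 18143141)))
(L (nat_lit 22817282)))
(L (nat_lit 20278788)))
(L (nat_lit 21497771)))
(L (nat_lit 19116960)))
(L (nat_lit 12051138)))
(L (nat_lit 20713839)))
(L (nat_lit 15850411)))
(L (nat_lit 5066093)))
(L (nat_lit 14422667)))
(L (nat_lit 30790114)))
(L (nat_lit 14739079)))
(S (nat_lit 19764) (S (nat_lit 37308) (S (nat_lit 43200) (S (nat_lit 57821) (L (nat_lit 938352))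
(L (nat_lit 21764613)))
(L (nat_lit 7223905)))
(L (nat_lit 30846561)))
(S (nat_lit 39528) (S (nat_lit 39787) (S (nat_lit 38722) (S (nat_lit 24395) (L (nat_lit 10217644))
(L (nat_lit 14255018)))
(L (nat_lit 11418742)))
(L (nat_lit 23520576)))
(L (nat_lit 25396845)))))
(S (nat_lit 32401) (S (nat_lit 13888) (S (nat_lit 2977) (S (nat_lit 27590) (S (nat_lit 28029) (S (nat_lit 45853) (S (nat_lit 9046) (L (nat_lit 26595408))
(L (nat_lit 6809280)))
(L (nat_lit 8884052)))
(L (nat_lit 15544036)))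
(L (nat_lit 30920034)))
(L (nat_lit 10997634)))
(S (nat_lit 33652) (S (nat_lit 40322) (S (nat_lit 17782) (S (nat_lit 33685) (S (nat_lit 24395) (L (nat_lit 24619844))
(L (nat_lit 30651414)))
(L (nat_lit 12095286)))
(L (nat_lit 18686070)))
(L (nat_lit 27790614)))
(S (nat_lit 53416) (S (nat_lit 21956) (S (nat_lit 24395) (S (nat_lit 13921) (L (nat_lit 21131566))
(L (nat_lit 13503798)))
(L (nat_lit 17036310)))
(L (nat_lit 3357462)))
(L (nat_lit 25251150)))))
(S (nat_lit 52165) (S (nat_lit 3672) (S (nat_lit 38057) (S (nat_lit 29294) (L (nat_lit 2780647))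
(L (nat_lit 30496045)))
(L (nat_lit 6960249)))
(S (nat_lit 23436) (S (nat_lit 24395) (S (nat_lit 12896) (S (nat_lit 5157) (S (nat_lit 24419) (L (nat_lit 24618880))
(L (nat_lit 14316771)))
(L (nat_lit 16654945)))
(L (nat_lit 18509056)))
(L (nat_lit 21469098)))
(S (nat_lit 43200) (S (nat_lit 9530) (S (nat_lit 12896) (S (nat_lit 45853) (L (nat_lit 665085))
(L (nat_lit 15002644)))
(L (nat_lit 21294094)))
(L (nat_lit 16883635)))
(L (nat_lit 25578784)))))
(L (nat_lit 25660103)))))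
(S (nat_lit 40789) (S (nat_lit 15137) (S (nat_lit 9548) (S (nat_lit 15632) (S (nat_lit 9485) (L (nat_lit 28418735))
(L (nat_lit 277180)))
(S (nat_lit 35312) (L (nat_lit 26782866))
(L (nat_lit 17369003))))
(S (nat_lit 29312) (S (nat_lit 15632) (S (nat_lit 50950) (L (nat_lit 1720166))
(L (nat_lit 13242281)))
(L (nat_lit 17443747)))
(S (nat_lit 49076) (S (nat_lit 24395) (S (nat_lit 8069) (L (nat_lit 28398864))
(L (nat_lit 23567172)))
(L (nat_lit 14569761)))
(L (nat_lit 25341427)))))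
(S (nat_lit 34901) (S (nat_lit 4655) (S (nat_lit 17782) (S (nat_lit 50950) (S (nat_lit 50289) (S (nat_lit 13888) (S (nat_lit 33628) (S (nat_lit 11743) (S (nat_lit 39787) (L (nat_lit 18998606))
(L (nat_lit 23163433)))
(L (nat_lit 23991533)))
(L (nat_lit 20351910)))
(L (nat_lit 486742)))
(L (nat_lit 13853718)))
(L (nat_lit 15341753)))
(L (nat_lit 18115638)))
(S (nat_lit 24419) (S (nat_lit 24395) (S (nat_lit 3672) (S (nat_lit 35604) (S (nat_lit 28029) (S (nat_lit 54859) (S (nat_lit 50950) (L (nat_lit 12488365))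
(L (nat_lit 20170660)))
(L (nat_lit 13652873)))
(L (nat_lit 6107382)))
(L (nat_lit 23636803)))
(L (nat_lit 17457504)))
(L (nat_lit 17634614)))
(S (nat_lit 44183) (S (nat_lit 28029) (S (nat_lit 50950) (S (nat_lit 15632) (S (nat_lit 9485) (S (nat_lit 24395) (L (nat_lit 29724148))
(L (nat_lit 30560778)))
(L (nat_lit 1333692)))
(L (nat_lit 4865962)))
(L (nat_lit 11145133)))
(L (nat_lit 5678870)))
(L (nat_lit 25867491)))))
(S (nat_lit 54665) (S (nat_lit 13434) (S (nat_lit 11641) (L (nat_lit 11408917))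
(S (nat_lit 38280) (S (nat_lit 54650) (S (nat_lit 17782) (L (nat_lit 16968982))
(L (nat_lit 2631606)))
(L (nat_lit 2765736)))
(L (nat_lit 386583))))
(S (nat_lit 33198) (S (nat_lit 8695) (L (nat_lit 7191733))
(S (nat_lit 24395) (S (nat_lit 28029) (S (nat_lit 33628) (L (nat_lit 29465108))
(L (nat_lit 23935083)))
(L (nat_lit 24196875)))
(L (nat_lit 22521601))))
(S (nat_lit 52962) (S (nat_lit 40322) (S (nat_lit 36290) (S (nat_lit 13888) (L (nat_lit 29469236))
(L (nat_lit 1915627)))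
(L (nat_lit 18688116)))
(L (nat_lit 23312440)))
(L (nat_lit 25755980)))))
(L (nat_lit 25730690)))))
(L (nat_lit 25320870)))))
(S (nat_lit 51942) (S (nat_lit 17544) (S (nat_lit 9046) (S (nat_lit 16526) (S (nat_lit 52944) (S (nat_lit 44183) (L (nat_lit 10096556))
(L (nat_lit 23999683)))
(L (nat_lit 27987277)))
(S (nat_lit 48900) (L (nat_lit 29637280))
(L (nat_lit 11189024))))
(S (nat_lit 28810) (S (nat_lit 9856) (L (nat_lit 903534))
(S (nat_lit 19226) (S (nat_lit 28831) (S (nat_lit 47597) (S (nat_lit 54671) (L (nat_lit 513277))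
(L (nat_lit 6382289)))
(L (nat_lit 6787832)))
(L (nat_lit 9277164)))
(L (nat_lit 24371276))))
(S (nat_lit 48574) (S (nat_lit 3672) (S (nat_lit 36290) (S (nat_lit 2496) (S (nat_lit 46394) (S (nat_lit 45853) (L (nat_lit 24425377))
(L (nat_lit 12897025)))
(L (nat_lit 27603553)))
(L (nat_lit 7050809)))
(L (nat_lit 20789504)))
(S (nat_lit 41584) (L (nat_lit 13956768))
(L (nat_lit 1718585))))
(L (nat_lit 25510592)))))
(S (nat_lit 37308) (S (nat_lit 2022) (S (nat_lit 35187) (L (nat_lit 11440630))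
(S (nat_lit 42024) (S (nat_lit 24322) (L (nat_lit 20029357))
(S (nat_lit 49076) (S (nat_lit 34907) (S (nat_lit 8069) (L (nat_lit 21186338))
(L (nat_lit 23929317)))
(L (nat_lit 23356465)))
(L (nat_lit 27406645))))
(L (nat_lit 14353190))))
(S (nat_lit 21786) (S (nat_lit 15331) (S (nat_lit 5157) (S (nat_lit 43200) (L (nat_lit 30124417))
(L (nat_lit 13709171)))
(L (nat_lit 9168417)))
(S (nat_lit 35095) (S (nat_lit 30468) (S (nat_lit 44183) (L (nat_lit 5124406))
(L (nat_lit 12878774)))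
(L (nat_lit 4664246)))
(S (nat_lit 54859) (S (nat_lit 19764) (S (nat_lit 3429) (L (nat_lit 22144523))
(L (nat_lit 8446483)))
(L (nat_lit 20998381)))
(L (nat_lit 25181494)))))
(S (nat_lit 41550) (S (nat_lit 3672) (S (nat_lit 24395) (L (nat_lit 19374848))
(L (nat_lit 9261569)))
(S (nat_lit 23436) (L (nat_lit 12503553))
(S (nat_lit 43200) (S (nat_lit 25965) (L (nat_lit 23250793))
(S (nat_lit 27325) (S (nat_lit 22486) (S (nat_lit 10982) (L (nat_lit 14505067))
(L (nat_lit 21051613)))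
(L (nat_lit 21234604)))
(L (nat_lit 7090258))))
(L (nat_lit 25560434)))))
(L (nat_lit 25240268)))))
(S (nat_lit 57072) (S (nat_lit 4688) (S (nat_lit 50256) (S (nat_lit 33628) (S (nat_lit 33685) (L (nat_lit 13543542))
(L (nat_lit 30579222)))
(L (nat_lit 11930550)))
(L (nat_lit 401334)))
(S (nat_lit 24452) (L (nat_lit 11047862))
(S (nat_lit 44216) (S (nat_lit 33628) (S (nat_lit 10728) (L (nat_lit 5585814))
(L (nat_lit 15542454)))
(L (nat_lit 2955734)))
(L (nat_lit 25924972)))))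
(L (nat_lit 25277031)))))
(L (nat_lit 25829792)))))
(L (nat_lit 25659114)))))
(S (nat_lit 55831) (S (nat_lit 3429) (S (nat_lit 10704) (S (nat_lit 11743) (S (nat_lit 8265) (S (nat_lit 8572) (S (nat_lit 44183) (S (nat_lit 57539) (L (nat_lit 12734840))
(L (nat_lit 21272120)))
(L (nat_lit 1484662)))
(S (nat_lit 28336) (S (nat_lit 3672) (S (nat_lit 40322) (S (nat_lit 29312) (L (nat_lit 3548765))
(L (nat_lit 3846393)))
(L (nat_lit 23604280)))
(S (nat_lit 38579) (L (nat_lit 21230734))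
(L (nat_lit 26916905))))
(S (nat_lit 48100) (S (nat_lit 24419) (S (nat_lit 42692) (L (nat_lit 30020940))
(L (nat_lit 2013558)))
(L (nat_lit 30586102)))
(L (nat_lit 25250247)))))
(S (nat_lit 28029) (S (nat_lit 4175) (S (nat_lit 109) (L (nat_lit 3860011))
(S (nat_lit 6589) (S (nat_lit 10761) (S (nat_lit 794) (S (nat_lit 40037) (S (nat_lit 19226) (S (nat_lit 6866) (S (nat_lit 10728) (S (nat_lit 15840) (L (nat_lit 29465264))
(L (nat_lit 3722022)))
(L (nat_lit 23212843)))
(L (nat_lit 23998507)))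
(L (nat_lit 10293812)))
(L (nat_lit 23178129)))
(L (nat_lit 13783388)))
(L (nat_lit 10356336)))
(L (nat_lit 21437187))))
(L (nat_lit 4005302)))
(S (nat_lit 47793) (S (nat_lit 3672) (S (nat_lit 48100) (S (nat_lit 13864) (L (nat_lit 3357492))
(L (nat_lit 26258902)))
(L (nat_lit 17469689)))
(S (nat_lit 23436) (S (nat_lit 22260) (S (nat_lit 29312) (S (nat_lit 52962) (L (nat_lit 19274936))
(L (nat_lit 21357613)))
(L (nat_lit 17981683)))
(L (nat_lit 21344444)))
(S (nat_lit 43200) (S (nat_lit 10728) (S (nat_lit 794) (L (nat_lit 3390258))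
(L (nat_lit 8940566)))
(L (nat_lit 23633080)))
(L (nat_lit 25578849)))))
(L (nat_lit 25833698)))))
(S (nat_lit 31507) (S (nat_lit 8265) (S (nat_lit 16526) (S (nat_lit 24452) (L (nat_lit 23175576))
(L (nat_lit 14525494)))
(S (nat_lit 36290) (S (nat_lit 48574) (S (nat_lit 30746) (L (nat_lit 23520485))
(L (nat_lit 3913977)))
(L (nat_lit 3592441)))
(S (nat_lit 56054) (S (nat_lit 11241) (S (nat_lit 42692) (L (nat_lit 29757750))
(L (nat_lit 3501741)))
(L (nat_lit 16084118)))
(L (nat_lit 25857543)))))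
(S (nat_lit 28029) (S (nat_lit 4175) (S (nat_lit 51942) (S (nat_lit 4631) (S (nat_lit 794) (S (nat_lit 21956) (S (nat_lit 44216) (S (nat_lit 32401) (S (nat_lit 10982) (L (nat_lit 375385))
(L (nat_lit 7057437)))
(L (nat_lit 7426957)))
(L (nat_lit 3561226)))
(L (nat_lit 21184601)))
(L (nat_lit 26366289)))
(L (nat_lit 7492462)))
(L (nat_lit 5923243)))
(L (nat_lit 4005302)))
(S (nat_lit 47793) (S (nat_lit 4175) (S (nat_lit 6370) (S (nat_lit 10761) (L (nat_lit 6408086))
(L (nat_lit 4108566)))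
(L (nat_lit 4043495)))
(S (nat_lit 23939) (S (nat_lit 57821) (S (nat_lit 5157) (S (nat_lit 794) (S (nat_lit 23701) (L (nat_lit 2766072))
(L (nat_lit 8008728)))
(L (nat_lit 20244901)))
(L (nat_lit 1527128)))
(L (nat_lit 19172888)))
(S (nat_lit 43703) (S (nat_lit 44216) (L (nat_lit 6468502))
(L (nat_lit 3908056)))
(L (nat_lit 25570018)))))
(L (nat_lit 25549252)))))
(S (nat_lit 51271) (S (nat_lit 4688) (S (nat_lit 11241) (S (nat_lit 43465) (S (nat_lit 13888) (S (nat_lit 10728) (L (nat_lit 10373571))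
(L (nat_lit 26543574)))
(L (nat_lit 13757718)))
(L (nat_lit 6973824)))
(L (nat_lit 15854806)))
(S (nat_lit 24452) (S (nat_lit 794) (S (nat_lit 19500) (S (nat_lit 20736) (S (nat_lit 56583) (S (nat_lit 5178) (S (nat_lit 12171) (L (nat_lit 29467213))
(L (nat_lit 21805096)))
(L (nat_lit 26369448)))
(L (nat_lit 21391499)))
(L (nat_lit 22112525)))
(L (nat_lit 10393045)))
(L (nat_lit 11069462)))
(S (nat_lit 44216) (S (nat_lit 33652) (S (nat_lit 11241) (S (nat_lit 12171) (S (nat_lit 36533) (L (nat_lit 6690615))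
(L (nat_lit 3926536)))
(L (nat_lit 26327254)))
(L (nat_lit 26329302)))
(L (nat_lit 11647894)))
(L (nat_lit 25646403)))))
(L (nat_lit 25304471)))))
(S (nat_lit 30468) (S (nat_lit 13434) (S (nat_lit 19500) (S (nat_lit 13416) (S (nat_lit 57310) (S (nat_lit 12414) (S (nat_lit 16053) (S (nat_lit 57539) (L (nat_lit 24538373))
(L (nat_lit 19797198)))
(L (nat_lit 22482169)))
(L (nat_lit 20986201)))
(L (nat_lit 27989357)))
(S (nat_lit 33180) (S (nat_lit 18516) (S (nat_lit 12414) (S (nat_lit 55581) (S (nat_lit 51699) (L (nat_lit 20813007))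
(L (nat_lit 27537462)))
(L (nat_lit 14601384)))
(L (nat_lit 16029273)))
(L (nat_lit 11111960)))
(S (nat_lit 52944) (S (nat_lit 50950) (S (nat_lit 39528) (S (nat_lit 33135) (L (nat_lit 26335440))
(L (nat_lit 23993453)))
(L (nat_lit 12126124)))
(L (nat_lit 20028985)))
(L (nat_lit 25429645)))))
(S (nat_lit 39264) (S (nat_lit 3164) (S (nat_lit 41032) (S (nat_lit 42250) (S (nat_lit 55160) (L (nat_lit 18091891))
(L (nat_lit 18999661)))
(L (nat_lit 14330937)))
(L (nat_lit 6985113)))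
(S (nat_lit 22928) (S (nat_lit 12414) (S (nat_lit 38990) (S (nat_lit 44159) (S (nat_lit 47793) (S (nat_lit 17544) (S (nat_lit 30661) (L (nat_lit 13740632))
(L (nat_lit 23197037)))
(L (nat_lit 26482199)))
(L (nat_lit 27922668)))
(L (nat_lit 10646038)))
(L (nat_lit 23248249)))
(L (nat_lit 664089)))
(S (nat_lit 42692) (S (nat_lit 43465) (S (nat_lit 40789) (L (nat_lit 25045168))
(L (nat_lit 24635713)))
(L (nat_lit 13986469)))
(L (nat_lit 25496205)))))
(S (nat_lit 59028) (S (nat_lit 9530) (S (nat_lit 31718) (S (nat_lit 34886) (L (nat_lit 12783226))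
(L (nat_lit 23268793)))
(L (nat_lit 13831897)))
(S (nat_lit 29294) (S (nat_lit 794) (S (nat_lit 28831) (S (nat_lit 35396) (L (nat_lit 9135491))
(L (nat_lit 8515213)))
(L (nat_lit 24481336)))
(L (nat_lit 26971409)))
(S (nat_lit 49058) (S (nat_lit 8069) (S (nat_lit 56054) (L (nat_lit 26482135))
(L (nat_lit 27385165)))
(L (nat_lit 13440243)))
(L (nat_lit 25564405)))))
(L (nat_lit 25836805)))))
(S (nat_lit 33198) (S (nat_lit 11422) (S (nat_lit 9530) (S (nat_lit 794) (S (nat_lit 51699) (S (nat_lit 5157) (S (nat_lit 3672) (L (nat_lit 29709359))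
(L (nat_lit 14803563)))
(L (nat_lit 26983464)))
(L (nat_lit 13263045)))
(L (nat_lit 26774806)))
(L (nat_lit 26334509)))
(S (nat_lit 31186) (S (nat_lit 55160) (S (nat_lit 54650) (S (nat_lit 6370) (S (nat_lit 57821) (S (nat_lit 794) (S (nat_lit 26089) (L (nat_lit 12215405))
(L (nat_lit 30784596)))
(L (nat_lit 9342358)))
(L (nat_lit 21147064)))
(L (nat_lit 19734913)))
(L (nat_lit 21826928)))
(L (nat_lit 27372109)))
(S (nat_lit 50950) (S (nat_lit 2977) (S (nat_lit 13864) (S (nat_lit 34886) (S (nat_lit 794) (S (nat_lit 29312) (L (nat_lit 26757257))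
(L (nat_lit 19044857)))
(L (nat_lit 9309590)))
(L (nat_lit 11308434)))
(S (nat_lit 37350) (L (nat_lit 1780653))
(L (nat_lit 26905807))))
(S (nat_lit 22741) (S (nat_lit 24452) (S (nat_lit 10728) (L (nat_lit 10208409))
(L (nat_lit 15566475)))
(L (nat_lit 778574)))
(S (nat_lit 42505) (S (nat_lit 7561) (S (nat_lit 53416) (L (nat_lit 26707691))
(L (nat_lit 19372057)))
(L (nat_lit 12772043)))
(L (nat_lit 25936038)))))
(L (nat_lit 25411201)))))
(S (nat_lit 52962) (S (nat_lit 15632) (S (nat_lit 29294) (S (nat_lit 50950) (S (nat_lit 6325) (S (nat_lit 16526) (S (nat_lit 29312) (L (nat_lit 4549357))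
(L (nat_lit 13405865)))
(L (nat_lit 26321645)))
(L (nat_lit 26332365)))
(L (nat_lit 22146253)))
(L (nat_lit 6418093)))
(S (nat_lit 35396) (S (nat_lit 11422) (S (nat_lit 794) (S (nat_lit 1504) (S (nat_lit 51699) (L (nat_lit 9554700))
(L (nat_lit 12706536)))
(L (nat_lit 12705546)))
(L (nat_lit 11046710)))
(L (nat_lit 21095661)))
(S (nat_lit 55160) (S (nat_lit 11241) (S (nat_lit 32178) (S (nat_lit 54859) (S (nat_lit 10728) (L (nat_lit 23444537))
(L (nat_lit 3497744)))
(L (nat_lit 5728534)))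
(L (nat_lit 3528463)))
(S (nat_lit 31005) (S (nat_lit 48589) (L (nat_lit 28685426))
(L (nat_lit 13748604)))
(S (nat_lit 50769) (S (nat_lit 24395) (S (nat_lit 37308) (S (nat_lit 53449) (L (nat_lit 28972582))
(L (nat_lit 19402507)))
(L (nat_lit 13740821)))
(L (nat_lit 6116874)))
(L (nat_lit 25212116)))))
(L (nat_lit 25544815)))))
(L (nat_lit 25526925)))))
(S (nat_lit 50232) (S (nat_lit 12637) (S (nat_lit 4655) (S (nat_lit 13339) (L (nat_lit 21927302))
(S (nat_lit 41720) (S (nat_lit 53416) (S (nat_lit 31935) (S (nat_lit 13864) (L (nat_lit 4711668))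
(L (nat_lit 26491990)))
(L (nat_lit 14314691)))
(L (nat_lit 27376982)))
(L (nat_lit 5775158))))
(S (nat_lit 24419) (S (nat_lit 794) (S (nat_lit 13921) (S (nat_lit 57821) (S (nat_lit 31935) (S (nat_lit 13888) (L (nat_lit 21099942))
(L (nat_lit 638299)))
(L (nat_lit 14314853)))
(L (nat_lit 19270872)))
(L (nat_lit 569238)))
(L (nat_lit 10643894)))
(S (nat_lit 44183) (S (nat_lit 509) (S (nat_lit 23747) (L (nat_lit 23956782))
(S (nat_lit 33652) (S (nat_lit 41720) (S (nat_lit 42692) (S (nat_lit 54859) (S (nat_lit 794) (S (nat_lit 18516) (S (nat_lit 5172) (L (nat_lit 9452217))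
(L (nat_lit 26610994)))
(L (nat_lit 24490168)))
(L (nat_lit 26744854)))
(L (nat_lit 12490294)))
(L (nat_lit 7801750)))
(L (nat_lit 27727958)))
(L (nat_lit 3634518))))
(L (nat_lit 13380758)))
(L (nat_lit 25613537)))))
(S (nat_lit 32401) (S (nat_lit 18293) (S (nat_lit 3937) (S (nat_lit 19500) (S (nat_lit 31935) (S (nat_lit 49013) (L (nat_lit 19132836))
(L (nat_lit 14314725)))
(L (nat_lit 14314693)))
(L (nat_lit 26885317)))
(L (nat_lit 26878341)))
(S (nat_lit 38057) (S (nat_lit 31935) (S (nat_lit 19500) (S (nat_lit 49013) (S (nat_lit 43465) (S (nat_lit 41720) (L (nat_lit 9957060))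
(L (nat_lit 12485014)))
(L (nat_lit 9101701)))
(L (nat_lit 8241765)))
(L (nat_lit 16015941)))
(L (nat_lit 17458373)))
(S (nat_lit 57821) (S (nat_lit 794) (S (nat_lit 31507) (S (nat_lit 37546) (S (nat_lit 31718) (S (nat_lit 5157) (L (nat_lit 29577605))
(L (nat_lit 8545778)))
(L (nat_lit 14412935)))
(L (nat_lit 23241520)))
(L (nat_lit 14261400)))
(S (nat_lit 3143) (L (nat_lit 19249029))
(L (nat_lit 14359333))))
(L (nat_lit 25647461)))))
(S (nat_lit 52165) (S (nat_lit 5172) (S (nat_lit 15632) (S (nat_lit 36819) (L (nat_lit 7835353))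
(L (nat_lit 13305212)))
(S (nat_lit 35396) (S (nat_lit 37498) (L (nat_lit 15583428))
(S (nat_lit 45853) (S (nat_lit 7561) (S (nat_lit 36290) (L (nat_lit 28610036))
(L (nat_lit 23596935)))
(L (nat_lit 23964032)))
(L (nat_lit 7179981))))
(S (nat_lit 55160) (S (nat_lit 19500) (S (nat_lit 2722) (L (nat_lit 31074721))
(L (nat_lit 4044052)))
(L (nat_lit 26807505)))
(L (nat_lit 25603651)))))
(S (nat_lit 24936) (S (nat_lit 17544) (S (nat_lit 29312) (S (nat_lit 33685) (S (nat_lit 794) (L (nat_lit 20082925))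
(L (nat_lit 9309590)))
(L (nat_lit 20233059)))
(L (nat_lit 12739177)))
(S (nat_lit 37308) (S (nat_lit 24452) (S (nat_lit 29294) (L (nat_lit 12700454))
(L (nat_lit 7257235)))
(L (nat_lit 13997785)))
(S (nat_lit 57072) (S (nat_lit 41720) (S (nat_lit 22260) (L (nat_lit 29625965))
(L (nat_lit 21868711)))
(L (nat_lit 15977252)))
(L (nat_lit 25479681)))))
(S (nat_lit 44700) (S (nat_lit 35817) (S (nat_lit 11954) (S (nat_lit 509) (S (nat_lit 13888) (S (nat_lit 6388) (L (nat_lit 17935158))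
(L (nat_lit 26984705)))
(L (nat_lit 8851194)))
(L (nat_lit 12802205)))
(L (nat_lit 23602333)))
(S (nat_lit 43291) (L (nat_lit 5723449))
(L (nat_lit 20263068))))
(L (nat_lit 25351560)))))
(L (nat_lit 25252327)))))
(L (nat_lit 25277161)))))
(S (nat_lit 23193) (S (nat_lit 13864) (S (nat_lit 1504) (S (nat_lit 11743) (S (nat_lit 794) (S (nat_lit 18293) (S (nat_lit 58044) (S (nat_lit 9548) (S (nat_lit 40500) (S (nat_lit 28831) (L (nat_lit 22351692))
(L (nat_lit 8818269)))
(L (nat_lit 17735826)))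
(L (nat_lit 14978684)))
(L (nat_lit 13405802)))
(L (nat_lit 9355876)))
(S (nat_lit 6497) (L (nat_lit 12672284))
(L (nat_lit 12904470))))
(S (nat_lit 31507) (S (nat_lit 9548) (S (nat_lit 1261) (S (nat_lit 29294) (S (nat_lit 972) (S (nat_lit 32401) (S (nat_lit 54859) (S (nat_lit 38722) (L (nat_lit 28808838))
(L (nat_lit 11004514)))
(L (nat_lit 16624227)))
(L (nat_lit 24504461)))
(L (nat_lit 26561677)))
(L (nat_lit 24505485)))
(L (nat_lit 13468262)))
(L (nat_lit 17099365)))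
(S (nat_lit 51271) (S (nat_lit 794) (S (nat_lit 48589) (S (nat_lit 32660) (S (nat_lit 0) (S (nat_lit 29249) (S (nat_lit 20736) (L (nat_lit 22300484))
(L (nat_lit 12454508)))
(L (nat_lit 18754149)))
(L (nat_lit 26648160)))
(L (nat_lit 30904936)))
(L (nat_lit 13756008)))
(L (nat_lit 13539941)))
(L (nat_lit 25633938)))))
(S (nat_lit 21268) (S (nat_lit 11743) (S (nat_lit 794) (S (nat_lit 21025) (S (nat_lit 9548) (S (nat_lit 18293) (S (nat_lit 40500) (S (nat_lit 5157) (L (nat_lit 22158161))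
(L (nat_lit 11421281)))
(L (nat_lit 18715240)))
(L (nat_lit 11405934)))
(L (nat_lit 17099365)))
(L (nat_lit 5161574)))
(L (nat_lit 13539941)))
(S (nat_lit 31507) (S (nat_lit 794) (S (nat_lit 18293) (S (nat_lit 49013) (S (nat_lit 58044) (S (nat_lit 28825) (L (nat_lit 29593013))
(L (nat_lit 18191992)))
(L (nat_lit 13405802)))
(L (nat_lit 22915213)))
(L (nat_lit 9355876)))
(S (nat_lit 25541) (L (nat_lit 10972242))
(L (nat_lit 1980694))))
(S (nat_lit 51271) (S (nat_lit 9548) (S (nat_lit 20736) (S (nat_lit 794) (S (nat_lit 52424) (S (nat_lit 39528) (S (nat_lit 40789) (S (nat_lit 50289) (L (nat_lit 29557300))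
(L (nat_lit 7148142)))
(L (nat_lit 27757163)))
(L (nat_lit 5642877)))
(L (nat_lit 9343596)))
(L (nat_lit 13545061)))
(L (nat_lit 291436)))
(L (nat_lit 2016871)))
(L (nat_lit 25465453)))))
(S (nat_lit 41032) (S (nat_lit 6589) (S (nat_lit 15840) (S (nat_lit 18293) (S (nat_lit 794) (S (nat_lit 9548) (S (nat_lit 58044) (S (nat_lit 2192) (L (nat_lit 29626095))
(L (nat_lit 1874607)))
(L (nat_lit 12783229)))
(L (nat_lit 9103501)))
(L (nat_lit 9309808)))
(S (nat_lit 39741) (S (nat_lit 54665) (L (nat_lit 26509716))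
(L (nat_lit 6871810)))
(L (nat_lit 8874692))))
(S (nat_lit 35604) (S (nat_lit 33198) (S (nat_lit 42250) (L (nat_lit 13238617))
(L (nat_lit 310937)))
(L (nat_lit 23634722)))
(S (nat_lit 55368) (S (nat_lit 56054) (S (nat_lit 42250) (L (nat_lit 13280440))
(L (nat_lit 13789832)))
(L (nat_lit 21237679)))
(L (nat_lit 25733303)))))
(S (nat_lit 26353) (S (nat_lit 6370) (S (nat_lit 794) (S (nat_lit 17317) (S (nat_lit 9046) (S (nat_lit 13921) (S (nat_lit 47597) (S (nat_lit 51942) (S (nat_lit 17782) (S (nat_lit 9061) (L (nat_lit 5025388))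
(L (nat_lit 26908017)))
(L (nat_lit 26493509)))
(L (nat_lit 8885046)))
(L (nat_lit 27337171)))
(L (nat_lit 26876047)))
(L (nat_lit 6996768)))
(L (nat_lit 5859847)))
(S (nat_lit 27027) (L (nat_lit 8481266))
(L (nat_lit 12838966))))
(S (nat_lit 26134) (S (nat_lit 21786) (S (nat_lit 9548) (S (nat_lit 1724) (S (nat_lit 10982) (L (nat_lit 2321878))
(L (nat_lit 21278748)))
(L (nat_lit 4791120)))
(L (nat_lit 17492261)))
(L (nat_lit 21535589)))
(S (nat_lit 45898) (S (nat_lit 9548) (S (nat_lit 13888) (S (nat_lit 5172) (L (nat_lit 22976961))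
(L (nat_lit 26941888)))
(L (nat_lit 26941454)))
(S (nat_lit 29222) (L (nat_lit 24033419))
(L (nat_lit 16935529))))
(L (nat_lit 25398000)))))
(S (nat_lit 46117) (S (nat_lit 18958) (S (nat_lit 794) (S (nat_lit 15331) (S (nat_lit 4655) (S (nat_lit 12896) (L (nat_lit 26467342))
(L (nat_lit 18013404)))
(L (nat_lit 4863228)))
(L (nat_lit 1266540)))
(L (nat_lit 14413061)))
(S (nat_lit 38722) (S (nat_lit 794) (S (nat_lit 54859) (S (nat_lit 23436) (S (nat_lit 54671) (S (nat_lit 1724) (L (nat_lit 7114321))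
(L (nat_lit 14015676)))
(L (nat_lit 17918664)))
(L (nat_lit 17918259)))
(L (nat_lit 14324028)))
(L (nat_lit 13512292)))
(S (nat_lit 58486) (S (nat_lit 794) (S (nat_lit 9548) (S (nat_lit 1724) (S (nat_lit 45916) (L (nat_lit 15065270))
(L (nat_lit 23531740)))
(L (nat_lit 12901187)))
(L (nat_lit 9341551)))
(L (nat_lit 13363461)))
(L (nat_lit 25732182)))))
(L (nat_lit 25932995)))))
(L (nat_lit 25499060)))))
(S (nat_lit 33628) (S (nat_lit 6866) (S (nat_lit 17782) (S (nat_lit 972) (S (nat_lit 40322) (L (nat_lit 5586554))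
(L (nat_lit 18681110)))
(S (nat_lit 20736) (S (nat_lit 33652) (S (nat_lit 58486) (L (nat_lit 11614134))
(L (nat_lit 7192162)))
(L (nat_lit 15928211)))
(S (nat_lit 40500) (S (nat_lit 5172) (L (nat_lit 13985907))
(L (nat_lit 17996723)))
(L (nat_lit 25310547)))))
(S (nat_lit 37546) (S (nat_lit 9067) (S (nat_lit 54650) (L (nat_lit 12291948))
(L (nat_lit 21172145)))
(S (nat_lit 28831) (S (nat_lit 794) (S (nat_lit 11954) (L (nat_lit 12914395))
(L (nat_lit 21171980)))
(L (nat_lit 26971408)))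
(S (nat_lit 48595) (S (nat_lit 24936) (S (nat_lit 59028) (L (nat_lit 7009664))
(L (nat_lit 21761417)))
(L (nat_lit 11996892)))
(L (nat_lit 25515557)))))
(S (nat_lit 57310) (S (nat_lit 6589) (S (nat_lit 1310) (S (nat_lit 57901) (L (nat_lit 18015539))
(L (nat_lit 16049856)))
(S (nat_lit 8069) (S (nat_lit 59028) (S (nat_lit 22486) (S (nat_lit 22928) (S (nat_lit 20273) (S (nat_lit 58044) (S (nat_lit 4631) (S (nat_lit 26152) (S (nat_lit 43280) (L (nat_lit 24296667))
(L (nat_lit 2700504)))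
(L (nat_lit 1954247)))
(L (nat_lit 20441259)))
(L (nat_lit 7889506)))
(L (nat_lit 1924555)))
(L (nat_lit 21260673)))
(L (nat_lit 21390377)))
(L (nat_lit 21174097)))
(L (nat_lit 21304144))))
(S (nat_lit 13312) (L (nat_lit 11616147))
(L (nat_lit 21487843))))
(L (nat_lit 25895296)))))
(S (nat_lit 26630) (S (nat_lit 19500) (S (nat_lit 28831) (L (nat_lit 30117132))
(L (nat_lit 9014680)))
(S (nat_lit 39264) (S (nat_lit 54650) (L (nat_lit 6754102))
(L (nat_lit 21172145)))
(S (nat_lit 59028) (S (nat_lit 4688) (S (nat_lit 50256) (S (nat_lit 41252) (L (nat_lit 9102849))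
(L (nat_lit 16869718)))
(L (nat_lit 8439734)))
(S (nat_lit 24452) (S (nat_lit 38722) (S (nat_lit 30492) (L (nat_lit 1811928))
(L (nat_lit 7921782)))
(L (nat_lit 14493283)))
(S (nat_lit 44216) (S (nat_lit 10728) (L (nat_lit 6371094))
(L (nat_lit 4015414)))
(L (nat_lit 25220430)))))
(L (nat_lit 25189769)))))
(S (nat_lit 46394) (S (nat_lit 9067) (S (nat_lit 54650) (L (nat_lit 12291948))
(L (nat_lit 21172145)))
(S (nat_lit 28831) (S (nat_lit 794) (S (nat_lit 11954) (L (nat_lit 12914395))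
(L (nat_lit 21171980)))
(L (nat_lit 26971408)))
(S (nat_lit 48595) (S (nat_lit 24936) (S (nat_lit 59028) (L (nat_lit 14323531))
(L (nat_lit 21761417)))
(L (nat_lit 11996892)))
(L (nat_lit 25668626)))))
(L (nat_lit 25727315)))))
(S (nat_lit 53392) (S (nat_lit 1504) (S (nat_lit 9485) (S (nat_lit 26630) (L (nat_lit 342902))
(L (nat_lit 584298)))
(S (nat_lit 29249) (S (nat_lit 44183) (S (nat_lit 48589) (L (nat_lit 28655200))
(L (nat_lit 27596396)))
(L (nat_lit 27542115)))
(S (nat_lit 49013) (S (nat_lit 5157) (L (nat_lit 5810809))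
(L (nat_lit 1533544)))
(L (nat_lit 25822509)))))
(S (nat_lit 21268) (S (nat_lit 15143) (S (nat_lit 35095) (L (nat_lit 354926))
(L (nat_lit 3403372)))
(S (nat_lit 34907) (S (nat_lit 58044) (S (nat_lit 20736) (L (nat_lit 10630779))
(L (nat_lit 7211628)))
(L (nat_lit 14903908)))
(S (nat_lit 54671) (S (nat_lit 9485) (L (nat_lit 28383857))
(L (nat_lit 1843823)))
(L (nat_lit 25252328)))))
(S (nat_lit 41032) (S (nat_lit 10761) (S (nat_lit 21025) (L (nat_lit 1502827))
(L (nat_lit 15953508)))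
(S (nat_lit 30525) (L (nat_lit 12940342))
(S (nat_lit 50289) (S (nat_lit 49076) (L (nat_lit 12055139))
(L (nat_lit 5053039)))
(L (nat_lit 25445462)))))
(L (nat_lit 25281127)))))
(L (nat_lit 25594230)))))
(S (nat_lit 42957) (S (nat_lit 1504) (S (nat_lit 17317) (S (nat_lit 3672) (S (nat_lit 27398) (L (nat_lit 9932723))
(S (nat_lit 49076) (S (nat_lit 13864) (S (nat_lit 17544) (S (nat_lit 0) (L (nat_lit 22146502))
(L (nat_lit 12837473)))
(L (nat_lit 1948359)))
(L (nat_lit 26558050)))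
(L (nat_lit 10292659))))
(S (nat_lit 23436) (S (nat_lit 16769) (S (nat_lit 48589) (S (nat_lit 57072) (S (nat_lit 22260) (L (nat_lit 23369487))
(L (nat_lit 13309702)))
(L (nat_lit 21084967)))
(L (nat_lit 27956593)))
(S (nat_lit 36533) (S (nat_lit 33135) (S (nat_lit 13921) (S (nat_lit 26630) (S (nat_lit 794) (L (nat_lit 10369172))
(L (nat_lit 14593637)))
(L (nat_lit 31110499)))
(L (nat_lit 14551347)))
(L (nat_lit 31110498)))
(S (nat_lit 56297) (S (nat_lit 0) (S (nat_lit 13864) (S (nat_lit 11743) (L (nat_lit 5618299))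
(L (nat_lit 26449520)))
(L (nat_lit 1752442)))
(L (nat_lit 14425697)))
(L (nat_lit 25461487)))))
(S (nat_lit 43200) (S (nat_lit 15632) (S (nat_lit 33198) (S (nat_lit 13864) (L (nat_lit 23554087))
(L (nat_lit 26611307)))
(L (nat_lit 23962668)))
(S (nat_lit 35396) (S (nat_lit 5178) (S (nat_lit 13864) (S (nat_lit 51699) (S (nat_lit 38280) (L (nat_lit 29797093))
(L (nat_lit 20885674)))
(L (nat_lit 352790)))
(L (nat_lit 26557526)))
(L (nat_lit 26613107)))
(S (nat_lit 55160) (S (nat_lit 34886) (S (nat_lit 5178) (S (nat_lit 30746) (S (nat_lit 49058) (L (nat_lit 15339306))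
(L (nat_lit 14456423)))
(L (nat_lit 13756106)))
(L (nat_lit 16651635)))
(L (nat_lit 15338875)))
(L (nat_lit 25602625)))))
(L (nat_lit 25568833)))))
(S (nat_lit 37081) (S (nat_lit 0) (S (nat_lit 794) (S (nat_lit 13864) (S (nat_lit 32660) (S (nat_lit 49076) (S (nat_lit 26134) (L (nat_lit 30449075))
(L (nat_lit 1710893)))
(L (nat_lit 7769941)))
(S (nat_lit 39056) (L (nat_lit 13505094))
(L (nat_lit 1565288))))
(L (nat_lit 12872290)))
(L (nat_lit 12773991)))
(S (nat_lit 19764) (S (nat_lit 6325) (S (nat_lit 794) (S (nat_lit 41252) (L (nat_lit 9613916))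
(L (nat_lit 1448854)))
(L (nat_lit 1612412)))
(S (nat_lit 26089) (S (nat_lit 43465) (S (nat_lit 34907) (S (nat_lit 49076) (L (nat_lit 29925556))
(L (nat_lit 7500275)))
(L (nat_lit 30605780)))
(L (nat_lit 14326565)))
(S (nat_lit 45853) (S (nat_lit 35396) (S (nat_lit 48574) (S (nat_lit 9061) (L (nat_lit 29409490))
(L (nat_lit 23177132)))
(L (nat_lit 14020288)))
(L (nat_lit 13241721)))
(L (nat_lit 25803786)))))
(S (nat_lit 39528) (S (nat_lit 7561) (S (nat_lit 9530) (S (nat_lit 35817) (L (nat_lit 7456377))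
(L (nat_lit 23998688)))
(L (nat_lit 26293863)))
(S (nat_lit 27325) (S (nat_lit 21060) (L (nat_lit 9901970))
(S (nat_lit 44706) (S (nat_lit 33198) (S (nat_lit 12171) (L (nat_lit 28761126))
(L (nat_lit 21100042)))
(L (nat_lit 23962732)))
(L (nat_lit 7530931))))
(S (nat_lit 47089) (S (nat_lit 36533) (S (nat_lit 52944) (S (nat_lit 27833) (L (nat_lit 18887494))
(L (nat_lit 7935921)))
(L (nat_lit 1794413)))
(L (nat_lit 11200525)))
(L (nat_lit 25376384)))))
(L (nat_lit 25206163)))))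
(S (nat_lit 56845) (S (nat_lit 15143) (S (nat_lit 10704) (S (nat_lit 46664) (L (nat_lit 23413540))
(S (nat_lit 49013) (S (nat_lit 54859) (S (nat_lit 49076) (S (nat_lit 13864) (L (nat_lit 29763734))
(L (nat_lit 26263147)))
(L (nat_lit 9594291)))
(L (nat_lit 27726134)))
(L (nat_lit 13895509))))
(S (nat_lit 30468) (S (nat_lit 2192) (S (nat_lit 37308) (S (nat_lit 8069) (S (nat_lit 24395) (L (nat_lit 29557423))
(L (nat_lit 21487873)))
(L (nat_lit 1406544)))
(L (nat_lit 14592608)))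
(L (nat_lit 1526045)))
(S (nat_lit 50232) (S (nat_lit 794) (S (nat_lit 32660) (S (nat_lit 8069) (S (nat_lit 13864) (S (nat_lit 509) (L (nat_lit 3916712))
(L (nat_lit 12705084)))
(L (nat_lit 1850742)))
(L (nat_lit 858864)))
(L (nat_lit 1551035)))
(S (nat_lit 55020) (L (nat_lit 23334801))
(L (nat_lit 769831))))
(L (nat_lit 25530772)))))
(S (nat_lit 34907) (S (nat_lit 40970) (S (nat_lit 48589) (L (nat_lit 16688739))
(L (nat_lit 27885932)))
(S (nat_lit 54650) (S (nat_lit 8265) (S (nat_lit 3672) (L (nat_lit 23093706))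
(L (nat_lit 18951705)))
(L (nat_lit 13717849)))
(L (nat_lit 21237680))))
(S (nat_lit 54671) (S (nat_lit 14545) (L (nat_lit 21183397))
(S (nat_lit 24395) (S (nat_lit 13434) (S (nat_lit 9485) (S (nat_lit 38990) (L (nat_lit 447367))
(L (nat_lit 8088097)))
(L (nat_lit 21250981)))
(S (nat_lit 15783) (L (nat_lit 15298598))
(L (nat_lit 13757813))))
(L (nat_lit 869035))))
(L (nat_lit 25428434)))))
(L (nat_lit 25450609)))))
(S (nat_lit 21268) (S (nat_lit 3164) (S (nat_lit 12896) (S (nat_lit 2722) (S (nat_lit 11422) (S (nat_lit 6866) (L (nat_lit 8281600))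
(L (nat_lit 14571562)))
(L (nat_lit 21798433)))
(S (nat_lit 22486) (S (nat_lit 38280) (S (nat_lit 21786) (S (nat_lit 4175) (L (nat_lit 21249177))
(L (nat_lit 3841965)))
(L (nat_lit 21261325)))
(L (nat_lit 14583400)))
(S (nat_lit 42250) (S (nat_lit 20558) (S (nat_lit 4631) (L (nat_lit 14412036))
(L (nat_lit 7917597)))
(L (nat_lit 3985801)))
(L (nat_lit 25570980)))))
(S (nat_lit 32660) (S (nat_lit 38280) (S (nat_lit 0) (S (nat_lit 13371) (S (nat_lit 26134) (L (nat_lit 6780054))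
(L (nat_lit 13785309)))
(L (nat_lit 14327682)))
(L (nat_lit 19666956)))
(S (nat_lit 45688) (S (nat_lit 26134) (L (nat_lit 21097744))
(L (nat_lit 14289706)))
(L (nat_lit 6212106))))
(S (nat_lit 52424) (S (nat_lit 18293) (S (nat_lit 3242) (L (nat_lit 6418032))
(S (nat_lit 43200) (L (nat_lit 2013800))
(L (nat_lit 5587581))))
(S (nat_lit 38057) (S (nat_lit 794) (S (nat_lit 13864) (S (nat_lit 22741) (L (nat_lit 23389573))
(L (nat_lit 30657681)))
(L (nat_lit 14392130)))
(L (nat_lit 26459748)))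
(S (nat_lit 57821) (S (nat_lit 10761) (S (nat_lit 56583) (S (nat_lit 49076) (L (nat_lit 8578582))
(L (nat_lit 13774522)))
(L (nat_lit 19435433)))
(L (nat_lit 9529966)))
(L (nat_lit 25480302)))))
(L (nat_lit 25346728)))))
(S (nat_lit 22928) (S (nat_lit 8069) (S (nat_lit 11559) (L (nat_lit 14552649))
(S (nat_lit 49076) (S (nat_lit 1724) (S (nat_lit 37308) (S (nat_lit 13864) (S (nat_lit 37775) (S (nat_lit 15137) (L (nat_lit 18509061))
(L (nat_lit 10097552)))
(L (nat_lit 14424244)))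
(L (nat_lit 26647138)))
(L (nat_lit 14587495)))
(S (nat_lit 9710) (L (nat_lit 13458536))
(L (nat_lit 13786365))))
(L (nat_lit 14257464))))
(S (nat_lit 27833) (S (nat_lit 19500) (S (nat_lit 49076) (S (nat_lit 31186) (L (nat_lit 10358228))
(L (nat_lit 17437944)))
(L (nat_lit 8057007)))
(L (nat_lit 15806391)))
(S (nat_lit 47597) (S (nat_lit 55768) (L (nat_lit 7230638))
(S (nat_lit 57310) (S (nat_lit 51271) (S (nat_lit 20273) (S (nat_lit 39264) (S (nat_lit 51699) (L (nat_lit 23953866))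
(L (nat_lit 10021014)))
(L (nat_lit 11102597)))
(L (nat_lit 21184665)))
(S (nat_lit 52402) (S (nat_lit 31325) (S (nat_lit 43465) (S (nat_lit 480) (S (nat_lit 35095) (L (nat_lit 15736445))
(L (nat_lit 13276072)))
(L (nat_lit 1812953)))
(L (nat_lit 13885317)))
(L (nat_lit 2583274)))
(L (nat_lit 8052880))))
(L (nat_lit 13421925))))
(L (nat_lit 25629939)))))
(S (nat_lit 42692) (S (nat_lit 16769) (S (nat_lit 11241) (S (nat_lit 39264) (S (nat_lit 49058) (S (nat_lit 4655) (L (nat_lit 19997551))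
(L (nat_lit 8045315)))
(L (nat_lit 15836792)))
(L (nat_lit 23897103)))
(S (nat_lit 31005) (S (nat_lit 50950) (S (nat_lit 509) (S (nat_lit 8572) (S (nat_lit 9485) (L (nat_lit 7214516))
(L (nat_lit 467859)))
(L (nat_lit 26912814)))
(L (nat_lit 7756860)))
(L (nat_lit 22213837)))
(S (nat_lit 50769) (S (nat_lit 6388) (S (nat_lit 44685) (S (nat_lit 38280) (L (nat_lit 29009998))
(L (nat_lit 24033290)))
(L (nat_lit 7826451)))
(S (nat_lit 34692) (L (nat_lit 20030382))
(L (nat_lit 3927245))))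
(L (nat_lit 25862692)))))
(S (nat_lit 36533) (S (nat_lit 24772) (L (nat_lit 23141197))
(S (nat_lit 41550) (S (nat_lit 33135) (S (nat_lit 794) (S (nat_lit 12637) (S (nat_lit 13864) (S (nat_lit 6370) (L (nat_lit 29856487))
(L (nat_lit 16446657)))
(L (nat_lit 22472899)))
(L (nat_lit 23379099)))
(L (nat_lit 13953605)))
(L (nat_lit 256588)))
(L (nat_lit 23142941))))
(S (nat_lit 56297) (S (nat_lit 2022) (S (nat_lit 13371) (S (nat_lit 48574) (S (nat_lit 35095) (S (nat_lit 32401) (L (nat_lit 15747353))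
(L (nat_lit 24258445)))
(L (nat_lit 3615352)))
(L (nat_lit 11647922)))
(S (nat_lit 17826) (L (nat_lit 1628472))
(L (nat_lit 13884536))))
(S (nat_lit 21786) (S (nat_lit 49013) (S (nat_lit 56054) (L (nat_lit 21238701))
(L (nat_lit 13982842)))
(L (nat_lit 14524565)))
(S (nat_lit 41550) (S (nat_lit 49076) (S (nat_lit 42505) (L (nat_lit 23935016))
(L (nat_lit 7499500)))
(L (nat_lit 14323529)))
(L (nat_lit 25723091)))))
(L (nat_lit 25635892)))))
(L (nat_lit 25315879)))))
(S (nat_lit 41032) (S (nat_lit 8069) (S (nat_lit 2722) (S (nat_lit 20391) (L (nat_lit 19021053))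
(S (nat_lit 33198) (S (nat_lit 6866) (S (nat_lit 39264) (S (nat_lit 26152) (L (nat_lit 28709447))
(L (nat_lit 21192784)))
(L (nat_lit 13833820)))
(L (nat_lit 12706163)))
(L (nat_lit 23959047))))
(S (nat_lit 22486) (S (nat_lit 9067) (S (nat_lit 9530) (S (nat_lit 9046) (S (nat_lit 13921) (L (nat_lit 12874902))
(L (nat_lit 14314635)))
(L (nat_lit 23413536)))
(L (nat_lit 21869861)))
(S (nat_lit 28831) (S (nat_lit 6866) (S (nat_lit 9485) (S (nat_lit 15143) (L (nat_lit 13536872))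
(L (nat_lit 14295197)))
(L (nat_lit 21456165)))
(L (nat_lit 21076912)))
(S (nat_lit 48595) (S (nat_lit 9061) (S (nat_lit 51699) (L (nat_lit 2448921))
(L (nat_lit 7465553)))
(L (nat_lit 23180200)))
(L (nat_lit 25528044)))))
(S (nat_lit 42250) (S (nat_lit 22563) (L (nat_lit 13985844))
(S (nat_lit 35604) (S (nat_lit 13434) (S (nat_lit 12896) (S (nat_lit 509) (S (nat_lit 10728) (S (nat_lit 26152) (S (nat_lit 8572) (S (nat_lit 13864) (L (nat_lit 11996796))
(L (nat_lit 22374850)))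
(L (nat_lit 21555242)))
(L (nat_lit 21051242)))
(L (nat_lit 23488683)))
(L (nat_lit 8161936)))
(L (nat_lit 10021536)))
(L (nat_lit 22585401)))
(L (nat_lit 23628028))))
(L (nat_lit 25474101)))))
(S (nat_lit 27833) (S (nat_lit 9061) (S (nat_lit 8572) (S (nat_lit 12896) (S (nat_lit 10982) (S (nat_lit 21786) (S (nat_lit 31718) (L (nat_lit 9521075))
(L (nat_lit 13856451)))
(L (nat_lit 21062924)))
(L (nat_lit 26325706)))
(L (nat_lit 23391244)))
(S (nat_lit 28336) (S (nat_lit 55368) (S (nat_lit 17782) (S (nat_lit 18958) (S (nat_lit 10982) (L (nat_lit 27843622))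
(L (nat_lit 23926251)))
(L (nat_lit 1564519)))
(L (nat_lit 16357289)))
(L (nat_lit 10636208)))
(S (nat_lit 48100) (S (nat_lit 12896) (S (nat_lit 53416) (S (nat_lit 10982) (S (nat_lit 37775) (L (nat_lit 19218305))
(L (nat_lit 20714987)))
(L (nat_lit 26325706)))
(L (nat_lit 8280110)))
(L (nat_lit 3534444)))
(L (nat_lit 25189710)))))
(S (nat_lit 28825) (S (nat_lit 1724) (S (nat_lit 13864) (S (nat_lit 6866) (L (nat_lit 21079985))
(L (nat_lit 13982627)))
(L (nat_lit 26905966)))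
(S (nat_lit 20474) (L (nat_lit 3679091))
(L (nat_lit 14459062))))
(S (nat_lit 48589) (S (nat_lit 16769) (S (nat_lit 56054) (L (nat_lit 9934457))
(L (nat_lit 27370004)))
(S (nat_lit 36533) (S (nat_lit 49076) (S (nat_lit 32660) (L (nat_lit 7855227))
(L (nat_lit 17647808)))
(L (nat_lit 14421609)))
(S (nat_lit 56297) (S (nat_lit 54671) (L (nat_lit 2597815))
(L (nat_lit 27337424)))
(L (nat_lit 25477860)))))
(L (nat_lit 25676133)))))
(S (nat_lit 47597) (S (nat_lit 17055) (S (nat_lit 5178) (S (nat_lit 20583) (L (nat_lit 10128888))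
(S (nat_lit 49076) (S (nat_lit 5157) (L (nat_lit 3644181))
(L (nat_lit 16687713)))
(L (nat_lit 10292659))))
(S (nat_lit 24942) (S (nat_lit 45853) (S (nat_lit 11422) (L (nat_lit 30117230))
(L (nat_lit 21160144)))
(L (nat_lit 23248089)))
(S (nat_lit 44706) (S (nat_lit 16053) (S (nat_lit 38057) (S (nat_lit 45853) (L (nat_lit 27496044))
(L (nat_lit 27858375)))
(L (nat_lit 23328165)))
(L (nat_lit 26905902)))
(L (nat_lit 25566291)))))
(S (nat_lit 36819) (S (nat_lit 15632) (S (nat_lit 31935) (S (nat_lit 509) (S (nat_lit 6325) (S (nat_lit 794) (L (nat_lit 9628182))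
(L (nat_lit 14552649)))
(L (nat_lit 26709735)))
(L (nat_lit 14453418)))
(L (nat_lit 16883636)))
(S (nat_lit 35396) (S (nat_lit 57310) (S (nat_lit 35817) (L (nat_lit 714990))
(L (nat_lit 12848951)))
(L (nat_lit 13410355)))
(S (nat_lit 55160) (S (nat_lit 43465) (L (nat_lit 28675541))
(L (nat_lit 9047948)))
(L (nat_lit 25512355)))))
(S (nat_lit 56583) (S (nat_lit 12896) (S (nat_lit 17410) (L (nat_lit 23396795))
(S (nat_lit 57310) (S (nat_lit 49076) (S (nat_lit 45898) (S (nat_lit 13921) (L (nat_lit 2930278))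
(L (nat_lit 9072130)))
(L (nat_lit 23992772)))
(L (nat_lit 27773157)))
(L (nat_lit 1974675))))
(L (nat_lit 23259526)))
(L (nat_lit 25336494)))))
(L (nat_lit 25925712)))))
(L (nat_lit 25413218)))))
(L (nat_lit 25541219)))))
(L (nat_lit 25927200)))))

theorem rb264_1 : run 4 lb264 [] tb264_1 kb264 (P4 4 2472 2352 6241 2352 0 0 1 0) [] = true := by
  decide +kernel

noncomputable def tb246_0_10 : Tr :=
(S (nat_lit 1732) (S (nat_lit 15371) (S (nat_lit 1290) (S (nat_lit 1215) (S (nat_lit 37274) (S (nat_lit 1246) (S (nat_lit 1763) (S (nat_lit 1240) (S (nat_lit 1262) (S (nat_lit 15309) (S (nat_lit 1277) (S (nat_lit 1701) (S (nat_lit 21750) (S (nat_lit 15340) (S (nat_lit 37324) (S (nat_lit 1743) (S (nat_lit 10966) (S (nat_lit 48301) (S (nat_lit 47) (S (nat_lit 49148) (S (nat_lit 39170) (S (nat_lit 40575) (S (nat_lit 40525) (S (nat_lit 10949) (S (nat_lit 15351) (S (nat_lit 40562) (S (nat_lit 49150) (S (nat_lit 39137) (S (nat_lit 48340) (S (nat_lit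 34082) (S (nat_lit 25789) (S (nat_lit 54993) (D (nat_lit 15) (nat_lit 7096428) (nat_lit 25759144) (nat_lit 213845542120))
(L (nat_lit 22883344)))
(L (nat_lit 27933925)))
(S (nat_lit 36514) (S (nat_lit 51659) (S (nat_lit 3044) (D (nat_lit 15) (nat_lit 4020651) (nat_lit 25758989) (nat_lit 213849740352))
(L (nat_lit 27829860)))
(L (nat_lit 29998370)))
(L (nat_lit 27856177))))
(L (nat_lit 4900776)))
(L (nat_lit 25051362)))
(L (nat_lit 31114560)))
(L (nat_lit 27807009)))
(L (nat_lit 308119)))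
(L (nat_lit 215918)))
(L (nat_lit 10338357)))
(L (nat_lit 10306180)))
(L (nat_lit 29602530)))
(L (nat_lit 11342445)))
(L (nat_lit 19166629)))
(L (nat_lit 11211601)))
(L (nat_lit 21857704)))
(L (nat_lit 20409451)))
(L (nat_lit 30592237)))
(L (nat_lit 1786171)))
(L (nat_lit 30901995)))
(L (nat_lit 20222764)))
(L (nat_lit 11422801)))
(L (nat_lit 1819431)))
(L (nat_lit 12623453)))
(L (nat_lit 20213775)))
(S (nat_lit 42394) (L (nat_lit 13235242))
(L (nat_lit 12699868))))
(L (nat_lit 10997604)))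
(L (nat_lit 20182094)))
(S (nat_lit 20979) (S (nat_lit 986) (S (nat_lit 1958) (S (nat_lit 30724) (S (nat_lit 35115) (L (nat_lit 10334386))
(L (nat_lit 9527952)))
(L (nat_lit 14291325)))
(L (nat_lit 13206877)))
(S (nat_lit 20750) (S (nat_lit 41497) (S (nat_lit 41547) (S (nat_lit 19806) (S (nat_lit 40525) (L (nat_lit 14247082))
(L (nat_lit 16852820)))
(L (nat_lit 15650982)))
(L (nat_lit 27345547)))
(L (nat_lit 452820)))
(S (nat_lit 40514) (S (nat_lit 8823) (S (nat_lit 17496) (L (nat_lit 435095))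
(L (nat_lit 22242785)))
(S (nat_lit 44470) (L (nat_lit 13821576))
(L (nat_lit 1406544))))
(L (nat_lit 25793991)))))
(S (nat_lit 40743) (S (nat_lit 17527) (S (nat_lit 8779) (S (nat_lit 1969) (S (nat_lit 10966) (S (nat_lit 1240) (L (nat_lit 28742379))
(L (nat_lit 20029327)))
(L (nat_lit 433755)))
(L (nat_lit 14254362)))
(S (nat_lit 28461) (L (nat_lit 26493047))
(L (nat_lit 7930426))))
(S (nat_lit 37291) (S (nat_lit 1743) (S (nat_lit 14) (S (nat_lit 40500) (L (nat_lit 352972))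
(L (nat_lit 9533005)))
(L (nat_lit 26806730)))
(L (nat_lit 20814957)))
(S (nat_lit 57055) (S (nat_lit 2019) (S (nat_lit 1969) (S (nat_lit 1743) (L (nat_lit 13989012))
(L (nat_lit 20807949)))
(L (nat_lit 20349211)))
(S (nat_lit 55996) (L (nat_lit 13306759))
(L (nat_lit 26479244))))
(L (nat_lit 25282249)))))
(L (nat_lit 25768104)))))
(S (nat_lit 21054) (S (nat_lit 15356) (S (nat_lit 1701) (S (nat_lit 40575) (S (nat_lit 21722) (S (nat_lit 10999) (S (nat_lit 15309) (L (nat_lit 28560804))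
(L (nat_lit 8126933)))
(L (nat_lit 7979810)))
(L (nat_lit 7791234)))
(L (nat_lit 24240333)))
(S (nat_lit 21465) (S (nat_lit 50488) (S (nat_lit 17558) (L (nat_lit 4503476))
(L (nat_lit 2006482)))
(L (nat_lit 13315228)))
(S (nat_lit 41229) (S (nat_lit 40514) (S (nat_lit 10966) (L (nat_lit 10323380))
(L (nat_lit 8225298)))
(L (nat_lit 17682787)))
(L (nat_lit 25768011)))))
(S (nat_lit 35120) (S (nat_lit 15309) (S (nat_lit 10935) (S (nat_lit 28972) (L (nat_lit 2645339))
(S (nat_lit 41243) (S (nat_lit 1763) (S (nat_lit 21004) (S (nat_lit 10997) (S (nat_lit 1246) (S (nat_lit 39592) (S (nat_lit 21722) (S (nat_lit 2019) (S (nat_lit 41271) (S (nat_lit 48323) (S (nat_lit 21750) (S (nat_lit 57086) (S (nat_lit 8762) (S (nat_lit 9962) (S (nat_lit 17571) (S (nat_lit 21512) (S (nat_lit 19789) (S (nat_lit 58857) (S (nat_lit 25463) (S (nat_lit 36619) (S (nat_lit 16218) (S (nat_lit 34465) (S (nat_lit 5014) (S (nat_lit 16691) (D (nat_lit 13) (nat_lit 27918704)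 (nat_lit 1853830) (nat_lit 6684903684))
(L (nat_lit 31165993)))
(L (nat_lit 27996356)))
(L (nat_lit 19341219)))
(L (nat_lit 29903105)))
(L (nat_lit 19740931)))
(S (nat_lit 56473) (S (nat_lit 32245) (S (nat_lit 43368) (D (nat_lit 15) (nat_lit 29032782) (nat_lit 19666252) (nat_lit 43052472516))
(L (nat_lit 30020075)))
(L (nat_lit 20840839)))
(L (nat_lit 23217991))))
(L (nat_lit 30652437)))
(L (nat_lit 2960111)))
(L (nat_lit 810408)))
(L (nat_lit 6485527)))
(L (nat_lit 31032743)))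
(L (nat_lit 1264189)))
(L (nat_lit 15539844)))
(L (nat_lit 22508619)))
(L (nat_lit 22131962)))
(L (nat_lit 27270892)))
(L (nat_lit 20120056)))
(L (nat_lit 31000006)))
(L (nat_lit 18575369)))
(L (nat_lit 11383957)))
(L (nat_lit 1743758)))
(L (nat_lit 6713057)))
(L (nat_lit 12640535)))
(L (nat_lit 16850584))))
(L (nat_lit 1853063)))
(S (nat_lit 35073) (S (nat_lit 8748) (S (nat_lit 39542) (L (nat_lit 29001194))
(L (nat_lit 27666085)))
(L (nat_lit 20979504)))
(S (nat_lit 54837) (S (nat_lit 39570) (S (nat_lit 50510) (L (nat_lit 9561740))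
(L (nat_lit 12902453)))
(L (nat_lit 16852818)))
(L (nat_lit 25920967)))))
(S (nat_lit 54884) (S (nat_lit 15334) (S (nat_lit 8748) (S (nat_lit 40514) (L (nat_lit 7817400))
(L (nat_lit 7766682)))
(L (nat_lit 16836230)))
(S (nat_lit 35098) (S (nat_lit 1246) (S (nat_lit 10935) (S (nat_lit 1279) (L (nat_lit 21045723))
(L (nat_lit 20153787)))
(L (nat_lit 21029351)))
(L (nat_lit 14492324)))
(S (nat_lit 54862) (S (nat_lit 28631) (S (nat_lit 1279) (L (nat_lit 10580655))
(L (nat_lit 20222735)))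
(S (nat_lit 48323) (S (nat_lit 1246) (S (nat_lit 48301) (S (nat_lit 21750) (S (nat_lit 20778) (L (nat_lit 5709500))
(L (nat_lit 12014436)))
(L (nat_lit 4445037)))
(L (nat_lit 27276968)))
(L (nat_lit 20123471)))
(L (nat_lit 4481743))))
(L (nat_lit 25210508)))))
(L (nat_lit 25900260)))))
(S (nat_lit 40818) (S (nat_lit 972) (S (nat_lit 986) (S (nat_lit 1246) (S (nat_lit 30730) (L (nat_lit 14441611))
(L (nat_lit 13704797)))
(L (nat_lit 20788417)))
(S (nat_lit 20750) (S (nat_lit 28554) (S (nat_lit 50488) (S (nat_lit 1003) (S (nat_lit 54912) (S (nat_lit 19806) (S (nat_lit 41276) (S (nat_lit 1277) (S (nat_lit 41547) (S (nat_lit 10935) (S (nat_lit 1246) (S (nat_lit 17527) (S (nat_lit 1944) (S (nat_lit 48323) (S (nat_lit 57099) (S (nat_lit 1215) (S (nat_lit 15340) (S (nat_lit 10966) (S (nat_lit 19690) (S (nat_lit 41497) (S (nat_lit 20778) (S (nat_lit 5338) (S (nat_lit 33745) (S (nat_lit 2770) (S (nat_lit 26759) (S (nat_lit 43163) (S (nat_lit 4714)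 (D (nat_lit 9) (nat_lit 27861169) (nat_lit 19672236) (nat_lit 137472745539))
(L (nat_lit 28529088)))
(L (nat_lit 21404858)))
(L (nat_lit 21935275)))
(L (nat_lit 28529121)))
(L (nat_lit 29040067)))
(S (nat_lit 7194) (S (nat_lit 13755) (S (nat_lit 5200) (S (nat_lit 24307) (S (nat_lit 3742) (S (nat_lit 27002) (D (nat_lit 9) (nat_lit 27865410) (nat_lit 25765283) (nat_lit 137640353895))
(L (nat_lit 13544133)))
(L (nat_lit 28919043)))
(L (nat_lit 19073837)))
(L (nat_lit 28918051)))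
(L (nat_lit 28915971)))
(L (nat_lit 5135846))))
(L (nat_lit 22523002)))
(L (nat_lit 6908452)))
(L (nat_lit 18882351)))
(L (nat_lit 432983)))
(L (nat_lit 24190362)))
(L (nat_lit 19051306)))
(L (nat_lit 27603552)))
(L (nat_lit 20844751)))
(L (nat_lit 26529189)))
(L (nat_lit 6940067)))
(L (nat_lit 9259151)))
(L (nat_lit 793233)))
(L (nat_lit 9136579)))
(L (nat_lit 20165506)))
(L (nat_lit 24297850)))
(L (nat_lit 22541664)))
(L (nat_lit 14423654)))
(L (nat_lit 14534662)))
(L (nat_lit 15339897)))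
(L (nat_lit 2717095)))
(S (nat_lit 40514) (S (nat_lit 17558) (S (nat_lit 8779) (L (nat_lit 13959770))
(L (nat_lit 1467976)))
(L (nat_lit 7497356)))
(L (nat_lit 25603255)))))
(S (nat_lit 20736) (S (nat_lit 1715) (S (nat_lit 15351) (L (nat_lit 29441608))
(L (nat_lit 22095352)))
(S (nat_lit 21479) (S (nat_lit 40768) (S (nat_lit 15309) (S (nat_lit 28526) (S (nat_lit 21529) (S (nat_lit 10935) (S (nat_lit 48351) (L (nat_lit 13913892))
(L (nat_lit 22820129)))
(L (nat_lit 681446)))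
(L (nat_lit 22846853)))
(L (nat_lit 10292975)))
(L (nat_lit 7366101)))
(L (nat_lit 7792660)))
(S (nat_lit 41243) (S (nat_lit 30699) (S (nat_lit 40547) (L (nat_lit 28855521))
(L (nat_lit 27270551)))
(S (nat_lit 55961) (S (nat_lit 40547) (L (nat_lit 22219693))
(L (nat_lit 17997402)))
(L (nat_lit 17008282))))
(L (nat_lit 25793990)))))
(S (nat_lit 40500) (S (nat_lit 11010) (S (nat_lit 21770) (S (nat_lit 21722) (S (nat_lit 40790) (S (nat_lit 40531) (S (nat_lit 1246) (L (nat_lit 11169969))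
(L (nat_lit 9291919)))
(L (nat_lit 7524238)))
(L (nat_lit 2318929)))
(L (nat_lit 7734939)))
(L (nat_lit 7883803)))
(S (nat_lit 30774) (S (nat_lit 1975) (S (nat_lit 8810) (L (nat_lit 20775279))
(L (nat_lit 21324975)))
(S (nat_lit 32337) (S (nat_lit 48276) (L (nat_lit 23408826))
(L (nat_lit 14360480)))
(L (nat_lit 9588218))))
(S (nat_lit 50538) (S (nat_lit 20800) (S (nat_lit 40531) (S (nat_lit 40768) (S (nat_lit 1763) (S (nat_lit 1246) (L (nat_lit 28545460))
(L (nat_lit 20133697)))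
(L (nat_lit 14363773)))
(L (nat_lit 7757633)))
(L (nat_lit 27643328)))
(L (nat_lit 22839567)))
(L (nat_lit 25800993)))))
(L (nat_lit 25441363)))))
(L (nat_lit 25477765)))))
(S (nat_lit 35135) (S (nat_lit 1986) (S (nat_lit 1014) (S (nat_lit 1246) (S (nat_lit 1262) (S (nat_lit 1748) (S (nat_lit 25) (S (nat_lit 50477) (L (nat_lit 19436327))
(L (nat_lit 12808277)))
(L (nat_lit 13889717)))
(L (nat_lit 13474369)))
(S (nat_lit 38629) (S (nat_lit 1277) (L (nat_lit 10341424))
(L (nat_lit 19456071)))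
(L (nat_lit 13474998))))
(S (nat_lit 10331) (L (nat_lit 14519947))
(L (nat_lit 13478564))))
(S (nat_lit 20778) (S (nat_lit 1277) (S (nat_lit 48351) (S (nat_lit 1246) (S (nat_lit 50463) (S (nat_lit 37274) (L (nat_lit 14360321))
(L (nat_lit 9953394)))
(L (nat_lit 13555718)))
(L (nat_lit 9286273)))
(L (nat_lit 14494272)))
(S (nat_lit 40661) (L (nat_lit 26320524))
(L (nat_lit 12673767))))
(S (nat_lit 40542) (S (nat_lit 8773) (S (nat_lit 10997) (S (nat_lit 1277) (L (nat_lit 30022020))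
(L (nat_lit 13880194)))
(L (nat_lit 23453870)))
(S (nat_lit 28537) (S (nat_lit 1246) (S (nat_lit 1277) (L (nat_lit 14287627))
(L (nat_lit 20885792)))
(L (nat_lit 20820321)))
(S (nat_lit 48301) (S (nat_lit 30713) (L (nat_lit 19949870))
(L (nat_lit 13852789)))
(L (nat_lit 25209266)))))
(L (nat_lit 25860204)))))
(S (nat_lit 21750) (S (nat_lit 8795) (S (nat_lit 10997) (S (nat_lit 37274) (S (nat_lit 8823) (L (nat_lit 8274565))
(L (nat_lit 7861824)))
(L (nat_lit 23323045)))
(L (nat_lit 23552357)))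
(S (nat_lit 28559) (S (nat_lit 40525) (S (nat_lit 30699) (S (nat_lit 1246) (L (nat_lit 28512757))
(L (nat_lit 20785295)))
(L (nat_lit 24124239)))
(L (nat_lit 23421039)))
(S (nat_lit 48323) (S (nat_lit 1246) (S (nat_lit 10982) (S (nat_lit 18579) (L (nat_lit 2679060))
(S (nat_lit 57024) (S (nat_lit 21490) (S (nat_lit 21004) (S (nat_lit 39592) (S (nat_lit 54884) (S (nat_lit 28512) (S (nat_lit 40525) (S (nat_lit 39542) (S (nat_lit 57055) (S (nat_lit 50494) (S (nat_lit 4285) (S (nat_lit 25084) (S (nat_lit 25034) (S (nat_lit 4235) (S (nat_lit 40575) (S (nat_lit 6227) (S (nat_lit 16634) (S (nat_lit 37946) (D (nat_lit 15) (nat_lit 27998436) (nat_lit 25761037) (nat_lit 209381957893))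
(L (nat_lit 27898919)))
(L (nat_lit 27896256)))
(S (nat_lit 56206) (S (nat_lit 30899) (S (nat_lit 10559) (D (nat_lit 15) (nat_lit 27867178) (nat_lit 25761192) (nat_lit 209380908260))
(L (nat_lit 27862465)))
(L (nat_lit 27866339)))
(L (nat_lit 22230947))))
(L (nat_lit 18553885)))
(L (nat_lit 21525728)))
(L (nat_lit 9039884)))
(L (nat_lit 4509240)))
(L (nat_lit 2007573)))
(L (nat_lit 15435033)))
(L (nat_lit 21503065)))
(L (nat_lit 18452266)))
(L (nat_lit 27696181)))
(L (nat_lit 19099662)))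
(L (nat_lit 27562735)))
(L (nat_lit 11035701)))
(L (nat_lit 11951908)))
(L (nat_lit 5660458)))
(L (nat_lit 12440591))))
(S (nat_lit 30746) (S (nat_lit 1277) (S (nat_lit 1763) (S (nat_lit 1701) (S (nat_lit 37274) (S (nat_lit 50525) (S (nat_lit 40575) (S (nat_lit 28554) (S (nat_lit 54901) (S (nat_lit 62) (S (nat_lit 30774) (S (nat_lit 54851) (S (nat_lit 41254) (S (nat_lit 40768) (S (nat_lit 41276) (S (nat_lit 40790) (S (nat_lit 17527) (S (nat_lit 30846) (S (nat_lit 20993) (S (nat_lit 11049) (S (nat_lit 28869) (S (nat_lit 37981) (S (nat_lit 38710) (S (nat_lit 48445) (S (nat_lit 6923) (S (nat_lit 34320) (D (nat_lit 11) (nat_lit 31102472) (nat_lit 19674469) (nat_lit 176335980770))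
(L (nat_lit 13476949)))
(L (nat_lit 28916875)))
(L (nat_lit 19765664)))
(L (nat_lit 16632098)))
(L (nat_lit 16632066)))
(S (nat_lit 37832) (S (nat_lit 18143) (S (nat_lit 10305) (S (nat_lit 9576) (S (nat_lit 33348) (S (nat_lit 7387) (D (nat_lit 11) (nat_lit 27929616) (nat_lit 25768227) (nat_lit 77344184358))
(L (nat_lit 27680034)))
(L (nat_lit 27859429)))
(L (nat_lit 27741504)))
(L (nat_lit 27741536)))
(L (nat_lit 27867456)))
(L (nat_lit 26385844))))
(L (nat_lit 14392505)))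
(L (nat_lit 22363906)))
(L (nat_lit 28674484)))
(L (nat_lit 6373082)))
(L (nat_lit 2482032)))
(L (nat_lit 8576880)))
(L (nat_lit 2386639)))
(L (nat_lit 8481487)))
(L (nat_lit 4744906)))
(L (nat_lit 9294959)))
(L (nat_lit 1630923)))
(L (nat_lit 10643180)))
(L (nat_lit 24535361)))
(L (nat_lit 3924458)))
(L (nat_lit 13392010)))
(L (nat_lit 2351724)))
(L (nat_lit 20720716)))
(L (nat_lit 20473025)))
(L (nat_lit 20472839)))
(S (nat_lit 50510) (S (nat_lit 1215) (S (nat_lit 1763) (S (nat_lit 37324) (S (nat_lit 48301) (S (nat_lit 35115) (S (nat_lit 50538) (S (nat_lit 35087) (S (nat_lit 37274) (S (nat_lit 50494) (S (nat_lit 21722) (S (nat_lit 40575) (S (nat_lit 1290) (S (nat_lit 1776) (S (nat_lit 64) (S (nat_lit 8709) (S (nat_lit 47) (S (nat_lit 14250) (S (nat_lit 48318) (S (nat_lit 37260) (S (nat_lit 55435) (S (nat_lit 20119) (S (nat_lit 55429) (S (nat_lit 40967) (S (nat_lit 36369) (S (nat_lit 28964) (D (nat_lit 13) (nat_lit 10291949) (nat_lit 8949522)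 (nat_lit 6838930181125))
(L (nat_lit 28030058)))
(L (nat_lit 14570755)))
(L (nat_lit 30126341)))
(L (nat_lit 14707339)))
(L (nat_lit 23556384)))
(S (nat_lit 57130) (S (nat_lit 29914) (S (nat_lit 20636) (S (nat_lit 39964) (S (nat_lit 36855) (S (nat_lit 54965) (D (nat_lit 13) (nat_lit 10324684) (nat_lit 8949522) (nat_lit 2374311805959))
(L (nat_lit 22950987)))
(L (nat_lit 14570786)))
(L (nat_lit 30061860)))
(L (nat_lit 23652581)))
(L (nat_lit 27933891)))
(L (nat_lit 30484883))))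
(L (nat_lit 16998272)))
(L (nat_lit 22847904)))
(L (nat_lit 28872296)))
(L (nat_lit 13479524)))
(L (nat_lit 18721381)))
(L (nat_lit 1404495)))
(L (nat_lit 12688211)))
(L (nat_lit 13535882)))
(L (nat_lit 27991524)))
(L (nat_lit 16028313)))
(L (nat_lit 22309965)))
(L (nat_lit 3843515)))
(L (nat_lit 8408475)))
(L (nat_lit 13391105)))
(L (nat_lit 12865377)))
(L (nat_lit 14537896)))
(L (nat_lit 3974643)))
(L (nat_lit 12636072)))
(S (nat_lit 41894) (L (nat_lit 4041423))
(L (nat_lit 13178200))))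
(L (nat_lit 25602069)))))
(L (nat_lit 13248570)))
(L (nat_lit 25247434)))))
(S (nat_lit 41514) (S (nat_lit 1748) (S (nat_lit 28537) (S (nat_lit 37274) (S (nat_lit 30761) (L (nat_lit 9106885))
(L (nat_lit 3004782)))
(L (nat_lit 31100330)))
(L (nat_lit 10106658)))
(S (nat_lit 21512) (S (nat_lit 1036) (S (nat_lit 48351) (S (nat_lit 1246) (S (nat_lit 1229) (L (nat_lit 30052777))
(L (nat_lit 20753888)))
(L (nat_lit 20818062)))
(L (nat_lit 27896193)))
(S (nat_lit 20800) (S (nat_lit 19828) (S (nat_lit 40768) (S (nat_lit 2019) (L (nat_lit 23535490))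
(L (nat_lit 20448075)))
(L (nat_lit 7456597)))
(L (nat_lit 10260079)))
(S (nat_lit 40564) (S (nat_lit 1246) (S (nat_lit 19789) (S (nat_lit 1003) (S (nat_lit 8812) (L (nat_lit 467612))
(L (nat_lit 1421979)))
(L (nat_lit 19949003)))
(L (nat_lit 9856148)))
(L (nat_lit 20309473)))
(L (nat_lit 25410112)))))
(S (nat_lit 41276) (S (nat_lit 1246) (S (nat_lit 1003) (S (nat_lit 1975) (S (nat_lit 30724) (S (nat_lit 986) (L (nat_lit 30428646))
(L (nat_lit 14472359)))
(L (nat_lit 3663191)))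
(L (nat_lit 11691663)))
(S (nat_lit 19279) (L (nat_lit 5792487))
(L (nat_lit 20439397))))
(S (nat_lit 21010) (S (nat_lit 1047) (L (nat_lit 13675163))
(L (nat_lit 11235812)))
(S (nat_lit 40774) (S (nat_lit 20798) (S (nat_lit 30724) (L (nat_lit 6972559))
(L (nat_lit 10014562)))
(L (nat_lit 15781735)))
(L (nat_lit 25661099)))))
(L (nat_lit 25633345)))))
(L (nat_lit 25855245)))))
(S (nat_lit 54899) (S (nat_lit 15356) (S (nat_lit 11010) (S (nat_lit 40531) (S (nat_lit 1279) (L (nat_lit 24417135))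
(L (nat_lit 26235151)))
(L (nat_lit 27462287)))
(S (nat_lit 30774) (S (nat_lit 1246) (S (nat_lit 10977) (S (nat_lit 19789) (L (nat_lit 5957935))
(L (nat_lit 22883503)))
(L (nat_lit 23956815)))
(L (nat_lit 9244335)))
(S (nat_lit 50538) (S (nat_lit 1246) (S (nat_lit 41293) (S (nat_lit 40807) (S (nat_lit 39592) (S (nat_lit 8762) (S (nat_lit 19789) (S (nat_lit 20767) (S (nat_lit 35087) (S (nat_lit 21026) (S (nat_lit 50488) (S (nat_lit 2019) (S (nat_lit 53621) (S (nat_lit 41534) (S (nat_lit 33832) (S (nat_lit 8609) (S (nat_lit 40575) (S (nat_lit 40680) (S (nat_lit 924) (S (nat_lit 49886) (S (nat_lit 49645) (S (nat_lit 58710) (S (nat_lit 55054) (D (nat_lit 13) (nat_lit 30029927) (nat_lit 19664393) (nat_lit 77384127749))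
(L (nat_lit 20356960)))
(L (nat_lit 30028811)))
(L (nat_lit 21837091)))
(L (nat_lit 21836033)))
(L (nat_lit 30029089)))
(S (nat_lit 54262) (S (nat_lit 1596) (S (nat_lit 37946) (S (nat_lit 11511) (S (nat_lit 12238) (S (nat_lit 36256) (D (nat_lit 13) (nat_lit 27988270) (nat_lit 25761227) (nat_lit 212641813665))
(L (nat_lit 27997380)))
(L (nat_lit 27528880)))
(L (nat_lit 27380199)))
(L (nat_lit 27898919)))
(L (nat_lit 27544000)))
(L (nat_lit 4473779))))
(L (nat_lit 24912909)))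
(L (nat_lit 19308701)))
(L (nat_lit 2992566)))
(L (nat_lit 282448)))
(L (nat_lit 14911064)))
(L (nat_lit 13312057)))
(L (nat_lit 12804274)))
(L (nat_lit 2015815)))
(L (nat_lit 30657647)))
(L (nat_lit 21768367)))
(L (nat_lit 31036783)))
(L (nat_lit 26944591)))
(L (nat_lit 5055055)))
(L (nat_lit 23925007)))
(L (nat_lit 23930959)))
(L (nat_lit 19074927)))
(L (nat_lit 25499375)))))
(S (nat_lit 35120) (S (nat_lit 2006) (S (nat_lit 1246) (S (nat_lit 1003) (S (nat_lit 1975) (S (nat_lit 21722) (S (nat_lit 1726) (S (nat_lit 1763) (S (nat_lit 50505) (L (nat_lit 5562834))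
(L (nat_lit 11268271)))
(L (nat_lit 12260240)))
(S (nat_lit 35220) (S (nat_lit 35192) (S (nat_lit 15423) (S (nat_lit 48351) (S (nat_lit 35170) (S (nat_lit 1215) (S (nat_lit 28554) (S (nat_lit 15445) (S (nat_lit 50433) (S (nat_lit 62) (S (nat_lit 40525) (S (nat_lit 20800) (S (nat_lit 30761) (S (nat_lit 17496) (S (nat_lit 10960) (S (nat_lit 41519) (S (nat_lit 30689) (S (nat_lit 5095) (S (nat_lit 49610) (S (nat_lit 44104) (S (nat_lit 43044) (S (nat_lit 27759) (S (nat_lit 5045) (D (nat_lit 13) (nat_lit 25791913) (nat_lit 19116216) (nat_lit 6612386952))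
(L (nat_lit 29612544)))
(L (nat_lit 13476948)))
(L (nat_lit 29000169)))
(L (nat_lit 22455173)))
(L (nat_lit 29077860)))
(S (nat_lit 42094) (S (nat_lit 22536) (S (nat_lit 19115) (S (nat_lit 18386) (S (nat_lit 44621) (D (nat_lit 11) (nat_lit 4112011) (nat_lit 5687672) (nat_lit 69862656102))
(L (nat_lit 22419642)))
(L (nat_lit 28712114)))
(L (nat_lit 28711092)))
(L (nat_lit 28532163)))
(L (nat_lit 30423624))))
(L (nat_lit 7517881)))
(L (nat_lit 6351286)))
(L (nat_lit 15944890)))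
(L (nat_lit 26427040)))
(L (nat_lit 19700910)))
(L (nat_lit 21870912)))
(L (nat_lit 8291860)))
(L (nat_lit 19019658)))
(L (nat_lit 26662208)))
(L (nat_lit 20880834)))
(L (nat_lit 24913072)))
(L (nat_lit 12848729)))
(L (nat_lit 13863512)))
(L (nat_lit 27708672)))
(L (nat_lit 20809127)))
(L (nat_lit 19669445)))
(L (nat_lit 14454037))))
(S (nat_lit 25445) (L (nat_lit 26555543))
(L (nat_lit 7525883))))
(L (nat_lit 12045156)))
(S (nat_lit 23097) (L (nat_lit 19017977))
(L (nat_lit 20787557))))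
(S (nat_lit 47530) (S (nat_lit 57258) (L (nat_lit 19064014))
(L (nat_lit 9244335)))
(L (nat_lit 19016559))))
(S (nat_lit 21770) (S (nat_lit 1246) (S (nat_lit 26443) (S (nat_lit 18634) (L (nat_lit 3981527))
(L (nat_lit 19152704)))
(S (nat_lit 50505) (S (nat_lit 1003) (L (nat_lit 19805190))
(L (nat_lit 20144303)))
(L (nat_lit 5524303))))
(S (nat_lit 51903) (L (nat_lit 26260853))
(L (nat_lit 19016559))))
(S (nat_lit 41534) (S (nat_lit 1765) (S (nat_lit 1246) (S (nat_lit 1003) (L (nat_lit 12781146))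
(L (nat_lit 20812143)))
(L (nat_lit 11177807)))
(S (nat_lit 21529) (S (nat_lit 40768) (S (nat_lit 19828) (S (nat_lit 35192) (L (nat_lit 15870586))
(L (nat_lit 19166223)))
(L (nat_lit 2472852)))
(L (nat_lit 16949076)))
(S (nat_lit 41293) (S (nat_lit 20767) (L (nat_lit 26871151))
(L (nat_lit 805355)))
(L (nat_lit 25219374)))))
(L (nat_lit 25244887)))))
(S (nat_lit 54884) (S (nat_lit 972) (S (nat_lit 1277) (S (nat_lit 1246) (S (nat_lit 1701) (S (nat_lit 1944) (S (nat_lit 1763) (L (nat_lit 15847243))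
(L (nat_lit 26261224)))
(L (nat_lit 26588338)))
(L (nat_lit 26293867)))
(L (nat_lit 9058148)))
(L (nat_lit 26457826)))
(S (nat_lit 20736) (S (nat_lit 1246) (S (nat_lit 1763) (S (nat_lit 1277) (S (nat_lit 1279) (S (nat_lit 30741) (L (nat_lit 3877775))
(L (nat_lit 19150624)))
(L (nat_lit 12655194)))
(L (nat_lit 19117085)))
(L (nat_lit 18920669)))
(S (nat_lit 57258) (L (nat_lit 16343143))
(L (nat_lit 6105775))))
(S (nat_lit 40500) (S (nat_lit 1246) (S (nat_lit 1763) (S (nat_lit 48338) (S (nat_lit 48351) (S (nat_lit 1715) (S (nat_lit 1215) (S (nat_lit 30699) (S (nat_lit 21708) (S (nat_lit 25) (S (nat_lit 30713) (S (nat_lit 54912) (S (nat_lit 21722) (S (nat_lit 21739) (S (nat_lit 1290) (S (nat_lit 5427) (S (nat_lit 40575) (S (nat_lit 54879) (S (nat_lit 54901) (S (nat_lit 5452) (S (nat_lit 4318) (S (nat_lit 1910) (S (nat_lit 57655) (S (nat_lit 56035) (D (nat_lit 15) (nat_lit 13391881) (nat_lit 25761037) (nat_lit 206166827176))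
(L (nat_lit 30027201)))
(L (nat_lit 16600387)))
(S (nat_lit 29931) (S (nat_lit 39947) (S (nat_lit 32481) (S (nat_lit 36512) (S (nat_lit 57169) (S (nat_lit 20599) (D (nat_lit 13) (nat_lit 5467853) (nat_lit 8570642) (nat_lit 2379512743136))
(L (nat_lit 25051363)))
(L (nat_lit 16600201)))
(L (nat_lit 27862500)))
(L (nat_lit 20856098)))
(L (nat_lit 29998370)))
(L (nat_lit 23426192))))
(L (nat_lit 2890228)))
(L (nat_lit 27761781)))
(L (nat_lit 10662652)))
(L (nat_lit 13922881)))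
(L (nat_lit 27985260)))
(L (nat_lit 14461075)))
(L (nat_lit 5489304)))
(L (nat_lit 15879512)))
(L (nat_lit 16113815)))
(L (nat_lit 13783355)))
(L (nat_lit 10105945)))
(L (nat_lit 7991471)))
(L (nat_lit 7753541)))
(L (nat_lit 30639759)))
(L (nat_lit 26496419)))
(L (nat_lit 13717853)))
(L (nat_lit 27413894)))
(L (nat_lit 14504107)))
(L (nat_lit 19969958)))
(S (nat_lit 52885) (L (nat_lit 5759622))
(L (nat_lit 6105775))))
(L (nat_lit 25507428)))))
(L (nat_lit 25278123)))))
(L (nat_lit 25495028)))))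
(S (nat_lit 21496) (S (nat_lit 47) (S (nat_lit 10982) (S (nat_lit 1279) (S (nat_lit 1726) (S (nat_lit 48323) (S (nat_lit 39553) (S (nat_lit 40525) (S (nat_lit 15351) (L (nat_lit 29042799))
(L (nat_lit 1468789)))
(L (nat_lit 2015541)))
(L (nat_lit 11453621)))
(L (nat_lit 13721845)))
(L (nat_lit 13726933)))
(S (nat_lit 21043) (S (nat_lit 10935) (S (nat_lit 20750) (S (nat_lit 21479) (S (nat_lit 40525) (L (nat_lit 20003755))
(L (nat_lit 7948037)))
(L (nat_lit 21061873)))
(L (nat_lit 21061841)))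
(S (nat_lit 19699) (S (nat_lit 20767) (L (nat_lit 6472349))
(L (nat_lit 16523445)))
(L (nat_lit 1266479))))
(S (nat_lit 40807) (S (nat_lit 6950) (L (nat_lit 4632469))
(S (nat_lit 15356) (S (nat_lit 15351) (S (nat_lit 40525) (S (nat_lit 10977) (S (nat_lit 40547) (S (nat_lit 40805) (S (nat_lit 21783) (S (nat_lit 15373) (S (nat_lit 40531) (S (nat_lit 42) (S (nat_lit 21512) (S (nat_lit 40774) (S (nat_lit 10334) (S (nat_lit 21770) (S (nat_lit 15323) (S (nat_lit 10949) (S (nat_lit 21739) (S (nat_lit 40757) (S (nat_lit 48290) (S (nat_lit 48276) (S (nat_lit 37335) (S (nat_lit 48323) (S (nat_lit 43863) (S (nat_lit 43285) (S (nat_lit 11041) (S (nat_lit 37162) (S (nat_lit 56013) (D (nat_lit 13) (nat_lit 8178766) (nat_lit 25765413) (nat_lit 41949596869))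
(L (nat_lit 23473243)))
(L (nat_lit 28979492)))
(L (nat_lit 27284937)))
(L (nat_lit 15609504)))
(S (nat_lit 51597) (S (nat_lit 25076) (S (nat_lit 15535) (S (nat_lit 32506) (D (nat_lit 13) (nat_lit 2971047) (nat_lit 19672547) (nat_lit 209615718561))
(L (nat_lit 29046981)))
(L (nat_lit 31081480)))
(L (nat_lit 16701697)))
(L (nat_lit 30018895))))
(L (nat_lit 11615960)))
(L (nat_lit 3976727)))
(L (nat_lit 27285959)))
(L (nat_lit 27272783)))
(L (nat_lit 27662487)))
(L (nat_lit 22351791)))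
(L (nat_lit 6785629)))
(L (nat_lit 6982045)))
(L (nat_lit 21049136)))
(L (nat_lit 17954438)))
(L (nat_lit 10139425)))
(L (nat_lit 22518657)))
(L (nat_lit 20004217)))
(L (nat_lit 27462101)))
(L (nat_lit 2018760)))
(L (nat_lit 15588581)))
(L (nat_lit 805104)))
(L (nat_lit 27476545)))
(L (nat_lit 21831855)))
(L (nat_lit 27345205)))
(S (nat_lit 31346) (L (nat_lit 26390771))
(L (nat_lit 26292597))))
(L (nat_lit 576299))))
(L (nat_lit 25416068)))))
(S (nat_lit 30746) (S (nat_lit 15309) (S (nat_lit 2044) (L (nat_lit 7095413))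
(S (nat_lit 8762) (S (nat_lit 17571) (S (nat_lit 40785) (S (nat_lit 10997) (S (nat_lit 8773) (S (nat_lit 21043) (L (nat_lit 29807841))
(L (nat_lit 6873269)))
(L (nat_lit 750961)))
(L (nat_lit 466837)))
(L (nat_lit 23562058)))
(L (nat_lit 488757)))
(L (nat_lit 8128917))))
(S (nat_lit 35073) (S (nat_lit 28526) (S (nat_lit 19828) (S (nat_lit 1601) (L (nat_lit 12400725))
(S (nat_lit 20800) (S (nat_lit 1402) (L (nat_lit 28033035))
(S (nat_lit 21004) (S (nat_lit 49955) (L (nat_lit 220637))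
(L (nat_lit 866549)))
(L (nat_lit 30589173))))
(L (nat_lit 15425670))))
(S (nat_lit 20638) (L (nat_lit 15851861))
(L (nat_lit 9584469))))
(L (nat_lit 4006453)))
(S (nat_lit 54837) (S (nat_lit 48323) (S (nat_lit 21708) (S (nat_lit 21722) (S (nat_lit 54884) (S (nat_lit 54901) (S (nat_lit 21479) (S (nat_lit 14) (S (nat_lit 48307) (S (nat_lit 21512) (S (nat_lit 40774) (S (nat_lit 37307) (S (nat_lit 21507) (S (nat_lit 48338) (S (nat_lit 25708) (S (nat_lit 40564) (S (nat_lit 30730) (S (nat_lit 25) (S (nat_lit 40575) (S (nat_lit 39089) (S (nat_lit 32755) (S (nat_lit 25071) (S (nat_lit 22074) (D (nat_lit 13) (nat_lit 17584387) (nat_lit 25767459) (nat_lit 108588534917))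
(L (nat_lit 28984640)))
(L (nat_lit 27695154)))
(L (nat_lit 20375777)))
(S (nat_lit 55971) (S (nat_lit 49472) (S (nat_lit 43329) (S (nat_lit 55792) (S (nat_lit 43896) (D (nat_lit 13) (nat_lit 15489349) (nat_lit 25765347) (nat_lit 214986594536))
(L (nat_lit 30093382)))
(L (nat_lit 30033221)))
(L (nat_lit 19739657)))
(L (nat_lit 29999113)))
(L (nat_lit 26557091))))
(L (nat_lit 23176667)))
(L (nat_lit 19330184)))
(L (nat_lit 30704055)))
(L (nat_lit 27579813)))
(L (nat_lit 4632216)))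
(L (nat_lit 22212075)))
(L (nat_lit 22976043)))
(L (nat_lit 23368524)))
(L (nat_lit 2324143)))
(L (nat_lit 7824993)))
(L (nat_lit 15992631)))
(L (nat_lit 20358981)))
(L (nat_lit 21045008)))
(L (nat_lit 27708456)))
(L (nat_lit 21083384)))
(L (nat_lit 22873542)))
(L (nat_lit 8211877)))
(L (nat_lit 15838069)))
(L (nat_lit 25935911)))))
(S (nat_lit 50510) (S (nat_lit 8779) (S (nat_lit 40805) (S (nat_lit 21465) (S (nat_lit 21479) (L (nat_lit 11620764))
(L (nat_lit 16048771)))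
(L (nat_lit 14765370)))
(L (nat_lit 7360337)))
(S (nat_lit 28543) (S (nat_lit 1437) (L (nat_lit 30486068))
(S (nat_lit 40805) (S (nat_lit 19806) (L (nat_lit 29434512))
(L (nat_lit 21062183)))
(L (nat_lit 307960))))
(S (nat_lit 48307) (S (nat_lit 25) (S (nat_lit 37941) (L (nat_lit 8467253))
(S (nat_lit 48323) (S (nat_lit 26258) (S (nat_lit 21739) (L (nat_lit 14938294))
(L (nat_lit 7498197)))
(S (nat_lit 40774) (S (nat_lit 40525) (S (nat_lit 40785) (S (nat_lit 35120) (S (nat_lit 37307) (S (nat_lit 48338) (S (nat_lit 21783) (S (nat_lit 50477) (S (nat_lit 40807) (S (nat_lit 42) (S (nat_lit 14) (S (nat_lit 21722) (S (nat_lit 21540) (S (nat_lit 48340) (S (nat_lit 50525) (S (nat_lit 64) (S (nat_lit 39106) (S (nat_lit 39067) (S (nat_lit 37123) (S (nat_lit 29889) (D (nat_lit 11) (nat_lit 11358383) (nat_lit 25765379) (nat_lit 206400754821))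
(L (nat_lit 27283915)))
(L (nat_lit 19739841)))
(L (nat_lit 19738816)))
(S (nat_lit 55418) (S (nat_lit 51401) (S (nat_lit 55435) (S (nat_lit 49457) (D (nat_lit 11) (nat_lit 16667691) (nat_lit 25765315) (nat_lit 103321640199))
(L (nat_lit 30127426)))
(L (nat_lit 15599307)))
(L (nat_lit 29894273)))
(L (nat_lit 8444813))))
(L (nat_lit 13962005)))
(L (nat_lit 4834682)))
(L (nat_lit 4830120)))
(L (nat_lit 14719923)))
(L (nat_lit 15294690)))
(L (nat_lit 13832054)))
(L (nat_lit 14290297)))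
(L (nat_lit 27506869)))
(L (nat_lit 12783509)))
(L (nat_lit 1786106)))
(L (nat_lit 20776303)))
(L (nat_lit 20883470)))
(L (nat_lit 20719661)))
(L (nat_lit 27929613)))
(L (nat_lit 7769877)))
(L (nat_lit 926165))))
(L (nat_lit 10600309))))
(S (nat_lit 19789) (S (nat_lit 21043) (S (nat_lit 48323) (S (nat_lit 17496) (L (nat_lit 29065422))
(L (nat_lit 15753959)))
(L (nat_lit 20000280)))
(S (nat_lit 37134) (L (nat_lit 21226885))
(L (nat_lit 15982709))))
(S (nat_lit 39553) (S (nat_lit 48351) (S (nat_lit 48323) (S (nat_lit 1262) (S (nat_lit 54912) (L (nat_lit 21400391))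
(L (nat_lit 5057941)))
(L (nat_lit 5961127)))
(L (nat_lit 22099162)))
(L (nat_lit 4992750)))
(L (nat_lit 25767426)))))
(L (nat_lit 25252145)))))
(L (nat_lit 25482286)))))
(S (nat_lit 19811) (S (nat_lit 17558) (S (nat_lit 8748) (S (nat_lit 1969) (S (nat_lit 8693) (L (nat_lit 10224114))
(S (nat_lit 17496) (S (nat_lit 19839) (L (nat_lit 21095815))
(L (nat_lit 15884199)))
(L (nat_lit 22807078))))
(S (nat_lit 21733) (S (nat_lit 40774) (S (nat_lit 40807) (S (nat_lit 40564) (S (nat_lit 48323) (S (nat_lit 10935) (L (nat_lit 13654269))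
(L (nat_lit 8062769)))
(L (nat_lit 22110415)))
(L (nat_lit 1856907)))
(L (nat_lit 8128079)))
(L (nat_lit 8277135)))
(S (nat_lit 41497) (S (nat_lit 17496) (S (nat_lit 21424) (S (nat_lit 21043) (S (nat_lit 15309) (L (nat_lit 10945212))
(L (nat_lit 24601607)))
(L (nat_lit 21225583)))
(S (nat_lit 39351) (L (nat_lit 18023220))
(L (nat_lit 18899279))))
(S (nat_lit 38667) (L (nat_lit 11658741))
(L (nat_lit 18636001))))
(L (nat_lit 25353767)))))
(S (nat_lit 28512) (S (nat_lit 1240) (S (nat_lit 43641) (L (nat_lit 26779299))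
(S (nat_lit 50525) (L (nat_lit 6200910))
(L (nat_lit 22813870))))
(S (nat_lit 21004) (S (nat_lit 20800) (S (nat_lit 40774) (L (nat_lit 2375541))
(L (nat_lit 8277038)))
(L (nat_lit 22064974)))
(S (nat_lit 40768) (S (nat_lit 1726) (S (nat_lit 44231) (L (nat_lit 18116629))
(L (nat_lit 28941454)))
(S (nat_lit 43509) (L (nat_lit 30874277))
(L (nat_lit 20219790))))
(L (nat_lit 25581643)))))
(S (nat_lit 48276) (S (nat_lit 15371) (S (nat_lit 21739) (S (nat_lit 20800) (L (nat_lit 248719))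
(L (nat_lit 5497236)))
(L (nat_lit 8303233)))
(S (nat_lit 35135) (S (nat_lit 20800) (S (nat_lit 21479) (L (nat_lit 29886022))
(L (nat_lit 16024219)))
(L (nat_lit 16048212)))
(S (nat_lit 54899) (S (nat_lit 40790) (S (nat_lit 10997) (L (nat_lit 14819000))
(L (nat_lit 21922251)))
(L (nat_lit 483943)))
(L (nat_lit 25665157)))))
(L (nat_lit 25647143)))))
(S (nat_lit 37322) (S (nat_lit 1279) (S (nat_lit 8812) (S (nat_lit 10541) (L (nat_lit 313138))
(S (nat_lit 17521) (S (nat_lit 21465) (L (nat_lit 15635016))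
(L (nat_lit 7434828)))
(L (nat_lit 8145347))))
(S (nat_lit 28576) (S (nat_lit 28526) (S (nat_lit 40525) (L (nat_lit 8480335))
(L (nat_lit 4119855)))
(L (nat_lit 9112985)))
(S (nat_lit 48340) (S (nat_lit 8810) (S (nat_lit 1743) (S (nat_lit 39553) (L (nat_lit 3389331))
(L (nat_lit 27286862)))
(L (nat_lit 14294948)))
(L (nat_lit 713130)))
(L (nat_lit 25862161)))))
(S (nat_lit 21043) (S (nat_lit 8790) (S (nat_lit 7721) (L (nat_lit 17681665))
(S (nat_lit 40547) (S (nat_lit 21021) (S (nat_lit 41276) (S (nat_lit 40805) (L (nat_lit 8205493))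
(L (nat_lit 27282951)))
(L (nat_lit 6773848)))
(L (nat_lit 21437283)))
(L (nat_lit 8176225))))
(S (nat_lit 28554) (S (nat_lit 1165) (L (nat_lit 10238132))
(S (nat_lit 20767) (S (nat_lit 28526) (S (nat_lit 28574) (S (nat_lit 20993) (S (nat_lit 50505) (L (nat_lit 22300416))
(L (nat_lit 28019023)))
(L (nat_lit 21890503)))
(L (nat_lit 3862895)))
(S (nat_lit 38933) (L (nat_lit 17124129))
(L (nat_lit 9456027))))
(L (nat_lit 30869876))))
(S (nat_lit 48318) (S (nat_lit 64) (S (nat_lit 21529) (L (nat_lit 2631293))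
(L (nat_lit 564856)))
(S (nat_lit 33469) (L (nat_lit 760248))
(L (nat_lit 763694))))
(L (nat_lit 25451937)))))
(S (nat_lit 40807) (S (nat_lit 1019) (S (nat_lit 30774) (L (nat_lit 9921089))
(L (nat_lit 2518599)))
(S (nat_lit 20783) (S (nat_lit 30730) (L (nat_lit 2309721))
(L (nat_lit 4103760)))
(S (nat_lit 40547) (S (nat_lit 16691) (L (nat_lit 9631125))
(S (nat_lit 40564) (S (nat_lit 21733) (S (nat_lit 48323) (L (nat_lit 3387996))
(L (nat_lit 22096815)))
(L (nat_lit 22125422)))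
(L (nat_lit 8148352))))
(L (nat_lit 25544289)))))
(L (nat_lit 25901316)))))
(S (nat_lit 57086) (S (nat_lit 8810) (S (nat_lit 1701) (S (nat_lit 20993) (S (nat_lit 41293) (S (nat_lit 1991) (S (nat_lit 40774) (S (nat_lit 54899) (L (nat_lit 30722127))
(L (nat_lit 19668453)))
(L (nat_lit 8178145)))
(L (nat_lit 10092957)))
(L (nat_lit 6404697)))
(L (nat_lit 1663465)))
(S (nat_lit 21465) (S (nat_lit 15334) (S (nat_lit 50477) (L (nat_lit 21895180))
(L (nat_lit 15573572)))
(S (nat_lit 50601) (S (nat_lit 40564) (L (nat_lit 1449565))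
(L (nat_lit 7453305)))
(L (nat_lit 8142402))))
(S (nat_lit 41229) (S (nat_lit 1279) (S (nat_lit 54912) (S (nat_lit 50538) (L (nat_lit 10914397))
(L (nat_lit 5941693)))
(L (nat_lit 5745277)))
(S (nat_lit 26206) (L (nat_lit 9189029))
(L (nat_lit 9359748))))
(L (nat_lit 25528908)))))
(S (nat_lit 28574) (S (nat_lit 1014) (S (nat_lit 41276) (S (nat_lit 39542) (S (nat_lit 2019) (S (nat_lit 1715) (S (nat_lit 1743) (S (nat_lit 48323) (S (nat_lit 48351) (S (nat_lit 41254) (S (nat_lit 40547) (S (nat_lit 20736) (S (nat_lit 1991) (S (nat_lit 40805) (S (nat_lit 39570) (S (nat_lit 17543) (S (nat_lit 1765) (S (nat_lit 19789) (S (nat_lit 40525) (S (nat_lit 41503) (S (nat_lit 20993) (S (nat_lit 1240) (S (nat_lit 1036) (S (nat_lit 57024) (S (nat_lit 21750) (S (nat_lit 39592) (S (nat_lit 20798) (S (nat_lit 8762) (S (nat_lit 19839) (S (nat_lit 12045) (S (nat_lit 8685) (S (nat_lit 51313) (S (nat_lit 11995) (S (nat_lit 15537) (S (nat_lit 35301) (S (nat_lit 13046)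 (S (nat_lit 12345) (S (nat_lit 30746) (D (nat_lit 13) (nat_lit 31041580) (nat_lit 25479281) (nat_lit 3337360772098))
(L (nat_lit 31013093)))
(L (nat_lit 31014117)))
(S (nat_lit 35137) (S (nat_lit 54899) (S (nat_lit 10537) (D (nat_lit 11) (nat_lit 27924623) (nat_lit 25764974) (nat_lit 212877903009))
(L (nat_lit 27932933)))
(L (nat_lit 27932997)))
(L (nat_lit 9047884))))
(L (nat_lit 6344092)))
(L (nat_lit 31008288)))
(L (nat_lit 6378416)))
(L (nat_lit 21168569)))
(L (nat_lit 6947596)))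
(S (nat_lit 19944) (S (nat_lit 9324) (S (nat_lit 19975) (S (nat_lit 1833) (S (nat_lit 19657) (S (nat_lit 39452) (S (nat_lit 30820) (S (nat_lit 37016) (S (nat_lit 46024) (S (nat_lit 14944) (D (nat_lit 13) (nat_lit 27958788) (nat_lit 19095727) (nat_lit 8865957576736))
(L (nat_lit 28939719)))
(L (nat_lit 19767810)))
(L (nat_lit 15585474)))
(S (nat_lit 31882) (S (nat_lit 12367) (S (nat_lit 15947) (D (nat_lit 11) (nat_lit 25931971) (nat_lit 18997617) (nat_lit 275951753222))
(L (nat_lit 27930634)))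
(L (nat_lit 29776129)))
(L (nat_lit 10914552))))
(L (nat_lit 29754647)))
(L (nat_lit 29840676)))
(L (nat_lit 22517881)))
(L (nat_lit 6997765)))
(L (nat_lit 24364805)))
(S (nat_lit 36906) (S (nat_lit 44255) (S (nat_lit 17120) (S (nat_lit 36928) (S (nat_lit 23880) (S (nat_lit 23101) (S (nat_lit 41836) (S (nat_lit 50463) (S (nat_lit 9830) (D (nat_lit 11) (nat_lit 27374835) (nat_lit 25344306) (nat_lit 212843300001))
(L (nat_lit 18048641)))
(L (nat_lit 25836736)))
(S (nat_lit 50505) (S (nat_lit 46024) (S (nat_lit 6982) (D (nat_lit 11) (nat_lit 28951721) (nat_lit 10897528) (nat_lit 138613594371))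
(L (nat_lit 29804896)))
(L (nat_lit 29804898)))
(L (nat_lit 15000756))))
(L (nat_lit 27887014)))
(L (nat_lit 27690226)))
(L (nat_lit 28973201)))
(L (nat_lit 29048968)))
(L (nat_lit 28973538)))
(L (nat_lit 14279876)))))
(L (nat_lit 10218977)))
(L (nat_lit 831797)))
(L (nat_lit 5794102)))
(L (nat_lit 12079132)))
(L (nat_lit 14832491)))
(L (nat_lit 18924797)))
(L (nat_lit 19830187)))
(L (nat_lit 19308417)))
(L (nat_lit 30999920)))
(L (nat_lit 24180167)))
(L (nat_lit 27869477)))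
(L (nat_lit 30660751)))
(L (nat_lit 13521994)))
(L (nat_lit 652778)))
(L (nat_lit 12374189)))
(L (nat_lit 27281959)))
(L (nat_lit 19726758)))
(L (nat_lit 346522)))
(L (nat_lit 3850520)))
(L (nat_lit 23365454)))
(L (nat_lit 5068166)))
(L (nat_lit 4478490)))
(L (nat_lit 20815364)))
(L (nat_lit 14248968)))
(L (nat_lit 19824973)))
(L (nat_lit 5166385)))
(L (nat_lit 23299480)))
(S (nat_lit 20778) (S (nat_lit 55408) (L (nat_lit 14870151))
(S (nat_lit 57055) (S (nat_lit 28543) (S (nat_lit 21465) (S (nat_lit 20800) (S (nat_lit 21722) (S (nat_lit 41472) (S (nat_lit 40500) (S (nat_lit 31882) (L (nat_lit 28454322))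
(L (nat_lit 21521542)))
(L (nat_lit 27675722)))
(L (nat_lit 27381101)))
(L (nat_lit 21404827)))
(L (nat_lit 21201309)))
(L (nat_lit 15312708)))
(L (nat_lit 2904456)))
(L (nat_lit 14943027))))
(S (nat_lit 40542) (S (nat_lit 37274) (S (nat_lit 28543) (S (nat_lit 21722) (S (nat_lit 40514) (S (nat_lit 1003) (S (nat_lit 41503) (S (nat_lit 28512) (S (nat_lit 4342) (L (nat_lit 23108056))
(L (nat_lit 30030983)))
(L (nat_lit 24375744)))
(L (nat_lit 27931783)))
(L (nat_lit 8402587)))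
(L (nat_lit 27886057)))
(L (nat_lit 31006178)))
(L (nat_lit 18088536)))
(L (nat_lit 3864074)))
(L (nat_lit 25630003)))))
(S (nat_lit 48338) (S (nat_lit 17543) (S (nat_lit 21021) (S (nat_lit 20736) (S (nat_lit 21465) (S (nat_lit 48323) (L (nat_lit 15551499))
(L (nat_lit 22129519)))
(L (nat_lit 7976772)))
(S (nat_lit 22617) (S (nat_lit 37324) (S (nat_lit 40531) (L (nat_lit 18889514))
(L (nat_lit 8023055)))
(L (nat_lit 30824456)))
(L (nat_lit 15012476))))
(S (nat_lit 29469) (S (nat_lit 40531) (L (nat_lit 15838005))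
(L (nat_lit 27928751)))
(L (nat_lit 21487626))))
(S (nat_lit 37307) (S (nat_lit 1215) (S (nat_lit 1229) (S (nat_lit 1975) (L (nat_lit 8500893))
(L (nat_lit 19981770)))
(L (nat_lit 14455463)))
(S (nat_lit 20925) (L (nat_lit 12706408))
(L (nat_lit 19669413))))
(S (nat_lit 57071) (S (nat_lit 17496) (S (nat_lit 21490) (L (nat_lit 9929621))
(L (nat_lit 14752565)))
(S (nat_lit 37260) (S (nat_lit 2815) (L (nat_lit 4114800))
(S (nat_lit 28554) (S (nat_lit 18131) (L (nat_lit 19229056))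
(S (nat_lit 40525) (S (nat_lit 20993) (S (nat_lit 48323) (S (nat_lit 28512) (S (nat_lit 41304) (S (nat_lit 10960) (L (nat_lit 2014546))
(L (nat_lit 15962810)))
(L (nat_lit 9176717)))
(L (nat_lit 30934663)))
(L (nat_lit 22306863)))
(L (nat_lit 6414992)))
(L (nat_lit 17106772))))
(L (nat_lit 9527732))))
(S (nat_lit 57024) (S (nat_lit 10966) (L (nat_lit 14484727))
(L (nat_lit 21077872)))
(L (nat_lit 25364209)))))
(L (nat_lit 25440306)))))
(L (nat_lit 25614660)))))
(L (nat_lit 25509445)))))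
(S (nat_lit 39575) (S (nat_lit 10949) (S (nat_lit 1240) (S (nat_lit 15384) (S (nat_lit 40525) (S (nat_lit 40774) (S (nat_lit 972) (L (nat_lit 10909281))
(L (nat_lit 4825496)))
(L (nat_lit 926197)))
(L (nat_lit 1499381)))
(S (nat_lit 19551) (L (nat_lit 1551191))
(L (nat_lit 1392501))))
(S (nat_lit 21004) (S (nat_lit 28526) (S (nat_lit 20800) (S (nat_lit 48351) (S (nat_lit 1944) (S (nat_lit 48323) (S (nat_lit 54879) (S (nat_lit 19828) (S (nat_lit 28554) (S (nat_lit 8779) (S (nat_lit 39603) (S (nat_lit 40805) (S (nat_lit 50494) (S (nat_lit 1257) (S (nat_lit 12311) (S (nat_lit 41243) (S (nat_lit 50463) (S (nat_lit 32050) (S (nat_lit 12280) (S (nat_lit 36716) (S (nat_lit 36766) (S (nat_lit 44231) (S (nat_lit 58824) (S (nat_lit 43101) (D (nat_lit 15) (nat_lit 15585505) (nat_lit 25759053) (nat_lit 211669851174))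
(L (nat_lit 21863937)))
(L (nat_lit 22536483)))
(S (nat_lit 57657) (S (nat_lit 22915) (S (nat_lit 18324) (D (nat_lit 15) (nat_lit 28027948) (nat_lit 25761036) (nat_lit 207403293922))
(L (nat_lit 28821760)))
(L (nat_lit 19774720)))
(L (nat_lit 18009898))))
(L (nat_lit 15361312)))
(L (nat_lit 10216463)))
(L (nat_lit 1494859)))
(L (nat_lit 20825190)))
(L (nat_lit 12205920)))
(L (nat_lit 6746787)))
(L (nat_lit 6386069)))
(L (nat_lit 13265125)))
(L (nat_lit 10607132)))
(L (nat_lit 23375896)))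
(L (nat_lit 23413851)))
(L (nat_lit 6686299)))
(L (nat_lit 8511280)))
(L (nat_lit 8970293)))
(L (nat_lit 15852917)))
(L (nat_lit 15851765)))
(L (nat_lit 19670403)))
(L (nat_lit 22820129)))
(L (nat_lit 14737749)))
(L (nat_lit 30650485)))
(S (nat_lit 40768) (S (nat_lit 8939) (S (nat_lit 8748) (L (nat_lit 1945844))
(L (nat_lit 8140820)))
(S (nat_lit 48323) (S (nat_lit 48290) (S (nat_lit 37473) (L (nat_lit 552520))
(L (nat_lit 7883620)))
(L (nat_lit 27494805)))
(L (nat_lit 11657749))))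
(L (nat_lit 25281780)))))
(S (nat_lit 30713) (S (nat_lit 15356) (S (nat_lit 1776) (S (nat_lit 39590) (S (nat_lit 19778) (S (nat_lit 8773) (S (nat_lit 21043) (L (nat_lit 14699402))
(L (nat_lit 30972516)))
(L (nat_lit 1291963)))
(L (nat_lit 21897669)))
(L (nat_lit 4770571)))
(S (nat_lit 21540) (S (nat_lit 15371) (S (nat_lit 8810) (L (nat_lit 10565276))
(L (nat_lit 7790773)))
(L (nat_lit 22536362)))
(S (nat_lit 41304) (S (nat_lit 8779) (S (nat_lit 20750) (L (nat_lit 15000757))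
(L (nat_lit 22115783)))
(S (nat_lit 30668) (L (nat_lit 18090589))
(L (nat_lit 1325819))))
(L (nat_lit 25281163)))))
(S (nat_lit 35120) (S (nat_lit 1229) (S (nat_lit 986) (S (nat_lit 1944) (S (nat_lit 1034) (L (nat_lit 28887047))
(L (nat_lit 13944893)))
(L (nat_lit 12182949)))
(L (nat_lit 20185969)))
(S (nat_lit 20993) (S (nat_lit 20386) (L (nat_lit 10614350))
(S (nat_lit 40805) (S (nat_lit 48323) (S (nat_lit 41472) (L (nat_lit 28521493))
(L (nat_lit 16894889)))
(L (nat_lit 22143213)))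
(L (nat_lit 2832201))))
(S (nat_lit 40757) (S (nat_lit 20979) (S (nat_lit 972) (S (nat_lit 41547) (S (nat_lit 40562) (L (nat_lit 9994905))
(L (nat_lit 23180536)))
(L (nat_lit 24382349)))
(L (nat_lit 19161506)))
(L (nat_lit 30689388)))
(L (nat_lit 25341399)))))
(S (nat_lit 54884) (S (nat_lit 17594) (S (nat_lit 15371) (L (nat_lit 8950548))
(L (nat_lit 22536362)))
(S (nat_lit 37274) (S (nat_lit 21465) (S (nat_lit 30763) (S (nat_lit 30741) (S (nat_lit 54862) (S (nat_lit 54912) (S (nat_lit 37324) (S (nat_lit 48323) (S (nat_lit 40575) (S (nat_lit 21527) (S (nat_lit 48351) (S (nat_lit 15309) (S (nat_lit 15340) (S (nat_lit 40774) (S (nat_lit 1329) (S (nat_lit 57071) (S (nat_lit 1301) (S (nat_lit 41199) (S (nat_lit 21393) (S (nat_lit 21054) (S (nat_lit 20750) (S (nat_lit 19806) (S (nat_lit 14765) (S (nat_lit 28405) (S (nat_lit 42613) (S (nat_lit 5445) (S (nat_lit 3035) (D (nat_lit 13) (nat_lit 28972455) (nat_lit 14421298) (nat_lit 172942727200))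
(L (nat_lit 27930949)))
(L (nat_lit 28597732)))
(L (nat_lit 22913509)))
(L (nat_lit 29012324)))
(S (nat_lit 45722) (S (nat_lit 14193) (S (nat_lit 52852) (S (nat_lit 23385) (S (nat_lit 47009) (S (nat_lit 13948) (D (nat_lit 13) (nat_lit 27893124) (nat_lit 19063241) (nat_lit 4434595741760))
(L (nat_lit 28727586)))
(L (nat_lit 19360839)))
(L (nat_lit 19773513)))
(L (nat_lit 20390789)))
(L (nat_lit 28592516)))
(L (nat_lit 30855270))))
(L (nat_lit 14945075)))
(L (nat_lit 15270663)))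
(L (nat_lit 30704301)))
(L (nat_lit 10360396)))
(L (nat_lit 934098)))
(L (nat_lit 5000400)))
(L (nat_lit 21795371)))
(L (nat_lit 4673448)))
(L (nat_lit 10262191)))
(L (nat_lit 15328514)))
(L (nat_lit 14705877)))
(L (nat_lit 5947175)))
(L (nat_lit 21181563)))
(L (nat_lit 9492957)))
(L (nat_lit 22844655)))
(L (nat_lit 20755465)))
(L (nat_lit 21345403)))
(L (nat_lit 27473075)))
(L (nat_lit 24415023)))
(L (nat_lit 9024536)))
(L (nat_lit 8271428)))
(L (nat_lit 23082922))))
(L (nat_lit 25799172)))))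
(S (nat_lit 50477) (S (nat_lit 1257) (S (nat_lit 1034) (S (nat_lit 1944) (S (nat_lit 972) (S (nat_lit 48323) (S (nat_lit 57049) (S (nat_lit 2006) (S (nat_lit 1229) (S (nat_lit 1975) (S (nat_lit 21527) (S (nat_lit 39603) (S (nat_lit 54868) (S (nat_lit 1776) (S (nat_lit 40525) (S (nat_lit 52090) (S (nat_lit 16623) (S (nat_lit 16654) (S (nat_lit 19828) (S (nat_lit 25572) (S (nat_lit 58430) (S (nat_lit 46322) (S (nat_lit 6520) (S (nat_lit 57852) (D (nat_lit 13) (nat_lit 16646825) (nat_lit 5839630) (nat_lit 6772299404481))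
(L (nat_lit 22536450)))
(L (nat_lit 30064964)))
(L (nat_lit 29903203)))
(L (nat_lit 30098789)))
(S (nat_lit 42541) (S (nat_lit 4852) (S (nat_lit 29581) (D (nat_lit 15) (nat_lit 5135785) (nat_lit 19666312) (nat_lit 5574271200))
(L (nat_lit 28597733)))
(L (nat_lit 31174853)))
(L (nat_lit 20185532))))
(L (nat_lit 16452489)))
(L (nat_lit 28692868)))
(L (nat_lit 28791045)))
(L (nat_lit 19761610)))
(L (nat_lit 8293909)))
(L (nat_lit 26500580)))
(L (nat_lit 19137084)))
(L (nat_lit 17522976)))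
(L (nat_lit 276187)))
(L (nat_lit 3389083)))
(L (nat_lit 14422695)))
(L (nat_lit 12804119)))
(L (nat_lit 4418128)))
(L (nat_lit 11088922)))
(L (nat_lit 4994386)))
(L (nat_lit 12181891)))
(S (nat_lit 20798) (S (nat_lit 48323) (S (nat_lit 57071) (S (nat_lit 40805) (L (nat_lit 12063354))
(L (nat_lit 23082296)))
(L (nat_lit 27995150)))
(L (nat_lit 22296420)))
(S (nat_lit 40562) (S (nat_lit 48323) (S (nat_lit 21739) (S (nat_lit 20979) (L (nat_lit 21083388))
(L (nat_lit 30840394)))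
(L (nat_lit 8303764)))
(L (nat_lit 4470488)))
(L (nat_lit 25283113)))))
(S (nat_lit 21021) (S (nat_lit 1215) (S (nat_lit 54912) (S (nat_lit 21750) (S (nat_lit 1701) (L (nat_lit 28790858))
(L (nat_lit 10062232)))
(L (nat_lit 30911173)))
(L (nat_lit 11002464)))
(S (nat_lit 20979) (S (nat_lit 20736) (S (nat_lit 50510) (L (nat_lit 5990702))
(L (nat_lit 15280997)))
(S (nat_lit 56392) (L (nat_lit 15588457))
(L (nat_lit 14756444))))
(S (nat_lit 40743) (S (nat_lit 54868) (S (nat_lit 48323) (L (nat_lit 22516618))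
(L (nat_lit 22296420)))
(L (nat_lit 4478364)))
(L (nat_lit 25506930)))))
(S (nat_lit 40785) (S (nat_lit 10997) (S (nat_lit 20767) (S (nat_lit 8762) (L (nat_lit 6809683))
(L (nat_lit 15345477)))
(L (nat_lit 12497941)))
(S (nat_lit 30761) (S (nat_lit 17558) (S (nat_lit 1975) (L (nat_lit 5723050))
(L (nat_lit 14312490)))
(S (nat_lit 20621) (L (nat_lit 6952507))
(L (nat_lit 8021381))))
(S (nat_lit 50525) (S (nat_lit 2006) (S (nat_lit 48290) (S (nat_lit 48323) (L (nat_lit 30126091))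
(L (nat_lit 27348427)))
(L (nat_lit 22038410)))
(L (nat_lit 13542423)))
(L (nat_lit 25854411)))))
(L (nat_lit 25865733)))))
(L (nat_lit 25667141)))))
(L (nat_lit 25662678)))))
(S (nat_lit 41260) (S (nat_lit 1257) (S (nat_lit 1969) (S (nat_lit 1748) (S (nat_lit 1215) (S (nat_lit 35087) (S (nat_lit 30713) (L (nat_lit 19139995))
(L (nat_lit 14382154)))
(L (nat_lit 20477002)))
(S (nat_lit 20979) (S (nat_lit 1991) (S (nat_lit 19789) (S (nat_lit 1279) (S (nat_lit 1726) (S (nat_lit 1776) (S (nat_lit 37324) (S (nat_lit 19811) (S (nat_lit 37274) (S (nat_lit 57024) (S (nat_lit 41291) (S (nat_lit 17543) (S (nat_lit 62) (S (nat_lit 39570) (S (nat_lit 17521) (S (nat_lit 17571) (S (nat_lit 41229) (S (nat_lit 21750) (S (nat_lit 40818) (S (nat_lit 40790) (S (nat_lit 41534) (S (nat_lit 21507) (S (nat_lit 41472) (S (nat_lit 1036) (S (nat_lit 48351) (S (nat_lit 40547) (S (nat_lit 40575) (S (nat_lit 48323) (S (nat_lit 8762) (S (nat_lit 12238) (S (nat_lit 51313)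 (S (nat_lit 35025) (S (nat_lit 51587) (S (nat_lit 51344) (S (nat_lit 32068) (S (nat_lit 53975) (S (nat_lit 55540) (S (nat_lit 49126) (S (nat_lit 41440) (S (nat_lit 37184) (D (nat_lit 13) (nat_lit 10275234) (nat_lit 11048722) (nat_lit 7977101820000))
(L (nat_lit 15926036)))
(L (nat_lit 26887393)))
(S (nat_lit 54879) (S (nat_lit 38110) (S (nat_lit 5436) (D (nat_lit 11) (nat_lit 16567303) (nat_lit 805355) (nat_lit 281320622240))
(L (nat_lit 27866434)))
(L (nat_lit 19312387)))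
(L (nat_lit 4613702))))
(L (nat_lit 29853419)))
(L (nat_lit 257428)))
(L (nat_lit 7368397)))
(L (nat_lit 8450515)))
(L (nat_lit 8417747)))
(L (nat_lit 291408)))
(L (nat_lit 8417872)))
(S (nat_lit 20826) (S (nat_lit 946) (S (nat_lit 38960) (S (nat_lit 21069) (S (nat_lit 242) (S (nat_lit 38898) (S (nat_lit 3094) (S (nat_lit 16919) (S (nat_lit 32580) (D (nat_lit 11) (nat_lit 31147046) (nat_lit 18997801) (nat_lit 206193138759))
(L (nat_lit 21490981)))
(L (nat_lit 28969384)))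
(S (nat_lit 30730) (S (nat_lit 36711) (S (nat_lit 33946) (S (nat_lit 6778) (D (nat_lit 13) (nat_lit 30086538) (nat_lit 19096035) (nat_lit 7698733139009))
(L (nat_lit 29983113)))
(L (nat_lit 19735077)))
(L (nat_lit 27740516)))
(L (nat_lit 24397731))))
(L (nat_lit 10373668)))
(L (nat_lit 24704171)))
(L (nat_lit 858733)))
(L (nat_lit 27723028)))
(L (nat_lit 24675083)))
(S (nat_lit 50462) (S (nat_lit 16391) (S (nat_lit 16419) (S (nat_lit 23637) (S (nat_lit 51166) (S (nat_lit 30623) (S (nat_lit 29881) (S (nat_lit 41440) (S (nat_lit 49157) (D (nat_lit 13) (nat_lit 6080934) (nat_lit 10602258) (nat_lit 7980222382083))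
(L (nat_lit 21775585)))
(L (nat_lit 26887393)))
(S (nat_lit 56473) (S (nat_lit 18357) (S (nat_lit 29922) (D (nat_lit 15) (nat_lit 27965510) (nat_lit 25600178) (nat_lit 209380908260))
(L (nat_lit 27862496)))
(L (nat_lit 27898080)))
(L (nat_lit 20243564))))
(L (nat_lit 225715)))
(L (nat_lit 29656631)))
(L (nat_lit 27696146)))
(L (nat_lit 27712522)))
(L (nat_lit 27680001)))
(L (nat_lit 24450458)))))
(L (nat_lit 14904900)))
(L (nat_lit 28032011)))
(L (nat_lit 28034058)))
(L (nat_lit 27968771)))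
(L (nat_lit 27966721)))
(S (nat_lit 41107) (S (nat_lit 36884) (S (nat_lit 46289) (L (nat_lit 6468184))
(L (nat_lit 26819777)))
(L (nat_lit 26851683)))
(L (nat_lit 4445999))))
(L (nat_lit 23489893)))
(L (nat_lit 22035674)))
(L (nat_lit 2313786)))
(L (nat_lit 221040)))
(L (nat_lit 23872554)))
(L (nat_lit 10540604)))
(L (nat_lit 24028580)))
(L (nat_lit 26388917)))
(L (nat_lit 16427907)))
(L (nat_lit 23569153)))
(L (nat_lit 13506742)))
(L (nat_lit 6409006)))
(L (nat_lit 3909457)))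
(L (nat_lit 21219169)))
(L (nat_lit 14551346)))
(L (nat_lit 22522757)))
(L (nat_lit 20384584)))
(L (nat_lit 19404985)))
(L (nat_lit 18949007)))
(L (nat_lit 19405604)))
(L (nat_lit 9460526)))
(S (nat_lit 49225) (L (nat_lit 17408901))
(L (nat_lit 13279420))))
(S (nat_lit 40743) (S (nat_lit 40525) (S (nat_lit 50525) (L (nat_lit 16950036))
(L (nat_lit 20301637)))
(L (nat_lit 23956782)))
(L (nat_lit 25567346)))))
(S (nat_lit 21512) (S (nat_lit 17510) (S (nat_lit 10949) (L (nat_lit 13863701))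
(L (nat_lit 7367244)))
(S (nat_lit 37274) (S (nat_lit 21490) (S (nat_lit 2019) (S (nat_lit 1229) (L (nat_lit 12671879))
(L (nat_lit 13758119)))
(L (nat_lit 13660498)))
(L (nat_lit 30727279)))
(S (nat_lit 57038) (S (nat_lit 35087) (L (nat_lit 19052394))
(L (nat_lit 13273401)))
(L (nat_lit 25857547)))))
(S (nat_lit 41276) (S (nat_lit 1279) (S (nat_lit 35073) (L (nat_lit 14519606))
(L (nat_lit 20181505)))
(S (nat_lit 21043) (S (nat_lit 48351) (S (nat_lit 35104) (S (nat_lit 30730) (L (nat_lit 13704086))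
(L (nat_lit 13704792)))
(L (nat_lit 19996056)))
(L (nat_lit 20722758)))
(S (nat_lit 40807) (S (nat_lit 30761) (S (nat_lit 54868) (L (nat_lit 20311214))
(L (nat_lit 14456915)))
(L (nat_lit 14456979)))
(L (nat_lit 25396628)))))
(L (nat_lit 25511062)))))
(S (nat_lit 21733) (S (nat_lit 10960) (S (nat_lit 2019) (S (nat_lit 8773) (S (nat_lit 21043) (S (nat_lit 21529) (S (nat_lit 48276) (L (nat_lit 23593834))
(L (nat_lit 20879873)))
(L (nat_lit 30611054)))
(L (nat_lit 1794382)))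
(L (nat_lit 26950979)))
(S (nat_lit 21783) (S (nat_lit 6474) (L (nat_lit 1391258))
(S (nat_lit 40514) (S (nat_lit 15323) (S (nat_lit 40500) (S (nat_lit 28543) (L (nat_lit 21278813))
(L (nat_lit 3953033)))
(L (nat_lit 23227724)))
(L (nat_lit 1887787)))
(L (nat_lit 27525777))))
(S (nat_lit 41547) (S (nat_lit 35073) (S (nat_lit 21026) (L (nat_lit 17931029))
(L (nat_lit 15947963)))
(S (nat_lit 55029) (L (nat_lit 26253968))
(L (nat_lit 9454485))))
(L (nat_lit 25926085)))))
(S (nat_lit 30724) (S (nat_lit 15340) (S (nat_lit 10997) (S (nat_lit 2006) (S (nat_lit 17543) (L (nat_lit 17574935))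
(L (nat_lit 1362732)))
(L (nat_lit 13657302)))
(L (nat_lit 1515132)))
(S (nat_lit 35104) (S (nat_lit 28543) (S (nat_lit 1215) (S (nat_lit 41243) (L (nat_lit 30690755))
(L (nat_lit 23967912)))
(L (nat_lit 14470469)))
(L (nat_lit 19267896)))
(S (nat_lit 54868) (S (nat_lit 35073) (S (nat_lit 1715) (S (nat_lit 19826) (S (nat_lit 21043) (L (nat_lit 17373213))
(L (nat_lit 31141249)))
(L (nat_lit 30972086)))
(L (nat_lit 19708131)))
(L (nat_lit 12589973)))
(L (nat_lit 25475155)))))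
(S (nat_lit 50488) (S (nat_lit 1240) (S (nat_lit 35137) (S (nat_lit 48351) (S (nat_lit 50510) (L (nat_lit 22536266))
(L (nat_lit 22110446)))
(L (nat_lit 20722945)))
(L (nat_lit 20825315)))
(S (nat_lit 21004) (S (nat_lit 15309) (S (nat_lit 19811) (S (nat_lit 10982) (L (nat_lit 28432935))
(L (nat_lit 6370101)))
(L (nat_lit 31081482)))
(S (nat_lit 20113) (L (nat_lit 451861))
(L (nat_lit 1262389))))
(S (nat_lit 40768) (S (nat_lit 2006) (S (nat_lit 15351) (L (nat_lit 26234311))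
(L (nat_lit 26617013)))
(L (nat_lit 19836998)))
(L (nat_lit 25764879)))))
(L (nat_lit 25408099)))))
(S (nat_lit 41497) (S (nat_lit 11010) (S (nat_lit 10997) (S (nat_lit 15340) (S (nat_lit 41254) (L (nat_lit 8783733))
(L (nat_lit 18450247)))
(L (nat_lit 582963)))
(S (nat_lit 30761) (S (nat_lit 40525) (S (nat_lit 40757) (S (nat_lit 40547) (L (nat_lit 8292853))
(L (nat_lit 16966247)))
(L (nat_lit 23957959)))
(L (nat_lit 17665333)))
(S (nat_lit 50525) (S (nat_lit 21010) (S (nat_lit 1748) (S (nat_lit 19806) (L (nat_lit 30120353))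
(L (nat_lit 9190113)))
(L (nat_lit 20809094)))
(L (nat_lit 7090817)))
(L (nat_lit 25312938)))))
(S (nat_lit 30774) (S (nat_lit 21703) (L (nat_lit 13920899))
(S (nat_lit 40525) (S (nat_lit 35135) (S (nat_lit 20800) (S (nat_lit 39603) (S (nat_lit 28526) (L (nat_lit 3797514))
(L (nat_lit 9068655)))
(L (nat_lit 23259436)))
(L (nat_lit 12354127)))
(S (nat_lit 39703) (L (nat_lit 21858639))
(L (nat_lit 9273999))))
(L (nat_lit 4053231))))
(S (nat_lit 50538) (S (nat_lit 35087) (S (nat_lit 5821) (L (nat_lit 20788484))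
(S (nat_lit 35073) (S (nat_lit 21041) (S (nat_lit 39603) (L (nat_lit 554727))
(L (nat_lit 27412135)))
(L (nat_lit 1953287)))
(L (nat_lit 12589973))))
(L (nat_lit 20149327)))
(L (nat_lit 25858470)))))
(L (nat_lit 25281748)))))
(S (nat_lit 21021) (S (nat_lit 17558) (S (nat_lit 17571) (S (nat_lit 972) (S (nat_lit 21739) (S (nat_lit 10999) (S (nat_lit 15373) (L (nat_lit 17878826))
(L (nat_lit 668456)))
(L (nat_lit 477992)))
(S (nat_lit 34717) (L (nat_lit 6750937))
(L (nat_lit 2017738))))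
(S (nat_lit 20736) (S (nat_lit 21043) (S (nat_lit 15356) (L (nat_lit 7501389))
(L (nat_lit 24229084)))
(L (nat_lit 14710101)))
(S (nat_lit 40500) (S (nat_lit 6014) (L (nat_lit 7160882))
(S (nat_lit 8762) (S (nat_lit 47) (S (nat_lit 21770) (S (nat_lit 40514) (S (nat_lit 48323) (S (nat_lit 15351) (L (nat_lit 26775765))
(L (nat_lit 421511)))
(L (nat_lit 22328378)))
(L (nat_lit 7492090)))
(L (nat_lit 16633088)))
(L (nat_lit 19376156)))
(L (nat_lit 6304349))))
(L (nat_lit 25441363)))))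
(S (nat_lit 37335) (S (nat_lit 1246) (S (nat_lit 11010) (S (nat_lit 15384) (L (nat_lit 23335791))
(L (nat_lit 1982054)))
(L (nat_lit 1988006)))
(S (nat_lit 21010) (S (nat_lit 15371) (S (nat_lit 10977) (S (nat_lit 10935) (L (nat_lit 31064458))
(L (nat_lit 6345519)))
(L (nat_lit 7957679)))
(S (nat_lit 15776) (L (nat_lit 4875503))
(L (nat_lit 1565042))))
(S (nat_lit 40774) (S (nat_lit 11828) (L (nat_lit 14245991))
(S (nat_lit 17496) (S (nat_lit 8748) (S (nat_lit 21043) (S (nat_lit 21529) (S (nat_lit 40768) (L (nat_lit 7762005))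
(L (nat_lit 614923)))
(L (nat_lit 751015)))
(L (nat_lit 7042465)))
(S (nat_lit 48456) (L (nat_lit 5632468))
(L (nat_lit 254670))))
(L (nat_lit 7898933))))
(L (nat_lit 25381006)))))
(S (nat_lit 57099) (S (nat_lit 10966) (S (nat_lit 21512) (S (nat_lit 15340) (S (nat_lit 15371) (S (nat_lit 20778) (L (nat_lit 30062697))
(L (nat_lit 5904922)))
(L (nat_lit 1972660)))
(L (nat_lit 24510779)))
(L (nat_lit 465531)))
(S (nat_lit 30730) (S (nat_lit 40525) (S (nat_lit 28526) (S (nat_lit 10982) (L (nat_lit 17978122))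
(L (nat_lit 1651498)))
(L (nat_lit 12804213)))
(L (nat_lit 8291893)))
(S (nat_lit 50494) (S (nat_lit 8748) (S (nat_lit 21490) (S (nat_lit 41276) (L (nat_lit 12126030))
(L (nat_lit 27919664)))
(L (nat_lit 21366567)))
(L (nat_lit 1890510)))
(L (nat_lit 25429581)))))
(L (nat_lit 25307575)))))
(S (nat_lit 37322) (S (nat_lit 1215) (S (nat_lit 17521) (S (nat_lit 10997) (S (nat_lit 17543) (S (nat_lit 21490) (L (nat_lit 26566020))
(L (nat_lit 7756581)))
(L (nat_lit 635690)))
(S (nat_lit 36162) (L (nat_lit 1617812))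
(L (nat_lit 1696202))))
(S (nat_lit 37285) (S (nat_lit 41243) (S (nat_lit 41304) (S (nat_lit 1279) (S (nat_lit 14) (S (nat_lit 21755) (S (nat_lit 47) (S (nat_lit 21708) (S (nat_lit 8441) (L (nat_lit 3710682))
(S (nat_lit 48351) (S (nat_lit 40500) (S (nat_lit 30774) (L (nat_lit 5688666))
(L (nat_lit 2936327)))
(L (nat_lit 27342442)))
(L (nat_lit 22821990))))
(L (nat_lit 1984907)))
(L (nat_lit 6787676)))
(L (nat_lit 1731974)))
(L (nat_lit 20166748)))
(L (nat_lit 12605227)))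
(L (nat_lit 3956169)))
(L (nat_lit 3601032)))
(S (nat_lit 57049) (S (nat_lit 35087) (S (nat_lit 40547) (L (nat_lit 12874305))
(L (nat_lit 24288664)))
(S (nat_lit 38216) (L (nat_lit 4645175))
(L (nat_lit 17883410))))
(L (nat_lit 25381005)))))
(S (nat_lit 20979) (S (nat_lit 10997) (S (nat_lit 41276) (S (nat_lit 75) (S (nat_lit 10935) (S (nat_lit 37291) (S (nat_lit 40564) (S (nat_lit 48351) (S (nat_lit 48307) (S (nat_lit 15334) (S (nat_lit 10977) (S (nat_lit 41243) (S (nat_lit 41291) (S (nat_lit 37324) (S (nat_lit 17963) (S (nat_lit 9315) (S (nat_lit 48318) (S (nat_lit 21770) (S (nat_lit 2536) (S (nat_lit 15518) (S (nat_lit 52644) (S (nat_lit 47935) (S (nat_lit 32738) (S (nat_lit 52147) (D (nat_lit 13) (nat_lit 2967974) (nat_lit 25761969) (nat_lit 1168507080807))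
(L (nat_lit 30061642)))
(L (nat_lit 22885698)))
(L (nat_lit 21838951)))
(L (nat_lit 30032998)))
(L (nat_lit 30096581)))
(S (nat_lit 43852) (S (nat_lit 11030) (S (nat_lit 42799) (S (nat_lit 37173) (S (nat_lit 56504) (D (nat_lit 13) (nat_lit 8178114) (nat_lit 25765041) (nat_lit 41949596869))
(L (nat_lit 23471011)))
(L (nat_lit 28980547)))
(L (nat_lit 15603366)))
(L (nat_lit 27483653)))
(L (nat_lit 22840745))))
(L (nat_lit 22852680)))
(L (nat_lit 22136157)))
(L (nat_lit 24306119)))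
(L (nat_lit 3742108)))
(L (nat_lit 20264770)))
(L (nat_lit 6403926)))
(L (nat_lit 17407162)))
(L (nat_lit 6376335)))
(L (nat_lit 6310331)))
(L (nat_lit 27854216)))
(L (nat_lit 27446662)))
(L (nat_lit 8213893)))
(L (nat_lit 13737597)))
(L (nat_lit 663343)))
(L (nat_lit 6452876)))
(L (nat_lit 6971811)))
(S (nat_lit 30761) (S (nat_lit 40575) (S (nat_lit 40525) (S (nat_lit 30741) (S (nat_lit 21733) (S (nat_lit 37274) (S (nat_lit 40547) (S (nat_lit 48323) (S (nat_lit 41254) (S (nat_lit 40514) (S (nat_lit 21739) (S (nat_lit 54851) (S (nat_lit 48338) (S (nat_lit 25) (S (nat_lit 24747) (S (nat_lit 21755) (S (nat_lit 24769) (S (nat_lit 41291) (S (nat_lit 37307) (S (nat_lit 31995) (S (nat_lit 32766) (S (nat_lit 25789) (S (nat_lit 38603) (S (nat_lit 22063) (D (nat_lit 13) (nat_lit 17582308) (nat_lit 25767089) (nat_lit 107548347556))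
(L (nat_lit 29016355)))
(L (nat_lit 19309691)))
(L (nat_lit 27698821)))
(L (nat_lit 20373765)))
(S (nat_lit 55803) (S (nat_lit 1321) (S (nat_lit 19730) (S (nat_lit 55792) (S (nat_lit 42843) (S (nat_lit 43896) (D (nat_lit 13) (nat_lit 16537643) (nat_lit 25762929) (nat_lit 7902849079392))
(L (nat_lit 30095462)))
(L (nat_lit 15554757)))
(L (nat_lit 29967435)))
(L (nat_lit 27766372)))
(L (nat_lit 27870500)))
(L (nat_lit 26885288))))
(L (nat_lit 14357387)))
(L (nat_lit 18696294)))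
(L (nat_lit 11995029)))
(L (nat_lit 16425145)))
(L (nat_lit 11437458)))
(L (nat_lit 14461108)))
(L (nat_lit 16537957)))
(L (nat_lit 27512197)))
(L (nat_lit 16688772)))
(L (nat_lit 23968935)))
(L (nat_lit 23388270)))
(L (nat_lit 20209679)))
(L (nat_lit 27461015)))
(L (nat_lit 13651883)))
(L (nat_lit 16321322)))
(L (nat_lit 14388604)))
(L (nat_lit 23956783)))
(L (nat_lit 17557674)))
(S (nat_lit 50525) (S (nat_lit 48351) (S (nat_lit 21708) (S (nat_lit 40547) (S (nat_lit 21043) (S (nat_lit 48276) (S (nat_lit 21739) (S (nat_lit 35073) (S (nat_lit 50494) (S (nat_lit 48338) (S (nat_lit 37260) (S (nat_lit 41293) (S (nat_lit 64) (S (nat_lit 40542) (S (nat_lit 21722) (S (nat_lit 42) (S (nat_lit 46293) (S (nat_lit 20993) (S (nat_lit 8957) (S (nat_lit 39310) (S (nat_lit 36394) (S (nat_lit 31104) (D (nat_lit 11) (nat_lit 11358383) (nat_lit 25767024) (nat_lit 206400754821))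
(L (nat_lit 21098983)))
(L (nat_lit 28430763)))
(L (nat_lit 28430730)))
(S (nat_lit 47933) (S (nat_lit 52130) (S (nat_lit 54949) (S (nat_lit 49214) (D (nat_lit 11) (nat_lit 9327664) (nat_lit 25765038) (nat_lit 103252434183))
(L (nat_lit 29925059)))
(L (nat_lit 15605445)))
(L (nat_lit 29891203)))
(L (nat_lit 30684181))))
(L (nat_lit 21370939)))
(L (nat_lit 25050436)))
(L (nat_lit 1752408)))
(L (nat_lit 22200232)))
(L (nat_lit 1438444)))
(L (nat_lit 13994618)))
(L (nat_lit 1828234)))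
(L (nat_lit 14327681)))
(L (nat_lit 13989541)))
(L (nat_lit 12846898)))
(L (nat_lit 20383623)))
(L (nat_lit 2018638)))
(L (nat_lit 22218606)))
(L (nat_lit 30939317)))
(L (nat_lit 1746330)))
(L (nat_lit 15069765)))
(L (nat_lit 22811014)))
(L (nat_lit 25511588)))))
(S (nat_lit 40743) (S (nat_lit 47) (S (nat_lit 7488) (L (nat_lit 17749002))
(S (nat_lit 48307) (S (nat_lit 34740) (L (nat_lit 21194860))
(S (nat_lit 40525) (S (nat_lit 48276) (S (nat_lit 21722) (S (nat_lit 21783) (S (nat_lit 40562) (L (nat_lit 14971459))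
(L (nat_lit 8145411)))
(L (nat_lit 21250981)))
(L (nat_lit 21366009)))
(L (nat_lit 20153819)))
(L (nat_lit 17665333))))
(L (nat_lit 20028204))))
(S (nat_lit 19811) (S (nat_lit 52594) (L (nat_lit 4077130))
(S (nat_lit 57049) (S (nat_lit 1019) (L (nat_lit 1565015))
(L (nat_lit 9297283)))
(L (nat_lit 15569238))))
(S (nat_lit 39575) (S (nat_lit 40547) (S (nat_lit 39590) (S (nat_lit 41486) (L (nat_lit 20222364))
(L (nat_lit 24553626)))
(L (nat_lit 24917349)))
(L (nat_lit 23290275)))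
(L (nat_lit 25433526)))))
(L (nat_lit 25342290)))))
(S (nat_lit 57086) (S (nat_lit 1701) (S (nat_lit 10999) (S (nat_lit 15373) (S (nat_lit 30699) (L (nat_lit 10373132))
(L (nat_lit 14485127)))
(L (nat_lit 6885132)))
(S (nat_lit 30763) (S (nat_lit 28554) (S (nat_lit 1215) (S (nat_lit 37307) (S (nat_lit 41291) (L (nat_lit 29635635))
(L (nat_lit 3945687)))
(L (nat_lit 30938354)))
(L (nat_lit 13215864)))
(L (nat_lit 24699047)))
(S (nat_lit 50527) (S (nat_lit 1215) (S (nat_lit 48318) (S (nat_lit 1003) (L (nat_lit 28587616))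
(L (nat_lit 12968117)))
(L (nat_lit 10570510)))
(L (nat_lit 8500018)))
(L (nat_lit 25633475)))))
(S (nat_lit 21465) (S (nat_lit 1215) (S (nat_lit 20800) (S (nat_lit 40500) (L (nat_lit 10548812))
(L (nat_lit 7501389)))
(L (nat_lit 21094822)))
(S (nat_lit 20979) (S (nat_lit 2127) (L (nat_lit 9631374))
(S (nat_lit 46171) (L (nat_lit 1718123))
(L (nat_lit 6687602))))
(S (nat_lit 40743) (S (nat_lit 21043) (S (nat_lit 19811) (S (nat_lit 28512) (S (nat_lit 41276) (S (nat_lit 1765) (S (nat_lit 21750) (L (nat_lit 15962813))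
(L (nat_lit 10979186)))
(L (nat_lit 4930938)))
(L (nat_lit 1546874)))
(L (nat_lit 31064270)))
(L (nat_lit 22811018)))
(S (nat_lit 45463) (L (nat_lit 12706133))
(L (nat_lit 12433589))))
(L (nat_lit 25343315)))))
(S (nat_lit 41229) (S (nat_lit 10966) (S (nat_lit 10997) (S (nat_lit 20778) (L (nat_lit 12604202))
(L (nat_lit 15735666)))
(L (nat_lit 26674794)))
(S (nat_lit 30730) (S (nat_lit 54868) (S (nat_lit 40547) (S (nat_lit 21043) (S (nat_lit 40525) (S (nat_lit 21750) (S (nat_lit 30761) (S (nat_lit 48323) (L (nat_lit 17913148))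
(L (nat_lit 27381194)))
(L (nat_lit 8783483)))
(L (nat_lit 10979123)))
(L (nat_lit 16933173)))
(L (nat_lit 14999732)))
(L (nat_lit 16998979)))
(L (nat_lit 14570568)))
(S (nat_lit 50494) (S (nat_lit 20826) (L (nat_lit 24919210))
(S (nat_lit 40500) (S (nat_lit 21750) (S (nat_lit 57055) (S (nat_lit 48307) (L (nat_lit 5728562))
(L (nat_lit 15822408)))
(L (nat_lit 21268269)))
(L (nat_lit 11175724)))
(L (nat_lit 1701290))))
(L (nat_lit 25690386)))))
(L (nat_lit 25577826)))))
(L (nat_lit 25517228)))))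
(S (nat_lit 40785) (S (nat_lit 47) (S (nat_lit 8795) (S (nat_lit 1240) (L (nat_lit 28590261))
(S (nat_lit 21004) (S (nat_lit 54884) (L (nat_lit 21435306))
(L (nat_lit 27529967)))
(S (nat_lit 40768) (S (nat_lit 8748) (S (nat_lit 32394) (L (nat_lit 21865647))
(S (nat_lit 40525) (S (nat_lit 8812) (S (nat_lit 18429) (L (nat_lit 14455029))
(L (nat_lit 7452567)))
(L (nat_lit 8308785)))
(L (nat_lit 23465739))))
(S (nat_lit 40942) (L (nat_lit 13914980))
(L (nat_lit 8021006))))
(L (nat_lit 25445057)))))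
(S (nat_lit 28559) (S (nat_lit 41547) (S (nat_lit 41291) (S (nat_lit 8810) (S (nat_lit 1246) (L (nat_lit 13832925))
(L (nat_lit 3368404)))
(L (nat_lit 8053935)))
(L (nat_lit 23344899)))
(S (nat_lit 52562) (S (nat_lit 10921) (L (nat_lit 666041))
(L (nat_lit 518890)))
(L (nat_lit 24986853))))
(S (nat_lit 48323) (S (nat_lit 1958) (S (nat_lit 25037) (L (nat_lit 20443360))
(S (nat_lit 48351) (S (nat_lit 1047) (S (nat_lit 1986) (L (nat_lit 28676594))
(L (nat_lit 19370891)))
(S (nat_lit 52045) (L (nat_lit 7214610))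
(L (nat_lit 2858829))))
(L (nat_lit 27413895))))
(S (nat_lit 21722) (S (nat_lit 4081) (L (nat_lit 24940784))
(S (nat_lit 40525) (S (nat_lit 21010) (S (nat_lit 40575) (S (nat_lit 10982) (L (nat_lit 1650477))
(L (nat_lit 18427685)))
(L (nat_lit 8085956)))
(L (nat_lit 1559307)))
(L (nat_lit 1401396))))
(S (nat_lit 41486) (S (nat_lit 6461) (L (nat_lit 927186))
(S (nat_lit 21010) (S (nat_lit 40525) (S (nat_lit 57024) (L (nat_lit 17367291))
(L (nat_lit 12809269)))
(L (nat_lit 24535269)))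
(L (nat_lit 2017486))))
(L (nat_lit 25596584)))))
(L (nat_lit 25569331)))))
(S (nat_lit 19811) (S (nat_lit 1014) (S (nat_lit 8748) (S (nat_lit 37324) (S (nat_lit 2890) (S (nat_lit 49400) (L (nat_lit 12030589))
(L (nat_lit 23564538)))
(L (nat_lit 23584996)))
(L (nat_lit 30887138)))
(S (nat_lit 28512) (S (nat_lit 1277) (S (nat_lit 21004) (S (nat_lit 21512) (S (nat_lit 39592) (S (nat_lit 1229) (S (nat_lit 35073) (L (nat_lit 8914556))
(L (nat_lit 8410960)))
(L (nat_lit 20114887)))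
(L (nat_lit 18555964)))
(L (nat_lit 31113569)))
(L (nat_lit 30694415)))
(L (nat_lit 18964721)))
(S (nat_lit 48276) (S (nat_lit 50527) (L (nat_lit 4671739))
(L (nat_lit 22507746)))
(L (nat_lit 25893904)))))
(S (nat_lit 20778) (S (nat_lit 1765) (S (nat_lit 12352) (L (nat_lit 223952))
(S (nat_lit 35073) (S (nat_lit 1019) (L (nat_lit 11189125))
(L (nat_lit 2769671)))
(L (nat_lit 20448474))))
(S (nat_lit 21529) (S (nat_lit 17558) (L (nat_lit 4874666))
(L (nat_lit 8020357)))
(S (nat_lit 41293) (S (nat_lit 8650) (L (nat_lit 20877704))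
(S (nat_lit 21026) (S (nat_lit 21004) (S (nat_lit 8773) (L (nat_lit 28512663))
(L (nat_lit 17462594)))
(L (nat_lit 21250916)))
(L (nat_lit 2022823))))
(L (nat_lit 25925031)))))
(S (nat_lit 40542) (S (nat_lit 1986) (S (nat_lit 15323) (S (nat_lit 10949) (L (nat_lit 6994757))
(L (nat_lit 510794)))
(L (nat_lit 701258)))
(S (nat_lit 21750) (S (nat_lit 21026) (S (nat_lit 40807) (S (nat_lit 40514) (S (nat_lit 21507) (S (nat_lit 37274) (S (nat_lit 41229) (S (nat_lit 1991) (S (nat_lit 23804) (L (nat_lit 2309756))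
(L (nat_lit 8835937)))
(L (nat_lit 10122624)))
(L (nat_lit 23491723)))
(L (nat_lit 3733194)))
(L (nat_lit 5712604)))
(L (nat_lit 1495847)))
(L (nat_lit 16806470)))
(S (nat_lit 23024) (L (nat_lit 23194897))
(L (nat_lit 1533206))))
(S (nat_lit 41514) (S (nat_lit 15334) (S (nat_lit 10960) (S (nat_lit 17521) (L (nat_lit 13849475))
(L (nat_lit 6984155)))
(L (nat_lit 6951387)))
(L (nat_lit 6754971)))
(L (nat_lit 25410642)))))
(L (nat_lit 25547821)))))
(S (nat_lit 39575) (S (nat_lit 1763) (S (nat_lit 1743) (S (nat_lit 15036) (L (nat_lit 8568475))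
(S (nat_lit 21010) (S (nat_lit 40525) (S (nat_lit 48323) (S (nat_lit 35137) (L (nat_lit 13829848))
(L (nat_lit 23453713)))
(L (nat_lit 20013578)))
(L (nat_lit 10084398)))
(L (nat_lit 21466328))))
(S (nat_lit 21507) (S (nat_lit 36249) (L (nat_lit 4841742))
(S (nat_lit 41519) (S (nat_lit 17558) (S (nat_lit 39603) (S (nat_lit 19778) (S (nat_lit 1240) (S (nat_lit 21041) (S (nat_lit 21540) (S (nat_lit 57049) (S (nat_lit 972) (S (nat_lit 50505) (L (nat_lit 5937968))
(L (nat_lit 14945046)))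
(S (nat_lit 2880) (L (nat_lit 11656601))
(L (nat_lit 10630777))))
(L (nat_lit 12800188)))
(L (nat_lit 30465261)))
(L (nat_lit 30427687)))
(L (nat_lit 20749391)))
(L (nat_lit 22443114)))
(L (nat_lit 18014854)))
(L (nat_lit 6775428)))
(L (nat_lit 8446391))))
(S (nat_lit 41271) (S (nat_lit 6497) (L (nat_lit 259509))
(S (nat_lit 8748) (S (nat_lit 10982) (L (nat_lit 13708052))
(L (nat_lit 23597309)))
(L (nat_lit 7112398))))
(L (nat_lit 25514498)))))
(S (nat_lit 21527) (S (nat_lit 15351) (S (nat_lit 40547) (S (nat_lit 21041) (S (nat_lit 41519) (S (nat_lit 40774) (L (nat_lit 279193))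
(L (nat_lit 7850137)))
(L (nat_lit 9231744)))
(L (nat_lit 16567522)))
(L (nat_lit 17598055)))
(S (nat_lit 35115) (S (nat_lit 40531) (S (nat_lit 25) (S (nat_lit 21770) (S (nat_lit 21043) (L (nat_lit 5558158))
(L (nat_lit 4514229)))
(L (nat_lit 14700390)))
(L (nat_lit 26264264)))
(L (nat_lit 1749798)))
(S (nat_lit 54879) (S (nat_lit 21041) (S (nat_lit 40743) (S (nat_lit 57071) (L (nat_lit 6043208))
(L (nat_lit 21260772)))
(L (nat_lit 23966888)))
(L (nat_lit 1947335)))
(L (nat_lit 25731713)))))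
(S (nat_lit 41291) (S (nat_lit 10949) (S (nat_lit 35779) (L (nat_lit 6387253))
(S (nat_lit 39553) (S (nat_lit 8779) (S (nat_lit 37274) (S (nat_lit 8810) (S (nat_lit 37324) (S (nat_lit 17527) (S (nat_lit 55978) (S (nat_lit 62) (S (nat_lit 21512) (S (nat_lit 30774) (S (nat_lit 30724) (S (nat_lit 28526) (S (nat_lit 21490) (S (nat_lit 52068) (S (nat_lit 16726) (S (nat_lit 16757) (S (nat_lit 19806) (S (nat_lit 19778) (S (nat_lit 52018) (S (nat_lit 3330) (S (nat_lit 57171) (S (nat_lit 3361) (D (nat_lit 15) (nat_lit 31072332) (nat_lit 25761160) (nat_lit 110662619272))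
(L (nat_lit 30977701)))
(L (nat_lit 28911012)))
(S (nat_lit 37931) (S (nat_lit 48395) (S (nat_lit 14265) (D (nat_lit 15) (nat_lit 31006768) (nat_lit 25282952) (nat_lit 111702807719))
(L (nat_lit 30737133)))
(L (nat_lit 7233025)))
(L (nat_lit 1323794))))
(L (nat_lit 2421360)))
(L (nat_lit 15750459)))
(L (nat_lit 9341458)))
(L (nat_lit 20984125)))
(L (nat_lit 21181252)))
(L (nat_lit 30671286)))
(L (nat_lit 16668778)))
(L (nat_lit 18937101)))
(L (nat_lit 9057122)))
(L (nat_lit 19769455)))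
(L (nat_lit 22520643)))
(L (nat_lit 6480438)))
(L (nat_lit 7062340)))
(L (nat_lit 24567881)))
(L (nat_lit 30889992)))
(L (nat_lit 1973685)))
(L (nat_lit 30418452)))
(L (nat_lit 283468)))
(L (nat_lit 24363779))))
(S (nat_lit 30713) (S (nat_lit 37274) (S (nat_lit 30741) (S (nat_lit 8810) (S (nat_lit 8779) (S (nat_lit 30763) (S (nat_lit 21540) (S (nat_lit 40525) (S (nat_lit 15340) (S (nat_lit 21512) (S (nat_lit 37324) (S (nat_lit 15309) (S (nat_lit 62) (S (nat_lit 41116) (S (nat_lit 21010) (S (nat_lit 41519) (S (nat_lit 40575) (S (nat_lit 972) (S (nat_lit 1240) (S (nat_lit 28576) (S (nat_lit 14086) (S (nat_lit 6489) (S (nat_lit 25726) (S (nat_lit 5045) (S (nat_lit 6901) (S (nat_lit 52786) (D (nat_lit 13) (nat_lit 31004717) (nat_lit 19666125) (nat_lit 2271232394436))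
(L (nat_lit 28913888)))
(L (nat_lit 27924008)))
(L (nat_lit 31033770)))
(L (nat_lit 28842659)))
(L (nat_lit 31047971)))
(S (nat_lit 34505) (S (nat_lit 53979) (S (nat_lit 15268) (S (nat_lit 3330) (S (nat_lit 5517) (S (nat_lit 5288) (D (nat_lit 11) (nat_lit 31138862) (nat_lit 25275980) (nat_lit 74123054115))
(L (nat_lit 29997412)))
(L (nat_lit 30560746)))
(L (nat_lit 30560714)))
(L (nat_lit 31137249)))
(L (nat_lit 29046017)))
(L (nat_lit 4802342))))
(L (nat_lit 9277132)))
(L (nat_lit 9231908)))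
(L (nat_lit 26288749)))
(L (nat_lit 16898856)))
(L (nat_lit 2939304)))
(L (nat_lit 4420239)))
(L (nat_lit 2580821)))
(L (nat_lit 6436604)))
(L (nat_lit 8052784)))
(L (nat_lit 2438840)))
(L (nat_lit 30923848)))
(L (nat_lit 24698984)))
(L (nat_lit 17062009)))
(L (nat_lit 30464236)))
(L (nat_lit 9615000)))
(L (nat_lit 23650408)))
(L (nat_lit 21324196)))
(L (nat_lit 24393504)))
(L (nat_lit 2340473)))
(S (nat_lit 50477) (S (nat_lit 40525) (S (nat_lit 35148) (S (nat_lit 21010) (S (nat_lit 39553) (S (nat_lit 37324) (S (nat_lit 48323) (S (nat_lit 21512) (S (nat_lit 35120) (S (nat_lit 17558) (S (nat_lit 1765) (S (nat_lit 10982) (S (nat_lit 20750) (S (nat_lit 15373) (S (nat_lit 57071) (S (nat_lit 1715) (S (nat_lit 56442) (S (nat_lit 36910) (S (nat_lit 51626) (S (nat_lit 49166) (S (nat_lit 28869) (S (nat_lit 44800) (D (nat_lit 15) (nat_lit 26811564) (nat_lit 25759112) (nat_lit 5609883716))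
(L (nat_lit 17746149)))
(L (nat_lit 28916036)))
(S (nat_lit 57121) (S (nat_lit 10828) (S (nat_lit 24031) (D (nat_lit 15) (nat_lit 18701538) (nat_lit 2499346) (nat_lit 240526564488))
(L (nat_lit 29076932)))
(L (nat_lit 29009348)))
(L (nat_lit 4892493))))
(L (nat_lit 29726261)))
(L (nat_lit 8844000)))
(L (nat_lit 24911236)))
(L (nat_lit 19327203)))
(L (nat_lit 12659636)))
(L (nat_lit 24447450)))
(L (nat_lit 30840854)))
(L (nat_lit 447709)))
(L (nat_lit 18980282)))
(L (nat_lit 1729930)))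
(L (nat_lit 23358511)))
(L (nat_lit 8023427)))
(L (nat_lit 27544623)))
(L (nat_lit 14473224)))
(L (nat_lit 18780532)))
(L (nat_lit 1536372)))
(L (nat_lit 18001687)))
(S (nat_lit 41626) (L (nat_lit 1259192))
(L (nat_lit 1499381))))
(L (nat_lit 25174606)))))
(L (nat_lit 25441399)))))
(L (nat_lit 25247991)))))
(L (nat_lit 25855496)))))
(L (nat_lit 25498069)))))

theorem rb246_0_10 : run 4 lb246 [] tb246_0_10 kb246 [0, 21772, 31, 37302] [] = true := by
  decide +kernel

noncomputable def tb246_0_1 : Tr :=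
(S (nat_lit 1701) (S (nat_lit 15351) (S (nat_lit 1257) (S (nat_lit 8810) (S (nat_lit 17558) (S (nat_lit 15323) (S (nat_lit 17527) (S (nat_lit 8779) (S (nat_lit 62) (S (nat_lit 20736) (L (nat_lit 28608054))
(L (nat_lit 6737794)))
(L (nat_lit 19045296)))
(L (nat_lit 1369490)))
(L (nat_lit 1369709)))
(S (nat_lit 54770) (S (nat_lit 62) (L (nat_lit 9192626))
(L (nat_lit 20448605)))
(L (nat_lit 26260074))))
(L (nat_lit 673149)))
(S (nat_lit 28574) (S (nat_lit 8795) (S (nat_lit 17510) (S (nat_lit 20736) (S (nat_lit 1229) (L (nat_lit 1882695))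
(L (nat_lit 13210471)))
(L (nat_lit 6940813)))
(S (nat_lit 26181) (L (nat_lit 26287729))
(L (nat_lit 26780261))))
(S (nat_lit 28559) (S (nat_lit 30746) (S (nat_lit 1215) (S (nat_lit 1726) (L (nat_lit 1363759))
(L (nat_lit 26296533)))
(L (nat_lit 19278597)))
(L (nat_lit 19675332)))
(S (nat_lit 48323) (S (nat_lit 1036) (S (nat_lit 1246) (S (nat_lit 1047) (L (nat_lit 10501752))
(L (nat_lit 19402105)))
(L (nat_lit 19729775)))
(L (nat_lit 12899072)))
(L (nat_lit 25580587)))))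
(S (nat_lit 48338) (S (nat_lit 1047) (S (nat_lit 17521) (S (nat_lit 1215) (S (nat_lit 2019) (S (nat_lit 1246) (L (nat_lit 4077907))
(L (nat_lit 20811119)))
(L (nat_lit 18969933)))
(L (nat_lit 9211469)))
(L (nat_lit 24947885)))
(S (nat_lit 20731) (S (nat_lit 15309) (L (nat_lit 17572018))
(L (nat_lit 7866165)))
(L (nat_lit 19965432))))
(L (nat_lit 25657683)))))
(S (nat_lit 21021) (S (nat_lit 2019) (S (nat_lit 47) (S (nat_lit 8433) (L (nat_lit 24026221))
(S (nat_lit 15356) (S (nat_lit 1715) (S (nat_lit 19077) (S (nat_lit 10329) (S (nat_lit 42) (S (nat_lit 21026) (S (nat_lit 7514) (L (nat_lit 2676956))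
(L (nat_lit 20505828)))
(L (nat_lit 22806953)))
(L (nat_lit 12669304)))
(L (nat_lit 18966955)))
(L (nat_lit 13724235)))
(L (nat_lit 18967014)))
(L (nat_lit 1780493))))
(S (nat_lit 19811) (S (nat_lit 17527) (S (nat_lit 1036) (L (nat_lit 15806076))
(L (nat_lit 8437370)))
(S (nat_lit 25259) (L (nat_lit 1781305))
(L (nat_lit 26935721))))
(S (nat_lit 39575) (S (nat_lit 20736) (S (nat_lit 17543) (S (nat_lit 15323) (S (nat_lit 1215) (L (nat_lit 4405881))
(L (nat_lit 13410917)))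
(L (nat_lit 1847602)))
(S (nat_lit 21858) (L (nat_lit 6407059))
(L (nat_lit 18576581))))
(L (nat_lit 6376890)))
(L (nat_lit 25483313)))))
(S (nat_lit 21783) (S (nat_lit 17521) (S (nat_lit 39575) (S (nat_lit 8762) (S (nat_lit 41276) (S (nat_lit 20736) (S (nat_lit 8790) (S (nat_lit 48338) (S (nat_lit 19778) (S (nat_lit 21755) (S (nat_lit 37322) (S (nat_lit 21529) (S (nat_lit 22871) (S (nat_lit 40514) (S (nat_lit 45739) (S (nat_lit 41304) (S (nat_lit 21733) (S (nat_lit 32271) (S (nat_lit 58386) (S (nat_lit 22567) (S (nat_lit 15723) (S (nat_lit 17179) (S (nat_lit 572) (D (nat_lit 13) (nat_lit 28902923) (nat_lit 19062988) (nat_lit 1138169585830))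
(L (nat_lit 27865344)))
(L (nat_lit 30771857)))
(L (nat_lit 30559686)))
(L (nat_lit 28716705)))
(L (nat_lit 28915009)))
(S (nat_lit 38594) (S (nat_lit 16240) (S (nat_lit 12264) (S (nat_lit 36216) (S (nat_lit 37832) (S (nat_lit 3764) (D (nat_lit 13) (nat_lit 9264269) (nat_lit 25348555) (nat_lit 1314361869380))
(L (nat_lit 27676680)))
(L (nat_lit 19741952)))
(L (nat_lit 14808746)))
(L (nat_lit 28904842)))
(L (nat_lit 31037826)))
(L (nat_lit 13555881))))
(L (nat_lit 16049860)))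
(L (nat_lit 16834803)))
(L (nat_lit 19950960)))
(L (nat_lit 7978170)))
(L (nat_lit 14690905)))
(L (nat_lit 31135114)))
(L (nat_lit 30999946)))
(L (nat_lit 30660994)))
(L (nat_lit 15750457)))
(L (nat_lit 22821220)))
(L (nat_lit 1361814)))
(L (nat_lit 6918554)))
(L (nat_lit 27269527)))
(L (nat_lit 1880339)))
(L (nat_lit 27562390)))
(S (nat_lit 37285) (S (nat_lit 21529) (S (nat_lit 8795) (S (nat_lit 8823) (S (nat_lit 39575) (S (nat_lit 20736) (S (nat_lit 35120) (S (nat_lit 10982) (S (nat_lit 62) (S (nat_lit 8624) (S (nat_lit 1215) (S (nat_lit 15373) (S (nat_lit 39603) (S (nat_lit 50477) (S (nat_lit 33834) (S (nat_lit 997) (S (nat_lit 21369) (S (nat_lit 1572) (S (nat_lit 37981) (S (nat_lit 38465) (S (nat_lit 53951) (S (nat_lit 31321) (D (nat_lit 13) (nat_lit 29015207) (nat_lit 19666310) (nat_lit 1142468874437))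
(L (nat_lit 22486852)))
(L (nat_lit 22345156)))
(L (nat_lit 22918432)))
(L (nat_lit 22917378)))
(L (nat_lit 29012224)))
(S (nat_lit 46746) (S (nat_lit 32271) (S (nat_lit 57243) (S (nat_lit 46777) (S (nat_lit 40199) (S (nat_lit 32519) (D (nat_lit 13) (nat_lit 26807721) (nat_lit 25761191) (nat_lit 6681665601))
(L (nat_lit 28859745)))
(L (nat_lit 21874020)))
(L (nat_lit 29961327)))
(L (nat_lit 29954567)))
(L (nat_lit 20375744)))
(L (nat_lit 26479244))))
(L (nat_lit 12678453)))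
(L (nat_lit 29938856)))
(L (nat_lit 11002995)))
(L (nat_lit 24686369)))
(L (nat_lit 7484214)))
(L (nat_lit 19703917)))
(L (nat_lit 4451763)))
(L (nat_lit 6873238)))
(L (nat_lit 1831467)))
(L (nat_lit 23630073)))
(L (nat_lit 12161436)))
(L (nat_lit 12358038)))
(L (nat_lit 26907014)))
(L (nat_lit 14947091)))
(L (nat_lit 21553287)))
(S (nat_lit 57049) (S (nat_lit 28526) (S (nat_lit 8779) (S (nat_lit 41304) (S (nat_lit 1215) (S (nat_lit 19778) (S (nat_lit 54899) (S (nat_lit 35148) (S (nat_lit 30699) (S (nat_lit 8810) (S (nat_lit 20736) (S (nat_lit 57099) (S (nat_lit 31663) (S (nat_lit 56657) (S (nat_lit 20993) (S (nat_lit 14677) (S (nat_lit 3532) (S (nat_lit 54001) (S (nat_lit 6989) (S (nat_lit 54205) (S (nat_lit 9162) (D (nat_lit 13) (nat_lit 31131981) (nat_lit 401170) (nat_lit 6678418599))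
(L (nat_lit 31138306)))
(L (nat_lit 22315855)))
(L (nat_lit 29511147)))
(L (nat_lit 22885666)))
(L (nat_lit 27964772)))
(S (nat_lit 37495) (S (nat_lit 29211) (S (nat_lit 49864) (S (nat_lit 17972) (S (nat_lit 19416) (S (nat_lit 3764) (D (nat_lit 13) (nat_lit 27863522) (nat_lit 1853961) (nat_lit 4398218740872))
(L (nat_lit 27930916)))
(L (nat_lit 30825700)))
(L (nat_lit 31014954)))
(L (nat_lit 28907904)))
(L (nat_lit 15650080)))
(L (nat_lit 7388051))))
(L (nat_lit 16353033)))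
(L (nat_lit 28875954)))
(L (nat_lit 23891213)))
(L (nat_lit 21129639)))
(L (nat_lit 31003016)))
(L (nat_lit 2013523)))
(L (nat_lit 31144967)))
(L (nat_lit 13422880)))
(L (nat_lit 12407983)))
(L (nat_lit 30429489)))
(L (nat_lit 10917464)))
(L (nat_lit 24701099)))
(L (nat_lit 1466642)))
(L (nat_lit 13443652)))
(L (nat_lit 25376947)))))
(S (nat_lit 41547) (S (nat_lit 1958) (S (nat_lit 62) (S (nat_lit 11010) (S (nat_lit 15323) (S (nat_lit 10982) (S (nat_lit 41519) (S (nat_lit 1986) (S (nat_lit 1763) (S (nat_lit 41497) (S (nat_lit 1215) (S (nat_lit 20750) (S (nat_lit 41254) (S (nat_lit 1047) (S (nat_lit 57055) (L (nat_lit 5453561))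
(L (nat_lit 21261731)))
(L (nat_lit 20477282)))
(L (nat_lit 23470137)))
(L (nat_lit 16586407)))
(S (nat_lit 41836) (S (nat_lit 33283) (L (nat_lit 5946681))
(L (nat_lit 19704197)))
(L (nat_lit 19699080))))
(L (nat_lit 8805468)))
(L (nat_lit 2307991)))
(L (nat_lit 13686667)))
(L (nat_lit 23894128)))
(L (nat_lit 26818756)))
(L (nat_lit 1764747)))
(S (nat_lit 26266) (L (nat_lit 2878920))
(L (nat_lit 1453816))))
(S (nat_lit 52640) (L (nat_lit 26413681))
(L (nat_lit 26398033))))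
(S (nat_lit 21722) (S (nat_lit 11010) (L (nat_lit 21248833))
(L (nat_lit 1682873)))
(S (nat_lit 41486) (S (nat_lit 17538) (S (nat_lit 8773) (S (nat_lit 17521) (L (nat_lit 11211532))
(L (nat_lit 26790210)))
(L (nat_lit 26948930)))
(L (nat_lit 26948928)))
(L (nat_lit 25531025)))))
(L (nat_lit 25696931)))))
(S (nat_lit 40785) (S (nat_lit 1969) (S (nat_lit 1765) (S (nat_lit 48318) (S (nat_lit 57066) (L (nat_lit 9517660))
(L (nat_lit 6071887)))
(L (nat_lit 6071732)))
(S (nat_lit 21529) (S (nat_lit 54899) (S (nat_lit 48318) (S (nat_lit 57066) (L (nat_lit 3490395))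
(L (nat_lit 13410881)))
(L (nat_lit 20750753)))
(L (nat_lit 27645103)))
(S (nat_lit 41293) (S (nat_lit 50525) (L (nat_lit 14881400))
(L (nat_lit 13370986)))
(L (nat_lit 25744672)))))
(S (nat_lit 21733) (S (nat_lit 17496) (S (nat_lit 8748) (S (nat_lit 41304) (S (nat_lit 62) (L (nat_lit 16521234))
(L (nat_lit 26948746)))
(L (nat_lit 6852285)))
(L (nat_lit 14897953)))
(S (nat_lit 37260) (S (nat_lit 30699) (S (nat_lit 40514) (L (nat_lit 9983905))
(L (nat_lit 7795329)))
(L (nat_lit 19460289)))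
(S (nat_lit 57024) (S (nat_lit 17558) (S (nat_lit 50510) (S (nat_lit 20800) (L (nat_lit 29071470))
(L (nat_lit 6405725)))
(L (nat_lit 27343061)))
(L (nat_lit 7210386)))
(L (nat_lit 25181431)))))
(S (nat_lit 41497) (S (nat_lit 64) (S (nat_lit 17527) (S (nat_lit 8779) (S (nat_lit 1036) (L (nat_lit 19662217))
(L (nat_lit 8443291)))
(L (nat_lit 1325659)))
(L (nat_lit 1332667)))
(S (nat_lit 19828) (S (nat_lit 21755) (S (nat_lit 21750) (S (nat_lit 10949) (S (nat_lit 54899) (S (nat_lit 50505) (S (nat_lit 15356) (S (nat_lit 52131) (L (nat_lit 2529883))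
(L (nat_lit 11102628)))
(L (nat_lit 22134538)))
(L (nat_lit 22317467)))
(L (nat_lit 15887947)))
(L (nat_lit 26265902)))
(L (nat_lit 4445997)))
(S (nat_lit 53523) (L (nat_lit 4019623))
(L (nat_lit 11295106))))
(S (nat_lit 39592) (S (nat_lit 21512) (S (nat_lit 1215) (S (nat_lit 8773) (L (nat_lit 7355004))
(L (nat_lit 7883962)))
(L (nat_lit 11318851)))
(L (nat_lit 8149411)))
(L (nat_lit 25711843)))))
(L (nat_lit 25615367)))))
(L (nat_lit 25377875)))))
(S (nat_lit 35115) (S (nat_lit 62) (S (nat_lit 17510) (S (nat_lit 8795) (S (nat_lit 35087) (L (nat_lit 17832571))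
(L (nat_lit 30421610)))
(S (nat_lit 54724) (L (nat_lit 1627419))
(L (nat_lit 1617628))))
(S (nat_lit 37274) (S (nat_lit 48301) (L (nat_lit 12267706))
(L (nat_lit 13656681)))
(S (nat_lit 57038) (S (nat_lit 41276) (S (nat_lit 50538) (S (nat_lit 1215) (S (nat_lit 13037) (L (nat_lit 19051430))
(L (nat_lit 19794342)))
(L (nat_lit 11292069)))
(L (nat_lit 11723190)))
(L (nat_lit 17834618)))
(L (nat_lit 25935978)))))
(S (nat_lit 19826) (S (nat_lit 1277) (S (nat_lit 8823) (S (nat_lit 1036) (S (nat_lit 986) (L (nat_lit 26301774))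
(L (nat_lit 26492086)))
(L (nat_lit 4772187)))
(S (nat_lit 28587) (S (nat_lit 20736) (S (nat_lit 21783) (L (nat_lit 29601939))
(L (nat_lit 16477509)))
(L (nat_lit 22286746)))
(S (nat_lit 48351) (S (nat_lit 35148) (S (nat_lit 41276) (L (nat_lit 29670519))
(L (nat_lit 23894403)))
(L (nat_lit 20746631)))
(L (nat_lit 25499216)))))
(S (nat_lit 21041) (S (nat_lit 25) (S (nat_lit 28587) (S (nat_lit 1215) (S (nat_lit 50505) (L (nat_lit 30812340))
(L (nat_lit 12372417)))
(L (nat_lit 11292069)))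
(S (nat_lit 45694) (S (nat_lit 21540) (L (nat_lit 23655594))
(L (nat_lit 22604969)))
(L (nat_lit 10335809))))
(S (nat_lit 19789) (S (nat_lit 8748) (S (nat_lit 40531) (L (nat_lit 30416308))
(L (nat_lit 10122414)))
(L (nat_lit 15407904)))
(S (nat_lit 39553) (L (nat_lit 12471470))
(L (nat_lit 25804969)))))
(S (nat_lit 40805) (S (nat_lit 1229) (S (nat_lit 21755) (S (nat_lit 41503) (S (nat_lit 37324) (L (nat_lit 2922935))
(L (nat_lit 2936048)))
(L (nat_lit 2936046)))
(L (nat_lit 22813058)))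
(S (nat_lit 20993) (S (nat_lit 21739) (S (nat_lit 28512) (L (nat_lit 3879847))
(L (nat_lit 31143943)))
(L (nat_lit 22818951)))
(S (nat_lit 40757) (S (nat_lit 5573) (L (nat_lit 10237078))
(S (nat_lit 28537) (L (nat_lit 18576554))
(L (nat_lit 3880745))))
(L (nat_lit 25603126)))))
(L (nat_lit 25929809)))))
(S (nat_lit 39590) (S (nat_lit 75) (S (nat_lit 1246) (S (nat_lit 1776) (S (nat_lit 20811) (S (nat_lit 28695) (L (nat_lit 683561))
(L (nat_lit 7425434)))
(L (nat_lit 30989482)))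
(S (nat_lit 11832) (L (nat_lit 13453601))
(L (nat_lit 20488376))))
(S (nat_lit 21010) (S (nat_lit 1776) (S (nat_lit 20811) (S (nat_lit 1975) (S (nat_lit 1969) (S (nat_lit 35073) (S (nat_lit 20736) (S (nat_lit 35148) (S (nat_lit 10999) (S (nat_lit 39575) (S (nat_lit 39542) (S (nat_lit 1743) (S (nat_lit 20778) (S (nat_lit 42) (S (nat_lit 3266) (L (nat_lit 6370969))
(S (nat_lit 15371) (S (nat_lit 41514) (S (nat_lit 30713) (S (nat_lit 30746) (S (nat_lit 41291) (S (nat_lit 40790) (S (nat_lit 40757) (S (nat_lit 40525) (S (nat_lit 986) (S (nat_lit 21755) (S (nat_lit 21722) (S (nat_lit 1034) (S (nat_lit 30761) (S (nat_lit 19795) (S (nat_lit 54901) (S (nat_lit 4987) (S (nat_lit 42364) (S (nat_lit 57246) (S (nat_lit 24782) (S (nat_lit 38923) (S (nat_lit 30114) (S (nat_lit 19404) (S (nat_lit 936) (S (nat_lit 21137) (S (nat_lit 56420) (D (nat_lit 13) (nat_lit 11691628) (nat_lit 8568594) (nat_lit 4647323671744))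
(L (nat_lit 15521985)))
(L (nat_lit 26951872)))
(S (nat_lit 47448) (S (nat_lit 34538) (S (nat_lit 32754) (S (nat_lit 55740) (D (nat_lit 15) (nat_lit 25902373) (nat_lit 254543) (nat_lit 137713813761))
(L (nat_lit 29707650)))
(L (nat_lit 20375875)))
(L (nat_lit 27899203)))
(L (nat_lit 23927821))))
(L (nat_lit 29792341)))
(L (nat_lit 22312384)))
(L (nat_lit 27708608)))
(L (nat_lit 23411618)))
(L (nat_lit 23426498)))
(L (nat_lit 21263810)))
(S (nat_lit 31373) (S (nat_lit 21590) (S (nat_lit 40868) (S (nat_lit 15878) (S (nat_lit 15061) (S (nat_lit 28559) (S (nat_lit 58079) (D (nat_lit 11) (nat_lit 27951531) (nat_lit 7870226) (nat_lit 239080674))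
(L (nat_lit 22519928)))
(L (nat_lit 24685444)))
(S (nat_lit 18388) (S (nat_lit 22158) (D (nat_lit 15) (nat_lit 15586661) (nat_lit 16533542) (nat_lit 274877906981))
(L (nat_lit 27933892)))
(L (nat_lit 29918547))))
(L (nat_lit 27448525)))
(L (nat_lit 28982406)))
(L (nat_lit 29007363)))
(S (nat_lit 47203) (S (nat_lit 27684) (S (nat_lit 53844) (S (nat_lit 27651) (S (nat_lit 14542) (S (nat_lit 26936) (S (nat_lit 19308) (S (nat_lit 11383) (S (nat_lit 30893) (S (nat_lit 903) (S (nat_lit 16925) (D (nat_lit 15) (nat_lit 31011072) (nat_lit 15294724) (nat_lit 168006689))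
(L (nat_lit 28914917)))
(L (nat_lit 29709793)))
(L (nat_lit 28034305)))
(S (nat_lit 16519) (S (nat_lit 22125) (S (nat_lit 45487) (D (nat_lit 15) (nat_lit 26840615) (nat_lit 799305) (nat_lit 77510971458))
(L (nat_lit 16668960)))
(L (nat_lit 27865346)))
(L (nat_lit 1357435))))
(L (nat_lit 28945425)))
(L (nat_lit 19985776)))
(L (nat_lit 9583539)))
(L (nat_lit 9589677)))
(L (nat_lit 11630221)))
(L (nat_lit 9533069)))
(L (nat_lit 21836004)))))
(L (nat_lit 21466361)))
(L (nat_lit 21765231)))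
(L (nat_lit 9209454)))
(L (nat_lit 11013015)))
(L (nat_lit 10679799)))
(L (nat_lit 11272631)))
(L (nat_lit 11320343)))
(L (nat_lit 18455612)))
(L (nat_lit 18477095)))
(L (nat_lit 18667623)))
(L (nat_lit 27797185)))
(L (nat_lit 19665451)))
(L (nat_lit 19390539)))
(L (nat_lit 27933957)))
(S (nat_lit 24057) (L (nat_lit 6308509))
(L (nat_lit 597903)))))
(L (nat_lit 14492353)))
(L (nat_lit 11993970)))
(L (nat_lit 20408580)))
(L (nat_lit 11596432)))
(L (nat_lit 12456529)))
(L (nat_lit 23995874)))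
(L (nat_lit 12726037)))
(L (nat_lit 22294682)))
(L (nat_lit 19951822)))
(L (nat_lit 13369557)))
(L (nat_lit 19227105)))
(L (nat_lit 30989482)))
(S (nat_lit 53608) (L (nat_lit 26235334))
(L (nat_lit 26794155))))
(S (nat_lit 40774) (S (nat_lit 20736) (S (nat_lit 15323) (S (nat_lit 1975) (L (nat_lit 4403864))
(L (nat_lit 26462351)))
(L (nat_lit 1853034)))
(S (nat_lit 57164) (L (nat_lit 11965050))
(L (nat_lit 6689402))))
(L (nat_lit 25381313)))))
(S (nat_lit 19839) (S (nat_lit 1036) (S (nat_lit 10563) (L (nat_lit 18584390))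
(S (nat_lit 54884) (S (nat_lit 1776) (S (nat_lit 21010) (S (nat_lit 50477) (S (nat_lit 15340) (S (nat_lit 57066) (L (nat_lit 29672004))
(L (nat_lit 12182912)))
(L (nat_lit 26777718)))
(L (nat_lit 27992174)))
(L (nat_lit 12236545)))
(L (nat_lit 19438402)))
(L (nat_lit 27824340))))
(S (nat_lit 20800) (S (nat_lit 39592) (S (nat_lit 10949) (S (nat_lit 35104) (S (nat_lit 48318) (L (nat_lit 20484902))
(L (nat_lit 16328449)))
(L (nat_lit 23627037)))
(L (nat_lit 738123)))
(S (nat_lit 44617) (S (nat_lit 42916) (L (nat_lit 16488473))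
(L (nat_lit 13343524)))
(L (nat_lit 11686329))))
(S (nat_lit 40564) (S (nat_lit 50538) (S (nat_lit 15323) (S (nat_lit 19828) (S (nat_lit 986) (L (nat_lit 4727668))
(L (nat_lit 5002695)))
(L (nat_lit 10278306)))
(L (nat_lit 26463621)))
(L (nat_lit 22818208)))
(L (nat_lit 25901376)))))
(S (nat_lit 39603) (S (nat_lit 15373) (S (nat_lit 27454) (L (nat_lit 24682241))
(S (nat_lit 28537) (S (nat_lit 1776) (S (nat_lit 20811) (L (nat_lit 8130994))
(L (nat_lit 12283052)))
(L (nat_lit 13333673)))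
(L (nat_lit 3689848))))
(S (nat_lit 35137) (S (nat_lit 20811) (S (nat_lit 39575) (S (nat_lit 2019) (S (nat_lit 20798) (L (nat_lit 28543507))
(L (nat_lit 12269345)))
(L (nat_lit 12284355)))
(L (nat_lit 27580804)))
(S (nat_lit 41378) (S (nat_lit 10935) (L (nat_lit 21524769))
(L (nat_lit 23632673)))
(L (nat_lit 12093082))))
(S (nat_lit 54901) (S (nat_lit 50538) (S (nat_lit 21077) (L (nat_lit 20452262))
(S (nat_lit 40757) (S (nat_lit 21496) (S (nat_lit 21722) (S (nat_lit 25) (S (nat_lit 41291) (S (nat_lit 19795) (S (nat_lit 30746) (S (nat_lit 19811) (S (nat_lit 23737) (L (nat_lit 3488413))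
(S (nat_lit 37322) (L (nat_lit 11136049))
(L (nat_lit 14250154))))
(L (nat_lit 30694820)))
(L (nat_lit 31013060)))
(L (nat_lit 21267965)))
(L (nat_lit 27479587)))
(L (nat_lit 13406548)))
(L (nat_lit 4798715)))
(L (nat_lit 21303768)))
(L (nat_lit 23463719))))
(L (nat_lit 27898144)))
(L (nat_lit 25545772)))))
(L (nat_lit 25728307)))))
(L (nat_lit 25526993)))))
(S (nat_lit 54879) (S (nat_lit 1036) (S (nat_lit 1969) (S (nat_lit 1991) (S (nat_lit 8790) (S (nat_lit 1215) (S (nat_lit 17510) (L (nat_lit 22309285))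
(L (nat_lit 6876773)))
(L (nat_lit 10609074)))
(S (nat_lit 41670) (L (nat_lit 7134593))
(L (nat_lit 26774118))))
(S (nat_lit 21755) (S (nat_lit 39575) (S (nat_lit 50505) (S (nat_lit 15334) (S (nat_lit 21529) (S (nat_lit 49928) (L (nat_lit 578411))
(L (nat_lit 7934362)))
(L (nat_lit 22307232)))
(L (nat_lit 24376738)))
(L (nat_lit 20857153)))
(L (nat_lit 27340401)))
(S (nat_lit 41519) (S (nat_lit 41293) (S (nat_lit 20736) (S (nat_lit 19811) (S (nat_lit 16438) (L (nat_lit 7501202))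
(L (nat_lit 19963290)))
(L (nat_lit 21294500)))
(L (nat_lit 6908292)))
(L (nat_lit 27525556)))
(L (nat_lit 25680224)))))
(S (nat_lit 21733) (S (nat_lit 1019) (S (nat_lit 17543) (S (nat_lit 8795) (S (nat_lit 8748) (L (nat_lit 1494891))
(L (nat_lit 1784615)))
(L (nat_lit 17092357)))
(S (nat_lit 56150) (S (nat_lit 50494) (L (nat_lit 12084309))
(L (nat_lit 5021111)))
(L (nat_lit 24425221))))
(S (nat_lit 20783) (S (nat_lit 39575) (S (nat_lit 21529) (S (nat_lit 52118) (L (nat_lit 21185313))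
(L (nat_lit 601498)))
(L (nat_lit 22143399)))
(L (nat_lit 27562609)))
(S (nat_lit 40547) (S (nat_lit 41293) (S (nat_lit 21708) (S (nat_lit 19811) (S (nat_lit 17410) (L (nat_lit 7418803))
(L (nat_lit 20119962)))
(L (nat_lit 15822411)))
(L (nat_lit 1665419)))
(L (nat_lit 27525556)))
(L (nat_lit 25861539)))))
(S (nat_lit 41497) (S (nat_lit 1763) (S (nat_lit 15461) (S (nat_lit 30355) (L (nat_lit 22136647))
(L (nat_lit 20122045)))
(S (nat_lit 40774) (S (nat_lit 32309) (L (nat_lit 26854757))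
(L (nat_lit 20133732)))
(L (nat_lit 27643023))))
(S (nat_lit 21527) (S (nat_lit 24822) (L (nat_lit 1698157))
(S (nat_lit 39575) (S (nat_lit 21708) (S (nat_lit 19839) (S (nat_lit 20736) (L (nat_lit 7770747))
(L (nat_lit 7213677)))
(L (nat_lit 15412993)))
(L (nat_lit 22130074)))
(L (nat_lit 17903226))))
(S (nat_lit 41291) (S (nat_lit 1215) (S (nat_lit 39575) (S (nat_lit 35148) (S (nat_lit 39570) (S (nat_lit 19795) (S (nat_lit 21708) (L (nat_lit 29959276))
(L (nat_lit 5123475)))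
(L (nat_lit 30513652)))
(L (nat_lit 4865371)))
(L (nat_lit 9048846)))
(L (nat_lit 23336378)))
(S (nat_lit 53775) (S (nat_lit 42840) (S (nat_lit 34076) (L (nat_lit 26744947))
(L (nat_lit 11089081)))
(L (nat_lit 8839747)))
(L (nat_lit 9003427))))
(L (nat_lit 25709761)))))
(L (nat_lit 25806084)))))
(S (nat_lit 20800) (S (nat_lit 1262) (S (nat_lit 39592) (S (nat_lit 1019) (S (nat_lit 21512) (S (nat_lit 30741) (S (nat_lit 41293) (S (nat_lit 21708) (S (nat_lit 15371) (S (nat_lit 40500) (S (nat_lit 19811) (S (nat_lit 40743) (S (nat_lit 19826) (S (nat_lit 33979) (L (nat_lit 2531068))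
(L (nat_lit 19840352)))
(S (nat_lit 45492) (L (nat_lit 5524892))
(L (nat_lit 16549579))))
(L (nat_lit 27856266)))
(L (nat_lit 2763161)))
(L (nat_lit 1943955)))
(L (nat_lit 433757)))
(L (nat_lit 4813195)))
(L (nat_lit 16839271)))
(L (nat_lit 24906119)))
(L (nat_lit 22810022)))
(L (nat_lit 14517865)))
(L (nat_lit 12341634)))
(S (nat_lit 21026) (S (nat_lit 8779) (S (nat_lit 50477) (L (nat_lit 26509903))
(L (nat_lit 12432964)))
(S (nat_lit 28543) (S (nat_lit 57049) (L (nat_lit 12154242))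
(L (nat_lit 12116546)))
(S (nat_lit 48307) (S (nat_lit 1944) (L (nat_lit 7079317))
(L (nat_lit 13932120)))
(L (nat_lit 25565923)))))
(S (nat_lit 40790) (S (nat_lit 21755) (S (nat_lit 40547) (S (nat_lit 19828) (S (nat_lit 972) (S (nat_lit 41276) (S (nat_lit 15334) (S (nat_lit 30761) (S (nat_lit 50505) (S (nat_lit 41472) (S (nat_lit 21369) (L (nat_lit 18590498))
(S (nat_lit 39570) (S (nat_lit 52371) (L (nat_lit 4536955))
(L (nat_lit 19325283)))
(L (nat_lit 17061632))))
(L (nat_lit 2420301)))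
(L (nat_lit 27347335)))
(L (nat_lit 30803562)))
(L (nat_lit 6310331)))
(L (nat_lit 27957665)))
(L (nat_lit 10636728)))
(L (nat_lit 2487700)))
(L (nat_lit 8031640)))
(L (nat_lit 11295104)))
(L (nat_lit 25633974)))))
(S (nat_lit 40564) (S (nat_lit 1776) (S (nat_lit 25036) (L (nat_lit 21557604))
(S (nat_lit 50505) (S (nat_lit 21755) (S (nat_lit 50494) (S (nat_lit 15323) (S (nat_lit 40790) (S (nat_lit 40805) (S (nat_lit 20736) (S (nat_lit 10949) (S (nat_lit 48338) (L (nat_lit 3355226))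
(L (nat_lit 5675861)))
(L (nat_lit 1797422)))
(L (nat_lit 5534098)))
(L (nat_lit 10172160)))
(L (nat_lit 10150274)))
(L (nat_lit 15508069)))
(L (nat_lit 11010649)))
(L (nat_lit 21764480)))
(L (nat_lit 20017542))))
(S (nat_lit 21540) (S (nat_lit 50505) (S (nat_lit 15334) (S (nat_lit 21755) (S (nat_lit 10949) (S (nat_lit 15323) (S (nat_lit 41276) (S (nat_lit 19828) (S (nat_lit 30774) (S (nat_lit 39575) (S (nat_lit 2019) (S (nat_lit 40790) (S (nat_lit 20750) (S (nat_lit 21739) (S (nat_lit 50494) (S (nat_lit 54868) (S (nat_lit 41497) (S (nat_lit 41486) (S (nat_lit 39570) (S (nat_lit 41472) (S (nat_lit 25) (S (nat_lit 19839) (S (nat_lit 20761) (S (nat_lit 1003) (S (nat_lit 1726) (S (nat_lit 44247) (S (nat_lit 42853) (S (nat_lit 45024) (S (nat_lit 5010) (S (nat_lit 14956) (S (nat_lit 22603) (S (nat_lit 42417) (S (nat_lit 8370) (S (nat_lit 23255) (S (nat_lit 47702) (D (nat_lit 15) (nat_lit 16570440) (nat_lit 12339652) (nat_lit 103086556193))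
(L (nat_lit 21840163)))
(L (nat_lit 26820898)))
(S (nat_lit 49171) (S (nat_lit 12241) (D (nat_lit 15) (nat_lit 10377635) (nat_lit 8145381) (nat_lit 173952503877))
(L (nat_lit 17603201)))
(L (nat_lit 24447788))))
(L (nat_lit 22162288)))
(L (nat_lit 15313827)))
(L (nat_lit 28950789)))
(L (nat_lit 28332401)))
(L (nat_lit 28332337)))
(L (nat_lit 18445668)))
(S (nat_lit 47227) (S (nat_lit 45208) (S (nat_lit 52984) (S (nat_lit 2627) (S (nat_lit 53772) (S (nat_lit 6316) (S (nat_lit 33554) (S (nat_lit 44132) (D (nat_lit 13) (nat_lit 26397996) (nat_lit 19063021) (nat_lit 3491824869))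
(L (nat_lit 26984739)))
(L (nat_lit 22954245)))
(S (nat_lit 31887) (S (nat_lit 9961) (S (nat_lit 56494) (S (nat_lit 48340) (S (nat_lit 19573) (D (nat_lit 15) (nat_lit 26630153) (nat_lit 19666252) (nat_lit 6551508130))
(L (nat_lit 27891728)))
(L (nat_lit 27902984)))
(L (nat_lit 30000416)))
(L (nat_lit 29998373)))
(L (nat_lit 3568330))))
(L (nat_lit 28555351)))
(L (nat_lit 30587627)))
(L (nat_lit 22423396)))
(L (nat_lit 28950882)))
(S (nat_lit 57930) (S (nat_lit 48276) (S (nat_lit 18698) (S (nat_lit 10800) (S (nat_lit 50116) (S (nat_lit 57086) (S (nat_lit 38199) (S (nat_lit 22559) (S (nat_lit 16626) (S (nat_lit 24801) (D (nat_lit 15) (nat_lit 27316775) (nat_lit 25761037) (nat_lit 211562994915))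
(L (nat_lit 16666792)))
(L (nat_lit 27964771)))
(S (nat_lit 34057) (S (nat_lit 7197) (S (nat_lit 36286) (D (nat_lit 15) (nat_lit 27612300) (nat_lit 18997642) (nat_lit 39934009600))
(L (nat_lit 27868230)))
(L (nat_lit 27901283)))
(L (nat_lit 13792939))))
(L (nat_lit 9195537)))
(L (nat_lit 27936068)))
(L (nat_lit 3851047)))
(L (nat_lit 27662025)))
(L (nat_lit 30031879)))
(L (nat_lit 20887776)))
(L (nat_lit 7264303)))))
(L (nat_lit 19677445)))
(L (nat_lit 8571726)))
(L (nat_lit 22349679)))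
(L (nat_lit 15888006)))
(L (nat_lit 19973001)))
(L (nat_lit 24417725)))
(L (nat_lit 23176973)))
(L (nat_lit 6907330)))
(L (nat_lit 6741764)))
(L (nat_lit 13895571)))
(L (nat_lit 12899203)))
(L (nat_lit 21213956)))
(L (nat_lit 21903713)))
(L (nat_lit 10150274)))
(L (nat_lit 26941893)))
(L (nat_lit 5037451)))
(L (nat_lit 19704225)))
(L (nat_lit 10174338)))
(L (nat_lit 27493968)))
(L (nat_lit 26758251)))
(L (nat_lit 26789995)))
(L (nat_lit 21764480)))
(L (nat_lit 26750530)))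
(S (nat_lit 54442) (L (nat_lit 19705248))
(L (nat_lit 12317057))))
(S (nat_lit 41304) (S (nat_lit 15334) (S (nat_lit 30761) (S (nat_lit 21755) (S (nat_lit 54868) (S (nat_lit 41472) (S (nat_lit 20736) (S (nat_lit 35135) (S (nat_lit 1732) (S (nat_lit 48307) (L (nat_lit 3487323))
(L (nat_lit 12139394)))
(L (nat_lit 5058222)))
(L (nat_lit 23443641)))
(L (nat_lit 11629165)))
(L (nat_lit 6943916)))
(L (nat_lit 19137945)))
(L (nat_lit 21764512)))
(L (nat_lit 19065166)))
(S (nat_lit 51381) (S (nat_lit 24020) (L (nat_lit 737595))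
(L (nat_lit 26464674)))
(L (nat_lit 545115))))
(L (nat_lit 25712811)))))
(L (nat_lit 25729172)))))
(L (nat_lit 25478325)))))
(S (nat_lit 21465) (S (nat_lit 10977) (S (nat_lit 15384) (S (nat_lit 15323) (S (nat_lit 972) (S (nat_lit 21529) (L (nat_lit 6441373))
(L (nat_lit 21796234)))
(S (nat_lit 20736) (L (nat_lit 14709350))
(S (nat_lit 40500) (S (nat_lit 10966) (S (nat_lit 21546) (L (nat_lit 29725297))
(S (nat_lit 21708) (S (nat_lit 41276) (L (nat_lit 4076139))
(L (nat_lit 27924865)))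
(L (nat_lit 1651066))))
(S (nat_lit 30730) (S (nat_lit 12298) (S (nat_lit 54899) (L (nat_lit 29889159))
(L (nat_lit 16089688)))
(S (nat_lit 21708) (S (nat_lit 54899) (S (nat_lit 41276) (L (nat_lit 22047085))
(L (nat_lit 27924865)))
(L (nat_lit 16089688)))
(L (nat_lit 1683277))))
(S (nat_lit 50494) (S (nat_lit 35693) (S (nat_lit 19839) (L (nat_lit 15640754))
(L (nat_lit 21359693)))
(S (nat_lit 40743) (L (nat_lit 5584507))
(L (nat_lit 2387378))))
(L (nat_lit 25936969)))))
(L (nat_lit 25578756)))))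
(L (nat_lit 6351471)))
(S (nat_lit 35148) (S (nat_lit 21755) (L (nat_lit 3911067))
(L (nat_lit 21032326)))
(S (nat_lit 54912) (S (nat_lit 1975) (S (nat_lit 17496) (S (nat_lit 17538) (L (nat_lit 21830017))
(L (nat_lit 24982881)))
(S (nat_lit 37260) (S (nat_lit 37335) (L (nat_lit 17126209))
(L (nat_lit 9292193)))
(S (nat_lit 57024) (S (nat_lit 1034) (S (nat_lit 8748) (L (nat_lit 6770561))
(L (nat_lit 21455041)))
(L (nat_lit 19457313)))
(L (nat_lit 25934854)))))
(S (nat_lit 21739) (S (nat_lit 42) (S (nat_lit 15351) (S (nat_lit 50361) (L (nat_lit 7992464))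
(L (nat_lit 16587361)))
(L (nat_lit 22343137)))
(S (nat_lit 19806) (S (nat_lit 1715) (L (nat_lit 16114337))
(L (nat_lit 19708225)))
(S (nat_lit 39570) (S (nat_lit 50538) (S (nat_lit 40774) (S (nat_lit 1240) (S (nat_lit 15334) (S (nat_lit 15351) (S (nat_lit 35073) (S (nat_lit 1743) (S (nat_lit 41497) (S (nat_lit 54868) (S (nat_lit 41304) (S (nat_lit 30763) (S (nat_lit 38352) (L (nat_lit 18143418))
(S (nat_lit 40500) (S (nat_lit 19811) (S (nat_lit 37307) (L (nat_lit 4571868))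
(L (nat_lit 31143947)))
(L (nat_lit 31080676)))
(L (nat_lit 7992738))))
(L (nat_lit 24514376)))
(L (nat_lit 27548100)))
(L (nat_lit 4595603)))
(L (nat_lit 27853351)))
(L (nat_lit 4890508)))
(L (nat_lit 20389761)))
(L (nat_lit 24209830)))
(L (nat_lit 8033164)))
(L (nat_lit 19710241)))
(L (nat_lit 24950113)))
(L (nat_lit 12235553)))
(L (nat_lit 25869633)))))
(S (nat_lit 41503) (S (nat_lit 15334) (S (nat_lit 55526) (L (nat_lit 11047830))
(S (nat_lit 57038) (L (nat_lit 10238561))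
(L (nat_lit 12095380))))
(S (nat_lit 35098) (S (nat_lit 5958) (L (nat_lit 30940739))
(S (nat_lit 54868) (S (nat_lit 21529) (S (nat_lit 20979) (S (nat_lit 64) (S (nat_lit 1732) (S (nat_lit 41547) (S (nat_lit 19328) (L (nat_lit 4414970))
(L (nat_lit 27609507)))
(L (nat_lit 28034371)))
(L (nat_lit 12423823)))
(L (nat_lit 349595)))
(L (nat_lit 31001994)))
(S (nat_lit 23143) (L (nat_lit 10172445))
(L (nat_lit 6072725))))
(L (nat_lit 10566265))))
(S (nat_lit 54862) (S (nat_lit 19811) (S (nat_lit 40500) (S (nat_lit 57086) (L (nat_lit 28579408))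
(L (nat_lit 6053259)))
(L (nat_lit 1330587)))
(S (nat_lit 37229) (L (nat_lit 543593))
(L (nat_lit 15996539))))
(L (nat_lit 25381283)))))
(L (nat_lit 25505844)))))
(L (nat_lit 25343255)))))
(S (nat_lit 30741) (S (nat_lit 17558) (S (nat_lit 19811) (S (nat_lit 41276) (S (nat_lit 21708) (S (nat_lit 8779) (S (nat_lit 39592) (S (nat_lit 1262) (S (nat_lit 37285) (S (nat_lit 40500) (S (nat_lit 57066) (S (nat_lit 41519) (S (nat_lit 48290) (S (nat_lit 54912) (S (nat_lit 28587) (S (nat_lit 1019) (S (nat_lit 35104) (S (nat_lit 50525) (S (nat_lit 1014) (S (nat_lit 40768) (S (nat_lit 50538) (S (nat_lit 41503) (S (nat_lit 18456) (S (nat_lit 41271) (S (nat_lit 48276) (S (nat_lit 28576) (S (nat_lit 50527) (S (nat_lit 39590) (S (nat_lit 40514) (S (nat_lit 11799) (S (nat_lit 4280) (S (nat_lit 36016) (S (nat_lit 17111) (S (nat_lit 11051) (D (nat_lit 13) (nat_lit 27611217) (nat_lit 25765411) (nat_lit 6639220594690))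
(L (nat_lit 27868484)))
(L (nat_lit 27964552)))
(L (nat_lit 22977649)))
(L (nat_lit 29072770)))
(S (nat_lit 51423) (S (nat_lit 12732) (S (nat_lit 32857) (S (nat_lit 8411) (S (nat_lit 35013) (S (nat_lit 31631) (D (nat_lit 13) (nat_lit 27380169) (nat_lit 25762339) (nat_lit 7874994701505))
(L (nat_lit 27864236)))
(L (nat_lit 27281798)))
(L (nat_lit 27901094)))
(L (nat_lit 27903112)))
(L (nat_lit 27773124)))
(L (nat_lit 24601642))))
(L (nat_lit 27656841)))
(L (nat_lit 17583274)))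
(L (nat_lit 27659913)))
(L (nat_lit 13476919)))
(L (nat_lit 15789300)))
(L (nat_lit 27932777)))
(L (nat_lit 29511114)))
(L (nat_lit 27413962)))
(L (nat_lit 12405871)))
(L (nat_lit 435929)))
(S (nat_lit 20778) (S (nat_lit 54884) (S (nat_lit 39542) (S (nat_lit 57038) (S (nat_lit 37335) (S (nat_lit 41497) (S (nat_lit 40805) (S (nat_lit 41547) (S (nat_lit 12547) (S (nat_lit 50494) (S (nat_lit 19550) (S (nat_lit 38412) (S (nat_lit 19528) (S (nat_lit 6227) (S (nat_lit 8880) (D (nat_lit 13) (nat_lit 28025349) (nat_lit 25767461) (nat_lit 6639220594690))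
(L (nat_lit 28916870)))
(L (nat_lit 28030056)))
(L (nat_lit 27960772)))
(L (nat_lit 27963717)))
(S (nat_lit 47679) (S (nat_lit 8383) (S (nat_lit 32885) (S (nat_lit 10559) (S (nat_lit 37234) (S (nat_lit 22858) (D (nat_lit 13) (nat_lit 27864238) (nat_lit 25763363) (nat_lit 8974505280705))
(L (nat_lit 27742501)))
(L (nat_lit 27853352)))
(L (nat_lit 27867206)))
(L (nat_lit 27869508)))
(L (nat_lit 27867365)))
(L (nat_lit 23414530))))
(L (nat_lit 22148400)))
(L (nat_lit 25074210)))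
(L (nat_lit 24338477)))
(L (nat_lit 751143)))
(L (nat_lit 973351)))
(L (nat_lit 23538812)))
(L (nat_lit 21931116)))
(L (nat_lit 24034596)))
(L (nat_lit 21272429)))
(S (nat_lit 40542) (S (nat_lit 39559) (S (nat_lit 15356) (S (nat_lit 21750) (S (nat_lit 39553) (S (nat_lit 14076) (S (nat_lit 41243) (S (nat_lit 33536) (S (nat_lit 48338) (S (nat_lit 54879) (S (nat_lit 2057) (S (nat_lit 36251) (S (nat_lit 38195) (S (nat_lit 11821) (D (nat_lit 11) (nat_lit 27894928) (nat_lit 25767365) (nat_lit 212877906981))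
(L (nat_lit 28779602)))
(L (nat_lit 3070407)))
(L (nat_lit 15653152)))
(S (nat_lit 32993) (S (nat_lit 10833) (S (nat_lit 38650) (S (nat_lit 12777) (D (nat_lit 11) (nat_lit 27952493) (nat_lit 25767429) (nat_lit 212843300001))
(L (nat_lit 27953609)))
(L (nat_lit 27967811)))
(L (nat_lit 27965699)))
(L (nat_lit 11179888))))
(L (nat_lit 11661966)))
(L (nat_lit 27449711)))
(L (nat_lit 22872337)))
(L (nat_lit 1425080)))
(L (nat_lit 31004717)))
(L (nat_lit 17850121)))
(L (nat_lit 15782108)))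
(L (nat_lit 578314)))
(L (nat_lit 27952430)))
(L (nat_lit 25546796)))))
(L (nat_lit 22380952)))
(L (nat_lit 3874200)))
(L (nat_lit 11144604)))
(L (nat_lit 24482202)))
(L (nat_lit 19227009)))
(L (nat_lit 5465493)))
(L (nat_lit 941446)))
(L (nat_lit 19138971)))
(L (nat_lit 2009491)))
(L (nat_lit 31166856)))
(L (nat_lit 26598784)))
(L (nat_lit 6005148)))
(L (nat_lit 7143831)))
(L (nat_lit 1977747)))
(L (nat_lit 27286918)))
(L (nat_lit 21768580)))
(S (nat_lit 37322) (S (nat_lit 19811) (S (nat_lit 41276) (S (nat_lit 54912) (S (nat_lit 35104) (S (nat_lit 1019) (S (nat_lit 21708) (S (nat_lit 28526) (S (nat_lit 40743) (S (nat_lit 41519) (S (nat_lit 15323) (S (nat_lit 57049) (S (nat_lit 40500) (S (nat_lit 17538) (S (nat_lit 39592) (S (nat_lit 75) (S (nat_lit 10966) (S (nat_lit 50477) (S (nat_lit 39559) (S (nat_lit 21507) (S (nat_lit 10999) (S (nat_lit 8790) (S (nat_lit 21540) (S (nat_lit 986) (S (nat_lit 15190) (S (nat_lit 19566) (S (nat_lit 5795)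 (S (nat_lit 26321) (S (nat_lit 57928) (S (nat_lit 28494) (D (nat_lit 13) (nat_lit 30063907) (nat_lit 19672549) (nat_lit 4543108811008))
(L (nat_lit 21865920)))
(L (nat_lit 24035680)))
(L (nat_lit 21872933)))
(L (nat_lit 31080736)))
(L (nat_lit 29047141)))
(S (nat_lit 49891) (S (nat_lit 30320) (S (nat_lit 47010) (S (nat_lit 56945) (S (nat_lit 49471) (D (nat_lit 13) (nat_lit 15920808) (nat_lit 25479651) (nat_lit 6873091801318))
(L (nat_lit 19133452)))
(L (nat_lit 20879372)))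
(L (nat_lit 19360962)))
(L (nat_lit 28789955)))
(L (nat_lit 15304583))))
(L (nat_lit 13899638)))
(L (nat_lit 770394)))
(L (nat_lit 780624)))
(L (nat_lit 967368)))
(L (nat_lit 30874739)))
(L (nat_lit 12471374)))
(L (nat_lit 27279667)))
(L (nat_lit 907565)))
(S (nat_lit 19839) (S (nat_lit 21021) (S (nat_lit 39542) (S (nat_lit 48276) (S (nat_lit 40562) (S (nat_lit 28576) (S (nat_lit 31) (S (nat_lit 7485) (S (nat_lit 34448) (S (nat_lit 21739) (S (nat_lit 50463) (S (nat_lit 30763) (S (nat_lit 41304) (S (nat_lit 35194) (S (nat_lit 18346) (S (nat_lit 29664) (S (nat_lit 31608) (D (nat_lit 11) (nat_lit 28000294) (nat_lit 25767365) (nat_lit 212843302980))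
(L (nat_lit 27545058)))
(L (nat_lit 27545027)))
(L (nat_lit 27899075)))
(S (nat_lit 46685) (S (nat_lit 12635) (S (nat_lit 58815) (S (nat_lit 56385) (D (nat_lit 11) (nat_lit 31106060) (nat_lit 25767427) (nat_lit 106438959144))
(L (nat_lit 28626436)))
(L (nat_lit 28626469)))
(L (nat_lit 31043781)))
(L (nat_lit 21082392))))
(L (nat_lit 3709746)))
(L (nat_lit 2926285)))
(L (nat_lit 14937793)))
(L (nat_lit 14928641)))
(L (nat_lit 17142706)))
(L (nat_lit 17161121)))
(L (nat_lit 903470)))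
(L (nat_lit 30772881)))
(L (nat_lit 17886454)))
(L (nat_lit 15756534)))
(L (nat_lit 25082986)))
(L (nat_lit 31112266)))
(S (nat_lit 39603) (S (nat_lit 48323) (S (nat_lit 40525) (S (nat_lit 8812) (S (nat_lit 54899) (S (nat_lit 29181) (S (nat_lit 50527) (S (nat_lit 48318) (S (nat_lit 41503) (S (nat_lit 39590) (S (nat_lit 15545) (S (nat_lit 12732) (S (nat_lit 6453) (S (nat_lit 31874) (S (nat_lit 15438) (D (nat_lit 13) (nat_lit 27314509) (nat_lit 25767461) (nat_lit 6673580300320))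
(L (nat_lit 28397959)))
(L (nat_lit 27700371)))
(L (nat_lit 27995685)))
(L (nat_lit 27931908)))
(S (nat_lit 37133) (S (nat_lit 35991) (S (nat_lit 23159) (S (nat_lit 17095) (S (nat_lit 30628) (D (nat_lit 13) (nat_lit 27647364) (nat_lit 25765347) (nat_lit 6742299711589))
(L (nat_lit 27281896)))
(L (nat_lit 27731653)))
(L (nat_lit 9297346)))
(L (nat_lit 22981058)))
(L (nat_lit 19835917))))
(L (nat_lit 11241296)))
(L (nat_lit 27511233)))
(L (nat_lit 27838816)))
(L (nat_lit 5599949)))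
(L (nat_lit 11222785)))
(L (nat_lit 5592845)))
(L (nat_lit 519383)))
(L (nat_lit 25074798)))
(L (nat_lit 27529869)))
(L (nat_lit 25700434)))))
(L (nat_lit 27992450)))
(L (nat_lit 748935)))
(L (nat_lit 2017674)))
(L (nat_lit 21225859)))
(L (nat_lit 8120709)))
(L (nat_lit 24254872)))
(L (nat_lit 8310149)))
(L (nat_lit 30624133)))
(L (nat_lit 4518291)))
(L (nat_lit 10678679)))
(L (nat_lit 23862659)))
(L (nat_lit 19736960)))
(L (nat_lit 23987592)))
(L (nat_lit 22817156)))
(S (nat_lit 57086) (S (nat_lit 54912) (S (nat_lit 8762) (S (nat_lit 40500) (S (nat_lit 21708) (S (nat_lit 40743) (S (nat_lit 17521) (S (nat_lit 19811) (S (nat_lit 1019) (S (nat_lit 28543) (S (nat_lit 41276) (S (nat_lit 41519) (S (nat_lit 15323) (S (nat_lit 1262) (S (nat_lit 48351) (S (nat_lit 37302) (S (nat_lit 39592) (S (nat_lit 50525) (S (nat_lit 15351) (S (nat_lit 48301) (S (nat_lit 17571) (S (nat_lit 57024) (S (nat_lit 1958) (S (nat_lit 41304) (S (nat_lit 19789) (S (nat_lit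 10982) (S (nat_lit 40531) (S (nat_lit 39570) (S (nat_lit 1240) (S (nat_lit 16128) (S (nat_lit 41650) (S (nat_lit 58224) (S (nat_lit 26170) (S (nat_lit 51392) (D (nat_lit 13) (nat_lit 26818756) (nat_lit 25767397) (nat_lit 208339566824))
(L (nat_lit 29963401)))
(L (nat_lit 13453505)))
(L (nat_lit 29963459)))
(L (nat_lit 29995363)))
(S (nat_lit 39439) (S (nat_lit 10780) (S (nat_lit 22880) (S (nat_lit 17148) (S (nat_lit 4484) (D (nat_lit 13) (nat_lit 27930978) (nat_lit 25765411) (nat_lit 6605900978210))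
(L (nat_lit 28982469)))
(L (nat_lit 27869193)))
(L (nat_lit 27662913)))
(L (nat_lit 27580833)))
(L (nat_lit 28847157))))
(L (nat_lit 20326276)))
(L (nat_lit 27757906)))
(L (nat_lit 27445702)))
(L (nat_lit 16624661)))
(L (nat_lit 30807381)))
(L (nat_lit 9136578)))
(L (nat_lit 19196976)))
(L (nat_lit 19776519)))
(L (nat_lit 960949)))
(L (nat_lit 20888930)))
(S (nat_lit 35115) (S (nat_lit 30730) (S (nat_lit 48338) (S (nat_lit 21054) (S (nat_lit 41260) (S (nat_lit 41503) (S (nat_lit 40757) (S (nat_lit 40525) (S (nat_lit 918) (S (nat_lit 41514) (S (nat_lit 39603) (S (nat_lit 1618) (S (nat_lit 25103) (S (nat_lit 23159) (S (nat_lit 5232) (D (nat_lit 11) (nat_lit 27417002) (nat_lit 25767365) (nat_lit 212843301891))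
(L (nat_lit 27932864)))
(L (nat_lit 9296322)))
(S (nat_lit 33750) (S (nat_lit 26167) (S (nat_lit 23737) (S (nat_lit 6068) (D (nat_lit 11) (nat_lit 30824706) (nat_lit 19672579) (nat_lit 71005438977))
(L (nat_lit 30126086)))
(L (nat_lit 23556320)))
(L (nat_lit 23587041)))
(L (nat_lit 5102924))))
(L (nat_lit 29038119)))
(L (nat_lit 18014886)))
(L (nat_lit 18539717)))
(L (nat_lit 29733440)))
(L (nat_lit 18440230)))
(L (nat_lit 16896807)))
(L (nat_lit 17469223)))
(L (nat_lit 17468199)))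
(L (nat_lit 11617948)))
(L (nat_lit 20060600)))
(L (nat_lit 18946488)))
(S (nat_lit 54879) (S (nat_lit 5958) (S (nat_lit 3141) (S (nat_lit 35098) (S (nat_lit 21010) (S (nat_lit 1975) (S (nat_lit 1732) (S (nat_lit 30699) (S (nat_lit 42) (S (nat_lit 49716) (S (nat_lit 12762) (S (nat_lit 39311) (S (nat_lit 41629) (S (nat_lit 25285) (D (nat_lit 13) (nat_lit 25838631) (nat_lit 19672613) (nat_lit 77443661927))
(L (nat_lit 27547137)))
(L (nat_lit 15555843)))
(L (nat_lit 19732492)))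
(L (nat_lit 27859428)))
(S (nat_lit 56922) (S (nat_lit 9912) (S (nat_lit 43319) (S (nat_lit 56032) (S (nat_lit 24059) (D (nat_lit 13) (nat_lit 26882402) (nat_lit 19670499) (nat_lit 39963394307))
(L (nat_lit 18903594)))
(L (nat_lit 20376582)))
(L (nat_lit 28748355)))
(L (nat_lit 31009154)))
(L (nat_lit 7527899))))
(L (nat_lit 18968070)))
(L (nat_lit 19799087)))
(L (nat_lit 19391498)))
(L (nat_lit 19391530)))
(L (nat_lit 12235928)))
(L (nat_lit 10368150)))
(L (nat_lit 29792833)))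
(L (nat_lit 27695680)))
(L (nat_lit 25562758)))))
(L (nat_lit 11695509)))
(L (nat_lit 6116745)))
(L (nat_lit 20029850)))
(L (nat_lit 6116743)))
(L (nat_lit 3863943)))
(L (nat_lit 795026)))
(L (nat_lit 6971778)))
(L (nat_lit 6316438)))
(L (nat_lit 9564562)))
(L (nat_lit 11142557)))
(L (nat_lit 15818634)))
(L (nat_lit 24161690)))
(L (nat_lit 27437458)))
(L (nat_lit 7958917)))
(L (nat_lit 27894148)))
(L (nat_lit 21766533)))
(L (nat_lit 6039957)))
(L (nat_lit 25631300)))))
(S (nat_lit 50505) (S (nat_lit 8810) (S (nat_lit 17527) (S (nat_lit 57038) (S (nat_lit 40790) (L (nat_lit 5825129))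
(L (nat_lit 483945)))
(L (nat_lit 5465710)))
(L (nat_lit 18088570)))
(S (nat_lit 28574) (S (nat_lit 39575) (L (nat_lit 14979707))
(L (nat_lit 12053092)))
(S (nat_lit 48338) (S (nat_lit 54912) (L (nat_lit 4403835))
(L (nat_lit 27404910)))
(L (nat_lit 25788842)))))
(L (nat_lit 25758065)))))
(S (nat_lit 41229) (S (nat_lit 17527) (S (nat_lit 8790) (S (nat_lit 15384) (S (nat_lit 15323) (S (nat_lit 8810) (S (nat_lit 47) (S (nat_lit 10977) (S (nat_lit 17571) (S (nat_lit 41276) (S (nat_lit 8773) (S (nat_lit 15340) (S (nat_lit 64) (S (nat_lit 1036) (S (nat_lit 21026) (S (nat_lit 20979) (S (nat_lit 1019) (S (nat_lit 972) (S (nat_lit 1991) (S (nat_lit 1034) (S (nat_lit 1969) (S (nat_lit 2006) (S (nat_lit 1958) (S (nat_lit 10949) (S (nat_lit 8779) (S (nat_lit 41291) (S (nat_lit 21577) (S (nat_lit 40687) (S (nat_lit 21054) (S (nat_lit 22917) (S (nat_lit 13812) (S (nat_lit 44737) (S (nat_lit 2558) (S (nat_lit 3125) (D (nat_lit 13) (nat_lit 14539106) (nat_lit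 25759022) (nat_lit 2202446856387))
(L (nat_lit 29926981)))
(L (nat_lit 27831875)))
(L (nat_lit 19392805)))
(L (nat_lit 29998437)))
(S (nat_lit 46913) (S (nat_lit 43559) (S (nat_lit 26032) (S (nat_lit 13471) (S (nat_lit 5913) (S (nat_lit 5022) (D (nat_lit 13) (nat_lit 13388133) (nat_lit 25761136) (nat_lit 2202446856387))
(L (nat_lit 29998309)))
(L (nat_lit 27868448)))
(L (nat_lit 27347464)))
(L (nat_lit 27807044)))
(L (nat_lit 19740930)))
(L (nat_lit 9135280))))
(L (nat_lit 5101932)))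
(L (nat_lit 29999174)))
(L (nat_lit 9057469)))
(L (nat_lit 7155830)))
(L (nat_lit 21863811)))
(L (nat_lit 21800357)))
(L (nat_lit 13177670)))
(L (nat_lit 13539014)))
(L (nat_lit 12972737)))
(S (nat_lit 20798) (S (nat_lit 1743) (S (nat_lit 1726) (S (nat_lit 41503) (S (nat_lit 27470) (S (nat_lit 20761) (S (nat_lit 54899) (S (nat_lit 14982) (S (nat_lit 40768) (S (nat_lit 21750) (S (nat_lit 27397) (S (nat_lit 52348) (S (nat_lit 17390) (S (nat_lit 1193) (S (nat_lit 28956) (D (nat_lit 13) (nat_lit 26973640) (nat_lit 19369739) (nat_lit 110763376897))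
(L (nat_lit 27854214)))
(L (nat_lit 30723521)))
(L (nat_lit 28911040)))
(L (nat_lit 19771617)))
(S (nat_lit 41444) (S (nat_lit 15700) (S (nat_lit 29409) (S (nat_lit 1575) (S (nat_lit 18605) (S (nat_lit 29182) (D (nat_lit 13) (nat_lit 27930852) (nat_lit 25759177) (nat_lit 208515698756))
(L (nat_lit 21259811)))
(L (nat_lit 27658919)))
(L (nat_lit 27965449)))
(L (nat_lit 27548068)))
(L (nat_lit 27711749)))
(L (nat_lit 8012888))))
(L (nat_lit 2019881)))
(L (nat_lit 23963169)))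
(L (nat_lit 531033)))
(L (nat_lit 12139269)))
(L (nat_lit 5662406)))
(L (nat_lit 27660999)))
(L (nat_lit 24948871)))
(L (nat_lit 13410420)))
(L (nat_lit 13489257)))
(S (nat_lit 40562) (S (nat_lit 1257) (S (nat_lit 57088) (S (nat_lit 57024) (S (nat_lit 48351) (S (nat_lit 47656) (S (nat_lit 28512) (S (nat_lit 14533) (S (nat_lit 41514) (S (nat_lit 20811) (S (nat_lit 40774) (S (nat_lit 21795) (S (nat_lit 26786) (S (nat_lit 11329) (S (nat_lit 12060) (S (nat_lit 37925) (S (nat_lit 20219) (D (nat_lit 13) (nat_lit 27955468) (nat_lit 25761004) (nat_lit 6807624914152))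
(L (nat_lit 27967627)))
(L (nat_lit 27967717)))
(L (nat_lit 27897930)))
(L (nat_lit 27899232)))
(L (nat_lit 27899072)))
(S (nat_lit 47036) (S (nat_lit 19638) (S (nat_lit 7469) (S (nat_lit 16007) (S (nat_lit 49594) (S (nat_lit 50064) (D (nat_lit 13) (nat_lit 31137837) (nat_lit 25759243) (nat_lit 1204843256903))
(L (nat_lit 28629413)))
(L (nat_lit 28628354)))
(L (nat_lit 31046946)))
(L (nat_lit 29804837)))
(L (nat_lit 29996323)))
(L (nat_lit 307930))))
(L (nat_lit 27741380)))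
(L (nat_lit 21859692)))
(L (nat_lit 7125701)))
(L (nat_lit 29829697)))
(L (nat_lit 13455553)))
(L (nat_lit 13406919)))
(L (nat_lit 27966566)))
(L (nat_lit 12644006)))
(L (nat_lit 13372072)))
(L (nat_lit 13456675)))
(L (nat_lit 25694455)))))
(L (nat_lit 19765634)))
(L (nat_lit 18964872)))
(L (nat_lit 19768705)))
(L (nat_lit 22361925)))
(L (nat_lit 21440384)))
(L (nat_lit 13507168)))
(L (nat_lit 7867003)))
(L (nat_lit 17073787)))
(L (nat_lit 16789115)))
(L (nat_lit 17600102)))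
(L (nat_lit 340601)))
(L (nat_lit 434809)))
(L (nat_lit 7804540)))
(L (nat_lit 15630954)))
(L (nat_lit 14741098)))
(L (nat_lit 26711655)))
(S (nat_lit 28554) (S (nat_lit 41276) (L (nat_lit 18782817))
(L (nat_lit 27494000)))
(S (nat_lit 48318) (S (nat_lit 54868) (L (nat_lit 16871014))
(L (nat_lit 5806713)))
(L (nat_lit 25440438)))))
(S (nat_lit 37291) (S (nat_lit 1763) (S (nat_lit 14) (S (nat_lit 10935) (S (nat_lit 15309) (S (nat_lit 20798) (S (nat_lit 8748) (S (nat_lit 20811) (S (nat_lit 39603) (L (nat_lit 7921682))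
(L (nat_lit 17509153)))
(L (nat_lit 7016365)))
(L (nat_lit 7028761)))
(S (nat_lit 54965) (L (nat_lit 1984934))
(L (nat_lit 7039489))))
(S (nat_lit 45266) (L (nat_lit 1631814))
(L (nat_lit 222894))))
(S (nat_lit 30699) (S (nat_lit 972) (S (nat_lit 48351) (L (nat_lit 19216288))
(L (nat_lit 14280807)))
(L (nat_lit 14455400)))
(S (nat_lit 50463) (S (nat_lit 8748) (S (nat_lit 48351) (L (nat_lit 20157913))
(L (nat_lit 20724838)))
(L (nat_lit 17499910)))
(L (nat_lit 25418208)))))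
(S (nat_lit 19778) (S (nat_lit 48338) (S (nat_lit 37274) (S (nat_lit 41276) (S (nat_lit 35120) (L (nat_lit 28364141))
(L (nat_lit 3059373)))
(L (nat_lit 27728481)))
(L (nat_lit 23295396)))
(S (nat_lit 53608) (L (nat_lit 20709770))
(L (nat_lit 16515691))))
(S (nat_lit 39542) (S (nat_lit 40483) (L (nat_lit 16016961))
(S (nat_lit 48338) (S (nat_lit 1036) (S (nat_lit 1246) (S (nat_lit 1991) (S (nat_lit 10997) (S (nat_lit 15340) (S (nat_lit 10977) (S (nat_lit 40531) (S (nat_lit 41503) (S (nat_lit 41276) (S (nat_lit 1229) (S (nat_lit 25344) (S (nat_lit 35120) (S (nat_lit 41547) (S (nat_lit 4047) (S (nat_lit 19806) (S (nat_lit 3137) (S (nat_lit 20683) (S (nat_lit 37132) (S (nat_lit 19613) (S (nat_lit 50940) (D (nat_lit 13) (nat_lit 27858343) (nat_lit 19056395) (nat_lit 1240441521222))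
(L (nat_lit 19278971)))
(L (nat_lit 30789088)))
(L (nat_lit 28945889)))
(L (nat_lit 19838272)))
(S (nat_lit 15636) (S (nat_lit 16418) (S (nat_lit 31369) (S (nat_lit 1575) (S (nat_lit 9139) (S (nat_lit 31596) (D (nat_lit 13) (nat_lit 27963620) (nat_lit 25283017) (nat_lit 207440876581))
(L (nat_lit 27546052)))
(L (nat_lit 27891081)))
(L (nat_lit 27612545)))
(L (nat_lit 27547043)))
(L (nat_lit 27867393)))
(L (nat_lit 5497399))))
(L (nat_lit 3658108)))
(L (nat_lit 11208592)))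
(L (nat_lit 7070149)))
(L (nat_lit 3794157)))
(L (nat_lit 29657711)))
(L (nat_lit 19708258)))
(L (nat_lit 1300888)))
(L (nat_lit 6983470)))
(L (nat_lit 1745710)))
(L (nat_lit 16051809)))
(L (nat_lit 1941105)))
(L (nat_lit 968299)))
(L (nat_lit 12940898)))
(L (nat_lit 13847396)))
(L (nat_lit 19970331)))
(L (nat_lit 12321391))))
(L (nat_lit 25208496)))))
(S (nat_lit 21527) (S (nat_lit 986) (S (nat_lit 8812) (S (nat_lit 54868) (S (nat_lit 8823) (L (nat_lit 28694018))
(L (nat_lit 7213620)))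
(L (nat_lit 10573617)))
(S (nat_lit 28576) (S (nat_lit 3111) (L (nat_lit 11211661))
(S (nat_lit 10966) (S (nat_lit 41472) (L (nat_lit 891504))
(L (nat_lit 18010025)))
(L (nat_lit 7430578))))
(S (nat_lit 48340) (S (nat_lit 54884) (S (nat_lit 25) (L (nat_lit 28978285))
(L (nat_lit 18903561)))
(L (nat_lit 4833194)))
(L (nat_lit 25660040)))))
(S (nat_lit 20750) (S (nat_lit 36224) (S (nat_lit 15334) (L (nat_lit 969069))
(L (nat_lit 1881673)))
(S (nat_lit 50494) (S (nat_lit 47) (S (nat_lit 35115) (S (nat_lit 48318) (S (nat_lit 50477) (S (nat_lit 15384) (S (nat_lit 10997) (S (nat_lit 40562) (S (nat_lit 1257) (S (nat_lit 30763) (S (nat_lit 54901) (S (nat_lit 57049) (S (nat_lit 21507) (S (nat_lit 17097) (S (nat_lit 64) (S (nat_lit 51616) (S (nat_lit 39307) (S (nat_lit 7287) (S (nat_lit 54471) (S (nat_lit 28266) (S (nat_lit 9125) (S (nat_lit 9446) (S (nat_lit 42584) (D (nat_lit 13) (nat_lit 12772723) (nat_lit 6048298) (nat_lit 4402443354214))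
(L (nat_lit 29079747)))
(L (nat_lit 31008815)))
(L (nat_lit 28911661)))
(L (nat_lit 10343941)))
(L (nat_lit 28944837)))
(L (nat_lit 31049061)))
(S (nat_lit 47016) (S (nat_lit 43536) (S (nat_lit 30576) (D (nat_lit 15) (nat_lit 13707061) (nat_lit 5644888) (nat_lit 171807085704))
(L (nat_lit 28913891)))
(L (nat_lit 15618371)))
(L (nat_lit 26589892))))
(L (nat_lit 26791014)))
(L (nat_lit 7867003)))
(L (nat_lit 5559737)))
(L (nat_lit 961260)))
(L (nat_lit 6213997)))
(L (nat_lit 19329032)))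
(L (nat_lit 19706921)))
(L (nat_lit 20134819)))
(L (nat_lit 27997289)))
(L (nat_lit 968299)))
(L (nat_lit 7247470)))
(L (nat_lit 5498293)))
(L (nat_lit 20014502)))
(L (nat_lit 20013478)))
(L (nat_lit 18951613)))
(L (nat_lit 28018089))))
(S (nat_lit 40514) (S (nat_lit 10935) (S (nat_lit 15309) (S (nat_lit 14) (S (nat_lit 17496) (L (nat_lit 24133419))
(L (nat_lit 18023223)))
(L (nat_lit 1856970)))
(L (nat_lit 7397136)))
(S (nat_lit 30699) (S (nat_lit 4049) (L (nat_lit 14250178))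
(S (nat_lit 40575) (S (nat_lit 28559) (L (nat_lit 21248929))
(L (nat_lit 3947731)))
(L (nat_lit 8062461))))
(S (nat_lit 50463) (S (nat_lit 15384) (S (nat_lit 21733) (S (nat_lit 21479) (L (nat_lit 28856424))
(L (nat_lit 11423921)))
(L (nat_lit 1645422)))
(L (nat_lit 1503846)))
(L (nat_lit 25415695)))))
(L (nat_lit 25788873)))))
(S (nat_lit 41291) (S (nat_lit 8823) (S (nat_lit 15323) (S (nat_lit 75) (S (nat_lit 20979) (L (nat_lit 3878768))
(L (nat_lit 1980008)))
(L (nat_lit 19409016)))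
(S (nat_lit 48185) (L (nat_lit 6689497))
(L (nat_lit 1844847))))
(S (nat_lit 28587) (S (nat_lit 57049) (S (nat_lit 972) (S (nat_lit 15384) (L (nat_lit 27898952))
(L (nat_lit 7934360)))
(L (nat_lit 11309459)))
(L (nat_lit 11374998)))
(S (nat_lit 48351) (S (nat_lit 14) (S (nat_lit 1019) (S (nat_lit 1014) (S (nat_lit 37302) (S (nat_lit 15356) (S (nat_lit 37335) (S (nat_lit 1991) (S (nat_lit 15371) (S (nat_lit 15351) (S (nat_lit 37260) (S (nat_lit 15384) (S (nat_lit 21041) (S (nat_lit 41276) (S (nat_lit 1047) (S (nat_lit 41271) (S (nat_lit 1986) (S (nat_lit 38469) (S (nat_lit 49815) (S (nat_lit 3751) (S (nat_lit 37160) (S (nat_lit 35783) (S (nat_lit 46941) (S (nat_lit 50558) (S (nat_lit 31766) (D (nat_lit 15) (nat_lit 6151659) (nat_lit 10051695) (nat_lit 280252088359))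
(L (nat_lit 22885731)))
(L (nat_lit 15823434)))
(L (nat_lit 9325090)))
(L (nat_lit 27861476)))
(L (nat_lit 19392770)))
(S (nat_lit 56731) (S (nat_lit 5296) (S (nat_lit 51773) (S (nat_lit 35540) (D (nat_lit 15) (nat_lit 7159424) (nat_lit 8126994) (nat_lit 1348571170))
(L (nat_lit 27712834)))
(L (nat_lit 21491941)))
(L (nat_lit 30033091)))
(L (nat_lit 7397260))))
(L (nat_lit 29042116)))
(L (nat_lit 8409530)))
(L (nat_lit 14321579)))
(L (nat_lit 18076733)))
(L (nat_lit 13891204)))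
(L (nat_lit 1305200)))
(L (nat_lit 1305296)))
(L (nat_lit 6438520)))
(L (nat_lit 13655260)))
(L (nat_lit 1698214)))
(L (nat_lit 17139293)))
(L (nat_lit 13694566)))
(L (nat_lit 14462560)))
(L (nat_lit 7018255)))
(L (nat_lit 13923969)))
(L (nat_lit 14536808)))
(S (nat_lit 32019) (L (nat_lit 6909378))
(L (nat_lit 26385814))))
(S (nat_lit 19778) (S (nat_lit 48318) (S (nat_lit 15384) (S (nat_lit 47) (L (nat_lit 28744852))
(L (nat_lit 13956709)))
(L (nat_lit 1503847)))
(L (nat_lit 12290491)))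
(S (nat_lit 39542) (S (nat_lit 15371) (S (nat_lit 40805) (L (nat_lit 13555043))
(L (nat_lit 17509122)))
(L (nat_lit 17139293)))
(L (nat_lit 25181494)))))
(L (nat_lit 25312534)))))
(L (nat_lit 25282769)))))
(S (nat_lit 57055) (S (nat_lit 17571) (S (nat_lit 20800) (S (nat_lit 50525) (L (nat_lit 4406904))
(L (nat_lit 11714170)))
(L (nat_lit 15988320)))
(S (nat_lit 37335) (S (nat_lit 48301) (S (nat_lit 40564) (L (nat_lit 8947321))
(L (nat_lit 27507296)))
(L (nat_lit 11375217)))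
(S (nat_lit 57099) (S (nat_lit 28554) (S (nat_lit 15323) (S (nat_lit 1019) (S (nat_lit 47) (S (nat_lit 20979) (S (nat_lit 15384) (S (nat_lit 41276) (S (nat_lit 28574) (S (nat_lit 10997) (S (nat_lit 1944) (S (nat_lit 1036) (S (nat_lit 15340) (S (nat_lit 10977) (S (nat_lit 41293) (S (nat_lit 21026) (S (nat_lit 64) (S (nat_lit 8795) (S (nat_lit 19789) (S (nat_lit 12767) (S (nat_lit 40514) (S (nat_lit 40575) (S (nat_lit 36246) (S (nat_lit 50527) (S (nat_lit 21479) (S (nat_lit 39603) (S (nat_lit 35137) (S (nat_lit 12720) (S (nat_lit 15298) (S (nat_lit 47888) (S (nat_lit 30554) (D (nat_lit 15) (nat_lit 13640468) (nat_lit 5517912) (nat_lit 171807085704))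
(L (nat_lit 20852928)))
(L (nat_lit 28981442)))
(S (nat_lit 45718) (S (nat_lit 6963) (S (nat_lit 38157) (D (nat_lit 15) (nat_lit 31178887) (nat_lit 805256) (nat_lit 5611983075))
(L (nat_lit 22520610)))
(L (nat_lit 29017442)))
(L (nat_lit 30952522))))
(L (nat_lit 17523938)))
(L (nat_lit 9293251)))
(L (nat_lit 24986880)))
(L (nat_lit 15553542)))
(L (nat_lit 22885385)))
(L (nat_lit 22246542)))
(L (nat_lit 17638418)))
(L (nat_lit 17379107)))
(L (nat_lit 24573249)))
(L (nat_lit 15313698)))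
(S (nat_lit 28559) (S (nat_lit 57024) (S (nat_lit 29693) (S (nat_lit 58627) (S (nat_lit 1003) (S (nat_lit 15334) (S (nat_lit 41291) (S (nat_lit 14) (S (nat_lit 58638) (S (nat_lit 29677) (S (nat_lit 21021) (S (nat_lit 35783) (S (nat_lit 55792) (S (nat_lit 4698) (D (nat_lit 15) (nat_lit 3951820) (nat_lit 25761160) (nat_lit 214890975264))
(L (nat_lit 27870434)))
(L (nat_lit 29961669)))
(S (nat_lit 53507) (S (nat_lit 32755) (S (nat_lit 2849) (D (nat_lit 15) (nat_lit 6050065) (nat_lit 25759146) (nat_lit 107646820416))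
(L (nat_lit 29906176)))
(L (nat_lit 20474180)))
(L (nat_lit 8569716))))
(L (nat_lit 16118802)))
(L (nat_lit 23869579)))
(L (nat_lit 28711524)))
(L (nat_lit 19703269)))
(L (nat_lit 3927592)))
(L (nat_lit 14915163)))
(L (nat_lit 19064267)))
(L (nat_lit 2903405)))
(L (nat_lit 9354421)))
(L (nat_lit 11457551)))
(S (nat_lit 48323) (S (nat_lit 37260) (S (nat_lit 40774) (S (nat_lit 39570) (S (nat_lit 1715) (S (nat_lit 3642) (S (nat_lit 42852) (S (nat_lit 25926) (S (nat_lit 12480) (S (nat_lit 927) (S (nat_lit 23076) (D (nat_lit 15) (nat_lit 30063623) (nat_lit 805132) (nat_lit 1141907616))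
(L (nat_lit 28745314)))
(L (nat_lit 30790016)))
(S (nat_lit 43556) (S (nat_lit 55541) (S (nat_lit 3748) (S (nat_lit 37612) (S (nat_lit 40894) (S (nat_lit 55806) (D (nat_lit 13) (nat_lit 25765037) (nat_lit 19063175) (nat_lit 3293748360))
(L (nat_lit 30024752)))
(L (nat_lit 10310179)))
(L (nat_lit 21524709)))
(L (nat_lit 27744579)))
(L (nat_lit 30032197)))
(L (nat_lit 17575062))))
(L (nat_lit 6386383)))
(L (nat_lit 22487939)))
(L (nat_lit 30094565)))
(L (nat_lit 12375489)))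
(L (nat_lit 24617728)))
(L (nat_lit 25048260)))
(L (nat_lit 2612476)))
(L (nat_lit 25934890)))))
(L (nat_lit 26544750)))
(L (nat_lit 11593328)))
(L (nat_lit 17884778)))
(L (nat_lit 1360504)))
(L (nat_lit 1613434)))
(L (nat_lit 11015802)))
(L (nat_lit 6074987)))
(L (nat_lit 2006638)))
(L (nat_lit 30836330)))
(L (nat_lit 27756134)))
(L (nat_lit 7246448)))
(L (nat_lit 14854778)))
(L (nat_lit 12693117)))
(L (nat_lit 13477473)))
(L (nat_lit 14741099)))
(L (nat_lit 3564134)))
(L (nat_lit 25766304)))))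
(L (nat_lit 25711874)))))
(L (nat_lit 25577547)))))

theorem rb246_0_1 : run 4 lb246 [] tb246_0_1 kb246 [0, 10960, 21043, 2008] [] = true := by
  decide +kernel

noncomputable def ta35_0 : Tr :=
(S (nat_lit 998) (S (nat_lit 1478) (S (nat_lit 2134) (S (nat_lit 3460) (L (nat_lit 632322))
(L (nat_lit 427751)))
(S (nat_lit 4327) (S (nat_lit 2879) (S (nat_lit 5264) (S (nat_lit 1553) (S (nat_lit 325) (S (nat_lit 5459) (S (nat_lit 5919) (S (nat_lit 1051) (S (nat_lit 1023) (D (nat_lit 10) (nat_lit 186886) (nat_lit 14610) (nat_lit 34394406944))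
(L (nat_lit 220641)))
(L (nat_lit 155115)))
(L (nat_lit 496199)))
(L (nat_lit 725197)))
(L (nat_lit 330318)))
(L (nat_lit 250273)))
(L (nat_lit 46731)))
(L (nat_lit 40625)))
(S (nat_lit 5115) (S (nat_lit 1846) (L (nat_lit 330197))
(L (nat_lit 243296)))
(L (nat_lit 233072)))))
(S (nat_lit 3692) (S (nat_lit 97) (S (nat_lit 259) (S (nat_lit 428) (L (nat_lit 250029))
(L (nat_lit 416905)))
(L (nat_lit 638086)))
(S (nat_lit 2311) (S (nat_lit 4753) (S (nat_lit 185) (L (nat_lit 698541))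
(L (nat_lit 448802)))
(L (nat_lit 316832)))
(S (nat_lit 4525) (S (nat_lit 4937) (S (nat_lit 5486) (S (nat_lit 1802) (S (nat_lit 665) (S (nat_lit 4753) (S (nat_lit 4288) (S (nat_lit 215) (S (nat_lit 5637) (S (nat_lit 360) (S (nat_lit 3876) (D (nat_lit 10) (nat_lit 8908) (nat_lit 433730) (nat_lit 2181104641))
(L (nat_lit 346193)))
(L (nat_lit 375955)))
(L (nat_lit 343125)))
(L (nat_lit 690730)))
(L (nat_lit 702634)))
(L (nat_lit 253344)))
(L (nat_lit 403478)))
(L (nat_lit 140876)))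
(L (nat_lit 428402)))
(L (nat_lit 543044)))
(L (nat_lit 595311)))))
(S (nat_lit 5906) (S (nat_lit 428) (S (nat_lit 1802) (S (nat_lit 5093) (S (nat_lit 5264) (L (nat_lit 703498))
(L (nat_lit 346531)))
(L (nat_lit 535170)))
(S (nat_lit 5349) (L (nat_lit 202195))
(L (nat_lit 351777))))
(S (nat_lit 2642) (S (nat_lit 4687) (S (nat_lit 5078) (L (nat_lit 754088))
(L (nat_lit 548194)))
(L (nat_lit 175695)))
(S (nat_lit 4856) (S (nat_lit 3330) (L (nat_lit 543850))
(S (nat_lit 5018) (S (nat_lit 3050) (L (nat_lit 18089))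
(L (nat_lit 567905)))
(L (nat_lit 530612))))
(L (nat_lit 590033)))))
(L (nat_lit 602308)))))
(S (nat_lit 3212) (S (nat_lit 650) (S (nat_lit 325) (S (nat_lit 0) (S (nat_lit 2844) (S (nat_lit 5981) (L (nat_lit 427282))
(L (nat_lit 660906)))
(S (nat_lit 5162) (S (nat_lit 5486) (S (nat_lit 4327) (S (nat_lit 1478) (L (nat_lit 209632))
(L (nat_lit 201294)))
(L (nat_lit 252292)))
(L (nat_lit 449543)))
(L (nat_lit 427723))))
(L (nat_lit 433202)))
(S (nat_lit 2539) (S (nat_lit 2674) (L (nat_lit 110157))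
(S (nat_lit 5981) (S (nat_lit 2311) (S (nat_lit 5906) (S (nat_lit 6143) (L (nat_lit 691721))
(L (nat_lit 470132)))
(L (nat_lit 463594)))
(L (nat_lit 295599)))
(L (nat_lit 403139))))
(S (nat_lit 4753) (S (nat_lit 2834) (L (nat_lit 171413))
(S (nat_lit 5018) (S (nat_lit 5815) (S (nat_lit 2113) (S (nat_lit 2311) (S (nat_lit 2723) (S (nat_lit 1914) (S (nat_lit 4686) (S (nat_lit 3391) (S (nat_lit 4588) (S (nat_lit 5462) (S (nat_lit 1512) (S (nat_lit 1340) (S (nat_lit 3620) (D (nat_lit 14) (nat_lit 697858) (nat_lit 700610) (nat_lit 0))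
(L (nat_lit 699565)))
(L (nat_lit 693736)))
(L (nat_lit 345107)))
(L (nat_lit 735459)))
(L (nat_lit 312339)))
(L (nat_lit 628753)))
(L (nat_lit 670888)))
(L (nat_lit 662915)))
(L (nat_lit 345173)))
(L (nat_lit 9903)))
(L (nat_lit 107988)))
(L (nat_lit 659756)))
(L (nat_lit 213603))))
(L (nat_lit 598095)))))
(S (nat_lit 2864) (S (nat_lit 509) (S (nat_lit 2539) (S (nat_lit 1478) (L (nat_lit 738411))
(L (nat_lit 209476)))
(L (nat_lit 12626)))
(S (nat_lit 2723) (L (nat_lit 729509))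
(S (nat_lit 4937) (S (nat_lit 6143) (S (nat_lit 4856) (L (nat_lit 374498))
(L (nat_lit 20849)))
(L (nat_lit 478281)))
(L (nat_lit 596420)))))
(S (nat_lit 5078) (S (nat_lit 325) (S (nat_lit 2472) (L (nat_lit 144073))
(S (nat_lit 4656) (L (nat_lit 218190))
(L (nat_lit 72301))))
(S (nat_lit 2539) (S (nat_lit 5093) (L (nat_lit 85326))
(L (nat_lit 212052)))
(S (nat_lit 4753) (S (nat_lit 258) (L (nat_lit 568338))
(L (nat_lit 404659)))
(L (nat_lit 603270)))))
(L (nat_lit 603488)))))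
(S (nat_lit 5426) (S (nat_lit 96) (S (nat_lit 1248) (L (nat_lit 249902))
(S (nat_lit 5486) (S (nat_lit 0) (S (nat_lit 4327) (S (nat_lit 5162) (S (nat_lit 97) (S (nat_lit 325) (S (nat_lit 1387) (S (nat_lit 1802) (S (nat_lit 1478) (S (nat_lit 4455) (S (nat_lit 4456) (S (nat_lit 3326) (S (nat_lit 6081) (S (nat_lit 862) (S (nat_lit 2906) (S (nat_lit 888) (D (nat_lit 10) (nat_lit 122374) (nat_lit 604200) (nat_lit 68788715584))
(L (nat_lit 350318)))
(L (nat_lit 695377)))
(L (nat_lit 699500)))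
(L (nat_lit 328271)))
(L (nat_lit 333365)))
(L (nat_lit 232174)))
(L (nat_lit 232172)))
(L (nat_lit 632846)))
(L (nat_lit 623950)))
(L (nat_lit 633004)))
(L (nat_lit 332367)))
(L (nat_lit 638057)))
(L (nat_lit 662605)))
(L (nat_lit 544961)))
(L (nat_lit 241683)))
(L (nat_lit 243890))))
(S (nat_lit 2310) (S (nat_lit 665) (S (nat_lit 3767) (S (nat_lit 650) (S (nat_lit 2113) (S (nat_lit 734) (S (nat_lit 4687) (S (nat_lit 2214) (S (nat_lit 539) (S (nat_lit 4980) (S (nat_lit 5617) (S (nat_lit 3892) (S (nat_lit 61) (D (nat_lit 10) (nat_lit 149742) (nat_lit 394482) (nat_lit 1107296256))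
(L (nat_lit 144104)))
(L (nat_lit 23046)))
(L (nat_lit 737287)))
(L (nat_lit 726349)))
(L (nat_lit 245942)))
(L (nat_lit 497684)))
(L (nat_lit 175695)))
(L (nat_lit 231085)))
(L (nat_lit 300752)))
(L (nat_lit 374368)))
(L (nat_lit 173589)))
(S (nat_lit 2879) (S (nat_lit 4613) (S (nat_lit 4856) (L (nat_lit 283043))
(L (nat_lit 655817)))
(L (nat_lit 542978)))
(S (nat_lit 5093) (S (nat_lit 97) (S (nat_lit 2472) (S (nat_lit 31) (S (nat_lit 2113) (S (nat_lit 5815) (L (nat_lit 187946))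
(L (nat_lit 433828)))
(L (nat_lit 314820)))
(L (nat_lit 280686)))
(L (nat_lit 80552)))
(L (nat_lit 435904)))
(L (nat_lit 605442)))))
(S (nat_lit 4524) (S (nat_lit 650) (S (nat_lit 2642) (S (nat_lit 1802) (S (nat_lit 5486) (S (nat_lit 3767) (S (nat_lit 4687) (L (nat_lit 726535))
(L (nat_lit 183535)))
(L (nat_lit 759211)))
(L (nat_lit 663939)))
(L (nat_lit 566883)))
(S (nat_lit 4832) (L (nat_lit 244853))
(L (nat_lit 40529))))
(S (nat_lit 4739) (L (nat_lit 280165))
(L (nat_lit 634033))))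
(L (nat_lit 604262)))))
(L (nat_lit 594157)))))

theorem ra35_0 : run 3 la35 [] ta35_0 ka35 (P4 3 1 108 468 708 0 0 0 1) [] = true := by
  decide +kernel

noncomputable def ta26_5 : Tr :=
(S (nat_lit 1540) (S (nat_lit 1) (S (nat_lit 893) (S (nat_lit 1702) (S (nat_lit 2107) (S (nat_lit 567) (S (nat_lit 1703) (S (nat_lit 2520) (L (nat_lit 47785))
(L (nat_lit 404628)))
(L (nat_lit 624105)))
(L (nat_lit 636043)))
(L (nat_lit 631920)))
(L (nat_lit 638275)))
(S (nat_lit 3107) (S (nat_lit 1702) (S (nat_lit 2107) (S (nat_lit 3597) (L (nat_lit 180811))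
(L (nat_lit 42606)))
(S (nat_lit 6482) (L (nat_lit 634368))
(L (nat_lit 494900))))
(L (nat_lit 565858)))
(S (nat_lit 5321) (S (nat_lit 1702) (S (nat_lit 3142) (L (nat_lit 8598))
(S (nat_lit 5823) (S (nat_lit 1053) (L (nat_lit 543915))
(L (nat_lit 281678)))
(L (nat_lit 18889))))
(L (nat_lit 510210)))
(L (nat_lit 597167)))))
(S (nat_lit 2215) (S (nat_lit 1702) (S (nat_lit 3687) (L (nat_lit 623822))
(L (nat_lit 280961)))
(L (nat_lit 278114)))
(S (nat_lit 4429) (S (nat_lit 1702) (S (nat_lit 5907) (L (nat_lit 622830))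
(L (nat_lit 340577)))
(L (nat_lit 277525)))
(L (nat_lit 602306)))))
(S (nat_lit 3754) (S (nat_lit 0) (S (nat_lit 3267) (S (nat_lit 3916) (S (nat_lit 223) (L (nat_lit 52493))
(S (nat_lit 3396) (L (nat_lit 234903))
(L (nat_lit 19822))))
(L (nat_lit 76338)))
(L (nat_lit 219650)))
(S (nat_lit 2214) (S (nat_lit 3916) (S (nat_lit 2) (S (nat_lit 4429) (S (nat_lit 6536) (S (nat_lit 3696) (L (nat_lit 78035))
(L (nat_lit 266865)))
(L (nat_lit 277684)))
(L (nat_lit 564246)))
(S (nat_lit 4048) (L (nat_lit 547979))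
(L (nat_lit 623856))))
(S (nat_lit 4105) (L (nat_lit 366191))
(L (nat_lit 81547))))
(S (nat_lit 4428) (S (nat_lit 893) (S (nat_lit 3917) (S (nat_lit 1053) (S (nat_lit 5907) (L (nat_lit 112983))
(L (nat_lit 374869)))
(L (nat_lit 85512)))
(L (nat_lit 214661)))
(S (nat_lit 3107) (S (nat_lit 5967) (S (nat_lit 3916) (L (nat_lit 319010))
(L (nat_lit 83590)))
(L (nat_lit 330229)))
(S (nat_lit 5321) (S (nat_lit 1539) (S (nat_lit 324) (L (nat_lit 374931))
(L (nat_lit 275044)))
(L (nat_lit 84177)))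
(L (nat_lit 595467)))))
(L (nat_lit 596385)))))
(S (nat_lit 5968) (S (nat_lit 1479) (S (nat_lit 6130) (S (nat_lit 1508) (S (nat_lit 5969) (L (nat_lit 89296))
(L (nat_lit 663073)))
(S (nat_lit 4833) (S (nat_lit 5481) (L (nat_lit 632880))
(L (nat_lit 54792)))
(L (nat_lit 89356))))
(S (nat_lit 6265) (L (nat_lit 109230))
(L (nat_lit 153067))))
(S (nat_lit 3693) (S (nat_lit 552) (L (nat_lit 141875))
(S (nat_lit 6130) (S (nat_lit 4429) (S (nat_lit 4833) (L (nat_lit 251950))
(L (nat_lit 308965)))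
(S (nat_lit 5053) (S (nat_lit 1832) (L (nat_lit 6645))
(L (nat_lit 433174)))
(L (nat_lit 152815))))
(L (nat_lit 153067))))
(S (nat_lit 5907) (S (nat_lit 6130) (S (nat_lit 1855) (S (nat_lit 5126) (L (nat_lit 510022))
(L (nat_lit 477290)))
(S (nat_lit 2781) (S (nat_lit 5898) (L (nat_lit 179912))
(L (nat_lit 376917)))
(L (nat_lit 468052))))
(L (nat_lit 469731)))
(L (nat_lit 600145)))))
(L (nat_lit 594157)))))

theorem ra26_5 : run 3 la26 [] ta26_5 ka26 (P4 3 468 462 406 298 1 2 0 0) [] = true := by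
  decide +kernel

noncomputable def tb264_5 : Tr :=
(L (nat_lit 25833731))

theorem rb264_5 : run 4 lb264 [] tb264_5 kb264 (P4 4 2472 2352 6241 2352 1 2 0 0) [] = true := by
  decide +kernel

noncomputable def tb75_3 : Tr :=
(L (nat_lit 25833666))

theorem rb75_3 : run 4 lb75 [] tb75_3 kb75 (P4 4 2216 2760 1253 2760 0 1 0 0) [] = true := by
  decide +kernel

noncomputable def tb262_2 : Tr :=
(L (nat_lit 25768128))

theorem rb262_2 : run 4 lb262 [] tb262_2 kb262 (P4 4 3082 0 2942 0 0 0 1 2) [] = true := by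
  decide +kernel

end Pool.Agent.MP_92191b_al.K3.E
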