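import Pool.Agent.MP_92191b_al.K3.CR11

/-! Refutation trees. -/

namespace Pool.Agent.MP_92191b_al.K3.E

open Tr

set_option maxRecDepth 100000

noncomputable def tb178_3 : Tr :=
(S (nat_lit 19219) (S (nat_lit 12896) (S (nat_lit 15632) (S (nat_lit 517) (S (nat_lit 5374) (S (nat_lit 52961) (S (nat_lit 3680) (S (nat_lit 9980) (S (nat_lit 14903) (S (nat_lit 17055) (S (nat_lit 16303) (S (nat_lit 11249) (L (nat_lit 30460271))
(L (nat_lit 18172835)))
(L (nat_lit 10948470)))
(L (nat_lit 25005515)))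
(L (nat_lit 4867976)))
(L (nat_lit 15342466)))
(L (nat_lit 15584517)))
(L (nat_lit 1729841)))
(L (nat_lit 4874726)))
(S (nat_lit 20281) (S (nat_lit 43208) (S (nat_lit 25138) (S (nat_lit 34667) (S (nat_lit 13433) (S (nat_lit 11249) (S (nat_lit 305) (S (nat_lit 4187) (S (nat_lit 11708) (L (nat_lit 17558849))
(L (nat_lit 1428364)))
(L (nat_lit 9881725)))
(L (nat_lit 12962689)))
(L (nat_lit 18205569)))
(L (nat_lit 26885377)))
(L (nat_lit 16409857)))
(L (nat_lit 6973925)))
(L (nat_lit 6974949)))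
(S (nat_lit 40045) (S (nat_lit 44902) (S (nat_lit 49508) (S (nat_lit 23444) (S (nat_lit 11708) (S (nat_lit 305) (S (nat_lit 4187) (S (nat_lit 38982) (S (nat_lit 11249) (L (nat_lit 29790886))
(L (nat_lit 16108449)))
(L (nat_lit 10570268)))
(L (nat_lit 11978876)))
(L (nat_lit 2476977)))
(L (nat_lit 16108452)))
(L (nat_lit 2762235)))
(L (nat_lit 27922919)))
(L (nat_lit 27922918)))
(L (nat_lit 25205423)))))
(S (nat_lit 35396) (S (nat_lit 16808) (S (nat_lit 12461) (S (nat_lit 7099) (S (nat_lit 13646) (S (nat_lit 43715) (S (nat_lit 39833) (S (nat_lit 40281) (S (nat_lit 38239) (L (nat_lit 24615997))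
(L (nat_lit 11692499)))
(L (nat_lit 18734250)))
(L (nat_lit 23633731)))
(L (nat_lit 16011104)))
(L (nat_lit 26365322)))
(S (nat_lit 47516) (L (nat_lit 26970505))
(L (nat_lit 26984520))))
(S (nat_lit 32225) (S (nat_lit 753) (S (nat_lit 11249) (S (nat_lit 41000) (S (nat_lit 9545) (L (nat_lit 351643))
(L (nat_lit 23366477)))
(L (nat_lit 24539461)))
(L (nat_lit 26916163)))
(L (nat_lit 26612019)))
(S (nat_lit 51989) (S (nat_lit 36067) (S (nat_lit 47132) (S (nat_lit 56815) (S (nat_lit 31979) (S (nat_lit 9545) (S (nat_lit 21236) (S (nat_lit 39833) (L (nat_lit 11223131))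
(L (nat_lit 18587459)))
(L (nat_lit 22944849)))
(L (nat_lit 14829788)))
(L (nat_lit 5032487)))
(L (nat_lit 16378887)))
(L (nat_lit 7882872)))
(L (nat_lit 281144)))
(L (nat_lit 25307669)))))
(S (nat_lit 36572) (S (nat_lit 8524) (S (nat_lit 10695) (S (nat_lit 48780) (S (nat_lit 44679) (S (nat_lit 20069) (S (nat_lit 14408) (S (nat_lit 6592) (L (nat_lit 13265992))
(L (nat_lit 12706066)))
(L (nat_lit 4110642)))
(L (nat_lit 8499929)))
(L (nat_lit 9560751)))
(L (nat_lit 14311526)))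
(L (nat_lit 10118531)))
(S (nat_lit 28288) (S (nat_lit 53936) (S (nat_lit 54902) (S (nat_lit 50223) (S (nat_lit 9545) (S (nat_lit 43715) (S (nat_lit 46120) (L (nat_lit 310195))
(L (nat_lit 4714217)))
(L (nat_lit 24907053)))
(L (nat_lit 23564105)))
(L (nat_lit 16411973)))
(L (nat_lit 16393240)))
(L (nat_lit 662072)))
(S (nat_lit 48052) (S (nat_lit 8956) (L (nat_lit 20813007))
(S (nat_lit 46120) (S (nat_lit 5151) (S (nat_lit 33161) (S (nat_lit 11498) (S (nat_lit 11708) (S (nat_lit 34172) (L (nat_lit 26707282))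
(L (nat_lit 6962018)))
(L (nat_lit 9244115)))
(L (nat_lit 24031490)))
(L (nat_lit 466706)))
(L (nat_lit 9057120)))
(L (nat_lit 20231970))))
(L (nat_lit 25823623)))))
(S (nat_lit 56336) (S (nat_lit 9253) (S (nat_lit 6386) (S (nat_lit 51989) (S (nat_lit 34667) (L (nat_lit 28878930))
(L (nat_lit 15853192)))
(L (nat_lit 6042963)))
(S (nat_lit 26150) (S (nat_lit 17287) (S (nat_lit 9252) (L (nat_lit 5753080))
(L (nat_lit 7124613)))
(L (nat_lit 6142227)))
(S (nat_lit 45914) (S (nat_lit 10695) (S (nat_lit 51026) (L (nat_lit 20232216))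
(L (nat_lit 15543443)))
(L (nat_lit 5727574)))
(L (nat_lit 25248424)))))
(S (nat_lit 29017) (S (nat_lit 19218) (S (nat_lit 24915) (S (nat_lit 54902) (S (nat_lit 517) (S (nat_lit 38238) (S (nat_lit 43926) (L (nat_lit 5551029))
(L (nat_lit 5876187)))
(L (nat_lit 30987492)))
(L (nat_lit 7850820)))
(L (nat_lit 12051474)))
(L (nat_lit 11986002)))
(S (nat_lit 38982) (S (nat_lit 43715) (S (nat_lit 58002) (S (nat_lit 15374) (S (nat_lit 57202) (L (nat_lit 732940))
(L (nat_lit 20440416)))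
(L (nat_lit 24636645)))
(L (nat_lit 19230084)))
(L (nat_lit 27773282)))
(S (nat_lit 58746) (S (nat_lit 43926) (S (nat_lit 6842) (S (nat_lit 43715) (L (nat_lit 28422483))
(L (nat_lit 2607480)))
(L (nat_lit 2607883)))
(L (nat_lit 10983131)))
(L (nat_lit 25860516)))))
(S (nat_lit 48781) (S (nat_lit 4187) (S (nat_lit 1) (S (nat_lit 26863) (S (nat_lit 305) (S (nat_lit 24162) (L (nat_lit 20284861))
(L (nat_lit 9955009)))
(L (nat_lit 20847729)))
(L (nat_lit 19162625)))
(L (nat_lit 13651753)))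
(S (nat_lit 23951) (S (nat_lit 58746) (L (nat_lit 3656583))
(L (nat_lit 8883835)))
(S (nat_lit 43715) (S (nat_lit 5374) (L (nat_lit 8506840))
(L (nat_lit 16115264)))
(L (nat_lit 25610594)))))
(L (nat_lit 25275089)))))
(L (nat_lit 25726196)))))
(S (nat_lit 55160) (S (nat_lit 6592) (S (nat_lit 753) (S (nat_lit 19764) (S (nat_lit 38239) (S (nat_lit 46627) (S (nat_lit 43208) (S (nat_lit 49508) (L (nat_lit 12224399))
(L (nat_lit 13821171)))
(L (nat_lit 16567557)))
(L (nat_lit 12028537)))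
(L (nat_lit 30904563)))
(L (nat_lit 9831315)))
(S (nat_lit 20517) (S (nat_lit 305) (S (nat_lit 31979) (S (nat_lit 51989) (L (nat_lit 4503227))
(L (nat_lit 27434515)))
(L (nat_lit 12022899)))
(S (nat_lit 20069) (S (nat_lit 23951) (S (nat_lit 57581) (S (nat_lit 39529) (L (nat_lit 14228664))
(L (nat_lit 17878888)))
(L (nat_lit 21837154)))
(S (nat_lit 55673) (L (nat_lit 11387456))
(L (nat_lit 22286159))))
(S (nat_lit 39833) (S (nat_lit 43926) (S (nat_lit 36067) (L (nat_lit 10995896))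
(L (nat_lit 13507763)))
(L (nat_lit 12051168)))
(L (nat_lit 25205457)))))
(S (nat_lit 40281) (S (nat_lit 48781) (S (nat_lit 10696) (S (nat_lit 36819) (S (nat_lit 13184) (S (nat_lit 8523) (L (nat_lit 28690573))
(L (nat_lit 10095033)))
(L (nat_lit 26883428)))
(L (nat_lit 18794786)))
(L (nat_lit 21087047)))
(L (nat_lit 13885618)))
(L (nat_lit 25582816)))))
(S (nat_lit 26356) (S (nat_lit 57278) (S (nat_lit 52925) (S (nat_lit 24958) (L (nat_lit 12013346))
(S (nat_lit 30247) (S (nat_lit 22754) (S (nat_lit 3716) (S (nat_lit 46627) (S (nat_lit 46626) (L (nat_lit 18650759))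
(L (nat_lit 12141381)))
(L (nat_lit 11692599)))
(L (nat_lit 2009591)))
(L (nat_lit 21795335)))
(L (nat_lit 24133912))))
(L (nat_lit 27758898)))
(L (nat_lit 10983160)))
(S (nat_lit 46120) (S (nat_lit 16303) (S (nat_lit 23480) (S (nat_lit 23951) (S (nat_lit 42518) (S (nat_lit 9545) (S (nat_lit 33161) (S (nat_lit 17750) (L (nat_lit 15944826))
(L (nat_lit 4694836)))
(L (nat_lit 30923946)))
(L (nat_lit 21469309)))
(L (nat_lit 5759593)))
(L (nat_lit 21469000)))
(S (nat_lit 45353) (L (nat_lit 12047485))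
(L (nat_lit 11231717))))
(S (nat_lit 36067) (S (nat_lit 47132) (S (nat_lit 17055) (S (nat_lit 25397) (S (nat_lit 39528) (S (nat_lit 52712) (L (nat_lit 9883771))
(L (nat_lit 18620037)))
(L (nat_lit 5091539)))
(L (nat_lit 22157721)))
(L (nat_lit 12405252)))
(L (nat_lit 3689223)))
(S (nat_lit 55831) (S (nat_lit 23480) (S (nat_lit 34409) (S (nat_lit 34667) (S (nat_lit 20069) (S (nat_lit 50011) (L (nat_lit 3455609))
(L (nat_lit 22364281)))
(L (nat_lit 21798435)))
(L (nat_lit 16568358)))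
(L (nat_lit 23596345)))
(S (nat_lit 34059) (L (nat_lit 3663594))
(L (nat_lit 10641911))))
(L (nat_lit 25932806)))))
(L (nat_lit 25625906)))))
(L (nat_lit 25540227)))))
(S (nat_lit 32660) (S (nat_lit 13397) (S (nat_lit 19218) (S (nat_lit 517) (S (nat_lit 42518) (S (nat_lit 3470) (S (nat_lit 6591) (S (nat_lit 6592) (S (nat_lit 53174) (S (nat_lit 26862) (S (nat_lit 43244) (S (nat_lit 43926) (L (nat_lit 23376641))
(L (nat_lit 10982107)))
(L (nat_lit 23586053)))
(L (nat_lit 4712103)))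
(L (nat_lit 12030650)))
(L (nat_lit 6806339)))
(L (nat_lit 6806337)))
(L (nat_lit 26710697)))
(L (nat_lit 27778055)))
(S (nat_lit 20281) (S (nat_lit 6592) (S (nat_lit 43926) (L (nat_lit 10980984))
(L (nat_lit 12050610)))
(L (nat_lit 499538)))
(S (nat_lit 40045) (S (nat_lit 25397) (S (nat_lit 43927) (S (nat_lit 31262) (L (nat_lit 29792439))
(L (nat_lit 17465657)))
(L (nat_lit 12030805)))
(L (nat_lit 4889454)))
(L (nat_lit 25211189)))))
(S (nat_lit 38982) (S (nat_lit 7099) (S (nat_lit 42998) (S (nat_lit 43244) (S (nat_lit 42518) (S (nat_lit 43926) (S (nat_lit 46370) (L (nat_lit 16521921))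
(L (nat_lit 12054675)))
(L (nat_lit 4710214)))
(L (nat_lit 9934458)))
(L (nat_lit 27775144)))
(L (nat_lit 7833274)))
(S (nat_lit 26863) (S (nat_lit 53174) (L (nat_lit 26708585))
(L (nat_lit 2614514)))
(S (nat_lit 46627) (S (nat_lit 9545) (L (nat_lit 26708585))
(L (nat_lit 498547)))
(L (nat_lit 25646089)))))
(S (nat_lit 58746) (S (nat_lit 14408) (S (nat_lit 31730) (S (nat_lit 42518) (S (nat_lit 46627) (S (nat_lit 23435) (S (nat_lit 25138) (L (nat_lit 30030922))
(L (nat_lit 11554365)))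
(L (nat_lit 18126711)))
(L (nat_lit 22331417)))
(L (nat_lit 13950999)))
(L (nat_lit 13946907)))
(S (nat_lit 34172) (S (nat_lit 18252) (S (nat_lit 17287) (S (nat_lit 43926) (S (nat_lit 18475) (S (nat_lit 51236) (L (nat_lit 1952263))
(L (nat_lit 15066291)))
(L (nat_lit 18538720)))
(L (nat_lit 4710739)))
(L (nat_lit 24698954)))
(S (nat_lit 38016) (S (nat_lit 23234) (S (nat_lit 43199) (S (nat_lit 6592) (S (nat_lit 20281) (S (nat_lit 31262) (S (nat_lit 46627) (L (nat_lit 29416657))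
(L (nat_lit 2613591)))
(L (nat_lit 19335451)))
(L (nat_lit 22328068)))
(L (nat_lit 308082)))
(L (nat_lit 4514511)))
(L (nat_lit 12608167)))
(S (nat_lit 57780) (S (nat_lit 29744) (S (nat_lit 25397) (S (nat_lit 55830) (L (nat_lit 13984789))
(L (nat_lit 13984354)))
(L (nat_lit 21427207)))
(L (nat_lit 1514355)))
(L (nat_lit 25542369)))))
(S (nat_lit 53936) (S (nat_lit 13022) (L (nat_lit 4627285))
(S (nat_lit 26862) (S (nat_lit 51494) (S (nat_lit 42518) (S (nat_lit 51236) (L (nat_lit 7458360))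
(L (nat_lit 12688211)))
(L (nat_lit 4513242)))
(L (nat_lit 20783118)))
(L (nat_lit 19162124))))
(L (nat_lit 25254129)))))
(L (nat_lit 25743684)))))
(S (nat_lit 33161) (S (nat_lit 14105) (S (nat_lit 17287) (S (nat_lit 57780) (S (nat_lit 51026) (L (nat_lit 2617619))
(L (nat_lit 2970892)))
(L (nat_lit 5135631)))
(S (nat_lit 37051) (S (nat_lit 46120) (S (nat_lit 22754) (S (nat_lit 50010) (S (nat_lit 51707) (S (nat_lit 50011) (S (nat_lit 3680) (S (nat_lit 5151) (S (nat_lit 38016) (S (nat_lit 46370) (S (nat_lit 26150) (L (nat_lit 4570875))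
(L (nat_lit 21044763)))
(L (nat_lit 1325939)))
(L (nat_lit 3783962)))
(L (nat_lit 8502131)))
(L (nat_lit 19457284)))
(L (nat_lit 27658514)))
(L (nat_lit 22953216)))
(L (nat_lit 14551316)))
(L (nat_lit 21148953)))
(L (nat_lit 5134607)))
(S (nat_lit 56815) (S (nat_lit 50011) (S (nat_lit 31979) (S (nat_lit 31262) (S (nat_lit 47132) (S (nat_lit 53936) (L (nat_lit 13954067))
(L (nat_lit 2702087)))
(L (nat_lit 22133511)))
(L (nat_lit 4678931)))
(L (nat_lit 4677907)))
(L (nat_lit 14571781)))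
(L (nat_lit 25510532)))))
(S (nat_lit 33869) (S (nat_lit 1766) (S (nat_lit 3680) (S (nat_lit 10482) (S (nat_lit 48052) (L (nat_lit 24306122))
(L (nat_lit 20027833)))
(S (nat_lit 21152) (L (nat_lit 18988966))
(L (nat_lit 12400694))))
(S (nat_lit 23444) (S (nat_lit 6591) (S (nat_lit 34667) (S (nat_lit 18053) (S (nat_lit 18252) (S (nat_lit 46370) (S (nat_lit 754) (S (nat_lit 44902) (S (nat_lit 56583) (L (nat_lit 15747883))
(L (nat_lit 16077668)))
(L (nat_lit 13268038)))
(L (nat_lit 26846382)))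
(L (nat_lit 28022000)))
(L (nat_lit 26576373)))
(L (nat_lit 8280076)))
(L (nat_lit 6079764)))
(S (nat_lit 39861) (L (nat_lit 18187190))
(L (nat_lit 12707399))))
(S (nat_lit 43208) (S (nat_lit 11498) (S (nat_lit 6592) (L (nat_lit 5100844))
(L (nat_lit 23934210)))
(S (nat_lit 12767) (L (nat_lit 25068849))
(L (nat_lit 5585501))))
(L (nat_lit 25734295)))))
(S (nat_lit 21530) (S (nat_lit 13433) (S (nat_lit 36572) (S (nat_lit 30026) (L (nat_lit 2955764))
(L (nat_lit 19150873)))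
(L (nat_lit 2662009)))
(S (nat_lit 33197) (S (nat_lit 34667) (S (nat_lit 34409) (S (nat_lit 36572) (L (nat_lit 5647154))
(L (nat_lit 30748756)))
(L (nat_lit 16386888)))
(L (nat_lit 16614676)))
(S (nat_lit 52961) (S (nat_lit 54431) (L (nat_lit 5825810))
(L (nat_lit 17433880)))
(L (nat_lit 25712810)))))
(S (nat_lit 41294) (S (nat_lit 9252) (S (nat_lit 33197) (S (nat_lit 41000) (L (nat_lit 26949923))
(L (nat_lit 24414680)))
(L (nat_lit 9489881)))
(S (nat_lit 29016) (S (nat_lit 51026) (S (nat_lit 16808) (S (nat_lit 58746) (L (nat_lit 28393031))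
(L (nat_lit 19390788)))
(L (nat_lit 12388916)))
(L (nat_lit 20775214)))
(S (nat_lit 48780) (S (nat_lit 43926) (S (nat_lit 18252) (S (nat_lit 18475) (S (nat_lit 8524) (S (nat_lit 9545) (L (nat_lit 1504840))
(L (nat_lit 23245671)))
(L (nat_lit 14360699)))
(L (nat_lit 22811078)))
(L (nat_lit 16604481)))
(L (nat_lit 12434113)))
(L (nat_lit 25349328)))))
(L (nat_lit 25279799)))))
(S (nat_lit 53633) (S (nat_lit 4398) (S (nat_lit 5922) (L (nat_lit 5746515))
(S (nat_lit 23693) (S (nat_lit 29744) (S (nat_lit 31262) (L (nat_lit 29908103))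
(L (nat_lit 1527099)))
(L (nat_lit 12207193)))
(L (nat_lit 22027833))))
(S (nat_lit 24162) (S (nat_lit 23693) (S (nat_lit 36067) (S (nat_lit 25397) (S (nat_lit 20069) (L (nat_lit 5743379))
(L (nat_lit 31143019)))
(L (nat_lit 21408795)))
(L (nat_lit 12018867)))
(S (nat_lit 42655) (L (nat_lit 18484137))
(L (nat_lit 22584345))))
(S (nat_lit 43926) (S (nat_lit 3680) (S (nat_lit 31262) (S (nat_lit 52961) (S (nat_lit 517) (L (nat_lit 30020844))
(L (nat_lit 26692865)))
(L (nat_lit 17583361)))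
(L (nat_lit 16796953)))
(S (nat_lit 23444) (S (nat_lit 23480) (S (nat_lit 29744) (S (nat_lit 23435) (S (nat_lit 22754) (L (nat_lit 2471544))
(L (nat_lit 18584859)))
(L (nat_lit 21521668)))
(L (nat_lit 4659833)))
(L (nat_lit 30692527)))
(S (nat_lit 43208) (S (nat_lit 10640) (S (nat_lit 36067) (L (nat_lit 6805533))
(L (nat_lit 11679507)))
(S (nat_lit 20518) (S (nat_lit 26355) (S (nat_lit 51743) (S (nat_lit 30246) (S (nat_lit 11249) (S (nat_lit 18475) (L (nat_lit 12916660))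
(L (nat_lit 18113587)))
(L (nat_lit 7258723)))
(L (nat_lit 30423318)))
(L (nat_lit 20342082)))
(L (nat_lit 30520598)))
(L (nat_lit 16585414))))
(L (nat_lit 25560278)))))
(L (nat_lit 25799823)))))
(L (nat_lit 25433840)))))
(S (nat_lit 52925) (S (nat_lit 17286) (S (nat_lit 17055) (S (nat_lit 9545) (S (nat_lit 9253) (S (nat_lit 46370) (S (nat_lit 45161) (S (nat_lit 10262) (S (nat_lit 43457) (S (nat_lit 18053) (S (nat_lit 25138) (S (nat_lit 2990) (L (nat_lit 1422937))
(L (nat_lit 737065)))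
(L (nat_lit 21151563)))
(L (nat_lit 26564686)))
(L (nat_lit 15900471)))
(L (nat_lit 21150502)))
(L (nat_lit 24262407)))
(L (nat_lit 18093939)))
(S (nat_lit 54093) (L (nat_lit 27953641))
(L (nat_lit 26872265))))
(S (nat_lit 29309) (S (nat_lit 43208) (S (nat_lit 37817) (S (nat_lit 30247) (S (nat_lit 47132) (L (nat_lit 26707157))
(L (nat_lit 17942840)))
(L (nat_lit 19665164)))
(L (nat_lit 4874698)))
(L (nat_lit 4541880)))
(S (nat_lit 49073) (S (nat_lit 33869) (S (nat_lit 51026) (L (nat_lit 28391699))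
(L (nat_lit 12172064)))
(L (nat_lit 11680441)))
(L (nat_lit 25805897)))))
(S (nat_lit 36819) (S (nat_lit 5151) (S (nat_lit 3680) (S (nat_lit 29744) (S (nat_lit 21965) (L (nat_lit 6173290))
(L (nat_lit 18473034)))
(L (nat_lit 19403001)))
(L (nat_lit 12215780)))
(S (nat_lit 24915) (S (nat_lit 10482) (S (nat_lit 18475) (L (nat_lit 3531376))
(L (nat_lit 4712075)))
(L (nat_lit 17032866)))
(S (nat_lit 44679) (S (nat_lit 18475) (S (nat_lit 31979) (L (nat_lit 870889))
(L (nat_lit 17680640)))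
(L (nat_lit 10575323)))
(L (nat_lit 25694856)))))
(S (nat_lit 56583) (S (nat_lit 3680) (S (nat_lit 52961) (L (nat_lit 1430416))
(L (nat_lit 1915186)))
(S (nat_lit 23444) (S (nat_lit 34828) (L (nat_lit 3422841))
(S (nat_lit 55830) (S (nat_lit 29744) (S (nat_lit 48780) (L (nat_lit 28324149))
(L (nat_lit 15917767)))
(L (nat_lit 18112533)))
(L (nat_lit 13716266))))
(S (nat_lit 43208) (S (nat_lit 18252) (S (nat_lit 10482) (L (nat_lit 12095161))
(L (nat_lit 26781284)))
(L (nat_lit 15949845)))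
(L (nat_lit 25578693)))))
(L (nat_lit 25506967)))))
(S (nat_lit 37050) (S (nat_lit 10262) (S (nat_lit 9545) (S (nat_lit 43926) (S (nat_lit 46370) (S (nat_lit 18475) (S (nat_lit 26356) (L (nat_lit 19366105))
(L (nat_lit 30868754)))
(L (nat_lit 11002995)))
(L (nat_lit 3663091)))
(L (nat_lit 4710739)))
(L (nat_lit 498547)))
(S (nat_lit 30026) (S (nat_lit 18770) (S (nat_lit 29744) (S (nat_lit 36572) (L (nat_lit 23376057))
(L (nat_lit 3710681)))
(S (nat_lit 53851) (L (nat_lit 26745939))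
(L (nat_lit 1715705))))
(S (nat_lit 38534) (S (nat_lit 53174) (S (nat_lit 49508) (L (nat_lit 31133936))
(L (nat_lit 13922323)))
(L (nat_lit 11994994)))
(S (nat_lit 58298) (S (nat_lit 46370) (S (nat_lit 53174) (L (nat_lit 2834648))
(L (nat_lit 19374946)))
(L (nat_lit 1325939)))
(L (nat_lit 25181556)))))
(S (nat_lit 49790) (S (nat_lit 18253) (S (nat_lit 49073) (S (nat_lit 2990) (S (nat_lit 19764) (L (nat_lit 28968268))
(L (nat_lit 22944781)))
(L (nat_lit 10678861)))
(L (nat_lit 4502323)))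
(S (nat_lit 38017) (S (nat_lit 37817) (L (nat_lit 18458651))
(L (nat_lit 5030538)))
(S (nat_lit 57781) (S (nat_lit 31979) (S (nat_lit 31262) (S (nat_lit 27617) (S (nat_lit 11249) (L (nat_lit 29004140))
(L (nat_lit 3023315)))
(L (nat_lit 5088725)))
(L (nat_lit 4672793)))
(L (nat_lit 4889081)))
(L (nat_lit 25547792)))))
(L (nat_lit 25306581)))))
(S (nat_lit 56814) (S (nat_lit 11708) (S (nat_lit 28252) (L (nat_lit 6105587))
(S (nat_lit 43926) (S (nat_lit 9545) (S (nat_lit 3680) (S (nat_lit 11249) (L (nat_lit 10963064))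
(L (nat_lit 2485715)))
(L (nat_lit 680424)))
(S (nat_lit 38412) (L (nat_lit 12405219))
(L (nat_lit 8899397))))
(L (nat_lit 12171453))))
(S (nat_lit 31472) (S (nat_lit 1) (S (nat_lit 754) (S (nat_lit 53174) (S (nat_lit 18252) (L (nat_lit 1752938))
(L (nat_lit 24193839)))
(L (nat_lit 17097842)))
(L (nat_lit 20267195)))
(S (nat_lit 19290) (S (nat_lit 20157) (L (nat_lit 18209913))
(L (nat_lit 24478572)))
(L (nat_lit 14457877))))
(S (nat_lit 51236) (S (nat_lit 6591) (S (nat_lit 36820) (S (nat_lit 9545) (S (nat_lit 46370) (S (nat_lit 18475) (S (nat_lit 11249) (S (nat_lit 11966) (L (nat_lit 307933))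
(L (nat_lit 18123603)))
(L (nat_lit 26615923)))
(L (nat_lit 8971379)))
(L (nat_lit 3466896)))
(L (nat_lit 21465927)))
(S (nat_lit 46671) (L (nat_lit 2778412))
(L (nat_lit 13307722))))
(S (nat_lit 26355) (S (nat_lit 42998) (S (nat_lit 31262) (S (nat_lit 31943) (S (nat_lit 31979) (S (nat_lit 13646) (S (nat_lit 18475) (L (nat_lit 22520954))
(L (nat_lit 2614515)))
(L (nat_lit 13898514)))
(L (nat_lit 1884435)))
(L (nat_lit 31014146)))
(L (nat_lit 1882387)))
(L (nat_lit 27570818)))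
(S (nat_lit 46119) (S (nat_lit 18475) (S (nat_lit 46370) (S (nat_lit 53174) (L (nat_lit 275316))
(L (nat_lit 21292416)))
(L (nat_lit 12049498)))
(L (nat_lit 4710710)))
(L (nat_lit 25271021)))))
(L (nat_lit 25245287)))))
(L (nat_lit 25220302)))))
(L (nat_lit 25631329)))))
(S (nat_lit 52424) (S (nat_lit 14105) (S (nat_lit 9252) (S (nat_lit 17287) (S (nat_lit 18253) (S (nat_lit 31262) (S (nat_lit 51743) (S (nat_lit 20281) (S (nat_lit 2990) (S (nat_lit 25138) (L (nat_lit 7522873))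
(L (nat_lit 31101197)))
(L (nat_lit 1785609)))
(L (nat_lit 30690447)))
(L (nat_lit 22883872)))
(L (nat_lit 4908334)))
(L (nat_lit 26330387)))
(S (nat_lit 37051) (S (nat_lit 51026) (S (nat_lit 40045) (S (nat_lit 33197) (S (nat_lit 38982) (S (nat_lit 9545) (S (nat_lit 22754) (S (nat_lit 19764) (L (nat_lit 1358461))
(L (nat_lit 3559239)))
(L (nat_lit 13407510)))
(L (nat_lit 11192164)))
(L (nat_lit 31109444)))
(L (nat_lit 20485401)))
(L (nat_lit 27774212)))
(L (nat_lit 27724051)))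
(S (nat_lit 56815) (S (nat_lit 31979) (S (nat_lit 51236) (S (nat_lit 31943) (L (nat_lit 7080403))
(L (nat_lit 13791943)))
(L (nat_lit 12700423)))
(L (nat_lit 14520595)))
(L (nat_lit 25562326)))))
(S (nat_lit 29016) (S (nat_lit 54902) (S (nat_lit 28288) (S (nat_lit 21121) (L (nat_lit 26526435))
(S (nat_lit 53936) (S (nat_lit 13028) (L (nat_lit 5128404))
(S (nat_lit 39528) (S (nat_lit 29744) (S (nat_lit 5152) (S (nat_lit 3929) (L (nat_lit 29589939))
(L (nat_lit 12195663)))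
(L (nat_lit 16389995)))
(L (nat_lit 12403795)))
(L (nat_lit 24124861))))
(L (nat_lit 17845560))))
(L (nat_lit 4877706)))
(L (nat_lit 4859416)))
(S (nat_lit 48780) (S (nat_lit 4398) (S (nat_lit 46626) (S (nat_lit 5633) (S (nat_lit 56815) (L (nat_lit 2811180))
(L (nat_lit 2734855)))
(L (nat_lit 16592578)))
(L (nat_lit 282444)))
(S (nat_lit 24162) (S (nat_lit 9980) (S (nat_lit 0) (L (nat_lit 13759145))
(L (nat_lit 14452327)))
(S (nat_lit 29744) (S (nat_lit 17287) (L (nat_lit 2844071))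
(L (nat_lit 22177255)))
(S (nat_lit 49508) (S (nat_lit 20517) (S (nat_lit 38534) (S (nat_lit 26606) (L (nat_lit 26384821))
(L (nat_lit 468819)))
(L (nat_lit 6964994)))
(L (nat_lit 16589971)))
(L (nat_lit 25353703)))))
(S (nat_lit 43926) (S (nat_lit 11249) (S (nat_lit 9545) (S (nat_lit 48781) (S (nat_lit 14408) (S (nat_lit 37817) (S (nat_lit 3929) (L (nat_lit 24157068))
(L (nat_lit 2779686)))
(L (nat_lit 4678283)))
(L (nat_lit 24700999)))
(S (nat_lit 51160) (S (nat_lit 41000) (L (nat_lit 23196134))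
(L (nat_lit 27860080)))
(L (nat_lit 13854834))))
(S (nat_lit 26901) (L (nat_lit 11154243))
(L (nat_lit 26658919))))
(L (nat_lit 3066190)))
(L (nat_lit 25375457)))))
(L (nat_lit 25382403)))))
(S (nat_lit 33869) (S (nat_lit 13433) (S (nat_lit 25138) (S (nat_lit 20281) (S (nat_lit 11498) (S (nat_lit 54431) (S (nat_lit 5151) (S (nat_lit 2201) (S (nat_lit 10483) (S (nat_lit 58746) (L (nat_lit 19239482))
(L (nat_lit 6378011)))
(L (nat_lit 26611986)))
(L (nat_lit 17599767)))
(L (nat_lit 15930227)))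
(L (nat_lit 8932161)))
(L (nat_lit 26627328)))
(L (nat_lit 1717528)))
(L (nat_lit 14291224)))
(S (nat_lit 33197) (S (nat_lit 14408) (S (nat_lit 10695) (S (nat_lit 25397) (S (nat_lit 44680) (L (nat_lit 13299783))
(L (nat_lit 10106969)))
(L (nat_lit 17443929)))
(S (nat_lit 30459) (S (nat_lit 42023) (S (nat_lit 15374) (S (nat_lit 8524) (S (nat_lit 10696) (L (nat_lit 30026929))
(L (nat_lit 5618267)))
(L (nat_lit 13267236)))
(L (nat_lit 6959876)))
(L (nat_lit 24503373)))
(S (nat_lit 50223) (S (nat_lit 35138) (L (nat_lit 3829071))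
(L (nat_lit 9073679)))
(L (nat_lit 25278806)))))
(S (nat_lit 34172) (S (nat_lit 3671) (S (nat_lit 48781) (S (nat_lit 51026) (L (nat_lit 12078977))
(L (nat_lit 15368472)))
(L (nat_lit 2318802)))
(S (nat_lit 23435) (S (nat_lit 34667) (L (nat_lit 669976))
(L (nat_lit 20505857)))
(S (nat_lit 43199) (S (nat_lit 32741) (L (nat_lit 20032985))
(S (nat_lit 51743) (S (nat_lit 17287) (S (nat_lit 37817) (L (nat_lit 9529008))
(L (nat_lit 4617866)))
(L (nat_lit 22077708)))
(L (nat_lit 868627))))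
(L (nat_lit 25542341)))))
(S (nat_lit 53936) (S (nat_lit 10696) (S (nat_lit 517) (L (nat_lit 13238552))
(L (nat_lit 26877409)))
(S (nat_lit 30460) (S (nat_lit 29016) (S (nat_lit 24915) (L (nat_lit 29571156))
(L (nat_lit 17437450)))
(L (nat_lit 18484039)))
(S (nat_lit 50224) (S (nat_lit 48051) (S (nat_lit 32948) (S (nat_lit 18252) (L (nat_lit 11559476))
(L (nat_lit 16352601)))
(L (nat_lit 20099419)))
(L (nat_lit 18009467)))
(L (nat_lit 25352743)))))
(L (nat_lit 25694516)))))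
(S (nat_lit 52961) (S (nat_lit 10482) (S (nat_lit 5374) (S (nat_lit 517) (S (nat_lit 34667) (L (nat_lit 23191824))
(L (nat_lit 20743440)))
(L (nat_lit 6141204)))
(L (nat_lit 2547989)))
(S (nat_lit 30246) (S (nat_lit 12179) (S (nat_lit 517) (L (nat_lit 2996499))
(L (nat_lit 19764494)))
(L (nat_lit 3925260)))
(S (nat_lit 50010) (S (nat_lit 3680) (S (nat_lit 517) (S (nat_lit 51026) (S (nat_lit 33161) (S (nat_lit 5374) (S (nat_lit 50011) (S (nat_lit 43926) (S (nat_lit 57581) (S (nat_lit 54902) (L (nat_lit 16348170))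
(L (nat_lit 12028666)))
(L (nat_lit 12194266)))
(L (nat_lit 12051168)))
(L (nat_lit 3916060)))
(L (nat_lit 16442624)))
(L (nat_lit 20418841)))
(L (nat_lit 19949836)))
(L (nat_lit 20780302)))
(L (nat_lit 20789509)))
(L (nat_lit 25339380)))))
(L (nat_lit 25830576)))))
(S (nat_lit 53633) (S (nat_lit 11966) (S (nat_lit 12461) (S (nat_lit 10262) (S (nat_lit 24162) (L (nat_lit 14786419))
(L (nat_lit 9253043)))
(L (nat_lit 17064979)))
(S (nat_lit 32225) (S (nat_lit 51026) (S (nat_lit 24162) (L (nat_lit 6172915))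
(L (nat_lit 9253043)))
(L (nat_lit 27724051)))
(S (nat_lit 51989) (S (nat_lit 11498) (L (nat_lit 4682003))
(S (nat_lit 31262) (S (nat_lit 18475) (S (nat_lit 44679) (L (nat_lit 12657491))
(L (nat_lit 27343059)))
(L (nat_lit 2927059)))
(S (nat_lit 51026) (L (nat_lit 15573171))
(L (nat_lit 25856522)))))
(L (nat_lit 25805029)))))
(S (nat_lit 31730) (S (nat_lit 18475) (S (nat_lit 51026) (L (nat_lit 899347))
(L (nat_lit 2451987)))
(S (nat_lit 38239) (S (nat_lit 27617) (S (nat_lit 56584) (S (nat_lit 51026) (L (nat_lit 254419))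
(L (nat_lit 12386835)))
(L (nat_lit 27828896)))
(L (nat_lit 12094387)))
(S (nat_lit 58003) (S (nat_lit 754) (S (nat_lit 31472) (S (nat_lit 26606) (S (nat_lit 56584) (S (nat_lit 11249) (S (nat_lit 30026) (S (nat_lit 32948) (S (nat_lit 3470) (L (nat_lit 2440051))
(L (nat_lit 20416359)))
(L (nat_lit 20062064)))
(L (nat_lit 10646035)))
(L (nat_lit 16687219)))
(L (nat_lit 7222355)))
(L (nat_lit 5521051)))
(S (nat_lit 38114) (L (nat_lit 26728736))
(L (nat_lit 19237339))))
(S (nat_lit 20518) (S (nat_lit 28252) (L (nat_lit 19171185))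
(S (nat_lit 43926) (S (nat_lit 30026) (S (nat_lit 58002) (L (nat_lit 29808807))
(L (nat_lit 3430223)))
(L (nat_lit 7500307)))
(L (nat_lit 13478593))))
(S (nat_lit 40282) (S (nat_lit 43926) (S (nat_lit 30026) (S (nat_lit 43199) (S (nat_lit 55830) (L (nat_lit 26559669))
(L (nat_lit 8031803)))
(L (nat_lit 27271919)))
(L (nat_lit 7500307)))
(L (nat_lit 25072071)))
(L (nat_lit 25498351)))))
(L (nat_lit 25517101)))))
(S (nat_lit 51494) (S (nat_lit 0) (S (nat_lit 51989) (S (nat_lit 20517) (S (nat_lit 39833) (S (nat_lit 28288) (S (nat_lit 49790) (S (nat_lit 31979) (L (nat_lit 15437607))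
(L (nat_lit 13928275)))
(L (nat_lit 20360216)))
(L (nat_lit 8211844)))
(L (nat_lit 1613560)))
(L (nat_lit 15541395)))
(L (nat_lit 27724115)))
(S (nat_lit 19764) (S (nat_lit 17287) (S (nat_lit 9545) (L (nat_lit 17954067))
(L (nat_lit 14978899)))
(L (nat_lit 15535379)))
(S (nat_lit 39528) (S (nat_lit 27617) (S (nat_lit 43926) (S (nat_lit 26606) (L (nat_lit 211891))
(L (nat_lit 16053395)))
(L (nat_lit 12423635)))
(L (nat_lit 14935187)))
(L (nat_lit 25211463)))))
(L (nat_lit 25805991)))))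
(L (nat_lit 25509010)))))
(L (nat_lit 25527916)))))
(S (nat_lit 38983) (S (nat_lit 18253) (S (nat_lit 1472) (S (nat_lit 13646) (S (nat_lit 3929) (S (nat_lit 8523) (S (nat_lit 15038) (L (nat_lit 13883138))
(S (nat_lit 54431) (S (nat_lit 21965) (S (nat_lit 20517) (L (nat_lit 3810877))
(L (nat_lit 6745235)))
(L (nat_lit 18699525)))
(L (nat_lit 1917202))))
(S (nat_lit 28287) (S (nat_lit 18252) (S (nat_lit 38982) (S (nat_lit 50223) (S (nat_lit 50777) (S (nat_lit 51989) (S (nat_lit 5374) (L (nat_lit 4861498))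
(L (nat_lit 19763755)))
(L (nat_lit 20342085)))
(L (nat_lit 20342083)))
(L (nat_lit 20822339)))
(L (nat_lit 714063)))
(S (nat_lit 37908) (L (nat_lit 15845721))
(L (nat_lit 22880273))))
(S (nat_lit 48051) (S (nat_lit 7098) (S (nat_lit 52712) (S (nat_lit 11966) (L (nat_lit 18541827))
(L (nat_lit 26524691)))
(L (nat_lit 18685572)))
(L (nat_lit 14504967)))
(L (nat_lit 25895021)))))
(S (nat_lit 23693) (S (nat_lit 43276) (L (nat_lit 13197633))
(S (nat_lit 50224) (S (nat_lit 8911) (L (nat_lit 8028632))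
(S (nat_lit 25397) (S (nat_lit 50223) (S (nat_lit 32948) (S (nat_lit 24163) (L (nat_lit 18967824))
(L (nat_lit 21488963)))
(L (nat_lit 20296857)))
(L (nat_lit 966902)))
(L (nat_lit 14288681))))
(L (nat_lit 20221497))))
(S (nat_lit 43457) (S (nat_lit 1766) (S (nat_lit 24916) (S (nat_lit 15632) (S (nat_lit 0) (S (nat_lit 26150) (L (nat_lit 30027879))
(L (nat_lit 14458006)))
(L (nat_lit 14425697)))
(L (nat_lit 26593763)))
(L (nat_lit 14327555)))
(S (nat_lit 21530) (S (nat_lit 38238) (S (nat_lit 7098) (L (nat_lit 26608262))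
(L (nat_lit 14503269)))
(L (nat_lit 13719338)))
(S (nat_lit 41294) (S (nat_lit 53633) (S (nat_lit 17287) (S (nat_lit 38238) (L (nat_lit 17662598))
(L (nat_lit 6112842)))
(L (nat_lit 24983812)))
(L (nat_lit 1340081)))
(L (nat_lit 25213542)))))
(L (nat_lit 25861507)))))
(S (nat_lit 33410) (S (nat_lit 36067) (S (nat_lit 36572) (S (nat_lit 51743) (S (nat_lit 17287) (L (nat_lit 933106))
(L (nat_lit 15426820)))
(L (nat_lit 15394048)))
(L (nat_lit 20046214)))
(L (nat_lit 20782464)))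
(S (nat_lit 53174) (S (nat_lit 10696) (S (nat_lit 8523) (S (nat_lit 47381) (L (nat_lit 26937831))
(L (nat_lit 8192499)))
(S (nat_lit 28287) (S (nat_lit 31943) (L (nat_lit 14524594))
(L (nat_lit 30784627)))
(S (nat_lit 48051) (S (nat_lit 45161) (S (nat_lit 20517) (S (nat_lit 24916) (L (nat_lit 24939975))
(L (nat_lit 2647718)))
(L (nat_lit 16587954)))
(L (nat_lit 12969698)))
(L (nat_lit 25821484)))))
(S (nat_lit 30460) (S (nat_lit 5633) (S (nat_lit 33869) (S (nat_lit 38238) (S (nat_lit 52712) (S (nat_lit 51743) (L (nat_lit 20242848))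
(L (nat_lit 417112)))
(L (nat_lit 19248280)))
(L (nat_lit 860631)))
(L (nat_lit 7163025)))
(S (nat_lit 25397) (S (nat_lit 52712) (S (nat_lit 50777) (S (nat_lit 0) (L (nat_lit 8807542))
(L (nat_lit 19325959)))
(L (nat_lit 1422970)))
(L (nat_lit 19734053)))
(S (nat_lit 45161) (S (nat_lit 6592) (S (nat_lit 4187) (L (nat_lit 8239282))
(L (nat_lit 17747298)))
(L (nat_lit 1921512)))
(L (nat_lit 25548160)))))
(S (nat_lit 50224) (S (nat_lit 2990) (S (nat_lit 46626) (S (nat_lit 46627) (S (nat_lit 51743) (S (nat_lit 25397) (L (nat_lit 29797494))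
(L (nat_lit 14316551)))
(L (nat_lit 875852)))
(L (nat_lit 939342)))
(L (nat_lit 20441411)))
(S (nat_lit 22754) (S (nat_lit 5374) (S (nat_lit 26863) (S (nat_lit 517) (S (nat_lit 38982) (L (nat_lit 16042140))
(L (nat_lit 20778319)))
(L (nat_lit 20407553)))
(L (nat_lit 19195425)))
(L (nat_lit 4875533)))
(S (nat_lit 42518) (S (nat_lit 34667) (S (nat_lit 18252) (S (nat_lit 41729) (L (nat_lit 7038468))
(L (nat_lit 13641368)))
(L (nat_lit 22545752)))
(L (nat_lit 550162)))
(L (nat_lit 25615399)))))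
(L (nat_lit 25352529)))))
(L (nat_lit 25802976)))))
(S (nat_lit 21236) (S (nat_lit 10695) (S (nat_lit 13646) (S (nat_lit 17287) (S (nat_lit 43715) (L (nat_lit 24230665))
(L (nat_lit 14437542)))
(L (nat_lit 15426820)))
(S (nat_lit 33410) (S (nat_lit 41729) (S (nat_lit 31013) (L (nat_lit 15573600))
(L (nat_lit 24600931)))
(L (nat_lit 23553284)))
(S (nat_lit 53174) (S (nat_lit 24598) (S (nat_lit 12179) (L (nat_lit 16117413))
(L (nat_lit 21839170)))
(S (nat_lit 56336) (S (nat_lit 1) (S (nat_lit 17287) (S (nat_lit 4187) (L (nat_lit 28908593))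
(L (nat_lit 11985504)))
(L (nat_lit 24469585)))
(L (nat_lit 18882350)))
(L (nat_lit 19274872))))
(L (nat_lit 25443508)))))
(S (nat_lit 30459) (S (nat_lit 3716) (S (nat_lit 9252) (S (nat_lit 24162) (S (nat_lit 39833) (S (nat_lit 50777) (S (nat_lit 16808) (L (nat_lit 1260248))
(L (nat_lit 24986852)))
(L (nat_lit 12641619)))
(L (nat_lit 24981825)))
(L (nat_lit 22886566)))
(S (nat_lit 29016) (S (nat_lit 53936) (S (nat_lit 49073) (S (nat_lit 42998) (L (nat_lit 20823047))
(L (nat_lit 23324194)))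
(L (nat_lit 22340685)))
(L (nat_lit 18488128)))
(S (nat_lit 48780) (S (nat_lit 11141) (L (nat_lit 9244083))
(S (nat_lit 51989) (S (nat_lit 16808) (S (nat_lit 51743) (L (nat_lit 10117509))
(L (nat_lit 19949031)))
(L (nat_lit 24537317)))
(L (nat_lit 13453636))))
(L (nat_lit 25343686)))))
(S (nat_lit 23480) (S (nat_lit 14903) (S (nat_lit 31585) (L (nat_lit 14345387))
(S (nat_lit 49073) (S (nat_lit 17287) (S (nat_lit 20517) (S (nat_lit 43457) (L (nat_lit 29809674))
(L (nat_lit 24445498)))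
(L (nat_lit 30694573)))
(L (nat_lit 24699140)))
(L (nat_lit 4502264))))
(S (nat_lit 34667) (S (nat_lit 49073) (S (nat_lit 15374) (S (nat_lit 24162) (S (nat_lit 50777) (S (nat_lit 36820) (S (nat_lit 36819) (S (nat_lit 30460) (L (nat_lit 24442307))
(L (nat_lit 11155517)))
(L (nat_lit 31133131)))
(L (nat_lit 11111960)))
(L (nat_lit 11199937)))
(L (nat_lit 30989478)))
(L (nat_lit 7211759)))
(L (nat_lit 8210980)))
(S (nat_lit 54431) (S (nat_lit 12179) (S (nat_lit 21965) (S (nat_lit 20517) (S (nat_lit 36067) (S (nat_lit 46370) (L (nat_lit 18798730))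
(L (nat_lit 18126488)))
(L (nat_lit 7048977)))
(L (nat_lit 6743218)))
(L (nat_lit 3691801)))
(S (nat_lit 51572) (L (nat_lit 26774150))
(L (nat_lit 9263584))))
(L (nat_lit 25838630)))))
(S (nat_lit 43244) (S (nat_lit 753) (S (nat_lit 39833) (S (nat_lit 23951) (L (nat_lit 15768281))
(L (nat_lit 10505755)))
(L (nat_lit 11292195)))
(S (nat_lit 20517) (S (nat_lit 39833) (S (nat_lit 49073) (S (nat_lit 54902) (S (nat_lit 21965) (S (nat_lit 50777) (L (nat_lit 21929997))
(L (nat_lit 12707157)))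
(L (nat_lit 18424740)))
(L (nat_lit 5842799)))
(L (nat_lit 22517880)))
(L (nat_lit 11037814)))
(S (nat_lit 40281) (S (nat_lit 32252) (L (nat_lit 24130310))
(S (nat_lit 51989) (S (nat_lit 41729) (L (nat_lit 17833624))
(L (nat_lit 5891341)))
(L (nat_lit 6113800))))
(L (nat_lit 25221642)))))
(L (nat_lit 25440996)))))
(S (nat_lit 50223) (S (nat_lit 16302) (S (nat_lit 23435) (S (nat_lit 49508) (L (nat_lit 3829288))
(L (nat_lit 16409607)))
(L (nat_lit 2481593)))
(S (nat_lit 36066) (S (nat_lit 17286) (S (nat_lit 51743) (S (nat_lit 54902) (L (nat_lit 4674315))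
(L (nat_lit 14018212)))
(L (nat_lit 648526)))
(S (nat_lit 37050) (S (nat_lit 5374) (S (nat_lit 51743) (S (nat_lit 36572) (L (nat_lit 29373032))
(L (nat_lit 13208923)))
(L (nat_lit 20407616)))
(L (nat_lit 18696512)))
(S (nat_lit 56814) (S (nat_lit 20518) (S (nat_lit 41294) (L (nat_lit 29734932))
(L (nat_lit 9255523)))
(L (nat_lit 2959054)))
(L (nat_lit 25791760)))))
(S (nat_lit 55830) (S (nat_lit 51743) (S (nat_lit 55160) (S (nat_lit 36572) (S (nat_lit 12179) (L (nat_lit 16093014))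
(L (nat_lit 11391456)))
(L (nat_lit 20155963)))
(L (nat_lit 21833837)))
(S (nat_lit 54502) (L (nat_lit 14699803))
(L (nat_lit 10293811))))
(L (nat_lit 25855530)))))
(L (nat_lit 25903429)))))
(S (nat_lit 41000) (S (nat_lit 17287) (S (nat_lit 14645) (S (nat_lit 2495) (S (nat_lit 44680) (S (nat_lit 53936) (S (nat_lit 38534) (L (nat_lit 29411847))
(L (nat_lit 17665735)))
(L (nat_lit 27839495)))
(L (nat_lit 24647462)))
(S (nat_lit 22259) (S (nat_lit 33955) (L (nat_lit 22079017))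
(S (nat_lit 47132) (S (nat_lit 33869) (S (nat_lit 48051) (S (nat_lit 49073) (S (nat_lit 4187) (L (nat_lit 3750139))
(L (nat_lit 17522856)))
(L (nat_lit 22537572)))
(L (nat_lit 17662262)))
(L (nat_lit 16600321)))
(L (nat_lit 10289715))))
(S (nat_lit 42023) (S (nat_lit 5215) (S (nat_lit 25487) (L (nat_lit 6450893))
(L (nat_lit 26413772)))
(S (nat_lit 24916) (S (nat_lit 49073) (S (nat_lit 45914) (S (nat_lit 45161) (S (nat_lit 6842) (L (nat_lit 12971586))
(L (nat_lit 13804339)))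
(L (nat_lit 14897240)))
(L (nat_lit 728504)))
(L (nat_lit 22449528)))
(L (nat_lit 21095942))))
(L (nat_lit 25663050)))))
(S (nat_lit 34409) (S (nat_lit 14408) (S (nat_lit 47132) (S (nat_lit 52916) (S (nat_lit 12179) (S (nat_lit 4187) (L (nat_lit 30117321))
(L (nat_lit 17064544)))
(L (nat_lit 18713939)))
(L (nat_lit 4047124)))
(L (nat_lit 1631539)))
(S (nat_lit 34172) (S (nat_lit 15986) (L (nat_lit 18717778))
(S (nat_lit 20517) (S (nat_lit 3716) (S (nat_lit 48052) (S (nat_lit 5151) (L (nat_lit 10915483))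
(L (nat_lit 20817009)))
(L (nat_lit 17681511)))
(L (nat_lit 20351878)))
(L (nat_lit 16016562))))
(S (nat_lit 53936) (S (nat_lit 9698) (S (nat_lit 50224) (L (nat_lit 3027527))
(L (nat_lit 20810988)))
(S (nat_lit 49073) (S (nat_lit 40045) (S (nat_lit 12179) (L (nat_lit 15772345))
(L (nat_lit 26812896)))
(L (nat_lit 17043252)))
(L (nat_lit 4515379))))
(L (nat_lit 25767456)))))
(S (nat_lit 54173) (S (nat_lit 12179) (S (nat_lit 35396) (S (nat_lit 12350) (S (nat_lit 11708) (L (nat_lit 5090834))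
(L (nat_lit 9170092)))
(S (nat_lit 51743) (S (nat_lit 49073) (S (nat_lit 47132) (S (nat_lit 517) (S (nat_lit 17286) (L (nat_lit 11459665))
(L (nat_lit 24978853)))
(L (nat_lit 20821252)))
(L (nat_lit 17471544)))
(L (nat_lit 27957637)))
(L (nat_lit 20779342))))
(S (nat_lit 40611) (L (nat_lit 5463857))
(L (nat_lit 8449522))))
(S (nat_lit 31943) (S (nat_lit 31979) (S (nat_lit 24162) (S (nat_lit 10696) (S (nat_lit 29017) (L (nat_lit 4041269))
(L (nat_lit 4417228)))
(L (nat_lit 16965879)))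
(L (nat_lit 13692243)))
(L (nat_lit 7009760)))
(S (nat_lit 51707) (S (nat_lit 10695) (S (nat_lit 54431) (S (nat_lit 47132) (L (nat_lit 28625966))
(L (nat_lit 17078037)))
(L (nat_lit 16900742)))
(L (nat_lit 5914872)))
(L (nat_lit 25385440)))))
(L (nat_lit 25765936)))))
(L (nat_lit 24273386)))
(L (nat_lit 25542308)))))
(S (nat_lit 38017) (S (nat_lit 18474) (S (nat_lit 16808) (S (nat_lit 6591) (S (nat_lit 13397) (S (nat_lit 45434) (S (nat_lit 3929) (S (nat_lit 18252) (L (nat_lit 7005729))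
(L (nat_lit 24231256)))
(L (nat_lit 19771558)))
(L (nat_lit 7156324)))
(S (nat_lit 33161) (S (nat_lit 45434) (S (nat_lit 39833) (S (nat_lit 34409) (L (nat_lit 18952537))
(L (nat_lit 20487193)))
(L (nat_lit 24457985)))
(L (nat_lit 24391704)))
(S (nat_lit 52925) (S (nat_lit 30247) (S (nat_lit 39833) (S (nat_lit 0) (S (nat_lit 10695) (S (nat_lit 3929) (L (nat_lit 5458796))
(L (nat_lit 26779297)))
(L (nat_lit 26945059)))
(L (nat_lit 6939692)))
(L (nat_lit 12323536)))
(L (nat_lit 12769560)))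
(L (nat_lit 25626900)))))
(S (nat_lit 26355) (S (nat_lit 57278) (S (nat_lit 45434) (S (nat_lit 51707) (S (nat_lit 24162) (L (nat_lit 30088369))
(L (nat_lit 21554497)))
(L (nat_lit 7494136)))
(L (nat_lit 7166436)))
(L (nat_lit 19374168)))
(S (nat_lit 46119) (S (nat_lit 15374) (S (nat_lit 19628) (L (nat_lit 19366203))
(S (nat_lit 24916) (S (nat_lit 26606) (L (nat_lit 29635173))
(L (nat_lit 24617857)))
(L (nat_lit 2470557))))
(S (nat_lit 35138) (S (nat_lit 3680) (S (nat_lit 24916) (S (nat_lit 52961) (S (nat_lit 5374) (L (nat_lit 20782498))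
(L (nat_lit 20373760)))
(L (nat_lit 3810808)))
(L (nat_lit 31104109)))
(L (nat_lit 20003720)))
(S (nat_lit 54902) (S (nat_lit 52961) (S (nat_lit 55160) (S (nat_lit 3680) (L (nat_lit 14387452))
(L (nat_lit 17630952)))
(L (nat_lit 19376961)))
(L (nat_lit 17638420)))
(L (nat_lit 25838789)))))
(L (nat_lit 25755916)))))
(S (nat_lit 36572) (S (nat_lit 18770) (S (nat_lit 12461) (S (nat_lit 45434) (L (nat_lit 29995365))
(L (nat_lit 7156292)))
(S (nat_lit 32225) (S (nat_lit 25670) (S (nat_lit 23480) (L (nat_lit 2863450))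
(L (nat_lit 30583535)))
(L (nat_lit 8119780)))
(S (nat_lit 51989) (S (nat_lit 36067) (S (nat_lit 57278) (L (nat_lit 6868088))
(L (nat_lit 11255960)))
(L (nat_lit 12740294)))
(L (nat_lit 25314022)))))
(S (nat_lit 38534) (S (nat_lit 22754) (S (nat_lit 38239) (S (nat_lit 21236) (L (nat_lit 3972659))
(L (nat_lit 30845572)))
(L (nat_lit 30739021)))
(S (nat_lit 37849) (S (nat_lit 6267) (L (nat_lit 15000659))
(L (nat_lit 9102513)))
(L (nat_lit 21488900))))
(S (nat_lit 58298) (S (nat_lit 10695) (S (nat_lit 36819) (S (nat_lit 30460) (S (nat_lit 33410) (S (nat_lit 19218) (L (nat_lit 12194641))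
(L (nat_lit 26905937)))
(L (nat_lit 16360322)))
(L (nat_lit 30718002)))
(L (nat_lit 18572361)))
(S (nat_lit 30459) (S (nat_lit 20069) (S (nat_lit 17252) (L (nat_lit 16014208))
(S (nat_lit 57278) (S (nat_lit 39529) (S (nat_lit 14408) (S (nat_lit 32225) (L (nat_lit 28854500))
(L (nat_lit 25005388)))
(L (nat_lit 10513940)))
(L (nat_lit 17680425)))
(L (nat_lit 19375009))))
(S (nat_lit 49582) (S (nat_lit 656) (L (nat_lit 20850178))
(L (nat_lit 2320081)))
(L (nat_lit 31142243))))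
(S (nat_lit 50223) (S (nat_lit 16435) (L (nat_lit 615758))
(S (nat_lit 51707) (S (nat_lit 36067) (L (nat_lit 6402680))
(L (nat_lit 6819763)))
(L (nat_lit 20843852))))
(L (nat_lit 25903147)))))
(L (nat_lit 25580681)))))
(S (nat_lit 56336) (S (nat_lit 2990) (S (nat_lit 17750) (L (nat_lit 19370235))
(S (nat_lit 37514) (S (nat_lit 33869) (L (nat_lit 17556739))
(L (nat_lit 15532306)))
(S (nat_lit 57278) (S (nat_lit 45434) (S (nat_lit 46626) (L (nat_lit 2876685))
(L (nat_lit 11264077)))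
(L (nat_lit 7049720)))
(L (nat_lit 25862691)))))
(S (nat_lit 22754) (S (nat_lit 5152) (S (nat_lit 5374) (S (nat_lit 41729) (S (nat_lit 57278) (L (nat_lit 11685677))
(L (nat_lit 19097059)))
(L (nat_lit 16377092)))
(S (nat_lit 24565) (L (nat_lit 15918452))
(L (nat_lit 20097805))))
(S (nat_lit 24916) (S (nat_lit 42023) (S (nat_lit 25670) (L (nat_lit 21046125))
(L (nat_lit 21245977)))
(L (nat_lit 10602104)))
(S (nat_lit 44680) (S (nat_lit 49073) (S (nat_lit 55831) (S (nat_lit 3680) (L (nat_lit 24633604))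
(L (nat_lit 19227821)))
(L (nat_lit 14328857)))
(L (nat_lit 6048109)))
(L (nat_lit 25861229)))))
(S (nat_lit 42518) (S (nat_lit 4398) (S (nat_lit 43457) (S (nat_lit 55160) (S (nat_lit 36067) (L (nat_lit 7097425))
(L (nat_lit 7156918)))
(L (nat_lit 27690322)))
(L (nat_lit 24310093)))
(S (nat_lit 24162) (S (nat_lit 7098) (S (nat_lit 43244) (S (nat_lit 49073) (S (nat_lit 50777) (S (nat_lit 45434) (L (nat_lit 6315919))
(L (nat_lit 7156292)))
(L (nat_lit 27899203)))
(L (nat_lit 27758311)))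
(L (nat_lit 14491333)))
(L (nat_lit 23218086)))
(S (nat_lit 43926) (S (nat_lit 19218) (S (nat_lit 7098) (L (nat_lit 23589184))
(L (nat_lit 5764710)))
(L (nat_lit 12046360)))
(L (nat_lit 25793991)))))
(L (nat_lit 25923917)))))
(L (nat_lit 25805926)))))
(S (nat_lit 38238) (S (nat_lit 11249) (S (nat_lit 9980) (S (nat_lit 10262) (S (nat_lit 753) (L (nat_lit 8260147))
(L (nat_lit 13965203)))
(L (nat_lit 17063955)))
(S (nat_lit 29744) (S (nat_lit 2495) (S (nat_lit 305) (S (nat_lit 43208) (L (nat_lit 4780371))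
(L (nat_lit 7111159)))
(L (nat_lit 20843050)))
(S (nat_lit 22259) (S (nat_lit 13397) (L (nat_lit 12936867))
(L (nat_lit 13458691)))
(S (nat_lit 42023) (S (nat_lit 32948) (L (nat_lit 30769775))
(L (nat_lit 30999920)))
(L (nat_lit 25904353)))))
(S (nat_lit 49508) (S (nat_lit 51026) (L (nat_lit 4987315))
(L (nat_lit 385459)))
(L (nat_lit 25891053)))))
(S (nat_lit 31013) (S (nat_lit 10482) (S (nat_lit 3716) (S (nat_lit 17286) (S (nat_lit 26356) (S (nat_lit 46627) (L (nat_lit 564888))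
(L (nat_lit 17367385)))
(L (nat_lit 31162856)))
(L (nat_lit 12392080)))
(S (nat_lit 23480) (S (nat_lit 48781) (S (nat_lit 29744) (L (nat_lit 3525424))
(L (nat_lit 24306151)))
(L (nat_lit 13820616)))
(S (nat_lit 43244) (S (nat_lit 42518) (S (nat_lit 17056) (L (nat_lit 2618646))
(L (nat_lit 15535411)))
(L (nat_lit 24613144)))
(L (nat_lit 25449892)))))
(S (nat_lit 30246) (S (nat_lit 14903) (S (nat_lit 54902) (L (nat_lit 19238704))
(L (nat_lit 13791444)))
(S (nat_lit 34667) (S (nat_lit 38982) (S (nat_lit 38534) (L (nat_lit 28359304))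
(L (nat_lit 31014080)))
(L (nat_lit 23929009)))
(S (nat_lit 54431) (S (nat_lit 41729) (L (nat_lit 12173370))
(L (nat_lit 14247172)))
(L (nat_lit 25708646)))))
(S (nat_lit 50010) (S (nat_lit 26409) (L (nat_lit 13297922))
(S (nat_lit 46119) (S (nat_lit 37817) (S (nat_lit 25397) (S (nat_lit 38239) (L (nat_lit 11186331))
(L (nat_lit 17473656)))
(L (nat_lit 12219404)))
(S (nat_lit 44812) (L (nat_lit 13736605))
(L (nat_lit 16852569))))
(L (nat_lit 20847725))))
(L (nat_lit 25412196)))))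
(S (nat_lit 50777) (S (nat_lit 3680) (S (nat_lit 18252) (S (nat_lit 32948) (S (nat_lit 46627) (S (nat_lit 50224) (S (nat_lit 27368) (L (nat_lit 30025217))
(L (nat_lit 11657841)))
(L (nat_lit 20452697)))
(L (nat_lit 20742479)))
(L (nat_lit 20742481)))
(S (nat_lit 38016) (S (nat_lit 517) (S (nat_lit 49073) (S (nat_lit 38239) (S (nat_lit 42023) (L (nat_lit 6810213))
(L (nat_lit 14390520)))
(L (nat_lit 717259)))
(L (nat_lit 13791975)))
(L (nat_lit 8053806)))
(S (nat_lit 57780) (S (nat_lit 37514) (S (nat_lit 46119) (S (nat_lit 55160) (L (nat_lit 6420173))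
(L (nat_lit 19738083)))
(L (nat_lit 12452340)))
(L (nat_lit 20013610)))
(L (nat_lit 25788689)))))
(S (nat_lit 23444) (S (nat_lit 0) (S (nat_lit 49073) (S (nat_lit 47381) (L (nat_lit 4892121))
(L (nat_lit 869587)))
(L (nat_lit 14502084)))
(S (nat_lit 19764) (S (nat_lit 24162) (S (nat_lit 54431) (L (nat_lit 9059141))
(L (nat_lit 3721990)))
(L (nat_lit 13853875)))
(S (nat_lit 39528) (S (nat_lit 23234) (S (nat_lit 10262) (S (nat_lit 27617) (S (nat_lit 40045) (S (nat_lit 49073) (L (nat_lit 29723373))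
(L (nat_lit 4830087)))
(L (nat_lit 27545060)))
(L (nat_lit 12370995)))
(L (nat_lit 12468275)))
(L (nat_lit 11612825)))
(L (nat_lit 25178726)))))
(S (nat_lit 43208) (S (nat_lit 7099) (S (nat_lit 24162) (S (nat_lit 37514) (S (nat_lit 49073) (S (nat_lit 13397) (S (nat_lit 25138) (L (nat_lit 25007436))
(L (nat_lit 17166421)))
(L (nat_lit 26712675)))
(L (nat_lit 14260312)))
(L (nat_lit 30909091)))
(S (nat_lit 53734) (L (nat_lit 13963001))
(L (nat_lit 14554822))))
(S (nat_lit 26863) (S (nat_lit 56336) (S (nat_lit 20281) (S (nat_lit 51707) (L (nat_lit 29640324))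
(L (nat_lit 27795635)))
(L (nat_lit 9105550)))
(S (nat_lit 58658) (L (nat_lit 20327200))
(L (nat_lit 5826152))))
(S (nat_lit 46627) (S (nat_lit 19218) (S (nat_lit 25138) (S (nat_lit 49073) (S (nat_lit 37514) (S (nat_lit 36572) (L (nat_lit 29667346))
(L (nat_lit 20491012)))
(L (nat_lit 13706066)))
(L (nat_lit 14345412)))
(L (nat_lit 11717112)))
(L (nat_lit 12044472)))
(L (nat_lit 25477732)))))
(L (nat_lit 25724646)))))
(L (nat_lit 25212243)))))
(S (nat_lit 58002) (S (nat_lit 5151) (S (nat_lit 754) (S (nat_lit 4398) (S (nat_lit 51707) (S (nat_lit 52105) (L (nat_lit 8270402))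
(L (nat_lit 18954588)))
(L (nat_lit 27475123)))
(S (nat_lit 24162) (S (nat_lit 51026) (S (nat_lit 49073) (S (nat_lit 2990) (S (nat_lit 3470) (S (nat_lit 29744) (S (nat_lit 52424) (S (nat_lit 14408) (L (nat_lit 8537693))
(L (nat_lit 13881218)))
(L (nat_lit 27758867)))
(L (nat_lit 30530799)))
(L (nat_lit 26972367)))
(L (nat_lit 26972431)))
(L (nat_lit 20351879)))
(L (nat_lit 20721802)))
(S (nat_lit 43926) (S (nat_lit 2990) (S (nat_lit 3470) (L (nat_lit 21491879))
(L (nat_lit 20844751)))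
(L (nat_lit 20844815)))
(L (nat_lit 25800870)))))
(S (nat_lit 20518) (S (nat_lit 25138) (S (nat_lit 11966) (S (nat_lit 753) (S (nat_lit 51236) (S (nat_lit 18252) (L (nat_lit 6981049))
(L (nat_lit 10575416)))
(L (nat_lit 12803909)))
(L (nat_lit 19304696)))
(L (nat_lit 11190083)))
(S (nat_lit 44822) (L (nat_lit 11178766))
(L (nat_lit 17440856))))
(S (nat_lit 40282) (S (nat_lit 16808) (S (nat_lit 24162) (S (nat_lit 13646) (S (nat_lit 49073) (L (nat_lit 1498918))
(L (nat_lit 22884423)))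
(L (nat_lit 7190706)))
(L (nat_lit 17652033)))
(S (nat_lit 36572) (S (nat_lit 55831) (S (nat_lit 49508) (S (nat_lit 49073) (S (nat_lit 54831) (L (nat_lit 8914584))
(L (nat_lit 20275744)))
(L (nat_lit 8054308)))
(L (nat_lit 8308749)))
(L (nat_lit 3694963)))
(S (nat_lit 56336) (S (nat_lit 39647) (L (nat_lit 1323609))
(S (nat_lit 53936) (S (nat_lit 49508) (S (nat_lit 44902) (L (nat_lit 8043613))
(L (nat_lit 3818841)))
(L (nat_lit 20473120)))
(L (nat_lit 19184728))))
(L (nat_lit 25251055)))))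
(L (nat_lit 25582726)))))
(S (nat_lit 24915) (S (nat_lit 13388) (S (nat_lit 31262) (S (nat_lit 17750) (S (nat_lit 32225) (L (nat_lit 2795962))
(L (nat_lit 14257401)))
(L (nat_lit 16444554)))
(L (nat_lit 14347306)))
(S (nat_lit 33152) (S (nat_lit 36066) (S (nat_lit 31262) (S (nat_lit 6591) (S (nat_lit 32225) (S (nat_lit 31472) (S (nat_lit 24162) (S (nat_lit 42998) (S (nat_lit 23370) (L (nat_lit 3942836))
(L (nat_lit 15393024)))
(L (nat_lit 23094823)))
(L (nat_lit 10301587)))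
(L (nat_lit 13715705)))
(L (nat_lit 16927496)))
(L (nat_lit 283469)))
(L (nat_lit 1751978)))
(L (nat_lit 31100458)))
(S (nat_lit 52916) (S (nat_lit 31262) (S (nat_lit 50777) (S (nat_lit 49073) (S (nat_lit 17750) (S (nat_lit 32225) (S (nat_lit 31730) (S (nat_lit 58746) (L (nat_lit 6320719))
(L (nat_lit 21127503)))
(L (nat_lit 30457043)))
(L (nat_lit 30550547)))
(L (nat_lit 16425729)))
(L (nat_lit 8045688)))
(L (nat_lit 15393834)))
(L (nat_lit 17490986)))
(L (nat_lit 25249042)))))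
(S (nat_lit 44679) (S (nat_lit 6386) (S (nat_lit 12179) (S (nat_lit 4187) (S (nat_lit 19764) (L (nat_lit 26321395))
(L (nat_lit 30449075)))
(L (nat_lit 11985078)))
(S (nat_lit 31943) (S (nat_lit 24162) (S (nat_lit 27617) (L (nat_lit 3712787))
(L (nat_lit 19700881)))
(L (nat_lit 14493843)))
(S (nat_lit 51707) (S (nat_lit 4399) (S (nat_lit 18770) (S (nat_lit 11708) (L (nat_lit 11045528))
(L (nat_lit 23620836)))
(L (nat_lit 4072142)))
(L (nat_lit 20752770)))
(L (nat_lit 25314645)))))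
(S (nat_lit 26150) (S (nat_lit 13433) (S (nat_lit 18475) (S (nat_lit 43208) (L (nat_lit 18107451))
(L (nat_lit 4879629)))
(S (nat_lit 19973) (L (nat_lit 13737846))
(L (nat_lit 4474459))))
(S (nat_lit 24982) (L (nat_lit 22424354))
(L (nat_lit 8010941))))
(S (nat_lit 45914) (S (nat_lit 24982) (S (nat_lit 58651) (L (nat_lit 6376861))
(L (nat_lit 26295507)))
(S (nat_lit 45161) (S (nat_lit 51494) (S (nat_lit 18770) (S (nat_lit 17056) (L (nat_lit 17716450))
(L (nat_lit 12401811)))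
(L (nat_lit 11166766)))
(L (nat_lit 10129848)))
(L (nat_lit 8024514))))
(L (nat_lit 25900258)))))
(L (nat_lit 25866432)))))
(L (nat_lit 25247370)))))
(S (nat_lit 57781) (S (nat_lit 15632) (S (nat_lit 9545) (S (nat_lit 12215) (S (nat_lit 11249) (L (nat_lit 17099826))
(L (nat_lit 8055854)))
(S (nat_lit 31979) (S (nat_lit 36067) (S (nat_lit 56583) (L (nat_lit 8193678))
(L (nat_lit 7225060)))
(L (nat_lit 7005361)))
(S (nat_lit 51743) (S (nat_lit 41000) (L (nat_lit 1748473))
(L (nat_lit 4810214)))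
(L (nat_lit 25474163)))))
(S (nat_lit 29309) (S (nat_lit 14645) (S (nat_lit 13388) (S (nat_lit 23444) (S (nat_lit 13184) (L (nat_lit 4679955))
(L (nat_lit 22938992)))
(L (nat_lit 7751833)))
(S (nat_lit 33152) (S (nat_lit 56815) (S (nat_lit 0) (L (nat_lit 503449))
(L (nat_lit 446215)))
(L (nat_lit 19803617)))
(S (nat_lit 52916) (S (nat_lit 1766) (S (nat_lit 46627) (S (nat_lit 44902) (L (nat_lit 5695047))
(L (nat_lit 3591014)))
(L (nat_lit 16920338)))
(L (nat_lit 20840870)))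
(L (nat_lit 25610529)))))
(S (nat_lit 34409) (S (nat_lit 12461) (S (nat_lit 46627) (S (nat_lit 31943) (L (nat_lit 6447725))
(L (nat_lit 4572889)))
(L (nat_lit 20851204)))
(S (nat_lit 32225) (S (nat_lit 4398) (S (nat_lit 5151) (L (nat_lit 8210981))
(L (nat_lit 26325363)))
(L (nat_lit 17869747)))
(S (nat_lit 51989) (S (nat_lit 6842) (L (nat_lit 4515379))
(L (nat_lit 13435091)))
(L (nat_lit 25643080)))))
(S (nat_lit 54173) (S (nat_lit 3680) (S (nat_lit 24915) (L (nat_lit 8195821))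
(L (nat_lit 6951356)))
(S (nat_lit 23444) (S (nat_lit 44680) (S (nat_lit 44902) (L (nat_lit 4711795))
(L (nat_lit 7999996)))
(L (nat_lit 4907373)))
(S (nat_lit 43208) (S (nat_lit 0) (L (nat_lit 8310181))
(L (nat_lit 19096993)))
(L (nat_lit 25559254)))))
(L (nat_lit 25319816)))))
(S (nat_lit 49073) (S (nat_lit 4399) (S (nat_lit 5151) (S (nat_lit 29017) (S (nat_lit 23951) (S (nat_lit 51026) (L (nat_lit 19260558))
(L (nat_lit 10564499)))
(L (nat_lit 22231225)))
(L (nat_lit 19071512)))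
(S (nat_lit 24915) (S (nat_lit 34172) (S (nat_lit 13397) (S (nat_lit 28287) (L (nat_lit 3402385))
(L (nat_lit 7759493)))
(L (nat_lit 7366353)))
(L (nat_lit 4856377)))
(S (nat_lit 44679) (S (nat_lit 53936) (S (nat_lit 23951) (S (nat_lit 41000) (S (nat_lit 50777) (L (nat_lit 12707186))
(L (nat_lit 20316504)))
(L (nat_lit 5166417)))
(L (nat_lit 7359375)))
(L (nat_lit 27925026)))
(L (nat_lit 25377441)))))
(S (nat_lit 24163) (S (nat_lit 9980) (S (nat_lit 39528) (S (nat_lit 47407) (L (nat_lit 4572893))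
(L (nat_lit 1481305)))
(L (nat_lit 5895373)))
(S (nat_lit 29744) (S (nat_lit 31979) (S (nat_lit 27617) (S (nat_lit 31943) (S (nat_lit 17055) (L (nat_lit 17400186))
(L (nat_lit 15550537)))
(L (nat_lit 30450163)))
(L (nat_lit 6317555)))
(L (nat_lit 6316531)))
(S (nat_lit 49508) (S (nat_lit 31979) (S (nat_lit 44902) (S (nat_lit 40045) (L (nat_lit 30021001))
(L (nat_lit 27925988)))
(L (nat_lit 27920870)))
(L (nat_lit 30415347)))
(L (nat_lit 25342631)))))
(S (nat_lit 43927) (S (nat_lit 10483) (S (nat_lit 11966) (S (nat_lit 29016) (S (nat_lit 43244) (S (nat_lit 41000) (L (nat_lit 28903851))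
(L (nat_lit 6142632)))
(L (nat_lit 4646102)))
(L (nat_lit 4875470)))
(S (nat_lit 27875) (L (nat_lit 5029513))
(L (nat_lit 5122483))))
(S (nat_lit 30247) (S (nat_lit 22259) (S (nat_lit 52925) (S (nat_lit 10696) (L (nat_lit 18572611))
(L (nat_lit 26742098)))
(L (nat_lit 19796240)))
(L (nat_lit 6140490)))
(S (nat_lit 50011) (S (nat_lit 24162) (S (nat_lit 20281) (S (nat_lit 50777) (S (nat_lit 46120) (L (nat_lit 22253976))
(L (nat_lit 5134824)))
(L (nat_lit 13453635)))
(L (nat_lit 4705032)))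
(L (nat_lit 22539616)))
(L (nat_lit 25770245)))))
(L (nat_lit 25793992)))))
(L (nat_lit 25303603)))))
(S (nat_lit 35396) (S (nat_lit 0) (S (nat_lit 9252) (S (nat_lit 4000) (S (nat_lit 8523) (L (nat_lit 10609292))
(L (nat_lit 5655865)))
(S (nat_lit 33869) (S (nat_lit 22754) (S (nat_lit 40282) (S (nat_lit 26606) (S (nat_lit 7604) (L (nat_lit 9243342))
(L (nat_lit 13519137)))
(L (nat_lit 24437123)))
(L (nat_lit 24535331)))
(L (nat_lit 3663433)))
(L (nat_lit 6114695))))
(S (nat_lit 29016) (S (nat_lit 54902) (S (nat_lit 28288) (S (nat_lit 53633) (S (nat_lit 53936) (S (nat_lit 45161) (S (nat_lit 51494) (S (nat_lit 6592) (L (nat_lit 26412534))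
(L (nat_lit 8212931)))
(L (nat_lit 15396035)))
(L (nat_lit 7393688)))
(L (nat_lit 18487384)))
(L (nat_lit 1748376)))
(L (nat_lit 4858301)))
(L (nat_lit 4541976)))
(S (nat_lit 48780) (S (nat_lit 305) (S (nat_lit 14408) (S (nat_lit 3680) (S (nat_lit 8524) (S (nat_lit 50011) (L (nat_lit 7522875))
(L (nat_lit 14560375)))
(L (nat_lit 26876078)))
(L (nat_lit 20789445)))
(L (nat_lit 26234377)))
(S (nat_lit 20069) (S (nat_lit 40045) (S (nat_lit 25670) (S (nat_lit 49073) (L (nat_lit 12366899))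
(L (nat_lit 7497107)))
(L (nat_lit 14522981)))
(L (nat_lit 700697)))
(S (nat_lit 39833) (S (nat_lit 56584) (L (nat_lit 28658797))
(L (nat_lit 1874451)))
(L (nat_lit 25512451)))))
(L (nat_lit 25836739)))))
(S (nat_lit 19764) (S (nat_lit 10695) (S (nat_lit 13433) (S (nat_lit 50777) (S (nat_lit 9980) (L (nat_lit 1612691))
(L (nat_lit 26881504)))
(L (nat_lit 20788266)))
(S (nat_lit 33197) (S (nat_lit 56336) (S (nat_lit 24162) (S (nat_lit 53174) (L (nat_lit 3558745))
(L (nat_lit 937387)))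
(L (nat_lit 17032338)))
(L (nat_lit 5825778)))
(S (nat_lit 52961) (S (nat_lit 34667) (S (nat_lit 31262) (S (nat_lit 10696) (L (nat_lit 24670531))
(L (nat_lit 12018738)))
(L (nat_lit 19358762)))
(L (nat_lit 15361283)))
(L (nat_lit 25821675)))))
(S (nat_lit 30459) (S (nat_lit 305) (S (nat_lit 56336) (S (nat_lit 50777) (S (nat_lit 1) (S (nat_lit 26863) (S (nat_lit 24162) (L (nat_lit 1650445))
(L (nat_lit 30989478)))
(L (nat_lit 31180100)))
(L (nat_lit 18915118)))
(L (nat_lit 12690195)))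
(L (nat_lit 6415762)))
(L (nat_lit 19805505)))
(S (nat_lit 50223) (S (nat_lit 305) (S (nat_lit 56336) (S (nat_lit 51707) (L (nat_lit 12689269))
(L (nat_lit 20376896)))
(S (nat_lit 58114) (L (nat_lit 24350201))
(L (nat_lit 16665924))))
(S (nat_lit 20069) (S (nat_lit 33869) (L (nat_lit 5787992))
(L (nat_lit 5945689)))
(S (nat_lit 39833) (S (nat_lit 13646) (L (nat_lit 16599147))
(L (nat_lit 13454506)))
(L (nat_lit 25725270)))))
(L (nat_lit 25529936)))))
(S (nat_lit 39528) (S (nat_lit 17055) (S (nat_lit 31979) (S (nat_lit 56815) (S (nat_lit 55830) (S (nat_lit 49073) (S (nat_lit 9980) (S (nat_lit 31943) (S (nat_lit 24162) (S (nat_lit 11708) (L (nat_lit 9950016))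
(L (nat_lit 11354291)))
(L (nat_lit 17012531)))
(L (nat_lit 16979795)))
(L (nat_lit 11012019)))
(L (nat_lit 8145285)))
(L (nat_lit 7817243)))
(L (nat_lit 19703265)))
(S (nat_lit 45547) (L (nat_lit 13829721))
(L (nat_lit 16849625))))
(S (nat_lit 36819) (S (nat_lit 34667) (S (nat_lit 24297) (L (nat_lit 5675895))
(S (nat_lit 36067) (S (nat_lit 51026) (S (nat_lit 6386) (S (nat_lit 3470) (S (nat_lit 13646) (L (nat_lit 11323875))
(L (nat_lit 13436586)))
(L (nat_lit 20016679)))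
(L (nat_lit 19361088)))
(L (nat_lit 11624883)))
(L (nat_lit 5596881))))
(L (nat_lit 20121113)))
(S (nat_lit 56583) (S (nat_lit 43208) (S (nat_lit 32660) (S (nat_lit 56815) (S (nat_lit 49790) (S (nat_lit 13433) (L (nat_lit 12701480))
(L (nat_lit 24230763)))
(L (nat_lit 13856389)))
(L (nat_lit 19033578)))
(L (nat_lit 16894822)))
(S (nat_lit 54008) (S (nat_lit 19290) (L (nat_lit 17498986))
(L (nat_lit 16927993)))
(L (nat_lit 24702149))))
(L (nat_lit 25186827)))))
(L (nat_lit 25565203)))))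
(S (nat_lit 55160) (S (nat_lit 12461) (S (nat_lit 3929) (S (nat_lit 24162) (S (nat_lit 7099) (S (nat_lit 30460) (S (nat_lit 22754) (S (nat_lit 52712) (S (nat_lit 4399) (S (nat_lit 39833) (L (nat_lit 21474082))
(L (nat_lit 1592664)))
(L (nat_lit 19984717)))
(L (nat_lit 5002577)))
(L (nat_lit 12772695)))
(L (nat_lit 5126487)))
(L (nat_lit 23938369)))
(L (nat_lit 21491009)))
(S (nat_lit 23693) (S (nat_lit 42518) (S (nat_lit 50224) (S (nat_lit 31979) (S (nat_lit 14105) (L (nat_lit 2777575))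
(L (nat_lit 22179152)))
(L (nat_lit 31113538)))
(L (nat_lit 2642268)))
(L (nat_lit 14410053)))
(S (nat_lit 43457) (S (nat_lit 31979) (S (nat_lit 2990) (S (nat_lit 50777) (S (nat_lit 53633) (S (nat_lit 10696) (L (nat_lit 21370201))
(L (nat_lit 17458500)))
(L (nat_lit 19031377)))
(L (nat_lit 27656533)))
(L (nat_lit 933207)))
(L (nat_lit 24196441)))
(L (nat_lit 25833638)))))
(S (nat_lit 32225) (S (nat_lit 5374) (L (nat_lit 941388))
(S (nat_lit 25138) (S (nat_lit 26863) (L (nat_lit 23520577))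
(L (nat_lit 19842369)))
(S (nat_lit 44902) (S (nat_lit 39833) (S (nat_lit 58746) (S (nat_lit 50777) (L (nat_lit 17751362))
(L (nat_lit 3950924)))
(L (nat_lit 27963716)))
(L (nat_lit 3950929)))
(L (nat_lit 25692437)))))
(S (nat_lit 51989) (S (nat_lit 54431) (S (nat_lit 13106) (L (nat_lit 20360960))
(S (nat_lit 36067) (S (nat_lit 49073) (S (nat_lit 43715) (S (nat_lit 17055) (S (nat_lit 51743) (L (nat_lit 24208656))
(L (nat_lit 27740327)))
(S (nat_lit 56448) (L (nat_lit 30803314))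
(L (nat_lit 2962807))))
(L (nat_lit 14436520)))
(L (nat_lit 20712999)))
(L (nat_lit 6768829))))
(L (nat_lit 18999569)))
(L (nat_lit 25365941)))))
(L (nat_lit 25217514)))))
(L (nat_lit 25384419)))))
(S (nat_lit 58747) (S (nat_lit 305) (S (nat_lit 9253) (S (nat_lit 18253) (S (nat_lit 11966) (S (nat_lit 5633) (S (nat_lit 16302) (S (nat_lit 28287) (L (nat_lit 7029885))
(L (nat_lit 16583030)))
(L (nat_lit 26691594)))
(S (nat_lit 25397) (S (nat_lit 56336) (S (nat_lit 48051) (S (nat_lit 6592) (S (nat_lit 22259) (L (nat_lit 12930914))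
(L (nat_lit 9167299)))
(L (nat_lit 6807671)))
(L (nat_lit 20308141)))
(L (nat_lit 14280004)))
(S (nat_lit 45161) (S (nat_lit 26862) (S (nat_lit 51743) (S (nat_lit 31013) (L (nat_lit 8077155))
(L (nat_lit 19292483)))
(L (nat_lit 2811367)))
(L (nat_lit 19344163)))
(L (nat_lit 25822444)))))
(S (nat_lit 31730) (S (nat_lit 17055) (S (nat_lit 33869) (S (nat_lit 31013) (S (nat_lit 40045) (L (nat_lit 22584377))
(L (nat_lit 16928649)))
(L (nat_lit 16900435)))
(L (nat_lit 7157842)))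
(S (nat_lit 36819) (S (nat_lit 3671) (S (nat_lit 53174) (S (nat_lit 37514) (L (nat_lit 13814602))
(L (nat_lit 16927961)))
(L (nat_lit 17059000)))
(L (nat_lit 1843951)))
(S (nat_lit 56583) (S (nat_lit 31472) (S (nat_lit 27368) (L (nat_lit 8000059))
(L (nat_lit 19423521)))
(L (nat_lit 7091379)))
(L (nat_lit 25398958)))))
(S (nat_lit 51494) (S (nat_lit 18770) (S (nat_lit 49790) (S (nat_lit 7853) (S (nat_lit 5151) (S (nat_lit 18474) (L (nat_lit 11178862))
(L (nat_lit 18538722)))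
(L (nat_lit 9287763)))
(L (nat_lit 3723111)))
(L (nat_lit 9241109)))
(S (nat_lit 38534) (S (nat_lit 1) (S (nat_lit 13388) (S (nat_lit 29309) (S (nat_lit 29016) (L (nat_lit 10966201))
(L (nat_lit 1529734)))
(L (nat_lit 19770916)))
(L (nat_lit 8122817)))
(S (nat_lit 9693) (L (nat_lit 22320664))
(L (nat_lit 7987246))))
(S (nat_lit 58298) (S (nat_lit 9252) (S (nat_lit 56336) (L (nat_lit 4439768))
(L (nat_lit 6410029)))
(L (nat_lit 14929699)))
(L (nat_lit 25824622)))))
(L (nat_lit 25287175)))))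
(S (nat_lit 38017) (S (nat_lit 11708) (S (nat_lit 43309) (L (nat_lit 18947513))
(S (nat_lit 51494) (S (nat_lit 4398) (S (nat_lit 38239) (S (nat_lit 31013) (S (nat_lit 56336) (L (nat_lit 28874803))
(L (nat_lit 19293508)))
(L (nat_lit 14534699)))
(L (nat_lit 13896499)))
(L (nat_lit 7903123)))
(L (nat_lit 15534663))))
(S (nat_lit 31472) (S (nat_lit 517) (S (nat_lit 21236) (S (nat_lit 32660) (S (nat_lit 43199) (L (nat_lit 2473721))
(L (nat_lit 23454181)))
(L (nat_lit 19456258)))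
(S (nat_lit 44624) (S (nat_lit 32660) (L (nat_lit 3626264))
(L (nat_lit 14377030)))
(L (nat_lit 2956790))))
(S (nat_lit 1327) (S (nat_lit 54431) (L (nat_lit 26331341))
(L (nat_lit 19423425)))
(L (nat_lit 6775428))))
(S (nat_lit 51236) (S (nat_lit 0) (S (nat_lit 29744) (S (nat_lit 51743) (L (nat_lit 2372467))
(L (nat_lit 13439315)))
(L (nat_lit 11650931)))
(S (nat_lit 19764) (S (nat_lit 55160) (S (nat_lit 40045) (L (nat_lit 17648961))
(L (nat_lit 27774212)))
(L (nat_lit 14011137)))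
(S (nat_lit 39528) (S (nat_lit 37514) (S (nat_lit 36820) (S (nat_lit 20517) (L (nat_lit 4481555))
(L (nat_lit 7166125)))
(L (nat_lit 18784339)))
(L (nat_lit 16927993)))
(L (nat_lit 25414700)))))
(L (nat_lit 25375893)))))
(S (nat_lit 57781) (S (nat_lit 10695) (S (nat_lit 7923) (L (nat_lit 18946457))
(S (nat_lit 31979) (S (nat_lit 22754) (S (nat_lit 26863) (L (nat_lit 17598802))
(L (nat_lit 19366760)))
(L (nat_lit 21161415)))
(L (nat_lit 18951673))))
(S (nat_lit 30459) (S (nat_lit 3716) (S (nat_lit 1) (S (nat_lit 56336) (S (nat_lit 49508) (S (nat_lit 52925) (L (nat_lit 28579437))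
(L (nat_lit 17599179)))
(L (nat_lit 7530095)))
(L (nat_lit 7015213)))
(S (nat_lit 13285) (L (nat_lit 22360120))
(L (nat_lit 19325992))))
(S (nat_lit 23480) (S (nat_lit 36820) (S (nat_lit 49508) (S (nat_lit 35138) (S (nat_lit 44679) (S (nat_lit 1472) (S (nat_lit 31979) (L (nat_lit 10270899))
(L (nat_lit 30415347)))
(L (nat_lit 19184484)))
(L (nat_lit 13295690)))
(L (nat_lit 3656953)))
(L (nat_lit 7893666)))
(L (nat_lit 8087045)))
(S (nat_lit 43244) (S (nat_lit 10413) (L (nat_lit 6481617))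
(S (nat_lit 17056) (S (nat_lit 29309) (S (nat_lit 13388) (S (nat_lit 6842) (L (nat_lit 24424605))
(L (nat_lit 7157907)))
(L (nat_lit 26298858)))
(L (nat_lit 7129197)))
(L (nat_lit 5054998))))
(L (nat_lit 25921960)))))
(S (nat_lit 50223) (S (nat_lit 14105) (S (nat_lit 17055) (L (nat_lit 18954520))
(L (nat_lit 5055216)))
(S (nat_lit 33869) (S (nat_lit 22754) (L (nat_lit 20447481))
(L (nat_lit 18552153)))
(S (nat_lit 53633) (S (nat_lit 49508) (L (nat_lit 2766073))
(L (nat_lit 8294899)))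
(L (nat_lit 25443410)))))
(L (nat_lit 25901099)))))
(L (nat_lit 25249107)))))
(S (nat_lit 29017) (S (nat_lit 3680) (S (nat_lit 7853) (L (nat_lit 13520130))
(S (nat_lit 27617) (S (nat_lit 1766) (S (nat_lit 29744) (S (nat_lit 0) (S (nat_lit 54173) (S (nat_lit 31979) (S (nat_lit 55160) (S (nat_lit 4187) (L (nat_lit 4707143))
(L (nat_lit 26660006)))
(L (nat_lit 1919309)))
(L (nat_lit 11624947)))
(L (nat_lit 7163269)))
(L (nat_lit 20145569)))
(L (nat_lit 5058035)))
(S (nat_lit 21530) (S (nat_lit 39641) (S (nat_lit 5374) (L (nat_lit 10502071))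
(L (nat_lit 9260512)))
(S (nat_lit 52925) (S (nat_lit 31472) (S (nat_lit 57278) (L (nat_lit 22406316))
(L (nat_lit 12117667)))
(L (nat_lit 24240583)))
(L (nat_lit 19183491))))
(S (nat_lit 41294) (S (nat_lit 22875) (L (nat_lit 19088442))
(S (nat_lit 54173) (S (nat_lit 5374) (S (nat_lit 0) (S (nat_lit 29016) (S (nat_lit 52961) (S (nat_lit 18252) (L (nat_lit 20448038))
(L (nat_lit 9125664)))
(L (nat_lit 1916619)))
(L (nat_lit 9916293)))
(L (nat_lit 1265421)))
(L (nat_lit 4411184)))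
(L (nat_lit 4771688))))
(L (nat_lit 25384321)))))
(S (nat_lit 47381) (S (nat_lit 28287) (S (nat_lit 19764) (S (nat_lit 52961) (S (nat_lit 56336) (L (nat_lit 12799000))
(L (nat_lit 27610221)))
(L (nat_lit 27610288)))
(L (nat_lit 9490317)))
(L (nat_lit 1462153)))
(L (nat_lit 25175539)))))
(S (nat_lit 23444) (S (nat_lit 3671) (S (nat_lit 9395) (L (nat_lit 19393891))
(S (nat_lit 26863) (S (nat_lit 19764) (S (nat_lit 27617) (S (nat_lit 53174) (S (nat_lit 28287) (S (nat_lit 33197) (S (nat_lit 54173) (L (nat_lit 14896314))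
(L (nat_lit 8965144)))
(L (nat_lit 9292816)))
(L (nat_lit 24232843)))
(L (nat_lit 16927992)))
(L (nat_lit 4738267)))
(L (nat_lit 9260045)))
(L (nat_lit 5164367))))
(S (nat_lit 23435) (S (nat_lit 0) (S (nat_lit 56336) (L (nat_lit 20791492))
(L (nat_lit 14470468)))
(S (nat_lit 19764) (S (nat_lit 26863) (S (nat_lit 40045) (S (nat_lit 54173) (L (nat_lit 10665657))
(L (nat_lit 8965144)))
(L (nat_lit 2813417)))
(L (nat_lit 5164367)))
(S (nat_lit 39528) (S (nat_lit 28287) (L (nat_lit 9325612))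
(L (nat_lit 16665891)))
(L (nat_lit 25769153)))))
(S (nat_lit 43199) (S (nat_lit 7853) (S (nat_lit 46627) (L (nat_lit 3690408))
(L (nat_lit 18108228)))
(S (nat_lit 27617) (S (nat_lit 26863) (S (nat_lit 19764) (L (nat_lit 5032455))
(L (nat_lit 2542812)))
(L (nat_lit 5164366)))
(S (nat_lit 47381) (S (nat_lit 19764) (L (nat_lit 18936013))
(L (nat_lit 10374189)))
(L (nat_lit 25788784)))))
(L (nat_lit 25769156)))))
(S (nat_lit 43208) (S (nat_lit 19218) (S (nat_lit 43927) (S (nat_lit 4398) (S (nat_lit 28287) (S (nat_lit 36067) (S (nat_lit 53174) (S (nat_lit 54173) (L (nat_lit 6437629))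
(L (nat_lit 4777266)))
(L (nat_lit 19358890)))
(L (nat_lit 13501654)))
(L (nat_lit 4642699)))
(L (nat_lit 7901913)))
(L (nat_lit 11070147)))
(S (nat_lit 38982) (S (nat_lit 13433) (S (nat_lit 56336) (S (nat_lit 24163) (S (nat_lit 42023) (S (nat_lit 28287) (S (nat_lit 25138) (L (nat_lit 31068650))
(L (nat_lit 6964376)))
(L (nat_lit 30526859)))
(L (nat_lit 16114775)))
(L (nat_lit 30976707)))
(L (nat_lit 14568552)))
(L (nat_lit 26781379)))
(S (nat_lit 58746) (S (nat_lit 56336) (S (nat_lit 13433) (S (nat_lit 28287) (S (nat_lit 51743) (S (nat_lit 53174) (S (nat_lit 52712) (S (nat_lit 39677) (S (nat_lit 25138) (L (nat_lit 2827835))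
(L (nat_lit 6720404)))
(L (nat_lit 28686518)))
(L (nat_lit 19740004)))
(L (nat_lit 19374264)))
(L (nat_lit 13277370)))
(L (nat_lit 1983179)))
(L (nat_lit 12624604)))
(L (nat_lit 27822790)))
(L (nat_lit 25860610)))))
(L (nat_lit 25837765)))))
(S (nat_lit 48781) (S (nat_lit 9980) (S (nat_lit 3716) (S (nat_lit 14408) (S (nat_lit 30459) (S (nat_lit 3470) (L (nat_lit 3813725))
(L (nat_lit 20156988)))
(L (nat_lit 19052796)))
(S (nat_lit 34172) (S (nat_lit 30459) (S (nat_lit 29309) (L (nat_lit 28971344))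
(L (nat_lit 13211737)))
(L (nat_lit 19401980)))
(S (nat_lit 53936) (S (nat_lit 30247) (S (nat_lit 26863) (S (nat_lit 38534) (L (nat_lit 16408583))
(L (nat_lit 6777538)))
(L (nat_lit 19031560)))
(L (nat_lit 19053418)))
(L (nat_lit 25701460)))))
(S (nat_lit 23480) (S (nat_lit 23444) (S (nat_lit 40045) (S (nat_lit 50011) (S (nat_lit 6591) (S (nat_lit 19764) (S (nat_lit 44902) (S (nat_lit 35138) (L (nat_lit 10275300))
(L (nat_lit 13487332)))
(L (nat_lit 27445734)))
(L (nat_lit 9260044)))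
(L (nat_lit 897767)))
(L (nat_lit 20253113)))
(L (nat_lit 10996516)))
(S (nat_lit 28967) (L (nat_lit 20263714))
(L (nat_lit 7916697))))
(S (nat_lit 43244) (S (nat_lit 10262) (S (nat_lit 6591) (S (nat_lit 24915) (S (nat_lit 1472) (S (nat_lit 8523) (S (nat_lit 55160) (L (nat_lit 1395193))
(L (nat_lit 21094733)))
(L (nat_lit 26941549)))
(L (nat_lit 26662116)))
(L (nat_lit 13853810)))
(L (nat_lit 8118381)))
(S (nat_lit 30026) (S (nat_lit 48052) (S (nat_lit 55831) (L (nat_lit 19137977))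
(L (nat_lit 19215545)))
(L (nat_lit 8815321)))
(S (nat_lit 49790) (S (nat_lit 55831) (S (nat_lit 10483) (S (nat_lit 5906) (L (nat_lit 20421754))
(L (nat_lit 26423908)))
(L (nat_lit 5056113)))
(L (nat_lit 19340476)))
(L (nat_lit 25667205)))))
(L (nat_lit 25309398)))))
(S (nat_lit 29744) (S (nat_lit 14645) (S (nat_lit 10695) (S (nat_lit 0) (S (nat_lit 37817) (S (nat_lit 48052) (L (nat_lit 26594316))
(L (nat_lit 20341028)))
(L (nat_lit 9058144)))
(L (nat_lit 1881331)))
(L (nat_lit 15346840)))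
(S (nat_lit 34409) (S (nat_lit 0) (S (nat_lit 31013) (S (nat_lit 29309) (S (nat_lit 37817) (S (nat_lit 4398) (S (nat_lit 37514) (S (nat_lit 8523) (S (nat_lit 6591) (S (nat_lit 1) (S (nat_lit 18474) (S (nat_lit 47381) (S (nat_lit 56336) (S (nat_lit 14408) (L (nat_lit 2340540))
(L (nat_lit 8408976)))
(L (nat_lit 8802180)))
(L (nat_lit 22028176)))
(L (nat_lit 24946737)))
(L (nat_lit 13377122)))
(L (nat_lit 21247840)))
(L (nat_lit 14457541)))
(L (nat_lit 30658017)))
(L (nat_lit 19936167)))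
(L (nat_lit 14291323)))
(L (nat_lit 4049289)))
(L (nat_lit 8501107)))
(S (nat_lit 7130) (L (nat_lit 1729030))
(L (nat_lit 1881331))))
(S (nat_lit 54173) (S (nat_lit 37817) (S (nat_lit 17055) (L (nat_lit 8866970))
(L (nat_lit 24294777)))
(L (nat_lit 4858734)))
(L (nat_lit 25730066)))))
(S (nat_lit 49508) (S (nat_lit 31013) (S (nat_lit 6591) (S (nat_lit 15776) (L (nat_lit 13740632))
(S (nat_lit 55160) (S (nat_lit 4398) (S (nat_lit 29309) (S (nat_lit 23234) (S (nat_lit 39528) (S (nat_lit 56336) (S (nat_lit 13184) (L (nat_lit 29923479))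
(L (nat_lit 353842)))
(L (nat_lit 19231268)))
(L (nat_lit 25008513)))
(L (nat_lit 30487207)))
(L (nat_lit 31109191)))
(S (nat_lit 17682) (S (nat_lit 20281) (L (nat_lit 8269941))
(L (nat_lit 1329624)))
(L (nat_lit 19394881))))
(L (nat_lit 3826155))))
(S (nat_lit 39310) (S (nat_lit 11498) (L (nat_lit 20384647))
(L (nat_lit 3519315)))
(L (nat_lit 21835847))))
(L (nat_lit 13992819)))
(L (nat_lit 25696928)))))
(L (nat_lit 25700996)))))
(S (nat_lit 20069) (S (nat_lit 6592) (S (nat_lit 14645) (S (nat_lit 3470) (S (nat_lit 30656) (L (nat_lit 26413591))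
(S (nat_lit 55831) (S (nat_lit 17920) (L (nat_lit 13274492))
(S (nat_lit 29309) (S (nat_lit 753) (S (nat_lit 26355) (S (nat_lit 32225) (L (nat_lit 958003))
(L (nat_lit 24273318)))
(L (nat_lit 24195356)))
(L (nat_lit 12849881)))
(L (nat_lit 19705929))))
(L (nat_lit 1591513))))
(S (nat_lit 23234) (S (nat_lit 12896) (S (nat_lit 29309) (S (nat_lit 50224) (S (nat_lit 13397) (L (nat_lit 21901482))
(L (nat_lit 13475427)))
(L (nat_lit 6837028)))
(S (nat_lit 48938) (L (nat_lit 12593970))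
(L (nat_lit 19771495))))
(S (nat_lit 32660) (S (nat_lit 58746) (S (nat_lit 23951) (S (nat_lit 31979) (L (nat_lit 4772187))
(L (nat_lit 25008610)))
(L (nat_lit 12667720)))
(L (nat_lit 6784821)))
(S (nat_lit 52424) (S (nat_lit 10483) (S (nat_lit 6591) (S (nat_lit 34172) (L (nat_lit 10013504))
(L (nat_lit 7196162)))
(L (nat_lit 1946934)))
(L (nat_lit 21553408)))
(L (nat_lit 25822600)))))
(S (nat_lit 42998) (S (nat_lit 2495) (S (nat_lit 34172) (S (nat_lit 58746) (L (nat_lit 11645751))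
(L (nat_lit 6784919)))
(L (nat_lit 5085748)))
(S (nat_lit 22259) (S (nat_lit 39529) (S (nat_lit 29309) (L (nat_lit 31174914))
(L (nat_lit 25014375)))
(L (nat_lit 25014467)))
(S (nat_lit 42023) (S (nat_lit 43244) (S (nat_lit 9980) (S (nat_lit 24163) (L (nat_lit 963304))
(L (nat_lit 9253012)))
(L (nat_lit 23900386)))
(L (nat_lit 9253014)))
(L (nat_lit 25284847)))))
(L (nat_lit 25662087)))))
(S (nat_lit 34409) (S (nat_lit 1766) (S (nat_lit 12896) (S (nat_lit 29309) (S (nat_lit 24916) (S (nat_lit 754) (L (nat_lit 8244332))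
(L (nat_lit 13376661)))
(L (nat_lit 31071312)))
(L (nat_lit 3858825)))
(S (nat_lit 32660) (S (nat_lit 44680) (L (nat_lit 30514582))
(L (nat_lit 13245529)))
(S (nat_lit 52424) (S (nat_lit 10483) (S (nat_lit 55830) (S (nat_lit 44679) (L (nat_lit 549239))
(L (nat_lit 13297736)))
(L (nat_lit 14523415)))
(L (nat_lit 2998482)))
(L (nat_lit 25343253)))))
(S (nat_lit 21530) (S (nat_lit 13467) (S (nat_lit 35987) (L (nat_lit 1710929))
(L (nat_lit 14960827)))
(S (nat_lit 33152) (S (nat_lit 38534) (S (nat_lit 5374) (S (nat_lit 54431) (S (nat_lit 8523) (S (nat_lit 6591) (S (nat_lit 29309) (S (nat_lit 32948) (L (nat_lit 29471465))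
(L (nat_lit 20447579)))
(L (nat_lit 13274889)))
(L (nat_lit 6894432)))
(L (nat_lit 12192184)))
(L (nat_lit 18979664)))
(L (nat_lit 16442688)))
(L (nat_lit 6950331)))
(L (nat_lit 14756569))))
(S (nat_lit 41294) (S (nat_lit 13433) (S (nat_lit 10483) (S (nat_lit 39529) (S (nat_lit 37817) (L (nat_lit 930506))
(L (nat_lit 5092722)))
(L (nat_lit 6134383)))
(L (nat_lit 2680082)))
(S (nat_lit 33197) (S (nat_lit 31262) (S (nat_lit 8523) (L (nat_lit 24615995))
(L (nat_lit 3809689)))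
(L (nat_lit 17681698)))
(S (nat_lit 52961) (S (nat_lit 43244) (S (nat_lit 13397) (S (nat_lit 23951) (L (nat_lit 21528889))
(L (nat_lit 13365414)))
(L (nat_lit 22519619)))
(L (nat_lit 5053942)))
(L (nat_lit 25516049)))))
(L (nat_lit 25377379)))))
(S (nat_lit 54173) (S (nat_lit 8523) (S (nat_lit 1766) (S (nat_lit 58746) (S (nat_lit 7098) (L (nat_lit 26352054))
(L (nat_lit 13454659)))
(L (nat_lit 6994722)))
(S (nat_lit 21530) (S (nat_lit 33869) (S (nat_lit 21965) (L (nat_lit 30673332))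
(L (nat_lit 21432633)))
(L (nat_lit 16417113)))
(S (nat_lit 41294) (S (nat_lit 43244) (S (nat_lit 20517) (S (nat_lit 10483) (L (nat_lit 3003724))
(L (nat_lit 2516242)))
(L (nat_lit 16017120)))
(L (nat_lit 9253572)))
(L (nat_lit 25730627)))))
(S (nat_lit 28287) (S (nat_lit 14105) (S (nat_lit 57581) (S (nat_lit 29017) (S (nat_lit 23951) (S (nat_lit 13397) (S (nat_lit 39529) (S (nat_lit 14903) (L (nat_lit 21143308))
(L (nat_lit 26810915)))
(L (nat_lit 27892099)))
(L (nat_lit 24601857)))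
(L (nat_lit 7851131)))
(L (nat_lit 9308690)))
(L (nat_lit 27643266)))
(S (nat_lit 33869) (S (nat_lit 51989) (S (nat_lit 13397) (L (nat_lit 14708051))
(L (nat_lit 7167457)))
(L (nat_lit 15535688)))
(S (nat_lit 53633) (S (nat_lit 10483) (S (nat_lit 29017) (S (nat_lit 43244) (S (nat_lit 24915) (L (nat_lit 14879451))
(L (nat_lit 7005600)))
(L (nat_lit 5068262)))
(L (nat_lit 24971720)))
(L (nat_lit 4973836)))
(L (nat_lit 25919881)))))
(S (nat_lit 48051) (S (nat_lit 29309) (S (nat_lit 517) (S (nat_lit 27368) (S (nat_lit 58746) (S (nat_lit 37514) (L (nat_lit 28724546))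
(L (nat_lit 9260579)))
(L (nat_lit 7177839)))
(L (nat_lit 7192161)))
(L (nat_lit 7196129)))
(S (nat_lit 39870) (L (nat_lit 7190245))
(L (nat_lit 7193715))))
(L (nat_lit 25528973)))))
(L (nat_lit 25340593)))))
(S (nat_lit 26356) (S (nat_lit 14903) (S (nat_lit 6591) (S (nat_lit 44680) (S (nat_lit 24915) (S (nat_lit 21965) (S (nat_lit 23234) (S (nat_lit 23435) (S (nat_lit 32948) (L (nat_lit 1601195))
(L (nat_lit 20820107)))
(L (nat_lit 22033689)))
(L (nat_lit 21868738)))
(L (nat_lit 21180505)))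
(L (nat_lit 21049562)))
(S (nat_lit 48946) (L (nat_lit 10323506))
(L (nat_lit 13245561))))
(S (nat_lit 26355) (S (nat_lit 30247) (S (nat_lit 30246) (S (nat_lit 58746) (S (nat_lit 38238) (S (nat_lit 41729) (L (nat_lit 4911373))
(L (nat_lit 16687223)))
(L (nat_lit 20506728)))
(L (nat_lit 19771618)))
(L (nat_lit 13365506)))
(S (nat_lit 35992) (S (nat_lit 16211) (L (nat_lit 16482652))
(L (nat_lit 19360004)))
(L (nat_lit 24678680))))
(S (nat_lit 46119) (S (nat_lit 4398) (S (nat_lit 42998) (S (nat_lit 36819) (S (nat_lit 5152) (L (nat_lit 8055299))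
(L (nat_lit 1945973)))
(L (nat_lit 12833666)))
(L (nat_lit 14392194)))
(S (nat_lit 24162) (S (nat_lit 29744) (L (nat_lit 30487143))
(L (nat_lit 12268384)))
(S (nat_lit 43926) (S (nat_lit 30247) (S (nat_lit 52712) (L (nat_lit 29040688))
(L (nat_lit 5911370)))
(L (nat_lit 30986343)))
(L (nat_lit 25733856)))))
(L (nat_lit 25919788)))))
(S (nat_lit 34667) (S (nat_lit 9253) (S (nat_lit 8523) (S (nat_lit 5152) (S (nat_lit 29309) (L (nat_lit 16085107))
(L (nat_lit 7134319)))
(L (nat_lit 19773542)))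
(S (nat_lit 28287) (S (nat_lit 52925) (S (nat_lit 55831) (S (nat_lit 18475) (S (nat_lit 14105) (L (nat_lit 30694577))
(L (nat_lit 13408931)))
(L (nat_lit 24404080)))
(L (nat_lit 8107193)))
(L (nat_lit 19183393)))
(S (nat_lit 48051) (S (nat_lit 29654) (L (nat_lit 15410980))
(S (nat_lit 35396) (S (nat_lit 31013) (S (nat_lit 58178) (L (nat_lit 8247468))
(L (nat_lit 6402930)))
(L (nat_lit 13683033)))
(L (nat_lit 5908921))))
(L (nat_lit 25600118)))))
(S (nat_lit 29017) (S (nat_lit 44003) (L (nat_lit 19766382))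
(S (nat_lit 55831) (S (nat_lit 27368) (S (nat_lit 28287) (S (nat_lit 29309) (S (nat_lit 31979) (S (nat_lit 36572) (S (nat_lit 24915) (L (nat_lit 14935155))
(L (nat_lit 22146255)))
(L (nat_lit 20039003)))
(L (nat_lit 19171148)))
(L (nat_lit 19173295)))
(L (nat_lit 16456515)))
(S (nat_lit 38801) (L (nat_lit 19046257))
(L (nat_lit 18918969))))
(L (nat_lit 19762380))))
(S (nat_lit 48781) (S (nat_lit 7099) (S (nat_lit 517) (S (nat_lit 53633) (L (nat_lit 3879256))
(L (nat_lit 19773697)))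
(L (nat_lit 19771433)))
(S (nat_lit 26863) (S (nat_lit 31013) (S (nat_lit 17055) (S (nat_lit 50224) (L (nat_lit 8502067))
(L (nat_lit 6819634)))
(L (nat_lit 15585636)))
(L (nat_lit 16894297)))
(S (nat_lit 46627) (S (nat_lit 35396) (S (nat_lit 48052) (S (nat_lit 39529) (S (nat_lit 5151) (L (nat_lit 11306734))
(L (nat_lit 16095090)))
(L (nat_lit 25008547)))
(L (nat_lit 2770794)))
(S (nat_lit 55078) (S (nat_lit 43347) (L (nat_lit 2339731))
(L (nat_lit 26292873)))
(L (nat_lit 18482553))))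
(L (nat_lit 25430703)))))
(L (nat_lit 25831596)))))
(S (nat_lit 54431) (S (nat_lit 14105) (S (nat_lit 30247) (S (nat_lit 28287) (S (nat_lit 5633) (L (nat_lit 9068717))
(L (nat_lit 3697383)))
(L (nat_lit 31070595)))
(L (nat_lit 13177112)))
(S (nat_lit 33869) (S (nat_lit 11966) (S (nat_lit 32948) (S (nat_lit 18475) (S (nat_lit 51236) (L (nat_lit 2857744))
(L (nat_lit 4639559)))
(L (nat_lit 9101360)))
(L (nat_lit 15342745)))
(S (nat_lit 31730) (S (nat_lit 31472) (S (nat_lit 37817) (L (nat_lit 4046162))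
(L (nat_lit 17371481)))
(L (nat_lit 6894777)))
(S (nat_lit 51494) (S (nat_lit 54902) (S (nat_lit 17056) (S (nat_lit 29016) (L (nat_lit 15600234))
(L (nat_lit 8578580)))
(L (nat_lit 15540307)))
(L (nat_lit 27935754)))
(L (nat_lit 25645225)))))
(S (nat_lit 53633) (S (nat_lit 754) (S (nat_lit 29309) (S (nat_lit 1766) (S (nat_lit 52925) (S (nat_lit 55830) (L (nat_lit 17570999))
(L (nat_lit 27541186)))
(L (nat_lit 27891729)))
(L (nat_lit 14570787)))
(S (nat_lit 35951) (S (nat_lit 4399) (L (nat_lit 8937655))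
(L (nat_lit 1635049)))
(L (nat_lit 19018505))))
(S (nat_lit 20518) (S (nat_lit 39641) (L (nat_lit 9353827))
(S (nat_lit 52925) (S (nat_lit 29016) (S (nat_lit 31013) (S (nat_lit 7098) (L (nat_lit 28564995))
(L (nat_lit 21475203)))
(L (nat_lit 9287265)))
(L (nat_lit 9241296)))
(L (nat_lit 19339450))))
(S (nat_lit 40282) (S (nat_lit 16670) (L (nat_lit 4516494))
(S (nat_lit 52925) (S (nat_lit 54902) (S (nat_lit 30247) (S (nat_lit 39529) (L (nat_lit 28331498))
(L (nat_lit 24360803)))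
(L (nat_lit 18419928)))
(L (nat_lit 21400426)))
(L (nat_lit 27760818))))
(L (nat_lit 25564405)))))
(L (nat_lit 25592082)))))
(L (nat_lit 25743553)))))
(S (nat_lit 46120) (S (nat_lit 13646) (S (nat_lit 17287) (S (nat_lit 40281) (S (nat_lit 31013) (S (nat_lit 34667) (S (nat_lit 41729) (S (nat_lit 35138) (L (nat_lit 28879891))
(L (nat_lit 17998585)))
(L (nat_lit 25079914)))
(L (nat_lit 5809010)))
(L (nat_lit 5661354)))
(L (nat_lit 6210282)))
(S (nat_lit 37051) (S (nat_lit 11249) (S (nat_lit 13433) (S (nat_lit 9252) (L (nat_lit 604441))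
(L (nat_lit 23312163)))
(L (nat_lit 26790922)))
(S (nat_lit 31013) (S (nat_lit 2495) (S (nat_lit 4398) (S (nat_lit 32660) (L (nat_lit 28455251))
(L (nat_lit 24229081)))
(L (nat_lit 7385849)))
(L (nat_lit 19371818)))
(S (nat_lit 50777) (S (nat_lit 55831) (S (nat_lit 12896) (L (nat_lit 12721939))
(L (nat_lit 26790144)))
(L (nat_lit 8029593)))
(L (nat_lit 25788750)))))
(S (nat_lit 56815) (S (nat_lit 1766) (S (nat_lit 50011) (S (nat_lit 44680) (L (nat_lit 10173312))
(L (nat_lit 13276537)))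
(L (nat_lit 20845031)))
(S (nat_lit 21530) (S (nat_lit 10482) (S (nat_lit 48052) (S (nat_lit 5151) (S (nat_lit 4398) (S (nat_lit 55831) (S (nat_lit 41729) (L (nat_lit 3503639))
(L (nat_lit 5723018)))
(L (nat_lit 16632000)))
(L (nat_lit 19706177)))
(L (nat_lit 1943185)))
(L (nat_lit 18713223)))
(L (nat_lit 21324258)))
(S (nat_lit 41294) (S (nat_lit 22754) (L (nat_lit 1920369))
(L (nat_lit 21116185)))
(L (nat_lit 25697430)))))
(L (nat_lit 25744577)))))
(S (nat_lit 33410) (S (nat_lit 17055) (S (nat_lit 39529) (S (nat_lit 23951) (S (nat_lit 31979) (S (nat_lit 31943) (S (nat_lit 34667) (S (nat_lit 43927) (L (nat_lit 4706650))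
(L (nat_lit 5092041)))
(L (nat_lit 16614984)))
(L (nat_lit 5165545)))
(L (nat_lit 17663687)))
(L (nat_lit 17845627)))
(L (nat_lit 18717282)))
(S (nat_lit 36819) (S (nat_lit 9598) (S (nat_lit 14755) (L (nat_lit 22940138))
(L (nat_lit 18521922)))
(S (nat_lit 39529) (S (nat_lit 23951) (S (nat_lit 23480) (S (nat_lit 18474) (S (nat_lit 33161) (S (nat_lit 36572) (S (nat_lit 7098) (L (nat_lit 14720917))
(L (nat_lit 6783892)))
(L (nat_lit 31043908)))
(L (nat_lit 9112027)))
(L (nat_lit 18538602)))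
(S (nat_lit 43162) (L (nat_lit 27925954))
(L (nat_lit 11251897))))
(L (nat_lit 4640582)))
(L (nat_lit 18717251))))
(S (nat_lit 56583) (S (nat_lit 3556) (L (nat_lit 1689387))
(S (nat_lit 23951) (S (nat_lit 39529) (S (nat_lit 18474) (S (nat_lit 29309) (S (nat_lit 26606) (S (nat_lit 36572) (L (nat_lit 12733693))
(L (nat_lit 18473189)))
(L (nat_lit 8568539)))
(L (nat_lit 19771748)))
(L (nat_lit 8971906)))
(L (nat_lit 25008515)))
(L (nat_lit 4630107))))
(L (nat_lit 25348400)))))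
(S (nat_lit 53174) (S (nat_lit 7604) (S (nat_lit 8524) (S (nat_lit 23234) (S (nat_lit 51026) (S (nat_lit 0) (L (nat_lit 2928947))
(L (nat_lit 412455)))
(L (nat_lit 13454378)))
(L (nat_lit 20978605)))
(S (nat_lit 28288) (S (nat_lit 3671) (S (nat_lit 11249) (L (nat_lit 5022227))
(L (nat_lit 16669802)))
(L (nat_lit 20223885)))
(S (nat_lit 48052) (S (nat_lit 51743) (S (nat_lit 9252) (S (nat_lit 30247) (L (nat_lit 18506854))
(L (nat_lit 244344)))
(L (nat_lit 6752985)))
(L (nat_lit 27571904)))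
(L (nat_lit 25351535)))))
(S (nat_lit 27368) (S (nat_lit 1) (S (nat_lit 31979) (S (nat_lit 31262) (L (nat_lit 11559443))
(L (nat_lit 4895003)))
(L (nat_lit 24351289)))
(S (nat_lit 48714) (L (nat_lit 19109708))
(L (nat_lit 19700131))))
(S (nat_lit 47132) (S (nat_lit 14408) (S (nat_lit 29309) (S (nat_lit 8524) (L (nat_lit 5675768))
(L (nat_lit 12753719)))
(L (nat_lit 13211737)))
(S (nat_lit 34172) (S (nat_lit 58298) (S (nat_lit 5151) (S (nat_lit 46119) (S (nat_lit 0) (S (nat_lit 5152) (L (nat_lit 668987))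
(L (nat_lit 20132707)))
(L (nat_lit 19963289)))
(L (nat_lit 20388641)))
(L (nat_lit 20456537)))
(L (nat_lit 19742050)))
(S (nat_lit 53936) (S (nat_lit 50223) (S (nat_lit 41729) (L (nat_lit 12046211))
(L (nat_lit 27304503)))
(L (nat_lit 27987280)))
(L (nat_lit 25729042)))))
(L (nat_lit 25484337)))))
(L (nat_lit 25319664)))))
(L (nat_lit 25658089)))))
(S (nat_lit 39833) (S (nat_lit 1766) (S (nat_lit 3680) (S (nat_lit 16303) (S (nat_lit 15632) (S (nat_lit 517) (S (nat_lit 34667) (S (nat_lit 43715) (L (nat_lit 13895325))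
(L (nat_lit 9259183)))
(L (nat_lit 903688)))
(L (nat_lit 6971873)))
(L (nat_lit 26331503)))
(S (nat_lit 36067) (S (nat_lit 19959) (L (nat_lit 18887003))
(S (nat_lit 51989) (S (nat_lit 47132) (S (nat_lit 36066) (S (nat_lit 20517) (L (nat_lit 28873943))
(L (nat_lit 21259808)))
(L (nat_lit 7145166)))
(L (nat_lit 20790561)))
(L (nat_lit 6769444))))
(S (nat_lit 55831) (S (nat_lit 0) (S (nat_lit 25670) (S (nat_lit 31013) (S (nat_lit 27368) (L (nat_lit 28364141))
(L (nat_lit 7191667)))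
(L (nat_lit 14524531)))
(L (nat_lit 14358585)))
(S (nat_lit 19764) (S (nat_lit 753) (S (nat_lit 12896) (S (nat_lit 9980) (S (nat_lit 3470) (L (nat_lit 12333238))
(L (nat_lit 20236096)))
(L (nat_lit 8852371)))
(L (nat_lit 16028563)))
(L (nat_lit 19700909)))
(S (nat_lit 39528) (S (nat_lit 29309) (S (nat_lit 51743) (L (nat_lit 575865))
(L (nat_lit 27674944)))
(L (nat_lit 18139257)))
(L (nat_lit 25396658)))))
(L (nat_lit 25507525)))))
(S (nat_lit 23444) (S (nat_lit 10482) (S (nat_lit 18475) (S (nat_lit 43457) (L (nat_lit 566070))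
(L (nat_lit 15983798)))
(S (nat_lit 38239) (S (nat_lit 16808) (S (nat_lit 54431) (S (nat_lit 6842) (L (nat_lit 283065))
(L (nat_lit 2387347)))
(L (nat_lit 19433288)))
(L (nat_lit 12439076)))
(S (nat_lit 58003) (L (nat_lit 5811990))
(L (nat_lit 25449520)))))
(S (nat_lit 30246) (S (nat_lit 3470) (S (nat_lit 22794) (L (nat_lit 15953078))
(S (nat_lit 31013) (S (nat_lit 4398) (S (nat_lit 26355) (S (nat_lit 29017) (S (nat_lit 754) (S (nat_lit 20517) (S (nat_lit 10262) (S (nat_lit 22259) (S (nat_lit 33197) (L (nat_lit 2343545))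
(L (nat_lit 19970331)))
(L (nat_lit 13344857)))
(L (nat_lit 24033318)))
(L (nat_lit 3497837)))
(L (nat_lit 19984687)))
(L (nat_lit 18058071)))
(L (nat_lit 25080064)))
(L (nat_lit 26711751)))
(L (nat_lit 5645107))))
(S (nat_lit 23234) (S (nat_lit 29309) (S (nat_lit 44902) (S (nat_lit 51707) (S (nat_lit 6591) (L (nat_lit 1268217))
(L (nat_lit 6774870)))
(L (nat_lit 12636504)))
(L (nat_lit 13281369)))
(L (nat_lit 18713811)))
(S (nat_lit 42998) (S (nat_lit 19218) (S (nat_lit 18475) (S (nat_lit 37051) (L (nat_lit 2413421))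
(L (nat_lit 23635745)))
(L (nat_lit 26779702)))
(L (nat_lit 18139321)))
(L (nat_lit 25887949)))))
(S (nat_lit 50010) (S (nat_lit 7098) (S (nat_lit 47681) (L (nat_lit 4443641))
(S (nat_lit 54902) (L (nat_lit 19137050))
(L (nat_lit 4541976))))
(S (nat_lit 26862) (S (nat_lit 44902) (S (nat_lit 16808) (S (nat_lit 19765) (L (nat_lit 29381034))
(L (nat_lit 21017848)))
(L (nat_lit 1953103)))
(L (nat_lit 27955469)))
(S (nat_lit 46626) (S (nat_lit 37051) (S (nat_lit 7604) (L (nat_lit 30117197))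
(L (nat_lit 12693181)))
(L (nat_lit 7923798)))
(L (nat_lit 25446051)))))
(L (nat_lit 25743401)))))
(S (nat_lit 43208) (S (nat_lit 17750) (S (nat_lit 517) (S (nat_lit 13433) (S (nat_lit 5374) (L (nat_lit 3428140))
(L (nat_lit 9293285)))
(L (nat_lit 26594785)))
(S (nat_lit 20281) (S (nat_lit 25138) (S (nat_lit 7099) (S (nat_lit 43715) (S (nat_lit 16808) (S (nat_lit 46626) (L (nat_lit 16685106))
(L (nat_lit 11585300)))
(L (nat_lit 12405871)))
(L (nat_lit 7162989)))
(L (nat_lit 7163428)))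
(L (nat_lit 11554296)))
(S (nat_lit 40045) (L (nat_lit 2444795))
(L (nat_lit 25217481)))))
(S (nat_lit 37514) (S (nat_lit 16303) (S (nat_lit 43715) (S (nat_lit 13433) (S (nat_lit 29309) (L (nat_lit 29936649))
(L (nat_lit 6808292)))
(L (nat_lit 5131722)))
(L (nat_lit 9193647)))
(S (nat_lit 36067) (S (nat_lit 29309) (S (nat_lit 26356) (L (nat_lit 2349836))
(L (nat_lit 18980344)))
(L (nat_lit 3459855)))
(S (nat_lit 55831) (S (nat_lit 32225) (S (nat_lit 20281) (L (nat_lit 2858828))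
(L (nat_lit 30723556)))
(L (nat_lit 14534760)))
(L (nat_lit 25643365)))))
(S (nat_lit 57278) (S (nat_lit 5633) (S (nat_lit 53633) (S (nat_lit 55831) (S (nat_lit 7604) (L (nat_lit 29004262))
(L (nat_lit 12643571)))
(L (nat_lit 4038348)))
(L (nat_lit 3848536)))
(S (nat_lit 25397) (S (nat_lit 26355) (S (nat_lit 29744) (L (nat_lit 28462567))
(L (nat_lit 1984813)))
(L (nat_lit 19673159)))
(S (nat_lit 45161) (S (nat_lit 54173) (S (nat_lit 31262) (S (nat_lit 43457) (L (nat_lit 29543944))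
(L (nat_lit 27963398)))
(L (nat_lit 19693870)))
(L (nat_lit 19405848)))
(L (nat_lit 25215687)))))
(L (nat_lit 25745635)))))
(L (nat_lit 25868424)))))
(S (nat_lit 21530) (S (nat_lit 3716) (S (nat_lit 5152) (S (nat_lit 13433) (S (nat_lit 16808) (S (nat_lit 3929) (S (nat_lit 23234) (L (nat_lit 18998662))
(L (nat_lit 18731143)))
(L (nat_lit 15374182)))
(S (nat_lit 46306) (L (nat_lit 552647))
(L (nat_lit 26320591))))
(S (nat_lit 33197) (S (nat_lit 5151) (L (nat_lit 8204467))
(L (nat_lit 20289361)))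
(S (nat_lit 52961) (S (nat_lit 3680) (S (nat_lit 19765) (S (nat_lit 16808) (L (nat_lit 2661271))
(L (nat_lit 1633896)))
(L (nat_lit 21829679)))
(L (nat_lit 1919245)))
(L (nat_lit 25540786)))))
(S (nat_lit 24916) (S (nat_lit 17750) (S (nat_lit 45161) (S (nat_lit 16808) (S (nat_lit 38017) (L (nat_lit 30021709))
(L (nat_lit 16851704)))
(L (nat_lit 12406149)))
(L (nat_lit 24503372)))
(S (nat_lit 37514) (S (nat_lit 10695) (S (nat_lit 16302) (S (nat_lit 19218) (L (nat_lit 4575802))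
(L (nat_lit 4897611)))
(L (nat_lit 10572345)))
(L (nat_lit 23444291)))
(S (nat_lit 57278) (S (nat_lit 55160) (S (nat_lit 53633) (L (nat_lit 26741110))
(L (nat_lit 18955608)))
(L (nat_lit 12405217)))
(L (nat_lit 25928161)))))
(S (nat_lit 44680) (S (nat_lit 5633) (S (nat_lit 4398) (S (nat_lit 25552) (L (nat_lit 20982672))
(L (nat_lit 19330402)))
(L (nat_lit 19086209)))
(S (nat_lit 25397) (S (nat_lit 4398) (S (nat_lit 32948) (S (nat_lit 13397) (L (nat_lit 20984188))
(L (nat_lit 26222193)))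
(L (nat_lit 20099417)))
(L (nat_lit 19378049)))
(S (nat_lit 45161) (S (nat_lit 51494) (S (nat_lit 29309) (L (nat_lit 29860580))
(L (nat_lit 19030569)))
(L (nat_lit 15379329)))
(L (nat_lit 25822665)))))
(L (nat_lit 25697923)))))
(S (nat_lit 23480) (S (nat_lit 12461) (S (nat_lit 6842) (S (nat_lit 29309) (S (nat_lit 9252) (S (nat_lit 15632) (L (nat_lit 2733401))
(L (nat_lit 16894300)))
(L (nat_lit 7867097)))
(L (nat_lit 6806617)))
(S (nat_lit 26606) (S (nat_lit 34667) (S (nat_lit 46627) (L (nat_lit 18924358))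
(L (nat_lit 10996825)))
(L (nat_lit 5523993)))
(S (nat_lit 46370) (S (nat_lit 16302) (S (nat_lit 54173) (L (nat_lit 3743632))
(L (nat_lit 27920808)))
(S (nat_lit 45047) (L (nat_lit 14246243))
(L (nat_lit 4470647))))
(L (nat_lit 25476739)))))
(S (nat_lit 32225) (S (nat_lit 12179) (S (nat_lit 7098) (S (nat_lit 16808) (L (nat_lit 7049037))
(L (nat_lit 1946310)))
(L (nat_lit 23964165)))
(S (nat_lit 31943) (S (nat_lit 31979) (S (nat_lit 29309) (S (nat_lit 10482) (S (nat_lit 34172) (S (nat_lit 35138) (L (nat_lit 2597595))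
(L (nat_lit 8883963)))
(L (nat_lit 12214289)))
(L (nat_lit 17391874)))
(L (nat_lit 7114291)))
(L (nat_lit 30490963)))
(S (nat_lit 51707) (S (nat_lit 22259) (S (nat_lit 34409) (S (nat_lit 30460) (L (nat_lit 19238796))
(L (nat_lit 8064568)))
(L (nat_lit 3816761)))
(L (nat_lit 12702538)))
(L (nat_lit 25385440)))))
(S (nat_lit 51989) (S (nat_lit 12215) (S (nat_lit 25305) (L (nat_lit 5452563))
(S (nat_lit 47132) (S (nat_lit 7099) (S (nat_lit 28288) (L (nat_lit 1939957))
(L (nat_lit 15403914)))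
(L (nat_lit 21826057)))
(L (nat_lit 27805987))))
(S (nat_lit 31979) (S (nat_lit 29309) (S (nat_lit 18474) (L (nat_lit 14322504))
(L (nat_lit 18090649)))
(L (nat_lit 6807667)))
(S (nat_lit 51743) (S (nat_lit 58002) (S (nat_lit 16808) (L (nat_lit 3944690))
(L (nat_lit 24682341)))
(L (nat_lit 19154756)))
(L (nat_lit 25243340)))))
(L (nat_lit 25857260)))))
(S (nat_lit 43244) (S (nat_lit 10695) (S (nat_lit 18253) (S (nat_lit 43715) (L (nat_lit 6844438))
(L (nat_lit 8833146)))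
(S (nat_lit 38017) (S (nat_lit 36820) (S (nat_lit 10884) (L (nat_lit 10980952))
(S (nat_lit 37514) (S (nat_lit 19765) (S (nat_lit 6386) (L (nat_lit 385523))
(L (nat_lit 6181382)))
(L (nat_lit 8833048)))
(L (nat_lit 20504715))))
(S (nat_lit 49947) (L (nat_lit 15445176))
(L (nat_lit 7518038))))
(S (nat_lit 57781) (S (nat_lit 6386) (S (nat_lit 31979) (L (nat_lit 14014274))
(L (nat_lit 6316531)))
(L (nat_lit 6181382)))
(L (nat_lit 25691814)))))
(S (nat_lit 30459) (S (nat_lit 11708) (S (nat_lit 13397) (S (nat_lit 48780) (S (nat_lit 10482) (S (nat_lit 16808) (L (nat_lit 1777552))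
(L (nat_lit 1633896)))
(L (nat_lit 15028345)))
(L (nat_lit 11451510)))
(S (nat_lit 51337) (L (nat_lit 3910541))
(L (nat_lit 5070315))))
(S (nat_lit 31472) (S (nat_lit 27617) (S (nat_lit 54431) (L (nat_lit 17043196))
(L (nat_lit 19096065)))
(L (nat_lit 19399033)))
(S (nat_lit 51236) (S (nat_lit 5374) (L (nat_lit 4743511))
(L (nat_lit 19326277)))
(L (nat_lit 25277749)))))
(S (nat_lit 50223) (S (nat_lit 4398) (S (nat_lit 4094) (L (nat_lit 1308333))
(S (nat_lit 13397) (S (nat_lit 29309) (S (nat_lit 23234) (S (nat_lit 7099) (L (nat_lit 10170555))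
(L (nat_lit 7178802)))
(L (nat_lit 5099885)))
(L (nat_lit 25014629)))
(L (nat_lit 13639388))))
(S (nat_lit 24162) (S (nat_lit 19765) (S (nat_lit 7098) (L (nat_lit 2608935))
(L (nat_lit 21825869)))
(L (nat_lit 21835970)))
(S (nat_lit 43926) (S (nat_lit 7099) (S (nat_lit 26606) (L (nat_lit 16488635))
(L (nat_lit 5744347)))
(L (nat_lit 14535752)))
(L (nat_lit 25799041)))))
(L (nat_lit 25630036)))))
(L (nat_lit 25351437)))))
(S (nat_lit 41294) (S (nat_lit 3470) (S (nat_lit 13184) (S (nat_lit 3680) (S (nat_lit 5633) (L (nat_lit 20787525))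
(L (nat_lit 20449159)))
(S (nat_lit 23444) (S (nat_lit 22754) (S (nat_lit 43457) (S (nat_lit 17055) (L (nat_lit 28876449))
(L (nat_lit 17670295)))
(L (nat_lit 3724536)))
(L (nat_lit 18574597)))
(S (nat_lit 43208) (S (nat_lit 36820) (L (nat_lit 14413155))
(L (nat_lit 23651466)))
(L (nat_lit 25863311)))))
(S (nat_lit 32948) (S (nat_lit 28007) (L (nat_lit 31109316))
(S (nat_lit 29309) (S (nat_lit 25670) (S (nat_lit 4398) (S (nat_lit 32660) (S (nat_lit 26355) (S (nat_lit 41729) (L (nat_lit 24940817))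
(L (nat_lit 27505317)))
(L (nat_lit 30519606)))
(L (nat_lit 1630888)))
(S (nat_lit 26518) (L (nat_lit 24294744))
(L (nat_lit 6893752))))
(S (nat_lit 34196) (L (nat_lit 30481006))
(L (nat_lit 2497145))))
(L (nat_lit 12234873))))
(S (nat_lit 52712) (S (nat_lit 40349) (L (nat_lit 27722474))
(S (nat_lit 53633) (S (nat_lit 30460) (S (nat_lit 3929) (S (nat_lit 18252) (S (nat_lit 58003) (L (nat_lit 29044099))
(L (nat_lit 3927430)))
(L (nat_lit 22111567)))
(L (nat_lit 15553859)))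
(L (nat_lit 19410072)))
(L (nat_lit 19216536))))
(L (nat_lit 25756203)))))
(S (nat_lit 23234) (S (nat_lit 10695) (S (nat_lit 18253) (S (nat_lit 52961) (S (nat_lit 24163) (L (nat_lit 4973099))
(L (nat_lit 9245389)))
(L (nat_lit 17949970)))
(S (nat_lit 38017) (S (nat_lit 19765) (S (nat_lit 16808) (S (nat_lit 57278) (L (nat_lit 11585945))
(L (nat_lit 21226636)))
(L (nat_lit 24971656)))
(L (nat_lit 3743128)))
(S (nat_lit 57781) (S (nat_lit 57278) (S (nat_lit 31262) (L (nat_lit 8904852))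
(L (nat_lit 14264473)))
(L (nat_lit 19440792)))
(L (nat_lit 25789931)))))
(S (nat_lit 30459) (S (nat_lit 28934) (L (nat_lit 4010198))
(S (nat_lit 29744) (S (nat_lit 58003) (S (nat_lit 29309) (S (nat_lit 22754) (L (nat_lit 18175904))
(L (nat_lit 13340953)))
(L (nat_lit 31109223)))
(L (nat_lit 1635638)))
(L (nat_lit 6951353))))
(S (nat_lit 50223) (S (nat_lit 31943) (S (nat_lit 20518) (S (nat_lit 43715) (L (nat_lit 28742004))
(L (nat_lit 7073280)))
(L (nat_lit 7166095)))
(S (nat_lit 37658) (S (nat_lit 57278) (L (nat_lit 1423036))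
(L (nat_lit 1943090)))
(L (nat_lit 1430073))))
(L (nat_lit 25826857)))))
(S (nat_lit 42998) (S (nat_lit 14105) (S (nat_lit 18475) (S (nat_lit 26862) (S (nat_lit 35396) (L (nat_lit 8933155))
(L (nat_lit 8881817)))
(L (nat_lit 9168387)))
(S (nat_lit 38239) (S (nat_lit 14213) (L (nat_lit 22384433))
(S (nat_lit 56584) (S (nat_lit 55160) (S (nat_lit 5374) (L (nat_lit 26593795))
(L (nat_lit 26918208)))
(L (nat_lit 27609133)))
(L (nat_lit 27891857))))
(S (nat_lit 58003) (S (nat_lit 23791) (L (nat_lit 9123896))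
(S (nat_lit 43715) (S (nat_lit 13388) (S (nat_lit 36066) (S (nat_lit 30026) (S (nat_lit 29309) (S (nat_lit 20518) (S (nat_lit 26606) (L (nat_lit 1334843))
(L (nat_lit 281017)))
(L (nat_lit 3743288)))
(L (nat_lit 25005607)))
(L (nat_lit 10631897)))
(L (nat_lit 23620964)))
(L (nat_lit 13366563)))
(L (nat_lit 8900512))))
(L (nat_lit 25312499)))))
(S (nat_lit 33869) (S (nat_lit 15632) (S (nat_lit 43715) (S (nat_lit 7099) (S (nat_lit 31297) (L (nat_lit 1307248))
(S (nat_lit 45434) (S (nat_lit 36066) (S (nat_lit 50224) (S (nat_lit 32660) (L (nat_lit 14418663))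
(L (nat_lit 24616025)))
(L (nat_lit 375698)))
(L (nat_lit 7072944)))
(L (nat_lit 13342776))))
(L (nat_lit 7075329)))
(L (nat_lit 6737016)))
(S (nat_lit 35396) (S (nat_lit 13646) (S (nat_lit 11966) (S (nat_lit 54173) (L (nat_lit 746023))
(L (nat_lit 7146161)))
(L (nat_lit 8447724)))
(L (nat_lit 13444768)))
(S (nat_lit 55160) (S (nat_lit 36066) (S (nat_lit 20518) (S (nat_lit 38239) (S (nat_lit 49790) (S (nat_lit 6842) (L (nat_lit 4961194))
(L (nat_lit 7194705)))
(L (nat_lit 6980527)))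
(L (nat_lit 12239928)))
(L (nat_lit 21423238)))
(L (nat_lit 23356962)))
(L (nat_lit 25769002)))))
(S (nat_lit 53633) (S (nat_lit 17056) (S (nat_lit 13646) (S (nat_lit 43715) (S (nat_lit 28288) (S (nat_lit 34409) (L (nat_lit 4895034))
(L (nat_lit 11374321)))
(L (nat_lit 19732655)))
(L (nat_lit 15748408)))
(L (nat_lit 4020433)))
(S (nat_lit 36820) (S (nat_lit 4399) (S (nat_lit 58002) (S (nat_lit 46370) (L (nat_lit 28824583))
(L (nat_lit 18416555)))
(L (nat_lit 27959409)))
(S (nat_lit 24163) (S (nat_lit 6592) (S (nat_lit 3929) (S (nat_lit 13397) (L (nat_lit 3401271))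
(L (nat_lit 6304477)))
(L (nat_lit 2959927)))
(L (nat_lit 23180137)))
(S (nat_lit 43927) (S (nat_lit 46119) (S (nat_lit 58003) (L (nat_lit 11064443))
(L (nat_lit 3915590)))
(L (nat_lit 27335404)))
(L (nat_lit 25410275)))))
(S (nat_lit 56584) (S (nat_lit 43715) (S (nat_lit 30460) (S (nat_lit 44902) (L (nat_lit 17460359))
(L (nat_lit 1887501)))
(L (nat_lit 1423960)))
(L (nat_lit 27773218)))
(L (nat_lit 25172657)))))
(L (nat_lit 25565921)))))
(L (nat_lit 25658743)))))
(L (nat_lit 25285937)))))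
(L (nat_lit 25270992)))))
(L (nat_lit 25928096)))))

theorem rb178_3 : run 4 lb178 [] tb178_3 kb178 (P4 4 1809 4070 192 1809 0 1 0 0) [] = true := by
  decide +kernel

noncomputable def tb246_0_18 : Tr :=
(S (nat_lit 17527) (S (nat_lit 75) (S (nat_lit 2006) (S (nat_lit 42) (S (nat_lit 17521) (S (nat_lit 10960) (S (nat_lit 5276) (L (nat_lit 14438471))
(S (nat_lit 10949) (S (nat_lit 10982) (S (nat_lit 1958) (S (nat_lit 41497) (S (nat_lit 41503) (S (nat_lit 17560) (S (nat_lit 10999) (S (nat_lit 1944) (S (nat_lit 8762) (S (nat_lit 8810) (S (nat_lit 17538) (L (nat_lit 8574865))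
(L (nat_lit 18476385)))
(L (nat_lit 7857333)))
(L (nat_lit 8143989)))
(S (nat_lit 21708) (L (nat_lit 12756850))
(S (nat_lit 41472) (S (nat_lit 17571) (L (nat_lit 20165476))
(L (nat_lit 18762016)))
(L (nat_lit 25273964)))))
(L (nat_lit 21897232)))
(L (nat_lit 16327706)))
(L (nat_lit 8532884)))
(L (nat_lit 8817492)))
(S (nat_lit 19533) (L (nat_lit 13757780))
(L (nat_lit 20222801))))
(L (nat_lit 8122382)))
(L (nat_lit 7367246))))
(S (nat_lit 12580) (L (nat_lit 13338439))
(L (nat_lit 6789010))))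
(S (nat_lit 37366) (S (nat_lit 21588) (L (nat_lit 18122329))
(L (nat_lit 6962298)))
(L (nat_lit 26235216))))
(S (nat_lit 19806) (S (nat_lit 1019) (S (nat_lit 49671) (L (nat_lit 26300842))
(S (nat_lit 50463) (S (nat_lit 1257) (L (nat_lit 22971815))
(L (nat_lit 14489682)))
(L (nat_lit 13473814))))
(S (nat_lit 20783) (S (nat_lit 15371) (S (nat_lit 8810) (S (nat_lit 15340) (S (nat_lit 41304) (S (nat_lit 40818) (L (nat_lit 18124562))
(L (nat_lit 584050)))
(L (nat_lit 6875314)))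
(L (nat_lit 26779235)))
(L (nat_lit 26844580)))
(S (nat_lit 25240) (L (nat_lit 7988397))
(L (nat_lit 2006669))))
(S (nat_lit 40547) (S (nat_lit 8810) (S (nat_lit 15371) (S (nat_lit 15340) (S (nat_lit 34434) (L (nat_lit 377750))
(L (nat_lit 29007265)))
(L (nat_lit 6939170)))
(L (nat_lit 6742660)))
(S (nat_lit 10205) (L (nat_lit 389554))
(L (nat_lit 433788))))
(L (nat_lit 25175446)))))
(S (nat_lit 39570) (S (nat_lit 1715) (S (nat_lit 20811) (S (nat_lit 41304) (L (nat_lit 26222190))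
(L (nat_lit 3891689)))
(S (nat_lit 40485) (L (nat_lit 26979469))
(L (nat_lit 7070893))))
(S (nat_lit 21479) (S (nat_lit 20811) (S (nat_lit 15340) (S (nat_lit 8779) (L (nat_lit 9517693))
(L (nat_lit 23191944)))
(L (nat_lit 7922803)))
(S (nat_lit 39435) (L (nat_lit 900467))
(L (nat_lit 7070893))))
(S (nat_lit 41243) (S (nat_lit 15340) (S (nat_lit 28559) (S (nat_lit 37307) (L (nat_lit 18416551))
(L (nat_lit 16853842)))
(L (nat_lit 17903443)))
(S (nat_lit 35041) (L (nat_lit 6312877))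
(L (nat_lit 1467702))))
(L (nat_lit 25253104)))))
(L (nat_lit 25272883)))))
(S (nat_lit 21770) (S (nat_lit 1019) (S (nat_lit 1215) (S (nat_lit 8790) (L (nat_lit 29479334))
(L (nat_lit 275382)))
(S (nat_lit 20979) (S (nat_lit 26680) (L (nat_lit 26647730))
(S (nat_lit 41271) (S (nat_lit 40542) (S (nat_lit 15323) (S (nat_lit 8762) (L (nat_lit 18014514))
(L (nat_lit 7999341)))
(L (nat_lit 8149381)))
(L (nat_lit 7825122)))
(L (nat_lit 17854738))))
(S (nat_lit 40743) (S (nat_lit 15664) (L (nat_lit 12182915))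
(S (nat_lit 40564) (S (nat_lit 8779) (L (nat_lit 3428797))
(L (nat_lit 615697)))
(L (nat_lit 18572549))))
(L (nat_lit 25564744)))))
(S (nat_lit 20783) (S (nat_lit 8748) (S (nat_lit 20811) (S (nat_lit 15371) (S (nat_lit 17496) (S (nat_lit 41486) (S (nat_lit 62) (S (nat_lit 47) (S (nat_lit 25) (S (nat_lit 20761) (S (nat_lit 17558) (S (nat_lit 21708) (S (nat_lit 39852) (S (nat_lit 39592) (L (nat_lit 28487060))
(L (nat_lit 6116745)))
(S (nat_lit 40743) (L (nat_lit 28490346))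
(L (nat_lit 7943013))))
(L (nat_lit 30813299)))
(L (nat_lit 7734940)))
(L (nat_lit 16587893)))
(L (nat_lit 8144020)))
(L (nat_lit 1950935)))
(L (nat_lit 8259095)))
(L (nat_lit 18122394)))
(L (nat_lit 16516839)))
(L (nat_lit 1482644)))
(L (nat_lit 16615048)))
(S (nat_lit 28512) (S (nat_lit 15340) (S (nat_lit 15371) (S (nat_lit 8810) (S (nat_lit 40542) (S (nat_lit 15323) (L (nat_lit 7885601))
(L (nat_lit 26758404)))
(L (nat_lit 25035304)))
(L (nat_lit 26844580)))
(L (nat_lit 26811813)))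
(L (nat_lit 6709090)))
(S (nat_lit 48276) (S (nat_lit 15340) (S (nat_lit 15371) (S (nat_lit 8810) (S (nat_lit 10949) (S (nat_lit 21496) (L (nat_lit 21153084))
(L (nat_lit 7353021)))
(L (nat_lit 26948714)))
(L (nat_lit 7964093)))
(L (nat_lit 7931324)))
(S (nat_lit 45540) (L (nat_lit 7752546))
(L (nat_lit 8226417))))
(L (nat_lit 25182452)))))
(S (nat_lit 40547) (S (nat_lit 8217) (L (nat_lit 17932211))
(S (nat_lit 8790) (S (nat_lit 15323) (S (nat_lit 15351) (S (nat_lit 21527) (S (nat_lit 21041) (S (nat_lit 40514) (S (nat_lit 40790) (L (nat_lit 14964481))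
(L (nat_lit 385462)))
(L (nat_lit 23356433)))
(L (nat_lit 7074304)))
(L (nat_lit 782854)))
(L (nat_lit 860752)))
(L (nat_lit 544619)))
(L (nat_lit 7073184))))
(L (nat_lit 25647239)))))
(S (nat_lit 41534) (S (nat_lit 1240) (S (nat_lit 1975) (S (nat_lit 41293) (S (nat_lit 8810) (S (nat_lit 17538) (L (nat_lit 29641089))
(L (nat_lit 7883928)))
(L (nat_lit 6807699)))
(L (nat_lit 18113620)))
(S (nat_lit 21739) (S (nat_lit 41293) (S (nat_lit 8779) (S (nat_lit 8790) (L (nat_lit 8230292))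
(L (nat_lit 1814904)))
(L (nat_lit 1626426)))
(L (nat_lit 6844565)))
(S (nat_lit 41503) (S (nat_lit 8810) (S (nat_lit 15371) (S (nat_lit 17558) (S (nat_lit 15340) (S (nat_lit 8748) (S (nat_lit 41486) (S (nat_lit 15309) (S (nat_lit 62) (S (nat_lit 8779) (S (nat_lit 21803) (S (nat_lit 31) (S (nat_lit 17538) (S (nat_lit 41472) (S (nat_lit 20798) (S (nat_lit 10999) (S (nat_lit 1279) (S (nat_lit 1290) (S (nat_lit 40419) (S (nat_lit 40450) (S (nat_lit 40483) (S (nat_lit 42) (S (nat_lit 40494) (S (nat_lit 40461) (S (nat_lit 64) (S (nat_lit 5016) (S (nat_lit 13569) (S (nat_lit 42830) (S (nat_lit 54231) (S (nat_lit 6980) (S (nat_lit 27959) (D (nat_lit 13) (nat_lit 13521188) (nat_lit 6048296) (nat_lit 2205567418470))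
(L (nat_lit 27680067)))
(L (nat_lit 29510091)))
(L (nat_lit 10374660)))
(L (nat_lit 19740962)))
(L (nat_lit 29997412)))
(S (nat_lit 14013) (S (nat_lit 43296) (S (nat_lit 47204) (S (nat_lit 7514) (S (nat_lit 5960) (S (nat_lit 34020) (D (nat_lit 13) (nat_lit 13486305) (nat_lit 6048017) (nat_lit 2202446856387))
(L (nat_lit 27680067)))
(L (nat_lit 27793463)))
(L (nat_lit 29995145)))
(L (nat_lit 9261602)))
(L (nat_lit 19809474)))
(L (nat_lit 4958648))))
(L (nat_lit 2019753)))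
(L (nat_lit 21348164)))
(L (nat_lit 29678764)))
(L (nat_lit 20390785)))
(L (nat_lit 15459648)))
(L (nat_lit 15922859)))
(L (nat_lit 12186700)))
(L (nat_lit 19406659)))
(L (nat_lit 19840166)))
(L (nat_lit 2012808)))
(L (nat_lit 31140353)))
(L (nat_lit 23246763)))
(L (nat_lit 1679833)))
(L (nat_lit 14490708)))
(L (nat_lit 28712086)))
(L (nat_lit 1626984)))
(L (nat_lit 19405732)))
(L (nat_lit 24134439)))
(L (nat_lit 27434454)))
(L (nat_lit 23085863)))
(L (nat_lit 1628008)))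
(L (nat_lit 1711581)))
(L (nat_lit 1646511)))
(S (nat_lit 9620) (S (nat_lit 9458) (L (nat_lit 4660987))
(L (nat_lit 452267)))
(L (nat_lit 6784949))))
(L (nat_lit 25306580)))))
(S (nat_lit 21004) (S (nat_lit 1763) (S (nat_lit 10982) (S (nat_lit 20800) (S (nat_lit 15323) (L (nat_lit 1828111))
(L (nat_lit 22571114)))
(L (nat_lit 30953728)))
(L (nat_lit 21245980)))
(S (nat_lit 21527) (S (nat_lit 10982) (S (nat_lit 15323) (S (nat_lit 8762) (L (nat_lit 24973584))
(L (nat_lit 1599763)))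
(L (nat_lit 1599762)))
(L (nat_lit 26496014)))
(S (nat_lit 41291) (S (nat_lit 8779) (S (nat_lit 8795) (S (nat_lit 17543) (S (nat_lit 15340) (S (nat_lit 31) (S (nat_lit 15309) (S (nat_lit 41243) (S (nat_lit 20761) (S (nat_lit 62) (S (nat_lit 41271) (S (nat_lit 17510) (S (nat_lit 15323) (S (nat_lit 47) (S (nat_lit 10999) (S (nat_lit 41304) (S (nat_lit 21026) (S (nat_lit 15351) (S (nat_lit 21203) (S (nat_lit 20783) (S (nat_lit 20811) (S (nat_lit 41276) (S (nat_lit 41254) (S (nat_lit 21216) (S (nat_lit 25) (S (nat_lit 3120) (S (nat_lit 44980) (S (nat_lit 3125) (S (nat_lit 42550) (D (nat_lit 11) (nat_lit 907817) (nat_lit 25765317) (nat_lit 206193137670))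
(L (nat_lit 18967019)))
(L (nat_lit 29926980)))
(L (nat_lit 19392804)))
(S (nat_lit 26026) (S (nat_lit 26048) (S (nat_lit 3751) (S (nat_lit 23618) (D (nat_lit 11) (nat_lit 1857931) (nat_lit 25765381) (nat_lit 103148620803))
(L (nat_lit 19833347)))
(L (nat_lit 27580834)))
(L (nat_lit 27930914)))
(L (nat_lit 6107850))))
(L (nat_lit 809480)))
(L (nat_lit 10327506)))
(L (nat_lit 27712768)))
(L (nat_lit 18646630)))
(L (nat_lit 21554184)))
(L (nat_lit 21759367)))
(L (nat_lit 20186928)))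
(L (nat_lit 907686)))
(L (nat_lit 21929378)))
(L (nat_lit 17041085)))
(L (nat_lit 486610)))
(L (nat_lit 313111)))
(L (nat_lit 26920011)))
(L (nat_lit 26918987)))
(L (nat_lit 18652868)))
(L (nat_lit 26779332)))
(L (nat_lit 615942)))
(L (nat_lit 23389635)))
(L (nat_lit 26746593)))
(L (nat_lit 26488917)))
(L (nat_lit 417082)))
(L (nat_lit 867051)))
(L (nat_lit 873995)))
(L (nat_lit 597562)))
(L (nat_lit 25218600)))))
(S (nat_lit 40768) (S (nat_lit 17571) (S (nat_lit 15340) (S (nat_lit 8779) (S (nat_lit 31) (S (nat_lit 8823) (S (nat_lit 40818) (S (nat_lit 40785) (S (nat_lit 40743) (S (nat_lit 41472) (S (nat_lit 41486) (S (nat_lit 40790) (S (nat_lit 20761) (S (nat_lit 41497) (S (nat_lit 20169) (S (nat_lit 21512) (S (nat_lit 20800) (S (nat_lit 14) (S (nat_lit 20767) (S (nat_lit 21507) (S (nat_lit 21465) (S (nat_lit 8748) (S (nat_lit 10935) (S (nat_lit 39623) (S (nat_lit 13703) (S (nat_lit 43835) (S (nat_lit 43279) (S (nat_lit 33029) (S (nat_lit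 26437) (S (nat_lit 28219) (S (nat_lit 34082) (D (nat_lit 13) (nat_lit 13388971) (nat_lit 9193649) (nat_lit 2202446856387))
(L (nat_lit 27856393)))
(L (nat_lit 27856330)))
(L (nat_lit 20410627)))
(L (nat_lit 19427653)))
(L (nat_lit 19360005)))
(L (nat_lit 29999365)))
(S (nat_lit 25297) (S (nat_lit 25314) (S (nat_lit 2768) (S (nat_lit 23856) (D (nat_lit 11) (nat_lit 1856007) (nat_lit 25764976) (nat_lit 103114017795))
(L (nat_lit 19834958)))
(L (nat_lit 27382155)))
(L (nat_lit 27931941)))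
(L (nat_lit 8575856))))
(L (nat_lit 30496016)))
(L (nat_lit 1888807)))
(L (nat_lit 1888775)))
(L (nat_lit 21900365)))
(L (nat_lit 21936233)))
(L (nat_lit 21770432)))
(L (nat_lit 1654634)))
(L (nat_lit 21225888)))
(L (nat_lit 21764481)))
(L (nat_lit 27662451)))
(L (nat_lit 27646030)))
(L (nat_lit 21390624)))
(L (nat_lit 27777127)))
(L (nat_lit 27369104)))
(L (nat_lit 27380013)))
(L (nat_lit 27544685)))
(L (nat_lit 27919661)))
(L (nat_lit 27336365)))
(L (nat_lit 21345368)))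
(L (nat_lit 13919316)))
(L (nat_lit 17065042)))
(S (nat_lit 16231) (S (nat_lit 16960) (L (nat_lit 13205884))
(L (nat_lit 7038339)))
(L (nat_lit 7897722))))
(S (nat_lit 37335) (S (nat_lit 40807) (S (nat_lit 8779) (S (nat_lit 8748) (L (nat_lit 18717248))
(L (nat_lit 7889600)))
(L (nat_lit 6906961)))
(L (nat_lit 17917542)))
(S (nat_lit 57099) (S (nat_lit 21512) (S (nat_lit 20800) (S (nat_lit 15373) (L (nat_lit 7260271))
(L (nat_lit 7259874)))
(L (nat_lit 16474187)))
(L (nat_lit 8143959)))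
(L (nat_lit 25630406)))))
(L (nat_lit 25281844)))))
(L (nat_lit 25245384)))))
(S (nat_lit 19839) (S (nat_lit 15309) (S (nat_lit 1715) (S (nat_lit 8748) (S (nat_lit 41514) (S (nat_lit 10935) (S (nat_lit 8779) (S (nat_lit 15340) (S (nat_lit 41486) (S (nat_lit 20761) (S (nat_lit 31) (S (nat_lit 1765) (S (nat_lit 20783) (S (nat_lit 1034) (S (nat_lit 20811) (S (nat_lit 8810) (S (nat_lit 17558) (S (nat_lit 57066) (S (nat_lit 48318) (S (nat_lit 54851) (S (nat_lit 40774) (S (nat_lit 21433) (S (nat_lit 41276) (S (nat_lit 30774) (S (nat_lit 39592) (S (nat_lit 40542) (S (nat_lit 25198) (S (nat_lit 8626) (S (nat_lit 13740) (S (nat_lit 24355) (S (nat_lit 34787) (S (nat_lit 34296) (D (nat_lit 13) (nat_lit 27932745) (nat_lit 25348464) (nat_lit 5710267121667))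
(L (nat_lit 27997441)))
(L (nat_lit 27900006)))
(L (nat_lit 27740389)))
(L (nat_lit 27902277)))
(L (nat_lit 27867364)))
(S (nat_lit 46269) (S (nat_lit 26170) (S (nat_lit 6498) (S (nat_lit 22589) (S (nat_lit 53511) (D (nat_lit 13) (nat_lit 31171077) (nat_lit 15472203) (nat_lit 241665379330))
(L (nat_lit 28950754)))
(L (nat_lit 24552537)))
(L (nat_lit 29744613)))
(L (nat_lit 25044420)))
(L (nat_lit 9520861))))
(L (nat_lit 23553316)))
(L (nat_lit 23618755)))
(L (nat_lit 19773696)))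
(L (nat_lit 8872022)))
(L (nat_lit 13889184)))
(L (nat_lit 521428)))
(L (nat_lit 21939275)))
(L (nat_lit 22136582)))
(L (nat_lit 21054214)))
(L (nat_lit 16078012)))
(L (nat_lit 21313724)))
(L (nat_lit 31136781)))
(L (nat_lit 26513943)))
(L (nat_lit 5709655)))
(L (nat_lit 19405914)))
(L (nat_lit 19340378)))
(L (nat_lit 15277176)))
(L (nat_lit 27854310)))
(L (nat_lit 6929218)))
(L (nat_lit 21051674)))
(L (nat_lit 23076409)))
(L (nat_lit 18652243)))
(L (nat_lit 23862720)))
(S (nat_lit 21479) (S (nat_lit 8779) (S (nat_lit 17558) (S (nat_lit 31) (S (nat_lit 8810) (S (nat_lit 10935) (S (nat_lit 41486) (S (nat_lit 8748) (S (nat_lit 15371) (S (nat_lit 62) (S (nat_lit 21529) (S (nat_lit 21507) (S (nat_lit 17496) (S (nat_lit 41514) (S (nat_lit 8773) (S (nat_lit 19811) (S (nat_lit 40790) (L (nat_lit 4416918))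
(L (nat_lit 27951497)))
(L (nat_lit 31107492)))
(S (nat_lit 40700) (S (nat_lit 40678) (S (nat_lit 20811) (S (nat_lit 20761) (S (nat_lit 20783) (S (nat_lit 21569) (S (nat_lit 1382) (S (nat_lit 1410) (S (nat_lit 28587) (S (nat_lit 41229) (S (nat_lit 54901) (S (nat_lit 48290) (S (nat_lit 20978) (S (nat_lit 21041) (S (nat_lit 1034) (S (nat_lit 40768) (S (nat_lit 23061) (S (nat_lit 3094) (S (nat_lit 54546) (S (nat_lit 8595) (S (nat_lit 8123) (S (nat_lit 46543) (D (nat_lit 13) (nat_lit 28934476) (nat_lit 18997771) (nat_lit 3335082016832))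
(L (nat_lit 30124516)))
(L (nat_lit 27926980)))
(L (nat_lit 27380139)))
(L (nat_lit 29986315)))
(L (nat_lit 30000418)))
(S (nat_lit 44387) (S (nat_lit 6408) (S (nat_lit 45735) (S (nat_lit 45820) (S (nat_lit 33250) (S (nat_lit 46227) (S (nat_lit 5936) (D (nat_lit 13) (nat_lit 27861410) (nat_lit 19666125) (nat_lit 1139477119235))
(L (nat_lit 27865317)))
(L (nat_lit 29012226)))
(L (nat_lit 19342085)))
(L (nat_lit 29838692)))
(L (nat_lit 19806405)))
(L (nat_lit 27869541)))
(L (nat_lit 10205954))))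
(L (nat_lit 25772257)))
(L (nat_lit 19128369)))
(L (nat_lit 4516560)))
(L (nat_lit 11373264)))
(L (nat_lit 28001573)))
(L (nat_lit 27613228)))
(L (nat_lit 23955756)))
(L (nat_lit 25017632)))
(L (nat_lit 8228556)))
(L (nat_lit 8162960)))
(L (nat_lit 26369478)))
(L (nat_lit 21759249)))
(L (nat_lit 21366635)))
(L (nat_lit 21792202)))
(L (nat_lit 26851620)))
(L (nat_lit 1719642))))
(L (nat_lit 27494125)))
(L (nat_lit 1842743)))
(L (nat_lit 31104045)))
(L (nat_lit 30940768)))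
(L (nat_lit 26779364)))
(L (nat_lit 26877348)))
(L (nat_lit 1855728)))
(L (nat_lit 27690662)))
(L (nat_lit 23862289)))
(L (nat_lit 1744815)))
(L (nat_lit 1744751)))
(L (nat_lit 26353294)))
(L (nat_lit 26615523)))
(S (nat_lit 41243) (S (nat_lit 15885) (S (nat_lit 15642) (L (nat_lit 834218))
(L (nat_lit 804583)))
(S (nat_lit 17496) (S (nat_lit 8748) (S (nat_lit 41514) (S (nat_lit 10935) (S (nat_lit 41271) (S (nat_lit 41293) (S (nat_lit 41486) (S (nat_lit 8779) (S (nat_lit 15371) (S (nat_lit 8810) (S (nat_lit 40137) (L (nat_lit 5623565))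
(S (nat_lit 40542) (S (nat_lit 40514) (S (nat_lit 40564) (S (nat_lit 37335) (S (nat_lit 30774) (S (nat_lit 35148) (S (nat_lit 28587) (S (nat_lit 40807) (S (nat_lit 21512) (S (nat_lit 21026) (S (nat_lit 21004) (S (nat_lit 35098) (S (nat_lit 1034) (S (nat_lit 1763) (S (nat_lit 104) (S (nat_lit 39465) (S (nat_lit 39527) (S (nat_lit 228) (S (nat_lit 24305) (S (nat_lit 45255) (S (nat_lit 26901) (S (nat_lit 13497) (S (nat_lit 26978) (S (nat_lit 41957) (D (nat_lit 9) (nat_lit 25828433) (nat_lit 19248248) (nat_lit 171866070051))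
(L (nat_lit 30127459)))
(L (nat_lit 27918825)))
(L (nat_lit 28951876)))
(L (nat_lit 28527013)))
(L (nat_lit 28789056)))
(S (nat_lit 33767) (S (nat_lit 7275) (S (nat_lit 24819) (S (nat_lit 2534) (S (nat_lit 43110) (D (nat_lit 9) (nat_lit 30739121) (nat_lit 19063149) (nat_lit 105228999717))
(L (nat_lit 29998369)))
(L (nat_lit 27856266)))
(L (nat_lit 27807009)))
(L (nat_lit 29997315)))
(L (nat_lit 4439707))))
(L (nat_lit 24033568)))
(L (nat_lit 9625360)))
(L (nat_lit 10345857)))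
(L (nat_lit 9213398)))
(L (nat_lit 9560598)))
(L (nat_lit 8512022)))
(L (nat_lit 8409905)))
(L (nat_lit 21372705)))
(L (nat_lit 21765536)))
(L (nat_lit 21764481)))
(L (nat_lit 8147329)))
(L (nat_lit 24947232)))
(L (nat_lit 23898657)))
(L (nat_lit 24947200)))
(L (nat_lit 23898625)))
(L (nat_lit 3882854)))
(L (nat_lit 3783559)))
(L (nat_lit 1879788))))
(L (nat_lit 17127580)))
(L (nat_lit 384941)))
(L (nat_lit 16883450)))
(L (nat_lit 2498200)))
(L (nat_lit 3939732)))
(L (nat_lit 27761714)))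
(L (nat_lit 21798433)))
(L (nat_lit 27303474)))
(L (nat_lit 23862320)))
(L (nat_lit 1819896))))
(L (nat_lit 25799137)))))
(S (nat_lit 35073) (S (nat_lit 1036) (S (nat_lit 1019) (S (nat_lit 41304) (L (nat_lit 23332280))
(L (nat_lit 18089779)))
(S (nat_lit 20783) (S (nat_lit 15340) (S (nat_lit 8810) (S (nat_lit 15371) (S (nat_lit 21733) (S (nat_lit 1991) (S (nat_lit 41271) (L (nat_lit 24478233))
(L (nat_lit 25042028)))
(L (nat_lit 13435254)))
(L (nat_lit 21905479)))
(L (nat_lit 26805674)))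
(L (nat_lit 6808164)))
(S (nat_lit 24948) (L (nat_lit 21375873))
(L (nat_lit 26478131))))
(S (nat_lit 40547) (S (nat_lit 8810) (S (nat_lit 41895) (L (nat_lit 11994745))
(L (nat_lit 18777670)))
(S (nat_lit 9962) (L (nat_lit 28351892))
(L (nat_lit 2006453))))
(L (nat_lit 25870409)))))
(S (nat_lit 20800) (S (nat_lit 37302) (S (nat_lit 30741) (S (nat_lit 39590) (S (nat_lit 28512) (S (nat_lit 54851) (S (nat_lit 21770) (S (nat_lit 40768) (L (nat_lit 28393846))
(L (nat_lit 23397134)))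
(L (nat_lit 22230880)))
(L (nat_lit 11388516)))
(L (nat_lit 9984897)))
(L (nat_lit 18554010)))
(L (nat_lit 8943201)))
(S (nat_lit 56994) (L (nat_lit 6843447))
(L (nat_lit 2646663))))
(S (nat_lit 40564) (S (nat_lit 1262) (S (nat_lit 15340) (L (nat_lit 24190397))
(L (nat_lit 17636963)))
(S (nat_lit 21026) (S (nat_lit 41293) (S (nat_lit 15340) (S (nat_lit 21755) (S (nat_lit 8810) (L (nat_lit 20316440))
(L (nat_lit 26706538)))
(L (nat_lit 16515688)))
(L (nat_lit 26772072)))
(L (nat_lit 17866329)))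
(S (nat_lit 40790) (S (nat_lit 1370) (S (nat_lit 1840) (L (nat_lit 729626))
(L (nat_lit 7867252)))
(S (nat_lit 37344) (L (nat_lit 21118232))
(L (nat_lit 28541367))))
(L (nat_lit 25648448)))))
(L (nat_lit 25919883)))))
(S (nat_lit 54837) (S (nat_lit 15351) (S (nat_lit 17521) (S (nat_lit 10977) (S (nat_lit 8773) (S (nat_lit 8810) (S (nat_lit 8823) (S (nat_lit 41547) (S (nat_lit 21479) (L (nat_lit 11007652))
(L (nat_lit 7435952)))
(L (nat_lit 18571587)))
(L (nat_lit 7978849)))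
(L (nat_lit 15042485)))
(L (nat_lit 7360433)))
(L (nat_lit 17919654)))
(S (nat_lit 37285) (S (nat_lit 50463) (S (nat_lit 30724) (L (nat_lit 4019655))
(L (nat_lit 8906338)))
(S (nat_lit 54684) (L (nat_lit 903654))
(L (nat_lit 14900064))))
(S (nat_lit 57049) (S (nat_lit 20767) (S (nat_lit 8810) (S (nat_lit 20783) (S (nat_lit 21722) (L (nat_lit 29548006))
(L (nat_lit 16359168)))
(L (nat_lit 14902881)))
(L (nat_lit 7004301)))
(S (nat_lit 21091) (L (nat_lit 31106497))
(L (nat_lit 961013))))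
(L (nat_lit 25734723)))))
(S (nat_lit 35115) (S (nat_lit 1991) (S (nat_lit 21783) (S (nat_lit 20811) (S (nat_lit 40514) (S (nat_lit 30699) (L (nat_lit 18057075))
(L (nat_lit 13861718)))
(L (nat_lit 1645360)))
(L (nat_lit 6407866)))
(S (nat_lit 58615) (L (nat_lit 13305705))
(L (nat_lit 15735571))))
(S (nat_lit 21755) (S (nat_lit 1811) (S (nat_lit 20750) (S (nat_lit 17162) (L (nat_lit 1615453))
(L (nat_lit 7956899)))
(L (nat_lit 16358147)))
(S (nat_lit 21512) (S (nat_lit 8810) (S (nat_lit 8779) (S (nat_lit 40807) (L (nat_lit 7112366))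
(L (nat_lit 18613867)))
(L (nat_lit 16849499)))
(L (nat_lit 7964591)))
(L (nat_lit 20997544))))
(S (nat_lit 41519) (S (nat_lit 41304) (S (nat_lit 20800) (S (nat_lit 20783) (L (nat_lit 1983762))
(L (nat_lit 809385)))
(L (nat_lit 745899)))
(S (nat_lit 54105) (L (nat_lit 7758002))
(L (nat_lit 3676827))))
(L (nat_lit 25215287)))))
(S (nat_lit 54879) (S (nat_lit 1958) (S (nat_lit 997) (S (nat_lit 1277) (S (nat_lit 1763) (L (nat_lit 29639797))
(L (nat_lit 13329446)))
(L (nat_lit 13329632)))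
(L (nat_lit 26641717)))
(S (nat_lit 21722) (S (nat_lit 8810) (S (nat_lit 21490) (S (nat_lit 21004) (S (nat_lit 20783) (L (nat_lit 2498232))
(L (nat_lit 14902881)))
(L (nat_lit 1679215)))
(L (nat_lit 7964527)))
(L (nat_lit 7964591)))
(S (nat_lit 41486) (S (nat_lit 1839) (S (nat_lit 15334) (L (nat_lit 26774090))
(L (nat_lit 7126198)))
(S (nat_lit 21540) (S (nat_lit 31) (S (nat_lit 20761) (S (nat_lit 41293) (L (nat_lit 1580853))
(L (nat_lit 18620005)))
(L (nat_lit 15271160)))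
(L (nat_lit 8226446)))
(L (nat_lit 8086701))))
(L (nat_lit 25757008)))))
(L (nat_lit 25567413)))))
(L (nat_lit 25173461)))))
(S (nat_lit 39603) (S (nat_lit 17543) (S (nat_lit 1290) (S (nat_lit 28537) (S (nat_lit 40562) (S (nat_lit 10982) (S (nat_lit 39592) (S (nat_lit 28526) (S (nat_lit 35087) (L (nat_lit 5485176))
(L (nat_lit 8937586)))
(L (nat_lit 13306171)))
(L (nat_lit 27639394)))
(L (nat_lit 6838053)))
(L (nat_lit 24645944)))
(L (nat_lit 2633591)))
(S (nat_lit 21054) (S (nat_lit 8810) (S (nat_lit 15371) (S (nat_lit 15340) (S (nat_lit 8812) (S (nat_lit 20783) (S (nat_lit 41271) (S (nat_lit 41243) (L (nat_lit 9597612))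
(L (nat_lit 17669303)))
(L (nat_lit 18750578)))
(L (nat_lit 22977923)))
(L (nat_lit 7498194)))
(L (nat_lit 868627)))
(L (nat_lit 26647698)))
(L (nat_lit 26837482)))
(S (nat_lit 40818) (S (nat_lit 47) (S (nat_lit 40575) (S (nat_lit 41304) (S (nat_lit 8795) (S (nat_lit 15340) (S (nat_lit 20487) (S (nat_lit 20001) (L (nat_lit 28685331))
(L (nat_lit 8247778)))
(L (nat_lit 1956328)))
(L (nat_lit 15539283)))
(L (nat_lit 23336477)))
(L (nat_lit 6347564)))
(L (nat_lit 3400365)))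
(S (nat_lit 19811) (S (nat_lit 40575) (S (nat_lit 8810) (S (nat_lit 15323) (S (nat_lit 15340) (L (nat_lit 2832669))
(L (nat_lit 1795465)))
(L (nat_lit 771389)))
(L (nat_lit 451243)))
(L (nat_lit 7886875)))
(S (nat_lit 39575) (S (nat_lit 17496) (S (nat_lit 17521) (S (nat_lit 40575) (S (nat_lit 15309) (S (nat_lit 28526) (L (nat_lit 5453403))
(L (nat_lit 8938052)))
(L (nat_lit 15490241)))
(L (nat_lit 3400365)))
(L (nat_lit 26235337)))
(L (nat_lit 26461856)))
(L (nat_lit 25465456)))))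
(L (nat_lit 25896389)))))
(S (nat_lit 37307) (S (nat_lit 2006) (S (nat_lit 972) (S (nat_lit 1944) (S (nat_lit 39575) (S (nat_lit 31) (S (nat_lit 46899) (L (nat_lit 2372348))
(L (nat_lit 30675350)))
(L (nat_lit 20210115)))
(L (nat_lit 24437156)))
(S (nat_lit 41328) (L (nat_lit 19165568))
(L (nat_lit 13951555))))
(S (nat_lit 20736) (S (nat_lit 13988) (L (nat_lit 6907053))
(S (nat_lit 35087) (S (nat_lit 8810) (S (nat_lit 41304) (L (nat_lit 22550439))
(L (nat_lit 24338884)))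
(L (nat_lit 452202)))
(L (nat_lit 2646292))))
(S (nat_lit 40500) (S (nat_lit 35087) (S (nat_lit 39575) (S (nat_lit 30774) (S (nat_lit 41514) (S (nat_lit 30746) (L (nat_lit 9344624))
(L (nat_lit 17059652)))
(L (nat_lit 18655250)))
(L (nat_lit 17124444)))
(L (nat_lit 23388549)))
(L (nat_lit 23933002)))
(L (nat_lit 25561427)))))
(S (nat_lit 21770) (S (nat_lit 8773) (S (nat_lit 40562) (S (nat_lit 17496) (S (nat_lit 1036) (S (nat_lit 40818) (L (nat_lit 24642472))
(L (nat_lit 761307)))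
(L (nat_lit 8934490)))
(L (nat_lit 6873761)))
(L (nat_lit 27798243)))
(S (nat_lit 28537) (S (nat_lit 41293) (S (nat_lit 40807) (S (nat_lit 15334) (L (nat_lit 18711110))
(L (nat_lit 24647035)))
(L (nat_lit 536436)))
(L (nat_lit 6821748)))
(S (nat_lit 48301) (S (nat_lit 41293) (S (nat_lit 21527) (L (nat_lit 29894834))
(L (nat_lit 5796582)))
(S (nat_lit 42129) (L (nat_lit 7530034))
(L (nat_lit 1594215))))
(L (nat_lit 25900169)))))
(S (nat_lit 41534) (S (nat_lit 8823) (S (nat_lit 41271) (S (nat_lit 40785) (L (nat_lit 18777299))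
(L (nat_lit 24318491)))
(L (nat_lit 24128027)))
(S (nat_lit 28587) (S (nat_lit 20101) (L (nat_lit 18794757))
(S (nat_lit 41293) (S (nat_lit 40564) (S (nat_lit 40805) (L (nat_lit 6836996))
(L (nat_lit 18557698)))
(L (nat_lit 18699398)))
(L (nat_lit 23936293))))
(S (nat_lit 48351) (S (nat_lit 40757) (S (nat_lit 41243) (L (nat_lit 27854128))
(L (nat_lit 17902391)))
(L (nat_lit 18092855)))
(L (nat_lit 25793808)))))
(L (nat_lit 25374806)))))
(S (nat_lit 57071) (S (nat_lit 1215) (S (nat_lit 8779) (S (nat_lit 21021) (S (nat_lit 1701) (S (nat_lit 15340) (S (nat_lit 8810) (S (nat_lit 31) (S (nat_lit 50488) (S (nat_lit 20783) (S (nat_lit 41514) (S (nat_lit 21043) (S (nat_lit 21529) (S (nat_lit 21636) (S (nat_lit 986) (S (nat_lit 28526) (S (nat_lit 40356) (S (nat_lit 37324) (S (nat_lit 21770) (S (nat_lit 54912) (S (nat_lit 2163) (S (nat_lit 24572) (S (nat_lit 14793) (S (nat_lit 42337) (S (nat_lit 42834) (S (nat_lit 5822) (S (nat_lit 2908) (D (nat_lit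 13) (nat_lit 31145316) (nat_lit 25759179) (nat_lit 2302207334406))
(L (nat_lit 31145188)))
(L (nat_lit 29830850)))
(L (nat_lit 28809859)))
(L (nat_lit 28821763)))
(L (nat_lit 31048961)))
(S (nat_lit 43132) (S (nat_lit 53272) (S (nat_lit 34093) (D (nat_lit 15) (nat_lit 26817763) (nat_lit 5857549) (nat_lit 2105506))
(L (nat_lit 13488385)))
(L (nat_lit 28979459)))
(L (nat_lit 18510050))))
(L (nat_lit 29935659)))
(L (nat_lit 19261824)))
(L (nat_lit 8173282)))
(L (nat_lit 20824259)))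
(L (nat_lit 12675347)))
(L (nat_lit 3032650)))
(L (nat_lit 11108861)))
(L (nat_lit 29656652)))
(L (nat_lit 21234104)))
(L (nat_lit 30724270)))
(L (nat_lit 6778898)))
(L (nat_lit 7100835)))
(L (nat_lit 12431538)))
(L (nat_lit 26903855)))
(L (nat_lit 23560572)))
(L (nat_lit 7027554)))
(L (nat_lit 10085516)))
(L (nat_lit 7098380)))
(S (nat_lit 28543) (S (nat_lit 40525) (S (nat_lit 15340) (L (nat_lit 23160076))
(L (nat_lit 648744)))
(L (nat_lit 24535147)))
(S (nat_lit 48307) (S (nat_lit 19795) (S (nat_lit 54868) (S (nat_lit 41291) (S (nat_lit 997) (L (nat_lit 5556114))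
(L (nat_lit 26500207)))
(L (nat_lit 18115702)))
(L (nat_lit 21250169)))
(L (nat_lit 16009336)))
(L (nat_lit 25756041)))))
(S (nat_lit 20979) (S (nat_lit 8823) (S (nat_lit 15356) (S (nat_lit 50510) (S (nat_lit 15384) (S (nat_lit 41304) (L (nat_lit 11110192))
(L (nat_lit 6817586)))
(L (nat_lit 22352750)))
(L (nat_lit 12851059)))
(S (nat_lit 34215) (L (nat_lit 782856))
(L (nat_lit 17405738))))
(S (nat_lit 28587) (S (nat_lit 40562) (S (nat_lit 40564) (S (nat_lit 15371) (L (nat_lit 4832632))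
(L (nat_lit 16915036)))
(L (nat_lit 23926030)))
(L (nat_lit 7915642)))
(S (nat_lit 48351) (S (nat_lit 15340) (S (nat_lit 21041) (S (nat_lit 1014) (S (nat_lit 1240) (S (nat_lit 21770) (S (nat_lit 10935) (S (nat_lit 28554) (S (nat_lit 28526) (S (nat_lit 41486) (S (nat_lit 41229) (S (nat_lit 19828) (S (nat_lit 39918) (S (nat_lit 39747) (S (nat_lit 20811) (S (nat_lit 35087) (S (nat_lit 6697) (S (nat_lit 6675) (S (nat_lit 34579) (S (nat_lit 25439) (S (nat_lit 23981) (D (nat_lit 11) (nat_lit 31098161) (nat_lit 15475826) (nat_lit 72148551778))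
(L (nat_lit 25038376)))
(L (nat_lit 25038345)))
(L (nat_lit 3000714)))
(L (nat_lit 28908065)))
(S (nat_lit 54498) (S (nat_lit 47208) (S (nat_lit 7282) (D (nat_lit 11) (nat_lit 31131917) (nat_lit 25479344) (nat_lit 106438957062))
(L (nat_lit 31048932)))
(L (nat_lit 4016616)))
(L (nat_lit 3726121))))
(L (nat_lit 9159803)))
(L (nat_lit 16049794)))
(L (nat_lit 26743091)))
(L (nat_lit 19399995)))
(L (nat_lit 15573603)))
(L (nat_lit 1699243)))
(L (nat_lit 18452728)))
(L (nat_lit 25047147)))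
(L (nat_lit 24392544)))
(L (nat_lit 21773504)))
(L (nat_lit 21499163)))
(L (nat_lit 26854689)))
(L (nat_lit 26400044)))
(L (nat_lit 6835291)))
(S (nat_lit 42926) (L (nat_lit 316826))
(L (nat_lit 7012762))))
(L (nat_lit 25867335)))))
(S (nat_lit 40743) (S (nat_lit 15371) (S (nat_lit 28526) (S (nat_lit 21465) (S (nat_lit 15340) (S (nat_lit 62) (S (nat_lit 20783) (S (nat_lit 41293) (S (nat_lit 41271) (S (nat_lit 54884) (S (nat_lit 28576) (S (nat_lit 50488) (S (nat_lit 40562) (S (nat_lit 31) (S (nat_lit 986) (S (nat_lit 48323) (S (nat_lit 37302) (S (nat_lit 1229) (S (nat_lit 40890) (S (nat_lit 2301) (S (nat_lit 54498) (S (nat_lit 45043) (S (nat_lit 47694) (D (nat_lit 11) (nat_lit 26878029) (nat_lit 16900683) (nat_lit 206193133794))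
(L (nat_lit 29010404)))
(L (nat_lit 21864900)))
(L (nat_lit 28977637)))
(S (nat_lit 26168) (S (nat_lit 24097) (S (nat_lit 4292) (S (nat_lit 33800) (S (nat_lit 7387) (S (nat_lit 13236) (D (nat_lit 9) (nat_lit 27930052) (nat_lit 25473603) (nat_lit 109595295873))
(L (nat_lit 27997319)))
(L (nat_lit 27930146)))
(L (nat_lit 27676867)))
(L (nat_lit 27997378)))
(L (nat_lit 27931906)))
(L (nat_lit 12699993))))
(L (nat_lit 29047915)))
(L (nat_lit 5691241)))
(L (nat_lit 9341333)))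
(L (nat_lit 5848938)))
(L (nat_lit 8993635)))
(L (nat_lit 19766382)))
(L (nat_lit 23601208)))
(L (nat_lit 6139282)))
(L (nat_lit 24257420)))
(L (nat_lit 6073810)))
(L (nat_lit 7111187)))
(L (nat_lit 6816345)))
(L (nat_lit 21775681)))
(L (nat_lit 26947723)))
(L (nat_lit 7463315)))
(L (nat_lit 8194637)))
(L (nat_lit 18766954)))
(S (nat_lit 54235) (L (nat_lit 6444477))
(L (nat_lit 24469925))))
(L (nat_lit 25338291)))))
(L (nat_lit 25473044)))))
(L (nat_lit 25542771)))))
(S (nat_lit 37291) (S (nat_lit 1944) (S (nat_lit 8773) (S (nat_lit 1743) (S (nat_lit 15371) (S (nat_lit 20783) (S (nat_lit 972) (S (nat_lit 17510) (S (nat_lit 15340) (S (nat_lit 1290) (S (nat_lit 21527) (S (nat_lit 19811) (S (nat_lit 1034) (S (nat_lit 31) (S (nat_lit 17560) (S (nat_lit 20993) (S (nat_lit 1765) (S (nat_lit 37260) (S (nat_lit 1975) (S (nat_lit 29815) (S (nat_lit 58699) (S (nat_lit 19839) (S (nat_lit 38946) (S (nat_lit 29865) (S (nat_lit 11389) (S (nat_lit 23033)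 (S (nat_lit 50630) (D (nat_lit 15) (nat_lit 26877380) (nat_lit 25761160) (nat_lit 8727300167))
(L (nat_lit 19765665)))
(L (nat_lit 16117846)))
(S (nat_lit 31825) (S (nat_lit 14305) (S (nat_lit 15916) (D (nat_lit 15) (nat_lit 28394804) (nat_lit 19215107) (nat_lit 42010187971))
(L (nat_lit 28942481)))
(L (nat_lit 31047846)))
(L (nat_lit 14997312))))
(L (nat_lit 28823749)))
(L (nat_lit 27732151)))
(L (nat_lit 9137633)))
(L (nat_lit 7763027)))
(L (nat_lit 8280145)))
(L (nat_lit 20406410)))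
(L (nat_lit 4071087)))
(L (nat_lit 20888933)))
(L (nat_lit 15281305)))
(L (nat_lit 599824)))
(L (nat_lit 14503017)))
(L (nat_lit 14568553)))
(L (nat_lit 9094020)))
(L (nat_lit 748038)))
(L (nat_lit 19831949)))
(L (nat_lit 746796)))
(L (nat_lit 1851698)))
(L (nat_lit 13984356)))
(L (nat_lit 21767587)))
(L (nat_lit 663471)))
(S (nat_lit 21507) (S (nat_lit 172) (L (nat_lit 26230347))
(S (nat_lit 39592) (S (nat_lit 20783) (S (nat_lit 35098) (S (nat_lit 17510) (S (nat_lit 40564) (S (nat_lit 30774) (S (nat_lit 15371) (S (nat_lit 31) (S (nat_lit 8795) (S (nat_lit 58213) (S (nat_lit 28526) (S (nat_lit 19839) (S (nat_lit 17560) (S (nat_lit 21529) (S (nat_lit 1748) (S (nat_lit 49838) (S (nat_lit 18922) (S (nat_lit 30301) (S (nat_lit 50901) (S (nat_lit 52342) (S (nat_lit 23530) (D (nat_lit 15) (nat_lit 26873320) (nat_lit 25759053) (nat_lit 4570744899))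
(L (nat_lit 29012290)))
(L (nat_lit 29935812)))
(S (nat_lit 54568) (S (nat_lit 35454) (S (nat_lit 44798) (D (nat_lit 15) (nat_lit 27951405) (nat_lit 19664264) (nat_lit 39931907175))
(L (nat_lit 17746115)))
(L (nat_lit 19392770)))
(L (nat_lit 29887862))))
(L (nat_lit 22553661)))
(L (nat_lit 29511885)))
(L (nat_lit 28982595)))
(L (nat_lit 20444449)))
(L (nat_lit 7921748)))
(L (nat_lit 6883898)))
(L (nat_lit 2933043)))
(L (nat_lit 18047091)))
(L (nat_lit 7093427)))
(L (nat_lit 310941)))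
(L (nat_lit 6783861)))
(L (nat_lit 22536362)))
(L (nat_lit 3986705)))
(L (nat_lit 7395183)))
(L (nat_lit 22808876)))
(L (nat_lit 23996835)))
(S (nat_lit 53618) (L (nat_lit 1678907))
(L (nat_lit 16524899))))
(L (nat_lit 23863682))))
(S (nat_lit 41271) (S (nat_lit 1776) (S (nat_lit 48338) (S (nat_lit 28543) (L (nat_lit 28619859))
(L (nat_lit 30971986)))
(L (nat_lit 27891885)))
(S (nat_lit 21540) (S (nat_lit 40785) (S (nat_lit 30724) (S (nat_lit 15371) (S (nat_lit 39570) (S (nat_lit 39542) (S (nat_lit 37228) (S (nat_lit 17510) (S (nat_lit 20783) (S (nat_lit 20811) (S (nat_lit 48338) (S (nat_lit 21490) (S (nat_lit 37322) (S (nat_lit 8795) (S (nat_lit 1277) (S (nat_lit 19839) (S (nat_lit 21004) (S (nat_lit 50505) (S (nat_lit 48307) (S (nat_lit 27873) (S (nat_lit 53104) (S (nat_lit 31516) (S (nat_lit 32295) (S (nat_lit 35516) (S (nat_lit 42068) (D (nat_lit 13) (nat_lit 27935846) (nat_lit 8839749) (nat_lit 6707933711425))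
(L (nat_lit 19799554)))
(L (nat_lit 27903147)))
(L (nat_lit 20148641)))
(L (nat_lit 20856099)))
(L (nat_lit 30000417)))
(S (nat_lit 50595) (S (nat_lit 6936) (S (nat_lit 7179) (S (nat_lit 36516) (S (nat_lit 56206) (S (nat_lit 31052) (D (nat_lit 11) (nat_lit 27863214) (nat_lit 15294569) (nat_lit 177202168032))
(L (nat_lit 20213836)))
(L (nat_lit 870919)))
(L (nat_lit 27870313)))
(L (nat_lit 27870565)))
(L (nat_lit 27870564)))
(L (nat_lit 5122454))))
(L (nat_lit 5028425)))
(L (nat_lit 22311296)))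
(L (nat_lit 16319275)))
(L (nat_lit 9213581)))
(L (nat_lit 10498999)))
(L (nat_lit 7149197)))
(L (nat_lit 9208274)))
(L (nat_lit 21365976)))
(L (nat_lit 27611621)))
(L (nat_lit 730892)))
(L (nat_lit 15489097)))
(L (nat_lit 24949835)))
(L (nat_lit 16016467)))
(L (nat_lit 23290960)))
(L (nat_lit 23160140)))
(L (nat_lit 15271851)))
(L (nat_lit 10020450)))
(L (nat_lit 17865490)))
(S (nat_lit 41304) (S (nat_lit 17510) (S (nat_lit 30724) (S (nat_lit 28559) (L (nat_lit 19165357))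
(L (nat_lit 18113555)))
(L (nat_lit 16999602)))
(L (nat_lit 1890604)))
(L (nat_lit 25927693)))))
(L (nat_lit 25416228)))))
(S (nat_lit 28537) (S (nat_lit 8748) (S (nat_lit 19896) (S (nat_lit 40575) (L (nat_lit 4996435))
(L (nat_lit 18613618)))
(S (nat_lit 39570) (S (nat_lit 1432) (S (nat_lit 35098) (L (nat_lit 19169725))
(L (nat_lit 23936355)))
(S (nat_lit 40807) (S (nat_lit 21783) (S (nat_lit 40514) (L (nat_lit 8226323))
(L (nat_lit 27901097)))
(L (nat_lit 11010834)))
(L (nat_lit 24667302))))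
(L (nat_lit 18113715))))
(S (nat_lit 28512) (S (nat_lit 10935) (S (nat_lit 41514) (S (nat_lit 62) (S (nat_lit 37260) (S (nat_lit 28543) (S (nat_lit 41519) (L (nat_lit 20028985))
(L (nat_lit 18082368)))
(L (nat_lit 2694712)))
(L (nat_lit 20154257)))
(L (nat_lit 26740426)))
(L (nat_lit 23895116)))
(S (nat_lit 30699) (S (nat_lit 384) (L (nat_lit 9114138))
(S (nat_lit 37307) (S (nat_lit 40768) (S (nat_lit 41254) (L (nat_lit 8535675))
(L (nat_lit 27559662)))
(L (nat_lit 27369198)))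
(L (nat_lit 9987812))))
(S (nat_lit 50463) (S (nat_lit 51869) (L (nat_lit 18923398))
(S (nat_lit 54837) (S (nat_lit 19826) (S (nat_lit 20783) (L (nat_lit 17850985))
(L (nat_lit 21765505)))
(L (nat_lit 8914651)))
(L (nat_lit 19400614))))
(L (nat_lit 25221670)))))
(S (nat_lit 48276) (S (nat_lit 8795) (S (nat_lit 21512) (S (nat_lit 52830) (L (nat_lit 7012829))
(L (nat_lit 23299515)))
(S (nat_lit 58699) (L (nat_lit 8010940))
(L (nat_lit 683312))))
(S (nat_lit 28559) (S (nat_lit 972) (S (nat_lit 19828) (S (nat_lit 41519) (S (nat_lit 62) (S (nat_lit 40547) (L (nat_lit 7370165))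
(L (nat_lit 10258033)))
(L (nat_lit 13311165)))
(L (nat_lit 24371618)))
(S (nat_lit 25067) (L (nat_lit 15848230))
(L (nat_lit 8943203))))
(S (nat_lit 20673) (L (nat_lit 13771571))
(L (nat_lit 10905188))))
(S (nat_lit 48323) (S (nat_lit 972) (S (nat_lit 2019) (S (nat_lit 41276) (L (nat_lit 12486253))
(L (nat_lit 8413808)))
(L (nat_lit 19995500)))
(L (nat_lit 10936932)))
(L (nat_lit 25432597)))))
(L (nat_lit 25363926)))))
(S (nat_lit 48301) (S (nat_lit 1701) (S (nat_lit 40807) (S (nat_lit 972) (S (nat_lit 20800) (L (nat_lit 26940840))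
(L (nat_lit 22320568)))
(L (nat_lit 13918818)))
(L (nat_lit 23140796)))
(S (nat_lit 21465) (S (nat_lit 8790) (S (nat_lit 57099) (L (nat_lit 6690425))
(L (nat_lit 27858343)))
(L (nat_lit 403065)))
(S (nat_lit 41229) (S (nat_lit 972) (S (nat_lit 19811) (S (nat_lit 17510) (L (nat_lit 21234108))
(L (nat_lit 24340900)))
(L (nat_lit 9193060)))
(L (nat_lit 10937954)))
(L (nat_lit 25308562)))))
(L (nat_lit 25831596)))))
(S (nat_lit 21708) (S (nat_lit 8823) (S (nat_lit 25) (S (nat_lit 1986) (S (nat_lit 21479) (L (nat_lit 23502010))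
(L (nat_lit 7987683)))
(S (nat_lit 21750) (S (nat_lit 15371) (S (nat_lit 18337) (L (nat_lit 23160330))
(L (nat_lit 6742131)))
(S (nat_lit 46282) (L (nat_lit 311896))
(L (nat_lit 925263))))
(S (nat_lit 41514) (S (nat_lit 35529) (L (nat_lit 4908454))
(S (nat_lit 40564) (S (nat_lit 8773) (S (nat_lit 47) (S (nat_lit 40785) (L (nat_lit 6816379))
(L (nat_lit 512253)))
(L (nat_lit 13899356)))
(L (nat_lit 684456)))
(L (nat_lit 8077157))))
(L (nat_lit 25625874)))))
(S (nat_lit 19789) (S (nat_lit 10935) (S (nat_lit 20761) (S (nat_lit 41519) (L (nat_lit 21463353))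
(L (nat_lit 6351286)))
(L (nat_lit 16358520)))
(S (nat_lit 30699) (S (nat_lit 28543) (S (nat_lit 15371) (S (nat_lit 8790) (S (nat_lit 40542) (L (nat_lit 9897779))
(L (nat_lit 23566397)))
(L (nat_lit 26626215)))
(L (nat_lit 6808756)))
(L (nat_lit 8947453)))
(S (nat_lit 50463) (S (nat_lit 17212) (L (nat_lit 7127219))
(S (nat_lit 40500) (S (nat_lit 30713) (S (nat_lit 42) (L (nat_lit 26228019))
(L (nat_lit 26497197)))
(L (nat_lit 9139621)))
(L (nat_lit 1452915))))
(L (nat_lit 25219623)))))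
(S (nat_lit 39553) (S (nat_lit 8762) (S (nat_lit 40562) (S (nat_lit 15340) (S (nat_lit 40807) (L (nat_lit 320950))
(L (nat_lit 872875)))
(L (nat_lit 6929218)))
(L (nat_lit 23312193)))
(S (nat_lit 28526) (S (nat_lit 21465) (S (nat_lit 20979) (L (nat_lit 30448050))
(L (nat_lit 6690396)))
(L (nat_lit 405084)))
(S (nat_lit 48290) (S (nat_lit 13518) (L (nat_lit 23174556))
(S (nat_lit 17571) (S (nat_lit 50538) (S (nat_lit 50488) (S (nat_lit 62) (S (nat_lit 19828) (S (nat_lit 39575) (S (nat_lit 17543) (S (nat_lit 8795) (S (nat_lit 57066) (S (nat_lit 1969) (S (nat_lit 50510) (S (nat_lit 11054) (S (nat_lit 38848) (S (nat_lit 30860) (S (nat_lit 37876) (L (nat_lit 3489403))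
(L (nat_lit 26849572)))
(L (nat_lit 20754757)))
(L (nat_lit 26849603)))
(S (nat_lit 27458) (L (nat_lit 1323740))
(L (nat_lit 9563699))))
(L (nat_lit 27798579)))
(L (nat_lit 6038255)))
(L (nat_lit 11137408)))
(L (nat_lit 6886159)))
(L (nat_lit 6820628)))
(L (nat_lit 11427236)))
(L (nat_lit 8574392)))
(L (nat_lit 1429020)))
(L (nat_lit 22221212)))
(L (nat_lit 27962479)))
(L (nat_lit 666040))))
(L (nat_lit 25708805)))))
(L (nat_lit 25412291)))))
(S (nat_lit 28587) (S (nat_lit 15309) (S (nat_lit 1553) (S (nat_lit 40600) (L (nat_lit 11986496))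
(L (nat_lit 30857323)))
(S (nat_lit 54912) (S (nat_lit 20761) (S (nat_lit 30713) (S (nat_lit 19778) (S (nat_lit 31) (S (nat_lit 41514) (S (nat_lit 37260) (S (nat_lit 20783) (S (nat_lit 21770) (S (nat_lit 1969) (S (nat_lit 1014) (S (nat_lit 35087) (S (nat_lit 48307) (S (nat_lit 8762) (S (nat_lit 21739) (S (nat_lit 28537) (S (nat_lit 48338) (S (nat_lit 39575) (S (nat_lit 40500) (S (nat_lit 62) (S (nat_lit 48276) (S (nat_lit 54862) (S (nat_lit 35115) (S (nat_lit 2323) (S (nat_lit 32876) (S (nat_lit 31630) (S (nat_lit 8635) (S (nat_lit 35172) (S (nat_lit 12993) (S (nat_lit 44822) (S (nat_lit 30100) (S (nat_lit 35916) (S (nat_lit 47694) (D (nat_lit 13) (nat_lit 27854161) (nat_lit 9188931) (nat_lit 6706827498561))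
(L (nat_lit 28948651)))
(L (nat_lit 28950817)))
(S (nat_lit 52106) (S (nat_lit 22293) (S (nat_lit 12264) (D (nat_lit 11) (nat_lit 26804646) (nat_lit 5846392) (nat_lit 104395246822))
(L (nat_lit 28858597)))
(L (nat_lit 28793060)))
(L (nat_lit 13703928))))
(L (nat_lit 30065801)))
(L (nat_lit 24666371)))
(L (nat_lit 11016023)))
(L (nat_lit 15008599)))
(L (nat_lit 27433712)))
(L (nat_lit 27446608)))
(S (nat_lit 11170) (S (nat_lit 4565) (S (nat_lit 36035) (S (nat_lit 37164) (S (nat_lit 43563) (S (nat_lit 56699) (S (nat_lit 4543) (S (nat_lit 11032) (S (nat_lit 11277) (S (nat_lit 44347) (D (nat_lit 15) (nat_lit 27926609) (nat_lit 16330497) (nat_lit 35634978849))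
(L (nat_lit 21406596)))
(S (nat_lit 41243) (S (nat_lit 6067) (S (nat_lit 36247) (D (nat_lit 13) (nat_lit 27857136) (nat_lit 15950405) (nat_lit 3408330395682))
(L (nat_lit 27903332)))
(L (nat_lit 31142179)))
(L (nat_lit 24259064))))
(L (nat_lit 19369339)))
(L (nat_lit 12092340)))
(L (nat_lit 28967183)))
(L (nat_lit 29040165)))
(L (nat_lit 28974629)))
(L (nat_lit 15576114)))
(L (nat_lit 12904036)))
(S (nat_lit 21507) (S (nat_lit 58916) (S (nat_lit 19642) (S (nat_lit 49152) (S (nat_lit 49124) (S (nat_lit 1763) (S (nat_lit 31127) (S (nat_lit 11654) (S (nat_lit 42784) (D (nat_lit 15) (nat_lit 31040657) (nat_lit 25761162) (nat_lit 105467974817))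
(L (nat_lit 14944085)))
(L (nat_lit 29992322)))
(S (nat_lit 56022) (S (nat_lit 12626) (S (nat_lit 7937) (D (nat_lit 15) (nat_lit 29509355) (nat_lit 19149944) (nat_lit 74356690022))
(L (nat_lit 27902985)))
(L (nat_lit 29990340)))
(L (nat_lit 23267771))))
(L (nat_lit 12805239)))
(L (nat_lit 21534810)))
(L (nat_lit 21470084)))
(L (nat_lit 6341242)))
(L (nat_lit 7403058)))
(L (nat_lit 22362170)))))
(L (nat_lit 10063726)))
(L (nat_lit 19097740)))
(L (nat_lit 27924526)))
(L (nat_lit 8075173)))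
(L (nat_lit 1699148)))
(L (nat_lit 18754117)))
(L (nat_lit 16423064)))
(L (nat_lit 10108061)))
(L (nat_lit 16393373)))
(L (nat_lit 1304979)))
(L (nat_lit 20840841)))
(L (nat_lit 9323636)))
(L (nat_lit 9287795)))
(L (nat_lit 14474497)))
(L (nat_lit 22851840)))
(L (nat_lit 16701513)))
(L (nat_lit 23993824)))
(L (nat_lit 23993421)))
(L (nat_lit 14523508)))
(L (nat_lit 2544953)))
(L (nat_lit 2318926)))
(L (nat_lit 22471968)))
(L (nat_lit 21773414))))
(S (nat_lit 35073) (S (nat_lit 997) (S (nat_lit 40768) (L (nat_lit 23524645))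
(L (nat_lit 18422812)))
(S (nat_lit 20761) (S (nat_lit 41486) (S (nat_lit 28537) (S (nat_lit 20783) (S (nat_lit 30741) (L (nat_lit 13211834))
(L (nat_lit 9172352)))
(L (nat_lit 30901591)))
(L (nat_lit 8447601)))
(L (nat_lit 23469858)))
(S (nat_lit 40525) (S (nat_lit 40757) (L (nat_lit 9889379))
(S (nat_lit 46661) (S (nat_lit 35104) (L (nat_lit 14944055))
(L (nat_lit 18777398)))
(L (nat_lit 23332312))))
(L (nat_lit 25756911)))))
(S (nat_lit 54837) (S (nat_lit 10999) (S (nat_lit 15373) (S (nat_lit 15340) (S (nat_lit 20750) (S (nat_lit 8762) (L (nat_lit 1332666))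
(L (nat_lit 8162867)))
(L (nat_lit 343991)))
(L (nat_lit 637242)))
(S (nat_lit 32818) (L (nat_lit 422600))
(L (nat_lit 927190))))
(S (nat_lit 30763) (S (nat_lit 19778) (S (nat_lit 17543) (S (nat_lit 41486) (S (nat_lit 50510) (S (nat_lit 8762) (S (nat_lit 17571) (S (nat_lit 25345) (L (nat_lit 5585531))
(L (nat_lit 29826229)))
(L (nat_lit 346959)))
(L (nat_lit 1600074)))
(L (nat_lit 27529715)))
(L (nat_lit 9036848)))
(L (nat_lit 18109221)))
(L (nat_lit 31014180)))
(S (nat_lit 50527) (S (nat_lit 16231) (L (nat_lit 25016425))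
(S (nat_lit 57038) (S (nat_lit 40500) (S (nat_lit 50538) (S (nat_lit 30741) (S (nat_lit 41293) (L (nat_lit 24481211))
(L (nat_lit 27368885)))
(L (nat_lit 8943200)))
(L (nat_lit 15062816)))
(L (nat_lit 7992396)))
(L (nat_lit 21554283))))
(L (nat_lit 25804809)))))
(L (nat_lit 25691381)))))
(S (nat_lit 48351) (S (nat_lit 10935) (S (nat_lit 41514) (S (nat_lit 41486) (S (nat_lit 24533) (L (nat_lit 24620153))
(S (nat_lit 37322) (S (nat_lit 48323) (S (nat_lit 62) (S (nat_lit 31) (S (nat_lit 21739) (S (nat_lit 37260) (S (nat_lit 15373) (L (nat_lit 9325614))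
(S (nat_lit 35137) (S (nat_lit 39603) (S (nat_lit 28576) (S (nat_lit 25522) (L (nat_lit 3491515))
(L (nat_lit 19394754)))
(L (nat_lit 24552259)))
(L (nat_lit 18557728)))
(S (nat_lit 54901) (S (nat_lit 30763) (S (nat_lit 15334) (S (nat_lit 28526) (S (nat_lit 17521) (S (nat_lit 8748) (S (nat_lit 37429) (L (nat_lit 5774971))
(L (nat_lit 18587424)))
(L (nat_lit 827088)))
(L (nat_lit 807368)))
(L (nat_lit 18571525)))
(L (nat_lit 7093427)))
(L (nat_lit 13983618)))
(L (nat_lit 25496022)))))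
(L (nat_lit 30653461)))
(L (nat_lit 10538767)))
(L (nat_lit 20808975)))
(L (nat_lit 20487325)))
(L (nat_lit 13947930)))
(L (nat_lit 23528235))))
(L (nat_lit 18718336)))
(L (nat_lit 933139)))
(S (nat_lit 30699) (S (nat_lit 17521) (S (nat_lit 870) (L (nat_lit 9176563))
(S (nat_lit 20778) (S (nat_lit 14) (S (nat_lit 20783) (S (nat_lit 15384) (L (nat_lit 18477163))
(L (nat_lit 965911)))
(L (nat_lit 16516713)))
(L (nat_lit 7093334)))
(L (nat_lit 15917298))))
(S (nat_lit 37285) (S (nat_lit 20783) (S (nat_lit 40757) (S (nat_lit 41243) (L (nat_lit 28908717))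
(L (nat_lit 8787862)))
(L (nat_lit 2502550)))
(S (nat_lit 51819) (L (nat_lit 6405821))
(L (nat_lit 12322417))))
(S (nat_lit 57049) (S (nat_lit 1240) (S (nat_lit 28526) (L (nat_lit 28887330))
(L (nat_lit 19084196)))
(S (nat_lit 21004) (S (nat_lit 40562) (L (nat_lit 29080647))
(L (nat_lit 27996265)))
(S (nat_lit 40768) (S (nat_lit 40500) (S (nat_lit 40525) (L (nat_lit 9562704))
(L (nat_lit 1696299)))
(L (nat_lit 2017549)))
(L (nat_lit 25601764)))))
(L (nat_lit 25368205)))))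
(S (nat_lit 50463) (S (nat_lit 8810) (S (nat_lit 20783) (S (nat_lit 18598) (L (nat_lit 26778771))
(L (nat_lit 6719350)))
(S (nat_lit 43648) (L (nat_lit 18586681))
(L (nat_lit 22814113))))
(S (nat_lit 28574) (S (nat_lit 15371) (S (nat_lit 49713) (L (nat_lit 12743239))
(L (nat_lit 29853291)))
(S (nat_lit 31559) (L (nat_lit 19406689))
(L (nat_lit 22977956))))
(S (nat_lit 48338) (S (nat_lit 19839) (S (nat_lit 40500) (S (nat_lit 17571) (S (nat_lit 21733) (L (nat_lit 3578616))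
(L (nat_lit 7990817)))
(L (nat_lit 15913830)))
(L (nat_lit 27898116)))
(L (nat_lit 16114771)))
(L (nat_lit 25659050)))))
(L (nat_lit 25658614)))))
(L (nat_lit 25345607)))))
(S (nat_lit 41472) (S (nat_lit 1246) (S (nat_lit 8779) (S (nat_lit 10977) (S (nat_lit 21465) (S (nat_lit 21529) (L (nat_lit 26303792))
(L (nat_lit 829844)))
(L (nat_lit 599452)))
(S (nat_lit 30741) (S (nat_lit 40525) (S (nat_lit 20783) (L (nat_lit 23454115))
(L (nat_lit 7079318)))
(L (nat_lit 24535142)))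
(S (nat_lit 50505) (S (nat_lit 35073) (S (nat_lit 19811) (S (nat_lit 40525) (L (nat_lit 1950282))
(L (nat_lit 24381263)))
(L (nat_lit 21095851)))
(L (nat_lit 9264641)))
(L (nat_lit 25692532)))))
(S (nat_lit 28543) (S (nat_lit 30208) (L (nat_lit 16376841))
(S (nat_lit 41293) (S (nat_lit 11398) (L (nat_lit 3597590))
(S (nat_lit 21026) (S (nat_lit 15371) (S (nat_lit 40562) (L (nat_lit 30495143))
(L (nat_lit 23865457)))
(L (nat_lit 6882223)))
(L (nat_lit 22060475))))
(L (nat_lit 23127434))))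
(S (nat_lit 48307) (S (nat_lit 18337) (S (nat_lit 21021) (L (nat_lit 15927222))
(L (nat_lit 7243500)))
(S (nat_lit 48338) (S (nat_lit 1732) (S (nat_lit 20783) (S (nat_lit 31) (S (nat_lit 1277) (S (nat_lit 20761) (S (nat_lit 37322) (S (nat_lit 20798) (S (nat_lit 41534) (S (nat_lit 48340) (S (nat_lit 37274) (S (nat_lit 48318) (S (nat_lit 38198) (S (nat_lit 50100) (S (nat_lit 50122) (S (nat_lit 10949) (S (nat_lit 38176) (S (nat_lit 38151) (S (nat_lit 34537) (S (nat_lit 25303) (S (nat_lit 55236) (D (nat_lit 15) (nat_lit 7096428) (nat_lit 25759114) (nat_lit 213845542120))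
(L (nat_lit 22882350)))
(L (nat_lit 27933892)))
(S (nat_lit 36886) (S (nat_lit 30875) (S (nat_lit 3773) (S (nat_lit 56180) (D (nat_lit 15) (nat_lit 4116939) (nat_lit 14836294) (nat_lit 108486919398))
(L (nat_lit 28942853)))
(L (nat_lit 27828837)))
(L (nat_lit 27773187)))
(L (nat_lit 13805272))))
(L (nat_lit 24683330)))
(L (nat_lit 22373829)))
(L (nat_lit 23634044)))
(L (nat_lit 28592241)))
(L (nat_lit 28913923)))
(L (nat_lit 22406284)))
(L (nat_lit 22580603)))
(L (nat_lit 9309618)))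
(L (nat_lit 22515625)))
(L (nat_lit 7155798)))
(L (nat_lit 6834299)))
(L (nat_lit 17603730)))
(L (nat_lit 6743157)))
(L (nat_lit 26290896)))
(L (nat_lit 1762607)))
(L (nat_lit 16680553)))
(L (nat_lit 20821162)))
(L (nat_lit 27690355))))
(L (nat_lit 25761873)))))
(S (nat_lit 21010) (S (nat_lit 10999) (S (nat_lit 1277) (S (nat_lit 39592) (L (nat_lit 6415795))
(L (nat_lit 23412578)))
(S (nat_lit 21041) (S (nat_lit 8810) (S (nat_lit 10949) (S (nat_lit 15371) (L (nat_lit 26837293))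
(L (nat_lit 604540)))
(L (nat_lit 18549610)))
(S (nat_lit 9620) (S (nat_lit 10960) (S (nat_lit 41276) (S (nat_lit 41254) (S (nat_lit 41486) (S (nat_lit 9572) (S (nat_lit 75) (S (nat_lit 15371) (S (nat_lit 10949) (S (nat_lit 9633) (S (nat_lit 41497) (S (nat_lit 9600) (S (nat_lit 21026) (S (nat_lit 37307) (S (nat_lit 62) (S (nat_lit 37274) (S (nat_lit 15340) (S (nat_lit 19130) (S (nat_lit 41534) (S (nat_lit 20761) (S (nat_lit 11122) (S (nat_lit 11161) (S (nat_lit 56731) (S (nat_lit 34531) (S (nat_lit 36126) (D (nat_lit 13) (nat_lit 3037486) (nat_lit 25545251) (nat_lit 69964273891))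
(L (nat_lit 1988040)))
(L (nat_lit 27576869)))
(L (nat_lit 29992484)))
(L (nat_lit 29992418)))
(S (nat_lit 22074) (S (nat_lit 15496) (S (nat_lit 52390) (S (nat_lit 32037) (S (nat_lit 25789) (D (nat_lit 13) (nat_lit 7096398) (nat_lit 25767461) (nat_lit 74125023335))
(L (nat_lit 27960741)))
(L (nat_lit 22457434)))
(L (nat_lit 30061860)))
(L (nat_lit 30127458)))
(L (nat_lit 12202138))))
(L (nat_lit 31006208)))
(L (nat_lit 24913410)))
(L (nat_lit 30055534)))
(L (nat_lit 277114)))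
(L (nat_lit 24002853)))
(L (nat_lit 583031)))
(L (nat_lit 23865388)))
(L (nat_lit 16515689)))
(L (nat_lit 18684512)))
(L (nat_lit 18148036)))
(L (nat_lit 18785398)))
(L (nat_lit 18636068)))
(L (nat_lit 15276221)))
(L (nat_lit 738617)))
(L (nat_lit 2830189)))
(L (nat_lit 27690230)))
(L (nat_lit 27690695)))
(L (nat_lit 27592304)))
(L (nat_lit 17887607)))
(L (nat_lit 6719100))))
(S (nat_lit 40805) (S (nat_lit 15356) (S (nat_lit 40564) (S (nat_lit 8812) (L (nat_lit 2415037))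
(L (nat_lit 6931483)))
(L (nat_lit 27311718)))
(L (nat_lit 868075)))
(L (nat_lit 25894929)))))
(S (nat_lit 30763) (S (nat_lit 15373) (S (nat_lit 41271) (S (nat_lit 8773) (S (nat_lit 39592) (L (nat_lit 26393810))
(L (nat_lit 24277385)))
(L (nat_lit 7018417)))
(L (nat_lit 17700553)))
(S (nat_lit 35137) (S (nat_lit 15371) (S (nat_lit 39553) (S (nat_lit 15351) (L (nat_lit 26641096))
(L (nat_lit 7025568)))
(L (nat_lit 24567977)))
(L (nat_lit 597935)))
(S (nat_lit 54901) (S (nat_lit 15371) (S (nat_lit 30746) (S (nat_lit 48338) (L (nat_lit 4908521))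
(L (nat_lit 27401837)))
(L (nat_lit 19837156)))
(S (nat_lit 51390) (S (nat_lit 48338) (L (nat_lit 800393))
(L (nat_lit 27762277)))
(L (nat_lit 6718109))))
(L (nat_lit 25316561)))))
(S (nat_lit 50527) (S (nat_lit 1715) (S (nat_lit 1240) (S (nat_lit 41254) (L (nat_lit 29989253))
(L (nat_lit 6938735)))
(L (nat_lit 14257062)))
(S (nat_lit 21479) (S (nat_lit 8858) (L (nat_lit 23174927))
(S (nat_lit 40768) (S (nat_lit 15371) (S (nat_lit 20783) (S (nat_lit 8812) (L (nat_lit 29739490))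
(L (nat_lit 1688827)))
(L (nat_lit 7095907)))
(L (nat_lit 7788452)))
(L (nat_lit 10027791))))
(S (nat_lit 41243) (S (nat_lit 20778) (S (nat_lit 35115) (S (nat_lit 35098) (L (nat_lit 31044777))
(L (nat_lit 24001891)))
(L (nat_lit 23360928)))
(L (nat_lit 7257794)))
(L (nat_lit 25253105)))))
(L (nat_lit 25643203)))))
(S (nat_lit 40774) (S (nat_lit 1701) (S (nat_lit 31) (S (nat_lit 15340) (S (nat_lit 10977) (S (nat_lit 28587) (S (nat_lit 10949) (L (nat_lit 21764207))
(L (nat_lit 805290)))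
(L (nat_lit 2995782)))
(L (nat_lit 309172)))
(L (nat_lit 26303788)))
(S (nat_lit 19795) (S (nat_lit 40805) (S (nat_lit 41291) (L (nat_lit 6371187))
(L (nat_lit 23343226)))
(L (nat_lit 27341110)))
(S (nat_lit 39559) (S (nat_lit 8779) (S (nat_lit 40807) (L (nat_lit 7792227))
(L (nat_lit 18146916)))
(L (nat_lit 21259372)))
(L (nat_lit 25447875)))))
(S (nat_lit 21465) (S (nat_lit 40419) (S (nat_lit 22853) (L (nat_lit 11436657))
(L (nat_lit 8544877)))
(S (nat_lit 40743) (S (nat_lit 20783) (S (nat_lit 15384) (S (nat_lit 48338) (S (nat_lit 20736) (S (nat_lit 64) (S (nat_lit 15334) (S (nat_lit 62) (S (nat_lit 9134) (S (nat_lit 14) (S (nat_lit 21507) (S (nat_lit 10982) (S (nat_lit 18219) (S (nat_lit 31) (S (nat_lit 37274) (S (nat_lit 48318) (S (nat_lit 40805) (S (nat_lit 26453) (S (nat_lit 56775) (S (nat_lit 42589) (S (nat_lit 36902) (S (nat_lit 11016) (D (nat_lit 13) (nat_lit 8147331) (nat_lit 25765039) (nat_lit 41949596869))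
(L (nat_lit 27775168)))
(L (nat_lit 19440515)))
(L (nat_lit 19744069)))
(L (nat_lit 29965635)))
(S (nat_lit 51672) (S (nat_lit 31777) (S (nat_lit 15513) (S (nat_lit 26001) (D (nat_lit 13) (nat_lit 7162892) (nat_lit 25767025) (nat_lit 74125023335))
(L (nat_lit 19198499)))
(L (nat_lit 29762741)))
(L (nat_lit 22884645)))
(L (nat_lit 5002666))))
(L (nat_lit 23164209)))
(L (nat_lit 14567591)))
(L (nat_lit 23295397)))
(L (nat_lit 1369774)))
(L (nat_lit 29950470)))
(L (nat_lit 26651699)))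
(L (nat_lit 699244)))
(L (nat_lit 6745175)))
(L (nat_lit 24551329)))
(L (nat_lit 8095632)))
(L (nat_lit 24352187)))
(L (nat_lit 12970595)))
(L (nat_lit 6746724)))
(L (nat_lit 27696740)))
(L (nat_lit 6788729)))
(L (nat_lit 30606775)))
(L (nat_lit 601004))))
(S (nat_lit 41229) (S (nat_lit 15334) (S (nat_lit 41276) (S (nat_lit 40757) (L (nat_lit 18776274))
(L (nat_lit 18477193)))
(L (nat_lit 27493814)))
(S (nat_lit 35098) (S (nat_lit 8790) (S (nat_lit 40575) (L (nat_lit 18415837))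
(L (nat_lit 17948029)))
(L (nat_lit 7200160)))
(S (nat_lit 54862) (S (nat_lit 48338) (S (nat_lit 1036) (L (nat_lit 11436621))
(L (nat_lit 9109947)))
(L (nat_lit 20782501)))
(L (nat_lit 25214601)))))
(L (nat_lit 25545090)))))
(L (nat_lit 25859438)))))
(L (nat_lit 25529779)))))
(S (nat_lit 57055) (S (nat_lit 17571) (S (nat_lit 1262) (S (nat_lit 15371) (S (nat_lit 20783) (S (nat_lit 8790) (S (nat_lit 15340) (S (nat_lit 972) (S (nat_lit 57024) (S (nat_lit 1290) (S (nat_lit 28574) (S (nat_lit 50505) (S (nat_lit 31) (S (nat_lit 30148) (S (nat_lit 50477) (S (nat_lit 1975) (S (nat_lit 39570) (S (nat_lit 30170) (S (nat_lit 41276) (S (nat_lit 38613) (S (nat_lit 48301) (S (nat_lit 49901) (S (nat_lit 18863) (S (nat_lit 24714) (S (nat_lit 31273) (S (nat_lit 43611) (D (nat_lit 15) (nat_lit 26876046) (nat_lit 25761194) (nat_lit 5609883716))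
(L (nat_lit 30027237)))
(L (nat_lit 13455684)))
(S (nat_lit 27707) (S (nat_lit 5467) (S (nat_lit 35301) (D (nat_lit 15) (nat_lit 27926604) (nat_lit 25759112) (nat_lit 210520710373))
(L (nat_lit 27865348)))
(L (nat_lit 28980581)))
(L (nat_lit 13436486))))
(L (nat_lit 23151529)))
(L (nat_lit 11236737)))
(L (nat_lit 5911929)))
(L (nat_lit 26527331)))
(L (nat_lit 27778182)))
(L (nat_lit 30131270)))
(L (nat_lit 5956941)))
(L (nat_lit 19030471)))
(L (nat_lit 15411076)))
(L (nat_lit 27925925)))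
(L (nat_lit 19390722)))
(L (nat_lit 4728443)))
(L (nat_lit 19693995)))
(L (nat_lit 14360389)))
(L (nat_lit 5742455)))
(L (nat_lit 26479027)))
(L (nat_lit 7923299)))
(L (nat_lit 7167393)))
(L (nat_lit 662969)))
(L (nat_lit 925108)))
(S (nat_lit 21026) (S (nat_lit 20783) (S (nat_lit 41293) (S (nat_lit 15340) (S (nat_lit 15371) (S (nat_lit 8790) (S (nat_lit 20761) (S (nat_lit 31) (S (nat_lit 20811) (S (nat_lit 62) (S (nat_lit 57086) (S (nat_lit 41486) (S (nat_lit 21512) (S (nat_lit 41271) (S (nat_lit 8943) (S (nat_lit 8812) (S (nat_lit 28574) (S (nat_lit 21783) (S (nat_lit 40514) (S (nat_lit 19839) (S (nat_lit 35098) (S (nat_lit 56902) (S (nat_lit 1975) (S (nat_lit 28449) (S (nat_lit 1003) (S (nat_lit 24502) (S (nat_lit 31120) (S (nat_lit 36488) (S (nat_lit 5014) (S (nat_lit 31170) (S (nat_lit 23361) (S (nat_lit 35759) (D (nat_lit 11) (nat_lit 27861445) (nat_lit 25610595) (nat_lit 180527110278))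
(L (nat_lit 27996484)))
(L (nat_lit 27918825)))
(L (nat_lit 27664965)))
(L (nat_lit 27996356)))
(L (nat_lit 27996516)))
(L (nat_lit 27932004)))
(S (nat_lit 26978) (S (nat_lit 12604) (S (nat_lit 55054) (S (nat_lit 55297) (S (nat_lit 13740) (S (nat_lit 8219) (D (nat_lit 11) (nat_lit 26870216) (nat_lit 19673195) (nat_lit 106577363136))
(L (nat_lit 29875557)))
(L (nat_lit 28000581)))
(L (nat_lit 12940470)))
(L (nat_lit 12940435)))
(L (nat_lit 31174882)))
(L (nat_lit 23082761))))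
(L (nat_lit 10674644)))
(L (nat_lit 8077185)))
(L (nat_lit 6104751)))
(L (nat_lit 746920)))
(L (nat_lit 23531896)))
(L (nat_lit 16084082)))
(L (nat_lit 3567831)))
(L (nat_lit 1830124)))
(L (nat_lit 25003341)))
(L (nat_lit 650481)))
(L (nat_lit 29957294)))
(L (nat_lit 25042468)))
(L (nat_lit 968294)))
(L (nat_lit 2498232)))
(L (nat_lit 13180056)))
(L (nat_lit 565175)))
(L (nat_lit 21863906)))
(L (nat_lit 18947918)))
(L (nat_lit 925390)))
(L (nat_lit 864871)))
(L (nat_lit 22945189)))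
(L (nat_lit 26779234)))
(L (nat_lit 1908335)))
(L (nat_lit 21765537)))
(S (nat_lit 40790) (S (nat_lit 20783) (S (nat_lit 28574) (S (nat_lit 21529) (S (nat_lit 15340) (S (nat_lit 15371) (S (nat_lit 8790) (S (nat_lit 39592) (S (nat_lit 41514) (S (nat_lit 21479) (S (nat_lit 19811) (S (nat_lit 10205) (S (nat_lit 30774) (S (nat_lit 17543) (S (nat_lit 21010) (S (nat_lit 10174) (S (nat_lit 19839) (S (nat_lit 58586) (S (nat_lit 16218) (S (nat_lit 31080) (S (nat_lit 42611) (D (nat_lit 15) (nat_lit 28999981) (nat_lit 19666312) (nat_lit 43052472516))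
(L (nat_lit 18794691)))
(L (nat_lit 20410626)))
(S (nat_lit 47013) (S (nat_lit 45735) (S (nat_lit 15975) (D (nat_lit 15) (nat_lit 31108512) (nat_lit 25759146) (nat_lit 104427786370))
(L (nat_lit 29903045)))
(L (nat_lit 19806405)))
(L (nat_lit 29381128))))
(L (nat_lit 30972515)))
(L (nat_lit 22550438)))
(L (nat_lit 29950502)))
(L (nat_lit 21195233)))
(L (nat_lit 8066830)))
(L (nat_lit 3794343)))
(L (nat_lit 29786727)))
(L (nat_lit 3425915)))
(L (nat_lit 939248)))
(L (nat_lit 670941)))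
(L (nat_lit 27638370)))
(L (nat_lit 7465584)))
(L (nat_lit 24256399)))
(L (nat_lit 26615491)))
(L (nat_lit 6069871)))
(L (nat_lit 17997433)))
(L (nat_lit 15900281)))
(L (nat_lit 25206384)))))
(S (nat_lit 37335) (S (nat_lit 14) (S (nat_lit 10999) (S (nat_lit 15309) (S (nat_lit 29441) (L (nat_lit 1850674))
(S (nat_lit 41497) (S (nat_lit 15323) (S (nat_lit 20811) (S (nat_lit 28512) (S (nat_lit 28559) (L (nat_lit 16411687))
(L (nat_lit 18441444)))
(L (nat_lit 18750144)))
(L (nat_lit 21202701)))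
(L (nat_lit 7886940)))
(L (nat_lit 2693657))))
(S (nat_lit 35073) (S (nat_lit 15356) (S (nat_lit 14724) (L (nat_lit 23593211))
(S (nat_lit 40790) (S (nat_lit 46788) (L (nat_lit 11322548))
(L (nat_lit 16653920)))
(L (nat_lit 23207352))))
(L (nat_lit 6927420)))
(S (nat_lit 54837) (S (nat_lit 12852) (L (nat_lit 11985043))
(S (nat_lit 15356) (S (nat_lit 20778) (S (nat_lit 20783) (S (nat_lit 28587) (S (nat_lit 1240) (L (nat_lit 29819558))
(L (nat_lit 8511002)))
(L (nat_lit 31036688)))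
(L (nat_lit 30606774)))
(L (nat_lit 30620787)))
(L (nat_lit 6705924))))
(L (nat_lit 25933830)))))
(S (nat_lit 30763) (S (nat_lit 41514) (S (nat_lit 40785) (S (nat_lit 41271) (L (nat_lit 3022258))
(L (nat_lit 1973811)))
(L (nat_lit 8259123)))
(L (nat_lit 839949)))
(S (nat_lit 50527) (S (nat_lit 1991) (S (nat_lit 30713) (S (nat_lit 17510) (S (nat_lit 17521) (L (nat_lit 6687451))
(L (nat_lit 8139394)))
(L (nat_lit 26413492)))
(S (nat_lit 35954) (L (nat_lit 26715778))
(L (nat_lit 14311717))))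
(S (nat_lit 21755) (S (nat_lit 15371) (S (nat_lit 41472) (S (nat_lit 28587) (L (nat_lit 23956784))
(L (nat_lit 24306960)))
(L (nat_lit 7255154)))
(L (nat_lit 26706258)))
(S (nat_lit 41519) (S (nat_lit 31) (S (nat_lit 20800) (L (nat_lit 23555177))
(L (nat_lit 7131552)))
(L (nat_lit 7005667)))
(L (nat_lit 25221424)))))
(L (nat_lit 25544717)))))
(S (nat_lit 19778) (S (nat_lit 10999) (S (nat_lit 8810) (S (nat_lit 15340) (S (nat_lit 40356) (L (nat_lit 14556771))
(L (nat_lit 30737843)))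
(L (nat_lit 6940195)))
(S (nat_lit 28574) (S (nat_lit 15340) (S (nat_lit 20783) (S (nat_lit 31) (S (nat_lit 21490) (L (nat_lit 385525))
(L (nat_lit 21840128)))
(L (nat_lit 20209775)))
(L (nat_lit 7243377)))
(S (nat_lit 32139) (L (nat_lit 1686845))
(L (nat_lit 647721))))
(S (nat_lit 48338) (S (nat_lit 41254) (S (nat_lit 40768) (L (nat_lit 405208))
(L (nat_lit 27368981)))
(L (nat_lit 27559445)))
(L (nat_lit 25805124)))))
(S (nat_lit 30763) (S (nat_lit 41514) (S (nat_lit 37307) (S (nat_lit 30741) (S (nat_lit 19828) (S (nat_lit 57086) (S (nat_lit 41486) (S (nat_lit 19806) (S (nat_lit 37285) (S (nat_lit 1991) (S (nat_lit 62) (S (nat_lit 2019) (S (nat_lit 10935) (S (nat_lit 17510) (S (nat_lit 31) (S (nat_lit 21770) (S (nat_lit 39575) (S (nat_lit 50488) (S (nat_lit 50538) (S (nat_lit 50510) (S (nat_lit 57024) (S (nat_lit 986) (S (nat_lit 40500) (S (nat_lit 20783) (S (nat_lit 7481) (S (nat_lit 36131) (S (nat_lit 47992) (L (nat_lit 5619289))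
(L (nat_lit 26982625)))
(L (nat_lit 26982593)))
(S (nat_lit 8795) (S (nat_lit 28543) (S (nat_lit 15340) (S (nat_lit 8823) (S (nat_lit 8773) (S (nat_lit 15309) (S (nat_lit 15371) (S (nat_lit 35087) (S (nat_lit 48290) (S (nat_lit 15651) (S (nat_lit 52134) (S (nat_lit 2908) (S (nat_lit 51565) (S (nat_lit 51596) (S (nat_lit 25467) (S (nat_lit 14984) (S (nat_lit 57850) (S (nat_lit 10894) (D (nat_lit 15) (nat_lit 31166856) (nat_lit 25759114) (nat_lit 104428836000))
(L (nat_lit 31170084)))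
(L (nat_lit 29016357)))
(S (nat_lit 27289) (S (nat_lit 54796) (D (nat_lit 13) (nat_lit 9528909) (nat_lit 11290735) (nat_lit 7839626202272))
(L (nat_lit 26849539)))
(L (nat_lit 23119750))))
(L (nat_lit 24495194)))
(L (nat_lit 9089114)))
(L (nat_lit 9155460)))
(L (nat_lit 24475076)))
(L (nat_lit 29904130)))
(S (nat_lit 30625) (S (nat_lit 24285) (S (nat_lit 36004) (S (nat_lit 15196) (S (nat_lit 42635) (S (nat_lit 30798) (S (nat_lit 37136) (S (nat_lit 19073) (S (nat_lit 31542) (S (nat_lit 54255) (D (nat_lit 13) (nat_lit 28902737) (nat_lit 9187907) (nat_lit 3508050042945))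
(L (nat_lit 28916747)))
(L (nat_lit 28917025)))
(S (nat_lit 53719) (S (nat_lit 57403) (S (nat_lit 9226) (S (nat_lit 43364) (D (nat_lit 15) (nat_lit 13524196) (nat_lit 19104529) (nat_lit 35441941702))
(L (nat_lit 18181206)))
(L (nat_lit 31046853)))
(L (nat_lit 28916932)))
(L (nat_lit 3591942))))
(L (nat_lit 19662344)))
(L (nat_lit 11425248)))
(L (nat_lit 21334959)))
(L (nat_lit 23396859)))
(L (nat_lit 9110449)))
(L (nat_lit 23399345)))
(S (nat_lit 36523) (S (nat_lit 51648) (S (nat_lit 25975) (S (nat_lit 25953) (S (nat_lit 45507) (S (nat_lit 16938) (S (nat_lit 52082) (S (nat_lit 2356) (S (nat_lit 54796) (S (nat_lit 27289) (D (nat_lit 13) (nat_lit 9528909) (nat_lit 11291107) (nat_lit 7839626202272))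
(L (nat_lit 13421829)))
(L (nat_lit 26849539)))
(S (nat_lit 10925) (S (nat_lit 57850) (S (nat_lit 10894) (D (nat_lit 15) (nat_lit 31171969) (nat_lit 25759052) (nat_lit 104427786370))
(L (nat_lit 31170084)))
(L (nat_lit 29016357)))
(L (nat_lit 30427560))))
(L (nat_lit 29006275)))
(L (nat_lit 31170048)))
(L (nat_lit 16457604)))
(L (nat_lit 12815066)))
(L (nat_lit 12782484)))
(L (nat_lit 29571092)))
(L (nat_lit 27475618)))))
(L (nat_lit 22908298)))
(L (nat_lit 31165834)))
(L (nat_lit 22986891)))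
(L (nat_lit 22485792)))
(L (nat_lit 14906978)))
(L (nat_lit 15652128)))
(L (nat_lit 22919426)))
(L (nat_lit 31176962)))
(L (nat_lit 16853779))))
(L (nat_lit 6211177)))
(L (nat_lit 10029933)))
(S (nat_lit 20750) (S (nat_lit 40525) (S (nat_lit 1277) (L (nat_lit 1391354))
(S (nat_lit 29697) (S (nat_lit 48509) (S (nat_lit 51377) (S (nat_lit 21805) (L (nat_lit 2339418))
(L (nat_lit 28916932)))
(L (nat_lit 26561955)))
(L (nat_lit 26849603)))
(L (nat_lit 3722492))))
(L (nat_lit 24547078)))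
(S (nat_lit 40514) (S (nat_lit 1019) (S (nat_lit 38817) (S (nat_lit 6730) (S (nat_lit 35115) (L (nat_lit 3360411))
(L (nat_lit 31142208)))
(L (nat_lit 31142210)))
(S (nat_lit 51565) (L (nat_lit 6435417))
(L (nat_lit 6009212))))
(L (nat_lit 9047824)))
(L (nat_lit 25603095)))))
(L (nat_lit 21536672)))
(L (nat_lit 6073845)))
(L (nat_lit 27741472)))
(L (nat_lit 22255437)))
(L (nat_lit 12457399)))
(L (nat_lit 11324962)))
(L (nat_lit 20439298)))
(L (nat_lit 243325)))
(L (nat_lit 23280665)))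
(L (nat_lit 3693417)))
(L (nat_lit 6442525)))
(L (nat_lit 10311857)))
(L (nat_lit 8905875)))
(L (nat_lit 9190546)))
(L (nat_lit 9036945)))
(L (nat_lit 27434574)))
(L (nat_lit 8574799)))
(L (nat_lit 17397089)))
(L (nat_lit 9036814)))
(L (nat_lit 839949)))
(S (nat_lit 50527) (S (nat_lit 10949) (S (nat_lit 41293) (S (nat_lit 40807) (L (nat_lit 29375795))
(L (nat_lit 769308)))
(L (nat_lit 7060572)))
(S (nat_lit 30713) (S (nat_lit 15340) (S (nat_lit 21708) (S (nat_lit 30741) (S (nat_lit 39603) (S (nat_lit 50538) (S (nat_lit 50488) (S (nat_lit 57086) (L (nat_lit 21173722))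
(L (nat_lit 12944986)))
(L (nat_lit 12640873)))
(L (nat_lit 27900192)))
(L (nat_lit 18606336)))
(L (nat_lit 2630266)))
(L (nat_lit 21833125)))
(S (nat_lit 35446) (L (nat_lit 5099820))
(L (nat_lit 1468105))))
(S (nat_lit 50477) (S (nat_lit 31) (S (nat_lit 11010) (S (nat_lit 21708) (L (nat_lit 13230183))
(L (nat_lit 8210819)))
(L (nat_lit 1685817)))
(S (nat_lit 10873) (L (nat_lit 9007153))
(L (nat_lit 478522))))
(L (nat_lit 25746538)))))
(L (nat_lit 25530061)))))
(S (nat_lit 39542) (S (nat_lit 1047) (S (nat_lit 11010) (S (nat_lit 8762) (L (nat_lit 27854246))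
(L (nat_lit 23310460)))
(S (nat_lit 30774) (S (nat_lit 15340) (S (nat_lit 31) (S (nat_lit 48290) (L (nat_lit 15913273))
(L (nat_lit 10511949)))
(L (nat_lit 13474901)))
(S (nat_lit 45783) (L (nat_lit 5662067))
(L (nat_lit 22919459))))
(S (nat_lit 50538) (S (nat_lit 1986) (S (nat_lit 39575) (S (nat_lit 1991) (S (nat_lit 30699) (L (nat_lit 6041879))
(L (nat_lit 13862554)))
(L (nat_lit 6136246)))
(L (nat_lit 27928996)))
(S (nat_lit 40356) (L (nat_lit 4613706))
(L (nat_lit 13770675))))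
(L (nat_lit 25858319)))))
(S (nat_lit 20811) (S (nat_lit 1082) (S (nat_lit 13001) (L (nat_lit 6136463))
(L (nat_lit 1649084)))
(S (nat_lit 20783) (S (nat_lit 7720) (L (nat_lit 8836993))
(S (nat_lit 15371) (S (nat_lit 8943) (L (nat_lit 24019366))
(S (nat_lit 48318) (S (nat_lit 62) (S (nat_lit 41514) (S (nat_lit 15340) (S (nat_lit 37285) (S (nat_lit 39592) (S (nat_lit 57086) (S (nat_lit 1246) (L (nat_lit 1558906))
(L (nat_lit 5726891)))
(L (nat_lit 19668108)))
(L (nat_lit 4760500)))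
(L (nat_lit 14413122)))
(L (nat_lit 26942850)))
(L (nat_lit 839949)))
(L (nat_lit 19046321)))
(L (nat_lit 11265440))))
(L (nat_lit 22159279))))
(L (nat_lit 12052033))))
(S (nat_lit 40575) (S (nat_lit 1701) (S (nat_lit 21043) (S (nat_lit 21529) (L (nat_lit 6845029))
(L (nat_lit 6069871)))
(L (nat_lit 12355183)))
(S (nat_lit 21465) (S (nat_lit 15371) (S (nat_lit 40743) (L (nat_lit 12355059))
(L (nat_lit 897642)))
(L (nat_lit 7209396)))
(S (nat_lit 41229) (S (nat_lit 41514) (S (nat_lit 35120) (S (nat_lit 40807) (L (nat_lit 552147))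
(L (nat_lit 8062364)))
(L (nat_lit 9036847)))
(L (nat_lit 23895117)))
(L (nat_lit 25760139)))))
(L (nat_lit 25271949)))))
(L (nat_lit 25383024)))))
(S (nat_lit 57099) (S (nat_lit 17510) (S (nat_lit 2006) (S (nat_lit 8773) (S (nat_lit 15340) (S (nat_lit 1944) (S (nat_lit 15371) (S (nat_lit 50505) (L (nat_lit 20233986))
(L (nat_lit 14977659)))
(L (nat_lit 1548212)))
(L (nat_lit 12699960)))
(S (nat_lit 47727) (L (nat_lit 26843217))
(L (nat_lit 8085580))))
(S (nat_lit 28537) (S (nat_lit 37228) (L (nat_lit 545672))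
(S (nat_lit 41229) (S (nat_lit 48265) (L (nat_lit 381369))
(L (nat_lit 26650210)))
(L (nat_lit 6735965))))
(S (nat_lit 48301) (S (nat_lit 20783) (S (nat_lit 15340) (L (nat_lit 1293947))
(L (nat_lit 14968419)))
(S (nat_lit 21593) (L (nat_lit 24347532))
(L (nat_lit 6974881))))
(L (nat_lit 25644386)))))
(S (nat_lit 21770) (S (nat_lit 10999) (S (nat_lit 39894) (S (nat_lit 20979) (S (nat_lit 20993) (L (nat_lit 5127753))
(L (nat_lit 21249794)))
(L (nat_lit 21262755)))
(S (nat_lit 41514) (S (nat_lit 20979) (L (nat_lit 16653330))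
(L (nat_lit 1974707)))
(L (nat_lit 7210700))))
(S (nat_lit 30763) (S (nat_lit 62) (S (nat_lit 57024) (S (nat_lit 31) (S (nat_lit 20783) (L (nat_lit 20149326))
(L (nat_lit 11995030)))
(L (nat_lit 18965775)))
(L (nat_lit 19433318)))
(S (nat_lit 39333) (L (nat_lit 6476593))
(L (nat_lit 531164))))
(S (nat_lit 50527) (S (nat_lit 972) (S (nat_lit 8795) (S (nat_lit 41254) (L (nat_lit 26287824))
(L (nat_lit 24546585)))
(L (nat_lit 6418965)))
(S (nat_lit 20736) (S (nat_lit 31) (L (nat_lit 21083416))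
(L (nat_lit 8211567)))
(S (nat_lit 40500) (S (nat_lit 75) (L (nat_lit 6842051))
(L (nat_lit 19441753)))
(L (nat_lit 25441860)))))
(L (nat_lit 25506866)))))
(S (nat_lit 41534) (S (nat_lit 1019) (S (nat_lit 11534) (L (nat_lit 6485426))
(S (nat_lit 15371) (S (nat_lit 40743) (L (nat_lit 29578657))
(L (nat_lit 17108605)))
(L (nat_lit 1646012))))
(S (nat_lit 20783) (S (nat_lit 15340) (S (nat_lit 8773) (S (nat_lit 15384) (S (nat_lit 41514) (S (nat_lit 28574) (L (nat_lit 9135522))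
(L (nat_lit 18186873)))
(L (nat_lit 8447725)))
(L (nat_lit 1719577)))
(L (nat_lit 8142434)))
(S (nat_lit 53861) (L (nat_lit 26478131))
(L (nat_lit 1613434))))
(S (nat_lit 40547) (S (nat_lit 35135) (S (nat_lit 31) (S (nat_lit 32388) (L (nat_lit 13898612))
(L (nat_lit 16555620)))
(L (nat_lit 7155796)))
(S (nat_lit 55032) (L (nat_lit 18008440))
(L (nat_lit 20749732))))
(L (nat_lit 25353552)))))
(L (nat_lit 25741570)))))
(S (nat_lit 37274) (S (nat_lit 1290) (S (nat_lit 17496) (S (nat_lit 20783) (S (nat_lit 1991) (L (nat_lit 30656096))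
(L (nat_lit 26870182)))
(L (nat_lit 15900281)))
(S (nat_lit 37260) (S (nat_lit 54837) (S (nat_lit 19795) (L (nat_lit 5152333))
(L (nat_lit 21765199)))
(L (nat_lit 27795104)))
(S (nat_lit 57024) (S (nat_lit 15371) (S (nat_lit 15340) (S (nat_lit 20783) (S (nat_lit 1262) (S (nat_lit 28681) (L (nat_lit 15276156))
(L (nat_lit 21896236)))
(L (nat_lit 19013021)))
(L (nat_lit 14851707)))
(L (nat_lit 1941196)))
(L (nat_lit 434068)))
(L (nat_lit 25926176)))))
(S (nat_lit 21054) (S (nat_lit 15371) (S (nat_lit 9712) (S (nat_lit 28574) (L (nat_lit 13880476))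
(L (nat_lit 31037581)))
(S (nat_lit 21507) (L (nat_lit 15270697))
(L (nat_lit 16686130))))
(L (nat_lit 6947324)))
(S (nat_lit 40818) (S (nat_lit 8762) (S (nat_lit 35120) (L (nat_lit 18576459))
(L (nat_lit 23866884)))
(S (nat_lit 28526) (S (nat_lit 15340) (S (nat_lit 31) (S (nat_lit 20783) (S (nat_lit 1199) (L (nat_lit 280253))
(L (nat_lit 29891169)))
(L (nat_lit 7095907)))
(L (nat_lit 13951093)))
(L (nat_lit 581907)))
(S (nat_lit 48290) (S (nat_lit 28543) (S (nat_lit 21529) (L (nat_lit 288492))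
(L (nat_lit 22601802)))
(L (nat_lit 17899287)))
(L (nat_lit 25211155)))))
(L (nat_lit 25697331)))))
(S (nat_lit 57038) (S (nat_lit 14) (S (nat_lit 41472) (S (nat_lit 31) (S (nat_lit 41519) (S (nat_lit 64) (S (nat_lit 10977) (S (nat_lit 10960) (S (nat_lit 10949) (S (nat_lit 75) (S (nat_lit 47) (S (nat_lit 37612) (S (nat_lit 41486) (L (nat_lit 11028538))
(L (nat_lit 27860448)))
(S (nat_lit 57088) (S (nat_lit 41547) (S (nat_lit 41503) (S (nat_lit 57071) (S (nat_lit 57024) (S (nat_lit 41534) (S (nat_lit 41514) (S (nat_lit 41497) (S (nat_lit 57066) (S (nat_lit 57086) (S (nat_lit 10935) (S (nat_lit 62) (S (nat_lit 1726) (S (nat_lit 1715) (S (nat_lit 1240) (S (nat_lit 1776) (S (nat_lit 28512) (S (nat_lit 15334) (S (nat_lit 58870) (S (nat_lit 58881) (S (nat_lit 29434) (S (nat_lit 29403) (S (nat_lit 23132) (S (nat_lit 50849) (S (nat_lit 23127) (D (nat_lit 15) (nat_lit 7098512) (nat_lit 25761162) (nat_lit 214885730567))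
(L (nat_lit 27935754)))
(L (nat_lit 21839168)))
(S (nat_lit 31409) (S (nat_lit 56521) (S (nat_lit 5960) (D (nat_lit 15) (nat_lit 4020465) (nat_lit 25761100) (nat_lit 214890975264))
(L (nat_lit 27796069)))
(L (nat_lit 29960645)))
(L (nat_lit 29776041))))
(L (nat_lit 27351562)))
(L (nat_lit 29954598)))
(L (nat_lit 28391669)))
(L (nat_lit 28394151)))
(L (nat_lit 24952131)))
(L (nat_lit 12610247)))
(L (nat_lit 13342744)))
(L (nat_lit 13393121)))
(L (nat_lit 13391073)))
(S (nat_lit 9396) (S (nat_lit 9421) (S (nat_lit 40818) (S (nat_lit 21507) (S (nat_lit 21527) (S (nat_lit 21479) (S (nat_lit 20778) (S (nat_lit 15356) (S (nat_lit 15384) (S (nat_lit 28587) (S (nat_lit 28576) (S (nat_lit 28537) (S (nat_lit 45472) (S (nat_lit 33031) (S (nat_lit 28202) (S (nat_lit 41681) (S (nat_lit 51597) (D (nat_lit 13) (nat_lit 4019436) (nat_lit 11290801) (nat_lit 6846211493024))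
(L (nat_lit 7197155)))
(L (nat_lit 30031076)))
(L (nat_lit 27933922)))
(L (nat_lit 19408771)))
(S (nat_lit 50849) (S (nat_lit 23876) (S (nat_lit 11139) (S (nat_lit 36930) (S (nat_lit 55996) (D (nat_lit 13) (nat_lit 3000873) (nat_lit 25765041) (nat_lit 36644755715))
(L (nat_lit 29544875)))
(L (nat_lit 21405882)))
(L (nat_lit 29794486)))
(L (nat_lit 27989416)))
(L (nat_lit 28655264))))
(L (nat_lit 17884840)))
(L (nat_lit 18668552)))
(L (nat_lit 18666752)))
(L (nat_lit 8008793)))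
(L (nat_lit 8075012)))
(L (nat_lit 16535842)))
(L (nat_lit 7763619)))
(L (nat_lit 8177777)))
(L (nat_lit 8141540)))
(L (nat_lit 17587557)))
(L (nat_lit 20757828)))
(S (nat_lit 18320) (S (nat_lit 18368) (S (nat_lit 21010) (S (nat_lit 41291) (S (nat_lit 21021) (S (nat_lit 41229) (S (nat_lit 28559) (S (nat_lit 15323) (S (nat_lit 15384) (S (nat_lit 24266) (S (nat_lit 11122) (S (nat_lit 56764) (S (nat_lit 36411) (S (nat_lit 23602) (D (nat_lit 13) (nat_lit 7097422) (nat_lit 25765413) (nat_lit 38725130344))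
(L (nat_lit 27927941)))
(L (nat_lit 21376092)))
(L (nat_lit 30028132)))
(L (nat_lit 30093666)))
(S (nat_lit 28263) (S (nat_lit 14725) (S (nat_lit 28202) (S (nat_lit 44986) (S (nat_lit 31752) (S (nat_lit 3125) (D (nat_lit 13) (nat_lit 6116588) (nat_lit 16533765) (nat_lit 6846211493024))
(L (nat_lit 31079465)))
(L (nat_lit 1987048)))
(L (nat_lit 16657025)))
(L (nat_lit 27576770)))
(L (nat_lit 27867426)))
(L (nat_lit 23160044))))
(L (nat_lit 605496)))
(L (nat_lit 806443)))
(L (nat_lit 18591621)))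
(L (nat_lit 16873065)))
(L (nat_lit 12341324)))
(L (nat_lit 17568454)))
(L (nat_lit 12334724)))
(L (nat_lit 27516046)))
(L (nat_lit 14473413)))))
(L (nat_lit 8304356)))
(L (nat_lit 23870657)))
(L (nat_lit 27918731)))
(L (nat_lit 27993473)))
(L (nat_lit 27639892)))
(L (nat_lit 27612237)))
(L (nat_lit 28030210)))
(L (nat_lit 6004657)))
(L (nat_lit 12268453)))
(L (nat_lit 27610593)))
(L (nat_lit 28023267)))
(L (nat_lit 12776168))))
(L (nat_lit 7423799)))
(L (nat_lit 14586162)))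
(L (nat_lit 8162741)))
(L (nat_lit 7919490)))
(L (nat_lit 7933841)))
(L (nat_lit 14020195)))
(L (nat_lit 27968800)))
(L (nat_lit 13453602)))
(L (nat_lit 27898987)))
(S (nat_lit 19778) (S (nat_lit 13257) (L (nat_lit 3695923))
(S (nat_lit 41519) (S (nat_lit 19839) (S (nat_lit 11010) (S (nat_lit 47) (S (nat_lit 10949) (S (nat_lit 19795) (S (nat_lit 10977) (S (nat_lit 10960) (S (nat_lit 4371) (L (nat_lit 276090))
(S (nat_lit 15351) (S (nat_lit 46055) (L (nat_lit 3580724))
(S (nat_lit 50510) (S (nat_lit 50527) (S (nat_lit 2019) (L (nat_lit 16932088))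
(L (nat_lit 12874371)))
(L (nat_lit 27665027)))
(L (nat_lit 14789274))))
(S (nat_lit 16161) (L (nat_lit 9450295))
(L (nat_lit 6379961)))))
(L (nat_lit 15962746)))
(L (nat_lit 16589409)))
(L (nat_lit 15855924)))
(L (nat_lit 8145317)))
(L (nat_lit 8214948)))
(L (nat_lit 7523768)))
(L (nat_lit 8938611)))
(L (nat_lit 27418022))))
(S (nat_lit 39542) (S (nat_lit 41519) (S (nat_lit 11010) (S (nat_lit 47) (S (nat_lit 10949) (S (nat_lit 39559) (S (nat_lit 41472) (S (nat_lit 10977) (S (nat_lit 1748) (S (nat_lit 48307) (L (nat_lit 9851005))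
(L (nat_lit 22443080)))
(S (nat_lit 9458) (L (nat_lit 11713209))
(S (nat_lit 11762) (L (nat_lit 16865656))
(L (nat_lit 2595452)))))
(L (nat_lit 6374072)))
(L (nat_lit 17101938)))
(L (nat_lit 17614952)))
(L (nat_lit 8145317)))
(L (nat_lit 8214948)))
(L (nat_lit 7523768)))
(S (nat_lit 54715) (L (nat_lit 216976))
(L (nat_lit 17717352))))
(L (nat_lit 25220369)))))
(L (nat_lit 25417838)))))
(L (nat_lit 25635521)))))
(L (nat_lit 25449890)))))

theorem rb246_0_18 : run 4 lb246 [] tb246_0_18 kb246 [0, 41536, 10966, 10997] [] = true := by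
  decide +kernel

noncomputable def tb246_0_0 : Tr :=
(S (nat_lit 1715) (S (nat_lit 17527) (S (nat_lit 10935) (S (nat_lit 8748) (S (nat_lit 15340) (S (nat_lit 986) (S (nat_lit 64) (S (nat_lit 17543) (S (nat_lit 8773) (S (nat_lit 1986) (S (nat_lit 10997) (S (nat_lit 17521) (S (nat_lit 15334) (S (nat_lit 14) (S (nat_lit 1743) (S (nat_lit 1991) (S (nat_lit 1969) (S (nat_lit 1036) (S (nat_lit 1290) (S (nat_lit 1003) (S (nat_lit 972) (S (nat_lit 1701) (S (nat_lit 1215) (S (nat_lit 8790) (S (nat_lit 17560) (S (nat_lit 15373) (S (nat_lit 204) (S (nat_lit 5327) (S (nat_lit 13527) (S (nat_lit 3092) (S (nat_lit 14686) (S (nat_lit 7209) (S (nat_lit 4698) (D (nat_lit 9) (nat_lit 16533729) (nat_lit 25564747) (nat_lit 68719510530))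
(L (nat_lit 27478498)))
(L (nat_lit 807302)))
(L (nat_lit 27676866)))
(L (nat_lit 24948932)))
(L (nat_lit 19673282)))
(S (nat_lit 6899) (S (nat_lit 14027) (S (nat_lit 8206) (S (nat_lit 5022) (S (nat_lit 13460) (S (nat_lit 3726) (D (nat_lit 9) (nat_lit 15486144) (nat_lit 25759021) (nat_lit 68719510530))
(L (nat_lit 27867489)))
(L (nat_lit 27479491)))
(L (nat_lit 13387971)))
(L (nat_lit 22855875)))
(L (nat_lit 21772485)))
(L (nat_lit 9849020))))
(L (nat_lit 5959020)))
(L (nat_lit 6909378)))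
(L (nat_lit 6909410)))
(L (nat_lit 6909408)))
(L (nat_lit 14428771)))
(L (nat_lit 19665289)))
(L (nat_lit 19665288)))
(L (nat_lit 19730638)))
(L (nat_lit 19801539)))
(L (nat_lit 9311669)))
(L (nat_lit 19329034)))
(L (nat_lit 19372802)))
(L (nat_lit 19741892)))
(L (nat_lit 6739037)))
(L (nat_lit 217530)))
(L (nat_lit 6310298)))
(L (nat_lit 6929564)))
(L (nat_lit 12833816)))
(L (nat_lit 17585288)))
(L (nat_lit 7027460)))
(L (nat_lit 7027490)))
(L (nat_lit 14438593)))
(L (nat_lit 7013787)))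
(S (nat_lit 28512) (S (nat_lit 39590) (S (nat_lit 1240) (S (nat_lit 1019) (S (nat_lit 35104) (S (nat_lit 30730) (L (nat_lit 18444296))
(L (nat_lit 3939858)))
(L (nat_lit 12846870)))
(L (nat_lit 20389633)))
(L (nat_lit 20749857)))
(L (nat_lit 27985232)))
(S (nat_lit 48276) (S (nat_lit 1240) (S (nat_lit 1019) (S (nat_lit 19826) (S (nat_lit 1748) (L (nat_lit 14687867))
(L (nat_lit 19340065)))
(L (nat_lit 9111344)))
(L (nat_lit 19341089)))
(L (nat_lit 19668481)))
(L (nat_lit 25395856)))))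
(S (nat_lit 30699) (S (nat_lit 1240) (S (nat_lit 1748) (S (nat_lit 1019) (S (nat_lit 54837) (S (nat_lit 986) (S (nat_lit 42) (S (nat_lit 41534) (S (nat_lit 1969) (S (nat_lit 48276) (S (nat_lit 1975) (S (nat_lit 15371) (S (nat_lit 19811) (S (nat_lit 37335) (S (nat_lit 20767) (S (nat_lit 35098) (S (nat_lit 21021) (S (nat_lit 39559) (S (nat_lit 5001) (S (nat_lit 20213) (S (nat_lit 37644) (S (nat_lit 10635) (S (nat_lit 49180) (D (nat_lit 11) (nat_lit 5065222) (nat_lit 2417230) (nat_lit 206262311045))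
(L (nat_lit 18787506)))
(L (nat_lit 31145220)))
(L (nat_lit 28982596)))
(S (nat_lit 39431) (S (nat_lit 58153) (S (nat_lit 5552) (S (nat_lit 52246) (S (nat_lit 41596) (D (nat_lit 13) (nat_lit 31065295) (nat_lit 25767025) (nat_lit 3510199389416))
(L (nat_lit 28979523)))
(L (nat_lit 28432871)))
(L (nat_lit 29792374)))
(L (nat_lit 4016555)))
(L (nat_lit 6443888))))
(L (nat_lit 28383699)))
(L (nat_lit 24442338)))
(L (nat_lit 6805283)))
(L (nat_lit 8449462)))
(L (nat_lit 21466022)))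
(L (nat_lit 2992753)))
(L (nat_lit 31113227)))
(L (nat_lit 6961309)))
(L (nat_lit 26724487)))
(L (nat_lit 5152464)))
(L (nat_lit 20377793)))
(L (nat_lit 18574530)))
(L (nat_lit 26296038)))
(L (nat_lit 26295975)))
(S (nat_lit 56943) (S (nat_lit 3740) (L (nat_lit 14731516))
(L (nat_lit 3458748)))
(L (nat_lit 13692151))))
(S (nat_lit 13977) (L (nat_lit 12605789))
(L (nat_lit 20313473))))
(S (nat_lit 41195) (S (nat_lit 48195) (L (nat_lit 12753686))
(L (nat_lit 19766720)))
(L (nat_lit 26237318))))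
(L (nat_lit 13180804)))
(S (nat_lit 50463) (S (nat_lit 1240) (S (nat_lit 1748) (S (nat_lit 1019) (S (nat_lit 35073) (S (nat_lit 42) (S (nat_lit 986) (S (nat_lit 21770) (S (nat_lit 15323) (S (nat_lit 8810) (S (nat_lit 35148) (S (nat_lit 1034) (S (nat_lit 10999) (S (nat_lit 21507) (S (nat_lit 17560) (S (nat_lit 28554) (S (nat_lit 21755) (S (nat_lit 40531) (S (nat_lit 19795) (S (nat_lit 41798) (S (nat_lit 30713) (S (nat_lit 22158) (S (nat_lit 38437) (S (nat_lit 32605) (S (nat_lit 29109) (D (nat_lit 11) (nat_lit 29073923) (nat_lit 19193968) (nat_lit 35641138311))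
(L (nat_lit 28908069)))
(L (nat_lit 4114826)))
(L (nat_lit 4115851)))
(S (nat_lit 55649) (S (nat_lit 2171) (S (nat_lit 56944) (S (nat_lit 4479) (S (nat_lit 56453) (S (nat_lit 49892) (D (nat_lit 11) (nat_lit 29965419) (nat_lit 2482764) (nat_lit 69966436547))
(L (nat_lit 15553702)))
(L (nat_lit 15552518)))
(L (nat_lit 27865255)))
(L (nat_lit 29611554)))
(L (nat_lit 29905186)))
(L (nat_lit 14965850))))
(L (nat_lit 3810222)))
(L (nat_lit 28555414)))
(L (nat_lit 22311023)))
(L (nat_lit 27964422)))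
(L (nat_lit 21130632)))
(L (nat_lit 2896246)))
(L (nat_lit 7212598)))
(L (nat_lit 22817282)))
(L (nat_lit 941544)))
(L (nat_lit 26457207)))
(L (nat_lit 30757408)))
(L (nat_lit 6470269)))
(L (nat_lit 24350268)))
(L (nat_lit 16476354)))
(L (nat_lit 26295975)))
(L (nat_lit 26296038)))
(S (nat_lit 37341) (S (nat_lit 28593) (L (nat_lit 10580404))
(L (nat_lit 20791520)))
(L (nat_lit 12801050))))
(S (nat_lit 18836) (L (nat_lit 18883996))
(L (nat_lit 13829724))))
(S (nat_lit 21593) (S (nat_lit 19715) (L (nat_lit 16690852))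
(L (nat_lit 12846870)))
(L (nat_lit 26222998))))
(L (nat_lit 3743259)))
(L (nat_lit 25658582)))))
(S (nat_lit 37291) (S (nat_lit 1765) (S (nat_lit 10982) (S (nat_lit 986) (S (nat_lit 1229) (S (nat_lit 1036) (S (nat_lit 1958) (S (nat_lit 37260) (S (nat_lit 14) (S (nat_lit 64) (S (nat_lit 37322) (S (nat_lit 1014) (S (nat_lit 1257) (S (nat_lit 1743) (S (nat_lit 11010) (S (nat_lit 42) (S (nat_lit 50400) (L (nat_lit 13815659))
(S (nat_lit 56943) (S (nat_lit 1019) (S (nat_lit 1748) (S (nat_lit 1290) (S (nat_lit 56957) (S (nat_lit 57018) (S (nat_lit 1246) (S (nat_lit 48307) (S (nat_lit 48338) (S (nat_lit 1732) (S (nat_lit 15373) (S (nat_lit 48301) (S (nat_lit 56968) (S (nat_lit 2575) (S (nat_lit 13574) (S (nat_lit 5296) (S (nat_lit 6025) (S (nat_lit 35310) (S (nat_lit 8142) (D (nat_lit 11) (nat_lit 14534947) (nat_lit 25769317) (nat_lit 180388692000))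
(L (nat_lit 27761844)))
(L (nat_lit 27933863)))
(L (nat_lit 30033123)))
(L (nat_lit 30033091)))
(L (nat_lit 30098659)))
(S (nat_lit 56158) (S (nat_lit 7153) (S (nat_lit 50834) (S (nat_lit 50591) (S (nat_lit 3011) (S (nat_lit 14013) (D (nat_lit 11) (nat_lit 1889739) (nat_lit 25769131) (nat_lit 1316028448))
(L (nat_lit 29416872)))
(L (nat_lit 27284009)))
(L (nat_lit 21900769)))
(L (nat_lit 21900768)))
(L (nat_lit 27936097)))
(L (nat_lit 9497164))))
(L (nat_lit 8886102)))
(L (nat_lit 27934050)))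
(L (nat_lit 22538466)))
(L (nat_lit 13263173)))
(L (nat_lit 27434605)))
(L (nat_lit 27662915)))
(L (nat_lit 13264065)))
(L (nat_lit 9179575)))
(L (nat_lit 23268142)))
(L (nat_lit 12835993)))
(L (nat_lit 12836611)))
(L (nat_lit 12803843)))
(L (nat_lit 29938912))))
(L (nat_lit 317356)))
(L (nat_lit 7754840)))
(L (nat_lit 12833849)))
(L (nat_lit 12801049)))
(L (nat_lit 12801081)))
(L (nat_lit 8804133)))
(L (nat_lit 7230882)))
(S (nat_lit 45965) (L (nat_lit 1986952))
(L (nat_lit 8174212))))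
(L (nat_lit 10311200)))
(L (nat_lit 12768508)))
(L (nat_lit 8509230)))
(L (nat_lit 11293840)))
(L (nat_lit 10573277)))
(S (nat_lit 30746) (S (nat_lit 1036) (S (nat_lit 64) (S (nat_lit 1726) (S (nat_lit 1958) (S (nat_lit 986) (S (nat_lit 37322) (L (nat_lit 6379002))
(L (nat_lit 2713966)))
(L (nat_lit 20724065)))
(L (nat_lit 20723846)))
(S (nat_lit 21490) (S (nat_lit 10977) (S (nat_lit 28587) (L (nat_lit 9262465))
(L (nat_lit 18213972)))
(L (nat_lit 6384020)))
(S (nat_lit 41254) (S (nat_lit 11027) (L (nat_lit 8995685))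
(S (nat_lit 40818) (S (nat_lit 19795) (L (nat_lit 3943023))
(L (nat_lit 9070670)))
(L (nat_lit 17524778))))
(L (nat_lit 25598688)))))
(S (nat_lit 52564) (L (nat_lit 13789928))
(L (nat_lit 7924322))))
(L (nat_lit 8967323)))
(S (nat_lit 50510) (S (nat_lit 1036) (S (nat_lit 35104) (S (nat_lit 986) (S (nat_lit 48323) (L (nat_lit 4773244))
(L (nat_lit 11621850)))
(L (nat_lit 26301895)))
(L (nat_lit 9525009)))
(L (nat_lit 26760512)))
(L (nat_lit 25596619)))))
(S (nat_lit 21529) (S (nat_lit 31) (S (nat_lit 34041) (L (nat_lit 13770424))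
(S (nat_lit 48338) (S (nat_lit 1019) (S (nat_lit 57099) (L (nat_lit 12801115))
(L (nat_lit 11352672)))
(L (nat_lit 13661801)))
(L (nat_lit 27689578))))
(S (nat_lit 19795) (S (nat_lit 986) (S (nat_lit 30730) (S (nat_lit 48338) (S (nat_lit 28543) (L (nat_lit 9195662))
(L (nat_lit 25074769)))
(L (nat_lit 27689578)))
(L (nat_lit 30998829)))
(S (nat_lit 16613) (S (nat_lit 43552) (L (nat_lit 30938389))
(L (nat_lit 19675303)))
(L (nat_lit 13390857))))
(S (nat_lit 39559) (S (nat_lit 27483) (L (nat_lit 29905993))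
(S (nat_lit 48338) (S (nat_lit 986) (S (nat_lit 1019) (S (nat_lit 57099) (S (nat_lit 39592) (S (nat_lit 42) (S (nat_lit 15371) (S (nat_lit 8779) (S (nat_lit 28512) (S (nat_lit 40805) (S (nat_lit 41519) (S (nat_lit 30699) (S (nat_lit 40575) (S (nat_lit 46414) (S (nat_lit 32021) (S (nat_lit 12276) (S (nat_lit 10818) (S (nat_lit 37678) (D (nat_lit 11) (nat_lit 31080486) (nat_lit 19672240) (nat_lit 71005441251))
(L (nat_lit 27482532)))
(L (nat_lit 27866283)))
(L (nat_lit 27865194)))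
(S (nat_lit 46069) (S (nat_lit 21832) (S (nat_lit 50570) (S (nat_lit 7222) (S (nat_lit 39477) (S (nat_lit 36041) (D (nat_lit 9) (nat_lit 27930116) (nat_lit 7935384) (nat_lit 212771831943))
(L (nat_lit 15585633)))
(L (nat_lit 21458177)))
(L (nat_lit 31144193)))
(L (nat_lit 28981569)))
(L (nat_lit 28981505)))
(L (nat_lit 2962089))))
(L (nat_lit 23959969)))
(L (nat_lit 1580947)))
(L (nat_lit 2964726)))
(L (nat_lit 6341242)))
(L (nat_lit 27996169)))
(L (nat_lit 19086145)))
(L (nat_lit 23173964)))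
(L (nat_lit 26818917)))
(L (nat_lit 26884448)))
(L (nat_lit 6039150)))
(L (nat_lit 11352672)))
(L (nat_lit 13661801)))
(L (nat_lit 19675303)))
(L (nat_lit 27689578))))
(L (nat_lit 25631828)))))
(S (nat_lit 41293) (S (nat_lit 40564) (S (nat_lit 986) (S (nat_lit 41514) (S (nat_lit 17496) (S (nat_lit 54868) (S (nat_lit 19828) (S (nat_lit 20778) (S (nat_lit 8823) (S (nat_lit 8748) (S (nat_lit 50538) (S (nat_lit 1240) (S (nat_lit 28543) (S (nat_lit 1019) (S (nat_lit 11305) (S (nat_lit 50574) (S (nat_lit 31025) (S (nat_lit 28576) (S (nat_lit 40743) (S (nat_lit 75) (S (nat_lit 7174) (S (nat_lit 25944) (S (nat_lit 7189) (S (nat_lit 48177) (S (nat_lit 19647) (S (nat_lit 34781) (D (nat_lit 11) (nat_lit 17614854) (nat_lit 8145008) (nat_lit 73148858472))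
(L (nat_lit 27989446)))
(L (nat_lit 30095467)))
(L (nat_lit 21832129)))
(L (nat_lit 27810116)))
(L (nat_lit 24000772)))
(S (nat_lit 17638) (S (nat_lit 49442) (S (nat_lit 44289) (S (nat_lit 23846) (D (nat_lit 11) (nat_lit 25483377) (nat_lit 12339376) (nat_lit 141558852))
(L (nat_lit 27954726)))
(L (nat_lit 19742947)))
(L (nat_lit 29966530)))
(L (nat_lit 28770952))))
(L (nat_lit 7029848)))
(L (nat_lit 456266)))
(L (nat_lit 19055832)))
(L (nat_lit 11423822)))
(L (nat_lit 6820756)))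
(L (nat_lit 24129325)))
(L (nat_lit 19727785)))
(L (nat_lit 24681219)))
(L (nat_lit 19301259)))
(L (nat_lit 27890087)))
(L (nat_lit 1580822)))
(L (nat_lit 15030112)))
(L (nat_lit 21937258)))
(L (nat_lit 3986825)))
(L (nat_lit 27350408)))
(L (nat_lit 1300241)))
(L (nat_lit 8869637)))
(L (nat_lit 13390857)))
(L (nat_lit 10229359)))
(L (nat_lit 25213236)))))
(S (nat_lit 57055) (S (nat_lit 8762) (S (nat_lit 17521) (S (nat_lit 15323) (S (nat_lit 986) (S (nat_lit 1240) (S (nat_lit 1969) (S (nat_lit 28574) (L (nat_lit 19829072))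
(L (nat_lit 30835306)))
(L (nat_lit 19300571)))
(L (nat_lit 19300603)))
(L (nat_lit 19675305)))
(L (nat_lit 7367058)))
(L (nat_lit 6310298)))
(S (nat_lit 28526) (S (nat_lit 1748) (S (nat_lit 1019) (S (nat_lit 1240) (S (nat_lit 42) (S (nat_lit 1969) (S (nat_lit 75) (S (nat_lit 986) (S (nat_lit 1034) (S (nat_lit 10999) (S (nat_lit 57088) (S (nat_lit 1763) (S (nat_lit 1975) (S (nat_lit 28559) (S (nat_lit 57049) (S (nat_lit 10966) (S (nat_lit 15323) (S (nat_lit 15351) (S (nat_lit 57038) (S (nat_lit 1991) (S (nat_lit 1229) (S (nat_lit 57099) (S (nat_lit 48209) (S (nat_lit 37388) (S (nat_lit 5005) (S (nat_lit 14703) (S (nat_lit 4712) (S (nat_lit 7030) (S (nat_lit 36481) (S (nat_lit 35752) (D (nat_lit 11) (nat_lit 1888561) (nat_lit 19673445) (nat_lit 6684770496))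
(L (nat_lit 27985451)))
(L (nat_lit 27985450)))
(L (nat_lit 29926016)))
(L (nat_lit 27775233)))
(L (nat_lit 27999489)))
(S (nat_lit 51077) (S (nat_lit 35525) (S (nat_lit 5198) (S (nat_lit 5927) (S (nat_lit 13714) (S (nat_lit 7452) (D (nat_lit 11) (nat_lit 13389930) (nat_lit 25769251) (nat_lit 180388692000))
(L (nat_lit 30094593)))
(L (nat_lit 27480612)))
(L (nat_lit 27775204)))
(L (nat_lit 27775172)))
(L (nat_lit 27999458)))
(L (nat_lit 29069865))))
(L (nat_lit 28594190)))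
(L (nat_lit 30089604)))
(L (nat_lit 11358721)))
(L (nat_lit 3565783)))
(L (nat_lit 3404183)))
(L (nat_lit 5501646)))
(S (nat_lit 35115) (S (nat_lit 13509) (S (nat_lit 41260) (S (nat_lit 19795) (S (nat_lit 21755) (S (nat_lit 21507) (S (nat_lit 39575) (S (nat_lit 41514) (S (nat_lit 8812) (S (nat_lit 8773) (S (nat_lit 8420) (S (nat_lit 29689) (S (nat_lit 32605) (S (nat_lit 37857) (D (nat_lit 11) (nat_lit 27868515) (nat_lit 19672176) (nat_lit 35537326308))
(L (nat_lit 28859651)))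
(L (nat_lit 4114826)))
(L (nat_lit 4114859)))
(S (nat_lit 34814) (S (nat_lit 16425) (S (nat_lit 19341) (S (nat_lit 30887) (D (nat_lit 11) (nat_lit 30090252) (nat_lit 19672174) (nat_lit 70970841222))
(L (nat_lit 27932993)))
(L (nat_lit 27866249)))
(L (nat_lit 27865160)))
(L (nat_lit 5787462))))
(L (nat_lit 14742871)))
(L (nat_lit 15638551)))
(L (nat_lit 18081507)))
(L (nat_lit 16900683)))
(L (nat_lit 8009852)))
(L (nat_lit 15472823)))
(L (nat_lit 16522915)))
(L (nat_lit 27272846)))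
(L (nat_lit 14722871)))
(S (nat_lit 54879) (S (nat_lit 54912) (S (nat_lit 21496) (S (nat_lit 20767) (S (nat_lit 19826) (S (nat_lit 30885) (S (nat_lit 50669) (S (nat_lit 39559) (S (nat_lit 8790) (S (nat_lit 21783) (S (nat_lit 10104) (S (nat_lit 30563) (S (nat_lit 47010) (S (nat_lit 56945) (S (nat_lit 49957) (D (nat_lit 13) (nat_lit 16051872) (nat_lit 25479343) (nat_lit 6874131988679))
(L (nat_lit 19098673)))
(L (nat_lit 20879372)))
(L (nat_lit 19360962)))
(L (nat_lit 28789954)))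
(S (nat_lit 46021) (S (nat_lit 45552) (S (nat_lit 18660) (S (nat_lit 39311) (D (nat_lit 11) (nat_lit 28016940) (nat_lit 1851762) (nat_lit 206193237249))
(L (nat_lit 28430790)))
(L (nat_lit 31138308)))
(L (nat_lit 21525828)))
(L (nat_lit 24350201))))
(L (nat_lit 21055403)))
(L (nat_lit 26977760)))
(L (nat_lit 23889166)))
(L (nat_lit 24944686)))
(L (nat_lit 27841892)))
(L (nat_lit 22839632)))
(L (nat_lit 795278)))
(L (nat_lit 796302)))
(L (nat_lit 27772998)))
(L (nat_lit 25464462)))))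
(S (nat_lit 54770) (L (nat_lit 11554205))
(L (nat_lit 26456148))))
(L (nat_lit 7063363)))
(L (nat_lit 21534472)))
(L (nat_lit 3549913)))
(L (nat_lit 20064110)))
(L (nat_lit 13683592)))
(L (nat_lit 27626035)))
(L (nat_lit 2022605)))
(L (nat_lit 26943600)))
(L (nat_lit 14472547)))
(L (nat_lit 20300888)))
(L (nat_lit 20759623)))
(L (nat_lit 26295635)))
(S (nat_lit 32844) (L (nat_lit 12736793))
(L (nat_lit 14283846))))
(L (nat_lit 19952009)))
(L (nat_lit 19952008)))
(S (nat_lit 48290) (S (nat_lit 1019) (S (nat_lit 1748) (S (nat_lit 24082) (S (nat_lit 1091) (L (nat_lit 5622171))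
(L (nat_lit 22027056)))
(S (nat_lit 37285) (S (nat_lit 5295) (L (nat_lit 6408115))
(S (nat_lit 28574) (L (nat_lit 9287862))
(L (nat_lit 10126777))))
(L (nat_lit 20125080))))
(L (nat_lit 9461149)))
(L (nat_lit 18904457)))
(L (nat_lit 25217419)))))
(L (nat_lit 25476214)))))
(S (nat_lit 21479) (S (nat_lit 15356) (S (nat_lit 42) (S (nat_lit 1047) (S (nat_lit 3090) (L (nat_lit 8207445))
(S (nat_lit 15323) (S (nat_lit 972) (S (nat_lit 1014) (S (nat_lit 1246) (S (nat_lit 1975) (S (nat_lit 15371) (S (nat_lit 21512) (S (nat_lit 21527) (S (nat_lit 16226) (L (nat_lit 15806172))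
(S (nat_lit 30891) (L (nat_lit 28324150))
(L (nat_lit 8147364))))
(L (nat_lit 22130201)))
(L (nat_lit 30641776)))
(L (nat_lit 7223476)))
(L (nat_lit 19738052)))
(L (nat_lit 13683066)))
(L (nat_lit 14537956)))
(L (nat_lit 12657272)))
(L (nat_lit 7367058))))
(S (nat_lit 20811) (S (nat_lit 14673) (L (nat_lit 7919525))
(S (nat_lit 15323) (S (nat_lit 20778) (S (nat_lit 10999) (S (nat_lit 21527) (S (nat_lit 10966) (S (nat_lit 20736) (S (nat_lit 21512) (S (nat_lit 15371) (S (nat_lit 1969) (S (nat_lit 1975) (S (nat_lit 1240) (S (nat_lit 1246) (S (nat_lit 1262) (S (nat_lit 21540) (S (nat_lit 20194) (L (nat_lit 2375256))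
(L (nat_lit 19743816)))
(L (nat_lit 21556548)))
(S (nat_lit 8468) (L (nat_lit 1360539))
(L (nat_lit 3645052))))
(L (nat_lit 20407652)))
(L (nat_lit 13425892)))
(L (nat_lit 14519943)))
(L (nat_lit 14473223)))
(L (nat_lit 7954607)))
(L (nat_lit 21939555)))
(L (nat_lit 22286778)))
(L (nat_lit 8094234)))
(L (nat_lit 5809913)))
(S (nat_lit 11809) (L (nat_lit 14282948))
(L (nat_lit 6436631))))
(S (nat_lit 21102) (S (nat_lit 8773) (L (nat_lit 16905864))
(L (nat_lit 6820474)))
(L (nat_lit 802035))))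
(L (nat_lit 7368301))))
(S (nat_lit 40575) (S (nat_lit 40542) (S (nat_lit 9806) (L (nat_lit 19705007))
(S (nat_lit 15371) (S (nat_lit 10966) (S (nat_lit 21512) (S (nat_lit 21527) (S (nat_lit 75) (S (nat_lit 1975) (S (nat_lit 1246) (S (nat_lit 25771) (L (nat_lit 28453268))
(S (nat_lit 50505) (S (nat_lit 15779) (L (nat_lit 11682491))
(L (nat_lit 19804355)))
(L (nat_lit 27342164))))
(L (nat_lit 12968577)))
(L (nat_lit 20406500)))
(L (nat_lit 7214764)))
(L (nat_lit 15410977)))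
(L (nat_lit 6035895)))
(L (nat_lit 6373207)))
(L (nat_lit 6963389))))
(S (nat_lit 41190) (L (nat_lit 1980631))
(L (nat_lit 7356179))))
(L (nat_lit 25920877)))))
(S (nat_lit 19806) (S (nat_lit 1986) (S (nat_lit 75) (S (nat_lit 17521) (S (nat_lit 8773) (S (nat_lit 17496) (L (nat_lit 22951136))
(L (nat_lit 26983463)))
(L (nat_lit 26230441)))
(L (nat_lit 26235337)))
(S (nat_lit 19839) (S (nat_lit 15334) (S (nat_lit 19811) (S (nat_lit 41547) (L (nat_lit 4897147))
(L (nat_lit 729595)))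
(L (nat_lit 21080507)))
(S (nat_lit 22328) (L (nat_lit 13343649))
(L (nat_lit 26225142))))
(S (nat_lit 39603) (S (nat_lit 41276) (S (nat_lit 35135) (S (nat_lit 21004) (S (nat_lit 21783) (S (nat_lit 1763) (S (nat_lit 30730) (S (nat_lit 41503) (S (nat_lit 4713) (L (nat_lit 2375385))
(S (nat_lit 24056) (L (nat_lit 18110556))
(L (nat_lit 833222))))
(L (nat_lit 23424449)))
(L (nat_lit 9195939)))
(L (nat_lit 18998822)))
(L (nat_lit 10510253)))
(L (nat_lit 30825761)))
(L (nat_lit 13238619)))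
(L (nat_lit 27516321)))
(L (nat_lit 25903207)))))
(S (nat_lit 21750) (S (nat_lit 1748) (S (nat_lit 17543) (S (nat_lit 8773) (S (nat_lit 21021) (L (nat_lit 9589676))
(L (nat_lit 22068010)))
(L (nat_lit 7016890)))
(S (nat_lit 23800) (L (nat_lit 26523799))
(L (nat_lit 16012037))))
(S (nat_lit 21512) (S (nat_lit 8748) (L (nat_lit 2019664))
(L (nat_lit 8146992)))
(S (nat_lit 41276) (S (nat_lit 8779) (L (nat_lit 29446385))
(S (nat_lit 50351) (S (nat_lit 12784) (L (nat_lit 22548697))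
(L (nat_lit 8033722)))
(L (nat_lit 23378010))))
(L (nat_lit 25338295)))))
(S (nat_lit 41514) (S (nat_lit 1882) (L (nat_lit 2422353))
(S (nat_lit 35135) (S (nat_lit 40774) (S (nat_lit 30730) (S (nat_lit 41503) (S (nat_lit 21004) (S (nat_lit 2019) (S (nat_lit 39603) (S (nat_lit 1763) (S (nat_lit 50527) (S (nat_lit 54851) (S (nat_lit 5549) (L (nat_lit 15510645))
(S (nat_lit 40733) (L (nat_lit 19408986))
(L (nat_lit 29904905))))
(L (nat_lit 11265133)))
(L (nat_lit 11691506)))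
(L (nat_lit 26750071)))
(L (nat_lit 23226668)))
(L (nat_lit 10378284)))
(L (nat_lit 30760449)))
(L (nat_lit 27931969)))
(L (nat_lit 25082985)))
(L (nat_lit 2782415)))
(L (nat_lit 18187867))))
(L (nat_lit 25495058)))))
(S (nat_lit 39570) (S (nat_lit 15351) (S (nat_lit 15323) (S (nat_lit 15384) (S (nat_lit 17543) (S (nat_lit 8795) (S (nat_lit 8762) (S (nat_lit 17521) (S (nat_lit 17571) (L (nat_lit 21795239))
(L (nat_lit 6754936)))
(L (nat_lit 22582619)))
(L (nat_lit 7039525)))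
(L (nat_lit 8229517)))
(L (nat_lit 8229362)))
(S (nat_lit 35148) (S (nat_lit 10935) (S (nat_lit 39575) (S (nat_lit 35135) (S (nat_lit 20736) (S (nat_lit 8748) (L (nat_lit 12611270))
(L (nat_lit 7029504)))
(L (nat_lit 7228836)))
(L (nat_lit 31078756)))
(L (nat_lit 27928964)))
(L (nat_lit 20987654)))
(S (nat_lit 54912) (S (nat_lit 19699) (S (nat_lit 19811) (L (nat_lit 629275))
(L (nat_lit 15345691)))
(S (nat_lit 41486) (S (nat_lit 20750) (S (nat_lit 40757) (S (nat_lit 21490) (L (nat_lit 21236221))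
(L (nat_lit 7964462)))
(L (nat_lit 8295056)))
(L (nat_lit 12472803)))
(L (nat_lit 415064))))
(L (nat_lit 25831968)))))
(S (nat_lit 35087) (S (nat_lit 20233) (L (nat_lit 6319725))
(S (nat_lit 50510) (S (nat_lit 21739) (S (nat_lit 21010) (S (nat_lit 54912) (S (nat_lit 1748) (S (nat_lit 27052) (L (nat_lit 6211174))
(L (nat_lit 11310767)))
(L (nat_lit 12611894)))
(L (nat_lit 27864449)))
(L (nat_lit 4410126)))
(L (nat_lit 1750794)))
(L (nat_lit 27343093))))
(S (nat_lit 54851) (S (nat_lit 21465) (S (nat_lit 39575) (S (nat_lit 20736) (S (nat_lit 20750) (L (nat_lit 8448402))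
(L (nat_lit 6110855)))
(L (nat_lit 22094733)))
(L (nat_lit 16854650)))
(L (nat_lit 7432813)))
(L (nat_lit 25927789)))))
(S (nat_lit 35115) (S (nat_lit 8795) (S (nat_lit 17521) (S (nat_lit 10982) (L (nat_lit 13931162))
(S (nat_lit 24265) (L (nat_lit 26320492))
(L (nat_lit 26290741))))
(L (nat_lit 6853210)))
(S (nat_lit 28559) (S (nat_lit 17527) (S (nat_lit 1034) (L (nat_lit 29446568))
(L (nat_lit 19436457)))
(L (nat_lit 7421811)))
(S (nat_lit 48323) (S (nat_lit 57055) (S (nat_lit 20750) (S (nat_lit 21540) (L (nat_lit 17506050))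
(L (nat_lit 30974626)))
(L (nat_lit 21052795)))
(L (nat_lit 10567574)))
(L (nat_lit 25769157)))))
(S (nat_lit 54879) (S (nat_lit 1969) (S (nat_lit 20750) (S (nat_lit 20798) (S (nat_lit 57066) (S (nat_lit 8795) (L (nat_lit 21796079))
(L (nat_lit 21085963)))
(L (nat_lit 27993473)))
(L (nat_lit 30723585)))
(L (nat_lit 5872401)))
(S (nat_lit 21733) (S (nat_lit 1034) (S (nat_lit 50505) (S (nat_lit 48318) (S (nat_lit 48290) (L (nat_lit 30125167))
(L (nat_lit 6146442)))
(L (nat_lit 22586113)))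
(L (nat_lit 20751745)))
(L (nat_lit 14411041)))
(S (nat_lit 41497) (S (nat_lit 1748) (S (nat_lit 35148) (S (nat_lit 50494) (S (nat_lit 40768) (S (nat_lit 30746) (S (nat_lit 21010) (S (nat_lit 22861) (L (nat_lit 30837450))
(L (nat_lit 18955549)))
(L (nat_lit 30920033)))
(L (nat_lit 3069483)))
(L (nat_lit 27870433)))
(L (nat_lit 5558812)))
(L (nat_lit 9226625)))
(S (nat_lit 12851) (L (nat_lit 12776103))
(L (nat_lit 20280705))))
(L (nat_lit 25544385)))))
(L (nat_lit 25249351)))))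
(L (nat_lit 25660754)))))
(S (nat_lit 35120) (S (nat_lit 17558) (S (nat_lit 1215) (S (nat_lit 1701) (S (nat_lit 1748) (S (nat_lit 1019) (S (nat_lit 1036) (S (nat_lit 972) (S (nat_lit 40768) (S (nat_lit 1991) (S (nat_lit 64) (S (nat_lit 17538) (L (nat_lit 10110883))
(L (nat_lit 7040175)))
(L (nat_lit 7047579)))
(L (nat_lit 20777350)))
(L (nat_lit 27656436)))
(L (nat_lit 9179756)))
(L (nat_lit 20878726)))
(L (nat_lit 20815235)))
(S (nat_lit 19646) (L (nat_lit 287125))
(L (nat_lit 19203484))))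
(S (nat_lit 9455) (L (nat_lit 20722827))
(L (nat_lit 20309378))))
(S (nat_lit 20979) (S (nat_lit 8779) (S (nat_lit 10966) (S (nat_lit 19789) (S (nat_lit 15371) (L (nat_lit 8196719))
(L (nat_lit 7210573)))
(L (nat_lit 21905544)))
(L (nat_lit 26300720)))
(L (nat_lit 858519)))
(S (nat_lit 40743) (S (nat_lit 8779) (S (nat_lit 10966) (S (nat_lit 15371) (S (nat_lit 15373) (L (nat_lit 23521451))
(L (nat_lit 26821859)))
(L (nat_lit 7243341)))
(L (nat_lit 26300720)))
(L (nat_lit 21043611)))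
(L (nat_lit 25567843)))))
(S (nat_lit 37322) (S (nat_lit 8773) (S (nat_lit 1776) (S (nat_lit 1047) (S (nat_lit 1019) (S (nat_lit 1748) (S (nat_lit 21708) (S (nat_lit 48338) (L (nat_lit 30029929))
(L (nat_lit 14282085)))
(L (nat_lit 1667437)))
(L (nat_lit 12611959)))
(L (nat_lit 14348609)))
(L (nat_lit 13332648)))
(S (nat_lit 21540) (S (nat_lit 20750) (S (nat_lit 39570) (S (nat_lit 35135) (L (nat_lit 14265372))
(L (nat_lit 30758061)))
(L (nat_lit 24001703)))
(L (nat_lit 31047011)))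
(S (nat_lit 41304) (S (nat_lit 1066) (L (nat_lit 12375217))
(S (nat_lit 20750) (S (nat_lit 39570) (S (nat_lit 40743) (L (nat_lit 14265372))
(L (nat_lit 27666610)))
(L (nat_lit 17716391)))
(L (nat_lit 12157403))))
(L (nat_lit 25698948)))))
(L (nat_lit 14898362)))
(S (nat_lit 57086) (S (nat_lit 15384) (S (nat_lit 1172) (L (nat_lit 30752451))
(S (nat_lit 30774) (S (nat_lit 1743) (S (nat_lit 28543) (S (nat_lit 21750) (S (nat_lit 28559) (L (nat_lit 5979352))
(L (nat_lit 10403524)))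
(L (nat_lit 21932109)))
(L (nat_lit 30671250)))
(S (nat_lit 47665) (L (nat_lit 15641285))
(L (nat_lit 4664242))))
(L (nat_lit 3626759))))
(S (nat_lit 35148) (S (nat_lit 25) (S (nat_lit 35135) (S (nat_lit 1732) (S (nat_lit 1246) (L (nat_lit 3489652))
(L (nat_lit 9057435)))
(L (nat_lit 14494900)))
(L (nat_lit 12932964)))
(S (nat_lit 19789) (S (nat_lit 1036) (S (nat_lit 21708) (S (nat_lit 39603) (L (nat_lit 28715029))
(L (nat_lit 27831378)))
(L (nat_lit 7968156)))
(L (nat_lit 12687995)))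
(S (nat_lit 39553) (S (nat_lit 48318) (S (nat_lit 48301) (L (nat_lit 6204013))
(L (nat_lit 13653337)))
(L (nat_lit 22299835)))
(L (nat_lit 25773379)))))
(S (nat_lit 54912) (S (nat_lit 10966) (S (nat_lit 48338) (S (nat_lit 1748) (S (nat_lit 1019) (L (nat_lit 27270549))
(L (nat_lit 8848989)))
(L (nat_lit 9897565)))
(L (nat_lit 4823482)))
(S (nat_lit 30730) (S (nat_lit 39603) (S (nat_lit 1019) (S (nat_lit 1748) (L (nat_lit 17138583))
(L (nat_lit 26674760)))
(L (nat_lit 26674761)))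
(L (nat_lit 27988237)))
(S (nat_lit 50494) (S (nat_lit 1036) (S (nat_lit 20750) (L (nat_lit 11616180))
(L (nat_lit 6929435)))
(L (nat_lit 11254939)))
(L (nat_lit 25443447)))))
(L (nat_lit 25596614)))))
(L (nat_lit 25351532)))))
(S (nat_lit 54884) (S (nat_lit 10977) (S (nat_lit 1969) (S (nat_lit 1034) (S (nat_lit 48338) (S (nat_lit 57086) (L (nat_lit 19760555))
(L (nat_lit 15062202)))
(L (nat_lit 22395066)))
(S (nat_lit 20798) (S (nat_lit 9125) (L (nat_lit 5809044))
(S (nat_lit 28574) (L (nat_lit 1888650))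
(L (nat_lit 19760495))))
(S (nat_lit 40562) (S (nat_lit 30699) (S (nat_lit 50538) (L (nat_lit 11064193))
(L (nat_lit 13445697)))
(L (nat_lit 14506209)))
(L (nat_lit 25465553)))))
(S (nat_lit 21733) (S (nat_lit 2019) (S (nat_lit 29584) (L (nat_lit 5452536))
(S (nat_lit 40514) (S (nat_lit 8790) (L (nat_lit 23149479))
(L (nat_lit 7072942)))
(L (nat_lit 7427544))))
(S (nat_lit 21783) (S (nat_lit 21054) (S (nat_lit 21540) (S (nat_lit 39724) (L (nat_lit 21936450))
(L (nat_lit 14945044)))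
(L (nat_lit 11210202)))
(S (nat_lit 38466) (L (nat_lit 1979733))
(L (nat_lit 15736506))))
(S (nat_lit 41547) (S (nat_lit 8810) (S (nat_lit 17558) (L (nat_lit 16084149))
(L (nat_lit 1973652)))
(L (nat_lit 1973871)))
(L (nat_lit 25249451)))))
(S (nat_lit 41497) (S (nat_lit 10935) (S (nat_lit 40768) (S (nat_lit 15309) (S (nat_lit 20750) (S (nat_lit 15384) (S (nat_lit 8748) (L (nat_lit 16614055))
(L (nat_lit 21765569)))
(L (nat_lit 7214485)))
(L (nat_lit 21370073)))
(L (nat_lit 26435073)))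
(L (nat_lit 27903201)))
(S (nat_lit 30699) (S (nat_lit 40768) (S (nat_lit 20750) (S (nat_lit 39570) (S (nat_lit 41291) (S (nat_lit 15323) (S (nat_lit 15384) (S (nat_lit 40562) (S (nat_lit 21010) (S (nat_lit 21739) (S (nat_lit 1019) (S (nat_lit 1748) (S (nat_lit 50494) (S (nat_lit 35115) (S (nat_lit 19839) (S (nat_lit 54837) (S (nat_lit 50538) (S (nat_lit 5039) (S (nat_lit 3785) (S (nat_lit 24336) (S (nat_lit 4796) (S (nat_lit 9642) (S (nat_lit 29194) (S (nat_lit 49709) (S (nat_lit 1036) (S (nat_lit 1765) (S (nat_lit 17873) (S (nat_lit 9564) (S (nat_lit 46804) (S (nat_lit 47533) (D (nat_lit 11) (nat_lit 13509187) (nat_lit 14246181) (nat_lit 213709488256))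
(L (nat_lit 29985258)))
(L (nat_lit 29985259)))
(S (nat_lit 31294) (S (nat_lit 50809) (S (nat_lit 2352) (D (nat_lit 13) (nat_lit 12339617) (nat_lit 17933074) (nat_lit 1346472347654))
(L (nat_lit 24943137)))
(L (nat_lit 21193217)))
(L (nat_lit 2906352))))
(L (nat_lit 447403)))
(L (nat_lit 10409344)))
(L (nat_lit 9360773)))
(L (nat_lit 19072538)))
(L (nat_lit 795058)))
(L (nat_lit 22855754)))
(L (nat_lit 1549052)))
(L (nat_lit 16426076)))
(L (nat_lit 22520924)))
(S (nat_lit 17510) (S (nat_lit 21783) (S (nat_lit 21540) (S (nat_lit 20811) (S (nat_lit 20993) (S (nat_lit 28576) (S (nat_lit 37302) (S (nat_lit 8810) (S (nat_lit 13351) (S (nat_lit 57088) (S (nat_lit 1701) (S (nat_lit 838) (S (nat_lit 40894) (S (nat_lit 29107) (S (nat_lit 20219) (S (nat_lit 55541) (S (nat_lit 31051) (D (nat_lit 9) (nat_lit 26811441) (nat_lit 19672172) (nat_lit 38658972933))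
(L (nat_lit 29080768)))
(L (nat_lit 12813234)))
(L (nat_lit 13555851)))
(L (nat_lit 29079777)))
(L (nat_lit 29080771)))
(S (nat_lit 18211) (S (nat_lit 12544) (S (nat_lit 9628) (S (nat_lit 8215) (S (nat_lit 57485) (S (nat_lit 52742) (D (nat_lit 9) (nat_lit 9581490) (nat_lit 25765253) (nat_lit 35535455496))
(L (nat_lit 28724449)))
(L (nat_lit 29957602)))
(L (nat_lit 29963522)))
(L (nat_lit 27898146)))
(L (nat_lit 27899138)))
(L (nat_lit 12012603))))
(L (nat_lit 2699577)))
(L (nat_lit 10898489)))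
(L (nat_lit 29939785)))
(L (nat_lit 6996124)))
(L (nat_lit 20234396)))
(L (nat_lit 18523010)))
(L (nat_lit 12472802)))
(L (nat_lit 14735740)))
(L (nat_lit 14735708)))
(L (nat_lit 14899356)))
(S (nat_lit 22524) (S (nat_lit 2793) (S (nat_lit 45346) (S (nat_lit 44617) (S (nat_lit 18376) (S (nat_lit 44553) (S (nat_lit 6011) (S (nat_lit 1036) (S (nat_lit 18312) (S (nat_lit 6983) (S (nat_lit 38715) (S (nat_lit 26749) (S (nat_lit 57086) (S (nat_lit 33702) (D (nat_lit 9) (nat_lit 10227345) (nat_lit 15294755) (nat_lit 281429450754))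
(L (nat_lit 19738848)))
(L (nat_lit 27853258)))
(L (nat_lit 27675841)))
(L (nat_lit 27865280)))
(S (nat_lit 8762) (S (nat_lit 35269) (S (nat_lit 51781) (S (nat_lit 24230) (D (nat_lit 9) (nat_lit 7263683) (nat_lit 5857580) (nat_lit 103247190248))
(L (nat_lit 24002757)))
(L (nat_lit 21489735)))
(L (nat_lit 27991456)))
(L (nat_lit 1891882))))
(L (nat_lit 23903400)))
(L (nat_lit 2862894)))
(L (nat_lit 23563548)))
(L (nat_lit 22050216)))
(L (nat_lit 23538843)))
(L (nat_lit 22252988)))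
(L (nat_lit 22220220)))
(L (nat_lit 22604037)))
(L (nat_lit 24363100)))))
(L (nat_lit 20723969)))
(L (nat_lit 27481104)))
(L (nat_lit 8941185)))
(L (nat_lit 17916277)))
(L (nat_lit 27349264)))
(L (nat_lit 19363169)))
(L (nat_lit 19363137)))
(L (nat_lit 8308783)))
(L (nat_lit 7260207)))
(L (nat_lit 24374817)))
(L (nat_lit 26819873)))
(L (nat_lit 224975)))
(L (nat_lit 24342049)))
(L (nat_lit 27775297)))
(L (nat_lit 15814873)))
(L (nat_lit 24472097)))
(S (nat_lit 50463) (S (nat_lit 40768) (S (nat_lit 1748) (S (nat_lit 15384) (L (nat_lit 10051969))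
(L (nat_lit 6910497)))
(L (nat_lit 14525025)))
(L (nat_lit 27902177)))
(L (nat_lit 25206481)))))
(L (nat_lit 25336341)))))
(S (nat_lit 30741) (S (nat_lit 1262) (S (nat_lit 10935) (S (nat_lit 8773) (S (nat_lit 19806) (L (nat_lit 6845025))
(L (nat_lit 14766426)))
(S (nat_lit 48220) (L (nat_lit 10371684))
(L (nat_lit 26426551))))
(S (nat_lit 30699) (S (nat_lit 64) (S (nat_lit 1765) (S (nat_lit 1991) (S (nat_lit 37260) (L (nat_lit 29857975))
(L (nat_lit 13884444)))
(L (nat_lit 19775656)))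
(L (nat_lit 20851072)))
(S (nat_lit 19995) (L (nat_lit 13783849))
(L (nat_lit 20488250))))
(S (nat_lit 50463) (S (nat_lit 1567) (S (nat_lit 9706) (L (nat_lit 11113883))
(L (nat_lit 22162842)))
(S (nat_lit 37335) (S (nat_lit 1743) (L (nat_lit 8417903))
(L (nat_lit 13881464)))
(L (nat_lit 3499631))))
(L (nat_lit 25836551)))))
(S (nat_lit 21026) (S (nat_lit 986) (S (nat_lit 21770) (S (nat_lit 21739) (L (nat_lit 10543575))
(L (nat_lit 21927247)))
(L (nat_lit 21501734)))
(S (nat_lit 20750) (S (nat_lit 8908) (L (nat_lit 11951290))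
(S (nat_lit 35135) (S (nat_lit 57055) (L (nat_lit 7079317))
(L (nat_lit 21791241)))
(L (nat_lit 3593595))))
(S (nat_lit 40514) (S (nat_lit 8773) (L (nat_lit 30029993))
(L (nat_lit 7091383)))
(L (nat_lit 25761255)))))
(S (nat_lit 40790) (S (nat_lit 17496) (S (nat_lit 8748) (S (nat_lit 54912) (S (nat_lit 39570) (S (nat_lit 19811) (S (nat_lit 1958) (S (nat_lit 57066) (S (nat_lit 40768) (S (nat_lit 15323) (S (nat_lit 40562) (S (nat_lit 41519) (S (nat_lit 48290) (S (nat_lit 20800) (S (nat_lit 11525) (S (nat_lit 31306) (S (nat_lit 39592) (S (nat_lit 1726) (S (nat_lit 30763) (S (nat_lit 40818) (S (nat_lit 38929) (S (nat_lit 45006) (S (nat_lit 8852) (S (nat_lit 19364) (S (nat_lit 39358) (D (nat_lit 13) (nat_lit 25804934) (nat_lit 19672241) (nat_lit 107642814535))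
(L (nat_lit 28907632)))
(L (nat_lit 30968520)))
(L (nat_lit 28528005)))
(L (nat_lit 4087242)))
(S (nat_lit 44040) (S (nat_lit 23637) (S (nat_lit 29421) (S (nat_lit 10051) (S (nat_lit 37212) (D (nat_lit 13) (nat_lit 27993164) (nat_lit 25764975) (nat_lit 6777699604580))
(L (nat_lit 7265664)))
(L (nat_lit 28981473)))
(L (nat_lit 21458242)))
(L (nat_lit 15585602)))
(L (nat_lit 18630663))))
(L (nat_lit 24641915)))
(L (nat_lit 19772611)))
(L (nat_lit 19711168)))
(L (nat_lit 11232643)))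
(L (nat_lit 14979858)))
(L (nat_lit 1293141)))
(L (nat_lit 6021510)))
(L (nat_lit 14605572)))
(L (nat_lit 23323010)))
(L (nat_lit 1624839)))
(L (nat_lit 8149071)))
(L (nat_lit 7957025)))
(L (nat_lit 27797057)))
(L (nat_lit 26618528)))
(L (nat_lit 2409083)))
(L (nat_lit 17060673)))
(L (nat_lit 27699809)))
(S (nat_lit 53080) (L (nat_lit 26433549))
(L (nat_lit 1262358))))
(S (nat_lit 37260) (S (nat_lit 41260) (S (nat_lit 8823) (S (nat_lit 28554) (S (nat_lit 35073) (S (nat_lit 15373) (S (nat_lit 50463) (S (nat_lit 21770) (S (nat_lit 21529) (S (nat_lit 39570) (S (nat_lit 40531) (S (nat_lit 19789) (S (nat_lit 6999) (S (nat_lit 13746) (S (nat_lit 19811) (S (nat_lit 46267) (S (nat_lit 13696) (S (nat_lit 8926) (S (nat_lit 56690) (S (nat_lit 41228) (D (nat_lit 15) (nat_lit 27870564) (nat_lit 11985475) (nat_lit 206163675202))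
(L (nat_lit 30119984)))
(L (nat_lit 22884608)))
(S (nat_lit 17829) (S (nat_lit 15704) (S (nat_lit 32337) (S (nat_lit 29421) (D (nat_lit 11) (nat_lit 30097632) (nat_lit 19670190) (nat_lit 71109251268))
(L (nat_lit 27348424)))
(L (nat_lit 27348457)))
(L (nat_lit 27865443)))
(L (nat_lit 13854871))))
(L (nat_lit 29012289)))
(L (nat_lit 9831036)))
(L (nat_lit 2409083)))
(L (nat_lit 19947975)))
(L (nat_lit 1651622)))
(L (nat_lit 30425429)))
(L (nat_lit 7524143)))
(L (nat_lit 24395520)))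
(L (nat_lit 21094791)))
(L (nat_lit 1593190)))
(L (nat_lit 20808911)))
(L (nat_lit 24505361)))
(L (nat_lit 20121114)))
(L (nat_lit 18969936)))
(L (nat_lit 7213646)))
(L (nat_lit 17699156)))
(S (nat_lit 57024) (S (nat_lit 1229) (S (nat_lit 31) (S (nat_lit 28512) (S (nat_lit 17543) (S (nat_lit 997) (S (nat_lit 19839) (S (nat_lit 39542) (S (nat_lit 1019) (S (nat_lit 54912) (S (nat_lit 41497) (S (nat_lit 48323) (S (nat_lit 21041) (S (nat_lit 48351) (S (nat_lit 35104) (S (nat_lit 4834) (S (nat_lit 20800) (S (nat_lit 41229) (S (nat_lit 45707) (S (nat_lit 38960) (S (nat_lit 31670) (S (nat_lit 15673) (D (nat_lit 11) (nat_lit 27864580) (nat_lit 25544814) (nat_lit 212843303973))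
(L (nat_lit 29050117)))
(L (nat_lit 3003783)))
(L (nat_lit 3002758)))
(S (nat_lit 55961) (S (nat_lit 43811) (S (nat_lit 56659) (S (nat_lit 49338) (S (nat_lit 3401) (D (nat_lit 13) (nat_lit 31145218) (nat_lit 25764977) (nat_lit 3509159202055))
(L (nat_lit 30844609)))
(L (nat_lit 14807690)))
(L (nat_lit 15617066)))
(L (nat_lit 19742858)))
(L (nat_lit 30726562))))
(L (nat_lit 3453565)))
(L (nat_lit 21272462)))
(L (nat_lit 24001760)))
(L (nat_lit 13305117)))
(L (nat_lit 13822694)))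
(L (nat_lit 15411227)))
(L (nat_lit 11064376)))
(L (nat_lit 27712583)))
(L (nat_lit 21326208)))
(L (nat_lit 26433921)))
(L (nat_lit 10934052)))
(L (nat_lit 2665146)))
(L (nat_lit 14425140)))
(L (nat_lit 26290860)))
(L (nat_lit 19742945)))
(L (nat_lit 26495426)))
(L (nat_lit 6045353)))
(L (nat_lit 25172533)))))
(L (nat_lit 25856423)))))
(S (nat_lit 50505) (S (nat_lit 10999) (S (nat_lit 20750) (S (nat_lit 21805) (L (nat_lit 10088461))
(S (nat_lit 41497) (S (nat_lit 21076) (L (nat_lit 29466132))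
(L (nat_lit 7992335)))
(L (nat_lit 24535050))))
(S (nat_lit 31658) (L (nat_lit 12272385))
(L (nat_lit 16358147))))
(S (nat_lit 30763) (S (nat_lit 2006) (S (nat_lit 39559) (S (nat_lit 21739) (S (nat_lit 19826) (S (nat_lit 54879) (S (nat_lit 1290) (S (nat_lit 40768) (S (nat_lit 1748) (S (nat_lit 1003) (S (nat_lit 50510) (S (nat_lit 21010) (S (nat_lit 35148) (S (nat_lit 19828) (S (nat_lit 10935) (S (nat_lit 20736) (S (nat_lit 41293) (S (nat_lit 40562) (S (nat_lit 54868) (S (nat_lit 20761) (S (nat_lit 21465) (S (nat_lit 15309) (S (nat_lit 40743) (S (nat_lit 2019) (S (nat_lit 40564) (S (nat_lit 24293) (S (nat_lit 42864) (S (nat_lit 53518) (S (nat_lit 54258) (S (nat_lit 23133) (S (nat_lit 24746) (S (nat_lit 36200) (S (nat_lit 28512) (S (nat_lit 37015) (S (nat_lit 50640) (S (nat_lit 56019) (D (nat_lit 15) (nat_lit 3951079) (nat_lit 11714322) (nat_lit 248035574021))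
(L (nat_lit 26942510)))
(L (nat_lit 26951718)))
(L (nat_lit 15519937)))
(L (nat_lit 25835712)))
(S (nat_lit 41594) (S (nat_lit 25309) (S (nat_lit 32859) (D (nat_lit 11) (nat_lit 8279086) (nat_lit 9003184) (nat_lit 76405637318))
(L (nat_lit 27924865)))
(L (nat_lit 27934980)))
(L (nat_lit 19696911))))
(L (nat_lit 24032546)))
(L (nat_lit 3862058)))
(L (nat_lit 2644811)))
(L (nat_lit 2649707)))
(L (nat_lit 7188562)))
(S (nat_lit 47227) (S (nat_lit 45510) (S (nat_lit 44786) (S (nat_lit 27507) (S (nat_lit 33480) (S (nat_lit 32630) (S (nat_lit 28512) (S (nat_lit 32641) (S (nat_lit 55014) (S (nat_lit 51645) (D (nat_lit 15) (nat_lit 3951079) (nat_lit 12031762) (nat_lit 248035574021))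
(L (nat_lit 26745908)))
(L (nat_lit 26761254)))
(L (nat_lit 21805249)))
(L (nat_lit 25835712)))
(S (nat_lit 48323) (S (nat_lit 34055) (S (nat_lit 24136) (D (nat_lit 11) (nat_lit 8276145) (nat_lit 9193648) (nat_lit 76405637318))
(L (nat_lit 27995586)))
(L (nat_lit 27997408)))
(L (nat_lit 5519285))))
(L (nat_lit 17731302)))
(L (nat_lit 3657082)))
(L (nat_lit 28542572)))
(L (nat_lit 28529092)))
(S (nat_lit 48365) (S (nat_lit 48378) (S (nat_lit 28554) (S (nat_lit 57099) (S (nat_lit 25307) (S (nat_lit 11998) (S (nat_lit 32630) (S (nat_lit 35012) (D (nat_lit 13) (nat_lit 27445553) (nat_lit 25767025) (nat_lit 6776659417219))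
(L (nat_lit 28030181)))
(L (nat_lit 21857704)))
(L (nat_lit 27924557)))
(S (nat_lit 50461) (S (nat_lit 16706) (S (nat_lit 56428) (S (nat_lit 42583) (S (nat_lit 50311) (D (nat_lit 13) (nat_lit 30525807) (nat_lit 25764975) (nat_lit 3544559193350))
(L (nat_lit 16697570)))
(L (nat_lit 2969126)))
(L (nat_lit 22951168)))
(L (nat_lit 30127360)))
(L (nat_lit 29726103))))
(L (nat_lit 5661286)))
(L (nat_lit 30525926)))
(L (nat_lit 21457156)))
(L (nat_lit 15587371)))))
(L (nat_lit 3724198)))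
(L (nat_lit 19427371)))
(L (nat_lit 24384955)))
(L (nat_lit 22846510)))
(L (nat_lit 7943042)))
(L (nat_lit 21372709)))
(L (nat_lit 19199363)))
(L (nat_lit 3732726)))
(L (nat_lit 3877276)))
(L (nat_lit 22112650)))
(L (nat_lit 21536513)))
(L (nat_lit 10160541)))
(L (nat_lit 20813190)))
(L (nat_lit 2018670)))
(L (nat_lit 6083820)))
(L (nat_lit 11383456)))
(L (nat_lit 26871208)))
(L (nat_lit 7989761)))
(L (nat_lit 19428707)))
(L (nat_lit 21049725)))
(L (nat_lit 9123003)))
(L (nat_lit 4992687)))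
(S (nat_lit 42611) (L (nat_lit 26945553))
(L (nat_lit 11619119))))
(S (nat_lit 21770) (S (nat_lit 20750) (S (nat_lit 35148) (S (nat_lit 997) (S (nat_lit 1958) (S (nat_lit 57024) (L (nat_lit 19402662))
(L (nat_lit 18923430)))
(L (nat_lit 19196386)))
(L (nat_lit 20006790)))
(L (nat_lit 31009153)))
(S (nat_lit 36139) (L (nat_lit 13807382))
(L (nat_lit 21043985))))
(S (nat_lit 41534) (S (nat_lit 1036) (S (nat_lit 19839) (S (nat_lit 35148) (S (nat_lit 20767) (S (nat_lit 48301) (L (nat_lit 18000569))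
(L (nat_lit 12261132)))
(L (nat_lit 14691092)))
(L (nat_lit 30846561)))
(L (nat_lit 21500186)))
(S (nat_lit 15754) (L (nat_lit 15603305))
(L (nat_lit 13927035))))
(L (nat_lit 25250312)))))
(S (nat_lit 50527) (S (nat_lit 997) (S (nat_lit 20750) (S (nat_lit 24502) (L (nat_lit 19408804))
(L (nat_lit 11034804)))
(L (nat_lit 5877211)))
(S (nat_lit 20761) (S (nat_lit 30826) (L (nat_lit 26291734))
(S (nat_lit 54879) (S (nat_lit 20750) (S (nat_lit 48351) (L (nat_lit 11559534))
(L (nat_lit 5630542)))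
(L (nat_lit 12139547)))
(L (nat_lit 10577552))))
(S (nat_lit 40525) (S (nat_lit 21739) (S (nat_lit 20736) (S (nat_lit 1732) (L (nat_lit 15328485))
(L (nat_lit 5093034)))
(L (nat_lit 21064106)))
(S (nat_lit 46541) (L (nat_lit 4080917))
(L (nat_lit 14838005))))
(L (nat_lit 25497326)))))
(L (nat_lit 25496269)))))
(L (nat_lit 25444961)))))
(L (nat_lit 25250251)))))
(S (nat_lit 41243) (S (nat_lit 17538) (S (nat_lit 15373) (S (nat_lit 1732) (S (nat_lit 2061) (L (nat_lit 16586932))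
(S (nat_lit 15323) (S (nat_lit 1277) (S (nat_lit 8823) (S (nat_lit 1019) (S (nat_lit 10982) (L (nat_lit 11122464))
(L (nat_lit 7163365)))
(L (nat_lit 13272873)))
(L (nat_lit 7228961)))
(S (nat_lit 40724) (S (nat_lit 20767) (L (nat_lit 11564435))
(L (nat_lit 7006656)))
(L (nat_lit 26292471))))
(L (nat_lit 7400850))))
(S (nat_lit 21496) (S (nat_lit 17510) (S (nat_lit 8823) (S (nat_lit 8773) (S (nat_lit 21004) (S (nat_lit 20798) (S (nat_lit 50477) (S (nat_lit 48318) (S (nat_lit 40542) (S (nat_lit 41293) (S (nat_lit 19806) (S (nat_lit 50505) (S (nat_lit 57024) (S (nat_lit 54837) (S (nat_lit 41534) (S (nat_lit 53128) (S (nat_lit 6890) (S (nat_lit 39603) (S (nat_lit 40774) (S (nat_lit 39575) (S (nat_lit 19878) (S (nat_lit 37445) (S (nat_lit 12043) (S (nat_lit 10585) (D (nat_lit 11) (nat_lit 27958318) (nat_lit 25767086) (nat_lit 212877903009))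
(L (nat_lit 27962885)))
(L (nat_lit 27968837)))
(L (nat_lit 27963651)))
(S (nat_lit 56723) (S (nat_lit 38403) (S (nat_lit 36945) (S (nat_lit 9364) (D (nat_lit 11) (nat_lit 28026273) (nat_lit 25764976) (nat_lit 212843303973))
(L (nat_lit 27866401)))
(L (nat_lit 22148555)))
(L (nat_lit 22148586)))
(L (nat_lit 23193933))))
(L (nat_lit 10574264)))
(L (nat_lit 839147)))
(L (nat_lit 11070081)))
(L (nat_lit 16453917)))
(L (nat_lit 30026927)))
(L (nat_lit 806438)))
(L (nat_lit 15756533)))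
(L (nat_lit 14707957)))
(L (nat_lit 6076071)))
(L (nat_lit 15639698)))
(L (nat_lit 23860591)))
(L (nat_lit 1981747)))
(L (nat_lit 16019638)))
(L (nat_lit 22219192)))
(L (nat_lit 576297)))
(L (nat_lit 16320760)))
(L (nat_lit 6305402)))
(L (nat_lit 7224897)))
(S (nat_lit 37274) (S (nat_lit 8748) (S (nat_lit 1019) (L (nat_lit 18903246))
(L (nat_lit 12612201)))
(L (nat_lit 26235334)))
(S (nat_lit 57038) (S (nat_lit 1019) (S (nat_lit 21783) (S (nat_lit 50505) (L (nat_lit 29676721))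
(L (nat_lit 12465332)))
(L (nat_lit 20989178)))
(L (nat_lit 8405629)))
(L (nat_lit 25379525)))))
(S (nat_lit 41260) (S (nat_lit 1958) (S (nat_lit 11010) (S (nat_lit 8823) (S (nat_lit 41271) (S (nat_lit 41291) (S (nat_lit 8812) (L (nat_lit 14014307))
(L (nat_lit 23242513)))
(L (nat_lit 18584328)))
(L (nat_lit 18175748)))
(L (nat_lit 8295828)))
(S (nat_lit 30855) (L (nat_lit 11112241))
(L (nat_lit 26684993))))
(S (nat_lit 21722) (S (nat_lit 15356) (S (nat_lit 8795) (S (nat_lit 10997) (S (nat_lit 64) (L (nat_lit 28398833))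
(L (nat_lit 7015835)))
(L (nat_lit 7257269)))
(L (nat_lit 292307)))
(L (nat_lit 22319919)))
(S (nat_lit 41486) (S (nat_lit 8795) (S (nat_lit 15356) (S (nat_lit 21010) (L (nat_lit 19805537))
(L (nat_lit 2012838)))
(L (nat_lit 1682221)))
(S (nat_lit 19995) (L (nat_lit 15280933))
(L (nat_lit 6405939))))
(L (nat_lit 25593078)))))
(L (nat_lit 25676970)))))
(S (nat_lit 35137) (S (nat_lit 15334) (S (nat_lit 2061) (S (nat_lit 37672) (L (nat_lit 7128242))
(L (nat_lit 6983069)))
(S (nat_lit 15323) (S (nat_lit 8773) (S (nat_lit 64) (S (nat_lit 15351) (S (nat_lit 10977) (S (nat_lit 17510) (S (nat_lit 20979) (L (nat_lit 12707190))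
(L (nat_lit 1649084)))
(L (nat_lit 6308476)))
(L (nat_lit 6843572)))
(L (nat_lit 7040174)))
(L (nat_lit 6843412)))
(S (nat_lit 35000) (L (nat_lit 9159867))
(L (nat_lit 1594747))))
(L (nat_lit 7400850))))
(S (nat_lit 35098) (S (nat_lit 40743) (S (nat_lit 15323) (S (nat_lit 28537) (S (nat_lit 30761) (S (nat_lit 28574) (L (nat_lit 19706026))
(L (nat_lit 24494267)))
(L (nat_lit 9851067)))
(L (nat_lit 3829068)))
(L (nat_lit 1306004)))
(L (nat_lit 23343293)))
(S (nat_lit 54862) (S (nat_lit 48338) (S (nat_lit 1215) (S (nat_lit 17521) (S (nat_lit 40531) (S (nat_lit 64) (S (nat_lit 20798) (S (nat_lit 41587) (S (nat_lit 30713) (S (nat_lit 1019) (S (nat_lit 1991) (S (nat_lit 39559) (S (nat_lit 21770) (S (nat_lit 28576) (S (nat_lit 28512) (S (nat_lit 35120) (S (nat_lit 623) (S (nat_lit 21211) (S (nat_lit 39855) (S (nat_lit 10337) (S (nat_lit 9608) (S (nat_lit 50879) (D (nat_lit 11) (nat_lit 25858443) (nat_lit 19673443) (nat_lit 180492501024))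
(L (nat_lit 17746027)))
(L (nat_lit 27862095)))
(L (nat_lit 27861069)))
(L (nat_lit 19101123)))
(L (nat_lit 27808963)))
(S (nat_lit 39992) (S (nat_lit 48391) (S (nat_lit 720) (S (nat_lit 40891) (S (nat_lit 19122) (S (nat_lit 44488) (D (nat_lit 9) (nat_lit 31169709) (nat_lit 25348396) (nat_lit 3459422280))
(L (nat_lit 19161101)))
(L (nat_lit 29414857)))
(L (nat_lit 19728839)))
(L (nat_lit 29896293)))
(L (nat_lit 15618373)))
(L (nat_lit 1579830))))
(L (nat_lit 8951547)))
(L (nat_lit 13304058)))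
(L (nat_lit 3864072)))
(L (nat_lit 14896930)))
(L (nat_lit 24245704)))
(L (nat_lit 13299878)))
(L (nat_lit 13469014)))
(L (nat_lit 30451123)))
(L (nat_lit 7009452)))
(L (nat_lit 7049785)))
(L (nat_lit 19840041)))
(L (nat_lit 27473077)))
(L (nat_lit 22231227)))
(L (nat_lit 19671213)))
(L (nat_lit 16522419)))
(L (nat_lit 25710761)))))
(S (nat_lit 54901) (S (nat_lit 1003) (S (nat_lit 15334) (S (nat_lit 25) (S (nat_lit 1019) (S (nat_lit 1290) (S (nat_lit 8823) (S (nat_lit 1748) (S (nat_lit 48323) (S (nat_lit 19795) (S (nat_lit 1277) (S (nat_lit 48318) (S (nat_lit 15309) (S (nat_lit 30741) (S (nat_lit 39592) (S (nat_lit 20979) (S (nat_lit 57352) (S (nat_lit 20798) (S (nat_lit 37335) (S (nat_lit 35120) (S (nat_lit 24541) (S (nat_lit 23645) (S (nat_lit 55797) (S (nat_lit 16609) (S (nat_lit 11155) (D (nat_lit 13) (nat_lit 26758372) (nat_lit 19670127) (nat_lit 108683001896))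
(L (nat_lit 31112451)))
(L (nat_lit 27961489)))
(L (nat_lit 6353486)))
(L (nat_lit 15588643)))
(S (nat_lit 47719) (S (nat_lit 12079) (S (nat_lit 52313) (S (nat_lit 54695) (S (nat_lit 44990) (D (nat_lit 13) (nat_lit 30591281) (nat_lit 25767025) (nat_lit 3577878711526))
(L (nat_lit 28982562)))
(L (nat_lit 28527109)))
(L (nat_lit 28941728)))
(L (nat_lit 30984448)))
(L (nat_lit 26589893))))
(L (nat_lit 9344751)))
(L (nat_lit 30740917)))
(L (nat_lit 31140387)))
(L (nat_lit 28826881)))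
(L (nat_lit 31041708)))
(L (nat_lit 6039119)))
(L (nat_lit 18986790)))
(L (nat_lit 6341399)))
(L (nat_lit 13919905)))
(L (nat_lit 19933724)))
(L (nat_lit 22114761)))
(L (nat_lit 13721813)))
(L (nat_lit 14524993)))
(L (nat_lit 1982022)))
(L (nat_lit 20181443)))
(L (nat_lit 13267265)))
(S (nat_lit 49959) (L (nat_lit 14473384))
(L (nat_lit 12640169))))
(S (nat_lit 32754) (L (nat_lit 26457267))
(L (nat_lit 6836378))))
(S (nat_lit 20767) (S (nat_lit 40850) (S (nat_lit 8790) (L (nat_lit 10997946))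
(L (nat_lit 7071918)))
(S (nat_lit 54899) (S (nat_lit 40514) (S (nat_lit 39553) (S (nat_lit 21755) (L (nat_lit 31004104))
(L (nat_lit 16444584)))
(L (nat_lit 18081972)))
(L (nat_lit 27678051)))
(L (nat_lit 14227640))))
(S (nat_lit 40531) (S (nat_lit 1215) (S (nat_lit 40514) (S (nat_lit 10997) (S (nat_lit 41304) (S (nat_lit 54884) (S (nat_lit 1019) (L (nat_lit 12754616))
(L (nat_lit 19067216)))
(L (nat_lit 16009240)))
(L (nat_lit 24912045)))
(L (nat_lit 7257269)))
(L (nat_lit 18782390)))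
(S (nat_lit 38867) (S (nat_lit 8823) (L (nat_lit 6984496))
(L (nat_lit 7263617)))
(L (nat_lit 5655897))))
(L (nat_lit 25538580)))))
(L (nat_lit 25319944)))))
(S (nat_lit 37302) (S (nat_lit 17521) (S (nat_lit 1765) (S (nat_lit 10997) (S (nat_lit 15340) (S (nat_lit 17558) (S (nat_lit 64) (L (nat_lit 20083082))
(L (nat_lit 7499375)))
(L (nat_lit 7210388)))
(L (nat_lit 6378906)))
(S (nat_lit 30761) (S (nat_lit 8779) (S (nat_lit 48351) (L (nat_lit 28545428))
(L (nat_lit 27891079)))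
(L (nat_lit 7046555)))
(S (nat_lit 50525) (S (nat_lit 1036) (S (nat_lit 25) (S (nat_lit 1003) (S (nat_lit 15334) (L (nat_lit 13207901))
(L (nat_lit 14897339)))
(L (nat_lit 19083451)))
(L (nat_lit 19310779)))
(L (nat_lit 20245893)))
(L (nat_lit 25560746)))))
(S (nat_lit 21529) (S (nat_lit 40790) (S (nat_lit 35104) (S (nat_lit 1748) (S (nat_lit 39592) (S (nat_lit 20800) (S (nat_lit 40500) (S (nat_lit 41229) (S (nat_lit 50525) (S (nat_lit 41519) (S (nat_lit 20979) (S (nat_lit 21708) (S (nat_lit 40514) (S (nat_lit 8773) (S (nat_lit 35115) (S (nat_lit 635) (S (nat_lit 19995) (S (nat_lit 48338) (S (nat_lit 20798) (S (nat_lit 19795) (S (nat_lit 41514) (S (nat_lit 5560) (S (nat_lit 25098) (S (nat_lit 23640) (S (nat_lit 2548) (D (nat_lit 11) (nat_lit 27414861) (nat_lit 25764974) (nat_lit 212843301891))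
(L (nat_lit 27448776)))
(L (nat_lit 3002857)))
(L (nat_lit 3002824)))
(S (nat_lit 52735) (S (nat_lit 43532) (S (nat_lit 44990) (S (nat_lit 5080) (D (nat_lit 11) (nat_lit 30494064) (nat_lit 25767088) (nat_lit 106473560070))
(L (nat_lit 30120353)))
(L (nat_lit 4083081)))
(L (nat_lit 4083112)))
(L (nat_lit 25014565))))
(L (nat_lit 23398156)))
(L (nat_lit 4114889)))
(L (nat_lit 22262561)))
(L (nat_lit 11988149)))
(L (nat_lit 2643750)))
(L (nat_lit 28686487)))
(L (nat_lit 18779782)))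
(L (nat_lit 23901352)))
(L (nat_lit 23468216)))
(L (nat_lit 7958917)))
(L (nat_lit 6908293)))
(L (nat_lit 7232896)))
(L (nat_lit 20781444)))
(L (nat_lit 24028546)))
(L (nat_lit 25076098)))
(L (nat_lit 5970328)))
(L (nat_lit 6045256)))
(L (nat_lit 19133825)))
(L (nat_lit 3895689)))
(L (nat_lit 27459990)))
(S (nat_lit 41293) (S (nat_lit 972) (S (nat_lit 40564) (L (nat_lit 29065607))
(L (nat_lit 10224020)))
(L (nat_lit 19665288)))
(L (nat_lit 25220399)))))
(S (nat_lit 37285) (S (nat_lit 40514) (S (nat_lit 48290) (S (nat_lit 28574) (S (nat_lit 19806) (S (nat_lit 28554) (S (nat_lit 64) (S (nat_lit 1748) (S (nat_lit 1944) (S (nat_lit 41486) (S (nat_lit 40757) (S (nat_lit 30730) (S (nat_lit 41260) (S (nat_lit 17560) (S (nat_lit 21021) (S (nat_lit 8748) (S (nat_lit 48307) (S (nat_lit 50351) (S (nat_lit 21004) (S (nat_lit 15543) (S (nat_lit 21490) (S (nat_lit 10374) (S (nat_lit 44039) (S (nat_lit 48877) (S (nat_lit 49606) (S (nat_lit 13549) (S (nat_lit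 3846) (D (nat_lit 11) (nat_lit 31015048) (nat_lit 25577829) (nat_lit 4537453603))
(L (nat_lit 30051721)))
(L (nat_lit 29610432)))
(L (nat_lit 15618243)))
(L (nat_lit 15618275)))
(L (nat_lit 19743969)))
(S (nat_lit 33545) (S (nat_lit 9206) (S (nat_lit 42173) (S (nat_lit 5991) (S (nat_lit 26652) (D (nat_lit 9) (nat_lit 28911757) (nat_lit 11290797) (nat_lit 107375435844))
(L (nat_lit 17701442)))
(L (nat_lit 29037963)))
(L (nat_lit 21389634)))
(L (nat_lit 30823747)))
(L (nat_lit 29404596))))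
(L (nat_lit 7769973)))
(L (nat_lit 4715239)))
(L (nat_lit 30809109)))
(L (nat_lit 1882389)))
(L (nat_lit 27827778)))
(L (nat_lit 23083224)))
(L (nat_lit 1846988)))
(L (nat_lit 2008566)))
(L (nat_lit 18523324)))
(L (nat_lit 8815383)))
(L (nat_lit 10388982)))
(L (nat_lit 9340406)))
(L (nat_lit 14470313)))
(L (nat_lit 9461149)))
(L (nat_lit 7015835)))
(L (nat_lit 8806582)))
(L (nat_lit 9353395)))
(L (nat_lit 24492219)))
(L (nat_lit 27281802)))
(L (nat_lit 27900073)))
(S (nat_lit 57049) (S (nat_lit 28526) (S (nat_lit 54899) (S (nat_lit 8810) (S (nat_lit 19828) (S (nat_lit 1748) (S (nat_lit 19806) (S (nat_lit 20767) (S (nat_lit 1257) (S (nat_lit 48351) (S (nat_lit 30761) (S (nat_lit 40542) (S (nat_lit 35098) (S (nat_lit 40774) (S (nat_lit 50477) (S (nat_lit 54923) (S (nat_lit 50527) (S (nat_lit 11656) (S (nat_lit 39575) (S (nat_lit 28673) (S (nat_lit 26052) (S (nat_lit 38403) (S (nat_lit 28488) (S (nat_lit 18554) (D (nat_lit 13) (nat_lit 27962509)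 (nat_lit 25767025) (nat_lit 6742299711589))
(L (nat_lit 28399015)))
(L (nat_lit 15585568)))
(L (nat_lit 22148586)))
(L (nat_lit 4120011)))
(S (nat_lit 43270) (S (nat_lit 28239) (S (nat_lit 57193) (S (nat_lit 29717) (S (nat_lit 9856) (D (nat_lit 13) (nat_lit 31108609) (nat_lit 14993528) (nat_lit 173986155719))
(L (nat_lit 27900224)))
(L (nat_lit 21862477)))
(L (nat_lit 24025477)))
(L (nat_lit 21938437)))
(L (nat_lit 20813226))))
(L (nat_lit 23369584)))
(L (nat_lit 22381328)))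
(L (nat_lit 20309474)))
(L (nat_lit 17036306)))
(L (nat_lit 22034218)))
(L (nat_lit 7499439)))
(L (nat_lit 18061107)))
(L (nat_lit 18520836)))
(L (nat_lit 14013284)))
(L (nat_lit 20786561)))
(L (nat_lit 19773669)))
(L (nat_lit 7246479)))
(L (nat_lit 21936294)))
(L (nat_lit 19952008)))
(L (nat_lit 3974549)))
(L (nat_lit 26851499)))
(L (nat_lit 19675307)))
(L (nat_lit 8407451)))
(L (nat_lit 25662803)))))
(S (nat_lit 57066) (S (nat_lit 17571) (S (nat_lit 8779) (S (nat_lit 1240) (S (nat_lit 31354) (L (nat_lit 6309652))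
(S (nat_lit 40514) (S (nat_lit 32360) (L (nat_lit 12128699))
(L (nat_lit 29794019)))
(L (nat_lit 1392439))))
(S (nat_lit 21004) (S (nat_lit 40514) (S (nat_lit 19806) (S (nat_lit 1748) (S (nat_lit 57071) (S (nat_lit 21733) (S (nat_lit 17558) (S (nat_lit 35120) (S (nat_lit 30730) (S (nat_lit 39603) (S (nat_lit 41503) (S (nat_lit 54912) (S (nat_lit 50527) (S (nat_lit 1743) (S (nat_lit 40790) (S (nat_lit 48604) (S (nat_lit 40525) (S (nat_lit 35115) (S (nat_lit 29147) (S (nat_lit 14) (S (nat_lit 15712) (S (nat_lit 44803) (S (nat_lit 54783) (S (nat_lit 52157) (S (nat_lit 32772) (D (nat_lit 13) (nat_lit 26465667) (nat_lit 25767087) (nat_lit 277059076295))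
(L (nat_lit 20178339)))
(L (nat_lit 29988942)))
(L (nat_lit 29989312)))
(L (nat_lit 21862477)))
(S (nat_lit 30834) (S (nat_lit 50321) (S (nat_lit 16609) (S (nat_lit 55802) (S (nat_lit 23991) (D (nat_lit 13) (nat_lit 29804710) (nat_lit 19670129) (nat_lit 2374280415270))
(L (nat_lit 23603292)))
(L (nat_lit 20177345)))
(L (nat_lit 28792164)))
(L (nat_lit 28528165)))
(L (nat_lit 20279345))))
(L (nat_lit 12801149)))
(L (nat_lit 28386709)))
(L (nat_lit 30804341)))
(L (nat_lit 1403413)))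
(L (nat_lit 30660753)))
(L (nat_lit 2482097)))
(L (nat_lit 13244299)))
(L (nat_lit 27593266)))
(L (nat_lit 5056919)))
(L (nat_lit 24948161)))
(L (nat_lit 27995617)))
(L (nat_lit 9518845)))
(L (nat_lit 9518843)))
(L (nat_lit 26819755)))
(L (nat_lit 7794401)))
(L (nat_lit 27349198)))
(L (nat_lit 19732865)))
(L (nat_lit 21931521)))
(L (nat_lit 1340081)))
(S (nat_lit 40768) (S (nat_lit 40514) (S (nat_lit 1763) (S (nat_lit 41229) (L (nat_lit 28906829))
(L (nat_lit 1945010)))
(L (nat_lit 26325734)))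
(L (nat_lit 27668129)))
(L (nat_lit 25339631)))))
(S (nat_lit 28543) (S (nat_lit 40757) (S (nat_lit 7220) (L (nat_lit 23889448))
(S (nat_lit 20778) (S (nat_lit 39542) (S (nat_lit 17527) (S (nat_lit 35073) (S (nat_lit 26283) (S (nat_lit 1019) (S (nat_lit 21041) (S (nat_lit 1701) (S (nat_lit 48323) (S (nat_lit 30774) (S (nat_lit 1215) (S (nat_lit 26266) (S (nat_lit 40774) (S (nat_lit 37260) (S (nat_lit 19038) (S (nat_lit 50940) (S (nat_lit 6902) (S (nat_lit 39919) (S (nat_lit 36648) (S (nat_lit 20465) (D (nat_lit 9) (nat_lit 25772256) (nat_lit 19666345) (nat_lit 34594752675))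
(L (nat_lit 27960464)))
(L (nat_lit 13886113)))
(L (nat_lit 13443745)))
(L (nat_lit 27665057)))
(L (nat_lit 30062819)))
(S (nat_lit 46712) (S (nat_lit 10438) (S (nat_lit 13792) (S (nat_lit 55178) (S (nat_lit 57122) (D (nat_lit 9) (nat_lit 31106191) (nat_lit 25767084) (nat_lit 77418697764))
(L (nat_lit 28528067)))
(L (nat_lit 28528098)))
(L (nat_lit 30853380)))
(L (nat_lit 31043842)))
(L (nat_lit 11174769))))
(L (nat_lit 23086982)))
(L (nat_lit 17714369)))
(L (nat_lit 8279523)))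
(L (nat_lit 26650802)))
(L (nat_lit 24522497)))
(L (nat_lit 27579407)))
(L (nat_lit 19171768)))
(L (nat_lit 21048112)))
(L (nat_lit 13444705)))
(L (nat_lit 6371930)))
(L (nat_lit 4078246)))
(L (nat_lit 6378938)))
(L (nat_lit 27867397)))
(L (nat_lit 670506))))
(L (nat_lit 24295802)))
(S (nat_lit 48307) (S (nat_lit 40542) (S (nat_lit 17543) (S (nat_lit 40514) (S (nat_lit 1229) (S (nat_lit 37322) (S (nat_lit 19778) (S (nat_lit 21465) (S (nat_lit 54868) (S (nat_lit 48276) (S (nat_lit 31) (S (nat_lit 40774) (S (nat_lit 41472) (S (nat_lit 40743) (S (nat_lit 41534) (S (nat_lit 41293) (S (nat_lit 997) (S (nat_lit 30761) (S (nat_lit 39603) (S (nat_lit 35308) (S (nat_lit 58643) (S (nat_lit 48235) (S (nat_lit 51353) (D (nat_lit 11) (nat_lit 27869540) (nat_lit 18139320) (nat_lit 103148622885))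
(L (nat_lit 28946659)))
(L (nat_lit 19276579)))
(L (nat_lit 28913857)))
(S (nat_lit 50162) (S (nat_lit 24128) (S (nat_lit 36247) (S (nat_lit 30384) (S (nat_lit 4049) (D (nat_lit 13) (nat_lit 27999490) (nat_lit 25765041) (nat_lit 6707939907748))
(L (nat_lit 27697889)))
(L (nat_lit 14808715)))
(L (nat_lit 15649835)))
(L (nat_lit 19775626)))
(L (nat_lit 30031072))))
(L (nat_lit 11047579)))
(L (nat_lit 14457013)))
(L (nat_lit 4485870)))
(L (nat_lit 23869511)))
(L (nat_lit 864471)))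
(L (nat_lit 970120)))
(L (nat_lit 970121)))
(L (nat_lit 668459)))
(L (nat_lit 7425531)))
(L (nat_lit 27998433)))
(L (nat_lit 27343561)))
(L (nat_lit 21900674)))
(L (nat_lit 22886507)))
(L (nat_lit 30998922)))
(L (nat_lit 19707945)))
(L (nat_lit 1325878)))
(L (nat_lit 22100779)))
(L (nat_lit 1981162)))
(L (nat_lit 25745512)))))
(S (nat_lit 37335) (S (nat_lit 8812) (S (nat_lit 35104) (S (nat_lit 1019) (S (nat_lit 40785) (S (nat_lit 1748) (S (nat_lit 50525) (L (nat_lit 11558297))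
(L (nat_lit 22814085)))
(L (nat_lit 26873222)))
(L (nat_lit 23211789)))
(S (nat_lit 39952) (L (nat_lit 9962107))
(L (nat_lit 26427969))))
(S (nat_lit 41325) (L (nat_lit 17159940))
(L (nat_lit 3783433))))
(S (nat_lit 28576) (S (nat_lit 15373) (S (nat_lit 17633) (L (nat_lit 12721941))
(S (nat_lit 30763) (S (nat_lit 1036) (S (nat_lit 40562) (L (nat_lit 18779383))
(L (nat_lit 24702179)))
(L (nat_lit 12813109)))
(L (nat_lit 16933074))))
(S (nat_lit 35137) (S (nat_lit 41486) (S (nat_lit 57071) (S (nat_lit 54868) (S (nat_lit 48318) (L (nat_lit 5840657))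
(L (nat_lit 20850081)))
(L (nat_lit 5991817)))
(L (nat_lit 13518890)))
(L (nat_lit 23434129)))
(S (nat_lit 54901) (S (nat_lit 19826) (S (nat_lit 1763) (S (nat_lit 54879) (L (nat_lit 20276400))
(L (nat_lit 27986256)))
(L (nat_lit 26332369)))
(S (nat_lit 30143) (L (nat_lit 12757659))
(L (nat_lit 9587225))))
(L (nat_lit 25306582)))))
(S (nat_lit 48340) (S (nat_lit 1763) (S (nat_lit 1034) (S (nat_lit 30763) (S (nat_lit 28537) (L (nat_lit 3894791))
(L (nat_lit 12818231)))
(L (nat_lit 13995927)))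
(S (nat_lit 8746) (L (nat_lit 16700458))
(L (nat_lit 20881953))))
(S (nat_lit 21527) (S (nat_lit 37445) (L (nat_lit 21326209))
(L (nat_lit 7223905)))
(S (nat_lit 41291) (S (nat_lit 39542) (S (nat_lit 1748) (S (nat_lit 1019) (L (nat_lit 28874839))
(L (nat_lit 26879361)))
(L (nat_lit 12612168)))
(L (nat_lit 5455546)))
(L (nat_lit 25725207)))))
(L (nat_lit 25615369)))))
(S (nat_lit 57099) (S (nat_lit 8779) (S (nat_lit 8773) (S (nat_lit 40500) (S (nat_lit 15334) (S (nat_lit 10966) (L (nat_lit 5821320))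
(L (nat_lit 7046587)))
(L (nat_lit 6307419)))
(L (nat_lit 1649051)))
(S (nat_lit 35000) (S (nat_lit 45543) (L (nat_lit 6083019))
(L (nat_lit 21281572)))
(L (nat_lit 14701915))))
(S (nat_lit 28543) (S (nat_lit 1014) (S (nat_lit 19806) (S (nat_lit 8748) (S (nat_lit 57086) (L (nat_lit 28032321))
(L (nat_lit 13376133)))
(L (nat_lit 26426048)))
(L (nat_lit 21936481)))
(S (nat_lit 29376) (L (nat_lit 12776041))
(L (nat_lit 20102026))))
(S (nat_lit 48307) (S (nat_lit 1986) (S (nat_lit 40514) (S (nat_lit 54899) (L (nat_lit 12374433))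
(L (nat_lit 19733679)))
(L (nat_lit 7944995)))
(S (nat_lit 21750) (S (nat_lit 8748) (S (nat_lit 20778) (L (nat_lit 20983224))
(L (nat_lit 5454556)))
(L (nat_lit 1784582)))
(S (nat_lit 41514) (S (nat_lit 17543) (S (nat_lit 40757) (L (nat_lit 1391289))
(L (nat_lit 23182119)))
(L (nat_lit 6404916)))
(L (nat_lit 25831973)))))
(L (nat_lit 25772136)))))
(L (nat_lit 25508544)))))
(L (nat_lit 25447567)))))
(L (nat_lit 25803784)))))

theorem rb246_0_0 : run 4 lb246 [] tb246_0_0 kb246 [0, 2008, 10960, 1279] [] = true := by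
  decide +kernel

noncomputable def ta26_4 : Tr :=
(S (nat_lit 1540) (S (nat_lit 1) (S (nat_lit 1701) (S (nat_lit 1541) (S (nat_lit 2) (S (nat_lit 2107) (S (nat_lit 3636) (S (nat_lit 3627) (S (nat_lit 3609) (S (nat_lit 4787) (S (nat_lit 5435) (S (nat_lit 3084) (S (nat_lit 5834) (S (nat_lit 4968) (S (nat_lit 4707) (S (nat_lit 4995) (S (nat_lit 2519) (S (nat_lit 4709) (D (nat_lit 0) (nat_lit 403109) (nat_lit 602217) (nat_lit 70900581442))
(L (nat_lit 350353)))
(L (nat_lit 264881)))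
(L (nat_lit 667785)))
(L (nat_lit 765314)))
(L (nat_lit 21804)))
(L (nat_lit 23788)))
(L (nat_lit 462166)))
(L (nat_lit 702691)))
(L (nat_lit 693488)))
(L (nat_lit 412963)))
(L (nat_lit 501876)))
(L (nat_lit 497846)))
(S (nat_lit 4312) (L (nat_lit 548130))
(L (nat_lit 183661))))
(S (nat_lit 4403) (S (nat_lit 4385) (L (nat_lit 198162))
(L (nat_lit 412900)))
(L (nat_lit 634922))))
(S (nat_lit 5942) (S (nat_lit 5924) (L (nat_lit 83284))
(L (nat_lit 216547)))
(L (nat_lit 628876))))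
(S (nat_lit 3915) (S (nat_lit 2214) (S (nat_lit 1702) (S (nat_lit 4833) (L (nat_lit 568901))
(L (nat_lit 307317)))
(L (nat_lit 511235)))
(S (nat_lit 4403) (S (nat_lit 3693) (L (nat_lit 705888))
(L (nat_lit 118183)))
(L (nat_lit 263572))))
(S (nat_lit 6129) (S (nat_lit 1702) (S (nat_lit 1217) (S (nat_lit 893) (S (nat_lit 3405) (S (nat_lit 4296) (S (nat_lit 4995) (S (nat_lit 5434) (S (nat_lit 3084) (S (nat_lit 4968) (S (nat_lit 6177) (S (nat_lit 4717) (D (nat_lit 0) (nat_lit 405091) (nat_lit 575593) (nat_lit 35652672))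
(L (nat_lit 689574)))
(L (nat_lit 768168)))
(L (nat_lit 176501)))
(L (nat_lit 186734)))
(L (nat_lit 547947)))
(L (nat_lit 659756)))
(L (nat_lit 312899)))
(L (nat_lit 460361)))
(L (nat_lit 244322)))
(S (nat_lit 5765) (S (nat_lit 1081) (L (nat_lit 342757))
(L (nat_lit 404069)))
(L (nat_lit 314413))))
(S (nat_lit 6075) (S (nat_lit 6103) (L (nat_lit 755113))
(L (nat_lit 640259)))
(L (nat_lit 41525))))
(L (nat_lit 598031)))))
(S (nat_lit 2215) (S (nat_lit 3696) (S (nat_lit 3431) (S (nat_lit 2107) (L (nat_lit 52463))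
(L (nat_lit 560437)))
(L (nat_lit 80181)))
(L (nat_lit 534676)))
(S (nat_lit 4429) (S (nat_lit 1702) (S (nat_lit 2758) (L (nat_lit 174485))
(L (nat_lit 153934)))
(L (nat_lit 576834)))
(L (nat_lit 602306)))))
(S (nat_lit 3754) (S (nat_lit 324) (S (nat_lit 3736) (S (nat_lit 2) (S (nat_lit 1053) (S (nat_lit 2107) (L (nat_lit 461481))
(L (nat_lit 364112)))
(L (nat_lit 150864)))
(L (nat_lit 248880)))
(S (nat_lit 3916) (S (nat_lit 1383) (S (nat_lit 2107) (S (nat_lit 1437) (S (nat_lit 3687) (S (nat_lit 936) (S (nat_lit 3755) (S (nat_lit 378) (S (nat_lit 927) (S (nat_lit 3652) (S (nat_lit 3565) (S (nat_lit 4779) (S (nat_lit 5861) (S (nat_lit 5783) (D (nat_lit 0) (nat_lit 45362) (nat_lit 605322) (nat_lit 35652672))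
(S (nat_lit 5967) (S (nat_lit 1518) (S (nat_lit 5841) (D (nat_lit 0) (nat_lit 757100) (nat_lit 606400) (nat_lit 35500623873))
(L (nat_lit 756262)))
(L (nat_lit 771207)))
(L (nat_lit 349327))))
(L (nat_lit 629772)))
(L (nat_lit 447749)))
(L (nat_lit 658954)))
(L (nat_lit 662978)))
(L (nat_lit 697456)))
(L (nat_lit 111178)))
(L (nat_lit 184524)))
(L (nat_lit 405061)))
(L (nat_lit 275636)))
(L (nat_lit 503491)))
(L (nat_lit 380080)))
(S (nat_lit 3579) (L (nat_lit 106189))
(L (nat_lit 313358))))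
(L (nat_lit 74384))))
(S (nat_lit 2538) (S (nat_lit 1664) (S (nat_lit 3687) (L (nat_lit 314413))
(L (nat_lit 762240)))
(S (nat_lit 3916) (S (nat_lit 886) (L (nat_lit 17035))
(S (nat_lit 3917) (S (nat_lit 3755) (S (nat_lit 3915) (S (nat_lit 1437) (L (nat_lit 514119))
(L (nat_lit 510147)))
(L (nat_lit 434198)))
(L (nat_lit 529035)))
(L (nat_lit 436869))))
(L (nat_lit 545090))))
(S (nat_lit 4752) (S (nat_lit 3160) (L (nat_lit 760849))
(S (nat_lit 3916) (S (nat_lit 2142) (S (nat_lit 3687) (S (nat_lit 4731) (L (nat_lit 266643))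
(L (nat_lit 626989)))
(L (nat_lit 435380)))
(S (nat_lit 6131) (S (nat_lit 1130) (L (nat_lit 689641))
(L (nat_lit 427657)))
(L (nat_lit 251429))))
(L (nat_lit 534578))))
(L (nat_lit 603208)))))
(S (nat_lit 5968) (S (nat_lit 1470) (S (nat_lit 2538) (S (nat_lit 6130) (S (nat_lit 2851) (L (nat_lit 433765))
(S (nat_lit 6129) (L (nat_lit 171600))
(L (nat_lit 187946))))
(L (nat_lit 141811)))
(S (nat_lit 5765) (L (nat_lit 340577))
(L (nat_lit 469140))))
(S (nat_lit 3684) (S (nat_lit 1700) (S (nat_lit 3693) (L (nat_lit 39630))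
(L (nat_lit 536129)))
(S (nat_lit 6130) (S (nat_lit 697) (S (nat_lit 1129) (L (nat_lit 45429))
(L (nat_lit 515424)))
(S (nat_lit 5969) (S (nat_lit 3633) (L (nat_lit 431380))
(L (nat_lit 627179)))
(L (nat_lit 461482))))
(L (nat_lit 482315))))
(S (nat_lit 5898) (S (nat_lit 4645) (L (nat_lit 10830))
(S (nat_lit 6130) (S (nat_lit 2215) (S (nat_lit 3609) (S (nat_lit 5901) (L (nat_lit 145064))
(L (nat_lit 180565)))
(S (nat_lit 5550) (L (nat_lit 48839))
(L (nat_lit 400005))))
(S (nat_lit 2917) (S (nat_lit 6167) (L (nat_lit 524564))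
(L (nat_lit 347683)))
(L (nat_lit 479458))))
(L (nat_lit 482563))))
(L (nat_lit 606497)))))
(L (nat_lit 594157)))))

theorem ra26_4 : run 3 la26 [] ta26_4 ka26 (P4 3 468 462 406 298 1 0 0 0) [] = true := by
  decide +kernel

noncomputable def ta27_0 : Tr :=
(L (nat_lit 602370))

theorem ra27_0 : run 3 la27 [] ta27_0 ka27 (P4 3 1 108 152 108 0 0 0 1) [] = true := by
  decide +kernel

noncomputable def tb80_5 : Tr :=
(L (nat_lit 25770210))

theorem rb80_5 : run 4 lb80 [] tb80_5 kb80 (P4 4 5681 1059 6270 1059 1 2 0 0) [] = true := by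
  decide +kernel

noncomputable def tb81_4 : Tr :=
(L (nat_lit 25835840))

theorem rb81_4 : run 4 lb81 [] tb81_4 kb81 (P4 4 2366 0 3275 2366 1 0 0 0) [] = true := by
  decide +kernel

noncomputable def tb177_2 : Tr :=
(L (nat_lit 25768128))

theorem rb177_2 : run 4 lb177 [] tb177_2 kb177 (P4 4 2202 0 2306 0 0 0 1 2) [] = true := by
  decide +kernel

noncomputable def ta37_0 : Tr :=
(L (nat_lit 604385))

theorem ra37_0 : run 3 la37 [] ta37_0 ka37 (P4 3 203 0 314 203 0 0 0 1) [] = true := by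
  decide +kernel

end Pool.Agent.MP_92191b_al.K3.E
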