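import Pool.Agent.MP_92191b_al.K3.CR12

/-! Refutation trees. -/

namespace Pool.Agent.MP_92191b_al.K3.E

open Tr

set_option maxRecDepth 100000

noncomputable def tb262_4 : Tr :=
(S (nat_lit 4211) (S (nat_lit 16560) (S (nat_lit 4155) (S (nat_lit 14170) (S (nat_lit 9070) (S (nat_lit 41514) (S (nat_lit 12941) (L (nat_lit 29373715))
(L (nat_lit 6178067)))
(S (nat_lit 44805) (L (nat_lit 7533293))
(L (nat_lit 6811667))))
(S (nat_lit 28834) (S (nat_lit 41514) (S (nat_lit 43914) (S (nat_lit 28491) (L (nat_lit 11286208))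
(L (nat_lit 6812256)))
(L (nat_lit 5894417)))
(L (nat_lit 17715461)))
(S (nat_lit 48598) (S (nat_lit 1966) (S (nat_lit 15067) (S (nat_lit 3222) (S (nat_lit 33638) (L (nat_lit 4594452))
(L (nat_lit 2541945)))
(L (nat_lit 26319438)))
(L (nat_lit 10237110)))
(S (nat_lit 51408) (L (nat_lit 26459840))
(L (nat_lit 19199460))))
(L (nat_lit 25212247)))))
(S (nat_lit 33934) (S (nat_lit 6605) (S (nat_lit 3968) (S (nat_lit 36076) (S (nat_lit 1986) (S (nat_lit 45891) (S (nat_lit 22986) (L (nat_lit 19695114))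
(L (nat_lit 897299)))
(L (nat_lit 14932899)))
(L (nat_lit 19229189)))
(L (nat_lit 12784349)))
(S (nat_lit 23732) (S (nat_lit 57275) (S (nat_lit 42482) (L (nat_lit 24133384))
(L (nat_lit 23465897)))
(L (nat_lit 21470264)))
(S (nat_lit 43496) (S (nat_lit 43914) (S (nat_lit 10749) (L (nat_lit 26416695))
(L (nat_lit 16996408)))
(L (nat_lit 23294464)))
(L (nat_lit 25922829)))))
(S (nat_lit 26369) (S (nat_lit 8785) (S (nat_lit 21730) (S (nat_lit 30622) (L (nat_lit 3578584))
(L (nat_lit 15926008)))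
(L (nat_lit 15272711)))
(S (nat_lit 28549) (S (nat_lit 24150) (L (nat_lit 2825136))
(L (nat_lit 3744529)))
(S (nat_lit 48313) (S (nat_lit 29974) (S (nat_lit 22986) (S (nat_lit 35319) (L (nat_lit 15803128))
(L (nat_lit 20148400)))
(L (nat_lit 12354160)))
(L (nat_lit 3614647)))
(L (nat_lit 25479185)))))
(S (nat_lit 46133) (S (nat_lit 16803) (S (nat_lit 22986) (S (nat_lit 17046) (S (nat_lit 43010) (L (nat_lit 26976804))
(L (nat_lit 10173528)))
(L (nat_lit 10175576)))
(L (nat_lit 12354160)))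
(S (nat_lit 36567) (S (nat_lit 757) (S (nat_lit 35805) (L (nat_lit 5724474))
(L (nat_lit 20410720)))
(L (nat_lit 26870187)))
(S (nat_lit 56331) (S (nat_lit 35319) (L (nat_lit 212730))
(L (nat_lit 6167152)))
(L (nat_lit 25745451)))))
(L (nat_lit 25665715)))))
(S (nat_lit 53698) (S (nat_lit 5358) (S (nat_lit 35319) (L (nat_lit 212730))
(L (nat_lit 23293968)))
(L (nat_lit 19033295)))
(L (nat_lit 25206383)))))
(S (nat_lit 23919) (S (nat_lit 17557) (S (nat_lit 2974) (S (nat_lit 1986) (S (nat_lit 47105) (S (nat_lit 41720) (L (nat_lit 29956272))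
(L (nat_lit 10945431)))
(L (nat_lit 20382535)))
(L (nat_lit 19367849)))
(S (nat_lit 22738) (S (nat_lit 9556) (S (nat_lit 30488) (S (nat_lit 17264) (S (nat_lit 56331) (L (nat_lit 7100896))
(L (nat_lit 14362685)))
(L (nat_lit 24947138)))
(L (nat_lit 19273638)))
(S (nat_lit 51416) (L (nat_lit 13308152))
(L (nat_lit 26852579))))
(S (nat_lit 42502) (S (nat_lit 3968) (S (nat_lit 45891) (L (nat_lit 15489221))
(L (nat_lit 12721074)))
(S (nat_lit 23732) (S (nat_lit 15555) (L (nat_lit 29559535))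
(L (nat_lit 22812846)))
(S (nat_lit 43496) (S (nat_lit 45853) (S (nat_lit 39799) (L (nat_lit 16963867))
(L (nat_lit 17832572)))
(L (nat_lit 576732)))
(L (nat_lit 25900227)))))
(L (nat_lit 25886924)))))
(S (nat_lit 37321) (S (nat_lit 10749) (S (nat_lit 8582) (S (nat_lit 19514) (L (nat_lit 9597397))
(L (nat_lit 5468846)))
(S (nat_lit 28346) (S (nat_lit 35855) (S (nat_lit 23732) (L (nat_lit 15927062))
(L (nat_lit 22230073)))
(L (nat_lit 2307673)))
(S (nat_lit 48110) (S (nat_lit 6363) (L (nat_lit 3611511))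
(L (nat_lit 3676978)))
(L (nat_lit 25183571)))))
(S (nat_lit 30513) (S (nat_lit 11250) (S (nat_lit 35369) (S (nat_lit 9000) (L (nat_lit 4411151))
(L (nat_lit 16979766)))
(L (nat_lit 20210735)))
(S (nat_lit 31014) (S (nat_lit 22252) (S (nat_lit 27341) (S (nat_lit 27123) (L (nat_lit 29465200))
(L (nat_lit 30579308)))
(L (nat_lit 30998832)))
(L (nat_lit 9171333)))
(S (nat_lit 50778) (S (nat_lit 55083) (S (nat_lit 47105) (L (nat_lit 5632499))
(L (nat_lit 1547029)))
(L (nat_lit 1940078)))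
(L (nat_lit 25864335)))))
(S (nat_lit 50277) (S (nat_lit 1986) (S (nat_lit 55133) (S (nat_lit 18529) (L (nat_lit 29884695))
(L (nat_lit 2348976)))
(L (nat_lit 18888056)))
(S (nat_lit 21750) (S (nat_lit 43010) (S (nat_lit 44886) (L (nat_lit 29710816))
(L (nat_lit 13179780)))
(L (nat_lit 256749)))
(S (nat_lit 41514) (S (nat_lit 17747) (S (nat_lit 29974) (L (nat_lit 29923049))
(L (nat_lit 12594941)))
(L (nat_lit 24330115)))
(L (nat_lit 25396972)))))
(L (nat_lit 25366254)))))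
(S (nat_lit 57085) (S (nat_lit 2250) (S (nat_lit 17046) (S (nat_lit 4657) (S (nat_lit 20035) (L (nat_lit 23534747))
(L (nat_lit 14850648)))
(L (nat_lit 19065104)))
(S (nat_lit 36810) (S (nat_lit 48110) (S (nat_lit 29250) (L (nat_lit 29825763))
(L (nat_lit 19732526)))
(L (nat_lit 533240)))
(S (nat_lit 56574) (S (nat_lit 34831) (S (nat_lit 39278) (L (nat_lit 3625766))
(L (nat_lit 30808242)))
(L (nat_lit 1914230)))
(L (nat_lit 25178859)))))
(S (nat_lit 22014) (S (nat_lit 5143) (S (nat_lit 34831) (S (nat_lit 3725) (S (nat_lit 27123) (L (nat_lit 18981774))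
(L (nat_lit 19405600)))
(L (nat_lit 1274605)))
(L (nat_lit 1486520)))
(S (nat_lit 53135) (L (nat_lit 26425364))
(L (nat_lit 1436304))))
(S (nat_lit 41778) (S (nat_lit 1966) (S (nat_lit 59042) (L (nat_lit 15407162))
(L (nat_lit 13441202)))
(S (nat_lit 21730) (S (nat_lit 2954) (S (nat_lit 15340) (L (nat_lit 20027897))
(L (nat_lit 22878594)))
(L (nat_lit 19732527)))
(S (nat_lit 41494) (S (nat_lit 48110) (L (nat_lit 29983054))
(L (nat_lit 22026744)))
(L (nat_lit 25353706)))))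
(L (nat_lit 25514497)))))
(L (nat_lit 25320813)))))
(S (nat_lit 43683) (S (nat_lit 972) (S (nat_lit 16091) (S (nat_lit 15555) (S (nat_lit 25122) (S (nat_lit 9746) (S (nat_lit 20444) (L (nat_lit 8500954))
(L (nat_lit 19084197)))
(L (nat_lit 11210671)))
(L (nat_lit 603914)))
(S (nat_lit 35319) (L (nat_lit 212730))
(S (nat_lit 55083) (S (nat_lit 3725) (L (nat_lit 29559536))
(L (nat_lit 19087268)))
(L (nat_lit 25246407)))))
(S (nat_lit 35855) (S (nat_lit 9746) (S (nat_lit 8532) (S (nat_lit 16803) (L (nat_lit 5971485))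
(L (nat_lit 17633003)))
(L (nat_lit 4020525)))
(S (nat_lit 32239) (L (nat_lit 12946354))
(L (nat_lit 4931463))))
(S (nat_lit 55619) (S (nat_lit 9746) (S (nat_lit 30217) (S (nat_lit 9757) (S (nat_lit 16803) (L (nat_lit 29432343))
(L (nat_lit 9850625)))
(L (nat_lit 8570642)))
(L (nat_lit 10949373)))
(S (nat_lit 57863) (L (nat_lit 4420082))
(L (nat_lit 4931495))))
(L (nat_lit 25568901)))))
(S (nat_lit 20736) (S (nat_lit 17747) (S (nat_lit 2468) (L (nat_lit 4404147))
(S (nat_lit 57177) (S (nat_lit 11736) (L (nat_lit 17911033))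
(L (nat_lit 466708)))
(L (nat_lit 7759959))))
(S (nat_lit 37511) (L (nat_lit 19075577))
(S (nat_lit 57275) (S (nat_lit 25122) (S (nat_lit 16803) (L (nat_lit 12260111))
(L (nat_lit 15568619)))
(L (nat_lit 868563)))
(L (nat_lit 25399698)))))
(S (nat_lit 40500) (S (nat_lit 17557) (S (nat_lit 13874) (S (nat_lit 8532) (L (nat_lit 10186149))
(L (nat_lit 26257036)))
(S (nat_lit 33638) (S (nat_lit 17747) (S (nat_lit 6363) (L (nat_lit 29892658))
(L (nat_lit 19307269)))
(L (nat_lit 24199050)))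
(S (nat_lit 53402) (S (nat_lit 15555) (S (nat_lit 3968) (L (nat_lit 19072942))
(L (nat_lit 26335503)))
(L (nat_lit 26680004)))
(L (nat_lit 25579877)))))
(S (nat_lit 37321) (S (nat_lit 55887) (S (nat_lit 6325) (S (nat_lit 2468) (L (nat_lit 18953000))
(L (nat_lit 6685463)))
(L (nat_lit 3751194)))
(S (nat_lit 56699) (L (nat_lit 2530040))
(L (nat_lit 3751688))))
(S (nat_lit 57085) (S (nat_lit 17652) (L (nat_lit 8582733))
(S (nat_lit 26089) (S (nat_lit 55619) (L (nat_lit 4407059))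
(L (nat_lit 18947853)))
(L (nat_lit 17713409))))
(L (nat_lit 25821520)))))
(L (nat_lit 25512356)))))
(L (nat_lit 25540293)))))
(S (nat_lit 36324) (S (nat_lit 10453) (S (nat_lit 13388) (S (nat_lit 48528) (L (nat_lit 13850811))
(L (nat_lit 22222365)))
(S (nat_lit 33152) (S (nat_lit 48528) (S (nat_lit 44886) (L (nat_lit 28711492))
(L (nat_lit 23163089)))
(L (nat_lit 20125614)))
(S (nat_lit 52916) (S (nat_lit 28764) (S (nat_lit 25122) (L (nat_lit 750897))
(L (nat_lit 13726931)))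
(L (nat_lit 19095630)))
(L (nat_lit 25315632)))))
(S (nat_lit 30217) (S (nat_lit 6325) (S (nat_lit 12918) (S (nat_lit 9967) (S (nat_lit 22738) (S (nat_lit 59042) (L (nat_lit 26357489))
(L (nat_lit 13376224)))
(L (nat_lit 12269693)))
(S (nat_lit 29731) (S (nat_lit 17289) (S (nat_lit 15340) (S (nat_lit 10749) (L (nat_lit 2996971))
(L (nat_lit 21488965)))
(L (nat_lit 26329801)))
(L (nat_lit 10290926)))
(S (nat_lit 49495) (S (nat_lit 22738) (S (nat_lit 10749) (L (nat_lit 3797228))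
(L (nat_lit 12466915)))
(S (nat_lit 28356) (L (nat_lit 4571063))
(L (nat_lit 18575555))))
(L (nat_lit 25352587)))))
(S (nat_lit 32682) (S (nat_lit 23947) (S (nat_lit 50277) (L (nat_lit 7794400))
(L (nat_lit 634269)))
(S (nat_lit 26215) (L (nat_lit 1358586))
(L (nat_lit 12638429))))
(S (nat_lit 52446) (S (nat_lit 972) (S (nat_lit 51264) (S (nat_lit 3164) (L (nat_lit 5840285))
(L (nat_lit 20723907)))
(L (nat_lit 27660630)))
(S (nat_lit 30859) (L (nat_lit 1645085))
(L (nat_lit 20746573))))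
(L (nat_lit 25209423)))))
(S (nat_lit 26089) (S (nat_lit 17264) (S (nat_lit 1986) (L (nat_lit 6074061))
(S (nat_lit 21750) (L (nat_lit 727517))
(S (nat_lit 41514) (S (nat_lit 33638) (L (nat_lit 28360426))
(L (nat_lit 7225957)))
(L (nat_lit 25411301)))))
(S (nat_lit 37028) (S (nat_lit 48528) (S (nat_lit 13874) (S (nat_lit 37321) (S (nat_lit 30488) (L (nat_lit 7854105))
(L (nat_lit 12940002)))
(L (nat_lit 3545757)))
(L (nat_lit 12612201)))
(L (nat_lit 1264560)))
(S (nat_lit 56792) (S (nat_lit 30488) (S (nat_lit 48528) (L (nat_lit 28629445))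
(L (nat_lit 16455590)))
(L (nat_lit 10902434)))
(L (nat_lit 25478260)))))
(S (nat_lit 45853) (S (nat_lit 10749) (S (nat_lit 17317) (S (nat_lit 9746) (S (nat_lit 33934) (L (nat_lit 28687541))
(L (nat_lit 23600152)))
(L (nat_lit 23347107)))
(L (nat_lit 12453617)))
(S (nat_lit 30513) (S (nat_lit 36567) (L (nat_lit 16681703))
(L (nat_lit 7899900)))
(S (nat_lit 50277) (L (nat_lit 891633))
(L (nat_lit 25444931)))))
(L (nat_lit 25529748)))))
(S (nat_lit 49981) (S (nat_lit 7359) (S (nat_lit 271) (S (nat_lit 48060) (S (nat_lit 2192) (S (nat_lit 50252) (S (nat_lit 28764) (L (nat_lit 547721))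
(L (nat_lit 12803972)))
(L (nat_lit 7214831)))
(L (nat_lit 26444429)))
(L (nat_lit 7231909)))
(S (nat_lit 20035) (S (nat_lit 15067) (S (nat_lit 36567) (L (nat_lit 20876556))
(L (nat_lit 8310272)))
(S (nat_lit 34831) (S (nat_lit 52446) (L (nat_lit 532057))
(L (nat_lit 7213807)))
(S (nat_lit 54595) (S (nat_lit 15387) (S (nat_lit 32682) (L (nat_lit 1496906))
(L (nat_lit 1818972)))
(L (nat_lit 6789015)))
(L (nat_lit 25353519)))))
(S (nat_lit 39799) (S (nat_lit 21750) (S (nat_lit 30488) (S (nat_lit 37028) (L (nat_lit 4846829))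
(L (nat_lit 4502265)))
(L (nat_lit 13555750)))
(L (nat_lit 14743273)))
(L (nat_lit 25856393)))))
(S (nat_lit 27123) (S (nat_lit 48060) (S (nat_lit 13388) (S (nat_lit 43683) (S (nat_lit 57275) (L (nat_lit 3628939))
(L (nat_lit 14907011)))
(L (nat_lit 6471389)))
(L (nat_lit 14462130)))
(L (nat_lit 7231661)))
(S (nat_lit 46887) (S (nat_lit 6363) (S (nat_lit 52446) (S (nat_lit 15387) (S (nat_lit 15067) (L (nat_lit 20354919))
(L (nat_lit 22818180)))
(L (nat_lit 6747287)))
(L (nat_lit 15037157)))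
(S (nat_lit 26127) (S (nat_lit 2488) (S (nat_lit 41720) (S (nat_lit 43711) (L (nat_lit 6446651))
(L (nat_lit 27302389)))
(L (nat_lit 27302575)))
(S (nat_lit 22252) (S (nat_lit 8582) (S (nat_lit 37321) (L (nat_lit 13769591))
(L (nat_lit 16947805)))
(L (nat_lit 21534780)))
(S (nat_lit 42016) (S (nat_lit 43496) (S (nat_lit 29521) (L (nat_lit 14899325))
(L (nat_lit 12753810)))
(L (nat_lit 1808826)))
(L (nat_lit 25663508)))))
(S (nat_lit 45891) (S (nat_lit 11250) (S (nat_lit 33934) (S (nat_lit 49285) (L (nat_lit 28874802))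
(L (nat_lit 20345157)))
(L (nat_lit 16387453)))
(S (nat_lit 31014) (S (nat_lit 44671) (S (nat_lit 29250) (S (nat_lit 19514) (L (nat_lit 28416654))
(L (nat_lit 26876448)))
(L (nat_lit 24648576)))
(L (nat_lit 12660412)))
(S (nat_lit 50778) (S (nat_lit 50252) (S (nat_lit 51264) (S (nat_lit 42502) (L (nat_lit 224663))
(L (nat_lit 4453941)))
(L (nat_lit 20078927)))
(L (nat_lit 19965837)))
(L (nat_lit 25868359)))))
(L (nat_lit 25305679)))))
(L (nat_lit 25479308)))))
(L (nat_lit 25895948)))))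
(S (nat_lit 56088) (S (nat_lit 6325) (S (nat_lit 16359) (S (nat_lit 2488) (S (nat_lit 3968) (S (nat_lit 4183) (S (nat_lit 3725) (S (nat_lit 35805) (S (nat_lit 56845) (L (nat_lit 29636289))
(L (nat_lit 455402)))
(L (nat_lit 19984778)))
(L (nat_lit 20846765)))
(L (nat_lit 18921383)))
(S (nat_lit 23732) (S (nat_lit 54868) (S (nat_lit 7577) (S (nat_lit 57275) (S (nat_lit 4183) (L (nat_lit 15636595))
(L (nat_lit 26466721)))
(L (nat_lit 27761217)))
(L (nat_lit 2309045)))
(L (nat_lit 18980657)))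
(S (nat_lit 43496) (S (nat_lit 12918) (S (nat_lit 10724) (L (nat_lit 14740759))
(L (nat_lit 26447599)))
(S (nat_lit 16206) (S (nat_lit 18396) (L (nat_lit 18881083))
(L (nat_lit 10270433)))
(L (nat_lit 9493944))))
(L (nat_lit 25660631)))))
(S (nat_lit 22252) (S (nat_lit 972) (S (nat_lit 2192) (S (nat_lit 29731) (L (nat_lit 4790685))
(L (nat_lit 1393240)))
(S (nat_lit 19848) (S (nat_lit 35104) (L (nat_lit 5658904))
(L (nat_lit 9013004)))
(L (nat_lit 26462285))))
(S (nat_lit 20736) (S (nat_lit 19115) (L (nat_lit 18936012))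
(S (nat_lit 48528) (S (nat_lit 15067) (S (nat_lit 4183) (L (nat_lit 11595340))
(L (nat_lit 18921383)))
(L (nat_lit 22456097)))
(L (nat_lit 20132772))))
(S (nat_lit 40500) (S (nat_lit 53402) (S (nat_lit 35805) (S (nat_lit 15067) (L (nat_lit 20822276))
(L (nat_lit 9884858)))
(L (nat_lit 12644567)))
(L (nat_lit 21406808)))
(L (nat_lit 25244266)))))
(S (nat_lit 42016) (S (nat_lit 11736) (S (nat_lit 48528) (S (nat_lit 33638) (S (nat_lit 4183) (L (nat_lit 17714436))
(L (nat_lit 18923399)))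
(L (nat_lit 15738804)))
(L (nat_lit 14361508)))
(S (nat_lit 31500) (S (nat_lit 15387) (S (nat_lit 972) (S (nat_lit 49738) (L (nat_lit 28419660))
(L (nat_lit 13674386)))
(L (nat_lit 14469258)))
(L (nat_lit 17438599)))
(S (nat_lit 51264) (S (nat_lit 50778) (S (nat_lit 56574) (S (nat_lit 17264) (S (nat_lit 33638) (L (nat_lit 10242160))
(L (nat_lit 3579828)))
(L (nat_lit 22811144)))
(L (nat_lit 3559339)))
(L (nat_lit 14733223)))
(L (nat_lit 25633844)))))
(L (nat_lit 25901224)))))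
(S (nat_lit 36123) (S (nat_lit 271) (S (nat_lit 19453) (S (nat_lit 972) (S (nat_lit 2192) (S (nat_lit 48528) (S (nat_lit 16041) (L (nat_lit 15977252))
(L (nat_lit 1533544)))
(L (nat_lit 20473058)))
(L (nat_lit 19708196)))
(L (nat_lit 20755778)))
(S (nat_lit 39217) (S (nat_lit 48060) (S (nat_lit 34831) (S (nat_lit 23919) (S (nat_lit 40500) (L (nat_lit 30428551))
(L (nat_lit 8309154)))
(L (nat_lit 8280485)))
(L (nat_lit 20232065)))
(L (nat_lit 7214518)))
(S (nat_lit 58981) (S (nat_lit 28296) (S (nat_lit 23246) (S (nat_lit 20736) (S (nat_lit 18529) (L (nat_lit 28777652))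
(L (nat_lit 26819622)))
(L (nat_lit 15280282)))
(L (nat_lit 7133261)))
(L (nat_lit 4695958)))
(L (nat_lit 25858567)))))
(S (nat_lit 20035) (S (nat_lit 3482) (S (nat_lit 15605) (S (nat_lit 3968) (S (nat_lit 52446) (S (nat_lit 2753) (L (nat_lit 19985742))
(L (nat_lit 5763415)))
(L (nat_lit 20166533)))
(L (nat_lit 26948648)))
(L (nat_lit 24147371)))
(S (nat_lit 23246) (S (nat_lit 42281) (S (nat_lit 1986) (S (nat_lit 24421) (S (nat_lit 32962) (S (nat_lit 17264) (L (nat_lit 5454586))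
(L (nat_lit 17571552)))
(L (nat_lit 15886025)))
(L (nat_lit 21001640)))
(L (nat_lit 10141605)))
(L (nat_lit 12344738)))
(S (nat_lit 43010) (S (nat_lit 48528) (S (nat_lit 37321) (S (nat_lit 1986) (S (nat_lit 18529) (L (nat_lit 28626061))
(L (nat_lit 26525253)))
(L (nat_lit 26918085)))
(L (nat_lit 14294200)))
(S (nat_lit 51867) (L (nat_lit 18951704))
(L (nat_lit 13861533))))
(L (nat_lit 25179879)))))
(S (nat_lit 39799) (S (nat_lit 3164) (S (nat_lit 48528) (S (nat_lit 1986) (S (nat_lit 17264) (S (nat_lit 57275) (S (nat_lit 17557) (L (nat_lit 12775146))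
(L (nat_lit 1514387)))
(L (nat_lit 27335058)))
(L (nat_lit 22849647)))
(L (nat_lit 19774725)))
(L (nat_lit 22222768)))
(S (nat_lit 22928) (S (nat_lit 56331) (S (nat_lit 44185) (S (nat_lit 48060) (L (nat_lit 17600727))
(L (nat_lit 20166565)))
(L (nat_lit 15504661)))
(L (nat_lit 19804169)))
(S (nat_lit 42692) (S (nat_lit 16041) (S (nat_lit 11736) (S (nat_lit 17557) (L (nat_lit 17601160))
(L (nat_lit 24478637)))
(L (nat_lit 23261455)))
(L (nat_lit 841096)))
(L (nat_lit 25496205)))))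
(L (nat_lit 25858287)))))
(S (nat_lit 55887) (S (nat_lit 11736) (S (nat_lit 48528) (S (nat_lit 6421) (L (nat_lit 30579437))
(S (nat_lit 58981) (S (nat_lit 57275) (S (nat_lit 20736) (S (nat_lit 26369) (L (nat_lit 12897307))
(L (nat_lit 24913444)))
(L (nat_lit 6910370)))
(L (nat_lit 21183544)))
(L (nat_lit 21295248))))
(L (nat_lit 14360733)))
(S (nat_lit 31500) (S (nat_lit 9556) (S (nat_lit 17557) (S (nat_lit 22252) (L (nat_lit 10108091))
(L (nat_lit 17953416)))
(L (nat_lit 6897570)))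
(S (nat_lit 29320) (S (nat_lit 48528) (S (nat_lit 23947) (S (nat_lit 972) (L (nat_lit 478488))
(L (nat_lit 20754690)))
(L (nat_lit 1306100)))
(L (nat_lit 16390055)))
(S (nat_lit 49084) (S (nat_lit 972) (S (nat_lit 29974) (L (nat_lit 7789346))
(L (nat_lit 19195985)))
(L (nat_lit 20014506)))
(L (nat_lit 25793003)))))
(S (nat_lit 51264) (S (nat_lit 28472) (L (nat_lit 3559336))
(S (nat_lit 40500) (S (nat_lit 17264) (S (nat_lit 48060) (S (nat_lit 3164) (S (nat_lit 37321) (S (nat_lit 22252) (S (nat_lit 21956) (L (nat_lit 30918762))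
(L (nat_lit 22551461)))
(L (nat_lit 10340364)))
(L (nat_lit 3560829)))
(L (nat_lit 5032303)))
(L (nat_lit 19968381)))
(L (nat_lit 17583208)))
(L (nat_lit 7418803))))
(L (nat_lit 25351503)))))
(L (nat_lit 25771050)))))
(S (nat_lit 26089) (S (nat_lit 6873) (S (nat_lit 16359) (S (nat_lit 7577) (S (nat_lit 48528) (S (nat_lit 30488) (S (nat_lit 13874) (L (nat_lit 1854736))
(L (nat_lit 13387847)))
(L (nat_lit 7396271)))
(L (nat_lit 20132772)))
(S (nat_lit 27341) (S (nat_lit 41514) (S (nat_lit 5143) (S (nat_lit 48528) (S (nat_lit 13874) (L (nat_lit 29660563))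
(L (nat_lit 24572100)))
(L (nat_lit 20170660)))
(L (nat_lit 18049141)))
(L (nat_lit 17715461)))
(S (nat_lit 47105) (S (nat_lit 15387) (S (nat_lit 42692) (S (nat_lit 41514) (S (nat_lit 55619) (S (nat_lit 55840) (L (nat_lit 28318194))
(L (nat_lit 14572741)))
(L (nat_lit 10368644)))
(L (nat_lit 17036003)))
(L (nat_lit 1325720)))
(L (nat_lit 22364065)))
(L (nat_lit 25368241)))))
(S (nat_lit 36123) (S (nat_lit 271) (S (nat_lit 8651) (L (nat_lit 7520149))
(S (nat_lit 49274) (S (nat_lit 43711) (S (nat_lit 50510) (L (nat_lit 289271))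
(L (nat_lit 13199402)))
(L (nat_lit 27309770)))
(L (nat_lit 8291765))))
(S (nat_lit 20035) (S (nat_lit 41514) (S (nat_lit 37997) (S (nat_lit 38293) (S (nat_lit 13874) (L (nat_lit 17437978))
(L (nat_lit 26266055)))
(L (nat_lit 6340184)))
(L (nat_lit 6342516)))
(L (nat_lit 6340370)))
(S (nat_lit 39799) (S (nat_lit 2753) (S (nat_lit 41514) (S (nat_lit 3482) (S (nat_lit 49084) (L (nat_lit 30129345))
(L (nat_lit 22254012)))
(L (nat_lit 17030048)))
(L (nat_lit 24616029)))
(L (nat_lit 6807456)))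
(L (nat_lit 25342197)))))
(S (nat_lit 55887) (S (nat_lit 15555) (S (nat_lit 48528) (S (nat_lit 57275) (S (nat_lit 43683) (S (nat_lit 6605) (S (nat_lit 23947) (L (nat_lit 2793916))
(L (nat_lit 7921444)))
(L (nat_lit 23587140)))
(L (nat_lit 317885)))
(L (nat_lit 27827777)))
(L (nat_lit 16390055)))
(S (nat_lit 35319) (S (nat_lit 49014) (S (nat_lit 26127) (S (nat_lit 50778) (L (nat_lit 28723334))
(L (nat_lit 13209511)))
(L (nat_lit 1497404)))
(L (nat_lit 8008609)))
(S (nat_lit 55083) (S (nat_lit 55569) (S (nat_lit 43683) (S (nat_lit 48528) (S (nat_lit 42750) (L (nat_lit 29381837))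
(L (nat_lit 16493661)))
(L (nat_lit 22278596)))
(L (nat_lit 6929501)))
(L (nat_lit 19409021)))
(L (nat_lit 25399918)))))
(L (nat_lit 25413742)))))
(S (nat_lit 26637) (S (nat_lit 11250) (S (nat_lit 972) (S (nat_lit 36968) (S (nat_lit 27123) (S (nat_lit 16359) (L (nat_lit 21296610))
(L (nat_lit 24231848)))
(L (nat_lit 31042733)))
(S (nat_lit 46887) (S (nat_lit 37028) (S (nat_lit 41778) (L (nat_lit 20284237))
(L (nat_lit 4944391)))
(L (nat_lit 1988975)))
(L (nat_lit 10063629))))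
(S (nat_lit 20736) (S (nat_lit 11736) (S (nat_lit 42750) (S (nat_lit 15831) (L (nat_lit 8197839))
(L (nat_lit 26838535)))
(L (nat_lit 15790354)))
(L (nat_lit 16361249)))
(S (nat_lit 40500) (S (nat_lit 9701) (L (nat_lit 7500525))
(S (nat_lit 39217) (S (nat_lit 41514) (S (nat_lit 42692) (S (nat_lit 57275) (L (nat_lit 3847014))
(L (nat_lit 21469240)))
(L (nat_lit 8308751)))
(L (nat_lit 9307853)))
(L (nat_lit 20850829))))
(L (nat_lit 25506372)))))
(S (nat_lit 31014) (S (nat_lit 13874) (S (nat_lit 1331) (L (nat_lit 11931352))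
(S (nat_lit 48528) (S (nat_lit 18628) (L (nat_lit 484938))
(S (nat_lit 38293) (S (nat_lit 49084) (S (nat_lit 23732) (S (nat_lit 43253) (L (nat_lit 30429671))
(L (nat_lit 5693254)))
(L (nat_lit 7386998)))
(L (nat_lit 14439563)))
(L (nat_lit 5861766))))
(L (nat_lit 22222768))))
(S (nat_lit 33638) (S (nat_lit 14485) (L (nat_lit 9326020))
(S (nat_lit 37028) (S (nat_lit 28834) (L (nat_lit 28689490))
(L (nat_lit 19238397)))
(L (nat_lit 1988975))))
(S (nat_lit 53402) (S (nat_lit 4155) (S (nat_lit 56574) (L (nat_lit 1885394))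
(L (nat_lit 19296548)))
(S (nat_lit 33005) (L (nat_lit 8840900))
(L (nat_lit 5731538))))
(L (nat_lit 25928816)))))
(S (nat_lit 50778) (S (nat_lit 10696) (S (nat_lit 10780) (L (nat_lit 19337062))
(S (nat_lit 30746) (S (nat_lit 48528) (S (nat_lit 35855) (S (nat_lit 37321) (S (nat_lit 32682) (S (nat_lit 42016) (S (nat_lit 3222) (S (nat_lit 54595) (L (nat_lit 957846))
(L (nat_lit 27450759)))
(L (nat_lit 17748292)))
(L (nat_lit 16534784)))
(L (nat_lit 17391659)))
(L (nat_lit 17160034)))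
(L (nat_lit 23192813)))
(L (nat_lit 20132772)))
(L (nat_lit 19184516))))
(S (nat_lit 30460) (S (nat_lit 24150) (S (nat_lit 20736) (S (nat_lit 38293) (L (nat_lit 17437978))
(L (nat_lit 17101440)))
(L (nat_lit 22942122)))
(S (nat_lit 58326) (L (nat_lit 9483869))
(L (nat_lit 30451345))))
(S (nat_lit 50224) (S (nat_lit 9967) (S (nat_lit 48528) (L (nat_lit 19030471))
(L (nat_lit 16455590)))
(L (nat_lit 10605114)))
(L (nat_lit 25286892)))))
(L (nat_lit 25864740)))))
(S (nat_lit 46401) (S (nat_lit 17317) (S (nat_lit 15605) (S (nat_lit 48528) (S (nat_lit 972) (S (nat_lit 46887) (S (nat_lit 8582) (L (nat_lit 30098754))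
(L (nat_lit 12110909)))
(L (nat_lit 10292909)))
(L (nat_lit 26365352)))
(L (nat_lit 22222768)))
(S (nat_lit 35369) (S (nat_lit 10982) (S (nat_lit 972) (S (nat_lit 19453) (S (nat_lit 57275) (S (nat_lit 16091) (L (nat_lit 29044872))
(L (nat_lit 24703111)))
(L (nat_lit 21556266)))
(L (nat_lit 26791050)))
(L (nat_lit 26627210)))
(L (nat_lit 18444330)))
(S (nat_lit 55133) (S (nat_lit 35270) (L (nat_lit 28383821))
(S (nat_lit 57275) (S (nat_lit 42692) (S (nat_lit 48528) (S (nat_lit 10982) (S (nat_lit 2250) (L (nat_lit 2842832))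
(L (nat_lit 17716262)))
(L (nat_lit 18427652)))
(L (nat_lit 20132772)))
(L (nat_lit 27863425)))
(L (nat_lit 27826226))))
(L (nat_lit 25791915)))))
(S (nat_lit 37081) (S (nat_lit 48528) (S (nat_lit 10982) (S (nat_lit 2192) (S (nat_lit 13874) (S (nat_lit 55083) (S (nat_lit 3725) (L (nat_lit 6047466))
(L (nat_lit 20443332)))
(L (nat_lit 27745572)))
(L (nat_lit 22844784)))
(L (nat_lit 839050)))
(S (nat_lit 50346) (L (nat_lit 8178768))
(L (nat_lit 18426941))))
(S (nat_lit 56719) (S (nat_lit 29184) (L (nat_lit 14488790))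
(L (nat_lit 1515196)))
(L (nat_lit 2017735))))
(S (nat_lit 56845) (S (nat_lit 11954) (S (nat_lit 10982) (S (nat_lit 21956) (S (nat_lit 13874) (L (nat_lit 11030372))
(L (nat_lit 1327740)))
(L (nat_lit 18696266)))
(L (nat_lit 7771869)))
(S (nat_lit 31718) (S (nat_lit 757) (S (nat_lit 30513) (S (nat_lit 41514) (S (nat_lit 15340) (S (nat_lit 48528) (S (nat_lit 10453) (L (nat_lit 26543667))
(L (nat_lit 23869664)))
(L (nat_lit 14292219)))
(L (nat_lit 17401705)))
(L (nat_lit 17008381)))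
(L (nat_lit 12849078)))
(S (nat_lit 3517) (L (nat_lit 1749213))
(L (nat_lit 1435061))))
(S (nat_lit 51482) (S (nat_lit 13874) (S (nat_lit 41514) (L (nat_lit 829037))
(L (nat_lit 17705701)))
(L (nat_lit 22049136)))
(L (nat_lit 25382371)))))
(L (nat_lit 25364140)))))
(L (nat_lit 25731190)))))
(S (nat_lit 45853) (S (nat_lit 18233) (S (nat_lit 10210) (S (nat_lit 22928) (S (nat_lit 48528) (S (nat_lit 56792) (S (nat_lit 9556) (S (nat_lit 33152) (S (nat_lit 30488) (S (nat_lit 18878) (L (nat_lit 9516760))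
(L (nat_lit 29925524)))
(L (nat_lit 4990355)))
(L (nat_lit 14837354)))
(L (nat_lit 14819255)))
(L (nat_lit 6845152)))
(L (nat_lit 22545318)))
(L (nat_lit 553175)))
(S (nat_lit 29974) (S (nat_lit 56574) (S (nat_lit 9556) (S (nat_lit 42750) (S (nat_lit 30488) (L (nat_lit 6402652))
(L (nat_lit 12841696)))
(L (nat_lit 24637764)))
(L (nat_lit 638886)))
(L (nat_lit 8782775)))
(S (nat_lit 49738) (S (nat_lit 36810) (S (nat_lit 21730) (L (nat_lit 24510776))
(L (nat_lit 7734196)))
(L (nat_lit 10498812)))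
(L (nat_lit 25541186)))))
(S (nat_lit 37997) (S (nat_lit 7577) (S (nat_lit 2192) (S (nat_lit 48528) (S (nat_lit 58981) (S (nat_lit 35151) (S (nat_lit 24907) (L (nat_lit 29925089))
(L (nat_lit 13852757)))
(L (nat_lit 12969109)))
(L (nat_lit 6472316)))
(L (nat_lit 22222768)))
(S (nat_lit 21956) (S (nat_lit 29521) (L (nat_lit 9995186))
(L (nat_lit 12589725)))
(S (nat_lit 41720) (S (nat_lit 48528) (S (nat_lit 49285) (S (nat_lit 49738) (S (nat_lit 35151) (L (nat_lit 16389501))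
(L (nat_lit 13413525)))
(L (nat_lit 6321900)))
(L (nat_lit 13638300)))
(L (nat_lit 20131997)))
(L (nat_lit 25805092)))))
(S (nat_lit 27341) (S (nat_lit 16312) (S (nat_lit 49738) (S (nat_lit 35855) (S (nat_lit 5143) (L (nat_lit 11956406))
(L (nat_lit 20122480)))
(L (nat_lit 20135781)))
(L (nat_lit 8449431)))
(S (nat_lit 36076) (S (nat_lit 26984) (L (nat_lit 503733))
(S (nat_lit 34901) (S (nat_lit 16091) (S (nat_lit 52469) (S (nat_lit 5143) (S (nat_lit 22014) (L (nat_lit 22916547))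
(L (nat_lit 2937287)))
(L (nat_lit 1272244)))
(L (nat_lit 12809237)))
(L (nat_lit 24342949)))
(L (nat_lit 23098641))))
(S (nat_lit 55840) (S (nat_lit 27980) (L (nat_lit 5744500))
(S (nat_lit 32705) (S (nat_lit 43914) (L (nat_lit 7533233))
(L (nat_lit 23097766)))
(L (nat_lit 13660776))))
(L (nat_lit 25567251)))))
(S (nat_lit 47105) (S (nat_lit 15067) (S (nat_lit 11897) (L (nat_lit 24260092))
(S (nat_lit 27123) (S (nat_lit 57275) (S (nat_lit 5358) (S (nat_lit 6363) (L (nat_lit 28761445))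
(L (nat_lit 15768339)))
(L (nat_lit 19705252)))
(L (nat_lit 21110540)))
(L (nat_lit 30596396))))
(S (nat_lit 34831) (S (nat_lit 52446) (S (nat_lit 16041) (S (nat_lit 35319) (S (nat_lit 23489) (L (nat_lit 28361322))
(L (nat_lit 2939302)))
(L (nat_lit 782727)))
(L (nat_lit 9142680)))
(L (nat_lit 7210422)))
(S (nat_lit 54595) (S (nat_lit 54665) (S (nat_lit 44671) (S (nat_lit 1966) (S (nat_lit 48598) (L (nat_lit 843145))
(L (nat_lit 3780025)))
(L (nat_lit 12377572)))
(L (nat_lit 23997859)))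
(L (nat_lit 20987160)))
(L (nat_lit 25484399)))))
(L (nat_lit 25636513)))))
(S (nat_lit 57761) (S (nat_lit 19453) (S (nat_lit 57275) (S (nat_lit 48528) (S (nat_lit 8532) (S (nat_lit 22928) (S (nat_lit 58057) (L (nat_lit 7418521))
(L (nat_lit 1470086)))
(L (nat_lit 18459393)))
(L (nat_lit 12441773)))
(L (nat_lit 20132772)))
(L (nat_lit 19131841)))
(S (nat_lit 39217) (S (nat_lit 17557) (S (nat_lit 48060) (S (nat_lit 21750) (S (nat_lit 22928) (S (nat_lit 49274) (S (nat_lit 56792) (L (nat_lit 15903354))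
(L (nat_lit 2644904)))
(L (nat_lit 1517176)))
(L (nat_lit 870765)))
(L (nat_lit 8131309)))
(L (nat_lit 842093)))
(S (nat_lit 37321) (S (nat_lit 20035) (S (nat_lit 53698) (S (nat_lit 16803) (S (nat_lit 58057) (L (nat_lit 28325110))
(L (nat_lit 3746576)))
(L (nat_lit 24193808)))
(L (nat_lit 27314630)))
(L (nat_lit 15374493)))
(S (nat_lit 57085) (S (nat_lit 57275) (S (nat_lit 21750) (L (nat_lit 5163245))
(L (nat_lit 21216282)))
(L (nat_lit 21535489)))
(L (nat_lit 25345609)))))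
(S (nat_lit 58981) (S (nat_lit 6929) (L (nat_lit 19771434))
(S (nat_lit 58057) (S (nat_lit 48528) (S (nat_lit 53402) (S (nat_lit 9070) (S (nat_lit 11736) (L (nat_lit 5131655))
(L (nat_lit 962838)))
(L (nat_lit 2618706)))
(L (nat_lit 19776868)))
(L (nat_lit 20132772)))
(L (nat_lit 19184764))))
(L (nat_lit 25277683)))))
(L (nat_lit 25174606)))))
(L (nat_lit 25464212)))))
(L (nat_lit 25527984)))))
(S (nat_lit 23975) (S (nat_lit 16560) (S (nat_lit 16359) (S (nat_lit 17557) (S (nat_lit 9967) (S (nat_lit 19514) (S (nat_lit 3968) (S (nat_lit 9757) (L (nat_lit 28525153))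
(L (nat_lit 8406834)))
(L (nat_lit 26425059)))
(L (nat_lit 26870060)))
(S (nat_lit 29731) (S (nat_lit 7359) (S (nat_lit 57761) (S (nat_lit 24907) (L (nat_lit 24677690))
(L (nat_lit 21193123)))
(L (nat_lit 6012216)))
(S (nat_lit 27123) (S (nat_lit 28452) (L (nat_lit 7227536))
(S (nat_lit 57275) (S (nat_lit 30488) (S (nat_lit 12918) (L (nat_lit 30459624))
(L (nat_lit 23299608)))
(L (nat_lit 5159656)))
(L (nat_lit 1293914))))
(S (nat_lit 46887) (S (nat_lit 52469) (S (nat_lit 8582) (L (nat_lit 18663652))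
(L (nat_lit 26843618)))
(L (nat_lit 22050248)))
(L (nat_lit 25702049)))))
(S (nat_lit 49495) (S (nat_lit 15605) (S (nat_lit 4183) (S (nat_lit 15137) (S (nat_lit 20099) (L (nat_lit 8242261))
(L (nat_lit 28523671)))
(L (nat_lit 24676262)))
(S (nat_lit 26950) (L (nat_lit 669049))
(L (nat_lit 26909153))))
(S (nat_lit 35369) (S (nat_lit 4851) (L (nat_lit 7761011))
(S (nat_lit 57761) (S (nat_lit 9486) (L (nat_lit 10540472))
(L (nat_lit 1716016)))
(L (nat_lit 12912216))))
(S (nat_lit 55133) (S (nat_lit 17289) (S (nat_lit 20521) (S (nat_lit 10724) (L (nat_lit 28456277))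
(L (nat_lit 21861928)))
(L (nat_lit 6948280)))
(L (nat_lit 17499947)))
(L (nat_lit 25902401)))))
(L (nat_lit 25829420)))))
(S (nat_lit 37321) (S (nat_lit 3482) (S (nat_lit 17289) (S (nat_lit 39217) (S (nat_lit 49274) (L (nat_lit 22211976))
(L (nat_lit 1783561)))
(L (nat_lit 17094712)))
(S (nat_lit 37053) (S (nat_lit 18567) (L (nat_lit 5741490))
(S (nat_lit 49084) (S (nat_lit 13198) (S (nat_lit 22517) (L (nat_lit 28458323))
(L (nat_lit 5036397)))
(L (nat_lit 12744392)))
(L (nat_lit 20061969))))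
(S (nat_lit 56817) (S (nat_lit 22252) (S (nat_lit 48060) (L (nat_lit 3578677))
(L (nat_lit 17700489)))
(L (nat_lit 21403832)))
(L (nat_lit 25513411)))))
(S (nat_lit 23246) (S (nat_lit 2954) (S (nat_lit 57275) (S (nat_lit 17046) (S (nat_lit 34831) (L (nat_lit 453350))
(L (nat_lit 1486589)))
(L (nat_lit 10334946)))
(L (nat_lit 19372152)))
(S (nat_lit 22718) (S (nat_lit 27123) (S (nat_lit 21956) (L (nat_lit 22911116))
(L (nat_lit 22243405)))
(L (nat_lit 24940040)))
(S (nat_lit 42482) (S (nat_lit 25122) (S (nat_lit 48060) (L (nat_lit 17031072))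
(L (nat_lit 7049069)))
(L (nat_lit 17374116)))
(L (nat_lit 25562390)))))
(S (nat_lit 43010) (S (nat_lit 2488) (S (nat_lit 54868) (L (nat_lit 2530071))
(L (nat_lit 19699793)))
(S (nat_lit 22252) (S (nat_lit 16041) (L (nat_lit 2320887))
(L (nat_lit 24937000)))
(S (nat_lit 42016) (S (nat_lit 55083) (L (nat_lit 1777083))
(L (nat_lit 18946864)))
(L (nat_lit 25664160)))))
(L (nat_lit 25409216)))))
(S (nat_lit 57085) (S (nat_lit 2250) (S (nat_lit 18233) (S (nat_lit 12941) (S (nat_lit 34901) (L (nat_lit 17911560))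
(L (nat_lit 7435920)))
(L (nat_lit 16666632)))
(S (nat_lit 37997) (S (nat_lit 34901) (S (nat_lit 6873) (L (nat_lit 20475943))
(L (nat_lit 7990317)))
(L (nat_lit 14944050)))
(S (nat_lit 57761) (S (nat_lit 57275) (S (nat_lit 17046) (S (nat_lit 49274) (L (nat_lit 17980795))
(L (nat_lit 1785673)))
(L (nat_lit 15427876)))
(L (nat_lit 15586627)))
(L (nat_lit 25443508)))))
(S (nat_lit 22014) (S (nat_lit 12798) (L (nat_lit 13865593))
(S (nat_lit 29974) (S (nat_lit 57761) (S (nat_lit 11954) (S (nat_lit 57275) (L (nat_lit 1439472))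
(L (nat_lit 21469953)))
(L (nat_lit 18206465)))
(L (nat_lit 18890040)))
(L (nat_lit 13315160))))
(S (nat_lit 41778) (S (nat_lit 3725) (S (nat_lit 29974) (S (nat_lit 757) (L (nat_lit 23271181))
(L (nat_lit 8848986)))
(L (nat_lit 12638461)))
(S (nat_lit 23489) (S (nat_lit 39278) (S (nat_lit 55083) (L (nat_lit 28760168))
(L (nat_lit 1535255)))
(L (nat_lit 1535720)))
(S (nat_lit 43253) (S (nat_lit 33776) (L (nat_lit 5910009))
(S (nat_lit 34901) (S (nat_lit 12918) (S (nat_lit 41494) (L (nat_lit 29044774))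
(L (nat_lit 23500857)))
(L (nat_lit 3579480)))
(L (nat_lit 4759129))))
(L (nat_lit 25338294)))))
(L (nat_lit 25548288)))))
(L (nat_lit 25631299)))))
(S (nat_lit 36123) (S (nat_lit 13198) (S (nat_lit 10982) (S (nat_lit 4608) (L (nat_lit 1813945))
(S (nat_lit 9486) (S (nat_lit 41222) (L (nat_lit 11327537))
(L (nat_lit 16586839)))
(L (nat_lit 23539489))))
(S (nat_lit 30746) (S (nat_lit 11573) (L (nat_lit 843178))
(S (nat_lit 43711) (S (nat_lit 56774) (L (nat_lit 283500))
(S (nat_lit 59042) (S (nat_lit 44185) (S (nat_lit 40285) (L (nat_lit 28906828))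
(L (nat_lit 24949803)))
(L (nat_lit 24946080)))
(L (nat_lit 13453416))))
(L (nat_lit 24471628))))
(S (nat_lit 50510) (S (nat_lit 13121) (L (nat_lit 5467539))
(S (nat_lit 52469) (S (nat_lit 44671) (S (nat_lit 49014) (S (nat_lit 1986) (L (nat_lit 26431502))
(L (nat_lit 13455621)))
(L (nat_lit 22482792)))
(L (nat_lit 27373077)))
(L (nat_lit 12809299))))
(L (nat_lit 25475780)))))
(S (nat_lit 32962) (S (nat_lit 9486) (S (nat_lit 6325) (S (nat_lit 39799) (S (nat_lit 757) (L (nat_lit 13370709))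
(L (nat_lit 1259284)))
(L (nat_lit 1881673)))
(S (nat_lit 26089) (S (nat_lit 4386) (L (nat_lit 212823))
(L (nat_lit 26820865)))
(S (nat_lit 45853) (S (nat_lit 49981) (S (nat_lit 4155) (L (nat_lit 13305114))
(L (nat_lit 15304921)))
(L (nat_lit 6385047)))
(L (nat_lit 25799760)))))
(S (nat_lit 29250) (S (nat_lit 10210) (L (nat_lit 1716016))
(S (nat_lit 29974) (S (nat_lit 2192) (L (nat_lit 28983431))
(L (nat_lit 6310767)))
(S (nat_lit 49738) (S (nat_lit 43711) (S (nat_lit 28346) (L (nat_lit 28383799))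
(L (nat_lit 15822408)))
(L (nat_lit 6973857)))
(L (nat_lit 25888081)))))
(S (nat_lit 49014) (S (nat_lit 757) (S (nat_lit 39278) (S (nat_lit 43711) (S (nat_lit 3968) (L (nat_lit 30546670))
(L (nat_lit 26414519)))
(L (nat_lit 27933706)))
(L (nat_lit 17458344)))
(S (nat_lit 20521) (S (nat_lit 4155) (S (nat_lit 3968) (S (nat_lit 28346) (L (nat_lit 2530040))
(L (nat_lit 14773587)))
(L (nat_lit 20350237)))
(L (nat_lit 17602643)))
(S (nat_lit 40285) (S (nat_lit 24907) (S (nat_lit 35855) (S (nat_lit 35151) (L (nat_lit 26948745))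
(L (nat_lit 9213367)))
(L (nat_lit 20016365)))
(L (nat_lit 3812792)))
(L (nat_lit 25634837)))))
(L (nat_lit 25446017)))))
(S (nat_lit 52726) (S (nat_lit 4155) (S (nat_lit 1966) (S (nat_lit 31718) (S (nat_lit 19514) (L (nat_lit 13310140))
(L (nat_lit 9898804)))
(L (nat_lit 5678809)))
(S (nat_lit 21730) (S (nat_lit 35151) (L (nat_lit 4016552))
(L (nat_lit 18181303)))
(S (nat_lit 41494) (S (nat_lit 43711) (S (nat_lit 1900) (L (nat_lit 24373261))
(L (nat_lit 8853301)))
(L (nat_lit 256436)))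
(L (nat_lit 25528975)))))
(S (nat_lit 23919) (S (nat_lit 44886) (S (nat_lit 49274) (S (nat_lit 58981) (L (nat_lit 19402601))
(L (nat_lit 21474084)))
(L (nat_lit 7421715)))
(L (nat_lit 23151400)))
(S (nat_lit 43683) (S (nat_lit 4281) (L (nat_lit 826900))
(S (nat_lit 20521) (S (nat_lit 49274) (L (nat_lit 11583251))
(L (nat_lit 8085987)))
(L (nat_lit 21169592))))
(L (nat_lit 25483280)))))
(L (nat_lit 25347688)))))
(S (nat_lit 55887) (S (nat_lit 15831) (S (nat_lit 11736) (S (nat_lit 17264) (S (nat_lit 57275) (S (nat_lit 57761) (L (nat_lit 11175385))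
(L (nat_lit 21022471)))
(L (nat_lit 21203352)))
(S (nat_lit 37028) (S (nat_lit 16803) (S (nat_lit 17557) (L (nat_lit 24020208))
(L (nat_lit 26680898)))
(L (nat_lit 26466352)))
(S (nat_lit 56792) (S (nat_lit 16803) (S (nat_lit 49981) (L (nat_lit 2316728))
(L (nat_lit 9288416)))
(L (nat_lit 1782569)))
(L (nat_lit 25349485)))))
(S (nat_lit 31500) (S (nat_lit 271) (S (nat_lit 4657) (S (nat_lit 39217) (S (nat_lit 22928) (L (nat_lit 21391366))
(L (nat_lit 11997975)))
(L (nat_lit 17636961)))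
(L (nat_lit 26744117)))
(S (nat_lit 20035) (S (nat_lit 39217) (S (nat_lit 3222) (L (nat_lit 21868616))
(L (nat_lit 4714056)))
(L (nat_lit 1920240)))
(S (nat_lit 39799) (S (nat_lit 17289) (L (nat_lit 14359609))
(L (nat_lit 16817941)))
(L (nat_lit 25184681)))))
(S (nat_lit 51264) (S (nat_lit 6325) (S (nat_lit 6873) (S (nat_lit 2468) (L (nat_lit 14936082))
(L (nat_lit 19195981)))
(L (nat_lit 7399956)))
(S (nat_lit 26089) (S (nat_lit 34831) (S (nat_lit 10982) (L (nat_lit 26459253))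
(L (nat_lit 8230453)))
(L (nat_lit 14871271)))
(S (nat_lit 45853) (S (nat_lit 32682) (S (nat_lit 2468) (S (nat_lit 35805) (L (nat_lit 2844943))
(L (nat_lit 23594760)))
(L (nat_lit 18883341)))
(L (nat_lit 4448015)))
(L (nat_lit 25544417)))))
(L (nat_lit 25858321)))))
(S (nat_lit 35595) (S (nat_lit 15555) (S (nat_lit 37511) (L (nat_lit 2316728))
(L (nat_lit 16995451)))
(S (nat_lit 35319) (L (nat_lit 212730))
(S (nat_lit 55083) (S (nat_lit 28764) (L (nat_lit 12785275))
(L (nat_lit 24319888)))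
(L (nat_lit 25410242)))))
(S (nat_lit 55359) (S (nat_lit 3482) (S (nat_lit 17264) (S (nat_lit 6363) (L (nat_lit 6741760))
(L (nat_lit 10105605)))
(S (nat_lit 37028) (S (nat_lit 23919) (S (nat_lit 2468) (S (nat_lit 37081) (L (nat_lit 18553881))
(L (nat_lit 10505688)))
(L (nat_lit 15532279)))
(L (nat_lit 8208099)))
(S (nat_lit 56792) (S (nat_lit 29320) (S (nat_lit 757) (S (nat_lit 8582) (L (nat_lit 29570690))
(L (nat_lit 13857504)))
(L (nat_lit 19236623)))
(L (nat_lit 19707171)))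
(L (nat_lit 25631922)))))
(S (nat_lit 23246) (S (nat_lit 3725) (S (nat_lit 29172) (L (nat_lit 2017767))
(S (nat_lit 52726) (S (nat_lit 23919) (S (nat_lit 29521) (L (nat_lit 2897111))
(L (nat_lit 19055896)))
(L (nat_lit 21097678)))
(L (nat_lit 17647688))))
(S (nat_lit 23489) (S (nat_lit 16803) (S (nat_lit 50224) (S (nat_lit 23919) (S (nat_lit 11954) (L (nat_lit 28330224))
(L (nat_lit 4406035)))
(L (nat_lit 1678126)))
(L (nat_lit 9137700)))
(S (nat_lit 43896) (L (nat_lit 7978109))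
(L (nat_lit 10171168))))
(S (nat_lit 43253) (S (nat_lit 2468) (S (nat_lit 23919) (S (nat_lit 42502) (L (nat_lit 874767))
(L (nat_lit 8075356)))
(L (nat_lit 8215566)))
(S (nat_lit 35004) (L (nat_lit 12704026))
(L (nat_lit 8204375))))
(L (nat_lit 25935108)))))
(S (nat_lit 43010) (S (nat_lit 17289) (S (nat_lit 57275) (L (nat_lit 4921884))
(L (nat_lit 19119875)))
(S (nat_lit 37053) (S (nat_lit 31014) (S (nat_lit 22252) (S (nat_lit 50224) (S (nat_lit 15387) (L (nat_lit 30016878))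
(L (nat_lit 8008888)))
(L (nat_lit 16046881)))
(L (nat_lit 8817429)))
(L (nat_lit 14281799)))
(S (nat_lit 56817) (S (nat_lit 23732) (S (nat_lit 30513) (L (nat_lit 3364653))
(L (nat_lit 7786554)))
(L (nat_lit 7859319)))
(L (nat_lit 25893998)))))
(L (nat_lit 25614345)))))
(L (nat_lit 25216247)))))
(L (nat_lit 25415792)))))
(S (nat_lit 36324) (S (nat_lit 9070) (S (nat_lit 3482) (S (nat_lit 16359) (S (nat_lit 2250) (S (nat_lit 42281) (S (nat_lit 35151) (L (nat_lit 7860801))
(L (nat_lit 20359968)))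
(L (nat_lit 27699936)))
(S (nat_lit 22014) (S (nat_lit 55278) (S (nat_lit 9556) (L (nat_lit 12677801))
(L (nat_lit 501687)))
(S (nat_lit 56817) (S (nat_lit 2192) (S (nat_lit 15831) (S (nat_lit 2488) (S (nat_lit 29974) (S (nat_lit 21750) (S (nat_lit 3968) (L (nat_lit 5488344))
(L (nat_lit 26499489)))
(L (nat_lit 14720882)))
(L (nat_lit 24165290)))
(L (nat_lit 26266892)))
(L (nat_lit 26267078)))
(L (nat_lit 16829756)))
(L (nat_lit 8538039))))
(S (nat_lit 41778) (S (nat_lit 3968) (S (nat_lit 19514) (L (nat_lit 4595634))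
(L (nat_lit 26812896)))
(L (nat_lit 10160047)))
(L (nat_lit 25895425)))))
(S (nat_lit 36123) (S (nat_lit 10724) (S (nat_lit 34778) (L (nat_lit 23298493))
(S (nat_lit 42281) (S (nat_lit 35151) (S (nat_lit 42482) (S (nat_lit 49285) (L (nat_lit 1300921))
(L (nat_lit 13992887)))
(L (nat_lit 23654724)))
(L (nat_lit 23901351)))
(L (nat_lit 27604706))))
(S (nat_lit 30488) (S (nat_lit 7615) (L (nat_lit 4745832))
(S (nat_lit 42281) (S (nat_lit 35805) (S (nat_lit 26089) (L (nat_lit 10505133))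
(L (nat_lit 1700109)))
(L (nat_lit 13337820)))
(L (nat_lit 27339191))))
(S (nat_lit 50252) (S (nat_lit 29820) (L (nat_lit 26969608))
(S (nat_lit 35805) (S (nat_lit 52446) (S (nat_lit 3725) (S (nat_lit 5358) (L (nat_lit 6788856))
(L (nat_lit 11326884)))
(L (nat_lit 1809327)))
(L (nat_lit 20166531)))
(L (nat_lit 20252058))))
(L (nat_lit 25221359)))))
(S (nat_lit 55887) (S (nat_lit 10749) (S (nat_lit 24421) (S (nat_lit 16041) (S (nat_lit 35151) (S (nat_lit 19514) (S (nat_lit 20521) (L (nat_lit 11724464))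
(L (nat_lit 30606926)))
(L (nat_lit 22940136)))
(L (nat_lit 20360992)))
(L (nat_lit 1857064)))
(S (nat_lit 32596) (L (nat_lit 27711526))
(L (nat_lit 21406744))))
(S (nat_lit 30513) (S (nat_lit 37081) (S (nat_lit 22252) (S (nat_lit 9746) (S (nat_lit 29320) (L (nat_lit 7967164))
(L (nat_lit 30582263)))
(L (nat_lit 4485805)))
(L (nat_lit 12623517)))
(L (nat_lit 23502013)))
(S (nat_lit 50277) (S (nat_lit 13331) (L (nat_lit 1701287))
(S (nat_lit 24421) (S (nat_lit 35369) (L (nat_lit 6410651))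
(L (nat_lit 798130)))
(L (nat_lit 21263781))))
(L (nat_lit 25857579)))))
(L (nat_lit 25284912)))))
(S (nat_lit 23246) (S (nat_lit 6873) (S (nat_lit 5143) (S (nat_lit 40500) (S (nat_lit 15950) (S (nat_lit 47105) (S (nat_lit 8582) (L (nat_lit 23632056))
(L (nat_lit 26854534)))
(L (nat_lit 18656867)))
(L (nat_lit 8992514)))
(L (nat_lit 7760979)))
(S (nat_lit 24907) (S (nat_lit 57275) (S (nat_lit 10899) (L (nat_lit 4645142))
(S (nat_lit 37053) (S (nat_lit 42016) (S (nat_lit 27341) (S (nat_lit 6605) (S (nat_lit 13388) (S (nat_lit 43253) (S (nat_lit 25122) (L (nat_lit 7422617))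
(L (nat_lit 21470116)))
(L (nat_lit 23564504)))
(L (nat_lit 7767677)))
(L (nat_lit 8208036)))
(L (nat_lit 6813281)))
(L (nat_lit 1429388)))
(L (nat_lit 30461449))))
(L (nat_lit 21939553)))
(S (nat_lit 44671) (S (nat_lit 48060) (S (nat_lit 44886) (S (nat_lit 34831) (S (nat_lit 37028) (S (nat_lit 23489) (L (nat_lit 28677555))
(L (nat_lit 7859382)))
(L (nat_lit 5119661)))
(L (nat_lit 4642698)))
(L (nat_lit 12939938)))
(L (nat_lit 7124611)))
(L (nat_lit 25867366)))))
(S (nat_lit 26637) (S (nat_lit 4614) (S (nat_lit 4832) (L (nat_lit 13202535))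
(L (nat_lit 13301091)))
(S (nat_lit 57275) (S (nat_lit 37053) (S (nat_lit 24150) (S (nat_lit 48313) (S (nat_lit 35595) (S (nat_lit 33152) (S (nat_lit 2250) (S (nat_lit 54915) (S (nat_lit 41720) (S (nat_lit 24115) (S (nat_lit 20151) (S (nat_lit 30460) (S (nat_lit 22738) (S (nat_lit 13874) (S (nat_lit 29250) (S (nat_lit 42692) (L (nat_lit 18519321))
(L (nat_lit 24447544)))
(L (nat_lit 24447824)))
(L (nat_lit 22287184)))
(S (nat_lit 42502) (S (nat_lit 23919) (S (nat_lit 37028) (L (nat_lit 3782873))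
(L (nat_lit 13436582)))
(L (nat_lit 13458443)))
(L (nat_lit 25666211))))
(L (nat_lit 19408029)))
(L (nat_lit 3711890)))
(L (nat_lit 19274659)))
(L (nat_lit 27269807)))
(L (nat_lit 27863456)))
(L (nat_lit 26363122)))
(L (nat_lit 8783483)))
(L (nat_lit 8802181)))
(L (nat_lit 4794284)))
(L (nat_lit 30921830)))
(L (nat_lit 1852791)))
(L (nat_lit 12744050))))
(S (nat_lit 46401) (S (nat_lit 21950) (S (nat_lit 2428) (L (nat_lit 6928573))
(L (nat_lit 23444667)))
(S (nat_lit 22517) (S (nat_lit 39394) (S (nat_lit 21695) (L (nat_lit 13402482))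
(L (nat_lit 20757730)))
(S (nat_lit 39799) (S (nat_lit 4386) (S (nat_lit 44185) (S (nat_lit 30460) (S (nat_lit 54915) (S (nat_lit 35595) (S (nat_lit 17592) (S (nat_lit 48528) (S (nat_lit 46285) (S (nat_lit 37028) (S (nat_lit 9556) (S (nat_lit 30217) (L (nat_lit 3580600))
(L (nat_lit 19344568)))
(L (nat_lit 15332518)))
(S (nat_lit 56792) (S (nat_lit 49981) (S (nat_lit 16091) (L (nat_lit 8401627))
(L (nat_lit 15332519)))
(L (nat_lit 20477095)))
(L (nat_lit 25546178))))
(L (nat_lit 19706984)))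
(L (nat_lit 20062685)))
(L (nat_lit 23279489)))
(L (nat_lit 23856647)))
(L (nat_lit 27775328)))
(L (nat_lit 31144074)))
(L (nat_lit 23392672)))
(L (nat_lit 19951014)))
(L (nat_lit 1546841))))
(L (nat_lit 1881802))))
(L (nat_lit 25288013)))))
(S (nat_lit 43010) (S (nat_lit 13874) (S (nat_lit 18529) (S (nat_lit 10724) (S (nat_lit 10210) (L (nat_lit 11291756))
(L (nat_lit 23126252)))
(S (nat_lit 20652) (L (nat_lit 4506235))
(L (nat_lit 26973421))))
(S (nat_lit 38293) (S (nat_lit 48313) (S (nat_lit 2753) (S (nat_lit 21956) (L (nat_lit 11563510))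
(L (nat_lit 12611895)))
(L (nat_lit 26237419)))
(L (nat_lit 4813036)))
(S (nat_lit 58057) (S (nat_lit 21750) (S (nat_lit 26089) (S (nat_lit 57761) (S (nat_lit 14170) (S (nat_lit 48528) (S (nat_lit 36810) (L (nat_lit 1548086))
(L (nat_lit 7360398)))
(L (nat_lit 16412806)))
(L (nat_lit 12814166)))
(L (nat_lit 15566409)))
(L (nat_lit 7851809)))
(L (nat_lit 21759245)))
(L (nat_lit 25582630)))))
(S (nat_lit 33638) (S (nat_lit 2753) (S (nat_lit 49382) (L (nat_lit 3677912))
(S (nat_lit 52726) (S (nat_lit 15605) (S (nat_lit 41778) (S (nat_lit 40285) (S (nat_lit 22986) (S (nat_lit 29521) (S (nat_lit 12941) (L (nat_lit 11618749))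
(L (nat_lit 26497408)))
(L (nat_lit 30813335)))
(L (nat_lit 13333640)))
(L (nat_lit 17003573)))
(L (nat_lit 27691623)))
(L (nat_lit 15542324)))
(L (nat_lit 21356623))))
(S (nat_lit 45112) (L (nat_lit 6803612))
(L (nat_lit 6380988))))
(S (nat_lit 53402) (S (nat_lit 2753) (S (nat_lit 15387) (S (nat_lit 4657) (S (nat_lit 15605) (S (nat_lit 48313) (S (nat_lit 57275) (S (nat_lit 48528) (S (nat_lit 53698) (S (nat_lit 18529) (L (nat_lit 17898141))
(L (nat_lit 22340717)))
(L (nat_lit 21270009)))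
(L (nat_lit 16390054)))
(L (nat_lit 11385906)))
(L (nat_lit 16019506)))
(L (nat_lit 24311210)))
(L (nat_lit 26916128)))
(S (nat_lit 25435) (L (nat_lit 24156664))
(L (nat_lit 15036597))))
(S (nat_lit 39045) (L (nat_lit 23128401))
(L (nat_lit 26303915))))
(L (nat_lit 25577829)))))
(L (nat_lit 25896354)))))
(S (nat_lit 28834) (S (nat_lit 3725) (S (nat_lit 972) (S (nat_lit 11250) (S (nat_lit 41720) (S (nat_lit 2488) (S (nat_lit 15831) (S (nat_lit 9746) (S (nat_lit 42692) (S (nat_lit 51264) (L (nat_lit 28822725))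
(L (nat_lit 5000682)))
(L (nat_lit 1649455)))
(L (nat_lit 2903341)))
(L (nat_lit 7393072)))
(L (nat_lit 7392667)))
(L (nat_lit 27315754)))
(S (nat_lit 31014) (S (nat_lit 51264) (S (nat_lit 19453) (S (nat_lit 36567) (S (nat_lit 8582) (S (nat_lit 2192) (L (nat_lit 28492018))
(L (nat_lit 19930991)))
(L (nat_lit 26432657)))
(L (nat_lit 18620064)))
(L (nat_lit 10243213)))
(S (nat_lit 54474) (L (nat_lit 16567466))
(L (nat_lit 12733723))))
(S (nat_lit 50778) (S (nat_lit 8582) (S (nat_lit 21956) (S (nat_lit 51264) (S (nat_lit 30217) (L (nat_lit 21229613))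
(L (nat_lit 13446167)))
(L (nat_lit 12733789)))
(L (nat_lit 8441401)))
(L (nat_lit 12801180)))
(L (nat_lit 25527951)))))
(S (nat_lit 20736) (S (nat_lit 757) (S (nat_lit 27729) (L (nat_lit 730554))
(S (nat_lit 43010) (S (nat_lit 58981) (S (nat_lit 51482) (S (nat_lit 4657) (S (nat_lit 5143) (L (nat_lit 28330538))
(L (nat_lit 19728806)))
(L (nat_lit 18902441)))
(L (nat_lit 12804801)))
(L (nat_lit 21869892)))
(L (nat_lit 9525690))))
(L (nat_lit 1729958)))
(S (nat_lit 40500) (S (nat_lit 17289) (S (nat_lit 23326) (L (nat_lit 245527))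
(S (nat_lit 43683) (S (nat_lit 55359) (S (nat_lit 46887) (L (nat_lit 5452599))
(L (nat_lit 18459835)))
(L (nat_lit 28001477)))
(L (nat_lit 908715))))
(S (nat_lit 37053) (S (nat_lit 21956) (S (nat_lit 35595) (S (nat_lit 42016) (S (nat_lit 34901) (S (nat_lit 44185) (S (nat_lit 20521) (L (nat_lit 5455762))
(L (nat_lit 15486210)))
(L (nat_lit 1483452)))
(L (nat_lit 15518978)))
(L (nat_lit 27315500)))
(L (nat_lit 17878918)))
(L (nat_lit 17878299)))
(S (nat_lit 56817) (S (nat_lit 15831) (S (nat_lit 2488) (S (nat_lit 23246) (S (nat_lit 11736) (L (nat_lit 8211505))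
(L (nat_lit 2020840)))
(L (nat_lit 11558767)))
(L (nat_lit 14732602)))
(L (nat_lit 7499438)))
(L (nat_lit 25724649)))))
(L (nat_lit 25768074)))))
(S (nat_lit 23489) (S (nat_lit 15831) (S (nat_lit 2488) (S (nat_lit 3034) (L (nat_lit 2628501))
(S (nat_lit 54868) (S (nat_lit 11250) (S (nat_lit 36123) (S (nat_lit 23732) (S (nat_lit 10210) (S (nat_lit 49495) (S (nat_lit 24421) (S (nat_lit 2954) (L (nat_lit 21143963))
(L (nat_lit 19295271)))
(L (nat_lit 20980253)))
(L (nat_lit 20030252)))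
(L (nat_lit 21030220)))
(L (nat_lit 12807222)))
(L (nat_lit 23498536)))
(L (nat_lit 7964465)))
(L (nat_lit 21076785))))
(L (nat_lit 7393137)))
(S (nat_lit 35595) (S (nat_lit 21956) (S (nat_lit 22718) (S (nat_lit 16312) (S (nat_lit 29521) (S (nat_lit 8582) (L (nat_lit 15926130))
(L (nat_lit 21198304)))
(L (nat_lit 18052242)))
(L (nat_lit 4416918)))
(L (nat_lit 22241325)))
(L (nat_lit 17878955)))
(S (nat_lit 55359) (S (nat_lit 22252) (S (nat_lit 2192) (S (nat_lit 31014) (S (nat_lit 17289) (S (nat_lit 9967) (S (nat_lit 26369) (S (nat_lit 16312) (S (nat_lit 52726) (S (nat_lit 42482) (L (nat_lit 4538043))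
(L (nat_lit 5468749)))
(L (nat_lit 27805801)))
(L (nat_lit 16978803)))
(L (nat_lit 18981745)))
(L (nat_lit 11036388)))
(L (nat_lit 14732600)))
(L (nat_lit 30461478)))
(L (nat_lit 14732573)))
(L (nat_lit 12635913)))
(L (nat_lit 25309429)))))
(S (nat_lit 43253) (S (nat_lit 10453) (S (nat_lit 10749) (S (nat_lit 52916) (S (nat_lit 57275) (S (nat_lit 4386) (L (nat_lit 13264197))
(L (nat_lit 1259378)))
(L (nat_lit 1269144)))
(L (nat_lit 1272274)))
(S (nat_lit 30513) (S (nat_lit 25477) (L (nat_lit 12798821))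
(S (nat_lit 37081) (S (nat_lit 49285) (S (nat_lit 28549) (S (nat_lit 2954) (L (nat_lit 14325784))
(L (nat_lit 1921479)))
(L (nat_lit 18616008)))
(L (nat_lit 20148741)))
(L (nat_lit 12804833))))
(S (nat_lit 50277) (S (nat_lit 2954) (L (nat_lit 14298949))
(L (nat_lit 17477381)))
(L (nat_lit 25248086)))))
(S (nat_lit 30217) (S (nat_lit 16803) (S (nat_lit 57275) (S (nat_lit 34831) (S (nat_lit 36076) (L (nat_lit 11047701))
(L (nat_lit 23269784)))
(L (nat_lit 23377016)))
(L (nat_lit 19119224)))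
(S (nat_lit 36567) (S (nat_lit 3968) (S (nat_lit 51264) (S (nat_lit 972) (S (nat_lit 23919) (S (nat_lit 52726) (S (nat_lit 54915) (L (nat_lit 11121408))
(L (nat_lit 19227104)))
(L (nat_lit 16933480)))
(L (nat_lit 22210025)))
(L (nat_lit 19325064)))
(S (nat_lit 52404) (L (nat_lit 12708054))
(L (nat_lit 8147985))))
(S (nat_lit 57699) (L (nat_lit 19669007))
(L (nat_lit 20149729))))
(S (nat_lit 56331) (S (nat_lit 48528) (S (nat_lit 28549) (L (nat_lit 30088209))
(L (nat_lit 13377591)))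
(L (nat_lit 16455590)))
(L (nat_lit 25506464)))))
(S (nat_lit 49981) (S (nat_lit 1986) (S (nat_lit 36076) (S (nat_lit 14170) (S (nat_lit 34831) (L (nat_lit 3356567))
(L (nat_lit 8213892)))
(L (nat_lit 13540531)))
(L (nat_lit 12784248)))
(S (nat_lit 21750) (S (nat_lit 25522) (L (nat_lit 2899157))
(S (nat_lit 26089) (S (nat_lit 26637) (S (nat_lit 42692) (S (nat_lit 37028) (L (nat_lit 14831400))
(L (nat_lit 1580729)))
(L (nat_lit 1679768)))
(L (nat_lit 15786326)))
(L (nat_lit 1567466))))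
(S (nat_lit 41514) (S (nat_lit 28549) (S (nat_lit 50252) (S (nat_lit 57275) (S (nat_lit 18233) (L (nat_lit 1845997))
(L (nat_lit 22363293)))
(L (nat_lit 18946828)))
(L (nat_lit 27318605)))
(S (nat_lit 46924) (L (nat_lit 27511980))
(L (nat_lit 13536503))))
(L (nat_lit 25318669)))))
(L (nat_lit 25311975)))))
(L (nat_lit 25893285)))))
(S (nat_lit 48598) (S (nat_lit 2954) (S (nat_lit 3164) (S (nat_lit 10696) (S (nat_lit 50252) (S (nat_lit 22014) (S (nat_lit 49495) (S (nat_lit 29974) (S (nat_lit 30513) (S (nat_lit 15067) (S (nat_lit 757) (L (nat_lit 219549))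
(L (nat_lit 667994)))
(L (nat_lit 14460577)))
(L (nat_lit 1945142)))
(L (nat_lit 2963799)))
(L (nat_lit 27613729)))
(L (nat_lit 21793287)))
(L (nat_lit 20758568)))
(S (nat_lit 30460) (S (nat_lit 35595) (S (nat_lit 2192) (S (nat_lit 12918) (L (nat_lit 965194))
(L (nat_lit 23937349)))
(L (nat_lit 6344527)))
(L (nat_lit 13388903)))
(S (nat_lit 50224) (S (nat_lit 17414) (L (nat_lit 10608060))
(S (nat_lit 41778) (S (nat_lit 16041) (L (nat_lit 19304297))
(L (nat_lit 17564264)))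
(L (nat_lit 23503776))))
(L (nat_lit 25275794)))))
(S (nat_lit 22928) (S (nat_lit 10453) (S (nat_lit 8532) (L (nat_lit 21933573))
(L (nat_lit 23539461)))
(S (nat_lit 30217) (S (nat_lit 52469) (S (nat_lit 36567) (S (nat_lit 1986) (L (nat_lit 13331595))
(L (nat_lit 13442789)))
(L (nat_lit 18571616)))
(L (nat_lit 12604168)))
(S (nat_lit 49981) (S (nat_lit 39116) (L (nat_lit 7097484))
(S (nat_lit 39278) (S (nat_lit 26369) (S (nat_lit 57275) (S (nat_lit 1986) (L (nat_lit 2792269))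
(L (nat_lit 13471955)))
(L (nat_lit 13472394)))
(L (nat_lit 14754489)))
(L (nat_lit 1448697))))
(L (nat_lit 25825831)))))
(S (nat_lit 42692) (S (nat_lit 7359) (S (nat_lit 11381) (L (nat_lit 1721130))
(S (nat_lit 34831) (S (nat_lit 44886) (S (nat_lit 44185) (S (nat_lit 9556) (L (nat_lit 6073965))
(L (nat_lit 11409009)))
(L (nat_lit 10499988)))
(L (nat_lit 27776170)))
(L (nat_lit 20375722))))
(S (nat_lit 27123) (S (nat_lit 36891) (S (nat_lit 13388) (L (nat_lit 17437481))
(L (nat_lit 6719100)))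
(S (nat_lit 37053) (S (nat_lit 38293) (S (nat_lit 2192) (L (nat_lit 2892343))
(L (nat_lit 7393133)))
(L (nat_lit 19966765)))
(L (nat_lit 1799625))))
(S (nat_lit 46887) (S (nat_lit 18088) (L (nat_lit 1732139))
(S (nat_lit 37028) (S (nat_lit 30488) (S (nat_lit 21750) (S (nat_lit 5358) (L (nat_lit 29895763))
(L (nat_lit 20721060)))
(L (nat_lit 4454093)))
(L (nat_lit 5003599)))
(L (nat_lit 4959117))))
(L (nat_lit 25315628)))))
(L (nat_lit 25798671)))))
(S (nat_lit 22718) (S (nat_lit 757) (S (nat_lit 39217) (S (nat_lit 10531) (L (nat_lit 18551659))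
(S (nat_lit 29521) (S (nat_lit 8582) (S (nat_lit 2974) (L (nat_lit 5961131))
(L (nat_lit 8839843)))
(L (nat_lit 13554824)))
(L (nat_lit 13380754))))
(L (nat_lit 7463629)))
(S (nat_lit 20521) (S (nat_lit 972) (S (nat_lit 29521) (S (nat_lit 30217) (L (nat_lit 24554621))
(L (nat_lit 12970002)))
(L (nat_lit 18630912)))
(L (nat_lit 4994632)))
(S (nat_lit 40285) (S (nat_lit 11954) (S (nat_lit 8582) (L (nat_lit 23868424))
(L (nat_lit 5469653)))
(L (nat_lit 18044060)))
(L (nat_lit 25666114)))))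
(S (nat_lit 42482) (S (nat_lit 15387) (S (nat_lit 8532) (S (nat_lit 10749) (S (nat_lit 17557) (S (nat_lit 49014) (L (nat_lit 13832082))
(L (nat_lit 14364576)))
(L (nat_lit 1728905)))
(L (nat_lit 17706725)))
(S (nat_lit 28296) (S (nat_lit 10749) (S (nat_lit 39217) (S (nat_lit 48528) (L (nat_lit 4419180))
(L (nat_lit 1274576)))
(L (nat_lit 5054157)))
(L (nat_lit 26717925)))
(S (nat_lit 48060) (S (nat_lit 20521) (S (nat_lit 9757) (S (nat_lit 57275) (L (nat_lit 8815320))
(L (nat_lit 1766794)))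
(L (nat_lit 23447296)))
(L (nat_lit 22815139)))
(L (nat_lit 25680043)))))
(S (nat_lit 35151) (S (nat_lit 7359) (S (nat_lit 9757) (S (nat_lit 44886) (S (nat_lit 9486) (S (nat_lit 47105) (L (nat_lit 16887607))
(L (nat_lit 18444327)))
(L (nat_lit 21802032)))
(L (nat_lit 13489322)))
(S (nat_lit 19297) (L (nat_lit 2932329))
(L (nat_lit 23442213))))
(S (nat_lit 27123) (S (nat_lit 16041) (S (nat_lit 22014) (S (nat_lit 23732) (L (nat_lit 17167415))
(L (nat_lit 30840950)))
(L (nat_lit 30791169)))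
(S (nat_lit 31383) (S (nat_lit 50224) (S (nat_lit 28296) (L (nat_lit 13831958))
(L (nat_lit 24620218)))
(L (nat_lit 20393116)))
(L (nat_lit 1852104))))
(S (nat_lit 46887) (S (nat_lit 9757) (S (nat_lit 22232) (S (nat_lit 5358) (S (nat_lit 19453) (L (nat_lit 13389831))
(L (nat_lit 18631815)))
(L (nat_lit 4758355)))
(L (nat_lit 18620567)))
(L (nat_lit 4599607)))
(L (nat_lit 25410740)))))
(S (nat_lit 54915) (S (nat_lit 17317) (S (nat_lit 26127) (S (nat_lit 9757) (L (nat_lit 9057188))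
(L (nat_lit 4573969)))
(S (nat_lit 38387) (L (nat_lit 13243305))
(L (nat_lit 1306098))))
(S (nat_lit 37081) (S (nat_lit 28296) (S (nat_lit 39217) (S (nat_lit 2468) (S (nat_lit 32705) (L (nat_lit 26301959))
(L (nat_lit 4406971)))
(L (nat_lit 8237207)))
(L (nat_lit 4579766)))
(L (nat_lit 19674467)))
(S (nat_lit 56845) (S (nat_lit 48528) (S (nat_lit 57275) (S (nat_lit 9757) (S (nat_lit 10749) (L (nat_lit 16993465))
(L (nat_lit 23269232)))
(L (nat_lit 23266060)))
(L (nat_lit 21171022)))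
(L (nat_lit 1729742)))
(L (nat_lit 25385068)))))
(L (nat_lit 25767056)))))
(L (nat_lit 25244263)))))
(L (nat_lit 25668197)))))
(S (nat_lit 56088) (S (nat_lit 3482) (S (nat_lit 6363) (S (nat_lit 9556) (S (nat_lit 17046) (S (nat_lit 49274) (L (nat_lit 29372723))
(L (nat_lit 1401333)))
(S (nat_lit 36810) (S (nat_lit 30488) (L (nat_lit 12720892))
(L (nat_lit 24352685)))
(S (nat_lit 56574) (S (nat_lit 30488) (S (nat_lit 43914) (L (nat_lit 12807315))
(L (nat_lit 11137135)))
(L (nat_lit 19109805)))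
(L (nat_lit 25188720)))))
(S (nat_lit 29320) (S (nat_lit 30513) (S (nat_lit 20035) (S (nat_lit 28834) (L (nat_lit 834153))
(L (nat_lit 19774821)))
(L (nat_lit 30906949)))
(S (nat_lit 58329) (L (nat_lit 12498498))
(L (nat_lit 17849259))))
(S (nat_lit 49084) (S (nat_lit 16312) (S (nat_lit 50252) (S (nat_lit 2974) (S (nat_lit 271) (L (nat_lit 30638700))
(L (nat_lit 19733920)))
(L (nat_lit 26968614)))
(L (nat_lit 22279213)))
(S (nat_lit 36076) (S (nat_lit 31500) (S (nat_lit 52469) (L (nat_lit 5495665))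
(L (nat_lit 22038278)))
(L (nat_lit 14459956)))
(S (nat_lit 55840) (S (nat_lit 34901) (S (nat_lit 23489) (L (nat_lit 20355229))
(L (nat_lit 21402841)))
(L (nat_lit 20134690)))
(L (nat_lit 25731254)))))
(L (nat_lit 25869603)))))
(S (nat_lit 26127) (S (nat_lit 6605) (S (nat_lit 16359) (S (nat_lit 22738) (S (nat_lit 8532) (S (nat_lit 42750) (L (nat_lit 23076253))
(L (nat_lit 7766963)))
(L (nat_lit 26447252)))
(L (nat_lit 2832765)))
(S (nat_lit 36123) (S (nat_lit 48060) (S (nat_lit 31500) (L (nat_lit 17440609))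
(L (nat_lit 30651009)))
(L (nat_lit 842029)))
(S (nat_lit 55887) (S (nat_lit 23919) (S (nat_lit 29320) (S (nat_lit 23947) (L (nat_lit 18416487))
(L (nat_lit 1752938)))
(L (nat_lit 2340663)))
(L (nat_lit 1923497)))
(L (nat_lit 25280072)))))
(S (nat_lit 26369) (S (nat_lit 4155) (S (nat_lit 34551) (L (nat_lit 9114040))
(S (nat_lit 41720) (S (nat_lit 21730) (L (nat_lit 4921818))
(L (nat_lit 7769013)))
(L (nat_lit 11553677))))
(S (nat_lit 23919) (S (nat_lit 36076) (S (nat_lit 3968) (S (nat_lit 42750) (S (nat_lit 49014) (L (nat_lit 19798029))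
(L (nat_lit 7887901)))
(L (nat_lit 7860307)))
(L (nat_lit 19837992)))
(L (nat_lit 30596486)))
(S (nat_lit 43683) (S (nat_lit 22738) (S (nat_lit 49014) (S (nat_lit 35104) (S (nat_lit 42750) (L (nat_lit 26876049))
(L (nat_lit 27504787)))
(L (nat_lit 30825762)))
(L (nat_lit 13671131)))
(L (nat_lit 13304747)))
(L (nat_lit 25631461)))))
(S (nat_lit 46133) (S (nat_lit 11736) (S (nat_lit 20736) (S (nat_lit 41996) (L (nat_lit 11222170))
(L (nat_lit 1978954)))
(S (nat_lit 55052) (L (nat_lit 23175672))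
(L (nat_lit 931402))))
(S (nat_lit 31500) (S (nat_lit 23372) (L (nat_lit 19705993))
(S (nat_lit 53698) (S (nat_lit 42750) (S (nat_lit 56817) (S (nat_lit 8532) (S (nat_lit 23919) (L (nat_lit 672989))
(L (nat_lit 21292517)))
(L (nat_lit 21836133)))
(L (nat_lit 19439523)))
(L (nat_lit 1561885)))
(L (nat_lit 1299247))))
(S (nat_lit 51264) (S (nat_lit 13198) (S (nat_lit 32682) (L (nat_lit 2340445))
(L (nat_lit 17025955)))
(L (nat_lit 12758899)))
(L (nat_lit 25466420)))))
(L (nat_lit 25922091)))))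
(S (nat_lit 45891) (S (nat_lit 18233) (S (nat_lit 972) (S (nat_lit 44521) (L (nat_lit 19711143))
(S (nat_lit 56574) (S (nat_lit 55359) (S (nat_lit 35369) (S (nat_lit 30217) (S (nat_lit 48060) (S (nat_lit 26369) (L (nat_lit 11006131))
(L (nat_lit 19172208)))
(L (nat_lit 20754723)))
(L (nat_lit 8274656)))
(L (nat_lit 19939114)))
(L (nat_lit 2510759)))
(L (nat_lit 19706146))))
(S (nat_lit 20736) (S (nat_lit 22986) (S (nat_lit 58981) (L (nat_lit 1502793))
(L (nat_lit 12757907)))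
(S (nat_lit 49630) (L (nat_lit 6484471))
(L (nat_lit 30835274))))
(S (nat_lit 40500) (S (nat_lit 25019) (L (nat_lit 7934767))
(S (nat_lit 54315) (L (nat_lit 11548315))
(L (nat_lit 15505559))))
(L (nat_lit 25242003)))))
(S (nat_lit 37997) (S (nat_lit 485) (S (nat_lit 10210) (L (nat_lit 23112219))
(L (nat_lit 23899682)))
(S (nat_lit 33934) (S (nat_lit 1966) (S (nat_lit 26089) (L (nat_lit 24318831))
(L (nat_lit 1700234)))
(L (nat_lit 12377572)))
(L (nat_lit 23183741))))
(S (nat_lit 57761) (S (nat_lit 21730) (L (nat_lit 14804274))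
(S (nat_lit 45318) (L (nat_lit 4404082))
(L (nat_lit 7455421))))
(L (nat_lit 25744612)))))
(L (nat_lit 25222513)))))
(S (nat_lit 23246) (S (nat_lit 5143) (S (nat_lit 19514) (S (nat_lit 3725) (S (nat_lit 9757) (L (nat_lit 2323052))
(L (nat_lit 21196229)))
(L (nat_lit 225997)))
(S (nat_lit 39278) (S (nat_lit 34901) (S (nat_lit 4386) (L (nat_lit 18027381))
(L (nat_lit 16568608)))
(L (nat_lit 4406066)))
(S (nat_lit 59042) (S (nat_lit 2192) (S (nat_lit 55083) (L (nat_lit 3371447))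
(L (nat_lit 19086210)))
(L (nat_lit 20120431)))
(L (nat_lit 25250278)))))
(S (nat_lit 24907) (S (nat_lit 9486) (S (nat_lit 2250) (S (nat_lit 21730) (S (nat_lit 23947) (L (nat_lit 31147015))
(L (nat_lit 1732071)))
(L (nat_lit 1677784)))
(S (nat_lit 22014) (S (nat_lit 42281) (S (nat_lit 22738) (S (nat_lit 46133) (S (nat_lit 32962) (S (nat_lit 9967) (S (nat_lit 11736) (S (nat_lit 56817) (S (nat_lit 10696) (S (nat_lit 15831) (S (nat_lit 54868) (S (nat_lit 13839) (L (nat_lit 600505))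
(S (nat_lit 39292) (L (nat_lit 10597977))
(L (nat_lit 19801101))))
(L (nat_lit 18967857)))
(L (nat_lit 3548949)))
(L (nat_lit 15426881)))
(L (nat_lit 8805283)))
(L (nat_lit 15921864)))
(L (nat_lit 23421476)))
(L (nat_lit 8545999)))
(L (nat_lit 22514443)))
(L (nat_lit 21424322)))
(L (nat_lit 27986346)))
(S (nat_lit 41778) (S (nat_lit 24150) (L (nat_lit 18888617))
(L (nat_lit 21182209)))
(L (nat_lit 25660998)))))
(S (nat_lit 29250) (S (nat_lit 15555) (S (nat_lit 36076) (L (nat_lit 18027317))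
(L (nat_lit 7039360)))
(S (nat_lit 35319) (S (nat_lit 22252) (L (nat_lit 16915285))
(L (nat_lit 18586533)))
(S (nat_lit 55083) (S (nat_lit 36076) (L (nat_lit 29562295))
(L (nat_lit 12801213)))
(L (nat_lit 25923886)))))
(S (nat_lit 49014) (S (nat_lit 757) (S (nat_lit 24150) (S (nat_lit 43253) (L (nat_lit 29562358))
(L (nat_lit 23290276)))
(L (nat_lit 21193121)))
(S (nat_lit 20521) (S (nat_lit 43253) (L (nat_lit 29573303))
(L (nat_lit 24327352)))
(S (nat_lit 40285) (S (nat_lit 7577) (S (nat_lit 43914) (L (nat_lit 29557267))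
(L (nat_lit 27473537)))
(L (nat_lit 21437347)))
(L (nat_lit 25834819)))))
(L (nat_lit 25517102)))))
(S (nat_lit 44671) (S (nat_lit 15067) (S (nat_lit 19453) (S (nat_lit 37081) (S (nat_lit 44185) (S (nat_lit 4386) (L (nat_lit 5456759))
(L (nat_lit 803123)))
(L (nat_lit 12609193)))
(L (nat_lit 30624940)))
(S (nat_lit 39217) (S (nat_lit 28834) (S (nat_lit 23489) (S (nat_lit 32705) (L (nat_lit 29826657))
(L (nat_lit 13833913)))
(L (nat_lit 21181593)))
(L (nat_lit 25015648)))
(S (nat_lit 58981) (S (nat_lit 37081) (S (nat_lit 5358) (L (nat_lit 21408861))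
(L (nat_lit 16548522)))
(L (nat_lit 13412467)))
(L (nat_lit 25287082)))))
(S (nat_lit 34831) (S (nat_lit 2192) (S (nat_lit 55840) (S (nat_lit 23732) (L (nat_lit 5455613))
(L (nat_lit 22242723)))
(L (nat_lit 19073433)))
(S (nat_lit 21956) (S (nat_lit 57275) (L (nat_lit 29573301))
(L (nat_lit 21184257)))
(S (nat_lit 41720) (L (nat_lit 5741495))
(L (nat_lit 25788970)))))
(S (nat_lit 54595) (S (nat_lit 3725) (S (nat_lit 10696) (S (nat_lit 55840) (L (nat_lit 13331626))
(L (nat_lit 19073433)))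
(L (nat_lit 16967402)))
(S (nat_lit 23489) (S (nat_lit 55619) (S (nat_lit 53698) (S (nat_lit 43683) (L (nat_lit 19071485))
(L (nat_lit 7199141)))
(L (nat_lit 18980313)))
(L (nat_lit 10275300)))
(S (nat_lit 43253) (S (nat_lit 37321) (L (nat_lit 24156605))
(L (nat_lit 10257997)))
(L (nat_lit 25924815)))))
(L (nat_lit 25539300)))))
(L (nat_lit 25867371)))))
(S (nat_lit 43010) (S (nat_lit 15067) (S (nat_lit 9556) (S (nat_lit 2753) (S (nat_lit 8194) (L (nat_lit 3424087))
(S (nat_lit 36123) (S (nat_lit 4657) (S (nat_lit 52446) (S (nat_lit 4155) (L (nat_lit 7453559))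
(L (nat_lit 20742571)))
(L (nat_lit 6343099)))
(L (nat_lit 6985147)))
(L (nat_lit 31079650))))
(L (nat_lit 26302891)))
(S (nat_lit 29320) (S (nat_lit 7359) (S (nat_lit 30513) (S (nat_lit 35151) (L (nat_lit 19295521))
(L (nat_lit 13249724)))
(L (nat_lit 1680794)))
(S (nat_lit 27123) (S (nat_lit 1986) (S (nat_lit 35805) (S (nat_lit 4183) (S (nat_lit 12918) (S (nat_lit 22517) (S (nat_lit 30460) (L (nat_lit 2497365))
(L (nat_lit 24295677)))
(L (nat_lit 9952096)))
(L (nat_lit 11581302)))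
(L (nat_lit 26909153)))
(L (nat_lit 6996897)))
(L (nat_lit 26448434)))
(S (nat_lit 46887) (S (nat_lit 1986) (S (nat_lit 17610) (L (nat_lit 4994326))
(L (nat_lit 10183823)))
(L (nat_lit 19760396)))
(L (nat_lit 25708832)))))
(S (nat_lit 49084) (S (nat_lit 56331) (S (nat_lit 56574) (L (nat_lit 5468599))
(L (nat_lit 15984354)))
(L (nat_lit 15984352)))
(L (nat_lit 25676939)))))
(S (nat_lit 34831) (S (nat_lit 4155) (S (nat_lit 15387) (S (nat_lit 23947) (L (nat_lit 5060329))
(L (nat_lit 30455495)))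
(S (nat_lit 35151) (S (nat_lit 44886) (L (nat_lit 28522212))
(L (nat_lit 7427517)))
(S (nat_lit 54915) (S (nat_lit 43496) (S (nat_lit 59042) (L (nat_lit 5052850))
(L (nat_lit 19735008)))
(L (nat_lit 27692776)))
(L (nat_lit 25832928)))))
(S (nat_lit 23919) (S (nat_lit 10982) (S (nat_lit 23947) (S (nat_lit 55887) (S (nat_lit 42750) (S (nat_lit 32682) (L (nat_lit 12502755))
(L (nat_lit 30651446)))
(L (nat_lit 23500957)))
(L (nat_lit 21268240)))
(L (nat_lit 4996839)))
(S (nat_lit 30746) (S (nat_lit 10210) (S (nat_lit 44886) (S (nat_lit 13198) (S (nat_lit 23947) (L (nat_lit 24352559))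
(L (nat_lit 21773319)))
(L (nat_lit 536283)))
(L (nat_lit 1700264)))
(L (nat_lit 1366587)))
(S (nat_lit 50510) (S (nat_lit 55619) (S (nat_lit 55887) (S (nat_lit 7577) (L (nat_lit 29825171))
(L (nat_lit 12798077)))
(L (nat_lit 1493768)))
(L (nat_lit 8180133)))
(L (nat_lit 25702084)))))
(S (nat_lit 43683) (S (nat_lit 2250) (S (nat_lit 50252) (S (nat_lit 35595) (S (nat_lit 15340) (S (nat_lit 56845) (S (nat_lit 6605) (S (nat_lit 22517) (S (nat_lit 37053) (S (nat_lit 30460) (S (nat_lit 49495) (S (nat_lit 5277) (L (nat_lit 15833818))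
(S (nat_lit 21956) (L (nat_lit 12878556))
(L (nat_lit 9454233))))
(L (nat_lit 2996434)))
(L (nat_lit 11221149)))
(L (nat_lit 4841995)))
(L (nat_lit 10184162)))
(L (nat_lit 867699)))
(L (nat_lit 520871)))
(L (nat_lit 417608)))
(L (nat_lit 1450746)))
(L (nat_lit 14554856)))
(S (nat_lit 22014) (S (nat_lit 4386) (S (nat_lit 2954) (L (nat_lit 13207836))
(L (nat_lit 1468695)))
(L (nat_lit 256689)))
(S (nat_lit 41778) (S (nat_lit 4386) (S (nat_lit 56574) (L (nat_lit 29874247))
(L (nat_lit 14357885)))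
(L (nat_lit 827827)))
(L (nat_lit 25496082)))))
(L (nat_lit 25476179)))))
(S (nat_lit 54595) (S (nat_lit 9486) (S (nat_lit 50252) (S (nat_lit 28834) (S (nat_lit 41514) (L (nat_lit 29559191))
(L (nat_lit 933075)))
(L (nat_lit 18920792)))
(L (nat_lit 833781)))
(S (nat_lit 29250) (S (nat_lit 7359) (S (nat_lit 25122) (S (nat_lit 1966) (S (nat_lit 43683) (L (nat_lit 29999393))
(L (nat_lit 891379)))
(L (nat_lit 13410945)))
(L (nat_lit 7225362)))
(S (nat_lit 45036) (L (nat_lit 218649))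
(L (nat_lit 1687464))))
(S (nat_lit 49014) (S (nat_lit 8582) (S (nat_lit 43253) (S (nat_lit 11954) (L (nat_lit 26238376))
(L (nat_lit 21525575)))
(L (nat_lit 27539173)))
(S (nat_lit 28346) (S (nat_lit 4657) (S (nat_lit 43683) (L (nat_lit 6776545))
(L (nat_lit 631227)))
(L (nat_lit 19940200)))
(S (nat_lit 48110) (S (nat_lit 3401) (L (nat_lit 7467692))
(S (nat_lit 15605) (S (nat_lit 56845) (S (nat_lit 32705) (L (nat_lit 4410220))
(L (nat_lit 1754984)))
(L (nat_lit 21181345)))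
(L (nat_lit 8064509))))
(L (nat_lit 25698453)))))
(L (nat_lit 25216648)))))
(L (nat_lit 25275795)))))
(L (nat_lit 25245385)))))
(L (nat_lit 25543797)))))
(S (nat_lit 43739) (S (nat_lit 16560) (S (nat_lit 15555) (S (nat_lit 57275) (S (nat_lit 2954) (S (nat_lit 41720) (S (nat_lit 19514) (S (nat_lit 9757) (S (nat_lit 55619) (L (nat_lit 5469650))
(L (nat_lit 21174029)))
(L (nat_lit 26424005)))
(L (nat_lit 26423412)))
(L (nat_lit 24331045)))
(S (nat_lit 22718) (S (nat_lit 41720) (S (nat_lit 11954) (S (nat_lit 5143) (S (nat_lit 49285) (L (nat_lit 20149393))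
(L (nat_lit 27472517)))
(L (nat_lit 224909)))
(L (nat_lit 18052803)))
(L (nat_lit 4408118)))
(S (nat_lit 42482) (S (nat_lit 41720) (S (nat_lit 29521) (S (nat_lit 59042) (S (nat_lit 43253) (S (nat_lit 43496) (S (nat_lit 48110) (S (nat_lit 40285) (S (nat_lit 31718) (S (nat_lit 32705) (S (nat_lit 55840) (S (nat_lit 15831) (L (nat_lit 4569756))
(L (nat_lit 24682616)))
(L (nat_lit 13856357)))
(L (nat_lit 1263411)))
(L (nat_lit 218683)))
(L (nat_lit 4421199)))
(L (nat_lit 18047123)))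
(L (nat_lit 27690263)))
(L (nat_lit 24340901)))
(L (nat_lit 14903476)))
(L (nat_lit 24326981)))
(L (nat_lit 24344100)))
(L (nat_lit 25838601)))))
(L (nat_lit 21184257)))
(S (nat_lit 35319) (S (nat_lit 13874) (S (nat_lit 2753) (S (nat_lit 16041) (S (nat_lit 19048) (L (nat_lit 15439226))
(S (nat_lit 52726) (S (nat_lit 33152) (S (nat_lit 18529) (S (nat_lit 49084) (S (nat_lit 4657) (L (nat_lit 18080949))
(L (nat_lit 19150661)))
(L (nat_lit 5499569)))
(L (nat_lit 24174832)))
(L (nat_lit 771353)))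
(L (nat_lit 11288662))))
(S (nat_lit 35805) (S (nat_lit 57275) (S (nat_lit 3725) (S (nat_lit 21956) (S (nat_lit 57761) (S (nat_lit 20521) (S (nat_lit 26089) (L (nat_lit 6141546))
(L (nat_lit 11420693)))
(L (nat_lit 6784605)))
(L (nat_lit 10191628)))
(L (nat_lit 12832517)))
(L (nat_lit 12292604)))
(L (nat_lit 12803843)))
(S (nat_lit 55569) (S (nat_lit 4657) (S (nat_lit 36123) (S (nat_lit 52726) (S (nat_lit 19514) (S (nat_lit 21956) (L (nat_lit 7391677))
(L (nat_lit 2734858)))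
(L (nat_lit 17856168)))
(L (nat_lit 6111944)))
(L (nat_lit 18717815)))
(L (nat_lit 19940168)))
(L (nat_lit 25635520)))))
(S (nat_lit 22517) (S (nat_lit 2282) (L (nat_lit 14722933))
(S (nat_lit 21956) (S (nat_lit 55133) (S (nat_lit 22232) (S (nat_lit 8582) (S (nat_lit 2250) (S (nat_lit 44185) (S (nat_lit 28834) (S (nat_lit 52469) (L (nat_lit 12671257))
(L (nat_lit 6321621)))
(L (nat_lit 24163704)))
(L (nat_lit 1889549)))
(L (nat_lit 1495288)))
(L (nat_lit 12603208)))
(L (nat_lit 20980557)))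
(L (nat_lit 20982605)))
(L (nat_lit 12806821))))
(S (nat_lit 42281) (S (nat_lit 11954) (S (nat_lit 21956) (S (nat_lit 54665) (S (nat_lit 52469) (L (nat_lit 16796491))
(L (nat_lit 12594963)))
(L (nat_lit 8411921)))
(L (nat_lit 12806821)))
(S (nat_lit 31718) (S (nat_lit 29328) (L (nat_lit 13641464))
(S (nat_lit 43010) (S (nat_lit 25586) (L (nat_lit 9177838))
(S (nat_lit 50277) (S (nat_lit 59042) (S (nat_lit 56845) (L (nat_lit 29560495))
(L (nat_lit 618954)))
(L (nat_lit 217964)))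
(L (nat_lit 227054))))
(L (nat_lit 14483766))))
(S (nat_lit 51482) (S (nat_lit 20736) (S (nat_lit 271) (L (nat_lit 7358072))
(L (nat_lit 14294170)))
(L (nat_lit 445722)))
(L (nat_lit 25187881)))))
(L (nat_lit 25526774)))))
(S (nat_lit 33638) (S (nat_lit 15831) (S (nat_lit 2954) (S (nat_lit 43496) (S (nat_lit 43253) (S (nat_lit 17289) (S (nat_lit 10749) (L (nat_lit 2319056))
(L (nat_lit 26425923)))
(L (nat_lit 22922597)))
(L (nat_lit 24406159)))
(L (nat_lit 1272246)))
(S (nat_lit 22718) (S (nat_lit 21956) (S (nat_lit 57275) (S (nat_lit 48528) (S (nat_lit 39278) (S (nat_lit 17317) (L (nat_lit 28363086))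
(L (nat_lit 5452566)))
(L (nat_lit 13848697)))
(L (nat_lit 22235044)))
(L (nat_lit 21186305)))
(L (nat_lit 12806821)))
(S (nat_lit 42482) (S (nat_lit 59042) (S (nat_lit 50277) (S (nat_lit 56845) (S (nat_lit 3725) (L (nat_lit 7060666))
(L (nat_lit 210870)))
(L (nat_lit 209846)))
(L (nat_lit 226710)))
(L (nat_lit 217964)))
(L (nat_lit 25374774)))))
(S (nat_lit 35595) (S (nat_lit 5243) (S (nat_lit 21956) (L (nat_lit 9488025))
(L (nat_lit 12839589)))
(S (nat_lit 56817) (S (nat_lit 21956) (S (nat_lit 50778) (S (nat_lit 48528) (S (nat_lit 4183) (S (nat_lit 57275) (S (nat_lit 20521) (S (nat_lit 16359) (S (nat_lit 12918) (L (nat_lit 9482908))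
(L (nat_lit 23597899)))
(L (nat_lit 26260791)))
(L (nat_lit 22245794)))
(L (nat_lit 19372152)))
(L (nat_lit 18921383)))
(L (nat_lit 1264560)))
(L (nat_lit 13207463)))
(S (nat_lit 50202) (L (nat_lit 16795995))
(L (nat_lit 12798885))))
(L (nat_lit 7227045))))
(S (nat_lit 55359) (S (nat_lit 11736) (S (nat_lit 2270) (L (nat_lit 23889134))
(S (nat_lit 21956) (S (nat_lit 57275) (S (nat_lit 48528) (S (nat_lit 7359) (S (nat_lit 22252) (S (nat_lit 30488) (S (nat_lit 45853) (L (nat_lit 11373263))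
(L (nat_lit 14874346)))
(L (nat_lit 18924296)))
(L (nat_lit 9278092)))
(L (nat_lit 23599288)))
(L (nat_lit 22255536)))
(L (nat_lit 19765356)))
(L (nat_lit 12781334))))
(S (nat_lit 31500) (S (nat_lit 22738) (S (nat_lit 58057) (S (nat_lit 37053) (S (nat_lit 49274) (S (nat_lit 34901) (S (nat_lit 39217) (S (nat_lit 30488) (L (nat_lit 28621380))
(L (nat_lit 12735238)))
(L (nat_lit 30976708)))
(L (nat_lit 30934292)))
(L (nat_lit 16451335)))
(L (nat_lit 30642928)))
(L (nat_lit 15553829)))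
(L (nat_lit 7041571)))
(S (nat_lit 51264) (S (nat_lit 10982) (S (nat_lit 56845) (S (nat_lit 37053) (S (nat_lit 43253) (L (nat_lit 23335389))
(L (nat_lit 23925222)))
(L (nat_lit 30821481)))
(L (nat_lit 21173169)))
(L (nat_lit 18682067)))
(L (nat_lit 25863185)))))
(L (nat_lit 25445559)))))
(S (nat_lit 53402) (S (nat_lit 6873) (S (nat_lit 4183) (S (nat_lit 4851) (L (nat_lit 7390808))
(S (nat_lit 28834) (S (nat_lit 59042) (L (nat_lit 9494317))
(L (nat_lit 18881016)))
(L (nat_lit 12626552))))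
(S (nat_lit 23947) (S (nat_lit 38293) (S (nat_lit 29974) (S (nat_lit 57761) (S (nat_lit 57275) (L (nat_lit 23654628))
(L (nat_lit 1939860)))
(L (nat_lit 18883032)))
(L (nat_lit 13240231)))
(L (nat_lit 23488805)))
(S (nat_lit 43711) (S (nat_lit 43496) (S (nat_lit 22928) (S (nat_lit 38293) (L (nat_lit 1752280))
(L (nat_lit 23325125)))
(L (nat_lit 6449839)))
(L (nat_lit 24177064)))
(L (nat_lit 25303756)))))
(S (nat_lit 26637) (S (nat_lit 17557) (S (nat_lit 21956) (S (nat_lit 48528) (S (nat_lit 42281) (S (nat_lit 43010) (S (nat_lit 56792) (S (nat_lit 2468) (S (nat_lit 39799) (S (nat_lit 30746) (S (nat_lit 28296) (L (nat_lit 4469400))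
(L (nat_lit 7854202)))
(L (nat_lit 10406956)))
(L (nat_lit 18518953)))
(L (nat_lit 6947597)))
(L (nat_lit 7008367)))
(L (nat_lit 23298829)))
(L (nat_lit 24445709)))
(L (nat_lit 20132772)))
(L (nat_lit 9981861)))
(S (nat_lit 37321) (S (nat_lit 50252) (S (nat_lit 56792) (S (nat_lit 23732) (L (nat_lit 21862816))
(L (nat_lit 22059821)))
(L (nat_lit 19334456)))
(L (nat_lit 9147960)))
(S (nat_lit 57085) (S (nat_lit 21956) (S (nat_lit 57275) (S (nat_lit 271) (S (nat_lit 21134) (S (nat_lit 50252) (S (nat_lit 4657) (S (nat_lit 56792) (L (nat_lit 21014941))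
(L (nat_lit 19334456)))
(L (nat_lit 26870029)))
(L (nat_lit 8436472)))
(L (nat_lit 24648889)))
(L (nat_lit 13472329)))
(L (nat_lit 19765356)))
(L (nat_lit 8867589)))
(L (nat_lit 25337485)))))
(S (nat_lit 46401) (S (nat_lit 22718) (S (nat_lit 50252) (S (nat_lit 41514) (S (nat_lit 21956) (S (nat_lit 49285) (S (nat_lit 19453) (L (nat_lit 28877844))
(L (nat_lit 18213473)))
(L (nat_lit 27269655)))
(L (nat_lit 17866519)))
(L (nat_lit 23112460)))
(L (nat_lit 13685544)))
(L (nat_lit 18614889)))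
(L (nat_lit 25213542)))))
(L (nat_lit 25512049)))))
(S (nat_lit 55083) (S (nat_lit 57275) (S (nat_lit 2192) (S (nat_lit 48528) (S (nat_lit 972) (S (nat_lit 30217) (S (nat_lit 16803) (S (nat_lit 9746) (S (nat_lit 21750) (L (nat_lit 29436370))
(L (nat_lit 1747516)))
(L (nat_lit 4930813)))
(L (nat_lit 24193808)))
(L (nat_lit 24199946)))
(S (nat_lit 20736) (S (nat_lit 58981) (S (nat_lit 10453) (S (nat_lit 45853) (S (nat_lit 51264) (S (nat_lit 29510) (L (nat_lit 24199421))
(L (nat_lit 18179125)))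
(L (nat_lit 27434639)))
(L (nat_lit 311033)))
(L (nat_lit 23151434)))
(L (nat_lit 21473433)))
(S (nat_lit 40500) (S (nat_lit 49981) (S (nat_lit 31500) (S (nat_lit 26089) (S (nat_lit 42692) (S (nat_lit 29320) (S (nat_lit 39217) (S (nat_lit 18529) (S (nat_lit 13874) (S (nat_lit 50224) (L (nat_lit 6806653))
(L (nat_lit 27572961)))
(L (nat_lit 13964925)))
(L (nat_lit 17869718)))
(L (nat_lit 13956246)))
(L (nat_lit 19768460)))
(L (nat_lit 7965487)))
(L (nat_lit 17426628)))
(L (nat_lit 25016640)))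
(L (nat_lit 20018730)))
(L (nat_lit 25801866)))))
(L (nat_lit 20131997)))
(L (nat_lit 20121149)))
(L (nat_lit 19086456)))
(L (nat_lit 25311509)))))
(S (nat_lit 36324) (S (nat_lit 6363) (S (nat_lit 2974) (S (nat_lit 16803) (S (nat_lit 2753) (S (nat_lit 4018) (L (nat_lit 16590999))
(S (nat_lit 30217) (S (nat_lit 55619) (S (nat_lit 11736) (L (nat_lit 18552857))
(L (nat_lit 701192)))
(L (nat_lit 19085060)))
(L (nat_lit 875047))))
(S (nat_lit 22517) (S (nat_lit 3222) (S (nat_lit 44185) (S (nat_lit 21730) (S (nat_lit 3482) (S (nat_lit 55133) (L (nat_lit 29408567))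
(L (nat_lit 20996522)))
(L (nat_lit 10912662)))
(L (nat_lit 21398279)))
(L (nat_lit 11961140)))
(L (nat_lit 8815193)))
(S (nat_lit 42281) (S (nat_lit 870) (L (nat_lit 31162636))
(S (nat_lit 17289) (S (nat_lit 43253) (S (nat_lit 39217) (S (nat_lit 49495) (S (nat_lit 22014) (S (nat_lit 36076) (S (nat_lit 24907) (L (nat_lit 5690585))
(L (nat_lit 6414773)))
(L (nat_lit 23292288)))
(L (nat_lit 21422272)))
(L (nat_lit 27613732)))
(L (nat_lit 23433997)))
(L (nat_lit 24613146)))
(L (nat_lit 14929080))))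
(L (nat_lit 25931170)))))
(S (nat_lit 36567) (S (nat_lit 28549) (S (nat_lit 59042) (S (nat_lit 45853) (L (nat_lit 23965702))
(L (nat_lit 8976100)))
(L (nat_lit 9194016)))
(L (nat_lit 9193489)))
(S (nat_lit 56331) (S (nat_lit 49981) (S (nat_lit 46401) (L (nat_lit 6775954))
(L (nat_lit 1424061)))
(L (nat_lit 9124640)))
(L (nat_lit 25726263)))))
(S (nat_lit 22738) (S (nat_lit 10696) (S (nat_lit 19514) (S (nat_lit 35805) (S (nat_lit 3222) (S (nat_lit 6649) (L (nat_lit 11982936))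
(L (nat_lit 9110074)))
(L (nat_lit 15407874)))
(L (nat_lit 23411456)))
(S (nat_lit 39278) (S (nat_lit 271) (S (nat_lit 43010) (S (nat_lit 37081) (L (nat_lit 7018044))
(L (nat_lit 20754788)))
(L (nat_lit 9460216)))
(L (nat_lit 2759438)))
(S (nat_lit 59042) (S (nat_lit 3222) (S (nat_lit 8785) (S (nat_lit 22252) (L (nat_lit 30088738))
(L (nat_lit 21019561)))
(L (nat_lit 6370066)))
(L (nat_lit 2824664)))
(L (nat_lit 25172530)))))
(S (nat_lit 30460) (S (nat_lit 18233) (S (nat_lit 36076) (S (nat_lit 54665) (S (nat_lit 29731) (S (nat_lit 43914) (L (nat_lit 17917143))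
(L (nat_lit 23110545)))
(L (nat_lit 6404887)))
(L (nat_lit 9072721)))
(S (nat_lit 37942) (L (nat_lit 1268155))
(L (nat_lit 18573478))))
(S (nat_lit 37997) (S (nat_lit 35805) (S (nat_lit 38293) (L (nat_lit 23988715))
(L (nat_lit 23535677)))
(L (nat_lit 23536545)))
(S (nat_lit 57761) (S (nat_lit 55133) (S (nat_lit 23947) (L (nat_lit 3355415))
(L (nat_lit 13238488)))
(L (nat_lit 18886413)))
(L (nat_lit 25428434)))))
(S (nat_lit 50224) (S (nat_lit 18233) (S (nat_lit 37620) (L (nat_lit 23519334))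
(S (nat_lit 55840) (S (nat_lit 972) (S (nat_lit 50778) (L (nat_lit 2306684))
(L (nat_lit 13381316)))
(L (nat_lit 14458962)))
(L (nat_lit 1778577))))
(S (nat_lit 37997) (S (nat_lit 17317) (S (nat_lit 10749) (L (nat_lit 20068730))
(L (nat_lit 11557272)))
(L (nat_lit 11557644)))
(S (nat_lit 57761) (S (nat_lit 9000) (S (nat_lit 9967) (S (nat_lit 29974) (L (nat_lit 1778141))
(L (nat_lit 8010498)))
(L (nat_lit 26681394)))
(S (nat_lit 17703) (L (nat_lit 4865798))
(L (nat_lit 4927704))))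
(L (nat_lit 25187721)))))
(L (nat_lit 25824497)))))
(S (nat_lit 42502) (S (nat_lit 4183) (S (nat_lit 10453) (S (nat_lit 21730) (L (nat_lit 10541626))
(L (nat_lit 16603460)))
(S (nat_lit 50125) (L (nat_lit 23858449))
(L (nat_lit 10228119))))
(S (nat_lit 23947) (S (nat_lit 14170) (S (nat_lit 6873) (S (nat_lit 3222) (S (nat_lit 29974) (L (nat_lit 23299544))
(L (nat_lit 24412728)))
(L (nat_lit 20169816)))
(L (nat_lit 2682471)))
(S (nat_lit 52735) (L (nat_lit 4439673))
(L (nat_lit 4454095))))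
(S (nat_lit 43711) (S (nat_lit 35489) (L (nat_lit 18059156))
(S (nat_lit 52446) (S (nat_lit 29320) (S (nat_lit 9000) (L (nat_lit 23298461))
(L (nat_lit 7090884)))
(L (nat_lit 24374449)))
(L (nat_lit 7213807))))
(L (nat_lit 25319628)))))
(L (nat_lit 25676902)))))
(S (nat_lit 26127) (S (nat_lit 7359) (S (nat_lit 13388) (S (nat_lit 4386) (L (nat_lit 29573143))
(L (nat_lit 1272339)))
(S (nat_lit 33152) (S (nat_lit 53698) (S (nat_lit 57275) (L (nat_lit 2306682))
(L (nat_lit 1273236)))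
(L (nat_lit 1728998)))
(S (nat_lit 52916) (S (nat_lit 9000) (L (nat_lit 4418035))
(L (nat_lit 4409880)))
(L (nat_lit 25603250)))))
(S (nat_lit 27123) (S (nat_lit 3968) (S (nat_lit 43683) (S (nat_lit 4183) (L (nat_lit 15768284))
(L (nat_lit 26778305)))
(L (nat_lit 27794147)))
(S (nat_lit 23732) (S (nat_lit 57085) (S (nat_lit 5143) (L (nat_lit 24254936))
(L (nat_lit 19765325)))
(L (nat_lit 13375667)))
(S (nat_lit 43496) (S (nat_lit 43711) (L (nat_lit 23861297))
(L (nat_lit 24681281)))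
(L (nat_lit 25212183)))))
(S (nat_lit 46887) (S (nat_lit 1986) (S (nat_lit 16091) (S (nat_lit 48060) (S (nat_lit 29320) (L (nat_lit 26875180))
(L (nat_lit 30653586)))
(S (nat_lit 58609) (L (nat_lit 24022475))
(L (nat_lit 2446253))))
(S (nat_lit 35855) (S (nat_lit 43711) (S (nat_lit 52469) (L (nat_lit 6951757))
(L (nat_lit 22824008)))
(L (nat_lit 27920652)))
(S (nat_lit 55619) (S (nat_lit 43711) (S (nat_lit 29320) (L (nat_lit 4930777))
(L (nat_lit 18059960)))
(L (nat_lit 252748)))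
(L (nat_lit 25252079)))))
(S (nat_lit 21750) (S (nat_lit 10210) (S (nat_lit 28296) (S (nat_lit 9556) (L (nat_lit 24372399))
(L (nat_lit 23311546)))
(L (nat_lit 15980730)))
(S (nat_lit 10777) (L (nat_lit 18623573))
(L (nat_lit 1716044))))
(S (nat_lit 41514) (S (nat_lit 18529) (S (nat_lit 22718) (L (nat_lit 29569203))
(L (nat_lit 13389865)))
(S (nat_lit 38293) (S (nat_lit 48528) (S (nat_lit 50252) (L (nat_lit 29827155))
(L (nat_lit 6705304)))
(L (nat_lit 1716477)))
(S (nat_lit 58057) (S (nat_lit 13388) (L (nat_lit 24318736))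
(L (nat_lit 13390113)))
(L (nat_lit 25567283)))))
(L (nat_lit 25632453)))))
(L (nat_lit 25476244)))))
(S (nat_lit 45891) (S (nat_lit 4386) (S (nat_lit 13388) (L (nat_lit 29573143))
(L (nat_lit 24330428)))
(S (nat_lit 24150) (S (nat_lit 48528) (S (nat_lit 33152) (L (nat_lit 23266096))
(L (nat_lit 215985)))
(L (nat_lit 20132772)))
(S (nat_lit 43914) (S (nat_lit 13388) (L (nat_lit 29576675))
(L (nat_lit 24343729)))
(L (nat_lit 25772102)))))
(L (nat_lit 25598531)))))
(S (nat_lit 56088) (S (nat_lit 17264) (S (nat_lit 16312) (S (nat_lit 9000) (L (nat_lit 18023347))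
(S (nat_lit 28764) (S (nat_lit 43253) (S (nat_lit 30488) (S (nat_lit 23732) (S (nat_lit 58057) (L (nat_lit 24157100))
(L (nat_lit 19676262)))
(L (nat_lit 5757800)))
(L (nat_lit 17881864)))
(L (nat_lit 27449768)))
(S (nat_lit 48528) (S (nat_lit 4155) (S (nat_lit 35805) (S (nat_lit 7577) (L (nat_lit 24125357))
(L (nat_lit 8853117)))
(L (nat_lit 2580392)))
(S (nat_lit 23919) (S (nat_lit 34901) (S (nat_lit 16041) (L (nat_lit 24177096))
(L (nat_lit 24601793)))
(L (nat_lit 14703464)))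
(S (nat_lit 43683) (S (nat_lit 17672) (L (nat_lit 16976818))
(S (nat_lit 37354) (L (nat_lit 27711748))
(L (nat_lit 14899293))))
(L (nat_lit 25542339)))))
(L (nat_lit 25699010)))))
(S (nat_lit 36076) (S (nat_lit 8785) (S (nat_lit 271) (S (nat_lit 9486) (S (nat_lit 30217) (L (nat_lit 2584946))
(L (nat_lit 318220)))
(L (nat_lit 21251840)))
(S (nat_lit 20035) (S (nat_lit 52469) (S (nat_lit 37321) (L (nat_lit 3644157))
(L (nat_lit 20408488)))
(L (nat_lit 804456)))
(S (nat_lit 39799) (S (nat_lit 30460) (S (nat_lit 3968) (L (nat_lit 28385998))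
(L (nat_lit 26269965)))
(L (nat_lit 7828036)))
(L (nat_lit 25628885)))))
(S (nat_lit 28549) (S (nat_lit 9638) (S (nat_lit 29613) (L (nat_lit 10225079))
(L (nat_lit 10014628)))
(S (nat_lit 29320) (S (nat_lit 29974) (S (nat_lit 57761) (S (nat_lit 54915) (S (nat_lit 28834) (L (nat_lit 28744855))
(L (nat_lit 19000689)))
(L (nat_lit 12194574)))
(L (nat_lit 15009368)))
(L (nat_lit 8061713)))
(L (nat_lit 19184829))))
(S (nat_lit 48313) (S (nat_lit 9070) (S (nat_lit 45891) (L (nat_lit 3358647))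
(L (nat_lit 2922995)))
(L (nat_lit 21409696)))
(L (nat_lit 25928721)))))
(S (nat_lit 55840) (S (nat_lit 4657) (S (nat_lit 20154) (L (nat_lit 17429672))
(S (nat_lit 32705) (S (nat_lit 15137) (S (nat_lit 11736) (L (nat_lit 16455464))
(L (nat_lit 21374720)))
(S (nat_lit 41653) (L (nat_lit 3061384))
(L (nat_lit 26426946))))
(L (nat_lit 1888524))))
(S (nat_lit 24421) (S (nat_lit 9936) (S (nat_lit 32705) (L (nat_lit 19055898))
(L (nat_lit 1465128)))
(S (nat_lit 43496) (S (nat_lit 58057) (S (nat_lit 43253) (L (nat_lit 13823720))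
(L (nat_lit 27449768)))
(L (nat_lit 21773350)))
(L (nat_lit 13753096))))
(S (nat_lit 44185) (S (nat_lit 757) (S (nat_lit 42482) (S (nat_lit 48060) (L (nat_lit 20148640))
(L (nat_lit 20754603)))
(L (nat_lit 13853750)))
(S (nat_lit 20521) (S (nat_lit 47105) (S (nat_lit 32705) (L (nat_lit 3895567))
(L (nat_lit 1272211)))
(L (nat_lit 1274481)))
(S (nat_lit 40285) (S (nat_lit 28346) (S (nat_lit 56574) (L (nat_lit 28804838))
(L (nat_lit 9227716)))
(L (nat_lit 15945634)))
(L (nat_lit 25538612)))))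
(L (nat_lit 25870344)))))
(L (nat_lit 25541216)))))
(S (nat_lit 37028) (S (nat_lit 17557) (S (nat_lit 19453) (S (nat_lit 28296) (S (nat_lit 2974) (L (nat_lit 321136))
(L (nat_lit 1794598)))
(S (nat_lit 28440) (L (nat_lit 1530172))
(L (nat_lit 7385754))))
(S (nat_lit 39217) (S (nat_lit 9000) (L (nat_lit 18023347))
(L (nat_lit 7891094)))
(S (nat_lit 58981) (S (nat_lit 972) (S (nat_lit 29510) (L (nat_lit 6375868))
(L (nat_lit 19793321)))
(L (nat_lit 19292418)))
(L (nat_lit 25465453)))))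
(S (nat_lit 37321) (S (nat_lit 13874) (S (nat_lit 40500) (S (nat_lit 41514) (L (nat_lit 23463163))
(L (nat_lit 16838930)))
(L (nat_lit 7735933)))
(S (nat_lit 33638) (S (nat_lit 48060) (S (nat_lit 18529) (S (nat_lit 29510) (L (nat_lit 24308166))
(L (nat_lit 19215483)))
(L (nat_lit 2512806)))
(L (nat_lit 6352310)))
(S (nat_lit 53402) (S (nat_lit 29510) (S (nat_lit 2192) (L (nat_lit 1273583))
(L (nat_lit 19667493)))
(L (nat_lit 7028513)))
(L (nat_lit 25514468)))))
(S (nat_lit 57085) (S (nat_lit 13874) (S (nat_lit 16041) (S (nat_lit 22232) (L (nat_lit 13458506))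
(L (nat_lit 9187479)))
(S (nat_lit 35805) (S (nat_lit 51264) (S (nat_lit 35151) (L (nat_lit 28739306))
(L (nat_lit 12936769)))
(L (nat_lit 12817332)))
(S (nat_lit 55569) (S (nat_lit 42750) (S (nat_lit 51264) (S (nat_lit 55887) (L (nat_lit 15920872))
(L (nat_lit 19727786)))
(L (nat_lit 27439816)))
(L (nat_lit 28029064)))
(L (nat_lit 25646186)))))
(S (nat_lit 33638) (S (nat_lit 2192) (L (nat_lit 2311094))
(L (nat_lit 19667493)))
(S (nat_lit 53402) (S (nat_lit 22738) (S (nat_lit 30217) (L (nat_lit 5462959))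
(L (nat_lit 12671914)))
(L (nat_lit 13469318)))
(L (nat_lit 25208306)))))
(L (nat_lit 25303629)))))
(S (nat_lit 56792) (S (nat_lit 10749) (S (nat_lit 10453) (S (nat_lit 2192) (S (nat_lit 51482) (S (nat_lit 52469) (L (nat_lit 15748410))
(L (nat_lit 804520)))
(L (nat_lit 1270259)))
(S (nat_lit 21956) (S (nat_lit 3968) (L (nat_lit 15947832))
(L (nat_lit 17003233)))
(S (nat_lit 41720) (S (nat_lit 9757) (S (nat_lit 20521) (L (nat_lit 19071919))
(L (nat_lit 21169565)))
(L (nat_lit 23292357)))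
(L (nat_lit 25756042)))))
(S (nat_lit 30217) (S (nat_lit 972) (S (nat_lit 57275) (S (nat_lit 56331) (S (nat_lit 20521) (L (nat_lit 3884312))
(L (nat_lit 21463389)))
(L (nat_lit 15981472)))
(L (nat_lit 13273464)))
(S (nat_lit 13294) (L (nat_lit 14882491))
(L (nat_lit 19696040))))
(S (nat_lit 49981) (S (nat_lit 17046) (S (nat_lit 22738) (S (nat_lit 28834) (L (nat_lit 13750089))
(L (nat_lit 24610168)))
(L (nat_lit 13332555)))
(S (nat_lit 36810) (S (nat_lit 42281) (S (nat_lit 54868) (S (nat_lit 17289) (S (nat_lit 32962) (S (nat_lit 15831) (S (nat_lit 9556) (L (nat_lit 26368272))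
(L (nat_lit 23313595)))
(L (nat_lit 26939910)))
(L (nat_lit 23599017)))
(L (nat_lit 3395342)))
(L (nat_lit 5980441)))
(L (nat_lit 16083680)))
(S (nat_lit 56574) (S (nat_lit 34812) (L (nat_lit 14489320))
(S (nat_lit 52446) (S (nat_lit 56331) (L (nat_lit 13831991))
(L (nat_lit 27603681)))
(L (nat_lit 27792105))))
(L (nat_lit 25801060)))))
(L (nat_lit 25694450)))))
(S (nat_lit 30513) (S (nat_lit 16359) (S (nat_lit 5358) (S (nat_lit 8532) (S (nat_lit 15605) (L (nat_lit 3601128))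
(L (nat_lit 7754657)))
(L (nat_lit 13674136)))
(S (nat_lit 25122) (S (nat_lit 3725) (S (nat_lit 42750) (L (nat_lit 13201604))
(L (nat_lit 27775112)))
(L (nat_lit 1268653)))
(S (nat_lit 44886) (S (nat_lit 8582) (S (nat_lit 50252) (S (nat_lit 41514) (L (nat_lit 7501362))
(L (nat_lit 2454066)))
(L (nat_lit 9230381)))
(L (nat_lit 14282792)))
(L (nat_lit 25668787)))))
(S (nat_lit 36123) (S (nat_lit 18529) (S (nat_lit 52446) (S (nat_lit 52469) (L (nat_lit 6752920))
(L (nat_lit 2901606)))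
(L (nat_lit 7210420)))
(S (nat_lit 38293) (S (nat_lit 40490) (L (nat_lit 1602283))
(S (nat_lit 50252) (S (nat_lit 52446) (S (nat_lit 41514) (L (nat_lit 5468911))
(L (nat_lit 6340371)))
(L (nat_lit 20743691)))
(L (nat_lit 577784))))
(S (nat_lit 58057) (S (nat_lit 35855) (S (nat_lit 43683) (S (nat_lit 55840) (L (nat_lit 28937580))
(L (nat_lit 27464246)))
(L (nat_lit 383760)))
(S (nat_lit 37223) (L (nat_lit 928428))
(L (nat_lit 7091380))))
(L (nat_lit 25280139)))))
(S (nat_lit 55887) (S (nat_lit 19453) (S (nat_lit 43253) (S (nat_lit 55359) (L (nat_lit 28825827))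
(L (nat_lit 15784155)))
(L (nat_lit 27711624)))
(S (nat_lit 39217) (S (nat_lit 43496) (S (nat_lit 23947) (S (nat_lit 43253) (L (nat_lit 4861370))
(L (nat_lit 15915224)))
(L (nat_lit 1304052)))
(L (nat_lit 8509880)))
(S (nat_lit 58981) (S (nat_lit 49495) (L (nat_lit 16112484))
(L (nat_lit 27613324)))
(L (nat_lit 25465270)))))
(L (nat_lit 25595464)))))
(S (nat_lit 50277) (S (nat_lit 9967) (S (nat_lit 17289) (S (nat_lit 55887) (S (nat_lit 9757) (L (nat_lit 26416880))
(L (nat_lit 2514699)))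
(L (nat_lit 13674261)))
(S (nat_lit 37053) (S (nat_lit 49084) (S (nat_lit 22738) (S (nat_lit 41514) (L (nat_lit 9013006))
(L (nat_lit 27605733)))
(L (nat_lit 18547069)))
(L (nat_lit 27497137)))
(S (nat_lit 56817) (S (nat_lit 59042) (S (nat_lit 43683) (S (nat_lit 56574) (L (nat_lit 15757990))
(L (nat_lit 27831010)))
(L (nat_lit 27560686)))
(L (nat_lit 6312876)))
(L (nat_lit 25793035)))))
(S (nat_lit 29731) (S (nat_lit 9475) (L (nat_lit 15929976))
(S (nat_lit 22252) (S (nat_lit 55359) (S (nat_lit 9070) (S (nat_lit 7577) (L (nat_lit 21169562))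
(L (nat_lit 21435709)))
(L (nat_lit 7210482)))
(L (nat_lit 14455462)))
(L (nat_lit 511913))))
(S (nat_lit 49495) (S (nat_lit 19514) (S (nat_lit 56817) (S (nat_lit 42658) (L (nat_lit 8804409))
(S (nat_lit 52469) (L (nat_lit 16996408))
(L (nat_lit 403221))))
(L (nat_lit 2934507)))
(S (nat_lit 39278) (S (nat_lit 2373) (L (nat_lit 13833978))
(S (nat_lit 35319) (L (nat_lit 12785402))
(L (nat_lit 23270318))))
(S (nat_lit 59042) (S (nat_lit 9556) (S (nat_lit 29521) (S (nat_lit 2250) (S (nat_lit 2954) (S (nat_lit 22928) (S (nat_lit 20112) (L (nat_lit 2586184))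
(L (nat_lit 28531757)))
(L (nat_lit 18762919)))
(L (nat_lit 1266205)))
(L (nat_lit 19237336)))
(S (nat_lit 30061) (L (nat_lit 14492759))
(L (nat_lit 6309778))))
(S (nat_lit 10204) (S (nat_lit 29974) (L (nat_lit 1798478))
(L (nat_lit 2579207)))
(L (nat_lit 434071))))
(L (nat_lit 25835686)))))
(L (nat_lit 25829761)))))
(L (nat_lit 25798021)))))
(L (nat_lit 25528045)))))
(L (nat_lit 25216680)))))
(L (nat_lit 25928096)))))

theorem rb262_4 : run 4 lb262 [] tb262_4 kb262 (P4 4 3082 0 2942 0 1 0 0 0) [] = true := by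
  decide +kernel

noncomputable def tb246_0_16 : Tr :=
(S (nat_lit 8795) (S (nat_lit 8812) (S (nat_lit 2019) (S (nat_lit 1290) (S (nat_lit 1003) (S (nat_lit 17558) (S (nat_lit 20750) (S (nat_lit 10080) (L (nat_lit 21076441))
(L (nat_lit 27647429)))
(L (nat_lit 5592539)))
(S (nat_lit 35452) (L (nat_lit 5991879))
(L (nat_lit 26810821))))
(S (nat_lit 20767) (S (nat_lit 39542) (S (nat_lit 20750) (S (nat_lit 21043) (S (nat_lit 1014) (L (nat_lit 10334850))
(L (nat_lit 19085432)))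
(L (nat_lit 7017295)))
(L (nat_lit 21299673)))
(L (nat_lit 24125912)))
(S (nat_lit 40531) (S (nat_lit 15373) (S (nat_lit 10999) (L (nat_lit 16959709))
(L (nat_lit 7255683)))
(S (nat_lit 48377) (L (nat_lit 11560404))
(L (nat_lit 7261635))))
(L (nat_lit 25367215)))))
(S (nat_lit 21054) (S (nat_lit 15371) (S (nat_lit 1715) (S (nat_lit 20750) (S (nat_lit 30699) (L (nat_lit 27280594))
(L (nat_lit 19431644)))
(L (nat_lit 12386960)))
(L (nat_lit 12321424)))
(S (nat_lit 35135) (S (nat_lit 1715) (S (nat_lit 1014) (S (nat_lit 1732) (L (nat_lit 2934408))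
(L (nat_lit 14518922)))
(L (nat_lit 19333433)))
(L (nat_lit 12944028)))
(S (nat_lit 54899) (S (nat_lit 20750) (S (nat_lit 50463) (S (nat_lit 41271) (L (nat_lit 29826657))
(L (nat_lit 27506739)))
(L (nat_lit 4421263)))
(L (nat_lit 12402307)))
(L (nat_lit 25508484)))))
(S (nat_lit 40818) (S (nat_lit 8823) (S (nat_lit 1776) (S (nat_lit 40575) (S (nat_lit 20750) (L (nat_lit 26467781))
(L (nat_lit 21895619)))
(L (nat_lit 10159916)))
(S (nat_lit 21540) (S (nat_lit 30699) (L (nat_lit 30933234))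
(L (nat_lit 17504284)))
(S (nat_lit 41304) (S (nat_lit 39603) (S (nat_lit 17543) (L (nat_lit 12660377))
(L (nat_lit 7883556)))
(L (nat_lit 12064413)))
(L (nat_lit 25431506)))))
(S (nat_lit 28587) (S (nat_lit 1277) (S (nat_lit 15323) (L (nat_lit 24131897))
(L (nat_lit 8106076)))
(L (nat_lit 12668156)))
(S (nat_lit 48351) (S (nat_lit 10997) (S (nat_lit 10977) (L (nat_lit 7995864))
(L (nat_lit 1370580)))
(S (nat_lit 41430) (L (nat_lit 26263922))
(L (nat_lit 1987019))))
(L (nat_lit 25531984)))))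
(L (nat_lit 25919693)))))
(S (nat_lit 21783) (S (nat_lit 1279) (S (nat_lit 1958) (S (nat_lit 48338) (S (nat_lit 21021) (S (nat_lit 1748) (S (nat_lit 1969) (S (nat_lit 25) (L (nat_lit 6929317))
(L (nat_lit 20747598)))
(L (nat_lit 20748366)))
(L (nat_lit 4858641)))
(L (nat_lit 21464874)))
(L (nat_lit 22807979)))
(S (nat_lit 21722) (S (nat_lit 15356) (S (nat_lit 50505) (L (nat_lit 22294653))
(L (nat_lit 27352399)))
(S (nat_lit 18848) (L (nat_lit 11319442))
(L (nat_lit 1452820))))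
(S (nat_lit 41486) (S (nat_lit 2826) (L (nat_lit 18012969))
(S (nat_lit 40542) (S (nat_lit 2006) (S (nat_lit 986) (L (nat_lit 14523444))
(L (nat_lit 26286736)))
(L (nat_lit 11547543)))
(L (nat_lit 17837843))))
(L (nat_lit 25527952)))))
(S (nat_lit 21043) (S (nat_lit 10949) (S (nat_lit 17510) (S (nat_lit 40542) (S (nat_lit 10960) (L (nat_lit 8020078))
(L (nat_lit 7362445)))
(L (nat_lit 23080781)))
(L (nat_lit 1890574)))
(S (nat_lit 30713) (S (nat_lit 37260) (S (nat_lit 37302) (L (nat_lit 20454429))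
(L (nat_lit 30515669)))
(L (nat_lit 13830037)))
(S (nat_lit 50477) (S (nat_lit 21529) (S (nat_lit 997) (S (nat_lit 17558) (L (nat_lit 22808009))
(L (nat_lit 22939082)))
(L (nat_lit 19166318)))
(S (nat_lit 30919) (L (nat_lit 7492060))
(L (nat_lit 8245669))))
(L (nat_lit 25175477)))))
(S (nat_lit 40807) (S (nat_lit 1215) (S (nat_lit 11010) (S (nat_lit 15384) (S (nat_lit 41534) (L (nat_lit 16867979))
(L (nat_lit 23081734)))
(L (nat_lit 17715489)))
(L (nat_lit 24000801)))
(S (nat_lit 20979) (S (nat_lit 19828) (S (nat_lit 8779) (S (nat_lit 8790) (S (nat_lit 41519) (L (nat_lit 2868137))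
(L (nat_lit 23529786)))
(L (nat_lit 1810873)))
(L (nat_lit 1828232)))
(L (nat_lit 10205213)))
(S (nat_lit 40743) (S (nat_lit 10949) (S (nat_lit 15323) (L (nat_lit 17499019))
(L (nat_lit 16832796)))
(L (nat_lit 23118108)))
(L (nat_lit 25564434)))))
(L (nat_lit 25465422)))))
(S (nat_lit 41547) (S (nat_lit 1262) (S (nat_lit 42) (S (nat_lit 1991) (S (nat_lit 48290) (S (nat_lit 40743) (L (nat_lit 2934002))
(L (nat_lit 292461)))
(L (nat_lit 19964813)))
(S (nat_lit 51423) (L (nat_lit 26255985))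
(L (nat_lit 19340034))))
(S (nat_lit 19806) (S (nat_lit 1449) (L (nat_lit 17069110))
(S (nat_lit 40818) (S (nat_lit 35104) (S (nat_lit 30730) (L (nat_lit 15003733))
(L (nat_lit 17062659)))
(L (nat_lit 23347971)))
(L (nat_lit 8061740))))
(S (nat_lit 39570) (S (nat_lit 57024) (S (nat_lit 40805) (S (nat_lit 10997) (L (nat_lit 23561095))
(L (nat_lit 23987659)))
(L (nat_lit 23162375)))
(L (nat_lit 12809889)))
(L (nat_lit 25835686)))))
(S (nat_lit 21026) (S (nat_lit 986) (S (nat_lit 15309) (S (nat_lit 30761) (L (nat_lit 3775280))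
(L (nat_lit 24254939)))
(S (nat_lit 41467) (L (nat_lit 27793031))
(L (nat_lit 8094169))))
(S (nat_lit 20750) (S (nat_lit 10997) (S (nat_lit 15371) (L (nat_lit 8258161))
(L (nat_lit 7223941)))
(L (nat_lit 7229893)))
(S (nat_lit 40514) (S (nat_lit 15323) (S (nat_lit 20778) (S (nat_lit 41260) (L (nat_lit 2935240))
(L (nat_lit 27922887)))
(L (nat_lit 30423282)))
(S (nat_lit 35087) (S (nat_lit 10977) (S (nat_lit 8779) (S (nat_lit 37285) (L (nat_lit 213626))
(L (nat_lit 30625933)))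
(L (nat_lit 17064514)))
(L (nat_lit 23348097)))
(S (nat_lit 54851) (S (nat_lit 20778) (S (nat_lit 41243) (L (nat_lit 28508783))
(L (nat_lit 17428707)))
(L (nat_lit 7004268)))
(L (nat_lit 25866314)))))
(L (nat_lit 25514465)))))
(S (nat_lit 40790) (S (nat_lit 11010) (S (nat_lit 28450) (L (nat_lit 15500936))
(S (nat_lit 41271) (S (nat_lit 40575) (S (nat_lit 17560) (L (nat_lit 26679939))
(L (nat_lit 6949645)))
(L (nat_lit 27985100)))
(L (nat_lit 23533385))))
(S (nat_lit 30774) (S (nat_lit 40547) (S (nat_lit 10960) (S (nat_lit 41519) (L (nat_lit 972199))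
(L (nat_lit 2794417)))
(L (nat_lit 23902345)))
(S (nat_lit 47899) (L (nat_lit 3988903))
(L (nat_lit 23891335))))
(S (nat_lit 50538) (S (nat_lit 15334) (S (nat_lit 35115) (S (nat_lit 10977) (L (nat_lit 29500919))
(L (nat_lit 23366543)))
(L (nat_lit 3070439)))
(S (nat_lit 23339) (L (nat_lit 1813393))
(L (nat_lit 16788374))))
(L (nat_lit 25311814)))))
(L (nat_lit 25631926)))))
(L (nat_lit 25364978)))))
(S (nat_lit 28576) (S (nat_lit 1969) (S (nat_lit 10997) (S (nat_lit 17527) (S (nat_lit 35073) (S (nat_lit 35137) (L (nat_lit 1777422))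
(L (nat_lit 23413784)))
(S (nat_lit 48903) (L (nat_lit 30772910))
(L (nat_lit 23921902))))
(S (nat_lit 37291) (S (nat_lit 8215) (L (nat_lit 23364493))
(S (nat_lit 35073) (S (nat_lit 997) (S (nat_lit 50463) (S (nat_lit 15340) (S (nat_lit 37302) (S (nat_lit 17558) (S (nat_lit 12336) (L (nat_lit 4595291))
(L (nat_lit 8126932)))
(L (nat_lit 24517788)))
(L (nat_lit 8938049)))
(L (nat_lit 17506115)))
(L (nat_lit 13311037)))
(L (nat_lit 12846996)))
(L (nat_lit 8848279))))
(S (nat_lit 57055) (S (nat_lit 14492) (L (nat_lit 6783892))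
(S (nat_lit 48307) (S (nat_lit 41304) (S (nat_lit 40818) (L (nat_lit 17898107))
(L (nat_lit 17499016)))
(L (nat_lit 17505154)))
(L (nat_lit 5128937))))
(L (nat_lit 25247027)))))
(S (nat_lit 30761) (S (nat_lit 17521) (S (nat_lit 1748) (S (nat_lit 15356) (S (nat_lit 54868) (S (nat_lit 39542) (L (nat_lit 7196099))
(L (nat_lit 17847082)))
(L (nat_lit 14261123)))
(L (nat_lit 22443204)))
(S (nat_lit 21512) (S (nat_lit 39542) (S (nat_lit 1776) (L (nat_lit 20752836))
(L (nat_lit 14391480)))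
(L (nat_lit 24175920)))
(S (nat_lit 41276) (S (nat_lit 40785) (S (nat_lit 15309) (S (nat_lit 48338) (L (nat_lit 4076169))
(L (nat_lit 12386991)))
(L (nat_lit 24175856)))
(L (nat_lit 18509832)))
(L (nat_lit 25822576)))))
(S (nat_lit 37285) (S (nat_lit 19828) (S (nat_lit 10949) (S (nat_lit 40514) (L (nat_lit 23290369))
(L (nat_lit 3593001)))
(L (nat_lit 1550165)))
(S (nat_lit 30333) (L (nat_lit 6893692))
(L (nat_lit 3503508))))
(S (nat_lit 57049) (S (nat_lit 35137) (S (nat_lit 30774) (S (nat_lit 20798) (L (nat_lit 4535004))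
(L (nat_lit 21803235)))
(L (nat_lit 10334292)))
(S (nat_lit 37651) (L (nat_lit 6084944))
(L (nat_lit 12973078))))
(L (nat_lit 25662803)))))
(S (nat_lit 50525) (S (nat_lit 75) (S (nat_lit 17521) (S (nat_lit 986) (S (nat_lit 1726) (S (nat_lit 1240) (L (nat_lit 19930926))
(L (nat_lit 19678433)))
(L (nat_lit 19678247)))
(L (nat_lit 13391201)))
(S (nat_lit 35002) (L (nat_lit 7075362))
(L (nat_lit 226774))))
(S (nat_lit 19839) (S (nat_lit 21452) (L (nat_lit 12737319))
(S (nat_lit 37302) (S (nat_lit 48351) (S (nat_lit 30713) (S (nat_lit 48338) (S (nat_lit 28526) (S (nat_lit 57024) (S (nat_lit 21783) (L (nat_lit 3841531))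
(L (nat_lit 30480851)))
(L (nat_lit 11007649)))
(L (nat_lit 9329743)))
(L (nat_lit 6102453)))
(L (nat_lit 4016398)))
(L (nat_lit 27637313)))
(L (nat_lit 9986689))))
(S (nat_lit 39603) (S (nat_lit 48351) (S (nat_lit 1229) (S (nat_lit 1715) (L (nat_lit 6072787))
(L (nat_lit 12369569)))
(L (nat_lit 6078119)))
(L (nat_lit 6116654)))
(L (nat_lit 25346694)))))
(L (nat_lit 25494126)))))
(S (nat_lit 21733) (S (nat_lit 15371) (S (nat_lit 1701) (S (nat_lit 26242) (L (nat_lit 24195883))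
(S (nat_lit 35104) (S (nat_lit 48338) (S (nat_lit 41514) (S (nat_lit 1036) (L (nat_lit 5029578))
(L (nat_lit 4516276)))
(L (nat_lit 27493906)))
(L (nat_lit 20356248)))
(L (nat_lit 2497240))))
(S (nat_lit 21465) (S (nat_lit 5215) (L (nat_lit 4645172))
(S (nat_lit 30699) (S (nat_lit 15323) (S (nat_lit 997) (S (nat_lit 17558) (L (nat_lit 7221298))
(L (nat_lit 22398140)))
(L (nat_lit 19998606)))
(L (nat_lit 22065468)))
(L (nat_lit 17629396))))
(S (nat_lit 41229) (S (nat_lit 10406) (L (nat_lit 9264612))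
(S (nat_lit 21004) (S (nat_lit 40514) (L (nat_lit 30580365))
(L (nat_lit 27886023)))
(L (nat_lit 22421284))))
(L (nat_lit 25315753)))))
(S (nat_lit 35135) (S (nat_lit 1014) (S (nat_lit 8984) (L (nat_lit 30522610))
(S (nat_lit 39542) (S (nat_lit 17521) (S (nat_lit 2019) (S (nat_lit 35098) (L (nat_lit 23227912))
(L (nat_lit 9488888)))
(L (nat_lit 13533833)))
(L (nat_lit 225933)))
(L (nat_lit 4642602))))
(S (nat_lit 20778) (S (nat_lit 17558) (S (nat_lit 10935) (S (nat_lit 30761) (S (nat_lit 21041) (L (nat_lit 2006638))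
(L (nat_lit 21804103)))
(L (nat_lit 30785125)))
(L (nat_lit 6312751)))
(S (nat_lit 30624) (L (nat_lit 6738752))
(L (nat_lit 7995804))))
(S (nat_lit 40542) (S (nat_lit 21527) (S (nat_lit 21004) (S (nat_lit 41293) (L (nat_lit 16974646))
(L (nat_lit 27539541)))
(L (nat_lit 30841876)))
(S (nat_lit 41183) (S (nat_lit 1892) (L (nat_lit 2584818))
(L (nat_lit 23246600)))
(L (nat_lit 15518822))))
(L (nat_lit 25645282)))))
(S (nat_lit 54899) (S (nat_lit 8773) (S (nat_lit 17558) (S (nat_lit 17510) (S (nat_lit 42) (S (nat_lit 40514) (L (nat_lit 7523116))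
(L (nat_lit 7955939)))
(L (nat_lit 872780)))
(L (nat_lit 15756564)))
(S (nat_lit 44545) (L (nat_lit 7787705))
(L (nat_lit 401300))))
(S (nat_lit 28537) (S (nat_lit 1715) (S (nat_lit 40514) (S (nat_lit 1036) (L (nat_lit 29742253))
(L (nat_lit 5166350)))
(L (nat_lit 17061048)))
(S (nat_lit 21479) (S (nat_lit 40531) (S (nat_lit 40768) (L (nat_lit 28658180))
(L (nat_lit 17997653)))
(L (nat_lit 17168000)))
(S (nat_lit 41243) (S (nat_lit 40757) (S (nat_lit 41514) (S (nat_lit 21507) (L (nat_lit 26566146))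
(L (nat_lit 30580429)))
(L (nat_lit 18489157)))
(L (nat_lit 16962936)))
(L (nat_lit 25796067)))))
(S (nat_lit 48301) (S (nat_lit 1036) (S (nat_lit 972) (L (nat_lit 15801109))
(L (nat_lit 5026378)))
(L (nat_lit 5151156)))
(L (nat_lit 25382306)))))
(L (nat_lit 25515429)))))
(S (nat_lit 41497) (S (nat_lit 15371) (S (nat_lit 1726) (S (nat_lit 30699) (S (nat_lit 21043) (S (nat_lit 54310) (L (nat_lit 23075288))
(L (nat_lit 26706631)))
(L (nat_lit 1888591)))
(L (nat_lit 3021300)))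
(S (nat_lit 21490) (S (nat_lit 17558) (S (nat_lit 57071) (S (nat_lit 40743) (L (nat_lit 2699516))
(L (nat_lit 17396842)))
(L (nat_lit 14999604)))
(L (nat_lit 465812)))
(S (nat_lit 41254) (S (nat_lit 40807) (S (nat_lit 40564) (S (nat_lit 30699) (S (nat_lit 10966) (S (nat_lit 17558) (L (nat_lit 4510542))
(L (nat_lit 7210452)))
(L (nat_lit 23332685)))
(L (nat_lit 9996116)))
(L (nat_lit 27793556)))
(L (nat_lit 27269556)))
(L (nat_lit 25543733)))))
(S (nat_lit 35135) (S (nat_lit 1277) (S (nat_lit 62) (S (nat_lit 41254) (S (nat_lit 15356) (L (nat_lit 18794534))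
(L (nat_lit 24685596)))
(L (nat_lit 24275463)))
(S (nat_lit 56713) (L (nat_lit 17846587))
(L (nat_lit 12969668))))
(S (nat_lit 21041) (S (nat_lit 17543) (S (nat_lit 37324) (L (nat_lit 28713637))
(L (nat_lit 10344493)))
(L (nat_lit 8237797)))
(S (nat_lit 40805) (S (nat_lit 7241) (L (nat_lit 209629))
(S (nat_lit 40525) (S (nat_lit 40768) (L (nat_lit 17604289))
(L (nat_lit 25009167)))
(L (nat_lit 18419531))))
(L (nat_lit 25726665)))))
(S (nat_lit 54899) (S (nat_lit 15323) (S (nat_lit 17558) (S (nat_lit 29376) (L (nat_lit 5031558))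
(S (nat_lit 40768) (L (nat_lit 8029007))
(L (nat_lit 9864020))))
(S (nat_lit 54815) (L (nat_lit 16970962))
(L (nat_lit 17964948))))
(S (nat_lit 35087) (S (nat_lit 1765) (S (nat_lit 50463) (L (nat_lit 698191))
(L (nat_lit 27821268)))
(S (nat_lit 55538) (L (nat_lit 18654849))
(L (nat_lit 11653903))))
(S (nat_lit 54851) (S (nat_lit 19609) (L (nat_lit 1308237))
(S (nat_lit 21043) (S (nat_lit 21004) (L (nat_lit 28421684))
(L (nat_lit 4595421)))
(L (nat_lit 21291396))))
(L (nat_lit 25628362)))))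
(L (nat_lit 25549965)))))
(L (nat_lit 25582852)))))
(S (nat_lit 48340) (S (nat_lit 1991) (S (nat_lit 15309) (S (nat_lit 35137) (S (nat_lit 14) (S (nat_lit 54884) (L (nat_lit 277116))
(L (nat_lit 27546052)))
(L (nat_lit 13640534)))
(S (nat_lit 54793) (L (nat_lit 3368402))
(L (nat_lit 2939116))))
(S (nat_lit 35073) (S (nat_lit 14) (S (nat_lit 54901) (S (nat_lit 15356) (S (nat_lit 19828) (L (nat_lit 27319600))
(L (nat_lit 16060029)))
(L (nat_lit 6373116)))
(L (nat_lit 21328322)))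
(S (nat_lit 19695) (L (nat_lit 12840512))
(L (nat_lit 217564))))
(S (nat_lit 54837) (S (nat_lit 14) (S (nat_lit 30724) (S (nat_lit 19839) (L (nat_lit 283036))
(L (nat_lit 30793153)))
(L (nat_lit 18889080)))
(S (nat_lit 28602) (L (nat_lit 15992476))
(L (nat_lit 13830812))))
(L (nat_lit 25646119)))))
(S (nat_lit 21755) (S (nat_lit 1763) (S (nat_lit 8984) (L (nat_lit 10195418))
(S (nat_lit 21507) (S (nat_lit 41254) (S (nat_lit 40818) (L (nat_lit 16836918))
(L (nat_lit 7363469)))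
(L (nat_lit 27891758)))
(L (nat_lit 10998844))))
(S (nat_lit 21527) (S (nat_lit 5569) (L (nat_lit 22066086))
(S (nat_lit 19839) (S (nat_lit 57049) (S (nat_lit 41271) (S (nat_lit 21043) (L (nat_lit 26942574))
(L (nat_lit 22607014)))
(L (nat_lit 24143369)))
(L (nat_lit 21014937)))
(L (nat_lit 3910106))))
(S (nat_lit 41291) (S (nat_lit 972) (S (nat_lit 14978) (L (nat_lit 15781798))
(S (nat_lit 57049) (S (nat_lit 1732) (S (nat_lit 14) (L (nat_lit 18885051))
(L (nat_lit 19087172)))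
(L (nat_lit 5091978)))
(L (nat_lit 27314568))))
(S (nat_lit 20736) (S (nat_lit 10949) (L (nat_lit 8073339))
(L (nat_lit 1786699)))
(S (nat_lit 40500) (S (nat_lit 21010) (S (nat_lit 11010) (L (nat_lit 11268609))
(L (nat_lit 23532359)))
(L (nat_lit 1259445)))
(L (nat_lit 25758028)))))
(L (nat_lit 25732151)))))
(S (nat_lit 41519) (S (nat_lit 64) (S (nat_lit 17510) (S (nat_lit 14) (S (nat_lit 2306) (L (nat_lit 5795026))
(L (nat_lit 10342415)))
(L (nat_lit 6687389)))
(S (nat_lit 37274) (S (nat_lit 14) (S (nat_lit 17527) (S (nat_lit 19839) (L (nat_lit 3690744))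
(L (nat_lit 2475674)))
(L (nat_lit 7145165)))
(S (nat_lit 26247) (L (nat_lit 1982086))
(L (nat_lit 1266140))))
(S (nat_lit 57038) (S (nat_lit 17571) (S (nat_lit 12808) (L (nat_lit 17042231))
(S (nat_lit 37291) (S (nat_lit 49876) (L (nat_lit 1357434))
(L (nat_lit 4844967)))
(L (nat_lit 3467981))))
(S (nat_lit 34724) (L (nat_lit 7047984))
(L (nat_lit 6975905))))
(L (nat_lit 25667172)))))
(S (nat_lit 19828) (S (nat_lit 1279) (S (nat_lit 14) (S (nat_lit 39575) (S (nat_lit 19839) (S (nat_lit 1944) (S (nat_lit 40743) (S (nat_lit 21026) (S (nat_lit 42) (S (nat_lit 39590) (S (nat_lit 19789) (S (nat_lit 15309) (S (nat_lit 17558) (L (nat_lit 27442548))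
(L (nat_lit 6751124)))
(S (nat_lit 35073) (S (nat_lit 21004) (L (nat_lit 28777156))
(L (nat_lit 21372769)))
(S (nat_lit 54837) (S (nat_lit 15373) (S (nat_lit 41291) (L (nat_lit 7865948))
(L (nat_lit 8941281)))
(L (nat_lit 17750056)))
(L (nat_lit 25189584)))))
(L (nat_lit 2966900)))
(L (nat_lit 27794117)))
(S (nat_lit 19806) (S (nat_lit 39553) (S (nat_lit 62) (S (nat_lit 986) (S (nat_lit 28537) (L (nat_lit 7520921))
(L (nat_lit 19741864)))
(S (nat_lit 20750) (S (nat_lit 40575) (S (nat_lit 1003) (S (nat_lit 588) (L (nat_lit 4507291))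
(S (nat_lit 57055) (S (nat_lit 21496) (S (nat_lit 1776) (S (nat_lit 1878) (L (nat_lit 4594299))
(S (nat_lit 49707) (L (nat_lit 16961787))
(L (nat_lit 29786827))))
(L (nat_lit 19795180)))
(L (nat_lit 31110373)))
(L (nat_lit 15332611))))
(L (nat_lit 8565588)))
(L (nat_lit 9562765)))
(S (nat_lit 40514) (S (nat_lit 20767) (S (nat_lit 32798) (L (nat_lit 14882647))
(S (nat_lit 34342) (L (nat_lit 21349401))
(L (nat_lit 290355))))
(L (nat_lit 15747448)))
(L (nat_lit 25428470)))))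
(L (nat_lit 13551972)))
(L (nat_lit 11459074)))
(S (nat_lit 39570) (S (nat_lit 8790) (S (nat_lit 28537) (S (nat_lit 21770) (S (nat_lit 48351) (S (nat_lit 1290) (S (nat_lit 41503) (S (nat_lit 1277) (S (nat_lit 1878) (S (nat_lit 47956) (S (nat_lit 4372) (L (nat_lit 5455451))
(L (nat_lit 974314)))
(L (nat_lit 2021834)))
(S (nat_lit 37291) (S (nat_lit 57024) (S (nat_lit 57038) (S (nat_lit 21465) (S (nat_lit 20798) (S (nat_lit 20800) (S (nat_lit 997) (S (nat_lit 40531) (S (nat_lit 36043) (S (nat_lit 47972) (S (nat_lit 11786) (S (nat_lit 15174) (S (nat_lit 35283) (S (nat_lit 47545) (S (nat_lit 10982) (S (nat_lit 21647) (S (nat_lit 18645) (D (nat_lit 11) (nat_lit 25413645) (nat_lit 12324429) (nat_lit 241664396454))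
(L (nat_lit 29511048)))
(L (nat_lit 27869472)))
(S (nat_lit 18844) (S (nat_lit 54884) (S (nat_lit 32113) (D (nat_lit 15) (nat_lit 27544624) (nat_lit 25544749) (nat_lit 141935318247))
(L (nat_lit 27866154)))
(L (nat_lit 27899108)))
(L (nat_lit 23965707))))
(L (nat_lit 29936834)))
(L (nat_lit 22439170)))
(L (nat_lit 27408105)))
(L (nat_lit 27342569)))
(L (nat_lit 11457713)))
(S (nat_lit 40359) (S (nat_lit 420) (S (nat_lit 38674) (S (nat_lit 39191) (S (nat_lit 818) (S (nat_lit 58935) (S (nat_lit 17344) (S (nat_lit 2629) (S (nat_lit 24975) (S (nat_lit 15917) (D (nat_lit 15) (nat_lit 29675633) (nat_lit 19664112) (nat_lit 40968390))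
(L (nat_lit 27666016)))
(L (nat_lit 24570176)))
(L (nat_lit 30060773)))
(S (nat_lit 34510) (S (nat_lit 11554) (S (nat_lit 14001) (D (nat_lit 13) (nat_lit 27413959) (nat_lit 25761190) (nat_lit 6803300713704))
(L (nat_lit 27868385)))
(L (nat_lit 27865412)))
(L (nat_lit 27963562))))
(L (nat_lit 29991057)))
(L (nat_lit 27893905)))
(L (nat_lit 27678856)))
(L (nat_lit 27515426)))
(L (nat_lit 3548921)))
(S (nat_lit 55462) (S (nat_lit 6426) (S (nat_lit 50640) (S (nat_lit 35893) (S (nat_lit 31669) (S (nat_lit 4999) (S (nat_lit 36195) (S (nat_lit 21209) (S (nat_lit 21830) (S (nat_lit 48917) (D (nat_lit 13) (nat_lit 12356204) (nat_lit 8503058) (nat_lit 8972456299648))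
(L (nat_lit 21773319)))
(L (nat_lit 26885344)))
(S (nat_lit 30167) (S (nat_lit 30180) (S (nat_lit 16997) (S (nat_lit 18833) (D (nat_lit 15) (nat_lit 29510960) (nat_lit 14230680) (nat_lit 73015761090))
(L (nat_lit 27898919)))
(L (nat_lit 29962564)))
(L (nat_lit 27866436)))
(L (nat_lit 30128230))))
(L (nat_lit 28563566)))
(L (nat_lit 21892617)))
(L (nat_lit 21392677)))
(L (nat_lit 14552342)))
(L (nat_lit 14587220)))
(L (nat_lit 28743243)))
(L (nat_lit 10913587)))))
(L (nat_lit 27930816)))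
(L (nat_lit 19166319)))
(L (nat_lit 21507160)))
(L (nat_lit 21524707)))
(S (nat_lit 27405) (S (nat_lit 54062) (S (nat_lit 49721) (L (nat_lit 3392216))
(L (nat_lit 26849604)))
(L (nat_lit 26849540)))
(L (nat_lit 22407309))))
(L (nat_lit 21930062)))
(L (nat_lit 21536673)))
(S (nat_lit 49403) (S (nat_lit 16997) (S (nat_lit 35904) (L (nat_lit 3423899))
(L (nat_lit 16599392)))
(L (nat_lit 19066408)))
(L (nat_lit 17400088)))))
(L (nat_lit 13722343)))
(L (nat_lit 18526081)))
(L (nat_lit 3465037)))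
(L (nat_lit 4582128)))
(L (nat_lit 16020160)))
(L (nat_lit 18762920)))
(L (nat_lit 23390382)))
(L (nat_lit 25246407)))))
(L (nat_lit 21938279)))
(L (nat_lit 18795781)))
(L (nat_lit 26849385)))
(L (nat_lit 31166918)))
(L (nat_lit 24209834)))
(S (nat_lit 54306) (L (nat_lit 650698))
(L (nat_lit 26851620))))
(S (nat_lit 21043) (S (nat_lit 10999) (S (nat_lit 14) (S (nat_lit 40790) (S (nat_lit 21783) (S (nat_lit 1944) (S (nat_lit 1215) (S (nat_lit 35098) (S (nat_lit 8779) (S (nat_lit 37302) (S (nat_lit 41503) (S (nat_lit 997) (S (nat_lit 15356) (S (nat_lit 1229) (S (nat_lit 1701) (S (nat_lit 15340) (S (nat_lit 20811) (S (nat_lit 54912) (S (nat_lit 420) (S (nat_lit 9099) (S (nat_lit 9342) (S (nat_lit 40876) (S (nat_lit 19994) (S (nat_lit 51860) (D (nat_lit 11) (nat_lit 25577664) (nat_lit 19673193) (nat_lit 180492501024))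
(L (nat_lit 29412902)))
(L (nat_lit 27796131)))
(L (nat_lit 19808450)))
(L (nat_lit 27867331)))
(L (nat_lit 27867330)))
(S (nat_lit 48901) (S (nat_lit 11394) (S (nat_lit 11637) (S (nat_lit 911) (S (nat_lit 39661) (D (nat_lit 11) (nat_lit 30792129) (nat_lit 25769129) (nat_lit 245921483971))
(L (nat_lit 28815077)))
(L (nat_lit 31048964)))
(L (nat_lit 31046853)))
(L (nat_lit 31046852)))
(L (nat_lit 11136108))))
(L (nat_lit 11351744)))
(L (nat_lit 11585178)))
(L (nat_lit 15327337)))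
(L (nat_lit 13413988)))
(L (nat_lit 26478224)))
(L (nat_lit 22298373)))
(L (nat_lit 13392101)))
(L (nat_lit 346588)))
(L (nat_lit 23497082)))
(L (nat_lit 26630403)))
(L (nat_lit 31110498)))
(L (nat_lit 13387944)))
(L (nat_lit 26578540)))
(L (nat_lit 1776092)))
(L (nat_lit 24953001)))
(L (nat_lit 6883804)))
(S (nat_lit 30763) (S (nat_lit 40790) (S (nat_lit 10935) (S (nat_lit 1726) (S (nat_lit 1944) (S (nat_lit 19839) (S (nat_lit 40542) (S (nat_lit 15334) (S (nat_lit 20798) (S (nat_lit 35137) (S (nat_lit 40547) (S (nat_lit 1701) (S (nat_lit 1958) (S (nat_lit 10960) (S (nat_lit 21770) (S (nat_lit 28485) (S (nat_lit 21540) (S (nat_lit 32246) (S (nat_lit 54987) (S (nat_lit 55230) (S (nat_lit 8229) (S (nat_lit 52984) (D (nat_lit 11) (nat_lit 28498256) (nat_lit 19673195) (nat_lit 143084586241))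
(L (nat_lit 12808929)))
(L (nat_lit 29966411)))
(L (nat_lit 15551843)))
(L (nat_lit 15551842)))
(S (nat_lit 46548) (S (nat_lit 4756) (S (nat_lit 11529) (S (nat_lit 33737) (S (nat_lit 11286) (S (nat_lit 22614) (D (nat_lit 11) (nat_lit 29673520) (nat_lit 19292329) (nat_lit 42083682498))
(L (nat_lit 19166382)))
(L (nat_lit 28916964)))
(L (nat_lit 19340037)))
(L (nat_lit 27859493)))
(L (nat_lit 27740416)))
(L (nat_lit 4578156))))
(L (nat_lit 533427)))
(L (nat_lit 1426260)))
(L (nat_lit 21557504)))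
(L (nat_lit 8131031)))
(L (nat_lit 12151266)))
(L (nat_lit 4599384)))
(L (nat_lit 27627089)))
(L (nat_lit 23208408)))
(L (nat_lit 256535)))
(L (nat_lit 26916162)))
(L (nat_lit 23434813)))
(L (nat_lit 30970503)))
(L (nat_lit 11711064)))
(L (nat_lit 12655509)))
(L (nat_lit 8127119)))
(L (nat_lit 16932184)))
(S (nat_lit 50527) (S (nat_lit 1944) (S (nat_lit 1215) (S (nat_lit 30699) (S (nat_lit 39575) (S (nat_lit 10982) (S (nat_lit 14) (S (nat_lit 41503) (S (nat_lit 48351) (S (nat_lit 41271) (S (nat_lit 40542) (S (nat_lit 10966) (S (nat_lit 20798) (S (nat_lit 997) (S (nat_lit 37302) (S (nat_lit 30713) (S (nat_lit 57049) (S (nat_lit 48338) (S (nat_lit 35120) (S (nat_lit 41514) (S (nat_lit 7489) (S (nat_lit 35283) (S (nat_lit 37713) (S (nat_lit 26977) (S (nat_lit 12501) (S (nat_lit 13763) (D (nat_lit 9) (nat_lit 27578752) (nat_lit 25765036) (nat_lit 74294894631))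
(L (nat_lit 28978592)))
(L (nat_lit 29080587)))
(L (nat_lit 12874466)))
(L (nat_lit 22984963)))
(L (nat_lit 22985986)))
(S (nat_lit 21377) (S (nat_lit 40122) (S (nat_lit 48669) (S (nat_lit 17008) (S (nat_lit 652) (S (nat_lit 50613) (D (nat_lit 9) (nat_lit 30754958) (nat_lit 25767084) (nat_lit 7624397892))
(L (nat_lit 29013346)))
(L (nat_lit 30841473)))
(L (nat_lit 30841411)))
(L (nat_lit 29012291)))
(L (nat_lit 29012289)))
(L (nat_lit 18734118))))
(L (nat_lit 27726098)))
(L (nat_lit 12864389)))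
(L (nat_lit 13769336)))
(L (nat_lit 11048787)))
(L (nat_lit 13694229)))
(L (nat_lit 30837111)))
(L (nat_lit 13182885)))
(L (nat_lit 7195139)))
(L (nat_lit 17917234)))
(L (nat_lit 18192211)))
(L (nat_lit 18159443)))
(L (nat_lit 10917780)))
(L (nat_lit 25038279)))
(L (nat_lit 26661994)))
(L (nat_lit 23336508)))
(L (nat_lit 27385259)))
(L (nat_lit 9242100)))
(L (nat_lit 6048136)))
(L (nat_lit 12339587)))
(L (nat_lit 25643048)))))
(S (nat_lit 40807) (S (nat_lit 1262) (S (nat_lit 1944) (S (nat_lit 20979) (S (nat_lit 39575) (S (nat_lit 19839) (S (nat_lit 14) (S (nat_lit 1014) (S (nat_lit 40562) (S (nat_lit 20761) (S (nat_lit 1715) (S (nat_lit 1003) (S (nat_lit 21540) (S (nat_lit 48338) (S (nat_lit 28526) (S (nat_lit 29904) (L (nat_lit 5711450))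
(L (nat_lit 27935913)))
(L (nat_lit 19734605)))
(L (nat_lit 27900229)))
(L (nat_lit 14738675)))
(L (nat_lit 18883406)))
(S (nat_lit 21479) (S (nat_lit 48301) (L (nat_lit 28351957))
(L (nat_lit 15773463)))
(S (nat_lit 41243) (S (nat_lit 20750) (S (nat_lit 21512) (S (nat_lit 1969) (S (nat_lit 8746) (L (nat_lit 2410204))
(L (nat_lit 17429697)))
(L (nat_lit 19306587)))
(L (nat_lit 15751481)))
(L (nat_lit 16666977)))
(L (nat_lit 25612609)))))
(L (nat_lit 31016165)))
(L (nat_lit 17943800)))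
(S (nat_lit 20778) (S (nat_lit 40525) (S (nat_lit 1034) (S (nat_lit 1036) (S (nat_lit 20993) (S (nat_lit 40818) (S (nat_lit 40805) (S (nat_lit 48338) (S (nat_lit 21770) (S (nat_lit 21783) (S (nat_lit 40514) (S (nat_lit 46995) (L (nat_lit 8918778))
(S (nat_lit 51908) (S (nat_lit 11637) (L (nat_lit 2306713))
(L (nat_lit 29998277)))
(L (nat_lit 29514988))))
(L (nat_lit 23959729)))
(L (nat_lit 31136195)))
(L (nat_lit 30951616)))
(L (nat_lit 20349771)))
(L (nat_lit 9989856)))
(L (nat_lit 23600283)))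
(L (nat_lit 21249954)))
(S (nat_lit 20800) (S (nat_lit 15340) (L (nat_lit 6851289))
(L (nat_lit 25009538)))
(S (nat_lit 40564) (S (nat_lit 30761) (L (nat_lit 5462894))
(L (nat_lit 31038852)))
(L (nat_lit 25270862)))))
(L (nat_lit 4973809)))
(L (nat_lit 27869408)))
(S (nat_lit 40542) (S (nat_lit 20798) (S (nat_lit 997) (S (nat_lit 15323) (S (nat_lit 21783) (S (nat_lit 40805) (S (nat_lit 8790) (S (nat_lit 20993) (S (nat_lit 1246) (S (nat_lit 48338) (S (nat_lit 54868) (S (nat_lit 1763) (S (nat_lit 19319) (S (nat_lit 10204) (S (nat_lit 58621) (S (nat_lit 29694) (S (nat_lit 16383) (S (nat_lit 33960) (S (nat_lit 51115) (D (nat_lit 15) (nat_lit 29414670) (nat_lit 18997516) (nat_lit 73216887912))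
(L (nat_lit 19774819)))
(L (nat_lit 19743074)))
(S (nat_lit 42610) (S (nat_lit 15199) (S (nat_lit 31141) (D (nat_lit 15) (nat_lit 28401064) (nat_lit 18997674) (nat_lit 37849437351))
(L (nat_lit 16697540)))
(L (nat_lit 28951748)))
(L (nat_lit 12077241))))
(L (nat_lit 15476291)))
(L (nat_lit 28984330)))
(L (nat_lit 22050097)))
(L (nat_lit 28560558)))
(L (nat_lit 5158632)))
(L (nat_lit 21097740)))
(L (nat_lit 4899594)))
(L (nat_lit 6147526)))
(L (nat_lit 12154304)))
(L (nat_lit 21392519)))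
(L (nat_lit 23634690)))
(L (nat_lit 20980188)))
(S (nat_lit 35087) (S (nat_lit 21783) (S (nat_lit 1246) (S (nat_lit 30741) (S (nat_lit 28526) (S (nat_lit 21507) (S (nat_lit 41254) (S (nat_lit 40805) (S (nat_lit 35073) (S (nat_lit 5788) (S (nat_lit 25292) (S (nat_lit 37291) (S (nat_lit 23760) (S (nat_lit 25287) (S (nat_lit 43275) (S (nat_lit 43993) (S (nat_lit 50888) (S (nat_lit 10781) (D (nat_lit 15) (nat_lit 25414053) (nat_lit 19666346) (nat_lit 1144000645))
(L (nat_lit 28976544)))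
(L (nat_lit 19771584)))
(S (nat_lit 57952) (S (nat_lit 57963) (S (nat_lit 15674) (D (nat_lit 15) (nat_lit 29675632) (nat_lit 19664264) (nat_lit 69801680102))
(L (nat_lit 27894307)))
(L (nat_lit 29997250)))
(L (nat_lit 20120496))))
(L (nat_lit 20070185)))
(L (nat_lit 29856456)))
(L (nat_lit 28560462)))
(L (nat_lit 31137186)))
(L (nat_lit 27374185)))
(L (nat_lit 12806756)))
(L (nat_lit 13297857)))
(L (nat_lit 18697440)))
(L (nat_lit 23150809)))
(L (nat_lit 31107620)))
(L (nat_lit 19107757)))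
(L (nat_lit 31165807)))
(L (nat_lit 19238734)))
(L (nat_lit 14942994)))
(S (nat_lit 54851) (S (nat_lit 40547) (S (nat_lit 57049) (S (nat_lit 41254) (S (nat_lit 1763) (S (nat_lit 30724) (S (nat_lit 21770) (S (nat_lit 40531) (S (nat_lit 37307) (S (nat_lit 34040) (S (nat_lit 14547) (S (nat_lit 13504) (S (nat_lit 20466) (S (nat_lit 10328) (S (nat_lit 35526) (S (nat_lit 37015) (S (nat_lit 26988) (D (nat_lit 13) (nat_lit 27510927) (nat_lit 25759142) (nat_lit 5707077293319))
(L (nat_lit 13519137)))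
(L (nat_lit 10340369)))
(L (nat_lit 4114982)))
(L (nat_lit 28913736)))
(L (nat_lit 19771648)))
(S (nat_lit 18634) (S (nat_lit 652) (S (nat_lit 18466) (S (nat_lit 16463) (S (nat_lit 50613) (S (nat_lit 51314) (D (nat_lit 13) (nat_lit 30623761) (nat_lit 25761070) (nat_lit 105332677703))
(L (nat_lit 29078883)))
(L (nat_lit 28947495)))
(L (nat_lit 30755329)))
(L (nat_lit 31011107)))
(L (nat_lit 31043873)))
(L (nat_lit 15033952))))
(L (nat_lit 29400685)))
(L (nat_lit 12936306)))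
(L (nat_lit 3591050)))
(L (nat_lit 18516875)))
(L (nat_lit 16019542)))
(L (nat_lit 9483058)))
(L (nat_lit 12699869)))
(L (nat_lit 9276980)))
(L (nat_lit 11448962)))
(L (nat_lit 10094448)))
(L (nat_lit 25633876)))))
(L (nat_lit 19219360)))
(L (nat_lit 11652976)))
(L (nat_lit 25832996)))))
(L (nat_lit 6916605)))
(L (nat_lit 21325281)))
(L (nat_lit 27962757)))
(L (nat_lit 15540837)))
(L (nat_lit 26578540)))
(S (nat_lit 26469) (L (nat_lit 24372273))
(L (nat_lit 5940636))))
(L (nat_lit 25177679)))))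
(S (nat_lit 39592) (S (nat_lit 1257) (S (nat_lit 58830) (L (nat_lit 3721433))
(L (nat_lit 10342415)))
(S (nat_lit 21021) (S (nat_lit 843) (L (nat_lit 7210482))
(L (nat_lit 21824749)))
(S (nat_lit 40785) (S (nat_lit 14) (S (nat_lit 2306) (L (nat_lit 15408185))
(L (nat_lit 4051151)))
(L (nat_lit 6312412)))
(L (nat_lit 25868581)))))
(L (nat_lit 25711624)))))
(L (nat_lit 25397686)))))
(L (nat_lit 25871400)))))
(S (nat_lit 28559) (S (nat_lit 15371) (S (nat_lit 15373) (S (nat_lit 1257) (S (nat_lit 1034) (S (nat_lit 1019) (S (nat_lit 1776) (L (nat_lit 19996463))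
(L (nat_lit 14552306)))
(L (nat_lit 13240105)))
(S (nat_lit 20798) (S (nat_lit 17558) (S (nat_lit 1014) (S (nat_lit 708) (L (nat_lit 18055897))
(L (nat_lit 17700883)))
(L (nat_lit 2611114)))
(L (nat_lit 16385930)))
(S (nat_lit 40562) (S (nat_lit 41260) (S (nat_lit 37307) (S (nat_lit 17558) (L (nat_lit 24178925))
(L (nat_lit 16391045)))
(L (nat_lit 3688697)))
(L (nat_lit 17011604)))
(L (nat_lit 25274934)))))
(S (nat_lit 21021) (S (nat_lit 41304) (S (nat_lit 40757) (S (nat_lit 17558) (S (nat_lit 21490) (S (nat_lit 40547) (L (nat_lit 12504109))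
(L (nat_lit 17162817)))
(L (nat_lit 15271783)))
(L (nat_lit 1663371)))
(L (nat_lit 17368282)))
(L (nat_lit 7144947)))
(S (nat_lit 40785) (S (nat_lit 47) (S (nat_lit 15356) (S (nat_lit 10949) (S (nat_lit 17571) (L (nat_lit 23084348))
(L (nat_lit 7501519)))
(L (nat_lit 803562)))
(L (nat_lit 26939914)))
(S (nat_lit 19811) (S (nat_lit 41271) (S (nat_lit 64) (S (nat_lit 10999) (S (nat_lit 21540) (L (nat_lit 1329042))
(L (nat_lit 16554628)))
(L (nat_lit 963831)))
(L (nat_lit 19840227)))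
(L (nat_lit 27923979)))
(S (nat_lit 39575) (S (nat_lit 40790) (S (nat_lit 40774) (S (nat_lit 41260) (S (nat_lit 40547) (S (nat_lit 39570) (S (nat_lit 30699) (L (nat_lit 284461))
(L (nat_lit 14288774)))
(L (nat_lit 27927041)))
(L (nat_lit 24946049)))
(L (nat_lit 16797578)))
(L (nat_lit 27926977)))
(L (nat_lit 27935040)))
(L (nat_lit 25287050)))))
(L (nat_lit 25678051)))))
(S (nat_lit 35137) (S (nat_lit 1279) (S (nat_lit 21490) (S (nat_lit 997) (S (nat_lit 40757) (S (nat_lit 30699) (S (nat_lit 17538) (L (nat_lit 26739398))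
(L (nat_lit 18450808)))
(L (nat_lit 19372929)))
(L (nat_lit 27859424)))
(L (nat_lit 14419188)))
(L (nat_lit 11339284)))
(S (nat_lit 21043) (S (nat_lit 30699) (S (nat_lit 1726) (S (nat_lit 17558) (S (nat_lit 997) (S (nat_lit 2006) (L (nat_lit 10016609))
(L (nat_lit 13538518)))
(L (nat_lit 9211412)))
(L (nat_lit 18777739)))
(S (nat_lit 21403) (S (nat_lit 41276) (L (nat_lit 18048180))
(L (nat_lit 6948280)))
(L (nat_lit 10044288))))
(L (nat_lit 30901492)))
(S (nat_lit 40807) (S (nat_lit 17558) (S (nat_lit 41254) (S (nat_lit 8779) (S (nat_lit 10966) (S (nat_lit 30699) (S (nat_lit 997) (L (nat_lit 28451566))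
(L (nat_lit 19013519)))
(L (nat_lit 19798063)))
(L (nat_lit 26478157)))
(L (nat_lit 26478156)))
(L (nat_lit 24516665)))
(L (nat_lit 7210452)))
(L (nat_lit 25694790)))))
(S (nat_lit 54901) (S (nat_lit 1944) (S (nat_lit 10977) (S (nat_lit 1240) (S (nat_lit 1726) (L (nat_lit 18947886))
(L (nat_lit 10028942)))
(L (nat_lit 3743630)))
(S (nat_lit 30741) (S (nat_lit 972) (S (nat_lit 57088) (S (nat_lit 48340) (S (nat_lit 39553) (L (nat_lit 9884825))
(L (nat_lit 25085283)))
(L (nat_lit 10914460)))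
(L (nat_lit 13201449)))
(S (nat_lit 57851) (L (nat_lit 5583516))
(L (nat_lit 10642834))))
(S (nat_lit 50505) (S (nat_lit 48301) (S (nat_lit 48318) (S (nat_lit 50488) (S (nat_lit 8779) (S (nat_lit 20798) (L (nat_lit 31001993))
(L (nat_lit 22851625)))
(L (nat_lit 23389571)))
(L (nat_lit 22221209)))
(L (nat_lit 10897597)))
(L (nat_lit 11220156)))
(L (nat_lit 25936038)))))
(S (nat_lit 21708) (S (nat_lit 997) (S (nat_lit 1958) (S (nat_lit 39542) (S (nat_lit 48318) (S (nat_lit 40500) (S (nat_lit 2019) (S (nat_lit 20750) (S (nat_lit 1014) (S (nat_lit 47) (S (nat_lit 15351) (S (nat_lit 48301) (S (nat_lit 41497) (S (nat_lit 54837) (S (nat_lit 54884) (S (nat_lit 35148) (S (nat_lit 64) (S (nat_lit 1034) (S (nat_lit 1975) (S (nat_lit 41534) (S (nat_lit 39603) (S (nat_lit 29082) (S (nat_lit 29584) (S (nat_lit 55538) (L (nat_lit 11584184))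
(L (nat_lit 26948901)))
(L (nat_lit 26948869)))
(S (nat_lit 37335) (S (nat_lit 37291) (S (nat_lit 30699) (S (nat_lit 10966) (S (nat_lit 50525) (S (nat_lit 57071) (S (nat_lit 17558) (S (nat_lit 1173) (S (nat_lit 13259) (S (nat_lit 52312) (S (nat_lit 17697) (S (nat_lit 39444) (S (nat_lit 30554) (S (nat_lit 40425) (S (nat_lit 47052) (S (nat_lit 10063) (S (nat_lit 13555) (S (nat_lit 18197) (D (nat_lit 13) (nat_lit 31035633) (nat_lit 12130061) (nat_lit 2305460242497))
(L (nat_lit 31043936)))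
(L (nat_lit 31043776)))
(S (nat_lit 40790) (S (nat_lit 8008) (S (nat_lit 20970) (D (nat_lit 13) (nat_lit 26941989) (nat_lit 8145381) (nat_lit 8796298543107))
(L (nat_lit 28001605)))
(L (nat_lit 29997345)))
(L (nat_lit 24578330))))
(L (nat_lit 29927042)))
(L (nat_lit 22424386)))
(L (nat_lit 14556832)))
(L (nat_lit 13457760)))
(L (nat_lit 29467061)))
(L (nat_lit 4021674)))
(L (nat_lit 27450762)))
(S (nat_lit 26741) (S (nat_lit 19431) (S (nat_lit 19387) (S (nat_lit 36763) (S (nat_lit 31042) (S (nat_lit 9075) (S (nat_lit 7184) (S (nat_lit 16471) (S (nat_lit 1246) (D (nat_lit 11) (nat_lit 25446447) (nat_lit 19670190) (nat_lit 276830310))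
(L (nat_lit 19771585)))
(L (nat_lit 19292235)))
(S (nat_lit 20591) (S (nat_lit 16999) (S (nat_lit 20926) (S (nat_lit 40774) (D (nat_lit 15) (nat_lit 870921) (nat_lit 9194019) (nat_lit 280246845703))
(L (nat_lit 27963748)))
(L (nat_lit 13538886)))
(L (nat_lit 31076611)))
(L (nat_lit 24469680))))
(L (nat_lit 19663150)))
(L (nat_lit 13250432)))
(L (nat_lit 27765317)))
(L (nat_lit 19302715)))
(L (nat_lit 19297572)))
(S (nat_lit 38400) (S (nat_lit 16714) (S (nat_lit 36277) (S (nat_lit 21613) (S (nat_lit 54206) (S (nat_lit 35500) (S (nat_lit 10063) (S (nat_lit 34821) (S (nat_lit 7692) (D (nat_lit 15) (nat_lit 27995587) (nat_lit 25348490) (nat_lit 209380908260))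
(L (nat_lit 27493996)))
(L (nat_lit 27924653)))
(L (nat_lit 27931969)))
(S (nat_lit 41291) (S (nat_lit 39458) (S (nat_lit 26314) (S (nat_lit 18658) (D (nat_lit 13) (nat_lit 10343438) (nat_lit 25381411) (nat_lit 4507771607139))
(L (nat_lit 31138341)))
(L (nat_lit 21870947)))
(L (nat_lit 21870789)))
(L (nat_lit 28027953))))
(L (nat_lit 13276378)))
(L (nat_lit 24393752)))
(L (nat_lit 9003425)))
(L (nat_lit 19292417)))
(L (nat_lit 29539978)))))
(L (nat_lit 7263684)))
(L (nat_lit 21507128)))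
(L (nat_lit 15008595)))
(L (nat_lit 21873955)))
(L (nat_lit 31147233)))
(L (nat_lit 31147299)))
(L (nat_lit 13816122))))
(L (nat_lit 12083841)))
(L (nat_lit 805384)))
(L (nat_lit 12399233)))
(L (nat_lit 19128833)))
(L (nat_lit 2013800)))
(L (nat_lit 10272353)))
(L (nat_lit 21804042)))
(L (nat_lit 12441024)))
(L (nat_lit 23464153)))
(L (nat_lit 27282857)))
(L (nat_lit 8204864)))
(L (nat_lit 13956118)))
(L (nat_lit 13652872)))
(L (nat_lit 12139707)))
(L (nat_lit 11617945)))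
(L (nat_lit 7944100)))
(L (nat_lit 11101328)))
(L (nat_lit 11091034)))
(L (nat_lit 14228636)))
(S (nat_lit 20761) (S (nat_lit 15351) (S (nat_lit 47) (S (nat_lit 20778) (S (nat_lit 21755) (S (nat_lit 40514) (S (nat_lit 64) (S (nat_lit 48301) (S (nat_lit 2019) (S (nat_lit 14085) (S (nat_lit 57954) (S (nat_lit 5203) (L (nat_lit 1426136))
(L (nat_lit 28913922)))
(L (nat_lit 26850658)))
(S (nat_lit 21026) (L (nat_lit 5550713))
(L (nat_lit 21110201))))
(L (nat_lit 5796489)))
(L (nat_lit 12205244)))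
(L (nat_lit 7230478)))
(L (nat_lit 1467606)))
(L (nat_lit 11141561)))
(L (nat_lit 16408868)))
(L (nat_lit 8208965)))
(S (nat_lit 35028) (L (nat_lit 6883151))
(L (nat_lit 285582))))
(S (nat_lit 40525) (S (nat_lit 39542) (S (nat_lit 986) (S (nat_lit 8779) (S (nat_lit 48318) (S (nat_lit 1047) (S (nat_lit 54884) (S (nat_lit 1958) (S (nat_lit 41514) (S (nat_lit 84) (L (nat_lit 3428825))
(S (nat_lit 25300) (S (nat_lit 54809) (L (nat_lit 2309720))
(L (nat_lit 26850629)))
(L (nat_lit 3362637))))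
(L (nat_lit 27732677)))
(L (nat_lit 26814912)))
(L (nat_lit 11646650)))
(L (nat_lit 4924889)))
(L (nat_lit 11101358)))
(L (nat_lit 1653608)))
(L (nat_lit 11081181)))
(S (nat_lit 58701) (L (nat_lit 18548523))
(L (nat_lit 10901380))))
(L (nat_lit 25239061)))))
(S (nat_lit 41472) (S (nat_lit 15323) (S (nat_lit 10960) (S (nat_lit 20736) (S (nat_lit 57088) (L (nat_lit 16534600))
(L (nat_lit 27675842)))
(L (nat_lit 6908045)))
(S (nat_lit 25436) (L (nat_lit 24381325))
(L (nat_lit 576859))))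
(S (nat_lit 35087) (S (nat_lit 2006) (S (nat_lit 39542) (S (nat_lit 35104) (L (nat_lit 24208775))
(L (nat_lit 18636067)))
(L (nat_lit 18077573)))
(L (nat_lit 19805192)))
(S (nat_lit 54851) (S (nat_lit 39542) (S (nat_lit 8779) (S (nat_lit 40818) (L (nat_lit 17506212))
(L (nat_lit 27346570)))
(L (nat_lit 7898994)))
(L (nat_lit 10937988)))
(L (nat_lit 25871466)))))
(L (nat_lit 25341548)))))
(L (nat_lit 25666579)))))
(S (nat_lit 35135) (S (nat_lit 17538) (S (nat_lit 1958) (S (nat_lit 2037) (S (nat_lit 58173) (L (nat_lit 30901833))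
(L (nat_lit 6850391)))
(S (nat_lit 48338) (S (nat_lit 41514) (S (nat_lit 54868) (S (nat_lit 19826) (S (nat_lit 8779) (S (nat_lit 8823) (S (nat_lit 15309) (S (nat_lit 37274) (S (nat_lit 48301) (S (nat_lit 57088) (S (nat_lit 14) (S (nat_lit 21783) (L (nat_lit 6853277))
(S (nat_lit 51868) (L (nat_lit 4630454))
(L (nat_lit 8121827))))
(S (nat_lit 19778) (S (nat_lit 39592) (S (nat_lit 15407) (L (nat_lit 2306931))
(S (nat_lit 50488) (S (nat_lit 21021) (L (nat_lit 11628951))
(L (nat_lit 15070917)))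
(L (nat_lit 20132028))))
(L (nat_lit 27442420)))
(S (nat_lit 39542) (S (nat_lit 57024) (S (nat_lit 35115) (S (nat_lit 19806) (S (nat_lit 54912) (S (nat_lit 54851) (S (nat_lit 21755) (S (nat_lit 35098) (S (nat_lit 47) (S (nat_lit 40564) (S (nat_lit 997) (S (nat_lit 40547) (S (nat_lit 20811) (S (nat_lit 22864) (S (nat_lit 37132) (S (nat_lit 56622) (S (nat_lit 4491) (S (nat_lit 30830) (S (nat_lit 50435) (S (nat_lit 54449) (S (nat_lit 41271) (S (nat_lit 36213) (S (nat_lit 42860) (D (nat_lit 13) (nat_lit 29042796) (nat_lit 9193957) (nat_lit 4466941101063))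
(L (nat_lit 29906178)))
(L (nat_lit 22487843)))
(S (nat_lit 44019) (S (nat_lit 48444) (S (nat_lit 18141) (D (nat_lit 15) (nat_lit 28791141) (nat_lit 11651853) (nat_lit 104226358306))
(L (nat_lit 28781591)))
(L (nat_lit 25082180)))
(L (nat_lit 18645203))))
(L (nat_lit 3522324)))
(L (nat_lit 8933124)))
(L (nat_lit 28855588)))
(L (nat_lit 22298680)))
(L (nat_lit 22986979)))
(L (nat_lit 16085014)))
(S (nat_lit 50167) (S (nat_lit 38369) (S (nat_lit 38349) (S (nat_lit 18616) (S (nat_lit 30414) (S (nat_lit 32029) (S (nat_lit 51583) (S (nat_lit 42190) (D (nat_lit 15) (nat_lit 27861539) (nat_lit 19664266) (nat_lit 38894870786))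
(L (nat_lit 18212545)))
(L (nat_lit 28950721)))
(S (nat_lit 35902) (S (nat_lit 53253) (S (nat_lit 34218) (D (nat_lit 15) (nat_lit 13922912) (nat_lit 6048013) (nat_lit 274884205702))
(L (nat_lit 21474426)))
(L (nat_lit 29047850)))
(L (nat_lit 8109080))))
(L (nat_lit 21538876)))
(L (nat_lit 6338267)))
(L (nat_lit 7370229)))
(L (nat_lit 7397260)))
(S (nat_lit 54826) (S (nat_lit 2377) (S (nat_lit 2421) (S (nat_lit 6402) (S (nat_lit 27255) (S (nat_lit 12979) (S (nat_lit 2360) (S (nat_lit 16982) (S (nat_lit 25939) (S (nat_lit 52005) (D (nat_lit 13) (nat_lit 30050669) (nat_lit 11291171) (nat_lit 7731179161605))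
(L (nat_lit 21473058)))
(L (nat_lit 28825957)))
(S (nat_lit 21043) (S (nat_lit 27984) (S (nat_lit 42190) (D (nat_lit 13) (nat_lit 29966659) (nat_lit 19117240) (nat_lit 2268017660007))
(L (nat_lit 30093636)))
(L (nat_lit 21937474)))
(L (nat_lit 31145220))))
(L (nat_lit 29405431)))
(L (nat_lit 27932964)))
(L (nat_lit 8568596)))
(L (nat_lit 27377291)))
(L (nat_lit 13996818)))
(L (nat_lit 13952578)))
(L (nat_lit 29501068)))))
(L (nat_lit 30955876)))
(L (nat_lit 27952519)))
(L (nat_lit 12875488)))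
(S (nat_lit 43553) (S (nat_lit 53837) (S (nat_lit 22778) (L (nat_lit 3356314))
(L (nat_lit 26854693)))
(L (nat_lit 26853600)))
(L (nat_lit 17575520))))
(L (nat_lit 19199397)))
(L (nat_lit 8440248)))
(L (nat_lit 10972768)))
(L (nat_lit 5793044)))
(L (nat_lit 11293217)))
(L (nat_lit 2794042)))
(L (nat_lit 4105872)))
(L (nat_lit 21228559)))
(L (nat_lit 25219376)))))
(L (nat_lit 27646000)))
(L (nat_lit 11556620)))
(L (nat_lit 10024549)))
(L (nat_lit 26412565)))
(L (nat_lit 26588244)))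
(L (nat_lit 7177623)))
(L (nat_lit 16058107)))
(L (nat_lit 14262147)))
(L (nat_lit 6948685)))
(L (nat_lit 16353099))))
(S (nat_lit 21722) (S (nat_lit 10960) (S (nat_lit 1047) (S (nat_lit 17558) (S (nat_lit 10935) (S (nat_lit 35137) (S (nat_lit 28537) (L (nat_lit 19193967))
(L (nat_lit 18754738)))
(L (nat_lit 9074115)))
(L (nat_lit 6784665)))
(L (nat_lit 7210638)))
(S (nat_lit 24250) (S (nat_lit 39603) (L (nat_lit 27795009))
(L (nat_lit 24666400)))
(L (nat_lit 26510989))))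
(S (nat_lit 30724) (S (nat_lit 1047) (S (nat_lit 57088) (L (nat_lit 9123961))
(L (nat_lit 19735565)))
(S (nat_lit 2091) (L (nat_lit 1982087))
(L (nat_lit 11208185))))
(S (nat_lit 50488) (S (nat_lit 10935) (S (nat_lit 17558) (S (nat_lit 57055) (L (nat_lit 1712013))
(L (nat_lit 10573244)))
(L (nat_lit 15900564)))
(S (nat_lit 19647) (L (nat_lit 12688025))
(L (nat_lit 727545))))
(L (nat_lit 25377379)))))
(S (nat_lit 41486) (S (nat_lit 1262) (S (nat_lit 40547) (S (nat_lit 37260) (L (nat_lit 14589568))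
(L (nat_lit 23109178)))
(L (nat_lit 27761815)))
(S (nat_lit 21026) (S (nat_lit 17558) (S (nat_lit 50494) (S (nat_lit 40547) (L (nat_lit 15867544))
(L (nat_lit 18652771)))
(L (nat_lit 6004624)))
(L (nat_lit 22945220)))
(S (nat_lit 40790) (S (nat_lit 40575) (S (nat_lit 39590) (L (nat_lit 17538233))
(L (nat_lit 23240528)))
(L (nat_lit 18685604)))
(L (nat_lit 25362871)))))
(L (nat_lit 25765937)))))
(S (nat_lit 37302) (S (nat_lit 986) (S (nat_lit 22400) (L (nat_lit 3896842))
(S (nat_lit 54884) (S (nat_lit 20732) (L (nat_lit 8502936))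
(S (nat_lit 57024) (S (nat_lit 48351) (S (nat_lit 37285) (S (nat_lit 41503) (S (nat_lit 30763) (S (nat_lit 40774) (L (nat_lit 16978553))
(L (nat_lit 10122689)))
(L (nat_lit 3634825)))
(L (nat_lit 23999626)))
(L (nat_lit 9310675)))
(L (nat_lit 14280960)))
(L (nat_lit 19459265))))
(L (nat_lit 19161103))))
(S (nat_lit 20750) (S (nat_lit 1279) (S (nat_lit 997) (S (nat_lit 50488) (L (nat_lit 1333039))
(L (nat_lit 19947977)))
(L (nat_lit 13403380)))
(S (nat_lit 21043) (S (nat_lit 21479) (S (nat_lit 40564) (L (nat_lit 16853593))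
(L (nat_lit 23107996)))
(L (nat_lit 16601256)))
(S (nat_lit 40807) (S (nat_lit 15340) (S (nat_lit 10935) (L (nat_lit 748999))
(L (nat_lit 15735449)))
(S (nat_lit 34967) (L (nat_lit 30481070))
(L (nat_lit 26301745))))
(L (nat_lit 25417121)))))
(S (nat_lit 40514) (S (nat_lit 10999) (S (nat_lit 40531) (S (nat_lit 37322) (S (nat_lit 10935) (S (nat_lit 50167) (L (nat_lit 14854813))
(L (nat_lit 1884807)))
(L (nat_lit 17850580)))
(L (nat_lit 30875268)))
(L (nat_lit 10130223)))
(S (nat_lit 30763) (S (nat_lit 19839) (S (nat_lit 37285) (S (nat_lit 20798) (S (nat_lit 40531) (L (nat_lit 24275398))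
(L (nat_lit 10275264)))
(L (nat_lit 31140355)))
(L (nat_lit 9949368)))
(S (nat_lit 20487) (S (nat_lit 21490) (L (nat_lit 10074945))
(L (nat_lit 30824640)))
(L (nat_lit 9278092))))
(S (nat_lit 50527) (S (nat_lit 41486) (S (nat_lit 1715) (L (nat_lit 28725257))
(L (nat_lit 10257041)))
(L (nat_lit 18783874)))
(L (nat_lit 25633847)))))
(L (nat_lit 25570945)))))
(S (nat_lit 57066) (S (nat_lit 42) (S (nat_lit 15309) (S (nat_lit 15384) (S (nat_lit 15351) (S (nat_lit 40514) (S (nat_lit 10935) (S (nat_lit 21739) (L (nat_lit 16650453))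
(L (nat_lit 7826049)))
(L (nat_lit 7013169)))
(L (nat_lit 7795329)))
(L (nat_lit 17502087)))
(L (nat_lit 16962375)))
(S (nat_lit 35073) (S (nat_lit 40547) (S (nat_lit 50494) (S (nat_lit 1262) (L (nat_lit 12776007))
(L (nat_lit 3841436)))
(L (nat_lit 20847693)))
(L (nat_lit 8280481)))
(S (nat_lit 54837) (S (nat_lit 35120) (S (nat_lit 50494) (S (nat_lit 50488) (S (nat_lit 1969) (L (nat_lit 19164548))
(L (nat_lit 19666959)))
(L (nat_lit 22221581)))
(L (nat_lit 14943833)))
(S (nat_lit 52621) (L (nat_lit 30482933))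
(L (nat_lit 23335759))))
(L (nat_lit 25409591)))))
(S (nat_lit 19806) (S (nat_lit 1958) (S (nat_lit 35098) (S (nat_lit 37307) (S (nat_lit 2019) (S (nat_lit 64) (S (nat_lit 35115) (S (nat_lit 28576) (S (nat_lit 21755) (S (nat_lit 17527) (S (nat_lit 1975) (S (nat_lit 10823) (L (nat_lit 8536696))
(S (nat_lit 50452) (S (nat_lit 30101) (S (nat_lit 29129) (L (nat_lit 3356250))
(L (nat_lit 26817826)))
(L (nat_lit 26817861)))
(L (nat_lit 19014044))))
(L (nat_lit 20165476)))
(L (nat_lit 7454582)))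
(L (nat_lit 30906946)))
(L (nat_lit 10274833)))
(L (nat_lit 10024577)))
(L (nat_lit 20287247)))
(L (nat_lit 10207288)))
(L (nat_lit 10172443)))
(S (nat_lit 52584) (L (nat_lit 3372685))
(L (nat_lit 3391133))))
(S (nat_lit 16689) (S (nat_lit 17175) (L (nat_lit 9528759))
(L (nat_lit 3986672)))
(L (nat_lit 10277936))))
(S (nat_lit 39570) (S (nat_lit 1776) (S (nat_lit 40785) (L (nat_lit 14570785))
(L (nat_lit 23267149)))
(S (nat_lit 21540) (S (nat_lit 40531) (S (nat_lit 39590) (L (nat_lit 24382353))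
(L (nat_lit 23593802)))
(S (nat_lit 52122) (L (nat_lit 4961627))
(L (nat_lit 17615019))))
(S (nat_lit 41304) (S (nat_lit 40575) (S (nat_lit 50463) (L (nat_lit 8160755))
(L (nat_lit 11043483)))
(L (nat_lit 18580859)))
(L (nat_lit 25379492)))))
(L (nat_lit 25857389)))))
(L (nat_lit 25895057)))))
(S (nat_lit 54899) (S (nat_lit 17510) (S (nat_lit 15384) (S (nat_lit 1763) (S (nat_lit 30763) (S (nat_lit 1246) (S (nat_lit 30746) (S (nat_lit 57049) (L (nat_lit 17535752))
(L (nat_lit 12050614)))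
(L (nat_lit 24230795)))
(L (nat_lit 14502022)))
(S (nat_lit 53733) (L (nat_lit 10663548))
(L (nat_lit 24261853))))
(S (nat_lit 21527) (S (nat_lit 1631) (L (nat_lit 3913016))
(S (nat_lit 20800) (S (nat_lit 37307) (S (nat_lit 30730) (L (nat_lit 17870425))
(L (nat_lit 17367352)))
(L (nat_lit 30937771)))
(L (nat_lit 30463398))))
(S (nat_lit 41291) (S (nat_lit 1014) (S (nat_lit 30713) (S (nat_lit 2019) (L (nat_lit 14396474))
(L (nat_lit 19437624)))
(L (nat_lit 30451221)))
(S (nat_lit 52781) (L (nat_lit 10548942))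
(L (nat_lit 12594904))))
(L (nat_lit 25446512)))))
(S (nat_lit 35148) (S (nat_lit 11010) (S (nat_lit 27213) (L (nat_lit 7916449))
(S (nat_lit 28587) (S (nat_lit 40562) (S (nat_lit 997) (L (nat_lit 24540199))
(L (nat_lit 12940340)))
(L (nat_lit 10243585)))
(L (nat_lit 18009402))))
(S (nat_lit 30774) (S (nat_lit 39553) (S (nat_lit 8790) (S (nat_lit 10982) (L (nat_lit 2379694))
(L (nat_lit 1911502)))
(L (nat_lit 6712468)))
(L (nat_lit 17883508)))
(S (nat_lit 50538) (S (nat_lit 21529) (S (nat_lit 21043) (L (nat_lit 4421140))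
(L (nat_lit 1617812)))
(L (nat_lit 7903124)))
(L (nat_lit 25571040)))))
(S (nat_lit 54912) (S (nat_lit 10949) (S (nat_lit 986) (S (nat_lit 1003) (S (nat_lit 50525) (L (nat_lit 9196654))
(L (nat_lit 11136142)))
(L (nat_lit 19073870)))
(S (nat_lit 25753) (L (nat_lit 5828298))
(L (nat_lit 13407879))))
(S (nat_lit 30713) (S (nat_lit 39590) (S (nat_lit 40562) (L (nat_lit 28030059))
(L (nat_lit 24982631)))
(L (nat_lit 23410500)))
(S (nat_lit 50477) (S (nat_lit 20979) (S (nat_lit 21465) (L (nat_lit 20985084))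
(L (nat_lit 5617491)))
(L (nat_lit 11712339)))
(L (nat_lit 25903365)))))
(L (nat_lit 25512048)))))
(S (nat_lit 37274) (S (nat_lit 15356) (S (nat_lit 10977) (S (nat_lit 50538) (S (nat_lit 40774) (S (nat_lit 41260) (L (nat_lit 1324765))
(L (nat_lit 27955658)))
(L (nat_lit 27961796)))
(L (nat_lit 6105620)))
(S (nat_lit 30741) (S (nat_lit 17558) (S (nat_lit 40774) (L (nat_lit 31065391))
(L (nat_lit 17888628)))
(L (nat_lit 18423684)))
(S (nat_lit 50505) (S (nat_lit 1279) (L (nat_lit 11616052))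
(L (nat_lit 9310612)))
(L (nat_lit 25595222)))))
(S (nat_lit 35120) (S (nat_lit 1748) (S (nat_lit 1958) (S (nat_lit 997) (S (nat_lit 1014) (S (nat_lit 19789) (S (nat_lit 57024) (S (nat_lit 40500) (S (nat_lit 21490) (S (nat_lit 54862) (S (nat_lit 48301) (S (nat_lit 41260) (S (nat_lit 21004) (S (nat_lit 40547) (S (nat_lit 57088) (S (nat_lit 20811) (S (nat_lit 30774) (S (nat_lit 39603) (S (nat_lit 26012) (S (nat_lit 42561) (S (nat_lit 21507) (S (nat_lit 4120) (S (nat_lit 58197) (S (nat_lit 49379) (S (nat_lit 4776) (S (nat_lit 55438) (S (nat_lit 57457) (D (nat_lit 13) (nat_lit 30092772) (nat_lit 19063088) (nat_lit 6671232573608))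
(L (nat_lit 29998249)))
(L (nat_lit 9328034)))
(L (nat_lit 27659974)))
(L (nat_lit 4083239)))
(L (nat_lit 29996387)))
(S (nat_lit 44525) (S (nat_lit 58703) (S (nat_lit 10549) (S (nat_lit 35433) (S (nat_lit 40637) (D (nat_lit 13) (nat_lit 29961602) (nat_lit 19054345) (nat_lit 2378441164993))
(L (nat_lit 19738880)))
(L (nat_lit 29040782)))
(L (nat_lit 28396999)))
(L (nat_lit 20345862)))
(L (nat_lit 1813420))))
(L (nat_lit 7832370)))
(L (nat_lit 19097092)))
(L (nat_lit 20841838)))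
(L (nat_lit 23938336)))
(L (nat_lit 4041236)))
(L (nat_lit 30514829)))
(L (nat_lit 12409315)))
(L (nat_lit 10094512)))
(L (nat_lit 6909007)))
(L (nat_lit 18060180)))
(L (nat_lit 12205890)))
(L (nat_lit 12238658)))
(L (nat_lit 21890255)))
(L (nat_lit 9893476)))
(L (nat_lit 19100689)))
(L (nat_lit 30432777)))
(L (nat_lit 19249209)))
(L (nat_lit 20252559)))
(L (nat_lit 9551703)))
(S (nat_lit 21512) (S (nat_lit 41534) (S (nat_lit 997) (S (nat_lit 17558) (S (nat_lit 21054) (S (nat_lit 10977) (S (nat_lit 17538) (S (nat_lit 54879) (S (nat_lit 40743) (S (nat_lit 19789) (S (nat_lit 20993) (S (nat_lit 41271) (S (nat_lit 21708) (S (nat_lit 24839) (S (nat_lit 19826) (S (nat_lit 23107) (S (nat_lit 49865) (S (nat_lit 56669) (S (nat_lit 19186) (D (nat_lit 11) (nat_lit 31003083) (nat_lit 25545219) (nat_lit 106438958151))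
(L (nat_lit 30026114)))
(L (nat_lit 10373664)))
(L (nat_lit 10374689)))
(S (nat_lit 51413) (S (nat_lit 31660) (S (nat_lit 38464) (S (nat_lit 35939) (D (nat_lit 11) (nat_lit 29008046) (nat_lit 19259843) (nat_lit 35641138311))
(L (nat_lit 28901895)))
(L (nat_lit 9293249)))
(L (nat_lit 9292224)))
(L (nat_lit 5724536))))
(L (nat_lit 16075931)))
(L (nat_lit 17914169)))
(L (nat_lit 22197129)))
(L (nat_lit 9213459)))
(L (nat_lit 30672528)))
(L (nat_lit 9454301)))
(L (nat_lit 23401883)))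
(L (nat_lit 11416129)))
(L (nat_lit 22286223)))
(L (nat_lit 15994772)))
(L (nat_lit 31146122)))
(L (nat_lit 24577930)))
(L (nat_lit 2442132)))
(L (nat_lit 9195008)))
(S (nat_lit 41276) (S (nat_lit 40547) (S (nat_lit 48338) (S (nat_lit 15340) (S (nat_lit 30713) (S (nat_lit 2790) (S (nat_lit 57024) (S (nat_lit 47) (S (nat_lit 30730) (S (nat_lit 1014) (S (nat_lit 1246) (S (nat_lit 44086) (S (nat_lit 30774) (S (nat_lit 4851) (S (nat_lit 19806) (S (nat_lit 20979) (S (nat_lit 21456) (S (nat_lit 11636) (S (nat_lit 50125) (S (nat_lit 39659) (S (nat_lit 55893) (D (nat_lit 13) (nat_lit 31064550) (nat_lit 25280075) (nat_lit 3510199389416))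
(L (nat_lit 14808682)))
(L (nat_lit 3037642)))
(L (nat_lit 15550785)))
(L (nat_lit 29964640)))
(S (nat_lit 35204) (S (nat_lit 44972) (S (nat_lit 51376) (S (nat_lit 19387) (S (nat_lit 21940) (D (nat_lit 13) (nat_lit 25855183) (nat_lit 19672175) (nat_lit 38923206853))
(L (nat_lit 15585635)))
(L (nat_lit 31033831)))
(L (nat_lit 19771398)))
(L (nat_lit 28914978)))
(L (nat_lit 12283268))))
(L (nat_lit 30690725)))
(L (nat_lit 8517139)))
(L (nat_lit 30891079)))
(L (nat_lit 2578182)))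
(L (nat_lit 8881973)))
(L (nat_lit 13295812)))
(L (nat_lit 18902538)))
(L (nat_lit 24189709)))
(L (nat_lit 13439223)))
(L (nat_lit 18902255)))
(L (nat_lit 9045776)))
(L (nat_lit 8975941)))
(L (nat_lit 24970513)))
(L (nat_lit 11339375)))
(L (nat_lit 17997432)))
(L (nat_lit 25347382)))))
(S (nat_lit 54884) (S (nat_lit 29416) (S (nat_lit 47) (L (nat_lit 2313752))
(L (nat_lit 19166628)))
(S (nat_lit 30730) (S (nat_lit 47) (S (nat_lit 48301) (S (nat_lit 15323) (S (nat_lit 1958) (S (nat_lit 57088) (L (nat_lit 9329028))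
(L (nat_lit 27636755)))
(L (nat_lit 13215805)))
(L (nat_lit 806282)))
(L (nat_lit 19982668)))
(S (nat_lit 21914) (L (nat_lit 15805081))
(L (nat_lit 1766826))))
(L (nat_lit 8913682))))
(L (nat_lit 25792717)))))
(S (nat_lit 57038) (S (nat_lit 986) (S (nat_lit 10935) (S (nat_lit 1290) (L (nat_lit 8815257))
(L (nat_lit 11043481)))
(S (nat_lit 30699) (S (nat_lit 21529) (S (nat_lit 1743) (L (nat_lit 9584280))
(L (nat_lit 9929433)))
(L (nat_lit 7885632)))
(S (nat_lit 50463) (S (nat_lit 1240) (S (nat_lit 21529) (S (nat_lit 1726) (S (nat_lit 54912) (L (nat_lit 5086926))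
(L (nat_lit 13997973)))
(L (nat_lit 9526159)))
(L (nat_lit 14720916)))
(S (nat_lit 25292) (S (nat_lit 50488) (L (nat_lit 5662441))
(L (nat_lit 20134723)))
(L (nat_lit 20251534))))
(L (nat_lit 25892881)))))
(S (nat_lit 20750) (S (nat_lit 1279) (S (nat_lit 1748) (S (nat_lit 41497) (S (nat_lit 30774) (L (nat_lit 12390836))
(L (nat_lit 4045383)))
(L (nat_lit 18455300)))
(L (nat_lit 14490211)))
(S (nat_lit 21043) (S (nat_lit 4615) (L (nat_lit 12284387))
(S (nat_lit 50538) (S (nat_lit 997) (L (nat_lit 30999885))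
(L (nat_lit 13961108)))
(L (nat_lit 4598676))))
(S (nat_lit 40807) (S (nat_lit 17558) (S (nat_lit 41254) (S (nat_lit 41293) (L (nat_lit 20017671))
(L (nat_lit 7092372)))
(L (nat_lit 18188116)))
(L (nat_lit 18188180)))
(L (nat_lit 25187750)))))
(S (nat_lit 40514) (S (nat_lit 1262) (S (nat_lit 12834) (L (nat_lit 10981980))
(S (nat_lit 21004) (S (nat_lit 30730) (S (nat_lit 1765) (L (nat_lit 13174569))
(L (nat_lit 19406597)))
(L (nat_lit 19406595)))
(L (nat_lit 30580431))))
(S (nat_lit 21026) (S (nat_lit 20835) (L (nat_lit 3726219))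
(S (nat_lit 40500) (S (nat_lit 21043) (S (nat_lit 28574) (L (nat_lit 17832820))
(L (nat_lit 30835306)))
(L (nat_lit 30934356)))
(L (nat_lit 17394948))))
(S (nat_lit 40790) (S (nat_lit 41547) (S (nat_lit 57055) (S (nat_lit 41271) (L (nat_lit 12845720))
(L (nat_lit 23076684)))
(L (nat_lit 18947984)))
(L (nat_lit 18586405)))
(L (nat_lit 25216585)))))
(L (nat_lit 25246071)))))
(L (nat_lit 25365938)))))
(L (nat_lit 25337485)))))
(S (nat_lit 48323) (S (nat_lit 15309) (S (nat_lit 1279) (S (nat_lit 17558) (S (nat_lit 21490) (S (nat_lit 30761) (S (nat_lit 997) (S (nat_lit 10935) (S (nat_lit 57066) (S (nat_lit 40547) (S (nat_lit 40757) (S (nat_lit 41271) (S (nat_lit 35135) (S (nat_lit 41514) (S (nat_lit 20811) (S (nat_lit 40562) (S (nat_lit 49730) (S (nat_lit 1246) (S (nat_lit 54901) (S (nat_lit 19811) (S (nat_lit 18338) (S (nat_lit 11158) (S (nat_lit 4337) (S (nat_lit 55966) (S (nat_lit 17235) (S (nat_lit 31360) (D (nat_lit 13) (nat_lit 27933921) (nat_lit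 14231301) (nat_lit 139626450182))
(L (nat_lit 21492811)))
(L (nat_lit 31081547)))
(L (nat_lit 28982411)))
(L (nat_lit 31081728)))
(S (nat_lit 22629) (S (nat_lit 31784) (S (nat_lit 47976) (S (nat_lit 35055) (S (nat_lit 52129) (S (nat_lit 44744) (D (nat_lit 13) (nat_lit 15519878) (nat_lit 10969667) (nat_lit 3542477937736))
(L (nat_lit 29008385)))
(L (nat_lit 19105645)))
(L (nat_lit 7195696)))
(L (nat_lit 19776707)))
(L (nat_lit 28916931)))
(L (nat_lit 30049648))))
(L (nat_lit 28526276)))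
(L (nat_lit 22810865)))
(L (nat_lit 11292099)))
(L (nat_lit 6147439)))
(L (nat_lit 24917221)))
(L (nat_lit 23377665)))
(L (nat_lit 30639756)))
(L (nat_lit 27401778)))
(L (nat_lit 13179685)))
(L (nat_lit 1987852)))
(L (nat_lit 23332656)))
(L (nat_lit 23889168)))
(L (nat_lit 6078837)))
(L (nat_lit 23889446)))
(L (nat_lit 11306702)))
(L (nat_lit 24937838)))
(L (nat_lit 11405038)))
(L (nat_lit 25036142)))
(S (nat_lit 21043) (S (nat_lit 30761) (S (nat_lit 17558) (S (nat_lit 54868) (S (nat_lit 10935) (S (nat_lit 19778) (S (nat_lit 40547) (S (nat_lit 41276) (S (nat_lit 19826) (S (nat_lit 35135) (S (nat_lit 50494) (S (nat_lit 1765) (S (nat_lit 1036) (S (nat_lit 40514) (S (nat_lit 21004) (S (nat_lit 57099) (S (nat_lit 20736) (S (nat_lit 40743) (S (nat_lit 28947) (S (nat_lit 39553) (S (nat_lit 28554) (S (nat_lit 45506) (S (nat_lit 31877) (S (nat_lit 12762) (S (nat_lit 5428) (S (nat_lit 15455) (D (nat_lit 13) (nat_lit 27863456) (nat_lit 25767023) (nat_lit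 6673580300320))
(L (nat_lit 27865316)))
(L (nat_lit 28821760)))
(L (nat_lit 29079691)))
(L (nat_lit 9362880)))
(S (nat_lit 46295) (S (nat_lit 55723) (S (nat_lit 17478) (S (nat_lit 3566) (S (nat_lit 11143) (D (nat_lit 13) (nat_lit 31007105) (nat_lit 25764977) (nat_lit 3338400959552))
(L (nat_lit 31013091)))
(L (nat_lit 29903168)))
(L (nat_lit 29957573)))
(L (nat_lit 15550661)))
(L (nat_lit 16508259))))
(L (nat_lit 13378742)))
(L (nat_lit 23500124)))
(L (nat_lit 27840550)))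
(L (nat_lit 8230323)))
(L (nat_lit 15814474)))
(L (nat_lit 4799367)))
(L (nat_lit 5119695)))
(L (nat_lit 2019783)))
(L (nat_lit 4927279)))
(L (nat_lit 4926255)))
(L (nat_lit 22452348)))
(L (nat_lit 30901588)))
(L (nat_lit 31130993)))
(L (nat_lit 6948248)))
(L (nat_lit 7996824)))
(L (nat_lit 30654084)))
(L (nat_lit 21529816)))
(L (nat_lit 21530504)))
(L (nat_lit 22349710)))
(L (nat_lit 31098190)))
(S (nat_lit 40807) (S (nat_lit 17558) (S (nat_lit 10999) (S (nat_lit 9962) (S (nat_lit 41254) (L (nat_lit 13895352))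
(L (nat_lit 8980025)))
(S (nat_lit 21479) (S (nat_lit 41254) (S (nat_lit 40562) (L (nat_lit 1359670))
(L (nat_lit 24360769)))
(L (nat_lit 1663246)))
(L (nat_lit 8279521))))
(S (nat_lit 30763) (S (nat_lit 57024) (S (nat_lit 10935) (S (nat_lit 21496) (L (nat_lit 22080753))
(L (nat_lit 7367157)))
(L (nat_lit 26466353)))
(L (nat_lit 27270645)))
(S (nat_lit 50527) (S (nat_lit 19778) (S (nat_lit 30761) (S (nat_lit 10935) (S (nat_lit 41254) (S (nat_lit 40547) (S (nat_lit 1290) (S (nat_lit 54862) (S (nat_lit 57066) (S (nat_lit 41293) (S (nat_lit 41514) (S (nat_lit 41260) (S (nat_lit 1991) (S (nat_lit 1743) (S (nat_lit 9959) (S (nat_lit 42) (S (nat_lit 28554) (S (nat_lit 49230) (S (nat_lit 39330) (S (nat_lit 12336) (S (nat_lit 15716) (S (nat_lit 36434) (D (nat_lit 15) (nat_lit 25800901) (nat_lit 13378115) (nat_lit 210729175110))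
(L (nat_lit 28902919)))
(L (nat_lit 30660099)))
(S (nat_lit 35782) (S (nat_lit 50655) (S (nat_lit 26517) (D (nat_lit 15) (nat_lit 12847027) (nat_lit 3421784) (nat_lit 137442104579))
(L (nat_lit 27775234)))
(L (nat_lit 24669444)))
(L (nat_lit 22853923))))
(L (nat_lit 13539445)))
(L (nat_lit 7005634)))
(L (nat_lit 9834356)))
(L (nat_lit 905735)))
(L (nat_lit 31032527)))
(L (nat_lit 10342508)))
(L (nat_lit 26564992)))
(L (nat_lit 27439754)))
(L (nat_lit 840201)))
(L (nat_lit 8447380)))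
(L (nat_lit 21794246)))
(L (nat_lit 6008313)))
(L (nat_lit 4079826)))
(L (nat_lit 27952519)))
(L (nat_lit 17391872)))
(L (nat_lit 21764577)))
(L (nat_lit 31097166)))
(L (nat_lit 16360357)))
(L (nat_lit 25348649)))))
(L (nat_lit 6948750)))
(L (nat_lit 25186726)))))
(S (nat_lit 35073) (S (nat_lit 10949) (S (nat_lit 64) (S (nat_lit 1763) (S (nat_lit 1246) (L (nat_lit 8270901))
(L (nat_lit 19085121)))
(S (nat_lit 21527) (S (nat_lit 40774) (S (nat_lit 15334) (L (nat_lit 4738268))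
(L (nat_lit 1264058)))
(L (nat_lit 27473537)))
(S (nat_lit 41291) (S (nat_lit 21010) (S (nat_lit 17527) (S (nat_lit 1732) (L (nat_lit 22552417))
(L (nat_lit 18884430)))
(L (nat_lit 6838082)))
(L (nat_lit 21182369)))
(L (nat_lit 25896049)))))
(S (nat_lit 19828) (S (nat_lit 15371) (S (nat_lit 1941) (L (nat_lit 12452372))
(S (nat_lit 41304) (S (nat_lit 10997) (S (nat_lit 17558) (S (nat_lit 20800) (S (nat_lit 21010) (L (nat_lit 21142938))
(L (nat_lit 15954564)))
(L (nat_lit 22916517)))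
(L (nat_lit 22939083)))
(L (nat_lit 21895620)))
(L (nat_lit 24381325))))
(S (nat_lit 35135) (S (nat_lit 40547) (S (nat_lit 28485) (L (nat_lit 23126535))
(L (nat_lit 7112212)))
(L (nat_lit 18211393)))
(S (nat_lit 54899) (S (nat_lit 20800) (S (nat_lit 40805) (S (nat_lit 41291) (L (nat_lit 2323020))
(L (nat_lit 27314694)))
(L (nat_lit 27511296)))
(S (nat_lit 40900) (L (nat_lit 8120773))
(L (nat_lit 12294030))))
(L (nat_lit 25756074)))))
(S (nat_lit 39592) (S (nat_lit 48290) (S (nat_lit 21739) (S (nat_lit 21733) (S (nat_lit 35115) (S (nat_lit 75) (S (nat_lit 10982) (S (nat_lit 15373) (S (nat_lit 28554) (S (nat_lit 42) (S (nat_lit 15340) (S (nat_lit 54884) (S (nat_lit 54899) (S (nat_lit 50505) (S (nat_lit 41472) (S (nat_lit 41547) (S (nat_lit 50463) (S (nat_lit 19778) (S (nat_lit 30724) (S (nat_lit 30763) (S (nat_lit 30730) (S (nat_lit 8812) (S (nat_lit 8779) (S (nat_lit 20778) (S (nat_lit 37285) (S (nat_lit 17543) (S (nat_lit 20736) (S (nat_lit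 20811) (S (nat_lit 57099) (S (nat_lit 40562) (S (nat_lit 4094) (S (nat_lit 23632) (S (nat_lit 11870) (S (nat_lit 55933) (S (nat_lit 49372) (S (nat_lit 21447) (S (nat_lit 157) (S (nat_lit 4515) (S (nat_lit 16374) (D (nat_lit 13) (nat_lit 28027981) (nat_lit 25763363) (nat_lit 7703026142403))
(L (nat_lit 27548194)))
(L (nat_lit 28001600)))
(S (nat_lit 48665) (S (nat_lit 5521) (S (nat_lit 43509) (D (nat_lit 15) (nat_lit 31007889) (nat_lit 25761037) (nat_lit 103287984257))
(L (nat_lit 28919011)))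
(L (nat_lit 31047691)))
(L (nat_lit 21361090))))
(L (nat_lit 27825458)))
(L (nat_lit 3732134)))
(L (nat_lit 3732102)))
(L (nat_lit 20028300)))
(L (nat_lit 19001834)))
(S (nat_lit 30320) (S (nat_lit 49858) (S (nat_lit 11384) (S (nat_lit 36920) (S (nat_lit 40664) (S (nat_lit 21651) (S (nat_lit 57020) (S (nat_lit 23827) (D (nat_lit 13) (nat_lit 10242468) (nat_lit 11290801) (nat_lit 4647430521856))
(L (nat_lit 18997642)))
(L (nat_lit 26816773)))
(S (nat_lit 44795) (S (nat_lit 5521) (S (nat_lit 43509) (D (nat_lit 15) (nat_lit 31007889) (nat_lit 25761192) (nat_lit 103287984257))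
(L (nat_lit 28919011)))
(L (nat_lit 31047877)))
(L (nat_lit 29991459))))
(L (nat_lit 2018695)))
(L (nat_lit 18915215)))
(L (nat_lit 30676652)))
(L (nat_lit 28645036)))
(S (nat_lit 44744) (S (nat_lit 52387) (S (nat_lit 206) (S (nat_lit 5503) (S (nat_lit 2412) (S (nat_lit 13071) (S (nat_lit 54687) (S (nat_lit 1732) (S (nat_lit 58204) (S (nat_lit 24587) (D (nat_lit 11) (nat_lit 15619112) (nat_lit 5555800) (nat_lit 274878110976))
(L (nat_lit 27697175)))
(L (nat_lit 29995268)))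
(S (nat_lit 32396) (S (nat_lit 6057) (D (nat_lit 13) (nat_lit 1922503) (nat_lit 17948882) (nat_lit 6837595480163))
(L (nat_lit 30875200)))
(L (nat_lit 12234939))))
(L (nat_lit 28779201)))
(L (nat_lit 31016261)))
(L (nat_lit 13994803)))
(L (nat_lit 16905862)))
(L (nat_lit 17061796)))
(L (nat_lit 17069732)))
(L (nat_lit 16411841)))))
(L (nat_lit 28029153)))
(L (nat_lit 12915509)))
(L (nat_lit 31163848)))
(L (nat_lit 30854282)))
(L (nat_lit 22919365)))
(L (nat_lit 31177059)))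
(S (nat_lit 36949) (S (nat_lit 16261) (S (nat_lit 15775) (L (nat_lit 25336214))
(L (nat_lit 16388475)))
(L (nat_lit 16394427)))
(L (nat_lit 5960940))))
(L (nat_lit 21830764)))
(L (nat_lit 21898284)))
(L (nat_lit 19405944)))
(L (nat_lit 19275805)))
(L (nat_lit 24131960)))
(L (nat_lit 30660037)))
(L (nat_lit 14877556)))
(L (nat_lit 6875781)))
(L (nat_lit 6409069)))
(L (nat_lit 20221341)))
(L (nat_lit 5675860)))
(L (nat_lit 5662932)))
(L (nat_lit 8062362)))
(L (nat_lit 290355)))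
(L (nat_lit 19139438)))
(L (nat_lit 8269878)))
(L (nat_lit 16624693)))
(L (nat_lit 6845057)))
(L (nat_lit 18778485)))
(L (nat_lit 5128469)))
(L (nat_lit 22276238)))
(S (nat_lit 52977) (L (nat_lit 6116871))
(L (nat_lit 13832085))))
(L (nat_lit 25901250)))))
(S (nat_lit 30713) (S (nat_lit 1776) (S (nat_lit 1257) (S (nat_lit 57024) (S (nat_lit 54862) (S (nat_lit 40547) (S (nat_lit 37274) (S (nat_lit 21512) (L (nat_lit 29907301))
(L (nat_lit 30901832)))
(L (nat_lit 30622405)))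
(L (nat_lit 24479128)))
(L (nat_lit 13847363)))
(L (nat_lit 12809952)))
(L (nat_lit 19072909)))
(S (nat_lit 21540) (S (nat_lit 40547) (S (nat_lit 40785) (S (nat_lit 37274) (S (nat_lit 37324) (L (nat_lit 28528653))
(L (nat_lit 17605683)))
(L (nat_lit 2311092)))
(L (nat_lit 27461325)))
(L (nat_lit 27461047)))
(S (nat_lit 41304) (S (nat_lit 21021) (S (nat_lit 40547) (S (nat_lit 54862) (S (nat_lit 37324) (S (nat_lit 20767) (L (nat_lit 20383561))
(L (nat_lit 215983)))
(L (nat_lit 13983763)))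
(L (nat_lit 27278707)))
(L (nat_lit 27461015)))
(L (nat_lit 21170029)))
(L (nat_lit 25893316)))))
(S (nat_lit 50477) (S (nat_lit 10935) (S (nat_lit 10960) (S (nat_lit 9926) (L (nat_lit 1259164))
(S (nat_lit 21496) (S (nat_lit 41304) (L (nat_lit 14734584))
(L (nat_lit 23282562)))
(L (nat_lit 15755943))))
(S (nat_lit 30724) (S (nat_lit 39542) (S (nat_lit 41534) (S (nat_lit 28543) (S (nat_lit 15323) (L (nat_lit 9035857))
(L (nat_lit 6309501)))
(L (nat_lit 9995864)))
(L (nat_lit 16796890)))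
(L (nat_lit 27481540)))
(S (nat_lit 50488) (S (nat_lit 26953) (L (nat_lit 12475904))
(S (nat_lit 57038) (S (nat_lit 21026) (L (nat_lit 1271438))
(L (nat_lit 22219193)))
(L (nat_lit 10515054))))
(L (nat_lit 25661810)))))
(S (nat_lit 30699) (S (nat_lit 1732) (S (nat_lit 1277) (S (nat_lit 54912) (S (nat_lit 54851) (L (nat_lit 15747385))
(L (nat_lit 27479428)))
(L (nat_lit 5595541)))
(L (nat_lit 18887559)))
(S (nat_lit 21496) (S (nat_lit 40805) (S (nat_lit 40547) (S (nat_lit 17510) (L (nat_lit 5500623))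
(L (nat_lit 6318516)))
(L (nat_lit 27280999)))
(L (nat_lit 27281959)))
(S (nat_lit 41260) (S (nat_lit 21041) (S (nat_lit 57038) (L (nat_lit 9450106))
(L (nat_lit 14913428)))
(L (nat_lit 20984679)))
(L (nat_lit 25177589)))))
(S (nat_lit 50463) (S (nat_lit 42) (S (nat_lit 54756) (S (nat_lit 15390) (L (nat_lit 17434443))
(L (nat_lit 9484984)))
(S (nat_lit 57024) (S (nat_lit 40547) (S (nat_lit 54899) (S (nat_lit 48338) (S (nat_lit 997) (S (nat_lit 21739) (L (nat_lit 21496061))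
(L (nat_lit 22521764)))
(L (nat_lit 20751877)))
(L (nat_lit 12027669)))
(L (nat_lit 12027732)))
(L (nat_lit 27958689)))
(L (nat_lit 12781429))))
(S (nat_lit 19806) (S (nat_lit 2624) (L (nat_lit 30751425))
(S (nat_lit 10982) (S (nat_lit 21783) (S (nat_lit 30774) (L (nat_lit 10980178))
(L (nat_lit 10271297)))
(L (nat_lit 22219228)))
(L (nat_lit 15995548))))
(S (nat_lit 39570) (S (nat_lit 75) (S (nat_lit 62) (S (nat_lit 21043) (S (nat_lit 21529) (L (nat_lit 26779201))
(L (nat_lit 16483210)))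
(L (nat_lit 16489348)))
(L (nat_lit 8290838)))
(S (nat_lit 19839) (S (nat_lit 11010) (S (nat_lit 41503) (S (nat_lit 8790) (S (nat_lit 1969) (L (nat_lit 23359535))
(L (nat_lit 12370005)))
(L (nat_lit 1952231)))
(L (nat_lit 27964455)))
(L (nat_lit 21459201)))
(S (nat_lit 39603) (S (nat_lit 40547) (S (nat_lit 57024) (S (nat_lit 41243) (L (nat_lit 17030913))
(L (nat_lit 1948326)))
(L (nat_lit 13475553)))
(L (nat_lit 27958689)))
(L (nat_lit 25695507)))))
(L (nat_lit 25862657)))))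
(L (nat_lit 25396790)))))
(L (nat_lit 25726698)))))
(S (nat_lit 54837) (S (nat_lit 8779) (S (nat_lit 8790) (S (nat_lit 8762) (S (nat_lit 47) (S (nat_lit 10823) (L (nat_lit 1359453))
(S (nat_lit 17558) (S (nat_lit 25) (S (nat_lit 19778) (S (nat_lit 15384) (S (nat_lit 21750) (L (nat_lit 1580761))
(L (nat_lit 4438748)))
(L (nat_lit 7501422)))
(L (nat_lit 22438149)))
(S (nat_lit 1399) (L (nat_lit 19199087))
(L (nat_lit 843119))))
(L (nat_lit 7930268))))
(S (nat_lit 19811) (S (nat_lit 20750) (L (nat_lit 22485016))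
(L (nat_lit 16343233)))
(S (nat_lit 39575) (S (nat_lit 10977) (L (nat_lit 6086118))
(L (nat_lit 1371542)))
(L (nat_lit 25870346)))))
(S (nat_lit 28526) (S (nat_lit 972) (S (nat_lit 21770) (S (nat_lit 25) (L (nat_lit 12121826))
(L (nat_lit 1274574)))
(L (nat_lit 1329721)))
(S (nat_lit 20736) (S (nat_lit 1726) (S (nat_lit 57049) (L (nat_lit 22884576))
(L (nat_lit 14699273)))
(S (nat_lit 28426) (L (nat_lit 2997898))
(L (nat_lit 20759591))))
(S (nat_lit 40500) (S (nat_lit 5461) (L (nat_lit 20132987))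
(S (nat_lit 21529) (S (nat_lit 17571) (L (nat_lit 20209742))
(L (nat_lit 16413766)))
(L (nat_lit 5464469))))
(L (nat_lit 25611400)))))
(S (nat_lit 48290) (S (nat_lit 16018) (L (nat_lit 22027740))
(S (nat_lit 17558) (S (nat_lit 19811) (S (nat_lit 19778) (S (nat_lit 1958) (L (nat_lit 22126140))
(L (nat_lit 19668017)))
(L (nat_lit 22274160)))
(L (nat_lit 22823946)))
(L (nat_lit 925324))))
(L (nat_lit 25693771)))))
(S (nat_lit 28554) (S (nat_lit 2006) (S (nat_lit 1958) (S (nat_lit 39553) (S (nat_lit 19811) (S (nat_lit 21733) (S (nat_lit 54912) (S (nat_lit 48290) (S (nat_lit 19778) (S (nat_lit 54879) (S (nat_lit 42) (S (nat_lit 75) (S (nat_lit 15356) (S (nat_lit 41472) (S (nat_lit 35098) (S (nat_lit 35104) (S (nat_lit 15371) (S (nat_lit 21739) (S (nat_lit 8812) (S (nat_lit 1229) (S (nat_lit 1262) (S (nat_lit 1003) (S (nat_lit 57099) (S (nat_lit 57024) (S (nat_lit 21507) (S (nat_lit 17558) (S (nat_lit 30699) (S (nat_lit 34713) (S (nat_lit 19626)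 (S (nat_lit 16710) (S (nat_lit 50852) (D (nat_lit 11) (nat_lit 27857447) (nat_lit 19672176) (nat_lit 35710343334))
(L (nat_lit 28779136)))
(L (nat_lit 30591400)))
(L (nat_lit 30591369)))
(S (nat_lit 57216) (S (nat_lit 10575) (S (nat_lit 12033) (S (nat_lit 17945) (D (nat_lit 11) (nat_lit 25837792) (nat_lit 19672238) (nat_lit 138415299))
(L (nat_lit 30094378)))
(L (nat_lit 27696772)))
(L (nat_lit 27662980)))
(L (nat_lit 16784279))))
(L (nat_lit 18936047)))
(L (nat_lit 1434068)))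
(L (nat_lit 11287602)))
(L (nat_lit 4419313)))
(L (nat_lit 4999441)))
(L (nat_lit 19051371)))
(L (nat_lit 9060540)))
(S (nat_lit 20993) (S (nat_lit 20736) (S (nat_lit 41293) (S (nat_lit 41260) (S (nat_lit 10960) (S (nat_lit 10999) (S (nat_lit 47883) (S (nat_lit 8651) (S (nat_lit 33840) (S (nat_lit 14269) (S (nat_lit 1599) (S (nat_lit 21368) (S (nat_lit 57696) (S (nat_lit 7012) (D (nat_lit 13) (nat_lit 15739668) (nat_lit 3695175) (nat_lit 72143144163))
(L (nat_lit 30879360)))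
(L (nat_lit 24033568)))
(L (nat_lit 29047141)))
(S (nat_lit 37435) (S (nat_lit 49858) (S (nat_lit 15758) (D (nat_lit 15) (nat_lit 27862161) (nat_lit 1853864) (nat_lit 6547315847))
(L (nat_lit 30000235)))
(L (nat_lit 15621376)))
(L (nat_lit 22165417))))
(L (nat_lit 29703190)))
(L (nat_lit 8979340)))
(L (nat_lit 28843650)))
(L (nat_lit 28981475)))
(L (nat_lit 6469339)))
(L (nat_lit 6868123)))
(L (nat_lit 27962816)))
(L (nat_lit 28031328)))
(L (nat_lit 16347274)))
(S (nat_lit 40757) (S (nat_lit 20811) (S (nat_lit 40547) (S (nat_lit 30699) (S (nat_lit 21021) (S (nat_lit 21054) (S (nat_lit 41229) (S (nat_lit 57024) (S (nat_lit 41271) (S (nat_lit 13263) (S (nat_lit 10104) (S (nat_lit 37921) (S (nat_lit 12048) (D (nat_lit 11) (nat_lit 27952646) (nat_lit 25767365) (nat_lit 212877903009))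
(L (nat_lit 27953608)))
(L (nat_lit 27967843)))
(L (nat_lit 27965731)))
(S (nat_lit 39167) (S (nat_lit 19665) (S (nat_lit 17235) (S (nat_lit 51785) (D (nat_lit 11) (nat_lit 31078407) (nat_lit 25767427) (nat_lit 106438953186))
(L (nat_lit 28981508)))
(L (nat_lit 31011170)))
(L (nat_lit 31012131)))
(L (nat_lit 4103820))))
(L (nat_lit 23993388)))
(L (nat_lit 21937344)))
(L (nat_lit 24030284)))
(L (nat_lit 31132106)))
(L (nat_lit 31078474)))
(L (nat_lit 24362012)))
(L (nat_lit 17833846)))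
(L (nat_lit 15789736)))
(L (nat_lit 25432721)))))
(L (nat_lit 23562491)))
(L (nat_lit 16534567)))
(L (nat_lit 7210420)))
(L (nat_lit 10401910)))
(L (nat_lit 9496140)))
(L (nat_lit 6909315)))
(L (nat_lit 26947013)))
(L (nat_lit 26973638)))
(L (nat_lit 13724359)))
(L (nat_lit 12259152)))
(L (nat_lit 9500304)))
(L (nat_lit 11547224)))
(L (nat_lit 12214384)))
(L (nat_lit 22397793)))
(L (nat_lit 22288208)))
(L (nat_lit 11559662)))
(S (nat_lit 12483) (L (nat_lit 19409696))
(L (nat_lit 19668448))))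
(S (nat_lit 54458) (L (nat_lit 4828975))
(L (nat_lit 14409734))))
(S (nat_lit 48318) (S (nat_lit 10999) (S (nat_lit 2019) (S (nat_lit 19811) (S (nat_lit 40774) (L (nat_lit 5167312))
(L (nat_lit 8178830)))
(L (nat_lit 22506724)))
(S (nat_lit 21783) (S (nat_lit 40542) (S (nat_lit 50525) (L (nat_lit 7945988))
(L (nat_lit 22375566)))
(L (nat_lit 1260306)))
(S (nat_lit 41547) (S (nat_lit 19811) (S (nat_lit 30699) (S (nat_lit 35104) (L (nat_lit 1372627))
(L (nat_lit 18553762)))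
(L (nat_lit 13857409)))
(L (nat_lit 22102267)))
(L (nat_lit 25188588)))))
(S (nat_lit 30763) (S (nat_lit 1958) (S (nat_lit 50505) (S (nat_lit 54884) (S (nat_lit 19826) (S (nat_lit 50525) (S (nat_lit 39603) (L (nat_lit 30970507))
(L (nat_lit 12116641)))
(L (nat_lit 10670552)))
(L (nat_lit 10322672)))
(L (nat_lit 27674853)))
(L (nat_lit 5846855)))
(S (nat_lit 29136) (L (nat_lit 22841735))
(L (nat_lit 20749360))))
(S (nat_lit 50527) (S (nat_lit 9804) (L (nat_lit 4683123))
(S (nat_lit 57071) (S (nat_lit 16999) (L (nat_lit 4417104))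
(S (nat_lit 54862) (S (nat_lit 39575) (S (nat_lit 57066) (L (nat_lit 1813981))
(L (nat_lit 10610255)))
(L (nat_lit 4907403)))
(L (nat_lit 4418035))))
(L (nat_lit 27529780))))
(L (nat_lit 25561335)))))
(L (nat_lit 25765280)))))
(S (nat_lit 28543) (S (nat_lit 14) (S (nat_lit 64) (S (nat_lit 48318) (S (nat_lit 57049) (S (nat_lit 54862) (S (nat_lit 21722) (L (nat_lit 26320526))
(L (nat_lit 16028439)))
(L (nat_lit 13832860)))
(L (nat_lit 11264144)))
(L (nat_lit 12372142)))
(S (nat_lit 19828) (S (nat_lit 1958) (S (nat_lit 57066) (S (nat_lit 997) (L (nat_lit 421109))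
(L (nat_lit 19668485)))
(L (nat_lit 11620111)))
(L (nat_lit 12335744)))
(S (nat_lit 39592) (S (nat_lit 62) (S (nat_lit 75) (S (nat_lit 28554) (S (nat_lit 1958) (L (nat_lit 5779099))
(L (nat_lit 3972567)))
(L (nat_lit 10030958)))
(L (nat_lit 20476192)))
(S (nat_lit 29613) (L (nat_lit 6850483))
(L (nat_lit 26773226))))
(L (nat_lit 25934888)))))
(S (nat_lit 19778) (S (nat_lit 1240) (S (nat_lit 997) (S (nat_lit 1776) (L (nat_lit 26680437))
(L (nat_lit 5167561)))
(L (nat_lit 19700846)))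
(S (nat_lit 21004) (S (nat_lit 30730) (S (nat_lit 21512) (L (nat_lit 18056797))
(L (nat_lit 16680518)))
(L (nat_lit 24223256)))
(S (nat_lit 40768) (S (nat_lit 50525) (S (nat_lit 997) (L (nat_lit 13344545))
(L (nat_lit 4988436)))
(L (nat_lit 5054062)))
(L (nat_lit 25615588)))))
(S (nat_lit 39542) (S (nat_lit 1047) (S (nat_lit 1743) (S (nat_lit 1257) (L (nat_lit 19930586))
(L (nat_lit 14288778)))
(L (nat_lit 14294916)))
(S (nat_lit 20811) (S (nat_lit 35104) (L (nat_lit 5086862))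
(L (nat_lit 23365388)))
(S (nat_lit 40575) (S (nat_lit 62) (S (nat_lit 1262) (L (nat_lit 12060408))
(L (nat_lit 12623671)))
(L (nat_lit 1810353)))
(L (nat_lit 25693864)))))
(L (nat_lit 25796689)))))
(S (nat_lit 48307) (S (nat_lit 17527) (S (nat_lit 50494) (S (nat_lit 1986) (S (nat_lit 39590) (L (nat_lit 29033927))
(L (nat_lit 27795141)))
(L (nat_lit 11994873)))
(L (nat_lit 22945282)))
(S (nat_lit 37291) (S (nat_lit 21540) (L (nat_lit 11011804))
(L (nat_lit 21497609)))
(S (nat_lit 57055) (S (nat_lit 1290) (S (nat_lit 997) (S (nat_lit 62) (L (nat_lit 5775066))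
(L (nat_lit 13803228)))
(L (nat_lit 19668512)))
(S (nat_lit 21054) (S (nat_lit 17558) (S (nat_lit 1240) (L (nat_lit 17669202))
(L (nat_lit 6069813)))
(L (nat_lit 16391324)))
(S (nat_lit 40818) (S (nat_lit 30699) (L (nat_lit 5807988))
(L (nat_lit 24682368)))
(L (nat_lit 25700005)))))
(L (nat_lit 25271734)))))
(L (nat_lit 25271884)))))
(L (nat_lit 25187783)))))
(L (nat_lit 25765933)))))

theorem rb246_0_16 : run 4 lb246 [] tb246_0_16 kb246 [0, 21772, 39559, 28512] [] = true := by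
  decide +kernel

noncomputable def tb246_0_24 : Tr :=
(S (nat_lit 1991) (S (nat_lit 1229) (S (nat_lit 1262) (S (nat_lit 17510) (S (nat_lit 17496) (S (nat_lit 1726) (S (nat_lit 20783) (S (nat_lit 8773) (S (nat_lit 1036) (L (nat_lit 3698964))
(L (nat_lit 19405600)))
(L (nat_lit 6353521)))
(L (nat_lit 16522851)))
(L (nat_lit 13375540)))
(S (nat_lit 37341) (S (nat_lit 10935) (L (nat_lit 20381949))
(L (nat_lit 21530407)))
(L (nat_lit 26909713))))
(S (nat_lit 37274) (S (nat_lit 1726) (S (nat_lit 4479) (S (nat_lit 8823) (L (nat_lit 5946681))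
(L (nat_lit 7009664)))
(S (nat_lit 30699) (S (nat_lit 1765) (S (nat_lit 1036) (L (nat_lit 6440571))
(L (nat_lit 9110287)))
(L (nat_lit 11583252)))
(L (nat_lit 13857473))))
(S (nat_lit 21490) (S (nat_lit 48307) (L (nat_lit 11994996))
(L (nat_lit 20322425)))
(S (nat_lit 41254) (S (nat_lit 40564) (L (nat_lit 8441276))
(L (nat_lit 23861632)))
(L (nat_lit 25319943)))))
(S (nat_lit 57038) (S (nat_lit 1975) (S (nat_lit 1019) (S (nat_lit 1715) (L (nat_lit 5709654))
(L (nat_lit 20717025)))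
(S (nat_lit 38336) (L (nat_lit 26706630))
(L (nat_lit 19369735))))
(S (nat_lit 21739) (S (nat_lit 17496) (S (nat_lit 1715) (S (nat_lit 30724) (L (nat_lit 29377163))
(L (nat_lit 13853879)))
(L (nat_lit 19668419)))
(L (nat_lit 26432527)))
(S (nat_lit 41503) (S (nat_lit 75) (S (nat_lit 2006) (S (nat_lit 57086) (S (nat_lit 28537) (S (nat_lit 8790) (S (nat_lit 40774) (S (nat_lit 15384) (S (nat_lit 19828) (S (nat_lit 41497) (S (nat_lit 1036) (S (nat_lit 21021) (S (nat_lit 30724) (S (nat_lit 17538) (S (nat_lit 569) (S (nat_lit 39542) (S (nat_lit 48338) (S (nat_lit 41229) (S (nat_lit 448) (S (nat_lit 4289) (S (nat_lit 3527) (S (nat_lit 5714) (S (nat_lit 53553) (S (nat_lit 52490) (S (nat_lit 24133) (D (nat_lit 11) (nat_lit 25863309) (nat_lit 18984717) (nat_lit 180492501024))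
(L (nat_lit 27998499)))
(L (nat_lit 22419480)))
(L (nat_lit 29808834)))
(L (nat_lit 27931874)))
(L (nat_lit 27930850)))
(S (nat_lit 32806) (S (nat_lit 2524) (S (nat_lit 25055) (S (nat_lit 23597) (D (nat_lit 11) (nat_lit 27902308) (nat_lit 25764974) (nat_lit 212843301891))
(L (nat_lit 27866371)))
(L (nat_lit 27865379)))
(L (nat_lit 28530053)))
(L (nat_lit 1980072))))
(L (nat_lit 29860981)))
(L (nat_lit 4050347)))
(L (nat_lit 22181229)))
(L (nat_lit 27462102)))
(L (nat_lit 28947626)))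
(L (nat_lit 7190081)))
(L (nat_lit 17706594)))
(L (nat_lit 16423715)))
(L (nat_lit 13538923)))
(L (nat_lit 17947463)))
(L (nat_lit 3494798)))
(L (nat_lit 26547822)))
(L (nat_lit 27921774)))
(L (nat_lit 17394822)))
(L (nat_lit 19099042)))
(L (nat_lit 13456554)))
(L (nat_lit 3362332)))
(S (nat_lit 20223) (L (nat_lit 15518763))
(L (nat_lit 19427430))))
(L (nat_lit 25834634)))))
(L (nat_lit 25660722)))))
(S (nat_lit 21026) (S (nat_lit 1240) (S (nat_lit 17571) (S (nat_lit 54912) (S (nat_lit 14) (L (nat_lit 13849441))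
(L (nat_lit 8129169)))
(L (nat_lit 27410023)))
(S (nat_lit 37335) (S (nat_lit 39575) (S (nat_lit 1748) (L (nat_lit 21327024))
(L (nat_lit 19068272)))
(L (nat_lit 11997818)))
(S (nat_lit 57099) (S (nat_lit 17496) (S (nat_lit 20783) (S (nat_lit 41293) (S (nat_lit 19096) (L (nat_lit 23277725))
(L (nat_lit 28771911)))
(L (nat_lit 27474528)))
(S (nat_lit 40493) (L (nat_lit 965223))
(L (nat_lit 22816129))))
(L (nat_lit 220977)))
(L (nat_lit 25348519)))))
(S (nat_lit 21004) (S (nat_lit 17496) (S (nat_lit 20783) (S (nat_lit 35104) (S (nat_lit 1748) (S (nat_lit 41243) (S (nat_lit 28576) (S (nat_lit 37324) (S (nat_lit 1036) (S (nat_lit 31) (S (nat_lit 19778) (S (nat_lit 62) (S (nat_lit 1776) (S (nat_lit 8779) (S (nat_lit 17527) (S (nat_lit 10949) (S (nat_lit 35750) (S (nat_lit 35135) (S (nat_lit 1014) (S (nat_lit 30332) (S (nat_lit 10182) (S (nat_lit 23158) (S (nat_lit 30603) (S (nat_lit 43758) (S (nat_lit 17593) (D (nat_lit 13) (nat_lit 26904941) (nat_lit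 8145381) (nat_lit 7765573501956))
(L (nat_lit 28334537)))
(L (nat_lit 28334567)))
(L (nat_lit 28748357)))
(L (nat_lit 9296324)))
(L (nat_lit 30855365)))
(S (nat_lit 38222) (S (nat_lit 28611) (S (nat_lit 39080) (S (nat_lit 26218) (S (nat_lit 57966) (D (nat_lit 13) (nat_lit 26941859) (nat_lit 25767459) (nat_lit 138580066405))
(L (nat_lit 29795906)))
(L (nat_lit 29082916)))
(L (nat_lit 28944460)))
(L (nat_lit 28331527)))
(L (nat_lit 22279617))))
(L (nat_lit 9092153)))
(L (nat_lit 20356281)))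
(L (nat_lit 29984265)))
(L (nat_lit 15949669)))
(L (nat_lit 15834998)))
(L (nat_lit 21077873)))
(L (nat_lit 18925419)))
(L (nat_lit 19793265)))
(L (nat_lit 4084017)))
(L (nat_lit 20814959)))
(L (nat_lit 20480811)))
(L (nat_lit 30752822)))
(L (nat_lit 30759985)))
(L (nat_lit 1679249)))
(L (nat_lit 12410001)))
(L (nat_lit 31031688)))
(L (nat_lit 22209959)))
(S (nat_lit 23300) (L (nat_lit 22808941))
(L (nat_lit 24682272))))
(S (nat_lit 40768) (S (nat_lit 17496) (S (nat_lit 17538) (S (nat_lit 10977) (S (nat_lit 75) (S (nat_lit 15384) (L (nat_lit 5132775))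
(L (nat_lit 390551)))
(L (nat_lit 26984551)))
(L (nat_lit 1957319)))
(S (nat_lit 37302) (S (nat_lit 1726) (S (nat_lit 1969) (L (nat_lit 29776007))
(L (nat_lit 20750881)))
(L (nat_lit 19666990)))
(S (nat_lit 57066) (S (nat_lit 10977) (S (nat_lit 19839) (L (nat_lit 29917557))
(L (nat_lit 15438599)))
(L (nat_lit 23929217)))
(L (nat_lit 25273815)))))
(L (nat_lit 1810191)))
(L (nat_lit 25517604)))))
(S (nat_lit 40790) (S (nat_lit 986) (S (nat_lit 15356) (S (nat_lit 57049) (S (nat_lit 15309) (L (nat_lit 20775367))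
(L (nat_lit 826837)))
(L (nat_lit 10539484)))
(S (nat_lit 35120) (S (nat_lit 14) (S (nat_lit 1715) (S (nat_lit 1958) (S (nat_lit 30730) (L (nat_lit 13693271))
(L (nat_lit 2702616)))
(L (nat_lit 10277312)))
(L (nat_lit 10277313)))
(L (nat_lit 840139)))
(S (nat_lit 54884) (S (nat_lit 15309) (S (nat_lit 2088) (L (nat_lit 27283878))
(L (nat_lit 15435064)))
(L (nat_lit 695769)))
(L (nat_lit 25252299)))))
(S (nat_lit 20750) (S (nat_lit 26046) (L (nat_lit 19661227))
(S (nat_lit 54899) (S (nat_lit 4281) (L (nat_lit 7145100))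
(S (nat_lit 17496) (S (nat_lit 218) (L (nat_lit 18743606))
(S (nat_lit 21512) (S (nat_lit 21496) (S (nat_lit 39590) (L (nat_lit 1884742))
(L (nat_lit 27609264)))
(L (nat_lit 21468071)))
(L (nat_lit 6199888))))
(L (nat_lit 22234136))))
(L (nat_lit 6036047))))
(S (nat_lit 40514) (S (nat_lit 35104) (S (nat_lit 41276) (S (nat_lit 57055) (S (nat_lit 19826) (S (nat_lit 17496) (S (nat_lit 30699) (S (nat_lit 10982) (S (nat_lit 50527) (S (nat_lit 21722) (S (nat_lit 55721) (S (nat_lit 8773) (S (nat_lit 19828) (S (nat_lit 52346) (S (nat_lit 1034) (S (nat_lit 55705) (S (nat_lit 36136) (S (nat_lit 13120) (S (nat_lit 10436) (S (nat_lit 58195) (S (nat_lit 22788) (D (nat_lit 15) (nat_lit 26332364) (nat_lit 25758989) (nat_lit 5611979811))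
(L (nat_lit 23490817)))
(L (nat_lit 30094596)))
(S (nat_lit 45526) (S (nat_lit 14470) (S (nat_lit 28954) (D (nat_lit 15) (nat_lit 27352488) (nat_lit 18997642) (nat_lit 40970002692))
(L (nat_lit 15648996)))
(L (nat_lit 28950756)))
(L (nat_lit 5762389))))
(L (nat_lit 9039949)))
(L (nat_lit 28657376)))
(L (nat_lit 28805830)))
(L (nat_lit 8948662)))
(L (nat_lit 14588019)))
(L (nat_lit 8975971)))
(L (nat_lit 17004131)))
(L (nat_lit 28804839)))
(L (nat_lit 30719030)))
(L (nat_lit 20407305)))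
(L (nat_lit 18110212)))
(L (nat_lit 8448566)))
(L (nat_lit 22806767)))
(L (nat_lit 14850870)))
(L (nat_lit 27367862)))
(L (nat_lit 27433553)))
(S (nat_lit 47214) (L (nat_lit 9110043))
(L (nat_lit 23855372))))
(L (nat_lit 25612481)))))
(L (nat_lit 25528945)))))
(S (nat_lit 20993) (S (nat_lit 997) (S (nat_lit 15356) (S (nat_lit 17496) (S (nat_lit 21074) (S (nat_lit 1958) (L (nat_lit 12846680))
(L (nat_lit 26805702)))
(S (nat_lit 41254) (S (nat_lit 19795) (S (nat_lit 1279) (S (nat_lit 15309) (S (nat_lit 48338) (L (nat_lit 14021221))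
(L (nat_lit 16515755)))
(L (nat_lit 15467767)))
(L (nat_lit 19171086)))
(L (nat_lit 21268238)))
(L (nat_lit 17368839))))
(S (nat_lit 58586) (L (nat_lit 5675736))
(L (nat_lit 24675576))))
(S (nat_lit 35120) (S (nat_lit 17496) (S (nat_lit 20579) (S (nat_lit 44066) (L (nat_lit 12721817))
(L (nat_lit 26810849)))
(S (nat_lit 41254) (S (nat_lit 19795) (S (nat_lit 1240) (L (nat_lit 9831188))
(L (nat_lit 20711726)))
(L (nat_lit 21268238)))
(L (nat_lit 17401607))))
(S (nat_lit 46012) (L (nat_lit 5970732))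
(L (nat_lit 26412783))))
(S (nat_lit 54884) (S (nat_lit 1715) (S (nat_lit 75) (S (nat_lit 15309) (S (nat_lit 57086) (S (nat_lit 17496) (S (nat_lit 1246) (S (nat_lit 1763) (S (nat_lit 39542) (S (nat_lit 28576) (S (nat_lit 30763) (S (nat_lit 39575) (S (nat_lit 1003) (S (nat_lit 21750) (S (nat_lit 41254) (S (nat_lit 40188) (S (nat_lit 40885) (S (nat_lit 40500) (S (nat_lit 40837) (S (nat_lit 37291) (S (nat_lit 8014) (S (nat_lit 6200) (S (nat_lit 53553) (D (nat_lit 9) (nat_lit 10324560) (nat_lit 13375051) (nat_lit 7619150916))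
(L (nat_lit 20887748)))
(L (nat_lit 27964611)))
(S (nat_lit 34935) (S (nat_lit 34941) (S (nat_lit 28170) (S (nat_lit 22868) (S (nat_lit 4479) (D (nat_lit 13) (nat_lit 29982989) (nat_lit 9003555) (nat_lit 213943156801))
(L (nat_lit 27865409)))
(L (nat_lit 27868387)))
(L (nat_lit 20455298)))
(L (nat_lit 19359971)))
(L (nat_lit 313207))))
(L (nat_lit 20356002)))
(L (nat_lit 1468042)))
(L (nat_lit 1649581)))
(L (nat_lit 13337415)))
(L (nat_lit 29775040)))
(L (nat_lit 27695840)))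
(L (nat_lit 22349612)))
(L (nat_lit 19096750)))
(L (nat_lit 27542582)))
(L (nat_lit 19357922)))
(L (nat_lit 13230306)))
(L (nat_lit 4616842)))
(L (nat_lit 13328579)))
(L (nat_lit 13683558)))
(L (nat_lit 22249976)))
(L (nat_lit 15271290)))
(L (nat_lit 26680341)))
(L (nat_lit 19461409)))
(L (nat_lit 14438721)))
(L (nat_lit 25252299)))))
(S (nat_lit 20761) (S (nat_lit 1019) (S (nat_lit 31) (S (nat_lit 17558) (L (nat_lit 16418631))
(L (nat_lit 22349708)))
(L (nat_lit 26478068)))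
(S (nat_lit 20783) (S (nat_lit 17496) (S (nat_lit 1958) (S (nat_lit 41254) (L (nat_lit 18188086))
(L (nat_lit 7177935)))
(S (nat_lit 21722) (S (nat_lit 21750) (S (nat_lit 8810) (L (nat_lit 15959674))
(L (nat_lit 26838507)))
(L (nat_lit 21300796)))
(S (nat_lit 41486) (S (nat_lit 31) (S (nat_lit 17558) (S (nat_lit 8810) (S (nat_lit 41254) (S (nat_lit 41514) (S (nat_lit 20811) (S (nat_lit 1014) (S (nat_lit 35073) (S (nat_lit 51289) (S (nat_lit 39553) (S (nat_lit 54901) (S (nat_lit 28526) (S (nat_lit 19806) (S (nat_lit 17424) (S (nat_lit 17486) (S (nat_lit 30724) (S (nat_lit 2858) (S (nat_lit 49833) (S (nat_lit 25467) (S (nat_lit 19366) (D (nat_lit 15) (nat_lit 12488335) (nat_lit 11029249) (nat_lit 242839985217))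
(L (nat_lit 30987520)))
(L (nat_lit 23603292)))
(L (nat_lit 21455138)))
(S (nat_lit 46689) (S (nat_lit 4090) (S (nat_lit 57171) (D (nat_lit 15) (nat_lit 31072332) (nat_lit 25761192) (nat_lit 110662619272))
(L (nat_lit 28914980)))
(L (nat_lit 30033221)))
(L (nat_lit 14461078))))
(L (nat_lit 24328344)))
(L (nat_lit 209500)))
(L (nat_lit 832235)))
(L (nat_lit 10122753)))
(L (nat_lit 2967275)))
(L (nat_lit 19023100)))
(L (nat_lit 4801884)))
(L (nat_lit 28383920)))
(L (nat_lit 31103424)))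
(L (nat_lit 12965796)))
(L (nat_lit 30639788)))
(L (nat_lit 27952681)))
(L (nat_lit 7198767)))
(L (nat_lit 8259061)))
(L (nat_lit 8259214)))
(L (nat_lit 13436181)))
(L (nat_lit 25481361)))))
(S (nat_lit 37206) (L (nat_lit 7243375))
(L (nat_lit 7078577))))
(S (nat_lit 40547) (S (nat_lit 17496) (L (nat_lit 24348124))
(L (nat_lit 6981176)))
(L (nat_lit 25346631)))))
(S (nat_lit 40525) (S (nat_lit 17496) (S (nat_lit 17510) (S (nat_lit 31) (S (nat_lit 1765) (L (nat_lit 9832060))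
(L (nat_lit 18980622)))
(S (nat_lit 19795) (S (nat_lit 10935) (S (nat_lit 40542) (L (nat_lit 16423744))
(L (nat_lit 24493826)))
(L (nat_lit 18613462)))
(S (nat_lit 39559) (S (nat_lit 37322) (S (nat_lit 28587) (S (nat_lit 21722) (S (nat_lit 40807) (S (nat_lit 21733) (S (nat_lit 35104) (S (nat_lit 54837) (S (nat_lit 1765) (S (nat_lit 39570) (S (nat_lit 40805) (S (nat_lit 40514) (S (nat_lit 57066) (S (nat_lit 21507) (S (nat_lit 40500) (S (nat_lit 50538) (S (nat_lit 8887) (S (nat_lit 18802) (S (nat_lit 38219) (S (nat_lit 25793) (S (nat_lit 28451) (D (nat_lit 13) (nat_lit 27577521) (nat_lit 25767023) (nat_lit 6742299711589))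
(L (nat_lit 27732021)))
(L (nat_lit 3067272)))
(L (nat_lit 22918497)))
(L (nat_lit 29013313)))
(S (nat_lit 27993) (S (nat_lit 4253) (S (nat_lit 13211) (S (nat_lit 17635) (S (nat_lit 30211) (D (nat_lit 13) (nat_lit 27481540) (nat_lit 25762991) (nat_lit 8871322259652))
(L (nat_lit 15584362)))
(L (nat_lit 28907939)))
(L (nat_lit 27460177)))
(L (nat_lit 27926050)))
(L (nat_lit 12912378))))
(L (nat_lit 15065172)))
(L (nat_lit 7753634)))
(L (nat_lit 31112235)))
(L (nat_lit 11983681)))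
(L (nat_lit 3761361)))
(L (nat_lit 17853751)))
(L (nat_lit 24951136)))
(L (nat_lit 26498464)))
(L (nat_lit 5939054)))
(L (nat_lit 18088568)))
(L (nat_lit 1678190)))
(L (nat_lit 7865980)))
(L (nat_lit 22873544)))
(L (nat_lit 3663156)))
(L (nat_lit 20060633)))
(L (nat_lit 25631394)))))
(S (nat_lit 37274) (S (nat_lit 1036) (S (nat_lit 35104) (S (nat_lit 41254) (S (nat_lit 21722) (S (nat_lit 30713) (L (nat_lit 29604512))
(L (nat_lit 9931353)))
(L (nat_lit 30803191)))
(L (nat_lit 7264366)))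
(L (nat_lit 20486264)))
(L (nat_lit 20486949)))
(S (nat_lit 57038) (S (nat_lit 19789) (S (nat_lit 42) (S (nat_lit 41260) (S (nat_lit 48351) (L (nat_lit 21147407))
(L (nat_lit 5062374)))
(L (nat_lit 27274709)))
(L (nat_lit 1916615)))
(S (nat_lit 39976) (L (nat_lit 12019297))
(L (nat_lit 22078830))))
(L (nat_lit 25185803)))))
(S (nat_lit 37260) (S (nat_lit 54837) (L (nat_lit 26712800))
(L (nat_lit 19760334)))
(S (nat_lit 57024) (L (nat_lit 21398780))
(L (nat_lit 25920719)))))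
(L (nat_lit 25248486)))))
(S (nat_lit 40757) (S (nat_lit 10960) (S (nat_lit 15371) (S (nat_lit 8823) (S (nat_lit 19826) (S (nat_lit 8790) (L (nat_lit 23397912))
(L (nat_lit 869990)))
(L (nat_lit 21502756)))
(L (nat_lit 718214)))
(S (nat_lit 35135) (S (nat_lit 41293) (S (nat_lit 986) (S (nat_lit 17496) (S (nat_lit 37335) (L (nat_lit 20753457))
(L (nat_lit 9288289)))
(L (nat_lit 6997760)))
(L (nat_lit 20709863)))
(S (nat_lit 48370) (L (nat_lit 18491168))
(L (nat_lit 23294336))))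
(S (nat_lit 54899) (S (nat_lit 39590) (S (nat_lit 3133) (L (nat_lit 4541232))
(S (nat_lit 17496) (S (nat_lit 30730) (S (nat_lit 28543) (S (nat_lit 37291) (S (nat_lit 41497) (L (nat_lit 29441639))
(L (nat_lit 18716757)))
(L (nat_lit 24020488)))
(L (nat_lit 18777832)))
(L (nat_lit 17729256)))
(L (nat_lit 8095505))))
(L (nat_lit 17630923)))
(L (nat_lit 25336244)))))
(S (nat_lit 30724) (S (nat_lit 986) (S (nat_lit 1958) (S (nat_lit 1732) (S (nat_lit 17527) (S (nat_lit 41276) (L (nat_lit 29890647))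
(L (nat_lit 3400304)))
(L (nat_lit 6915920)))
(S (nat_lit 28611) (L (nat_lit 13329511))
(L (nat_lit 20178368))))
(S (nat_lit 21722) (S (nat_lit 28574) (S (nat_lit 40542) (S (nat_lit 20811) (L (nat_lit 12374161))
(L (nat_lit 21202394)))
(L (nat_lit 24951074)))
(L (nat_lit 24950923)))
(S (nat_lit 41486) (S (nat_lit 57049) (S (nat_lit 15356) (S (nat_lit 40531) (S (nat_lit 28576) (S (nat_lit 1290) (S (nat_lit 21512) (S (nat_lit 1743) (S (nat_lit 30774) (S (nat_lit 17527) (S (nat_lit 37324) (S (nat_lit 1765) (S (nat_lit 35242) (S (nat_lit 48301) (S (nat_lit 31) (S (nat_lit 62) (S (nat_lit 38951) (S (nat_lit 53570) (S (nat_lit 26422) (S (nat_lit 28611) (S (nat_lit 38594) (S (nat_lit 57966) (D (nat_lit 13) (nat_lit 26937737) (nat_lit 25761903) (nat_lit 2336601677832))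
(L (nat_lit 29793924)))
(L (nat_lit 28940460)))
(L (nat_lit 28528129)))
(L (nat_lit 28527107)))
(L (nat_lit 20444417)))
(S (nat_lit 44016) (S (nat_lit 47887) (S (nat_lit 10640) (S (nat_lit 17615) (S (nat_lit 29874) (D (nat_lit 13) (nat_lit 26917152) (nat_lit 19194033) (nat_lit 211762118786))
(L (nat_lit 20176944)))
(L (nat_lit 27894798)))
(L (nat_lit 30658637)))
(L (nat_lit 28981508)))
(L (nat_lit 18488379))))
(L (nat_lit 8308913)))
(L (nat_lit 19760584)))
(L (nat_lit 27989356)))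
(L (nat_lit 17535785)))
(L (nat_lit 13850400)))
(L (nat_lit 3001584)))
(L (nat_lit 6915514)))
(L (nat_lit 16961287)))
(L (nat_lit 19118978)))
(L (nat_lit 16516712)))
(L (nat_lit 3404243)))
(L (nat_lit 2815432)))
(L (nat_lit 23994816)))
(L (nat_lit 872906)))
(L (nat_lit 27513283)))
(L (nat_lit 25596247)))))
(S (nat_lit 20750) (S (nat_lit 17496) (S (nat_lit 34774) (L (nat_lit 9995005))
(S (nat_lit 54899) (S (nat_lit 28543) (S (nat_lit 37291) (S (nat_lit 39590) (S (nat_lit 21529) (S (nat_lit 1036) (S (nat_lit 42) (S (nat_lit 10935) (S (nat_lit 15351) (S (nat_lit 41497) (S (nat_lit 1257) (S (nat_lit 35098) (S (nat_lit 37285) (S (nat_lit 1003) (S (nat_lit 40382) (S (nat_lit 2166) (S (nat_lit 20878) (S (nat_lit 6026) (S (nat_lit 6158) (S (nat_lit 6020) (S (nat_lit 25944) (D (nat_lit 15) (nat_lit 30119280) (nat_lit 805196) (nat_lit 2105506))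
(L (nat_lit 15540274)))
(L (nat_lit 29995269)))
(L (nat_lit 27870499)))
(S (nat_lit 13492) (S (nat_lit 25298) (S (nat_lit 42345) (S (nat_lit 23111) (S (nat_lit 14774) (D (nat_lit 11) (nat_lit 27929775) (nat_lit 18982669) (nat_lit 3359835297))
(L (nat_lit 31043813)))
(L (nat_lit 27866336)))
(L (nat_lit 19738945)))
(L (nat_lit 27865312)))
(L (nat_lit 6113704))))
(L (nat_lit 17541989)))
(L (nat_lit 17543077)))
(L (nat_lit 19087105)))
(L (nat_lit 18883034)))
(L (nat_lit 8442269)))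
(L (nat_lit 8918621)))
(L (nat_lit 19765797)))
(L (nat_lit 596815)))
(L (nat_lit 24407216)))
(L (nat_lit 26875921)))
(L (nat_lit 13241688)))
(L (nat_lit 19118848)))
(L (nat_lit 218552)))
(L (nat_lit 18679531)))
(L (nat_lit 17041171)))
(L (nat_lit 24381196)))
(L (nat_lit 11960920))))
(S (nat_lit 42091) (L (nat_lit 5879165))
(L (nat_lit 7921409))))
(S (nat_lit 40514) (S (nat_lit 17496) (S (nat_lit 8773) (S (nat_lit 1279) (S (nat_lit 39570) (S (nat_lit 14) (S (nat_lit 41293) (S (nat_lit 37335) (S (nat_lit 37324) (S (nat_lit 48323) (S (nat_lit 1986) (S (nat_lit 56141) (S (nat_lit 15371) (S (nat_lit 19826) (S (nat_lit 21010) (S (nat_lit 31362) (S (nat_lit 21708) (S (nat_lit 6042) (S (nat_lit 23743) (S (nat_lit 30611) (S (nat_lit 49458) (S (nat_lit 37368) (D (nat_lit 13) (nat_lit 26465667) (nat_lit 25765413) (nat_lit 173979959396))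
(L (nat_lit 21522624)))
(L (nat_lit 19700782)))
(L (nat_lit 6317709)))
(L (nat_lit 23993425)))
(S (nat_lit 38448) (S (nat_lit 18888) (S (nat_lit 58847) (S (nat_lit 8958) (S (nat_lit 5562) (D (nat_lit 13) (nat_lit 30755885) (nat_lit 25767397) (nat_lit 3337360772098))
(L (nat_lit 31171108)))
(L (nat_lit 29965415)))
(L (nat_lit 16665826)))
(L (nat_lit 29936867)))
(L (nat_lit 24375407))))
(L (nat_lit 11343250)))
(L (nat_lit 9254496)))
(L (nat_lit 6950392)))
(L (nat_lit 10192689)))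
(L (nat_lit 342685)))
(L (nat_lit 24161720)))
(L (nat_lit 10304595)))
(L (nat_lit 28032011)))
(L (nat_lit 3569320)))
(L (nat_lit 23892487)))
(L (nat_lit 27317614)))
(L (nat_lit 7356279)))
(L (nat_lit 27743585)))
(L (nat_lit 19437754)))
(S (nat_lit 28537) (S (nat_lit 41243) (S (nat_lit 41293) (S (nat_lit 35098) (L (nat_lit 4407189))
(L (nat_lit 23094696)))
(L (nat_lit 23936352)))
(L (nat_lit 27410086)))
(S (nat_lit 48301) (S (nat_lit 1748) (S (nat_lit 19826) (S (nat_lit 35115) (L (nat_lit 27761249))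
(L (nat_lit 4113783)))
(L (nat_lit 3731831)))
(L (nat_lit 12611959)))
(L (nat_lit 25177522)))))
(S (nat_lit 56865) (S (nat_lit 15309) (L (nat_lit 17471547))
(L (nat_lit 17532120)))
(L (nat_lit 6981423))))
(L (nat_lit 25612481)))))
(S (nat_lit 50488) (S (nat_lit 1034) (S (nat_lit 8002) (L (nat_lit 14490305))
(S (nat_lit 17496) (S (nat_lit 10145) (L (nat_lit 14969474))
(S (nat_lit 40805) (S (nat_lit 57066) (S (nat_lit 48318) (L (nat_lit 8107841))
(L (nat_lit 27570785)))
(L (nat_lit 27577729)))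
(L (nat_lit 544519))))
(L (nat_lit 7898903))))
(S (nat_lit 20798) (S (nat_lit 15340) (S (nat_lit 17496) (L (nat_lit 5085904))
(L (nat_lit 22512391)))
(S (nat_lit 35104) (S (nat_lit 35148) (L (nat_lit 17139507))
(L (nat_lit 20440167)))
(S (nat_lit 54868) (S (nat_lit 54837) (L (nat_lit 3401175))
(L (nat_lit 19760582)))
(L (nat_lit 25428371)))))
(S (nat_lit 40562) (S (nat_lit 15309) (S (nat_lit 10935) (S (nat_lit 17496) (S (nat_lit 30741) (S (nat_lit 39575) (S (nat_lit 35104) (L (nat_lit 1338033))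
(L (nat_lit 10159889)))
(L (nat_lit 27922641)))
(S (nat_lit 47971) (S (nat_lit 37302) (L (nat_lit 25077185))
(L (nat_lit 2843015)))
(L (nat_lit 24240519))))
(L (nat_lit 24951847)))
(L (nat_lit 23889383)))
(L (nat_lit 17030913)))
(L (nat_lit 25211625)))))
(L (nat_lit 25727657)))))
(L (nat_lit 25770336)))))
(S (nat_lit 21755) (S (nat_lit 8812) (S (nat_lit 972) (S (nat_lit 1763) (S (nat_lit 21026) (S (nat_lit 17496) (S (nat_lit 19839) (S (nat_lit 21490) (L (nat_lit 516006))
(L (nat_lit 5661973)))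
(L (nat_lit 22570086)))
(S (nat_lit 23080) (L (nat_lit 26871210))
(L (nat_lit 1302289))))
(L (nat_lit 4997735)))
(S (nat_lit 21527) (S (nat_lit 21863) (S (nat_lit 21605) (L (nat_lit 15499638))
(L (nat_lit 24392889)))
(S (nat_lit 51060) (S (nat_lit 40736) (L (nat_lit 17917544))
(L (nat_lit 21765233)))
(L (nat_lit 836982))))
(S (nat_lit 41291) (S (nat_lit 15323) (S (nat_lit 17496) (S (nat_lit 21010) (L (nat_lit 4580823))
(L (nat_lit 14721813)))
(L (nat_lit 7395089)))
(L (nat_lit 6319668)))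
(L (nat_lit 25921808)))))
(S (nat_lit 20736) (S (nat_lit 997) (S (nat_lit 17496) (S (nat_lit 14) (S (nat_lit 15309) (S (nat_lit 10935) (S (nat_lit 41547) (S (nat_lit 48338) (L (nat_lit 23216508))
(L (nat_lit 22165850)))
(L (nat_lit 7100557)))
(L (nat_lit 23894065)))
(L (nat_lit 17604321)))
(S (nat_lit 19778) (S (nat_lit 41472) (S (nat_lit 15356) (S (nat_lit 57049) (S (nat_lit 10999) (S (nat_lit 15309) (L (nat_lit 14833976))
(L (nat_lit 22027801)))
(L (nat_lit 7965456)))
(L (nat_lit 18899400)))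
(L (nat_lit 14776042)))
(L (nat_lit 6944133)))
(S (nat_lit 39542) (S (nat_lit 10935) (S (nat_lit 19828) (S (nat_lit 19795) (S (nat_lit 21479) (L (nat_lit 5694708))
(L (nat_lit 11108857)))
(L (nat_lit 9340590)))
(L (nat_lit 22176169)))
(S (nat_lit 29886) (L (nat_lit 23160230))
(L (nat_lit 16555028))))
(L (nat_lit 25376886)))))
(S (nat_lit 23287) (L (nat_lit 17832725))
(L (nat_lit 26920129))))
(S (nat_lit 20761) (S (nat_lit 1969) (S (nat_lit 17496) (S (nat_lit 47) (S (nat_lit 20783) (L (nat_lit 15920341))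
(L (nat_lit 21171609)))
(L (nat_lit 7823140)))
(S (nat_lit 57168) (L (nat_lit 1627384))
(L (nat_lit 18612439))))
(S (nat_lit 21733) (S (nat_lit 17496) (S (nat_lit 20783) (S (nat_lit 19839) (S (nat_lit 21490) (L (nat_lit 7527897))
(L (nat_lit 21370936)))
(S (nat_lit 24294) (S (nat_lit 57066) (L (nat_lit 22168860))
(L (nat_lit 11426240)))
(L (nat_lit 14839090))))
(S (nat_lit 39996) (L (nat_lit 15013467))
(L (nat_lit 22046119))))
(S (nat_lit 28150) (L (nat_lit 22409263))
(L (nat_lit 22807079))))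
(S (nat_lit 41497) (S (nat_lit 17496) (S (nat_lit 15384) (S (nat_lit 50505) (S (nat_lit 21739) (L (nat_lit 17899284))
(L (nat_lit 30755982)))
(L (nat_lit 11984640)))
(S (nat_lit 39073) (L (nat_lit 15012791))
(L (nat_lit 6746816))))
(S (nat_lit 22181) (L (nat_lit 7131522))
(L (nat_lit 7832343))))
(L (nat_lit 25561831)))))
(S (nat_lit 40525) (S (nat_lit 17496) (S (nat_lit 1240) (S (nat_lit 17558) (L (nat_lit 630638))
(L (nat_lit 345692)))
(S (nat_lit 21004) (S (nat_lit 54837) (S (nat_lit 39559) (L (nat_lit 15368967))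
(L (nat_lit 27958350)))
(L (nat_lit 14523413)))
(S (nat_lit 40768) (S (nat_lit 41497) (S (nat_lit 17538) (S (nat_lit 41293) (L (nat_lit 19732864))
(L (nat_lit 24223662)))
(L (nat_lit 7979193)))
(L (nat_lit 6914894)))
(L (nat_lit 25592117)))))
(S (nat_lit 43388) (S (nat_lit 42902) (L (nat_lit 564920))
(L (nat_lit 22217487)))
(L (nat_lit 17832727))))
(L (nat_lit 25560373)))))
(S (nat_lit 40500) (S (nat_lit 8795) (S (nat_lit 17496) (S (nat_lit 20882) (L (nat_lit 1876374))
(S (nat_lit 40564) (S (nat_lit 17543) (S (nat_lit 50505) (S (nat_lit 47) (L (nat_lit 5089717))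
(L (nat_lit 8196689)))
(L (nat_lit 12468406)))
(S (nat_lit 34245) (L (nat_lit 18027195))
(L (nat_lit 7436012))))
(L (nat_lit 16816761))))
(L (nat_lit 8150065)))
(S (nat_lit 28559) (S (nat_lit 34938) (L (nat_lit 796240))
(S (nat_lit 40818) (S (nat_lit 15334) (S (nat_lit 41304) (L (nat_lit 17668146))
(L (nat_lit 7101612)))
(L (nat_lit 805233)))
(L (nat_lit 810348))))
(S (nat_lit 48323) (S (nat_lit 35148) (S (nat_lit 64) (L (nat_lit 29701141))
(L (nat_lit 12971586)))
(L (nat_lit 12915637)))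
(L (nat_lit 25769189)))))
(L (nat_lit 25309800)))))
(S (nat_lit 28576) (S (nat_lit 1732) (S (nat_lit 47) (S (nat_lit 1257) (L (nat_lit 29008044))
(S (nat_lit 9717) (S (nat_lit 2530) (L (nat_lit 18650326))
(L (nat_lit 13403380)))
(L (nat_lit 20418873))))
(S (nat_lit 19811) (S (nat_lit 57088) (S (nat_lit 17496) (L (nat_lit 23355441))
(L (nat_lit 22856897)))
(L (nat_lit 12739798)))
(S (nat_lit 39575) (S (nat_lit 20783) (S (nat_lit 54851) (L (nat_lit 5948733))
(L (nat_lit 13690571)))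
(L (nat_lit 14851673)))
(L (nat_lit 25662678)))))
(S (nat_lit 21496) (S (nat_lit 10949) (S (nat_lit 17496) (S (nat_lit 20783) (L (nat_lit 11177433))
(S (nat_lit 39647) (S (nat_lit 21010) (L (nat_lit 22519899))
(L (nat_lit 21472001)))
(L (nat_lit 7005569))))
(L (nat_lit 24937679)))
(S (nat_lit 30713) (S (nat_lit 17496) (S (nat_lit 36262) (L (nat_lit 3465004))
(S (nat_lit 40805) (S (nat_lit 20783) (L (nat_lit 11177433))
(L (nat_lit 501337)))
(L (nat_lit 24128024))))
(S (nat_lit 47021) (L (nat_lit 15958712))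
(L (nat_lit 6307576))))
(S (nat_lit 50477) (S (nat_lit 35115) (S (nat_lit 17496) (S (nat_lit 40564) (L (nat_lit 11223905))
(L (nat_lit 7401908)))
(L (nat_lit 22578393)))
(L (nat_lit 20726951)))
(L (nat_lit 25837860)))))
(S (nat_lit 41260) (S (nat_lit 17496) (S (nat_lit 8795) (S (nat_lit 40564) (L (nat_lit 8239285))
(L (nat_lit 24910245)))
(S (nat_lit 28559) (S (nat_lit 35087) (S (nat_lit 35148) (L (nat_lit 9208275))
(L (nat_lit 18715335)))
(L (nat_lit 17851082)))
(S (nat_lit 48323) (S (nat_lit 19828) (S (nat_lit 39575) (S (nat_lit 15384) (L (nat_lit 9900633))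
(L (nat_lit 1551064)))
(L (nat_lit 18491448)))
(L (nat_lit 9228335)))
(L (nat_lit 25251053)))))
(L (nat_lit 24329272)))
(L (nat_lit 25496239)))))
(S (nat_lit 48340) (S (nat_lit 8773) (S (nat_lit 17571) (S (nat_lit 17527) (S (nat_lit 10966) (S (nat_lit 15351) (S (nat_lit 19795) (S (nat_lit 48307) (L (nat_lit 15992445))
(L (nat_lit 12353943)))
(L (nat_lit 16384936)))
(L (nat_lit 6917561)))
(L (nat_lit 7931760)))
(S (nat_lit 37291) (S (nat_lit 39592) (L (nat_lit 4628092))
(L (nat_lit 27797090)))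
(S (nat_lit 57055) (S (nat_lit 10960) (S (nat_lit 19811) (S (nat_lit 39592) (S (nat_lit 37274) (S (nat_lit 48338) (S (nat_lit 28554) (S (nat_lit 17679) (S (nat_lit 21512) (L (nat_lit 897398))
(L (nat_lit 30909025)))
(S (nat_lit 21043) (L (nat_lit 12259836))
(S (nat_lit 27036) (L (nat_lit 10983132))
(L (nat_lit 21802401)))))
(L (nat_lit 12678759)))
(L (nat_lit 16086629)))
(L (nat_lit 23281787)))
(L (nat_lit 27611554)))
(L (nat_lit 30688868)))
(L (nat_lit 1635944)))
(L (nat_lit 25476707)))))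
(S (nat_lit 37335) (S (nat_lit 15373) (S (nat_lit 40514) (S (nat_lit 20783) (S (nat_lit 1975) (L (nat_lit 3389239))
(L (nat_lit 12202138)))
(L (nat_lit 6778467)))
(S (nat_lit 41618) (L (nat_lit 1854984))
(L (nat_lit 7791639))))
(S (nat_lit 35137) (S (nat_lit 30741) (S (nat_lit 1958) (S (nat_lit 39603) (S (nat_lit 48338) (S (nat_lit 33521) (L (nat_lit 4471384))
(L (nat_lit 19264960)))
(L (nat_lit 10637752)))
(L (nat_lit 17130145)))
(L (nat_lit 10278033)))
(S (nat_lit 34778) (L (nat_lit 13787446))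
(L (nat_lit 24917344))))
(S (nat_lit 54901) (S (nat_lit 20854) (S (nat_lit 21739) (S (nat_lit 1019) (L (nat_lit 21835815))
(L (nat_lit 4683367)))
(L (nat_lit 11203041)))
(S (nat_lit 40564) (S (nat_lit 39592) (S (nat_lit 20783) (S (nat_lit 57038) (S (nat_lit 1944) (S (nat_lit 972) (S (nat_lit 997) (L (nat_lit 18888061))
(L (nat_lit 4835206)))
(L (nat_lit 10641996)))
(L (nat_lit 11711064)))
(L (nat_lit 10544750)))
(L (nat_lit 30628257)))
(L (nat_lit 27644322)))
(L (nat_lit 10224020))))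
(L (nat_lit 25316808)))))
(S (nat_lit 57099) (S (nat_lit 1215) (S (nat_lit 19811) (S (nat_lit 54899) (S (nat_lit 1701) (S (nat_lit 39590) (S (nat_lit 48338) (S (nat_lit 986) (S (nat_lit 40575) (S (nat_lit 21496) (S (nat_lit 972) (S (nat_lit 41293) (S (nat_lit 15334) (S (nat_lit 1958) (S (nat_lit 40562) (S (nat_lit 57086) (S (nat_lit 116) (S (nat_lit 21750) (S (nat_lit 14816) (S (nat_lit 44489) (S (nat_lit 33507) (S (nat_lit 22364) (S (nat_lit 47518) (S (nat_lit 6922) (D (nat_lit 9) (nat_lit 25383460) (nat_lit 19664265) (nat_lit 171866070051))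
(L (nat_lit 28915849)))
(L (nat_lit 19339452)))
(L (nat_lit 19340064)))
(L (nat_lit 28907909)))
(L (nat_lit 28915973)))
(S (nat_lit 33775) (S (nat_lit 4976) (S (nat_lit 13980) (S (nat_lit 25523) (S (nat_lit 2546) (S (nat_lit 26740) (D (nat_lit 9) (nat_lit 27674948) (nat_lit 25765036) (nat_lit 137640353895))
(L (nat_lit 21394600)))
(L (nat_lit 28888387)))
(L (nat_lit 19170092)))
(L (nat_lit 28950602)))
(L (nat_lit 28855618)))
(L (nat_lit 16961853))))
(L (nat_lit 21438307)))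
(L (nat_lit 21455018)))
(L (nat_lit 12191502)))
(L (nat_lit 23604033)))
(L (nat_lit 3527504)))
(L (nat_lit 26759337)))
(L (nat_lit 27989386)))
(L (nat_lit 20080040)))
(L (nat_lit 14699274)))
(L (nat_lit 27493842)))
(L (nat_lit 12938883)))
(L (nat_lit 20082091)))
(L (nat_lit 12406276)))
(L (nat_lit 13231396)))
(L (nat_lit 11352645)))
(L (nat_lit 15642213)))
(S (nat_lit 20979) (S (nat_lit 19811) (S (nat_lit 54912) (S (nat_lit 40564) (S (nat_lit 21529) (S (nat_lit 10960) (S (nat_lit 57088) (S (nat_lit 40790) (S (nat_lit 20993) (S (nat_lit 1748) (S (nat_lit 1958) (S (nat_lit 21004) (S (nat_lit 14) (S (nat_lit 20925) (S (nat_lit 19806) (S (nat_lit 40731) (S (nat_lit 1277) (S (nat_lit 1797) (S (nat_lit 35115) (S (nat_lit 1398) (S (nat_lit 27290) (S (nat_lit 46764) (S (nat_lit 7668) (D (nat_lit 15) (nat_lit 27774982) (nat_lit 4808972) (nat_lit 1052897))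
(L (nat_lit 28938632)))
(L (nat_lit 19361024)))
(S (nat_lit 41800) (S (nat_lit 44760) (S (nat_lit 41816) (S (nat_lit 7267) (S (nat_lit 3373) (S (nat_lit 3152) (D (nat_lit 13) (nat_lit 30923040) (nat_lit 25759022) (nat_lit 1205817317568))
(L (nat_lit 30843927)))
(L (nat_lit 30973632)))
(L (nat_lit 31044865)))
(L (nat_lit 19359819)))
(L (nat_lit 19806562)))
(L (nat_lit 2989461))))
(L (nat_lit 24289133)))
(L (nat_lit 23465831)))
(L (nat_lit 21424322)))
(L (nat_lit 13314976)))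
(L (nat_lit 21216349)))
(L (nat_lit 14963488)))
(L (nat_lit 19674437)))
(L (nat_lit 6917968)))
(L (nat_lit 21831204)))
(L (nat_lit 12151234)))
(L (nat_lit 13441633)))
(L (nat_lit 15536807)))
(L (nat_lit 27722311)))
(L (nat_lit 10970786)))
(L (nat_lit 18655842)))
(L (nat_lit 10534525)))
(L (nat_lit 4012651)))
(L (nat_lit 10676848)))
(L (nat_lit 30872170)))
(S (nat_lit 40743) (S (nat_lit 20783) (S (nat_lit 17510) (S (nat_lit 54899) (S (nat_lit 28554) (S (nat_lit 35104) (S (nat_lit 1262) (S (nat_lit 21043) (S (nat_lit 19811) (S (nat_lit 21465) (S (nat_lit 19806) (S (nat_lit 30730) (S (nat_lit 57086) (S (nat_lit 35115) (S (nat_lit 1246) (S (nat_lit 41222) (S (nat_lit 21411) (S (nat_lit 1316) (S (nat_lit 21490) (S (nat_lit 15309) (S (nat_lit 15269) (S (nat_lit 54054) (S (nat_lit 15201) (D (nat_lit 15) (nat_lit 27778240) (nat_lit 4809037) (nat_lit 2102530))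
(L (nat_lit 28904841)))
(L (nat_lit 20411681)))
(S (nat_lit 25523) (S (nat_lit 42059) (S (nat_lit 13596) (S (nat_lit 43545) (S (nat_lit 7024) (S (nat_lit 3881) (D (nat_lit 13) (nat_lit 30890088) (nat_lit 25758925) (nat_lit 3403801624709))
(L (nat_lit 31178084)))
(L (nat_lit 31044896)))
(L (nat_lit 28877475)))
(L (nat_lit 31014242)))
(L (nat_lit 28916930)))
(L (nat_lit 29871240))))
(L (nat_lit 26739925)))
(L (nat_lit 16359549)))
(L (nat_lit 12377504)))
(L (nat_lit 27953579)))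
(L (nat_lit 8215633)))
(L (nat_lit 20132708)))
(L (nat_lit 31049056)))
(L (nat_lit 15009370)))
(L (nat_lit 14222621)))
(L (nat_lit 21924359)))
(L (nat_lit 7958946)))
(L (nat_lit 22504645)))
(L (nat_lit 4725336)))
(L (nat_lit 26575472)))
(L (nat_lit 30803560)))
(L (nat_lit 30810721)))
(L (nat_lit 5598799)))
(L (nat_lit 15953508)))
(L (nat_lit 30622305)))
(L (nat_lit 25512108)))))
(L (nat_lit 25634901)))))
(S (nat_lit 28537) (S (nat_lit 10935) (S (nat_lit 1701) (S (nat_lit 8740) (S (nat_lit 8660) (L (nat_lit 16670049))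
(L (nat_lit 1267473)))
(S (nat_lit 15309) (S (nat_lit 17496) (S (nat_lit 1082) (S (nat_lit 1215) (L (nat_lit 4598395))
(L (nat_lit 20719724)))
(S (nat_lit 20783) (S (nat_lit 40564) (S (nat_lit 1215) (S (nat_lit 37335) (S (nat_lit 8810) (S (nat_lit 39592) (L (nat_lit 27840518))
(L (nat_lit 10678894)))
(L (nat_lit 17106620)))
(L (nat_lit 30558631)))
(L (nat_lit 10662521)))
(L (nat_lit 27787878)))
(L (nat_lit 22242691))))
(L (nat_lit 7397167)))
(L (nat_lit 531255))))
(S (nat_lit 21465) (S (nat_lit 20783) (S (nat_lit 57038) (S (nat_lit 57086) (L (nat_lit 4672892))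
(L (nat_lit 13371018)))
(L (nat_lit 14706282)))
(L (nat_lit 20997543)))
(S (nat_lit 41229) (S (nat_lit 35098) (S (nat_lit 35104) (S (nat_lit 24816) (L (nat_lit 17921608))
(L (nat_lit 1850739)))
(L (nat_lit 18612840)))
(L (nat_lit 12641928)))
(L (nat_lit 25790889)))))
(S (nat_lit 30699) (S (nat_lit 1763) (S (nat_lit 15334) (S (nat_lit 57038) (L (nat_lit 28333480))
(L (nat_lit 11584402)))
(L (nat_lit 26416566)))
(S (nat_lit 21527) (S (nat_lit 40774) (S (nat_lit 19811) (S (nat_lit 40720) (L (nat_lit 5811868))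
(L (nat_lit 5000646)))
(L (nat_lit 15476759)))
(L (nat_lit 16994081)))
(S (nat_lit 41291) (S (nat_lit 17496) (S (nat_lit 40805) (S (nat_lit 40564) (S (nat_lit 35104) (L (nat_lit 25080838))
(L (nat_lit 13376195)))
(L (nat_lit 27310662)))
(L (nat_lit 27512352)))
(L (nat_lit 24339937)))
(L (nat_lit 25708801)))))
(S (nat_lit 50463) (S (nat_lit 15384) (S (nat_lit 21021) (S (nat_lit 31) (S (nat_lit 17496) (S (nat_lit 39542) (L (nat_lit 1559336))
(L (nat_lit 11137136)))
(L (nat_lit 7364152)))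
(L (nat_lit 8020047)))
(S (nat_lit 58393) (S (nat_lit 20783) (S (nat_lit 21010) (L (nat_lit 14297181))
(L (nat_lit 5000646)))
(L (nat_lit 15474243)))
(L (nat_lit 1719146))))
(S (nat_lit 35148) (S (nat_lit 54851) (S (nat_lit 10960) (S (nat_lit 35098) (S (nat_lit 15340) (S (nat_lit 39592) (S (nat_lit 19789) (S (nat_lit 21783) (S (nat_lit 54879) (S (nat_lit 15309) (S (nat_lit 30713) (S (nat_lit 11599) (S (nat_lit 11525) (L (nat_lit 2343544))
(L (nat_lit 19673346)))
(S (nat_lit 41576) (L (nat_lit 29432247))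
(L (nat_lit 20165722))))
(L (nat_lit 24147244)))
(L (nat_lit 14901985)))
(L (nat_lit 10613239)))
(L (nat_lit 30941234)))
(L (nat_lit 9455320)))
(L (nat_lit 27796067)))
(L (nat_lit 15408251)))
(L (nat_lit 30658700)))
(L (nat_lit 21033296)))
(L (nat_lit 10536664)))
(S (nat_lit 54912) (S (nat_lit 39592) (S (nat_lit 35073) (S (nat_lit 10982) (S (nat_lit 19811) (S (nat_lit 39570) (S (nat_lit 30741) (S (nat_lit 31) (S (nat_lit 28559) (S (nat_lit 21733) (S (nat_lit 19839) (S (nat_lit 39542) (S (nat_lit 2006) (S (nat_lit 1944) (S (nat_lit 15323) (S (nat_lit 54862) (S (nat_lit 35135) (S (nat_lit 8779) (S (nat_lit 50494) (S (nat_lit 7733) (S (nat_lit 46532) (S (nat_lit 22591) (L (nat_lit 2344540))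
(L (nat_lit 26983617)))
(L (nat_lit 26983616)))
(S (nat_lit 20783) (S (nat_lit 37307) (S (nat_lit 1034) (S (nat_lit 40514) (S (nat_lit 57088) (S (nat_lit 3116) (S (nat_lit 4771) (S (nat_lit 3144) (S (nat_lit 17860) (S (nat_lit 18193) (S (nat_lit 13808) (S (nat_lit 47392) (S (nat_lit 18556) (S (nat_lit 20979) (S (nat_lit 29483) (S (nat_lit 34787) (S (nat_lit 47944) (S (nat_lit 32538) (D (nat_lit 13) (nat_lit 13407849) (nat_lit 3951146) (nat_lit 8802808108134))
(L (nat_lit 26846628)))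
(L (nat_lit 13388970)))
(L (nat_lit 13388968)))
(L (nat_lit 9227683)))
(L (nat_lit 25768195)))
(S (nat_lit 27206) (S (nat_lit 46663) (S (nat_lit 57191) (D (nat_lit 11) (nat_lit 26974353) (nat_lit 19292453) (nat_lit 282463502432))
(L (nat_lit 24036643)))
(L (nat_lit 28979491)))
(L (nat_lit 20744432))))
(L (nat_lit 28967182)))
(L (nat_lit 29674672)))
(L (nat_lit 12735304)))
(L (nat_lit 29038088)))
(L (nat_lit 31141960)))
(L (nat_lit 29044808)))
(S (nat_lit 17190) (S (nat_lit 32002) (S (nat_lit 40805) (S (nat_lit 36759) (S (nat_lit 32052) (S (nat_lit 2608) (S (nat_lit 58406) (S (nat_lit 3401) (S (nat_lit 29108) (S (nat_lit 18606) (D (nat_lit 15) (nat_lit 13473483) (nat_lit 13178630) (nat_lit 8624639137))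
(L (nat_lit 28910082)))
(L (nat_lit 22585218)))
(L (nat_lit 30094627)))
(L (nat_lit 24036676)))
(S (nat_lit 29638) (S (nat_lit 58877) (S (nat_lit 52892) (D (nat_lit 15) (nat_lit 28689556) (nat_lit 19216131) (nat_lit 42018575522))
(L (nat_lit 20491075)))
(L (nat_lit 28912066)))
(L (nat_lit 3974860))))
(L (nat_lit 8055203)))
(L (nat_lit 15360171)))
(L (nat_lit 27805769)))
(L (nat_lit 15540900)))
(S (nat_lit 48736) (S (nat_lit 9476) (S (nat_lit 9143) (S (nat_lit 53378) (S (nat_lit 2873) (S (nat_lit 28955) (S (nat_lit 6958) (S (nat_lit 2608) (S (nat_lit 44526) (S (nat_lit 7179) (D (nat_lit 13) (nat_lit 1940177) (nat_lit 12831493) (nat_lit 2302271488097))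
(L (nat_lit 28781654)))
(L (nat_lit 29049928)))
(S (nat_lit 49157) (S (nat_lit 20979) (S (nat_lit 38200) (S (nat_lit 23830) (S (nat_lit 32538) (D (nat_lit 13) (nat_lit 14454379) (nat_lit 3951080) (nat_lit 4401403166856))
(L (nat_lit 26846628)))
(L (nat_lit 18997674)))
(L (nat_lit 9193893)))
(L (nat_lit 25768195)))
(L (nat_lit 30650485))))
(L (nat_lit 27642959)))
(L (nat_lit 27407051)))
(L (nat_lit 13954231)))
(L (nat_lit 20062032)))
(L (nat_lit 28639919)))
(L (nat_lit 30750370)))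
(L (nat_lit 29432343)))))
(L (nat_lit 19358915)))
(L (nat_lit 17748163)))
(L (nat_lit 19837155)))
(L (nat_lit 31043781)))
(L (nat_lit 30924035))))
(L (nat_lit 27580834)))
(L (nat_lit 21258627)))
(L (nat_lit 10109113)))
(L (nat_lit 11030681)))
(L (nat_lit 8121732)))
(L (nat_lit 12372355)))
(L (nat_lit 14567616)))
(L (nat_lit 10502038)))
(L (nat_lit 8973985)))
(L (nat_lit 11354196)))
(L (nat_lit 30813203)))
(L (nat_lit 7144111)))
(L (nat_lit 19674432)))
(L (nat_lit 6176114)))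
(L (nat_lit 22307856)))
(L (nat_lit 16591557)))
(L (nat_lit 20782529)))
(L (nat_lit 10646126)))
(L (nat_lit 25546864)))))
(L (nat_lit 25411265)))))
(S (nat_lit 48301) (S (nat_lit 1944) (S (nat_lit 39592) (S (nat_lit 19811) (S (nat_lit 10960) (S (nat_lit 28559) (S (nat_lit 30741) (S (nat_lit 28574) (S (nat_lit 8790) (S (nat_lit 11010) (S (nat_lit 50494) (S (nat_lit 30713) (S (nat_lit 17538) (L (nat_lit 16485254))
(S (nat_lit 37302) (S (nat_lit 37274) (S (nat_lit 41254) (L (nat_lit 2316828))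
(L (nat_lit 25073775)))
(L (nat_lit 9172044)))
(S (nat_lit 57066) (S (nat_lit 972) (S (nat_lit 41291) (L (nat_lit 5524238))
(L (nat_lit 8506193)))
(L (nat_lit 19141049)))
(L (nat_lit 25595223)))))
(L (nat_lit 25044388)))
(L (nat_lit 27384233)))
(S (nat_lit 30774) (S (nat_lit 21770) (S (nat_lit 39559) (S (nat_lit 10966) (S (nat_lit 41497) (S (nat_lit 19778) (S (nat_lit 41503) (S (nat_lit 2019) (S (nat_lit 21722) (S (nat_lit 42) (S (nat_lit 10999) (S (nat_lit 50510) (S (nat_lit 28526) (S (nat_lit 30699) (S (nat_lit 17496) (S (nat_lit 17571) (S (nat_lit 37274) (S (nat_lit 57055) (S (nat_lit 57049) (S (nat_lit 15356) (S (nat_lit 20798) (S (nat_lit 35104) (S (nat_lit 40531) (S (nat_lit 54879) (S (nat_lit 2543) (S (nat_lit 9148) (S (nat_lit 26793) (S (nat_lit 2537) (S (nat_lit 7270) (S (nat_lit 34501) (S (nat_lit 25075) (S (nat_lit 20979) (S (nat_lit 49162) (S (nat_lit 38195) (S (nat_lit 30452) (S (nat_lit 36900) (D (nat_lit 13) (nat_lit 14470249)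 (nat_lit 3951080) (nat_lit 3299747266696))
(L (nat_lit 26850658)))
(L (nat_lit 3984776)))
(L (nat_lit 9194883)))
(L (nat_lit 9194885)))
(L (nat_lit 25768195)))
(S (nat_lit 50395) (S (nat_lit 2786) (S (nat_lit 58425) (D (nat_lit 11) (nat_lit 9292325) (nat_lit 25768043) (nat_lit 277025557635))
(L (nat_lit 24033536)))
(L (nat_lit 28981504)))
(L (nat_lit 19833933))))
(L (nat_lit 21239567)))
(L (nat_lit 17141682)))
(L (nat_lit 21460074)))
(L (nat_lit 4045511)))
(L (nat_lit 29015301)))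
(S (nat_lit 55916) (S (nat_lit 40743) (S (nat_lit 16648) (S (nat_lit 12842) (S (nat_lit 21465) (S (nat_lit 32365) (S (nat_lit 55955) (S (nat_lit 23988) (S (nat_lit 27277) (S (nat_lit 18382) (D (nat_lit 15) (nat_lit 27412969) (nat_lit 25348364) (nat_lit 207403293922))
(L (nat_lit 28981318)))
(L (nat_lit 21864965)))
(S (nat_lit 47468) (S (nat_lit 17978) (S (nat_lit 42551) (D (nat_lit 15) (nat_lit 31003115) (nat_lit 25761160) (nat_lit 104427786370))
(L (nat_lit 28793121)))
(L (nat_lit 31078689)))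
(L (nat_lit 24441904))))
(L (nat_lit 14686968)))
(L (nat_lit 20978232)))
(L (nat_lit 31000971)))
(L (nat_lit 31006081)))
(L (nat_lit 27315622)))
(L (nat_lit 27544995)))
(S (nat_lit 57453) (S (nat_lit 27003) (S (nat_lit 23533) (S (nat_lit 57492) (S (nat_lit 44384) (S (nat_lit 49637) (S (nat_lit 1279) (S (nat_lit 53525) (S (nat_lit 31879) (S (nat_lit 36900) (D (nat_lit 15) (nat_lit 27855087) (nat_lit 18915089) (nat_lit 138752952392))
(L (nat_lit 28940368)))
(L (nat_lit 9360929)))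
(L (nat_lit 28907905)))
(S (nat_lit 35186) (S (nat_lit 27765) (S (nat_lit 57216) (D (nat_lit 13) (nat_lit 29446447) (nat_lit 11284658) (nat_lit 6708973898786))
(L (nat_lit 23620900)))
(L (nat_lit 21870881)))
(L (nat_lit 26793067))))
(L (nat_lit 21164486)))
(L (nat_lit 29841698)))
(L (nat_lit 23536549)))
(L (nat_lit 28641996)))
(L (nat_lit 9361856)))
(L (nat_lit 9101327)))))
(L (nat_lit 21557383)))
(L (nat_lit 23569285)))
(L (nat_lit 31146275)))
(L (nat_lit 31143203)))
(S (nat_lit 31342) (S (nat_lit 32314) (S (nat_lit 31797) (L (nat_lit 25273878))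
(L (nat_lit 26816834)))
(L (nat_lit 26849602)))
(L (nat_lit 404242))))
(L (nat_lit 19829069)))
(L (nat_lit 19166285)))
(L (nat_lit 20509770)))
(L (nat_lit 7229553)))
(S (nat_lit 37260) (S (nat_lit 17527) (S (nat_lit 7646) (S (nat_lit 48954) (L (nat_lit 7453404))
(L (nat_lit 26982593)))
(S (nat_lit 41856) (L (nat_lit 14785244))
(L (nat_lit 29069680))))
(L (nat_lit 7176909)))
(S (nat_lit 57024) (S (nat_lit 17543) (S (nat_lit 1715) (L (nat_lit 29470226))
(S (nat_lit 58425) (S (nat_lit 19193) (S (nat_lit 58668) (L (nat_lit 5554813))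
(L (nat_lit 24031428)))
(L (nat_lit 31076580)))
(L (nat_lit 13932189))))
(L (nat_lit 1944114)))
(L (nat_lit 25363959)))))
(L (nat_lit 19394566)))
(L (nat_lit 10367093)))
(L (nat_lit 27798213)))
(L (nat_lit 6995995)))
(L (nat_lit 19375008)))
(L (nat_lit 7987650)))
(L (nat_lit 26744979)))
(L (nat_lit 17704609)))
(L (nat_lit 9850971)))
(L (nat_lit 17735764)))
(L (nat_lit 1949257)))
(L (nat_lit 10964060)))
(L (nat_lit 11390033)))
(S (nat_lit 50538) (S (nat_lit 10949) (S (nat_lit 31656) (L (nat_lit 8565340))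
(S (nat_lit 36870) (L (nat_lit 6768796))
(S (nat_lit 57055) (S (nat_lit 35104) (S (nat_lit 21540) (L (nat_lit 4726392))
(L (nat_lit 31136226)))
(L (nat_lit 31047970)))
(L (nat_lit 21296546)))))
(L (nat_lit 8178085)))
(L (nat_lit 25800992)))))
(L (nat_lit 6875316)))
(L (nat_lit 8843877)))
(L (nat_lit 19407036)))
(L (nat_lit 30813893)))
(S (nat_lit 50380) (S (nat_lit 7910) (L (nat_lit 15605411))
(L (nat_lit 15954530)))
(L (nat_lit 21772456))))
(L (nat_lit 30879333)))
(S (nat_lit 41456) (L (nat_lit 4991599))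
(L (nat_lit 11069026))))
(S (nat_lit 21708) (S (nat_lit 15351) (S (nat_lit 1073) (L (nat_lit 22101339))
(S (nat_lit 20783) (S (nat_lit 17496) (S (nat_lit 21783) (S (nat_lit 50527) (L (nat_lit 28490344))
(L (nat_lit 12334135)))
(L (nat_lit 16556178)))
(L (nat_lit 1828047)))
(L (nat_lit 6037072))))
(S (nat_lit 35115) (S (nat_lit 21026) (S (nat_lit 21496) (L (nat_lit 4695892))
(L (nat_lit 11292096)))
(S (nat_lit 50134) (S (nat_lit 30569) (L (nat_lit 5036550))
(L (nat_lit 16537920)))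
(L (nat_lit 15467079))))
(S (nat_lit 54879) (S (nat_lit 21490) (S (nat_lit 20783) (L (nat_lit 5063958))
(L (nat_lit 15468105)))
(S (nat_lit 33772) (L (nat_lit 4976139))
(L (nat_lit 7955567))))
(L (nat_lit 25431541)))))
(S (nat_lit 41472) (S (nat_lit 64) (S (nat_lit 20783) (S (nat_lit 40564) (S (nat_lit 19811) (L (nat_lit 4673755))
(L (nat_lit 16444459)))
(L (nat_lit 23866784)))
(L (nat_lit 15468105)))
(S (nat_lit 19828) (S (nat_lit 50477) (S (nat_lit 8823) (S (nat_lit 17496) (S (nat_lit 41229) (L (nat_lit 29790823))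
(L (nat_lit 23963044)))
(L (nat_lit 24675544)))
(L (nat_lit 1406356)))
(L (nat_lit 11591096)))
(S (nat_lit 39592) (S (nat_lit 15340) (S (nat_lit 40564) (L (nat_lit 5710461))
(L (nat_lit 27794016)))
(S (nat_lit 35104) (S (nat_lit 40564) (S (nat_lit 1296) (L (nat_lit 7454429))
(L (nat_lit 11711064)))
(L (nat_lit 27831904)))
(S (nat_lit 54868) (S (nat_lit 19683) (L (nat_lit 1308055))
(L (nat_lit 27663378)))
(L (nat_lit 25888136)))))
(L (nat_lit 25350536)))))
(L (nat_lit 25562699)))))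
(L (nat_lit 25646216)))))
(L (nat_lit 25320684)))))
(S (nat_lit 41519) (S (nat_lit 1748) (S (nat_lit 2006) (S (nat_lit 15334) (S (nat_lit 47) (S (nat_lit 8812) (S (nat_lit 17560) (S (nat_lit 11010) (S (nat_lit 19826) (S (nat_lit 20783) (S (nat_lit 31649) (S (nat_lit 1047) (S (nat_lit 37302) (S (nat_lit 39542) (S (nat_lit 19789) (S (nat_lit 31612) (S (nat_lit 21490) (S (nat_lit 54901) (S (nat_lit 17401) (S (nat_lit 17337) (S (nat_lit 27984) (S (nat_lit 53982) (S (nat_lit 34704) (D (nat_lit 15) (nat_lit 13922880) (nat_lit 6048076) (nat_lit 240524468390))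
(L (nat_lit 21440602)))
(L (nat_lit 29046795)))
(S (nat_lit 53030) (S (nat_lit 3743) (S (nat_lit 29652) (D (nat_lit 15) (nat_lit 29578384) (nat_lit 402194) (nat_lit 8729402502))
(L (nat_lit 21439267)))
(L (nat_lit 28790981)))
(L (nat_lit 13393067))))
(L (nat_lit 8118416)))
(L (nat_lit 8309905)))
(L (nat_lit 21302809)))
(L (nat_lit 22408704)))
(L (nat_lit 30093478)))
(L (nat_lit 21032302)))
(L (nat_lit 23269169)))
(L (nat_lit 17572417)))
(L (nat_lit 19834306)))
(L (nat_lit 29841603)))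
(L (nat_lit 6773571)))
(L (nat_lit 15402794)))
(L (nat_lit 7828566)))
(L (nat_lit 7802646)))
(L (nat_lit 7528209)))
(S (nat_lit 19811) (S (nat_lit 40774) (S (nat_lit 54899) (L (nat_lit 1743289))
(L (nat_lit 27755890)))
(L (nat_lit 489131)))
(S (nat_lit 39575) (S (nat_lit 40547) (L (nat_lit 6786648))
(L (nat_lit 9918554)))
(L (nat_lit 25838788)))))
(S (nat_lit 35098) (S (nat_lit 25) (S (nat_lit 30724) (L (nat_lit 17852791))
(L (nat_lit 9463405)))
(S (nat_lit 19789) (S (nat_lit 28537) (S (nat_lit 1047) (S (nat_lit 37285) (S (nat_lit 42) (L (nat_lit 11591472))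
(L (nat_lit 14491827)))
(L (nat_lit 16805512)))
(L (nat_lit 13687160)))
(L (nat_lit 24128957)))
(S (nat_lit 39553) (S (nat_lit 10935) (S (nat_lit 40562) (L (nat_lit 23077306))
(L (nat_lit 18060054)))
(L (nat_lit 15959830)))
(L (nat_lit 25615496)))))
(S (nat_lit 54862) (S (nat_lit 1277) (S (nat_lit 57038) (L (nat_lit 11548471))
(L (nat_lit 18900490)))
(S (nat_lit 21041) (S (nat_lit 37285) (S (nat_lit 40562) (L (nat_lit 19938150))
(L (nat_lit 18058006)))
(L (nat_lit 3390262)))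
(S (nat_lit 40805) (S (nat_lit 1290) (S (nat_lit 19778) (S (nat_lit 40547) (L (nat_lit 29368852))
(L (nat_lit 9462385)))
(L (nat_lit 15753494)))
(L (nat_lit 19930617)))
(L (nat_lit 25251056)))))
(L (nat_lit 25701954)))))
(S (nat_lit 21770) (S (nat_lit 1279) (S (nat_lit 10960) (S (nat_lit 17496) (S (nat_lit 35104) (S (nat_lit 20800) (L (nat_lit 18575494))
(L (nat_lit 14719576)))
(L (nat_lit 2890131)))
(L (nat_lit 6315793)))
(S (nat_lit 30724) (S (nat_lit 17496) (S (nat_lit 1557) (L (nat_lit 11101572))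
(S (nat_lit 35104) (S (nat_lit 48301) (L (nat_lit 27505250))
(L (nat_lit 27276904)))
(L (nat_lit 2890348))))
(S (nat_lit 56868) (L (nat_lit 6751867))
(L (nat_lit 1562374))))
(S (nat_lit 50488) (S (nat_lit 35087) (S (nat_lit 35104) (S (nat_lit 1262) (S (nat_lit 17496) (S (nat_lit 10935) (S (nat_lit 1765) (S (nat_lit 47) (S (nat_lit 8812) (S (nat_lit 21733) (S (nat_lit 20783) (S (nat_lit 40531) (S (nat_lit 17560) (S (nat_lit 15356) (S (nat_lit 21496) (S (nat_lit 48301) (S (nat_lit 2053) (S (nat_lit 57086) (S (nat_lit 40453) (S (nat_lit 19795) (S (nat_lit 3785) (S (nat_lit 46740) (S (nat_lit 7863) (D (nat_lit 15) (nat_lit 28973537) (nat_lit 4808973) (nat_lit 1055873))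
(L (nat_lit 28430890)))
(L (nat_lit 19772608)))
(S (nat_lit 44977) (S (nat_lit 4963) (S (nat_lit 5676) (S (nat_lit 26523) (S (nat_lit 44617) (S (nat_lit 13544) (D (nat_lit 13) (nat_lit 27866337) (nat_lit 19666157) (nat_lit 1140448036968))
(L (nat_lit 31176810)))
(L (nat_lit 21390530)))
(L (nat_lit 21937346)))
(L (nat_lit 28919077)))
(L (nat_lit 28913956)))
(L (nat_lit 3647132))))
(L (nat_lit 22486947)))
(L (nat_lit 29570752)))
(L (nat_lit 11994712)))
(L (nat_lit 4875655)))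
(L (nat_lit 27988337)))
(L (nat_lit 20984743)))
(L (nat_lit 15429643)))
(L (nat_lit 18214627)))
(L (nat_lit 7354261)))
(L (nat_lit 30622807)))
(L (nat_lit 15064157)))
(L (nat_lit 16969417)))
(L (nat_lit 20000561)))
(L (nat_lit 18999690)))
(L (nat_lit 21535521)))
(L (nat_lit 26236455)))
(L (nat_lit 19735938)))
(L (nat_lit 23856521)))
(L (nat_lit 19935513)))
(L (nat_lit 25213545)))))
(S (nat_lit 21043) (S (nat_lit 3863) (L (nat_lit 8853115))
(S (nat_lit 17496) (S (nat_lit 28574) (L (nat_lit 28449393))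
(S (nat_lit 40924) (S (nat_lit 48301) (L (nat_lit 12771944))
(L (nat_lit 12018274)))
(L (nat_lit 2529913))))
(L (nat_lit 7046959))))
(S (nat_lit 40807) (S (nat_lit 1743) (S (nat_lit 37274) (S (nat_lit 50488) (L (nat_lit 10514030))
(L (nat_lit 27273837)))
(L (nat_lit 17010297)))
(S (nat_lit 21507) (S (nat_lit 50477) (L (nat_lit 29825107))
(L (nat_lit 19948846)))
(S (nat_lit 41271) (S (nat_lit 30774) (L (nat_lit 29448582))
(L (nat_lit 17425510)))
(L (nat_lit 25181459)))))
(L (nat_lit 25396846)))))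
(S (nat_lit 41534) (S (nat_lit 15340) (S (nat_lit 8812) (S (nat_lit 17496) (S (nat_lit 20783) (S (nat_lit 8779) (L (nat_lit 9274775))
(L (nat_lit 8193617)))
(L (nat_lit 31114375)))
(L (nat_lit 6997792)))
(S (nat_lit 28576) (S (nat_lit 17496) (S (nat_lit 41293) (L (nat_lit 24135032))
(L (nat_lit 17629799)))
(L (nat_lit 7101489)))
(S (nat_lit 48340) (S (nat_lit 28224) (L (nat_lit 24475011))
(L (nat_lit 23856521)))
(L (nat_lit 25550274)))))
(S (nat_lit 35104) (S (nat_lit 17521) (S (nat_lit 35087) (S (nat_lit 14) (S (nat_lit 20800) (S (nat_lit 20783) (S (nat_lit 1279) (S (nat_lit 8779) (S (nat_lit 35120) (S (nat_lit 50538) (S (nat_lit 52309) (S (nat_lit 35995) (S (nat_lit 17510) (S (nat_lit 52320) (S (nat_lit 52307) (S (nat_lit 36011) (S (nat_lit 3109) (S (nat_lit 49597) (S (nat_lit 38587) (S (nat_lit 47642) (S (nat_lit 30319) (S (nat_lit 37453) (D (nat_lit 15) (nat_lit 6182440) (nat_lit 10242595) (nat_lit 249116622948))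
(L (nat_lit 27712773)))
(L (nat_lit 22885637)))
(L (nat_lit 21066182)))
(L (nat_lit 21524676)))
(L (nat_lit 21457090)))
(S (nat_lit 48675) (S (nat_lit 5927) (S (nat_lit 49958) (D (nat_lit 15) (nat_lit 3953130) (nat_lit 25761100) (nat_lit 213849740352))
(L (nat_lit 29997315)))
(L (nat_lit 27869509)))
(L (nat_lit 23145019))))
(L (nat_lit 24145167)))
(L (nat_lit 23098824)))
(L (nat_lit 28318132)))
(L (nat_lit 22048170)))
(L (nat_lit 22029073)))
(L (nat_lit 18024306)))
(L (nat_lit 20078865)))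
(L (nat_lit 8971284)))
(L (nat_lit 872840)))
(L (nat_lit 26969483)))
(L (nat_lit 30875233)))
(L (nat_lit 6354542)))
(L (nat_lit 8147056)))
(L (nat_lit 23098762)))
(S (nat_lit 37285) (S (nat_lit 37291) (S (nat_lit 39590) (S (nat_lit 35148) (L (nat_lit 18155383))
(L (nat_lit 2616934)))
(L (nat_lit 23593338)))
(S (nat_lit 56975) (L (nat_lit 521834))
(L (nat_lit 23332280))))
(S (nat_lit 57049) (S (nat_lit 1014) (S (nat_lit 50488) (S (nat_lit 35148) (S (nat_lit 30774) (L (nat_lit 4039062))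
(L (nat_lit 8809590)))
(L (nat_lit 23210396)))
(L (nat_lit 27514242)))
(S (nat_lit 23149) (L (nat_lit 13305208))
(L (nat_lit 18886168))))
(L (nat_lit 25734326)))))
(S (nat_lit 54868) (S (nat_lit 8790) (S (nat_lit 40547) (L (nat_lit 11448928))
(L (nat_lit 3367536)))
(S (nat_lit 21311) (S (nat_lit 10935) (L (nat_lit 6742722))
(L (nat_lit 23872704)))
(L (nat_lit 17647750))))
(L (nat_lit 25449580)))))
(L (nat_lit 25447441)))))
(S (nat_lit 21512) (S (nat_lit 1047) (S (nat_lit 1715) (S (nat_lit 15351) (S (nat_lit 17496) (S (nat_lit 19789) (S (nat_lit 19806) (S (nat_lit 40743) (S (nat_lit 1986) (S (nat_lit 50488) (S (nat_lit 35148) (S (nat_lit 48351) (S (nat_lit 17543) (S (nat_lit 11622) (S (nat_lit 48307) (S (nat_lit 54901) (S (nat_lit 40525) (S (nat_lit 39542) (S (nat_lit 33520) (S (nat_lit 29699) (S (nat_lit 9837) (S (nat_lit 3972) (S (nat_lit 17655) (D (nat_lit 13) (nat_lit 27853069) (nat_lit 25764975) (nat_lit 6674620487681))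
(L (nat_lit 27865441)))
(L (nat_lit 28789986)))
(L (nat_lit 28907598)))
(L (nat_lit 15650080)))
(S (nat_lit 48449) (S (nat_lit 33995) (S (nat_lit 38464) (S (nat_lit 8863) (S (nat_lit 58566) (D (nat_lit 13) (nat_lit 31109377) (nat_lit 19259503) (nat_lit 2308681468161))
(L (nat_lit 28399017)))
(L (nat_lit 27859089)))
(L (nat_lit 27859329)))
(L (nat_lit 19460417)))
(L (nat_lit 18719425))))
(L (nat_lit 17868695)))
(L (nat_lit 23465734)))
(L (nat_lit 21775587)))
(L (nat_lit 15834713)))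
(L (nat_lit 22069561)))
(L (nat_lit 18118308)))
(L (nat_lit 22887494)))
(L (nat_lit 31009152)))
(L (nat_lit 12607863)))
(L (nat_lit 13442130)))
(L (nat_lit 17427624)))
(L (nat_lit 22821184)))
(L (nat_lit 22457496)))
(L (nat_lit 26983649)))
(S (nat_lit 20891) (S (nat_lit 15309) (L (nat_lit 6784600))
(L (nat_lit 22545624)))
(L (nat_lit 26781249))))
(S (nat_lit 21479) (S (nat_lit 569) (S (nat_lit 23752) (L (nat_lit 11306604))
(L (nat_lit 6776416)))
(S (nat_lit 21026) (S (nat_lit 57055) (S (nat_lit 15371) (S (nat_lit 15323) (S (nat_lit 20783) (L (nat_lit 21011280))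
(L (nat_lit 30875201)))
(L (nat_lit 6773573)))
(L (nat_lit 15605316)))
(L (nat_lit 15310626)))
(L (nat_lit 15473783))))
(S (nat_lit 41243) (S (nat_lit 8779) (S (nat_lit 15309) (L (nat_lit 15598803))
(L (nat_lit 22486040)))
(S (nat_lit 28543) (S (nat_lit 57086) (S (nat_lit 17496) (L (nat_lit 11240860))
(L (nat_lit 8095505)))
(L (nat_lit 19203546)))
(S (nat_lit 48307) (S (nat_lit 40807) (S (nat_lit 20800) (S (nat_lit 35104) (L (nat_lit 28352174))
(L (nat_lit 23855656)))
(L (nat_lit 22845829)))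
(L (nat_lit 17898073)))
(L (nat_lit 25286961)))))
(L (nat_lit 25526742)))))
(S (nat_lit 20811) (S (nat_lit 972) (S (nat_lit 10977) (S (nat_lit 19828) (S (nat_lit 20800) (L (nat_lit 4781674))
(L (nat_lit 15506016)))
(L (nat_lit 21127560)))
(S (nat_lit 30741) (S (nat_lit 21026) (S (nat_lit 1944) (S (nat_lit 40807) (L (nat_lit 26746465))
(L (nat_lit 2971014)))
(L (nat_lit 20753797)))
(L (nat_lit 22823079)))
(S (nat_lit 50505) (S (nat_lit 19839) (S (nat_lit 20750) (S (nat_lit 57088) (L (nat_lit 29508981))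
(L (nat_lit 27443880)))
(L (nat_lit 22307265)))
(L (nat_lit 21317377)))
(L (nat_lit 25288070)))))
(S (nat_lit 20736) (S (nat_lit 1732) (S (nat_lit 17543) (S (nat_lit 17560) (S (nat_lit 40790) (S (nat_lit 21739) (L (nat_lit 5028455))
(L (nat_lit 21230049)))
(L (nat_lit 934471)))
(L (nat_lit 6907952)))
(L (nat_lit 7158437)))
(S (nat_lit 21496) (S (nat_lit 15309) (S (nat_lit 17496) (S (nat_lit 21010) (S (nat_lit 21722) (S (nat_lit 20750) (L (nat_lit 16587826))
(L (nat_lit 21043673)))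
(L (nat_lit 21077465)))
(L (nat_lit 7097486)))
(L (nat_lit 24921094)))
(S (nat_lit 15957) (S (nat_lit 8779) (S (nat_lit 21479) (S (nat_lit 50488) (S (nat_lit 16032) (S (nat_lit 50538) (S (nat_lit 41503) (S (nat_lit 50527) (S (nat_lit 20798) (S (nat_lit 62) (S (nat_lit 17543) (S (nat_lit 8812) (S (nat_lit 8762) (S (nat_lit 40818) (S (nat_lit 35104) (S (nat_lit 50181) (S (nat_lit 30308) (S (nat_lit 17733) (S (nat_lit 47670) (S (nat_lit 52616) (D (nat_lit 13) (nat_lit 3033324) (nat_lit 25762991) (nat_lit 1168507080807))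
(L (nat_lit 20425572)))
(L (nat_lit 28916994)))
(L (nat_lit 29763701)))
(L (nat_lit 22884675)))
(S (nat_lit 58233) (S (nat_lit 34067) (S (nat_lit 7153) (S (nat_lit 26448) (S (nat_lit 44774) (D (nat_lit 13) (nat_lit 3953096) (nat_lit 25598066) (nat_lit 6600366660744))
(L (nat_lit 29036937)))
(L (nat_lit 20391098)))
(L (nat_lit 27381257)))
(L (nat_lit 27902057)))
(L (nat_lit 26615397))))
(L (nat_lit 10187139)))
(L (nat_lit 23855468)))
(L (nat_lit 14721907)))
(L (nat_lit 8041218)))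
(L (nat_lit 22548701)))
(L (nat_lit 20453564)))
(L (nat_lit 22254448)))
(L (nat_lit 15010679)))
(L (nat_lit 8875649)))
(L (nat_lit 5726791)))
(L (nat_lit 21932174)))
(L (nat_lit 12801209)))
(L (nat_lit 16375976)))
(L (nat_lit 21825064)))
(L (nat_lit 826839))))
(S (nat_lit 41260) (S (nat_lit 50463) (S (nat_lit 15309) (L (nat_lit 1299215))
(L (nat_lit 6981145)))
(L (nat_lit 27515361)))
(L (nat_lit 25399982)))))
(S (nat_lit 40500) (S (nat_lit 17496) (S (nat_lit 1240) (S (nat_lit 40807) (S (nat_lit 40525) (S (nat_lit 35115) (L (nat_lit 17532124))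
(L (nat_lit 23864737)))
(L (nat_lit 27893248)))
(L (nat_lit 28018054)))
(S (nat_lit 21004) (S (nat_lit 17510) (S (nat_lit 8762) (L (nat_lit 640348))
(L (nat_lit 6774596)))
(L (nat_lit 6996804)))
(S (nat_lit 40768) (S (nat_lit 31) (S (nat_lit 8810) (L (nat_lit 16817851))
(L (nat_lit 17734244)))
(L (nat_lit 695150)))
(L (nat_lit 25281254)))))
(S (nat_lit 27458) (S (nat_lit 54912) (L (nat_lit 1581691))
(L (nat_lit 13984353)))
(L (nat_lit 18646261))))
(L (nat_lit 25596242)))))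
(S (nat_lit 40575) (S (nat_lit 37291) (S (nat_lit 20800) (S (nat_lit 40807) (S (nat_lit 17496) (S (nat_lit 20783) (S (nat_lit 39590) (S (nat_lit 48301) (S (nat_lit 35104) (S (nat_lit 21529) (S (nat_lit 8795) (S (nat_lit 28543) (S (nat_lit 37335) (S (nat_lit 39969) (S (nat_lit 21733) (S (nat_lit 41243) (S (nat_lit 1290) (S (nat_lit 997) (S (nat_lit 21465) (S (nat_lit 1014) (S (nat_lit 2793) (S (nat_lit 52879) (S (nat_lit 33950) (S (nat_lit 28118) (S (nat_lit 3614) (S (nat_lit 44298) (D (nat_lit 9) (nat_lit 12405188) (nat_lit 25562482) (nat_lit 245018920005))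
(L (nat_lit 29044902)))
(L (nat_lit 29925024)))
(L (nat_lit 20856097)))
(L (nat_lit 19741953)))
(L (nat_lit 29965600)))
(S (nat_lit 45997) (S (nat_lit 44734) (S (nat_lit 15278) (S (nat_lit 2609) (S (nat_lit 43276) (D (nat_lit 11) (nat_lit 31047970) (nat_lit 25764974) (nat_lit 76408788998))
(L (nat_lit 28914912)))
(L (nat_lit 31043690)))
(L (nat_lit 31048928)))
(L (nat_lit 28913856)))
(L (nat_lit 29008014))))
(L (nat_lit 10965049)))
(L (nat_lit 30804585)))
(L (nat_lit 26494656)))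
(L (nat_lit 11033752)))
(L (nat_lit 17159352)))
(L (nat_lit 22136679)))
(L (nat_lit 26674791)))
(L (nat_lit 16969319)))
(L (nat_lit 24380989)))
(L (nat_lit 7158805)))
(L (nat_lit 15507040)))
(L (nat_lit 18089750)))
(L (nat_lit 27311721)))
(L (nat_lit 17630582)))
(L (nat_lit 15738489)))
(L (nat_lit 8095503)))
(L (nat_lit 17898108)))
(L (nat_lit 16620133)))
(L (nat_lit 17041117)))
(L (nat_lit 25412258)))))
(S (nat_lit 41276) (S (nat_lit 1036) (S (nat_lit 62) (S (nat_lit 20993) (S (nat_lit 41497) (S (nat_lit 50463) (L (nat_lit 29825076))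
(L (nat_lit 13244475)))
(L (nat_lit 432860)))
(L (nat_lit 1907377)))
(S (nat_lit 19826) (S (nat_lit 1229) (L (nat_lit 3742106))
(L (nat_lit 19699761)))
(S (nat_lit 39590) (S (nat_lit 40542) (S (nat_lit 40785) (S (nat_lit 1776) (S (nat_lit 40757) (L (nat_lit 10258030))
(L (nat_lit 27859392)))
(L (nat_lit 20847042)))
(L (nat_lit 24582915)))
(L (nat_lit 27728578)))
(L (nat_lit 25900171)))))
(S (nat_lit 20800) (S (nat_lit 15340) (S (nat_lit 64) (S (nat_lit 41293) (S (nat_lit 15323) (S (nat_lit 20783) (L (nat_lit 4676422))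
(L (nat_lit 21765507)))
(L (nat_lit 1877396)))
(L (nat_lit 24914309)))
(L (nat_lit 939401)))
(S (nat_lit 35104) (S (nat_lit 17496) (S (nat_lit 21043) (S (nat_lit 20783) (S (nat_lit 17543) (S (nat_lit 8795) (S (nat_lit 8812) (S (nat_lit 17560) (S (nat_lit 41293) (S (nat_lit 47) (S (nat_lit 50505) (S (nat_lit 41229) (S (nat_lit 50488) (S (nat_lit 20979) (S (nat_lit 64) (S (nat_lit 35087) (S (nat_lit 20736) (S (nat_lit 41472) (S (nat_lit 2019) (S (nat_lit 28543) (S (nat_lit 28526) (S (nat_lit 40774) (S (nat_lit 1014) (S (nat_lit 20602) (S (nat_lit 54862) (S (nat_lit 39553) (S (nat_lit 1732) (S (nat_lit 37335) (S (nat_lit 30713) (S (nat_lit 6530) (S (nat_lit 14091) (S (nat_lit 27632) (S (nat_lit 5972) (S (nat_lit 45558) (S (nat_lit 41606) (D (nat_lit 9) (nat_lit 26944524) (nat_lit 19277571) (nat_lit 103213603074))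
(L (nat_lit 28982628)))
(L (nat_lit 29891667)))
(L (nat_lit 27740230)))
(L (nat_lit 20855040)))
(L (nat_lit 29966625)))
(S (nat_lit 22635) (S (nat_lit 22618) (S (nat_lit 42584) (S (nat_lit 45014) (D (nat_lit 11) (nat_lit 25833732) (nat_lit 19670469) (nat_lit 138414114))
(L (nat_lit 28780598)))
(L (nat_lit 28821857)))
(L (nat_lit 27285958)))
(L (nat_lit 30018056))))
(L (nat_lit 10313124)))
(L (nat_lit 10269377)))
(L (nat_lit 9462261)))
(L (nat_lit 18798946)))
(L (nat_lit 21937506)))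
(L (nat_lit 18794502)))
(L (nat_lit 13473843)))
(L (nat_lit 18511204)))
(L (nat_lit 9462325)))
(L (nat_lit 10224183)))
(S (nat_lit 21783) (S (nat_lit 1290) (S (nat_lit 39542) (S (nat_lit 15371) (S (nat_lit 35886) (S (nat_lit 21479) (S (nat_lit 1763) (S (nat_lit 12577) (S (nat_lit 39603) (S (nat_lit 11010) (S (nat_lit 19674) (S (nat_lit 45533) (S (nat_lit 38347) (S (nat_lit 58909) (S (nat_lit 48201) (D (nat_lit 13) (nat_lit 16684310) (nat_lit 25767459) (nat_lit 6839772283142))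
(L (nat_lit 9293968)))
(L (nat_lit 24033322)))
(L (nat_lit 29043077)))
(L (nat_lit 21872995)))
(S (nat_lit 43880) (S (nat_lit 23266) (S (nat_lit 49935) (S (nat_lit 9820) (D (nat_lit 11) (nat_lit 31133903) (nat_lit 2898505) (nat_lit 206227834020))
(L (nat_lit 28595717)))
(L (nat_lit 24685442)))
(L (nat_lit 28597764)))
(L (nat_lit 8865912))))
(L (nat_lit 6927200)))
(L (nat_lit 27646400)))
(L (nat_lit 29667906)))
(L (nat_lit 13912995)))
(L (nat_lit 16319240)))
(L (nat_lit 13640410)))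
(L (nat_lit 2022891)))
(L (nat_lit 27861445)))
(L (nat_lit 19841379)))
(S (nat_lit 41547) (S (nat_lit 50510) (S (nat_lit 41503) (S (nat_lit 11745) (S (nat_lit 41260) (S (nat_lit 17510) (S (nat_lit 21041) (S (nat_lit 17571) (S (nat_lit 16993) (S (nat_lit 11770) (S (nat_lit 41681) (S (nat_lit 8142) (S (nat_lit 44743) (S (nat_lit 8854) (S (nat_lit 38620) (S (nat_lit 58929) (D (nat_lit 13) (nat_lit 8178766) (nat_lit 25767397) (nat_lit 41949596869))
(L (nat_lit 23504989)))
(L (nat_lit 28980548)))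
(L (nat_lit 27284968)))
(L (nat_lit 16657056)))
(L (nat_lit 28032257)))
(S (nat_lit 50153) (S (nat_lit 5960) (S (nat_lit 29822) (S (nat_lit 23856) (S (nat_lit 47142) (D (nat_lit 13) (nat_lit 6113769) (nat_lit 18630981) (nat_lit 5774822640644))
(L (nat_lit 28979525)))
(L (nat_lit 27963465)))
(L (nat_lit 22884706)))
(L (nat_lit 27963684)))
(L (nat_lit 29469263))))
(L (nat_lit 27544749)))
(L (nat_lit 31000876)))
(L (nat_lit 480102)))
(L (nat_lit 15756009)))
(L (nat_lit 24684357)))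
(L (nat_lit 3501711)))
(L (nat_lit 27992079)))
(L (nat_lit 27741226)))
(L (nat_lit 27530803)))
(L (nat_lit 25925677)))))
(L (nat_lit 17671781)))
(L (nat_lit 16585322)))
(L (nat_lit 23622762)))
(L (nat_lit 1812238)))
(L (nat_lit 14971491)))
(L (nat_lit 15576675)))
(L (nat_lit 1651069)))
(L (nat_lit 22474918)))
(L (nat_lit 26500113)))
(L (nat_lit 3429294)))
(L (nat_lit 482089)))
(L (nat_lit 706345)))
(L (nat_lit 7918653)))
(L (nat_lit 8075325)))
(L (nat_lit 31098247)))
(L (nat_lit 7198081)))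
(L (nat_lit 810225)))
(S (nat_lit 54868) (S (nat_lit 17496) (S (nat_lit 1763) (S (nat_lit 17543) (S (nat_lit 8795) (S (nat_lit 39592) (L (nat_lit 12500148))
(L (nat_lit 12117570)))
(L (nat_lit 1616604)))
(L (nat_lit 1780284)))
(S (nat_lit 21527) (S (nat_lit 10935) (L (nat_lit 23566362))
(L (nat_lit 6948655)))
(S (nat_lit 41291) (S (nat_lit 8795) (S (nat_lit 17543) (L (nat_lit 19427335))
(L (nat_lit 751146)))
(L (nat_lit 587466)))
(L (nat_lit 25709670)))))
(L (nat_lit 760623)))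
(L (nat_lit 25451628)))))
(S (nat_lit 40564) (S (nat_lit 1019) (S (nat_lit 48290) (S (nat_lit 57038) (L (nat_lit 22028732))
(L (nat_lit 27764324)))
(L (nat_lit 27927940)))
(S (nat_lit 20783) (S (nat_lit 17496) (S (nat_lit 17560) (S (nat_lit 8812) (S (nat_lit 21026) (L (nat_lit 9919578))
(L (nat_lit 6808694)))
(L (nat_lit 8045626)))
(L (nat_lit 482089)))
(L (nat_lit 6997016)))
(S (nat_lit 40547) (S (nat_lit 17543) (S (nat_lit 19411) (L (nat_lit 1326005))
(S (nat_lit 41293) (S (nat_lit 47) (S (nat_lit 64) (S (nat_lit 8812) (S (nat_lit 17560) (S (nat_lit 8795) (S (nat_lit 41472) (S (nat_lit 11176) (L (nat_lit 5594522))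
(S (nat_lit 50488) (S (nat_lit 38430) (L (nat_lit 6476216))
(S (nat_lit 40743) (S (nat_lit 2368) (S (nat_lit 13303) (L (nat_lit 5942160))
(L (nat_lit 11990067)))
(L (nat_lit 12153900)))
(L (nat_lit 24573189))))
(L (nat_lit 11441840))))
(L (nat_lit 17102437)))
(L (nat_lit 7162893)))
(L (nat_lit 6772762)))
(L (nat_lit 6997018)))
(L (nat_lit 6875747)))
(L (nat_lit 6418838)))
(L (nat_lit 7164293))))
(S (nat_lit 37307) (S (nat_lit 7927) (L (nat_lit 5053040))
(S (nat_lit 40807) (S (nat_lit 39592) (S (nat_lit 40790) (L (nat_lit 1632873))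
(L (nat_lit 9486970)))
(L (nat_lit 27637812)))
(L (nat_lit 27559534))))
(S (nat_lit 57071) (S (nat_lit 17496) (S (nat_lit 21021) (L (nat_lit 16515654))
(L (nat_lit 16110437)))
(S (nat_lit 37180) (L (nat_lit 323990))
(L (nat_lit 1754328))))
(L (nat_lit 25481262)))))
(L (nat_lit 25857415)))))
(L (nat_lit 25278741)))))
(L (nat_lit 25626214)))))
(L (nat_lit 25854320)))))

theorem rb246_0_24 : run 4 lb246 [] tb246_0_24 kb246 [0, 41536, 50525, 8748] [] = true := by
  decide +kernel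

noncomputable def ta26_1 : Tr :=
(S (nat_lit 2) (S (nat_lit 1470) (S (nat_lit 3753) (L (nat_lit 145095))
(L (nat_lit 544903)))
(S (nat_lit 3684) (S (nat_lit 324) (L (nat_lit 361068))
(S (nat_lit 2538) (L (nat_lit 137932))
(S (nat_lit 4752) (S (nat_lit 3753) (L (nat_lit 145095))
(L (nat_lit 544903)))
(L (nat_lit 592204)))))
(S (nat_lit 5898) (S (nat_lit 1702) (S (nat_lit 2108) (S (nat_lit 893) (S (nat_lit 3696) (L (nat_lit 545834))
(L (nat_lit 530022)))
(L (nat_lit 478400)))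
(L (nat_lit 313516)))
(S (nat_lit 3916) (S (nat_lit 1383) (S (nat_lit 1395) (S (nat_lit 2337) (L (nat_lit 114280))
(L (nat_lit 534114)))
(L (nat_lit 112203)))
(L (nat_lit 117163)))
(S (nat_lit 6130) (S (nat_lit 1217) (S (nat_lit 1383) (L (nat_lit 49426))
(L (nat_lit 533587)))
(L (nat_lit 477476)))
(L (nat_lit 591398)))))
(L (nat_lit 593318)))))
(S (nat_lit 2216) (S (nat_lit 1053) (S (nat_lit 0) (S (nat_lit 1383) (L (nat_lit 543751))
(L (nat_lit 468051)))
(S (nat_lit 2214) (S (nat_lit 1395) (S (nat_lit 1383) (S (nat_lit 1473) (L (nat_lit 180874))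
(L (nat_lit 21959)))
(L (nat_lit 300530)))
(L (nat_lit 310450)))
(S (nat_lit 4428) (S (nat_lit 3693) (L (nat_lit 233942))
(L (nat_lit 118183)))
(L (nat_lit 596384)))))
(S (nat_lit 3267) (S (nat_lit 806) (S (nat_lit 5935) (L (nat_lit 145714))
(L (nat_lit 233168)))
(S (nat_lit 5910) (S (nat_lit 202) (L (nat_lit 152070))
(S (nat_lit 2781) (S (nat_lit 3917) (S (nat_lit 3753) (L (nat_lit 312004))
(L (nat_lit 184871)))
(L (nat_lit 446789)))
(L (nat_lit 479524))))
(L (nat_lit 332431))))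
(S (nat_lit 5481) (S (nat_lit 1701) (S (nat_lit 324) (L (nat_lit 547850))
(L (nat_lit 636226)))
(S (nat_lit 3915) (S (nat_lit 270) (L (nat_lit 141937))
(S (nat_lit 6131) (S (nat_lit 5196) (L (nat_lit 726288))
(L (nat_lit 544034)))
(L (nat_lit 466962))))
(S (nat_lit 6129) (S (nat_lit 4833) (S (nat_lit 3753) (S (nat_lit 4638) (L (nat_lit 526547))
(L (nat_lit 282732)))
(L (nat_lit 184871)))
(L (nat_lit 660812)))
(L (nat_lit 600111)))))
(L (nat_lit 592330)))))
(S (nat_lit 4430) (S (nat_lit 0) (S (nat_lit 1540) (S (nat_lit 1217) (L (nat_lit 689390))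
(L (nat_lit 544037)))
(S (nat_lit 3754) (S (nat_lit 1395) (S (nat_lit 1383) (L (nat_lit 468547))
(L (nat_lit 113355)))
(S (nat_lit 4116) (L (nat_lit 341570))
(L (nat_lit 482661))))
(S (nat_lit 5968) (S (nat_lit 541) (S (nat_lit 378) (L (nat_lit 329203))
(L (nat_lit 117130)))
(S (nat_lit 2497) (S (nat_lit 5117) (L (nat_lit 622927))
(L (nat_lit 533586)))
(L (nat_lit 543075))))
(L (nat_lit 592360)))))
(S (nat_lit 2214) (S (nat_lit 808) (S (nat_lit 3693) (L (nat_lit 765316))
(L (nat_lit 120113)))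
(S (nat_lit 1052) (S (nat_lit 1100) (L (nat_lit 466071))
(L (nat_lit 579719)))
(S (nat_lit 2781) (S (nat_lit 1383) (S (nat_lit 1395) (S (nat_lit 1999) (S (nat_lit 6131) (S (nat_lit 515) (S (nat_lit 6536) (L (nat_lit 526614))
(L (nat_lit 417122)))
(L (nat_lit 511269)))
(L (nat_lit 416807)))
(L (nat_lit 478499)))
(L (nat_lit 295504)))
(L (nat_lit 313360)))
(L (nat_lit 177865)))))
(S (nat_lit 4428) (S (nat_lit 206) (L (nat_lit 501315))
(S (nat_lit 6536) (S (nat_lit 3753) (S (nat_lit 1702) (S (nat_lit 5481) (S (nat_lit 622) (S (nat_lit 1383) (S (nat_lit 946) (S (nat_lit 945) (S (nat_lit 567) (S (nat_lit 324) (D (nat_lit 0) (nat_lit 379267) (nat_lit 604203) (nat_lit 0))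
(L (nat_lit 85260)))
(L (nat_lit 313420)))
(L (nat_lit 768167)))
(L (nat_lit 380356)))
(L (nat_lit 374866)))
(L (nat_lit 733319)))
(L (nat_lit 115368)))
(L (nat_lit 346594)))
(S (nat_lit 3948) (L (nat_lit 247363))
(L (nat_lit 186609))))
(L (nat_lit 480610))))
(L (nat_lit 595981)))))
(L (nat_lit 597413)))))

theorem ra26_1 : run 3 la26 [] ta26_1 ka26 (P4 3 468 462 406 298 0 0 1 0) [] = true := by
  decide +kernel

noncomputable def ta7_0 : Tr :=
(L (nat_lit 604385))

theorem ra7_0 : run 3 la7 [] ta7_0 ka7 (P4 3 44 359 386 359 0 0 0 1) [] = true := by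
  decide +kernel

noncomputable def ta27_3 : Tr :=
(L (nat_lit 602370))

theorem ra27_3 : run 3 la27 [] ta27_3 ka27 (P4 3 1 108 152 108 0 1 0 0) [] = true := by
  decide +kernel

noncomputable def tb264_2 : Tr :=
(L (nat_lit 25833731))

theorem rb264_2 : run 4 lb264 [] tb264_2 kb264 (P4 4 2472 2352 6241 2352 0 0 1 2) [] = true := by
  decide +kernel

noncomputable def tb75_0 : Tr :=
(L (nat_lit 25833666))

theorem rb75_0 : run 4 lb75 [] tb75_0 kb75 (P4 4 2216 2760 1253 2760 0 0 0 1) [] = true := by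
  decide +kernel

noncomputable def ta13_5 : Tr :=
(L (nat_lit 605440))

theorem ra13_5 : run 3 la13 [] ta13_5 ka13 (P4 3 3 623 79 623 1 2 0 0) [] = true := by
  decide +kernel

end Pool.Agent.MP_92191b_al.K3.E
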