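import Pool.Agent.MP_92191b_al.K3.CR13

/-! Refutation trees. -/

namespace Pool.Agent.MP_92191b_al.K3.E

open Tr

set_option maxRecDepth 100000

noncomputable def tb75_4 : Tr :=
(S (nat_lit 5172) (S (nat_lit 1262) (S (nat_lit 1771) (S (nat_lit 15839) (S (nat_lit 5182) (S (nat_lit 2751) (S (nat_lit 9241) (S (nat_lit 14876) (S (nat_lit 12911) (S (nat_lit 3) (S (nat_lit 17741) (S (nat_lit 19500) (L (nat_lit 13474837))
(L (nat_lit 10378693)))
(L (nat_lit 16507979)))
(L (nat_lit 20743437)))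
(L (nat_lit 10325429)))
(S (nat_lit 54323) (S (nat_lit 1415) (L (nat_lit 349624))
(L (nat_lit 10342513)))
(L (nat_lit 26679348))))
(L (nat_lit 3987825)))
(L (nat_lit 20264837)))
(L (nat_lit 8786837)))
(S (nat_lit 35603) (S (nat_lit 5173) (S (nat_lit 3163) (S (nat_lit 22931) (S (nat_lit 44710) (L (nat_lit 26456244))
(L (nat_lit 9835349)))
(L (nat_lit 12675817)))
(S (nat_lit 28424) (L (nat_lit 26708343))
(L (nat_lit 20758694))))
(S (nat_lit 24937) (S (nat_lit 3163) (S (nat_lit 22931) (S (nat_lit 44710) (S (nat_lit 2751) (L (nat_lit 18125717))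
(L (nat_lit 26293990)))
(L (nat_lit 9835349)))
(L (nat_lit 12675817)))
(S (nat_lit 43782) (L (nat_lit 4674345))
(L (nat_lit 20744582))))
(S (nat_lit 44701) (S (nat_lit 3692) (S (nat_lit 35612) (S (nat_lit 5181) (S (nat_lit 52710) (S (nat_lit 44710) (L (nat_lit 10303169))
(L (nat_lit 23212281)))
(L (nat_lit 4759319)))
(L (nat_lit 20156889)))
(L (nat_lit 20327513)))
(S (nat_lit 23456) (S (nat_lit 20592) (L (nat_lit 18632714))
(S (nat_lit 35612) (S (nat_lit 3163) (S (nat_lit 5182) (L (nat_lit 9581308))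
(L (nat_lit 19273638)))
(L (nat_lit 19663057)))
(L (nat_lit 10087437))))
(S (nat_lit 43220) (S (nat_lit 6318) (S (nat_lit 22924) (L (nat_lit 18085445))
(L (nat_lit 13208454)))
(L (nat_lit 20483449)))
(L (nat_lit 25862157)))))
(L (nat_lit 25628358)))))
(S (nat_lit 55367) (S (nat_lit 9240) (S (nat_lit 1265) (S (nat_lit 32672) (S (nat_lit 11671) (S (nat_lit 8) (L (nat_lit 30514614))
(L (nat_lit 20754788)))
(L (nat_lit 16012194)))
(L (nat_lit 13687686)))
(S (nat_lit 21029) (S (nat_lit 30050) (S (nat_lit 29005) (L (nat_lit 1530697))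
(L (nat_lit 4411896)))
(S (nat_lit 31091) (L (nat_lit 26970534))
(L (nat_lit 3842491))))
(S (nat_lit 40793) (S (nat_lit 43214) (S (nat_lit 5182) (L (nat_lit 26939725))
(L (nat_lit 19832258)))
(L (nat_lit 27827319)))
(L (nat_lit 25830882)))))
(S (nat_lit 29004) (S (nat_lit 19500) (S (nat_lit 5182) (L (nat_lit 16424832))
(L (nat_lit 20880557)))
(S (nat_lit 39264) (S (nat_lit 29516) (S (nat_lit 31013) (L (nat_lit 26415695))
(L (nat_lit 18923897)))
(L (nat_lit 19055369)))
(S (nat_lit 59028) (S (nat_lit 19715) (L (nat_lit 9517690))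
(S (nat_lit 26357) (S (nat_lit 40781) (S (nat_lit 17741) (S (nat_lit 22507) (L (nat_lit 15815467))
(L (nat_lit 30486900)))
(L (nat_lit 24921281)))
(L (nat_lit 2610089)))
(L (nat_lit 19340036))))
(L (nat_lit 25451907)))))
(S (nat_lit 48768) (S (nat_lit 3163) (S (nat_lit 7199) (L (nat_lit 19432825))
(S (nat_lit 32675) (S (nat_lit 42280) (S (nat_lit 38042) (S (nat_lit 42271) (L (nat_lit 6050031))
(L (nat_lit 12341668)))
(L (nat_lit 17748261)))
(L (nat_lit 2906476)))
(L (nat_lit 19425600))))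
(S (nat_lit 22927) (S (nat_lit 57269) (L (nat_lit 11065120))
(L (nat_lit 27953707)))
(S (nat_lit 42691) (S (nat_lit 44693) (S (nat_lit 1250) (L (nat_lit 14462688))
(L (nat_lit 19374976)))
(L (nat_lit 15461669)))
(L (nat_lit 25446784)))))
(L (nat_lit 25385038)))))
(L (nat_lit 25211250)))))
(S (nat_lit 21535) (S (nat_lit 29005) (S (nat_lit 54404) (S (nat_lit 1256) (S (nat_lit 32675) (S (nat_lit 1250) (S (nat_lit 10286) (S (nat_lit 59028) (L (nat_lit 23993762))
(L (nat_lit 21841157)))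
(L (nat_lit 511261)))
(L (nat_lit 20821280)))
(L (nat_lit 30855206)))
(L (nat_lit 13685117)))
(L (nat_lit 9228833)))
(L (nat_lit 10375180)))
(S (nat_lit 41299) (S (nat_lit 21020) (S (nat_lit 48769) (S (nat_lit 34640) (S (nat_lit 45716) (S (nat_lit 45093) (L (nat_lit 20714703))
(L (nat_lit 22441000)))
(S (nat_lit 52439) (S (nat_lit 2751) (S (nat_lit 3163) (S (nat_lit 35603) (S (nat_lit 59028) (S (nat_lit 49814) (S (nat_lit 3159) (S (nat_lit 38042) (L (nat_lit 4405979))
(L (nat_lit 17573044)))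
(L (nat_lit 9191507)))
(L (nat_lit 9180659)))
(L (nat_lit 27477573)))
(L (nat_lit 20882848)))
(L (nat_lit 19675328)))
(L (nat_lit 20018542)))
(L (nat_lit 20278690))))
(L (nat_lit 16535809)))
(L (nat_lit 12505505)))
(L (nat_lit 1855945)))
(L (nat_lit 25377509)))))
(S (nat_lit 21026) (S (nat_lit 3686) (S (nat_lit 3680) (S (nat_lit 17741) (S (nat_lit 6318) (S (nat_lit 10277) (S (nat_lit 8269) (L (nat_lit 13240604))
(L (nat_lit 10269349)))
(S (nat_lit 28411) (L (nat_lit 26589331))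
(L (nat_lit 26414703))))
(S (nat_lit 26082) (S (nat_lit 3) (S (nat_lit 19501) (S (nat_lit 5173) (L (nat_lit 15821012))
(L (nat_lit 1370829)))
(L (nat_lit 26301648)))
(L (nat_lit 1841651)))
(S (nat_lit 45846) (S (nat_lit 19501) (S (nat_lit 39536) (L (nat_lit 565140))
(L (nat_lit 11103408)))
(L (nat_lit 24208592)))
(L (nat_lit 25349487)))))
(S (nat_lit 37505) (S (nat_lit 17744) (S (nat_lit 19501) (L (nat_lit 24200413))
(L (nat_lit 26301895)))
(S (nat_lit 37508) (S (nat_lit 47375) (S (nat_lit 42691) (S (nat_lit 42695) (S (nat_lit 42687) (S (nat_lit 22507) (S (nat_lit 21029) (S (nat_lit 42688) (S (nat_lit 47384) (S (nat_lit 22516) (S (nat_lit 15848) (S (nat_lit 44180) (S (nat_lit 25487) (S (nat_lit 45502) (S (nat_lit 12720) (S (nat_lit 12721) (S (nat_lit 48005) (S (nat_lit 7026) (S (nat_lit 33056) (D (nat_lit 10) (nat_lit 21391430) (nat_lit 514392) (nat_lit 1226140251678901281))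
(L (nat_lit 29559316)))
(L (nat_lit 11133442)))
(L (nat_lit 4539000)))
(L (nat_lit 27626064)))
(L (nat_lit 11274833)))
(L (nat_lit 28716768)))
(L (nat_lit 29012194)))
(L (nat_lit 12847834)))
(L (nat_lit 14945202)))
(L (nat_lit 21065129)))
(L (nat_lit 20472096)))
(L (nat_lit 24021265)))
(L (nat_lit 12323505)))
(L (nat_lit 30483892)))
(L (nat_lit 10390035)))
(L (nat_lit 10390221)))
(L (nat_lit 10324533)))
(S (nat_lit 58227) (L (nat_lit 10045317))
(L (nat_lit 16871669))))
(S (nat_lit 57272) (S (nat_lit 19500) (S (nat_lit 5173) (L (nat_lit 16976822))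
(L (nat_lit 16485259)))
(L (nat_lit 24516491)))
(L (nat_lit 25413219)))))
(S (nat_lit 57269) (S (nat_lit 9752) (S (nat_lit 5173) (S (nat_lit 21017) (S (nat_lit 9749) (L (nat_lit 3916029))
(L (nat_lit 21825805)))
(L (nat_lit 14831961)))
(L (nat_lit 8850356)))
(S (nat_lit 29516) (S (nat_lit 57272) (S (nat_lit 3159) (L (nat_lit 11045561))
(L (nat_lit 19204633)))
(L (nat_lit 19368842)))
(S (nat_lit 49280) (S (nat_lit 16341) (L (nat_lit 12126779))
(L (nat_lit 11078544)))
(L (nat_lit 25769991)))))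
(L (nat_lit 25937121)))))
(S (nat_lit 23444) (S (nat_lit 6322) (S (nat_lit 2735) (S (nat_lit 59029) (S (nat_lit 42695) (S (nat_lit 1779) (S (nat_lit 55869) (S (nat_lit 1780) (L (nat_lit 1262300))
(L (nat_lit 10194831)))
(L (nat_lit 19106574)))
(L (nat_lit 10175396)))
(L (nat_lit 9519894)))
(L (nat_lit 27340365)))
(S (nat_lit 22499) (S (nat_lit 22931) (S (nat_lit 31022) (L (nat_lit 8850198))
(L (nat_lit 9899643)))
(L (nat_lit 11620141)))
(S (nat_lit 42263) (S (nat_lit 55367) (S (nat_lit 3162) (L (nat_lit 28888234))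
(L (nat_lit 15517892)))
(L (nat_lit 19277632)))
(L (nat_lit 25925709)))))
(S (nat_lit 26086) (S (nat_lit 2752) (S (nat_lit 26083) (S (nat_lit 3159) (S (nat_lit 3162) (S (nat_lit 59029) (L (nat_lit 26362471))
(L (nat_lit 19343108)))
(L (nat_lit 19359076)))
(L (nat_lit 26562052)))
(L (nat_lit 22521732)))
(S (nat_lit 22516) (S (nat_lit 44693) (L (nat_lit 29607492))
(L (nat_lit 10241732)))
(S (nat_lit 42280) (S (nat_lit 3) (S (nat_lit 36106) (S (nat_lit 57806) (L (nat_lit 1439254))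
(L (nat_lit 8172100)))
(L (nat_lit 20244965)))
(L (nat_lit 19267865)))
(L (nat_lit 25493940)))))
(S (nat_lit 45850) (S (nat_lit 17744) (S (nat_lit 18269) (L (nat_lit 7736215))
(L (nat_lit 18697444)))
(S (nat_lit 37508) (S (nat_lit 37505) (S (nat_lit 1763) (S (nat_lit 26357) (L (nat_lit 19296452))
(L (nat_lit 15434041)))
(L (nat_lit 20033425)))
(L (nat_lit 251726)))
(S (nat_lit 57272) (S (nat_lit 53867) (S (nat_lit 36533) (L (nat_lit 22980653))
(L (nat_lit 31174148)))
(L (nat_lit 972048)))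
(L (nat_lit 25727284)))))
(L (nat_lit 25464461)))))
(S (nat_lit 43208) (S (nat_lit 2752) (S (nat_lit 1763) (S (nat_lit 3162) (S (nat_lit 3159) (S (nat_lit 0) (S (nat_lit 4658) (L (nat_lit 2596790))
(L (nat_lit 26493110)))
(L (nat_lit 1644985)))
(L (nat_lit 19695952)))
(S (nat_lit 39437) (L (nat_lit 1627417))
(L (nat_lit 20253240))))
(S (nat_lit 47657) (S (nat_lit 33543) (L (nat_lit 1398170))
(L (nat_lit 14551319)))
(L (nat_lit 10193841))))
(S (nat_lit 22516) (S (nat_lit 3160) (S (nat_lit 16341) (S (nat_lit 49805) (L (nat_lit 29772036))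
(L (nat_lit 20417352)))
(L (nat_lit 26708277)))
(S (nat_lit 22924) (S (nat_lit 41291) (S (nat_lit 10277) (L (nat_lit 28544438))
(L (nat_lit 9931389)))
(L (nat_lit 27986440)))
(S (nat_lit 42688) (S (nat_lit 21029) (S (nat_lit 42695) (S (nat_lit 37505) (L (nat_lit 24502756))
(L (nat_lit 10357484)))
(L (nat_lit 10389942)))
(L (nat_lit 6785721)))
(L (nat_lit 25316811)))))
(S (nat_lit 42280) (S (nat_lit 39265) (S (nat_lit 34103) (S (nat_lit 23456) (S (nat_lit 23459) (S (nat_lit 11670) (S (nat_lit 50786) (L (nat_lit 16387386))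
(L (nat_lit 1747726)))
(L (nat_lit 666513)))
(L (nat_lit 21064941)))
(L (nat_lit 21065005)))
(L (nat_lit 1813329)))
(L (nat_lit 14540036)))
(L (nat_lit 25176501)))))
(L (nat_lit 25560774)))))
(S (nat_lit 23450) (S (nat_lit 1770) (S (nat_lit 38042) (S (nat_lit 42271) (S (nat_lit 48769) (S (nat_lit 51199) (S (nat_lit 21020) (S (nat_lit 11670) (S (nat_lit 39532) (S (nat_lit 35612) (S (nat_lit 14867) (S (nat_lit 24945) (S (nat_lit 55870) (S (nat_lit 43223) (S (nat_lit 26083) (S (nat_lit 56300) (S (nat_lit 47646) (S (nat_lit 52362) (S (nat_lit 47219) (S (nat_lit 52560) (S (nat_lit 11335) (D (nat_lit 16) (nat_lit 26642676) (nat_lit 19325186) (nat_lit 1152958956723799074))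
(L (nat_lit 8436314)))
(L (nat_lit 22372769)))
(L (nat_lit 13232263)))
(L (nat_lit 1500468)))
(L (nat_lit 28740916)))
(L (nat_lit 20986662)))
(L (nat_lit 4698005)))
(L (nat_lit 6962980)))
(L (nat_lit 16346214)))
(L (nat_lit 2420178)))
(L (nat_lit 2616594)))
(L (nat_lit 5165421)))
(L (nat_lit 10546644)))
(L (nat_lit 1332113)))
(L (nat_lit 12505232)))
(L (nat_lit 13553954)))
(L (nat_lit 16699716)))
(L (nat_lit 12047172)))
(L (nat_lit 7098756)))
(S (nat_lit 21534) (S (nat_lit 1) (S (nat_lit 4) (S (nat_lit 55870) (S (nat_lit 24419) (L (nat_lit 28914946))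
(L (nat_lit 799990)))
(L (nat_lit 10095441)))
(S (nat_lit 19768) (S (nat_lit 3680) (S (nat_lit 24419) (S (nat_lit 57797) (S (nat_lit 24416) (S (nat_lit 11258) (S (nat_lit 51199) (L (nat_lit 30461166))
(L (nat_lit 22283085)))
(L (nat_lit 26619555)))
(L (nat_lit 17734710)))
(L (nat_lit 19260868)))
(L (nat_lit 21234235)))
(S (nat_lit 31410) (L (nat_lit 20243473))
(L (nat_lit 1461128))))
(S (nat_lit 39532) (S (nat_lit 46121) (L (nat_lit 30809762))
(L (nat_lit 27775236)))
(L (nat_lit 25415139)))))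
(S (nat_lit 19765) (S (nat_lit 11671) (S (nat_lit 55376) (L (nat_lit 15848328))
(L (nat_lit 840045)))
(S (nat_lit 31435) (S (nat_lit 24945) (S (nat_lit 53870) (L (nat_lit 19205965))
(L (nat_lit 27539042)))
(L (nat_lit 2354927)))
(S (nat_lit 51199) (S (nat_lit 8745) (L (nat_lit 499606))
(S (nat_lit 37505) (S (nat_lit 42271) (S (nat_lit 24416) (L (nat_lit 2662231))
(L (nat_lit 14326841)))
(L (nat_lit 27603652)))
(L (nat_lit 20482265))))
(L (nat_lit 25221515)))))
(S (nat_lit 39529) (S (nat_lit 0) (S (nat_lit 19500) (S (nat_lit 10277) (L (nat_lit 26680373))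
(L (nat_lit 958125)))
(L (nat_lit 5844377)))
(S (nat_lit 19764) (S (nat_lit 41299) (S (nat_lit 9240) (L (nat_lit 1495261))
(L (nat_lit 14786452)))
(L (nat_lit 27368980)))
(S (nat_lit 39528) (S (nat_lit 32946) (S (nat_lit 5182) (S (nat_lit 52711) (L (nat_lit 11154619))
(L (nat_lit 19438745)))
(L (nat_lit 958157)))
(L (nat_lit 23961089)))
(L (nat_lit 25395635)))))
(L (nat_lit 25172373)))))
(S (nat_lit 41298) (S (nat_lit 42271) (S (nat_lit 4652) (S (nat_lit 51199) (S (nat_lit 38042) (S (nat_lit 55870) (L (nat_lit 22286809))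
(L (nat_lit 16517366)))
(L (nat_lit 20030873)))
(L (nat_lit 8061401)))
(S (nat_lit 24416) (S (nat_lit 18332) (L (nat_lit 16863514))
(S (nat_lit 38042) (S (nat_lit 4) (S (nat_lit 52710) (S (nat_lit 46121) (S (nat_lit 9241) (S (nat_lit 50786) (L (nat_lit 9291330))
(L (nat_lit 1846894)))
(L (nat_lit 23291361)))
(L (nat_lit 11613075)))
(L (nat_lit 4758171)))
(L (nat_lit 216571)))
(L (nat_lit 7082572))))
(S (nat_lit 44180) (S (nat_lit 55870) (S (nat_lit 47384) (L (nat_lit 29821235))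
(L (nat_lit 10128144)))
(L (nat_lit 16329536)))
(L (nat_lit 25856395)))))
(L (nat_lit 14013188)))
(L (nat_lit 25383460)))))
(S (nat_lit 43214) (S (nat_lit 15848) (S (nat_lit 2743) (S (nat_lit 44186) (S (nat_lit 9240) (S (nat_lit 11671) (S (nat_lit 18278) (S (nat_lit 2742) (S (nat_lit 9241) (S (nat_lit 14876) (S (nat_lit 42691) (S (nat_lit 16341) (S (nat_lit 3680) (L (nat_lit 5841340))
(L (nat_lit 26886312)))
(L (nat_lit 26872234)))
(L (nat_lit 16346464)))
(L (nat_lit 26399238)))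
(L (nat_lit 8147364)))
(L (nat_lit 7426489)))
(L (nat_lit 8508332)))
(L (nat_lit 9228738)))
(L (nat_lit 15519751)))
(L (nat_lit 15519754)))
(L (nat_lit 26562641)))
(S (nat_lit 35612) (S (nat_lit 49280) (S (nat_lit 9749) (S (nat_lit 44701) (S (nat_lit 24422) (S (nat_lit 3162) (S (nat_lit 16342) (S (nat_lit 44192) (S (nat_lit 21017) (S (nat_lit 23444) (L (nat_lit 277083))
(L (nat_lit 22986920)))
(L (nat_lit 14831897)))
(L (nat_lit 15002209)))
(L (nat_lit 4809969)))
(L (nat_lit 4810122)))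
(L (nat_lit 10244611)))
(L (nat_lit 5001670)))
(L (nat_lit 26610311)))
(L (nat_lit 20319113)))
(S (nat_lit 55376) (S (nat_lit 3695) (S (nat_lit 9749) (S (nat_lit 6593) (S (nat_lit 13182) (S (nat_lit 11671) (L (nat_lit 21204877))
(L (nat_lit 11142029)))
(L (nat_lit 7996301)))
(L (nat_lit 23965988)))
(S (nat_lit 29513) (S (nat_lit 11671) (S (nat_lit 19501) (L (nat_lit 21114266))
(L (nat_lit 11953793)))
(L (nat_lit 577786)))
(S (nat_lit 49277) (S (nat_lit 29516) (S (nat_lit 28033) (S (nat_lit 37505) (L (nat_lit 22421316))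
(L (nat_lit 20482265)))
(L (nat_lit 19270503)))
(L (nat_lit 19270567)))
(L (nat_lit 25543363)))))
(S (nat_lit 23459) (S (nat_lit 11670) (S (nat_lit 29005) (L (nat_lit 26300749))
(L (nat_lit 18763784)))
(S (nat_lit 31434) (S (nat_lit 30041) (S (nat_lit 28033) (L (nat_lit 3022263))
(L (nat_lit 30724143)))
(L (nat_lit 24392548)))
(S (nat_lit 51198) (S (nat_lit 24419) (S (nat_lit 11671) (S (nat_lit 29516) (S (nat_lit 52711) (S (nat_lit 1779) (L (nat_lit 1596635))
(L (nat_lit 12095193)))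
(L (nat_lit 19033423)))
(L (nat_lit 30625967)))
(L (nat_lit 283568)))
(L (nat_lit 13947777)))
(L (nat_lit 25829824)))))
(S (nat_lit 43223) (S (nat_lit 1) (S (nat_lit 1771) (S (nat_lit 14342) (L (nat_lit 2511098))
(L (nat_lit 9220146)))
(L (nat_lit 13685019)))
(S (nat_lit 19765) (S (nat_lit 18278) (S (nat_lit 53870) (S (nat_lit 28033) (L (nat_lit 2502551))
(L (nat_lit 16668775)))
(L (nat_lit 19148856)))
(L (nat_lit 16601380)))
(S (nat_lit 39529) (S (nat_lit 19500) (S (nat_lit 50786) (L (nat_lit 15960664))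
(L (nat_lit 11931258)))
(L (nat_lit 24515800)))
(L (nat_lit 25611458)))))
(L (nat_lit 25825670)))))
(L (nat_lit 25308749)))))
(L (nat_lit 25277062)))))
(S (nat_lit 40790) (S (nat_lit 3686) (S (nat_lit 0) (S (nat_lit 9240) (S (nat_lit 5165) (S (nat_lit 1) (S (nat_lit 5182) (S (nat_lit 14867) (S (nat_lit 57806) (S (nat_lit 26357) (S (nat_lit 3680) (L (nat_lit 23176601))
(L (nat_lit 10018966)))
(L (nat_lit 19668453)))
(L (nat_lit 19308357)))
(L (nat_lit 26713731)))
(L (nat_lit 26975619)))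
(L (nat_lit 26614836)))
(S (nat_lit 10195) (S (nat_lit 47464) (L (nat_lit 5806745))
(L (nat_lit 12118626)))
(L (nat_lit 313239))))
(S (nat_lit 29004) (S (nat_lit 1771) (S (nat_lit 11789) (L (nat_lit 636811))
(S (nat_lit 57806) (S (nat_lit 22507) (S (nat_lit 12908) (S (nat_lit 14876) (S (nat_lit 26357) (S (nat_lit 50777) (S (nat_lit 52711) (L (nat_lit 10536601))
(L (nat_lit 11687695)))
(L (nat_lit 27666017)))
(L (nat_lit 19171248)))
(L (nat_lit 4707240)))
(L (nat_lit 18698528)))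
(L (nat_lit 1495913)))
(L (nat_lit 18966766))))
(L (nat_lit 26431598)))
(S (nat_lit 48768) (S (nat_lit 7847) (S (nat_lit 24945) (S (nat_lit 22923) (L (nat_lit 638266))
(L (nat_lit 5597651)))
(L (nat_lit 31137152)))
(S (nat_lit 27611) (S (nat_lit 8269) (S (nat_lit 9749) (S (nat_lit 26357) (S (nat_lit 3) (L (nat_lit 15534699))
(L (nat_lit 19673190)))
(L (nat_lit 19673195)))
(L (nat_lit 3002639)))
(L (nat_lit 9884576)))
(S (nat_lit 47375) (S (nat_lit 5165) (S (nat_lit 22507) (S (nat_lit 5182) (L (nat_lit 2498454))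
(L (nat_lit 19796358)))
(L (nat_lit 10276876)))
(L (nat_lit 20243845)))
(L (nat_lit 25702050)))))
(L (nat_lit 25376790)))))
(S (nat_lit 19764) (S (nat_lit 18278) (S (nat_lit 1853) (L (nat_lit 807464))
(S (nat_lit 11671) (S (nat_lit 47384) (S (nat_lit 39265) (L (nat_lit 9047608))
(L (nat_lit 20212097)))
(L (nat_lit 2746672)))
(L (nat_lit 578438))))
(S (nat_lit 38042) (S (nat_lit 6593) (L (nat_lit 8074084))
(S (nat_lit 26357) (S (nat_lit 4664) (S (nat_lit 27611) (L (nat_lit 19698926))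
(L (nat_lit 14934626)))
(L (nat_lit 2994762)))
(S (nat_lit 46121) (S (nat_lit 13183) (S (nat_lit 54395) (L (nat_lit 9351285))
(L (nat_lit 19700784)))
(L (nat_lit 26877442)))
(L (nat_lit 25763300)))))
(S (nat_lit 57806) (S (nat_lit 1771) (S (nat_lit 19767) (S (nat_lit 14876) (S (nat_lit 29004) (S (nat_lit 32947) (S (nat_lit 26357) (S (nat_lit 44710) (L (nat_lit 18717778))
(L (nat_lit 6102736)))
(L (nat_lit 30487827)))
(L (nat_lit 2694712)))
(L (nat_lit 18750548)))
(L (nat_lit 4707240)))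
(S (nat_lit 35526) (L (nat_lit 3027219))
(L (nat_lit 14732199))))
(S (nat_lit 21535) (S (nat_lit 54404) (S (nat_lit 32672) (S (nat_lit 1256) (S (nat_lit 57269) (S (nat_lit 1770) (S (nat_lit 7847) (S (nat_lit 19767) (L (nat_lit 278234))
(L (nat_lit 21830765)))
(L (nat_lit 21293136)))
(L (nat_lit 12111928)))
(L (nat_lit 12784376)))
(L (nat_lit 13488169)))
(L (nat_lit 16929670)))
(L (nat_lit 17616934)))
(S (nat_lit 41299) (S (nat_lit 21020) (S (nat_lit 26357) (S (nat_lit 48768) (S (nat_lit 52436) (S (nat_lit 22507) (S (nat_lit 54395) (L (nat_lit 18028340))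
(L (nat_lit 1973905)))
(L (nat_lit 1397240)))
(L (nat_lit 8934306)))
(L (nat_lit 27742533)))
(L (nat_lit 3625899)))
(L (nat_lit 7098818)))
(L (nat_lit 25920039)))))
(L (nat_lit 25273996)))))
(S (nat_lit 39528) (S (nat_lit 8269) (S (nat_lit 5173) (S (nat_lit 12628) (L (nat_lit 1712015))
(S (nat_lit 34106) (S (nat_lit 31434) (S (nat_lit 42280) (S (nat_lit 39529) (L (nat_lit 29859426))
(L (nat_lit 5453433)))
(L (nat_lit 518856)))
(L (nat_lit 19392648)))
(L (nat_lit 4469467))))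
(L (nat_lit 20319110)))
(S (nat_lit 28033) (S (nat_lit 40793) (S (nat_lit 55376) (S (nat_lit 24937) (S (nat_lit 24416) (S (nat_lit 22507) (L (nat_lit 17165364))
(L (nat_lit 12669277)))
(L (nat_lit 17435498)))
(L (nat_lit 11930333)))
(L (nat_lit 11930450)))
(L (nat_lit 27920592)))
(S (nat_lit 47797) (S (nat_lit 26357) (S (nat_lit 35612) (S (nat_lit 44701) (S (nat_lit 57806) (S (nat_lit 55870) (L (nat_lit 29406454))
(L (nat_lit 7997884)))
(L (nat_lit 18953031)))
(L (nat_lit 9851036)))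
(L (nat_lit 9851680)))
(L (nat_lit 18952475)))
(L (nat_lit 25481765)))))
(L (nat_lit 25396658)))))
(S (nat_lit 23450) (S (nat_lit 1780) (S (nat_lit 2743) (S (nat_lit 5958) (L (nat_lit 29438635))
(S (nat_lit 32675) (S (nat_lit 57393) (L (nat_lit 20881860))
(L (nat_lit 6738043)))
(L (nat_lit 17029177))))
(S (nat_lit 22507) (S (nat_lit 8) (L (nat_lit 26980548))
(S (nat_lit 24224) (S (nat_lit 51158) (L (nat_lit 26608915))
(L (nat_lit 19706180)))
(L (nat_lit 12798884))))
(S (nat_lit 42271) (S (nat_lit 4) (S (nat_lit 4346) (L (nat_lit 2498171))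
(S (nat_lit 5181) (S (nat_lit 21527) (S (nat_lit 12911) (L (nat_lit 15852821))
(L (nat_lit 26662950)))
(L (nat_lit 10547921)))
(L (nat_lit 417704))))
(S (nat_lit 19768) (S (nat_lit 8) (S (nat_lit 53867) (S (nat_lit 57272) (L (nat_lit 19274874))
(L (nat_lit 12655506)))
(L (nat_lit 18985897)))
(L (nat_lit 596912)))
(S (nat_lit 39532) (S (nat_lit 3162) (S (nat_lit 1763) (L (nat_lit 22217647))
(L (nat_lit 19139504)))
(L (nat_lit 11080089)))
(L (nat_lit 25382370)))))
(L (nat_lit 25548196)))))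
(S (nat_lit 21544) (S (nat_lit 3163) (S (nat_lit 14699) (L (nat_lit 22580039))
(S (nat_lit 31435) (S (nat_lit 1265) (L (nat_lit 7062368))
(L (nat_lit 12782422)))
(L (nat_lit 2845062))))
(S (nat_lit 22927) (S (nat_lit 2743) (S (nat_lit 4652) (S (nat_lit 57269) (S (nat_lit 26085) (L (nat_lit 7468566))
(L (nat_lit 22145449)))
(L (nat_lit 11630068)))
(S (nat_lit 23764) (L (nat_lit 12203941))
(L (nat_lit 26904908))))
(S (nat_lit 22507) (S (nat_lit 4652) (L (nat_lit 8106788))
(S (nat_lit 46747) (L (nat_lit 18025269))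
(L (nat_lit 26872203))))
(S (nat_lit 42271) (S (nat_lit 37355) (L (nat_lit 13539412))
(S (nat_lit 57269) (S (nat_lit 51199) (S (nat_lit 16342) (S (nat_lit 39264) (L (nat_lit 24600773))
(L (nat_lit 23357521)))
(L (nat_lit 11092901)))
(L (nat_lit 5820665)))
(L (nat_lit 21203886))))
(L (nat_lit 25539268)))))
(S (nat_lit 42691) (S (nat_lit 7847) (S (nat_lit 1771) (S (nat_lit 45849) (L (nat_lit 20874511))
(L (nat_lit 24243441)))
(L (nat_lit 19152800)))
(S (nat_lit 27611) (S (nat_lit 23459) (S (nat_lit 48769) (S (nat_lit 46121) (L (nat_lit 4594395))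
(L (nat_lit 27547761)))
(L (nat_lit 13866681)))
(L (nat_lit 7428505)))
(S (nat_lit 47375) (S (nat_lit 38042) (S (nat_lit 11670) (L (nat_lit 7258688))
(L (nat_lit 807368)))
(L (nat_lit 20030873)))
(L (nat_lit 25238192)))))
(L (nat_lit 25316747)))))
(S (nat_lit 41308) (S (nat_lit 4652) (S (nat_lit 0) (S (nat_lit 38042) (S (nat_lit 37508) (S (nat_lit 44710) (L (nat_lit 13705143))
(L (nat_lit 24255897)))
(L (nat_lit 586442)))
(L (nat_lit 2891340)))
(S (nat_lit 19764) (S (nat_lit 7137) (L (nat_lit 12741878))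
(S (nat_lit 43223) (S (nat_lit 50786) (L (nat_lit 4608314))
(L (nat_lit 27897899)))
(L (nat_lit 4876678))))
(S (nat_lit 39528) (S (nat_lit 22927) (S (nat_lit 6318) (S (nat_lit 22499) (S (nat_lit 53870) (L (nat_lit 16928987))
(L (nat_lit 28028969)))
(L (nat_lit 18586649)))
(L (nat_lit 3950185)))
(L (nat_lit 616838)))
(L (nat_lit 25795597)))))
(S (nat_lit 24416) (S (nat_lit 1253) (S (nat_lit 29516) (S (nat_lit 42271) (L (nat_lit 8477452))
(L (nat_lit 11292684)))
(L (nat_lit 24480153)))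
(S (nat_lit 21017) (S (nat_lit 28033) (L (nat_lit 30026860))
(L (nat_lit 31073390)))
(S (nat_lit 40781) (S (nat_lit 44693) (S (nat_lit 59029) (L (nat_lit 1515350))
(L (nat_lit 804118)))
(L (nat_lit 5555991)))
(L (nat_lit 25308785)))))
(S (nat_lit 44180) (S (nat_lit 38042) (S (nat_lit 21029) (L (nat_lit 9046429))
(L (nat_lit 15468758)))
(S (nat_lit 52812) (L (nat_lit 25037288))
(L (nat_lit 20885732))))
(L (nat_lit 25184620)))))
(L (nat_lit 25928197)))))
(S (nat_lit 43214) (S (nat_lit 4658) (S (nat_lit 8269) (S (nat_lit 40781) (L (nat_lit 3985711))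
(L (nat_lit 2576664)))
(S (nat_lit 28033) (S (nat_lit 2743) (S (nat_lit 18278) (S (nat_lit 55376) (S (nat_lit 36106) (S (nat_lit 42270) (S (nat_lit 6593) (S (nat_lit 24419) (S (nat_lit 36533) (S (nat_lit 5181) (L (nat_lit 7804635))
(L (nat_lit 932082)))
(L (nat_lit 30453268)))
(L (nat_lit 30953699)))
(L (nat_lit 1561419)))
(L (nat_lit 14013253)))
(L (nat_lit 6949681)))
(L (nat_lit 27414895)))
(L (nat_lit 16601225)))
(L (nat_lit 14766985)))
(S (nat_lit 47797) (S (nat_lit 21534) (L (nat_lit 9833179))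
(L (nat_lit 16012132)))
(L (nat_lit 25889290)))))
(S (nat_lit 24422) (S (nat_lit 4652) (S (nat_lit 15466) (L (nat_lit 5839258))
(S (nat_lit 49280) (S (nat_lit 3695) (S (nat_lit 9749) (L (nat_lit 18484134))
(L (nat_lit 26610311)))
(L (nat_lit 10122628)))
(L (nat_lit 10359187))))
(S (nat_lit 24416) (S (nat_lit 14339) (S (nat_lit 49280) (S (nat_lit 24431) (L (nat_lit 12192154))
(L (nat_lit 14314785)))
(L (nat_lit 10015617)))
(S (nat_lit 34103) (S (nat_lit 27620) (S (nat_lit 31434) (S (nat_lit 13182) (L (nat_lit 1721692))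
(L (nat_lit 13802391)))
(L (nat_lit 6875318)))
(L (nat_lit 19169817)))
(S (nat_lit 53867) (S (nat_lit 10286) (S (nat_lit 22506) (S (nat_lit 16341) (L (nat_lit 285116))
(L (nat_lit 17718376)))
(L (nat_lit 8901477)))
(L (nat_lit 10154405)))
(L (nat_lit 25567412)))))
(S (nat_lit 44180) (S (nat_lit 9749) (S (nat_lit 434) (L (nat_lit 20417451))
(S (nat_lit 36106) (S (nat_lit 21029) (S (nat_lit 57269) (S (nat_lit 52436) (S (nat_lit 37508) (L (nat_lit 29742223))
(L (nat_lit 10193433)))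
(L (nat_lit 840168)))
(L (nat_lit 19368875)))
(L (nat_lit 12026646)))
(L (nat_lit 31066539))))
(S (nat_lit 37362) (L (nat_lit 5559184))
(L (nat_lit 26235151))))
(L (nat_lit 25860204)))))
(S (nat_lit 44186) (S (nat_lit 11670) (S (nat_lit 5173) (S (nat_lit 1770) (S (nat_lit 18278) (S (nat_lit 14876) (S (nat_lit 15848) (S (nat_lit 11671) (S (nat_lit 44192) (S (nat_lit 53867) (S (nat_lit 39265) (S (nat_lit 44180) (L (nat_lit 14756509))
(L (nat_lit 13242744)))
(L (nat_lit 8012888)))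
(L (nat_lit 404340)))
(L (nat_lit 1977910)))
(L (nat_lit 26792226)))
(L (nat_lit 16929706)))
(L (nat_lit 13816744)))
(L (nat_lit 15848361)))
(L (nat_lit 13848696)))
(L (nat_lit 10637722)))
(S (nat_lit 31434) (S (nat_lit 31435) (L (nat_lit 28889317))
(L (nat_lit 4084102)))
(S (nat_lit 51198) (S (nat_lit 11671) (L (nat_lit 1626425))
(L (nat_lit 1888651)))
(L (nat_lit 25733302)))))
(L (nat_lit 25441953)))))
(L (nat_lit 25276759)))))
(L (nat_lit 25320839)))))
(S (nat_lit 24936) (S (nat_lit 11670) (S (nat_lit 14339) (S (nat_lit 19500) (S (nat_lit 16341) (S (nat_lit 3680) (S (nat_lit 29513) (S (nat_lit 16769) (S (nat_lit 54404) (L (nat_lit 23111567))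
(L (nat_lit 1565256)))
(L (nat_lit 24502319)))
(L (nat_lit 12487311)))
(S (nat_lit 23444) (S (nat_lit 29513) (S (nat_lit 16769) (L (nat_lit 11078447))
(L (nat_lit 10216900)))
(L (nat_lit 12487125)))
(S (nat_lit 43208) (S (nat_lit 21534) (S (nat_lit 23450) (S (nat_lit 36536) (L (nat_lit 2792921))
(L (nat_lit 10966788)))
(L (nat_lit 11294084)))
(L (nat_lit 16016068)))
(L (nat_lit 25821608)))))
(S (nat_lit 36105) (S (nat_lit 1771) (S (nat_lit 3163) (L (nat_lit 26489477))
(L (nat_lit 20752928)))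
(S (nat_lit 51762) (L (nat_lit 5657481))
(L (nat_lit 12505199))))
(S (nat_lit 55869) (S (nat_lit 25017) (S (nat_lit 6326) (L (nat_lit 12376517))
(L (nat_lit 3952008)))
(S (nat_lit 44709) (L (nat_lit 28979490))
(L (nat_lit 4940015))))
(L (nat_lit 25823720)))))
(S (nat_lit 39264) (S (nat_lit 3163) (S (nat_lit 4) (S (nat_lit 32672) (S (nat_lit 22506) (S (nat_lit 4655) (S (nat_lit 32946) (S (nat_lit 5181) (S (nat_lit 55172) (L (nat_lit 6183153))
(L (nat_lit 4043435)))
(L (nat_lit 930504)))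
(L (nat_lit 20264801)))
(L (nat_lit 16012067)))
(S (nat_lit 24792) (L (nat_lit 14282946))
(L (nat_lit 8406834))))
(S (nat_lit 50450) (L (nat_lit 7101954))
(L (nat_lit 17567029))))
(S (nat_lit 19768) (S (nat_lit 26462) (L (nat_lit 10667677))
(L (nat_lit 22845457)))
(S (nat_lit 39532) (S (nat_lit 40790) (L (nat_lit 4512154))
(L (nat_lit 23904512)))
(L (nat_lit 25211528)))))
(S (nat_lit 22927) (S (nat_lit 16769) (S (nat_lit 3162) (S (nat_lit 29516) (L (nat_lit 14962877))
(L (nat_lit 24914305)))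
(S (nat_lit 22926) (S (nat_lit 36105) (S (nat_lit 39265) (S (nat_lit 43214) (L (nat_lit 30018054))
(L (nat_lit 23196038)))
(L (nat_lit 31069578)))
(L (nat_lit 23497020)))
(S (nat_lit 42690) (S (nat_lit 30064) (L (nat_lit 3616531))
(L (nat_lit 19966365)))
(L (nat_lit 25643204)))))
(S (nat_lit 55442) (L (nat_lit 17377188))
(L (nat_lit 1879572))))
(S (nat_lit 42691) (S (nat_lit 46121) (S (nat_lit 51199) (L (nat_lit 28825893))
(L (nat_lit 27525527)))
(L (nat_lit 27525713)))
(L (nat_lit 25313493)))))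
(S (nat_lit 59028) (S (nat_lit 11249) (S (nat_lit 12911) (S (nat_lit 9752) (S (nat_lit 14876) (S (nat_lit 1771) (S (nat_lit 4655) (S (nat_lit 3680) (L (nat_lit 29837352))
(L (nat_lit 11649788)))
(L (nat_lit 16044125)))
(L (nat_lit 11653658)))
(L (nat_lit 3000593)))
(L (nat_lit 2969991)))
(S (nat_lit 32675) (S (nat_lit 9241) (S (nat_lit 26357) (S (nat_lit 54404) (S (nat_lit 22507) (S (nat_lit 1780) (L (nat_lit 28577301))
(L (nat_lit 13687690)))
(L (nat_lit 30429608)))
(L (nat_lit 16962312)))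
(L (nat_lit 2904336)))
(L (nat_lit 17584481)))
(S (nat_lit 52439) (S (nat_lit 42695) (S (nat_lit 4667) (S (nat_lit 29005) (L (nat_lit 13882424))
(L (nat_lit 8853298)))
(L (nat_lit 2382269)))
(L (nat_lit 7892023)))
(L (nat_lit 25924942)))))
(S (nat_lit 31013) (S (nat_lit 44693) (S (nat_lit 3) (S (nat_lit 5182) (S (nat_lit 18269) (S (nat_lit 1) (S (nat_lit 10286) (S (nat_lit 23444) (S (nat_lit 3163) (S (nat_lit 21534) (S (nat_lit 11258) (S (nat_lit 21535) (S (nat_lit 40793) (S (nat_lit 13283) (S (nat_lit 22867) (S (nat_lit 29438) (S (nat_lit 45974) (S (nat_lit 34041) (S (nat_lit 37937) (S (nat_lit 51040) (D (nat_lit 10) (nat_lit 3725094) (nat_lit 21169688) (nat_lit 1154084790090073121))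
(L (nat_lit 21925136)))
(L (nat_lit 24193593)))
(L (nat_lit 29477068)))
(L (nat_lit 1335953)))
(L (nat_lit 29377129)))
(L (nat_lit 29820619)))
(L (nat_lit 3813265)))
(L (nat_lit 2769799)))
(L (nat_lit 7463444)))
(L (nat_lit 6339477)))
(L (nat_lit 839884)))
(L (nat_lit 19709958)))
(L (nat_lit 22413529)))
(L (nat_lit 10368613)))
(L (nat_lit 26608201)))
(L (nat_lit 9263556)))
(L (nat_lit 19273606)))
(L (nat_lit 19292230)))
(L (nat_lit 9860246)))
(S (nat_lit 50777) (S (nat_lit 4655) (S (nat_lit 5805) (S (nat_lit 24314) (L (nat_lit 10277285))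
(L (nat_lit 2676490)))
(S (nat_lit 17741) (S (nat_lit 21534) (S (nat_lit 22506) (S (nat_lit 3163) (S (nat_lit 9240) (S (nat_lit 55869) (S (nat_lit 2751) (S (nat_lit 34631) (S (nat_lit 23459) (S (nat_lit 44710) (L (nat_lit 5939020))
(L (nat_lit 12836611)))
(L (nat_lit 13299013)))
(L (nat_lit 11451508)))
(L (nat_lit 15063064)))
(L (nat_lit 1308238)))
(L (nat_lit 6840997)))
(L (nat_lit 15327238)))
(L (nat_lit 4577070)))
(L (nat_lit 15783723)))
(L (nat_lit 2866954))))
(S (nat_lit 24419) (S (nat_lit 8376) (L (nat_lit 2563704))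
(S (nat_lit 40790) (S (nat_lit 24428) (L (nat_lit 322156))
(L (nat_lit 14419563)))
(L (nat_lit 468600))))
(S (nat_lit 44183) (S (nat_lit 38033) (S (nat_lit 45854) (L (nat_lit 6706232))
(L (nat_lit 23434648)))
(L (nat_lit 20722823)))
(L (nat_lit 25834571)))))
(L (nat_lit 25509941)))))
(L (nat_lit 25449487)))))
(S (nat_lit 34103) (S (nat_lit 9240) (S (nat_lit 21534) (S (nat_lit 32672) (S (nat_lit 29513) (S (nat_lit 22506) (S (nat_lit 1253) (S (nat_lit 4655) (S (nat_lit 37505) (S (nat_lit 13182) (S (nat_lit 19500) (S (nat_lit 45850) (S (nat_lit 42691) (S (nat_lit 39532) (S (nat_lit 3692) (S (nat_lit 22515) (S (nat_lit 24945) (S (nat_lit 4664) (S (nat_lit 1265) (S (nat_lit 4652) (S (nat_lit 36536) (S (nat_lit 29516) (S (nat_lit 8269) (S (nat_lit 3686) (S (nat_lit 22895) (S (nat_lit 45929) (S (nat_lit 37988) (S (nat_lit 52575) (S (nat_lit 13120) (S (nat_lit 10340) (S (nat_lit 1865) (S (nat_lit 44125) (D (nat_lit 8) (nat_lit 19673282) (nat_lit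 15392875) (nat_lit 73825259125089534976))
(L (nat_lit 13760201)))
(L (nat_lit 29797985)))
(L (nat_lit 24540356)))
(L (nat_lit 22443204)))
(L (nat_lit 26236454)))
(L (nat_lit 1535559)))
(L (nat_lit 21856650)))
(L (nat_lit 15640291)))
(L (nat_lit 19738853)))
(L (nat_lit 14014586)))
(L (nat_lit 6306395)))
(L (nat_lit 20458587)))
(L (nat_lit 19774819)))
(S (nat_lit 21029) (S (nat_lit 29005) (S (nat_lit 23459) (S (nat_lit 21020) (S (nat_lit 44180) (S (nat_lit 52439) (L (nat_lit 5488312))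
(L (nat_lit 27700800)))
(L (nat_lit 27936065)))
(L (nat_lit 15346841)))
(L (nat_lit 2349467)))
(L (nat_lit 10377636)))
(S (nat_lit 40793) (S (nat_lit 44186) (S (nat_lit 59029) (S (nat_lit 16772) (L (nat_lit 2315148))
(L (nat_lit 15490372)))
(L (nat_lit 15490308)))
(L (nat_lit 15345537)))
(L (nat_lit 25221577)))))
(L (nat_lit 3004906)))
(L (nat_lit 14538976)))
(L (nat_lit 13490501)))
(S (nat_lit 50638) (S (nat_lit 10363) (L (nat_lit 30513714))
(L (nat_lit 13301058)))
(L (nat_lit 10105884))))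
(L (nat_lit 18445571)))
(L (nat_lit 1668460)))
(L (nat_lit 6911117)))
(L (nat_lit 24519769)))
(S (nat_lit 39369) (L (nat_lit 2992660))
(L (nat_lit 14228352))))
(L (nat_lit 17031041)))
(L (nat_lit 4477710)))
(L (nat_lit 8901410)))
(L (nat_lit 5034350)))
(L (nat_lit 5657481)))
(L (nat_lit 17027970)))
(L (nat_lit 6082829)))
(S (nat_lit 29004) (S (nat_lit 15848) (S (nat_lit 9752) (S (nat_lit 47797) (S (nat_lit 42271) (L (nat_lit 11064133))
(L (nat_lit 16601096)))
(L (nat_lit 9293871)))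
(L (nat_lit 11390991)))
(S (nat_lit 35612) (S (nat_lit 49280) (S (nat_lit 40781) (L (nat_lit 29741201))
(L (nat_lit 3035527)))
(L (nat_lit 9851779)))
(S (nat_lit 55376) (S (nat_lit 8269) (S (nat_lit 24937) (L (nat_lit 971211))
(L (nat_lit 2937291)))
(L (nat_lit 14438442)))
(L (nat_lit 25889133)))))
(S (nat_lit 48768) (S (nat_lit 3167) (S (nat_lit 2742) (S (nat_lit 19500) (L (nat_lit 483573))
(L (nat_lit 3813297)))
(S (nat_lit 18671) (S (nat_lit 27748) (L (nat_lit 4449684))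
(L (nat_lit 21327267)))
(L (nat_lit 15067154))))
(S (nat_lit 22931) (S (nat_lit 16221) (S (nat_lit 31435) (L (nat_lit 2904488))
(L (nat_lit 3429232)))
(S (nat_lit 24419) (S (nat_lit 19500) (S (nat_lit 12908) (S (nat_lit 55869) (S (nat_lit 23450) (L (nat_lit 15043194))
(L (nat_lit 22351259)))
(L (nat_lit 16392251)))
(L (nat_lit 9589516)))
(L (nat_lit 11556753)))
(L (nat_lit 30422634))))
(S (nat_lit 42695) (S (nat_lit 1770) (S (nat_lit 42687) (S (nat_lit 45846) (L (nat_lit 9275924))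
(L (nat_lit 23248809)))
(L (nat_lit 16623763)))
(S (nat_lit 21534) (S (nat_lit 42691) (S (nat_lit 19500) (S (nat_lit 42687) (S (nat_lit 1262) (L (nat_lit 10141880))
(L (nat_lit 4054441)))
(L (nat_lit 23963792)))
(L (nat_lit 18112389)))
(L (nat_lit 27863217)))
(S (nat_lit 41298) (S (nat_lit 12908) (L (nat_lit 23228721))
(L (nat_lit 9589516)))
(L (nat_lit 25443442)))))
(L (nat_lit 25240269)))))
(L (nat_lit 25824590)))))
(S (nat_lit 53867) (S (nat_lit 14867) (S (nat_lit 1) (S (nat_lit 3680) (S (nat_lit 32946) (S (nat_lit 1780) (L (nat_lit 10185903))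
(L (nat_lit 13895572)))
(L (nat_lit 10257036)))
(S (nat_lit 23444) (S (nat_lit 14342) (S (nat_lit 11258) (S (nat_lit 16772) (S (nat_lit 59029) (L (nat_lit 19268893))
(L (nat_lit 21392641)))
(L (nat_lit 22807080)))
(L (nat_lit 21313661)))
(S (nat_lit 41228) (S (nat_lit 21026) (L (nat_lit 4679403))
(L (nat_lit 21765504)))
(L (nat_lit 26321617))))
(S (nat_lit 43208) (S (nat_lit 19768) (S (nat_lit 56297) (L (nat_lit 4674312))
(L (nat_lit 14539784)))
(L (nat_lit 2700200)))
(L (nat_lit 25250214)))))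
(S (nat_lit 19765) (S (nat_lit 56300) (S (nat_lit 27987) (L (nat_lit 2713035))
(S (nat_lit 40793) (S (nat_lit 24416) (S (nat_lit 1770) (L (nat_lit 29940930))
(L (nat_lit 13916036)))
(L (nat_lit 14326841)))
(L (nat_lit 2613462))))
(L (nat_lit 27312744)))
(S (nat_lit 39529) (S (nat_lit 4667) (S (nat_lit 3695) (S (nat_lit 22506) (S (nat_lit 3680) (S (nat_lit 36536) (L (nat_lit 26530212))
(L (nat_lit 23529382)))
(L (nat_lit 10092988)))
(L (nat_lit 9458108)))
(L (nat_lit 12227996)))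
(S (nat_lit 24431) (S (nat_lit 31013) (S (nat_lit 1763) (L (nat_lit 30886952))
(L (nat_lit 2832296)))
(L (nat_lit 25015403)))
(S (nat_lit 44195) (S (nat_lit 1771) (S (nat_lit 1780) (S (nat_lit 34106) (L (nat_lit 1448664))
(L (nat_lit 30586068)))
(L (nat_lit 12453428)))
(L (nat_lit 12505199)))
(L (nat_lit 25833731)))))
(L (nat_lit 25597973)))))
(S (nat_lit 34631) (S (nat_lit 3163) (S (nat_lit 5173) (S (nat_lit 29513) (S (nat_lit 21029) (S (nat_lit 43214) (L (nat_lit 13361321))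
(L (nat_lit 27676776)))
(L (nat_lit 15638178)))
(S (nat_lit 51910) (S (nat_lit 21904) (L (nat_lit 12014712))
(L (nat_lit 20715665)))
(L (nat_lit 19277977))))
(S (nat_lit 43410) (S (nat_lit 59029) (L (nat_lit 15648963))
(L (nat_lit 9178518)))
(L (nat_lit 26981547))))
(S (nat_lit 22927) (S (nat_lit 12908) (S (nat_lit 42280) (S (nat_lit 52711) (S (nat_lit 26357) (L (nat_lit 17371016))
(L (nat_lit 24381201)))
(L (nat_lit 5584537)))
(L (nat_lit 23561033)))
(S (nat_lit 32672) (S (nat_lit 26085) (S (nat_lit 32946) (S (nat_lit 35603) (S (nat_lit 57269) (S (nat_lit 9241) (S (nat_lit 38033) (S (nat_lit 39265) (L (nat_lit 14821238))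
(L (nat_lit 31001808)))
(L (nat_lit 3938708)))
(L (nat_lit 16898952)))
(L (nat_lit 12487342)))
(L (nat_lit 1787225)))
(L (nat_lit 30956897)))
(S (nat_lit 27519) (S (nat_lit 38033) (S (nat_lit 32946) (L (nat_lit 11006597))
(L (nat_lit 30956897)))
(L (nat_lit 17750308)))
(L (nat_lit 21293573))))
(S (nat_lit 52436) (S (nat_lit 21029) (S (nat_lit 44180) (S (nat_lit 1763) (L (nat_lit 9003552))
(L (nat_lit 19095665)))
(L (nat_lit 14977752)))
(L (nat_lit 30923106)))
(L (nat_lit 25511554)))))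
(S (nat_lit 42691) (S (nat_lit 22924) (S (nat_lit 11249) (S (nat_lit 21029) (S (nat_lit 41308) (L (nat_lit 1942036))
(L (nat_lit 23332377)))
(L (nat_lit 21433255)))
(L (nat_lit 2565045)))
(S (nat_lit 23248) (L (nat_lit 10164017))
(L (nat_lit 342869))))
(L (nat_lit 25242257)))))
(S (nat_lit 54395) (S (nat_lit 1256) (S (nat_lit 9219) (S (nat_lit 53950) (L (nat_lit 17427650))
(L (nat_lit 31110370)))
(S (nat_lit 54404) (S (nat_lit 1265) (S (nat_lit 22516) (S (nat_lit 4658) (S (nat_lit 55376) (L (nat_lit 26366378))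
(L (nat_lit 316239)))
(L (nat_lit 18142017)))
(L (nat_lit 1944305)))
(L (nat_lit 8450705)))
(L (nat_lit 3664148))))
(S (nat_lit 21020) (S (nat_lit 3695) (S (nat_lit 21026) (S (nat_lit 32672) (S (nat_lit 29513) (S (nat_lit 21527) (L (nat_lit 28554290))
(L (nat_lit 30461137)))
(L (nat_lit 12487311)))
(L (nat_lit 16935560)))
(L (nat_lit 12485046)))
(S (nat_lit 23459) (S (nat_lit 22927) (S (nat_lit 55376) (S (nat_lit 11249) (L (nat_lit 29017344))
(L (nat_lit 21935459)))
(L (nat_lit 21801037)))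
(L (nat_lit 21833745)))
(S (nat_lit 43223) (S (nat_lit 26357) (S (nat_lit 23450) (L (nat_lit 30087279))
(L (nat_lit 2445723)))
(L (nat_lit 3906481)))
(L (nat_lit 25280168)))))
(S (nat_lit 40784) (S (nat_lit 1771) (S (nat_lit 14876) (S (nat_lit 44186) (S (nat_lit 19768) (L (nat_lit 18881297))
(L (nat_lit 20984088)))
(L (nat_lit 13422762)))
(L (nat_lit 2999572)))
(L (nat_lit 12505199)))
(L (nat_lit 25836898)))))
(L (nat_lit 25657990)))))
(L (nat_lit 25602162)))))
(S (nat_lit 31434) (S (nat_lit 3162) (S (nat_lit 3167) (S (nat_lit 6318) (S (nat_lit 43220) (S (nat_lit 4) (S (nat_lit 5181) (S (nat_lit 3160) (S (nat_lit 57806) (L (nat_lit 19294344))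
(L (nat_lit 18964871)))
(L (nat_lit 2933323)))
(L (nat_lit 20877615)))
(L (nat_lit 19947823)))
(L (nat_lit 27923759)))
(S (nat_lit 26082) (S (nat_lit 12911) (S (nat_lit 4652) (S (nat_lit 11258) (S (nat_lit 16769) (S (nat_lit 1763) (L (nat_lit 13275016))
(L (nat_lit 20489277)))
(L (nat_lit 15394084)))
(L (nat_lit 2749899)))
(S (nat_lit 22155) (L (nat_lit 14836427))
(L (nat_lit 2770268))))
(S (nat_lit 32675) (S (nat_lit 2743) (S (nat_lit 4655) (L (nat_lit 29446382))
(L (nat_lit 2642730)))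
(L (nat_lit 18953129)))
(S (nat_lit 52439) (S (nat_lit 30041) (L (nat_lit 14854003))
(L (nat_lit 11307631)))
(L (nat_lit 25937030)))))
(S (nat_lit 45846) (S (nat_lit 23456) (S (nat_lit 11096) (S (nat_lit 3159) (S (nat_lit 12794) (L (nat_lit 17636069))
(L (nat_lit 19833004)))
(L (nat_lit 20713992)))
(S (nat_lit 11258) (S (nat_lit 53867) (S (nat_lit 52439) (S (nat_lit 40793) (L (nat_lit 4114022))
(L (nat_lit 10258902)))
(L (nat_lit 15037493)))
(L (nat_lit 18983793)))
(L (nat_lit 2446749))))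
(L (nat_lit 21763375)))
(L (nat_lit 25282865)))))
(S (nat_lit 22931) (S (nat_lit 19501) (S (nat_lit 21017) (S (nat_lit 21020) (S (nat_lit 8269) (L (nat_lit 2595639))
(L (nat_lit 12341359)))
(L (nat_lit 12341698)))
(S (nat_lit 49578) (L (nat_lit 3613400))
(L (nat_lit 11994747))))
(S (nat_lit 39265) (S (nat_lit 27890) (L (nat_lit 2501429))
(S (nat_lit 36105) (S (nat_lit 53870) (L (nat_lit 4682440))
(L (nat_lit 2447152)))
(L (nat_lit 20235044))))
(S (nat_lit 59029) (S (nat_lit 1770) (S (nat_lit 2751) (S (nat_lit 23444) (S (nat_lit 2752) (S (nat_lit 22923) (L (nat_lit 19302618))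
(L (nat_lit 11692622)))
(L (nat_lit 7059332)))
(L (nat_lit 2346861)))
(S (nat_lit 33949) (S (nat_lit 30050) (L (nat_lit 20452136))
(L (nat_lit 30686885)))
(L (nat_lit 19792206))))
(S (nat_lit 21534) (S (nat_lit 13111) (L (nat_lit 2453906))
(S (nat_lit 23444) (S (nat_lit 35612) (L (nat_lit 30822693))
(L (nat_lit 12866400)))
(L (nat_lit 30492877))))
(S (nat_lit 41298) (S (nat_lit 2752) (S (nat_lit 42688) (S (nat_lit 55376) (L (nat_lit 2443802))
(L (nat_lit 11686735)))
(L (nat_lit 13978713)))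
(L (nat_lit 15654244)))
(L (nat_lit 25285163)))))
(L (nat_lit 25181834)))))
(S (nat_lit 42695) (S (nat_lit 19500) (S (nat_lit 37505) (S (nat_lit 42687) (S (nat_lit 42691) (S (nat_lit 57272) (S (nat_lit 35603) (S (nat_lit 14339) (S (nat_lit 15848) (S (nat_lit 59029) (L (nat_lit 5457625))
(L (nat_lit 19743754)))
(L (nat_lit 17631570)))
(L (nat_lit 14459060)))
(L (nat_lit 12724082)))
(L (nat_lit 11373074)))
(L (nat_lit 14518485)))
(L (nat_lit 24265051)))
(L (nat_lit 8478265)))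
(S (nat_lit 39264) (S (nat_lit 1265) (S (nat_lit 4652) (S (nat_lit 3692) (L (nat_lit 23473339))
(L (nat_lit 17670167)))
(L (nat_lit 20187548)))
(S (nat_lit 21029) (S (nat_lit 22924) (S (nat_lit 3686) (S (nat_lit 34106) (S (nat_lit 2752) (L (nat_lit 6377916))
(L (nat_lit 19205004)))
(L (nat_lit 23196103)))
(L (nat_lit 20015343)))
(S (nat_lit 25531) (L (nat_lit 13656435))
(L (nat_lit 12126680))))
(S (nat_lit 40793) (S (nat_lit 17741) (S (nat_lit 31013) (L (nat_lit 20384647))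
(L (nat_lit 24953155)))
(L (nat_lit 15818994)))
(L (nat_lit 25856457)))))
(S (nat_lit 59028) (S (nat_lit 391) (L (nat_lit 11995768))
(S (nat_lit 22924) (S (nat_lit 59029) (S (nat_lit 21029) (S (nat_lit 2752) (L (nat_lit 16866057))
(L (nat_lit 14756788)))
(L (nat_lit 21119195)))
(L (nat_lit 21064909)))
(L (nat_lit 21504837))))
(L (nat_lit 25189649)))))
(L (nat_lit 25248054)))))
(S (nat_lit 22926) (S (nat_lit 15848) (S (nat_lit 9752) (S (nat_lit 7847) (S (nat_lit 47797) (S (nat_lit 41299) (S (nat_lit 17741) (S (nat_lit 22931) (S (nat_lit 1763) (S (nat_lit 6326) (S (nat_lit 46446) (L (nat_lit 18954120))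
(L (nat_lit 3988007)))
(L (nat_lit 16361376)))
(L (nat_lit 26972712)))
(L (nat_lit 31008813)))
(L (nat_lit 26907178)))
(L (nat_lit 27545647)))
(L (nat_lit 27570231)))
(S (nat_lit 27611) (S (nat_lit 42280) (S (nat_lit 3686) (S (nat_lit 55870) (S (nat_lit 39528) (L (nat_lit 11306389))
(L (nat_lit 12438944)))
(L (nat_lit 19663089)))
(L (nat_lit 12112709)))
(L (nat_lit 11622844)))
(S (nat_lit 47375) (S (nat_lit 41299) (S (nat_lit 14867) (S (nat_lit 26090) (L (nat_lit 30708275))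
(L (nat_lit 30984200)))
(L (nat_lit 2971856)))
(L (nat_lit 23931424)))
(L (nat_lit 25410144)))))
(S (nat_lit 29516) (S (nat_lit 1771) (S (nat_lit 24937) (L (nat_lit 2412984))
(L (nat_lit 6705955)))
(L (nat_lit 9556910)))
(S (nat_lit 49280) (S (nat_lit 21020) (S (nat_lit 32675) (L (nat_lit 13685117))
(L (nat_lit 30658976)))
(L (nat_lit 30888288)))
(L (nat_lit 25727347)))))
(S (nat_lit 35612) (S (nat_lit 9752) (S (nat_lit 9749) (L (nat_lit 9833210))
(L (nat_lit 2478861)))
(S (nat_lit 29516) (S (nat_lit 8269) (L (nat_lit 2937259))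
(L (nat_lit 12341792)))
(S (nat_lit 49280) (S (nat_lit 2752) (S (nat_lit 21535) (S (nat_lit 1265) (L (nat_lit 9177650))
(L (nat_lit 4020592)))
(L (nat_lit 22555424)))
(S (nat_lit 22516) (S (nat_lit 28033) (S (nat_lit 44701) (S (nat_lit 37505) (L (nat_lit 2828729))
(L (nat_lit 10359532)))
(L (nat_lit 10160912)))
(L (nat_lit 31141413)))
(S (nat_lit 42280) (S (nat_lit 18278) (S (nat_lit 44701) (S (nat_lit 9241) (S (nat_lit 44183) (S (nat_lit 43214) (S (nat_lit 40793) (L (nat_lit 466589))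
(L (nat_lit 24609673)))
(L (nat_lit 13882149)))
(L (nat_lit 3691435)))
(L (nat_lit 3985832)))
(L (nat_lit 9851650)))
(S (nat_lit 36661) (L (nat_lit 5493178))
(L (nat_lit 26333420))))
(L (nat_lit 25493940)))))
(L (nat_lit 25180745)))))
(S (nat_lit 55376) (S (nat_lit 12908) (S (nat_lit 31435) (S (nat_lit 8269) (S (nat_lit 42271) (S (nat_lit 38042) (S (nat_lit 1770) (S (nat_lit 21020) (L (nat_lit 18088819))
(L (nat_lit 30888288)))
(L (nat_lit 10015618)))
(L (nat_lit 16864103)))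
(L (nat_lit 14504289)))
(L (nat_lit 26366223)))
(L (nat_lit 2675005)))
(S (nat_lit 32672) (S (nat_lit 24937) (S (nat_lit 32675) (L (nat_lit 2347483))
(L (nat_lit 13685510)))
(L (nat_lit 30560557)))
(S (nat_lit 52436) (S (nat_lit 8269) (S (nat_lit 38042) (S (nat_lit 21017) (S (nat_lit 24937) (S (nat_lit 42270) (S (nat_lit 46121) (S (nat_lit 31435) (S (nat_lit 21026) (S (nat_lit 57269) (S (nat_lit 55367) (L (nat_lit 6375160))
(L (nat_lit 19154688)))
(L (nat_lit 10647278)))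
(L (nat_lit 21440322)))
(L (nat_lit 30462411)))
(L (nat_lit 11325892)))
(L (nat_lit 27774982)))
(L (nat_lit 7131587)))
(L (nat_lit 14831961)))
(L (nat_lit 17159012)))
(L (nat_lit 13422848)))
(L (nat_lit 25759020)))))
(L (nat_lit 25900384)))))
(S (nat_lit 42690) (S (nat_lit 17744) (S (nat_lit 17741) (S (nat_lit 8) (S (nat_lit 45850) (S (nat_lit 0) (L (nat_lit 25002507))
(L (nat_lit 1847506)))
(L (nat_lit 2616970)))
(S (nat_lit 19772) (S (nat_lit 24945) (L (nat_lit 17616042))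
(L (nat_lit 2989522)))
(S (nat_lit 39536) (S (nat_lit 45847) (S (nat_lit 4667) (S (nat_lit 26357) (S (nat_lit 42687) (S (nat_lit 19501) (L (nat_lit 19173297))
(L (nat_lit 18427780)))
(L (nat_lit 23215018)))
(L (nat_lit 3953130)))
(L (nat_lit 3004842)))
(L (nat_lit 2999882)))
(L (nat_lit 25414181)))))
(S (nat_lit 37505) (S (nat_lit 11671) (S (nat_lit 43214) (S (nat_lit 49814) (L (nat_lit 16386920))
(L (nat_lit 4713062)))
(L (nat_lit 24201094)))
(S (nat_lit 31435) (S (nat_lit 22515) (S (nat_lit 32675) (S (nat_lit 1262) (S (nat_lit 42691) (L (nat_lit 22348187))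
(L (nat_lit 24578268)))
(L (nat_lit 10947196)))
(L (nat_lit 14602464)))
(L (nat_lit 9931571)))
(S (nat_lit 51199) (S (nat_lit 3680) (S (nat_lit 55870) (S (nat_lit 47375) (L (nat_lit 28400880))
(L (nat_lit 10293872)))
(L (nat_lit 13863766)))
(L (nat_lit 10013885)))
(L (nat_lit 25733266)))))
(S (nat_lit 57269) (S (nat_lit 19500) (S (nat_lit 8269) (L (nat_lit 13723860))
(L (nat_lit 9527983)))
(S (nat_lit 39264) (S (nat_lit 3680) (S (nat_lit 42271) (S (nat_lit 52436) (S (nat_lit 3695) (L (nat_lit 2938346))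
(L (nat_lit 14752413)))
(L (nat_lit 15030456)))
(L (nat_lit 24192441)))
(L (nat_lit 18949565)))
(S (nat_lit 59028) (S (nat_lit 24419) (L (nat_lit 2610396))
(L (nat_lit 17462410)))
(L (nat_lit 25379927)))))
(L (nat_lit 25417249)))))
(S (nat_lit 37508) (S (nat_lit 9241) (S (nat_lit 21535) (S (nat_lit 32675) (S (nat_lit 54404) (S (nat_lit 22499) (S (nat_lit 28033) (S (nat_lit 1256) (L (nat_lit 28319219))
(L (nat_lit 19344444)))
(L (nat_lit 8212590)))
(L (nat_lit 30784192)))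
(L (nat_lit 16962374)))
(L (nat_lit 17584262)))
(L (nat_lit 15520005)))
(S (nat_lit 29005) (S (nat_lit 2752) (S (nat_lit 22507) (S (nat_lit 42270) (L (nat_lit 28739796))
(L (nat_lit 15804123)))
(L (nat_lit 30495145)))
(S (nat_lit 22516) (S (nat_lit 21527) (S (nat_lit 24945) (S (nat_lit 34631) (S (nat_lit 57797) (L (nat_lit 14753400))
(L (nat_lit 9564562)))
(L (nat_lit 20265825)))
(L (nat_lit 7058209)))
(S (nat_lit 53493) (L (nat_lit 11930329))
(L (nat_lit 22851624))))
(S (nat_lit 42280) (S (nat_lit 44180) (S (nat_lit 55869) (L (nat_lit 28936712))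
(L (nat_lit 14485749)))
(L (nat_lit 11143948)))
(L (nat_lit 25660104)))))
(S (nat_lit 48769) (S (nat_lit 9752) (S (nat_lit 21017) (S (nat_lit 42695) (S (nat_lit 30050) (L (nat_lit 29670580))
(L (nat_lit 2595451)))
(L (nat_lit 10324406)))
(L (nat_lit 6345553)))
(S (nat_lit 29516) (S (nat_lit 23450) (S (nat_lit 38042) (S (nat_lit 9749) (S (nat_lit 14876) (S (nat_lit 21527) (L (nat_lit 28512722))
(L (nat_lit 30937832)))
(L (nat_lit 12767516)))
(L (nat_lit 2478895)))
(L (nat_lit 13750521)))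
(L (nat_lit 2904303)))
(S (nat_lit 49280) (S (nat_lit 18278) (L (nat_lit 27513281))
(L (nat_lit 905607)))
(L (nat_lit 25764013)))))
(L (nat_lit 25383396)))))
(S (nat_lit 57272) (S (nat_lit 4652) (S (nat_lit 3163) (S (nat_lit 57797) (S (nat_lit 49280) (L (nat_lit 24416664))
(L (nat_lit 8161685)))
(L (nat_lit 7768728)))
(S (nat_lit 22927) (S (nat_lit 52711) (S (nat_lit 47797) (L (nat_lit 19730951))
(L (nat_lit 6689404)))
(L (nat_lit 19426472)))
(S (nat_lit 42691) (S (nat_lit 19501) (S (nat_lit 37505) (L (nat_lit 4080983))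
(L (nat_lit 14322570)))
(L (nat_lit 25070986)))
(L (nat_lit 25305740)))))
(S (nat_lit 24416) (S (nat_lit 9240) (S (nat_lit 2735) (S (nat_lit 27620) (S (nat_lit 19501) (L (nat_lit 24440193))
(L (nat_lit 9921558)))
(L (nat_lit 14753653)))
(S (nat_lit 34444) (L (nat_lit 22906250))
(L (nat_lit 17536906))))
(S (nat_lit 29004) (S (nat_lit 1262) (S (nat_lit 42691) (L (nat_lit 30022705))
(L (nat_lit 13913888)))
(L (nat_lit 3809073)))
(S (nat_lit 48768) (S (nat_lit 27620) (S (nat_lit 36106) (L (nat_lit 22915456))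
(L (nat_lit 12356022)))
(L (nat_lit 19129361)))
(L (nat_lit 25344615)))))
(S (nat_lit 44180) (S (nat_lit 7649) (L (nat_lit 12235521))
(S (nat_lit 27620) (S (nat_lit 36106) (S (nat_lit 9749) (S (nat_lit 20381) (L (nat_lit 3727573))
(S (nat_lit 21029) (S (nat_lit 41308) (S (nat_lit 22924) (L (nat_lit 29927571))
(L (nat_lit 30935316)))
(L (nat_lit 27789002)))
(L (nat_lit 11585303))))
(L (nat_lit 9276045)))
(S (nat_lit 36520) (L (nat_lit 24414749))
(L (nat_lit 12421622))))
(L (nat_lit 15567091))))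
(L (nat_lit 25838699)))))
(L (nat_lit 25681187)))))
(L (nat_lit 25804996)))))
(S (nat_lit 51198) (S (nat_lit 9241) (S (nat_lit 21535) (S (nat_lit 32675) (S (nat_lit 1256) (S (nat_lit 9752) (S (nat_lit 54404) (S (nat_lit 42271) (S (nat_lit 47797) (S (nat_lit 2742) (S (nat_lit 40781) (S (nat_lit 15848) (S (nat_lit 12908) (S (nat_lit 44186) (S (nat_lit 41298) (S (nat_lit 24419) (S (nat_lit 3692) (S (nat_lit 24428) (S (nat_lit 1265) (S (nat_lit 2751) (S (nat_lit 45849) (L (nat_lit 2374268))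
(L (nat_lit 27868203)))
(L (nat_lit 15620167)))
(L (nat_lit 8444381)))
(L (nat_lit 8412044)))
(S (nat_lit 23456) (S (nat_lit 18269) (S (nat_lit 26085) (S (nat_lit 24946) (L (nat_lit 4438777))
(L (nat_lit 13887203)))
(L (nat_lit 31013931)))
(L (nat_lit 15944893)))
(S (nat_lit 43220) (S (nat_lit 22516) (S (nat_lit 40778) (L (nat_lit 307901))
(L (nat_lit 27931936)))
(L (nat_lit 21050744)))
(L (nat_lit 25245256)))))
(L (nat_lit 30691809)))
(L (nat_lit 27316745)))
(L (nat_lit 12865722)))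
(L (nat_lit 18075773)))
(L (nat_lit 8212960)))
(L (nat_lit 27742464)))
(L (nat_lit 6214119)))
(L (nat_lit 18796647)))
(L (nat_lit 10507020)))
(L (nat_lit 16962374)))
(L (nat_lit 10899645)))
(L (nat_lit 11391025)))
(L (nat_lit 17584262)))
(L (nat_lit 8180261)))
(S (nat_lit 29005) (S (nat_lit 5182) (S (nat_lit 17744) (S (nat_lit 16769) (S (nat_lit 6326) (S (nat_lit 44709) (S (nat_lit 6318) (L (nat_lit 4613736))
(L (nat_lit 9953891)))
(L (nat_lit 9592285)))
(L (nat_lit 19195264)))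
(S (nat_lit 36533) (S (nat_lit 3160) (S (nat_lit 26083) (S (nat_lit 18278) (L (nat_lit 30986280))
(L (nat_lit 9124028)))
(L (nat_lit 4714868)))
(S (nat_lit 24098) (L (nat_lit 19185723))
(L (nat_lit 18965003))))
(S (nat_lit 56297) (S (nat_lit 41307) (S (nat_lit 34640) (L (nat_lit 14867337))
(L (nat_lit 30920808)))
(L (nat_lit 9166892)))
(L (nat_lit 25222662)))))
(S (nat_lit 37508) (S (nat_lit 13182) (S (nat_lit 40790) (S (nat_lit 22499) (S (nat_lit 43214) (S (nat_lit 5173) (L (nat_lit 1515317))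
(L (nat_lit 19337126)))
(L (nat_lit 27512911)))
(L (nat_lit 8481519)))
(L (nat_lit 9952162)))
(S (nat_lit 32946) (S (nat_lit 53867) (S (nat_lit 44701) (L (nat_lit 3830001))
(L (nat_lit 9582300)))
(L (nat_lit 9858164)))
(S (nat_lit 52710) (S (nat_lit 51199) (S (nat_lit 41298) (S (nat_lit 42687) (L (nat_lit 16634923))
(L (nat_lit 9964155)))
(L (nat_lit 4005581)))
(L (nat_lit 10122381)))
(L (nat_lit 25834816)))))
(S (nat_lit 57272) (S (nat_lit 6319) (S (nat_lit 15839) (S (nat_lit 21014) (S (nat_lit 44195) (L (nat_lit 11594353))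
(L (nat_lit 12770187)))
(L (nat_lit 12055232)))
(S (nat_lit 24737) (L (nat_lit 12334133))
(L (nat_lit 26527362))))
(S (nat_lit 26083) (S (nat_lit 44701) (L (nat_lit 1921232))
(L (nat_lit 27408107)))
(S (nat_lit 45847) (S (nat_lit 36536) (S (nat_lit 18278) (S (nat_lit 22923) (L (nat_lit 22179056))
(L (nat_lit 7225956)))
(L (nat_lit 9139588)))
(L (nat_lit 13512388)))
(L (nat_lit 25793837)))))
(L (nat_lit 25247338)))))
(S (nat_lit 24946) (S (nat_lit 4652) (S (nat_lit 14876) (S (nat_lit 12908) (L (nat_lit 4608776))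
(L (nat_lit 3396364)))
(S (nat_lit 34640) (S (nat_lit 24929) (S (nat_lit 22923) (S (nat_lit 52439) (S (nat_lit 2743) (L (nat_lit 29608975))
(L (nat_lit 26562577)))
(L (nat_lit 12931874)))
(L (nat_lit 22311428)))
(L (nat_lit 30657676)))
(S (nat_lit 54404) (S (nat_lit 41298) (S (nat_lit 44186) (L (nat_lit 29642860))
(L (nat_lit 11719192)))
(L (nat_lit 27807940)))
(L (nat_lit 25895427)))))
(S (nat_lit 24416) (S (nat_lit 7856) (S (nat_lit 32946) (S (nat_lit 40793) (S (nat_lit 50777) (L (nat_lit 9111473))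
(L (nat_lit 12625592)))
(L (nat_lit 27958321)))
(L (nat_lit 23207724)))
(S (nat_lit 27620) (S (nat_lit 57272) (S (nat_lit 30041) (S (nat_lit 1262) (L (nat_lit 28465610))
(L (nat_lit 13246240)))
(L (nat_lit 25009327)))
(L (nat_lit 13279011)))
(S (nat_lit 47384) (S (nat_lit 12908) (S (nat_lit 15848) (L (nat_lit 28705387))
(L (nat_lit 16929149)))
(L (nat_lit 11980925)))
(L (nat_lit 25699349)))))
(S (nat_lit 44180) (S (nat_lit 13182) (S (nat_lit 21654) (L (nat_lit 1913451))
(S (nat_lit 36106) (S (nat_lit 34640) (S (nat_lit 55367) (S (nat_lit 40790) (L (nat_lit 28624053))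
(L (nat_lit 7997848)))
(L (nat_lit 2939370)))
(L (nat_lit 15029025)))
(L (nat_lit 13267237))))
(S (nat_lit 32946) (S (nat_lit 13466) (L (nat_lit 4974832))
(S (nat_lit 34640) (S (nat_lit 2752) (L (nat_lit 14588053))
(L (nat_lit 4112104)))
(L (nat_lit 246580))))
(S (nat_lit 52710) (S (nat_lit 24428) (L (nat_lit 28974257))
(L (nat_lit 9891425)))
(L (nat_lit 25690453)))))
(L (nat_lit 25708899)))))
(S (nat_lit 44710) (S (nat_lit 6326) (S (nat_lit 52439) (S (nat_lit 2743) (S (nat_lit 6593) (S (nat_lit 1780) (S (nat_lit 21020) (S (nat_lit 8269) (S (nat_lit 16769) (S (nat_lit 24431) (L (nat_lit 1486460))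
(L (nat_lit 5789977)))
(L (nat_lit 15458310)))
(L (nat_lit 10095162)))
(L (nat_lit 6345649)))
(L (nat_lit 4414351)))
(L (nat_lit 13455466)))
(L (nat_lit 17558600)))
(L (nat_lit 20070184)))
(S (nat_lit 26090) (S (nat_lit 3) (S (nat_lit 43220) (L (nat_lit 1829320))
(L (nat_lit 27515332)))
(S (nat_lit 19767) (S (nat_lit 35603) (S (nat_lit 57797) (S (nat_lit 37505) (S (nat_lit 34640) (S (nat_lit 52439) (L (nat_lit 23589958))
(L (nat_lit 3035656)))
(L (nat_lit 30920808)))
(L (nat_lit 30921921)))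
(L (nat_lit 15043412)))
(S (nat_lit 36980) (L (nat_lit 14699304))
(L (nat_lit 10072930))))
(S (nat_lit 39531) (S (nat_lit 23456) (S (nat_lit 41298) (L (nat_lit 3927341))
(L (nat_lit 27807940)))
(L (nat_lit 3955144)))
(L (nat_lit 25577574)))))
(S (nat_lit 45854) (S (nat_lit 3167) (S (nat_lit 44701) (S (nat_lit 50786) (L (nat_lit 1364376))
(L (nat_lit 15486059)))
(L (nat_lit 27724020)))
(S (nat_lit 22931) (S (nat_lit 57797) (S (nat_lit 35603) (S (nat_lit 56300) (S (nat_lit 42690) (L (nat_lit 9323574))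
(L (nat_lit 27412872)))
(L (nat_lit 28018054)))
(L (nat_lit 9835314)))
(L (nat_lit 9984837)))
(S (nat_lit 42695) (S (nat_lit 42687) (S (nat_lit 21026) (L (nat_lit 1535283))
(L (nat_lit 12487062)))
(S (nat_lit 52093) (L (nat_lit 27637441))
(L (nat_lit 25012368))))
(L (nat_lit 25305526)))))
(L (nat_lit 25341398)))))
(L (nat_lit 25647395)))))
(S (nat_lit 48769) (S (nat_lit 3680) (S (nat_lit 16772) (S (nat_lit 10286) (S (nat_lit 18852) (L (nat_lit 14866748))
(S (nat_lit 19500) (S (nat_lit 3695) (S (nat_lit 14876) (S (nat_lit 44693) (L (nat_lit 28451283))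
(L (nat_lit 27740388)))
(L (nat_lit 25005265)))
(L (nat_lit 20788326)))
(L (nat_lit 11951129))))
(S (nat_lit 58159) (L (nat_lit 26435108))
(L (nat_lit 12506285))))
(S (nat_lit 36536) (S (nat_lit 24929) (S (nat_lit 39536) (S (nat_lit 49814) (S (nat_lit 24946) (S (nat_lit 3695) (L (nat_lit 9624028))
(L (nat_lit 10345860)))
(L (nat_lit 3979974)))
(L (nat_lit 6810276)))
(L (nat_lit 25014442)))
(L (nat_lit 12315076)))
(S (nat_lit 56300) (S (nat_lit 3695) (S (nat_lit 30050) (S (nat_lit 42687) (S (nat_lit 39529) (S (nat_lit 57797) (S (nat_lit 32947) (L (nat_lit 2011819))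
(L (nat_lit 23633085)))
(L (nat_lit 19100036)))
(L (nat_lit 27674664)))
(L (nat_lit 16346372)))
(L (nat_lit 19393796)))
(S (nat_lit 50695) (L (nat_lit 10270277))
(L (nat_lit 9559452))))
(L (nat_lit 25865765)))))
(S (nat_lit 23444) (S (nat_lit 1253) (S (nat_lit 3686) (L (nat_lit 9622289))
(L (nat_lit 12440100)))
(S (nat_lit 21017) (S (nat_lit 38042) (S (nat_lit 22507) (L (nat_lit 28889097))
(L (nat_lit 30429553)))
(L (nat_lit 2642169)))
(S (nat_lit 40781) (S (nat_lit 12908) (S (nat_lit 12911) (S (nat_lit 26357) (S (nat_lit 57806) (S (nat_lit 45850) (S (nat_lit 18269) (S (nat_lit 4667) (L (nat_lit 15802013))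
(L (nat_lit 16412683)))
(L (nat_lit 11210141)))
(L (nat_lit 3000746)))
(L (nat_lit 21049594)))
(L (nat_lit 3658667)))
(L (nat_lit 11686732)))
(L (nat_lit 16634022)))
(L (nat_lit 25827744)))))
(S (nat_lit 43208) (S (nat_lit 4) (S (nat_lit 2743) (S (nat_lit 5181) (S (nat_lit 21534) (L (nat_lit 971208))
(L (nat_lit 15520004)))
(L (nat_lit 940488)))
(S (nat_lit 22507) (S (nat_lit 3686) (S (nat_lit 12908) (S (nat_lit 14339) (S (nat_lit 3162) (L (nat_lit 16558103))
(L (nat_lit 20452168)))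
(L (nat_lit 13918388)))
(L (nat_lit 11981570)))
(L (nat_lit 12439940)))
(S (nat_lit 42271) (S (nat_lit 49280) (L (nat_lit 3494300))
(L (nat_lit 27677025)))
(L (nat_lit 25531121)))))
(S (nat_lit 19768) (S (nat_lit 4652) (S (nat_lit 12908) (S (nat_lit 54395) (S (nat_lit 53867) (S (nat_lit 14876) (S (nat_lit 45849) (S (nat_lit 10286) (L (nat_lit 6110419))
(L (nat_lit 15651976)))
(L (nat_lit 23970857)))
(L (nat_lit 9618356)))
(L (nat_lit 2992530)))
(L (nat_lit 19109649)))
(L (nat_lit 16077570)))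
(S (nat_lit 42386) (L (nat_lit 2471733))
(L (nat_lit 2989462))))
(S (nat_lit 39532) (S (nat_lit 15848) (S (nat_lit 3686) (L (nat_lit 26607895))
(L (nat_lit 12439940)))
(S (nat_lit 35612) (S (nat_lit 12908) (S (nat_lit 3686) (S (nat_lit 57806) (L (nat_lit 255727))
(L (nat_lit 27382060)))
(L (nat_lit 1954182)))
(L (nat_lit 16634022)))
(S (nat_lit 55376) (S (nat_lit 29516) (S (nat_lit 23459) (L (nat_lit 29774179))
(L (nat_lit 11168879)))
(L (nat_lit 381337)))
(L (nat_lit 25902090)))))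
(L (nat_lit 25415138)))))
(L (nat_lit 25396727)))))
(L (nat_lit 25710916)))))
(L (nat_lit 25680040)))))
(S (nat_lit 44700) (S (nat_lit 6322) (S (nat_lit 6593) (S (nat_lit 3162) (S (nat_lit 4) (S (nat_lit 1265) (S (nat_lit 5181) (S (nat_lit 55869) (S (nat_lit 24428) (S (nat_lit 39536) (S (nat_lit 27620) (L (nat_lit 17074963))
(L (nat_lit 18965745)))
(L (nat_lit 11076432)))
(L (nat_lit 21148490)))
(L (nat_lit 21465930)))
(L (nat_lit 26466479)))
(S (nat_lit 21029) (S (nat_lit 3160) (S (nat_lit 21014) (S (nat_lit 42263) (L (nat_lit 2314065))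
(L (nat_lit 16534850)))
(L (nat_lit 16534754)))
(L (nat_lit 18965003)))
(S (nat_lit 40793) (S (nat_lit 5173) (S (nat_lit 18269) (L (nat_lit 19759559))
(L (nat_lit 26302702)))
(L (nat_lit 26523331)))
(L (nat_lit 25549873)))))
(S (nat_lit 19768) (S (nat_lit 402) (S (nat_lit 41299) (L (nat_lit 15410233))
(L (nat_lit 24919146)))
(S (nat_lit 21527) (S (nat_lit 22506) (S (nat_lit 41299) (S (nat_lit 40781) (S (nat_lit 47797) (S (nat_lit 52439) (S (nat_lit 55367) (L (nat_lit 19760465))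
(L (nat_lit 2928980)))
(L (nat_lit 15510675)))
(L (nat_lit 27349199)))
(L (nat_lit 10097520)))
(L (nat_lit 24919146)))
(S (nat_lit 27389) (L (nat_lit 12627797))
(L (nat_lit 22110544))))
(L (nat_lit 15445113))))
(S (nat_lit 39532) (S (nat_lit 6321) (S (nat_lit 22923) (S (nat_lit 39536) (S (nat_lit 50786) (L (nat_lit 638297))
(L (nat_lit 15011667)))
(L (nat_lit 11088709)))
(L (nat_lit 11629075)))
(S (nat_lit 26085) (S (nat_lit 16769) (S (nat_lit 44180) (L (nat_lit 30061675))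
(L (nat_lit 23379779)))
(L (nat_lit 15000228)))
(S (nat_lit 45849) (S (nat_lit 6326) (S (nat_lit 21017) (S (nat_lit 22931) (S (nat_lit 9241) (L (nat_lit 7131520))
(L (nat_lit 23862692)))
(L (nat_lit 12153251)))
(L (nat_lit 12046457)))
(S (nat_lit 15688) (L (nat_lit 13929147))
(L (nat_lit 9560812))))
(L (nat_lit 25676101)))))
(L (nat_lit 25396910)))))
(S (nat_lit 22926) (S (nat_lit 14342) (S (nat_lit 10537) (L (nat_lit 11620795))
(S (nat_lit 42687) (S (nat_lit 11258) (S (nat_lit 39265) (S (nat_lit 49805) (S (nat_lit 55367) (S (nat_lit 43208) (L (nat_lit 12258097))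
(L (nat_lit 23473306)))
(L (nat_lit 21284674)))
(L (nat_lit 15903571)))
(L (nat_lit 1536650)))
(L (nat_lit 21458986)))
(L (nat_lit 24581034))))
(S (nat_lit 34106) (S (nat_lit 7856) (S (nat_lit 42280) (S (nat_lit 5182) (L (nat_lit 3913640))
(L (nat_lit 9310928)))
(L (nat_lit 23868425)))
(S (nat_lit 27620) (S (nat_lit 5173) (S (nat_lit 43208) (S (nat_lit 55367) (L (nat_lit 23900516))
(L (nat_lit 19460450)))
(L (nat_lit 6713028)))
(S (nat_lit 24857) (L (nat_lit 20345125))
(L (nat_lit 19171803))))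
(S (nat_lit 47384) (S (nat_lit 24419) (S (nat_lit 55870) (S (nat_lit 21014) (L (nat_lit 21283004))
(L (nat_lit 12334166)))
(L (nat_lit 19743013)))
(L (nat_lit 17092761)))
(L (nat_lit 25856519)))))
(S (nat_lit 53870) (S (nat_lit 8) (S (nat_lit 26083) (S (nat_lit 39265) (L (nat_lit 20215236))
(L (nat_lit 13723923)))
(L (nat_lit 21272400)))
(S (nat_lit 19772) (S (nat_lit 42687) (S (nat_lit 49805) (S (nat_lit 55869) (L (nat_lit 30584529))
(L (nat_lit 16329540)))
(L (nat_lit 27963588)))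
(L (nat_lit 10044260)))
(S (nat_lit 39536) (S (nat_lit 2743) (S (nat_lit 43208) (L (nat_lit 17985224))
(L (nat_lit 8810180)))
(L (nat_lit 7221956)))
(L (nat_lit 25414180)))))
(L (nat_lit 25597298)))))
(S (nat_lit 42690) (S (nat_lit 10277) (S (nat_lit 43214) (S (nat_lit 26083) (S (nat_lit 2743) (S (nat_lit 22516) (S (nat_lit 5165) (S (nat_lit 41298) (S (nat_lit 19765) (S (nat_lit 14339) (S (nat_lit 39531) (S (nat_lit 24428) (S (nat_lit 27474) (S (nat_lit 6457) (S (nat_lit 10377) (S (nat_lit 16342) (S (nat_lit 52590) (S (nat_lit 28183) (S (nat_lit 54395) (S (nat_lit 45849) (S (nat_lit 8472) (D (nat_lit 16) (nat_lit 27732547) (nat_lit 1496842) (nat_lit 2343070342695649280))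
(L (nat_lit 3502580)))
(L (nat_lit 12947101)))
(L (nat_lit 21146170)))
(L (nat_lit 20483421)))
(L (nat_lit 26619584)))
(L (nat_lit 17096613)))
(L (nat_lit 14354809)))
(L (nat_lit 28708181)))
(L (nat_lit 12777128)))
(L (nat_lit 13806203)))
(L (nat_lit 17833629)))
(L (nat_lit 24293661)))
(L (nat_lit 10086447)))
(L (nat_lit 23935236)))
(L (nat_lit 19344260)))
(L (nat_lit 21400360)))
(L (nat_lit 8074116)))
(L (nat_lit 14231428)))
(L (nat_lit 23409540)))
(S (nat_lit 30041) (S (nat_lit 43223) (S (nat_lit 43214) (S (nat_lit 5165) (S (nat_lit 2743) (S (nat_lit 59029) (L (nat_lit 29008256))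
(L (nat_lit 15476292)))
(L (nat_lit 7058308)))
(L (nat_lit 19195268)))
(L (nat_lit 25045540)))
(L (nat_lit 23903460)))
(S (nat_lit 49805) (S (nat_lit 19772) (S (nat_lit 16341) (L (nat_lit 6802308))
(L (nat_lit 24438180)))
(L (nat_lit 10302180)))
(L (nat_lit 25348367)))))
(L (nat_lit 25692840)))))
(S (nat_lit 26357) (S (nat_lit 14339) (S (nat_lit 11671) (S (nat_lit 4) (S (nat_lit 24428) (S (nat_lit 35612) (S (nat_lit 52710) (L (nat_lit 3844635))
(L (nat_lit 19247259)))
(L (nat_lit 10158523)))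
(S (nat_lit 44138) (L (nat_lit 10138682))
(L (nat_lit 14440586))))
(S (nat_lit 19768) (S (nat_lit 32946) (L (nat_lit 3985802))
(L (nat_lit 23901319)))
(S (nat_lit 39532) (S (nat_lit 24431) (S (nat_lit 34640) (L (nat_lit 28740919))
(L (nat_lit 15487078)))
(L (nat_lit 21770410)))
(L (nat_lit 25211188)))))
(S (nat_lit 31435) (S (nat_lit 6319) (S (nat_lit 1256) (L (nat_lit 13553890))
(L (nat_lit 9262530)))
(L (nat_lit 20720816)))
(S (nat_lit 51199) (S (nat_lit 3686) (S (nat_lit 57806) (S (nat_lit 14342) (S (nat_lit 41291) (S (nat_lit 6319) (S (nat_lit 39536) (L (nat_lit 28724328))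
(L (nat_lit 5846859)))
(L (nat_lit 19369339)))
(L (nat_lit 27374280)))
(L (nat_lit 26565777)))
(L (nat_lit 15605381)))
(S (nat_lit 23450) (S (nat_lit 44693) (S (nat_lit 31013) (L (nat_lit 28418735))
(L (nat_lit 9914491)))
(L (nat_lit 12725015)))
(S (nat_lit 43214) (S (nat_lit 22507) (S (nat_lit 42280) (L (nat_lit 11654001))
(L (nat_lit 24619777)))
(L (nat_lit 4933480)))
(L (nat_lit 25496118)))))
(L (nat_lit 25745574)))))
(S (nat_lit 34103) (S (nat_lit 18278) (S (nat_lit 5182) (S (nat_lit 21534) (L (nat_lit 8803236))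
(L (nat_lit 16012068)))
(S (nat_lit 24946) (S (nat_lit 22506) (S (nat_lit 35603) (L (nat_lit 3846429))
(L (nat_lit 4761460)))
(L (nat_lit 10269413)))
(S (nat_lit 44710) (S (nat_lit 24431) (L (nat_lit 30060740))
(L (nat_lit 8565433)))
(L (nat_lit 25901190)))))
(S (nat_lit 38042) (S (nat_lit 19772) (L (nat_lit 11448932))
(L (nat_lit 10086949)))
(S (nat_lit 57806) (S (nat_lit 3167) (S (nat_lit 3162) (S (nat_lit 55869) (S (nat_lit 21527) (S (nat_lit 50786) (S (nat_lit 44693) (L (nat_lit 9914557))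
(L (nat_lit 5000585)))
(L (nat_lit 15304522)))
(L (nat_lit 15576771)))
(L (nat_lit 21760302)))
(L (nat_lit 14770824)))
(S (nat_lit 22931) (S (nat_lit 44693) (S (nat_lit 3686) (S (nat_lit 51199) (S (nat_lit 55869) (L (nat_lit 28935409))
(L (nat_lit 19308603)))
(L (nat_lit 27775115)))
(L (nat_lit 10110789)))
(L (nat_lit 14822231)))
(S (nat_lit 42695) (S (nat_lit 51199) (S (nat_lit 44693) (S (nat_lit 3686) (S (nat_lit 40778) (L (nat_lit 30127145))
(L (nat_lit 24491842)))
(L (nat_lit 20034376)))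
(L (nat_lit 4598615)))
(L (nat_lit 5099821)))
(L (nat_lit 25797091)))))
(L (nat_lit 25531980)))))
(S (nat_lit 53867) (S (nat_lit 3167) (S (nat_lit 11671) (S (nat_lit 44709) (S (nat_lit 38042) (L (nat_lit 8312261))
(L (nat_lit 3953033)))
(L (nat_lit 10196379)))
(S (nat_lit 31435) (S (nat_lit 22507) (S (nat_lit 32946) (L (nat_lit 3421949))
(L (nat_lit 9045805)))
(L (nat_lit 10276881)))
(S (nat_lit 51199) (S (nat_lit 27611) (S (nat_lit 53870) (S (nat_lit 32946) (S (nat_lit 1763) (S (nat_lit 22507) (L (nat_lit 30551724))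
(L (nat_lit 4650728)))
(L (nat_lit 12497635)))
(L (nat_lit 2470773)))
(L (nat_lit 19834929)))
(L (nat_lit 19765264)))
(L (nat_lit 25176466)))))
(S (nat_lit 22931) (S (nat_lit 4664) (S (nat_lit 5173) (L (nat_lit 17428618))
(L (nat_lit 19335483)))
(S (nat_lit 24428) (S (nat_lit 55869) (S (nat_lit 16769) (S (nat_lit 13183) (S (nat_lit 3162) (S (nat_lit 44693) (L (nat_lit 1527688))
(L (nat_lit 23381764)))
(L (nat_lit 17378116)))
(L (nat_lit 597531)))
(L (nat_lit 15476388)))
(L (nat_lit 16523381)))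
(S (nat_lit 44192) (S (nat_lit 5173) (L (nat_lit 23367097))
(L (nat_lit 308955)))
(L (nat_lit 25713857)))))
(S (nat_lit 42695) (S (nat_lit 17741) (S (nat_lit 3695) (S (nat_lit 35603) (L (nat_lit 11654555))
(L (nat_lit 5000682)))
(L (nat_lit 18954056)))
(S (nat_lit 37505) (S (nat_lit 24419) (S (nat_lit 19764) (S (nat_lit 33756) (L (nat_lit 5894570))
(L (nat_lit 28857569)))
(L (nat_lit 16380128)))
(L (nat_lit 17584321)))
(S (nat_lit 57269) (S (nat_lit 46565) (L (nat_lit 15470217))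
(S (nat_lit 47375) (S (nat_lit 57806) (S (nat_lit 16769) (S (nat_lit 57272) (L (nat_lit 3433201))
(L (nat_lit 12440995)))
(L (nat_lit 26694948)))
(L (nat_lit 14766921)))
(L (nat_lit 9531925))))
(L (nat_lit 25744609)))))
(L (nat_lit 25311977)))))
(L (nat_lit 25564498)))))
(S (nat_lit 46121) (S (nat_lit 8269) (S (nat_lit 3163) (S (nat_lit 9240) (S (nat_lit 42270) (S (nat_lit 18269) (S (nat_lit 41299) (S (nat_lit 21020) (S (nat_lit 11671) (S (nat_lit 21026) (S (nat_lit 1779) (L (nat_lit 1327955))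
(L (nat_lit 26794242)))
(L (nat_lit 21170587)))
(L (nat_lit 18632838)))
(L (nat_lit 5001703)))
(L (nat_lit 27807941)))
(L (nat_lit 26591813)))
(L (nat_lit 27644325)))
(S (nat_lit 40214) (S (nat_lit 26029) (L (nat_lit 26743399))
(L (nat_lit 10242160)))
(L (nat_lit 26884421))))
(S (nat_lit 22927) (S (nat_lit 12908) (S (nat_lit 6321) (S (nat_lit 55869) (S (nat_lit 14876) (L (nat_lit 18713224))
(L (nat_lit 12046397)))
(L (nat_lit 10312752)))
(L (nat_lit 5563827)))
(S (nat_lit 32672) (S (nat_lit 42271) (S (nat_lit 38042) (S (nat_lit 6321) (S (nat_lit 35612) (L (nat_lit 19014481))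
(L (nat_lit 5001643)))
(L (nat_lit 5563025)))
(L (nat_lit 2904366)))
(L (nat_lit 2904552)))
(S (nat_lit 52436) (S (nat_lit 21029) (S (nat_lit 21017) (L (nat_lit 23224689))
(L (nat_lit 12341632)))
(L (nat_lit 4709287)))
(L (nat_lit 25210508)))))
(S (nat_lit 42691) (S (nat_lit 5165) (S (nat_lit 42688) (S (nat_lit 24945) (L (nat_lit 30886987))
(L (nat_lit 21292177)))
(L (nat_lit 10406405)))
(S (nat_lit 24929) (S (nat_lit 1779) (S (nat_lit 42271) (S (nat_lit 42690) (S (nat_lit 16769) (L (nat_lit 22163675))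
(L (nat_lit 12321519)))
(L (nat_lit 23595912)))
(L (nat_lit 12305433)))
(S (nat_lit 31082) (L (nat_lit 12305465))
(L (nat_lit 12688307))))
(S (nat_lit 44693) (S (nat_lit 45854) (S (nat_lit 35612) (L (nat_lit 19198405))
(L (nat_lit 12742218)))
(S (nat_lit 55949) (S (nat_lit 35612) (L (nat_lit 22587416))
(L (nat_lit 12742218)))
(L (nat_lit 24415642))))
(L (nat_lit 25919943)))))
(L (nat_lit 25802758)))))
(S (nat_lit 28033) (S (nat_lit 15848) (S (nat_lit 24419) (S (nat_lit 44186) (S (nat_lit 45847) (S (nat_lit 4652) (S (nat_lit 15839) (L (nat_lit 1366525))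
(L (nat_lit 22320015)))
(L (nat_lit 20222862)))
(L (nat_lit 27576801)))
(L (nat_lit 24425656)))
(L (nat_lit 22329217)))
(L (nat_lit 22329216)))
(S (nat_lit 47797) (S (nat_lit 4658) (S (nat_lit 2742) (S (nat_lit 38042) (S (nat_lit 55376) (S (nat_lit 1771) (S (nat_lit 21534) (S (nat_lit 44180) (S (nat_lit 42263) (L (nat_lit 11648728))
(L (nat_lit 12339213)))
(L (nat_lit 11717452)))
(L (nat_lit 5821291)))
(L (nat_lit 26431535)))
(L (nat_lit 16568395)))
(L (nat_lit 16863545)))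
(L (nat_lit 20001670)))
(L (nat_lit 4510542)))
(L (nat_lit 25833664)))))
(L (nat_lit 25665092)))))
(S (nat_lit 26086) (S (nat_lit 3692) (S (nat_lit 17741) (S (nat_lit 2751) (S (nat_lit 1780) (S (nat_lit 19149) (L (nat_lit 8480433))
(S (nat_lit 31022) (S (nat_lit 51198) (L (nat_lit 8205363))
(L (nat_lit 4781674)))
(L (nat_lit 18998731))))
(S (nat_lit 21544) (S (nat_lit 3163) (S (nat_lit 32675) (S (nat_lit 3680) (S (nat_lit 21026) (L (nat_lit 14757562))
(L (nat_lit 1857809)))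
(L (nat_lit 14757596)))
(L (nat_lit 17586216)))
(L (nat_lit 19663057)))
(S (nat_lit 41308) (S (nat_lit 34631) (S (nat_lit 41298) (S (nat_lit 51199) (S (nat_lit 3163) (L (nat_lit 2866393))
(L (nat_lit 15475365)))
(L (nat_lit 8079107)))
(L (nat_lit 17526825)))
(L (nat_lit 8149105)))
(L (nat_lit 25745669)))))
(S (nat_lit 22515) (S (nat_lit 24419) (S (nat_lit 24428) (S (nat_lit 3163) (S (nat_lit 19768) (S (nat_lit 22506) (L (nat_lit 18212481))
(L (nat_lit 9294926)))
(L (nat_lit 21823759)))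
(L (nat_lit 20013606)))
(S (nat_lit 25805) (L (nat_lit 22279653))
(L (nat_lit 10399894))))
(S (nat_lit 31307) (L (nat_lit 15444025))
(L (nat_lit 22819979))))
(S (nat_lit 42279) (S (nat_lit 8373) (L (nat_lit 13952740))
(S (nat_lit 9240) (S (nat_lit 2756) (S (nat_lit 6560) (L (nat_lit 2825103))
(L (nat_lit 23140829)))
(S (nat_lit 59028) (S (nat_lit 28114) (L (nat_lit 27448742))
(L (nat_lit 22097437)))
(L (nat_lit 21171677))))
(L (nat_lit 14934038))))
(L (nat_lit 25526992)))))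
(S (nat_lit 37505) (S (nat_lit 0) (S (nat_lit 56297) (S (nat_lit 42695) (S (nat_lit 42687) (S (nat_lit 42691) (S (nat_lit 43345) (L (nat_lit 26292811))
(L (nat_lit 22507594)))
(L (nat_lit 27857100)))
(L (nat_lit 24671554)))
(L (nat_lit 10089517)))
(L (nat_lit 27647021)))
(S (nat_lit 19764) (S (nat_lit 22931) (S (nat_lit 36105) (S (nat_lit 19772) (L (nat_lit 23921066))
(L (nat_lit 2963179)))
(L (nat_lit 6809653)))
(L (nat_lit 12185645)))
(S (nat_lit 39528) (S (nat_lit 3167) (S (nat_lit 41307) (S (nat_lit 41298) (S (nat_lit 42691) (L (nat_lit 2662164))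
(L (nat_lit 27347148)))
(L (nat_lit 17526825)))
(L (nat_lit 17524777)))
(L (nat_lit 26845229)))
(L (nat_lit 25414668)))))
(S (nat_lit 57269) (S (nat_lit 8) (S (nat_lit 56297) (S (nat_lit 42687) (S (nat_lit 11670) (S (nat_lit 44709) (S (nat_lit 9240) (S (nat_lit 19768) (S (nat_lit 41298) (S (nat_lit 42270) (S (nat_lit 32946) (S (nat_lit 36105) (S (nat_lit 54221) (S (nat_lit 7995) (S (nat_lit 1262) (S (nat_lit 11397) (S (nat_lit 16772) (S (nat_lit 7856) (S (nat_lit 36106) (L (nat_lit 1796369))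
(L (nat_lit 30910582)))
(L (nat_lit 12841634)))
(S (nat_lit 36536) (S (nat_lit 40778) (S (nat_lit 22499) (L (nat_lit 2378233))
(L (nat_lit 12972770)))
(L (nat_lit 27765472)))
(L (nat_lit 25484397))))
(L (nat_lit 29692657)))
(L (nat_lit 10947351)))
(L (nat_lit 7426893)))
(L (nat_lit 11726290)))
(L (nat_lit 6910372)))
(L (nat_lit 15276220)))
(L (nat_lit 11980829)))
(L (nat_lit 24703019)))
(L (nat_lit 9241231)))
(L (nat_lit 14929944)))
(L (nat_lit 13363338)))
(L (nat_lit 26265258)))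
(L (nat_lit 10089988)))
(L (nat_lit 27647492)))
(S (nat_lit 19772) (S (nat_lit 22923) (S (nat_lit 36105) (S (nat_lit 19764) (S (nat_lit 19768) (S (nat_lit 44709) (S (nat_lit 22931) (S (nat_lit 22927) (S (nat_lit 29513) (S (nat_lit 32946) (S (nat_lit 4655) (S (nat_lit 21120) (S (nat_lit 22385) (S (nat_lit 10277) (S (nat_lit 32675) (S (nat_lit 36106) (L (nat_lit 3521458))
(L (nat_lit 30844982)))
(L (nat_lit 30658978)))
(S (nat_lit 30041) (S (nat_lit 31013) (S (nat_lit 42271) (S (nat_lit 1265) (L (nat_lit 2343858))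
(L (nat_lit 19742912)))
(L (nat_lit 13980481)))
(L (nat_lit 13989473)))
(L (nat_lit 25431541))))
(L (nat_lit 7760482)))
(L (nat_lit 307932)))
(L (nat_lit 20788363)))
(L (nat_lit 10106657)))
(L (nat_lit 24340621)))
(L (nat_lit 21066097)))
(L (nat_lit 21825839)))
(L (nat_lit 13363338)))
(L (nat_lit 21824968)))
(L (nat_lit 2962642)))
(L (nat_lit 6810244)))
(L (nat_lit 12186116)))
(S (nat_lit 39536) (S (nat_lit 3159) (S (nat_lit 41307) (S (nat_lit 41298) (S (nat_lit 56297) (S (nat_lit 22927) (S (nat_lit 42154) (S (nat_lit 55189) (S (nat_lit 42695) (S (nat_lit 32672) (S (nat_lit 19768) (S (nat_lit 6643) (S (nat_lit 57619) (S (nat_lit 36536) (S (nat_lit 22499) (S (nat_lit 51199) (L (nat_lit 1780249))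
(L (nat_lit 27764914)))
(L (nat_lit 12972770)))
(S (nat_lit 56300) (S (nat_lit 30041) (S (nat_lit 30050) (L (nat_lit 6104532))
(L (nat_lit 31110405)))
(L (nat_lit 31109381)))
(L (nat_lit 25636452))))
(L (nat_lit 15955682)))
(L (nat_lit 24942639)))
(L (nat_lit 21372029)))
(L (nat_lit 11256955)))
(L (nat_lit 9530806)))
(L (nat_lit 7992772)))
(L (nat_lit 26627396)))
(L (nat_lit 12741259)))
(L (nat_lit 27581956)))
(L (nat_lit 17527044)))
(L (nat_lit 17524996)))
(L (nat_lit 26845700)))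
(L (nat_lit 25217361)))))
(L (nat_lit 25681035)))))
(S (nat_lit 23456) (S (nat_lit 11258) (S (nat_lit 3680) (S (nat_lit 41291) (S (nat_lit 50777) (S (nat_lit 14342) (S (nat_lit 3695) (S (nat_lit 57797) (L (nat_lit 26384850))
(L (nat_lit 21095726)))
(L (nat_lit 12120183)))
(L (nat_lit 8500082)))
(L (nat_lit 27964458)))
(S (nat_lit 52319) (S (nat_lit 14342) (L (nat_lit 21172729))
(L (nat_lit 3560828)))
(L (nat_lit 18680518))))
(S (nat_lit 23444) (S (nat_lit 10075) (L (nat_lit 18204729))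
(S (nat_lit 29005) (S (nat_lit 23450) (S (nat_lit 12911) (S (nat_lit 3162) (L (nat_lit 2642760))
(L (nat_lit 19708100)))
(L (nat_lit 18698374)))
(L (nat_lit 18506052)))
(L (nat_lit 18698593))))
(S (nat_lit 43208) (S (nat_lit 21534) (S (nat_lit 56297) (S (nat_lit 3686) (S (nat_lit 9241) (S (nat_lit 36105) (L (nat_lit 30518675))
(L (nat_lit 20443428)))
(L (nat_lit 15506020)))
(L (nat_lit 15363300)))
(L (nat_lit 19344440)))
(L (nat_lit 21806340)))
(L (nat_lit 25821391)))))
(S (nat_lit 31022) (S (nat_lit 4655) (S (nat_lit 52710) (S (nat_lit 2751) (S (nat_lit 4) (S (nat_lit 51199) (L (nat_lit 1913482))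
(L (nat_lit 27840646)))
(L (nat_lit 19667022)))
(L (nat_lit 16865657)))
(L (nat_lit 4798278)))
(S (nat_lit 24419) (S (nat_lit 8) (S (nat_lit 32675) (S (nat_lit 42279) (L (nat_lit 28388789))
(L (nat_lit 24458331)))
(L (nat_lit 14421235)))
(S (nat_lit 19772) (S (nat_lit 21534) (S (nat_lit 22923) (L (nat_lit 9006128))
(L (nat_lit 22114762)))
(L (nat_lit 22915588)))
(S (nat_lit 39536) (S (nat_lit 21534) (S (nat_lit 56297) (S (nat_lit 24416) (L (nat_lit 19405881))
(L (nat_lit 717258)))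
(L (nat_lit 21362180)))
(L (nat_lit 21801476)))
(L (nat_lit 25578634)))))
(S (nat_lit 44183) (S (nat_lit 8) (S (nat_lit 48768) (S (nat_lit 24946) (S (nat_lit 0) (S (nat_lit 16193) (S (nat_lit 51199) (L (nat_lit 7395121))
(L (nat_lit 14970531)))
(L (nat_lit 12899077)))
(L (nat_lit 19129389)))
(L (nat_lit 21803179)))
(L (nat_lit 13850651)))
(S (nat_lit 19772) (S (nat_lit 21534) (S (nat_lit 49814) (S (nat_lit 46121) (S (nat_lit 47797) (S (nat_lit 905) (L (nat_lit 7859254))
(L (nat_lit 24537284)))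
(L (nat_lit 27571255)))
(L (nat_lit 27571780)))
(L (nat_lit 27964612)))
(L (nat_lit 22915588)))
(S (nat_lit 39536) (S (nat_lit 56297) (L (nat_lit 24636644))
(L (nat_lit 21362180)))
(L (nat_lit 25212651)))))
(L (nat_lit 25343595)))))
(S (nat_lit 50786) (S (nat_lit 4655) (S (nat_lit 52710) (S (nat_lit 4664) (S (nat_lit 4667) (S (nat_lit 41307) (L (nat_lit 9629206))
(L (nat_lit 18701508)))
(L (nat_lit 4862794)))
(L (nat_lit 20786657)))
(L (nat_lit 4798278)))
(S (nat_lit 24419) (S (nat_lit 21534) (S (nat_lit 3160) (S (nat_lit 42279) (S (nat_lit 26357) (L (nat_lit 30869099))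
(L (nat_lit 2897483)))
(L (nat_lit 11253571)))
(S (nat_lit 11662) (S (nat_lit 34106) (L (nat_lit 24675705))
(L (nat_lit 15619113)))
(L (nat_lit 14756474))))
(S (nat_lit 45964) (S (nat_lit 11745) (L (nat_lit 23855592))
(L (nat_lit 14440490)))
(L (nat_lit 21806121))))
(S (nat_lit 44183) (S (nat_lit 11670) (S (nat_lit 44186) (S (nat_lit 5181) (S (nat_lit 48769) (L (nat_lit 5093002))
(L (nat_lit 27921896)))
(L (nat_lit 1530762)))
(L (nat_lit 15341354)))
(S (nat_lit 31434) (S (nat_lit 9749) (S (nat_lit 10286) (S (nat_lit 21534) (S (nat_lit 59029) (S (nat_lit 14339) (S (nat_lit 4) (S (nat_lit 22924) (L (nat_lit 24393851))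
(L (nat_lit 926228)))
(L (nat_lit 20153819)))
(L (nat_lit 24393474)))
(L (nat_lit 13381252)))
(L (nat_lit 11067443)))
(L (nat_lit 14946941)))
(L (nat_lit 23931329)))
(S (nat_lit 51198) (S (nat_lit 57272) (S (nat_lit 1265) (L (nat_lit 14977658))
(L (nat_lit 12966720)))
(L (nat_lit 15633003)))
(L (nat_lit 25668193)))))
(L (nat_lit 25449550)))))
(L (nat_lit 25634933)))))
(S (nat_lit 43220) (S (nat_lit 4) (S (nat_lit 14867) (S (nat_lit 19586) (L (nat_lit 30029122))
(S (nat_lit 43208) (S (nat_lit 42280) (S (nat_lit 23459) (S (nat_lit 41291) (L (nat_lit 16901864))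
(L (nat_lit 28019208)))
(L (nat_lit 30497101)))
(L (nat_lit 24209832)))
(L (nat_lit 4607752))))
(S (nat_lit 34631) (S (nat_lit 21597) (L (nat_lit 22360123))
(S (nat_lit 41307) (S (nat_lit 21029) (S (nat_lit 36105) (S (nat_lit 21017) (L (nat_lit 8000369))
(L (nat_lit 15374459)))
(L (nat_lit 31008816)))
(L (nat_lit 16111673)))
(L (nat_lit 23861357))))
(S (nat_lit 54395) (S (nat_lit 41307) (S (nat_lit 47797) (S (nat_lit 29516) (S (nat_lit 21017) (L (nat_lit 16393340))
(L (nat_lit 21470018)))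
(L (nat_lit 7098381)))
(L (nat_lit 27645999)))
(L (nat_lit 23861762)))
(L (nat_lit 25664562)))))
(S (nat_lit 19768) (S (nat_lit 19501) (S (nat_lit 3162) (S (nat_lit 8) (S (nat_lit 5165) (L (nat_lit 5057230))
(L (nat_lit 10898308)))
(L (nat_lit 7752580)))
(S (nat_lit 22926) (S (nat_lit 38033) (S (nat_lit 19764) (L (nat_lit 10022966))
(L (nat_lit 21896237)))
(L (nat_lit 30792068)))
(S (nat_lit 42690) (S (nat_lit 1770) (S (nat_lit 36105) (S (nat_lit 42271) (L (nat_lit 5642937))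
(L (nat_lit 28034056)))
(L (nat_lit 30521928)))
(L (nat_lit 10403524)))
(L (nat_lit 25802920)))))
(S (nat_lit 39265) (S (nat_lit 1770) (S (nat_lit 22499) (S (nat_lit 36105) (L (nat_lit 28398861))
(L (nat_lit 12152944)))
(L (nat_lit 10186829)))
(S (nat_lit 27634) (L (nat_lit 1466246))
(L (nat_lit 10174372))))
(S (nat_lit 59029) (S (nat_lit 15848) (S (nat_lit 19767) (S (nat_lit 34106) (L (nat_lit 30804308))
(L (nat_lit 6688532)))
(L (nat_lit 2517299)))
(S (nat_lit 35612) (S (nat_lit 47797) (L (nat_lit 1464234))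
(L (nat_lit 20002570)))
(S (nat_lit 55376) (S (nat_lit 37508) (S (nat_lit 24937) (S (nat_lit 19500) (L (nat_lit 31140879))
(L (nat_lit 9852835)))
(L (nat_lit 30823715)))
(L (nat_lit 9997074)))
(L (nat_lit 25479247)))))
(L (nat_lit 25386000)))))
(S (nat_lit 39532) (S (nat_lit 6326) (S (nat_lit 13182) (S (nat_lit 34103) (S (nat_lit 49277) (S (nat_lit 4664) (S (nat_lit 36105) (S (nat_lit 19772) (S (nat_lit 51198) (S (nat_lit 21026) (S (nat_lit 24419) (S (nat_lit 22679) (S (nat_lit 53594) (S (nat_lit 42804) (S (nat_lit 23444) (S (nat_lit 1250) (S (nat_lit 7856) (S (nat_lit 24422) (L (nat_lit 5496349))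
(L (nat_lit 30844087)))
(L (nat_lit 13552930)))
(L (nat_lit 13487394)))
(S (nat_lit 43208) (S (nat_lit 4658) (S (nat_lit 44701) (L (nat_lit 5551832))
(L (nat_lit 28033251)))
(L (nat_lit 16634145)))
(L (nat_lit 25723158))))
(L (nat_lit 19705960)))
(L (nat_lit 20759591)))
(L (nat_lit 20749733)))
(L (nat_lit 6043211)))
(L (nat_lit 22177041)))
(L (nat_lit 5521085)))
(L (nat_lit 14739798)))
(L (nat_lit 20030254)))
(L (nat_lit 20778190)))
(L (nat_lit 1974805)))
(L (nat_lit 11712404)))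
(S (nat_lit 20151) (L (nat_lit 10174372))
(L (nat_lit 1431436))))
(S (nat_lit 26090) (S (nat_lit 5182) (S (nat_lit 34103) (S (nat_lit 40781) (S (nat_lit 29516) (S (nat_lit 24937) (S (nat_lit 24945) (S (nat_lit 12908) (S (nat_lit 44195) (L (nat_lit 15306008))
(L (nat_lit 27561614)))
(L (nat_lit 16592576)))
(L (nat_lit 30727553)))
(L (nat_lit 30725507)))
(L (nat_lit 18051093)))
(L (nat_lit 27933801)))
(L (nat_lit 4549360)))
(S (nat_lit 24946) (S (nat_lit 26083) (S (nat_lit 44701) (S (nat_lit 26082) (S (nat_lit 26085) (S (nat_lit 55367) (L (nat_lit 3647283))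
(L (nat_lit 13955712)))
(L (nat_lit 21555243)))
(L (nat_lit 5056079)))
(L (nat_lit 27986221)))
(L (nat_lit 4518388)))
(S (nat_lit 44710) (S (nat_lit 2659) (L (nat_lit 8122445))
(S (nat_lit 34103) (S (nat_lit 26082) (S (nat_lit 1780) (S (nat_lit 36105) (S (nat_lit 41307) (S (nat_lit 4658) (S (nat_lit 51198) (S (nat_lit 45847) (S (nat_lit 50777) (L (nat_lit 2341465))
(L (nat_lit 1919342)))
(L (nat_lit 14980697)))
(L (nat_lit 5162294)))
(L (nat_lit 8205987)))
(L (nat_lit 1918665)))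
(L (nat_lit 30908994)))
(L (nat_lit 20050442)))
(L (nat_lit 17698377)))
(L (nat_lit 23423153))))
(L (nat_lit 25924845)))))
(S (nat_lit 45854) (S (nat_lit 1770) (S (nat_lit 12908) (S (nat_lit 4664) (S (nat_lit 36105) (S (nat_lit 42687) (S (nat_lit 21026) (S (nat_lit 59028) (S (nat_lit 19764) (S (nat_lit 9171) (S (nat_lit 8900) (S (nat_lit 1256) (S (nat_lit 55367) (S (nat_lit 32947) (L (nat_lit 350650))
(L (nat_lit 16085570)))
(L (nat_lit 16020034)))
(S (nat_lit 40784) (S (nat_lit 50786) (S (nat_lit 14876) (L (nat_lit 10950296))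
(L (nat_lit 22880368)))
(L (nat_lit 27965546)))
(L (nat_lit 25541250))))
(L (nat_lit 8817589)))
(L (nat_lit 12023492)))
(L (nat_lit 2306652)))
(L (nat_lit 8996613)))
(L (nat_lit 15041145)))
(L (nat_lit 10336866)))
(L (nat_lit 18149493)))
(L (nat_lit 19198433)))
(S (nat_lit 35166) (S (nat_lit 27741) (L (nat_lit 5157239))
(L (nat_lit 21303052)))
(L (nat_lit 12389941))))
(L (nat_lit 20212228)))
(L (nat_lit 25773248)))))
(L (nat_lit 25795662)))))
(L (nat_lit 25287981)))))
(S (nat_lit 45850) (S (nat_lit 1770) (S (nat_lit 1256) (S (nat_lit 32675) (S (nat_lit 48769) (S (nat_lit 36533) (S (nat_lit 54404) (S (nat_lit 50786) (S (nat_lit 39529) (S (nat_lit 23456) (S (nat_lit 18269) (L (nat_lit 22386200))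
(L (nat_lit 868596)))
(L (nat_lit 13263910)))
(L (nat_lit 11382836)))
(L (nat_lit 13232171)))
(L (nat_lit 9228400)))
(L (nat_lit 13511730)))
(L (nat_lit 14602249)))
(L (nat_lit 13881401)))
(S (nat_lit 21020) (S (nat_lit 14339) (S (nat_lit 4) (S (nat_lit 36533) (S (nat_lit 51198) (S (nat_lit 31022) (S (nat_lit 22927) (S (nat_lit 5181) (S (nat_lit 23456) (S (nat_lit 29004) (S (nat_lit 9241) (L (nat_lit 7258162))
(L (nat_lit 15505001)))
(L (nat_lit 31071717)))
(L (nat_lit 31070221)))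
(L (nat_lit 750831)))
(L (nat_lit 12085893)))
(L (nat_lit 31107116)))
(L (nat_lit 14943931)))
(S (nat_lit 40407) (S (nat_lit 16341) (L (nat_lit 10535675))
(L (nat_lit 11002434)))
(L (nat_lit 20786692))))
(S (nat_lit 13777) (L (nat_lit 800486))
(L (nat_lit 19673161))))
(S (nat_lit 34103) (S (nat_lit 16772) (S (nat_lit 3695) (S (nat_lit 0) (S (nat_lit 3680) (L (nat_lit 20781105))
(L (nat_lit 10339012)))
(L (nat_lit 411865)))
(L (nat_lit 12402340)))
(S (nat_lit 36536) (S (nat_lit 2751) (S (nat_lit 26357) (S (nat_lit 9240) (L (nat_lit 26300624))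
(L (nat_lit 23860646)))
(L (nat_lit 2413017)))
(L (nat_lit 17105625)))
(S (nat_lit 56300) (S (nat_lit 2752) (S (nat_lit 13183) (L (nat_lit 2021580))
(L (nat_lit 13784968)))
(L (nat_lit 19838276)))
(L (nat_lit 25550372)))))
(S (nat_lit 53867) (S (nat_lit 37505) (S (nat_lit 24419) (S (nat_lit 51198) (L (nat_lit 739242))
(L (nat_lit 9957025)))
(L (nat_lit 13948057)))
(S (nat_lit 38315) (S (nat_lit 16341) (L (nat_lit 26912881))
(L (nat_lit 24551481)))
(L (nat_lit 9530094))))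
(L (nat_lit 25595559)))))
(S (nat_lit 40784) (S (nat_lit 14876) (S (nat_lit 8269) (S (nat_lit 1771) (S (nat_lit 16341) (S (nat_lit 23456) (S (nat_lit 4652) (L (nat_lit 12138556))
(L (nat_lit 26524727)))
(L (nat_lit 21937190)))
(L (nat_lit 11450423)))
(L (nat_lit 12111931)))
(L (nat_lit 11948090)))
(L (nat_lit 12439601)))
(L (nat_lit 25635894)))))
(S (nat_lit 21534) (S (nat_lit 14876) (S (nat_lit 1771) (S (nat_lit 12911) (S (nat_lit 6321) (S (nat_lit 40784) (S (nat_lit 41291) (S (nat_lit 3692) (L (nat_lit 15648809))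
(L (nat_lit 19772456)))
(L (nat_lit 27838502)))
(L (nat_lit 27957296)))
(L (nat_lit 10239026)))
(L (nat_lit 10344494)))
(L (nat_lit 12079162)))
(S (nat_lit 34640) (S (nat_lit 28033) (S (nat_lit 3692) (S (nat_lit 21020) (S (nat_lit 16341) (S (nat_lit 41299) (S (nat_lit 31022) (L (nat_lit 13230123))
(L (nat_lit 17476665)))
(L (nat_lit 27840551)))
(L (nat_lit 22984746)))
(L (nat_lit 21356592)))
(L (nat_lit 20181039)))
(L (nat_lit 16109624)))
(S (nat_lit 54404) (S (nat_lit 21535) (S (nat_lit 8269) (S (nat_lit 32675) (S (nat_lit 35612) (S (nat_lit 31434) (S (nat_lit 1256) (S (nat_lit 45849) (S (nat_lit 3692) (S (nat_lit 31435) (S (nat_lit 48769) (S (nat_lit 36533) (L (nat_lit 28951593))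
(L (nat_lit 18689074)))
(L (nat_lit 10605329)))
(L (nat_lit 6869795)))
(L (nat_lit 10304567)))
(L (nat_lit 27573298)))
(L (nat_lit 13488167)))
(L (nat_lit 6869793)))
(L (nat_lit 4772651)))
(L (nat_lit 30855206)))
(L (nat_lit 10276911)))
(L (nat_lit 8179759)))
(L (nat_lit 25665588)))))
(S (nat_lit 41298) (S (nat_lit 5165) (S (nat_lit 14339) (S (nat_lit 16769) (S (nat_lit 42690) (S (nat_lit 11670) (S (nat_lit 19501) (L (nat_lit 28591717))
(L (nat_lit 22300548)))
(L (nat_lit 26945984)))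
(L (nat_lit 13912964)))
(S (nat_lit 36533) (S (nat_lit 9241) (S (nat_lit 38042) (S (nat_lit 4) (L (nat_lit 2760527))
(L (nat_lit 19674402)))
(L (nat_lit 20719044)))
(S (nat_lit 39322) (S (nat_lit 27631) (L (nat_lit 15835925))
(L (nat_lit 17505156)))
(L (nat_lit 26761572))))
(S (nat_lit 56297) (S (nat_lit 6321) (S (nat_lit 42690) (L (nat_lit 21081629))
(L (nat_lit 23358852)))
(L (nat_lit 12051507)))
(L (nat_lit 25542676)))))
(S (nat_lit 34103) (S (nat_lit 3695) (S (nat_lit 56300) (S (nat_lit 57797) (S (nat_lit 3680) (S (nat_lit 16341) (L (nat_lit 19443521))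
(L (nat_lit 17077141)))
(L (nat_lit 14929796)))
(L (nat_lit 19427620)))
(L (nat_lit 19363140)))
(S (nat_lit 23459) (S (nat_lit 20396) (L (nat_lit 11588155))
(S (nat_lit 42271) (S (nat_lit 16341) (S (nat_lit 31022) (S (nat_lit 23450) (L (nat_lit 21050154))
(L (nat_lit 8308388)))
(L (nat_lit 19293227)))
(L (nat_lit 11002436)))
(L (nat_lit 349625))))
(S (nat_lit 43223) (S (nat_lit 30050) (S (nat_lit 2752) (L (nat_lit 17158916))
(L (nat_lit 26728772)))
(L (nat_lit 30553768)))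
(L (nat_lit 25859622)))))
(S (nat_lit 53867) (S (nat_lit 11258) (S (nat_lit 23450) (S (nat_lit 24946) (L (nat_lit 415624))
(L (nat_lit 11953890)))
(L (nat_lit 12703656)))
(S (nat_lit 31022) (S (nat_lit 45849) (S (nat_lit 23363) (L (nat_lit 535257))
(L (nat_lit 11956932)))
(L (nat_lit 24243441)))
(S (nat_lit 50786) (S (nat_lit 48768) (S (nat_lit 56300) (S (nat_lit 47375) (L (nat_lit 28791882))
(L (nat_lit 17008467)))
(L (nat_lit 27733700)))
(L (nat_lit 27378342)))
(L (nat_lit 25628331)))))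
(L (nat_lit 25278119)))))
(S (nat_lit 24929) (S (nat_lit 17744) (S (nat_lit 5193) (L (nat_lit 317233))
(S (nat_lit 32675) (S (nat_lit 47797) (S (nat_lit 3167) (S (nat_lit 22499) (L (nat_lit 6845123))
(L (nat_lit 18608482)))
(L (nat_lit 17566439)))
(L (nat_lit 27578414)))
(L (nat_lit 14438440))))
(S (nat_lit 37508) (S (nat_lit 1265) (S (nat_lit 5182) (S (nat_lit 26357) (L (nat_lit 15429828))
(L (nat_lit 30888196)))
(L (nat_lit 11212187)))
(S (nat_lit 21029) (S (nat_lit 21543) (S (nat_lit 22499) (L (nat_lit 8566489))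
(L (nat_lit 31167821)))
(L (nat_lit 31146025)))
(S (nat_lit 40793) (S (nat_lit 42688) (S (nat_lit 29516) (S (nat_lit 15839) (S (nat_lit 16341) (S (nat_lit 9240) (L (nat_lit 21393482))
(L (nat_lit 3691398)))
(L (nat_lit 24361892)))
(L (nat_lit 17525771)))
(L (nat_lit 31172621)))
(L (nat_lit 7946393)))
(L (nat_lit 25856455)))))
(S (nat_lit 57272) (S (nat_lit 17741) (S (nat_lit 59028) (S (nat_lit 2752) (L (nat_lit 771323))
(L (nat_lit 26296009)))
(L (nat_lit 19664267)))
(S (nat_lit 37505) (S (nat_lit 16342) (S (nat_lit 50777) (S (nat_lit 2752) (L (nat_lit 9125765))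
(L (nat_lit 6373268)))
(L (nat_lit 27745323)))
(L (nat_lit 14931845)))
(S (nat_lit 57269) (S (nat_lit 39529) (S (nat_lit 3686) (L (nat_lit 19120005))
(L (nat_lit 11955844)))
(L (nat_lit 24549433)))
(L (nat_lit 25321003)))))
(L (nat_lit 25746721)))))
(S (nat_lit 44693) (S (nat_lit 1250) (S (nat_lit 11671) (S (nat_lit 24422) (S (nat_lit 36533) (S (nat_lit 6593) (L (nat_lit 8803233))
(L (nat_lit 23376709)))
(L (nat_lit 13512357)))
(L (nat_lit 10244515)))
(S (nat_lit 31435) (S (nat_lit 29513) (L (nat_lit 5724408))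
(L (nat_lit 11948865)))
(S (nat_lit 51199) (S (nat_lit 55376) (S (nat_lit 3695) (L (nat_lit 14822045))
(L (nat_lit 10313092)))
(L (nat_lit 2511691)))
(L (nat_lit 25897347)))))
(S (nat_lit 21014) (S (nat_lit 6321) (S (nat_lit 47384) (S (nat_lit 8) (S (nat_lit 16772) (L (nat_lit 11955908))
(L (nat_lit 15476421)))
(L (nat_lit 13387915)))
(L (nat_lit 10241107)))
(S (nat_lit 26085) (S (nat_lit 45847) (S (nat_lit 16341) (L (nat_lit 16330497))
(L (nat_lit 26716213)))
(L (nat_lit 24022317)))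
(S (nat_lit 45849) (S (nat_lit 59029) (S (nat_lit 29005) (L (nat_lit 21270321))
(L (nat_lit 12702505)))
(L (nat_lit 15273735)))
(L (nat_lit 25675819)))))
(S (nat_lit 40778) (S (nat_lit 10286) (S (nat_lit 19767) (S (nat_lit 7856) (S (nat_lit 32947) (S (nat_lit 6319) (S (nat_lit 42695) (S (nat_lit 39528) (L (nat_lit 29561484))
(L (nat_lit 27282823)))
(L (nat_lit 27806823)))
(L (nat_lit 10276013)))
(L (nat_lit 3487389)))
(L (nat_lit 23993858)))
(S (nat_lit 21144) (L (nat_lit 12734283))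
(L (nat_lit 10309088))))
(S (nat_lit 16928) (L (nat_lit 14904964))
(L (nat_lit 23229711))))
(L (nat_lit 25316905)))))
(L (nat_lit 25316745)))))
(L (nat_lit 25723091)))))
(L (nat_lit 25348432)))))
(L (nat_lit 25922954)))))

theorem rb75_4 : run 4 lb75 [] tb75_4 kb75 (P4 4 2216 2760 1253 2760 1 0 0 0) [] = true := by
  decide +kernel

noncomputable def tb246_0_23 : Tr :=
(S (nat_lit 48323) (S (nat_lit 17538) (S (nat_lit 42) (S (nat_lit 1986) (S (nat_lit 1776) (S (nat_lit 1014) (S (nat_lit 35168) (L (nat_lit 10104953))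
(S (nat_lit 37274) (S (nat_lit 48290) (L (nat_lit 10110884))
(L (nat_lit 13864698)))
(L (nat_lit 14506244))))
(S (nat_lit 16909) (S (nat_lit 1554) (L (nat_lit 12171448))
(L (nat_lit 10501011)))
(L (nat_lit 12758963))))
(S (nat_lit 21540) (S (nat_lit 10949) (S (nat_lit 37324) (L (nat_lit 1468627))
(L (nat_lit 14452947)))
(S (nat_lit 30713) (S (nat_lit 17496) (S (nat_lit 48338) (S (nat_lit 35087) (S (nat_lit 54862) (L (nat_lit 28364013))
(L (nat_lit 27726195)))
(L (nat_lit 2311956)))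
(L (nat_lit 14484821)))
(L (nat_lit 7898873)))
(S (nat_lit 50477) (S (nat_lit 1014) (S (nat_lit 1257) (S (nat_lit 15351) (L (nat_lit 4472725))
(L (nat_lit 565913)))
(L (nat_lit 13790451)))
(L (nat_lit 8568755)))
(L (nat_lit 25215562)))))
(S (nat_lit 41304) (S (nat_lit 2019) (S (nat_lit 1014) (S (nat_lit 35073) (S (nat_lit 35115) (S (nat_lit 997) (S (nat_lit 8748) (L (nat_lit 739211))
(L (nat_lit 17433849)))
(L (nat_lit 20018479)))
(L (nat_lit 12847989)))
(L (nat_lit 30607022)))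
(L (nat_lit 14494770)))
(S (nat_lit 21783) (S (nat_lit 54868) (S (nat_lit 20979) (L (nat_lit 376723))
(L (nat_lit 6711475)))
(L (nat_lit 14555251)))
(S (nat_lit 41547) (S (nat_lit 54862) (S (nat_lit 50494) (L (nat_lit 26968397))
(L (nat_lit 27376914)))
(L (nat_lit 27507891)))
(L (nat_lit 25729075)))))
(L (nat_lit 25384973)))))
(S (nat_lit 21750) (S (nat_lit 8790) (S (nat_lit 17527) (S (nat_lit 8823) (S (nat_lit 10960) (S (nat_lit 20993) (L (nat_lit 4537976))
(L (nat_lit 7159456)))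
(L (nat_lit 7362480)))
(S (nat_lit 39293) (L (nat_lit 1359735))
(L (nat_lit 6788697))))
(S (nat_lit 37291) (S (nat_lit 25) (S (nat_lit 10593) (L (nat_lit 7822492))
(S (nat_lit 20767) (S (nat_lit 50463) (S (nat_lit 8823) (S (nat_lit 17496) (L (nat_lit 6077750))
(L (nat_lit 802007)))
(L (nat_lit 8279425)))
(L (nat_lit 12606375)))
(L (nat_lit 969070))))
(S (nat_lit 19789) (S (nat_lit 48338) (S (nat_lit 57086) (S (nat_lit 1958) (S (nat_lit 1991) (S (nat_lit 39575) (S (nat_lit 17571) (S (nat_lit 39542) (S (nat_lit 39590) (S (nat_lit 2006) (S (nat_lit 21783) (S (nat_lit 30746) (S (nat_lit 10999) (S (nat_lit 8823) (S (nat_lit 37324) (S (nat_lit 19795) (S (nat_lit 10960) (S (nat_lit 21708) (S (nat_lit 41497) (S (nat_lit 50505) (S (nat_lit 51642) (S (nat_lit 21850) (S (nat_lit 52128) (L (nat_lit 1422013))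
(L (nat_lit 26980644)))
(L (nat_lit 26980612)))
(S (nat_lit 54862) (S (nat_lit 40542) (S (nat_lit 20750) (S (nat_lit 15356) (S (nat_lit 35148) (S (nat_lit 1003) (S (nat_lit 997) (S (nat_lit 40500) (S (nat_lit 2409) (S (nat_lit 39331) (S (nat_lit 6476) (S (nat_lit 28637) (S (nat_lit 48271) (S (nat_lit 33803) (S (nat_lit 38956) (S (nat_lit 9439) (S (nat_lit 58154) (D (nat_lit 11) (nat_lit 28913092) (nat_lit 8145008) (nat_lit 279314440322))
(L (nat_lit 22884544)))
(L (nat_lit 29967681)))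
(S (nat_lit 53844) (S (nat_lit 9635) (S (nat_lit 49665) (D (nat_lit 15) (nat_lit 27765476) (nat_lit 14993432) (nat_lit 35535457346))
(L (nat_lit 29744672)))
(L (nat_lit 27966821)))
(L (nat_lit 30024197))))
(L (nat_lit 2542375)))
(L (nat_lit 12948274)))
(L (nat_lit 13945636)))
(L (nat_lit 29046918)))
(L (nat_lit 21504184)))
(S (nat_lit 12065) (S (nat_lit 37001) (S (nat_lit 12032) (S (nat_lit 41243) (S (nat_lit 36962) (S (nat_lit 6946) (S (nat_lit 18383) (S (nat_lit 23111) (D (nat_lit 15) (nat_lit 27857387) (nat_lit 25761037) (nat_lit 207403293922))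
(L (nat_lit 27744544)))
(L (nat_lit 27933029)))
(S (nat_lit 19302) (S (nat_lit 57151) (S (nat_lit 38470) (D (nat_lit 15) (nat_lit 31107458) (nat_lit 18623043) (nat_lit 210729175110))
(L (nat_lit 27663969)))
(L (nat_lit 22952160)))
(L (nat_lit 28684343))))
(L (nat_lit 14996322)))
(L (nat_lit 24034625)))
(L (nat_lit 6310830)))
(L (nat_lit 15365408)))
(S (nat_lit 37343) (S (nat_lit 52601) (S (nat_lit 3397) (S (nat_lit 9942) (S (nat_lit 50060) (S (nat_lit 43742) (S (nat_lit 10068) (S (nat_lit 11563) (S (nat_lit 55000) (D (nat_lit 15) (nat_lit 28974532) (nat_lit 11717389) (nat_lit 104227407936))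
(L (nat_lit 24033504)))
(L (nat_lit 27968865)))
(S (nat_lit 25025) (S (nat_lit 24992) (S (nat_lit 8420) (D (nat_lit 13) (nat_lit 26976396) (nat_lit 19116803) (nat_lit 2284951781))
(L (nat_lit 28844211)))
(L (nat_lit 28983463)))
(L (nat_lit 4924857))))
(L (nat_lit 28318284)))
(L (nat_lit 21458086)))
(L (nat_lit 30050608)))
(L (nat_lit 15856294)))
(L (nat_lit 16013188)))
(L (nat_lit 12453614)))))
(L (nat_lit 10340738)))
(L (nat_lit 19297568)))
(L (nat_lit 19771744)))
(L (nat_lit 31012128)))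
(L (nat_lit 7163917)))
(L (nat_lit 21839043)))
(L (nat_lit 27933922)))
(L (nat_lit 13854902))))
(L (nat_lit 12372145)))
(L (nat_lit 435029)))
(L (nat_lit 21836131)))
(L (nat_lit 21539994)))
(L (nat_lit 2372532)))
(L (nat_lit 31007757)))
(L (nat_lit 26546580)))
(L (nat_lit 26591250)))
(L (nat_lit 14603460)))
(L (nat_lit 11393475)))
(L (nat_lit 26429954)))
(L (nat_lit 24976933)))
(L (nat_lit 27888075)))
(L (nat_lit 26546895)))
(L (nat_lit 27543141)))
(L (nat_lit 13300066)))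
(L (nat_lit 26628418)))
(L (nat_lit 13245594)))
(L (nat_lit 16109752)))
(S (nat_lit 39553) (S (nat_lit 20750) (S (nat_lit 21512) (L (nat_lit 22147440))
(L (nat_lit 22824070)))
(S (nat_lit 40192) (L (nat_lit 12172193))
(L (nat_lit 16329913))))
(L (nat_lit 25419266)))))
(S (nat_lit 57055) (S (nat_lit 15309) (S (nat_lit 20750) (S (nat_lit 972) (L (nat_lit 8472252))
(L (nat_lit 12870244)))
(L (nat_lit 604537)))
(S (nat_lit 35073) (S (nat_lit 54868) (S (nat_lit 37324) (S (nat_lit 30746) (L (nat_lit 3458776))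
(L (nat_lit 8502099)))
(L (nat_lit 20390936)))
(L (nat_lit 27892812)))
(S (nat_lit 54837) (S (nat_lit 20750) (S (nat_lit 35135) (L (nat_lit 2414413))
(L (nat_lit 20813965)))
(L (nat_lit 16357401)))
(L (nat_lit 25855214)))))
(L (nat_lit 25794978)))))
(S (nat_lit 28554) (S (nat_lit 986) (S (nat_lit 1246) (L (nat_lit 17683811))
(L (nat_lit 19738977)))
(S (nat_lit 20750) (S (nat_lit 19973) (L (nat_lit 4798777))
(S (nat_lit 20783) (S (nat_lit 8823) (S (nat_lit 1290) (L (nat_lit 15461697))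
(L (nat_lit 3712664)))
(S (nat_lit 45524) (L (nat_lit 17978744))
(L (nat_lit 503384))))
(L (nat_lit 6983067))))
(S (nat_lit 40514) (S (nat_lit 21043) (L (nat_lit 28589633))
(L (nat_lit 12435041)))
(L (nat_lit 25592023)))))
(S (nat_lit 48318) (S (nat_lit 1277) (S (nat_lit 35115) (L (nat_lit 29449703))
(L (nat_lit 13392225)))
(S (nat_lit 21041) (S (nat_lit 15384) (L (nat_lit 2768743))
(L (nat_lit 14855029)))
(S (nat_lit 40805) (S (nat_lit 8823) (S (nat_lit 15356) (L (nat_lit 17671318))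
(L (nat_lit 7435730)))
(S (nat_lit 9714) (L (nat_lit 23215975))
(L (nat_lit 7796449))))
(L (nat_lit 25240304)))))
(L (nat_lit 25921959)))))
(S (nat_lit 41514) (S (nat_lit 17560) (S (nat_lit 10977) (S (nat_lit 20778) (S (nat_lit 21021) (L (nat_lit 1391475))
(L (nat_lit 7262284)))
(L (nat_lit 802035)))
(S (nat_lit 30741) (S (nat_lit 10115) (L (nat_lit 7071885))
(S (nat_lit 30699) (S (nat_lit 64) (S (nat_lit 41472) (S (nat_lit 41503) (S (nat_lit 41486) (S (nat_lit 14) (S (nat_lit 41534) (S (nat_lit 48340) (S (nat_lit 48338) (S (nat_lit 10382) (S (nat_lit 38603) (L (nat_lit 3490522))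
(L (nat_lit 26849538)))
(S (nat_lit 26076) (L (nat_lit 13804285))
(L (nat_lit 29821171))))
(L (nat_lit 14485162)))
(L (nat_lit 14321916)))
(L (nat_lit 7050810)))
(L (nat_lit 19087204)))
(L (nat_lit 18141984)))
(L (nat_lit 18517799)))
(L (nat_lit 6714547)))
(L (nat_lit 7224341)))
(L (nat_lit 25040911))))
(S (nat_lit 50505) (S (nat_lit 7637) (L (nat_lit 18679123))
(S (nat_lit 20811) (S (nat_lit 41472) (S (nat_lit 21529) (L (nat_lit 29787508))
(L (nat_lit 22134136)))
(L (nat_lit 6688627)))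
(L (nat_lit 7127219))))
(L (nat_lit 25272790)))))
(S (nat_lit 37324) (S (nat_lit 1229) (S (nat_lit 21843) (L (nat_lit 27526611))
(S (nat_lit 41472) (S (nat_lit 37291) (S (nat_lit 48351) (L (nat_lit 31044960))
(L (nat_lit 27901217)))
(L (nat_lit 8815539)))
(L (nat_lit 7181901))))
(S (nat_lit 20993) (S (nat_lit 21611) (L (nat_lit 2800954))
(S (nat_lit 41293) (S (nat_lit 8790) (S (nat_lit 20750) (S (nat_lit 41547) (L (nat_lit 23346363))
(L (nat_lit 7078572)))
(L (nat_lit 31045799)))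
(L (nat_lit 6417006)))
(L (nat_lit 6340217))))
(S (nat_lit 40757) (S (nat_lit 20811) (S (nat_lit 54868) (S (nat_lit 41243) (L (nat_lit 24604839))
(L (nat_lit 23964099)))
(L (nat_lit 13736755)))
(L (nat_lit 892371)))
(L (nat_lit 25565826)))))
(S (nat_lit 57088) (S (nat_lit 1969) (S (nat_lit 1726) (L (nat_lit 4436915))
(L (nat_lit 11951013)))
(S (nat_lit 21733) (S (nat_lit 15373) (S (nat_lit 20979) (L (nat_lit 12912403))
(L (nat_lit 6746291)))
(L (nat_lit 26812428)))
(S (nat_lit 41497) (S (nat_lit 17416) (L (nat_lit 7082668))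
(S (nat_lit 20811) (S (nat_lit 30746) (S (nat_lit 41472) (S (nat_lit 21722) (L (nat_lit 31002863))
(L (nat_lit 1987014)))
(L (nat_lit 8818611)))
(L (nat_lit 13749465)))
(L (nat_lit 21800388))))
(L (nat_lit 25772292)))))
(L (nat_lit 25769000)))))
(L (nat_lit 25508549)))))
(S (nat_lit 19806) (S (nat_lit 17543) (S (nat_lit 1277) (S (nat_lit 3489) (S (nat_lit 24056) (L (nat_lit 3580664))
(L (nat_lit 15819990)))
(S (nat_lit 19811) (S (nat_lit 972) (S (nat_lit 30774) (S (nat_lit 41243) (S (nat_lit 37322) (S (nat_lit 30763) (S (nat_lit 35087) (S (nat_lit 48307) (S (nat_lit 41229) (S (nat_lit 41254) (S (nat_lit 37324) (S (nat_lit 28526) (S (nat_lit 20778) (S (nat_lit 19795) (S (nat_lit 43258) (S (nat_lit 50463) (S (nat_lit 25293) (S (nat_lit 5809) (S (nat_lit 21527) (S (nat_lit 39603) (S (nat_lit 4017) (S (nat_lit 4746) (S (nat_lit 13051) (S (nat_lit 49609) (D (nat_lit 15) (nat_lit 30885928) (nat_lit 25759053) (nat_lit 109522817159))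
(L (nat_lit 28913703)))
(L (nat_lit 30788068)))
(S (nat_lit 57682) (S (nat_lit 9126) (S (nat_lit 31617) (D (nat_lit 15) (nat_lit 27842599) (nat_lit 25759112) (nat_lit 206263491809))
(L (nat_lit 9343631)))
(L (nat_lit 28938694)))
(L (nat_lit 14330905))))
(L (nat_lit 12755609)))
(L (nat_lit 12293933)))
(L (nat_lit 30951462)))
(L (nat_lit 30098785)))
(L (nat_lit 18441354)))
(L (nat_lit 13333728)))
(L (nat_lit 19183804)))
(L (nat_lit 21050680)))
(L (nat_lit 7247596)))
(L (nat_lit 30657061)))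
(L (nat_lit 17604659)))
(L (nat_lit 27337422)))
(L (nat_lit 24196969)))
(L (nat_lit 13895474)))
(L (nat_lit 2810410)))
(L (nat_lit 3847416)))
(L (nat_lit 9062245)))
(L (nat_lit 27344119)))
(L (nat_lit 17681511)))
(S (nat_lit 28115) (L (nat_lit 16021125))
(L (nat_lit 8467065))))
(L (nat_lit 22504458))))
(S (nat_lit 21041) (S (nat_lit 2019) (S (nat_lit 28526) (S (nat_lit 21527) (L (nat_lit 6386131))
(L (nat_lit 16486617)))
(L (nat_lit 2351509)))
(S (nat_lit 21783) (S (nat_lit 20800) (S (nat_lit 64) (L (nat_lit 14772906))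
(L (nat_lit 1796303)))
(L (nat_lit 22844838)))
(S (nat_lit 41547) (S (nat_lit 19795) (S (nat_lit 21043) (S (nat_lit 21479) (S (nat_lit 41534) (S (nat_lit 8812) (S (nat_lit 21490) (S (nat_lit 40768) (S (nat_lit 40757) (S (nat_lit 25768) (S (nat_lit 23301) (S (nat_lit 54884) (S (nat_lit 10977) (S (nat_lit 3520) (S (nat_lit 57049) (S (nat_lit 39603) (S (nat_lit 39592) (S (nat_lit 6306) (S (nat_lit 45721) (S (nat_lit 48891) (S (nat_lit 31617) (D (nat_lit 15) (nat_lit 29446599) (nat_lit 19664140) (nat_lit 69797481573))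
(L (nat_lit 9343631)))
(L (nat_lit 28915040)))
(S (nat_lit 48648) (S (nat_lit 15955) (S (nat_lit 39175) (D (nat_lit 15) (nat_lit 27840680) (nat_lit 25759146) (nat_lit 206264541442))
(L (nat_lit 10406340)))
(L (nat_lit 28915009)))
(L (nat_lit 28456244))))
(L (nat_lit 23534713)))
(L (nat_lit 23433071)))
(L (nat_lit 23455821)))
(L (nat_lit 19830216)))
(L (nat_lit 18699524)))
(L (nat_lit 26757255)))
(L (nat_lit 14258394)))
(L (nat_lit 24440942)))
(L (nat_lit 19194405)))
(L (nat_lit 348634)))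
(L (nat_lit 24469518)))
(L (nat_lit 30840884)))
(L (nat_lit 7232524)))
(L (nat_lit 27347494)))
(L (nat_lit 22948321)))
(L (nat_lit 14752344)))
(L (nat_lit 14772533)))
(L (nat_lit 25183474)))))
(S (nat_lit 40805) (S (nat_lit 18930) (S (nat_lit 40564) (L (nat_lit 8077156))
(L (nat_lit 24681381)))
(S (nat_lit 40807) (S (nat_lit 17527) (S (nat_lit 41547) (S (nat_lit 30774) (S (nat_lit 14) (S (nat_lit 48307) (S (nat_lit 986) (S (nat_lit 54884) (S (nat_lit 40818) (S (nat_lit 54879) (S (nat_lit 37322) (S (nat_lit 37335) (S (nat_lit 41590) (S (nat_lit 35073) (S (nat_lit 4563) (S (nat_lit 24126) (S (nat_lit 41293) (S (nat_lit 21755) (S (nat_lit 20783) (S (nat_lit 25016) (S (nat_lit 40163) (S (nat_lit 2650) (S (nat_lit 2893) (S (nat_lit 40002) (S (nat_lit 51121) (D (nat_lit 11) (nat_lit 5131656) (nat_lit 19673259) (nat_lit 180388694082))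
(L (nat_lit 17131138)))
(L (nat_lit 21538629)))
(L (nat_lit 31176964)))
(L (nat_lit 31176965)))
(L (nat_lit 29079749)))
(S (nat_lit 36616) (S (nat_lit 49609) (S (nat_lit 48880) (S (nat_lit 571) (S (nat_lit 40974) (S (nat_lit 31178) (D (nat_lit 11) (nat_lit 27348209) (nat_lit 19673443) (nat_lit 146201904193))
(L (nat_lit 27900010)))
(L (nat_lit 29892321)))
(L (nat_lit 27859425)))
(L (nat_lit 15616323)))
(L (nat_lit 15616355)))
(L (nat_lit 4675495))))
(L (nat_lit 958064)))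
(L (nat_lit 11005046)))
(L (nat_lit 18109285)))
(L (nat_lit 8245697)))
(L (nat_lit 5774969)))
(L (nat_lit 2812423)))
(L (nat_lit 19165635)))
(L (nat_lit 30788097)))
(L (nat_lit 30760108)))
(L (nat_lit 27894958)))
(L (nat_lit 24699237)))
(L (nat_lit 27901156)))
(L (nat_lit 13389991)))
(L (nat_lit 27349544)))
(L (nat_lit 6930276)))
(L (nat_lit 2734855)))
(L (nat_lit 16865629)))
(L (nat_lit 24428386)))
(L (nat_lit 9518965))))
(L (nat_lit 25184561)))))
(S (nat_lit 37307) (S (nat_lit 1229) (S (nat_lit 13516) (S (nat_lit 38465) (L (nat_lit 6885850))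
(L (nat_lit 9212556)))
(S (nat_lit 19795) (S (nat_lit 16015) (L (nat_lit 14230586))
(S (nat_lit 17527) (S (nat_lit 986) (S (nat_lit 997) (L (nat_lit 18954123))
(L (nat_lit 20252591)))
(S (nat_lit 11325) (L (nat_lit 24948903))
(L (nat_lit 9037841))))
(L (nat_lit 15801174))))
(L (nat_lit 9555887))))
(S (nat_lit 20993) (S (nat_lit 1726) (S (nat_lit 986) (S (nat_lit 21479) (L (nat_lit 19194405))
(L (nat_lit 14766425)))
(L (nat_lit 14418135)))
(S (nat_lit 21490) (S (nat_lit 21739) (S (nat_lit 986) (L (nat_lit 4631474))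
(L (nat_lit 20376583)))
(L (nat_lit 30454439)))
(S (nat_lit 41254) (S (nat_lit 21479) (S (nat_lit 20736) (S (nat_lit 35120) (L (nat_lit 24191419))
(L (nat_lit 17912025)))
(L (nat_lit 6384236)))
(L (nat_lit 22330553)))
(L (nat_lit 25759271)))))
(S (nat_lit 40757) (S (nat_lit 1944) (S (nat_lit 35098) (S (nat_lit 41243) (S (nat_lit 972) (L (nat_lit 8808133))
(L (nat_lit 8538521)))
(L (nat_lit 27349329)))
(L (nat_lit 2583926)))
(S (nat_lit 21708) (S (nat_lit 40564) (S (nat_lit 39575) (L (nat_lit 20032924))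
(L (nat_lit 23184600)))
(L (nat_lit 16901461)))
(S (nat_lit 41472) (S (nat_lit 40564) (S (nat_lit 54868) (L (nat_lit 27341483))
(L (nat_lit 16025209)))
(L (nat_lit 27382155)))
(L (nat_lit 25768227)))))
(L (nat_lit 25286119)))))
(S (nat_lit 57071) (S (nat_lit 8812) (S (nat_lit 1986) (S (nat_lit 30354) (L (nat_lit 9458233))
(S (nat_lit 41254) (S (nat_lit 35098) (L (nat_lit 13176026))
(L (nat_lit 10309772)))
(L (nat_lit 1698062))))
(S (nat_lit 21750) (S (nat_lit 12065) (S (nat_lit 14) (L (nat_lit 6784764))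
(L (nat_lit 7977829)))
(S (nat_lit 20767) (S (nat_lit 41547) (L (nat_lit 6409004))
(L (nat_lit 748011)))
(L (nat_lit 7254197))))
(S (nat_lit 41514) (S (nat_lit 41276) (S (nat_lit 40790) (L (nat_lit 24939977))
(L (nat_lit 518422)))
(S (nat_lit 43763) (L (nat_lit 2892428))
(L (nat_lit 6809686))))
(L (nat_lit 25668293)))))
(S (nat_lit 28576) (S (nat_lit 1229) (S (nat_lit 986) (S (nat_lit 1969) (S (nat_lit 37324) (S (nat_lit 37274) (L (nat_lit 4042385))
(L (nat_lit 2958956)))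
(L (nat_lit 2515625)))
(L (nat_lit 14256346)))
(S (nat_lit 50599) (L (nat_lit 23314275))
(L (nat_lit 2511068))))
(S (nat_lit 20993) (S (nat_lit 37285) (S (nat_lit 37324) (L (nat_lit 13750617))
(L (nat_lit 30586099)))
(L (nat_lit 9326978)))
(S (nat_lit 40757) (S (nat_lit 8790) (S (nat_lit 54868) (S (nat_lit 40525) (S (nat_lit 41304) (L (nat_lit 1580637))
(L (nat_lit 17064114)))
(L (nat_lit 17062720)))
(L (nat_lit 27376328)))
(L (nat_lit 21088167)))
(L (nat_lit 25432753)))))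
(S (nat_lit 48340) (S (nat_lit 1969) (S (nat_lit 40500) (S (nat_lit 8810) (S (nat_lit 17558) (S (nat_lit 57024) (S (nat_lit 28543) (S (nat_lit 1014) (S (nat_lit 21739) (S (nat_lit 1743) (L (nat_lit 9622075))
(S (nat_lit 57926) (L (nat_lit 3840573))
(L (nat_lit 14325016))))
(L (nat_lit 16060180)))
(L (nat_lit 2964722)))
(L (nat_lit 9524140)))
(L (nat_lit 27760661)))
(L (nat_lit 15884203)))
(L (nat_lit 15310757)))
(S (nat_lit 50636) (S (nat_lit 31406) (L (nat_lit 2846001))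
(L (nat_lit 10880949)))
(L (nat_lit 24191916))))
(S (nat_lit 21733) (S (nat_lit 1290) (S (nat_lit 35115) (L (nat_lit 4844908))
(L (nat_lit 20187950)))
(S (nat_lit 7773) (L (nat_lit 14279876))
(L (nat_lit 20234296))))
(S (nat_lit 41497) (S (nat_lit 40743) (L (nat_lit 2412399))
(L (nat_lit 27899050)))
(L (nat_lit 25529071)))))
(L (nat_lit 25338391)))))
(L (nat_lit 25446884)))))
(S (nat_lit 39570) (S (nat_lit 15323) (S (nat_lit 1765) (S (nat_lit 62) (S (nat_lit 37274) (S (nat_lit 1290) (L (nat_lit 20324101))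
(L (nat_lit 14388074)))
(L (nat_lit 14388138)))
(S (nat_lit 19826) (S (nat_lit 1047) (S (nat_lit 40818) (S (nat_lit 1279) (L (nat_lit 30876357))
(L (nat_lit 14411947)))
(L (nat_lit 2875850)))
(L (nat_lit 2869066)))
(S (nat_lit 39590) (S (nat_lit 28554) (S (nat_lit 40774) (L (nat_lit 577290))
(L (nat_lit 24949092)))
(L (nat_lit 24436910)))
(L (nat_lit 25348651)))))
(S (nat_lit 21529) (S (nat_lit 1019) (S (nat_lit 21708) (S (nat_lit 39603) (L (nat_lit 11175692))
(L (nat_lit 24920135)))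
(L (nat_lit 7457180)))
(S (nat_lit 20783) (S (nat_lit 7930) (L (nat_lit 783814))
(S (nat_lit 8823) (S (nat_lit 10960) (S (nat_lit 64) (L (nat_lit 30423415))
(L (nat_lit 6471291)))
(L (nat_lit 8148355)))
(L (nat_lit 6944129))))
(S (nat_lit 40547) (S (nat_lit 28587) (L (nat_lit 12170145))
(L (nat_lit 3984774)))
(L (nat_lit 25633943)))))
(S (nat_lit 41293) (S (nat_lit 1277) (S (nat_lit 54884) (S (nat_lit 57071) (S (nat_lit 50538) (S (nat_lit 8762) (L (nat_lit 29477255))
(L (nat_lit 1876559)))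
(L (nat_lit 27963680)))
(L (nat_lit 27347499)))
(L (nat_lit 4931498)))
(S (nat_lit 21041) (S (nat_lit 1073) (L (nat_lit 323986))
(S (nat_lit 8823) (S (nat_lit 57055) (S (nat_lit 75) (L (nat_lit 284431))
(L (nat_lit 6878322)))
(L (nat_lit 4478489)))
(L (nat_lit 651655))))
(S (nat_lit 40805) (S (nat_lit 30730) (S (nat_lit 40562) (S (nat_lit 40807) (L (nat_lit 17092448))
(L (nat_lit 24427705)))
(L (nat_lit 18581816)))
(S (nat_lit 58379) (L (nat_lit 521459))
(L (nat_lit 24394840))))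
(L (nat_lit 25474786)))))
(L (nat_lit 25377941)))))
(S (nat_lit 35087) (S (nat_lit 8790) (S (nat_lit 17496) (S (nat_lit 19584) (L (nat_lit 15801945))
(S (nat_lit 41276) (S (nat_lit 40774) (L (nat_lit 17522823))
(L (nat_lit 17714529)))
(L (nat_lit 17459555))))
(S (nat_lit 37260) (S (nat_lit 28512) (S (nat_lit 19811) (S (nat_lit 10949) (S (nat_lit 30699) (S (nat_lit 20139) (L (nat_lit 2646598))
(L (nat_lit 24036708)))
(L (nat_lit 17696455)))
(L (nat_lit 23292420)))
(S (nat_lit 52260) (L (nat_lit 30903506))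
(L (nat_lit 31068555))))
(L (nat_lit 9327041)))
(S (nat_lit 57024) (S (nat_lit 21026) (S (nat_lit 21512) (L (nat_lit 24233340))
(L (nat_lit 5904793)))
(L (nat_lit 12190105)))
(L (nat_lit 25861601)))))
(S (nat_lit 28554) (S (nat_lit 15309) (S (nat_lit 42616) (L (nat_lit 16831865))
(S (nat_lit 57055) (S (nat_lit 2019) (S (nat_lit 37307) (S (nat_lit 19778) (S (nat_lit 37324) (S (nat_lit 17558) (S (nat_lit 1975) (S (nat_lit 1958) (S (nat_lit 46921) (L (nat_lit 4569785))
(L (nat_lit 30821573)))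
(L (nat_lit 12708182)))
(L (nat_lit 14502209)))
(L (nat_lit 26680498)))
(L (nat_lit 30821603)))
(L (nat_lit 3358395)))
(L (nat_lit 9987122)))
(S (nat_lit 40661) (L (nat_lit 18958251))
(L (nat_lit 12672248))))
(L (nat_lit 21496089))))
(S (nat_lit 35073) (S (nat_lit 18944) (L (nat_lit 4614759))
(S (nat_lit 19795) (S (nat_lit 15334) (S (nat_lit 997) (S (nat_lit 50527) (S (nat_lit 41291) (L (nat_lit 24328216))
(L (nat_lit 23595290)))
(L (nat_lit 27888845)))
(L (nat_lit 8785845)))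
(L (nat_lit 16789083)))
(L (nat_lit 2419342))))
(S (nat_lit 54837) (S (nat_lit 37291) (S (nat_lit 19811) (L (nat_lit 16887516))
(L (nat_lit 9192037)))
(L (nat_lit 9564781)))
(L (nat_lit 25711840)))))
(S (nat_lit 48318) (S (nat_lit 1715) (S (nat_lit 57086) (S (nat_lit 986) (L (nat_lit 28460405))
(L (nat_lit 13914977)))
(L (nat_lit 27868330)))
(S (nat_lit 21479) (S (nat_lit 27949) (L (nat_lit 19801262))
(S (nat_lit 54879) (S (nat_lit 20767) (L (nat_lit 5121495))
(L (nat_lit 21360814)))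
(L (nat_lit 13726039))))
(S (nat_lit 41243) (S (nat_lit 8748) (S (nat_lit 40757) (S (nat_lit 39575) (L (nat_lit 23495931))
(L (nat_lit 18115173)))
(L (nat_lit 27382215)))
(L (nat_lit 23280384)))
(L (nat_lit 25526742)))))
(L (nat_lit 25929185)))))
(S (nat_lit 54851) (S (nat_lit 1262) (S (nat_lit 1748) (S (nat_lit 2019) (S (nat_lit 40514) (S (nat_lit 37307) (S (nat_lit 47) (S (nat_lit 15334) (S (nat_lit 21496) (S (nat_lit 20736) (S (nat_lit 19795) (S (nat_lit 21054) (S (nat_lit 20783) (S (nat_lit 48340) (S (nat_lit 1701) (S (nat_lit 1215) (S (nat_lit 54868) (S (nat_lit 1958) (S (nat_lit 37260) (S (nat_lit 41254) (S (nat_lit 33104) (S (nat_lit 41095) (S (nat_lit 49444) (S (nat_lit 18803) (S (nat_lit 35712) (D (nat_lit 13) (nat_lit 31040932) (nat_lit 19435275) (nat_lit 2478399719521))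
(L (nat_lit 19310716)))
(L (nat_lit 27545056)))
(L (nat_lit 29960673)))
(L (nat_lit 19805536)))
(S (nat_lit 56446) (S (nat_lit 16918) (S (nat_lit 12834) (S (nat_lit 39101) (S (nat_lit 40653) (D (nat_lit 13) (nat_lit 28889257) (nat_lit 19436920) (nat_lit 1381000905732))
(L (nat_lit 19733676)))
(L (nat_lit 19294214)))
(L (nat_lit 29963556)))
(L (nat_lit 27865346)))
(L (nat_lit 22131530))))
(L (nat_lit 27692775)))
(L (nat_lit 14505152)))
(L (nat_lit 26844208)))
(L (nat_lit 21267865)))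
(L (nat_lit 18985738)))
(L (nat_lit 19182340)))
(L (nat_lit 20312515)))
(L (nat_lit 21161351)))
(L (nat_lit 11557645)))
(L (nat_lit 9564814)))
(L (nat_lit 12159885)))
(L (nat_lit 5744565)))
(L (nat_lit 26973553)))
(L (nat_lit 13490405)))
(L (nat_lit 14602468)))
(L (nat_lit 10343600)))
(L (nat_lit 11557337)))
(L (nat_lit 2793884)))
(S (nat_lit 21026) (S (nat_lit 11010) (S (nat_lit 20783) (S (nat_lit 15351) (S (nat_lit 41293) (S (nat_lit 35073) (S (nat_lit 40531) (S (nat_lit 57038) (S (nat_lit 47) (S (nat_lit 2019) (S (nat_lit 1732) (S (nat_lit 1014) (S (nat_lit 41229) (S (nat_lit 64) (S (nat_lit 54868) (S (nat_lit 57055) (S (nat_lit 1277) (S (nat_lit 8237) (S (nat_lit 2123) (S (nat_lit 36391) (S (nat_lit 38335) (S (nat_lit 48960) (D (nat_lit 11) (nat_lit 25903363) (nat_lit 19670467) (nat_lit 276831399))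
(L (nat_lit 29928470)))
(L (nat_lit 21837835)))
(L (nat_lit 21833092)))
(S (nat_lit 40592) (S (nat_lit 38871) (S (nat_lit 50156) (S (nat_lit 52100) (D (nat_lit 11) (nat_lit 25863717) (nat_lit 19672581) (nat_lit 276829413))
(L (nat_lit 14589601)))
(L (nat_lit 13475488)))
(L (nat_lit 28979553)))
(L (nat_lit 30593296))))
(L (nat_lit 30672309)))
(L (nat_lit 11439825)))
(L (nat_lit 14943961)))
(L (nat_lit 5037449)))
(L (nat_lit 6444443)))
(L (nat_lit 7180908)))
(L (nat_lit 5091021)))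
(L (nat_lit 26708615)))
(L (nat_lit 19139437)))
(L (nat_lit 6386257)))
(L (nat_lit 19375224)))
(L (nat_lit 18516870)))
(L (nat_lit 18701319)))
(L (nat_lit 18617927)))
(L (nat_lit 26775111)))
(L (nat_lit 16518727)))
(S (nat_lit 42878) (L (nat_lit 7126597))
(L (nat_lit 6690392))))
(S (nat_lit 40790) (S (nat_lit 21512) (S (nat_lit 41260) (S (nat_lit 40514) (S (nat_lit 11010) (S (nat_lit 20736) (S (nat_lit 47) (S (nat_lit 21021) (S (nat_lit 35073) (S (nat_lit 54912) (S (nat_lit 20783) (S (nat_lit 1246) (S (nat_lit 40531) (S (nat_lit 41304) (S (nat_lit 1290) (S (nat_lit 1726) (S (nat_lit 41472) (S (nat_lit 57099) (S (nat_lit 19778) (S (nat_lit 26780) (S (nat_lit 19917) (S (nat_lit 30878) (S (nat_lit 18621) (S (nat_lit 17163) (D (nat_lit 11) (nat_lit 27929984) (nat_lit 25767086) (nat_lit 212877904002))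
(L (nat_lit 27926672)))
(L (nat_lit 27932810)))
(L (nat_lit 27935075)))
(S (nat_lit 52647) (S (nat_lit 17599) (S (nat_lit 30442) (S (nat_lit 31900) (S (nat_lit 52586) (S (nat_lit 27450) (D (nat_lit 9) (nat_lit 29017347) (nat_lit 1648056) (nat_lit 145063216194))
(L (nat_lit 29016322)))
(L (nat_lit 15573572)))
(L (nat_lit 9297316)))
(L (nat_lit 15588580)))
(L (nat_lit 29014306)))
(L (nat_lit 26579532))))
(L (nat_lit 6776386)))
(L (nat_lit 21170960)))
(L (nat_lit 27441862)))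
(L (nat_lit 7260549)))
(L (nat_lit 19172890)))
(L (nat_lit 20218360)))
(L (nat_lit 27992236)))
(L (nat_lit 23890374)))
(L (nat_lit 11002005)))
(L (nat_lit 958065)))
(L (nat_lit 5859718)))
(L (nat_lit 20410407)))
(L (nat_lit 12489421)))
(L (nat_lit 7008645)))
(L (nat_lit 21391620)))
(L (nat_lit 488006)))
(L (nat_lit 25016675)))
(L (nat_lit 23409849)))
(L (nat_lit 696729)))
(L (nat_lit 25821457)))))
(L (nat_lit 25221389)))))
(L (nat_lit 25442482)))))
(S (nat_lit 37302) (S (nat_lit 8823) (S (nat_lit 15351) (S (nat_lit 1036) (S (nat_lit 1969) (S (nat_lit 31) (S (nat_lit 28526) (S (nat_lit 17510) (S (nat_lit 1743) (L (nat_lit 9967193))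
(L (nat_lit 26716868)))
(L (nat_lit 8181838)))
(L (nat_lit 2957717)))
(L (nat_lit 12845941)))
(S (nat_lit 21733) (S (nat_lit 41276) (L (nat_lit 5157446))
(L (nat_lit 17703489)))
(S (nat_lit 41497) (S (nat_lit 39553) (S (nat_lit 35135) (L (nat_lit 24514777))
(L (nat_lit 9274959)))
(L (nat_lit 17852789)))
(L (nat_lit 25592085)))))
(S (nat_lit 20800) (S (nat_lit 1003) (S (nat_lit 44873) (L (nat_lit 26937771))
(L (nat_lit 874887)))
(S (nat_lit 20767) (S (nat_lit 41293) (L (nat_lit 6854453))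
(L (nat_lit 7012793)))
(S (nat_lit 40531) (S (nat_lit 1075) (S (nat_lit 28554) (L (nat_lit 30823590))
(L (nat_lit 30820705)))
(S (nat_lit 20761) (S (nat_lit 8810) (S (nat_lit 21770) (L (nat_lit 15824244))
(L (nat_lit 8179232)))
(L (nat_lit 7223445)))
(L (nat_lit 280437))))
(L (nat_lit 25633408)))))
(S (nat_lit 40564) (S (nat_lit 17496) (S (nat_lit 10966) (S (nat_lit 15340) (S (nat_lit 20767) (S (nat_lit 14) (S (nat_lit 21750) (S (nat_lit 39603) (S (nat_lit 39175) (L (nat_lit 28742931))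
(L (nat_lit 24347501)))
(L (nat_lit 23872769)))
(L (nat_lit 7492460)))
(L (nat_lit 19086428)))
(L (nat_lit 7090357)))
(L (nat_lit 7755618)))
(S (nat_lit 17608) (L (nat_lit 6405722))
(L (nat_lit 23381858))))
(S (nat_lit 37260) (S (nat_lit 40547) (S (nat_lit 41519) (S (nat_lit 15334) (S (nat_lit 8762) (S (nat_lit 41503) (L (nat_lit 4409788))
(L (nat_lit 18761863)))
(L (nat_lit 7030629)))
(L (nat_lit 1765800)))
(L (nat_lit 9329026)))
(S (nat_lit 42572) (L (nat_lit 7527279))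
(L (nat_lit 17619265))))
(S (nat_lit 57024) (S (nat_lit 35073) (S (nat_lit 41519) (S (nat_lit 50307) (S (nat_lit 51575) (S (nat_lit 52061) (L (nat_lit 25237908))
(L (nat_lit 17888838)))
(L (nat_lit 18085440)))
(L (nat_lit 18711142)))
(L (nat_lit 17703520)))
(S (nat_lit 42388) (L (nat_lit 6722204))
(L (nat_lit 3696885))))
(L (nat_lit 25926113)))))
(L (nat_lit 25279051)))))
(S (nat_lit 35115) (S (nat_lit 1215) (S (nat_lit 1726) (S (nat_lit 1763) (S (nat_lit 19789) (L (nat_lit 7452313))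
(L (nat_lit 2738025)))
(L (nat_lit 20472934)))
(S (nat_lit 21490) (S (nat_lit 20761) (L (nat_lit 3784921))
(L (nat_lit 30491957)))
(S (nat_lit 41254) (S (nat_lit 40757) (S (nat_lit 41243) (L (nat_lit 16894826))
(L (nat_lit 8835873)))
(L (nat_lit 17395751)))
(L (nat_lit 25320999)))))
(S (nat_lit 20979) (S (nat_lit 40547) (L (nat_lit 12503424))
(L (nat_lit 10377603)))
(S (nat_lit 40743) (S (nat_lit 41229) (S (nat_lit 15340) (L (nat_lit 23096710))
(L (nat_lit 906633)))
(L (nat_lit 9357700)))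
(L (nat_lit 25597202)))))
(S (nat_lit 54879) (S (nat_lit 17558) (S (nat_lit 8773) (S (nat_lit 1726) (S (nat_lit 40807) (L (nat_lit 9516949))
(L (nat_lit 17855046)))
(S (nat_lit 6502) (L (nat_lit 23860650))
(L (nat_lit 13234215))))
(S (nat_lit 28537) (S (nat_lit 57055) (S (nat_lit 50505) (S (nat_lit 1958) (S (nat_lit 41503) (S (nat_lit 10966) (S (nat_lit 75) (S (nat_lit 1991) (S (nat_lit 17491) (L (nat_lit 5588637))
(L (nat_lit 9008513)))
(L (nat_lit 26920102)))
(L (nat_lit 569016)))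
(L (nat_lit 7192130)))
(L (nat_lit 18762977)))
(L (nat_lit 12882807)))
(L (nat_lit 20853926)))
(L (nat_lit 27541091)))
(S (nat_lit 48301) (S (nat_lit 40757) (L (nat_lit 13232263))
(L (nat_lit 25083234)))
(L (nat_lit 25826673)))))
(S (nat_lit 37322) (S (nat_lit 8790) (S (nat_lit 48276) (S (nat_lit 41260) (L (nat_lit 6940846))
(L (nat_lit 9210542)))
(L (nat_lit 22231905)))
(S (nat_lit 28554) (S (nat_lit 1958) (S (nat_lit 21490) (L (nat_lit 30810689))
(L (nat_lit 7737205)))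
(L (nat_lit 14226278)))
(S (nat_lit 48318) (S (nat_lit 25) (S (nat_lit 17543) (S (nat_lit 37335) (S (nat_lit 48338) (S (nat_lit 21010) (L (nat_lit 21456196))
(L (nat_lit 2012533)))
(L (nat_lit 14489781)))
(L (nat_lit 9836309)))
(L (nat_lit 6918926)))
(S (nat_lit 44519) (L (nat_lit 6414124))
(L (nat_lit 843118))))
(L (nat_lit 25764014)))))
(S (nat_lit 57086) (S (nat_lit 1290) (S (nat_lit 40790) (S (nat_lit 986) (L (nat_lit 26846656))
(L (nat_lit 19312481)))
(L (nat_lit 842119)))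
(S (nat_lit 21054) (S (nat_lit 39590) (S (nat_lit 40757) (S (nat_lit 10977) (L (nat_lit 17058969))
(L (nat_lit 26495361)))
(L (nat_lit 7991744)))
(L (nat_lit 27984241)))
(S (nat_lit 40818) (S (nat_lit 972) (S (nat_lit 17510) (L (nat_lit 13986369))
(L (nat_lit 767818)))
(L (nat_lit 14420306)))
(L (nat_lit 25247955)))))
(L (nat_lit 25511090)))))
(L (nat_lit 25742502)))))
(S (nat_lit 28587) (S (nat_lit 17560) (S (nat_lit 15384) (S (nat_lit 10982) (S (nat_lit 40154) (L (nat_lit 30606802))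
(S (nat_lit 41291) (S (nat_lit 21739) (L (nat_lit 29871296))
(L (nat_lit 30749749)))
(L (nat_lit 1854673))))
(S (nat_lit 30746) (S (nat_lit 41503) (S (nat_lit 37335) (S (nat_lit 21770) (S (nat_lit 39559) (S (nat_lit 11010) (S (nat_lit 55774) (L (nat_lit 6137518))
(L (nat_lit 29734560)))
(L (nat_lit 26692678)))
(L (nat_lit 17041204)))
(L (nat_lit 7883803)))
(L (nat_lit 13997845)))
(L (nat_lit 24262439)))
(S (nat_lit 50510) (S (nat_lit 16906) (S (nat_lit 30774) (L (nat_lit 30606957))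
(L (nat_lit 24295706)))
(S (nat_lit 41229) (S (nat_lit 30774) (S (nat_lit 35104) (L (nat_lit 2716071))
(L (nat_lit 2388374)))
(L (nat_lit 24492122)))
(L (nat_lit 3747692))))
(L (nat_lit 25285838)))))
(S (nat_lit 35148) (S (nat_lit 17510) (S (nat_lit 35135) (S (nat_lit 41291) (S (nat_lit 40805) (L (nat_lit 2844168))
(L (nat_lit 24916039)))
(L (nat_lit 24916225)))
(L (nat_lit 9208399)))
(S (nat_lit 37274) (S (nat_lit 30741) (S (nat_lit 1743) (L (nat_lit 8841235))
(L (nat_lit 9934770)))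
(L (nat_lit 3924359)))
(S (nat_lit 57038) (S (nat_lit 19826) (S (nat_lit 8773) (S (nat_lit 50494) (S (nat_lit 39559) (S (nat_lit 54884) (S (nat_lit 21722) (S (nat_lit 1986) (S (nat_lit 8748) (S (nat_lit 48307) (S (nat_lit 10949) (S (nat_lit 19828) (S (nat_lit 57049) (S (nat_lit 47713) (L (nat_lit 5585529))
(L (nat_lit 29808960)))
(L (nat_lit 19769730)))
(L (nat_lit 16569352)))
(L (nat_lit 6974542)))
(L (nat_lit 12119122)))
(S (nat_lit 28839) (L (nat_lit 21033165))
(S (nat_lit 35700) (L (nat_lit 4573626))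
(L (nat_lit 26876944)))))
(L (nat_lit 5598739)))
(L (nat_lit 22418182)))
(L (nat_lit 21902564)))
(L (nat_lit 17465660)))
(L (nat_lit 13523202)))
(L (nat_lit 6771899)))
(L (nat_lit 30985386)))
(L (nat_lit 25679947)))))
(S (nat_lit 54912) (S (nat_lit 14) (S (nat_lit 1003) (S (nat_lit 35098) (S (nat_lit 41254) (L (nat_lit 28462502))
(L (nat_lit 8477454)))
(L (nat_lit 9254466)))
(S (nat_lit 19598) (L (nat_lit 20244864))
(L (nat_lit 13650790))))
(S (nat_lit 19778) (S (nat_lit 1715) (L (nat_lit 29806881))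
(S (nat_lit 27664) (S (nat_lit 41243) (L (nat_lit 3034415))
(L (nat_lit 6438806)))
(L (nat_lit 2703206))))
(S (nat_lit 39542) (S (nat_lit 2363) (L (nat_lit 4614423))
(S (nat_lit 50494) (S (nat_lit 21722) (S (nat_lit 35098) (S (nat_lit 19806) (S (nat_lit 10935) (S (nat_lit 19826) (S (nat_lit 57038) (S (nat_lit 5459) (L (nat_lit 5679926))
(S (nat_lit 15309) (S (nat_lit 21783) (S (nat_lit 42058) (L (nat_lit 1614556))
(L (nat_lit 6938796)))
(L (nat_lit 16636229)))
(L (nat_lit 6842017))))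
(L (nat_lit 19374200)))
(L (nat_lit 22381424)))
(L (nat_lit 15949844)))
(L (nat_lit 16012128)))
(L (nat_lit 10303043)))
(L (nat_lit 22424320)))
(L (nat_lit 5860653))))
(L (nat_lit 25802859)))))
(L (nat_lit 25669217)))))
(S (nat_lit 37324) (S (nat_lit 10949) (S (nat_lit 10999) (S (nat_lit 24479) (L (nat_lit 3764591))
(S (nat_lit 28537) (S (nat_lit 1701) (L (nat_lit 4830523))
(L (nat_lit 9593234)))
(L (nat_lit 3364716))))
(S (nat_lit 30763) (S (nat_lit 13213) (S (nat_lit 1566) (L (nat_lit 2584169))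
(L (nat_lit 3498386)))
(S (nat_lit 16162) (L (nat_lit 2802041))
(L (nat_lit 2510074))))
(S (nat_lit 50527) (S (nat_lit 15384) (S (nat_lit 57038) (S (nat_lit 17558) (S (nat_lit 10977) (L (nat_lit 18965873))
(L (nat_lit 21865857)))
(L (nat_lit 26680900)))
(L (nat_lit 19129420)))
(L (nat_lit 6895457)))
(L (nat_lit 25634435)))))
(S (nat_lit 30713) (S (nat_lit 997) (S (nat_lit 19826) (S (nat_lit 19811) (S (nat_lit 35115) (S (nat_lit 37335) (L (nat_lit 3466773))
(L (nat_lit 8868768)))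
(L (nat_lit 31043718)))
(L (nat_lit 31075717)))
(L (nat_lit 9595447)))
(S (nat_lit 20761) (S (nat_lit 31) (S (nat_lit 57038) (S (nat_lit 54837) (S (nat_lit 20767) (S (nat_lit 41503) (S (nat_lit 20783) (L (nat_lit 5623292))
(L (nat_lit 6753913)))
(L (nat_lit 9227748)))
(L (nat_lit 30788783)))
(L (nat_lit 13659381)))
(L (nat_lit 27511918)))
(L (nat_lit 7857269)))
(S (nat_lit 40525) (S (nat_lit 19826) (S (nat_lit 35135) (S (nat_lit 15309) (S (nat_lit 40757) (L (nat_lit 16934226))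
(L (nat_lit 24244679)))
(L (nat_lit 24904135)))
(L (nat_lit 9630349)))
(L (nat_lit 9597495)))
(L (nat_lit 25495279)))))
(S (nat_lit 50477) (S (nat_lit 10999) (S (nat_lit 20339) (L (nat_lit 30652129))
(S (nat_lit 39542) (S (nat_lit 1763) (L (nat_lit 20720161))
(L (nat_lit 19096688)))
(L (nat_lit 24547115))))
(S (nat_lit 30763) (S (nat_lit 35148) (S (nat_lit 20761) (S (nat_lit 31) (S (nat_lit 47) (L (nat_lit 26631211))
(L (nat_lit 19775717)))
(L (nat_lit 19766382)))
(L (nat_lit 30694447)))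
(L (nat_lit 9286775)))
(S (nat_lit 50527) (S (nat_lit 35098) (S (nat_lit 35120) (S (nat_lit 19806) (S (nat_lit 28537) (S (nat_lit 19778) (L (nat_lit 22195613))
(L (nat_lit 9833113)))
(L (nat_lit 4019688)))
(L (nat_lit 3947859)))
(L (nat_lit 18630852)))
(S (nat_lit 47685) (L (nat_lit 2373372))
(L (nat_lit 23934274))))
(L (nat_lit 25517072)))))
(L (nat_lit 25397779)))))
(S (nat_lit 57088) (S (nat_lit 25) (S (nat_lit 1246) (S (nat_lit 54879) (S (nat_lit 1732) (S (nat_lit 1975) (L (nat_lit 23555239))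
(L (nat_lit 13886116)))
(L (nat_lit 19215200)))
(L (nat_lit 27894958)))
(S (nat_lit 3793) (L (nat_lit 3779034))
(L (nat_lit 3648373))))
(S (nat_lit 19789) (S (nat_lit 1732) (S (nat_lit 40514) (L (nat_lit 18950586))
(L (nat_lit 17425761)))
(S (nat_lit 54216) (S (nat_lit 34918) (L (nat_lit 10109792))
(L (nat_lit 19051367)))
(L (nat_lit 9450357))))
(S (nat_lit 39553) (S (nat_lit 75) (S (nat_lit 30724) (S (nat_lit 28554) (S (nat_lit 40807) (L (nat_lit 13314236))
(L (nat_lit 7902069)))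
(L (nat_lit 19678528)))
(L (nat_lit 19442530)))
(S (nat_lit 19839) (S (nat_lit 1958) (S (nat_lit 15356) (S (nat_lit 40531) (L (nat_lit 28522147))
(L (nat_lit 27928590)))
(L (nat_lit 6918684)))
(S (nat_lit 38122) (L (nat_lit 8229613))
(L (nat_lit 9563606))))
(S (nat_lit 39603) (S (nat_lit 35148) (S (nat_lit 1246) (L (nat_lit 30584274))
(L (nat_lit 12725109)))
(L (nat_lit 2445722)))
(L (nat_lit 25733235)))))
(L (nat_lit 25367093)))))
(L (nat_lit 25313494)))))
(S (nat_lit 48351) (S (nat_lit 42) (S (nat_lit 1944) (S (nat_lit 15340) (S (nat_lit 972) (S (nat_lit 1034) (S (nat_lit 31) (S (nat_lit 48318) (L (nat_lit 8502130))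
(L (nat_lit 14474592)))
(L (nat_lit 12898146)))
(L (nat_lit 20505889)))
(S (nat_lit 50920) (L (nat_lit 13660498))
(L (nat_lit 26356114))))
(S (nat_lit 35104) (S (nat_lit 972) (S (nat_lit 19811) (S (nat_lit 1047) (S (nat_lit 20187) (L (nat_lit 19186875))
(L (nat_lit 3796359)))
(L (nat_lit 19406008)))
(L (nat_lit 21239193)))
(S (nat_lit 44269) (L (nat_lit 10359188))
(L (nat_lit 20199172))))
(S (nat_lit 54868) (S (nat_lit 972) (S (nat_lit 1701) (S (nat_lit 2006) (S (nat_lit 1277) (S (nat_lit 31) (L (nat_lit 28389068))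
(L (nat_lit 12869749)))
(L (nat_lit 20852962)))
(L (nat_lit 19161169)))
(S (nat_lit 6156) (S (nat_lit 25016) (L (nat_lit 24028580))
(L (nat_lit 14833017)))
(L (nat_lit 13772563))))
(L (nat_lit 9036162)))
(L (nat_lit 25238225)))))
(S (nat_lit 21708) (S (nat_lit 1279) (S (nat_lit 1748) (S (nat_lit 28526) (S (nat_lit 54868) (L (nat_lit 7998905))
(L (nat_lit 21267865)))
(L (nat_lit 4016523)))
(L (nat_lit 19765665)))
(S (nat_lit 21043) (S (nat_lit 20750) (S (nat_lit 41276) (S (nat_lit 20783) (S (nat_lit 41243) (L (nat_lit 2518663))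
(L (nat_lit 27710689)))
(L (nat_lit 22408577)))
(L (nat_lit 27957633)))
(L (nat_lit 21118887)))
(S (nat_lit 40807) (S (nat_lit 40575) (S (nat_lit 40500) (S (nat_lit 54868) (S (nat_lit 21512) (L (nat_lit 29069676))
(L (nat_lit 16057945)))
(L (nat_lit 16352537)))
(L (nat_lit 7786340)))
(L (nat_lit 17636530)))
(L (nat_lit 25410148)))))
(S (nat_lit 41472) (S (nat_lit 15334) (S (nat_lit 20783) (S (nat_lit 54868) (S (nat_lit 10949) (S (nat_lit 41503) (L (nat_lit 24328101))
(L (nat_lit 27774273)))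
(L (nat_lit 7127620)))
(L (nat_lit 27558291)))
(S (nat_lit 52488) (S (nat_lit 56018) (L (nat_lit 6010663))
(L (nat_lit 7126194)))
(L (nat_lit 695707))))
(S (nat_lit 35098) (S (nat_lit 40251) (L (nat_lit 4582867))
(S (nat_lit 40818) (S (nat_lit 28526) (L (nat_lit 8484371))
(L (nat_lit 9243027)))
(L (nat_lit 2867581))))
(S (nat_lit 54862) (S (nat_lit 37291) (S (nat_lit 30713) (S (nat_lit 37324) (S (nat_lit 37260) (S (nat_lit 48338) (S (nat_lit 41514) (S (nat_lit 31) (S (nat_lit 37285) (S (nat_lit 62) (S (nat_lit 30741) (S (nat_lit 20783) (S (nat_lit 54884) (S (nat_lit 54868) (S (nat_lit 54901) (S (nat_lit 14) (S (nat_lit 30699) (S (nat_lit 20811) (S (nat_lit 20750) (S (nat_lit 54899) (S (nat_lit 75) (S (nat_lit 25) (S (nat_lit 41497) (S (nat_lit 41486) (S (nat_lit 37307) (S (nat_lit 20767) (S (nat_lit 6463) (S (nat_lit 6424) (S (nat_lit 3346) (S (nat_lit 3396) (S (nat_lit 20395) (S (nat_lit 35277) (S (nat_lit 39084) (D (nat_lit 15) (nat_lit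 14440801) (nat_lit 25759144) (nat_lit 103084463365))
(L (nat_lit 21506108)))
(L (nat_lit 27992110)))
(S (nat_lit 43316) (S (nat_lit 35783) (S (nat_lit 56033) (D (nat_lit 15) (nat_lit 13403787) (nat_lit 3760397) (nat_lit 103084463365))
(L (nat_lit 30032098)))
(L (nat_lit 27932900)))
(L (nat_lit 12285345))))
(L (nat_lit 30127460)))
(L (nat_lit 31044832)))
(L (nat_lit 28915972)))
(S (nat_lit 19730) (S (nat_lit 19714) (S (nat_lit 11047) (S (nat_lit 56747) (S (nat_lit 50186) (S (nat_lit 1782) (S (nat_lit 24487) (S (nat_lit 55985) (S (nat_lit 57412) (D (nat_lit 11) (nat_lit 14804277) (nat_lit 8503896) (nat_lit 249108299872))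
(L (nat_lit 28902953)))
(L (nat_lit 20885696)))
(L (nat_lit 28914016)))
(S (nat_lit 41229) (S (nat_lit 24973) (S (nat_lit 58384) (D (nat_lit 11) (nat_lit 14943092) (nat_lit 8504082) (nat_lit 282394296416))
(L (nat_lit 28918114)))
(L (nat_lit 28916002)))
(L (nat_lit 27348268))))
(L (nat_lit 29709824)))
(L (nat_lit 29708800)))
(L (nat_lit 18988873)))
(L (nat_lit 18999785)))
(S (nat_lit 38355) (S (nat_lit 26065) (S (nat_lit 39413) (S (nat_lit 31752) (S (nat_lit 8941) (S (nat_lit 38570) (S (nat_lit 32009) (D (nat_lit 11) (nat_lit 12441679) (nat_lit 1427864) (nat_lit 209656480833))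
(L (nat_lit 20853952)))
(S (nat_lit 40774) (S (nat_lit 1391) (D (nat_lit 9) (nat_lit 10515117) (nat_lit 15845752) (nat_lit 6482365608))
(L (nat_lit 29998434)))
(L (nat_lit 9948217))))
(L (nat_lit 12150147)))
(L (nat_lit 20783588)))
(L (nat_lit 28427478)))
(L (nat_lit 19269447)))
(L (nat_lit 2015818)))))
(L (nat_lit 6992645)))
(L (nat_lit 2845934)))
(L (nat_lit 23379002)))
(L (nat_lit 23173660)))
(L (nat_lit 6747316)))
(L (nat_lit 6439795)))
(L (nat_lit 12409997)))
(L (nat_lit 6382224)))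
(L (nat_lit 30940339)))
(L (nat_lit 24329274)))
(L (nat_lit 26662149)))
(L (nat_lit 16076707)))
(L (nat_lit 10599219)))
(L (nat_lit 10611220)))
(L (nat_lit 16522851)))
(L (nat_lit 8512111)))
(L (nat_lit 6836132)))
(L (nat_lit 10360211)))
(L (nat_lit 19183459)))
(L (nat_lit 7115315)))
(L (nat_lit 10939571)))
(L (nat_lit 16996225)))
(L (nat_lit 3614547)))
(L (nat_lit 2843051)))
(S (nat_lit 39483) (L (nat_lit 830003))
(L (nat_lit 3424179))))
(L (nat_lit 25375923)))))
(L (nat_lit 25564467)))))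
(S (nat_lit 19806) (S (nat_lit 1257) (S (nat_lit 1003) (S (nat_lit 1542) (S (nat_lit 1975) (L (nat_lit 18079795))
(L (nat_lit 19128462)))
(S (nat_lit 37324) (S (nat_lit 1944) (S (nat_lit 62) (S (nat_lit 972) (S (nat_lit 28554) (L (nat_lit 5586707))
(L (nat_lit 24430433)))
(L (nat_lit 14453074)))
(L (nat_lit 19259908)))
(L (nat_lit 19259500)))
(L (nat_lit 3760365))))
(S (nat_lit 20767) (S (nat_lit 25295) (L (nat_lit 15817051))
(S (nat_lit 37307) (S (nat_lit 35135) (S (nat_lit 986) (L (nat_lit 30675475))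
(L (nat_lit 14424737)))
(L (nat_lit 30856549)))
(L (nat_lit 9025593))))
(S (nat_lit 40531) (S (nat_lit 14500) (L (nat_lit 2380687))
(S (nat_lit 28554) (S (nat_lit 30699) (S (nat_lit 41293) (S (nat_lit 37324) (S (nat_lit 19778) (S (nat_lit 41486) (S (nat_lit 54899) (S (nat_lit 40743) (S (nat_lit 57099) (S (nat_lit 17558) (S (nat_lit 54868) (S (nat_lit 35120) (S (nat_lit 56138) (S (nat_lit 41271) (S (nat_lit 20761) (S (nat_lit 21465) (S (nat_lit 50505) (S (nat_lit 39553) (S (nat_lit 8779) (S (nat_lit 23788) (S (nat_lit 29412) (S (nat_lit 4261) (S (nat_lit 49895) (S (nat_lit 37359) (D (nat_lit 13) (nat_lit 27936035) (nat_lit 19670563) (nat_lit 1348721574917))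
(L (nat_lit 21838016)))
(L (nat_lit 21837059)))
(L (nat_lit 28973444)))
(L (nat_lit 21460228)))
(S (nat_lit 54470) (S (nat_lit 38465) (S (nat_lit 19576) (S (nat_lit 28460) (S (nat_lit 25052) (D (nat_lit 13) (nat_lit 27864177) (nat_lit 25767397) (nat_lit 6742299711589))
(L (nat_lit 27778403)))
(L (nat_lit 27853258)))
(L (nat_lit 27868330)))
(L (nat_lit 22911052)))
(L (nat_lit 3881336))))
(L (nat_lit 21857553)))
(L (nat_lit 27482286)))
(L (nat_lit 27369940)))
(L (nat_lit 21129609)))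
(L (nat_lit 14821172)))
(L (nat_lit 1561819)))
(L (nat_lit 29014341)))
(L (nat_lit 31035914)))
(L (nat_lit 27369068)))
(L (nat_lit 25052485)))
(L (nat_lit 27629167)))
(L (nat_lit 27674794)))
(L (nat_lit 5002667)))
(L (nat_lit 25068998)))
(L (nat_lit 4073137)))
(L (nat_lit 17162259)))
(L (nat_lit 4018567)))
(S (nat_lit 41947) (L (nat_lit 14461568))
(L (nat_lit 10310112))))
(L (nat_lit 9560502))))
(L (nat_lit 25348550)))))
(S (nat_lit 21021) (S (nat_lit 17496) (S (nat_lit 21507) (S (nat_lit 20993) (S (nat_lit 21479) (S (nat_lit 19828) (S (nat_lit 8810) (S (nat_lit 17558) (S (nat_lit 41486) (S (nat_lit 10960) (S (nat_lit 39553) (S (nat_lit 62) (S (nat_lit 8748) (S (nat_lit 11010) (S (nat_lit 16442) (S (nat_lit 20811) (S (nat_lit 986) (S (nat_lit 2019) (S (nat_lit 36159) (S (nat_lit 52333) (S (nat_lit 32613) (S (nat_lit 27532) (S (nat_lit 48688) (S (nat_lit 34215) (D (nat_lit 15) (nat_lit 31162702) (nat_lit 18997642) (nat_lit 76337453253))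
(L (nat_lit 28944933)))
(L (nat_lit 19773796)))
(S (nat_lit 29377) (S (nat_lit 57458) (S (nat_lit 23302) (D (nat_lit 15) (nat_lit 26941457) (nat_lit 25761162) (nat_lit 7687111720))
(L (nat_lit 16050357)))
(L (nat_lit 20475051)))
(L (nat_lit 14451339))))
(L (nat_lit 10388079)))
(L (nat_lit 19262916)))
(L (nat_lit 19675428)))
(L (nat_lit 10377667)))
(L (nat_lit 26843587)))
(L (nat_lit 22128090)))
(L (nat_lit 28902823)))
(L (nat_lit 23996929)))
(L (nat_lit 23594759)))
(L (nat_lit 8259095)))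
(L (nat_lit 18028284)))
(L (nat_lit 6853554)))
(L (nat_lit 7192194)))
(L (nat_lit 26885290)))
(L (nat_lit 15632042)))
(L (nat_lit 30784532)))
(L (nat_lit 11090969)))
(L (nat_lit 4799705)))
(L (nat_lit 22265700)))
(S (nat_lit 37260) (S (nat_lit 56672) (L (nat_lit 6143563))
(L (nat_lit 28949510)))
(S (nat_lit 57024) (S (nat_lit 21507) (S (nat_lit 1199) (L (nat_lit 6976896))
(S (nat_lit 40564) (S (nat_lit 57086) (S (nat_lit 1229) (L (nat_lit 13370741))
(L (nat_lit 5881212)))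
(L (nat_lit 27934053)))
(L (nat_lit 8076380))))
(S (nat_lit 39923) (L (nat_lit 30129290))
(L (nat_lit 8142562))))
(L (nat_lit 25380576)))))
(S (nat_lit 40785) (S (nat_lit 986) (S (nat_lit 35098) (S (nat_lit 28554) (S (nat_lit 17496) (S (nat_lit 50477) (S (nat_lit 1743) (S (nat_lit 54868) (S (nat_lit 19828) (S (nat_lit 41514) (S (nat_lit 35148) (S (nat_lit 40562) (S (nat_lit 20979) (S (nat_lit 28526) (S (nat_lit 21739) (S (nat_lit 50527) (S (nat_lit 11363) (S (nat_lit 39553) (S (nat_lit 1765) (S (nat_lit 55166) (S (nat_lit 21512) (S (nat_lit 17709) (S (nat_lit 42806) (S (nat_lit 50076) (S (nat_lit 10618) (S (nat_lit 56917) (D (nat_lit 13) (nat_lit 31073700) (nat_lit 25765041) (nat_lit 3578918898887))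
(L (nat_lit 28984361)))
(L (nat_lit 31139296)))
(L (nat_lit 21096969)))
(L (nat_lit 4084233)))
(S (nat_lit 22070) (S (nat_lit 19554) (S (nat_lit 6752) (S (nat_lit 15196) (S (nat_lit 46565) (S (nat_lit 25781) (D (nat_lit 13) (nat_lit 30015724) (nat_lit 19306680) (nat_lit 2276339159267))
(L (nat_lit 27352584)))
(L (nat_lit 29903170)))
(L (nat_lit 28001604)))
(L (nat_lit 31174666)))
(L (nat_lit 28761347)))
(L (nat_lit 11613079))))
(L (nat_lit 7827011)))
(L (nat_lit 25016610)))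
(L (nat_lit 20508005)))
(L (nat_lit 12128828)))
(L (nat_lit 1882421)))
(L (nat_lit 10881689)))
(L (nat_lit 1844693)))
(L (nat_lit 3360531)))
(L (nat_lit 22374573)))
(L (nat_lit 17878793)))
(L (nat_lit 3522327)))
(L (nat_lit 343891)))
(L (nat_lit 3522141)))
(L (nat_lit 10901282)))
(L (nat_lit 10305250)))
(L (nat_lit 27309642)))
(L (nat_lit 802534)))
(L (nat_lit 10220960)))
(L (nat_lit 9158435)))
(L (nat_lit 19709121)))
(L (nat_lit 25678053)))))
(S (nat_lit 39570) (S (nat_lit 1975) (S (nat_lit 17543) (S (nat_lit 1944) (S (nat_lit 8762) (S (nat_lit 39592) (S (nat_lit 50488) (S (nat_lit 10977) (S (nat_lit 37274) (S (nat_lit 31) (S (nat_lit 57086) (S (nat_lit 50510) (S (nat_lit 57024) (S (nat_lit 21783) (S (nat_lit 8812) (S (nat_lit 8790) (S (nat_lit 2006) (S (nat_lit 50538) (S (nat_lit 10999) (S (nat_lit 15334) (S (nat_lit 40542) (S (nat_lit 54868) (S (nat_lit 40564) (S (nat_lit 35115) (S (nat_lit 972) (S (nat_lit 8197) (S (nat_lit 27735) (S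 (nat_lit 11816) (S (nat_lit 9598) (S (nat_lit 574) (S (nat_lit 1625) (S (nat_lit 1277) (S (nat_lit 27006) (S (nat_lit 35516) (D (nat_lit 11) (nat_lit 8145312) (nat_lit 25577827) (nat_lit 146132697088))
(L (nat_lit 27898082)))
(L (nat_lit 27865312)))
(S (nat_lit 9830) (S (nat_lit 40743) (S (nat_lit 51344) (S (nat_lit 36013) (S (nat_lit 54455) (S (nat_lit 54288) (D (nat_lit 13) (nat_lit 14436457) (nat_lit 5857551) (nat_lit 1107164137639))
(L (nat_lit 26659106)))
(L (nat_lit 12706408)))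
(L (nat_lit 9193861)))
(L (nat_lit 9193859)))
(L (nat_lit 25768195)))
(L (nat_lit 18900489))))
(L (nat_lit 29733541)))
(L (nat_lit 4410906)))
(L (nat_lit 28696099)))
(L (nat_lit 28630190)))
(L (nat_lit 13553920)))
(S (nat_lit 47635) (S (nat_lit 8366) (S (nat_lit 53864) (S (nat_lit 40818) (S (nat_lit 8685) (S (nat_lit 18436) (S (nat_lit 1568) (S (nat_lit 51282) (S (nat_lit 34496) (S (nat_lit 50567) (D (nat_lit 13) (nat_lit 27953484) (nat_lit 19666311) (nat_lit 5532158202984))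
(L (nat_lit 28397067)))
(L (nat_lit 28912165)))
(L (nat_lit 8483473)))
(L (nat_lit 27610128)))
(L (nat_lit 29995203)))
(S (nat_lit 20710) (S (nat_lit 924) (S (nat_lit 50129) (S (nat_lit 51832) (S (nat_lit 58953) (S (nat_lit 57484) (D (nat_lit 13) (nat_lit 30030180) (nat_lit 19666443) (nat_lit 71143003304))
(L (nat_lit 20324257)))
(L (nat_lit 30028843)))
(L (nat_lit 21836066)))
(L (nat_lit 21836032)))
(L (nat_lit 30029088)))
(L (nat_lit 9210260))))
(L (nat_lit 27580460)))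
(L (nat_lit 23095847)))
(L (nat_lit 7795267)))
(S (nat_lit 48673) (S (nat_lit 50838) (S (nat_lit 40166) (S (nat_lit 16978) (S (nat_lit 19196) (S (nat_lit 9355) (S (nat_lit 13955) (S (nat_lit 26520) (S (nat_lit 19607) (S (nat_lit 40743) (S (nat_lit 40345) (S (nat_lit 52316) (S (nat_lit 36985) (S (nat_lit 54288) (D (nat_lit 13) (nat_lit 13388067) (nat_lit 5857617) (nat_lit 2207781028007))
(L (nat_lit 26659106)))
(L (nat_lit 3950986)))
(L (nat_lit 3950984)))
(L (nat_lit 19276549)))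
(L (nat_lit 25768195)))
(S (nat_lit 46000) (S (nat_lit 52602) (S (nat_lit 1763) (D (nat_lit 11) (nat_lit 1919341) (nat_lit 3623691) (nat_lit 207683618))
(L (nat_lit 19805377)))
(L (nat_lit 29995361)))
(L (nat_lit 30971122))))
(L (nat_lit 3061078)))
(L (nat_lit 23425508)))
(L (nat_lit 19276955)))
(L (nat_lit 19296390)))
(L (nat_lit 19296482)))
(L (nat_lit 13315845)))
(L (nat_lit 21409541)))
(L (nat_lit 30771730)))))
(L (nat_lit 19701837)))
(L (nat_lit 31043751)))
(L (nat_lit 27998464)))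
(L (nat_lit 28000514)))
(L (nat_lit 27932962)))
(S (nat_lit 49222) (S (nat_lit 23013) (S (nat_lit 48761) (L (nat_lit 3357276))
(L (nat_lit 26850626)))
(L (nat_lit 26849538)))
(L (nat_lit 24914060))))
(L (nat_lit 467735)))
(L (nat_lit 12013440)))
(L (nat_lit 13919936)))
(L (nat_lit 8195572)))
(L (nat_lit 21145051)))
(L (nat_lit 31137932)))
(L (nat_lit 28024353)))
(L (nat_lit 22321006)))
(L (nat_lit 27663940)))
(L (nat_lit 26529219)))
(L (nat_lit 13673083)))
(L (nat_lit 6842516)))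
(L (nat_lit 11554265)))
(L (nat_lit 6039119)))
(L (nat_lit 7114133)))
(L (nat_lit 14462131)))
(S (nat_lit 37307) (S (nat_lit 1715) (S (nat_lit 37335) (S (nat_lit 35120) (L (nat_lit 12674389))
(L (nat_lit 20004089)))
(L (nat_lit 14013345)))
(S (nat_lit 34053) (L (nat_lit 30791169))
(L (nat_lit 13997724))))
(S (nat_lit 57071) (S (nat_lit 20783) (S (nat_lit 37324) (S (nat_lit 1701) (L (nat_lit 18950619))
(L (nat_lit 2532984)))
(L (nat_lit 30821571)))
(S (nat_lit 33098) (L (nat_lit 13675446))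
(L (nat_lit 22482203))))
(L (nat_lit 25432564)))))
(S (nat_lit 21739) (S (nat_lit 1019) (S (nat_lit 13009) (S (nat_lit 8790) (L (nat_lit 14229409))
(L (nat_lit 17637985)))
(S (nat_lit 40562) (S (nat_lit 8790) (S (nat_lit 40514) (L (nat_lit 6948283))
(L (nat_lit 23523497)))
(L (nat_lit 23933248)))
(L (nat_lit 27505377))))
(S (nat_lit 20783) (S (nat_lit 1732) (S (nat_lit 20811) (S (nat_lit 21512) (L (nat_lit 28779137))
(L (nat_lit 16423065)))
(L (nat_lit 16049171)))
(S (nat_lit 34511) (L (nat_lit 4962119))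
(L (nat_lit 2798939))))
(S (nat_lit 40547) (S (nat_lit 41254) (S (nat_lit 40768) (L (nat_lit 29480271))
(L (nat_lit 3065077)))
(L (nat_lit 9356341)))
(L (nat_lit 25665123)))))
(S (nat_lit 41503) (S (nat_lit 1991) (S (nat_lit 31) (S (nat_lit 1701) (S (nat_lit 54837) (S (nat_lit 54868) (S (nat_lit 1036) (L (nat_lit 1358773))
(L (nat_lit 18984750)))
(L (nat_lit 27657523)))
(L (nat_lit 27493845)))
(S (nat_lit 29638) (S (nat_lit 34343) (L (nat_lit 7127190))
(L (nat_lit 14469288)))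
(L (nat_lit 14470283))))
(S (nat_lit 26281) (L (nat_lit 27381158))
(L (nat_lit 12870274))))
(S (nat_lit 21755) (S (nat_lit 34281) (L (nat_lit 27376981))
(S (nat_lit 40564) (S (nat_lit 39592) (S (nat_lit 21733) (S (nat_lit 54868) (S (nat_lit 8790) (L (nat_lit 3973871))
(L (nat_lit 23390352)))
(L (nat_lit 14556771)))
(L (nat_lit 22473921)))
(L (nat_lit 10632825)))
(L (nat_lit 24156572))))
(S (nat_lit 41519) (S (nat_lit 64) (S (nat_lit 37322) (S (nat_lit 54879) (S (nat_lit 54868) (L (nat_lit 4930809))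
(L (nat_lit 27579473)))
(L (nat_lit 27577761)))
(L (nat_lit 17105497)))
(S (nat_lit 55430) (L (nat_lit 30585415))
(L (nat_lit 354740))))
(L (nat_lit 25320753)))))
(L (nat_lit 25677121)))))
(L (nat_lit 25448960)))))
(L (nat_lit 25316743)))))
(S (nat_lit 57066) (S (nat_lit 15371) (S (nat_lit 42) (S (nat_lit 997) (S (nat_lit 1034) (S (nat_lit 37324) (S (nat_lit 1246) (L (nat_lit 26627114))
(L (nat_lit 19031407)))
(S (nat_lit 40344) (L (nat_lit 19187616))
(L (nat_lit 9292845))))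
(S (nat_lit 20798) (S (nat_lit 37291) (S (nat_lit 28554) (L (nat_lit 17101508))
(L (nat_lit 19194273)))
(L (nat_lit 20186029)))
(S (nat_lit 40562) (S (nat_lit 30746) (S (nat_lit 1240) (L (nat_lit 1335861))
(L (nat_lit 13758709)))
(L (nat_lit 13722869)))
(L (nat_lit 25211623)))))
(S (nat_lit 20761) (S (nat_lit 15373) (S (nat_lit 41486) (S (nat_lit 31) (S (nat_lit 20750) (S (nat_lit 30774) (S (nat_lit 30699) (S (nat_lit 11807) (S (nat_lit 38226) (L (nat_lit 3392093))
(L (nat_lit 17950410)))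
(L (nat_lit 12467381)))
(L (nat_lit 14555777)))
(L (nat_lit 24460193)))
(L (nat_lit 22363041)))
(L (nat_lit 13928309)))
(L (nat_lit 604968)))
(S (nat_lit 35137) (S (nat_lit 18436) (L (nat_lit 20219421))
(S (nat_lit 37291) (S (nat_lit 15323) (S (nat_lit 2019) (S (nat_lit 20800) (S (nat_lit 54837) (S (nat_lit 30746) (S (nat_lit 26793) (L (nat_lit 5520088))
(L (nat_lit 29711532)))
(L (nat_lit 16863051)))
(L (nat_lit 14386087)))
(L (nat_lit 7075205)))
(L (nat_lit 20214211)))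
(L (nat_lit 842122)))
(L (nat_lit 30514893))))
(S (nat_lit 54901) (S (nat_lit 20979) (L (nat_lit 12126061))
(L (nat_lit 16326842)))
(L (nat_lit 25611491)))))
(S (nat_lit 40525) (S (nat_lit 1229) (S (nat_lit 40575) (S (nat_lit 37291) (L (nat_lit 29951182))
(L (nat_lit 30705171)))
(L (nat_lit 24240492)))
(S (nat_lit 20993) (S (nat_lit 39559) (S (nat_lit 15309) (S (nat_lit 40575) (L (nat_lit 20039033))
(L (nat_lit 16902514)))
(L (nat_lit 6752021)))
(L (nat_lit 27722037)))
(S (nat_lit 40757) (S (nat_lit 41304) (S (nat_lit 15356) (S (nat_lit 15309) (L (nat_lit 639782))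
(L (nat_lit 6751993)))
(L (nat_lit 1700047)))
(L (nat_lit 17066660)))
(L (nat_lit 25432534)))))
(L (nat_lit 25599092)))))
(S (nat_lit 19806) (S (nat_lit 17496) (S (nat_lit 8812) (S (nat_lit 8748) (S (nat_lit 20783) (S (nat_lit 15309) (S (nat_lit 41519) (L (nat_lit 20857895))
(L (nat_lit 6751095)))
(L (nat_lit 16974613)))
(S (nat_lit 40457) (L (nat_lit 6345644))
(L (nat_lit 6809185))))
(S (nat_lit 32821) (L (nat_lit 22845615))
(L (nat_lit 254486))))
(S (nat_lit 28576) (S (nat_lit 1036) (S (nat_lit 20783) (S (nat_lit 35115) (S (nat_lit 19828) (L (nat_lit 24291249))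
(L (nat_lit 9210447)))
(L (nat_lit 12881717)))
(L (nat_lit 7243377)))
(L (nat_lit 26328405)))
(S (nat_lit 48340) (S (nat_lit 21783) (S (nat_lit 28543) (S (nat_lit 54901) (S (nat_lit 39542) (S (nat_lit 41304) (L (nat_lit 29038086))
(L (nat_lit 18618546)))
(L (nat_lit 11091749)))
(L (nat_lit 16524339)))
(L (nat_lit 24190360)))
(S (nat_lit 40735) (L (nat_lit 514393))
(L (nat_lit 22547371))))
(L (nat_lit 25675971)))))
(S (nat_lit 37260) (S (nat_lit 75) (S (nat_lit 9089) (L (nat_lit 24001857))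
(S (nat_lit 40818) (S (nat_lit 54966) (L (nat_lit 19017243))
(L (nat_lit 25050278)))
(L (nat_lit 17918323))))
(S (nat_lit 19839) (S (nat_lit 2135) (S (nat_lit 40768) (L (nat_lit 18580395))
(L (nat_lit 27892815)))
(S (nat_lit 28587) (S (nat_lit 1944) (S (nat_lit 1229) (L (nat_lit 3497839))
(L (nat_lit 13751676)))
(L (nat_lit 3520306)))
(L (nat_lit 24262406))))
(S (nat_lit 39603) (S (nat_lit 1969) (S (nat_lit 28526) (S (nat_lit 10982) (S (nat_lit 17571) (S (nat_lit 54884) (S (nat_lit 8810) (S (nat_lit 21739) (S (nat_lit 23083) (S (nat_lit 35115) (L (nat_lit 5550844))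
(L (nat_lit 30519637)))
(S (nat_lit 31354) (S (nat_lit 35115) (L (nat_lit 15404377))
(L (nat_lit 12867770)))
(S (nat_lit 48276) (S (nat_lit 8790) (S (nat_lit 28587) (S (nat_lit 825) (L (nat_lit 3649243))
(S (nat_lit 19789) (S (nat_lit 35104) (S (nat_lit 54837) (S (nat_lit 1986) (S (nat_lit 2788) (L (nat_lit 4438746))
(L (nat_lit 10308620)))
(L (nat_lit 9930456)))
(L (nat_lit 11564784)))
(L (nat_lit 10060184)))
(L (nat_lit 21425320))))
(L (nat_lit 19031344)))
(L (nat_lit 8194672)))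
(L (nat_lit 16450813)))))
(L (nat_lit 31102407)))
(L (nat_lit 17717604)))
(L (nat_lit 27530989)))
(L (nat_lit 18183872)))
(L (nat_lit 18421546)))
(L (nat_lit 25044356)))
(L (nat_lit 10241109)))
(L (nat_lit 25498067)))))
(S (nat_lit 57024) (S (nat_lit 1240) (S (nat_lit 1229) (L (nat_lit 10932065))
(L (nat_lit 13895543)))
(S (nat_lit 21004) (S (nat_lit 10966) (S (nat_lit 1732) (L (nat_lit 15500661))
(L (nat_lit 19129519)))
(L (nat_lit 15802226)))
(S (nat_lit 40768) (S (nat_lit 21722) (S (nat_lit 48301) (L (nat_lit 20888932))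
(L (nat_lit 11587065)))
(L (nat_lit 15327456)))
(L (nat_lit 25271828)))))
(L (nat_lit 25410583)))))
(S (nat_lit 39570) (S (nat_lit 1969) (S (nat_lit 8762) (S (nat_lit 1246) (S (nat_lit 1732) (L (nat_lit 9836373))
(L (nat_lit 19358887)))
(S (nat_lit 40379) (L (nat_lit 27438831))
(L (nat_lit 13264225))))
(S (nat_lit 28526) (S (nat_lit 35087) (S (nat_lit 54884) (S (nat_lit 54868) (L (nat_lit 16647378))
(L (nat_lit 27368851)))
(L (nat_lit 19442596)))
(L (nat_lit 3852202)))
(S (nat_lit 48290) (S (nat_lit 54879) (S (nat_lit 57055) (L (nat_lit 27888138))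
(L (nat_lit 27581517)))
(L (nat_lit 11661749)))
(L (nat_lit 25366095)))))
(S (nat_lit 21733) (S (nat_lit 54851) (S (nat_lit 17496) (S (nat_lit 50510) (S (nat_lit 1975) (S (nat_lit 35120) (S (nat_lit 10949) (S (nat_lit 19839) (S (nat_lit 8762) (S (nat_lit 28574) (S (nat_lit 37335) (S (nat_lit 1958) (S (nat_lit 47) (S (nat_lit 10966) (S (nat_lit 54868) (S (nat_lit 8823) (S (nat_lit 37855) (L (nat_lit 5555801))
(L (nat_lit 19012088)))
(L (nat_lit 21426464)))
(L (nat_lit 11621948)))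
(L (nat_lit 6411085)))
(L (nat_lit 6373981)))
(S (nat_lit 21722) (S (nat_lit 48318) (S (nat_lit 17521) (S (nat_lit 8748) (S (nat_lit 50505) (S (nat_lit 14459) (L (nat_lit 14686909))
(L (nat_lit 15538226)))
(L (nat_lit 11268480)))
(L (nat_lit 6972929)))
(L (nat_lit 15930010)))
(L (nat_lit 27543969)))
(S (nat_lit 41486) (S (nat_lit 21755) (S (nat_lit 28543) (S (nat_lit 30699) (S (nat_lit 35148) (S (nat_lit 34025) (L (nat_lit 8570588))
(L (nat_lit 13915195)))
(L (nat_lit 3527598)))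
(L (nat_lit 24168326)))
(L (nat_lit 25084194)))
(L (nat_lit 31114530)))
(L (nat_lit 25770118)))))
(L (nat_lit 30789743)))
(L (nat_lit 18016629)))
(L (nat_lit 21808420)))
(L (nat_lit 21349280)))
(L (nat_lit 21538628)))
(L (nat_lit 23487716)))
(L (nat_lit 12018308)))
(L (nat_lit 4799402)))
(S (nat_lit 56871) (S (nat_lit 41200) (L (nat_lit 12501696))
(L (nat_lit 22845487)))
(L (nat_lit 1271349))))
(L (nat_lit 11199876)))
(S (nat_lit 41497) (S (nat_lit 1958) (S (nat_lit 1118) (L (nat_lit 14800249))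
(S (nat_lit 54868) (S (nat_lit 41271) (L (nat_lit 21904523))
(L (nat_lit 17618116)))
(L (nat_lit 27375894))))
(S (nat_lit 21722) (S (nat_lit 40525) (S (nat_lit 41254) (L (nat_lit 29956549))
(L (nat_lit 17160960)))
(L (nat_lit 27892782)))
(S (nat_lit 41486) (S (nat_lit 39592) (S (nat_lit 40564) (S (nat_lit 15384) (S (nat_lit 15309) (L (nat_lit 26885254))
(L (nat_lit 840942)))
(L (nat_lit 6738784)))
(L (nat_lit 17526923)))
(L (nat_lit 27643950)))
(L (nat_lit 25569334)))))
(L (nat_lit 25270804)))))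
(L (nat_lit 25240301)))))
(S (nat_lit 35135) (S (nat_lit 1034) (S (nat_lit 1215) (S (nat_lit 1047) (S (nat_lit 50494) (S (nat_lit 54868) (S (nat_lit 28587) (S (nat_lit 1975) (S (nat_lit 35148) (S (nat_lit 30774) (S (nat_lit 21041) (S (nat_lit 21695) (S (nat_lit 40500) (S (nat_lit 14) (S (nat_lit 39559) (S (nat_lit 41260) (S (nat_lit 28576) (S (nat_lit 40365) (S (nat_lit 20778) (S (nat_lit 40379) (S (nat_lit 21043) (S (nat_lit 20886) (S (nat_lit 43171) (S (nat_lit 43323) (S (nat_lit 43993) (S (nat_lit 6305) (S (nat_lit 6031) (S (nat_lit 53238) (D (nat_lit 13) (nat_lit 30953639) (nat_lit 25761289) (nat_lit 8905719742656))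
(L (nat_lit 28725601)))
(L (nat_lit 31077731)))
(L (nat_lit 31143235)))
(L (nat_lit 19394696)))
(L (nat_lit 19744004)))
(S (nat_lit 52752) (S (nat_lit 5830) (S (nat_lit 23257) (S (nat_lit 52739) (S (nat_lit 22802) (S (nat_lit 2883) (D (nat_lit 13) (nat_lit 30563663) (nat_lit 19664176) (nat_lit 8866997764097))
(L (nat_lit 31077669)))
(L (nat_lit 24517540)))
(L (nat_lit 22420225)))
(L (nat_lit 25047297)))
(L (nat_lit 30126372)))
(L (nat_lit 7496396))))
(L (nat_lit 26983716)))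
(L (nat_lit 22100875)))
(L (nat_lit 19250977)))
(L (nat_lit 5455666)))
(L (nat_lit 20851108)))
(L (nat_lit 8833048)))
(L (nat_lit 7228590)))
(L (nat_lit 24948994)))
(L (nat_lit 19670097)))
(L (nat_lit 27863116)))
(L (nat_lit 14393250)))
(L (nat_lit 4745929)))
(L (nat_lit 19260495)))
(L (nat_lit 12969045)))
(L (nat_lit 18932202)))
(L (nat_lit 19709184)))
(L (nat_lit 15991417)))
(L (nat_lit 22282681)))
(S (nat_lit 20811) (S (nat_lit 1701) (S (nat_lit 38665) (L (nat_lit 16871794))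
(L (nat_lit 22475106)))
(L (nat_lit 20222732)))
(S (nat_lit 40575) (L (nat_lit 17367946))
(L (nat_lit 25889997)))))
(S (nat_lit 20979) (S (nat_lit 1047) (S (nat_lit 50494) (S (nat_lit 54868) (S (nat_lit 21004) (S (nat_lit 1986) (S (nat_lit 21708) (S (nat_lit 21722) (S (nat_lit 54879) (S (nat_lit 1765) (S (nat_lit 48307) (S (nat_lit 28574) (S (nat_lit 50510) (S (nat_lit 39575) (S (nat_lit 14) (S (nat_lit 40818) (S (nat_lit 41547) (S (nat_lit 21507) (S (nat_lit 459) (S (nat_lit 19963) (S (nat_lit 19828) (S (nat_lit 5576) (S (nat_lit 41806) (S (nat_lit 4118) (D (nat_lit 11) (nat_lit 30593515) (nat_lit 25764974) (nat_lit 106438951104))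
(L (nat_lit 31142209)))
(L (nat_lit 19361928)))
(S (nat_lit 45979) (S (nat_lit 45029) (S (nat_lit 43571) (S (nat_lit 22360) (D (nat_lit 11) (nat_lit 26792132) (nat_lit 19670128) (nat_lit 173017122))
(L (nat_lit 19340033)))
(L (nat_lit 4021704)))
(L (nat_lit 4021737)))
(L (nat_lit 24002729))))
(L (nat_lit 30791043)))
(L (nat_lit 2414479)))
(L (nat_lit 4081901)))
(L (nat_lit 10665842)))
(L (nat_lit 24330395)))
(L (nat_lit 730924)))
(L (nat_lit 13214564)))
(L (nat_lit 18767076)))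
(L (nat_lit 12473358)))
(L (nat_lit 2922933)))
(L (nat_lit 16554563)))
(L (nat_lit 19807303)))
(L (nat_lit 13929053)))
(L (nat_lit 21099856)))
(L (nat_lit 22132555)))
(L (nat_lit 20785164)))
(L (nat_lit 21407588)))
(L (nat_lit 14549608)))
(L (nat_lit 20840872)))
(S (nat_lit 38422) (S (nat_lit 54950) (L (nat_lit 7926369))
(L (nat_lit 31045803)))
(L (nat_lit 11038899))))
(S (nat_lit 40743) (S (nat_lit 17510) (S (nat_lit 28587) (S (nat_lit 1047) (S (nat_lit 1732) (S (nat_lit 21010) (S (nat_lit 41291) (S (nat_lit 37335) (S (nat_lit 21465) (S (nat_lit 1986) (S (nat_lit 20783) (S (nat_lit 20767) (S (nat_lit 19826) (S (nat_lit 19839) (S (nat_lit 35137) (S (nat_lit 30763) (S (nat_lit 35148) (S (nat_lit 28574) (S (nat_lit 21490) (S (nat_lit 970) (S (nat_lit 40893) (S (nat_lit 4264) (S (nat_lit 45758) (S (nat_lit 43328) (S (nat_lit 3855) (D (nat_lit 11) (nat_lit 30562730) (nat_lit 25765381) (nat_lit 106438957062))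
(L (nat_lit 31112417)))
(L (nat_lit 10312131)))
(L (nat_lit 10312162)))
(S (nat_lit 34676) (S (nat_lit 5805) (S (nat_lit 42290) (S (nat_lit 3375) (D (nat_lit 11) (nat_lit 30591367) (nat_lit 25765317) (nat_lit 106473554112))
(L (nat_lit 29871426)))
(L (nat_lit 19333895)))
(L (nat_lit 29838659)))
(L (nat_lit 18542785))))
(L (nat_lit 19668141)))
(L (nat_lit 23993486)))
(L (nat_lit 11426341)))
(L (nat_lit 17984171)))
(L (nat_lit 20100870)))
(L (nat_lit 24295305)))
(L (nat_lit 18009993)))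
(L (nat_lit 9159584)))
(L (nat_lit 9156453)))
(L (nat_lit 969934)))
(L (nat_lit 967271)))
(L (nat_lit 3495852)))
(L (nat_lit 864875)))
(L (nat_lit 8984495)))
(L (nat_lit 27839747)))
(L (nat_lit 22983723)))
(L (nat_lit 19207023)))
(L (nat_lit 18924394)))
(L (nat_lit 24274310)))
(L (nat_lit 24952938)))
(L (nat_lit 25282984)))))
(S (nat_lit 20798) (S (nat_lit 17521) (S (nat_lit 972) (S (nat_lit 8762) (S (nat_lit 37324) (S (nat_lit 1944) (S (nat_lit 19826) (S (nat_lit 20783) (S (nat_lit 21722) (S (nat_lit 1776) (L (nat_lit 1262235))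
(L (nat_lit 20148397)))
(L (nat_lit 22417753)))
(L (nat_lit 7265665)))
(L (nat_lit 2831737)))
(L (nat_lit 19309752)))
(L (nat_lit 31000813)))
(S (nat_lit 28499) (S (nat_lit 28526) (L (nat_lit 9080590))
(L (nat_lit 24349081)))
(L (nat_lit 1876559))))
(S (nat_lit 40365) (S (nat_lit 31) (S (nat_lit 1701) (L (nat_lit 11547509))
(L (nat_lit 10228300)))
(S (nat_lit 39559) (S (nat_lit 36973) (L (nat_lit 1294939))
(L (nat_lit 12340737)))
(L (nat_lit 25270741))))
(L (nat_lit 13420866))))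
(S (nat_lit 37285) (S (nat_lit 40531) (S (nat_lit 972) (S (nat_lit 41503) (S (nat_lit 39559) (S (nat_lit 17543) (S (nat_lit 19826) (S (nat_lit 1986) (S (nat_lit 28587) (S (nat_lit 8773) (S (nat_lit 21770) (S (nat_lit 57099) (S (nat_lit 1944) (S (nat_lit 21722) (S (nat_lit 37324) (S (nat_lit 19811) (S (nat_lit 8812) (S (nat_lit 15351) (S (nat_lit 54868) (S (nat_lit 10935) (S (nat_lit 1047) (S (nat_lit 50527) (S (nat_lit 35087) (S (nat_lit 30746) (S (nat_lit 15384) (S (nat_lit 17558) (S (nat_lit 41497) (S (nat_lit 13104) (S (nat_lit 5503) (S (nat_lit 12000) (S (nat_lit 37124) (S (nat_lit 8744) (S (nat_lit 25024) (S (nat_lit 55187) (S (nat_lit 35281) (S (nat_lit 11821) (D (nat_lit 15) (nat_lit 29862532) (nat_lit 19194273) (nat_lit 212668126439))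
(L (nat_lit 29014091)))
(L (nat_lit 22985952)))
(L (nat_lit 29015360)))
(S (nat_lit 58628) (S (nat_lit 1246) (S (nat_lit 46538) (S (nat_lit 10127) (D (nat_lit 15) (nat_lit 16600234) (nat_lit 18997674) (nat_lit 3493894402))
(L (nat_lit 30757376)))
(L (nat_lit 19391840)))
(L (nat_lit 19772609)))
(L (nat_lit 28777556))))
(L (nat_lit 29886803)))
(L (nat_lit 21829647)))
(L (nat_lit 27924495)))
(L (nat_lit 27998405)))
(S (nat_lit 24781) (S (nat_lit 11578) (S (nat_lit 26550) (S (nat_lit 4973) (S (nat_lit 50819) (S (nat_lit 55469) (S (nat_lit 11384) (S (nat_lit 33772) (S (nat_lit 37367) (S (nat_lit 4730) (S (nat_lit 55509) (D (nat_lit 11) (nat_lit 9292325) (nat_lit 25769129) (nat_lit 277025557635))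
(L (nat_lit 24034593)))
(L (nat_lit 28982561)))
(S (nat_lit 49959) (S (nat_lit 4295) (S (nat_lit 55723) (D (nat_lit 15) (nat_lit 31000074) (nat_lit 25765281) (nat_lit 283568544933))
(L (nat_lit 2902411)))
(L (nat_lit 14469410)))
(L (nat_lit 5745524))))
(L (nat_lit 21271310)))
(L (nat_lit 29628076)))
(L (nat_lit 28465421)))
(L (nat_lit 29070636)))
(L (nat_lit 29005100)))
(L (nat_lit 2997958)))
(L (nat_lit 29014308)))
(S (nat_lit 42197) (S (nat_lit 54983) (S (nat_lit 51791) (S (nat_lit 51824) (S (nat_lit 11870) (S (nat_lit 25720) (S (nat_lit 55266) (S (nat_lit 37373) (S (nat_lit 27765) (S (nat_lit 55029) (D (nat_lit 13) (nat_lit 29446447) (nat_lit 11285682) (nat_lit 6708973898786))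
(L (nat_lit 23653668)))
(L (nat_lit 21871905)))
(S (nat_lit 49473) (S (nat_lit 55723) (S (nat_lit 4295) (D (nat_lit 15) (nat_lit 31000074) (nat_lit 25764909) (nat_lit 283568544933))
(L (nat_lit 14469224)))
(L (nat_lit 9193861)))
(L (nat_lit 26843246))))
(L (nat_lit 9921093)))
(L (nat_lit 23159178)))
(L (nat_lit 29442727)))
(L (nat_lit 10292940)))
(L (nat_lit 10377324)))
(L (nat_lit 22376897)))
(L (nat_lit 12672312)))))
(L (nat_lit 23380740)))
(L (nat_lit 22439268)))
(L (nat_lit 25072942)))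
(L (nat_lit 3059340)))
(L (nat_lit 2318959)))
(L (nat_lit 11694578)))
(L (nat_lit 4447084)))
(L (nat_lit 18619412)))
(L (nat_lit 19184419)))
(L (nat_lit 24210766)))
(L (nat_lit 23456195)))
(L (nat_lit 9102757)))
(L (nat_lit 9046520)))
(L (nat_lit 1653083)))
(L (nat_lit 19183395)))
(L (nat_lit 27922854)))
(L (nat_lit 8243217)))
(L (nat_lit 23294092)))
(L (nat_lit 24940814)))
(L (nat_lit 20424729)))
(L (nat_lit 3001898)))
(L (nat_lit 7424814)))
(L (nat_lit 11619801)))
(L (nat_lit 8909973)))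
(L (nat_lit 20754506)))
(S (nat_lit 48725) (L (nat_lit 7123589))
(L (nat_lit 18649461))))
(S (nat_lit 57049) (S (nat_lit 47) (S (nat_lit 21043) (S (nat_lit 21529) (S (nat_lit 30774) (L (nat_lit 22060444))
(L (nat_lit 19769857)))
(L (nat_lit 8225358)))
(S (nat_lit 30593) (S (nat_lit 35294) (L (nat_lit 20377639))
(L (nat_lit 22147466)))
(L (nat_lit 16559285))))
(S (nat_lit 19811) (S (nat_lit 28526) (S (nat_lit 1701) (L (nat_lit 2609528))
(L (nat_lit 12161433)))
(L (nat_lit 30624132)))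
(S (nat_lit 39575) (S (nat_lit 21529) (S (nat_lit 21043) (L (nat_lit 26229321))
(L (nat_lit 21806340)))
(L (nat_lit 21806373)))
(L (nat_lit 25445399)))))
(L (nat_lit 25743682)))))
(S (nat_lit 40562) (S (nat_lit 42) (S (nat_lit 15356) (S (nat_lit 21010) (S (nat_lit 21496) (S (nat_lit 10999) (L (nat_lit 5616282))
(L (nat_lit 926349)))
(L (nat_lit 799989)))
(L (nat_lit 7091253)))
(S (nat_lit 35120) (S (nat_lit 1047) (S (nat_lit 2019) (S (nat_lit 54868) (S (nat_lit 1003) (L (nat_lit 5554844))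
(L (nat_lit 20389915)))
(L (nat_lit 27549059)))
(L (nat_lit 13523269)))
(L (nat_lit 19402105)))
(S (nat_lit 54884) (S (nat_lit 20979) (S (nat_lit 50505) (S (nat_lit 20736) (S (nat_lit 20339) (L (nat_lit 597562))
(L (nat_lit 11646839)))
(L (nat_lit 21391620)))
(L (nat_lit 27375271)))
(S (nat_lit 53799) (L (nat_lit 7224339))
(L (nat_lit 6410060))))
(L (nat_lit 25571044)))))
(S (nat_lit 19806) (S (nat_lit 17496) (S (nat_lit 8748) (S (nat_lit 35073) (S (nat_lit 56895) (L (nat_lit 16915193))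
(L (nat_lit 22551297)))
(S (nat_lit 42785) (L (nat_lit 12781397))
(L (nat_lit 3699431))))
(S (nat_lit 53591) (L (nat_lit 550534))
(L (nat_lit 466740))))
(S (nat_lit 37260) (S (nat_lit 19826) (S (nat_lit 8810) (S (nat_lit 28587) (S (nat_lit 30724) (S (nat_lit 35098) (S (nat_lit 17527) (S (nat_lit 21739) (S (nat_lit 20783) (S (nat_lit 41472) (S (nat_lit 50494) (S (nat_lit 39542) (S (nat_lit 37324) (S (nat_lit 28526) (S (nat_lit 1003) (S (nat_lit 40525) (S (nat_lit 19789) (S (nat_lit 8790) (S (nat_lit 50538) (S (nat_lit 54912) (S (nat_lit 10982) (S (nat_lit 21783) (S (nat_lit 15356) (S (nat_lit 20800) (S (nat_lit 57086) (S (nat_lit 37307) (S (nat_lit 5287) (S (nat_lit 51793) (S (nat_lit 23266) (S (nat_lit 15055) (S (nat_lit 24814) (S (nat_lit 56479) (S (nat_lit 16624) (S (nat_lit 34565) (S (nat_lit 19175) (S (nat_lit 23023) (S (nat_lit 50435) (D (nat_lit 11) (nat_lit 16657090) (nat_lit 1598025) (nat_lit 213813235781))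
(L (nat_lit 26816837)))
(L (nat_lit 26850629)))
(S (nat_lit 31886) (S (nat_lit 50075) (S (nat_lit 18683) (D (nat_lit 15) (nat_lit 31142210) (nat_lit 25282892) (nat_lit 110662619272))
(L (nat_lit 31142177)))
(L (nat_lit 28979456)))
(L (nat_lit 29959246))))
(L (nat_lit 22573224)))
(L (nat_lit 23261643)))
(L (nat_lit 8309120)))
(L (nat_lit 15836052)))
(L (nat_lit 17947530)))
(L (nat_lit 16603243)))
(L (nat_lit 16668866)))
(S (nat_lit 11410) (S (nat_lit 7206) (S (nat_lit 16714) (S (nat_lit 31322) (S (nat_lit 53795) (S (nat_lit 26959) (S (nat_lit 14552) (S (nat_lit 3760) (S (nat_lit 50075) (S (nat_lit 18683) (D (nat_lit 15) (nat_lit 27963403) (nat_lit 18997642) (nat_lit 39931907175))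
(L (nat_lit 31142177)))
(L (nat_lit 28979456)))
(S (nat_lit 45930) (S (nat_lit 3290) (D (nat_lit 13) (nat_lit 25854374) (nat_lit 19307640) (nat_lit 7589793028))
(L (nat_lit 27966473)))
(L (nat_lit 28706535))))
(L (nat_lit 29723280)))
(L (nat_lit 28330440)))
(L (nat_lit 20103017)))
(L (nat_lit 22482826)))
(L (nat_lit 29414732)))
(L (nat_lit 27285031)))
(S (nat_lit 52608) (S (nat_lit 52365) (S (nat_lit 12024) (S (nat_lit 32615) (S (nat_lit 35064) (S (nat_lit 51276) (S (nat_lit 1229) (S (nat_lit 25780) (S (nat_lit 41229) (D (nat_lit 13) (nat_lit 27870379) (nat_lit 25767459) (nat_lit 6776659417219))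
(L (nat_lit 17739364)))
(L (nat_lit 27777253)))
(S (nat_lit 42075) (S (nat_lit 57435) (S (nat_lit 9150) (D (nat_lit 15) (nat_lit 27743303) (nat_lit 11717388) (nat_lit 208344712224))
(L (nat_lit 28813366)))
(L (nat_lit 24034661)))
(L (nat_lit 20317405))))
(L (nat_lit 16388317)))
(L (nat_lit 15576087)))
(L (nat_lit 3914536)))
(L (nat_lit 24647466)))
(L (nat_lit 24652581)))
(L (nat_lit 29992045)))))
(L (nat_lit 8918715)))
(L (nat_lit 21165422)))
(L (nat_lit 21796174)))
(L (nat_lit 24426277)))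
(L (nat_lit 7366316)))
(L (nat_lit 7451413)))
(L (nat_lit 21474080)))
(L (nat_lit 15379232)))
(L (nat_lit 421543)))
(L (nat_lit 9460591)))
(L (nat_lit 18180800)))
(L (nat_lit 8883061)))
(L (nat_lit 31139204)))
(L (nat_lit 9621389)))
(L (nat_lit 24569125)))
(L (nat_lit 22453337)))
(L (nat_lit 27708773)))
(L (nat_lit 22406529)))
(L (nat_lit 31106191)))
(L (nat_lit 18553699)))
(L (nat_lit 2965129)))
(L (nat_lit 2971081)))
(L (nat_lit 9227649)))
(L (nat_lit 24000868)))
(L (nat_lit 10219697)))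
(S (nat_lit 57024) (S (nat_lit 38210) (L (nat_lit 16571527))
(S (nat_lit 48318) (S (nat_lit 54868) (S (nat_lit 50494) (S (nat_lit 40774) (L (nat_lit 28917802))
(L (nat_lit 18763108)))
(L (nat_lit 27368887)))
(L (nat_lit 27369073)))
(L (nat_lit 4616564))))
(L (nat_lit 25744390)))))
(S (nat_lit 39570) (S (nat_lit 1036) (S (nat_lit 1047) (S (nat_lit 1776) (S (nat_lit 1765) (L (nat_lit 1294197))
(L (nat_lit 20199579)))
(S (nat_lit 40893) (S (nat_lit 35148) (L (nat_lit 18585451))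
(L (nat_lit 9049872)))
(L (nat_lit 14413993))))
(S (nat_lit 48725) (L (nat_lit 13337817))
(L (nat_lit 19460450))))
(S (nat_lit 20800) (S (nat_lit 15510) (S (nat_lit 21479) (L (nat_lit 13947779))
(L (nat_lit 22320913)))
(S (nat_lit 21004) (S (nat_lit 20979) (L (nat_lit 8098232))
(L (nat_lit 21328045)))
(L (nat_lit 21098022))))
(S (nat_lit 40564) (S (nat_lit 15351) (S (nat_lit 41254) (L (nat_lit 27570816))
(L (nat_lit 23151367)))
(S (nat_lit 35115) (S (nat_lit 35120) (S (nat_lit 28543) (L (nat_lit 13553984))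
(L (nat_lit 2519624)))
(L (nat_lit 20210703)))
(S (nat_lit 54879) (S (nat_lit 50505) (S (nat_lit 30774) (S (nat_lit 21739) (L (nat_lit 12670730))
(L (nat_lit 10964897)))
(L (nat_lit 19217153)))
(L (nat_lit 27571380)))
(L (nat_lit 25889254)))))
(L (nat_lit 25898063)))))
(L (nat_lit 25645409)))))
(L (nat_lit 25897009)))))
(S (nat_lit 54899) (S (nat_lit 1748) (S (nat_lit 1003) (S (nat_lit 21798) (L (nat_lit 6908292))
(S (nat_lit 28537) (S (nat_lit 20979) (S (nat_lit 62) (S (nat_lit 1279) (L (nat_lit 19980713))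
(L (nat_lit 14603371)))
(L (nat_lit 19824977)))
(S (nat_lit 42861) (L (nat_lit 20099448))
(L (nat_lit 22147466))))
(L (nat_lit 2970988))))
(S (nat_lit 20767) (S (nat_lit 15351) (S (nat_lit 1975) (S (nat_lit 20783) (S (nat_lit 28587) (L (nat_lit 13474373))
(L (nat_lit 31035783)))
(L (nat_lit 6776385)))
(L (nat_lit 12422799)))
(S (nat_lit 35115) (S (nat_lit 1229) (S (nat_lit 28537) (L (nat_lit 10908225))
(L (nat_lit 2968940)))
(L (nat_lit 19694960)))
(S (nat_lit 54879) (S (nat_lit 37335) (S (nat_lit 30741) (S (nat_lit 25) (S (nat_lit 1290) (L (nat_lit 13833013))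
(L (nat_lit 19842405)))
(L (nat_lit 19678563)))
(L (nat_lit 19827057)))
(S (nat_lit 47662) (L (nat_lit 19121305))
(L (nat_lit 13980416))))
(L (nat_lit 25889254)))))
(S (nat_lit 40531) (S (nat_lit 1229) (S (nat_lit 28537) (S (nat_lit 21540) (S (nat_lit 62) (S (nat_lit 37322) (L (nat_lit 29926421))
(L (nat_lit 2770731)))
(L (nat_lit 576893)))
(L (nat_lit 6022601)))
(L (nat_lit 13454690)))
(L (nat_lit 14472544)))
(L (nat_lit 25381039)))))
(S (nat_lit 21512) (S (nat_lit 62) (S (nat_lit 40757) (S (nat_lit 20811) (S (nat_lit 54868) (S (nat_lit 21490) (S (nat_lit 1958) (L (nat_lit 30494063))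
(L (nat_lit 12374065)))
(L (nat_lit 21890602)))
(L (nat_lit 12367955)))
(L (nat_lit 31130989)))
(L (nat_lit 17953142)))
(L (nat_lit 19838309)))
(S (nat_lit 41276) (S (nat_lit 8762) (S (nat_lit 20811) (S (nat_lit 20993) (S (nat_lit 28537) (S (nat_lit 62) (S (nat_lit 39559) (L (nat_lit 29787786))
(L (nat_lit 5519252)))
(L (nat_lit 19826032)))
(L (nat_lit 24145260)))
(L (nat_lit 21094768)))
(S (nat_lit 40467) (L (nat_lit 21152682))
(L (nat_lit 7127218))))
(S (nat_lit 28526) (S (nat_lit 62) (S (nat_lit 28537) (S (nat_lit 40790) (S (nat_lit 20993) (S (nat_lit 30774) (S (nat_lit 57071) (L (nat_lit 24514938))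
(L (nat_lit 21403498)))
(L (nat_lit 10138528)))
(L (nat_lit 7157910)))
(S (nat_lit 51773) (L (nat_lit 8258129))
(L (nat_lit 18488442))))
(L (nat_lit 3814781)))
(S (nat_lit 47880) (S (nat_lit 23133) (L (nat_lit 10014629))
(L (nat_lit 19031594)))
(L (nat_lit 13821643))))
(S (nat_lit 48290) (S (nat_lit 50538) (S (nat_lit 54851) (S (nat_lit 40564) (S (nat_lit 57099) (S (nat_lit 42) (S (nat_lit 28587) (L (nat_lit 26481077))
(L (nat_lit 30758273)))
(L (nat_lit 20390072)))
(L (nat_lit 4874513)))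
(L (nat_lit 8089989)))
(L (nat_lit 27479428)))
(L (nat_lit 5616221)))
(L (nat_lit 25207533)))))
(L (nat_lit 25661032)))))
(L (nat_lit 25827812)))))
(L (nat_lit 25248117)))))
(L (nat_lit 25728243)))

theorem rb246_0_23 : run 4 lb246 [] tb246_0_23 kb246 [0, 41536, 30761] [8795, 28559] = true := by
  decide +kernel

noncomputable def tb246_0_4 : Tr :=
(S (nat_lit 1277) (S (nat_lit 986) (S (nat_lit 75) (S (nat_lit 17543) (L (nat_lit 30091781))
(S (nat_lit 37307) (S (nat_lit 1034) (S (nat_lit 45952) (L (nat_lit 17502524))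
(S (nat_lit 48301) (L (nat_lit 5974489))
(L (nat_lit 14586231))))
(S (nat_lit 14237) (L (nat_lit 29928037))
(L (nat_lit 20047088))))
(S (nat_lit 57071) (L (nat_lit 5974552))
(L (nat_lit 25800165)))))
(S (nat_lit 19839) (S (nat_lit 1014) (S (nat_lit 17558) (S (nat_lit 52488) (L (nat_lit 18935024))
(S (nat_lit 54837) (S (nat_lit 1958) (S (nat_lit 28587) (L (nat_lit 3561351))
(L (nat_lit 13473511)))
(L (nat_lit 12971158)))
(L (nat_lit 13856480))))
(S (nat_lit 37322) (S (nat_lit 41600) (S (nat_lit 1257) (L (nat_lit 24306925))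
(L (nat_lit 14291850)))
(S (nat_lit 48323) (S (nat_lit 1958) (S (nat_lit 1215) (S (nat_lit 1732) (S (nat_lit 62) (S (nat_lit 1726) (L (nat_lit 18953434))
(L (nat_lit 19329216)))
(L (nat_lit 19203985)))
(L (nat_lit 26456736)))
(L (nat_lit 13210968)))
(L (nat_lit 10257879)))
(L (nat_lit 20000621))))
(S (nat_lit 57086) (S (nat_lit 1958) (S (nat_lit 35148) (S (nat_lit 28559) (S (nat_lit 1748) (S (nat_lit 1215) (S (nat_lit 57055) (L (nat_lit 30528781))
(L (nat_lit 6084009)))
(L (nat_lit 26618467)))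
(L (nat_lit 20093744)))
(L (nat_lit 3429849)))
(L (nat_lit 20102458)))
(S (nat_lit 21163) (L (nat_lit 19262976))
(L (nat_lit 14020226))))
(L (nat_lit 25761966)))))
(S (nat_lit 20778) (S (nat_lit 1047) (S (nat_lit 51663) (S (nat_lit 41503) (L (nat_lit 18571434))
(L (nat_lit 3026575)))
(S (nat_lit 54868) (S (nat_lit 1257) (S (nat_lit 57949) (L (nat_lit 23401356))
(L (nat_lit 26945989)))
(L (nat_lit 4045107)))
(L (nat_lit 18946865))))
(S (nat_lit 20811) (S (nat_lit 2088) (L (nat_lit 26781747))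
(S (nat_lit 21507) (S (nat_lit 41503) (S (nat_lit 41293) (S (nat_lit 41514) (S (nat_lit 37335) (L (nat_lit 17508445))
(L (nat_lit 14291258)))
(L (nat_lit 681229)))
(L (nat_lit 3895687)))
(L (nat_lit 27956711)))
(L (nat_lit 14691122))))
(S (nat_lit 40575) (S (nat_lit 35981) (L (nat_lit 26760199))
(S (nat_lit 41293) (S (nat_lit 41503) (S (nat_lit 21708) (S (nat_lit 40785) (S (nat_lit 8812) (L (nat_lit 1340946))
(L (nat_lit 23995843)))
(L (nat_lit 17879818)))
(L (nat_lit 22951203)))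
(L (nat_lit 9324993)))
(L (nat_lit 28022183))))
(L (nat_lit 25888202)))))
(S (nat_lit 40542) (S (nat_lit 62) (S (nat_lit 15384) (S (nat_lit 50494) (S (nat_lit 50477) (S (nat_lit 41293) (L (nat_lit 28846691))
(L (nat_lit 23618912)))
(L (nat_lit 19937162)))
(L (nat_lit 20858147)))
(S (nat_lit 35148) (S (nat_lit 2006) (S (nat_lit 1944) (L (nat_lit 26229042))
(L (nat_lit 20321592)))
(L (nat_lit 13309213)))
(S (nat_lit 54912) (S (nat_lit 35098) (S (nat_lit 1763) (S (nat_lit 1944) (L (nat_lit 21017948))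
(L (nat_lit 26842413)))
(L (nat_lit 20882979)))
(L (nat_lit 9155768)))
(L (nat_lit 25506901)))))
(S (nat_lit 19826) (S (nat_lit 7915) (S (nat_lit 35115) (S (nat_lit 54862) (L (nat_lit 30428551))
(L (nat_lit 14325116)))
(L (nat_lit 9998199)))
(S (nat_lit 57066) (S (nat_lit 35115) (S (nat_lit 30713) (S (nat_lit 1726) (S (nat_lit 1743) (L (nat_lit 26580717))
(L (nat_lit 5057261)))
(L (nat_lit 13727431)))
(L (nat_lit 8948501)))
(L (nat_lit 18571431)))
(L (nat_lit 4744774))))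
(S (nat_lit 39590) (S (nat_lit 25036) (L (nat_lit 2931435))
(S (nat_lit 28526) (S (nat_lit 37274) (S (nat_lit 1944) (S (nat_lit 37291) (L (nat_lit 9025409))
(L (nat_lit 19995165)))
(L (nat_lit 26848365)))
(L (nat_lit 8408844)))
(L (nat_lit 9324653))))
(L (nat_lit 25545252)))))
(L (nat_lit 25341490)))))
(S (nat_lit 39603) (S (nat_lit 15371) (S (nat_lit 28537) (L (nat_lit 731610))
(L (nat_lit 13314850)))
(S (nat_lit 35135) (S (nat_lit 42) (S (nat_lit 48351) (S (nat_lit 57099) (S (nat_lit 37285) (L (nat_lit 21474457))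
(L (nat_lit 19937661)))
(L (nat_lit 13244294)))
(L (nat_lit 20420486)))
(S (nat_lit 4578) (S (nat_lit 6765) (L (nat_lit 12949397))
(L (nat_lit 20213248)))
(L (nat_lit 12866432))))
(S (nat_lit 54899) (S (nat_lit 17571) (S (nat_lit 48276) (L (nat_lit 26448493))
(L (nat_lit 14359579)))
(S (nat_lit 37335) (S (nat_lit 1986) (S (nat_lit 28537) (S (nat_lit 64) (L (nat_lit 19273510))
(L (nat_lit 13553673)))
(L (nat_lit 13309800)))
(S (nat_lit 31027) (L (nat_lit 895442))
(L (nat_lit 20156952))))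
(S (nat_lit 57099) (S (nat_lit 42) (S (nat_lit 1763) (S (nat_lit 1726) (S (nat_lit 48351) (S (nat_lit 1014) (L (nat_lit 20878605))
(L (nat_lit 2568083)))
(L (nat_lit 22877574)))
(L (nat_lit 19307429)))
(L (nat_lit 12784349)))
(S (nat_lit 17610) (L (nat_lit 2748935))
(L (nat_lit 13751640))))
(L (nat_lit 25577729)))))
(L (nat_lit 25837893)))))
(L (nat_lit 25904384)))))
(S (nat_lit 20750) (S (nat_lit 10977) (S (nat_lit 15323) (S (nat_lit 10935) (S (nat_lit 28574) (S (nat_lit 37322) (L (nat_lit 3396495))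
(L (nat_lit 10278060)))
(L (nat_lit 10270899)))
(S (nat_lit 30699) (S (nat_lit 31124) (S (nat_lit 48323) (L (nat_lit 26258093))
(L (nat_lit 20491109)))
(S (nat_lit 37307) (S (nat_lit 28559) (L (nat_lit 20507873))
(L (nat_lit 3725194)))
(L (nat_lit 3878796))))
(S (nat_lit 50463) (S (nat_lit 8795) (S (nat_lit 40818) (L (nat_lit 24208593))
(L (nat_lit 16787131)))
(S (nat_lit 48242) (L (nat_lit 24126939))
(L (nat_lit 26973642))))
(L (nat_lit 25745601)))))
(S (nat_lit 35087) (S (nat_lit 22106) (L (nat_lit 7739001))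
(S (nat_lit 37307) (S (nat_lit 41293) (S (nat_lit 1246) (L (nat_lit 20157916))
(L (nat_lit 12798011)))
(L (nat_lit 3724668)))
(L (nat_lit 14362681))))
(S (nat_lit 54851) (S (nat_lit 1732) (S (nat_lit 1019) (S (nat_lit 19839) (S (nat_lit 15384) (S (nat_lit 41293) (S (nat_lit 50527) (S (nat_lit 15371) (S (nat_lit 40757) (S (nat_lit 21026) (S (nat_lit 41497) (S (nat_lit 50538) (S (nat_lit 54837) (S (nat_lit 30699) (S (nat_lit 21739) (S (nat_lit 10966) (S (nat_lit 1036) (S (nat_lit 37285) (L (nat_lit 1496443))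
(L (nat_lit 23990728)))
(S (nat_lit 20800) (S (nat_lit 40531) (S (nat_lit 28512) (L (nat_lit 8436476))
(L (nat_lit 18573504)))
(L (nat_lit 23081766)))
(S (nat_lit 40564) (S (nat_lit 20761) (S (nat_lit 21021) (S (nat_lit 40743) (S (nat_lit 39559) (S (nat_lit 19828) (S (nat_lit 2006) (S (nat_lit 41304) (S (nat_lit 39575) (S (nat_lit 40768) (S (nat_lit 25) (S (nat_lit 21750) (S (nat_lit 15373) (S (nat_lit 2019) (S (nat_lit 35104) (S (nat_lit 1014) (S (nat_lit 18090) (S (nat_lit 37848) (S (nat_lit 30454) (S (nat_lit 23754) (S (nat_lit 18104) (S (nat_lit 49458) (S (nat_lit 50947) (S (nat_lit 52515) (S (nat_lit 8721) (D (nat_lit 11) (nat_lit 17615911) (nat_lit 8145008) (nat_lit 42077389059))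
(L (nat_lit 31043875)))
(L (nat_lit 28947681)))
(S (nat_lit 56006) (S (nat_lit 20858) (S (nat_lit 50309) (D (nat_lit 13) (nat_lit 12339276) (nat_lit 8505106) (nat_lit 7839528779840))
(L (nat_lit 21168910)))
(L (nat_lit 26884289)))
(L (nat_lit 4609865))))
(L (nat_lit 29761253)))
(L (nat_lit 27693362)))
(L (nat_lit 14555154)))
(L (nat_lit 27695122)))
(L (nat_lit 13455653)))
(S (nat_lit 45785) (S (nat_lit 57875) (S (nat_lit 48458) (S (nat_lit 39111) (S (nat_lit 48453) (S (nat_lit 38382) (S (nat_lit 54810) (S (nat_lit 41470) (S (nat_lit 34996) (D (nat_lit 13) (nat_lit 10242189) (nat_lit 10665746) (nat_lit 5780228145184))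
(L (nat_lit 14877462)))
(L (nat_lit 26951873)))
(S (nat_lit 58935) (S (nat_lit 9367) (S (nat_lit 54258) (D (nat_lit 11) (nat_lit 25545869) (nat_lit 3760495) (nat_lit 244813275138))
(L (nat_lit 13454532)))
(L (nat_lit 27866465)))
(L (nat_lit 26352151))))
(L (nat_lit 28554882)))
(L (nat_lit 13473108)))
(L (nat_lit 28710475)))
(L (nat_lit 13489227)))
(L (nat_lit 15925880)))
(S (nat_lit 48351) (S (nat_lit 17560) (S (nat_lit 37307) (S (nat_lit 57038) (S (nat_lit 13224) (S (nat_lit 12725) (S (nat_lit 9809) (S (nat_lit 37459) (D (nat_lit 11) (nat_lit 27482660) (nat_lit 25767022) (nat_lit 212877903009))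
(L (nat_lit 3067433)))
(L (nat_lit 27920873)))
(L (nat_lit 27920840)))
(S (nat_lit 40346) (S (nat_lit 6738) (S (nat_lit 19622) (S (nat_lit 16690) (S (nat_lit 53529) (D (nat_lit 13) (nat_lit 30855365) (nat_lit 25544817) (nat_lit 3303000968257))
(L (nat_lit 28916002)))
(L (nat_lit 31176897)))
(L (nat_lit 29542886)))
(L (nat_lit 29804897)))
(L (nat_lit 28715127))))
(L (nat_lit 4417134)))
(L (nat_lit 2747882)))
(L (nat_lit 16655074)))
(L (nat_lit 14278758)))))
(L (nat_lit 20814370)))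
(L (nat_lit 23869512)))
(L (nat_lit 19427653)))
(L (nat_lit 7261201)))
(L (nat_lit 8025165)))
(L (nat_lit 19671587)))
(L (nat_lit 23249148)))
(L (nat_lit 23997860)))
(L (nat_lit 17534857)))
(L (nat_lit 10400855)))
(L (nat_lit 9983875)))
(L (nat_lit 12203907)))
(L (nat_lit 10401347)))
(L (nat_lit 12506659)))
(L (nat_lit 12468276)))
(L (nat_lit 25466479)))))
(L (nat_lit 23184698)))
(L (nat_lit 16533543)))
(L (nat_lit 9062272)))
(L (nat_lit 18904583)))
(L (nat_lit 4893211)))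
(L (nat_lit 967957)))
(L (nat_lit 22179207)))
(L (nat_lit 10056160)))
(L (nat_lit 26542578)))
(L (nat_lit 13443090)))
(L (nat_lit 3429295)))
(L (nat_lit 26814848)))
(L (nat_lit 3878829)))
(L (nat_lit 19941161)))
(S (nat_lit 21433) (L (nat_lit 12783229))
(L (nat_lit 13887109))))
(L (nat_lit 25211156)))))
(S (nat_lit 30741) (S (nat_lit 17571) (S (nat_lit 21437) (S (nat_lit 54912) (L (nat_lit 19824849))
(L (nat_lit 13965019)))
(S (nat_lit 57024) (S (nat_lit 21490) (S (nat_lit 41497) (S (nat_lit 1019) (S (nat_lit 37302) (S (nat_lit 40562) (S (nat_lit 54912) (S (nat_lit 21739) (S (nat_lit 21043) (S (nat_lit 1776) (S (nat_lit 972) (S (nat_lit 54868) (S (nat_lit 43265) (S (nat_lit 37322) (S (nat_lit 48307) (S (nat_lit 39590) (S (nat_lit 45086) (S (nat_lit 48290) (S (nat_lit 11650) (S (nat_lit 20479) (S (nat_lit 52360) (S (nat_lit 3095) (S (nat_lit 50904) (S (nat_lit 30123) (D (nat_lit 13) (nat_lit 26850475) (nat_lit 18997670) (nat_lit 8797275955429))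
(L (nat_lit 22519834)))
(L (nat_lit 30122161)))
(L (nat_lit 29709732)))
(L (nat_lit 30129348)))
(L (nat_lit 28032354)))
(S (nat_lit 18649) (S (nat_lit 45270) (S (nat_lit 28847) (S (nat_lit 16390) (S (nat_lit 2913) (D (nat_lit 13) (nat_lit 31132075) (nat_lit 599823) (nat_lit 208345765925))
(L (nat_lit 29796435)))
(L (nat_lit 27896256)))
(L (nat_lit 20852929)))
(L (nat_lit 19738977)))
(L (nat_lit 31098125))))
(L (nat_lit 15977253)))
(L (nat_lit 6818614)))
(L (nat_lit 24904235)))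
(L (nat_lit 14456951)))
(L (nat_lit 9007492)))
(L (nat_lit 10032602)))
(L (nat_lit 14472297)))
(L (nat_lit 13918354)))
(L (nat_lit 12846777)))
(L (nat_lit 30725230)))
(L (nat_lit 15649831)))
(L (nat_lit 16324487)))
(L (nat_lit 10012792)))
(L (nat_lit 3880742)))
(L (nat_lit 13471303)))
(L (nat_lit 27853319)))
(L (nat_lit 5893671)))
(L (nat_lit 18902225))))
(S (nat_lit 37335) (S (nat_lit 28587) (S (nat_lit 41293) (S (nat_lit 12787) (S (nat_lit 15351) (S (nat_lit 50463) (S (nat_lit 35073) (S (nat_lit 37291) (S (nat_lit 19778) (S (nat_lit 64) (S (nat_lit 52024) (S (nat_lit 32492) (S (nat_lit 17543) (S (nat_lit 40757) (S (nat_lit 39553) (S (nat_lit 36241) (S (nat_lit 56007) (S (nat_lit 9078) (S (nat_lit 26235) (S (nat_lit 48700) (D (nat_lit 15) (nat_lit 26939598) (nat_lit 25759146) (nat_lit 8727300167))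
(L (nat_lit 13478596)))
(L (nat_lit 23535802)))
(S (nat_lit 39173) (S (nat_lit 13848) (S (nat_lit 50064) (D (nat_lit 15) (nat_lit 30130497) (nat_lit 19063210) (nat_lit 73221086432))
(L (nat_lit 28627429)))
(L (nat_lit 31015269)))
(L (nat_lit 27507298))))
(L (nat_lit 23278499)))
(L (nat_lit 3795366)))
(L (nat_lit 4828729)))
(L (nat_lit 24536256)))
(L (nat_lit 17935156)))
(L (nat_lit 20857123)))
(L (nat_lit 10016645)))
(L (nat_lit 14356232)))
(L (nat_lit 2735018)))
(L (nat_lit 13916066)))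
(L (nat_lit 9328129)))
(L (nat_lit 19972007)))
(L (nat_lit 22146471)))
(L (nat_lit 19792263)))
(L (nat_lit 3892615)))
(L (nat_lit 10261910)))
(S (nat_lit 57099) (S (nat_lit 15241) (S (nat_lit 1732) (L (nat_lit 18951025))
(L (nat_lit 14311744)))
(S (nat_lit 21043) (S (nat_lit 54912) (S (nat_lit 28554) (S (nat_lit 37260) (S (nat_lit 47) (S (nat_lit 1036) (S (nat_lit 37307) (S (nat_lit 1715) (S (nat_lit 39570) (S (nat_lit 47290) (S (nat_lit 15351) (S (nat_lit 41276) (S (nat_lit 54868) (S (nat_lit 14963) (S (nat_lit 40562) (S (nat_lit 21842) (S (nat_lit 48960) (S (nat_lit 20172) (S (nat_lit 36148) (S (nat_lit 35408) (S (nat_lit 13848) (D (nat_lit 13) (nat_lit 25891183) (nat_lit 19664108) (nat_lit 1282643080))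
(L (nat_lit 31081829)))
(L (nat_lit 21835851)))
(L (nat_lit 28395915)))
(L (nat_lit 12808835)))
(L (nat_lit 12805761)))
(S (nat_lit 33794) (S (nat_lit 52404) (S (nat_lit 33553) (S (nat_lit 58379) (S (nat_lit 50924) (S (nat_lit 927) (D (nat_lit 13) (nat_lit 31073824) (nat_lit 19666342) (nat_lit 5573799318724))
(L (nat_lit 31111210)))
(L (nat_lit 24605922)))
(L (nat_lit 28792036)))
(L (nat_lit 27674883)))
(L (nat_lit 29995267)))
(L (nat_lit 2792240))))
(L (nat_lit 28028967)))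
(L (nat_lit 6207078)))
(L (nat_lit 21044012)))
(L (nat_lit 27745414)))
(L (nat_lit 22605153)))
(L (nat_lit 18954460)))
(L (nat_lit 17716390)))
(L (nat_lit 13707933)))
(L (nat_lit 14259419)))
(L (nat_lit 13736757)))
(L (nat_lit 13446167)))
(L (nat_lit 3725190)))
(L (nat_lit 30689697)))
(L (nat_lit 27637345)))
(L (nat_lit 30718561))))
(L (nat_lit 25507957)))))
(S (nat_lit 50505) (S (nat_lit 10997) (S (nat_lit 1246) (S (nat_lit 19811) (S (nat_lit 31) (S (nat_lit 15309) (S (nat_lit 54879) (S (nat_lit 39542) (S (nat_lit 39570) (S (nat_lit 30746) (S (nat_lit 40531) (S (nat_lit 62) (S (nat_lit 1215) (S (nat_lit 1732) (S (nat_lit 54901) (S (nat_lit 21054) (S (nat_lit 35148) (S (nat_lit 997) (S (nat_lit 1701) (S (nat_lit 30774) (S (nat_lit 50477) (S (nat_lit 21512) (S (nat_lit 16128) (S (nat_lit 35940) (S (nat_lit 56247) (S (nat_lit 50923) (S (nat_lit 11268) (S (nat_lit 31052) (S (nat_lit 24502) (S (nat_lit 7956) (S (nat_lit 46543) (D (nat_lit 15)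 (nat_lit 5036423) (nat_lit 25676036) (nat_lit 3460374720))
(L (nat_lit 30125540)))
(L (nat_lit 29807941)))
(S (nat_lit 42841) (S (nat_lit 15003) (S (nat_lit 54107) (D (nat_lit 15) (nat_lit 5004493) (nat_lit 25741448) (nat_lit 3494943936))
(L (nat_lit 30021776)))
(L (nat_lit 29806882)))
(L (nat_lit 28606997))))
(L (nat_lit 20244558)))
(L (nat_lit 27838534)))
(L (nat_lit 30000356)))
(L (nat_lit 20167424)))
(L (nat_lit 19120896)))
(S (nat_lit 25491) (S (nat_lit 52788) (S (nat_lit 5741) (S (nat_lit 3644) (S (nat_lit 5235) (S (nat_lit 47764) (S (nat_lit 2851) (S (nat_lit 24598) (S (nat_lit 3020) (S (nat_lit 54325) (D (nat_lit 11) (nat_lit 9197617) (nat_lit 25531826) (nat_lit 1316031715))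
(L (nat_lit 23637925)))
(L (nat_lit 28597797)))
(S (nat_lit 56009) (S (nat_lit 28512) (S (nat_lit 32368) (S (nat_lit 51587) (S (nat_lit 35516) (S (nat_lit 38320) (D (nat_lit 13) (nat_lit 13995826) (nat_lit 3648274) (nat_lit 5500949364903))
(L (nat_lit 26983648)))
(L (nat_lit 15489248)))
(L (nat_lit 21774560)))
(L (nat_lit 21772512)))
(L (nat_lit 25835712)))
(L (nat_lit 29740141))))
(L (nat_lit 2584297)))
(L (nat_lit 24177966)))
(L (nat_lit 28384977)))
(L (nat_lit 31143202)))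
(L (nat_lit 29046050)))
(L (nat_lit 28980514)))
(S (nat_lit 53135) (S (nat_lit 13808) (S (nat_lit 7928) (S (nat_lit 53817) (S (nat_lit 14579) (S (nat_lit 46685) (S (nat_lit 6010) (S (nat_lit 34189) (S (nat_lit 4721) (S (nat_lit 47256) (D (nat_lit 11) (nat_lit 9230816) (nat_lit 25464397) (nat_lit 1316031715))
(L (nat_lit 24586331)))
(L (nat_lit 28400139)))
(S (nat_lit 56447) (S (nat_lit 29572) (S (nat_lit 32368) (S (nat_lit 54991) (S (nat_lit 35516) (S (nat_lit 37260) (D (nat_lit 13) (nat_lit 12949298) (nat_lit 3489554) (nat_lit 5499880738850))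
(L (nat_lit 25869504)))
(L (nat_lit 15489248)))
(L (nat_lit 15487168)))
(L (nat_lit 21772512)))
(L (nat_lit 26949856)))
(L (nat_lit 9564751))))
(L (nat_lit 8908483)))
(L (nat_lit 21901637)))
(L (nat_lit 16795964)))
(L (nat_lit 14740789)))
(L (nat_lit 14708021)))
(L (nat_lit 16838379)))
(L (nat_lit 23095818)))))
(L (nat_lit 31098224)))
(L (nat_lit 27921678)))
(L (nat_lit 9614102)))
(L (nat_lit 20002569)))
(L (nat_lit 12874805)))
(L (nat_lit 13473382)))
(L (nat_lit 4955610)))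
(L (nat_lit 11979833)))
(L (nat_lit 20777418)))
(L (nat_lit 20210051)))
(L (nat_lit 20852874)))
(L (nat_lit 17705632)))
(L (nat_lit 24193593)))
(L (nat_lit 5520210)))
(L (nat_lit 17731243)))
(L (nat_lit 5822843)))
(L (nat_lit 26984454)))
(L (nat_lit 12870307)))
(L (nat_lit 8480369)))
(S (nat_lit 48518) (L (nat_lit 12660660))
(L (nat_lit 6105775))))
(S (nat_lit 30761) (S (nat_lit 17496) (S (nat_lit 37335) (S (nat_lit 57066) (S (nat_lit 2161) (L (nat_lit 8507153))
(L (nat_lit 23598855)))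
(L (nat_lit 12871297)))
(L (nat_lit 10261105)))
(S (nat_lit 37260) (S (nat_lit 21328) (L (nat_lit 10357361))
(S (nat_lit 21490) (S (nat_lit 1732) (L (nat_lit 14768007))
(L (nat_lit 13886117)))
(L (nat_lit 5860871))))
(S (nat_lit 57024) (S (nat_lit 39570) (S (nat_lit 54879) (S (nat_lit 1036) (L (nat_lit 20185597))
(L (nat_lit 19839301)))
(L (nat_lit 12455413)))
(L (nat_lit 16864603)))
(L (nat_lit 25871552)))))
(S (nat_lit 50525) (S (nat_lit 10935) (S (nat_lit 10427) (L (nat_lit 20376619))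
(S (nat_lit 39570) (S (nat_lit 1019) (S (nat_lit 21739) (S (nat_lit 30713) (S (nat_lit 35148) (S (nat_lit 19839) (S (nat_lit 54879) (S (nat_lit 41497) (S (nat_lit 54862) (S (nat_lit 50527) (S (nat_lit 28526) (L (nat_lit 1549052))
(L (nat_lit 30656900)))
(L (nat_lit 27899107)))
(L (nat_lit 27964770)))
(L (nat_lit 6932292)))
(L (nat_lit 27561614)))
(L (nat_lit 22550439)))
(L (nat_lit 20757761)))
(L (nat_lit 9139621)))
(L (nat_lit 11441838)))
(L (nat_lit 14517865)))
(L (nat_lit 5526077))))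
(S (nat_lit 30699) (S (nat_lit 54837) (S (nat_lit 48323) (S (nat_lit 57071) (L (nat_lit 10897467))
(L (nat_lit 12865592)))
(L (nat_lit 20200504)))
(S (nat_lit 56943) (L (nat_lit 3711862))
(L (nat_lit 13653927))))
(S (nat_lit 50463) (S (nat_lit 48666) (L (nat_lit 6081927))
(S (nat_lit 54912) (S (nat_lit 54879) (S (nat_lit 39570) (S (nat_lit 1732) (L (nat_lit 10401376))
(L (nat_lit 4711765)))
(L (nat_lit 23148891)))
(L (nat_lit 6084976)))
(L (nat_lit 5688103))))
(L (nat_lit 25678017)))))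
(L (nat_lit 25514373)))))
(L (nat_lit 25272788)))))
(S (nat_lit 40514) (S (nat_lit 8795) (S (nat_lit 17521) (S (nat_lit 40562) (L (nat_lit 22587418))
(L (nat_lit 24685315)))
(S (nat_lit 37285) (L (nat_lit 26781842))
(S (nat_lit 57049) (S (nat_lit 41293) (S (nat_lit 19839) (S (nat_lit 40562) (S (nat_lit 28526) (L (nat_lit 9561555))
(L (nat_lit 2312601)))
(L (nat_lit 3713879)))
(L (nat_lit 3713970)))
(L (nat_lit 3713972)))
(L (nat_lit 25741634)))))
(S (nat_lit 28559) (S (nat_lit 15334) (S (nat_lit 40409) (S (nat_lit 8773) (L (nat_lit 13473481))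
(L (nat_lit 7083511)))
(S (nat_lit 50510) (S (nat_lit 19839) (S (nat_lit 40562) (L (nat_lit 28612115))
(L (nat_lit 3910168)))
(L (nat_lit 3975821)))
(L (nat_lit 13341944))))
(S (nat_lit 35098) (S (nat_lit 1944) (S (nat_lit 41271) (S (nat_lit 40542) (S (nat_lit 37285) (S (nat_lit 30774) (S (nat_lit 37307) (S (nat_lit 8385) (L (nat_lit 2698746))
(L (nat_lit 18902537)))
(L (nat_lit 10065403)))
(L (nat_lit 10065839)))
(L (nat_lit 31167821)))
(L (nat_lit 24319821)))
(L (nat_lit 18748626)))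
(L (nat_lit 19175212)))
(S (nat_lit 54862) (S (nat_lit 1732) (S (nat_lit 1975) (S (nat_lit 37285) (S (nat_lit 19839) (L (nat_lit 5810840))
(L (nat_lit 31174080)))
(L (nat_lit 31174082)))
(L (nat_lit 18918875)))
(S (nat_lit 21496) (S (nat_lit 37285) (L (nat_lit 31175849))
(L (nat_lit 3026387)))
(S (nat_lit 41260) (S (nat_lit 40562) (L (nat_lit 5810873))
(L (nat_lit 24229112)))
(L (nat_lit 25496020)))))
(L (nat_lit 25867433)))))
(S (nat_lit 48323) (S (nat_lit 31) (S (nat_lit 1290) (S (nat_lit 2006) (S (nat_lit 1743) (L (nat_lit 15814872))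
(L (nat_lit 12818354)))
(L (nat_lit 19457218)))
(S (nat_lit 21054) (S (nat_lit 20811) (S (nat_lit 57038) (L (nat_lit 3714777))
(L (nat_lit 19457130)))
(L (nat_lit 583338)))
(S (nat_lit 40818) (S (nat_lit 1701) (S (nat_lit 997) (S (nat_lit 1975) (L (nat_lit 18997707))
(L (nat_lit 3493338)))
(L (nat_lit 12678389)))
(L (nat_lit 13723211)))
(L (nat_lit 25182418)))))
(S (nat_lit 19795) (S (nat_lit 2019) (S (nat_lit 1279) (S (nat_lit 35104) (S (nat_lit 1014) (S (nat_lit 25) (L (nat_lit 26818729))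
(L (nat_lit 12612328)))
(L (nat_lit 19085368)))
(L (nat_lit 12677395)))
(L (nat_lit 26291791)))
(S (nat_lit 52385) (L (nat_lit 20873673))
(L (nat_lit 26297587))))
(S (nat_lit 39559) (S (nat_lit 15334) (S (nat_lit 41472) (S (nat_lit 38114) (L (nat_lit 9515956))
(L (nat_lit 4404825)))
(L (nat_lit 17077883)))
(S (nat_lit 35098) (S (nat_lit 1215) (S (nat_lit 10977) (L (nat_lit 19772520))
(L (nat_lit 23345057)))
(S (nat_lit 37132) (L (nat_lit 8993816))
(L (nat_lit 9017132))))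
(S (nat_lit 54862) (S (nat_lit 1743) (S (nat_lit 50538) (S (nat_lit 1003) (L (nat_lit 27545647))
(L (nat_lit 19737061)))
(L (nat_lit 10885014)))
(L (nat_lit 19731660)))
(L (nat_lit 25867433)))))
(L (nat_lit 25644291)))))
(L (nat_lit 25443972)))))
(L (nat_lit 25303696)))))
(S (nat_lit 21041) (S (nat_lit 1034) (S (nat_lit 1748) (S (nat_lit 17527) (S (nat_lit 1240) (S (nat_lit 48323) (L (nat_lit 4762450))
(L (nat_lit 20484344)))
(S (nat_lit 21004) (S (nat_lit 75) (L (nat_lit 19000745))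
(L (nat_lit 19809351)))
(S (nat_lit 40768) (S (nat_lit 48323) (L (nat_lit 4762482))
(L (nat_lit 20032026)))
(L (nat_lit 25347317)))))
(S (nat_lit 37291) (S (nat_lit 75) (S (nat_lit 48290) (L (nat_lit 5975512))
(L (nat_lit 20450616)))
(S (nat_lit 7023) (L (nat_lit 2644283))
(L (nat_lit 20484934))))
(S (nat_lit 57055) (S (nat_lit 14209) (L (nat_lit 14280774))
(S (nat_lit 48351) (S (nat_lit 54851) (S (nat_lit 1975) (S (nat_lit 39542) (L (nat_lit 26290710))
(L (nat_lit 6208823)))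
(L (nat_lit 20178372)))
(L (nat_lit 4744810)))
(L (nat_lit 20788512))))
(L (nat_lit 25795693)))))
(S (nat_lit 21512) (S (nat_lit 1944) (S (nat_lit 17510) (S (nat_lit 54851) (S (nat_lit 972) (S (nat_lit 1975) (L (nat_lit 28522117))
(L (nat_lit 13881188)))
(L (nat_lit 9194637)))
(L (nat_lit 13881125)))
(S (nat_lit 37274) (S (nat_lit 48301) (L (nat_lit 4925913))
(L (nat_lit 14356860)))
(S (nat_lit 57038) (S (nat_lit 54851) (S (nat_lit 50527) (L (nat_lit 11384417))
(L (nat_lit 12344867)))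
(L (nat_lit 27512196)))
(L (nat_lit 25922987)))))
(S (nat_lit 21708) (S (nat_lit 64) (S (nat_lit 1036) (S (nat_lit 48351) (L (nat_lit 20280705))
(L (nat_lit 20354855)))
(L (nat_lit 19000710)))
(S (nat_lit 19828) (S (nat_lit 37335) (S (nat_lit 28587) (L (nat_lit 9176469))
(L (nat_lit 3984775)))
(L (nat_lit 3977831)))
(S (nat_lit 39592) (S (nat_lit 50505) (S (nat_lit 41293) (S (nat_lit 19811) (S (nat_lit 1701) (S (nat_lit 20761) (S (nat_lit 41519) (S (nat_lit 15309) (S (nat_lit 3288) (L (nat_lit 8401564))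
(S (nat_lit 50527) (S (nat_lit 13519) (L (nat_lit 6703197))
(L (nat_lit 20857056)))
(L (nat_lit 11951970))))
(L (nat_lit 22218201)))
(L (nat_lit 23896177)))
(L (nat_lit 14771947)))
(L (nat_lit 26850660)))
(L (nat_lit 22975914)))
(L (nat_lit 3892647)))
(L (nat_lit 27380081)))
(L (nat_lit 25935075)))))
(S (nat_lit 41472) (S (nat_lit 57049) (L (nat_lit 2665081))
(L (nat_lit 6206025)))
(L (nat_lit 25343283)))))
(S (nat_lit 41276) (S (nat_lit 1047) (S (nat_lit 17496) (S (nat_lit 50463) (L (nat_lit 4762391))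
(L (nat_lit 27842784)))
(S (nat_lit 37260) (S (nat_lit 30699) (L (nat_lit 11069458))
(L (nat_lit 19460102)))
(S (nat_lit 57024) (L (nat_lit 2675562))
(L (nat_lit 25412629)))))
(S (nat_lit 20811) (S (nat_lit 15373) (S (nat_lit 10935) (S (nat_lit 1743) (S (nat_lit 19789) (S (nat_lit 1975) (S (nat_lit 1701) (S (nat_lit 56680) (L (nat_lit 11580025))
(L (nat_lit 30430412)))
(L (nat_lit 26816585)))
(L (nat_lit 3656554)))
(L (nat_lit 30655203)))
(L (nat_lit 20180516)))
(L (nat_lit 26466321)))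
(S (nat_lit 35137) (S (nat_lit 1776) (S (nat_lit 40757) (S (nat_lit 1743) (S (nat_lit 1290) (L (nat_lit 18079794))
(L (nat_lit 13306728)))
(L (nat_lit 13478626)))
(L (nat_lit 10056130)))
(S (nat_lit 32573) (L (nat_lit 12765433))
(L (nat_lit 10017977))))
(S (nat_lit 54901) (S (nat_lit 28554) (S (nat_lit 37302) (L (nat_lit 14229691))
(L (nat_lit 10401345)))
(L (nat_lit 10406305)))
(L (nat_lit 25339633)))))
(S (nat_lit 40575) (S (nat_lit 15334) (S (nat_lit 1290) (S (nat_lit 11994) (S (nat_lit 53532) (S (nat_lit 42597) (L (nat_lit 25336210))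
(L (nat_lit 17031315)))
(L (nat_lit 24371340)))
(L (nat_lit 19436458)))
(L (nat_lit 13332520)))
(S (nat_lit 35098) (S (nat_lit 1290) (S (nat_lit 41293) (S (nat_lit 30741) (S (nat_lit 57024) (L (nat_lit 12301467))
(L (nat_lit 12807904)))
(L (nat_lit 9342641)))
(L (nat_lit 3877273)))
(L (nat_lit 12812984)))
(S (nat_lit 54862) (S (nat_lit 1036) (S (nat_lit 25793) (L (nat_lit 24362141))
(L (nat_lit 20179331)))
(S (nat_lit 31269) (L (nat_lit 2343608))
(L (nat_lit 20179365))))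
(L (nat_lit 25869449)))))
(L (nat_lit 25700004)))))
(L (nat_lit 25347382)))))
(S (nat_lit 20798) (S (nat_lit 17527) (S (nat_lit 15371) (S (nat_lit 37285) (S (nat_lit 28559) (S (nat_lit 8810) (S (nat_lit 138) (L (nat_lit 7768946))
(L (nat_lit 9981048)))
(L (nat_lit 21903531)))
(L (nat_lit 19441723)))
(L (nat_lit 30976578)))
(S (nat_lit 35135) (S (nat_lit 1765) (S (nat_lit 8795) (L (nat_lit 24685317))
(L (nat_lit 21539621)))
(L (nat_lit 20452667)))
(S (nat_lit 54899) (S (nat_lit 1036) (S (nat_lit 28537) (S (nat_lit 35098) (S (nat_lit 1279) (L (nat_lit 18946492))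
(L (nat_lit 9124609)))
(L (nat_lit 20452201)))
(L (nat_lit 13308713)))
(S (nat_lit 20800) (S (nat_lit 10949) (S (nat_lit 21783) (L (nat_lit 20488316))
(L (nat_lit 16477321)))
(L (nat_lit 16477476)))
(S (nat_lit 40564) (S (nat_lit 64) (L (nat_lit 735018))
(L (nat_lit 737065)))
(L (nat_lit 25744454)))))
(L (nat_lit 25526706)))))
(S (nat_lit 37291) (S (nat_lit 17496) (S (nat_lit 1290) (L (nat_lit 10012792))
(S (nat_lit 21054) (L (nat_lit 6854267))
(S (nat_lit 40818) (S (nat_lit 19826) (S (nat_lit 28526) (L (nat_lit 30937396))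
(L (nat_lit 9121883)))
(L (nat_lit 16456484)))
(L (nat_lit 25921900)))))
(S (nat_lit 37260) (S (nat_lit 22040) (L (nat_lit 3678907))
(S (nat_lit 48276) (S (nat_lit 30746) (S (nat_lit 50477) (L (nat_lit 3893488))
(L (nat_lit 12284420)))
(L (nat_lit 9522681)))
(L (nat_lit 13862619))))
(S (nat_lit 57024) (S (nat_lit 8812) (S (nat_lit 19811) (S (nat_lit 1765) (L (nat_lit 23193809))
(L (nat_lit 13314139)))
(L (nat_lit 30905591)))
(S (nat_lit 28576) (S (nat_lit 41254) (S (nat_lit 19826) (S (nat_lit 21529) (L (nat_lit 21535933))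
(L (nat_lit 31178016)))
(L (nat_lit 9963257)))
(L (nat_lit 3468015)))
(S (nat_lit 48340) (S (nat_lit 48323) (L (nat_lit 22587581))
(L (nat_lit 20485034)))
(L (nat_lit 25306578)))))
(L (nat_lit 25679072)))))
(S (nat_lit 57055) (S (nat_lit 15371) (S (nat_lit 28559) (S (nat_lit 37285) (S (nat_lit 28610) (L (nat_lit 4944295))
(L (nat_lit 22261947)))
(L (nat_lit 2665334)))
(L (nat_lit 19173915)))
(S (nat_lit 35135) (S (nat_lit 30814) (S (nat_lit 28574) (S (nat_lit 44604) (L (nat_lit 3895501))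
(L (nat_lit 21268027)))
(L (nat_lit 30841445)))
(S (nat_lit 50494) (S (nat_lit 54851) (S (nat_lit 28574) (S (nat_lit 22521) (L (nat_lit 12161500))
(L (nat_lit 24668453)))
(L (nat_lit 2439801)))
(L (nat_lit 21521700)))
(L (nat_lit 14975794))))
(S (nat_lit 54899) (S (nat_lit 21733) (S (nat_lit 21490) (S (nat_lit 1765) (S (nat_lit 39603) (S (nat_lit 19806) (L (nat_lit 10188322))
(L (nat_lit 30718098)))
(L (nat_lit 6117863)))
(L (nat_lit 13692276)))
(L (nat_lit 22343168)))
(S (nat_lit 41672) (S (nat_lit 19826) (S (nat_lit 21527) (L (nat_lit 19935579))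
(L (nat_lit 10611223)))
(L (nat_lit 2674474)))
(L (nat_lit 21292548))))
(L (nat_lit 25336308)))))
(L (nat_lit 25789864)))))
(S (nat_lit 40562) (S (nat_lit 2006) (S (nat_lit 1743) (S (nat_lit 15351) (S (nat_lit 19839) (S (nat_lit 50463) (S (nat_lit 54851) (L (nat_lit 9254624))
(L (nat_lit 19088504)))
(L (nat_lit 22605024)))
(L (nat_lit 22604871)))
(S (nat_lit 35115) (S (nat_lit 25) (S (nat_lit 40564) (S (nat_lit 30699) (S (nat_lit 1748) (S (nat_lit 2019) (S (nat_lit 35104) (S (nat_lit 21043) (S (nat_lit 14) (S (nat_lit 40575) (S (nat_lit 21054) (S (nat_lit 34030) (L (nat_lit 10880947))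
(S (nat_lit 50525) (S (nat_lit 40768) (L (nat_lit 5490329))
(L (nat_lit 17066692)))
(L (nat_lit 27433363))))
(L (nat_lit 31178947)))
(L (nat_lit 23633083)))
(L (nat_lit 26615895)))
(L (nat_lit 31134123)))
(L (nat_lit 19996216)))
(L (nat_lit 20006136)))
(L (nat_lit 26447440)))
(L (nat_lit 18914874)))
(L (nat_lit 24686501)))
(L (nat_lit 20322185)))
(S (nat_lit 54879) (S (nat_lit 41260) (S (nat_lit 15309) (L (nat_lit 10367553))
(L (nat_lit 26739431)))
(L (nat_lit 1986023)))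
(L (nat_lit 25240144)))))
(S (nat_lit 21507) (S (nat_lit 1014) (S (nat_lit 14) (S (nat_lit 50527) (L (nat_lit 1304115))
(L (nat_lit 20788450)))
(S (nat_lit 17582) (L (nat_lit 13641340))
(L (nat_lit 14439498))))
(S (nat_lit 20778) (S (nat_lit 54851) (S (nat_lit 37324) (L (nat_lit 29373746))
(L (nat_lit 31077384)))
(L (nat_lit 20984120)))
(S (nat_lit 40542) (S (nat_lit 26988) (L (nat_lit 17501437))
(S (nat_lit 35098) (S (nat_lit 30774) (S (nat_lit 1986) (S (nat_lit 19789) (S (nat_lit 31) (S (nat_lit 40514) (S (nat_lit 8795) (L (nat_lit 1300029))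
(L (nat_lit 8109828)))
(L (nat_lit 17667286)))
(L (nat_lit 12863610)))
(L (nat_lit 3025646)))
(L (nat_lit 20278819)))
(L (nat_lit 19230209)))
(L (nat_lit 8404790))))
(L (nat_lit 25658088)))))
(S (nat_lit 41271) (S (nat_lit 11010) (S (nat_lit 40564) (S (nat_lit 17826) (L (nat_lit 5658471))
(S (nat_lit 41260) (S (nat_lit 35104) (S (nat_lit 14) (S (nat_lit 25) (S (nat_lit 57724) (L (nat_lit 12757597))
(L (nat_lit 7018253)))
(L (nat_lit 18917915)))
(L (nat_lit 18884092)))
(L (nat_lit 10401878)))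
(L (nat_lit 23892303))))
(L (nat_lit 3698964)))
(S (nat_lit 30774) (S (nat_lit 35148) (S (nat_lit 35137) (S (nat_lit 40564) (S (nat_lit 25) (S (nat_lit 35104) (S (nat_lit 21054) (S (nat_lit 24736) (L (nat_lit 29465325))
(L (nat_lit 12228125)))
(L (nat_lit 11562669)))
(L (nat_lit 31144041)))
(L (nat_lit 19934779)))
(L (nat_lit 23303612)))
(L (nat_lit 30854338)))
(L (nat_lit 23570556)))
(S (nat_lit 50538) (S (nat_lit 21739) (S (nat_lit 25) (S (nat_lit 1215) (S (nat_lit 1003) (S (nat_lit 21750) (S (nat_lit 19826) (S (nat_lit 50527) (S (nat_lit 40564) (S (nat_lit 30699) (S (nat_lit 50525) (S (nat_lit 1014) (S (nat_lit 21529) (S (nat_lit 1229) (S (nat_lit 30713) (S (nat_lit 19839) (S (nat_lit 54851) (S (nat_lit 54862) (S (nat_lit 39559) (S (nat_lit 40774) (S (nat_lit 54837) (S (nat_lit 35115) (S (nat_lit 20736) (S (nat_lit 21043) (S (nat_lit 10977) (S (nat_lit 15373) (S (nat_lit 21527) (S (nat_lit 41276) (S (nat_lit 2019) (S (nat_lit 425) (S (nat_lit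 1547) (S (nat_lit 36286) (S (nat_lit 409) (S (nat_lit 21372) (S (nat_lit 35758) (S (nat_lit 35769) (S (nat_lit 56008) (S (nat_lit 29089) (S (nat_lit 14730) (S (nat_lit 29100) (D (nat_lit 13) (nat_lit 2903375) (nat_lit 16322310) (nat_lit 6597343511589))
(L (nat_lit 20851237)))
(L (nat_lit 27867328)))
(S (nat_lit 42660) (S (nat_lit 3800) (S (nat_lit 58118) (D (nat_lit 13) (nat_lit 29510894) (nat_lit 18008838) (nat_lit 3408295760961))
(L (nat_lit 29045952)))
(L (nat_lit 27997477)))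
(L (nat_lit 26943940))))
(L (nat_lit 23899588)))
(L (nat_lit 9359745)))
(L (nat_lit 9361859)))
(L (nat_lit 28496393)))
(L (nat_lit 31003081)))
(L (nat_lit 15279972)))
(L (nat_lit 28911108)))
(S (nat_lit 38959) (S (nat_lit 17955) (S (nat_lit 17969) (S (nat_lit 7992) (S (nat_lit 47238) (S (nat_lit 49867) (S (nat_lit 49646) (S (nat_lit 48338) (S (nat_lit 20913) (S (nat_lit 20480) (S (nat_lit 12526) (D (nat_lit 11) (nat_lit 25184679) (nat_lit 10227277) (nat_lit 207367608355))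
(L (nat_lit 27859120)))
(L (nat_lit 27826853)))
(L (nat_lit 27868453)))
(S (nat_lit 57406) (S (nat_lit 28587) (S (nat_lit 57417) (D (nat_lit 15) (nat_lit 30756288) (nat_lit 25479553) (nat_lit 248135098500))
(L (nat_lit 28914759)))
(L (nat_lit 31044896)))
(L (nat_lit 16119396))))
(L (nat_lit 15475333)))
(L (nat_lit 3021298)))
(L (nat_lit 12486196)))
(L (nat_lit 30717108)))
(L (nat_lit 30782644)))
(L (nat_lit 30791204)))
(S (nat_lit 58615) (S (nat_lit 48453) (S (nat_lit 30211) (S (nat_lit 3510) (S (nat_lit 39111) (S (nat_lit 7003) (S (nat_lit 31638) (S (nat_lit 48323) (S (nat_lit 37945) (S (nat_lit 17375) (D (nat_lit 15) (nat_lit 27544622) (nat_lit 25761037) (nat_lit 210520710373))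
(L (nat_lit 27897990)))
(L (nat_lit 27898918)))
(L (nat_lit 27866308)))
(L (nat_lit 27865284)))
(S (nat_lit 20405) (S (nat_lit 21101) (S (nat_lit 51833) (D (nat_lit 13) (nat_lit 12323436) (nat_lit 8505106) (nat_lit 5780121295072))
(L (nat_lit 21772294)))
(L (nat_lit 26884288)))
(L (nat_lit 16805079))))
(L (nat_lit 28429705)))
(L (nat_lit 27402707)))
(L (nat_lit 10325617)))
(L (nat_lit 10334818)))
(L (nat_lit 12357200)))))
(L (nat_lit 19460235)))
(L (nat_lit 16804456)))
(L (nat_lit 30608112)))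
(L (nat_lit 351020)))
(L (nat_lit 26977729)))
(L (nat_lit 5090926)))
(L (nat_lit 30821634)))
(L (nat_lit 10084494)))
(L (nat_lit 19839168)))
(L (nat_lit 23114630)))
(L (nat_lit 10979124)))
(L (nat_lit 14325576)))
(L (nat_lit 14348394)))
(L (nat_lit 22386604)))
(L (nat_lit 10357269)))
(L (nat_lit 20757543)))
(L (nat_lit 6011719)))
(L (nat_lit 20419832)))
(L (nat_lit 27663541)))
(L (nat_lit 14569664)))
(L (nat_lit 28022187)))
(L (nat_lit 20410562)))
(L (nat_lit 10274960)))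
(L (nat_lit 5001737)))
(L (nat_lit 14324091)))
(L (nat_lit 20354858)))
(L (nat_lit 12785371)))
(L (nat_lit 2011381)))
(L (nat_lit 25307668)))))
(L (nat_lit 25859277)))))
(S (nat_lit 21770) (S (nat_lit 997) (S (nat_lit 15340) (S (nat_lit 20800) (S (nat_lit 40818) (S (nat_lit 50477) (S (nat_lit 30746) (S (nat_lit 21529) (S (nat_lit 10935) (S (nat_lit 40500) (S (nat_lit 20750) (S (nat_lit 41519) (S (nat_lit 21739) (S (nat_lit 54879) (S (nat_lit 39542) (S (nat_lit 1257) (S (nat_lit 1229) (S (nat_lit 19839) (S (nat_lit 39592) (S (nat_lit 50505) (S (nat_lit 41260) (S (nat_lit 20979) (S (nat_lit 54901) (S (nat_lit 21507) (S (nat_lit 39570) (S (nat_lit 19811) (S (nat_lit 15309) (S (nat_lit 21010) (S (nat_lit 1019) (S (nat_lit 40790) (S (nat_lit 40531) (S (nat_lit 10997) (S (nat_lit 1748) (S (nat_lit 13497) (S (nat_lit 5710) (S (nat_lit 42200) (S (nat_lit 47013) (S (nat_lit 52497) (S (nat_lit 3492) (S (nat_lit 34544) (S (nat_lit 454) (D (nat_lit 11)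 (nat_lit 14538981) (nat_lit 2711855) (nat_lit 243739396128))
(L (nat_lit 30064901)))
(L (nat_lit 27998497)))
(S (nat_lit 57405) (S (nat_lit 35163) (S (nat_lit 12124) (D (nat_lit 15) (nat_lit 901362) (nat_lit 8139330) (nat_lit 38862395426))
(L (nat_lit 22275552)))
(L (nat_lit 26985696)))
(L (nat_lit 7099909))))
(L (nat_lit 28724262)))
(L (nat_lit 6305403)))
(L (nat_lit 29439722)))
(L (nat_lit 21196193)))
(S (nat_lit 43749) (S (nat_lit 26293) (S (nat_lit 4512) (S (nat_lit 22908) (S (nat_lit 15218) (S (nat_lit 34918) (S (nat_lit 43340) (S (nat_lit 7275) (S (nat_lit 18136) (S (nat_lit 56628) (S (nat_lit 48301) (D (nat_lit 13) (nat_lit 11458976) (nat_lit 25599154) (nat_lit 6703445777634))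
(L (nat_lit 20877800)))
(L (nat_lit 28790117)))
(S (nat_lit 37285) (S (nat_lit 27650) (D (nat_lit 13) (nat_lit 30126217) (nat_lit 9003121) (nat_lit 213943156801))
(L (nat_lit 28823874)))
(L (nat_lit 14559414))))
(L (nat_lit 17751175)))
(L (nat_lit 7499407)))
(L (nat_lit 17698442)))
(L (nat_lit 14897058)))
(L (nat_lit 2857742)))
(L (nat_lit 16947897)))
(L (nat_lit 6756119)))
(S (nat_lit 57204) (S (nat_lit 48629) (S (nat_lit 37291) (S (nat_lit 12831) (S (nat_lit 15509) (S (nat_lit 51525) (S (nat_lit 6317) (S (nat_lit 12074) (D (nat_lit 13) (nat_lit 31140016) (nat_lit 25767023) (nat_lit 3372760665089))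
(L (nat_lit 31132169)))
(L (nat_lit 31141928)))
(L (nat_lit 15856266)))
(L (nat_lit 30000171)))
(S (nat_lit 50358) (S (nat_lit 45998) (S (nat_lit 37149) (S (nat_lit 14274) (S (nat_lit 17177) (D (nat_lit 13) (nat_lit 27858156) (nat_lit 19668143) (nat_lit 8973301356737))
(L (nat_lit 30935752)))
(L (nat_lit 30558632)))
(L (nat_lit 28940773)))
(L (nat_lit 28948837)))
(L (nat_lit 1923345))))
(L (nat_lit 20185528)))
(L (nat_lit 6898592)))
(L (nat_lit 905767)))))
(L (nat_lit 20182433)))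
(L (nat_lit 7229828)))
(L (nat_lit 25045166)))
(L (nat_lit 7396273)))
(L (nat_lit 14523478)))
(L (nat_lit 21111726)))
(L (nat_lit 1828080)))
(L (nat_lit 8510353)))
(L (nat_lit 10599186)))
(L (nat_lit 30652466)))
(L (nat_lit 19738818)))
(L (nat_lit 6416819)))
(L (nat_lit 27512256)))
(L (nat_lit 27576768)))
(L (nat_lit 17540156)))
(L (nat_lit 2992780)))
(L (nat_lit 14454998)))
(L (nat_lit 11352805)))
(L (nat_lit 24375377)))
(L (nat_lit 16478560)))
(L (nat_lit 22818951)))
(L (nat_lit 9230722)))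
(L (nat_lit 30490249)))
(L (nat_lit 7418491)))
(L (nat_lit 7095318)))
(L (nat_lit 30528815)))
(L (nat_lit 24230139)))
(L (nat_lit 15409240)))
(L (nat_lit 24684419)))
(L (nat_lit 22583115)))
(S (nat_lit 35104) (S (nat_lit 2161) (L (nat_lit 30976084))
(S (nat_lit 21529) (S (nat_lit 37274) (L (nat_lit 10000150))
(L (nat_lit 30988363)))
(L (nat_lit 30938727))))
(S (nat_lit 54868) (S (nat_lit 13017) (L (nat_lit 579899))
(S (nat_lit 28559) (S (nat_lit 57038) (L (nat_lit 5819643))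
(L (nat_lit 4777675)))
(L (nat_lit 24385049))))
(L (nat_lit 25559752)))))
(S (nat_lit 20761) (S (nat_lit 17558) (S (nat_lit 19839) (S (nat_lit 48340) (S (nat_lit 62) (S (nat_lit 29824) (L (nat_lit 8478513))
(L (nat_lit 16664587)))
(L (nat_lit 1598838)))
(L (nat_lit 16518856)))
(S (nat_lit 35766) (L (nat_lit 10995736))
(L (nat_lit 8973984))))
(S (nat_lit 37322) (S (nat_lit 15033) (L (nat_lit 7898840))
(S (nat_lit 41260) (S (nat_lit 1279) (S (nat_lit 40531) (S (nat_lit 28576) (L (nat_lit 28559744))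
(L (nat_lit 4040146)))
(L (nat_lit 8172192)))
(L (nat_lit 19949903)))
(L (nat_lit 18008313))))
(S (nat_lit 57086) (S (nat_lit 40785) (S (nat_lit 41514) (S (nat_lit 972) (S (nat_lit 8812) (S (nat_lit 17571) (L (nat_lit 29792339))
(L (nat_lit 26809862)))
(L (nat_lit 649736)))
(L (nat_lit 20713866)))
(L (nat_lit 7115469)))
(S (nat_lit 48487) (L (nat_lit 11713272))
(L (nat_lit 933170))))
(L (nat_lit 25548228)))))
(S (nat_lit 40525) (S (nat_lit 1726) (S (nat_lit 28559) (S (nat_lit 30746) (S (nat_lit 50527) (L (nat_lit 26304043))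
(L (nat_lit 22885602)))
(L (nat_lit 13716731)))
(S (nat_lit 50431) (L (nat_lit 31008259))
(L (nat_lit 8984089))))
(S (nat_lit 21490) (S (nat_lit 54879) (S (nat_lit 30741) (S (nat_lit 19789) (S (nat_lit 41260) (S (nat_lit 10982) (S (nat_lit 44282) (L (nat_lit 5843448))
(L (nat_lit 8212000)))
(L (nat_lit 7425838)))
(L (nat_lit 17026233)))
(L (nat_lit 30419477)))
(L (nat_lit 9560468)))
(L (nat_lit 16458560)))
(S (nat_lit 41254) (S (nat_lit 42) (S (nat_lit 986) (S (nat_lit 21529) (S (nat_lit 19839) (L (nat_lit 28887046))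
(L (nat_lit 9985792)))
(L (nat_lit 731983)))
(L (nat_lit 20004220)))
(S (nat_lit 39905) (L (nat_lit 3764742))
(L (nat_lit 7006752))))
(L (nat_lit 25598693)))))
(L (nat_lit 25249515)))))
(S (nat_lit 41534) (S (nat_lit 1748) (S (nat_lit 15373) (S (nat_lit 15351) (S (nat_lit 41472) (S (nat_lit 54851) (S (nat_lit 20767) (L (nat_lit 29606464))
(L (nat_lit 7254688)))
(L (nat_lit 19116932)))
(L (nat_lit 904492)))
(S (nat_lit 49942) (L (nat_lit 826028))
(L (nat_lit 24678311))))
(S (nat_lit 35137) (S (nat_lit 19839) (S (nat_lit 40768) (S (nat_lit 1036) (S (nat_lit 64) (L (nat_lit 2346520))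
(L (nat_lit 26982626)))
(L (nat_lit 9125632)))
(L (nat_lit 17946940)))
(S (nat_lit 21216) (L (nat_lit 20218639))
(L (nat_lit 10021971))))
(S (nat_lit 54901) (S (nat_lit 19839) (S (nat_lit 1036) (S (nat_lit 21529) (S (nat_lit 28537) (L (nat_lit 2845937))
(L (nat_lit 18922872)))
(L (nat_lit 22222671)))
(L (nat_lit 9124613)))
(L (nat_lit 10184160)))
(L (nat_lit 25829827)))))
(S (nat_lit 21512) (S (nat_lit 10977) (S (nat_lit 3622) (L (nat_lit 10172473))
(S (nat_lit 40807) (S (nat_lit 15351) (S (nat_lit 10949) (S (nat_lit 41260) (S (nat_lit 30746) (S (nat_lit 19778) (S (nat_lit 1290) (S (nat_lit 54868) (S (nat_lit 1837) (S (nat_lit 39075) (S (nat_lit 30327) (L (nat_lit 25340308))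
(L (nat_lit 9343412)))
(L (nat_lit 9343567)))
(S (nat_lit 20767) (S (nat_lit 35135) (S (nat_lit 35073) (S (nat_lit 30761) (S (nat_lit 1334) (L (nat_lit 5616251))
(L (nat_lit 22886505)))
(L (nat_lit 24604997)))
(L (nat_lit 23992768)))
(L (nat_lit 23589189)))
(L (nat_lit 22221582))))
(L (nat_lit 27991116)))
(L (nat_lit 20482425)))
(L (nat_lit 31006832)))
(L (nat_lit 17543045)))
(L (nat_lit 24129423)))
(L (nat_lit 23635069)))
(L (nat_lit 24684417)))
(L (nat_lit 7366037))))
(S (nat_lit 30741) (S (nat_lit 35073) (S (nat_lit 1036) (S (nat_lit 41497) (S (nat_lit 41260) (S (nat_lit 19839) (S (nat_lit 50463) (S (nat_lit 21529) (S (nat_lit 15334) (S (nat_lit 54851) (S (nat_lit 1991) (S (nat_lit 40525) (S (nat_lit 54912) (S (nat_lit 19795) (S (nat_lit 972) (S (nat_lit 54868) (S (nat_lit 1229) (S (nat_lit 10966) (S (nat_lit 15371) (S (nat_lit 1290) (S (nat_lit 21722) (S (nat_lit 21021) (S (nat_lit 1743) (S (nat_lit 36148) (S (nat_lit 639) (S (nat_lit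 20370) (S (nat_lit 21859) (S (nat_lit 55443) (S (nat_lit 6254) (S (nat_lit 57205) (S (nat_lit 38154) (D (nat_lit 13) (nat_lit 27920749) (nat_lit 8570642) (nat_lit 8865084081156))
(L (nat_lit 22520578)))
(L (nat_lit 29512232)))
(S (nat_lit 28378) (S (nat_lit 48457) (S (nat_lit 29406) (D (nat_lit 13) (nat_lit 27920749) (nat_lit 8883986) (nat_lit 8865084081156))
(L (nat_lit 21439234)))
(L (nat_lit 29513224)))
(L (nat_lit 6886813))))
(L (nat_lit 28940672)))
(L (nat_lit 23093454)))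
(L (nat_lit 23537413)))
(L (nat_lit 21507843)))
(S (nat_lit 53560) (S (nat_lit 7667) (S (nat_lit 18069) (S (nat_lit 53597) (S (nat_lit 27450) (S (nat_lit 57407) (S (nat_lit 13561) (S (nat_lit 39324) (S (nat_lit 10890) (S (nat_lit 838) (S (nat_lit 32629) (S (nat_lit 14440) (D (nat_lit 13) (nat_lit 9463405) (nat_lit 16062226) (nat_lit 4571086790664))
(L (nat_lit 23904449)))
(L (nat_lit 21807329)))
(S (nat_lit 28587) (S (nat_lit 23848) (S (nat_lit 44237) (D (nat_lit 15) (nat_lit 26854597) (nat_lit 1848907) (nat_lit 74188987458))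
(L (nat_lit 19100130)))
(L (nat_lit 27674884)))
(L (nat_lit 3656986))))
(L (nat_lit 15884075)))
(L (nat_lit 18921385)))
(L (nat_lit 18888617)))
(L (nat_lit 3528122)))
(L (nat_lit 9557434)))
(L (nat_lit 11655089)))
(L (nat_lit 9557937)))
(L (nat_lit 11727473)))
(S (nat_lit 58904) (S (nat_lit 58457) (S (nat_lit 58965) (S (nat_lit 58437) (S (nat_lit 39190) (S (nat_lit 30576) (S (nat_lit 5206) (S (nat_lit 17345) (S (nat_lit 20870) (S (nat_lit 55220) (D (nat_lit 13) (nat_lit 11626092) (nat_lit 8568594) (nat_lit 4578575911168))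
(L (nat_lit 15473344)))
(L (nat_lit 26886369)))
(S (nat_lit 54549) (S (nat_lit 18376) (S (nat_lit 46441) (D (nat_lit 13) (nat_lit 26813613) (nat_lit 5857702) (nat_lit 6719538405))
(L (nat_lit 13508228)))
(L (nat_lit 27866402)))
(L (nat_lit 10964093))))
(L (nat_lit 27842754)))
(L (nat_lit 28712677)))
(L (nat_lit 27657459)))
(L (nat_lit 29436655)))
(L (nat_lit 13847365)))
(L (nat_lit 13856485)))
(L (nat_lit 26975616)))))
(L (nat_lit 26716898)))
(L (nat_lit 31070284)))
(L (nat_lit 1472166)))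
(L (nat_lit 12815219)))
(L (nat_lit 17735236)))
(L (nat_lit 23331664)))
(L (nat_lit 26491520)))
(L (nat_lit 19138105)))
(L (nat_lit 19148953)))
(L (nat_lit 9562612)))
(L (nat_lit 19063088)))
(L (nat_lit 16865593)))
(L (nat_lit 4004465)))
(L (nat_lit 13651850)))
(L (nat_lit 26979810)))
(L (nat_lit 30611055)))
(L (nat_lit 20136987)))
(L (nat_lit 21506816)))
(L (nat_lit 8408974)))
(L (nat_lit 17375321)))
(L (nat_lit 19426374)))
(L (nat_lit 9459226)))
(S (nat_lit 50505) (S (nat_lit 1036) (S (nat_lit 19839) (S (nat_lit 37302) (S (nat_lit 28554) (L (nat_lit 1592166))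
(L (nat_lit 30689697)))
(L (nat_lit 30684737)))
(S (nat_lit 56419) (S (nat_lit 1743) (S (nat_lit 28587) (L (nat_lit 4631197))
(L (nat_lit 19371783)))
(L (nat_lit 9459225)))
(L (nat_lit 22588160))))
(S (nat_lit 2161) (L (nat_lit 19404059))
(L (nat_lit 8951572))))
(L (nat_lit 25594198)))))
(S (nat_lit 41276) (S (nat_lit 1991) (S (nat_lit 1036) (S (nat_lit 19839) (S (nat_lit 21739) (S (nat_lit 1715) (S (nat_lit 40525) (S (nat_lit 54851) (S (nat_lit 1240) (S (nat_lit 41260) (S (nat_lit 28543) (L (nat_lit 3360379))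
(L (nat_lit 19841314)))
(L (nat_lit 23311141)))
(L (nat_lit 3987974)))
(L (nat_lit 15738488)))
(L (nat_lit 10078016)))
(L (nat_lit 2419344)))
(L (nat_lit 1298350)))
(L (nat_lit 21506816)))
(S (nat_lit 40483) (L (nat_lit 18683495))
(L (nat_lit 26750560))))
(S (nat_lit 21755) (S (nat_lit 21205) (L (nat_lit 19076632))
(S (nat_lit 21529) (S (nat_lit 19839) (S (nat_lit 10977) (S (nat_lit 40500) (S (nat_lit 39575) (S (nat_lit 17538) (L (nat_lit 16905426))
(L (nat_lit 1923526)))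
(L (nat_lit 18115173)))
(L (nat_lit 24407426)))
(L (nat_lit 23961984)))
(L (nat_lit 31140321)))
(L (nat_lit 764751))))
(S (nat_lit 41519) (S (nat_lit 15351) (S (nat_lit 15334) (L (nat_lit 7125602))
(L (nat_lit 26462353)))
(L (nat_lit 24683424)))
(L (nat_lit 25411702)))))
(L (nat_lit 25630806)))))
(L (nat_lit 25742530)))))
(L (nat_lit 25273040)))))
(S (nat_lit 40805) (S (nat_lit 1019) (S (nat_lit 8773) (S (nat_lit 19839) (S (nat_lit 1765) (S (nat_lit 40562) (S (nat_lit 54851) (S (nat_lit 1262) (S (nat_lit 10966) (S (nat_lit 57071) (S (nat_lit 48307) (S (nat_lit 41497) (S (nat_lit 41254) (S (nat_lit 20993) (S (nat_lit 20750) (S (nat_lit 50527) (S (nat_lit 39570) (S (nat_lit 21496) (S (nat_lit 21739) (S (nat_lit 17510) (S (nat_lit 37322) (S (nat_lit 15371) (S (nat_lit 20767) (S (nat_lit 19795) (S (nat_lit 40525) (S (nat_lit 1279) (S (nat_lit 43877) (S (nat_lit 30761) (S (nat_lit 24091) (S (nat_lit 1215) (S (nat_lit 1701) (S (nat_lit 9078) (S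 (nat_lit 441) (S (nat_lit 38715) (S (nat_lit 37986) (S (nat_lit 54940) (S (nat_lit 20633) (D (nat_lit 11) (nat_lit 31107214) (nat_lit 19674405) (nat_lit 279415097378))
(L (nat_lit 28876919)))
(L (nat_lit 28529184)))
(L (nat_lit 16634080)))
(L (nat_lit 16634048)))
(L (nat_lit 30921922)))
(S (nat_lit 57242) (S (nat_lit 10340) (S (nat_lit 17968) (S (nat_lit 35911) (S (nat_lit 36640) (S (nat_lit 44055) (D (nat_lit 11) (nat_lit 25755884) (nat_lit 13388133) (nat_lit 74330669184))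
(L (nat_lit 19738759)))
(L (nat_lit 19294499)))
(L (nat_lit 19294467)))
(L (nat_lit 29963525)))
(L (nat_lit 27866373)))
(L (nat_lit 10228398))))
(L (nat_lit 4796792)))
(L (nat_lit 11088056)))
(L (nat_lit 16412841)))
(L (nat_lit 24604843)))
(L (nat_lit 17156120)))
(L (nat_lit 9169006)))
(L (nat_lit 24471662)))
(L (nat_lit 22308974)))
(S (nat_lit 37941) (S (nat_lit 41519) (S (nat_lit 62) (S (nat_lit 40531) (S (nat_lit 21708) (S (nat_lit 50477) (S (nat_lit 1290) (S (nat_lit 28554) (S (nat_lit 10310) (S (nat_lit 16691) (S (nat_lit 11089) (S (nat_lit 36906) (S (nat_lit 16741) (S (nat_lit 43520) (D (nat_lit 13) (nat_lit 25936225) (nat_lit 19670565) (nat_lit 111803564258))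
(L (nat_lit 28794178)))
(L (nat_lit 31015083)))
(L (nat_lit 28942818)))
(L (nat_lit 28948707)))
(S (nat_lit 52285) (S (nat_lit 32885) (S (nat_lit 31608) (S (nat_lit 8352) (S (nat_lit 12724) (S (nat_lit 35047) (D (nat_lit 13) (nat_lit 27923850) (nat_lit 25762339) (nat_lit 7874994701505))
(L (nat_lit 27853320)))
(L (nat_lit 27764389)))
(L (nat_lit 27576740)))
(L (nat_lit 27774276)))
(L (nat_lit 27870532)))
(L (nat_lit 30943378))))
(L (nat_lit 29038118)))
(L (nat_lit 18958182)))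
(L (nat_lit 13333640)))
(L (nat_lit 20165720)))
(L (nat_lit 16347307)))
(L (nat_lit 16992281)))
(L (nat_lit 380476)))
(L (nat_lit 18055768)))
(S (nat_lit 55412) (S (nat_lit 8762) (S (nat_lit 25) (S (nat_lit 30713) (S (nat_lit 48323) (S (nat_lit 41472) (S (nat_lit 39559) (S (nat_lit 20736) (S (nat_lit 19826) (S (nat_lit 37335) (S (nat_lit 12590) (S (nat_lit 29882) (S (nat_lit 10065) (S (nat_lit 30454) (S (nat_lit 17646) (S (nat_lit 3267) (D (nat_lit 13) (nat_lit 27544588) (nat_lit 25765349) (nat_lit 6674620487681))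
(L (nat_lit 27934980)))
(L (nat_lit 28917926)))
(L (nat_lit 15584516)))
(L (nat_lit 28789957)))
(S (nat_lit 46056) (S (nat_lit 8947) (S (nat_lit 19379) (S (nat_lit 57886) (S (nat_lit 6534) (D (nat_lit 13) (nat_lit 30755233) (nat_lit 25767459) (nat_lit 3337360772098))
(L (nat_lit 31179881)))
(L (nat_lit 16664678)))
(L (nat_lit 29935971)))
(L (nat_lit 29967554)))
(L (nat_lit 16569447))))
(L (nat_lit 20038940)))
(L (nat_lit 17438470)))
(L (nat_lit 10021572)))
(L (nat_lit 21260708)))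
(L (nat_lit 27931938)))
(L (nat_lit 17394979)))
(L (nat_lit 20340932)))
(L (nat_lit 30910180)))
(L (nat_lit 639322)))
(L (nat_lit 552245)))
(L (nat_lit 22978735)))))
(L (nat_lit 382397)))
(L (nat_lit 8803483)))
(L (nat_lit 8146437)))
(L (nat_lit 8146372)))
(L (nat_lit 8146373)))
(L (nat_lit 27578541)))
(L (nat_lit 20784674)))
(L (nat_lit 6919953)))
(L (nat_lit 6918929)))
(L (nat_lit 1368815)))
(L (nat_lit 320239)))
(L (nat_lit 27351433)))
(L (nat_lit 12660410)))
(L (nat_lit 7143858)))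
(L (nat_lit 20784512)))
(L (nat_lit 27472484)))
(L (nat_lit 17508474)))
(L (nat_lit 4925883)))
(L (nat_lit 15411322)))
(S (nat_lit 28537) (S (nat_lit 40562) (S (nat_lit 1765) (S (nat_lit 37307) (S (nat_lit 19839) (S (nat_lit 1014) (S (nat_lit 1776) (S (nat_lit 41472) (S (nat_lit 2019) (S (nat_lit 35104) (S (nat_lit 28512) (S (nat_lit 30699) (S (nat_lit 41229) (S (nat_lit 48340) (S (nat_lit 50527) (S (nat_lit 41497) (S (nat_lit 50525) (S (nat_lit 41254) (S (nat_lit 40818) (S (nat_lit 40564) (S (nat_lit 15373) (S (nat_lit 46697) (S (nat_lit 34331) (S (nat_lit 39559) (S (nat_lit 39575) (S (nat_lit 30059) (S (nat_lit 10328) (S (nat_lit 36990) (S (nat_lit 38934) (D (nat_lit 11) (nat_lit 30953511) (nat_lit 19670531) (nat_lit 71005445223))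
(L (nat_lit 27862500)))
(L (nat_lit 27862469)))
(L (nat_lit 27865317)))
(S (nat_lit 39435) (S (nat_lit 9811) (S (nat_lit 12241) (S (nat_lit 37956) (D (nat_lit 11) (nat_lit 27707587) (nat_lit 25767363) (nat_lit 212843300001))
(L (nat_lit 27898048)))
(L (nat_lit 27997505)))
(L (nat_lit 27996416)))
(L (nat_lit 28845203))))
(L (nat_lit 27766340)))
(L (nat_lit 27931721)))
(L (nat_lit 535474)))
(L (nat_lit 1814008)))
(L (nat_lit 665388)))
(L (nat_lit 17936309)))
(L (nat_lit 23635747)))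
(L (nat_lit 23388677)))
(L (nat_lit 12224268)))
(L (nat_lit 16900807)))
(L (nat_lit 27899107)))
(L (nat_lit 27898083)))
(L (nat_lit 4050313)))
(L (nat_lit 2759505)))
(L (nat_lit 2759504)))
(L (nat_lit 2681448)))
(L (nat_lit 20476229)))
(L (nat_lit 23391340)))
(L (nat_lit 19972345)))
(S (nat_lit 20778) (S (nat_lit 41497) (S (nat_lit 1715) (S (nat_lit 37335) (S (nat_lit 35148) (S (nat_lit 21708) (S (nat_lit 1262) (S (nat_lit 41254) (S (nat_lit 17558) (S (nat_lit 50527) (S (nat_lit 48340) (S (nat_lit 40774) (S (nat_lit 20993) (S (nat_lit 19789) (S (nat_lit 40897) (S (nat_lit 39542) (S (nat_lit 40500) (S (nat_lit 26262) (S (nat_lit 5526) (S (nat_lit 42289) (S (nat_lit 3582) (D (nat_lit 11) (nat_lit 31004038) (nat_lit 25765315) (nat_lit 106473554112))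
(L (nat_lit 29998405)))
(L (nat_lit 19333894)))
(L (nat_lit 29997380)))
(S (nat_lit 45936) (S (nat_lit 3978) (S (nat_lit 6408) (S (nat_lit 23333) (D (nat_lit 11) (nat_lit 27888844) (nat_lit 25765381) (nat_lit 212843298912))
(L (nat_lit 19333894)))
(L (nat_lit 27579877)))
(L (nat_lit 27579844)))
(L (nat_lit 23324033))))
(L (nat_lit 24554404)))
(L (nat_lit 16830746)))
(L (nat_lit 12851124)))
(L (nat_lit 2501336)))
(L (nat_lit 15276802)))
(L (nat_lit 380380)))
(L (nat_lit 27898083)))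
(L (nat_lit 27899107)))
(L (nat_lit 25073804)))
(L (nat_lit 3795150)))
(L (nat_lit 14491232)))
(L (nat_lit 21828909)))
(L (nat_lit 2446256)))
(L (nat_lit 2446257)))
(L (nat_lit 2904305)))
(L (nat_lit 2726460)))
(S (nat_lit 40542) (S (nat_lit 19778) (S (nat_lit 1944) (S (nat_lit 35073) (S (nat_lit 30761) (S (nat_lit 28554) (S (nat_lit 21054) (S (nat_lit 972) (S (nat_lit 48276) (S (nat_lit 41271) (S (nat_lit 46044) (S (nat_lit 8779) (S (nat_lit 57099) (S (nat_lit 54912) (S (nat_lit 52527) (S (nat_lit 6726) (S (nat_lit 21362) (S (nat_lit 37855) (S (nat_lit 40894) (S (nat_lit 13544) (S (nat_lit 20219) (S (nat_lit 48980) (D (nat_lit 9) (nat_lit 25761806) (nat_lit 19666313) (nat_lit 68887512294))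
(L (nat_lit 12813235)))
(L (nat_lit 13556875)))
(L (nat_lit 30843521)))
(L (nat_lit 29048003)))
(L (nat_lit 29048001)))
(S (nat_lit 33590) (S (nat_lit 16918) (S (nat_lit 7150) (S (nat_lit 28934) (S (nat_lit 30878) (D (nat_lit 9) (nat_lit 27927695) (nat_lit 25767084) (nat_lit 38860397640))
(L (nat_lit 27478467)))
(L (nat_lit 27478498)))
(L (nat_lit 27675940)))
(L (nat_lit 27865346)))
(L (nat_lit 24936785))))
(L (nat_lit 17505121)))
(L (nat_lit 7991405)))
(L (nat_lit 11342542)))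
(L (nat_lit 11342543)))
(L (nat_lit 8212593)))
(L (nat_lit 3033511)))
(L (nat_lit 25049129)))
(L (nat_lit 10501046)))
(L (nat_lit 9193548)))
(L (nat_lit 4449932)))
(L (nat_lit 9193953)))
(L (nat_lit 2735915)))
(L (nat_lit 4004375)))
(L (nat_lit 3460876)))
(L (nat_lit 3397393)))
(L (nat_lit 25826858)))))
(L (nat_lit 31140320)))
(L (nat_lit 31139884)))
(L (nat_lit 13314853)))
(L (nat_lit 18557048)))
(S (nat_lit 48301) (S (nat_lit 19839) (S (nat_lit 40562) (S (nat_lit 1765) (S (nat_lit 54851) (S (nat_lit 1262) (S (nat_lit 37274) (S (nat_lit 50527) (S (nat_lit 28543) (S (nat_lit 57086) (S (nat_lit 41254) (S (nat_lit 41497) (S (nat_lit 10966) (S (nat_lit 21496) (S (nat_lit 8812) (S (nat_lit 15371) (S (nat_lit 39570) (S (nat_lit 17543) (S (nat_lit 20993) (S (nat_lit 3827) (S (nat_lit 48276) (S (nat_lit 30713) (S (nat_lit 21750) (S (nat_lit 57099) (S (nat_lit 19828) (S (nat_lit 4551) (S (nat_lit 42837) (S (nat_lit 17435) (S (nat_lit 10615) (D (nat_lit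 13) (nat_lit 30855241) (nat_lit 25765413) (nat_lit 3304041155618))
(L (nat_lit 30942949)))
(L (nat_lit 29739456)))
(L (nat_lit 19738853)))
(S (nat_lit 16279) (S (nat_lit 51568) (S (nat_lit 45785) (S (nat_lit 38382) (S (nat_lit 2276) (D (nat_lit 13) (nat_lit 27642368) (nat_lit 19672549) (nat_lit 1103002404069))
(L (nat_lit 28916037)))
(L (nat_lit 28914978)))
(L (nat_lit 14590071)))
(L (nat_lit 28913889)))
(L (nat_lit 5486483))))
(L (nat_lit 8938051)))
(L (nat_lit 6043957)))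
(L (nat_lit 16522259)))
(L (nat_lit 25051396)))
(L (nat_lit 27285958)))
(S (nat_lit 9677) (S (nat_lit 31) (S (nat_lit 40774) (S (nat_lit 49004) (S (nat_lit 54901) (S (nat_lit 41519) (S (nat_lit 57024) (S (nat_lit 50477) (S (nat_lit 1743) (S (nat_lit 12635) (S (nat_lit 17148) (S (nat_lit 15187) (S (nat_lit 36287) (S (nat_lit 11039) (D (nat_lit 13) (nat_lit 27951590) (nat_lit 25545253) (nat_lit 6673580300320))
(L (nat_lit 28333579)))
(L (nat_lit 22918434)))
(L (nat_lit 27729604)))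
(L (nat_lit 27481476)))
(S (nat_lit 47278) (S (nat_lit 13232) (S (nat_lit 7987) (S (nat_lit 12102) (S (nat_lit 15441) (S (nat_lit 32554) (D (nat_lit 13) (nat_lit 26920195) (nat_lit 19667427) (nat_lit 5710163217504))
(L (nat_lit 28942480)))
(L (nat_lit 28949670)))
(L (nat_lit 31016162)))
(L (nat_lit 29859396)))
(L (nat_lit 27991460)))
(L (nat_lit 4846862))))
(L (nat_lit 13985907)))
(L (nat_lit 22263684)))
(L (nat_lit 6024678)))
(L (nat_lit 17596998)))
(L (nat_lit 27640851)))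
(L (nat_lit 6744740)))
(L (nat_lit 18040892)))
(L (nat_lit 695118)))
(S (nat_lit 15527) (S (nat_lit 40785) (S (nat_lit 40525) (S (nat_lit 11044) (S (nat_lit 41534) (S (nat_lit 40768) (S (nat_lit 41291) (S (nat_lit 30741) (S (nat_lit 54912) (S (nat_lit 19041) (S (nat_lit 19105) (S (nat_lit 18376) (S (nat_lit 48622) (S (nat_lit 22392) (S (nat_lit 5972) (D (nat_lit 11) (nat_lit 30131337) (nat_lit 19325283) (nat_lit 175227668674))
(L (nat_lit 29048133)))
(L (nat_lit 19833966)))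
(L (nat_lit 28530209)))
(L (nat_lit 28914915)))
(L (nat_lit 28914883)))
(S (nat_lit 49709) (S (nat_lit 10340) (S (nat_lit 17890) (S (nat_lit 18133) (S (nat_lit 8139) (S (nat_lit 33104) (D (nat_lit 11) (nat_lit 27870530) (nat_lit 25769065) (nat_lit 35502725286))
(L (nat_lit 13491425)))
(L (nat_lit 28903913)))
(L (nat_lit 28915012)))
(L (nat_lit 28915013)))
(L (nat_lit 28914948)))
(L (nat_lit 2600885))))
(L (nat_lit 4645478)))
(L (nat_lit 2548326)))
(L (nat_lit 17878232)))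
(L (nat_lit 27853323)))
(L (nat_lit 17845464)))
(L (nat_lit 27854029)))
(L (nat_lit 27854347)))
(L (nat_lit 27924997)))
(L (nat_lit 29744580)))))
(L (nat_lit 12406929)))
(L (nat_lit 24226300)))
(L (nat_lit 27960832)))
(L (nat_lit 17727826)))
(L (nat_lit 16949978)))
(L (nat_lit 22523653)))
(L (nat_lit 23938306)))
(L (nat_lit 27449614)))
(L (nat_lit 27416846)))
(L (nat_lit 6102604)))
(L (nat_lit 31004748)))
(L (nat_lit 27899106)))
(L (nat_lit 17026821)))
(L (nat_lit 26428000)))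
(L (nat_lit 27511885)))
(L (nat_lit 14363397)))
(L (nat_lit 3877649)))
(L (nat_lit 3877644)))
(L (nat_lit 25695570)))))
(S (nat_lit 20783) (S (nat_lit 1279) (S (nat_lit 1047) (S (nat_lit 1701) (S (nat_lit 1776) (S (nat_lit 1246) (S (nat_lit 1765) (L (nat_lit 12605257))
(L (nat_lit 19442432)))
(L (nat_lit 20067546)))
(L (nat_lit 20453400)))
(S (nat_lit 21465) (S (nat_lit 54868) (S (nat_lit 1776) (S (nat_lit 50494) (L (nat_lit 13211741))
(L (nat_lit 20449064)))
(L (nat_lit 20483913)))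
(L (nat_lit 5822345)))
(S (nat_lit 41229) (S (nat_lit 37291) (L (nat_lit 8939105))
(L (nat_lit 2419309)))
(L (nat_lit 25310793)))))
(S (nat_lit 20811) (S (nat_lit 75) (S (nat_lit 28543) (L (nat_lit 8969984))
(L (nat_lit 19138321)))
(S (nat_lit 19839) (S (nat_lit 41291) (S (nat_lit 40562) (S (nat_lit 1765) (S (nat_lit 21783) (S (nat_lit 19778) (S (nat_lit 50463) (S (nat_lit 10949) (S (nat_lit 64) (S (nat_lit 57024) (L (nat_lit 7870357))
(L (nat_lit 11269601)))
(L (nat_lit 26746901)))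
(L (nat_lit 26238378)))
(L (nat_lit 20137021)))
(L (nat_lit 2316049)))
(L (nat_lit 30939813)))
(L (nat_lit 19442432)))
(L (nat_lit 23630601)))
(L (nat_lit 17510145)))
(S (nat_lit 39603) (S (nat_lit 8790) (S (nat_lit 35098) (L (nat_lit 10019923))
(L (nat_lit 3393976)))
(S (nat_lit 48147) (L (nat_lit 24684572))
(L (nat_lit 23653542))))
(L (nat_lit 25341394)))))
(S (nat_lit 40575) (S (nat_lit 1986) (S (nat_lit 28537) (L (nat_lit 30429607))
(L (nat_lit 10184163)))
(S (nat_lit 21750) (S (nat_lit 1748) (S (nat_lit 54851) (L (nat_lit 18682474))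
(L (nat_lit 19116933)))
(S (nat_lit 50440) (L (nat_lit 8088995))
(L (nat_lit 19334952))))
(S (nat_lit 41514) (S (nat_lit 5277) (L (nat_lit 24701958))
(S (nat_lit 10949) (S (nat_lit 441) (L (nat_lit 10238564))
(L (nat_lit 23096742)))
(L (nat_lit 23096746))))
(L (nat_lit 25509573)))))
(L (nat_lit 25724552)))))
(S (nat_lit 21043) (S (nat_lit 10999) (S (nat_lit 1991) (S (nat_lit 1432) (L (nat_lit 8949467))
(S (nat_lit 40562) (S (nat_lit 20800) (S (nat_lit 35073) (S (nat_lit 30761) (S (nat_lit 40785) (S (nat_lit 1449) (L (nat_lit 13676467))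
(L (nat_lit 18057848)))
(L (nat_lit 23108365)))
(L (nat_lit 30737004)))
(L (nat_lit 10220033)))
(L (nat_lit 5494200)))
(L (nat_lit 10014465))))
(S (nat_lit 21755) (S (nat_lit 35996) (L (nat_lit 11047675))
(S (nat_lit 48351) (S (nat_lit 40514) (L (nat_lit 9189953))
(L (nat_lit 9518776)))
(L (nat_lit 22817153))))
(S (nat_lit 41519) (S (nat_lit 16854) (L (nat_lit 9463283))
(S (nat_lit 41547) (S (nat_lit 54879) (S (nat_lit 37285) (L (nat_lit 9324929))
(L (nat_lit 2680393)))
(L (nat_lit 27993262)))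
(L (nat_lit 27280009))))
(L (nat_lit 25663607)))))
(S (nat_lit 30763) (S (nat_lit 35135) (S (nat_lit 28574) (L (nat_lit 19196420))
(L (nat_lit 31045803)))
(S (nat_lit 45487) (L (nat_lit 20813997))
(L (nat_lit 30836298))))
(S (nat_lit 50527) (S (nat_lit 1229) (S (nat_lit 37260) (S (nat_lit 28512) (L (nat_lit 12602247))
(L (nat_lit 12589910)))
(L (nat_lit 19929937)))
(S (nat_lit 20993) (S (nat_lit 37274) (S (nat_lit 40514) (L (nat_lit 2380217))
(L (nat_lit 23148920)))
(S (nat_lit 47944) (S (nat_lit 54851) (S (nat_lit 50477) (L (nat_lit 12609812))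
(L (nat_lit 11563596)))
(L (nat_lit 27282827)))
(L (nat_lit 30417330))))
(S (nat_lit 40757) (S (nat_lit 19839) (S (nat_lit 40562) (L (nat_lit 10939969))
(L (nat_lit 18583864)))
(L (nat_lit 31133965)))
(L (nat_lit 25612425)))))
(L (nat_lit 25506866)))))
(S (nat_lit 40807) (S (nat_lit 1991) (S (nat_lit 10999) (S (nat_lit 40562) (S (nat_lit 37302) (L (nat_lit 28756010))
(L (nat_lit 10187951)))
(L (nat_lit 24702243)))
(S (nat_lit 30763) (S (nat_lit 37335) (S (nat_lit 28587) (L (nat_lit 14439712))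
(L (nat_lit 10327446)))
(L (nat_lit 10327665)))
(S (nat_lit 50527) (S (nat_lit 37285) (S (nat_lit 1290) (L (nat_lit 28327526))
(L (nat_lit 13641587)))
(S (nat_lit 52879) (L (nat_lit 10017977))
(L (nat_lit 10020019))))
(L (nat_lit 25313490)))))
(S (nat_lit 21755) (S (nat_lit 8823) (S (nat_lit 1036) (S (nat_lit 57049) (L (nat_lit 28354967))
(L (nat_lit 18918809)))
(L (nat_lit 20852101)))
(S (nat_lit 28587) (S (nat_lit 19811) (S (nat_lit 30746) (S (nat_lit 35104) (L (nat_lit 2319764))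
(L (nat_lit 20710705)))
(L (nat_lit 19666126)))
(L (nat_lit 9954358)))
(S (nat_lit 48351) (S (nat_lit 35104) (L (nat_lit 782727))
(L (nat_lit 20710792)))
(L (nat_lit 25498192)))))
(S (nat_lit 41519) (S (nat_lit 10935) (S (nat_lit 28526) (L (nat_lit 10513811))
(L (nat_lit 30608789)))
(S (nat_lit 30699) (S (nat_lit 35115) (S (nat_lit 14) (S (nat_lit 25) (S (nat_lit 40818) (S (nat_lit 30713) (S (nat_lit 50494) (S (nat_lit 54912) (S (nat_lit 39592) (S (nat_lit 39590) (S (nat_lit 19795) (S (nat_lit 57012) (L (nat_lit 5775000))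
(L (nat_lit 20784513)))
(L (nat_lit 9070702)))
(L (nat_lit 12398742)))
(L (nat_lit 12389998)))
(L (nat_lit 12336213)))
(L (nat_lit 5119415)))
(L (nat_lit 18891033)))
(L (nat_lit 10217923)))
(L (nat_lit 18891657)))
(L (nat_lit 18884433)))
(L (nat_lit 10236085)))
(S (nat_lit 50463) (S (nat_lit 17538) (L (nat_lit 17833595))
(L (nat_lit 7040448)))
(L (nat_lit 25821671)))))
(L (nat_lit 25221544)))))
(L (nat_lit 25744705)))))
(S (nat_lit 40547) (S (nat_lit 1944) (S (nat_lit 1003) (S (nat_lit 15309) (S (nat_lit 37335) (S (nat_lit 28587) (L (nat_lit 11288288))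
(L (nat_lit 10269780)))
(L (nat_lit 10274895)))
(S (nat_lit 35073) (S (nat_lit 6924) (L (nat_lit 24132391))
(S (nat_lit 30699) (S (nat_lit 40542) (S (nat_lit 37274) (L (nat_lit 16806197))
(L (nat_lit 30428462)))
(L (nat_lit 18028306)))
(L (nat_lit 24133447))))
(S (nat_lit 54837) (S (nat_lit 40807) (L (nat_lit 10501752))
(L (nat_lit 27284870)))
(L (nat_lit 25648320)))))
(S (nat_lit 20767) (S (nat_lit 15371) (S (nat_lit 41291) (S (nat_lit 40542) (S (nat_lit 17510) (L (nat_lit 24143271))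
(L (nat_lit 22244773)))
(L (nat_lit 23271180)))
(L (nat_lit 23279363)))
(S (nat_lit 35135) (S (nat_lit 40757) (S (nat_lit 28537) (S (nat_lit 37285) (S (nat_lit 37322) (L (nat_lit 29572705))
(L (nat_lit 4048242)))
(L (nat_lit 9956931)))
(L (nat_lit 10120611)))
(L (nat_lit 10074912)))
(S (nat_lit 54899) (S (nat_lit 1765) (S (nat_lit 1279) (S (nat_lit 37274) (L (nat_lit 3710553))
(L (nat_lit 9490188)))
(L (nat_lit 19197348)))
(L (nat_lit 13758026)))
(L (nat_lit 25344340)))))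
(S (nat_lit 40531) (S (nat_lit 8795) (S (nat_lit 40564) (S (nat_lit 1765) (S (nat_lit 19839) (L (nat_lit 1326713))
(L (nat_lit 21539585)))
(L (nat_lit 4762421)))
(L (nat_lit 10224053)))
(S (nat_lit 28559) (S (nat_lit 37274) (S (nat_lit 40562) (S (nat_lit 28554) (L (nat_lit 10898458))
(L (nat_lit 3912487)))
(L (nat_lit 24685377)))
(L (nat_lit 3912985)))
(S (nat_lit 48323) (S (nat_lit 37302) (S (nat_lit 19839) (S (nat_lit 40562) (L (nat_lit 2313626))
(L (nat_lit 3713754)))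
(L (nat_lit 3976659)))
(L (nat_lit 10407361)))
(L (nat_lit 25283789)))))
(L (nat_lit 25659605)))))
(S (nat_lit 21708) (S (nat_lit 10935) (S (nat_lit 1975) (S (nat_lit 20634) (L (nat_lit 12818322))
(S (nat_lit 28587) (S (nat_lit 37335) (L (nat_lit 3361180))
(L (nat_lit 10040225)))
(L (nat_lit 18655969))))
(S (nat_lit 21739) (S (nat_lit 37285) (S (nat_lit 28526) (L (nat_lit 2322866))
(L (nat_lit 9455193)))
(S (nat_lit 58327) (S (nat_lit 52073) (L (nat_lit 2893267))
(L (nat_lit 15949569)))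
(L (nat_lit 9465488))))
(S (nat_lit 41503) (S (nat_lit 1262) (S (nat_lit 41534) (S (nat_lit 1036) (L (nat_lit 4408925))
(L (nat_lit 10540442)))
(L (nat_lit 18556672)))
(L (nat_lit 26411414)))
(L (nat_lit 25636516)))))
(S (nat_lit 30699) (S (nat_lit 28512) (S (nat_lit 37260) (L (nat_lit 15757927))
(L (nat_lit 30606839)))
(S (nat_lit 55176) (L (nat_lit 30416439))
(L (nat_lit 30606992))))
(S (nat_lit 50463) (S (nat_lit 8823) (L (nat_lit 21067175))
(S (nat_lit 28587) (S (nat_lit 40790) (S (nat_lit 1240) (L (nat_lit 19436459))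
(L (nat_lit 13379297)))
(L (nat_lit 24340864)))
(S (nat_lit 48351) (S (nat_lit 1036) (S (nat_lit 6649) (L (nat_lit 14550294))
(L (nat_lit 15959674)))
(L (nat_lit 13506644)))
(L (nat_lit 25668161)))))
(L (nat_lit 25664128)))))
(S (nat_lit 41472) (S (nat_lit 8790) (S (nat_lit 37274) (S (nat_lit 28537) (S (nat_lit 20736) (L (nat_lit 3034317))
(L (nat_lit 936330)))
(L (nat_lit 25048201)))
(L (nat_lit 23989550)))
(S (nat_lit 28554) (S (nat_lit 41304) (S (nat_lit 10935) (L (nat_lit 29908039))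
(L (nat_lit 18571303)))
(L (nat_lit 18681171)))
(S (nat_lit 48318) (S (nat_lit 11010) (S (nat_lit 54912) (S (nat_lit 28526) (L (nat_lit 9850689))
(L (nat_lit 18041604)))
(L (nat_lit 27773184)))
(S (nat_lit 30774) (S (nat_lit 37335) (S (nat_lit 28587) (L (nat_lit 9521596))
(L (nat_lit 10087808)))
(L (nat_lit 30813792)))
(S (nat_lit 50538) (S (nat_lit 35115) (L (nat_lit 29935787))
(L (nat_lit 3562279)))
(L (nat_lit 25858319)))))
(L (nat_lit 25274032)))))
(L (nat_lit 25768041)))))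
(L (nat_lit 25339472)))))
(L (nat_lit 25251367)))))

theorem rb246_0_4 : run 4 lb246 [] tb246_0_4 kb246 [0, 2008, 30724, 35120] [] = true := by
  decide +kernel

noncomputable def ta26_3 : Tr :=
(S (nat_lit 1540) (S (nat_lit 1) (S (nat_lit 1701) (S (nat_lit 1702) (S (nat_lit 2107) (S (nat_lit 1703) (S (nat_lit 3624) (S (nat_lit 3597) (S (nat_lit 3621) (S (nat_lit 4132) (S (nat_lit 5833) (S (nat_lit 3411) (S (nat_lit 4302) (S (nat_lit 4833) (S (nat_lit 5447) (S (nat_lit 5438) (S (nat_lit 4790) (S (nat_lit 4968) (S (nat_lit 4706) (S (nat_lit 4705) (S (nat_lit 4349) (S (nat_lit 1406) (S (nat_lit 4699) (D (nat_lit 0) (nat_lit 700770) (nat_lit 590313) (nat_lit 70900582466))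
(L (nat_lit 417088)))
(L (nat_lit 697794)))
(L (nat_lit 414050)))
(L (nat_lit 401523)))
(L (nat_lit 401522)))
(L (nat_lit 468642)))
(L (nat_lit 699568)))
(L (nat_lit 699907)))
(L (nat_lit 697859)))
(L (nat_lit 666019)))
(L (nat_lit 498870)))
(L (nat_lit 12598)))
(L (nat_lit 498739)))
(L (nat_lit 514090)))
(L (nat_lit 514371)))
(L (nat_lit 55787)))
(S (nat_lit 3904) (L (nat_lit 75376))
(L (nat_lit 265904))))
(S (nat_lit 6104) (S (nat_lit 3899) (L (nat_lit 20935))
(L (nat_lit 510212)))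
(L (nat_lit 632876))))
(S (nat_lit 3995) (L (nat_lit 142961))
(L (nat_lit 500853))))
(S (nat_lit 6103) (S (nat_lit 6079) (L (nat_lit 530452))
(L (nat_lit 502370)))
(L (nat_lit 622925))))
(S (nat_lit 3915) (S (nat_lit 1702) (S (nat_lit 1217) (S (nat_lit 893) (L (nat_lit 7634))
(L (nat_lit 466528)))
(S (nat_lit 5789) (S (nat_lit 3581) (L (nat_lit 209632))
(L (nat_lit 466528)))
(L (nat_lit 624134))))
(S (nat_lit 5226) (S (nat_lit 3155) (L (nat_lit 52591))
(L (nat_lit 638210)))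
(L (nat_lit 630832))))
(S (nat_lit 6129) (S (nat_lit 1411) (S (nat_lit 5967) (L (nat_lit 560870))
(L (nat_lit 464981)))
(S (nat_lit 3597) (S (nat_lit 1217) (S (nat_lit 2917) (S (nat_lit 5446) (S (nat_lit 4833) (S (nat_lit 3420) (S (nat_lit 4302) (S (nat_lit 4806) (S (nat_lit 6168) (S (nat_lit 4702) (D (nat_lit 0) (nat_lit 412963) (nat_lit 575779) (nat_lit 35652672))
(L (nat_lit 436832)))
(L (nat_lit 88273)))
(L (nat_lit 373475)))
(L (nat_lit 575779)))
(L (nat_lit 365012)))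
(L (nat_lit 658764)))
(L (nat_lit 761285)))
(L (nat_lit 55753)))
(S (nat_lit 5765) (L (nat_lit 431690))
(L (nat_lit 525928))))
(L (nat_lit 234932))))
(L (nat_lit 598031)))))
(S (nat_lit 2215) (S (nat_lit 3696) (S (nat_lit 3431) (S (nat_lit 2107) (L (nat_lit 40559))
(L (nat_lit 566389)))
(L (nat_lit 75221)))
(L (nat_lit 534676)))
(S (nat_lit 4429) (S (nat_lit 1702) (S (nat_lit 2764) (L (nat_lit 176469))
(L (nat_lit 149806)))
(L (nat_lit 567906)))
(L (nat_lit 602306)))))
(S (nat_lit 3754) (S (nat_lit 1395) (S (nat_lit 1541) (S (nat_lit 3687) (S (nat_lit 4995) (L (nat_lit 759020))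
(L (nat_lit 548196)))
(S (nat_lit 5752) (S (nat_lit 2107) (S (nat_lit 567) (L (nat_lit 108082))
(L (nat_lit 363116)))
(L (nat_lit 376417)))
(L (nat_lit 527734))))
(S (nat_lit 3755) (S (nat_lit 4429) (S (nat_lit 2136) (L (nat_lit 176469))
(L (nat_lit 347653)))
(S (nat_lit 5860) (S (nat_lit 1440) (S (nat_lit 2107) (S (nat_lit 2215) (S (nat_lit 3917) (S (nat_lit 3565) (S (nat_lit 378) (S (nat_lit 3693) (S (nat_lit 5861) (S (nat_lit 1245) (S (nat_lit 3664) (S (nat_lit 4779) (S (nat_lit 1248) (S (nat_lit 3619) (S (nat_lit 5789) (D (nat_lit 0) (nat_lit 140722) (nat_lit 605508) (nat_lit 35652672))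
(L (nat_lit 630208)))
(S (nat_lit 3870) (S (nat_lit 1530) (S (nat_lit 5835) (D (nat_lit 0) (nat_lit 765036) (nat_lit 606400) (nat_lit 35500623873))
(L (nat_lit 761249)))
(L (nat_lit 766176)))
(L (nat_lit 704679))))
(L (nat_lit 669867)))
(L (nat_lit 177429)))
(L (nat_lit 502403)))
(L (nat_lit 688462)))
(L (nat_lit 278180)))
(L (nat_lit 529684)))
(L (nat_lit 543044)))
(L (nat_lit 664748)))
(L (nat_lit 383524)))
(L (nat_lit 105911)))
(L (nat_lit 501313)))
(L (nat_lit 447779)))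
(L (nat_lit 524531))))
(S (nat_lit 5969) (S (nat_lit 2107) (S (nat_lit 3684) (S (nat_lit 3693) (L (nat_lit 733473))
(L (nat_lit 309332)))
(L (nat_lit 311380)))
(L (nat_lit 310881)))
(L (nat_lit 597068)))))
(S (nat_lit 3609) (S (nat_lit 3160) (L (nat_lit 463560))
(S (nat_lit 3916) (S (nat_lit 696) (S (nat_lit 5811) (L (nat_lit 74352))
(L (nat_lit 671939)))
(S (nat_lit 6131) (L (nat_lit 459337))
(L (nat_lit 672809))))
(L (nat_lit 535234))))
(S (nat_lit 5823) (S (nat_lit 3916) (S (nat_lit 1835) (L (nat_lit 463563))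
(S (nat_lit 4429) (S (nat_lit 1449) (L (nat_lit 754990))
(L (nat_lit 500291)))
(L (nat_lit 525558))))
(L (nat_lit 535170)))
(L (nat_lit 598126)))))
(S (nat_lit 5968) (S (nat_lit 1703) (S (nat_lit 6130) (S (nat_lit 567) (S (nat_lit 2538) (L (nat_lit 470693))
(L (nat_lit 461142)))
(L (nat_lit 634953)))
(L (nat_lit 469666)))
(S (nat_lit 3917) (S (nat_lit 2215) (S (nat_lit 1395) (S (nat_lit 5901) (L (nat_lit 637067))
(L (nat_lit 481600)))
(L (nat_lit 461385)))
(L (nat_lit 479241)))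
(S (nat_lit 6131) (S (nat_lit 0) (S (nat_lit 1383) (S (nat_lit 2108) (L (nat_lit 377475))
(L (nat_lit 300622)))
(L (nat_lit 462035)))
(S (nat_lit 2214) (S (nat_lit 6130) (S (nat_lit 5969) (S (nat_lit 1539) (L (nat_lit 89641))
(L (nat_lit 138803)))
(L (nat_lit 397524)))
(L (nat_lit 393899)))
(S (nat_lit 4428) (S (nat_lit 2216) (L (nat_lit 727428))
(L (nat_lit 460021)))
(L (nat_lit 603143)))))
(L (nat_lit 600612)))))
(L (nat_lit 594157)))))

theorem ra26_3 : run 3 la26 [] ta26_3 ka26 (P4 3 468 462 406 298 0 1 0 0) [] = true := by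
  decide +kernel

noncomputable def ta27_2 : Tr :=
(L (nat_lit 602370))

theorem ra27_2 : run 3 la27 [] ta27_2 ka27 (P4 3 1 108 152 108 0 0 1 2) [] = true := by
  decide +kernel

noncomputable def tb178_2 : Tr :=
(L (nat_lit 25836802))

theorem rb178_2 : run 4 lb178 [] tb178_2 kb178 (P4 4 1809 4070 192 1809 0 0 1 2) [] = true := by
  decide +kernel

noncomputable def tb182_0 : Tr :=
(L (nat_lit 25768128))

theorem rb182_0 : run 4 lb182 [] tb182_0 kb182 (P4 4 1473 0 5135 0 0 0 0 1) [] = true := by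
  decide +kernel

noncomputable def tb177_5 : Tr :=
(L (nat_lit 25768128))

theorem rb177_5 : run 4 lb177 [] tb177_5 kb177 (P4 4 2202 0 2306 0 1 2 0 0) [] = true := by
  decide +kernel

noncomputable def ta37_4 : Tr :=
(L (nat_lit 604385))

theorem ra37_4 : run 3 la37 [] ta37_4 ka37 (P4 3 203 0 314 203 1 0 0 0) [] = true := by
  decide +kernel

end Pool.Agent.MP_92191b_al.K3.E
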