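import Pool.Agent.MP_92191b_al.K3.CR14

/-! Refutation trees. -/

namespace Pool.Agent.MP_92191b_al.K3.E

open Tr

set_option maxRecDepth 100000

noncomputable def tpl : Tr :=
(S (nat_lit 137) (S (nat_lit 114) (S (nat_lit 190) (S (nat_lit 93) (S (nat_lit 0) (S (nat_lit 133) (S (nat_lit 270) (S (nat_lit 48) (S (nat_lit 125) (S (nat_lit 191) (S (nat_lit 251) (S (nat_lit 717) (D (nat_lit 10) (nat_lit 5643) (nat_lit 1512) (nat_lit 0))
(L (nat_lit 7557)))
(L (nat_lit 14693)))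
(S (nat_lit 556) (S (nat_lit 443) (D (nat_lit 14) (nat_lit 8580) (nat_lit 3624) (nat_lit 0))
(L (nat_lit 10753)))
(L (nat_lit 4488))))
(L (nat_lit 11312)))
(L (nat_lit 11746)))
(L (nat_lit 14530)))
(L (nat_lit 3595)))
(S (nat_lit 252) (S (nat_lit 495) (L (nat_lit 2321))
(L (nat_lit 13536)))
(L (nat_lit 12512))))
(S (nat_lit 384) (S (nat_lit 299) (S (nat_lit 15) (L (nat_lit 7653))
(L (nat_lit 14689)))
(S (nat_lit 460) (S (nat_lit 491) (S (nat_lit 238) (S (nat_lit 186) (S (nat_lit 69) (S (nat_lit 726) (S (nat_lit 100) (S (nat_lit 322) (D (nat_lit 14) (nat_lit 7214) (nat_lit 3627) (nat_lit 0))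
(L (nat_lit 15713)))
(S (nat_lit 229) (S (nat_lit 177) (S (nat_lit 490) (S (nat_lit 239) (D (nat_lit 10) (nat_lit 9701) (nat_lit 1392) (nat_lit 0))
(L (nat_lit 17542)))
(L (nat_lit 15465)))
(L (nat_lit 14529)))
(L (nat_lit 4431))))
(L (nat_lit 6161)))
(L (nat_lit 15367)))
(L (nat_lit 17601)))
(S (nat_lit 480) (S (nat_lit 147) (S (nat_lit 471) (S (nat_lit 156) (S (nat_lit 489) (S (nat_lit 492) (S (nat_lit 495) (S (nat_lit 504) (S (nat_lit 210) (S (nat_lit 201) (S (nat_lit 438) (S (nat_lit 461) (S (nat_lit 490) (S (nat_lit 191) (S (nat_lit 372) (S (nat_lit 352) (S (nat_lit 222) (S (nat_lit 353) (S (nat_lit 486) (S (nat_lit 136) (A (nat_lit 0))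
(L (nat_lit 12545)))
(L (nat_lit 15367)))
(L (nat_lit 14407)))
(L (nat_lit 9763)))
(L (nat_lit 14661)))
(L (nat_lit 15714)))
(L (nat_lit 9360)))
(L (nat_lit 15650)))
(L (nat_lit 14626)))
(L (nat_lit 14594)))
(L (nat_lit 5609)))
(L (nat_lit 3561)))
(L (nat_lit 5670)))
(L (nat_lit 3559)))
(L (nat_lit 15527)))
(L (nat_lit 15462)))
(L (nat_lit 17603)))
(L (nat_lit 17635)))
(L (nat_lit 15555)))
(L (nat_lit 238))))
(L (nat_lit 6564)))
(L (nat_lit 5642))))
(S (nat_lit 695) (S (nat_lit 726) (S (nat_lit 175) (S (nat_lit 47) (S (nat_lit 107) (S (nat_lit 239) (S (nat_lit 490) (S (nat_lit 177) (D (nat_lit 14) (nat_lit 7216) (nat_lit 6225) (nat_lit 0))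
(L (nat_lit 2571)))
(L (nat_lit 6562)))
(L (nat_lit 17448)))
(L (nat_lit 17700)))
(S (nat_lit 580) (S (nat_lit 161) (S (nat_lit 628) (S (nat_lit 68) (S (nat_lit 202) (S (nat_lit 431) (D (nat_lit 3) (nat_lit 8270) (nat_lit 6690) (nat_lit 0))
(L (nat_lit 15494)))
(S (nat_lit 689) (S (nat_lit 504) (D (nat_lit 3) (nat_lit 8303) (nat_lit 16644) (nat_lit 0))
(L (nat_lit 12480)))
(L (nat_lit 7182))))
(L (nat_lit 14592)))
(S (nat_lit 665) (S (nat_lit 324) (S (nat_lit 388) (S (nat_lit 102) (S (nat_lit 124) (D (nat_lit 14) (nat_lit 8578) (nat_lit 3345) (nat_lit 0))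
(L (nat_lit 15398)))
(L (nat_lit 17601)))
(L (nat_lit 17665)))
(L (nat_lit 8641)))
(L (nat_lit 3526))))
(L (nat_lit 16674)))
(L (nat_lit 11683))))
(L (nat_lit 14410)))
(L (nat_lit 8209)))
(L (nat_lit 3560)))))
(S (nat_lit 442) (S (nat_lit 201) (S (nat_lit 90) (S (nat_lit 504) (L (nat_lit 8677))
(L (nat_lit 14561)))
(S (nat_lit 384) (S (nat_lit 222) (S (nat_lit 504) (S (nat_lit 471) (S (nat_lit 443) (S (nat_lit 136) (S (nat_lit 155) (S (nat_lit 68) (S (nat_lit 67) (S (nat_lit 486) (D (nat_lit 10) (nat_lit 4489) (nat_lit 1483) (nat_lit 0))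
(L (nat_lit 6689)))
(L (nat_lit 14593)))
(L (nat_lit 14592)))
(S (nat_lit 651) (S (nat_lit 278) (S (nat_lit 210) (S (nat_lit 452) (D (nat_lit 10) (nat_lit 11651) (nat_lit 14504) (nat_lit 0))
(L (nat_lit 15430)))
(L (nat_lit 6594)))
(L (nat_lit 6625)))
(L (nat_lit 425))))
(S (nat_lit 388) (L (nat_lit 3529))
(L (nat_lit 12545))))
(S (nat_lit 461) (S (nat_lit 118) (S (nat_lit 226) (S (nat_lit 490) (S (nat_lit 191) (S (nat_lit 388) (S (nat_lit 353) (S (nat_lit 131) (S (nat_lit 160) (S (nat_lit 239) (S (nat_lit 401) (S (nat_lit 376) (S (nat_lit 503) (S (nat_lit 214) (S (nat_lit 147) (S (nat_lit 438) (S (nat_lit 455) (S (nat_lit 484) (A (nat_lit 1))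
(L (nat_lit 13572)))
(L (nat_lit 15681)))
(L (nat_lit 9264)))
(L (nat_lit 15402)))
(L (nat_lit 6254)))
(L (nat_lit 2507)))
(L (nat_lit 15467)))
(L (nat_lit 7311)))
(L (nat_lit 17542)))
(L (nat_lit 17697)))
(L (nat_lit 17761)))
(L (nat_lit 4365)))
(L (nat_lit 6252)))
(L (nat_lit 4520)))
(L (nat_lit 1448)))
(L (nat_lit 15466)))
(L (nat_lit 14597)))
(L (nat_lit 5638))))
(L (nat_lit 4489)))
(L (nat_lit 12480)))
(L (nat_lit 11277)))
(L (nat_lit 14346))))
(S (nat_lit 251) (S (nat_lit 191) (S (nat_lit 471) (S (nat_lit 504) (S (nat_lit 94) (S (nat_lit 240) (S (nat_lit 486) (S (nat_lit 689) (S (nat_lit 13) (D (nat_lit 12) (nat_lit 1542) (nat_lit 13669) (nat_lit 0))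
(L (nat_lit 14626)))
(L (nat_lit 7180)))
(L (nat_lit 6161)))
(L (nat_lit 6156)))
(S (nat_lit 397) (S (nat_lit 495) (S (nat_lit 707) (S (nat_lit 13) (D (nat_lit 12) (nat_lit 3310) (nat_lit 15467) (nat_lit 0))
(L (nat_lit 9699)))
(L (nat_lit 15496)))
(L (nat_lit 8673)))
(L (nat_lit 15462))))
(L (nat_lit 10289)))
(L (nat_lit 1360)))
(L (nat_lit 9297)))
(S (nat_lit 640) (S (nat_lit 504) (S (nat_lit 471) (S (nat_lit 222) (S (nat_lit 214) (S (nat_lit 40) (S (nat_lit 175) (S (nat_lit 210) (S (nat_lit 683) (S (nat_lit 610) (D (nat_lit 14) (nat_lit 14438) (nat_lit 14409) (nat_lit 0))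
(L (nat_lit 16677)))
(L (nat_lit 17603)))
(L (nat_lit 16610)))
(L (nat_lit 14562)))
(S (nat_lit 244) (S (nat_lit 68) (S (nat_lit 154) (S (nat_lit 634) (S (nat_lit 599) (S (nat_lit 402) (D (nat_lit 14) (nat_lit 6628) (nat_lit 16674) (nat_lit 0))
(L (nat_lit 2536)))
(L (nat_lit 17575)))
(L (nat_lit 6660)))
(L (nat_lit 17668)))
(L (nat_lit 15618)))
(L (nat_lit 14345))))
(L (nat_lit 6693)))
(L (nat_lit 11813)))
(L (nat_lit 10789)))
(L (nat_lit 10784)))
(L (nat_lit 14507)))))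
(S (nat_lit 694) (S (nat_lit 0) (S (nat_lit 356) (S (nat_lit 665) (S (nat_lit 346) (S (nat_lit 52) (S (nat_lit 432) (D (nat_lit 3) (nat_lit 10626) (nat_lit 3624) (nat_lit 0))
(L (nat_lit 9360)))
(L (nat_lit 1576)))
(L (nat_lit 15714)))
(L (nat_lit 10628)))
(S (nat_lit 726) (S (nat_lit 39) (S (nat_lit 47) (S (nat_lit 346) (S (nat_lit 657) (S (nat_lit 707) (D (nat_lit 2) (nat_lit 16581) (nat_lit 10383) (nat_lit 0))
(L (nat_lit 5544)))
(L (nat_lit 2415)))
(L (nat_lit 13506)))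
(L (nat_lit 3312)))
(L (nat_lit 15366)))
(L (nat_lit 14345))))
(S (nat_lit 252) (S (nat_lit 474) (S (nat_lit 582) (S (nat_lit 346) (S (nat_lit 545) (S (nat_lit 322) (S (nat_lit 432) (D (nat_lit 3) (nat_lit 5640) (nat_lit 9361) (nat_lit 0))
(L (nat_lit 2505)))
(L (nat_lit 2380)))
(L (nat_lit 15402)))
(L (nat_lit 15715)))
(S (nat_lit 723) (S (nat_lit 400) (S (nat_lit 90) (S (nat_lit 652) (S (nat_lit 276) (S (nat_lit 24) (S (nat_lit 298) (S (nat_lit 717) (D (nat_lit 12) (nat_lit 6531) (nat_lit 6224) (nat_lit 0))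
(L (nat_lit 16579)))
(L (nat_lit 14529)))
(S (nat_lit 413) (S (nat_lit 385) (S (nat_lit 344) (D (nat_lit 14) (nat_lit 12516) (nat_lit 1296) (nat_lit 0))
(L (nat_lit 7684)))
(L (nat_lit 3563)))
(L (nat_lit 11405))))
(L (nat_lit 14375)))
(L (nat_lit 9296)))
(L (nat_lit 11649)))
(S (nat_lit 503) (S (nat_lit 545) (S (nat_lit 184) (S (nat_lit 226) (S (nat_lit 455) (S (nat_lit 406) (S (nat_lit 467) (S (nat_lit 289) (S (nat_lit 318) (D (nat_lit 14) (nat_lit 17602) (nat_lit 9230) (nat_lit 0))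
(L (nat_lit 13603)))
(S (nat_lit 298) (S (nat_lit 76) (D (nat_lit 14) (nat_lit 4367) (nat_lit 13322) (nat_lit 0))
(L (nat_lit 16644)))
(L (nat_lit 3308))))
(L (nat_lit 16578)))
(L (nat_lit 455)))
(L (nat_lit 15681)))
(L (nat_lit 7278)))
(L (nat_lit 6254)))
(L (nat_lit 6190)))
(S (nat_lit 521) (S (nat_lit 120) (S (nat_lit 290) (S (nat_lit 344) (S (nat_lit 640) (S (nat_lit 605) (S (nat_lit 385) (S (nat_lit 373) (D (nat_lit 14) (nat_lit 13541) (nat_lit 13604) (nat_lit 0))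
(L (nat_lit 13478)))
(L (nat_lit 8612)))
(L (nat_lit 13633)))
(L (nat_lit 12545)))
(S (nat_lit 657) (S (nat_lit 107) (D (nat_lit 12) (nat_lit 16581) (nat_lit 5455) (nat_lit 0))
(L (nat_lit 9361)))
(L (nat_lit 7183))))
(L (nat_lit 10691)))
(L (nat_lit 14692)))
(L (nat_lit 2412)))))
(L (nat_lit 2289))))
(S (nat_lit 718) (S (nat_lit 39) (S (nat_lit 107) (S (nat_lit 388) (S (nat_lit 695) (S (nat_lit 648) (S (nat_lit 289) (D (nat_lit 2) (nat_lit 17635) (nat_lit 11407) (nat_lit 0))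
(L (nat_lit 13509)))
(L (nat_lit 15371)))
(L (nat_lit 6220)))
(L (nat_lit 17668)))
(L (nat_lit 17700)))
(S (nat_lit 640) (S (nat_lit 24) (S (nat_lit 491) (S (nat_lit 202) (S (nat_lit 22) (S (nat_lit 678) (D (nat_lit 2) (nat_lit 3342) (nat_lit 12326) (nat_lit 0))
(L (nat_lit 4523)))
(L (nat_lit 17667)))
(L (nat_lit 14343)))
(L (nat_lit 15434)))
(L (nat_lit 17761)))
(L (nat_lit 269))))
(L (nat_lit 10320))))
(S (nat_lit 504) (S (nat_lit 238) (S (nat_lit 489) (S (nat_lit 13) (S (nat_lit 640) (S (nat_lit 250) (S (nat_lit 460) (D (nat_lit 2) (nat_lit 5576) (nat_lit 13351) (nat_lit 0))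
(L (nat_lit 14625)))
(L (nat_lit 14472)))
(L (nat_lit 12545)))
(L (nat_lit 14627)))
(L (nat_lit 6657)))
(S (nat_lit 682) (S (nat_lit 388) (L (nat_lit 7278))
(L (nat_lit 6657)))
(L (nat_lit 17447))))
(L (nat_lit 12294)))))
(L (nat_lit 12426)))))
(S (nat_lit 366) (S (nat_lit 222) (S (nat_lit 190) (S (nat_lit 461) (S (nat_lit 234) (S (nat_lit 375) (S (nat_lit 191) (S (nat_lit 460) (S (nat_lit 225) (S (nat_lit 219) (S (nat_lit 486) (S (nat_lit 270) (S (nat_lit 324) (S (nat_lit 594) (S (nat_lit 489) (S (nat_lit 237) (S (nat_lit 351) (D (nat_lit 0) (nat_lit 11372) (nat_lit 12645) (nat_lit 0))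
(L (nat_lit 14408)))
(L (nat_lit 6189)))
(S (nat_lit 648) (S (nat_lit 595) (D (nat_lit 4) (nat_lit 13537) (nat_lit 9293) (nat_lit 0))
(L (nat_lit 15616)))
(L (nat_lit 15648))))
(L (nat_lit 15432)))
(L (nat_lit 14344)))
(L (nat_lit 14530)))
(S (nat_lit 569) (S (nat_lit 495) (D (nat_lit 6) (nat_lit 6193) (nat_lit 4583) (nat_lit 0))
(L (nat_lit 9696)))
(L (nat_lit 1511))))
(L (nat_lit 11747)))
(L (nat_lit 14693)))
(L (nat_lit 16740)))
(L (nat_lit 4488)))
(L (nat_lit 15464)))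
(L (nat_lit 6533)))
(S (nat_lit 658) (L (nat_lit 15652))
(L (nat_lit 16674))))
(S (nat_lit 442) (S (nat_lit 439) (S (nat_lit 503) (S (nat_lit 96) (S (nat_lit 288) (S (nat_lit 0) (S (nat_lit 553) (D (nat_lit 2) (nat_lit 14502) (nat_lit 8674) (nat_lit 0))
(L (nat_lit 16425)))
(L (nat_lit 6560)))
(L (nat_lit 11780)))
(L (nat_lit 6316)))
(L (nat_lit 13451)))
(S (nat_lit 504) (S (nat_lit 219) (S (nat_lit 68) (S (nat_lit 71) (S (nat_lit 288) (S (nat_lit 582) (S (nat_lit 154) (S (nat_lit 240) (S (nat_lit 70) (S (nat_lit 659) (D (nat_lit 8) (nat_lit 1449) (nat_lit 6596) (nat_lit 0))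
(L (nat_lit 16424)))
(L (nat_lit 14344)))
(S (nat_lit 329) (S (nat_lit 695) (D (nat_lit 12) (nat_lit 14438) (nat_lit 11744) (nat_lit 0))
(L (nat_lit 14406)))
(L (nat_lit 8269))))
(L (nat_lit 9601)))
(L (nat_lit 16672)))
(L (nat_lit 11408)))
(L (nat_lit 9296)))
(S (nat_lit 375) (S (nat_lit 495) (S (nat_lit 278) (S (nat_lit 136) (S (nat_lit 651) (D (nat_lit 8) (nat_lit 12581) (nat_lit 9603) (nat_lit 0))
(L (nat_lit 425)))
(S (nat_lit 332) (S (nat_lit 329) (D (nat_lit 10) (nat_lit 5421) (nat_lit 8270) (nat_lit 0))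
(L (nat_lit 14532)))
(L (nat_lit 8367))))
(L (nat_lit 16490)))
(L (nat_lit 13504)))
(S (nat_lit 479) (S (nat_lit 178) (S (nat_lit 175) (S (nat_lit 551) (S (nat_lit 155) (S (nat_lit 240) (D (nat_lit 10) (nat_lit 1388) (nat_lit 6288) (nat_lit 0))
(L (nat_lit 17483)))
(S (nat_lit 654) (S (nat_lit 277) (S (nat_lit 569) (S (nat_lit 452) (D (nat_lit 12) (nat_lit 7340) (nat_lit 1546) (nat_lit 0))
(L (nat_lit 13665)))
(L (nat_lit 15367)))
(L (nat_lit 6624)))
(L (nat_lit 17664))))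
(L (nat_lit 16610)))
(L (nat_lit 14562)))
(L (nat_lit 14530)))
(L (nat_lit 15650)))))
(S (nat_lit 455) (S (nat_lit 183) (S (nat_lit 270) (S (nat_lit 13) (S (nat_lit 579) (D (nat_lit 2) (nat_lit 4487) (nat_lit 3496) (nat_lit 0))
(L (nat_lit 16456)))
(L (nat_lit 9295)))
(L (nat_lit 2286)))
(L (nat_lit 17633)))
(L (nat_lit 13539))))
(L (nat_lit 14528))))
(S (nat_lit 694) (S (nat_lit 64) (S (nat_lit 582) (S (nat_lit 432) (L (nat_lit 15467))
(L (nat_lit 9296)))
(L (nat_lit 13601)))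
(S (nat_lit 144) (S (nat_lit 424) (S (nat_lit 582) (S (nat_lit 432) (L (nat_lit 1479))
(L (nat_lit 9296)))
(L (nat_lit 13601)))
(L (nat_lit 5642)))
(L (nat_lit 1448))))
(L (nat_lit 12426)))))
(S (nat_lit 474) (S (nat_lit 219) (S (nat_lit 204) (S (nat_lit 155) (S (nat_lit 229) (L (nat_lit 6688))
(L (nat_lit 10724)))
(L (nat_lit 17730)))
(S (nat_lit 640) (L (nat_lit 17731))
(L (nat_lit 14443))))
(S (nat_lit 471) (S (nat_lit 252) (S (nat_lit 93) (S (nat_lit 630) (S (nat_lit 442) (S (nat_lit 90) (S (nat_lit 450) (S (nat_lit 63) (D (nat_lit 4) (nat_lit 15398) (nat_lit 17482) (nat_lit 0))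
(L (nat_lit 8611)))
(L (nat_lit 15499)))
(L (nat_lit 15617)))
(L (nat_lit 17765)))
(L (nat_lit 6321)))
(S (nat_lit 694) (S (nat_lit 24) (S (nat_lit 702) (S (nat_lit 594) (S (nat_lit 21) (S (nat_lit 404) (S (nat_lit 455) (S (nat_lit 500) (S (nat_lit 244) (D (nat_lit 12) (nat_lit 15462) (nat_lit 14507) (nat_lit 0))
(L (nat_lit 14530)))
(L (nat_lit 13572)))
(S (nat_lit 695) (S (nat_lit 400) (D (nat_lit 10) (nat_lit 17763) (nat_lit 3345) (nat_lit 0))
(L (nat_lit 7308)))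
(L (nat_lit 8737))))
(L (nat_lit 9632)))
(L (nat_lit 11340)))
(L (nat_lit 2602)))
(L (nat_lit 9765)))
(S (nat_lit 492) (S (nat_lit 436) (S (nat_lit 234) (S (nat_lit 126) (S (nat_lit 489) (S (nat_lit 204) (S (nat_lit 440) (S (nat_lit 695) (D (nat_lit 10) (nat_lit 12643) (nat_lit 2600) (nat_lit 0))
(L (nat_lit 14689)))
(L (nat_lit 14531)))
(S (nat_lit 382) (S (nat_lit 13) (S (nat_lit 263) (D (nat_lit 12) (nat_lit 14439) (nat_lit 15717) (nat_lit 0))
(L (nat_lit 11780)))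
(L (nat_lit 14626)))
(L (nat_lit 5324))))
(L (nat_lit 7279)))
(L (nat_lit 16520)))
(L (nat_lit 16739)))
(L (nat_lit 14343)))
(S (nat_lit 676) (S (nat_lit 155) (S (nat_lit 174) (S (nat_lit 244) (S (nat_lit 136) (D (nat_lit 16) (nat_lit 9324) (nat_lit 1543) (nat_lit 0))
(L (nat_lit 5542)))
(L (nat_lit 14344)))
(S (nat_lit 443) (S (nat_lit 201) (S (nat_lit 500) (S (nat_lit 458) (S (nat_lit 437) (D (nat_lit 10) (nat_lit 4400) (nat_lit 2600) (nat_lit 0))
(L (nat_lit 14561)))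
(L (nat_lit 3277)))
(L (nat_lit 3595)))
(S (nat_lit 344) (S (nat_lit 16) (S (nat_lit 400) (S (nat_lit 385) (D (nat_lit 10) (nat_lit 4462) (nat_lit 3345) (nat_lit 0))
(L (nat_lit 14561)))
(L (nat_lit 7308)))
(L (nat_lit 14473)))
(L (nat_lit 5453))))
(L (nat_lit 7617))))
(L (nat_lit 9393)))
(L (nat_lit 17760)))))
(L (nat_lit 14688))))
(S (nat_lit 497) (S (nat_lit 486) (S (nat_lit 201) (S (nat_lit 504) (S (nat_lit 204) (S (nat_lit 496) (S (nat_lit 63) (S (nat_lit 443) (S (nat_lit 144) (S (nat_lit 432) (S (nat_lit 434) (D (nat_lit 0) (nat_lit 7557) (nat_lit 14505) (nat_lit 0))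
(L (nat_lit 14625)))
(L (nat_lit 9296)))
(L (nat_lit 11683)))
(L (nat_lit 12577)))
(S (nat_lit 150) (S (nat_lit 147) (S (nat_lit 15) (S (nat_lit 155) (S (nat_lit 552) (S (nat_lit 443) (D (nat_lit 6) (nat_lit 2535) (nat_lit 9360) (nat_lit 0))
(L (nat_lit 10753)))
(L (nat_lit 16643)))
(L (nat_lit 16704)))
(S (nat_lit 353) (S (nat_lit 461) (S (nat_lit 191) (S (nat_lit 495) (S (nat_lit 209) (S (nat_lit 388) (S (nat_lit 371) (S (nat_lit 503) (S (nat_lit 500) (S (nat_lit 226) (S (nat_lit 479) (S (nat_lit 118) (S (nat_lit 155) (S (nat_lit 442) (A (nat_lit 2))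
(L (nat_lit 10752)))
(L (nat_lit 16704)))
(L (nat_lit 5542)))
(L (nat_lit 13478)))
(L (nat_lit 10657)))
(L (nat_lit 13572)))
(L (nat_lit 13636)))
(L (nat_lit 13633)))
(L (nat_lit 12545)))
(S (nat_lit 489) (S (nat_lit 352) (S (nat_lit 492) (S (nat_lit 396) (S (nat_lit 234) (S (nat_lit 190) (S (nat_lit 450) (S (nat_lit 136) (S (nat_lit 460) (S (nat_lit 126) (A (nat_lit 3))
(L (nat_lit 7556)))
(L (nat_lit 14625)))
(L (nat_lit 5542)))
(L (nat_lit 15499)))
(L (nat_lit 11680)))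
(L (nat_lit 6533)))
(L (nat_lit 15685)))
(L (nat_lit 15680)))
(L (nat_lit 14592)))
(L (nat_lit 1446))))
(L (nat_lit 8673)))
(L (nat_lit 9296)))
(L (nat_lit 14626)))
(L (nat_lit 14471))))
(L (nat_lit 14693)))
(L (nat_lit 15587))))
(L (nat_lit 16610)))
(L (nat_lit 7212)))
(L (nat_lit 12480)))
(S (nat_lit 684) (S (nat_lit 191) (S (nat_lit 118) (L (nat_lit 2506))
(L (nat_lit 14411)))
(L (nat_lit 9296)))
(L (nat_lit 491))))
(L (nat_lit 17632)))
(L (nat_lit 2254))))
(S (nat_lit 723) (S (nat_lit 0) (S (nat_lit 654) (S (nat_lit 636) (L (nat_lit 1543))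
(L (nat_lit 6533)))
(L (nat_lit 271)))
(S (nat_lit 489) (L (nat_lit 16491))
(L (nat_lit 7584))))
(L (nat_lit 12613)))))
(S (nat_lit 726) (S (nat_lit 136) (S (nat_lit 190) (S (nat_lit 0) (S (nat_lit 191) (S (nat_lit 723) (S (nat_lit 225) (S (nat_lit 230) (S (nat_lit 232) (S (nat_lit 496) (D (nat_lit 10) (nat_lit 14441) (nat_lit 554) (nat_lit 0))
(L (nat_lit 16610)))
(L (nat_lit 14532)))
(S (nat_lit 595) (S (nat_lit 263) (S (nat_lit 130) (S (nat_lit 134) (D (nat_lit 10) (nat_lit 16491) (nat_lit 1295) (nat_lit 0))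
(L (nat_lit 7217)))
(L (nat_lit 16581)))
(L (nat_lit 13509)))
(L (nat_lit 10720))))
(S (nat_lit 407) (S (nat_lit 717) (S (nat_lit 15) (D (nat_lit 16) (nat_lit 7587) (nat_lit 6659) (nat_lit 0))
(L (nat_lit 14503)))
(L (nat_lit 7555)))
(L (nat_lit 14629))))
(L (nat_lit 8611)))
(L (nat_lit 11681)))
(L (nat_lit 6561)))
(S (nat_lit 677) (S (nat_lit 657) (L (nat_lit 7245))
(L (nat_lit 13664)))
(L (nat_lit 9294))))
(S (nat_lit 388) (S (nat_lit 723) (S (nat_lit 190) (S (nat_lit 0) (S (nat_lit 299) (S (nat_lit 134) (S (nat_lit 676) (S (nat_lit 293) (S (nat_lit 665) (D (nat_lit 12) (nat_lit 17579) (nat_lit 2254) (nat_lit 0))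
(L (nat_lit 10412)))
(L (nat_lit 11809)))
(L (nat_lit 17760)))
(S (nat_lit 648) (S (nat_lit 75) (S (nat_lit 553) (S (nat_lit 346) (S (nat_lit 380) (D (nat_lit 12) (nat_lit 17511) (nat_lit 4433) (nat_lit 0))
(L (nat_lit 5455)))
(L (nat_lit 13387)))
(L (nat_lit 4397)))
(L (nat_lit 17701)))
(L (nat_lit 17449))))
(L (nat_lit 3531)))
(L (nat_lit 390)))
(L (nat_lit 11653)))
(L (nat_lit 335)))
(S (nat_lit 640) (S (nat_lit 569) (S (nat_lit 100) (S (nat_lit 68) (S (nat_lit 16) (S (nat_lit 442) (S (nat_lit 270) (S (nat_lit 173) (S (nat_lit 93) (S (nat_lit 293) (D (nat_lit 2) (nat_lit 9325) (nat_lit 8642) (nat_lit 0))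
(L (nat_lit 15649)))
(L (nat_lit 14688)))
(S (nat_lit 504) (S (nat_lit 582) (S (nat_lit 458) (D (nat_lit 2) (nat_lit 15527) (nat_lit 9698) (nat_lit 0))
(L (nat_lit 13505)))
(L (nat_lit 13536)))
(L (nat_lit 10289))))
(L (nat_lit 14471)))
(L (nat_lit 458)))
(L (nat_lit 14690)))
(S (nat_lit 233) (S (nat_lit 433) (S (nat_lit 496) (S (nat_lit 296) (S (nat_lit 183) (D (nat_lit 12) (nat_lit 10413) (nat_lit 1543) (nat_lit 0))
(L (nat_lit 6221)))
(L (nat_lit 3437)))
(L (nat_lit 2256)))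
(L (nat_lit 14471)))
(L (nat_lit 15616))))
(S (nat_lit 130) (S (nat_lit 349) (S (nat_lit 406) (S (nat_lit 0) (S (nat_lit 556) (S (nat_lit 623) (S (nat_lit 190) (D (nat_lit 12) (nat_lit 17577) (nat_lit 6594) (nat_lit 0))
(L (nat_lit 12576)))
(L (nat_lit 15527)))
(L (nat_lit 8577)))
(L (nat_lit 6560)))
(L (nat_lit 11308)))
(L (nat_lit 9356)))
(L (nat_lit 7182))))
(S (nat_lit 605) (L (nat_lit 8644))
(L (nat_lit 268))))
(L (nat_lit 12459)))))
(L (nat_lit 12361)))))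
(S (nat_lit 618) (S (nat_lit 222) (S (nat_lit 191) (S (nat_lit 388) (S (nat_lit 504) (S (nat_lit 442) (S (nat_lit 131) (S (nat_lit 160) (L (nat_lit 3309))
(S (nat_lit 723) (S (nat_lit 269) (S (nat_lit 635) (S (nat_lit 127) (S (nat_lit 514) (S (nat_lit 602) (D (nat_lit 14) (nat_lit 395) (nat_lit 13604) (nat_lit 0))
(L (nat_lit 15651)))
(L (nat_lit 6624)))
(L (nat_lit 16704)))
(L (nat_lit 16736)))
(S (nat_lit 413) (S (nat_lit 178) (S (nat_lit 715) (S (nat_lit 479) (S (nat_lit 659) (D (nat_lit 14) (nat_lit 337) (nat_lit 14656) (nat_lit 0))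
(L (nat_lit 16740)))
(L (nat_lit 8642)))
(L (nat_lit 16708)))
(L (nat_lit 14594)))
(L (nat_lit 11439))))
(L (nat_lit 2571))))
(L (nat_lit 9233)))
(L (nat_lit 5420)))
(L (nat_lit 11744)))
(L (nat_lit 6257)))
(S (nat_lit 443) (S (nat_lit 136) (S (nat_lit 348) (S (nat_lit 72) (S (nat_lit 275) (S (nat_lit 132) (S (nat_lit 555) (S (nat_lit 95) (S (nat_lit 568) (S (nat_lit 654) (S (nat_lit 375) (D (nat_lit 12) (nat_lit 7557) (nat_lit 10689) (nat_lit 0))
(L (nat_lit 15652)))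
(L (nat_lit 15531)))
(L (nat_lit 15682)))
(L (nat_lit 11749)))
(L (nat_lit 13635)))
(S (nat_lit 579) (S (nat_lit 250) (S (nat_lit 424) (S (nat_lit 520) (S (nat_lit 219) (S (nat_lit 408) (S (nat_lit 252) (S (nat_lit 148) (D (nat_lit 2) (nat_lit 12390) (nat_lit 6692) (nat_lit 0))
(L (nat_lit 14475)))
(L (nat_lit 8640)))
(S (nat_lit 438) (S (nat_lit 352) (S (nat_lit 70) (D (nat_lit 2) (nat_lit 6316) (nat_lit 6661) (nat_lit 0))
(L (nat_lit 14660)))
(L (nat_lit 14597)))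
(L (nat_lit 9326))))
(L (nat_lit 11747)))
(L (nat_lit 2504)))
(L (nat_lit 8642)))
(L (nat_lit 14658)))
(L (nat_lit 3592))))
(L (nat_lit 14593)))
(S (nat_lit 225) (S (nat_lit 504) (S (nat_lit 71) (S (nat_lit 412) (S (nat_lit 683) (S (nat_lit 237) (D (nat_lit 12) (nat_lit 12645) (nat_lit 3590) (nat_lit 0))
(L (nat_lit 6627)))
(L (nat_lit 9601)))
(L (nat_lit 14506)))
(L (nat_lit 14346)))
(L (nat_lit 14561)))
(L (nat_lit 10659))))
(L (nat_lit 13480)))
(L (nat_lit 3467)))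
(S (nat_lit 695) (S (nat_lit 95) (S (nat_lit 553) (S (nat_lit 628) (S (nat_lit 471) (S (nat_lit 594) (S (nat_lit 202) (S (nat_lit 296) (D (nat_lit 3) (nat_lit 8268) (nat_lit 5391) (nat_lit 0))
(L (nat_lit 15681)))
(S (nat_lit 228) (S (nat_lit 424) (D (nat_lit 3) (nat_lit 8301) (nat_lit 554) (nat_lit 0))
(L (nat_lit 13351)))
(L (nat_lit 10725))))
(L (nat_lit 15620)))
(S (nat_lit 723) (S (nat_lit 551) (S (nat_lit 72) (D (nat_lit 14) (nat_lit 4519) (nat_lit 426) (nat_lit 0))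
(L (nat_lit 17637)))
(L (nat_lit 8674)))
(L (nat_lit 12425))))
(L (nat_lit 8641)))
(L (nat_lit 13449)))
(S (nat_lit 579) (S (nat_lit 442) (S (nat_lit 658) (S (nat_lit 521) (S (nat_lit 149) (S (nat_lit 72) (S (nat_lit 274) (S (nat_lit 252) (S (nat_lit 408) (D (nat_lit 2) (nat_lit 3463) (nat_lit 6532) (nat_lit 0))
(L (nat_lit 11648)))
(L (nat_lit 2256)))
(L (nat_lit 6693)))
(L (nat_lit 17637)))
(S (nat_lit 288) (S (nat_lit 504) (S (nat_lit 274) (S (nat_lit 63) (S (nat_lit 239) (S (nat_lit 569) (S (nat_lit 136) (D (nat_lit 2) (nat_lit 13509) (nat_lit 7652) (nat_lit 0))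
(L (nat_lit 8577)))
(L (nat_lit 15620)))
(L (nat_lit 17632)))
(L (nat_lit 15557)))
(S (nat_lit 602) (S (nat_lit 640) (S (nat_lit 689) (S (nat_lit 514) (D (nat_lit 14) (nat_lit 5510) (nat_lit 2440) (nat_lit 0))
(L (nat_lit 6693)))
(L (nat_lit 13633)))
(L (nat_lit 12545)))
(L (nat_lit 4396))))
(L (nat_lit 14342)))
(L (nat_lit 1232))))
(L (nat_lit 17729)))
(L (nat_lit 10786)))
(L (nat_lit 10752)))
(L (nat_lit 2257))))
(L (nat_lit 12577)))))
(S (nat_lit 474) (S (nat_lit 191) (S (nat_lit 471) (L (nat_lit 1450))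
(S (nat_lit 715) (S (nat_lit 125) (S (nat_lit 640) (S (nat_lit 252) (S (nat_lit 118) (S (nat_lit 356) (S (nat_lit 575) (S (nat_lit 325) (S (nat_lit 106) (D (nat_lit 14) (nat_lit 13353) (nat_lit 14593) (nat_lit 0))
(L (nat_lit 16518)))
(L (nat_lit 14374)))
(L (nat_lit 8580)))
(L (nat_lit 14529)))
(S (nat_lit 382) (S (nat_lit 184) (S (nat_lit 467) (S (nat_lit 234) (D (nat_lit 14) (nat_lit 4303) (nat_lit 16459) (nat_lit 0))
(L (nat_lit 16739)))
(L (nat_lit 14594)))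
(L (nat_lit 17730)))
(L (nat_lit 5510))))
(L (nat_lit 17633)))
(L (nat_lit 7713)))
(S (nat_lit 723) (S (nat_lit 484) (S (nat_lit 610) (S (nat_lit 373) (S (nat_lit 275) (S (nat_lit 684) (S (nat_lit 396) (S (nat_lit 575) (S (nat_lit 262) (D (nat_lit 3) (nat_lit 490) (nat_lit 15432) (nat_lit 0))
(S (nat_lit 707) (S (nat_lit 496) (D (nat_lit 3) (nat_lit 1578) (nat_lit 17666) (nat_lit 0))
(L (nat_lit 9699)))
(L (nat_lit 5640))))
(L (nat_lit 15495)))
(L (nat_lit 15683)))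
(L (nat_lit 16738)))
(S (nat_lit 640) (S (nat_lit 630) (S (nat_lit 521) (S (nat_lit 329) (S (nat_lit 653) (S (nat_lit 186) (D (nat_lit 3) (nat_lit 6597) (nat_lit 10788) (nat_lit 0))
(S (nat_lit 252) (D (nat_lit 3) (nat_lit 7653) (nat_lit 15618) (nat_lit 0))
(L (nat_lit 17601))))
(L (nat_lit 9636)))
(L (nat_lit 14532)))
(L (nat_lit 6529)))
(L (nat_lit 16643)))
(L (nat_lit 14507))))
(L (nat_lit 3462)))
(L (nat_lit 11717)))
(L (nat_lit 15620)))
(L (nat_lit 6659))))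
(L (nat_lit 1360))))
(S (nat_lit 443) (S (nat_lit 219) (S (nat_lit 388) (S (nat_lit 694) (S (nat_lit 348) (S (nat_lit 276) (S (nat_lit 522) (S (nat_lit 373) (D (nat_lit 14) (nat_lit 3308) (nat_lit 4520) (nat_lit 0))
(L (nat_lit 13664)))
(L (nat_lit 16578)))
(L (nat_lit 6562)))
(S (nat_lit 633) (S (nat_lit 63) (S (nat_lit 317) (S (nat_lit 382) (D (nat_lit 14) (nat_lit 2439) (nat_lit 1450) (nat_lit 0))
(L (nat_lit 14529)))
(L (nat_lit 15586)))
(L (nat_lit 14533)))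
(L (nat_lit 13448))))
(L (nat_lit 6624)))
(L (nat_lit 17515)))
(L (nat_lit 5611)))
(S (nat_lit 695) (S (nat_lit 252) (S (nat_lit 136) (S (nat_lit 694) (S (nat_lit 177) (S (nat_lit 492) (S (nat_lit 231) (S (nat_lit 437) (S (nat_lit 77) (S (nat_lit 424) (S (nat_lit 348) (D (nat_lit 12) (nat_lit 11653) (nat_lit 3590) (nat_lit 0))
(L (nat_lit 13482)))
(L (nat_lit 8642)))
(L (nat_lit 16642)))
(L (nat_lit 14659)))
(L (nat_lit 14595)))
(S (nat_lit 520) (S (nat_lit 63) (S (nat_lit 325) (S (nat_lit 106) (S (nat_lit 606) (D (nat_lit 12) (nat_lit 13507) (nat_lit 490) (nat_lit 0))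
(L (nat_lit 16552)))
(L (nat_lit 16611)))
(L (nat_lit 14659)))
(L (nat_lit 14563)))
(L (nat_lit 6528))))
(L (nat_lit 15553)))
(L (nat_lit 1325)))
(L (nat_lit 3467)))
(L (nat_lit 3526)))
(L (nat_lit 12579)))))
(S (nat_lit 726) (S (nat_lit 136) (S (nat_lit 471) (S (nat_lit 15) (S (nat_lit 191) (S (nat_lit 21) (S (nat_lit 0) (S (nat_lit 124) (S (nat_lit 450) (S (nat_lit 251) (S (nat_lit 497) (S (nat_lit 233) (D (nat_lit 12) (nat_lit 14693) (nat_lit 12393) (nat_lit 0))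
(L (nat_lit 14344)))
(L (nat_lit 16613)))
(L (nat_lit 6564)))
(L (nat_lit 15652)))
(S (nat_lit 491) (S (nat_lit 684) (S (nat_lit 130) (S (nat_lit 263) (S (nat_lit 239) (D (nat_lit 12) (nat_lit 16677) (nat_lit 13417) (nat_lit 0))
(L (nat_lit 456)))
(L (nat_lit 15589)))
(L (nat_lit 16741)))
(L (nat_lit 16740)))
(L (nat_lit 6661))))
(L (nat_lit 13505)))
(L (nat_lit 17665)))
(L (nat_lit 9361)))
(S (nat_lit 695) (L (nat_lit 6252))
(L (nat_lit 8737))))
(S (nat_lit 568) (S (nat_lit 183) (S (nat_lit 177) (L (nat_lit 2289))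
(L (nat_lit 3625)))
(L (nat_lit 17513)))
(L (nat_lit 17451))))
(S (nat_lit 382) (S (nat_lit 388) (S (nat_lit 322) (S (nat_lit 431) (S (nat_lit 202) (S (nat_lit 149) (S (nat_lit 437) (S (nat_lit 225) (S (nat_lit 107) (S (nat_lit 403) (S (nat_lit 551) (D (nat_lit 3) (nat_lit 4462) (nat_lit 9297) (nat_lit 0))
(L (nat_lit 13536)))
(S (nat_lit 515) (D (nat_lit 3) (nat_lit 11436) (nat_lit 3343) (nat_lit 0))
(L (nat_lit 7244))))
(L (nat_lit 16551)))
(L (nat_lit 14507)))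
(L (nat_lit 14657)))
(L (nat_lit 15401)))
(L (nat_lit 14661)))
(L (nat_lit 15620)))
(L (nat_lit 11281)))
(S (nat_lit 640) (S (nat_lit 471) (S (nat_lit 21) (S (nat_lit 263) (S (nat_lit 491) (S (nat_lit 125) (S (nat_lit 500) (S (nat_lit 16) (S (nat_lit 458) (S (nat_lit 689) (D (nat_lit 2) (nat_lit 17547) (nat_lit 14374) (nat_lit 0))
(L (nat_lit 10753)))
(L (nat_lit 15553)))
(S (nat_lit 599) (S (nat_lit 130) (S (nat_lit 250) (D (nat_lit 2) (nat_lit 16674) (nat_lit 12480) (nat_lit 0))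
(L (nat_lit 6289)))
(L (nat_lit 17760)))
(L (nat_lit 15715))))
(L (nat_lit 9326)))
(L (nat_lit 5639)))
(L (nat_lit 17701)))
(L (nat_lit 11717)))
(S (nat_lit 443) (S (nat_lit 683) (S (nat_lit 0) (S (nat_lit 553) (S (nat_lit 130) (S (nat_lit 161) (S (nat_lit 630) (D (nat_lit 14) (nat_lit 3558) (nat_lit 15650) (nat_lit 0))
(L (nat_lit 11749)))
(L (nat_lit 17696)))
(L (nat_lit 17760)))
(S (nat_lit 678) (S (nat_lit 214) (S (nat_lit 125) (S (nat_lit 662) (D (nat_lit 14) (nat_lit 15463) (nat_lit 15433) (nat_lit 0))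
(L (nat_lit 3404)))
(L (nat_lit 15463)))
(L (nat_lit 17664)))
(L (nat_lit 9636))))
(L (nat_lit 6528)))
(L (nat_lit 9601)))
(L (nat_lit 17478))))
(L (nat_lit 4430)))
(L (nat_lit 12612))))
(S (nat_lit 628) (S (nat_lit 388) (S (nat_lit 471) (S (nat_lit 177) (S (nat_lit 214) (S (nat_lit 684) (S (nat_lit 662) (S (nat_lit 431) (S (nat_lit 437) (D (nat_lit 14) (nat_lit 15466) (nat_lit 17729) (nat_lit 0))
(L (nat_lit 16550)))
(L (nat_lit 6564)))
(L (nat_lit 16709)))
(L (nat_lit 16740)))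
(L (nat_lit 17664)))
(S (nat_lit 497) (S (nat_lit 251) (S (nat_lit 269) (S (nat_lit 500) (S (nat_lit 131) (S (nat_lit 22) (S (nat_lit 458) (S (nat_lit 689) (D (nat_lit 2) (nat_lit 4651) (nat_lit 14374) (nat_lit 0))
(L (nat_lit 7683)))
(L (nat_lit 15619)))
(S (nat_lit 359) (S (nat_lit 605) (S (nat_lit 0) (D (nat_lit 2) (nat_lit 1546) (nat_lit 14528) (nat_lit 0))
(L (nat_lit 6528)))
(L (nat_lit 16641)))
(L (nat_lit 4585))))
(L (nat_lit 16551)))
(L (nat_lit 13605)))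
(S (nat_lit 437) (S (nat_lit 149) (S (nat_lit 396) (S (nat_lit 124) (S (nat_lit 75) (D (nat_lit 14) (nat_lit 9324) (nat_lit 14626) (nat_lit 0))
(L (nat_lit 10725)))
(L (nat_lit 518)))
(L (nat_lit 13635)))
(L (nat_lit 11408)))
(L (nat_lit 4431))))
(L (nat_lit 16554)))
(L (nat_lit 2603))))
(L (nat_lit 7715)))
(L (nat_lit 17515)))
(L (nat_lit 10628)))))
(L (nat_lit 12547)))))
(L (nat_lit 12580)))))
(S (nat_lit 389) (S (nat_lit 114) (S (nat_lit 136) (S (nat_lit 190) (S (nat_lit 222) (S (nat_lit 471) (S (nat_lit 504) (S (nat_lit 443) (S (nat_lit 14) (S (nat_lit 246) (S (nat_lit 706) (S (nat_lit 250) (S (nat_lit 452) (S (nat_lit 495) (D (nat_lit 12) (nat_lit 3312) (nat_lit 15715) (nat_lit 0))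
(L (nat_lit 8673)))
(L (nat_lit 8641)))
(L (nat_lit 14659)))
(L (nat_lit 17633)))
(S (nat_lit 486) (S (nat_lit 688) (S (nat_lit 240) (S (nat_lit 250) (D (nat_lit 12) (nat_lit 1543) (nat_lit 13669) (nat_lit 0))
(L (nat_lit 7313)))
(L (nat_lit 16581)))
(L (nat_lit 16613)))
(L (nat_lit 7712))))
(S (nat_lit 491) (S (nat_lit 460) (S (nat_lit 438) (S (nat_lit 119) (S (nat_lit 352) (S (nat_lit 227) (S (nat_lit 147) (S (nat_lit 384) (S (nat_lit 201) (S (nat_lit 238) (S (nat_lit 130) (S (nat_lit 215) (S (nat_lit 161) (S (nat_lit 400) (S (nat_lit 377) (S (nat_lit 485) (S (nat_lit 454) (S (nat_lit 502) (A (nat_lit 4))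
(L (nat_lit 9667)))
(L (nat_lit 6528)))
(L (nat_lit 422)))
(L (nat_lit 7585)))
(L (nat_lit 7553)))
(L (nat_lit 9297)))
(L (nat_lit 8305)))
(L (nat_lit 9701)))
(L (nat_lit 8644)))
(L (nat_lit 7181)))
(L (nat_lit 16613)))
(L (nat_lit 6189)))
(L (nat_lit 1446)))
(L (nat_lit 16518)))
(L (nat_lit 6561)))
(L (nat_lit 16580)))
(L (nat_lit 16737)))
(L (nat_lit 15653))))
(L (nat_lit 7311)))
(L (nat_lit 4303)))
(L (nat_lit 7557)))
(L (nat_lit 13509)))
(S (nat_lit 442) (S (nat_lit 101) (L (nat_lit 7653))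
(S (nat_lit 347) (S (nat_lit 723) (S (nat_lit 695) (S (nat_lit 474) (S (nat_lit 412) (S (nat_lit 76) (S (nat_lit 355) (S (nat_lit 348) (D (nat_lit 14) (nat_lit 520) (nat_lit 9356) (nat_lit 0))
(L (nat_lit 15649)))
(L (nat_lit 14693)))
(S (nat_lit 290) (S (nat_lit 502) (S (nat_lit 408) (S (nat_lit 485) (D (nat_lit 14) (nat_lit 9232) (nat_lit 8273) (nat_lit 0))
(L (nat_lit 8608)))
(L (nat_lit 395)))
(L (nat_lit 8578)))
(L (nat_lit 11713))))
(L (nat_lit 487)))
(L (nat_lit 1513)))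
(L (nat_lit 14472)))
(L (nat_lit 14473)))
(L (nat_lit 4487))))
(S (nat_lit 694) (S (nat_lit 160) (S (nat_lit 176) (S (nat_lit 324) (S (nat_lit 148) (S (nat_lit 101) (D (nat_lit 14) (nat_lit 14532) (nat_lit 3344) (nat_lit 0))
(L (nat_lit 17447)))
(L (nat_lit 6596)))
(L (nat_lit 1294)))
(L (nat_lit 14440)))
(S (nat_lit 347) (S (nat_lit 726) (S (nat_lit 648) (S (nat_lit 430) (S (nat_lit 177) (S (nat_lit 238) (S (nat_lit 191) (D (nat_lit 14) (nat_lit 1260) (nat_lit 5452) (nat_lit 0))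
(L (nat_lit 2470)))
(L (nat_lit 16609)))
(L (nat_lit 14529)))
(S (nat_lit 723) (S (nat_lit 657) (S (nat_lit 78) (S (nat_lit 683) (S (nat_lit 0) (D (nat_lit 2) (nat_lit 16551) (nat_lit 10385) (nat_lit 0))
(L (nat_lit 422)))
(L (nat_lit 15464)))
(S (nat_lit 290) (S (nat_lit 252) (S (nat_lit 719) (D (nat_lit 2) (nat_lit 2285) (nat_lit 11405) (nat_lit 0))
(L (nat_lit 13504)))
(L (nat_lit 12480)))
(L (nat_lit 11341))))
(L (nat_lit 13355)))
(L (nat_lit 8611))))
(L (nat_lit 9761)))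
(L (nat_lit 209)))
(L (nat_lit 9295))))
(L (nat_lit 12640)))))
(S (nat_lit 388) (S (nat_lit 147) (S (nat_lit 132) (S (nat_lit 222) (S (nat_lit 471) (S (nat_lit 504) (S (nat_lit 240) (S (nat_lit 456) (S (nat_lit 438) (S (nat_lit 486) (S (nat_lit 190) (S (nat_lit 176) (S (nat_lit 528) (S (nat_lit 209) (D (nat_lit 10) (nat_lit 10659) (nat_lit 7715) (nat_lit 0))
(L (nat_lit 16673)))
(L (nat_lit 390)))
(L (nat_lit 14661)))
(S (nat_lit 498) (S (nat_lit 442) (S (nat_lit 501) (S (nat_lit 503) (S (nat_lit 402) (S (nat_lit 118) (S (nat_lit 226) (S (nat_lit 443) (S (nat_lit 502) (S (nat_lit 119) (S (nat_lit 227) (S (nat_lit 495) (S (nat_lit 384) (S (nat_lit 201) (A (nat_lit 5))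
(L (nat_lit 7181)))
(L (nat_lit 16677)))
(L (nat_lit 8737)))
(L (nat_lit 4518)))
(L (nat_lit 11681)))
(L (nat_lit 13667)))
(L (nat_lit 12577)))
(L (nat_lit 4519)))
(L (nat_lit 11680)))
(L (nat_lit 13605)))
(L (nat_lit 13669)))
(L (nat_lit 13664)))
(L (nat_lit 12576)))
(L (nat_lit 2351))))
(L (nat_lit 1231)))
(L (nat_lit 4587)))
(L (nat_lit 1513)))
(L (nat_lit 17419)))
(L (nat_lit 11745)))
(L (nat_lit 17733)))
(S (nat_lit 474) (S (nat_lit 442) (S (nat_lit 723) (S (nat_lit 503) (S (nat_lit 466) (S (nat_lit 252) (S (nat_lit 485) (D (nat_lit 10) (nat_lit 1547) (nat_lit 2602) (nat_lit 0))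
(L (nat_lit 13384)))
(L (nat_lit 2254)))
(L (nat_lit 9228)))
(L (nat_lit 13669)))
(L (nat_lit 6659)))
(L (nat_lit 7685)))
(L (nat_lit 12297))))
(S (nat_lit 570) (S (nat_lit 504) (S (nat_lit 191) (S (nat_lit 305) (S (nat_lit 372) (S (nat_lit 398) (D (nat_lit 10) (nat_lit 11651) (nat_lit 9329) (nat_lit 0))
(L (nat_lit 15527)))
(L (nat_lit 1418)))
(L (nat_lit 14688)))
(L (nat_lit 4520)))
(L (nat_lit 12480)))
(L (nat_lit 17514))))
(S (nat_lit 219) (S (nat_lit 694) (S (nat_lit 695) (S (nat_lit 0) (S (nat_lit 543) (S (nat_lit 276) (S (nat_lit 438) (S (nat_lit 346) (S (nat_lit 203) (S (nat_lit 526) (S (nat_lit 357) (D (nat_lit 12) (nat_lit 15651) (nat_lit 7310) (nat_lit 0))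
(L (nat_lit 4520)))
(L (nat_lit 13605)))
(L (nat_lit 5360)))
(L (nat_lit 5515)))
(S (nat_lit 665) (S (nat_lit 323) (S (nat_lit 160) (S (nat_lit 705) (D (nat_lit 12) (nat_lit 17765) (nat_lit 6224) (nat_lit 0))
(L (nat_lit 15685)))
(L (nat_lit 17700)))
(L (nat_lit 11746)))
(L (nat_lit 16580))))
(L (nat_lit 6190)))
(L (nat_lit 6193)))
(L (nat_lit 6188)))
(L (nat_lit 6627)))
(L (nat_lit 6629)))
(S (nat_lit 604) (S (nat_lit 605) (S (nat_lit 90) (S (nat_lit 705) (S (nat_lit 374) (S (nat_lit 252) (S (nat_lit 13) (S (nat_lit 355) (D (nat_lit 10) (nat_lit 4553) (nat_lit 3343) (nat_lit 0))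
(L (nat_lit 14693)))
(L (nat_lit 14627)))
(L (nat_lit 12480)))
(L (nat_lit 9229)))
(L (nat_lit 9733)))
(L (nat_lit 11309)))
(L (nat_lit 11747)))
(L (nat_lit 11405)))))
(S (nat_lit 640) (S (nat_lit 36) (S (nat_lit 305) (S (nat_lit 290) (S (nat_lit 191) (S (nat_lit 439) (D (nat_lit 14) (nat_lit 12516) (nat_lit 1544) (nat_lit 0))
(L (nat_lit 14533)))
(L (nat_lit 12577)))
(L (nat_lit 1261)))
(L (nat_lit 6157)))
(S (nat_lit 222) (S (nat_lit 250) (S (nat_lit 161) (S (nat_lit 268) (S (nat_lit 503) (S (nat_lit 13) (S (nat_lit 439) (S (nat_lit 690) (S (nat_lit 0) (D (nat_lit 2) (nat_lit 1358) (nat_lit 14374) (nat_lit 0))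
(L (nat_lit 6157)))
(L (nat_lit 16580)))
(S (nat_lit 484) (S (nat_lit 504) (S (nat_lit 226) (D (nat_lit 2) (nat_lit 4616) (nat_lit 15399) (nat_lit 0))
(L (nat_lit 7585)))
(L (nat_lit 12480)))
(L (nat_lit 2321))))
(L (nat_lit 8302)))
(L (nat_lit 8366)))
(L (nat_lit 15528)))
(L (nat_lit 7680)))
(S (nat_lit 454) (S (nat_lit 161) (S (nat_lit 504) (S (nat_lit 190) (S (nat_lit 10) (S (nat_lit 305) (S (nat_lit 611) (S (nat_lit 156) (S (nat_lit 628) (D (nat_lit 14) (nat_lit 8740) (nat_lit 17698) (nat_lit 0))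
(L (nat_lit 8580)))
(L (nat_lit 2536)))
(L (nat_lit 16489)))
(L (nat_lit 14688)))
(S (nat_lit 412) (S (nat_lit 598) (S (nat_lit 23) (S (nat_lit 683) (S (nat_lit 198) (D (nat_lit 14) (nat_lit 12578) (nat_lit 17481) (nat_lit 0))
(L (nat_lit 14628)))
(L (nat_lit 15553)))
(L (nat_lit 10352)))
(L (nat_lit 8368)))
(L (nat_lit 14530))))
(L (nat_lit 12576)))
(L (nat_lit 11281)))
(S (nat_lit 401) (S (nat_lit 521) (S (nat_lit 305) (S (nat_lit 689) (S (nat_lit 412) (S (nat_lit 252) (S (nat_lit 64) (D (nat_lit 3) (nat_lit 1392) (nat_lit 8273) (nat_lit 0))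
(L (nat_lit 14564)))
(S (nat_lit 628) (S (nat_lit 504) (D (nat_lit 3) (nat_lit 369) (nat_lit 17544) (nat_lit 0))
(L (nat_lit 11281)))
(L (nat_lit 3312))))
(L (nat_lit 14530)))
(L (nat_lit 7587)))
(L (nat_lit 14347)))
(L (nat_lit 2414)))
(L (nat_lit 9762))))
(L (nat_lit 6316))))
(S (nat_lit 467) (S (nat_lit 191) (S (nat_lit 292) (S (nat_lit 474) (S (nat_lit 198) (S (nat_lit 125) (S (nat_lit 106) (S (nat_lit 694) (S (nat_lit 219) (S (nat_lit 245) (D (nat_lit 3) (nat_lit 5608) (nat_lit 14408) (nat_lit 0))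
(S (nat_lit 546) (D (nat_lit 3) (nat_lit 11651) (nat_lit 3345) (nat_lit 0))
(L (nat_lit 7183))))
(L (nat_lit 3563)))
(L (nat_lit 8333)))
(L (nat_lit 17698)))
(L (nat_lit 15587)))
(S (nat_lit 305) (S (nat_lit 484) (S (nat_lit 723) (S (nat_lit 549) (S (nat_lit 300) (D (nat_lit 14) (nat_lit 3276) (nat_lit 4490) (nat_lit 0))
(L (nat_lit 14374)))
(L (nat_lit 13539)))
(L (nat_lit 12515)))
(L (nat_lit 13505)))
(L (nat_lit 14690))))
(L (nat_lit 4523)))
(L (nat_lit 11813)))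
(S (nat_lit 443) (S (nat_lit 726) (S (nat_lit 694) (S (nat_lit 0) (S (nat_lit 292) (S (nat_lit 148) (S (nat_lit 501) (S (nat_lit 133) (S (nat_lit 596) (D (nat_lit 14) (nat_lit 9295) (nat_lit 12580) (nat_lit 0))
(L (nat_lit 10723)))
(L (nat_lit 16613)))
(L (nat_lit 16737)))
(L (nat_lit 14692)))
(S (nat_lit 711) (S (nat_lit 238) (S (nat_lit 161) (S (nat_lit 665) (D (nat_lit 14) (nat_lit 3313) (nat_lit 15435) (nat_lit 0))
(L (nat_lit 10380)))
(L (nat_lit 2601)))
(L (nat_lit 8673)))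
(L (nat_lit 1329))))
(L (nat_lit 6157)))
(L (nat_lit 14410)))
(L (nat_lit 14411)))
(L (nat_lit 12579))))
(L (nat_lit 5325)))))
(L (nat_lit 12612)))))
(S (nat_lit 366) (S (nat_lit 136) (S (nat_lit 204) (S (nat_lit 119) (S (nat_lit 154) (S (nat_lit 499) (S (nat_lit 227) (S (nat_lit 474) (S (nat_lit 201) (S (nat_lit 502) (S (nat_lit 471) (S (nat_lit 190) (S (nat_lit 478) (S (nat_lit 150) (S (nat_lit 147) (S (nat_lit 443) (S (nat_lit 495) (S (nat_lit 496) (S (nat_lit 504) (S (nat_lit 370) (S (nat_lit 352) (S (nat_lit 497) (S (nat_lit 460) (S (nat_lit 208) (S (nat_lit 486) (A (nat_lit 6))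
(L (nat_lit 486)))
(L (nat_lit 16519)))
(L (nat_lit 14506)))
(L (nat_lit 16613)))
(L (nat_lit 14661)))
(L (nat_lit 15430)))
(L (nat_lit 11809)))
(L (nat_lit 9699)))
(L (nat_lit 9697)))
(L (nat_lit 17761)))
(L (nat_lit 15715)))
(L (nat_lit 15651)))
(L (nat_lit 15649)))
(S (nat_lit 290) (S (nat_lit 454) (S (nat_lit 439) (S (nat_lit 272) (D (nat_lit 10) (nat_lit 7279) (nat_lit 3593) (nat_lit 0))
(L (nat_lit 16609)))
(L (nat_lit 9637)))
(L (nat_lit 15584)))
(L (nat_lit 11343))))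
(L (nat_lit 1579)))
(L (nat_lit 8579)))
(L (nat_lit 7181)))
(L (nat_lit 17669)))
(L (nat_lit 4400)))
(L (nat_lit 2352)))
(L (nat_lit 335)))
(L (nat_lit 14659)))
(S (nat_lit 222) (S (nat_lit 190) (S (nat_lit 443) (S (nat_lit 504) (S (nat_lit 68) (S (nat_lit 71) (S (nat_lit 208) (S (nat_lit 237) (D (nat_lit 10) (nat_lit 1325) (nat_lit 6660) (nat_lit 0))
(L (nat_lit 16613)))
(L (nat_lit 16522)))
(L (nat_lit 8706)))
(S (nat_lit 601) (S (nat_lit 598) (S (nat_lit 495) (S (nat_lit 372) (D (nat_lit 10) (nat_lit 5484) (nat_lit 15650) (nat_lit 0))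
(L (nat_lit 1576)))
(L (nat_lit 16609)))
(L (nat_lit 15552)))
(L (nat_lit 8240))))
(L (nat_lit 5606)))
(L (nat_lit 17763)))
(L (nat_lit 9294)))
(S (nat_lit 298) (S (nat_lit 648) (S (nat_lit 78) (S (nat_lit 723) (S (nat_lit 515) (S (nat_lit 347) (S (nat_lit 379) (S (nat_lit 0) (S (nat_lit 230) (D (nat_lit 12) (nat_lit 17510) (nat_lit 1265) (nat_lit 0))
(L (nat_lit 10385)))
(L (nat_lit 205)))
(L (nat_lit 5643)))
(L (nat_lit 7557)))
(L (nat_lit 17546)))
(L (nat_lit 12515)))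
(L (nat_lit 17763)))
(S (nat_lit 677) (S (nat_lit 471) (S (nat_lit 474) (S (nat_lit 252) (S (nat_lit 404) (S (nat_lit 383) (S (nat_lit 14) (D (nat_lit 10) (nat_lit 4400) (nat_lit 3345) (nat_lit 0))
(L (nat_lit 8645)))
(L (nat_lit 16578)))
(L (nat_lit 13538)))
(L (nat_lit 8208)))
(L (nat_lit 7651)))
(S (nat_lit 723) (S (nat_lit 726) (S (nat_lit 0) (S (nat_lit 130) (S (nat_lit 295) (S (nat_lit 661) (D (nat_lit 12) (nat_lit 17513) (nat_lit 2254) (nat_lit 0))
(L (nat_lit 2471)))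
(L (nat_lit 11685)))
(L (nat_lit 16581)))
(L (nat_lit 422)))
(L (nat_lit 14595)))
(L (nat_lit 12329))))
(L (nat_lit 11809))))
(L (nat_lit 5324)))))
(S (nat_lit 388) (S (nat_lit 222) (S (nat_lit 324) (S (nat_lit 342) (S (nat_lit 504) (S (nat_lit 525) (S (nat_lit 178) (S (nat_lit 551) (S (nat_lit 201) (S (nat_lit 723) (S (nat_lit 377) (S (nat_lit 695) (D (nat_lit 2) (nat_lit 15589) (nat_lit 9297) (nat_lit 0))
(L (nat_lit 14625)))
(L (nat_lit 13539)))
(L (nat_lit 12515)))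
(S (nat_lit 219) (S (nat_lit 176) (S (nat_lit 208) (D (nat_lit 8) (nat_lit 1388) (nat_lit 6288) (nat_lit 0))
(L (nat_lit 16677)))
(L (nat_lit 14564)))
(L (nat_lit 5357))))
(L (nat_lit 4650)))
(S (nat_lit 515) (S (nat_lit 661) (S (nat_lit 376) (S (nat_lit 694) (S (nat_lit 550) (D (nat_lit 2) (nat_lit 4332) (nat_lit 9292) (nat_lit 0))
(L (nat_lit 8676)))
(L (nat_lit 8672)))
(L (nat_lit 13536)))
(L (nat_lit 13538)))
(L (nat_lit 7310))))
(L (nat_lit 8706)))
(S (nat_lit 648) (S (nat_lit 0) (S (nat_lit 690) (S (nat_lit 42) (S (nat_lit 349) (S (nat_lit 695) (S (nat_lit 64) (S (nat_lit 178) (D (nat_lit 2) (nat_lit 9635) (nat_lit 8272) (nat_lit 0))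
(L (nat_lit 15555)))
(L (nat_lit 9601)))
(L (nat_lit 12577)))
(S (nat_lit 385) (S (nat_lit 179) (S (nat_lit 46) (D (nat_lit 2) (nat_lit 1446) (nat_lit 3373) (nat_lit 0))
(L (nat_lit 16581)))
(L (nat_lit 14533)))
(L (nat_lit 5611))))
(L (nat_lit 8708)))
(L (nat_lit 13570)))
(L (nat_lit 7180)))
(L (nat_lit 11809))))
(S (nat_lit 398) (S (nat_lit 546) (S (nat_lit 191) (S (nat_lit 514) (S (nat_lit 504) (S (nat_lit 329) (D (nat_lit 8) (nat_lit 12393) (nat_lit 9325) (nat_lit 0))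
(L (nat_lit 14441)))
(L (nat_lit 14529)))
(L (nat_lit 15432)))
(L (nat_lit 13667)))
(L (nat_lit 15715)))
(L (nat_lit 15680))))
(S (nat_lit 442) (S (nat_lit 118) (S (nat_lit 369) (S (nat_lit 351) (S (nat_lit 237) (S (nat_lit 219) (S (nat_lit 498) (S (nat_lit 225) (S (nat_lit 10) (D (nat_lit 6) (nat_lit 3279) (nat_lit 12294) (nat_lit 0))
(S (nat_lit 171) (S (nat_lit 354) (D (nat_lit 0) (nat_lit 7276) (nat_lit 14627) (nat_lit 0))
(L (nat_lit 14530)))
(L (nat_lit 14377))))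
(L (nat_lit 14441)))
(S (nat_lit 576) (S (nat_lit 173) (S (nat_lit 171) (S (nat_lit 63) (D (nat_lit 4) (nat_lit 15552) (nat_lit 17546) (nat_lit 0))
(L (nat_lit 14531)))
(L (nat_lit 7181)))
(L (nat_lit 15366)))
(L (nat_lit 16640))))
(L (nat_lit 11747)))
(L (nat_lit 6595)))
(L (nat_lit 8706)))
(L (nat_lit 1544)))
(L (nat_lit 14592)))
(L (nat_lit 458))))
(S (nat_lit 474) (S (nat_lit 471) (S (nat_lit 378) (S (nat_lit 396) (S (nat_lit 191) (S (nat_lit 208) (S (nat_lit 209) (S (nat_lit 190) (S (nat_lit 496) (S (nat_lit 198) (S (nat_lit 379) (S (nat_lit 171) (D (nat_lit 0) (nat_lit 7555) (nat_lit 14629) (nat_lit 0))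
(L (nat_lit 14625)))
(S (nat_lit 660) (D (nat_lit 6) (nat_lit 2534) (nat_lit 5671) (nat_lit 0))
(L (nat_lit 3409))))
(L (nat_lit 14628)))
(S (nat_lit 690) (S (nat_lit 174) (S (nat_lit 36) (S (nat_lit 171) (D (nat_lit 4) (nat_lit 9260) (nat_lit 17544) (nat_lit 0))
(L (nat_lit 14345)))
(L (nat_lit 14562)))
(L (nat_lit 15585)))
(L (nat_lit 16425))))
(L (nat_lit 13669)))
(L (nat_lit 8579)))
(L (nat_lit 17760)))
(S (nat_lit 695) (S (nat_lit 636) (S (nat_lit 677) (S (nat_lit 177) (S (nat_lit 11) (D (nat_lit 6) (nat_lit 2599) (nat_lit 551) (nat_lit 0))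
(L (nat_lit 14346)))
(S (nat_lit 198) (S (nat_lit 522) (S (nat_lit 657) (S (nat_lit 398) (S (nat_lit 11) (S (nat_lit 684) (D (nat_lit 0) (nat_lit 10629) (nat_lit 15653) (nat_lit 0))
(L (nat_lit 7652)))
(L (nat_lit 14533)))
(S (nat_lit 525) (D (nat_lit 4) (nat_lit 14374) (nat_lit 4429) (nat_lit 0))
(L (nat_lit 13570))))
(L (nat_lit 7649)))
(L (nat_lit 8676)))
(L (nat_lit 15499))))
(L (nat_lit 9763)))
(L (nat_lit 13603)))
(L (nat_lit 12641))))
(L (nat_lit 7621)))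
(S (nat_lit 443) (S (nat_lit 442) (S (nat_lit 204) (S (nat_lit 495) (S (nat_lit 118) (S (nat_lit 119) (S (nat_lit 201) (S (nat_lit 227) (S (nat_lit 226) (S (nat_lit 502) (S (nat_lit 499) (S (nat_lit 500) (S (nat_lit 503) (S (nat_lit 147) (S (nat_lit 150) (S (nat_lit 501) (S (nat_lit 504) (S (nat_lit 486) (S (nat_lit 498) (S (nat_lit 497) (S (nat_lit 496) (A (nat_lit 7))
(L (nat_lit 8205)))
(L (nat_lit 8204)))
(L (nat_lit 8609)))
(L (nat_lit 15584)))
(L (nat_lit 14528)))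
(S (nat_lit 576) (S (nat_lit 9) (S (nat_lit 252) (S (nat_lit 657) (S (nat_lit 522) (S (nat_lit 549) (A (nat_lit 8))
(L (nat_lit 1574)))
(L (nat_lit 486)))
(L (nat_lit 7712)))
(L (nat_lit 17632)))
(L (nat_lit 15552)))
(L (nat_lit 13632))))
(L (nat_lit 6693)))
(L (nat_lit 6629)))
(L (nat_lit 13637)))
(L (nat_lit 13573)))
(L (nat_lit 8610)))
(L (nat_lit 8578)))
(L (nat_lit 7553)))
(L (nat_lit 7552)))
(L (nat_lit 237)))
(L (nat_lit 391)))
(L (nat_lit 390)))
(L (nat_lit 13536)))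
(S (nat_lit 712) (S (nat_lit 9) (S (nat_lit 713) (S (nat_lit 633) (S (nat_lit 636) (S (nat_lit 687) (S (nat_lit 690) (S (nat_lit 13) (S (nat_lit 16) (S (nat_lit 17) (S (nat_lit 604) (S (nat_lit 605) (S (nat_lit 14) (S (nat_lit 0) (S (nat_lit 10) (S (nat_lit 11) (S (nat_lit 12) (S (nat_lit 15) (S (nat_lit 18) (A (nat_lit 9))
(L (nat_lit 5542)))
(L (nat_lit 14471)))
(L (nat_lit 14406)))
(L (nat_lit 14532)))
(L (nat_lit 14530)))
(S (nat_lit 36) (S (nat_lit 252) (S (nat_lit 495) (S (nat_lit 90) (S (nat_lit 171) (S (nat_lit 63) (A (nat_lit 10))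
(L (nat_lit 1446)))
(L (nat_lit 7584)))
(L (nat_lit 6528)))
(L (nat_lit 13536)))
(L (nat_lit 12480)))
(L (nat_lit 236))))
(L (nat_lit 8305)))
(L (nat_lit 6627)))
(L (nat_lit 6629)))
(L (nat_lit 14693)))
(L (nat_lit 14690)))
(L (nat_lit 14626)))
(L (nat_lit 7217)))
(L (nat_lit 7183)))
(L (nat_lit 1265)))
(L (nat_lit 1231)))
(L (nat_lit 1510)))
(L (nat_lit 15552)))
(L (nat_lit 7716))))
(L (nat_lit 10757)))
(L (nat_lit 10691))))
(L (nat_lit 4432)))
(S (nat_lit 726) (S (nat_lit 342) (S (nat_lit 78) (S (nat_lit 504) (S (nat_lit 332) (S (nat_lit 204) (S (nat_lit 17) (S (nat_lit 514) (S (nat_lit 227) (D (nat_lit 2) (nat_lit 8613) (nat_lit 8304) (nat_lit 0))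
(L (nat_lit 14440)))
(L (nat_lit 4649)))
(L (nat_lit 15716)))
(L (nat_lit 14594)))
(S (nat_lit 694) (S (nat_lit 373) (S (nat_lit 550) (S (nat_lit 176) (S (nat_lit 324) (D (nat_lit 2) (nat_lit 15555) (nat_lit 9297) (nat_lit 0))
(L (nat_lit 14592)))
(L (nat_lit 10320)))
(L (nat_lit 4649)))
(L (nat_lit 13664)))
(L (nat_lit 8677))))
(S (nat_lit 648) (S (nat_lit 379) (S (nat_lit 349) (S (nat_lit 9) (S (nat_lit 695) (D (nat_lit 8) (nat_lit 6252) (nat_lit 9295) (nat_lit 0))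
(L (nat_lit 1510)))
(L (nat_lit 9260)))
(L (nat_lit 13451)))
(S (nat_lit 543) (S (nat_lit 687) (S (nat_lit 46) (S (nat_lit 500) (S (nat_lit 382) (D (nat_lit 2) (nat_lit 1414) (nat_lit 9325) (nat_lit 0))
(L (nat_lit 14374)))
(L (nat_lit 13605)))
(S (nat_lit 499) (S (nat_lit 47) (S (nat_lit 383) (D (nat_lit 2) (nat_lit 1415) (nat_lit 9325) (nat_lit 0))
(L (nat_lit 14375)))
(L (nat_lit 11681)))
(L (nat_lit 3496))))
(L (nat_lit 16708)))
(L (nat_lit 5393))))
(L (nat_lit 11808))))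
(S (nat_lit 676) (S (nat_lit 665) (S (nat_lit 64) (S (nat_lit 705) (S (nat_lit 42) (D (nat_lit 8) (nat_lit 14629) (nat_lit 11405) (nat_lit 0))
(L (nat_lit 518)))
(L (nat_lit 17449)))
(L (nat_lit 4520)))
(L (nat_lit 2440)))
(L (nat_lit 2413))))
(S (nat_lit 443) (S (nat_lit 369) (S (nat_lit 351) (S (nat_lit 442) (S (nat_lit 705) (S (nat_lit 723) (S (nat_lit 18) (S (nat_lit 711) (S (nat_lit 9) (S (nat_lit 372) (S (nat_lit 657) (D (nat_lit 0) (nat_lit 4396) (nat_lit 15651) (nat_lit 0))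
(L (nat_lit 7183)))
(L (nat_lit 15556)))
(S (nat_lit 65) (D (nat_lit 6) (nat_lit 9233) (nat_lit 209) (nat_lit 0))
(L (nat_lit 8576))))
(L (nat_lit 7279)))
(S (nat_lit 36) (S (nat_lit 658) (S (nat_lit 549) (S (nat_lit 657) (D (nat_lit 4) (nat_lit 14529) (nat_lit 12426) (nat_lit 0))
(L (nat_lit 13321)))
(L (nat_lit 8303)))
(L (nat_lit 13351)))
(L (nat_lit 5324))))
(L (nat_lit 6563)))
(L (nat_lit 17731)))
(L (nat_lit 369)))
(L (nat_lit 8644)))
(L (nat_lit 1482)))
(L (nat_lit 5576))))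
(L (nat_lit 12297)))))
(S (nat_lit 640) (S (nat_lit 47) (S (nat_lit 175) (S (nat_lit 528) (S (nat_lit 551) (S (nat_lit 569) (S (nat_lit 209) (S (nat_lit 219) (S (nat_lit 274) (D (nat_lit 12) (nat_lit 9324) (nat_lit 11278) (nat_lit 0))
(L (nat_lit 4364)))
(L (nat_lit 5577)))
(L (nat_lit 17763)))
(L (nat_lit 8238)))
(L (nat_lit 16490)))
(L (nat_lit 5575)))
(S (nat_lit 478) (S (nat_lit 222) (S (nat_lit 219) (S (nat_lit 504) (S (nat_lit 695) (S (nat_lit 719) (S (nat_lit 332) (S (nat_lit 68) (S (nat_lit 397) (D (nat_lit 12) (nat_lit 14507) (nat_lit 1264) (nat_lit 0))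
(L (nat_lit 459)))
(L (nat_lit 9696)))
(L (nat_lit 14565)))
(L (nat_lit 4300)))
(L (nat_lit 6691)))
(L (nat_lit 5671)))
(L (nat_lit 3405)))
(S (nat_lit 726) (S (nat_lit 443) (S (nat_lit 357) (S (nat_lit 380) (S (nat_lit 0) (S (nat_lit 101) (S (nat_lit 295) (D (nat_lit 10) (nat_lit 6253) (nat_lit 8303) (nat_lit 0))
(L (nat_lit 15400)))
(L (nat_lit 16425)))
(L (nat_lit 6528)))
(L (nat_lit 3343)))
(L (nat_lit 2536)))
(L (nat_lit 17763)))
(L (nat_lit 12299))))
(L (nat_lit 2506))))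
(S (nat_lit 474) (S (nat_lit 397) (S (nat_lit 18) (L (nat_lit 4396))
(L (nat_lit 17633)))
(S (nat_lit 622) (S (nat_lit 471) (S (nat_lit 209) (S (nat_lit 252) (S (nat_lit 191) (S (nat_lit 13) (S (nat_lit 454) (S (nat_lit 439) (D (nat_lit 10) (nat_lit 1326) (nat_lit 3624) (nat_lit 0))
(L (nat_lit 9701)))
(L (nat_lit 6321)))
(S (nat_lit 150) (S (nat_lit 500) (S (nat_lit 401) (S (nat_lit 386) (D (nat_lit 10) (nat_lit 1328) (nat_lit 2321) (nat_lit 0))
(L (nat_lit 14560)))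
(L (nat_lit 2253)))
(L (nat_lit 2570)))
(L (nat_lit 15432))))
(L (nat_lit 9635)))
(L (nat_lit 12480)))
(S (nat_lit 694) (S (nat_lit 713) (S (nat_lit 605) (S (nat_lit 10) (S (nat_lit 443) (S (nat_lit 0) (S (nat_lit 636) (S (nat_lit 633) (S (nat_lit 16) (S (nat_lit 13) (S (nat_lit 9) (S (nat_lit 478) (S (nat_lit 687) (S (nat_lit 690) (S (nat_lit 18) (S (nat_lit 352) (S (nat_lit 460) (S (nat_lit 676) (S (nat_lit 370) (S (nat_lit 11) (A (nat_lit 11))
(L (nat_lit 8209)))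
(L (nat_lit 1542)))
(L (nat_lit 17760)))
(L (nat_lit 3377)))
(L (nat_lit 8273)))
(L (nat_lit 5356)))
(L (nat_lit 5577)))
(L (nat_lit 5641)))
(L (nat_lit 6593)))
(L (nat_lit 14529)))
(L (nat_lit 15651)))
(L (nat_lit 15715)))
(L (nat_lit 6563)))
(L (nat_lit 6531)))
(L (nat_lit 6529)))
(L (nat_lit 17761)))
(L (nat_lit 14530)))
(L (nat_lit 5671)))
(L (nat_lit 10784)))
(L (nat_lit 1328))))
(L (nat_lit 10627)))
(L (nat_lit 15681))))
(S (nat_lit 708) (S (nat_lit 622) (S (nat_lit 18) (S (nat_lit 233) (S (nat_lit 443) (S (nat_lit 230) (S (nat_lit 723) (D (nat_lit 10) (nat_lit 1325) (nat_lit 16523) (nat_lit 0))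
(L (nat_lit 425)))
(L (nat_lit 14470)))
(L (nat_lit 10383)))
(L (nat_lit 10320)))
(L (nat_lit 11681)))
(L (nat_lit 3405)))
(L (nat_lit 17483)))))
(L (nat_lit 12545)))))
(S (nat_lit 618) (S (nat_lit 0) (S (nat_lit 408) (S (nat_lit 356) (S (nat_lit 76) (L (nat_lit 12422))
(L (nat_lit 17449)))
(L (nat_lit 10627)))
(S (nat_lit 471) (S (nat_lit 272) (S (nat_lit 40) (S (nat_lit 712) (L (nat_lit 4369))
(L (nat_lit 13418)))
(L (nat_lit 456)))
(S (nat_lit 726) (S (nat_lit 604) (S (nat_lit 17) (S (nat_lit 712) (S (nat_lit 443) (S (nat_lit 15) (S (nat_lit 268) (S (nat_lit 358) (S (nat_lit 499) (S (nat_lit 136) (D (nat_lit 2) (nat_lit 1544) (nat_lit 14528) (nat_lit 0))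
(L (nat_lit 12545)))
(L (nat_lit 16675)))
(L (nat_lit 14565)))
(S (nat_lit 633) (S (nat_lit 442) (S (nat_lit 713) (S (nat_lit 402) (S (nat_lit 9) (S (nat_lit 708) (S (nat_lit 18) (S (nat_lit 605) (S (nat_lit 600) (S (nat_lit 16) (S (nat_lit 456) (S (nat_lit 388) (S (nat_lit 687) (S (nat_lit 384) (S (nat_lit 438) (S (nat_lit 12) (A (nat_lit 12))
(L (nat_lit 14625)))
(L (nat_lit 16578)))
(L (nat_lit 16611)))
(L (nat_lit 7684)))
(L (nat_lit 17668)))
(L (nat_lit 15620)))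
(L (nat_lit 9359)))
(L (nat_lit 2442)))
(L (nat_lit 13447)))
(L (nat_lit 11680)))
(L (nat_lit 9605)))
(L (nat_lit 9600)))
(L (nat_lit 13605)))
(L (nat_lit 13664)))
(L (nat_lit 12576)))
(L (nat_lit 4465))))
(L (nat_lit 14657)))
(L (nat_lit 7619)))
(L (nat_lit 16551)))
(L (nat_lit 9360)))
(S (nat_lit 694) (S (nat_lit 295) (S (nat_lit 215) (S (nat_lit 430) (S (nat_lit 491) (S (nat_lit 238) (S (nat_lit 354) (S (nat_lit 380) (S (nat_lit 268) (D (nat_lit 12) (nat_lit 454) (nat_lit 14693) (nat_lit 0))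
(L (nat_lit 13667)))
(L (nat_lit 8303)))
(S (nat_lit 526) (S (nat_lit 438) (S (nat_lit 203) (D (nat_lit 14) (nat_lit 17574) (nat_lit 17764) (nat_lit 0))
(L (nat_lit 14344)))
(L (nat_lit 14594)))
(L (nat_lit 8208))))
(L (nat_lit 8676)))
(L (nat_lit 6565)))
(L (nat_lit 13507)))
(L (nat_lit 8241)))
(S (nat_lit 581) (S (nat_lit 622) (S (nat_lit 250) (S (nat_lit 233) (S (nat_lit 160) (S (nat_lit 624) (D (nat_lit 14) (nat_lit 15463) (nat_lit 15499) (nat_lit 0))
(L (nat_lit 15400)))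
(S (nat_lit 662) (S (nat_lit 500) (S (nat_lit 600) (S (nat_lit 202) (D (nat_lit 12) (nat_lit 1543) (nat_lit 16741) (nat_lit 0))
(L (nat_lit 10414)))
(L (nat_lit 8580)))
(L (nat_lit 13572)))
(L (nat_lit 7246))))
(L (nat_lit 4616)))
(L (nat_lit 14505)))
(L (nat_lit 10788)))
(S (nat_lit 633) (S (nat_lit 456) (S (nat_lit 388) (S (nat_lit 102) (S (nat_lit 624) (S (nat_lit 322) (S (nat_lit 379) (D (nat_lit 10) (nat_lit 6533) (nat_lit 15466) (nat_lit 0))
(L (nat_lit 8644)))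
(L (nat_lit 15713)))
(L (nat_lit 15717)))
(S (nat_lit 676) (S (nat_lit 202) (S (nat_lit 600) (S (nat_lit 203) (S (nat_lit 695) (D (nat_lit 10) (nat_lit 4489) (nat_lit 16521) (nat_lit 0))
(L (nat_lit 14627)))
(L (nat_lit 10416)))
(L (nat_lit 2440)))
(L (nat_lit 14346)))
(L (nat_lit 17760))))
(S (nat_lit 478) (S (nat_lit 23) (S (nat_lit 640) (S (nat_lit 706) (S (nat_lit 683) (S (nat_lit 598) (S (nat_lit 370) (S (nat_lit 436) (S (nat_lit 605) (S (nat_lit 687) (S (nat_lit 443) (S (nat_lit 713) (S (nat_lit 16) (S (nat_lit 359) (S (nat_lit 382) (S (nat_lit 629) (S (nat_lit 402) (S (nat_lit 467) (A (nat_lit 13))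
(L (nat_lit 9696)))
(L (nat_lit 15432)))
(L (nat_lit 5422)))
(L (nat_lit 16518)))
(L (nat_lit 16675)))
(L (nat_lit 9731)))
(L (nat_lit 16550)))
(L (nat_lit 5638)))
(L (nat_lit 16555)))
(L (nat_lit 16641)))
(L (nat_lit 11436)))
(L (nat_lit 1478)))
(L (nat_lit 17574)))
(L (nat_lit 17665)))
(L (nat_lit 17729)))
(L (nat_lit 12545)))
(L (nat_lit 10692)))
(L (nat_lit 6660))))
(L (nat_lit 1451)))
(L (nat_lit 11685)))))
(L (nat_lit 6288))))
(L (nat_lit 6595))))
(S (nat_lit 569) (S (nat_lit 225) (S (nat_lit 442) (S (nat_lit 53) (S (nat_lit 203) (S (nat_lit 430) (D (nat_lit 3) (nat_lit 11441) (nat_lit 12424) (nat_lit 0))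
(L (nat_lit 6627)))
(L (nat_lit 7344)))
(L (nat_lit 11777)))
(L (nat_lit 5639)))
(L (nat_lit 1417)))
(L (nat_lit 1358)))))
(S (nat_lit 252) (S (nat_lit 148) (S (nat_lit 436) (S (nat_lit 430) (S (nat_lit 442) (S (nat_lit 323) (S (nat_lit 653) (D (nat_lit 3) (nat_lit 11406) (nat_lit 9762) (nat_lit 0))
(L (nat_lit 11781)))
(L (nat_lit 13322)))
(L (nat_lit 10693)))
(L (nat_lit 13507)))
(L (nat_lit 2439)))
(S (nat_lit 474) (S (nat_lit 219) (S (nat_lit 442) (S (nat_lit 383) (S (nat_lit 325) (S (nat_lit 404) (S (nat_lit 316) (S (nat_lit 408) (S (nat_lit 712) (D (nat_lit 14) (nat_lit 2438) (nat_lit 8608) (nat_lit 0))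
(L (nat_lit 13665)))
(S (nat_lit 576) (S (nat_lit 640) (D (nat_lit 14) (nat_lit 3494) (nat_lit 4364) (nat_lit 0))
(L (nat_lit 12545)))
(L (nat_lit 11808))))
(L (nat_lit 10412)))
(L (nat_lit 15586)))
(L (nat_lit 14374)))
(S (nat_lit 467) (S (nat_lit 171) (S (nat_lit 484) (S (nat_lit 426) (S (nat_lit 16) (S (nat_lit 76) (S (nat_lit 329) (D (nat_lit 14) (nat_lit 14593) (nat_lit 9294) (nat_lit 0))
(L (nat_lit 8580)))
(S (nat_lit 388) (S (nat_lit 237) (D (nat_lit 10) (nat_lit 1545) (nat_lit 3626) (nat_lit 0))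
(L (nat_lit 16611)))
(L (nat_lit 17668))))
(L (nat_lit 8738)))
(L (nat_lit 8576)))
(L (nat_lit 8204)))
(L (nat_lit 14347)))
(S (nat_lit 522) (S (nat_lit 374) (S (nat_lit 355) (S (nat_lit 499) (S (nat_lit 150) (S (nat_lit 600) (D (nat_lit 10) (nat_lit 7653) (nat_lit 15433) (nat_lit 0))
(L (nat_lit 2506)))
(S (nat_lit 695) (S (nat_lit 272) (S (nat_lit 457) (D (nat_lit 14) (nat_lit 3495) (nat_lit 4488) (nat_lit 0))
(L (nat_lit 8608)))
(L (nat_lit 14529)))
(L (nat_lit 1324))))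
(L (nat_lit 2568)))
(L (nat_lit 14528)))
(L (nat_lit 3463)))
(L (nat_lit 16578)))))
(L (nat_lit 17760)))
(S (nat_lit 396) (S (nat_lit 263) (S (nat_lit 611) (S (nat_lit 136) (S (nat_lit 274) (S (nat_lit 412) (S (nat_lit 185) (D (nat_lit 3) (nat_lit 520) (nat_lit 8740) (nat_lit 0))
(L (nat_lit 16709)))
(L (nat_lit 9635)))
(L (nat_lit 6321)))
(L (nat_lit 12545)))
(L (nat_lit 13539)))
(L (nat_lit 13541)))
(L (nat_lit 9667))))
(S (nat_lit 551) (S (nat_lit 300) (S (nat_lit 180) (S (nat_lit 574) (S (nat_lit 222) (S (nat_lit 202) (D (nat_lit 2) (nat_lit 12390) (nat_lit 6289) (nat_lit 0))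
(L (nat_lit 14506)))
(L (nat_lit 9731)))
(L (nat_lit 1419)))
(L (nat_lit 8576)))
(L (nat_lit 3342)))
(L (nat_lit 4302)))))
(S (nat_lit 504) (S (nat_lit 190) (S (nat_lit 238) (S (nat_lit 17) (S (nat_lit 443) (S (nat_lit 457) (S (nat_lit 150) (S (nat_lit 403) (S (nat_lit 250) (D (nat_lit 2) (nat_lit 4430) (nat_lit 15553) (nat_lit 0))
(L (nat_lit 14691)))
(L (nat_lit 7649)))
(L (nat_lit 15587)))
(L (nat_lit 13509)))
(L (nat_lit 12577)))
(S (nat_lit 640) (S (nat_lit 329) (S (nat_lit 171) (S (nat_lit 191) (S (nat_lit 514) (D (nat_lit 2) (nat_lit 13507) (nat_lit 7311) (nat_lit 0))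
(L (nat_lit 17637)))
(L (nat_lit 9360)))
(L (nat_lit 14625)))
(L (nat_lit 8580)))
(L (nat_lit 9392))))
(S (nat_lit 723) (S (nat_lit 222) (S (nat_lit 225) (S (nat_lit 304) (S (nat_lit 550) (S (nat_lit 237) (S (nat_lit 23) (S (nat_lit 443) (S (nat_lit 478) (S (nat_lit 683) (S (nat_lit 716) (D (nat_lit 14) (nat_lit 12515) (nat_lit 12642) (nat_lit 0))
(L (nat_lit 13446)))
(L (nat_lit 9601)))
(L (nat_lit 13665)))
(L (nat_lit 12577)))
(S (nat_lit 551) (S (nat_lit 342) (S (nat_lit 178) (D (nat_lit 12) (nat_lit 14531) (nat_lit 3345) (nat_lit 0))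
(L (nat_lit 10414)))
(L (nat_lit 13633)))
(L (nat_lit 16491))))
(L (nat_lit 8645)))
(L (nat_lit 8301)))
(L (nat_lit 6161)))
(S (nat_lit 274) (S (nat_lit 128) (S (nat_lit 601) (S (nat_lit 634) (S (nat_lit 569) (S (nat_lit 178) (S (nat_lit 342) (D (nat_lit 14) (nat_lit 9293) (nat_lit 2319) (nat_lit 0))
(L (nat_lit 4616)))
(S (nat_lit 351) (S (nat_lit 515) (S (nat_lit 41) (D (nat_lit 14) (nat_lit 2321) (nat_lit 12328) (nat_lit 0))
(L (nat_lit 15651)))
(L (nat_lit 15587)))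
(L (nat_lit 14594))))
(L (nat_lit 270)))
(L (nat_lit 4304)))
(L (nat_lit 2438)))
(L (nat_lit 7248)))
(S (nat_lit 689) (S (nat_lit 180) (S (nat_lit 329) (S (nat_lit 40) (S (nat_lit 388) (S (nat_lit 375) (S (nat_lit 75) (S (nat_lit 328) (D (nat_lit 12) (nat_lit 14627) (nat_lit 10382) (nat_lit 0))
(L (nat_lit 14530)))
(L (nat_lit 17543)))
(L (nat_lit 15588)))
(S (nat_lit 412) (S (nat_lit 683) (S (nat_lit 658) (D (nat_lit 14) (nat_lit 7308) (nat_lit 337) (nat_lit 0))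
(L (nat_lit 13667)))
(L (nat_lit 2504)))
(L (nat_lit 11441))))
(L (nat_lit 14344)))
(L (nat_lit 8303)))
(L (nat_lit 8609)))
(L (nat_lit 7340)))))
(S (nat_lit 497) (S (nat_lit 574) (S (nat_lit 544) (S (nat_lit 684) (S (nat_lit 71) (D (nat_lit 3) (nat_lit 1480) (nat_lit 10385) (nat_lit 0))
(L (nat_lit 14410)))
(L (nat_lit 489)))
(L (nat_lit 17449)))
(L (nat_lit 17635)))
(L (nat_lit 13323))))
(L (nat_lit 2287))))
(S (nat_lit 442) (S (nat_lit 485) (S (nat_lit 18) (L (nat_lit 8301))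
(L (nat_lit 17632)))
(S (nat_lit 640) (L (nat_lit 16612))
(L (nat_lit 486))))
(S (nat_lit 694) (S (nat_lit 18) (L (nat_lit 17634))
(S (nat_lit 63) (S (nat_lit 268) (L (nat_lit 2317))
(L (nat_lit 13667)))
(L (nat_lit 4519))))
(L (nat_lit 12426)))))
(L (nat_lit 12480)))))
(L (nat_lit 12514)))))
(S (nat_lit 641) (S (nat_lit 191) (S (nat_lit 136) (S (nat_lit 124) (S (nat_lit 219) (S (nat_lit 53) (S (nat_lit 0) (S (nat_lit 67) (S (nat_lit 48) (S (nat_lit 430) (D (nat_lit 14) (nat_lit 2504) (nat_lit 7556) (nat_lit 0))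
(L (nat_lit 8610)))
(L (nat_lit 17700)))
(L (nat_lit 15617)))
(L (nat_lit 13536)))
(L (nat_lit 11809)))
(S (nat_lit 471) (S (nat_lit 215) (S (nat_lit 497) (S (nat_lit 618) (S (nat_lit 678) (S (nat_lit 430) (S (nat_lit 442) (D (nat_lit 14) (nat_lit 9762) (nat_lit 12361) (nat_lit 0))
(L (nat_lit 10321)))
(L (nat_lit 13571)))
(L (nat_lit 9732)))
(L (nat_lit 14564)))
(L (nat_lit 2603)))
(L (nat_lit 6691)))
(L (nat_lit 12515))))
(S (nat_lit 160) (S (nat_lit 53) (S (nat_lit 726) (S (nat_lit 65) (S (nat_lit 219) (S (nat_lit 540) (D (nat_lit 14) (nat_lit 1447) (nat_lit 5546) (nat_lit 0))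
(L (nat_lit 7717)))
(L (nat_lit 12515)))
(L (nat_lit 4490)))
(L (nat_lit 12483)))
(S (nat_lit 471) (S (nat_lit 682) (S (nat_lit 262) (S (nat_lit 618) (S (nat_lit 554) (S (nat_lit 131) (S (nat_lit 384) (S (nat_lit 148) (D (nat_lit 14) (nat_lit 11748) (nat_lit 13602) (nat_lit 0))
(L (nat_lit 6190)))
(L (nat_lit 8206)))
(L (nat_lit 17417)))
(L (nat_lit 13354)))
(L (nat_lit 12514)))
(S (nat_lit 629) (S (nat_lit 215) (S (nat_lit 94) (S (nat_lit 222) (S (nat_lit 618) (S (nat_lit 554) (S (nat_lit 0) (D (nat_lit 3) (nat_lit 3375) (nat_lit 13572) (nat_lit 0))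
(S (nat_lit 504) (D (nat_lit 3) (nat_lit 8305) (nat_lit 16458) (nat_lit 0))
(L (nat_lit 12295))))
(L (nat_lit 16426)))
(L (nat_lit 9327)))
(L (nat_lit 9765)))
(S (nat_lit 726) (S (nat_lit 67) (S (nat_lit 176) (S (nat_lit 126) (S (nat_lit 581) (S (nat_lit 278) (D (nat_lit 3) (nat_lit 9292) (nat_lit 271) (nat_lit 0))
(S (nat_lit 430) (D (nat_lit 3) (nat_lit 2320) (nat_lit 6690) (nat_lit 0))
(L (nat_lit 6563))))
(L (nat_lit 13509)))
(L (nat_lit 17730)))
(L (nat_lit 15684)))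
(L (nat_lit 15620)))
(L (nat_lit 2507))))
(L (nat_lit 17667)))
(L (nat_lit 15369))))
(L (nat_lit 4490)))
(L (nat_lit 17451))))
(S (nat_lit 366) (S (nat_lit 67) (L (nat_lit 8706))
(S (nat_lit 407) (S (nat_lit 471) (L (nat_lit 1574))
(S (nat_lit 723) (S (nat_lit 726) (S (nat_lit 0) (S (nat_lit 262) (S (nat_lit 347) (S (nat_lit 622) (S (nat_lit 134) (S (nat_lit 554) (D (nat_lit 12) (nat_lit 17515) (nat_lit 6594) (nat_lit 0))
(L (nat_lit 16674)))
(L (nat_lit 3623)))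
(L (nat_lit 15462)))
(L (nat_lit 15557)))
(S (nat_lit 295) (S (nat_lit 232) (S (nat_lit 101) (S (nat_lit 186) (S (nat_lit 497) (S (nat_lit 434) (D (nat_lit 12) (nat_lit 10412) (nat_lit 10756) (nat_lit 0))
(L (nat_lit 14689)))
(L (nat_lit 8677)))
(L (nat_lit 8705)))
(L (nat_lit 16708)))
(L (nat_lit 14593)))
(L (nat_lit 15400))))
(L (nat_lit 205)))
(L (nat_lit 459)))
(L (nat_lit 12517))))
(L (nat_lit 14628))))
(L (nat_lit 302)))))
(S (nat_lit 388) (S (nat_lit 67) (S (nat_lit 114) (S (nat_lit 471) (S (nat_lit 504) (S (nat_lit 629) (S (nat_lit 610) (S (nat_lit 156) (D (nat_lit 14) (nat_lit 14438) (nat_lit 14626) (nat_lit 0))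
(L (nat_lit 7212)))
(L (nat_lit 6528)))
(L (nat_lit 3308)))
(L (nat_lit 14529)))
(L (nat_lit 10787)))
(S (nat_lit 366) (S (nat_lit 515) (S (nat_lit 659) (S (nat_lit 543) (S (nat_lit 222) (S (nat_lit 328) (S (nat_lit 398) (D (nat_lit 12) (nat_lit 7276) (nat_lit 1360) (nat_lit 0))
(L (nat_lit 13632)))
(L (nat_lit 10316)))
(L (nat_lit 13573)))
(L (nat_lit 6565)))
(L (nat_lit 2348)))
(L (nat_lit 2284)))
(L (nat_lit 12516))))
(S (nat_lit 208) (S (nat_lit 114) (S (nat_lit 599) (S (nat_lit 504) (S (nat_lit 413) (S (nat_lit 688) (S (nat_lit 456) (D (nat_lit 14) (nat_lit 12455) (nat_lit 12361) (nat_lit 0))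
(L (nat_lit 6562)))
(L (nat_lit 16394)))
(L (nat_lit 14596)))
(L (nat_lit 11809)))
(L (nat_lit 15713)))
(S (nat_lit 317) (S (nat_lit 366) (S (nat_lit 219) (S (nat_lit 504) (S (nat_lit 275) (S (nat_lit 602) (S (nat_lit 176) (D (nat_lit 12) (nat_lit 12395) (nat_lit 11342) (nat_lit 0))
(L (nat_lit 15589)))
(L (nat_lit 8236)))
(L (nat_lit 16395)))
(L (nat_lit 14342)))
(L (nat_lit 13451)))
(L (nat_lit 12514)))
(L (nat_lit 10349))))
(S (nat_lit 618) (S (nat_lit 22) (S (nat_lit 328) (S (nat_lit 707) (S (nat_lit 694) (S (nat_lit 575) (S (nat_lit 663) (D (nat_lit 14) (nat_lit 10288) (nat_lit 11345) (nat_lit 0))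
(L (nat_lit 7616)))
(L (nat_lit 391)))
(L (nat_lit 14407)))
(L (nat_lit 9730)))
(L (nat_lit 8739)))
(S (nat_lit 525) (S (nat_lit 575) (S (nat_lit 222) (S (nat_lit 550) (S (nat_lit 490) (S (nat_lit 171) (S (nat_lit 190) (S (nat_lit 184) (S (nat_lit 300) (S (nat_lit 271) (D (nat_lit 2) (nat_lit 7555) (nat_lit 334) (nat_lit 0))
(L (nat_lit 14409)))
(L (nat_lit 14595)))
(S (nat_lit 239) (S (nat_lit 342) (S (nat_lit 353) (D (nat_lit 2) (nat_lit 13509) (nat_lit 367) (nat_lit 0))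
(L (nat_lit 14409)))
(L (nat_lit 7680)))
(L (nat_lit 8642))))
(L (nat_lit 2439)))
(L (nat_lit 15371)))
(S (nat_lit 602) (S (nat_lit 635) (S (nat_lit 661) (S (nat_lit 342) (S (nat_lit 568) (D (nat_lit 14) (nat_lit 15554) (nat_lit 2320) (nat_lit 0))
(L (nat_lit 8739)))
(L (nat_lit 7680)))
(L (nat_lit 13386)))
(L (nat_lit 13664)))
(L (nat_lit 17699))))
(L (nat_lit 9697)))
(L (nat_lit 9731)))
(L (nat_lit 391)))
(L (nat_lit 16642))))
(L (nat_lit 1327)))))
(S (nat_lit 640) (S (nat_lit 190) (S (nat_lit 342) (S (nat_lit 270) (S (nat_lit 594) (L (nat_lit 1451))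
(L (nat_lit 8740)))
(L (nat_lit 2502)))
(S (nat_lit 474) (S (nat_lit 252) (S (nat_lit 36) (S (nat_lit 407) (S (nat_lit 454) (S (nat_lit 24) (S (nat_lit 366) (S (nat_lit 458) (D (nat_lit 10) (nat_lit 17763) (nat_lit 3624) (nat_lit 0))
(L (nat_lit 15617)))
(S (nat_lit 544) (S (nat_lit 184) (S (nat_lit 717) (D (nat_lit 12) (nat_lit 13539) (nat_lit 8736) (nat_lit 0))
(L (nat_lit 16645)))
(L (nat_lit 16707)))
(L (nat_lit 5544))))
(L (nat_lit 10380)))
(L (nat_lit 8209)))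
(L (nat_lit 14374)))
(S (nat_lit 386) (S (nat_lit 385) (S (nat_lit 343) (S (nat_lit 489) (S (nat_lit 120) (S (nat_lit 53) (S (nat_lit 574) (S (nat_lit 663) (D (nat_lit 12) (nat_lit 13669) (nat_lit 5575) (nat_lit 0))
(L (nat_lit 16577)))
(L (nat_lit 8643)))
(L (nat_lit 16707)))
(S (nat_lit 150) (S (nat_lit 234) (S (nat_lit 382) (D (nat_lit 10) (nat_lit 13481) (nat_lit 15652) (nat_lit 0))
(L (nat_lit 14374)))
(L (nat_lit 16675)))
(L (nat_lit 11276))))
(L (nat_lit 422)))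
(L (nat_lit 9730)))
(L (nat_lit 8612)))
(S (nat_lit 525) (S (nat_lit 69) (S (nat_lit 198) (S (nat_lit 96) (S (nat_lit 245) (S (nat_lit 623) (D (nat_lit 16) (nat_lit 9325) (nat_lit 3560) (nat_lit 0))
(L (nat_lit 17577)))
(L (nat_lit 14532)))
(L (nat_lit 6657)))
(S (nat_lit 618) (S (nat_lit 53) (S (nat_lit 272) (S (nat_lit 171) (S (nat_lit 606) (S (nat_lit 575) (D (nat_lit 12) (nat_lit 13509) (nat_lit 335) (nat_lit 0))
(L (nat_lit 8580)))
(L (nat_lit 16740)))
(L (nat_lit 14689)))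
(L (nat_lit 14529)))
(S (nat_lit 545) (S (nat_lit 184) (S (nat_lit 382) (S (nat_lit 231) (D (nat_lit 12) (nat_lit 13603) (nat_lit 5328) (nat_lit 0))
(L (nat_lit 14533)))
(L (nat_lit 8337)))
(L (nat_lit 17482)))
(L (nat_lit 3595))))
(L (nat_lit 7554))))
(L (nat_lit 1542)))
(L (nat_lit 5543)))))
(L (nat_lit 2502)))
(L (nat_lit 4366))))
(S (nat_lit 442) (S (nat_lit 93) (S (nat_lit 726) (S (nat_lit 172) (S (nat_lit 549) (S (nat_lit 292) (S (nat_lit 53) (S (nat_lit 544) (S (nat_lit 426) (S (nat_lit 343) (D (nat_lit 2) (nat_lit 10627) (nat_lit 11716) (nat_lit 0))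
(L (nat_lit 13350)))
(L (nat_lit 13536)))
(S (nat_lit 707) (S (nat_lit 101) (S (nat_lit 0) (D (nat_lit 2) (nat_lit 205) (nat_lit 10660) (nat_lit 0))
(L (nat_lit 6561)))
(L (nat_lit 17668)))
(L (nat_lit 5640))))
(L (nat_lit 16491)))
(L (nat_lit 15621)))
(L (nat_lit 4303)))
(L (nat_lit 14690)))
(L (nat_lit 14411)))
(S (nat_lit 610) (L (nat_lit 271))
(L (nat_lit 11373))))
(S (nat_lit 694) (S (nat_lit 244) (S (nat_lit 594) (S (nat_lit 489) (L (nat_lit 3279))
(L (nat_lit 15430)))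
(L (nat_lit 15432)))
(S (nat_lit 618) (L (nat_lit 13386))
(L (nat_lit 14562))))
(L (nat_lit 12423)))))
(L (nat_lit 12609)))))
(S (nat_lit 443) (S (nat_lit 222) (S (nat_lit 136) (S (nat_lit 355) (S (nat_lit 540) (S (nat_lit 96) (S (nat_lit 712) (S (nat_lit 14) (S (nat_lit 288) (D (nat_lit 2) (nat_lit 14531) (nat_lit 3625) (nat_lit 0))
(L (nat_lit 13508)))
(L (nat_lit 3531)))
(L (nat_lit 10721)))
(L (nat_lit 14561)))
(L (nat_lit 7715)))
(S (nat_lit 504) (S (nat_lit 454) (S (nat_lit 723) (S (nat_lit 366) (S (nat_lit 70) (S (nat_lit 270) (S (nat_lit 579) (D (nat_lit 2) (nat_lit 15462) (nat_lit 9698) (nat_lit 0))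
(L (nat_lit 16736)))
(L (nat_lit 16455)))
(L (nat_lit 14660)))
(L (nat_lit 17698)))
(L (nat_lit 427)))
(S (nat_lit 694) (S (nat_lit 268) (S (nat_lit 210) (S (nat_lit 611) (S (nat_lit 516) (S (nat_lit 682) (S (nat_lit 114) (S (nat_lit 651) (D (nat_lit 14) (nat_lit 365) (nat_lit 13385) (nat_lit 0))
(L (nat_lit 15585)))
(S (nat_lit 659) (S (nat_lit 579) (D (nat_lit 14) (nat_lit 5325) (nat_lit 11681) (nat_lit 0))
(L (nat_lit 13416)))
(L (nat_lit 13604))))
(L (nat_lit 9669)))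
(L (nat_lit 6562)))
(L (nat_lit 11715)))
(L (nat_lit 3561)))
(S (nat_lit 398) (S (nat_lit 155) (S (nat_lit 582) (S (nat_lit 331) (S (nat_lit 94) (S (nat_lit 402) (S (nat_lit 635) (D (nat_lit 14) (nat_lit 552) (nat_lit 14592) (nat_lit 0))
(L (nat_lit 6286)))
(L (nat_lit 15587)))
(S (nat_lit 288) (S (nat_lit 70) (D (nat_lit 12) (nat_lit 14503) (nat_lit 3560) (nat_lit 0))
(L (nat_lit 15684)))
(L (nat_lit 3278))))
(L (nat_lit 486)))
(L (nat_lit 6319)))
(L (nat_lit 17666)))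
(S (nat_lit 654) (S (nat_lit 179) (S (nat_lit 72) (S (nat_lit 550) (S (nat_lit 275) (S (nat_lit 23) (S (nat_lit 723) (S (nat_lit 629) (D (nat_lit 14) (nat_lit 4518) (nat_lit 426) (nat_lit 0))
(L (nat_lit 3529)))
(L (nat_lit 14475)))
(S (nat_lit 651) (S (nat_lit 176) (S (nat_lit 451) (D (nat_lit 12) (nat_lit 12390) (nat_lit 1578) (nat_lit 0))
(L (nat_lit 15498)))
(L (nat_lit 15588)))
(L (nat_lit 17483))))
(L (nat_lit 7715)))
(L (nat_lit 4304)))
(L (nat_lit 17605)))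
(L (nat_lit 15557)))
(L (nat_lit 15529)))))
(L (nat_lit 6693))))
(L (nat_lit 14342))))
(S (nat_lit 388) (S (nat_lit 219) (L (nat_lit 1449))
(S (nat_lit 304) (S (nat_lit 635) (S (nat_lit 694) (S (nat_lit 575) (S (nat_lit 114) (S (nat_lit 711) (S (nat_lit 264) (D (nat_lit 3) (nat_lit 335) (nat_lit 15434) (nat_lit 0))
(S (nat_lit 504) (D (nat_lit 3) (nat_lit 6321) (nat_lit 17668) (nat_lit 0))
(L (nat_lit 10785))))
(L (nat_lit 10725)))
(L (nat_lit 13602)))
(L (nat_lit 10693)))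
(L (nat_lit 14407)))
(L (nat_lit 4302)))
(L (nat_lit 3404))))
(S (nat_lit 640) (S (nat_lit 471) (L (nat_lit 3406))
(S (nat_lit 711) (S (nat_lit 100) (S (nat_lit 694) (L (nat_lit 3438))
(L (nat_lit 14410)))
(L (nat_lit 17666)))
(L (nat_lit 4651))))
(L (nat_lit 12612)))))
(S (nat_lit 474) (S (nat_lit 400) (S (nat_lit 304) (S (nat_lit 114) (S (nat_lit 723) (S (nat_lit 652) (S (nat_lit 293) (S (nat_lit 299) (D (nat_lit 14) (nat_lit 5392) (nat_lit 8578) (nat_lit 0))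
(L (nat_lit 16578)))
(L (nat_lit 11811)))
(L (nat_lit 522)))
(L (nat_lit 427)))
(L (nat_lit 8708)))
(S (nat_lit 366) (S (nat_lit 208) (S (nat_lit 252) (S (nat_lit 499) (S (nat_lit 385) (D (nat_lit 10) (nat_lit 1326) (nat_lit 2321) (nat_lit 0))
(L (nat_lit 16673)))
(L (nat_lit 16675)))
(L (nat_lit 9264)))
(L (nat_lit 16519)))
(L (nat_lit 5608))))
(S (nat_lit 618) (S (nat_lit 190) (S (nat_lit 328) (S (nat_lit 300) (S (nat_lit 426) (S (nat_lit 171) (S (nat_lit 219) (S (nat_lit 466) (D (nat_lit 14) (nat_lit 2252) (nat_lit 1356) (nat_lit 0))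
(L (nat_lit 14407)))
(L (nat_lit 13635)))
(L (nat_lit 10625)))
(L (nat_lit 8577)))
(S (nat_lit 374) (S (nat_lit 520) (S (nat_lit 388) (S (nat_lit 576) (S (nat_lit 330) (D (nat_lit 14) (nat_lit 3309) (nat_lit 4365) (nat_lit 0))
(L (nat_lit 8609)))
(L (nat_lit 13633)))
(S (nat_lit 630) (S (nat_lit 304) (S (nat_lit 450) (S (nat_lit 652) (S (nat_lit 716) (S (nat_lit 136) (S (nat_lit 48) (D (nat_lit 3) (nat_lit 6563) (nat_lit 2383) (nat_lit 0))
(S (nat_lit 66) (D (nat_lit 3) (nat_lit 7587) (nat_lit 4369) (nat_lit 0))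
(L (nat_lit 1325))))
(L (nat_lit 8609)))
(L (nat_lit 16608)))
(L (nat_lit 519)))
(L (nat_lit 8644)))
(L (nat_lit 14660)))
(L (nat_lit 4433))))
(L (nat_lit 6533)))
(L (nat_lit 3463))))
(L (nat_lit 8578)))
(L (nat_lit 2350)))
(S (nat_lit 690) (S (nat_lit 366) (S (nat_lit 623) (S (nat_lit 471) (S (nat_lit 388) (S (nat_lit 406) (S (nat_lit 17) (S (nat_lit 458) (S (nat_lit 437) (S (nat_lit 424) (D (nat_lit 10) (nat_lit 10353) (nat_lit 2414) (nat_lit 0))
(L (nat_lit 13602)))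
(L (nat_lit 14659)))
(L (nat_lit 15617)))
(L (nat_lit 14692)))
(L (nat_lit 14626)))
(S (nat_lit 640) (S (nat_lit 622) (S (nat_lit 450) (S (nat_lit 432) (S (nat_lit 11) (S (nat_lit 630) (S (nat_lit 96) (D (nat_lit 6) (nat_lit 3623) (nat_lit 486) (nat_lit 0))
(S (nat_lit 576) (S (nat_lit 434) (D (nat_lit 0) (nat_lit 7589) (nat_lit 15715) (nat_lit 0))
(L (nat_lit 14689)))
(L (nat_lit 3626))))
(L (nat_lit 6629)))
(S (nat_lit 171) (S (nat_lit 552) (S (nat_lit 576) (S (nat_lit 549) (D (nat_lit 4) (nat_lit 14375) (nat_lit 12548) (nat_lit 0))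
(L (nat_lit 13415)))
(L (nat_lit 6625)))
(L (nat_lit 13350)))
(L (nat_lit 15371))))
(L (nat_lit 11780)))
(L (nat_lit 6596)))
(L (nat_lit 17729)))
(L (nat_lit 12454))))
(L (nat_lit 1264)))
(L (nat_lit 15618)))
(S (nat_lit 520) (S (nat_lit 36) (S (nat_lit 190) (S (nat_lit 114) (S (nat_lit 294) (S (nat_lit 355) (D (nat_lit 14) (nat_lit 2284) (nat_lit 1448) (nat_lit 0))
(L (nat_lit 14533)))
(L (nat_lit 3406)))
(L (nat_lit 8738)))
(L (nat_lit 9358)))
(L (nat_lit 390)))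
(L (nat_lit 17448))))
(L (nat_lit 7217)))))
(S (nat_lit 726) (S (nat_lit 0) (S (nat_lit 437) (S (nat_lit 366) (S (nat_lit 67) (S (nat_lit 499) (S (nat_lit 651) (S (nat_lit 288) (S (nat_lit 93) (D (nat_lit 2) (nat_lit 1415) (nat_lit 2472) (nat_lit 0))
(L (nat_lit 6593)))
(L (nat_lit 10690)))
(L (nat_lit 17632)))
(L (nat_lit 9325)))
(L (nat_lit 14596)))
(S (nat_lit 402) (S (nat_lit 430) (L (nat_lit 10320))
(L (nat_lit 15555)))
(L (nat_lit 490))))
(S (nat_lit 640) (S (nat_lit 23) (S (nat_lit 370) (S (nat_lit 706) (S (nat_lit 549) (S (nat_lit 52) (S (nat_lit 100) (S (nat_lit 190) (D (nat_lit 2) (nat_lit 204) (nat_lit 10660) (nat_lit 0))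
(L (nat_lit 4398)))
(L (nat_lit 17666)))
(L (nat_lit 17728)))
(L (nat_lit 1510)))
(L (nat_lit 17543)))
(L (nat_lit 9669)))
(S (nat_lit 442) (S (nat_lit 215) (S (nat_lit 264) (S (nat_lit 93) (S (nat_lit 173) (S (nat_lit 557) (S (nat_lit 705) (D (nat_lit 12) (nat_lit 8613) (nat_lit 8706) (nat_lit 0))
(L (nat_lit 9733)))
(L (nat_lit 16736)))
(L (nat_lit 14629)))
(S (nat_lit 295) (S (nat_lit 434) (S (nat_lit 354) (D (nat_lit 10) (nat_lit 6531) (nat_lit 3624) (nat_lit 0))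
(L (nat_lit 8740)))
(L (nat_lit 9667)))
(L (nat_lit 11744))))
(L (nat_lit 15462)))
(S (nat_lit 292) (S (nat_lit 100) (S (nat_lit 540) (S (nat_lit 357) (S (nat_lit 651) (S (nat_lit 148) (D (nat_lit 12) (nat_lit 17635) (nat_lit 10724) (nat_lit 0))
(L (nat_lit 14689)))
(S (nat_lit 723) (S (nat_lit 296) (D (nat_lit 8) (nat_lit 2475) (nat_lit 9730) (nat_lit 0))
(L (nat_lit 13635)))
(L (nat_lit 523))))
(L (nat_lit 10288)))
(L (nat_lit 7717)))
(L (nat_lit 5454)))
(S (nat_lit 630) (S (nat_lit 622) (S (nat_lit 623) (S (nat_lit 96) (S (nat_lit 554) (S (nat_lit 708) (S (nat_lit 556) (D (nat_lit 8) (nat_lit 4397) (nat_lit 11780) (nat_lit 0))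
(S (nat_lit 687) (S (nat_lit 149) (S (nat_lit 148) (D (nat_lit 10) (nat_lit 4489) (nat_lit 16459) (nat_lit 0))
(L (nat_lit 14532)))
(L (nat_lit 14530)))
(L (nat_lit 16708))))
(L (nat_lit 9603)))
(L (nat_lit 9634)))
(L (nat_lit 2602)))
(L (nat_lit 8738)))
(L (nat_lit 8740)))
(L (nat_lit 1297)))))
(L (nat_lit 5425))))
(L (nat_lit 9761))))
(S (nat_lit 252) (S (nat_lit 96) (L (nat_lit 16425))
(S (nat_lit 330) (S (nat_lit 52) (S (nat_lit 426) (S (nat_lit 540) (S (nat_lit 634) (D (nat_lit 2) (nat_lit 17510) (nat_lit 11812) (nat_lit 0))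
(L (nat_lit 13505)))
(L (nat_lit 7653)))
(L (nat_lit 8302)))
(L (nat_lit 17728)))
(L (nat_lit 14625))))
(S (nat_lit 504) (S (nat_lit 374) (S (nat_lit 136) (S (nat_lit 659) (S (nat_lit 442) (S (nat_lit 67) (S (nat_lit 270) (D (nat_lit 2) (nat_lit 15557) (nat_lit 9762) (nat_lit 0))
(L (nat_lit 14530)))
(L (nat_lit 14596)))
(L (nat_lit 455)))
(L (nat_lit 7717)))
(L (nat_lit 13483)))
(S (nat_lit 478) (L (nat_lit 3624))
(L (nat_lit 15527))))
(L (nat_lit 12326)))))
(L (nat_lit 12483)))))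
(S (nat_lit 695) (S (nat_lit 0) (S (nat_lit 21) (S (nat_lit 478) (S (nat_lit 342) (S (nat_lit 726) (S (nat_lit 369) (S (nat_lit 694) (S (nat_lit 708) (S (nat_lit 702) (D (nat_lit 0) (nat_lit 364) (nat_lit 17765) (nat_lit 0))
(L (nat_lit 17513)))
(L (nat_lit 15555)))
(L (nat_lit 8677)))
(L (nat_lit 3406)))
(L (nat_lit 14595)))
(S (nat_lit 370) (S (nat_lit 499) (S (nat_lit 706) (S (nat_lit 136) (S (nat_lit 268) (D (nat_lit 2) (nat_lit 456) (nat_lit 16423) (nat_lit 0))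
(L (nat_lit 15683)))
(L (nat_lit 12545)))
(L (nat_lit 9732)))
(S (nat_lit 694) (S (nat_lit 479) (S (nat_lit 9) (S (nat_lit 371) (S (nat_lit 640) (S (nat_lit 24) (S (nat_lit 624) (S (nat_lit 726) (S (nat_lit 354) (S (nat_lit 402) (S (nat_lit 23) (S (nat_lit 22) (S (nat_lit 462) (S (nat_lit 456) (S (nat_lit 678) (S (nat_lit 618) (S (nat_lit 687) (S (nat_lit 633) (S (nat_lit 471) (S (nat_lit 18) (A (nat_lit 14))
(L (nat_lit 16576)))
(L (nat_lit 7312)))
(L (nat_lit 13450)))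
(L (nat_lit 13636)))
(L (nat_lit 9327)))
(L (nat_lit 15531)))
(L (nat_lit 15465)))
(L (nat_lit 9765)))
(L (nat_lit 17699)))
(L (nat_lit 17701)))
(L (nat_lit 15651)))
(L (nat_lit 14506)))
(L (nat_lit 14595)))
(S (nat_lit 702) (S (nat_lit 366) (S (nat_lit 11) (S (nat_lit 10) (S (nat_lit 432) (S (nat_lit 690) (S (nat_lit 594) (S (nat_lit 378) (S (nat_lit 636) (S (nat_lit 474) (S (nat_lit 687) (S (nat_lit 633) (S (nat_lit 471) (S (nat_lit 18) (A (nat_lit 15))
(L (nat_lit 16577)))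
(L (nat_lit 10288)))
(L (nat_lit 16426)))
(L (nat_lit 16612)))
(L (nat_lit 10256)))
(L (nat_lit 16394)))
(L (nat_lit 14506)))
(L (nat_lit 8740)))
(L (nat_lit 16580)))
(L (nat_lit 14692)))
(L (nat_lit 14530)))
(S (nat_lit 357) (S (nat_lit 723) (S (nat_lit 101) (S (nat_lit 354) (D (nat_lit 6) (nat_lit 4305) (nat_lit 1511) (nat_lit 0))
(L (nat_lit 14506)))
(L (nat_lit 16709)))
(L (nat_lit 14661)))
(L (nat_lit 2474))))
(L (nat_lit 11312)))
(L (nat_lit 3441))))
(L (nat_lit 16736)))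
(L (nat_lit 7277)))
(L (nat_lit 13447)))
(L (nat_lit 9600)))
(L (nat_lit 13664)))
(L (nat_lit 3376))))
(L (nat_lit 13568))))
(L (nat_lit 458)))
(S (nat_lit 442) (S (nat_lit 185) (S (nat_lit 654) (S (nat_lit 516) (S (nat_lit 323) (S (nat_lit 474) (S (nat_lit 229) (D (nat_lit 3) (nat_lit 11749) (nat_lit 12612) (nat_lit 0))
(L (nat_lit 15684)))
(L (nat_lit 10725)))
(L (nat_lit 11744)))
(L (nat_lit 6660)))
(L (nat_lit 17665)))
(S (nat_lit 388) (S (nat_lit 690) (S (nat_lit 14) (S (nat_lit 636) (S (nat_lit 471) (S (nat_lit 11) (S (nat_lit 269) (S (nat_lit 440) (S (nat_lit 502) (S (nat_lit 114) (D (nat_lit 2) (nat_lit 1360) (nat_lit 14374) (nat_lit 0))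
(L (nat_lit 13604)))
(L (nat_lit 16707)))
(L (nat_lit 14593)))
(S (nat_lit 366) (S (nat_lit 623) (S (nat_lit 371) (S (nat_lit 677) (S (nat_lit 479) (S (nat_lit 474) (S (nat_lit 633) (S (nat_lit 687) (S (nat_lit 604) (S (nat_lit 712) (S (nat_lit 9) (S (nat_lit 10) (S (nat_lit 18) (S (nat_lit 461) (S (nat_lit 17) (S (nat_lit 353) (A (nat_lit 16))
(L (nat_lit 14473)))
(L (nat_lit 8708)))
(L (nat_lit 9730)))
(L (nat_lit 17632)))
(L (nat_lit 15586)))
(L (nat_lit 15584)))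
(L (nat_lit 7277)))
(L (nat_lit 6221)))
(L (nat_lit 7682)))
(L (nat_lit 6563)))
(L (nat_lit 17667)))
(L (nat_lit 15650)))
(L (nat_lit 15651)))
(L (nat_lit 15619)))
(L (nat_lit 15618)))
(L (nat_lit 5610))))
(L (nat_lit 14564)))
(L (nat_lit 7312)))
(L (nat_lit 16394)))
(L (nat_lit 3531)))
(S (nat_lit 726) (S (nat_lit 229) (S (nat_lit 556) (S (nat_lit 173) (S (nat_lit 461) (S (nat_lit 705) (S (nat_lit 431) (S (nat_lit 160) (D (nat_lit 14) (nat_lit 17637) (nat_lit 17483) (nat_lit 0))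
(L (nat_lit 17697)))
(S (nat_lit 553) (S (nat_lit 677) (D (nat_lit 10) (nat_lit 4396) (nat_lit 11780) (nat_lit 0))
(L (nat_lit 9699)))
(L (nat_lit 8612))))
(L (nat_lit 17637)))
(L (nat_lit 14688)))
(L (nat_lit 10288)))
(L (nat_lit 8644)))
(S (nat_lit 357) (S (nat_lit 347) (S (nat_lit 100) (S (nat_lit 134) (S (nat_lit 595) (S (nat_lit 251) (S (nat_lit 203) (D (nat_lit 14) (nat_lit 5515) (nat_lit 16521) (nat_lit 0))
(L (nat_lit 14657)))
(S (nat_lit 479) (S (nat_lit 350) (D (nat_lit 10) (nat_lit 2413) (nat_lit 2350) (nat_lit 0))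
(L (nat_lit 13604)))
(L (nat_lit 6319))))
(L (nat_lit 8736)))
(L (nat_lit 7216)))
(L (nat_lit 4491)))
(L (nat_lit 7557)))
(S (nat_lit 618) (S (nat_lit 471) (S (nat_lit 269) (S (nat_lit 479) (L (nat_lit 5389))
(S (nat_lit 499) (S (nat_lit 18) (S (nat_lit 124) (S (nat_lit 677) (D (nat_lit 12) (nat_lit 4304) (nat_lit 16553) (nat_lit 0))
(L (nat_lit 15649)))
(L (nat_lit 15648)))
(S (nat_lit 323) (S (nat_lit 239) (S (nat_lit 379) (S (nat_lit 9) (D (nat_lit 12) (nat_lit 2286) (nat_lit 14443) (nat_lit 0))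
(L (nat_lit 8204)))
(L (nat_lit 8300)))
(L (nat_lit 17728)))
(L (nat_lit 11277))))
(L (nat_lit 8706))))
(S (nat_lit 437) (S (nat_lit 599) (S (nat_lit 707) (S (nat_lit 383) (S (nat_lit 628) (S (nat_lit 682) (S (nat_lit 358) (S (nat_lit 466) (S (nat_lit 17) (S (nat_lit 712) (S (nat_lit 687) (S (nat_lit 604) (S (nat_lit 479) (S (nat_lit 371) (S (nat_lit 22) (S (nat_lit 402) (S (nat_lit 633) (S (nat_lit 456) (A (nat_lit 17))
(L (nat_lit 13570)))
(L (nat_lit 13669)))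
(L (nat_lit 9294)))
(L (nat_lit 11342)))
(L (nat_lit 13383)))
(L (nat_lit 13600)))
(L (nat_lit 5456)))
(L (nat_lit 10417)))
(L (nat_lit 10416)))
(L (nat_lit 8368)))
(L (nat_lit 3345)))
(L (nat_lit 8305)))
(L (nat_lit 2442)))
(L (nat_lit 8580)))
(L (nat_lit 8578)))
(L (nat_lit 9358)))
(L (nat_lit 2414)))
(L (nat_lit 4431))))
(L (nat_lit 4336)))
(L (nat_lit 14564)))))
(L (nat_lit 273))))
(L (nat_lit 6257))))
(S (nat_lit 546) (S (nat_lit 198) (S (nat_lit 388) (S (nat_lit 474) (S (nat_lit 77) (S (nat_lit 431) (S (nat_lit 229) (D (nat_lit 3) (nat_lit 11749) (nat_lit 12426) (nat_lit 0))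
(L (nat_lit 15495)))
(L (nat_lit 13478)))
(L (nat_lit 459)))
(L (nat_lit 10256)))
(L (nat_lit 11372)))
(L (nat_lit 10316)))
(L (nat_lit 5575)))))
(S (nat_lit 252) (S (nat_lit 219) (S (nat_lit 374) (S (nat_lit 124) (S (nat_lit 474) (S (nat_lit 229) (S (nat_lit 114) (S (nat_lit 244) (S (nat_lit 293) (S (nat_lit 198) (S (nat_lit 107) (D (nat_lit 3) (nat_lit 11748) (nat_lit 14408) (nat_lit 0))
(L (nat_lit 17700)))
(L (nat_lit 10660)))
(S (nat_lit 323) (S (nat_lit 442) (S (nat_lit 347) (S (nat_lit 574) (D (nat_lit 3) (nat_lit 11716) (nat_lit 9698) (nat_lit 0))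
(L (nat_lit 15586)))
(L (nat_lit 13669)))
(L (nat_lit 12576)))
(L (nat_lit 15370))))
(L (nat_lit 14531)))
(L (nat_lit 8740)))
(S (nat_lit 457) (S (nat_lit 574) (S (nat_lit 594) (S (nat_lit 190) (D (nat_lit 14) (nat_lit 1263) (nat_lit 13449) (nat_lit 0))
(L (nat_lit 11685)))
(L (nat_lit 8740)))
(L (nat_lit 15587)))
(L (nat_lit 1511))))
(L (nat_lit 7653)))
(L (nat_lit 11813)))
(S (nat_lit 492) (S (nat_lit 437) (S (nat_lit 190) (S (nat_lit 485) (S (nat_lit 712) (S (nat_lit 77) (D (nat_lit 14) (nat_lit 7249) (nat_lit 14690) (nat_lit 0))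
(L (nat_lit 16523)))
(L (nat_lit 16740)))
(L (nat_lit 13506)))
(L (nat_lit 2471)))
(L (nat_lit 14561)))
(L (nat_lit 15527))))
(S (nat_lit 471) (S (nat_lit 262) (S (nat_lit 136) (S (nat_lit 457) (S (nat_lit 21) (S (nat_lit 499) (S (nat_lit 245) (S (nat_lit 400) (S (nat_lit 227) (D (nat_lit 12) (nat_lit 10350) (nat_lit 14691) (nat_lit 0))
(L (nat_lit 1446)))
(L (nat_lit 13505)))
(S (nat_lit 726) (S (nat_lit 210) (S (nat_lit 23) (S (nat_lit 492) (D (nat_lit 2) (nat_lit 10382) (nat_lit 15584) (nat_lit 0))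
(L (nat_lit 6593)))
(L (nat_lit 17668)))
(L (nat_lit 17730)))
(L (nat_lit 6159))))
(L (nat_lit 16674)))
(L (nat_lit 17665)))
(S (nat_lit 489) (S (nat_lit 383) (S (nat_lit 440) (S (nat_lit 14) (S (nat_lit 234) (D (nat_lit 12) (nat_lit 12395) (nat_lit 14691) (nat_lit 0))
(L (nat_lit 393)))
(L (nat_lit 14443)))
(L (nat_lit 16577)))
(L (nat_lit 14528)))
(L (nat_lit 15463))))
(S (nat_lit 528) (S (nat_lit 17) (L (nat_lit 1511))
(L (nat_lit 9765)))
(L (nat_lit 8303))))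
(S (nat_lit 611) (S (nat_lit 24) (S (nat_lit 114) (S (nat_lit 678) (S (nat_lit 203) (S (nat_lit 490) (S (nat_lit 23) (D (nat_lit 2) (nat_lit 3344) (nat_lit 12326) (nat_lit 0))
(L (nat_lit 10724)))
(L (nat_lit 15433)))
(L (nat_lit 14563)))
(L (nat_lit 2473)))
(L (nat_lit 8301)))
(L (nat_lit 17729)))
(L (nat_lit 5356))))
(S (nat_lit 723) (S (nat_lit 136) (S (nat_lit 190) (S (nat_lit 229) (S (nat_lit 611) (S (nat_lit 355) (S (nat_lit 386) (S (nat_lit 53) (S (nat_lit 126) (D (nat_lit 14) (nat_lit 4337) (nat_lit 16676) (nat_lit 0))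
(L (nat_lit 7586)))
(L (nat_lit 16491)))
(L (nat_lit 14562)))
(S (nat_lit 400) (S (nat_lit 227) (S (nat_lit 185) (S (nat_lit 466) (D (nat_lit 14) (nat_lit 16581) (nat_lit 16459) (nat_lit 0))
(L (nat_lit 14532)))
(L (nat_lit 6629)))
(L (nat_lit 14688)))
(L (nat_lit 2443))))
(L (nat_lit 6593)))
(L (nat_lit 14561)))
(L (nat_lit 2442)))
(L (nat_lit 8580)))
(L (nat_lit 12425)))))
(S (nat_lit 504) (S (nat_lit 214) (S (nat_lit 22) (S (nat_lit 269) (S (nat_lit 485) (S (nat_lit 251) (S (nat_lit 227) (S (nat_lit 14) (D (nat_lit 2) (nat_lit 15370) (nat_lit 13537) (nat_lit 0))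
(L (nat_lit 15467)))
(L (nat_lit 15712)))
(L (nat_lit 365)))
(L (nat_lit 8610)))
(L (nat_lit 10724)))
(L (nat_lit 10350)))
(S (nat_lit 454) (S (nat_lit 706) (S (nat_lit 190) (S (nat_lit 14) (S (nat_lit 251) (S (nat_lit 239) (S (nat_lit 461) (D (nat_lit 2) (nat_lit 5578) (nat_lit 13537) (nat_lit 0))
(L (nat_lit 16552)))
(L (nat_lit 16610)))
(L (nat_lit 490)))
(L (nat_lit 3530)))
(L (nat_lit 12576)))
(L (nat_lit 17729)))
(S (nat_lit 694) (S (nat_lit 403) (S (nat_lit 379) (S (nat_lit 652) (L (nat_lit 2383))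
(L (nat_lit 17479)))
(L (nat_lit 10756)))
(S (nat_lit 640) (S (nat_lit 222) (S (nat_lit 288) (S (nat_lit 128) (S (nat_lit 601) (S (nat_lit 582) (S (nat_lit 244) (S (nat_lit 599) (D (nat_lit 10) (nat_lit 13417) (nat_lit 11747) (nat_lit 0))
(L (nat_lit 8206)))
(L (nat_lit 14530)))
(S (nat_lit 611) (S (nat_lit 231) (S (nat_lit 269) (D (nat_lit 10) (nat_lit 523) (nat_lit 4584) (nat_lit 0))
(L (nat_lit 13637)))
(L (nat_lit 14531)))
(L (nat_lit 13537))))
(L (nat_lit 15584)))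
(L (nat_lit 17543)))
(S (nat_lit 489) (S (nat_lit 501) (S (nat_lit 357) (S (nat_lit 369) (S (nat_lit 316) (S (nat_lit 492) (D (nat_lit 16) (nat_lit 16579) (nat_lit 17545) (nat_lit 0))
(L (nat_lit 335)))
(L (nat_lit 456)))
(L (nat_lit 7312)))
(S (nat_lit 471) (S (nat_lit 245) (S (nat_lit 456) (S (nat_lit 23) (S (nat_lit 599) (S (nat_lit 402) (D (nat_lit 12) (nat_lit 11653) (nat_lit 16739) (nat_lit 0))
(L (nat_lit 7589)))
(L (nat_lit 17415)))
(L (nat_lit 17668)))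
(L (nat_lit 15618)))
(S (nat_lit 718) (S (nat_lit 11) (S (nat_lit 210) (S (nat_lit 269) (S (nat_lit 611) (D (nat_lit 12) (nat_lit 8709) (nat_lit 16741) (nat_lit 0))
(L (nat_lit 11651)))
(L (nat_lit 10661)))
(L (nat_lit 16612)))
(L (nat_lit 14533)))
(L (nat_lit 7181))))
(L (nat_lit 10286))))
(L (nat_lit 9391)))
(S (nat_lit 716) (S (nat_lit 180) (S (nat_lit 23) (S (nat_lit 231) (S (nat_lit 706) (D (nat_lit 10) (nat_lit 459) (nat_lit 5674) (nat_lit 0))
(L (nat_lit 3594)))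
(L (nat_lit 14595)))
(S (nat_lit 366) (S (nat_lit 10) (S (nat_lit 718) (D (nat_lit 10) (nat_lit 15465) (nat_lit 5457) (nat_lit 0))
(L (nat_lit 16644)))
(L (nat_lit 15586)))
(L (nat_lit 5610))))
(L (nat_lit 17697)))
(L (nat_lit 1542)))))
(S (nat_lit 290) (S (nat_lit 343) (S (nat_lit 288) (S (nat_lit 726) (S (nat_lit 702) (S (nat_lit 342) (D (nat_lit 4) (nat_lit 16608) (nat_lit 13570) (nat_lit 0))
(L (nat_lit 7184)))
(L (nat_lit 15531)))
(L (nat_lit 14409)))
(L (nat_lit 11780)))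
(L (nat_lit 13323)))
(L (nat_lit 11341))))
(L (nat_lit 491))))
(L (nat_lit 6693)))))
(L (nat_lit 12295)))))
(L (nat_lit 12422)))))
(L (nat_lit 12393)))))

theorem rpl : run 2 lpl gpl tpl kpl [363] [] = true := by
  decide +kernel

noncomputable def tb246_0_15 : Tr :=
(S (nat_lit 1036) (S (nat_lit 1047) (S (nat_lit 1975) (S (nat_lit 1748) (S (nat_lit 11010) (S (nat_lit 1991) (S (nat_lit 1290) (S (nat_lit 10997) (L (nat_lit 17701441))
(L (nat_lit 8259182)))
(L (nat_lit 13556069)))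
(S (nat_lit 41438) (L (nat_lit 19826182))
(L (nat_lit 26870184))))
(S (nat_lit 30774) (S (nat_lit 30761) (S (nat_lit 1229) (L (nat_lit 20121359))
(L (nat_lit 20753856)))
(L (nat_lit 19359883)))
(S (nat_lit 50538) (S (nat_lit 1732) (S (nat_lit 21021) (S (nat_lit 37291) (L (nat_lit 28970224))
(L (nat_lit 13928152)))
(L (nat_lit 4907308)))
(L (nat_lit 13262858)))
(L (nat_lit 25340497)))))
(S (nat_lit 21512) (S (nat_lit 15309) (S (nat_lit 1229) (S (nat_lit 1715) (S (nat_lit 30730) (L (nat_lit 19832321))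
(L (nat_lit 19667459)))
(L (nat_lit 19694022)))
(S (nat_lit 44813) (L (nat_lit 8914871))
(L (nat_lit 26851463))))
(S (nat_lit 35073) (S (nat_lit 17496) (S (nat_lit 11010) (L (nat_lit 582214))
(L (nat_lit 18543905)))
(L (nat_lit 22274529)))
(S (nat_lit 54837) (S (nat_lit 30713) (S (nat_lit 17496) (S (nat_lit 50494) (L (nat_lit 15004757))
(L (nat_lit 11240889)))
(L (nat_lit 26445553)))
(L (nat_lit 19128836)))
(L (nat_lit 25625847)))))
(S (nat_lit 41276) (S (nat_lit 1246) (S (nat_lit 10997) (S (nat_lit 15371) (L (nat_lit 23299581))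
(L (nat_lit 7210420)))
(L (nat_lit 7210606)))
(S (nat_lit 21010) (S (nat_lit 10935) (S (nat_lit 15309) (S (nat_lit 57066) (L (nat_lit 29804865))
(L (nat_lit 5134703)))
(L (nat_lit 26904006)))
(L (nat_lit 26707590)))
(S (nat_lit 40774) (S (nat_lit 30761) (S (nat_lit 35135) (L (nat_lit 30449292))
(L (nat_lit 9209487)))
(L (nat_lit 9209301)))
(L (nat_lit 25315782)))))
(L (nat_lit 25517475)))))
(S (nat_lit 21739) (S (nat_lit 17496) (S (nat_lit 47) (S (nat_lit 8810) (S (nat_lit 15384) (S (nat_lit 15356) (S (nat_lit 39590) (L (nat_lit 13718279))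
(L (nat_lit 24255000)))
(L (nat_lit 6387156)))
(S (nat_lit 30562) (L (nat_lit 26294859))
(L (nat_lit 671000))))
(S (nat_lit 28574) (S (nat_lit 1290) (S (nat_lit 1776) (S (nat_lit 17571) (L (nat_lit 29409491))
(L (nat_lit 8000953)))
(L (nat_lit 19831266)))
(S (nat_lit 45704) (L (nat_lit 17963927))
(L (nat_lit 19825128))))
(S (nat_lit 48338) (S (nat_lit 1986) (S (nat_lit 40547) (S (nat_lit 37291) (S (nat_lit 10960) (L (nat_lit 9171425))
(L (nat_lit 26415728)))
(L (nat_lit 20873485)))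
(L (nat_lit 8053121)))
(S (nat_lit 21437) (L (nat_lit 20070617))
(L (nat_lit 10126873))))
(L (nat_lit 25614692)))))
(S (nat_lit 19811) (S (nat_lit 1715) (S (nat_lit 48340) (S (nat_lit 57088) (S (nat_lit 21529) (L (nat_lit 277364))
(L (nat_lit 14743111)))
(L (nat_lit 13371606)))
(L (nat_lit 14420183)))
(S (nat_lit 21479) (S (nat_lit 20750) (S (nat_lit 48340) (S (nat_lit 48301) (S (nat_lit 57049) (L (nat_lit 21503162))
(L (nat_lit 10500883)))
(L (nat_lit 10508044)))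
(L (nat_lit 20712689)))
(L (nat_lit 21313563)))
(S (nat_lit 41243) (S (nat_lit 48307) (S (nat_lit 57055) (S (nat_lit 28526) (L (nat_lit 15428802))
(L (nat_lit 2344885)))
(L (nat_lit 21282594)))
(L (nat_lit 22330146)))
(L (nat_lit 25531863)))))
(S (nat_lit 39575) (S (nat_lit 1763) (S (nat_lit 1776) (S (nat_lit 39590) (S (nat_lit 75) (L (nat_lit 27792006))
(L (nat_lit 8066520)))
(L (nat_lit 28018186)))
(L (nat_lit 19404825)))
(S (nat_lit 21527) (S (nat_lit 8790) (S (nat_lit 39590) (S (nat_lit 39592) (S (nat_lit 17510) (L (nat_lit 1615451))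
(L (nat_lit 256532)))
(L (nat_lit 24644857)))
(L (nat_lit 28024356)))
(L (nat_lit 584020)))
(S (nat_lit 41291) (S (nat_lit 8790) (S (nat_lit 39590) (S (nat_lit 2019) (L (nat_lit 11421345))
(L (nat_lit 12305560)))
(L (nat_lit 28018218)))
(S (nat_lit 18424) (L (nat_lit 7870230))
(L (nat_lit 21097958))))
(L (nat_lit 25210423)))))
(L (nat_lit 25838789)))))
(S (nat_lit 37260) (S (nat_lit 42) (S (nat_lit 13804) (L (nat_lit 14735242))
(S (nat_lit 39592) (S (nat_lit 8790) (S (nat_lit 997) (S (nat_lit 37302) (S (nat_lit 972) (S (nat_lit 18451) (L (nat_lit 2441138))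
(S (nat_lit 21054) (L (nat_lit 8021443))
(L (nat_lit 14937139))))
(L (nat_lit 26298760)))
(L (nat_lit 24022406)))
(L (nat_lit 9198638)))
(L (nat_lit 6852532)))
(L (nat_lit 11359247))))
(S (nat_lit 19806) (S (nat_lit 10935) (S (nat_lit 15309) (L (nat_lit 28560929))
(L (nat_lit 14878393)))
(L (nat_lit 21169657)))
(S (nat_lit 39570) (S (nat_lit 8762) (S (nat_lit 21755) (S (nat_lit 37274) (S (nat_lit 14) (S (nat_lit 21783) (S (nat_lit 32637) (L (nat_lit 31109227))
(S (nat_lit 40790) (L (nat_lit 28460712))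
(L (nat_lit 18647382))))
(S (nat_lit 43071) (L (nat_lit 24318424))
(L (nat_lit 14904467))))
(S (nat_lit 13787) (L (nat_lit 15336763))
(L (nat_lit 19086429))))
(L (nat_lit 13674260)))
(L (nat_lit 7390811)))
(S (nat_lit 22055) (S (nat_lit 26429) (L (nat_lit 24362138))
(L (nat_lit 26461765)))
(L (nat_lit 26467717))))
(L (nat_lit 25627366)))))
(S (nat_lit 57024) (S (nat_lit 8790) (S (nat_lit 25) (S (nat_lit 54837) (L (nat_lit 13672343))
(L (nat_lit 19105309)))
(S (nat_lit 19789) (S (nat_lit 34468) (L (nat_lit 11459109))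
(L (nat_lit 21230734)))
(S (nat_lit 39553) (S (nat_lit 650) (L (nat_lit 19996432))
(S (nat_lit 972) (S (nat_lit 1003) (S (nat_lit 42) (S (nat_lit 57066) (S (nat_lit 21733) (S (nat_lit 1014) (S (nat_lit 997) (S (nat_lit 50463) (S (nat_lit 31024) (L (nat_lit 7356091))
(L (nat_lit 26950880)))
(S (nat_lit 54963) (L (nat_lit 4763574))
(L (nat_lit 15402918))))
(L (nat_lit 8478639)))
(L (nat_lit 11359746)))
(S (nat_lit 23347) (L (nat_lit 2420213))
(L (nat_lit 15297543))))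
(L (nat_lit 12376512)))
(S (nat_lit 35933) (L (nat_lit 26259148))
(L (nat_lit 26328434))))
(L (nat_lit 26415572)))
(L (nat_lit 11285058))))
(L (nat_lit 25772168)))))
(S (nat_lit 28554) (S (nat_lit 54851) (S (nat_lit 50477) (S (nat_lit 10935) (L (nat_lit 5493647))
(L (nat_lit 21219072)))
(L (nat_lit 4777546)))
(L (nat_lit 4973962)))
(S (nat_lit 48318) (S (nat_lit 1726) (L (nat_lit 12656436))
(L (nat_lit 13376192)))
(L (nat_lit 25758064)))))
(L (nat_lit 25678886)))))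
(S (nat_lit 41503) (S (nat_lit 8823) (S (nat_lit 1701) (S (nat_lit 54862) (S (nat_lit 50488) (S (nat_lit 54868) (L (nat_lit 4672856))
(L (nat_lit 11109785)))
(L (nat_lit 14896281)))
(L (nat_lit 21181593)))
(S (nat_lit 21465) (S (nat_lit 15371) (S (nat_lit 1279) (S (nat_lit 10999) (L (nat_lit 7244364))
(L (nat_lit 1982706)))
(L (nat_lit 26286484)))
(S (nat_lit 44829) (L (nat_lit 21234544))
(L (nat_lit 924239))))
(S (nat_lit 41229) (S (nat_lit 10960) (S (nat_lit 15334) (S (nat_lit 40805) (L (nat_lit 28361287))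
(L (nat_lit 23933959)))
(L (nat_lit 17560931)))
(L (nat_lit 23655779)))
(L (nat_lit 25801867)))))
(S (nat_lit 28587) (S (nat_lit 8779) (S (nat_lit 62) (S (nat_lit 10935) (S (nat_lit 15309) (S (nat_lit 10966) (L (nat_lit 4921880))
(L (nat_lit 23600251)))
(L (nat_lit 26680992)))
(L (nat_lit 26877408)))
(S (nat_lit 19826) (L (nat_lit 4758105))
(S (nat_lit 39590) (S (nat_lit 13260) (L (nat_lit 20389048))
(S (nat_lit 37291) (S (nat_lit 19778) (S (nat_lit 37307) (S (nat_lit 10966) (L (nat_lit 19399900))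
(L (nat_lit 26740456)))
(S (nat_lit 47482) (L (nat_lit 20880430))
(L (nat_lit 2534073))))
(S (nat_lit 41433) (L (nat_lit 5643996))
(L (nat_lit 22067483))))
(L (nat_lit 2629336))))
(L (nat_lit 25887057)))))
(S (nat_lit 28543) (S (nat_lit 1003) (S (nat_lit 30730) (S (nat_lit 35104) (L (nat_lit 14720915))
(L (nat_lit 13305144)))
(L (nat_lit 19399992)))
(S (nat_lit 20767) (S (nat_lit 3369) (L (nat_lit 5907960))
(S (nat_lit 17496) (S (nat_lit 1991) (S (nat_lit 1229) (L (nat_lit 9488796))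
(L (nat_lit 3976848)))
(S (nat_lit 40633) (L (nat_lit 12784437))
(L (nat_lit 14320390))))
(L (nat_lit 24329240))))
(S (nat_lit 40531) (S (nat_lit 17496) (S (nat_lit 35135) (S (nat_lit 30761) (L (nat_lit 13468949))
(L (nat_lit 19235630)))
(L (nat_lit 12944180)))
(S (nat_lit 21909) (L (nat_lit 6043956))
(L (nat_lit 1857062))))
(L (nat_lit 25862592)))))
(S (nat_lit 48307) (S (nat_lit 1763) (S (nat_lit 1765) (S (nat_lit 1944) (S (nat_lit 41243) (S (nat_lit 14) (S (nat_lit 19828) (S (nat_lit 41519) (S (nat_lit 41254) (S (nat_lit 28576) (S (nat_lit 40500) (S (nat_lit 17560) (S (nat_lit 11560) (L (nat_lit 29466130))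
(L (nat_lit 27901217)))
(S (nat_lit 22316) (L (nat_lit 340634))
(L (nat_lit 15901462))))
(L (nat_lit 10324589)))
(L (nat_lit 17981682)))
(L (nat_lit 23961646)))
(L (nat_lit 2350522)))
(L (nat_lit 2833624)))
(L (nat_lit 12624758)))
(L (nat_lit 18786977)))
(L (nat_lit 20223385)))
(L (nat_lit 19983754)))
(S (nat_lit 21527) (S (nat_lit 19839) (S (nat_lit 1944) (S (nat_lit 21529) (S (nat_lit 40525) (S (nat_lit 20778) (S (nat_lit 41260) (S (nat_lit 8762) (S (nat_lit 41276) (S (nat_lit 1034) (S (nat_lit 23382) (L (nat_lit 3389082))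
(S (nat_lit 43146) (S (nat_lit 16966) (L (nat_lit 3388059))
(L (nat_lit 31142179)))
(L (nat_lit 29640720))))
(L (nat_lit 10537873)))
(L (nat_lit 27450673)))
(L (nat_lit 16828701)))
(L (nat_lit 8899769)))
(L (nat_lit 5943085)))
(L (nat_lit 24552505)))
(L (nat_lit 22082951)))
(L (nat_lit 11651481)))
(L (nat_lit 9135585)))
(S (nat_lit 41291) (S (nat_lit 19839) (S (nat_lit 41514) (S (nat_lit 20778) (S (nat_lit 21465) (S (nat_lit 28576) (S (nat_lit 1958) (S (nat_lit 39570) (S (nat_lit 19826) (S (nat_lit 40500) (S (nat_lit 48323) (S (nat_lit 23274) (L (nat_lit 1360474))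
(S (nat_lit 46984) (S (nat_lit 12148) (L (nat_lit 2372216))
(L (nat_lit 31045856)))
(L (nat_lit 24521605))))
(L (nat_lit 22953156)))
(L (nat_lit 3796392)))
(L (nat_lit 21536548)))
(L (nat_lit 23891494)))
(L (nat_lit 20376616)))
(L (nat_lit 24938700)))
(L (nat_lit 21902692)))
(L (nat_lit 22541538)))
(L (nat_lit 6804227)))
(L (nat_lit 2861562)))
(L (nat_lit 25442017)))))
(L (nat_lit 25483651)))))
(S (nat_lit 48351) (S (nat_lit 10982) (S (nat_lit 7024) (L (nat_lit 30943937))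
(S (nat_lit 21733) (S (nat_lit 40531) (S (nat_lit 19789) (L (nat_lit 20424513))
(L (nat_lit 21900430)))
(L (nat_lit 27472512)))
(L (nat_lit 1988878))))
(S (nat_lit 30746) (S (nat_lit 19789) (S (nat_lit 57038) (L (nat_lit 5955918))
(L (nat_lit 28025934)))
(L (nat_lit 8447726)))
(S (nat_lit 50510) (S (nat_lit 53098) (L (nat_lit 8476462))
(S (nat_lit 54879) (S (nat_lit 57038) (S (nat_lit 21529) (L (nat_lit 22844686))
(L (nat_lit 8179790)))
(L (nat_lit 6006574)))
(L (nat_lit 5131630))))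
(L (nat_lit 25759982)))))
(L (nat_lit 25611521)))))
(L (nat_lit 25830849)))))
(S (nat_lit 20811) (S (nat_lit 15309) (S (nat_lit 1763) (S (nat_lit 11010) (S (nat_lit 10935) (S (nat_lit 17496) (S (nat_lit 39592) (S (nat_lit 50494) (S (nat_lit 57055) (S (nat_lit 21490) (S (nat_lit 17571) (S (nat_lit 35135) (S (nat_lit 21021) (S (nat_lit 21496) (S (nat_lit 21054) (S (nat_lit 1246) (S (nat_lit 21202) (S (nat_lit 41514) (S (nat_lit 48340) (S (nat_lit 21739) (S (nat_lit 19811) (S (nat_lit 37322) (S (nat_lit 40127) (S (nat_lit 3752) (S (nat_lit 6281) (S (nat_lit 4337) (S (nat_lit 33951) (S (nat_lit 45258) (S (nat_lit 46814) (D (nat_lit 9) (nat_lit 11341389) (nat_lit 25342539) (nat_lit 277229048961))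
(L (nat_lit 30000325)))
(L (nat_lit 29033865)))
(L (nat_lit 28727490)))
(L (nat_lit 31076546)))
(L (nat_lit 31077571)))
(S (nat_lit 34762) (S (nat_lit 3124) (S (nat_lit 42800) (S (nat_lit 44744) (D (nat_lit 11) (nat_lit 31071716) (nat_lit 25765315) (nat_lit 106473560070))
(L (nat_lit 9326081)))
(L (nat_lit 9326112)))
(L (nat_lit 30028811)))
(L (nat_lit 3456950))))
(L (nat_lit 20840903)))
(L (nat_lit 9586548)))
(L (nat_lit 14980697)))
(L (nat_lit 8139828)))
(L (nat_lit 12239897)))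
(L (nat_lit 840972)))
(L (nat_lit 28017870)))
(L (nat_lit 19390598)))
(L (nat_lit 22603107)))
(L (nat_lit 258734)))
(L (nat_lit 21432106)))
(L (nat_lit 20422436)))
(L (nat_lit 25039119)))
(L (nat_lit 16647380)))
(L (nat_lit 14943868)))
(L (nat_lit 14943836)))
(L (nat_lit 11275700)))
(L (nat_lit 695800)))
(L (nat_lit 21011217)))
(S (nat_lit 30774) (S (nat_lit 17496) (S (nat_lit 21755) (S (nat_lit 21010) (L (nat_lit 8947353))
(L (nat_lit 21017350)))
(L (nat_lit 21030310)))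
(L (nat_lit 22512390)))
(S (nat_lit 50538) (S (nat_lit 10982) (S (nat_lit 41534) (L (nat_lit 3892646))
(L (nat_lit 576728)))
(L (nat_lit 553173)))
(L (nat_lit 25803040)))))
(S (nat_lit 21527) (S (nat_lit 10935) (S (nat_lit 17496) (S (nat_lit 17543) (S (nat_lit 21004) (S (nat_lit 39603) (L (nat_lit 26942574))
(L (nat_lit 23631655)))
(L (nat_lit 21300014)))
(S (nat_lit 37307) (S (nat_lit 57049) (S (nat_lit 21041) (S (nat_lit 1776) (S (nat_lit 2006) (S (nat_lit 20778) (S (nat_lit 997) (S (nat_lit 48301) (S (nat_lit 21026) (S (nat_lit 40480) (S (nat_lit 35087) (S (nat_lit 75) (S (nat_lit 57088) (S (nat_lit 6199) (S (nat_lit 5939) (S (nat_lit 6157) (S (nat_lit 27003) (S (nat_lit 44141) (S (nat_lit 14026) (D (nat_lit 13) (nat_lit 27853222) (nat_lit 19666343) (nat_lit 1140448036968))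
(L (nat_lit 31176779)))
(L (nat_lit 21375873)))
(L (nat_lit 21932480)))
(L (nat_lit 28919077)))
(L (nat_lit 28913925)))
(S (nat_lit 52814) (S (nat_lit 22662) (S (nat_lit 8386) (S (nat_lit 14947) (S (nat_lit 22594) (S (nat_lit 8132) (D (nat_lit 11) (nat_lit 30065801) (nat_lit 19175180) (nat_lit 42083682498))
(L (nat_lit 27865317)))
(L (nat_lit 28813985)))
(L (nat_lit 28944928)))
(L (nat_lit 28909088)))
(L (nat_lit 19771713)))
(L (nat_lit 702378))))
(L (nat_lit 27866339)))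
(L (nat_lit 19404057)))
(L (nat_lit 2651851)))
(L (nat_lit 5993711)))
(L (nat_lit 22078857)))
(L (nat_lit 5778199)))
(L (nat_lit 11275828)))
(L (nat_lit 12341794)))
(L (nat_lit 12281378)))
(L (nat_lit 12688056)))
(L (nat_lit 21524706)))
(L (nat_lit 21029256)))
(S (nat_lit 57071) (S (nat_lit 21054) (L (nat_lit 22550411))
(L (nat_lit 22570179)))
(L (nat_lit 25793066)))))
(L (nat_lit 22242849)))
(L (nat_lit 21194273)))
(S (nat_lit 41291) (S (nat_lit 10935) (S (nat_lit 17496) (S (nat_lit 75) (S (nat_lit 1726) (S (nat_lit 15351) (S (nat_lit 17538) (S (nat_lit 50494) (S (nat_lit 48307) (S (nat_lit 39592) (S (nat_lit 21540) (S (nat_lit 39996) (S (nat_lit 40818) (S (nat_lit 40562) (S (nat_lit 325) (S (nat_lit 1958) (S (nat_lit 1003) (S (nat_lit 21004) (S (nat_lit 39641) (S (nat_lit 24706) (S (nat_lit 25333) (S (nat_lit 5006) (S (nat_lit 23875) (D (nat_lit 11) (nat_lit 28023330) (nat_lit 25767088) (nat_lit 212843301891))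
(L (nat_lit 27998404)))
(L (nat_lit 27723370)))
(L (nat_lit 27740388)))
(S (nat_lit 28201) (S (nat_lit 23016) (S (nat_lit 25932) (S (nat_lit 44066) (D (nat_lit 11) (nat_lit 26845664) (nat_lit 25767022) (nat_lit 69209283))
(L (nat_lit 21873891)))
(L (nat_lit 25048292)))
(L (nat_lit 25047236)))
(L (nat_lit 13508164))))
(L (nat_lit 28587031)))
(L (nat_lit 22299425)))
(L (nat_lit 14486182)))
(L (nat_lit 26510992)))
(L (nat_lit 28940430)))
(L (nat_lit 27994657)))
(L (nat_lit 548746)))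
(L (nat_lit 29886023)))
(L (nat_lit 548188)))
(L (nat_lit 11275700)))
(L (nat_lit 16025490)))
(L (nat_lit 14976914)))
(L (nat_lit 747910)))
(L (nat_lit 747942)))
(L (nat_lit 13424896)))
(S (nat_lit 19839) (S (nat_lit 1279) (S (nat_lit 64) (L (nat_lit 30621716))
(L (nat_lit 1784027)))
(L (nat_lit 19403558)))
(S (nat_lit 39603) (S (nat_lit 1034) (L (nat_lit 17868595))
(L (nat_lit 13308839)))
(L (nat_lit 25897441)))))
(L (nat_lit 26268881)))
(L (nat_lit 26267857)))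
(L (nat_lit 25212648)))))
(S (nat_lit 35073) (S (nat_lit 17527) (S (nat_lit 1034) (S (nat_lit 28574) (S (nat_lit 34267) (L (nat_lit 13336956))
(L (nat_lit 28018122)))
(S (nat_lit 53713) (L (nat_lit 16652866))
(L (nat_lit 30738095))))
(S (nat_lit 20798) (S (nat_lit 41293) (L (nat_lit 5775068))
(L (nat_lit 7045564)))
(S (nat_lit 40562) (S (nat_lit 19778) (S (nat_lit 15334) (S (nat_lit 15340) (S (nat_lit 28526) (S (nat_lit 57071) (S (nat_lit 48340) (S (nat_lit 35115) (S (nat_lit 14059) (L (nat_lit 2442909))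
(L (nat_lit 17636371)))
(L (nat_lit 31138990)))
(L (nat_lit 11296195)))
(L (nat_lit 27572901)))
(L (nat_lit 3693881)))
(L (nat_lit 8076099)))
(L (nat_lit 15444899)))
(L (nat_lit 21225585)))
(L (nat_lit 25895025)))))
(S (nat_lit 37291) (S (nat_lit 28574) (S (nat_lit 1958) (S (nat_lit 997) (S (nat_lit 15340) (S (nat_lit 17558) (S (nat_lit 48307) (S (nat_lit 19826) (S (nat_lit 42) (S (nat_lit 15373) (S (nat_lit 48340) (S (nat_lit 19383) (L (nat_lit 15010459))
(L (nat_lit 30126340)))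
(L (nat_lit 27894274)))
(L (nat_lit 8308451)))
(L (nat_lit 19196448)))
(L (nat_lit 16621285)))
(L (nat_lit 14393219)))
(L (nat_lit 22486204)))
(L (nat_lit 7014252)))
(L (nat_lit 11273934)))
(L (nat_lit 12322262)))
(L (nat_lit 30836395)))
(S (nat_lit 57055) (S (nat_lit 40547) (S (nat_lit 41514) (S (nat_lit 10997) (S (nat_lit 48307) (S (nat_lit 54899) (S (nat_lit 15340) (S (nat_lit 28574) (S (nat_lit 17496) (S (nat_lit 19826) (S (nat_lit 50463) (S (nat_lit 40514) (S (nat_lit 1991) (S (nat_lit 41547) (S (nat_lit 20778) (S (nat_lit 37322) (S (nat_lit 20993) (S (nat_lit 57049) (S (nat_lit 48301) (S (nat_lit 37307) (S (nat_lit 37274) (S (nat_lit 52271) (S (nat_lit 30763) (S (nat_lit 40768) (S (nat_lit 19778) (S (nat_lit 36025) (S (nat_lit 12961) (S (nat_lit 16445) (S (nat_lit 8165) (S (nat_lit 47660) (S (nat_lit 9683) (D (nat_lit 15) (nat_lit 28430826) (nat_lit 4469522) (nat_lit 8727306407))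
(L (nat_lit 31180069)))
(L (nat_lit 28791105)))
(S (nat_lit 22137) (S (nat_lit 23617) (S (nat_lit 19111) (D (nat_lit 15) (nat_lit 27923913) (nat_lit 25761100) (nat_lit 207403293922))
(L (nat_lit 28981319)))
(L (nat_lit 15653152)))
(L (nat_lit 7487196))))
(L (nat_lit 1401519)))
(L (nat_lit 1630922)))
(L (nat_lit 2716070)))
(L (nat_lit 9008208)))
(L (nat_lit 7527964)))
(L (nat_lit 31113410)))
(L (nat_lit 21535488)))
(L (nat_lit 30909124)))
(L (nat_lit 30855396)))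
(L (nat_lit 27999368)))
(L (nat_lit 27840648)))
(S (nat_lit 27390) (S (nat_lit 28526) (S (nat_lit 30763) (S (nat_lit 54851) (S (nat_lit 37417) (S (nat_lit 30377) (S (nat_lit 10878) (S (nat_lit 43816) (S (nat_lit 4295) (S (nat_lit 56922) (S (nat_lit 19811) (S (nat_lit 49087) (S (nat_lit 4515) (S (nat_lit 21004) (S (nat_lit 21010) (S (nat_lit 42873) (D (nat_lit 13) (nat_lit 27930635) (nat_lit 9193585) (nat_lit 7773895001216))
(L (nat_lit 29907235)))
(L (nat_lit 31074753)))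
(S (nat_lit 25753) (S (nat_lit 21021) (S (nat_lit 47174) (D (nat_lit 13) (nat_lit 31077385) (nat_lit 25479653) (nat_lit 9075434753254))
(L (nat_lit 28791136)))
(L (nat_lit 31078693)))
(L (nat_lit 4615413))))
(L (nat_lit 9586611)))
(L (nat_lit 9048601)))
(L (nat_lit 14965819)))
(L (nat_lit 1394455)))
(L (nat_lit 15902487)))
(L (nat_lit 1469064)))
(L (nat_lit 6485680)))
(L (nat_lit 15541427)))
(L (nat_lit 11953762)))
(L (nat_lit 12290616)))
(L (nat_lit 10260176)))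
(L (nat_lit 30641741)))
(S (nat_lit 39200) (S (nat_lit 35115) (S (nat_lit 28594) (S (nat_lit 19811) (S (nat_lit 18609) (S (nat_lit 21914) (S (nat_lit 5503) (S (nat_lit 5428) (S (nat_lit 20736) (S (nat_lit 41472) (S (nat_lit 38621) (S (nat_lit 18852) (S (nat_lit 30096) (D (nat_lit 11) (nat_lit 25756070) (nat_lit 5688073) (nat_lit 241764964515))
(L (nat_lit 28713012)))
(L (nat_lit 28982563)))
(S (nat_lit 48462) (S (nat_lit 9230) (S (nat_lit 21010) (S (nat_lit 58564) (D (nat_lit 11) (nat_lit 29006894) (nat_lit 8145070) (nat_lit 176169090))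
(L (nat_lit 22520921)))
(L (nat_lit 31107553)))
(L (nat_lit 31112449)))
(L (nat_lit 254638))))
(L (nat_lit 27865381)))
(L (nat_lit 30804306)))
(L (nat_lit 22815200)))
(L (nat_lit 22983008)))
(L (nat_lit 6410747)))
(L (nat_lit 6407769)))
(L (nat_lit 9355844)))
(L (nat_lit 13854738)))
(L (nat_lit 9112368)))
(L (nat_lit 22297346)))))
(L (nat_lit 30803594)))
(L (nat_lit 15374460)))
(L (nat_lit 23600005)))
(L (nat_lit 13238588)))
(L (nat_lit 10388112)))
(L (nat_lit 27762369)))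
(L (nat_lit 30770710)))
(L (nat_lit 22250255)))
(L (nat_lit 19766447)))
(L (nat_lit 17041114)))
(L (nat_lit 6037069)))
(L (nat_lit 6004281)))
(L (nat_lit 21896644)))
(L (nat_lit 27493907)))
(L (nat_lit 27461232)))
(L (nat_lit 25445459)))))
(S (nat_lit 54837) (S (nat_lit 2006) (S (nat_lit 1277) (S (nat_lit 39592) (S (nat_lit 1732) (S (nat_lit 50510) (S (nat_lit 15323) (S (nat_lit 54879) (S (nat_lit 48301) (S (nat_lit 40818) (S (nat_lit 57088) (S (nat_lit 28559) (S (nat_lit 50477) (S (nat_lit 40547) (S (nat_lit 40785) (S (nat_lit 40562) (S (nat_lit 17671) (S (nat_lit 9813) (S (nat_lit 49471) (S (nat_lit 23778) (S (nat_lit 56922) (D (nat_lit 13) (nat_lit 31003852) (nat_lit 19670127) (nat_lit 2480480094243))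
(L (nat_lit 28982624)))
(L (nat_lit 29015115)))
(L (nat_lit 19133452)))
(L (nat_lit 28788930)))
(S (nat_lit 48468) (S (nat_lit 18609) (S (nat_lit 39200) (S (nat_lit 25318) (S (nat_lit 28455) (D (nat_lit 13) (nat_lit 27934981) (nat_lit 25767025) (nat_lit 6743339899043))
(L (nat_lit 27934049)))
(L (nat_lit 4119014)))
(L (nat_lit 27858990)))
(L (nat_lit 27868388)))
(L (nat_lit 29940002))))
(L (nat_lit 24224314)))
(L (nat_lit 8272611)))
(L (nat_lit 24600897)))
(L (nat_lit 27510862)))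
(L (nat_lit 3724539)))
(L (nat_lit 27744450)))
(L (nat_lit 532125)))
(L (nat_lit 11015801)))
(L (nat_lit 27560526)))
(L (nat_lit 1592637)))
(L (nat_lit 12083219)))
(L (nat_lit 12838528)))
(L (nat_lit 12080156)))
(S (nat_lit 21041) (S (nat_lit 17496) (S (nat_lit 15323) (S (nat_lit 30741) (S (nat_lit 48301) (S (nat_lit 50510) (S (nat_lit 21026) (S (nat_lit 21512) (S (nat_lit 57055) (S (nat_lit 21479) (S (nat_lit 17538) (S (nat_lit 56645) (S (nat_lit 28559) (S (nat_lit 19826) (S (nat_lit 10966) (S (nat_lit 37143) (S (nat_lit 12113) (S (nat_lit 9155) (S (nat_lit 42099) (S (nat_lit 18897) (D (nat_lit 15) (nat_lit 31176032) (nat_lit 25759114) (nat_lit 111704903814))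
(L (nat_lit 31176997)))
(L (nat_lit 29049189)))
(S (nat_lit 43023) (S (nat_lit 33529) (S (nat_lit 17945) (S (nat_lit 3752) (S (nat_lit 37872) (S (nat_lit 19389) (D (nat_lit 13) (nat_lit 27996232) (nat_lit 1853644) (nat_lit 8799913220))
(L (nat_lit 31145282)))
(L (nat_lit 29046950)))
(L (nat_lit 28793092)))
(L (nat_lit 31146305)))
(L (nat_lit 28983556)))
(L (nat_lit 20473057))))
(L (nat_lit 30944309)))
(L (nat_lit 21215107)))
(L (nat_lit 6380368)))
(L (nat_lit 16509099)))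
(L (nat_lit 10204217)))
(L (nat_lit 15458310)))
(L (nat_lit 6842517)))
(L (nat_lit 22093745)))
(L (nat_lit 5775158)))
(L (nat_lit 21202363)))
(L (nat_lit 15638112)))
(L (nat_lit 12312590)))
(L (nat_lit 11556625)))
(L (nat_lit 19186464)))
(L (nat_lit 6844005)))
(L (nat_lit 24133415)))
(S (nat_lit 40805) (S (nat_lit 21496) (S (nat_lit 40562) (S (nat_lit 17496) (S (nat_lit 1240) (S (nat_lit 1003) (S (nat_lit 19778) (S (nat_lit 21733) (S (nat_lit 17538) (S (nat_lit 10966) (S (nat_lit 10960) (S (nat_lit 10999) (S (nat_lit 16151) (S (nat_lit 13248) (S (nat_lit 23292) (S (nat_lit 24101) (S (nat_lit 29840) (S (nat_lit 48015) (S (nat_lit 5278) (D (nat_lit 13) (nat_lit 26817641) (nat_lit 19116805) (nat_lit 1178738917))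
(L (nat_lit 30987334)))
(L (nat_lit 24685477)))
(L (nat_lit 29076000)))
(L (nat_lit 16700741)))
(L (nat_lit 29015301)))
(S (nat_lit 43071) (S (nat_lit 45789) (S (nat_lit 53735) (S (nat_lit 38588) (S (nat_lit 6786) (S (nat_lit 58690) (D (nat_lit 13) (nat_lit 16568546) (nat_lit 18624069) (nat_lit 3545598500098))
(L (nat_lit 23602016)))
(L (nat_lit 30941824)))
(L (nat_lit 29043200)))
(L (nat_lit 29043136)))
(L (nat_lit 21870853)))
(L (nat_lit 20202240))))
(L (nat_lit 27985287)))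
(L (nat_lit 21457929)))
(L (nat_lit 6344624)))
(L (nat_lit 21496649)))
(L (nat_lit 7884672)))
(L (nat_lit 22146255)))
(L (nat_lit 14912185)))
(L (nat_lit 10970784)))
(L (nat_lit 12874837)))
(L (nat_lit 22036231)))
(L (nat_lit 1602807)))
(L (nat_lit 30422663)))
(L (nat_lit 25892361)))))
(S (nat_lit 21770) (S (nat_lit 17496) (S (nat_lit 40972) (L (nat_lit 21506105))
(S (nat_lit 57055) (S (nat_lit 10966) (S (nat_lit 48307) (S (nat_lit 19826) (S (nat_lit 20778) (S (nat_lit 40514) (S (nat_lit 41547) (S (nat_lit 21512) (L (nat_lit 6437531))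
(L (nat_lit 30662017)))
(L (nat_lit 6842419)))
(L (nat_lit 24555297)))
(L (nat_lit 30620722)))
(L (nat_lit 31163947)))
(L (nat_lit 20317468)))
(L (nat_lit 6841059)))
(L (nat_lit 21503065))))
(L (nat_lit 22584064)))
(S (nat_lit 41534) (S (nat_lit 17496) (S (nat_lit 33054) (L (nat_lit 18554661))
(S (nat_lit 48307) (S (nat_lit 35104) (S (nat_lit 57055) (S (nat_lit 15371) (S (nat_lit 41514) (S (nat_lit 20767) (S (nat_lit 30699) (S (nat_lit 41547) (S (nat_lit 41229) (L (nat_lit 8534683))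
(L (nat_lit 7261572)))
(L (nat_lit 9127069)))
(L (nat_lit 31145184)))
(L (nat_lit 30625248)))
(L (nat_lit 24950981)))
(L (nat_lit 924146)))
(L (nat_lit 13206812)))
(L (nat_lit 23364364)))
(L (nat_lit 4955948))))
(S (nat_lit 18550) (L (nat_lit 7227043))
(L (nat_lit 581382))))
(L (nat_lit 25177654)))))
(L (nat_lit 25925678)))))
(S (nat_lit 40575) (S (nat_lit 1715) (S (nat_lit 1277) (S (nat_lit 1240) (S (nat_lit 15309) (S (nat_lit 30761) (L (nat_lit 16359201))
(L (nat_lit 16948857)))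
(S (nat_lit 56485) (S (nat_lit 28537) (S (nat_lit 20993) (L (nat_lit 1813361))
(L (nat_lit 1987047)))
(L (nat_lit 18886444)))
(L (nat_lit 26467840))))
(S (nat_lit 21004) (S (nat_lit 39592) (S (nat_lit 986) (L (nat_lit 18448637))
(L (nat_lit 19164177)))
(L (nat_lit 4990575)))
(S (nat_lit 40768) (S (nat_lit 15309) (S (nat_lit 10935) (S (nat_lit 21733) (L (nat_lit 8815196))
(L (nat_lit 7963165)))
(L (nat_lit 17833688)))
(L (nat_lit 24124952)))
(L (nat_lit 25516545)))))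
(S (nat_lit 21041) (S (nat_lit 1765) (S (nat_lit 30761) (S (nat_lit 35135) (L (nat_lit 23109484))
(L (nat_lit 20749733)))
(L (nat_lit 14458469)))
(S (nat_lit 21529) (S (nat_lit 20761) (S (nat_lit 40774) (S (nat_lit 48307) (S (nat_lit 28574) (S (nat_lit 64) (S (nat_lit 48351) (S (nat_lit 1958) (S (nat_lit 21021) (S (nat_lit 11865) (L (nat_lit 5619449))
(L (nat_lit 20473962)))
(L (nat_lit 21184293)))
(L (nat_lit 3985648)))
(L (nat_lit 22372736)))
(L (nat_lit 8088622)))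
(L (nat_lit 30770613)))
(L (nat_lit 22126140)))
(L (nat_lit 7393166)))
(L (nat_lit 433885)))
(S (nat_lit 41293) (S (nat_lit 30713) (L (nat_lit 16799097))
(S (nat_lit 49194) (L (nat_lit 17601746))
(L (nat_lit 19100750))))
(L (nat_lit 25902154)))))
(S (nat_lit 40805) (S (nat_lit 1014) (S (nat_lit 1794) (S (nat_lit 31109) (L (nat_lit 18109597))
(L (nat_lit 23928322)))
(S (nat_lit 21750) (S (nat_lit 37285) (S (nat_lit 20993) (S (nat_lit 6699) (L (nat_lit 19170779))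
(L (nat_lit 19399495)))
(L (nat_lit 5068144)))
(L (nat_lit 17025826)))
(L (nat_lit 16535563))))
(S (nat_lit 20778) (S (nat_lit 1622) (L (nat_lit 4612373))
(S (nat_lit 30730) (S (nat_lit 1019) (L (nat_lit 19406940))
(L (nat_lit 2989494)))
(L (nat_lit 17564232))))
(S (nat_lit 40542) (S (nat_lit 17496) (S (nat_lit 1240) (S (nat_lit 1991) (S (nat_lit 10935) (L (nat_lit 13475552))
(L (nat_lit 23086854)))
(L (nat_lit 19333926)))
(S (nat_lit 40633) (L (nat_lit 17898260))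
(L (nat_lit 20749390))))
(S (nat_lit 57372) (L (nat_lit 19071886))
(L (nat_lit 6849303))))
(L (nat_lit 25630834)))))
(L (nat_lit 25408224)))))
(S (nat_lit 21479) (S (nat_lit 42) (S (nat_lit 47) (S (nat_lit 18109) (S (nat_lit 17527) (L (nat_lit 26641131))
(L (nat_lit 1941101)))
(S (nat_lit 40514) (S (nat_lit 18426) (L (nat_lit 7796449))
(S (nat_lit 21733) (S (nat_lit 28537) (S (nat_lit 39592) (L (nat_lit 16902730))
(L (nat_lit 4976878)))
(L (nat_lit 30873257)))
(L (nat_lit 7789409))))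
(L (nat_lit 10336929))))
(S (nat_lit 19811) (S (nat_lit 17496) (S (nat_lit 10960) (L (nat_lit 29479398))
(L (nat_lit 8174179)))
(L (nat_lit 7395087)))
(S (nat_lit 39575) (S (nat_lit 25) (S (nat_lit 28574) (S (nat_lit 37307) (S (nat_lit 21540) (L (nat_lit 28846724))
(L (nat_lit 21170092)))
(L (nat_lit 23859404)))
(L (nat_lit 31104484)))
(S (nat_lit 19789) (S (nat_lit 41229) (L (nat_lit 30705108))
(L (nat_lit 1363355)))
(S (nat_lit 39553) (S (nat_lit 21739) (S (nat_lit 1257) (S (nat_lit 35087) (L (nat_lit 470803))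
(L (nat_lit 23093643)))
(L (nat_lit 26415635)))
(L (nat_lit 7491032)))
(L (nat_lit 25380021)))))
(L (nat_lit 25865264)))))
(S (nat_lit 19806) (S (nat_lit 15309) (S (nat_lit 40790) (S (nat_lit 10935) (S (nat_lit 10966) (L (nat_lit 24019366))
(L (nat_lit 26287696)))
(L (nat_lit 18489121)))
(L (nat_lit 23895217)))
(S (nat_lit 35073) (S (nat_lit 17496) (S (nat_lit 40768) (L (nat_lit 9929402))
(L (nat_lit 27663380)))
(L (nat_lit 22577958)))
(S (nat_lit 54837) (S (nat_lit 17496) (S (nat_lit 15371) (L (nat_lit 532124))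
(L (nat_lit 22192013)))
(L (nat_lit 22813713)))
(L (nat_lit 25630773)))))
(S (nat_lit 39570) (S (nat_lit 17543) (S (nat_lit 40768) (S (nat_lit 15356) (L (nat_lit 30096609))
(L (nat_lit 14980884)))
(L (nat_lit 23174927)))
(S (nat_lit 37307) (S (nat_lit 8790) (S (nat_lit 8779) (S (nat_lit 62) (L (nat_lit 17506053))
(L (nat_lit 26969457)))
(L (nat_lit 23378011)))
(S (nat_lit 23499) (L (nat_lit 17099958))
(L (nat_lit 23381888))))
(S (nat_lit 57071) (S (nat_lit 40562) (S (nat_lit 21021) (S (nat_lit 41472) (L (nat_lit 833813))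
(L (nat_lit 16895293)))
(L (nat_lit 4416204)))
(L (nat_lit 23377018)))
(L (nat_lit 25242286)))))
(L (nat_lit 25273875)))))
(S (nat_lit 41243) (S (nat_lit 17571) (S (nat_lit 15351) (S (nat_lit 21733) (S (nat_lit 40514) (L (nat_lit 18698247))
(L (nat_lit 24536417)))
(L (nat_lit 16089909)))
(S (nat_lit 35115) (S (nat_lit 40514) (S (nat_lit 21043) (S (nat_lit 37307) (S (nat_lit 10935) (L (nat_lit 23326080))
(L (nat_lit 23651334)))
(L (nat_lit 20472875)))
(L (nat_lit 30934598)))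
(L (nat_lit 18460449)))
(S (nat_lit 54879) (S (nat_lit 21043) (S (nat_lit 41276) (S (nat_lit 50477) (L (nat_lit 25014439))
(L (nat_lit 11394469)))
(L (nat_lit 25038246)))
(L (nat_lit 16554561)))
(L (nat_lit 25251238)))))
(S (nat_lit 37335) (S (nat_lit 10935) (S (nat_lit 15309) (S (nat_lit 17496) (S (nat_lit 28574) (S (nat_lit 35135) (L (nat_lit 28981568))
(L (nat_lit 20061689)))
(L (nat_lit 24936783)))
(L (nat_lit 22846479)))
(L (nat_lit 17603607)))
(S (nat_lit 30699) (S (nat_lit 986) (S (nat_lit 17496) (S (nat_lit 40547) (L (nat_lit 28508849))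
(L (nat_lit 27729505)))
(L (nat_lit 24615960)))
(L (nat_lit 9228769)))
(S (nat_lit 50463) (S (nat_lit 21722) (L (nat_lit 29892225))
(L (nat_lit 15913734)))
(L (nat_lit 25221606)))))
(S (nat_lit 57099) (S (nat_lit 997) (S (nat_lit 1279) (S (nat_lit 1748) (S (nat_lit 50494) (L (nat_lit 7125601))
(L (nat_lit 20449064)))
(S (nat_lit 20863) (S (nat_lit 37322) (L (nat_lit 30082504))
(L (nat_lit 23535460)))
(L (nat_lit 26728582))))
(S (nat_lit 57441) (L (nat_lit 579965))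
(L (nat_lit 20154159))))
(S (nat_lit 20761) (S (nat_lit 17496) (S (nat_lit 19806) (S (nat_lit 10935) (S (nat_lit 40547) (L (nat_lit 10290740))
(L (nat_lit 27925921)))
(S (nat_lit 30624) (S (nat_lit 10966) (L (nat_lit 18652246))
(L (nat_lit 6840898)))
(L (nat_lit 23075633))))
(L (nat_lit 21936294)))
(S (nat_lit 37185) (L (nat_lit 17696359))
(L (nat_lit 1743665))))
(S (nat_lit 40525) (S (nat_lit 12087) (L (nat_lit 5912362))
(S (nat_lit 35135) (L (nat_lit 17407037))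
(L (nat_lit 3808761))))
(L (nat_lit 25789679)))))
(L (nat_lit 25645158)))))
(L (nat_lit 25580865)))))
(L (nat_lit 25478322)))))
(S (nat_lit 20800) (S (nat_lit 17543) (S (nat_lit 1765) (S (nat_lit 8823) (S (nat_lit 50510) (L (nat_lit 5034190))
(L (nat_lit 28026894)))
(S (nat_lit 28587) (S (nat_lit 15323) (L (nat_lit 7922772))
(S (nat_lit 35087) (L (nat_lit 27791668))
(S (nat_lit 54851) (L (nat_lit 4748532))
(L (nat_lit 25856303)))))
(S (nat_lit 48351) (S (nat_lit 17571) (S (nat_lit 18554) (L (nat_lit 7365138))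
(S (nat_lit 54884) (S (nat_lit 53374) (L (nat_lit 29407476))
(L (nat_lit 12406895)))
(L (nat_lit 14454996))))
(S (nat_lit 37335) (S (nat_lit 19806) (S (nat_lit 986) (L (nat_lit 17093377))
(L (nat_lit 20756487)))
(S (nat_lit 43655) (L (nat_lit 14357720))
(L (nat_lit 22298400))))
(S (nat_lit 57099) (S (nat_lit 10997) (S (nat_lit 50510) (S (nat_lit 15384) (S (nat_lit 21004) (L (nat_lit 29440614))
(L (nat_lit 21300014)))
(L (nat_lit 7262318)))
(L (nat_lit 20752398)))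
(S (nat_lit 45047) (S (nat_lit 19828) (L (nat_lit 3873208))
(L (nat_lit 10342414)))
(L (nat_lit 6476718))))
(L (nat_lit 25766001)))))
(L (nat_lit 25597206)))))
(S (nat_lit 21529) (S (nat_lit 1014) (S (nat_lit 1763) (S (nat_lit 10411) (L (nat_lit 20028335))
(S (nat_lit 20979) (S (nat_lit 617) (L (nat_lit 21823693))
(L (nat_lit 21234173)))
(L (nat_lit 6402962))))
(S (nat_lit 21527) (S (nat_lit 1257) (S (nat_lit 41212) (L (nat_lit 22550311))
(L (nat_lit 7885728)))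
(L (nat_lit 12636472)))
(S (nat_lit 41291) (S (nat_lit 10982) (S (nat_lit 17496) (L (nat_lit 12433462))
(L (nat_lit 695864)))
(S (nat_lit 51815) (L (nat_lit 11993688))
(L (nat_lit 16020533))))
(L (nat_lit 25891334)))))
(S (nat_lit 20778) (S (nat_lit 21021) (S (nat_lit 21043) (S (nat_lit 21750) (S (nat_lit 10982) (S (nat_lit 15356) (S (nat_lit 21490) (L (nat_lit 12656436))
(L (nat_lit 21895717)))
(L (nat_lit 6944261)))
(L (nat_lit 7075301)))
(L (nat_lit 14742738)))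
(L (nat_lit 6870852)))
(S (nat_lit 49870) (L (nat_lit 14897337))
(L (nat_lit 14906450))))
(S (nat_lit 40542) (S (nat_lit 1215) (S (nat_lit 17527) (S (nat_lit 21540) (L (nat_lit 5792426))
(L (nat_lit 8111874)))
(S (nat_lit 37219) (S (nat_lit 391) (L (nat_lit 5465653))
(L (nat_lit 747790)))
(L (nat_lit 24240553))))
(S (nat_lit 20979) (S (nat_lit 21043) (S (nat_lit 11536) (S (nat_lit 14) (L (nat_lit 15567187))
(L (nat_lit 13422852)))
(S (nat_lit 15334) (S (nat_lit 41271) (S (nat_lit 10982) (S (nat_lit 17521) (L (nat_lit 15903603))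
(L (nat_lit 1266573)))
(L (nat_lit 1814013)))
(L (nat_lit 24946733)))
(L (nat_lit 1594281))))
(S (nat_lit 40699) (S (nat_lit 42903) (L (nat_lit 1358585))
(L (nat_lit 21230702)))
(L (nat_lit 22840590))))
(S (nat_lit 40743) (S (nat_lit 15356) (S (nat_lit 10982) (S (nat_lit 41472) (S (nat_lit 41519) (S (nat_lit 41514) (L (nat_lit 16389372))
(L (nat_lit 24940812)))
(L (nat_lit 24576314)))
(L (nat_lit 17667442)))
(L (nat_lit 8108061)))
(S (nat_lit 28459) (L (nat_lit 7370258))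
(L (nat_lit 7917629))))
(L (nat_lit 25562387)))))
(L (nat_lit 25382956)))))
(S (nat_lit 41293) (S (nat_lit 10949) (S (nat_lit 15351) (S (nat_lit 28587) (L (nat_lit 27316494))
(L (nat_lit 9227374)))
(L (nat_lit 26944654)))
(S (nat_lit 30713) (S (nat_lit 37274) (S (nat_lit 21043) (S (nat_lit 40774) (L (nat_lit 750986))
(L (nat_lit 23295022)))
(L (nat_lit 12285038)))
(L (nat_lit 20149358)))
(S (nat_lit 50477) (L (nat_lit 8089678))
(L (nat_lit 25666677)))))
(L (nat_lit 25901413)))))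
(S (nat_lit 37307) (S (nat_lit 15351) (S (nat_lit 15323) (S (nat_lit 8810) (S (nat_lit 62) (S (nat_lit 41293) (L (nat_lit 26743530))
(L (nat_lit 18048084)))
(L (nat_lit 7890103)))
(S (nat_lit 28574) (S (nat_lit 17496) (S (nat_lit 21529) (S (nat_lit 37322) (L (nat_lit 1710493))
(L (nat_lit 30874772)))
(S (nat_lit 41185) (L (nat_lit 24124270))
(L (nat_lit 16555092))))
(L (nat_lit 7394872)))
(S (nat_lit 48338) (S (nat_lit 38629) (L (nat_lit 1888649))
(S (nat_lit 50505) (S (nat_lit 41503) (L (nat_lit 276309))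
(L (nat_lit 7007375)))
(L (nat_lit 15518017))))
(L (nat_lit 25861541)))))
(S (nat_lit 35087) (S (nat_lit 1969) (S (nat_lit 997) (S (nat_lit 16461) (L (nat_lit 3984719))
(S (nat_lit 48307) (S (nat_lit 41514) (S (nat_lit 40542) (S (nat_lit 41519) (S (nat_lit 54901) (S (nat_lit 20811) (S (nat_lit 19826) (S (nat_lit 28574) (S (nat_lit 6654) (L (nat_lit 3547837))
(S (nat_lit 19839) (S (nat_lit 30059) (L (nat_lit 4659803))
(L (nat_lit 9327013)))
(L (nat_lit 16477441))))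
(L (nat_lit 12912313)))
(L (nat_lit 8965275)))
(L (nat_lit 15980570)))
(L (nat_lit 16537826)))
(L (nat_lit 27509344)))
(L (nat_lit 1882354)))
(L (nat_lit 7125010)))
(L (nat_lit 13704953))))
(L (nat_lit 2893364)))
(S (nat_lit 21733) (S (nat_lit 482) (S (nat_lit 39553) (S (nat_lit 75) (S (nat_lit 15309) (S (nat_lit 10977) (L (nat_lit 15566035))
(L (nat_lit 8241332)))
(L (nat_lit 7799480)))
(L (nat_lit 8066552)))
(L (nat_lit 11584340)))
(S (nat_lit 41291) (S (nat_lit 8823) (S (nat_lit 8790) (S (nat_lit 17496) (L (nat_lit 3536437))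
(L (nat_lit 8119841)))
(L (nat_lit 21864622)))
(L (nat_lit 7992398)))
(L (nat_lit 1635607))))
(S (nat_lit 41497) (S (nat_lit 17510) (S (nat_lit 30699) (S (nat_lit 40768) (L (nat_lit 2749774))
(L (nat_lit 16885588)))
(L (nat_lit 13889556)))
(L (nat_lit 1884436)))
(L (nat_lit 25282279)))))
(S (nat_lit 54851) (S (nat_lit 8810) (S (nat_lit 41304) (S (nat_lit 40818) (S (nat_lit 21479) (L (nat_lit 6201005))
(L (nat_lit 30842497)))
(L (nat_lit 728973)))
(L (nat_lit 7014285)))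
(S (nat_lit 28574) (S (nat_lit 17496) (S (nat_lit 1366) (L (nat_lit 7123684))
(S (nat_lit 21043) (S (nat_lit 37322) (S (nat_lit 30761) (L (nat_lit 23160230))
(L (nat_lit 17603172)))
(L (nat_lit 23954766)))
(L (nat_lit 15740820))))
(S (nat_lit 41566) (L (nat_lit 829940))
(L (nat_lit 7358261))))
(S (nat_lit 48338) (S (nat_lit 2275) (L (nat_lit 14382154))
(S (nat_lit 40807) (S (nat_lit 1726) (L (nat_lit 6387310))
(L (nat_lit 19173262)))
(L (nat_lit 27269556))))
(L (nat_lit 25794733)))))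
(L (nat_lit 25174580)))))
(S (nat_lit 35115) (S (nat_lit 1765) (L (nat_lit 2846926))
(S (nat_lit 21529) (S (nat_lit 10949) (S (nat_lit 21043) (S (nat_lit 35148) (S (nat_lit 997) (L (nat_lit 29535918))
(L (nat_lit 19140494)))
(L (nat_lit 2778414)))
(L (nat_lit 7042222)))
(L (nat_lit 7015246)))
(S (nat_lit 41293) (L (nat_lit 9136174))
(L (nat_lit 25925031)))))
(S (nat_lit 54879) (S (nat_lit 15371) (S (nat_lit 10966) (S (nat_lit 17496) (S (nat_lit 909) (L (nat_lit 27303596))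
(S (nat_lit 40547) (S (nat_lit 41254) (S (nat_lit 40768) (S (nat_lit 41304) (L (nat_lit 3809102))
(L (nat_lit 24645515)))
(L (nat_lit 23184198)))
(L (nat_lit 23380800)))
(L (nat_lit 17833560))))
(S (nat_lit 37963) (L (nat_lit 31065392))
(L (nat_lit 24937958))))
(S (nat_lit 30730) (S (nat_lit 12071) (S (nat_lit 986) (S (nat_lit 40624) (L (nat_lit 30901927))
(L (nat_lit 20748804)))
(L (nat_lit 20264989)))
(S (nat_lit 35148) (S (nat_lit 57038) (S (nat_lit 20778) (L (nat_lit 5091942))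
(L (nat_lit 7256178)))
(L (nat_lit 11265134)))
(L (nat_lit 30550734))))
(S (nat_lit 50494) (S (nat_lit 13316) (L (nat_lit 2628405))
(L (nat_lit 11231717)))
(L (nat_lit 25249512)))))
(S (nat_lit 35135) (S (nat_lit 1776) (S (nat_lit 1240) (L (nat_lit 5520180))
(L (nat_lit 19701252)))
(S (nat_lit 21540) (L (nat_lit 5974520))
(S (nat_lit 41304) (S (nat_lit 40805) (S (nat_lit 56991) (L (nat_lit 5980477))
(L (nat_lit 9124640)))
(L (nat_lit 18557762)))
(L (nat_lit 25281161)))))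
(S (nat_lit 54899) (S (nat_lit 30730) (S (nat_lit 15340) (S (nat_lit 21054) (L (nat_lit 4940267))
(L (nat_lit 21556579)))
(S (nat_lit 56914) (S (nat_lit 15334) (S (nat_lit 1715) (L (nat_lit 4598674))
(L (nat_lit 19169788)))
(L (nat_lit 7884986)))
(L (nat_lit 24427331))))
(L (nat_lit 19405912)))
(L (nat_lit 25593419)))))
(L (nat_lit 25904262)))))
(S (nat_lit 57071) (S (nat_lit 47) (S (nat_lit 1279) (S (nat_lit 15384) (S (nat_lit 50525) (S (nat_lit 19828) (S (nat_lit 1969) (S (nat_lit 997) (L (nat_lit 12622459))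
(L (nat_lit 19694830)))
(L (nat_lit 19699726)))
(L (nat_lit 8541070)))
(L (nat_lit 27644078)))
(S (nat_lit 35148) (S (nat_lit 47050) (L (nat_lit 23304014))
(S (nat_lit 48318) (S (nat_lit 21490) (S (nat_lit 30761) (L (nat_lit 18914095))
(L (nat_lit 30808676)))
(L (nat_lit 6101710)))
(L (nat_lit 5564014))))
(S (nat_lit 54912) (S (nat_lit 10997) (S (nat_lit 21490) (S (nat_lit 19828) (L (nat_lit 5789949))
(L (nat_lit 9621949)))
(L (nat_lit 21333806)))
(S (nat_lit 14485) (L (nat_lit 7148270))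
(L (nat_lit 2005614))))
(L (nat_lit 25767296)))))
(S (nat_lit 21043) (S (nat_lit 1748) (S (nat_lit 1246) (S (nat_lit 1969) (S (nat_lit 37335) (L (nat_lit 4512558))
(L (nat_lit 23957926)))
(L (nat_lit 19699790)))
(S (nat_lit 21010) (S (nat_lit 3564) (L (nat_lit 16552520))
(S (nat_lit 21529) (S (nat_lit 19828) (S (nat_lit 19789) (S (nat_lit 21490) (S (nat_lit 54912) (L (nat_lit 19330154))
(L (nat_lit 11714357)))
(L (nat_lit 22453029)))
(L (nat_lit 30611150)))
(L (nat_lit 30987458)))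
(L (nat_lit 287342))))
(S (nat_lit 40774) (S (nat_lit 37322) (S (nat_lit 1969) (S (nat_lit 50488) (L (nat_lit 13486185))
(L (nat_lit 11580028)))
(L (nat_lit 14473412)))
(L (nat_lit 14458500)))
(L (nat_lit 25539204)))))
(S (nat_lit 21512) (S (nat_lit 21529) (S (nat_lit 19828) (S (nat_lit 42) (S (nat_lit 2870) (L (nat_lit 24408610))
(S (nat_lit 40757) (L (nat_lit 30672526))
(L (nat_lit 24394624))))
(S (nat_lit 19806) (S (nat_lit 48351) (S (nat_lit 21755) (L (nat_lit 29759046))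
(L (nat_lit 14839366)))
(L (nat_lit 12048256)))
(S (nat_lit 39570) (S (nat_lit 35710) (L (nat_lit 18668898))
(S (nat_lit 54862) (S (nat_lit 1229) (S (nat_lit 48301) (L (nat_lit 5913511))
(L (nat_lit 5974860)))
(L (nat_lit 13423970)))
(L (nat_lit 11559505))))
(L (nat_lit 25857574)))))
(L (nat_lit 30756910)))
(L (nat_lit 7463502)))
(S (nat_lit 41276) (S (nat_lit 2006) (S (nat_lit 21529) (S (nat_lit 19828) (S (nat_lit 21783) (S (nat_lit 10935) (L (nat_lit 1798534))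
(L (nat_lit 673016)))
(L (nat_lit 21535493)))
(L (nat_lit 15585507)))
(L (nat_lit 14967392)))
(S (nat_lit 21770) (S (nat_lit 17496) (S (nat_lit 10949) (L (nat_lit 8089644))
(L (nat_lit 1796523)))
(L (nat_lit 1761766)))
(S (nat_lit 41534) (S (nat_lit 17496) (S (nat_lit 10935) (S (nat_lit 20767) (S (nat_lit 21529) (S (nat_lit 19789) (L (nat_lit 16357402))
(L (nat_lit 30642894)))
(L (nat_lit 8066461)))
(L (nat_lit 22048974)))
(L (nat_lit 21790929)))
(S (nat_lit 18879) (S (nat_lit 38453) (S (nat_lit 42089) (L (nat_lit 4729561))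
(L (nat_lit 7134752)))
(L (nat_lit 22854848)))
(L (nat_lit 8182801))))
(L (nat_lit 25244887)))))
(L (nat_lit 25347447)))))
(S (nat_lit 40807) (S (nat_lit 15309) (S (nat_lit 8823) (S (nat_lit 1969) (L (nat_lit 29580366))
(L (nat_lit 26510062)))
(S (nat_lit 42885) (L (nat_lit 3971665))
(L (nat_lit 7230574))))
(S (nat_lit 35073) (S (nat_lit 10997) (S (nat_lit 41254) (S (nat_lit 15323) (L (nat_lit 7112085))
(L (nat_lit 7362972)))
(L (nat_lit 23158990)))
(L (nat_lit 26908814)))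
(S (nat_lit 54837) (S (nat_lit 10982) (S (nat_lit 19828) (S (nat_lit 36135) (L (nat_lit 8242359))
(S (nat_lit 48307) (S (nat_lit 15356) (L (nat_lit 28397959))
(L (nat_lit 7967260)))
(L (nat_lit 14391388))))
(L (nat_lit 15585506)))
(L (nat_lit 284462)))
(L (nat_lit 25412256)))))
(L (nat_lit 25462351)))))
(S (nat_lit 19811) (S (nat_lit 15384) (S (nat_lit 10960) (S (nat_lit 6716) (L (nat_lit 3733065))
(S (nat_lit 19828) (S (nat_lit 21041) (S (nat_lit 21527) (S (nat_lit 21479) (L (nat_lit 5908953))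
(L (nat_lit 16095158)))
(L (nat_lit 22851107)))
(L (nat_lit 22850082)))
(L (nat_lit 2454965))))
(S (nat_lit 30724) (S (nat_lit 25765) (S (nat_lit 21465) (L (nat_lit 1486645))
(L (nat_lit 31010178)))
(S (nat_lit 48323) (S (nat_lit 50525) (S (nat_lit 21695) (L (nat_lit 4773735))
(L (nat_lit 30124081)))
(L (nat_lit 11272659)))
(L (nat_lit 20000216))))
(S (nat_lit 50488) (S (nat_lit 1257) (S (nat_lit 19828) (S (nat_lit 41243) (S (nat_lit 17496) (L (nat_lit 22115566))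
(L (nat_lit 24614969)))
(L (nat_lit 1954128)))
(L (nat_lit 9288258)))
(S (nat_lit 21021) (S (nat_lit 21708) (S (nat_lit 20736) (L (nat_lit 21365978))
(L (nat_lit 21827916)))
(L (nat_lit 21834924)))
(S (nat_lit 40785) (S (nat_lit 21708) (S (nat_lit 20736) (L (nat_lit 21227565))
(L (nat_lit 22942120)))
(L (nat_lit 22949283)))
(L (nat_lit 25376786)))))
(L (nat_lit 25734818)))))
(S (nat_lit 35148) (S (nat_lit 15323) (S (nat_lit 17496) (S (nat_lit 62) (S (nat_lit 19828) (S (nat_lit 41519) (L (nat_lit 24635434))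
(L (nat_lit 7226976)))
(L (nat_lit 31144162)))
(L (nat_lit 7047057)))
(L (nat_lit 22027023)))
(S (nat_lit 35087) (S (nat_lit 19828) (S (nat_lit 30761) (S (nat_lit 15309) (S (nat_lit 50510) (S (nat_lit 1969) (S (nat_lit 48318) (S (nat_lit 41547) (L (nat_lit 29444333))
(L (nat_lit 7062683)))
(L (nat_lit 11658926)))
(L (nat_lit 19068110)))
(L (nat_lit 15504597)))
(S (nat_lit 56636) (L (nat_lit 7180881))
(L (nat_lit 17467142))))
(L (nat_lit 31112549)))
(S (nat_lit 56990) (L (nat_lit 18663621))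
(L (nat_lit 10172440))))
(S (nat_lit 54851) (S (nat_lit 15356) (S (nat_lit 1215) (S (nat_lit 1701) (L (nat_lit 4725524))
(L (nat_lit 14462564)))
(L (nat_lit 14461541)))
(S (nat_lit 35120) (S (nat_lit 62) (S (nat_lit 17510) (S (nat_lit 41472) (L (nat_lit 6048299))
(L (nat_lit 6735997)))
(L (nat_lit 7127652)))
(L (nat_lit 19405700)))
(S (nat_lit 54884) (S (nat_lit 21041) (S (nat_lit 48307) (L (nat_lit 5794410))
(L (nat_lit 12093330)))
(S (nat_lit 52615) (S (nat_lit 46297) (L (nat_lit 2643192))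
(L (nat_lit 19704197)))
(L (nat_lit 16566498))))
(L (nat_lit 25444069)))))
(L (nat_lit 25921807)))))
(S (nat_lit 54912) (S (nat_lit 8773) (S (nat_lit 15227) (L (nat_lit 277396))
(S (nat_lit 21529) (S (nat_lit 20979) (S (nat_lit 21043) (S (nat_lit 21708) (L (nat_lit 17098305))
(L (nat_lit 30840425)))
(L (nat_lit 4510606)))
(L (nat_lit 30583404)))
(L (nat_lit 15991700))))
(S (nat_lit 28537) (S (nat_lit 21527) (S (nat_lit 19828) (S (nat_lit 21041) (L (nat_lit 15838973))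
(L (nat_lit 15575744)))
(L (nat_lit 22569155)))
(S (nat_lit 24297) (S (nat_lit 3277) (L (nat_lit 17601877))
(L (nat_lit 6952748)))
(L (nat_lit 15576769))))
(S (nat_lit 48301) (S (nat_lit 1715) (S (nat_lit 21054) (S (nat_lit 19828) (S (nat_lit 8823) (L (nat_lit 22161915))
(L (nat_lit 1981716)))
(L (nat_lit 9621949)))
(L (nat_lit 22839754)))
(S (nat_lit 21479) (S (nat_lit 50538) (S (nat_lit 19828) (S (nat_lit 2006) (S (nat_lit 50477) (L (nat_lit 22222705))
(L (nat_lit 10514869)))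
(L (nat_lit 13315165)))
(L (nat_lit 16077635)))
(L (nat_lit 11113915)))
(S (nat_lit 41243) (S (nat_lit 50538) (S (nat_lit 19828) (L (nat_lit 15870712))
(L (nat_lit 15585475)))
(L (nat_lit 5056948)))
(L (nat_lit 25548227)))))
(L (nat_lit 25831596)))))
(L (nat_lit 25547296)))))
(S (nat_lit 39575) (S (nat_lit 1277) (S (nat_lit 1748) (S (nat_lit 1732) (S (nat_lit 48323) (S (nat_lit 1944) (S (nat_lit 972) (S (nat_lit 37324) (S (nat_lit 48307) (S (nat_lit 57055) (S (nat_lit 21021) (S (nat_lit 21479) (S (nat_lit 20811) (S (nat_lit 21783) (S (nat_lit 21770) (S (nat_lit 1279) (S (nat_lit 14) (S (nat_lit 1958) (S (nat_lit 986) (S (nat_lit 19828) (S (nat_lit 28574) (S (nat_lit 37322) (S (nat_lit 28576) (S (nat_lit 997) (S (nat_lit 21026) (S (nat_lit 8773) (S (nat_lit 41514) (S (nat_lit 1743) (S (nat_lit 21490) (S (nat_lit 41291) (S (nat_lit 40768) (S (nat_lit 12272) (S (nat_lit 54912) (S (nat_lit 17226) (S (nat_lit 51590) (S (nat_lit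 36741) (S (nat_lit 2627) (S (nat_lit 5454) (S (nat_lit 28711) (D (nat_lit 15) (nat_lit 27543598) (nat_lit 25759112) (nat_lit 211560898820))
(L (nat_lit 21939392)))
(L (nat_lit 28982594)))
(S (nat_lit 53556) (S (nat_lit 7641) (S (nat_lit 37459) (D (nat_lit 15) (nat_lit 28395758) (nat_lit 19063176) (nat_lit 37849437351))
(L (nat_lit 16698597)))
(L (nat_lit 27855240)))
(L (nat_lit 30062698))))
(L (nat_lit 2902411)))
(L (nat_lit 9103468)))
(L (nat_lit 30020041)))
(L (nat_lit 27928961)))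
(S (nat_lit 33723) (S (nat_lit 14202) (S (nat_lit 4253) (S (nat_lit 7774) (S (nat_lit 42049) (S (nat_lit 6548) (S (nat_lit 2828) (S (nat_lit 7014) (S (nat_lit 5015) (S (nat_lit 44234) (S (nat_lit 46677) (D (nat_lit 13) (nat_lit 30989451) (nat_lit 25282796) (nat_lit 3409398732964))
(L (nat_lit 28714100)))
(L (nat_lit 28904907)))
(S (nat_lit 58405) (S (nat_lit 30699) (S (nat_lit 48674) (S (nat_lit 28711) (S (nat_lit 38685) (S (nat_lit 36377) (D (nat_lit 13) (nat_lit 13997874) (nat_lit 3646226) (nat_lit 8804756521025))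
(L (nat_lit 26982624)))
(L (nat_lit 16535777)))
(L (nat_lit 21775584)))
(L (nat_lit 21773504)))
(L (nat_lit 25836736)))
(L (nat_lit 14605538))))
(L (nat_lit 29545958)))
(L (nat_lit 27351247)))
(L (nat_lit 24035462)))
(L (nat_lit 15279972)))
(L (nat_lit 7979130)))
(L (nat_lit 8213890)))
(L (nat_lit 7165314)))
(S (nat_lit 44143) (S (nat_lit 44813) (S (nat_lit 33494) (S (nat_lit 24304) (S (nat_lit 42583) (S (nat_lit 42290) (S (nat_lit 47534) (S (nat_lit 10966) (S (nat_lit 57190) (S (nat_lit 18115) (S (nat_lit 10447) (D (nat_lit 15) (nat_lit 26762312) (nat_lit 19676232) (nat_lit 209818690))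
(L (nat_lit 31046791)))
(L (nat_lit 28944772)))
(L (nat_lit 20888869)))
(S (nat_lit 21134) (S (nat_lit 44477) (S (nat_lit 44770) (D (nat_lit 15) (nat_lit 25711874) (nat_lit 18630728) (nat_lit 203530306))
(L (nat_lit 29050213)))
(L (nat_lit 28910020)))
(L (nat_lit 26527298))))
(L (nat_lit 30058948)))
(L (nat_lit 9026373)))
(L (nat_lit 2898566)))
(L (nat_lit 27509940)))
(L (nat_lit 965906)))
(L (nat_lit 22919427)))
(L (nat_lit 17162048)))))
(L (nat_lit 18457689)))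
(L (nat_lit 24684353)))
(L (nat_lit 10569437)))
(L (nat_lit 12026770)))
(L (nat_lit 938537)))
(L (nat_lit 20985736)))
(L (nat_lit 12507313)))
(L (nat_lit 11093114)))
(L (nat_lit 24475138)))
(L (nat_lit 14540100)))
(L (nat_lit 9077549)))
(L (nat_lit 9295267)))
(L (nat_lit 4790748)))
(L (nat_lit 12158460)))
(L (nat_lit 13423908)))
(L (nat_lit 26941857)))
(L (nat_lit 1814320)))
(L (nat_lit 4954588)))
(L (nat_lit 12289500)))
(L (nat_lit 21899713)))
(L (nat_lit 21029165)))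
(L (nat_lit 12158396)))
(L (nat_lit 12289436)))
(L (nat_lit 20324376)))
(L (nat_lit 19698058)))
(L (nat_lit 19705221)))
(S (nat_lit 53765) (L (nat_lit 5558809))
(L (nat_lit 14231576))))
(S (nat_lit 21424) (S (nat_lit 1047) (L (nat_lit 19088289))
(L (nat_lit 20456472)))
(L (nat_lit 2613492))))
(S (nat_lit 21512) (S (nat_lit 8939) (L (nat_lit 15837912))
(S (nat_lit 48323) (S (nat_lit 1782) (L (nat_lit 6381975))
(S (nat_lit 1944) (S (nat_lit 972) (S (nat_lit 21479) (S (nat_lit 50494) (L (nat_lit 22851593))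
(L (nat_lit 6003600)))
(S (nat_lit 41407) (L (nat_lit 5492529))
(L (nat_lit 11123737))))
(L (nat_lit 18950584)))
(L (nat_lit 5557688))))
(L (nat_lit 6021325))))
(S (nat_lit 41276) (S (nat_lit 21043) (S (nat_lit 48323) (S (nat_lit 17496) (S (nat_lit 1944) (S (nat_lit 1701) (S (nat_lit 19839) (S (nat_lit 50538) (L (nat_lit 5812019))
(L (nat_lit 12342689)))
(L (nat_lit 31172685)))
(L (nat_lit 19182745)))
(L (nat_lit 19174840)))
(L (nat_lit 24614937)))
(L (nat_lit 12303384)))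
(S (nat_lit 40735) (S (nat_lit 1944) (L (nat_lit 27578449))
(L (nat_lit 26528165)))
(L (nat_lit 14705259))))
(L (nat_lit 25517200)))))
(S (nat_lit 21041) (S (nat_lit 17496) (S (nat_lit 15309) (S (nat_lit 10935) (S (nat_lit 11126) (L (nat_lit 5777204))
(S (nat_lit 50510) (S (nat_lit 54884) (S (nat_lit 21540) (S (nat_lit 19828) (S (nat_lit 21529) (S (nat_lit 54879) (S (nat_lit 50505) (S (nat_lit 57066) (S (nat_lit 1701) (S (nat_lit 41276) (S (nat_lit 19826) (S (nat_lit 1944) (S (nat_lit 1215) (S (nat_lit 37322) (S (nat_lit 997) (S (nat_lit 19698) (S (nat_lit 28587) (S (nat_lit 39376) (S (nat_lit 37324) (S (nat_lit 13807) (S (nat_lit 6029) (S (nat_lit 43991) (S (nat_lit 3113) (S (nat_lit 47406) (D (nat_lit 9) (nat_lit 30821733) (nat_lit 25765251) (nat_lit 240618902724))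
(L (nat_lit 21391435)))
(L (nat_lit 29935909)))
(L (nat_lit 19073804)))
(L (nat_lit 29903109)))
(S (nat_lit 27717) (S (nat_lit 43021) (S (nat_lit 14777) (S (nat_lit 4816) (S (nat_lit 7500) (S (nat_lit 46434) (D (nat_lit 9) (nat_lit 30856387) (nat_lit 25759020) (nat_lit 243742705857))
(L (nat_lit 12806198)))
(L (nat_lit 30121440)))
(L (nat_lit 29892692)))
(L (nat_lit 29983270)))
(L (nat_lit 19362146)))
(L (nat_lit 12402337))))
(L (nat_lit 14316771)))
(L (nat_lit 6312345)))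
(L (nat_lit 13275452)))
(L (nat_lit 19325249)))
(L (nat_lit 18968815)))
(L (nat_lit 20825444)))
(L (nat_lit 5525293)))
(L (nat_lit 11651884)))
(L (nat_lit 15429988)))
(L (nat_lit 17031777)))
(L (nat_lit 4599384)))
(L (nat_lit 4485525)))
(L (nat_lit 4485524)))
(L (nat_lit 4485557)))
(L (nat_lit 7463503)))
(L (nat_lit 21525730)))
(L (nat_lit 30939780)))
(L (nat_lit 12268570)))
(L (nat_lit 12312622))))
(L (nat_lit 18548486)))
(S (nat_lit 35073) (S (nat_lit 11024) (S (nat_lit 41519) (S (nat_lit 21540) (S (nat_lit 48323) (S (nat_lit 19828) (S (nat_lit 8773) (S (nat_lit 21529) (S (nat_lit 41260) (S (nat_lit 21527) (S (nat_lit 8762) (S (nat_lit 40774) (S (nat_lit 40785) (S (nat_lit 35046) (S (nat_lit 54901) (S (nat_lit 1944) (S (nat_lit 57066) (S (nat_lit 54899) (S (nat_lit 25704) (S (nat_lit 37956) (S (nat_lit 38685) (S (nat_lit 33554) (S (nat_lit 22360) (S (nat_lit 7197) (D (nat_lit 11) (nat_lit 27379982) (nat_lit 25769251)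 (nat_lit 111842203814))
(L (nat_lit 27965763)))
(L (nat_lit 27479588)))
(L (nat_lit 12873381)))
(L (nat_lit 27695808)))
(L (nat_lit 27696736)))
(S (nat_lit 57206) (S (nat_lit 29924) (S (nat_lit 29195) (S (nat_lit 13564) (S (nat_lit 4767) (S (nat_lit 47406) (D (nat_lit 11) (nat_lit 27840869) (nat_lit 19673445) (nat_lit 3359835297))
(L (nat_lit 12904534)))
(L (nat_lit 28030306)))
(L (nat_lit 29997193)))
(L (nat_lit 27867428)))
(L (nat_lit 27867396)))
(L (nat_lit 6212139))))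
(L (nat_lit 12190138)))
(L (nat_lit 12284288)))
(L (nat_lit 6042930)))
(L (nat_lit 11350035)))
(L (nat_lit 29530581)))
(L (nat_lit 23266875)))
(L (nat_lit 23999681)))
(L (nat_lit 7367219)))
(L (nat_lit 14790455)))
(L (nat_lit 23310361)))
(L (nat_lit 30933300)))
(L (nat_lit 14691250)))
(L (nat_lit 16457784)))
(L (nat_lit 11255717)))
(L (nat_lit 11011772)))
(L (nat_lit 661912)))
(S (nat_lit 30761) (S (nat_lit 30084) (L (nat_lit 16647477))
(L (nat_lit 28542574)))
(L (nat_lit 19693962))))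
(S (nat_lit 54837) (S (nat_lit 11117) (S (nat_lit 19828) (S (nat_lit 48323) (S (nat_lit 20798) (S (nat_lit 21770) (S (nat_lit 35120) (S (nat_lit 48318) (S (nat_lit 8762) (S (nat_lit 10982) (S (nat_lit 54851) (S (nat_lit 57055) (S (nat_lit 1944) (S (nat_lit 35228) (S (nat_lit 21527) (S (nat_lit 17521) (S (nat_lit 1958) (S (nat_lit 972) (S (nat_lit 41260) (S (nat_lit 30713) (S (nat_lit 9342) (S (nat_lit 38672) (S (nat_lit 37943) (S (nat_lit 7257) (S (nat_lit 9475) (S (nat_lit 53227) (D (nat_lit 11) (nat_lit 28891460) (nat_lit 19674403) (nat_lit 106542761217))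
(L (nat_lit 12874466)))
(L (nat_lit 29998088)))
(L (nat_lit 29967621)))
(L (nat_lit 27903269)))
(L (nat_lit 27903237)))
(S (nat_lit 42292) (S (nat_lit 47534) (S (nat_lit 18115) (S (nat_lit 17872) (S (nat_lit 33505) (D (nat_lit 11) (nat_lit 18113219) (nat_lit 3946057) (nat_lit 109729454114))
(L (nat_lit 19376221)))
(L (nat_lit 27895920)))
(L (nat_lit 27895885)))
(L (nat_lit 29998150)))
(L (nat_lit 8447444))))
(L (nat_lit 24371278)))
(L (nat_lit 23081770)))
(L (nat_lit 11087960)))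
(L (nat_lit 20222833)))
(L (nat_lit 26982536)))
(L (nat_lit 31139363)))
(L (nat_lit 21871845)))
(L (nat_lit 5845304)))
(L (nat_lit 12088931)))
(L (nat_lit 10531448)))
(L (nat_lit 7057468)))
(L (nat_lit 1787754)))
(L (nat_lit 12314080)))
(L (nat_lit 13314075)))
(L (nat_lit 4747478)))
(L (nat_lit 12087350)))
(L (nat_lit 20198426)))
(L (nat_lit 31170607)))
(S (nat_lit 21739) (S (nat_lit 10935) (L (nat_lit 1267502))
(L (nat_lit 21797345)))
(L (nat_lit 4443918))))
(L (nat_lit 25205422)))))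
(S (nat_lit 27698) (L (nat_lit 834805))
(L (nat_lit 18539559))))
(S (nat_lit 40805) (S (nat_lit 2019) (S (nat_lit 48323) (S (nat_lit 37324) (S (nat_lit 41486) (S (nat_lit 21496) (S (nat_lit 14) (S (nat_lit 1257) (S (nat_lit 50510) (L (nat_lit 5487259))
(L (nat_lit 20013262)))
(L (nat_lit 5756153)))
(L (nat_lit 8181221)))
(L (nat_lit 21771584)))
(L (nat_lit 17749216)))
(L (nat_lit 23901410)))
(L (nat_lit 12303418)))
(S (nat_lit 21783) (S (nat_lit 34024) (L (nat_lit 17500376))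
(S (nat_lit 48323) (S (nat_lit 20798) (S (nat_lit 19828) (S (nat_lit 8762) (S (nat_lit 1944) (S (nat_lit 21004) (S (nat_lit 21496) (S (nat_lit 1776) (S (nat_lit 8773) (S (nat_lit 19839) (S (nat_lit 14) (S (nat_lit 40547) (S (nat_lit 57066) (S (nat_lit 48307) (S (nat_lit 40818) (S (nat_lit 17521) (S (nat_lit 28587) (S (nat_lit 37322) (S (nat_lit 39570) (S (nat_lit 41514) (S (nat_lit 21512) (S (nat_lit 1763) (S (nat_lit 6559) (S (nat_lit 4264) (S (nat_lit 26993) (S (nat_lit 27264) (S (nat_lit 3784) (S (nat_lit 3795) (S (nat_lit 30059) (S (nat_lit 30699) (S (nat_lit 29208) (S (nat_lit 49641) (S (nat_lit 37702) (S (nat_lit 36863) (D (nat_lit 13) (nat_lit 13995795) (nat_lit 3646226) (nat_lit 8804886610115))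
(L (nat_lit 26982593)))
(L (nat_lit 16537825)))
(L (nat_lit 21775553)))
(L (nat_lit 21773504)))
(L (nat_lit 25836736)))
(S (nat_lit 45753) (S (nat_lit 25729) (S (nat_lit 46180) (D (nat_lit 13) (nat_lit 25283949) (nat_lit 18997639) (nat_lit 3457190148))
(L (nat_lit 29047944)))
(L (nat_lit 28761346)))
(L (nat_lit 28328147))))
(L (nat_lit 11423888)))
(L (nat_lit 11418242)))
(L (nat_lit 9006532)))
(L (nat_lit 21392644)))
(L (nat_lit 28727556)))
(S (nat_lit 7257) (S (nat_lit 3281) (S (nat_lit 5576) (S (nat_lit 14735) (S (nat_lit 2585) (S (nat_lit 5313) (S (nat_lit 25064) (S (nat_lit 22603) (S (nat_lit 47395) (S (nat_lit 24489) (D (nat_lit 13) (nat_lit 875049) (nat_lit 19666311) (nat_lit 1174842377319))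
(L (nat_lit 24025570)))
(L (nat_lit 28715714)))
(S (nat_lit 28952) (S (nat_lit 30699) (S (nat_lit 48431) (S (nat_lit 28954) (S (nat_lit 37956) (S (nat_lit 36863) (D (nat_lit 13) (nat_lit 13997843) (nat_lit 3646226) (nat_lit 4402378407970))
(L (nat_lit 26982593)))
(L (nat_lit 16535744)))
(L (nat_lit 21775585)))
(L (nat_lit 21773505)))
(L (nat_lit 25836736)))
(L (nat_lit 29407605))))
(L (nat_lit 27281129)))
(L (nat_lit 30062664)))
(L (nat_lit 28356054)))
(L (nat_lit 28459316)))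
(L (nat_lit 30813366)))
(L (nat_lit 28889443)))
(S (nat_lit 52060) (S (nat_lit 16754) (S (nat_lit 55991) (S (nat_lit 54899) (S (nat_lit 32491) (S (nat_lit 15356) (S (nat_lit 4347) (S (nat_lit 50176) (S (nat_lit 25704) (D (nat_lit 15) (nat_lit 26331340) (nat_lit 25761101) (nat_lit 4570744899))
(L (nat_lit 24570145)))
(L (nat_lit 30126372)))
(S (nat_lit 9718) (S (nat_lit 39202) (S (nat_lit 8169) (D (nat_lit 15) (nat_lit 28660876) (nat_lit 18997581) (nat_lit 43057714336))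
(L (nat_lit 27900161)))
(L (nat_lit 27867393)))
(L (nat_lit 14591587))))
(L (nat_lit 22920389)))
(L (nat_lit 20308512)))
(L (nat_lit 27935045)))
(L (nat_lit 20888681)))
(L (nat_lit 30032935)))
(L (nat_lit 30673645)))))
(L (nat_lit 26750006)))
(L (nat_lit 14706246)))
(L (nat_lit 17027907)))
(L (nat_lit 11144973)))
(L (nat_lit 23953740)))
(L (nat_lit 25013328)))
(L (nat_lit 8108930)))
(L (nat_lit 16865661)))
(L (nat_lit 12114009)))
(L (nat_lit 4931933)))
(L (nat_lit 7367248)))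
(L (nat_lit 19099108)))
(L (nat_lit 22554748)))
(L (nat_lit 20982705)))
(L (nat_lit 12289528)))
(L (nat_lit 21770469)))
(L (nat_lit 1655032)))
(L (nat_lit 19182712)))
(L (nat_lit 14933861)))
(L (nat_lit 15585506)))
(L (nat_lit 5977895)))
(L (nat_lit 14390488))))
(S (nat_lit 41547) (S (nat_lit 17496) (S (nat_lit 40547) (S (nat_lit 41519) (S (nat_lit 28576) (S (nat_lit 21496) (S (nat_lit 21722) (S (nat_lit 14) (S (nat_lit 15351) (L (nat_lit 4444016))
(L (nat_lit 7418773)))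
(L (nat_lit 7400081)))
(L (nat_lit 1915127)))
(L (nat_lit 970183)))
(L (nat_lit 24470018)))
(L (nat_lit 9101730)))
(L (nat_lit 24330328)))
(S (nat_lit 58598) (L (nat_lit 3682040))
(L (nat_lit 17850118))))
(L (nat_lit 25183475)))))
(L (nat_lit 25695977)))))
(L (nat_lit 25281750)))))
(L (nat_lit 25610469)))))
(S (nat_lit 40564) (S (nat_lit 1991) (S (nat_lit 1257) (S (nat_lit 10949) (S (nat_lit 17496) (S (nat_lit 16865) (L (nat_lit 17538852))
(S (nat_lit 41293) (S (nat_lit 21043) (S (nat_lit 37322) (L (nat_lit 8811072))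
(L (nat_lit 30868820)))
(L (nat_lit 1617501)))
(L (nat_lit 18623045))))
(L (nat_lit 7398129)))
(S (nat_lit 30713) (S (nat_lit 54862) (S (nat_lit 1776) (L (nat_lit 12627578))
(L (nat_lit 13693266)))
(L (nat_lit 13689174)))
(S (nat_lit 50477) (S (nat_lit 41304) (L (nat_lit 29407570))
(L (nat_lit 17881899)))
(L (nat_lit 25834570)))))
(S (nat_lit 21021) (S (nat_lit 1958) (S (nat_lit 25778) (L (nat_lit 14457539))
(S (nat_lit 48307) (S (nat_lit 19826) (S (nat_lit 20750) (S (nat_lit 41514) (S (nat_lit 28574) (S (nat_lit 40757) (S (nat_lit 21733) (S (nat_lit 1014) (S (nat_lit 1279) (S (nat_lit 41547) (S (nat_lit 16145) (S (nat_lit 16151) (S (nat_lit 54837) (L (nat_lit 2347418))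
(L (nat_lit 19340349)))
(L (nat_lit 20308356)))
(S (nat_lit 30924) (L (nat_lit 2498138))
(S (nat_lit 41503) (S (nat_lit 21770) (S (nat_lit 1944) (S (nat_lit 22535) (L (nat_lit 248315))
(S (nat_lit 57055) (S (nat_lit 1748) (L (nat_lit 7834203))
(L (nat_lit 20182403)))
(L (nat_lit 11110189))))
(L (nat_lit 20295800)))
(L (nat_lit 7434774)))
(L (nat_lit 27960463)))))
(L (nat_lit 28023235)))
(L (nat_lit 13865780)))
(L (nat_lit 14293112)))
(L (nat_lit 16357405)))
(L (nat_lit 604969)))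
(L (nat_lit 13279077)))
(L (nat_lit 27512844)))
(L (nat_lit 31037616)))
(L (nat_lit 22545753)))
(L (nat_lit 12125753))))
(S (nat_lit 21722) (S (nat_lit 1986) (S (nat_lit 48307) (S (nat_lit 15356) (L (nat_lit 2676092))
(L (nat_lit 1921263)))
(L (nat_lit 11306391)))
(S (nat_lit 21750) (S (nat_lit 10935) (S (nat_lit 50525) (L (nat_lit 11072564))
(L (nat_lit 11272814)))
(L (nat_lit 1888495)))
(S (nat_lit 41514) (S (nat_lit 7037) (L (nat_lit 13694631))
(S (nat_lit 48301) (S (nat_lit 54851) (L (nat_lit 19131468))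
(L (nat_lit 11593327)))
(L (nat_lit 10534588))))
(L (nat_lit 25495059)))))
(S (nat_lit 41486) (S (nat_lit 17521) (S (nat_lit 10935) (S (nat_lit 10960) (L (nat_lit 15926906))
(L (nat_lit 17856104)))
(S (nat_lit 43655) (L (nat_lit 564023))
(L (nat_lit 18023222))))
(S (nat_lit 37285) (S (nat_lit 1765) (S (nat_lit 15309) (S (nat_lit 41514) (L (nat_lit 17556554))
(L (nat_lit 24158028)))
(L (nat_lit 22251310)))
(L (nat_lit 20200224)))
(S (nat_lit 57049) (S (nat_lit 10935) (S (nat_lit 20778) (L (nat_lit 29402518))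
(L (nat_lit 21184290)))
(L (nat_lit 6340249)))
(L (nat_lit 25858440)))))
(L (nat_lit 25527953)))))
(S (nat_lit 40785) (S (nat_lit 15334) (S (nat_lit 972) (S (nat_lit 4335) (L (nat_lit 14733595))
(S (nat_lit 17496) (S (nat_lit 28574) (S (nat_lit 41276) (L (nat_lit 29578661))
(L (nat_lit 17850742)))
(S (nat_lit 48230) (L (nat_lit 25074208))
(L (nat_lit 10272915))))
(L (nat_lit 15769337))))
(S (nat_lit 20736) (S (nat_lit 21540) (L (nat_lit 8450450))
(L (nat_lit 15426882)))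
(S (nat_lit 40500) (S (nat_lit 15309) (L (nat_lit 1261363))
(L (nat_lit 22479622)))
(L (nat_lit 25796685)))))
(S (nat_lit 35098) (S (nat_lit 17496) (S (nat_lit 30713) (S (nat_lit 30761) (L (nat_lit 29366862))
(L (nat_lit 24936843)))
(L (nat_lit 24164107)))
(L (nat_lit 22060849)))
(S (nat_lit 54862) (S (nat_lit 64) (S (nat_lit 21479) (S (nat_lit 54899) (L (nat_lit 12113665))
(L (nat_lit 5906189)))
(L (nat_lit 15061177)))
(L (nat_lit 1626889)))
(L (nat_lit 25865356)))))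
(L (nat_lit 25312563)))))
(S (nat_lit 21755) (S (nat_lit 15351) (S (nat_lit 1765) (S (nat_lit 10949) (S (nat_lit 17543) (S (nat_lit 1279) (S (nat_lit 17496) (S (nat_lit 8795) (S (nat_lit 21004) (S (nat_lit 64) (S (nat_lit 11010) (S (nat_lit 21021) (S (nat_lit 40500) (S (nat_lit 15371) (S (nat_lit 40774) (S (nat_lit 30746) (S (nat_lit 35148) (S (nat_lit 8812) (S (nat_lit 48351) (S (nat_lit 50525) (S (nat_lit 32584) (S (nat_lit 41514) (S (nat_lit 36182) (S (nat_lit 19826) (S (nat_lit 52398) (S (nat_lit 45349) (S (nat_lit 38696) (S (nat_lit 4036) (D (nat_lit 15) (nat_lit 12938357) (nat_lit 19666252) (nat_lit 74323072135))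
(L (nat_lit 28034277)))
(L (nat_lit 27927972)))
(S (nat_lit 48877) (S (nat_lit 10438) (S (nat_lit 47536) (D (nat_lit 15) (nat_lit 16093078) (nat_lit 4469336) (nat_lit 274880009346))
(L (nat_lit 29895331)))
(L (nat_lit 31114435)))
(L (nat_lit 11256578))))
(L (nat_lit 17635444)))
(L (nat_lit 15440740)))
(L (nat_lit 28747924)))
(L (nat_lit 24348493)))
(L (nat_lit 11658832)))
(L (nat_lit 5003658)))
(L (nat_lit 5002630)))
(L (nat_lit 6720306)))
(L (nat_lit 30911072)))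
(L (nat_lit 16901365)))
(L (nat_lit 2782699)))
(L (nat_lit 7526287)))
(L (nat_lit 24553629)))
(L (nat_lit 1547004)))
(L (nat_lit 8279151)))
(L (nat_lit 7073186)))
(L (nat_lit 22309902)))
(L (nat_lit 6877205)))
(L (nat_lit 7005201)))
(L (nat_lit 26946670)))
(L (nat_lit 26939598)))
(L (nat_lit 26944622)))
(S (nat_lit 21529) (S (nat_lit 10949) (S (nat_lit 17543) (S (nat_lit 40807) (S (nat_lit 8795) (S (nat_lit 11010) (S (nat_lit 21512) (S (nat_lit 47) (S (nat_lit 40743) (S (nat_lit 10966) (S (nat_lit 37322) (S (nat_lit 17560) (S (nat_lit 41271) (S (nat_lit 28574) (S (nat_lit 39542) (S (nat_lit 36615) (S (nat_lit 997) (S (nat_lit 1277) (S (nat_lit 18658) (S (nat_lit 45047) (S (nat_lit 39319) (S (nat_lit 57937) (S (nat_lit 48201) (D (nat_lit 13) (nat_lit 16684310) (nat_lit 25767397) (nat_lit 6839772283142))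
(L (nat_lit 10342576)))
(L (nat_lit 24033291)))
(L (nat_lit 29044100)))
(L (nat_lit 21872962)))
(S (nat_lit 30311) (S (nat_lit 47008) (S (nat_lit 56949) (S (nat_lit 49469) (D (nat_lit 13) (nat_lit 15922453) (nat_lit 25479651) (nat_lit 6873091801318))
(L (nat_lit 19133824)))
(L (nat_lit 20879744)))
(L (nat_lit 19361024)))
(L (nat_lit 1787163))))
(L (nat_lit 19805257)))
(L (nat_lit 19700783)))
(L (nat_lit 9306830)))
(L (nat_lit 27514309)))
(L (nat_lit 9222820)))
(L (nat_lit 9229828)))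
(L (nat_lit 26812461)))
(L (nat_lit 20742602)))
(L (nat_lit 1369527)))
(L (nat_lit 24392893)))
(L (nat_lit 1373591)))
(L (nat_lit 253777)))
(L (nat_lit 962127)))
(L (nat_lit 1634549)))
(L (nat_lit 531065)))
(L (nat_lit 1945140)))
(L (nat_lit 1891598)))
(S (nat_lit 41293) (S (nat_lit 17496) (S (nat_lit 20459) (S (nat_lit 1072) (L (nat_lit 14962780))
(L (nat_lit 21775680)))
(S (nat_lit 21026) (S (nat_lit 11010) (S (nat_lit 15450) (L (nat_lit 29891137))
(S (nat_lit 40547) (S (nat_lit 15334) (S (nat_lit 8812) (S (nat_lit 21043) (S (nat_lit 17543) (S (nat_lit 8795) (S (nat_lit 64) (S (nat_lit 41497) (S (nat_lit 21708) (S (nat_lit 28554) (S (nat_lit 37322) (S (nat_lit 30699) (S (nat_lit 1726) (S (nat_lit 15910) (S (nat_lit 30872) (S (nat_lit 7268) (S (nat_lit 45533) (S (nat_lit 39319) (S (nat_lit 54466) (S (nat_lit 57954) (D (nat_lit 13) (nat_lit 16571649) (nat_lit 18623666) (nat_lit 5778981527777))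
(L (nat_lit 23598984)))
(L (nat_lit 29038122)))
(L (nat_lit 29037962)))
(L (nat_lit 21872995)))
(S (nat_lit 30202) (S (nat_lit 30554) (S (nat_lit 47008) (S (nat_lit 56949) (S (nat_lit 49955) (D (nat_lit 13) (nat_lit 16053269) (nat_lit 25479343) (nat_lit 6874131988679))
(L (nat_lit 19099009)))
(L (nat_lit 20879744)))
(L (nat_lit 19361024)))
(L (nat_lit 28788992)))
(L (nat_lit 12247089))))
(L (nat_lit 21905601)))
(L (nat_lit 10345489)))
(L (nat_lit 20221839)))
(L (nat_lit 2595668)))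
(L (nat_lit 2448857)))
(L (nat_lit 2417326)))
(L (nat_lit 21345155)))
(L (nat_lit 2515687)))
(L (nat_lit 6483566)))
(L (nat_lit 26781717)))
(L (nat_lit 26945550)))
(L (nat_lit 22854827)))
(L (nat_lit 6811331)))
(L (nat_lit 22816913)))
(L (nat_lit 3662407))))
(L (nat_lit 26913184)))
(L (nat_lit 1762576))))
(S (nat_lit 46779) (L (nat_lit 515320))
(L (nat_lit 26729696))))
(L (nat_lit 25892234)))))
(S (nat_lit 35115) (S (nat_lit 1047) (S (nat_lit 1776) (S (nat_lit 17543) (S (nat_lit 21043) (S (nat_lit 41293) (S (nat_lit 28554) (L (nat_lit 17920340))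
(L (nat_lit 8511344)))
(L (nat_lit 18553945)))
(L (nat_lit 16474214)))
(L (nat_lit 751082)))
(S (nat_lit 21540) (S (nat_lit 17543) (S (nat_lit 1229) (S (nat_lit 64) (S (nat_lit 40805) (L (nat_lit 26322510))
(L (nat_lit 751113)))
(L (nat_lit 1632501)))
(L (nat_lit 10611191)))
(L (nat_lit 1798634)))
(S (nat_lit 41304) (S (nat_lit 17496) (S (nat_lit 40547) (S (nat_lit 28543) (L (nat_lit 14720914))
(L (nat_lit 17947400)))
(L (nat_lit 18646294)))
(S (nat_lit 42646) (L (nat_lit 18186841))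
(L (nat_lit 22038310))))
(L (nat_lit 25431724)))))
(S (nat_lit 20811) (S (nat_lit 1969) (S (nat_lit 17496) (S (nat_lit 23283) (L (nat_lit 23986545))
(S (nat_lit 40807) (S (nat_lit 37322) (L (nat_lit 24254872))
(L (nat_lit 30874244)))
(L (nat_lit 24685756))))
(S (nat_lit 23812) (L (nat_lit 1787098))
(L (nat_lit 24156664))))
(S (nat_lit 21733) (S (nat_lit 17496) (S (nat_lit 17543) (S (nat_lit 21540) (L (nat_lit 18144345))
(L (nat_lit 11069092)))
(S (nat_lit 27390) (L (nat_lit 17884469))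
(L (nat_lit 1799658))))
(L (nat_lit 22856711)))
(S (nat_lit 41497) (S (nat_lit 9698) (S (nat_lit 10982) (L (nat_lit 12912437))
(L (nat_lit 325262)))
(S (nat_lit 28574) (S (nat_lit 40547) (S (nat_lit 54851) (S (nat_lit 48307) (S (nat_lit 15373) (S (nat_lit 41514) (S (nat_lit 20750) (S (nat_lit 2019) (S (nat_lit 997) (S (nat_lit 1958) (S (nat_lit 1014) (S (nat_lit 2603) (S (nat_lit 23568) (S (nat_lit 43648) (L (nat_lit 292245))
(L (nat_lit 26985665)))
(L (nat_lit 26983616)))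
(S (nat_lit 37322) (S (nat_lit 57055) (S (nat_lit 10982) (S (nat_lit 50538) (S (nat_lit 17496) (S (nat_lit 1701) (S (nat_lit 1765) (S (nat_lit 1215) (S (nat_lit 1748) (S (nat_lit 48351) (S (nat_lit 37302) (S (nat_lit 41304) (S (nat_lit 23107) (S (nat_lit 2857) (S (nat_lit 3570) (S (nat_lit 46226) (S (nat_lit 22811) (S (nat_lit 13463) (D (nat_lit 13) (nat_lit 29958284) (nat_lit 19664109) (nat_lit 2273312769251))
(L (nat_lit 27965546)))
(L (nat_lit 23471225)))
(L (nat_lit 21828010)))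
(L (nat_lit 29999397)))
(L (nat_lit 29996324)))
(S (nat_lit 53720) (S (nat_lit 24512) (S (nat_lit 47295) (S (nat_lit 53856) (S (nat_lit 45550) (S (nat_lit 53125) (D (nat_lit 11) (nat_lit 26817761) (nat_lit 25529746) (nat_lit 241868865792))
(L (nat_lit 20456476)))
(L (nat_lit 17109876)))
(L (nat_lit 20472067)))
(L (nat_lit 19425539)))
(L (nat_lit 28859651)))
(L (nat_lit 3424020))))
(L (nat_lit 17062692)))
(L (nat_lit 8834849)))
(L (nat_lit 16427905)))
(L (nat_lit 20254480)))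
(L (nat_lit 20254477)))
(L (nat_lit 20845934)))
(S (nat_lit 21465) (S (nat_lit 50477) (S (nat_lit 8795) (S (nat_lit 19789) (S (nat_lit 17560) (S (nat_lit 1715) (S (nat_lit 21512) (S (nat_lit 41254) (S (nat_lit 20767) (S (nat_lit 50494) (S (nat_lit 6795) (S (nat_lit 15214) (S (nat_lit 8393) (S (nat_lit 24951) (S (nat_lit 47472) (D (nat_lit 13) (nat_lit 27856361) (nat_lit 13754738) (nat_lit 207305575489))
(L (nat_lit 19771585)))
(L (nat_lit 28918977)))
(L (nat_lit 27870216)))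
(L (nat_lit 27860420)))
(S (nat_lit 33799) (S (nat_lit 26182) (S (nat_lit 23752) (S (nat_lit 43098) (D (nat_lit 11) (nat_lit 26814479) (nat_lit 25765381) (nat_lit 34606275))
(L (nat_lit 21870785)))
(L (nat_lit 23999840)))
(L (nat_lit 23998817)))
(L (nat_lit 22167768))))
(L (nat_lit 15297640)))
(L (nat_lit 958965)))
(L (nat_lit 18779348)))
(L (nat_lit 16682568)))
(L (nat_lit 20081128)))
(L (nat_lit 16665794)))
(L (nat_lit 14724856)))
(L (nat_lit 619019)))
(L (nat_lit 20508747)))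
(S (nat_lit 41229) (S (nat_lit 39542) (S (nat_lit 54912) (S (nat_lit 57099) (S (nat_lit 1229) (S (nat_lit 20979) (S (nat_lit 40768) (S (nat_lit 39603) (S (nat_lit 41534) (S (nat_lit 3533) (S (nat_lit 23266) (S (nat_lit 46206) (S (nat_lit 2874) (S (nat_lit 26219) (D (nat_lit 13) (nat_lit 29689234) (nat_lit 15470155) (nat_lit 104223217729))
(L (nat_lit 23490912)))
(L (nat_lit 30967462)))
(L (nat_lit 28916806)))
(L (nat_lit 28916993)))
(S (nat_lit 32875) (S (nat_lit 25051) (S (nat_lit 2528) (S (nat_lit 23593) (D (nat_lit 11) (nat_lit 27864142) (nat_lit 25764974) (nat_lit 212877904899))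
(L (nat_lit 27866336)))
(L (nat_lit 27865194)))
(L (nat_lit 27865280)))
(L (nat_lit 13268105))))
(L (nat_lit 7073314)))
(L (nat_lit 16968327)))
(L (nat_lit 18785300)))
(L (nat_lit 1403501)))
(L (nat_lit 20277730)))
(L (nat_lit 21369149)))
(L (nat_lit 19370301)))
(L (nat_lit 18477317)))
(L (nat_lit 25306514)))))
(L (nat_lit 7134752)))
(L (nat_lit 20387622)))
(L (nat_lit 7196197)))
(L (nat_lit 19428611)))
(L (nat_lit 23217962))))
(L (nat_lit 11201026)))
(L (nat_lit 11659920)))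
(L (nat_lit 20758757)))
(L (nat_lit 12782232)))
(L (nat_lit 31037889)))
(L (nat_lit 27494124)))
(L (nat_lit 8280514)))
(L (nat_lit 4506204)))
(L (nat_lit 5777204)))
(L (nat_lit 10377635)))
(L (nat_lit 30900597))))
(L (nat_lit 25567937)))))
(S (nat_lit 40575) (S (nat_lit 1014) (S (nat_lit 3289) (S (nat_lit 10935) (L (nat_lit 2548982))
(L (nat_lit 1612440)))
(S (nat_lit 28574) (S (nat_lit 8369) (L (nat_lit 6042182))
(S (nat_lit 17496) (S (nat_lit 17543) (S (nat_lit 10982) (S (nat_lit 30761) (L (nat_lit 30867699))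
(L (nat_lit 25008581)))
(L (nat_lit 18108165)))
(S (nat_lit 26988) (L (nat_lit 1537738))
(L (nat_lit 1325756))))
(L (nat_lit 8148513))))
(L (nat_lit 18717877))))
(S (nat_lit 20778) (S (nat_lit 64) (S (nat_lit 10935) (S (nat_lit 17496) (S (nat_lit 50477) (L (nat_lit 6871068))
(L (nat_lit 27992484)))
(L (nat_lit 24682273)))
(L (nat_lit 1722151)))
(L (nat_lit 8311854)))
(S (nat_lit 40542) (S (nat_lit 17496) (S (nat_lit 40547) (S (nat_lit 21750) (S (nat_lit 21783) (S (nat_lit 50538) (S (nat_lit 35120) (S (nat_lit 40774) (L (nat_lit 17436891))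
(L (nat_lit 27304622)))
(L (nat_lit 10163673)))
(L (nat_lit 22503680)))
(L (nat_lit 21168636)))
(L (nat_lit 21470236)))
(L (nat_lit 23895457)))
(S (nat_lit 18387) (L (nat_lit 20984121))
(L (nat_lit 7399151))))
(L (nat_lit 25541348)))))
(L (nat_lit 25221608)))))
(S (nat_lit 54879) (S (nat_lit 15384) (S (nat_lit 17496) (S (nat_lit 47) (S (nat_lit 17543) (S (nat_lit 8795) (S (nat_lit 30774) (S (nat_lit 41497) (S (nat_lit 15323) (S (nat_lit 54862) (S (nat_lit 15340) (S (nat_lit 30730) (S (nat_lit 997) (S (nat_lit 28574) (S (nat_lit 1958) (S (nat_lit 64) (S (nat_lit 30713) (S (nat_lit 40547) (S (nat_lit 41534) (S (nat_lit 20767) (S (nat_lit 37302) (S (nat_lit 28554) (S (nat_lit 41514) (S (nat_lit 39603) (S (nat_lit 57055) (S (nat_lit 35137) (S (nat_lit 35120) (S (nat_lit 50463) (S (nat_lit 1034) (S (nat_lit 48290) (S (nat_lit 1975) (S (nat_lit 21021) (S (nat_lit 36975) (S (nat_lit 17421) (S (nat_lit 11991) (S (nat_lit 1765)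 (S (nat_lit 2894) (S (nat_lit 18356) (D (nat_lit 15) (nat_lit 31146277) (nat_lit 7935757) (nat_lit 210721834021))
(L (nat_lit 29047141)))
(S (nat_lit 34059) (S (nat_lit 33319) (S (nat_lit 53812) (D (nat_lit 15) (nat_lit 12908130) (nat_lit 3950986) (nat_lit 240524468390))
(L (nat_lit 29875460)))
(L (nat_lit 22975912)))
(L (nat_lit 24633482))))
(L (nat_lit 13553735)))
(L (nat_lit 28982466)))
(L (nat_lit 21440389)))
(L (nat_lit 15430885)))
(S (nat_lit 53569) (S (nat_lit 33816) (S (nat_lit 8846) (S (nat_lit 33836) (S (nat_lit 26182) (S (nat_lit 2377) (S (nat_lit 2421) (S (nat_lit 48248) (S (nat_lit 9625) (S (nat_lit 38400) (S (nat_lit 40790) (D (nat_lit 13) (nat_lit 31099180) (nat_lit 9193957) (nat_lit 38822543560))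
(L (nat_lit 27968770)))
(L (nat_lit 22520611)))
(S (nat_lit 15773) (S (nat_lit 25453) (S (nat_lit 58080) (D (nat_lit 13) (nat_lit 31175012) (nat_lit 11290737) (nat_lit 4432546760712))
(L (nat_lit 22520611)))
(L (nat_lit 28826948)))
(L (nat_lit 19827243))))
(L (nat_lit 9320100)))
(L (nat_lit 29534832)))
(L (nat_lit 29473384)))
(L (nat_lit 25043492)))
(L (nat_lit 27789524)))
(L (nat_lit 27731620)))
(L (nat_lit 27744452)))
(S (nat_lit 56918) (S (nat_lit 56898) (S (nat_lit 22901) (S (nat_lit 50125) (S (nat_lit 47949) (S (nat_lit 53108) (S (nat_lit 13809) (S (nat_lit 37620) (S (nat_lit 30202) (D (nat_lit 15) (nat_lit 27927011) (nat_lit 6038097) (nat_lit 109728434341))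
(L (nat_lit 27963653)))
(L (nat_lit 21504090)))
(L (nat_lit 30095653)))
(S (nat_lit 57608) (S (nat_lit 12508) (S (nat_lit 28163) (S (nat_lit 41291) (S (nat_lit 35749) (D (nat_lit 15) (nat_lit 30055876) (nat_lit 9855090) (nat_lit 209582031908))
(L (nat_lit 15641315)))
(L (nat_lit 23620803)))
(L (nat_lit 28858723)))
(L (nat_lit 28858563)))
(L (nat_lit 1552210))))
(L (nat_lit 21498633)))
(L (nat_lit 3666167)))
(L (nat_lit 8908823)))
(L (nat_lit 16019479)))
(L (nat_lit 16111461)))))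
(L (nat_lit 20393793)))
(L (nat_lit 27811109)))
(L (nat_lit 20485031)))
(L (nat_lit 27821703)))
(L (nat_lit 12699865)))
(L (nat_lit 8902680)))
(L (nat_lit 21266873)))
(L (nat_lit 28001569)))
(L (nat_lit 18524933)))
(L (nat_lit 13366593)))
(L (nat_lit 20477249)))
(L (nat_lit 6311855)))
(L (nat_lit 6868736)))
(L (nat_lit 24952903)))
(L (nat_lit 16807498)))
(L (nat_lit 26982440)))
(L (nat_lit 26320528)))
(L (nat_lit 18710869)))
(L (nat_lit 26499183)))
(L (nat_lit 24396893)))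
(L (nat_lit 7167089)))
(L (nat_lit 18917881)))
(L (nat_lit 6818429)))
(L (nat_lit 18782293)))
(L (nat_lit 25013664)))
(L (nat_lit 1916149)))
(L (nat_lit 1921262)))
(S (nat_lit 19811) (S (nat_lit 64) (S (nat_lit 8795) (S (nat_lit 41497) (L (nat_lit 15585506))
(L (nat_lit 18782293)))
(S (nat_lit 17903) (L (nat_lit 11066145))
(L (nat_lit 1627946))))
(S (nat_lit 955) (L (nat_lit 18651745))
(L (nat_lit 8261045))))
(S (nat_lit 39575) (S (nat_lit 44488) (L (nat_lit 26428004))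
(S (nat_lit 57049) (S (nat_lit 40547) (S (nat_lit 19806) (L (nat_lit 27934824))
(L (nat_lit 10141536)))
(L (nat_lit 24288664)))
(L (nat_lit 11440720))))
(L (nat_lit 25837578)))))
(S (nat_lit 23071) (S (nat_lit 48391) (L (nat_lit 6340405))
(L (nat_lit 8180192)))
(S (nat_lit 48005) (S (nat_lit 10935) (S (nat_lit 7631) (L (nat_lit 15888725))
(L (nat_lit 24919265)))
(L (nat_lit 6809216)))
(L (nat_lit 1296149)))))
(S (nat_lit 35148) (S (nat_lit 1763) (S (nat_lit 50505) (S (nat_lit 17496) (S (nat_lit 1246) (S (nat_lit 8795) (L (nat_lit 5467540))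
(L (nat_lit 6867997)))
(L (nat_lit 20787334)))
(L (nat_lit 1889766)))
(L (nat_lit 5531313)))
(S (nat_lit 21527) (S (nat_lit 50505) (S (nat_lit 17496) (S (nat_lit 30774) (S (nat_lit 40547) (S (nat_lit 57066) (S (nat_lit 19839) (L (nat_lit 15630613))
(L (nat_lit 31167975)))
(L (nat_lit 14968449)))
(L (nat_lit 24142096)))
(L (nat_lit 17681478)))
(L (nat_lit 1891878)))
(L (nat_lit 15295841)))
(S (nat_lit 41291) (S (nat_lit 64) (S (nat_lit 40790) (S (nat_lit 50525) (L (nat_lit 22159805))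
(L (nat_lit 11174670)))
(L (nat_lit 24938919)))
(L (nat_lit 7924756)))
(L (nat_lit 25922088)))))
(S (nat_lit 54912) (S (nat_lit 15356) (S (nat_lit 17496) (S (nat_lit 1014) (S (nat_lit 28574) (S (nat_lit 37322) (S (nat_lit 50477) (S (nat_lit 41497) (S (nat_lit 19826) (S (nat_lit 15323) (S (nat_lit 997) (S (nat_lit 1246) (L (nat_lit 3521245))
(L (nat_lit 11155265)))
(L (nat_lit 2513798)))
(L (nat_lit 831794)))
(L (nat_lit 15009499)))
(L (nat_lit 649423)))
(L (nat_lit 11001637)))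
(L (nat_lit 17668244)))
(L (nat_lit 25008271)))
(S (nat_lit 22063) (L (nat_lit 4797319))
(L (nat_lit 14346344))))
(S (nat_lit 38652) (L (nat_lit 7918616))
(L (nat_lit 24682272))))
(S (nat_lit 35120) (S (nat_lit 17496) (S (nat_lit 22074) (L (nat_lit 4664213))
(S (nat_lit 57099) (S (nat_lit 20767) (L (nat_lit 7520117))
(L (nat_lit 5753606)))
(L (nat_lit 12214688))))
(S (nat_lit 46768) (L (nat_lit 7832312))
(L (nat_lit 15926071))))
(S (nat_lit 54884) (S (nat_lit 17496) (S (nat_lit 10917) (L (nat_lit 4417136))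
(S (nat_lit 17543) (S (nat_lit 21770) (S (nat_lit 1215) (L (nat_lit 11587992))
(L (nat_lit 11079097)))
(L (nat_lit 16454873)))
(L (nat_lit 15995700))))
(L (nat_lit 8181216)))
(L (nat_lit 25249999)))))
(L (nat_lit 25350534)))))
(L (nat_lit 25561734)))))
(S (nat_lit 41519) (S (nat_lit 1279) (S (nat_lit 15309) (S (nat_lit 50525) (L (nat_lit 28874773))
(L (nat_lit 27662948)))
(S (nat_lit 35073) (S (nat_lit 21490) (S (nat_lit 37322) (S (nat_lit 10997) (L (nat_lit 24157036))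
(L (nat_lit 23987566)))
(L (nat_lit 2759470)))
(L (nat_lit 11405006)))
(S (nat_lit 54837) (S (nat_lit 986) (L (nat_lit 28907536))
(L (nat_lit 13376129)))
(L (nat_lit 25926704)))))
(S (nat_lit 21043) (S (nat_lit 1019) (S (nat_lit 1277) (S (nat_lit 54879) (S (nat_lit 20341) (L (nat_lit 5616253))
(L (nat_lit 23328161)))
(L (nat_lit 11327905)))
(S (nat_lit 21041) (S (nat_lit 5984) (L (nat_lit 8061435))
(S (nat_lit 40575) (S (nat_lit 40785) (S (nat_lit 14) (S (nat_lit 21783) (S (nat_lit 28574) (S (nat_lit 8762) (S (nat_lit 1944) (S (nat_lit 21054) (S (nat_lit 1958) (S (nat_lit 48307) (S (nat_lit 41514) (S (nat_lit 19839) (S (nat_lit 17538) (S (nat_lit 38323) (S (nat_lit 30686) (L (nat_lit 1292890))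
(L (nat_lit 27740421)))
(L (nat_lit 19808512)))
(S (nat_lit 33494) (L (nat_lit 9897626))
(L (nat_lit 18140313))))
(L (nat_lit 21873920)))
(L (nat_lit 8442636)))
(L (nat_lit 22332195)))
(L (nat_lit 12341392)))
(L (nat_lit 21063020)))
(L (nat_lit 10229139)))
(L (nat_lit 20989802)))
(L (nat_lit 25003341)))
(L (nat_lit 7363340)))
(L (nat_lit 251761)))
(L (nat_lit 23534405)))
(L (nat_lit 17506180))))
(S (nat_lit 40805) (S (nat_lit 27916) (L (nat_lit 4677414))
(S (nat_lit 30724) (L (nat_lit 24338817))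
(L (nat_lit 17032866))))
(L (nat_lit 25709792)))))
(S (nat_lit 20783) (S (nat_lit 2006) (S (nat_lit 31066) (L (nat_lit 4711015))
(S (nat_lit 57038) (S (nat_lit 10935) (L (nat_lit 8416692))
(L (nat_lit 20978168)))
(L (nat_lit 11551352))))
(S (nat_lit 21770) (S (nat_lit 10935) (S (nat_lit 15309) (S (nat_lit 20778) (L (nat_lit 13244539))
(L (nat_lit 30415565)))
(L (nat_lit 22070055)))
(L (nat_lit 15784743)))
(S (nat_lit 41534) (S (nat_lit 8829) (L (nat_lit 8947353))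
(S (nat_lit 15309) (S (nat_lit 10935) (S (nat_lit 42832) (L (nat_lit 12081209))
(L (nat_lit 17504377)))
(L (nat_lit 16450808)))
(L (nat_lit 24175824))))
(L (nat_lit 25895952)))))
(S (nat_lit 40547) (S (nat_lit 986) (S (nat_lit 15309) (S (nat_lit 41276) (L (nat_lit 1514075))
(L (nat_lit 17033795)))
(L (nat_lit 24123928)))
(S (nat_lit 20750) (S (nat_lit 10966) (S (nat_lit 41243) (L (nat_lit 23094574))
(L (nat_lit 27689606)))
(S (nat_lit 35046) (L (nat_lit 17400646))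
(L (nat_lit 596506))))
(S (nat_lit 40514) (S (nat_lit 10935) (S (nat_lit 15309) (S (nat_lit 15665) (L (nat_lit 17963675))
(L (nat_lit 27990401)))
(L (nat_lit 760344)))
(L (nat_lit 563928)))
(L (nat_lit 25317745)))))
(L (nat_lit 25337424)))))
(S (nat_lit 40807) (S (nat_lit 15371) (S (nat_lit 37322) (L (nat_lit 27695680))
(L (nat_lit 14293177)))
(S (nat_lit 35135) (S (nat_lit 41497) (S (nat_lit 41276) (L (nat_lit 16805446))
(L (nat_lit 17603137)))
(L (nat_lit 27695124)))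
(S (nat_lit 54899) (S (nat_lit 41497) (S (nat_lit 41254) (S (nat_lit 10935) (L (nat_lit 9045807))
(L (nat_lit 16390201)))
(L (nat_lit 18716724)))
(L (nat_lit 18716692)))
(L (nat_lit 25346699)))))
(L (nat_lit 25481391)))))
(L (nat_lit 25827714)))))
(L (nat_lit 25901126)))))

theorem rb246_0_15 : run 4 lb246 [] tb246_0_15 kb246 [0, 21772, 39559, 8748] [] = true := by
  decide +kernel

noncomputable def tb246_0_22 : Tr :=
(S (nat_lit 1277) (S (nat_lit 1975) (S (nat_lit 1003) (S (nat_lit 1290) (S (nat_lit 1279) (S (nat_lit 14) (S (nat_lit 30774) (S (nat_lit 19839) (L (nat_lit 3391163))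
(L (nat_lit 4041171)))
(L (nat_lit 3550132)))
(L (nat_lit 26432996)))
(S (nat_lit 21043) (S (nat_lit 54884) (S (nat_lit 41271) (S (nat_lit 57086) (S (nat_lit 14) (L (nat_lit 12676843))
(L (nat_lit 7098820)))
(L (nat_lit 19250948)))
(L (nat_lit 9322180)))
(L (nat_lit 19706890)))
(S (nat_lit 40807) (S (nat_lit 19839) (S (nat_lit 35120) (L (nat_lit 9319475))
(L (nat_lit 9191140)))
(L (nat_lit 3696262)))
(L (nat_lit 25696372)))))
(S (nat_lit 21054) (S (nat_lit 88) (L (nat_lit 18882478))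
(S (nat_lit 19789) (S (nat_lit 13509) (L (nat_lit 23968068))
(S (nat_lit 41271) (S (nat_lit 28537) (S (nat_lit 2006) (S (nat_lit 37335) (S (nat_lit 35115) (S (nat_lit 1034) (S (nat_lit 50488) (S (nat_lit 57038) (S (nat_lit 20811) (S (nat_lit 30730) (S (nat_lit 30698) (S (nat_lit 54899) (S (nat_lit 21004) (S (nat_lit 21490) (S (nat_lit 8779) (S (nat_lit 18072) (S (nat_lit 29927) (S (nat_lit 13519) (S (nat_lit 13762) (S (nat_lit 37641) (S (nat_lit 49623) (D (nat_lit 11) (nat_lit 27863555) (nat_lit 15294569) (nat_lit 141803258112))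
(L (nat_lit 937385)))
(L (nat_lit 19231140)))
(L (nat_lit 27870404)))
(L (nat_lit 27870405)))
(L (nat_lit 27870564)))
(S (nat_lit 18405) (S (nat_lit 14734) (S (nat_lit 14005) (S (nat_lit 48651) (S (nat_lit 38127) (S (nat_lit 28955) (D (nat_lit 11) (nat_lit 27863555) (nat_lit 15294755) (nat_lit 141803258112))
(L (nat_lit 27870378)))
(L (nat_lit 19132833)))
(L (nat_lit 7228835)))
(L (nat_lit 27870467)))
(L (nat_lit 27870499)))
(L (nat_lit 9999032))))
(L (nat_lit 16849783)))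
(L (nat_lit 7946301)))
(L (nat_lit 21163246)))
(L (nat_lit 13803284)))
(L (nat_lit 29758803)))
(L (nat_lit 3698962)))
(L (nat_lit 30655140)))
(L (nat_lit 18883002)))
(L (nat_lit 13473143)))
(L (nat_lit 19442595)))
(L (nat_lit 31142241)))
(L (nat_lit 3521301)))
(L (nat_lit 18887560)))
(L (nat_lit 19409053)))
(L (nat_lit 9060100))))
(L (nat_lit 22242447))))
(S (nat_lit 40818) (S (nat_lit 1732) (S (nat_lit 41547) (S (nat_lit 40575) (S (nat_lit 1246) (L (nat_lit 16994085))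
(L (nat_lit 4006357)))
(L (nat_lit 4021706)))
(L (nat_lit 9264581)))
(L (nat_lit 19129797)))
(L (nat_lit 25484741)))))
(S (nat_lit 20767) (S (nat_lit 8748) (S (nat_lit 1743) (S (nat_lit 54879) (S (nat_lit 17496) (S (nat_lit 57099) (S (nat_lit 50488) (L (nat_lit 29374119))
(L (nat_lit 12799161)))
(L (nat_lit 19343453)))
(L (nat_lit 841191)))
(L (nat_lit 13919872)))
(S (nat_lit 21428) (S (nat_lit 17496) (S (nat_lit 19690) (L (nat_lit 13216829))
(L (nat_lit 19930927)))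
(L (nat_lit 6317743)))
(L (nat_lit 19109401))))
(S (nat_lit 28512) (S (nat_lit 44741) (S (nat_lit 1732) (L (nat_lit 3845038))
(L (nat_lit 9627278)))
(S (nat_lit 57024) (S (nat_lit 1732) (S (nat_lit 57088) (S (nat_lit 41534) (S (nat_lit 37302) (S (nat_lit 1776) (L (nat_lit 31075374))
(L (nat_lit 19798468)))
(L (nat_lit 14590133)))
(L (nat_lit 6311761)))
(L (nat_lit 21390344)))
(L (nat_lit 9627278)))
(L (nat_lit 18904615))))
(S (nat_lit 48276) (S (nat_lit 15309) (S (nat_lit 54879) (S (nat_lit 10935) (S (nat_lit 19839) (S (nat_lit 1732) (S (nat_lit 28554) (S (nat_lit 39570) (S (nat_lit 39559) (S (nat_lit 18422) (S (nat_lit 39575) (S (nat_lit 40757) (S (nat_lit 1991) (S (nat_lit 35137) (S (nat_lit 54884) (S (nat_lit 14) (S (nat_lit 49580) (S (nat_lit 10361) (S (nat_lit 11772) (S (nat_lit 4253) (S (nat_lit 17112) (S (nat_lit 36286) (S (nat_lit 11074) (D (nat_lit 13) (nat_lit 27283943) (nat_lit 25765413) (nat_lit 6640260782144))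
(L (nat_lit 27968803)))
(L (nat_lit 27698262)))
(L (nat_lit 27964738)))
(L (nat_lit 27963618)))
(S (nat_lit 15508) (S (nat_lit 12332) (S (nat_lit 52029) (S (nat_lit 2289) (S (nat_lit 47929) (S (nat_lit 5830) (D (nat_lit 13) (nat_lit 28401031) (nat_lit 19186437) (nat_lit 42989784323))
(L (nat_lit 31174881)))
(L (nat_lit 10310081)))
(L (nat_lit 27868231)))
(L (nat_lit 16658050)))
(L (nat_lit 29936962)))
(L (nat_lit 19767345))))
(L (nat_lit 8304260)))
(L (nat_lit 28367055)))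
(L (nat_lit 19670469)))
(L (nat_lit 11323844)))
(L (nat_lit 18664488)))
(L (nat_lit 9919232)))
(L (nat_lit 25068912)))
(L (nat_lit 27758806)))
(L (nat_lit 19260869)))
(L (nat_lit 11416661)))
(L (nat_lit 5028551)))
(L (nat_lit 19670497)))
(L (nat_lit 26226932)))
(L (nat_lit 10184161)))
(L (nat_lit 15753863)))
(L (nat_lit 12455566)))
(S (nat_lit 35073) (S (nat_lit 1732) (L (nat_lit 28969415))
(L (nat_lit 18900423)))
(S (nat_lit 54837) (S (nat_lit 1732) (L (nat_lit 2483669))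
(L (nat_lit 18888519)))
(L (nat_lit 25631456)))))
(L (nat_lit 25188807)))))
(S (nat_lit 40531) (S (nat_lit 31) (S (nat_lit 597) (L (nat_lit 16828793))
(S (nat_lit 1732) (L (nat_lit 2482645))
(L (nat_lit 9921189))))
(S (nat_lit 19795) (S (nat_lit 1246) (S (nat_lit 37302) (S (nat_lit 35073) (S (nat_lit 41260) (L (nat_lit 23538465))
(L (nat_lit 9220276)))
(L (nat_lit 30448085)))
(L (nat_lit 30674389)))
(S (nat_lit 21010) (S (nat_lit 21496) (L (nat_lit 12497472))
(L (nat_lit 798165)))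
(S (nat_lit 40774) (S (nat_lit 37302) (S (nat_lit 35073) (S (nat_lit 41229) (S (nat_lit 997) (S (nat_lit 1034) (S (nat_lit 40818) (S (nat_lit 48351) (S (nat_lit 39553) (S (nat_lit 8773) (S (nat_lit 50463) (S (nat_lit 40514) (S (nat_lit 6050) (S (nat_lit 64) (S (nat_lit 2019) (S (nat_lit 50527) (S (nat_lit 39590) (S (nat_lit 24241) (S (nat_lit 10072) (S (nat_lit 23831) (S (nat_lit 16390) (D (nat_lit 11) (nat_lit 28018057) (nat_lit 25344587) (nat_lit 212843300001))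
(L (nat_lit 27988491)))
(L (nat_lit 27578786)))
(L (nat_lit 27842884)))
(S (nat_lit 30079) (S (nat_lit 12854) (S (nat_lit 58904) (S (nat_lit 21920) (S (nat_lit 44977) (D (nat_lit 13) (nat_lit 26968305) (nat_lit 19672613) (nat_lit 42043768936))
(L (nat_lit 28597668)))
(L (nat_lit 15654180)))
(L (nat_lit 20880832)))
(L (nat_lit 31047009)))
(L (nat_lit 28891427))))
(L (nat_lit 27839812)))
(L (nat_lit 20286969)))
(L (nat_lit 13523173)))
(L (nat_lit 26563598)))
(L (nat_lit 24028709)))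
(L (nat_lit 18788001)))
(L (nat_lit 5460475)))
(L (nat_lit 802130)))
(L (nat_lit 27863182)))
(L (nat_lit 27890055)))
(L (nat_lit 24135466)))
(L (nat_lit 13328423)))
(L (nat_lit 20758757)))
(L (nat_lit 23471972)))
(L (nat_lit 9307669)))
(L (nat_lit 30838101)))
(L (nat_lit 25212550)))))
(S (nat_lit 39559) (S (nat_lit 1246) (L (nat_lit 830933))
(S (nat_lit 21010) (S (nat_lit 37302) (L (nat_lit 422101))
(L (nat_lit 30483925)))
(S (nat_lit 40774) (L (nat_lit 2454997))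
(L (nat_lit 25633441)))))
(L (nat_lit 25479278)))))
(L (nat_lit 25644198)))))
(S (nat_lit 21739) (S (nat_lit 997) (S (nat_lit 1003) (S (nat_lit 21386) (S (nat_lit 37302) (L (nat_lit 19150752))
(L (nat_lit 14440801)))
(S (nat_lit 54912) (S (nat_lit 57066) (L (nat_lit 13543604))
(L (nat_lit 19329158)))
(L (nat_lit 19249025))))
(S (nat_lit 20767) (S (nat_lit 1868) (L (nat_lit 26299598))
(S (nat_lit 37302) (S (nat_lit 27518) (L (nat_lit 26980704))
(S (nat_lit 35073) (S (nat_lit 19795) (S (nat_lit 41229) (S (nat_lit 25) (S (nat_lit 40790) (S (nat_lit 50477) (S (nat_lit 15384) (S (nat_lit 57099) (S (nat_lit 32485) (S (nat_lit 20979) (S (nat_lit 57088) (S (nat_lit 40562) (S (nat_lit 36276) (S (nat_lit 17521) (S (nat_lit 36265) (S (nat_lit 54534) (S (nat_lit 9691) (S (nat_lit 5506) (D (nat_lit 15) (nat_lit 28825737) (nat_lit 19664140) (nat_lit 42010187971))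
(L (nat_lit 29045024)))
(L (nat_lit 31014115)))
(S (nat_lit 57680) (S (nat_lit 53339) (S (nat_lit 49154) (D (nat_lit 15) (nat_lit 27777316) (nat_lit 19063052) (nat_lit 38894870786))
(L (nat_lit 28951561)))
(L (nat_lit 20421509)))
(L (nat_lit 26910860))))
(L (nat_lit 22455201)))
(L (nat_lit 831056)))
(L (nat_lit 24142062)))
(L (nat_lit 16829193)))
(L (nat_lit 13241193)))
(L (nat_lit 7157317)))
(L (nat_lit 20423869)))
(L (nat_lit 12733318)))
(L (nat_lit 6738008)))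
(L (nat_lit 20443210)))
(L (nat_lit 2475959)))
(L (nat_lit 618831)))
(L (nat_lit 4114797)))
(L (nat_lit 30683221)))
(L (nat_lit 8417749))))
(L (nat_lit 9194945))))
(S (nat_lit 40531) (S (nat_lit 1763) (S (nat_lit 51359) (L (nat_lit 5974925))
(L (nat_lit 14586439)))
(S (nat_lit 21527) (S (nat_lit 30741) (S (nat_lit 40562) (L (nat_lit 28652662))
(L (nat_lit 27512353)))
(L (nat_lit 9352801)))
(S (nat_lit 41291) (S (nat_lit 40818) (S (nat_lit 15351) (S (nat_lit 35135) (L (nat_lit 19439396))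
(L (nat_lit 3596074)))
(L (nat_lit 24677752)))
(L (nat_lit 24668202)))
(L (nat_lit 25218256)))))
(L (nat_lit 25178325)))))
(S (nat_lit 20761) (S (nat_lit 31) (S (nat_lit 1701) (S (nat_lit 41254) (S (nat_lit 1732) (S (nat_lit 986) (S (nat_lit 57066) (S (nat_lit 21043) (S (nat_lit 40500) (S (nat_lit 50477) (S (nat_lit 41486) (S (nat_lit 30730) (S (nat_lit 39553) (S (nat_lit 57088) (S (nat_lit 54899) (S (nat_lit 40818) (S (nat_lit 5443) (S (nat_lit 8790) (S (nat_lit 39575) (S (nat_lit 23821) (S (nat_lit 1848) (S (nat_lit 18847) (S (nat_lit 29717) (S (nat_lit 11794) (S (nat_lit 43270) (D (nat_lit 13) (nat_lit 30016719) (nat_lit 12706098) (nat_lit 139626450182))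
(L (nat_lit 14975828)))
(L (nat_lit 27867331)))
(L (nat_lit 15583303)))
(L (nat_lit 28910116)))
(S (nat_lit 22841) (S (nat_lit 17900) (S (nat_lit 36764) (D (nat_lit 15) (nat_lit 27870564) (nat_lit 25761192) (nat_lit 206264541442))
(L (nat_lit 10341857)))
(L (nat_lit 28913987)))
(L (nat_lit 16487673))))
(L (nat_lit 3797201)))
(L (nat_lit 6084849)))
(L (nat_lit 26289774)))
(L (nat_lit 5839323)))
(L (nat_lit 24913349)))
(L (nat_lit 19219204)))
(L (nat_lit 19277667)))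
(L (nat_lit 11952277)))
(L (nat_lit 3692856)))
(L (nat_lit 27696183)))
(L (nat_lit 5097742)))
(L (nat_lit 3559274)))
(L (nat_lit 21796975)))
(L (nat_lit 12671815)))
(L (nat_lit 19676513)))
(L (nat_lit 2958805)))
(L (nat_lit 8806517)))
(S (nat_lit 36185) (L (nat_lit 19104686))
(L (nat_lit 19304825))))
(S (nat_lit 19795) (S (nat_lit 10960) (S (nat_lit 17558) (L (nat_lit 1914165))
(S (nat_lit 41404) (L (nat_lit 11012021))
(L (nat_lit 22971726))))
(S (nat_lit 30724) (S (nat_lit 41254) (S (nat_lit 41293) (L (nat_lit 8441337))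
(L (nat_lit 24699978)))
(L (nat_lit 9342517)))
(S (nat_lit 50488) (S (nat_lit 57086) (L (nat_lit 11273748))
(L (nat_lit 27925646)))
(L (nat_lit 25209520)))))
(S (nat_lit 39559) (S (nat_lit 28512) (S (nat_lit 10935) (S (nat_lit 15309) (S (nat_lit 57088) (L (nat_lit 29445328))
(L (nat_lit 15469814)))
(L (nat_lit 17532153)))
(S (nat_lit 37496) (L (nat_lit 12359342))
(L (nat_lit 18482425))))
(L (nat_lit 19727598)))
(L (nat_lit 25854222)))))
(S (nat_lit 40525) (S (nat_lit 47) (S (nat_lit 1240) (S (nat_lit 21783) (S (nat_lit 30741) (S (nat_lit 40562) (S (nat_lit 54868) (S (nat_lit 28512) (S (nat_lit 1715) (S (nat_lit 15309) (S (nat_lit 17521) (S (nat_lit 50494) (S (nat_lit 21465) (S (nat_lit 20993) (S (nat_lit 19789) (S (nat_lit 28945) (S (nat_lit 41693) (S (nat_lit 13706) (S (nat_lit 25956) (S (nat_lit 52555) (S (nat_lit 48024) (S (nat_lit 52385) (D (nat_lit 13) (nat_lit 26817893) (nat_lit 19273912) (nat_lit 2357465255))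
(L (nat_lit 24605922)))
(L (nat_lit 24649917)))
(L (nat_lit 28844738)))
(L (nat_lit 29016418)))
(L (nat_lit 29014370)))
(S (nat_lit 53538) (S (nat_lit 6751) (S (nat_lit 55714) (S (nat_lit 11136) (S (nat_lit 3570) (D (nat_lit 13) (nat_lit 30999789) (nat_lit 25762927) (nat_lit 4435661135976))
(L (nat_lit 29904101)))
(L (nat_lit 30706415)))
(L (nat_lit 28984491)))
(L (nat_lit 30922978)))
(L (nat_lit 22823204))))
(L (nat_lit 17569481)))
(L (nat_lit 30610127)))
(L (nat_lit 16012194)))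
(L (nat_lit 7976834)))
(L (nat_lit 11620793)))
(L (nat_lit 24909168)))
(L (nat_lit 24667142)))
(L (nat_lit 18955078)))
(L (nat_lit 19727598)))
(L (nat_lit 19000620)))
(L (nat_lit 17943800)))
(L (nat_lit 19150625)))
(L (nat_lit 1890795)))
(S (nat_lit 37400) (L (nat_lit 12337205))
(L (nat_lit 5665483))))
(S (nat_lit 19811) (S (nat_lit 8823) (S (nat_lit 15309) (S (nat_lit 39559) (S (nat_lit 39553) (L (nat_lit 15295717))
(L (nat_lit 5156373)))
(L (nat_lit 24381230)))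
(S (nat_lit 54676) (L (nat_lit 30594570))
(L (nat_lit 24583225))))
(S (nat_lit 28587) (S (nat_lit 37307) (S (nat_lit 10977) (S (nat_lit 41271) (L (nat_lit 8866876))
(L (nat_lit 9223876)))
(L (nat_lit 767910)))
(L (nat_lit 9015867)))
(S (nat_lit 48351) (S (nat_lit 30763) (S (nat_lit 37307) (S (nat_lit 972) (L (nat_lit 13787477))
(L (nat_lit 26645066)))
(L (nat_lit 23597273)))
(L (nat_lit 30805239)))
(L (nat_lit 25678918)))))
(S (nat_lit 39575) (S (nat_lit 15309) (S (nat_lit 17543) (S (nat_lit 10935) (L (nat_lit 20721893))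
(L (nat_lit 26269937)))
(L (nat_lit 24193804)))
(S (nat_lit 48023) (S (nat_lit 40768) (L (nat_lit 24231224))
(L (nat_lit 16967925)))
(L (nat_lit 24667142))))
(L (nat_lit 25242192)))))
(L (nat_lit 25444404)))))
(S (nat_lit 41503) (S (nat_lit 1715) (S (nat_lit 1776) (S (nat_lit 30741) (S (nat_lit 1003) (S (nat_lit 28576) (S (nat_lit 986) (S (nat_lit 41472) (S (nat_lit 30724) (S (nat_lit 8661) (L (nat_lit 7214769))
(L (nat_lit 25037259)))
(L (nat_lit 10120642)))
(L (nat_lit 24519869)))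
(L (nat_lit 20721089)))
(L (nat_lit 24260861)))
(S (nat_lit 14287) (S (nat_lit 28512) (S (nat_lit 41472) (S (nat_lit 41486) (S (nat_lit 41547) (S (nat_lit 14331) (S (nat_lit 30763) (S (nat_lit 1229) (S (nat_lit 57099) (S (nat_lit 54868) (S (nat_lit 14) (S (nat_lit 28543) (S (nat_lit 1701) (S (nat_lit 20778) (S (nat_lit 20811) (S (nat_lit 8617) (S (nat_lit 21378) (S (nat_lit 14686) (S (nat_lit 37955) (S (nat_lit 58233) (S (nat_lit 21345) (S (nat_lit 50849) (D (nat_lit 13) (nat_lit 3953096) (nat_lit 25761158) (nat_lit 6600366660744))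
(L (nat_lit 16587426)))
(L (nat_lit 24583324)))
(L (nat_lit 29826199)))
(L (nat_lit 27795108)))
(L (nat_lit 27967682)))
(S (nat_lit 35299) (S (nat_lit 13753) (S (nat_lit 49603) (S (nat_lit 27523) (S (nat_lit 56519) (D (nat_lit 15) (nat_lit 17918632) (nat_lit 18014450) (nat_lit 2217806979))
(L (nat_lit 29875457)))
(L (nat_lit 27966721)))
(L (nat_lit 21900674)))
(L (nat_lit 27927940)))
(L (nat_lit 17619168))))
(L (nat_lit 15294785)))
(L (nat_lit 22846636)))
(L (nat_lit 22984932)))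
(L (nat_lit 10040098)))
(L (nat_lit 2906665)))
(L (nat_lit 20146661)))
(L (nat_lit 16024371)))
(L (nat_lit 4797223)))
(L (nat_lit 11294176)))
(L (nat_lit 2471645)))
(L (nat_lit 17090585)))
(L (nat_lit 17063987)))
(L (nat_lit 8513201)))
(L (nat_lit 24519869)))
(L (nat_lit 30939777)))
(L (nat_lit 19046906))))
(S (nat_lit 37383) (S (nat_lit 37302) (L (nat_lit 10240673))
(L (nat_lit 2543463)))
(L (nat_lit 19838118))))
(S (nat_lit 21540) (S (nat_lit 1047) (S (nat_lit 57071) (S (nat_lit 37260) (L (nat_lit 28841203))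
(L (nat_lit 19984623)))
(L (nat_lit 19708132)))
(S (nat_lit 20811) (S (nat_lit 30746) (S (nat_lit 40807) (S (nat_lit 28574) (S (nat_lit 40774) (S (nat_lit 42) (L (nat_lit 20788452))
(L (nat_lit 19000653)))
(L (nat_lit 24256985)))
(L (nat_lit 9290404)))
(L (nat_lit 24645913)))
(L (nat_lit 9987091)))
(S (nat_lit 40575) (S (nat_lit 33493) (L (nat_lit 19309477))
(S (nat_lit 40500) (S (nat_lit 30746) (S (nat_lit 15371) (L (nat_lit 26384851))
(L (nat_lit 17162148)))
(L (nat_lit 2647691)))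
(L (nat_lit 17059748))))
(L (nat_lit 25280883)))))
(S (nat_lit 41304) (S (nat_lit 31) (S (nat_lit 30659) (L (nat_lit 6867780))
(S (nat_lit 35087) (S (nat_lit 37285) (L (nat_lit 2307922))
(L (nat_lit 3844909)))
(L (nat_lit 18582282))))
(S (nat_lit 19795) (S (nat_lit 581) (L (nat_lit 27645380))
(S (nat_lit 1229) (S (nat_lit 37302) (S (nat_lit 19828) (S (nat_lit 30746) (S (nat_lit 37307) (L (nat_lit 28742899))
(L (nat_lit 2649771)))
(L (nat_lit 2698809)))
(L (nat_lit 2937071)))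
(L (nat_lit 30529991)))
(L (nat_lit 8501948))))
(S (nat_lit 39559) (S (nat_lit 1893) (S (nat_lit 30746) (L (nat_lit 24679674))
(L (nat_lit 8938515)))
(S (nat_lit 41260) (S (nat_lit 40531) (S (nat_lit 30746) (S (nat_lit 28574) (L (nat_lit 19829103))
(L (nat_lit 18010922)))
(L (nat_lit 16870643)))
(L (nat_lit 7531988)))
(L (nat_lit 3487417))))
(L (nat_lit 25624852)))))
(L (nat_lit 25445028)))))
(S (nat_lit 21479) (S (nat_lit 17510) (S (nat_lit 40774) (S (nat_lit 39575) (S (nat_lit 28526) (S (nat_lit 40768) (S (nat_lit 40500) (S (nat_lit 17543) (S (nat_lit 33466) (S (nat_lit 2006) (S (nat_lit 35148) (S (nat_lit 997) (S (nat_lit 39542) (S (nat_lit 42) (S (nat_lit 35115) (S (nat_lit 75) (S (nat_lit 37302) (S (nat_lit 1036) (S (nat_lit 37335) (S (nat_lit 26563) (S (nat_lit 21429) (S (nat_lit 17364) (S (nat_lit 18822) (S (nat_lit 31169) (D (nat_lit 11) (nat_lit 30061671) (nat_lit 19672240) (nat_lit 71109253254))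
(L (nat_lit 27730560)))
(L (nat_lit 27994629)))
(L (nat_lit 28000581)))
(S (nat_lit 57166) (S (nat_lit 10671) (S (nat_lit 12129) (S (nat_lit 17897) (D (nat_lit 11) (nat_lit 26980704) (nat_lit 19672238) (nat_lit 242224323))
(L (nat_lit 28979210)))
(L (nat_lit 30824676)))
(L (nat_lit 30855364)))
(L (nat_lit 2907529))))
(L (nat_lit 6844133)))
(L (nat_lit 23258631)))
(L (nat_lit 2660986)))
(L (nat_lit 17747079)))
(L (nat_lit 19428422)))
(L (nat_lit 2674471)))
(L (nat_lit 19184545)))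
(L (nat_lit 27508388)))
(L (nat_lit 2716974)))
(L (nat_lit 2763534)))
(L (nat_lit 19805256)))
(L (nat_lit 16999108)))
(L (nat_lit 24554525)))
(L (nat_lit 23210395)))
(L (nat_lit 18473249)))
(L (nat_lit 17877305)))
(L (nat_lit 25045380)))
(L (nat_lit 24950116)))
(S (nat_lit 37274) (S (nat_lit 75) (S (nat_lit 28526) (S (nat_lit 40785) (S (nat_lit 37307) (S (nat_lit 30713) (S (nat_lit 35087) (S (nat_lit 40807) (S (nat_lit 1356) (L (nat_lit 9986626))
(L (nat_lit 28855589)))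
(L (nat_lit 27841702)))
(L (nat_lit 9155333)))
(L (nat_lit 24982603)))
(L (nat_lit 14586538)))
(L (nat_lit 3030323)))
(L (nat_lit 19809386)))
(S (nat_lit 19760) (S (nat_lit 28574) (L (nat_lit 6893595))
(L (nat_lit 18209572)))
(L (nat_lit 20256249))))
(S (nat_lit 57038) (S (nat_lit 1732) (S (nat_lit 1566) (L (nat_lit 5924076))
(S (nat_lit 28537) (S (nat_lit 35148) (S (nat_lit 57088) (L (nat_lit 9631219))
(L (nat_lit 27610125)))
(L (nat_lit 9278869)))
(L (nat_lit 3389048))))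
(S (nat_lit 21496) (S (nat_lit 40531) (S (nat_lit 47) (L (nat_lit 24974855))
(L (nat_lit 14325546)))
(L (nat_lit 25048070)))
(S (nat_lit 41260) (S (nat_lit 35115) (S (nat_lit 1014) (L (nat_lit 29992973))
(L (nat_lit 2610425)))
(L (nat_lit 17944359)))
(L (nat_lit 25667237)))))
(L (nat_lit 25215690)))))
(S (nat_lit 41243) (S (nat_lit 15371) (S (nat_lit 1290) (S (nat_lit 8773) (S (nat_lit 40757) (L (nat_lit 24544507))
(L (nat_lit 17425762)))
(L (nat_lit 7099874)))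
(S (nat_lit 21054) (S (nat_lit 39542) (S (nat_lit 39590) (L (nat_lit 2749898))
(L (nat_lit 17582250)))
(L (nat_lit 24536170)))
(S (nat_lit 40818) (S (nat_lit 37285) (S (nat_lit 35098) (L (nat_lit 2596505))
(L (nat_lit 18585385)))
(L (nat_lit 8414861)))
(L (nat_lit 25413283)))))
(S (nat_lit 35135) (S (nat_lit 10999) (S (nat_lit 37307) (S (nat_lit 15356) (L (nat_lit 18449659))
(L (nat_lit 26948837)))
(L (nat_lit 9190052)))
(S (nat_lit 30763) (S (nat_lit 28574) (S (nat_lit 35120) (L (nat_lit 31012065))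
(L (nat_lit 9848889)))
(S (nat_lit 56895) (L (nat_lit 24288047))
(L (nat_lit 18455707))))
(S (nat_lit 50527) (S (nat_lit 57088) (S (nat_lit 19826) (S (nat_lit 37307) (S (nat_lit 39592) (S (nat_lit 30746) (S (nat_lit 40531) (S (nat_lit 41161) (S (nat_lit 41276) (S (nat_lit 972) (S (nat_lit 1944) (S (nat_lit 30713) (S (nat_lit 2019) (S (nat_lit 10977) (S (nat_lit 8748) (S (nat_lit 17496) (S (nat_lit 20783) (S (nat_lit 1308) (S (nat_lit 26047) (S (nat_lit 4967) (S (nat_lit 6400) (S (nat_lit 33739) (S (nat_lit 45356) (S (nat_lit 46716) (D (nat_lit 13) (nat_lit 27853190) (nat_lit 19666342) (nat_lit 42043768936))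
(L (nat_lit 29008013)))
(L (nat_lit 21373733)))
(L (nat_lit 29048099)))
(L (nat_lit 28919137)))
(L (nat_lit 28914016)))
(S (nat_lit 54458) (S (nat_lit 34971) (S (nat_lit 28410) (S (nat_lit 24991) (S (nat_lit 54104) (S (nat_lit 44066) (D (nat_lit 11) (nat_lit 26811808) (nat_lit 25529933) (nat_lit 208479060224))
(L (nat_lit 21871809)))
(L (nat_lit 20456229)))
(L (nat_lit 28857635)))
(L (nat_lit 28946693)))
(L (nat_lit 28913923)))
(L (nat_lit 5938000))))
(L (nat_lit 21163373)))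
(L (nat_lit 16114838)))
(L (nat_lit 18604256)))
(L (nat_lit 23617542)))
(L (nat_lit 17910663)))
(L (nat_lit 20477157)))
(L (nat_lit 4011754)))
(L (nat_lit 10270309)))
(L (nat_lit 2372403)))
(L (nat_lit 1400688)))
(L (nat_lit 900341)))
(L (nat_lit 24130780)))
(L (nat_lit 17377337)))
(L (nat_lit 27442421)))
(L (nat_lit 3690745)))
(L (nat_lit 3525424)))
(L (nat_lit 19739875)))
(L (nat_lit 25627890)))))
(S (nat_lit 54899) (S (nat_lit 30746) (S (nat_lit 35120) (S (nat_lit 28574) (L (nat_lit 2449199))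
(L (nat_lit 17997499)))
(L (nat_lit 18552057)))
(L (nat_lit 8840243)))
(L (nat_lit 25336399)))))
(L (nat_lit 25770150)))))
(L (nat_lit 25834538)))))
(S (nat_lit 21041) (S (nat_lit 1765) (S (nat_lit 1986) (S (nat_lit 25) (S (nat_lit 10949) (S (nat_lit 35135) (S (nat_lit 1014) (S (nat_lit 48301) (L (nat_lit 12258744))
(L (nat_lit 13849785)))
(L (nat_lit 18889017)))
(L (nat_lit 30790799)))
(S (nat_lit 30713) (S (nat_lit 54837) (S (nat_lit 54862) (L (nat_lit 13708149))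
(L (nat_lit 19086521)))
(L (nat_lit 4441013)))
(S (nat_lit 50477) (S (nat_lit 35073) (S (nat_lit 54868) (L (nat_lit 1785738))
(L (nat_lit 4775193)))
(L (nat_lit 2343765)))
(L (nat_lit 25746506)))))
(S (nat_lit 19789) (S (nat_lit 8762) (S (nat_lit 39603) (S (nat_lit 28512) (S (nat_lit 21783) (S (nat_lit 47) (S (nat_lit 10935) (S (nat_lit 21722) (S (nat_lit 9888) (S (nat_lit 1748) (S (nat_lit 40542) (S (nat_lit 21527) (S (nat_lit 64) (S (nat_lit 54868) (S (nat_lit 50538) (S (nat_lit 15356) (S (nat_lit 49239) (S (nat_lit 39341) (S (nat_lit 44262) (S (nat_lit 34492) (S (nat_lit 16253) (S (nat_lit 4958) (S (nat_lit 36648) (S (nat_lit 16714) (D (nat_lit 13) (nat_lit 28030210) (nat_lit 1853830) (nat_lit 7725091045))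
(L (nat_lit 31146244)))
(L (nat_lit 29049865)))
(L (nat_lit 28823874)))
(L (nat_lit 31145188)))
(L (nat_lit 28982498)))
(S (nat_lit 46807) (S (nat_lit 35294) (S (nat_lit 6223) (D (nat_lit 15) (nat_lit 12938357) (nat_lit 19664296) (nat_lit 74323072135))
(L (nat_lit 28033253)))
(L (nat_lit 27920779)))
(L (nat_lit 15888998))))
(L (nat_lit 28513844)))
(L (nat_lit 29609476)))
(L (nat_lit 25013261)))
(L (nat_lit 13374023)))
(L (nat_lit 14556275)))
(L (nat_lit 13784315)))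
(L (nat_lit 5975577)))
(L (nat_lit 3816763)))
(L (nat_lit 19939644)))
(L (nat_lit 3690809)))
(L (nat_lit 31002865)))
(L (nat_lit 23299640)))
(L (nat_lit 19769764)))
(L (nat_lit 30426355)))
(L (nat_lit 18903278)))
(L (nat_lit 24685345)))
(S (nat_lit 28526) (S (nat_lit 21507) (S (nat_lit 1003) (S (nat_lit 41260) (S (nat_lit 35120) (L (nat_lit 10150927))
(L (nat_lit 10087437)))
(L (nat_lit 8416725)))
(L (nat_lit 13439349)))
(L (nat_lit 31079531)))
(S (nat_lit 48290) (S (nat_lit 35148) (L (nat_lit 30970474))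
(L (nat_lit 23964193)))
(L (nat_lit 25217418)))))
(S (nat_lit 39553) (S (nat_lit 21125) (S (nat_lit 44271) (L (nat_lit 16820085))
(L (nat_lit 18655411)))
(S (nat_lit 40807) (S (nat_lit 2019) (S (nat_lit 17521) (S (nat_lit 1290) (S (nat_lit 41503) (S (nat_lit 39603) (L (nat_lit 16930075))
(L (nat_lit 18551067)))
(L (nat_lit 503604)))
(L (nat_lit 13949765)))
(L (nat_lit 24361147)))
(S (nat_lit 21704) (L (nat_lit 24679773))
(L (nat_lit 3875289))))
(L (nat_lit 10206393))))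
(L (nat_lit 25615683)))))
(S (nat_lit 21750) (S (nat_lit 8810) (S (nat_lit 15356) (S (nat_lit 37307) (S (nat_lit 39542) (S (nat_lit 39603) (L (nat_lit 29408871))
(L (nat_lit 27830944)))
(L (nat_lit 17027973)))
(L (nat_lit 17093509)))
(L (nat_lit 17093413)))
(S (nat_lit 28574) (S (nat_lit 15351) (S (nat_lit 40564) (S (nat_lit 17571) (S (nat_lit 30713) (L (nat_lit 8442734))
(L (nat_lit 2958773)))
(L (nat_lit 7214517)))
(L (nat_lit 10173529)))
(S (nat_lit 35115) (S (nat_lit 19789) (S (nat_lit 37302) (S (nat_lit 37335) (L (nat_lit 8436316))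
(L (nat_lit 30593295)))
(L (nat_lit 30935413)))
(L (nat_lit 30426485)))
(S (nat_lit 54879) (S (nat_lit 19795) (S (nat_lit 57066) (L (nat_lit 12846933))
(L (nat_lit 14774613)))
(L (nat_lit 30520628)))
(L (nat_lit 25483680)))))
(S (nat_lit 48338) (S (nat_lit 37291) (S (nat_lit 54868) (S (nat_lit 50477) (S (nat_lit 35098) (S (nat_lit 986) (S (nat_lit 41260) (S (nat_lit 40757) (S (nat_lit 19795) (S (nat_lit 51564) (S (nat_lit 30763) (S (nat_lit 57099) (S (nat_lit 12299) (S (nat_lit 17224) (S (nat_lit 36767) (S (nat_lit 54884) (S (nat_lit 39590) (S (nat_lit 28554) (S (nat_lit 51553) (S (nat_lit 6467) (S (nat_lit 29958) (S (nat_lit 6453) (D (nat_lit 15) (nat_lit 27609600) (nat_lit 25759053) (nat_lit 211560898820))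
(L (nat_lit 29038057)))
(L (nat_lit 21868801)))
(S (nat_lit 41904) (S (nat_lit 3348) (S (nat_lit 57639) (D (nat_lit 15) (nat_lit 30689729) (nat_lit 25761036) (nat_lit 110662619272))
(L (nat_lit 28756160)))
(L (nat_lit 31074754)))
(L (nat_lit 21250205))))
(L (nat_lit 28859652)))
(L (nat_lit 19172144)))
(L (nat_lit 27820778)))
(L (nat_lit 27825898)))
(L (nat_lit 29406514)))
(L (nat_lit 29610400)))
(L (nat_lit 24374688)))
(L (nat_lit 13183777)))
(L (nat_lit 30785554)))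
(L (nat_lit 28759395)))
(L (nat_lit 9530031)))
(L (nat_lit 17945385)))
(L (nat_lit 9212591)))
(L (nat_lit 12866748)))
(L (nat_lit 30621251)))
(L (nat_lit 4944142)))
(L (nat_lit 27559315)))
(L (nat_lit 2891373)))
(L (nat_lit 25352618)))))
(S (nat_lit 41514) (S (nat_lit 10982) (S (nat_lit 39603) (S (nat_lit 35098) (S (nat_lit 17521) (S (nat_lit 41260) (S (nat_lit 37291) (S (nat_lit 8762) (S (nat_lit 40785) (S (nat_lit 39553) (S (nat_lit 40807) (S (nat_lit 40562) (S (nat_lit 21739) (S (nat_lit 19778) (S (nat_lit 21708) (S (nat_lit 35120) (S (nat_lit 2599) (S (nat_lit 2649) (S (nat_lit 44306) (S (nat_lit 21490) (S (nat_lit 2041) (S (nat_lit 4543) (S (nat_lit 30172) (S (nat_lit 55801) (S (nat_lit 23280) (D (nat_lit 13) (nat_lit 29953294) (nat_lit 19670127) (nat_lit 2206642243720))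
(L (nat_lit 14019269)))
(L (nat_lit 29963525)))
(L (nat_lit 15648938)))
(L (nat_lit 31037827)))
(S (nat_lit 35021) (S (nat_lit 6246) (S (nat_lit 52325) (S (nat_lit 58126) (S (nat_lit 41571) (D (nat_lit 13) (nat_lit 31048995) (nat_lit 25767089) (nat_lit 3509159202055))
(L (nat_lit 19098049)))
(L (nat_lit 16664929)))
(L (nat_lit 29005900)))
(L (nat_lit 30987556)))
(L (nat_lit 22330244))))
(L (nat_lit 31002154)))
(L (nat_lit 29075840)))
(L (nat_lit 24223598)))
(L (nat_lit 24940881)))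
(L (nat_lit 17949908)))
(L (nat_lit 15541363)))
(L (nat_lit 22067515)))
(L (nat_lit 30451188)))
(L (nat_lit 24163143)))
(L (nat_lit 2965067)))
(L (nat_lit 18420060)))
(L (nat_lit 3030259)))
(L (nat_lit 23086955)))
(L (nat_lit 30482029)))
(L (nat_lit 24131370)))
(L (nat_lit 18590594)))
(L (nat_lit 18590498)))
(L (nat_lit 28027360)))
(S (nat_lit 30746) (S (nat_lit 10977) (S (nat_lit 30730) (S (nat_lit 17521) (L (nat_lit 8934553))
(L (nat_lit 7049691)))
(L (nat_lit 3907341)))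
(S (nat_lit 30741) (S (nat_lit 41243) (S (nat_lit 57066) (L (nat_lit 28620949))
(L (nat_lit 19198095)))
(S (nat_lit 56892) (L (nat_lit 2411310))
(L (nat_lit 24190769))))
(S (nat_lit 50505) (S (nat_lit 35135) (S (nat_lit 39603) (L (nat_lit 9157721))
(L (nat_lit 24679207)))
(L (nat_lit 9229455)))
(L (nat_lit 25431510)))))
(S (nat_lit 50510) (S (nat_lit 54862) (S (nat_lit 49225) (L (nat_lit 27405008))
(S (nat_lit 50538) (S (nat_lit 54884) (S (nat_lit 28587) (S (nat_lit 40818) (L (nat_lit 24211978))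
(L (nat_lit 24699018)))
(L (nat_lit 13282049)))
(L (nat_lit 27666484)))
(L (nat_lit 13445856))))
(L (nat_lit 4958993)))
(L (nat_lit 25432629)))))
(L (nat_lit 25495276)))))
(S (nat_lit 21529) (S (nat_lit 8748) (S (nat_lit 17510) (S (nat_lit 12785) (L (nat_lit 22316601))
(S (nat_lit 40768) (S (nat_lit 1748) (S (nat_lit 37291) (S (nat_lit 17496) (S (nat_lit 10977) (S (nat_lit 41271) (L (nat_lit 28525587))
(L (nat_lit 9327140)))
(L (nat_lit 8208532)))
(L (nat_lit 22028081)))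
(L (nat_lit 3426013)))
(S (nat_lit 47684) (L (nat_lit 7133327))
(L (nat_lit 13457697))))
(L (nat_lit 16883541))))
(S (nat_lit 37274) (S (nat_lit 1246) (S (nat_lit 35135) (S (nat_lit 19826) (S (nat_lit 21527) (S (nat_lit 40531) (L (nat_lit 18173082))
(L (nat_lit 27271822)))
(L (nat_lit 30624289)))
(L (nat_lit 10334916)))
(L (nat_lit 10044260)))
(S (nat_lit 11030) (L (nat_lit 2644810))
(L (nat_lit 8884085))))
(S (nat_lit 57038) (S (nat_lit 20811) (S (nat_lit 17527) (S (nat_lit 21755) (S (nat_lit 21479) (S (nat_lit 15384) (S (nat_lit 8779) (S (nat_lit 54868) (S (nat_lit 41229) (S (nat_lit 15356) (S (nat_lit 19789) (S (nat_lit 17100) (S (nat_lit 12361) (S (nat_lit 31) (S (nat_lit 10949) (S (nat_lit 1257) (S (nat_lit 36912) (S (nat_lit 51602) (S (nat_lit 56449) (S (nat_lit 34968) (S (nat_lit 38806) (S (nat_lit 48007) (D (nat_lit 15) (nat_lit 27918856) (nat_lit 19063117) (nat_lit 39931907175))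
(L (nat_lit 29986218)))
(L (nat_lit 19741954)))
(S (nat_lit 49205) (S (nat_lit 57484) (S (nat_lit 24005) (D (nat_lit 15) (nat_lit 26876975) (nat_lit 25761194) (nat_lit 7687111720))
(L (nat_lit 16085111)))
(L (nat_lit 29967556)))
(L (nat_lit 18886106))))
(L (nat_lit 9551798)))
(L (nat_lit 4707207)))
(L (nat_lit 1891664)))
(L (nat_lit 13993688)))
(L (nat_lit 7026533)))
(L (nat_lit 498363)))
(L (nat_lit 22912513)))
(L (nat_lit 18144036)))
(L (nat_lit 30824617)))
(L (nat_lit 22147309)))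
(L (nat_lit 1946217)))
(L (nat_lit 15834934)))
(L (nat_lit 14975826)))
(L (nat_lit 7770841)))
(L (nat_lit 30482096)))
(L (nat_lit 14719579)))
(L (nat_lit 6415891)))
(S (nat_lit 44472) (S (nat_lit 33558) (L (nat_lit 23892426))
(L (nat_lit 779786)))
(L (nat_lit 30967434))))
(L (nat_lit 25208244)))))
(S (nat_lit 28512) (S (nat_lit 15371) (S (nat_lit 12250) (L (nat_lit 9142749))
(S (nat_lit 39590) (S (nat_lit 41243) (S (nat_lit 40575) (S (nat_lit 37302) (S (nat_lit 41519) (S (nat_lit 21750) (S (nat_lit 41260) (S (nat_lit 35137) (S (nat_lit 2583) (S (nat_lit 5078) (S (nat_lit 19795) (S (nat_lit 39570) (S (nat_lit 54912) (S (nat_lit 21512) (S (nat_lit 48290) (S (nat_lit 28576) (S (nat_lit 42905) (S (nat_lit 16434) (S (nat_lit 23848) (S (nat_lit 10541) (S (nat_lit 4483) (D (nat_lit 13) (nat_lit 27923879) (nat_lit 25765039) (nat_lit 6604860790849))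
(L (nat_lit 27933923)))
(L (nat_lit 27347398)))
(L (nat_lit 27674884)))
(L (nat_lit 27866372)))
(S (nat_lit 52343) (S (nat_lit 19621) (S (nat_lit 12331) (S (nat_lit 55220) (D (nat_lit 11) (nat_lit 31114434) (nat_lit 25544816) (nat_lit 106438953186))
(L (nat_lit 28907904)))
(L (nat_lit 30592550)))
(L (nat_lit 30591527)))
(L (nat_lit 29673920))))
(L (nat_lit 2933970)))
(L (nat_lit 22504740)))
(L (nat_lit 30656067)))
(L (nat_lit 16599111)))
(L (nat_lit 17920710)))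
(L (nat_lit 30513839)))
(L (nat_lit 13328554)))
(L (nat_lit 9138628)))
(L (nat_lit 8839190)))
(L (nat_lit 24940879)))
(L (nat_lit 4660988)))
(L (nat_lit 7111062)))
(L (nat_lit 31143046)))
(L (nat_lit 17565322)))
(L (nat_lit 27401872)))
(L (nat_lit 17505466))))
(S (nat_lit 35135) (S (nat_lit 8810) (S (nat_lit 40564) (S (nat_lit 40790) (S (nat_lit 39592) (S (nat_lit 39590) (L (nat_lit 16915037))
(L (nat_lit 17531722)))
(L (nat_lit 24978479)))
(L (nat_lit 27925920)))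
(L (nat_lit 27998347)))
(S (nat_lit 28574) (S (nat_lit 20761) (S (nat_lit 20783) (L (nat_lit 5021295))
(L (nat_lit 31104417)))
(L (nat_lit 31038511)))
(S (nat_lit 48338) (S (nat_lit 20783) (S (nat_lit 40790) (S (nat_lit 54868) (S (nat_lit 50494) (S (nat_lit 19826) (L (nat_lit 3681174))
(L (nat_lit 22552356)))
(L (nat_lit 19996089)))
(L (nat_lit 13704825)))
(L (nat_lit 662968)))
(L (nat_lit 662969)))
(L (nat_lit 25540755)))))
(S (nat_lit 54899) (S (nat_lit 1246) (S (nat_lit 35148) (S (nat_lit 37260) (L (nat_lit 10056097))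
(L (nat_lit 10370101)))
(L (nat_lit 8547950)))
(S (nat_lit 21010) (S (nat_lit 20811) (S (nat_lit 40790) (S (nat_lit 54837) (L (nat_lit 3397518))
(L (nat_lit 27310293)))
(L (nat_lit 27925920)))
(S (nat_lit 26965) (L (nat_lit 24190768))
(L (nat_lit 12117636))))
(S (nat_lit 40774) (S (nat_lit 20783) (S (nat_lit 41254) (L (nat_lit 28542485))
(L (nat_lit 9340654)))
(L (nat_lit 515417)))
(L (nat_lit 25375393)))))
(L (nat_lit 25311570)))))
(S (nat_lit 48276) (S (nat_lit 8812) (S (nat_lit 15323) (S (nat_lit 10960) (S (nat_lit 54868) (S (nat_lit 41260) (S (nat_lit 35148) (S (nat_lit 50505) (S (nat_lit 1240) (S (nat_lit 37285) (S (nat_lit 1034) (S (nat_lit 19839) (S (nat_lit 54884) (S (nat_lit 40500) (S (nat_lit 21708) (S (nat_lit 48290) (S (nat_lit 39559) (S (nat_lit 19681) (S (nat_lit 49155) (S (nat_lit 9842) (S (nat_lit 19826) (S (nat_lit 39171) (S (nat_lit 31519) (S (nat_lit 12623) (S (nat_lit 43312) (D (nat_lit 15) (nat_lit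 30787665) (nat_lit 25761100) (nat_lit 105467974817))
(L (nat_lit 29037098)))
(L (nat_lit 29990404)))
(S (nat_lit 54106) (S (nat_lit 16171) (S (nat_lit 25307) (D (nat_lit 15) (nat_lit 27576463) (nat_lit 25758989) (nat_lit 207403293922))
(L (nat_lit 19842272)))
(L (nat_lit 28941731)))
(L (nat_lit 20486979))))
(L (nat_lit 29904937)))
(L (nat_lit 15429957)))
(L (nat_lit 29065423)))
(L (nat_lit 14804278)))
(L (nat_lit 684304)))
(L (nat_lit 16850741)))
(L (nat_lit 27478405)))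
(L (nat_lit 8197709)))
(L (nat_lit 7425901)))
(L (nat_lit 4762296)))
(L (nat_lit 30976673)))
(L (nat_lit 20491137)))
(L (nat_lit 20134077)))
(L (nat_lit 26631179)))
(L (nat_lit 11036257)))
(L (nat_lit 18649365)))
(L (nat_lit 6769849)))
(L (nat_lit 21556329)))
(L (nat_lit 6320813)))
(L (nat_lit 1596266)))
(S (nat_lit 28576) (S (nat_lit 1215) (S (nat_lit 15767) (L (nat_lit 14534852))
(S (nat_lit 37322) (S (nat_lit 41271) (S (nat_lit 1701) (S (nat_lit 31) (L (nat_lit 2510173))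
(L (nat_lit 19161199)))
(L (nat_lit 12339586)))
(L (nat_lit 23895148)))
(L (nat_lit 30803530))))
(S (nat_lit 20979) (S (nat_lit 14270) (L (nat_lit 14521958))
(S (nat_lit 41260) (S (nat_lit 19839) (S (nat_lit 54899) (L (nat_lit 13206347))
(L (nat_lit 19231887)))
(L (nat_lit 21808231)))
(L (nat_lit 3976660))))
(S (nat_lit 40743) (S (nat_lit 35137) (S (nat_lit 37322) (S (nat_lit 41260) (L (nat_lit 28723429))
(L (nat_lit 18156341)))
(L (nat_lit 2997618)))
(L (nat_lit 10341826)))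
(L (nat_lit 25796781)))))
(S (nat_lit 48340) (S (nat_lit 17571) (S (nat_lit 20783) (S (nat_lit 40790) (S (nat_lit 21527) (S (nat_lit 10966) (L (nat_lit 5564145))
(L (nat_lit 905736)))
(L (nat_lit 22554403)))
(L (nat_lit 27951495)))
(S (nat_lit 52733) (L (nat_lit 8291921))
(L (nat_lit 31104385))))
(S (nat_lit 37335) (S (nat_lit 31093) (L (nat_lit 13652285))
(S (nat_lit 35135) (S (nat_lit 19826) (S (nat_lit 17527) (L (nat_lit 7192261))
(L (nat_lit 1678875)))
(L (nat_lit 22191643)))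
(L (nat_lit 20284269))))
(S (nat_lit 57099) (S (nat_lit 21733) (S (nat_lit 40790) (S (nat_lit 1229) (L (nat_lit 5160309))
(L (nat_lit 6083015)))
(L (nat_lit 27953575)))
(L (nat_lit 22872615)))
(L (nat_lit 25577575)))))
(L (nat_lit 25496273)))))
(L (nat_lit 25415694)))))
(S (nat_lit 41293) (S (nat_lit 8779) (S (nat_lit 14) (S (nat_lit 17571) (S (nat_lit 15309) (S (nat_lit 8823) (S (nat_lit 20783) (L (nat_lit 16975453))
(L (nat_lit 20997511)))
(L (nat_lit 389872)))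
(S (nat_lit 34994) (L (nat_lit 6305652))
(L (nat_lit 8110105))))
(S (nat_lit 36672) (L (nat_lit 7006256))
(L (nat_lit 6962017))))
(S (nat_lit 19778) (S (nat_lit 1440) (S (nat_lit 21512) (S (nat_lit 21755) (L (nat_lit 5558685))
(L (nat_lit 31070592)))
(L (nat_lit 30655639)))
(S (nat_lit 40807) (S (nat_lit 39592) (S (nat_lit 37307) (S (nat_lit 1701) (L (nat_lit 15816554))
(L (nat_lit 19673227)))
(L (nat_lit 2380684)))
(L (nat_lit 27611522)))
(L (nat_lit 24131929))))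
(S (nat_lit 39542) (S (nat_lit 1944) (S (nat_lit 40818) (S (nat_lit 40575) (S (nat_lit 15371) (S (nat_lit 75) (L (nat_lit 28912813))
(L (nat_lit 19409017)))
(L (nat_lit 15295626)))
(L (nat_lit 16834931)))
(L (nat_lit 17498922)))
(S (nat_lit 21708) (S (nat_lit 29180) (L (nat_lit 1664427))
(S (nat_lit 40818) (S (nat_lit 15371) (S (nat_lit 41497) (S (nat_lit 10999) (S (nat_lit 28526) (S (nat_lit 15356) (S (nat_lit 28574) (S (nat_lit 37260) (S (nat_lit 1003) (S (nat_lit 57049) (S (nat_lit 48276) (S (nat_lit 21507) (S (nat_lit 39575) (S (nat_lit 20993) (S (nat_lit 14685) (S (nat_lit 54862) (S (nat_lit 19789) (S (nat_lit 1199) (S (nat_lit 56420) (S (nat_lit 58850) (S (nat_lit 12631) (D (nat_lit 11) (nat_lit 31045771) (nat_lit 25767427) (nat_lit 106438959144))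
(L (nat_lit 29827191)))
(L (nat_lit 4086214)))
(L (nat_lit 15620353)))
(S (nat_lit 32848) (S (nat_lit 38094) (S (nat_lit 49475) (S (nat_lit 9942) (D (nat_lit 11) (nat_lit 5101900) (nat_lit 2893266) (nat_lit 206366087332))
(L (nat_lit 31113506)))
(L (nat_lit 24417133)))
(L (nat_lit 29014305)))
(L (nat_lit 24231721))))
(L (nat_lit 31003177)))
(L (nat_lit 18888057)))
(L (nat_lit 15750059)))
(L (nat_lit 30840886)))
(L (nat_lit 23349093)))
(L (nat_lit 16679657)))
(L (nat_lit 14354279)))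
(L (nat_lit 21205401)))
(L (nat_lit 2778571)))
(L (nat_lit 19952103)))
(L (nat_lit 30790117)))
(L (nat_lit 14799659)))
(L (nat_lit 2311955)))
(L (nat_lit 21925353)))
(L (nat_lit 17367257)))
(L (nat_lit 15277957)))
(L (nat_lit 16785299))))
(S (nat_lit 41472) (S (nat_lit 40757) (S (nat_lit 17521) (S (nat_lit 40818) (L (nat_lit 27830358))
(L (nat_lit 17901363)))
(L (nat_lit 6984091)))
(L (nat_lit 16901494)))
(L (nat_lit 25769065)))))
(L (nat_lit 25804069)))))
(S (nat_lit 28543) (S (nat_lit 11010) (S (nat_lit 23044) (L (nat_lit 24223260))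
(S (nat_lit 40564) (S (nat_lit 40807) (S (nat_lit 17543) (S (nat_lit 35120) (L (nat_lit 29922891))
(L (nat_lit 9179887)))
(L (nat_lit 17952980)))
(L (nat_lit 27284815)))
(L (nat_lit 3953030))))
(S (nat_lit 30774) (S (nat_lit 1748) (S (nat_lit 35186) (L (nat_lit 18880923))
(S (nat_lit 57038) (S (nat_lit 1986) (S (nat_lit 14) (L (nat_lit 19117149))
(L (nat_lit 19130448)))
(L (nat_lit 19733581)))
(L (nat_lit 19460389))))
(S (nat_lit 21512) (S (nat_lit 40768) (S (nat_lit 75) (S (nat_lit 37322) (L (nat_lit 3357274))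
(L (nat_lit 10043236)))
(L (nat_lit 19403065)))
(L (nat_lit 25085220)))
(S (nat_lit 41276) (S (nat_lit 11036) (L (nat_lit 2615016))
(S (nat_lit 41271) (S (nat_lit 41304) (S (nat_lit 21043) (S (nat_lit 20783) (S (nat_lit 14) (S (nat_lit 41534) (S (nat_lit 41291) (S (nat_lit 20767) (S (nat_lit 41472) (S (nat_lit 27149) (S (nat_lit 54868) (S (nat_lit 54879) (S (nat_lit 28512) (S (nat_lit 28537) (S (nat_lit 30699) (S (nat_lit 30724) (S (nat_lit 20800) (S (nat_lit 31) (S (nat_lit 42) (S (nat_lit 20736) (S (nat_lit 20750) (S (nat_lit 39366) (S (nat_lit 32020) (S (nat_lit 29590) (S (nat_lit 35735) (D (nat_lit 11) (nat_lit 18697570) (nat_lit 25765317) (nat_lit 206296944804))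
(L (nat_lit 14705255)))
(L (nat_lit 28980453)))
(L (nat_lit 28979428)))
(S (nat_lit 56521) (S (nat_lit 51821) (S (nat_lit 58719) (S (nat_lit 56775) (D (nat_lit 11) (nat_lit 9261504) (nat_lit 25767429) (nat_lit 103217832168))
(L (nat_lit 29859893)))
(L (nat_lit 30027945)))
(L (nat_lit 21833093)))
(L (nat_lit 7786400))))
(L (nat_lit 12406960)))
(L (nat_lit 12400228)))
(L (nat_lit 19375257)))
(L (nat_lit 19390754)))
(L (nat_lit 30725504)))
(L (nat_lit 13850466)))
(L (nat_lit 13855360)))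
(L (nat_lit 3813164)))
(L (nat_lit 2767100)))
(L (nat_lit 27828405)))
(L (nat_lit 27827286)))
(L (nat_lit 10173188)))
(L (nat_lit 27666021)))
(L (nat_lit 30624782)))
(L (nat_lit 9245239)))
(L (nat_lit 23867400)))
(L (nat_lit 18916208)))
(L (nat_lit 31065479)))
(L (nat_lit 31131014)))
(L (nat_lit 8444411)))
(L (nat_lit 24132363))))
(L (nat_lit 25822576)))))
(S (nat_lit 50538) (S (nat_lit 47) (S (nat_lit 57066) (S (nat_lit 30746) (L (nat_lit 28387918))
(L (nat_lit 19142201)))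
(L (nat_lit 27548033)))
(S (nat_lit 19811) (S (nat_lit 37302) (S (nat_lit 972) (S (nat_lit 1215) (S (nat_lit 1726) (L (nat_lit 16969287))
(L (nat_lit 19666990)))
(L (nat_lit 3746201)))
(L (nat_lit 2697657)))
(L (nat_lit 3463642)))
(S (nat_lit 39575) (S (nat_lit 40660) (L (nat_lit 14490739))
(S (nat_lit 54868) (S (nat_lit 40743) (S (nat_lit 25) (L (nat_lit 29765187))
(L (nat_lit 19666286)))
(L (nat_lit 17943402)))
(L (nat_lit 5823801))))
(L (nat_lit 25451569)))))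
(L (nat_lit 25531926)))))
(S (nat_lit 48307) (S (nat_lit 54868) (S (nat_lit 1034) (S (nat_lit 75) (S (nat_lit 39592) (S (nat_lit 21527) (L (nat_lit 12118593))
(L (nat_lit 30975683)))
(L (nat_lit 27828245)))
(S (nat_lit 40731) (L (nat_lit 11071168))
(L (nat_lit 1798444))))
(S (nat_lit 20798) (S (nat_lit 15356) (S (nat_lit 10999) (S (nat_lit 75) (S (nat_lit 57055) (S (nat_lit 41260) (S (nat_lit 41503) (L (nat_lit 20783149))
(L (nat_lit 24941903)))
(L (nat_lit 24940879)))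
(L (nat_lit 11615964)))
(L (nat_lit 19442528)))
(L (nat_lit 636155)))
(S (nat_lit 35120) (S (nat_lit 37322) (S (nat_lit 35736) (L (nat_lit 18551659))
(S (nat_lit 41503) (S (nat_lit 41260) (S (nat_lit 57055) (S (nat_lit 50494) (S (nat_lit 57088) (S (nat_lit 50527) (S (nat_lit 50488) (S (nat_lit 40531) (S (nat_lit 1014) (S (nat_lit 1257) (S (nat_lit 21755) (S (nat_lit 972) (S (nat_lit 1701) (S (nat_lit 41254) (S (nat_lit 39524) (S (nat_lit 17538) (S (nat_lit 33253) (S (nat_lit 6917) (S (nat_lit 5939) (S (nat_lit 3023) (S (nat_lit 22380) (S (nat_lit 33597) (D (nat_lit 9) (nat_lit 27864237) (nat_lit 25767333) (nat_lit 172000058472))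
(L (nat_lit 13474529)))
(L (nat_lit 19096995)))
(L (nat_lit 28914981)))
(L (nat_lit 28913925)))
(L (nat_lit 28913923)))
(S (nat_lit 44286) (S (nat_lit 4967) (S (nat_lit 23352) (S (nat_lit 24810) (S (nat_lit 7403) (S (nat_lit 33111) (D (nat_lit 9) (nat_lit 27863184) (nat_lit 25765285) (nat_lit 37785608199))
(L (nat_lit 13476580)))
(L (nat_lit 28913737)))
(L (nat_lit 19162496)))
(L (nat_lit 19358912)))
(L (nat_lit 28914016)))
(L (nat_lit 28775763))))
(L (nat_lit 26479061)))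
(L (nat_lit 2829104)))
(L (nat_lit 17401052)))
(L (nat_lit 19247906)))
(L (nat_lit 2700072)))
(L (nat_lit 1729958)))
(L (nat_lit 4046066)))
(L (nat_lit 2997491)))
(L (nat_lit 17834900)))
(L (nat_lit 27273840)))
(L (nat_lit 12936242)))
(L (nat_lit 12936243)))
(L (nat_lit 28017965)))
(L (nat_lit 27985200)))
(L (nat_lit 23409440)))
(L (nat_lit 24458017))))
(L (nat_lit 9854757)))
(S (nat_lit 54884) (S (nat_lit 41260) (S (nat_lit 41503) (S (nat_lit 30724) (L (nat_lit 28645039))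
(L (nat_lit 8950642)))
(L (nat_lit 9213615)))
(L (nat_lit 9212591)))
(L (nat_lit 25474789)))))
(S (nat_lit 40562) (L (nat_lit 4779316))
(L (nat_lit 25212151)))))
(L (nat_lit 27893122)))
(L (nat_lit 25757064)))))
(L (nat_lit 25695850)))))
(S (nat_lit 40805) (S (nat_lit 1715) (S (nat_lit 15384) (S (nat_lit 40564) (S (nat_lit 37307) (S (nat_lit 1047) (S (nat_lit 15309) (S (nat_lit 19811) (S (nat_lit 41497) (S (nat_lit 39553) (S (nat_lit 30746) (S (nat_lit 8790) (S (nat_lit 17538) (S (nat_lit 19778) (S (nat_lit 48340) (S (nat_lit 2019) (S (nat_lit 57049) (S (nat_lit 48301) (S (nat_lit 1794) (S (nat_lit 1014) (S (nat_lit 20942) (S (nat_lit 33564) (S (nat_lit 42122) (S (nat_lit 6442) (S (nat_lit 4255) (S (nat_lit 5945) (S (nat_lit 14059) (S (nat_lit 33951) (D (nat_lit 11) (nat_lit 26878092) (nat_lit 18984717) (nat_lit 143015379136))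
(L (nat_lit 19732492)))
(L (nat_lit 30000139)))
(L (nat_lit 27799173)))
(L (nat_lit 29007329)))
(L (nat_lit 29007297)))
(L (nat_lit 22919392)))
(S (nat_lit 46571) (S (nat_lit 44738) (S (nat_lit 7255) (S (nat_lit 22662) (S (nat_lit 42551) (S (nat_lit 8132) (D (nat_lit 11) (nat_lit 30059695) (nat_lit 19048204) (nat_lit 3394439298))
(L (nat_lit 27865316)))
(L (nat_lit 28914913)))
(L (nat_lit 19771713)))
(L (nat_lit 31016161)))
(L (nat_lit 28913889)))
(L (nat_lit 29742560))))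
(L (nat_lit 14603271)))
(L (nat_lit 20775212)))
(L (nat_lit 28944397)))
(L (nat_lit 13651324)))
(L (nat_lit 18887036)))
(L (nat_lit 26968523)))
(L (nat_lit 27609100)))
(L (nat_lit 10304164)))
(L (nat_lit 8088961)))
(L (nat_lit 7925345)))
(L (nat_lit 2905643)))
(L (nat_lit 23112249)))
(L (nat_lit 24517441)))
(L (nat_lit 30726161)))
(S (nat_lit 35019) (L (nat_lit 17391812))
(L (nat_lit 24903918))))
(S (nat_lit 20811) (S (nat_lit 11102) (L (nat_lit 12776693))
(S (nat_lit 21043) (S (nat_lit 39542) (S (nat_lit 40743) (S (nat_lit 17558) (S (nat_lit 50510) (S (nat_lit 52088) (S (nat_lit 57038) (S (nat_lit 31) (S (nat_lit 41254) (S (nat_lit 48318) (S (nat_lit 1262) (S (nat_lit 36426) (S (nat_lit 32357) (S (nat_lit 16676) (S (nat_lit 13983) (S (nat_lit 4221) (S (nat_lit 38703) (D (nat_lit 15) (nat_lit 27861440) (nat_lit 25761101) (nat_lit 210520710373))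
(L (nat_lit 27860481)))
(L (nat_lit 27870499)))
(S (nat_lit 28226) (S (nat_lit 29329) (S (nat_lit 44826) (D (nat_lit 15) (nat_lit 26876046) (nat_lit 25758988) (nat_lit 5609883716))
(L (nat_lit 17004228)))
(L (nat_lit 20840870)))
(L (nat_lit 27758901))))
(L (nat_lit 27562484)))
(L (nat_lit 29950502)))
(L (nat_lit 18966734)))
(L (nat_lit 14484071)))
(L (nat_lit 13756007)))
(L (nat_lit 24429376)))
(L (nat_lit 307867)))
(L (nat_lit 11063076)))
(L (nat_lit 26595502)))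
(L (nat_lit 11309774)))
(L (nat_lit 6709892)))
(L (nat_lit 27895980)))
(L (nat_lit 17749099)))
(L (nat_lit 30986500))))
(S (nat_lit 40575) (S (nat_lit 28543) (S (nat_lit 40807) (S (nat_lit 17496) (S (nat_lit 8748) (S (nat_lit 1944) (S (nat_lit 41304) (S (nat_lit 972) (S (nat_lit 30763) (S (nat_lit 1726) (S (nat_lit 1229) (S (nat_lit 1240) (S (nat_lit 41291) (S (nat_lit 30774) (S (nat_lit 14) (S (nat_lit 35073) (S (nat_lit 30815) (S (nat_lit 13839) (S (nat_lit 17928) (S (nat_lit 18171) (S (nat_lit 49663) (S (nat_lit 8135) (S (nat_lit 13828) (D (nat_lit 11) (nat_lit 25578689) (nat_lit 19674219) (nat_lit 176301375680))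
(L (nat_lit 29957601)))
(L (nat_lit 28901894)))
(L (nat_lit 19776866)))
(L (nat_lit 31046851)))
(L (nat_lit 31046850)))
(S (nat_lit 58368) (S (nat_lit 14087) (S (nat_lit 14816) (S (nat_lit 57693) (S (nat_lit 48637) (S (nat_lit 22364) (D (nat_lit 11) (nat_lit 29542922) (nat_lit 17391907) (nat_lit 108517261568))
(L (nat_lit 19074861)))
(L (nat_lit 28918952)))
(L (nat_lit 20880896)))
(L (nat_lit 31016229)))
(L (nat_lit 31016197)))
(L (nat_lit 12466263))))
(L (nat_lit 26974596)))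
(L (nat_lit 9241262)))
(L (nat_lit 8148081)))
(L (nat_lit 24276271)))
(L (nat_lit 24178182)))
(L (nat_lit 19296481)))
(L (nat_lit 19294247)))
(L (nat_lit 12677332)))
(L (nat_lit 2520274)))
(L (nat_lit 2700042)))
(L (nat_lit 16836947)))
(L (nat_lit 10085549)))
(L (nat_lit 17433382)))
(L (nat_lit 24609574)))
(L (nat_lit 10173561)))
(L (nat_lit 24232253)))
(L (nat_lit 25274028)))))
(L (nat_lit 9867961)))
(L (nat_lit 17585222)))
(S (nat_lit 35148) (S (nat_lit 37260) (S (nat_lit 39975) (S (nat_lit 19828) (L (nat_lit 23862720))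
(L (nat_lit 3985833)))
(S (nat_lit 40785) (S (nat_lit 19828) (S (nat_lit 37307) (S (nat_lit 35104) (L (nat_lit 8407482))
(L (nat_lit 17899283)))
(L (nat_lit 20191054)))
(L (nat_lit 21151560)))
(L (nat_lit 10278437))))
(L (nat_lit 3849436)))
(S (nat_lit 54912) (S (nat_lit 17538) (S (nat_lit 15356) (S (nat_lit 37307) (S (nat_lit 30741) (S (nat_lit 39559) (L (nat_lit 23148423))
(L (nat_lit 16850617)))
(L (nat_lit 17097377)))
(L (nat_lit 30485044)))
(S (nat_lit 35120) (S (nat_lit 30746) (S (nat_lit 19778) (S (nat_lit 37307) (S (nat_lit 1215) (L (nat_lit 3592007))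
(L (nat_lit 19148985)))
(L (nat_lit 23144953)))
(L (nat_lit 2965163)))
(L (nat_lit 24193529)))
(S (nat_lit 54884) (S (nat_lit 62) (S (nat_lit 41514) (L (nat_lit 18717718))
(L (nat_lit 502525)))
(L (nat_lit 8075140)))
(L (nat_lit 25278187)))))
(S (nat_lit 37302) (S (nat_lit 1701) (S (nat_lit 19795) (S (nat_lit 30741) (S (nat_lit 19811) (S (nat_lit 986) (L (nat_lit 3983750))
(L (nat_lit 10933436)))
(L (nat_lit 22113488)))
(L (nat_lit 17369895)))
(L (nat_lit 9522958)))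
(S (nat_lit 41121) (L (nat_lit 14552683))
(L (nat_lit 20721028))))
(S (nat_lit 57066) (S (nat_lit 4116) (S (nat_lit 19811) (L (nat_lit 224820))
(L (nat_lit 30484887)))
(S (nat_lit 37307) (S (nat_lit 10960) (S (nat_lit 19811) (S (nat_lit 972) (S (nat_lit 1290) (L (nat_lit 3456823))
(L (nat_lit 13365386)))
(L (nat_lit 9036196)))
(L (nat_lit 22522757)))
(L (nat_lit 23079821)))
(L (nat_lit 23504921))))
(L (nat_lit 25281094)))))
(L (nat_lit 25832526)))))
(S (nat_lit 21479) (S (nat_lit 1765) (S (nat_lit 1701) (S (nat_lit 19795) (S (nat_lit 1215) (S (nat_lit 40768) (S (nat_lit 47) (S (nat_lit 37302) (S (nat_lit 1262) (S (nat_lit 20783) (S (nat_lit 57071) (S (nat_lit 54868) (S (nat_lit 41519) (S (nat_lit 37322) (S (nat_lit 20736) (S (nat_lit 35137) (S (nat_lit 21054) (S (nat_lit 23982) (S (nat_lit 39570) (S (nat_lit 1958) (S (nat_lit 5542) (S (nat_lit 43525) (S (nat_lit 22132) (S (nat_lit 41095) (S (nat_lit 58192) (S (nat_lit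 10055) (S (nat_lit 35712) (D (nat_lit 13) (nat_lit 31040932) (nat_lit 19054347) (nat_lit 2478399719521))
(L (nat_lit 19310716)))
(L (nat_lit 27544000)))
(L (nat_lit 29991361)))
(L (nat_lit 19805536)))
(S (nat_lit 25462) (S (nat_lit 56446) (S (nat_lit 17968) (D (nat_lit 15) (nat_lit 31067624) (nat_lit 25761192) (nat_lit 103289033890))
(L (nat_lit 31012096)))
(L (nat_lit 28913856)))
(L (nat_lit 2632532))))
(L (nat_lit 28710506)))
(L (nat_lit 10150000)))
(L (nat_lit 11647862)))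
(L (nat_lit 23150343)))
(L (nat_lit 28612083)))
(L (nat_lit 1809914)))
(L (nat_lit 8565501)))
(L (nat_lit 871848)))
(L (nat_lit 23953772)))
(L (nat_lit 9208433)))
(L (nat_lit 19438684)))
(L (nat_lit 18965035)))
(L (nat_lit 30622305)))
(L (nat_lit 3841437)))
(L (nat_lit 17566279)))
(L (nat_lit 18958122)))
(L (nat_lit 3055310)))
(L (nat_lit 8818297)))
(S (nat_lit 21172) (L (nat_lit 19184795))
(L (nat_lit 9515796))))
(S (nat_lit 21465) (S (nat_lit 25) (S (nat_lit 1944) (S (nat_lit 57088) (S (nat_lit 28554) (S (nat_lit 30774) (L (nat_lit 28385846))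
(L (nat_lit 9213519)))
(L (nat_lit 18964848)))
(L (nat_lit 13438163)))
(L (nat_lit 19305849)))
(S (nat_lit 19789) (S (nat_lit 1003) (S (nat_lit 1975) (S (nat_lit 28537) (L (nat_lit 3465750))
(L (nat_lit 30621282)))
(L (nat_lit 19739786)))
(L (nat_lit 19740005)))
(S (nat_lit 39553) (S (nat_lit 8773) (S (nat_lit 40542) (L (nat_lit 8229395))
(L (nat_lit 4078899)))
(L (nat_lit 16788370)))
(L (nat_lit 25417870)))))
(S (nat_lit 41229) (S (nat_lit 10977) (S (nat_lit 40768) (L (nat_lit 17584421))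
(L (nat_lit 23471873)))
(S (nat_lit 30741) (S (nat_lit 57099) (S (nat_lit 1969) (L (nat_lit 10269284))
(L (nat_lit 19170223)))
(L (nat_lit 13445729)))
(S (nat_lit 50505) (S (nat_lit 35104) (S (nat_lit 57086) (L (nat_lit 29760626))
(L (nat_lit 27868517)))
(L (nat_lit 17915656)))
(L (nat_lit 25484672)))))
(L (nat_lit 25540164)))))
(S (nat_lit 21529) (S (nat_lit 17538) (S (nat_lit 15340) (S (nat_lit 17558) (S (nat_lit 40564) (L (nat_lit 18678343))
(L (nat_lit 7459225)))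
(L (nat_lit 1645981)))
(S (nat_lit 35104) (S (nat_lit 40564) (S (nat_lit 15384) (S (nat_lit 1290) (L (nat_lit 27820682))
(L (nat_lit 10568376)))
(L (nat_lit 667033)))
(L (nat_lit 23113113)))
(S (nat_lit 54868) (S (nat_lit 40525) (S (nat_lit 8823) (L (nat_lit 23928197))
(L (nat_lit 6918553)))
(L (nat_lit 17901396)))
(L (nat_lit 25288232)))))
(S (nat_lit 37302) (S (nat_lit 10935) (S (nat_lit 8748) (L (nat_lit 18572423))
(L (nat_lit 466710)))
(S (nat_lit 30699) (S (nat_lit 20798) (S (nat_lit 35135) (S (nat_lit 40774) (S (nat_lit 57049) (L (nat_lit 26749505))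
(L (nat_lit 28027024)))
(L (nat_lit 23279393)))
(L (nat_lit 10109733)))
(L (nat_lit 31141991)))
(S (nat_lit 50463) (S (nat_lit 20798) (S (nat_lit 40790) (S (nat_lit 75) (L (nat_lit 29399724))
(L (nat_lit 750023)))
(L (nat_lit 27729504)))
(L (nat_lit 750087)))
(L (nat_lit 25827872)))))
(S (nat_lit 57066) (S (nat_lit 17543) (S (nat_lit 20761) (S (nat_lit 1726) (L (nat_lit 27335189))
(L (nat_lit 2717226)))
(S (nat_lit 48659) (L (nat_lit 8942613))
(L (nat_lit 30481973))))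
(S (nat_lit 37307) (S (nat_lit 20993) (S (nat_lit 35098) (L (nat_lit 28384661))
(L (nat_lit 2632502)))
(L (nat_lit 1397209)))
(S (nat_lit 57071) (S (nat_lit 47) (S (nat_lit 20736) (S (nat_lit 31) (S (nat_lit 40743) (S (nat_lit 28512) (S (nat_lit 21465) (S (nat_lit 57099) (S (nat_lit 54879) (S (nat_lit 30713) (S (nat_lit 41503) (S (nat_lit 40818) (S (nat_lit 54912) (S (nat_lit 62) (S (nat_lit 42) (S (nat_lit 15471) (S (nat_lit 29590) (S (nat_lit 32506) (S (nat_lit 37436) (D (nat_lit 11) (nat_lit 11422862) (nat_lit 25767022) (nat_lit 206435356836))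
(L (nat_lit 15950433)))
(L (nat_lit 28396999)))
(L (nat_lit 28980512)))
(S (nat_lit 53507) (S (nat_lit 56775) (S (nat_lit 48662) (S (nat_lit 58233) (D (nat_lit 11) (nat_lit 16601376) (nat_lit 25764976) (nat_lit 103356244200))
(L (nat_lit 29826199)))
(L (nat_lit 21826986)))
(L (nat_lit 30029125)))
(L (nat_lit 13639352))))
(L (nat_lit 19163277)))
(L (nat_lit 8075172)))
(L (nat_lit 21768736)))
(L (nat_lit 24192475)))
(L (nat_lit 23533354)))
(L (nat_lit 17507077)))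
(L (nat_lit 5894480)))
(L (nat_lit 15477345)))
(L (nat_lit 651659)))
(L (nat_lit 19405632)))
(L (nat_lit 8295826)))
(L (nat_lit 315215)))
(L (nat_lit 30485100)))
(L (nat_lit 13445142)))
(L (nat_lit 25446885)))))
(L (nat_lit 25441920)))))
(S (nat_lit 41293) (S (nat_lit 10935) (S (nat_lit 8823) (S (nat_lit 15309) (S (nat_lit 25295) (L (nat_lit 22944817))
(S (nat_lit 39559) (S (nat_lit 40768) (S (nat_lit 40525) (S (nat_lit 17538) (S (nat_lit 39603) (S (nat_lit 47) (S (nat_lit 8779) (S (nat_lit 15373) (S (nat_lit 49706) (S (nat_lit 18340) (S (nat_lit 18384) (S (nat_lit 1969) (S (nat_lit 40542) (S (nat_lit 57627) (S (nat_lit 1246) (S (nat_lit 17558) (S (nat_lit 1986) (S (nat_lit 1229) (S (nat_lit 5430) (S (nat_lit 52348) (S (nat_lit 25227) (S (nat_lit 32012) (S (nat_lit 35221) (D (nat_lit 13) (nat_lit 26885345) (nat_lit 25767397) (nat_lit 173979959396))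
(L (nat_lit 28969352)))
(L (nat_lit 13453319)))
(L (nat_lit 23519492)))
(L (nat_lit 30095684)))
(S (nat_lit 30847) (S (nat_lit 36447) (S (nat_lit 43346) (S (nat_lit 50435) (S (nat_lit 56759) (D (nat_lit 13) (nat_lit 26806480) (nat_lit 25765413) (nat_lit 241659183304))
(L (nat_lit 20425784)))
(L (nat_lit 19142476)))
(L (nat_lit 18796835)))
(L (nat_lit 28914915)))
(L (nat_lit 6081032))))
(L (nat_lit 20724777)))
(L (nat_lit 10343501)))
(L (nat_lit 26811844)))
(L (nat_lit 3827054)))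
(L (nat_lit 18454587)))
(L (nat_lit 17158914)))
(L (nat_lit 26532356)))
(L (nat_lit 24031457)))
(L (nat_lit 16853658)))
(L (nat_lit 12915384)))
(L (nat_lit 350682)))
(L (nat_lit 7144177)))
(L (nat_lit 7181719)))
(L (nat_lit 18590593)))
(L (nat_lit 636806)))
(L (nat_lit 18783349)))
(L (nat_lit 18114581)))
(L (nat_lit 6168238))))
(S (nat_lit 35019) (L (nat_lit 7885633))
(L (nat_lit 24910273))))
(S (nat_lit 28508) (S (nat_lit 40564) (S (nat_lit 37322) (L (nat_lit 16979709))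
(L (nat_lit 2768746)))
(L (nat_lit 3456885)))
(L (nat_lit 6919737))))
(S (nat_lit 30699) (S (nat_lit 1047) (S (nat_lit 54837) (S (nat_lit 1986) (L (nat_lit 6102421))
(L (nat_lit 18915244)))
(L (nat_lit 18915246)))
(S (nat_lit 20811) (S (nat_lit 62) (S (nat_lit 41514) (L (nat_lit 15409024))
(L (nat_lit 8442636)))
(L (nat_lit 1580982)))
(S (nat_lit 40575) (S (nat_lit 37322) (L (nat_lit 5053908))
(L (nat_lit 23240153)))
(L (nat_lit 25418925)))))
(S (nat_lit 50463) (S (nat_lit 10999) (S (nat_lit 1014) (S (nat_lit 19778) (L (nat_lit 15368442))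
(L (nat_lit 4013738)))
(S (nat_lit 38073) (L (nat_lit 24904166))
(L (nat_lit 18890666))))
(S (nat_lit 30763) (S (nat_lit 8748) (S (nat_lit 41547) (S (nat_lit 20811) (L (nat_lit 17073853))
(L (nat_lit 21556232)))
(L (nat_lit 24200443)))
(L (nat_lit 16830713)))
(S (nat_lit 50527) (S (nat_lit 20767) (S (nat_lit 20783) (S (nat_lit 21496) (L (nat_lit 23496615))
(L (nat_lit 14863608)))
(L (nat_lit 21765505)))
(L (nat_lit 22819846)))
(L (nat_lit 25346760)))))
(L (nat_lit 25214164)))))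
(L (nat_lit 25924974)))))
(S (nat_lit 41243) (S (nat_lit 1748) (S (nat_lit 1257) (S (nat_lit 8762) (S (nat_lit 19828) (S (nat_lit 30730) (S (nat_lit 39603) (S (nat_lit 57088) (S (nat_lit 40743) (S (nat_lit 28587) (S (nat_lit 1776) (S (nat_lit 50477) (S (nat_lit 41486) (S (nat_lit 10982) (S (nat_lit 21054) (S (nat_lit 1229) (S (nat_lit 15373) (S (nat_lit 5968) (S (nat_lit 3085) (S (nat_lit 21770) (S (nat_lit 57038) (S (nat_lit 2323) (S (nat_lit 39351) (S (nat_lit 2301) (S (nat_lit 45043) (S (nat_lit 52020) (D (nat_lit 13) (nat_lit 27956428) (nat_lit 19672613) (nat_lit 1108203340967))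
(L (nat_lit 28626402)))
(L (nat_lit 14600417)))
(L (nat_lit 28723521)))
(L (nat_lit 28915011)))
(S (nat_lit 10132) (S (nat_lit 29443) (S (nat_lit 40928) (S (nat_lit 56044) (D (nat_lit 11) (nat_lit 14427255) (nat_lit 2902507) (nat_lit 240518205664))
(L (nat_lit 20373761)))
(L (nat_lit 15573636)))
(L (nat_lit 15649125)))
(L (nat_lit 2451057))))
(L (nat_lit 10980984)))
(L (nat_lit 8106075)))
(L (nat_lit 10061242)))
(L (nat_lit 2876903)))
(L (nat_lit 1394451)))
(L (nat_lit 19138045)))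
(L (nat_lit 21798028)))
(L (nat_lit 620075)))
(L (nat_lit 2734888)))
(L (nat_lit 14706251)))
(L (nat_lit 26795017)))
(L (nat_lit 24947233)))
(L (nat_lit 8243619)))
(L (nat_lit 19296482)))
(L (nat_lit 24292141)))
(L (nat_lit 24209928)))
(L (nat_lit 8535892)))
(S (nat_lit 28526) (S (nat_lit 28537) (L (nat_lit 2955667))
(S (nat_lit 29830) (L (nat_lit 9279086))
(L (nat_lit 2768248))))
(S (nat_lit 48290) (S (nat_lit 17496) (S (nat_lit 21043) (L (nat_lit 23528763))
(L (nat_lit 6378936)))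
(S (nat_lit 48028) (L (nat_lit 18903466))
(L (nat_lit 24698919))))
(L (nat_lit 25713770)))))
(S (nat_lit 21021) (S (nat_lit 62) (S (nat_lit 4963) (L (nat_lit 24291835))
(S (nat_lit 41229) (S (nat_lit 44518) (L (nat_lit 380377))
(L (nat_lit 19304825)))
(L (nat_lit 17379172))))
(S (nat_lit 19826) (S (nat_lit 10935) (S (nat_lit 54868) (S (nat_lit 35135) (L (nat_lit 28528655))
(L (nat_lit 10028911)))
(L (nat_lit 21267865)))
(L (nat_lit 1711921)))
(S (nat_lit 39590) (S (nat_lit 1215) (S (nat_lit 17510) (S (nat_lit 10966) (S (nat_lit 19806) (L (nat_lit 30090252))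
(L (nat_lit 2768250)))
(L (nat_lit 18718434)))
(L (nat_lit 17878890)))
(L (nat_lit 3582585)))
(L (nat_lit 25709924)))))
(S (nat_lit 40785) (S (nat_lit 30724) (S (nat_lit 40564) (S (nat_lit 37285) (S (nat_lit 41304) (L (nat_lit 27690195))
(L (nat_lit 17504443)))
(L (nat_lit 2319949)))
(L (nat_lit 17585477)))
(S (nat_lit 54248) (S (nat_lit 18929) (L (nat_lit 2543865))
(L (nat_lit 9528884)))
(L (nat_lit 24679208))))
(L (nat_lit 25868515)))))
(S (nat_lit 21512) (S (nat_lit 1229) (S (nat_lit 25) (S (nat_lit 28543) (S (nat_lit 15309) (S (nat_lit 17538) (S (nat_lit 1958) (L (nat_lit 30836359))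
(L (nat_lit 19272552)))
(L (nat_lit 24209863)))
(L (nat_lit 24910273)))
(L (nat_lit 9340311)))
(S (nat_lit 19789) (S (nat_lit 40500) (S (nat_lit 20798) (L (nat_lit 415529))
(L (nat_lit 30976737)))
(L (nat_lit 18443586)))
(S (nat_lit 39553) (S (nat_lit 37307) (S (nat_lit 57086) (L (nat_lit 26661032))
(L (nat_lit 19667118)))
(L (nat_lit 8934212)))
(L (nat_lit 25182921)))))
(S (nat_lit 20993) (S (nat_lit 8810) (S (nat_lit 40807) (S (nat_lit 35135) (S (nat_lit 39570) (S (nat_lit 40514) (S (nat_lit 21722) (S (nat_lit 19826) (S (nat_lit 57086) (S (nat_lit 54884) (S (nat_lit 1765) (S (nat_lit 57265) (S (nat_lit 48276) (S (nat_lit 21496) (S (nat_lit 28554) (S (nat_lit 30774) (S (nat_lit 35148) (S (nat_lit 48610) (S (nat_lit 37274) (S (nat_lit 21708) (S (nat_lit 17344) (S (nat_lit 17192) (S (nat_lit 56671) (S (nat_lit 50311) (S (nat_lit 42826) (D (nat_lit 13) (nat_lit 30787695) (nat_lit 25765041) (nat_lit 3543519005896))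
(L (nat_lit 4017702)))
(L (nat_lit 28527075)))
(L (nat_lit 22951169)))
(L (nat_lit 30127393)))
(S (nat_lit 55246) (S (nat_lit 12089) (S (nat_lit 52297) (S (nat_lit 6291) (S (nat_lit 15508) (D (nat_lit 13) (nat_lit 30461354) (nat_lit 25767087) (nat_lit 3371720477728))
(L (nat_lit 30093539)))
(L (nat_lit 31132203)))
(L (nat_lit 28744353)))
(L (nat_lit 31142209)))
(L (nat_lit 23620900))))
(L (nat_lit 21360813)))
(L (nat_lit 31113508)))
(L (nat_lit 28545681)))
(L (nat_lit 2992695)))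
(L (nat_lit 2992881)))
(L (nat_lit 2863911)))
(L (nat_lit 21328320)))
(L (nat_lit 22919175)))
(L (nat_lit 20035961)))
(L (nat_lit 3063093)))
(L (nat_lit 27668132)))
(L (nat_lit 27678052)))
(L (nat_lit 22349616)))
(L (nat_lit 7753881)))
(L (nat_lit 27611313)))
(L (nat_lit 17101537)))
(L (nat_lit 31065455)))
(L (nat_lit 27788902)))
(S (nat_lit 47729) (L (nat_lit 15271754))
(L (nat_lit 15631733))))
(S (nat_lit 40757) (S (nat_lit 8823) (S (nat_lit 15356) (S (nat_lit 37291) (L (nat_lit 23075258))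
(L (nat_lit 3063400)))
(L (nat_lit 6405940)))
(S (nat_lit 28587) (S (nat_lit 17521) (S (nat_lit 41486) (S (nat_lit 2323) (L (nat_lit 2661174))
(L (nat_lit 2876872)))
(L (nat_lit 2549414)))
(L (nat_lit 18524346)))
(S (nat_lit 48351) (S (nat_lit 40564) (L (nat_lit 4117806))
(L (nat_lit 24372302)))
(L (nat_lit 25343558)))))
(L (nat_lit 25565824)))))
(S (nat_lit 41276) (S (nat_lit 15373) (S (nat_lit 40790) (S (nat_lit 40514) (S (nat_lit 41497) (L (nat_lit 18454587))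
(L (nat_lit 17426625)))
(S (nat_lit 53474) (L (nat_lit 16920218))
(L (nat_lit 24277481))))
(S (nat_lit 53750) (S (nat_lit 40514) (S (nat_lit 46033) (L (nat_lit 23119624))
(L (nat_lit 9356962)))
(L (nat_lit 17400617)))
(L (nat_lit 24266008))))
(S (nat_lit 35137) (S (nat_lit 41503) (S (nat_lit 41497) (S (nat_lit 40757) (S (nat_lit 35098) (S (nat_lit 40525) (L (nat_lit 29964326))
(L (nat_lit 18799840)))
(L (nat_lit 3910444)))
(L (nat_lit 18182199)))
(L (nat_lit 18416455)))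
(L (nat_lit 17878919)))
(S (nat_lit 54901) (S (nat_lit 17571) (S (nat_lit 40757) (S (nat_lit 40564) (S (nat_lit 40500) (L (nat_lit 16784243))
(L (nat_lit 23410530)))
(L (nat_lit 17531750)))
(L (nat_lit 18158391)))
(S (nat_lit 37335) (S (nat_lit 40757) (S (nat_lit 19789) (S (nat_lit 35148) (S (nat_lit 41503) (S (nat_lit 40542) (S (nat_lit 54868) (S (nat_lit 1701) (S (nat_lit 30746) (S (nat_lit 57055) (S (nat_lit 1958) (S (nat_lit 40575) (S (nat_lit 17558) (S (nat_lit 47995) (S (nat_lit 8732) (S (nat_lit 48318) (S (nat_lit 18350) (S (nat_lit 14768) (S (nat_lit 38100) (S (nat_lit 38602) (S (nat_lit 50928) (S (nat_lit 21184) (D (nat_lit 13) (nat_lit 25765251) (nat_lit 19666310) (nat_lit 6483580164))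
(L (nat_lit 27932810)))
(L (nat_lit 29841765)))
(L (nat_lit 19308353)))
(L (nat_lit 19329217)))
(L (nat_lit 29804740)))
(S (nat_lit 47188) (S (nat_lit 52115) (S (nat_lit 51885) (S (nat_lit 37647) (S (nat_lit 13796) (S (nat_lit 40611) (D (nat_lit 13) (nat_lit 29986125) (nat_lit 19142412) (nat_lit 177437149256))
(L (nat_lit 9311884)))
(L (nat_lit 29544971)))
(L (nat_lit 21439300)))
(L (nat_lit 29893249)))
(L (nat_lit 29905217)))
(L (nat_lit 3526044))))
(L (nat_lit 22442118)))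
(L (nat_lit 2727356)))
(L (nat_lit 24604929)))
(L (nat_lit 26353044)))
(L (nat_lit 17033394)))
(L (nat_lit 13212828)))
(L (nat_lit 27712803)))
(L (nat_lit 30526668)))
(L (nat_lit 10031513)))
(L (nat_lit 27656467)))
(L (nat_lit 24503340)))
(L (nat_lit 24473025)))
(L (nat_lit 18655937)))
(L (nat_lit 2319892)))
(L (nat_lit 25068912)))
(S (nat_lit 57099) (S (nat_lit 25) (S (nat_lit 28526) (S (nat_lit 28554) (S (nat_lit 30746) (S (nat_lit 41503) (S (nat_lit 30763) (S (nat_lit 20761) (L (nat_lit 20751502))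
(L (nat_lit 30739989)))
(L (nat_lit 2515191)))
(L (nat_lit 6436757)))
(L (nat_lit 16870645)))
(L (nat_lit 13372758)))
(L (nat_lit 24350105)))
(L (nat_lit 7083727)))
(L (nat_lit 25563847)))))
(L (nat_lit 25306860)))))
(L (nat_lit 25411670)))))
(L (nat_lit 25794024)))))
(L (nat_lit 25900322)))))

theorem rb246_0_22 : run 4 lb246 [] tb246_0_22 kb246 [0, 41536, 30761, 28559] [] = true := by
  decide +kernel

noncomputable def ta26_2 : Tr :=
(S (nat_lit 2) (S (nat_lit 1470) (S (nat_lit 1053) (S (nat_lit 3431) (S (nat_lit 1482) (S (nat_lit 1395) (S (nat_lit 1383) (S (nat_lit 2646) (S (nat_lit 2107) (S (nat_lit 5265) (S (nat_lit 4536) (S (nat_lit 2160) (S (nat_lit 2161) (D (nat_lit 0) (nat_lit 185737) (nat_lit 431442) (nat_lit 70936234050))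
(L (nat_lit 478497)))
(L (nat_lit 462409)))
(L (nat_lit 701607)))
(L (nat_lit 704707)))
(L (nat_lit 313520)))
(L (nat_lit 241780)))
(L (nat_lit 631888)))
(L (nat_lit 630896)))
(L (nat_lit 634033)))
(L (nat_lit 348677)))
(S (nat_lit 3267) (S (nat_lit 37) (L (nat_lit 628012))
(S (nat_lit 2215) (S (nat_lit 2619) (L (nat_lit 112267))
(L (nat_lit 479336)))
(L (nat_lit 118990))))
(S (nat_lit 5481) (S (nat_lit 514) (L (nat_lit 628012))
(S (nat_lit 3696) (S (nat_lit 5645) (L (nat_lit 525035))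
(L (nat_lit 285741)))
(L (nat_lit 110191))))
(L (nat_lit 594254)))))
(S (nat_lit 3684) (S (nat_lit 4752) (L (nat_lit 531173))
(L (nat_lit 46824)))
(S (nat_lit 5898) (S (nat_lit 3915) (L (nat_lit 105168))
(L (nat_lit 219151)))
(L (nat_lit 593318)))))
(S (nat_lit 2216) (S (nat_lit 567) (S (nat_lit 1479) (S (nat_lit 1540) (L (nat_lit 623857))
(L (nat_lit 511113)))
(S (nat_lit 3693) (S (nat_lit 3431) (S (nat_lit 3609) (L (nat_lit 431447))
(L (nat_lit 756233)))
(L (nat_lit 112947)))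
(S (nat_lit 5907) (S (nat_lit 3915) (S (nat_lit 3431) (S (nat_lit 3917) (L (nat_lit 758281))
(L (nat_lit 217637)))
(L (nat_lit 414053)))
(L (nat_lit 198353)))
(L (nat_lit 602183)))))
(S (nat_lit 2781) (S (nat_lit 1470) (S (nat_lit 1269) (S (nat_lit 3916) (L (nat_lit 630796))
(L (nat_lit 121323)))
(S (nat_lit 5645) (S (nat_lit 3755) (L (nat_lit 395571))
(L (nat_lit 171660)))
(L (nat_lit 173522))))
(S (nat_lit 3684) (S (nat_lit 1217) (S (nat_lit 4726) (L (nat_lit 262831))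
(L (nat_lit 384421)))
(S (nat_lit 4956) (L (nat_lit 626892))
(L (nat_lit 295447))))
(S (nat_lit 5898) (S (nat_lit 1383) (S (nat_lit 1395) (S (nat_lit 2215) (S (nat_lit 1000) (L (nat_lit 176372))
(L (nat_lit 375395)))
(L (nat_lit 121038)))
(L (nat_lit 461106)))
(L (nat_lit 468051)))
(L (nat_lit 598529)))))
(S (nat_lit 4995) (S (nat_lit 1540) (S (nat_lit 1395) (S (nat_lit 1383) (S (nat_lit 324) (L (nat_lit 375363))
(L (nat_lit 635204)))
(L (nat_lit 173491)))
(L (nat_lit 177459)))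
(S (nat_lit 3754) (S (nat_lit 6131) (S (nat_lit 3015) (L (nat_lit 361168))
(L (nat_lit 546020)))
(L (nat_lit 394921)))
(S (nat_lit 5968) (S (nat_lit 6131) (S (nat_lit 4429) (S (nat_lit 3148) (L (nat_lit 283665))
(L (nat_lit 373412)))
(L (nat_lit 155049)))
(L (nat_lit 460521)))
(L (nat_lit 597541)))))
(L (nat_lit 602402)))))
(S (nat_lit 4430) (S (nat_lit 1479) (S (nat_lit 1512) (S (nat_lit 1443) (S (nat_lit 3550) (L (nat_lit 529064))
(L (nat_lit 501778)))
(L (nat_lit 501810)))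
(S (nat_lit 1701) (S (nat_lit 0) (S (nat_lit 6411) (L (nat_lit 210006))
(L (nat_lit 701609)))
(S (nat_lit 3398) (L (nat_lit 636968))
(L (nat_lit 622797))))
(L (nat_lit 329295))))
(S (nat_lit 3693) (S (nat_lit 2108) (S (nat_lit 324) (S (nat_lit 5481) (L (nat_lit 110805))
(L (nat_lit 670018)))
(S (nat_lit 2289) (L (nat_lit 280687))
(L (nat_lit 76364))))
(S (nat_lit 4322) (S (nat_lit 3861) (S (nat_lit 4429) (S (nat_lit 2322) (L (nat_lit 263884))
(L (nat_lit 563286)))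
(L (nat_lit 655598)))
(S (nat_lit 4038) (L (nat_lit 115275))
(L (nat_lit 628849))))
(S (nat_lit 6536) (S (nat_lit 5969) (S (nat_lit 6130) (S (nat_lit 3684) (L (nat_lit 220675))
(L (nat_lit 527636)))
(L (nat_lit 482315)))
(L (nat_lit 365294)))
(L (nat_lit 601262)))))
(S (nat_lit 5907) (S (nat_lit 1701) (S (nat_lit 1395) (S (nat_lit 1000) (L (nat_lit 174644))
(L (nat_lit 380419)))
(L (nat_lit 383088)))
(S (nat_lit 3915) (S (nat_lit 5775) (L (nat_lit 363183))
(L (nat_lit 119211)))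
(S (nat_lit 6129) (S (nat_lit 3917) (L (nat_lit 637031))
(L (nat_lit 383524)))
(L (nat_lit 598497)))))
(L (nat_lit 604263)))))
(L (nat_lit 597413)))))

theorem ra26_2 : run 3 la26 [] ta26_2 ka26 (P4 3 468 462 406 298 0 0 1 2) [] = true := by
  decide +kernel

noncomputable def ta7_2 : Tr :=
(L (nat_lit 604385))

theorem ra7_2 : run 3 la7 [] ta7_2 ka7 (P4 3 44 359 386 359 0 0 1 2) [] = true := by
  decide +kernel

noncomputable def ta27_5 : Tr :=
(L (nat_lit 602370))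

theorem ra27_5 : run 3 la27 [] ta27_5 ka27 (P4 3 1 108 152 108 1 2 0 0) [] = true := by
  decide +kernel

noncomputable def tb180_0 : Tr :=
(L (nat_lit 25833761))

theorem rb180_0 : run 4 lb180 [] tb180_0 kb180 (P4 4 4791 2836 6347 2836 0 0 0 1) [] = true := by
  decide +kernel

noncomputable def tb75_5 : Tr :=
(L (nat_lit 25833666))

theorem rb75_5 : run 4 lb75 [] tb75_5 kb75 (P4 4 2216 2760 1253 2760 1 2 0 0) [] = true := by
  decide +kernel

noncomputable def tb262_3 : Tr :=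
(L (nat_lit 25768128))

theorem rb262_3 : run 4 lb262 [] tb262_3 kb262 (P4 4 3082 0 2942 0 0 1 0 0) [] = true := by
  decide +kernel

end Pool.Agent.MP_92191b_al.K3.E
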