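import Pool.Agent.MP_92191b_al.K3.CData

/-! Refutation trees. -/

namespace Pool.Agent.MP_92191b_al.K3.E

open Tr

set_option maxRecDepth 100000

noncomputable def tb81_3 : Tr :=
(S (nat_lit 13877) (S (nat_lit 13183) (S (nat_lit 17033) (S (nat_lit 1) (S (nat_lit 8036) (S (nat_lit 13391) (S (nat_lit 39532) (S (nat_lit 6881) (S (nat_lit 8) (S (nat_lit 16547) (S (nat_lit 3941) (S (nat_lit 6590) (S (nat_lit 14622) (L (nat_lit 13783384))
(L (nat_lit 245653)))
(L (nat_lit 13474835)))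
(L (nat_lit 26908719)))
(L (nat_lit 24945807)))
(L (nat_lit 19105340)))
(L (nat_lit 14550602)))
(L (nat_lit 23496584)))
(L (nat_lit 4606891)))
(S (nat_lit 27800) (S (nat_lit 51029) (S (nat_lit 19497) (S (nat_lit 5660) (S (nat_lit 59026) (S (nat_lit 12473) (S (nat_lit 48113) (L (nat_lit 7426520))
(L (nat_lit 22809096)))
(L (nat_lit 402323)))
(L (nat_lit 7095905)))
(L (nat_lit 10901378)))
(L (nat_lit 9855589)))
(L (nat_lit 2515562)))
(S (nat_lit 47564) (S (nat_lit 59026) (S (nat_lit 3941) (S (nat_lit 5660) (L (nat_lit 26658823))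
(L (nat_lit 26628384)))
(S (nat_lit 23055) (S (nat_lit 51848) (L (nat_lit 23075628))
(L (nat_lit 26592868)))
(L (nat_lit 26238376))))
(L (nat_lit 6688380)))
(L (nat_lit 25213141)))))
(S (nat_lit 19765) (S (nat_lit 14622) (S (nat_lit 16547) (S (nat_lit 1991) (S (nat_lit 5660) (S (nat_lit 6881) (S (nat_lit 6590) (S (nat_lit 36794) (S (nat_lit 12473) (L (nat_lit 22157753))
(L (nat_lit 9835197)))
(L (nat_lit 5624719)))
(L (nat_lit 1514141)))
(L (nat_lit 14011580)))
(L (nat_lit 3454870)))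
(S (nat_lit 11084) (S (nat_lit 1042) (L (nat_lit 24473612))
(L (nat_lit 13330725)))
(L (nat_lit 3842493))))
(S (nat_lit 36311) (S (nat_lit 56072) (S (nat_lit 14623) (L (nat_lit 26613812))
(L (nat_lit 22350735)))
(L (nat_lit 10126253)))
(S (nat_lit 56075) (S (nat_lit 5660) (S (nat_lit 12651) (S (nat_lit 12652) (S (nat_lit 4202) (S (nat_lit 12473) (L (nat_lit 12640469))
(L (nat_lit 9615997)))
(L (nat_lit 4083919)))
(L (nat_lit 21293440)))
(L (nat_lit 10237602)))
(S (nat_lit 33015) (L (nat_lit 11093922))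
(L (nat_lit 26677959))))
(L (nat_lit 25932992)))))
(S (nat_lit 34386) (S (nat_lit 5882) (S (nat_lit 6878) (S (nat_lit 40569) (L (nat_lit 485961))
(L (nat_lit 3690813)))
(L (nat_lit 6915516)))
(S (nat_lit 25646) (S (nat_lit 23219) (S (nat_lit 12912) (L (nat_lit 21020984))
(L (nat_lit 21217155)))
(L (nat_lit 22067049)))
(S (nat_lit 45410) (S (nat_lit 1042) (S (nat_lit 19767) (L (nat_lit 13756631))
(L (nat_lit 3557660)))
(S (nat_lit 13076) (L (nat_lit 8817556))
(L (nat_lit 2342805))))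
(L (nat_lit 25419269)))))
(S (nat_lit 54150) (S (nat_lit 16337) (L (nat_lit 15566473))
(S (nat_lit 36101) (S (nat_lit 55124) (S (nat_lit 56558) (L (nat_lit 20050442))
(L (nat_lit 3906477)))
(L (nat_lit 19198369)))
(S (nat_lit 55865) (S (nat_lit 3455) (L (nat_lit 26728617))
(L (nat_lit 8806272)))
(L (nat_lit 25679171)))))
(L (nat_lit 25280139)))))
(S (nat_lit 39529) (S (nat_lit 12166) (S (nat_lit 12473) (S (nat_lit 5660) (L (nat_lit 3840408))
(L (nat_lit 18744566)))
(S (nat_lit 49971) (L (nat_lit 26258997))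
(L (nat_lit 26430852))))
(S (nat_lit 31930) (S (nat_lit 2985) (S (nat_lit 39261) (S (nat_lit 48350) (L (nat_lit 28327154))
(L (nat_lit 5000429)))
(L (nat_lit 19938556)))
(S (nat_lit 42672) (S (nat_lit 48936) (L (nat_lit 26870129))
(L (nat_lit 26220950)))
(L (nat_lit 26717362))))
(S (nat_lit 51694) (S (nat_lit 3165) (S (nat_lit 31929) (S (nat_lit 12473) (L (nat_lit 26556068))
(L (nat_lit 26612328)))
(L (nat_lit 24985827)))
(S (nat_lit 22929) (S (nat_lit 30471) (S (nat_lit 12473) (S (nat_lit 59026) (S (nat_lit 1991) (S (nat_lit 53179) (L (nat_lit 30062631))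
(L (nat_lit 11235844)))
(L (nat_lit 26362472)))
(L (nat_lit 14708327)))
(S (nat_lit 21327) (L (nat_lit 2377436))
(L (nat_lit 26612947))))
(S (nat_lit 50155) (L (nat_lit 21373977))
(L (nat_lit 10662524))))
(S (nat_lit 42693) (S (nat_lit 31929) (S (nat_lit 42514) (L (nat_lit 4606173))
(L (nat_lit 24611065)))
(L (nat_lit 17109628)))
(L (nat_lit 25305806)))))
(L (nat_lit 25669284)))))
(L (nat_lit 25206351)))))
(S (nat_lit 36797) (S (nat_lit 14623) (S (nat_lit 2986) (S (nat_lit 12913) (S (nat_lit 13391) (S (nat_lit 38255) (L (nat_lit 9523739))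
(L (nat_lit 23930030)))
(S (nat_lit 52754) (L (nat_lit 26414737))
(L (nat_lit 24332163))))
(S (nat_lit 32677) (S (nat_lit 5660) (S (nat_lit 1041) (S (nat_lit 36794) (S (nat_lit 10952) (L (nat_lit 7071919))
(L (nat_lit 7925348)))
(L (nat_lit 10636175)))
(L (nat_lit 26949860)))
(L (nat_lit 26939630)))
(S (nat_lit 52441) (S (nat_lit 2985) (S (nat_lit 1041) (S (nat_lit 14622) (S (nat_lit 1042) (S (nat_lit 13182) (S (nat_lit 8585) (L (nat_lit 29908193))
(L (nat_lit 26232083)))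
(L (nat_lit 931463)))
(L (nat_lit 13758155)))
(L (nat_lit 12930976)))
(L (nat_lit 9124740)))
(L (nat_lit 8817554)))
(L (nat_lit 25701458)))))
(S (nat_lit 22750) (S (nat_lit 18491) (S (nat_lit 19768) (S (nat_lit 17538) (L (nat_lit 8106881))
(L (nat_lit 22547367)))
(L (nat_lit 22229923)))
(S (nat_lit 38255) (S (nat_lit 17539) (S (nat_lit 59022) (L (nat_lit 3658631))
(L (nat_lit 21839019)))
(L (nat_lit 16361347)))
(S (nat_lit 58019) (S (nat_lit 19768) (S (nat_lit 59022) (L (nat_lit 8873603))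
(L (nat_lit 21835299)))
(L (nat_lit 21836035)))
(L (nat_lit 25920937)))))
(S (nat_lit 42514) (S (nat_lit 18491) (S (nat_lit 13651) (S (nat_lit 19768) (S (nat_lit 13182) (L (nat_lit 16116353))
(L (nat_lit 22546343)))
(L (nat_lit 22262531)))
(L (nat_lit 6437779)))
(S (nat_lit 38255) (S (nat_lit 32237) (L (nat_lit 29733475))
(L (nat_lit 13790421)))
(S (nat_lit 58019) (S (nat_lit 13650) (S (nat_lit 19768) (S (nat_lit 12473) (L (nat_lit 30954632))
(L (nat_lit 1323957)))
(L (nat_lit 22229923)))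
(L (nat_lit 13232483)))
(L (nat_lit 25724617)))))
(L (nat_lit 25678051)))))
(S (nat_lit 34387) (S (nat_lit 6881) (S (nat_lit 3) (S (nat_lit 6590) (S (nat_lit 12913) (S (nat_lit 1042) (L (nat_lit 28397807))
(L (nat_lit 2342805)))
(L (nat_lit 23323073)))
(L (nat_lit 12701949)))
(L (nat_lit 7385971)))
(S (nat_lit 26645) (S (nat_lit 27131) (S (nat_lit 2499) (S (nat_lit 59023) (S (nat_lit 26642) (S (nat_lit 46118) (S (nat_lit 55865) (L (nat_lit 29604020))
(L (nat_lit 15785895)))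
(L (nat_lit 6082800)))
(L (nat_lit 31113354)))
(L (nat_lit 6963105)))
(L (nat_lit 7766962)))
(L (nat_lit 15983731)))
(S (nat_lit 46409) (S (nat_lit 16544) (S (nat_lit 39258) (S (nat_lit 26354) (L (nat_lit 9092120))
(L (nat_lit 24414096)))
(L (nat_lit 11326639)))
(S (nat_lit 36308) (S (nat_lit 58019) (S (nat_lit 14622) (S (nat_lit 48353) (L (nat_lit 22364067))
(L (nat_lit 5942157)))
(L (nat_lit 12937397)))
(L (nat_lit 27603124)))
(S (nat_lit 56072) (S (nat_lit 15335) (S (nat_lit 14622) (S (nat_lit 17538) (S (nat_lit 39258) (L (nat_lit 24343568))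
(L (nat_lit 8013701)))
(L (nat_lit 8064943)))
(L (nat_lit 13986997)))
(L (nat_lit 22491013)))
(L (nat_lit 25867520)))))
(L (nat_lit 25855281)))))
(S (nat_lit 54151) (S (nat_lit 4202) (S (nat_lit 2986) (S (nat_lit 5660) (S (nat_lit 17538) (S (nat_lit 56558) (L (nat_lit 28423782))
(L (nat_lit 21268397)))
(L (nat_lit 17901463)))
(L (nat_lit 18143106)))
(S (nat_lit 22750) (S (nat_lit 39259) (S (nat_lit 1042) (L (nat_lit 12656563))
(L (nat_lit 9157536)))
(L (nat_lit 14231425)))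
(S (nat_lit 42514) (S (nat_lit 20805) (S (nat_lit 8822) (S (nat_lit 15335) (L (nat_lit 28496237))
(L (nat_lit 14896004)))
(L (nat_lit 7500307)))
(L (nat_lit 14934754)))
(L (nat_lit 25931235)))))
(S (nat_lit 23966) (S (nat_lit 3455) (S (nat_lit 48113) (S (nat_lit 52180) (S (nat_lit 16544) (S (nat_lit 59023) (L (nat_lit 12782451))
(L (nat_lit 665517)))
(L (nat_lit 11176476)))
(L (nat_lit 12943996)))
(L (nat_lit 27957794)))
(S (nat_lit 29691) (L (nat_lit 11239930))
(L (nat_lit 8782742))))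
(S (nat_lit 43730) (S (nat_lit 7367) (S (nat_lit 18619) (L (nat_lit 24020454))
(S (nat_lit 46121) (S (nat_lit 59026) (S (nat_lit 1) (S (nat_lit 8036) (L (nat_lit 26412534))
(L (nat_lit 434067)))
(L (nat_lit 209531)))
(L (nat_lit 6313500)))
(L (nat_lit 17700979))))
(S (nat_lit 16501) (L (nat_lit 31064458))
(L (nat_lit 1982675))))
(L (nat_lit 25677896)))))
(L (nat_lit 25889999)))))
(S (nat_lit 56561) (S (nat_lit 4907) (S (nat_lit 9747) (S (nat_lit 7364) (S (nat_lit 5882) (S (nat_lit 14622) (L (nat_lit 24257085))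
(L (nat_lit 866953)))
(L (nat_lit 20354300)))
(S (nat_lit 27128) (S (nat_lit 49278) (S (nat_lit 2499) (S (nat_lit 52710) (L (nat_lit 21163342))
(L (nat_lit 27636288)))
(L (nat_lit 18982800)))
(L (nat_lit 16327554)))
(S (nat_lit 46892) (S (nat_lit 35360) (S (nat_lit 43469) (S (nat_lit 1042) (S (nat_lit 19497) (S (nat_lit 2985) (L (nat_lit 9458104))
(L (nat_lit 15002304)))
(L (nat_lit 5857803)))
(L (nat_lit 12905152)))
(L (nat_lit 8972342)))
(L (nat_lit 19947855)))
(L (nat_lit 25694485)))))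
(S (nat_lit 29511) (S (nat_lit 14138) (S (nat_lit 16082) (S (nat_lit 2985) (S (nat_lit 3165) (S (nat_lit 3941) (S (nat_lit 5660) (L (nat_lit 12291484))
(L (nat_lit 18887933)))
(L (nat_lit 26565089)))
(L (nat_lit 26491588)))
(L (nat_lit 8532914)))
(L (nat_lit 8785842)))
(S (nat_lit 33902) (S (nat_lit 8) (S (nat_lit 8825) (L (nat_lit 20299653))
(L (nat_lit 14854748)))
(L (nat_lit 6914588)))
(S (nat_lit 53666) (S (nat_lit 2985) (S (nat_lit 8) (L (nat_lit 14012323))
(L (nat_lit 19268491)))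
(L (nat_lit 8901504)))
(L (nat_lit 25803879)))))
(S (nat_lit 49275) (S (nat_lit 6320) (S (nat_lit 22411) (L (nat_lit 6405725))
(S (nat_lit 26354) (S (nat_lit 12473) (S (nat_lit 5660) (L (nat_lit 2437725))
(L (nat_lit 3559676)))
(L (nat_lit 15866771)))
(L (nat_lit 15440772))))
(S (nat_lit 26084) (S (nat_lit 56075) (S (nat_lit 48353) (L (nat_lit 28914977))
(L (nat_lit 22353807)))
(L (nat_lit 16010114)))
(S (nat_lit 45848) (S (nat_lit 48353) (S (nat_lit 49276) (S (nat_lit 15335) (L (nat_lit 28903881))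
(L (nat_lit 226893)))
(L (nat_lit 14226342)))
(L (nat_lit 14012293)))
(L (nat_lit 25479714)))))
(L (nat_lit 25344278)))))
(S (nat_lit 24671) (S (nat_lit 19495) (L (nat_lit 21304890))
(S (nat_lit 39259) (S (nat_lit 1042) (S (nat_lit 14622) (S (nat_lit 26354) (S (nat_lit 49279) (S (nat_lit 12473) (S (nat_lit 58019) (L (nat_lit 3830251))
(L (nat_lit 10391148)))
(L (nat_lit 1464230)))
(L (nat_lit 1989158)))
(L (nat_lit 9168945)))
(L (nat_lit 354869)))
(L (nat_lit 8448565)))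
(S (nat_lit 59023) (S (nat_lit 1042) (L (nat_lit 1296955))
(L (nat_lit 9360933)))
(L (nat_lit 25451632)))))
(S (nat_lit 44435) (S (nat_lit 7364) (S (nat_lit 11281) (S (nat_lit 29515) (L (nat_lit 3400272))
(L (nat_lit 6875154)))
(S (nat_lit 39266) (S (nat_lit 55124) (S (nat_lit 29515) (S (nat_lit 49275) (S (nat_lit 42983) (S (nat_lit 39261) (S (nat_lit 46121) (L (nat_lit 29476085))
(L (nat_lit 11423857)))
(L (nat_lit 13660875)))
(L (nat_lit 14313762)))
(L (nat_lit 22194717)))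
(L (nat_lit 12806725)))
(L (nat_lit 14558785)))
(L (nat_lit 14298139))))
(S (nat_lit 27128) (S (nat_lit 10708) (S (nat_lit 12652) (S (nat_lit 3165) (S (nat_lit 44927) (L (nat_lit 3600007))
(L (nat_lit 23600186)))
(L (nat_lit 17124258)))
(S (nat_lit 52015) (L (nat_lit 9595443))
(L (nat_lit 2411408))))
(S (nat_lit 30472) (S (nat_lit 13391) (S (nat_lit 17539) (S (nat_lit 59026) (L (nat_lit 17074998))
(L (nat_lit 13250433)))
(L (nat_lit 24650659)))
(L (nat_lit 13832082)))
(S (nat_lit 50236) (S (nat_lit 5399) (S (nat_lit 3165) (S (nat_lit 59022) (S (nat_lit 59026) (L (nat_lit 19013180))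
(L (nat_lit 19278908)))
(L (nat_lit 483241)))
(L (nat_lit 20265890)))
(L (nat_lit 9059201)))
(L (nat_lit 25288106)))))
(S (nat_lit 46892) (S (nat_lit 12913) (S (nat_lit 12651) (S (nat_lit 2985) (S (nat_lit 47564) (S (nat_lit 12166) (L (nat_lit 23870598))
(L (nat_lit 3983661)))
(L (nat_lit 27270707)))
(L (nat_lit 15445921)))
(S (nat_lit 48715) (L (nat_lit 28352051))
(L (nat_lit 9596529))))
(S (nat_lit 32677) (S (nat_lit 56072) (S (nat_lit 41522) (S (nat_lit 29515) (L (nat_lit 30935721))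
(L (nat_lit 13341053)))
(L (nat_lit 6440634)))
(L (nat_lit 7889568)))
(S (nat_lit 52441) (S (nat_lit 48350) (S (nat_lit 5399) (L (nat_lit 20484935))
(L (nat_lit 20359073)))
(L (nat_lit 27700243)))
(L (nat_lit 25700001)))))
(L (nat_lit 25465235)))))
(L (nat_lit 25461239)))))
(L (nat_lit 25540289)))))
(S (nat_lit 32947) (S (nat_lit 12651) (S (nat_lit 17033) (S (nat_lit 2985) (S (nat_lit 3) (S (nat_lit 26357) (S (nat_lit 43730) (L (nat_lit 9889473))
(L (nat_lit 23332685)))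
(L (nat_lit 9007589)))
(S (nat_lit 19767) (S (nat_lit 26357) (S (nat_lit 59026) (S (nat_lit 17030) (L (nat_lit 3611320))
(L (nat_lit 9521693)))
(L (nat_lit 8803388)))
(L (nat_lit 15473747)))
(S (nat_lit 39531) (S (nat_lit 13391) (S (nat_lit 6590) (S (nat_lit 3166) (L (nat_lit 8816434))
(L (nat_lit 2902507)))
(L (nat_lit 7943229)))
(L (nat_lit 4606891)))
(L (nat_lit 25757158)))))
(S (nat_lit 22749) (S (nat_lit 19494) (S (nat_lit 21160) (L (nat_lit 22487939))
(S (nat_lit 55868) (S (nat_lit 12473) (L (nat_lit 16484669))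
(L (nat_lit 15868851)))
(L (nat_lit 10313091))))
(S (nat_lit 39258) (S (nat_lit 57066) (L (nat_lit 21149052))
(L (nat_lit 15410333)))
(S (nat_lit 59022) (S (nat_lit 17030) (S (nat_lit 2986) (L (nat_lit 28640847))
(L (nat_lit 15604451)))
(S (nat_lit 54828) (S (nat_lit 34387) (L (nat_lit 3924423))
(L (nat_lit 2579303)))
(L (nat_lit 9587229))))
(L (nat_lit 25773347)))))
(S (nat_lit 42513) (S (nat_lit 19502) (S (nat_lit 12473) (S (nat_lit 12652) (L (nat_lit 4614758))
(L (nat_lit 10186112)))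
(L (nat_lit 9631123)))
(S (nat_lit 39266) (S (nat_lit 20806) (S (nat_lit 55124) (S (nat_lit 30471) (S (nat_lit 46406) (S (nat_lit 36101) (L (nat_lit 18011484))
(L (nat_lit 11596308)))
(L (nat_lit 1632467)))
(L (nat_lit 19405852)))
(L (nat_lit 11956865)))
(L (nat_lit 15439933)))
(S (nat_lit 59030) (S (nat_lit 12473) (S (nat_lit 1991) (S (nat_lit 26357) (L (nat_lit 3501588))
(L (nat_lit 2904336)))
(L (nat_lit 5708413)))
(L (nat_lit 23343261)))
(L (nat_lit 25568338)))))
(L (nat_lit 25482416)))))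
(S (nat_lit 36797) (S (nat_lit 6323) (S (nat_lit 13391) (S (nat_lit 36311) (S (nat_lit 9750) (S (nat_lit 59026) (L (nat_lit 2902351))
(L (nat_lit 21185692)))
(L (nat_lit 26595874)))
(L (nat_lit 4470706)))
(S (nat_lit 33155) (S (nat_lit 18491) (S (nat_lit 42694) (S (nat_lit 42693) (L (nat_lit 11628142))
(L (nat_lit 3752189)))
(L (nat_lit 15813446)))
(L (nat_lit 17910631)))
(S (nat_lit 52919) (S (nat_lit 18491) (S (nat_lit 16544) (L (nat_lit 3525019))
(L (nat_lit 9193986)))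
(L (nat_lit 9193987)))
(L (nat_lit 25602098)))))
(S (nat_lit 26087) (S (nat_lit 15335) (S (nat_lit 22264) (S (nat_lit 38255) (S (nat_lit 26357) (S (nat_lit 20806) (S (nat_lit 58016) (L (nat_lit 8029998))
(L (nat_lit 9518004)))
(L (nat_lit 21796143)))
(L (nat_lit 16516371)))
(L (nat_lit 30492876)))
(L (nat_lit 447869)))
(S (nat_lit 21844) (L (nat_lit 2934005))
(L (nat_lit 26757476))))
(S (nat_lit 45851) (S (nat_lit 16082) (S (nat_lit 12473) (S (nat_lit 12165) (S (nat_lit 39532) (L (nat_lit 29570659))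
(L (nat_lit 24517507)))
(L (nat_lit 21076879)))
(L (nat_lit 11933621)))
(S (nat_lit 35846) (S (nat_lit 10708) (S (nat_lit 8822) (S (nat_lit 42514) (L (nat_lit 28687506))
(L (nat_lit 23872678)))
(L (nat_lit 23459332)))
(L (nat_lit 23456228)))
(S (nat_lit 55610) (S (nat_lit 12165) (S (nat_lit 43730) (L (nat_lit 2890447))
(L (nat_lit 782758)))
(S (nat_lit 24534) (L (nat_lit 23888110))
(L (nat_lit 23398287))))
(L (nat_lit 25270927)))))
(L (nat_lit 25546240)))))
(S (nat_lit 56561) (S (nat_lit 12166) (S (nat_lit 26357) (S (nat_lit 19663) (S (nat_lit 48350) (L (nat_lit 8787641))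
(L (nat_lit 16110650)))
(S (nat_lit 59026) (S (nat_lit 3165) (S (nat_lit 59023) (S (nat_lit 19767) (S (nat_lit 42983) (S (nat_lit 54150) (L (nat_lit 23277659))
(L (nat_lit 21099049)))
(L (nat_lit 16570658)))
(L (nat_lit 2498482)))
(L (nat_lit 2514858)))
(L (nat_lit 15517986)))
(L (nat_lit 2514823))))
(S (nat_lit 31397) (S (nat_lit 32369) (L (nat_lit 16110652))
(L (nat_lit 15901621)))
(L (nat_lit 16522323))))
(L (nat_lit 9226317)))
(L (nat_lit 25252175)))))
(S (nat_lit 32415) (S (nat_lit 1042) (S (nat_lit 13650) (S (nat_lit 16340) (S (nat_lit 15921) (L (nat_lit 8881917))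
(S (nat_lit 36308) (S (nat_lit 10708) (L (nat_lit 29590223))
(L (nat_lit 15340423)))
(L (nat_lit 23921159))))
(S (nat_lit 36104) (S (nat_lit 59022) (L (nat_lit 26810915))
(L (nat_lit 13458537)))
(S (nat_lit 55868) (S (nat_lit 19767) (S (nat_lit 2500) (S (nat_lit 56075) (L (nat_lit 3024439))
(L (nat_lit 2801543)))
(L (nat_lit 6337428)))
(L (nat_lit 14733223)))
(L (nat_lit 25215346)))))
(S (nat_lit 33414) (S (nat_lit 49345) (L (nat_lit 21432700))
(S (nat_lit 51694) (S (nat_lit 5879) (S (nat_lit 17033) (S (nat_lit 12652) (L (nat_lit 28710635))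
(L (nat_lit 2406074)))
(L (nat_lit 2471644)))
(L (nat_lit 20256316)))
(L (nat_lit 14862588))))
(S (nat_lit 53178) (S (nat_lit 1041) (S (nat_lit 55868) (S (nat_lit 28586) (L (nat_lit 6012157))
(L (nat_lit 8574863)))
(L (nat_lit 21472129)))
(S (nat_lit 20805) (S (nat_lit 1991) (S (nat_lit 57067) (L (nat_lit 6083822))
(L (nat_lit 11417155)))
(L (nat_lit 13961852)))
(S (nat_lit 40569) (S (nat_lit 4907) (S (nat_lit 59023) (L (nat_lit 30966005))
(L (nat_lit 6706300)))
(L (nat_lit 8192590)))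
(L (nat_lit 25925676)))))
(L (nat_lit 25802758)))))
(S (nat_lit 20806) (S (nat_lit 4) (S (nat_lit 8825) (S (nat_lit 23103) (L (nat_lit 30809763))
(S (nat_lit 57067) (S (nat_lit 52441) (S (nat_lit 52440) (S (nat_lit 6881) (L (nat_lit 23505947))
(L (nat_lit 6835389)))
(L (nat_lit 14930013)))
(L (nat_lit 22457436)))
(L (nat_lit 6174280))))
(S (nat_lit 28589) (S (nat_lit 5882) (S (nat_lit 35360) (L (nat_lit 29786419))
(L (nat_lit 30428495)))
(S (nat_lit 38583) (L (nat_lit 29640815))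
(L (nat_lit 9886844))))
(S (nat_lit 48353) (S (nat_lit 19494) (S (nat_lit 55868) (S (nat_lit 54150) (S (nat_lit 19765) (L (nat_lit 2897515))
(L (nat_lit 30619235)))
(L (nat_lit 21801504)))
(L (nat_lit 16386953)))
(S (nat_lit 58155) (L (nat_lit 5486298))
(L (nat_lit 3825967))))
(L (nat_lit 25506933)))))
(S (nat_lit 19768) (S (nat_lit 8825) (S (nat_lit 16340) (S (nat_lit 52441) (S (nat_lit 59022) (S (nat_lit 59026) (S (nat_lit 7364) (S (nat_lit 55610) (L (nat_lit 6477711))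
(L (nat_lit 7925940)))
(L (nat_lit 21534471)))
(L (nat_lit 15470183)))
(L (nat_lit 2973039)))
(L (nat_lit 14841447)))
(L (nat_lit 22254141)))
(S (nat_lit 28589) (S (nat_lit 36308) (S (nat_lit 31759) (L (nat_lit 10676757))
(L (nat_lit 3428829)))
(L (nat_lit 30750368)))
(S (nat_lit 48353) (S (nat_lit 36308) (S (nat_lit 10708) (S (nat_lit 35360) (L (nat_lit 11956307))
(L (nat_lit 8418959)))
(L (nat_lit 14868362)))
(L (nat_lit 12400288)))
(L (nat_lit 25613604)))))
(S (nat_lit 39532) (S (nat_lit 2500) (S (nat_lit 52441) (S (nat_lit 18491) (S (nat_lit 13391) (S (nat_lit 13651) (L (nat_lit 22446456))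
(L (nat_lit 6344250)))
(L (nat_lit 2543996)))
(L (nat_lit 2799997)))
(L (nat_lit 14722748)))
(S (nat_lit 22264) (S (nat_lit 8494) (L (nat_lit 9262624))
(S (nat_lit 15335) (S (nat_lit 34494) (L (nat_lit 5490328))
(S (nat_lit 54150) (S (nat_lit 8) (S (nat_lit 16544) (L (nat_lit 5458861))
(L (nat_lit 11320994)))
(L (nat_lit 20356284)))
(L (nat_lit 17619113))))
(L (nat_lit 16979858))))
(S (nat_lit 42028) (S (nat_lit 21758) (S (nat_lit 26357) (S (nat_lit 8036) (L (nat_lit 23113276))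
(L (nat_lit 21012028)))
(L (nat_lit 16319243)))
(L (nat_lit 15958806)))
(L (nat_lit 25499340)))))
(L (nat_lit 25566293)))))
(S (nat_lit 40570) (S (nat_lit 14622) (S (nat_lit 17030) (S (nat_lit 15596) (L (nat_lit 23208847))
(L (nat_lit 24438829)))
(L (nat_lit 10242561)))
(S (nat_lit 34386) (S (nat_lit 19497) (S (nat_lit 3455) (S (nat_lit 19502) (L (nat_lit 23097769))
(L (nat_lit 10043266)))
(L (nat_lit 3372470)))
(S (nat_lit 39261) (S (nat_lit 27131) (S (nat_lit 15596) (L (nat_lit 28684339))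
(L (nat_lit 8087597)))
(L (nat_lit 3972689)))
(S (nat_lit 59025) (S (nat_lit 19502) (S (nat_lit 48350) (L (nat_lit 6051150))
(L (nat_lit 27693301)))
(L (nat_lit 3560669)))
(L (nat_lit 25824683)))))
(S (nat_lit 54150) (S (nat_lit 2500) (S (nat_lit 40975) (L (nat_lit 16817885))
(L (nat_lit 11235842)))
(S (nat_lit 22264) (S (nat_lit 23219) (S (nat_lit 45848) (L (nat_lit 6008686))
(L (nat_lit 9291328)))
(L (nat_lit 21018409)))
(S (nat_lit 42028) (S (nat_lit 42643) (L (nat_lit 6919644))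
(S (nat_lit 54015) (L (nat_lit 23076684))
(L (nat_lit 684555))))
(L (nat_lit 25597300)))))
(L (nat_lit 25283853)))))
(L (nat_lit 25482752)))))
(S (nat_lit 52179) (S (nat_lit 5399) (S (nat_lit 3455) (S (nat_lit 50235) (S (nat_lit 19498) (S (nat_lit 22749) (L (nat_lit 10023987))
(L (nat_lit 3592508)))
(S (nat_lit 39262) (S (nat_lit 59023) (L (nat_lit 2512679))
(L (nat_lit 12593078)))
(S (nat_lit 59026) (S (nat_lit 26357) (S (nat_lit 10952) (S (nat_lit 45407) (S (nat_lit 12473) (S (nat_lit 41519) (S (nat_lit 8585) (S (nat_lit 15596) (L (nat_lit 1335797))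
(L (nat_lit 22423457)))
(L (nat_lit 12848053)))
(L (nat_lit 8874594)))
(L (nat_lit 11680693)))
(L (nat_lit 9321060)))
(L (nat_lit 21172142)))
(L (nat_lit 15474245)))
(L (nat_lit 25451937)))))
(L (nat_lit 22912078)))
(L (nat_lit 14819223)))
(S (nat_lit 25163) (S (nat_lit 3166) (S (nat_lit 17033) (S (nat_lit 16082) (S (nat_lit 46406) (S (nat_lit 26357) (S (nat_lit 22929) (L (nat_lit 11617076))
(L (nat_lit 21504060)))
(L (nat_lit 15467829)))
(L (nat_lit 22807761)))
(L (nat_lit 22588573)))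
(S (nat_lit 36797) (S (nat_lit 50235) (S (nat_lit 42693) (L (nat_lit 20791524))
(L (nat_lit 3623229)))
(L (nat_lit 8865885)))
(S (nat_lit 56561) (S (nat_lit 28586) (S (nat_lit 18491) (L (nat_lit 21113373))
(L (nat_lit 8538556)))
(L (nat_lit 9090885)))
(L (nat_lit 25527919)))))
(S (nat_lit 22930) (S (nat_lit 16082) (S (nat_lit 20806) (S (nat_lit 11501) (S (nat_lit 46406) (S (nat_lit 30472) (S (nat_lit 51694) (S (nat_lit 8036) (S (nat_lit 12473) (S (nat_lit 8) (S (nat_lit 28349) (S (nat_lit 26087) (L (nat_lit 1449561))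
(L (nat_lit 30984512)))
(L (nat_lit 16377088)))
(L (nat_lit 13684619)))
(L (nat_lit 11678397)))
(L (nat_lit 11963069)))
(L (nat_lit 22540580)))
(L (nat_lit 31074321)))
(L (nat_lit 4015349)))
(L (nat_lit 6752893)))
(L (nat_lit 736509)))
(L (nat_lit 22588573)))
(S (nat_lit 42694) (S (nat_lit 14623) (S (nat_lit 59023) (S (nat_lit 1041) (S (nat_lit 39536) (L (nat_lit 14961536))
(L (nat_lit 23076689)))
(L (nat_lit 9344531)))
(L (nat_lit 13182076)))
(S (nat_lit 34387) (S (nat_lit 51694) (L (nat_lit 15027072))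
(L (nat_lit 13308156)))
(S (nat_lit 54151) (S (nat_lit 49276) (S (nat_lit 40570) (L (nat_lit 29735620))
(L (nat_lit 8122415)))
(L (nat_lit 3559708)))
(L (nat_lit 25278675)))))
(L (nat_lit 25694923)))))
(S (nat_lit 44927) (S (nat_lit 14138) (S (nat_lit 7364) (S (nat_lit 8825) (L (nat_lit 12768103))
(L (nat_lit 1423187)))
(S (nat_lit 27128) (S (nat_lit 58019) (S (nat_lit 24671) (L (nat_lit 15915323))
(L (nat_lit 9077646)))
(L (nat_lit 3656583)))
(S (nat_lit 46892) (S (nat_lit 38255) (S (nat_lit 16082) (L (nat_lit 14700393))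
(L (nat_lit 22917289)))
(L (nat_lit 23225769)))
(L (nat_lit 25480209)))))
(S (nat_lit 33902) (S (nat_lit 12473) (S (nat_lit 59026) (S (nat_lit 5660) (S (nat_lit 20806) (S (nat_lit 56558) (S (nat_lit 3941) (S (nat_lit 15596) (L (nat_lit 2419156))
(L (nat_lit 14994556)))
(L (nat_lit 15365224)))
(L (nat_lit 3913574)))
(L (nat_lit 22851072)))
(L (nat_lit 8804258)))
(L (nat_lit 14901124)))
(S (nat_lit 32237) (S (nat_lit 10707) (S (nat_lit 3455) (S (nat_lit 8585) (S (nat_lit 52180) (L (nat_lit 15915261))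
(L (nat_lit 13475493)))
(L (nat_lit 3699366)))
(L (nat_lit 15565511)))
(L (nat_lit 15522889)))
(S (nat_lit 52001) (S (nat_lit 13651) (S (nat_lit 10707) (S (nat_lit 7367) (L (nat_lit 28492115))
(L (nat_lit 12775635)))
(L (nat_lit 15067813)))
(L (nat_lit 3777422)))
(L (nat_lit 25632915)))))
(S (nat_lit 53666) (S (nat_lit 6881) (S (nat_lit 32676) (S (nat_lit 27128) (L (nat_lit 1470057))
(L (nat_lit 2924241)))
(L (nat_lit 24572163)))
(S (nat_lit 54200) (L (nat_lit 21328945))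
(L (nat_lit 12972771))))
(L (nat_lit 25378371)))))
(L (nat_lit 25352585)))))
(L (nat_lit 25307759)))))
(S (nat_lit 52711) (S (nat_lit 12165) (S (nat_lit 19495) (S (nat_lit 16544) (S (nat_lit 12912) (S (nat_lit 8585) (S (nat_lit 5660) (S (nat_lit 6323) (S (nat_lit 54151) (L (nat_lit 9041314))
(L (nat_lit 5979975)))
(L (nat_lit 6045318)))
(L (nat_lit 18580732)))
(L (nat_lit 5461905)))
(S (nat_lit 32676) (S (nat_lit 18491) (S (nat_lit 40570) (S (nat_lit 8585) (L (nat_lit 16492451))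
(L (nat_lit 9981020)))
(L (nat_lit 24166214)))
(L (nat_lit 18542601)))
(S (nat_lit 52440) (S (nat_lit 8036) (S (nat_lit 10708) (S (nat_lit 22264) (L (nat_lit 28427475))
(L (nat_lit 22077865)))
(L (nat_lit 3894695)))
(L (nat_lit 14458035)))
(L (nat_lit 25410582)))))
(S (nat_lit 36308) (S (nat_lit 16082) (S (nat_lit 39532) (S (nat_lit 5660) (L (nat_lit 9142812))
(L (nat_lit 19269543)))
(L (nat_lit 24516732)))
(S (nat_lit 35846) (S (nat_lit 5660) (S (nat_lit 10707) (S (nat_lit 59026) (L (nat_lit 30016816))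
(L (nat_lit 2514823)))
(L (nat_lit 26587813)))
(L (nat_lit 20318087)))
(S (nat_lit 55610) (S (nat_lit 58019) (S (nat_lit 23219) (S (nat_lit 45851) (S (nat_lit 37302) (L (nat_lit 3742269))
(L (nat_lit 20722855)))
(L (nat_lit 27442856)))
(L (nat_lit 1468135)))
(L (nat_lit 27965609)))
(L (nat_lit 25380484)))))
(S (nat_lit 56072) (S (nat_lit 7364) (S (nat_lit 12473) (S (nat_lit 6878) (S (nat_lit 22749) (L (nat_lit 29753620))
(L (nat_lit 21147504)))
(L (nat_lit 26592403)))
(L (nat_lit 1462182)))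
(S (nat_lit 27128) (S (nat_lit 12166) (S (nat_lit 28586) (S (nat_lit 3165) (L (nat_lit 26575438))
(L (nat_lit 17109907)))
(L (nat_lit 18158483)))
(L (nat_lit 18172836)))
(S (nat_lit 46892) (S (nat_lit 27131) (S (nat_lit 58019) (L (nat_lit 29438195))
(L (nat_lit 3500562)))
(L (nat_lit 6472629)))
(L (nat_lit 25796005)))))
(L (nat_lit 25512111)))))
(S (nat_lit 39259) (S (nat_lit 12651) (S (nat_lit 17538) (S (nat_lit 46118) (S (nat_lit 10708) (S (nat_lit 12652) (S (nat_lit 2500) (S (nat_lit 3166) (L (nat_lit 11426864))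
(L (nat_lit 26806577)))
(L (nat_lit 15013781)))
(L (nat_lit 23652458)))
(L (nat_lit 17604193)))
(L (nat_lit 4812170)))
(S (nat_lit 37302) (S (nat_lit 8036) (S (nat_lit 3166) (S (nat_lit 12913) (L (nat_lit 9354916))
(L (nat_lit 21407649)))
(L (nat_lit 19205041)))
(L (nat_lit 21391621)))
(S (nat_lit 57066) (S (nat_lit 50480) (S (nat_lit 55610) (L (nat_lit 23409853))
(L (nat_lit 21393543)))
(L (nat_lit 10499925)))
(L (nat_lit 25287110)))))
(S (nat_lit 32415) (S (nat_lit 16340) (S (nat_lit 36797) (S (nat_lit 10708) (S (nat_lit 55865) (L (nat_lit 21338031))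
(L (nat_lit 27934857)))
(L (nat_lit 26740327)))
(L (nat_lit 5619321)))
(S (nat_lit 36104) (S (nat_lit 3455) (S (nat_lit 21755) (L (nat_lit 27312744))
(L (nat_lit 11158400)))
(L (nat_lit 5824391)))
(S (nat_lit 55868) (S (nat_lit 11501) (S (nat_lit 6878) (L (nat_lit 24245803))
(L (nat_lit 14348513)))
(L (nat_lit 21301660)))
(L (nat_lit 25280724)))))
(S (nat_lit 52179) (S (nat_lit 16547) (S (nat_lit 18488) (S (nat_lit 6878) (S (nat_lit 53178) (L (nat_lit 28661185))
(L (nat_lit 11113021)))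
(L (nat_lit 21316701)))
(L (nat_lit 8549100)))
(S (nat_lit 36311) (S (nat_lit 19767) (S (nat_lit 39529) (L (nat_lit 14807658))
(L (nat_lit 16828668)))
(L (nat_lit 9254560)))
(S (nat_lit 56075) (S (nat_lit 5660) (S (nat_lit 12473) (S (nat_lit 39529) (S (nat_lit 9750) (L (nat_lit 20984648))
(L (nat_lit 21840226)))
(L (nat_lit 27853225)))
(L (nat_lit 21371069)))
(L (nat_lit 19272583)))
(L (nat_lit 25634400)))))
(L (nat_lit 25831471)))))
(S (nat_lit 59023) (S (nat_lit 13391) (S (nat_lit 8036) (S (nat_lit 19767) (S (nat_lit 59026) (S (nat_lit 11501) (S (nat_lit 24671) (S (nat_lit 12473) (S (nat_lit 24674) (L (nat_lit 20137081))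
(L (nat_lit 9059232)))
(L (nat_lit 26613907)))
(L (nat_lit 10224183)))
(L (nat_lit 26627392)))
(L (nat_lit 8809619)))
(L (nat_lit 8808531)))
(L (nat_lit 21375133)))
(S (nat_lit 33155) (S (nat_lit 1042) (S (nat_lit 3455) (S (nat_lit 24674) (S (nat_lit 45848) (L (nat_lit 8259123))
(L (nat_lit 9292320)))
(L (nat_lit 9077678)))
(L (nat_lit 8805280)))
(S (nat_lit 20806) (S (nat_lit 59026) (S (nat_lit 27131) (S (nat_lit 22929) (L (nat_lit 5070378))
(L (nat_lit 21840098)))
(L (nat_lit 15373225)))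
(L (nat_lit 21196193)))
(S (nat_lit 40570) (S (nat_lit 34386) (S (nat_lit 5660) (S (nat_lit 13650) (L (nat_lit 13659379))
(L (nat_lit 6114823)))
(L (nat_lit 19269511)))
(S (nat_lit 44959) (L (nat_lit 10996924))
(L (nat_lit 30517781))))
(L (nat_lit 25723125)))))
(S (nat_lit 52919) (S (nat_lit 19768) (S (nat_lit 16337) (S (nat_lit 10952) (S (nat_lit 57067) (L (nat_lit 4409789))
(L (nat_lit 27691657)))
(L (nat_lit 21794158)))
(L (nat_lit 8838236)))
(L (nat_lit 8783797)))
(L (nat_lit 25366068)))))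
(L (nat_lit 25773223)))))
(S (nat_lit 31929) (S (nat_lit 9750) (S (nat_lit 9748) (S (nat_lit 7367) (S (nat_lit 12473) (S (nat_lit 5660) (S (nat_lit 6878) (L (nat_lit 30966995))
(L (nat_lit 21348445)))
(L (nat_lit 9147308)))
(L (nat_lit 9836156)))
(S (nat_lit 27131) (S (nat_lit 26084) (S (nat_lit 14138) (S (nat_lit 4202) (L (nat_lit 11956306))
(L (nat_lit 12292605)))
(L (nat_lit 13815687)))
(L (nat_lit 4770169)))
(S (nat_lit 46895) (S (nat_lit 5660) (S (nat_lit 12473) (S (nat_lit 28586) (S (nat_lit 40570) (S (nat_lit 26084) (L (nat_lit 19440729))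
(L (nat_lit 7851904)))
(L (nat_lit 1916213)))
(L (nat_lit 12767115)))
(L (nat_lit 9835411)))
(S (nat_lit 12791) (S (nat_lit 38400) (L (nat_lit 2320915))
(L (nat_lit 8972869)))
(L (nat_lit 19268924))))
(L (nat_lit 25316839)))))
(S (nat_lit 29512) (S (nat_lit 12473) (S (nat_lit 6878) (S (nat_lit 18488) (L (nat_lit 3691869))
(L (nat_lit 9193548)))
(L (nat_lit 23594236)))
(L (nat_lit 11933373)))
(S (nat_lit 49276) (S (nat_lit 12473) (S (nat_lit 50236) (S (nat_lit 5660) (L (nat_lit 11090010))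
(L (nat_lit 8803421)))
(L (nat_lit 27437681)))
(L (nat_lit 21394629)))
(L (nat_lit 25763921)))))
(S (nat_lit 29514) (S (nat_lit 9748) (S (nat_lit 12473) (S (nat_lit 22749) (S (nat_lit 50236) (S (nat_lit 6878) (L (nat_lit 29722002))
(L (nat_lit 13758675)))
(L (nat_lit 14357255)))
(L (nat_lit 12777192)))
(L (nat_lit 415654)))
(S (nat_lit 29512) (S (nat_lit 9751) (S (nat_lit 12473) (S (nat_lit 5660) (L (nat_lit 24123866))
(L (nat_lit 19272585)))
(L (nat_lit 23466888)))
(S (nat_lit 29515) (S (nat_lit 27131) (S (nat_lit 29511) (L (nat_lit 11561395))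
(L (nat_lit 19271964)))
(L (nat_lit 19763409)))
(S (nat_lit 49279) (S (nat_lit 5660) (L (nat_lit 3547741))
(L (nat_lit 19272615)))
(L (nat_lit 25174418)))))
(S (nat_lit 49276) (S (nat_lit 19494) (S (nat_lit 5660) (S (nat_lit 12473) (S (nat_lit 59026) (S (nat_lit 6320) (S (nat_lit 43730) (L (nat_lit 6184176))
(L (nat_lit 7041440)))
(L (nat_lit 26711351)))
(L (nat_lit 21773540)))
(L (nat_lit 18012070)))
(L (nat_lit 20318087)))
(S (nat_lit 39258) (S (nat_lit 5660) (S (nat_lit 12473) (S (nat_lit 3941) (S (nat_lit 17030) (S (nat_lit 6593) (S (nat_lit 59026) (S (nat_lit 8) (L (nat_lit 1710584))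
(L (nat_lit 19085189)))
(L (nat_lit 21458058)))
(L (nat_lit 23922154)))
(L (nat_lit 4954589)))
(L (nat_lit 4863878)))
(L (nat_lit 9835411)))
(S (nat_lit 45035) (L (nat_lit 416651))
(L (nat_lit 8808534))))
(S (nat_lit 59022) (S (nat_lit 5660) (S (nat_lit 12473) (S (nat_lit 59026) (S (nat_lit 32676) (L (nat_lit 27450673))
(L (nat_lit 13985812)))
(L (nat_lit 13200522)))
(L (nat_lit 9616275)))
(S (nat_lit 25751) (L (nat_lit 9343600))
(L (nat_lit 26612022))))
(L (nat_lit 25628023)))))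
(L (nat_lit 25743435)))))
(S (nat_lit 49278) (S (nat_lit 8585) (S (nat_lit 18876) (L (nat_lit 12807219))
(S (nat_lit 20805) (S (nat_lit 22749) (S (nat_lit 10952) (S (nat_lit 38255) (L (nat_lit 27843658))
(L (nat_lit 6168174)))
(L (nat_lit 26413459)))
(L (nat_lit 21225952)))
(L (nat_lit 21094920))))
(S (nat_lit 28349) (S (nat_lit 12473) (S (nat_lit 22749) (S (nat_lit 29512) (S (nat_lit 39531) (S (nat_lit 46118) (S (nat_lit 6878) (L (nat_lit 11986530))
(L (nat_lit 21333437)))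
(L (nat_lit 6068659)))
(L (nat_lit 5675827)))
(L (nat_lit 13177739)))
(L (nat_lit 13408435)))
(L (nat_lit 21371813)))
(S (nat_lit 48113) (S (nat_lit 52440) (S (nat_lit 18491) (S (nat_lit 59026) (S (nat_lit 45848) (S (nat_lit 50236) (S (nat_lit 48350) (L (nat_lit 21333905))
(L (nat_lit 22887434)))
(L (nat_lit 27795041)))
(L (nat_lit 15297826)))
(L (nat_lit 9006128)))
(L (nat_lit 22520860)))
(L (nat_lit 27862097)))
(L (nat_lit 25854224)))))
(L (nat_lit 25346632)))))
(S (nat_lit 51693) (S (nat_lit 15596) (S (nat_lit 13650) (S (nat_lit 2986) (S (nat_lit 38255) (L (nat_lit 23245179))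
(L (nat_lit 23588195)))
(S (nat_lit 22750) (S (nat_lit 14138) (S (nat_lit 31930) (S (nat_lit 19765) (L (nat_lit 19793135))
(L (nat_lit 9849730)))
(L (nat_lit 6472381)))
(L (nat_lit 22199548)))
(S (nat_lit 42514) (S (nat_lit 22929) (S (nat_lit 6593) (S (nat_lit 6590) (L (nat_lit 13986931))
(L (nat_lit 14483667)))
(L (nat_lit 13174076)))
(L (nat_lit 21303740)))
(L (nat_lit 25922860)))))
(S (nat_lit 33414) (S (nat_lit 1042) (S (nat_lit 19765) (L (nat_lit 2729501))
(L (nat_lit 9849730)))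
(S (nat_lit 20806) (S (nat_lit 3455) (L (nat_lit 15571587))
(L (nat_lit 8805469)))
(S (nat_lit 40570) (S (nat_lit 6593) (S (nat_lit 8822) (L (nat_lit 586037))
(L (nat_lit 15307005)))
(S (nat_lit 45958) (L (nat_lit 14976633))
(L (nat_lit 14386492))))
(L (nat_lit 25279174)))))
(S (nat_lit 53178) (S (nat_lit 16337) (S (nat_lit 53666) (S (nat_lit 8822) (L (nat_lit 2700637))
(L (nat_lit 23433757)))
(L (nat_lit 16994049)))
(S (nat_lit 36101) (S (nat_lit 43469) (S (nat_lit 5660) (L (nat_lit 6910435))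
(L (nat_lit 19337532)))
(L (nat_lit 23627590)))
(S (nat_lit 55865) (S (nat_lit 12473) (S (nat_lit 30472) (S (nat_lit 25646) (L (nat_lit 12109852))
(L (nat_lit 17438630)))
(L (nat_lit 8270433)))
(S (nat_lit 36166) (L (nat_lit 10666589))
(L (nat_lit 21370790))))
(L (nat_lit 25764291)))))
(L (nat_lit 25480205)))))
(S (nat_lit 35360) (S (nat_lit 8825) (S (nat_lit 8822) (S (nat_lit 36311) (S (nat_lit 7367) (S (nat_lit 7364) (S (nat_lit 36308) (L (nat_lit 8947638))
(L (nat_lit 6483412)))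
(L (nat_lit 8582579)))
(L (nat_lit 13825235)))
(L (nat_lit 23260367)))
(S (nat_lit 28586) (S (nat_lit 36308) (S (nat_lit 43469) (S (nat_lit 16547) (S (nat_lit 46895) (S (nat_lit 36797) (L (nat_lit 29043758))
(L (nat_lit 31175907)))
(L (nat_lit 16965843)))
(L (nat_lit 24310991)))
(L (nat_lit 23241485)))
(L (nat_lit 20112719)))
(S (nat_lit 48350) (S (nat_lit 22749) (S (nat_lit 56075) (S (nat_lit 5660) (L (nat_lit 22194584))
(L (nat_lit 5648124)))
(L (nat_lit 9626317)))
(L (nat_lit 18012010)))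
(L (nat_lit 25859279)))))
(S (nat_lit 28589) (S (nat_lit 1042) (S (nat_lit 59026) (S (nat_lit 43469) (S (nat_lit 59025) (S (nat_lit 59022) (L (nat_lit 27498005))
(L (nat_lit 14768043)))
(L (nat_lit 6707075)))
(L (nat_lit 23299919)))
(L (nat_lit 2321843)))
(S (nat_lit 20806) (S (nat_lit 16337) (S (nat_lit 52441) (S (nat_lit 16544) (L (nat_lit 29706256))
(L (nat_lit 8582831)))
(L (nat_lit 22574273)))
(L (nat_lit 8838236)))
(S (nat_lit 40570) (S (nat_lit 26177) (L (nat_lit 7199823))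
(S (nat_lit 43469) (S (nat_lit 16544) (S (nat_lit 30472) (S (nat_lit 55610) (S (nat_lit 22749) (S (nat_lit 29511) (L (nat_lit 24573152))
(L (nat_lit 18635074)))
(L (nat_lit 31168928)))
(L (nat_lit 27658482)))
(L (nat_lit 12757629)))
(L (nat_lit 8582831)))
(L (nat_lit 8566551))))
(L (nat_lit 25395918)))))
(S (nat_lit 48353) (S (nat_lit 19502) (S (nat_lit 59023) (S (nat_lit 19767) (L (nat_lit 29693459))
(L (nat_lit 22419548)))
(L (nat_lit 417084)))
(S (nat_lit 39266) (S (nat_lit 8036) (S (nat_lit 56072) (S (nat_lit 39532) (S (nat_lit 38255) (L (nat_lit 11134369))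
(L (nat_lit 17702499)))
(L (nat_lit 5873116)))
(L (nat_lit 28023919)))
(S (nat_lit 32386) (L (nat_lit 17044402))
(L (nat_lit 23469989))))
(S (nat_lit 59030) (S (nat_lit 22930) (S (nat_lit 56072) (S (nat_lit 59022) (S (nat_lit 25910) (S (nat_lit 22749) (S (nat_lit 30472) (S (nat_lit 43469) (S (nat_lit 27128) (L (nat_lit 11947066))
(L (nat_lit 6442897)))
(L (nat_lit 13819098)))
(L (nat_lit 13505191)))
(L (nat_lit 12720890)))
(L (nat_lit 22419238)))
(L (nat_lit 15553827)))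
(L (nat_lit 21325999)))
(L (nat_lit 30886117)))
(L (nat_lit 25183878)))))
(L (nat_lit 25340493)))))
(S (nat_lit 55124) (S (nat_lit 3166) (S (nat_lit 13391) (S (nat_lit 55912) (L (nat_lit 3972718))
(L (nat_lit 3427217)))
(S (nat_lit 33155) (S (nat_lit 19494) (S (nat_lit 5660) (S (nat_lit 12473) (S (nat_lit 22263) (S (nat_lit 4) (S (nat_lit 7477) (L (nat_lit 18041980))
(L (nat_lit 10273379)))
(L (nat_lit 7988303)))
(L (nat_lit 21406780)))
(L (nat_lit 9835413)))
(L (nat_lit 16487305)))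
(L (nat_lit 22437995)))
(S (nat_lit 52919) (S (nat_lit 12473) (S (nat_lit 57067) (L (nat_lit 5525356))
(L (nat_lit 4932425)))
(L (nat_lit 9616309)))
(L (nat_lit 25313620)))))
(S (nat_lit 22930) (S (nat_lit 16082) (S (nat_lit 12845) (L (nat_lit 7518813))
(S (nat_lit 19768) (S (nat_lit 20806) (S (nat_lit 22929) (L (nat_lit 22544731))
(L (nat_lit 21325870)))
(L (nat_lit 21529451)))
(L (nat_lit 14699837))))
(S (nat_lit 35846) (S (nat_lit 4202) (S (nat_lit 5660) (L (nat_lit 11077053))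
(L (nat_lit 15749373)))
(S (nat_lit 48937) (L (nat_lit 9456561))
(L (nat_lit 12272732))))
(S (nat_lit 55610) (S (nat_lit 19772) (S (nat_lit 25424) (S (nat_lit 19765) (L (nat_lit 19930000))
(L (nat_lit 15748317)))
(L (nat_lit 14452423)))
(S (nat_lit 39464) (L (nat_lit 21078862))
(L (nat_lit 22442155))))
(L (nat_lit 25538738)))))
(S (nat_lit 42694) (S (nat_lit 8585) (S (nat_lit 12473) (S (nat_lit 1994) (S (nat_lit 32946) (L (nat_lit 15341625))
(L (nat_lit 20447580)))
(L (nat_lit 19022077)))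
(L (nat_lit 9917596)))
(S (nat_lit 49090) (L (nat_lit 23557442))
(L (nat_lit 21504028))))
(L (nat_lit 25498348)))))
(L (nat_lit 25338354)))))
(L (nat_lit 25512323)))))
(L (nat_lit 25527950)))))
(S (nat_lit 33641) (S (nat_lit 10708) (S (nat_lit 3165) (S (nat_lit 3941) (S (nat_lit 17033) (S (nat_lit 6878) (S (nat_lit 26354) (S (nat_lit 5882) (S (nat_lit 39259) (L (nat_lit 9138657))
(L (nat_lit 17379201)))
(L (nat_lit 12227004)))
(L (nat_lit 15439931)))
(S (nat_lit 26642) (S (nat_lit 16544) (S (nat_lit 12165) (S (nat_lit 32946) (S (nat_lit 6323) (S (nat_lit 44927) (L (nat_lit 27440807))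
(L (nat_lit 23889134)))
(L (nat_lit 15845628)))
(L (nat_lit 9615004)))
(L (nat_lit 26395304)))
(S (nat_lit 20148) (L (nat_lit 26841325))
(L (nat_lit 17614951))))
(S (nat_lit 46406) (S (nat_lit 8585) (S (nat_lit 12473) (L (nat_lit 16828637))
(L (nat_lit 21144494)))
(S (nat_lit 27265) (L (nat_lit 2835370))
(L (nat_lit 20989862))))
(L (nat_lit 25544385)))))
(S (nat_lit 36797) (S (nat_lit 12651) (S (nat_lit 12165) (S (nat_lit 12913) (S (nat_lit 25643) (S (nat_lit 39529) (L (nat_lit 17041020))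
(L (nat_lit 27269557)))
(L (nat_lit 2630265)))
(L (nat_lit 15869874)))
(L (nat_lit 5589905)))
(S (nat_lit 32415) (L (nat_lit 7391673))
(S (nat_lit 52179) (S (nat_lit 42694) (S (nat_lit 39529) (L (nat_lit 6441402))
(L (nat_lit 27707400)))
(L (nat_lit 27740389)))
(L (nat_lit 25315535)))))
(S (nat_lit 56561) (S (nat_lit 19494) (S (nat_lit 19765) (S (nat_lit 59025) (S (nat_lit 13391) (L (nat_lit 29578787))
(L (nat_lit 13716362)))
(L (nat_lit 8994693)))
(L (nat_lit 3591048)))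
(S (nat_lit 39258) (S (nat_lit 41522) (S (nat_lit 2500) (S (nat_lit 19765) (L (nat_lit 30415287))
(L (nat_lit 2542845)))
(L (nat_lit 3036584)))
(L (nat_lit 2940390)))
(S (nat_lit 59022) (S (nat_lit 12473) (S (nat_lit 59026) (S (nat_lit 12165) (S (nat_lit 59025) (L (nat_lit 8438708))
(L (nat_lit 2520407)))
(L (nat_lit 21535621)))
(L (nat_lit 21053322)))
(L (nat_lit 26681525)))
(L (nat_lit 25568931)))))
(L (nat_lit 25479181)))))
(S (nat_lit 23705) (S (nat_lit 1991) (S (nat_lit 12473) (S (nat_lit 23528) (L (nat_lit 26397158))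
(S (nat_lit 36101) (S (nat_lit 45410) (S (nat_lit 13651) (S (nat_lit 29511) (S (nat_lit 58019) (L (nat_lit 3486395))
(L (nat_lit 21555209)))
(L (nat_lit 17834900)))
(L (nat_lit 22061966)))
(L (nat_lit 6184360)))
(L (nat_lit 5909389))))
(S (nat_lit 32237) (S (nat_lit 37302) (S (nat_lit 36101) (S (nat_lit 9750) (L (nat_lit 17461600))
(L (nat_lit 21390344)))
(L (nat_lit 23380865)))
(L (nat_lit 20717743)))
(S (nat_lit 52001) (S (nat_lit 42513) (S (nat_lit 36101) (L (nat_lit 5456507))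
(L (nat_lit 6136338)))
(L (nat_lit 5052851)))
(L (nat_lit 25632949)))))
(S (nat_lit 21755) (S (nat_lit 2500) (S (nat_lit 3166) (L (nat_lit 29840422))
(L (nat_lit 10570171)))
(S (nat_lit 22264) (S (nat_lit 12165) (S (nat_lit 8036) (L (nat_lit 29048098))
(L (nat_lit 21400456)))
(L (nat_lit 10979222)))
(S (nat_lit 42028) (S (nat_lit 15335) (S (nat_lit 8585) (S (nat_lit 46892) (L (nat_lit 14803285))
(L (nat_lit 10228147)))
(L (nat_lit 4114024)))
(S (nat_lit 45822) (L (nat_lit 2541917))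
(L (nat_lit 26226098))))
(L (nat_lit 25539296)))))
(S (nat_lit 41519) (S (nat_lit 15335) (S (nat_lit 22749) (S (nat_lit 58019) (S (nat_lit 4202) (S (nat_lit 12165) (S (nat_lit 52711) (L (nat_lit 5807737))
(L (nat_lit 21529980)))
(L (nat_lit 21795210)))
(L (nat_lit 19075516)))
(L (nat_lit 3432884)))
(S (nat_lit 52533) (L (nat_lit 469627))
(L (nat_lit 22340001))))
(S (nat_lit 35099) (S (nat_lit 16337) (S (nat_lit 22749) (L (nat_lit 31008813))
(L (nat_lit 21160362)))
(L (nat_lit 17441539)))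
(S (nat_lit 54863) (S (nat_lit 2985) (L (nat_lit 10608056))
(L (nat_lit 257458)))
(L (nat_lit 25181554)))))
(L (nat_lit 25680998)))))
(S (nat_lit 43469) (S (nat_lit 3166) (S (nat_lit 4) (S (nat_lit 5399) (S (nat_lit 49278) (L (nat_lit 22439234))
(L (nat_lit 20321162)))
(S (nat_lit 40376) (L (nat_lit 17438840))
(L (nat_lit 2800553))))
(S (nat_lit 19768) (S (nat_lit 57894) (L (nat_lit 22437898))
(S (nat_lit 59025) (S (nat_lit 16337) (L (nat_lit 9255584))
(L (nat_lit 15280221)))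
(L (nat_lit 8875061))))
(S (nat_lit 39532) (S (nat_lit 13391) (S (nat_lit 10952) (L (nat_lit 8833957))
(L (nat_lit 26429612)))
(L (nat_lit 26626090)))
(L (nat_lit 25762927)))))
(S (nat_lit 22930) (S (nat_lit 5660) (S (nat_lit 26087) (S (nat_lit 35099) (L (nat_lit 23957928))
(L (nat_lit 23532395)))
(L (nat_lit 10676908)))
(S (nat_lit 25424) (S (nat_lit 46409) (L (nat_lit 6013240))
(L (nat_lit 27902243)))
(S (nat_lit 45188) (S (nat_lit 12473) (S (nat_lit 59026) (S (nat_lit 15335) (L (nat_lit 29043170))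
(L (nat_lit 22811114)))
(L (nat_lit 2321939)))
(S (nat_lit 23005) (L (nat_lit 12325269))
(L (nat_lit 15995517))))
(L (nat_lit 25253102)))))
(S (nat_lit 42694) (S (nat_lit 2499) (S (nat_lit 4202) (S (nat_lit 59026) (L (nat_lit 1778107))
(L (nat_lit 9246131)))
(L (nat_lit 26235302)))
(S (nat_lit 22263) (S (nat_lit 4202) (S (nat_lit 28589) (L (nat_lit 2730490))
(L (nat_lit 30741229)))
(L (nat_lit 19796390)))
(S (nat_lit 42027) (S (nat_lit 6323) (S (nat_lit 12165) (S (nat_lit 35846) (S (nat_lit 46892) (S (nat_lit 12473) (L (nat_lit 30085512))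
(L (nat_lit 17996476)))
(L (nat_lit 7528885)))
(L (nat_lit 3955113)))
(L (nat_lit 15911818)))
(L (nat_lit 3952040)))
(L (nat_lit 25925094)))))
(L (nat_lit 25442356)))))
(L (nat_lit 25336557)))))
(S (nat_lit 22929) (S (nat_lit 5399) (S (nat_lit 2986) (S (nat_lit 36101) (S (nat_lit 58019) (S (nat_lit 59026) (S (nat_lit 8822) (S (nat_lit 13182) (L (nat_lit 16785021))
(L (nat_lit 24479661)))
(L (nat_lit 23504956)))
(L (nat_lit 15553671)))
(L (nat_lit 12929921)))
(L (nat_lit 453289)))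
(S (nat_lit 22750) (S (nat_lit 12473) (S (nat_lit 3941) (S (nat_lit 7364) (S (nat_lit 20806) (L (nat_lit 9982012))
(L (nat_lit 30938357)))
(L (nat_lit 21295525)))
(L (nat_lit 2800860)))
(S (nat_lit 32237) (S (nat_lit 59026) (L (nat_lit 29759145))
(L (nat_lit 14900380)))
(S (nat_lit 52001) (S (nat_lit 6593) (S (nat_lit 19767) (S (nat_lit 45851) (L (nat_lit 12874898))
(L (nat_lit 6475662)))
(L (nat_lit 3361244)))
(S (nat_lit 13316) (S (nat_lit 19768) (L (nat_lit 15517984))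
(L (nat_lit 2550069)))
(L (nat_lit 21077501))))
(L (nat_lit 25564840)))))
(S (nat_lit 42514) (S (nat_lit 8822) (S (nat_lit 24671) (L (nat_lit 4627037))
(L (nat_lit 21407929)))
(S (nat_lit 28586) (S (nat_lit 3455) (S (nat_lit 59026) (S (nat_lit 19497) (L (nat_lit 3370671))
(L (nat_lit 15820023)))
(L (nat_lit 18892028)))
(L (nat_lit 4021549)))
(S (nat_lit 48350) (S (nat_lit 40570) (S (nat_lit 4907) (S (nat_lit 12473) (L (nat_lit 22886534))
(L (nat_lit 11933621)))
(L (nat_lit 5691612)))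
(L (nat_lit 23860463)))
(L (nat_lit 25318637)))))
(L (nat_lit 25904419)))))
(S (nat_lit 25163) (S (nat_lit 9747) (S (nat_lit 12651) (S (nat_lit 42665) (L (nat_lit 27281745))
(S (nat_lit 55868) (S (nat_lit 1041) (L (nat_lit 14914169))
(L (nat_lit 2649395)))
(L (nat_lit 21205805))))
(S (nat_lit 32415) (S (nat_lit 54150) (S (nat_lit 9751) (S (nat_lit 39259) (L (nat_lit 14835954))
(L (nat_lit 23490913)))
(L (nat_lit 17640000)))
(L (nat_lit 16865563)))
(S (nat_lit 52179) (S (nat_lit 23966) (S (nat_lit 20806) (S (nat_lit 54150) (S (nat_lit 51029) (S (nat_lit 59026) (S (nat_lit 10952) (S (nat_lit 46895) (L (nat_lit 5648090))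
(L (nat_lit 22879344)))
(L (nat_lit 26429829)))
(L (nat_lit 13446753)))
(L (nat_lit 418475)))
(L (nat_lit 21314369)))
(L (nat_lit 7176910)))
(L (nat_lit 21192719)))
(L (nat_lit 25245289)))))
(S (nat_lit 29511) (S (nat_lit 13183) (S (nat_lit 50235) (S (nat_lit 25910) (S (nat_lit 36308) (L (nat_lit 11955808))
(L (nat_lit 6476623)))
(L (nat_lit 761243)))
(L (nat_lit 22209808)))
(S (nat_lit 32947) (S (nat_lit 56072) (S (nat_lit 19768) (L (nat_lit 22424484))
(L (nat_lit 2517672)))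
(L (nat_lit 19065351)))
(S (nat_lit 52711) (S (nat_lit 12473) (S (nat_lit 48350) (L (nat_lit 11979586))
(L (nat_lit 11965365)))
(S (nat_lit 53305) (L (nat_lit 12225294))
(L (nat_lit 11957427))))
(L (nat_lit 25724278)))))
(S (nat_lit 49275) (S (nat_lit 19502) (S (nat_lit 19765) (S (nat_lit 19768) (S (nat_lit 31930) (L (nat_lit 8412637))
(L (nat_lit 30694416)))
(L (nat_lit 21372029)))
(L (nat_lit 22414589)))
(S (nat_lit 39266) (S (nat_lit 15335) (S (nat_lit 53666) (S (nat_lit 12473) (L (nat_lit 12755643))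
(L (nat_lit 15995795)))
(L (nat_lit 3895536)))
(L (nat_lit 22222735)))
(S (nat_lit 59030) (S (nat_lit 59026) (S (nat_lit 59023) (L (nat_lit 18880921))
(L (nat_lit 19098736)))
(L (nat_lit 20999501)))
(L (nat_lit 25379924)))))
(L (nat_lit 25385474)))))
(S (nat_lit 44927) (S (nat_lit 14623) (S (nat_lit 6881) (S (nat_lit 12473) (S (nat_lit 59026) (S (nat_lit 32947) (L (nat_lit 16086163))
(L (nat_lit 3500566)))
(L (nat_lit 12610899)))
(L (nat_lit 9835411)))
(S (nat_lit 26645) (S (nat_lit 8585) (S (nat_lit 49275) (L (nat_lit 23445692))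
(L (nat_lit 3914666)))
(L (nat_lit 11552691)))
(S (nat_lit 46409) (S (nat_lit 55868) (L (nat_lit 21374138))
(L (nat_lit 3812237)))
(L (nat_lit 25547792)))))
(S (nat_lit 34387) (S (nat_lit 8585) (S (nat_lit 9110) (L (nat_lit 15393028))
(S (nat_lit 59026) (S (nat_lit 42694) (S (nat_lit 6881) (L (nat_lit 28389962))
(L (nat_lit 13521930)))
(L (nat_lit 23532358)))
(L (nat_lit 12606716))))
(S (nat_lit 28349) (S (nat_lit 12473) (S (nat_lit 16337) (S (nat_lit 33414) (L (nat_lit 6169200))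
(L (nat_lit 14979893)))
(L (nat_lit 14914236)))
(S (nat_lit 23041) (L (nat_lit 23292045))
(L (nat_lit 15899541))))
(S (nat_lit 48113) (S (nat_lit 31181) (L (nat_lit 20987129))
(S (nat_lit 42694) (S (nat_lit 16544) (S (nat_lit 16082) (S (nat_lit 8) (S (nat_lit 22264) (S (nat_lit 52711) (S (nat_lit 12473) (L (nat_lit 16830810))
(L (nat_lit 23261390)))
(L (nat_lit 5774163)))
(L (nat_lit 22470696)))
(L (nat_lit 6915984)))
(L (nat_lit 15304956)))
(L (nat_lit 15026976)))
(L (nat_lit 27610528))))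
(L (nat_lit 25384016)))))
(S (nat_lit 54151) (S (nat_lit 53179) (S (nat_lit 19497) (S (nat_lit 33902) (L (nat_lit 14961720))
(L (nat_lit 19947760)))
(L (nat_lit 4087025)))
(S (nat_lit 53998) (L (nat_lit 23463687))
(L (nat_lit 12358163))))
(L (nat_lit 25279763)))))
(L (nat_lit 25698017)))))
(S (nat_lit 42693) (S (nat_lit 8036) (S (nat_lit 12913) (S (nat_lit 4202) (S (nat_lit 16515) (S (nat_lit 39532) (L (nat_lit 23292322))
(L (nat_lit 23502626)))
(S (nat_lit 28205) (S (nat_lit 12473) (L (nat_lit 11725205))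
(L (nat_lit 9835133)))
(L (nat_lit 29804802))))
(S (nat_lit 23966) (S (nat_lit 12165) (S (nat_lit 19765) (S (nat_lit 12166) (L (nat_lit 28492455))
(L (nat_lit 16084641)))
(L (nat_lit 8841826)))
(S (nat_lit 18807) (L (nat_lit 3779505))
(L (nat_lit 23859656))))
(S (nat_lit 43730) (S (nat_lit 22380) (L (nat_lit 3695891))
(S (nat_lit 35099) (S (nat_lit 12473) (S (nat_lit 12165) (S (nat_lit 33415) (S (nat_lit 34387) (L (nat_lit 15438044))
(L (nat_lit 3946771)))
(L (nat_lit 10238035)))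
(L (nat_lit 15911850)))
(L (nat_lit 18028157)))
(L (nat_lit 4074994))))
(L (nat_lit 25926735)))))
(S (nat_lit 32677) (S (nat_lit 33018) (S (nat_lit 56561) (L (nat_lit 3438036))
(L (nat_lit 4114982)))
(S (nat_lit 59026) (S (nat_lit 58019) (S (nat_lit 8822) (S (nat_lit 59025) (L (nat_lit 1465688))
(L (nat_lit 15279261)))
(L (nat_lit 23505980)))
(L (nat_lit 19433351)))
(L (nat_lit 21763591))))
(S (nat_lit 52441) (S (nat_lit 20693) (L (nat_lit 19099044))
(S (nat_lit 59026) (S (nat_lit 49278) (S (nat_lit 28586) (S (nat_lit 39536) (S (nat_lit 10707) (L (nat_lit 18000568))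
(L (nat_lit 23531737)))
(L (nat_lit 23491940)))
(L (nat_lit 3534357)))
(L (nat_lit 7754628)))
(L (nat_lit 13244295))))
(L (nat_lit 25214226)))))
(S (nat_lit 27800) (S (nat_lit 6590) (S (nat_lit 12165) (S (nat_lit 52179) (S (nat_lit 12473) (L (nat_lit 23267180))
(L (nat_lit 21439397)))
(L (nat_lit 4106865)))
(S (nat_lit 37170) (S (nat_lit 19768) (L (nat_lit 14732169))
(L (nat_lit 14699805)))
(L (nat_lit 16010117))))
(S (nat_lit 26354) (S (nat_lit 12165) (S (nat_lit 12473) (S (nat_lit 27131) (S (nat_lit 16544) (L (nat_lit 14962564))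
(L (nat_lit 14960829)))
(L (nat_lit 16051285)))
(L (nat_lit 15996541)))
(L (nat_lit 16385928)))
(S (nat_lit 46118) (S (nat_lit 8825) (S (nat_lit 30716) (S (nat_lit 7367) (S (nat_lit 35099) (S (nat_lit 8822) (L (nat_lit 1883413))
(L (nat_lit 15332580)))
(L (nat_lit 10308004)))
(L (nat_lit 23327825)))
(L (nat_lit 4011347)))
(S (nat_lit 28589) (S (nat_lit 10952) (S (nat_lit 49275) (S (nat_lit 37303) (S (nat_lit 42027) (L (nat_lit 26820866))
(L (nat_lit 16515443)))
(L (nat_lit 30717075)))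
(L (nat_lit 3987728)))
(L (nat_lit 8172723)))
(S (nat_lit 48353) (S (nat_lit 59026) (S (nat_lit 7367) (S (nat_lit 33415) (S (nat_lit 12166) (L (nat_lit 11178897))
(L (nat_lit 21247003)))
(L (nat_lit 16053267)))
(L (nat_lit 13866835)))
(L (nat_lit 2893421)))
(L (nat_lit 25508947)))))
(L (nat_lit 25244362)))))
(S (nat_lit 47564) (S (nat_lit 16082) (S (nat_lit 16340) (S (nat_lit 35099) (S (nat_lit 12166) (S (nat_lit 58019) (L (nat_lit 14895261))
(L (nat_lit 3860999)))
(L (nat_lit 26874157)))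
(L (nat_lit 8416847)))
(S (nat_lit 36104) (S (nat_lit 12473) (S (nat_lit 45407) (S (nat_lit 39532) (S (nat_lit 58019) (L (nat_lit 15791720))
(L (nat_lit 3926535)))
(L (nat_lit 23462792)))
(L (nat_lit 23521572)))
(L (nat_lit 9835196)))
(S (nat_lit 55868) (S (nat_lit 11761) (L (nat_lit 683310))
(S (nat_lit 12166) (S (nat_lit 52441) (S (nat_lit 56561) (L (nat_lit 13955684))
(L (nat_lit 14010394)))
(L (nat_lit 15437575)))
(L (nat_lit 3894509))))
(L (nat_lit 25477827)))))
(S (nat_lit 35846) (S (nat_lit 12913) (S (nat_lit 52001) (S (nat_lit 40569) (S (nat_lit 55868) (L (nat_lit 1450620))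
(L (nat_lit 3661607)))
(L (nat_lit 23935202)))
(L (nat_lit 8786618)))
(S (nat_lit 32677) (S (nat_lit 39261) (L (nat_lit 23465181))
(L (nat_lit 30807285)))
(S (nat_lit 52441) (S (nat_lit 35099) (S (nat_lit 59025) (L (nat_lit 15587557))
(L (nat_lit 2583799)))
(L (nat_lit 8449458)))
(L (nat_lit 25925002)))))
(S (nat_lit 55610) (S (nat_lit 17539) (S (nat_lit 12166) (S (nat_lit 13391) (S (nat_lit 45188) (L (nat_lit 13640378))
(L (nat_lit 23871714)))
(L (nat_lit 13847425)))
(L (nat_lit 5926125)))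
(S (nat_lit 37303) (S (nat_lit 38252) (S (nat_lit 33415) (L (nat_lit 16683626))
(L (nat_lit 9176595)))
(L (nat_lit 6109863)))
(S (nat_lit 57067) (S (nat_lit 36104) (S (nat_lit 32677) (S (nat_lit 22263) (L (nat_lit 22979106))
(L (nat_lit 30842995)))
(L (nat_lit 8307730)))
(L (nat_lit 5552914)))
(L (nat_lit 25283949)))))
(L (nat_lit 25889255)))))
(L (nat_lit 25544881)))))
(L (nat_lit 25510594)))))
(S (nat_lit 30472) (S (nat_lit 19494) (S (nat_lit 16340) (S (nat_lit 10707) (S (nat_lit 51693) (S (nat_lit 33415) (S (nat_lit 5879) (S (nat_lit 15335) (L (nat_lit 11592269))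
(L (nat_lit 22254012)))
(L (nat_lit 18158204)))
(L (nat_lit 23335453)))
(L (nat_lit 27759210)))
(S (nat_lit 30471) (S (nat_lit 12165) (S (nat_lit 5879) (L (nat_lit 26386028))
(L (nat_lit 16061053)))
(S (nat_lit 31929) (S (nat_lit 42983) (L (nat_lit 31078410))
(L (nat_lit 8281103)))
(S (nat_lit 51693) (S (nat_lit 5879) (S (nat_lit 12473) (S (nat_lit 44927) (S (nat_lit 51694) (L (nat_lit 28968390))
(L (nat_lit 15012476)))
(L (nat_lit 15343363)))
(L (nat_lit 15995516)))
(L (nat_lit 16061052)))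
(L (nat_lit 25336212)))))
(S (nat_lit 50235) (S (nat_lit 5879) (S (nat_lit 12473) (S (nat_lit 52441) (S (nat_lit 51693) (S (nat_lit 11501) (L (nat_lit 342650))
(L (nat_lit 16059069)))
(L (nat_lit 22602762)))
(L (nat_lit 9225825)))
(L (nat_lit 15929980)))
(L (nat_lit 15962748)))
(L (nat_lit 25713675)))))
(S (nat_lit 36104) (S (nat_lit 8) (S (nat_lit 18491) (S (nat_lit 15335) (S (nat_lit 19767) (L (nat_lit 15952018))
(L (nat_lit 22033319)))
(L (nat_lit 14698877)))
(S (nat_lit 38255) (S (nat_lit 11501) (S (nat_lit 59026) (S (nat_lit 59030) (L (nat_lit 23265848))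
(L (nat_lit 14880530)))
(L (nat_lit 18890634)))
(S (nat_lit 36859) (L (nat_lit 3745711))
(L (nat_lit 7223904))))
(S (nat_lit 58019) (S (nat_lit 14622) (S (nat_lit 33155) (L (nat_lit 30016881))
(L (nat_lit 15813418)))
(L (nat_lit 22886593)))
(L (nat_lit 25250311)))))
(S (nat_lit 19772) (S (nat_lit 12473) (S (nat_lit 59026) (S (nat_lit 1) (L (nat_lit 30811157))
(L (nat_lit 12623483)))
(L (nat_lit 27665459)))
(S (nat_lit 32237) (S (nat_lit 50235) (S (nat_lit 31930) (L (nat_lit 22942121))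
(L (nat_lit 30970470)))
(L (nat_lit 27726441)))
(S (nat_lit 52001) (S (nat_lit 19765) (L (nat_lit 21391588))
(L (nat_lit 3567829)))
(L (nat_lit 25858318)))))
(S (nat_lit 39536) (S (nat_lit 13651) (S (nat_lit 13650) (S (nat_lit 58016) (S (nat_lit 59026) (S (nat_lit 19495) (L (nat_lit 17877306))
(L (nat_lit 4107827)))
(L (nat_lit 12807873)))
(L (nat_lit 3861033)))
(L (nat_lit 13472119)))
(S (nat_lit 33415) (S (nat_lit 18136) (L (nat_lit 7232528))
(S (nat_lit 38255) (S (nat_lit 26645) (S (nat_lit 4) (S (nat_lit 6878) (S (nat_lit 57067) (S (nat_lit 7364) (L (nat_lit 18777429))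
(L (nat_lit 13276935)))
(L (nat_lit 6170003)))
(L (nat_lit 7227075)))
(L (nat_lit 19292265)))
(L (nat_lit 10085857)))
(L (nat_lit 23149321))))
(S (nat_lit 53179) (S (nat_lit 22929) (S (nat_lit 35099) (S (nat_lit 36308) (L (nat_lit 18174106))
(L (nat_lit 17952425)))
(L (nat_lit 3849561)))
(S (nat_lit 34445) (L (nat_lit 18750052))
(L (nat_lit 18762020))))
(L (nat_lit 25442945)))))
(L (nat_lit 25396791)))))
(S (nat_lit 55868) (S (nat_lit 9747) (S (nat_lit 2986) (S (nat_lit 51693) (S (nat_lit 25643) (S (nat_lit 9748) (L (nat_lit 8786588))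
(L (nat_lit 21831825)))
(L (nat_lit 30642796)))
(L (nat_lit 27433585)))
(S (nat_lit 22750) (S (nat_lit 1991) (S (nat_lit 59025) (S (nat_lit 33902) (L (nat_lit 29379823))
(L (nat_lit 470836)))
(L (nat_lit 21374755)))
(S (nat_lit 32003) (L (nat_lit 10293749))
(L (nat_lit 13443680))))
(S (nat_lit 42514) (S (nat_lit 7367) (S (nat_lit 9751) (S (nat_lit 12913) (L (nat_lit 3915996))
(L (nat_lit 6106797)))
(L (nat_lit 15542848)))
(S (nat_lit 39741) (L (nat_lit 8569596))
(L (nat_lit 21153607))))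
(L (nat_lit 25898402)))))
(S (nat_lit 29511) (S (nat_lit 25643) (S (nat_lit 3166) (S (nat_lit 13650) (S (nat_lit 49279) (S (nat_lit 36308) (S (nat_lit 51693) (S (nat_lit 28589) (L (nat_lit 13996853))
(L (nat_lit 19763754)))
(L (nat_lit 13471990)))
(L (nat_lit 13296898)))
(L (nat_lit 28020945)))
(L (nat_lit 26939911)))
(S (nat_lit 47516) (L (nat_lit 15634677))
(L (nat_lit 11080593))))
(S (nat_lit 27183) (L (nat_lit 30937462))
(L (nat_lit 8131148))))
(S (nat_lit 49275) (S (nat_lit 6992) (S (nat_lit 35846) (L (nat_lit 10907266))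
(L (nat_lit 2515252)))
(S (nat_lit 11501) (S (nat_lit 6323) (S (nat_lit 43469) (S (nat_lit 39536) (S (nat_lit 57067) (S (nat_lit 35846) (S (nat_lit 45674) (S (nat_lit 39266) (S (nat_lit 8822) (S (nat_lit 45407) (S (nat_lit 52179) (L (nat_lit 14801148))
(L (nat_lit 9060413)))
(L (nat_lit 14768442)))
(S (nat_lit 28586) (S (nat_lit 58016) (S (nat_lit 59025) (S (nat_lit 12473) (S (nat_lit 1994) (L (nat_lit 2596540))
(L (nat_lit 12207970)))
(L (nat_lit 12464804)))
(L (nat_lit 9256085)))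
(L (nat_lit 27349262)))
(S (nat_lit 48350) (S (nat_lit 52440) (L (nat_lit 1452730))
(L (nat_lit 20266755)))
(L (nat_lit 25678890)))))
(L (nat_lit 13655848)))
(L (nat_lit 9125946)))
(L (nat_lit 2515250)))
(L (nat_lit 21905762)))
(L (nat_lit 10513943)))
(L (nat_lit 27271919)))
(S (nat_lit 24601) (L (nat_lit 4104943))
(L (nat_lit 16553640))))
(L (nat_lit 3568979))))
(L (nat_lit 25745480)))))
(L (nat_lit 25829549)))))
(S (nat_lit 39258) (S (nat_lit 9751) (S (nat_lit 3) (S (nat_lit 23219) (S (nat_lit 39536) (L (nat_lit 30808178))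
(L (nat_lit 10899269)))
(L (nat_lit 1464635)))
(S (nat_lit 19767) (S (nat_lit 8036) (S (nat_lit 59026) (S (nat_lit 59023) (L (nat_lit 28710261))
(L (nat_lit 8809587)))
(L (nat_lit 21368711)))
(L (nat_lit 21375164)))
(S (nat_lit 39531) (S (nat_lit 13650) (S (nat_lit 5879) (S (nat_lit 3166) (S (nat_lit 39259) (S (nat_lit 9747) (S (nat_lit 22750) (L (nat_lit 30419692))
(L (nat_lit 3906040)))
(L (nat_lit 10883894)))
(L (nat_lit 23970983)))
(L (nat_lit 4801419)))
(L (nat_lit 26906924)))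
(S (nat_lit 33414) (S (nat_lit 18488) (S (nat_lit 54700) (L (nat_lit 14881402))
(L (nat_lit 30609843)))
(L (nat_lit 4770077)))
(S (nat_lit 53178) (S (nat_lit 46409) (S (nat_lit 8822) (L (nat_lit 4046069))
(L (nat_lit 17404157)))
(L (nat_lit 10540945)))
(L (nat_lit 25891148)))))
(L (nat_lit 25217479)))))
(S (nat_lit 29515) (S (nat_lit 12166) (S (nat_lit 3166) (S (nat_lit 8825) (S (nat_lit 15335) (S (nat_lit 45407) (S (nat_lit 51693) (L (nat_lit 8994725))
(L (nat_lit 15339771)))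
(L (nat_lit 9081772)))
(L (nat_lit 14692244)))
(L (nat_lit 26546739)))
(S (nat_lit 50196) (L (nat_lit 23631625))
(L (nat_lit 18955147))))
(S (nat_lit 31930) (S (nat_lit 13183) (S (nat_lit 23705) (S (nat_lit 35099) (S (nat_lit 7367) (S (nat_lit 25163) (L (nat_lit 17833842))
(L (nat_lit 13657398)))
(L (nat_lit 21151965)))
(L (nat_lit 4013642)))
(L (nat_lit 7997231)))
(S (nat_lit 32947) (S (nat_lit 36308) (S (nat_lit 36311) (L (nat_lit 11717553))
(L (nat_lit 31164969)))
(L (nat_lit 30686880)))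
(S (nat_lit 52711) (S (nat_lit 24674) (S (nat_lit 21758) (S (nat_lit 12473) (S (nat_lit 25646) (L (nat_lit 29542923))
(L (nat_lit 7869366)))
(L (nat_lit 15901309)))
(L (nat_lit 30876320)))
(S (nat_lit 42604) (L (nat_lit 30529035))
(L (nat_lit 30465324))))
(L (nat_lit 25336342)))))
(S (nat_lit 51694) (S (nat_lit 14623) (S (nat_lit 42983) (S (nat_lit 12473) (S (nat_lit 44435) (L (nat_lit 9919608))
(L (nat_lit 2779340)))
(L (nat_lit 26677459)))
(L (nat_lit 2517303)))
(S (nat_lit 34387) (S (nat_lit 37302) (S (nat_lit 49275) (S (nat_lit 39532) (L (nat_lit 23257360))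
(L (nat_lit 24032547)))
(L (nat_lit 20134820)))
(L (nat_lit 24035494)))
(S (nat_lit 54151) (S (nat_lit 30471) (S (nat_lit 20806) (S (nat_lit 6146) (S (nat_lit 3165) (L (nat_lit 30591277))
(L (nat_lit 26841328)))
(L (nat_lit 18584860)))
(L (nat_lit 31135275)))
(L (nat_lit 13518857)))
(L (nat_lit 25417870)))))
(L (nat_lit 25668690)))))
(S (nat_lit 49279) (S (nat_lit 17030) (S (nat_lit 6593) (S (nat_lit 39531) (S (nat_lit 27131) (L (nat_lit 22050097))
(L (nat_lit 30592369)))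
(L (nat_lit 27657523)))
(S (nat_lit 26357) (S (nat_lit 34386) (S (nat_lit 13391) (S (nat_lit 31265) (S (nat_lit 1994) (L (nat_lit 6750813))
(L (nat_lit 3666167)))
(L (nat_lit 30821728)))
(L (nat_lit 4598674)))
(L (nat_lit 15477313)))
(S (nat_lit 46121) (S (nat_lit 20806) (S (nat_lit 49278) (L (nat_lit 16050757))
(L (nat_lit 20313104)))
(L (nat_lit 14733629)))
(L (nat_lit 25664595)))))
(S (nat_lit 36794) (S (nat_lit 31265) (S (nat_lit 16082) (S (nat_lit 39532) (S (nat_lit 29511) (S (nat_lit 20806) (S (nat_lit 24671) (S (nat_lit 59026) (S (nat_lit 23705) (S (nat_lit 35772) (L (nat_lit 8469145))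
(S (nat_lit 45188) (S (nat_lit 3455) (S (nat_lit 20401) (L (nat_lit 15621314))
(L (nat_lit 23962116)))
(L (nat_lit 8812256)))
(L (nat_lit 27997472))))
(L (nat_lit 5808891)))
(L (nat_lit 8416787)))
(L (nat_lit 1366523)))
(L (nat_lit 15433976)))
(L (nat_lit 19250052)))
(L (nat_lit 25008206)))
(L (nat_lit 26614341)))
(S (nat_lit 52991) (S (nat_lit 3455) (L (nat_lit 24159675))
(L (nat_lit 3562375)))
(L (nat_lit 30821728))))
(S (nat_lit 56558) (S (nat_lit 16082) (S (nat_lit 8) (S (nat_lit 39532) (S (nat_lit 12473) (S (nat_lit 13391) (S (nat_lit 21758) (S (nat_lit 46892) (S (nat_lit 19502) (S (nat_lit 51693) (L (nat_lit 8416658))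
(L (nat_lit 3054193)))
(L (nat_lit 3565190)))
(L (nat_lit 27960709)))
(L (nat_lit 4997367)))
(L (nat_lit 2534290)))
(L (nat_lit 15868821)))
(L (nat_lit 11089020)))
(L (nat_lit 20144676)))
(S (nat_lit 32975) (L (nat_lit 30737938))
(L (nat_lit 10905778))))
(L (nat_lit 25238191)))))
(L (nat_lit 25764224)))))
(S (nat_lit 59022) (S (nat_lit 2500) (S (nat_lit 2499) (S (nat_lit 3455) (S (nat_lit 3941) (S (nat_lit 27131) (S (nat_lit 4202) (L (nat_lit 26233254))
(L (nat_lit 15402268)))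
(L (nat_lit 2664187)))
(L (nat_lit 19275837)))
(S (nat_lit 23219) (S (nat_lit 15430) (L (nat_lit 18490493))
(S (nat_lit 59023) (S (nat_lit 55610) (S (nat_lit 38255) (S (nat_lit 59025) (S (nat_lit 27128) (S (nat_lit 13650) (L (nat_lit 14299011))
(L (nat_lit 26270247)))
(L (nat_lit 25007527)))
(L (nat_lit 2500315)))
(L (nat_lit 23995811)))
(L (nat_lit 21892519)))
(L (nat_lit 2500467))))
(S (nat_lit 42983) (S (nat_lit 59023) (S (nat_lit 52441) (S (nat_lit 3941) (L (nat_lit 10504083))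
(L (nat_lit 2678664)))
(L (nat_lit 14722839)))
(L (nat_lit 2512807)))
(L (nat_lit 25581794)))))
(S (nat_lit 22263) (S (nat_lit 11501) (S (nat_lit 7364) (S (nat_lit 35360) (S (nat_lit 12473) (L (nat_lit 7156389))
(L (nat_lit 15931005)))
(L (nat_lit 30966132)))
(S (nat_lit 23021) (L (nat_lit 26746999))
(L (nat_lit 23622695))))
(S (nat_lit 31265) (S (nat_lit 39531) (S (nat_lit 5399) (L (nat_lit 29370097))
(L (nat_lit 19083325)))
(L (nat_lit 27472545)))
(S (nat_lit 51029) (S (nat_lit 32946) (S (nat_lit 24671) (S (nat_lit 25163) (L (nat_lit 2534327))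
(L (nat_lit 21934183)))
(L (nat_lit 9104928)))
(L (nat_lit 23953772)))
(L (nat_lit 25546178)))))
(S (nat_lit 42027) (S (nat_lit 11501) (S (nat_lit 14138) (L (nat_lit 1918325))
(L (nat_lit 26234160)))
(S (nat_lit 31265) (S (nat_lit 51693) (S (nat_lit 59026) (L (nat_lit 23468896))
(L (nat_lit 21835169)))
(L (nat_lit 27997258)))
(S (nat_lit 51029) (S (nat_lit 27800) (S (nat_lit 10707) (S (nat_lit 1994) (L (nat_lit 28416689))
(L (nat_lit 19744066)))
(L (nat_lit 23430649)))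
(S (nat_lit 42087) (L (nat_lit 26226317))
(L (nat_lit 30804646))))
(L (nat_lit 25864204)))))
(L (nat_lit 25216742)))))
(S (nat_lit 22264) (S (nat_lit 15596) (S (nat_lit 14571) (L (nat_lit 2737958))
(S (nat_lit 59026) (S (nat_lit 59030) (S (nat_lit 3941) (S (nat_lit 28349) (S (nat_lit 32947) (S (nat_lit 19768) (S (nat_lit 46406) (S (nat_lit 23219) (S (nat_lit 13650) (S (nat_lit 44927) (S (nat_lit 7367) (L (nat_lit 3360475))
(L (nat_lit 23328228)))
(L (nat_lit 15605475)))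
(L (nat_lit 6114669)))
(L (nat_lit 22394656)))
(L (nat_lit 27645009)))
(L (nat_lit 15296803)))
(L (nat_lit 15029405)))
(L (nat_lit 18958184)))
(S (nat_lit 6530) (S (nat_lit 45520) (L (nat_lit 15402328))
(L (nat_lit 20322428)))
(L (nat_lit 15588392))))
(L (nat_lit 13440646)))
(L (nat_lit 20981177))))
(S (nat_lit 35360) (S (nat_lit 18491) (S (nat_lit 39259) (S (nat_lit 25163) (L (nat_lit 9062305))
(L (nat_lit 21181281)))
(L (nat_lit 31016289)))
(S (nat_lit 38255) (S (nat_lit 23966) (S (nat_lit 59025) (S (nat_lit 51029) (L (nat_lit 29375051))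
(L (nat_lit 14707027)))
(L (nat_lit 8810083)))
(L (nat_lit 21181280)))
(S (nat_lit 58019) (S (nat_lit 19765) (S (nat_lit 19846) (L (nat_lit 2437973))
(L (nat_lit 23928227)))
(L (nat_lit 14731512)))
(L (nat_lit 25431476)))))
(S (nat_lit 55124) (S (nat_lit 8822) (S (nat_lit 57066) (S (nat_lit 23705) (L (nat_lit 30607797))
(L (nat_lit 30824550)))
(L (nat_lit 13313793)))
(S (nat_lit 28586) (S (nat_lit 22929) (S (nat_lit 52710) (S (nat_lit 7367) (L (nat_lit 8143957))
(L (nat_lit 21272433)))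
(L (nat_lit 21165420)))
(L (nat_lit 30690724)))
(S (nat_lit 48350) (S (nat_lit 29511) (S (nat_lit 53666) (L (nat_lit 7739282))
(L (nat_lit 21791025)))
(S (nat_lit 56930) (L (nat_lit 7792320))
(L (nat_lit 7100932))))
(L (nat_lit 25312906)))))
(L (nat_lit 25892173)))))
(S (nat_lit 42028) (S (nat_lit 10952) (S (nat_lit 51693) (S (nat_lit 45188) (S (nat_lit 32416) (S (nat_lit 12473) (L (nat_lit 9253541))
(L (nat_lit 23278468)))
(L (nat_lit 8210816)))
(L (nat_lit 24143084)))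
(L (nat_lit 27756138)))
(S (nat_lit 30716) (S (nat_lit 7367) (S (nat_lit 12912) (S (nat_lit 26084) (L (nat_lit 30418485))
(L (nat_lit 11355714)))
(L (nat_lit 4007601)))
(S (nat_lit 27131) (S (nat_lit 12912) (S (nat_lit 13650) (S (nat_lit 27800) (L (nat_lit 11953893))
(L (nat_lit 16588453)))
(L (nat_lit 4040213)))
(L (nat_lit 4040305)))
(S (nat_lit 46895) (S (nat_lit 48113) (S (nat_lit 37302) (S (nat_lit 13650) (S (nat_lit 19768) (S (nat_lit 26084) (L (nat_lit 20426530))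
(L (nat_lit 11420855)))
(L (nat_lit 8808564)))
(L (nat_lit 24159117)))
(L (nat_lit 2644775)))
(L (nat_lit 2646227)))
(L (nat_lit 25478259)))))
(S (nat_lit 50480) (S (nat_lit 12912) (S (nat_lit 46895) (S (nat_lit 6593) (S (nat_lit 37302) (L (nat_lit 13366500))
(L (nat_lit 2729777)))
(L (nat_lit 21095915)))
(L (nat_lit 20784580)))
(S (nat_lit 23027) (L (nat_lit 21033449))
(L (nat_lit 23929871))))
(L (nat_lit 25207404)))))
(L (nat_lit 25514097)))))
(L (nat_lit 25247093)))))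
(S (nat_lit 50236) (S (nat_lit 2986) (S (nat_lit 17538) (S (nat_lit 6881) (S (nat_lit 12651) (S (nat_lit 36101) (L (nat_lit 21146540))
(L (nat_lit 23315329)))
(S (nat_lit 32415) (S (nat_lit 39536) (S (nat_lit 8036) (S (nat_lit 29514) (L (nat_lit 28509776))
(L (nat_lit 404060)))
(L (nat_lit 21335953)))
(L (nat_lit 10537809)))
(S (nat_lit 52179) (S (nat_lit 59025) (L (nat_lit 22815889))
(L (nat_lit 2762641)))
(L (nat_lit 25539700)))))
(S (nat_lit 26645) (S (nat_lit 17539) (S (nat_lit 36797) (L (nat_lit 22441187))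
(S (nat_lit 43259) (L (nat_lit 630700))
(L (nat_lit 30787969))))
(S (nat_lit 37303) (S (nat_lit 25910) (S (nat_lit 48113) (S (nat_lit 45188) (L (nat_lit 29826135))
(L (nat_lit 24536135)))
(L (nat_lit 8915642)))
(L (nat_lit 30514924)))
(S (nat_lit 57067) (S (nat_lit 22930) (S (nat_lit 52711) (L (nat_lit 18083392))
(L (nat_lit 21497177)))
(L (nat_lit 31039601)))
(L (nat_lit 25709890)))))
(S (nat_lit 46409) (S (nat_lit 5399) (S (nat_lit 36101) (S (nat_lit 36311) (S (nat_lit 55868) (L (nat_lit 16388475))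
(L (nat_lit 21216129)))
(L (nat_lit 23620647)))
(L (nat_lit 6739843)))
(S (nat_lit 25163) (S (nat_lit 15596) (S (nat_lit 13182) (S (nat_lit 54151) (S (nat_lit 2500) (L (nat_lit 31049025))
(L (nat_lit 2480049)))
(L (nat_lit 17698375)))
(L (nat_lit 13960857)))
(L (nat_lit 17092481)))
(S (nat_lit 44927) (S (nat_lit 3455) (S (nat_lit 36101) (L (nat_lit 4014823))
(L (nat_lit 23497609)))
(L (nat_lit 15555655)))
(L (nat_lit 25822446)))))
(L (nat_lit 25691413)))))
(S (nat_lit 37302) (S (nat_lit 19494) (S (nat_lit 12652) (S (nat_lit 57893) (L (nat_lit 6169197))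
(S (nat_lit 59026) (S (nat_lit 12473) (S (nat_lit 31929) (S (nat_lit 47564) (L (nat_lit 4599482))
(L (nat_lit 6315578)))
(L (nat_lit 6976591)))
(L (nat_lit 9835132)))
(L (nat_lit 2520679))))
(S (nat_lit 32416) (S (nat_lit 36101) (L (nat_lit 17667719))
(L (nat_lit 30858311)))
(S (nat_lit 52180) (S (nat_lit 6881) (S (nat_lit 16547) (S (nat_lit 6320) (L (nat_lit 2482064))
(L (nat_lit 3657084)))
(L (nat_lit 14788220)))
(L (nat_lit 21932209)))
(L (nat_lit 25733239)))))
(S (nat_lit 39258) (S (nat_lit 4910) (S (nat_lit 49276) (S (nat_lit 51694) (S (nat_lit 36101) (S (nat_lit 53178) (L (nat_lit 5906321))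
(L (nat_lit 27403829)))
(L (nat_lit 20244993)))
(L (nat_lit 575804)))
(L (nat_lit 20848785)))
(S (nat_lit 24674) (S (nat_lit 31929) (L (nat_lit 8805403))
(L (nat_lit 30596337)))
(S (nat_lit 44438) (S (nat_lit 8) (S (nat_lit 31265) (S (nat_lit 19767) (L (nat_lit 29797555))
(L (nat_lit 2550439)))
(L (nat_lit 9229696)))
(L (nat_lit 215612)))
(L (nat_lit 25319724)))))
(S (nat_lit 59022) (S (nat_lit 13741) (L (nat_lit 21170744))
(S (nat_lit 26645) (S (nat_lit 59023) (S (nat_lit 2985) (S (nat_lit 19768) (S (nat_lit 13391) (L (nat_lit 5980541))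
(L (nat_lit 2861969)))
(L (nat_lit 2956975)))
(L (nat_lit 8570770)))
(L (nat_lit 2901671)))
(L (nat_lit 8439731))))
(L (nat_lit 25443511)))))
(S (nat_lit 57066) (S (nat_lit 13183) (S (nat_lit 2500) (S (nat_lit 19497) (L (nat_lit 1779599))
(L (nat_lit 12508305)))
(S (nat_lit 22264) (S (nat_lit 8431) (L (nat_lit 9323699))
(S (nat_lit 24674) (S (nat_lit 21758) (S (nat_lit 36101) (L (nat_lit 15434664))
(L (nat_lit 20155277)))
(L (nat_lit 1302289)))
(L (nat_lit 8840864))))
(S (nat_lit 42028) (S (nat_lit 53666) (L (nat_lit 10664789))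
(L (nat_lit 1697073)))
(L (nat_lit 25613416)))))
(S (nat_lit 32947) (S (nat_lit 9751) (S (nat_lit 13391) (S (nat_lit 16547) (S (nat_lit 53666) (L (nat_lit 9594418))
(L (nat_lit 8086641)))
(L (nat_lit 14797671)))
(L (nat_lit 2935153)))
(S (nat_lit 29515) (S (nat_lit 36101) (S (nat_lit 8822) (S (nat_lit 15335) (L (nat_lit 5499535))
(L (nat_lit 14914204)))
(L (nat_lit 15012508)))
(L (nat_lit 23523399)))
(S (nat_lit 49279) (S (nat_lit 22930) (S (nat_lit 42983) (L (nat_lit 30988299))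
(L (nat_lit 14551351)))
(L (nat_lit 7211761)))
(L (nat_lit 25383301)))))
(S (nat_lit 52711) (S (nat_lit 12652) (S (nat_lit 53666) (S (nat_lit 6590) (L (nat_lit 3466928))
(L (nat_lit 26805674)))
(L (nat_lit 21488743)))
(S (nat_lit 32416) (S (nat_lit 18491) (S (nat_lit 6878) (L (nat_lit 26650241))
(L (nat_lit 21315677)))
(L (nat_lit 11285091)))
(S (nat_lit 52180) (S (nat_lit 45188) (S (nat_lit 53178) (S (nat_lit 41522) (S (nat_lit 16547) (L (nat_lit 28974628))
(L (nat_lit 22191516)))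
(L (nat_lit 2442906)))
(L (nat_lit 21295117)))
(L (nat_lit 23490631)))
(L (nat_lit 25892112)))))
(L (nat_lit 25827874)))))
(L (nat_lit 25447872)))))
(S (nat_lit 22750) (S (nat_lit 8) (S (nat_lit 1042) (S (nat_lit 16547) (S (nat_lit 24671) (S (nat_lit 22749) (L (nat_lit 8574458))
(L (nat_lit 7062682)))
(L (nat_lit 8447543)))
(S (nat_lit 36311) (S (nat_lit 8825) (S (nat_lit 59026) (S (nat_lit 52179) (L (nat_lit 14863239))
(L (nat_lit 4103793)))
(L (nat_lit 2973005)))
(L (nat_lit 6787836)))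
(S (nat_lit 56075) (S (nat_lit 9751) (S (nat_lit 12652) (S (nat_lit 18488) (L (nat_lit 7368115))
(L (nat_lit 2935271)))
(L (nat_lit 2924205)))
(L (nat_lit 9167237)))
(L (nat_lit 25448589)))))
(S (nat_lit 20806) (S (nat_lit 12473) (S (nat_lit 4907) (S (nat_lit 17538) (S (nat_lit 59026) (S (nat_lit 38252) (L (nat_lit 21857612))
(L (nat_lit 7059545)))
(L (nat_lit 21374852)))
(L (nat_lit 7156885)))
(S (nat_lit 36859) (L (nat_lit 6318769))
(L (nat_lit 6818429))))
(S (nat_lit 32237) (S (nat_lit 9751) (S (nat_lit 9747) (L (nat_lit 29530645))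
(L (nat_lit 21369177)))
(L (nat_lit 21369707)))
(S (nat_lit 52001) (S (nat_lit 19765) (S (nat_lit 18491) (L (nat_lit 28496110))
(L (nat_lit 22518972)))
(L (nat_lit 14720632)))
(L (nat_lit 25564373)))))
(S (nat_lit 40570) (S (nat_lit 6593) (S (nat_lit 6323) (S (nat_lit 6146) (S (nat_lit 25646) (S (nat_lit 12165) (L (nat_lit 21497738))
(L (nat_lit 15846314)))
(L (nat_lit 22275492)))
(L (nat_lit 15769527)))
(L (nat_lit 5623228)))
(S (nat_lit 26357) (S (nat_lit 59026) (S (nat_lit 1041) (S (nat_lit 23705) (S (nat_lit 18491) (L (nat_lit 8293906))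
(L (nat_lit 2863945)))
(L (nat_lit 12753657)))
(L (nat_lit 12688121)))
(L (nat_lit 2901610)))
(S (nat_lit 46121) (S (nat_lit 56558) (S (nat_lit 42513) (S (nat_lit 1041) (S (nat_lit 13391) (L (nat_lit 20170658))
(L (nat_lit 2509739)))
(L (nat_lit 2877741)))
(L (nat_lit 16535841)))
(L (nat_lit 4116781)))
(L (nat_lit 25238003)))))
(L (nat_lit 25902182)))))
(S (nat_lit 19772) (S (nat_lit 6878) (S (nat_lit 6320) (S (nat_lit 19768) (S (nat_lit 19767) (S (nat_lit 41522) (L (nat_lit 11962163))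
(L (nat_lit 2353841)))
(L (nat_lit 15599271)))
(L (nat_lit 2748905)))
(S (nat_lit 26084) (S (nat_lit 52711) (S (nat_lit 19765) (S (nat_lit 25643) (S (nat_lit 25646) (S (nat_lit 27800) (L (nat_lit 4644219))
(L (nat_lit 4021520)))
(L (nat_lit 2450966)))
(L (nat_lit 21215257)))
(L (nat_lit 2345405)))
(L (nat_lit 21534908)))
(S (nat_lit 45848) (S (nat_lit 30716) (S (nat_lit 35099) (S (nat_lit 16337) (L (nat_lit 14895293))
(L (nat_lit 14914300)))
(L (nat_lit 4084138)))
(L (nat_lit 8445804)))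
(L (nat_lit 25666743)))))
(S (nat_lit 26642) (S (nat_lit 14622) (S (nat_lit 8831) (L (nat_lit 31047969))
(S (nat_lit 33414) (S (nat_lit 57067) (L (nat_lit 19699888))
(L (nat_lit 21406876)))
(L (nat_lit 10159644))))
(S (nat_lit 34386) (S (nat_lit 48113) (S (nat_lit 2500) (S (nat_lit 25646) (L (nat_lit 23278433))
(L (nat_lit 2906534)))
(L (nat_lit 2846121)))
(L (nat_lit 2311866)))
(S (nat_lit 54150) (S (nat_lit 4910) (S (nat_lit 39529) (L (nat_lit 16508195))
(L (nat_lit 23109049)))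
(L (nat_lit 15784221)))
(L (nat_lit 25635456)))))
(S (nat_lit 46406) (S (nat_lit 19502) (S (nat_lit 26087) (S (nat_lit 49276) (S (nat_lit 19768) (L (nat_lit 28902824))
(L (nat_lit 3599017)))
(L (nat_lit 22423708)))
(S (nat_lit 54249) (L (nat_lit 22812043))
(L (nat_lit 22130444))))
(S (nat_lit 39266) (S (nat_lit 1881) (L (nat_lit 3797198))
(S (nat_lit 19767) (S (nat_lit 59026) (L (nat_lit 14895906))
(L (nat_lit 21835172)))
(L (nat_lit 30840915))))
(S (nat_lit 59030) (S (nat_lit 23219) (S (nat_lit 19497) (S (nat_lit 9747) (L (nat_lit 1427133))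
(L (nat_lit 21194242)))
(L (nat_lit 4105937)))
(L (nat_lit 11951193)))
(L (nat_lit 25445396)))))
(L (nat_lit 25691381)))))
(S (nat_lit 39536) (S (nat_lit 17030) (S (nat_lit 17539) (S (nat_lit 20806) (S (nat_lit 2499) (S (nat_lit 35846) (S (nat_lit 56072) (L (nat_lit 17680391))
(L (nat_lit 10335410)))
(L (nat_lit 11950235)))
(L (nat_lit 2616659)))
(L (nat_lit 22583357)))
(S (nat_lit 37303) (S (nat_lit 1041) (S (nat_lit 12913) (L (nat_lit 12437921))
(L (nat_lit 3498450)))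
(L (nat_lit 2863021)))
(S (nat_lit 57067) (S (nat_lit 22749) (S (nat_lit 56561) (L (nat_lit 30939747))
(L (nat_lit 7262755)))
(L (nat_lit 12312720)))
(L (nat_lit 25463251)))))
(S (nat_lit 36794) (S (nat_lit 14623) (S (nat_lit 1105) (L (nat_lit 11662065))
(S (nat_lit 59025) (S (nat_lit 12473) (S (nat_lit 28586) (L (nat_lit 30790049))
(L (nat_lit 2471829)))
(L (nat_lit 21181348)))
(L (nat_lit 6950799))))
(S (nat_lit 34387) (S (nat_lit 39261) (S (nat_lit 1041) (S (nat_lit 16547) (L (nat_lit 22232088))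
(L (nat_lit 15434599)))
(L (nat_lit 2878764)))
(L (nat_lit 23957001)))
(S (nat_lit 54151) (S (nat_lit 52180) (S (nat_lit 19497) (S (nat_lit 31929) (L (nat_lit 21371035))
(L (nat_lit 31080458)))
(L (nat_lit 3628377)))
(L (nat_lit 3809104)))
(L (nat_lit 25627926)))))
(S (nat_lit 56558) (S (nat_lit 31929) (S (nat_lit 33155) (S (nat_lit 18491) (S (nat_lit 8036) (S (nat_lit 56072) (S (nat_lit 33902) (L (nat_lit 29379016))
(L (nat_lit 14710002)))
(L (nat_lit 2384340)))
(L (nat_lit 21392520)))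
(L (nat_lit 26980545)))
(L (nat_lit 30836084)))
(S (nat_lit 41627) (S (nat_lit 58907) (L (nat_lit 30984512))
(L (nat_lit 13749096)))
(L (nat_lit 6479322))))
(L (nat_lit 25645126)))))
(L (nat_lit 25413809)))))
(S (nat_lit 42514) (S (nat_lit 18488) (S (nat_lit 18491) (S (nat_lit 15596) (S (nat_lit 59026) (S (nat_lit 19767) (S (nat_lit 59023) (S (nat_lit 51694) (S (nat_lit 31929) (L (nat_lit 7057561))
(L (nat_lit 31131018)))
(L (nat_lit 7926433)))
(L (nat_lit 14972641)))
(L (nat_lit 3033356)))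
(L (nat_lit 19738017)))
(S (nat_lit 35360) (S (nat_lit 56072) (S (nat_lit 19767) (S (nat_lit 42693) (L (nat_lit 30739890))
(L (nat_lit 25069994)))
(L (nat_lit 8808531)))
(L (nat_lit 16485223)))
(S (nat_lit 55124) (S (nat_lit 42513) (S (nat_lit 19767) (S (nat_lit 32946) (S (nat_lit 19768) (L (nat_lit 10916508))
(L (nat_lit 3362575)))
(L (nat_lit 23632028)))
(L (nat_lit 3027218)))
(L (nat_lit 5566962)))
(L (nat_lit 25349487)))))
(S (nat_lit 38255) (S (nat_lit 14466) (L (nat_lit 3907404))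
(S (nat_lit 32946) (S (nat_lit 19498) (L (nat_lit 1875378))
(L (nat_lit 22439047)))
(L (nat_lit 23960716))))
(S (nat_lit 58019) (S (nat_lit 3455) (S (nat_lit 39261) (S (nat_lit 49279) (L (nat_lit 17662535))
(L (nat_lit 14012444)))
(L (nat_lit 19998140)))
(S (nat_lit 23219) (S (nat_lit 53178) (S (nat_lit 56075) (L (nat_lit 19053415))
(L (nat_lit 16679527)))
(L (nat_lit 747047)))
(S (nat_lit 42983) (S (nat_lit 56075) (S (nat_lit 56561) (S (nat_lit 5879) (L (nat_lit 28949511))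
(L (nat_lit 19404828)))
(L (nat_lit 6769441)))
(L (nat_lit 16699431)))
(L (nat_lit 25376482)))))
(L (nat_lit 25934019)))))
(S (nat_lit 38252) (S (nat_lit 5399) (S (nat_lit 116) (L (nat_lit 4693628))
(S (nat_lit 32946) (S (nat_lit 12473) (S (nat_lit 44438) (S (nat_lit 14138) (S (nat_lit 25643) (S (nat_lit 4907) (L (nat_lit 28902857))
(L (nat_lit 16416989)))
(L (nat_lit 2350990)))
(L (nat_lit 2322001)))
(L (nat_lit 2779436)))
(L (nat_lit 9901692)))
(L (nat_lit 15342780))))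
(S (nat_lit 25163) (S (nat_lit 8036) (S (nat_lit 324) (L (nat_lit 14766983))
(S (nat_lit 6323) (S (nat_lit 4202) (L (nat_lit 9835129))
(L (nat_lit 5745404)))
(L (nat_lit 5890284))))
(S (nat_lit 27800) (S (nat_lit 59026) (S (nat_lit 51029) (S (nat_lit 23966) (L (nat_lit 27464182))
(L (nat_lit 21422088)))
(L (nat_lit 20777419)))
(L (nat_lit 7165348)))
(S (nat_lit 47564) (S (nat_lit 39529) (L (nat_lit 16901803))
(L (nat_lit 17367289)))
(L (nat_lit 25566357)))))
(S (nat_lit 44927) (S (nat_lit 2985) (S (nat_lit 35360) (S (nat_lit 36101) (L (nat_lit 29798115))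
(L (nat_lit 455399)))
(L (nat_lit 8406617)))
(S (nat_lit 22749) (S (nat_lit 24671) (S (nat_lit 48350) (S (nat_lit 39529) (S (nat_lit 25643) (S (nat_lit 27131) (L (nat_lit 27401717))
(L (nat_lit 7005669)))
(L (nat_lit 22262597)))
(L (nat_lit 23524578)))
(L (nat_lit 20354298)))
(L (nat_lit 30834935)))
(S (nat_lit 42513) (S (nat_lit 25643) (S (nat_lit 48350) (L (nat_lit 15915261))
(L (nat_lit 27694325)))
(L (nat_lit 22360964)))
(L (nat_lit 25932065)))))
(L (nat_lit 25713767)))))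
(S (nat_lit 58016) (S (nat_lit 19502) (S (nat_lit 52180) (S (nat_lit 6320) (S (nat_lit 31265) (S (nat_lit 39258) (S (nat_lit 6146) (S (nat_lit 45407) (S (nat_lit 24674) (L (nat_lit 16093882))
(L (nat_lit 16834314)))
(L (nat_lit 27923820)))
(L (nat_lit 20316381)))
(L (nat_lit 16787132)))
(L (nat_lit 8808098)))
(S (nat_lit 35922) (L (nat_lit 20351356))
(L (nat_lit 16354684))))
(L (nat_lit 12740199)))
(S (nat_lit 39266) (S (nat_lit 3166) (S (nat_lit 5882) (S (nat_lit 4202) (L (nat_lit 29072801))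
(L (nat_lit 20124092)))
(S (nat_lit 27622) (L (nat_lit 4486578))
(L (nat_lit 874918))))
(S (nat_lit 22930) (S (nat_lit 6320) (S (nat_lit 39531) (S (nat_lit 5882) (L (nat_lit 9455506))
(L (nat_lit 18946892)))
(L (nat_lit 27511916)))
(S (nat_lit 46813) (L (nat_lit 22876431))
(L (nat_lit 3712604))))
(S (nat_lit 42694) (S (nat_lit 7364) (L (nat_lit 14389500))
(L (nat_lit 1297852)))
(L (nat_lit 25445061)))))
(S (nat_lit 59030) (S (nat_lit 9751) (S (nat_lit 18491) (S (nat_lit 5882) (S (nat_lit 56072) (S (nat_lit 59026) (S (nat_lit 46892) (L (nat_lit 30032162))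
(L (nat_lit 22889479)))
(L (nat_lit 27465325)))
(L (nat_lit 16507047)))
(L (nat_lit 16603365)))
(S (nat_lit 20364) (L (nat_lit 900775))
(L (nat_lit 2814316))))
(S (nat_lit 29515) (S (nat_lit 18491) (S (nat_lit 42028) (L (nat_lit 288460))
(L (nat_lit 3909393)))
(L (nat_lit 9193644)))
(S (nat_lit 49279) (L (nat_lit 9463250))
(L (nat_lit 25546769)))))
(L (nat_lit 25383948)))))
(L (nat_lit 25252110)))))
(L (nat_lit 25603778)))))
(L (nat_lit 25899201)))))
(S (nat_lit 53405) (S (nat_lit 16082) (S (nat_lit 6146) (S (nat_lit 6320) (S (nat_lit 18488) (S (nat_lit 19502) (S (nat_lit 1991) (S (nat_lit 8822) (S (nat_lit 6590) (S (nat_lit 39258) (S (nat_lit 43469) (S (nat_lit 16337) (S (nat_lit 29511) (S (nat_lit 1205) (L (nat_lit 24347565))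
(S (nat_lit 12651) (L (nat_lit 2995415))
(S (nat_lit 16157) (L (nat_lit 4404050))
(L (nat_lit 23653417)))))
(L (nat_lit 13553738)))
(L (nat_lit 11418339)))
(L (nat_lit 23468801)))
(L (nat_lit 16806199)))
(L (nat_lit 26335659)))
(L (nat_lit 7493085)))
(L (nat_lit 19104189)))
(L (nat_lit 3813260)))
(S (nat_lit 38252) (S (nat_lit 28586) (S (nat_lit 51029) (S (nat_lit 8) (S (nat_lit 19502) (S (nat_lit 6590) (S (nat_lit 43469) (S (nat_lit 21755) (S (nat_lit 39258) (S (nat_lit 29511) (S (nat_lit 5882) (S (nat_lit 42514) (S (nat_lit 52180) (S (nat_lit 53179) (S (nat_lit 17538) (S (nat_lit 46895) (S (nat_lit 22929) (L (nat_lit 3424859))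
(L (nat_lit 22298684)))
(L (nat_lit 27890151)))
(S (nat_lit 24474) (L (nat_lit 7517948))
(S (nat_lit 50931) (L (nat_lit 17835736))
(L (nat_lit 26289809)))))
(L (nat_lit 21280860)))
(L (nat_lit 27994565)))
(L (nat_lit 28001571)))
(S (nat_lit 10417) (L (nat_lit 7080469))
(S (nat_lit 55789) (L (nat_lit 7495165))
(L (nat_lit 20030284)))))
(L (nat_lit 5626394)))
(L (nat_lit 17060988)))
(L (nat_lit 22506664)))
(L (nat_lit 24144358)))
(L (nat_lit 26804465)))
(L (nat_lit 3811212)))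
(L (nat_lit 13861814)))
(L (nat_lit 11556684)))
(L (nat_lit 19016591)))
(S (nat_lit 58016) (S (nat_lit 6590) (S (nat_lit 43469) (S (nat_lit 39258) (S (nat_lit 8) (S (nat_lit 51029) (S (nat_lit 19502) (S (nat_lit 48350) (S (nat_lit 23966) (S (nat_lit 50235) (L (nat_lit 2993619))
(L (nat_lit 897302)))
(S (nat_lit 31063) (L (nat_lit 20152760))
(S (nat_lit 55317) (L (nat_lit 16974456))
(L (nat_lit 12607767)))))
(L (nat_lit 15880106)))
(L (nat_lit 3817350)))
(L (nat_lit 27635731)))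
(L (nat_lit 20349308)))
(L (nat_lit 23357987)))
(L (nat_lit 14346499)))
(L (nat_lit 26325237)))
(L (nat_lit 25730785)))))
(S (nat_lit 26084) (S (nat_lit 17033) (S (nat_lit 39258) (S (nat_lit 51029) (S (nat_lit 7367) (S (nat_lit 43469) (S (nat_lit 19502) (S (nat_lit 29511) (S (nat_lit 26354) (S (nat_lit 36101) (S (nat_lit 9353) (S (nat_lit 51694) (L (nat_lit 9105582))
(L (nat_lit 9564781)))
(S (nat_lit 48718) (L (nat_lit 4671739))
(S (nat_lit 49276) (S (nat_lit 26087) (L (nat_lit 28608915))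
(L (nat_lit 21474459)))
(L (nat_lit 1810972)))))
(L (nat_lit 13247297)))
(L (nat_lit 2864345)))
(L (nat_lit 12775764)))
(L (nat_lit 26813454)))
(L (nat_lit 23468152)))
(L (nat_lit 578781)))
(L (nat_lit 2502419)))
(S (nat_lit 58944) (L (nat_lit 10340773))
(L (nat_lit 23467913))))
(S (nat_lit 36797) (S (nat_lit 19502) (S (nat_lit 39258) (S (nat_lit 27131) (S (nat_lit 51029) (S (nat_lit 36101) (S (nat_lit 29511) (S (nat_lit 24674) (S (nat_lit 43469) (S (nat_lit 8) (S (nat_lit 6593) (S (nat_lit 52441) (S (nat_lit 13182) (S (nat_lit 52711) (S (nat_lit 41519) (S (nat_lit 5879) (L (nat_lit 2471578))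
(L (nat_lit 26745413)))
(L (nat_lit 7232689)))
(L (nat_lit 19033608)))
(L (nat_lit 7922240)))
(L (nat_lit 938256)))
(S (nat_lit 26357) (S (nat_lit 22930) (S (nat_lit 3165) (S (nat_lit 45407) (S (nat_lit 41519) (L (nat_lit 3360411))
(L (nat_lit 27722312)))
(L (nat_lit 27695685)))
(L (nat_lit 15278980)))
(L (nat_lit 22114795)))
(S (nat_lit 46121) (S (nat_lit 12912) (S (nat_lit 48350) (S (nat_lit 36308) (S (nat_lit 13183) (L (nat_lit 5586740))
(L (nat_lit 14556310)))
(L (nat_lit 13364480)))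
(L (nat_lit 12342789)))
(L (nat_lit 21832721)))
(L (nat_lit 25757162)))))
(L (nat_lit 20356996)))
(L (nat_lit 15982403)))
(L (nat_lit 17750306)))
(L (nat_lit 12948372)))
(L (nat_lit 23586953)))
(L (nat_lit 2502419)))
(L (nat_lit 3392437)))
(L (nat_lit 23537539)))
(L (nat_lit 22235008)))
(S (nat_lit 56561) (S (nat_lit 23768) (S (nat_lit 8) (L (nat_lit 26543634))
(L (nat_lit 1853995)))
(S (nat_lit 43469) (S (nat_lit 39258) (S (nat_lit 51029) (S (nat_lit 8) (S (nat_lit 19502) (S (nat_lit 26354) (S (nat_lit 46895) (S (nat_lit 29511) (S (nat_lit 36101) (S (nat_lit 44438) (S (nat_lit 3166) (S (nat_lit 2986) (L (nat_lit 8817428))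
(L (nat_lit 20104507)))
(S (nat_lit 15249) (S (nat_lit 39262) (L (nat_lit 7459256))
(L (nat_lit 30629380)))
(S (nat_lit 34258) (L (nat_lit 14914420))
(L (nat_lit 2933451)))))
(L (nat_lit 12640043)))
(L (nat_lit 30839060)))
(L (nat_lit 19296580)))
(L (nat_lit 7980837)))
(L (nat_lit 24244651)))
(L (nat_lit 16328610)))
(L (nat_lit 7767804)))
(L (nat_lit 2502419)))
(L (nat_lit 4676924)))
(L (nat_lit 14313731))))
(L (nat_lit 25245010)))))
(S (nat_lit 45848) (S (nat_lit 4907) (S (nat_lit 8) (S (nat_lit 19502) (S (nat_lit 44927) (S (nat_lit 46118) (S (nat_lit 29511) (S (nat_lit 48113) (S (nat_lit 30716) (S (nat_lit 1991) (S (nat_lit 36311) (S (nat_lit 27800) (S (nat_lit 8825) (L (nat_lit 5745555))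
(L (nat_lit 14830909)))
(L (nat_lit 19802288)))
(L (nat_lit 23936194)))
(L (nat_lit 10109116)))
(L (nat_lit 9495150)))
(L (nat_lit 9101856)))
(L (nat_lit 12966786)))
(L (nat_lit 4797354)))
(L (nat_lit 23095534)))
(L (nat_lit 3813260)))
(L (nat_lit 19300732)))
(S (nat_lit 24671) (S (nat_lit 29511) (S (nat_lit 26645) (S (nat_lit 43469) (S (nat_lit 27128) (S (nat_lit 35099) (S (nat_lit 51029) (S (nat_lit 12165) (S (nat_lit 58019) (S (nat_lit 36104) (S (nat_lit 12473) (L (nat_lit 8532600))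
(L (nat_lit 12022372)))
(L (nat_lit 20824071)))
(L (nat_lit 13486247)))
(L (nat_lit 23572355)))
(L (nat_lit 12963650)))
(L (nat_lit 9989268)))
(L (nat_lit 15964053)))
(L (nat_lit 23324719)))
(L (nat_lit 9995867)))
(L (nat_lit 6871938)))
(S (nat_lit 44435) (S (nat_lit 29511) (S (nat_lit 43469) (S (nat_lit 51029) (S (nat_lit 46118) (S (nat_lit 19502) (S (nat_lit 46892) (S (nat_lit 22750) (S (nat_lit 8822) (S (nat_lit 37302) (S (nat_lit 25424) (S (nat_lit 52710) (L (nat_lit 4568949))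
(L (nat_lit 18210624)))
(L (nat_lit 21807328)))
(L (nat_lit 23150938)))
(L (nat_lit 26556036)))
(L (nat_lit 12815064)))
(L (nat_lit 18453353)))
(L (nat_lit 26696898)))
(L (nat_lit 11239866)))
(L (nat_lit 10879674)))
(L (nat_lit 27931752)))
(S (nat_lit 49195) (S (nat_lit 8) (S (nat_lit 19502) (L (nat_lit 19049358))
(L (nat_lit 22425472)))
(L (nat_lit 19268491)))
(L (nat_lit 11932316))))
(L (nat_lit 25308782)))))
(L (nat_lit 25666679)))))
(S (nat_lit 25910) (S (nat_lit 11501) (S (nat_lit 12912) (S (nat_lit 5399) (S (nat_lit 10952) (S (nat_lit 19768) (L (nat_lit 26444397))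
(L (nat_lit 21823976)))
(L (nat_lit 1779596)))
(S (nat_lit 25163) (S (nat_lit 8585) (S (nat_lit 3455) (L (nat_lit 5861615))
(L (nat_lit 19432329)))
(L (nat_lit 5806997)))
(S (nat_lit 44927) (S (nat_lit 10952) (S (nat_lit 58016) (S (nat_lit 8036) (L (nat_lit 26543666))
(L (nat_lit 11931261)))
(L (nat_lit 14830503)))
(L (nat_lit 21538693)))
(L (nat_lit 25601079)))))
(S (nat_lit 32676) (S (nat_lit 6320) (S (nat_lit 20650) (L (nat_lit 17499050))
(S (nat_lit 29515) (S (nat_lit 29514) (L (nat_lit 29775881))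
(L (nat_lit 5823400)))
(L (nat_lit 6013867))))
(S (nat_lit 26084) (S (nat_lit 2499) (L (nat_lit 5642877))
(L (nat_lit 14799750)))
(S (nat_lit 45848) (S (nat_lit 13022) (L (nat_lit 4594269))
(S (nat_lit 39261) (S (nat_lit 59026) (L (nat_lit 605469))
(L (nat_lit 417116)))
(L (nat_lit 10882684))))
(L (nat_lit 25741414)))))
(S (nat_lit 52440) (S (nat_lit 3165) (S (nat_lit 13103) (L (nat_lit 10885044))
(S (nat_lit 59022) (S (nat_lit 9747) (L (nat_lit 24516422))
(L (nat_lit 26628356)))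
(L (nat_lit 6688445))))
(S (nat_lit 22929) (S (nat_lit 10952) (S (nat_lit 37302) (S (nat_lit 8585) (L (nat_lit 7112082))
(L (nat_lit 4102769)))
(L (nat_lit 17402204)))
(L (nat_lit 7901077)))
(S (nat_lit 42693) (S (nat_lit 30471) (S (nat_lit 8036) (S (nat_lit 4202) (L (nat_lit 8805467))
(L (nat_lit 14753532)))
(L (nat_lit 837904)))
(L (nat_lit 8210448)))
(L (nat_lit 25311946)))))
(L (nat_lit 25601110)))))
(S (nat_lit 31265) (S (nat_lit 19502) (S (nat_lit 19768) (S (nat_lit 3455) (L (nat_lit 24511238))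
(L (nat_lit 3562375)))
(L (nat_lit 30803252)))
(S (nat_lit 39266) (S (nat_lit 49275) (L (nat_lit 3545691))
(L (nat_lit 9833332)))
(S (nat_lit 59030) (L (nat_lit 24515864))
(L (nat_lit 25451596)))))
(S (nat_lit 51029) (S (nat_lit 12165) (S (nat_lit 13650) (S (nat_lit 25424) (S (nat_lit 28227) (L (nat_lit 3816361))
(L (nat_lit 13341609)))
(S (nat_lit 34199) (L (nat_lit 1462587))
(L (nat_lit 21389538))))
(S (nat_lit 33414) (S (nat_lit 10952) (S (nat_lit 42513) (L (nat_lit 4108935))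
(L (nat_lit 8204467)))
(L (nat_lit 21194892)))
(S (nat_lit 53178) (S (nat_lit 12473) (S (nat_lit 10708) (S (nat_lit 24671) (S (nat_lit 19765) (L (nat_lit 29772971))
(L (nat_lit 20979133)))
(L (nat_lit 9046924)))
(L (nat_lit 14802826)))
(L (nat_lit 15930291)))
(L (nat_lit 25625941)))))
(S (nat_lit 31929) (S (nat_lit 2985) (S (nat_lit 25424) (S (nat_lit 3455) (S (nat_lit 3166) (S (nat_lit 59026) (S (nat_lit 40570) (L (nat_lit 1911191))
(L (nat_lit 8213550)))
(L (nat_lit 27677921)))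
(L (nat_lit 2698156)))
(L (nat_lit 11072535)))
(S (nat_lit 56134) (L (nat_lit 16799035))
(L (nat_lit 1819495))))
(S (nat_lit 22749) (S (nat_lit 18070) (L (nat_lit 2377338))
(S (nat_lit 37303) (S (nat_lit 6590) (L (nat_lit 21555429))
(L (nat_lit 21823728)))
(L (nat_lit 16900681))))
(S (nat_lit 42513) (S (nat_lit 19765) (S (nat_lit 39532) (L (nat_lit 28705480))
(L (nat_lit 10879892)))
(S (nat_lit 49615) (L (nat_lit 21201405))
(L (nat_lit 21372739))))
(L (nat_lit 25318640)))))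
(S (nat_lit 51693) (S (nat_lit 3941) (S (nat_lit 15596) (S (nat_lit 49275) (L (nat_lit 10898490))
(L (nat_lit 3561821)))
(L (nat_lit 7753633)))
(S (nat_lit 23705) (S (nat_lit 19768) (L (nat_lit 28728576))
(L (nat_lit 31043843)))
(S (nat_lit 43469) (S (nat_lit 29511) (S (nat_lit 39258) (L (nat_lit 17880968))
(L (nat_lit 10882903)))
(L (nat_lit 5645018)))
(L (nat_lit 25726662)))))
(L (nat_lit 25724214)))))
(L (nat_lit 25635490)))))
(S (nat_lit 45674) (S (nat_lit 5879) (S (nat_lit 9747) (S (nat_lit 10952) (S (nat_lit 39532) (S (nat_lit 59026) (L (nat_lit 5658873))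
(L (nat_lit 14901124)))
(L (nat_lit 17007292)))
(S (nat_lit 30716) (S (nat_lit 9751) (S (nat_lit 48113) (S (nat_lit 9748) (S (nat_lit 54863) (L (nat_lit 29557424))
(L (nat_lit 21029231)))
(L (nat_lit 9147148)))
(L (nat_lit 2310842)))
(L (nat_lit 11354853)))
(S (nat_lit 50480) (S (nat_lit 59030) (S (nat_lit 44927) (L (nat_lit 21021052))
(L (nat_lit 27461079)))
(L (nat_lit 15490304)))
(L (nat_lit 25179818)))))
(S (nat_lit 29511) (S (nat_lit 13183) (S (nat_lit 1994) (S (nat_lit 42027) (S (nat_lit 26642) (L (nat_lit 7149136))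
(L (nat_lit 9487251)))
(L (nat_lit 24977890)))
(S (nat_lit 19066) (L (nat_lit 26651331))
(L (nat_lit 14507330))))
(S (nat_lit 32947) (S (nat_lit 5882) (S (nat_lit 54863) (L (nat_lit 23499002))
(L (nat_lit 4450895)))
(L (nat_lit 26743030)))
(S (nat_lit 52711) (S (nat_lit 28589) (S (nat_lit 6878) (S (nat_lit 6593) (S (nat_lit 52441) (S (nat_lit 37303) (S (nat_lit 42027) (L (nat_lit 21804225))
(L (nat_lit 11966291)))
(L (nat_lit 9519773)))
(L (nat_lit 22457436)))
(L (nat_lit 21830084)))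
(L (nat_lit 12945116)))
(L (nat_lit 13473355)))
(L (nat_lit 25526835)))))
(S (nat_lit 49275) (S (nat_lit 31265) (S (nat_lit 10708) (S (nat_lit 39536) (L (nat_lit 16894731))
(L (nat_lit 27656907)))
(L (nat_lit 15042234)))
(L (nat_lit 30812243)))
(L (nat_lit 25727254)))))
(S (nat_lit 25643) (S (nat_lit 8825) (S (nat_lit 17030) (S (nat_lit 1430) (L (nat_lit 9630444))
(S (nat_lit 3455) (S (nat_lit 19772) (S (nat_lit 19502) (S (nat_lit 8036) (S (nat_lit 55868) (L (nat_lit 17855081))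
(L (nat_lit 27507299)))
(L (nat_lit 21761297)))
(L (nat_lit 26232456)))
(S (nat_lit 57906) (L (nat_lit 13674237))
(L (nat_lit 2956855))))
(L (nat_lit 16817916))))
(S (nat_lit 36794) (S (nat_lit 31930) (S (nat_lit 58685) (L (nat_lit 5089998))
(L (nat_lit 23409690)))
(S (nat_lit 58475) (L (nat_lit 21399770))
(L (nat_lit 16959800))))
(S (nat_lit 56558) (S (nat_lit 1041) (S (nat_lit 56561) (S (nat_lit 12651) (S (nat_lit 12652) (L (nat_lit 15833688))
(L (nat_lit 23455789)))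
(L (nat_lit 21332879)))
(L (nat_lit 4109554)))
(S (nat_lit 20805) (S (nat_lit 22263) (S (nat_lit 55868) (S (nat_lit 57067) (L (nat_lit 8087013))
(L (nat_lit 15311682)))
(L (nat_lit 19118977)))
(L (nat_lit 30756912)))
(S (nat_lit 40569) (S (nat_lit 39259) (S (nat_lit 12913) (L (nat_lit 28978722))
(L (nat_lit 21409700)))
(L (nat_lit 30629037)))
(L (nat_lit 25279794)))))
(L (nat_lit 25252358)))))
(S (nat_lit 28589) (S (nat_lit 9748) (S (nat_lit 12165) (S (nat_lit 9750) (S (nat_lit 22930) (L (nat_lit 18518332))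
(L (nat_lit 12849880)))
(L (nat_lit 2499414)))
(L (nat_lit 9045935)))
(S (nat_lit 29512) (S (nat_lit 8881) (L (nat_lit 3775377))
(S (nat_lit 27131) (S (nat_lit 3455) (L (nat_lit 7760608))
(L (nat_lit 3562377)))
(L (nat_lit 4050409))))
(S (nat_lit 49276) (S (nat_lit 12473) (S (nat_lit 53179) (L (nat_lit 19293445))
(L (nat_lit 21898785)))
(L (nat_lit 9836437)))
(L (nat_lit 25352651)))))
(S (nat_lit 48353) (S (nat_lit 8822) (S (nat_lit 9747) (S (nat_lit 9750) (L (nat_lit 15332644))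
(L (nat_lit 17637956)))
(L (nat_lit 11342478)))
(S (nat_lit 28586) (S (nat_lit 36101) (S (nat_lit 56561) (S (nat_lit 14622) (L (nat_lit 899754))
(L (nat_lit 9555885)))
(L (nat_lit 21358607)))
(S (nat_lit 56039) (L (nat_lit 7528333))
(L (nat_lit 6722452))))
(S (nat_lit 48350) (S (nat_lit 9747) (S (nat_lit 19767) (L (nat_lit 28939785))
(L (nat_lit 21016890)))
(L (nat_lit 15045272)))
(L (nat_lit 25351691)))))
(L (nat_lit 25679140)))))
(S (nat_lit 45407) (S (nat_lit 13182) (S (nat_lit 11501) (S (nat_lit 427) (L (nat_lit 3395069))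
(S (nat_lit 43730) (S (nat_lit 14138) (L (nat_lit 5452376))
(L (nat_lit 4582992)))
(L (nat_lit 23505728))))
(S (nat_lit 31265) (S (nat_lit 21685) (L (nat_lit 16865530))
(S (nat_lit 27131) (S (nat_lit 12652) (S (nat_lit 36101) (L (nat_lit 28983306))
(L (nat_lit 12703625)))
(L (nat_lit 2673575)))
(L (nat_lit 3723175))))
(S (nat_lit 51029) (S (nat_lit 59026) (S (nat_lit 29512) (L (nat_lit 19296297))
(L (nat_lit 12610182)))
(L (nat_lit 15543905)))
(L (nat_lit 25187722)))))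
(S (nat_lit 32946) (S (nat_lit 15596) (S (nat_lit 32947) (S (nat_lit 19765) (S (nat_lit 1042) (L (nat_lit 2355763))
(L (nat_lit 2353684)))
(L (nat_lit 2961993)))
(L (nat_lit 2994761)))
(S (nat_lit 35360) (S (nat_lit 19765) (S (nat_lit 26357) (S (nat_lit 36308) (L (nat_lit 22295673))
(L (nat_lit 31164749)))
(L (nat_lit 30683717)))
(L (nat_lit 30421577)))
(S (nat_lit 55124) (S (nat_lit 32947) (S (nat_lit 26357) (S (nat_lit 54863) (L (nat_lit 4928426))
(L (nat_lit 16618836)))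
(L (nat_lit 30716484)))
(L (nat_lit 3977801)))
(L (nat_lit 25473076)))))
(S (nat_lit 52710) (S (nat_lit 13391) (S (nat_lit 3166) (S (nat_lit 43469) (L (nat_lit 27678949))
(L (nat_lit 24519489)))
(L (nat_lit 4548332)))
(S (nat_lit 33155) (S (nat_lit 14768) (L (nat_lit 15307687))
(S (nat_lit 29512) (S (nat_lit 59026) (L (nat_lit 28707157))
(L (nat_lit 21832845)))
(L (nat_lit 30810757))))
(S (nat_lit 52919) (S (nat_lit 43730) (S (nat_lit 24674) (L (nat_lit 27665059))
(L (nat_lit 8838912)))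
(L (nat_lit 24326912)))
(L (nat_lit 25871683)))))
(L (nat_lit 25756012)))))
(L (nat_lit 25508421)))))
(L (nat_lit 25363150)))))
(S (nat_lit 35846) (S (nat_lit 4202) (S (nat_lit 12912) (S (nat_lit 16337) (S (nat_lit 6881) (S (nat_lit 8825) (S (nat_lit 58016) (S (nat_lit 49276) (L (nat_lit 30626210))
(L (nat_lit 19933660)))
(L (nat_lit 15395073)))
(S (nat_lit 18665) (L (nat_lit 26641716))
(L (nat_lit 21401916))))
(S (nat_lit 26645) (S (nat_lit 24674) (S (nat_lit 42693) (S (nat_lit 12473) (S (nat_lit 59026) (S (nat_lit 30472) (L (nat_lit 14602313))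
(L (nat_lit 19809287)))
(L (nat_lit 2514826)))
(L (nat_lit 21371037)))
(L (nat_lit 27410739)))
(L (nat_lit 21409698)))
(S (nat_lit 46409) (S (nat_lit 23147) (L (nat_lit 26390256))
(S (nat_lit 58019) (S (nat_lit 46895) (L (nat_lit 17557513))
(L (nat_lit 27496947)))
(L (nat_lit 15437609))))
(L (nat_lit 25216277)))))
(S (nat_lit 36101) (S (nat_lit 19498) (S (nat_lit 6146) (S (nat_lit 39259) (L (nat_lit 8407580))
(L (nat_lit 19935117)))
(L (nat_lit 11948929)))
(S (nat_lit 39262) (S (nat_lit 36308) (S (nat_lit 39495) (L (nat_lit 23988710))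
(L (nat_lit 9049997)))
(L (nat_lit 23934119)))
(S (nat_lit 59026) (S (nat_lit 12473) (S (nat_lit 49275) (S (nat_lit 15335) (S (nat_lit 42983) (S (nat_lit 39532) (L (nat_lit 30057489))
(L (nat_lit 11979554)))
(L (nat_lit 23488736)))
(L (nat_lit 14896037)))
(L (nat_lit 3562410)))
(S (nat_lit 42610) (L (nat_lit 8032700))
(L (nat_lit 21238172))))
(L (nat_lit 25241014)))))
(S (nat_lit 55865) (S (nat_lit 1991) (S (nat_lit 42694) (S (nat_lit 8585) (L (nat_lit 23160013))
(L (nat_lit 11616892)))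
(L (nat_lit 3744593)))
(S (nat_lit 21755) (S (nat_lit 5879) (S (nat_lit 12473) (S (nat_lit 52441) (L (nat_lit 17470278))
(L (nat_lit 27510372)))
(L (nat_lit 10137788)))
(L (nat_lit 15988324)))
(S (nat_lit 41519) (S (nat_lit 59023) (S (nat_lit 26354) (S (nat_lit 56072) (L (nat_lit 19667360))
(L (nat_lit 10152109)))
(L (nat_lit 9169317)))
(L (nat_lit 19273639)))
(L (nat_lit 25412791)))))
(L (nat_lit 25463252)))))
(S (nat_lit 32676) (S (nat_lit 3166) (S (nat_lit 16547) (S (nat_lit 59026) (S (nat_lit 12473) (S (nat_lit 6320) (S (nat_lit 46121) (L (nat_lit 2314746))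
(L (nat_lit 5535219)))
(L (nat_lit 19678376)))
(L (nat_lit 12161501)))
(L (nat_lit 15478369)))
(S (nat_lit 36311) (S (nat_lit 6878) (S (nat_lit 56558) (S (nat_lit 56561) (L (nat_lit 13848632))
(L (nat_lit 1827055)))
(L (nat_lit 8475567)))
(L (nat_lit 26559107)))
(S (nat_lit 56075) (S (nat_lit 58019) (S (nat_lit 20806) (L (nat_lit 8442396))
(L (nat_lit 15458528)))
(L (nat_lit 21934087)))
(L (nat_lit 25441330)))))
(S (nat_lit 22930) (S (nat_lit 3) (S (nat_lit 19495) (S (nat_lit 15335) (L (nat_lit 17109722))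
(L (nat_lit 16992413)))
(L (nat_lit 22241453)))
(S (nat_lit 19767) (S (nat_lit 41519) (S (nat_lit 25424) (L (nat_lit 3550972))
(L (nat_lit 30822471)))
(L (nat_lit 17703520)))
(S (nat_lit 39531) (S (nat_lit 25424) (S (nat_lit 59026) (S (nat_lit 39259) (S (nat_lit 42983) (L (nat_lit 28528814))
(L (nat_lit 23486471)))
(L (nat_lit 23292016)))
(L (nat_lit 21368711)))
(L (nat_lit 21389319)))
(L (nat_lit 25408627)))))
(S (nat_lit 42694) (S (nat_lit 4) (S (nat_lit 2500) (S (nat_lit 39536) (L (nat_lit 5688201))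
(L (nat_lit 5485398)))
(L (nat_lit 7772053)))
(S (nat_lit 19768) (S (nat_lit 2500) (S (nat_lit 51693) (S (nat_lit 8036) (L (nat_lit 16820858))
(L (nat_lit 9887621)))
(L (nat_lit 8295023)))
(L (nat_lit 7794405)))
(S (nat_lit 39532) (S (nat_lit 42513) (S (nat_lit 29514) (L (nat_lit 16488329))
(L (nat_lit 5462428)))
(L (nat_lit 27691315)))
(L (nat_lit 25206228)))))
(L (nat_lit 25240273)))))
(S (nat_lit 52440) (S (nat_lit 13183) (S (nat_lit 10371) (L (nat_lit 23626569))
(S (nat_lit 25424) (S (nat_lit 12473) (S (nat_lit 49276) (S (nat_lit 46121) (S (nat_lit 59026) (S (nat_lit 15335) (S (nat_lit 52180) (L (nat_lit 1562909))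
(L (nat_lit 7255653)))
(L (nat_lit 15373194)))
(L (nat_lit 2514826)))
(L (nat_lit 22945253)))
(L (nat_lit 14553734)))
(L (nat_lit 10137788)))
(L (nat_lit 13656809))))
(S (nat_lit 32947) (S (nat_lit 12652) (S (nat_lit 12473) (S (nat_lit 58016) (L (nat_lit 23217369))
(L (nat_lit 14829914)))
(L (nat_lit 10137788)))
(S (nat_lit 32416) (S (nat_lit 20806) (L (nat_lit 5862921))
(L (nat_lit 6849245)))
(S (nat_lit 52180) (S (nat_lit 44438) (L (nat_lit 6318515))
(L (nat_lit 15509558)))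
(L (nat_lit 25543328)))))
(S (nat_lit 52711) (S (nat_lit 5434) (L (nat_lit 21525733))
(S (nat_lit 20806) (S (nat_lit 37302) (S (nat_lit 42028) (S (nat_lit 15335) (S (nat_lit 25424) (L (nat_lit 4053199))
(L (nat_lit 21394722)))
(L (nat_lit 16992444)))
(L (nat_lit 23397201)))
(L (nat_lit 3700294)))
(L (nat_lit 5824757))))
(L (nat_lit 25822729)))))
(L (nat_lit 25601046)))))
(S (nat_lit 23966) (S (nat_lit 3941) (S (nat_lit 16544) (S (nat_lit 16337) (S (nat_lit 56075) (S (nat_lit 42983) (S (nat_lit 12473) (L (nat_lit 28936649))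
(L (nat_lit 12227036)))
(L (nat_lit 2321101)))
(L (nat_lit 3057261)))
(S (nat_lit 36101) (S (nat_lit 54863) (S (nat_lit 12913) (S (nat_lit 36311) (L (nat_lit 29726317))
(L (nat_lit 23399343)))
(L (nat_lit 12406797)))
(L (nat_lit 19770509)))
(S (nat_lit 55865) (S (nat_lit 36797) (S (nat_lit 57067) (S (nat_lit 52710) (S (nat_lit 12913) (L (nat_lit 607079))
(L (nat_lit 26973389)))
(L (nat_lit 4988493)))
(L (nat_lit 21079885)))
(L (nat_lit 8193645)))
(L (nat_lit 25465364)))))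
(S (nat_lit 36308) (S (nat_lit 13651) (S (nat_lit 14138) (S (nat_lit 51694) (L (nat_lit 1907188))
(L (nat_lit 13471986)))
(L (nat_lit 12767143)))
(S (nat_lit 33415) (S (nat_lit 49275) (S (nat_lit 2499) (S (nat_lit 5399) (S (nat_lit 14138) (S (nat_lit 50236) (S (nat_lit 28586) (L (nat_lit 24159741))
(L (nat_lit 24306893)))
(L (nat_lit 27444903)))
(L (nat_lit 12606343)))
(L (nat_lit 20100007)))
(L (nat_lit 4641671)))
(L (nat_lit 1463208)))
(S (nat_lit 53179) (S (nat_lit 12876) (L (nat_lit 12849785))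
(S (nat_lit 49275) (S (nat_lit 54863) (S (nat_lit 6878) (S (nat_lit 45674) (S (nat_lit 51694) (L (nat_lit 28622003))
(L (nat_lit 22515964)))
(L (nat_lit 27676710)))
(L (nat_lit 4738268)))
(L (nat_lit 19763691)))
(L (nat_lit 20325282))))
(L (nat_lit 25218383)))))
(S (nat_lit 56072) (S (nat_lit 10708) (S (nat_lit 53178) (S (nat_lit 52441) (S (nat_lit 59026) (S (nat_lit 28589) (L (nat_lit 20752429))
(L (nat_lit 25006349)))
(L (nat_lit 27927693)))
(L (nat_lit 20855815)))
(L (nat_lit 27305549)))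
(S (nat_lit 30472) (S (nat_lit 12473) (S (nat_lit 22750) (S (nat_lit 42983) (L (nat_lit 18931917))
(L (nat_lit 2939303)))
(L (nat_lit 21160358)))
(S (nat_lit 24760) (L (nat_lit 6138292))
(L (nat_lit 26613941))))
(S (nat_lit 50236) (S (nat_lit 54863) (S (nat_lit 2499) (L (nat_lit 9619899))
(L (nat_lit 20034439)))
(L (nat_lit 21195172)))
(L (nat_lit 25530988)))))
(L (nat_lit 25430765)))))
(S (nat_lit 23705) (S (nat_lit 12652) (S (nat_lit 19502) (S (nat_lit 25424) (S (nat_lit 12473) (L (nat_lit 10408352))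
(L (nat_lit 21394628)))
(L (nat_lit 17616903)))
(S (nat_lit 39266) (S (nat_lit 25424) (L (nat_lit 29609101))
(L (nat_lit 21807328)))
(S (nat_lit 59030) (S (nat_lit 20805) (S (nat_lit 9747) (S (nat_lit 59026) (L (nat_lit 19186528))
(L (nat_lit 13182012)))
(L (nat_lit 10883736)))
(L (nat_lit 31140909)))
(L (nat_lit 25582664)))))
(S (nat_lit 32416) (S (nat_lit 14138) (S (nat_lit 59026) (S (nat_lit 45465) (L (nat_lit 2472632))
(L (nat_lit 2678045)))
(L (nat_lit 9006221)))
(S (nat_lit 33902) (S (nat_lit 19765) (L (nat_lit 29579309))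
(L (nat_lit 30428585)))
(S (nat_lit 53666) (S (nat_lit 25424) (S (nat_lit 54863) (L (nat_lit 22450429))
(L (nat_lit 4907434)))
(L (nat_lit 17616903)))
(L (nat_lit 25368084)))))
(S (nat_lit 52180) (S (nat_lit 4907) (S (nat_lit 8585) (S (nat_lit 9751) (S (nat_lit 6590) (L (nat_lit 12964707))
(L (nat_lit 21862448)))
(L (nat_lit 10883834)))
(L (nat_lit 12874402)))
(S (nat_lit 24671) (S (nat_lit 33414) (S (nat_lit 49279) (S (nat_lit 59026) (L (nat_lit 28708055))
(L (nat_lit 12803129)))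
(L (nat_lit 22424357)))
(L (nat_lit 9361421)))
(S (nat_lit 44435) (S (nat_lit 14138) (S (nat_lit 19768) (L (nat_lit 22941997))
(L (nat_lit 21398440)))
(L (nat_lit 13490279)))
(L (nat_lit 25713890)))))
(L (nat_lit 25255117)))))
(S (nat_lit 43469) (S (nat_lit 5660) (S (nat_lit 19767) (L (nat_lit 414503))
(L (nat_lit 3545754)))
(S (nat_lit 25424) (S (nat_lit 42983) (S (nat_lit 19692) (L (nat_lit 8811602))
(S (nat_lit 59026) (S (nat_lit 25910) (S (nat_lit 12473) (L (nat_lit 13537523))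
(L (nat_lit 9836437)))
(L (nat_lit 7403212)))
(L (nat_lit 18884028))))
(L (nat_lit 27679008)))
(S (nat_lit 45188) (S (nat_lit 19767) (L (nat_lit 3560199))
(L (nat_lit 3545874)))
(L (nat_lit 25172716)))))
(L (nat_lit 25822630)))))
(S (nat_lit 43730) (S (nat_lit 2985) (S (nat_lit 3455) (S (nat_lit 13183) (S (nat_lit 3) (L (nat_lit 29559533))
(S (nat_lit 30855) (L (nat_lit 7499191))
(L (nat_lit 26627143))))
(S (nat_lit 32947) (S (nat_lit 25646) (L (nat_lit 3723512))
(L (nat_lit 22982885)))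
(S (nat_lit 52711) (S (nat_lit 38252) (L (nat_lit 3724039))
(L (nat_lit 6102514)))
(L (nat_lit 25730627)))))
(S (nat_lit 23219) (S (nat_lit 12912) (S (nat_lit 24674) (S (nat_lit 30471) (L (nat_lit 5823303))
(L (nat_lit 30773684)))
(L (nat_lit 4643129)))
(S (nat_lit 35948) (L (nat_lit 21088103))
(L (nat_lit 21401481))))
(S (nat_lit 42983) (S (nat_lit 11501) (S (nat_lit 24674) (S (nat_lit 35099) (L (nat_lit 28912098))
(L (nat_lit 30626212)))
(L (nat_lit 9351223)))
(S (nat_lit 31265) (S (nat_lit 12473) (S (nat_lit 30471) (S (nat_lit 39536) (S (nat_lit 35099) (S (nat_lit 19494) (S (nat_lit 22930) (S (nat_lit 22264) (L (nat_lit 8401719))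
(L (nat_lit 13489193)))
(L (nat_lit 936427)))
(L (nat_lit 24207913)))
(L (nat_lit 20779341)))
(L (nat_lit 23469242)))
(L (nat_lit 30716517)))
(L (nat_lit 10400357)))
(S (nat_lit 51029) (S (nat_lit 27800) (S (nat_lit 22930) (S (nat_lit 35099) (S (nat_lit 59026) (L (nat_lit 11954787))
(L (nat_lit 7146931)))
(L (nat_lit 20779341)))
(L (nat_lit 21457184)))
(L (nat_lit 3564200)))
(L (nat_lit 25496019)))))
(L (nat_lit 25222447)))))
(S (nat_lit 22749) (S (nat_lit 6881) (S (nat_lit 9750) (S (nat_lit 24671) (S (nat_lit 35360) (L (nat_lit 3547741))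
(L (nat_lit 275250)))
(L (nat_lit 21760490)))
(S (nat_lit 29514) (S (nat_lit 49279) (L (nat_lit 19084064))
(L (nat_lit 13858368)))
(S (nat_lit 49278) (S (nat_lit 44435) (S (nat_lit 12473) (S (nat_lit 59026) (S (nat_lit 19767) (S (nat_lit 3166) (L (nat_lit 18090589))
(L (nat_lit 2449845)))
(L (nat_lit 3559175)))
(L (nat_lit 2315804)))
(L (nat_lit 15946940)))
(L (nat_lit 23116026)))
(L (nat_lit 25758062)))))
(S (nat_lit 26645) (S (nat_lit 14138) (S (nat_lit 1041) (S (nat_lit 51694) (S (nat_lit 42693) (S (nat_lit 15596) (L (nat_lit 15070258))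
(L (nat_lit 6932353)))
(L (nat_lit 4045042)))
(L (nat_lit 13468914)))
(L (nat_lit 12642546)))
(S (nat_lit 33902) (S (nat_lit 11593) (L (nat_lit 15950898))
(S (nat_lit 31930) (S (nat_lit 20805) (S (nat_lit 13650) (S (nat_lit 3165) (S (nat_lit 27646) (L (nat_lit 531128))
(L (nat_lit 26395954)))
(L (nat_lit 19675428)))
(L (nat_lit 6809623)))
(L (nat_lit 31176996)))
(L (nat_lit 30589170))))
(S (nat_lit 53666) (S (nat_lit 25424) (S (nat_lit 21758) (L (nat_lit 6317645))
(L (nat_lit 21130481)))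
(L (nat_lit 17617120)))
(L (nat_lit 25526804)))))
(S (nat_lit 46409) (S (nat_lit 45851) (S (nat_lit 41519) (S (nat_lit 6593) (S (nat_lit 59026) (S (nat_lit 3166) (S (nat_lit 33902) (L (nat_lit 14790395))
(L (nat_lit 6321745)))
(L (nat_lit 8980922)))
(L (nat_lit 12783507)))
(L (nat_lit 7177808)))
(L (nat_lit 6783578)))
(L (nat_lit 2475706)))
(L (nat_lit 25284043)))))
(S (nat_lit 42513) (S (nat_lit 4910) (S (nat_lit 37302) (S (nat_lit 10707) (S (nat_lit 42028) (S (nat_lit 49275) (S (nat_lit 31265) (S (nat_lit 12651) (S (nat_lit 33902) (S (nat_lit 40569) (S (nat_lit 32416) (S (nat_lit 42983) (S (nat_lit 35099) (L (nat_lit 2642169))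
(L (nat_lit 23990639)))
(L (nat_lit 27318573)))
(L (nat_lit 13770615)))
(L (nat_lit 27808034)))
(L (nat_lit 16537825)))
(L (nat_lit 16553238)))
(L (nat_lit 30823746)))
(L (nat_lit 10218640)))
(L (nat_lit 27710784)))
(L (nat_lit 10235924)))
(S (nat_lit 56026) (S (nat_lit 33987) (L (nat_lit 6962363))
(L (nat_lit 18630826)))
(L (nat_lit 20357308))))
(L (nat_lit 7794743)))
(L (nat_lit 25482414)))))
(L (nat_lit 25384354)))))
(S (nat_lit 55610) (S (nat_lit 6881) (S (nat_lit 9747) (S (nat_lit 14138) (S (nat_lit 17841) (S (nat_lit 19772) (L (nat_lit 24339535))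
(L (nat_lit 21902474)))
(S (nat_lit 43730) (S (nat_lit 5021) (S (nat_lit 59030) (L (nat_lit 7358168))
(L (nat_lit 19279680)))
(S (nat_lit 11501) (S (nat_lit 45827) (L (nat_lit 4417941))
(S (nat_lit 59030) (S (nat_lit 59022) (S (nat_lit 19768) (S (nat_lit 56075) (S (nat_lit 6323) (S (nat_lit 1994) (S (nat_lit 5399) (S (nat_lit 22750) (L (nat_lit 1628509))
(L (nat_lit 6742754)))
(L (nat_lit 19330337)))
(L (nat_lit 26542582)))
(L (nat_lit 19238766)))
(L (nat_lit 7826112)))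
(L (nat_lit 3601032)))
(L (nat_lit 19273641)))
(L (nat_lit 21832780))))
(L (nat_lit 21901634))))
(L (nat_lit 23294370))))
(S (nat_lit 33902) (S (nat_lit 19772) (S (nat_lit 59030) (S (nat_lit 44927) (S (nat_lit 9751) (S (nat_lit 56075) (S (nat_lit 55124) (S (nat_lit 21755) (S (nat_lit 36794) (S (nat_lit 31929) (L (nat_lit 8914618))
(L (nat_lit 12470289)))
(L (nat_lit 31110433)))
(L (nat_lit 4679238)))
(L (nat_lit 16557635)))
(L (nat_lit 10388018)))
(L (nat_lit 14870086)))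
(L (nat_lit 14853911)))
(L (nat_lit 8404568)))
(S (nat_lit 32975) (S (nat_lit 52307) (L (nat_lit 6319692))
(L (nat_lit 3358485)))
(L (nat_lit 21896336))))
(S (nat_lit 53666) (S (nat_lit 4) (S (nat_lit 19767) (S (nat_lit 39262) (S (nat_lit 53178) (L (nat_lit 28691469))
(L (nat_lit 18748039)))
(L (nat_lit 4616438)))
(S (nat_lit 26247) (S (nat_lit 45822) (L (nat_lit 7402161))
(L (nat_lit 7752483)))
(L (nat_lit 21371002))))
(S (nat_lit 19768) (S (nat_lit 9751) (S (nat_lit 59030) (S (nat_lit 10952) (S (nat_lit 54150) (S (nat_lit 55124) (S (nat_lit 6593) (S (nat_lit 59026) (S (nat_lit 54863) (S (nat_lit 21755) (S (nat_lit 23219) (S (nat_lit 25910) (S (nat_lit 52503) (S (nat_lit 53062) (S (nat_lit 22633) (S (nat_lit 56940) (S (nat_lit 6887) (S (nat_lit 22147) (S (nat_lit 7376) (S (nat_lit 55922) (D (nat_lit 8) (nat_lit 19670096) (nat_lit 15786359) (nat_lit 74939897835986944032))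
(L (nat_lit 28726409)))
(L (nat_lit 12355152)))
(L (nat_lit 7759989)))
(L (nat_lit 5495569)))
(L (nat_lit 6711937)))
(L (nat_lit 29575345)))
(L (nat_lit 30117417)))
(L (nat_lit 22242848)))
(L (nat_lit 8090732)))
(L (nat_lit 1717499)))
(L (nat_lit 8290897)))
(L (nat_lit 4664148)))
(L (nat_lit 27278951)))
(L (nat_lit 8225361)))
(L (nat_lit 27444810)))
(L (nat_lit 27606593)))
(L (nat_lit 18041020)))
(L (nat_lit 27281032)))
(L (nat_lit 14903013)))
(S (nat_lit 39532) (S (nat_lit 45827) (L (nat_lit 23280760))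
(S (nat_lit 59030) (S (nat_lit 54150) (S (nat_lit 10952) (S (nat_lit 52919) (L (nat_lit 22244430))
(L (nat_lit 17737780)))
(L (nat_lit 18026389)))
(L (nat_lit 27606593)))
(L (nat_lit 21173658))))
(L (nat_lit 25364110)))))
(L (nat_lit 25647331)))))
(S (nat_lit 29511) (S (nat_lit 10708) (S (nat_lit 12913) (S (nat_lit 56072) (S (nat_lit 32947) (S (nat_lit 26087) (S (nat_lit 22930) (L (nat_lit 2483825))
(L (nat_lit 5589873)))
(L (nat_lit 21904608)))
(L (nat_lit 10054178)))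
(L (nat_lit 10324434)))
(S (nat_lit 22835) (S (nat_lit 26087) (L (nat_lit 15755605))
(L (nat_lit 21162502)))
(L (nat_lit 5692295))))
(S (nat_lit 30472) (S (nat_lit 5399) (S (nat_lit 19768) (S (nat_lit 29514) (S (nat_lit 39261) (L (nat_lit 1464636))
(L (nat_lit 20148741)))
(L (nat_lit 19249340)))
(L (nat_lit 21391619)))
(S (nat_lit 25163) (S (nat_lit 2500) (S (nat_lit 19768) (L (nat_lit 2650791))
(L (nat_lit 20978607)))
(S (nat_lit 5707) (L (nat_lit 21017916))
(L (nat_lit 4581876))))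
(S (nat_lit 44927) (S (nat_lit 49279) (S (nat_lit 19767) (L (nat_lit 5665510))
(L (nat_lit 21372026)))
(L (nat_lit 16323462)))
(L (nat_lit 25595591)))))
(S (nat_lit 50236) (S (nat_lit 6146) (S (nat_lit 5660) (S (nat_lit 12473) (L (nat_lit 18016937))
(L (nat_lit 9835132)))
(S (nat_lit 13550) (S (nat_lit 6225) (L (nat_lit 21371033))
(L (nat_lit 13672339)))
(L (nat_lit 18075676))))
(S (nat_lit 25910) (S (nat_lit 59030) (S (nat_lit 11501) (L (nat_lit 23472216))
(L (nat_lit 5658507)))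
(L (nat_lit 27465292)))
(S (nat_lit 45674) (S (nat_lit 36308) (S (nat_lit 43469) (L (nat_lit 26628134))
(L (nat_lit 8806209)))
(L (nat_lit 12689236)))
(L (nat_lit 25219278)))))
(L (nat_lit 25287884)))))
(S (nat_lit 49275) (S (nat_lit 8) (S (nat_lit 3) (L (nat_lit 28724513))
(L (nat_lit 7757906)))
(S (nat_lit 19772) (S (nat_lit 12473) (S (nat_lit 3267) (L (nat_lit 28709204))
(S (nat_lit 16470) (L (nat_lit 23469114))
(L (nat_lit 20996554))))
(L (nat_lit 9859749)))
(S (nat_lit 39536) (S (nat_lit 45674) (S (nat_lit 3941) (L (nat_lit 11948963))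
(L (nat_lit 19296358)))
(L (nat_lit 3546874)))
(L (nat_lit 25763332)))))
(L (nat_lit 25188622)))))
(S (nat_lit 26645) (S (nat_lit 16340) (S (nat_lit 14622) (S (nat_lit 33349) (S (nat_lit 46287) (L (nat_lit 31006241))
(L (nat_lit 14863207)))
(S (nat_lit 59022) (S (nat_lit 2807) (L (nat_lit 9500118))
(S (nat_lit 11501) (S (nat_lit 16547) (S (nat_lit 10952) (S (nat_lit 4907) (S (nat_lit 28589) (S (nat_lit 23219) (S (nat_lit 3166) (L (nat_lit 5584474))
(L (nat_lit 18949004)))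
(L (nat_lit 31066537)))
(L (nat_lit 9212469)))
(L (nat_lit 26651200)))
(L (nat_lit 26780853)))
(L (nat_lit 14862716)))
(L (nat_lit 21376028))))
(L (nat_lit 6315951))))
(S (nat_lit 34386) (S (nat_lit 10707) (S (nat_lit 20805) (S (nat_lit 23219) (L (nat_lit 23466855))
(L (nat_lit 21922279)))
(L (nat_lit 21099821)))
(S (nat_lit 30471) (S (nat_lit 44927) (S (nat_lit 6320) (L (nat_lit 29788745))
(L (nat_lit 18997548)))
(L (nat_lit 10128794)))
(S (nat_lit 50235) (S (nat_lit 54151) (L (nat_lit 28420685))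
(L (nat_lit 21084935)))
(L (nat_lit 25697302)))))
(S (nat_lit 54150) (S (nat_lit 1991) (S (nat_lit 39531) (S (nat_lit 10952) (S (nat_lit 6320) (S (nat_lit 21758) (S (nat_lit 6878) (L (nat_lit 19324967))
(L (nat_lit 21088011)))
(L (nat_lit 21219232)))
(L (nat_lit 18990888)))
(L (nat_lit 21171116)))
(L (nat_lit 27657523)))
(S (nat_lit 21755) (S (nat_lit 55124) (S (nat_lit 22749) (L (nat_lit 9290898))
(L (nat_lit 21793070)))
(L (nat_lit 21799021)))
(S (nat_lit 41519) (S (nat_lit 17033) (S (nat_lit 9751) (L (nat_lit 15068338))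
(L (nat_lit 21375162)))
(L (nat_lit 17139540)))
(L (nat_lit 25870438)))))
(L (nat_lit 25284105)))))
(S (nat_lit 36104) (S (nat_lit 5879) (S (nat_lit 8585) (S (nat_lit 10707) (S (nat_lit 51693) (L (nat_lit 9212526))
(L (nat_lit 27595375)))
(L (nat_lit 21088169)))
(S (nat_lit 28349) (S (nat_lit 1991) (S (nat_lit 2499) (L (nat_lit 2341596))
(L (nat_lit 19309444)))
(L (nat_lit 19742886)))
(S (nat_lit 48113) (S (nat_lit 54151) (S (nat_lit 10707) (L (nat_lit 18980346))
(L (nat_lit 21096873)))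
(L (nat_lit 21302031)))
(L (nat_lit 25860610)))))
(S (nat_lit 25643) (S (nat_lit 4) (S (nat_lit 9750) (L (nat_lit 9231374))
(L (nat_lit 21369704)))
(S (nat_lit 19768) (S (nat_lit 3781) (L (nat_lit 21890599))
(S (nat_lit 9751) (S (nat_lit 19772) (S (nat_lit 11501) (S (nat_lit 50480) (L (nat_lit 5643187))
(L (nat_lit 5456506)))
(L (nat_lit 24033291)))
(L (nat_lit 30625316)))
(L (nat_lit 21184538))))
(S (nat_lit 39532) (S (nat_lit 32947) (S (nat_lit 10952) (L (nat_lit 10942049))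
(L (nat_lit 7359404)))
(L (nat_lit 4038223)))
(L (nat_lit 25761871)))))
(S (nat_lit 45407) (S (nat_lit 16370) (S (nat_lit 44435) (L (nat_lit 27312371))
(L (nat_lit 14944858)))
(S (nat_lit 48353) (S (nat_lit 46121) (S (nat_lit 7398) (L (nat_lit 26649651))
(S (nat_lit 9750) (S (nat_lit 6320) (S (nat_lit 46118) (L (nat_lit 20885797))
(L (nat_lit 5860593)))
(L (nat_lit 5824822)))
(L (nat_lit 15278105))))
(S (nat_lit 55189) (L (nat_lit 21795025))
(L (nat_lit 17604324))))
(L (nat_lit 6051117))))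
(L (nat_lit 25858600)))))
(S (nat_lit 55868) (S (nat_lit 2500) (S (nat_lit 20235) (L (nat_lit 15749434))
(S (nat_lit 30471) (S (nat_lit 32676) (S (nat_lit 59026) (S (nat_lit 1991) (S (nat_lit 44438) (L (nat_lit 29466288))
(L (nat_lit 23112122)))
(L (nat_lit 19219232)))
(L (nat_lit 27679969)))
(S (nat_lit 48512) (L (nat_lit 4893613))
(L (nat_lit 19217498))))
(L (nat_lit 19403034))))
(S (nat_lit 22264) (S (nat_lit 15596) (S (nat_lit 42693) (S (nat_lit 59023) (L (nat_lit 7460349))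
(L (nat_lit 21392487)))
(L (nat_lit 16621618)))
(S (nat_lit 35360) (S (nat_lit 22263) (S (nat_lit 56558) (L (nat_lit 8817277))
(L (nat_lit 21864525)))
(L (nat_lit 9273842)))
(S (nat_lit 55124) (S (nat_lit 22750) (S (nat_lit 44438) (S (nat_lit 16547) (L (nat_lit 29569170))
(L (nat_lit 14799689)))
(L (nat_lit 23497016)))
(L (nat_lit 22332600)))
(L (nat_lit 25183819)))))
(S (nat_lit 42028) (S (nat_lit 15596) (S (nat_lit 49275) (S (nat_lit 54863) (L (nat_lit 9498036))
(L (nat_lit 5460749)))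
(L (nat_lit 15901405)))
(S (nat_lit 35360) (S (nat_lit 33415) (S (nat_lit 33155) (S (nat_lit 37302) (S (nat_lit 59026) (L (nat_lit 21259373))
(L (nat_lit 21392612)))
(L (nat_lit 17573441)))
(L (nat_lit 10371651)))
(L (nat_lit 16458776)))
(S (nat_lit 55124) (S (nat_lit 25424) (S (nat_lit 59026) (S (nat_lit 31930) (S (nat_lit 39261) (S (nat_lit 11501) (S (nat_lit 7364) (S (nat_lit 56072) (L (nat_lit 2343549))
(L (nat_lit 15852199)))
(L (nat_lit 13956741)))
(L (nat_lit 7755650)))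
(L (nat_lit 8024209)))
(L (nat_lit 14489682)))
(L (nat_lit 27284717)))
(S (nat_lit 38627) (L (nat_lit 7758965))
(L (nat_lit 21795118))))
(L (nat_lit 25800747)))))
(L (nat_lit 25547237)))))
(L (nat_lit 25475681)))))
(S (nat_lit 46409) (S (nat_lit 2499) (S (nat_lit 19502) (S (nat_lit 16340) (L (nat_lit 3032647))
(S (nat_lit 36104) (S (nat_lit 3455) (S (nat_lit 36794) (S (nat_lit 19768) (L (nat_lit 21015437))
(L (nat_lit 9859747)))
(L (nat_lit 18517894)))
(S (nat_lit 9476) (L (nat_lit 17141524))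
(L (nat_lit 20299648))))
(S (nat_lit 55868) (S (nat_lit 12473) (S (nat_lit 10708) (L (nat_lit 411994))
(L (nat_lit 21096935)))
(L (nat_lit 402323)))
(L (nat_lit 25482415)))))
(S (nat_lit 39266) (S (nat_lit 26087) (S (nat_lit 1041) (S (nat_lit 56075) (L (nat_lit 30786610))
(L (nat_lit 8120461)))
(L (nat_lit 20244525)))
(L (nat_lit 17426472)))
(S (nat_lit 59030) (S (nat_lit 4907) (S (nat_lit 10952) (S (nat_lit 59022) (S (nat_lit 9747) (L (nat_lit 19742890))
(L (nat_lit 21828042)))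
(L (nat_lit 21841003)))
(L (nat_lit 21218180)))
(S (nat_lit 24671) (S (nat_lit 26354) (S (nat_lit 13391) (L (nat_lit 4406873))
(L (nat_lit 24363905)))
(L (nat_lit 18980753)))
(S (nat_lit 44435) (S (nat_lit 53666) (S (nat_lit 38255) (S (nat_lit 27128) (S (nat_lit 19768) (S (nat_lit 36104) (S (nat_lit 34386) (S (nat_lit 12473) (S (nat_lit 40570) (L (nat_lit 11650781))
(L (nat_lit 3906108)))
(L (nat_lit 21893326)))
(L (nat_lit 30890241)))
(L (nat_lit 20375745)))
(L (nat_lit 21229646)))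
(L (nat_lit 15308615)))
(L (nat_lit 17713319)))
(L (nat_lit 3644056)))
(L (nat_lit 25614528)))))
(L (nat_lit 25247302)))))
(S (nat_lit 22263) (S (nat_lit 19498) (S (nat_lit 12913) (S (nat_lit 46892) (S (nat_lit 46895) (L (nat_lit 29790791))
(L (nat_lit 18687091)))
(L (nat_lit 10084401)))
(L (nat_lit 23603073)))
(S (nat_lit 39262) (S (nat_lit 3) (L (nat_lit 28707463))
(S (nat_lit 19767) (S (nat_lit 39259) (S (nat_lit 56072) (L (nat_lit 16992280))
(L (nat_lit 28019143)))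
(L (nat_lit 23490663)))
(S (nat_lit 39531) (L (nat_lit 5665383))
(L (nat_lit 25178791)))))
(S (nat_lit 59026) (S (nat_lit 15596) (S (nat_lit 13651) (S (nat_lit 13391) (S (nat_lit 19768) (S (nat_lit 40570) (L (nat_lit 17502586))
(L (nat_lit 7388892)))
(L (nat_lit 21830083)))
(L (nat_lit 7762034)))
(L (nat_lit 13443091)))
(S (nat_lit 35360) (S (nat_lit 57067) (S (nat_lit 8036) (S (nat_lit 3165) (L (nat_lit 5647125))
(L (nat_lit 2892275)))
(L (nat_lit 1460444)))
(L (nat_lit 27384176)))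
(S (nat_lit 55124) (S (nat_lit 9751) (S (nat_lit 59030) (S (nat_lit 59022) (S (nat_lit 54150) (S (nat_lit 13651) (S (nat_lit 8036) (S (nat_lit 36311) (S (nat_lit 58019) (L (nat_lit 18490523))
(L (nat_lit 3723642)))
(L (nat_lit 18696329)))
(L (nat_lit 26631428)))
(L (nat_lit 26354255)))
(L (nat_lit 7126593)))
(L (nat_lit 27678053)))
(L (nat_lit 19272986)))
(S (nat_lit 55682) (S (nat_lit 6645) (L (nat_lit 23465272))
(L (nat_lit 8805184)))
(L (nat_lit 4596562))))
(L (nat_lit 25895983)))))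
(L (nat_lit 25826730)))))
(S (nat_lit 42027) (S (nat_lit 13651) (S (nat_lit 3455) (S (nat_lit 11501) (S (nat_lit 1) (L (nat_lit 15535689))
(L (nat_lit 26608884)))
(L (nat_lit 7734195)))
(S (nat_lit 23219) (S (nat_lit 50236) (S (nat_lit 46892) (S (nat_lit 41519) (S (nat_lit 54863) (L (nat_lit 29557206))
(L (nat_lit 14389626)))
(L (nat_lit 7006626)))
(L (nat_lit 9628085)))
(L (nat_lit 27628018)))
(S (nat_lit 42983) (S (nat_lit 39259) (S (nat_lit 43730) (L (nat_lit 9026584))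
(L (nat_lit 13898458)))
(S (nat_lit 40837) (L (nat_lit 411899))
(L (nat_lit 14250087))))
(L (nat_lit 25582882)))))
(S (nat_lit 33415) (S (nat_lit 19497) (S (nat_lit 11501) (L (nat_lit 16111674))
(L (nat_lit 3616659)))
(S (nat_lit 39261) (S (nat_lit 40569) (S (nat_lit 48113) (L (nat_lit 8504083))
(L (nat_lit 16994048)))
(L (nat_lit 8192563)))
(S (nat_lit 59025) (S (nat_lit 59026) (S (nat_lit 46895) (L (nat_lit 7163393))
(L (nat_lit 10021604)))
(L (nat_lit 27679969)))
(L (nat_lit 25630039)))))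
(S (nat_lit 53179) (S (nat_lit 13183) (S (nat_lit 28589) (L (nat_lit 10531763))
(L (nat_lit 3794474)))
(S (nat_lit 32947) (S (nat_lit 12473) (L (nat_lit 21328353))
(L (nat_lit 9616275)))
(S (nat_lit 52711) (S (nat_lit 46892) (L (nat_lit 27303315))
(L (nat_lit 27509779)))
(L (nat_lit 25724488)))))
(L (nat_lit 25677121)))))
(L (nat_lit 25904231)))))
(L (nat_lit 25724490)))))
(L (nat_lit 25893284)))))
(L (nat_lit 25927204)))))

theorem rb81_3 : run 4 lb81 [] tb81_3 kb81 (P4 4 2366 0 3275 2366 0 1 0 0) [] = true := by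
  decide +kernel

noncomputable def tb246_0_13 : Tr :=
(S (nat_lit 17496) (S (nat_lit 2019) (S (nat_lit 25) (S (nat_lit 75) (S (nat_lit 1229) (S (nat_lit 41243) (S (nat_lit 40694) (L (nat_lit 12725047))
(L (nat_lit 26580470)))
(L (nat_lit 3775992)))
(S (nat_lit 20993) (S (nat_lit 8748) (S (nat_lit 40531) (S (nat_lit 21479) (L (nat_lit 28744352))
(L (nat_lit 8278497)))
(L (nat_lit 10359285)))
(L (nat_lit 7995928)))
(S (nat_lit 40757) (S (nat_lit 21010) (S (nat_lit 8790) (S (nat_lit 8748) (L (nat_lit 26287604))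
(L (nat_lit 8087041)))
(L (nat_lit 8210913)))
(L (nat_lit 1264125)))
(L (nat_lit 25429680)))))
(S (nat_lit 19839) (S (nat_lit 15371) (S (nat_lit 1014) (S (nat_lit 2006) (L (nat_lit 4954620))
(L (nat_lit 18886205)))
(S (nat_lit 54340) (L (nat_lit 7827475))
(L (nat_lit 26426483))))
(S (nat_lit 35135) (S (nat_lit 17560) (S (nat_lit 42) (S (nat_lit 1958) (S (nat_lit 47) (S (nat_lit 57038) (L (nat_lit 23358575))
(L (nat_lit 11046616)))
(L (nat_lit 6788701)))
(L (nat_lit 26811874)))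
(L (nat_lit 6974604)))
(S (nat_lit 30572) (L (nat_lit 15928920))
(L (nat_lit 22374882))))
(S (nat_lit 54899) (S (nat_lit 48338) (S (nat_lit 30724) (L (nat_lit 16669832))
(L (nat_lit 13847736)))
(L (nat_lit 22452997)))
(L (nat_lit 25613450)))))
(S (nat_lit 39603) (S (nat_lit 10999) (S (nat_lit 28554) (S (nat_lit 15373) (S (nat_lit 21004) (L (nat_lit 29967398))
(L (nat_lit 1990182)))
(L (nat_lit 7259810)))
(S (nat_lit 48977) (L (nat_lit 5131755))
(L (nat_lit 3924455))))
(S (nat_lit 30763) (S (nat_lit 13014) (L (nat_lit 12801080))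
(S (nat_lit 40514) (S (nat_lit 48338) (S (nat_lit 3043) (L (nat_lit 26696962))
(S (nat_lit 40531) (S (nat_lit 21004) (S (nat_lit 21490) (L (nat_lit 4791148))
(L (nat_lit 31000103)))
(L (nat_lit 31006241)))
(L (nat_lit 18027316))))
(L (nat_lit 27952495)))
(L (nat_lit 8311267))))
(S (nat_lit 50527) (S (nat_lit 1246) (S (nat_lit 1732) (L (nat_lit 28322479))
(L (nat_lit 19948007)))
(S (nat_lit 19695) (L (nat_lit 21062118))
(L (nat_lit 13853345))))
(L (nat_lit 25791977)))))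
(L (nat_lit 25929836)))))
(S (nat_lit 19789) (S (nat_lit 15384) (S (nat_lit 1003) (S (nat_lit 11040) (S (nat_lit 15309) (L (nat_lit 14702438))
(L (nat_lit 14934688)))
(S (nat_lit 30724) (S (nat_lit 37285) (S (nat_lit 35137) (S (nat_lit 50477) (S (nat_lit 54851) (S (nat_lit 57038) (S (nat_lit 40542) (S (nat_lit 4256) (L (nat_lit 5090866))
(L (nat_lit 8000397)))
(L (nat_lit 7530035)))
(L (nat_lit 18888586)))
(L (nat_lit 27479117)))
(L (nat_lit 27472979)))
(L (nat_lit 8905379)))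
(L (nat_lit 19937629)))
(L (nat_lit 13849752))))
(S (nat_lit 20767) (S (nat_lit 14950) (S (nat_lit 34259) (S (nat_lit 52581) (L (nat_lit 8405624))
(L (nat_lit 23313185)))
(L (nat_lit 20997329)))
(S (nat_lit 48290) (S (nat_lit 8748) (S (nat_lit 30724) (S (nat_lit 15309) (S (nat_lit 50510) (S (nat_lit 57038) (S (nat_lit 54851) (S (nat_lit 21739) (S (nat_lit 35137) (S (nat_lit 40547) (S (nat_lit 28537) (S (nat_lit 1014) (S (nat_lit 48338) (S (nat_lit 54899) (S (nat_lit 8823) (S (nat_lit 28543) (S (nat_lit 10977) (S (nat_lit 30730) (S (nat_lit 57071) (S (nat_lit 972) (S (nat_lit 1944) (S (nat_lit 41534) (S (nat_lit 1047) (S (nat_lit 11010) (S (nat_lit 41486) (S (nat_lit 40562) (S (nat_lit 19828) (S (nat_lit 1726) (S (nat_lit 1277) (S (nat_lit 41144) (S (nat_lit 1389) (S (nat_lit 5471) (S (nat_lit 44773) (S (nat_lit 34469) (S (nat_lit 41859) (S (nat_lit 22874) (S (nat_lit 22644) (D (nat_lit 13) (nat_lit 25768291) (nat_lit 19664329) (nat_lit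 7698733139009))
(L (nat_lit 19840257)))
(L (nat_lit 27932865)))
(L (nat_lit 19738759)))
(L (nat_lit 19357957)))
(L (nat_lit 19744037)))
(S (nat_lit 14078) (S (nat_lit 14039) (S (nat_lit 14257) (S (nat_lit 33254) (S (nat_lit 44383) (S (nat_lit 22401) (D (nat_lit 13) (nat_lit 29962498) (nat_lit 19063020) (nat_lit 73282912483))
(L (nat_lit 19838149)))
(L (nat_lit 17105716)))
(L (nat_lit 28939819)))
(L (nat_lit 29809925)))
(L (nat_lit 29804837)))
(L (nat_lit 5794537))))
(L (nat_lit 17067155)))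
(L (nat_lit 19435398)))
(L (nat_lit 19797543)))
(S (nat_lit 4987) (S (nat_lit 13553) (S (nat_lit 46686) (S (nat_lit 24707) (S (nat_lit 33108) (S (nat_lit 27179) (S (nat_lit 45280) (S (nat_lit 4294) (S (nat_lit 40743) (S (nat_lit 26187) (S (nat_lit 53521) (S (nat_lit 27408) (D (nat_lit 15) (nat_lit 6048231) (nat_lit 10242531) (nat_lit 246962815171))
(L (nat_lit 26817706)))
(L (nat_lit 13378117)))
(L (nat_lit 26849539)))
(L (nat_lit 25768195)))
(S (nat_lit 8146) (S (nat_lit 22277) (S (nat_lit 53131) (D (nat_lit 9) (nat_lit 26811439) (nat_lit 25765036) (nat_lit 278102410434))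
(L (nat_lit 29961359)))
(L (nat_lit 14567498)))
(L (nat_lit 15846715))))
(L (nat_lit 14601255)))
(L (nat_lit 28687507)))
(L (nat_lit 12946010)))
(L (nat_lit 13453419)))
(L (nat_lit 13511233)))
(L (nat_lit 29804865)))
(S (nat_lit 8207) (S (nat_lit 24950) (S (nat_lit 44065) (S (nat_lit 7174) (S (nat_lit 26936) (S (nat_lit 13750) (S (nat_lit 5197) (S (nat_lit 24312) (S (nat_lit 3397) (S (nat_lit 25055) (S (nat_lit 40743) (D (nat_lit 13) (nat_lit 27860112) (nat_lit 25761004) (nat_lit 6804372291847))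
(L (nat_lit 27861101)))
(L (nat_lit 27867425)))
(S (nat_lit 6931) (S (nat_lit 23492) (S (nat_lit 53374) (D (nat_lit 9) (nat_lit 26811439) (nat_lit 25765283) (nat_lit 278102410434))
(L (nat_lit 29959247)))
(L (nat_lit 14567717)))
(L (nat_lit 10220928))))
(L (nat_lit 19797414)))
(L (nat_lit 3971728)))
(L (nat_lit 28876420)))
(L (nat_lit 28611093)))
(L (nat_lit 28623489)))
(L (nat_lit 14601352)))
(L (nat_lit 13454596)))
(L (nat_lit 4650197)))))
(L (nat_lit 16550472)))
(L (nat_lit 18630759)))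
(L (nat_lit 8508890)))
(L (nat_lit 18478369)))
(L (nat_lit 19828170)))
(L (nat_lit 23162376)))
(L (nat_lit 12339589)))
(L (nat_lit 11291012)))
(L (nat_lit 12077925)))
(L (nat_lit 14438472)))
(L (nat_lit 21053785)))
(L (nat_lit 19153021)))
(L (nat_lit 26912846)))
(L (nat_lit 16538980)))
(L (nat_lit 4995411)))
(L (nat_lit 26425458)))
(L (nat_lit 30625186)))
(L (nat_lit 10109857)))
(L (nat_lit 30910178)))
(L (nat_lit 15486177)))
(L (nat_lit 11560655)))
(L (nat_lit 27285931)))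
(L (nat_lit 22850085)))
(L (nat_lit 22485793)))
(L (nat_lit 31140291)))
(L (nat_lit 23618784)))
(L (nat_lit 10505007))))
(S (nat_lit 40531) (S (nat_lit 35137) (S (nat_lit 21733) (S (nat_lit 41486) (S (nat_lit 15309) (S (nat_lit 37285) (S (nat_lit 1034) (S (nat_lit 1019) (S (nat_lit 1944) (S (nat_lit 54851) (S (nat_lit 37291) (S (nat_lit 40790) (L (nat_lit 2404955))
(S (nat_lit 53506) (S (nat_lit 20899) (S (nat_lit 20201) (L (nat_lit 4473465))
(L (nat_lit 19673378)))
(L (nat_lit 19275896)))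
(L (nat_lit 2484630))))
(L (nat_lit 17564265)))
(L (nat_lit 15986804)))
(L (nat_lit 3583609)))
(L (nat_lit 2481969)))
(L (nat_lit 9308694)))
(L (nat_lit 20124125)))
(L (nat_lit 22217241)))
(L (nat_lit 419062)))
(L (nat_lit 7464501)))
(S (nat_lit 54821) (L (nat_lit 9932477))
(L (nat_lit 3748088))))
(L (nat_lit 25531022)))))
(S (nat_lit 35148) (S (nat_lit 8790) (S (nat_lit 11040) (S (nat_lit 28537) (L (nat_lit 18046140))
(L (nat_lit 30610097)))
(S (nat_lit 30724) (S (nat_lit 30793) (S (nat_lit 15309) (L (nat_lit 17618086))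
(L (nat_lit 22034681)))
(S (nat_lit 50477) (S (nat_lit 15309) (L (nat_lit 7227502))
(L (nat_lit 1828046)))
(L (nat_lit 22220216))))
(L (nat_lit 24131928))))
(S (nat_lit 28554) (S (nat_lit 11073) (L (nat_lit 3611256))
(S (nat_lit 40547) (S (nat_lit 30724) (S (nat_lit 40807) (L (nat_lit 2861497))
(L (nat_lit 10163054)))
(L (nat_lit 9121976)))
(L (nat_lit 3524470))))
(S (nat_lit 48318) (S (nat_lit 37285) (S (nat_lit 28559) (S (nat_lit 30746) (S (nat_lit 62) (S (nat_lit 1748) (L (nat_lit 7927362))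
(L (nat_lit 9618013)))
(L (nat_lit 20487357)))
(L (nat_lit 9868179)))
(L (nat_lit 31173679)))
(L (nat_lit 14395549)))
(L (nat_lit 25446817)))))
(S (nat_lit 54912) (S (nat_lit 17538) (S (nat_lit 30763) (S (nat_lit 21733) (S (nat_lit 1215) (L (nat_lit 26580533))
(L (nat_lit 3557721)))
(L (nat_lit 30579253)))
(S (nat_lit 50447) (S (nat_lit 21733) (S (nat_lit 21739) (L (nat_lit 13814013))
(L (nat_lit 30553429)))
(L (nat_lit 30579253)))
(L (nat_lit 3623128))))
(S (nat_lit 37302) (S (nat_lit 15309) (S (nat_lit 19806) (S (nat_lit 40768) (L (nat_lit 18150484))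
(L (nat_lit 7463477)))
(L (nat_lit 22340129)))
(S (nat_lit 36725) (L (nat_lit 4941193))
(L (nat_lit 24131833))))
(S (nat_lit 57066) (S (nat_lit 21004) (S (nat_lit 15309) (S (nat_lit 8748) (L (nat_lit 6168052))
(L (nat_lit 23528230)))
(L (nat_lit 14735111)))
(S (nat_lit 38712) (L (nat_lit 15946595))
(L (nat_lit 16016469))))
(L (nat_lit 25248391)))))
(L (nat_lit 25667703)))))
(S (nat_lit 39553) (S (nat_lit 1958) (S (nat_lit 75) (S (nat_lit 35135) (S (nat_lit 48338) (L (nat_lit 15866520))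
(L (nat_lit 22453400)))
(L (nat_lit 3528185)))
(S (nat_lit 19839) (S (nat_lit 1290) (S (nat_lit 41503) (S (nat_lit 40575) (L (nat_lit 11169250))
(L (nat_lit 10312162)))
(L (nat_lit 9311732)))
(S (nat_lit 10647) (L (nat_lit 15738456))
(L (nat_lit 3393176))))
(S (nat_lit 39603) (S (nat_lit 28526) (S (nat_lit 30724) (L (nat_lit 2317821))
(L (nat_lit 10162648)))
(L (nat_lit 12804837)))
(L (nat_lit 25712929)))))
(S (nat_lit 21722) (S (nat_lit 1257) (S (nat_lit 21479) (S (nat_lit 15309) (S (nat_lit 39592) (L (nat_lit 4446127))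
(L (nat_lit 11288163)))
(L (nat_lit 14686905)))
(L (nat_lit 7427545)))
(S (nat_lit 21021) (S (nat_lit 50463) (L (nat_lit 19100721))
(L (nat_lit 27461327)))
(S (nat_lit 40785) (S (nat_lit 28526) (S (nat_lit 50463) (L (nat_lit 15930162))
(L (nat_lit 27461263)))
(L (nat_lit 12608235)))
(L (nat_lit 25669349)))))
(S (nat_lit 41486) (S (nat_lit 10935) (S (nat_lit 15309) (S (nat_lit 8748) (S (nat_lit 17601) (L (nat_lit 21173039))
(S (nat_lit 37285) (S (nat_lit 30763) (S (nat_lit 40514) (S (nat_lit 21010) (L (nat_lit 22250316))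
(L (nat_lit 15943741)))
(L (nat_lit 27540099)))
(L (nat_lit 8872578)))
(L (nat_lit 9999000))))
(L (nat_lit 6312750)))
(S (nat_lit 54677) (L (nat_lit 937199))
(L (nat_lit 6837272))))
(S (nat_lit 30699) (S (nat_lit 1003) (L (nat_lit 18048116))
(L (nat_lit 20144142)))
(S (nat_lit 50463) (S (nat_lit 21010) (L (nat_lit 21174127))
(L (nat_lit 30611119)))
(L (nat_lit 25362996)))))
(L (nat_lit 25531025)))))
(L (nat_lit 25581737)))))
(S (nat_lit 21783) (S (nat_lit 1765) (S (nat_lit 8810) (S (nat_lit 1240) (S (nat_lit 48351) (L (nat_lit 20376746))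
(L (nat_lit 22452006)))
(S (nat_lit 21004) (S (nat_lit 40525) (L (nat_lit 26287541))
(L (nat_lit 25074735)))
(S (nat_lit 40768) (S (nat_lit 20750) (L (nat_lit 16417146))
(L (nat_lit 16013057)))
(L (nat_lit 25756171)))))
(S (nat_lit 28574) (S (nat_lit 17521) (S (nat_lit 986) (S (nat_lit 57086) (L (nat_lit 29792836))
(L (nat_lit 13369716)))
(L (nat_lit 13422945)))
(S (nat_lit 37285) (S (nat_lit 10935) (L (nat_lit 30088239))
(L (nat_lit 18042905)))
(S (nat_lit 57049) (S (nat_lit 50477) (L (nat_lit 29433333))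
(L (nat_lit 14879480)))
(L (nat_lit 25929901)))))
(S (nat_lit 48338) (S (nat_lit 17538) (S (nat_lit 20750) (S (nat_lit 20783) (S (nat_lit 40757) (L (nat_lit 8259059))
(L (nat_lit 17682784)))
(L (nat_lit 22398105)))
(L (nat_lit 22297345)))
(S (nat_lit 37302) (S (nat_lit 20750) (S (nat_lit 28559) (S (nat_lit 19806) (S (nat_lit 48351) (S (nat_lit 30763) (S (nat_lit 40757) (S (nat_lit 40547) (S (nat_lit 41472) (S (nat_lit 39592) (S (nat_lit 40542) (S (nat_lit 54868) (S (nat_lit 50477) (S (nat_lit 17510) (S (nat_lit 41260) (S (nat_lit 57099) (S (nat_lit 35499) (S (nat_lit 39590) (S (nat_lit 29613) (S (nat_lit 9821) (S (nat_lit 29698) (S (nat_lit 23883) (S (nat_lit 37187) (D (nat_lit 13) (nat_lit 27645440) (nat_lit 25764977) (nat_lit 6777699604580))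
(L (nat_lit 27483524)))
(L (nat_lit 4051433)))
(L (nat_lit 21935396)))
(L (nat_lit 28980481)))
(S (nat_lit 41692) (S (nat_lit 19298) (S (nat_lit 39175) (S (nat_lit 8866) (S (nat_lit 5481) (D (nat_lit 13) (nat_lit 27609505) (nat_lit 25767087) (nat_lit 6639220594690))
(L (nat_lit 29082882)))
(L (nat_lit 28918825)))
(L (nat_lit 16697604)))
(L (nat_lit 28821793)))
(L (nat_lit 22807944))))
(L (nat_lit 24295243)))
(L (nat_lit 22489242)))
(L (nat_lit 13440614)))
(L (nat_lit 27726165)))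
(L (nat_lit 15944829)))
(L (nat_lit 20178028)))
(L (nat_lit 5520179)))
(L (nat_lit 3522323)))
(L (nat_lit 4944265)))
(L (nat_lit 2731419)))
(L (nat_lit 27968649)))
(L (nat_lit 17682784)))
(L (nat_lit 9231842)))
(L (nat_lit 22352283)))
(L (nat_lit 30888288)))
(L (nat_lit 9530835)))
(S (nat_lit 52039) (L (nat_lit 13343928))
(L (nat_lit 16056985))))
(S (nat_lit 57066) (S (nat_lit 8748) (S (nat_lit 57086) (S (nat_lit 21479) (S (nat_lit 1991) (L (nat_lit 1531261))
(L (nat_lit 12026460)))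
(L (nat_lit 5840377)))
(L (nat_lit 4595352)))
(S (nat_lit 45104) (L (nat_lit 19937496))
(L (nat_lit 20988711))))
(L (nat_lit 25463375)))))
(L (nat_lit 25303539)))))
(S (nat_lit 21529) (S (nat_lit 1958) (S (nat_lit 1776) (S (nat_lit 10935) (S (nat_lit 50477) (S (nat_lit 21026) (L (nat_lit 30621714))
(L (nat_lit 15951458)))
(L (nat_lit 14901028)))
(L (nat_lit 15950529)))
(S (nat_lit 21540) (S (nat_lit 8748) (S (nat_lit 19806) (S (nat_lit 37322) (S (nat_lit 17610) (L (nat_lit 9288886))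
(L (nat_lit 9963161)))
(S (nat_lit 57888) (L (nat_lit 10885045))
(L (nat_lit 30823748))))
(S (nat_lit 39490) (L (nat_lit 22097371))
(L (nat_lit 15847772))))
(S (nat_lit 28485) (L (nat_lit 26680000))
(L (nat_lit 17598151))))
(S (nat_lit 41304) (S (nat_lit 1279) (L (nat_lit 1626461))
(L (nat_lit 14386522)))
(L (nat_lit 25746441)))))
(S (nat_lit 21722) (S (nat_lit 8748) (S (nat_lit 20000) (S (nat_lit 50525) (L (nat_lit 4405044))
(L (nat_lit 15009464)))
(S (nat_lit 40547) (S (nat_lit 10935) (S (nat_lit 44568) (L (nat_lit 21860560))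
(L (nat_lit 20979567)))
(L (nat_lit 26222225)))
(L (nat_lit 8177249))))
(S (nat_lit 28434) (S (nat_lit 21026) (L (nat_lit 1260249))
(L (nat_lit 15769177)))
(L (nat_lit 219918))))
(S (nat_lit 41486) (S (nat_lit 1603) (L (nat_lit 14819156))
(S (nat_lit 50477) (S (nat_lit 20761) (S (nat_lit 8748) (S (nat_lit 9950) (L (nat_lit 22448010))
(S (nat_lit 40547) (S (nat_lit 40790) (S (nat_lit 19811) (S (nat_lit 11780) (S (nat_lit 28543) (S (nat_lit 10966) (S (nat_lit 20750) (S (nat_lit 1748) (S (nat_lit 35073) (S (nat_lit 41229) (S (nat_lit 16987) (S (nat_lit 39590) (S (nat_lit 40531) (S (nat_lit 36458) (S (nat_lit 57099) (S (nat_lit 19806) (S (nat_lit 28559) (S (nat_lit 4345) (S (nat_lit 10632) (S (nat_lit 4334) (S (nat_lit 49165) (S (nat_lit 17716) (D (nat_lit 13) (nat_lit 30692836) (nat_lit 25765411) (nat_lit 3372760665089))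
(L (nat_lit 31081762)))
(L (nat_lit 28746866)))
(L (nat_lit 31076674)))
(L (nat_lit 31143234)))
(S (nat_lit 30055) (S (nat_lit 5724) (S (nat_lit 38932) (S (nat_lit 18569) (S (nat_lit 8866) (D (nat_lit 13) (nat_lit 27609505) (nat_lit 25767395) (nat_lit 6639220594690))
(L (nat_lit 28913891)))
(L (nat_lit 27963527)))
(L (nat_lit 27697797)))
(L (nat_lit 28027429)))
(L (nat_lit 6353644))))
(L (nat_lit 2420367)))
(L (nat_lit 30725261)))
(L (nat_lit 21836064)))
(L (nat_lit 1765864)))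
(L (nat_lit 1264124)))
(L (nat_lit 27625169)))
(L (nat_lit 21488743)))
(L (nat_lit 1502795)))
(L (nat_lit 31103024)))
(L (nat_lit 9899645)))
(L (nat_lit 30802135)))
(L (nat_lit 1828264)))
(L (nat_lit 18587394)))
(L (nat_lit 28530830)))
(L (nat_lit 21054346)))
(L (nat_lit 837225)))
(L (nat_lit 1984071))))
(L (nat_lit 8078112)))
(S (nat_lit 30668) (L (nat_lit 21236526))
(L (nat_lit 21065006))))
(L (nat_lit 22219566))))
(L (nat_lit 25803814)))))
(S (nat_lit 41293) (S (nat_lit 64) (S (nat_lit 8795) (S (nat_lit 21043) (S (nat_lit 40564) (S (nat_lit 40562) (S (nat_lit 8748) (L (nat_lit 29906055))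
(L (nat_lit 6314766)))
(L (nat_lit 8123939)))
(L (nat_lit 1846862)))
(L (nat_lit 7060600)))
(L (nat_lit 7061285)))
(S (nat_lit 19828) (S (nat_lit 20800) (S (nat_lit 19826) (S (nat_lit 48307) (S (nat_lit 41304) (S (nat_lit 35073) (S (nat_lit 37291) (L (nat_lit 1710587))
(L (nat_lit 2629240)))
(L (nat_lit 2879694)))
(L (nat_lit 9143805)))
(L (nat_lit 16488569)))
(L (nat_lit 31162890)))
(L (nat_lit 31177798)))
(S (nat_lit 39592) (S (nat_lit 10966) (S (nat_lit 40807) (S (nat_lit 21512) (S (nat_lit 21026) (S (nat_lit 48338) (S (nat_lit 8773) (S (nat_lit 1240) (S (nat_lit 15371) (S (nat_lit 1726) (S (nat_lit 16470) (S (nat_lit 20736) (S (nat_lit 19811) (S (nat_lit 30761) (S (nat_lit 52282) (S (nat_lit 8762) (S (nat_lit 36022) (S (nat_lit 15373) (S (nat_lit 32728) (S (nat_lit 10048) (S (nat_lit 53794) (S (nat_lit 29099) (D (nat_lit 15) (nat_lit 28364017) (nat_lit 18997642) (nat_lit 43052472516))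
(L (nat_lit 20850861)))
(L (nat_lit 29707684)))
(S (nat_lit 37842) (S (nat_lit 8411) (S (nat_lit 17942) (D (nat_lit 15) (nat_lit 27775268) (nat_lit 19063208) (nat_lit 38889622630))
(L (nat_lit 31040931)))
(L (nat_lit 28949827)))
(L (nat_lit 12755831))))
(L (nat_lit 7226945)))
(L (nat_lit 8312881)))
(L (nat_lit 10540440)))
(L (nat_lit 15502058)))
(L (nat_lit 31170081)))
(L (nat_lit 30867829)))
(L (nat_lit 30676561)))
(L (nat_lit 22178216)))
(L (nat_lit 20986136)))
(L (nat_lit 26286612)))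
(L (nat_lit 26877071)))
(L (nat_lit 8510382)))
(L (nat_lit 21184419)))
(L (nat_lit 16423749)))
(L (nat_lit 14720601)))
(L (nat_lit 15959641)))
(L (nat_lit 10207076)))
(L (nat_lit 26983496)))
(L (nat_lit 25344585)))))
(L (nat_lit 25887143)))))
(S (nat_lit 41547) (S (nat_lit 1036) (S (nat_lit 1975) (S (nat_lit 8812) (S (nat_lit 10935) (S (nat_lit 20811) (S (nat_lit 28537) (S (nat_lit 30763) (L (nat_lit 29559469))
(L (nat_lit 3000809)))
(L (nat_lit 18923369)))
(L (nat_lit 30639602)))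
(L (nat_lit 26262774)))
(S (nat_lit 28576) (S (nat_lit 1765) (S (nat_lit 54868) (S (nat_lit 37274) (L (nat_lit 8914553))
(L (nat_lit 2859449)))
(L (nat_lit 19137425)))
(S (nat_lit 23117) (L (nat_lit 8533879))
(L (nat_lit 19076879))))
(S (nat_lit 48340) (S (nat_lit 2029) (L (nat_lit 14752565))
(S (nat_lit 54879) (S (nat_lit 1034) (L (nat_lit 22982698))
(L (nat_lit 19129891)))
(L (nat_lit 16557697))))
(L (nat_lit 25545154)))))
(S (nat_lit 21739) (S (nat_lit 10949) (S (nat_lit 15323) (S (nat_lit 39592) (S (nat_lit 37274) (L (nat_lit 23311421))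
(L (nat_lit 30975588)))
(L (nat_lit 11274862)))
(S (nat_lit 45555) (L (nat_lit 9460492))
(L (nat_lit 8055919))))
(S (nat_lit 30713) (S (nat_lit 8204) (L (nat_lit 3436051))
(S (nat_lit 21512) (S (nat_lit 28526) (L (nat_lit 30448019))
(L (nat_lit 30450255)))
(L (nat_lit 30417488))))
(S (nat_lit 50477) (S (nat_lit 8748) (S (nat_lit 28743) (L (nat_lit 21017481))
(S (nat_lit 39553) (S (nat_lit 54837) (S (nat_lit 40547) (S (nat_lit 1991) (S (nat_lit 40562) (S (nat_lit 1240) (L (nat_lit 5795124))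
(L (nat_lit 9208373)))
(L (nat_lit 8107128)))
(L (nat_lit 12644968)))
(L (nat_lit 1885801)))
(L (nat_lit 27461141)))
(L (nat_lit 23126350))))
(S (nat_lit 48414) (L (nat_lit 12342414))
(L (nat_lit 6341430))))
(L (nat_lit 25741572)))))
(S (nat_lit 41503) (S (nat_lit 1019) (S (nat_lit 35115) (S (nat_lit 21755) (S (nat_lit 19778) (S (nat_lit 17543) (S (nat_lit 19839) (S (nat_lit 35135) (S (nat_lit 41486) (S (nat_lit 37274) (S (nat_lit 21708) (S (nat_lit 64) (S (nat_lit 57049) (S (nat_lit 57066) (S (nat_lit 15340) (S (nat_lit 34562) (L (nat_lit 5486169))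
(S (nat_lit 48379) (S (nat_lit 4770) (L (nat_lit 3487320))
(L (nat_lit 27998402)))
(L (nat_lit 2633618))))
(L (nat_lit 7963195)))
(L (nat_lit 19153664)))
(L (nat_lit 19086082)))
(L (nat_lit 7061251)))
(L (nat_lit 1665449)))
(L (nat_lit 2677515)))
(L (nat_lit 18146976)))
(L (nat_lit 18651717)))
(L (nat_lit 10209024)))
(L (nat_lit 6387188)))
(L (nat_lit 9453335)))
(L (nat_lit 8127056)))
(L (nat_lit 9194913)))
(S (nat_lit 20783) (S (nat_lit 21496) (L (nat_lit 15930009))
(S (nat_lit 52318) (L (nat_lit 14689017))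
(L (nat_lit 15749031))))
(S (nat_lit 40547) (S (nat_lit 8748) (S (nat_lit 3582) (L (nat_lit 8011554))
(S (nat_lit 40790) (S (nat_lit 39570) (L (nat_lit 23108433))
(L (nat_lit 17618054)))
(L (nat_lit 482584))))
(S (nat_lit 30327) (L (nat_lit 5487410))
(L (nat_lit 26230998))))
(L (nat_lit 25631895)))))
(L (nat_lit 25667233)))))
(S (nat_lit 20800) (S (nat_lit 10999) (S (nat_lit 1765) (S (nat_lit 36210) (L (nat_lit 21098887))
(S (nat_lit 57049) (S (nat_lit 1290) (L (nat_lit 12875395))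
(L (nat_lit 14392472)))
(L (nat_lit 15439228))))
(S (nat_lit 21529) (S (nat_lit 40514) (S (nat_lit 21043) (S (nat_lit 15309) (S (nat_lit 41304) (L (nat_lit 5124745))
(L (nat_lit 17948915)))
(L (nat_lit 1594584)))
(L (nat_lit 7013821)))
(L (nat_lit 7493080)))
(S (nat_lit 41293) (S (nat_lit 62) (S (nat_lit 8779) (S (nat_lit 21010) (L (nat_lit 6820476))
(L (nat_lit 7261665)))
(L (nat_lit 321074)))
(S (nat_lit 40493) (L (nat_lit 23108529))
(L (nat_lit 7069840))))
(L (nat_lit 25690730)))))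
(S (nat_lit 30763) (S (nat_lit 8779) (S (nat_lit 62) (S (nat_lit 48338) (S (nat_lit 57049) (S (nat_lit 986) (L (nat_lit 28399852))
(L (nat_lit 9191041)))
(L (nat_lit 14895289)))
(L (nat_lit 22879407)))
(S (nat_lit 18803) (S (nat_lit 19289) (S (nat_lit 20993) (L (nat_lit 21802097))
(L (nat_lit 15536809)))
(L (nat_lit 20480381)))
(L (nat_lit 1612540))))
(S (nat_lit 28543) (S (nat_lit 17607) (L (nat_lit 17063100))
(S (nat_lit 37291) (S (nat_lit 986) (S (nat_lit 48338) (S (nat_lit 41276) (L (nat_lit 4037079))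
(L (nat_lit 3973713)))
(L (nat_lit 27760789)))
(S (nat_lit 51571) (L (nat_lit 6873267))
(L (nat_lit 8482295))))
(L (nat_lit 2726328))))
(S (nat_lit 48307) (S (nat_lit 75) (S (nat_lit 41291) (L (nat_lit 31162609))
(L (nat_lit 7074929)))
(S (nat_lit 54929) (L (nat_lit 31179073))
(L (nat_lit 8111192))))
(L (nat_lit 25448834)))))
(S (nat_lit 50527) (S (nat_lit 8779) (S (nat_lit 20883) (L (nat_lit 17881467))
(S (nat_lit 40575) (S (nat_lit 62) (S (nat_lit 1262) (S (nat_lit 1748) (L (nat_lit 16482620))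
(L (nat_lit 2803494)))
(L (nat_lit 9094944)))
(S (nat_lit 19289) (L (nat_lit 13273894))
(L (nat_lit 7916701))))
(L (nat_lit 23650498))))
(L (nat_lit 6874691)))
(L (nat_lit 25313992)))))
(S (nat_lit 40564) (S (nat_lit 1034) (S (nat_lit 5493) (L (nat_lit 28018154))
(S (nat_lit 8748) (S (nat_lit 47) (S (nat_lit 1279) (L (nat_lit 20167708))
(L (nat_lit 26510927)))
(S (nat_lit 19811) (S (nat_lit 1047) (S (nat_lit 28554) (L (nat_lit 7921540))
(L (nat_lit 2875758)))
(L (nat_lit 9111033)))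
(S (nat_lit 39575) (S (nat_lit 40547) (S (nat_lit 30763) (S (nat_lit 10977) (S (nat_lit 41276) (L (nat_lit 29377879))
(L (nat_lit 9094232)))
(L (nat_lit 1815929)))
(L (nat_lit 9231842)))
(L (nat_lit 23891367)))
(L (nat_lit 25484709)))))
(L (nat_lit 21010968))))
(S (nat_lit 20798) (S (nat_lit 972) (S (nat_lit 8795) (S (nat_lit 40774) (S (nat_lit 41260) (L (nat_lit 23360994))
(L (nat_lit 17846058)))
(L (nat_lit 18042660)))
(S (nat_lit 34468) (L (nat_lit 2344754))
(L (nat_lit 6373171))))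
(S (nat_lit 20736) (S (nat_lit 10161) (L (nat_lit 22551332))
(S (nat_lit 10982) (S (nat_lit 39570) (S (nat_lit 57066) (L (nat_lit 12670296))
(L (nat_lit 21524614)))
(L (nat_lit 17068736)))
(L (nat_lit 766762))))
(S (nat_lit 40500) (S (nat_lit 41486) (S (nat_lit 37291) (S (nat_lit 57049) (S (nat_lit 35115) (S (nat_lit 39570) (S (nat_lit 17560) (S (nat_lit 20778) (S (nat_lit 37274) (S (nat_lit 1969) (S (nat_lit 54837) (S (nat_lit 15384) (S (nat_lit 57086) (S (nat_lit 21755) (S (nat_lit 40547) (S (nat_lit 19839) (S (nat_lit 41503) (S (nat_lit 54901) (S (nat_lit 24853) (S (nat_lit 30057) (S (nat_lit 45832) (L (nat_lit 5485240))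
(L (nat_lit 26951905)))
(L (nat_lit 26949824)))
(S (nat_lit 30763) (S (nat_lit 8812) (S (nat_lit 10977) (S (nat_lit 28526) (S (nat_lit 50477) (S (nat_lit 8795) (S (nat_lit 29350) (S (nat_lit 45055) (S (nat_lit 19350) (S (nat_lit 25306) (S (nat_lit 34696) (S (nat_lit 42293) (S (nat_lit 5558) (S (nat_lit 38218) (S (nat_lit 41260) (S (nat_lit 28450) (D (nat_lit 13) (nat_lit 27918702) (nat_lit 25767395) (nat_lit 6742299711589))
(L (nat_lit 27933891)))
(L (nat_lit 27927566)))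
(L (nat_lit 27934891)))
(S (nat_lit 17873) (S (nat_lit 8491) (S (nat_lit 10667) (D (nat_lit 15) (nat_lit 26980580) (nat_lit 18948664) (nat_lit 270670947))
(L (nat_lit 31045985)))
(L (nat_lit 31045952)))
(L (nat_lit 23933283))))
(L (nat_lit 9359407)))
(L (nat_lit 28499338)))
(L (nat_lit 16445668)))
(L (nat_lit 28520599)))
(L (nat_lit 7189057)))
(S (nat_lit 37235) (S (nat_lit 13231) (S (nat_lit 29453) (S (nat_lit 30576) (S (nat_lit 29406) (S (nat_lit 27233) (S (nat_lit 17599) (S (nat_lit 13954) (S (nat_lit 49885) (D (nat_lit 13) (nat_lit 30025805) (nat_lit 18619971) (nat_lit 3408295760961))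
(L (nat_lit 29012160)))
(S (nat_lit 17826) (S (nat_lit 44374) (D (nat_lit 15) (nat_lit 28018961) (nat_lit 16330497) (nat_lit 71068425282))
(L (nat_lit 22439172)))
(L (nat_lit 20746694))))
(L (nat_lit 27478093)))
(L (nat_lit 8833825)))
(L (nat_lit 27928964)))
(L (nat_lit 29082667)))
(L (nat_lit 8967195)))
(L (nat_lit 16012315)))
(S (nat_lit 58130) (S (nat_lit 34254) (S (nat_lit 7287) (S (nat_lit 58722) (S (nat_lit 16415) (S (nat_lit 16432) (S (nat_lit 32579) (D (nat_lit 15) (nat_lit 31134029) (nat_lit 18997642) (nat_lit 76344791168))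
(L (nat_lit 27931904)))
(L (nat_lit 27930912)))
(S (nat_lit 28663) (S (nat_lit 48262) (S (nat_lit 25063) (D (nat_lit 13) (nat_lit 9593421) (nat_lit 11290735) (nat_lit 4578575911168))
(L (nat_lit 19669381)))
(L (nat_lit 26849539)))
(L (nat_lit 5895593))))
(L (nat_lit 29643138)))
(L (nat_lit 30944869)))
(L (nat_lit 28856581)))
(L (nat_lit 22407180)))))
(L (nat_lit 21860874)))
(L (nat_lit 15583338)))
(L (nat_lit 31141994)))
(L (nat_lit 21864896)))
(L (nat_lit 21939394)))
(L (nat_lit 8577680))))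
(L (nat_lit 14315561)))
(L (nat_lit 18085012)))
(L (nat_lit 10327692)))
(L (nat_lit 7367249)))
(L (nat_lit 22823264)))
(L (nat_lit 27859396)))
(L (nat_lit 6802272)))
(L (nat_lit 14539815)))
(L (nat_lit 3971823)))
(L (nat_lit 9172389)))
(L (nat_lit 14898236)))
(L (nat_lit 672520)))
(L (nat_lit 17094400)))
(L (nat_lit 20236065)))
(L (nat_lit 27773282)))
(L (nat_lit 8476088)))
(L (nat_lit 24511832)))
(L (nat_lit 25792906)))))
(S (nat_lit 40562) (S (nat_lit 8762) (S (nat_lit 8748) (S (nat_lit 20778) (S (nat_lit 40790) (L (nat_lit 23083943))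
(L (nat_lit 16996472)))
(L (nat_lit 22035242)))
(L (nat_lit 21169624)))
(S (nat_lit 28526) (S (nat_lit 40805) (S (nat_lit 41291) (S (nat_lit 8748) (L (nat_lit 16817755))
(L (nat_lit 6314456)))
(L (nat_lit 23604344)))
(L (nat_lit 23598392)))
(S (nat_lit 48290) (S (nat_lit 37291) (S (nat_lit 8790) (S (nat_lit 75) (S (nat_lit 20778) (S (nat_lit 39590) (S (nat_lit 28543) (L (nat_lit 8931453))
(L (nat_lit 18967081)))
(L (nat_lit 18574693)))
(L (nat_lit 21184292)))
(L (nat_lit 14362712)))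
(L (nat_lit 17533304)))
(L (nat_lit 3693848)))
(L (nat_lit 25627957)))))
(L (nat_lit 25727721)))))
(L (nat_lit 25482656)))))
(L (nat_lit 25893004)))))
(S (nat_lit 37260) (S (nat_lit 15323) (S (nat_lit 2019) (S (nat_lit 17510) (S (nat_lit 5716) (L (nat_lit 20137860))
(S (nat_lit 6472) (L (nat_lit 20137860))
(L (nat_lit 13856884))))
(S (nat_lit 37274) (S (nat_lit 1732) (L (nat_lit 8402556))
(L (nat_lit 9457486)))
(S (nat_lit 57038) (S (nat_lit 1036) (S (nat_lit 21043) (S (nat_lit 21529) (L (nat_lit 11457924))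
(L (nat_lit 31178021)))
(L (nat_lit 31177988)))
(S (nat_lit 20800) (S (nat_lit 21529) (S (nat_lit 21043) (S (nat_lit 28537) (S (nat_lit 19828) (L (nat_lit 2642791))
(L (nat_lit 9172355)))
(L (nat_lit 30618802)))
(L (nat_lit 15458411)))
(L (nat_lit 15458597)))
(S (nat_lit 40564) (S (nat_lit 40805) (L (nat_lit 18584423))
(L (nat_lit 10220625)))
(L (nat_lit 25476677)))))
(L (nat_lit 25415172)))))
(S (nat_lit 21783) (S (nat_lit 1975) (S (nat_lit 1765) (S (nat_lit 36464) (L (nat_lit 970029))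
(L (nat_lit 10215535)))
(S (nat_lit 21529) (S (nat_lit 40547) (S (nat_lit 40774) (L (nat_lit 28530831))
(L (nat_lit 27465391)))
(L (nat_lit 27483553)))
(S (nat_lit 41293) (S (nat_lit 15371) (S (nat_lit 21026) (L (nat_lit 3850524))
(L (nat_lit 22242690)))
(L (nat_lit 2006607)))
(L (nat_lit 25368143)))))
(S (nat_lit 21739) (S (nat_lit 2166) (L (nat_lit 4419149))
(S (nat_lit 41534) (S (nat_lit 16479) (S (nat_lit 10935) (L (nat_lit 1262232))
(L (nat_lit 20997607)))
(S (nat_lit 21496) (S (nat_lit 50477) (L (nat_lit 28319186))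
(L (nat_lit 14895224)))
(L (nat_lit 30420437))))
(L (nat_lit 9154648))))
(S (nat_lit 41503) (S (nat_lit 1944) (S (nat_lit 41534) (S (nat_lit 39570) (S (nat_lit 10960) (S (nat_lit 8823) (L (nat_lit 28022924))
(L (nat_lit 6803265)))
(L (nat_lit 26236269)))
(L (nat_lit 17494369)))
(L (nat_lit 18028375)))
(S (nat_lit 21708) (S (nat_lit 28574) (S (nat_lit 37307) (S (nat_lit 48276) (L (nat_lit 10218916))
(L (nat_lit 15947805)))
(L (nat_lit 2640714)))
(L (nat_lit 10256821)))
(S (nat_lit 41472) (S (nat_lit 40807) (S (nat_lit 41293) (S (nat_lit 37285) (L (nat_lit 8058028))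
(L (nat_lit 8434269)))
(L (nat_lit 27460207)))
(L (nat_lit 27269743)))
(L (nat_lit 25278027)))))
(L (nat_lit 25407637)))))
(S (nat_lit 41547) (S (nat_lit 1277) (S (nat_lit 41276) (S (nat_lit 8762) (S (nat_lit 48276) (S (nat_lit 39553) (S (nat_lit 50477) (S (nat_lit 1003) (S (nat_lit 30699) (S (nat_lit 28537) (S (nat_lit 1715) (S (nat_lit 39570) (S (nat_lit 54884) (S (nat_lit 21527) (S (nat_lit 57055) (S (nat_lit 41293) (S (nat_lit 44232) (S (nat_lit 40564) (S (nat_lit 39324) (S (nat_lit 12242) (S (nat_lit 19532) (S (nat_lit 25836) (D (nat_lit 11) (nat_lit 27953393) (nat_lit 25280882) (nat_lit 212843300994))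
(L (nat_lit 27662386)))
(L (nat_lit 27381222)))
(L (nat_lit 27380199)))
(S (nat_lit 39466) (S (nat_lit 57164) (S (nat_lit 684) (S (nat_lit 30182) (S (nat_lit 36014) (S (nat_lit 21130) (D (nat_lit 9) (nat_lit 27841828) (nat_lit 4508088) (nat_lit 210558453921))
(L (nat_lit 29047883)))
(L (nat_lit 9359747)))
(L (nat_lit 21937379)))
(L (nat_lit 31079653)))
(L (nat_lit 28982563)))
(L (nat_lit 8446389))))
(L (nat_lit 10019925)))
(L (nat_lit 19830799)))
(L (nat_lit 7046062)))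
(L (nat_lit 15505523)))
(L (nat_lit 15518822)))
(L (nat_lit 18966986)))
(L (nat_lit 11203072)))
(L (nat_lit 12905089)))
(L (nat_lit 8416754)))
(L (nat_lit 8404822)))
(L (nat_lit 8413870)))
(L (nat_lit 12607370)))
(L (nat_lit 11552508)))
(L (nat_lit 13639604)))
(L (nat_lit 23077277)))
(L (nat_lit 16802103)))
(S (nat_lit 21041) (S (nat_lit 40547) (S (nat_lit 40807) (S (nat_lit 1743) (S (nat_lit 50477) (S (nat_lit 1290) (S (nat_lit 39553) (S (nat_lit 41260) (S (nat_lit 48276) (S (nat_lit 39570) (S (nat_lit 986) (S (nat_lit 47) (S (nat_lit 5924) (S (nat_lit 30763) (S (nat_lit 17558) (S (nat_lit 8823) (S (nat_lit 1047) (S (nat_lit 15549) (S (nat_lit 5575) (S (nat_lit 12789) (S (nat_lit 35011) (S (nat_lit 1411) (D (nat_lit 13) (nat_lit 31064430) (nat_lit 7096803) (nat_lit 248302960642))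
(L (nat_lit 30026276)))
(L (nat_lit 27281865)))
(L (nat_lit 27897931)))
(L (nat_lit 29765248)))
(S (nat_lit 25534) (S (nat_lit 29453) (S (nat_lit 36257) (S (nat_lit 4039) (D (nat_lit 11) (nat_lit 30118192) (nat_lit 19053321) (nat_lit 70970839236))
(L (nat_lit 28748480)))
(L (nat_lit 9357856)))
(L (nat_lit 9358881)))
(L (nat_lit 16322936))))
(L (nat_lit 9111033)))
(L (nat_lit 520774)))
(L (nat_lit 17982804)))
(L (nat_lit 9919549)))
(L (nat_lit 21031214)))
(L (nat_lit 6754941)))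
(L (nat_lit 14418134)))
(L (nat_lit 17953107)))
(L (nat_lit 19951046)))
(L (nat_lit 24127279)))
(L (nat_lit 18049763)))
(L (nat_lit 26232019)))
(L (nat_lit 14690099)))
(L (nat_lit 12610281)))
(L (nat_lit 27277926)))
(L (nat_lit 24144297)))
(S (nat_lit 40805) (S (nat_lit 17521) (S (nat_lit 41271) (S (nat_lit 1003) (S (nat_lit 28537) (S (nat_lit 30699) (S (nat_lit 8762) (S (nat_lit 2006) (S (nat_lit 1748) (S (nat_lit 48276) (S (nat_lit 47) (S (nat_lit 41254) (S (nat_lit 35135) (S (nat_lit 4371) (S (nat_lit 44740) (S (nat_lit 43628) (S (nat_lit 50494) (S (nat_lit 986) (S (nat_lit 8779) (S (nat_lit 44784) (S (nat_lit 1676) (S (nat_lit 38081) (S (nat_lit 3975) (S (nat_lit 40983) (D (nat_lit 13) (nat_lit 18025298) (nat_lit 5849863) (nat_lit 6804375538849))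
(L (nat_lit 30097577)))
(L (nat_lit 27731684)))
(L (nat_lit 21840196)))
(S (nat_lit 17208) (S (nat_lit 17890) (S (nat_lit 32540) (S (nat_lit 40653) (D (nat_lit 13) (nat_lit 27840805) (nat_lit 19056393) (nat_lit 1280002163936))
(L (nat_lit 19735661)))
(L (nat_lit 20345057)))
(L (nat_lit 27866432)))
(L (nat_lit 7013168))))
(L (nat_lit 2843178)))
(L (nat_lit 15434600)))
(L (nat_lit 13920897)))
(L (nat_lit 15434536)))
(L (nat_lit 22577958)))
(L (nat_lit 8932261)))
(L (nat_lit 750057)))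
(L (nat_lit 23566491)))
(L (nat_lit 3465967)))
(L (nat_lit 6997796)))
(L (nat_lit 19929968)))
(L (nat_lit 18904488)))
(L (nat_lit 26226385)))
(L (nat_lit 6309717)))
(L (nat_lit 24135495)))
(L (nat_lit 24127992)))
(L (nat_lit 12602182)))
(L (nat_lit 27279081)))
(L (nat_lit 6321805)))
(L (nat_lit 25726262)))))
(L (nat_lit 25904267)))))
(S (nat_lit 35087) (S (nat_lit 25) (S (nat_lit 17571) (S (nat_lit 4747) (L (nat_lit 10128207))
(S (nat_lit 37274) (S (nat_lit 19806) (S (nat_lit 21770) (S (nat_lit 41497) (S (nat_lit 41472) (S (nat_lit 35073) (S (nat_lit 37285) (S (nat_lit 41486) (S (nat_lit 17560) (S (nat_lit 21783) (S (nat_lit 15384) (S (nat_lit 15373) (S (nat_lit 54868) (S (nat_lit 39592) (S (nat_lit 19811) (S (nat_lit 57055) (S (nat_lit 39590) (S (nat_lit 57066) (S (nat_lit 39603) (S (nat_lit 54879) (S (nat_lit 54884) (S (nat_lit 1986) (S (nat_lit 1991) (S (nat_lit 997) (S (nat_lit 986) (S (nat_lit 40562) (S (nat_lit 20767) (S (nat_lit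 10977) (S (nat_lit 17467) (S (nat_lit 912) (L (nat_lit 2343517))
(L (nat_lit 31049057)))
(L (nat_lit 31046849)))
(S (nat_lit 25488) (L (nat_lit 280216))
(L (nat_lit 23161169))))
(L (nat_lit 12497536)))
(L (nat_lit 27997475)))
(L (nat_lit 12845911)))
(S (nat_lit 20761) (S (nat_lit 40542) (S (nat_lit 1047) (S (nat_lit 1036) (S (nat_lit 8790) (S (nat_lit 10982) (S (nat_lit 10977) (S (nat_lit 28587) (S (nat_lit 48290) (S (nat_lit 32589) (S (nat_lit 15425) (S (nat_lit 1088) (S (nat_lit 13051) (S (nat_lit 32832) (S (nat_lit 32614) (S (nat_lit 50208) (S (nat_lit 19741) (S (nat_lit 40601) (S (nat_lit 16916) (D (nat_lit 13) (nat_lit 25349420) (nat_lit 6709829) (nat_lit 6703543485474))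
(L (nat_lit 27930852)))
(S (nat_lit 49484) (S (nat_lit 41260) (S (nat_lit 8397) (D (nat_lit 13) (nat_lit 27740331) (nat_lit 25413807) (nat_lit 7803088601094))
(L (nat_lit 27963684)))
(L (nat_lit 27963621)))
(L (nat_lit 19309752))))
(L (nat_lit 12939381)))
(L (nat_lit 29449707)))
(L (nat_lit 27695122)))
(L (nat_lit 27893120)))
(L (nat_lit 30097764)))
(L (nat_lit 27930851)))
(L (nat_lit 27998533)))
(S (nat_lit 46433) (S (nat_lit 50635) (S (nat_lit 46428) (S (nat_lit 58642) (S (nat_lit 20366) (S (nat_lit 899) (S (nat_lit 19114) (S (nat_lit 12819) (S (nat_lit 21010) (D (nat_lit 13) (nat_lit 5069258) (nat_lit 19666124) (nat_lit 39765317798))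
(L (nat_lit 21438525)))
(L (nat_lit 30093538)))
(L (nat_lit 27930818)))
(S (nat_lit 15269) (S (nat_lit 45995) (S (nat_lit 55701) (S (nat_lit 21479) (D (nat_lit 13) (nat_lit 14504160) (nat_lit 25544879) (nat_lit 6808731127016))
(L (nat_lit 25770209)))
(L (nat_lit 9243312)))
(L (nat_lit 21831793)))
(L (nat_lit 18449660))))
(L (nat_lit 24022352)))
(L (nat_lit 2765639)))
(L (nat_lit 13542420)))
(L (nat_lit 14591616)))
(S (nat_lit 48934) (S (nat_lit 36404) (S (nat_lit 58145) (S (nat_lit 9691) (S (nat_lit 34564) (S (nat_lit 21394) (S (nat_lit 29698) (S (nat_lit 1715) (S (nat_lit 15930) (D (nat_lit 13) (nat_lit 28562445) (nat_lit 10030861) (nat_lit 6708942508097))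
(L (nat_lit 27856390)))
(L (nat_lit 19294214)))
(S (nat_lit 47535) (S (nat_lit 20979) (S (nat_lit 6646) (S (nat_lit 36174) (S (nat_lit 54521) (D (nat_lit 13) (nat_lit 4992500) (nat_lit 19259877) (nat_lit 6612386952))
(L (nat_lit 26644040)))
(L (nat_lit 26850472)))
(L (nat_lit 19673347)))
(L (nat_lit 25768195)))
(L (nat_lit 3948139))))
(L (nat_lit 2717039)))
(L (nat_lit 13201637)))
(L (nat_lit 20345058)))
(L (nat_lit 8992544)))
(L (nat_lit 19276576)))
(L (nat_lit 4114059)))))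
(L (nat_lit 14591556)))
(L (nat_lit 30846689)))
(L (nat_lit 21869889)))
(L (nat_lit 21868772)))
(S (nat_lit 20243) (S (nat_lit 27172) (S (nat_lit 40488) (L (nat_lit 2310744))
(L (nat_lit 26982690)))
(L (nat_lit 26982658)))
(L (nat_lit 7925344))))
(L (nat_lit 13522245)))
(L (nat_lit 13524324)))
(L (nat_lit 8272580)))
(S (nat_lit 40525) (S (nat_lit 20800) (S (nat_lit 8741) (S (nat_lit 4004) (L (nat_lit 10982040))
(L (nat_lit 29014275)))
(S (nat_lit 54679) (L (nat_lit 3356381))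
(L (nat_lit 22217521))))
(L (nat_lit 21225614)))
(L (nat_lit 25772261)))))
(L (nat_lit 19335942)))
(L (nat_lit 19361027)))
(L (nat_lit 19435736)))
(L (nat_lit 21390689)))
(L (nat_lit 17536903)))
(L (nat_lit 21423457)))
(L (nat_lit 17558852)))
(L (nat_lit 21427272)))
(L (nat_lit 30518896)))
(L (nat_lit 18588732)))
(L (nat_lit 21366073)))
(L (nat_lit 7264770)))
(L (nat_lit 6469337)))
(L (nat_lit 14689042)))
(L (nat_lit 598523)))
(L (nat_lit 2736008)))
(L (nat_lit 2863480)))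
(L (nat_lit 8418032)))
(L (nat_lit 9041283)))
(L (nat_lit 9035790)))
(L (nat_lit 14896217)))
(S (nat_lit 21183) (L (nat_lit 14427778))
(L (nat_lit 10150433))))
(L (nat_lit 8418740))))
(S (nat_lit 37335) (S (nat_lit 8790) (S (nat_lit 8202) (L (nat_lit 16915064))
(S (nat_lit 41260) (S (nat_lit 37274) (S (nat_lit 21041) (L (nat_lit 8309153))
(L (nat_lit 31171072)))
(L (nat_lit 2323890)))
(L (nat_lit 8418804))))
(S (nat_lit 28554) (S (nat_lit 27226) (S (nat_lit 37274) (L (nat_lit 12676777))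
(L (nat_lit 8451508)))
(S (nat_lit 30713) (S (nat_lit 37274) (S (nat_lit 35104) (L (nat_lit 13263977))
(L (nat_lit 8509201)))
(L (nat_lit 13661460)))
(L (nat_lit 9329742))))
(S (nat_lit 48318) (S (nat_lit 20709) (S (nat_lit 50538) (L (nat_lit 2380189))
(L (nat_lit 20255163)))
(S (nat_lit 50488) (S (nat_lit 37274) (S (nat_lit 1279) (L (nat_lit 12303108))
(L (nat_lit 8917780)))
(L (nat_lit 8418738)))
(L (nat_lit 20156828))))
(L (nat_lit 25725270)))))
(S (nat_lit 57099) (S (nat_lit 5989) (L (nat_lit 8408507))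
(S (nat_lit 37274) (S (nat_lit 2168) (L (nat_lit 23990666))
(S (nat_lit 21770) (S (nat_lit 35073) (S (nat_lit 37285) (S (nat_lit 14) (S (nat_lit 57088) (S (nat_lit 21783) (S (nat_lit 19811) (S (nat_lit 19806) (S (nat_lit 1763) (S (nat_lit 41271) (L (nat_lit 18516253))
(L (nat_lit 1762857)))
(S (nat_lit 21527) (S (nat_lit 30730) (L (nat_lit 14942812))
(L (nat_lit 3928584)))
(S (nat_lit 41291) (S (nat_lit 40790) (L (nat_lit 17846552))
(L (nat_lit 27960433)))
(L (nat_lit 25381411)))))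
(S (nat_lit 20616) (L (nat_lit 28776009))
(L (nat_lit 9951072))))
(S (nat_lit 20378) (L (nat_lit 28788872))
(L (nat_lit 3065046))))
(L (nat_lit 7892019)))
(L (nat_lit 27862562)))
(L (nat_lit 6318550)))
(L (nat_lit 13833816)))
(L (nat_lit 8418032)))
(L (nat_lit 30418640))))
(L (nat_lit 2323892))))
(L (nat_lit 25311541)))))
(S (nat_lit 19789) (S (nat_lit 1003) (S (nat_lit 1732) (L (nat_lit 29378986))
(L (nat_lit 19949034)))
(S (nat_lit 20767) (S (nat_lit 1014) (S (nat_lit 28526) (L (nat_lit 14905526))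
(L (nat_lit 8413775)))
(S (nat_lit 20778) (S (nat_lit 21507) (L (nat_lit 7369454))
(L (nat_lit 20979565)))
(S (nat_lit 40542) (S (nat_lit 30699) (L (nat_lit 1271285))
(L (nat_lit 8415732)))
(L (nat_lit 25869416)))))
(S (nat_lit 40531) (S (nat_lit 40547) (L (nat_lit 13857972))
(L (nat_lit 16802375)))
(L (nat_lit 25338325)))))
(S (nat_lit 39553) (S (nat_lit 8812) (S (nat_lit 10997) (S (nat_lit 20811) (S (nat_lit 50477) (S (nat_lit 986) (S (nat_lit 15340) (L (nat_lit 843119))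
(L (nat_lit 22879618)))
(L (nat_lit 13211836)))
(L (nat_lit 20123534)))
(L (nat_lit 21202700)))
(S (nat_lit 30761) (S (nat_lit 40542) (S (nat_lit 41514) (L (nat_lit 8853208))
(L (nat_lit 2793229)))
(L (nat_lit 3840780)))
(S (nat_lit 50525) (S (nat_lit 1262) (S (nat_lit 1748) (L (nat_lit 12590900))
(L (nat_lit 9467505)))
(L (nat_lit 3372657)))
(L (nat_lit 25547140)))))
(S (nat_lit 28576) (S (nat_lit 1776) (S (nat_lit 50477) (S (nat_lit 1014) (L (nat_lit 18889981))
(L (nat_lit 20135812)))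
(L (nat_lit 12601624)))
(S (nat_lit 21540) (S (nat_lit 21783) (S (nat_lit 30713) (L (nat_lit 4409849))
(L (nat_lit 30608819)))
(L (nat_lit 30426761)))
(S (nat_lit 41304) (S (nat_lit 37285) (L (nat_lit 13851832))
(L (nat_lit 10203325)))
(L (nat_lit 25713986)))))
(S (nat_lit 48340) (S (nat_lit 17571) (S (nat_lit 21010) (S (nat_lit 21496) (L (nat_lit 12817301))
(L (nat_lit 30418606)))
(L (nat_lit 30609070)))
(S (nat_lit 37335) (S (nat_lit 41514) (S (nat_lit 1991) (L (nat_lit 31100140))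
(L (nat_lit 3633736)))
(L (nat_lit 23109388)))
(S (nat_lit 57099) (S (nat_lit 17521) (S (nat_lit 41547) (L (nat_lit 5464652))
(L (nat_lit 17852754)))
(S (nat_lit 21816) (L (nat_lit 31010890))
(L (nat_lit 6802307))))
(L (nat_lit 25512353)))))
(L (nat_lit 25305740)))))
(L (nat_lit 25563881)))))
(S (nat_lit 54851) (S (nat_lit 15351) (S (nat_lit 8779) (S (nat_lit 986) (S (nat_lit 11010) (S (nat_lit 41547) (S (nat_lit 40547) (S (nat_lit 20778) (S (nat_lit 41293) (L (nat_lit 3907375))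
(L (nat_lit 27540032)))
(L (nat_lit 7092964)))
(L (nat_lit 7367094)))
(L (nat_lit 17066629)))
(S (nat_lit 43336) (S (nat_lit 17475) (L (nat_lit 26290829))
(L (nat_lit 13706841)))
(L (nat_lit 26677831))))
(S (nat_lit 20750) (S (nat_lit 1986) (S (nat_lit 17558) (S (nat_lit 54884) (S (nat_lit 28574) (S (nat_lit 35137) (S (nat_lit 40542) (S (nat_lit 39590) (S (nat_lit 1036) (S (nat_lit 1047) (S (nat_lit 30724) (S (nat_lit 21783) (S (nat_lit 1257) (L (nat_lit 4438716))
(L (nat_lit 13265123)))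
(L (nat_lit 10569650)))
(L (nat_lit 19740840)))
(S (nat_lit 53484) (L (nat_lit 1373933))
(L (nat_lit 9159492))))
(L (nat_lit 20223759)))
(L (nat_lit 28023332)))
(L (nat_lit 27460147)))
(L (nat_lit 9953331)))
(L (nat_lit 10322357)))
(L (nat_lit 21238234)))
(L (nat_lit 6471260)))
(L (nat_lit 26263273)))
(S (nat_lit 40514) (S (nat_lit 42) (S (nat_lit 30763) (S (nat_lit 10977) (S (nat_lit 15384) (S (nat_lit 39542) (S (nat_lit 20800) (S (nat_lit 28574) (S (nat_lit 57055) (S (nat_lit 54884) (S (nat_lit 40547) (S (nat_lit 20761) (S (nat_lit 11010) (S (nat_lit 48276) (S (nat_lit 8773) (S (nat_lit 1047) (S (nat_lit 17543) (S (nat_lit 1986) (S (nat_lit 21739) (S (nat_lit 30730) (S (nat_lit 40562) (S (nat_lit 20767) (S (nat_lit 57049) (S (nat_lit 48318) (S (nat_lit 41534) (S (nat_lit 39575) (S (nat_lit 22520) (S (nat_lit 12598) (S (nat_lit 33108) (S (nat_lit 42102) (S (nat_lit 35300) (S (nat_lit 6020) (S (nat_lit 15958) (S (nat_lit 2572) (S (nat_lit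 27941) (D (nat_lit 13) (nat_lit 30874338) (nat_lit 19117240) (nat_lit 2276433331334))
(L (nat_lit 29016168)))
(L (nat_lit 29081952)))
(S (nat_lit 20993) (S (nat_lit 7658) (S (nat_lit 24039) (S (nat_lit 6523) (D (nat_lit 15) (nat_lit 25863184) (nat_lit 19014415) (nat_lit 208769057))
(L (nat_lit 30055437)))
(L (nat_lit 24616771)))
(L (nat_lit 28032227)))
(L (nat_lit 11654619))))
(L (nat_lit 23392428)))
(L (nat_lit 27613633)))
(L (nat_lit 15462503)))
(L (nat_lit 22573159)))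
(L (nat_lit 30117322)))
(S (nat_lit 30926) (S (nat_lit 11579) (S (nat_lit 11416) (S (nat_lit 54103) (S (nat_lit 46476) (S (nat_lit 35907) (S (nat_lit 4805) (S (nat_lit 17718) (S (nat_lit 5054) (S (nat_lit 36636) (D (nat_lit 11) (nat_lit 12404880) (nat_lit 25768291) (nat_lit 5541959942))
(L (nat_lit 21839104)))
(L (nat_lit 30033152)))
(S (nat_lit 31666) (S (nat_lit 29871) (S (nat_lit 55691) (S (nat_lit 36979) (S (nat_lit 21465) (D (nat_lit 13) (nat_lit 13420715) (nat_lit 3951080) (nat_lit 5503001301221))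
(L (nat_lit 25768226)))
(L (nat_lit 3952042)))
(L (nat_lit 9227683)))
(L (nat_lit 26849539)))
(L (nat_lit 29820486))))
(L (nat_lit 13424746)))
(L (nat_lit 16601312)))
(L (nat_lit 28385996)))
(L (nat_lit 29638739)))
(L (nat_lit 29709824)))
(L (nat_lit 27612672)))
(S (nat_lit 40774) (S (nat_lit 10607) (S (nat_lit 30318) (S (nat_lit 20979) (S (nat_lit 38420) (S (nat_lit 16925) (S (nat_lit 4256) (S (nat_lit 31169) (D (nat_lit 15) (nat_lit 27953578) (nat_lit 25761194) (nat_lit 211560898820))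
(L (nat_lit 21865952)))
(L (nat_lit 27936000)))
(S (nat_lit 31633) (S (nat_lit 8146) (S (nat_lit 12551) (S (nat_lit 11902) (S (nat_lit 52322) (S (nat_lit 36979) (S (nat_lit 25061) (D (nat_lit 13) (nat_lit 14018149) (nat_lit 3950929) (nat_lit 5500949364903))
(L (nat_lit 27966817)))
(L (nat_lit 27890087)))
(L (nat_lit 16602246)))
(L (nat_lit 29992451)))
(L (nat_lit 27894277)))
(L (nat_lit 27869475)))
(L (nat_lit 23239069))))
(L (nat_lit 16016962)))
(L (nat_lit 16590963)))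
(L (nat_lit 16602219)))
(L (nat_lit 27776321)))
(L (nat_lit 2575243)))))
(L (nat_lit 27351467)))
(L (nat_lit 18607298)))
(L (nat_lit 14460577)))
(L (nat_lit 13282050)))
(L (nat_lit 30909088)))
(L (nat_lit 18587706)))
(L (nat_lit 9520919)))
(L (nat_lit 1534197)))
(L (nat_lit 13297859)))
(L (nat_lit 7024669)))
(L (nat_lit 2869066)))
(L (nat_lit 6353585)))
(L (nat_lit 22912046)))
(L (nat_lit 23228687)))
(L (nat_lit 21316448)))
(L (nat_lit 24633667)))
(L (nat_lit 21096653)))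
(L (nat_lit 5676950)))
(L (nat_lit 18717843)))
(L (nat_lit 16024189)))
(L (nat_lit 24126970)))
(L (nat_lit 1559366)))
(L (nat_lit 18719924)))
(L (nat_lit 9297378)))
(L (nat_lit 14504289)))
(L (nat_lit 25612295)))))
(S (nat_lit 28543) (S (nat_lit 8748) (S (nat_lit 1986) (S (nat_lit 41486) (S (nat_lit 35137) (S (nat_lit 39590) (S (nat_lit 48338) (S (nat_lit 17558) (S (nat_lit 54884) (S (nat_lit 15384) (S (nat_lit 5330) (S (nat_lit 40807) (L (nat_lit 18514137))
(L (nat_lit 27562574)))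
(S (nat_lit 40818) (L (nat_lit 312178))
(S (nat_lit 49672) (L (nat_lit 18109469))
(L (nat_lit 24438828)))))
(L (nat_lit 15616288)))
(L (nat_lit 21538874)))
(L (nat_lit 7997356)))
(L (nat_lit 16423748)))
(L (nat_lit 11338263)))
(L (nat_lit 9626348)))
(L (nat_lit 9016112)))
(S (nat_lit 21670) (L (nat_lit 15471174))
(L (nat_lit 14326872))))
(S (nat_lit 48116) (S (nat_lit 48717) (L (nat_lit 10020579))
(L (nat_lit 10203323)))
(L (nat_lit 14877400))))
(S (nat_lit 48307) (S (nat_lit 10997) (S (nat_lit 39615) (L (nat_lit 7221826))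
(S (nat_lit 40743) (L (nat_lit 13642330))
(L (nat_lit 7751805))))
(S (nat_lit 30761) (S (nat_lit 41276) (S (nat_lit 40790) (L (nat_lit 252313))
(L (nat_lit 16976504)))
(S (nat_lit 56696) (S (nat_lit 28587) (S (nat_lit 20800) (L (nat_lit 29985158))
(L (nat_lit 21797248)))
(L (nat_lit 3845530)))
(L (nat_lit 16786040))))
(S (nat_lit 50525) (S (nat_lit 1279) (S (nat_lit 8810) (L (nat_lit 12453365))
(L (nat_lit 973227)))
(S (nat_lit 39066) (S (nat_lit 8810) (S (nat_lit 20800) (L (nat_lit 12842565))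
(L (nat_lit 244317)))
(L (nat_lit 7243189)))
(L (nat_lit 8482383))))
(L (nat_lit 25336428)))))
(L (nat_lit 25927043)))))
(S (nat_lit 35115) (S (nat_lit 1701) (S (nat_lit 30724) (S (nat_lit 1215) (S (nat_lit 40547) (S (nat_lit 30741) (S (nat_lit 50477) (S (nat_lit 50538) (S (nat_lit 40805) (L (nat_lit 16975730))
(L (nat_lit 2640647)))
(L (nat_lit 13232199)))
(L (nat_lit 12798852)))
(L (nat_lit 10051969)))
(L (nat_lit 10117200)))
(S (nat_lit 6985) (L (nat_lit 8476155))
(L (nat_lit 11308434))))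
(S (nat_lit 36022) (L (nat_lit 11100548))
(L (nat_lit 2341496))))
(S (nat_lit 21465) (S (nat_lit 30761) (S (nat_lit 30741) (S (nat_lit 28574) (S (nat_lit 30724) (S (nat_lit 54868) (L (nat_lit 28384690))
(L (nat_lit 21235100)))
(L (nat_lit 30609810)))
(L (nat_lit 3795435)))
(L (nat_lit 30694545)))
(S (nat_lit 40876) (L (nat_lit 30872230))
(L (nat_lit 31114410))))
(S (nat_lit 41229) (S (nat_lit 30724) (S (nat_lit 15229) (L (nat_lit 30879392))
(S (nat_lit 28554) (S (nat_lit 28574) (S (nat_lit 37322) (S (nat_lit 41276) (L (nat_lit 22167928))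
(L (nat_lit 24469921)))
(L (nat_lit 8848178)))
(L (nat_lit 9077549)))
(L (nat_lit 9154746))))
(S (nat_lit 36238) (L (nat_lit 13851773))
(L (nat_lit 24160664))))
(L (nat_lit 25251209)))))
(S (nat_lit 54879) (S (nat_lit 1034) (S (nat_lit 1246) (S (nat_lit 30724) (S (nat_lit 40542) (S (nat_lit 1763) (L (nat_lit 10204282))
(L (nat_lit 14396477)))
(L (nat_lit 3849994)))
(L (nat_lit 8414610)))
(S (nat_lit 21010) (S (nat_lit 21496) (S (nat_lit 39603) (S (nat_lit 21527) (L (nat_lit 22234912))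
(L (nat_lit 21804134)))
(L (nat_lit 11037313)))
(L (nat_lit 21934304)))
(S (nat_lit 40774) (S (nat_lit 39603) (S (nat_lit 40542) (L (nat_lit 10142841))
(L (nat_lit 10141444)))
(L (nat_lit 27809895)))
(L (nat_lit 25862287)))))
(S (nat_lit 20798) (S (nat_lit 1047) (S (nat_lit 1036) (S (nat_lit 1290) (L (nat_lit 9171054))
(L (nat_lit 13863608)))
(L (nat_lit 10545743)))
(S (nat_lit 20811) (S (nat_lit 19826) (S (nat_lit 21722) (S (nat_lit 41293) (L (nat_lit 17866547))
(L (nat_lit 23621984)))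
(L (nat_lit 21824752)))
(S (nat_lit 52976) (L (nat_lit 30842437))
(L (nat_lit 3912555))))
(S (nat_lit 40575) (S (nat_lit 62) (S (nat_lit 40785) (L (nat_lit 12780285))
(L (nat_lit 23130666)))
(S (nat_lit 32017) (L (nat_lit 895410))
(L (nat_lit 7916701))))
(L (nat_lit 25208307)))))
(S (nat_lit 40562) (S (nat_lit 64) (S (nat_lit 30724) (S (nat_lit 48318) (S (nat_lit 1196) (L (nat_lit 20455545))
(L (nat_lit 30985319)))
(L (nat_lit 28020199)))
(L (nat_lit 30625155)))
(S (nat_lit 19828) (S (nat_lit 21739) (S (nat_lit 30730) (S (nat_lit 40547) (S (nat_lit 54837) (S (nat_lit 50477) (S (nat_lit 2019) (L (nat_lit 8916916))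
(L (nat_lit 20448073)))
(L (nat_lit 19952042)))
(L (nat_lit 14522389)))
(L (nat_lit 27762241)))
(L (nat_lit 3917085)))
(L (nat_lit 22360833)))
(S (nat_lit 39592) (S (nat_lit 1277) (S (nat_lit 41293) (L (nat_lit 28872295))
(L (nat_lit 3915690)))
(L (nat_lit 3924273)))
(L (nat_lit 25921742)))))
(L (nat_lit 25895425)))))
(L (nat_lit 25790887)))))
(L (nat_lit 25634500)))))
(S (nat_lit 57024) (S (nat_lit 1726) (S (nat_lit 1944) (S (nat_lit 1277) (S (nat_lit 1986) (S (nat_lit 42) (S (nat_lit 54884) (S (nat_lit 1229) (S (nat_lit 57099) (S (nat_lit 54899) (S (nat_lit 15384) (S (nat_lit 21739) (S (nat_lit 37274) (S (nat_lit 40807) (S (nat_lit 41271) (S (nat_lit 39105) (S (nat_lit 48307) (S (nat_lit 21527) (S (nat_lit 39575) (S (nat_lit 40547) (S (nat_lit 19355) (S (nat_lit 17527) (S (nat_lit 29672) (S (nat_lit 35753) (S (nat_lit 4744) (S (nat_lit 50590) (D (nat_lit 15) (nat_lit 14948181) (nat_lit 1452632) (nat_lit 171801841891))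
(L (nat_lit 21899744)))
(L (nat_lit 27929120)))
(S (nat_lit 53506) (S (nat_lit 23846) (S (nat_lit 12476) (D (nat_lit 15) (nat_lit 27918731) (nat_lit 25761101) (nat_lit 208443482369))
(L (nat_lit 27284008)))
(L (nat_lit 27965760)))
(L (nat_lit 22243407))))
(L (nat_lit 5533359)))
(L (nat_lit 22341122)))
(L (nat_lit 13912931)))
(L (nat_lit 23554305)))
(L (nat_lit 23990666)))
(L (nat_lit 21172763)))
(L (nat_lit 13921858)))
(L (nat_lit 28417527)))
(L (nat_lit 8906466)))
(L (nat_lit 23146415)))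
(L (nat_lit 8970354)))
(L (nat_lit 21770282)))
(L (nat_lit 26716277)))
(L (nat_lit 19395755)))
(L (nat_lit 12964737)))
(L (nat_lit 19708969)))
(L (nat_lit 14280714)))
(L (nat_lit 19185537)))
(S (nat_lit 21750) (S (nat_lit 1991) (S (nat_lit 1763) (S (nat_lit 1229) (L (nat_lit 19161571))
(L (nat_lit 19695081)))
(L (nat_lit 13345916)))
(L (nat_lit 20181105)))
(S (nat_lit 41514) (S (nat_lit 972) (S (nat_lit 30724) (S (nat_lit 54851) (S (nat_lit 37274) (L (nat_lit 9356997))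
(L (nat_lit 20156332)))
(L (nat_lit 19132965)))
(L (nat_lit 8408877)))
(L (nat_lit 26546796)))
(L (nat_lit 25417253)))))
(S (nat_lit 21041) (S (nat_lit 2019) (S (nat_lit 35104) (S (nat_lit 17527) (S (nat_lit 54899) (L (nat_lit 19759593))
(L (nat_lit 19667087)))
(L (nat_lit 22470946)))
(L (nat_lit 9832211)))
(S (nat_lit 21783) (S (nat_lit 50477) (S (nat_lit 39570) (S (nat_lit 19826) (L (nat_lit 9956064))
(L (nat_lit 10275364)))
(L (nat_lit 12375553)))
(L (nat_lit 12634392)))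
(S (nat_lit 41547) (S (nat_lit 20778) (S (nat_lit 30724) (S (nat_lit 986) (L (nat_lit 21829743))
(L (nat_lit 19667395)))
(L (nat_lit 30610834)))
(L (nat_lit 22032237)))
(L (nat_lit 25379491)))))
(S (nat_lit 40805) (S (nat_lit 21496) (S (nat_lit 972) (S (nat_lit 17134) (L (nat_lit 19035559))
(S (nat_lit 40547) (S (nat_lit 1229) (S (nat_lit 28543) (L (nat_lit 10402464))
(L (nat_lit 3742104)))
(L (nat_lit 20743657)))
(L (nat_lit 7367249))))
(S (nat_lit 16895) (L (nat_lit 28870378))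
(L (nat_lit 2509576))))
(L (nat_lit 7353268)))
(L (nat_lit 25897506)))))
(S (nat_lit 21708) (S (nat_lit 1743) (S (nat_lit 8795) (S (nat_lit 47) (S (nat_lit 57071) (S (nat_lit 1229) (S (nat_lit 20800) (L (nat_lit 3849435))
(L (nat_lit 15565419)))
(L (nat_lit 13212514)))
(L (nat_lit 14797048)))
(L (nat_lit 14323933)))
(S (nat_lit 28559) (S (nat_lit 64) (S (nat_lit 21529) (S (nat_lit 35115) (S (nat_lit 37302) (S (nat_lit 986) (S (nat_lit 17527) (S (nat_lit 17571) (S (nat_lit 41503) (S (nat_lit 27903) (S (nat_lit 48290) (S (nat_lit 37285) (S (nat_lit 21512) (S (nat_lit 21041) (S (nat_lit 20778) (S (nat_lit 19839) (S (nat_lit 1168) (S (nat_lit 56270) (S (nat_lit 32763) (S (nat_lit 30333) (D (nat_lit 11) (nat_lit 26812896) (nat_lit 19670533) (nat_lit 242225412))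
(L (nat_lit 13861652)))
(L (nat_lit 12814100)))
(L (nat_lit 30016966)))
(S (nat_lit 11751) (S (nat_lit 18892) (S (nat_lit 48902) (S (nat_lit 16462) (D (nat_lit 11) (nat_lit 31107490) (nat_lit 25765317) (nat_lit 106473556194))
(L (nat_lit 29706752)))
(L (nat_lit 21837929)))
(L (nat_lit 29706785)))
(L (nat_lit 24126383))))
(L (nat_lit 30937766)))
(L (nat_lit 30424306)))
(L (nat_lit 22034217)))
(L (nat_lit 16518519)))
(L (nat_lit 30611021)))
(L (nat_lit 22220589)))
(L (nat_lit 22143213)))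
(L (nat_lit 9311887)))
(L (nat_lit 22984992)))
(L (nat_lit 22134074)))
(L (nat_lit 4799869)))
(L (nat_lit 3437973)))
(L (nat_lit 2500405)))
(L (nat_lit 21239192)))
(L (nat_lit 14019605)))
(S (nat_lit 48323) (S (nat_lit 1290) (S (nat_lit 54884) (L (nat_lit 28857569))
(L (nat_lit 5032173)))
(L (nat_lit 14556307)))
(L (nat_lit 25286091)))))
(S (nat_lit 21507) (S (nat_lit 50477) (S (nat_lit 36951) (L (nat_lit 21897324))
(S (nat_lit 50494) (S (nat_lit 10982) (L (nat_lit 21268270))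
(L (nat_lit 21427397)))
(L (nat_lit 15435036))))
(L (nat_lit 14698776)))
(S (nat_lit 41271) (S (nat_lit 1763) (S (nat_lit 50477) (S (nat_lit 64) (S (nat_lit 28512) (L (nat_lit 3038447))
(L (nat_lit 12780374)))
(L (nat_lit 1600072)))
(L (nat_lit 12808932)))
(S (nat_lit 21527) (S (nat_lit 21054) (L (nat_lit 10531453))
(L (nat_lit 22839661)))
(S (nat_lit 41291) (S (nat_lit 21010) (S (nat_lit 57071) (L (nat_lit 11561490))
(L (nat_lit 21278744)))
(L (nat_lit 22229149)))
(L (nat_lit 25931971)))))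
(L (nat_lit 25499341)))))
(S (nat_lit 41472) (S (nat_lit 1743) (S (nat_lit 8810) (S (nat_lit 333) (L (nat_lit 7396761))
(S (nat_lit 20800) (S (nat_lit 1229) (S (nat_lit 28559) (L (nat_lit 30606063))
(L (nat_lit 3468819)))
(L (nat_lit 20266045)))
(L (nat_lit 14930008))))
(S (nat_lit 21592) (S (nat_lit 1592) (L (nat_lit 3614301))
(L (nat_lit 16423069)))
(L (nat_lit 23398287))))
(S (nat_lit 21507) (S (nat_lit 50477) (S (nat_lit 10966) (S (nat_lit 20761) (S (nat_lit 39592) (S (nat_lit 15371) (S (nat_lit 48323) (S (nat_lit 41486) (S (nat_lit 40818) (S (nat_lit 40542) (S (nat_lit 54884) (S (nat_lit 8812) (S (nat_lit 57049) (S (nat_lit 37335) (S (nat_lit 4249) (S (nat_lit 24055) (S (nat_lit 25039) (S (nat_lit 5566) (S (nat_lit 21405) (S (nat_lit 15930) (S (nat_lit 58227) (D (nat_lit 15) (nat_lit 29740449) (nat_lit 19664266) (nat_lit 69801680102))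
(L (nat_lit 29966565)))
(L (nat_lit 27867365)))
(S (nat_lit 56444) (S (nat_lit 37496) (S (nat_lit 17111) (D (nat_lit 15) (nat_lit 27807940) (nat_lit 25761192) (nat_lit 209381957893))
(L (nat_lit 28625411)))
(L (nat_lit 16632035)))
(L (nat_lit 11985938))))
(L (nat_lit 30723589)))
(L (nat_lit 11338317)))
(L (nat_lit 15817944)))
(L (nat_lit 11355252)))
(L (nat_lit 9059072)))
(L (nat_lit 11189058)))
(L (nat_lit 697882)))
(L (nat_lit 14560997)))
(L (nat_lit 10093115)))
(L (nat_lit 9994909)))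
(L (nat_lit 455304)))
(L (nat_lit 11419268)))
(L (nat_lit 15605380)))
(L (nat_lit 10665908)))
(L (nat_lit 22300512)))
(L (nat_lit 21830768)))
(L (nat_lit 14698776)))
(S (nat_lit 41271) (S (nat_lit 26435) (S (nat_lit 8810) (L (nat_lit 7766747))
(L (nat_lit 23398319)))
(S (nat_lit 50463) (S (nat_lit 40547) (S (nat_lit 40542) (L (nat_lit 29374151))
(L (nat_lit 27279080)))
(L (nat_lit 27270583)))
(L (nat_lit 22511835))))
(L (nat_lit 25395917)))))
(L (nat_lit 25801835)))))
(S (nat_lit 21490) (S (nat_lit 17527) (S (nat_lit 1257) (S (nat_lit 37638) (S (nat_lit 1986) (L (nat_lit 15995578))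
(L (nat_lit 12735704)))
(S (nat_lit 54884) (S (nat_lit 50477) (S (nat_lit 1776) (S (nat_lit 39590) (S (nat_lit 21043) (S (nat_lit 37322) (S (nat_lit 20761) (S (nat_lit 40757) (S (nat_lit 28512) (S (nat_lit 1047) (S (nat_lit 41276) (S (nat_lit 10977) (S (nat_lit 41486) (S (nat_lit 40547) (S (nat_lit 48307) (S (nat_lit 1969) (S (nat_lit 21026) (S (nat_lit 40564) (S (nat_lit 54837) (S (nat_lit 13546) (S (nat_lit 50538) (S (nat_lit 52846) (S (nat_lit 46483) (S (nat_lit 47) (S (nat_lit 1003) (S (nat_lit 29830) (S (nat_lit 13505) (S (nat_lit 10801) (S (nat_lit 12259) (S (nat_lit 27294) (D (nat_lit 11) (nat_lit 27886798) (nat_lit 25668786) (nat_lit 241799661762))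
(L (nat_lit 27892780)))
(L (nat_lit 27856358)))
(L (nat_lit 27856327)))
(L (nat_lit 27865347)))
(S (nat_lit 31051) (S (nat_lit 11312) (S (nat_lit 18666) (S (nat_lit 17208) (D (nat_lit 11) (nat_lit 25868295) (nat_lit 19672238) (nat_lit 276830310))
(L (nat_lit 31139918)))
(L (nat_lit 31146056)))
(L (nat_lit 28846691)))
(L (nat_lit 20102360))))
(L (nat_lit 19738635)))
(L (nat_lit 12672810)))
(L (nat_lit 29014025)))
(L (nat_lit 30088303)))
(L (nat_lit 22821120)))
(L (nat_lit 30131429)))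
(L (nat_lit 16489376)))
(L (nat_lit 18618944)))
(L (nat_lit 7094882)))
(S (nat_lit 8955) (S (nat_lit 57066) (S (nat_lit 8795) (S (nat_lit 17640) (S (nat_lit 21004) (S (nat_lit 37354) (S (nat_lit 1014) (S (nat_lit 50510) (S (nat_lit 37307) (S (nat_lit 1944) (S (nat_lit 972) (S (nat_lit 24506) (S (nat_lit 11584) (S (nat_lit 11341) (S (nat_lit 56274) (S (nat_lit 14674) (S (nat_lit 7235) (D (nat_lit 11) (nat_lit 26811404) (nat_lit 19674219) (nat_lit 282498105440))
(L (nat_lit 31146338)))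
(L (nat_lit 27663446)))
(L (nat_lit 30030017)))
(L (nat_lit 30096576)))
(L (nat_lit 30096577)))
(S (nat_lit 51156) (S (nat_lit 31533) (S (nat_lit 55207) (S (nat_lit 54964) (S (nat_lit 7517) (S (nat_lit 53004) (D (nat_lit 11) (nat_lit 29043203) (nat_lit 19673259) (nat_lit 143084586241))
(L (nat_lit 13524227)))
(L (nat_lit 29985161)))
(L (nat_lit 15618272)))
(L (nat_lit 15618273)))
(L (nat_lit 20852960)))
(L (nat_lit 26744150))))
(L (nat_lit 20746666)))
(L (nat_lit 20753829)))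
(L (nat_lit 14364484)))
(L (nat_lit 28020974)))
(L (nat_lit 2800554)))
(L (nat_lit 5453587)))
(L (nat_lit 31007759)))
(L (nat_lit 28914695)))
(L (nat_lit 6418899)))
(L (nat_lit 19001798)))
(S (nat_lit 41850) (S (nat_lit 40768) (S (nat_lit 48323) (S (nat_lit 19806) (S (nat_lit 21479) (S (nat_lit 37324) (S (nat_lit 39603) (S (nat_lit 15371) (S (nat_lit 10966) (S (nat_lit 11392) (S (nat_lit 30331) (S (nat_lit 43599) (S (nat_lit 55726) (S (nat_lit 4459) (D (nat_lit 13) (nat_lit 28494158) (nat_lit 19670191) (nat_lit 1105082778884))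
(L (nat_lit 28917026)))
(L (nat_lit 28914917)))
(L (nat_lit 13476485)))
(L (nat_lit 28914021)))
(S (nat_lit 41071) (S (nat_lit 58232) (S (nat_lit 25206) (S (nat_lit 2357) (S (nat_lit 32603) (D (nat_lit 13) (nat_lit 29477136) (nat_lit 19672177) (nat_lit 2206642243720))
(L (nat_lit 16683750)))
(L (nat_lit 29997412)))
(L (nat_lit 13446882)))
(L (nat_lit 29962496)))
(L (nat_lit 31010240))))
(L (nat_lit 288496)))
(L (nat_lit 681295)))
(L (nat_lit 27595250)))
(L (nat_lit 17619139)))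
(L (nat_lit 31013032)))
(L (nat_lit 22143340)))
(L (nat_lit 27381195)))
(L (nat_lit 27870283)))
(L (nat_lit 20051463)))))
(L (nat_lit 11661036)))
(L (nat_lit 27285927)))
(L (nat_lit 23469114)))
(L (nat_lit 21280640)))
(L (nat_lit 3629638)))
(L (nat_lit 19460292)))
(L (nat_lit 18915150)))
(L (nat_lit 7931792)))
(L (nat_lit 15600948)))
(L (nat_lit 8871717)))
(L (nat_lit 5085774)))
(L (nat_lit 24969738)))
(L (nat_lit 20879532)))
(S (nat_lit 56475) (L (nat_lit 9995929))
(L (nat_lit 11389444))))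
(L (nat_lit 19697903))))
(S (nat_lit 21021) (S (nat_lit 50477) (S (nat_lit 20761) (S (nat_lit 21512) (S (nat_lit 21043) (L (nat_lit 7391675))
(L (nat_lit 30944373)))
(L (nat_lit 21939489)))
(L (nat_lit 21400888)))
(L (nat_lit 14895192)))
(S (nat_lit 40785) (S (nat_lit 20993) (S (nat_lit 41276) (S (nat_lit 15384) (S (nat_lit 40547) (S (nat_lit 28543) (L (nat_lit 10159024))
(L (nat_lit 24230200)))
(L (nat_lit 23289937)))
(L (nat_lit 6747221)))
(L (nat_lit 24348088)))
(L (nat_lit 22284048)))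
(L (nat_lit 25836773)))))
(S (nat_lit 37291) (S (nat_lit 1279) (S (nat_lit 1003) (S (nat_lit 47527) (L (nat_lit 1265050))
(S (nat_lit 48338) (S (nat_lit 57066) (S (nat_lit 13468) (L (nat_lit 17914139))
(L (nat_lit 27952431)))
(L (nat_lit 21063046)))
(L (nat_lit 11294895))))
(S (nat_lit 20767) (S (nat_lit 28543) (S (nat_lit 30724) (S (nat_lit 1776) (S (nat_lit 57086) (L (nat_lit 19152058))
(L (nat_lit 21301004)))
(L (nat_lit 19432696)))
(L (nat_lit 30456424)))
(L (nat_lit 9142680)))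
(S (nat_lit 40531) (S (nat_lit 1014) (L (nat_lit 20748399))
(L (nat_lit 12589971)))
(L (nat_lit 25184623)))))
(S (nat_lit 21043) (S (nat_lit 28543) (S (nat_lit 20761) (S (nat_lit 8810) (S (nat_lit 11081) (S (nat_lit 1262) (L (nat_lit 8909938))
(L (nat_lit 19373858)))
(S (nat_lit 30763) (S (nat_lit 19696) (S (nat_lit 19729) (L (nat_lit 9522989))
(L (nat_lit 1530072)))
(S (nat_lit 56864) (S (nat_lit 50525) (L (nat_lit 12223964))
(L (nat_lit 27952494)))
(L (nat_lit 251384))))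
(L (nat_lit 9854013))))
(S (nat_lit 15533) (S (nat_lit 54899) (L (nat_lit 12814041))
(L (nat_lit 19662250)))
(L (nat_lit 21109244))))
(L (nat_lit 22939174)))
(L (nat_lit 31163944)))
(S (nat_lit 40807) (S (nat_lit 54837) (S (nat_lit 50463) (L (nat_lit 8914805))
(L (nat_lit 15631604)))
(L (nat_lit 21923054)))
(L (nat_lit 25710758)))))
(S (nat_lit 57055) (S (nat_lit 1215) (S (nat_lit 1290) (S (nat_lit 28543) (L (nat_lit 10040163))
(L (nat_lit 3710552)))
(S (nat_lit 21054) (S (nat_lit 1701) (S (nat_lit 8779) (L (nat_lit 18121587))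
(L (nat_lit 14752631)))
(L (nat_lit 10072834)))
(S (nat_lit 40818) (S (nat_lit 21043) (S (nat_lit 20761) (S (nat_lit 20800) (L (nat_lit 19405976))
(L (nat_lit 12080221)))
(L (nat_lit 21404728)))
(L (nat_lit 22329469)))
(L (nat_lit 25936227)))))
(S (nat_lit 20979) (S (nat_lit 1958) (L (nat_lit 13403413))
(S (nat_lit 21722) (S (nat_lit 21041) (S (nat_lit 20750) (S (nat_lit 50505) (L (nat_lit 28611215))
(L (nat_lit 14797181)))
(L (nat_lit 21404417)))
(L (nat_lit 21804256)))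
(S (nat_lit 41486) (S (nat_lit 20761) (S (nat_lit 50494) (S (nat_lit 21527) (L (nat_lit 28461544))
(L (nat_lit 22131494)))
(L (nat_lit 14773832)))
(L (nat_lit 22447352)))
(L (nat_lit 25569335)))))
(S (nat_lit 40743) (S (nat_lit 8925) (L (nat_lit 11548344))
(S (nat_lit 50477) (S (nat_lit 21043) (S (nat_lit 15384) (S (nat_lit 20761) (L (nat_lit 19962426))
(L (nat_lit 21898350)))
(L (nat_lit 22541600)))
(L (nat_lit 22035805)))
(L (nat_lit 5496248))))
(L (nat_lit 25761162)))))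
(L (nat_lit 25711720)))))
(S (nat_lit 41254) (S (nat_lit 10935) (S (nat_lit 20993) (S (nat_lit 15309) (S (nat_lit 1262) (S (nat_lit 54899) (S (nat_lit 50525) (L (nat_lit 19700910))
(L (nat_lit 4661013)))
(L (nat_lit 4857615)))
(S (nat_lit 21026) (S (nat_lit 20800) (S (nat_lit 40547) (S (nat_lit 19789) (S (nat_lit 10977) (S (nat_lit 15351) (S (nat_lit 41293) (S (nat_lit 1279) (S (nat_lit 50525) (S (nat_lit 30158) (S (nat_lit 41486) (S (nat_lit 40743) (S (nat_lit 37307) (S (nat_lit 39590) (S (nat_lit 28587) (S (nat_lit 10612) (S (nat_lit 58138) (S (nat_lit 49956) (S (nat_lit 58090) (S (nat_lit 26499) (S (nat_lit 17005) (S (nat_lit 53521) (D (nat_lit 15) (nat_lit 27449896) (nat_lit 4535058) (nat_lit 5609886980))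
(L (nat_lit 22880773)))
(L (nat_lit 30030954)))
(S (nat_lit 36007) (S (nat_lit 32638) (S (nat_lit 33530) (D (nat_lit 15) (nat_lit 30790737) (nat_lit 19063210) (nat_lit 77484593281))
(L (nat_lit 19409664)))
(L (nat_lit 27898177)))
(L (nat_lit 27661894))))
(L (nat_lit 3925414)))
(L (nat_lit 29644846)))
(L (nat_lit 10501907)))
(L (nat_lit 30890336)))
(L (nat_lit 10085761)))
(L (nat_lit 12404912)))
(L (nat_lit 20243470)))
(L (nat_lit 18118211)))
(L (nat_lit 9293969)))
(L (nat_lit 27924961)))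
(L (nat_lit 12720917)))
(L (nat_lit 12655381)))
(L (nat_lit 6345646)))
(L (nat_lit 22131033)))
(L (nat_lit 16637095)))
(L (nat_lit 15740664)))
(L (nat_lit 24315761)))
(L (nat_lit 31173711)))
(S (nat_lit 40790) (S (nat_lit 21529) (S (nat_lit 19806) (S (nat_lit 50538) (L (nat_lit 8147985))
(L (nat_lit 5068295)))
(L (nat_lit 30529031)))
(L (nat_lit 22905223)))
(L (nat_lit 25543799)))))
(L (nat_lit 22546183)))
(L (nat_lit 21399303)))
(S (nat_lit 30699) (S (nat_lit 1986) (S (nat_lit 28512) (S (nat_lit 54837) (S (nat_lit 35135) (S (nat_lit 1279) (S (nat_lit 1748) (S (nat_lit 37322) (S (nat_lit 15340) (S (nat_lit 20761) (S (nat_lit 39590) (S (nat_lit 54884) (S (nat_lit 54563) (S (nat_lit 27448) (S (nat_lit 48290) (S (nat_lit 1215) (S (nat_lit 986) (S (nat_lit 40768) (S (nat_lit 10055) (S (nat_lit 11815) (S (nat_lit 18909) (S (nat_lit 29867) (S (nat_lit 41139) (D (nat_lit 13) (nat_lit 27840805) (nat_lit 19371320) (nat_lit 1280002163936))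
(L (nat_lit 19732621)))
(L (nat_lit 20375591)))
(L (nat_lit 29996293)))
(L (nat_lit 27899171)))
(S (nat_lit 12789) (S (nat_lit 11329) (S (nat_lit 30353) (S (nat_lit 19395) (S (nat_lit 40653) (D (nat_lit 13) (nat_lit 27840805) (nat_lit 19371785) (nat_lit 1280002163936))
(L (nat_lit 19735661)))
(L (nat_lit 29996107)))
(L (nat_lit 20375777)))
(L (nat_lit 27899200)))
(L (nat_lit 19138319))))
(L (nat_lit 9553749)))
(L (nat_lit 26352304)))
(L (nat_lit 11291043)))
(L (nat_lit 11563597)))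
(L (nat_lit 20167520)))
(L (nat_lit 20179424)))
(L (nat_lit 19698186)))
(L (nat_lit 27985418)))
(L (nat_lit 21825035)))
(L (nat_lit 15402825)))
(L (nat_lit 8980334)))
(L (nat_lit 19105585)))
(L (nat_lit 9340495)))
(L (nat_lit 8980335)))
(L (nat_lit 19400551)))
(L (nat_lit 19727879)))
(L (nat_lit 10094137)))
(S (nat_lit 50463) (S (nat_lit 40547) (S (nat_lit 20993) (S (nat_lit 8855) (L (nat_lit 3659627))
(S (nat_lit 28537) (S (nat_lit 39371) (L (nat_lit 12814076))
(S (nat_lit 57038) (S (nat_lit 50477) (S (nat_lit 10966) (S (nat_lit 21783) (S (nat_lit 28512) (S (nat_lit 40542) (S (nat_lit 1290) (S (nat_lit 41243) (S (nat_lit 19811) (S (nat_lit 20761) (S (nat_lit 1279) (S (nat_lit 35087) (S (nat_lit 21540) (S (nat_lit 57049) (S (nat_lit 39592) (S (nat_lit 21114) (S (nat_lit 32589) (S (nat_lit 21911) (S (nat_lit 38932) (S (nat_lit 5495) (D (nat_lit 13) (nat_lit 27775200) (nat_lit 25767459) (nat_lit 6708980095109))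
(L (nat_lit 27990188)))
(L (nat_lit 16697447)))
(L (nat_lit 19842122)))
(L (nat_lit 16690819)))
(S (nat_lit 36161) (S (nat_lit 49140) (S (nat_lit 43819) (S (nat_lit 4102) (S (nat_lit 55958) (D (nat_lit 13) (nat_lit 30988362) (nat_lit 25765347) (nat_lit 3509159202055))
(L (nat_lit 28973442)))
(L (nat_lit 30810165)))
(L (nat_lit 28715156)))
(L (nat_lit 28944836)))
(L (nat_lit 7367090))))
(L (nat_lit 27822665)))
(L (nat_lit 19377922)))
(L (nat_lit 5463821)))
(L (nat_lit 13503179)))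
(L (nat_lit 26530927)))
(L (nat_lit 22447421)))
(L (nat_lit 21490698)))
(L (nat_lit 7263713)))
(L (nat_lit 19199459)))
(L (nat_lit 27755240)))
(L (nat_lit 13507638)))
(L (nat_lit 15461605)))
(L (nat_lit 16016963)))
(L (nat_lit 12798756)))
(L (nat_lit 12799780))))
(L (nat_lit 19119261))))
(L (nat_lit 31032775)))
(L (nat_lit 27952551)))
(L (nat_lit 25892879)))))
(L (nat_lit 25763886)))))
(L (nat_lit 25419233)))))

theorem rb246_0_13 : run 4 lb246 [] tb246_0_13 kb246 [0, 21772, 19795, 35098] [] = true := by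
  decide +kernel

noncomputable def ta37_1 : Tr :=
(S (nat_lit 1215) (S (nat_lit 593) (S (nat_lit 569) (S (nat_lit 406) (S (nat_lit 2107) (S (nat_lit 3956) (S (nat_lit 3128) (L (nat_lit 137683))
(L (nat_lit 295501)))
(S (nat_lit 6152) (S (nat_lit 1727) (S (nat_lit 6125) (S (nat_lit 3149) (S (nat_lit 1539) (S (nat_lit 1715) (S (nat_lit 2798) (S (nat_lit 5342) (S (nat_lit 917) (S (nat_lit 4991) (S (nat_lit 2825) (S (nat_lit 5921) (S (nat_lit 3260) (S (nat_lit 1767) (S (nat_lit 5274) (S (nat_lit 607) (S (nat_lit 3081) (D (nat_lit 12) (nat_lit 669984) (nat_lit 411816) (nat_lit 1136019932162))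
(L (nat_lit 219525)))
(L (nat_lit 670730)))
(L (nat_lit 219651)))
(L (nat_lit 727553)))
(L (nat_lit 670977)))
(S (nat_lit 6491) (S (nat_lit 3907) (S (nat_lit 970) (S (nat_lit 5924) (S (nat_lit 6082) (D (nat_lit 12) (nat_lit 701634) (nat_lit 411689) (nat_lit 70935185474))
(L (nat_lit 500290)))
(L (nat_lit 88555)))
(L (nat_lit 734532)))
(L (nat_lit 667970)))
(L (nat_lit 564340))))
(L (nat_lit 211555)))
(L (nat_lit 477507)))
(L (nat_lit 461143)))
(L (nat_lit 86410)))
(L (nat_lit 15976)))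
(L (nat_lit 348581)))
(L (nat_lit 564834)))
(L (nat_lit 640010)))
(L (nat_lit 629836)))
(S (nat_lit 3941) (S (nat_lit 4320) (S (nat_lit 1852) (S (nat_lit 914) (S (nat_lit 2932) (S (nat_lit 6258) (S (nat_lit 3268) (S (nat_lit 3917) (S (nat_lit 2748) (S (nat_lit 3754) (S (nat_lit 2804) (S (nat_lit 1407) (S (nat_lit 2568) (S (nat_lit 3496) (D (nat_lit 14) (nat_lit 733440) (nat_lit 313827) (nat_lit 34394408992))
(L (nat_lit 667872)))
(L (nat_lit 579940)))
(S (nat_lit 5364) (S (nat_lit 1213) (D (nat_lit 14) (nat_lit 764320) (nat_lit 592141) (nat_lit 36507255842))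
(L (nat_lit 769313)))
(L (nat_lit 693582))))
(L (nat_lit 513192)))
(L (nat_lit 181960)))
(L (nat_lit 281708)))
(L (nat_lit 361166)))
(L (nat_lit 201170)))
(L (nat_lit 697489)))
(L (nat_lit 664721)))
(L (nat_lit 536226)))
(L (nat_lit 114996)))
(L (nat_lit 431476)))
(S (nat_lit 6155) (S (nat_lit 3119) (S (nat_lit 3128) (S (nat_lit 2673) (S (nat_lit 5023) (S (nat_lit 6146) (S (nat_lit 3131) (S (nat_lit 584) (S (nat_lit 590) (S (nat_lit 5508) (S (nat_lit 605) (S (nat_lit 5510) (S (nat_lit 602) (S (nat_lit 5105) (S (nat_lit 4456) (S (nat_lit 4455) (S (nat_lit 3155) (D (nat_lit 4) (nat_lit 700645) (nat_lit 606404) (nat_lit 1099580901442))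
(L (nat_lit 87311)))
(L (nat_lit 701666)))
(L (nat_lit 87278)))
(L (nat_lit 218564)))
(L (nat_lit 511233)))
(L (nat_lit 122189)))
(L (nat_lit 502369)))
(S (nat_lit 6131) (S (nat_lit 3107) (S (nat_lit 602) (S (nat_lit 599) (S (nat_lit 626) (S (nat_lit 1216) (S (nat_lit 2674) (S (nat_lit 2512) (S (nat_lit 3098) (S (nat_lit 614) (S (nat_lit 617) (S (nat_lit 4052) (D (nat_lit 0) (nat_lit 660784) (nat_lit 603490) (nat_lit 35469164544))
(L (nat_lit 663662)))
(S (nat_lit 3889) (S (nat_lit 3322) (D (nat_lit 6) (nat_lit 662574) (nat_lit 592363) (nat_lit 70900515873))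
(L (nat_lit 669956)))
(L (nat_lit 22864))))
(L (nat_lit 467555)))
(L (nat_lit 668779)))
(L (nat_lit 667723)))
(L (nat_lit 734218)))
(L (nat_lit 543754)))
(L (nat_lit 734529)))
(L (nat_lit 668993)))
(S (nat_lit 1917) (S (nat_lit 4024) (S (nat_lit 5482) (S (nat_lit 2215) (S (nat_lit 277) (S (nat_lit 3168) (S (nat_lit 6167) (S (nat_lit 871) (S (nat_lit 234) (S (nat_lit 225) (S (nat_lit 548) (D (nat_lit 10) (nat_lit 762992) (nat_lit 604356) (nat_lit 1089))
(L (nat_lit 722438)))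
(L (nat_lit 736358)))
(L (nat_lit 738407)))
(L (nat_lit 728480)))
(L (nat_lit 514305)))
(L (nat_lit 673025)))
(S (nat_lit 3008) (S (nat_lit 6432) (S (nat_lit 551) (S (nat_lit 2978) (S (nat_lit 5527) (S (nat_lit 5518) (D (nat_lit 10) (nat_lit 762993) (nat_lit 345170) (nat_lit 36576428032))
(L (nat_lit 285185)))
(L (nat_lit 283140)))
(L (nat_lit 512356)))
(L (nat_lit 736612)))
(L (nat_lit 738500)))
(L (nat_lit 215555))))
(L (nat_lit 283010)))
(L (nat_lit 513285)))
(L (nat_lit 703749)))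
(L (nat_lit 20008))))
(L (nat_lit 283072)))
(L (nat_lit 469733))))
(L (nat_lit 384449)))
(L (nat_lit 382465)))
(L (nat_lit 576832)))
(L (nat_lit 148041)))
(L (nat_lit 404662)))
(L (nat_lit 315436)))
(L (nat_lit 147018)))
(L (nat_lit 149066)))
(L (nat_lit 595180)))))
(L (nat_lit 313860))))
(L (nat_lit 503393)))
(S (nat_lit 2620) (S (nat_lit 2107) (L (nat_lit 177739))
(L (nat_lit 575780)))
(S (nat_lit 4834) (S (nat_lit 6535) (S (nat_lit 1918) (S (nat_lit 2891) (S (nat_lit 1433) (L (nat_lit 435349))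
(L (nat_lit 18952)))
(L (nat_lit 20904)))
(S (nat_lit 5156) (L (nat_lit 18799))
(L (nat_lit 411972))))
(L (nat_lit 417060)))
(L (nat_lit 600449)))))
(L (nat_lit 444707)))
(S (nat_lit 2807) (S (nat_lit 405) (S (nat_lit 1) (S (nat_lit 1216) (S (nat_lit 406) (S (nat_lit 569) (S (nat_lit 626) (S (nat_lit 905) (L (nat_lit 110806))
(L (nat_lit 624171)))
(L (nat_lit 576680)))
(L (nat_lit 412961)))
(L (nat_lit 412929)))
(L (nat_lit 314380)))
(S (nat_lit 2215) (S (nat_lit 3430) (S (nat_lit 6131) (S (nat_lit 4997) (S (nat_lit 2620) (S (nat_lit 905) (S (nat_lit 2106) (S (nat_lit 3268) (S (nat_lit 590) (S (nat_lit 3131) (S (nat_lit 1053) (S (nat_lit 3932) (S (nat_lit 1728) (S (nat_lit 1258) (S (nat_lit 918) (S (nat_lit 5305) (S (nat_lit 1105) (D (nat_lit 12) (nat_lit 593448) (nat_lit 444706) (nat_lit 2234490324001))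
(L (nat_lit 701483)))
(L (nat_lit 394952)))
(L (nat_lit 694723)))
(L (nat_lit 700674)))
(S (nat_lit 2208) (S (nat_lit 5280) (S (nat_lit 3423) (S (nat_lit 3252) (S (nat_lit 3079) (D (nat_lit 12) (nat_lit 724454) (nat_lit 510304) (nat_lit 35469165601))
(L (nat_lit 465010)))
(L (nat_lit 89480)))
(L (nat_lit 316801)))
(L (nat_lit 700771)))
(L (nat_lit 666080))))
(L (nat_lit 543012)))
(L (nat_lit 478282)))
(L (nat_lit 767328)))
(L (nat_lit 449857)))
(L (nat_lit 10706)))
(L (nat_lit 562795)))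
(L (nat_lit 631855)))
(L (nat_lit 764321)))
(L (nat_lit 561524)))
(L (nat_lit 416775)))
(L (nat_lit 415751)))
(S (nat_lit 4429) (S (nat_lit 2804) (S (nat_lit 5644) (L (nat_lit 499427))
(L (nat_lit 437923)))
(L (nat_lit 511203)))
(L (nat_lit 597411)))))
(S (nat_lit 2619) (S (nat_lit 203) (L (nat_lit 40343))
(S (nat_lit 4997) (S (nat_lit 4321) (S (nat_lit 2620) (S (nat_lit 5333) (S (nat_lit 1724) (S (nat_lit 3107) (S (nat_lit 5968) (S (nat_lit 917) (S (nat_lit 4874) (S (nat_lit 5482) (S (nat_lit 1904) (S (nat_lit 3341) (S (nat_lit 523) (S (nat_lit 6253) (S (nat_lit 3827) (S (nat_lit 790) (S (nat_lit 4502) (D (nat_lit 12) (nat_lit 700610) (nat_lit 313829) (nat_lit 68788683777))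
(L (nat_lit 738379)))
(L (nat_lit 770217)))
(L (nat_lit 218658)))
(L (nat_lit 704804)))
(L (nat_lit 702754)))
(S (nat_lit 3815) (S (nat_lit 517) (S (nat_lit 2749) (S (nat_lit 1205) (S (nat_lit 368) (D (nat_lit 10) (nat_lit 275040) (nat_lit 39500) (nat_lit 69861376002))
(L (nat_lit 688647)))
(L (nat_lit 771298)))
(L (nat_lit 705762)))
(L (nat_lit 700642)))
(L (nat_lit 179541))))
(L (nat_lit 659820)))
(L (nat_lit 434917)))
(L (nat_lit 314448)))
(L (nat_lit 110006)))
(L (nat_lit 378597)))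
(L (nat_lit 283136)))
(L (nat_lit 266892)))
(L (nat_lit 667936)))
(L (nat_lit 767233)))
(S (nat_lit 5041) (L (nat_lit 631235))
(L (nat_lit 771361))))
(L (nat_lit 42673))))
(S (nat_lit 4833) (S (nat_lit 584) (S (nat_lit 6534) (S (nat_lit 406) (S (nat_lit 3119) (L (nat_lit 312899))
(L (nat_lit 318605)))
(S (nat_lit 774) (S (nat_lit 2804) (S (nat_lit 5345) (S (nat_lit 893) (S (nat_lit 1727) (S (nat_lit 1054) (S (nat_lit 1540) (S (nat_lit 1161) (S (nat_lit 5875) (S (nat_lit 5229) (S (nat_lit 6179) (S (nat_lit 2914) (S (nat_lit 4050) (S (nat_lit 117) (D (nat_lit 12) (nat_lit 665777) (nat_lit 148040) (nat_lit 34359803937))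
(L (nat_lit 663938)))
(L (nat_lit 514373)))
(L (nat_lit 532503)))
(L (nat_lit 283139)))
(L (nat_lit 731586)))
(L (nat_lit 737603)))
(S (nat_lit 2687) (S (nat_lit 3558) (S (nat_lit 2346) (S (nat_lit 6279) (S (nat_lit 4024) (D (nat_lit 12) (nat_lit 640166) (nat_lit 598159) (nat_lit 34359803937))
(L (nat_lit 703808)))
(L (nat_lit 432215)))
(L (nat_lit 567412)))
(L (nat_lit 499894)))
(L (nat_lit 411973))))
(L (nat_lit 628880)))
(L (nat_lit 639110)))
(L (nat_lit 514183)))
(L (nat_lit 639202)))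
(L (nat_lit 655851)))
(L (nat_lit 511297)))
(L (nat_lit 404033))))
(L (nat_lit 280229)))
(S (nat_lit 2798) (S (nat_lit 5968) (L (nat_lit 691688))
(L (nat_lit 395944)))
(S (nat_lit 5012) (S (nat_lit 1724) (S (nat_lit 6252) (L (nat_lit 202134))
(L (nat_lit 704520)))
(L (nat_lit 333484)))
(L (nat_lit 600177)))))
(L (nat_lit 593290)))))
(S (nat_lit 5021) (S (nat_lit 1) (S (nat_lit 1216) (S (nat_lit 3119) (S (nat_lit 1703) (S (nat_lit 5018) (S (nat_lit 2981) (S (nat_lit 6167) (S (nat_lit 3753) (S (nat_lit 3754) (S (nat_lit 3268) (S (nat_lit 4834) (S (nat_lit 914) (S (nat_lit 2783) (S (nat_lit 3938) (S (nat_lit 688) (S (nat_lit 3590) (S (nat_lit 3587) (S (nat_lit 5211) (S (nat_lit 6168) (S (nat_lit 1918) (D (nat_lit 12) (nat_lit 310389) (nat_lit 592112) (nat_lit 1141934112))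
(L (nat_lit 736513)))
(L (nat_lit 285188)))
(L (nat_lit 21958)))
(L (nat_lit 480480)))
(L (nat_lit 480448)))
(S (nat_lit 2501) (S (nat_lit 4041) (S (nat_lit 4912) (S (nat_lit 4908) (D (nat_lit 10) (nat_lit 639142) (nat_lit 597505) (nat_lit 2082))
(L (nat_lit 738528)))
(L (nat_lit 738498)))
(L (nat_lit 697828)))
(L (nat_lit 702692))))
(L (nat_lit 78035)))
(L (nat_lit 501379)))
(L (nat_lit 482346)))
(L (nat_lit 548097)))
(L (nat_lit 211026)))
(L (nat_lit 531538)))
(L (nat_lit 531540)))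
(L (nat_lit 344148)))
(S (nat_lit 3149) (S (nat_lit 4991) (S (nat_lit 1054) (L (nat_lit 401462))
(L (nat_lit 534612)))
(L (nat_lit 738627)))
(L (nat_lit 500757))))
(L (nat_lit 198098)))
(L (nat_lit 623884)))
(L (nat_lit 394515)))
(L (nat_lit 314380)))
(S (nat_lit 2215) (S (nat_lit 3430) (S (nat_lit 6131) (S (nat_lit 590) (S (nat_lit 5333) (S (nat_lit 3131) (S (nat_lit 5012) (S (nat_lit 5342) (S (nat_lit 4320) (S (nat_lit 2619) (S (nat_lit 789) (S (nat_lit 6535) (S (nat_lit 5967) (S (nat_lit 525) (S (nat_lit 5196) (S (nat_lit 321) (S (nat_lit 2013) (S (nat_lit 784) (D (nat_lit 12) (nat_lit 724518) (nat_lit 427314) (nat_lit 2215675904))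
(L (nat_lit 770243)))
(L (nat_lit 737419)))
(L (nat_lit 728205)))
(L (nat_lit 219524)))
(S (nat_lit 2932) (S (nat_lit 3986) (S (nat_lit 364) (S (nat_lit 515) (S (nat_lit 837) (D (nat_lit 12) (nat_lit 658986) (nat_lit 591215) (nat_lit 2201170805825))
(L (nat_lit 704740)))
(L (nat_lit 667686)))
(L (nat_lit 702470)))
(L (nat_lit 286147)))
(L (nat_lit 462505))))
(L (nat_lit 50919)))
(L (nat_lit 18151)))
(L (nat_lit 722342)))
(L (nat_lit 381349)))
(L (nat_lit 446821)))
(L (nat_lit 655755)))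
(L (nat_lit 655880)))
(L (nat_lit 559787)))
(L (nat_lit 430356)))
(L (nat_lit 394888)))
(L (nat_lit 246802)))
(L (nat_lit 245778)))
(S (nat_lit 4429) (S (nat_lit 5345) (S (nat_lit 5644) (S (nat_lit 3917) (S (nat_lit 405) (S (nat_lit 905) (S (nat_lit 2106) (S (nat_lit 6535) (S (nat_lit 942) (S (nat_lit 5482) (S (nat_lit 3107) (S (nat_lit 5305) (S (nat_lit 6115) (S (nat_lit 1752) (S (nat_lit 1747) (S (nat_lit 4389) (S (nat_lit 2197) (D (nat_lit 14) (nat_lit 598434) (nat_lit 510144) (nat_lit 1107329088))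
(L (nat_lit 663598)))
(L (nat_lit 416097)))
(S (nat_lit 3093) (S (nat_lit 4395) (S (nat_lit 2191) (D (nat_lit 14) (nat_lit 636162) (nat_lit 509991) (nat_lit 2214658080))
(L (nat_lit 661614)))
(L (nat_lit 411905)))
(L (nat_lit 659942))))
(L (nat_lit 88458)))
(L (nat_lit 636258)))
(L (nat_lit 733320)))
(L (nat_lit 39443)))
(L (nat_lit 671819)))
(L (nat_lit 690662)))
(L (nat_lit 277683)))
(L (nat_lit 568499)))
(L (nat_lit 198319)))
(L (nat_lit 275635)))
(L (nat_lit 380940)))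
(L (nat_lit 666636)))
(L (nat_lit 666637)))
(L (nat_lit 597410)))))
(L (nat_lit 593168)))))
(S (nat_lit 3429) (S (nat_lit 2106) (S (nat_lit 1) (S (nat_lit 590) (S (nat_lit 1054) (S (nat_lit 3932) (S (nat_lit 3131) (S (nat_lit 440) (S (nat_lit 3754) (S (nat_lit 1724) (S (nat_lit 1053) (S (nat_lit 6131) (S (nat_lit 5321) (S (nat_lit 1574) (S (nat_lit 644) (S (nat_lit 1257) (S (nat_lit 1267) (S (nat_lit 5460) (D (nat_lit 10) (nat_lit 595462) (nat_lit 248321) (nat_lit 2147517473))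
(L (nat_lit 731554)))
(L (nat_lit 668930)))
(L (nat_lit 667904)))
(S (nat_lit 6497) (S (nat_lit 4783) (S (nat_lit 2208) (S (nat_lit 2200) (D (nat_lit 10) (nat_lit 628168) (nat_lit 477223) (nat_lit 69793218560))
(L (nat_lit 417059)))
(L (nat_lit 415009)))
(L (nat_lit 700769)))
(L (nat_lit 770054))))
(L (nat_lit 445795)))
(L (nat_lit 375458)))
(L (nat_lit 310948)))
(L (nat_lit 150864)))
(L (nat_lit 635076)))
(L (nat_lit 264848)))
(L (nat_lit 667657)))
(L (nat_lit 568994)))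
(L (nat_lit 84423)))
(L (nat_lit 85446)))
(L (nat_lit 448518)))
(S (nat_lit 2215) (S (nat_lit 5345) (S (nat_lit 2503) (S (nat_lit 4305) (L (nat_lit 40589))
(L (nat_lit 117163)))
(S (nat_lit 2671) (S (nat_lit 3917) (S (nat_lit 3805) (S (nat_lit 5968) (S (nat_lit 1715) (S (nat_lit 5644) (S (nat_lit 3268) (S (nat_lit 6155) (S (nat_lit 4834) (S (nat_lit 5021) (S (nat_lit 2199) (S (nat_lit 3107) (S (nat_lit 3481) (S (nat_lit 4305) (S (nat_lit 3474) (S (nat_lit 5301) (S (nat_lit 6496) (D (nat_lit 14) (nat_lit 762272) (nat_lit 149931) (nat_lit 70869090337))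
(L (nat_lit 121290)))
(L (nat_lit 733381)))
(S (nat_lit 4396) (S (nat_lit 1747) (S (nat_lit 1290) (D (nat_lit 14) (nat_lit 600450) (nat_lit 50759) (nat_lit 70869090337))
(L (nat_lit 734281)))
(L (nat_lit 667906)))
(L (nat_lit 430390))))
(L (nat_lit 734251)))
(L (nat_lit 201138)))
(L (nat_lit 563842)))
(L (nat_lit 18700)))
(L (nat_lit 575681)))
(L (nat_lit 78502)))
(L (nat_lit 400964)))
(L (nat_lit 579659)))
(L (nat_lit 427382)))
(L (nat_lit 21001)))
(L (nat_lit 378533)))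
(L (nat_lit 54728)))
(L (nat_lit 755175)))
(L (nat_lit 564242))))
(L (nat_lit 666637)))
(S (nat_lit 4429) (S (nat_lit 1054) (S (nat_lit 1216) (S (nat_lit 3119) (L (nat_lit 198351))
(L (nat_lit 313487)))
(L (nat_lit 361068)))
(S (nat_lit 3268) (S (nat_lit 3128) (S (nat_lit 1539) (L (nat_lit 142900))
(L (nat_lit 231923)))
(L (nat_lit 414763)))
(S (nat_lit 5482) (S (nat_lit 3932) (S (nat_lit 1715) (S (nat_lit 1727) (S (nat_lit 905) (S (nat_lit 593) (S (nat_lit 2798) (S (nat_lit 6535) (S (nat_lit 76) (S (nat_lit 1129) (S (nat_lit 2182) (S (nat_lit 1703) (S (nat_lit 569) (S (nat_lit 1216) (S (nat_lit 447) (S (nat_lit 5342) (S (nat_lit 1257) (S (nat_lit 478) (S (nat_lit 1288) (S (nat_lit 618) (D (nat_lit 14) (nat_lit 698786) (nat_lit 215180) (nat_lit 35433547809))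
(L (nat_lit 672004)))
(L (nat_lit 734215)))
(S (nat_lit 6084) (S (nat_lit 4950) (S (nat_lit 5629) (D (nat_lit 14) (nat_lit 598400) (nat_lit 182638) (nat_lit 35501639680))
(L (nat_lit 733290)))
(L (nat_lit 416036)))
(L (nat_lit 770305))))
(L (nat_lit 690667)))
(L (nat_lit 666669)))
(L (nat_lit 669989)))
(S (nat_lit 6494) (S (nat_lit 1082) (S (nat_lit 2775) (S (nat_lit 1752) (D (nat_lit 3) (nat_lit 760876) (nat_lit 246337) (nat_lit 36509321281))
(L (nat_lit 700640)))
(L (nat_lit 412996)))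
(L (nat_lit 411905)))
(L (nat_lit 296468))))
(L (nat_lit 412963)))
(S (nat_lit 3888) (S (nat_lit 2830) (S (nat_lit 1740) (S (nat_lit 2176) (S (nat_lit 3728) (D (nat_lit 3) (nat_lit 596016) (nat_lit 469568) (nat_lit 68721608705))
(L (nat_lit 670947)))
(L (nat_lit 279265)))
(L (nat_lit 668778)))
(L (nat_lit 640325)))
(L (nat_lit 501782))))
(L (nat_lit 482625)))
(L (nat_lit 122220)))
(L (nat_lit 351715)))
(L (nat_lit 75318)))
(L (nat_lit 328369)))
(L (nat_lit 82134)))
(L (nat_lit 525994)))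
(L (nat_lit 342198)))
(L (nat_lit 46761)))
(L (nat_lit 79091)))
(L (nat_lit 604294)))))
(L (nat_lit 597006)))))
(S (nat_lit 4320) (S (nat_lit 893) (S (nat_lit 3668) (S (nat_lit 386) (L (nat_lit 760324))
(L (nat_lit 46327)))
(S (nat_lit 5482) (S (nat_lit 4834) (S (nat_lit 1727) (S (nat_lit 2783) (S (nat_lit 4321) (S (nat_lit 5021) (S (nat_lit 3929) (S (nat_lit 3938) (S (nat_lit 6131) (S (nat_lit 3704) (S (nat_lit 5481) (S (nat_lit 3065) (S (nat_lit 4704) (S (nat_lit 2013) (S (nat_lit 2023) (D (nat_lit 10) (nat_lit 759302) (nat_lit 600205) (nat_lit 35468116032))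
(L (nat_lit 766146)))
(L (nat_lit 767168)))
(L (nat_lit 700642)))
(S (nat_lit 4134) (S (nat_lit 5763) (S (nat_lit 5773) (D (nat_lit 10) (nat_lit 693702) (nat_lit 140881) (nat_lit 1108412482))
(L (nat_lit 479460)))
(L (nat_lit 705763)))
(L (nat_lit 50923))))
(L (nat_lit 311970)))
(L (nat_lit 460083)))
(L (nat_lit 310949)))
(L (nat_lit 766025)))
(L (nat_lit 765006)))
(L (nat_lit 39568)))
(L (nat_lit 446567)))
(L (nat_lit 330384)))
(L (nat_lit 500918)))
(L (nat_lit 250990)))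
(L (nat_lit 234003))))
(S (nat_lit 3107) (S (nat_lit 593) (S (nat_lit 569) (S (nat_lit 6152) (S (nat_lit 6146) (S (nat_lit 6155) (S (nat_lit 4456) (L (nat_lit 9902))
(L (nat_lit 449728)))
(L (nat_lit 151945)))
(L (nat_lit 153838)))
(L (nat_lit 145780)))
(S (nat_lit 1405) (S (nat_lit 1724) (L (nat_lit 186668))
(L (nat_lit 14710)))
(L (nat_lit 142961))))
(S (nat_lit 2807) (S (nat_lit 6155) (S (nat_lit 3128) (S (nat_lit 1539) (S (nat_lit 4997) (S (nat_lit 2107) (S (nat_lit 4429) (S (nat_lit 1213) (S (nat_lit 5481) (S (nat_lit 1216) (S (nat_lit 363) (S (nat_lit 2293) (S (nat_lit 5763) (S (nat_lit 790) (S (nat_lit 4113) (S (nat_lit 6037) (D (nat_lit 14) (nat_lit 696736) (nat_lit 496202) (nat_lit 70900516897))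
(L (nat_lit 547172)))
(L (nat_lit 701701)))
(S (nat_lit 6043) (S (nat_lit 858) (S (nat_lit 3502) (D (nat_lit 14) (nat_lit 665986) (nat_lit 593417) (nat_lit 69793286209))
(L (nat_lit 480394)))
(L (nat_lit 699940)))
(L (nat_lit 735368))))
(L (nat_lit 176373)))
(L (nat_lit 732704)))
(L (nat_lit 703682)))
(L (nat_lit 637283)))
(L (nat_lit 253072)))
(L (nat_lit 253409)))
(L (nat_lit 578754)))
(L (nat_lit 576801)))
(L (nat_lit 547910)))
(L (nat_lit 638022)))
(L (nat_lit 578818)))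
(L (nat_lit 149959)))
(S (nat_lit 5021) (S (nat_lit 3216) (L (nat_lit 348547))
(S (nat_lit 4321) (S (nat_lit 2619) (L (nat_lit 396566))
(L (nat_lit 759053)))
(L (nat_lit 152106))))
(L (nat_lit 598064)))))
(S (nat_lit 5321) (S (nat_lit 406) (S (nat_lit 593) (S (nat_lit 1054) (S (nat_lit 1539) (S (nat_lit 3941) (S (nat_lit 2013) (S (nat_lit 2215) (S (nat_lit 3917) (S (nat_lit 5644) (S (nat_lit 4497) (S (nat_lit 5854) (S (nat_lit 2804) (S (nat_lit 3495) (S (nat_lit 4873) (S (nat_lit 306) (D (nat_lit 14) (nat_lit 762240) (nat_lit 590310) (nat_lit 34428978208))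
(L (nat_lit 768320)))
(L (nat_lit 702690)))
(S (nat_lit 5756) (S (nat_lit 208) (S (nat_lit 807) (D (nat_lit 14) (nat_lit 698786) (nat_lit 18640) (nat_lit 2148567072))
(L (nat_lit 731553)))
(L (nat_lit 671972)))
(L (nat_lit 318850))))
(L (nat_lit 480264)))
(L (nat_lit 243795)))
(L (nat_lit 468548)))
(L (nat_lit 493290)))
(L (nat_lit 214067)))
(L (nat_lit 458994)))
(L (nat_lit 469170)))
(L (nat_lit 78503)))
(L (nat_lit 147046)))
(L (nat_lit 146022)))
(S (nat_lit 2834) (L (nat_lit 56561))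
(L (nat_lit 639169))))
(S (nat_lit 2620) (S (nat_lit 5345) (S (nat_lit 5333) (S (nat_lit 1539) (L (nat_lit 174703))
(L (nat_lit 151014)))
(L (nat_lit 378560)))
(L (nat_lit 348175)))
(S (nat_lit 4834) (L (nat_lit 283761))
(L (nat_lit 603396)))))
(L (nat_lit 606434)))))
(S (nat_lit 6534) (S (nat_lit 893) (S (nat_lit 1) (S (nat_lit 590) (S (nat_lit 3430) (S (nat_lit 593) (L (nat_lit 515083))
(L (nat_lit 629283)))
(L (nat_lit 557367)))
(L (nat_lit 638982)))
(S (nat_lit 2215) (S (nat_lit 6143) (S (nat_lit 5482) (S (nat_lit 5345) (S (nat_lit 5967) (S (nat_lit 1540) (S (nat_lit 2804) (S (nat_lit 5342) (S (nat_lit 2095) (S (nat_lit 3870) (S (nat_lit 2495) (S (nat_lit 4226) (S (nat_lit 5530) (S (nat_lit 1647) (D (nat_lit 10) (nat_lit 379056) (nat_lit 605226) (nat_lit 68720559138))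
(L (nat_lit 661617)))
(L (nat_lit 701793)))
(L (nat_lit 89512)))
(L (nat_lit 694661)))
(L (nat_lit 701669)))
(S (nat_lit 4024) (S (nat_lit 291) (S (nat_lit 3012) (S (nat_lit 3160) (S (nat_lit 3576) (D (nat_lit 12) (nat_lit 670822) (nat_lit 477411) (nat_lit 1136085960737))
(L (nat_lit 466659)))
(L (nat_lit 284716)))
(L (nat_lit 672806)))
(L (nat_lit 672961)))
(L (nat_lit 413957))))
(L (nat_lit 446506)))
(L (nat_lit 762033)))
(L (nat_lit 510176)))
(L (nat_lit 661647)))
(L (nat_lit 666637)))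
(L (nat_lit 428715)))
(L (nat_lit 186574)))
(S (nat_lit 4429) (S (nat_lit 3938) (L (nat_lit 735335))
(L (nat_lit 73139)))
(L (nat_lit 602121)))))
(S (nat_lit 3107) (S (nat_lit 2993) (S (nat_lit 5832) (L (nat_lit 557802))
(L (nat_lit 251424)))
(S (nat_lit 3128) (S (nat_lit 4563) (S (nat_lit 3171) (L (nat_lit 347652))
(L (nat_lit 280686)))
(S (nat_lit 5968) (S (nat_lit 584) (S (nat_lit 6152) (S (nat_lit 6143) (S (nat_lit 6155) (S (nat_lit 593) (S (nat_lit 1) (S (nat_lit 590) (S (nat_lit 3430) (S (nat_lit 3267) (S (nat_lit 3165) (S (nat_lit 6013) (S (nat_lit 3163) (D (nat_lit 10) (nat_lit 413864) (nat_lit 592359) (nat_lit 69827822657))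
(L (nat_lit 285219)))
(L (nat_lit 217633)))
(S (nat_lit 3540) (S (nat_lit 3572) (S (nat_lit 119) (S (nat_lit 277) (S (nat_lit 273) (S (nat_lit 3178) (D (nat_lit 8) (nat_lit 660870) (nat_lit 604448) (nat_lit 34426849314))
(L (nat_lit 284099)))
(L (nat_lit 663628)))
(L (nat_lit 664099)))
(L (nat_lit 669891)))
(L (nat_lit 669890)))
(L (nat_lit 282800))))
(L (nat_lit 770306)))
(L (nat_lit 110103)))
(L (nat_lit 311969)))
(L (nat_lit 426228)))
(L (nat_lit 153873)))
(L (nat_lit 144007)))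
(L (nat_lit 154023)))
(L (nat_lit 144071)))
(S (nat_lit 5187) (L (nat_lit 297490))
(L (nat_lit 73271))))
(L (nat_lit 39661))))
(L (nat_lit 141715))))
(S (nat_lit 5321) (S (nat_lit 1718) (S (nat_lit 5644) (S (nat_lit 3941) (S (nat_lit 1082) (L (nat_lit 11700))
(L (nat_lit 19975)))
(L (nat_lit 445607)))
(L (nat_lit 153098)))
(S (nat_lit 3932) (S (nat_lit 3941) (S (nat_lit 3938) (L (nat_lit 120299))
(L (nat_lit 529779)))
(L (nat_lit 435877)))
(S (nat_lit 6146) (S (nat_lit 6143) (S (nat_lit 3119) (S (nat_lit 5967) (S (nat_lit 1703) (S (nat_lit 5021) (S (nat_lit 4429) (S (nat_lit 3754) (S (nat_lit 917) (S (nat_lit 1216) (S (nat_lit 914) (S (nat_lit 2501) (S (nat_lit 774) (S (nat_lit 6428) (S (nat_lit 4750) (S (nat_lit 4563) (S (nat_lit 3877) (D (nat_lit 12) (nat_lit 638122) (nat_lit 602466) (nat_lit 68788683777))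
(L (nat_lit 477256)))
(L (nat_lit 733413)))
(L (nat_lit 498806)))
(L (nat_lit 253409)))
(L (nat_lit 703681)))
(S (nat_lit 3387) (S (nat_lit 120) (S (nat_lit 690) (S (nat_lit 3183) (S (nat_lit 271) (D (nat_lit 12) (nat_lit 670886) (nat_lit 602339) (nat_lit 2201239980032))
(L (nat_lit 663939)))
(L (nat_lit 480481)))
(L (nat_lit 670793)))
(L (nat_lit 671010)))
(L (nat_lit 629285))))
(L (nat_lit 524971)))
(L (nat_lit 524597)))
(L (nat_lit 525035)))
(L (nat_lit 760288)))
(L (nat_lit 532130)))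
(L (nat_lit 531073)))
(L (nat_lit 280622)))
(L (nat_lit 332279)))
(L (nat_lit 566848)))
(L (nat_lit 667141)))
(L (nat_lit 606375)))))
(L (nat_lit 597165)))))
(L (nat_lit 601573)))))
(S (nat_lit 5643) (S (nat_lit 1727) (S (nat_lit 914) (L (nat_lit 198134))
(S (nat_lit 3128) (S (nat_lit 917) (S (nat_lit 5967) (S (nat_lit 5968) (L (nat_lit 199220))
(L (nat_lit 384544)))
(L (nat_lit 40687)))
(S (nat_lit 3131) (S (nat_lit 3107) (S (nat_lit 3119) (S (nat_lit 4997) (S (nat_lit 1724) (S (nat_lit 6535) (L (nat_lit 22954))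
(L (nat_lit 482657)))
(L (nat_lit 42636)))
(S (nat_lit 6326) (L (nat_lit 580680))
(L (nat_lit 42388))))
(L (nat_lit 771328)))
(L (nat_lit 770240)))
(S (nat_lit 5345) (S (nat_lit 1054) (S (nat_lit 1540) (L (nat_lit 361071))
(L (nat_lit 638149)))
(L (nat_lit 281088)))
(L (nat_lit 603490)))))
(S (nat_lit 5342) (S (nat_lit 1540) (S (nat_lit 893) (S (nat_lit 3268) (S (nat_lit 584) (S (nat_lit 2619) (S (nat_lit 1) (S (nat_lit 6143) (S (nat_lit 5644) (S (nat_lit 4997) (S (nat_lit 1531) (S (nat_lit 1993) (S (nat_lit 2530) (S (nat_lit 1995) (D (nat_lit 10) (nat_lit 671912) (nat_lit 607366) (nat_lit 70936231968))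
(L (nat_lit 667840)))
(L (nat_lit 414790)))
(L (nat_lit 700642)))
(S (nat_lit 6266) (S (nat_lit 3385) (S (nat_lit 5871) (S (nat_lit 5875) (D (nat_lit 10) (nat_lit 637032) (nat_lit 606247) (nat_lit 2082))
(L (nat_lit 448866)))
(L (nat_lit 448800)))
(L (nat_lit 705707)))
(L (nat_lit 726569))))
(L (nat_lit 284067)))
(L (nat_lit 501475)))
(L (nat_lit 145095)))
(L (nat_lit 636131)))
(L (nat_lit 512323)))
(S (nat_lit 2798) (S (nat_lit 6152) (S (nat_lit 1703) (S (nat_lit 1053) (S (nat_lit 1096) (S (nat_lit 569) (S (nat_lit 2215) (S (nat_lit 917) (S (nat_lit 43) (S (nat_lit 1614) (S (nat_lit 1252) (S (nat_lit 1767) (D (nat_lit 14) (nat_lit 598402) (nat_lit 248353) (nat_lit 35502686241))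
(L (nat_lit 734400)))
(S (nat_lit 2597) (S (nat_lit 1779) (S (nat_lit 439) (D (nat_lit 14) (nat_lit 668994) (nat_lit 247920) (nat_lit 69239808))
(L (nat_lit 698447)))
(L (nat_lit 768288)))
(L (nat_lit 666050))))
(L (nat_lit 56839)))
(L (nat_lit 671043)))
(L (nat_lit 187759)))
(L (nat_lit 315439)))
(L (nat_lit 365169)))
(L (nat_lit 694321)))
(L (nat_lit 342098)))
(L (nat_lit 262766)))
(L (nat_lit 171726)))
(S (nat_lit 5012) (S (nat_lit 4429) (S (nat_lit 5481) (S (nat_lit 4269) (S (nat_lit 5333) (S (nat_lit 3753) (S (nat_lit 1718) (S (nat_lit 1852) (S (nat_lit 5074) (S (nat_lit 3235) (S (nat_lit 2426) (S (nat_lit 5699) (S (nat_lit 4644) (D (nat_lit 12) (nat_lit 628202) (nat_lit 603273) (nat_lit 68788683777))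
(L (nat_lit 218496)))
(L (nat_lit 351683)))
(L (nat_lit 704770)))
(L (nat_lit 433234)))
(L (nat_lit 727119)))
(S (nat_lit 5354) (S (nat_lit 4116) (S (nat_lit 5712) (S (nat_lit 6038) (S (nat_lit 4267) (S (nat_lit 3215) (D (nat_lit 12) (nat_lit 626219) (nat_lit 606279) (nat_lit 34394343426))
(L (nat_lit 702724)))
(L (nat_lit 414048)))
(L (nat_lit 734560)))
(L (nat_lit 564279)))
(L (nat_lit 694321)))
(L (nat_lit 49396))))
(L (nat_lit 53484)))
(L (nat_lit 285154)))
(L (nat_lit 667786)))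
(L (nat_lit 212148)))
(L (nat_lit 670020)))
(L (nat_lit 341730)))
(L (nat_lit 590344)))))
(L (nat_lit 768139)))
(S (nat_lit 3134) (S (nat_lit 2566) (L (nat_lit 373939))
(L (nat_lit 567447)))
(L (nat_lit 628911))))
(L (nat_lit 84457)))
(L (nat_lit 600610)))))
(S (nat_lit 3941) (S (nat_lit 584) (S (nat_lit 534) (L (nat_lit 527603))
(S (nat_lit 5482) (S (nat_lit 3887) (L (nat_lit 656778))
(S (nat_lit 5321) (S (nat_lit 3938) (S (nat_lit 2783) (S (nat_lit 3119) (S (nat_lit 1539) (S (nat_lit 2107) (S (nat_lit 4834) (S (nat_lit 1530) (S (nat_lit 1703) (S (nat_lit 914) (S (nat_lit 917) (S (nat_lit 6143) (S (nat_lit 1666) (S (nat_lit 4908) (S (nat_lit 3387) (S (nat_lit 6450) (S (nat_lit 5779) (D (nat_lit 12) (nat_lit 640102) (nat_lit 600610) (nat_lit 68719509570))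
(L (nat_lit 580900)))
(L (nat_lit 532599)))
(L (nat_lit 502932)))
(L (nat_lit 738377)))
(S (nat_lit 3006) (S (nat_lit 3587) (S (nat_lit 4203) (S (nat_lit 688) (S (nat_lit 4747) (S (nat_lit 5508) (D (nat_lit 12) (nat_lit 665713) (nat_lit 18673) (nat_lit 1136085960737))
(L (nat_lit 702723)))
(L (nat_lit 465942)))
(L (nat_lit 665742)))
(L (nat_lit 402048)))
(L (nat_lit 668992)))
(L (nat_lit 143572))))
(L (nat_lit 396498)))
(L (nat_lit 634336)))
(L (nat_lit 634400)))
(L (nat_lit 637993)))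
(L (nat_lit 768006)))
(L (nat_lit 21931)))
(L (nat_lit 117040)))
(L (nat_lit 510023)))
(L (nat_lit 402581)))
(L (nat_lit 468053)))
(L (nat_lit 211684)))
(L (nat_lit 375458))))
(L (nat_lit 115371))))
(S (nat_lit 2798) (S (nat_lit 914) (S (nat_lit 5482) (S (nat_lit 3430) (S (nat_lit 6131) (S (nat_lit 1053) (S (nat_lit 1597) (S (nat_lit 1724) (S (nat_lit 4997) (S (nat_lit 4833) (S (nat_lit 6535) (S (nat_lit 463) (S (nat_lit 43) (S (nat_lit 1096) (S (nat_lit 2200) (S (nat_lit 5314) (S (nat_lit 1593) (D (nat_lit 12) (nat_lit 593384) (nat_lit 379268) (nat_lit 2268884664352))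
(L (nat_lit 771266)))
(L (nat_lit 736296)))
(L (nat_lit 664654)))
(L (nat_lit 667936)))
(S (nat_lit 1108) (S (nat_lit 2242) (S (nat_lit 5280) (S (nat_lit 3423) (S (nat_lit 1590) (D (nat_lit 12) (nat_lit 726566) (nat_lit 346533) (nat_lit 1074825250))
(L (nat_lit 702788)))
(L (nat_lit 480480)))
(L (nat_lit 700773)))
(L (nat_lit 700611)))
(L (nat_lit 493908))))
(L (nat_lit 307252)))
(L (nat_lit 399018)))
(L (nat_lit 243429)))
(L (nat_lit 546081)))
(L (nat_lit 7703)))
(L (nat_lit 769032)))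
(L (nat_lit 277090)))
(L (nat_lit 229874)))
(L (nat_lit 229847)))
(L (nat_lit 318604)))
(S (nat_lit 3128) (L (nat_lit 769345))
(S (nat_lit 5342) (S (nat_lit 5482) (S (nat_lit 6535) (S (nat_lit 1216) (L (nat_lit 514122))
(L (nat_lit 377443)))
(L (nat_lit 399018)))
(L (nat_lit 311973)))
(L (nat_lit 592267)))))
(S (nat_lit 5012) (S (nat_lit 1703) (S (nat_lit 1216) (S (nat_lit 5018) (L (nat_lit 328117))
(L (nat_lit 279730)))
(L (nat_lit 52524)))
(S (nat_lit 3917) (S (nat_lit 5345) (S (nat_lit 1) (S (nat_lit 914) (S (nat_lit 5321) (S (nat_lit 4321) (S (nat_lit 405) (S (nat_lit 5333) (S (nat_lit 3754) (S (nat_lit 5481) (S (nat_lit 2447) (S (nat_lit 3236) (S (nat_lit 593) (S (nat_lit 3508) (S (nat_lit 1699) (S (nat_lit 146) (S (nat_lit 3980) (S (nat_lit 5365) (S (nat_lit 5704) (D (nat_lit 12) (nat_lit 734402) (nat_lit 7760) (nat_lit 1100585404450))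
(L (nat_lit 737477)))
(L (nat_lit 283075)))
(L (nat_lit 286241)))
(L (nat_lit 768193)))
(L (nat_lit 768353)))
(S (nat_lit 4124) (S (nat_lit 3495) (S (nat_lit 4657) (S (nat_lit 2415) (S (nat_lit 5706) (S (nat_lit 4269) (D (nat_lit 12) (nat_lit 637216) (nat_lit 603393) (nat_lit 1099545217089))
(L (nat_lit 468708)))
(L (nat_lit 738596)))
(L (nat_lit 702502)))
(L (nat_lit 470722)))
(L (nat_lit 482626)))
(L (nat_lit 480512))))
(L (nat_lit 415848)))
(L (nat_lit 629869)))
(L (nat_lit 736484)))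
(L (nat_lit 49431)))
(L (nat_lit 6861)))
(L (nat_lit 378562)))
(L (nat_lit 276067)))
(L (nat_lit 763428)))
(L (nat_lit 89325)))
(L (nat_lit 230029)))
(L (nat_lit 242709)))
(L (nat_lit 328333)))
(S (nat_lit 6131) (S (nat_lit 5342) (L (nat_lit 769033))
(L (nat_lit 426603)))
(L (nat_lit 591335)))))
(L (nat_lit 590376)))))
(S (nat_lit 6155) (S (nat_lit 2106) (S (nat_lit 905) (S (nat_lit 5644) (S (nat_lit 2798) (S (nat_lit 1054) (S (nat_lit 1106) (S (nat_lit 5967) (S (nat_lit 3128) (S (nat_lit 4833) (S (nat_lit 5968) (S (nat_lit 5345) (S (nat_lit 1) (S (nat_lit 2601) (S (nat_lit 1608) (S (nat_lit 4961) (S (nat_lit 1262) (S (nat_lit 4353) (D (nat_lit 12) (nat_lit 602304) (nat_lit 346498) (nat_lit 2234458835008))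
(L (nat_lit 403109)))
(L (nat_lit 671013)))
(L (nat_lit 315779)))
(L (nat_lit 737602)))
(S (nat_lit 3257) (S (nat_lit 3730) (S (nat_lit 1291) (S (nat_lit 6083) (S (nat_lit 440) (S (nat_lit 3313) (D (nat_lit 12) (nat_lit 694658) (nat_lit 51722) (nat_lit 1101660226625))
(L (nat_lit 427718)))
(L (nat_lit 667936)))
(L (nat_lit 286085)))
(L (nat_lit 736579)))
(L (nat_lit 670981)))
(L (nat_lit 346531))))
(L (nat_lit 412867)))
(L (nat_lit 655727)))
(L (nat_lit 120296)))
(L (nat_lit 660813)))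
(L (nat_lit 414763)))
(L (nat_lit 416994)))
(L (nat_lit 664623)))
(L (nat_lit 150022)))
(L (nat_lit 230001)))
(L (nat_lit 140972)))
(S (nat_lit 3119) (S (nat_lit 1054) (L (nat_lit 634923))
(L (nat_lit 542854)))
(S (nat_lit 5333) (S (nat_lit 2620) (L (nat_lit 431478))
(L (nat_lit 145030)))
(L (nat_lit 591402)))))
(S (nat_lit 4320) (S (nat_lit 2620) (S (nat_lit 3128) (S (nat_lit 3107) (S (nat_lit 5968) (S (nat_lit 2065) (S (nat_lit 5012) (S (nat_lit 4549) (S (nat_lit 4668) (S (nat_lit 4997) (S (nat_lit 3507) (S (nat_lit 3216) (S (nat_lit 853) (S (nat_lit 2274) (D (nat_lit 14) (nat_lit 667968) (nat_lit 602121) (nat_lit 69793286209))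
(L (nat_lit 88614)))
(L (nat_lit 673120)))
(S (nat_lit 6201) (S (nat_lit 859) (S (nat_lit 2286) (D (nat_lit 14) (nat_lit 665984) (nat_lit 602121) (nat_lit 69793286209))
(L (nat_lit 414855)))
(L (nat_lit 701733)))
(L (nat_lit 637000))))
(L (nat_lit 373878)))
(L (nat_lit 667937)))
(L (nat_lit 737504)))
(L (nat_lit 219183)))
(L (nat_lit 670979)))
(L (nat_lit 704522)))
(L (nat_lit 48808)))
(L (nat_lit 413888)))
(L (nat_lit 753933)))
(L (nat_lit 462470)))
(S (nat_lit 6534) (S (nat_lit 1216) (S (nat_lit 3119) (L (nat_lit 460427))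
(L (nat_lit 263573)))
(S (nat_lit 3430) (S (nat_lit 6143) (S (nat_lit 6131) (S (nat_lit 590) (S (nat_lit 569) (S (nat_lit 2619) (S (nat_lit 5968) (S (nat_lit 1054) (S (nat_lit 3267) (S (nat_lit 1513) (S (nat_lit 3128) (S (nat_lit 2907) (S (nat_lit 3575) (S (nat_lit 288) (S (nat_lit 6433) (S (nat_lit 3380) (D (nat_lit 8) (nat_lit 241779) (nat_lit 281061) (nat_lit 34670624))
(L (nat_lit 512352)))
(L (nat_lit 738560)))
(L (nat_lit 673025)))
(L (nat_lit 673056)))
(S (nat_lit 5518) (S (nat_lit 119) (S (nat_lit 2895) (S (nat_lit 5527) (S (nat_lit 5867) (D (nat_lit 10) (nat_lit 664689) (nat_lit 495179) (nat_lit 69827821568))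
(L (nat_lit 722315)))
(L (nat_lit 479339)))
(L (nat_lit 547011)))
(L (nat_lit 669891)))
(L (nat_lit 705643))))
(L (nat_lit 264595)))
(L (nat_lit 465475)))
(L (nat_lit 365200)))
(L (nat_lit 631232)))
(L (nat_lit 662605)))
(L (nat_lit 209539)))
(L (nat_lit 430455)))
(L (nat_lit 154865)))
(L (nat_lit 229876)))
(L (nat_lit 144596)))
(S (nat_lit 5644) (S (nat_lit 6535) (S (nat_lit 4186) (S (nat_lit 3347) (L (nat_lit 666700))
(L (nat_lit 662541)))
(L (nat_lit 405187)))
(L (nat_lit 417057)))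
(L (nat_lit 591306)))))
(L (nat_lit 607339)))))
(L (nat_lit 594313)))))
(L (nat_lit 606251)))))

theorem ra37_1 : run 3 la37 [] ta37_1 ka37 (P4 3 203 0 314 203 0 0 1 0) [] = true := by
  decide +kernel

noncomputable def ta14_1 : Tr :=
(S (nat_lit 1) (S (nat_lit 740) (S (nat_lit 2030) (S (nat_lit 8) (S (nat_lit 737) (S (nat_lit 1466) (S (nat_lit 584) (S (nat_lit 752) (S (nat_lit 5730) (S (nat_lit 5177) (S (nat_lit 5021) (S (nat_lit 1303) (S (nat_lit 2957) (S (nat_lit 4082) (S (nat_lit 2218) (S (nat_lit 6455) (S (nat_lit 524) (S (nat_lit 193) (S (nat_lit 1617) (S (nat_lit 5961) (S (nat_lit 3871) (S (nat_lit 6323) (S (nat_lit 4317) (S (nat_lit 3165) (S (nat_lit 6172) (D (nat_lit 14) (nat_lit 477193) (nat_lit 446816) (nat_lit 0))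
(L (nat_lit 514336)))
(L (nat_lit 735521)))
(L (nat_lit 661519)))
(L (nat_lit 513252)))
(L (nat_lit 402052)))
(L (nat_lit 733444)))
(L (nat_lit 733506)))
(L (nat_lit 667908)))
(S (nat_lit 3225) (S (nat_lit 1589) (S (nat_lit 1013) (S (nat_lit 5635) (S (nat_lit 4472) (S (nat_lit 2022) (S (nat_lit 3084) (S (nat_lit 5765) (S (nat_lit 3260) (D (nat_lit 14) (nat_lit 535234) (nat_lit 412683) (nat_lit 0))
(L (nat_lit 480515)))
(L (nat_lit 383360)))
(L (nat_lit 481635)))
(L (nat_lit 733353)))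
(L (nat_lit 416099)))
(L (nat_lit 734499)))
(L (nat_lit 668005)))
(L (nat_lit 667939)))
(L (nat_lit 493942))))
(L (nat_lit 398054)))
(L (nat_lit 275171)))
(L (nat_lit 434912)))
(L (nat_lit 411909)))
(L (nat_lit 313388)))
(L (nat_lit 542913)))
(L (nat_lit 444612)))
(L (nat_lit 664624)))
(L (nat_lit 220709)))
(L (nat_lit 375927)))
(L (nat_lit 246935)))
(S (nat_lit 5129) (S (nat_lit 1106) (L (nat_lit 202199))
(L (nat_lit 198071)))
(L (nat_lit 477355))))
(L (nat_lit 216580)))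
(S (nat_lit 4244) (S (nat_lit 1303) (S (nat_lit 8) (S (nat_lit 1483) (S (nat_lit 392) (L (nat_lit 229938))
(S (nat_lit 4859) (S (nat_lit 5568) (S (nat_lit 2798) (S (nat_lit 5177) (S (nat_lit 1302) (S (nat_lit 3687) (S (nat_lit 3337) (S (nat_lit 4948) (S (nat_lit 2096) (S (nat_lit 2597) (S (nat_lit 2978) (S (nat_lit 2825) (D (nat_lit 10) (nat_lit 413704) (nat_lit 348674) (nat_lit 0))
(L (nat_lit 702723)))
(L (nat_lit 702789)))
(L (nat_lit 341570)))
(L (nat_lit 404193)))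
(L (nat_lit 697893)))
(L (nat_lit 530519)))
(L (nat_lit 532628)))
(L (nat_lit 80619)))
(L (nat_lit 376485)))
(L (nat_lit 253443)))
(L (nat_lit 253347)))
(L (nat_lit 544775))))
(S (nat_lit 5780) (L (nat_lit 636257))
(L (nat_lit 56776))))
(L (nat_lit 18954)))
(S (nat_lit 3517) (S (nat_lit 4859) (S (nat_lit 2798) (L (nat_lit 722343))
(L (nat_lit 24102)))
(L (nat_lit 246336)))
(S (nat_lit 5731) (S (nat_lit 4859) (S (nat_lit 593) (L (nat_lit 86408))
(L (nat_lit 449729)))
(L (nat_lit 566848)))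
(L (nat_lit 601201)))))
(S (nat_lit 6458) (S (nat_lit 8) (S (nat_lit 1483) (S (nat_lit 3354) (S (nat_lit 2807) (S (nat_lit 2645) (S (nat_lit 5012) (S (nat_lit 4432) (S (nat_lit 3655) (S (nat_lit 2209) (S (nat_lit 2100) (S (nat_lit 5165) (S (nat_lit 2990) (S (nat_lit 5685) (S (nat_lit 5539) (S (nat_lit 1519) (S (nat_lit 6255) (S (nat_lit 1494) (D (nat_lit 18) (nat_lit 182824) (nat_lit 639201) (nat_lit 0))
(L (nat_lit 276064)))
(L (nat_lit 275109)))
(L (nat_lit 771395)))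
(L (nat_lit 414758)))
(L (nat_lit 700459)))
(L (nat_lit 436869)))
(L (nat_lit 349668)))
(L (nat_lit 265871)))
(L (nat_lit 731246)))
(L (nat_lit 248354)))
(L (nat_lit 349666)))
(L (nat_lit 216579)))
(L (nat_lit 466530)))
(L (nat_lit 465507)))
(S (nat_lit 4388) (L (nat_lit 40468))
(L (nat_lit 396906))))
(S (nat_lit 2248) (S (nat_lit 3354) (S (nat_lit 1996) (L (nat_lit 141874))
(L (nat_lit 253378)))
(L (nat_lit 217509)))
(L (nat_lit 635049))))
(S (nat_lit 3649) (S (nat_lit 6439) (L (nat_lit 244754))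
(L (nat_lit 14026)))
(L (nat_lit 197143))))
(L (nat_lit 594158)))))
(S (nat_lit 2954) (S (nat_lit 1302) (S (nat_lit 1141) (S (nat_lit 1868) (S (nat_lit 1140) (L (nat_lit 106190))
(L (nat_lit 631267)))
(L (nat_lit 630924)))
(S (nat_lit 3355) (S (nat_lit 8) (S (nat_lit 761) (S (nat_lit 1267) (L (nat_lit 316837))
(L (nat_lit 252386)))
(S (nat_lit 2957) (S (nat_lit 2636) (S (nat_lit 1303) (S (nat_lit 2984) (L (nat_lit 110160))
(L (nat_lit 705611)))
(L (nat_lit 544005)))
(L (nat_lit 515081)))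
(L (nat_lit 280653))))
(L (nat_lit 401092)))
(S (nat_lit 5569) (S (nat_lit 8) (S (nat_lit 1667) (S (nat_lit 4241) (S (nat_lit 0) (S (nat_lit 4) (S (nat_lit 2951) (L (nat_lit 171475))
(L (nat_lit 262579)))
(L (nat_lit 216546)))
(L (nat_lit 216077)))
(L (nat_lit 9868)))
(L (nat_lit 307776)))
(L (nat_lit 401093)))
(L (nat_lit 600076)))))
(S (nat_lit 3516) (S (nat_lit 593) (S (nat_lit 743) (S (nat_lit 6296) (S (nat_lit 5568) (S (nat_lit 1303) (L (nat_lit 673090))
(L (nat_lit 477440)))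
(L (nat_lit 515299)))
(L (nat_lit 253070)))
(S (nat_lit 2984) (S (nat_lit 602) (L (nat_lit 461175))
(L (nat_lit 461079)))
(L (nat_lit 634986))))
(S (nat_lit 4375) (S (nat_lit 5911) (S (nat_lit 3299) (L (nat_lit 235215))
(L (nat_lit 639169)))
(L (nat_lit 404098)))
(L (nat_lit 416808))))
(S (nat_lit 5730) (S (nat_lit 422) (S (nat_lit 3696) (S (nat_lit 8) (L (nat_lit 767265))
(L (nat_lit 401092)))
(L (nat_lit 275040)))
(S (nat_lit 2636) (S (nat_lit 1044) (L (nat_lit 726441))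
(S (nat_lit 5568) (S (nat_lit 2218) (L (nat_lit 45736))
(L (nat_lit 119272)))
(L (nat_lit 252942))))
(S (nat_lit 4850) (S (nat_lit 2807) (S (nat_lit 8) (S (nat_lit 4082) (S (nat_lit 3991) (L (nat_lit 9778))
(L (nat_lit 263757)))
(L (nat_lit 214163)))
(L (nat_lit 412004)))
(S (nat_lit 4139) (L (nat_lit 170732))
(L (nat_lit 493224))))
(L (nat_lit 596048)))))
(L (nat_lit 594411)))))
(S (nat_lit 5168) (S (nat_lit 1302) (S (nat_lit 8) (S (nat_lit 1868) (S (nat_lit 4) (S (nat_lit 5177) (S (nat_lit 0) (S (nat_lit 4850) (S (nat_lit 5171) (S (nat_lit 5180) (S (nat_lit 4859) (S (nat_lit 2798) (S (nat_lit 3680) (S (nat_lit 3354) (S (nat_lit 6458) (S (nat_lit 3355) (S (nat_lit 761) (S (nat_lit 455) (S (nat_lit 2933) (S (nat_lit 2247) (S (nat_lit 758) (S (nat_lit 6270) (S (nat_lit 2078) (S (nat_lit 2594) (D (nat_lit 10) (nat_lit 593446) (nat_lit 382404) (nat_lit 0))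
(L (nat_lit 265873)))
(L (nat_lit 253038)))
(L (nat_lit 377879)))
(L (nat_lit 661517)))
(L (nat_lit 564896)))
(L (nat_lit 214692)))
(L (nat_lit 499362)))
(S (nat_lit 3162) (S (nat_lit 1769) (S (nat_lit 6513) (S (nat_lit 2750) (S (nat_lit 3887) (S (nat_lit 4659) (S (nat_lit 1250) (S (nat_lit 4652) (D (nat_lit 8) (nat_lit 726225) (nat_lit 16691) (nat_lit 0))
(L (nat_lit 501906)))
(L (nat_lit 655629)))
(L (nat_lit 514218)))
(L (nat_lit 340053)))
(L (nat_lit 530517)))
(L (nat_lit 547913)))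
(L (nat_lit 770121)))
(S (nat_lit 4579) (S (nat_lit 3968) (S (nat_lit 2345) (S (nat_lit 1688) (S (nat_lit 4578) (S (nat_lit 845) (S (nat_lit 4571) (S (nat_lit 3081) (D (nat_lit 8) (nat_lit 726225) (nat_lit 16971) (nat_lit 0))
(L (nat_lit 217232)))
(L (nat_lit 494964)))
(L (nat_lit 670049)))
(L (nat_lit 501381)))
(L (nat_lit 755114)))
(L (nat_lit 705827)))
(L (nat_lit 700645)))
(L (nat_lit 276566)))))
(L (nat_lit 579873)))
(L (nat_lit 279570)))
(L (nat_lit 148136)))
(L (nat_lit 280228)))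
(L (nat_lit 328369)))
(L (nat_lit 662609)))
(L (nat_lit 341106)))
(L (nat_lit 143634)))
(L (nat_lit 656689)))
(L (nat_lit 433170)))
(L (nat_lit 667140)))
(S (nat_lit 2245) (L (nat_lit 377507))
(L (nat_lit 634953))))
(S (nat_lit 4073) (S (nat_lit 4064) (L (nat_lit 432834))
(L (nat_lit 280622)))
(L (nat_lit 511113))))
(L (nat_lit 630276)))
(S (nat_lit 3516) (S (nat_lit 743) (S (nat_lit 2071) (S (nat_lit 1974) (L (nat_lit 247362))
(L (nat_lit 543969)))
(S (nat_lit 5568) (S (nat_lit 431) (L (nat_lit 401525))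
(L (nat_lit 435904)))
(L (nat_lit 24042))))
(S (nat_lit 2957) (S (nat_lit 8) (S (nat_lit 1140) (S (nat_lit 2027) (L (nat_lit 631918))
(L (nat_lit 314508)))
(L (nat_lit 331504)))
(L (nat_lit 412997)))
(S (nat_lit 5171) (S (nat_lit 2150) (S (nat_lit 5685) (L (nat_lit 247362))
(L (nat_lit 151017)))
(S (nat_lit 5910) (S (nat_lit 5901) (L (nat_lit 41581))
(L (nat_lit 402048)))
(L (nat_lit 348544))))
(L (nat_lit 598404)))))
(S (nat_lit 5730) (S (nat_lit 1868) (S (nat_lit 2798) (S (nat_lit 5171) (L (nat_lit 85264))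
(L (nat_lit 495307)))
(L (nat_lit 499363)))
(S (nat_lit 4082) (S (nat_lit 593) (S (nat_lit 431) (S (nat_lit 2218) (S (nat_lit 4244) (S (nat_lit 1473) (L (nat_lit 544870))
(L (nat_lit 46822)))
(L (nat_lit 18152)))
(L (nat_lit 766210)))
(L (nat_lit 328215)))
(S (nat_lit 2078) (L (nat_lit 660688))
(L (nat_lit 432867))))
(S (nat_lit 6296) (S (nat_lit 2214) (S (nat_lit 4432) (L (nat_lit 219648))
(L (nat_lit 655630)))
(L (nat_lit 512192)))
(L (nat_lit 605378)))))
(L (nat_lit 604201)))))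
(L (nat_lit 602308)))))
(S (nat_lit 2215) (S (nat_lit 749) (S (nat_lit 2027) (S (nat_lit 1141) (S (nat_lit 1303) (S (nat_lit 1117) (L (nat_lit 200148))
(S (nat_lit 3696) (S (nat_lit 4244) (L (nat_lit 41365))
(L (nat_lit 529128)))
(L (nat_lit 111206))))
(L (nat_lit 478400)))
(L (nat_lit 282017)))
(S (nat_lit 4241) (S (nat_lit 5569) (L (nat_lit 724427))
(L (nat_lit 431686)))
(S (nat_lit 6455) (S (nat_lit 3355) (L (nat_lit 146742))
(L (nat_lit 401431)))
(L (nat_lit 599587)))))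
(S (nat_lit 2963) (S (nat_lit 584) (S (nat_lit 1302) (S (nat_lit 3079) (L (nat_lit 527634))
(S (nat_lit 6296) (S (nat_lit 1482) (S (nat_lit 1140) (L (nat_lit 694321))
(L (nat_lit 462066)))
(L (nat_lit 211122)))
(L (nat_lit 462537))))
(S (nat_lit 3516) (S (nat_lit 4082) (L (nat_lit 147115))
(L (nat_lit 759150)))
(S (nat_lit 5730) (S (nat_lit 2218) (S (nat_lit 2214) (L (nat_lit 753933))
(L (nat_lit 112327)))
(L (nat_lit 79159)))
(L (nat_lit 606404)))))
(S (nat_lit 2798) (S (nat_lit 1303) (S (nat_lit 2636) (S (nat_lit 593) (L (nat_lit 704521))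
(L (nat_lit 89608)))
(S (nat_lit 2689) (S (nat_lit 3680) (L (nat_lit 264849))
(L (nat_lit 81235)))
(L (nat_lit 384546))))
(S (nat_lit 3517) (S (nat_lit 593) (L (nat_lit 558292))
(L (nat_lit 416963)))
(S (nat_lit 5731) (S (nat_lit 0) (S (nat_lit 4904) (L (nat_lit 754989))
(L (nat_lit 478469)))
(S (nat_lit 1111) (L (nat_lit 107028))
(L (nat_lit 444608))))
(L (nat_lit 594343)))))
(S (nat_lit 5012) (S (nat_lit 1497) (L (nat_lit 114899))
(S (nat_lit 2214) (S (nat_lit 473) (S (nat_lit 3687) (L (nat_lit 513126))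
(L (nat_lit 117126)))
(S (nat_lit 4850) (S (nat_lit 4859) (S (nat_lit 1141) (S (nat_lit 2027) (L (nat_lit 177394))
(L (nat_lit 511265)))
(L (nat_lit 281676)))
(L (nat_lit 311936)))
(L (nat_lit 525959))))
(S (nat_lit 2349) (S (nat_lit 1521) (L (nat_lit 501813))
(L (nat_lit 767015)))
(L (nat_lit 112262)))))
(L (nat_lit 604264)))))
(S (nat_lit 5177) (S (nat_lit 1303) (S (nat_lit 1483) (S (nat_lit 1416) (L (nat_lit 307874))
(S (nat_lit 4436) (S (nat_lit 740) (S (nat_lit 1482) (S (nat_lit 5165) (S (nat_lit 1302) (L (nat_lit 737353))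
(L (nat_lit 468676)))
(L (nat_lit 513348)))
(S (nat_lit 3696) (S (nat_lit 6458) (S (nat_lit 3680) (S (nat_lit 2957) (L (nat_lit 140755))
(L (nat_lit 107925)))
(L (nat_lit 280164)))
(L (nat_lit 402612)))
(S (nat_lit 5910) (S (nat_lit 1473) (S (nat_lit 2030) (S (nat_lit 743) (L (nat_lit 173554))
(L (nat_lit 20875)))
(L (nat_lit 575809)))
(L (nat_lit 577857)))
(L (nat_lit 600448)))))
(S (nat_lit 6514) (L (nat_lit 430355))
(L (nat_lit 632260))))
(L (nat_lit 138802))))
(S (nat_lit 3697) (S (nat_lit 2030) (S (nat_lit 602) (S (nat_lit 2951) (S (nat_lit 2163) (L (nat_lit 119057))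
(L (nat_lit 212643)))
(L (nat_lit 760973)))
(S (nat_lit 743) (S (nat_lit 5568) (L (nat_lit 246962))
(L (nat_lit 80183)))
(L (nat_lit 468087))))
(S (nat_lit 4244) (S (nat_lit 752) (S (nat_lit 4082) (S (nat_lit 2951) (L (nat_lit 183753))
(L (nat_lit 113322)))
(L (nat_lit 214752)))
(S (nat_lit 5705) (S (nat_lit 5894) (S (nat_lit 1482) (L (nat_lit 171692))
(L (nat_lit 501906)))
(L (nat_lit 343685)))
(L (nat_lit 11919))))
(S (nat_lit 6458) (S (nat_lit 5168) (S (nat_lit 1489) (L (nat_lit 115272))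
(S (nat_lit 4850) (S (nat_lit 4859) (S (nat_lit 3696) (S (nat_lit 3687) (S (nat_lit 2027) (S (nat_lit 4436) (S (nat_lit 1140) (S (nat_lit 1141) (S (nat_lit 1688) (S (nat_lit 2021) (S (nat_lit 6190) (S (nat_lit 4460) (S (nat_lit 3062) (S (nat_lit 404) (S (nat_lit 5459) (S (nat_lit 3410) (D (nat_lit 12) (nat_lit 468706) (nat_lit 515078) (nat_lit 0))
(L (nat_lit 669892)))
(L (nat_lit 737635)))
(L (nat_lit 760880)))
(L (nat_lit 700555)))
(L (nat_lit 399380)))
(L (nat_lit 725446)))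
(L (nat_lit 761934)))
(S (nat_lit 6158) (S (nat_lit 6514) (S (nat_lit 3005) (S (nat_lit 5783) (S (nat_lit 4865) (S (nat_lit 2433) (S (nat_lit 4037) (S (nat_lit 1778) (D (nat_lit 12) (nat_lit 470754) (nat_lit 318881) (nat_lit 0))
(L (nat_lit 251982)))
(L (nat_lit 694286)))
(L (nat_lit 664032)))
(L (nat_lit 688616)))
(L (nat_lit 580834)))
(L (nat_lit 657898)))
(L (nat_lit 738564)))
(L (nat_lit 74412))))
(L (nat_lit 630796)))
(L (nat_lit 477192)))
(L (nat_lit 384517)))
(S (nat_lit 4108) (L (nat_lit 8726))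
(L (nat_lit 640134))))
(L (nat_lit 528038)))
(L (nat_lit 530086)))
(L (nat_lit 673056)))
(L (nat_lit 310356))))
(L (nat_lit 435218)))
(L (nat_lit 601507)))))
(S (nat_lit 5911) (S (nat_lit 2777) (L (nat_lit 183750))
(S (nat_lit 2954) (S (nat_lit 619) (L (nat_lit 143700))
(S (nat_lit 4436) (S (nat_lit 2030) (S (nat_lit 5910) (S (nat_lit 593) (S (nat_lit 2636) (S (nat_lit 4396) (L (nat_lit 148723))
(L (nat_lit 699843)))
(L (nat_lit 384512)))
(L (nat_lit 384513)))
(L (nat_lit 340149)))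
(S (nat_lit 4244) (S (nat_lit 1482) (S (nat_lit 5901) (S (nat_lit 5165) (S (nat_lit 584) (S (nat_lit 2807) (S (nat_lit 2095) (S (nat_lit 2649) (S (nat_lit 4128) (S (nat_lit 2202) (S (nat_lit 777) (D (nat_lit 18) (nat_lit 434880) (nat_lit 511168) (nat_lit 0))
(L (nat_lit 300718)))
(L (nat_lit 411968)))
(L (nat_lit 468581)))
(L (nat_lit 547013)))
(L (nat_lit 479429)))
(L (nat_lit 760353)))
(L (nat_lit 315937)))
(L (nat_lit 497844)))
(L (nat_lit 481633)))
(L (nat_lit 514182)))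
(S (nat_lit 6458) (S (nat_lit 3655) (L (nat_lit 41524))
(S (nat_lit 5730) (S (nat_lit 2798) (S (nat_lit 5021) (L (nat_lit 186700))
(L (nat_lit 575683)))
(L (nat_lit 510147)))
(L (nat_lit 220208))))
(L (nat_lit 601603)))))
(L (nat_lit 170516))))
(L (nat_lit 74195))))
(L (nat_lit 594253)))))
(S (nat_lit 3517) (S (nat_lit 0) (S (nat_lit 2248) (S (nat_lit 6458) (L (nat_lit 731616))
(L (nat_lit 470627)))
(S (nat_lit 4436) (L (nat_lit 149777))
(L (nat_lit 340146))))
(S (nat_lit 2214) (S (nat_lit 2966) (S (nat_lit 4073) (L (nat_lit 183753))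
(L (nat_lit 733376)))
(L (nat_lit 266829)))
(S (nat_lit 4428) (S (nat_lit 1731) (L (nat_lit 281059))
(S (nat_lit 5695) (L (nat_lit 45334))
(L (nat_lit 542826))))
(L (nat_lit 596352)))))
(S (nat_lit 5731) (S (nat_lit 1473) (S (nat_lit 2218) (S (nat_lit 1868) (S (nat_lit 2798) (S (nat_lit 2222) (S (nat_lit 2807) (L (nat_lit 693520))
(L (nat_lit 185894)))
(L (nat_lit 285220)))
(L (nat_lit 510211)))
(L (nat_lit 510087)))
(L (nat_lit 274546)))
(S (nat_lit 3687) (S (nat_lit 2954) (L (nat_lit 85482))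
(S (nat_lit 3467) (S (nat_lit 4971) (L (nat_lit 149740))
(L (nat_lit 495959)))
(L (nat_lit 281093))))
(S (nat_lit 5901) (S (nat_lit 4082) (S (nat_lit 4428) (L (nat_lit 149994))
(L (nat_lit 667686)))
(L (nat_lit 446816)))
(L (nat_lit 592262)))))
(L (nat_lit 599089)))))
(L (nat_lit 594127)))))
(S (nat_lit 4429) (S (nat_lit 0) (S (nat_lit 740) (S (nat_lit 1473) (S (nat_lit 1466) (S (nat_lit 1868) (S (nat_lit 2218) (L (nat_lit 13556))
(L (nat_lit 754958)))
(L (nat_lit 576866)))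
(L (nat_lit 51659)))
(S (nat_lit 3687) (S (nat_lit 1483) (L (nat_lit 18857))
(L (nat_lit 635234)))
(S (nat_lit 5901) (S (nat_lit 1868) (S (nat_lit 3516) (S (nat_lit 743) (L (nat_lit 412713))
(L (nat_lit 631172)))
(L (nat_lit 402486)))
(S (nat_lit 6260) (L (nat_lit 437857))
(L (nat_lit 575527))))
(L (nat_lit 592327)))))
(S (nat_lit 2954) (S (nat_lit 1303) (S (nat_lit 2984) (S (nat_lit 2957) (L (nat_lit 137715))
(L (nat_lit 286244)))
(S (nat_lit 5180) (S (nat_lit 2798) (S (nat_lit 5177) (S (nat_lit 1868) (S (nat_lit 5916) (L (nat_lit 345108))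
(L (nat_lit 152998)))
(L (nat_lit 347650)))
(L (nat_lit 668900)))
(L (nat_lit 179814)))
(L (nat_lit 379268))))
(S (nat_lit 3517) (S (nat_lit 5730) (S (nat_lit 5021) (L (nat_lit 46452))
(L (nat_lit 215088)))
(L (nat_lit 220206)))
(S (nat_lit 5731) (S (nat_lit 2957) (S (nat_lit 6458) (L (nat_lit 461418))
(L (nat_lit 416774)))
(S (nat_lit 5153) (L (nat_lit 266706))
(L (nat_lit 117005))))
(L (nat_lit 599089)))))
(S (nat_lit 5168) (S (nat_lit 1473) (S (nat_lit 5569) (S (nat_lit 4244) (L (nat_lit 180806))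
(L (nat_lit 435219)))
(L (nat_lit 658673)))
(S (nat_lit 3687) (S (nat_lit 3355) (S (nat_lit 1868) (S (nat_lit 3680) (L (nat_lit 445635))
(L (nat_lit 532069)))
(L (nat_lit 281644)))
(L (nat_lit 402081)))
(S (nat_lit 5901) (S (nat_lit 2798) (S (nat_lit 5165) (S (nat_lit 4432) (S (nat_lit 5180) (S (nat_lit 2645) (S (nat_lit 5177) (S (nat_lit 2222) (S (nat_lit 3354) (S (nat_lit 1303) (S (nat_lit 2807) (S (nat_lit 2636) (S (nat_lit 2030) (S (nat_lit 1457) (S (nat_lit 4035) (S (nat_lit 1654) (S (nat_lit 3001) (S (nat_lit 1978) (S (nat_lit 4032) (S (nat_lit 4490) (S (nat_lit 377) (D (nat_lit 12) (nat_lit 560403) (nat_lit 515330) (nat_lit 0))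
(L (nat_lit 663075)))
(L (nat_lit 734531)))
(L (nat_lit 701700)))
(L (nat_lit 688522)))
(L (nat_lit 199404)))
(L (nat_lit 694660)))
(L (nat_lit 701636)))
(S (nat_lit 4458) (S (nat_lit 2355) (S (nat_lit 852) (S (nat_lit 5478) (S (nat_lit 3247) (S (nat_lit 4353) (S (nat_lit 3620) (S (nat_lit 6083) (D (nat_lit 12) (nat_lit 533526) (nat_lit 381997) (nat_lit 0))
(L (nat_lit 696773)))
(L (nat_lit 217536)))
(L (nat_lit 479429)))
(L (nat_lit 669925)))
(L (nat_lit 400503)))
(L (nat_lit 700518)))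
(L (nat_lit 400035)))
(L (nat_lit 766982))))
(L (nat_lit 297644)))
(L (nat_lit 470688)))
(L (nat_lit 511235)))
(L (nat_lit 379948)))
(L (nat_lit 364206)))
(L (nat_lit 761348)))
(L (nat_lit 341669)))
(L (nat_lit 466528)))
(L (nat_lit 341605)))
(L (nat_lit 328150)))
(L (nat_lit 329202)))
(L (nat_lit 182822)))
(L (nat_lit 592239)))))
(L (nat_lit 602340)))))
(S (nat_lit 2214) (S (nat_lit 2027) (S (nat_lit 32) (L (nat_lit 84457))
(S (nat_lit 947) (S (nat_lit 1499) (L (nat_lit 13686))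
(L (nat_lit 311414)))
(S (nat_lit 2218) (S (nat_lit 1839) (S (nat_lit 1141) (S (nat_lit 2271) (L (nat_lit 660849))
(L (nat_lit 241846)))
(L (nat_lit 117036)))
(S (nat_lit 4850) (S (nat_lit 5730) (S (nat_lit 593) (S (nat_lit 5911) (S (nat_lit 6458) (S (nat_lit 743) (S (nat_lit 1141) (S (nat_lit 2951) (S (nat_lit 6279) (S (nat_lit 807) (S (nat_lit 4393) (S (nat_lit 2077) (S (nat_lit 1343) (D (nat_lit 18) (nat_lit 562919) (nat_lit 414945) (nat_lit 0))
(L (nat_lit 689608)))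
(L (nat_lit 427220)))
(L (nat_lit 404502)))
(L (nat_lit 437952)))
(L (nat_lit 722312)))
(L (nat_lit 311477)))
(L (nat_lit 543750)))
(L (nat_lit 214135)))
(L (nat_lit 120232)))
(L (nat_lit 469634)))
(L (nat_lit 449795)))
(L (nat_lit 278583)))
(L (nat_lit 299538))))
(L (nat_lit 73175)))))
(S (nat_lit 4241) (S (nat_lit 2089) (L (nat_lit 529682))
(S (nat_lit 2966) (S (nat_lit 2636) (S (nat_lit 5177) (S (nat_lit 5569) (S (nat_lit 2030) (S (nat_lit 2218) (L (nat_lit 277588))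
(L (nat_lit 754958)))
(L (nat_lit 378892)))
(L (nat_lit 665612)))
(L (nat_lit 346157)))
(S (nat_lit 5107) (S (nat_lit 65) (L (nat_lit 144968))
(L (nat_lit 342070)))
(L (nat_lit 768290))))
(L (nat_lit 267853))))
(S (nat_lit 6455) (S (nat_lit 1466) (S (nat_lit 740) (S (nat_lit 838) (L (nat_lit 8782))
(L (nat_lit 564832)))
(L (nat_lit 232919)))
(S (nat_lit 3680) (S (nat_lit 1039) (S (nat_lit 6441) (S (nat_lit 3696) (L (nat_lit 48371))
(L (nat_lit 78502)))
(L (nat_lit 431383)))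
(S (nat_lit 2636) (L (nat_lit 148818))
(L (nat_lit 759889))))
(S (nat_lit 5894) (S (nat_lit 2694) (L (nat_lit 75409))
(S (nat_lit 5730) (S (nat_lit 1303) (S (nat_lit 2218) (L (nat_lit 729602))
(L (nat_lit 767234)))
(L (nat_lit 461076)))
(L (nat_lit 54761))))
(L (nat_lit 591242)))))
(L (nat_lit 592360)))))
(S (nat_lit 4428) (S (nat_lit 1483) (S (nat_lit 4) (S (nat_lit 4859) (S (nat_lit 1482) (S (nat_lit 584) (L (nat_lit 262895))
(L (nat_lit 447745)))
(L (nat_lit 43475)))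
(L (nat_lit 575561)))
(S (nat_lit 2218) (S (nat_lit 5730) (S (nat_lit 431) (L (nat_lit 622984))
(L (nat_lit 403170)))
(L (nat_lit 665058)))
(S (nat_lit 4432) (S (nat_lit 3070) (L (nat_lit 176498))
(S (nat_lit 6087) (L (nat_lit 578915))
(L (nat_lit 341079))))
(L (nat_lit 602403)))))
(S (nat_lit 3697) (S (nat_lit 4) (S (nat_lit 3696) (S (nat_lit 3687) (S (nat_lit 4082) (S (nat_lit 4850) (S (nat_lit 1303) (S (nat_lit 6458) (L (nat_lit 463155))
(L (nat_lit 403041)))
(L (nat_lit 529095)))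
(L (nat_lit 546887)))
(S (nat_lit 4787) (S (nat_lit 1141) (L (nat_lit 174767))
(L (nat_lit 107217)))
(L (nat_lit 436800))))
(L (nat_lit 281024)))
(L (nat_lit 282048)))
(S (nat_lit 2218) (S (nat_lit 1243) (L (nat_lit 318544))
(S (nat_lit 2027) (S (nat_lit 584) (S (nat_lit 593) (L (nat_lit 117008))
(L (nat_lit 83222)))
(L (nat_lit 81174)))
(L (nat_lit 566883))))
(S (nat_lit 4432) (S (nat_lit 2728) (S (nat_lit 2645) (L (nat_lit 758247))
(L (nat_lit 761376)))
(S (nat_lit 4458) (S (nat_lit 5177) (S (nat_lit 5168) (L (nat_lit 278240))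
(L (nat_lit 339988)))
(L (nat_lit 341010)))
(L (nat_lit 144695))))
(L (nat_lit 596451)))))
(S (nat_lit 5911) (S (nat_lit 1466) (S (nat_lit 5171) (S (nat_lit 5910) (S (nat_lit 2807) (S (nat_lit 5165) (S (nat_lit 2030) (L (nat_lit 721419))
(L (nat_lit 314540)))
(L (nat_lit 663013)))
(L (nat_lit 499765)))
(L (nat_lit 346496)))
(L (nat_lit 664965)))
(S (nat_lit 3680) (S (nat_lit 5171) (S (nat_lit 4) (L (nat_lit 170455))
(L (nat_lit 433794)))
(L (nat_lit 664653)))
(S (nat_lit 5894) (S (nat_lit 5910) (S (nat_lit 2798) (S (nat_lit 6361) (L (nat_lit 445633))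
(L (nat_lit 344246)))
(L (nat_lit 351779)))
(S (nat_lit 6099) (L (nat_lit 18953))
(L (nat_lit 346560))))
(L (nat_lit 596142)))))
(L (nat_lit 601264)))))
(L (nat_lit 603360)))))
(L (nat_lit 597379)))))

theorem ra14_1 : run 3 la14 [] ta14_1 ka14 (P4 3 3 623 502 623 0 0 1 0) [] = true := by
  decide +kernel

end Pool.Agent.MP_92191b_al.K3.E
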