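import Pool.Agent.MP_92191b_al.K3.CR0

/-! Refutation trees. -/

namespace Pool.Agent.MP_92191b_al.K3.E

open Tr

set_option maxRecDepth 100000

noncomputable def tb80_1 : Tr :=
(S (nat_lit 17033) (S (nat_lit 7355) (S (nat_lit 9751) (S (nat_lit 1) (S (nat_lit 8045) (S (nat_lit 17018) (S (nat_lit 5285) (L (nat_lit 12372450))
(S (nat_lit 8998) (S (nat_lit 14483) (L (nat_lit 1680829))
(S (nat_lit 16337) (S (nat_lit 4910) (S (nat_lit 6323) (S (nat_lit 4901) (S (nat_lit 17030) (S (nat_lit 52711) (L (nat_lit 5694711))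
(L (nat_lit 27795011)))
(L (nat_lit 4891101)))
(L (nat_lit 15868759)))
(L (nat_lit 10275234)))
(L (nat_lit 6446525)))
(L (nat_lit 5159657))))
(L (nat_lit 8131063))))
(S (nat_lit 36782) (S (nat_lit 27116) (S (nat_lit 58273) (S (nat_lit 12165) (L (nat_lit 26598413))
(L (nat_lit 21774627)))
(L (nat_lit 14839030)))
(L (nat_lit 12060469)))
(S (nat_lit 56546) (S (nat_lit 13183) (S (nat_lit 42028) (S (nat_lit 40286) (L (nat_lit 4894141))
(L (nat_lit 23441466)))
(L (nat_lit 1847669)))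
(S (nat_lit 52121) (L (nat_lit 26395861))
(L (nat_lit 548776))))
(L (nat_lit 25868547)))))
(S (nat_lit 27809) (S (nat_lit 7352) (S (nat_lit 6320) (S (nat_lit 48526) (L (nat_lit 22178216))
(L (nat_lit 13832825)))
(L (nat_lit 26790056)))
(S (nat_lit 27116) (S (nat_lit 12174) (S (nat_lit 46886) (L (nat_lit 6439731))
(L (nat_lit 17074995)))
(L (nat_lit 11292101)))
(S (nat_lit 46880) (S (nat_lit 3166) (S (nat_lit 12174) (S (nat_lit 761) (L (nat_lit 29827189))
(L (nat_lit 26587781)))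
(L (nat_lit 9227653)))
(S (nat_lit 44565) (L (nat_lit 16917149))
(L (nat_lit 26839281))))
(L (nat_lit 25407637)))))
(S (nat_lit 47573) (S (nat_lit 8998) (S (nat_lit 17018) (S (nat_lit 4910) (S (nat_lit 52711) (S (nat_lit 17024) (S (nat_lit 12174) (L (nat_lit 9585426))
(L (nat_lit 16536803)))
(L (nat_lit 24921315)))
(L (nat_lit 4746825)))
(L (nat_lit 15883581)))
(L (nat_lit 17474620)))
(S (nat_lit 28762) (S (nat_lit 12165) (S (nat_lit 39266) (S (nat_lit 17024) (L (nat_lit 4894106))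
(L (nat_lit 17616040)))
(L (nat_lit 17617928)))
(L (nat_lit 3949224)))
(S (nat_lit 48526) (S (nat_lit 6323) (S (nat_lit 23696) (L (nat_lit 23860432))
(L (nat_lit 8144611)))
(L (nat_lit 20726920)))
(L (nat_lit 25891180)))))
(L (nat_lit 25826856)))))
(S (nat_lit 19765) (S (nat_lit 16340) (S (nat_lit 4895) (S (nat_lit 52441) (S (nat_lit 12174) (S (nat_lit 19764) (L (nat_lit 28525591))
(L (nat_lit 21831041)))
(L (nat_lit 26706536)))
(L (nat_lit 20458524)))
(S (nat_lit 43883) (L (nat_lit 26326726))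
(L (nat_lit 26363222))))
(S (nat_lit 36104) (S (nat_lit 2508) (S (nat_lit 16337) (S (nat_lit 32677) (L (nat_lit 15068183))
(L (nat_lit 17029144)))
(L (nat_lit 15606499)))
(S (nat_lit 22272) (S (nat_lit 3932) (S (nat_lit 45197) (S (nat_lit 19502) (L (nat_lit 20230172))
(L (nat_lit 26432898)))
(L (nat_lit 14772471)))
(L (nat_lit 17442940)))
(S (nat_lit 42036) (S (nat_lit 12158) (L (nat_lit 11682611))
(L (nat_lit 26945922)))
(L (nat_lit 25276110)))))
(S (nat_lit 55868) (S (nat_lit 7358) (S (nat_lit 46725) (L (nat_lit 637304))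
(S (nat_lit 54150) (S (nat_lit 20525) (S (nat_lit 21282) (S (nat_lit 17024) (L (nat_lit 7111061))
(L (nat_lit 16935154)))
(L (nat_lit 11029281)))
(L (nat_lit 3067337)))
(L (nat_lit 21215421))))
(S (nat_lit 27122) (S (nat_lit 19767) (S (nat_lit 45851) (S (nat_lit 26084) (L (nat_lit 4453842))
(L (nat_lit 17156219)))
(L (nat_lit 15297760)))
(S (nat_lit 56450) (L (nat_lit 22158095))
(L (nat_lit 2542502))))
(S (nat_lit 46886) (S (nat_lit 16337) (S (nat_lit 25433) (S (nat_lit 12174) (S (nat_lit 34387) (S (nat_lit 29512) (L (nat_lit 29499959))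
(L (nat_lit 19675461)))
(L (nat_lit 15313763)))
(L (nat_lit 21767183)))
(L (nat_lit 30727182)))
(L (nat_lit 17702994)))
(L (nat_lit 25419236)))))
(L (nat_lit 25215186)))))
(S (nat_lit 39529) (S (nat_lit 14623) (S (nat_lit 758) (S (nat_lit 6590) (S (nat_lit 15605) (S (nat_lit 761) (L (nat_lit 4041361))
(L (nat_lit 12659543)))
(L (nat_lit 17639476)))
(S (nat_lit 46037) (L (nat_lit 2581750))
(L (nat_lit 26673365))))
(S (nat_lit 20522) (S (nat_lit 45848) (S (nat_lit 3941) (L (nat_lit 28428710))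
(L (nat_lit 17461288)))
(L (nat_lit 27643362)))
(S (nat_lit 40286) (S (nat_lit 11501) (S (nat_lit 55133) (S (nat_lit 12174) (S (nat_lit 36788) (L (nat_lit 29499828))
(L (nat_lit 31104015)))
(L (nat_lit 18652180)))
(L (nat_lit 14567466)))
(L (nat_lit 21067147)))
(L (nat_lit 25644293)))))
(S (nat_lit 34387) (S (nat_lit 17024) (S (nat_lit 31929) (S (nat_lit 13868) (S (nat_lit 17030) (L (nat_lit 9277071))
(L (nat_lit 9982109)))
(L (nat_lit 11327664)))
(L (nat_lit 16900776)))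
(S (nat_lit 36788) (S (nat_lit 28738) (L (nat_lit 4770694))
(S (nat_lit 39528) (S (nat_lit 4910) (L (nat_lit 23210895))
(L (nat_lit 20084012)))
(L (nat_lit 4846828))))
(S (nat_lit 56552) (S (nat_lit 21282) (S (nat_lit 16337) (L (nat_lit 22950115))
(L (nat_lit 17378081)))
(L (nat_lit 11029281)))
(L (nat_lit 25544291)))))
(S (nat_lit 54151) (S (nat_lit 4898) (S (nat_lit 31265) (S (nat_lit 7367) (S (nat_lit 15605) (L (nat_lit 26844578))
(L (nat_lit 17428803)))
(L (nat_lit 8541660)))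
(L (nat_lit 17425762)))
(S (nat_lit 24662) (S (nat_lit 46880) (S (nat_lit 10505) (S (nat_lit 46892) (L (nat_lit 10646092))
(L (nat_lit 27401873)))
(L (nat_lit 9865948)))
(S (nat_lit 47285) (L (nat_lit 23863845))
(L (nat_lit 4729685))))
(S (nat_lit 44426) (S (nat_lit 857) (L (nat_lit 14722931))
(S (nat_lit 10508) (S (nat_lit 15605) (S (nat_lit 2492) (S (nat_lit 33641) (L (nat_lit 630671))
(L (nat_lit 14961509)))
(L (nat_lit 26658859)))
(L (nat_lit 15411260)))
(L (nat_lit 12226972))))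
(L (nat_lit 25830946)))))
(L (nat_lit 25901194)))))
(L (nat_lit 25212116)))))
(S (nat_lit 29515) (S (nat_lit 0) (S (nat_lit 17987) (S (nat_lit 17018) (S (nat_lit 8998) (S (nat_lit 52711) (S (nat_lit 13877) (S (nat_lit 59023) (S (nat_lit 4910) (L (nat_lit 4823453))
(L (nat_lit 16014396)))
(L (nat_lit 21433660)))
(L (nat_lit 24462493)))
(S (nat_lit 53548) (L (nat_lit 21052796))
(L (nat_lit 11687484))))
(S (nat_lit 28843) (L (nat_lit 4416951))
(L (nat_lit 26680434))))
(S (nat_lit 27397) (L (nat_lit 22162845))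
(L (nat_lit 26367398))))
(S (nat_lit 37751) (S (nat_lit 7352) (S (nat_lit 17984) (S (nat_lit 52711) (S (nat_lit 51702) (L (nat_lit 8029969))
(L (nat_lit 13265189)))
(L (nat_lit 12202172)))
(S (nat_lit 39723) (L (nat_lit 13703988))
(L (nat_lit 26385970))))
(S (nat_lit 27116) (S (nat_lit 6950) (L (nat_lit 15407909))
(S (nat_lit 58273) (S (nat_lit 54150) (S (nat_lit 32946) (S (nat_lit 30272) (L (nat_lit 13787046))
(L (nat_lit 18667528)))
(L (nat_lit 23600928)))
(L (nat_lit 21217025)))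
(L (nat_lit 19404028))))
(S (nat_lit 46880) (S (nat_lit 54151) (S (nat_lit 41046) (L (nat_lit 4451917))
(L (nat_lit 24315661)))
(L (nat_lit 17410236)))
(L (nat_lit 25690793)))))
(S (nat_lit 57515) (S (nat_lit 4895) (S (nat_lit 16370) (L (nat_lit 26579535))
(S (nat_lit 17018) (S (nat_lit 42028) (S (nat_lit 18901) (L (nat_lit 9594423))
(L (nat_lit 12968673)))
(L (nat_lit 24503712)))
(L (nat_lit 12083105))))
(S (nat_lit 24659) (S (nat_lit 28762) (L (nat_lit 551218))
(L (nat_lit 12656434)))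
(S (nat_lit 44423) (S (nat_lit 45197) (S (nat_lit 55133) (L (nat_lit 19304200))
(L (nat_lit 12455410)))
(L (nat_lit 15490272)))
(L (nat_lit 25214699)))))
(L (nat_lit 25353486)))))
(S (nat_lit 19764) (S (nat_lit 12166) (S (nat_lit 14632) (S (nat_lit 49100) (L (nat_lit 26968396))
(L (nat_lit 8942305)))
(S (nat_lit 34396) (S (nat_lit 20522) (S (nat_lit 45197) (L (nat_lit 7243154))
(L (nat_lit 12609847)))
(L (nat_lit 2597783)))
(S (nat_lit 54160) (S (nat_lit 34379) (S (nat_lit 8998) (L (nat_lit 5725958))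
(L (nat_lit 26302888)))
(L (nat_lit 2582738)))
(L (nat_lit 25792782)))))
(S (nat_lit 31930) (S (nat_lit 39259) (S (nat_lit 25433) (S (nat_lit 20522) (S (nat_lit 45848) (L (nat_lit 30553332))
(L (nat_lit 15275878)))
(L (nat_lit 30624785)))
(L (nat_lit 1880375)))
(L (nat_lit 16799037)))
(S (nat_lit 51694) (S (nat_lit 12175) (S (nat_lit 17018) (S (nat_lit 8998) (S (nat_lit 4895) (S (nat_lit 36794) (S (nat_lit 57515) (S (nat_lit 56552) (S (nat_lit 3932) (L (nat_lit 3527066))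
(L (nat_lit 17470684)))
(L (nat_lit 9293185)))
(L (nat_lit 12050306)))
(L (nat_lit 23148422)))
(L (nat_lit 26876290)))
(L (nat_lit 26679410)))
(L (nat_lit 12337266)))
(S (nat_lit 31939) (S (nat_lit 39262) (S (nat_lit 33641) (S (nat_lit 39266) (L (nat_lit 4812167))
(L (nat_lit 31079430)))
(L (nat_lit 2376498)))
(L (nat_lit 4801789)))
(S (nat_lit 51703) (S (nat_lit 19767) (S (nat_lit 39266) (S (nat_lit 17024) (S (nat_lit 19768) (S (nat_lit 17018) (S (nat_lit 51686) (S (nat_lit 38509) (L (nat_lit 26430947))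
(L (nat_lit 23521508)))
(L (nat_lit 22604807)))
(L (nat_lit 10207357)))
(L (nat_lit 8843348)))
(L (nat_lit 10276227)))
(L (nat_lit 20146560)))
(L (nat_lit 2963078)))
(L (nat_lit 25507858)))))
(L (nat_lit 25746724)))))
(S (nat_lit 39528) (S (nat_lit 2509) (S (nat_lit 6590) (S (nat_lit 17018) (S (nat_lit 8998) (S (nat_lit 761) (L (nat_lit 3688701))
(L (nat_lit 19343485)))
(L (nat_lit 15505522)))
(L (nat_lit 17542268)))
(S (nat_lit 26354) (S (nat_lit 19502) (S (nat_lit 20522) (L (nat_lit 19661222))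
(L (nat_lit 21935365)))
(L (nat_lit 24587293)))
(S (nat_lit 46118) (S (nat_lit 53405) (S (nat_lit 17018) (S (nat_lit 15605) (S (nat_lit 39262) (L (nat_lit 6077812))
(L (nat_lit 20385117)))
(L (nat_lit 4598674)))
(L (nat_lit 17540157)))
(L (nat_lit 5163249)))
(L (nat_lit 25926020)))))
(S (nat_lit 22273) (S (nat_lit 17024) (S (nat_lit 4910) (S (nat_lit 4901) (S (nat_lit 4907) (S (nat_lit 27809) (S (nat_lit 27800) (S (nat_lit 21282) (L (nat_lit 26238502))
(L (nat_lit 2648274)))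
(L (nat_lit 19311461)))
(L (nat_lit 24549224)))
(L (nat_lit 17967741)))
(L (nat_lit 17977661)))
(L (nat_lit 18524317)))
(S (nat_lit 36788) (S (nat_lit 8045) (S (nat_lit 4895) (S (nat_lit 56558) (L (nat_lit 29514122))
(L (nat_lit 27412936)))
(L (nat_lit 3459485)))
(S (nat_lit 22332) (L (nat_lit 15401832))
(L (nat_lit 14381222))))
(S (nat_lit 56552) (S (nat_lit 10508) (S (nat_lit 8998) (S (nat_lit 38509) (L (nat_lit 24265976))
(L (nat_lit 31046662)))
(L (nat_lit 17458216)))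
(L (nat_lit 17732328)))
(L (nat_lit 25864739)))))
(S (nat_lit 42037) (S (nat_lit 4895) (S (nat_lit 17018) (S (nat_lit 31930) (S (nat_lit 42036) (S (nat_lit 12912) (S (nat_lit 55868) (S (nat_lit 44429) (L (nat_lit 29828739))
(L (nat_lit 23999530)))
(L (nat_lit 14486119)))
(L (nat_lit 9986134)))
(L (nat_lit 11982973)))
(L (nat_lit 12256669)))
(S (nat_lit 50421) (L (nat_lit 24904102))
(L (nat_lit 2868102))))
(S (nat_lit 24659) (S (nat_lit 2499) (S (nat_lit 47573) (L (nat_lit 12725106))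
(L (nat_lit 17747112)))
(L (nat_lit 15067874)))
(S (nat_lit 44423) (S (nat_lit 6320) (S (nat_lit 42036) (S (nat_lit 17030) (L (nat_lit 10630930))
(L (nat_lit 16915133)))
(L (nat_lit 11583195)))
(L (nat_lit 12338358)))
(L (nat_lit 25824715)))))
(L (nat_lit 25681000)))))
(L (nat_lit 25178695)))))
(S (nat_lit 49279) (S (nat_lit 14631) (S (nat_lit 17987) (S (nat_lit 12174) (S (nat_lit 11492) (S (nat_lit 3) (S (nat_lit 0) (S (nat_lit 7358) (L (nat_lit 24359808))
(L (nat_lit 11189372)))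
(L (nat_lit 7097356)))
(L (nat_lit 20755745)))
(S (nat_lit 48259) (S (nat_lit 50033) (L (nat_lit 22578428))
(L (nat_lit 20418872)))
(L (nat_lit 26910732))))
(S (nat_lit 31938) (S (nat_lit 36101) (S (nat_lit 24662) (S (nat_lit 758) (S (nat_lit 6320) (S (nat_lit 51029) (L (nat_lit 14832955))
(L (nat_lit 13391200)))
(L (nat_lit 11657719)))
(L (nat_lit 26714135)))
(L (nat_lit 13915010)))
(S (nat_lit 39096) (L (nat_lit 21499132))
(L (nat_lit 13175689))))
(S (nat_lit 51702) (S (nat_lit 19494) (S (nat_lit 19764) (L (nat_lit 26367215))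
(L (nat_lit 8979868)))
(S (nat_lit 22046) (L (nat_lit 29892725))
(L (nat_lit 26694949))))
(L (nat_lit 25723126)))))
(S (nat_lit 37751) (S (nat_lit 758) (S (nat_lit 4895) (S (nat_lit 22264) (S (nat_lit 1518) (L (nat_lit 26610034))
(L (nat_lit 26790080)))
(L (nat_lit 745897)))
(S (nat_lit 44072) (L (nat_lit 26266027))
(L (nat_lit 26352366))))
(S (nat_lit 20522) (S (nat_lit 58273) (S (nat_lit 31930) (S (nat_lit 8045) (L (nat_lit 26939629))
(L (nat_lit 10241173)))
(L (nat_lit 1721131)))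
(L (nat_lit 10273814)))
(S (nat_lit 40286) (S (nat_lit 17018) (S (nat_lit 49275) (S (nat_lit 43469) (L (nat_lit 3030327))
(L (nat_lit 14458935)))
(L (nat_lit 14459522)))
(S (nat_lit 31555) (L (nat_lit 12335123))
(L (nat_lit 9966482))))
(L (nat_lit 25833796)))))
(S (nat_lit 57515) (S (nat_lit 1519) (S (nat_lit 4895) (S (nat_lit 24662) (S (nat_lit 36101) (S (nat_lit 52441) (L (nat_lit 29474130))
(L (nat_lit 27411735)))
(L (nat_lit 12140633)))
(L (nat_lit 14288779)))
(S (nat_lit 44342) (S (nat_lit 758) (L (nat_lit 15011602))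
(L (nat_lit 14016534)))
(L (nat_lit 26744918))))
(S (nat_lit 21283) (S (nat_lit 29519) (S (nat_lit 36101) (S (nat_lit 3166) (L (nat_lit 28545647))
(L (nat_lit 26290929)))
(L (nat_lit 7125731)))
(L (nat_lit 12593973)))
(S (nat_lit 41047) (S (nat_lit 17018) (S (nat_lit 17030) (S (nat_lit 49275) (L (nat_lit 15889684))
(L (nat_lit 1876622)))
(L (nat_lit 14829884)))
(L (nat_lit 26760451)))
(L (nat_lit 25428686)))))
(L (nat_lit 25927170)))))
(S (nat_lit 34395) (S (nat_lit 3) (S (nat_lit 3941) (S (nat_lit 10505) (S (nat_lit 14632) (S (nat_lit 10508) (S (nat_lit 4901) (L (nat_lit 4576113))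
(L (nat_lit 26747520)))
(L (nat_lit 2612070)))
(L (nat_lit 26853635)))
(L (nat_lit 2734888)))
(S (nat_lit 23705) (S (nat_lit 21282) (S (nat_lit 12175) (S (nat_lit 7367) (S (nat_lit 12165) (L (nat_lit 7129105))
(L (nat_lit 11323845)))
(L (nat_lit 26353233)))
(L (nat_lit 18631905)))
(L (nat_lit 7884577)))
(S (nat_lit 43469) (S (nat_lit 17018) (S (nat_lit 55133) (S (nat_lit 55124) (S (nat_lit 30272) (L (nat_lit 4923836))
(L (nat_lit 13424961)))
(L (nat_lit 13952643)))
(L (nat_lit 1879695)))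
(S (nat_lit 38941) (L (nat_lit 10277934))
(L (nat_lit 22843661))))
(L (nat_lit 25746472)))))
(S (nat_lit 19767) (S (nat_lit 7367) (S (nat_lit 21282) (S (nat_lit 4898) (S (nat_lit 31938) (S (nat_lit 4910) (S (nat_lit 28761) (S (nat_lit 22272) (S (nat_lit 59026) (S (nat_lit 29514) (S (nat_lit 13182) (S (nat_lit 39261) (S (nat_lit 12912) (S (nat_lit 4895) (S (nat_lit 51703) (S (nat_lit 3727) (L (nat_lit 12659322))
(S (nat_lit 40286) (S (nat_lit 22930) (L (nat_lit 5810002))
(L (nat_lit 31013093)))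
(L (nat_lit 27741191))))
(L (nat_lit 20887780)))
(S (nat_lit 12049) (L (nat_lit 11993720))
(L (nat_lit 6997888))))
(L (nat_lit 18698251)))
(L (nat_lit 30811845)))
(L (nat_lit 6960033)))
(L (nat_lit 6895802)))
(L (nat_lit 13178663)))
(L (nat_lit 12626738)))
(L (nat_lit 24668484)))
(L (nat_lit 16047261)))
(L (nat_lit 17500968)))
(S (nat_lit 24579) (L (nat_lit 3975757))
(L (nat_lit 3421788))))
(S (nat_lit 40966) (L (nat_lit 11204003))
(L (nat_lit 15911132))))
(S (nat_lit 27048) (S (nat_lit 45104) (L (nat_lit 4728538))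
(L (nat_lit 17584480)))
(L (nat_lit 23369212))))
(S (nat_lit 39531) (S (nat_lit 21282) (S (nat_lit 7367) (S (nat_lit 28761) (S (nat_lit 4910) (S (nat_lit 31938) (S (nat_lit 4898) (S (nat_lit 59025) (S (nat_lit 59026) (S (nat_lit 13182) (S (nat_lit 39532) (S (nat_lit 12912) (S (nat_lit 16507) (L (nat_lit 3612347))
(S (nat_lit 31939) (S (nat_lit 4895) (S (nat_lit 17018) (S (nat_lit 12165) (S (nat_lit 12913) (L (nat_lit 9901688))
(L (nat_lit 18689633)))
(S (nat_lit 34242) (S (nat_lit 16422) (S (nat_lit 38130) (S (nat_lit 55124) (L (nat_lit 3423899))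
(L (nat_lit 21898723)))
(L (nat_lit 13403720)))
(L (nat_lit 20373730)))
(L (nat_lit 26883082))))
(L (nat_lit 14836358)))
(L (nat_lit 16586838)))
(L (nat_lit 1568427))))
(L (nat_lit 18698251)))
(L (nat_lit 23522376)))
(L (nat_lit 24682368)))
(L (nat_lit 19360993)))
(L (nat_lit 18967791)))
(L (nat_lit 20788395)))
(L (nat_lit 17500968)))
(L (nat_lit 16394396)))
(L (nat_lit 19339388)))
(L (nat_lit 11113297)))
(S (nat_lit 48911) (S (nat_lit 22609) (L (nat_lit 16976637))
(L (nat_lit 11110941)))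
(L (nat_lit 10668845))))
(L (nat_lit 25178418)))))
(S (nat_lit 54159) (S (nat_lit 19498) (S (nat_lit 3932) (S (nat_lit 17024) (S (nat_lit 15596) (L (nat_lit 9160577))
(L (nat_lit 17400156)))
(L (nat_lit 17492289)))
(L (nat_lit 12207228)))
(S (nat_lit 39262) (S (nat_lit 19497) (S (nat_lit 8998) (S (nat_lit 17018) (S (nat_lit 25424) (S (nat_lit 36101) (S (nat_lit 758) (S (nat_lit 46118) (L (nat_lit 1679928))
(L (nat_lit 22486948)))
(L (nat_lit 19359045)))
(L (nat_lit 843087)))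
(L (nat_lit 30889186)))
(L (nat_lit 12018307)))
(L (nat_lit 16998455)))
(S (nat_lit 39261) (S (nat_lit 17018) (S (nat_lit 25100) (L (nat_lit 27998217))
(S (nat_lit 25424) (S (nat_lit 46118) (S (nat_lit 43469) (L (nat_lit 1752872))
(L (nat_lit 13983799)))
(L (nat_lit 22093744)))
(L (nat_lit 5025484))))
(S (nat_lit 44374) (L (nat_lit 4662012))
(L (nat_lit 26682420))))
(S (nat_lit 59025) (S (nat_lit 17018) (S (nat_lit 49276) (S (nat_lit 4895) (L (nat_lit 3949847))
(L (nat_lit 19404124)))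
(L (nat_lit 14459589)))
(S (nat_lit 33972) (L (nat_lit 15042204))
(L (nat_lit 17142364))))
(L (nat_lit 25765381)))))
(S (nat_lit 59026) (S (nat_lit 0) (S (nat_lit 39536) (S (nat_lit 21282) (L (nat_lit 4444012))
(L (nat_lit 22546217)))
(L (nat_lit 18449162)))
(S (nat_lit 19764) (S (nat_lit 758) (S (nat_lit 55865) (L (nat_lit 8936353))
(L (nat_lit 21425409)))
(L (nat_lit 8898588)))
(S (nat_lit 39528) (S (nat_lit 12079) (L (nat_lit 17597163))
(S (nat_lit 21282) (S (nat_lit 31939) (S (nat_lit 59030) (L (nat_lit 29577602))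
(L (nat_lit 14707986)))
(L (nat_lit 17526049)))
(L (nat_lit 7498445))))
(L (nat_lit 25763201)))))
(L (nat_lit 25824592)))))
(L (nat_lit 25632919)))))
(L (nat_lit 25377509)))))
(S (nat_lit 27119) (S (nat_lit 17030) (S (nat_lit 8) (S (nat_lit 19502) (S (nat_lit 1087) (L (nat_lit 9921219))
(S (nat_lit 17018) (S (nat_lit 17024) (S (nat_lit 13877) (S (nat_lit 12166) (S (nat_lit 59026) (S (nat_lit 16340) (L (nat_lit 29580709))
(L (nat_lit 2695580)))
(L (nat_lit 2702588)))
(L (nat_lit 23866753)))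
(S (nat_lit 33641) (S (nat_lit 8998) (S (nat_lit 44438) (L (nat_lit 3694344))
(L (nat_lit 2548362)))
(L (nat_lit 2844073)))
(S (nat_lit 53405) (S (nat_lit 12175) (S (nat_lit 49276) (L (nat_lit 6442927))
(L (nat_lit 9835228)))
(L (nat_lit 3953965)))
(L (nat_lit 25610377)))))
(S (nat_lit 55714) (L (nat_lit 4990419))
(L (nat_lit 22315580))))
(L (nat_lit 15373222))))
(S (nat_lit 39266) (S (nat_lit 17987) (S (nat_lit 3166) (S (nat_lit 5258) (L (nat_lit 2563926))
(S (nat_lit 17024) (S (nat_lit 27128) (S (nat_lit 10505) (L (nat_lit 29822537))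
(L (nat_lit 14967489)))
(L (nat_lit 30556873)))
(L (nat_lit 17536349))))
(S (nat_lit 42559) (S (nat_lit 1330) (S (nat_lit 25791) (S (nat_lit 9748) (S (nat_lit 17984) (L (nat_lit 8541036))
(L (nat_lit 6983165)))
(L (nat_lit 2680523)))
(L (nat_lit 12339586)))
(L (nat_lit 14836427)))
(L (nat_lit 5032236))))
(S (nat_lit 37751) (S (nat_lit 0) (S (nat_lit 17024) (S (nat_lit 50036) (S (nat_lit 1) (S (nat_lit 6323) (S (nat_lit 49278) (S (nat_lit 45188) (L (nat_lit 30605716))
(L (nat_lit 10236951)))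
(L (nat_lit 20327204)))
(L (nat_lit 19709152)))
(L (nat_lit 13420771)))
(L (nat_lit 14266241)))
(L (nat_lit 4998386)))
(S (nat_lit 57985) (S (nat_lit 56041) (L (nat_lit 5097067))
(L (nat_lit 20721889)))
(L (nat_lit 20722912))))
(S (nat_lit 57515) (S (nat_lit 5669) (S (nat_lit 44423) (S (nat_lit 20522) (S (nat_lit 14622) (L (nat_lit 28513868))
(L (nat_lit 11997077)))
(L (nat_lit 15954500)))
(L (nat_lit 12455628)))
(L (nat_lit 19132430)))
(L (nat_lit 25384352)))))
(S (nat_lit 59030) (S (nat_lit 16340) (S (nat_lit 3166) (S (nat_lit 12166) (S (nat_lit 59025) (L (nat_lit 3623229))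
(L (nat_lit 14946013)))
(L (nat_lit 26789963)))
(L (nat_lit 15327275)))
(S (nat_lit 36104) (S (nat_lit 4901) (S (nat_lit 4898) (S (nat_lit 12175) (L (nat_lit 15306504))
(L (nat_lit 6074610)))
(L (nat_lit 20062988)))
(L (nat_lit 19406908)))
(S (nat_lit 55868) (S (nat_lit 17018) (S (nat_lit 35360) (S (nat_lit 22930) (L (nat_lit 3613402))
(L (nat_lit 30935782)))
(L (nat_lit 10089891)))
(L (nat_lit 14836294)))
(L (nat_lit 25207348)))))
(L (nat_lit 25634368)))))
(S (nat_lit 19772) (S (nat_lit 7364) (S (nat_lit 4901) (L (nat_lit 20068104))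
(L (nat_lit 19403068)))
(S (nat_lit 27128) (S (nat_lit 4907) (S (nat_lit 21283) (S (nat_lit 44423) (L (nat_lit 11680563))
(L (nat_lit 12086976)))
(L (nat_lit 2640746)))
(S (nat_lit 24671) (S (nat_lit 27131) (S (nat_lit 3166) (S (nat_lit 24665) (L (nat_lit 7489179))
(L (nat_lit 9991840)))
(L (nat_lit 14831531)))
(L (nat_lit 30938325)))
(S (nat_lit 44435) (S (nat_lit 27116) (S (nat_lit 27131) (S (nat_lit 17024) (S (nat_lit 32946) (S (nat_lit 1518) (S (nat_lit 17018) (S (nat_lit 8998) (S (nat_lit 12913) (S (nat_lit 44429) (S (nat_lit 34379) (S (nat_lit 27898) (S (nat_lit 45825) (S (nat_lit 3004) (S (nat_lit 52711) (S (nat_lit 50092) (S (nat_lit 53817) (S (nat_lit 15605) (S (nat_lit 15596) (S (nat_lit 59026) (L (nat_lit 27274833))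
(L (nat_lit 12867457)))
(L (nat_lit 22422401)))
(S (nat_lit 35369) (S (nat_lit 6590) (S (nat_lit 6593) (L (nat_lit 10977949))
(L (nat_lit 21857771)))
(L (nat_lit 21857707)))
(L (nat_lit 25429428))))
(L (nat_lit 29401621)))
(L (nat_lit 28662180)))
(L (nat_lit 27865225)))
(L (nat_lit 3615668)))
(L (nat_lit 8076379)))
(L (nat_lit 6751864)))
(L (nat_lit 31142148)))
(L (nat_lit 27796535)))
(L (nat_lit 26761223)))
(L (nat_lit 26761541)))
(L (nat_lit 22175949)))
(L (nat_lit 26740425)))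
(L (nat_lit 9983776)))
(L (nat_lit 22179053)))
(L (nat_lit 30942948)))
(L (nat_lit 30955748)))
(L (nat_lit 25868512)))))
(S (nat_lit 46892) (S (nat_lit 8998) (S (nat_lit 44438) (L (nat_lit 12063452))
(L (nat_lit 14838071)))
(L (nat_lit 26759525)))
(L (nat_lit 25339315)))))
(S (nat_lit 39536) (S (nat_lit 12175) (S (nat_lit 14615) (S (nat_lit 13183) (S (nat_lit 56546) (L (nat_lit 6447636))
(L (nat_lit 15888008)))
(L (nat_lit 26369544)))
(S (nat_lit 34379) (S (nat_lit 39531) (S (nat_lit 54150) (L (nat_lit 10647058))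
(L (nat_lit 17410881)))
(L (nat_lit 17429793)))
(S (nat_lit 54143) (S (nat_lit 41615) (S (nat_lit 53547) (L (nat_lit 6419958))
(L (nat_lit 6436445)))
(S (nat_lit 45851) (S (nat_lit 34395) (L (nat_lit 21439393))
(L (nat_lit 2902539)))
(L (nat_lit 15059096))))
(L (nat_lit 25286152)))))
(S (nat_lit 31939) (S (nat_lit 6320) (S (nat_lit 12278) (L (nat_lit 12011644))
(S (nat_lit 17018) (S (nat_lit 29514) (S (nat_lit 54159) (S (nat_lit 8036) (L (nat_lit 20844072))
(L (nat_lit 26885256)))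
(L (nat_lit 16894237)))
(L (nat_lit 24920420)))
(L (nat_lit 17140381))))
(S (nat_lit 26084) (S (nat_lit 39532) (S (nat_lit 10505) (S (nat_lit 14631) (S (nat_lit 3166) (S (nat_lit 20522) (L (nat_lit 21438650))
(L (nat_lit 15486213)))
(L (nat_lit 26851557)))
(L (nat_lit 13715737)))
(L (nat_lit 15393057)))
(L (nat_lit 12438607)))
(S (nat_lit 45848) (S (nat_lit 51694) (S (nat_lit 0) (L (nat_lit 1685755))
(L (nat_lit 630168)))
(L (nat_lit 3000557)))
(L (nat_lit 25348398)))))
(S (nat_lit 51703) (S (nat_lit 9747) (S (nat_lit 8593) (S (nat_lit 12481) (S (nat_lit 46284) (S (nat_lit 54159) (L (nat_lit 28546736))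
(L (nat_lit 17408768)))
(L (nat_lit 15272774)))
(L (nat_lit 2483666)))
(S (nat_lit 15596) (S (nat_lit 32946) (L (nat_lit 11679511))
(L (nat_lit 2481692)))
(L (nat_lit 14981010))))
(S (nat_lit 29511) (S (nat_lit 17024) (S (nat_lit 20525) (S (nat_lit 46880) (L (nat_lit 27559476))
(L (nat_lit 22162257)))
(L (nat_lit 22816849)))
(S (nat_lit 53534) (L (nat_lit 2640088))
(L (nat_lit 24649571))))
(S (nat_lit 49275) (S (nat_lit 52710) (S (nat_lit 12165) (L (nat_lit 10187791))
(L (nat_lit 21769295)))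
(L (nat_lit 12060439)))
(L (nat_lit 25766030)))))
(L (nat_lit 25896324)))))
(L (nat_lit 25762340)))))
(S (nat_lit 36794) (S (nat_lit 13877) (S (nat_lit 17018) (S (nat_lit 3941) (S (nat_lit 1518) (S (nat_lit 58273) (L (nat_lit 24481308))
(L (nat_lit 14841142)))
(S (nat_lit 51179) (L (nat_lit 11691570))
(L (nat_lit 13781897))))
(S (nat_lit 23705) (S (nat_lit 8998) (S (nat_lit 9750) (S (nat_lit 44438) (S (nat_lit 10505) (S (nat_lit 44423) (L (nat_lit 11454480))
(L (nat_lit 12078914)))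
(L (nat_lit 17697480)))
(L (nat_lit 12083874)))
(L (nat_lit 17369960)))
(S (nat_lit 28843) (L (nat_lit 20070682))
(L (nat_lit 26366321))))
(S (nat_lit 43469) (S (nat_lit 44423) (S (nat_lit 1518) (S (nat_lit 7358) (S (nat_lit 21283) (S (nat_lit 12913) (S (nat_lit 39258) (S (nat_lit 58273) (S (nat_lit 39262) (L (nat_lit 4439704))
(L (nat_lit 23897505)))
(L (nat_lit 2651446)))
(L (nat_lit 20823331)))
(L (nat_lit 11688410)))
(L (nat_lit 7865085)))
(L (nat_lit 23599973)))
(L (nat_lit 20078796)))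
(L (nat_lit 12357358)))
(L (nat_lit 25408630)))))
(S (nat_lit 36782) (S (nat_lit 52711) (L (nat_lit 11680413))
(L (nat_lit 4748872)))
(S (nat_lit 56546) (L (nat_lit 20068264))
(L (nat_lit 25540724)))))
(S (nat_lit 33641) (S (nat_lit 14623) (S (nat_lit 17018) (S (nat_lit 17839) (S (nat_lit 15895) (L (nat_lit 22546684))
(L (nat_lit 20477153)))
(S (nat_lit 36788) (S (nat_lit 19494) (S (nat_lit 1518) (L (nat_lit 28463559))
(L (nat_lit 20472000)))
(L (nat_lit 9922211)))
(L (nat_lit 20066555))))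
(L (nat_lit 12018738)))
(S (nat_lit 34387) (S (nat_lit 44423) (S (nat_lit 7358) (S (nat_lit 17018) (S (nat_lit 27131) (S (nat_lit 10508) (S (nat_lit 8998) (S (nat_lit 48525) (S (nat_lit 52440) (S (nat_lit 59022) (L (nat_lit 5454525))
(L (nat_lit 15553827)))
(L (nat_lit 14833885)))
(L (nat_lit 22546811)))
(L (nat_lit 23892457)))
(L (nat_lit 14965603)))
(L (nat_lit 30938485)))
(L (nat_lit 12084338)))
(L (nat_lit 23599973)))
(S (nat_lit 54258) (S (nat_lit 58273) (L (nat_lit 5712605))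
(L (nat_lit 2651443)))
(L (nat_lit 12078914))))
(S (nat_lit 54151) (S (nat_lit 12913) (S (nat_lit 8998) (S (nat_lit 1518) (S (nat_lit 7358) (L (nat_lit 29708836))
(L (nat_lit 26757191)))
(L (nat_lit 13772690)))
(L (nat_lit 6841458)))
(S (nat_lit 16377) (L (nat_lit 15884168))
(L (nat_lit 11683735))))
(L (nat_lit 25647363)))))
(S (nat_lit 53405) (S (nat_lit 16337) (S (nat_lit 44423) (S (nat_lit 7358) (S (nat_lit 12913) (S (nat_lit 21283) (S (nat_lit 27131) (S (nat_lit 15596) (S (nat_lit 52440) (S (nat_lit 37751) (L (nat_lit 29416815))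
(L (nat_lit 17718528)))
(L (nat_lit 14833885)))
(L (nat_lit 17684803)))
(L (nat_lit 30938485)))
(L (nat_lit 2935303)))
(L (nat_lit 11686362)))
(L (nat_lit 13769469)))
(S (nat_lit 56661) (L (nat_lit 12468933))
(L (nat_lit 11685710))))
(S (nat_lit 36101) (S (nat_lit 14623) (S (nat_lit 15728) (L (nat_lit 14911314))
(S (nat_lit 21283) (S (nat_lit 29511) (S (nat_lit 27116) (L (nat_lit 29991087))
(L (nat_lit 12251653)))
(L (nat_lit 6201876)))
(L (nat_lit 10644175))))
(S (nat_lit 34387) (S (nat_lit 17018) (S (nat_lit 42020) (S (nat_lit 36788) (L (nat_lit 23619622))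
(L (nat_lit 20477153)))
(L (nat_lit 27640545)))
(L (nat_lit 5030162)))
(S (nat_lit 54151) (S (nat_lit 32527) (S (nat_lit 16340) (S (nat_lit 52711) (L (nat_lit 4810250))
(L (nat_lit 17651043)))
(L (nat_lit 17716579)))
(S (nat_lit 38509) (S (nat_lit 44423) (S (nat_lit 17018) (L (nat_lit 8549101))
(L (nat_lit 15001219)))
(L (nat_lit 12078914)))
(L (nat_lit 20357213))))
(L (nat_lit 25659670)))))
(S (nat_lit 55865) (S (nat_lit 9747) (S (nat_lit 41047) (S (nat_lit 37751) (S (nat_lit 14615) (L (nat_lit 14961816))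
(L (nat_lit 1910292)))
(L (nat_lit 17636500)))
(L (nat_lit 17638548)))
(S (nat_lit 29511) (S (nat_lit 21283) (S (nat_lit 44423) (S (nat_lit 3932) (L (nat_lit 29926113))
(L (nat_lit 17459304)))
(L (nat_lit 11685710)))
(L (nat_lit 8237204)))
(S (nat_lit 49275) (S (nat_lit 17018) (S (nat_lit 56552) (S (nat_lit 49276) (L (nat_lit 27559474))
(L (nat_lit 16648535)))
(L (nat_lit 3696232)))
(L (nat_lit 14836296)))
(L (nat_lit 25770306)))))
(L (nat_lit 25835593)))))
(L (nat_lit 25514501)))))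
(S (nat_lit 56558) (S (nat_lit 16337) (S (nat_lit 12912) (S (nat_lit 38509) (S (nat_lit 27131) (L (nat_lit 30554354))
(L (nat_lit 30938857)))
(L (nat_lit 6819702)))
(S (nat_lit 32676) (S (nat_lit 18745) (S (nat_lit 46886) (S (nat_lit 24671) (L (nat_lit 20065755))
(L (nat_lit 9984832)))
(L (nat_lit 16937703)))
(L (nat_lit 22547770)))
(S (nat_lit 52440) (S (nat_lit 19768) (S (nat_lit 12165) (S (nat_lit 1518) (S (nat_lit 51702) (S (nat_lit 21283) (S (nat_lit 36104) (S (nat_lit 50036) (L (nat_lit 22094605))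
(L (nat_lit 22815759)))
(L (nat_lit 20179331)))
(L (nat_lit 22178063)))
(L (nat_lit 22374851)))
(L (nat_lit 20449163)))
(L (nat_lit 21325903)))
(L (nat_lit 21227599)))
(L (nat_lit 25595563)))))
(S (nat_lit 36101) (S (nat_lit 2509) (S (nat_lit 6320) (S (nat_lit 27131) (S (nat_lit 32946) (S (nat_lit 22930) (S (nat_lit 39258) (L (nat_lit 16329635))
(L (nat_lit 30623459)))
(L (nat_lit 30951717)))
(L (nat_lit 30770829)))
(L (nat_lit 19408805)))
(S (nat_lit 26084) (S (nat_lit 22272) (S (nat_lit 42694) (S (nat_lit 30269) (L (nat_lit 467674))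
(L (nat_lit 31111238)))
(L (nat_lit 24671525)))
(S (nat_lit 45743) (L (nat_lit 12366465))
(L (nat_lit 31177766))))
(S (nat_lit 45848) (S (nat_lit 9750) (S (nat_lit 46886) (S (nat_lit 39259) (L (nat_lit 13307261))
(L (nat_lit 20823396)))
(L (nat_lit 27805892)))
(L (nat_lit 4810280)))
(L (nat_lit 25476279)))))
(S (nat_lit 22273) (S (nat_lit 3) (S (nat_lit 27122) (S (nat_lit 13868) (S (nat_lit 39259) (L (nat_lit 19016157))
(L (nat_lit 20757607)))
(L (nat_lit 13405831)))
(L (nat_lit 2935241)))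
(S (nat_lit 19767) (S (nat_lit 19768) (S (nat_lit 32676) (L (nat_lit 13719864))
(L (nat_lit 31174083)))
(L (nat_lit 30625219)))
(S (nat_lit 39531) (S (nat_lit 29511) (S (nat_lit 39532) (L (nat_lit 24950051))
(L (nat_lit 17680675)))
(S (nat_lit 51072) (L (nat_lit 16042045))
(L (nat_lit 782792))))
(L (nat_lit 25395667)))))
(S (nat_lit 42037) (S (nat_lit 4065) (L (nat_lit 24258320))
(S (nat_lit 27131) (S (nat_lit 5329) (L (nat_lit 22181385))
(S (nat_lit 32946) (S (nat_lit 1518) (S (nat_lit 14622) (S (nat_lit 46118) (S (nat_lit 25424) (S (nat_lit 17018) (L (nat_lit 4438680))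
(L (nat_lit 4743442)))
(L (nat_lit 14517495)))
(L (nat_lit 12354995)))
(L (nat_lit 10341517)))
(L (nat_lit 9987809)))
(L (nat_lit 30561613))))
(L (nat_lit 30938857))))
(L (nat_lit 25548908)))))
(S (nat_lit 55865) (S (nat_lit 11501) (S (nat_lit 3876) (L (nat_lit 24258320))
(S (nat_lit 27131) (S (nat_lit 9901) (L (nat_lit 6440568))
(S (nat_lit 32946) (S (nat_lit 1518) (S (nat_lit 24671) (S (nat_lit 12913) (S (nat_lit 17018) (S (nat_lit 26084) (S (nat_lit 5660) (S (nat_lit 14623) (L (nat_lit 1392253))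
(L (nat_lit 12439075)))
(L (nat_lit 19836288)))
(L (nat_lit 30918944)))
(L (nat_lit 4743442)))
(L (nat_lit 17967026)))
(L (nat_lit 10236512)))
(L (nat_lit 12740331)))
(L (nat_lit 20068134))))
(L (nat_lit 30557929))))
(S (nat_lit 31265) (S (nat_lit 34396) (S (nat_lit 43469) (S (nat_lit 32946) (S (nat_lit 3932) (S (nat_lit 30272) (S (nat_lit 16340) (L (nat_lit 6169261))
(L (nat_lit 17097409)))
(L (nat_lit 24406403)))
(L (nat_lit 15394856)))
(L (nat_lit 16620096)))
(S (nat_lit 51547) (S (nat_lit 44423) (L (nat_lit 9082396))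
(L (nat_lit 12062486)))
(L (nat_lit 16556769))))
(S (nat_lit 58479) (L (nat_lit 10973923))
(L (nat_lit 3938895))))
(S (nat_lit 51029) (S (nat_lit 0) (S (nat_lit 44423) (S (nat_lit 32676) (S (nat_lit 1) (L (nat_lit 3367317))
(L (nat_lit 20721673)))
(L (nat_lit 24471631)))
(L (nat_lit 24264024)))
(S (nat_lit 19764) (S (nat_lit 10885) (L (nat_lit 2879017))
(S (nat_lit 27131) (S (nat_lit 26084) (S (nat_lit 57512) (S (nat_lit 59022) (S (nat_lit 32946) (S (nat_lit 26357) (S (nat_lit 2499) (S (nat_lit 34387) (L (nat_lit 23182151))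
(L (nat_lit 15305514)))
(L (nat_lit 19392834)))
(L (nat_lit 19662282)))
(L (nat_lit 14818972)))
(L (nat_lit 13381347)))
(L (nat_lit 15572082)))
(L (nat_lit 22407712)))
(L (nat_lit 30549585))))
(S (nat_lit 39528) (S (nat_lit 15883) (L (nat_lit 16518485))
(S (nat_lit 17018) (S (nat_lit 10508) (S (nat_lit 19498) (L (nat_lit 11589453))
(L (nat_lit 12502625)))
(L (nat_lit 12507521)))
(L (nat_lit 4744840))))
(L (nat_lit 25212146)))))
(L (nat_lit 25505877)))))
(L (nat_lit 25829825)))))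
(L (nat_lit 25631393)))))
(S (nat_lit 46883) (S (nat_lit 13182) (S (nat_lit 14622) (S (nat_lit 12174) (S (nat_lit 18745) (S (nat_lit 45005) (L (nat_lit 29503799))
(S (nat_lit 50033) (S (nat_lit 19495) (S (nat_lit 6590) (L (nat_lit 26414487))
(L (nat_lit 1533578)))
(L (nat_lit 22101767)))
(L (nat_lit 9091224))))
(S (nat_lit 55779) (L (nat_lit 26389135))
(L (nat_lit 26578576))))
(S (nat_lit 31938) (S (nat_lit 8998) (S (nat_lit 17018) (S (nat_lit 46886) (L (nat_lit 22177162))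
(L (nat_lit 7887992)))
(L (nat_lit 26369446)))
(S (nat_lit 28762) (S (nat_lit 27116) (S (nat_lit 46886) (L (nat_lit 9590572))
(L (nat_lit 9597681)))
(L (nat_lit 2796401)))
(S (nat_lit 48526) (S (nat_lit 52711) (S (nat_lit 57515) (S (nat_lit 32676) (L (nat_lit 26361143))
(L (nat_lit 10644081)))
(L (nat_lit 12237978)))
(S (nat_lit 57921) (L (nat_lit 16898952))
(L (nat_lit 16936584))))
(L (nat_lit 25364919)))))
(S (nat_lit 51702) (S (nat_lit 3166) (S (nat_lit 26087) (S (nat_lit 46895) (L (nat_lit 22102824))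
(L (nat_lit 9983064)))
(L (nat_lit 5062312)))
(S (nat_lit 22930) (S (nat_lit 27116) (S (nat_lit 44426) (S (nat_lit 24665) (L (nat_lit 19014200))
(L (nat_lit 22823202)))
(L (nat_lit 12735736)))
(L (nat_lit 24670501)))
(S (nat_lit 42694) (S (nat_lit 12103) (L (nat_lit 14769402))
(S (nat_lit 17018) (S (nat_lit 4910) (L (nat_lit 5585844))
(L (nat_lit 6452663)))
(L (nat_lit 22568998))))
(L (nat_lit 25442357)))))
(L (nat_lit 25344246)))))
(S (nat_lit 34386) (S (nat_lit 6323) (S (nat_lit 2492) (S (nat_lit 8997) (S (nat_lit 41047) (S (nat_lit 17018) (L (nat_lit 28653749))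
(L (nat_lit 12018243)))
(L (nat_lit 17564362)))
(S (nat_lit 38603) (L (nat_lit 26256818))
(L (nat_lit 21521511))))
(S (nat_lit 22256) (S (nat_lit 11570) (L (nat_lit 15044284))
(S (nat_lit 31256) (S (nat_lit 32676) (S (nat_lit 35369) (S (nat_lit 31939) (S (nat_lit 12165) (L (nat_lit 29641807))
(L (nat_lit 9212591)))
(L (nat_lit 16961387)))
(L (nat_lit 20720685)))
(L (nat_lit 5160553)))
(L (nat_lit 4541292))))
(S (nat_lit 42020) (S (nat_lit 3) (S (nat_lit 45848) (L (nat_lit 29742255))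
(L (nat_lit 27627063)))
(L (nat_lit 20748397)))
(L (nat_lit 25545185)))))
(S (nat_lit 26087) (S (nat_lit 3941) (S (nat_lit 2500) (S (nat_lit 10508) (S (nat_lit 39529) (S (nat_lit 34379) (L (nat_lit 28949543))
(L (nat_lit 15467142)))
(L (nat_lit 17427683)))
(L (nat_lit 17064673)))
(L (nat_lit 14805704)))
(S (nat_lit 23705) (S (nat_lit 24659) (S (nat_lit 32677) (S (nat_lit 39258) (S (nat_lit 17987) (S (nat_lit 39529) (L (nat_lit 4438621))
(L (nat_lit 17374233)))
(L (nat_lit 22202186)))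
(L (nat_lit 10580535)))
(L (nat_lit 7769975)))
(L (nat_lit 10227438)))
(S (nat_lit 43469) (S (nat_lit 53405) (S (nat_lit 3932) (L (nat_lit 4746886))
(L (nat_lit 2353869)))
(L (nat_lit 17731826)))
(L (nat_lit 25353487)))))
(S (nat_lit 45851) (S (nat_lit 4898) (S (nat_lit 18745) (S (nat_lit 6320) (S (nat_lit 29512) (S (nat_lit 19497) (L (nat_lit 10030956))
(L (nat_lit 10402871)))
(L (nat_lit 24684632)))
(L (nat_lit 20233340)))
(S (nat_lit 20404) (L (nat_lit 8913564))
(L (nat_lit 26762468))))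
(S (nat_lit 24662) (S (nat_lit 17018) (S (nat_lit 24674) (L (nat_lit 6818611))
(L (nat_lit 9594391)))
(L (nat_lit 14837382)))
(S (nat_lit 44426) (S (nat_lit 26713) (S (nat_lit 28657) (L (nat_lit 11451011))
(L (nat_lit 22168824)))
(S (nat_lit 58112) (L (nat_lit 15889031))
(L (nat_lit 22552664))))
(L (nat_lit 25862252)))))
(L (nat_lit 25531831)))))
(S (nat_lit 54150) (S (nat_lit 15596) (S (nat_lit 7364) (S (nat_lit 18745) (S (nat_lit 46895) (L (nat_lit 5894634))
(L (nat_lit 22571364)))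
(L (nat_lit 26854625)))
(S (nat_lit 27128) (S (nat_lit 46895) (S (nat_lit 17018) (L (nat_lit 1582744))
(L (nat_lit 14837384)))
(L (nat_lit 9983064)))
(S (nat_lit 46892) (S (nat_lit 8997) (S (nat_lit 46895) (S (nat_lit 46880) (S (nat_lit 17018) (L (nat_lit 22129549))
(L (nat_lit 12083316)))
(L (nat_lit 27795637)))
(L (nat_lit 9967192)))
(L (nat_lit 2629556)))
(L (nat_lit 25306832)))))
(S (nat_lit 35360) (S (nat_lit 4) (S (nat_lit 24659) (S (nat_lit 17018) (S (nat_lit 23696) (S (nat_lit 41047) (L (nat_lit 22164266))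
(L (nat_lit 16993433)))
(L (nat_lit 21775464)))
(L (nat_lit 11690484)))
(L (nat_lit 17494370)))
(S (nat_lit 19768) (S (nat_lit 46118) (S (nat_lit 2492) (L (nat_lit 4442588))
(L (nat_lit 8063917)))
(L (nat_lit 4502168)))
(S (nat_lit 39532) (S (nat_lit 53396) (S (nat_lit 46892) (S (nat_lit 24674) (S (nat_lit 54159) (L (nat_lit 29841542))
(L (nat_lit 17615040)))
(L (nat_lit 17061947)))
(L (nat_lit 17648900)))
(L (nat_lit 17887881)))
(L (nat_lit 25610499)))))
(S (nat_lit 55124) (S (nat_lit 14632) (S (nat_lit 8150) (L (nat_lit 4958617))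
(S (nat_lit 34379) (S (nat_lit 19497) (S (nat_lit 17018) (S (nat_lit 18745) (L (nat_lit 28544407))
(L (nat_lit 3696262)))
(L (nat_lit 15066691)))
(L (nat_lit 12473859)))
(L (nat_lit 14938693))))
(S (nat_lit 34396) (S (nat_lit 29519) (S (nat_lit 46895) (L (nat_lit 9925187))
(L (nat_lit 9967192)))
(L (nat_lit 19440419)))
(S (nat_lit 54160) (S (nat_lit 54143) (S (nat_lit 32676) (L (nat_lit 2342490))
(L (nat_lit 19410012)))
(L (nat_lit 6752020)))
(L (nat_lit 25498190)))))
(L (nat_lit 25896045)))))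
(L (nat_lit 25647361)))))
(S (nat_lit 32946) (S (nat_lit 4907) (S (nat_lit 58273) (S (nat_lit 27116) (S (nat_lit 21283) (L (nat_lit 12743402))
(L (nat_lit 2640679)))
(L (nat_lit 19409701)))
(L (nat_lit 19408924)))
(S (nat_lit 24671) (S (nat_lit 32677) (S (nat_lit 17018) (S (nat_lit 24659) (L (nat_lit 532311))
(L (nat_lit 8916791)))
(L (nat_lit 9985148)))
(L (nat_lit 24670279)))
(S (nat_lit 44435) (S (nat_lit 44429) (S (nat_lit 24659) (S (nat_lit 22930) (L (nat_lit 11685646))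
(L (nat_lit 12085957)))
(L (nat_lit 16935627)))
(L (nat_lit 14832922)))
(L (nat_lit 25461324)))))
(S (nat_lit 52710) (S (nat_lit 8998) (S (nat_lit 11492) (S (nat_lit 2499) (S (nat_lit 19497) (S (nat_lit 26084) (S (nat_lit 10508) (S (nat_lit 39259) (S (nat_lit 31930) (S (nat_lit 39532) (L (nat_lit 766265))
(L (nat_lit 27892194)))
(L (nat_lit 4704573)))
(L (nat_lit 4799805)))
(L (nat_lit 4842886)))
(S (nat_lit 41832) (S (nat_lit 4491) (L (nat_lit 16568644))
(L (nat_lit 17099360)))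
(L (nat_lit 4507259))))
(S (nat_lit 39261) (S (nat_lit 24659) (L (nat_lit 465842))
(L (nat_lit 21764482)))
(S (nat_lit 59025) (S (nat_lit 26087) (S (nat_lit 31929) (S (nat_lit 42036) (L (nat_lit 12945173))
(L (nat_lit 27614626)))
(L (nat_lit 17128538)))
(L (nat_lit 5065038)))
(L (nat_lit 25433525)))))
(S (nat_lit 22263) (S (nat_lit 22256) (S (nat_lit 49278) (S (nat_lit 22273) (S (nat_lit 19497) (S (nat_lit 27800) (S (nat_lit 22264) (L (nat_lit 28544718))
(L (nat_lit 18650453)))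
(L (nat_lit 24493211)))
(L (nat_lit 18767077)))
(L (nat_lit 18214597)))
(L (nat_lit 3534388)))
(L (nat_lit 21359075)))
(S (nat_lit 42027) (S (nat_lit 13868) (S (nat_lit 17030) (S (nat_lit 8036) (L (nat_lit 9584285))
(L (nat_lit 12970661)))
(L (nat_lit 5029236)))
(S (nat_lit 33632) (S (nat_lit 31922) (S (nat_lit 19497) (S (nat_lit 24659) (S (nat_lit 17018) (S (nat_lit 8997) (S (nat_lit 6323) (L (nat_lit 7487412))
(L (nat_lit 18630978)))
(L (nat_lit 2933076)))
(L (nat_lit 9921089)))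
(L (nat_lit 31103360)))
(L (nat_lit 5531157)))
(L (nat_lit 17634611)))
(S (nat_lit 53396) (S (nat_lit 12158) (L (nat_lit 10677683))
(L (nat_lit 21763374)))
(L (nat_lit 25221424)))))
(L (nat_lit 25211590)))))
(S (nat_lit 31256) (S (nat_lit 9751) (S (nat_lit 758) (S (nat_lit 47564) (S (nat_lit 15596) (S (nat_lit 761) (L (nat_lit 26446259))
(L (nat_lit 20309477)))
(L (nat_lit 15554602)))
(S (nat_lit 47645) (L (nat_lit 6371124))
(L (nat_lit 4579152))))
(S (nat_lit 20522) (S (nat_lit 47564) (S (nat_lit 32677) (S (nat_lit 22263) (L (nat_lit 15882616))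
(L (nat_lit 373618)))
(L (nat_lit 14438407)))
(L (nat_lit 18205509)))
(S (nat_lit 40286) (S (nat_lit 17018) (S (nat_lit 54160) (S (nat_lit 8997) (S (nat_lit 52711) (S (nat_lit 41046) (S (nat_lit 47564) (S (nat_lit 39261) (L (nat_lit 5462458))
(L (nat_lit 30877379)))
(L (nat_lit 18572549)))
(L (nat_lit 23864833)))
(L (nat_lit 5789020)))
(L (nat_lit 21760423)))
(L (nat_lit 21062154)))
(L (nat_lit 24600678)))
(L (nat_lit 25381253)))))
(S (nat_lit 29515) (S (nat_lit 38856) (S (nat_lit 39528) (L (nat_lit 11177836))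
(L (nat_lit 16994144)))
(S (nat_lit 39261) (S (nat_lit 6320) (S (nat_lit 8997) (S (nat_lit 55865) (S (nat_lit 17018) (L (nat_lit 6439795))
(L (nat_lit 4679302)))
(L (nat_lit 19665415)))
(L (nat_lit 23618916)))
(S (nat_lit 26030) (S (nat_lit 25776) (L (nat_lit 2472632))
(L (nat_lit 19457378)))
(L (nat_lit 19666284))))
(L (nat_lit 5035345))))
(S (nat_lit 49279) (S (nat_lit 3932) (S (nat_lit 46895) (S (nat_lit 41047) (S (nat_lit 41046) (S (nat_lit 8997) (S (nat_lit 19498) (S (nat_lit 32676) (S (nat_lit 19768) (S (nat_lit 24674) (S (nat_lit 24662) (S (nat_lit 53396) (S (nat_lit 36101) (S (nat_lit 5660) (S (nat_lit 24659) (L (nat_lit 24254938))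
(L (nat_lit 31070286)))
(L (nat_lit 20166528)))
(S (nat_lit 57953) (L (nat_lit 1263292))
(L (nat_lit 6746785))))
(L (nat_lit 7398964)))
(L (nat_lit 21112716)))
(L (nat_lit 21128460)))
(L (nat_lit 22414088)))
(L (nat_lit 19410012)))
(L (nat_lit 5661287)))
(L (nat_lit 23600004)))
(L (nat_lit 23620801)))
(L (nat_lit 27799267)))
(S (nat_lit 48460) (L (nat_lit 1297297))
(L (nat_lit 9986629))))
(S (nat_lit 23696) (S (nat_lit 17018) (L (nat_lit 28676503))
(L (nat_lit 22855720)))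
(S (nat_lit 43460) (S (nat_lit 17018) (S (nat_lit 52711) (S (nat_lit 49276) (L (nat_lit 9962138))
(L (nat_lit 27646405)))
(L (nat_lit 17651011)))
(L (nat_lit 12083843)))
(L (nat_lit 25854438)))))
(L (nat_lit 25180535)))))
(S (nat_lit 51020) (S (nat_lit 761) (S (nat_lit 32729) (S (nat_lit 33606) (L (nat_lit 19000653))
(L (nat_lit 12740328)))
(S (nat_lit 59025) (S (nat_lit 34396) (S (nat_lit 20522) (S (nat_lit 17018) (S (nat_lit 14623) (S (nat_lit 36794) (L (nat_lit 9615159))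
(L (nat_lit 23536451)))
(L (nat_lit 24190863)))
(L (nat_lit 22504705)))
(L (nat_lit 2617959)))
(L (nat_lit 15036034)))
(L (nat_lit 15535349))))
(S (nat_lit 20525) (S (nat_lit 4910) (S (nat_lit 32677) (S (nat_lit 24659) (S (nat_lit 29512) (L (nat_lit 317979))
(L (nat_lit 19263936)))
(L (nat_lit 21524800)))
(L (nat_lit 7492461)))
(S (nat_lit 24674) (S (nat_lit 38509) (S (nat_lit 29511) (S (nat_lit 29512) (S (nat_lit 17018) (S (nat_lit 42028) (S (nat_lit 41046) (L (nat_lit 28353076))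
(L (nat_lit 6846144)))
(L (nat_lit 23447301)))
(L (nat_lit 2810280)))
(L (nat_lit 30791756)))
(L (nat_lit 30785620)))
(L (nat_lit 13784317)))
(S (nat_lit 44438) (S (nat_lit 17030) (L (nat_lit 11694798))
(L (nat_lit 22396061)))
(L (nat_lit 25309866)))))
(S (nat_lit 40289) (S (nat_lit 54151) (S (nat_lit 8997) (S (nat_lit 23696) (S (nat_lit 52711) (S (nat_lit 17018) (S (nat_lit 45188) (L (nat_lit 29742095))
(L (nat_lit 24601607)))
(L (nat_lit 22504486)))
(L (nat_lit 18216515)))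
(L (nat_lit 8132087)))
(L (nat_lit 23618916)))
(S (nat_lit 54232) (S (nat_lit 52711) (L (nat_lit 3520217))
(L (nat_lit 5773916)))
(L (nat_lit 5028487))))
(L (nat_lit 25250281)))))
(L (nat_lit 25255246)))))
(S (nat_lit 28762) (S (nat_lit 3941) (S (nat_lit 6590) (S (nat_lit 28973) (L (nat_lit 20410597))
(S (nat_lit 54150) (S (nat_lit 32677) (L (nat_lit 30561830))
(L (nat_lit 13791506)))
(L (nat_lit 17428672))))
(S (nat_lit 26354) (S (nat_lit 25433) (S (nat_lit 26087) (S (nat_lit 8997) (L (nat_lit 3699063))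
(L (nat_lit 16934502)))
(L (nat_lit 17100951)))
(L (nat_lit 16867175)))
(S (nat_lit 46118) (S (nat_lit 24659) (S (nat_lit 39529) (L (nat_lit 30558600))
(L (nat_lit 27858959)))
(S (nat_lit 40437) (L (nat_lit 26393943))
(L (nat_lit 22159212))))
(L (nat_lit 25286864)))))
(S (nat_lit 23705) (S (nat_lit 8997) (S (nat_lit 46895) (S (nat_lit 1519) (S (nat_lit 24662) (S (nat_lit 58273) (S (nat_lit 24674) (S (nat_lit 32676) (S (nat_lit 51029) (S (nat_lit 13877) (S (nat_lit 3) (S (nat_lit 59025) (S (nat_lit 8) (L (nat_lit 14323932))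
(L (nat_lit 19105712)))
(L (nat_lit 19100721)))
(S (nat_lit 19767) (S (nat_lit 50036) (L (nat_lit 29537555))
(L (nat_lit 20351784)))
(S (nat_lit 39531) (S (nat_lit 2509) (L (nat_lit 24446457))
(L (nat_lit 6419180)))
(L (nat_lit 25565857)))))
(L (nat_lit 11268613)))
(L (nat_lit 27282796)))
(L (nat_lit 10644143)))
(L (nat_lit 30551478)))
(L (nat_lit 27797523)))
(L (nat_lit 21525730)))
(L (nat_lit 19423367)))
(L (nat_lit 5792115)))
(S (nat_lit 28761) (L (nat_lit 550228))
(S (nat_lit 48525) (S (nat_lit 46895) (L (nat_lit 30553702))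
(L (nat_lit 5789050)))
(L (nat_lit 25252263)))))
(S (nat_lit 43469) (S (nat_lit 19498) (S (nat_lit 33977) (L (nat_lit 24577926))
(S (nat_lit 46895) (S (nat_lit 33641) (S (nat_lit 58273) (S (nat_lit 32676) (S (nat_lit 19772) (L (nat_lit 30704365))
(L (nat_lit 9857765)))
(L (nat_lit 4452822)))
(L (nat_lit 19023100)))
(L (nat_lit 15376229)))
(L (nat_lit 17424457))))
(S (nat_lit 39262) (S (nat_lit 16337) (S (nat_lit 46895) (S (nat_lit 9751) (S (nat_lit 3932) (S (nat_lit 19765) (L (nat_lit 28543692))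
(L (nat_lit 10086819)))
(L (nat_lit 15034487)))
(L (nat_lit 17391973)))
(L (nat_lit 17033957)))
(S (nat_lit 55951) (L (nat_lit 30974003))
(L (nat_lit 17375324))))
(S (nat_lit 59026) (S (nat_lit 8997) (S (nat_lit 56552) (L (nat_lit 12737885))
(L (nat_lit 27728914)))
(S (nat_lit 44812) (L (nat_lit 14822195))
(L (nat_lit 26360148))))
(L (nat_lit 25630038)))))
(L (nat_lit 25746472)))))
(S (nat_lit 48526) (S (nat_lit 13877) (S (nat_lit 6590) (S (nat_lit 19498) (S (nat_lit 4907) (L (nat_lit 12743402))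
(L (nat_lit 18118210)))
(S (nat_lit 58219) (L (nat_lit 28792838))
(L (nat_lit 12195661))))
(S (nat_lit 26354) (S (nat_lit 11131) (S (nat_lit 34395) (L (nat_lit 26288599))
(L (nat_lit 20388026)))
(S (nat_lit 19502) (S (nat_lit 52711) (L (nat_lit 11454481))
(L (nat_lit 21503164)))
(L (nat_lit 11618194))))
(S (nat_lit 46118) (S (nat_lit 36794) (L (nat_lit 13769524))
(L (nat_lit 30480914)))
(L (nat_lit 25663539)))))
(S (nat_lit 33641) (S (nat_lit 12174) (S (nat_lit 31922) (S (nat_lit 50033) (S (nat_lit 6320) (L (nat_lit 17505308))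
(L (nat_lit 19711264)))
(L (nat_lit 1568392)))
(L (nat_lit 5061875)))
(S (nat_lit 31938) (S (nat_lit 28864) (L (nat_lit 22276176))
(S (nat_lit 46895) (S (nat_lit 18745) (S (nat_lit 42037) (S (nat_lit 57515) (L (nat_lit 19109369))
(L (nat_lit 12228492)))
(L (nat_lit 14507333)))
(L (nat_lit 24649818)))
(L (nat_lit 20488069))))
(S (nat_lit 51702) (S (nat_lit 46895) (S (nat_lit 18745) (S (nat_lit 49275) (S (nat_lit 8997) (S (nat_lit 9750) (L (nat_lit 26360424))
(L (nat_lit 15444834)))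
(L (nat_lit 14770516)))
(L (nat_lit 20856904)))
(L (nat_lit 24649818)))
(S (nat_lit 55806) (L (nat_lit 9585240))
(L (nat_lit 6039120))))
(L (nat_lit 25887025)))))
(S (nat_lit 53405) (S (nat_lit 5660) (S (nat_lit 3941) (S (nat_lit 25433) (S (nat_lit 39259) (L (nat_lit 12226384))
(L (nat_lit 20408612)))
(L (nat_lit 4681015)))
(L (nat_lit 17108700)))
(S (nat_lit 25424) (S (nat_lit 20366) (S (nat_lit 14999) (L (nat_lit 15867548))
(L (nat_lit 21772296)))
(S (nat_lit 24659) (S (nat_lit 46895) (S (nat_lit 34798) (L (nat_lit 22096344))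
(L (nat_lit 13781240)))
(L (nat_lit 20081129)))
(L (nat_lit 17734743))))
(S (nat_lit 45188) (S (nat_lit 8997) (S (nat_lit 21283) (S (nat_lit 54151) (L (nat_lit 21459170))
(L (nat_lit 17128195)))
(L (nat_lit 7893731)))
(S (nat_lit 31328) (L (nat_lit 15639170))
(L (nat_lit 26693986))))
(L (nat_lit 25630806)))))
(L (nat_lit 25577701)))))
(L (nat_lit 25631799)))))
(L (nat_lit 25550337)))))
(L (nat_lit 25320871)))))
(S (nat_lit 36797) (S (nat_lit 18745) (S (nat_lit 10505) (S (nat_lit 9748) (S (nat_lit 2508) (S (nat_lit 4907) (S (nat_lit 44426) (S (nat_lit 8997) (S (nat_lit 9751) (S (nat_lit 11492) (L (nat_lit 28426486))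
(L (nat_lit 26598848)))
(L (nat_lit 17672773)))
(L (nat_lit 4940198)))
(L (nat_lit 27410679)))
(S (nat_lit 24671) (S (nat_lit 56552) (S (nat_lit 9747) (L (nat_lit 22063512))
(L (nat_lit 4417166)))
(L (nat_lit 27405007)))
(S (nat_lit 44435) (S (nat_lit 15605) (S (nat_lit 36788) (L (nat_lit 22214086))
(L (nat_lit 5778041)))
(L (nat_lit 15575683)))
(L (nat_lit 25209335)))))
(S (nat_lit 22272) (S (nat_lit 10508) (S (nat_lit 31265) (S (nat_lit 13183) (S (nat_lit 3166) (L (nat_lit 14324518))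
(L (nat_lit 15328358)))
(L (nat_lit 14017683)))
(L (nat_lit 17163347)))
(S (nat_lit 30272) (S (nat_lit 19498) (S (nat_lit 47564) (S (nat_lit 16340) (L (nat_lit 5091021))
(L (nat_lit 10938051)))
(L (nat_lit 27999398)))
(L (nat_lit 18114241)))
(S (nat_lit 50036) (S (nat_lit 1) (S (nat_lit 47564) (S (nat_lit 32676) (L (nat_lit 4437876))
(L (nat_lit 24552538)))
(L (nat_lit 17523878)))
(L (nat_lit 13231112)))
(L (nat_lit 25802918)))))
(S (nat_lit 42036) (S (nat_lit 1518) (S (nat_lit 31265) (S (nat_lit 7352) (S (nat_lit 42694) (S (nat_lit 27809) (L (nat_lit 19162161))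
(L (nat_lit 15066788)))
(L (nat_lit 23595321)))
(L (nat_lit 21520676)))
(L (nat_lit 30783571)))
(S (nat_lit 21282) (S (nat_lit 29920) (L (nat_lit 3946770))
(S (nat_lit 51694) (S (nat_lit 15605) (S (nat_lit 27809) (L (nat_lit 5785916))
(L (nat_lit 10934053)))
(L (nat_lit 15533394)))
(L (nat_lit 15009554))))
(S (nat_lit 41046) (S (nat_lit 16340) (S (nat_lit 24665) (L (nat_lit 11029657))
(L (nat_lit 16938634)))
(S (nat_lit 51300) (L (nat_lit 2647626))
(L (nat_lit 5120719))))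
(L (nat_lit 25315533)))))
(L (nat_lit 25898030)))))
(S (nat_lit 29512) (S (nat_lit 9755) (S (nat_lit 2492) (S (nat_lit 31938) (S (nat_lit 2500) (L (nat_lit 2713035))
(L (nat_lit 26596401)))
(L (nat_lit 1565942)))
(S (nat_lit 22256) (S (nat_lit 23034) (L (nat_lit 30772878))
(S (nat_lit 56546) (S (nat_lit 35369) (S (nat_lit 32946) (S (nat_lit 7352) (S (nat_lit 55868) (S (nat_lit 43460) (L (nat_lit 15911258))
(L (nat_lit 8410957)))
(L (nat_lit 9868180)))
(L (nat_lit 21539716)))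
(L (nat_lit 15067713)))
(L (nat_lit 30812737)))
(L (nat_lit 3523346))))
(S (nat_lit 42020) (S (nat_lit 20525) (L (nat_lit 20308047))
(L (nat_lit 15474775)))
(L (nat_lit 25893933)))))
(S (nat_lit 29519) (S (nat_lit 32946) (S (nat_lit 22263) (S (nat_lit 47573) (S (nat_lit 4910) (L (nat_lit 7257793))
(L (nat_lit 26748983)))
(L (nat_lit 6211238)))
(L (nat_lit 18215986)))
(L (nat_lit 15067285)))
(S (nat_lit 49283) (S (nat_lit 6323) (S (nat_lit 7352) (S (nat_lit 47573) (S (nat_lit 42694) (L (nat_lit 5797542))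
(L (nat_lit 27730624)))
(L (nat_lit 27645445)))
(L (nat_lit 12738803)))
(S (nat_lit 26087) (S (nat_lit 47573) (S (nat_lit 32946) (S (nat_lit 56546) (S (nat_lit 10508) (L (nat_lit 21163526))
(L (nat_lit 17697011)))
(L (nat_lit 21359661)))
(L (nat_lit 20310560)))
(L (nat_lit 18715302)))
(S (nat_lit 45851) (S (nat_lit 32946) (S (nat_lit 22264) (L (nat_lit 14015581))
(L (nat_lit 22386540)))
(L (nat_lit 20295834)))
(L (nat_lit 25794054)))))
(L (nat_lit 25541283)))))
(S (nat_lit 49276) (S (nat_lit 7367) (S (nat_lit 8) (S (nat_lit 11492) (S (nat_lit 36794) (L (nat_lit 26591319))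
(L (nat_lit 13362529)))
(L (nat_lit 26615893)))
(S (nat_lit 19772) (S (nat_lit 34386) (S (nat_lit 36104) (S (nat_lit 3941) (L (nat_lit 7488338))
(L (nat_lit 5053135)))
(L (nat_lit 20752931)))
(L (nat_lit 15641217)))
(S (nat_lit 39536) (S (nat_lit 31867) (S (nat_lit 39532) (L (nat_lit 5797515))
(L (nat_lit 23131592)))
(S (nat_lit 56558) (S (nat_lit 45851) (L (nat_lit 5961224))
(L (nat_lit 23957000)))
(L (nat_lit 27795538))))
(L (nat_lit 25592150)))))
(S (nat_lit 27131) (S (nat_lit 10508) (S (nat_lit 42694) (S (nat_lit 12913) (L (nat_lit 26355157))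
(L (nat_lit 10208346)))
(L (nat_lit 27402961)))
(S (nat_lit 30272) (S (nat_lit 16337) (S (nat_lit 24671) (L (nat_lit 5793418))
(L (nat_lit 21130478)))
(L (nat_lit 22522627)))
(S (nat_lit 50036) (S (nat_lit 27800) (S (nat_lit 22273) (S (nat_lit 31938) (L (nat_lit 22079014))
(L (nat_lit 19066095)))
(L (nat_lit 8818549)))
(L (nat_lit 2531125)))
(L (nat_lit 25221455)))))
(S (nat_lit 46895) (S (nat_lit 758) (S (nat_lit 2499) (S (nat_lit 36104) (L (nat_lit 20030936))
(L (nat_lit 20360099)))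
(L (nat_lit 16831398)))
(S (nat_lit 20522) (S (nat_lit 9747) (S (nat_lit 11501) (S (nat_lit 8045) (S (nat_lit 53405) (L (nat_lit 5624285))
(L (nat_lit 4481680)))
(L (nat_lit 21774472)))
(L (nat_lit 26913154)))
(S (nat_lit 54991) (L (nat_lit 22132486))
(L (nat_lit 17162326))))
(S (nat_lit 40286) (S (nat_lit 39266) (S (nat_lit 31939) (L (nat_lit 1747416))
(L (nat_lit 17716299)))
(L (nat_lit 17043252)))
(L (nat_lit 25526865)))))
(L (nat_lit 25859280)))))
(L (nat_lit 25176594)))))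
(S (nat_lit 30269) (S (nat_lit 1519) (S (nat_lit 19494) (S (nat_lit 9750) (S (nat_lit 13183) (S (nat_lit 23696) (S (nat_lit 44429) (L (nat_lit 26747459))
(L (nat_lit 12740235)))
(L (nat_lit 13554947)))
(S (nat_lit 42627) (L (nat_lit 26369263))
(L (nat_lit 22545787))))
(S (nat_lit 29514) (S (nat_lit 14311) (L (nat_lit 13198379))
(S (nat_lit 56546) (S (nat_lit 23696) (S (nat_lit 13183) (S (nat_lit 42037) (L (nat_lit 8120462))
(L (nat_lit 1434101)))
(L (nat_lit 13785000)))
(L (nat_lit 13300931)))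
(L (nat_lit 19403526))))
(S (nat_lit 49278) (S (nat_lit 33524) (L (nat_lit 18990397))
(S (nat_lit 44435) (S (nat_lit 46886) (S (nat_lit 10508) (L (nat_lit 29515052))
(L (nat_lit 10084527)))
(L (nat_lit 16920469)))
(L (nat_lit 549451))))
(L (nat_lit 25541188)))))
(S (nat_lit 39258) (S (nat_lit 4907) (S (nat_lit 56546) (S (nat_lit 44426) (L (nat_lit 29506283))
(L (nat_lit 27791607)))
(L (nat_lit 19426499)))
(S (nat_lit 24671) (S (nat_lit 13183) (S (nat_lit 12912) (L (nat_lit 5778138))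
(L (nat_lit 12083286)))
(L (nat_lit 22570152)))
(S (nat_lit 44435) (S (nat_lit 4910) (S (nat_lit 42694) (L (nat_lit 543037))
(L (nat_lit 24652613)))
(L (nat_lit 3681111)))
(L (nat_lit 25603191)))))
(S (nat_lit 59022) (S (nat_lit 8) (S (nat_lit 13183) (S (nat_lit 56546) (S (nat_lit 8045) (L (nat_lit 29757719))
(L (nat_lit 12965765)))
(L (nat_lit 1955023)))
(L (nat_lit 374710)))
(S (nat_lit 19772) (S (nat_lit 28762) (S (nat_lit 27809) (S (nat_lit 12158) (L (nat_lit 28938543))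
(L (nat_lit 21775650)))
(L (nat_lit 2499443)))
(L (nat_lit 18045733)))
(S (nat_lit 39536) (S (nat_lit 56546) (S (nat_lit 13183) (S (nat_lit 32676) (S (nat_lit 12165) (L (nat_lit 5594031))
(L (nat_lit 23410563)))
(L (nat_lit 24668419)))
(L (nat_lit 8291919)))
(L (nat_lit 19343105)))
(L (nat_lit 25593578)))))
(L (nat_lit 25249515)))))
(S (nat_lit 21283) (S (nat_lit 12158) (S (nat_lit 6320) (S (nat_lit 13877) (S (nat_lit 55133) (S (nat_lit 9748) (L (nat_lit 28578511))
(L (nat_lit 26814912)))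
(L (nat_lit 11320434)))
(L (nat_lit 13407540)))
(S (nat_lit 26084) (S (nat_lit 23696) (S (nat_lit 7364) (S (nat_lit 34386) (L (nat_lit 28427912))
(L (nat_lit 10964768)))
(L (nat_lit 10646225)))
(L (nat_lit 21775619)))
(S (nat_lit 45848) (S (nat_lit 39259) (S (nat_lit 53405) (S (nat_lit 46121) (S (nat_lit 37751) (S (nat_lit 9755) (L (nat_lit 28459253))
(L (nat_lit 15458531)))
(L (nat_lit 14325051)))
(L (nat_lit 6084912)))
(L (nat_lit 19842340)))
(S (nat_lit 43299) (L (nat_lit 30498093))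
(L (nat_lit 5029171))))
(L (nat_lit 25761318)))))
(S (nat_lit 31922) (S (nat_lit 19495) (S (nat_lit 57515) (S (nat_lit 39258) (L (nat_lit 548155))
(L (nat_lit 17667383)))
(L (nat_lit 21861676)))
(S (nat_lit 39259) (S (nat_lit 55865) (S (nat_lit 53405) (S (nat_lit 29514) (L (nat_lit 28596239))
(L (nat_lit 31172996)))
(L (nat_lit 18934064)))
(L (nat_lit 1649112)))
(S (nat_lit 59023) (S (nat_lit 13877) (S (nat_lit 17987) (S (nat_lit 19494) (S (nat_lit 45197) (L (nat_lit 29075968))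
(L (nat_lit 14770487)))
(L (nat_lit 25085221)))
(L (nat_lit 18617650)))
(L (nat_lit 24909105)))
(L (nat_lit 25582948)))))
(S (nat_lit 51686) (S (nat_lit 29519) (S (nat_lit 44426) (S (nat_lit 7355) (S (nat_lit 32676) (L (nat_lit 9598542))
(L (nat_lit 19119130)))
(L (nat_lit 26459157)))
(L (nat_lit 27710690)))
(S (nat_lit 45747) (S (nat_lit 15393) (L (nat_lit 12672312))
(L (nat_lit 20407585)))
(L (nat_lit 6050095))))
(L (nat_lit 25433491)))))
(S (nat_lit 41047) (S (nat_lit 8997) (S (nat_lit 12158) (S (nat_lit 17984) (S (nat_lit 55868) (L (nat_lit 23117670))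
(L (nat_lit 16326680)))
(L (nat_lit 18617588)))
(S (nat_lit 31922) (S (nat_lit 25433) (L (nat_lit 23212347))
(L (nat_lit 1816825)))
(S (nat_lit 51686) (S (nat_lit 24659) (S (nat_lit 1518) (L (nat_lit 7493019))
(L (nat_lit 11684781)))
(L (nat_lit 4640121)))
(L (nat_lit 25340309)))))
(S (nat_lit 28761) (S (nat_lit 12912) (L (nat_lit 29508884))
(S (nat_lit 32676) (L (nat_lit 9587100))
(S (nat_lit 52440) (S (nat_lit 32947) (L (nat_lit 26361416))
(L (nat_lit 8940163)))
(L (nat_lit 25922833)))))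
(S (nat_lit 48525) (S (nat_lit 52440) (S (nat_lit 46895) (S (nat_lit 27119) (S (nat_lit 1518) (S (nat_lit 32946) (S (nat_lit 44426) (S (nat_lit 40286) (S (nat_lit 17984) (S (nat_lit 7364) (S (nat_lit 32677) (S (nat_lit 12165) (S (nat_lit 9751) (S (nat_lit 31939) (L (nat_lit 2859421))
(L (nat_lit 19806433)))
(L (nat_lit 21866668)))
(L (nat_lit 21802373)))
(L (nat_lit 30942881)))
(S (nat_lit 27128) (S (nat_lit 14632) (S (nat_lit 16337) (S (nat_lit 42694) (S (nat_lit 24659) (S (nat_lit 9751) (L (nat_lit 5489339))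
(L (nat_lit 2999019)))
(L (nat_lit 22169386)))
(L (nat_lit 27413995)))
(L (nat_lit 17098467)))
(L (nat_lit 22921411)))
(S (nat_lit 46892) (S (nat_lit 51702) (S (nat_lit 56546) (S (nat_lit 42037) (S (nat_lit 9751) (L (nat_lit 5811930))
(L (nat_lit 9168416)))
(L (nat_lit 27646001)))
(L (nat_lit 16510209)))
(L (nat_lit 27927569)))
(L (nat_lit 25400976)))))
(L (nat_lit 7902994)))
(L (nat_lit 4912551)))
(L (nat_lit 27808994)))
(L (nat_lit 30561645)))
(L (nat_lit 26364173)))
(L (nat_lit 24644889)))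
(L (nat_lit 27793129)))
(L (nat_lit 27808003)))
(L (nat_lit 25376886)))))
(L (nat_lit 25309898)))))
(S (nat_lit 50033) (S (nat_lit 0) (S (nat_lit 17030) (S (nat_lit 42694) (S (nat_lit 56546) (S (nat_lit 36788) (S (nat_lit 4910) (S (nat_lit 4901) (L (nat_lit 3779473))
(L (nat_lit 19403068)))
(L (nat_lit 5790012)))
(L (nat_lit 20477096)))
(L (nat_lit 19401480)))
(L (nat_lit 24643900)))
(S (nat_lit 36794) (S (nat_lit 56546) (S (nat_lit 28762) (S (nat_lit 13183) (S (nat_lit 31922) (S (nat_lit 4910) (S (nat_lit 39262) (S (nat_lit 3) (L (nat_lit 8533597))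
(L (nat_lit 8159917)))
(L (nat_lit 20146689)))
(L (nat_lit 15888663)))
(L (nat_lit 19741984)))
(L (nat_lit 22570152)))
(L (nat_lit 30955624)))
(L (nat_lit 21130728)))
(S (nat_lit 56558) (S (nat_lit 24665) (S (nat_lit 56552) (S (nat_lit 28762) (S (nat_lit 13183) (S (nat_lit 44426) (S (nat_lit 7352) (S (nat_lit 42694) (S (nat_lit 7364) (S (nat_lit 22264) (L (nat_lit 11120701))
(L (nat_lit 22066024)))
(L (nat_lit 21501737)))
(L (nat_lit 27796160)))
(L (nat_lit 12723091)))
(L (nat_lit 533114)))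
(L (nat_lit 548776)))
(L (nat_lit 551528)))
(L (nat_lit 27787880)))
(L (nat_lit 4743478)))
(L (nat_lit 25935137)))))
(S (nat_lit 19764) (S (nat_lit 12175) (S (nat_lit 13182) (S (nat_lit 3932) (S (nat_lit 47564) (L (nat_lit 26361446))
(L (nat_lit 18779752)))
(L (nat_lit 14930849)))
(S (nat_lit 32946) (S (nat_lit 56558) (S (nat_lit 24671) (L (nat_lit 30561520))
(L (nat_lit 21506946)))
(L (nat_lit 16697633)))
(S (nat_lit 52710) (S (nat_lit 45188) (L (nat_lit 29985005))
(L (nat_lit 13373687)))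
(L (nat_lit 25517568)))))
(S (nat_lit 31939) (S (nat_lit 4907) (S (nat_lit 31930) (S (nat_lit 9751) (S (nat_lit 44426) (L (nat_lit 31111459))
(L (nat_lit 27791607)))
(L (nat_lit 15542290)))
(L (nat_lit 24970480)))
(S (nat_lit 24671) (S (nat_lit 56552) (S (nat_lit 50036) (L (nat_lit 1810840))
(L (nat_lit 22811014)))
(L (nat_lit 27798115)))
(S (nat_lit 44435) (S (nat_lit 4910) (S (nat_lit 36788) (L (nat_lit 11580058))
(L (nat_lit 5778041)))
(L (nat_lit 3681111)))
(L (nat_lit 25603682)))))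
(S (nat_lit 51703) (S (nat_lit 7352) (S (nat_lit 12174) (S (nat_lit 44426) (S (nat_lit 33632) (S (nat_lit 51686) (L (nat_lit 19336442))
(L (nat_lit 12767482)))
(L (nat_lit 16582964)))
(L (nat_lit 27414766)))
(S (nat_lit 25341) (L (nat_lit 8578450))
(L (nat_lit 18666789))))
(S (nat_lit 27116) (S (nat_lit 19497) (S (nat_lit 3932) (L (nat_lit 29988141))
(L (nat_lit 20251533)))
(L (nat_lit 22416633)))
(S (nat_lit 46880) (S (nat_lit 1) (S (nat_lit 3932) (L (nat_lit 14821979))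
(L (nat_lit 20792422)))
(L (nat_lit 19935482)))
(L (nat_lit 25731221)))))
(L (nat_lit 25744395)))))
(S (nat_lit 39528) (S (nat_lit 19502) (S (nat_lit 14623) (S (nat_lit 19767) (S (nat_lit 51703) (S (nat_lit 45197) (L (nat_lit 23932998))
(L (nat_lit 24602695)))
(L (nat_lit 15425606)))
(L (nat_lit 4017606)))
(S (nat_lit 34387) (S (nat_lit 55865) (S (nat_lit 49276) (S (nat_lit 29515) (L (nat_lit 5089932))
(L (nat_lit 6037911)))
(L (nat_lit 3927558)))
(L (nat_lit 10247617)))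
(S (nat_lit 54151) (S (nat_lit 15596) (S (nat_lit 2499) (S (nat_lit 44426) (L (nat_lit 18442282))
(L (nat_lit 15393962)))
(L (nat_lit 4933542)))
(L (nat_lit 22422435)))
(L (nat_lit 25497166)))))
(S (nat_lit 39266) (S (nat_lit 6320) (S (nat_lit 49275) (S (nat_lit 55124) (S (nat_lit 13877) (S (nat_lit 56546) (L (nat_lit 28969351))
(L (nat_lit 14347302)))
(L (nat_lit 11322948)))
(L (nat_lit 11322945)))
(L (nat_lit 3927496)))
(S (nat_lit 26084) (S (nat_lit 39262) (S (nat_lit 9747) (L (nat_lit 4408115))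
(L (nat_lit 17162326)))
(L (nat_lit 20148641)))
(S (nat_lit 45848) (S (nat_lit 39529) (S (nat_lit 9750) (L (nat_lit 28690446))
(L (nat_lit 17649672)))
(L (nat_lit 24570888)))
(L (nat_lit 25742688)))))
(S (nat_lit 59030) (S (nat_lit 36740) (L (nat_lit 18970152))
(S (nat_lit 54143) (S (nat_lit 56546) (S (nat_lit 13183) (S (nat_lit 45851) (S (nat_lit 28762) (S (nat_lit 4) (L (nat_lit 19128705))
(L (nat_lit 20374632)))
(L (nat_lit 19742824)))
(L (nat_lit 9028664)))
(L (nat_lit 6817435)))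
(L (nat_lit 21130728)))
(L (nat_lit 4845064))))
(L (nat_lit 25365970)))))
(L (nat_lit 25795629)))))
(L (nat_lit 25287174)))))
(S (nat_lit 38509) (S (nat_lit 7358) (S (nat_lit 24671) (S (nat_lit 24674) (S (nat_lit 56546) (S (nat_lit 13183) (S (nat_lit 13182) (S (nat_lit 3166) (S (nat_lit 4898) (S (nat_lit 27128) (S (nat_lit 36794) (S (nat_lit 12913) (S (nat_lit 7355) (S (nat_lit 46880) (S (nat_lit 21282) (S (nat_lit 21283) (S (nat_lit 5660) (S (nat_lit 46121) (S (nat_lit 54160) (S (nat_lit 55865) (S (nat_lit 33632) (L (nat_lit 3421945))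
(L (nat_lit 23988777)))
(L (nat_lit 21217368)))
(L (nat_lit 17931094)))
(L (nat_lit 17931000)))
(S (nat_lit 25424) (S (nat_lit 39529) (S (nat_lit 26357) (S (nat_lit 39532) (L (nat_lit 5020116))
(L (nat_lit 11138531)))
(L (nat_lit 2562811)))
(L (nat_lit 11138467)))
(S (nat_lit 45188) (S (nat_lit 14632) (S (nat_lit 6323) (S (nat_lit 19497) (L (nat_lit 2341531))
(L (nat_lit 26694885)))
(L (nat_lit 26781312)))
(L (nat_lit 905767)))
(L (nat_lit 25399702)))))
(L (nat_lit 11011837)))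
(L (nat_lit 11030369)))
(L (nat_lit 22544696)))
(L (nat_lit 552211)))
(L (nat_lit 3682226)))
(L (nat_lit 20453465)))
(L (nat_lit 12064409)))
(L (nat_lit 20456192)))
(L (nat_lit 26757158)))
(L (nat_lit 26739270)))
(L (nat_lit 24667458)))
(L (nat_lit 6820628)))
(L (nat_lit 30943383)))
(L (nat_lit 22572202)))
(S (nat_lit 27122) (S (nat_lit 4907) (S (nat_lit 28762) (S (nat_lit 36788) (S (nat_lit 56546) (S (nat_lit 13183) (S (nat_lit 13182) (S (nat_lit 46880) (S (nat_lit 17030) (S (nat_lit 21282) (S (nat_lit 4898) (S (nat_lit 12913) (S (nat_lit 7355) (S (nat_lit 44423) (S (nat_lit 24665) (S (nat_lit 21283) (S (nat_lit 2508) (S (nat_lit 9751) (S (nat_lit 6320) (S (nat_lit 39529) (L (nat_lit 1424121))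
(L (nat_lit 25075106)))
(L (nat_lit 19238702)))
(L (nat_lit 11391365)))
(S (nat_lit 22272) (S (nat_lit 39532) (S (nat_lit 22263) (S (nat_lit 34395) (S (nat_lit 39259) (L (nat_lit 4661853))
(L (nat_lit 23963108)))
(L (nat_lit 24025260)))
(L (nat_lit 9295332)))
(L (nat_lit 23967010)))
(S (nat_lit 42036) (S (nat_lit 54159) (S (nat_lit 20522) (S (nat_lit 40289) (S (nat_lit 51693) (L (nat_lit 6072758))
(L (nat_lit 27924869)))
(L (nat_lit 27930821)))
(L (nat_lit 22394692)))
(L (nat_lit 21219136)))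
(L (nat_lit 25659079)))))
(L (nat_lit 22573194)))
(L (nat_lit 8942646)))
(L (nat_lit 23600152)))
(L (nat_lit 21522441)))
(L (nat_lit 26744423)))
(L (nat_lit 7869239)))
(L (nat_lit 11010931)))
(L (nat_lit 12079875)))
(L (nat_lit 7887002)))
(L (nat_lit 1596792)))
(L (nat_lit 1579610)))
(L (nat_lit 19402970)))
(L (nat_lit 23617763)))
(L (nat_lit 19403561)))
(L (nat_lit 20477098)))
(S (nat_lit 46886) (S (nat_lit 12165) (S (nat_lit 19497) (S (nat_lit 36142) (L (nat_lit 8537908))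
(S (nat_lit 46892) (S (nat_lit 12158) (S (nat_lit 29519) (S (nat_lit 19498) (S (nat_lit 12175) (S (nat_lit 10508) (L (nat_lit 16474341))
(L (nat_lit 26853603)))
(L (nat_lit 18575585)))
(L (nat_lit 25083108)))
(L (nat_lit 24918307)))
(S (nat_lit 44478) (L (nat_lit 10635124))
(L (nat_lit 18113555))))
(L (nat_lit 9980984))))
(S (nat_lit 39261) (S (nat_lit 3941) (S (nat_lit 39529) (S (nat_lit 37748) (S (nat_lit 10508) (S (nat_lit 39262) (S (nat_lit 56546) (S (nat_lit 26087) (L (nat_lit 28982406))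
(L (nat_lit 13945762)))
(L (nat_lit 21523558)))
(L (nat_lit 10510093)))
(L (nat_lit 15635016)))
(L (nat_lit 23301625)))
(L (nat_lit 11586479)))
(S (nat_lit 23705) (S (nat_lit 55124) (S (nat_lit 31938) (L (nat_lit 19142447))
(L (nat_lit 31076643)))
(L (nat_lit 12183009)))
(S (nat_lit 43469) (S (nat_lit 13868) (S (nat_lit 12158) (L (nat_lit 20254205))
(L (nat_lit 23903241)))
(L (nat_lit 13404468)))
(L (nat_lit 25352614)))))
(S (nat_lit 59025) (S (nat_lit 35953) (L (nat_lit 10635740))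
(S (nat_lit 46892) (S (nat_lit 31939) (S (nat_lit 26087) (S (nat_lit 34396) (L (nat_lit 20036861))
(L (nat_lit 20268835)))
(L (nat_lit 22581160)))
(L (nat_lit 5133552)))
(L (nat_lit 9588152))))
(L (nat_lit 25767333)))))
(S (nat_lit 31929) (S (nat_lit 7355) (S (nat_lit 56552) (S (nat_lit 44423) (S (nat_lit 46892) (S (nat_lit 31930) (S (nat_lit 56546) (S (nat_lit 46121) (S (nat_lit 4898) (S (nat_lit 9751) (L (nat_lit 1323613))
(L (nat_lit 4414321)))
(L (nat_lit 26354284)))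
(L (nat_lit 4791770)))
(L (nat_lit 21523560)))
(L (nat_lit 17437547)))
(L (nat_lit 9588152)))
(L (nat_lit 27805706)))
(L (nat_lit 27787506)))
(S (nat_lit 27119) (S (nat_lit 46892) (S (nat_lit 32676) (L (nat_lit 7487194))
(L (nat_lit 19034571)))
(L (nat_lit 27792073)))
(S (nat_lit 46883) (S (nat_lit 46121) (S (nat_lit 16146) (L (nat_lit 10161969))
(S (nat_lit 31930) (S (nat_lit 25433) (S (nat_lit 46118) (S (nat_lit 39259) (S (nat_lit 46892) (L (nat_lit 17965720))
(L (nat_lit 17982151)))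
(L (nat_lit 14315812)))
(L (nat_lit 22486885)))
(L (nat_lit 31169984)))
(L (nat_lit 12387799))))
(L (nat_lit 20388954)))
(L (nat_lit 25315601)))))
(S (nat_lit 51693) (S (nat_lit 7352) (S (nat_lit 3166) (S (nat_lit 46892) (L (nat_lit 29510022))
(L (nat_lit 9980984)))
(L (nat_lit 4744939)))
(S (nat_lit 27116) (S (nat_lit 17030) (L (nat_lit 14819993))
(L (nat_lit 12079196)))
(S (nat_lit 46880) (S (nat_lit 46892) (S (nat_lit 3166) (S (nat_lit 56546) (S (nat_lit 28762) (S (nat_lit 44435) (S (nat_lit 44429) (S (nat_lit 40289) (S (nat_lit 8045) (L (nat_lit 4568701))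
(L (nat_lit 26886405)))
(L (nat_lit 10368645)))
(L (nat_lit 23597336)))
(L (nat_lit 23604344)))
(L (nat_lit 30955624)))
(L (nat_lit 21523496)))
(S (nat_lit 21853) (L (nat_lit 23621987))
(L (nat_lit 16867637))))
(L (nat_lit 27808777)))
(L (nat_lit 25862693)))))
(L (nat_lit 25891272)))))
(L (nat_lit 25791943)))))
(S (nat_lit 58273) (S (nat_lit 19497) (S (nat_lit 4898) (S (nat_lit 2499) (S (nat_lit 19494) (S (nat_lit 37751) (L (nat_lit 23217400))
(L (nat_lit 4406905)))
(S (nat_lit 39258) (S (nat_lit 23705) (L (nat_lit 19982573))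
(S (nat_lit 31061) (S (nat_lit 24659) (L (nat_lit 17507108))
(L (nat_lit 30676686)))
(L (nat_lit 11460067))))
(S (nat_lit 59022) (S (nat_lit 6320) (S (nat_lit 52441) (L (nat_lit 18918159))
(L (nat_lit 14820985)))
(L (nat_lit 12142370)))
(L (nat_lit 25759025)))))
(S (nat_lit 22263) (S (nat_lit 14615) (S (nat_lit 4053) (L (nat_lit 8536882))
(S (nat_lit 27119) (S (nat_lit 33632) (L (nat_lit 20352875))
(L (nat_lit 11592336)))
(L (nat_lit 30951748))))
(S (nat_lit 34379) (S (nat_lit 6320) (S (nat_lit 56546) (L (nat_lit 29508854))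
(L (nat_lit 21130664)))
(L (nat_lit 19252412)))
(S (nat_lit 54143) (S (nat_lit 16340) (S (nat_lit 59030) (L (nat_lit 26301712))
(L (nat_lit 27727496)))
(S (nat_lit 44349) (L (nat_lit 28451283))
(L (nat_lit 8836125))))
(L (nat_lit 25646216)))))
(S (nat_lit 42027) (S (nat_lit 6320) (S (nat_lit 59022) (S (nat_lit 56546) (S (nat_lit 47573) (L (nat_lit 13214842))
(L (nat_lit 16832262)))
(L (nat_lit 15806226)))
(L (nat_lit 27727159)))
(L (nat_lit 19252348)))
(L (nat_lit 25506532)))))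
(S (nat_lit 24662) (S (nat_lit 3) (S (nat_lit 3166) (S (nat_lit 33632) (S (nat_lit 23696) (S (nat_lit 12912) (L (nat_lit 5775965))
(L (nat_lit 26652323)))
(L (nat_lit 13389928)))
(L (nat_lit 20319481)))
(S (nat_lit 22930) (S (nat_lit 27116) (S (nat_lit 44438) (S (nat_lit 8036) (S (nat_lit 42037) (S (nat_lit 52441) (L (nat_lit 15605377))
(L (nat_lit 28026305)))
(L (nat_lit 27994528)))
(L (nat_lit 1882792)))
(L (nat_lit 23604000)))
(L (nat_lit 30941363)))
(S (nat_lit 42694) (S (nat_lit 17030) (S (nat_lit 25433) (L (nat_lit 9526682))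
(L (nat_lit 17620256)))
(L (nat_lit 16851764)))
(L (nat_lit 25759980)))))
(S (nat_lit 19767) (S (nat_lit 19494) (S (nat_lit 33066) (L (nat_lit 20060637))
(S (nat_lit 44438) (S (nat_lit 53405) (S (nat_lit 1519) (S (nat_lit 27116) (S (nat_lit 32676) (S (nat_lit 39532) (L (nat_lit 29992081))
(L (nat_lit 27708707)))
(L (nat_lit 30955531)))
(L (nat_lit 14852917)))
(L (nat_lit 9587258)))
(L (nat_lit 4612402)))
(L (nat_lit 2534295))))
(S (nat_lit 39258) (S (nat_lit 44438) (S (nat_lit 27116) (S (nat_lit 52710) (S (nat_lit 32676) (S (nat_lit 45197) (S (nat_lit 9747) (S (nat_lit 55124) (L (nat_lit 6337176))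
(L (nat_lit 12376173)))
(L (nat_lit 21539618)))
(L (nat_lit 23388172)))
(L (nat_lit 19119194)))
(L (nat_lit 19438337)))
(L (nat_lit 14870837)))
(L (nat_lit 15599927)))
(S (nat_lit 59022) (S (nat_lit 4315) (L (nat_lit 483574))
(S (nat_lit 27116) (S (nat_lit 28762) (S (nat_lit 22273) (S (nat_lit 4895) (S (nat_lit 17030) (S (nat_lit 13183) (S (nat_lit 16337) (L (nat_lit 9049499))
(L (nat_lit 2534140)))
(L (nat_lit 26369576)))
(L (nat_lit 22820131)))
(L (nat_lit 19404124)))
(L (nat_lit 30846661)))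
(L (nat_lit 9964343)))
(L (nat_lit 24650596))))
(L (nat_lit 25181557)))))
(S (nat_lit 39531) (S (nat_lit 17984) (S (nat_lit 14083) (L (nat_lit 4762299))
(S (nat_lit 31922) (S (nat_lit 25433) (L (nat_lit 1954031))
(L (nat_lit 21456098)))
(L (nat_lit 19053819))))
(S (nat_lit 37748) (S (nat_lit 27116) (S (nat_lit 33632) (S (nat_lit 16337) (S (nat_lit 39262) (L (nat_lit 24937805))
(L (nat_lit 31079649)))
(L (nat_lit 5155503)))
(L (nat_lit 20373733)))
(L (nat_lit 2748657)))
(S (nat_lit 57512) (S (nat_lit 4901) (S (nat_lit 27119) (S (nat_lit 4910) (L (nat_lit 24263933))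
(L (nat_lit 15785802)))
(L (nat_lit 12061523)))
(L (nat_lit 26367276)))
(L (nat_lit 25935040)))))
(L (nat_lit 25375826)))))
(S (nat_lit 44426) (S (nat_lit 16337) (S (nat_lit 13868) (S (nat_lit 30272) (L (nat_lit 29416686))
(L (nat_lit 12642547)))
(S (nat_lit 33632) (S (nat_lit 37748) (S (nat_lit 51694) (L (nat_lit 30558446))
(L (nat_lit 14968417)))
(L (nat_lit 20845804)))
(S (nat_lit 53396) (S (nat_lit 13474) (L (nat_lit 23553195))
(S (nat_lit 44429) (L (nat_lit 21111290))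
(L (nat_lit 14967958))))
(L (nat_lit 25561330)))))
(S (nat_lit 36101) (S (nat_lit 14631) (S (nat_lit 35360) (S (nat_lit 22264) (S (nat_lit 56552) (L (nat_lit 26693955))
(L (nat_lit 21524705)))
(L (nat_lit 13407976)))
(L (nat_lit 13213819)))
(S (nat_lit 34395) (S (nat_lit 6323) (L (nat_lit 28513847))
(L (nat_lit 6077686)))
(S (nat_lit 54159) (S (nat_lit 12166) (S (nat_lit 30272) (L (nat_lit 5690619))
(L (nat_lit 13297891)))
(S (nat_lit 35941) (L (nat_lit 29499858))
(L (nat_lit 21807179))))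
(L (nat_lit 25270925)))))
(S (nat_lit 55865) (S (nat_lit 11492) (S (nat_lit 9751) (L (nat_lit 467827))
(S (nat_lit 37350) (L (nat_lit 5120721))
(L (nat_lit 26779671))))
(S (nat_lit 31256) (S (nat_lit 4895) (S (nat_lit 15596) (S (nat_lit 54160) (L (nat_lit 6178470))
(L (nat_lit 17506489)))
(L (nat_lit 22422433)))
(L (nat_lit 20453291)))
(S (nat_lit 51020) (S (nat_lit 29511) (S (nat_lit 56558) (L (nat_lit 21111662))
(L (nat_lit 27805768)))
(L (nat_lit 19665354)))
(L (nat_lit 25174638)))))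
(L (nat_lit 25399764)))))
(L (nat_lit 25465454)))))
(S (nat_lit 39261) (S (nat_lit 13182) (S (nat_lit 4) (S (nat_lit 4895) (S (nat_lit 17024) (L (nat_lit 29501975))
(L (nat_lit 14833917)))
(S (nat_lit 24659) (S (nat_lit 27116) (S (nat_lit 7355) (S (nat_lit 41047) (S (nat_lit 21282) (S (nat_lit 28761) (L (nat_lit 1330094))
(L (nat_lit 12743334)))
(L (nat_lit 7893729)))
(L (nat_lit 8933186)))
(L (nat_lit 26762247)))
(L (nat_lit 14838069)))
(S (nat_lit 44423) (S (nat_lit 7355) (S (nat_lit 27131) (S (nat_lit 7364) (L (nat_lit 4727389))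
(L (nat_lit 12833820)))
(L (nat_lit 11683417)))
(L (nat_lit 21501980)))
(L (nat_lit 25828428)))))
(S (nat_lit 19768) (S (nat_lit 4910) (S (nat_lit 44429) (L (nat_lit 15888690))
(L (nat_lit 27526679)))
(S (nat_lit 24674) (S (nat_lit 4907) (L (nat_lit 20065165))
(S (nat_lit 25243) (L (nat_lit 24165130))
(L (nat_lit 7887997))))
(S (nat_lit 44438) (S (nat_lit 27122) (L (nat_lit 5778073))
(L (nat_lit 19405732)))
(L (nat_lit 25311882)))))
(S (nat_lit 39532) (S (nat_lit 3166) (L (nat_lit 4584981))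
(S (nat_lit 22930) (S (nat_lit 31427) (L (nat_lit 7491034))
(S (nat_lit 59026) (S (nat_lit 19767) (S (nat_lit 27131) (S (nat_lit 12912) (S (nat_lit 31938) (S (nat_lit 24674) (S (nat_lit 49279) (S (nat_lit 23493) (L (nat_lit 9452282))
(L (nat_lit 4738298)))
(L (nat_lit 3567174)))
(L (nat_lit 8936192)))
(L (nat_lit 30756291)))
(L (nat_lit 23930307)))
(L (nat_lit 11685337)))
(S (nat_lit 47691) (L (nat_lit 18650760))
(L (nat_lit 31031597))))
(L (nat_lit 480505))))
(S (nat_lit 42694) (S (nat_lit 56552) (L (nat_lit 28451501))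
(L (nat_lit 27721970)))
(L (nat_lit 25246004)))))
(L (nat_lit 25211529)))))
(S (nat_lit 32946) (S (nat_lit 12158) (S (nat_lit 6323) (S (nat_lit 51702) (S (nat_lit 17984) (S (nat_lit 24671) (L (nat_lit 11687483))
(L (nat_lit 4646134)))
(L (nat_lit 15848700)))
(S (nat_lit 58908) (S (nat_lit 32519) (L (nat_lit 2510603))
(L (nat_lit 15485217)))
(L (nat_lit 20887779))))
(L (nat_lit 20757730)))
(S (nat_lit 31922) (S (nat_lit 7364) (S (nat_lit 6323) (L (nat_lit 26676466))
(L (nat_lit 20036860)))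
(S (nat_lit 27128) (S (nat_lit 39266) (L (nat_lit 5034319))
(L (nat_lit 30873222)))
(S (nat_lit 46892) (S (nat_lit 21283) (S (nat_lit 44438) (L (nat_lit 29502063))
(L (nat_lit 14838411)))
(L (nat_lit 14837973)))
(L (nat_lit 25793873)))))
(S (nat_lit 51686) (S (nat_lit 17984) (S (nat_lit 53396) (S (nat_lit 26087) (S (nat_lit 9755) (L (nat_lit 11689741))
(L (nat_lit 17377404)))
(L (nat_lit 31014114)))
(L (nat_lit 18582778)))
(L (nat_lit 24906990)))
(L (nat_lit 25824494)))))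
(S (nat_lit 52710) (S (nat_lit 5660) (S (nat_lit 9750) (S (nat_lit 13183) (S (nat_lit 56546) (S (nat_lit 28762) (S (nat_lit 27116) (S (nat_lit 46883) (S (nat_lit 55124) (S (nat_lit 32676) (S (nat_lit 349) (L (nat_lit 3844664))
(L (nat_lit 15823220)))
(L (nat_lit 11268485)))
(L (nat_lit 11125818)))
(L (nat_lit 18618387)))
(L (nat_lit 24651929)))
(L (nat_lit 18955048)))
(L (nat_lit 18957064)))
(S (nat_lit 46522) (L (nat_lit 20724774))
(L (nat_lit 26352271))))
(S (nat_lit 29514) (S (nat_lit 56552) (L (nat_lit 28457576))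
(L (nat_lit 27412168)))
(S (nat_lit 49278) (S (nat_lit 34386) (S (nat_lit 34379) (L (nat_lit 29611148))
(L (nat_lit 20721832)))
(L (nat_lit 20720128)))
(L (nat_lit 25766436)))))
(S (nat_lit 25424) (S (nat_lit 15515) (S (nat_lit 13571) (S (nat_lit 52647) (L (nat_lit 21370203))
(L (nat_lit 26580556)))
(L (nat_lit 17507235)))
(S (nat_lit 15596) (S (nat_lit 24662) (S (nat_lit 8997) (S (nat_lit 9750) (S (nat_lit 1519) (S (nat_lit 31256) (S (nat_lit 59026) (S (nat_lit 28762) (S (nat_lit 22930) (L (nat_lit 5655897))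
(L (nat_lit 30482932)))
(L (nat_lit 30556498)))
(L (nat_lit 2502265)))
(L (nat_lit 4834155)))
(L (nat_lit 19017615)))
(L (nat_lit 17684650)))
(S (nat_lit 11265) (L (nat_lit 14413153))
(L (nat_lit 16864167))))
(L (nat_lit 16834806)))
(L (nat_lit 4923836))))
(S (nat_lit 45188) (S (nat_lit 9755) (S (nat_lit 12289) (L (nat_lit 802103))
(S (nat_lit 54150) (L (nat_lit 4671740))
(L (nat_lit 17705111))))
(S (nat_lit 29519) (S (nat_lit 13183) (S (nat_lit 27116) (S (nat_lit 28762) (S (nat_lit 11501) (L (nat_lit 11612856))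
(L (nat_lit 7819170)))
(L (nat_lit 19427368)))
(L (nat_lit 15368505)))
(S (nat_lit 46078) (L (nat_lit 15008409))
(L (nat_lit 26369359))))
(S (nat_lit 49283) (S (nat_lit 56546) (S (nat_lit 36788) (S (nat_lit 42020) (S (nat_lit 13868) (L (nat_lit 12807779))
(L (nat_lit 14437669)))
(L (nat_lit 27628237)))
(L (nat_lit 23224712)))
(L (nat_lit 21442305)))
(L (nat_lit 25725607)))))
(L (nat_lit 25182951)))))
(L (nat_lit 25343349)))))
(S (nat_lit 59025) (S (nat_lit 14615) (S (nat_lit 14623) (S (nat_lit 11492) (S (nat_lit 14631) (S (nat_lit 761) (S (nat_lit 26357) (L (nat_lit 29822229))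
(L (nat_lit 19341221)))
(L (nat_lit 380381)))
(L (nat_lit 24585121)))
(S (nat_lit 31256) (S (nat_lit 13868) (S (nat_lit 27131) (S (nat_lit 13183) (L (nat_lit 2500435))
(L (nat_lit 26588803)))
(L (nat_lit 24954052)))
(L (nat_lit 769341)))
(S (nat_lit 51020) (S (nat_lit 22930) (S (nat_lit 14631) (S (nat_lit 39266) (S (nat_lit 27116) (S (nat_lit 44438) (L (nat_lit 12018306))
(L (nat_lit 2940427)))
(L (nat_lit 19425572)))
(L (nat_lit 20408326)))
(L (nat_lit 10088961)))
(L (nat_lit 13207869)))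
(L (nat_lit 25801802)))))
(S (nat_lit 34387) (S (nat_lit 17024) (S (nat_lit 20525) (S (nat_lit 13183) (L (nat_lit 26596741))
(L (nat_lit 26740360)))
(L (nat_lit 15803318)))
(S (nat_lit 36788) (S (nat_lit 24662) (S (nat_lit 56546) (S (nat_lit 39266) (S (nat_lit 34396) (S (nat_lit 39258) (L (nat_lit 28354160))
(L (nat_lit 20387721)))
(L (nat_lit 20407491)))
(L (nat_lit 14472264)))
(L (nat_lit 19335942)))
(L (nat_lit 30937334)))
(S (nat_lit 56552) (S (nat_lit 4907) (S (nat_lit 56558) (L (nat_lit 21335853))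
(L (nat_lit 27807880)))
(L (nat_lit 19409020)))
(L (nat_lit 25309896)))))
(S (nat_lit 54151) (S (nat_lit 4910) (S (nat_lit 27116) (S (nat_lit 56552) (L (nat_lit 8546927))
(L (nat_lit 27641443)))
(L (nat_lit 19016561)))
(S (nat_lit 24674) (S (nat_lit 6323) (L (nat_lit 1596728))
(S (nat_lit 56505) (L (nat_lit 4762329))
(L (nat_lit 5881085))))
(S (nat_lit 44438) (S (nat_lit 51020) (S (nat_lit 34395) (S (nat_lit 29514) (S (nat_lit 19494) (S (nat_lit 3166) (L (nat_lit 4682994))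
(L (nat_lit 14837045)))
(L (nat_lit 24587449)))
(L (nat_lit 19251228)))
(L (nat_lit 20178464)))
(L (nat_lit 14771539)))
(L (nat_lit 25832590)))))
(L (nat_lit 25901191)))))
(S (nat_lit 34379) (S (nat_lit 2492) (S (nat_lit 17018) (S (nat_lit 27116) (S (nat_lit 48525) (L (nat_lit 29437615))
(L (nat_lit 20474982)))
(L (nat_lit 14854965)))
(S (nat_lit 36782) (S (nat_lit 6323) (S (nat_lit 13183) (L (nat_lit 28546705))
(L (nat_lit 26359432)))
(L (nat_lit 3524252)))
(S (nat_lit 56546) (S (nat_lit 44438) (S (nat_lit 29519) (S (nat_lit 34396) (L (nat_lit 20756705))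
(L (nat_lit 2902287)))
(L (nat_lit 19669039)))
(L (nat_lit 15379514)))
(L (nat_lit 25540660)))))
(S (nat_lit 22256) (S (nat_lit 12912) (S (nat_lit 21283) (S (nat_lit 34396) (S (nat_lit 56546) (L (nat_lit 28451502))
(L (nat_lit 6452879)))
(L (nat_lit 15309603)))
(L (nat_lit 11233455)))
(S (nat_lit 32676) (S (nat_lit 7188) (L (nat_lit 15597941))
(S (nat_lit 52441) (S (nat_lit 41046) (L (nat_lit 2422477))
(L (nat_lit 24651521)))
(L (nat_lit 15013497))))
(S (nat_lit 52440) (S (nat_lit 56558) (L (nat_lit 20067144))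
(L (nat_lit 27740296)))
(L (nat_lit 25499247)))))
(S (nat_lit 42020) (S (nat_lit 3) (S (nat_lit 17356) (L (nat_lit 2893271))
(S (nat_lit 46883) (S (nat_lit 52441) (S (nat_lit 23696) (S (nat_lit 45188) (S (nat_lit 27116) (S (nat_lit 49279) (L (nat_lit 3355324))
(L (nat_lit 14461106)))
(L (nat_lit 12087908)))
(L (nat_lit 7357144)))
(L (nat_lit 7763649)))
(L (nat_lit 20266009)))
(L (nat_lit 18618419))))
(S (nat_lit 56773) (S (nat_lit 58717) (L (nat_lit 20385021))
(L (nat_lit 20721952)))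
(L (nat_lit 20709676))))
(L (nat_lit 25272047)))))
(S (nat_lit 54143) (S (nat_lit 14631) (S (nat_lit 9747) (S (nat_lit 31922) (S (nat_lit 56546) (S (nat_lit 22263) (L (nat_lit 14767974))
(L (nat_lit 12940996)))
(L (nat_lit 13792840)))
(L (nat_lit 17637984)))
(S (nat_lit 29511) (S (nat_lit 12174) (S (nat_lit 56546) (S (nat_lit 22930) (L (nat_lit 18964717))
(L (nat_lit 13181733)))
(L (nat_lit 19360872)))
(L (nat_lit 18612840)))
(S (nat_lit 49275) (S (nat_lit 36101) (S (nat_lit 39258) (S (nat_lit 3941) (L (nat_lit 1876717))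
(L (nat_lit 17652840)))
(L (nat_lit 8176821)))
(L (nat_lit 13410979)))
(L (nat_lit 25377410)))))
(S (nat_lit 34395) (S (nat_lit 6590) (S (nat_lit 7364) (S (nat_lit 34396) (L (nat_lit 1683345))
(L (nat_lit 20016650)))
(L (nat_lit 10646225)))
(S (nat_lit 26354) (S (nat_lit 51020) (S (nat_lit 59026) (S (nat_lit 59022) (L (nat_lit 29820616))
(L (nat_lit 19342523)))
(L (nat_lit 27733700)))
(L (nat_lit 14755605)))
(S (nat_lit 46118) (S (nat_lit 7358) (S (nat_lit 31930) (L (nat_lit 4933419))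
(L (nat_lit 25046404)))
(L (nat_lit 11029349)))
(L (nat_lit 25474757)))))
(S (nat_lit 54159) (S (nat_lit 5660) (S (nat_lit 56546) (S (nat_lit 39262) (S (nat_lit 4901) (L (nat_lit 12605255))
(L (nat_lit 19426442)))
(L (nat_lit 20387594)))
(L (nat_lit 18967759)))
(S (nat_lit 25424) (S (nat_lit 59026) (S (nat_lit 26354) (S (nat_lit 54151) (L (nat_lit 27311351))
(L (nat_lit 18655811)))
(L (nat_lit 19333337)))
(L (nat_lit 21439644)))
(S (nat_lit 45188) (S (nat_lit 22930) (S (nat_lit 13868) (S (nat_lit 56546) (L (nat_lit 9035857))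
(L (nat_lit 13707026)))
(L (nat_lit 809200)))
(L (nat_lit 13209853)))
(L (nat_lit 25645065)))))
(L (nat_lit 25805963)))))
(L (nat_lit 25625812)))))
(L (nat_lit 25832497)))))
(L (nat_lit 25541651)))))
(S (nat_lit 56561) (S (nat_lit 12165) (S (nat_lit 1518) (S (nat_lit 16337) (S (nat_lit 12166) (S (nat_lit 6320) (S (nat_lit 51703) (S (nat_lit 19502) (L (nat_lit 28575123))
(L (nat_lit 26694726)))
(L (nat_lit 14868786)))
(S (nat_lit 26084) (S (nat_lit 15605) (S (nat_lit 2508) (S (nat_lit 8036) (L (nat_lit 26293588))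
(L (nat_lit 1891880)))
(L (nat_lit 26717922)))
(L (nat_lit 24393603)))
(S (nat_lit 45848) (S (nat_lit 2508) (S (nat_lit 17987) (S (nat_lit 27122) (S (nat_lit 16340) (S (nat_lit 40286) (L (nat_lit 8542680))
(L (nat_lit 9948068)))
(L (nat_lit 26710226)))
(L (nat_lit 3689385)))
(L (nat_lit 24907274)))
(L (nat_lit 15413154)))
(L (nat_lit 25767086)))))
(S (nat_lit 31930) (S (nat_lit 2508) (S (nat_lit 7726) (L (nat_lit 10240087))
(S (nat_lit 9751) (S (nat_lit 53405) (S (nat_lit 40286) (S (nat_lit 49278) (S (nat_lit 9748) (L (nat_lit 19833006))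
(L (nat_lit 17541275)))
(L (nat_lit 1989000)))
(L (nat_lit 17713413)))
(L (nat_lit 4630290)))
(L (nat_lit 17392806))))
(S (nat_lit 39671) (L (nat_lit 4874790))
(L (nat_lit 2831704))))
(S (nat_lit 51694) (S (nat_lit 2508) (S (nat_lit 57515) (S (nat_lit 9751) (S (nat_lit 17984) (S (nat_lit 2499) (S (nat_lit 7358) (L (nat_lit 20383496))
(L (nat_lit 21928421)))
(L (nat_lit 2438066)))
(L (nat_lit 26712242)))
(L (nat_lit 17666790)))
(L (nat_lit 15635762)))
(S (nat_lit 19150) (L (nat_lit 2535346))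
(L (nat_lit 4927408))))
(L (nat_lit 25891053)))))
(S (nat_lit 36101) (S (nat_lit 2492) (S (nat_lit 16340) (S (nat_lit 32947) (S (nat_lit 54151) (S (nat_lit 39259) (L (nat_lit 28639984))
(L (nat_lit 5035309)))
(L (nat_lit 5593935)))
(L (nat_lit 23423151)))
(S (nat_lit 40344) (S (nat_lit 23847) (L (nat_lit 10543854))
(L (nat_lit 12249507)))
(L (nat_lit 11440845))))
(S (nat_lit 22256) (S (nat_lit 30272) (S (nat_lit 18710) (L (nat_lit 18762083))
(S (nat_lit 19765) (S (nat_lit 12158) (S (nat_lit 32947) (S (nat_lit 40289) (S (nat_lit 45851) (S (nat_lit 17030) (L (nat_lit 28393844))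
(L (nat_lit 26983715)))
(L (nat_lit 15648992)))
(L (nat_lit 17910663)))
(L (nat_lit 9221299)))
(S (nat_lit 22080) (L (nat_lit 11243995))
(L (nat_lit 11287635))))
(L (nat_lit 9859651))))
(S (nat_lit 50169) (L (nat_lit 6073933))
(L (nat_lit 11325987))))
(S (nat_lit 42020) (S (nat_lit 4898) (S (nat_lit 51020) (S (nat_lit 30269) (S (nat_lit 15596) (L (nat_lit 29499831))
(L (nat_lit 25010221)))
(L (nat_lit 18934216)))
(L (nat_lit 12339650)))
(S (nat_lit 24662) (S (nat_lit 1519) (S (nat_lit 13182) (L (nat_lit 26352335))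
(L (nat_lit 14294913)))
(S (nat_lit 31035) (L (nat_lit 1485587))
(L (nat_lit 12279983))))
(S (nat_lit 44426) (S (nat_lit 14244) (L (nat_lit 2705258))
(S (nat_lit 38509) (S (nat_lit 34396) (S (nat_lit 22263) (L (nat_lit 6351350))
(L (nat_lit 9885540)))
(L (nat_lit 23173998)))
(L (nat_lit 23117048))))
(L (nat_lit 25448930)))))
(L (nat_lit 25901163)))))
(S (nat_lit 55865) (S (nat_lit 13182) (S (nat_lit 8) (S (nat_lit 30272) (S (nat_lit 25433) (L (nat_lit 19260493))
(L (nat_lit 14392345)))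
(L (nat_lit 18656993)))
(S (nat_lit 19772) (S (nat_lit 57512) (S (nat_lit 45848) (L (nat_lit 11305490))
(L (nat_lit 2674040)))
(L (nat_lit 14851832)))
(S (nat_lit 39536) (S (nat_lit 14631) (S (nat_lit 45851) (S (nat_lit 29515) (L (nat_lit 9070733))
(L (nat_lit 18617062)))
(L (nat_lit 12765528)))
(L (nat_lit 1677880)))
(L (nat_lit 25802053)))))
(S (nat_lit 32946) (S (nat_lit 761) (S (nat_lit 8036) (S (nat_lit 24674) (S (nat_lit 38509) (L (nat_lit 8445496))
(L (nat_lit 20720068)))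
(L (nat_lit 13921954)))
(L (nat_lit 14454440)))
(S (nat_lit 20525) (S (nat_lit 33127) (S (nat_lit 22263) (L (nat_lit 23442522))
(L (nat_lit 9548659)))
(S (nat_lit 45851) (S (nat_lit 22640) (L (nat_lit 16078721))
(L (nat_lit 27635799)))
(L (nat_lit 6867000))))
(S (nat_lit 40289) (S (nat_lit 21177) (L (nat_lit 21048111))
(S (nat_lit 22263) (S (nat_lit 10890) (L (nat_lit 16385368))
(S (nat_lit 32947) (S (nat_lit 52441) (S (nat_lit 31265) (S (nat_lit 45851) (S (nat_lit 43469) (L (nat_lit 27614289))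
(L (nat_lit 16549606)))
(L (nat_lit 14797144)))
(L (nat_lit 17597034)))
(L (nat_lit 8918716)))
(L (nat_lit 8991523))))
(L (nat_lit 513402))))
(L (nat_lit 25284071)))))
(S (nat_lit 52710) (S (nat_lit 19502) (S (nat_lit 32947) (S (nat_lit 56552) (L (nat_lit 13720488))
(L (nat_lit 27798115)))
(L (nat_lit 16391971)))
(S (nat_lit 39266) (S (nat_lit 42036) (S (nat_lit 31930) (L (nat_lit 6448594))
(L (nat_lit 14489687)))
(L (nat_lit 14429298)))
(S (nat_lit 59030) (S (nat_lit 30272) (L (nat_lit 7078637))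
(L (nat_lit 19710120)))
(L (nat_lit 25380480)))))
(L (nat_lit 25507457)))))
(L (nat_lit 25831873)))))
(S (nat_lit 21282) (S (nat_lit 14631) (S (nat_lit 14615) (S (nat_lit 3932) (S (nat_lit 9136) (L (nat_lit 13486214))
(S (nat_lit 45851) (S (nat_lit 19768) (S (nat_lit 2509) (S (nat_lit 55133) (S (nat_lit 30269) (L (nat_lit 30707090))
(L (nat_lit 13424776)))
(L (nat_lit 12110593)))
(L (nat_lit 19377024)))
(L (nat_lit 15304616)))
(L (nat_lit 27641996))))
(L (nat_lit 17635016)))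
(S (nat_lit 34379) (S (nat_lit 8036) (S (nat_lit 4078) (L (nat_lit 23899557))
(S (nat_lit 45851) (S (nat_lit 39532) (S (nat_lit 59026) (L (nat_lit 1699118))
(L (nat_lit 15346748)))
(L (nat_lit 4831112)))
(L (nat_lit 7195136))))
(L (nat_lit 23891496)))
(S (nat_lit 54143) (S (nat_lit 4785) (L (nat_lit 7418802))
(S (nat_lit 20525) (S (nat_lit 51029) (S (nat_lit 32677) (S (nat_lit 19765) (S (nat_lit 24659) (S (nat_lit 46895) (L (nat_lit 30782177))
(L (nat_lit 17585508)))
(L (nat_lit 22452075)))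
(L (nat_lit 14895939)))
(L (nat_lit 10645906)))
(L (nat_lit 13216856)))
(L (nat_lit 12339652))))
(L (nat_lit 25626248)))))
(S (nat_lit 34395) (S (nat_lit 14623) (S (nat_lit 16337) (S (nat_lit 54143) (S (nat_lit 19765) (S (nat_lit 36788) (L (nat_lit 11617074))
(L (nat_lit 10974819)))
(L (nat_lit 31037827)))
(L (nat_lit 21083354)))
(S (nat_lit 36101) (S (nat_lit 36782) (S (nat_lit 15596) (S (nat_lit 32947) (S (nat_lit 12913) (L (nat_lit 4444941))
(L (nat_lit 23412641)))
(L (nat_lit 20448040)))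
(L (nat_lit 24519587)))
(S (nat_lit 44518) (L (nat_lit 20752832))
(L (nat_lit 18212980))))
(S (nat_lit 55865) (S (nat_lit 32022) (L (nat_lit 26815631))
(S (nat_lit 47573) (S (nat_lit 46880) (L (nat_lit 9593395))
(L (nat_lit 22808071)))
(L (nat_lit 22061626))))
(L (nat_lit 25411668)))))
(S (nat_lit 34387) (S (nat_lit 2508) (S (nat_lit 27809) (S (nat_lit 34379) (S (nat_lit 32947) (S (nat_lit 45851) (S (nat_lit 31938) (L (nat_lit 5584536))
(L (nat_lit 17064980)))
(L (nat_lit 15583366)))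
(L (nat_lit 20448040)))
(L (nat_lit 20001576)))
(S (nat_lit 42834) (L (nat_lit 20874478))
(L (nat_lit 15405864))))
(S (nat_lit 22272) (S (nat_lit 16707) (L (nat_lit 837871))
(S (nat_lit 26354) (S (nat_lit 20525) (S (nat_lit 24665) (S (nat_lit 59026) (S (nat_lit 32947) (L (nat_lit 15330314))
(L (nat_lit 15041398)))
(L (nat_lit 13380755)))
(L (nat_lit 1851670)))
(L (nat_lit 16525399)))
(L (nat_lit 16535594))))
(S (nat_lit 42036) (S (nat_lit 12175) (S (nat_lit 59026) (S (nat_lit 0) (L (nat_lit 15584481))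
(L (nat_lit 7091218)))
(L (nat_lit 15472327)))
(L (nat_lit 11292097)))
(L (nat_lit 25279859)))))
(S (nat_lit 54151) (S (nat_lit 5660) (S (nat_lit 59026) (S (nat_lit 36782) (S (nat_lit 32677) (L (nat_lit 24227228))
(L (nat_lit 24645418)))
(L (nat_lit 20408515)))
(L (nat_lit 19360906)))
(S (nat_lit 25424) (S (nat_lit 45851) (S (nat_lit 51694) (L (nat_lit 13782792))
(L (nat_lit 27990032)))
(L (nat_lit 2476846)))
(S (nat_lit 45188) (S (nat_lit 12158) (S (nat_lit 31265) (S (nat_lit 12175) (S (nat_lit 16340) (L (nat_lit 28384911))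
(L (nat_lit 9069743)))
(L (nat_lit 23628090)))
(L (nat_lit 8476057)))
(L (nat_lit 23891244)))
(L (nat_lit 25892876)))))
(L (nat_lit 25497167)))))
(S (nat_lit 54159) (S (nat_lit 9750) (S (nat_lit 44435) (S (nat_lit 3932) (S (nat_lit 46118) (S (nat_lit 39262) (S (nat_lit 34387) (L (nat_lit 27543567))
(L (nat_lit 15640726)))
(L (nat_lit 13658730)))
(L (nat_lit 16864106)))
(L (nat_lit 4860847)))
(L (nat_lit 15362218)))
(S (nat_lit 29514) (S (nat_lit 8036) (S (nat_lit 5060) (S (nat_lit 55868) (S (nat_lit 54160) (L (nat_lit 5163245))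
(L (nat_lit 21303836)))
(L (nat_lit 21768577)))
(S (nat_lit 44435) (S (nat_lit 39261) (S (nat_lit 29519) (S (nat_lit 55133) (L (nat_lit 19260867))
(L (nat_lit 27674977)))
(L (nat_lit 18623137)))
(L (nat_lit 1715983)))
(L (nat_lit 11987127))))
(S (nat_lit 44823) (S (nat_lit 42879) (S (nat_lit 38388) (L (nat_lit 6077159))
(L (nat_lit 13420712)))
(L (nat_lit 26626184)))
(L (nat_lit 26658984))))
(S (nat_lit 49278) (S (nat_lit 43019) (L (nat_lit 15306536))
(S (nat_lit 54143) (S (nat_lit 32677) (S (nat_lit 36782) (S (nat_lit 42036) (S (nat_lit 49275) (L (nat_lit 1668522))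
(L (nat_lit 20750416)))
(L (nat_lit 3664242)))
(L (nat_lit 8120367)))
(L (nat_lit 16836818)))
(L (nat_lit 17427624))))
(L (nat_lit 25921904)))))
(L (nat_lit 25252109)))))
(S (nat_lit 41046) (S (nat_lit 17018) (S (nat_lit 13183) (L (nat_lit 12741352))
(S (nat_lit 32947) (S (nat_lit 49275) (S (nat_lit 8045) (S (nat_lit 6320) (L (nat_lit 10634034))
(L (nat_lit 3980872)))
(L (nat_lit 21774472)))
(L (nat_lit 20746760)))
(S (nat_lit 52711) (S (nat_lit 3) (S (nat_lit 36743) (L (nat_lit 26676808))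
(S (nat_lit 56453) (L (nat_lit 14250152))
(L (nat_lit 15469812))))
(S (nat_lit 19767) (S (nat_lit 46880) (S (nat_lit 23705) (L (nat_lit 28839496))
(L (nat_lit 18777832)))
(L (nat_lit 17466682)))
(S (nat_lit 39531) (S (nat_lit 46118) (S (nat_lit 25424) (S (nat_lit 36794) (L (nat_lit 10646002))
(L (nat_lit 20409416)))
(L (nat_lit 17618208)))
(L (nat_lit 16903818)))
(L (nat_lit 25598034)))))
(L (nat_lit 25343561)))))
(S (nat_lit 36782) (S (nat_lit 19498) (S (nat_lit 14623) (S (nat_lit 12913) (S (nat_lit 27809) (S (nat_lit 48526) (S (nat_lit 19768) (L (nat_lit 22987944))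
(L (nat_lit 9890435)))
(L (nat_lit 27408754)))
(L (nat_lit 15551654)))
(S (nat_lit 40962) (L (nat_lit 20424763))
(L (nat_lit 26977729))))
(S (nat_lit 34387) (S (nat_lit 19765) (S (nat_lit 19494) (S (nat_lit 27809) (S (nat_lit 3932) (L (nat_lit 26557622))
(L (nat_lit 4445629)))
(L (nat_lit 19240816)))
(L (nat_lit 16387448)))
(S (nat_lit 24058) (L (nat_lit 6708248))
(L (nat_lit 16380131))))
(S (nat_lit 54151) (S (nat_lit 14631) (S (nat_lit 30269) (S (nat_lit 4907) (S (nat_lit 32947) (L (nat_lit 222924))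
(L (nat_lit 30939779)))
(L (nat_lit 18701536)))
(L (nat_lit 18654291)))
(S (nat_lit 47944) (L (nat_lit 8476528))
(L (nat_lit 11618231))))
(L (nat_lit 25627862)))))
(S (nat_lit 39262) (S (nat_lit 8045) (S (nat_lit 32947) (L (nat_lit 23224621))
(L (nat_lit 20277423)))
(S (nat_lit 27809) (S (nat_lit 11601) (L (nat_lit 4698034))
(S (nat_lit 48526) (S (nat_lit 32947) (S (nat_lit 30272) (S (nat_lit 19765) (S (nat_lit 12913) (S (nat_lit 34386) (L (nat_lit 28625072))
(L (nat_lit 23530780)))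
(L (nat_lit 26363090)))
(L (nat_lit 14897027)))
(L (nat_lit 30687809)))
(L (nat_lit 30934600)))
(L (nat_lit 11171301))))
(S (nat_lit 47573) (S (nat_lit 46118) (S (nat_lit 7358) (L (nat_lit 486120))
(L (nat_lit 23390660)))
(L (nat_lit 17072856)))
(L (nat_lit 25215251)))))
(S (nat_lit 59026) (S (nat_lit 17987) (S (nat_lit 55868) (S (nat_lit 29514) (S (nat_lit 34396) (L (nat_lit 10635802))
(L (nat_lit 23863811)))
(L (nat_lit 7080342)))
(L (nat_lit 16525330)))
(S (nat_lit 37751) (S (nat_lit 12350) (L (nat_lit 14869225))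
(S (nat_lit 48526) (S (nat_lit 5660) (S (nat_lit 12913) (S (nat_lit 31930) (L (nat_lit 13977628))
(L (nat_lit 16952952)))
(L (nat_lit 5793042)))
(L (nat_lit 9144206)))
(L (nat_lit 20070748))))
(S (nat_lit 57515) (S (nat_lit 48526) (S (nat_lit 12913) (S (nat_lit 43469) (S (nat_lit 34386) (L (nat_lit 29562423))
(L (nat_lit 20720129)))
(L (nat_lit 14474280)))
(L (nat_lit 5779346)))
(L (nat_lit 27793458)))
(L (nat_lit 25368268)))))
(L (nat_lit 25824775)))))
(S (nat_lit 56546) (S (nat_lit 12158) (S (nat_lit 2508) (S (nat_lit 6016) (L (nat_lit 8783514))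
(S (nat_lit 29511) (S (nat_lit 37748) (L (nat_lit 16686819))
(L (nat_lit 16904434)))
(L (nat_lit 24911952))))
(S (nat_lit 22272) (S (nat_lit 12175) (S (nat_lit 13868) (L (nat_lit 5957839))
(L (nat_lit 14473508)))
(L (nat_lit 21246852)))
(S (nat_lit 42036) (S (nat_lit 17984) (S (nat_lit 0) (L (nat_lit 6372146))
(L (nat_lit 14437600)))
(L (nat_lit 8143986)))
(L (nat_lit 25275120)))))
(S (nat_lit 31922) (S (nat_lit 20187) (S (nat_lit 26084) (L (nat_lit 7865111))
(L (nat_lit 4811240)))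
(S (nat_lit 49283) (S (nat_lit 27116) (L (nat_lit 29579279))
(L (nat_lit 24668388)))
(L (nat_lit 14571747))))
(S (nat_lit 51686) (S (nat_lit 31939) (S (nat_lit 15596) (S (nat_lit 31265) (S (nat_lit 32676) (S (nat_lit 25424) (L (nat_lit 30115270))
(L (nat_lit 1881335)))
(L (nat_lit 4549012)))
(L (nat_lit 1764810)))
(L (nat_lit 17062785)))
(L (nat_lit 19393825)))
(L (nat_lit 25499027)))))
(L (nat_lit 25646273)))))
(L (nat_lit 25374898)))))
(S (nat_lit 31929) (S (nat_lit 10505) (S (nat_lit 9751) (S (nat_lit 4910) (S (nat_lit 8998) (S (nat_lit 17030) (S (nat_lit 32947) (L (nat_lit 10638876))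
(L (nat_lit 23619752)))
(L (nat_lit 15485000)))
(S (nat_lit 28762) (S (nat_lit 47564) (L (nat_lit 19405914))
(L (nat_lit 17526952)))
(S (nat_lit 48526) (S (nat_lit 40286) (S (nat_lit 17030) (S (nat_lit 31938) (S (nat_lit 6323) (S (nat_lit 18745) (S (nat_lit 56552) (L (nat_lit 24296794))
(L (nat_lit 13785896)))
(L (nat_lit 17982086)))
(L (nat_lit 12116640)))
(L (nat_lit 4875569)))
(L (nat_lit 24198952)))
(L (nat_lit 24193434)))
(L (nat_lit 25901381)))))
(S (nat_lit 24674) (S (nat_lit 19502) (S (nat_lit 29511) (S (nat_lit 53405) (S (nat_lit 39532) (S (nat_lit 16337) (S (nat_lit 2500) (L (nat_lit 9276048))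
(L (nat_lit 17733352)))
(L (nat_lit 17391875)))
(L (nat_lit 25079880)))
(L (nat_lit 5161202)))
(L (nat_lit 25081928)))
(S (nat_lit 39266) (S (nat_lit 31938) (S (nat_lit 38509) (S (nat_lit 32677) (L (nat_lit 19302717))
(L (nat_lit 30551506)))
(L (nat_lit 30550605)))
(L (nat_lit 31078472)))
(S (nat_lit 59030) (S (nat_lit 17030) (S (nat_lit 36782) (S (nat_lit 48526) (L (nat_lit 28458260))
(L (nat_lit 20003592)))
(L (nat_lit 20384552)))
(L (nat_lit 24198952)))
(L (nat_lit 25766990)))))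
(S (nat_lit 44438) (S (nat_lit 12912) (S (nat_lit 35360) (S (nat_lit 17030) (S (nat_lit 6323) (L (nat_lit 21127533))
(L (nat_lit 12052128)))
(L (nat_lit 26976335)))
(L (nat_lit 12898083)))
(S (nat_lit 47401) (S (nat_lit 2756) (L (nat_lit 15393962))
(L (nat_lit 4809226)))
(L (nat_lit 11593327))))
(L (nat_lit 25463468)))))
(S (nat_lit 29515) (S (nat_lit 6320) (S (nat_lit 10508) (L (nat_lit 26269128))
(L (nat_lit 15327240)))
(S (nat_lit 26084) (S (nat_lit 17030) (S (nat_lit 39532) (S (nat_lit 31938) (S (nat_lit 32947) (S (nat_lit 11492) (S (nat_lit 23696) (S (nat_lit 42037) (S (nat_lit 29514) (L (nat_lit 1471174))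
(L (nat_lit 19460264)))
(L (nat_lit 16516840)))
(L (nat_lit 18776776)))
(L (nat_lit 21345373)))
(L (nat_lit 23619752)))
(L (nat_lit 14289704)))
(L (nat_lit 24545064)))
(L (nat_lit 15437608)))
(S (nat_lit 45848) (S (nat_lit 32947) (L (nat_lit 26366344))
(L (nat_lit 15337256)))
(L (nat_lit 25742624)))))
(S (nat_lit 49279) (S (nat_lit 761) (S (nat_lit 18745) (S (nat_lit 49276) (S (nat_lit 11501) (S (nat_lit 39532) (S (nat_lit 24665) (L (nat_lit 1483352))
(L (nat_lit 17495330)))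
(L (nat_lit 27479491)))
(L (nat_lit 6982108)))
(L (nat_lit 27646405)))
(S (nat_lit 38509) (S (nat_lit 56552) (S (nat_lit 49276) (S (nat_lit 49278) (L (nat_lit 6943887))
(L (nat_lit 13832957)))
(L (nat_lit 13855826)))
(L (nat_lit 19016495)))
(S (nat_lit 58273) (S (nat_lit 39532) (S (nat_lit 49276) (S (nat_lit 19767) (L (nat_lit 24266040))
(L (nat_lit 15329568)))
(L (nat_lit 27664471)))
(S (nat_lit 45284) (L (nat_lit 10140762))
(L (nat_lit 17427528))))
(L (nat_lit 25597238)))))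
(S (nat_lit 20525) (S (nat_lit 19502) (S (nat_lit 29511) (S (nat_lit 39532) (L (nat_lit 5587708))
(L (nat_lit 25079880)))
(L (nat_lit 25081928)))
(S (nat_lit 39266) (S (nat_lit 31938) (S (nat_lit 31930) (S (nat_lit 39532) (S (nat_lit 29512) (L (nat_lit 30484914))
(L (nat_lit 19671488)))
(L (nat_lit 24156636)))
(L (nat_lit 17499942)))
(L (nat_lit 31078472)))
(S (nat_lit 59030) (S (nat_lit 17030) (S (nat_lit 36782) (S (nat_lit 48526) (L (nat_lit 20038568))
(L (nat_lit 20003592)))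
(L (nat_lit 20384552)))
(L (nat_lit 24198952)))
(L (nat_lit 25451906)))))
(S (nat_lit 40289) (S (nat_lit 16337) (S (nat_lit 39532) (S (nat_lit 9755) (L (nat_lit 13420835))
(L (nat_lit 17391905)))
(L (nat_lit 25074767)))
(S (nat_lit 36101) (S (nat_lit 758) (S (nat_lit 31938) (S (nat_lit 12158) (L (nat_lit 28453519))
(L (nat_lit 23175580)))
(L (nat_lit 31073731)))
(L (nat_lit 19374108)))
(S (nat_lit 55865) (S (nat_lit 758) (S (nat_lit 36782) (L (nat_lit 5961007))
(L (nat_lit 23605027)))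
(L (nat_lit 1745340)))
(L (nat_lit 25600084)))))
(L (nat_lit 25539703)))))
(L (nat_lit 25760108)))))
(S (nat_lit 30269) (S (nat_lit 2492) (S (nat_lit 6323) (S (nat_lit 7358) (S (nat_lit 32947) (S (nat_lit 51702) (S (nat_lit 49283) (L (nat_lit 4584045))
(L (nat_lit 20311459)))
(L (nat_lit 20815299)))
(L (nat_lit 15867699)))
(S (nat_lit 27122) (S (nat_lit 32947) (S (nat_lit 48526) (S (nat_lit 51702) (L (nat_lit 22602051))
(L (nat_lit 20815299)))
(L (nat_lit 20812200)))
(L (nat_lit 9988275)))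
(S (nat_lit 46886) (S (nat_lit 50036) (S (nat_lit 1) (S (nat_lit 23705) (S (nat_lit 19494) (L (nat_lit 28457542))
(L (nat_lit 25070895)))
(L (nat_lit 13391912)))
(L (nat_lit 13197352)))
(L (nat_lit 7080685)))
(L (nat_lit 25315783)))))
(S (nat_lit 26087) (S (nat_lit 1519) (S (nat_lit 4507) (L (nat_lit 2931401))
(S (nat_lit 55868) (S (nat_lit 51702) (L (nat_lit 11266223))
(L (nat_lit 20820259)))
(L (nat_lit 27572931))))
(S (nat_lit 21283) (S (nat_lit 32676) (S (nat_lit 36794) (S (nat_lit 35369) (L (nat_lit 1820520))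
(L (nat_lit 30986563)))
(L (nat_lit 31178083)))
(L (nat_lit 24651555)))
(S (nat_lit 41047) (S (nat_lit 36794) (S (nat_lit 43460) (L (nat_lit 1535688))
(L (nat_lit 14320456)))
(L (nat_lit 31176035)))
(L (nat_lit 25734325)))))
(S (nat_lit 45851) (S (nat_lit 27809) (S (nat_lit 3932) (S (nat_lit 28762) (L (nat_lit 19404648))
(L (nat_lit 24263464)))
(L (nat_lit 17662696)))
(L (nat_lit 16455464)))
(L (nat_lit 25546146)))))
(S (nat_lit 22256) (S (nat_lit 7364) (S (nat_lit 32947) (S (nat_lit 44429) (S (nat_lit 45188) (S (nat_lit 36782) (S (nat_lit 36794) (S (nat_lit 23705) (S (nat_lit 50036) (S (nat_lit 39258) (L (nat_lit 10544535))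
(L (nat_lit 11170275)))
(L (nat_lit 6720309)))
(L (nat_lit 22251375)))
(L (nat_lit 31168963)))
(L (nat_lit 23619841)))
(L (nat_lit 14774583)))
(L (nat_lit 2650391)))
(L (nat_lit 15886707)))
(S (nat_lit 27128) (S (nat_lit 32947) (S (nat_lit 4076) (L (nat_lit 30803187))
(S (nat_lit 29519) (S (nat_lit 39258) (S (nat_lit 35360) (S (nat_lit 36794) (S (nat_lit 22930) (L (nat_lit 22810927))
(L (nat_lit 30687349)))
(L (nat_lit 31170703)))
(L (nat_lit 10072931)))
(L (nat_lit 11169903)))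
(L (nat_lit 30792163))))
(L (nat_lit 9963315)))
(S (nat_lit 46892) (S (nat_lit 4907) (S (nat_lit 44426) (S (nat_lit 6323) (S (nat_lit 36782) (S (nat_lit 37751) (L (nat_lit 30938453))
(L (nat_lit 16970442)))
(L (nat_lit 20473894)))
(L (nat_lit 12174396)))
(L (nat_lit 27795638)))
(S (nat_lit 24671) (S (nat_lit 50036) (S (nat_lit 36794) (S (nat_lit 32676) (L (nat_lit 23207729))
(L (nat_lit 24373635)))
(L (nat_lit 31103053)))
(L (nat_lit 27310323)))
(S (nat_lit 44435) (S (nat_lit 17024) (S (nat_lit 38509) (L (nat_lit 22180080))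
(L (nat_lit 23456193)))
(S (nat_lit 55453) (L (nat_lit 2484693))
(L (nat_lit 22407715))))
(L (nat_lit 25692406)))))
(L (nat_lit 25480580)))))
(S (nat_lit 42020) (S (nat_lit 13877) (S (nat_lit 13182) (S (nat_lit 17018) (S (nat_lit 56552) (L (nat_lit 5632653))
(L (nat_lit 14017556)))
(L (nat_lit 24666152)))
(S (nat_lit 32946) (S (nat_lit 19497) (S (nat_lit 16340) (S (nat_lit 43469) (S (nat_lit 19768) (L (nat_lit 29413771))
(L (nat_lit 22440008)))
(L (nat_lit 4072143)))
(L (nat_lit 26460865)))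
(L (nat_lit 24588131)))
(S (nat_lit 52710) (S (nat_lit 1) (S (nat_lit 31265) (L (nat_lit 30561613))
(L (nat_lit 13992757)))
(L (nat_lit 14246115)))
(L (nat_lit 25303693)))))
(S (nat_lit 33641) (S (nat_lit 1) (S (nat_lit 14632) (S (nat_lit 16340) (S (nat_lit 23705) (S (nat_lit 41047) (L (nat_lit 14345571))
(L (nat_lit 7096835)))
(L (nat_lit 13371112)))
(L (nat_lit 25078147)))
(S (nat_lit 28208) (L (nat_lit 482216))
(L (nat_lit 13736603))))
(S (nat_lit 55307) (L (nat_lit 24481551))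
(L (nat_lit 1847540))))
(S (nat_lit 53405) (S (nat_lit 12158) (S (nat_lit 31930) (S (nat_lit 39259) (S (nat_lit 40289) (L (nat_lit 9952349))
(L (nat_lit 4705161)))
(L (nat_lit 17599798)))
(L (nat_lit 24699172)))
(S (nat_lit 31922) (S (nat_lit 31930) (S (nat_lit 3166) (S (nat_lit 25433) (S (nat_lit 9748) (L (nat_lit 6884145))
(L (nat_lit 26984773)))
(L (nat_lit 30423351)))
(L (nat_lit 17369338)))
(L (nat_lit 25048356)))
(S (nat_lit 51686) (S (nat_lit 45188) (S (nat_lit 0) (S (nat_lit 50036) (L (nat_lit 8438488))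
(L (nat_lit 13833011)))
(L (nat_lit 19947757)))
(L (nat_lit 2584887)))
(L (nat_lit 25272940)))))
(L (nat_lit 25859376)))))
(L (nat_lit 25507894)))))
(S (nat_lit 50033) (S (nat_lit 15605) (S (nat_lit 8) (S (nat_lit 5717) (S (nat_lit 4) (L (nat_lit 2308914))
(L (nat_lit 7097794)))
(S (nat_lit 48526) (S (nat_lit 0) (S (nat_lit 25433) (S (nat_lit 43460) (S (nat_lit 4) (S (nat_lit 36782) (L (nat_lit 4409852))
(L (nat_lit 20244961)))
(L (nat_lit 6736738)))
(L (nat_lit 9105891)))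
(L (nat_lit 1304023)))
(S (nat_lit 7635) (L (nat_lit 6878817))
(L (nat_lit 7079501))))
(L (nat_lit 1268220))))
(S (nat_lit 19772) (S (nat_lit 761) (S (nat_lit 41047) (S (nat_lit 36794) (S (nat_lit 4901) (L (nat_lit 1881738))
(L (nat_lit 18089847)))
(L (nat_lit 31098159)))
(L (nat_lit 17542332)))
(S (nat_lit 20525) (S (nat_lit 17030) (L (nat_lit 14764380))
(L (nat_lit 22822024)))
(S (nat_lit 40289) (S (nat_lit 9748) (S (nat_lit 39528) (S (nat_lit 51020) (L (nat_lit 4996340))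
(L (nat_lit 22361176)))
(L (nat_lit 16830374)))
(L (nat_lit 2959895)))
(L (nat_lit 25855433)))))
(S (nat_lit 39536) (S (nat_lit 5660) (S (nat_lit 50036) (S (nat_lit 12912) (L (nat_lit 3529647))
(L (nat_lit 18059156)))
(L (nat_lit 14429923)))
(S (nat_lit 25424) (S (nat_lit 6590) (S (nat_lit 56558) (L (nat_lit 1696112))
(L (nat_lit 14388538)))
(L (nat_lit 6784819)))
(S (nat_lit 45188) (S (nat_lit 12912) (S (nat_lit 59030) (L (nat_lit 24277451))
(L (nat_lit 6779988)))
(L (nat_lit 12435045)))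
(L (nat_lit 25244983)))))
(L (nat_lit 25598693)))))
(S (nat_lit 35369) (S (nat_lit 17984) (S (nat_lit 3) (S (nat_lit 8) (S (nat_lit 1) (S (nat_lit 6323) (S (nat_lit 55868) (L (nat_lit 319954))
(L (nat_lit 19671427)))
(L (nat_lit 20112902)))
(L (nat_lit 13409332)))
(L (nat_lit 1887755)))
(S (nat_lit 19767) (S (nat_lit 6320) (S (nat_lit 32947) (S (nat_lit 33632) (S (nat_lit 56558) (L (nat_lit 20242573))
(L (nat_lit 21923272)))
(L (nat_lit 16583986)))
(L (nat_lit 9963315)))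
(L (nat_lit 5848872)))
(S (nat_lit 39531) (S (nat_lit 34387) (S (nat_lit 6323) (L (nat_lit 29544751))
(L (nat_lit 16114306)))
(L (nat_lit 15412003)))
(L (nat_lit 25762273)))))
(S (nat_lit 37748) (S (nat_lit 10508) (S (nat_lit 55868) (L (nat_lit 22311951))
(L (nat_lit 21768739)))
(S (nat_lit 30272) (S (nat_lit 49278) (S (nat_lit 4) (L (nat_lit 1561480))
(L (nat_lit 7130191)))
(L (nat_lit 14473384)))
(S (nat_lit 50036) (S (nat_lit 1) (S (nat_lit 55868) (S (nat_lit 43460) (L (nat_lit 14230276))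
(L (nat_lit 7229857)))
(L (nat_lit 21768579)))
(L (nat_lit 14425667)))
(L (nat_lit 25219309)))))
(S (nat_lit 57512) (S (nat_lit 3941) (S (nat_lit 36782) (S (nat_lit 56558) (L (nat_lit 28968239))
(L (nat_lit 28020168)))
(L (nat_lit 20066093)))
(S (nat_lit 23705) (S (nat_lit 50036) (S (nat_lit 1) (S (nat_lit 36782) (S (nat_lit 32676) (S (nat_lit 17024) (L (nat_lit 28652160))
(L (nat_lit 17557512)))
(L (nat_lit 17584323)))
(L (nat_lit 20450088)))
(L (nat_lit 14425699)))
(L (nat_lit 7082735)))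
(S (nat_lit 43469) (S (nat_lit 1) (S (nat_lit 4) (S (nat_lit 13183) (L (nat_lit 4118984))
(L (nat_lit 1580698)))
(L (nat_lit 19662280)))
(L (nat_lit 14262051)))
(L (nat_lit 25409251)))))
(L (nat_lit 25410740)))))
(S (nat_lit 55133) (S (nat_lit 5669) (S (nat_lit 7367) (S (nat_lit 4) (S (nat_lit 4895) (S (nat_lit 56558) (L (nat_lit 10378321))
(L (nat_lit 7059361)))
(L (nat_lit 19012060)))
(S (nat_lit 46030) (L (nat_lit 381404))
(L (nat_lit 26430915))))
(S (nat_lit 27131) (S (nat_lit 32676) (S (nat_lit 56558) (S (nat_lit 6320) (S (nat_lit 29512) (L (nat_lit 2349530))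
(L (nat_lit 7262289)))
(L (nat_lit 5848872)))
(L (nat_lit 28025283)))
(L (nat_lit 19327235)))
(S (nat_lit 46895) (S (nat_lit 12174) (S (nat_lit 32677) (S (nat_lit 23705) (L (nat_lit 12402273))
(L (nat_lit 11175791)))
(L (nat_lit 17586247)))
(S (nat_lit 17182) (L (nat_lit 11692435))
(L (nat_lit 16534602))))
(L (nat_lit 25339349)))))
(S (nat_lit 25433) (S (nat_lit 3) (S (nat_lit 38202) (L (nat_lit 22165819))
(S (nat_lit 46880) (S (nat_lit 38509) (S (nat_lit 39259) (S (nat_lit 14622) (S (nat_lit 31930) (S (nat_lit 3166) (L (nat_lit 5890438))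
(L (nat_lit 2744811)))
(L (nat_lit 12272420)))
(L (nat_lit 1534603)))
(L (nat_lit 13724330)))
(L (nat_lit 17405240)))
(L (nat_lit 22819108))))
(L (nat_lit 14278727)))
(S (nat_lit 45197) (S (nat_lit 8998) (S (nat_lit 56558) (L (nat_lit 26361448))
(L (nat_lit 6774930)))
(S (nat_lit 28762) (S (nat_lit 56558) (L (nat_lit 13785960))
(L (nat_lit 13721970)))
(S (nat_lit 48526) (S (nat_lit 12174) (S (nat_lit 17024) (S (nat_lit 49283) (L (nat_lit 20853091))
(L (nat_lit 27646435)))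
(L (nat_lit 4681416)))
(S (nat_lit 13935) (L (nat_lit 1664303))
(L (nat_lit 16515688))))
(L (nat_lit 25313896)))))
(L (nat_lit 25395948)))))
(L (nat_lit 25464306)))))
(L (nat_lit 25858504)))))
(S (nat_lit 51693) (S (nat_lit 14623) (S (nat_lit 12174) (S (nat_lit 8998) (S (nat_lit 8036) (S (nat_lit 17018) (S (nat_lit 26084) (L (nat_lit 5688136))
(L (nat_lit 17403784)))
(L (nat_lit 22841832)))
(L (nat_lit 1849960)))
(S (nat_lit 28762) (S (nat_lit 34379) (S (nat_lit 4) (L (nat_lit 30494120))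
(L (nat_lit 13370024)))
(L (nat_lit 20001576)))
(S (nat_lit 48526) (S (nat_lit 761) (S (nat_lit 9751) (S (nat_lit 36788) (S (nat_lit 6320) (S (nat_lit 53396) (L (nat_lit 20101898))
(L (nat_lit 19773609)))
(L (nat_lit 26330728)))
(L (nat_lit 20851073)))
(S (nat_lit 29515) (S (nat_lit 19497) (S (nat_lit 55865) (L (nat_lit 16457507))
(L (nat_lit 1653671)))
(L (nat_lit 26303727)))
(S (nat_lit 49279) (S (nat_lit 24671) (S (nat_lit 36788) (L (nat_lit 29840581))
(L (nat_lit 20406280)))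
(L (nat_lit 22821088)))
(L (nat_lit 25745414)))))
(S (nat_lit 20525) (S (nat_lit 36782) (S (nat_lit 32947) (S (nat_lit 8997) (L (nat_lit 9531796))
(L (nat_lit 2759097)))
(L (nat_lit 20473992)))
(L (nat_lit 17918164)))
(S (nat_lit 40289) (S (nat_lit 3985) (L (nat_lit 9525656))
(S (nat_lit 36782) (S (nat_lit 32947) (S (nat_lit 36794) (L (nat_lit 3906413))
(L (nat_lit 11265475)))
(L (nat_lit 20473992)))
(L (nat_lit 10638843))))
(L (nat_lit 25821671)))))
(L (nat_lit 25901408)))))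
(S (nat_lit 31938) (S (nat_lit 19502) (S (nat_lit 29511) (S (nat_lit 56558) (L (nat_lit 4929384))
(L (nat_lit 21454984)))
(L (nat_lit 19839048)))
(S (nat_lit 39266) (S (nat_lit 32947) (S (nat_lit 9750) (S (nat_lit 34379) (S (nat_lit 39529) (S (nat_lit 9747) (L (nat_lit 24263928))
(L (nat_lit 15295560)))
(L (nat_lit 17662536)))
(L (nat_lit 20722856)))
(L (nat_lit 17535848)))
(L (nat_lit 20742664)))
(S (nat_lit 59030) (S (nat_lit 39529) (S (nat_lit 17024) (S (nat_lit 10508) (S (nat_lit 49278) (S (nat_lit 14615) (S (nat_lit 48526) (L (nat_lit 15044189))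
(L (nat_lit 20409384)))
(L (nat_lit 26694792)))
(L (nat_lit 1888648)))
(L (nat_lit 4646632)))
(L (nat_lit 17493160)))
(L (nat_lit 4648520)))
(L (nat_lit 25826508)))))
(S (nat_lit 51702) (S (nat_lit 2499) (S (nat_lit 12175) (S (nat_lit 36104) (S (nat_lit 30269) (L (nat_lit 2826651))
(L (nat_lit 24340931)))
(L (nat_lit 20750349)))
(S (nat_lit 31939) (S (nat_lit 39531) (S (nat_lit 53405) (S (nat_lit 56552) (S (nat_lit 9751) (L (nat_lit 29705235))
(L (nat_lit 17682443)))
(L (nat_lit 19766287)))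
(L (nat_lit 16834866)))
(L (nat_lit 16785298)))
(S (nat_lit 51703) (S (nat_lit 57512) (S (nat_lit 51686) (L (nat_lit 870638))
(L (nat_lit 22539554)))
(L (nat_lit 13538548)))
(L (nat_lit 25730724)))))
(S (nat_lit 22263) (S (nat_lit 10508) (S (nat_lit 39529) (S (nat_lit 56552) (S (nat_lit 55133) (S (nat_lit 36104) (L (nat_lit 1395470))
(L (nat_lit 11589551)))
(L (nat_lit 12259087)))
(L (nat_lit 27968739)))
(L (nat_lit 17680610)))
(S (nat_lit 33792) (L (nat_lit 4706056))
(L (nat_lit 2547957))))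
(S (nat_lit 42027) (S (nat_lit 17984) (S (nat_lit 32947) (S (nat_lit 46892) (S (nat_lit 11501) (S (nat_lit 22256) (L (nat_lit 29412689))
(L (nat_lit 22846883)))
(L (nat_lit 7828130)))
(L (nat_lit 22813713)))
(L (nat_lit 20754568)))
(S (nat_lit 37748) (S (nat_lit 2500) (S (nat_lit 761) (S (nat_lit 36104) (S (nat_lit 3932) (L (nat_lit 18968877))
(L (nat_lit 17662696)))
(L (nat_lit 20443491)))
(L (nat_lit 20439143)))
(L (nat_lit 14805332)))
(S (nat_lit 57512) (S (nat_lit 10508) (S (nat_lit 39259) (S (nat_lit 48526) (L (nat_lit 4977999))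
(L (nat_lit 1797609)))
(L (nat_lit 20385610)))
(L (nat_lit 2810093)))
(L (nat_lit 25730722)))))
(L (nat_lit 25220432)))))
(L (nat_lit 25886961)))))
(S (nat_lit 34387) (S (nat_lit 15605) (S (nat_lit 14632) (S (nat_lit 39529) (S (nat_lit 39532) (L (nat_lit 28940335))
(L (nat_lit 27506307)))
(L (nat_lit 27899075)))
(S (nat_lit 34396) (S (nat_lit 3941) (S (nat_lit 32947) (L (nat_lit 28579407))
(L (nat_lit 30749251)))
(L (nat_lit 26883267)))
(S (nat_lit 54160) (S (nat_lit 10508) (S (nat_lit 19765) (L (nat_lit 15398115))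
(L (nat_lit 31037827)))
(L (nat_lit 3070191)))
(L (nat_lit 25892047)))))
(S (nat_lit 35369) (S (nat_lit 3941) (S (nat_lit 1519) (S (nat_lit 19494) (S (nat_lit 10508) (S (nat_lit 55868) (S (nat_lit 36782) (S (nat_lit 52440) (S (nat_lit 51029) (L (nat_lit 2532210))
(L (nat_lit 2732408)))
(L (nat_lit 27416847)))
(L (nat_lit 20015311)))
(L (nat_lit 10120207)))
(L (nat_lit 12507311)))
(L (nat_lit 22979759)))
(L (nat_lit 10407459)))
(S (nat_lit 23705) (S (nat_lit 8998) (S (nat_lit 56546) (L (nat_lit 26361480))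
(L (nat_lit 14539816)))
(S (nat_lit 28762) (S (nat_lit 26084) (L (nat_lit 4770600))
(L (nat_lit 21555304)))
(S (nat_lit 48526) (S (nat_lit 8997) (S (nat_lit 42694) (S (nat_lit 34395) (S (nat_lit 34379) (S (nat_lit 49275) (S (nat_lit 20525) (L (nat_lit 29561456))
(L (nat_lit 12503121)))
(L (nat_lit 8173652)))
(L (nat_lit 23528232)))
(L (nat_lit 7818016)))
(S (nat_lit 57677) (L (nat_lit 15632724))
(L (nat_lit 23360933))))
(S (nat_lit 28922) (S (nat_lit 30866) (S (nat_lit 32676) (L (nat_lit 11682614))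
(L (nat_lit 31165711)))
(L (nat_lit 2759097)))
(L (nat_lit 15341625))))
(L (nat_lit 25696869)))))
(S (nat_lit 43469) (S (nat_lit 13877) (S (nat_lit 51832) (L (nat_lit 9024291))
(S (nat_lit 55868) (S (nat_lit 1519) (S (nat_lit 26087) (S (nat_lit 19764) (S (nat_lit 52441) (L (nat_lit 24177901))
(L (nat_lit 7075265)))
(L (nat_lit 3579794)))
(L (nat_lit 1624838)))
(L (nat_lit 19837187)))
(L (nat_lit 1849714))))
(S (nat_lit 33641) (S (nat_lit 10343) (L (nat_lit 17133748))
(S (nat_lit 10505) (S (nat_lit 55868) (L (nat_lit 4104690))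
(L (nat_lit 21774691)))
(L (nat_lit 2811400))))
(S (nat_lit 53405) (S (nat_lit 9747) (S (nat_lit 0) (S (nat_lit 12912) (S (nat_lit 21282) (S (nat_lit 28761) (S (nat_lit 44438) (S (nat_lit 13182) (S (nat_lit 31930) (S (nat_lit 25433) (S (nat_lit 7355) (S (nat_lit 19494) (S (nat_lit 42027) (S (nat_lit 53089) (S (nat_lit 52441) (L (nat_lit 22480125))
(L (nat_lit 27807940)))
(S (nat_lit 54143) (S (nat_lit 30272) (L (nat_lit 3470739))
(L (nat_lit 18475329)))
(L (nat_lit 5035560))))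
(L (nat_lit 15782663)))
(L (nat_lit 22986019)))
(L (nat_lit 10665781)))
(L (nat_lit 6750937)))
(L (nat_lit 4475757)))
(L (nat_lit 22372896)))
(L (nat_lit 27417098)))
(L (nat_lit 30871924)))
(L (nat_lit 14961441)))
(L (nat_lit 23971075)))
(L (nat_lit 20323384)))
(L (nat_lit 16949912)))
(L (nat_lit 25923889)))))
(L (nat_lit 25565302)))))
(S (nat_lit 55133) (S (nat_lit 7352) (S (nat_lit 11501) (S (nat_lit 24659) (S (nat_lit 34386) (S (nat_lit 39261) (L (nat_lit 23487595))
(L (nat_lit 8183299)))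
(L (nat_lit 20884000)))
(L (nat_lit 17491979)))
(S (nat_lit 31265) (S (nat_lit 54150) (L (nat_lit 19703983))
(L (nat_lit 27896353)))
(S (nat_lit 51029) (S (nat_lit 20525) (S (nat_lit 2509) (S (nat_lit 23696) (L (nat_lit 19344227))
(L (nat_lit 21932515)))
(L (nat_lit 15640693)))
(L (nat_lit 30485168)))
(L (nat_lit 25800779)))))
(S (nat_lit 27116) (S (nat_lit 16337) (L (nat_lit 29827651))
(S (nat_lit 36101) (S (nat_lit 10508) (S (nat_lit 1519) (L (nat_lit 29545807))
(L (nat_lit 12110723)))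
(L (nat_lit 17739491)))
(S (nat_lit 55865) (S (nat_lit 56558) (S (nat_lit 19494) (L (nat_lit 29691599))
(L (nat_lit 25079331)))
(L (nat_lit 27740515)))
(L (nat_lit 25770307)))))
(S (nat_lit 46880) (S (nat_lit 19494) (S (nat_lit 15539) (L (nat_lit 15868823))
(S (nat_lit 29519) (S (nat_lit 19497) (L (nat_lit 8183269))
(L (nat_lit 4119887)))
(L (nat_lit 19826991))))
(S (nat_lit 39258) (S (nat_lit 10508) (S (nat_lit 1518) (S (nat_lit 32947) (S (nat_lit 24674) (S (nat_lit 46121) (L (nat_lit 3815304))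
(L (nat_lit 20215269)))
(L (nat_lit 13785867)))
(L (nat_lit 8939667)))
(L (nat_lit 13787851)))
(L (nat_lit 24030383)))
(S (nat_lit 59022) (S (nat_lit 32676) (L (nat_lit 3466927))
(L (nat_lit 8130223)))
(L (nat_lit 25368303)))))
(L (nat_lit 25340435)))))
(L (nat_lit 25803883)))))
(S (nat_lit 54151) (S (nat_lit 12912) (S (nat_lit 6590) (S (nat_lit 13868) (S (nat_lit 23705) (S (nat_lit 13183) (L (nat_lit 29907267))
(L (nat_lit 22406691)))
(L (nat_lit 21935299)))
(S (nat_lit 33632) (S (nat_lit 19498) (S (nat_lit 59030) (L (nat_lit 6769722))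
(L (nat_lit 19338520)))
(L (nat_lit 26500612)))
(S (nat_lit 53396) (S (nat_lit 22273) (S (nat_lit 31939) (S (nat_lit 25424) (S (nat_lit 40289) (L (nat_lit 4776616))
(L (nat_lit 27337360)))
(L (nat_lit 16797945)))
(L (nat_lit 1920237)))
(L (nat_lit 9486132)))
(L (nat_lit 25860645)))))
(S (nat_lit 26354) (S (nat_lit 7364) (S (nat_lit 32947) (S (nat_lit 36782) (S (nat_lit 40358) (L (nat_lit 3055063))
(L (nat_lit 19833937)))
(L (nat_lit 23619777)))
(L (nat_lit 15886707)))
(S (nat_lit 27128) (S (nat_lit 59030) (L (nat_lit 8119312))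
(L (nat_lit 19363008)))
(S (nat_lit 46892) (S (nat_lit 15968) (L (nat_lit 12326322))
(S (nat_lit 59022) (S (nat_lit 44435) (S (nat_lit 39531) (S (nat_lit 59030) (S (nat_lit 758) (S (nat_lit 39529) (L (nat_lit 26936712))
(L (nat_lit 18448636)))
(L (nat_lit 8904726)))
(L (nat_lit 15275846)))
(L (nat_lit 17727763)))
(L (nat_lit 14738027)))
(L (nat_lit 21195951))))
(L (nat_lit 25699972)))))
(S (nat_lit 46118) (S (nat_lit 3941) (S (nat_lit 10508) (L (nat_lit 4977099))
(L (nat_lit 17750184)))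
(S (nat_lit 23705) (S (nat_lit 29515) (S (nat_lit 6212) (L (nat_lit 21436264))
(S (nat_lit 45188) (S (nat_lit 21283) (L (nat_lit 21063021))
(L (nat_lit 8122543)))
(L (nat_lit 27726135))))
(L (nat_lit 18635109)))
(S (nat_lit 43469) (S (nat_lit 10508) (L (nat_lit 19076943))
(L (nat_lit 10410371)))
(L (nat_lit 25582787)))))
(L (nat_lit 25440901)))))
(S (nat_lit 32676) (S (nat_lit 10508) (S (nat_lit 16340) (S (nat_lit 39529) (S (nat_lit 15605) (S (nat_lit 59022) (S (nat_lit 21283) (S (nat_lit 3941) (S (nat_lit 32947) (S (nat_lit 36782) (S (nat_lit 46883) (S (nat_lit 2500) (L (nat_lit 28323537))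
(L (nat_lit 17539973)))
(L (nat_lit 4438746)))
(L (nat_lit 30561551)))
(L (nat_lit 23398255)))
(L (nat_lit 15376445)))
(L (nat_lit 30942915)))
(L (nat_lit 21458211)))
(S (nat_lit 35369) (S (nat_lit 32947) (L (nat_lit 26628451))
(L (nat_lit 23423119)))
(S (nat_lit 55133) (S (nat_lit 54160) (L (nat_lit 8978845))
(L (nat_lit 9016143)))
(L (nat_lit 25789775)))))
(L (nat_lit 27858959)))
(L (nat_lit 26258031)))
(L (nat_lit 15653091)))
(S (nat_lit 52440) (S (nat_lit 19497) (S (nat_lit 22256) (S (nat_lit 59022) (S (nat_lit 16340) (L (nat_lit 15440061))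
(L (nat_lit 11418211)))
(L (nat_lit 27921711)))
(L (nat_lit 22395683)))
(S (nat_lit 39261) (S (nat_lit 43469) (S (nat_lit 42020) (S (nat_lit 39529) (L (nat_lit 12226479))
(L (nat_lit 12437551)))
(L (nat_lit 1809167)))
(L (nat_lit 24360707)))
(S (nat_lit 59025) (S (nat_lit 59022) (S (nat_lit 2492) (S (nat_lit 31938) (S (nat_lit 32947) (L (nat_lit 24029327))
(L (nat_lit 23600931)))
(L (nat_lit 7230851)))
(L (nat_lit 20373859)))
(L (nat_lit 27743523)))
(L (nat_lit 25570359)))))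
(L (nat_lit 25410582)))))
(L (nat_lit 25398838)))))
(L (nat_lit 25898065)))))
(L (nat_lit 25922950)))))

theorem rb80_1 : run 4 lb80 [] tb80_1 kb80 (P4 4 5681 1059 6270 1059 0 0 1 0) [] = true := by
  decide +kernel

noncomputable def tb246_0_17 : Tr :=
(S (nat_lit 48276) (S (nat_lit 1246) (S (nat_lit 14) (S (nat_lit 47) (S (nat_lit 1763) (S (nat_lit 10997) (S (nat_lit 1279) (S (nat_lit 1715) (S (nat_lit 1748) (S (nat_lit 40547) (L (nat_lit 29861975))
(L (nat_lit 27952551)))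
(L (nat_lit 19203485)))
(L (nat_lit 14457879)))
(S (nat_lit 34720) (L (nat_lit 26591813))
(L (nat_lit 19105582))))
(S (nat_lit 30761) (S (nat_lit 21870) (S (nat_lit 1776) (L (nat_lit 1514294))
(L (nat_lit 20149420)))
(S (nat_lit 40547) (S (nat_lit 37260) (S (nat_lit 997) (L (nat_lit 18881358))
(L (nat_lit 14473259)))
(L (nat_lit 20148704)))
(L (nat_lit 1973872))))
(S (nat_lit 50525) (S (nat_lit 986) (S (nat_lit 1958) (S (nat_lit 1969) (S (nat_lit 1034) (S (nat_lit 39603) (L (nat_lit 26680436))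
(L (nat_lit 23597863)))
(L (nat_lit 13689575)))
(L (nat_lit 26837514)))
(L (nat_lit 3972567)))
(S (nat_lit 55767) (L (nat_lit 20475914))
(L (nat_lit 20747472))))
(L (nat_lit 25871685)))))
(S (nat_lit 21527) (S (nat_lit 17543) (S (nat_lit 1958) (S (nat_lit 35115) (L (nat_lit 20186926))
(L (nat_lit 20230944)))
(L (nat_lit 26511024)))
(S (nat_lit 37307) (S (nat_lit 997) (S (nat_lit 986) (S (nat_lit 8731) (L (nat_lit 17043130))
(L (nat_lit 20490363)))
(L (nat_lit 20747472)))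
(S (nat_lit 43296) (L (nat_lit 19271965))
(L (nat_lit 20268091))))
(S (nat_lit 57071) (S (nat_lit 1003) (S (nat_lit 54901) (L (nat_lit 5091538))
(L (nat_lit 27930819)))
(L (nat_lit 5098702)))
(L (nat_lit 25243308)))))
(S (nat_lit 41291) (S (nat_lit 1748) (S (nat_lit 11010) (S (nat_lit 54837) (L (nat_lit 29561271))
(L (nat_lit 21525729)))
(S (nat_lit 21339) (L (nat_lit 4879850))
(L (nat_lit 26694945))))
(S (nat_lit 21512) (S (nat_lit 50463) (L (nat_lit 12802945))
(L (nat_lit 20149793)))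
(S (nat_lit 41276) (S (nat_lit 2019) (S (nat_lit 28526) (L (nat_lit 15959644))
(L (nat_lit 18899339)))
(S (nat_lit 10361) (L (nat_lit 6835261))
(L (nat_lit 12809267))))
(L (nat_lit 25663639)))))
(L (nat_lit 25277158)))))
(S (nat_lit 19811) (S (nat_lit 10949) (S (nat_lit 15334) (S (nat_lit 37260) (S (nat_lit 1262) (S (nat_lit 50525) (L (nat_lit 11310705))
(L (nat_lit 22479224)))
(L (nat_lit 19100784)))
(L (nat_lit 13855456)))
(S (nat_lit 56293) (S (nat_lit 8790) (L (nat_lit 23389230))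
(L (nat_lit 1941942)))
(L (nat_lit 26426515))))
(S (nat_lit 30713) (S (nat_lit 8795) (S (nat_lit 1776) (S (nat_lit 37302) (L (nat_lit 30496203))
(L (nat_lit 17096885)))
(L (nat_lit 4978155)))
(S (nat_lit 28559) (S (nat_lit 48301) (S (nat_lit 10977) (S (nat_lit 1014) (L (nat_lit 28326568))
(L (nat_lit 13849720)))
(L (nat_lit 17933945)))
(L (nat_lit 13832889)))
(S (nat_lit 48323) (S (nat_lit 20800) (S (nat_lit 54851) (S (nat_lit 15309) (S (nat_lit 39553) (L (nat_lit 29382090))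
(L (nat_lit 10502932)))
(L (nat_lit 22274094)))
(L (nat_lit 13640500)))
(L (nat_lit 745743)))
(L (nat_lit 25245386)))))
(S (nat_lit 50477) (S (nat_lit 15323) (S (nat_lit 37285) (S (nat_lit 1763) (L (nat_lit 224787))
(L (nat_lit 20124221)))
(L (nat_lit 20145538)))
(S (nat_lit 35087) (S (nat_lit 7975) (L (nat_lit 2566776))
(S (nat_lit 14455) (L (nat_lit 22876429))
(L (nat_lit 20121390))))
(S (nat_lit 54851) (S (nat_lit 1003) (S (nat_lit 21529) (L (nat_lit 5454646))
(L (nat_lit 5464686)))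
(L (nat_lit 20122075)))
(L (nat_lit 25408196)))))
(L (nat_lit 25896046)))))
(S (nat_lit 39575) (S (nat_lit 972) (S (nat_lit 1257) (S (nat_lit 997) (S (nat_lit 34563) (L (nat_lit 14313827))
(S (nat_lit 48301) (S (nat_lit 986) (S (nat_lit 21783) (S (nat_lit 21770) (S (nat_lit 39570) (S (nat_lit 25) (S (nat_lit 1262) (S (nat_lit 48290) (S (nat_lit 1969) (S (nat_lit 1958) (S (nat_lit 1392) (L (nat_lit 16427098))
(S (nat_lit 28559) (S (nat_lit 28543) (S (nat_lit 20811) (S (nat_lit 20798) (S (nat_lit 20800) (S (nat_lit 40542) (S (nat_lit 20979) (S (nat_lit 40807) (S (nat_lit 8823) (S (nat_lit 41503) (S (nat_lit 41519) (S (nat_lit 41514) (S (nat_lit 16646) (S (nat_lit 21129) (S (nat_lit 32003) (L (nat_lit 25274834))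
(L (nat_lit 26950946)))
(L (nat_lit 26950947)))
(S (nat_lit 41254) (S (nat_lit 1776) (S (nat_lit 1765) (S (nat_lit 57086) (S (nat_lit 41229) (S (nat_lit 21507) (S (nat_lit 41243) (S (nat_lit 57099) (S (nat_lit 5562) (S (nat_lit 3281) (S (nat_lit 16036) (S (nat_lit 51828) (S (nat_lit 3292) (S (nat_lit 35513) (S (nat_lit 2585) (S (nat_lit 10977) (S (nat_lit 40211) (D (nat_lit 15) (nat_lit 27348335) (nat_lit 14436610) (nat_lit 168006689))
(L (nat_lit 30061860)))
(S (nat_lit 50505) (S (nat_lit 38442) (S (nat_lit 10557) (D (nat_lit 15) (nat_lit 27572965) (nat_lit 25600579) (nat_lit 208443482369))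
(L (nat_lit 27855307)))
(L (nat_lit 27898213)))
(L (nat_lit 25245287))))
(L (nat_lit 29080714)))
(L (nat_lit 27677771)))
(L (nat_lit 28712053)))
(L (nat_lit 28712545)))
(L (nat_lit 30855521)))
(L (nat_lit 28725601)))
(S (nat_lit 30746) (S (nat_lit 27463) (S (nat_lit 41331) (S (nat_lit 29208) (S (nat_lit 1549) (S (nat_lit 29482) (S (nat_lit 15660) (S (nat_lit 8174) (D (nat_lit 13) (nat_lit 27416107) (nat_lit 25759111) (nat_lit 6803266078983))
(L (nat_lit 27826197)))
(L (nat_lit 27663010)))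
(L (nat_lit 21869675)))
(L (nat_lit 28725603)))
(L (nat_lit 21935457)))
(S (nat_lit 53556) (S (nat_lit 33554) (S (nat_lit 16900) (S (nat_lit 28952) (S (nat_lit 17355) (S (nat_lit 20480) (D (nat_lit 13) (nat_lit 27611212) (nat_lit 25759142) (nat_lit 6808699736327))
(L (nat_lit 19770448)))
(L (nat_lit 27576366)))
(L (nat_lit 27856362)))
(L (nat_lit 27899018)))
(L (nat_lit 27674948)))
(L (nat_lit 20879405))))
(L (nat_lit 9329124)))
(S (nat_lit 55489) (S (nat_lit 50602) (S (nat_lit 11311) (S (nat_lit 12009) (S (nat_lit 35758) (S (nat_lit 26036) (S (nat_lit 5059) (S (nat_lit 43021) (S (nat_lit 10966) (S (nat_lit 9693) (S (nat_lit 9886) (D (nat_lit 15) (nat_lit 30855273) (nat_lit 25771080) (nat_lit 106307981345))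
(L (nat_lit 31132203)))
(L (nat_lit 30855489)))
(S (nat_lit 27386) (S (nat_lit 50510) (S (nat_lit 16889) (D (nat_lit 15) (nat_lit 27577764) (nat_lit 25766957) (nat_lit 35638118631))
(L (nat_lit 27898180)))
(L (nat_lit 27865316)))
(L (nat_lit 1331739))))
(L (nat_lit 28908556)))
(L (nat_lit 31077572)))
(L (nat_lit 27698263)))
(L (nat_lit 27679043)))
(L (nat_lit 28399112)))
(L (nat_lit 28749413)))
(L (nat_lit 28725509)))
(L (nat_lit 3910201)))))
(L (nat_lit 27930880)))
(L (nat_lit 27696310)))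
(L (nat_lit 16522980)))
(L (nat_lit 27707748)))
(L (nat_lit 27934020)))
(L (nat_lit 19839333)))
(L (nat_lit 19841348)))
(L (nat_lit 7177780))))
(L (nat_lit 17461507)))
(L (nat_lit 17439650)))
(L (nat_lit 17460452)))
(L (nat_lit 7976801)))
(L (nat_lit 17854804)))
(L (nat_lit 16656563)))
(L (nat_lit 23534338)))
(L (nat_lit 15786325)))
(L (nat_lit 15781735)))
(L (nat_lit 15787690)))
(L (nat_lit 24412940)))
(L (nat_lit 31002861))))
(L (nat_lit 10061681)))
(S (nat_lit 21733) (S (nat_lit 21722) (S (nat_lit 57099) (S (nat_lit 50477) (L (nat_lit 5553015))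
(L (nat_lit 22540549)))
(L (nat_lit 15362336)))
(L (nat_lit 22394939)))
(S (nat_lit 41497) (S (nat_lit 50510) (L (nat_lit 5567028))
(L (nat_lit 4516558)))
(L (nat_lit 25483279)))))
(L (nat_lit 5468751)))
(L (nat_lit 9061122)))
(L (nat_lit 26854568)))
(L (nat_lit 27545772)))
(L (nat_lit 21194768)))
(L (nat_lit 22244492)))
(L (nat_lit 20081008)))
(L (nat_lit 27464300))))
(L (nat_lit 20743407)))
(S (nat_lit 21021) (S (nat_lit 1944) (S (nat_lit 1732) (S (nat_lit 57088) (S (nat_lit 20800) (S (nat_lit 1763) (S (nat_lit 50510) (L (nat_lit 6840960))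
(L (nat_lit 5845242)))
(L (nat_lit 19148924)))
(L (nat_lit 22340000)))
(L (nat_lit 11167266)))
(S (nat_lit 3599) (L (nat_lit 24315820))
(L (nat_lit 14311648))))
(S (nat_lit 4293) (L (nat_lit 1335762))
(L (nat_lit 13945603))))
(S (nat_lit 40785) (S (nat_lit 40547) (S (nat_lit 1944) (S (nat_lit 41519) (S (nat_lit 21041) (S (nat_lit 20993) (S (nat_lit 19828) (S (nat_lit 21507) (S (nat_lit 54899) (L (nat_lit 4444666))
(L (nat_lit 27925989)))
(L (nat_lit 31112235)))
(L (nat_lit 8534621)))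
(L (nat_lit 12181952)))
(L (nat_lit 31142112)))
(L (nat_lit 6777408)))
(S (nat_lit 52799) (L (nat_lit 20392029))
(L (nat_lit 13182755))))
(L (nat_lit 27461201)))
(L (nat_lit 25869386)))))
(S (nat_lit 20736) (S (nat_lit 17521) (S (nat_lit 21043) (S (nat_lit 50494) (L (nat_lit 21230705))
(L (nat_lit 12374531)))
(L (nat_lit 22319512)))
(S (nat_lit 37285) (S (nat_lit 1776) (S (nat_lit 17560) (S (nat_lit 40542) (S (nat_lit 62) (L (nat_lit 5616471))
(L (nat_lit 13304747)))
(L (nat_lit 8278125)))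
(S (nat_lit 23012) (L (nat_lit 15870616))
(L (nat_lit 1975021))))
(S (nat_lit 42674) (S (nat_lit 41503) (L (nat_lit 221716))
(L (nat_lit 27505281)))
(L (nat_lit 26253965))))
(S (nat_lit 57049) (S (nat_lit 36453) (L (nat_lit 15565449))
(S (nat_lit 48290) (S (nat_lit 21783) (S (nat_lit 21770) (S (nat_lit 20979) (S (nat_lit 1019) (S (nat_lit 20844) (L (nat_lit 2339419))
(L (nat_lit 28527010)))
(L (nat_lit 18904457)))
(L (nat_lit 5058834)))
(L (nat_lit 21194768)))
(L (nat_lit 22911116)))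
(L (nat_lit 11563413))))
(L (nat_lit 25866595)))))
(S (nat_lit 40500) (S (nat_lit 10982) (S (nat_lit 28559) (L (nat_lit 29764228))
(L (nat_lit 18114180)))
(S (nat_lit 30746) (S (nat_lit 8810) (L (nat_lit 24339844))
(S (nat_lit 36738) (L (nat_lit 12086981))
(L (nat_lit 17734308))))
(S (nat_lit 50510) (S (nat_lit 37285) (S (nat_lit 57071) (S (nat_lit 1732) (L (nat_lit 12251585))
(L (nat_lit 4907495)))
(L (nat_lit 14994276)))
(L (nat_lit 13846685)))
(L (nat_lit 25766437)))))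
(L (nat_lit 25309523)))))
(L (nat_lit 25247958)))))
(S (nat_lit 19778) (S (nat_lit 10997) (S (nat_lit 17543) (S (nat_lit 20800) (S (nat_lit 28554) (S (nat_lit 54912) (S (nat_lit 997) (S (nat_lit 1969) (S (nat_lit 19828) (L (nat_lit 18934278))
(L (nat_lit 21303118)))
(L (nat_lit 26319566)))
(L (nat_lit 26478286)))
(L (nat_lit 6105710)))
(L (nat_lit 3924302)))
(L (nat_lit 22339726)))
(S (nat_lit 37307) (S (nat_lit 35073) (S (nat_lit 37260) (S (nat_lit 50510) (L (nat_lit 8570555))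
(L (nat_lit 28021966)))
(L (nat_lit 13855457)))
(L (nat_lit 2857806)))
(S (nat_lit 57071) (S (nat_lit 676) (S (nat_lit 37274) (L (nat_lit 4448756))
(L (nat_lit 2815278)))
(S (nat_lit 50538) (S (nat_lit 21021) (S (nat_lit 1003) (S (nat_lit 21529) (S (nat_lit 40805) (S (nat_lit 50505) (S (nat_lit 1763) (S (nat_lit 54899) (S (nat_lit 21490) (S (nat_lit 48318) (S (nat_lit 20736) (S (nat_lit 1036) (S (nat_lit 53218) (S (nat_lit 30730) (S (nat_lit 28543) (S (nat_lit 75) (S (nat_lit 1361) (S (nat_lit 13071) (S (nat_lit 10641) (S (nat_lit 56198) (D (nat_lit 11) (nat_lit 31004780) (nat_lit 25765381) (nat_lit 106438952193))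
(L (nat_lit 28979208)))
(L (nat_lit 30824674)))
(L (nat_lit 30855395)))
(S (nat_lit 11143) (S (nat_lit 18609) (S (nat_lit 16665) (S (nat_lit 11903) (D (nat_lit 11) (nat_lit 26947936) (nat_lit 19672517) (nat_lit 173021286))
(L (nat_lit 29828181)))
(L (nat_lit 27861413)))
(L (nat_lit 27861380)))
(L (nat_lit 22556418))))
(L (nat_lit 26979809)))
(L (nat_lit 18122328)))
(L (nat_lit 24413624)))
(L (nat_lit 28739243)))
(L (nat_lit 26509748)))
(L (nat_lit 15331652)))
(L (nat_lit 5534382)))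
(L (nat_lit 11339317)))
(L (nat_lit 27690356)))
(L (nat_lit 19838147)))
(L (nat_lit 5030228)))
(L (nat_lit 27806727)))
(L (nat_lit 30527914)))
(L (nat_lit 2810315)))
(S (nat_lit 39986) (L (nat_lit 4575802))
(L (nat_lit 21454922))))
(L (nat_lit 10641844))))
(L (nat_lit 25800746)))))
(S (nat_lit 30761) (S (nat_lit 8823) (S (nat_lit 10966) (S (nat_lit 25) (S (nat_lit 1969) (S (nat_lit 50510) (S (nat_lit 37274) (L (nat_lit 9882682))
(L (nat_lit 23327822)))
(L (nat_lit 20753454)))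
(L (nat_lit 9565934)))
(L (nat_lit 19952974)))
(S (nat_lit 30730) (S (nat_lit 57055) (S (nat_lit 1047) (L (nat_lit 14550602))
(L (nat_lit 19105241)))
(L (nat_lit 19709032)))
(S (nat_lit 50494) (S (nat_lit 36865) (L (nat_lit 16413987))
(S (nat_lit 54868) (S (nat_lit 55438) (L (nat_lit 16807223))
(S (nat_lit 57055) (S (nat_lit 15384) (S (nat_lit 37322) (L (nat_lit 10647150))
(L (nat_lit 23889230)))
(L (nat_lit 619792)))
(L (nat_lit 15621411))))
(L (nat_lit 16024470))))
(L (nat_lit 25592553)))))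
(S (nat_lit 28587) (S (nat_lit 986) (S (nat_lit 1958) (L (nat_lit 6115787))
(L (nat_lit 6084038)))
(S (nat_lit 20750) (S (nat_lit 21043) (S (nat_lit 21479) (S (nat_lit 50477) (S (nat_lit 1975) (L (nat_lit 29562544))
(L (nat_lit 5595604)))
(L (nat_lit 10537774)))
(L (nat_lit 10637819)))
(S (nat_lit 41380) (L (nat_lit 11353793))
(L (nat_lit 31163662))))
(S (nat_lit 40514) (S (nat_lit 37335) (S (nat_lit 39603) (S (nat_lit 1975) (L (nat_lit 8545747))
(L (nat_lit 19768772)))
(L (nat_lit 18000539)))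
(L (nat_lit 9278997)))
(L (nat_lit 25761225)))))
(S (nat_lit 48351) (S (nat_lit 21021) (S (nat_lit 1958) (S (nat_lit 50494) (S (nat_lit 21733) (S (nat_lit 997) (S (nat_lit 57086) (S (nat_lit 30746) (S (nat_lit 35120) (S (nat_lit 20979) (S (nat_lit 1748) (S (nat_lit 8795) (S (nat_lit 40805) (S (nat_lit 54901) (S (nat_lit 41472) (S (nat_lit 58478) (S (nat_lit 17560) (S (nat_lit 29323) (S (nat_lit 15422) (S (nat_lit 7900) (S (nat_lit 53375) (S (nat_lit 12276) (S (nat_lit 13314) (S (nat_lit 26014) (D (nat_lit 13) (nat_lit 31068586) (nat_lit 19274501) (nat_lit 2267913755844))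
(L (nat_lit 27579905)))
(L (nat_lit 29842721)))
(L (nat_lit 27860517)))
(L (nat_lit 29967556)))
(L (nat_lit 27868388)))
(S (nat_lit 36737) (S (nat_lit 15029) (S (nat_lit 16617) (S (nat_lit 56761) (S (nat_lit 30642) (D (nat_lit 13) (nat_lit 30725669) (nat_lit 19259941) (nat_lit 2446120290309))
(L (nat_lit 6319729)))
(L (nat_lit 20149260)))
(L (nat_lit 28789955)))
(L (nat_lit 31045827)))
(L (nat_lit 2679058))))
(L (nat_lit 28790795)))
(L (nat_lit 15915258)))
(L (nat_lit 2511192)))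
(L (nat_lit 27856267)))
(L (nat_lit 5760744)))
(L (nat_lit 27271889)))
(L (nat_lit 21860557)))
(L (nat_lit 20154160)))
(L (nat_lit 16665704)))
(L (nat_lit 18632715)))
(L (nat_lit 3593435)))
(L (nat_lit 27442762)))
(L (nat_lit 10634165)))
(L (nat_lit 22408737)))
(L (nat_lit 5526320)))
(S (nat_lit 6732) (L (nat_lit 30788653))
(L (nat_lit 6078086))))
(S (nat_lit 40980) (L (nat_lit 17629835))
(L (nat_lit 15930163))))
(L (nat_lit 25341332)))))
(S (nat_lit 50525) (S (nat_lit 47) (S (nat_lit 17527) (S (nat_lit 57071) (S (nat_lit 21004) (S (nat_lit 10966) (L (nat_lit 22453057))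
(L (nat_lit 23346299)))
(L (nat_lit 16653397)))
(L (nat_lit 11423758)))
(S (nat_lit 37291) (S (nat_lit 24806) (L (nat_lit 1449874))
(S (nat_lit 57049) (S (nat_lit 20767) (L (nat_lit 29610156))
(L (nat_lit 22385144)))
(L (nat_lit 10533718))))
(S (nat_lit 57055) (S (nat_lit 1047) (S (nat_lit 28554) (L (nat_lit 19138351))
(L (nat_lit 18117814)))
(S (nat_lit 5313) (L (nat_lit 4552116))
(L (nat_lit 12711562))))
(L (nat_lit 25805928)))))
(S (nat_lit 19811) (S (nat_lit 1776) (S (nat_lit 1975) (S (nat_lit 54899) (S (nat_lit 1047) (L (nat_lit 28523172))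
(L (nat_lit 12623513)))
(L (nat_lit 19395908)))
(S (nat_lit 3382) (S (nat_lit 54862) (L (nat_lit 30620261))
(L (nat_lit 13689480)))
(L (nat_lit 13683962))))
(S (nat_lit 21540) (S (nat_lit 21054) (S (nat_lit 21021) (S (nat_lit 28543) (L (nat_lit 29999275))
(L (nat_lit 2693528)))
(L (nat_lit 22971692)))
(S (nat_lit 56161) (L (nat_lit 24243504))
(L (nat_lit 22113644))))
(S (nat_lit 41304) (S (nat_lit 15356) (S (nat_lit 40547) (S (nat_lit 21490) (S (nat_lit 35104) (S (nat_lit 10999) (S (nat_lit 30741) (S (nat_lit 21021) (S (nat_lit 57086) (S (nat_lit 1991) (S (nat_lit 21054) (S (nat_lit 44512) (S (nat_lit 37302) (S (nat_lit 3870) (S (nat_lit 50477) (S (nat_lit 44470) (S (nat_lit 19826) (S (nat_lit 15484) (S (nat_lit 18609) (S (nat_lit 12243) (S (nat_lit 26047) (S (nat_lit 43056) (D (nat_lit 13) (nat_lit 31070380) (nat_lit 13184773) (nat_lit 207302629540))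
(L (nat_lit 19805193)))
(L (nat_lit 27697764)))
(L (nat_lit 27543973)))
(L (nat_lit 27861380)))
(S (nat_lit 50185) (S (nat_lit 17196) (S (nat_lit 10878) (S (nat_lit 51791) (D (nat_lit 11) (nat_lit 31147143) (nat_lit 25479683) (nat_lit 106473555201))
(L (nat_lit 28901896)))
(L (nat_lit 30789027)))
(L (nat_lit 30788002)))
(L (nat_lit 29412657))))
(L (nat_lit 2858864)))
(L (nat_lit 18115604)))
(L (nat_lit 11003620)))
(L (nat_lit 24396856)))
(L (nat_lit 3595110)))
(L (nat_lit 1972629)))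
(L (nat_lit 15521834)))
(L (nat_lit 4037047)))
(L (nat_lit 10946324)))
(L (nat_lit 22175980)))
(L (nat_lit 19199424)))
(L (nat_lit 16377896)))
(L (nat_lit 23173900)))
(L (nat_lit 22873295)))
(L (nat_lit 27952551)))
(L (nat_lit 15585291)))
(L (nat_lit 25281778)))))
(S (nat_lit 39575) (S (nat_lit 42306) (S (nat_lit 46732) (L (nat_lit 15571988))
(L (nat_lit 647659)))
(S (nat_lit 57066) (S (nat_lit 54901) (S (nat_lit 21479) (S (nat_lit 20750) (S (nat_lit 50538) (S (nat_lit 57071) (L (nat_lit 28915941))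
(L (nat_lit 11212280)))
(L (nat_lit 11350132)))
(L (nat_lit 11985537)))
(L (nat_lit 5679801)))
(L (nat_lit 11000739)))
(L (nat_lit 11122496))))
(L (nat_lit 25871556)))))
(L (nat_lit 25336430)))))
(S (nat_lit 39542) (S (nat_lit 1743) (S (nat_lit 1262) (S (nat_lit 1944) (S (nat_lit 54912) (S (nat_lit 972) (S (nat_lit 1003) (L (nat_lit 26427044))
(L (nat_lit 20812230)))
(L (nat_lit 12722809)))
(L (nat_lit 5923120)))
(S (nat_lit 21708) (S (nat_lit 50477) (S (nat_lit 30761) (L (nat_lit 20487290))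
(L (nat_lit 4038252)))
(L (nat_lit 27483246)))
(S (nat_lit 41472) (S (nat_lit 21021) (S (nat_lit 57049) (L (nat_lit 29412810))
(L (nat_lit 11198850)))
(L (nat_lit 22231843)))
(L (nat_lit 25349513)))))
(S (nat_lit 21026) (S (nat_lit 1776) (S (nat_lit 2019) (S (nat_lit 57086) (S (nat_lit 50488) (S (nat_lit 54862) (S (nat_lit 50477) (L (nat_lit 14688922))
(L (nat_lit 11591468)))
(L (nat_lit 12020355)))
(L (nat_lit 12216771)))
(L (nat_lit 12190540)))
(L (nat_lit 26413709)))
(S (nat_lit 21540) (S (nat_lit 8773) (S (nat_lit 1763) (S (nat_lit 21496) (S (nat_lit 40785) (S (nat_lit 2019) (S (nat_lit 48323) (S (nat_lit 41293) (S (nat_lit 21708) (S (nat_lit 8810) (S (nat_lit 41534) (S (nat_lit 8790) (S (nat_lit 41497) (S (nat_lit 41514) (S (nat_lit 21755) (S (nat_lit 1290) (S (nat_lit 39603) (S (nat_lit 21479) (S (nat_lit 64) (S (nat_lit 20593) (S (nat_lit 53790) (S (nat_lit 45106) (L (nat_lit 4570749))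
(L (nat_lit 26981668)))
(L (nat_lit 26981669)))
(S (nat_lit 40547) (S (nat_lit 57066) (S (nat_lit 1014) (S (nat_lit 24032) (S (nat_lit 11094) (S (nat_lit 30783) (S (nat_lit 56496) (S (nat_lit 55767) (S (nat_lit 43531) (S (nat_lit 50561) (S (nat_lit 10683) (S (nat_lit 30202) (S (nat_lit 39955) (D (nat_lit 13) (nat_lit 10242125) (nat_lit 10600210) (nat_lit 5642580434048))
(L (nat_lit 26466785)))
(L (nat_lit 21808320)))
(S (nat_lit 16661) (S (nat_lit 45977) (S (nat_lit 14326) (D (nat_lit 13) (nat_lit 11423235) (nat_lit 25762991) (nat_lit 7738665050176))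
(L (nat_lit 31014181)))
(L (nat_lit 28919077)))
(L (nat_lit 20357922))))
(L (nat_lit 7265731)))
(L (nat_lit 3863978)))
(L (nat_lit 12799874)))
(L (nat_lit 29753687)))
(L (nat_lit 13441601)))
(L (nat_lit 27678017)))
(S (nat_lit 33363) (S (nat_lit 15468) (S (nat_lit 35157) (S (nat_lit 52122) (S (nat_lit 51393) (S (nat_lit 47905) (S (nat_lit 54935) (S (nat_lit 10639) (S (nat_lit 30202) (S (nat_lit 39955) (D (nat_lit 13) (nat_lit 10242125) (nat_lit 10981138) (nat_lit 5642580434048))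
(L (nat_lit 26466785)))
(L (nat_lit 21808320)))
(S (nat_lit 17940) (S (nat_lit 41603) (S (nat_lit 5578) (D (nat_lit 13) (nat_lit 11423235) (nat_lit 25413807) (nat_lit 7738665050176))
(L (nat_lit 31175973)))
(L (nat_lit 29013285)))
(L (nat_lit 1917239))))
(L (nat_lit 2814379)))
(L (nat_lit 21473092)))
(L (nat_lit 29950321)))
(L (nat_lit 29950289)))
(L (nat_lit 19732865)))
(L (nat_lit 27868481)))
(S (nat_lit 39659) (S (nat_lit 58127) (S (nat_lit 21456) (S (nat_lit 20683) (S (nat_lit 1922) (S (nat_lit 19557) (S (nat_lit 19577) (S (nat_lit 19901) (S (nat_lit 9466) (S (nat_lit 35073) (S (nat_lit 54298) (D (nat_lit 9) (nat_lit 26811441) (nat_lit 13374770) (nat_lit 42078471426))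
(L (nat_lit 20411680)))
(S (nat_lit 52312) (S (nat_lit 12250) (S (nat_lit 15351) (D (nat_lit 13) (nat_lit 30092674) (nat_lit 6906033) (nat_lit 5502927080))
(L (nat_lit 7199200)))
(L (nat_lit 28979457)))
(L (nat_lit 23528700))))
(L (nat_lit 30000200)))
(L (nat_lit 23619812)))
(L (nat_lit 27338414)))
(L (nat_lit 27417067)))
(L (nat_lit 29921526)))
(L (nat_lit 27759211)))
(L (nat_lit 27828834)))
(L (nat_lit 16666818)))
(L (nat_lit 7127223)))))
(L (nat_lit 19733026)))
(L (nat_lit 27902272)))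
(L (nat_lit 8274531))))
(L (nat_lit 13503701)))
(L (nat_lit 6171281)))
(L (nat_lit 27810048)))
(L (nat_lit 19834341)))
(L (nat_lit 15984226)))
(L (nat_lit 2445883)))
(L (nat_lit 2712103)))
(L (nat_lit 23955943)))
(L (nat_lit 276184)))
(L (nat_lit 1402477)))
(L (nat_lit 7944067)))
(L (nat_lit 27481504)))
(L (nat_lit 4799704)))
(L (nat_lit 26232491)))
(L (nat_lit 27481101)))
(L (nat_lit 22263712)))
(L (nat_lit 19073936)))
(L (nat_lit 1275500)))
(S (nat_lit 41304) (S (nat_lit 35048) (L (nat_lit 21503906))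
(S (nat_lit 57086) (S (nat_lit 997) (S (nat_lit 35135) (L (nat_lit 12846682))
(L (nat_lit 20252153)))
(L (nat_lit 20252558)))
(L (nat_lit 27925956))))
(L (nat_lit 25378995)))))
(S (nat_lit 40790) (S (nat_lit 15384) (S (nat_lit 57038) (S (nat_lit 57086) (L (nat_lit 4860816))
(L (nat_lit 5053006)))
(L (nat_lit 14932088)))
(S (nat_lit 35148) (S (nat_lit 57038) (L (nat_lit 24363133))
(L (nat_lit 12045434)))
(S (nat_lit 54912) (S (nat_lit 30724) (S (nat_lit 54851) (S (nat_lit 41503) (L (nat_lit 13829941))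
(L (nat_lit 27731617)))
(L (nat_lit 16442475)))
(L (nat_lit 19076909)))
(L (nat_lit 25610528)))))
(L (nat_lit 25856423)))))
(S (nat_lit 21507) (S (nat_lit 17521) (S (nat_lit 1019) (S (nat_lit 21026) (S (nat_lit 20778) (L (nat_lit 28843586))
(L (nat_lit 217626)))
(L (nat_lit 4414352)))
(S (nat_lit 20783) (S (nat_lit 21529) (S (nat_lit 21021) (L (nat_lit 14897924))
(L (nat_lit 22218541)))
(L (nat_lit 221620)))
(S (nat_lit 40547) (S (nat_lit 41243) (S (nat_lit 41514) (S (nat_lit 20811) (S (nat_lit 21490) (S (nat_lit 57071) (S (nat_lit 8810) (S (nat_lit 40785) (S (nat_lit 12870) (L (nat_lit 5585594))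
(L (nat_lit 22246884)))
(L (nat_lit 24328219)))
(L (nat_lit 6443919)))
(L (nat_lit 18955114)))
(L (nat_lit 16360224)))
(L (nat_lit 21011930)))
(L (nat_lit 27966539)))
(L (nat_lit 25074704)))
(L (nat_lit 25379926)))))
(S (nat_lit 37285) (S (nat_lit 1726) (S (nat_lit 1765) (S (nat_lit 21527) (L (nat_lit 19085499))
(L (nat_lit 22245921)))
(L (nat_lit 19831886)))
(S (nat_lit 21490) (S (nat_lit 15309) (L (nat_lit 7355255))
(S (nat_lit 46751) (L (nat_lit 9463250))
(L (nat_lit 24132391))))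
(S (nat_lit 41254) (S (nat_lit 54912) (L (nat_lit 1260407))
(L (nat_lit 10998560)))
(L (nat_lit 25254407)))))
(S (nat_lit 57049) (S (nat_lit 8779) (S (nat_lit 48351) (S (nat_lit 54912) (S (nat_lit 50538) (L (nat_lit 4617495))
(L (nat_lit 10969206)))
(L (nat_lit 11165808)))
(S (nat_lit 50622) (L (nat_lit 21018970))
(L (nat_lit 16361595))))
(S (nat_lit 28543) (S (nat_lit 20979) (S (nat_lit 1958) (S (nat_lit 1765) (S (nat_lit 64) (S (nat_lit 41243) (S (nat_lit 19806) (S (nat_lit 41514) (S (nat_lit 6963) (L (nat_lit 1358739))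
(S (nat_lit 17538) (S (nat_lit 1279) (L (nat_lit 4727385))
(L (nat_lit 19840260)))
(L (nat_lit 544120))))
(L (nat_lit 18763785)))
(L (nat_lit 3848572)))
(L (nat_lit 24026289)))
(L (nat_lit 14584393)))
(L (nat_lit 13540437)))
(L (nat_lit 6077062)))
(S (nat_lit 48857) (S (nat_lit 50538) (L (nat_lit 30953729))
(L (nat_lit 5726516)))
(L (nat_lit 21246074))))
(S (nat_lit 48307) (S (nat_lit 50488) (S (nat_lit 54837) (S (nat_lit 54899) (L (nat_lit 21011928))
(L (nat_lit 5915402)))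
(L (nat_lit 4419095)))
(S (nat_lit 51055) (S (nat_lit 37260) (L (nat_lit 23109148))
(L (nat_lit 20848097)))
(L (nat_lit 11221180))))
(L (nat_lit 25560649)))))
(L (nat_lit 25865602)))))
(S (nat_lit 41271) (S (nat_lit 10966) (S (nat_lit 1240) (S (nat_lit 35104) (S (nat_lit 1715) (S (nat_lit 50525) (S (nat_lit 19826) (L (nat_lit 27789002))
(L (nat_lit 30973668)))
(L (nat_lit 20061966)))
(L (nat_lit 26614966)))
(L (nat_lit 20028989)))
(S (nat_lit 21004) (S (nat_lit 40547) (S (nat_lit 15371) (S (nat_lit 21054) (L (nat_lit 30055470))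
(L (nat_lit 30940210)))
(L (nat_lit 14851741)))
(L (nat_lit 27925891)))
(S (nat_lit 40768) (S (nat_lit 21054) (S (nat_lit 21540) (S (nat_lit 39590) (L (nat_lit 28541364))
(L (nat_lit 27827382)))
(L (nat_lit 16549106)))
(L (nat_lit 15506482)))
(L (nat_lit 25496271)))))
(S (nat_lit 30730) (S (nat_lit 1014) (S (nat_lit 54851) (S (nat_lit 21755) (S (nat_lit 41503) (L (nat_lit 9490905))
(L (nat_lit 27930666)))
(L (nat_lit 30922856)))
(L (nat_lit 27471988)))
(S (nat_lit 57235) (S (nat_lit 57049) (L (nat_lit 20284333))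
(L (nat_lit 27283849)))
(L (nat_lit 26235181))))
(S (nat_lit 50494) (S (nat_lit 62) (S (nat_lit 40575) (L (nat_lit 29433364))
(L (nat_lit 27788970)))
(S (nat_lit 19826) (S (nat_lit 21529) (S (nat_lit 21054) (S (nat_lit 54901) (L (nat_lit 11034435))
(L (nat_lit 27774147)))
(L (nat_lit 14688019)))
(L (nat_lit 6072756)))
(S (nat_lit 39590) (S (nat_lit 40525) (S (nat_lit 21026) (L (nat_lit 29368048))
(L (nat_lit 22486848)))
(L (nat_lit 27336244)))
(L (nat_lit 25303792)))))
(L (nat_lit 25773160)))))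
(L (nat_lit 25854475)))))
(L (nat_lit 25561367)))))
(S (nat_lit 21010) (S (nat_lit 1776) (S (nat_lit 15371) (S (nat_lit 10960) (S (nat_lit 396) (L (nat_lit 22250905))
(S (nat_lit 57049) (S (nat_lit 10997) (S (nat_lit 39542) (S (nat_lit 62) (S (nat_lit 35073) (S (nat_lit 42) (L (nat_lit 29826133))
(L (nat_lit 26885287)))
(L (nat_lit 12814012)))
(L (nat_lit 20481404)))
(L (nat_lit 27310730)))
(S (nat_lit 54676) (L (nat_lit 7767891))
(L (nat_lit 8291795))))
(L (nat_lit 21932173))))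
(S (nat_lit 30724) (S (nat_lit 40547) (S (nat_lit 15373) (L (nat_lit 20416299))
(L (nat_lit 15363299)))
(S (nat_lit 50444) (L (nat_lit 27854218))
(L (nat_lit 9897592))))
(S (nat_lit 50488) (S (nat_lit 1651) (L (nat_lit 9897592))
(S (nat_lit 1732) (S (nat_lit 57049) (S (nat_lit 57086) (S (nat_lit 39542) (S (nat_lit 1958) (S (nat_lit 37260) (S (nat_lit 2019) (S (nat_lit 20767) (S (nat_lit 997) (S (nat_lit 30699) (S (nat_lit 28526) (S (nat_lit 5969) (S (nat_lit 8773) (S (nat_lit 42385) (S (nat_lit 19789) (S (nat_lit 39603) (S (nat_lit 40807) (S (nat_lit 41534) (S (nat_lit 35104) (S (nat_lit 4215) (S (nat_lit 24012) (S (nat_lit 29699) (S (nat_lit 55787) (S (nat_lit 4547) (D (nat_lit 13) (nat_lit 29951280) (nat_lit 19670501) (nat_lit 2202481494276))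
(L (nat_lit 31040037)))
(L (nat_lit 30023695)))
(L (nat_lit 27868233)))
(L (nat_lit 13984323)))
(S (nat_lit 12753) (S (nat_lit 52295) (S (nat_lit 58613) (S (nat_lit 5821) (D (nat_lit 11) (nat_lit 29036848) (nat_lit 19055371) (nat_lit 35641139304))
(L (nat_lit 29765313)))
(L (nat_lit 10373633)))
(L (nat_lit 10374656)))
(L (nat_lit 28854411))))
(L (nat_lit 3874200)))
(L (nat_lit 7096832)))
(L (nat_lit 18146884)))
(L (nat_lit 11243997)))
(L (nat_lit 4020558)))
(L (nat_lit 12623516)))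
(L (nat_lit 26230098)))
(L (nat_lit 21933070)))
(L (nat_lit 12635050)))
(L (nat_lit 19130849)))
(L (nat_lit 13961108)))
(L (nat_lit 12030901)))
(L (nat_lit 20120025)))
(L (nat_lit 19963791)))
(L (nat_lit 3546780)))
(L (nat_lit 27474564)))
(L (nat_lit 27924932)))
(L (nat_lit 10545619)))
(L (nat_lit 4535157))))
(L (nat_lit 25414832)))))
(S (nat_lit 35135) (S (nat_lit 17538) (S (nat_lit 19839) (S (nat_lit 7940) (L (nat_lit 26325577))
(S (nat_lit 20798) (S (nat_lit 21479) (S (nat_lit 1732) (S (nat_lit 1257) (L (nat_lit 1955270))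
(L (nat_lit 26871085)))
(L (nat_lit 10326703)))
(L (nat_lit 21405601)))
(L (nat_lit 22852711))))
(S (nat_lit 43833) (L (nat_lit 22408673))
(L (nat_lit 21872743))))
(S (nat_lit 37302) (S (nat_lit 17521) (S (nat_lit 8795) (S (nat_lit 54862) (S (nat_lit 30713) (L (nat_lit 891347))
(L (nat_lit 13694538)))
(L (nat_lit 14593667)))
(L (nat_lit 6877829)))
(S (nat_lit 37285) (S (nat_lit 39542) (S (nat_lit 1290) (L (nat_lit 4043398))
(L (nat_lit 8484338)))
(L (nat_lit 16818840)))
(S (nat_lit 57049) (S (nat_lit 1290) (S (nat_lit 2083) (L (nat_lit 7897755))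
(S (nat_lit 54879) (S (nat_lit 28554) (S (nat_lit 41243) (L (nat_lit 30416526))
(L (nat_lit 23968936)))
(L (nat_lit 24414714)))
(L (nat_lit 11046555))))
(S (nat_lit 6033) (L (nat_lit 25015334))
(L (nat_lit 8471193))))
(L (nat_lit 25669251)))))
(S (nat_lit 57066) (S (nat_lit 997) (S (nat_lit 1958) (S (nat_lit 48340) (S (nat_lit 50477) (S (nat_lit 35115) (S (nat_lit 20767) (S (nat_lit 50494) (S (nat_lit 54912) (S (nat_lit 39603) (S (nat_lit 54868) (S (nat_lit 21708) (S (nat_lit 1732) (S (nat_lit 20993) (S (nat_lit 41291) (S (nat_lit 49608) (S (nat_lit 49628) (S (nat_lit 8810) (S (nat_lit 40564) (S (nat_lit 19789) (S (nat_lit 22811) (S (nat_lit 12736) (S (nat_lit 35020) (S (nat_lit 25331) (S (nat_lit 31596) (D (nat_lit 13) (nat_lit 27997476) (nat_lit 25767395) (nat_lit 6777699604580))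
(L (nat_lit 21489890)))
(L (nat_lit 16633026)))
(L (nat_lit 7243500)))
(L (nat_lit 28979488)))
(S (nat_lit 53569) (S (nat_lit 37115) (S (nat_lit 16758) (S (nat_lit 4036) (S (nat_lit 50337) (D (nat_lit 13) (nat_lit 27999337) (nat_lit 19670565) (nat_lit 1274801226759))
(L (nat_lit 21897233)))
(L (nat_lit 29050085)))
(L (nat_lit 31005808)))
(L (nat_lit 28790016)))
(L (nat_lit 5617590))))
(L (nat_lit 30622900)))
(L (nat_lit 10187168)))
(L (nat_lit 15309980)))
(L (nat_lit 28747396)))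
(L (nat_lit 21808137)))
(L (nat_lit 17533146)))
(L (nat_lit 16086658)))
(L (nat_lit 12235584)))
(L (nat_lit 16093011)))
(L (nat_lit 5873457)))
(L (nat_lit 27411078)))
(L (nat_lit 11692656)))
(L (nat_lit 12318211)))
(L (nat_lit 15921798)))
(L (nat_lit 9860737)))
(L (nat_lit 5161546)))
(L (nat_lit 13791447)))
(S (nat_lit 34952) (L (nat_lit 26772726))
(L (nat_lit 19662064))))
(L (nat_lit 11294831)))
(L (nat_lit 25712960)))))
(S (nat_lit 54899) (S (nat_lit 1748) (S (nat_lit 57086) (S (nat_lit 50525) (S (nat_lit 1019) (L (nat_lit 18024027))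
(L (nat_lit 26707561)))
(L (nat_lit 15369592)))
(L (nat_lit 12191502)))
(S (nat_lit 21512) (S (nat_lit 17543) (S (nat_lit 997) (S (nat_lit 57099) (S (nat_lit 1958) (S (nat_lit 1257) (L (nat_lit 21371713))
(L (nat_lit 13829880)))
(L (nat_lit 14458498)))
(L (nat_lit 4674439)))
(S (nat_lit 58455) (L (nat_lit 7403151))
(L (nat_lit 14419253))))
(S (nat_lit 37307) (S (nat_lit 17571) (S (nat_lit 35073) (S (nat_lit 1277) (S (nat_lit 28543) (S (nat_lit 1958) (S (nat_lit 40743) (S (nat_lit 40547) (S (nat_lit 64) (S (nat_lit 30730) (S (nat_lit 48340) (S (nat_lit 7480) (S (nat_lit 53996) (S (nat_lit 21755) (S (nat_lit 1034) (S (nat_lit 39603) (S (nat_lit 29911) (S (nat_lit 19540) (S (nat_lit 17110) (S (nat_lit 33816) (D (nat_lit 11) (nat_lit 29954255) (nat_lit 19404553) (nat_lit 71109253254))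
(L (nat_lit 27999242)))
(L (nat_lit 27349450)))
(L (nat_lit 27775268)))
(S (nat_lit 41103) (S (nat_lit 38106) (S (nat_lit 49432) (S (nat_lit 51376) (D (nat_lit 11) (nat_lit 25936131) (nat_lit 19672517) (nat_lit 138417381))
(L (nat_lit 14589664)))
(L (nat_lit 13475553)))
(L (nat_lit 29046016)))
(L (nat_lit 12019266))))
(L (nat_lit 23926246)))
(L (nat_lit 11242384)))
(L (nat_lit 11192192)))
(L (nat_lit 28383732)))
(L (nat_lit 10301458)))
(L (nat_lit 4911308)))
(L (nat_lit 14386456)))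
(L (nat_lit 8293781)))
(L (nat_lit 27461047)))
(L (nat_lit 7959725)))
(L (nat_lit 13928124)))
(L (nat_lit 19268893)))
(L (nat_lit 13309833)))
(L (nat_lit 30415598)))
(L (nat_lit 8309153)))
(S (nat_lit 57071) (S (nat_lit 1047) (S (nat_lit 57049) (L (nat_lit 11436621))
(L (nat_lit 4410189)))
(S (nat_lit 55421) (L (nat_lit 21302030))
(L (nat_lit 11459044))))
(L (nat_lit 25466420)))))
(S (nat_lit 41276) (S (nat_lit 57086) (S (nat_lit 21043) (L (nat_lit 14222683))
(L (nat_lit 12354997)))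
(L (nat_lit 15336824)))
(L (nat_lit 25827408)))))
(L (nat_lit 25311604)))))
(S (nat_lit 21540) (S (nat_lit 15334) (S (nat_lit 8790) (S (nat_lit 10966) (S (nat_lit 17538) (S (nat_lit 50463) (L (nat_lit 26478253))
(L (nat_lit 11072532)))
(L (nat_lit 8228495)))
(S (nat_lit 30730) (S (nat_lit 1229) (S (nat_lit 54899) (S (nat_lit 19778) (S (nat_lit 10949) (L (nat_lit 7931728))
(L (nat_lit 836170)))
(L (nat_lit 21197936)))
(L (nat_lit 4791800)))
(L (nat_lit 11293122)))
(S (nat_lit 50494) (S (nat_lit 21755) (S (nat_lit 20800) (L (nat_lit 15755846))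
(L (nat_lit 14808404)))
(L (nat_lit 22485177)))
(L (nat_lit 25287177)))))
(S (nat_lit 28554) (S (nat_lit 8795) (S (nat_lit 10960) (S (nat_lit 57086) (S (nat_lit 17543) (L (nat_lit 29557420))
(L (nat_lit 26522277)))
(L (nat_lit 15365477)))
(S (nat_lit 30874) (L (nat_lit 24332192))
(L (nat_lit 8025261))))
(S (nat_lit 28559) (S (nat_lit 20800) (S (nat_lit 11010) (S (nat_lit 40500) (L (nat_lit 325077))
(L (nat_lit 8292787)))
(L (nat_lit 8312224)))
(L (nat_lit 11588495)))
(S (nat_lit 48323) (S (nat_lit 48683) (L (nat_lit 11016114))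
(S (nat_lit 50463) (S (nat_lit 17521) (S (nat_lit 19778) (S (nat_lit 20778) (L (nat_lit 10220996))
(L (nat_lit 15735667)))
(L (nat_lit 30805642)))
(L (nat_lit 15963802)))
(L (nat_lit 5152399))))
(L (nat_lit 25578506)))))
(S (nat_lit 48318) (S (nat_lit 21043) (S (nat_lit 50505) (S (nat_lit 21739) (S (nat_lit 19826) (S (nat_lit 20811) (S (nat_lit 17521) (S (nat_lit 57071) (S (nat_lit 50463) (S (nat_lit 8810) (S (nat_lit 17560) (S (nat_lit 46507) (S (nat_lit 17527) (S (nat_lit 46540) (S (nat_lit 1732) (S (nat_lit 1991) (S (nat_lit 28543) (S (nat_lit 42) (S (nat_lit 47654) (S (nat_lit 54720) (S (nat_lit 49423) (S (nat_lit 51610) (S (nat_lit 33078) (S (nat_lit 32849) (D (nat_lit 11) (nat_lit 31076611) (nat_lit 796237) (nat_lit 209518270659))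
(L (nat_lit 22985029)))
(L (nat_lit 13540964)))
(L (nat_lit 19772612)))
(L (nat_lit 19771585)))
(L (nat_lit 28947649)))
(S (nat_lit 50426) (S (nat_lit 54543) (S (nat_lit 36152) (S (nat_lit 39107) (S (nat_lit 26438) (D (nat_lit 13) (nat_lit 26875216) (nat_lit 25544879) (nat_lit 105260449925))
(L (nat_lit 17068147)))
(L (nat_lit 19275649)))
(L (nat_lit 19739873)))
(L (nat_lit 29995235)))
(L (nat_lit 13930106))))
(L (nat_lit 26693952)))
(L (nat_lit 24412940)))
(L (nat_lit 13694566)))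
(L (nat_lit 13651195)))
(L (nat_lit 15270140)))
(L (nat_lit 1941101)))
(L (nat_lit 15986738)))
(L (nat_lit 2012403)))
(L (nat_lit 925171)))
(L (nat_lit 11063325)))
(L (nat_lit 11618808)))
(L (nat_lit 8123568)))
(L (nat_lit 31178922)))
(L (nat_lit 31175850)))
(L (nat_lit 21213953)))
(L (nat_lit 11252925)))
(S (nat_lit 33814) (L (nat_lit 4545358))
(L (nat_lit 22050219))))
(L (nat_lit 25445984)))))
(S (nat_lit 35098) (S (nat_lit 8773) (S (nat_lit 41293) (S (nat_lit 19789) (L (nat_lit 225844))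
(L (nat_lit 14904500)))
(L (nat_lit 1267100)))
(S (nat_lit 28537) (S (nat_lit 50477) (S (nat_lit 54837) (S (nat_lit 20778) (S (nat_lit 15323) (S (nat_lit 1003) (S (nat_lit 1958) (S (nat_lit 1765) (S (nat_lit 8762) (S (nat_lit 2006) (S (nat_lit 1991) (S (nat_lit 40785) (S (nat_lit 40547) (S (nat_lit 22358) (S (nat_lit 54879) (S (nat_lit 21465) (S (nat_lit 4599) (S (nat_lit 37887) (S (nat_lit 10878) (S (nat_lit 55984) (D (nat_lit 11) (nat_lit 5065222) (nat_lit 385616) (nat_lit 34463650950))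
(L (nat_lit 24036486)))
(L (nat_lit 31145221)))
(L (nat_lit 28982597)))
(S (nat_lit 18609) (S (nat_lit 58606) (S (nat_lit 51316) (S (nat_lit 48468) (D (nat_lit 11) (nat_lit 31145315) (nat_lit 19194030) (nat_lit 71005446312))
(L (nat_lit 29957668)))
(L (nat_lit 3033483)))
(L (nat_lit 3034506)))
(L (nat_lit 23994417))))
(L (nat_lit 5556634)))
(L (nat_lit 5826182)))
(L (nat_lit 5787531)))
(L (nat_lit 27925889)))
(L (nat_lit 27302450)))
(L (nat_lit 5710461)))
(L (nat_lit 5459485)))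
(L (nat_lit 14737227)))
(L (nat_lit 13850400)))
(L (nat_lit 3972753)))
(L (nat_lit 13853717)))
(L (nat_lit 14721906)))
(L (nat_lit 21182522)))
(L (nat_lit 4419246)))
(L (nat_lit 22220216)))
(S (nat_lit 48301) (S (nat_lit 20778) (S (nat_lit 21783) (S (nat_lit 50477) (S (nat_lit 1991) (L (nat_lit 30653586))
(L (nat_lit 5708599)))
(L (nat_lit 22220588)))
(L (nat_lit 14904466)))
(L (nat_lit 15947620)))
(L (nat_lit 25177527)))))
(S (nat_lit 54862) (S (nat_lit 8790) (S (nat_lit 1975) (S (nat_lit 1732) (L (nat_lit 11390095))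
(L (nat_lit 10340832)))
(S (nat_lit 21739) (S (nat_lit 21026) (S (nat_lit 19778) (S (nat_lit 10935) (L (nat_lit 1580761))
(L (nat_lit 15735604)))
(L (nat_lit 22061563)))
(L (nat_lit 14736199)))
(S (nat_lit 41503) (S (nat_lit 19778) (S (nat_lit 40531) (S (nat_lit 10935) (S (nat_lit 57086) (L (nat_lit 21934086))
(L (nat_lit 5729931)))
(L (nat_lit 21202425)))
(L (nat_lit 27281899)))
(L (nat_lit 21898724)))
(L (nat_lit 25211527)))))
(S (nat_lit 28554) (S (nat_lit 997) (S (nat_lit 1732) (S (nat_lit 21770) (S (nat_lit 1036) (L (nat_lit 14882459))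
(L (nat_lit 11254560)))
(L (nat_lit 15747942)))
(S (nat_lit 32141) (L (nat_lit 20154874))
(L (nat_lit 11717115))))
(S (nat_lit 20761) (S (nat_lit 17496) (L (nat_lit 10543790))
(L (nat_lit 16490272)))
(S (nat_lit 40525) (S (nat_lit 17521) (S (nat_lit 1047) (S (nat_lit 54851) (L (nat_lit 21215288))
(L (nat_lit 14591060)))
(L (nat_lit 26975404)))
(L (nat_lit 26982569)))
(L (nat_lit 25510629)))))
(S (nat_lit 48318) (S (nat_lit 21043) (S (nat_lit 15309) (S (nat_lit 21739) (S (nat_lit 57071) (S (nat_lit 1726) (S (nat_lit 50488) (S (nat_lit 20778) (S (nat_lit 15351) (S (nat_lit 48417) (S (nat_lit 39592) (S (nat_lit 18157) (S (nat_lit 41547) (S (nat_lit 40743) (S (nat_lit 35120) (S (nat_lit 17560) (S (nat_lit 40562) (S (nat_lit 41291) (S (nat_lit 16710) (S (nat_lit 15272) (S (nat_lit 16374) (S (nat_lit 56032) (S (nat_lit 30642) (D (nat_lit 13) (nat_lit 30725669) (nat_lit 19259505) (nat_lit 2446120290309))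
(L (nat_lit 6319729)))
(L (nat_lit 20179980)))
(L (nat_lit 28789954)))
(L (nat_lit 31045826)))
(S (nat_lit 35652) (S (nat_lit 12729) (S (nat_lit 35022) (S (nat_lit 26062) (S (nat_lit 31835) (D (nat_lit 13) (nat_lit 27996389) (nat_lit 25767089) (nat_lit 6776659417219))
(L (nat_lit 27384295)))
(L (nat_lit 28032193)))
(L (nat_lit 7243470)))
(L (nat_lit 28980450)))
(L (nat_lit 16426917))))
(L (nat_lit 24407088)))
(L (nat_lit 1616726)))
(L (nat_lit 8293101)))
(L (nat_lit 30525645)))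
(L (nat_lit 7785661)))
(L (nat_lit 6382253)))
(L (nat_lit 30657953)))
(L (nat_lit 28025902)))
(L (nat_lit 30513838)))
(L (nat_lit 1943182)))
(L (nat_lit 21192749)))
(L (nat_lit 11382930)))
(L (nat_lit 19699758)))
(L (nat_lit 11317924)))
(L (nat_lit 15648993)))
(L (nat_lit 22027054)))
(S (nat_lit 25066) (L (nat_lit 11373045))
(L (nat_lit 15749963))))
(L (nat_lit 25241200)))))
(L (nat_lit 25383331)))))
(S (nat_lit 41304) (S (nat_lit 62) (S (nat_lit 10935) (S (nat_lit 21021) (S (nat_lit 21043) (S (nat_lit 15309) (L (nat_lit 15500534))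
(L (nat_lit 22241793)))
(L (nat_lit 15402891)))
(L (nat_lit 14878515)))
(S (nat_lit 30699) (S (nat_lit 37260) (S (nat_lit 17558) (L (nat_lit 15631668))
(L (nat_lit 6883214)))
(L (nat_lit 13830037)))
(S (nat_lit 50463) (S (nat_lit 40575) (S (nat_lit 40547) (S (nat_lit 41291) (S (nat_lit 57086) (L (nat_lit 29498839))
(L (nat_lit 19334522)))
(L (nat_lit 27314385)))
(L (nat_lit 27461232)))
(L (nat_lit 27985261)))
(L (nat_lit 25219559)))))
(S (nat_lit 19826) (S (nat_lit 21490) (S (nat_lit 8810) (S (nat_lit 1958) (S (nat_lit 28543) (S (nat_lit 1748) (S (nat_lit 41514) (S (nat_lit 40743) (S (nat_lit 1277) (S (nat_lit 2006) (S (nat_lit 41472) (S (nat_lit 21739) (S (nat_lit 1743) (L (nat_lit 1528090))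
(S (nat_lit 21507) (S (nat_lit 1262) (S (nat_lit 50505) (L (nat_lit 24131836))
(L (nat_lit 22475073)))
(L (nat_lit 19035527)))
(S (nat_lit 41271) (S (nat_lit 39553) (S (nat_lit 19778) (S (nat_lit 48351) (S (nat_lit 39592) (S (nat_lit 1229) (S (nat_lit 41547) (S (nat_lit 19696) (S (nat_lit 42181) (S (nat_lit 46540) (L (nat_lit 5618264))
(L (nat_lit 26984673)))
(L (nat_lit 26941921)))
(S (nat_lit 54862) (L (nat_lit 28453299))
(L (nat_lit 13652745))))
(L (nat_lit 27271821)))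
(L (nat_lit 20375904)))
(L (nat_lit 28031170)))
(L (nat_lit 5592635)))
(L (nat_lit 22952043)))
(L (nat_lit 27510466)))
(L (nat_lit 25868329)))))
(L (nat_lit 22063022)))
(L (nat_lit 903595)))
(S (nat_lit 21770) (S (nat_lit 21465) (S (nat_lit 41291) (S (nat_lit 14) (S (nat_lit 41503) (S (nat_lit 40757) (S (nat_lit 21021) (S (nat_lit 1944) (S (nat_lit 8823) (S (nat_lit 28554) (S (nat_lit 48290) (S (nat_lit 48301) (S (nat_lit 1969) (S (nat_lit 1743) (S (nat_lit 972) (S (nat_lit 20798) (S (nat_lit 37285) (S (nat_lit 37274) (S (nat_lit 37260) (S (nat_lit 20800) (S (nat_lit 2083) (S (nat_lit 1624) (S (nat_lit 9207) (S (nat_lit 2143) (S (nat_lit 49215) (S (nat_lit 28722) (S (nat_lit 25486) (S (nat_lit 4253) (S (nat_lit 36043) (S (nat_lit 25475) (D (nat_lit 13) (nat_lit 17617216) (nat_lit 1646104) (nat_lit 5707143321798))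
(L (nat_lit 23506848)))
(L (nat_lit 27931877)))
(L (nat_lit 27930848)))
(S (nat_lit 34786) (S (nat_lit 7202) (S (nat_lit 35893) (D (nat_lit 13) (nat_lit 2903530) (nat_lit 16321784) (nat_lit 6597308876868))
(L (nat_lit 19737617)))
(L (nat_lit 27902176)))
(L (nat_lit 24157592))))
(L (nat_lit 27667636)))
(L (nat_lit 616840)))
(L (nat_lit 23325092)))
(L (nat_lit 11438798)))
(L (nat_lit 8833891)))
(S (nat_lit 15917) (S (nat_lit 35661) (S (nat_lit 27386) (S (nat_lit 13061) (S (nat_lit 56660) (S (nat_lit 52374) (S (nat_lit 19427) (S (nat_lit 31810) (S (nat_lit 55763) (D (nat_lit 15) (nat_lit 26333610) (nat_lit 14418505) (nat_lit 141842094146))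
(L (nat_lit 20346081)))
(L (nat_lit 20345024)))
(S (nat_lit 39727) (S (nat_lit 40498) (S (nat_lit 29926) (D (nat_lit 13) (nat_lit 10261101) (nat_lit 10981138) (nat_lit 4647291197696))
(L (nat_lit 21775399)))
(L (nat_lit 26952928)))
(L (nat_lit 30020846))))
(L (nat_lit 5133649)))
(L (nat_lit 10367682)))
(L (nat_lit 29742562)))
(L (nat_lit 20845065)))
(L (nat_lit 19741957)))
(S (nat_lit 42290) (S (nat_lit 3071) (S (nat_lit 22813) (S (nat_lit 56748) (S (nat_lit 3292) (S (nat_lit 56735) (S (nat_lit 36487) (S (nat_lit 10960) (S (nat_lit 47929) (S (nat_lit 54879) (D (nat_lit 15) (nat_lit 5166413) (nat_lit 11690572) (nat_lit 74224603331))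
(L (nat_lit 19706177)))
(L (nat_lit 29013313)))
(S (nat_lit 20648) (S (nat_lit 40498) (S (nat_lit 58847) (D (nat_lit 13) (nat_lit 12355181) (nat_lit 10665746) (nat_lit 3543616722952))
(L (nat_lit 16570592)))
(L (nat_lit 26952928)))
(L (nat_lit 23892361))))
(L (nat_lit 15313794)))
(L (nat_lit 11236431)))
(L (nat_lit 12966789)))
(L (nat_lit 13230405)))
(L (nat_lit 6200821)))
(L (nat_lit 29080900)))
(L (nat_lit 28593295)))))
(L (nat_lit 31173711)))
(L (nat_lit 31162855)))
(L (nat_lit 31175786)))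
(L (nat_lit 31174979)))
(L (nat_lit 31174883)))
(S (nat_lit 36653) (S (nat_lit 48749) (S (nat_lit 21311) (L (nat_lit 5521082))
(L (nat_lit 26849540)))
(L (nat_lit 26849538)))
(L (nat_lit 9194573))))
(L (nat_lit 12031923)))
(L (nat_lit 3973839)))
(L (nat_lit 15788648)))
(L (nat_lit 15780122)))
(L (nat_lit 18140001)))
(L (nat_lit 21328257)))
(L (nat_lit 10227276)))
(L (nat_lit 21933573)))
(L (nat_lit 16967303)))
(L (nat_lit 27921863)))
(L (nat_lit 8147056)))
(L (nat_lit 18696294)))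
(L (nat_lit 16599394)))
(S (nat_lit 41534) (S (nat_lit 1975) (S (nat_lit 21708) (S (nat_lit 17560) (S (nat_lit 48340) (S (nat_lit 1765) (S (nat_lit 1240) (S (nat_lit 32305) (L (nat_lit 29533622))
(L (nat_lit 20340963)))
(L (nat_lit 10667739)))
(L (nat_lit 14357883)))
(L (nat_lit 22454297)))
(S (nat_lit 37324) (S (nat_lit 57066) (S (nat_lit 47) (S (nat_lit 28587) (S (nat_lit 41086) (L (nat_lit 7898714))
(L (nat_lit 20881551)))
(L (nat_lit 19250268)))
(L (nat_lit 19775531)))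
(L (nat_lit 19304198)))
(S (nat_lit 57088) (L (nat_lit 6753948))
(L (nat_lit 25497075)))))
(L (nat_lit 21368715)))
(L (nat_lit 6147562)))
(L (nat_lit 25895952)))))
(L (nat_lit 26780386)))
(L (nat_lit 27379980)))
(L (nat_lit 23561993)))
(L (nat_lit 26903976)))
(L (nat_lit 8980236)))
(L (nat_lit 20710886)))
(L (nat_lit 21465002)))
(L (nat_lit 22873639)))
(S (nat_lit 39590) (S (nat_lit 1019) (S (nat_lit 41254) (S (nat_lit 57086) (L (nat_lit 8062493))
(L (nat_lit 12191500)))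
(L (nat_lit 25003559)))
(S (nat_lit 20783) (S (nat_lit 1215) (S (nat_lit 40622) (L (nat_lit 14878364))
(S (nat_lit 50538) (S (nat_lit 54912) (L (nat_lit 21169037))
(L (nat_lit 10638224)))
(L (nat_lit 10632086))))
(S (nat_lit 20979) (S (nat_lit 54879) (S (nat_lit 50505) (L (nat_lit 22884487))
(L (nat_lit 12062333)))
(L (nat_lit 12258749)))
(S (nat_lit 40743) (S (nat_lit 21527) (S (nat_lit 11010) (L (nat_lit 29504726))
(L (nat_lit 8305216)))
(S (nat_lit 47173) (L (nat_lit 14877492))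
(L (nat_lit 21181217))))
(L (nat_lit 25768040)))))
(S (nat_lit 40547) (S (nat_lit 8779) (S (nat_lit 41486) (S (nat_lit 50494) (L (nat_lit 14976669))
(L (nat_lit 28018088)))
(L (nat_lit 25068881)))
(S (nat_lit 28543) (S (nat_lit 35104) (L (nat_lit 29755049))
(L (nat_lit 18122515)))
(S (nat_lit 48307) (S (nat_lit 54837) (L (nat_lit 19727568))
(L (nat_lit 11241328)))
(L (nat_lit 25442391)))))
(L (nat_lit 25346327)))))
(L (nat_lit 25730789)))))
(L (nat_lit 25696898)))))
(S (nat_lit 40774) (S (nat_lit 64) (S (nat_lit 8762) (S (nat_lit 1726) (S (nat_lit 10960) (S (nat_lit 1014) (S (nat_lit 10977) (L (nat_lit 29366895))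
(L (nat_lit 21864591)))
(L (nat_lit 26235402)))
(S (nat_lit 30724) (S (nat_lit 50463) (S (nat_lit 54899) (L (nat_lit 21438241))
(L (nat_lit 27624884)))
(L (nat_lit 12807220)))
(S (nat_lit 50488) (S (nat_lit 10935) (S (nat_lit 20800) (L (nat_lit 21859567))
(L (nat_lit 12121237)))
(L (nat_lit 8176660)))
(L (nat_lit 25220461)))))
(S (nat_lit 21490) (S (nat_lit 10977) (S (nat_lit 54837) (S (nat_lit 15323) (L (nat_lit 14456948))
(L (nat_lit 8121892)))
(L (nat_lit 21523495)))
(S (nat_lit 30741) (S (nat_lit 54851) (S (nat_lit 15356) (S (nat_lit 37307) (S (nat_lit 15309) (L (nat_lit 28771573))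
(L (nat_lit 26412501)))
(L (nat_lit 14429236)))
(L (nat_lit 7916293)))
(L (nat_lit 11438644)))
(S (nat_lit 50505) (S (nat_lit 20798) (S (nat_lit 21041) (L (nat_lit 14458932))
(L (nat_lit 1593127)))
(L (nat_lit 6081063)))
(L (nat_lit 25769126)))))
(S (nat_lit 41254) (S (nat_lit 25) (S (nat_lit 1423) (L (nat_lit 7356213))
(S (nat_lit 40531) (S (nat_lit 45773) (L (nat_lit 8230576))
(L (nat_lit 5098702)))
(L (nat_lit 7861428))))
(S (nat_lit 19789) (S (nat_lit 41497) (S (nat_lit 8790) (S (nat_lit 21529) (S (nat_lit 15373) (L (nat_lit 4740903))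
(L (nat_lit 15363267)))
(L (nat_lit 16555157)))
(L (nat_lit 21864622)))
(L (nat_lit 27697237)))
(S (nat_lit 39553) (S (nat_lit 21739) (L (nat_lit 6308757))
(L (nat_lit 31067375)))
(L (nat_lit 25806179)))))
(L (nat_lit 25789959)))))
(S (nat_lit 28526) (S (nat_lit 17558) (S (nat_lit 986) (S (nat_lit 40757) (S (nat_lit 41293) (S (nat_lit 30761) (L (nat_lit 5848441))
(L (nat_lit 10257006)))
(L (nat_lit 27820404)))
(L (nat_lit 3054225)))
(S (nat_lit 20750) (S (nat_lit 16151) (L (nat_lit 30450068))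
(S (nat_lit 41497) (S (nat_lit 21004) (S (nat_lit 1279) (S (nat_lit 8810) (S (nat_lit 19789) (S (nat_lit 28587) (S (nat_lit 20811) (S (nat_lit 1648) (L (nat_lit 3423898))
(L (nat_lit 17917300)))
(L (nat_lit 749002)))
(L (nat_lit 8842816)))
(L (nat_lit 21194242)))
(L (nat_lit 1434285)))
(L (nat_lit 8941121)))
(L (nat_lit 4792174)))
(L (nat_lit 27623988))))
(S (nat_lit 40514) (S (nat_lit 40531) (S (nat_lit 17538) (S (nat_lit 8790) (S (nat_lit 21708) (S (nat_lit 41497) (S (nat_lit 17337) (S (nat_lit 1958) (S (nat_lit 26303) (L (nat_lit 5452443))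
(L (nat_lit 629241)))
(L (nat_lit 9563606)))
(L (nat_lit 27626901)))
(L (nat_lit 24519425)))
(L (nat_lit 22327484)))
(L (nat_lit 21082489)))
(L (nat_lit 22132089)))
(L (nat_lit 8023493)))
(L (nat_lit 25514433)))))
(S (nat_lit 37322) (S (nat_lit 1776) (S (nat_lit 54912) (S (nat_lit 50538) (L (nat_lit 13540932))
(L (nat_lit 4612372)))
(L (nat_lit 4808974)))
(S (nat_lit 21540) (S (nat_lit 8790) (S (nat_lit 8810) (S (nat_lit 21041) (S (nat_lit 19806) (S (nat_lit 41497) (S (nat_lit 17543) (S (nat_lit 53479) (L (nat_lit 29922643))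
(L (nat_lit 10642094)))
(L (nat_lit 7869236)))
(L (nat_lit 23191758)))
(L (nat_lit 15468882)))
(L (nat_lit 22033659)))
(L (nat_lit 630671)))
(S (nat_lit 51055) (L (nat_lit 6147464))
(L (nat_lit 21246105))))
(S (nat_lit 41304) (S (nat_lit 21490) (S (nat_lit 21041) (S (nat_lit 8790) (S (nat_lit 17496) (S (nat_lit 21004) (S (nat_lit 41534) (S (nat_lit 19826) (S (nat_lit 38590) (L (nat_lit 2311932))
(L (nat_lit 15641217)))
(L (nat_lit 15519044)))
(L (nat_lit 24342050)))
(L (nat_lit 12175137)))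
(L (nat_lit 26773223)))
(L (nat_lit 21859694)))
(L (nat_lit 21501737)))
(L (nat_lit 22873639)))
(L (nat_lit 25431538)))))
(S (nat_lit 57086) (S (nat_lit 75) (S (nat_lit 10982) (S (nat_lit 15356) (S (nat_lit 21490) (L (nat_lit 8308357))
(L (nat_lit 16647381)))
(L (nat_lit 17528004)))
(L (nat_lit 23622852)))
(S (nat_lit 19839) (S (nat_lit 7415) (L (nat_lit 3656028))
(S (nat_lit 41260) (S (nat_lit 997) (S (nat_lit 50505) (S (nat_lit 54879) (L (nat_lit 8159950))
(L (nat_lit 5656327)))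
(L (nat_lit 5846791)))
(S (nat_lit 5696) (L (nat_lit 22082862))
(L (nat_lit 5037294))))
(L (nat_lit 27733173))))
(S (nat_lit 39603) (S (nat_lit 57066) (S (nat_lit 48323) (S (nat_lit 28587) (S (nat_lit 21755) (S (nat_lit 40757) (S (nat_lit 40818) (S (nat_lit 39542) (S (nat_lit 28543) (S (nat_lit 47) (S (nat_lit 21708) (S (nat_lit 48340) (S (nat_lit 1975) (S (nat_lit 2019) (S (nat_lit 37324) (S (nat_lit 37260) (S (nat_lit 37307) (S (nat_lit 41514) (S (nat_lit 41534) (S (nat_lit 21041) (S (nat_lit 21021) (S (nat_lit 41497) (S (nat_lit 17571) (S (nat_lit 1279) (S (nat_lit 19789) (S (nat_lit 19806) (S (nat_lit 1748) (S (nat_lit 20750) (S (nat_lit 21490) (S (nat_lit 1765) (S (nat_lit 21527) (S (nat_lit 1014) (S (nat_lit 44360) (S (nat_lit 3075) (S (nat_lit 17244) (S (nat_lit 52069) (S (nat_lit 11262) (S (nat_lit 50622) (S (nat_lit 23283) (S (nat_lit 30138) (S (nat_lit 10683) (S (nat_lit 1416) (S (nat_lit 676) (D (nat_lit 13) (nat_lit 31038509)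 (nat_lit 25281746) (nat_lit 4470055476327))
(L (nat_lit 30055844)))
(L (nat_lit 30063973)))
(L (nat_lit 30063908)))
(S (nat_lit 39162) (S (nat_lit 36403) (S (nat_lit 51636) (D (nat_lit 15) (nat_lit 26821735) (nat_lit 13656651) (nat_lit 141842094146))
(L (nat_lit 24482703)))
(L (nat_lit 28892388)))
(L (nat_lit 12063354))))
(L (nat_lit 23637178)))
(L (nat_lit 15781639)))
(L (nat_lit 28397990)))
(L (nat_lit 21262352)))
(L (nat_lit 21262416)))
(L (nat_lit 27450792)))
(S (nat_lit 49469) (S (nat_lit 360) (S (nat_lit 58127) (S (nat_lit 41103) (S (nat_lit 57608) (S (nat_lit 3972) (S (nat_lit 35537) (S (nat_lit 45332) (D (nat_lit 15) (nat_lit 18698246) (nat_lit 17582304) (nat_lit 240518168644))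
(L (nat_lit 30029990)))
(L (nat_lit 27932960)))
(S (nat_lit 14801) (S (nat_lit 14764) (S (nat_lit 28126) (S (nat_lit 31886) (D (nat_lit 15) (nat_lit 27372020) (nat_lit 5819146) (nat_lit 109728434341))
(L (nat_lit 27865376)))
(L (nat_lit 22888741)))
(L (nat_lit 30130403)))
(L (nat_lit 21112688))))
(L (nat_lit 15781112)))
(L (nat_lit 10376610)))
(L (nat_lit 16459554)))
(L (nat_lit 21473058)))
(S (nat_lit 51912) (S (nat_lit 33363) (S (nat_lit 32372) (S (nat_lit 32115) (S (nat_lit 54952) (S (nat_lit 36933) (S (nat_lit 19297) (S (nat_lit 30185) (S (nat_lit 39992) (D (nat_lit 13) (nat_lit 9593452) (nat_lit 10981138) (nat_lit 7839463546048))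
(L (nat_lit 26941920)))
(L (nat_lit 21773505)))
(S (nat_lit 31545) (S (nat_lit 39182) (S (nat_lit 9851) (S (nat_lit 2528) (D (nat_lit 15) (nat_lit 27865227) (nat_lit 25773280) (nat_lit 178274865288))
(L (nat_lit 28399019)))
(L (nat_lit 29080745)))
(L (nat_lit 22920418)))
(L (nat_lit 28396074))))
(L (nat_lit 28914946)))
(L (nat_lit 2416060)))
(L (nat_lit 27377910)))
(L (nat_lit 27435630)))
(L (nat_lit 3681175)))
(L (nat_lit 30062944)))))
(L (nat_lit 19774570)))
(L (nat_lit 30984385)))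
(L (nat_lit 19840352)))
(L (nat_lit 31048896)))
(L (nat_lit 31046849)))
(S (nat_lit 58655) (S (nat_lit 33730) (S (nat_lit 29389) (L (nat_lit 309916))
(L (nat_lit 26849634)))
(L (nat_lit 26849570)))
(L (nat_lit 14348643))))
(L (nat_lit 22810150)))
(L (nat_lit 22275619)))
(L (nat_lit 9360801)))
(L (nat_lit 25079201)))
(L (nat_lit 24537281)))
(L (nat_lit 22503653)))
(L (nat_lit 22918368)))
(L (nat_lit 24671426)))
(L (nat_lit 24952003)))
(L (nat_lit 10065806)))
(L (nat_lit 9951105)))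
(L (nat_lit 10044291)))
(L (nat_lit 19832876)))
(S (nat_lit 40408) (S (nat_lit 41497) (L (nat_lit 16833754))
(L (nat_lit 6898433)))
(L (nat_lit 13446197))))
(L (nat_lit 20071673)))
(L (nat_lit 4606859)))
(L (nat_lit 8034065)))
(L (nat_lit 10388887)))
(L (nat_lit 5460881)))
(L (nat_lit 24349581)))
(L (nat_lit 24449498)))
(L (nat_lit 16392379)))
(L (nat_lit 19769729)))
(L (nat_lit 5033165)))
(L (nat_lit 19162287)))
(L (nat_lit 25510995)))))
(L (nat_lit 25304532)))))
(S (nat_lit 48290) (S (nat_lit 15334) (S (nat_lit 15371) (S (nat_lit 21755) (S (nat_lit 41260) (S (nat_lit 57038) (L (nat_lit 22061560))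
(L (nat_lit 19376004)))
(L (nat_lit 27505312)))
(L (nat_lit 14719579)))
(S (nat_lit 35135) (S (nat_lit 39575) (S (nat_lit 21043) (S (nat_lit 10935) (L (nat_lit 19439393))
(L (nat_lit 8062767)))
(L (nat_lit 7115342)))
(L (nat_lit 11168164)))
(S (nat_lit 54899) (S (nat_lit 21490) (S (nat_lit 54879) (S (nat_lit 10949) (L (nat_lit 894542))
(L (nat_lit 26427972)))
(L (nat_lit 5033447)))
(L (nat_lit 14839061)))
(L (nat_lit 25613669)))))
(S (nat_lit 35098) (S (nat_lit 1726) (S (nat_lit 1958) (S (nat_lit 997) (S (nat_lit 986) (L (nat_lit 12622490))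
(L (nat_lit 20723719)))
(L (nat_lit 20749358)))
(L (nat_lit 20723936)))
(S (nat_lit 21490) (S (nat_lit 50463) (S (nat_lit 1091) (L (nat_lit 5843389))
(L (nat_lit 16384807)))
(L (nat_lit 20121455)))
(S (nat_lit 41254) (S (nat_lit 50463) (L (nat_lit 10640175))
(L (nat_lit 22244399)))
(L (nat_lit 25529908)))))
(S (nat_lit 54862) (S (nat_lit 1969) (S (nat_lit 57038) (S (nat_lit 50463) (S (nat_lit 20800) (L (nat_lit 18913786))
(L (nat_lit 12434516)))
(L (nat_lit 20149263)))
(L (nat_lit 4408212)))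
(S (nat_lit 21733) (S (nat_lit 21490) (S (nat_lit 40547) (S (nat_lit 57086) (S (nat_lit 48351) (L (nat_lit 23469861))
(L (nat_lit 4831111)))
(L (nat_lit 5723514)))
(L (nat_lit 27729473)))
(L (nat_lit 15887637)))
(S (nat_lit 41497) (S (nat_lit 10997) (S (nat_lit 50510) (S (nat_lit 41260) (L (nat_lit 13834101))
(L (nat_lit 27930949)))
(L (nat_lit 6076629)))
(S (nat_lit 36162) (L (nat_lit 27303379))
(L (nat_lit 2005461))))
(L (nat_lit 25791015)))))
(L (nat_lit 25181833)))))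
(L (nat_lit 25375461)))))
(S (nat_lit 19828) (S (nat_lit 15323) (S (nat_lit 10960) (S (nat_lit 1257) (S (nat_lit 40547) (S (nat_lit 19778) (S (nat_lit 54837) (L (nat_lit 29989904))
(L (nat_lit 15927037)))
(L (nat_lit 22232153)))
(L (nat_lit 16977496)))
(S (nat_lit 21021) (S (nat_lit 54862) (S (nat_lit 57055) (S (nat_lit 21527) (S (nat_lit 20767) (L (nat_lit 5089682))
(L (nat_lit 21181184)))
(L (nat_lit 21017382)))
(L (nat_lit 27999336)))
(L (nat_lit 4412172)))
(S (nat_lit 40785) (S (nat_lit 41503) (S (nat_lit 20798) (S (nat_lit 10935) (S (nat_lit 21540) (S (nat_lit 8823) (S (nat_lit 8850) (S (nat_lit 21054) (S (nat_lit 40531) (S (nat_lit 17678) (S (nat_lit 10949) (S (nat_lit 21770) (S (nat_lit 50510) (S (nat_lit 54868) (S (nat_lit 41276) (S (nat_lit 28667) (S (nat_lit 1701) (S (nat_lit 46180) (S (nat_lit 3066) (S (nat_lit 3795) (S (nat_lit 31139) (S (nat_lit 35893) (S (nat_lit 50845) (D (nat_lit 11) (nat_lit 27614689) (nat_lit 15485219) (nat_lit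 177202168032))
(L (nat_lit 7166468)))
(L (nat_lit 14555155)))
(L (nat_lit 28024256)))
(L (nat_lit 28029184)))
(L (nat_lit 28029216)))
(S (nat_lit 55219) (S (nat_lit 51833) (S (nat_lit 13807) (S (nat_lit 47406) (S (nat_lit 51104) (S (nat_lit 2823) (D (nat_lit 11) (nat_lit 27611653) (nat_lit 19674467) (nat_lit 3394438305))
(L (nat_lit 29045091)))
(L (nat_lit 28948740)))
(L (nat_lit 28331497)))
(L (nat_lit 31045860)))
(L (nat_lit 28948772)))
(L (nat_lit 30489289))))
(L (nat_lit 4999593)))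
(L (nat_lit 6139535)))
(L (nat_lit 24144262)))
(L (nat_lit 21556329)))
(L (nat_lit 28021998)))
(L (nat_lit 21171739)))
(L (nat_lit 1273267)))
(L (nat_lit 5452596)))
(L (nat_lit 8008485)))
(L (nat_lit 6319571)))
(L (nat_lit 17855796)))
(L (nat_lit 16971060)))
(L (nat_lit 14740819)))
(L (nat_lit 26431969)))
(L (nat_lit 6343195)))
(L (nat_lit 27315439)))
(L (nat_lit 25210573)))))
(L (nat_lit 21197965)))
(S (nat_lit 35087) (S (nat_lit 15384) (S (nat_lit 8427) (S (nat_lit 40547) (L (nat_lit 5910909))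
(L (nat_lit 16998979)))
(S (nat_lit 41260) (S (nat_lit 997) (S (nat_lit 20800) (S (nat_lit 57086) (S (nat_lit 28554) (S (nat_lit 1726) (S (nat_lit 1969) (S (nat_lit 54837) (S (nat_lit 11010) (L (nat_lit 28334599))
(L (nat_lit 18787904)))
(L (nat_lit 20979566)))
(L (nat_lit 13408340)))
(L (nat_lit 13410356)))
(L (nat_lit 13541524)))
(L (nat_lit 11338132)))
(L (nat_lit 12083776)))
(S (nat_lit 4306) (L (nat_lit 23245080))
(L (nat_lit 2924084))))
(L (nat_lit 18649332))))
(S (nat_lit 35148) (S (nat_lit 21527) (S (nat_lit 1240) (S (nat_lit 41260) (S (nat_lit 997) (S (nat_lit 1969) (L (nat_lit 27693766))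
(L (nat_lit 20095886)))
(L (nat_lit 18969903)))
(L (nat_lit 27929774)))
(S (nat_lit 35652) (L (nat_lit 8057966))
(L (nat_lit 10680014))))
(L (nat_lit 15584513)))
(S (nat_lit 54912) (S (nat_lit 21527) (S (nat_lit 1726) (S (nat_lit 20800) (S (nat_lit 57086) (S (nat_lit 30741) (S (nat_lit 40547) (S (nat_lit 997) (S (nat_lit 1969) (S (nat_lit 10997) (S (nat_lit 41271) (S (nat_lit 21041) (S (nat_lit 17538) (S (nat_lit 21783) (S (nat_lit 1701) (S (nat_lit 30746) (S (nat_lit 6959) (S (nat_lit 55462) (S (nat_lit 58378) (S (nat_lit 577) (S (nat_lit 40211) (S (nat_lit 9221) (D (nat_lit 9) (nat_lit 28693585) (nat_lit 19672483) (nat_lit 77351359590))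
(L (nat_lit 31109377)))
(L (nat_lit 30058640)))
(L (nat_lit 27676897)))
(L (nat_lit 22889699)))
(L (nat_lit 22888643)))
(S (nat_lit 15917) (S (nat_lit 10447) (S (nat_lit 54987) (S (nat_lit 57417) (S (nat_lit 46677) (S (nat_lit 13564) (D (nat_lit 9) (nat_lit 30788782) (nat_lit 25767085) (nat_lit 77418697764))
(L (nat_lit 31144128)))
(L (nat_lit 12871766)))
(L (nat_lit 22885731)))
(L (nat_lit 22884706)))
(L (nat_lit 30061762)))
(L (nat_lit 28888203))))
(L (nat_lit 3067116)))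
(L (nat_lit 4607353)))
(L (nat_lit 11307660)))
(L (nat_lit 636806)))
(L (nat_lit 30936809)))
(L (nat_lit 8404701)))
(L (nat_lit 16424837)))
(L (nat_lit 19045262)))
(L (nat_lit 19203982)))
(L (nat_lit 8280481)))
(L (nat_lit 2548084)))
(L (nat_lit 27612334)))
(L (nat_lit 12374094)))
(L (nat_lit 19701870)))
(L (nat_lit 16011041)))
(L (nat_lit 25514064)))))
(S (nat_lit 54851) (S (nat_lit 8810) (S (nat_lit 10997) (S (nat_lit 20800) (S (nat_lit 37260) (S (nat_lit 21527) (S (nat_lit 1726) (L (nat_lit 21011313))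
(L (nat_lit 19264559)))
(L (nat_lit 30625313)))
(S (nat_lit 52573) (L (nat_lit 21109147))
(L (nat_lit 23075727))))
(L (nat_lit 12424814)))
(S (nat_lit 30761) (S (nat_lit 15398) (L (nat_lit 23922029))
(S (nat_lit 37260) (S (nat_lit 41260) (S (nat_lit 10935) (S (nat_lit 21527) (L (nat_lit 17887942))
(L (nat_lit 15951990)))
(L (nat_lit 8146991)))
(L (nat_lit 27609541)))
(L (nat_lit 23108495))))
(S (nat_lit 50525) (S (nat_lit 1726) (S (nat_lit 20800) (S (nat_lit 57099) (S (nat_lit 997) (S (nat_lit 21054) (S (nat_lit 15384) (S (nat_lit 1958) (S (nat_lit 43798) (S (nat_lit 21529) (S (nat_lit 48290) (S (nat_lit 35104) (S (nat_lit 10977) (S (nat_lit 30699) (S (nat_lit 10966) (S (nat_lit 24227) (S (nat_lit 37592) (S (nat_lit 663) (S (nat_lit 17008) (S (nat_lit 57422) (S (nat_lit 57179) (S (nat_lit 40865) (D (nat_lit 11) (nat_lit 30756879) (nat_lit 25769067) (nat_lit 73291467779))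
(L (nat_lit 19807334)))
(L (nat_lit 16599235)))
(L (nat_lit 16599234)))
(L (nat_lit 29965507)))
(L (nat_lit 29998435)))
(S (nat_lit 55257) (S (nat_lit 58394) (S (nat_lit 51104) (S (nat_lit 24801) (D (nat_lit 11) (nat_lit 25511953) (nat_lit 19054904) (nat_lit 138414114))
(L (nat_lit 19166383)))
(L (nat_lit 16600325)))
(L (nat_lit 16599333)))
(L (nat_lit 13275515))))
(L (nat_lit 12157339)))
(L (nat_lit 18685506)))
(L (nat_lit 3021364)))
(L (nat_lit 7932376)))
(L (nat_lit 23856428)))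
(L (nat_lit 27993199)))
(L (nat_lit 6143349)))
(L (nat_lit 30808180)))
(L (nat_lit 5559772)))
(L (nat_lit 1504871)))
(L (nat_lit 21872682)))
(L (nat_lit 19700847)))
(L (nat_lit 12949397)))
(L (nat_lit 7061376)))
(L (nat_lit 18949006)))
(L (nat_lit 25544357)))))
(S (nat_lit 28574) (S (nat_lit 50510) (S (nat_lit 57055) (S (nat_lit 21527) (S (nat_lit 1240) (L (nat_lit 12486255))
(L (nat_lit 3438287)))
(L (nat_lit 14732072)))
(L (nat_lit 11320403)))
(L (nat_lit 13412373)))
(S (nat_lit 48338) (S (nat_lit 1991) (S (nat_lit 20800) (S (nat_lit 40547) (L (nat_lit 23326112))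
(L (nat_lit 16787032)))
(L (nat_lit 11662773)))
(S (nat_lit 21755) (S (nat_lit 21043) (S (nat_lit 57086) (L (nat_lit 16818808))
(L (nat_lit 10945364)))
(L (nat_lit 5020052)))
(S (nat_lit 41519) (S (nat_lit 57086) (S (nat_lit 997) (S (nat_lit 50538) (L (nat_lit 28967435))
(L (nat_lit 10884916)))
(L (nat_lit 11321397)))
(L (nat_lit 12191564)))
(L (nat_lit 25860272)))))
(L (nat_lit 25860580)))))
(L (nat_lit 25417837)))))
(S (nat_lit 39592) (S (nat_lit 1715) (S (nat_lit 10935) (S (nat_lit 21527) (S (nat_lit 15309) (S (nat_lit 17496) (L (nat_lit 1271438))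
(L (nat_lit 24943665)))
(L (nat_lit 26680993)))
(L (nat_lit 14896929)))
(S (nat_lit 30699) (S (nat_lit 37260) (S (nat_lit 1240) (S (nat_lit 21527) (S (nat_lit 40547) (L (nat_lit 25042368))
(L (nat_lit 16998977)))
(L (nat_lit 30624257)))
(L (nat_lit 20749857)))
(L (nat_lit 20848161)))
(S (nat_lit 50463) (S (nat_lit 40547) (S (nat_lit 37260) (S (nat_lit 57071) (S (nat_lit 54884) (S (nat_lit 1240) (L (nat_lit 7111158))
(L (nat_lit 14262177)))
(L (nat_lit 12465204)))
(L (nat_lit 12464180)))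
(L (nat_lit 20848097)))
(L (nat_lit 27477601)))
(L (nat_lit 25679911)))))
(S (nat_lit 21479) (S (nat_lit 1014) (S (nat_lit 1257) (S (nat_lit 11028) (S (nat_lit 21512) (S (nat_lit 50505) (L (nat_lit 498428))
(L (nat_lit 22852929)))
(L (nat_lit 11169187)))
(S (nat_lit 40547) (S (nat_lit 17560) (S (nat_lit 21722) (S (nat_lit 41472) (L (nat_lit 211676))
(L (nat_lit 6469554)))
(L (nat_lit 16657026)))
(L (nat_lit 1535721)))
(L (nat_lit 27483553))))
(S (nat_lit 21021) (S (nat_lit 49199) (L (nat_lit 27841761))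
(S (nat_lit 50510) (L (nat_lit 3848441))
(L (nat_lit 12367893))))
(S (nat_lit 40785) (S (nat_lit 21527) (S (nat_lit 50477) (S (nat_lit 54851) (S (nat_lit 41260) (L (nat_lit 7520052))
(L (nat_lit 18493317)))
(L (nat_lit 6136372)))
(L (nat_lit 6136558)))
(L (nat_lit 22230137)))
(L (nat_lit 25855276)))))
(S (nat_lit 20778) (S (nat_lit 17521) (S (nat_lit 20993) (S (nat_lit 19778) (S (nat_lit 1776) (S (nat_lit 8795) (S (nat_lit 41472) (S (nat_lit 57086) (S (nat_lit 40562) (S (nat_lit 41260) (S (nat_lit 19811) (S (nat_lit 1991) (S (nat_lit 1290) (S (nat_lit 997) (S (nat_lit 37302) (S (nat_lit 28576) (S (nat_lit 20736) (S (nat_lit 17527) (S (nat_lit 48351) (S (nat_lit 21512) (S (nat_lit 8810) (S (nat_lit 37260) (S (nat_lit 41514) (S (nat_lit 1743) (S (nat_lit 37335) (S (nat_lit 1701) (S (nat_lit 2006) (S (nat_lit 41293) (S (nat_lit 19826) (S (nat_lit 39553) (S (nat_lit 1003) (S (nat_lit 21103) (S (nat_lit 9230) (S (nat_lit 10674) (S (nat_lit 39853)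 (S (nat_lit 28687) (S (nat_lit 14026) (S (nat_lit 34912) (S (nat_lit 7756) (D (nat_lit 15) (nat_lit 29822633) (nat_lit 9855557) (nat_lit 208342616129))
(L (nat_lit 30052870)))
(L (nat_lit 17716513)))
(S (nat_lit 15323) (S (nat_lit 12550) (S (nat_lit 22561) (D (nat_lit 13) (nat_lit 26970445) (nat_lit 18997452) (nat_lit 2284951781))
(L (nat_lit 29008972)))
(L (nat_lit 29014087)))
(L (nat_lit 7396207))))
(L (nat_lit 14927896)))
(L (nat_lit 28723425)))
(L (nat_lit 22512395)))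
(L (nat_lit 30785249)))
(S (nat_lit 25771) (S (nat_lit 25804) (S (nat_lit 16244) (S (nat_lit 4792) (S (nat_lit 12276) (S (nat_lit 35734) (S (nat_lit 50852) (S (nat_lit 45696) (S (nat_lit 50477) (S (nat_lit 29690) (S (nat_lit 21447) (D (nat_lit 13) (nat_lit 27901033) (nat_lit 25279794) (nat_lit 6742299711589))
(L (nat_lit 10343500)))
(L (nat_lit 15654176)))
(L (nat_lit 22921509)))
(S (nat_lit 50649) (S (nat_lit 56419) (S (nat_lit 56165) (D (nat_lit 15) (nat_lit 31041058) (nat_lit 25771144) (nat_lit 106535391496))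
(L (nat_lit 28948804)))
(L (nat_lit 28946471)))
(L (nat_lit 10389167))))
(L (nat_lit 16085632)))
(L (nat_lit 27954540)))
(L (nat_lit 14012163)))
(L (nat_lit 23227693)))
(L (nat_lit 21065005)))
(L (nat_lit 2780714)))
(S (nat_lit 27940) (S (nat_lit 16650) (S (nat_lit 15919) (S (nat_lit 28167) (S (nat_lit 12342) (S (nat_lit 52889) (S (nat_lit 5311) (S (nat_lit 32546) (S (nat_lit 55023) (D (nat_lit 15) (nat_lit 26809830) (nat_lit 14418505) (nat_lit 177274494018))
(L (nat_lit 20886882)))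
(L (nat_lit 28947747)))
(S (nat_lit 58078) (S (nat_lit 9683) (S (nat_lit 19928) (D (nat_lit 13) (nat_lit 26876940) (nat_lit 19664109) (nat_lit 8629980389))
(L (nat_lit 19100035)))
(L (nat_lit 31016229)))
(L (nat_lit 24245520))))
(L (nat_lit 15487235)))
(L (nat_lit 20123503)))
(L (nat_lit 20132708)))
(L (nat_lit 27548132)))
(L (nat_lit 18216613)))
(L (nat_lit 17978616)))))
(L (nat_lit 14503269)))
(L (nat_lit 17870553)))
(L (nat_lit 16090841)))
(L (nat_lit 27809056)))
(L (nat_lit 13848450)))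
(L (nat_lit 2699577)))
(L (nat_lit 8990844)))
(L (nat_lit 4549324)))
(L (nat_lit 27611212)))
(L (nat_lit 23128273)))
(L (nat_lit 21405573)))
(L (nat_lit 22971697)))
(L (nat_lit 22472807)))
(L (nat_lit 24397666)))
(S (nat_lit 46803) (L (nat_lit 18979384))
(S (nat_lit 54204) (L (nat_lit 9582168))
(L (nat_lit 11694669)))))
(L (nat_lit 24567849)))
(L (nat_lit 17501562)))
(L (nat_lit 26363124)))
(L (nat_lit 26446476)))
(L (nat_lit 20060976)))
(L (nat_lit 15346745)))
(L (nat_lit 27962383)))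
(L (nat_lit 23865393)))
(L (nat_lit 12191500)))
(L (nat_lit 18722373)))
(S (nat_lit 48143) (L (nat_lit 7935789))
(L (nat_lit 6714389))))
(S (nat_lit 41124) (L (nat_lit 5620412))
(L (nat_lit 13858468))))
(L (nat_lit 21837898)))
(L (nat_lit 22134695)))
(S (nat_lit 37285) (S (nat_lit 8812) (S (nat_lit 17558) (L (nat_lit 16553334))
(L (nat_lit 8311980)))
(L (nat_lit 21115688)))
(S (nat_lit 57049) (S (nat_lit 21527) (S (nat_lit 20993) (L (nat_lit 21796880))
(L (nat_lit 21315330)))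
(L (nat_lit 22230137)))
(L (nat_lit 25864336)))))
(S (nat_lit 40542) (S (nat_lit 5696) (S (nat_lit 37260) (L (nat_lit 17435930))
(L (nat_lit 14549239)))
(S (nat_lit 40768) (S (nat_lit 20638) (L (nat_lit 18183284))
(S (nat_lit 41260) (S (nat_lit 30436) (S (nat_lit 21041) (S (nat_lit 40575) (S (nat_lit 21527) (L (nat_lit 18415867))
(L (nat_lit 21182241)))
(L (nat_lit 27823752)))
(L (nat_lit 30428711)))
(S (nat_lit 40547) (S (nat_lit 41514) (S (nat_lit 21041) (S (nat_lit 21527) (S (nat_lit 41293) (L (nat_lit 6771556))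
(L (nat_lit 18586777)))
(L (nat_lit 7392112)))
(L (nat_lit 1297264)))
(L (nat_lit 24351500)))
(L (nat_lit 27482529))))
(L (nat_lit 18001813))))
(L (nat_lit 17400060))))
(L (nat_lit 25345331)))))
(S (nat_lit 41243) (S (nat_lit 10977) (S (nat_lit 17543) (S (nat_lit 21733) (S (nat_lit 35120) (L (nat_lit 11121693))
(L (nat_lit 17951956)))
(L (nat_lit 15854804)))
(S (nat_lit 37307) (S (nat_lit 21529) (S (nat_lit 41497) (L (nat_lit 13897588))
(L (nat_lit 27859022)))
(L (nat_lit 5520276)))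
(S (nat_lit 57071) (S (nat_lit 1036) (S (nat_lit 35087) (S (nat_lit 37160) (L (nat_lit 7005261))
(L (nat_lit 277300)))
(L (nat_lit 30451092)))
(L (nat_lit 12840084)))
(L (nat_lit 25442981)))))
(S (nat_lit 30741) (S (nat_lit 1726) (S (nat_lit 57086) (S (nat_lit 17543) (L (nat_lit 10258836))
(L (nat_lit 7992334)))
(L (nat_lit 5053844)))
(S (nat_lit 21490) (S (nat_lit 21529) (S (nat_lit 54899) (L (nat_lit 24911268))
(L (nat_lit 11354292)))
(L (nat_lit 5520212)))
(S (nat_lit 41254) (S (nat_lit 20993) (S (nat_lit 8795) (S (nat_lit 21540) (L (nat_lit 29917396))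
(L (nat_lit 22218509)))
(L (nat_lit 6886876)))
(L (nat_lit 21394567)))
(L (nat_lit 25303605)))))
(S (nat_lit 50505) (S (nat_lit 57071) (S (nat_lit 1726) (S (nat_lit 57086) (L (nat_lit 18124629))
(L (nat_lit 12776820)))
(S (nat_lit 2050) (L (nat_lit 30834903))
(L (nat_lit 4616468))))
(L (nat_lit 13407476)))
(L (nat_lit 25595220)))))
(L (nat_lit 25564840)))))
(L (nat_lit 25318792)))))
(L (nat_lit 25667732)))))
(L (nat_lit 25173462)))

theorem rb246_0_17 : run 4 lb246 [] tb246_0_17 kb246 [0, 21772, 39559] [8748, 28512] = true := by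
  decide +kernel

noncomputable def tb179_3 : Tr :=
(S (nat_lit 9044) (S (nat_lit 10987) (S (nat_lit 13687) (S (nat_lit 13418) (S (nat_lit 8584) (S (nat_lit 4398) (S (nat_lit 8315) (S (nat_lit 9313) (S (nat_lit 11688) (S (nat_lit 52) (L (nat_lit 1551186))
(L (nat_lit 13267266)))
(L (nat_lit 16021152)))
(L (nat_lit 6373266)))
(L (nat_lit 21000744)))
(L (nat_lit 7363503)))
(S (nat_lit 28348) (S (nat_lit 5591) (S (nat_lit 543) (S (nat_lit 28079) (S (nat_lit 31735) (L (nat_lit 7127713))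
(L (nat_lit 17429824)))
(L (nat_lit 30417520)))
(L (nat_lit 6311757)))
(L (nat_lit 26807849)))
(S (nat_lit 48112) (S (nat_lit 15085) (S (nat_lit 52) (L (nat_lit 23250267))
(L (nat_lit 1732943)))
(S (nat_lit 20119) (L (nat_lit 26230441))
(L (nat_lit 26512046))))
(L (nat_lit 25251335)))))
(S (nat_lit 33182) (S (nat_lit 8786) (S (nat_lit 254) (S (nat_lit 7098) (S (nat_lit 6589) (S (nat_lit 10935) (L (nat_lit 8182275))
(L (nat_lit 6314489)))
(L (nat_lit 8107811)))
(L (nat_lit 13365603)))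
(S (nat_lit 20099) (L (nat_lit 6881692))
(L (nat_lit 26295542))))
(S (nat_lit 28550) (S (nat_lit 6596) (S (nat_lit 31735) (L (nat_lit 29667476))
(L (nat_lit 400279)))
(L (nat_lit 26333520)))
(S (nat_lit 48314) (S (nat_lit 7609) (S (nat_lit 56574) (L (nat_lit 8472438))
(L (nat_lit 21143408)))
(L (nat_lit 14257530)))
(L (nat_lit 25921775)))))
(S (nat_lit 52946) (S (nat_lit 35349) (S (nat_lit 15085) (S (nat_lit 5178) (S (nat_lit 30475) (S (nat_lit 48042) (S (nat_lit 46644) (L (nat_lit 17701974))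
(L (nat_lit 16806230)))
(L (nat_lit 17097846)))
(L (nat_lit 24437873)))
(L (nat_lit 26532977)))
(L (nat_lit 24428667)))
(L (nat_lit 23490884)))
(L (nat_lit 25182546)))))
(S (nat_lit 33451) (S (nat_lit 6596) (S (nat_lit 51499) (S (nat_lit 55113) (S (nat_lit 43926) (S (nat_lit 28029) (S (nat_lit 52946) (L (nat_lit 16029495))
(L (nat_lit 3428920)))
(L (nat_lit 15599958)))
(L (nat_lit 15654208)))
(L (nat_lit 21905732)))
(L (nat_lit 15550784)))
(S (nat_lit 26360) (S (nat_lit 11555) (S (nat_lit 55113) (L (nat_lit 1780526))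
(L (nat_lit 3730805)))
(S (nat_lit 32944) (S (nat_lit 20800) (S (nat_lit 50993) (S (nat_lit 6829) (L (nat_lit 6383216))
(L (nat_lit 23473210)))
(L (nat_lit 13365570)))
(L (nat_lit 30709359)))
(L (nat_lit 8532605))))
(S (nat_lit 46124) (S (nat_lit 7820) (S (nat_lit 20294) (S (nat_lit 15085) (S (nat_lit 28029) (L (nat_lit 11621164))
(L (nat_lit 30486870)))
(L (nat_lit 13366439)))
(L (nat_lit 31078754)))
(S (nat_lit 27584) (S (nat_lit 13570) (L (nat_lit 1952076))
(S (nat_lit 55113) (S (nat_lit 29077) (S (nat_lit 7342) (L (nat_lit 26821705))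
(L (nat_lit 1922351)))
(L (nat_lit 1561944)))
(L (nat_lit 1339022))))
(S (nat_lit 47348) (S (nat_lit 54384) (S (nat_lit 5400) (S (nat_lit 8057) (L (nat_lit 20409446))
(L (nat_lit 26975281)))
(L (nat_lit 26323507)))
(L (nat_lit 27986473)))
(L (nat_lit 25303729)))))
(L (nat_lit 25428499)))))
(S (nat_lit 53215) (S (nat_lit 13160) (S (nat_lit 52) (S (nat_lit 3837) (L (nat_lit 516776))
(S (nat_lit 13418) (S (nat_lit 7098) (S (nat_lit 48841) (S (nat_lit 14648) (L (nat_lit 19842369))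
(L (nat_lit 26742002)))
(L (nat_lit 22033756)))
(L (nat_lit 7853989)))
(L (nat_lit 5065040))))
(S (nat_lit 38646) (L (nat_lit 1655718))
(L (nat_lit 1917673))))
(S (nat_lit 32924) (S (nat_lit 13617) (S (nat_lit 31229) (S (nat_lit 8315) (L (nat_lit 24907304))
(L (nat_lit 26461237)))
(L (nat_lit 1815897)))
(S (nat_lit 33381) (S (nat_lit 40564) (S (nat_lit 8315) (L (nat_lit 21201742))
(L (nat_lit 23528669)))
(L (nat_lit 23936256)))
(S (nat_lit 53145) (S (nat_lit 26876) (S (nat_lit 6827) (S (nat_lit 20018) (L (nat_lit 29765315))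
(L (nat_lit 30483862)))
(L (nat_lit 21768641)))
(L (nat_lit 1942933)))
(L (nat_lit 25411237)))))
(S (nat_lit 52688) (S (nat_lit 10935) (S (nat_lit 7833) (S (nat_lit 12182) (L (nat_lit 16537703))
(L (nat_lit 21407805)))
(L (nat_lit 26466787)))
(S (nat_lit 30699) (S (nat_lit 7098) (S (nat_lit 8806) (S (nat_lit 24162) (S (nat_lit 11478) (L (nat_lit 5971825))
(L (nat_lit 23532856)))
(L (nat_lit 17379168)))
(L (nat_lit 451144)))
(S (nat_lit 39957) (L (nat_lit 21904708))
(L (nat_lit 21866509))))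
(S (nat_lit 50463) (S (nat_lit 8994) (S (nat_lit 46818) (S (nat_lit 56574) (L (nat_lit 28029031))
(L (nat_lit 27281067)))
(L (nat_lit 27304652)))
(S (nat_lit 50655) (L (nat_lit 6375286))
(L (nat_lit 26745878))))
(L (nat_lit 25412628)))))
(L (nat_lit 25254282)))))
(L (nat_lit 25544260)))))
(S (nat_lit 30751) (S (nat_lit 11971) (S (nat_lit 8265) (S (nat_lit 6845) (S (nat_lit 3542) (L (nat_lit 10917751))
(S (nat_lit 7609) (S (nat_lit 10274) (S (nat_lit 7833) (S (nat_lit 48334) (S (nat_lit 11478) (S (nat_lit 8994) (L (nat_lit 26401319))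
(L (nat_lit 21182489)))
(L (nat_lit 23535459)))
(L (nat_lit 11286647)))
(L (nat_lit 23367532)))
(L (nat_lit 21181284)))
(L (nat_lit 4509551))))
(S (nat_lit 26609) (S (nat_lit 11465) (S (nat_lit 56785) (S (nat_lit 530) (S (nat_lit 7833) (S (nat_lit 1036) (L (nat_lit 7433684))
(L (nat_lit 2420117)))
(L (nat_lit 23388611)))
(L (nat_lit 19197472)))
(L (nat_lit 21281569)))
(L (nat_lit 26820928)))
(S (nat_lit 46373) (S (nat_lit 3542) (L (nat_lit 16029305))
(S (nat_lit 7833) (S (nat_lit 530) (S (nat_lit 56574) (S (nat_lit 46818) (L (nat_lit 7181780))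
(L (nat_lit 10399766)))
(L (nat_lit 14357883)))
(L (nat_lit 3461693)))
(L (nat_lit 21272429))))
(L (nat_lit 25761073)))))
(S (nat_lit 28029) (S (nat_lit 13418) (S (nat_lit 47137) (L (nat_lit 4502354))
(L (nat_lit 18147511)))
(S (nat_lit 33182) (S (nat_lit 46124) (S (nat_lit 54176) (L (nat_lit 15919445))
(L (nat_lit 27807044)))
(L (nat_lit 28029252)))
(S (nat_lit 52946) (S (nat_lit 25164) (S (nat_lit 30038) (L (nat_lit 13658730))
(L (nat_lit 2737499)))
(L (nat_lit 5558095)))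
(L (nat_lit 25186640)))))
(S (nat_lit 47793) (S (nat_lit 530) (S (nat_lit 30246) (S (nat_lit 11254) (L (nat_lit 13555011))
(L (nat_lit 7735035)))
(L (nat_lit 10676912)))
(S (nat_lit 20294) (S (nat_lit 48042) (L (nat_lit 30716480))
(L (nat_lit 17098373)))
(S (nat_lit 40058) (S (nat_lit 25164) (S (nat_lit 4398) (S (nat_lit 27308) (L (nat_lit 4928857))
(L (nat_lit 15365441)))
(L (nat_lit 26456769)))
(L (nat_lit 22421594)))
(L (nat_lit 25822731)))))
(L (nat_lit 25891305)))))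
(S (nat_lit 31735) (S (nat_lit 543) (S (nat_lit 8584) (S (nat_lit 8994) (S (nat_lit 15377) (S (nat_lit 47843) (L (nat_lit 4083022))
(L (nat_lit 27761315)))
(L (nat_lit 8022125)))
(L (nat_lit 23207790)))
(S (nat_lit 28348) (S (nat_lit 27584) (S (nat_lit 20800) (L (nat_lit 29003302))
(L (nat_lit 745894)))
(L (nat_lit 4800359)))
(S (nat_lit 48112) (S (nat_lit 48314) (S (nat_lit 11254) (L (nat_lit 1504594))
(L (nat_lit 7230637)))
(L (nat_lit 22307853)))
(L (nat_lit 25870407)))))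
(S (nat_lit 20307) (S (nat_lit 14648) (S (nat_lit 8786) (S (nat_lit 15377) (S (nat_lit 25164) (L (nat_lit 22329189))
(L (nat_lit 14395484)))
(L (nat_lit 17370987)))
(L (nat_lit 1370829)))
(S (nat_lit 34412) (S (nat_lit 52896) (S (nat_lit 24445) (S (nat_lit 15585) (S (nat_lit 27106) (L (nat_lit 13407570))
(L (nat_lit 15046519)))
(L (nat_lit 22200664)))
(L (nat_lit 10163709)))
(L (nat_lit 1832422)))
(S (nat_lit 54176) (S (nat_lit 7290) (S (nat_lit 8584) (S (nat_lit 25153) (L (nat_lit 24680536))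
(L (nat_lit 21764205)))
(L (nat_lit 13896594)))
(S (nat_lit 31366) (L (nat_lit 8582797))
(L (nat_lit 21016920))))
(L (nat_lit 25725170)))))
(S (nat_lit 40071) (S (nat_lit 33182) (S (nat_lit 15585) (S (nat_lit 46355) (S (nat_lit 6596) (L (nat_lit 22327449))
(L (nat_lit 897706)))
(L (nat_lit 17436458)))
(L (nat_lit 22198616)))
(L (nat_lit 9178768)))
(L (nat_lit 25546181)))))
(S (nat_lit 51499) (S (nat_lit 13418) (S (nat_lit 6589) (S (nat_lit 7833) (L (nat_lit 12903477))
(S (nat_lit 53103) (L (nat_lit 14834011))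
(L (nat_lit 26530275))))
(S (nat_lit 26353) (S (nat_lit 52688) (S (nat_lit 47137) (S (nat_lit 19816) (L (nat_lit 29672128))
(L (nat_lit 14998371)))
(L (nat_lit 27575319)))
(L (nat_lit 27580432)))
(S (nat_lit 46117) (S (nat_lit 19816) (S (nat_lit 24942) (L (nat_lit 14868850))
(L (nat_lit 2418098)))
(L (nat_lit 30709454)))
(L (nat_lit 25483683)))))
(S (nat_lit 33182) (S (nat_lit 26360) (S (nat_lit 35349) (S (nat_lit 50239) (S (nat_lit 20800) (S (nat_lit 20294) (L (nat_lit 17034851))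
(L (nat_lit 21238640)))
(L (nat_lit 14995549)))
(L (nat_lit 316889)))
(L (nat_lit 31144258)))
(L (nat_lit 24609113)))
(S (nat_lit 52946) (S (nat_lit 33451) (S (nat_lit 35349) (S (nat_lit 6596) (S (nat_lit 56574) (S (nat_lit 30475) (S (nat_lit 15085) (L (nat_lit 16903510))
(L (nat_lit 24428667)))
(L (nat_lit 24437873)))
(L (nat_lit 1399664)))
(L (nat_lit 1956176)))
(L (nat_lit 9857602)))
(L (nat_lit 15335768)))
(L (nat_lit 25904449)))))
(L (nat_lit 25400976)))))
(S (nat_lit 50515) (S (nat_lit 11688) (S (nat_lit 7833) (S (nat_lit 11478) (S (nat_lit 13180) (S (nat_lit 7609) (L (nat_lit 12464212))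
(L (nat_lit 23367502)))
(L (nat_lit 24649539)))
(L (nat_lit 23531367)))
(S (nat_lit 27597) (S (nat_lit 7116) (S (nat_lit 52946) (L (nat_lit 19708259))
(L (nat_lit 21489987)))
(S (nat_lit 26880) (S (nat_lit 33381) (S (nat_lit 26862) (S (nat_lit 31018) (L (nat_lit 28773993))
(L (nat_lit 30758061)))
(L (nat_lit 30998893)))
(L (nat_lit 1265484)))
(S (nat_lit 46644) (S (nat_lit 30699) (S (nat_lit 54176) (L (nat_lit 24391866))
(L (nat_lit 4995412)))
(L (nat_lit 9466422)))
(L (nat_lit 25869669)))))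
(S (nat_lit 47361) (S (nat_lit 28079) (S (nat_lit 46355) (S (nat_lit 46391) (S (nat_lit 26880) (S (nat_lit 31018) (S (nat_lit 11478) (S (nat_lit 30475) (L (nat_lit 13539048))
(L (nat_lit 11030337)))
(L (nat_lit 8273475)))
(L (nat_lit 17606679)))
(L (nat_lit 8470140)))
(L (nat_lit 12399329)))
(L (nat_lit 20123440)))
(L (nat_lit 19664080)))
(L (nat_lit 25867459)))))
(S (nat_lit 31452) (S (nat_lit 17300) (S (nat_lit 8786) (S (nat_lit 10711) (S (nat_lit 6863) (L (nat_lit 23958861))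
(L (nat_lit 21076444)))
(L (nat_lit 26883428)))
(S (nat_lit 28550) (S (nat_lit 5389) (S (nat_lit 56375) (S (nat_lit 52) (S (nat_lit 13368) (L (nat_lit 1941101))
(L (nat_lit 26432525)))
(L (nat_lit 14506338)))
(L (nat_lit 7164388)))
(L (nat_lit 18901232)))
(S (nat_lit 48314) (S (nat_lit 35349) (S (nat_lit 34412) (L (nat_lit 22840774))
(L (nat_lit 16322312)))
(L (nat_lit 23490914)))
(L (nat_lit 25931972)))))
(S (nat_lit 37064) (S (nat_lit 52) (S (nat_lit 26880) (S (nat_lit 52946) (S (nat_lit 26862) (S (nat_lit 44917) (L (nat_lit 26224182))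
(L (nat_lit 1262300)))
(L (nat_lit 5155436)))
(L (nat_lit 21441347)))
(L (nat_lit 1882726)))
(S (nat_lit 19816) (S (nat_lit 26880) (S (nat_lit 28550) (S (nat_lit 31018) (S (nat_lit 15085) (S (nat_lit 52991) (L (nat_lit 27545773))
(L (nat_lit 30526832)))
(L (nat_lit 26526433)))
(L (nat_lit 30756013)))
(L (nat_lit 19172825)))
(L (nat_lit 18889084)))
(S (nat_lit 39580) (S (nat_lit 20517) (S (nat_lit 15085) (S (nat_lit 8994) (S (nat_lit 50463) (S (nat_lit 46870) (L (nat_lit 21891375))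
(L (nat_lit 5033199)))
(L (nat_lit 27918575)))
(L (nat_lit 17603604)))
(L (nat_lit 12356271)))
(L (nat_lit 30857384)))
(L (nat_lit 25451011)))))
(S (nat_lit 56828) (S (nat_lit 13617) (S (nat_lit 26880) (S (nat_lit 50239) (L (nat_lit 14572899))
(L (nat_lit 14518583)))
(L (nat_lit 30483117)))
(S (nat_lit 33381) (S (nat_lit 1247) (S (nat_lit 29007) (S (nat_lit 26880) (L (nat_lit 9276821))
(L (nat_lit 8413869)))
(L (nat_lit 1913078)))
(L (nat_lit 20787241)))
(S (nat_lit 53145) (S (nat_lit 26862) (S (nat_lit 5638) (S (nat_lit 48112) (L (nat_lit 29399572))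
(L (nat_lit 6313807)))
(L (nat_lit 8450733)))
(L (nat_lit 31164749)))
(L (nat_lit 25858252)))))
(L (nat_lit 25508980)))))
(S (nat_lit 51216) (S (nat_lit 1036) (S (nat_lit 9243) (S (nat_lit 13160) (S (nat_lit 19764) (L (nat_lit 2422167))
(L (nat_lit 15539808)))
(L (nat_lit 12848948)))
(S (nat_lit 29007) (S (nat_lit 37021) (S (nat_lit 5120) (S (nat_lit 7833) (L (nat_lit 26905937))
(L (nat_lit 26447350)))
(L (nat_lit 1855879)))
(L (nat_lit 8279425)))
(S (nat_lit 48771) (S (nat_lit 8077) (S (nat_lit 26862) (S (nat_lit 44928) (S (nat_lit 11478) (S (nat_lit 31018) (L (nat_lit 14601440))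
(L (nat_lit 25013421)))
(L (nat_lit 21389603)))
(L (nat_lit 7393135)))
(L (nat_lit 4975981)))
(L (nat_lit 23617763)))
(L (nat_lit 25414149)))))
(S (nat_lit 20800) (S (nat_lit 8584) (S (nat_lit 20018) (S (nat_lit 46870) (L (nat_lit 14767914))
(L (nat_lit 9560686)))
(L (nat_lit 9860705)))
(S (nat_lit 28348) (S (nat_lit 19764) (S (nat_lit 11478) (S (nat_lit 33132) (L (nat_lit 21834925))
(L (nat_lit 31169549)))
(L (nat_lit 20997391)))
(L (nat_lit 30449261)))
(S (nat_lit 48112) (S (nat_lit 44928) (S (nat_lit 20018) (L (nat_lit 7165073))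
(L (nat_lit 30620259)))
(L (nat_lit 7390845)))
(L (nat_lit 25379858)))))
(S (nat_lit 40564) (S (nat_lit 5591) (S (nat_lit 9890) (L (nat_lit 2924141))
(S (nat_lit 26880) (S (nat_lit 6829) (S (nat_lit 14648) (S (nat_lit 26862) (L (nat_lit 29807755))
(L (nat_lit 15651846)))
(L (nat_lit 12783228)))
(L (nat_lit 13412960)))
(L (nat_lit 30741101))))
(S (nat_lit 25355) (S (nat_lit 19764) (L (nat_lit 16592483))
(L (nat_lit 3369580)))
(S (nat_lit 45119) (S (nat_lit 26593) (S (nat_lit 10482) (L (nat_lit 29511112))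
(L (nat_lit 15534356)))
(L (nat_lit 15404841)))
(L (nat_lit 25512418)))))
(L (nat_lit 25279078)))))
(L (nat_lit 25730230)))))
(L (nat_lit 25253320)))))
(S (nat_lit 28808) (S (nat_lit 13687) (S (nat_lit 7116) (S (nat_lit 11971) (S (nat_lit 8514) (S (nat_lit 13617) (S (nat_lit 8786) (S (nat_lit 10987) (L (nat_lit 614920))
(L (nat_lit 26482285)))
(L (nat_lit 6875781)))
(L (nat_lit 24297255)))
(S (nat_lit 28278) (S (nat_lit 45119) (S (nat_lit 6822) (L (nat_lit 21149016))
(L (nat_lit 7079629)))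
(L (nat_lit 968023)))
(S (nat_lit 48042) (S (nat_lit 54613) (S (nat_lit 47793) (L (nat_lit 26333549))
(L (nat_lit 22097403)))
(L (nat_lit 21293473)))
(L (nat_lit 25540788)))))
(S (nat_lit 31735) (S (nat_lit 14856) (S (nat_lit 10930) (L (nat_lit 14020164))
(S (nat_lit 40058) (S (nat_lit 37064) (S (nat_lit 27106) (S (nat_lit 5591) (L (nat_lit 30608786))
(L (nat_lit 26328406)))
(L (nat_lit 2696760)))
(L (nat_lit 8311298)))
(L (nat_lit 703834))))
(S (nat_lit 34620) (S (nat_lit 40281) (S (nat_lit 35349) (S (nat_lit 56828) (L (nat_lit 6347629))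
(L (nat_lit 352941)))
(L (nat_lit 324087)))
(L (nat_lit 7367218)))
(S (nat_lit 54384) (S (nat_lit 27054) (S (nat_lit 6822) (S (nat_lit 5389) (S (nat_lit 7112) (L (nat_lit 30030112))
(L (nat_lit 7210421)))
(L (nat_lit 9289781)))
(L (nat_lit 7097421)))
(S (nat_lit 48733) (L (nat_lit 6311449))
(L (nat_lit 25048385))))
(L (nat_lit 25506434)))))
(S (nat_lit 51499) (S (nat_lit 50782) (S (nat_lit 35349) (S (nat_lit 54613) (L (nat_lit 8043360))
(L (nat_lit 21404516)))
(L (nat_lit 12609911)))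
(L (nat_lit 1847575)))
(L (nat_lit 25288016)))))
(S (nat_lit 26880) (S (nat_lit 10987) (S (nat_lit 11254) (S (nat_lit 40058) (S (nat_lit 19764) (L (nat_lit 10055043))
(L (nat_lit 9489850)))
(L (nat_lit 24380954)))
(S (nat_lit 31018) (S (nat_lit 52896) (L (nat_lit 30772848))
(L (nat_lit 2006637)))
(S (nat_lit 50782) (S (nat_lit 32944) (S (nat_lit 47361) (L (nat_lit 13659508))
(L (nat_lit 27798083)))
(S (nat_lit 39288) (L (nat_lit 14505033))
(L (nat_lit 8972899))))
(L (nat_lit 25626345)))))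
(S (nat_lit 30751) (S (nat_lit 14856) (S (nat_lit 44928) (S (nat_lit 26862) (S (nat_lit 26878) (S (nat_lit 56574) (S (nat_lit 15585) (L (nat_lit 13347744))
(L (nat_lit 26773877)))
(L (nat_lit 13654953)))
(L (nat_lit 24133545)))
(L (nat_lit 5161639)))
(L (nat_lit 12635483)))
(S (nat_lit 34620) (S (nat_lit 47137) (S (nat_lit 36611) (S (nat_lit 44928) (S (nat_lit 52708) (L (nat_lit 23598984))
(L (nat_lit 27827286)))
(L (nat_lit 14914418)))
(L (nat_lit 7770932)))
(L (nat_lit 8127959)))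
(S (nat_lit 54384) (S (nat_lit 26862) (S (nat_lit 40058) (S (nat_lit 27821) (S (nat_lit 44928) (S (nat_lit 5178) (L (nat_lit 10170461))
(L (nat_lit 1356440)))
(L (nat_lit 1919311)))
(L (nat_lit 15272313)))
(S (nat_lit 53744) (L (nat_lit 12769065))
(L (nat_lit 24613242))))
(L (nat_lit 19671555)))
(L (nat_lit 25678889)))))
(S (nat_lit 50515) (S (nat_lit 9313) (S (nat_lit 33182) (S (nat_lit 47793) (L (nat_lit 17434969))
(L (nat_lit 7189526)))
(L (nat_lit 14706002)))
(S (nat_lit 29077) (S (nat_lit 27054) (S (nat_lit 28550) (L (nat_lit 23081210))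
(L (nat_lit 24415705)))
(L (nat_lit 30429516)))
(S (nat_lit 48841) (S (nat_lit 11465) (S (nat_lit 254) (L (nat_lit 8515184))
(L (nat_lit 13200459)))
(L (nat_lit 16581971)))
(L (nat_lit 25541650)))))
(L (nat_lit 25465303)))))
(S (nat_lit 46644) (S (nat_lit 6863) (S (nat_lit 8994) (S (nat_lit 9313) (S (nat_lit 13368) (S (nat_lit 33182) (S (nat_lit 45568) (L (nat_lit 6375191))
(L (nat_lit 13658727)))
(L (nat_lit 30429521)))
(L (nat_lit 14322503)))
(L (nat_lit 6307451)))
(S (nat_lit 28758) (S (nat_lit 54613) (S (nat_lit 6829) (S (nat_lit 25355) (L (nat_lit 12281967))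
(L (nat_lit 30583350)))
(L (nat_lit 8089647)))
(L (nat_lit 6738044)))
(S (nat_lit 48522) (S (nat_lit 56375) (S (nat_lit 54905) (S (nat_lit 56785) (L (nat_lit 19308600))
(L (nat_lit 27443542)))
(L (nat_lit 27711563)))
(S (nat_lit 58481) (L (nat_lit 26331686))
(L (nat_lit 13802074))))
(L (nat_lit 25647394)))))
(S (nat_lit 26627) (S (nat_lit 7290) (S (nat_lit 48841) (S (nat_lit 39580) (L (nat_lit 11036758))
(L (nat_lit 12195385)))
(L (nat_lit 22030777)))
(S (nat_lit 27054) (S (nat_lit 10482) (S (nat_lit 7098) (S (nat_lit 31735) (S (nat_lit 43926) (L (nat_lit 8085517))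
(L (nat_lit 24033601)))
(L (nat_lit 24600901)))
(L (nat_lit 14483796)))
(L (nat_lit 26235305)))
(S (nat_lit 46818) (S (nat_lit 31018) (S (nat_lit 28550) (L (nat_lit 24446861))
(L (nat_lit 19275803)))
(L (nat_lit 31032621)))
(L (nat_lit 25593546)))))
(S (nat_lit 46391) (S (nat_lit 11465) (S (nat_lit 44264) (L (nat_lit 8088684))
(S (nat_lit 46124) (S (nat_lit 43926) (S (nat_lit 46357) (S (nat_lit 530) (L (nat_lit 6478361))
(L (nat_lit 19374109)))
(L (nat_lit 12436069)))
(L (nat_lit 27867457)))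
(L (nat_lit 5551738))))
(S (nat_lit 31229) (S (nat_lit 35349) (L (nat_lit 545145))
(L (nat_lit 10226167)))
(S (nat_lit 50993) (S (nat_lit 10482) (S (nat_lit 20800) (L (nat_lit 22318586))
(L (nat_lit 549205)))
(L (nat_lit 11551417)))
(L (nat_lit 25429676)))))
(L (nat_lit 25801739)))))
(L (nat_lit 25549836)))))
(S (nat_lit 33451) (S (nat_lit 8584) (S (nat_lit 7820) (S (nat_lit 46548) (L (nat_lit 1632594))
(S (nat_lit 51499) (S (nat_lit 5120) (S (nat_lit 20294) (S (nat_lit 56574) (L (nat_lit 21803333))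
(L (nat_lit 3723115)))
(L (nat_lit 21020523)))
(L (nat_lit 1855879)))
(L (nat_lit 1743789))))
(S (nat_lit 27584) (S (nat_lit 52) (S (nat_lit 10987) (L (nat_lit 957037))
(L (nat_lit 26524258)))
(S (nat_lit 19816) (S (nat_lit 14555) (L (nat_lit 30424681))
(S (nat_lit 24162) (S (nat_lit 4892) (L (nat_lit 1265181))
(L (nat_lit 6950766)))
(L (nat_lit 10032945))))
(S (nat_lit 39580) (S (nat_lit 44706) (S (nat_lit 33182) (L (nat_lit 3982674))
(L (nat_lit 14994211)))
(L (nat_lit 4611880)))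
(L (nat_lit 25668290)))))
(S (nat_lit 47348) (S (nat_lit 5591) (S (nat_lit 56785) (S (nat_lit 54176) (S (nat_lit 20294) (S (nat_lit 17071) (L (nat_lit 12837910))
(L (nat_lit 15294567)))
(L (nat_lit 9354262)))
(L (nat_lit 19729744)))
(L (nat_lit 13807414)))
(S (nat_lit 25355) (S (nat_lit 50406) (L (nat_lit 15337819))
(S (nat_lit 51216) (S (nat_lit 7544) (S (nat_lit 52) (S (nat_lit 46355) (L (nat_lit 5523161))
(L (nat_lit 2009680)))
(L (nat_lit 26304041)))
(L (nat_lit 23161223)))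
(L (nat_lit 10326639))))
(S (nat_lit 45119) (S (nat_lit 50239) (S (nat_lit 54613) (S (nat_lit 4892) (S (nat_lit 7544) (L (nat_lit 2632281))
(L (nat_lit 13408341)))
(L (nat_lit 6950766)))
(L (nat_lit 379759)))
(L (nat_lit 481130)))
(L (nat_lit 25742658)))))
(L (nat_lit 25530931)))))
(S (nat_lit 28348) (S (nat_lit 530) (S (nat_lit 17675) (L (nat_lit 15756661))
(S (nat_lit 55113) (S (nat_lit 50010) (S (nat_lit 5120) (L (nat_lit 30804585))
(L (nat_lit 9177806)))
(L (nat_lit 16346306)))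
(L (nat_lit 10514062))))
(S (nat_lit 20294) (S (nat_lit 16847) (S (nat_lit 27584) (S (nat_lit 14648) (S (nat_lit 31452) (S (nat_lit 39782) (S (nat_lit 47072) (S (nat_lit 31946) (L (nat_lit 13781210))
(L (nat_lit 24548729)))
(L (nat_lit 9869173)))
(L (nat_lit 24549227)))
(L (nat_lit 24394529)))
(L (nat_lit 585320)))
(L (nat_lit 15276896)))
(S (nat_lit 36611) (S (nat_lit 8786) (S (nat_lit 55113) (S (nat_lit 27584) (S (nat_lit 51499) (S (nat_lit 7833) (L (nat_lit 3777051))
(L (nat_lit 13706100)))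
(L (nat_lit 1765712)))
(L (nat_lit 1818407)))
(L (nat_lit 1469783)))
(L (nat_lit 21261327)))
(S (nat_lit 56375) (S (nat_lit 24162) (S (nat_lit 31452) (S (nat_lit 51499) (S (nat_lit 8077) (S (nat_lit 50782) (L (nat_lit 28423509))
(L (nat_lit 1846807)))
(L (nat_lit 23290959)))
(L (nat_lit 9836249)))
(L (nat_lit 24132392)))
(L (nat_lit 21540705)))
(L (nat_lit 25338354)))))
(S (nat_lit 40058) (S (nat_lit 8646) (L (nat_lit 25011278))
(S (nat_lit 28550) (S (nat_lit 55113) (L (nat_lit 1364849))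
(L (nat_lit 1699150)))
(L (nat_lit 24404485))))
(L (nat_lit 25443040)))))
(S (nat_lit 48112) (S (nat_lit 0) (S (nat_lit 17071) (S (nat_lit 11688) (S (nat_lit 26591) (L (nat_lit 9955936))
(L (nat_lit 15347459)))
(S (nat_lit 36616) (L (nat_lit 26238379))
(L (nat_lit 8403576))))
(S (nat_lit 36835) (S (nat_lit 35349) (S (nat_lit 54613) (S (nat_lit 10711) (L (nat_lit 30093601))
(L (nat_lit 21793132)))
(L (nat_lit 17075062)))
(L (nat_lit 8405879)))
(S (nat_lit 56599) (S (nat_lit 11688) (S (nat_lit 20294) (S (nat_lit 46373) (S (nat_lit 52896) (S (nat_lit 15814) (L (nat_lit 29776968))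
(L (nat_lit 26691689)))
(L (nat_lit 19270439)))
(L (nat_lit 22036267)))
(L (nat_lit 15770329)))
(L (nat_lit 1880746)))
(L (nat_lit 25273779)))))
(S (nat_lit 19764) (S (nat_lit 7820) (S (nat_lit 37170) (L (nat_lit 13919347))
(S (nat_lit 50010) (S (nat_lit 8265) (S (nat_lit 46818) (L (nat_lit 9848888))
(L (nat_lit 10104861)))
(L (nat_lit 10160972)))
(L (nat_lit 6319790))))
(S (nat_lit 27584) (S (nat_lit 15585) (S (nat_lit 5120) (L (nat_lit 15928215))
(L (nat_lit 19663150)))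
(L (nat_lit 14705287)))
(S (nat_lit 47348) (S (nat_lit 28758) (S (nat_lit 5178) (S (nat_lit 50010) (L (nat_lit 6317676))
(L (nat_lit 13659819)))
(L (nat_lit 19343169)))
(L (nat_lit 19097614)))
(L (nat_lit 25312563)))))
(S (nat_lit 39528) (S (nat_lit 7098) (S (nat_lit 17046) (S (nat_lit 20517) (L (nat_lit 15584609))
(L (nat_lit 21405536)))
(L (nat_lit 24130345)))
(S (nat_lit 26862) (S (nat_lit 35349) (S (nat_lit 34412) (L (nat_lit 15280188))
(L (nat_lit 30988390)))
(L (nat_lit 19938151)))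
(S (nat_lit 46626) (S (nat_lit 20294) (S (nat_lit 8057) (S (nat_lit 17257) (L (nat_lit 15463531))
(L (nat_lit 17608292)))
(L (nat_lit 12938259)))
(L (nat_lit 9068560)))
(L (nat_lit 25636515)))))
(L (nat_lit 25179718)))))
(L (nat_lit 25797156)))))
(S (nat_lit 53215) (S (nat_lit 7544) (S (nat_lit 10987) (S (nat_lit 8786) (S (nat_lit 14648) (S (nat_lit 30246) (S (nat_lit 6822) (L (nat_lit 10109729))
(L (nat_lit 23505700)))
(L (nat_lit 801387)))
(L (nat_lit 1632872)))
(L (nat_lit 14772875)))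
(S (nat_lit 30751) (S (nat_lit 14575) (S (nat_lit 45267) (L (nat_lit 19052923))
(L (nat_lit 20719759)))
(S (nat_lit 55113) (S (nat_lit 530) (S (nat_lit 44209) (S (nat_lit 14648) (S (nat_lit 50239) (L (nat_lit 2014551))
(L (nat_lit 27577452)))
(L (nat_lit 1654108)))
(L (nat_lit 1856749)))
(L (nat_lit 19760464)))
(L (nat_lit 20979534))))
(S (nat_lit 50515) (S (nat_lit 5400) (S (nat_lit 5120) (S (nat_lit 28570) (S (nat_lit 52708) (S (nat_lit 4398) (S (nat_lit 20800) (S (nat_lit 30246) (S (nat_lit 46355) (S (nat_lit 54613) (L (nat_lit 7013884))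
(L (nat_lit 18207585)))
(L (nat_lit 18550074)))
(L (nat_lit 354928)))
(L (nat_lit 310877)))
(L (nat_lit 20719759)))
(L (nat_lit 27793494)))
(L (nat_lit 9209239)))
(L (nat_lit 19697033)))
(S (nat_lit 53107) (L (nat_lit 26400080))
(L (nat_lit 4940111))))
(L (nat_lit 25695849)))))
(S (nat_lit 27308) (S (nat_lit 10987) (S (nat_lit 9243) (S (nat_lit 35578) (S (nat_lit 25153) (S (nat_lit 40775) (L (nat_lit 733533))
(L (nat_lit 477400)))
(L (nat_lit 667504)))
(L (nat_lit 13453417)))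
(S (nat_lit 29007) (S (nat_lit 5389) (S (nat_lit 25402) (S (nat_lit 5591) (L (nat_lit 224820))
(L (nat_lit 18648681)))
(L (nat_lit 2006701)))
(S (nat_lit 48447) (L (nat_lit 8075075))
(L (nat_lit 9049563))))
(S (nat_lit 48771) (S (nat_lit 28079) (S (nat_lit 26593) (S (nat_lit 26353) (S (nat_lit 39847) (S (nat_lit 753) (S (nat_lit 56683) (L (nat_lit 4796209))
(L (nat_lit 24331388)))
(L (nat_lit 20726920)))
(L (nat_lit 1853064)))
(L (nat_lit 31011011)))
(L (nat_lit 30624878)))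
(L (nat_lit 24921190)))
(L (nat_lit 25386160)))))
(S (nat_lit 30751) (S (nat_lit 5120) (S (nat_lit 53145) (S (nat_lit 20018) (S (nat_lit 4398) (S (nat_lit 35349) (L (nat_lit 6308662))
(L (nat_lit 8576880)))
(L (nat_lit 16323929)))
(L (nat_lit 30823619)))
(L (nat_lit 19829127)))
(S (nat_lit 24884) (S (nat_lit 55113) (S (nat_lit 10482) (L (nat_lit 14379329))
(L (nat_lit 26235150)))
(L (nat_lit 20999534)))
(S (nat_lit 44648) (S (nat_lit 48112) (L (nat_lit 14942840))
(L (nat_lit 16799559)))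
(L (nat_lit 25664229)))))
(S (nat_lit 50515) (S (nat_lit 28550) (S (nat_lit 20018) (S (nat_lit 5178) (S (nat_lit 35349) (S (nat_lit 53145) (S (nat_lit 48112) (L (nat_lit 29643266))
(L (nat_lit 713255)))
(L (nat_lit 19293379)))
(L (nat_lit 5978458)))
(L (nat_lit 19183705)))
(L (nat_lit 16318681)))
(L (nat_lit 24195289)))
(L (nat_lit 25709890)))))
(S (nat_lit 47072) (S (nat_lit 7098) (S (nat_lit 27841) (S (nat_lit 28348) (S (nat_lit 30038) (S (nat_lit 50515) (L (nat_lit 14969939))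
(L (nat_lit 6180176)))
(L (nat_lit 19776837)))
(L (nat_lit 19154008)))
(L (nat_lit 24936783)))
(S (nat_lit 26862) (S (nat_lit 8786) (S (nat_lit 7290) (S (nat_lit 8057) (L (nat_lit 15347489))
(L (nat_lit 23554054)))
(S (nat_lit 49203) (L (nat_lit 598896))
(L (nat_lit 419156))))
(S (nat_lit 28550) (S (nat_lit 54176) (S (nat_lit 20018) (L (nat_lit 14944889))
(L (nat_lit 9523643)))
(L (nat_lit 19728720)))
(S (nat_lit 48314) (S (nat_lit 6596) (S (nat_lit 50993) (S (nat_lit 44209) (L (nat_lit 27384145))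
(L (nat_lit 11265104)))
(L (nat_lit 27574357)))
(S (nat_lit 56043) (L (nat_lit 10932312))
(L (nat_lit 26804560))))
(L (nat_lit 25440901)))))
(S (nat_lit 46626) (S (nat_lit 7342) (S (nat_lit 10987) (S (nat_lit 49802) (L (nat_lit 16520439))
(L (nat_lit 27471955)))
(L (nat_lit 15806075)))
(S (nat_lit 27106) (S (nat_lit 8806) (S (nat_lit 10987) (S (nat_lit 48771) (S (nat_lit 36835) (S (nat_lit 51499) (L (nat_lit 28430889))
(L (nat_lit 10076249)))
(L (nat_lit 289425)))
(L (nat_lit 11232771)))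
(L (nat_lit 863856)))
(L (nat_lit 451890)))
(S (nat_lit 46870) (S (nat_lit 39782) (S (nat_lit 47843) (S (nat_lit 43926) (L (nat_lit 28388882))
(L (nat_lit 12184001)))
(L (nat_lit 20113958)))
(L (nat_lit 23471969)))
(L (nat_lit 25546274)))))
(L (nat_lit 25767459)))))
(L (nat_lit 25592085)))))
(L (nat_lit 25545249)))))
(S (nat_lit 48572) (S (nat_lit 10274) (S (nat_lit 12182) (S (nat_lit 254) (S (nat_lit 5178) (S (nat_lit 56574) (S (nat_lit 34849) (S (nat_lit 319) (S (nat_lit 31242) (L (nat_lit 26416812))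
(L (nat_lit 1397274)))
(L (nat_lit 7049038)))
(L (nat_lit 4573014)))
(L (nat_lit 19705929)))
(S (nat_lit 13840) (L (nat_lit 1651933))
(L (nat_lit 940399))))
(S (nat_lit 20018) (S (nat_lit 34849) (S (nat_lit 53215) (S (nat_lit 13180) (S (nat_lit 5178) (S (nat_lit 47137) (L (nat_lit 4417973))
(L (nat_lit 1908303)))
(L (nat_lit 18126675)))
(L (nat_lit 546632)))
(L (nat_lit 21054841)))
(S (nat_lit 56188) (L (nat_lit 7792291))
(L (nat_lit 1502579))))
(S (nat_lit 39782) (S (nat_lit 7609) (L (nat_lit 23924046))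
(S (nat_lit 27373) (S (nat_lit 48522) (S (nat_lit 34849) (S (nat_lit 46355) (L (nat_lit 20876681))
(L (nat_lit 1944021)))
(L (nat_lit 1820024)))
(L (nat_lit 1596295)))
(S (nat_lit 47137) (S (nat_lit 13160) (L (nat_lit 31165806))
(S (nat_lit 13565) (L (nat_lit 26480052))
(L (nat_lit 1550132))))
(L (nat_lit 25709920)))))
(L (nat_lit 25311447)))))
(S (nat_lit 31946) (S (nat_lit 17257) (S (nat_lit 26593) (S (nat_lit 54176) (S (nat_lit 45119) (S (nat_lit 8057) (L (nat_lit 23530748))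
(L (nat_lit 26807718)))
(L (nat_lit 24612186)))
(L (nat_lit 19434842)))
(L (nat_lit 19795279)))
(S (nat_lit 37021) (S (nat_lit 13160) (S (nat_lit 46355) (S (nat_lit 52946) (S (nat_lit 21011) (S (nat_lit 46350) (S (nat_lit 46357) (S (nat_lit 24656) (L (nat_lit 8012888))
(L (nat_lit 17468699)))
(L (nat_lit 20123471)))
(L (nat_lit 11964123)))
(L (nat_lit 12226321)))
(L (nat_lit 21466456)))
(L (nat_lit 20123130)))
(L (nat_lit 13471402)))
(S (nat_lit 56785) (S (nat_lit 13160) (S (nat_lit 46355) (S (nat_lit 13418) (L (nat_lit 6950457))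
(L (nat_lit 14355836)))
(L (nat_lit 20123537)))
(L (nat_lit 24972682)))
(L (nat_lit 25865356)))))
(S (nat_lit 51710) (S (nat_lit 753) (S (nat_lit 825) (L (nat_lit 27757906))
(S (nat_lit 10935) (S (nat_lit 13180) (L (nat_lit 10028536))
(L (nat_lit 6959195)))
(L (nat_lit 21806304))))
(S (nat_lit 20517) (S (nat_lit 52) (S (nat_lit 13180) (S (nat_lit 56574) (L (nat_lit 29370869))
(L (nat_lit 21213275)))
(L (nat_lit 8009539)))
(S (nat_lit 13024) (L (nat_lit 1633990))
(L (nat_lit 1334842))))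
(S (nat_lit 40281) (S (nat_lit 35141) (S (nat_lit 35051) (L (nat_lit 287439))
(L (nat_lit 22472779)))
(L (nat_lit 31007853)))
(L (nat_lit 25599155)))))
(L (nat_lit 25597139)))))
(S (nat_lit 30038) (S (nat_lit 6863) (S (nat_lit 4892) (S (nat_lit 6270) (S (nat_lit 27584) (L (nat_lit 10915699))
(L (nat_lit 1270325)))
(S (nat_lit 35141) (S (nat_lit 12182) (S (nat_lit 46355) (S (nat_lit 32924) (S (nat_lit 27821) (L (nat_lit 9276981))
(L (nat_lit 8305717)))
(L (nat_lit 30686258)))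
(L (nat_lit 27692618)))
(S (nat_lit 33733) (L (nat_lit 18026236))
(L (nat_lit 18190163))))
(L (nat_lit 13476978))))
(S (nat_lit 24656) (S (nat_lit 13687) (S (nat_lit 7132) (L (nat_lit 1448665))
(S (nat_lit 47137) (S (nat_lit 13160) (S (nat_lit 5178) (L (nat_lit 24954053))
(L (nat_lit 1356441)))
(L (nat_lit 14520042)))
(L (nat_lit 1842767))))
(S (nat_lit 33451) (S (nat_lit 31229) (S (nat_lit 51499) (L (nat_lit 12623544))
(L (nat_lit 1848966)))
(L (nat_lit 1493369)))
(S (nat_lit 53215) (S (nat_lit 52946) (S (nat_lit 48334) (S (nat_lit 50782) (L (nat_lit 1401580))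
(L (nat_lit 1846711)))
(L (nat_lit 27958348)))
(L (nat_lit 21433690)))
(L (nat_lit 25832961)))))
(S (nat_lit 44420) (S (nat_lit 31242) (S (nat_lit 27821) (S (nat_lit 56574) (S (nat_lit 5120) (S (nat_lit 27373) (S (nat_lit 26360) (L (nat_lit 14603275))
(L (nat_lit 24190832)))
(L (nat_lit 30936651)))
(L (nat_lit 11046806)))
(L (nat_lit 1679214)))
(L (nat_lit 24616837)))
(S (nat_lit 50450) (L (nat_lit 26480238))
(L (nat_lit 8785498))))
(L (nat_lit 25826827)))))
(S (nat_lit 26627) (S (nat_lit 5120) (S (nat_lit 12182) (S (nat_lit 52688) (S (nat_lit 46355) (S (nat_lit 27373) (S (nat_lit 31242) (S (nat_lit 14856) (L (nat_lit 28390742))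
(L (nat_lit 10301557)))
(L (nat_lit 9015057)))
(L (nat_lit 19402104)))
(L (nat_lit 17983795)))
(L (nat_lit 19369835)))
(S (nat_lit 31946) (S (nat_lit 8057) (S (nat_lit 52708) (S (nat_lit 11189) (S (nat_lit 24656) (L (nat_lit 26906150))
(L (nat_lit 1854764)))
(L (nat_lit 2616011)))
(L (nat_lit 19247193)))
(S (nat_lit 47432) (L (nat_lit 1973781))
(L (nat_lit 1829254))))
(S (nat_lit 51710) (S (nat_lit 31242) (S (nat_lit 26862) (S (nat_lit 10935) (L (nat_lit 28365194))
(L (nat_lit 840231)))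
(L (nat_lit 24161133)))
(S (nat_lit 38469) (L (nat_lit 15504039))
(L (nat_lit 24125199))))
(L (nat_lit 25759084)))))
(S (nat_lit 24884) (S (nat_lit 5178) (S (nat_lit 56574) (S (nat_lit 52708) (S (nat_lit 34849) (S (nat_lit 27597) (L (nat_lit 29857078))
(L (nat_lit 7114477)))
(L (nat_lit 10906742)))
(L (nat_lit 27925583)))
(L (nat_lit 9220183)))
(S (nat_lit 24942) (S (nat_lit 44917) (S (nat_lit 20517) (L (nat_lit 12136539))
(L (nat_lit 31006241)))
(L (nat_lit 24287641)))
(S (nat_lit 44706) (S (nat_lit 55342) (S (nat_lit 50782) (L (nat_lit 767323))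
(L (nat_lit 3500466)))
(L (nat_lit 11266561)))
(L (nat_lit 25304751)))))
(S (nat_lit 44648) (S (nat_lit 7114) (S (nat_lit 12182) (S (nat_lit 44706) (L (nat_lit 6074708))
(L (nat_lit 12773746)))
(L (nat_lit 16322375)))
(S (nat_lit 26878) (S (nat_lit 17257) (S (nat_lit 45119) (S (nat_lit 26591) (L (nat_lit 16453448))
(L (nat_lit 15600947)))
(L (nat_lit 15273304)))
(S (nat_lit 34333) (L (nat_lit 566198))
(L (nat_lit 24940074))))
(S (nat_lit 46642) (S (nat_lit 31452) (S (nat_lit 52) (S (nat_lit 17257) (L (nat_lit 10130191))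
(L (nat_lit 17600202)))
(L (nat_lit 902889)))
(L (nat_lit 24127343)))
(L (nat_lit 25792969)))))
(L (nat_lit 25757932)))))
(S (nat_lit 46391) (S (nat_lit 14856) (S (nat_lit 9243) (S (nat_lit 5178) (S (nat_lit 48314) (S (nat_lit 27054) (S (nat_lit 34849) (L (nat_lit 29761187))
(L (nat_lit 16419192)))
(L (nat_lit 24163674)))
(L (nat_lit 22416234)))
(L (nat_lit 19116120)))
(S (nat_lit 29007) (S (nat_lit 24162) (S (nat_lit 52896) (L (nat_lit 30486836))
(L (nat_lit 2011750)))
(L (nat_lit 22884672)))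
(S (nat_lit 48771) (L (nat_lit 26429549))
(L (nat_lit 25338324)))))
(S (nat_lit 34620) (S (nat_lit 56574) (S (nat_lit 40775) (S (nat_lit 6596) (S (nat_lit 28550) (S (nat_lit 6589) (S (nat_lit 25402) (L (nat_lit 24685316))
(L (nat_lit 1502581)))
(L (nat_lit 1528058)))
(L (nat_lit 3453845)))
(L (nat_lit 21836132)))
(L (nat_lit 9483063)))
(L (nat_lit 1683837)))
(S (nat_lit 54384) (S (nat_lit 5591) (S (nat_lit 52946) (S (nat_lit 40564) (S (nat_lit 6596) (L (nat_lit 20094520))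
(L (nat_lit 1369776)))
(L (nat_lit 27807814)))
(L (nat_lit 1796618)))
(S (nat_lit 25355) (S (nat_lit 14648) (S (nat_lit 13617) (S (nat_lit 44917) (S (nat_lit 33182) (S (nat_lit 8806) (S (nat_lit 6596) (S (nat_lit 254) (L (nat_lit 14818909))
(L (nat_lit 7968529)))
(L (nat_lit 23928324)))
(L (nat_lit 6480434)))
(L (nat_lit 30593578)))
(L (nat_lit 13522022)))
(L (nat_lit 12807285)))
(L (nat_lit 13503828)))
(S (nat_lit 45119) (S (nat_lit 17257) (S (nat_lit 56574) (S (nat_lit 6596) (L (nat_lit 29825633))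
(L (nat_lit 21831172)))
(L (nat_lit 1984171)))
(L (nat_lit 15502678)))
(L (nat_lit 25349607)))))
(L (nat_lit 25799724)))))
(L (nat_lit 25858321)))))
(S (nat_lit 49802) (S (nat_lit 17300) (S (nat_lit 543) (S (nat_lit 14648) (S (nat_lit 56574) (S (nat_lit 8806) (L (nat_lit 10160975))
(L (nat_lit 26647639)))
(L (nat_lit 14457943)))
(S (nat_lit 34412) (S (nat_lit 5178) (S (nat_lit 32944) (S (nat_lit 26609) (L (nat_lit 30128386))
(L (nat_lit 5857771)))
(L (nat_lit 15342685)))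
(L (nat_lit 19274840)))
(S (nat_lit 54176) (S (nat_lit 25355) (L (nat_lit 27757911))
(L (nat_lit 14487145)))
(L (nat_lit 25712710)))))
(S (nat_lit 20307) (S (nat_lit 32924) (S (nat_lit 51710) (S (nat_lit 45119) (S (nat_lit 48841) (L (nat_lit 3453690))
(L (nat_lit 22809000)))
(L (nat_lit 10063354)))
(L (nat_lit 9965363)))
(L (nat_lit 15994553)))
(S (nat_lit 40071) (S (nat_lit 26670) (L (nat_lit 10644173))
(S (nat_lit 46355) (S (nat_lit 31242) (S (nat_lit 5120) (S (nat_lit 46644) (S (nat_lit 46117) (S (nat_lit 4892) (S (nat_lit 51710) (L (nat_lit 5616253))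
(L (nat_lit 7390808)))
(L (nat_lit 4050220)))
(L (nat_lit 5021327)))
(L (nat_lit 17920679)))
(L (nat_lit 19664265)))
(L (nat_lit 19270938)))
(L (nat_lit 12193242))))
(L (nat_lit 25545187)))))
(S (nat_lit 37064) (S (nat_lit 6822) (S (nat_lit 5400) (S (nat_lit 7116) (L (nat_lit 5691736))
(L (nat_lit 5946712)))
(S (nat_lit 25164) (S (nat_lit 8265) (S (nat_lit 40564) (L (nat_lit 21201775))
(L (nat_lit 28032070)))
(L (nat_lit 23867714)))
(S (nat_lit 44928) (S (nat_lit 26862) (S (nat_lit 54905) (L (nat_lit 23367226))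
(L (nat_lit 27856426)))
(L (nat_lit 15459399)))
(L (nat_lit 25283857)))))
(S (nat_lit 26586) (S (nat_lit 27597) (S (nat_lit 40281) (S (nat_lit 48314) (S (nat_lit 34849) (L (nat_lit 13854371))
(L (nat_lit 1495416)))
(L (nat_lit 16486250)))
(L (nat_lit 4545357)))
(S (nat_lit 52009) (L (nat_lit 11202669))
(L (nat_lit 30494925))))
(S (nat_lit 46350) (S (nat_lit 46357) (S (nat_lit 51710) (S (nat_lit 46355) (S (nat_lit 50782) (S (nat_lit 47585) (L (nat_lit 9309746))
(L (nat_lit 20843942)))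
(L (nat_lit 27889064)))
(L (nat_lit 1953227)))
(L (nat_lit 22842791)))
(L (nat_lit 20146287)))
(L (nat_lit 25560276)))))
(S (nat_lit 56828) (S (nat_lit 6827) (S (nat_lit 25153) (S (nat_lit 25164) (S (nat_lit 8077) (S (nat_lit 32944) (L (nat_lit 29536998))
(L (nat_lit 10268755)))
(L (nat_lit 21149018)))
(L (nat_lit 21367066)))
(S (nat_lit 50320) (L (nat_lit 6372183))
(L (nat_lit 6313837))))
(S (nat_lit 26591) (S (nat_lit 13160) (S (nat_lit 8786) (L (nat_lit 13438571))
(L (nat_lit 26807533)))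
(S (nat_lit 32924) (S (nat_lit 54905) (S (nat_lit 32944) (L (nat_lit 8805400))
(L (nat_lit 23895151)))
(L (nat_lit 14503019)))
(S (nat_lit 52688) (L (nat_lit 16387288))
(L (nat_lit 25679882)))))
(S (nat_lit 46355) (S (nat_lit 5389) (S (nat_lit 5120) (S (nat_lit 25164) (S (nat_lit 32924) (L (nat_lit 862707))
(L (nat_lit 20385610)))
(L (nat_lit 6351439)))
(L (nat_lit 15755574)))
(S (nat_lit 25153) (S (nat_lit 31080) (L (nat_lit 30452303))
(S (nat_lit 31242) (S (nat_lit 254) (S (nat_lit 5120) (S (nat_lit 753) (L (nat_lit 748816))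
(L (nat_lit 12590808)))
(L (nat_lit 19664265)))
(L (nat_lit 6919985)))
(L (nat_lit 1462586))))
(S (nat_lit 44917) (S (nat_lit 31242) (L (nat_lit 6980461))
(S (nat_lit 39198) (L (nat_lit 21194213))
(L (nat_lit 24516666))))
(L (nat_lit 25350534)))))
(L (nat_lit 25593579)))))
(L (nat_lit 25567968)))))
(L (nat_lit 25386093)))))
(L (nat_lit 25185706)))))

theorem rb179_3 : run 4 lb179 [] tb179_3 kb179 (P4 4 2197 2355 2217 5601 0 1 0 0) [] = true := by
  decide +kernel

noncomputable def ta27_1 : Tr :=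
(S (nat_lit 737) (S (nat_lit 1469) (S (nat_lit 2031) (S (nat_lit 1869) (S (nat_lit 4775) (S (nat_lit 4331) (L (nat_lit 234034))
(L (nat_lit 43507)))
(L (nat_lit 53737)))
(L (nat_lit 183601)))
(S (nat_lit 4245) (S (nat_lit 1143) (S (nat_lit 6297) (S (nat_lit 1396) (S (nat_lit 1072) (L (nat_lit 43476))
(L (nat_lit 350289)))
(L (nat_lit 461383)))
(L (nat_lit 23793)))
(S (nat_lit 3357) (S (nat_lit 2561) (S (nat_lit 6221) (L (nat_lit 314544))
(L (nat_lit 242836)))
(L (nat_lit 754896)))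
(S (nat_lit 5571) (S (nat_lit 4428) (L (nat_lit 50826))
(L (nat_lit 656621)))
(L (nat_lit 601541)))))
(S (nat_lit 6459) (S (nat_lit 4107) (L (nat_lit 300439))
(S (nat_lit 6297) (L (nat_lit 247394))
(L (nat_lit 298577))))
(L (nat_lit 601540)))))
(S (nat_lit 3683) (S (nat_lit 1869) (S (nat_lit 5824) (S (nat_lit 0) (S (nat_lit 2031) (S (nat_lit 734) (L (nat_lit 48839))
(L (nat_lit 52527)))
(L (nat_lit 314754)))
(S (nat_lit 387) (S (nat_lit 2110) (L (nat_lit 262706))
(L (nat_lit 118093)))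
(L (nat_lit 39500))))
(L (nat_lit 493875)))
(S (nat_lit 4083) (S (nat_lit 5824) (S (nat_lit 4245) (S (nat_lit 4331) (L (nat_lit 760973))
(L (nat_lit 138958)))
(L (nat_lit 544962)))
(L (nat_lit 199345)))
(S (nat_lit 6297) (S (nat_lit 1786) (S (nat_lit 544) (L (nat_lit 82230))
(S (nat_lit 1072) (L (nat_lit 351247))
(L (nat_lit 263637))))
(S (nat_lit 4000) (S (nat_lit 5813) (S (nat_lit 0) (L (nat_lit 416960))
(L (nat_lit 7757)))
(L (nat_lit 14918)))
(S (nat_lit 6214) (S (nat_lit 2798) (S (nat_lit 2561) (L (nat_lit 118001))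
(L (nat_lit 465939)))
(L (nat_lit 248355)))
(L (nat_lit 594347)))))
(L (nat_lit 605475)))))
(S (nat_lit 5897) (S (nat_lit 584) (S (nat_lit 2110) (S (nat_lit 3610) (S (nat_lit 6545) (S (nat_lit 5169) (L (nat_lit 559445))
(L (nat_lit 380288)))
(L (nat_lit 413024)))
(L (nat_lit 413025)))
(L (nat_lit 379297)))
(S (nat_lit 2798) (S (nat_lit 4331) (S (nat_lit 1811) (S (nat_lit 53) (L (nat_lit 146773))
(L (nat_lit 482660)))
(S (nat_lit 4007) (S (nat_lit 6297) (L (nat_lit 580648))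
(L (nat_lit 253317)))
(L (nat_lit 542793))))
(S (nat_lit 6265) (S (nat_lit 6264) (L (nat_lit 767299))
(L (nat_lit 220709)))
(L (nat_lit 43507))))
(S (nat_lit 5012) (S (nat_lit 3610) (S (nat_lit 1869) (L (nat_lit 18984))
(L (nat_lit 182577)))
(L (nat_lit 46727)))
(L (nat_lit 600611)))))
(L (nat_lit 593132)))))
(S (nat_lit 2951) (S (nat_lit 1385) (S (nat_lit 1469) (S (nat_lit 6538) (S (nat_lit 5012) (S (nat_lit 3357) (L (nat_lit 491860))
(L (nat_lit 575747)))
(L (nat_lit 48404)))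
(L (nat_lit 470163)))
(S (nat_lit 3683) (S (nat_lit 2244) (S (nat_lit 5027) (L (nat_lit 144725))
(L (nat_lit 112232)))
(S (nat_lit 5910) (S (nat_lit 5824) (S (nat_lit 4775) (S (nat_lit 562) (L (nat_lit 761220))
(L (nat_lit 547042)))
(L (nat_lit 544961)))
(L (nat_lit 446634)))
(L (nat_lit 373312))))
(S (nat_lit 5897) (S (nat_lit 1793) (S (nat_lit 2031) (L (nat_lit 360947))
(L (nat_lit 511234)))
(S (nat_lit 4007) (S (nat_lit 6538) (S (nat_lit 1061) (L (nat_lit 140911))
(L (nat_lit 477223)))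
(L (nat_lit 667044)))
(S (nat_lit 6221) (S (nat_lit 3275) (S (nat_lit 3519) (L (nat_lit 543011))
(L (nat_lit 403540)))
(L (nat_lit 178855)))
(L (nat_lit 595276)))))
(L (nat_lit 592108)))))
(S (nat_lit 3599) (S (nat_lit 1143) (S (nat_lit 734) (S (nat_lit 741) (S (nat_lit 0) (L (nat_lit 231152))
(L (nat_lit 197011)))
(L (nat_lit 41363)))
(S (nat_lit 2948) (S (nat_lit 6214) (S (nat_lit 16) (L (nat_lit 318978))
(L (nat_lit 249998)))
(L (nat_lit 414917)))
(S (nat_lit 5162) (S (nat_lit 1837) (S (nat_lit 2230) (L (nat_lit 253007))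
(L (nat_lit 286242)))
(S (nat_lit 2885) (S (nat_lit 2798) (L (nat_lit 394518))
(L (nat_lit 243763)))
(L (nat_lit 41552))))
(L (nat_lit 606500)))))
(S (nat_lit 3357) (S (nat_lit 741) (S (nat_lit 5824) (S (nat_lit 3683) (L (nat_lit 138676))
(L (nat_lit 763428)))
(L (nat_lit 500385)))
(S (nat_lit 2955) (S (nat_lit 4428) (S (nat_lit 2862) (L (nat_lit 144598))
(L (nat_lit 154025)))
(L (nat_lit 143573)))
(S (nat_lit 5169) (S (nat_lit 5906) (S (nat_lit 6538) (L (nat_lit 171443))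
(L (nat_lit 416810)))
(L (nat_lit 144043)))
(L (nat_lit 592142)))))
(S (nat_lit 5571) (S (nat_lit 1786) (S (nat_lit 1537) (L (nat_lit 698480))
(S (nat_lit 5910) (S (nat_lit 2419) (L (nat_lit 770121))
(L (nat_lit 529000)))
(L (nat_lit 342197))))
(S (nat_lit 4000) (S (nat_lit 3696) (L (nat_lit 175509))
(L (nat_lit 766272)))
(S (nat_lit 6214) (S (nat_lit 605) (S (nat_lit 4385) (L (nat_lit 308307))
(L (nat_lit 47786)))
(S (nat_lit 2798) (S (nat_lit 3275) (S (nat_lit 741) (S (nat_lit 379) (L (nat_lit 88488))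
(L (nat_lit 241813)))
(L (nat_lit 242305)))
(L (nat_lit 211061)))
(L (nat_lit 459366))))
(L (nat_lit 594125)))))
(L (nat_lit 596419)))))
(S (nat_lit 5813) (S (nat_lit 16) (S (nat_lit 1793) (S (nat_lit 2798) (S (nat_lit 34) (L (nat_lit 43541))
(S (nat_lit 6494) (L (nat_lit 724206))
(L (nat_lit 701762))))
(L (nat_lit 342627)))
(S (nat_lit 4007) (S (nat_lit 4331) (S (nat_lit 1786) (L (nat_lit 44532))
(L (nat_lit 330165)))
(L (nat_lit 444768)))
(S (nat_lit 6221) (S (nat_lit 1478) (L (nat_lit 199094))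
(L (nat_lit 202350)))
(L (nat_lit 601230)))))
(S (nat_lit 2230) (S (nat_lit 1786) (S (nat_lit 347) (S (nat_lit 1061) (S (nat_lit 6545) (L (nat_lit 172719))
(L (nat_lit 279200)))
(L (nat_lit 149743)))
(L (nat_lit 138928)))
(S (nat_lit 4000) (S (nat_lit 1072) (S (nat_lit 2798) (S (nat_lit 6538) (L (nat_lit 140787))
(L (nat_lit 468580)))
(L (nat_lit 23761)))
(L (nat_lit 460395)))
(S (nat_lit 6214) (S (nat_lit 1072) (S (nat_lit 1911) (L (nat_lit 72211))
(L (nat_lit 690602)))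
(L (nat_lit 278085)))
(L (nat_lit 600576)))))
(S (nat_lit 4444) (S (nat_lit 1143) (S (nat_lit 2117) (S (nat_lit 1469) (L (nat_lit 413705))
(L (nat_lit 500325)))
(L (nat_lit 296558)))
(S (nat_lit 3357) (S (nat_lit 1061) (S (nat_lit 2862) (L (nat_lit 395571))
(L (nat_lit 250277)))
(L (nat_lit 84393)))
(S (nat_lit 5571) (S (nat_lit 1793) (S (nat_lit 1482) (L (nat_lit 497810))
(L (nat_lit 22918)))
(L (nat_lit 77366)))
(L (nat_lit 601264)))))
(L (nat_lit 592206)))))
(L (nat_lit 599522)))))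
(S (nat_lit 5165) (S (nat_lit 1396) (S (nat_lit 2110) (S (nat_lit 3159) (L (nat_lit 149710))
(S (nat_lit 5897) (S (nat_lit 5870) (S (nat_lit 5138) (L (nat_lit 216238))
(L (nat_lit 623083)))
(L (nat_lit 639019)))
(L (nat_lit 466996))))
(S (nat_lit 4324) (S (nat_lit 1469) (S (nat_lit 4245) (S (nat_lit 4083) (L (nat_lit 154830))
(L (nat_lit 431720)))
(L (nat_lit 529003)))
(S (nat_lit 5350) (S (nat_lit 2569) (L (nat_lit 82537))
(L (nat_lit 625131)))
(L (nat_lit 8812))))
(S (nat_lit 6538) (S (nat_lit 1143) (S (nat_lit 2885) (S (nat_lit 1793) (L (nat_lit 120234))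
(L (nat_lit 628876)))
(L (nat_lit 464949)))
(L (nat_lit 111176)))
(L (nat_lit 605412)))))
(S (nat_lit 3610) (S (nat_lit 0) (S (nat_lit 347) (S (nat_lit 5169) (S (nat_lit 1786) (L (nat_lit 394858))
(L (nat_lit 139700)))
(L (nat_lit 143637)))
(S (nat_lit 2561) (S (nat_lit 1305) (S (nat_lit 1385) (L (nat_lit 296528))
(L (nat_lit 379983)))
(L (nat_lit 630212)))
(S (nat_lit 4775) (S (nat_lit 2915) (L (nat_lit 401024))
(S (nat_lit 5099) (S (nat_lit 4245) (L (nat_lit 215212))
(L (nat_lit 330196)))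
(L (nat_lit 531042))))
(L (nat_lit 591216)))))
(S (nat_lit 2214) (S (nat_lit 4007) (S (nat_lit 5571) (S (nat_lit 2948) (L (nat_lit 384111))
(L (nat_lit 759919)))
(L (nat_lit 498403)))
(L (nat_lit 760291)))
(S (nat_lit 4428) (S (nat_lit 2885) (S (nat_lit 4456) (L (nat_lit 297491))
(S (nat_lit 4708) (L (nat_lit 314479))
(L (nat_lit 760224))))
(L (nat_lit 39381)))
(L (nat_lit 597004)))))
(S (nat_lit 5824) (S (nat_lit 1469) (S (nat_lit 2110) (S (nat_lit 1869) (S (nat_lit 3865) (L (nat_lit 400502))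
(L (nat_lit 703748)))
(L (nat_lit 626056)))
(L (nat_lit 510087)))
(S (nat_lit 3683) (S (nat_lit 648) (S (nat_lit 941) (L (nat_lit 364951))
(S (nat_lit 5500) (S (nat_lit 2117) (S (nat_lit 3599) (L (nat_lit 729196))
(L (nat_lit 331373)))
(S (nat_lit 5553) (L (nat_lit 72300))
(L (nat_lit 636072))))
(L (nat_lit 46763))))
(S (nat_lit 2862) (S (nat_lit 1786) (S (nat_lit 2230) (S (nat_lit 5489) (S (nat_lit 3286) (L (nat_lit 209942))
(L (nat_lit 200146)))
(L (nat_lit 659881)))
(L (nat_lit 477506)))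
(L (nat_lit 510304)))
(S (nat_lit 5076) (S (nat_lit 1072) (S (nat_lit 2561) (S (nat_lit 1482) (L (nat_lit 218597))
(L (nat_lit 220335)))
(L (nat_lit 200273)))
(S (nat_lit 4813) (L (nat_lit 515266))
(L (nat_lit 635979))))
(L (nat_lit 595369)))))
(S (nat_lit 5897) (S (nat_lit 2511) (L (nat_lit 148134))
(S (nat_lit 4083) (S (nat_lit 1478) (L (nat_lit 737323))
(L (nat_lit 502372)))
(L (nat_lit 153992))))
(L (nat_lit 606250)))))
(L (nat_lit 603428)))))
(L (nat_lit 606378)))))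

theorem ra27_1 : run 3 la27 [] ta27_1 ka27 (P4 3 1 108 152 108 0 0 1 0) [] = true := by
  decide +kernel

noncomputable def tb246_0 : Tr :=
(S (nat_lit 2008) (S (nat_lit 10960) (S (nat_lit 1279) (A (nat_lit 0))
(S (nat_lit 21043) (A (nat_lit 1))
(A (nat_lit 2))))
(S (nat_lit 30724) (S (nat_lit 15356) (A (nat_lit 3))
(S (nat_lit 35120) (A (nat_lit 4))
(A (nat_lit 5))))
(S (nat_lit 50488) (S (nat_lit 8790) (A (nat_lit 6))
(S (nat_lit 28554) (A (nat_lit 7))
(A (nat_lit 8))))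
(L (nat_lit 25384080)))))
(S (nat_lit 21772) (S (nat_lit 31) (S (nat_lit 17538) (A (nat_lit 9))
(S (nat_lit 37302) (A (nat_lit 10))
(A (nat_lit 11))))
(S (nat_lit 19795) (S (nat_lit 15334) (A (nat_lit 12))
(S (nat_lit 35098) (A (nat_lit 13))
(A (nat_lit 14))))
(S (nat_lit 39559) (S (nat_lit 8748) (A (nat_lit 15))
(S (nat_lit 28512) (A (nat_lit 16))
(A (nat_lit 17))))
(L (nat_lit 25237973)))))
(S (nat_lit 41536) (S (nat_lit 10997) (S (nat_lit 10966) (A (nat_lit 18))
(S (nat_lit 30730) (A (nat_lit 19))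
(A (nat_lit 20))))
(S (nat_lit 30761) (S (nat_lit 8795) (A (nat_lit 21))
(S (nat_lit 28559) (A (nat_lit 22))
(A (nat_lit 23))))
(S (nat_lit 50525) (S (nat_lit 8748) (A (nat_lit 24))
(A (nat_lit 25)))
(L (nat_lit 25546924)))))
(L (nat_lit 25888138)))))

theorem rb246_0 : run 4 lb246 [([0, 2008, 10960, 1279], []), ([0, 10960, 21043, 2008], []), ([0, 2008, 10960], [1279, 21043]), ([0, 2008, 30724, 15356], []), ([0, 2008, 30724, 35120], []), ([0, 2008, 30724], [15356, 35120]), ([0, 2008, 50488, 8790], []), ([0, 2008, 50488, 28554], []), ([0, 2008, 50488], [8790, 28554]), ([0, 21772, 31, 17538], []), ([0, 21772, 31, 37302], []), ([0, 21772, 31], [17538, 37302]), ([21772, 19795, 15334, 0], []), ([0, 21772, 19795, 35098], []), ([0, 21772, 19795], [15334, 35098]), ([0, 21772, 39559, 8748], []), ([0, 21772, 39559, 28512], []), ([0, 21772, 39559], [8748, 28512]), ([0, 41536, 10966, 10997], []), ([0, 41536, 30730, 10997], []), ([0, 41536, 10997], [10966,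 30730]), ([0, 41536, 30761, 8795], []), ([0, 41536, 30761, 28559], []), ([0, 41536, 30761], [8795, 28559]), ([0, 41536, 50525, 8748], []), ([0, 41536, 50525], [8748])] tb246_0 kb246 [lift 4 0 0] [] = true := by
  decide +kernel

noncomputable def tb178_0 : Tr :=
(L (nat_lit 25836802))

theorem rb178_0 : run 4 lb178 [] tb178_0 kb178 (P4 4 1809 4070 192 1809 0 0 0 1) [] = true := by
  decide +kernel

noncomputable def tb81_5 : Tr :=
(L (nat_lit 25835840))

theorem rb81_5 : run 4 lb81 [] tb81_5 kb81 (P4 4 2366 0 3275 2366 1 2 0 0) [] = true := by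
  decide +kernel

noncomputable def tb177_3 : Tr :=
(L (nat_lit 25768128))

theorem rb177_3 : run 4 lb177 [] tb177_3 kb177 (P4 4 2202 0 2306 0 0 1 0 0) [] = true := by
  decide +kernel

noncomputable def ta37_2 : Tr :=
(L (nat_lit 604385))

theorem ra37_2 : run 3 la37 [] ta37_2 ka37 (P4 3 203 0 314 203 0 0 1 2) [] = true := by
  decide +kernel

end Pool.Agent.MP_92191b_al.K3.E
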