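import Pool.Agent.MP_92191b_al.K3.CR1

/-! Refutation trees. -/

namespace Pool.Agent.MP_92191b_al.K3.E

open Tr

set_option maxRecDepth 100000

noncomputable def tb180_1 : Tr :=
(S (nat_lit 15573) (S (nat_lit 9532) (S (nat_lit 254) (S (nat_lit 15095) (S (nat_lit 9730) (S (nat_lit 6370) (S (nat_lit 13899) (S (nat_lit 7364) (S (nat_lit 13378) (S (nat_lit 13869) (S (nat_lit 1006) (L (nat_lit 29823558))
(L (nat_lit 8905408)))
(L (nat_lit 10941463)))
(L (nat_lit 13785403)))
(L (nat_lit 23262599)))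
(S (nat_lit 33744) (L (nat_lit 21402376))
(L (nat_lit 26300874))))
(S (nat_lit 26134) (S (nat_lit 34358) (S (nat_lit 5120) (S (nat_lit 40086) (L (nat_lit 22279249))
(L (nat_lit 17587427)))
(L (nat_lit 11293061)))
(S (nat_lit 48418) (L (nat_lit 7390904))
(L (nat_lit 2553170))))
(S (nat_lit 45898) (S (nat_lit 13899) (S (nat_lit 16319) (S (nat_lit 5120) (S (nat_lit 32944) (L (nat_lit 9863954))
(L (nat_lit 23226639)))
(L (nat_lit 16521399)))
(L (nat_lit 2831113)))
(S (nat_lit 33744) (L (nat_lit 6962948))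
(L (nat_lit 26713207))))
(L (nat_lit 25868484)))))
(S (nat_lit 29494) (S (nat_lit 4446) (S (nat_lit 13180) (S (nat_lit 14624) (S (nat_lit 8789) (L (nat_lit 30131270))
(L (nat_lit 26512947)))
(L (nat_lit 26335782)))
(L (nat_lit 26542798)))
(S (nat_lit 24210) (S (nat_lit 52657) (L (nat_lit 12735366))
(L (nat_lit 6010696)))
(S (nat_lit 43974) (S (nat_lit 754) (S (nat_lit 5591) (L (nat_lit 26547857))
(L (nat_lit 11310702)))
(S (nat_lit 34205) (L (nat_lit 1402449))
(L (nat_lit 26615490))))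
(L (nat_lit 25307635)))))
(S (nat_lit 49258) (S (nat_lit 558) (S (nat_lit 26962) (L (nat_lit 26614403))
(S (nat_lit 38828) (S (nat_lit 39528) (L (nat_lit 3389335))
(L (nat_lit 27492754)))
(L (nat_lit 26740082))))
(S (nat_lit 16955) (S (nat_lit 28255) (L (nat_lit 5785981))
(L (nat_lit 9963442)))
(L (nat_lit 14413990))))
(L (nat_lit 25826822)))))
(S (nat_lit 34859) (S (nat_lit 13869) (S (nat_lit 11436) (S (nat_lit 12394) (S (nat_lit 18237) (S (nat_lit 2198) (S (nat_lit 5120) (S (nat_lit 9730) (L (nat_lit 17673330))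
(L (nat_lit 8482263)))
(L (nat_lit 8415703)))
(L (nat_lit 480043)))
(L (nat_lit 18656864)))
(L (nat_lit 26951010)))
(S (nat_lit 31200) (S (nat_lit 5120) (S (nat_lit 43470) (S (nat_lit 13899) (S (nat_lit 39528) (S (nat_lit 12394) (S (nat_lit 1232) (L (nat_lit 9005100))
(L (nat_lit 26558178)))
(L (nat_lit 745840)))
(L (nat_lit 27504690)))
(L (nat_lit 26940780)))
(L (nat_lit 24920420)))
(S (nat_lit 48010) (L (nat_lit 501554))
(L (nat_lit 16527076))))
(S (nat_lit 50964) (S (nat_lit 20770) (S (nat_lit 26862) (S (nat_lit 46892) (S (nat_lit 5120) (L (nat_lit 19367750))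
(L (nat_lit 10545868)))
(L (nat_lit 27514277)))
(L (nat_lit 15477782)))
(L (nat_lit 22819878)))
(L (nat_lit 25418833)))))
(S (nat_lit 33633) (S (nat_lit 56) (S (nat_lit 19792) (S (nat_lit 13929) (S (nat_lit 13899) (L (nat_lit 10535735))
(L (nat_lit 1561416)))
(L (nat_lit 13509783)))
(L (nat_lit 15636501)))
(S (nat_lit 1836) (S (nat_lit 51550) (L (nat_lit 6071831))
(L (nat_lit 3601719)))
(L (nat_lit 7890500))))
(S (nat_lit 53397) (S (nat_lit 7364) (S (nat_lit 754) (S (nat_lit 1975) (L (nat_lit 14722869))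
(L (nat_lit 12625595)))
(L (nat_lit 12625659)))
(S (nat_lit 27128) (S (nat_lit 12394) (S (nat_lit 6589) (S (nat_lit 14121) (L (nat_lit 22916578))
(L (nat_lit 10674581)))
(L (nat_lit 7426459)))
(L (nat_lit 12321335)))
(S (nat_lit 46892) (S (nat_lit 39528) (S (nat_lit 47556) (L (nat_lit 4599703))
(L (nat_lit 27692340)))
(L (nat_lit 27492754)))
(L (nat_lit 25694857)))))
(L (nat_lit 25870593)))))
(S (nat_lit 54623) (S (nat_lit 12182) (S (nat_lit 18053) (S (nat_lit 36835) (S (nat_lit 15322) (L (nat_lit 26490998))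
(L (nat_lit 26977356)))
(L (nat_lit 10601331)))
(S (nat_lit 37817) (S (nat_lit 1975) (L (nat_lit 14413959))
(L (nat_lit 13772661)))
(S (nat_lit 57581) (S (nat_lit 28553) (S (nat_lit 46894) (S (nat_lit 54431) (L (nat_lit 9518866))
(L (nat_lit 3949128)))
(L (nat_lit 8132174)))
(L (nat_lit 19670127)))
(L (nat_lit 25830476)))))
(S (nat_lit 31946) (S (nat_lit 1006) (S (nat_lit 13869) (S (nat_lit 47116) (S (nat_lit 1232) (L (nat_lit 6010790))
(L (nat_lit 10940130)))
(L (nat_lit 17410981)))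
(L (nat_lit 26908072)))
(S (nat_lit 20770) (S (nat_lit 26609) (S (nat_lit 26353) (S (nat_lit 9730) (L (nat_lit 24439299))
(L (nat_lit 17569483)))
(L (nat_lit 9197614)))
(L (nat_lit 9191139)))
(S (nat_lit 40534) (S (nat_lit 15322) (S (nat_lit 2456) (L (nat_lit 5023282))
(L (nat_lit 19706987)))
(S (nat_lit 31071) (S (nat_lit 52678) (L (nat_lit 26804526))
(L (nat_lit 17695465)))
(L (nat_lit 1847606))))
(L (nat_lit 25349422)))))
(S (nat_lit 51710) (S (nat_lit 8035) (S (nat_lit 36611) (S (nat_lit 51922) (S (nat_lit 43470) (L (nat_lit 6981548))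
(L (nat_lit 4012402)))
(L (nat_lit 15042418)))
(S (nat_lit 39861) (L (nat_lit 7978883))
(L (nat_lit 30843461))))
(S (nat_lit 27799) (S (nat_lit 57765) (S (nat_lit 26353) (L (nat_lit 24208810))
(L (nat_lit 2897545)))
(L (nat_lit 27758186)))
(S (nat_lit 47563) (S (nat_lit 9730) (S (nat_lit 52657) (S (nat_lit 56599) (L (nat_lit 17394018))
(L (nat_lit 27700805)))
(L (nat_lit 27690568)))
(L (nat_lit 15499543)))
(L (nat_lit 25217294)))))
(L (nat_lit 25366254)))))
(L (nat_lit 25211250)))))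
(S (nat_lit 20018) (S (nat_lit 5591) (S (nat_lit 10230) (S (nat_lit 13899) (S (nat_lit 2950) (S (nat_lit 27352) (S (nat_lit 5120) (L (nat_lit 8566711))
(L (nat_lit 11292812)))
(L (nat_lit 832855)))
(S (nat_lit 36385) (L (nat_lit 16011416))
(L (nat_lit 26332396))))
(S (nat_lit 49897) (L (nat_lit 26776887))
(L (nat_lit 10568409))))
(S (nat_lit 29994) (S (nat_lit 28) (S (nat_lit 3942) (L (nat_lit 11624206))
(L (nat_lit 2613835)))
(S (nat_lit 19873) (S (nat_lit 29427) (L (nat_lit 8574768))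
(L (nat_lit 21053224)))
(L (nat_lit 26510773))))
(S (nat_lit 49758) (S (nat_lit 10539) (L (nat_lit 26529872))
(S (nat_lit 18715) (S (nat_lit 26360) (S (nat_lit 11436) (L (nat_lit 26707283))
(L (nat_lit 26326694)))
(L (nat_lit 8500923)))
(L (nat_lit 6047094))))
(L (nat_lit 25480608)))))
(S (nat_lit 25355) (S (nat_lit 12952) (S (nat_lit 47563) (S (nat_lit 53649) (S (nat_lit 33693) (S (nat_lit 7588) (L (nat_lit 26512919))
(L (nat_lit 13504855)))
(L (nat_lit 11683639)))
(L (nat_lit 27758871)))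
(L (nat_lit 18215095)))
(S (nat_lit 32716) (S (nat_lit 9730) (S (nat_lit 27352) (S (nat_lit 47563) (S (nat_lit 59013) (S (nat_lit 5120) (S (nat_lit 40310) (L (nat_lit 29659857))
(L (nat_lit 16870119)))
(L (nat_lit 1338839)))
(L (nat_lit 8839287)))
(L (nat_lit 7256247)))
(L (nat_lit 15509591)))
(L (nat_lit 15504727)))
(S (nat_lit 52480) (S (nat_lit 47563) (S (nat_lit 59013) (S (nat_lit 20546) (S (nat_lit 5120) (S (nat_lit 53397) (S (nat_lit 9730) (L (nat_lit 9563703))
(L (nat_lit 15504663)))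
(L (nat_lit 7790615)))
(L (nat_lit 9221303)))
(L (nat_lit 22816292)))
(L (nat_lit 12640567)))
(L (nat_lit 8807575)))
(L (nat_lit 25443009)))))
(S (nat_lit 45119) (S (nat_lit 754) (S (nat_lit 17575) (S (nat_lit 3199) (S (nat_lit 3720) (L (nat_lit 21262446))
(L (nat_lit 26940811)))
(L (nat_lit 26399270)))
(S (nat_lit 37339) (S (nat_lit 53427) (S (nat_lit 4446) (L (nat_lit 466648))
(L (nat_lit 20256249)))
(L (nat_lit 16852791)))
(S (nat_lit 57103) (S (nat_lit 14594) (S (nat_lit 13378) (S (nat_lit 1472) (L (nat_lit 28461424))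
(L (nat_lit 26628166)))
(L (nat_lit 13402729)))
(L (nat_lit 802408)))
(L (nat_lit 25629257)))))
(S (nat_lit 20518) (S (nat_lit 10986) (S (nat_lit 59013) (L (nat_lit 20321657))
(L (nat_lit 21398377)))
(S (nat_lit 30750) (S (nat_lit 43470) (S (nat_lit 13899) (S (nat_lit 6845) (L (nat_lit 13313858))
(L (nat_lit 13178730)))
(L (nat_lit 12669305)))
(L (nat_lit 24980622)))
(S (nat_lit 50514) (L (nat_lit 4832539))
(L (nat_lit 25277095)))))
(S (nat_lit 40282) (S (nat_lit 8033) (L (nat_lit 23215320))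
(S (nat_lit 27797) (L (nat_lit 22199579))
(S (nat_lit 47561) (S (nat_lit 39528) (S (nat_lit 47556) (L (nat_lit 11454640))
(L (nat_lit 5695115)))
(L (nat_lit 27690566)))
(L (nat_lit 25570021)))))
(L (nat_lit 25173710)))))
(L (nat_lit 25431630)))))
(S (nat_lit 39782) (S (nat_lit 11436) (S (nat_lit 15322) (S (nat_lit 43470) (S (nat_lit 8035) (S (nat_lit 39528) (L (nat_lit 19055463))
(L (nat_lit 23468059)))
(L (nat_lit 23903367)))
(L (nat_lit 4007378)))
(S (nat_lit 35086) (S (nat_lit 5120) (S (nat_lit 40086) (S (nat_lit 39556) (S (nat_lit 43470) (S (nat_lit 33693) (L (nat_lit 4506482))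
(L (nat_lit 2631477)))
(L (nat_lit 24913038)))
(L (nat_lit 10603929)))
(L (nat_lit 10568626)))
(L (nat_lit 8907460)))
(S (nat_lit 54850) (S (nat_lit 5120) (L (nat_lit 8306371))
(L (nat_lit 16521924)))
(L (nat_lit 25857329)))))
(S (nat_lit 31200) (S (nat_lit 11732) (S (nat_lit 18237) (S (nat_lit 5120) (S (nat_lit 39528) (S (nat_lit 43470) (S (nat_lit 9730) (L (nat_lit 18049108))
(L (nat_lit 11284626)))
(L (nat_lit 23524708)))
(L (nat_lit 27866119)))
(S (nat_lit 27034) (L (nat_lit 10602354))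
(L (nat_lit 11069623))))
(S (nat_lit 38001) (S (nat_lit 7942) (L (nat_lit 17647809))
(S (nat_lit 27799) (S (nat_lit 39249) (S (nat_lit 46894) (L (nat_lit 5553015))
(L (nat_lit 20726115)))
(L (nat_lit 17400649)))
(L (nat_lit 30837975))))
(S (nat_lit 57765) (S (nat_lit 33885) (S (nat_lit 3199) (S (nat_lit 15322) (L (nat_lit 15469781))
(L (nat_lit 26447473)))
(L (nat_lit 20506981)))
(L (nat_lit 24029602)))
(L (nat_lit 25860609)))))
(S (nat_lit 31496) (S (nat_lit 16065) (S (nat_lit 37817) (S (nat_lit 39528) (S (nat_lit 40310) (S (nat_lit 10482) (S (nat_lit 27799) (L (nat_lit 29470166))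
(L (nat_lit 24535210)))
(L (nat_lit 12148782)))
(L (nat_lit 16852698)))
(L (nat_lit 11371116)))
(L (nat_lit 10094041)))
(S (nat_lit 35829) (S (nat_lit 16645) (L (nat_lit 4438871))
(S (nat_lit 39528) (S (nat_lit 43470) (S (nat_lit 28050) (S (nat_lit 39584) (L (nat_lit 7501335))
(L (nat_lit 12334103)))
(L (nat_lit 10882932)))
(L (nat_lit 3951984)))
(L (nat_lit 27886982))))
(S (nat_lit 55593) (S (nat_lit 13899) (S (nat_lit 39528) (S (nat_lit 9730) (S (nat_lit 53457) (L (nat_lit 20124428))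
(L (nat_lit 17438538)))
(L (nat_lit 9225303)))
(L (nat_lit 24374656)))
(S (nat_lit 16974) (L (nat_lit 13737845))
(L (nat_lit 13748601))))
(L (nat_lit 25580801)))))
(S (nat_lit 51260) (S (nat_lit 13869) (S (nat_lit 39528) (S (nat_lit 53457) (S (nat_lit 5120) (L (nat_lit 28329607))
(L (nat_lit 9177806)))
(L (nat_lit 7918337)))
(L (nat_lit 27707430)))
(S (nat_lit 33633) (S (nat_lit 30750) (S (nat_lit 43470) (S (nat_lit 39249) (S (nat_lit 23484) (S (nat_lit 30246) (L (nat_lit 30548561))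
(L (nat_lit 13339497)))
(L (nat_lit 11243930)))
(L (nat_lit 14279973)))
(L (nat_lit 4007502)))
(L (nat_lit 3912551)))
(S (nat_lit 53397) (S (nat_lit 22963) (S (nat_lit 18053) (S (nat_lit 53457) (L (nat_lit 29449738))
(L (nat_lit 17372936)))
(L (nat_lit 6216044)))
(L (nat_lit 22983013)))
(L (nat_lit 25870346)))))
(L (nat_lit 25800100)))))
(S (nat_lit 50964) (S (nat_lit 17575) (S (nat_lit 6370) (S (nat_lit 558) (L (nat_lit 29482375))
(L (nat_lit 13726279)))
(S (nat_lit 26134) (S (nat_lit 30750) (S (nat_lit 1975) (S (nat_lit 23484) (L (nat_lit 30909027))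
(L (nat_lit 10940033)))
(L (nat_lit 3400148)))
(L (nat_lit 4106710)))
(S (nat_lit 45898) (S (nat_lit 35829) (S (nat_lit 3199) (L (nat_lit 3848472))
(L (nat_lit 26400108)))
(L (nat_lit 4106711)))
(L (nat_lit 25207536)))))
(S (nat_lit 37339) (S (nat_lit 807) (S (nat_lit 13899) (L (nat_lit 11154241))
(L (nat_lit 10949337)))
(S (nat_lit 20571) (S (nat_lit 27130) (S (nat_lit 4926) (S (nat_lit 50010) (L (nat_lit 28758340))
(L (nat_lit 3974766)))
(L (nat_lit 4072882)))
(S (nat_lit 44021) (L (nat_lit 13788875))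
(L (nat_lit 2647255))))
(S (nat_lit 40335) (S (nat_lit 15043) (L (nat_lit 17573015))
(S (nat_lit 30750) (S (nat_lit 9730) (L (nat_lit 24363842))
(L (nat_lit 15511232)))
(L (nat_lit 4107734))))
(L (nat_lit 25745578)))))
(S (nat_lit 57103) (S (nat_lit 9730) (S (nat_lit 467) (L (nat_lit 10997507))
(S (nat_lit 30750) (S (nat_lit 22963) (S (nat_lit 51260) (L (nat_lit 21857670))
(L (nat_lit 14863143)))
(L (nat_lit 12333733)))
(L (nat_lit 4108662))))
(S (nat_lit 19056) (L (nat_lit 27807914))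
(L (nat_lit 2896587))))
(L (nat_lit 25350480)))))
(L (nat_lit 25379427)))))
(L (nat_lit 25378371)))))
(S (nat_lit 29296) (S (nat_lit 254) (S (nat_lit 7366) (S (nat_lit 7364) (S (nat_lit 9068) (S (nat_lit 40760) (S (nat_lit 6370) (S (nat_lit 21236) (L (nat_lit 11320342))
(L (nat_lit 2422416)))
(L (nat_lit 20181444)))
(L (nat_lit 7967568)))
(S (nat_lit 28832) (S (nat_lit 13129) (S (nat_lit 13180) (L (nat_lit 14428899))
(L (nat_lit 26400046)))
(L (nat_lit 26908814)))
(S (nat_lit 48596) (S (nat_lit 1525) (S (nat_lit 42727) (S (nat_lit 1232) (L (nat_lit 24940750))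
(L (nat_lit 11273969)))
(L (nat_lit 13824372)))
(L (nat_lit 14603338)))
(L (nat_lit 25496981)))))
(S (nat_lit 27128) (S (nat_lit 14121) (S (nat_lit 1975) (S (nat_lit 18715) (L (nat_lit 26662955))
(L (nat_lit 26387152)))
(L (nat_lit 20166468)))
(S (nat_lit 33885) (S (nat_lit 25355) (L (nat_lit 6072823))
(L (nat_lit 16967959)))
(S (nat_lit 53649) (S (nat_lit 52678) (S (nat_lit 5591) (S (nat_lit 24210) (L (nat_lit 9253602))
(L (nat_lit 3975666)))
(L (nat_lit 11289783)))
(L (nat_lit 12377506)))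
(L (nat_lit 25176749)))))
(S (nat_lit 46892) (S (nat_lit 34859) (S (nat_lit 26134) (S (nat_lit 9730) (S (nat_lit 43470) (S (nat_lit 2198) (S (nat_lit 31496) (L (nat_lit 4846929))
(L (nat_lit 31099246)))
(L (nat_lit 19678219)))
(L (nat_lit 23504804)))
(L (nat_lit 15471895)))
(L (nat_lit 21201304)))
(L (nat_lit 20156241)))
(L (nat_lit 25793809)))))
(S (nat_lit 27130) (S (nat_lit 14594) (S (nat_lit 18053) (S (nat_lit 43470) (S (nat_lit 30750) (S (nat_lit 13869) (S (nat_lit 55593) (L (nat_lit 2894295))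
(L (nat_lit 13757719)))
(L (nat_lit 14414858)))
(L (nat_lit 8506780)))
(S (nat_lit 47766) (L (nat_lit 24229114))
(L (nat_lit 24908235))))
(L (nat_lit 3529181)))
(S (nat_lit 34358) (S (nat_lit 7844) (S (nat_lit 33693) (S (nat_lit 53649) (S (nat_lit 19820) (S (nat_lit 21289) (L (nat_lit 7967224))
(L (nat_lit 3428856)))
(L (nat_lit 30586103)))
(L (nat_lit 7531927)))
(L (nat_lit 14871863)))
(S (nat_lit 27608) (S (nat_lit 52906) (S (nat_lit 9730) (L (nat_lit 24904169))
(L (nat_lit 17575063)))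
(L (nat_lit 3357305)))
(S (nat_lit 47372) (S (nat_lit 34388) (S (nat_lit 19764) (S (nat_lit 8035) (S (nat_lit 32893) (L (nat_lit 30727343))
(L (nat_lit 3847977)))
(L (nat_lit 23903367)))
(L (nat_lit 3565778)))
(L (nat_lit 3946706)))
(L (nat_lit 25484738)))))
(S (nat_lit 54122) (S (nat_lit 2198) (S (nat_lit 5591) (L (nat_lit 6405911))
(L (nat_lit 18622647)))
(L (nat_lit 7123525)))
(L (nat_lit 25569988)))))
(S (nat_lit 46894) (S (nat_lit 7098) (S (nat_lit 35829) (S (nat_lit 53427) (S (nat_lit 50964) (S (nat_lit 9730) (L (nat_lit 24904044))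
(L (nat_lit 2934103)))
(L (nat_lit 12710262)))
(L (nat_lit 5630455)))
(S (nat_lit 40625) (L (nat_lit 13770519))
(L (nat_lit 3521367))))
(S (nat_lit 26862) (S (nat_lit 35829) (S (nat_lit 53427) (S (nat_lit 8028) (S (nat_lit 2198) (S (nat_lit 52480) (L (nat_lit 20742663))
(L (nat_lit 6382071)))
(L (nat_lit 15476292)))
(L (nat_lit 23902249)))
(L (nat_lit 5630455)))
(S (nat_lit 47185) (L (nat_lit 30587560))
(L (nat_lit 3357527))))
(S (nat_lit 46626) (S (nat_lit 18053) (S (nat_lit 47372) (S (nat_lit 2456) (L (nat_lit 2344887))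
(L (nat_lit 7133603)))
(L (nat_lit 22251000)))
(S (nat_lit 37817) (S (nat_lit 59013) (S (nat_lit 22220) (L (nat_lit 15303462))
(L (nat_lit 5846393)))
(L (nat_lit 2351607)))
(S (nat_lit 57581) (S (nat_lit 16716) (L (nat_lit 22419338))
(S (nat_lit 35829) (S (nat_lit 30750) (S (nat_lit 50964) (S (nat_lit 53427) (L (nat_lit 24904198))
(L (nat_lit 5630455)))
(L (nat_lit 10666836)))
(L (nat_lit 2542972)))
(L (nat_lit 2501461))))
(L (nat_lit 25830848)))))
(L (nat_lit 25936227)))))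
(L (nat_lit 25349326)))))
(S (nat_lit 20018) (S (nat_lit 10482) (S (nat_lit 13929) (S (nat_lit 6596) (S (nat_lit 41000) (L (nat_lit 17977659))
(L (nat_lit 5558744)))
(S (nat_lit 26360) (S (nat_lit 1525) (S (nat_lit 46892) (L (nat_lit 18952044))
(L (nat_lit 9967477)))
(L (nat_lit 26399207)))
(S (nat_lit 46124) (S (nat_lit 20996) (L (nat_lit 8573776))
(L (nat_lit 11728592)))
(L (nat_lit 25657963)))))
(S (nat_lit 33693) (S (nat_lit 13180) (S (nat_lit 53649) (S (nat_lit 19820) (S (nat_lit 53397) (L (nat_lit 30086412))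
(L (nat_lit 6148520)))
(L (nat_lit 10322359)))
(L (nat_lit 3667287)))
(S (nat_lit 32944) (S (nat_lit 59013) (L (nat_lit 2857467))
(L (nat_lit 2646327)))
(S (nat_lit 52708) (S (nat_lit 35086) (S (nat_lit 53649) (S (nat_lit 42727) (L (nat_lit 12592826))
(L (nat_lit 27676683)))
(L (nat_lit 19698088)))
(L (nat_lit 23300504)))
(L (nat_lit 25834568)))))
(S (nat_lit 53457) (S (nat_lit 12952) (S (nat_lit 53397) (S (nat_lit 20322) (L (nat_lit 10337333))
(L (nat_lit 21808294)))
(L (nat_lit 4539255)))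
(S (nat_lit 32716) (S (nat_lit 39249) (S (nat_lit 53427) (S (nat_lit 41025) (S (nat_lit 807) (L (nat_lit 29889160))
(L (nat_lit 13785400)))
(L (nat_lit 23314304)))
(L (nat_lit 21079547)))
(L (nat_lit 13962135)))
(S (nat_lit 52480) (S (nat_lit 43470) (S (nat_lit 9730) (S (nat_lit 39584) (S (nat_lit 20546) (L (nat_lit 17619237))
(L (nat_lit 21434681)))
(L (nat_lit 18618391)))
(L (nat_lit 9175692)))
(L (nat_lit 27305584)))
(L (nat_lit 25862320)))))
(L (nat_lit 25699969)))))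
(S (nat_lit 30246) (S (nat_lit 7364) (S (nat_lit 1472) (S (nat_lit 40760) (S (nat_lit 25355) (S (nat_lit 47563) (L (nat_lit 3565878))
(L (nat_lit 5697815)))
(L (nat_lit 13758743)))
(L (nat_lit 9868055)))
(S (nat_lit 21236) (S (nat_lit 47563) (S (nat_lit 9730) (S (nat_lit 53427) (S (nat_lit 53215) (L (nat_lit 4051339))
(L (nat_lit 17584449)))
(L (nat_lit 8180193)))
(L (nat_lit 17569483)))
(L (nat_lit 4646167)))
(S (nat_lit 41000) (S (nat_lit 7366) (S (nat_lit 1232) (S (nat_lit 52906) (L (nat_lit 28902855))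
(L (nat_lit 3600691)))
(L (nat_lit 3599671)))
(L (nat_lit 13889623)))
(L (nat_lit 25561430)))))
(S (nat_lit 27128) (S (nat_lit 13180) (S (nat_lit 40760) (L (nat_lit 26386129))
(L (nat_lit 23247689)))
(S (nat_lit 32944) (S (nat_lit 43974) (S (nat_lit 40534) (S (nat_lit 14645) (S (nat_lit 26862) (S (nat_lit 19764) (L (nat_lit 30555442))
(L (nat_lit 3565778)))
(L (nat_lit 15467110)))
(L (nat_lit 24292145)))
(L (nat_lit 27440436)))
(L (nat_lit 14871143)))
(S (nat_lit 52708) (S (nat_lit 7674) (L (nat_lit 5490518))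
(S (nat_lit 35261) (L (nat_lit 805230))
(L (nat_lit 14930041))))
(L (nat_lit 25729110)))))
(S (nat_lit 46892) (S (nat_lit 16847) (S (nat_lit 33142) (S (nat_lit 53215) (S (nat_lit 50964) (L (nat_lit 24469989))
(L (nat_lit 22192603)))
(L (nat_lit 11293217)))
(L (nat_lit 9831128)))
(S (nat_lit 36611) (S (nat_lit 43974) (S (nat_lit 53397) (S (nat_lit 4926) (L (nat_lit 3915654))
(L (nat_lit 3559704)))
(L (nat_lit 9851745)))
(L (nat_lit 24294247)))
(S (nat_lit 56375) (S (nat_lit 4926) (S (nat_lit 13869) (L (nat_lit 26235371))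
(L (nat_lit 13979672)))
(L (nat_lit 20321094)))
(L (nat_lit 25771205)))))
(L (nat_lit 25727625)))))
(S (nat_lit 50010) (S (nat_lit 3720) (S (nat_lit 40335) (S (nat_lit 55847) (S (nat_lit 24210) (S (nat_lit 34409) (S (nat_lit 44454) (S (nat_lit 33451) (S (nat_lit 1975) (L (nat_lit 15303962))
(L (nat_lit 13887108)))
(L (nat_lit 30495272)))
(L (nat_lit 13337915)))
(L (nat_lit 23295365)))
(L (nat_lit 13818758)))
(L (nat_lit 27449677)))
(L (nat_lit 27449581)))
(S (nat_lit 23484) (S (nat_lit 19764) (S (nat_lit 15322) (S (nat_lit 47561) (L (nat_lit 4632503))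
(L (nat_lit 22985956)))
(L (nat_lit 22571267)))
(S (nat_lit 19926) (L (nat_lit 17012565))
(L (nat_lit 2306898))))
(S (nat_lit 43248) (S (nat_lit 24210) (S (nat_lit 807) (S (nat_lit 19764) (S (nat_lit 21962) (L (nat_lit 9460622))
(L (nat_lit 30659012)))
(L (nat_lit 2517202)))
(L (nat_lit 10673037)))
(L (nat_lit 14473441)))
(L (nat_lit 25663115)))))
(L (nat_lit 25563348)))))
(S (nat_lit 39782) (S (nat_lit 7844) (S (nat_lit 3720) (S (nat_lit 43470) (S (nat_lit 40760) (S (nat_lit 40534) (L (nat_lit 2014517))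
(L (nat_lit 3864107)))
(L (nat_lit 23466823)))
(L (nat_lit 3362670)))
(S (nat_lit 23484) (S (nat_lit 5863) (S (nat_lit 47814) (S (nat_lit 34388) (S (nat_lit 27799) (S (nat_lit 32158) (S (nat_lit 19764) (L (nat_lit 12692125))
(L (nat_lit 9849914)))
(L (nat_lit 8079170)))
(L (nat_lit 30845603)))
(L (nat_lit 3954896)))
(L (nat_lit 22454331)))
(S (nat_lit 25627) (S (nat_lit 1232) (S (nat_lit 32158) (S (nat_lit 19485) (L (nat_lit 29689399))
(L (nat_lit 26648759)))
(L (nat_lit 14354250)))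
(L (nat_lit 11309622)))
(S (nat_lit 45391) (S (nat_lit 20546) (S (nat_lit 13929) (L (nat_lit 5794103))
(L (nat_lit 10646037)))
(L (nat_lit 3829040)))
(L (nat_lit 25709891)))))
(S (nat_lit 43248) (S (nat_lit 34388) (S (nat_lit 41304) (S (nat_lit 41984) (S (nat_lit 26355) (L (nat_lit 18966918))
(L (nat_lit 10246593)))
(L (nat_lit 13722346)))
(L (nat_lit 9198052)))
(L (nat_lit 3954896)))
(L (nat_lit 25386062)))))
(S (nat_lit 27608) (S (nat_lit 4446) (S (nat_lit 13129) (S (nat_lit 50964) (S (nat_lit 13929) (S (nat_lit 56) (S (nat_lit 7098) (L (nat_lit 29503052))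
(L (nat_lit 14385496)))
(L (nat_lit 7529879)))
(L (nat_lit 1296953)))
(L (nat_lit 13332487)))
(S (nat_lit 32893) (S (nat_lit 25702) (L (nat_lit 3390388))
(S (nat_lit 27799) (S (nat_lit 20518) (S (nat_lit 10482) (L (nat_lit 12837443))
(L (nat_lit 21149912)))
(L (nat_lit 6707352)))
(L (nat_lit 24132455))))
(S (nat_lit 52657) (S (nat_lit 41726) (S (nat_lit 10482) (L (nat_lit 20153265))
(L (nat_lit 26815534)))
(L (nat_lit 10973207)))
(L (nat_lit 25565366)))))
(S (nat_lit 24210) (S (nat_lit 1776) (S (nat_lit 9391) (L (nat_lit 3389267))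
(S (nat_lit 43470) (S (nat_lit 33633) (S (nat_lit 3199) (S (nat_lit 27797) (S (nat_lit 33451) (S (nat_lit 19485) (L (nat_lit 13833913))
(L (nat_lit 24544009)))
(L (nat_lit 16110436)))
(L (nat_lit 3590491)))
(L (nat_lit 17160000)))
(L (nat_lit 6712375)))
(L (nat_lit 27700804))))
(S (nat_lit 28676) (L (nat_lit 11317335))
(L (nat_lit 2628435))))
(S (nat_lit 43974) (S (nat_lit 13150) (S (nat_lit 17404) (L (nat_lit 12589691))
(S (nat_lit 45898) (S (nat_lit 31496) (L (nat_lit 6438679))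
(L (nat_lit 11930203)))
(L (nat_lit 27711684))))
(S (nat_lit 32914) (S (nat_lit 13180) (S (nat_lit 1776) (S (nat_lit 57581) (L (nat_lit 29759178))
(L (nat_lit 19665290)))
(L (nat_lit 12081988)))
(L (nat_lit 12967746)))
(S (nat_lit 52678) (S (nat_lit 45391) (S (nat_lit 30750) (S (nat_lit 26862) (L (nat_lit 7013819))
(L (nat_lit 4681318)))
(L (nat_lit 16887668)))
(L (nat_lit 27347367)))
(L (nat_lit 25900041)))))
(L (nat_lit 25891303)))))
(S (nat_lit 47372) (S (nat_lit 4926) (S (nat_lit 12394) (S (nat_lit 48596) (S (nat_lit 39584) (S (nat_lit 19764) (S (nat_lit 32944) (L (nat_lit 28836116))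
(L (nat_lit 16058072)))
(L (nat_lit 22448007)))
(L (nat_lit 24642808)))
(L (nat_lit 20350264)))
(L (nat_lit 18632746)))
(S (nat_lit 24690) (S (nat_lit 16065) (S (nat_lit 47814) (S (nat_lit 34667) (L (nat_lit 26649219))
(L (nat_lit 15566034)))
(L (nat_lit 9274989)))
(S (nat_lit 35829) (S (nat_lit 52906) (S (nat_lit 1232) (L (nat_lit 8805433))
(L (nat_lit 3435063)))
(L (nat_lit 10580687)))
(S (nat_lit 55593) (S (nat_lit 21540) (S (nat_lit 27352) (L (nat_lit 28713074))
(L (nat_lit 6419086)))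
(L (nat_lit 8226259)))
(L (nat_lit 25272789)))))
(S (nat_lit 44454) (S (nat_lit 6370) (S (nat_lit 52906) (S (nat_lit 16847) (L (nat_lit 19675363))
(L (nat_lit 455240)))
(L (nat_lit 27402707)))
(S (nat_lit 26134) (S (nat_lit 12394) (S (nat_lit 30750) (S (nat_lit 22714) (L (nat_lit 6910097))
(L (nat_lit 11614936)))
(L (nat_lit 24549159)))
(S (nat_lit 16124) (L (nat_lit 7991374))
(L (nat_lit 18612935))))
(S (nat_lit 45898) (S (nat_lit 21289) (S (nat_lit 25627) (S (nat_lit 22714) (L (nat_lit 23862754))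
(L (nat_lit 13267110)))
(L (nat_lit 11202672)))
(L (nat_lit 2930933)))
(L (nat_lit 25211623)))))
(L (nat_lit 25568307)))))
(L (nat_lit 25803104)))))
(L (nat_lit 25246314)))))
(S (nat_lit 49060) (S (nat_lit 11436) (S (nat_lit 16065) (S (nat_lit 10230) (S (nat_lit 254) (S (nat_lit 13869) (S (nat_lit 8286) (S (nat_lit 33663) (S (nat_lit 52678) (L (nat_lit 13737689))
(L (nat_lit 10998841)))
(L (nat_lit 3534295)))
(L (nat_lit 26616420)))
(L (nat_lit 14456085)))
(S (nat_lit 20018) (S (nat_lit 3720) (S (nat_lit 13129) (S (nat_lit 6591) (S (nat_lit 12394) (L (nat_lit 12703002))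
(L (nat_lit 16524343)))
(L (nat_lit 13914200)))
(L (nat_lit 1858894)))
(S (nat_lit 43087) (S (nat_lit 1319) (L (nat_lit 21792297))
(L (nat_lit 16524343)))
(L (nat_lit 448857))))
(S (nat_lit 39782) (S (nat_lit 8286) (S (nat_lit 19485) (L (nat_lit 29507927))
(L (nat_lit 11963065)))
(L (nat_lit 21403705)))
(L (nat_lit 25567811)))))
(S (nat_lit 29994) (S (nat_lit 6596) (S (nat_lit 1776) (S (nat_lit 8286) (S (nat_lit 37817) (S (nat_lit 6591) (L (nat_lit 22422338))
(L (nat_lit 13337880)))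
(L (nat_lit 14517586)))
(L (nat_lit 12879480)))
(L (nat_lit 12690104)))
(S (nat_lit 26360) (S (nat_lit 18715) (S (nat_lit 36835) (S (nat_lit 52678) (S (nat_lit 37817) (S (nat_lit 52708) (L (nat_lit 26459813))
(L (nat_lit 5840345)))
(L (nat_lit 9209236)))
(L (nat_lit 10612399)))
(L (nat_lit 30528938)))
(L (nat_lit 26334576)))
(S (nat_lit 46124) (S (nat_lit 0) (S (nat_lit 25627) (S (nat_lit 47372) (S (nat_lit 37817) (L (nat_lit 23869760))
(L (nat_lit 17597778)))
(L (nat_lit 17565415)))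
(L (nat_lit 17565351)))
(L (nat_lit 7964461)))
(L (nat_lit 25483781)))))
(S (nat_lit 49758) (S (nat_lit 3720) (S (nat_lit 6591) (S (nat_lit 13929) (S (nat_lit 5120) (L (nat_lit 29988299))
(L (nat_lit 20722823)))
(L (nat_lit 8573496)))
(L (nat_lit 13914200)))
(S (nat_lit 23484) (S (nat_lit 27799) (S (nat_lit 45119) (S (nat_lit 53649) (S (nat_lit 33633) (L (nat_lit 23162128))
(L (nat_lit 2965783)))
(L (nat_lit 3894696)))
(L (nat_lit 12757942)))
(L (nat_lit 11210606)))
(S (nat_lit 43248) (S (nat_lit 39584) (S (nat_lit 4926) (S (nat_lit 0) (S (nat_lit 8286) (S (nat_lit 33885) (L (nat_lit 28950882))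
(L (nat_lit 24032516)))
(L (nat_lit 23889165)))
(L (nat_lit 6926360)))
(L (nat_lit 15737496)))
(L (nat_lit 4988310)))
(L (nat_lit 25892176)))))
(L (nat_lit 25695915)))))
(S (nat_lit 35829) (S (nat_lit 14903) (S (nat_lit 9730) (S (nat_lit 33663) (S (nat_lit 5120) (S (nat_lit 46894) (S (nat_lit 0) (L (nat_lit 4540340))
(L (nat_lit 19306521)))
(L (nat_lit 7488407)))
(S (nat_lit 24965) (L (nat_lit 27509911))
(L (nat_lit 26480334))))
(L (nat_lit 3370700)))
(S (nat_lit 35460) (S (nat_lit 55486) (L (nat_lit 2940358))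
(L (nat_lit 19964444)))
(L (nat_lit 11305495))))
(S (nat_lit 34667) (S (nat_lit 28) (S (nat_lit 57581) (L (nat_lit 26445300))
(L (nat_lit 27919818)))
(S (nat_lit 19792) (S (nat_lit 42478) (S (nat_lit 41984) (L (nat_lit 12223313))
(L (nat_lit 15927000)))
(L (nat_lit 27461361)))
(S (nat_lit 39556) (S (nat_lit 8286) (S (nat_lit 42478) (S (nat_lit 8789) (L (nat_lit 29939752))
(L (nat_lit 14788437)))
(L (nat_lit 27461044)))
(L (nat_lit 13370987)))
(L (nat_lit 25271701)))))
(S (nat_lit 54431) (S (nat_lit 8286) (S (nat_lit 0) (S (nat_lit 8033) (S (nat_lit 32914) (S (nat_lit 43470) (S (nat_lit 30750) (S (nat_lit 22714) (L (nat_lit 7228899))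
(L (nat_lit 12699960)))
(L (nat_lit 3600039)))
(L (nat_lit 3599667)))
(L (nat_lit 23390254)))
(L (nat_lit 14454344)))
(L (nat_lit 8160845)))
(L (nat_lit 12191257)))
(L (nat_lit 25380419)))))
(S (nat_lit 55593) (S (nat_lit 7368) (S (nat_lit 15322) (S (nat_lit 8286) (S (nat_lit 8028) (S (nat_lit 0) (S (nat_lit 18053) (L (nat_lit 7491436))
(L (nat_lit 5663058)))
(L (nat_lit 19117113)))
(L (nat_lit 21293068)))
(L (nat_lit 21799460)))
(S (nat_lit 35086) (S (nat_lit 18590) (S (nat_lit 31496) (L (nat_lit 12284974))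
(L (nat_lit 13819815)))
(S (nat_lit 49758) (S (nat_lit 0) (S (nat_lit 19820) (L (nat_lit 5678840))
(L (nat_lit 16090745)))
(L (nat_lit 19117113)))
(L (nat_lit 5630574))))
(S (nat_lit 54850) (S (nat_lit 8286) (S (nat_lit 1525) (S (nat_lit 42727) (S (nat_lit 807) (S (nat_lit 1472) (L (nat_lit 29806849))
(L (nat_lit 13954693)))
(L (nat_lit 26362099)))
(L (nat_lit 23474053)))
(L (nat_lit 13823655)))
(L (nat_lit 13993878)))
(L (nat_lit 25712745)))))
(S (nat_lit 27132) (S (nat_lit 7364) (S (nat_lit 50010) (S (nat_lit 8286) (S (nat_lit 1975) (S (nat_lit 21540) (S (nat_lit 8028) (L (nat_lit 21532985))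
(L (nat_lit 10279981)))
(L (nat_lit 8175634)))
(L (nat_lit 14329700)))
(L (nat_lit 26365196)))
(L (nat_lit 13823593)))
(S (nat_lit 27128) (S (nat_lit 27130) (S (nat_lit 33663) (S (nat_lit 18053) (S (nat_lit 52906) (S (nat_lit 11732) (S (nat_lit 9730) (L (nat_lit 15468915))
(L (nat_lit 2895383)))
(L (nat_lit 16042853)))
(L (nat_lit 3395471)))
(L (nat_lit 5617586)))
(L (nat_lit 3940044)))
(L (nat_lit 3392093)))
(S (nat_lit 46892) (S (nat_lit 56375) (S (nat_lit 1975) (S (nat_lit 47116) (L (nat_lit 26321646))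
(L (nat_lit 7466423)))
(L (nat_lit 3847015)))
(L (nat_lit 13816648)))
(L (nat_lit 25742597)))))
(S (nat_lit 46896) (S (nat_lit 8035) (S (nat_lit 13869) (S (nat_lit 5591) (S (nat_lit 32716) (L (nat_lit 28738216))
(L (nat_lit 24511370)))
(L (nat_lit 18648407)))
(L (nat_lit 14460576)))
(S (nat_lit 27799) (S (nat_lit 53649) (S (nat_lit 45119) (S (nat_lit 21540) (L (nat_lit 23633949))
(L (nat_lit 8177314)))
(L (nat_lit 9958519)))
(S (nat_lit 58672) (L (nat_lit 7965521))
(L (nat_lit 8065901))))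
(S (nat_lit 47563) (S (nat_lit 21739) (S (nat_lit 8286) (S (nat_lit 30246) (S (nat_lit 51260) (L (nat_lit 4730554))
(L (nat_lit 5960103)))
(L (nat_lit 8149474)))
(L (nat_lit 23495961)))
(L (nat_lit 22180078)))
(L (nat_lit 25213207)))))
(L (nat_lit 25346664)))))
(L (nat_lit 25788686)))))
(S (nat_lit 31200) (S (nat_lit 1525) (S (nat_lit 8033) (S (nat_lit 807) (S (nat_lit 13378) (S (nat_lit 8286) (L (nat_lit 26467779))
(L (nat_lit 9891956)))
(L (nat_lit 13379264)))
(S (nat_lit 20571) (S (nat_lit 43470) (S (nat_lit 1497) (L (nat_lit 26321366))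
(L (nat_lit 13751640)))
(L (nat_lit 23504738)))
(S (nat_lit 40335) (S (nat_lit 53649) (S (nat_lit 39556) (L (nat_lit 17696018))
(L (nat_lit 23562088)))
(L (nat_lit 16952181)))
(L (nat_lit 25418272)))))
(S (nat_lit 27797) (S (nat_lit 54431) (S (nat_lit 24690) (S (nat_lit 52906) (L (nat_lit 9868183))
(L (nat_lit 27514894)))
(L (nat_lit 17499910)))
(L (nat_lit 27788934)))
(S (nat_lit 47561) (S (nat_lit 14121) (S (nat_lit 42727) (S (nat_lit 40086) (L (nat_lit 17704978))
(L (nat_lit 27986311)))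
(L (nat_lit 13849625)))
(S (nat_lit 33885) (L (nat_lit 13829851))
(S (nat_lit 53649) (S (nat_lit 42478) (S (nat_lit 28832) (L (nat_lit 30877845))
(L (nat_lit 10126747)))
(L (nat_lit 5618393)))
(L (nat_lit 25343319)))))
(L (nat_lit 25464560)))))
(S (nat_lit 21289) (S (nat_lit 19485) (S (nat_lit 43470) (S (nat_lit 24884) (L (nat_lit 13721911))
(L (nat_lit 3798471)))
(L (nat_lit 24920420)))
(S (nat_lit 39249) (S (nat_lit 5120) (S (nat_lit 21540) (S (nat_lit 9730) (S (nat_lit 254) (L (nat_lit 21792198))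
(L (nat_lit 14471395)))
(L (nat_lit 14970565)))
(L (nat_lit 8064476)))
(S (nat_lit 24884) (S (nat_lit 8035) (S (nat_lit 51922) (L (nat_lit 9122657))
(L (nat_lit 5156343)))
(L (nat_lit 23891495)))
(S (nat_lit 44648) (S (nat_lit 30750) (S (nat_lit 13378) (L (nat_lit 13850466))
(L (nat_lit 8108869)))
(L (nat_lit 13756070)))
(L (nat_lit 25669349)))))
(S (nat_lit 59013) (S (nat_lit 14624) (S (nat_lit 42478) (S (nat_lit 0) (L (nat_lit 4639654))
(L (nat_lit 19117113)))
(L (nat_lit 14459587)))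
(S (nat_lit 34388) (S (nat_lit 8033) (L (nat_lit 3845691))
(L (nat_lit 21760488)))
(S (nat_lit 54152) (S (nat_lit 27799) (S (nat_lit 11732) (L (nat_lit 30755299))
(L (nat_lit 21935461)))
(L (nat_lit 31136943)))
(L (nat_lit 25680068)))))
(L (nat_lit 25414181)))))
(S (nat_lit 41053) (S (nat_lit 8028) (S (nat_lit 14724) (L (nat_lit 6995994))
(S (nat_lit 34409) (S (nat_lit 13899) (S (nat_lit 26134) (L (nat_lit 8077336))
(L (nat_lit 8141508)))
(L (nat_lit 13211001)))
(L (nat_lit 20069689))))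
(S (nat_lit 27792) (S (nat_lit 3199) (S (nat_lit 36611) (S (nat_lit 11732) (L (nat_lit 3875727))
(L (nat_lit 23539557)))
(L (nat_lit 23248742)))
(S (nat_lit 22963) (S (nat_lit 21739) (S (nat_lit 34409) (L (nat_lit 29010309))
(L (nat_lit 3732850)))
(L (nat_lit 22818273)))
(S (nat_lit 42727) (S (nat_lit 13869) (L (nat_lit 8567607))
(L (nat_lit 8811543)))
(L (nat_lit 25367957)))))
(S (nat_lit 47556) (S (nat_lit 30750) (S (nat_lit 9730) (S (nat_lit 7588) (S (nat_lit 48317) (L (nat_lit 3946086))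
(L (nat_lit 4480815)))
(L (nat_lit 4893487)))
(L (nat_lit 4745931)))
(L (nat_lit 17569142)))
(L (nat_lit 25222445)))))
(L (nat_lit 25304565)))))
(S (nat_lit 50964) (S (nat_lit 19485) (S (nat_lit 13929) (S (nat_lit 20018) (S (nat_lit 30750) (S (nat_lit 28) (L (nat_lit 10580406))
(L (nat_lit 14312456)))
(L (nat_lit 14587559)))
(L (nat_lit 22246545)))
(L (nat_lit 24417849)))
(S (nat_lit 39249) (S (nat_lit 6591) (S (nat_lit 16847) (S (nat_lit 53457) (S (nat_lit 44648) (L (nat_lit 9883832))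
(L (nat_lit 10401477)))
(L (nat_lit 27415082)))
(S (nat_lit 36611) (S (nat_lit 5863) (S (nat_lit 40086) (L (nat_lit 18539526))
(L (nat_lit 2646630)))
(L (nat_lit 20177411)))
(S (nat_lit 56375) (S (nat_lit 13378) (S (nat_lit 32716) (S (nat_lit 42478) (S (nat_lit 30750) (L (nat_lit 16701543))
(L (nat_lit 13919412)))
(L (nat_lit 14549734)))
(L (nat_lit 7420632)))
(L (nat_lit 22814895)))
(L (nat_lit 25312532)))))
(S (nat_lit 26355) (S (nat_lit 6677) (S (nat_lit 26360) (L (nat_lit 16385370))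
(L (nat_lit 31176037)))
(S (nat_lit 30750) (S (nat_lit 47814) (S (nat_lit 43470) (L (nat_lit 30855426))
(L (nat_lit 14502180)))
(L (nat_lit 17439556)))
(L (nat_lit 18965873))))
(S (nat_lit 46119) (S (nat_lit 16065) (S (nat_lit 47814) (S (nat_lit 28) (L (nat_lit 29760163))
(L (nat_lit 8211470)))
(L (nat_lit 22988034)))
(S (nat_lit 35829) (S (nat_lit 45391) (L (nat_lit 13946968))
(L (nat_lit 5699239)))
(S (nat_lit 55593) (S (nat_lit 13129) (L (nat_lit 8226261))
(L (nat_lit 22840841)))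
(L (nat_lit 25788938)))))
(L (nat_lit 25631862)))))
(S (nat_lit 59013) (S (nat_lit 558) (S (nat_lit 54850) (S (nat_lit 6591) (S (nat_lit 10986) (L (nat_lit 26837358))
(L (nat_lit 21047769)))
(L (nat_lit 14517524)))
(L (nat_lit 6006329)))
(S (nat_lit 20322) (S (nat_lit 23706) (S (nat_lit 807) (S (nat_lit 52906) (L (nat_lit 16018579))
(L (nat_lit 27511822)))
(L (nat_lit 13333792)))
(L (nat_lit 13346628)))
(S (nat_lit 40086) (S (nat_lit 47556) (S (nat_lit 9730) (S (nat_lit 30750) (S (nat_lit 33663) (L (nat_lit 16411973))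
(L (nat_lit 2904520)))
(L (nat_lit 17569447)))
(L (nat_lit 17569042)))
(L (nat_lit 18483579)))
(L (nat_lit 25712742)))))
(L (nat_lit 25317745)))))
(L (nat_lit 25386437)))))
(L (nat_lit 25319947)))))
(S (nat_lit 35337) (S (nat_lit 13378) (S (nat_lit 0) (S (nat_lit 2950) (S (nat_lit 13929) (S (nat_lit 1232) (S (nat_lit 754) (S (nat_lit 12952) (S (nat_lit 40310) (L (nat_lit 8408633))
(L (nat_lit 16869687)))
(L (nat_lit 3547866)))
(L (nat_lit 8787674)))
(S (nat_lit 20996) (S (nat_lit 49060) (S (nat_lit 7588) (L (nat_lit 254702))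
(L (nat_lit 12704091)))
(L (nat_lit 14320921)))
(S (nat_lit 40760) (S (nat_lit 40310) (S (nat_lit 20571) (S (nat_lit 48317) (L (nat_lit 17950314))
(L (nat_lit 14231332)))
(L (nat_lit 21534010)))
(L (nat_lit 18486586)))
(L (nat_lit 25429745)))))
(S (nat_lit 33693) (S (nat_lit 7366) (S (nat_lit 40310) (S (nat_lit 12952) (S (nat_lit 1006) (L (nat_lit 12865444))
(L (nat_lit 13854405)))
(L (nat_lit 26301927)))
(L (nat_lit 23905572)))
(S (nat_lit 27130) (S (nat_lit 54152) (S (nat_lit 17575) (L (nat_lit 29005102))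
(L (nat_lit 24521915)))
(L (nat_lit 7130289)))
(S (nat_lit 46894) (S (nat_lit 12394) (L (nat_lit 15468230))
(L (nat_lit 26256887)))
(L (nat_lit 25346258)))))
(S (nat_lit 53457) (S (nat_lit 8789) (S (nat_lit 46119) (S (nat_lit 40310) (S (nat_lit 4926) (S (nat_lit 49060) (L (nat_lit 29656627))
(L (nat_lit 14506022)))
(L (nat_lit 17918258)))
(L (nat_lit 24209713)))
(L (nat_lit 16872756)))
(S (nat_lit 28553) (S (nat_lit 39584) (S (nat_lit 43470) (S (nat_lit 19485) (L (nat_lit 13792565))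
(L (nat_lit 26738999)))
(L (nat_lit 27380014)))
(L (nat_lit 11285060)))
(S (nat_lit 48317) (S (nat_lit 31496) (S (nat_lit 13150) (L (nat_lit 17597717))
(L (nat_lit 22124987)))
(L (nat_lit 13886021)))
(L (nat_lit 25928068)))))
(L (nat_lit 25477760)))))
(S (nat_lit 22714) (S (nat_lit 6596) (S (nat_lit 56) (S (nat_lit 49060) (S (nat_lit 14903) (S (nat_lit 38001) (S (nat_lit 50964) (S (nat_lit 57207) (L (nat_lit 1424146))
(L (nat_lit 14583399)))
(L (nat_lit 20874630)))
(L (nat_lit 6993665)))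
(L (nat_lit 26740358)))
(L (nat_lit 7793714)))
(S (nat_lit 19820) (S (nat_lit 50964) (S (nat_lit 44648) (S (nat_lit 49060) (L (nat_lit 3054037))
(L (nat_lit 22814732)))
(L (nat_lit 13479094)))
(L (nat_lit 20121425)))
(S (nat_lit 39584) (S (nat_lit 8286) (S (nat_lit 49060) (S (nat_lit 41304) (L (nat_lit 3913021))
(L (nat_lit 23332652)))
(L (nat_lit 20415833)))
(L (nat_lit 21791948)))
(L (nat_lit 25691723)))))
(S (nat_lit 26360) (S (nat_lit 26353) (S (nat_lit 18715) (S (nat_lit 754) (S (nat_lit 40086) (S (nat_lit 44648) (L (nat_lit 31103020))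
(L (nat_lit 13489319)))
(L (nat_lit 18606246)))
(L (nat_lit 9213646)))
(S (nat_lit 38425) (L (nat_lit 15837915))
(L (nat_lit 3941072))))
(L (nat_lit 15631607)))
(S (nat_lit 46124) (S (nat_lit 40584) (S (nat_lit 8033) (L (nat_lit 12732696))
(L (nat_lit 13371733)))
(S (nat_lit 43470) (S (nat_lit 30750) (S (nat_lit 49060) (S (nat_lit 782) (S (nat_lit 52480) (L (nat_lit 24197496))
(L (nat_lit 9194980)))
(L (nat_lit 20050224)))
(L (nat_lit 27689234)))
(L (nat_lit 3597926)))
(L (nat_lit 13759859))))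
(L (nat_lit 25428593)))))
(S (nat_lit 42478) (S (nat_lit 19485) (S (nat_lit 13129) (S (nat_lit 51260) (L (nat_lit 30082566))
(L (nat_lit 27509477)))
(S (nat_lit 32893) (S (nat_lit 9068) (S (nat_lit 8286) (S (nat_lit 43470) (S (nat_lit 26134) (L (nat_lit 21216099))
(L (nat_lit 21201709)))
(L (nat_lit 23524644)))
(L (nat_lit 21403705)))
(L (nat_lit 21398845)))
(S (nat_lit 52657) (S (nat_lit 754) (S (nat_lit 8286) (L (nat_lit 12911352))
(L (nat_lit 23502904)))
(L (nat_lit 11327631)))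
(L (nat_lit 25613667)))))
(S (nat_lit 39249) (S (nat_lit 8789) (S (nat_lit 32716) (S (nat_lit 4926) (L (nat_lit 6207799))
(L (nat_lit 6024497)))
(L (nat_lit 4615474)))
(S (nat_lit 28553) (S (nat_lit 44454) (S (nat_lit 20546) (S (nat_lit 32716) (S (nat_lit 6591) (L (nat_lit 29482474))
(L (nat_lit 13717817)))
(L (nat_lit 18967853)))
(L (nat_lit 30490934)))
(L (nat_lit 24908079)))
(S (nat_lit 48317) (S (nat_lit 37817) (S (nat_lit 26134) (S (nat_lit 55593) (S (nat_lit 14594) (L (nat_lit 3595547))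
(L (nat_lit 12343780)))
(L (nat_lit 27665056)))
(L (nat_lit 30834901)))
(L (nat_lit 23471129)))
(L (nat_lit 25240979)))))
(S (nat_lit 59013) (S (nat_lit 807) (S (nat_lit 14645) (S (nat_lit 14624) (S (nat_lit 754) (L (nat_lit 27989292))
(L (nat_lit 19677475)))
(L (nat_lit 14379176)))
(L (nat_lit 12741938)))
(S (nat_lit 20571) (S (nat_lit 43470) (L (nat_lit 2535132))
(L (nat_lit 27988270)))
(S (nat_lit 40335) (S (nat_lit 1472) (S (nat_lit 36835) (S (nat_lit 55847) (L (nat_lit 11284663))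
(L (nat_lit 8177379)))
(L (nat_lit 6076694)))
(S (nat_lit 26076) (L (nat_lit 840945))
(L (nat_lit 20756805))))
(L (nat_lit 25924908)))))
(L (nat_lit 25698979)))))
(L (nat_lit 25741602)))))
(S (nat_lit 19764) (S (nat_lit 12394) (S (nat_lit 3199) (S (nat_lit 10230) (S (nat_lit 37880) (S (nat_lit 33451) (L (nat_lit 26462725))
(L (nat_lit 20251502)))
(S (nat_lit 43974) (S (nat_lit 45898) (L (nat_lit 2530103))
(L (nat_lit 3021268)))
(L (nat_lit 13380626))))
(S (nat_lit 29994) (S (nat_lit 8144) (L (nat_lit 6050278))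
(S (nat_lit 58243) (S (nat_lit 754) (L (nat_lit 2551494))
(L (nat_lit 20189754)))
(L (nat_lit 7859812))))
(S (nat_lit 49758) (S (nat_lit 47814) (S (nat_lit 18237) (S (nat_lit 27797) (S (nat_lit 33633) (L (nat_lit 19980712))
(L (nat_lit 15372570)))
(L (nat_lit 24502756)))
(L (nat_lit 285519)))
(L (nat_lit 8783638)))
(L (nat_lit 25709760)))))
(S (nat_lit 22963) (S (nat_lit 15095) (S (nat_lit 54122) (L (nat_lit 6338354))
(L (nat_lit 6022632)))
(S (nat_lit 34859) (S (nat_lit 9329) (L (nat_lit 8841396))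
(S (nat_lit 53457) (S (nat_lit 39584) (S (nat_lit 15322) (S (nat_lit 29296) (S (nat_lit 56375) (L (nat_lit 7069712))
(L (nat_lit 8535892)))
(L (nat_lit 12840978)))
(L (nat_lit 22029722)))
(L (nat_lit 18683927)))
(L (nat_lit 18622016))))
(S (nat_lit 54623) (S (nat_lit 50010) (S (nat_lit 13180) (L (nat_lit 22605090))
(L (nat_lit 13959898)))
(L (nat_lit 22195984)))
(L (nat_lit 25679136)))))
(S (nat_lit 42727) (S (nat_lit 9068) (S (nat_lit 40760) (S (nat_lit 52678) (S (nat_lit 27792) (S (nat_lit 29296) (S (nat_lit 41726) (L (nat_lit 6084139))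
(L (nat_lit 23536666)))
(L (nat_lit 3396433)))
(L (nat_lit 19807243)))
(L (nat_lit 21279769)))
(L (nat_lit 23520265)))
(L (nat_lit 26903855)))
(L (nat_lit 25838758)))))
(S (nat_lit 32158) (S (nat_lit 1776) (S (nat_lit 29296) (S (nat_lit 43470) (S (nat_lit 41984) (S (nat_lit 29494) (L (nat_lit 2355703))
(L (nat_lit 24969670)))
(L (nat_lit 13719928)))
(L (nat_lit 3950960)))
(S (nat_lit 38134) (L (nat_lit 12930073))
(L (nat_lit 12770123))))
(S (nat_lit 21540) (S (nat_lit 11436) (S (nat_lit 44454) (L (nat_lit 16516407))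
(L (nat_lit 27723430)))
(S (nat_lit 31200) (S (nat_lit 19792) (S (nat_lit 32914) (S (nat_lit 19820) (S (nat_lit 20996) (S (nat_lit 56375) (L (nat_lit 4725368))
(L (nat_lit 14228292)))
(L (nat_lit 16353065)))
(L (nat_lit 31142955)))
(L (nat_lit 10186767)))
(L (nat_lit 21489672)))
(S (nat_lit 50964) (S (nat_lit 24210) (S (nat_lit 7844) (L (nat_lit 30596487))
(L (nat_lit 11044604)))
(L (nat_lit 17673235)))
(L (nat_lit 25273812)))))
(S (nat_lit 41304) (S (nat_lit 28) (S (nat_lit 29296) (S (nat_lit 26353) (S (nat_lit 41984) (L (nat_lit 13895386))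
(L (nat_lit 14225226)))
(L (nat_lit 30889993)))
(L (nat_lit 13468946)))
(L (nat_lit 14501896)))
(L (nat_lit 25724587)))))
(S (nat_lit 51922) (S (nat_lit 14624) (S (nat_lit 2198) (S (nat_lit 14645) (S (nat_lit 56599) (L (nat_lit 1325692))
(L (nat_lit 14495365)))
(L (nat_lit 12807186)))
(S (nat_lit 21962) (S (nat_lit 56375) (S (nat_lit 42478) (L (nat_lit 8566642))
(L (nat_lit 13717318)))
(L (nat_lit 8994628)))
(S (nat_lit 41726) (S (nat_lit 584) (L (nat_lit 1752344))
(S (nat_lit 48596) (S (nat_lit 1232) (S (nat_lit 27799) (L (nat_lit 26707250))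
(L (nat_lit 7388792)))
(L (nat_lit 6045415)))
(L (nat_lit 22808107))))
(L (nat_lit 25806052)))))
(S (nat_lit 34388) (S (nat_lit 3720) (S (nat_lit 22220) (S (nat_lit 12182) (S (nat_lit 29296) (L (nat_lit 26852390))
(L (nat_lit 31097286)))
(L (nat_lit 21111662)))
(L (nat_lit 5495289)))
(S (nat_lit 23484) (S (nat_lit 46373) (L (nat_lit 21806437))
(L (nat_lit 20757675)))
(S (nat_lit 43248) (S (nat_lit 7588) (S (nat_lit 54173) (L (nat_lit 28512878))
(L (nat_lit 7093924)))
(L (nat_lit 12639014)))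
(L (nat_lit 25321003)))))
(S (nat_lit 54152) (S (nat_lit 13929) (S (nat_lit 7366) (S (nat_lit 56375) (S (nat_lit 45898) (L (nat_lit 29904132))
(L (nat_lit 8913748)))
(L (nat_lit 8571727)))
(L (nat_lit 12734310)))
(S (nat_lit 33693) (S (nat_lit 43470) (S (nat_lit 14594) (S (nat_lit 754) (S (nat_lit 7588) (S (nat_lit 44648) (S (nat_lit 29296) (L (nat_lit 1764687))
(L (nat_lit 3402385)))
(L (nat_lit 27892164)))
(L (nat_lit 4502170)))
(L (nat_lit 20713775)))
(L (nat_lit 11987058)))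
(L (nat_lit 27988334)))
(S (nat_lit 53457) (S (nat_lit 14645) (L (nat_lit 28982629))
(L (nat_lit 13502770)))
(L (nat_lit 25743496)))))
(L (nat_lit 25513104)))))
(L (nat_lit 25526928)))))
(S (nat_lit 39528) (S (nat_lit 3199) (S (nat_lit 558) (S (nat_lit 7364) (S (nat_lit 14594) (S (nat_lit 14645) (L (nat_lit 13276541))
(L (nat_lit 26365318)))
(L (nat_lit 13946692)))
(S (nat_lit 27128) (S (nat_lit 754) (L (nat_lit 12711282))
(L (nat_lit 20746542)))
(S (nat_lit 46892) (S (nat_lit 11436) (S (nat_lit 2198) (S (nat_lit 9532) (L (nat_lit 3762381))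
(L (nat_lit 23323665)))
(L (nat_lit 20178959)))
(L (nat_lit 23892359)))
(L (nat_lit 25337553)))))
(S (nat_lit 20322) (S (nat_lit 30750) (S (nat_lit 43470) (S (nat_lit 32716) (S (nat_lit 14624) (S (nat_lit 49758) (L (nat_lit 22981809))
(L (nat_lit 9344622)))
(L (nat_lit 13981884)))
(S (nat_lit 41829) (L (nat_lit 9344622))
(L (nat_lit 7761604))))
(L (nat_lit 23866820)))
(L (nat_lit 24243591)))
(S (nat_lit 40086) (S (nat_lit 6591) (S (nat_lit 14645) (S (nat_lit 36835) (S (nat_lit 7844) (S (nat_lit 13180) (L (nat_lit 251388))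
(L (nat_lit 12943995)))
(L (nat_lit 23630697)))
(L (nat_lit 23357548)))
(L (nat_lit 22179206)))
(S (nat_lit 26355) (S (nat_lit 44454) (L (nat_lit 2897510))
(L (nat_lit 13389862)))
(S (nat_lit 46119) (S (nat_lit 9730) (L (nat_lit 30933574))
(L (nat_lit 17525830)))
(L (nat_lit 25473108)))))
(L (nat_lit 25511027)))))
(S (nat_lit 22963) (S (nat_lit 782) (S (nat_lit 13899) (S (nat_lit 43470) (S (nat_lit 13180) (S (nat_lit 807) (S (nat_lit 754) (S (nat_lit 5120) (L (nat_lit 28821673))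
(L (nat_lit 9006252)))
(L (nat_lit 12867739)))
(L (nat_lit 13333792)))
(L (nat_lit 13534921)))
(L (nat_lit 23506788)))
(S (nat_lit 33663) (S (nat_lit 33885) (S (nat_lit 2198) (S (nat_lit 11436) (S (nat_lit 15322) (S (nat_lit 52480) (L (nat_lit 23537476))
(L (nat_lit 20724004)))
(L (nat_lit 26905992)))
(L (nat_lit 23194991)))
(L (nat_lit 20180420)))
(L (nat_lit 5468565)))
(S (nat_lit 53427) (S (nat_lit 43470) (S (nat_lit 754) (S (nat_lit 34859) (S (nat_lit 30750) (L (nat_lit 16979643))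
(L (nat_lit 14593174)))
(L (nat_lit 7804667)))
(L (nat_lit 13425830)))
(L (nat_lit 23871780)))
(L (nat_lit 25796065)))))
(S (nat_lit 20546) (S (nat_lit 8789) (S (nat_lit 47116) (S (nat_lit 11436) (L (nat_lit 30519603))
(L (nat_lit 23293381)))
(L (nat_lit 3730711)))
(S (nat_lit 28553) (S (nat_lit 5034) (L (nat_lit 14380198))
(S (nat_lit 44454) (S (nat_lit 32716) (S (nat_lit 14594) (L (nat_lit 805255))
(L (nat_lit 9891525)))
(L (nat_lit 31045799)))
(L (nat_lit 13370675))))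
(S (nat_lit 48317) (S (nat_lit 54173) (S (nat_lit 14594) (S (nat_lit 8033) (L (nat_lit 29755764))
(L (nat_lit 12369637)))
(L (nat_lit 10206053)))
(L (nat_lit 9069957)))
(L (nat_lit 25927791)))))
(S (nat_lit 40310) (S (nat_lit 7366) (S (nat_lit 1975) (S (nat_lit 2950) (S (nat_lit 33633) (S (nat_lit 51922) (L (nat_lit 28738932))
(L (nat_lit 5830279)))
(L (nat_lit 12468961)))
(L (nat_lit 15335738)))
(L (nat_lit 6108839)))
(S (nat_lit 27130) (S (nat_lit 12952) (S (nat_lit 52657) (S (nat_lit 56375) (L (nat_lit 5890254))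
(L (nat_lit 5460815)))
(L (nat_lit 18541704)))
(L (nat_lit 11993818)))
(S (nat_lit 46894) (S (nat_lit 6370) (S (nat_lit 30750) (S (nat_lit 30246) (L (nat_lit 1913446))
(L (nat_lit 5495290)))
(L (nat_lit 9180847)))
(L (nat_lit 5959888)))
(L (nat_lit 25858507)))))
(L (nat_lit 25663177)))))
(S (nat_lit 42727) (S (nat_lit 7364) (S (nat_lit 17071) (S (nat_lit 18053) (S (nat_lit 34859) (L (nat_lit 22441990))
(L (nat_lit 23325056)))
(L (nat_lit 16698378)))
(S (nat_lit 36835) (S (nat_lit 43470) (S (nat_lit 8035) (S (nat_lit 30750) (S (nat_lit 11436) (L (nat_lit 2529915))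
(L (nat_lit 21097863)))
(L (nat_lit 13717350)))
(L (nat_lit 23496986)))
(L (nat_lit 23522658)))
(S (nat_lit 56599) (S (nat_lit 12394) (S (nat_lit 39556) (L (nat_lit 14452327))
(L (nat_lit 23363996)))
(L (nat_lit 23870503)))
(L (nat_lit 25680938)))))
(S (nat_lit 27128) (S (nat_lit 4446) (S (nat_lit 14594) (L (nat_lit 19086361))
(L (nat_lit 421480)))
(S (nat_lit 24210) (S (nat_lit 49060) (S (nat_lit 46117) (L (nat_lit 7954444))
(L (nat_lit 27744264)))
(L (nat_lit 14506022)))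
(S (nat_lit 43974) (S (nat_lit 30246) (S (nat_lit 12952) (L (nat_lit 7752761))
(L (nat_lit 23083322)))
(L (nat_lit 5662998)))
(L (nat_lit 25352743)))))
(S (nat_lit 46892) (S (nat_lit 2198) (S (nat_lit 11436) (S (nat_lit 9532) (S (nat_lit 6370) (S (nat_lit 58243) (S (nat_lit 34409) (L (nat_lit 11453463))
(L (nat_lit 23898129)))
(L (nat_lit 9617113)))
(L (nat_lit 20166682)))
(L (nat_lit 23323665)))
(L (nat_lit 23325711)))
(L (nat_lit 20178959)))
(L (nat_lit 25313927)))))
(L (nat_lit 25526929)))))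
(L (nat_lit 25382305)))))
(S (nat_lit 33142) (S (nat_lit 558) (S (nat_lit 13687) (S (nat_lit 10986) (S (nat_lit 7098) (S (nat_lit 1232) (S (nat_lit 10482) (L (nat_lit 20267032))
(L (nat_lit 16953016)))
(L (nat_lit 13381346)))
(L (nat_lit 14495395)))
(S (nat_lit 30750) (S (nat_lit 7588) (S (nat_lit 48317) (S (nat_lit 54122) (S (nat_lit 15322) (L (nat_lit 28822789))
(L (nat_lit 7886971)))
(L (nat_lit 5665384)))
(L (nat_lit 5842330)))
(S (nat_lit 27352) (S (nat_lit 20645) (L (nat_lit 5778137))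
(S (nat_lit 36083) (S (nat_lit 7844) (S (nat_lit 49258) (L (nat_lit 9530803))
(L (nat_lit 7888800)))
(L (nat_lit 5892553)))
(L (nat_lit 5825255))))
(S (nat_lit 47116) (S (nat_lit 28553) (S (nat_lit 25627) (S (nat_lit 29994) (L (nat_lit 15426726))
(L (nat_lit 31135918)))
(L (nat_lit 30933639)))
(L (nat_lit 30516629)))
(L (nat_lit 25867398)))))
(S (nat_lit 50514) (S (nat_lit 7098) (S (nat_lit 1232) (S (nat_lit 5186) (L (nat_lit 19678565))
(S (nat_lit 55593) (S (nat_lit 51922) (S (nat_lit 52678) (L (nat_lit 6816504))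
(L (nat_lit 21066959)))
(L (nat_lit 20509706)))
(L (nat_lit 14254429))))
(L (nat_lit 13807542)))
(S (nat_lit 26862) (S (nat_lit 49258) (S (nat_lit 47556) (S (nat_lit 27352) (L (nat_lit 13336921))
(L (nat_lit 5822808)))
(L (nat_lit 5676699)))
(L (nat_lit 20884997)))
(S (nat_lit 46626) (S (nat_lit 3199) (S (nat_lit 44648) (S (nat_lit 4446) (S (nat_lit 35086) (S (nat_lit 12394) (L (nat_lit 20286008))
(L (nat_lit 26526738)))
(L (nat_lit 31171971)))
(L (nat_lit 15888998)))
(L (nat_lit 6205164)))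
(L (nat_lit 16789179)))
(L (nat_lit 25220460)))))
(L (nat_lit 25767296)))))
(S (nat_lit 33451) (S (nat_lit 14121) (S (nat_lit 1472) (S (nat_lit 13740) (L (nat_lit 14469194))
(S (nat_lit 49258) (S (nat_lit 30750) (L (nat_lit 3615541))
(L (nat_lit 14395548)))
(L (nat_lit 20072358))))
(S (nat_lit 21236) (S (nat_lit 40335) (S (nat_lit 56599) (S (nat_lit 40760) (S (nat_lit 28) (S (nat_lit 42478) (S (nat_lit 9068) (L (nat_lit 24507937))
(L (nat_lit 23442620)))
(L (nat_lit 23177721)))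
(L (nat_lit 663310)))
(L (nat_lit 7795392)))
(L (nat_lit 18919180)))
(L (nat_lit 16966344)))
(S (nat_lit 41000) (S (nat_lit 16847) (S (nat_lit 18715) (S (nat_lit 49258) (L (nat_lit 27407639))
(L (nat_lit 14315845)))
(L (nat_lit 9167268)))
(S (nat_lit 55714) (L (nat_lit 8837889))
(L (nat_lit 22453125))))
(L (nat_lit 25791825)))))
(S (nat_lit 33885) (S (nat_lit 1525) (S (nat_lit 32716) (S (nat_lit 47116) (L (nat_lit 5944198))
(L (nat_lit 9984869)))
(S (nat_lit 45927) (L (nat_lit 12846748))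
(L (nat_lit 1470151))))
(S (nat_lit 21289) (S (nat_lit 27799) (L (nat_lit 20483418))
(L (nat_lit 31140014)))
(S (nat_lit 41053) (S (nat_lit 53457) (S (nat_lit 12394) (L (nat_lit 13412032))
(L (nat_lit 23897571)))
(L (nat_lit 6050344)))
(L (nat_lit 25711690)))))
(S (nat_lit 53649) (S (nat_lit 6845) (S (nat_lit 33693) (S (nat_lit 22963) (L (nat_lit 21765292))
(L (nat_lit 6046932)))
(L (nat_lit 23250794)))
(S (nat_lit 26609) (S (nat_lit 37817) (S (nat_lit 33693) (L (nat_lit 19938616))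
(L (nat_lit 23892268)))
(L (nat_lit 9533068)))
(S (nat_lit 46373) (S (nat_lit 21289) (S (nat_lit 23484) (L (nat_lit 20998696))
(L (nat_lit 3432368)))
(L (nat_lit 3915530)))
(L (nat_lit 25927696)))))
(L (nat_lit 25386060)))))
(S (nat_lit 53215) (S (nat_lit 7098) (S (nat_lit 14645) (S (nat_lit 26134) (S (nat_lit 54122) (L (nat_lit 14289274))
(L (nat_lit 6208102)))
(L (nat_lit 14327832)))
(S (nat_lit 34409) (S (nat_lit 59013) (L (nat_lit 2794319))
(L (nat_lit 27707749)))
(S (nat_lit 54173) (S (nat_lit 43248) (S (nat_lit 50514) (L (nat_lit 18588857))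
(L (nat_lit 6077031)))
(L (nat_lit 6052174)))
(L (nat_lit 25733861)))))
(S (nat_lit 26862) (S (nat_lit 782) (S (nat_lit 55555) (L (nat_lit 13916188))
(S (nat_lit 57103) (S (nat_lit 22963) (S (nat_lit 41503) (S (nat_lit 14903) (S (nat_lit 49258) (L (nat_lit 4040148))
(L (nat_lit 20279813)))
(L (nat_lit 3035686)))
(L (nat_lit 25046465)))
(L (nat_lit 13268325)))
(L (nat_lit 13381186))))
(S (nat_lit 20546) (S (nat_lit 56275) (L (nat_lit 26253900))
(S (nat_lit 57103) (S (nat_lit 41984) (S (nat_lit 55847) (S (nat_lit 17071) (S (nat_lit 24690) (L (nat_lit 19001711))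
(L (nat_lit 30490898)))
(L (nat_lit 12456588)))
(L (nat_lit 19809539)))
(L (nat_lit 3692920)))
(L (nat_lit 13184188))))
(S (nat_lit 40310) (S (nat_lit 18715) (S (nat_lit 23706) (S (nat_lit 21962) (L (nat_lit 11423269))
(L (nat_lit 9921124)))
(L (nat_lit 6008718)))
(L (nat_lit 9192598)))
(L (nat_lit 25680007)))))
(S (nat_lit 46626) (S (nat_lit 10230) (S (nat_lit 41984) (S (nat_lit 41025) (S (nat_lit 41000) (L (nat_lit 10240022))
(L (nat_lit 9354359)))
(L (nat_lit 9092992)))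
(L (nat_lit 23314177)))
(S (nat_lit 29994) (S (nat_lit 50514) (S (nat_lit 41984) (S (nat_lit 55847) (L (nat_lit 4810093))
(L (nat_lit 4075183)))
(L (nat_lit 14266113)))
(L (nat_lit 14994619)))
(S (nat_lit 49758) (S (nat_lit 5591) (S (nat_lit 41984) (S (nat_lit 13150) (L (nat_lit 631290))
(L (nat_lit 22503433)))
(L (nat_lit 23538433)))
(L (nat_lit 3713815)))
(L (nat_lit 25532014)))))
(L (nat_lit 25209366)))))
(L (nat_lit 25690483)))))
(S (nat_lit 20322) (S (nat_lit 7364) (S (nat_lit 6845) (S (nat_lit 29494) (S (nat_lit 44648) (S (nat_lit 43470) (S (nat_lit 7368) (S (nat_lit 40282) (L (nat_lit 29919946))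
(L (nat_lit 10065678)))
(L (nat_lit 13506152)))
(L (nat_lit 14427746)))
(L (nat_lit 13212421)))
(S (nat_lit 56498) (L (nat_lit 23426061))
(L (nat_lit 5976966))))
(S (nat_lit 26609) (S (nat_lit 46896) (S (nat_lit 29494) (S (nat_lit 30750) (S (nat_lit 43470) (S (nat_lit 44648) (S (nat_lit 32893) (L (nat_lit 3861740))
(L (nat_lit 10125848)))
(L (nat_lit 5825783)))
(L (nat_lit 23196976)))
(L (nat_lit 10196378)))
(S (nat_lit 49180) (L (nat_lit 21332537))
(L (nat_lit 5726086))))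
(L (nat_lit 20111660)))
(S (nat_lit 46373) (S (nat_lit 2198) (S (nat_lit 9068) (S (nat_lit 42727) (L (nat_lit 17555623))
(L (nat_lit 23998475)))
(L (nat_lit 17476796)))
(S (nat_lit 21962) (S (nat_lit 13150) (L (nat_lit 28452465))
(L (nat_lit 14358586)))
(S (nat_lit 41726) (S (nat_lit 29494) (S (nat_lit 57581) (S (nat_lit 41000) (S (nat_lit 13180) (L (nat_lit 16420157))
(L (nat_lit 7497423)))
(L (nat_lit 5624720)))
(L (nat_lit 21000586)))
(L (nat_lit 13309830)))
(L (nat_lit 25699941)))))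
(L (nat_lit 25174769)))))
(S (nat_lit 27128) (S (nat_lit 11732) (S (nat_lit 11789) (L (nat_lit 20983726))
(S (nat_lit 30750) (S (nat_lit 38446) (L (nat_lit 16329572))
(S (nat_lit 43470) (S (nat_lit 41503) (S (nat_lit 18715) (S (nat_lit 33451) (S (nat_lit 17575) (L (nat_lit 7229956))
(L (nat_lit 405398)))
(L (nat_lit 8939076)))
(L (nat_lit 6012283)))
(L (nat_lit 23325742)))
(L (nat_lit 3876317))))
(L (nat_lit 13741692))))
(S (nat_lit 31496) (S (nat_lit 36835) (S (nat_lit 13281) (L (nat_lit 23956007))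
(S (nat_lit 42727) (S (nat_lit 37339) (S (nat_lit 29296) (S (nat_lit 27132) (L (nat_lit 5498606))
(L (nat_lit 30657708)))
(L (nat_lit 30658604)))
(L (nat_lit 8573336)))
(L (nat_lit 27438732))))
(S (nat_lit 55763) (L (nat_lit 23897132))
(L (nat_lit 6086119))))
(S (nat_lit 51260) (S (nat_lit 2456) (S (nat_lit 11828) (L (nat_lit 30934291))
(S (nat_lit 42478) (S (nat_lit 40335) (S (nat_lit 24210) (L (nat_lit 8547859))
(L (nat_lit 30813761)))
(L (nat_lit 9619165)))
(L (nat_lit 10258124))))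
(S (nat_lit 22220) (S (nat_lit 18715) (S (nat_lit 54122) (S (nat_lit 26609) (L (nat_lit 3917607))
(L (nat_lit 9919675)))
(L (nat_lit 8447697)))
(L (nat_lit 5955792)))
(S (nat_lit 41984) (S (nat_lit 36083) (S (nat_lit 46894) (S (nat_lit 1472) (L (nat_lit 6085932))
(L (nat_lit 13209414)))
(L (nat_lit 5555090)))
(L (nat_lit 5883783)))
(L (nat_lit 25647147)))))
(L (nat_lit 25648233)))))
(S (nat_lit 46892) (S (nat_lit 7098) (S (nat_lit 14645) (S (nat_lit 44648) (S (nat_lit 29494) (L (nat_lit 17475365))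
(L (nat_lit 6178438)))
(L (nat_lit 13217541)))
(S (nat_lit 34409) (S (nat_lit 21236) (S (nat_lit 26360) (L (nat_lit 13389061))
(L (nat_lit 19163653)))
(L (nat_lit 16111525)))
(S (nat_lit 54173) (S (nat_lit 54152) (S (nat_lit 18715) (S (nat_lit 31496) (S (nat_lit 30246) (S (nat_lit 782) (L (nat_lit 28712116))
(L (nat_lit 8871845)))
(L (nat_lit 796270)))
(L (nat_lit 14539973)))
(L (nat_lit 5588699)))
(L (nat_lit 27999429)))
(L (nat_lit 25733796)))))
(S (nat_lit 26862) (S (nat_lit 15322) (S (nat_lit 1776) (S (nat_lit 49060) (L (nat_lit 13785402))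
(L (nat_lit 10309644)))
(S (nat_lit 5000) (L (nat_lit 9584281))
(L (nat_lit 4954956))))
(S (nat_lit 35086) (S (nat_lit 18237) (S (nat_lit 19820) (S (nat_lit 50010) (S (nat_lit 12394) (S (nat_lit 24210) (L (nat_lit 15029306))
(L (nat_lit 9922144)))
(L (nat_lit 21775367)))
(L (nat_lit 20328260)))
(L (nat_lit 30939749)))
(L (nat_lit 9093984)))
(S (nat_lit 54850) (S (nat_lit 24210) (S (nat_lit 18715) (L (nat_lit 1304051))
(L (nat_lit 5941690)))
(L (nat_lit 14396476)))
(L (nat_lit 25414764)))))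
(S (nat_lit 46626) (S (nat_lit 807) (S (nat_lit 3199) (S (nat_lit 18715) (S (nat_lit 40760) (L (nat_lit 23184600))
(L (nat_lit 16947928)))
(L (nat_lit 11257668)))
(S (nat_lit 12358) (L (nat_lit 13347682))
(L (nat_lit 20283962))))
(S (nat_lit 20571) (S (nat_lit 53427) (S (nat_lit 18715) (L (nat_lit 11662029))
(L (nat_lit 5947206)))
(L (nat_lit 10261196)))
(S (nat_lit 40335) (S (nat_lit 1232) (S (nat_lit 40310) (S (nat_lit 33451) (S (nat_lit 56) (L (nat_lit 21775588))
(L (nat_lit 14377157)))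
(L (nat_lit 23620961)))
(L (nat_lit 17948423)))
(L (nat_lit 5892400)))
(L (nat_lit 25346792)))))
(L (nat_lit 25461420)))))
(L (nat_lit 25727253)))))
(S (nat_lit 40086) (S (nat_lit 13129) (S (nat_lit 14903) (S (nat_lit 1006) (S (nat_lit 13150) (S (nat_lit 13180) (S (nat_lit 31946) (S (nat_lit 7364) (S (nat_lit 53215) (S (nat_lit 47372) (S (nat_lit 44648) (L (nat_lit 17032800))
(L (nat_lit 23955758)))
(L (nat_lit 548745)))
(L (nat_lit 2712073)))
(L (nat_lit 26748613)))
(L (nat_lit 14247977)))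
(L (nat_lit 22577435)))
(L (nat_lit 13436118)))
(L (nat_lit 14345254)))
(S (nat_lit 34667) (S (nat_lit 32944) (S (nat_lit 39782) (S (nat_lit 43248) (S (nat_lit 38102) (L (nat_lit 26663237))
(L (nat_lit 13534825)))
(L (nat_lit 9158432)))
(L (nat_lit 23281571)))
(L (nat_lit 23889199)))
(S (nat_lit 54431) (S (nat_lit 16065) (S (nat_lit 46896) (S (nat_lit 30246) (L (nat_lit 13232168))
(L (nat_lit 807182)))
(L (nat_lit 10150029)))
(S (nat_lit 35829) (S (nat_lit 5733) (L (nat_lit 312026))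
(S (nat_lit 14624) (S (nat_lit 32914) (S (nat_lit 16847) (S (nat_lit 46626) (S (nat_lit 20571) (S (nat_lit 12952) (S (nat_lit 45391) (L (nat_lit 4506484))
(L (nat_lit 24198393)))
(L (nat_lit 23265851)))
(L (nat_lit 14933180)))
(L (nat_lit 485991)))
(L (nat_lit 25050248)))
(L (nat_lit 23148424)))
(L (nat_lit 13887666))))
(S (nat_lit 55593) (S (nat_lit 20770) (S (nat_lit 13180) (L (nat_lit 4895034))
(L (nat_lit 6850171)))
(L (nat_lit 797422)))
(L (nat_lit 25798672)))))
(L (nat_lit 25827377)))))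
(S (nat_lit 32893) (S (nat_lit 6589) (S (nat_lit 9068) (S (nat_lit 14624) (S (nat_lit 1525) (L (nat_lit 10138809))
(L (nat_lit 13347683)))
(L (nat_lit 14503080)))
(S (nat_lit 28832) (S (nat_lit 9532) (S (nat_lit 5120) (L (nat_lit 23432765))
(L (nat_lit 798414)))
(S (nat_lit 41165) (L (nat_lit 5825746))
(L (nat_lit 26661123))))
(S (nat_lit 48596) (S (nat_lit 57765) (S (nat_lit 26862) (S (nat_lit 10986) (L (nat_lit 21928111))
(L (nat_lit 783815)))
(L (nat_lit 31174149)))
(L (nat_lit 13348736)))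
(L (nat_lit 25495277)))))
(S (nat_lit 26353) (S (nat_lit 9068) (S (nat_lit 49060) (S (nat_lit 37339) (L (nat_lit 20841676))
(L (nat_lit 20295869)))
(L (nat_lit 14330723)))
(S (nat_lit 28832) (S (nat_lit 6845) (S (nat_lit 32944) (L (nat_lit 10191632))
(L (nat_lit 8548974)))
(L (nat_lit 23587107)))
(S (nat_lit 48596) (S (nat_lit 8035) (S (nat_lit 45119) (S (nat_lit 56599) (L (nat_lit 29956517))
(L (nat_lit 3661642)))
(L (nat_lit 24034473)))
(L (nat_lit 23117083)))
(L (nat_lit 25593579)))))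
(S (nat_lit 46117) (S (nat_lit 11732) (S (nat_lit 44648) (S (nat_lit 45391) (S (nat_lit 40335) (L (nat_lit 4889357))
(L (nat_lit 5499596)))
(L (nat_lit 23889319)))
(L (nat_lit 6207177)))
(S (nat_lit 31496) (S (nat_lit 44648) (S (nat_lit 18715) (L (nat_lit 29560430))
(L (nat_lit 9148269)))
(L (nat_lit 10062606)))
(S (nat_lit 51260) (S (nat_lit 3720) (L (nat_lit 6024526))
(L (nat_lit 19798126)))
(L (nat_lit 25412324)))))
(L (nat_lit 25285000)))))
(S (nat_lit 52657) (S (nat_lit 2198) (S (nat_lit 16319) (S (nat_lit 21289) (S (nat_lit 14121) (S (nat_lit 41984) (L (nat_lit 24642940))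
(L (nat_lit 10948438)))
(L (nat_lit 26424471)))
(L (nat_lit 14897923)))
(S (nat_lit 36083) (S (nat_lit 12394) (S (nat_lit 47563) (L (nat_lit 454002))
(L (nat_lit 20318983)))
(L (nat_lit 23856493)))
(S (nat_lit 55847) (S (nat_lit 39556) (S (nat_lit 53457) (L (nat_lit 20105064))
(L (nat_lit 6048266)))
(L (nat_lit 12354126)))
(L (nat_lit 25728679)))))
(S (nat_lit 21962) (S (nat_lit 17575) (S (nat_lit 43248) (S (nat_lit 14645) (S (nat_lit 26134) (L (nat_lit 13886052))
(L (nat_lit 30857226)))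
(L (nat_lit 12806162)))
(L (nat_lit 6023406)))
(S (nat_lit 37339) (S (nat_lit 54152) (S (nat_lit 15095) (S (nat_lit 20018) (L (nat_lit 16360635))
(L (nat_lit 8540571)))
(L (nat_lit 22274225)))
(L (nat_lit 27377224)))
(S (nat_lit 57103) (S (nat_lit 31842) (L (nat_lit 14504102))
(S (nat_lit 52708) (S (nat_lit 20770) (L (nat_lit 23257293))
(L (nat_lit 30591278)))
(L (nat_lit 11142652))))
(L (nat_lit 25643145)))))
(S (nat_lit 41726) (S (nat_lit 46894) (S (nat_lit 21261) (S (nat_lit 27352) (S (nat_lit 50010) (L (nat_lit 22101768))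
(L (nat_lit 22254350)))
(L (nat_lit 30660686)))
(L (nat_lit 10609292)))
(L (nat_lit 5499378)))
(L (nat_lit 25692746)))))
(L (nat_lit 25376387)))))
(L (nat_lit 25255116)))))
(S (nat_lit 52906) (S (nat_lit 10482) (S (nat_lit 2456) (S (nat_lit 782) (S (nat_lit 8033) (S (nat_lit 36611) (S (nat_lit 36835) (L (nat_lit 10032636))
(L (nat_lit 20146661)))
(L (nat_lit 23346329)))
(S (nat_lit 27797) (S (nat_lit 52480) (S (nat_lit 33663) (S (nat_lit 42478) (S (nat_lit 36611) (S (nat_lit 41503) (L (nat_lit 28983649))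
(L (nat_lit 27610596)))
(L (nat_lit 31072741)))
(L (nat_lit 4405977)))
(L (nat_lit 3625340)))
(L (nat_lit 27460304)))
(S (nat_lit 47561) (S (nat_lit 17071) (S (nat_lit 30750) (L (nat_lit 13724358))
(L (nat_lit 17097878)))
(L (nat_lit 11985477)))
(L (nat_lit 25566789)))))
(S (nat_lit 20546) (S (nat_lit 18715) (S (nat_lit 18237) (S (nat_lit 47116) (L (nat_lit 4046538))
(L (nat_lit 3946187)))
(L (nat_lit 16521921)))
(S (nat_lit 38479) (S (nat_lit 9068) (S (nat_lit 46626) (S (nat_lit 30750) (L (nat_lit 14521031))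
(L (nat_lit 30840182)))
(L (nat_lit 17706597)))
(L (nat_lit 26914337)))
(S (nat_lit 58243) (S (nat_lit 49060) (S (nat_lit 18237) (L (nat_lit 17008344))
(L (nat_lit 18614986)))
(L (nat_lit 4714187)))
(L (nat_lit 25509476)))))
(S (nat_lit 40310) (S (nat_lit 12394) (S (nat_lit 4446) (S (nat_lit 27352) (S (nat_lit 34358) (S (nat_lit 41503) (S (nat_lit 558) (L (nat_lit 16649863))
(L (nat_lit 12933925)))
(L (nat_lit 24358969)))
(L (nat_lit 10541561)))
(L (nat_lit 5790040)))
(L (nat_lit 17979608)))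
(S (nat_lit 54714) (L (nat_lit 10258128))
(L (nat_lit 1890855))))
(L (nat_lit 25254129)))))
(S (nat_lit 22220) (S (nat_lit 8789) (S (nat_lit 1006) (S (nat_lit 14903) (S (nat_lit 44648) (S (nat_lit 20018) (S (nat_lit 1497) (L (nat_lit 1302013))
(L (nat_lit 19999565)))
(L (nat_lit 5454679)))
(L (nat_lit 13198628)))
(L (nat_lit 12800897)))
(S (nat_lit 20770) (S (nat_lit 44648) (S (nat_lit 29494) (L (nat_lit 30643918))
(L (nat_lit 17910603)))
(L (nat_lit 24021294)))
(S (nat_lit 40534) (S (nat_lit 33693) (S (nat_lit 28832) (L (nat_lit 16508164))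
(L (nat_lit 17886515)))
(L (nat_lit 23302716)))
(L (nat_lit 25867488)))))
(S (nat_lit 28553) (S (nat_lit 254) (S (nat_lit 20518) (S (nat_lit 57581) (S (nat_lit 4926) (S (nat_lit 1497) (S (nat_lit 6596) (L (nat_lit 28456553))
(L (nat_lit 13490314)))
(L (nat_lit 20004185)))
(L (nat_lit 20325529)))
(L (nat_lit 27665490)))
(L (nat_lit 22423330)))
(S (nat_lit 54066) (L (nat_lit 3401204))
(L (nat_lit 26459745))))
(S (nat_lit 48317) (S (nat_lit 10986) (S (nat_lit 13899) (S (nat_lit 56375) (L (nat_lit 7144951))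
(L (nat_lit 21258725)))
(L (nat_lit 13313145)))
(S (nat_lit 30750) (S (nat_lit 33451) (S (nat_lit 43470) (S (nat_lit 41053) (S (nat_lit 6591) (L (nat_lit 19016189))
(L (nat_lit 21431577)))
(L (nat_lit 5455513)))
(L (nat_lit 23866882)))
(L (nat_lit 20459361)))
(S (nat_lit 50514) (S (nat_lit 15322) (L (nat_lit 10597207))
(L (nat_lit 26971441)))
(L (nat_lit 25761158)))))
(L (nat_lit 25240303)))))
(S (nat_lit 41984) (S (nat_lit 807) (S (nat_lit 1472) (S (nat_lit 41503) (S (nat_lit 7844) (S (nat_lit 43470) (S (nat_lit 45391) (L (nat_lit 28640661))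
(L (nat_lit 23496028)))
(L (nat_lit 14487858)))
(L (nat_lit 11190082)))
(L (nat_lit 24450958)))
(S (nat_lit 21236) (S (nat_lit 46894) (S (nat_lit 31946) (L (nat_lit 14412036))
(L (nat_lit 19303801)))
(L (nat_lit 20177006)))
(S (nat_lit 41000) (S (nat_lit 34409) (S (nat_lit 34859) (L (nat_lit 22193593))
(L (nat_lit 24032544)))
(S (nat_lit 53100) (L (nat_lit 23631995))
(L (nat_lit 23355813))))
(L (nat_lit 25791729)))))
(S (nat_lit 20571) (S (nat_lit 46894) (S (nat_lit 41503) (S (nat_lit 21261) (S (nat_lit 254) (S (nat_lit 11732) (S (nat_lit 20518) (L (nat_lit 2680395))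
(L (nat_lit 4005583)))
(L (nat_lit 253372)))
(L (nat_lit 20152764)))
(L (nat_lit 22265600)))
(L (nat_lit 2346895)))
(L (nat_lit 4446095)))
(S (nat_lit 40335) (S (nat_lit 24721) (L (nat_lit 14247083))
(S (nat_lit 45898) (S (nat_lit 41503) (S (nat_lit 49060) (S (nat_lit 41304) (L (nat_lit 24918123))
(L (nat_lit 3693353)))
(L (nat_lit 15978521)))
(L (nat_lit 24359993)))
(L (nat_lit 2351853))))
(L (nat_lit 25694451)))))
(L (nat_lit 25693526)))))
(S (nat_lit 30246) (S (nat_lit 254) (S (nat_lit 3942) (S (nat_lit 44454) (S (nat_lit 29494) (S (nat_lit 6589) (S (nat_lit 43974) (L (nat_lit 4680978))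
(L (nat_lit 10664883)))
(L (nat_lit 7426862)))
(L (nat_lit 18571525)))
(S (nat_lit 54959) (L (nat_lit 16884535))
(L (nat_lit 2843919))))
(S (nat_lit 23706) (S (nat_lit 52480) (S (nat_lit 42478) (S (nat_lit 44454) (L (nat_lit 10938487))
(L (nat_lit 13370675)))
(L (nat_lit 7453460)))
(L (nat_lit 795344)))
(S (nat_lit 43470) (S (nat_lit 30750) (S (nat_lit 13324) (S (nat_lit 44648) (L (nat_lit 5945193))
(L (nat_lit 24021294)))
(S (nat_lit 39556) (S (nat_lit 45119) (S (nat_lit 8035) (S (nat_lit 43248) (S (nat_lit 44648) (L (nat_lit 648558))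
(L (nat_lit 24025262)))
(L (nat_lit 23206702)))
(L (nat_lit 13372010)))
(L (nat_lit 2453070)))
(L (nat_lit 16871017))))
(L (nat_lit 2374268)))
(L (nat_lit 25365011)))))
(S (nat_lit 20018) (S (nat_lit 1006) (S (nat_lit 19485) (S (nat_lit 9135) (L (nat_lit 8815475))
(S (nat_lit 49060) (S (nat_lit 36611) (S (nat_lit 27792) (L (nat_lit 30774926))
(L (nat_lit 3582620)))
(L (nat_lit 30555410)))
(L (nat_lit 5677785))))
(S (nat_lit 39249) (S (nat_lit 7368) (S (nat_lit 36611) (L (nat_lit 2354740))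
(L (nat_lit 10940036)))
(S (nat_lit 27747) (L (nat_lit 30854497))
(L (nat_lit 13538612))))
(S (nat_lit 59013) (S (nat_lit 13687) (S (nat_lit 6845) (L (nat_lit 4049263))
(L (nat_lit 26982657)))
(L (nat_lit 12963867)))
(L (nat_lit 25600677)))))
(S (nat_lit 20770) (S (nat_lit 44648) (S (nat_lit 20518) (S (nat_lit 29494) (S (nat_lit 47563) (S (nat_lit 13687) (S (nat_lit 43470) (S (nat_lit 5591) (L (nat_lit 28362070))
(L (nat_lit 20712935)))
(L (nat_lit 23177134)))
(L (nat_lit 22376463)))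
(L (nat_lit 20352839)))
(L (nat_lit 732632)))
(L (nat_lit 30807348)))
(L (nat_lit 24021294)))
(S (nat_lit 40534) (S (nat_lit 20518) (S (nat_lit 44648) (S (nat_lit 54850) (S (nat_lit 13687) (L (nat_lit 15902424))
(L (nat_lit 3527598)))
(L (nat_lit 5485180)))
(L (nat_lit 5100846)))
(L (nat_lit 22045998)))
(L (nat_lit 25340655)))))
(S (nat_lit 39782) (S (nat_lit 7366) (S (nat_lit 9532) (S (nat_lit 21739) (S (nat_lit 34409) (S (nat_lit 5863) (L (nat_lit 7487287))
(L (nat_lit 17934010)))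
(L (nat_lit 23346235)))
(L (nat_lit 10973332)))
(S (nat_lit 29296) (S (nat_lit 21739) (S (nat_lit 19485) (S (nat_lit 43974) (S (nat_lit 31496) (L (nat_lit 30554730))
(L (nat_lit 30879461)))
(L (nat_lit 6052391)))
(L (nat_lit 24376497)))
(S (nat_lit 41200) (L (nat_lit 18056021))
(L (nat_lit 11177742))))
(S (nat_lit 49060) (S (nat_lit 25627) (S (nat_lit 50964) (S (nat_lit 27608) (L (nat_lit 3054069))
(L (nat_lit 30722498)))
(L (nat_lit 27515921)))
(S (nat_lit 55964) (L (nat_lit 3599945))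
(L (nat_lit 30657026))))
(L (nat_lit 25805122)))))
(S (nat_lit 27130) (S (nat_lit 4330) (L (nat_lit 24348593))
(S (nat_lit 57977) (S (nat_lit 32893) (L (nat_lit 26444244))
(L (nat_lit 2348910)))
(L (nat_lit 23315578))))
(S (nat_lit 46894) (S (nat_lit 41503) (L (nat_lit 14914452))
(L (nat_lit 24350172)))
(L (nat_lit 25316838)))))
(L (nat_lit 25580769)))))
(S (nat_lit 50010) (S (nat_lit 9730) (S (nat_lit 7366) (S (nat_lit 254) (L (nat_lit 26289838))
(S (nat_lit 20018) (S (nat_lit 26353) (S (nat_lit 5591) (L (nat_lit 3972599))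
(L (nat_lit 15994679)))
(L (nat_lit 9175758)))
(S (nat_lit 39782) (L (nat_lit 2349531))
(L (nat_lit 25415761)))))
(S (nat_lit 27130) (S (nat_lit 13150) (S (nat_lit 17828) (L (nat_lit 21808233))
(S (nat_lit 51260) (S (nat_lit 1975) (S (nat_lit 40086) (S (nat_lit 17575) (S (nat_lit 20770) (L (nat_lit 454282))
(L (nat_lit 22818854)))
(L (nat_lit 7817403)))
(L (nat_lit 11290181)))
(L (nat_lit 3400334)))
(L (nat_lit 20178030))))
(S (nat_lit 32914) (S (nat_lit 36611) (S (nat_lit 10230) (S (nat_lit 1975) (L (nat_lit 21802030))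
(L (nat_lit 3826927)))
(L (nat_lit 23861424)))
(L (nat_lit 2387444)))
(S (nat_lit 52678) (S (nat_lit 44648) (S (nat_lit 53215) (S (nat_lit 20518) (L (nat_lit 15372666))
(L (nat_lit 12457710)))
(L (nat_lit 12190478)))
(L (nat_lit 5100846)))
(L (nat_lit 25449890)))))
(S (nat_lit 46894) (S (nat_lit 8286) (S (nat_lit 15322) (S (nat_lit 26353) (L (nat_lit 2866059))
(L (nat_lit 9175758)))
(L (nat_lit 7095906)))
(S (nat_lit 28050) (S (nat_lit 40534) (S (nat_lit 41984) (L (nat_lit 10499803))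
(L (nat_lit 27733111)))
(L (nat_lit 27926638)))
(S (nat_lit 47814) (S (nat_lit 33885) (S (nat_lit 41984) (L (nat_lit 3392274))
(L (nat_lit 24260367)))
(L (nat_lit 23868676)))
(L (nat_lit 25827844)))))
(L (nat_lit 25858415)))))
(S (nat_lit 29494) (S (nat_lit 17071) (S (nat_lit 26862) (S (nat_lit 53215) (S (nat_lit 30068) (L (nat_lit 18616628))
(S (nat_lit 34667) (S (nat_lit 55847) (S (nat_lit 14121) (S (nat_lit 47372) (S (nat_lit 57103) (S (nat_lit 34859) (S (nat_lit 9068) (S (nat_lit 1472) (S (nat_lit 30750) (S (nat_lit 40760) (S (nat_lit 44648) (S (nat_lit 18053) (L (nat_lit 7467447))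
(L (nat_lit 7956928)))
(L (nat_lit 13553957)))
(L (nat_lit 7459664)))
(L (nat_lit 30718560)))
(S (nat_lit 21236) (S (nat_lit 44648) (S (nat_lit 51260) (S (nat_lit 47556) (S (nat_lit 27797) (L (nat_lit 10500794))
(L (nat_lit 24414992)))
(L (nat_lit 8817307)))
(L (nat_lit 27662419)))
(L (nat_lit 9932567)))
(S (nat_lit 41000) (S (nat_lit 52678) (S (nat_lit 5863) (S (nat_lit 59013) (S (nat_lit 30750) (L (nat_lit 10569405))
(L (nat_lit 14249312)))
(L (nat_lit 27898149)))
(L (nat_lit 15853194)))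
(L (nat_lit 11426830)))
(L (nat_lit 25562359)))))
(L (nat_lit 17428769)))
(L (nat_lit 20722978)))
(L (nat_lit 27864515)))
(L (nat_lit 20486946)))
(L (nat_lit 22197529)))
(L (nat_lit 27820306)))
(L (nat_lit 5785819))))
(L (nat_lit 21507908)))
(L (nat_lit 16690789)))
(S (nat_lit 36835) (S (nat_lit 15322) (S (nat_lit 51922) (S (nat_lit 30750) (L (nat_lit 14412968))
(L (nat_lit 31174080)))
(L (nat_lit 13247513)))
(S (nat_lit 35086) (S (nat_lit 26353) (S (nat_lit 8028) (L (nat_lit 30584527))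
(L (nat_lit 10238592)))
(L (nat_lit 3955113)))
(S (nat_lit 54850) (S (nat_lit 18237) (S (nat_lit 55847) (S (nat_lit 12394) (S (nat_lit 30750) (S (nat_lit 38479) (S (nat_lit 36611) (L (nat_lit 12128763))
(L (nat_lit 13242649)))
(L (nat_lit 1405549)))
(L (nat_lit 14593633)))
(L (nat_lit 20981306)))
(L (nat_lit 1464600)))
(L (nat_lit 18582344)))
(L (nat_lit 25929090)))))
(S (nat_lit 56599) (S (nat_lit 3942) (S (nat_lit 36859) (L (nat_lit 29860886))
(S (nat_lit 48596) (S (nat_lit 34358) (S (nat_lit 36611) (L (nat_lit 6976687))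
(L (nat_lit 23501605)))
(L (nat_lit 11190181)))
(L (nat_lit 14505130))))
(S (nat_lit 23706) (S (nat_lit 55847) (S (nat_lit 14121) (S (nat_lit 754) (L (nat_lit 13310107))
(L (nat_lit 357070)))
(L (nat_lit 11232396)))
(L (nat_lit 15904442)))
(S (nat_lit 43470) (S (nat_lit 20518) (S (nat_lit 44648) (S (nat_lit 34358) (S (nat_lit 30750) (S (nat_lit 24210) (S (nat_lit 38479) (L (nat_lit 6470362))
(L (nat_lit 30596619)))
(L (nat_lit 13987425)))
(L (nat_lit 13921889)))
(L (nat_lit 11357668)))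
(L (nat_lit 24021294)))
(S (nat_lit 31825) (L (nat_lit 1625370))
(L (nat_lit 3567307))))
(L (nat_lit 25218507)))))
(L (nat_lit 25666614)))))
(S (nat_lit 49258) (S (nat_lit 13869) (S (nat_lit 16065) (S (nat_lit 51260) (S (nat_lit 41503) (L (nat_lit 10570638))
(L (nat_lit 356014)))
(L (nat_lit 27515982)))
(S (nat_lit 35829) (S (nat_lit 27130) (S (nat_lit 8789) (S (nat_lit 13687) (L (nat_lit 24685692))
(L (nat_lit 7262223)))
(L (nat_lit 1656092)))
(L (nat_lit 3728599)))
(S (nat_lit 55593) (S (nat_lit 39249) (S (nat_lit 56) (L (nat_lit 29038604))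
(L (nat_lit 13984822)))
(L (nat_lit 13985507)))
(L (nat_lit 25894958)))))
(S (nat_lit 33633) (S (nat_lit 16065) (S (nat_lit 1975) (S (nat_lit 20518) (S (nat_lit 27130) (L (nat_lit 13280281))
(L (nat_lit 11691479)))
(L (nat_lit 4005583)))
(L (nat_lit 4040334)))
(S (nat_lit 35829) (S (nat_lit 4926) (S (nat_lit 13687) (S (nat_lit 36835) (L (nat_lit 13862805))
(L (nat_lit 8183269)))
(L (nat_lit 7262222)))
(L (nat_lit 18175813)))
(S (nat_lit 55593) (S (nat_lit 4926) (S (nat_lit 13929) (L (nat_lit 14354182))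
(L (nat_lit 13805209)))
(L (nat_lit 3927463)))
(L (nat_lit 25376823)))))
(S (nat_lit 53397) (S (nat_lit 12182) (S (nat_lit 41000) (S (nat_lit 20018) (L (nat_lit 8843317))
(L (nat_lit 5678683)))
(L (nat_lit 6203863)))
(S (nat_lit 31946) (S (nat_lit 30750) (S (nat_lit 39249) (L (nat_lit 3915035))
(L (nat_lit 13861564)))
(L (nat_lit 14429856)))
(S (nat_lit 51710) (S (nat_lit 20518) (S (nat_lit 50514) (S (nat_lit 49758) (L (nat_lit 2865531))
(L (nat_lit 20888832)))
(L (nat_lit 20852096)))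
(L (nat_lit 22030126)))
(L (nat_lit 25935202)))))
(L (nat_lit 25612544)))))
(L (nat_lit 25899333)))))
(L (nat_lit 25175476)))))
(L (nat_lit 25376787)))))
(S (nat_lit 55101) (S (nat_lit 17575) (S (nat_lit 14645) (S (nat_lit 18715) (S (nat_lit 7366) (S (nat_lit 7261) (L (nat_lit 22842734))
(S (nat_lit 46626) (S (nat_lit 3199) (S (nat_lit 11732) (S (nat_lit 11436) (S (nat_lit 21739) (S (nat_lit 24884) (S (nat_lit 26360) (S (nat_lit 34358) (S (nat_lit 52906) (L (nat_lit 28418798))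
(L (nat_lit 11245049)))
(L (nat_lit 31107184)))
(L (nat_lit 16014116)))
(L (nat_lit 12465892)))
(L (nat_lit 21304797)))
(L (nat_lit 21096817)))
(L (nat_lit 21457252)))
(L (nat_lit 26875244)))
(L (nat_lit 22315579))))
(L (nat_lit 12766587)))
(S (nat_lit 38479) (S (nat_lit 46894) (S (nat_lit 11732) (S (nat_lit 3199) (S (nat_lit 46626) (S (nat_lit 57581) (S (nat_lit 33663) (S (nat_lit 49258) (S (nat_lit 43470) (S (nat_lit 24884) (S (nat_lit 19764) (L (nat_lit 29580369))
(L (nat_lit 4004460)))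
(L (nat_lit 4004556)))
(L (nat_lit 4017518)))
(L (nat_lit 15866588)))
(L (nat_lit 2736508)))
(L (nat_lit 2968942)))
(L (nat_lit 28034403)))
(L (nat_lit 26400113)))
(L (nat_lit 15919477)))
(L (nat_lit 22210927)))
(S (nat_lit 58243) (S (nat_lit 27130) (S (nat_lit 11732) (S (nat_lit 11436) (S (nat_lit 46626) (S (nat_lit 32716) (S (nat_lit 33663) (S (nat_lit 47814) (S (nat_lit 54623) (S (nat_lit 34388) (S (nat_lit 49258) (L (nat_lit 4660957))
(L (nat_lit 27400908)))
(L (nat_lit 14912306)))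
(L (nat_lit 27407730)))
(L (nat_lit 27400812)))
(L (nat_lit 20049261)))
(L (nat_lit 17493345)))
(L (nat_lit 934262)))
(L (nat_lit 23260527)))
(L (nat_lit 23260526)))
(L (nat_lit 24309102)))
(L (nat_lit 25668289)))))
(S (nat_lit 34409) (S (nat_lit 17071) (S (nat_lit 7366) (S (nat_lit 1776) (S (nat_lit 13129) (S (nat_lit 20770) (S (nat_lit 24690) (S (nat_lit 15322) (S (nat_lit 43470) (L (nat_lit 15930131))
(L (nat_lit 13757810)))
(L (nat_lit 24907144)))
(L (nat_lit 13989011)))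
(L (nat_lit 22975014)))
(L (nat_lit 26467502)))
(S (nat_lit 21540) (S (nat_lit 22175) (L (nat_lit 9047483))
(S (nat_lit 46119) (S (nat_lit 2950) (S (nat_lit 44454) (S (nat_lit 39699) (S (nat_lit 24884) (S (nat_lit 26360) (S (nat_lit 34196) (S (nat_lit 30750) (L (nat_lit 5554937))
(L (nat_lit 17542298)))
(L (nat_lit 19272059)))
(L (nat_lit 15276187)))
(L (nat_lit 22285721)))
(L (nat_lit 16679494)))
(L (nat_lit 24577339)))
(L (nat_lit 402139)))
(L (nat_lit 27367926))))
(S (nat_lit 41304) (S (nat_lit 52906) (S (nat_lit 26355) (S (nat_lit 22714) (S (nat_lit 18715) (S (nat_lit 24884) (L (nat_lit 17068741))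
(L (nat_lit 3429166)))
(L (nat_lit 24612219)))
(L (nat_lit 6384117)))
(L (nat_lit 3742204)))
(L (nat_lit 3909519)))
(L (nat_lit 25205420)))))
(S (nat_lit 27130) (S (nat_lit 6370) (S (nat_lit 27128) (S (nat_lit 44454) (S (nat_lit 27132) (S (nat_lit 19820) (S (nat_lit 2950) (S (nat_lit 5863) (S (nat_lit 54850) (S (nat_lit 53719) (L (nat_lit 5455548))
(L (nat_lit 29015332)))
(L (nat_lit 12306211)))
(L (nat_lit 11648666)))
(L (nat_lit 15584483)))
(L (nat_lit 15912842)))
(L (nat_lit 14872170)))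
(L (nat_lit 2519315)))
(S (nat_lit 49097) (L (nat_lit 2516647))
(L (nat_lit 2647317))))
(S (nat_lit 26134) (S (nat_lit 34388) (S (nat_lit 52906) (S (nat_lit 30750) (L (nat_lit 544552))
(L (nat_lit 4110710)))
(L (nat_lit 11455503)))
(S (nat_lit 53719) (S (nat_lit 13129) (S (nat_lit 27797) (L (nat_lit 21165360))
(L (nat_lit 7789659)))
(L (nat_lit 22414715)))
(L (nat_lit 11456004))))
(S (nat_lit 45898) (S (nat_lit 50964) (S (nat_lit 3199) (S (nat_lit 9730) (L (nat_lit 24463141))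
(L (nat_lit 2831142)))
(L (nat_lit 2497211)))
(L (nat_lit 15426917)))
(L (nat_lit 25309930)))))
(S (nat_lit 46894) (S (nat_lit 50964) (S (nat_lit 21393) (L (nat_lit 6181228))
(S (nat_lit 46626) (S (nat_lit 51922) (S (nat_lit 13129) (S (nat_lit 19485) (S (nat_lit 30246) (S (nat_lit 21739) (S (nat_lit 49758) (L (nat_lit 22480185))
(L (nat_lit 5153204)))
(L (nat_lit 11448468)))
(L (nat_lit 8306806)))
(L (nat_lit 9962169)))
(L (nat_lit 700795)))
(L (nat_lit 20481401)))
(L (nat_lit 20078957))))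
(L (nat_lit 22212977)))
(L (nat_lit 25709670)))))
(S (nat_lit 36835) (S (nat_lit 12182) (S (nat_lit 7098) (S (nat_lit 40086) (S (nat_lit 39528) (L (nat_lit 23537853))
(L (nat_lit 11105325)))
(L (nat_lit 798284)))
(S (nat_lit 26862) (S (nat_lit 41984) (S (nat_lit 24884) (S (nat_lit 7844) (S (nat_lit 32158) (S (nat_lit 28553) (S (nat_lit 43470) (L (nat_lit 5121458))
(L (nat_lit 23506786)))
(L (nat_lit 19292452)))
(L (nat_lit 14313482)))
(L (nat_lit 13232480)))
(L (nat_lit 31015049)))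
(L (nat_lit 24034659)))
(S (nat_lit 46626) (S (nat_lit 3199) (S (nat_lit 11732) (S (nat_lit 13899) (S (nat_lit 1525) (L (nat_lit 29080710))
(L (nat_lit 20065102)))
(L (nat_lit 13473141)))
(L (nat_lit 26685157)))
(L (nat_lit 15576741)))
(L (nat_lit 25313958)))))
(S (nat_lit 31946) (S (nat_lit 9730) (S (nat_lit 40086) (S (nat_lit 28832) (L (nat_lit 16975701))
(L (nat_lit 24160827)))
(L (nat_lit 798284)))
(S (nat_lit 29494) (S (nat_lit 33885) (S (nat_lit 34388) (L (nat_lit 20135064))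
(L (nat_lit 3947144)))
(L (nat_lit 30878370)))
(S (nat_lit 49258) (S (nat_lit 30750) (S (nat_lit 24884) (S (nat_lit 43470) (S (nat_lit 807) (L (nat_lit 2585286))
(L (nat_lit 10647244)))
(L (nat_lit 23562619)))
(L (nat_lit 3742107)))
(L (nat_lit 14593633)))
(L (nat_lit 25893004)))))
(S (nat_lit 51710) (S (nat_lit 5591) (S (nat_lit 12394) (S (nat_lit 50964) (L (nat_lit 10664787))
(L (nat_lit 14853755)))
(L (nat_lit 23899682)))
(S (nat_lit 25355) (S (nat_lit 12394) (S (nat_lit 8035) (S (nat_lit 40086) (L (nat_lit 14313511))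
(L (nat_lit 798284)))
(L (nat_lit 12258843)))
(L (nat_lit 23864866)))
(S (nat_lit 45119) (S (nat_lit 10230) (S (nat_lit 18237) (S (nat_lit 2198) (L (nat_lit 11727438))
(L (nat_lit 7958021)))
(L (nat_lit 22820193)))
(L (nat_lit 10239126)))
(L (nat_lit 25741479)))))
(L (nat_lit 25319630)))))
(S (nat_lit 56599) (S (nat_lit 19485) (S (nat_lit 1875) (S (nat_lit 36611) (L (nat_lit 3630454))
(L (nat_lit 11389413)))
(S (nat_lit 13869) (S (nat_lit 27128) (S (nat_lit 35086) (S (nat_lit 26360) (L (nat_lit 10043451))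
(L (nat_lit 3749209)))
(L (nat_lit 4083080)))
(L (nat_lit 24352153)))
(L (nat_lit 1482425))))
(S (nat_lit 39249) (S (nat_lit 13378) (S (nat_lit 1232) (S (nat_lit 54152) (S (nat_lit 43470) (S (nat_lit 754) (S (nat_lit 8028) (L (nat_lit 1779260))
(L (nat_lit 12335744)))
(L (nat_lit 19305787)))
(L (nat_lit 3599730)))
(L (nat_lit 5028486)))
(L (nat_lit 3551127)))
(L (nat_lit 8141408)))
(S (nat_lit 59013) (S (nat_lit 18715) (S (nat_lit 13180) (S (nat_lit 36611) (S (nat_lit 34388) (L (nat_lit 26712645))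
(L (nat_lit 2825787)))
(L (nat_lit 10663579)))
(L (nat_lit 24675643)))
(S (nat_lit 38479) (S (nat_lit 50514) (L (nat_lit 21904740))
(L (nat_lit 20003195)))
(S (nat_lit 58243) (S (nat_lit 50964) (S (nat_lit 13687) (L (nat_lit 7518103))
(L (nat_lit 24686468)))
(L (nat_lit 12772724)))
(L (nat_lit 25445427)))))
(L (nat_lit 25311979)))))
(L (nat_lit 25432657)))))
(S (nat_lit 54173) (S (nat_lit 6596) (S (nat_lit 6845) (S (nat_lit 12952) (S (nat_lit 43470) (L (nat_lit 2903408))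
(L (nat_lit 23859566)))
(S (nat_lit 32716) (S (nat_lit 7368) (S (nat_lit 22963) (L (nat_lit 403378))
(L (nat_lit 21770597)))
(L (nat_lit 26911917)))
(S (nat_lit 52480) (S (nat_lit 38479) (S (nat_lit 34859) (L (nat_lit 1731952))
(L (nat_lit 8148144)))
(L (nat_lit 17651041)))
(L (nat_lit 25632951)))))
(S (nat_lit 26609) (S (nat_lit 40012) (L (nat_lit 26757475))
(S (nat_lit 47814) (S (nat_lit 754) (S (nat_lit 19820) (S (nat_lit 52480) (L (nat_lit 26511021))
(L (nat_lit 799095)))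
(L (nat_lit 22393883)))
(S (nat_lit 39098) (S (nat_lit 32893) (S (nat_lit 14903) (L (nat_lit 5944105))
(L (nat_lit 2705320)))
(L (nat_lit 30825608)))
(L (nat_lit 13201542))))
(L (nat_lit 22110761))))
(S (nat_lit 46373) (S (nat_lit 18715) (S (nat_lit 3199) (L (nat_lit 18731364))
(L (nat_lit 26792293)))
(S (nat_lit 38479) (S (nat_lit 31200) (S (nat_lit 43470) (S (nat_lit 13180) (S (nat_lit 54623) (S (nat_lit 51922) (S (nat_lit 8789) (S (nat_lit 56375) (L (nat_lit 5453432))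
(L (nat_lit 4808909)))
(L (nat_lit 17063005)))
(L (nat_lit 4930876)))
(L (nat_lit 16838004)))
(L (nat_lit 26805550)))
(L (nat_lit 27756915)))
(L (nat_lit 14550388)))
(S (nat_lit 58243) (S (nat_lit 12394) (S (nat_lit 31946) (L (nat_lit 23961616))
(L (nat_lit 14438752)))
(L (nat_lit 802162)))
(L (nat_lit 25728715)))))
(L (nat_lit 25446416)))))
(S (nat_lit 26360) (S (nat_lit 7366) (S (nat_lit 1776) (S (nat_lit 18715) (S (nat_lit 36611) (S (nat_lit 43470) (S (nat_lit 8286) (L (nat_lit 10969238))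
(L (nat_lit 14353625)))
(L (nat_lit 4007502)))
(L (nat_lit 10932379)))
(L (nat_lit 26330827)))
(S (nat_lit 21540) (S (nat_lit 6589) (S (nat_lit 6370) (S (nat_lit 40282) (S (nat_lit 27797) (S (nat_lit 24884) (S (nat_lit 36083) (S (nat_lit 30750) (L (nat_lit 17999577))
(L (nat_lit 3912058)))
(L (nat_lit 7264769)))
(L (nat_lit 30757252)))
(L (nat_lit 3596533)))
(L (nat_lit 6216235)))
(L (nat_lit 15770331)))
(L (nat_lit 26969326)))
(S (nat_lit 41304) (S (nat_lit 26353) (S (nat_lit 45119) (S (nat_lit 41025) (S (nat_lit 49258) (S (nat_lit 43470) (L (nat_lit 2922967))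
(L (nat_lit 4017518)))
(L (nat_lit 3486428)))
(L (nat_lit 23556417)))
(L (nat_lit 25085095)))
(L (nat_lit 8513938)))
(L (nat_lit 25696900)))))
(S (nat_lit 27130) (S (nat_lit 43470) (L (nat_lit 12743031))
(L (nat_lit 3951982)))
(S (nat_lit 46894) (S (nat_lit 18053) (L (nat_lit 4050289))
(L (nat_lit 6216046)))
(L (nat_lit 25727723)))))
(S (nat_lit 46124) (S (nat_lit 14594) (S (nat_lit 1776) (S (nat_lit 6370) (L (nat_lit 26818853))
(L (nat_lit 9990884)))
(S (nat_lit 21540) (S (nat_lit 46373) (S (nat_lit 21962) (L (nat_lit 3743131))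
(L (nat_lit 21505860)))
(L (nat_lit 11254810)))
(S (nat_lit 41304) (S (nat_lit 3324) (L (nat_lit 1879507))
(S (nat_lit 34388) (S (nat_lit 782) (S (nat_lit 26355) (S (nat_lit 27608) (S (nat_lit 22714) (S (nat_lit 24884) (L (nat_lit 18882352))
(L (nat_lit 13989605)))
(L (nat_lit 6686461)))
(L (nat_lit 24642939)))
(L (nat_lit 25068813)))
(L (nat_lit 26434084)))
(L (nat_lit 3943056))))
(L (nat_lit 25923019)))))
(S (nat_lit 34358) (S (nat_lit 1525) (S (nat_lit 2456) (S (nat_lit 42478) (S (nat_lit 20996) (L (nat_lit 19120036))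
(L (nat_lit 22363227)))
(L (nat_lit 16656533)))
(L (nat_lit 17586219)))
(S (nat_lit 21289) (S (nat_lit 8033) (L (nat_lit 28694980))
(L (nat_lit 21773384)))
(S (nat_lit 41053) (S (nat_lit 28050) (S (nat_lit 23484) (L (nat_lit 29469391))
(L (nat_lit 10639770)))
(L (nat_lit 11357732)))
(L (nat_lit 25377410)))))
(S (nat_lit 54122) (S (nat_lit 6845) (S (nat_lit 9532) (S (nat_lit 54152) (S (nat_lit 58243) (L (nat_lit 7061252))
(L (nat_lit 13478497)))
(L (nat_lit 21216440)))
(S (nat_lit 22671) (L (nat_lit 2878856))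
(L (nat_lit 17029178))))
(S (nat_lit 26609) (S (nat_lit 45119) (S (nat_lit 43470) (S (nat_lit 54152) (S (nat_lit 46896) (L (nat_lit 22062618))
(L (nat_lit 22815917)))
(L (nat_lit 21903620)))
(L (nat_lit 4012402)))
(L (nat_lit 7454330)))
(S (nat_lit 46373) (S (nat_lit 54152) (S (nat_lit 54623) (S (nat_lit 6370) (L (nat_lit 29441364))
(L (nat_lit 3808144)))
(L (nat_lit 21466490)))
(L (nat_lit 27507890)))
(L (nat_lit 25433840)))))
(L (nat_lit 25602130)))))
(L (nat_lit 25278123)))))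
(L (nat_lit 25377844)))))
(S (nat_lit 37339) (S (nat_lit 782) (S (nat_lit 18237) (S (nat_lit 11436) (S (nat_lit 2950) (S (nat_lit 10564) (L (nat_lit 18900272))
(S (nat_lit 52906) (S (nat_lit 49258) (S (nat_lit 48317) (L (nat_lit 18008969))
(L (nat_lit 13756138)))
(L (nat_lit 14528197)))
(L (nat_lit 10902405))))
(S (nat_lit 22714) (S (nat_lit 49258) (S (nat_lit 20571) (S (nat_lit 27130) (L (nat_lit 13819784))
(L (nat_lit 3861958)))
(L (nat_lit 4053292)))
(L (nat_lit 3878833)))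
(S (nat_lit 42478) (S (nat_lit 40645) (L (nat_lit 13914949))
(S (nat_lit 52678) (S (nat_lit 49258) (S (nat_lit 13129) (S (nat_lit 40534) (L (nat_lit 1275505))
(L (nat_lit 3665643)))
(L (nat_lit 22851752)))
(L (nat_lit 14381190)))
(L (nat_lit 5970361))))
(L (nat_lit 25569460)))))
(S (nat_lit 31200) (S (nat_lit 7098) (S (nat_lit 40378) (L (nat_lit 3827052))
(S (nat_lit 42727) (S (nat_lit 14645) (S (nat_lit 18715) (L (nat_lit 3665270))
(L (nat_lit 24921444)))
(S (nat_lit 43335) (L (nat_lit 5959982))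
(L (nat_lit 26365296))))
(L (nat_lit 13829012))))
(S (nat_lit 26862) (S (nat_lit 43470) (S (nat_lit 39249) (L (nat_lit 15920500))
(L (nat_lit 14602597)))
(L (nat_lit 13739890)))
(S (nat_lit 46626) (S (nat_lit 0) (S (nat_lit 48317) (S (nat_lit 6591) (L (nat_lit 421610))
(L (nat_lit 14386457)))
(L (nat_lit 20031277)))
(L (nat_lit 13887072)))
(L (nat_lit 25307820)))))
(S (nat_lit 50964) (S (nat_lit 3942) (S (nat_lit 9532) (S (nat_lit 39528) (S (nat_lit 34859) (L (nat_lit 1794536))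
(L (nat_lit 15476386)))
(L (nat_lit 27493964)))
(L (nat_lit 11191043)))
(S (nat_lit 23706) (S (nat_lit 33451) (L (nat_lit 6022513))
(L (nat_lit 31066479)))
(S (nat_lit 43470) (S (nat_lit 46189) (L (nat_lit 14458932))
(S (nat_lit 49258) (S (nat_lit 30750) (S (nat_lit 34859) (L (nat_lit 28461425))
(L (nat_lit 4709753)))
(L (nat_lit 19164608)))
(L (nat_lit 14298204))))
(L (nat_lit 25603218)))))
(L (nat_lit 25274031)))))
(S (nat_lit 38001) (S (nat_lit 5591) (S (nat_lit 15095) (S (nat_lit 7098) (S (nat_lit 0) (S (nat_lit 7844) (S (nat_lit 1525) (S (nat_lit 6370) (S (nat_lit 13687) (S (nat_lit 4926) (S (nat_lit 55847) (S (nat_lit 56599) (S (nat_lit 6845) (S (nat_lit 22714) (S (nat_lit 6589) (S (nat_lit 8033) (S (nat_lit 19792) (S (nat_lit 31946) (L (nat_lit 8933405))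
(L (nat_lit 6885294)))
(L (nat_lit 30918665)))
(L (nat_lit 21375069)))
(L (nat_lit 23921871)))
(L (nat_lit 11629297)))
(S (nat_lit 26609) (S (nat_lit 49258) (L (nat_lit 3062133))
(L (nat_lit 20191153)))
(S (nat_lit 46373) (S (nat_lit 20571) (L (nat_lit 22516025))
(L (nat_lit 16488234)))
(L (nat_lit 25927696)))))
(L (nat_lit 21173009)))
(L (nat_lit 19273048)))
(L (nat_lit 18180771)))
(L (nat_lit 26880545)))
(L (nat_lit 20815952)))
(L (nat_lit 20065134)))
(L (nat_lit 6204917)))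
(L (nat_lit 20374720)))
(L (nat_lit 13348741)))
(S (nat_lit 17444) (S (nat_lit 14690) (L (nat_lit 20417447))
(L (nat_lit 3794310)))
(L (nat_lit 13985504))))
(S (nat_lit 25355) (S (nat_lit 0) (S (nat_lit 7098) (S (nat_lit 55847) (S (nat_lit 1525) (S (nat_lit 26134) (S (nat_lit 15095) (S (nat_lit 13687) (S (nat_lit 56599) (S (nat_lit 24690) (S (nat_lit 7844) (S (nat_lit 1232) (S (nat_lit 48317) (S (nat_lit 41726) (L (nat_lit 28660751))
(L (nat_lit 27481135)))
(L (nat_lit 27542613)))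
(S (nat_lit 3581) (S (nat_lit 6845) (S (nat_lit 53397) (S (nat_lit 32716) (L (nat_lit 6339325))
(L (nat_lit 7975812)))
(L (nat_lit 17747976)))
(L (nat_lit 6756093)))
(S (nat_lit 5687) (S (nat_lit 6845) (S (nat_lit 41726) (S (nat_lit 31496) (L (nat_lit 482585))
(L (nat_lit 17025957)))
(L (nat_lit 16616662)))
(L (nat_lit 4505341)))
(L (nat_lit 13758153)))))
(L (nat_lit 13545186)))
(L (nat_lit 22438023)))
(L (nat_lit 4014663)))
(L (nat_lit 22032270)))
(L (nat_lit 22916514)))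
(L (nat_lit 1716445)))
(L (nat_lit 20883938)))
(L (nat_lit 3559337)))
(L (nat_lit 4017703)))
(L (nat_lit 20743558)))
(S (nat_lit 45119) (S (nat_lit 13687) (S (nat_lit 7844) (S (nat_lit 55847) (S (nat_lit 7098) (S (nat_lit 15095) (S (nat_lit 1525) (S (nat_lit 56599) (S (nat_lit 44454) (S (nat_lit 45898) (S (nat_lit 6738) (L (nat_lit 8132148))
(S (nat_lit 20770) (S (nat_lit 49258) (S (nat_lit 35829) (S (nat_lit 48317) (S (nat_lit 42727) (L (nat_lit 12847867))
(L (nat_lit 10154373)))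
(L (nat_lit 16664837)))
(L (nat_lit 20887592)))
(L (nat_lit 3633867)))
(S (nat_lit 52158) (L (nat_lit 5458360))
(L (nat_lit 5466644)))))
(L (nat_lit 940487)))
(L (nat_lit 23532423)))
(L (nat_lit 21400327)))
(L (nat_lit 26399175)))
(L (nat_lit 13489320)))
(L (nat_lit 23347225)))
(L (nat_lit 21796359)))
(L (nat_lit 13282461)))
(S (nat_lit 14008) (L (nat_lit 20210833))
(L (nat_lit 4082030))))
(L (nat_lit 25759273)))))
(S (nat_lit 57765) (S (nat_lit 558) (S (nat_lit 7364) (S (nat_lit 14645) (S (nat_lit 30750) (S (nat_lit 24884) (S (nat_lit 14121) (S (nat_lit 58243) (L (nat_lit 5559707))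
(L (nat_lit 2869030)))
(L (nat_lit 26413463)))
(L (nat_lit 4004247)))
(L (nat_lit 3954055)))
(L (nat_lit 12737320)))
(S (nat_lit 27128) (S (nat_lit 52906) (S (nat_lit 6589) (S (nat_lit 49258) (L (nat_lit 19405701))
(L (nat_lit 13722898)))
(L (nat_lit 14536745)))
(L (nat_lit 3909422)))
(S (nat_lit 46892) (S (nat_lit 27245) (L (nat_lit 5876529))
(S (nat_lit 43248) (S (nat_lit 43470) (L (nat_lit 11343315))
(L (nat_lit 4007534)))
(L (nat_lit 14440521))))
(L (nat_lit 25399953)))))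
(S (nat_lit 20322) (S (nat_lit 10482) (S (nat_lit 22220) (S (nat_lit 29296) (S (nat_lit 53215) (S (nat_lit 41304) (L (nat_lit 30114001))
(L (nat_lit 24643467)))
(L (nat_lit 20996430)))
(L (nat_lit 13490434)))
(L (nat_lit 21441595)))
(S (nat_lit 30246) (S (nat_lit 54122) (L (nat_lit 12605788))
(L (nat_lit 27678822)))
(S (nat_lit 50010) (S (nat_lit 7098) (S (nat_lit 47372) (L (nat_lit 28639668))
(L (nat_lit 22589216)))
(L (nat_lit 14396441)))
(L (nat_lit 25727190)))))
(S (nat_lit 40086) (S (nat_lit 49258) (S (nat_lit 50514) (S (nat_lit 24884) (S (nat_lit 23706) (S (nat_lit 6589) (L (nat_lit 13313048))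
(L (nat_lit 14485192)))
(L (nat_lit 830930)))
(L (nat_lit 14233381)))
(L (nat_lit 20458651)))
(L (nat_lit 4042380)))
(L (nat_lit 25725170)))))
(L (nat_lit 25441889)))))
(S (nat_lit 20546) (S (nat_lit 6845) (S (nat_lit 0) (S (nat_lit 5863) (S (nat_lit 26360) (S (nat_lit 13378) (L (nat_lit 2375479))
(L (nat_lit 14319931)))
(L (nat_lit 15833785)))
(S (nat_lit 25627) (S (nat_lit 49060) (S (nat_lit 1525) (S (nat_lit 30750) (S (nat_lit 8033) (S (nat_lit 43470) (L (nat_lit 17918663))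
(L (nat_lit 3941966)))
(L (nat_lit 21400829)))
(L (nat_lit 3954119)))
(L (nat_lit 19065287)))
(L (nat_lit 22820902)))
(S (nat_lit 45391) (S (nat_lit 1525) (S (nat_lit 56) (L (nat_lit 21890471))
(L (nat_lit 13961015)))
(L (nat_lit 26400202)))
(L (nat_lit 25410676)))))
(S (nat_lit 19764) (S (nat_lit 7763) (S (nat_lit 54623) (L (nat_lit 2862489))
(L (nat_lit 21800112)))
(S (nat_lit 7844) (S (nat_lit 32992) (L (nat_lit 21186401))
(S (nat_lit 55847) (S (nat_lit 7588) (S (nat_lit 15095) (S (nat_lit 56599) (S (nat_lit 21289) (S (nat_lit 38001) (S (nat_lit 7098) (S (nat_lit 13687) (S (nat_lit 10377) (L (nat_lit 22067979))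
(S (nat_lit 46550) (L (nat_lit 1614424))
(S (nat_lit 54431) (S (nat_lit 21236) (L (nat_lit 346681))
(L (nat_lit 15294789)))
(L (nat_lit 8916632)))))
(L (nat_lit 22554650)))
(L (nat_lit 26706534)))
(L (nat_lit 3034479)))
(L (nat_lit 31173059)))
(L (nat_lit 21467420)))
(L (nat_lit 26946946)))
(S (nat_lit 9937) (L (nat_lit 11933557))
(L (nat_lit 14324518))))
(L (nat_lit 21194243))))
(L (nat_lit 3402229))))
(S (nat_lit 39528) (S (nat_lit 9068) (S (nat_lit 12952) (S (nat_lit 9532) (S (nat_lit 24884) (L (nat_lit 4827609))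
(L (nat_lit 3747628)))
(L (nat_lit 26641682)))
(L (nat_lit 23164205)))
(S (nat_lit 28832) (S (nat_lit 1975) (S (nat_lit 34388) (L (nat_lit 28779074))
(L (nat_lit 20266139)))
(L (nat_lit 14331748)))
(S (nat_lit 48596) (S (nat_lit 558) (S (nat_lit 7844) (S (nat_lit 56599) (L (nat_lit 8012612))
(L (nat_lit 3828945)))
(L (nat_lit 3697875)))
(L (nat_lit 13983525)))
(L (nat_lit 25546273)))))
(L (nat_lit 25598003)))))
(S (nat_lit 26609) (S (nat_lit 15095) (S (nat_lit 10230) (S (nat_lit 30750) (S (nat_lit 24884) (S (nat_lit 52657) (L (nat_lit 20358329))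
(L (nat_lit 11984057)))
(L (nat_lit 30972086)))
(L (nat_lit 19326118)))
(S (nat_lit 29994) (S (nat_lit 42727) (S (nat_lit 48596) (S (nat_lit 43470) (S (nat_lit 7098) (S (nat_lit 19764) (S (nat_lit 50964) (S (nat_lit 54850) (L (nat_lit 12080157))
(L (nat_lit 11456035)))
(L (nat_lit 22218139)))
(L (nat_lit 9889811)))
(L (nat_lit 5844876)))
(L (nat_lit 24918308)))
(L (nat_lit 12334261)))
(L (nat_lit 14312614)))
(S (nat_lit 49758) (L (nat_lit 22246576))
(L (nat_lit 25174704)))))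
(S (nat_lit 34859) (S (nat_lit 12820) (L (nat_lit 8437339))
(S (nat_lit 28553) (S (nat_lit 12952) (S (nat_lit 12394) (S (nat_lit 33451) (S (nat_lit 18237) (S (nat_lit 28050) (S (nat_lit 47116) (L (nat_lit 9175543))
(L (nat_lit 18635077)))
(L (nat_lit 24494882)))
(L (nat_lit 18651841)))
(L (nat_lit 8966948)))
(S (nat_lit 21666) (S (nat_lit 26684) (L (nat_lit 5774131))
(L (nat_lit 1858090)))
(L (nat_lit 10239619))))
(S (nat_lit 52264) (L (nat_lit 3751225))
(L (nat_lit 4110642))))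
(L (nat_lit 3945194))))
(S (nat_lit 54623) (S (nat_lit 14760) (L (nat_lit 20984122))
(S (nat_lit 31946) (S (nat_lit 46626) (L (nat_lit 8478608))
(L (nat_lit 607611)))
(L (nat_lit 17536377))))
(L (nat_lit 25222448)))))
(S (nat_lit 46373) (S (nat_lit 18715) (S (nat_lit 1006) (S (nat_lit 35829) (S (nat_lit 17687) (L (nat_lit 11418675))
(L (nat_lit 10610414)))
(S (nat_lit 36234) (L (nat_lit 20720099))
(L (nat_lit 3955982))))
(S (nat_lit 20770) (S (nat_lit 30750) (S (nat_lit 23484) (S (nat_lit 27132) (S (nat_lit 42727) (L (nat_lit 9621017))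
(L (nat_lit 24307243)))
(L (nat_lit 12240058)))
(L (nat_lit 22844969)))
(L (nat_lit 19000687)))
(S (nat_lit 40534) (S (nat_lit 43470) (S (nat_lit 26360) (S (nat_lit 24884) (S (nat_lit 27128) (S (nat_lit 27132) (L (nat_lit 22191985))
(L (nat_lit 11726445)))
(L (nat_lit 11726259)))
(L (nat_lit 22536484)))
(L (nat_lit 30519667)))
(L (nat_lit 27691314)))
(L (nat_lit 25176783)))))
(S (nat_lit 38479) (S (nat_lit 5591) (S (nat_lit 42727) (S (nat_lit 33693) (S (nat_lit 20571) (L (nat_lit 11661879))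
(L (nat_lit 21800108)))
(L (nat_lit 12371125)))
(L (nat_lit 14472358)))
(S (nat_lit 25355) (S (nat_lit 42727) (S (nat_lit 27132) (S (nat_lit 13929) (L (nat_lit 16951127))
(L (nat_lit 13956277)))
(L (nat_lit 11718444)))
(L (nat_lit 14471339)))
(S (nat_lit 45119) (S (nat_lit 21289) (S (nat_lit 55593) (S (nat_lit 3720) (S (nat_lit 47563) (S (nat_lit 13687) (S (nat_lit 13378) (L (nat_lit 633304))
(L (nat_lit 8132302)))
(L (nat_lit 4117032)))
(L (nat_lit 20234050)))
(L (nat_lit 12500083)))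
(L (nat_lit 13993845)))
(L (nat_lit 22208999)))
(L (nat_lit 25791977)))))
(S (nat_lit 58243) (S (nat_lit 13687) (S (nat_lit 16065) (S (nat_lit 7364) (S (nat_lit 16847) (S (nat_lit 57581) (S (nat_lit 26134) (S (nat_lit 33142) (L (nat_lit 29726103))
(L (nat_lit 23229742)))
(L (nat_lit 22362913)))
(L (nat_lit 10577550)))
(L (nat_lit 12500549)))
(L (nat_lit 8942212)))
(S (nat_lit 19709) (L (nat_lit 22097712))
(L (nat_lit 404279))))
(S (nat_lit 33451) (S (nat_lit 27132) (S (nat_lit 30750) (S (nat_lit 42727) (L (nat_lit 30485911))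
(L (nat_lit 3830124)))
(L (nat_lit 10032945)))
(L (nat_lit 12086454)))
(S (nat_lit 53215) (S (nat_lit 29994) (S (nat_lit 22220) (L (nat_lit 22490297))
(L (nat_lit 469879)))
(L (nat_lit 12882742)))
(L (nat_lit 25734724)))))
(L (nat_lit 25746566)))))
(L (nat_lit 25755921)))))
(S (nat_lit 40310) (S (nat_lit 16319) (S (nat_lit 12952) (S (nat_lit 27128) (S (nat_lit 5591) (L (nat_lit 24024617))
(L (nat_lit 3728727)))
(L (nat_lit 12119748)))
(S (nat_lit 32716) (S (nat_lit 14903) (S (nat_lit 14645) (S (nat_lit 9532) (L (nat_lit 22241456))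
(L (nat_lit 17695366)))
(L (nat_lit 14289672)))
(S (nat_lit 34667) (S (nat_lit 238) (L (nat_lit 16952242))
(S (nat_lit 40282) (S (nat_lit 48596) (L (nat_lit 9038372))
(L (nat_lit 3861034)))
(L (nat_lit 23402318))))
(S (nat_lit 54431) (S (nat_lit 56375) (L (nat_lit 15782169))
(L (nat_lit 8820562)))
(L (nat_lit 25205328)))))
(S (nat_lit 52480) (S (nat_lit 13687) (S (nat_lit 56599) (S (nat_lit 24884) (S (nat_lit 41053) (L (nat_lit 16975733))
(L (nat_lit 24296231)))
(L (nat_lit 21487908)))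
(L (nat_lit 21769637)))
(S (nat_lit 33451) (S (nat_lit 7873) (L (nat_lit 30519021))
(L (nat_lit 28978692)))
(S (nat_lit 53215) (S (nat_lit 10482) (S (nat_lit 19764) (S (nat_lit 47814) (S (nat_lit 37817) (L (nat_lit 10077989))
(L (nat_lit 23150969)))
(L (nat_lit 22438146)))
(L (nat_lit 15951890)))
(L (nat_lit 21376898)))
(L (nat_lit 25708616)))))
(L (nat_lit 25382433)))))
(S (nat_lit 36083) (S (nat_lit 6370) (S (nat_lit 5591) (S (nat_lit 228) (L (nat_lit 5941133))
(S (nat_lit 46119) (S (nat_lit 42727) (L (nat_lit 27635858))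
(L (nat_lit 27439316)))
(L (nat_lit 18607175))))
(S (nat_lit 25355) (S (nat_lit 30246) (S (nat_lit 27128) (S (nat_lit 25627) (L (nat_lit 14289703))
(L (nat_lit 30754435)))
(L (nat_lit 30971591)))
(L (nat_lit 30813796)))
(S (nat_lit 45119) (S (nat_lit 33142) (S (nat_lit 2950) (S (nat_lit 40335) (S (nat_lit 54122) (L (nat_lit 17143730))
(L (nat_lit 6215920)))
(L (nat_lit 27449581)))
(L (nat_lit 704827)))
(L (nat_lit 23215416)))
(L (nat_lit 25668160)))))
(S (nat_lit 26134) (S (nat_lit 10482) (S (nat_lit 1472) (S (nat_lit 43248) (L (nat_lit 351022))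
(L (nat_lit 13818763)))
(L (nat_lit 11948900)))
(S (nat_lit 30246) (S (nat_lit 41304) (S (nat_lit 53649) (S (nat_lit 30750) (L (nat_lit 24539303))
(L (nat_lit 14422695)))
(L (nat_lit 16965480)))
(L (nat_lit 3941037)))
(S (nat_lit 50010) (S (nat_lit 6591) (S (nat_lit 35086) (L (nat_lit 1629097))
(L (nat_lit 3629334)))
(L (nat_lit 13718343)))
(L (nat_lit 25579714)))))
(S (nat_lit 45898) (S (nat_lit 1525) (S (nat_lit 33885) (S (nat_lit 14594) (L (nat_lit 20111848))
(L (nat_lit 14330692)))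
(L (nat_lit 20296516)))
(S (nat_lit 21289) (S (nat_lit 12182) (S (nat_lit 29296) (S (nat_lit 43470) (L (nat_lit 6470297))
(L (nat_lit 23864834)))
(L (nat_lit 31107523)))
(L (nat_lit 3681109)))
(S (nat_lit 41053) (S (nat_lit 10230) (S (nat_lit 34667) (S (nat_lit 43974) (S (nat_lit 11436) (L (nat_lit 29537556))
(L (nat_lit 3392121)))
(L (nat_lit 23244719)))
(L (nat_lit 30934292)))
(L (nat_lit 12326388)))
(L (nat_lit 25443412)))))
(L (nat_lit 25868481)))))
(S (nat_lit 55847) (S (nat_lit 8028) (S (nat_lit 9730) (S (nat_lit 3627) (S (nat_lit 51710) (L (nat_lit 10258128))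
(L (nat_lit 22396058)))
(S (nat_lit 13150) (S (nat_lit 27799) (L (nat_lit 9617115))
(L (nat_lit 7752483)))
(L (nat_lit 14359331))))
(S (nat_lit 29494) (S (nat_lit 558) (S (nat_lit 26134) (L (nat_lit 12658424))
(L (nat_lit 7789656)))
(S (nat_lit 5733) (L (nat_lit 5499383))
(L (nat_lit 14397221))))
(S (nat_lit 49258) (S (nat_lit 30750) (S (nat_lit 31496) (S (nat_lit 46117) (S (nat_lit 43470) (S (nat_lit 32944) (L (nat_lit 7522744))
(L (nat_lit 23900265)))
(L (nat_lit 27998345)))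
(L (nat_lit 16903415)))
(S (nat_lit 56959) (L (nat_lit 13829787))
(L (nat_lit 3847945))))
(S (nat_lit 31155) (S (nat_lit 11436) (L (nat_lit 23969831))
(L (nat_lit 8183237)))
(L (nat_lit 3468692))))
(L (nat_lit 25899147)))))
(S (nat_lit 27792) (S (nat_lit 15014) (S (nat_lit 42727) (L (nat_lit 19311801))
(L (nat_lit 14345573)))
(S (nat_lit 15095) (S (nat_lit 52480) (S (nat_lit 14624) (S (nat_lit 24884) (S (nat_lit 31496) (S (nat_lit 8789) (L (nat_lit 19763505))
(L (nat_lit 7058245)))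
(L (nat_lit 2515317)))
(L (nat_lit 22033723)))
(L (nat_lit 24976560)))
(L (nat_lit 13297953)))
(L (nat_lit 3499412))))
(S (nat_lit 47556) (S (nat_lit 17071) (S (nat_lit 2035) (L (nat_lit 16361252))
(S (nat_lit 57581) (S (nat_lit 42727) (S (nat_lit 8789) (S (nat_lit 46894) (L (nat_lit 26691751))
(L (nat_lit 7521017)))
(L (nat_lit 26977828)))
(L (nat_lit 24307083)))
(L (nat_lit 21369210))))
(S (nat_lit 36835) (S (nat_lit 39528) (S (nat_lit 3942) (L (nat_lit 30486128))
(L (nat_lit 20353336)))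
(L (nat_lit 23959936)))
(S (nat_lit 56599) (S (nat_lit 39528) (S (nat_lit 52708) (S (nat_lit 9532) (S (nat_lit 46124) (S (nat_lit 15095) (S (nat_lit 53397) (S (nat_lit 27352) (S (nat_lit 50010) (S (nat_lit 20770) (L (nat_lit 15833787))
(L (nat_lit 5944632)))
(L (nat_lit 4086187)))
(L (nat_lit 6075083)))
(L (nat_lit 5644029)))
(L (nat_lit 24448413)))
(L (nat_lit 20049264)))
(L (nat_lit 9361452)))
(L (nat_lit 5906222)))
(L (nat_lit 27891756)))
(L (nat_lit 25601605)))))
(L (nat_lit 25835808)))))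
(L (nat_lit 25892173)))))
(L (nat_lit 25543831)))))
(S (nat_lit 57103) (S (nat_lit 7844) (S (nat_lit 12394) (S (nat_lit 10482) (S (nat_lit 3942) (S (nat_lit 9730) (S (nat_lit 28832) (S (nat_lit 43974) (S (nat_lit 26862) (L (nat_lit 28483124))
(L (nat_lit 14724916)))
(L (nat_lit 14823005)))
(L (nat_lit 18918811)))
(L (nat_lit 15346842)))
(S (nat_lit 23706) (S (nat_lit 11732) (S (nat_lit 22191) (L (nat_lit 405302))
(L (nat_lit 27999588)))
(L (nat_lit 24030284)))
(S (nat_lit 43470) (S (nat_lit 24884) (S (nat_lit 22963) (S (nat_lit 49686) (L (nat_lit 5812022))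
(S (nat_lit 53215) (S (nat_lit 41503) (S (nat_lit 51260) (S (nat_lit 26862) (L (nat_lit 30089356))
(L (nat_lit 18918972)))
(L (nat_lit 27896910)))
(L (nat_lit 17706657)))
(L (nat_lit 2675465))))
(L (nat_lit 21933440)))
(L (nat_lit 14560964)))
(L (nat_lit 25432531)))))
(L (nat_lit 23244280)))
(S (nat_lit 32158) (S (nat_lit 2950) (S (nat_lit 2198) (S (nat_lit 41984) (S (nat_lit 46626) (S (nat_lit 52708) (S (nat_lit 34388) (L (nat_lit 21333563))
(L (nat_lit 23869574)))
(L (nat_lit 11285186)))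
(L (nat_lit 27733603)))
(S (nat_lit 42551) (L (nat_lit 7498263))
(L (nat_lit 10578671))))
(S (nat_lit 21962) (S (nat_lit 29296) (S (nat_lit 27799) (S (nat_lit 1975) (L (nat_lit 10126156))
(L (nat_lit 13274954)))
(L (nat_lit 11356674)))
(L (nat_lit 13280067)))
(S (nat_lit 41726) (S (nat_lit 4955) (L (nat_lit 13422944))
(S (nat_lit 41984) (S (nat_lit 46119) (S (nat_lit 46626) (S (nat_lit 48596) (S (nat_lit 44454) (L (nat_lit 27805831))
(L (nat_lit 27730563)))
(L (nat_lit 13983923)))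
(L (nat_lit 27733667)))
(L (nat_lit 12374125)))
(L (nat_lit 14280747))))
(L (nat_lit 25711658)))))
(S (nat_lit 22714) (S (nat_lit 8033) (S (nat_lit 48596) (S (nat_lit 25627) (S (nat_lit 1525) (S (nat_lit 19792) (S (nat_lit 14645) (L (nat_lit 10613175))
(L (nat_lit 13248573)))
(L (nat_lit 21759400)))
(L (nat_lit 10174274)))
(L (nat_lit 4111605)))
(S (nat_lit 51897) (L (nat_lit 11684280))
(L (nat_lit 3850027))))
(S (nat_lit 27797) (S (nat_lit 40534) (S (nat_lit 48596) (S (nat_lit 21289) (S (nat_lit 31946) (L (nat_lit 21249083))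
(L (nat_lit 14592053)))
(L (nat_lit 8108803)))
(L (nat_lit 11273619)))
(S (nat_lit 40615) (L (nat_lit 10538460))
(L (nat_lit 3815238))))
(S (nat_lit 47561) (S (nat_lit 22283) (L (nat_lit 23145912))
(S (nat_lit 41984) (S (nat_lit 46626) (S (nat_lit 1975) (S (nat_lit 27128) (L (nat_lit 5810937))
(L (nat_lit 11691664)))
(L (nat_lit 3858890)))
(L (nat_lit 27733667)))
(L (nat_lit 3402445))))
(L (nat_lit 25836869)))))
(S (nat_lit 42478) (S (nat_lit 2456) (S (nat_lit 4446) (S (nat_lit 1776) (S (nat_lit 20018) (L (nat_lit 29558413))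
(L (nat_lit 5455703)))
(L (nat_lit 10159949)))
(L (nat_lit 20098552)))
(S (nat_lit 22220) (S (nat_lit 1776) (S (nat_lit 254) (L (nat_lit 10277005))
(L (nat_lit 7487255)))
(L (nat_lit 10159608)))
(S (nat_lit 41984) (S (nat_lit 46626) (S (nat_lit 38001) (S (nat_lit 24690) (S (nat_lit 52657) (L (nat_lit 4771037))
(L (nat_lit 27657558)))
(L (nat_lit 14354342)))
(S (nat_lit 39136) (L (nat_lit 24446392))
(L (nat_lit 3863978))))
(L (nat_lit 27307693)))
(L (nat_lit 25771363)))))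
(L (nat_lit 25822635)))))
(S (nat_lit 51922) (S (nat_lit 1232) (S (nat_lit 56599) (S (nat_lit 1975) (S (nat_lit 38001) (S (nat_lit 41984) (L (nat_lit 21867564))
(L (nat_lit 11102625)))
(L (nat_lit 19934748)))
(L (nat_lit 6139566)))
(L (nat_lit 27930080)))
(S (nat_lit 20996) (S (nat_lit 57765) (S (nat_lit 51260) (S (nat_lit 54623) (S (nat_lit 13687) (S (nat_lit 5120) (L (nat_lit 28319159))
(L (nat_lit 26258903)))
(L (nat_lit 25078862)))
(L (nat_lit 27995554)))
(L (nat_lit 27438828)))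
(L (nat_lit 5156279)))
(S (nat_lit 40760) (S (nat_lit 22963) (S (nat_lit 24884) (S (nat_lit 5250) (L (nat_lit 1650077))
(S (nat_lit 13687) (S (nat_lit 22220) (S (nat_lit 57765) (L (nat_lit 8482542))
(L (nat_lit 19836321)))
(L (nat_lit 31042977)))
(L (nat_lit 14569825))))
(L (nat_lit 31042700)))
(L (nat_lit 21933440)))
(L (nat_lit 25507926)))))
(L (nat_lit 25188839)))))
(S (nat_lit 27608) (S (nat_lit 2456) (S (nat_lit 14645) (S (nat_lit 39249) (L (nat_lit 28327283))
(L (nat_lit 14600547)))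
(S (nat_lit 34409) (S (nat_lit 1525) (S (nat_lit 16435) (L (nat_lit 19021016))
(L (nat_lit 12816123)))
(S (nat_lit 21289) (S (nat_lit 16847) (L (nat_lit 2931924))
(L (nat_lit 22167430)))
(S (nat_lit 41053) (S (nat_lit 4446) (S (nat_lit 20996) (S (nat_lit 0) (L (nat_lit 2831271))
(L (nat_lit 19673280)))
(L (nat_lit 6882875)))
(L (nat_lit 19016495)))
(L (nat_lit 25889258)))))
(S (nat_lit 54173) (S (nat_lit 13129) (S (nat_lit 34859) (L (nat_lit 17844602))
(L (nat_lit 30870898)))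
(L (nat_lit 26664290)))
(L (nat_lit 25725608)))))
(S (nat_lit 22220) (S (nat_lit 9068) (S (nat_lit 51922) (S (nat_lit 3720) (S (nat_lit 21098) (L (nat_lit 26328747))
(S (nat_lit 45119) (S (nat_lit 5863) (S (nat_lit 1472) (S (nat_lit 47563) (L (nat_lit 13984950))
(L (nat_lit 9354418)))
(L (nat_lit 18923334)))
(L (nat_lit 19742018)))
(L (nat_lit 8305783))))
(S (nat_lit 23484) (S (nat_lit 5863) (S (nat_lit 16319) (S (nat_lit 52906) (L (nat_lit 21350305))
(L (nat_lit 12303548)))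
(L (nat_lit 16997123)))
(S (nat_lit 43040) (L (nat_lit 26298668))
(L (nat_lit 20031341))))
(S (nat_lit 43248) (S (nat_lit 57765) (S (nat_lit 49258) (S (nat_lit 54152) (L (nat_lit 2768714))
(L (nat_lit 27999492)))
(L (nat_lit 13985472)))
(L (nat_lit 6010666)))
(L (nat_lit 25614560)))))
(L (nat_lit 22981677)))
(S (nat_lit 28832) (S (nat_lit 10230) (S (nat_lit 5670) (L (nat_lit 14011298))
(S (nat_lit 8035) (S (nat_lit 26609) (L (nat_lit 21300731))
(L (nat_lit 10238997)))
(L (nat_lit 21773482))))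
(S (nat_lit 29994) (S (nat_lit 17372) (L (nat_lit 12781334))
(S (nat_lit 51922) (S (nat_lit 57765) (S (nat_lit 13378) (L (nat_lit 24469989))
(L (nat_lit 13276443)))
(L (nat_lit 13479031)))
(L (nat_lit 13469042))))
(S (nat_lit 49758) (S (nat_lit 1525) (S (nat_lit 1975) (S (nat_lit 7098) (S (nat_lit 52480) (L (nat_lit 26817891))
(L (nat_lit 13232298)))
(L (nat_lit 13913113)))
(L (nat_lit 13782890)))
(S (nat_lit 53826) (L (nat_lit 4472507))
(L (nat_lit 12271427))))
(L (nat_lit 25694422)))))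
(S (nat_lit 48596) (S (nat_lit 1232) (S (nat_lit 38001) (S (nat_lit 14421) (L (nat_lit 15520096))
(L (nat_lit 12313027)))
(L (nat_lit 3845905)))
(L (nat_lit 12693398)))
(L (nat_lit 25276141)))))
(S (nat_lit 41984) (S (nat_lit 54623) (S (nat_lit 36083) (S (nat_lit 22963) (S (nat_lit 38001) (S (nat_lit 57131) (L (nat_lit 19762696))
(L (nat_lit 25080163)))
(L (nat_lit 14495329)))
(S (nat_lit 31765) (L (nat_lit 14855933))
(L (nat_lit 13268325))))
(L (nat_lit 30813923)))
(L (nat_lit 21442464)))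
(L (nat_lit 25791979)))))
(S (nat_lit 47372) (S (nat_lit 1525) (S (nat_lit 1497) (S (nat_lit 31946) (S (nat_lit 49758) (S (nat_lit 1472) (S (nat_lit 13129) (S (nat_lit 6845) (S (nat_lit 19792) (S (nat_lit 30750) (S (nat_lit 43470) (S (nat_lit 24884) (L (nat_lit 23333369))
(L (nat_lit 12454606)))
(L (nat_lit 1338958)))
(L (nat_lit 30486127)))
(L (nat_lit 30705077)))
(L (nat_lit 26492481)))
(L (nat_lit 13851835)))
(L (nat_lit 12336215)))
(L (nat_lit 20888769)))
(S (nat_lit 45204) (L (nat_lit 12077889))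
(L (nat_lit 2014953))))
(S (nat_lit 21261) (S (nat_lit 1006) (S (nat_lit 30917) (L (nat_lit 20384585))
(S (nat_lit 53215) (S (nat_lit 2456) (S (nat_lit 39782) (S (nat_lit 30750) (S (nat_lit 5591) (L (nat_lit 29506182))
(L (nat_lit 19676327)))
(L (nat_lit 19666257)))
(L (nat_lit 10567607)))
(L (nat_lit 4994422)))
(L (nat_lit 21325902))))
(S (nat_lit 20770) (S (nat_lit 30750) (S (nat_lit 45898) (S (nat_lit 43248) (S (nat_lit 43470) (S (nat_lit 31946) (S (nat_lit 558) (L (nat_lit 20288925))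
(L (nat_lit 14364453)))
(L (nat_lit 12341294)))
(L (nat_lit 14494803)))
(L (nat_lit 16509249)))
(L (nat_lit 27614660)))
(L (nat_lit 3689850)))
(S (nat_lit 40534) (S (nat_lit 14645) (S (nat_lit 40086) (S (nat_lit 13378) (L (nat_lit 24296793))
(L (nat_lit 8056261)))
(L (nat_lit 12312963)))
(L (nat_lit 13822260)))
(L (nat_lit 25834725)))))
(S (nat_lit 41025) (S (nat_lit 49258) (S (nat_lit 30750) (S (nat_lit 53215) (S (nat_lit 7368) (S (nat_lit 45391) (S (nat_lit 56) (S (nat_lit 43470) (S (nat_lit 57581) (L (nat_lit 14288120))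
(L (nat_lit 27854283)))
(L (nat_lit 27478468)))
(L (nat_lit 12772939)))
(L (nat_lit 27510864)))
(L (nat_lit 14603553)))
(L (nat_lit 27808100)))
(S (nat_lit 54257) (L (nat_lit 13741942))
(L (nat_lit 14423654))))
(L (nat_lit 14587223)))
(L (nat_lit 25645377)))))
(S (nat_lit 21289) (S (nat_lit 1232) (S (nat_lit 28) (S (nat_lit 41984) (S (nat_lit 25355) (S (nat_lit 6591) (L (nat_lit 278455))
(L (nat_lit 13721910)))
(L (nat_lit 13978432)))
(L (nat_lit 4046199)))
(S (nat_lit 19792) (S (nat_lit 21739) (S (nat_lit 32158) (S (nat_lit 25627) (L (nat_lit 26870125))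
(L (nat_lit 14437450)))
(L (nat_lit 14505991)))
(L (nat_lit 11285556)))
(S (nat_lit 39556) (S (nat_lit 12182) (S (nat_lit 21261) (S (nat_lit 32893) (L (nat_lit 3611540))
(L (nat_lit 3366461)))
(L (nat_lit 2449907)))
(S (nat_lit 22104) (L (nat_lit 5991631))
(L (nat_lit 26361415))))
(L (nat_lit 25676809)))))
(S (nat_lit 20996) (S (nat_lit 30750) (S (nat_lit 43470) (S (nat_lit 1079) (L (nat_lit 21932080))
(S (nat_lit 12394) (S (nat_lit 10482) (S (nat_lit 45391) (S (nat_lit 36835) (S (nat_lit 34859) (L (nat_lit 29925494))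
(L (nat_lit 16690914)))
(L (nat_lit 17936024)))
(L (nat_lit 27930114)))
(L (nat_lit 20983694)))
(L (nat_lit 16516807))))
(L (nat_lit 27995588)))
(L (nat_lit 13708922)))
(S (nat_lit 40760) (S (nat_lit 16319) (S (nat_lit 34049) (L (nat_lit 5872524))
(S (nat_lit 34859) (S (nat_lit 20322) (S (nat_lit 53215) (S (nat_lit 18237) (S (nat_lit 26862) (S (nat_lit 39528) (S (nat_lit 26355) (S (nat_lit 7588) (S (nat_lit 33885) (L (nat_lit 30086413))
(L (nat_lit 16702538)))
(L (nat_lit 9024602)))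
(S (nat_lit 29565) (S (nat_lit 44648) (L (nat_lit 10258964))
(L (nat_lit 27604676)))
(S (nat_lit 47433) (S (nat_lit 6591) (S (nat_lit 32944) (L (nat_lit 13277273))
(L (nat_lit 23212344)))
(L (nat_lit 21049656)))
(L (nat_lit 9922644)))))
(L (nat_lit 23954822)))
(L (nat_lit 16483111)))
(L (nat_lit 1829073)))
(L (nat_lit 21062184)))
(L (nat_lit 15445829)))
(L (nat_lit 11285154))))
(L (nat_lit 17510147)))
(L (nat_lit 25560775)))))
(S (nat_lit 41053) (S (nat_lit 13378) (S (nat_lit 13687) (S (nat_lit 30750) (S (nat_lit 56375) (S (nat_lit 8033) (S (nat_lit 53457) (L (nat_lit 23239163))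
(L (nat_lit 27805834)))
(L (nat_lit 12336708)))
(L (nat_lit 7093828)))
(S (nat_lit 46493) (L (nat_lit 2542970))
(L (nat_lit 3951985))))
(S (nat_lit 33451) (S (nat_lit 43470) (S (nat_lit 23484) (S (nat_lit 16065) (L (nat_lit 11391427))
(L (nat_lit 1778137)))
(L (nat_lit 21174030)))
(L (nat_lit 27995588)))
(S (nat_lit 53215) (S (nat_lit 1975) (S (nat_lit 0) (S (nat_lit 51260) (S (nat_lit 18237) (S (nat_lit 20322) (L (nat_lit 24600933))
(L (nat_lit 22589253)))
(L (nat_lit 26544847)))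
(L (nat_lit 27412686)))
(L (nat_lit 13376563)))
(S (nat_lit 21739) (S (nat_lit 16319) (S (nat_lit 26353) (S (nat_lit 38479) (S (nat_lit 20770) (L (nat_lit 28391050))
(L (nat_lit 22243438)))
(L (nat_lit 14492356)))
(L (nat_lit 10217518)))
(L (nat_lit 10672911)))
(S (nat_lit 41503) (S (nat_lit 16319) (S (nat_lit 24884) (S (nat_lit 49258) (S (nat_lit 30750) (S (nat_lit 43470) (L (nat_lit 29467375))
(L (nat_lit 27995588)))
(L (nat_lit 17542945)))
(L (nat_lit 16395417)))
(L (nat_lit 20983598)))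
(L (nat_lit 24685724)))
(L (nat_lit 25867489)))))
(L (nat_lit 25734785)))))
(S (nat_lit 33142) (S (nat_lit 9730) (S (nat_lit 43470) (S (nat_lit 30246) (S (nat_lit 52657) (L (nat_lit 6212039))
(L (nat_lit 4961032)))
(L (nat_lit 11274742)))
(L (nat_lit 23864770)))
(S (nat_lit 29494) (S (nat_lit 16847) (S (nat_lit 34388) (L (nat_lit 12271493))
(L (nat_lit 23149352)))
(L (nat_lit 22985924)))
(S (nat_lit 49258) (S (nat_lit 53215) (S (nat_lit 36835) (S (nat_lit 45391) (S (nat_lit 28832) (S (nat_lit 14903) (S (nat_lit 4446) (S (nat_lit 21236) (S (nat_lit 55593) (L (nat_lit 8567698))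
(L (nat_lit 21065040)))
(L (nat_lit 8278128)))
(L (nat_lit 15904376)))
(L (nat_lit 12699933)))
(L (nat_lit 896563)))
(L (nat_lit 27806823)))
(S (nat_lit 55726) (L (nat_lit 21424389))
(L (nat_lit 11004480))))
(L (nat_lit 27611652)))
(L (nat_lit 25630039)))))
(S (nat_lit 52906) (S (nat_lit 6591) (S (nat_lit 30750) (S (nat_lit 16065) (S (nat_lit 54173) (S (nat_lit 558) (L (nat_lit 5785821))
(L (nat_lit 19399463)))
(L (nat_lit 21237176)))
(L (nat_lit 24226265)))
(L (nat_lit 10243249)))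
(S (nat_lit 26355) (S (nat_lit 30750) (S (nat_lit 53215) (S (nat_lit 8033) (S (nat_lit 16065) (S (nat_lit 49258) (S (nat_lit 36611) (S (nat_lit 47116) (S (nat_lit 46892) (S (nat_lit 8035) (S (nat_lit 25355) (S (nat_lit 51642) (S (nat_lit 48854) (S (nat_lit 26420) (S (nat_lit 8377) (S (nat_lit 8178) (S (nat_lit 8153) (D (nat_lit 8) (nat_lit 3613526) (nat_lit 3454740) (nat_lit 1226177600714474498))
(L (nat_lit 15462660)))
(L (nat_lit 15995512)))
(L (nat_lit 6008750)))
(L (nat_lit 10936405)))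
(L (nat_lit 31141317)))
(L (nat_lit 19804421)))
(L (nat_lit 21473401)))
(L (nat_lit 21765294)))
(L (nat_lit 27903300)))
(L (nat_lit 3680988)))
(L (nat_lit 20070182)))
(L (nat_lit 4102679)))
(L (nat_lit 24193497)))
(L (nat_lit 1501766)))
(L (nat_lit 19678216)))
(L (nat_lit 24916320)))
(S (nat_lit 46119) (S (nat_lit 30750) (S (nat_lit 43470) (S (nat_lit 16065) (S (nat_lit 53215) (S (nat_lit 36611) (L (nat_lit 3403221))
(L (nat_lit 2380591)))
(L (nat_lit 27349326)))
(L (nat_lit 10608089)))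
(L (nat_lit 27993538)))
(L (nat_lit 24646438)))
(L (nat_lit 25679942)))))
(L (nat_lit 25559347)))))
(L (nat_lit 25890030)))))
(L (nat_lit 25462512)))))
(L (nat_lit 25308813)))))
(L (nat_lit 25922950)))))

theorem rb180_1 : run 4 lb180 [] tb180_1 kb180 (P4 4 4791 2836 6347 2836 0 0 1 0) [] = true := by
  decide +kernel

noncomputable def tb246_0_7 : Tr :=
(S (nat_lit 17558) (S (nat_lit 1047) (S (nat_lit 10982) (S (nat_lit 1277) (S (nat_lit 1763) (S (nat_lit 62) (S (nat_lit 1732) (S (nat_lit 1246) (L (nat_lit 29066731))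
(L (nat_lit 20407430)))
(L (nat_lit 20407616)))
(L (nat_lit 1815900)))
(L (nat_lit 19084412)))
(S (nat_lit 21041) (S (nat_lit 57049) (S (nat_lit 48301) (S (nat_lit 15371) (L (nat_lit 14458002))
(L (nat_lit 2022733)))
(L (nat_lit 16619112)))
(L (nat_lit 4778569)))
(S (nat_lit 40805) (S (nat_lit 1279) (S (nat_lit 54862) (S (nat_lit 35115) (S (nat_lit 1776) (S (nat_lit 62) (L (nat_lit 18585448))
(L (nat_lit 26791083)))
(L (nat_lit 26794155)))
(L (nat_lit 8968378)))
(L (nat_lit 19409084)))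
(S (nat_lit 21043) (S (nat_lit 35115) (S (nat_lit 62) (L (nat_lit 584914))
(L (nat_lit 6873270)))
(L (nat_lit 23655590)))
(S (nat_lit 40807) (S (nat_lit 35115) (S (nat_lit 62) (L (nat_lit 748749))
(L (nat_lit 19457195)))
(L (nat_lit 10016956)))
(L (nat_lit 25898095)))))
(L (nat_lit 25708615)))))
(S (nat_lit 30746) (S (nat_lit 15334) (S (nat_lit 1257) (S (nat_lit 1743) (S (nat_lit 62) (S (nat_lit 15340) (L (nat_lit 29037872))
(L (nat_lit 26629224)))
(L (nat_lit 13551754)))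
(L (nat_lit 26465826)))
(S (nat_lit 21021) (S (nat_lit 1701) (L (nat_lit 1597811))
(L (nat_lit 13389156)))
(S (nat_lit 40785) (S (nat_lit 1715) (S (nat_lit 28576) (L (nat_lit 12850906))
(L (nat_lit 2444172)))
(L (nat_lit 13376694)))
(L (nat_lit 25378499)))))
(S (nat_lit 35098) (S (nat_lit 1969) (S (nat_lit 1743) (S (nat_lit 972) (L (nat_lit 13833848))
(L (nat_lit 19311396)))
(S (nat_lit 6009) (L (nat_lit 18508966))
(L (nat_lit 12604633))))
(S (nat_lit 21733) (S (nat_lit 1776) (L (nat_lit 12077244))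
(L (nat_lit 10219693)))
(S (nat_lit 41497) (S (nat_lit 108) (S (nat_lit 21587) (L (nat_lit 8566392))
(L (nat_lit 18505953)))
(S (nat_lit 1701) (S (nat_lit 19839) (S (nat_lit 35087) (L (nat_lit 28418547))
(L (nat_lit 23617828)))
(L (nat_lit 10195725)))
(L (nat_lit 2410904))))
(L (nat_lit 25772039)))))
(S (nat_lit 54862) (S (nat_lit 1763) (S (nat_lit 2019) (S (nat_lit 57049) (S (nat_lit 48290) (S (nat_lit 28559) (L (nat_lit 28564868))
(L (nat_lit 18967757)))
(L (nat_lit 20123533)))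
(L (nat_lit 12806326)))
(L (nat_lit 13338873)))
(S (nat_lit 21527) (S (nat_lit 57049) (S (nat_lit 2019) (L (nat_lit 24678777))
(L (nat_lit 14388075)))
(L (nat_lit 6008281)))
(S (nat_lit 41291) (S (nat_lit 75) (S (nat_lit 37307) (L (nat_lit 9148172))
(L (nat_lit 10173253)))
(L (nat_lit 13341511)))
(L (nat_lit 25375863)))))
(L (nat_lit 25383331)))))
(S (nat_lit 50510) (S (nat_lit 42) (S (nat_lit 62) (S (nat_lit 1715) (S (nat_lit 54862) (S (nat_lit 35087) (S (nat_lit 986) (L (nat_lit 14572896))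
(L (nat_lit 14439593)))
(L (nat_lit 30952554)))
(L (nat_lit 19409084)))
(S (nat_lit 6251) (S (nat_lit 57049) (L (nat_lit 17525061))
(L (nat_lit 27830454)))
(L (nat_lit 13423782))))
(S (nat_lit 2330) (S (nat_lit 3622) (L (nat_lit 7922838))
(L (nat_lit 14600548)))
(L (nat_lit 13507268))))
(S (nat_lit 19806) (S (nat_lit 1715) (S (nat_lit 1765) (S (nat_lit 1019) (S (nat_lit 1958) (S (nat_lit 35115) (S (nat_lit 30741) (S (nat_lit 1262) (S (nat_lit 37302) (S (nat_lit 19828) (S (nat_lit 48323) (S (nat_lit 19778) (S (nat_lit 39553) (S (nat_lit 40757) (S (nat_lit 41472) (S (nat_lit 21540) (S (nat_lit 20798) (S (nat_lit 40807) (S (nat_lit 8779) (S (nat_lit 40161) (S (nat_lit 23837) (S (nat_lit 45253) (S (nat_lit 4364) (S (nat_lit 6308) (D (nat_lit 11) (nat_lit 31133008) (nat_lit 25767429) (nat_lit 106473554112))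
(L (nat_lit 30888998)))
(L (nat_lit 29862594)))
(L (nat_lit 19741987)))
(S (nat_lit 42541) (S (nat_lit 3258) (S (nat_lit 24793) (S (nat_lit 5688) (D (nat_lit 11) (nat_lit 27858157) (nat_lit 25767363) (nat_lit 212843298912))
(L (nat_lit 27853352)))
(L (nat_lit 19366694)))
(L (nat_lit 28917060)))
(L (nat_lit 19405568))))
(L (nat_lit 11241949)))
(L (nat_lit 21054312)))
(L (nat_lit 10192284)))
(L (nat_lit 21279521)))
(L (nat_lit 30531019)))
(L (nat_lit 17731147)))
(L (nat_lit 9864890)))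
(L (nat_lit 17731924)))
(L (nat_lit 2348816)))
(L (nat_lit 20845003)))
(L (nat_lit 10343470)))
(L (nat_lit 20234394)))
(L (nat_lit 13247676)))
(L (nat_lit 9985212)))
(L (nat_lit 3465870)))
(L (nat_lit 13174108)))
(L (nat_lit 13272412)))
(L (nat_lit 19840357)))
(S (nat_lit 21479) (S (nat_lit 1019) (S (nat_lit 1246) (S (nat_lit 1732) (S (nat_lit 1215) (S (nat_lit 40768) (S (nat_lit 17527) (S (nat_lit 20695) (S (nat_lit 39575) (S (nat_lit 8748) (S (nat_lit 20767) (S (nat_lit 20798) (S (nat_lit 21043) (S (nat_lit 2058) (S (nat_lit 40470) (S (nat_lit 45093) (S (nat_lit 14922) (S (nat_lit 46291) (S (nat_lit 22656) (S (nat_lit 47738) (S (nat_lit 8116) (D (nat_lit 13) (nat_lit 27890055) (nat_lit 18997769) (nat_lit 4433555554306))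
(L (nat_lit 28728578)))
(L (nat_lit 19360838)))
(L (nat_lit 19773512)))
(L (nat_lit 19343141)))
(L (nat_lit 28625284)))
(S (nat_lit 47208) (S (nat_lit 46746) (S (nat_lit 7875) (D (nat_lit 15) (nat_lit 27933703) (nat_lit 4808973) (nat_lit 1052897))
(L (nat_lit 28429706)))
(L (nat_lit 19773696)))
(L (nat_lit 21217155))))
(L (nat_lit 14903347)))
(L (nat_lit 11187224)))
(L (nat_lit 5099854)))
(L (nat_lit 22328161)))
(L (nat_lit 30581204)))
(L (nat_lit 26221262)))
(L (nat_lit 10576278)))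
(L (nat_lit 11156669)))
(L (nat_lit 26530893)))
(L (nat_lit 27859982)))
(L (nat_lit 14461106)))
(L (nat_lit 13263015)))
(L (nat_lit 13263201)))
(L (nat_lit 19363137)))
(S (nat_lit 41243) (S (nat_lit 40564) (S (nat_lit 1279) (S (nat_lit 37302) (S (nat_lit 35115) (S (nat_lit 54862) (S (nat_lit 40743) (S (nat_lit 19828) (S (nat_lit 1229) (S (nat_lit 8810) (S (nat_lit 39625) (S (nat_lit 41503) (S (nat_lit 21054) (S (nat_lit 21527) (S (nat_lit 20798) (S (nat_lit 39940) (S (nat_lit 3258) (S (nat_lit 43320) (S (nat_lit 44778) (S (nat_lit 4852) (D (nat_lit 11) (nat_lit 31132134) (nat_lit 25767086) (nat_lit 106473560070))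
(L (nat_lit 31144128)))
(L (nat_lit 2970120)))
(L (nat_lit 28810914)))
(S (nat_lit 5007) (S (nat_lit 4979) (S (nat_lit 5791) (S (nat_lit 41571) (S (nat_lit 34723) (S (nat_lit 26544) (D (nat_lit 9) (nat_lit 11393507) (nat_lit 25601138) (nat_lit 144022046790))
(L (nat_lit 27897863)))
(L (nat_lit 19408704)))
(L (nat_lit 19357888)))
(L (nat_lit 29905089)))
(L (nat_lit 27808960)))
(L (nat_lit 21300761))))
(L (nat_lit 26840398)))
(L (nat_lit 5976871)))
(L (nat_lit 21082918)))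
(L (nat_lit 30955656)))
(L (nat_lit 8866596)))
(L (nat_lit 12670792)))
(L (nat_lit 15604325)))
(L (nat_lit 8508892)))
(L (nat_lit 10278274)))
(L (nat_lit 18456765)))
(L (nat_lit 21455016)))
(L (nat_lit 9127098)))
(L (nat_lit 10084529)))
(L (nat_lit 12670758)))
(L (nat_lit 9492398)))
(L (nat_lit 25476119)))))
(S (nat_lit 39570) (S (nat_lit 1229) (S (nat_lit 54862) (S (nat_lit 28537) (S (nat_lit 21529) (L (nat_lit 4570962))
(L (nat_lit 14734717)))
(L (nat_lit 12637565)))
(L (nat_lit 15749500)))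
(S (nat_lit 20993) (S (nat_lit 21755) (S (nat_lit 39553) (L (nat_lit 4676986))
(L (nat_lit 27680098)))
(L (nat_lit 22167929)))
(S (nat_lit 40757) (S (nat_lit 41229) (S (nat_lit 41293) (L (nat_lit 15466866))
(L (nat_lit 17932149)))
(L (nat_lit 18450813)))
(L (nat_lit 25336310)))))
(L (nat_lit 25856364)))))
(L (nat_lit 25251370)))))
(S (nat_lit 20811) (S (nat_lit 1277) (S (nat_lit 17543) (S (nat_lit 15351) (S (nat_lit 48301) (L (nat_lit 4771591))
(L (nat_lit 22920361)))
(S (nat_lit 35115) (S (nat_lit 1958) (S (nat_lit 986) (L (nat_lit 26258032))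
(L (nat_lit 19142108)))
(S (nat_lit 21639) (S (nat_lit 986) (L (nat_lit 20324194))
(L (nat_lit 19142108)))
(L (nat_lit 9557468))))
(S (nat_lit 54879) (S (nat_lit 35087) (S (nat_lit 39590) (S (nat_lit 28526) (L (nat_lit 8303798))
(L (nat_lit 19084036)))
(L (nat_lit 18574507)))
(L (nat_lit 19952941)))
(L (nat_lit 25889255)))))
(S (nat_lit 37307) (S (nat_lit 23104) (L (nat_lit 18605252))
(S (nat_lit 50505) (S (nat_lit 48276) (S (nat_lit 1732) (S (nat_lit 28537) (S (nat_lit 35087) (S (nat_lit 10536) (S (nat_lit 15373) (S (nat_lit 1944) (S (nat_lit 64) (S (nat_lit 1715) (S (nat_lit 30774) (S (nat_lit 47) (S (nat_lit 48323) (S (nat_lit 58214) (S (nat_lit 21507) (S (nat_lit 30366) (S (nat_lit 30322) (S (nat_lit 15639) (S (nat_lit 22281) (S (nat_lit 51388) (D (nat_lit 15) (nat_lit 26811564) (nat_lit 25759112) (nat_lit 4570744899))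
(L (nat_lit 30131493)))
(L (nat_lit 25049444)))
(S (nat_lit 23543) (S (nat_lit 56192) (S (nat_lit 6547) (D (nat_lit 15) (nat_lit 13986932) (nat_lit 19664205) (nat_lit 38923145384))
(L (nat_lit 31178980)))
(L (nat_lit 28976517)))
(L (nat_lit 23324068))))
(L (nat_lit 14593170)))
(L (nat_lit 20186586)))
(L (nat_lit 5914473)))
(L (nat_lit 26225324)))
(L (nat_lit 4809163)))
(L (nat_lit 20051185)))
(L (nat_lit 3977524)))
(L (nat_lit 20359357)))
(L (nat_lit 20888617)))
(L (nat_lit 12707401)))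
(L (nat_lit 22987816)))
(L (nat_lit 5788587)))
(L (nat_lit 3912458)))
(L (nat_lit 12594034)))
(L (nat_lit 12609162)))
(L (nat_lit 6199766)))
(L (nat_lit 5793108))))
(S (nat_lit 57071) (S (nat_lit 1944) (S (nat_lit 50505) (S (nat_lit 28559) (L (nat_lit 20874604))
(L (nat_lit 12904068)))
(L (nat_lit 5786374)))
(S (nat_lit 21708) (S (nat_lit 35137) (S (nat_lit 39553) (L (nat_lit 13536627))
(L (nat_lit 27870562)))
(L (nat_lit 9220150)))
(S (nat_lit 41472) (S (nat_lit 1215) (S (nat_lit 35087) (S (nat_lit 54879) (L (nat_lit 12169340))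
(L (nat_lit 21063024)))
(L (nat_lit 3355572)))
(L (nat_lit 10897593)))
(L (nat_lit 25603187)))))
(L (nat_lit 25243186)))))
(S (nat_lit 21041) (S (nat_lit 8779) (S (nat_lit 14) (S (nat_lit 35087) (S (nat_lit 1701) (L (nat_lit 1599858))
(L (nat_lit 13421924)))
(S (nat_lit 54769) (L (nat_lit 1437239))
(L (nat_lit 19968313))))
(S (nat_lit 19778) (S (nat_lit 10935) (S (nat_lit 30713) (S (nat_lit 21783) (S (nat_lit 15309) (S (nat_lit 1290) (S (nat_lit 40807) (S (nat_lit 21512) (S (nat_lit 48323) (S (nat_lit 57099) (S (nat_lit 57038) (S (nat_lit 64) (S (nat_lit 50505) (S (nat_lit 48340) (S (nat_lit 58663) (S (nat_lit 54899) (S (nat_lit 19409) (S (nat_lit 19795) (S (nat_lit 58680) (S (nat_lit 49388) (S (nat_lit 19362) (S (nat_lit 29819) (S (nat_lit 33855) (S (nat_lit 32110) (S (nat_lit 4218) (D (nat_lit 15) (nat_lit 27859086) (nat_lit 19666253) (nat_lit 40970002692))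
(L (nat_lit 27731653)))
(L (nat_lit 28028291)))
(S (nat_lit 44114) (S (nat_lit 16189) (S (nat_lit 25046) (D (nat_lit 15) (nat_lit 26943663) (nat_lit 19664140) (nat_lit 4564456614))
(L (nat_lit 27775203)))
(L (nat_lit 27935971)))
(L (nat_lit 22545722))))
(L (nat_lit 28662895)))
(L (nat_lit 29742500)))
(L (nat_lit 8409903)))
(L (nat_lit 10514999)))
(L (nat_lit 8866936)))
(L (nat_lit 19133454)))
(L (nat_lit 10666772)))
(L (nat_lit 11456592)))
(L (nat_lit 22889666)))
(L (nat_lit 14769533)))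
(L (nat_lit 26545588)))
(L (nat_lit 12111748)))
(L (nat_lit 4992721)))
(L (nat_lit 22854852)))
(L (nat_lit 30655041)))
(L (nat_lit 309852)))
(L (nat_lit 26224301)))
(L (nat_lit 6306583)))
(L (nat_lit 30988515)))
(L (nat_lit 30969418)))
(L (nat_lit 21529383)))
(S (nat_lit 39542) (S (nat_lit 1019) (S (nat_lit 41514) (S (nat_lit 35087) (S (nat_lit 41260) (L (nat_lit 24948997))
(L (nat_lit 7213525)))
(L (nat_lit 12612914)))
(L (nat_lit 27507730)))
(S (nat_lit 25436) (L (nat_lit 26414518))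
(L (nat_lit 26396263))))
(L (nat_lit 25567351)))))
(S (nat_lit 28543) (S (nat_lit 1019) (S (nat_lit 39590) (S (nat_lit 57055) (S (nat_lit 17496) (L (nat_lit 11720088))
(L (nat_lit 22578950)))
(L (nat_lit 27985168)))
(L (nat_lit 18585786)))
(S (nat_lit 57432) (L (nat_lit 22578982))
(L (nat_lit 26709607))))
(S (nat_lit 48307) (S (nat_lit 54879) (S (nat_lit 39590) (S (nat_lit 57024) (S (nat_lit 21722) (S (nat_lit 1763) (L (nat_lit 9339473))
(L (nat_lit 4777704)))
(L (nat_lit 4645542)))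
(L (nat_lit 4773083)))
(L (nat_lit 23632644)))
(L (nat_lit 11626128)))
(L (nat_lit 25925708)))))
(S (nat_lit 40805) (S (nat_lit 17543) (S (nat_lit 54879) (S (nat_lit 17419) (L (nat_lit 24405036))
(S (nat_lit 17521) (S (nat_lit 39590) (S (nat_lit 20767) (S (nat_lit 41534) (L (nat_lit 24129916))
(L (nat_lit 23343872)))
(L (nat_lit 970187)))
(L (nat_lit 24674682)))
(L (nat_lit 768346))))
(L (nat_lit 5981531)))
(S (nat_lit 37307) (S (nat_lit 10982) (S (nat_lit 41291) (S (nat_lit 39590) (S (nat_lit 48276) (S (nat_lit 40525) (S (nat_lit 21010) (S (nat_lit 30774) (S (nat_lit 1215) (S (nat_lit 1701) (S (nat_lit 48167) (S (nat_lit 35087) (S (nat_lit 57055) (S (nat_lit 1765) (S (nat_lit 41514) (S (nat_lit 41497) (S (nat_lit 8823) (S (nat_lit 41254) (S (nat_lit 48340) (S (nat_lit 30713) (S (nat_lit 8857) (S (nat_lit 57021) (S (nat_lit 32310) (S (nat_lit 12527) (S (nat_lit 55183) (S (nat_lit 54940) (S (nat_lit 8139) (S (nat_lit 33347) (D (nat_lit 11)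 (nat_lit 31107618) (nat_lit 19673195) (nat_lit 106577365218))
(L (nat_lit 13491424)))
(L (nat_lit 28903881)))
(L (nat_lit 28791045)))
(L (nat_lit 28791044)))
(L (nat_lit 28913924)))
(S (nat_lit 44114) (S (nat_lit 14030) (S (nat_lit 43083) (S (nat_lit 50924) (S (nat_lit 42354) (S (nat_lit 7150) (D (nat_lit 11) (nat_lit 25769184) (nat_lit 19673379) (nat_lit 176162963648))
(L (nat_lit 27935012)))
(L (nat_lit 29047816)))
(L (nat_lit 13963187)))
(L (nat_lit 29047817)))
(L (nat_lit 30841476)))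
(L (nat_lit 22297473))))
(L (nat_lit 14502241)))
(L (nat_lit 18604226)))
(L (nat_lit 8413100)))
(L (nat_lit 27692681)))
(L (nat_lit 23381765)))
(L (nat_lit 23997984)))
(L (nat_lit 18144001)))
(L (nat_lit 18081509)))
(L (nat_lit 10000148)))
(L (nat_lit 27990125)))
(L (nat_lit 3700330)))
(L (nat_lit 8181156)))
(L (nat_lit 20001577)))
(L (nat_lit 20198179)))
(L (nat_lit 10269409)))
(L (nat_lit 16518795)))
(L (nat_lit 17916614)))
(L (nat_lit 20477153)))
(L (nat_lit 12089060)))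
(L (nat_lit 16994049)))
(S (nat_lit 43635) (L (nat_lit 12283025))
(L (nat_lit 21049134))))
(S (nat_lit 57071) (S (nat_lit 1019) (S (nat_lit 8779) (S (nat_lit 21054) (S (nat_lit 1715) (L (nat_lit 19121304))
(L (nat_lit 13380257)))
(L (nat_lit 14768348)))
(S (nat_lit 24119) (L (nat_lit 8947506))
(L (nat_lit 761243))))
(S (nat_lit 20783) (S (nat_lit 31) (S (nat_lit 21026) (S (nat_lit 17527) (L (nat_lit 5829223))
(L (nat_lit 319344)))
(L (nat_lit 15638082)))
(L (nat_lit 20033850)))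
(S (nat_lit 40547) (S (nat_lit 54879) (S (nat_lit 37190) (L (nat_lit 8172566))
(L (nat_lit 7922340)))
(L (nat_lit 27829824)))
(L (nat_lit 25379425)))))
(L (nat_lit 25475749)))))
(L (nat_lit 25473110)))))
(S (nat_lit 40575) (S (nat_lit 25) (S (nat_lit 31) (S (nat_lit 15334) (S (nat_lit 21054) (L (nat_lit 547197))
(L (nat_lit 1595770)))
(S (nat_lit 35098) (S (nat_lit 8943) (L (nat_lit 28556466))
(S (nat_lit 19826) (S (nat_lit 30741) (S (nat_lit 37285) (L (nat_lit 4770172))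
(L (nat_lit 23653544)))
(L (nat_lit 3760495)))
(L (nat_lit 30967158))))
(S (nat_lit 54862) (S (nat_lit 50463) (S (nat_lit 1277) (L (nat_lit 6875316))
(L (nat_lit 12601660)))
(S (nat_lit 54758) (L (nat_lit 12115096))
(L (nat_lit 12781492))))
(L (nat_lit 25375894)))))
(S (nat_lit 19795) (S (nat_lit 1732) (S (nat_lit 1246) (S (nat_lit 37274) (S (nat_lit 40743) (L (nat_lit 24360837))
(L (nat_lit 8309932)))
(L (nat_lit 9146286)))
(L (nat_lit 6113646)))
(S (nat_lit 21496) (S (nat_lit 15351) (L (nat_lit 7071918))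
(L (nat_lit 22309040)))
(S (nat_lit 41260) (S (nat_lit 15351) (L (nat_lit 12217518))
(L (nat_lit 26489013)))
(L (nat_lit 25832901)))))
(S (nat_lit 39559) (S (nat_lit 30746) (S (nat_lit 5479) (L (nat_lit 26845635))
(S (nat_lit 48290) (S (nat_lit 21750) (S (nat_lit 8812) (S (nat_lit 1019) (S (nat_lit 39575) (S (nat_lit 19839) (S (nat_lit 37291) (S (nat_lit 1215) (L (nat_lit 28385716))
(S (nat_lit 45316) (L (nat_lit 9956406))
(L (nat_lit 3582585))))
(L (nat_lit 2891190)))
(L (nat_lit 10261971)))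
(L (nat_lit 17076858)))
(L (nat_lit 20137731)))
(L (nat_lit 26839497)))
(L (nat_lit 11276851)))
(L (nat_lit 27463061))))
(S (nat_lit 44726) (L (nat_lit 23631656))
(L (nat_lit 19142542))))
(L (nat_lit 25239183)))))
(S (nat_lit 19789) (S (nat_lit 15309) (S (nat_lit 15371) (S (nat_lit 28537) (L (nat_lit 22910321))
(L (nat_lit 30626993)))
(S (nat_lit 35135) (S (nat_lit 42) (S (nat_lit 19826) (L (nat_lit 5034349))
(L (nat_lit 22604133)))
(L (nat_lit 7006381)))
(S (nat_lit 54899) (S (nat_lit 75) (S (nat_lit 21783) (S (nat_lit 10982) (L (nat_lit 29558445))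
(L (nat_lit 26524356)))
(L (nat_lit 21528924)))
(L (nat_lit 2022855)))
(L (nat_lit 25336306)))))
(S (nat_lit 35073) (S (nat_lit 1944) (S (nat_lit 28537) (S (nat_lit 12767) (L (nat_lit 29610156))
(L (nat_lit 14229693)))
(L (nat_lit 18765154)))
(S (nat_lit 21708) (S (nat_lit 30761) (S (nat_lit 10977) (S (nat_lit 1958) (L (nat_lit 24330425))
(L (nat_lit 11949212)))
(L (nat_lit 26533039)))
(L (nat_lit 30786739)))
(S (nat_lit 41472) (S (nat_lit 1732) (L (nat_lit 9919673))
(L (nat_lit 10341550)))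
(L (nat_lit 25276723)))))
(S (nat_lit 54837) (S (nat_lit 1036) (S (nat_lit 30746) (S (nat_lit 50505) (S (nat_lit 64) (S (nat_lit 57071) (L (nat_lit 13770612))
(L (nat_lit 11037412)))
(L (nat_lit 19407898)))
(L (nat_lit 28030305)))
(S (nat_lit 58634) (L (nat_lit 4070126))
(L (nat_lit 2385550))))
(S (nat_lit 20800) (S (nat_lit 1279) (L (nat_lit 14588517))
(L (nat_lit 19840257)))
(S (nat_lit 40564) (S (nat_lit 30746) (S (nat_lit 1229) (L (nat_lit 19000591))
(L (nat_lit 19301757)))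
(L (nat_lit 10216462)))
(L (nat_lit 25213204)))))
(L (nat_lit 25222352)))))
(S (nat_lit 39553) (S (nat_lit 17527) (S (nat_lit 1726) (S (nat_lit 8779) (S (nat_lit 35087) (S (nat_lit 37302) (L (nat_lit 804458))
(L (nat_lit 20046191)))
(L (nat_lit 20144676)))
(S (nat_lit 52550) (L (nat_lit 18548092))
(L (nat_lit 1908305))))
(S (nat_lit 21490) (S (nat_lit 8779) (S (nat_lit 48338) (S (nat_lit 39575) (L (nat_lit 11142554))
(L (nat_lit 24199386)))
(L (nat_lit 22814116)))
(L (nat_lit 8193617)))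
(S (nat_lit 41254) (S (nat_lit 15423) (S (nat_lit 15351) (S (nat_lit 8779) (L (nat_lit 26811502))
(L (nat_lit 15572706)))
(L (nat_lit 22603942)))
(S (nat_lit 35115) (S (nat_lit 39575) (S (nat_lit 40818) (S (nat_lit 41497) (L (nat_lit 12705145))
(L (nat_lit 23381084)))
(L (nat_lit 23381795)))
(L (nat_lit 23381018)))
(L (nat_lit 18571398))))
(L (nat_lit 25804903)))))
(S (nat_lit 37291) (S (nat_lit 1290) (S (nat_lit 1019) (S (nat_lit 54862) (S (nat_lit 19811) (S (nat_lit 19826) (S (nat_lit 35087) (S (nat_lit 41293) (S (nat_lit 40768) (S (nat_lit 40500) (S (nat_lit 57099) (S (nat_lit 30713) (S (nat_lit 48290) (S (nat_lit 21750) (S (nat_lit 1969) (S (nat_lit 20993) (S (nat_lit 21026) (S (nat_lit 50169) (S (nat_lit 10935) (S (nat_lit 16195) (S (nat_lit 4730) (S (nat_lit 17006) (S (nat_lit 31165) (S (nat_lit 26793) (S (nat_lit 6157) (D (nat_lit 13) (nat_lit 27678018) (nat_lit 1853644) (nat_lit 3391167717))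
(L (nat_lit 27763797)))
(L (nat_lit 21871718)))
(L (nat_lit 21871940)))
(L (nat_lit 31079748)))
(L (nat_lit 28982529)))
(S (nat_lit 27732) (S (nat_lit 3641) (S (nat_lit 27765) (S (nat_lit 28006) (S (nat_lit 13478) (S (nat_lit 15634) (D (nat_lit 13) (nat_lit 28725286) (nat_lit 1482514) (nat_lit 7718605960))
(L (nat_lit 27965512)))
(L (nat_lit 29037034)))
(L (nat_lit 21866021)))
(L (nat_lit 21871904)))
(L (nat_lit 31145312)))
(L (nat_lit 13542518))))
(L (nat_lit 26706132)))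
(L (nat_lit 29926548)))
(L (nat_lit 31073456)))
(L (nat_lit 12158736)))
(L (nat_lit 18989275)))
(L (nat_lit 22977612)))
(L (nat_lit 4410159)))
(L (nat_lit 13885188)))
(L (nat_lit 10641847)))
(L (nat_lit 3798442)))
(L (nat_lit 9553749)))
(L (nat_lit 1817977)))
(L (nat_lit 20170500)))
(L (nat_lit 16457509)))
(L (nat_lit 3955114)))
(L (nat_lit 19423586)))
(L (nat_lit 13655325)))
(S (nat_lit 21054) (S (nat_lit 35087) (S (nat_lit 21529) (S (nat_lit 37285) (S (nat_lit 15351) (S (nat_lit 54862) (S (nat_lit 20767) (S (nat_lit 19811) (S (nat_lit 28704) (S (nat_lit 41271) (S (nat_lit 15384) (S (nat_lit 40542) (S (nat_lit 21021) (S (nat_lit 28587) (S (nat_lit 39592) (S (nat_lit 33032) (S (nat_lit 26175) (S (nat_lit 51400) (S (nat_lit 12243) (D (nat_lit 11) (nat_lit 31164902) (nat_lit 2900274) (nat_lit 206193232005))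
(L (nat_lit 28433930)))
(L (nat_lit 24645478)))
(L (nat_lit 28431883)))
(S (nat_lit 36695) (S (nat_lit 55891) (S (nat_lit 16467) (S (nat_lit 4094) (S (nat_lit 11158) (D (nat_lit 13) (nat_lit 31100426) (nat_lit 25764975) (nat_lit 3337360772098))
(L (nat_lit 29759666)))
(L (nat_lit 31102438)))
(L (nat_lit 31178018)))
(L (nat_lit 29014276)))
(L (nat_lit 4569787))))
(L (nat_lit 6012776)))
(L (nat_lit 18453255)))
(L (nat_lit 31112483)))
(L (nat_lit 17601842)))
(L (nat_lit 7260544)))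
(L (nat_lit 23535428)))
(L (nat_lit 27827380)))
(L (nat_lit 10405444)))
(L (nat_lit 969163)))
(L (nat_lit 19130787)))
(L (nat_lit 584053)))
(L (nat_lit 2675069)))
(L (nat_lit 768381)))
(L (nat_lit 23078669)))
(S (nat_lit 40818) (S (nat_lit 35087) (S (nat_lit 19811) (S (nat_lit 41519) (S (nat_lit 57099) (S (nat_lit 1732) (S (nat_lit 35135) (S (nat_lit 1019) (S (nat_lit 48338) (S (nat_lit 15351) (S (nat_lit 21507) (S (nat_lit 40785) (S (nat_lit 15384) (S (nat_lit 39559) (S (nat_lit 8773) (S (nat_lit 42) (S (nat_lit 7697) (S (nat_lit 31835) (S (nat_lit 15455) (S (nat_lit 6442) (S (nat_lit 12729) (D (nat_lit 13) (nat_lit 27932960) (nat_lit 25767461) (nat_lit 6673580300320))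
(L (nat_lit 27931874)))
(L (nat_lit 28980481)))
(L (nat_lit 28903946)))
(L (nat_lit 16020096)))
(S (nat_lit 32089) (S (nat_lit 42879) (S (nat_lit 55789) (S (nat_lit 50384) (S (nat_lit 36920) (D (nat_lit 13) (nat_lit 26882150) (nat_lit 25765347) (nat_lit 241659183304))
(L (nat_lit 28984673)))
(L (nat_lit 10342885)))
(L (nat_lit 23590176)))
(L (nat_lit 21558629)))
(L (nat_lit 1728935))))
(L (nat_lit 1943090)))
(L (nat_lit 7359931)))
(L (nat_lit 27918793)))
(L (nat_lit 15635143)))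
(L (nat_lit 17467146)))
(L (nat_lit 22813804)))
(L (nat_lit 17066135)))
(L (nat_lit 12335716)))
(L (nat_lit 13444705)))
(L (nat_lit 9886907)))
(L (nat_lit 10302644)))
(L (nat_lit 27642272)))
(L (nat_lit 18767014)))
(L (nat_lit 3458683)))
(L (nat_lit 18080357)))
(L (nat_lit 25478787)))))
(S (nat_lit 57055) (S (nat_lit 15356) (S (nat_lit 1215) (S (nat_lit 1279) (S (nat_lit 47) (S (nat_lit 1765) (L (nat_lit 779687))
(L (nat_lit 12113701)))
(L (nat_lit 13917988)))
(L (nat_lit 9144110)))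
(S (nat_lit 17434) (S (nat_lit 54862) (L (nat_lit 5554995))
(L (nat_lit 27478188)))
(L (nat_lit 18981676))))
(S (nat_lit 35120) (S (nat_lit 5486) (S (nat_lit 37229) (L (nat_lit 7246291))
(L (nat_lit 16689268)))
(S (nat_lit 54862) (S (nat_lit 41519) (S (nat_lit 11010) (S (nat_lit 21750) (S (nat_lit 30713) (L (nat_lit 17728790))
(L (nat_lit 8407481)))
(L (nat_lit 16526051)))
(L (nat_lit 6689529)))
(L (nat_lit 485751)))
(L (nat_lit 27311753))))
(S (nat_lit 54884) (S (nat_lit 12544) (L (nat_lit 18917882))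
(S (nat_lit 15351) (S (nat_lit 30746) (S (nat_lit 41547) (L (nat_lit 2339730))
(L (nat_lit 27542674)))
(L (nat_lit 13899667)))
(L (nat_lit 7760055))))
(L (nat_lit 25563378)))))
(L (nat_lit 25599062)))))
(L (nat_lit 25368084)))))
(L (nat_lit 25730690)))))
(S (nat_lit 37322) (S (nat_lit 1246) (S (nat_lit 986) (S (nat_lit 1748) (S (nat_lit 2019) (S (nat_lit 972) (S (nat_lit 1776) (S (nat_lit 35135) (S (nat_lit 1944) (S (nat_lit 1279) (S (nat_lit 1262) (L (nat_lit 5592472))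
(L (nat_lit 19071389)))
(L (nat_lit 14593636)))
(L (nat_lit 13932153)))
(L (nat_lit 10121357)))
(L (nat_lit 14359362)))
(L (nat_lit 13983891)))
(S (nat_lit 21783) (S (nat_lit 42) (S (nat_lit 48301) (S (nat_lit 35135) (S (nat_lit 1279) (L (nat_lit 29887828))
(L (nat_lit 18966923)))
(L (nat_lit 2996596)))
(L (nat_lit 6143351)))
(S (nat_lit 38387) (L (nat_lit 12439696))
(L (nat_lit 13266055))))
(S (nat_lit 41547) (S (nat_lit 1019) (S (nat_lit 35135) (S (nat_lit 1279) (S (nat_lit 42) (S (nat_lit 48301) (S (nat_lit 1763) (S (nat_lit 19789) (S (nat_lit 37307) (S (nat_lit 75) (S (nat_lit 19828) (S (nat_lit 33334) (S (nat_lit 26710) (S (nat_lit 17521) (S (nat_lit 15334) (S (nat_lit 13782) (S (nat_lit 17690) (S (nat_lit 30355) (S (nat_lit 31813) (S (nat_lit 57198) (D (nat_lit 11) (nat_lit 26915976) (nat_lit 25767086) (nat_lit 69210372))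
(L (nat_lit 30130436)))
(L (nat_lit 20345061)))
(L (nat_lit 20375744)))
(S (nat_lit 41091) (S (nat_lit 31329) (S (nat_lit 58184) (S (nat_lit 56726) (D (nat_lit 11) (nat_lit 26919082) (nat_lit 19672240) (nat_lit 242229384))
(L (nat_lit 24027213)))
(L (nat_lit 24033351)))
(L (nat_lit 28779139)))
(L (nat_lit 12902514))))
(L (nat_lit 17033365)))
(L (nat_lit 22222331)))
(L (nat_lit 22222299)))
(L (nat_lit 12120672)))
(L (nat_lit 3881309)))
(L (nat_lit 3498421)))
(L (nat_lit 13819160)))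
(L (nat_lit 3583826)))
(L (nat_lit 16604296)))
(L (nat_lit 13830908)))
(L (nat_lit 11154588)))
(L (nat_lit 14537894)))
(L (nat_lit 19432795)))
(L (nat_lit 9295023)))
(L (nat_lit 20825223)))
(L (nat_lit 25729669)))))
(L (nat_lit 14321020)))
(S (nat_lit 20750) (S (nat_lit 1701) (S (nat_lit 30761) (S (nat_lit 35115) (S (nat_lit 57049) (S (nat_lit 1215) (S (nat_lit 35087) (S (nat_lit 1047) (S (nat_lit 21708) (S (nat_lit 41519) (S (nat_lit 8773) (S (nat_lit 21054) (S (nat_lit 35137) (S (nat_lit 44769) (S (nat_lit 30730) (S (nat_lit 997) (S (nat_lit 44719) (S (nat_lit 19789) (S (nat_lit 23847) (S (nat_lit 4309) (S (nat_lit 10180) (S (nat_lit 11754) (S (nat_lit 49476) (D (nat_lit 15) (nat_lit 25759111) (nat_lit 19666189) (nat_lit 2186285187))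
(L (nat_lit 30000266)))
(L (nat_lit 27773184)))
(S (nat_lit 44325) (S (nat_lit 58634) (S (nat_lit 17009) (D (nat_lit 15) (nat_lit 31016292) (nat_lit 25759052) (nat_lit 103289033890))
(L (nat_lit 29963432)))
(L (nat_lit 10309059)))
(L (nat_lit 14278822))))
(L (nat_lit 381868)))
(L (nat_lit 10407331)))
(L (nat_lit 15554914)))
(L (nat_lit 16009984)))
(L (nat_lit 26840619)))
(L (nat_lit 3948104)))
(L (nat_lit 19295402)))
(L (nat_lit 10268723)))
(L (nat_lit 21554531)))
(L (nat_lit 1602935)))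
(L (nat_lit 2770296)))
(L (nat_lit 31043939)))
(L (nat_lit 19402105)))
(L (nat_lit 10215813)))
(L (nat_lit 3793165)))
(L (nat_lit 6011257)))
(L (nat_lit 23486816)))
(L (nat_lit 19267963)))
(S (nat_lit 21465) (S (nat_lit 1991) (S (nat_lit 20811) (L (nat_lit 14805364))
(L (nat_lit 21521764)))
(L (nat_lit 20777329)))
(S (nat_lit 41229) (S (nat_lit 41293) (S (nat_lit 1229) (S (nat_lit 1019) (S (nat_lit 50505) (L (nat_lit 22115751))
(L (nat_lit 28030305)))
(L (nat_lit 2991511)))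
(L (nat_lit 26392951)))
(L (nat_lit 3946869)))
(L (nat_lit 25767332)))))
(S (nat_lit 40514) (S (nat_lit 1732) (S (nat_lit 1701) (S (nat_lit 1944) (S (nat_lit 1047) (S (nat_lit 35115) (S (nat_lit 1975) (L (nat_lit 17501565))
(L (nat_lit 20819425)))
(L (nat_lit 3732853)))
(L (nat_lit 19461476)))
(L (nat_lit 14278827)))
(S (nat_lit 21465) (S (nat_lit 1944) (S (nat_lit 37302) (S (nat_lit 40531) (S (nat_lit 16672) (L (nat_lit 13308125))
(L (nat_lit 20375905)))
(L (nat_lit 3984751)))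
(L (nat_lit 16895356)))
(L (nat_lit 26332525)))
(S (nat_lit 41229) (S (nat_lit 19826) (S (nat_lit 35073) (S (nat_lit 41293) (S (nat_lit 35087) (L (nat_lit 10374560))
(L (nat_lit 30625157)))
(L (nat_lit 18575717)))
(L (nat_lit 3928518)))
(L (nat_lit 22851723)))
(L (nat_lit 25243213)))))
(S (nat_lit 21496) (S (nat_lit 31) (S (nat_lit 35137) (L (nat_lit 5090958))
(L (nat_lit 13405864)))
(S (nat_lit 19795) (S (nat_lit 54901) (S (nat_lit 1701) (S (nat_lit 28512) (L (nat_lit 12911478))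
(L (nat_lit 4005334)))
(L (nat_lit 14437732)))
(L (nat_lit 19067336)))
(S (nat_lit 39559) (S (nat_lit 35087) (S (nat_lit 54901) (S (nat_lit 1019) (S (nat_lit 19806) (S (nat_lit 19789) (S (nat_lit 11010) (S (nat_lit 50505) (S (nat_lit 15351) (S (nat_lit 51669) (S (nat_lit 48307) (S (nat_lit 8812) (S (nat_lit 41229) (S (nat_lit 39542) (S (nat_lit 31872) (S (nat_lit 56410) (S (nat_lit 17158) (S (nat_lit 51625) (S (nat_lit 33260) (S (nat_lit 3743) (S (nat_lit 39193) (D (nat_lit 15) (nat_lit 27862161) (nat_lit 25759053) (nat_lit 208445578464))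
(L (nat_lit 27866372)))
(L (nat_lit 28790980)))
(S (nat_lit 38204) (S (nat_lit 19102) (S (nat_lit 8737) (D (nat_lit 15) (nat_lit 29513193) (nat_lit 19063117) (nat_lit 74356690022))
(L (nat_lit 29984298)))
(L (nat_lit 27866338)))
(L (nat_lit 18008379))))
(L (nat_lit 11990657)))
(L (nat_lit 18783251)))
(L (nat_lit 28485260)))
(L (nat_lit 29790794)))
(L (nat_lit 27507333)))
(L (nat_lit 1666413)))
(L (nat_lit 26912195)))
(L (nat_lit 14549298)))
(L (nat_lit 19336042)))
(L (nat_lit 1468789)))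
(L (nat_lit 13502836)))
(L (nat_lit 18182228)))
(L (nat_lit 30858595)))
(L (nat_lit 31078753)))
(L (nat_lit 20411713)))
(L (nat_lit 5927369)))
(S (nat_lit 46674) (L (nat_lit 20200509))
(L (nat_lit 8446356))))
(L (nat_lit 25446510)))))
(S (nat_lit 41260) (S (nat_lit 1279) (S (nat_lit 37302) (S (nat_lit 19789) (S (nat_lit 35148) (L (nat_lit 4631349))
(L (nat_lit 3761454)))
(L (nat_lit 14904501)))
(L (nat_lit 10243249)))
(L (nat_lit 20887718)))
(L (nat_lit 25634464)))))
(L (nat_lit 25428657)))))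
(S (nat_lit 21010) (S (nat_lit 972) (S (nat_lit 8748) (S (nat_lit 8762) (S (nat_lit 40807) (S (nat_lit 54884) (L (nat_lit 13896532))
(L (nat_lit 19163588)))
(L (nat_lit 798100)))
(S (nat_lit 28526) (S (nat_lit 54899) (S (nat_lit 1944) (L (nat_lit 12799130))
(L (nat_lit 20721957)))
(L (nat_lit 14424708)))
(S (nat_lit 48290) (S (nat_lit 21770) (S (nat_lit 41547) (S (nat_lit 1257) (S (nat_lit 40531) (S (nat_lit 54901) (S (nat_lit 40743) (S (nat_lit 57099) (S (nat_lit 12868) (S (nat_lit 16655) (S (nat_lit 39542) (S (nat_lit 30699) (S (nat_lit 17560) (S (nat_lit 16672) (S (nat_lit 30763) (S (nat_lit 64) (S (nat_lit 20993) (S (nat_lit 32358) (S (nat_lit 3031) (S (nat_lit 9608) (S (nat_lit 25051) (D (nat_lit 15) (nat_lit 27857201) (nat_lit 25758988) (nat_lit 208443482369))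
(L (nat_lit 16018453)))
(L (nat_lit 29080932)))
(S (nat_lit 47052) (S (nat_lit 53477) (S (nat_lit 38330) (D (nat_lit 15) (nat_lit 13640501) (nat_lit 5584472) (nat_lit 240522370308))
(L (nat_lit 19739875)))
(L (nat_lit 29015267)))
(L (nat_lit 7160514))))
(L (nat_lit 12503055)))
(L (nat_lit 22452283)))
(L (nat_lit 8293967)))
(L (nat_lit 13786360)))
(L (nat_lit 28323222)))
(L (nat_lit 16393275)))
(L (nat_lit 9464529)))
(L (nat_lit 27463345)))
(L (nat_lit 20148269)))
(L (nat_lit 14903904)))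
(L (nat_lit 10662709)))
(L (nat_lit 17746088)))
(L (nat_lit 11285219)))
(L (nat_lit 17615045)))
(L (nat_lit 3358424)))
(L (nat_lit 27346258)))
(L (nat_lit 22229081)))
(L (nat_lit 25380941)))))
(S (nat_lit 28512) (S (nat_lit 57099) (S (nat_lit 35087) (S (nat_lit 1944) (S (nat_lit 41291) (S (nat_lit 35135) (L (nat_lit 13440373))
(L (nat_lit 10119343)))
(L (nat_lit 3420950)))
(L (nat_lit 9548377)))
(L (nat_lit 23311108)))
(L (nat_lit 4567863)))
(S (nat_lit 48276) (S (nat_lit 8823) (S (nat_lit 1279) (S (nat_lit 40768) (S (nat_lit 1944) (S (nat_lit 21739) (S (nat_lit 1701) (L (nat_lit 28738867))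
(L (nat_lit 19665291)))
(L (nat_lit 4993364)))
(L (nat_lit 26617010)))
(L (nat_lit 10344526)))
(L (nat_lit 20884590)))
(S (nat_lit 28587) (S (nat_lit 50463) (S (nat_lit 40564) (S (nat_lit 31) (L (nat_lit 6042932))
(L (nat_lit 12870740)))
(L (nat_lit 16822196)))
(S (nat_lit 58410) (L (nat_lit 18077473))
(L (nat_lit 20422561))))
(S (nat_lit 48351) (S (nat_lit 57099) (S (nat_lit 50525) (L (nat_lit 20067142))
(L (nat_lit 20790442)))
(L (nat_lit 4567863)))
(L (nat_lit 25340470)))))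
(L (nat_lit 25396878)))))
(S (nat_lit 20736) (S (nat_lit 8823) (S (nat_lit 2006) (S (nat_lit 30741) (S (nat_lit 1003) (L (nat_lit 12774772))
(L (nat_lit 19935610)))
(L (nat_lit 19838086)))
(S (nat_lit 21770) (S (nat_lit 57099) (S (nat_lit 40531) (S (nat_lit 21496) (S (nat_lit 19795) (L (nat_lit 423526))
(L (nat_lit 22311363)))
(L (nat_lit 21934250)))
(L (nat_lit 27774144)))
(L (nat_lit 21345056)))
(S (nat_lit 41534) (S (nat_lit 39575) (S (nat_lit 39592) (L (nat_lit 12340304))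
(L (nat_lit 24506414)))
(L (nat_lit 12358038)))
(L (nat_lit 25381408)))))
(S (nat_lit 28587) (S (nat_lit 24991) (L (nat_lit 5622171))
(S (nat_lit 30741) (S (nat_lit 1019) (S (nat_lit 35135) (S (nat_lit 35087) (S (nat_lit 57099) (S (nat_lit 54912) (S (nat_lit 1215) (S (nat_lit 39575) (S (nat_lit 41472) (S (nat_lit 42) (S (nat_lit 21529) (S (nat_lit 41276) (S (nat_lit 30699) (S (nat_lit 19795) (S (nat_lit 21490) (S (nat_lit 47934) (S (nat_lit 14321) (S (nat_lit 1563) (S (nat_lit 10074) (S (nat_lit 39755) (S (nat_lit 21349) (D (nat_lit 13) (nat_lit 18092821) (nat_lit 5497362) (nat_lit 5534105241602))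
(L (nat_lit 24580935)))
(L (nat_lit 30128202)))
(L (nat_lit 28033381)))
(S (nat_lit 58709) (S (nat_lit 10331) (S (nat_lit 40605) (S (nat_lit 32542) (S (nat_lit 19371) (D (nat_lit 13) (nat_lit 28627493) (nat_lit 19371384) (nat_lit 1381000905732))
(L (nat_lit 29511081)))
(L (nat_lit 20345024)))
(L (nat_lit 19294437)))
(L (nat_lit 27865285)))
(L (nat_lit 7396268))))
(L (nat_lit 30031169)))
(L (nat_lit 28509620)))
(L (nat_lit 15066229)))
(L (nat_lit 2760463)))
(L (nat_lit 2760527)))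
(L (nat_lit 4086150)))
(L (nat_lit 31135086)))
(L (nat_lit 26878093)))
(L (nat_lit 2518601)))
(L (nat_lit 23177658)))
(L (nat_lit 18981676)))
(L (nat_lit 13814567)))
(L (nat_lit 12929825)))
(L (nat_lit 18025236)))
(L (nat_lit 2998644)))
(L (nat_lit 20418343)))
(L (nat_lit 9560468))))
(S (nat_lit 48351) (S (nat_lit 11135) (S (nat_lit 21417) (L (nat_lit 10571324))
(L (nat_lit 20877867)))
(S (nat_lit 57038) (S (nat_lit 8748) (S (nat_lit 20798) (S (nat_lit 57099) (L (nat_lit 22195640))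
(L (nat_lit 15471207)))
(L (nat_lit 14732073)))
(L (nat_lit 14930689)))
(L (nat_lit 15442724))))
(L (nat_lit 25351558)))))
(S (nat_lit 40500) (S (nat_lit 1969) (S (nat_lit 15371) (S (nat_lit 42) (L (nat_lit 29379950))
(L (nat_lit 12871827)))
(S (nat_lit 35135) (S (nat_lit 30741) (S (nat_lit 42) (S (nat_lit 986) (L (nat_lit 15278233))
(L (nat_lit 20757857)))
(L (nat_lit 20422808)))
(L (nat_lit 17729908)))
(S (nat_lit 54899) (S (nat_lit 21529) (S (nat_lit 21708) (S (nat_lit 10977) (S (nat_lit 19789) (L (nat_lit 6180234))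
(L (nat_lit 30839124)))
(L (nat_lit 901492)))
(L (nat_lit 1684299)))
(L (nat_lit 30521716)))
(L (nat_lit 25827748)))))
(S (nat_lit 21733) (S (nat_lit 1072) (S (nat_lit 62) (L (nat_lit 20278415))
(L (nat_lit 13552996)))
(S (nat_lit 20761) (S (nat_lit 19789) (S (nat_lit 40531) (L (nat_lit 7255712))
(L (nat_lit 3370638)))
(S (nat_lit 43844) (L (nat_lit 22515931))
(L (nat_lit 9016110))))
(L (nat_lit 22300453))))
(S (nat_lit 41497) (S (nat_lit 1732) (S (nat_lit 30761) (L (nat_lit 19767748))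
(L (nat_lit 24953994)))
(S (nat_lit 21496) (S (nat_lit 1279) (S (nat_lit 35115) (L (nat_lit 29369935))
(L (nat_lit 24027310)))
(S (nat_lit 15293) (L (nat_lit 18779380))
(L (nat_lit 19829126))))
(S (nat_lit 41260) (S (nat_lit 1279) (S (nat_lit 8823) (S (nat_lit 21041) (S (nat_lit 40818) (S (nat_lit 1047) (S (nat_lit 1019) (S (nat_lit 40790) (S (nat_lit 35115) (S (nat_lit 30730) (S (nat_lit 8773) (S (nat_lit 39592) (S (nat_lit 21739) (S (nat_lit 15334) (S (nat_lit 40562) (S (nat_lit 1257) (S (nat_lit 31) (S (nat_lit 21829) (S (nat_lit 55794) (S (nat_lit 23276) (S (nat_lit 4541) (S (nat_lit 180) (D (nat_lit 13) (nat_lit 29953512) (nat_lit 19668081) (nat_lit 3298610447394))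
(L (nat_lit 31048928)))
(L (nat_lit 31037861)))
(L (nat_lit 23294063)))
(L (nat_lit 30022180)))
(S (nat_lit 28933) (S (nat_lit 48686) (S (nat_lit 39358) (S (nat_lit 32068) (D (nat_lit 11) (nat_lit 26880418) (nat_lit 25479344) (nat_lit 34608357))
(L (nat_lit 20178401)))
(L (nat_lit 19097057)))
(L (nat_lit 29612576)))
(L (nat_lit 17457473))))
(L (nat_lit 1945877)))
(L (nat_lit 19360778)))
(L (nat_lit 1780496)))
(L (nat_lit 14897339)))
(L (nat_lit 1396654)))
(L (nat_lit 27448712)))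
(L (nat_lit 7869050)))
(L (nat_lit 3948104)))
(L (nat_lit 4105806)))
(L (nat_lit 17001058)))
(L (nat_lit 14517865)))
(L (nat_lit 13556068)))
(L (nat_lit 24207816)))
(L (nat_lit 7196192)))
(L (nat_lit 24023430)))
(L (nat_lit 20877702)))
(L (nat_lit 25832622)))))
(L (nat_lit 25280789)))))
(L (nat_lit 25610498)))))
(S (nat_lit 40774) (S (nat_lit 10982) (S (nat_lit 10966) (S (nat_lit 1215) (S (nat_lit 1765) (S (nat_lit 1701) (S (nat_lit 972) (S (nat_lit 1262) (L (nat_lit 18114148))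
(L (nat_lit 12721756)))
(L (nat_lit 20210082)))
(L (nat_lit 12182948)))
(L (nat_lit 20887904)))
(S (nat_lit 20979) (S (nat_lit 39590) (S (nat_lit 40531) (S (nat_lit 30761) (S (nat_lit 54879) (L (nat_lit 14572711))
(L (nat_lit 27658615)))
(L (nat_lit 24506542)))
(L (nat_lit 1559929)))
(L (nat_lit 23867717)))
(S (nat_lit 40743) (S (nat_lit 19789) (S (nat_lit 21465) (L (nat_lit 18423716))
(L (nat_lit 7989668)))
(L (nat_lit 15739701)))
(L (nat_lit 25348365)))))
(S (nat_lit 30730) (S (nat_lit 8795) (S (nat_lit 1765) (S (nat_lit 19789) (S (nat_lit 54837) (L (nat_lit 23192942))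
(L (nat_lit 14414887)))
(L (nat_lit 8805154)))
(L (nat_lit 9562702)))
(S (nat_lit 28559) (S (nat_lit 1765) (S (nat_lit 2019) (L (nat_lit 13435531))
(L (nat_lit 10018661)))
(L (nat_lit 9551482)))
(S (nat_lit 48323) (S (nat_lit 19789) (S (nat_lit 17571) (L (nat_lit 24511399))
(L (nat_lit 16689269)))
(L (nat_lit 15739701)))
(L (nat_lit 25564403)))))
(S (nat_lit 50494) (S (nat_lit 17730) (L (nat_lit 456358))
(S (nat_lit 57099) (S (nat_lit 100) (L (nat_lit 23958955))
(S (nat_lit 19789) (S (nat_lit 8795) (S (nat_lit 1765) (S (nat_lit 20778) (S (nat_lit 30699) (S (nat_lit 21770) (S (nat_lit 41229) (S (nat_lit 35135) (S (nat_lit 21527) (S (nat_lit 19795) (S (nat_lit 54837) (S (nat_lit 48301) (S (nat_lit 28512) (S (nat_lit 21054) (S (nat_lit 19828) (S (nat_lit 41472) (S (nat_lit 21512) (S (nat_lit 35120) (S (nat_lit 40826) (S (nat_lit 51518) (S (nat_lit 49088) (S (nat_lit 16276) (D (nat_lit 11) (nat_lit 31064491) (nat_lit 25765317) (nat_lit 106473561159))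
(L (nat_lit 30840518)))
(L (nat_lit 21263809)))
(L (nat_lit 21263840)))
(S (nat_lit 53764) (S (nat_lit 19647) (S (nat_lit 17217) (S (nat_lit 51772) (D (nat_lit 11) (nat_lit 31146022) (nat_lit 25767427) (nat_lit 106438953186))
(L (nat_lit 28983619)))
(L (nat_lit 31044964)))
(L (nat_lit 31043877)))
(L (nat_lit 28913670))))
(L (nat_lit 23859659)))
(L (nat_lit 11453527)))
(L (nat_lit 24031403)))
(L (nat_lit 22920232)))
(L (nat_lit 22111720)))
(L (nat_lit 9896852)))
(L (nat_lit 11441655)))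
(L (nat_lit 12440590)))
(L (nat_lit 22098856)))
(L (nat_lit 22130905)))
(L (nat_lit 18645643)))
(L (nat_lit 24023435)))
(L (nat_lit 14692089)))
(L (nat_lit 9460218)))
(L (nat_lit 22522940)))
(L (nat_lit 2632469)))
(L (nat_lit 14756629)))
(L (nat_lit 2534196))))
(L (nat_lit 5657383))))
(L (nat_lit 25934953)))))
(S (nat_lit 30746) (S (nat_lit 1240) (S (nat_lit 8823) (S (nat_lit 83) (L (nat_lit 16802103))
(S (nat_lit 972) (S (nat_lit 1701) (S (nat_lit 41497) (L (nat_lit 9352802))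
(L (nat_lit 6740737)))
(L (nat_lit 9867897)))
(L (nat_lit 8833828))))
(S (nat_lit 28587) (S (nat_lit 35148) (S (nat_lit 35135) (L (nat_lit 30841441))
(L (nat_lit 8841396)))
(L (nat_lit 3763590)))
(S (nat_lit 48351) (S (nat_lit 19789) (S (nat_lit 1036) (S (nat_lit 40531) (L (nat_lit 2485998))
(L (nat_lit 3983566)))
(L (nat_lit 9143086)))
(L (nat_lit 3779374)))
(L (nat_lit 25679137)))))
(S (nat_lit 21004) (S (nat_lit 1944) (S (nat_lit 972) (S (nat_lit 41260) (S (nat_lit 50525) (S (nat_lit 1765) (S (nat_lit 35148) (S (nat_lit 8795) (S (nat_lit 19826) (S (nat_lit 35171) (S (nat_lit 21490) (S (nat_lit 41243) (S (nat_lit 40514) (S (nat_lit 41486) (S (nat_lit 40757) (S (nat_lit 54884) (S (nat_lit 54725) (S (nat_lit 13706) (S (nat_lit 3760) (S (nat_lit 24372) (S (nat_lit 29928) (S (nat_lit 13463) (D (nat_lit 11) (nat_lit 27862501) (nat_lit 25610345) (nat_lit 144955185318))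
(L (nat_lit 27965795)))
(L (nat_lit 27674848)))
(L (nat_lit 27998434)))
(L (nat_lit 27932866)))
(S (nat_lit 38659) (S (nat_lit 14010) (S (nat_lit 14739) (S (nat_lit 41832) (S (nat_lit 48391) (S (nat_lit 6053) (D (nat_lit 11) (nat_lit 27989358) (nat_lit 19325285) (nat_lit 177167566017))
(L (nat_lit 30096708)))
(L (nat_lit 7229920)))
(L (nat_lit 19801166)))
(L (nat_lit 27869377)))
(L (nat_lit 27869409)))
(L (nat_lit 28031298))))
(L (nat_lit 276090)))
(L (nat_lit 19698186)))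
(L (nat_lit 23473306)))
(L (nat_lit 2992784)))
(L (nat_lit 17065633)))
(L (nat_lit 8820408)))
(L (nat_lit 7767924)))
(L (nat_lit 14344517)))
(L (nat_lit 30951595)))
(L (nat_lit 26618500)))
(L (nat_lit 20376864)))
(L (nat_lit 20887904)))
(L (nat_lit 20716932)))
(L (nat_lit 3863886)))
(L (nat_lit 13177177)))
(S (nat_lit 21708) (S (nat_lit 40531) (L (nat_lit 27870565))
(L (nat_lit 16952116)))
(S (nat_lit 41472) (S (nat_lit 40500) (S (nat_lit 41243) (L (nat_lit 8834201))
(L (nat_lit 17392806)))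
(L (nat_lit 24031556)))
(L (nat_lit 25568370)))))
(S (nat_lit 40768) (S (nat_lit 1763) (S (nat_lit 35115) (S (nat_lit 35171) (L (nat_lit 22489241))
(L (nat_lit 14492292)))
(L (nat_lit 10176289)))
(S (nat_lit 21527) (S (nat_lit 2170) (L (nat_lit 16849530))
(S (nat_lit 40525) (S (nat_lit 35073) (S (nat_lit 37307) (S (nat_lit 35115) (L (nat_lit 9191009))
(L (nat_lit 2384462)))
(L (nat_lit 23499001)))
(L (nat_lit 2956974)))
(L (nat_lit 24381198))))
(S (nat_lit 41291) (S (nat_lit 35120) (S (nat_lit 28574) (L (nat_lit 2695053))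
(L (nat_lit 3600755)))
(L (nat_lit 10228244)))
(L (nat_lit 25932033)))))
(L (nat_lit 25763364)))))
(S (nat_lit 50510) (S (nat_lit 1240) (S (nat_lit 26722) (L (nat_lit 3498386))
(S (nat_lit 40531) (S (nat_lit 57049) (S (nat_lit 1765) (S (nat_lit 35115) (S (nat_lit 19789) (S (nat_lit 48276) (S (nat_lit 57099) (S (nat_lit 1958) (S (nat_lit 1986) (S (nat_lit 62) (S (nat_lit 40805) (S (nat_lit 54868) (S (nat_lit 42379) (S (nat_lit 41547) (S (nat_lit 45238) (S (nat_lit 8823) (S (nat_lit 22617) (S (nat_lit 39592) (S (nat_lit 20688) (S (nat_lit 41624) (S (nat_lit 12967) (S (nat_lit 25310) (S (nat_lit 39439) (D (nat_lit 13) (nat_lit 25757222) (nat_lit 19667429) (nat_lit 8866963129376))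
(L (nat_lit 19736591)))
(L (nat_lit 19838208)))
(L (nat_lit 27764388)))
(L (nat_lit 19744068)))
(S (nat_lit 43570) (S (nat_lit 36256) (S (nat_lit 24137) (S (nat_lit 4283) (S (nat_lit 29421) (D (nat_lit 13) (nat_lit 28001472) (nat_lit 25765349) (nat_lit 6708980095109))
(L (nat_lit 27743492)))
(L (nat_lit 27699222)))
(L (nat_lit 27666614)))
(L (nat_lit 27899073)))
(L (nat_lit 20717676))))
(L (nat_lit 27840707)))
(L (nat_lit 14687868)))
(L (nat_lit 17706720)))
(L (nat_lit 28562947)))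
(L (nat_lit 16804523)))
(L (nat_lit 29995147)))
(L (nat_lit 11208089)))
(L (nat_lit 23376706)))
(L (nat_lit 19457381)))
(L (nat_lit 12643051)))
(L (nat_lit 13183133)))
(L (nat_lit 11088673)))
(L (nat_lit 6199950)))
(L (nat_lit 15603060)))
(L (nat_lit 9558894)))
(L (nat_lit 19983662)))
(L (nat_lit 21180601)))
(L (nat_lit 1887438))))
(S (nat_lit 21004) (S (nat_lit 21490) (S (nat_lit 1765) (S (nat_lit 19789) (S (nat_lit 37187) (L (nat_lit 28558518))
(L (nat_lit 25042062)))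
(L (nat_lit 4075214)))
(L (nat_lit 13330567)))
(L (nat_lit 30548718)))
(S (nat_lit 40768) (S (nat_lit 17571) (S (nat_lit 40531) (S (nat_lit 40500) (L (nat_lit 5059175))
(L (nat_lit 7753572)))
(L (nat_lit 24311150)))
(S (nat_lit 37335) (S (nat_lit 35120) (S (nat_lit 972) (S (nat_lit 42) (L (nat_lit 8782428))
(L (nat_lit 7197868)))
(L (nat_lit 9226628)))
(L (nat_lit 9848889)))
(S (nat_lit 57099) (S (nat_lit 35137) (S (nat_lit 19789) (S (nat_lit 28526) (S (nat_lit 21479) (L (nat_lit 15650148))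
(L (nat_lit 31004102)))
(L (nat_lit 10307300)))
(L (nat_lit 8819508)))
(S (nat_lit 48241) (L (nat_lit 20027868))
(L (nat_lit 18440419))))
(L (nat_lit 25512047)))))
(L (nat_lit 25339631)))))
(L (nat_lit 25482286)))))
(L (nat_lit 25207284)))))
(S (nat_lit 57086) (S (nat_lit 2019) (S (nat_lit 8812) (S (nat_lit 1034) (S (nat_lit 25) (S (nat_lit 1019) (S (nat_lit 1003) (S (nat_lit 57099) (S (nat_lit 1986) (S (nat_lit 28559) (S (nat_lit 2006) (S (nat_lit 1215) (L (nat_lit 5786873))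
(L (nat_lit 11292067)))
(L (nat_lit 26791168)))
(L (nat_lit 3714715)))
(L (nat_lit 19727913)))
(L (nat_lit 11284597)))
(S (nat_lit 14047) (L (nat_lit 17509563))
(L (nat_lit 19341498))))
(S (nat_lit 28662) (S (nat_lit 47501) (L (nat_lit 26706263))
(L (nat_lit 19116218)))
(L (nat_lit 14349633))))
(S (nat_lit 19789) (S (nat_lit 57066) (S (nat_lit 1279) (L (nat_lit 20881793))
(L (nat_lit 26792260)))
(L (nat_lit 19172113)))
(S (nat_lit 39553) (S (nat_lit 35104) (S (nat_lit 57038) (S (nat_lit 1019) (L (nat_lit 4744530))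
(L (nat_lit 9062147)))
(L (nat_lit 19074490)))
(L (nat_lit 13213443)))
(L (nat_lit 25806146)))))
(S (nat_lit 20798) (S (nat_lit 17527) (S (nat_lit 1019) (S (nat_lit 25) (S (nat_lit 35098) (S (nat_lit 50477) (S (nat_lit 1003) (S (nat_lit 41514) (S (nat_lit 41503) (S (nat_lit 17538) (S (nat_lit 41229) (L (nat_lit 28675572))
(L (nat_lit 23393698)))
(L (nat_lit 544120)))
(L (nat_lit 7227841)))
(L (nat_lit 17604323)))
(L (nat_lit 19341498)))
(L (nat_lit 5809754)))
(L (nat_lit 13347683)))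
(L (nat_lit 13884603)))
(S (nat_lit 10557) (S (nat_lit 53258) (L (nat_lit 11964212))
(L (nat_lit 13404530)))
(L (nat_lit 12770057))))
(S (nat_lit 37291) (S (nat_lit 1715) (S (nat_lit 1229) (L (nat_lit 6053320))
(L (nat_lit 13389961)))
(L (nat_lit 13390147)))
(S (nat_lit 57055) (S (nat_lit 1215) (L (nat_lit 18935152))
(L (nat_lit 12865285)))
(L (nat_lit 25894307)))))
(S (nat_lit 40562) (S (nat_lit 14) (S (nat_lit 57099) (S (nat_lit 8823) (S (nat_lit 21739) (S (nat_lit 28543) (S (nat_lit 1019) (S (nat_lit 40575) (S (nat_lit 57088) (S (nat_lit 50477) (S (nat_lit 50463) (S (nat_lit 1003) (S (nat_lit 19839) (S (nat_lit 19826) (S (nat_lit 21750) (S (nat_lit 19828) (S (nat_lit 35087) (S (nat_lit 30741) (S (nat_lit 17543) (S (nat_lit 39575) (S (nat_lit 54901) (S (nat_lit 54912) (S (nat_lit 48276) (S (nat_lit 37285) (S (nat_lit 20736) (S (nat_lit 21043) (S (nat_lit 40774) (S (nat_lit 21527) (S (nat_lit 31887) (S (nat_lit 57422) (S (nat_lit 12327)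 (S (nat_lit 40851) (S (nat_lit 47395) (S (nat_lit 11894) (D (nat_lit 13) (nat_lit 30689824) (nat_lit 25761158) (nat_lit 3409332707461))
(L (nat_lit 31044679)))
(L (nat_lit 28723490)))
(L (nat_lit 13502059)))
(L (nat_lit 29711811)))
(L (nat_lit 22884546)))
(S (nat_lit 33554) (S (nat_lit 28711) (S (nat_lit 16900) (S (nat_lit 17112) (S (nat_lit 20466) (D (nat_lit 13) (nat_lit 27314666) (nat_lit 25759143) (nat_lit 6806619361512))
(L (nat_lit 9227648)))
(L (nat_lit 27576334)))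
(L (nat_lit 27899050)))
(L (nat_lit 27865312)))
(L (nat_lit 8406868))))
(L (nat_lit 14895905)))
(L (nat_lit 17003668)))
(S (nat_lit 26475) (S (nat_lit 50461) (S (nat_lit 48263) (S (nat_lit 57886) (S (nat_lit 38382) (S (nat_lit 14567) (S (nat_lit 28711) (S (nat_lit 36924) (S (nat_lit 21479) (D (nat_lit 11) (nat_lit 27413030) (nat_lit 19670126) (nat_lit 35710344327))
(L (nat_lit 30855336)))
(L (nat_lit 28979396)))
(L (nat_lit 27865312)))
(S (nat_lit 51131) (S (nat_lit 55942) (S (nat_lit 41254) (D (nat_lit 11) (nat_lit 30525774) (nat_lit 19672517) (nat_lit 71005446312))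
(L (nat_lit 27861038)))
(L (nat_lit 9325025)))
(L (nat_lit 18889577))))
(L (nat_lit 4053448)))
(L (nat_lit 9038277)))
(L (nat_lit 19308664)))
(L (nat_lit 19278595)))
(S (nat_lit 30454) (S (nat_lit 46957) (S (nat_lit 32630) (S (nat_lit 12818) (S (nat_lit 20993) (S (nat_lit 30200) (S (nat_lit 38809) (D (nat_lit 11) (nat_lit 27445520) (nat_lit 19672579) (nat_lit 35710341348))
(L (nat_lit 13442070)))
(L (nat_lit 27963400)))
(L (nat_lit 22878656)))
(S (nat_lit 21010) (S (nat_lit 39725) (S (nat_lit 1840) (D (nat_lit 11) (nat_lit 27412937) (nat_lit 11290798) (nat_lit 141557763))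
(L (nat_lit 29046080)))
(L (nat_lit 30061923)))
(L (nat_lit 15475329))))
(L (nat_lit 21247904)))
(L (nat_lit 21837152)))
(L (nat_lit 12435041)))))
(L (nat_lit 21304141)))
(L (nat_lit 17025208)))
(L (nat_lit 11385472)))
(L (nat_lit 12044411)))
(L (nat_lit 12029875)))
(L (nat_lit 27778276)))
(L (nat_lit 26947813)))
(L (nat_lit 19172145)))
(L (nat_lit 13520164)))
(L (nat_lit 10183074)))
(L (nat_lit 21225549)))
(L (nat_lit 10171172)))
(L (nat_lit 15587617)))
(L (nat_lit 19948006)))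
(L (nat_lit 12807872)))
(L (nat_lit 15426853)))
(L (nat_lit 15476386)))
(L (nat_lit 17033858)))
(L (nat_lit 19373827)))
(L (nat_lit 10401911)))
(L (nat_lit 15485249)))
(L (nat_lit 652558)))
(L (nat_lit 15478368)))
(S (nat_lit 19778) (S (nat_lit 1405) (L (nat_lit 24552197))
(S (nat_lit 35087) (S (nat_lit 1019) (S (nat_lit 28543) (S (nat_lit 1776) (L (nat_lit 2869035))
(L (nat_lit 10410436)))
(L (nat_lit 24412568)))
(L (nat_lit 26433923)))
(L (nat_lit 9494932))))
(S (nat_lit 39542) (S (nat_lit 15356) (S (nat_lit 3745) (L (nat_lit 3746605))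
(S (nat_lit 19839) (S (nat_lit 41243) (L (nat_lit 22880707))
(L (nat_lit 3794160)))
(L (nat_lit 3529178))))
(S (nat_lit 54728) (L (nat_lit 5520212))
(L (nat_lit 17504010))))
(L (nat_lit 25790955)))))
(L (nat_lit 25727287)))))
(S (nat_lit 28576) (S (nat_lit 8773) (S (nat_lit 10966) (S (nat_lit 1715) (S (nat_lit 1229) (S (nat_lit 1019) (L (nat_lit 3743226))
(L (nat_lit 26680899)))
(L (nat_lit 13389959)))
(L (nat_lit 13390145)))
(S (nat_lit 30730) (S (nat_lit 21750) (S (nat_lit 25) (S (nat_lit 48276) (L (nat_lit 20135747))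
(L (nat_lit 20880833)))
(L (nat_lit 19296611)))
(L (nat_lit 30642706)))
(S (nat_lit 50494) (S (nat_lit 57071) (S (nat_lit 1776) (S (nat_lit 1290) (L (nat_lit 10224114))
(L (nat_lit 6178002)))
(L (nat_lit 12469266)))
(L (nat_lit 27341042)))
(L (nat_lit 25756072)))))
(S (nat_lit 28537) (S (nat_lit 17560) (S (nat_lit 1290) (S (nat_lit 54862) (L (nat_lit 25068876))
(L (nat_lit 19409731)))
(S (nat_lit 5826) (L (nat_lit 4103853))
(L (nat_lit 12815218))))
(S (nat_lit 37324) (S (nat_lit 37285) (S (nat_lit 1019) (S (nat_lit 1034) (S (nat_lit 42) (S (nat_lit 48338) (S (nat_lit 1215) (L (nat_lit 18900361))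
(L (nat_lit 20712781)))
(L (nat_lit 4692600)))
(L (nat_lit 19393888)))
(L (nat_lit 19116093)))
(L (nat_lit 19088163)))
(L (nat_lit 30421363)))
(S (nat_lit 57088) (S (nat_lit 986) (S (nat_lit 57071) (S (nat_lit 31) (S (nat_lit 1944) (S (nat_lit 57049) (S (nat_lit 35137) (S (nat_lit 75) (S (nat_lit 50505) (S (nat_lit 62) (S (nat_lit 50527) (S (nat_lit 1019) (S (nat_lit 64) (S (nat_lit 1047) (S (nat_lit 50494) (S (nat_lit 1958) (S (nat_lit 1969) (S (nat_lit 42) (S (nat_lit 50510) (S (nat_lit 47) (S (nat_lit 57038) (S (nat_lit 35104) (S (nat_lit 35120) (S (nat_lit 35135) (S (nat_lit 28559) (S (nat_lit 57055) (S (nat_lit 1014) (S (nat_lit 28574) (S (nat_lit 20621) (S (nat_lit 2639) (S (nat_lit 38668) (S (nat_lit 55236) (S (nat_lit 55203) (S (nat_lit 38637) (S (nat_lit 2617) (S (nat_lit 39754) (S (nat_lit 1165) (S (nat_lit 58949) (S (nat_lit 6268) (D (nat_lit 13) (nat_lit 4019753) (nat_lit 25348301) (nat_lit 2200306947208))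
(L (nat_lit 30033216)))
(L (nat_lit 29967552)))
(S (nat_lit 31347) (S (nat_lit 31378) (S (nat_lit 5988) (D (nat_lit 9) (nat_lit 6386284) (nat_lit 25479557) (nat_lit 74093469924))
(L (nat_lit 27728513)))
(L (nat_lit 27870563)))
(L (nat_lit 29862528))))
(L (nat_lit 30096520)))
(L (nat_lit 16347176)))
(L (nat_lit 16050913)))
(L (nat_lit 3712603)))
(L (nat_lit 3655995)))
(L (nat_lit 15837107)))
(L (nat_lit 15922763)))
(S (nat_lit 36151) (S (nat_lit 23839) (S (nat_lit 57990) (S (nat_lit 36173) (S (nat_lit 36157) (S (nat_lit 23856) (S (nat_lit 37447) (S (nat_lit 4955) (S (nat_lit 37469) (S (nat_lit 3821) (D (nat_lit 15) (nat_lit 16569386) (nat_lit 19670400) (nat_lit 34367085831))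
(L (nat_lit 29413928)))
(L (nat_lit 27994593)))
(L (nat_lit 27775232)))
(S (nat_lit 41276) (S (nat_lit 37939) (S (nat_lit 5927) (S (nat_lit 2849) (D (nat_lit 15) (nat_lit 16536834) (nat_lit 25764876) (nat_lit 103084463365))
(L (nat_lit 29610530)))
(L (nat_lit 27775204)))
(L (nat_lit 28001474)))
(L (nat_lit 7212624))))
(L (nat_lit 27827283)))
(L (nat_lit 28936742)))
(L (nat_lit 28949639)))
(L (nat_lit 17582276)))
(L (nat_lit 27901124)))
(S (nat_lit 49614) (S (nat_lit 31166) (S (nat_lit 40207) (S (nat_lit 49619) (S (nat_lit 31135) (S (nat_lit 31168) (S (nat_lit 4712) (S (nat_lit 3103) (S (nat_lit 20102) (S (nat_lit 48857) (S (nat_lit 55466) (S (nat_lit 3832) (D (nat_lit 9) (nat_lit 7534256) (nat_lit 25348461) (nat_lit 103247124705))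
(L (nat_lit 31046914)))
(L (nat_lit 15540804)))
(S (nat_lit 58962) (S (nat_lit 22856) (S (nat_lit 41243) (D (nat_lit 15) (nat_lit 15490090) (nat_lit 3941810) (nat_lit 1110477987))
(L (nat_lit 27868385)))
(L (nat_lit 19161475)))
(L (nat_lit 23534469))))
(L (nat_lit 18458531)))
(L (nat_lit 16380130)))
(L (nat_lit 27829921)))
(L (nat_lit 3634423)))
(L (nat_lit 27575351)))
(L (nat_lit 14800806)))
(L (nat_lit 14808742)))
(L (nat_lit 27641504)))
(L (nat_lit 9528758)))))
(L (nat_lit 2615978)))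
(L (nat_lit 14527539)))
(L (nat_lit 11136514)))
(L (nat_lit 9358788)))
(L (nat_lit 3971508)))
(L (nat_lit 23637829)))
(L (nat_lit 3874572)))
(L (nat_lit 11449458)))
(L (nat_lit 13899388)))
(L (nat_lit 27373813)))
(L (nat_lit 26524818)))
(L (nat_lit 14458964)))
(L (nat_lit 26838504)))
(L (nat_lit 22316845)))
(L (nat_lit 26942946)))
(L (nat_lit 26780692)))
(L (nat_lit 14507329)))
(L (nat_lit 15311714)))
(L (nat_lit 26947908)))
(L (nat_lit 27692372)))
(L (nat_lit 733004)))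
(L (nat_lit 18173763)))
(L (nat_lit 12315075)))
(L (nat_lit 14016690)))
(L (nat_lit 20013545)))
(L (nat_lit 10564280)))
(S (nat_lit 14270) (S (nat_lit 53130) (S (nat_lit 18077) (L (nat_lit 6802584))
(L (nat_lit 9176684)))
(L (nat_lit 9175660)))
(L (nat_lit 19216573))))
(L (nat_lit 25829922)))))
(S (nat_lit 48301) (S (nat_lit 15371) (S (nat_lit 62) (S (nat_lit 1290) (L (nat_lit 26230098))
(L (nat_lit 13542546)))
(S (nat_lit 37588) (L (nat_lit 20285324))
(L (nat_lit 13507766))))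
(S (nat_lit 35135) (S (nat_lit 1701) (L (nat_lit 10337426))
(L (nat_lit 20713837)))
(S (nat_lit 54899) (S (nat_lit 24099) (L (nat_lit 3595610))
(S (nat_lit 30741) (S (nat_lit 1019) (S (nat_lit 1776) (S (nat_lit 1215) (L (nat_lit 9463469))
(L (nat_lit 12766552)))
(L (nat_lit 13536594)))
(L (nat_lit 12808801)))
(L (nat_lit 19838118))))
(L (nat_lit 25313618)))))
(L (nat_lit 25635991)))))
(S (nat_lit 48340) (S (nat_lit 17510) (S (nat_lit 30763) (S (nat_lit 39603) (S (nat_lit 28543) (S (nat_lit 50463) (S (nat_lit 25) (S (nat_lit 48351) (S (nat_lit 57099) (S (nat_lit 8773) (S (nat_lit 21708) (S (nat_lit 41503) (S (nat_lit 19806) (S (nat_lit 17496) (S (nat_lit 14) (S (nat_lit 30774) (S (nat_lit 21733) (S (nat_lit 48338) (S (nat_lit 28559) (S (nat_lit 10982) (S (nat_lit 31907) (S (nat_lit 21824) (S (nat_lit 50456) (L (nat_lit 3486296))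
(L (nat_lit 26915013)))
(L (nat_lit 26915008)))
(S (nat_lit 54879) (S (nat_lit 20798) (S (nat_lit 15384) (S (nat_lit 20800) (S (nat_lit 35098) (S (nat_lit 1003) (S (nat_lit 40500) (S (nat_lit 30574) (S (nat_lit 9890) (S (nat_lit 37395) (S (nat_lit 30585) (S (nat_lit 17614) (S (nat_lit 17612) (S (nat_lit 56984) (S (nat_lit 10534) (S (nat_lit 47676) (S (nat_lit 1763) (D (nat_lit 13) (nat_lit 26691778) (nat_lit 19194403) (nat_lit 211762118786))
(L (nat_lit 3034632)))
(L (nat_lit 3036651)))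
(S (nat_lit 18171) (S (nat_lit 4077) (S (nat_lit 49408) (D (nat_lit 15) (nat_lit 27544624) (nat_lit 2696972) (nat_lit 145062168609))
(L (nat_lit 28949579)))
(L (nat_lit 30984546)))
(L (nat_lit 10643185))))
(L (nat_lit 20843820)))
(L (nat_lit 20219790)))
(L (nat_lit 20244496)))
(L (nat_lit 20715566)))
(L (nat_lit 19294400)))
(L (nat_lit 20725985)))
(S (nat_lit 46660) (S (nat_lit 25935) (S (nat_lit 9626) (S (nat_lit 58227) (S (nat_lit 58642) (S (nat_lit 43119) (S (nat_lit 18638) (S (nat_lit 48236) (S (nat_lit 33851) (D (nat_lit 13) (nat_lit 10226252) (nat_lit 11291107) (nat_lit 4647291197696))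
(L (nat_lit 13420867)))
(L (nat_lit 26816773)))
(S (nat_lit 37604) (S (nat_lit 27636) (S (nat_lit 43343) (S (nat_lit 37739) (D (nat_lit 13) (nat_lit 30596369) (nat_lit 2613830) (nat_lit 2376197047427))
(L (nat_lit 7197218)))
(L (nat_lit 21870851)))
(L (nat_lit 28981539)))
(L (nat_lit 21554401))))
(L (nat_lit 21394785)))
(L (nat_lit 2702154)))
(L (nat_lit 23466826)))
(L (nat_lit 29003143)))
(L (nat_lit 23636090)))
(S (nat_lit 58131) (S (nat_lit 5749) (S (nat_lit 28851) (S (nat_lit 9140) (S (nat_lit 9437) (S (nat_lit 42147) (S (nat_lit 8411) (S (nat_lit 28122) (S (nat_lit 42857) (S (nat_lit 38711) (D (nat_lit 13) (nat_lit 30596369) (nat_lit 2613458) (nat_lit 2376197047427))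
(L (nat_lit 905768)))
(L (nat_lit 21870882)))
(L (nat_lit 28981506)))
(S (nat_lit 21527) (S (nat_lit 6657) (S (nat_lit 57973) (D (nat_lit 11) (nat_lit 10247310) (nat_lit 6906032) (nat_lit 283603370118))
(L (nat_lit 19983782)))
(L (nat_lit 28330502)))
(L (nat_lit 7916387))))
(L (nat_lit 18762947)))
(L (nat_lit 30975714)))
(L (nat_lit 27959471)))
(L (nat_lit 22880676)))
(L (nat_lit 28031204)))
(L (nat_lit 8811639)))))
(L (nat_lit 27866372)))
(L (nat_lit 19336011)))
(L (nat_lit 31110499)))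
(L (nat_lit 21502848)))
(L (nat_lit 7262752)))
(L (nat_lit 21524705)))
(L (nat_lit 16557696))))
(L (nat_lit 23375932)))
(L (nat_lit 19840228)))
(L (nat_lit 16119396)))
(L (nat_lit 22190894)))
(L (nat_lit 9613916)))
(L (nat_lit 12783260)))
(L (nat_lit 24680473)))
(L (nat_lit 14788466)))
(L (nat_lit 6768700)))
(L (nat_lit 15543410)))
(L (nat_lit 26465698)))
(L (nat_lit 13445239)))
(L (nat_lit 20275585)))
(L (nat_lit 26631523)))
(L (nat_lit 12207969)))
(L (nat_lit 10240114)))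
(L (nat_lit 6046002)))
(S (nat_lit 44334) (L (nat_lit 26779826))
(L (nat_lit 14454002))))
(S (nat_lit 37274) (S (nat_lit 1290) (S (nat_lit 1743) (S (nat_lit 25) (S (nat_lit 1014) (S (nat_lit 1019) (S (nat_lit 48301) (L (nat_lit 10532658))
(L (nat_lit 27276658)))
(L (nat_lit 20815267)))
(L (nat_lit 26229042)))
(L (nat_lit 13392195)))
(L (nat_lit 26225170)))
(S (nat_lit 21054) (S (nat_lit 20811) (S (nat_lit 54884) (L (nat_lit 11322418))
(L (nat_lit 10578386)))
(L (nat_lit 15959826)))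
(S (nat_lit 40818) (S (nat_lit 54884) (S (nat_lit 35073) (S (nat_lit 48338) (L (nat_lit 7156786))
(L (nat_lit 27434605)))
(L (nat_lit 12606684)))
(L (nat_lit 5024210)))
(L (nat_lit 25692808)))))
(S (nat_lit 57038) (S (nat_lit 1215) (S (nat_lit 1701) (S (nat_lit 57099) (S (nat_lit 25) (S (nat_lit 24082) (S (nat_lit 1019) (S (nat_lit 57049) (S (nat_lit 1229) (L (nat_lit 1667464))
(L (nat_lit 20724871)))
(L (nat_lit 21174029)))
(L (nat_lit 20411527)))
(L (nat_lit 19376312)))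
(L (nat_lit 19973466)))
(L (nat_lit 6041199)))
(L (nat_lit 2476440)))
(S (nat_lit 20979) (S (nat_lit 28537) (L (nat_lit 27309298))
(L (nat_lit 30643820)))
(S (nat_lit 40743) (S (nat_lit 25) (S (nat_lit 35087) (S (nat_lit 1019) (L (nat_lit 9924786))
(L (nat_lit 12612199)))
(L (nat_lit 12809298)))
(L (nat_lit 12612980)))
(L (nat_lit 25348488)))))
(L (nat_lit 25742596)))))
(L (nat_lit 25549868)))))
(S (nat_lit 21783) (S (nat_lit 1277) (S (nat_lit 1732) (S (nat_lit 25) (S (nat_lit 1003) (S (nat_lit 1279) (S (nat_lit 1019) (L (nat_lit 14382405))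
(L (nat_lit 19088131)))
(L (nat_lit 26777780)))
(S (nat_lit 47280) (L (nat_lit 18885548))
(L (nat_lit 18883067))))
(S (nat_lit 2293) (S (nat_lit 54862) (L (nat_lit 10548658))
(L (nat_lit 18921224)))
(L (nat_lit 13184154))))
(S (nat_lit 21496) (S (nat_lit 21770) (S (nat_lit 54879) (S (nat_lit 54837) (L (nat_lit 20165819))
(L (nat_lit 14605351)))
(L (nat_lit 12464704)))
(L (nat_lit 30951616)))
(S (nat_lit 41260) (S (nat_lit 10949) (S (nat_lit 35104) (L (nat_lit 29376850))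
(L (nat_lit 3709715)))
(S (nat_lit 30713) (S (nat_lit 35098) (S (nat_lit 1743) (S (nat_lit 21043) (L (nat_lit 12640139))
(L (nat_lit 14704980)))
(L (nat_lit 12605355)))
(L (nat_lit 13299042)))
(S (nat_lit 50477) (S (nat_lit 48301) (L (nat_lit 9451100))
(L (nat_lit 27511985)))
(L (nat_lit 25366035)))))
(L (nat_lit 25666740)))))
(S (nat_lit 21041) (S (nat_lit 17538) (S (nat_lit 10966) (S (nat_lit 39570) (S (nat_lit 28526) (L (nat_lit 22908299))
(L (nat_lit 3400085)))
(L (nat_lit 17920338)))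
(S (nat_lit 30730) (S (nat_lit 54899) (S (nat_lit 1765) (S (nat_lit 39570) (L (nat_lit 8123535))
(L (nat_lit 24414988)))
(L (nat_lit 4772615)))
(L (nat_lit 5840376)))
(S (nat_lit 50494) (S (nat_lit 48301) (S (nat_lit 1036) (L (nat_lit 12080216))
(L (nat_lit 12900096)))
(L (nat_lit 15753833)))
(L (nat_lit 25710851)))))
(S (nat_lit 37302) (S (nat_lit 1763) (S (nat_lit 48338) (S (nat_lit 25) (S (nat_lit 21529) (L (nat_lit 5102959))
(L (nat_lit 21870949)))
(L (nat_lit 14441640)))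
(L (nat_lit 5001581)))
(S (nat_lit 21527) (S (nat_lit 50494) (S (nat_lit 48290) (L (nat_lit 4770630))
(L (nat_lit 5981995)))
(L (nat_lit 12081955)))
(S (nat_lit 41291) (S (nat_lit 40564) (S (nat_lit 50510) (S (nat_lit 35115) (L (nat_lit 8107809))
(L (nat_lit 31133008)))
(L (nat_lit 14961690)))
(L (nat_lit 8061340)))
(L (nat_lit 25923792)))))
(S (nat_lit 57066) (S (nat_lit 986) (S (nat_lit 39590) (S (nat_lit 54837) (S (nat_lit 39553) (L (nat_lit 1656187))
(L (nat_lit 27858287)))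
(L (nat_lit 11010747)))
(S (nat_lit 40478) (L (nat_lit 28029284))
(L (nat_lit 6048112))))
(S (nat_lit 34804) (L (nat_lit 13342904))
(L (nat_lit 13407911))))
(L (nat_lit 25796992)))))
(S (nat_lit 40805) (S (nat_lit 8812) (S (nat_lit 986) (S (nat_lit 48276) (S (nat_lit 25) (S (nat_lit 41503) (L (nat_lit 15736725))
(L (nat_lit 27512292)))
(L (nat_lit 20759721)))
(L (nat_lit 4421078)))
(S (nat_lit 20750) (S (nat_lit 15351) (S (nat_lit 19806) (L (nat_lit 29441639))
(L (nat_lit 15474866)))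
(S (nat_lit 22345) (L (nat_lit 705912))
(L (nat_lit 26947936))))
(S (nat_lit 40514) (S (nat_lit 35104) (S (nat_lit 1279) (L (nat_lit 353932))
(L (nat_lit 12670298)))
(L (nat_lit 12869379)))
(L (nat_lit 25803969)))))
(S (nat_lit 28576) (S (nat_lit 62) (S (nat_lit 1776) (S (nat_lit 35098) (L (nat_lit 6206806))
(L (nat_lit 12838530)))
(L (nat_lit 14583122)))
(S (nat_lit 19826) (S (nat_lit 57055) (S (nat_lit 35120) (L (nat_lit 3873613))
(L (nat_lit 10242500)))
(L (nat_lit 11236429)))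
(S (nat_lit 39590) (S (nat_lit 35087) (L (nat_lit 17855826))
(L (nat_lit 23078669)))
(L (nat_lit 25697463)))))
(S (nat_lit 48340) (S (nat_lit 1240) (S (nat_lit 1726) (S (nat_lit 50463) (L (nat_lit 19932013))
(L (nat_lit 20890848)))
(L (nat_lit 20006170)))
(S (nat_lit 21004) (S (nat_lit 21496) (S (nat_lit 1748) (S (nat_lit 1701) (S (nat_lit 25) (L (nat_lit 18933193))
(L (nat_lit 20727139)))
(L (nat_lit 12674665)))
(L (nat_lit 13277953)))
(L (nat_lit 14929669)))
(S (nat_lit 40768) (S (nat_lit 40547) (S (nat_lit 57049) (S (nat_lit 54879) (L (nat_lit 19393672))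
(L (nat_lit 27676000)))
(L (nat_lit 11561363)))
(L (nat_lit 27285929)))
(L (nat_lit 25280757)))))
(L (nat_lit 25667202)))))
(L (nat_lit 25733206)))))
(S (nat_lit 41547) (S (nat_lit 1944) (S (nat_lit 8795) (S (nat_lit 17538) (S (nat_lit 1003) (S (nat_lit 1262) (S (nat_lit 1748) (L (nat_lit 12848917))
(L (nat_lit 13438568)))
(L (nat_lit 13444706)))
(S (nat_lit 9831) (L (nat_lit 12809394))
(L (nat_lit 19728750))))
(S (nat_lit 37302) (S (nat_lit 1003) (S (nat_lit 35115) (S (nat_lit 48301) (S (nat_lit 19806) (S (nat_lit 20800) (L (nat_lit 17531228))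
(L (nat_lit 6021510)))
(L (nat_lit 21270381)))
(L (nat_lit 6147436)))
(L (nat_lit 20722017)))
(S (nat_lit 37603) (L (nat_lit 12880477))
(L (nat_lit 13282117))))
(S (nat_lit 57066) (S (nat_lit 47) (S (nat_lit 50525) (S (nat_lit 50505) (S (nat_lit 28574) (S (nat_lit 57049) (S (nat_lit 64) (S (nat_lit 1991) (S (nat_lit 8748) (S (nat_lit 28537) (S (nat_lit 41503) (S (nat_lit 37908) (L (nat_lit 17836697))
(S (nat_lit 39559) (S (nat_lit 37260) (S (nat_lit 10966) (S (nat_lit 30763) (S (nat_lit 17571) (S (nat_lit 12318) (S (nat_lit 23023) (S (nat_lit 23157) (S (nat_lit 3986) (L (nat_lit 3387994))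
(L (nat_lit 27865345)))
(L (nat_lit 19707139)))
(L (nat_lit 26850629)))
(S (nat_lit 21004) (L (nat_lit 28419541))
(L (nat_lit 30524660))))
(L (nat_lit 7223904)))
(L (nat_lit 10338359)))
(L (nat_lit 7070115)))
(L (nat_lit 2972913)))
(L (nat_lit 27525807))))
(L (nat_lit 6441465)))
(L (nat_lit 9246321)))
(L (nat_lit 8127118)))
(L (nat_lit 20084102)))
(L (nat_lit 19435272)))
(L (nat_lit 27465107)))
(L (nat_lit 19218585)))
(L (nat_lit 12377536)))
(L (nat_lit 27893125)))
(S (nat_lit 14321) (L (nat_lit 19409048))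
(L (nat_lit 18984721))))
(L (nat_lit 25240209)))))
(S (nat_lit 28559) (S (nat_lit 45941) (S (nat_lit 1240) (L (nat_lit 19439672))
(L (nat_lit 20346148)))
(S (nat_lit 50477) (S (nat_lit 972) (S (nat_lit 35098) (S (nat_lit 25) (L (nat_lit 19088440))
(L (nat_lit 19677507)))
(L (nat_lit 19969400)))
(S (nat_lit 5508) (L (nat_lit 20067114))
(L (nat_lit 13181081))))
(L (nat_lit 13535819))))
(S (nat_lit 48323) (S (nat_lit 1701) (S (nat_lit 1279) (S (nat_lit 35087) (S (nat_lit 972) (S (nat_lit 35104) (L (nat_lit 11013938))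
(L (nat_lit 12878461)))
(L (nat_lit 8539949)))
(L (nat_lit 12613227)))
(L (nat_lit 13539940)))
(S (nat_lit 37903) (L (nat_lit 12724858))
(L (nat_lit 12674665))))
(L (nat_lit 25727626)))))
(S (nat_lit 21708) (S (nat_lit 1279) (S (nat_lit 1732) (S (nat_lit 1003) (S (nat_lit 1277) (S (nat_lit 35098) (L (nat_lit 7255220))
(L (nat_lit 20780364)))
(L (nat_lit 20001020)))
(L (nat_lit 19374267)))
(L (nat_lit 19063119)))
(S (nat_lit 21043) (S (nat_lit 10999) (S (nat_lit 8812) (S (nat_lit 1003) (S (nat_lit 17543) (L (nat_lit 15911686))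
(L (nat_lit 1945842)))
(L (nat_lit 11165870)))
(S (nat_lit 36155) (S (nat_lit 51296) (L (nat_lit 21161417))
(L (nat_lit 11165870)))
(L (nat_lit 1436114))))
(S (nat_lit 30763) (S (nat_lit 52091) (L (nat_lit 5970329))
(S (nat_lit 54868) (S (nat_lit 30761) (L (nat_lit 14965945))
(L (nat_lit 4038252)))
(L (nat_lit 13727336))))
(S (nat_lit 50527) (S (nat_lit 39542) (S (nat_lit 25) (S (nat_lit 41276) (L (nat_lit 14965912))
(L (nat_lit 6318519)))
(L (nat_lit 20346179)))
(L (nat_lit 27272880)))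
(L (nat_lit 25507522)))))
(S (nat_lit 40807) (S (nat_lit 7161) (S (nat_lit 12804) (L (nat_lit 12948091))
(L (nat_lit 30904939)))
(S (nat_lit 35087) (S (nat_lit 36957) (L (nat_lit 20746630))
(S (nat_lit 39592) (S (nat_lit 41293) (S (nat_lit 30713) (L (nat_lit 23858478))
(L (nat_lit 30651972)))
(L (nat_lit 27525524)))
(L (nat_lit 11719068))))
(L (nat_lit 9495149))))
(L (nat_lit 25172558)))))
(S (nat_lit 41472) (S (nat_lit 10935) (S (nat_lit 15309) (S (nat_lit 44471) (L (nat_lit 4858331))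
(S (nat_lit 48323) (S (nat_lit 57071) (S (nat_lit 39553) (L (nat_lit 30082415))
(L (nat_lit 11954324)))
(L (nat_lit 11618808)))
(L (nat_lit 20490264))))
(S (nat_lit 54678) (S (nat_lit 54677) (L (nat_lit 18913852))
(L (nat_lit 24363064)))
(L (nat_lit 24576807))))
(S (nat_lit 30699) (S (nat_lit 64) (S (nat_lit 1279) (S (nat_lit 1262) (L (nat_lit 4037012))
(L (nat_lit 19071389)))
(L (nat_lit 20222362)))
(S (nat_lit 19828) (S (nat_lit 19789) (S (nat_lit 30741) (S (nat_lit 37285) (S (nat_lit 37324) (S (nat_lit 1975) (S (nat_lit 28512) (S (nat_lit 48301) (S (nat_lit 42) (S (nat_lit 30774) (S (nat_lit 21722) (S (nat_lit 17571) (S (nat_lit 39542) (S (nat_lit 8710) (L (nat_lit 15870713))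
(S (nat_lit 51414) (S (nat_lit 41291) (L (nat_lit 3357339))
(L (nat_lit 27997379)))
(L (nat_lit 6352559))))
(L (nat_lit 27474596)))
(L (nat_lit 7739253)))
(L (nat_lit 16343362)))
(L (nat_lit 9858166)))
(L (nat_lit 8245389)))
(L (nat_lit 16408931)))
(L (nat_lit 3363728)))
(L (nat_lit 5726548)))
(L (nat_lit 10029624)))
(L (nat_lit 10000024)))
(L (nat_lit 14387578)))
(S (nat_lit 50126) (L (nat_lit 23269165))
(L (nat_lit 14703960))))
(S (nat_lit 39592) (S (nat_lit 38437) (L (nat_lit 24338916))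
(S (nat_lit 40807) (L (nat_lit 28945793))
(L (nat_lit 27985291))))
(L (nat_lit 25318638)))))
(S (nat_lit 50463) (S (nat_lit 17510) (S (nat_lit 28543) (S (nat_lit 41229) (L (nat_lit 18024029))
(L (nat_lit 6450796)))
(L (nat_lit 18423555)))
(S (nat_lit 37274) (S (nat_lit 35087) (S (nat_lit 48301) (S (nat_lit 14952) (L (nat_lit 4611289))
(L (nat_lit 19941195)))
(L (nat_lit 27505842)))
(L (nat_lit 18047589)))
(S (nat_lit 57038) (S (nat_lit 1036) (S (nat_lit 35087) (S (nat_lit 1290) (S (nat_lit 1776) (S (nat_lit 28543) (L (nat_lit 737194))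
(L (nat_lit 30480786)))
(L (nat_lit 26777779)))
(L (nat_lit 26771827)))
(L (nat_lit 8938084)))
(L (nat_lit 11240239)))
(L (nat_lit 25408596)))))
(L (nat_lit 25396726)))))
(L (nat_lit 25578601)))))
(L (nat_lit 25452003)))))
(L (nat_lit 25827780)))))

theorem rb246_0_7 : run 4 lb246 [] tb246_0_7 kb246 [0, 2008, 50488, 28554] [] = true := by
  decide +kernel

noncomputable def tb179_5 : Tr :=
(S (nat_lit 9044) (S (nat_lit 10987) (S (nat_lit 13687) (S (nat_lit 13418) (S (nat_lit 6863) (S (nat_lit 4892) (S (nat_lit 40071) (S (nat_lit 51006) (S (nat_lit 8786) (L (nat_lit 6411181))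
(L (nat_lit 15535755)))
(L (nat_lit 15306630)))
(L (nat_lit 24678278)))
(L (nat_lit 26496046)))
(L (nat_lit 7213648)))
(S (nat_lit 33182) (S (nat_lit 55113) (S (nat_lit 15085) (S (nat_lit 28278) (S (nat_lit 26880) (L (nat_lit 960950))
(L (nat_lit 14710102)))
(L (nat_lit 14999670)))
(L (nat_lit 22331514)))
(L (nat_lit 21394756)))
(S (nat_lit 52946) (S (nat_lit 6589) (S (nat_lit 6596) (S (nat_lit 7098) (S (nat_lit 19816) (L (nat_lit 28608110))
(L (nat_lit 21081661)))
(L (nat_lit 21868069)))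
(L (nat_lit 1914475)))
(S (nat_lit 26353) (S (nat_lit 46373) (S (nat_lit 36810) (S (nat_lit 30475) (L (nat_lit 7367058))
(L (nat_lit 1363416)))
(L (nat_lit 17833815)))
(L (nat_lit 12022497)))
(S (nat_lit 46117) (S (nat_lit 26593) (S (nat_lit 55113) (L (nat_lit 28625313))
(L (nat_lit 21261422)))
(L (nat_lit 30805330)))
(L (nat_lit 25252233)))))
(L (nat_lit 25182546)))))
(S (nat_lit 33451) (S (nat_lit 13617) (S (nat_lit 11189) (S (nat_lit 10482) (S (nat_lit 6827) (S (nat_lit 4892) (S (nat_lit 51006) (L (nat_lit 26296662))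
(L (nat_lit 2585908)))
(L (nat_lit 26529184)))
(L (nat_lit 23146321)))
(L (nat_lit 14930040)))
(S (nat_lit 30953) (S (nat_lit 10482) (S (nat_lit 6634) (S (nat_lit 24656) (S (nat_lit 50993) (L (nat_lit 26821704))
(L (nat_lit 767352)))
(L (nat_lit 8539577)))
(L (nat_lit 7534286)))
(L (nat_lit 9460152)))
(S (nat_lit 50717) (S (nat_lit 6845) (S (nat_lit 27054) (L (nat_lit 3694837))
(L (nat_lit 6973825)))
(L (nat_lit 7159523)))
(L (nat_lit 25395854)))))
(S (nat_lit 33381) (S (nat_lit 8057) (S (nat_lit 10274) (S (nat_lit 37021) (S (nat_lit 12182) (L (nat_lit 9967478))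
(L (nat_lit 23931298)))
(L (nat_lit 23193932)))
(L (nat_lit 26478997)))
(S (nat_lit 27821) (S (nat_lit 52) (S (nat_lit 20800) (S (nat_lit 40281) (L (nat_lit 19776587))
(L (nat_lit 24548170)))
(L (nat_lit 12303232)))
(L (nat_lit 874831)))
(S (nat_lit 47585) (S (nat_lit 24098) (L (nat_lit 832787))
(S (nat_lit 56599) (S (nat_lit 40071) (L (nat_lit 3927430))
(L (nat_lit 18587525)))
(L (nat_lit 6747781))))
(L (nat_lit 25770022)))))
(S (nat_lit 53145) (S (nat_lit 10935) (S (nat_lit 5178) (S (nat_lit 6596) (L (nat_lit 14979771))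
(L (nat_lit 1366589)))
(L (nat_lit 1451672)))
(S (nat_lit 30699) (S (nat_lit 48042) (S (nat_lit 56828) (L (nat_lit 18980749))
(L (nat_lit 2509736)))
(L (nat_lit 2509737)))
(S (nat_lit 50463) (S (nat_lit 26880) (S (nat_lit 15585) (S (nat_lit 49802) (L (nat_lit 22939982))
(L (nat_lit 16354552)))
(L (nat_lit 15572087)))
(L (nat_lit 1635942)))
(L (nat_lit 25413248)))))
(L (nat_lit 25935014)))))
(S (nat_lit 53215) (S (nat_lit 753) (S (nat_lit 5591) (S (nat_lit 6589) (S (nat_lit 56828) (S (nat_lit 1247) (L (nat_lit 29955436))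
(L (nat_lit 19772770)))
(L (nat_lit 6849272)))
(L (nat_lit 874702)))
(S (nat_lit 25355) (S (nat_lit 40058) (S (nat_lit 36810) (S (nat_lit 31229) (S (nat_lit 17257) (L (nat_lit 2862960))
(L (nat_lit 12359219)))
(L (nat_lit 1663342)))
(L (nat_lit 633678)))
(L (nat_lit 23392800)))
(S (nat_lit 45119) (S (nat_lit 26593) (S (nat_lit 36810) (L (nat_lit 1394518))
(L (nat_lit 961198)))
(L (nat_lit 16584023)))
(L (nat_lit 25447532)))))
(S (nat_lit 20517) (S (nat_lit 6589) (S (nat_lit 39847) (S (nat_lit 28758) (S (nat_lit 47137) (L (nat_lit 1580852))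
(L (nat_lit 20791467)))
(L (nat_lit 8475566)))
(L (nat_lit 12409870)))
(S (nat_lit 26353) (S (nat_lit 40058) (S (nat_lit 8315) (S (nat_lit 45119) (L (nat_lit 26821920))
(L (nat_lit 2696110)))
(L (nat_lit 12406275)))
(L (nat_lit 2926134)))
(S (nat_lit 46117) (S (nat_lit 31735) (S (nat_lit 36810) (S (nat_lit 26360) (L (nat_lit 26481389))
(L (nat_lit 2906667)))
(L (nat_lit 418167)))
(S (nat_lit 35017) (L (nat_lit 25019528))
(L (nat_lit 16828765))))
(L (nat_lit 25755886)))))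
(S (nat_lit 40281) (S (nat_lit 5389) (S (nat_lit 25355) (S (nat_lit 43512) (L (nat_lit 26808806))
(L (nat_lit 12137283)))
(S (nat_lit 43411) (L (nat_lit 870826))
(L (nat_lit 21839168))))
(S (nat_lit 25153) (S (nat_lit 47843) (S (nat_lit 5400) (S (nat_lit 31735) (L (nat_lit 19938648))
(L (nat_lit 11586384)))
(L (nat_lit 2501240)))
(L (nat_lit 1985808)))
(S (nat_lit 44917) (S (nat_lit 24162) (L (nat_lit 28319439))
(L (nat_lit 17640128)))
(L (nat_lit 25378869)))))
(L (nat_lit 25175788)))))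
(L (nat_lit 25544260)))))
(S (nat_lit 30751) (S (nat_lit 11478) (S (nat_lit 8514) (S (nat_lit 15585) (S (nat_lit 5178) (S (nat_lit 47843) (L (nat_lit 11406771))
(L (nat_lit 16799560)))
(S (nat_lit 50167) (L (nat_lit 26449298))
(L (nat_lit 18588793))))
(S (nat_lit 47965) (L (nat_lit 8784472))
(L (nat_lit 24416761))))
(S (nat_lit 28278) (S (nat_lit 19892) (S (nat_lit 26360) (L (nat_lit 31133227))
(L (nat_lit 15847801)))
(S (nat_lit 46117) (S (nat_lit 5178) (S (nat_lit 26360) (S (nat_lit 45166) (L (nat_lit 29673892))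
(L (nat_lit 23995809)))
(L (nat_lit 15847801)))
(L (nat_lit 8870720)))
(L (nat_lit 18148375))))
(S (nat_lit 48042) (S (nat_lit 701) (S (nat_lit 51078) (L (nat_lit 17601750))
(L (nat_lit 766333)))
(S (nat_lit 25402) (S (nat_lit 46644) (S (nat_lit 47361) (S (nat_lit 28079) (L (nat_lit 29379049))
(L (nat_lit 19336409)))
(L (nat_lit 22048109)))
(L (nat_lit 17130516)))
(L (nat_lit 16833917))))
(L (nat_lit 25822509)))))
(S (nat_lit 31242) (S (nat_lit 8057) (S (nat_lit 13160) (S (nat_lit 35141) (S (nat_lit 46355) (S (nat_lit 12182) (L (nat_lit 11144601))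
(L (nat_lit 23936039)))
(L (nat_lit 17731147)))
(L (nat_lit 10096185)))
(S (nat_lit 32924) (S (nat_lit 27373) (S (nat_lit 25164) (S (nat_lit 319) (L (nat_lit 28428657))
(L (nat_lit 26265224)))
(L (nat_lit 13946690)))
(L (nat_lit 15568087)))
(S (nat_lit 52688) (S (nat_lit 34412) (L (nat_lit 14290822))
(L (nat_lit 23956934)))
(L (nat_lit 25480581)))))
(S (nat_lit 27821) (S (nat_lit 8786) (S (nat_lit 13418) (L (nat_lit 14519669))
(L (nat_lit 25005392)))
(S (nat_lit 28550) (S (nat_lit 45119) (S (nat_lit 27597) (L (nat_lit 10225229))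
(L (nat_lit 24939978)))
(L (nat_lit 25071145)))
(S (nat_lit 48314) (S (nat_lit 47843) (S (nat_lit 20307) (L (nat_lit 20745608))
(L (nat_lit 21499815)))
(L (nat_lit 9145912)))
(L (nat_lit 25758925)))))
(S (nat_lit 47585) (S (nat_lit 530) (S (nat_lit 13418) (S (nat_lit 40071) (L (nat_lit 12160911))
(L (nat_lit 18582813)))
(L (nat_lit 24383376)))
(S (nat_lit 20294) (S (nat_lit 54176) (S (nat_lit 46644) (L (nat_lit 18122611))
(L (nat_lit 17639011)))
(L (nat_lit 17461477)))
(S (nat_lit 40058) (S (nat_lit 47137) (S (nat_lit 19816) (L (nat_lit 9457455))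
(L (nat_lit 21047864)))
(L (nat_lit 17632626)))
(L (nat_lit 25305840)))))
(L (nat_lit 25660104)))))
(S (nat_lit 51006) (S (nat_lit 13180) (S (nat_lit 46644) (S (nat_lit 44648) (S (nat_lit 6827) (S (nat_lit 48771) (S (nat_lit 6845) (S (nat_lit 543) (S (nat_lit 15085) (S (nat_lit 52946) (S (nat_lit 7114) (L (nat_lit 17998426))
(L (nat_lit 7977825)))
(L (nat_lit 1561418)))
(L (nat_lit 26607923)))
(L (nat_lit 7418706)))
(L (nat_lit 13912093)))
(L (nat_lit 3056086)))
(L (nat_lit 6707009)))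
(S (nat_lit 53007) (L (nat_lit 11933522))
(L (nat_lit 7386967))))
(L (nat_lit 18190973)))
(S (nat_lit 32944) (S (nat_lit 12182) (S (nat_lit 19759) (L (nat_lit 12850813))
(S (nat_lit 28570) (S (nat_lit 44648) (S (nat_lit 8057) (S (nat_lit 19816) (S (nat_lit 15085) (L (nat_lit 14583091))
(L (nat_lit 12753686)))
(L (nat_lit 2813262)))
(L (nat_lit 21301693)))
(L (nat_lit 24612152)))
(L (nat_lit 13490249))))
(S (nat_lit 31946) (S (nat_lit 19816) (S (nat_lit 28570) (S (nat_lit 6827) (S (nat_lit 8315) (L (nat_lit 10374625))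
(L (nat_lit 10056752)))
(L (nat_lit 2894293)))
(L (nat_lit 18206840)))
(L (nat_lit 15636169)))
(S (nat_lit 51710) (S (nat_lit 8265) (S (nat_lit 7833) (S (nat_lit 6827) (S (nat_lit 47843) (S (nat_lit 0) (L (nat_lit 22232089))
(L (nat_lit 826956)))
(L (nat_lit 6753912)))
(L (nat_lit 23504925)))
(L (nat_lit 8468216)))
(L (nat_lit 2904301)))
(L (nat_lit 25380418)))))
(S (nat_lit 52708) (S (nat_lit 52) (S (nat_lit 46644) (S (nat_lit 46626) (S (nat_lit 6845) (S (nat_lit 39782) (S (nat_lit 28570) (S (nat_lit 33182) (S (nat_lit 17257) (S (nat_lit 4892) (L (nat_lit 1329014))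
(L (nat_lit 20825376)))
(L (nat_lit 3455830)))
(L (nat_lit 20889923)))
(L (nat_lit 19708162)))
(L (nat_lit 27666019)))
(L (nat_lit 2407004)))
(L (nat_lit 2928236)))
(L (nat_lit 11614843)))
(S (nat_lit 31763) (L (nat_lit 18763075))
(L (nat_lit 1734185))))
(L (nat_lit 25730754)))))
(L (nat_lit 25499060)))))
(S (nat_lit 50515) (S (nat_lit 7116) (S (nat_lit 13687) (S (nat_lit 254) (S (nat_lit 44928) (S (nat_lit 26862) (S (nat_lit 6822) (S (nat_lit 53145) (S (nat_lit 36810) (S (nat_lit 4398) (L (nat_lit 2650484))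
(L (nat_lit 26816833)))
(L (nat_lit 5502487)))
(L (nat_lit 27708643)))
(L (nat_lit 6452876)))
(L (nat_lit 14839398)))
(L (nat_lit 7466607)))
(S (nat_lit 20018) (S (nat_lit 7290) (S (nat_lit 44928) (S (nat_lit 14648) (L (nat_lit 30119276))
(L (nat_lit 933204)))
(L (nat_lit 1537642)))
(L (nat_lit 20980152)))
(S (nat_lit 39782) (S (nat_lit 36810) (S (nat_lit 46373) (L (nat_lit 28902765))
(L (nat_lit 18112387)))
(L (nat_lit 5502487)))
(L (nat_lit 25376854)))))
(S (nat_lit 33451) (S (nat_lit 10711) (S (nat_lit 8057) (S (nat_lit 319) (S (nat_lit 11254) (S (nat_lit 39580) (L (nat_lit 19262477))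
(L (nat_lit 17705141)))
(L (nat_lit 21019465)))
(L (nat_lit 19966798)))
(L (nat_lit 21871909)))
(S (nat_lit 30475) (S (nat_lit 44928) (S (nat_lit 26862) (S (nat_lit 11971) (S (nat_lit 6822) (L (nat_lit 30029123))
(L (nat_lit 7130189)))
(L (nat_lit 23462235)))
(L (nat_lit 14839398)))
(L (nat_lit 23194959)))
(S (nat_lit 50239) (S (nat_lit 24298) (L (nat_lit 15445824))
(S (nat_lit 26862) (S (nat_lit 31139) (L (nat_lit 26352206))
(S (nat_lit 32924) (S (nat_lit 43926) (L (nat_lit 1651035))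
(L (nat_lit 15294785)))
(L (nat_lit 16046105))))
(L (nat_lit 14839124))))
(L (nat_lit 25895364)))))
(S (nat_lit 53215) (S (nat_lit 7544) (S (nat_lit 47605) (S (nat_lit 24445) (S (nat_lit 44928) (S (nat_lit 35578) (L (nat_lit 31179848))
(L (nat_lit 12813142)))
(L (nat_lit 23194959)))
(L (nat_lit 21337936)))
(L (nat_lit 18541890)))
(S (nat_lit 27308) (S (nat_lit 26862) (S (nat_lit 44928) (S (nat_lit 28278) (S (nat_lit 27841) (L (nat_lit 8242262))
(L (nat_lit 15886679)))
(L (nat_lit 19194028)))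
(L (nat_lit 1537363)))
(L (nat_lit 15488325)))
(S (nat_lit 47072) (S (nat_lit 44928) (S (nat_lit 28550) (S (nat_lit 17257) (S (nat_lit 8077) (L (nat_lit 3952009))
(L (nat_lit 26916162)))
(L (nat_lit 26919236)))
(L (nat_lit 10193433)))
(L (nat_lit 27988303)))
(L (nat_lit 25898065)))))
(L (nat_lit 25184777)))))
(S (nat_lit 26880) (S (nat_lit 4892) (S (nat_lit 6634) (S (nat_lit 35578) (S (nat_lit 6863) (L (nat_lit 7213590))
(L (nat_lit 23115595)))
(L (nat_lit 4664150)))
(S (nat_lit 26398) (S (nat_lit 27308) (L (nat_lit 24229212))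
(L (nat_lit 16062293)))
(S (nat_lit 46162) (S (nat_lit 8806) (S (nat_lit 51216) (S (nat_lit 47072) (L (nat_lit 9967325))
(L (nat_lit 8239745)))
(L (nat_lit 22307200)))
(L (nat_lit 6783831)))
(L (nat_lit 25728247)))))
(S (nat_lit 24656) (S (nat_lit 4398) (S (nat_lit 48112) (S (nat_lit 32944) (L (nat_lit 20817315))
(L (nat_lit 30750307)))
(L (nat_lit 6840929)))
(S (nat_lit 24162) (S (nat_lit 20402) (L (nat_lit 2441851))
(S (nat_lit 46818) (S (nat_lit 44648) (L (nat_lit 9562732))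
(L (nat_lit 4470550)))
(L (nat_lit 17528128))))
(S (nat_lit 43926) (S (nat_lit 1120) (L (nat_lit 22274222))
(S (nat_lit 20800) (S (nat_lit 54384) (S (nat_lit 53145) (L (nat_lit 28392167))
(L (nat_lit 17750119)))
(L (nat_lit 18888523)))
(L (nat_lit 14790484))))
(L (nat_lit 25734322)))))
(S (nat_lit 44420) (S (nat_lit 1036) (S (nat_lit 254) (L (nat_lit 18116193))
(L (nat_lit 26646123)))
(S (nat_lit 20800) (S (nat_lit 34412) (S (nat_lit 24445) (S (nat_lit 31735) (L (nat_lit 28574320))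
(L (nat_lit 320144)))
(L (nat_lit 778448)))
(L (nat_lit 15509588)))
(S (nat_lit 40564) (S (nat_lit 31018) (S (nat_lit 28550) (S (nat_lit 27373) (L (nat_lit 27559410))
(L (nat_lit 14937111)))
(L (nat_lit 24416077)))
(L (nat_lit 24520888)))
(L (nat_lit 25279829)))))
(L (nat_lit 25216278)))))
(S (nat_lit 46644) (S (nat_lit 15085) (S (nat_lit 319) (S (nat_lit 1434) (L (nat_lit 24293689))
(S (nat_lit 52946) (S (nat_lit 28758) (L (nat_lit 11946915))
(L (nat_lit 30955527)))
(L (nat_lit 17091395))))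
(S (nat_lit 20083) (S (nat_lit 3996) (S (nat_lit 20307) (L (nat_lit 21799053))
(L (nat_lit 30972579)))
(S (nat_lit 15585) (S (nat_lit 20307) (L (nat_lit 12453453))
(L (nat_lit 30972579)))
(L (nat_lit 22886756))))
(S (nat_lit 39847) (S (nat_lit 28758) (S (nat_lit 39580) (L (nat_lit 11102319))
(L (nat_lit 17062722)))
(L (nat_lit 24976558)))
(L (nat_lit 25745701)))))
(S (nat_lit 34849) (S (nat_lit 4398) (S (nat_lit 7114) (S (nat_lit 7290) (L (nat_lit 8132269))
(L (nat_lit 23077273)))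
(L (nat_lit 7978817)))
(S (nat_lit 24162) (S (nat_lit 25164) (S (nat_lit 15585) (L (nat_lit 12455599))
(L (nat_lit 17652775)))
(L (nat_lit 22483786)))
(S (nat_lit 43926) (S (nat_lit 17257) (S (nat_lit 40775) (L (nat_lit 24001893))
(L (nat_lit 17600169)))
(L (nat_lit 15488321)))
(L (nat_lit 25180870)))))
(S (nat_lit 54613) (S (nat_lit 8786) (S (nat_lit 40775) (S (nat_lit 15585) (S (nat_lit 10482) (L (nat_lit 21394788))
(L (nat_lit 26984553)))
(L (nat_lit 26532976)))
(L (nat_lit 2815344)))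
(S (nat_lit 28550) (S (nat_lit 39580) (S (nat_lit 46870) (L (nat_lit 20242915))
(L (nat_lit 17702498)))
(L (nat_lit 17717570)))
(S (nat_lit 48314) (S (nat_lit 17300) (S (nat_lit 26862) (L (nat_lit 5498477))
(L (nat_lit 15434599)))
(L (nat_lit 22872429)))
(L (nat_lit 25922767)))))
(L (nat_lit 25598628)))))
(L (nat_lit 25250342)))))
(L (nat_lit 25253320)))))
(S (nat_lit 28808) (S (nat_lit 254) (S (nat_lit 10935) (S (nat_lit 8265) (S (nat_lit 4892) (S (nat_lit 6822) (S (nat_lit 13617) (L (nat_lit 2541848))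
(L (nat_lit 26412716)))
(L (nat_lit 26938604)))
(S (nat_lit 24656) (S (nat_lit 24258) (L (nat_lit 808273))
(S (nat_lit 37064) (S (nat_lit 46357) (S (nat_lit 43926) (L (nat_lit 17964887))
(L (nat_lit 12802880)))
(L (nat_lit 1722184)))
(L (nat_lit 5001519))))
(S (nat_lit 44420) (S (nat_lit 51710) (S (nat_lit 31242) (S (nat_lit 20083) (L (nat_lit 1923342))
(L (nat_lit 10259956)))
(L (nat_lit 18890503)))
(L (nat_lit 7769688)))
(L (nat_lit 25443968)))))
(S (nat_lit 28029) (S (nat_lit 753) (S (nat_lit 28758) (S (nat_lit 15814) (S (nat_lit 46642) (S (nat_lit 53145) (S (nat_lit 4398) (L (nat_lit 18969030))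
(L (nat_lit 799431)))
(L (nat_lit 10913469)))
(L (nat_lit 20481305)))
(L (nat_lit 22806769)))
(L (nat_lit 13308678)))
(S (nat_lit 20463) (L (nat_lit 630333))
(L (nat_lit 19678432))))
(S (nat_lit 47793) (S (nat_lit 16977) (L (nat_lit 9953985))
(S (nat_lit 24445) (S (nat_lit 55113) (S (nat_lit 50010) (L (nat_lit 11555387))
(L (nat_lit 1464605)))
(L (nat_lit 21367165)))
(L (nat_lit 30807657))))
(L (nat_lit 25561673)))))
(S (nat_lit 30699) (S (nat_lit 10987) (S (nat_lit 46644) (S (nat_lit 46626) (S (nat_lit 5178) (S (nat_lit 8786) (S (nat_lit 6845) (S (nat_lit 56599) (L (nat_lit 28743369))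
(L (nat_lit 9262496)))
(L (nat_lit 21248835)))
(L (nat_lit 616685)))
(L (nat_lit 19182400)))
(L (nat_lit 18088788)))
(L (nat_lit 11047547)))
(S (nat_lit 30751) (S (nat_lit 27106) (S (nat_lit 28079) (S (nat_lit 8265) (S (nat_lit 12182) (L (nat_lit 4642632))
(L (nat_lit 8996704)))
(L (nat_lit 2766697)))
(L (nat_lit 18902566)))
(L (nat_lit 2319983)))
(S (nat_lit 50515) (S (nat_lit 12182) (S (nat_lit 36810) (S (nat_lit 43926) (S (nat_lit 4892) (L (nat_lit 24569897))
(L (nat_lit 5774167)))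
(L (nat_lit 12785490)))
(L (nat_lit 12754775)))
(S (nat_lit 31946) (S (nat_lit 28079) (S (nat_lit 27821) (S (nat_lit 40281) (S (nat_lit 24162) (L (nat_lit 10043172))
(L (nat_lit 10055105)))
(L (nat_lit 5859564)))
(L (nat_lit 19217433)))
(S (nat_lit 55720) (L (nat_lit 20221401))
(L (nat_lit 24350577))))
(S (nat_lit 51710) (S (nat_lit 27106) (S (nat_lit 28550) (S (nat_lit 35141) (L (nat_lit 22417258))
(L (nat_lit 9932409)))
(L (nat_lit 24684356)))
(L (nat_lit 14904931)))
(L (nat_lit 25221545)))))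
(L (nat_lit 25597608)))))
(S (nat_lit 50463) (S (nat_lit 15814) (S (nat_lit 14856) (S (nat_lit 27106) (S (nat_lit 24445) (L (nat_lit 19116899))
(L (nat_lit 22484221)))
(L (nat_lit 24614141)))
(S (nat_lit 34620) (S (nat_lit 44706) (S (nat_lit 47605) (L (nat_lit 872657))
(L (nat_lit 16964394)))
(L (nat_lit 12738344)))
(S (nat_lit 54384) (S (nat_lit 6227) (L (nat_lit 24294217))
(S (nat_lit 30475) (S (nat_lit 53145) (L (nat_lit 31107180))
(L (nat_lit 2519253)))
(L (nat_lit 7820413))))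
(L (nat_lit 25679044)))))
(S (nat_lit 35578) (S (nat_lit 52) (S (nat_lit 6827) (S (nat_lit 20517) (S (nat_lit 7114) (S (nat_lit 48522) (S (nat_lit 52708) (L (nat_lit 8226293))
(L (nat_lit 19461379)))
(L (nat_lit 14314662)))
(L (nat_lit 7424878)))
(L (nat_lit 12149933)))
(S (nat_lit 36164) (L (nat_lit 14964545))
(L (nat_lit 26430913))))
(S (nat_lit 19816) (S (nat_lit 31242) (S (nat_lit 7114) (S (nat_lit 31018) (S (nat_lit 36810) (S (nat_lit 15377) (S (nat_lit 20517) (S (nat_lit 43926) (L (nat_lit 19842155))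
(L (nat_lit 24680263)))
(L (nat_lit 16014176)))
(L (nat_lit 22979108)))
(L (nat_lit 30426793)))
(L (nat_lit 24603656)))
(L (nat_lit 13551656)))
(L (nat_lit 31103395)))
(S (nat_lit 39580) (S (nat_lit 7114) (S (nat_lit 20517) (S (nat_lit 319) (S (nat_lit 48522) (S (nat_lit 36810) (S (nat_lit 43926) (L (nat_lit 30824803))
(L (nat_lit 13556902)))
(L (nat_lit 23402012)))
(L (nat_lit 11234690)))
(L (nat_lit 12639049)))
(L (nat_lit 16014177)))
(S (nat_lit 20445) (L (nat_lit 13486120))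
(L (nat_lit 13542113))))
(L (nat_lit 25825833)))))
(S (nat_lit 55342) (S (nat_lit 30153) (L (nat_lit 20083918))
(S (nat_lit 48522) (S (nat_lit 31242) (S (nat_lit 53145) (S (nat_lit 33451) (L (nat_lit 12487095))
(L (nat_lit 15363081)))
(L (nat_lit 11950947)))
(L (nat_lit 14523109)))
(L (nat_lit 12217358))))
(L (nat_lit 25274902)))))
(L (nat_lit 25657556)))))
(S (nat_lit 20018) (S (nat_lit 17300) (S (nat_lit 17071) (S (nat_lit 29007) (S (nat_lit 26862) (S (nat_lit 28570) (S (nat_lit 46373) (S (nat_lit 33381) (S (nat_lit 44928) (S (nat_lit 5178) (S (nat_lit 54176) (S (nat_lit 52896) (L (nat_lit 5842365))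
(L (nat_lit 19106700)))
(L (nat_lit 5843448)))
(L (nat_lit 16486616)))
(L (nat_lit 24442001)))
(L (nat_lit 30824677)))
(L (nat_lit 22848529)))
(L (nat_lit 10075042)))
(L (nat_lit 30921799)))
(S (nat_lit 39482) (L (nat_lit 9586546))
(L (nat_lit 10122757))))
(S (nat_lit 36835) (S (nat_lit 543) (S (nat_lit 30953) (S (nat_lit 29007) (L (nat_lit 30018796))
(L (nat_lit 24376773)))
(S (nat_lit 33058) (L (nat_lit 14834535))
(L (nat_lit 13857875))))
(S (nat_lit 20307) (S (nat_lit 47605) (S (nat_lit 26627) (S (nat_lit 33182) (S (nat_lit 7342) (L (nat_lit 18557699))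
(L (nat_lit 904431)))
(L (nat_lit 10161968)))
(L (nat_lit 898794)))
(L (nat_lit 22885450)))
(S (nat_lit 40071) (S (nat_lit 33381) (S (nat_lit 27841) (L (nat_lit 21172637))
(L (nat_lit 30595311)))
(L (nat_lit 10304229)))
(L (nat_lit 25697331)))))
(S (nat_lit 56599) (S (nat_lit 8265) (S (nat_lit 40058) (S (nat_lit 51499) (L (nat_lit 21292577))
(L (nat_lit 10237079)))
(L (nat_lit 24618818)))
(S (nat_lit 28029) (S (nat_lit 5178) (S (nat_lit 54613) (S (nat_lit 36810) (S (nat_lit 7098) (L (nat_lit 5497266))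
(L (nat_lit 5731942)))
(L (nat_lit 5644026)))
(L (nat_lit 27676839)))
(S (nat_lit 30571) (L (nat_lit 9195533))
(L (nat_lit 252785))))
(S (nat_lit 47793) (S (nat_lit 2908) (L (nat_lit 23312257))
(S (nat_lit 27597) (S (nat_lit 46818) (L (nat_lit 8409933))
(L (nat_lit 27697206)))
(L (nat_lit 30487764))))
(L (nat_lit 25530836)))))
(L (nat_lit 25449516)))))
(S (nat_lit 37064) (S (nat_lit 14856) (S (nat_lit 33381) (S (nat_lit 44917) (S (nat_lit 10274) (S (nat_lit 26876) (S (nat_lit 26398) (S (nat_lit 53215) (S (nat_lit 25164) (L (nat_lit 15918419))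
(L (nat_lit 21013393)))
(L (nat_lit 18440513)))
(L (nat_lit 15373560)))
(L (nat_lit 24446361)))
(L (nat_lit 12454637)))
(L (nat_lit 27929645)))
(L (nat_lit 8805253)))
(S (nat_lit 34620) (S (nat_lit 13687) (S (nat_lit 30475) (L (nat_lit 11718171))
(L (nat_lit 31077479)))
(S (nat_lit 33451) (S (nat_lit 30953) (L (nat_lit 10246221))
(L (nat_lit 9123649)))
(S (nat_lit 53215) (S (nat_lit 33381) (S (nat_lit 51710) (L (nat_lit 31133005))
(L (nat_lit 781516)))
(L (nat_lit 1465223)))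
(L (nat_lit 25249417)))))
(S (nat_lit 54384) (S (nat_lit 6827) (S (nat_lit 33381) (S (nat_lit 36810) (S (nat_lit 31242) (S (nat_lit 7609) (L (nat_lit 20219388))
(L (nat_lit 8967355)))
(L (nat_lit 30822659)))
(L (nat_lit 30809764)))
(S (nat_lit 53070) (L (nat_lit 30808118))
(L (nat_lit 20358981))))
(S (nat_lit 26591) (S (nat_lit 4892) (S (nat_lit 50463) (L (nat_lit 22034251))
(L (nat_lit 22232123)))
(L (nat_lit 3678039)))
(S (nat_lit 46355) (S (nat_lit 10274) (S (nat_lit 28079) (L (nat_lit 11931289))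
(L (nat_lit 7933467)))
(L (nat_lit 21181253)))
(L (nat_lit 25243376)))))
(L (nat_lit 25667140)))))
(S (nat_lit 56828) (S (nat_lit 13617) (S (nat_lit 17071) (S (nat_lit 30953) (L (nat_lit 8842885))
(L (nat_lit 17007445)))
(S (nat_lit 36835) (S (nat_lit 26593) (L (nat_lit 28544748))
(L (nat_lit 19087416)))
(S (nat_lit 56599) (S (nat_lit 30953) (S (nat_lit 9243) (S (nat_lit 28079) (L (nat_lit 31174759))
(L (nat_lit 14929017)))
(L (nat_lit 21228997)))
(L (nat_lit 501587)))
(L (nat_lit 25386464)))))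
(S (nat_lit 33381) (S (nat_lit 7544) (S (nat_lit 31242) (S (nat_lit 48042) (S (nat_lit 30570) (S (nat_lit 48522) (S (nat_lit 20112) (S (nat_lit 6827) (S (nat_lit 53215) (L (nat_lit 1367453))
(L (nat_lit 17910601)))
(L (nat_lit 23523587)))
(L (nat_lit 24512294)))
(L (nat_lit 13783846)))
(L (nat_lit 2519659)))
(L (nat_lit 27674793)))
(L (nat_lit 30824707)))
(S (nat_lit 27308) (S (nat_lit 28278) (S (nat_lit 25153) (S (nat_lit 5178) (S (nat_lit 30038) (L (nat_lit 19667020))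
(L (nat_lit 24391803)))
(L (nat_lit 16489592)))
(L (nat_lit 14439526)))
(L (nat_lit 7757699)))
(S (nat_lit 47072) (S (nat_lit 6827) (S (nat_lit 5400) (S (nat_lit 4398) (S (nat_lit 54613) (S (nat_lit 5178) (L (nat_lit 29708673))
(L (nat_lit 734058)))
(L (nat_lit 447338)))
(L (nat_lit 226770)))
(L (nat_lit 2515562)))
(L (nat_lit 21375811)))
(L (nat_lit 25564501)))))
(S (nat_lit 53145) (S (nat_lit 26591) (S (nat_lit 47718) (L (nat_lit 9832341))
(S (nat_lit 48042) (L (nat_lit 9853795))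
(L (nat_lit 900811))))
(L (nat_lit 8803515)))
(L (nat_lit 25563878)))))
(L (nat_lit 25219528)))))
(S (nat_lit 39782) (S (nat_lit 319) (S (nat_lit 15814) (S (nat_lit 4681) (S (nat_lit 6589) (S (nat_lit 12182) (L (nat_lit 10216556))
(L (nat_lit 26257996)))
(L (nat_lit 1528059)))
(S (nat_lit 24445) (S (nat_lit 28278) (S (nat_lit 12182) (L (nat_lit 9262465))
(L (nat_lit 3917641)))
(L (nat_lit 15412037)))
(S (nat_lit 44209) (S (nat_lit 6845) (S (nat_lit 19764) (S (nat_lit 12182) (L (nat_lit 3551059))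
(L (nat_lit 16493408)))
(L (nat_lit 3355475)))
(L (nat_lit 4975083)))
(L (nat_lit 25278057)))))
(S (nat_lit 35578) (S (nat_lit 47843) (S (nat_lit 31242) (S (nat_lit 44648) (S (nat_lit 28550) (S (nat_lit 32924) (L (nat_lit 30429422))
(L (nat_lit 14946132)))
(L (nat_lit 12847957)))
(L (nat_lit 10325708)))
(L (nat_lit 10325428)))
(L (nat_lit 7063361)))
(S (nat_lit 55342) (S (nat_lit 54613) (S (nat_lit 50463) (S (nat_lit 39580) (S (nat_lit 24162) (S (nat_lit 46818) (S (nat_lit 47793) (L (nat_lit 17476356))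
(L (nat_lit 17460233)))
(L (nat_lit 17460232)))
(L (nat_lit 8412015)))
(L (nat_lit 11427363)))
(L (nat_lit 27990031)))
(L (nat_lit 9143150)))
(L (nat_lit 25408694)))))
(S (nat_lit 20083) (S (nat_lit 11189) (S (nat_lit 4398) (S (nat_lit 50463) (L (nat_lit 21196161))
(L (nat_lit 22604993)))
(S (nat_lit 24162) (S (nat_lit 48522) (S (nat_lit 54613) (S (nat_lit 13617) (S (nat_lit 8057) (L (nat_lit 23463292))
(L (nat_lit 12433461)))
(L (nat_lit 22441062)))
(L (nat_lit 18979257)))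
(L (nat_lit 3363389)))
(S (nat_lit 43926) (S (nat_lit 44648) (S (nat_lit 31735) (L (nat_lit 6204110))
(L (nat_lit 24425565)))
(L (nat_lit 27279607)))
(L (nat_lit 25408192)))))
(S (nat_lit 30953) (S (nat_lit 7544) (S (nat_lit 13160) (S (nat_lit 40281) (L (nat_lit 8870013))
(L (nat_lit 9836251)))
(L (nat_lit 514827)))
(S (nat_lit 27308) (S (nat_lit 47348) (S (nat_lit 28079) (S (nat_lit 29007) (L (nat_lit 18083858))
(L (nat_lit 25043461)))
(L (nat_lit 19372897)))
(L (nat_lit 17713223)))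
(S (nat_lit 47072) (S (nat_lit 27841) (S (nat_lit 30246) (L (nat_lit 8967042))
(L (nat_lit 420521)))
(L (nat_lit 24275183)))
(L (nat_lit 25246345)))))
(S (nat_lit 50717) (S (nat_lit 26353) (S (nat_lit 33451) (S (nat_lit 10482) (S (nat_lit 35141) (S (nat_lit 26398) (S (nat_lit 24162) (S (nat_lit 44420) (L (nat_lit 11718543))
(L (nat_lit 314808)))
(L (nat_lit 8993632)))
(L (nat_lit 4048119)))
(L (nat_lit 20816975)))
(L (nat_lit 15443001)))
(L (nat_lit 14771785)))
(S (nat_lit 46037) (L (nat_lit 15915942))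
(L (nat_lit 24222104))))
(L (nat_lit 25741386)))))
(S (nat_lit 39847) (S (nat_lit 14648) (S (nat_lit 8315) (S (nat_lit 10482) (S (nat_lit 543) (L (nat_lit 14359640))
(L (nat_lit 26938855)))
(L (nat_lit 15295593)))
(S (nat_lit 28079) (S (nat_lit 20517) (S (nat_lit 15377) (S (nat_lit 48042) (L (nat_lit 17442722))
(L (nat_lit 728941)))
(L (nat_lit 15634123)))
(L (nat_lit 12130156)))
(S (nat_lit 47843) (S (nat_lit 56785) (S (nat_lit 51216) (L (nat_lit 24290715))
(L (nat_lit 27538017)))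
(L (nat_lit 14519914)))
(L (nat_lit 25351720)))))
(S (nat_lit 34412) (S (nat_lit 12182) (S (nat_lit 47843) (L (nat_lit 12095100))
(L (nat_lit 18583302)))
(S (nat_lit 31946) (S (nat_lit 44648) (S (nat_lit 27821) (S (nat_lit 17257) (S (nat_lit 25355) (L (nat_lit 11252480))
(L (nat_lit 30969449)))
(L (nat_lit 17141370)))
(L (nat_lit 24198521)))
(L (nat_lit 25070830)))
(S (nat_lit 51710) (S (nat_lit 40775) (L (nat_lit 29953446))
(L (nat_lit 23989456)))
(L (nat_lit 25383330)))))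
(S (nat_lit 54176) (S (nat_lit 7342) (S (nat_lit 51216) (S (nat_lit 6829) (S (nat_lit 7114) (L (nat_lit 8246753))
(L (nat_lit 23143931)))
(L (nat_lit 26659881)))
(L (nat_lit 14687867)))
(S (nat_lit 27106) (S (nat_lit 28570) (S (nat_lit 5591) (S (nat_lit 44706) (L (nat_lit 13523168))
(L (nat_lit 24976800)))
(L (nat_lit 16518761)))
(L (nat_lit 19307608)))
(S (nat_lit 46870) (S (nat_lit 24445) (S (nat_lit 5178) (S (nat_lit 13617) (S (nat_lit 54613) (L (nat_lit 18207525))
(L (nat_lit 16962410)))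
(L (nat_lit 22422712)))
(L (nat_lit 18585416)))
(L (nat_lit 16819028)))
(L (nat_lit 25677027)))))
(L (nat_lit 25766001)))))
(L (nat_lit 25724553)))))
(L (nat_lit 25311850)))))
(S (nat_lit 48572) (S (nat_lit 11254) (S (nat_lit 7820) (S (nat_lit 1036) (S (nat_lit 8584) (S (nat_lit 530) (S (nat_lit 6822) (L (nat_lit 28807509))
(L (nat_lit 14316614)))
(L (nat_lit 13915229)))
(S (nat_lit 28348) (S (nat_lit 4557) (L (nat_lit 24145318))
(S (nat_lit 52708) (S (nat_lit 5591) (S (nat_lit 30038) (S (nat_lit 11688) (L (nat_lit 834802))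
(L (nat_lit 11291823)))
(L (nat_lit 19161165)))
(L (nat_lit 11133408)))
(L (nat_lit 11066457))))
(S (nat_lit 48112) (S (nat_lit 5178) (S (nat_lit 13617) (L (nat_lit 6745106))
(L (nat_lit 13750022)))
(L (nat_lit 761681)))
(L (nat_lit 25692370)))))
(S (nat_lit 20800) (S (nat_lit 13180) (S (nat_lit 23589) (L (nat_lit 376723))
(S (nat_lit 50993) (S (nat_lit 39580) (S (nat_lit 48112) (L (nat_lit 30022144))
(L (nat_lit 549543)))
(L (nat_lit 17718626)))
(L (nat_lit 2418286))))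
(S (nat_lit 32944) (S (nat_lit 24845) (L (nat_lit 20824135))
(S (nat_lit 28348) (S (nat_lit 5178) (S (nat_lit 6827) (S (nat_lit 11688) (L (nat_lit 26398029))
(L (nat_lit 1882730)))
(L (nat_lit 13314883)))
(L (nat_lit 19182400)))
(L (nat_lit 16613591))))
(S (nat_lit 52708) (S (nat_lit 26353) (S (nat_lit 10482) (L (nat_lit 3808141))
(L (nat_lit 16965908)))
(L (nat_lit 15270728)))
(L (nat_lit 25828802)))))
(S (nat_lit 40564) (S (nat_lit 7114) (S (nat_lit 3267) (L (nat_lit 26230475))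
(S (nat_lit 15585) (S (nat_lit 6827) (S (nat_lit 8994) (S (nat_lit 32924) (L (nat_lit 3034507))
(L (nat_lit 9014713)))
(L (nat_lit 8086542)))
(L (nat_lit 23315267)))
(L (nat_lit 7158338))))
(S (nat_lit 26878) (S (nat_lit 36835) (S (nat_lit 48334) (L (nat_lit 12023360))
(L (nat_lit 20781137)))
(L (nat_lit 23116583)))
(S (nat_lit 46642) (S (nat_lit 4681) (S (nat_lit 31229) (S (nat_lit 13160) (L (nat_lit 29048162))
(L (nat_lit 1915627)))
(L (nat_lit 31176000)))
(L (nat_lit 18213013)))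
(L (nat_lit 25868548)))))
(L (nat_lit 25924942)))))
(S (nat_lit 27584) (S (nat_lit 17046) (S (nat_lit 14648) (S (nat_lit 8584) (S (nat_lit 28550) (S (nat_lit 52896) (L (nat_lit 12916565))
(L (nat_lit 11987989)))
(L (nat_lit 24383001)))
(L (nat_lit 12238875)))
(L (nat_lit 22581064)))
(S (nat_lit 36810) (S (nat_lit 13687) (S (nat_lit 15585) (S (nat_lit 50515) (S (nat_lit 51499) (S (nat_lit 26360) (L (nat_lit 24327258))
(L (nat_lit 4103856)))
(L (nat_lit 22332320)))
(L (nat_lit 15617346)))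
(L (nat_lit 17505154)))
(S (nat_lit 33451) (S (nat_lit 34849) (S (nat_lit 50515) (L (nat_lit 5712632))
(L (nat_lit 22096717)))
(L (nat_lit 20236097)))
(S (nat_lit 53215) (S (nat_lit 5178) (S (nat_lit 8584) (S (nat_lit 6827) (S (nat_lit 40281) (L (nat_lit 19985646))
(L (nat_lit 23093802)))
(L (nat_lit 21408577)))
(L (nat_lit 23295489)))
(L (nat_lit 18750546)))
(L (nat_lit 25692499)))))
(S (nat_lit 56574) (S (nat_lit 6589) (S (nat_lit 27841) (S (nat_lit 52896) (S (nat_lit 31229) (L (nat_lit 24371682))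
(L (nat_lit 30727246)))
(L (nat_lit 1750331)))
(L (nat_lit 11393507)))
(S (nat_lit 26353) (S (nat_lit 54384) (S (nat_lit 52896) (S (nat_lit 28029) (L (nat_lit 8565372))
(L (nat_lit 15602409)))
(L (nat_lit 1258205)))
(L (nat_lit 1978953)))
(S (nat_lit 46117) (S (nat_lit 1247) (S (nat_lit 43926) (L (nat_lit 11252481))
(L (nat_lit 11088704)))
(L (nat_lit 10964834)))
(L (nat_lit 25481230)))))
(L (nat_lit 25188875)))))
(S (nat_lit 47348) (S (nat_lit 8994) (S (nat_lit 6829) (S (nat_lit 13368) (S (nat_lit 46355) (L (nat_lit 18048023))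
(L (nat_lit 20360216)))
(S (nat_lit 31778) (L (nat_lit 12881533))
(L (nat_lit 26358069))))
(S (nat_lit 26593) (S (nat_lit 13368) (S (nat_lit 24445) (S (nat_lit 48112) (S (nat_lit 30475) (L (nat_lit 22440293))
(L (nat_lit 30869815)))
(L (nat_lit 16998418)))
(L (nat_lit 22921289)))
(S (nat_lit 23300) (L (nat_lit 2306776))
(L (nat_lit 24536354))))
(S (nat_lit 46357) (S (nat_lit 28550) (S (nat_lit 30475) (S (nat_lit 27821) (S (nat_lit 6827) (L (nat_lit 24448944))
(L (nat_lit 26887457)))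
(L (nat_lit 7856147)))
(L (nat_lit 8277105)))
(L (nat_lit 18779851)))
(L (nat_lit 25569330)))))
(S (nat_lit 28758) (S (nat_lit 48112) (S (nat_lit 10935) (S (nat_lit 5178) (S (nat_lit 36810) (S (nat_lit 40058) (L (nat_lit 26978721))
(L (nat_lit 17474368)))
(L (nat_lit 20317001)))
(L (nat_lit 1817416)))
(L (nat_lit 23282712)))
(S (nat_lit 50563) (S (nat_lit 5178) (L (nat_lit 8810116))
(L (nat_lit 19184448)))
(L (nat_lit 2313785))))
(S (nat_lit 48522) (S (nat_lit 11465) (S (nat_lit 40058) (S (nat_lit 46818) (L (nat_lit 16621248))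
(L (nat_lit 8023053)))
(L (nat_lit 23536448)))
(S (nat_lit 31229) (S (nat_lit 46640) (S (nat_lit 52946) (L (nat_lit 29839649))
(L (nat_lit 17058627)))
(L (nat_lit 22545624)))
(S (nat_lit 50993) (S (nat_lit 24445) (S (nat_lit 47843) (S (nat_lit 46391) (L (nat_lit 23552006))
(L (nat_lit 27384080)))
(L (nat_lit 1818840)))
(L (nat_lit 22405197)))
(L (nat_lit 25924042)))))
(L (nat_lit 25238934)))))
(L (nat_lit 25643015)))))
(S (nat_lit 31018) (S (nat_lit 13160) (S (nat_lit 15814) (S (nat_lit 44648) (S (nat_lit 5178) (L (nat_lit 24361085))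
(L (nat_lit 488818)))
(L (nat_lit 24611128)))
(S (nat_lit 35578) (S (nat_lit 8786) (S (nat_lit 34849) (S (nat_lit 8265) (S (nat_lit 5178) (L (nat_lit 29774052))
(L (nat_lit 1465162)))
(L (nat_lit 26872044)))
(L (nat_lit 1753400)))
(L (nat_lit 602891)))
(S (nat_lit 55342) (S (nat_lit 6845) (S (nat_lit 5178) (S (nat_lit 28079) (S (nat_lit 8514) (S (nat_lit 11971) (S (nat_lit 27597) (L (nat_lit 1460475))
(L (nat_lit 12184003)))
(L (nat_lit 23555397)))
(L (nat_lit 9550488)))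
(L (nat_lit 11267120)))
(L (nat_lit 766794)))
(S (nat_lit 26609) (S (nat_lit 40058) (L (nat_lit 22029753))
(L (nat_lit 24393816)))
(S (nat_lit 46373) (S (nat_lit 5178) (S (nat_lit 34849) (S (nat_lit 28079) (S (nat_lit 24656) (S (nat_lit 10987) (L (nat_lit 30807720))
(L (nat_lit 904585)))
(L (nat_lit 21237516)))
(L (nat_lit 11267617)))
(L (nat_lit 11267457)))
(L (nat_lit 9155393)))
(L (nat_lit 25643178)))))
(L (nat_lit 25692403)))))
(S (nat_lit 32924) (S (nat_lit 7544) (S (nat_lit 5638) (S (nat_lit 31304) (S (nat_lit 33381) (L (nat_lit 22253049))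
(L (nat_lit 1817414)))
(S (nat_lit 50993) (S (nat_lit 33381) (S (nat_lit 5178) (L (nat_lit 20295770))
(L (nat_lit 20101960)))
(L (nat_lit 1817414)))
(L (nat_lit 11965267))))
(S (nat_lit 25402) (S (nat_lit 8994) (S (nat_lit 7116) (S (nat_lit 29077) (L (nat_lit 26327284))
(L (nat_lit 19300696)))
(L (nat_lit 14327896)))
(L (nat_lit 21793040)))
(S (nat_lit 45166) (S (nat_lit 10274) (S (nat_lit 8994) (S (nat_lit 753) (L (nat_lit 6068756))
(L (nat_lit 607544)))
(L (nat_lit 15360007)))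
(L (nat_lit 12225357)))
(L (nat_lit 25206416)))))
(S (nat_lit 27308) (S (nat_lit 7609) (S (nat_lit 10274) (S (nat_lit 13180) (S (nat_lit 11478) (S (nat_lit 4892) (S (nat_lit 12182) (L (nat_lit 6216016))
(L (nat_lit 26644041)))
(L (nat_lit 26529184)))
(L (nat_lit 16666883)))
(L (nat_lit 931094)))
(S (nat_lit 29954) (L (nat_lit 26938703))
(L (nat_lit 15306568))))
(S (nat_lit 27373) (S (nat_lit 848) (L (nat_lit 15011421))
(L (nat_lit 16420189)))
(S (nat_lit 47137) (S (nat_lit 10274) (L (nat_lit 13930354))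
(L (nat_lit 16976723)))
(L (nat_lit 25742502)))))
(S (nat_lit 47072) (S (nat_lit 530) (S (nat_lit 40564) (S (nat_lit 39782) (L (nat_lit 5657419))
(L (nat_lit 1267128)))
(L (nat_lit 3914667)))
(S (nat_lit 20294) (S (nat_lit 15585) (S (nat_lit 44648) (S (nat_lit 17071) (L (nat_lit 9884517))
(L (nat_lit 22306924)))
(L (nat_lit 15568119)))
(L (nat_lit 17404280)))
(S (nat_lit 40058) (S (nat_lit 10482) (S (nat_lit 27821) (L (nat_lit 28608947))
(L (nat_lit 24619844)))
(S (nat_lit 52034) (L (nat_lit 17107640))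
(L (nat_lit 10193336))))
(L (nat_lit 25312630)))))
(L (nat_lit 25827713)))))
(S (nat_lit 52688) (S (nat_lit 8584) (S (nat_lit 6589) (S (nat_lit 27373) (S (nat_lit 33381) (S (nat_lit 39528) (S (nat_lit 9313) (S (nat_lit 45166) (L (nat_lit 29907168))
(L (nat_lit 826804)))
(L (nat_lit 15607826)))
(L (nat_lit 27505682)))
(L (nat_lit 1471735)))
(L (nat_lit 14935058)))
(S (nat_lit 26353) (S (nat_lit 4398) (S (nat_lit 25164) (S (nat_lit 46357) (L (nat_lit 17066071))
(L (nat_lit 22251342)))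
(L (nat_lit 22127439)))
(S (nat_lit 24082) (L (nat_lit 16321853))
(L (nat_lit 19968344))))
(S (nat_lit 46117) (S (nat_lit 48314) (S (nat_lit 54176) (L (nat_lit 27698199))
(L (nat_lit 17632872)))
(L (nat_lit 22294554)))
(L (nat_lit 25757064)))))
(S (nat_lit 28348) (S (nat_lit 10274) (S (nat_lit 40775) (S (nat_lit 10987) (L (nat_lit 11406741))
(L (nat_lit 1339799)))
(L (nat_lit 9932442)))
(S (nat_lit 30038) (S (nat_lit 44420) (S (nat_lit 40775) (L (nat_lit 30674355))
(L (nat_lit 23891433)))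
(L (nat_lit 23891466)))
(S (nat_lit 49802) (S (nat_lit 47843) (S (nat_lit 27373) (S (nat_lit 7833) (S (nat_lit 30699) (L (nat_lit 11393505))
(L (nat_lit 24609606)))
(L (nat_lit 23629017)))
(L (nat_lit 24937679)))
(L (nat_lit 28020232)))
(L (nat_lit 25659976)))))
(S (nat_lit 48112) (S (nat_lit 13418) (S (nat_lit 47843) (S (nat_lit 48841) (S (nat_lit 44420) (L (nat_lit 27558637))
(L (nat_lit 23989675)))
(L (nat_lit 13981505)))
(L (nat_lit 17534168)))
(S (nat_lit 33182) (S (nat_lit 27373) (S (nat_lit 47843) (S (nat_lit 40775) (L (nat_lit 31006768))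
(L (nat_lit 10096088)))
(L (nat_lit 17534792)))
(L (nat_lit 19173134)))
(S (nat_lit 52946) (S (nat_lit 54176) (S (nat_lit 39847) (L (nat_lit 10948503))
(L (nat_lit 28000265)))
(L (nat_lit 19085432)))
(L (nat_lit 25791856)))))
(L (nat_lit 25379863)))))
(L (nat_lit 25803972)))))
(S (nat_lit 50782) (S (nat_lit 10274) (S (nat_lit 15377) (S (nat_lit 32924) (S (nat_lit 54176) (S (nat_lit 26593) (S (nat_lit 46350) (L (nat_lit 28455154))
(L (nat_lit 11439821)))
(L (nat_lit 15535442)))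
(L (nat_lit 17632500)))
(L (nat_lit 14946194)))
(S (nat_lit 35141) (S (nat_lit 13180) (S (nat_lit 46350) (S (nat_lit 25355) (S (nat_lit 48314) (S (nat_lit 36810) (L (nat_lit 11683546))
(L (nat_lit 23867465)))
(L (nat_lit 28019949)))
(L (nat_lit 12455532)))
(L (nat_lit 17010395)))
(L (nat_lit 8007770)))
(S (nat_lit 54905) (S (nat_lit 47793) (S (nat_lit 40071) (S (nat_lit 27841) (S (nat_lit 13180) (L (nat_lit 2994451))
(L (nat_lit 24457339)))
(L (nat_lit 30617682)))
(L (nat_lit 17567399)))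
(L (nat_lit 27560685)))
(L (nat_lit 25342570)))))
(S (nat_lit 30038) (S (nat_lit 8077) (S (nat_lit 52708) (S (nat_lit 27584) (S (nat_lit 43926) (S (nat_lit 47843) (S (nat_lit 40058) (L (nat_lit 18190103))
(L (nat_lit 11142992)))
(L (nat_lit 22480710)))
(L (nat_lit 10531667)))
(L (nat_lit 11994747)))
(L (nat_lit 12333139)))
(S (nat_lit 27841) (S (nat_lit 47137) (S (nat_lit 34849) (S (nat_lit 52708) (L (nat_lit 11415637))
(L (nat_lit 12398675)))
(L (nat_lit 15439992)))
(L (nat_lit 1303031)))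
(S (nat_lit 47605) (S (nat_lit 35141) (S (nat_lit 46350) (S (nat_lit 48314) (S (nat_lit 52946) (S (nat_lit 21011) (S (nat_lit 5178) (L (nat_lit 28394154))
(L (nat_lit 19340377)))
(L (nat_lit 22164391)))
(L (nat_lit 11994964)))
(L (nat_lit 12357325)))
(L (nat_lit 12422861)))
(L (nat_lit 23965771)))
(L (nat_lit 25309426)))))
(S (nat_lit 49802) (S (nat_lit 12182) (S (nat_lit 7609) (L (nat_lit 31165806))
(L (nat_lit 11177806)))
(S (nat_lit 31946) (S (nat_lit 52688) (S (nat_lit 27373) (S (nat_lit 8315) (S (nat_lit 39847) (S (nat_lit 46350) (L (nat_lit 26873165))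
(L (nat_lit 11439540)))
(L (nat_lit 18615573)))
(L (nat_lit 13438163)))
(L (nat_lit 14978648)))
(L (nat_lit 19172760)))
(S (nat_lit 51710) (S (nat_lit 54905) (S (nat_lit 44648) (S (nat_lit 52688) (L (nat_lit 27724023))
(L (nat_lit 27889035)))
(L (nat_lit 27889033)))
(L (nat_lit 27856427)))
(L (nat_lit 25216373)))))
(L (nat_lit 25374803)))))
(L (nat_lit 25284105)))))
(L (nat_lit 25185706)))))

theorem rb179_5 : run 4 lb179 [] tb179_5 kb179 (P4 4 2197 2355 2217 5601 1 2 0 0) [] = true := by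
  decide +kernel

noncomputable def ta39_1 : Tr :=
(S (nat_lit 592) (S (nat_lit 1304) (S (nat_lit 1724) (S (nat_lit 917) (S (nat_lit 173) (L (nat_lit 183566))
(L (nat_lit 201143)))
(S (nat_lit 3131) (S (nat_lit 405) (L (nat_lit 525586))
(L (nat_lit 346533)))
(S (nat_lit 5345) (S (nat_lit 405) (S (nat_lit 6054) (L (nat_lit 262583))
(L (nat_lit 366159)))
(L (nat_lit 282021)))
(L (nat_lit 603211)))))
(S (nat_lit 3938) (S (nat_lit 94) (S (nat_lit 4329) (L (nat_lit 201295))
(L (nat_lit 427721)))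
(S (nat_lit 2308) (L (nat_lit 636998))
(S (nat_lit 4522) (S (nat_lit 3547) (L (nat_lit 197175))
(L (nat_lit 433239)))
(L (nat_lit 604329)))))
(S (nat_lit 6152) (S (nat_lit 913) (S (nat_lit 4833) (L (nat_lit 702570))
(L (nat_lit 242405)))
(S (nat_lit 3127) (S (nat_lit 405) (S (nat_lit 645) (L (nat_lit 631331))
(L (nat_lit 105197)))
(L (nat_lit 411752)))
(S (nat_lit 5341) (S (nat_lit 2308) (S (nat_lit 989) (L (nat_lit 459028))
(L (nat_lit 18121)))
(L (nat_lit 477445)))
(L (nat_lit 603177)))))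
(L (nat_lit 604516)))))
(S (nat_lit 3518) (S (nat_lit 917) (S (nat_lit 405) (S (nat_lit 1626) (L (nat_lit 532661))
(L (nat_lit 249285)))
(S (nat_lit 2619) (S (nat_lit 6064) (L (nat_lit 767328))
(L (nat_lit 13960)))
(S (nat_lit 4833) (S (nat_lit 739) (S (nat_lit 813) (S (nat_lit 55) (L (nat_lit 178388))
(L (nat_lit 531477)))
(S (nat_lit 3341) (L (nat_lit 768073))
(L (nat_lit 478466))))
(S (nat_lit 5516) (L (nat_lit 575622))
(L (nat_lit 545801))))
(L (nat_lit 595338)))))
(S (nat_lit 3131) (S (nat_lit 167) (S (nat_lit 3127) (L (nat_lit 688399))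
(L (nat_lit 412713)))
(S (nat_lit 2381) (S (nat_lit 282) (L (nat_lit 724390))
(S (nat_lit 3203) (S (nat_lit 1681) (L (nat_lit 563287))
(S (nat_lit 6054) (S (nat_lit 6295) (S (nat_lit 5237) (S (nat_lit 2985) (L (nat_lit 143639))
(L (nat_lit 631201)))
(L (nat_lit 633249)))
(S (nat_lit 6431) (L (nat_lit 10772))
(L (nat_lit 22022))))
(L (nat_lit 72085))))
(L (nat_lit 104947))))
(S (nat_lit 4595) (L (nat_lit 155112))
(L (nat_lit 603424)))))
(S (nat_lit 5345) (S (nat_lit 188) (S (nat_lit 1626) (L (nat_lit 170546))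
(L (nat_lit 248911)))
(S (nat_lit 2402) (S (nat_lit 6054) (L (nat_lit 329391))
(L (nat_lit 6799)))
(S (nat_lit 4616) (S (nat_lit 5089) (S (nat_lit 6054) (L (nat_lit 626959))
(L (nat_lit 661583)))
(L (nat_lit 656718)))
(L (nat_lit 607584)))))
(L (nat_lit 592299)))))
(S (nat_lit 5732) (S (nat_lit 1724) (S (nat_lit 860) (S (nat_lit 6054) (S (nat_lit 1515) (L (nat_lit 42547))
(L (nat_lit 401025)))
(L (nat_lit 401027)))
(S (nat_lit 5237) (S (nat_lit 6054) (S (nat_lit 1515) (L (nat_lit 251392))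
(L (nat_lit 401025)))
(L (nat_lit 401027)))
(S (nat_lit 5345) (S (nat_lit 6074) (S (nat_lit 2387) (S (nat_lit 167) (L (nat_lit 700456))
(L (nat_lit 431383)))
(L (nat_lit 510059)))
(L (nat_lit 404096)))
(L (nat_lit 11919)))))
(S (nat_lit 3938) (S (nat_lit 909) (S (nat_lit 6054) (L (nat_lit 50387))
(L (nat_lit 661955)))
(S (nat_lit 3123) (S (nat_lit 405) (L (nat_lit 699501))
(L (nat_lit 398922)))
(S (nat_lit 5337) (S (nat_lit 2115) (S (nat_lit 1144) (S (nat_lit 546) (L (nat_lit 754894))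
(L (nat_lit 525586)))
(L (nat_lit 465012)))
(S (nat_lit 3782) (L (nat_lit 395639))
(L (nat_lit 381411))))
(L (nat_lit 601262)))))
(S (nat_lit 6152) (S (nat_lit 1144) (S (nat_lit 989) (L (nat_lit 625964))
(L (nat_lit 624879)))
(S (nat_lit 3358) (S (nat_lit 4595) (L (nat_lit 170454))
(L (nat_lit 667904)))
(S (nat_lit 5572) (S (nat_lit 3127) (S (nat_lit 4081) (L (nat_lit 88585))
(L (nat_lit 212114)))
(L (nat_lit 393490)))
(L (nat_lit 596081)))))
(L (nat_lit 604356)))))
(L (nat_lit 604355)))))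
(S (nat_lit 2806) (S (nat_lit 661) (S (nat_lit 813) (S (nat_lit 739) (S (nat_lit 5275) (S (nat_lit 3068) (L (nat_lit 200210))
(L (nat_lit 444769)))
(S (nat_lit 5572) (S (nat_lit 3850) (S (nat_lit 6295) (S (nat_lit 3938) (L (nat_lit 120359))
(L (nat_lit 202259)))
(L (nat_lit 663600)))
(L (nat_lit 763329)))
(L (nat_lit 246899))))
(S (nat_lit 2953) (S (nat_lit 1724) (S (nat_lit 5732) (S (nat_lit 5337) (S (nat_lit 4616) (S (nat_lit 5453) (S (nat_lit 436) (D (nat_lit 12) (nat_lit 242306) (nat_lit 593320) (nat_lit 1168299261952))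
(L (nat_lit 150735)))
(L (nat_lit 701665)))
(L (nat_lit 378960)))
(L (nat_lit 20999)))
(L (nat_lit 430354)))
(L (nat_lit 7854)))
(S (nat_lit 5167) (S (nat_lit 5572) (S (nat_lit 167) (S (nat_lit 3850) (S (nat_lit 94) (S (nat_lit 1380) (S (nat_lit 5417) (S (nat_lit 1626) (S (nat_lit 5337) (S (nat_lit 405) (S (nat_lit 1304) (S (nat_lit 188) (S (nat_lit 4695) (S (nat_lit 2104) (S (nat_lit 362) (S (nat_lit 3659) (S (nat_lit 636) (S (nat_lit 5545) (D (nat_lit 10) (nat_lit 178826) (nat_lit 45640) (nat_lit 68721608705))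
(L (nat_lit 216577)))
(L (nat_lit 760940)))
(L (nat_lit 220581)))
(L (nat_lit 694659)))
(S (nat_lit 5998) (S (nat_lit 2149) (S (nat_lit 1036) (D (nat_lit 10) (nat_lit 623985) (nat_lit 18858) (nat_lit 35435642912))
(L (nat_lit 760323)))
(L (nat_lit 704705)))
(L (nat_lit 122128))))
(L (nat_lit 529032)))
(L (nat_lit 639296)))
(L (nat_lit 632291)))
(L (nat_lit 635203)))
(L (nat_lit 446630)))
(L (nat_lit 104850)))
(L (nat_lit 432306)))
(L (nat_lit 175506)))
(L (nat_lit 86473)))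
(L (nat_lit 42672)))
(L (nat_lit 210560)))
(L (nat_lit 252353)))
(L (nat_lit 599052)))))
(S (nat_lit 3027) (S (nat_lit 1144) (S (nat_lit 909) (S (nat_lit 6152) (S (nat_lit 5275) (L (nat_lit 73205))
(L (nat_lit 246902)))
(L (nat_lit 400500)))
(S (nat_lit 4587) (L (nat_lit 633248))
(L (nat_lit 625159))))
(S (nat_lit 3358) (S (nat_lit 33) (L (nat_lit 511050))
(S (nat_lit 5527) (L (nat_lit 631297))
(L (nat_lit 695809))))
(S (nat_lit 5572) (S (nat_lit 3850) (S (nat_lit 913) (S (nat_lit 6054) (S (nat_lit 1867) (S (nat_lit 2115) (S (nat_lit 6093) (S (nat_lit 943) (S (nat_lit 938) (S (nat_lit 2831) (S (nat_lit 59) (D (nat_lit 10) (nat_lit 770187) (nat_lit 215056) (nat_lit 69860393985))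
(L (nat_lit 734468)))
(L (nat_lit 704518)))
(L (nat_lit 699503)))
(L (nat_lit 416065)))
(L (nat_lit 700456)))
(L (nat_lit 311877)))
(L (nat_lit 172720)))
(L (nat_lit 21895)))
(S (nat_lit 3127) (S (nat_lit 2481) (S (nat_lit 6295) (S (nat_lit 4833) (S (nat_lit 3938) (L (nat_lit 115302))
(L (nat_lit 120012)))
(L (nat_lit 251267)))
(L (nat_lit 251024)))
(L (nat_lit 116328)))
(S (nat_lit 5341) (S (nat_lit 2953) (S (nat_lit 6054) (L (nat_lit 285091))
(L (nat_lit 658823)))
(L (nat_lit 395912)))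
(L (nat_lit 600204)))))
(L (nat_lit 755145)))
(L (nat_lit 594193)))))
(S (nat_lit 5241) (S (nat_lit 405) (S (nat_lit 1304) (S (nat_lit 3850) (S (nat_lit 5572) (S (nat_lit 1867) (S (nat_lit 5167) (S (nat_lit 3860) (S (nat_lit 1367) (S (nat_lit 6095) (S (nat_lit 6450) (S (nat_lit 3387) (S (nat_lit 4231) (S (nat_lit 2247) (D (nat_lit 12) (nat_lit 575654) (nat_lit 510212) (nat_lit 2267744896032))
(L (nat_lit 176806)))
(L (nat_lit 316557)))
(L (nat_lit 509994)))
(L (nat_lit 243767)))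
(L (nat_lit 768324)))
(L (nat_lit 120230)))
(L (nat_lit 43413)))
(L (nat_lit 494835)))
(L (nat_lit 631204)))
(L (nat_lit 432865)))
(L (nat_lit 444769)))
(S (nat_lit 3711) (L (nat_lit 330226))
(L (nat_lit 631919))))
(S (nat_lit 2619) (S (nat_lit 33) (L (nat_lit 211684))
(S (nat_lit 5572) (S (nat_lit 3840) (S (nat_lit 3850) (S (nat_lit 2381) (S (nat_lit 3203) (S (nat_lit 5976) (S (nat_lit 2504) (L (nat_lit 145719))
(L (nat_lit 562453)))
(L (nat_lit 117999)))
(L (nat_lit 209573)))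
(L (nat_lit 55568)))
(L (nat_lit 427688)))
(L (nat_lit 769347)))
(L (nat_lit 511142))))
(S (nat_lit 4833) (S (nat_lit 6295) (S (nat_lit 3127) (S (nat_lit 3123) (S (nat_lit 3840) (S (nat_lit 2481) (S (nat_lit 3203) (S (nat_lit 3131) (S (nat_lit 2402) (S (nat_lit 2115) (S (nat_lit 3938) (S (nat_lit 5976) (S (nat_lit 4522) (S (nat_lit 3850) (S (nat_lit 1380) (S (nat_lit 2673) (S (nat_lit 230) (S (nat_lit 4032) (S (nat_lit 3297) (S (nat_lit 1586) (S (nat_lit 3412) (S (nat_lit 5882) (S (nat_lit 1261) (D (nat_lit 12) (nat_lit 145654) (nat_lit 495174) (nat_lit 68190273))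
(L (nat_lit 415786)))
(L (nat_lit 280996)))
(L (nat_lit 469635)))
(L (nat_lit 667841)))
(L (nat_lit 702632)))
(L (nat_lit 688616)))
(L (nat_lit 769280)))
(S (nat_lit 4348) (S (nat_lit 527) (S (nat_lit 2989) (D (nat_lit 12) (nat_lit 152878) (nat_lit 591217) (nat_lit 1134947271682))
(L (nat_lit 141783)))
(L (nat_lit 665712)))
(S (nat_lit 5228) (S (nat_lit 1815) (S (nat_lit 5518) (D (nat_lit 12) (nat_lit 52615) (nat_lit 594344) (nat_lit 1134945110080))
(L (nat_lit 275172)))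
(L (nat_lit 672810)))
(L (nat_lit 9869)))))
(L (nat_lit 112978)))
(L (nat_lit 149897)))
(L (nat_lit 41582)))
(L (nat_lit 333365)))
(L (nat_lit 433893)))
(L (nat_lit 299631)))
(L (nat_lit 771394)))
(L (nat_lit 295347)))
(L (nat_lit 372917)))
(L (nat_lit 770218)))
(L (nat_lit 761219)))
(L (nat_lit 414822)))
(L (nat_lit 414977)))
(L (nat_lit 252976)))
(L (nat_lit 603397)))))
(L (nat_lit 606375)))))
(S (nat_lit 2875) (S (nat_lit 813) (S (nat_lit 1636) (S (nat_lit 5572) (S (nat_lit 913) (S (nat_lit 1626) (S (nat_lit 909) (S (nat_lit 4329) (S (nat_lit 858) (S (nat_lit 56) (S (nat_lit 6273) (S (nat_lit 761) (D (nat_lit 8) (nat_lit 478311) (nat_lit 243762) (nat_lit 68786619394))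
(L (nat_lit 655661)))
(L (nat_lit 734469)))
(L (nat_lit 728452)))
(L (nat_lit 22918)))
(L (nat_lit 764451)))
(L (nat_lit 625159)))
(L (nat_lit 118151)))
(S (nat_lit 3127) (S (nat_lit 909) (S (nat_lit 5417) (S (nat_lit 6152) (S (nat_lit 1626) (S (nat_lit 5345) (S (nat_lit 4522) (S (nat_lit 876) (S (nat_lit 4081) (S (nat_lit 6480) (S (nat_lit 4873) (S (nat_lit 1457) (S (nat_lit 3977) (S (nat_lit 2499) (D (nat_lit 12) (nat_lit 218253) (nat_lit 346257) (nat_lit 70868074562))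
(L (nat_lit 548129)))
(L (nat_lit 731182)))
(L (nat_lit 729506)))
(L (nat_lit 298607)))
(L (nat_lit 703781)))
(L (nat_lit 212548)))
(L (nat_lit 491795)))
(L (nat_lit 383151)))
(L (nat_lit 428618)))
(L (nat_lit 638023)))
(L (nat_lit 397522)))
(L (nat_lit 493810)))
(L (nat_lit 469170)))
(S (nat_lit 5341) (S (nat_lit 1626) (S (nat_lit 909) (S (nat_lit 2308) (S (nat_lit 1646) (S (nat_lit 4616) (S (nat_lit 1304) (S (nat_lit 1548) (S (nat_lit 267) (S (nat_lit 1380) (S (nat_lit 3131) (S (nat_lit 5601) (S (nat_lit 2202) (S (nat_lit 2093) (S (nat_lit 1825) (S (nat_lit 5545) (D (nat_lit 10) (nat_lit 178546) (nat_lit 50760) (nat_lit 68721608705))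
(L (nat_lit 412932)))
(L (nat_lit 671851)))
(L (nat_lit 737601)))
(L (nat_lit 670017)))
(S (nat_lit 6269) (S (nat_lit 139) (S (nat_lit 1907) (S (nat_lit 2766) (S (nat_lit 1170) (S (nat_lit 5347) (D (nat_lit 10) (nat_lit 397959) (nat_lit 215428) (nat_lit 68192258))
(L (nat_lit 696337)))
(L (nat_lit 667909)))
(L (nat_lit 318916)))
(L (nat_lit 704802)))
(L (nat_lit 728544)))
(L (nat_lit 535232))))
(L (nat_lit 404499)))
(L (nat_lit 108208)))
(L (nat_lit 279731)))
(L (nat_lit 148071)))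
(L (nat_lit 149928)))
(L (nat_lit 348706)))
(L (nat_lit 174487)))
(L (nat_lit 281024)))
(L (nat_lit 482471)))
(L (nat_lit 117127)))
(L (nat_lit 592172)))))
(L (nat_lit 656902)))
(S (nat_lit 3850) (S (nat_lit 5417) (S (nat_lit 6152) (S (nat_lit 5864) (L (nat_lit 13994))
(L (nat_lit 427282)))
(L (nat_lit 400498)))
(L (nat_lit 445733)))
(S (nat_lit 6064) (S (nat_lit 1933) (S (nat_lit 5572) (S (nat_lit 2911) (L (nat_lit 330290))
(L (nat_lit 218561)))
(L (nat_lit 661953)))
(S (nat_lit 2149) (L (nat_lit 344642))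
(L (nat_lit 251265))))
(L (nat_lit 606564)))))
(S (nat_lit 3027) (S (nat_lit 2115) (S (nat_lit 4695) (S (nat_lit 2387) (S (nat_lit 989) (L (nat_lit 497686))
(L (nat_lit 12999)))
(L (nat_lit 493259)))
(L (nat_lit 564864)))
(S (nat_lit 4329) (S (nat_lit 3127) (S (nat_lit 2402) (S (nat_lit 3860) (S (nat_lit 4522) (S (nat_lit 1636) (S (nat_lit 5732) (S (nat_lit 1380) (S (nat_lit 2327) (S (nat_lit 6250) (S (nat_lit 2598) (S (nat_lit 3574) (S (nat_lit 3938) (D (nat_lit 12) (nat_lit 689424) (nat_lit 469074) (nat_lit 2268885746689))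
(L (nat_lit 445636)))
(L (nat_lit 731649)))
(L (nat_lit 404133)))
(L (nat_lit 694320)))
(L (nat_lit 531011)))
(L (nat_lit 298386)))
(L (nat_lit 218529)))
(L (nat_lit 201453)))
(L (nat_lit 576805)))
(L (nat_lit 543755)))
(L (nat_lit 149162)))
(S (nat_lit 4617) (S (nat_lit 6435) (S (nat_lit 3558) (S (nat_lit 445) (S (nat_lit 5345) (S (nat_lit 4587) (S (nat_lit 1724) (S (nat_lit 295) (D (nat_lit 6) (nat_lit 702755) (nat_lit 84336) (nat_lit 1073809408))
(L (nat_lit 468674)))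
(L (nat_lit 7852)))
(L (nat_lit 470039)))
(L (nat_lit 603456)))
(L (nat_lit 495988)))
(L (nat_lit 513033)))
(L (nat_lit 524971)))
(L (nat_lit 754056))))
(S (nat_lit 6543) (S (nat_lit 989) (S (nat_lit 4601) (S (nat_lit 1636) (S (nat_lit 267) (L (nat_lit 246469))
(L (nat_lit 40684)))
(L (nat_lit 623984)))
(L (nat_lit 656624)))
(L (nat_lit 45799)))
(L (nat_lit 606379)))))
(S (nat_lit 5241) (S (nat_lit 2115) (S (nat_lit 5572) (S (nat_lit 2387) (S (nat_lit 2481) (S (nat_lit 3840) (S (nat_lit 3127) (S (nat_lit 2381) (S (nat_lit 5976) (L (nat_lit 120142))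
(L (nat_lit 399014)))
(L (nat_lit 479520)))
(L (nat_lit 152876)))
(L (nat_lit 532069)))
(L (nat_lit 466528)))
(L (nat_lit 493259)))
(L (nat_lit 492822)))
(S (nat_lit 4329) (S (nat_lit 3502) (S (nat_lit 3203) (S (nat_lit 739) (S (nat_lit 3840) (L (nat_lit 491891))
(L (nat_lit 432805)))
(L (nat_lit 247395)))
(L (nat_lit 104883)))
(S (nat_lit 3574) (S (nat_lit 5337) (S (nat_lit 5341) (S (nat_lit 1724) (S (nat_lit 5918) (S (nat_lit 5345) (S (nat_lit 4822) (D (nat_lit 10) (nat_lit 704554) (nat_lit 346161) (nat_lit 2183136321))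
(L (nat_lit 727054)))
(L (nat_lit 444738)))
(L (nat_lit 251052)))
(L (nat_lit 499365)))
(L (nat_lit 444708)))
(L (nat_lit 510119)))
(L (nat_lit 525962))))
(S (nat_lit 6543) (S (nat_lit 5572) (S (nat_lit 4601) (S (nat_lit 1636) (S (nat_lit 1724) (S (nat_lit 4695) (S (nat_lit 3518) (L (nat_lit 724177))
(L (nat_lit 415848)))
(L (nat_lit 564375)))
(L (nat_lit 7820)))
(L (nat_lit 623984)))
(L (nat_lit 656624)))
(L (nat_lit 656838)))
(L (nat_lit 594411)))))
(L (nat_lit 597540)))))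
(S (nat_lit 5089) (S (nat_lit 405) (S (nat_lit 167) (S (nat_lit 5572) (S (nat_lit 1867) (S (nat_lit 1380) (S (nat_lit 5417) (S (nat_lit 3938) (L (nat_lit 340119))
(L (nat_lit 202163)))
(L (nat_lit 242308)))
(L (nat_lit 182667)))
(L (nat_lit 560774)))
(L (nat_lit 252017)))
(S (nat_lit 2381) (S (nat_lit 1867) (S (nat_lit 5167) (S (nat_lit 1548) (S (nat_lit 3840) (S (nat_lit 4522) (S (nat_lit 2402) (S (nat_lit 1304) (S (nat_lit 4385) (S (nat_lit 2830) (S (nat_lit 1003) (D (nat_lit 12) (nat_lit 249252) (nat_lit 602372) (nat_lit 34360787970))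
(L (nat_lit 655569)))
(L (nat_lit 545799)))
(L (nat_lit 210964)))
(L (nat_lit 77551)))
(L (nat_lit 492138)))
(L (nat_lit 565267)))
(L (nat_lit 265839)))
(L (nat_lit 202227)))
(L (nat_lit 663601)))
(S (nat_lit 3624) (L (nat_lit 363184))
(L (nat_lit 265904))))
(S (nat_lit 4595) (S (nat_lit 1867) (S (nat_lit 3127) (S (nat_lit 4522) (S (nat_lit 5167) (L (nat_lit 179510))
(L (nat_lit 181459)))
(L (nat_lit 343059)))
(L (nat_lit 763953)))
(S (nat_lit 4913) (L (nat_lit 343091))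
(L (nat_lit 117254))))
(L (nat_lit 595434)))))
(S (nat_lit 2619) (S (nat_lit 1724) (S (nat_lit 5464) (L (nat_lit 296403))
(S (nat_lit 5572) (S (nat_lit 2844) (L (nat_lit 758129))
(S (nat_lit 6064) (S (nat_lit 6054) (S (nat_lit 188) (L (nat_lit 263639))
(L (nat_lit 416098)))
(L (nat_lit 464518)))
(L (nat_lit 361878))))
(L (nat_lit 23046))))
(S (nat_lit 3938) (S (nat_lit 813) (S (nat_lit 6064) (S (nat_lit 3123) (S (nat_lit 913) (S (nat_lit 4695) (S (nat_lit 173) (S (nat_lit 6203) (S (nat_lit 3628) (S (nat_lit 1519) (S (nat_lit 3323) (S (nat_lit 5026) (D (nat_lit 12) (nat_lit 765474) (nat_lit 176434) (nat_lit 2268852191233))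
(L (nat_lit 697487)))
(L (nat_lit 669863)))
(L (nat_lit 149192)))
(L (nat_lit 695748)))
(L (nat_lit 12967)))
(L (nat_lit 106903)))
(L (nat_lit 532097)))
(L (nat_lit 461448)))
(L (nat_lit 284163)))
(L (nat_lit 74195)))
(L (nat_lit 233875)))
(S (nat_lit 6152) (S (nat_lit 1548) (S (nat_lit 3840) (S (nat_lit 1646) (L (nat_lit 497319))
(L (nat_lit 197326)))
(L (nat_lit 137622)))
(L (nat_lit 577606)))
(L (nat_lit 604265)))))
(S (nat_lit 4833) (S (nat_lit 6079) (S (nat_lit 5572) (L (nat_lit 283822))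
(L (nat_lit 656657)))
(S (nat_lit 6187) (S (nat_lit 6511) (L (nat_lit 478533))
(L (nat_lit 251300)))
(S (nat_lit 6295) (S (nat_lit 3302) (S (nat_lit 3938) (L (nat_lit 152943))
(L (nat_lit 528595)))
(S (nat_lit 3518) (S (nat_lit 2531) (S (nat_lit 5341) (L (nat_lit 333517))
(L (nat_lit 668961)))
(S (nat_lit 5572) (S (nat_lit 267) (S (nat_lit 6064) (S (nat_lit 5341) (S (nat_lit 2535) (S (nat_lit 6522) (S (nat_lit 1250) (S (nat_lit 6244) (S (nat_lit 4601) (D (nat_lit 8) (nat_lit 738374) (nat_lit 343621) (nat_lit 69795383297))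
(L (nat_lit 88459)))
(L (nat_lit 120203)))
(L (nat_lit 346532)))
(L (nat_lit 147671)))
(L (nat_lit 673058)))
(L (nat_lit 668961)))
(L (nat_lit 656777)))
(S (nat_lit 4642) (S (nat_lit 6064) (L (nat_lit 285185))
(L (nat_lit 416100)))
(L (nat_lit 278675))))
(L (nat_lit 673025))))
(S (nat_lit 4909) (S (nat_lit 4828) (L (nat_lit 492106))
(L (nat_lit 197107)))
(L (nat_lit 233971)))))
(L (nat_lit 8627)))))
(L (nat_lit 593320)))))
(L (nat_lit 594378)))))
(S (nat_lit 5020) (S (nat_lit 94) (S (nat_lit 813) (S (nat_lit 188) (S (nat_lit 1626) (S (nat_lit 5572) (S (nat_lit 3628) (S (nat_lit 4113) (L (nat_lit 282146))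
(L (nat_lit 411907)))
(L (nat_lit 215489)))
(L (nat_lit 445761)))
(S (nat_lit 1923) (S (nat_lit 6203) (L (nat_lit 671851))
(L (nat_lit 543043)))
(L (nat_lit 249285))))
(S (nat_lit 2402) (S (nat_lit 1636) (L (nat_lit 149192))
(L (nat_lit 566357)))
(S (nat_lit 4616) (L (nat_lit 498708))
(L (nat_lit 590160)))))
(S (nat_lit 3027) (S (nat_lit 405) (S (nat_lit 3850) (S (nat_lit 3358) (L (nat_lit 41522))
(L (nat_lit 411908)))
(L (nat_lit 533156)))
(S (nat_lit 2619) (S (nat_lit 6064) (S (nat_lit 6074) (S (nat_lit 2387) (L (nat_lit 329142))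
(L (nat_lit 460490)))
(L (nat_lit 20812)))
(L (nat_lit 397960)))
(S (nat_lit 4833) (S (nat_lit 3518) (L (nat_lit 211683))
(L (nat_lit 20749)))
(L (nat_lit 600453)))))
(S (nat_lit 5241) (S (nat_lit 879) (S (nat_lit 5130) (L (nat_lit 768073))
(L (nat_lit 316462)))
(S (nat_lit 2069) (S (nat_lit 3860) (S (nat_lit 5808) (S (nat_lit 6295) (L (nat_lit 181865))
(L (nat_lit 21926)))
(L (nat_lit 16629)))
(L (nat_lit 47475)))
(S (nat_lit 5337) (S (nat_lit 3594) (S (nat_lit 913) (L (nat_lit 233070))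
(L (nat_lit 526613)))
(L (nat_lit 151790)))
(L (nat_lit 426726)))))
(L (nat_lit 597168)))))
(S (nat_lit 2308) (S (nat_lit 1380) (S (nat_lit 1867) (S (nat_lit 813) (S (nat_lit 1304) (L (nat_lit 277155))
(L (nat_lit 478246)))
(L (nat_lit 636934)))
(S (nat_lit 4081) (S (nat_lit 661) (S (nat_lit 4616) (L (nat_lit 117100))
(L (nat_lit 18955)))
(L (nat_lit 623854)))
(S (nat_lit 6295) (S (nat_lit 2381) (L (nat_lit 761217))
(L (nat_lit 284720)))
(L (nat_lit 600112)))))
(S (nat_lit 3594) (S (nat_lit 2198) (S (nat_lit 909) (S (nat_lit 4747) (L (nat_lit 265902))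
(L (nat_lit 215525)))
(L (nat_lit 536133)))
(S (nat_lit 2387) (S (nat_lit 4616) (L (nat_lit 753901))
(L (nat_lit 575808)))
(S (nat_lit 5538) (S (nat_lit 2521) (L (nat_lit 768011))
(L (nat_lit 411909)))
(L (nat_lit 41680)))))
(S (nat_lit 5808) (S (nat_lit 188) (S (nat_lit 5732) (L (nat_lit 21710))
(L (nat_lit 213106)))
(S (nat_lit 2402) (S (nat_lit 5241) (S (nat_lit 267) (L (nat_lit 263884))
(L (nat_lit 7885)))
(L (nat_lit 374965)))
(S (nat_lit 4616) (S (nat_lit 1724) (S (nat_lit 5341) (S (nat_lit 6327) (L (nat_lit 535605))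
(L (nat_lit 49525)))
(L (nat_lit 444676)))
(S (nat_lit 1940) (S (nat_lit 6074) (L (nat_lit 634951))
(L (nat_lit 655726)))
(L (nat_lit 15017))))
(L (nat_lit 606282)))))
(L (nat_lit 599182)))))
(S (nat_lit 4522) (S (nat_lit 167) (S (nat_lit 1626) (S (nat_lit 5089) (L (nat_lit 230967))
(L (nat_lit 531603)))
(S (nat_lit 3840) (L (nat_lit 727119))
(S (nat_lit 6054) (S (nat_lit 6543) (S (nat_lit 601) (S (nat_lit 3831) (L (nat_lit 403509))
(L (nat_lit 249219)))
(L (nat_lit 249376)))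
(L (nat_lit 198383)))
(L (nat_lit 605255)))))
(S (nat_lit 2381) (S (nat_lit 1646) (S (nat_lit 3203) (L (nat_lit 41644))
(L (nat_lit 209043)))
(S (nat_lit 3860) (S (nat_lit 2402) (S (nat_lit 1380) (S (nat_lit 3131) (L (nat_lit 500384))
(L (nat_lit 405088)))
(L (nat_lit 298638)))
(L (nat_lit 470624)))
(S (nat_lit 6074) (S (nat_lit 1724) (S (nat_lit 3762) (L (nat_lit 492790))
(L (nat_lit 524532)))
(L (nat_lit 274519)))
(L (nat_lit 592266)))))
(S (nat_lit 4595) (S (nat_lit 3127) (S (nat_lit 2481) (S (nat_lit 6074) (L (nat_lit 347648))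
(L (nat_lit 11918)))
(S (nat_lit 5459) (L (nat_lit 147079))
(L (nat_lit 218657))))
(S (nat_lit 5547) (L (nat_lit 52683))
(S (nat_lit 6249) (L (nat_lit 576678))
(L (nat_lit 568375)))))
(L (nat_lit 596418)))))
(L (nat_lit 590312)))))
(L (nat_lit 593103)))))

theorem ra39_1 : run 3 la39 [] ta39_1 ka39 (P4 3 490 0 695 490 0 0 1 0) [] = true := by
  decide +kernel

end Pool.Agent.MP_92191b_al.K3.E
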