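import Pool.Agent.MP_92191b_al.K3.CR2

/-! Refutation trees. -/

namespace Pool.Agent.MP_92191b_al.K3.E

open Tr

set_option maxRecDepth 100000

noncomputable def tb80_4 : Tr :=
(S (nat_lit 9750) (S (nat_lit 13183) (S (nat_lit 758) (S (nat_lit 13868) (S (nat_lit 0) (S (nat_lit 14631) (S (nat_lit 6593) (S (nat_lit 14615) (S (nat_lit 14623) (S (nat_lit 19495) (S (nat_lit 7352) (S (nat_lit 42036) (L (nat_lit 13707091))
(L (nat_lit 4008654)))
(L (nat_lit 8939172)))
(L (nat_lit 22046000)))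
(L (nat_lit 13487274)))
(S (nat_lit 24862) (L (nat_lit 550133))
(L (nat_lit 255632))))
(L (nat_lit 13436490)))
(S (nat_lit 39911) (S (nat_lit 39379) (L (nat_lit 13888659))
(L (nat_lit 12609192)))
(L (nat_lit 12940439))))
(S (nat_lit 19764) (S (nat_lit 12165) (S (nat_lit 12158) (S (nat_lit 23696) (S (nat_lit 12175) (S (nat_lit 9751) (L (nat_lit 13489222))
(L (nat_lit 21192721)))
(L (nat_lit 9196557)))
(L (nat_lit 18014952)))
(L (nat_lit 18617651)))
(S (nat_lit 31929) (S (nat_lit 16337) (S (nat_lit 14615) (L (nat_lit 5785852))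
(L (nat_lit 13231240)))
(L (nat_lit 8904786)))
(S (nat_lit 51693) (S (nat_lit 56552) (S (nat_lit 51703) (L (nat_lit 26368239))
(L (nat_lit 22518809)))
(L (nat_lit 21456099)))
(L (nat_lit 25270740)))))
(S (nat_lit 39528) (S (nat_lit 7358) (S (nat_lit 39532) (S (nat_lit 9747) (S (nat_lit 12175) (L (nat_lit 1649454))
(L (nat_lit 26498500)))
(L (nat_lit 9296016)))
(S (nat_lit 40099) (L (nat_lit 24193934))
(L (nat_lit 10515957))))
(S (nat_lit 27122) (S (nat_lit 56561) (S (nat_lit 23696) (S (nat_lit 44435) (S (nat_lit 18745) (L (nat_lit 19759658))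
(L (nat_lit 24493985)))
(L (nat_lit 11317858)))
(L (nat_lit 10884825)))
(L (nat_lit 8934273)))
(S (nat_lit 46886) (S (nat_lit 12174) (S (nat_lit 31256) (S (nat_lit 8998) (S (nat_lit 27800) (L (nat_lit 29613233))
(L (nat_lit 24520859)))
(L (nat_lit 7869367)))
(L (nat_lit 1434067)))
(L (nat_lit 11043512)))
(L (nat_lit 25308913)))))
(L (nat_lit 25212147)))))
(S (nat_lit 33632) (S (nat_lit 8045) (S (nat_lit 6593) (S (nat_lit 6590) (S (nat_lit 19765) (S (nat_lit 14615) (L (nat_lit 4792208))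
(L (nat_lit 1955089)))
(L (nat_lit 21398408)))
(S (nat_lit 26282) (L (nat_lit 21269424))
(L (nat_lit 1335952))))
(S (nat_lit 26357) (S (nat_lit 9751) (S (nat_lit 2500) (S (nat_lit 18745) (L (nat_lit 7825125))
(L (nat_lit 8447568)))
(L (nat_lit 19301256)))
(L (nat_lit 21834277)))
(S (nat_lit 46121) (S (nat_lit 19498) (S (nat_lit 39259) (S (nat_lit 9751) (S (nat_lit 42036) (L (nat_lit 11223909))
(L (nat_lit 14017220)))
(L (nat_lit 21357093)))
(L (nat_lit 23281540)))
(L (nat_lit 15753930)))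
(L (nat_lit 25441860)))))
(S (nat_lit 27809) (S (nat_lit 9748) (S (nat_lit 7352) (S (nat_lit 51020) (S (nat_lit 9747) (L (nat_lit 9078233))
(L (nat_lit 11360706)))
(L (nat_lit 20299864)))
(L (nat_lit 11134469)))
(S (nat_lit 29512) (S (nat_lit 23696) (S (nat_lit 42037) (S (nat_lit 4) (S (nat_lit 30272) (L (nat_lit 30017000))
(L (nat_lit 5680889)))
(L (nat_lit 13852756)))
(L (nat_lit 13689576)))
(S (nat_lit 31286) (L (nat_lit 10642997))
(L (nat_lit 13248633))))
(S (nat_lit 49276) (S (nat_lit 31256) (S (nat_lit 9751) (S (nat_lit 6320) (S (nat_lit 20525) (L (nat_lit 30417303))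
(L (nat_lit 21360721)))
(L (nat_lit 5621558)))
(L (nat_lit 21349189)))
(L (nat_lit 19239321)))
(L (nat_lit 25758033)))))
(S (nat_lit 47573) (S (nat_lit 8) (S (nat_lit 7352) (S (nat_lit 1) (S (nat_lit 3) (S (nat_lit 22264) (S (nat_lit 13182) (S (nat_lit 1518) (S (nat_lit 55868) (L (nat_lit 21164236))
(L (nat_lit 14229528)))
(L (nat_lit 13336857)))
(L (nat_lit 667992)))
(L (nat_lit 9155365)))
(L (nat_lit 26226994)))
(L (nat_lit 26609225)))
(S (nat_lit 31096) (L (nat_lit 22438920))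
(L (nat_lit 11134096))))
(S (nat_lit 19772) (S (nat_lit 27800) (S (nat_lit 51029) (L (nat_lit 11343473))
(L (nat_lit 20283800)))
(L (nat_lit 2973192)))
(S (nat_lit 39536) (S (nat_lit 43469) (S (nat_lit 46121) (S (nat_lit 8998) (L (nat_lit 3627384))
(L (nat_lit 14837416)))
(L (nat_lit 10946136)))
(L (nat_lit 6688472)))
(L (nat_lit 25565924)))))
(L (nat_lit 25596179)))))
(S (nat_lit 53396) (S (nat_lit 12165) (S (nat_lit 2509) (S (nat_lit 16337) (S (nat_lit 3932) (L (nat_lit 29407573))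
(L (nat_lit 19432328)))
(L (nat_lit 26716242)))
(S (nat_lit 22273) (S (nat_lit 23696) (S (nat_lit 47564) (L (nat_lit 10532601))
(L (nat_lit 17458312)))
(L (nat_lit 18505832)))
(S (nat_lit 42037) (S (nat_lit 27800) (S (nat_lit 8998) (S (nat_lit 18745) (S (nat_lit 2500) (L (nat_lit 5760372))
(L (nat_lit 16897960)))
(L (nat_lit 11035734)))
(L (nat_lit 17458216)))
(L (nat_lit 3531440)))
(L (nat_lit 25897009)))))
(S (nat_lit 31929) (S (nat_lit 31922) (S (nat_lit 45188) (S (nat_lit 31939) (S (nat_lit 7352) (S (nat_lit 55868) (S (nat_lit 16337) (L (nat_lit 21236187))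
(L (nat_lit 11166147)))
(L (nat_lit 19368839)))
(L (nat_lit 11199013)))
(L (nat_lit 4862264)))
(L (nat_lit 14701880)))
(L (nat_lit 19744034)))
(S (nat_lit 51693) (S (nat_lit 6323) (S (nat_lit 9747) (S (nat_lit 9755) (S (nat_lit 1) (S (nat_lit 47573) (L (nat_lit 4574126))
(L (nat_lit 27313832)))
(L (nat_lit 12804675)))
(L (nat_lit 26780321)))
(L (nat_lit 26393288)))
(S (nat_lit 26087) (S (nat_lit 42028) (S (nat_lit 27800) (S (nat_lit 44429) (S (nat_lit 8998) (L (nat_lit 16618184))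
(L (nat_lit 8076197)))
(L (nat_lit 15393834)))
(L (nat_lit 2782728)))
(L (nat_lit 24228680)))
(S (nat_lit 45851) (S (nat_lit 9748) (S (nat_lit 51702) (S (nat_lit 45188) (L (nat_lit 211546))
(L (nat_lit 15459399)))
(L (nat_lit 20504648)))
(L (nat_lit 10675666)))
(L (nat_lit 25480608)))))
(L (nat_lit 25336212)))))
(L (nat_lit 25205393)))))
(S (nat_lit 20522) (S (nat_lit 14631) (S (nat_lit 19498) (S (nat_lit 17033) (S (nat_lit 12165) (S (nat_lit 12175) (S (nat_lit 36788) (L (nat_lit 7457713))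
(L (nat_lit 23552168)))
(L (nat_lit 9046928)))
(S (nat_lit 43123) (L (nat_lit 15806356))
(L (nat_lit 3492753))))
(S (nat_lit 36797) (S (nat_lit 12912) (S (nat_lit 30272) (L (nat_lit 5626268))
(L (nat_lit 7979939)))
(L (nat_lit 21127439)))
(S (nat_lit 56561) (S (nat_lit 8108) (L (nat_lit 3907473))
(S (nat_lit 27800) (S (nat_lit 2508) (S (nat_lit 34467) (S (nat_lit 12912) (L (nat_lit 3612376))
(L (nat_lit 18418969)))
(L (nat_lit 19227137)))
(L (nat_lit 20299652)))
(L (nat_lit 15360136))))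
(L (nat_lit 25855528)))))
(S (nat_lit 39262) (S (nat_lit 12165) (S (nat_lit 36788) (S (nat_lit 8998) (S (nat_lit 50036) (L (nat_lit 4683030))
(L (nat_lit 14349480)))
(L (nat_lit 26874280)))
(L (nat_lit 20392121)))
(S (nat_lit 31929) (S (nat_lit 57512) (S (nat_lit 8998) (L (nat_lit 13736635))
(L (nat_lit 26693957)))
(L (nat_lit 11374254)))
(S (nat_lit 51693) (S (nat_lit 8045) (S (nat_lit 29511) (L (nat_lit 28390739))
(L (nat_lit 24492932)))
(L (nat_lit 26886280)))
(L (nat_lit 25727592)))))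
(S (nat_lit 59026) (S (nat_lit 14622) (S (nat_lit 8997) (S (nat_lit 8036) (S (nat_lit 37748) (S (nat_lit 8998) (L (nat_lit 24241706))
(L (nat_lit 14879671)))
(L (nat_lit 20137145)))
(S (nat_lit 47399) (S (nat_lit 19685) (L (nat_lit 22194960))
(L (nat_lit 13880377)))
(L (nat_lit 1780624))))
(S (nat_lit 50433) (L (nat_lit 26877316))
(L (nat_lit 26294950))))
(S (nat_lit 34386) (S (nat_lit 37748) (S (nat_lit 27116) (S (nat_lit 27800) (S (nat_lit 49279) (L (nat_lit 22162224))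
(L (nat_lit 20752928)))
(L (nat_lit 2960049)))
(L (nat_lit 16361657)))
(L (nat_lit 8970114)))
(S (nat_lit 54150) (S (nat_lit 31265) (S (nat_lit 33641) (S (nat_lit 26354) (L (nat_lit 21130761))
(L (nat_lit 19163185)))
(L (nat_lit 23402043)))
(S (nat_lit 40369) (L (nat_lit 19439673))
(L (nat_lit 4663993))))
(L (nat_lit 25246345)))))
(L (nat_lit 25433619)))))
(S (nat_lit 34395) (S (nat_lit 3) (S (nat_lit 13877) (S (nat_lit 25424) (S (nat_lit 15596) (S (nat_lit 58273) (L (nat_lit 8472155))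
(L (nat_lit 12722841)))
(L (nat_lit 26780786)))
(L (nat_lit 22503712)))
(S (nat_lit 33641) (S (nat_lit 27800) (S (nat_lit 12165) (L (nat_lit 12915288))
(L (nat_lit 15846312)))
(L (nat_lit 14687929)))
(S (nat_lit 53405) (S (nat_lit 51693) (L (nat_lit 10609233))
(L (nat_lit 20440138)))
(L (nat_lit 25432656)))))
(S (nat_lit 19767) (S (nat_lit 6323) (S (nat_lit 56561) (S (nat_lit 17018) (S (nat_lit 2508) (S (nat_lit 6320) (L (nat_lit 19344442))
(L (nat_lit 20439206)))
(L (nat_lit 15411257)))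
(L (nat_lit 15065667)))
(L (nat_lit 16042883)))
(S (nat_lit 26087) (S (nat_lit 27800) (S (nat_lit 46118) (S (nat_lit 17018) (L (nat_lit 3463609))
(L (nat_lit 15065665)))
(L (nat_lit 10565491)))
(L (nat_lit 15535720)))
(S (nat_lit 45851) (S (nat_lit 17018) (S (nat_lit 56561) (S (nat_lit 15596) (S (nat_lit 2508) (S (nat_lit 27800) (S (nat_lit 45188) (L (nat_lit 1655688))
(L (nat_lit 27574294)))
(L (nat_lit 30465544)))
(L (nat_lit 2861968)))
(L (nat_lit 2728845)))
(L (nat_lit 21270415)))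
(L (nat_lit 15001219)))
(L (nat_lit 25347318)))))
(S (nat_lit 39531) (S (nat_lit 1519) (S (nat_lit 11492) (S (nat_lit 5660) (S (nat_lit 27116) (S (nat_lit 2508) (L (nat_lit 30429550))
(L (nat_lit 26597422)))
(L (nat_lit 16359609)))
(L (nat_lit 8849303)))
(L (nat_lit 18205570)))
(S (nat_lit 21283) (S (nat_lit 5660) (S (nat_lit 15605) (L (nat_lit 2534043))
(L (nat_lit 15542322)))
(S (nat_lit 6470) (L (nat_lit 14879639))
(L (nat_lit 10565527))))
(S (nat_lit 41047) (S (nat_lit 42028) (S (nat_lit 24665) (L (nat_lit 4573624))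
(L (nat_lit 17440921)))
(L (nat_lit 23929253)))
(L (nat_lit 25930895)))))
(L (nat_lit 25565857)))))
(S (nat_lit 54159) (S (nat_lit 4907) (S (nat_lit 4) (S (nat_lit 27800) (S (nat_lit 56561) (S (nat_lit 55865) (L (nat_lit 3394319))
(L (nat_lit 19310682)))
(L (nat_lit 19357704)))
(L (nat_lit 19325064)))
(S (nat_lit 19768) (S (nat_lit 27128) (S (nat_lit 12158) (L (nat_lit 24029230))
(L (nat_lit 21323854)))
(L (nat_lit 19023753)))
(S (nat_lit 39532) (S (nat_lit 14623) (S (nat_lit 2492) (L (nat_lit 10576463))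
(L (nat_lit 4639626)))
(L (nat_lit 26556995)))
(L (nat_lit 25559721)))))
(S (nat_lit 24671) (S (nat_lit 10505) (S (nat_lit 54151) (S (nat_lit 6320) (S (nat_lit 31265) (S (nat_lit 56561) (S (nat_lit 55124) (L (nat_lit 28789952))
(L (nat_lit 19797327)))
(L (nat_lit 9156483)))
(L (nat_lit 24947074)))
(L (nat_lit 16113846)))
(L (nat_lit 17523907)))
(S (nat_lit 30269) (S (nat_lit 4989) (S (nat_lit 27800) (L (nat_lit 26298824))
(L (nat_lit 15535784)))
(S (nat_lit 24674) (S (nat_lit 23696) (S (nat_lit 58273) (S (nat_lit 27116) (L (nat_lit 25049282))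
(L (nat_lit 15575717)))
(L (nat_lit 15313729)))
(L (nat_lit 11153465)))
(L (nat_lit 4631225))))
(S (nat_lit 50033) (S (nat_lit 48525) (S (nat_lit 24665) (S (nat_lit 44426) (S (nat_lit 2508) (S (nat_lit 27131) (L (nat_lit 13921330))
(L (nat_lit 6835323)))
(L (nat_lit 19395623)))
(L (nat_lit 27693303)))
(L (nat_lit 22545721)))
(L (nat_lit 22092622)))
(L (nat_lit 25870406)))))
(S (nat_lit 44435) (S (nat_lit 17984) (S (nat_lit 16340) (S (nat_lit 34387) (S (nat_lit 24665) (L (nat_lit 25077774))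
(L (nat_lit 21405753)))
(L (nat_lit 15313763)))
(S (nat_lit 36032) (L (nat_lit 3777081))
(L (nat_lit 16834770))))
(S (nat_lit 37748) (S (nat_lit 9454) (L (nat_lit 3022388))
(S (nat_lit 33632) (S (nat_lit 59026) (L (nat_lit 9344530))
(L (nat_lit 21171641)))
(L (nat_lit 2791995))))
(S (nat_lit 57512) (S (nat_lit 24340) (L (nat_lit 22036392))
(S (nat_lit 44429) (S (nat_lit 34387) (L (nat_lit 27732549))
(L (nat_lit 7430710)))
(L (nat_lit 2761240))))
(L (nat_lit 25336306)))))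
(L (nat_lit 25461324)))))
(L (nat_lit 25414145)))))
(S (nat_lit 40286) (S (nat_lit 3932) (S (nat_lit 17030) (S (nat_lit 8998) (S (nat_lit 24671) (S (nat_lit 2500) (S (nat_lit 2492) (L (nat_lit 9489849))
(L (nat_lit 4639627)))
(L (nat_lit 3023348)))
(L (nat_lit 21113742)))
(L (nat_lit 21119912)))
(S (nat_lit 36794) (S (nat_lit 10508) (S (nat_lit 51693) (L (nat_lit 4866920))
(L (nat_lit 22602824)))
(S (nat_lit 30272) (L (nat_lit 804584))
(S (nat_lit 50036) (S (nat_lit 2500) (S (nat_lit 8998) (L (nat_lit 6175432))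
(L (nat_lit 14832552)))
(L (nat_lit 14734248)))
(L (nat_lit 25376787)))))
(S (nat_lit 56558) (S (nat_lit 8998) (S (nat_lit 39529) (S (nat_lit 9755) (S (nat_lit 11501) (L (nat_lit 7922401))
(L (nat_lit 5876652)))
(L (nat_lit 4795309)))
(L (nat_lit 17400744)))
(L (nat_lit 2647720)))
(L (nat_lit 25693492)))))
(S (nat_lit 23696) (S (nat_lit 2499) (S (nat_lit 3) (S (nat_lit 0) (S (nat_lit 34379) (S (nat_lit 13182) (S (nat_lit 8997) (S (nat_lit 51702) (L (nat_lit 20809041))
(L (nat_lit 27820712)))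
(L (nat_lit 15361126)))
(L (nat_lit 13533830)))
(L (nat_lit 15630982)))
(L (nat_lit 445689)))
(S (nat_lit 19767) (S (nat_lit 55865) (S (nat_lit 46880) (S (nat_lit 29515) (S (nat_lit 14623) (L (nat_lit 13377153))
(L (nat_lit 12815286)))
(L (nat_lit 13183160)))
(L (nat_lit 5942097)))
(L (nat_lit 27928655)))
(S (nat_lit 39531) (S (nat_lit 10505) (S (nat_lit 47573) (S (nat_lit 4) (S (nat_lit 17018) (S (nat_lit 52710) (L (nat_lit 24278506))
(L (nat_lit 4812294)))
(L (nat_lit 5035432)))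
(L (nat_lit 12636008)))
(L (nat_lit 16829656)))
(L (nat_lit 21422152)))
(L (nat_lit 25217511)))))
(S (nat_lit 22263) (S (nat_lit 2508) (S (nat_lit 6320) (S (nat_lit 8998) (S (nat_lit 2492) (L (nat_lit 3535287))
(L (nat_lit 19227107)))
(L (nat_lit 21520488)))
(L (nat_lit 20439208)))
(S (nat_lit 22272) (S (nat_lit 55865) (S (nat_lit 46880) (S (nat_lit 23705) (S (nat_lit 27800) (S (nat_lit 4) (L (nat_lit 4020560))
(L (nat_lit 7931727)))
(L (nat_lit 10936467)))
(L (nat_lit 13242214)))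
(L (nat_lit 17967955)))
(L (nat_lit 7853923)))
(S (nat_lit 42036) (S (nat_lit 6320) (S (nat_lit 9755) (L (nat_lit 23434744))
(L (nat_lit 4580787)))
(L (nat_lit 3532366)))
(L (nat_lit 25528014)))))
(S (nat_lit 42027) (S (nat_lit 7367) (S (nat_lit 17024) (S (nat_lit 27800) (S (nat_lit 46880) (S (nat_lit 54151) (S (nat_lit 31265) (L (nat_lit 1532182))
(L (nat_lit 17410137)))
(L (nat_lit 17902422)))
(L (nat_lit 5942097)))
(L (nat_lit 24502417)))
(S (nat_lit 40905) (L (nat_lit 3591015))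
(L (nat_lit 26594317))))
(S (nat_lit 27131) (S (nat_lit 22602) (L (nat_lit 10498744))
(S (nat_lit 51020) (S (nat_lit 4) (S (nat_lit 38509) (S (nat_lit 22272) (L (nat_lit 22471750))
(L (nat_lit 22849954)))
(L (nat_lit 30786582)))
(L (nat_lit 18933006)))
(L (nat_lit 11339438))))
(S (nat_lit 46895) (S (nat_lit 42037) (S (nat_lit 42020) (S (nat_lit 27800) (S (nat_lit 17024) (S (nat_lit 45851) (S (nat_lit 17018) (L (nat_lit 29726444))
(L (nat_lit 9986100)))
(L (nat_lit 23435054)))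
(L (nat_lit 4900680)))
(L (nat_lit 24502448)))
(L (nat_lit 11354231)))
(L (nat_lit 23931365)))
(L (nat_lit 25412723)))))
(L (nat_lit 25612642)))))
(S (nat_lit 43460) (S (nat_lit 15596) (S (nat_lit 0) (S (nat_lit 2492) (S (nat_lit 3941) (L (nat_lit 13543479))
(L (nat_lit 26878369)))
(L (nat_lit 17538977)))
(S (nat_lit 19764) (S (nat_lit 27800) (S (nat_lit 23705) (L (nat_lit 24259406))
(L (nat_lit 12609256)))
(L (nat_lit 15360136)))
(S (nat_lit 39528) (S (nat_lit 17018) (S (nat_lit 10508) (L (nat_lit 24290222))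
(L (nat_lit 17699560)))
(L (nat_lit 17163314)))
(L (nat_lit 25788621)))))
(S (nat_lit 35360) (S (nat_lit 9751) (S (nat_lit 17018) (S (nat_lit 24662) (S (nat_lit 31922) (L (nat_lit 30583350))
(L (nat_lit 17508379)))
(L (nat_lit 16917083)))
(L (nat_lit 15065667)))
(S (nat_lit 29515) (S (nat_lit 16337) (L (nat_lit 24587012))
(S (nat_lit 51600) (L (nat_lit 26401224))
(L (nat_lit 26880515))))
(S (nat_lit 49279) (S (nat_lit 36797) (L (nat_lit 388567))
(L (nat_lit 12963865)))
(L (nat_lit 25344370)))))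
(S (nat_lit 55124) (S (nat_lit 1518) (S (nat_lit 31929) (L (nat_lit 24197960))
(L (nat_lit 24633416)))
(S (nat_lit 21282) (S (nat_lit 19764) (S (nat_lit 29848) (L (nat_lit 5822842))
(L (nat_lit 8139329)))
(L (nat_lit 21889414)))
(S (nat_lit 41046) (S (nat_lit 16915) (L (nat_lit 8983992))
(S (nat_lit 39258) (S (nat_lit 4907) (L (nat_lit 10510775))
(L (nat_lit 6138358)))
(L (nat_lit 23349059))))
(L (nat_lit 25343689)))))
(L (nat_lit 25428623)))))
(L (nat_lit 25415789)))))
(L (nat_lit 25540197)))))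
(S (nat_lit 32947) (S (nat_lit 1519) (S (nat_lit 14622) (S (nat_lit 3941) (S (nat_lit 10505) (S (nat_lit 2500) (S (nat_lit 17030) (S (nat_lit 12913) (S (nat_lit 51702) (L (nat_lit 29961231))
(L (nat_lit 2832699)))
(L (nat_lit 9984929)))
(L (nat_lit 4978184)))
(L (nat_lit 15029125)))
(S (nat_lit 30269) (S (nat_lit 45851) (S (nat_lit 8045) (S (nat_lit 36782) (L (nat_lit 28497416))
(L (nat_lit 11255865)))
(L (nat_lit 26579633)))
(L (nat_lit 12766088)))
(S (nat_lit 50033) (S (nat_lit 45848) (S (nat_lit 19768) (S (nat_lit 36788) (L (nat_lit 22050344))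
(L (nat_lit 10636857)))
(L (nat_lit 15533736)))
(L (nat_lit 15299688)))
(L (nat_lit 25666709)))))
(S (nat_lit 23705) (S (nat_lit 17987) (S (nat_lit 41046) (S (nat_lit 31938) (L (nat_lit 26738898))
(L (nat_lit 30987555)))
(L (nat_lit 27839625)))
(S (nat_lit 37751) (S (nat_lit 19772) (S (nat_lit 27128) (S (nat_lit 59023) (L (nat_lit 20125487))
(L (nat_lit 2768185)))
(L (nat_lit 6853337)))
(L (nat_lit 21372057)))
(S (nat_lit 57515) (S (nat_lit 2492) (S (nat_lit 22930) (L (nat_lit 5590555))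
(L (nat_lit 12722904)))
(L (nat_lit 20047183)))
(L (nat_lit 25398990)))))
(S (nat_lit 43469) (S (nat_lit 17984) (S (nat_lit 19498) (S (nat_lit 31930) (S (nat_lit 4895) (L (nat_lit 23962765))
(L (nat_lit 3458966)))
(L (nat_lit 13898424)))
(S (nat_lit 58882) (S (nat_lit 31930) (L (nat_lit 6172269))
(L (nat_lit 13898424)))
(L (nat_lit 3564234))))
(S (nat_lit 37748) (S (nat_lit 12174) (S (nat_lit 1518) (L (nat_lit 2896552))
(L (nat_lit 20480216)))
(L (nat_lit 26725603)))
(S (nat_lit 57512) (S (nat_lit 6323) (S (nat_lit 14623) (L (nat_lit 16633026))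
(L (nat_lit 13487299)))
(L (nat_lit 20505922)))
(L (nat_lit 25860268)))))
(L (nat_lit 25867302)))))
(S (nat_lit 34386) (S (nat_lit 27800) (S (nat_lit 19502) (S (nat_lit 10508) (S (nat_lit 23696) (S (nat_lit 6323) (L (nat_lit 18965960))
(L (nat_lit 26848770)))
(L (nat_lit 31074721)))
(L (nat_lit 3037576)))
(S (nat_lit 39266) (S (nat_lit 24746) (L (nat_lit 20031961))
(S (nat_lit 44438) (S (nat_lit 19772) (S (nat_lit 26087) (L (nat_lit 14822043))
(L (nat_lit 11341334)))
(L (nat_lit 2321137)))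
(L (nat_lit 23224842))))
(S (nat_lit 59030) (S (nat_lit 23696) (S (nat_lit 27128) (S (nat_lit 50036) (L (nat_lit 4416053))
(L (nat_lit 20725928)))
(L (nat_lit 15309881)))
(L (nat_lit 11043545)))
(L (nat_lit 25832898)))))
(L (nat_lit 2960049)))
(S (nat_lit 54150) (S (nat_lit 14615) (S (nat_lit 19502) (S (nat_lit 46886) (L (nat_lit 26353294))
(L (nat_lit 20070281)))
(S (nat_lit 39266) (S (nat_lit 26087) (S (nat_lit 39529) (S (nat_lit 19768) (S (nat_lit 30272) (S (nat_lit 57515) (L (nat_lit 28354069))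
(L (nat_lit 11066424)))
(L (nat_lit 18667528)))
(L (nat_lit 16588418)))
(L (nat_lit 17004130)))
(L (nat_lit 10995867)))
(S (nat_lit 59030) (S (nat_lit 41046) (S (nat_lit 9747) (L (nat_lit 24193593))
(L (nat_lit 14869128)))
(L (nat_lit 23855625)))
(L (nat_lit 25175444)))))
(S (nat_lit 34379) (S (nat_lit 27800) (S (nat_lit 51686) (S (nat_lit 42037) (S (nat_lit 36794) (L (nat_lit 8538034))
(L (nat_lit 20788296)))
(L (nat_lit 24914341)))
(L (nat_lit 14789459)))
(L (nat_lit 2965160)))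
(S (nat_lit 54143) (S (nat_lit 19502) (S (nat_lit 6323) (S (nat_lit 36794) (L (nat_lit 29413928))
(L (nat_lit 20454275)))
(L (nat_lit 18650760)))
(S (nat_lit 39266) (S (nat_lit 29511) (S (nat_lit 12912) (S (nat_lit 34733) (L (nat_lit 222896))
(L (nat_lit 26818696)))
(L (nat_lit 18689044)))
(S (nat_lit 49473) (L (nat_lit 13985477))
(L (nat_lit 17855112))))
(S (nat_lit 59030) (S (nat_lit 17033) (S (nat_lit 24662) (S (nat_lit 19765) (S (nat_lit 54159) (L (nat_lit 28453548))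
(L (nat_lit 9027773)))
(L (nat_lit 8808469)))
(L (nat_lit 21935296)))
(S (nat_lit 21430) (L (nat_lit 24124824))
(L (nat_lit 11994964))))
(L (nat_lit 25758990)))))
(L (nat_lit 25800838)))))
(L (nat_lit 25397815)))))
(S (nat_lit 21283) (S (nat_lit 8998) (S (nat_lit 8) (S (nat_lit 8045) (S (nat_lit 46886) (L (nat_lit 7493550))
(L (nat_lit 17032932)))
(S (nat_lit 27809) (S (nat_lit 10505) (S (nat_lit 45197) (L (nat_lit 7496270))
(L (nat_lit 14687992)))
(L (nat_lit 15328392)))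
(S (nat_lit 47573) (S (nat_lit 14615) (S (nat_lit 1) (L (nat_lit 550472))
(L (nat_lit 26804648)))
(L (nat_lit 13329544)))
(L (nat_lit 25565331)))))
(S (nat_lit 19772) (S (nat_lit 15596) (S (nat_lit 27131) (S (nat_lit 17018) (L (nat_lit 24667491))
(L (nat_lit 17555560)))
(L (nat_lit 14839157)))
(S (nat_lit 35360) (S (nat_lit 9751) (S (nat_lit 59023) (S (nat_lit 36794) (L (nat_lit 11310829))
(L (nat_lit 23225864)))
(L (nat_lit 14907044)))
(L (nat_lit 16999141)))
(S (nat_lit 55124) (S (nat_lit 34396) (S (nat_lit 24671) (L (nat_lit 28858410))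
(L (nat_lit 9984898)))
(L (nat_lit 15311715)))
(L (nat_lit 25480301)))))
(S (nat_lit 39536) (S (nat_lit 5733) (L (nat_lit 15274328))
(S (nat_lit 46121) (S (nat_lit 8611) (L (nat_lit 10947258))
(S (nat_lit 39259) (S (nat_lit 45848) (S (nat_lit 12165) (L (nat_lit 3984872))
(L (nat_lit 11289253)))
(L (nat_lit 25005422)))
(L (nat_lit 4878890))))
(L (nat_lit 17537144))))
(L (nat_lit 25763333)))))
(S (nat_lit 28762) (S (nat_lit 6590) (S (nat_lit 17984) (S (nat_lit 24340) (L (nat_lit 3700022))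
(S (nat_lit 27800) (S (nat_lit 51693) (L (nat_lit 25006504))
(L (nat_lit 14797640)))
(L (nat_lit 2777360))))
(S (nat_lit 37748) (S (nat_lit 16999) (L (nat_lit 9013658))
(S (nat_lit 35360) (S (nat_lit 39528) (L (nat_lit 7071920))
(L (nat_lit 11389313)))
(L (nat_lit 30595562))))
(S (nat_lit 57512) (S (nat_lit 26745) (L (nat_lit 7461400))
(S (nat_lit 42037) (S (nat_lit 8997) (S (nat_lit 45848) (S (nat_lit 50033) (S (nat_lit 3) (L (nat_lit 21030344))
(L (nat_lit 254637)))
(L (nat_lit 20136801)))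
(L (nat_lit 24493240)))
(L (nat_lit 16865624)))
(L (nat_lit 23936357))))
(L (nat_lit 25337580)))))
(S (nat_lit 26354) (S (nat_lit 17033) (S (nat_lit 56546) (S (nat_lit 12912) (S (nat_lit 5669) (S (nat_lit 57512) (L (nat_lit 8537970))
(L (nat_lit 13473450)))
(S (nat_lit 25433) (S (nat_lit 20522) (S (nat_lit 49279) (L (nat_lit 6011752))
(L (nat_lit 13832793)))
(L (nat_lit 22480153)))
(S (nat_lit 45197) (S (nat_lit 20522) (L (nat_lit 2442939))
(L (nat_lit 3533239)))
(L (nat_lit 25921929)))))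
(L (nat_lit 23215320)))
(L (nat_lit 19035560)))
(S (nat_lit 36797) (S (nat_lit 24280) (L (nat_lit 26238440))
(S (nat_lit 44423) (S (nat_lit 19768) (S (nat_lit 32677) (L (nat_lit 6214026))
(L (nat_lit 11255585)))
(L (nat_lit 15550568)))
(L (nat_lit 23217496))))
(S (nat_lit 56561) (S (nat_lit 19768) (S (nat_lit 32677) (S (nat_lit 35360) (L (nat_lit 3627880))
(L (nat_lit 30690723)))
(L (nat_lit 7893668)))
(L (nat_lit 21836904)))
(L (nat_lit 25238221)))))
(S (nat_lit 46118) (S (nat_lit 2509) (S (nat_lit 3932) (S (nat_lit 51702) (S (nat_lit 39262) (L (nat_lit 26368488))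
(L (nat_lit 4865277)))
(L (nat_lit 15360008)))
(S (nat_lit 28654) (L (nat_lit 26402216))
(L (nat_lit 26902952))))
(S (nat_lit 22273) (S (nat_lit 19768) (S (nat_lit 6480) (L (nat_lit 30583375))
(S (nat_lit 45848) (S (nat_lit 36788) (L (nat_lit 548776))
(L (nat_lit 5790632)))
(L (nat_lit 12949112))))
(S (nat_lit 23822) (L (nat_lit 3522420))
(L (nat_lit 3797480))))
(S (nat_lit 42037) (S (nat_lit 32677) (S (nat_lit 57512) (S (nat_lit 50033) (S (nat_lit 45848) (S (nat_lit 19497) (S (nat_lit 54160) (S (nat_lit 17033) (S (nat_lit 56546) (S (nat_lit 31938) (L (nat_lit 24449806))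
(L (nat_lit 13750120)))
(L (nat_lit 4117928)))
(L (nat_lit 26676936)))
(L (nat_lit 9324687)))
(L (nat_lit 24338947)))
(L (nat_lit 15281272)))
(L (nat_lit 20361059)))
(L (nat_lit 15439992)))
(L (nat_lit 13981720)))
(L (nat_lit 25930865)))))
(L (nat_lit 25677834)))))
(S (nat_lit 48526) (S (nat_lit 5669) (S (nat_lit 758) (S (nat_lit 44429) (S (nat_lit 44435) (S (nat_lit 36782) (L (nat_lit 20137763))
(L (nat_lit 30556808)))
(L (nat_lit 23210552)))
(L (nat_lit 23213368)))
(S (nat_lit 20522) (S (nat_lit 19092) (L (nat_lit 2470584))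
(S (nat_lit 23696) (S (nat_lit 42037) (L (nat_lit 3490525))
(L (nat_lit 3956200)))
(L (nat_lit 11158649))))
(S (nat_lit 40286) (S (nat_lit 22256) (S (nat_lit 44429) (L (nat_lit 11339376))
(L (nat_lit 10646190)))
(S (nat_lit 29462) (S (nat_lit 12174) (L (nat_lit 8533625))
(L (nat_lit 11155481)))
(L (nat_lit 9276143))))
(L (nat_lit 25667607)))))
(S (nat_lit 25433) (S (nat_lit 4910) (S (nat_lit 4901) (S (nat_lit 4907) (L (nat_lit 8544790))
(L (nat_lit 26762410)))
(L (nat_lit 26740362)))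
(S (nat_lit 24674) (S (nat_lit 42694) (S (nat_lit 2410) (L (nat_lit 24212968))
(L (nat_lit 15885684)))
(L (nat_lit 3688764)))
(S (nat_lit 44438) (S (nat_lit 42694) (S (nat_lit 44426) (S (nat_lit 48525) (S (nat_lit 45848) (L (nat_lit 29542668))
(L (nat_lit 23962734)))
(L (nat_lit 11385506)))
(L (nat_lit 23621803)))
(L (nat_lit 27807013)))
(L (nat_lit 25319724)))))
(S (nat_lit 45197) (S (nat_lit 13877) (S (nat_lit 44435) (S (nat_lit 44429) (L (nat_lit 1366552))
(L (nat_lit 23594296)))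
(L (nat_lit 23603384)))
(S (nat_lit 33641) (S (nat_lit 39262) (S (nat_lit 44435) (S (nat_lit 4910) (L (nat_lit 10121324))
(L (nat_lit 18492258)))
(L (nat_lit 23998658)))
(L (nat_lit 7739096)))
(S (nat_lit 53405) (S (nat_lit 46892) (S (nat_lit 27116) (S (nat_lit 42694) (L (nat_lit 29506217))
(L (nat_lit 3689724)))
(L (nat_lit 30562825)))
(L (nat_lit 10084740)))
(L (nat_lit 25186825)))))
(L (nat_lit 25896012)))))
(L (nat_lit 25248119)))))
(S (nat_lit 41047) (S (nat_lit 19497) (S (nat_lit 0) (S (nat_lit 2499) (S (nat_lit 24662) (S (nat_lit 44435) (L (nat_lit 28454478))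
(L (nat_lit 23126254)))
(S (nat_lit 44344) (L (nat_lit 22176298))
(L (nat_lit 4641017))))
(S (nat_lit 22263) (S (nat_lit 24662) (S (nat_lit 27119) (S (nat_lit 42028) (L (nat_lit 3876408))
(L (nat_lit 24552569)))
(L (nat_lit 6873796)))
(L (nat_lit 21422306)))
(S (nat_lit 42027) (S (nat_lit 27131) (S (nat_lit 42037) (S (nat_lit 59026) (L (nat_lit 1593159))
(L (nat_lit 9258131)))
(L (nat_lit 23496057)))
(L (nat_lit 24648825)))
(L (nat_lit 25936934)))))
(S (nat_lit 19764) (S (nat_lit 1) (S (nat_lit 9755) (S (nat_lit 59026) (S (nat_lit 58273) (S (nat_lit 54160) (L (nat_lit 4644092))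
(L (nat_lit 8868611)))
(L (nat_lit 2317721)))
(L (nat_lit 14882425)))
(L (nat_lit 15444867)))
(S (nat_lit 19765) (S (nat_lit 1649) (L (nat_lit 11339189))
(S (nat_lit 31938) (L (nat_lit 11011923))
(L (nat_lit 5066120))))
(S (nat_lit 39529) (S (nat_lit 25433) (S (nat_lit 26357) (S (nat_lit 27809) (L (nat_lit 3001551))
(L (nat_lit 15343769)))
(L (nat_lit 9351748)))
(L (nat_lit 22912014)))
(L (nat_lit 25761807)))))
(S (nat_lit 39528) (S (nat_lit 761) (S (nat_lit 13182) (S (nat_lit 16340) (L (nat_lit 5943512))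
(L (nat_lit 17457507)))
(L (nat_lit 24479256)))
(S (nat_lit 20525) (S (nat_lit 26354) (S (nat_lit 34379) (S (nat_lit 39259) (L (nat_lit 3630760))
(L (nat_lit 10968900)))
(L (nat_lit 11285124)))
(L (nat_lit 8467161)))
(S (nat_lit 40289) (S (nat_lit 39536) (S (nat_lit 29512) (S (nat_lit 22264) (S (nat_lit 39532) (L (nat_lit 19406009))
(L (nat_lit 18795593)))
(L (nat_lit 8815352)))
(L (nat_lit 19441752)))
(L (nat_lit 17878392)))
(L (nat_lit 25283953)))))
(L (nat_lit 25789676)))))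
(S (nat_lit 39261) (S (nat_lit 12175) (S (nat_lit 4898) (S (nat_lit 45848) (S (nat_lit 42028) (S (nat_lit 27800) (L (nat_lit 3357275))
(L (nat_lit 15542949)))
(L (nat_lit 23441529)))
(L (nat_lit 9292910)))
(S (nat_lit 24662) (S (nat_lit 24665) (L (nat_lit 19019097))
(L (nat_lit 21111321)))
(S (nat_lit 44426) (S (nat_lit 34396) (S (nat_lit 8998) (S (nat_lit 32676) (S (nat_lit 48525) (S (nat_lit 42037) (S (nat_lit 1090) (L (nat_lit 2567802))
(S (nat_lit 45848) (S (nat_lit 20490) (L (nat_lit 16093880))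
(L (nat_lit 19711264)))
(L (nat_lit 27438670))))
(L (nat_lit 23865760)))
(L (nat_lit 13770518)))
(L (nat_lit 30751828)))
(L (nat_lit 26425463)))
(L (nat_lit 20014634)))
(L (nat_lit 25441462)))))
(S (nat_lit 31939) (S (nat_lit 2500) (S (nat_lit 758) (S (nat_lit 44435) (S (nat_lit 46886) (L (nat_lit 28969386))
(L (nat_lit 20070281)))
(L (nat_lit 11403886)))
(L (nat_lit 20787524)))
(S (nat_lit 22264) (S (nat_lit 29512) (S (nat_lit 39258) (L (nat_lit 6175464))
(L (nat_lit 17671845)))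
(L (nat_lit 18188952)))
(S (nat_lit 42028) (S (nat_lit 26354) (S (nat_lit 27800) (S (nat_lit 26357) (L (nat_lit 2996843))
(L (nat_lit 9198053)))
(L (nat_lit 2473657)))
(L (nat_lit 2863353)))
(L (nat_lit 25511028)))))
(S (nat_lit 51703) (S (nat_lit 8045) (S (nat_lit 51020) (S (nat_lit 17030) (S (nat_lit 59026) (S (nat_lit 56546) (L (nat_lit 3973712))
(L (nat_lit 27789896)))
(L (nat_lit 15281308)))
(L (nat_lit 17605281)))
(L (nat_lit 20788234)))
(S (nat_lit 27809) (S (nat_lit 24665) (S (nat_lit 27131) (L (nat_lit 26948746))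
(L (nat_lit 14866343)))
(L (nat_lit 4858393)))
(S (nat_lit 47573) (S (nat_lit 4910) (S (nat_lit 31938) (S (nat_lit 29512) (L (nat_lit 5585778))
(L (nat_lit 18587736)))
(L (nat_lit 17433384)))
(L (nat_lit 20359325)))
(L (nat_lit 25548325)))))
(L (nat_lit 25833547)))))
(S (nat_lit 59025) (S (nat_lit 12913) (S (nat_lit 17030) (L (nat_lit 6452909))
(S (nat_lit 36794) (S (nat_lit 50033) (S (nat_lit 41807) (L (nat_lit 26359092))
(L (nat_lit 19031562)))
(L (nat_lit 20212879)))
(S (nat_lit 56558) (S (nat_lit 56552) (S (nat_lit 38606) (L (nat_lit 21372835))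
(L (nat_lit 9987220)))
(L (nat_lit 21524707)))
(L (nat_lit 25476178)))))
(S (nat_lit 32677) (S (nat_lit 13877) (S (nat_lit 57515) (S (nat_lit 43469) (L (nat_lit 10630904))
(L (nat_lit 8973025)))
(L (nat_lit 19776802)))
(S (nat_lit 33641) (S (nat_lit 42694) (S (nat_lit 59023) (S (nat_lit 15596) (L (nat_lit 19966767))
(L (nat_lit 26224207)))
(L (nat_lit 9246384)))
(L (nat_lit 27413809)))
(S (nat_lit 53405) (S (nat_lit 27800) (S (nat_lit 8) (L (nat_lit 28911757))
(L (nat_lit 19293354)))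
(L (nat_lit 4008501)))
(L (nat_lit 25937031)))))
(S (nat_lit 52441) (S (nat_lit 4910) (S (nat_lit 19768) (S (nat_lit 45848) (S (nat_lit 59026) (S (nat_lit 25424) (S (nat_lit 42037) (S (nat_lit 51020) (L (nat_lit 29823221))
(L (nat_lit 717166)))
(L (nat_lit 24980901)))
(L (nat_lit 21296578)))
(L (nat_lit 27279047)))
(S (nat_lit 51869) (L (nat_lit 11695635))
(L (nat_lit 2697132))))
(L (nat_lit 21197251)))
(S (nat_lit 24674) (S (nat_lit 19768) (S (nat_lit 50901) (L (nat_lit 29503731))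
(S (nat_lit 52440) (S (nat_lit 59026) (S (nat_lit 46883) (S (nat_lit 56561) (S (nat_lit 42037) (S (nat_lit 16365) (L (nat_lit 413016))
(L (nat_lit 27808776)))
(L (nat_lit 12344741)))
(L (nat_lit 6837123)))
(L (nat_lit 22555674)))
(L (nat_lit 2965194)))
(L (nat_lit 8982287))))
(S (nat_lit 21307) (L (nat_lit 15550536))
(L (nat_lit 8979375))))
(S (nat_lit 44438) (S (nat_lit 18745) (S (nat_lit 24659) (S (nat_lit 52440) (S (nat_lit 41046) (S (nat_lit 17033) (S (nat_lit 7352) (S (nat_lit 4898) (S (nat_lit 32946) (S (nat_lit 28762) (S (nat_lit 19767) (S (nat_lit 15596) (S (nat_lit 53396) (S (nat_lit 59026) (L (nat_lit 6688409))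
(L (nat_lit 12803876)))
(L (nat_lit 7795268)))
(S (nat_lit 35360) (S (nat_lit 38357) (L (nat_lit 23115559))
(L (nat_lit 14907011)))
(S (nat_lit 55124) (S (nat_lit 23096) (L (nat_lit 28673773))
(L (nat_lit 19804416)))
(L (nat_lit 25352559)))))
(L (nat_lit 16345345)))
(L (nat_lit 24648824)))
(L (nat_lit 20447612)))
(L (nat_lit 20067580)))
(L (nat_lit 21496713)))
(L (nat_lit 24256925)))
(L (nat_lit 24260891)))
(L (nat_lit 2649300)))
(L (nat_lit 8940256)))
(L (nat_lit 5778323)))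
(L (nat_lit 25832494)))))
(L (nat_lit 25922954)))))
(L (nat_lit 25368175)))))
(L (nat_lit 25348647)))))
(S (nat_lit 52711) (S (nat_lit 9755) (S (nat_lit 0) (S (nat_lit 17024) (S (nat_lit 6323) (S (nat_lit 29511) (S (nat_lit 47573) (S (nat_lit 26084) (S (nat_lit 42037) (S (nat_lit 56558) (L (nat_lit 28428839))
(L (nat_lit 19774600)))
(L (nat_lit 27987368)))
(L (nat_lit 21469000)))
(L (nat_lit 18551624)))
(L (nat_lit 803464)))
(S (nat_lit 26087) (S (nat_lit 47573) (S (nat_lit 9747) (L (nat_lit 23533480))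
(L (nat_lit 5069256)))
(L (nat_lit 4940296)))
(S (nat_lit 45851) (S (nat_lit 2508) (S (nat_lit 9748) (S (nat_lit 59023) (L (nat_lit 11110317))
(L (nat_lit 8871097)))
(L (nat_lit 17392965)))
(L (nat_lit 19250296)))
(L (nat_lit 25349356)))))
(S (nat_lit 36788) (S (nat_lit 36794) (S (nat_lit 36797) (S (nat_lit 36782) (S (nat_lit 34387) (S (nat_lit 34396) (S (nat_lit 9747) (S (nat_lit 761) (L (nat_lit 9036942))
(L (nat_lit 26290864)))
(L (nat_lit 16802440)))
(L (nat_lit 20180515)))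
(S (nat_lit 39391) (L (nat_lit 8903833))
(L (nat_lit 20177443))))
(L (nat_lit 30784131)))
(L (nat_lit 23445411)))
(L (nat_lit 20070280)))
(S (nat_lit 56552) (S (nat_lit 36797) (S (nat_lit 27800) (S (nat_lit 17984) (S (nat_lit 48526) (L (nat_lit 4598547))
(L (nat_lit 14289241)))
(L (nat_lit 7921778)))
(L (nat_lit 24972808)))
(L (nat_lit 30936776)))
(L (nat_lit 25634836)))))
(S (nat_lit 19764) (S (nat_lit 17024) (S (nat_lit 16337) (S (nat_lit 3932) (S (nat_lit 15605) (S (nat_lit 14623) (S (nat_lit 26084) (L (nat_lit 10668538))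
(L (nat_lit 21153081)))
(L (nat_lit 24619907)))
(L (nat_lit 24685443)))
(L (nat_lit 19442563)))
(S (nat_lit 36101) (S (nat_lit 20522) (S (nat_lit 51029) (S (nat_lit 16340) (L (nat_lit 28324423))
(L (nat_lit 16886610)))
(L (nat_lit 15542880)))
(L (nat_lit 2566777)))
(S (nat_lit 55865) (S (nat_lit 4910) (S (nat_lit 36797) (S (nat_lit 42020) (L (nat_lit 3765614))
(L (nat_lit 23444291)))
(L (nat_lit 30788131)))
(L (nat_lit 26258060)))
(L (nat_lit 25829889)))))
(S (nat_lit 36788) (S (nat_lit 36794) (S (nat_lit 36797) (S (nat_lit 36782) (S (nat_lit 9748) (S (nat_lit 9747) (S (nat_lit 9751) (S (nat_lit 42027) (S (nat_lit 27122) (L (nat_lit 15868850))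
(L (nat_lit 14912249)))
(L (nat_lit 16094994)))
(L (nat_lit 15063904)))
(L (nat_lit 15065730)))
(S (nat_lit 50388) (S (nat_lit 46500) (L (nat_lit 12781396))
(L (nat_lit 4414220)))
(L (nat_lit 16995072))))
(L (nat_lit 30784131)))
(L (nat_lit 23433135)))
(L (nat_lit 23443331)))
(S (nat_lit 56552) (S (nat_lit 36797) (S (nat_lit 27800) (S (nat_lit 34387) (S (nat_lit 49275) (S (nat_lit 16340) (S (nat_lit 40286) (L (nat_lit 15587586))
(L (nat_lit 23537720)))
(L (nat_lit 8446671)))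
(L (nat_lit 16094134)))
(L (nat_lit 2727791)))
(L (nat_lit 24972808)))
(L (nat_lit 30936776)))
(L (nat_lit 25929741)))))
(S (nat_lit 39528) (S (nat_lit 2499) (S (nat_lit 31668) (L (nat_lit 4922777))
(S (nat_lit 39532) (S (nat_lit 26084) (S (nat_lit 24674) (S (nat_lit 22256) (S (nat_lit 42037) (L (nat_lit 23229866))
(L (nat_lit 23570553)))
(L (nat_lit 18204729)))
(S (nat_lit 50410) (L (nat_lit 2609465))
(L (nat_lit 8838050))))
(L (nat_lit 17647718)))
(L (nat_lit 4615848))))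
(S (nat_lit 22263) (S (nat_lit 26084) (S (nat_lit 36782) (S (nat_lit 26990) (S (nat_lit 39532) (L (nat_lit 23921126))
(L (nat_lit 17406851)))
(S (nat_lit 27800) (S (nat_lit 761) (S (nat_lit 39532) (L (nat_lit 12398707))
(L (nat_lit 17845128)))
(L (nat_lit 14017157)))
(L (nat_lit 10509849))))
(L (nat_lit 8215599)))
(L (nat_lit 21841000)))
(S (nat_lit 42027) (S (nat_lit 36797) (S (nat_lit 5790) (L (nat_lit 23922028))
(S (nat_lit 36782) (S (nat_lit 42020) (S (nat_lit 4110) (L (nat_lit 23227878))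
(S (nat_lit 42037) (S (nat_lit 27800) (S (nat_lit 51029) (S (nat_lit 761) (S (nat_lit 23696) (S (nat_lit 26084) (S (nat_lit 48526) (S (nat_lit 7364) (S (nat_lit 9748) (S (nat_lit 12174) (L (nat_lit 4469622))
(L (nat_lit 15834809)))
(L (nat_lit 16976658)))
(L (nat_lit 14601540)))
(L (nat_lit 13830777)))
(L (nat_lit 1427963)))
(L (nat_lit 8147361)))
(L (nat_lit 14320457)))
(L (nat_lit 12235584)))
(L (nat_lit 15065765)))
(L (nat_lit 23191977))))
(L (nat_lit 24983905)))
(L (nat_lit 30790703))))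
(S (nat_lit 55730) (L (nat_lit 5926189))
(L (nat_lit 23602081))))
(L (nat_lit 25276787)))))
(L (nat_lit 25185517)))))
(S (nat_lit 29519) (S (nat_lit 12912) (S (nat_lit 8036) (S (nat_lit 4901) (S (nat_lit 34387) (S (nat_lit 33632) (L (nat_lit 4833128))
(L (nat_lit 15535412)))
(L (nat_lit 15476886)))
(L (nat_lit 17978218)))
(S (nat_lit 27800) (S (nat_lit 7367) (S (nat_lit 19494) (S (nat_lit 39532) (S (nat_lit 35369) (S (nat_lit 42037) (L (nat_lit 10664851))
(L (nat_lit 16092948)))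
(L (nat_lit 23651683)))
(L (nat_lit 17833877)))
(L (nat_lit 3826031)))
(S (nat_lit 27131) (S (nat_lit 42037) (S (nat_lit 14631) (S (nat_lit 20522) (S (nat_lit 59026) (S (nat_lit 41047) (S (nat_lit 24659) (L (nat_lit 24651869))
(L (nat_lit 16829819)))
(L (nat_lit 24671426)))
(L (nat_lit 13438291)))
(L (nat_lit 16534537)))
(L (nat_lit 24985769)))
(L (nat_lit 24633701)))
(S (nat_lit 46895) (S (nat_lit 12174) (S (nat_lit 36797) (S (nat_lit 42037) (S (nat_lit 53405) (L (nat_lit 7496211))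
(L (nat_lit 17846584)))
(L (nat_lit 11287605)))
(L (nat_lit 13362184)))
(S (nat_lit 51541) (L (nat_lit 24158029))
(L (nat_lit 3710649))))
(L (nat_lit 25478885)))))
(S (nat_lit 47564) (S (nat_lit 8045) (S (nat_lit 26084) (L (nat_lit 5618266))
(L (nat_lit 21337657)))
(S (nat_lit 27809) (S (nat_lit 36788) (S (nat_lit 9747) (L (nat_lit 9344687))
(L (nat_lit 4974024)))
(L (nat_lit 18187188)))
(S (nat_lit 47573) (S (nat_lit 48526) (S (nat_lit 10508) (L (nat_lit 10936469))
(L (nat_lit 17425416)))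
(L (nat_lit 22166344)))
(L (nat_lit 25546245)))))
(L (nat_lit 25569429)))))
(S (nat_lit 32676) (S (nat_lit 3941) (S (nat_lit 8) (S (nat_lit 22886) (L (nat_lit 20782560))
(S (nat_lit 31929) (S (nat_lit 7367) (S (nat_lit 31265) (S (nat_lit 42037) (S (nat_lit 5660) (L (nat_lit 23931982))
(L (nat_lit 20165724)))
(L (nat_lit 24984681)))
(L (nat_lit 19249241)))
(L (nat_lit 11039827)))
(L (nat_lit 4874543))))
(S (nat_lit 19772) (S (nat_lit 39532) (S (nat_lit 42037) (S (nat_lit 12174) (L (nat_lit 12441615))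
(L (nat_lit 11324867)))
(L (nat_lit 24972777)))
(S (nat_lit 45282) (L (nat_lit 10899234))
(L (nat_lit 10506031))))
(S (nat_lit 39536) (S (nat_lit 12174) (S (nat_lit 42037) (L (nat_lit 5057199))
(L (nat_lit 10913529)))
(L (nat_lit 11062360)))
(L (nat_lit 25560811)))))
(S (nat_lit 23705) (S (nat_lit 16340) (S (nat_lit 39529) (S (nat_lit 19497) (L (nat_lit 2482613))
(L (nat_lit 18044739)))
(L (nat_lit 18050659)))
(S (nat_lit 36104) (S (nat_lit 36794) (S (nat_lit 39261) (S (nat_lit 54151) (L (nat_lit 6353487))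
(L (nat_lit 17032771)))
(L (nat_lit 11323075)))
(L (nat_lit 20070280)))
(S (nat_lit 55868) (S (nat_lit 27800) (S (nat_lit 27809) (S (nat_lit 39529) (L (nat_lit 28543599))
(L (nat_lit 11105667)))
(L (nat_lit 11158681)))
(L (nat_lit 11222201)))
(L (nat_lit 25272722)))))
(S (nat_lit 43469) (S (nat_lit 2492) (S (nat_lit 59025) (S (nat_lit 1519) (L (nat_lit 7530191))
(L (nat_lit 19456259)))
(L (nat_lit 27286767)))
(S (nat_lit 22256) (S (nat_lit 14623) (S (nat_lit 15596) (S (nat_lit 36797) (S (nat_lit 21283) (S (nat_lit 51702) (L (nat_lit 23227816))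
(L (nat_lit 27593391)))
(L (nat_lit 21162255)))
(L (nat_lit 20062991)))
(L (nat_lit 24145231)))
(L (nat_lit 24374447)))
(S (nat_lit 42020) (S (nat_lit 51693) (L (nat_lit 30623363))
(L (nat_lit 27609539)))
(L (nat_lit 25512047)))))
(L (nat_lit 25495277)))))
(S (nat_lit 52440) (S (nat_lit 36797) (S (nat_lit 13182) (S (nat_lit 1518) (S (nat_lit 1519) (S (nat_lit 50036) (L (nat_lit 1369620))
(L (nat_lit 7166499)))
(L (nat_lit 12314115)))
(S (nat_lit 21203) (L (nat_lit 12289935))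
(L (nat_lit 10159673))))
(S (nat_lit 32946) (S (nat_lit 36782) (S (nat_lit 59025) (S (nat_lit 46895) (S (nat_lit 6323) (S (nat_lit 19767) (S (nat_lit 4910) (S (nat_lit 48526) (S (nat_lit 23696) (S (nat_lit 27800) (L (nat_lit 3546840))
(L (nat_lit 10902715)))
(L (nat_lit 5644150)))
(L (nat_lit 20134725)))
(L (nat_lit 19035658)))
(L (nat_lit 8841888)))
(L (nat_lit 19251042)))
(L (nat_lit 9966168)))
(L (nat_lit 15488227)))
(L (nat_lit 5632589)))
(S (nat_lit 52710) (S (nat_lit 12812) (L (nat_lit 24494949))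
(S (nat_lit 36782) (S (nat_lit 44745) (L (nat_lit 3520187))
(S (nat_lit 48526) (S (nat_lit 36788) (S (nat_lit 27800) (S (nat_lit 20525) (L (nat_lit 29990957))
(L (nat_lit 15474774)))
(L (nat_lit 10902715)))
(L (nat_lit 5628525)))
(L (nat_lit 20450056))))
(L (nat_lit 12738408))))
(L (nat_lit 25729664)))))
(L (nat_lit 8212655)))
(L (nat_lit 25308566)))))
(S (nat_lit 49283) (S (nat_lit 7367) (S (nat_lit 12174) (S (nat_lit 23696) (S (nat_lit 39532) (S (nat_lit 6399) (L (nat_lit 11338227))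
(S (nat_lit 26084) (S (nat_lit 36782) (S (nat_lit 30269) (S (nat_lit 48526) (S (nat_lit 55868) (S (nat_lit 36797) (L (nat_lit 29821170))
(L (nat_lit 23933960)))
(L (nat_lit 14297985)))
(L (nat_lit 22231161)))
(L (nat_lit 17885896)))
(L (nat_lit 18701416)))
(L (nat_lit 14011577))))
(L (nat_lit 17663656)))
(L (nat_lit 18487144)))
(S (nat_lit 31938) (S (nat_lit 6323) (S (nat_lit 36797) (S (nat_lit 52710) (S (nat_lit 44423) (S (nat_lit 42037) (L (nat_lit 3530296))
(L (nat_lit 13995769)))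
(L (nat_lit 11423106)))
(L (nat_lit 21536577)))
(L (nat_lit 6022696)))
(S (nat_lit 26087) (S (nat_lit 3483) (L (nat_lit 4760248))
(S (nat_lit 9747) (S (nat_lit 23696) (L (nat_lit 3813625))
(L (nat_lit 11068097)))
(L (nat_lit 21160392))))
(S (nat_lit 45851) (S (nat_lit 9747) (S (nat_lit 50036) (L (nat_lit 20842952))
(L (nat_lit 27382312)))
(S (nat_lit 17581) (L (nat_lit 27820713))
(L (nat_lit 23650376))))
(L (nat_lit 25544354)))))
(S (nat_lit 51702) (S (nat_lit 15605) (S (nat_lit 30269) (L (nat_lit 21798339))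
(L (nat_lit 30904693)))
(S (nat_lit 35369) (S (nat_lit 41047) (S (nat_lit 24674) (L (nat_lit 8567481))
(L (nat_lit 17434905)))
(L (nat_lit 27838659)))
(S (nat_lit 55133) (S (nat_lit 2492) (S (nat_lit 23696) (S (nat_lit 19772) (L (nat_lit 28935658))
(L (nat_lit 22229145)))
(L (nat_lit 7516921)))
(L (nat_lit 19373955)))
(L (nat_lit 25724244)))))
(L (nat_lit 25430484)))))
(S (nat_lit 27131) (S (nat_lit 12158) (S (nat_lit 1518) (S (nat_lit 27116) (S (nat_lit 27119) (S (nat_lit 58273) (S (nat_lit 42694) (S (nat_lit 2492) (S (nat_lit 20522) (S (nat_lit 3) (S (nat_lit 36782) (S (nat_lit 33632) (S (nat_lit 51703) (L (nat_lit 18921722))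
(L (nat_lit 27839716)))
(L (nat_lit 4082928)))
(L (nat_lit 31178947)))
(L (nat_lit 19307329)))
(L (nat_lit 14903319)))
(L (nat_lit 17503115)))
(L (nat_lit 7894757)))
(L (nat_lit 7501267)))
(L (nat_lit 14823315)))
(L (nat_lit 16425145)))
(S (nat_lit 21282) (S (nat_lit 2492) (S (nat_lit 28761) (L (nat_lit 7999992))
(L (nat_lit 19808358)))
(L (nat_lit 19808363)))
(S (nat_lit 41046) (S (nat_lit 41047) (S (nat_lit 27119) (L (nat_lit 24261544))
(L (nat_lit 30971957)))
(L (nat_lit 8973492)))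
(L (nat_lit 25899147)))))
(S (nat_lit 31922) (S (nat_lit 19502) (S (nat_lit 23696) (S (nat_lit 35369) (L (nat_lit 26389229))
(L (nat_lit 17836633)))
(L (nat_lit 11048697)))
(S (nat_lit 39266) (S (nat_lit 12174) (S (nat_lit 19767) (S (nat_lit 23696) (L (nat_lit 3986798))
(L (nat_lit 17851080)))
(L (nat_lit 15954003)))
(S (nat_lit 51541) (S (nat_lit 47934) (L (nat_lit 4643688))
(L (nat_lit 23869733)))
(L (nat_lit 10998873))))
(S (nat_lit 59030) (S (nat_lit 31929) (S (nat_lit 27800) (S (nat_lit 36797) (L (nat_lit 31013894))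
(L (nat_lit 13502056)))
(L (nat_lit 15542949)))
(L (nat_lit 19166661)))
(L (nat_lit 25433740)))))
(S (nat_lit 51686) (S (nat_lit 19642) (S (nat_lit 38509) (L (nat_lit 20846026))
(L (nat_lit 20720001)))
(S (nat_lit 27800) (S (nat_lit 23696) (S (nat_lit 39532) (S (nat_lit 42037) (S (nat_lit 48526) (S (nat_lit 54150) (L (nat_lit 3796394))
(L (nat_lit 18753719)))
(L (nat_lit 11012882)))
(L (nat_lit 14428213)))
(L (nat_lit 10515925)))
(S (nat_lit 42568) (L (nat_lit 2477528))
(L (nat_lit 10667769))))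
(L (nat_lit 15542419))))
(L (nat_lit 25826540)))))
(S (nat_lit 46895) (S (nat_lit 16340) (S (nat_lit 36797) (S (nat_lit 17126) (L (nat_lit 10668877))
(S (nat_lit 36782) (S (nat_lit 6428) (L (nat_lit 30773715))
(S (nat_lit 26084) (S (nat_lit 55133) (S (nat_lit 28761) (L (nat_lit 8536915))
(L (nat_lit 6109863)))
(L (nat_lit 11231277)))
(L (nat_lit 8195662))))
(L (nat_lit 13458627))))
(S (nat_lit 37416) (L (nat_lit 10675666))
(L (nat_lit 5629551))))
(S (nat_lit 36104) (S (nat_lit 19494) (S (nat_lit 10508) (L (nat_lit 9835099))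
(L (nat_lit 16999139)))
(S (nat_lit 39258) (S (nat_lit 27128) (S (nat_lit 22264) (L (nat_lit 22220281))
(L (nat_lit 6026609)))
(L (nat_lit 2343763)))
(S (nat_lit 59022) (S (nat_lit 12174) (S (nat_lit 49275) (L (nat_lit 4012402))
(L (nat_lit 20845000)))
(L (nat_lit 9046927)))
(L (nat_lit 25630443)))))
(S (nat_lit 55868) (S (nat_lit 17033) (S (nat_lit 3166) (S (nat_lit 40289) (S (nat_lit 9751) (S (nat_lit 12165) (L (nat_lit 4411901))
(L (nat_lit 3950895)))
(L (nat_lit 15534822)))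
(L (nat_lit 5022353)))
(L (nat_lit 10571660)))
(S (nat_lit 36797) (S (nat_lit 12592) (L (nat_lit 9254935))
(S (nat_lit 15605) (S (nat_lit 26084) (S (nat_lit 23696) (S (nat_lit 4895) (L (nat_lit 28984327))
(L (nat_lit 20473184)))
(L (nat_lit 22587515)))
(L (nat_lit 13995609)))
(L (nat_lit 5059954))))
(S (nat_lit 56561) (S (nat_lit 19765) (S (nat_lit 39532) (L (nat_lit 11341204))
(L (nat_lit 27892815)))
(L (nat_lit 16359299)))
(L (nat_lit 25920845)))))
(L (nat_lit 25419299)))))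
(L (nat_lit 25863249)))))
(L (nat_lit 25346355)))))
(L (nat_lit 25527886)))))
(S (nat_lit 29514) (S (nat_lit 7352) (S (nat_lit 7364) (S (nat_lit 17024) (S (nat_lit 12913) (S (nat_lit 1519) (S (nat_lit 35505) (L (nat_lit 9586424))
(S (nat_lit 46895) (S (nat_lit 4895) (S (nat_lit 18745) (S (nat_lit 13182) (S (nat_lit 8998) (S (nat_lit 39261) (S (nat_lit 43460) (S (nat_lit 29515) (S (nat_lit 45848) (L (nat_lit 14880379))
(L (nat_lit 12963746)))
(L (nat_lit 31178758)))
(L (nat_lit 14292186)))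
(L (nat_lit 23903461)))
(L (nat_lit 21503877)))
(L (nat_lit 550535)))
(L (nat_lit 8939140)))
(L (nat_lit 3689820)))
(L (nat_lit 5873552))))
(L (nat_lit 9986787)))
(S (nat_lit 32677) (S (nat_lit 7367) (S (nat_lit 56546) (L (nat_lit 12725010))
(L (nat_lit 6846081)))
(L (nat_lit 26746597)))
(S (nat_lit 52441) (S (nat_lit 52711) (S (nat_lit 41047) (L (nat_lit 12722908))
(L (nat_lit 27787476)))
(L (nat_lit 27787848)))
(L (nat_lit 25415696)))))
(S (nat_lit 36788) (S (nat_lit 6593) (S (nat_lit 17018) (S (nat_lit 13183) (S (nat_lit 18745) (S (nat_lit 6590) (S (nat_lit 59026) (L (nat_lit 21113243))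
(L (nat_lit 617805)))
(L (nat_lit 320917)))
(L (nat_lit 17967706)))
(L (nat_lit 384910)))
(S (nat_lit 36782) (S (nat_lit 36794) (S (nat_lit 44429) (S (nat_lit 44438) (S (nat_lit 44426) (S (nat_lit 18745) (S (nat_lit 7355) (S (nat_lit 39536) (S (nat_lit 51694) (L (nat_lit 13208829))
(L (nat_lit 351705)))
(L (nat_lit 10931972)))
(L (nat_lit 9324932)))
(L (nat_lit 22569249)))
(L (nat_lit 23208506)))
(L (nat_lit 23619874)))
(L (nat_lit 23618698)))
(L (nat_lit 23216008)))
(S (nat_lit 56546) (S (nat_lit 22263) (S (nat_lit 44426) (L (nat_lit 29508852))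
(L (nat_lit 23208506)))
(S (nat_lit 25532) (L (nat_lit 860849))
(L (nat_lit 18211556))))
(L (nat_lit 25865327)))))
(S (nat_lit 26357) (S (nat_lit 19497) (S (nat_lit 18745) (S (nat_lit 51693) (S (nat_lit 11501) (L (nat_lit 10608089))
(L (nat_lit 23473026)))
(L (nat_lit 13551690)))
(S (nat_lit 39163) (L (nat_lit 5679864))
(L (nat_lit 17968054))))
(S (nat_lit 39261) (S (nat_lit 12912) (S (nat_lit 39258) (S (nat_lit 36869) (L (nat_lit 1515195))
(L (nat_lit 6445999)))
(L (nat_lit 20825443)))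
(L (nat_lit 21508003)))
(S (nat_lit 59025) (S (nat_lit 16656) (L (nat_lit 696888))
(S (nat_lit 44426) (S (nat_lit 15596) (S (nat_lit 14631) (S (nat_lit 0) (L (nat_lit 21144121))
(L (nat_lit 13205753)))
(L (nat_lit 26546741)))
(L (nat_lit 6475693)))
(L (nat_lit 23213994))))
(L (nat_lit 25570359)))))
(S (nat_lit 46121) (S (nat_lit 9748) (S (nat_lit 5669) (S (nat_lit 40286) (L (nat_lit 20064666))
(L (nat_lit 5942193)))
(L (nat_lit 20852962)))
(S (nat_lit 29512) (S (nat_lit 29511) (S (nat_lit 7367) (L (nat_lit 5493584))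
(L (nat_lit 11192132)))
(L (nat_lit 6007696)))
(S (nat_lit 49276) (S (nat_lit 34982) (L (nat_lit 17878329))
(S (nat_lit 54150) (S (nat_lit 3166) (S (nat_lit 35369) (L (nat_lit 1649550))
(L (nat_lit 18000473)))
(L (nat_lit 19409829)))
(L (nat_lit 17902235))))
(L (nat_lit 25581824)))))
(L (nat_lit 25461329)))))
(S (nat_lit 56552) (S (nat_lit 18745) (S (nat_lit 3166) (S (nat_lit 40286) (S (nat_lit 55865) (S (nat_lit 34387) (S (nat_lit 55133) (S (nat_lit 40289) (L (nat_lit 21044696))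
(L (nat_lit 23571236)))
(L (nat_lit 19441720)))
(L (nat_lit 16362274)))
(L (nat_lit 3943151)))
(L (nat_lit 18655813)))
(L (nat_lit 14822325)))
(S (nat_lit 38509) (S (nat_lit 44438) (L (nat_lit 8532664))
(L (nat_lit 27797654)))
(S (nat_lit 58273) (S (nat_lit 24671) (S (nat_lit 12912) (L (nat_lit 5789606))
(L (nat_lit 21501833)))
(L (nat_lit 30550582)))
(L (nat_lit 25595526)))))
(L (nat_lit 25625190)))))
(S (nat_lit 27128) (S (nat_lit 19498) (S (nat_lit 15596) (S (nat_lit 4901) (S (nat_lit 3166) (S (nat_lit 18745) (L (nat_lit 5973433))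
(L (nat_lit 17980731)))
(L (nat_lit 20449595)))
(S (nat_lit 24665) (S (nat_lit 2893) (L (nat_lit 14977786))
(S (nat_lit 34386) (S (nat_lit 47564) (S (nat_lit 33632) (S (nat_lit 45848) (L (nat_lit 23081307))
(L (nat_lit 577448)))
(L (nat_lit 30693892)))
(L (nat_lit 20309136)))
(L (nat_lit 16081537))))
(S (nat_lit 44429) (S (nat_lit 17018) (S (nat_lit 36794) (S (nat_lit 3166) (S (nat_lit 44438) (L (nat_lit 29510123))
(L (nat_lit 23226668)))
(L (nat_lit 26364204)))
(L (nat_lit 23596345)))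
(L (nat_lit 22549384)))
(L (nat_lit 25317644)))))
(S (nat_lit 35360) (S (nat_lit 7367) (S (nat_lit 8998) (S (nat_lit 18745) (S (nat_lit 56561) (S (nat_lit 3166) (L (nat_lit 553672))
(L (nat_lit 8938213)))
(L (nat_lit 6447506)))
(L (nat_lit 9134157)))
(S (nat_lit 40253) (L (nat_lit 6475290))
(L (nat_lit 21127657))))
(S (nat_lit 27131) (S (nat_lit 41047) (S (nat_lit 43460) (S (nat_lit 32946) (S (nat_lit 52441) (S (nat_lit 47564) (L (nat_lit 22423459))
(L (nat_lit 20309508)))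
(L (nat_lit 9160449)))
(L (nat_lit 9962357)))
(L (nat_lit 8574799)))
(L (nat_lit 18042691)))
(S (nat_lit 46895) (S (nat_lit 3166) (S (nat_lit 0) (L (nat_lit 9588656))
(L (nat_lit 418003)))
(L (nat_lit 8938549)))
(L (nat_lit 25482352)))))
(S (nat_lit 55124) (S (nat_lit 13183) (S (nat_lit 47564) (S (nat_lit 42027) (S (nat_lit 51020) (L (nat_lit 1517272))
(L (nat_lit 11953171)))
(L (nat_lit 13997907)))
(L (nat_lit 6710451)))
(S (nat_lit 32947) (S (nat_lit 17024) (S (nat_lit 14631) (L (nat_lit 10279425))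
(L (nat_lit 24200408)))
(S (nat_lit 45812) (L (nat_lit 19214520))
(L (nat_lit 26739304))))
(S (nat_lit 52711) (S (nat_lit 22273) (S (nat_lit 24671) (S (nat_lit 19494) (L (nat_lit 2022767))
(L (nat_lit 11626225)))
(L (nat_lit 21267003)))
(L (nat_lit 18605096)))
(L (nat_lit 25821518)))))
(L (nat_lit 25732675)))))
(S (nat_lit 39262) (S (nat_lit 3941) (S (nat_lit 9755) (S (nat_lit 12174) (S (nat_lit 8045) (S (nat_lit 45197) (L (nat_lit 15565415))
(L (nat_lit 24512760)))
(L (nat_lit 21373860)))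
(S (nat_lit 41177) (L (nat_lit 15341481))
(L (nat_lit 10997667))))
(S (nat_lit 29519) (S (nat_lit 6254) (L (nat_lit 13721478))
(S (nat_lit 14622) (S (nat_lit 50036) (S (nat_lit 29512) (S (nat_lit 51686) (S (nat_lit 2500) (L (nat_lit 3523165))
(L (nat_lit 15029152)))
(L (nat_lit 12767482)))
(L (nat_lit 12755858)))
(L (nat_lit 8842259)))
(L (nat_lit 1682348))))
(S (nat_lit 49283) (S (nat_lit 51029) (S (nat_lit 54159) (L (nat_lit 29499829))
(L (nat_lit 18649301)))
(L (nat_lit 13215768)))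
(L (nat_lit 25350633)))))
(S (nat_lit 23705) (S (nat_lit 758) (S (nat_lit 46118) (S (nat_lit 54160) (L (nat_lit 6070864))
(L (nat_lit 5743382)))
(L (nat_lit 10974852)))
(S (nat_lit 20522) (S (nat_lit 22930) (S (nat_lit 12175) (L (nat_lit 5822776))
(L (nat_lit 10662807)))
(L (nat_lit 31008881)))
(S (nat_lit 40286) (S (nat_lit 46118) (S (nat_lit 18745) (S (nat_lit 53405) (S (nat_lit 8997) (L (nat_lit 8577741))
(L (nat_lit 14935716)))
(L (nat_lit 6135376)))
(L (nat_lit 18457473)))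
(L (nat_lit 22845828)))
(L (nat_lit 25855367)))))
(S (nat_lit 43469) (S (nat_lit 17987) (S (nat_lit 40286) (S (nat_lit 46886) (S (nat_lit 8997) (S (nat_lit 22263) (S (nat_lit 18745) (L (nat_lit 30118407))
(L (nat_lit 16114244)))
(L (nat_lit 6075078)))
(L (nat_lit 6972836)))
(L (nat_lit 17097843)))
(L (nat_lit 24326200)))
(S (nat_lit 37751) (S (nat_lit 13182) (S (nat_lit 14615) (S (nat_lit 22263) (L (nat_lit 29558291))
(L (nat_lit 13423972)))
(L (nat_lit 1531782)))
(S (nat_lit 32746) (L (nat_lit 13410454))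
(L (nat_lit 6481431))))
(S (nat_lit 57515) (S (nat_lit 42020) (S (nat_lit 36794) (S (nat_lit 39266) (L (nat_lit 21763278))
(L (nat_lit 10971778)))
(L (nat_lit 23215417)))
(L (nat_lit 23566392)))
(L (nat_lit 25281842)))))
(L (nat_lit 25834536)))))
(S (nat_lit 59026) (S (nat_lit 3941) (S (nat_lit 3166) (S (nat_lit 18745) (S (nat_lit 53405) (S (nat_lit 46886) (S (nat_lit 15596) (L (nat_lit 28879588))
(L (nat_lit 14854068)))
(L (nat_lit 17097811)))
(L (nat_lit 19292452)))
(S (nat_lit 58108) (L (nat_lit 26258000))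
(L (nat_lit 9015181))))
(S (nat_lit 20734) (S (nat_lit 22678) (L (nat_lit 26385847))
(L (nat_lit 8545996)))
(L (nat_lit 8938548))))
(S (nat_lit 23705) (S (nat_lit 19502) (S (nat_lit 14631) (S (nat_lit 39529) (L (nat_lit 28712644))
(L (nat_lit 18417577)))
(L (nat_lit 24986761)))
(S (nat_lit 39266) (S (nat_lit 6593) (L (nat_lit 10509136))
(L (nat_lit 13197386)))
(S (nat_lit 59030) (S (nat_lit 19995) (L (nat_lit 18885081))
(S (nat_lit 32946) (S (nat_lit 31930) (L (nat_lit 11079096))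
(L (nat_lit 24985828)))
(L (nat_lit 2479676))))
(L (nat_lit 25187532)))))
(S (nat_lit 43469) (S (nat_lit 17033) (S (nat_lit 16340) (S (nat_lit 17018) (L (nat_lit 13787380))
(L (nat_lit 11687821)))
(S (nat_lit 29925) (L (nat_lit 24209801))
(L (nat_lit 14803657))))
(S (nat_lit 36797) (S (nat_lit 47573) (S (nat_lit 18745) (S (nat_lit 41047) (L (nat_lit 15888104))
(L (nat_lit 5786841)))
(L (nat_lit 22555521)))
(L (nat_lit 22470824)))
(S (nat_lit 56561) (S (nat_lit 16907) (S (nat_lit 31930) (L (nat_lit 2673480))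
(L (nat_lit 19743012)))
(S (nat_lit 51693) (S (nat_lit 36794) (L (nat_lit 20080168))
(L (nat_lit 20231321)))
(L (nat_lit 13534824))))
(L (nat_lit 25474755)))))
(L (nat_lit 25495030)))))
(L (nat_lit 25759242)))))
(S (nat_lit 46892) (S (nat_lit 2509) (S (nat_lit 10508) (S (nat_lit 12166) (S (nat_lit 5669) (S (nat_lit 14054) (L (nat_lit 19085372))
(L (nat_lit 18733413)))
(L (nat_lit 18083863)))
(S (nat_lit 31930) (S (nat_lit 8998) (S (nat_lit 3166) (L (nat_lit 6475163))
(L (nat_lit 20390821)))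
(L (nat_lit 17439653)))
(S (nat_lit 51694) (S (nat_lit 8997) (S (nat_lit 3932) (L (nat_lit 3527229))
(L (nat_lit 17476513)))
(S (nat_lit 14334) (L (nat_lit 10176417))
(L (nat_lit 21218210))))
(L (nat_lit 25832836)))))
(S (nat_lit 30272) (S (nat_lit 2508) (S (nat_lit 18745) (S (nat_lit 3166) (S (nat_lit 3932) (S (nat_lit 29515) (L (nat_lit 20101926))
(L (nat_lit 18012541)))
(L (nat_lit 3000038)))
(L (nat_lit 19671461)))
(L (nat_lit 26762529)))
(S (nat_lit 22272) (S (nat_lit 14622) (S (nat_lit 11501) (S (nat_lit 29511) (L (nat_lit 937296))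
(L (nat_lit 18590594)))
(L (nat_lit 18754210)))
(L (nat_lit 13216672)))
(S (nat_lit 42036) (S (nat_lit 3932) (S (nat_lit 13182) (S (nat_lit 36797) (L (nat_lit 28325607))
(L (nat_lit 23529384)))
(L (nat_lit 24490136)))
(L (nat_lit 19743848)))
(L (nat_lit 25934887)))))
(S (nat_lit 50036) (S (nat_lit 3166) (S (nat_lit 3932) (S (nat_lit 2508) (S (nat_lit 59023) (L (nat_lit 291567))
(L (nat_lit 14882553)))
(L (nat_lit 19802158)))
(S (nat_lit 23612) (L (nat_lit 5122515))
(L (nat_lit 18885549))))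
(L (nat_lit 20390821)))
(L (nat_lit 25792902)))))
(S (nat_lit 22273) (S (nat_lit 4907) (S (nat_lit 3166) (S (nat_lit 43460) (S (nat_lit 22272) (L (nat_lit 30484979))
(L (nat_lit 18557050)))
(L (nat_lit 24947169)))
(L (nat_lit 20065196)))
(S (nat_lit 24671) (S (nat_lit 0) (S (nat_lit 8683) (L (nat_lit 311188))
(S (nat_lit 44438) (S (nat_lit 55865) (S (nat_lit 34387) (S (nat_lit 47564) (L (nat_lit 30026242))
(L (nat_lit 6204017)))
(L (nat_lit 31042050)))
(L (nat_lit 16047256)))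
(L (nat_lit 830126))))
(S (nat_lit 19764) (S (nat_lit 32281) (L (nat_lit 8936259))
(S (nat_lit 47564) (S (nat_lit 46121) (S (nat_lit 9748) (S (nat_lit 54159) (L (nat_lit 29510897))
(L (nat_lit 17916181)))
(L (nat_lit 4598583)))
(L (nat_lit 22329220)))
(L (nat_lit 22449368))))
(S (nat_lit 39528) (S (nat_lit 15925) (L (nat_lit 18795561))
(S (nat_lit 47564) (S (nat_lit 3166) (S (nat_lit 55865) (S (nat_lit 18745) (L (nat_lit 28977328))
(L (nat_lit 22570276)))
(L (nat_lit 14428242)))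
(L (nat_lit 17425632)))
(L (nat_lit 18575496))))
(L (nat_lit 25611271)))))
(S (nat_lit 44435) (S (nat_lit 36788) (S (nat_lit 14623) (S (nat_lit 3166) (S (nat_lit 44438) (S (nat_lit 40286) (S (nat_lit 29511) (S (nat_lit 11501) (L (nat_lit 28354192))
(L (nat_lit 26913154)))
(L (nat_lit 18623172)))
(L (nat_lit 18492325)))
(L (nat_lit 23210796)))
(L (nat_lit 26356428)))
(L (nat_lit 13216674)))
(L (nat_lit 23603225)))
(L (nat_lit 25831906)))))
(S (nat_lit 42037) (S (nat_lit 4895) (S (nat_lit 3166) (S (nat_lit 1518) (S (nat_lit 17987) (S (nat_lit 1519) (S (nat_lit 12913) (L (nat_lit 29593045))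
(L (nat_lit 26744487)))
(L (nat_lit 26758403)))
(L (nat_lit 8143924)))
(L (nat_lit 26758401)))
(S (nat_lit 57925) (L (nat_lit 18204764))
(L (nat_lit 20080102))))
(S (nat_lit 24659) (S (nat_lit 15596) (S (nat_lit 42028) (S (nat_lit 5669) (S (nat_lit 12912) (L (nat_lit 24255897))
(L (nat_lit 21029137)))
(L (nat_lit 10564348)))
(L (nat_lit 27313896)))
(S (nat_lit 35360) (S (nat_lit 52441) (S (nat_lit 12165) (S (nat_lit 54160) (L (nat_lit 20778442))
(L (nat_lit 9136675)))
(L (nat_lit 9179825)))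
(L (nat_lit 27793066)))
(S (nat_lit 55124) (S (nat_lit 59030) (S (nat_lit 12165) (L (nat_lit 10678677))
(L (nat_lit 11062181)))
(L (nat_lit 27870216)))
(L (nat_lit 25174452)))))
(S (nat_lit 44423) (S (nat_lit 4) (S (nat_lit 56552) (S (nat_lit 12158) (L (nat_lit 1583864))
(L (nat_lit 11287571)))
(L (nat_lit 27407046)))
(S (nat_lit 19768) (S (nat_lit 8998) (S (nat_lit 13183) (S (nat_lit 36788) (L (nat_lit 5775100))
(L (nat_lit 10640303)))
(L (nat_lit 13787048)))
(L (nat_lit 21498792)))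
(S (nat_lit 39532) (S (nat_lit 18745) (S (nat_lit 27122) (S (nat_lit 6797) (L (nat_lit 4963144))
(L (nat_lit 20475915)))
(L (nat_lit 12083315)))
(L (nat_lit 22405572)))
(L (nat_lit 25795043)))))
(L (nat_lit 25709643)))))
(L (nat_lit 25923048)))))
(L (nat_lit 25466259)))))
(S (nat_lit 27116) (S (nat_lit 12165) (S (nat_lit 14623) (S (nat_lit 10508) (S (nat_lit 7358) (S (nat_lit 29511) (S (nat_lit 40289) (S (nat_lit 58273) (L (nat_lit 19341436))
(L (nat_lit 13215833)))
(L (nat_lit 23145361)))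
(L (nat_lit 18582410)))
(S (nat_lit 27122) (S (nat_lit 43469) (S (nat_lit 6323) (S (nat_lit 13182) (L (nat_lit 12710470))
(L (nat_lit 24260984)))
(L (nat_lit 6049192)))
(S (nat_lit 44009) (L (nat_lit 16493315))
(L (nat_lit 6871873))))
(S (nat_lit 46886) (S (nat_lit 44435) (S (nat_lit 9751) (S (nat_lit 17024) (L (nat_lit 3004782))
(L (nat_lit 26761441)))
(L (nat_lit 26577649)))
(L (nat_lit 10640302)))
(L (nat_lit 25484740)))))
(S (nat_lit 30272) (S (nat_lit 8997) (S (nat_lit 39529) (S (nat_lit 22273) (L (nat_lit 6085162))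
(L (nat_lit 18733096)))
(L (nat_lit 5458862)))
(S (nat_lit 28761) (S (nat_lit 29519) (S (nat_lit 1519) (S (nat_lit 0) (L (nat_lit 12735399))
(L (nat_lit 13388001)))
(L (nat_lit 13348771)))
(L (nat_lit 24920353)))
(S (nat_lit 48525) (S (nat_lit 25433) (S (nat_lit 0) (S (nat_lit 26357) (L (nat_lit 5882730))
(L (nat_lit 15801945)))
(L (nat_lit 13205753)))
(L (nat_lit 16865531)))
(L (nat_lit 25365102)))))
(S (nat_lit 50036) (S (nat_lit 16340) (S (nat_lit 45188) (S (nat_lit 15596) (L (nat_lit 19163311))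
(L (nat_lit 24520579)))
(L (nat_lit 28033031)))
(S (nat_lit 36104) (S (nat_lit 58273) (S (nat_lit 17030) (L (nat_lit 467860))
(L (nat_lit 26976705)))
(L (nat_lit 13215833)))
(S (nat_lit 55868) (S (nat_lit 15605) (S (nat_lit 17024) (S (nat_lit 12912) (S (nat_lit 29512) (L (nat_lit 26972554))
(L (nat_lit 18189016)))
(L (nat_lit 18687589)))
(L (nat_lit 12340397)))
(L (nat_lit 7028611)))
(L (nat_lit 25825647)))))
(L (nat_lit 25868454)))))
(S (nat_lit 34387) (S (nat_lit 2509) (S (nat_lit 761) (S (nat_lit 42694) (L (nat_lit 28420501))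
(L (nat_lit 27798245)))
(L (nat_lit 20785605)))
(S (nat_lit 22273) (S (nat_lit 12158) (S (nat_lit 42036) (S (nat_lit 58273) (L (nat_lit 29960336))
(L (nat_lit 2730829)))
(L (nat_lit 27765474)))
(S (nat_lit 31922) (S (nat_lit 36788) (S (nat_lit 43460) (S (nat_lit 29511) (S (nat_lit 34386) (S (nat_lit 29512) (S (nat_lit 29515) (L (nat_lit 5087953))
(L (nat_lit 12757597)))
(L (nat_lit 6204113)))
(L (nat_lit 3615322)))
(L (nat_lit 24521604)))
(L (nat_lit 3550038)))
(L (nat_lit 17902201)))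
(S (nat_lit 51686) (S (nat_lit 14622) (S (nat_lit 47564) (S (nat_lit 51029) (L (nat_lit 5810874))
(L (nat_lit 22423640)))
(L (nat_lit 27699877)))
(L (nat_lit 13215896)))
(L (nat_lit 25445461)))))
(S (nat_lit 42037) (S (nat_lit 23696) (S (nat_lit 42036) (L (nat_lit 24259101))
(L (nat_lit 16590963)))
(L (nat_lit 21770280)))
(L (nat_lit 25614440)))))
(S (nat_lit 54151) (S (nat_lit 6593) (S (nat_lit 17987) (S (nat_lit 36104) (S (nat_lit 19495) (S (nat_lit 35369) (S (nat_lit 4907) (L (nat_lit 5532146))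
(L (nat_lit 18713195)))
(L (nat_lit 23258602)))
(L (nat_lit 6215146)))
(L (nat_lit 18721475)))
(L (nat_lit 18014922)))
(S (nat_lit 26357) (S (nat_lit 8) (S (nat_lit 44071) (L (nat_lit 18010489))
(S (nat_lit 59023) (S (nat_lit 54143) (S (nat_lit 22273) (S (nat_lit 54159) (S (nat_lit 55124) (S (nat_lit 32947) (S (nat_lit 17984) (L (nat_lit 16486779))
(L (nat_lit 15917803)))
(L (nat_lit 4037199)))
(L (nat_lit 3431183)))
(L (nat_lit 18653760)))
(L (nat_lit 8816344)))
(L (nat_lit 21802533)))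
(L (nat_lit 227053))))
(L (nat_lit 19268490)))
(S (nat_lit 46121) (S (nat_lit 16337) (S (nat_lit 47564) (S (nat_lit 36104) (S (nat_lit 24659) (L (nat_lit 29403604))
(L (nat_lit 17099488)))
(L (nat_lit 18492163)))
(S (nat_lit 49480) (L (nat_lit 22094297))
(L (nat_lit 18150052))))
(S (nat_lit 36101) (S (nat_lit 53396) (S (nat_lit 44423) (L (nat_lit 29415943))
(L (nat_lit 24394840)))
(L (nat_lit 18590874)))
(S (nat_lit 55865) (S (nat_lit 22273) (S (nat_lit 12174) (L (nat_lit 3612249))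
(L (nat_lit 18664741)))
(L (nat_lit 18667840)))
(L (nat_lit 25770121)))))
(L (nat_lit 25645163)))))
(L (nat_lit 25278678)))))
(S (nat_lit 31929) (S (nat_lit 8045) (S (nat_lit 2500) (S (nat_lit 4895) (S (nat_lit 3941) (S (nat_lit 56558) (S (nat_lit 7355) (S (nat_lit 27128) (L (nat_lit 10938053))
(L (nat_lit 7005572)))
(L (nat_lit 21281573)))
(L (nat_lit 19360097)))
(S (nat_lit 38858) (L (nat_lit 20105000))
(L (nat_lit 4878760))))
(S (nat_lit 24659) (S (nat_lit 52441) (S (nat_lit 45851) (S (nat_lit 24662) (S (nat_lit 31922) (L (nat_lit 28463562))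
(L (nat_lit 19802498)))
(L (nat_lit 4641019)))
(L (nat_lit 24430466)))
(L (nat_lit 27313431)))
(S (nat_lit 44423) (S (nat_lit 4) (S (nat_lit 50036) (S (nat_lit 52711) (L (nat_lit 1427192))
(L (nat_lit 17396872)))
(L (nat_lit 20789256)))
(S (nat_lit 39365) (S (nat_lit 46779) (L (nat_lit 6441836))
(L (nat_lit 15616136)))
(L (nat_lit 19084130))))
(L (nat_lit 25206510)))))
(S (nat_lit 22264) (S (nat_lit 13183) (S (nat_lit 36797) (L (nat_lit 15439784))
(L (nat_lit 12742248)))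
(L (nat_lit 22569128)))
(S (nat_lit 42028) (S (nat_lit 30272) (S (nat_lit 26084) (L (nat_lit 13305608))
(L (nat_lit 17373000)))
(L (nat_lit 13208488)))
(L (nat_lit 25211220)))))
(S (nat_lit 27809) (S (nat_lit 1518) (S (nat_lit 4) (S (nat_lit 0) (S (nat_lit 19502) (L (nat_lit 19033480))
(L (nat_lit 24207816)))
(L (nat_lit 13230305)))
(S (nat_lit 19768) (S (nat_lit 2508) (S (nat_lit 30269) (L (nat_lit 6206088))
(L (nat_lit 30905032)))
(L (nat_lit 19793383)))
(S (nat_lit 39532) (S (nat_lit 30269) (S (nat_lit 42028) (S (nat_lit 23705) (L (nat_lit 19047341))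
(L (nat_lit 583368)))
(L (nat_lit 24637544)))
(L (nat_lit 901832)))
(L (nat_lit 25414735)))))
(S (nat_lit 21282) (S (nat_lit 2492) (S (nat_lit 31922) (S (nat_lit 35360) (S (nat_lit 3932) (L (nat_lit 19031407))
(L (nat_lit 4860845)))
(L (nat_lit 30985258)))
(L (nat_lit 19743753)))
(S (nat_lit 22256) (S (nat_lit 1571) (L (nat_lit 7432876))
(S (nat_lit 19502) (S (nat_lit 51703) (L (nat_lit 11723282))
(L (nat_lit 12756668)))
(L (nat_lit 22503496))))
(S (nat_lit 42020) (S (nat_lit 44426) (S (nat_lit 59025) (S (nat_lit 42036) (S (nat_lit 30269) (S (nat_lit 34379) (S (nat_lit 47564) (S (nat_lit 16337) (L (nat_lit 3582649))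
(L (nat_lit 15295745)))
(L (nat_lit 18215059)))
(L (nat_lit 11296260)))
(L (nat_lit 30527944)))
(L (nat_lit 27765476)))
(L (nat_lit 19676389)))
(L (nat_lit 24646507)))
(L (nat_lit 25611307)))))
(S (nat_lit 41046) (S (nat_lit 42036) (S (nat_lit 19497) (S (nat_lit 37748) (S (nat_lit 47564) (L (nat_lit 5907217))
(L (nat_lit 27561584)))
(L (nat_lit 30903978)))
(S (nat_lit 25497) (L (nat_lit 24245799))
(L (nat_lit 24194895))))
(S (nat_lit 54996) (S (nat_lit 10196) (L (nat_lit 3029299))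
(L (nat_lit 30491955)))
(L (nat_lit 24970608))))
(L (nat_lit 25690322)))))
(S (nat_lit 47573) (S (nat_lit 13182) (S (nat_lit 2500) (S (nat_lit 6320) (S (nat_lit 17018) (L (nat_lit 28709512))
(L (nat_lit 4743080)))
(L (nat_lit 20759720)))
(S (nat_lit 22264) (S (nat_lit 7888) (L (nat_lit 18998696))
(S (nat_lit 42027) (S (nat_lit 19498) (S (nat_lit 6323) (L (nat_lit 29872482))
(L (nat_lit 19253058)))
(L (nat_lit 24600714)))
(L (nat_lit 24977892))))
(S (nat_lit 42028) (S (nat_lit 22273) (S (nat_lit 26084) (L (nat_lit 29542888))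
(L (nat_lit 17634888)))
(L (nat_lit 12969012)))
(L (nat_lit 25211625)))))
(S (nat_lit 32946) (S (nat_lit 3) (S (nat_lit 43469) (S (nat_lit 22273) (S (nat_lit 28761) (L (nat_lit 11982693))
(L (nat_lit 13245282)))
(L (nat_lit 6072756)))
(L (nat_lit 14311528)))
(S (nat_lit 19767) (S (nat_lit 31922) (S (nat_lit 34379) (S (nat_lit 31265) (L (nat_lit 2746702))
(L (nat_lit 30868138)))
(L (nat_lit 20408488)))
(L (nat_lit 14571808)))
(S (nat_lit 39531) (S (nat_lit 28761) (S (nat_lit 14622) (S (nat_lit 21283) (S (nat_lit 758) (S (nat_lit 47564) (S (nat_lit 43469) (L (nat_lit 30515638))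
(L (nat_lit 8804472)))
(L (nat_lit 5632689)))
(L (nat_lit 895600)))
(L (nat_lit 7498479)))
(L (nat_lit 12408973)))
(L (nat_lit 12655414)))
(L (nat_lit 25599648)))))
(S (nat_lit 52710) (S (nat_lit 8) (S (nat_lit 13788) (L (nat_lit 19368872))
(S (nat_lit 55868) (S (nat_lit 11492) (S (nat_lit 22273) (L (nat_lit 28575340))
(L (nat_lit 12969012)))
(L (nat_lit 5944700)))
(L (nat_lit 19671427))))
(S (nat_lit 19772) (S (nat_lit 22264) (S (nat_lit 42027) (S (nat_lit 43469) (S (nat_lit 12175) (L (nat_lit 5597682))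
(L (nat_lit 16056955)))
(L (nat_lit 24289720)))
(L (nat_lit 24977828)))
(S (nat_lit 23128) (L (nat_lit 12206138))
(L (nat_lit 5624248))))
(S (nat_lit 39536) (S (nat_lit 17987) (S (nat_lit 54160) (S (nat_lit 14615) (L (nat_lit 11564597))
(L (nat_lit 22884486)))
(L (nat_lit 18172738)))
(L (nat_lit 18604170)))
(L (nat_lit 25610379)))))
(L (nat_lit 25833638)))))
(L (nat_lit 25580804)))))
(S (nat_lit 51693) (S (nat_lit 8997) (S (nat_lit 6593) (S (nat_lit 39314) (L (nat_lit 8532601))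
(S (nat_lit 58273) (S (nat_lit 14615) (S (nat_lit 19495) (S (nat_lit 758) (S (nat_lit 22273) (S (nat_lit 47564) (L (nat_lit 29410675))
(L (nat_lit 17852072)))
(L (nat_lit 13490280)))
(L (nat_lit 19391748)))
(L (nat_lit 24208938)))
(L (nat_lit 22536328)))
(L (nat_lit 640313))))
(S (nat_lit 26357) (S (nat_lit 13182) (S (nat_lit 36794) (S (nat_lit 6320) (S (nat_lit 27128) (S (nat_lit 9755) (S (nat_lit 14615) (L (nat_lit 10326768))
(L (nat_lit 14254984)))
(L (nat_lit 21840163)))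
(L (nat_lit 19046288)))
(L (nat_lit 5857768)))
(S (nat_lit 58690) (S (nat_lit 2766) (L (nat_lit 12837541))
(L (nat_lit 13206841)))
(L (nat_lit 23599193))))
(S (nat_lit 32946) (S (nat_lit 44426) (L (nat_lit 10643056))
(L (nat_lit 15520874)))
(S (nat_lit 52710) (S (nat_lit 42694) (S (nat_lit 51686) (S (nat_lit 48526) (L (nat_lit 10631869))
(L (nat_lit 27414897)))
(L (nat_lit 12757845)))
(L (nat_lit 25082085)))
(L (nat_lit 25690453)))))
(S (nat_lit 46121) (S (nat_lit 4898) (S (nat_lit 3813) (L (nat_lit 5792487))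
(S (nat_lit 54160) (S (nat_lit 42020) (S (nat_lit 49275) (L (nat_lit 29841667))
(L (nat_lit 4086096)))
(L (nat_lit 24985706)))
(L (nat_lit 7127219))))
(S (nat_lit 24662) (S (nat_lit 14976) (L (nat_lit 31138180))
(S (nat_lit 36794) (S (nat_lit 6320) (S (nat_lit 43460) (S (nat_lit 22264) (L (nat_lit 4792888))
(L (nat_lit 18645736)))
(L (nat_lit 27820776)))
(L (nat_lit 5857582)))
(L (nat_lit 20450617))))
(S (nat_lit 44426) (S (nat_lit 55133) (S (nat_lit 6590) (S (nat_lit 14615) (L (nat_lit 288337))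
(L (nat_lit 516008)))
(L (nat_lit 26529840)))
(L (nat_lit 11948152)))
(L (nat_lit 25867434)))))
(L (nat_lit 25473141)))))
(S (nat_lit 28761) (S (nat_lit 12166) (S (nat_lit 13182) (S (nat_lit 38509) (S (nat_lit 14631) (L (nat_lit 447801))
(L (nat_lit 13213849)))
(L (nat_lit 31147014)))
(S (nat_lit 32946) (S (nat_lit 31152) (L (nat_lit 26791203))
(S (nat_lit 42694) (S (nat_lit 48526) (L (nat_lit 21434684))
(L (nat_lit 15801170)))
(L (nat_lit 3697972))))
(S (nat_lit 52710) (S (nat_lit 44429) (S (nat_lit 3) (L (nat_lit 13239673))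
(L (nat_lit 13370022)))
(L (nat_lit 23594890)))
(L (nat_lit 25318764)))))
(S (nat_lit 31930) (S (nat_lit 761) (S (nat_lit 27131) (S (nat_lit 31939) (S (nat_lit 27119) (S (nat_lit 19494) (L (nat_lit 19045169))
(L (nat_lit 16344357)))
(L (nat_lit 7191236)))
(L (nat_lit 24634660)))
(L (nat_lit 19022601)))
(S (nat_lit 20525) (S (nat_lit 37859) (L (nat_lit 735482))
(S (nat_lit 58273) (S (nat_lit 2499) (S (nat_lit 19495) (L (nat_lit 26387120))
(L (nat_lit 24332033)))
(L (nat_lit 19327332)))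
(L (nat_lit 19305785))))
(S (nat_lit 40289) (S (nat_lit 758) (S (nat_lit 11501) (S (nat_lit 42694) (L (nat_lit 15346596))
(L (nat_lit 24395897)))
(L (nat_lit 18215586)))
(L (nat_lit 19736996)))
(L (nat_lit 25626279)))))
(S (nat_lit 51694) (S (nat_lit 9751) (S (nat_lit 53405) (S (nat_lit 16337) (S (nat_lit 758) (L (nat_lit 672583))
(L (nat_lit 19734949)))
(L (nat_lit 17378051)))
(L (nat_lit 18714930)))
(S (nat_lit 29515) (S (nat_lit 22273) (S (nat_lit 14615) (S (nat_lit 758) (L (nat_lit 29471305))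
(L (nat_lit 12968549)))
(L (nat_lit 24471076)))
(S (nat_lit 29866) (L (nat_lit 9452310))
(L (nat_lit 907628))))
(S (nat_lit 49279) (S (nat_lit 15605) (S (nat_lit 29511) (S (nat_lit 36101) (L (nat_lit 28492050))
(L (nat_lit 13406484)))
(L (nat_lit 7258818)))
(S (nat_lit 46794) (L (nat_lit 24292177))
(L (nat_lit 24685441))))
(L (nat_lit 25733138)))))
(L (nat_lit 25444434)))))
(S (nat_lit 48525) (S (nat_lit 1519) (S (nat_lit 19494) (S (nat_lit 1) (S (nat_lit 54151) (S (nat_lit 12913) (S (nat_lit 7355) (L (nat_lit 28495214))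
(L (nat_lit 12733225)))
(L (nat_lit 3693450)))
(L (nat_lit 7027459)))
(S (nat_lit 56496) (L (nat_lit 11723501))
(L (nat_lit 20341986))))
(S (nat_lit 39258) (S (nat_lit 39532) (S (nat_lit 47564) (S (nat_lit 14615) (L (nat_lit 11317428))
(L (nat_lit 14279848)))
(L (nat_lit 20374696)))
(L (nat_lit 18794787)))
(S (nat_lit 59022) (S (nat_lit 58273) (S (nat_lit 52710) (S (nat_lit 14622) (S (nat_lit 54151) (S (nat_lit 57512) (L (nat_lit 2994822))
(L (nat_lit 21937346)))
(L (nat_lit 27987151)))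
(L (nat_lit 895541)))
(L (nat_lit 18013563)))
(L (nat_lit 27895824)))
(L (nat_lit 25582761)))))
(S (nat_lit 21283) (S (nat_lit 53405) (S (nat_lit 31152) (S (nat_lit 56552) (L (nat_lit 5689661))
(L (nat_lit 19408922)))
(S (nat_lit 42694) (S (nat_lit 44426) (S (nat_lit 16337) (L (nat_lit 29465111))
(L (nat_lit 11451107)))
(L (nat_lit 24645882)))
(L (nat_lit 4115761))))
(S (nat_lit 56463) (L (nat_lit 24035616))
(L (nat_lit 8241732))))
(S (nat_lit 41047) (S (nat_lit 758) (S (nat_lit 15413) (L (nat_lit 14327555))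
(S (nat_lit 56546) (S (nat_lit 29519) (L (nat_lit 12404815))
(L (nat_lit 12802851)))
(L (nat_lit 8917842))))
(S (nat_lit 20522) (S (nat_lit 20525) (S (nat_lit 9755) (L (nat_lit 5096168))
(L (nat_lit 15542323)))
(L (nat_lit 2793979)))
(S (nat_lit 40286) (S (nat_lit 20525) (L (nat_lit 3975920))
(L (nat_lit 6769412)))
(L (nat_lit 25376356)))))
(L (nat_lit 25343189)))))
(L (nat_lit 25399732)))))
(L (nat_lit 25724520)))))
(S (nat_lit 46880) (S (nat_lit 3941) (S (nat_lit 2508) (S (nat_lit 2500) (S (nat_lit 22898) (L (nat_lit 14896005))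
(S (nat_lit 36101) (S (nat_lit 50036) (S (nat_lit 0) (S (nat_lit 43460) (S (nat_lit 2492) (S (nat_lit 38509) (S (nat_lit 54151) (L (nat_lit 4078314))
(L (nat_lit 16898265)))
(L (nat_lit 20476193)))
(L (nat_lit 7850913)))
(L (nat_lit 6997048)))
(L (nat_lit 14255353)))
(L (nat_lit 20035930)))
(L (nat_lit 20359321))))
(S (nat_lit 22264) (S (nat_lit 758) (S (nat_lit 36101) (L (nat_lit 2322839))
(L (nat_lit 5909327)))
(S (nat_lit 20522) (S (nat_lit 47564) (S (nat_lit 36101) (S (nat_lit 38509) (L (nat_lit 19202956))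
(L (nat_lit 20148240)))
(L (nat_lit 20359321)))
(L (nat_lit 5909329)))
(S (nat_lit 40286) (S (nat_lit 38509) (L (nat_lit 4933545))
(L (nat_lit 4825965)))
(L (nat_lit 25242192)))))
(S (nat_lit 42028) (S (nat_lit 5669) (S (nat_lit 4910) (S (nat_lit 36101) (S (nat_lit 22930) (S (nat_lit 47564) (S (nat_lit 36788) (L (nat_lit 28620819))
(L (nat_lit 17986802)))
(L (nat_lit 20359320)))
(L (nat_lit 18754245)))
(L (nat_lit 5909327)))
(S (nat_lit 47521) (L (nat_lit 10629721))
(L (nat_lit 4010295))))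
(S (nat_lit 25433) (S (nat_lit 42027) (L (nat_lit 26547948))
(L (nat_lit 12392174)))
(S (nat_lit 45197) (S (nat_lit 42027) (L (nat_lit 15758055))
(L (nat_lit 12399330)))
(L (nat_lit 25483650)))))
(L (nat_lit 25892177)))))
(S (nat_lit 22272) (S (nat_lit 7367) (S (nat_lit 9755) (S (nat_lit 26658) (L (nat_lit 9456560))
(S (nat_lit 49276) (S (nat_lit 22930) (S (nat_lit 22273) (L (nat_lit 27374965))
(L (nat_lit 21335549)))
(L (nat_lit 17967988)))
(L (nat_lit 20324508))))
(S (nat_lit 29519) (S (nat_lit 29512) (S (nat_lit 29515) (S (nat_lit 5669) (S (nat_lit 22930) (L (nat_lit 21458986))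
(L (nat_lit 31041585)))
(L (nat_lit 18608199)))
(L (nat_lit 18215653)))
(L (nat_lit 18208920)))
(S (nat_lit 49283) (S (nat_lit 22930) (S (nat_lit 40286) (L (nat_lit 21113274))
(L (nat_lit 18655813)))
(L (nat_lit 18688053)))
(L (nat_lit 25936097)))))
(S (nat_lit 27131) (S (nat_lit 10505) (S (nat_lit 16394) (L (nat_lit 4776180))
(S (nat_lit 52710) (S (nat_lit 50036) (S (nat_lit 2500) (L (nat_lit 16840391))
(L (nat_lit 5132712)))
(L (nat_lit 27759336)))
(L (nat_lit 5821821))))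
(S (nat_lit 30269) (S (nat_lit 32947) (S (nat_lit 28762) (S (nat_lit 56552) (L (nat_lit 26644851))
(L (nat_lit 27798211)))
(L (nat_lit 13457760)))
(L (nat_lit 30933363)))
(S (nat_lit 50033) (S (nat_lit 2369) (L (nat_lit 12238596))
(S (nat_lit 38509) (S (nat_lit 15928) (L (nat_lit 18023160))
(L (nat_lit 12744051)))
(L (nat_lit 4845805))))
(L (nat_lit 25279112)))))
(S (nat_lit 46895) (S (nat_lit 5660) (S (nat_lit 38509) (S (nat_lit 36101) (L (nat_lit 5786408))
(L (nat_lit 6144745)))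
(L (nat_lit 20883908)))
(S (nat_lit 25424) (S (nat_lit 44423) (L (nat_lit 12744053))
(L (nat_lit 13408994)))
(S (nat_lit 45188) (S (nat_lit 29515) (S (nat_lit 4895) (S (nat_lit 39258) (S (nat_lit 22273) (S (nat_lit 12912) (L (nat_lit 3924456))
(L (nat_lit 6115721)))
(L (nat_lit 5629676)))
(L (nat_lit 30813923)))
(L (nat_lit 18684640)))
(L (nat_lit 6044390)))
(L (nat_lit 25930830)))))
(L (nat_lit 25465299)))))
(S (nat_lit 42036) (S (nat_lit 1) (S (nat_lit 7358) (S (nat_lit 3932) (S (nat_lit 46121) (L (nat_lit 23505699))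
(L (nat_lit 12453617)))
(L (nat_lit 20775334)))
(S (nat_lit 27122) (S (nat_lit 22273) (S (nat_lit 6593) (S (nat_lit 39536) (L (nat_lit 1563001))
(L (nat_lit 5163376)))
(L (nat_lit 14484789)))
(L (nat_lit 18648808)))
(S (nat_lit 46886) (S (nat_lit 22273) (S (nat_lit 8) (L (nat_lit 22066057))
(L (nat_lit 20153265)))
(L (nat_lit 18646760)))
(L (nat_lit 25345235)))))
(S (nat_lit 19765) (S (nat_lit 4895) (S (nat_lit 15923) (L (nat_lit 22348622))
(S (nat_lit 50036) (S (nat_lit 1519) (S (nat_lit 25424) (S (nat_lit 4898) (L (nat_lit 8967044))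
(L (nat_lit 19739842)))
(L (nat_lit 1368812)))
(L (nat_lit 12083939)))
(L (nat_lit 1912559))))
(S (nat_lit 24659) (S (nat_lit 23586) (L (nat_lit 27580430))
(S (nat_lit 42027) (S (nat_lit 20525) (S (nat_lit 19495) (S (nat_lit 36794) (L (nat_lit 12949147))
(L (nat_lit 18188116)))
(L (nat_lit 12469988)))
(L (nat_lit 21768676)))
(L (nat_lit 12398707))))
(S (nat_lit 44423) (S (nat_lit 50036) (S (nat_lit 19494) (S (nat_lit 4910) (L (nat_lit 3840506))
(L (nat_lit 15871831)))
(L (nat_lit 11998968)))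
(L (nat_lit 9243373)))
(L (nat_lit 25828800)))))
(S (nat_lit 39529) (S (nat_lit 31651) (L (nat_lit 2513671))
(S (nat_lit 38509) (S (nat_lit 20522) (S (nat_lit 30272) (L (nat_lit 10902371))
(L (nat_lit 5460909)))
(L (nat_lit 12322199)))
(L (nat_lit 4832509))))
(L (nat_lit 25593077)))))
(L (nat_lit 25288048)))))
(S (nat_lit 23705) (S (nat_lit 4901) (S (nat_lit 6593) (S (nat_lit 17987) (S (nat_lit 19495) (S (nat_lit 46886) (S (nat_lit 19502) (S (nat_lit 19498) (S (nat_lit 22272) (S (nat_lit 39529) (S (nat_lit 34379) (L (nat_lit 2566067))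
(L (nat_lit 11272784)))
(L (nat_lit 18476227)))
(L (nat_lit 5757274)))
(L (nat_lit 9921683)))
(L (nat_lit 6204884)))
(L (nat_lit 5937656)))
(L (nat_lit 5916426)))
(L (nat_lit 17949386)))
(S (nat_lit 26357) (S (nat_lit 14631) (S (nat_lit 36794) (S (nat_lit 40286) (L (nat_lit 24125944))
(L (nat_lit 18523044)))
(L (nat_lit 6103789)))
(S (nat_lit 34395) (S (nat_lit 35360) (S (nat_lit 36794) (L (nat_lit 5778140))
(L (nat_lit 6022511)))
(L (nat_lit 6038157)))
(S (nat_lit 54159) (S (nat_lit 11492) (S (nat_lit 22256) (S (nat_lit 17984) (L (nat_lit 3894762))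
(L (nat_lit 18635882)))
(L (nat_lit 17878890)))
(S (nat_lit 49219) (L (nat_lit 5786877))
(L (nat_lit 6174315))))
(L (nat_lit 25629257)))))
(S (nat_lit 46121) (S (nat_lit 17018) (S (nat_lit 22273) (S (nat_lit 6320) (S (nat_lit 23696) (L (nat_lit 13215866))
(L (nat_lit 18055931)))
(L (nat_lit 18650422)))
(S (nat_lit 35905) (L (nat_lit 5723514))
(L (nat_lit 6012280))))
(S (nat_lit 36782) (S (nat_lit 4214) (S (nat_lit 6158) (S (nat_lit 25035) (L (nat_lit 17371482))
(L (nat_lit 19734980)))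
(L (nat_lit 6081000)))
(S (nat_lit 6320) (S (nat_lit 36794) (S (nat_lit 34395) (S (nat_lit 19494) (L (nat_lit 798449))
(L (nat_lit 9901817)))
(L (nat_lit 20407465)))
(L (nat_lit 11028571)))
(L (nat_lit 17936182))))
(S (nat_lit 56546) (S (nat_lit 55124) (S (nat_lit 27128) (L (nat_lit 5830002))
(L (nat_lit 19015569)))
(L (nat_lit 21144058)))
(L (nat_lit 25253071)))))
(L (nat_lit 25664229)))))
(S (nat_lit 24665) (S (nat_lit 38509) (S (nat_lit 22930) (S (nat_lit 2509) (S (nat_lit 4910) (S (nat_lit 42020) (S (nat_lit 20522) (L (nat_lit 30465513))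
(L (nat_lit 22230916)))
(L (nat_lit 14021686)))
(L (nat_lit 26903051)))
(S (nat_lit 22273) (S (nat_lit 22256) (S (nat_lit 19764) (S (nat_lit 36101) (S (nat_lit 20522) (S (nat_lit 4910) (S (nat_lit 43460) (S (nat_lit 5660) (L (nat_lit 3582681))
(L (nat_lit 8874688)))
(L (nat_lit 9225955)))
(L (nat_lit 16053890)))
(L (nat_lit 31105073)))
(L (nat_lit 18150115)))
(L (nat_lit 22454145)))
(L (nat_lit 6011259)))
(S (nat_lit 42037) (S (nat_lit 4910) (S (nat_lit 17030) (S (nat_lit 47564) (L (nat_lit 5586648))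
(L (nat_lit 22985989)))
(L (nat_lit 5034285)))
(L (nat_lit 20785666)))
(L (nat_lit 25495276)))))
(L (nat_lit 5796148)))
(L (nat_lit 17735699)))
(S (nat_lit 44429) (S (nat_lit 11501) (S (nat_lit 1) (S (nat_lit 27809) (S (nat_lit 29512) (L (nat_lit 5643897))
(L (nat_lit 12755672)))
(L (nat_lit 14705875)))
(S (nat_lit 19765) (S (nat_lit 29519) (S (nat_lit 8045) (S (nat_lit 14623) (L (nat_lit 11274803))
(L (nat_lit 22096782)))
(L (nat_lit 12636040)))
(L (nat_lit 18623137)))
(S (nat_lit 39529) (S (nat_lit 39324) (L (nat_lit 9011984))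
(S (nat_lit 52440) (S (nat_lit 14623) (S (nat_lit 46883) (S (nat_lit 29512) (L (nat_lit 12594005))
(L (nat_lit 383448)))
(L (nat_lit 7890564)))
(L (nat_lit 13208458)))
(L (nat_lit 2553451))))
(L (nat_lit 25794575)))))
(S (nat_lit 31265) (S (nat_lit 5660) (S (nat_lit 52711) (S (nat_lit 41046) (L (nat_lit 11174833))
(L (nat_lit 24671371)))
(L (nat_lit 10677838)))
(S (nat_lit 25424) (S (nat_lit 5065) (L (nat_lit 12690356))
(S (nat_lit 20525) (S (nat_lit 29511) (S (nat_lit 54151) (S (nat_lit 30272) (L (nat_lit 2472758))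
(L (nat_lit 5746427)))
(L (nat_lit 5745305)))
(L (nat_lit 6202000)))
(L (nat_lit 31105476))))
(S (nat_lit 45188) (S (nat_lit 37831) (L (nat_lit 5727850))
(S (nat_lit 57515) (S (nat_lit 19498) (S (nat_lit 26084) (L (nat_lit 13182852))
(L (nat_lit 22889760)))
(L (nat_lit 17913674)))
(L (nat_lit 12703032))))
(L (nat_lit 25893248)))))
(S (nat_lit 51029) (S (nat_lit 22273) (S (nat_lit 21862) (S (nat_lit 22263) (L (nat_lit 771353))
(L (nat_lit 31170670)))
(S (nat_lit 51686) (S (nat_lit 3) (S (nat_lit 22263) (S (nat_lit 15596) (S (nat_lit 45851) (S (nat_lit 27809) (L (nat_lit 2339516))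
(L (nat_lit 15605941)))
(L (nat_lit 12775080)))
(L (nat_lit 2990671)))
(L (nat_lit 22061562)))
(L (nat_lit 20349240)))
(L (nat_lit 2677048))))
(S (nat_lit 23272) (L (nat_lit 5842328))
(L (nat_lit 353996))))
(L (nat_lit 25798732)))))
(L (nat_lit 25834635)))))
(S (nat_lit 43469) (S (nat_lit 17033) (S (nat_lit 5669) (S (nat_lit 14623) (S (nat_lit 10508) (S (nat_lit 49279) (L (nat_lit 7370294))
(L (nat_lit 27286054)))
(L (nat_lit 15620104)))
(S (nat_lit 34387) (S (nat_lit 46172) (L (nat_lit 19269912))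
(S (nat_lit 53396) (S (nat_lit 39259) (S (nat_lit 12158) (L (nat_lit 3910045))
(L (nat_lit 3942867)))
(L (nat_lit 7802707)))
(L (nat_lit 7755930))))
(S (nat_lit 54151) (S (nat_lit 6320) (S (nat_lit 12175) (L (nat_lit 5720998))
(L (nat_lit 5821755)))
(L (nat_lit 16533672)))
(L (nat_lit 25628298)))))
(S (nat_lit 25433) (S (nat_lit 8036) (S (nat_lit 53396) (L (nat_lit 29892260))
(L (nat_lit 7756549)))
(S (nat_lit 27800) (S (nat_lit 33641) (S (nat_lit 31929) (L (nat_lit 30555848))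
(L (nat_lit 16965480)))
(L (nat_lit 15443097)))
(S (nat_lit 47564) (S (nat_lit 22264) (S (nat_lit 36794) (S (nat_lit 6323) (S (nat_lit 1) (L (nat_lit 29839584))
(L (nat_lit 13197352)))
(L (nat_lit 5857704)))
(L (nat_lit 6012808)))
(L (nat_lit 18609256)))
(L (nat_lit 25206291)))))
(S (nat_lit 45197) (S (nat_lit 4898) (S (nat_lit 49279) (S (nat_lit 14631) (L (nat_lit 22061964))
(L (nat_lit 24977952)))
(L (nat_lit 27828800)))
(S (nat_lit 24662) (S (nat_lit 6593) (S (nat_lit 31930) (S (nat_lit 12165) (S (nat_lit 10508) (S (nat_lit 55133) (L (nat_lit 21302128))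
(L (nat_lit 10882900)))
(L (nat_lit 17490088)))
(L (nat_lit 16538632)))
(L (nat_lit 24985892)))
(L (nat_lit 859729)))
(S (nat_lit 44426) (S (nat_lit 42694) (L (nat_lit 15870585))
(L (nat_lit 24643833)))
(L (nat_lit 25596150)))))
(L (nat_lit 25173463)))))
(S (nat_lit 36797) (S (nat_lit 47573) (S (nat_lit 22264) (S (nat_lit 36782) (S (nat_lit 29511) (S (nat_lit 36794) (S (nat_lit 22273) (S (nat_lit 20525) (S (nat_lit 4898) (S (nat_lit 20522) (S (nat_lit 54160) (L (nat_lit 19067087))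
(L (nat_lit 21439298)))
(L (nat_lit 21439300)))
(L (nat_lit 16425730)))
(L (nat_lit 21439236)))
(L (nat_lit 13491304)))
(L (nat_lit 6005583)))
(L (nat_lit 6005648)))
(L (nat_lit 12741192)))
(L (nat_lit 22519864)))
(L (nat_lit 22470824)))
(S (nat_lit 56561) (S (nat_lit 16340) (S (nat_lit 47573) (S (nat_lit 20522) (L (nat_lit 5906842))
(L (nat_lit 3646073)))
(L (nat_lit 22421688)))
(S (nat_lit 36104) (S (nat_lit 36794) (S (nat_lit 9755) (S (nat_lit 8045) (L (nat_lit 20390817))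
(L (nat_lit 26256048)))
(L (nat_lit 17540001)))
(L (nat_lit 20456321)))
(S (nat_lit 55868) (S (nat_lit 10508) (S (nat_lit 22264) (S (nat_lit 31929) (S (nat_lit 22273) (L (nat_lit 30936776))
(L (nat_lit 18214624)))
(L (nat_lit 19161477)))
(L (nat_lit 17888968)))
(S (nat_lit 30272) (S (nat_lit 13183) (S (nat_lit 19768) (L (nat_lit 21487939))
(L (nat_lit 16347208)))
(L (nat_lit 22569128)))
(S (nat_lit 50036) (S (nat_lit 12165) (S (nat_lit 9747) (S (nat_lit 47573) (L (nat_lit 16425765))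
(L (nat_lit 27927077)))
(L (nat_lit 23258632)))
(L (nat_lit 3661736)))
(L (nat_lit 25659635)))))
(L (nat_lit 25400013)))))
(L (nat_lit 25693896)))))
(L (nat_lit 25336310)))))
(L (nat_lit 25343591)))))
(S (nat_lit 49278) (S (nat_lit 14615) (S (nat_lit 19502) (S (nat_lit 12166) (S (nat_lit 2509) (S (nat_lit 3932) (S (nat_lit 12165) (S (nat_lit 8997) (S (nat_lit 15596) (S (nat_lit 8045) (S (nat_lit 11492) (S (nat_lit 19765) (S (nat_lit 49279) (L (nat_lit 29759174))
(L (nat_lit 14471174)))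
(L (nat_lit 30821416)))
(L (nat_lit 16702474)))
(L (nat_lit 21766288)))
(L (nat_lit 14867370)))
(L (nat_lit 26696034)))
(S (nat_lit 51525) (L (nat_lit 5755723))
(L (nat_lit 15904694))))
(L (nat_lit 16963496)))
(S (nat_lit 22273) (S (nat_lit 13183) (S (nat_lit 36788) (S (nat_lit 23705) (L (nat_lit 30488136))
(L (nat_lit 12773064)))
(L (nat_lit 17982056)))
(L (nat_lit 22570152)))
(S (nat_lit 42037) (L (nat_lit 3925512))
(L (nat_lit 25221609)))))
(S (nat_lit 31930) (S (nat_lit 7358) (S (nat_lit 12158) (S (nat_lit 45197) (S (nat_lit 3932) (S (nat_lit 39259) (L (nat_lit 26609974))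
(L (nat_lit 1529738)))
(L (nat_lit 20327329)))
(L (nat_lit 13361442)))
(S (nat_lit 31922) (S (nat_lit 39259) (S (nat_lit 761) (S (nat_lit 6593) (L (nat_lit 29674574))
(L (nat_lit 13919813)))
(L (nat_lit 19343453)))
(S (nat_lit 39378) (L (nat_lit 26676499))
(L (nat_lit 14225287))))
(S (nat_lit 51686) (S (nat_lit 45197) (S (nat_lit 49283) (S (nat_lit 17987) (L (nat_lit 19169757))
(L (nat_lit 5759284)))
(L (nat_lit 20509737)))
(L (nat_lit 13435191)))
(L (nat_lit 25450880)))))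
(S (nat_lit 27122) (S (nat_lit 6320) (S (nat_lit 9747) (S (nat_lit 4) (S (nat_lit 59022) (L (nat_lit 29838692))
(L (nat_lit 6706299)))
(L (nat_lit 13198440)))
(L (nat_lit 26982472)))
(S (nat_lit 26084) (S (nat_lit 19765) (S (nat_lit 6593) (S (nat_lit 50036) (S (nat_lit 13183) (S (nat_lit 8036) (L (nat_lit 213940))
(L (nat_lit 12339344)))
(L (nat_lit 12772936)))
(L (nat_lit 3667528)))
(L (nat_lit 13918789)))
(L (nat_lit 4077128)))
(S (nat_lit 45848) (S (nat_lit 12165) (S (nat_lit 42036) (S (nat_lit 31256) (L (nat_lit 24908168))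
(L (nat_lit 31113290)))
(L (nat_lit 16079997)))
(S (nat_lit 52259) (L (nat_lit 14867208))
(L (nat_lit 18014088))))
(L (nat_lit 25348646)))))
(S (nat_lit 46886) (S (nat_lit 3932) (S (nat_lit 17018) (S (nat_lit 13183) (S (nat_lit 24671) (S (nat_lit 8998) (S (nat_lit 17987) (L (nat_lit 5119596))
(L (nat_lit 26461234)))
(L (nat_lit 17030053)))
(L (nat_lit 22341152)))
(L (nat_lit 22570152)))
(S (nat_lit 22135) (L (nat_lit 9594512))
(L (nat_lit 16920500))))
(S (nat_lit 23696) (S (nat_lit 42037) (L (nat_lit 4109032))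
(L (nat_lit 14440488)))
(S (nat_lit 43460) (S (nat_lit 13183) (S (nat_lit 42028) (S (nat_lit 56558) (S (nat_lit 27809) (S (nat_lit 56561) (L (nat_lit 26916935))
(L (nat_lit 6752148)))
(L (nat_lit 16651944)))
(L (nat_lit 19423368)))
(L (nat_lit 16488200)))
(L (nat_lit 22601896)))
(L (nat_lit 25838851)))))
(L (nat_lit 25701956)))))
(S (nat_lit 51694) (S (nat_lit 0) (S (nat_lit 7523) (S (nat_lit 46516) (L (nat_lit 5974928))
(L (nat_lit 26872265)))
(S (nat_lit 46886) (S (nat_lit 55124) (S (nat_lit 45851) (S (nat_lit 16337) (S (nat_lit 51020) (S (nat_lit 16180) (L (nat_lit 728849))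
(L (nat_lit 18015878)))
(L (nat_lit 2499192)))
(L (nat_lit 26643175)))
(L (nat_lit 27444872)))
(L (nat_lit 1361496)))
(L (nat_lit 7978884))))
(S (nat_lit 19764) (S (nat_lit 761) (S (nat_lit 19498) (S (nat_lit 37751) (S (nat_lit 46883) (L (nat_lit 28814980))
(L (nat_lit 10313124)))
(L (nat_lit 14489652)))
(L (nat_lit 22503562)))
(S (nat_lit 20525) (S (nat_lit 35369) (S (nat_lit 27122) (L (nat_lit 7735218))
(L (nat_lit 19128773)))
(L (nat_lit 13314169)))
(S (nat_lit 40289) (S (nat_lit 17018) (S (nat_lit 19765) (S (nat_lit 45188) (L (nat_lit 7820313))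
(L (nat_lit 10303202)))
(L (nat_lit 22250904)))
(L (nat_lit 22810829)))
(L (nat_lit 25363088)))))
(S (nat_lit 39528) (S (nat_lit 22272) (S (nat_lit 29515) (S (nat_lit 55865) (S (nat_lit 56561) (S (nat_lit 26357) (L (nat_lit 14363736))
(L (nat_lit 16325721)))
(L (nat_lit 21928323)))
(L (nat_lit 16321447)))
(L (nat_lit 225842)))
(L (nat_lit 18179122)))
(L (nat_lit 25396659)))))
(L (nat_lit 25287981)))))
(S (nat_lit 39266) (S (nat_lit 4901) (S (nat_lit 9751) (S (nat_lit 4910) (S (nat_lit 6593) (S (nat_lit 15596) (S (nat_lit 49197) (L (nat_lit 7143988))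
(L (nat_lit 26984802)))
(L (nat_lit 5091978)))
(S (nat_lit 32151) (L (nat_lit 6138541))
(L (nat_lit 23965771))))
(S (nat_lit 32069) (L (nat_lit 9275023))
(L (nat_lit 20820226))))
(S (nat_lit 29515) (S (nat_lit 2500) (S (nat_lit 35964) (L (nat_lit 5631566))
(L (nat_lit 11032450)))
(S (nat_lit 22264) (S (nat_lit 6323) (S (nat_lit 3932) (S (nat_lit 10508) (S (nat_lit 0) (L (nat_lit 5645916))
(L (nat_lit 12804146)))
(L (nat_lit 26710600)))
(L (nat_lit 10311075)))
(L (nat_lit 18663560)))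
(S (nat_lit 42028) (S (nat_lit 32947) (S (nat_lit 56558) (S (nat_lit 56552) (S (nat_lit 23705) (S (nat_lit 55865) (L (nat_lit 26389070))
(L (nat_lit 16523410)))
(L (nat_lit 18784963)))
(L (nat_lit 3847048)))
(L (nat_lit 1532648)))
(L (nat_lit 16548488)))
(L (nat_lit 25219436)))))
(S (nat_lit 49279) (S (nat_lit 7355) (S (nat_lit 45353) (S (nat_lit 3932) (S (nat_lit 56552) (S (nat_lit 4907) (L (nat_lit 21113708))
(L (nat_lit 20819488)))
(L (nat_lit 13785894)))
(L (nat_lit 19273608)))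
(S (nat_lit 49197) (L (nat_lit 2717063))
(L (nat_lit 26612296))))
(S (nat_lit 27119) (S (nat_lit 2508) (S (nat_lit 2509) (S (nat_lit 19494) (S (nat_lit 0) (S (nat_lit 58865) (L (nat_lit 4574683))
(L (nat_lit 24395648)))
(L (nat_lit 26811776)))
(L (nat_lit 24385081)))
(L (nat_lit 4926353)))
(S (nat_lit 20225) (L (nat_lit 20319050))
(L (nat_lit 20254608))))
(S (nat_lit 46883) (S (nat_lit 27276) (L (nat_lit 24417132))
(S (nat_lit 44438) (S (nat_lit 6323) (S (nat_lit 39258) (S (nat_lit 8) (L (nat_lit 24143217))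
(L (nat_lit 20373642)))
(L (nat_lit 7739130)))
(L (nat_lit 20719106)))
(L (nat_lit 27953674))))
(L (nat_lit 25476115)))))
(L (nat_lit 25365233)))))
(S (nat_lit 24665) (S (nat_lit 13868) (S (nat_lit 4907) (S (nat_lit 2509) (S (nat_lit 46121) (L (nat_lit 28661934))
(L (nat_lit 20001674)))
(L (nat_lit 20360069)))
(S (nat_lit 24671) (S (nat_lit 7367) (L (nat_lit 13786024))
(L (nat_lit 8918621)))
(S (nat_lit 44435) (S (nat_lit 1199) (L (nat_lit 1401584))
(S (nat_lit 8036) (S (nat_lit 35369) (S (nat_lit 39258) (L (nat_lit 7365233))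
(L (nat_lit 13852549)))
(L (nat_lit 12594034)))
(L (nat_lit 1784093))))
(L (nat_lit 25831970)))))
(S (nat_lit 33632) (S (nat_lit 19497) (S (nat_lit 3932) (S (nat_lit 2509) (S (nat_lit 24662) (L (nat_lit 3399227))
(L (nat_lit 22470826)))
(L (nat_lit 15036468)))
(S (nat_lit 28720) (L (nat_lit 26425522))
(L (nat_lit 16963464))))
(S (nat_lit 39261) (S (nat_lit 3166) (S (nat_lit 31922) (S (nat_lit 14631) (L (nat_lit 12868667))
(L (nat_lit 13214593)))
(L (nat_lit 4932921)))
(L (nat_lit 19999633)))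
(S (nat_lit 59025) (S (nat_lit 38598) (L (nat_lit 10392114))
(S (nat_lit 44438) (S (nat_lit 38509) (L (nat_lit 4482705))
(L (nat_lit 30858529)))
(L (nat_lit 14738058))))
(L (nat_lit 25630037)))))
(S (nat_lit 53396) (S (nat_lit 19497) (S (nat_lit 35360) (S (nat_lit 54160) (S (nat_lit 1) (S (nat_lit 39532) (S (nat_lit 34395) (L (nat_lit 5726421))
(L (nat_lit 7803482)))
(L (nat_lit 17747203)))
(L (nat_lit 20340931)))
(L (nat_lit 19227139)))
(L (nat_lit 10000025)))
(S (nat_lit 39261) (S (nat_lit 39259) (S (nat_lit 15605) (S (nat_lit 53405) (L (nat_lit 28710258))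
(L (nat_lit 10338948)))
(L (nat_lit 5093003)))
(L (nat_lit 14462628)))
(S (nat_lit 59025) (S (nat_lit 2524) (L (nat_lit 5727912))
(S (nat_lit 19495) (S (nat_lit 12912) (S (nat_lit 17987) (L (nat_lit 29690262))
(L (nat_lit 5825842)))
(L (nat_lit 9867156)))
(L (nat_lit 10044603))))
(L (nat_lit 25838915)))))
(L (nat_lit 25598597)))))
(S (nat_lit 44429) (S (nat_lit 17033) (S (nat_lit 10508) (S (nat_lit 1) (S (nat_lit 32947) (S (nat_lit 8036) (L (nat_lit 13782952))
(L (nat_lit 23891464)))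
(L (nat_lit 30954632)))
(L (nat_lit 1848904)))
(S (nat_lit 30272) (S (nat_lit 56546) (S (nat_lit 32947) (S (nat_lit 12165) (S (nat_lit 2509) (L (nat_lit 4539188))
(L (nat_lit 17534856)))
(L (nat_lit 23871496)))
(L (nat_lit 30553672)))
(L (nat_lit 19035560)))
(S (nat_lit 50036) (S (nat_lit 28762) (S (nat_lit 26084) (L (nat_lit 5661256))
(L (nat_lit 4705096)))
(L (nat_lit 24263528)))
(L (nat_lit 25432815)))))
(S (nat_lit 36797) (S (nat_lit 12175) (S (nat_lit 16340) (S (nat_lit 13868) (S (nat_lit 8036) (L (nat_lit 28465704))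
(L (nat_lit 23112592)))
(L (nat_lit 282512)))
(L (nat_lit 11417618)))
(S (nat_lit 31939) (S (nat_lit 44423) (S (nat_lit 1518) (L (nat_lit 12770216))
(L (nat_lit 20198553)))
(L (nat_lit 11420694)))
(S (nat_lit 51703) (S (nat_lit 3) (S (nat_lit 29512) (L (nat_lit 13182042))
(L (nat_lit 13341574)))
(L (nat_lit 13370674)))
(L (nat_lit 25428434)))))
(S (nat_lit 56561) (S (nat_lit 15596) (S (nat_lit 46883) (S (nat_lit 8036) (L (nat_lit 25038344))
(L (nat_lit 12947349)))
(L (nat_lit 22583320)))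
(S (nat_lit 35360) (S (nat_lit 1630) (L (nat_lit 6140584))
(S (nat_lit 16337) (L (nat_lit 29371117))
(L (nat_lit 8981295))))
(S (nat_lit 55124) (S (nat_lit 57515) (S (nat_lit 17018) (L (nat_lit 5026440))
(L (nat_lit 22503464)))
(L (nat_lit 11257730)))
(L (nat_lit 25564500)))))
(L (nat_lit 25464527)))))
(L (nat_lit 25600150)))))
(S (nat_lit 59030) (S (nat_lit 14631) (S (nat_lit 8997) (S (nat_lit 14623) (S (nat_lit 2075) (S (nat_lit 5669) (L (nat_lit 30871862))
(L (nat_lit 19341218)))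
(S (nat_lit 26087) (S (nat_lit 3932) (S (nat_lit 24671) (S (nat_lit 15596) (S (nat_lit 27809) (L (nat_lit 23486507))
(L (nat_lit 24494233)))
(L (nat_lit 4507572)))
(L (nat_lit 22980780)))
(L (nat_lit 4900742)))
(L (nat_lit 5064328))))
(S (nat_lit 34387) (S (nat_lit 761) (S (nat_lit 6593) (L (nat_lit 26678642))
(L (nat_lit 23552261)))
(L (nat_lit 20406469)))
(S (nat_lit 54151) (S (nat_lit 124) (L (nat_lit 3783591))
(S (nat_lit 11492) (S (nat_lit 12174) (L (nat_lit 26295507))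
(L (nat_lit 18173016)))
(L (nat_lit 21046190))))
(L (nat_lit 25668226)))))
(S (nat_lit 28761) (S (nat_lit 59022) (S (nat_lit 4002) (L (nat_lit 414969))
(S (nat_lit 59026) (S (nat_lit 36782) (S (nat_lit 37748) (S (nat_lit 14623) (S (nat_lit 33632) (S (nat_lit 52711) (L (nat_lit 14474378))
(L (nat_lit 27808904)))
(L (nat_lit 2960976)))
(L (nat_lit 22506631)))
(L (nat_lit 9246444)))
(L (nat_lit 18682440)))
(L (nat_lit 667065))))
(L (nat_lit 8868987)))
(S (nat_lit 48525) (S (nat_lit 26354) (S (nat_lit 59022) (S (nat_lit 59026) (S (nat_lit 37748) (S (nat_lit 36782) (S (nat_lit 26357) (S (nat_lit 40286) (S (nat_lit 36797) (S (nat_lit 12165) (L (nat_lit 3520123))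
(L (nat_lit 23637891)))
(L (nat_lit 23225581)))
(L (nat_lit 24193904)))
(L (nat_lit 30497073)))
(L (nat_lit 934100)))
(L (nat_lit 14389130)))
(L (nat_lit 8851251)))
(L (nat_lit 8851131)))
(L (nat_lit 24576249)))
(L (nat_lit 25377442)))))
(S (nat_lit 34395) (S (nat_lit 17030) (S (nat_lit 36797) (S (nat_lit 43469) (S (nat_lit 52711) (S (nat_lit 36782) (S (nat_lit 29511) (S (nat_lit 46118) (L (nat_lit 29820183))
(L (nat_lit 27742436)))
(L (nat_lit 31166984)))
(L (nat_lit 23556200)))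
(L (nat_lit 5860872)))
(L (nat_lit 14458999)))
(L (nat_lit 23602081)))
(S (nat_lit 36794) (S (nat_lit 36797) (S (nat_lit 36788) (S (nat_lit 36782) (S (nat_lit 3932) (S (nat_lit 3941) (S (nat_lit 18745) (S (nat_lit 31265) (L (nat_lit 5493613))
(L (nat_lit 19262476)))
(L (nat_lit 11353110)))
(L (nat_lit 14704520)))
(L (nat_lit 14702472)))
(L (nat_lit 18699304)))
(L (nat_lit 10576274)))
(L (nat_lit 20014632)))
(S (nat_lit 56558) (S (nat_lit 19768) (S (nat_lit 50033) (S (nat_lit 27809) (S (nat_lit 31938) (L (nat_lit 30114315))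
(L (nat_lit 1795528)))
(L (nat_lit 16475272)))
(L (nat_lit 22888520)))
(L (nat_lit 21836872)))
(L (nat_lit 25247090)))))
(S (nat_lit 54159) (S (nat_lit 13877) (S (nat_lit 55133) (S (nat_lit 37602) (L (nat_lit 27341483))
(S (nat_lit 51029) (S (nat_lit 52710) (S (nat_lit 34387) (S (nat_lit 42027) (S (nat_lit 4907) (L (nat_lit 28967366))
(L (nat_lit 7146062)))
(L (nat_lit 13965138)))
(L (nat_lit 16518791)))
(L (nat_lit 27623959)))
(L (nat_lit 10566485))))
(L (nat_lit 13656651)))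
(S (nat_lit 33641) (S (nat_lit 4910) (S (nat_lit 34387) (S (nat_lit 3) (S (nat_lit 46886) (S (nat_lit 55865) (L (nat_lit 28805703))
(L (nat_lit 16604295)))
(L (nat_lit 8195539)))
(L (nat_lit 20324160)))
(L (nat_lit 3612312)))
(S (nat_lit 24674) (S (nat_lit 2492) (S (nat_lit 36782) (S (nat_lit 36797) (L (nat_lit 18965869))
(L (nat_lit 30868722)))
(L (nat_lit 30871762)))
(L (nat_lit 17535883)))
(S (nat_lit 44438) (S (nat_lit 19768) (S (nat_lit 36782) (S (nat_lit 9747) (S (nat_lit 3932) (L (nat_lit 15501522))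
(L (nat_lit 17471368)))
(L (nat_lit 21389384)))
(L (nat_lit 13512323)))
(L (nat_lit 9864856)))
(L (nat_lit 25692438)))))
(S (nat_lit 53405) (S (nat_lit 4907) (S (nat_lit 14622) (S (nat_lit 40006) (S (nat_lit 43894) (S (nat_lit 26357) (L (nat_lit 7824567))
(L (nat_lit 3633898)))
(L (nat_lit 17633864)))
(L (nat_lit 10306113)))
(S (nat_lit 42850) (L (nat_lit 26902768))
(L (nat_lit 26847745))))
(L (nat_lit 17870429)))
(L (nat_lit 25925127)))))
(L (nat_lit 25895084)))))
(L (nat_lit 25836736)))))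
(S (nat_lit 34379) (S (nat_lit 6323) (S (nat_lit 8998) (S (nat_lit 12174) (S (nat_lit 47573) (L (nat_lit 21525512))
(L (nat_lit 16802408)))
(L (nat_lit 3814280)))
(S (nat_lit 28762) (S (nat_lit 19502) (S (nat_lit 8036) (L (nat_lit 970152))
(L (nat_lit 21773448)))
(L (nat_lit 5916552)))
(S (nat_lit 48526) (S (nat_lit 2508) (S (nat_lit 19495) (S (nat_lit 38915) (L (nat_lit 10023986))
(S (nat_lit 50033) (S (nat_lit 19768) (S (nat_lit 19494) (S (nat_lit 7367) (L (nat_lit 16059131))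
(L (nat_lit 11203013)))
(L (nat_lit 22101305)))
(L (nat_lit 16351512)))
(L (nat_lit 16519816))))
(S (nat_lit 39259) (S (nat_lit 40157) (L (nat_lit 10633043))
(S (nat_lit 46880) (S (nat_lit 3) (S (nat_lit 3932) (L (nat_lit 23311236))
(L (nat_lit 19437448)))
(L (nat_lit 26849568)))
(L (nat_lit 20154128))))
(S (nat_lit 59023) (S (nat_lit 46892) (S (nat_lit 3932) (S (nat_lit 36101) (S (nat_lit 25433) (L (nat_lit 2924050))
(L (nat_lit 22481145)))
(L (nat_lit 17932985)))
(L (nat_lit 20820006)))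
(L (nat_lit 20784548)))
(L (nat_lit 25445555)))))
(S (nat_lit 22272) (S (nat_lit 1518) (S (nat_lit 18672) (L (nat_lit 13707993))
(S (nat_lit 50033) (S (nat_lit 22256) (S (nat_lit 39262) (S (nat_lit 24674) (S (nat_lit 19768) (L (nat_lit 5465523))
(L (nat_lit 9483928)))
(L (nat_lit 21115193)))
(L (nat_lit 20391681)))
(L (nat_lit 18172025)))
(L (nat_lit 4014728))))
(S (nat_lit 21282) (S (nat_lit 29880) (L (nat_lit 16109347))
(S (nat_lit 49275) (S (nat_lit 50036) (S (nat_lit 7364) (L (nat_lit 29509935))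
(L (nat_lit 11014877)))
(L (nat_lit 20124557)))
(L (nat_lit 15756936))))
(S (nat_lit 41046) (S (nat_lit 909) (L (nat_lit 8434546))
(S (nat_lit 53405) (S (nat_lit 27116) (S (nat_lit 42694) (L (nat_lit 9596592))
(L (nat_lit 27732704)))
(L (nat_lit 19016561)))
(L (nat_lit 18158354))))
(L (nat_lit 25919756)))))
(S (nat_lit 42036) (S (nat_lit 12158) (S (nat_lit 3932) (S (nat_lit 27128) (S (nat_lit 8036) (L (nat_lit 23081736))
(L (nat_lit 26650803)))
(L (nat_lit 16635204)))
(L (nat_lit 20327329)))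
(S (nat_lit 31922) (S (nat_lit 622) (L (nat_lit 14735609))
(S (nat_lit 19768) (S (nat_lit 50033) (S (nat_lit 45188) (L (nat_lit 20164731))
(L (nat_lit 23556386)))
(L (nat_lit 3947144)))
(L (nat_lit 16665704))))
(S (nat_lit 51686) (S (nat_lit 50033) (S (nat_lit 34386) (S (nat_lit 33632) (L (nat_lit 22100776))
(L (nat_lit 20351289)))
(L (nat_lit 11133440)))
(S (nat_lit 57624) (L (nat_lit 16353594))
(L (nat_lit 16381064))))
(L (nat_lit 25896972)))))
(L (nat_lit 25902436)))))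
(L (nat_lit 25901161)))))
(S (nat_lit 26087) (S (nat_lit 761) (S (nat_lit 5669) (S (nat_lit 11492) (S (nat_lit 42694) (S (nat_lit 13877) (S (nat_lit 49276) (L (nat_lit 8061400))
(L (nat_lit 20325280)))
(L (nat_lit 11192196)))
(L (nat_lit 13708025)))
(S (nat_lit 31256) (S (nat_lit 3932) (S (nat_lit 53396) (S (nat_lit 56561) (L (nat_lit 8873697))
(L (nat_lit 16425857)))
(L (nat_lit 7792260)))
(L (nat_lit 20825192)))
(S (nat_lit 51020) (S (nat_lit 35369) (S (nat_lit 57512) (L (nat_lit 3678066))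
(L (nat_lit 11204066)))
(L (nat_lit 30820394)))
(L (nat_lit 25648450)))))
(S (nat_lit 25433) (S (nat_lit 8) (S (nat_lit 51694) (S (nat_lit 14623) (L (nat_lit 8270469))
(L (nat_lit 13717386)))
(L (nat_lit 22522905)))
(S (nat_lit 19772) (S (nat_lit 11588) (L (nat_lit 8401499))
(S (nat_lit 17987) (S (nat_lit 22256) (L (nat_lit 9964283))
(L (nat_lit 30756257)))
(L (nat_lit 22584162))))
(S (nat_lit 39536) (S (nat_lit 44438) (S (nat_lit 22256) (L (nat_lit 30876388))
(L (nat_lit 12930169)))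
(L (nat_lit 10936375)))
(L (nat_lit 25769284)))))
(S (nat_lit 45197) (S (nat_lit 5660) (S (nat_lit 3166) (S (nat_lit 3932) (L (nat_lit 2567094))
(L (nat_lit 15341448)))
(L (nat_lit 11035365)))
(S (nat_lit 25424) (S (nat_lit 9748) (S (nat_lit 46118) (S (nat_lit 54058) (L (nat_lit 9899737))
(L (nat_lit 8269942)))
(L (nat_lit 10974853)))
(L (nat_lit 11100608)))
(S (nat_lit 45188) (S (nat_lit 15465) (L (nat_lit 20284891))
(S (nat_lit 36794) (S (nat_lit 42028) (L (nat_lit 28935592))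
(L (nat_lit 24981544)))
(L (nat_lit 20067641))))
(L (nat_lit 25244919)))))
(L (nat_lit 25395606)))))
(S (nat_lit 20525) (S (nat_lit 1) (S (nat_lit 51693) (L (nat_lit 29759048))
(L (nat_lit 13308744)))
(S (nat_lit 19765) (S (nat_lit 39532) (S (nat_lit 29511) (L (nat_lit 28837544))
(L (nat_lit 31013000)))
(L (nat_lit 23462792)))
(S (nat_lit 39529) (S (nat_lit 8045) (L (nat_lit 3624872))
(S (nat_lit 27809) (S (nat_lit 30269) (S (nat_lit 51693) (S (nat_lit 8998) (L (nat_lit 5915560))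
(L (nat_lit 21435272)))
(L (nat_lit 27988424)))
(L (nat_lit 30529992)))
(S (nat_lit 47573) (S (nat_lit 26084) (S (nat_lit 56558) (L (nat_lit 26878032))
(L (nat_lit 27964552)))
(L (nat_lit 22202248)))
(L (nat_lit 25546276)))))
(L (nat_lit 25756878)))))
(S (nat_lit 40289) (S (nat_lit 13868) (S (nat_lit 4907) (S (nat_lit 11501) (S (nat_lit 21283) (L (nat_lit 5943120))
(L (nat_lit 7484276)))
(L (nat_lit 7821186)))
(S (nat_lit 24671) (S (nat_lit 3932) (S (nat_lit 56561) (S (nat_lit 54159) (L (nat_lit 28323383))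
(L (nat_lit 9324096)))
(L (nat_lit 14321544)))
(L (nat_lit 20486024)))
(S (nat_lit 44435) (S (nat_lit 12175) (S (nat_lit 39529) (S (nat_lit 5660) (L (nat_lit 26529282))
(L (nat_lit 20343008)))
(L (nat_lit 27898888)))
(L (nat_lit 11154308)))
(L (nat_lit 25700930)))))
(S (nat_lit 33632) (S (nat_lit 6320) (S (nat_lit 2499) (S (nat_lit 11501) (L (nat_lit 28641008))
(L (nat_lit 7221920)))
(L (nat_lit 20289424)))
(S (nat_lit 26084) (S (nat_lit 3932) (S (nat_lit 39532) (S (nat_lit 2499) (L (nat_lit 22131068))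
(L (nat_lit 15067186)))
(L (nat_lit 4831112)))
(L (nat_lit 16962440)))
(S (nat_lit 45848) (S (nat_lit 8636) (L (nat_lit 12944182))
(S (nat_lit 35461) (S (nat_lit 4047) (L (nat_lit 11441554))
(L (nat_lit 12624787)))
(L (nat_lit 1951464))))
(L (nat_lit 25797806)))))
(S (nat_lit 53396) (S (nat_lit 13182) (S (nat_lit 22263) (S (nat_lit 34386) (L (nat_lit 24481676))
(L (nat_lit 3058253)))
(L (nat_lit 30782180)))
(S (nat_lit 32946) (S (nat_lit 39532) (S (nat_lit 42028) (S (nat_lit 26084) (S (nat_lit 30269) (L (nat_lit 5123665))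
(L (nat_lit 7788633)))
(L (nat_lit 7916731)))
(L (nat_lit 23589216)))
(L (nat_lit 23462792)))
(S (nat_lit 52710) (S (nat_lit 35360) (S (nat_lit 12174) (L (nat_lit 3983784))
(L (nat_lit 23563144)))
(L (nat_lit 18093659)))
(L (nat_lit 25690453)))))
(L (nat_lit 25934116)))))
(L (nat_lit 25245319)))))
(S (nat_lit 45851) (S (nat_lit 7358) (S (nat_lit 12174) (S (nat_lit 19502) (S (nat_lit 17033) (S (nat_lit 3932) (S (nat_lit 50036) (S (nat_lit 56558) (L (nat_lit 19760520))
(L (nat_lit 1818536)))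
(L (nat_lit 27774984)))
(L (nat_lit 15570664)))
(L (nat_lit 24951816)))
(L (nat_lit 3626920)))
(S (nat_lit 31938) (S (nat_lit 10505) (S (nat_lit 36788) (L (nat_lit 3665544))
(L (nat_lit 23986568)))
(S (nat_lit 30269) (L (nat_lit 29955592))
(S (nat_lit 50033) (S (nat_lit 8036) (S (nat_lit 3932) (L (nat_lit 27984081))
(L (nat_lit 20825128)))
(L (nat_lit 12635016)))
(L (nat_lit 25279174)))))
(S (nat_lit 51702) (S (nat_lit 19765) (S (nat_lit 3941) (S (nat_lit 50036) (S (nat_lit 36794) (S (nat_lit 4) (S (nat_lit 8036) (L (nat_lit 23992801))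
(L (nat_lit 445352)))
(L (nat_lit 13421672)))
(L (nat_lit 20474952)))
(L (nat_lit 3783464)))
(L (nat_lit 2766728)))
(L (nat_lit 21835784)))
(L (nat_lit 25496177)))))
(S (nat_lit 27122) (S (nat_lit 17024) (S (nat_lit 19765) (S (nat_lit 19502) (S (nat_lit 28762) (S (nat_lit 10505) (S (nat_lit 51702) (S (nat_lit 3941) (L (nat_lit 28789831))
(L (nat_lit 15370120)))
(L (nat_lit 15649864)))
(L (nat_lit 15652936)))
(L (nat_lit 24670248)))
(L (nat_lit 22482824)))
(L (nat_lit 16352136)))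
(S (nat_lit 36788) (S (nat_lit 49275) (S (nat_lit 3932) (S (nat_lit 45848) (S (nat_lit 2509) (S (nat_lit 36794) (L (nat_lit 21051144))
(L (nat_lit 870856)))
(L (nat_lit 20378728)))
(L (nat_lit 23655592)))
(L (nat_lit 16798600)))
(L (nat_lit 4078216)))
(S (nat_lit 56552) (S (nat_lit 3932) (S (nat_lit 51693) (S (nat_lit 8036) (S (nat_lit 2509) (S (nat_lit 50036) (S (nat_lit 10505) (L (nat_lit 26910145))
(L (nat_lit 17470216)))
(L (nat_lit 27888008)))
(L (nat_lit 15435688)))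
(L (nat_lit 26626216)))
(L (nat_lit 20824072)))
(L (nat_lit 15570664)))
(L (nat_lit 25526893)))))
(S (nat_lit 46886) (S (nat_lit 15596) (S (nat_lit 8997) (S (nat_lit 926) (L (nat_lit 2679366))
(S (nat_lit 40289) (S (nat_lit 14632) (S (nat_lit 8) (S (nat_lit 13182) (S (nat_lit 36794) (L (nat_lit 12897401))
(L (nat_lit 20788296)))
(L (nat_lit 7865944)))
(L (nat_lit 12799908)))
(L (nat_lit 12831650)))
(L (nat_lit 17935255))))
(S (nat_lit 48360) (L (nat_lit 10949209))
(L (nat_lit 4923280))))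
(S (nat_lit 35360) (S (nat_lit 14622) (S (nat_lit 39528) (S (nat_lit 54160) (S (nat_lit 31256) (S (nat_lit 19497) (L (nat_lit 29756104))
(L (nat_lit 24585273)))
(L (nat_lit 10084366)))
(L (nat_lit 9027737)))
(L (nat_lit 17865307)))
(L (nat_lit 342617)))
(S (nat_lit 55124) (S (nat_lit 8997) (S (nat_lit 46892) (S (nat_lit 9751) (L (nat_lit 7518809))
(L (nat_lit 8971840)))
(L (nat_lit 20071768)))
(S (nat_lit 28761) (S (nat_lit 28762) (S (nat_lit 39258) (S (nat_lit 19502) (S (nat_lit 51693) (S (nat_lit 10505) (L (nat_lit 28724515))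
(L (nat_lit 21903432)))
(L (nat_lit 13472424)))
(L (nat_lit 18505800)))
(L (nat_lit 20125178)))
(S (nat_lit 52045) (L (nat_lit 10121696))
(L (nat_lit 9990263))))
(S (nat_lit 48525) (S (nat_lit 7355) (S (nat_lit 9747) (L (nat_lit 24384272))
(L (nat_lit 11340432)))
(L (nat_lit 11189028)))
(L (nat_lit 25365102)))))
(L (nat_lit 25480673)))))
(L (nat_lit 25802857)))))
(L (nat_lit 25726600)))))
(S (nat_lit 54143) (S (nat_lit 31929) (S (nat_lit 2509) (S (nat_lit 3932) (S (nat_lit 7358) (S (nat_lit 17030) (S (nat_lit 19494) (S (nat_lit 8036) (S (nat_lit 1519) (S (nat_lit 39532) (S (nat_lit 29519) (S (nat_lit 22264) (L (nat_lit 2516277))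
(L (nat_lit 9949304)))
(L (nat_lit 12141347)))
(L (nat_lit 12158767)))
(L (nat_lit 11723471)))
(L (nat_lit 13691093)))
(S (nat_lit 22291) (S (nat_lit 26084) (L (nat_lit 1701230))
(L (nat_lit 21829096)))
(L (nat_lit 25044453))))
(S (nat_lit 36794) (S (nat_lit 45848) (S (nat_lit 50033) (S (nat_lit 19765) (S (nat_lit 3941) (S (nat_lit 52711) (S (nat_lit 2500) (L (nat_lit 19012529))
(L (nat_lit 14741224)))
(L (nat_lit 4877832)))
(L (nat_lit 19271560)))
(L (nat_lit 4016520)))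
(L (nat_lit 20791432)))
(L (nat_lit 27838568)))
(S (nat_lit 56558) (S (nat_lit 8036) (S (nat_lit 19494) (S (nat_lit 26087) (S (nat_lit 39529) (S (nat_lit 10505) (S (nat_lit 6320) (L (nat_lit 7734875))
(L (nat_lit 15852104)))
(L (nat_lit 23584904)))
(L (nat_lit 18455459)))
(L (nat_lit 21534630)))
(L (nat_lit 26619621)))
(L (nat_lit 23522440)))
(L (nat_lit 25922861)))))
(S (nat_lit 27122) (S (nat_lit 59022) (S (nat_lit 8036) (S (nat_lit 5660) (S (nat_lit 1518) (S (nat_lit 13182) (S (nat_lit 2780) (S (nat_lit 456) (S (nat_lit 2400) (S (nat_lit 39531) (S (nat_lit 11492) (S (nat_lit 39392) (S (nat_lit 10203) (S (nat_lit 12913) (S (nat_lit 56558) (S (nat_lit 36104) (L (nat_lit 8883832))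
(L (nat_lit 31074691)))
(L (nat_lit 21871907)))
(S (nat_lit 32677) (S (nat_lit 16337) (S (nat_lit 16340) (L (nat_lit 3632498))
(L (nat_lit 15654243)))
(L (nat_lit 15654209)))
(L (nat_lit 25934922))))
(L (nat_lit 14603274)))
(L (nat_lit 28748983)))
(L (nat_lit 16361378)))
(L (nat_lit 17888562)))
(L (nat_lit 5562256)))
(L (nat_lit 18145156)))
(L (nat_lit 17935069)))
(L (nat_lit 13245345)))
(L (nat_lit 10368736)))
(S (nat_lit 25424) (S (nat_lit 41046) (S (nat_lit 32946) (S (nat_lit 52440) (S (nat_lit 45983) (S (nat_lit 15537) (S (nat_lit 28761) (S (nat_lit 44805) (S (nat_lit 31930) (S (nat_lit 55868) (S (nat_lit 23705) (L (nat_lit 2348911))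
(L (nat_lit 31077414)))
(L (nat_lit 8025473)))
(S (nat_lit 51694) (S (nat_lit 27131) (S (nat_lit 25433) (L (nat_lit 12622552))
(L (nat_lit 30868201)))
(L (nat_lit 30938857)))
(L (nat_lit 25336496))))
(L (nat_lit 17105563)))
(L (nat_lit 19020646)))
(L (nat_lit 29691600)))
(L (nat_lit 21345336)))
(L (nat_lit 14939220)))
(L (nat_lit 9295020)))
(L (nat_lit 4763475)))
(S (nat_lit 45188) (S (nat_lit 19767) (S (nat_lit 31922) (S (nat_lit 44537) (S (nat_lit 40649) (S (nat_lit 29511) (S (nat_lit 46251) (S (nat_lit 44426) (S (nat_lit 2492) (S (nat_lit 758) (S (nat_lit 15605) (S (nat_lit 29512) (L (nat_lit 5808889))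
(L (nat_lit 24515398)))
(L (nat_lit 22443115)))
(S (nat_lit 20522) (S (nat_lit 6593) (S (nat_lit 21283) (L (nat_lit 9548413))
(L (nat_lit 30623886)))
(L (nat_lit 7189061)))
(L (nat_lit 25526865))))
(L (nat_lit 19373987)))
(L (nat_lit 27934826)))
(L (nat_lit 16683254)))
(L (nat_lit 12802138)))
(L (nat_lit 28318167)))
(L (nat_lit 28710999)))
(L (nat_lit 24614759)))
(L (nat_lit 20985146)))
(L (nat_lit 25481228)))))
(S (nat_lit 39488) (L (nat_lit 15310725))
(L (nat_lit 26885381))))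
(L (nat_lit 2567931)))
(S (nat_lit 46886) (S (nat_lit 39258) (S (nat_lit 8036) (S (nat_lit 13877) (S (nat_lit 55865) (S (nat_lit 5669) (L (nat_lit 7420632))
(L (nat_lit 11241884)))
(L (nat_lit 13673332)))
(S (nat_lit 33641) (S (nat_lit 46880) (L (nat_lit 5533142))
(L (nat_lit 27828403)))
(S (nat_lit 53405) (S (nat_lit 45197) (S (nat_lit 40286) (S (nat_lit 36101) (L (nat_lit 8436410))
(L (nat_lit 17867666)))
(L (nat_lit 9914426)))
(L (nat_lit 9517786)))
(L (nat_lit 25858601)))))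
(S (nat_lit 36427) (L (nat_lit 26716215))
(L (nat_lit 10096561))))
(L (nat_lit 7948165)))
(L (nat_lit 25418865)))))
(L (nat_lit 19743848)))
(L (nat_lit 16898952)))
(L (nat_lit 14550696)))
(L (nat_lit 25287889)))))
(L (nat_lit 25928066)))))

theorem rb80_4 : run 4 lb80 [] tb80_4 kb80 (P4 4 5681 1059 6270 1059 1 0 0 0) [] = true := by
  decide +kernel

noncomputable def tb246_0_6 : Tr :=
(S (nat_lit 10935) (S (nat_lit 15356) (S (nat_lit 1257) (S (nat_lit 10999) (S (nat_lit 15371) (S (nat_lit 17571) (S (nat_lit 15309) (S (nat_lit 8810) (S (nat_lit 17538) (L (nat_lit 4779719))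
(L (nat_lit 6744215)))
(L (nat_lit 7524860)))
(L (nat_lit 24582913)))
(L (nat_lit 7260672)))
(S (nat_lit 35135) (S (nat_lit 64) (S (nat_lit 1991) (S (nat_lit 1944) (L (nat_lit 4942031))
(L (nat_lit 26849449)))
(L (nat_lit 14518647)))
(L (nat_lit 26977327)))
(S (nat_lit 54899) (S (nat_lit 38472) (S (nat_lit 21739) (L (nat_lit 19733953))
(L (nat_lit 21934119)))
(S (nat_lit 48290) (S (nat_lit 19839) (S (nat_lit 28512) (S (nat_lit 48307) (S (nat_lit 50505) (S (nat_lit 15309) (S (nat_lit 64) (S (nat_lit 19795) (S (nat_lit 40818) (S (nat_lit 41497) (S (nat_lit 21739) (S (nat_lit 39070) (S (nat_lit 35087) (S (nat_lit 30713) (S (nat_lit 37285) (S (nat_lit 21507) (S (nat_lit 58585) (S (nat_lit 10192) (S (nat_lit 22859) (S (nat_lit 11329) (S (nat_lit 50904) (S (nat_lit 3112) (S (nat_lit 46544) (S (nat_lit 11999) (D (nat_lit 13) (nat_lit 30857476) (nat_lit 805100) (nat_lit 5474780327))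
(L (nat_lit 27934979)))
(L (nat_lit 30130315)))
(L (nat_lit 30064867)))
(L (nat_lit 30130405)))
(L (nat_lit 27967813)))
(S (nat_lit 55261) (S (nat_lit 51818) (S (nat_lit 4343) (D (nat_lit 15) (nat_lit 31110404) (nat_lit 25761101) (nat_lit 111702807719))
(L (nat_lit 31079650)))
(L (nat_lit 21839077)))
(L (nat_lit 4743913))))
(L (nat_lit 15959642)))
(L (nat_lit 28397991)))
(L (nat_lit 5585660)))
(L (nat_lit 20134690)))
(L (nat_lit 9139717)))
(L (nat_lit 2565042)))
(L (nat_lit 28564960)))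
(L (nat_lit 4444079)))
(L (nat_lit 18417881)))
(L (nat_lit 23388204)))
(L (nat_lit 30672372)))
(L (nat_lit 7256675)))
(L (nat_lit 761304)))
(L (nat_lit 27797089)))
(L (nat_lit 15802167)))
(L (nat_lit 19339322)))
(L (nat_lit 22849645)))
(L (nat_lit 10505007))))
(L (nat_lit 25313930)))))
(S (nat_lit 30763) (S (nat_lit 15309) (S (nat_lit 1036) (S (nat_lit 64) (S (nat_lit 21739) (S (nat_lit 20767) (L (nat_lit 5879000))
(L (nat_lit 5925350)))
(L (nat_lit 11168225)))
(L (nat_lit 6837027)))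
(S (nat_lit 30057) (L (nat_lit 5758168))
(L (nat_lit 13947680))))
(S (nat_lit 25484) (L (nat_lit 12112925))
(L (nat_lit 26746528))))
(S (nat_lit 50527) (S (nat_lit 986) (S (nat_lit 1743) (S (nat_lit 4740) (L (nat_lit 11720590))
(L (nat_lit 8409497)))
(L (nat_lit 20266884)))
(L (nat_lit 20756675)))
(L (nat_lit 25542711)))))
(S (nat_lit 21021) (S (nat_lit 1215) (S (nat_lit 1034) (S (nat_lit 1014) (L (nat_lit 13389834))
(L (nat_lit 26432002)))
(S (nat_lit 20798) (S (nat_lit 1701) (S (nat_lit 10966) (L (nat_lit 12097274))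
(L (nat_lit 6411088)))
(L (nat_lit 11965016)))
(S (nat_lit 40562) (S (nat_lit 41304) (S (nat_lit 15309) (S (nat_lit 19839) (S (nat_lit 41243) (L (nat_lit 22344880))
(L (nat_lit 1364440)))
(L (nat_lit 15870738)))
(L (nat_lit 24937990)))
(L (nat_lit 1776429)))
(L (nat_lit 25408567)))))
(S (nat_lit 20979) (S (nat_lit 21507) (S (nat_lit 34686) (L (nat_lit 7073285))
(S (nat_lit 40514) (S (nat_lit 19806) (S (nat_lit 19839) (L (nat_lit 6974636))
(L (nat_lit 22910439)))
(L (nat_lit 22297377)))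
(L (nat_lit 1448855))))
(L (nat_lit 22199081)))
(S (nat_lit 40743) (S (nat_lit 8773) (S (nat_lit 40562) (S (nat_lit 21739) (S (nat_lit 19839) (S (nat_lit 50505) (S (nat_lit 20811) (S (nat_lit 30774) (S (nat_lit 10999) (S (nat_lit 17571) (S (nat_lit 1290) (S (nat_lit 35087) (S (nat_lit 10661) (S (nat_lit 30210) (S (nat_lit 58099) (S (nat_lit 30713) (S (nat_lit 1726) (S (nat_lit 37285) (S (nat_lit 27758) (S (nat_lit 28222) (S (nat_lit 41927) (S (nat_lit 55018) (S (nat_lit 27738) (S (nat_lit 54491) (D (nat_lit 13) (nat_lit 28759362) (nat_lit 4628242) (nat_lit 7703293592805))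
(L (nat_lit 22881328)))
(L (nat_lit 27764758)))
(L (nat_lit 29512200)))
(L (nat_lit 30031018)))
(L (nat_lit 27775172)))
(S (nat_lit 31277) (S (nat_lit 43159) (S (nat_lit 50826) (D (nat_lit 15) (nat_lit 29067532) (nat_lit 12129720) (nat_lit 111803369543))
(L (nat_lit 29081861)))
(L (nat_lit 30124578)))
(L (nat_lit 567187))))
(L (nat_lit 30659011)))
(L (nat_lit 10257972)))
(L (nat_lit 30608917)))
(L (nat_lit 28586038)))
(L (nat_lit 29570100)))
(L (nat_lit 7190241)))
(L (nat_lit 20132772)))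
(L (nat_lit 18892152)))
(L (nat_lit 1452919)))
(L (nat_lit 477960)))
(L (nat_lit 17616129)))
(L (nat_lit 7063298)))
(L (nat_lit 27790951)))
(L (nat_lit 15438599)))
(L (nat_lit 2010799)))
(L (nat_lit 1625863)))
(S (nat_lit 28537) (S (nat_lit 35087) (S (nat_lit 1732) (S (nat_lit 21465) (L (nat_lit 28422356))
(L (nat_lit 7793252)))
(L (nat_lit 26710356)))
(L (nat_lit 12842066)))
(S (nat_lit 48301) (S (nat_lit 10999) (S (nat_lit 57099) (L (nat_lit 12374532))
(L (nat_lit 12129073)))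
(L (nat_lit 1468658)))
(L (nat_lit 25898402)))))
(L (nat_lit 25801896)))))
(S (nat_lit 40785) (S (nat_lit 31) (S (nat_lit 14326) (L (nat_lit 7761974))
(S (nat_lit 40562) (S (nat_lit 21783) (S (nat_lit 48307) (S (nat_lit 17543) (S (nat_lit 40514) (L (nat_lit 28586103))
(L (nat_lit 8225425)))
(L (nat_lit 1356562)))
(L (nat_lit 15992626)))
(L (nat_lit 1614490)))
(L (nat_lit 7392794))))
(S (nat_lit 19795) (S (nat_lit 17571) (S (nat_lit 17649) (S (nat_lit 40805) (S (nat_lit 41291) (S (nat_lit 20750) (S (nat_lit 21479) (S (nat_lit 40525) (S (nat_lit 41497) (S (nat_lit 10982) (S (nat_lit 21496) (S (nat_lit 20767) (S (nat_lit 8810) (S (nat_lit 50525) (S (nat_lit 39570) (S (nat_lit 48307) (S (nat_lit 1036) (S (nat_lit 37285) (S (nat_lit 53002) (S (nat_lit 11893) (S (nat_lit 12622) (S (nat_lit 8259) (S (nat_lit 55278) (S (nat_lit 13748) (D (nat_lit 11) (nat_lit 26944899) (nat_lit 19674467) (nat_lit 282498105440))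
(L (nat_lit 28914827)))
(L (nat_lit 20505795)))
(L (nat_lit 31047873)))
(L (nat_lit 31044835)))
(L (nat_lit 31044803)))
(S (nat_lit 56172) (S (nat_lit 14720) (S (nat_lit 50566) (S (nat_lit 50809) (S (nat_lit 16918) (S (nat_lit 26766) (D (nat_lit 11) (nat_lit 30118440) (nat_lit 19674219) (nat_lit 212774094978))
(L (nat_lit 13542516)))
(L (nat_lit 28903911)))
(L (nat_lit 28824836)))
(L (nat_lit 28824837)))
(L (nat_lit 28915013)))
(L (nat_lit 25038062))))
(L (nat_lit 23293378)))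
(L (nat_lit 11234447)))
(L (nat_lit 22853704)))
(L (nat_lit 12047104)))
(L (nat_lit 15370058)))
(L (nat_lit 7524861)))
(L (nat_lit 387759)))
(L (nat_lit 8303269)))
(L (nat_lit 1485589)))
(L (nat_lit 6740740)))
(L (nat_lit 10045184)))
(L (nat_lit 15805207)))
(L (nat_lit 14963457)))
(L (nat_lit 1323799)))
(L (nat_lit 23376640)))
(S (nat_lit 47878) (L (nat_lit 3401391))
(L (nat_lit 14292743))))
(S (nat_lit 37335) (S (nat_lit 1748) (S (nat_lit 21479) (L (nat_lit 23473177))
(L (nat_lit 8212963)))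
(L (nat_lit 10121633)))
(S (nat_lit 57099) (S (nat_lit 10982) (L (nat_lit 10307969))
(L (nat_lit 307933)))
(L (nat_lit 25341647)))))
(S (nat_lit 39559) (S (nat_lit 1969) (S (nat_lit 1765) (S (nat_lit 48307) (L (nat_lit 20032399))
(L (nat_lit 5520178)))
(L (nat_lit 26426516)))
(S (nat_lit 21733) (S (nat_lit 19778) (S (nat_lit 1036) (S (nat_lit 15309) (S (nat_lit 40514) (L (nat_lit 29763201))
(L (nat_lit 8225271)))
(L (nat_lit 22545624)))
(L (nat_lit 2648683)))
(L (nat_lit 14880534)))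
(S (nat_lit 41497) (S (nat_lit 20761) (S (nat_lit 15309) (S (nat_lit 37307) (L (nat_lit 29742094))
(L (nat_lit 17100516)))
(L (nat_lit 24124174)))
(L (nat_lit 16018485)))
(L (nat_lit 25543361)))))
(L (nat_lit 25284040)))))
(L (nat_lit 25303789)))))
(S (nat_lit 35120) (S (nat_lit 1726) (S (nat_lit 1019) (S (nat_lit 1991) (S (nat_lit 1229) (S (nat_lit 1036) (S (nat_lit 986) (S (nat_lit 1763) (S (nat_lit 1279) (S (nat_lit 37260) (L (nat_lit 24156604))
(L (nat_lit 19941190)))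
(L (nat_lit 12905653)))
(L (nat_lit 13545155)))
(S (nat_lit 43634) (L (nat_lit 13542550))
(L (nat_lit 26294647))))
(L (nat_lit 13310757)))
(S (nat_lit 5189) (L (nat_lit 23859719))
(L (nat_lit 14452086))))
(S (nat_lit 21755) (S (nat_lit 1290) (S (nat_lit 1776) (S (nat_lit 48338) (L (nat_lit 16112421))
(L (nat_lit 6037101)))
(L (nat_lit 18979289)))
(L (nat_lit 3884409)))
(S (nat_lit 41519) (S (nat_lit 40500) (S (nat_lit 40818) (S (nat_lit 15309) (S (nat_lit 19811) (S (nat_lit 30761) (S (nat_lit 15384) (S (nat_lit 37274) (S (nat_lit 57055) (S (nat_lit 54901) (S (nat_lit 35087) (S (nat_lit 75) (S (nat_lit 54868) (S (nat_lit 21708) (S (nat_lit 21348) (S (nat_lit 39553) (S (nat_lit 968) (S (nat_lit 41243) (S (nat_lit 40200) (S (nat_lit 21004) (S (nat_lit 27277) (S (nat_lit 23352) (S (nat_lit 6400) (S (nat_lit 3970) (D (nat_lit 11) (nat_lit 27893123) (nat_lit 25765381) (nat_lit 212877901920))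
(L (nat_lit 28918112)))
(L (nat_lit 28919137)))
(L (nat_lit 27286955)))
(S (nat_lit 54029) (S (nat_lit 5828) (S (nat_lit 3398) (S (nat_lit 44514) (D (nat_lit 11) (nat_lit 18765930) (nat_lit 25767363) (nat_lit 206331543744))
(L (nat_lit 28979208)))
(L (nat_lit 31143107)))
(L (nat_lit 31142082)))
(L (nat_lit 29667378))))
(L (nat_lit 15539221)))
(L (nat_lit 29761217)))
(L (nat_lit 3547031)))
(L (nat_lit 29546705)))
(L (nat_lit 27903144)))
(L (nat_lit 18082867)))
(L (nat_lit 7762099)))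
(L (nat_lit 5522041)))
(L (nat_lit 14363737)))
(L (nat_lit 23081739)))
(L (nat_lit 14015330)))
(L (nat_lit 12878553)))
(L (nat_lit 9483993)))
(L (nat_lit 16951929)))
(L (nat_lit 9832057)))
(L (nat_lit 9520761)))
(L (nat_lit 24911360)))
(L (nat_lit 23872650)))
(L (nat_lit 18426011)))
(L (nat_lit 25493911)))))
(S (nat_lit 20783) (S (nat_lit 15309) (S (nat_lit 17538) (S (nat_lit 1290) (L (nat_lit 8937345))
(L (nat_lit 3398105)))
(S (nat_lit 46985) (L (nat_lit 6342581))
(L (nat_lit 454215))))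
(L (nat_lit 841223)))
(S (nat_lit 40547) (S (nat_lit 15309) (S (nat_lit 1003) (S (nat_lit 1036) (S (nat_lit 54862) (S (nat_lit 15323) (L (nat_lit 1325693))
(L (nat_lit 8129135)))
(L (nat_lit 10971318)))
(L (nat_lit 2419124)))
(S (nat_lit 47010) (L (nat_lit 17605313))
(L (nat_lit 26223060))))
(L (nat_lit 1857031)))
(L (nat_lit 25837889)))))
(S (nat_lit 21490) (S (nat_lit 15373) (S (nat_lit 15334) (S (nat_lit 986) (S (nat_lit 15309) (S (nat_lit 8823) (L (nat_lit 10884792))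
(L (nat_lit 6475598)))
(L (nat_lit 1828295)))
(S (nat_lit 35200) (L (nat_lit 26226934))
(L (nat_lit 26492579))))
(S (nat_lit 35098) (S (nat_lit 10579) (S (nat_lit 15309) (L (nat_lit 224786))
(L (nat_lit 22059545)))
(S (nat_lit 21770) (S (nat_lit 1765) (L (nat_lit 278388))
(L (nat_lit 2846063)))
(L (nat_lit 8244768))))
(S (nat_lit 54862) (S (nat_lit 20767) (S (nat_lit 40562) (S (nat_lit 21783) (L (nat_lit 6343162))
(L (nat_lit 15434505)))
(L (nat_lit 1847606)))
(L (nat_lit 12013312)))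
(L (nat_lit 25416099)))))
(S (nat_lit 35137) (S (nat_lit 1277) (S (nat_lit 972) (S (nat_lit 50702) (L (nat_lit 13749033))
(L (nat_lit 420426)))
(S (nat_lit 32554) (L (nat_lit 6041906))
(L (nat_lit 13213848))))
(S (nat_lit 21041) (S (nat_lit 4343) (S (nat_lit 41534) (L (nat_lit 6376303))
(L (nat_lit 6867776)))
(S (nat_lit 48276) (S (nat_lit 57066) (L (nat_lit 16566407))
(L (nat_lit 15617344)))
(L (nat_lit 13687037))))
(S (nat_lit 40805) (S (nat_lit 15309) (S (nat_lit 17538) (S (nat_lit 37291) (L (nat_lit 7426829))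
(L (nat_lit 23346946)))
(L (nat_lit 904583)))
(L (nat_lit 7399150)))
(L (nat_lit 25413713)))))
(S (nat_lit 54901) (S (nat_lit 28574) (S (nat_lit 50527) (S (nat_lit 15309) (S (nat_lit 39592) (S (nat_lit 10977) (S (nat_lit 30746) (S (nat_lit 57055) (S (nat_lit 39553) (S (nat_lit 39559) (S (nat_lit 19778) (S (nat_lit 21708) (S (nat_lit 48307) (S (nat_lit 39753) (S (nat_lit 15351) (S (nat_lit 17538) (S (nat_lit 1969) (S (nat_lit 39884) (S (nat_lit 1715) (S (nat_lit 48340) (S (nat_lit 15148) (S (nat_lit 44856) (S (nat_lit 43398) (S (nat_lit 2543) (D (nat_lit 11) (nat_lit 28970188) (nat_lit 19670126) (nat_lit 35606530050))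
(L (nat_lit 27932682)))
(L (nat_lit 21426468)))
(L (nat_lit 21390594)))
(S (nat_lit 27958) (S (nat_lit 23259) (S (nat_lit 26175) (S (nat_lit 44309) (D (nat_lit 11) (nat_lit 26845664) (nat_lit 25767024) (nat_lit 69209283))
(L (nat_lit 21873890)))
(L (nat_lit 25048293)))
(L (nat_lit 25047237)))
(L (nat_lit 27679911))))
(L (nat_lit 27641873)))
(L (nat_lit 12741879)))
(L (nat_lit 28773686)))
(L (nat_lit 13994933)))
(L (nat_lit 16050357)))
(L (nat_lit 7736245)))
(L (nat_lit 29474375)))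
(L (nat_lit 13717817)))
(L (nat_lit 1438317)))
(L (nat_lit 21170681)))
(L (nat_lit 18089780)))
(L (nat_lit 10502932)))
(L (nat_lit 21403769)))
(L (nat_lit 9563635)))
(L (nat_lit 18442407)))
(L (nat_lit 28019918)))
(L (nat_lit 8182832)))
(L (nat_lit 13443090)))
(S (nat_lit 48256) (S (nat_lit 15309) (S (nat_lit 39592) (L (nat_lit 11949245))
(L (nat_lit 18633768)))
(L (nat_lit 8043265)))
(L (nat_lit 19367289))))
(L (nat_lit 25676840)))))
(S (nat_lit 41254) (S (nat_lit 1776) (S (nat_lit 37274) (S (nat_lit 21041) (S (nat_lit 40774) (S (nat_lit 21704) (S (nat_lit 41293) (S (nat_lit 54868) (S (nat_lit 1113) (S (nat_lit 40339) (S (nat_lit 19826) (S (nat_lit 1701) (S (nat_lit 41452) (S (nat_lit 30746) (S (nat_lit 21671) (S (nat_lit 21783) (S (nat_lit 1969) (S (nat_lit 50494) (S (nat_lit 3641) (S (nat_lit 23146) (S (nat_lit 47510) (S (nat_lit 42327) (S (nat_lit 44987) (S (nat_lit 22419) (D (nat_lit 13) (nat_lit 25800811) (nat_lit 19664331) (nat_lit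 5497600116801))
(L (nat_lit 27775205)))
(L (nat_lit 28982624)))
(L (nat_lit 28877842)))
(L (nat_lit 19391748)))
(L (nat_lit 19775780)))
(S (nat_lit 53768) (S (nat_lit 46538) (S (nat_lit 7900) (D (nat_lit 15) (nat_lit 28020049) (nat_lit 4809098) (nat_lit 1052897))
(L (nat_lit 28908065)))
(L (nat_lit 19359072)))
(L (nat_lit 13720425))))
(L (nat_lit 27859362)))
(L (nat_lit 6045909)))
(L (nat_lit 22026714)))
(L (nat_lit 13554882)))
(L (nat_lit 9550741)))
(L (nat_lit 26489876)))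
(L (nat_lit 10040100)))
(L (nat_lit 2673019)))
(L (nat_lit 9351316)))
(L (nat_lit 12117700)))
(L (nat_lit 12093334)))
(L (nat_lit 27830420)))
(L (nat_lit 12117664)))
(L (nat_lit 17984884)))
(L (nat_lit 12110624)))
(L (nat_lit 3647252)))
(S (nat_lit 21540) (S (nat_lit 2006) (S (nat_lit 1036) (S (nat_lit 1277) (L (nat_lit 14358713))
(L (nat_lit 5824823)))
(L (nat_lit 19459333)))
(S (nat_lit 21770) (S (nat_lit 48307) (S (nat_lit 40807) (L (nat_lit 576326))
(L (nat_lit 7918713)))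
(L (nat_lit 11073090)))
(S (nat_lit 41534) (S (nat_lit 23856) (L (nat_lit 20482987))
(S (nat_lit 48307) (S (nat_lit 20750) (L (nat_lit 23491776))
(L (nat_lit 15308985)))
(L (nat_lit 12121170))))
(L (nat_lit 25742528)))))
(S (nat_lit 41304) (S (nat_lit 37274) (S (nat_lit 40774) (S (nat_lit 39592) (S (nat_lit 40805) (L (nat_lit 6306393))
(L (nat_lit 10237632)))
(L (nat_lit 5777332)))
(L (nat_lit 17984884)))
(L (nat_lit 3712729)))
(L (nat_lit 25221452)))))
(L (nat_lit 25805056)))))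
(S (nat_lit 54884) (S (nat_lit 1701) (S (nat_lit 1036) (S (nat_lit 1277) (S (nat_lit 17124) (S (nat_lit 21043) (L (nat_lit 1634920))
(L (nat_lit 6870136)))
(S (nat_lit 48323) (S (nat_lit 1215) (L (nat_lit 26293930))
(L (nat_lit 12850776)))
(L (nat_lit 5822379))))
(S (nat_lit 21041) (S (nat_lit 57038) (S (nat_lit 20811) (S (nat_lit 21783) (L (nat_lit 1615580))
(L (nat_lit 21556267)))
(L (nat_lit 21556420)))
(L (nat_lit 4761394)))
(S (nat_lit 40805) (S (nat_lit 35115) (S (nat_lit 19839) (L (nat_lit 29921926))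
(L (nat_lit 10017536)))
(L (nat_lit 20488992)))
(L (nat_lit 25240305)))))
(S (nat_lit 20800) (S (nat_lit 39592) (S (nat_lit 1215) (S (nat_lit 20882) (S (nat_lit 19778) (L (nat_lit 7921779))
(L (nat_lit 21217029)))
(S (nat_lit 27449) (L (nat_lit 26254805))
(L (nat_lit 8174177))))
(L (nat_lit 26651237)))
(L (nat_lit 6110824)))
(S (nat_lit 40564) (S (nat_lit 17521) (S (nat_lit 15340) (S (nat_lit 20798) (S (nat_lit 21755) (S (nat_lit 40790) (S (nat_lit 19828) (S (nat_lit 21479) (S (nat_lit 21021) (S (nat_lit 30713) (S (nat_lit 39553) (S (nat_lit 37291) (S (nat_lit 28537) (S (nat_lit 40818) (S (nat_lit 50074) (S (nat_lit 30592) (S (nat_lit 18701) (S (nat_lit 19806) (S (nat_lit 4049) (S (nat_lit 44073) (S (nat_lit 45529) (S (nat_lit 31271) (S (nat_lit 56199) (D (nat_lit 13) (nat_lit 29004331) (nat_lit 4999534) (nat_lit 5501858580514))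
(L (nat_lit 871819)))
(L (nat_lit 20856098)))
(L (nat_lit 21865925)))
(L (nat_lit 21869796)))
(S (nat_lit 47418) (S (nat_lit 5791) (S (nat_lit 55227) (D (nat_lit 15) (nat_lit 31072332) (nat_lit 25759114) (nat_lit 110662619272))
(L (nat_lit 28913925)))
(L (nat_lit 30032228)))
(L (nat_lit 28423446))))
(L (nat_lit 31078720)))
(L (nat_lit 12898177)))
(L (nat_lit 7192695)))
(L (nat_lit 28625377)))
(L (nat_lit 8096219)))
(L (nat_lit 30452337)))
(L (nat_lit 13950045)))
(L (nat_lit 24568130)))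
(L (nat_lit 2345403)))
(L (nat_lit 5002541)))
(L (nat_lit 31036752)))
(L (nat_lit 21531465)))
(L (nat_lit 18211424)))
(L (nat_lit 21128582)))
(L (nat_lit 22588259)))
(L (nat_lit 7922274)))
(S (nat_lit 37285) (S (nat_lit 48307) (S (nat_lit 1290) (L (nat_lit 11071077))
(L (nat_lit 12611955)))
(L (nat_lit 27343433)))
(S (nat_lit 57049) (S (nat_lit 19828) (S (nat_lit 40790) (L (nat_lit 7046556))
(L (nat_lit 516681)))
(S (nat_lit 53132) (L (nat_lit 4940203))
(L (nat_lit 9996920))))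
(L (nat_lit 25662088)))))
(L (nat_lit 25743494)))))
(S (nat_lit 21465) (S (nat_lit 10982) (S (nat_lit 1036) (S (nat_lit 17571) (S (nat_lit 15309) (S (nat_lit 15373) (S (nat_lit 40562) (L (nat_lit 7915549))
(L (nat_lit 8106819)))
(L (nat_lit 1651496)))
(L (nat_lit 7395086)))
(L (nat_lit 1976757)))
(S (nat_lit 20800) (S (nat_lit 40757) (S (nat_lit 1765) (L (nat_lit 15428615))
(L (nat_lit 9556751)))
(L (nat_lit 634360)))
(S (nat_lit 40564) (S (nat_lit 15309) (S (nat_lit 21722) (L (nat_lit 7426863))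
(L (nat_lit 21271473)))
(L (nat_lit 26434576)))
(L (nat_lit 25210446)))))
(S (nat_lit 30746) (S (nat_lit 1246) (S (nat_lit 21739) (S (nat_lit 1034) (L (nat_lit 18917784))
(L (nat_lit 10597270)))
(L (nat_lit 1559896)))
(S (nat_lit 21010) (S (nat_lit 57049) (S (nat_lit 1765) (S (nat_lit 41291) (L (nat_lit 4779220))
(L (nat_lit 7156449)))
(L (nat_lit 26973550)))
(L (nat_lit 14701321)))
(S (nat_lit 40774) (S (nat_lit 21041) (S (nat_lit 41534) (L (nat_lit 7057468))
(L (nat_lit 27347153)))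
(S (nat_lit 51670) (L (nat_lit 11713273))
(L (nat_lit 1363513))))
(L (nat_lit 25862628)))))
(S (nat_lit 50510) (S (nat_lit 2006) (S (nat_lit 57038) (S (nat_lit 20477) (L (nat_lit 19769765))
(L (nat_lit 11231652)))
(L (nat_lit 5453528)))
(S (nat_lit 21770) (S (nat_lit 57038) (S (nat_lit 20798) (L (nat_lit 7751741))
(L (nat_lit 21278841)))
(L (nat_lit 10538520)))
(S (nat_lit 41534) (S (nat_lit 17571) (S (nat_lit 39603) (S (nat_lit 57038) (S (nat_lit 21496) (S (nat_lit 17521) (S (nat_lit 48338) (S (nat_lit 28537) (S (nat_lit 41293) (S (nat_lit 57066) (S (nat_lit 21755) (S (nat_lit 35137) (S (nat_lit 9138) (S (nat_lit 1229) (S (nat_lit 18195) (S (nat_lit 19806) (S (nat_lit 24329) (S (nat_lit 43292) (S (nat_lit 55727) (S (nat_lit 17472) (S (nat_lit 50306) (D (nat_lit 13) (nat_lit 31069520) (nat_lit 25765039) (nat_lit 3544559193350))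
(L (nat_lit 21492997)))
(L (nat_lit 30032197)))
(L (nat_lit 22879715)))
(L (nat_lit 15619427)))
(S (nat_lit 32633) (S (nat_lit 26074) (S (nat_lit 31842) (S (nat_lit 35021) (S (nat_lit 12722) (D (nat_lit 13) (nat_lit 27987334) (nat_lit 25767089) (nat_lit 6776659417219))
(L (nat_lit 27757288)))
(L (nat_lit 27893189)))
(L (nat_lit 21100010)))
(L (nat_lit 4053482)))
(L (nat_lit 16009307))))
(L (nat_lit 15372134)))
(L (nat_lit 29673861)))
(L (nat_lit 5680829)))
(L (nat_lit 28354288)))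
(L (nat_lit 20819976)))
(L (nat_lit 1721659)))
(L (nat_lit 12259087)))
(L (nat_lit 3942837)))
(L (nat_lit 10163052)))
(L (nat_lit 5676728)))
(L (nat_lit 16493754)))
(L (nat_lit 8302772)))
(L (nat_lit 5468780)))
(L (nat_lit 11070080)))
(L (nat_lit 8270529)))
(L (nat_lit 25931784)))))
(L (nat_lit 25475123)))))
(S (nat_lit 41229) (S (nat_lit 42) (S (nat_lit 62) (S (nat_lit 40818) (L (nat_lit 8240705))
(L (nat_lit 23652707)))
(S (nat_lit 19826) (S (nat_lit 37420) (L (nat_lit 26300656))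
(S (nat_lit 57049) (S (nat_lit 57055) (S (nat_lit 40575) (L (nat_lit 12437517))
(L (nat_lit 27829426)))
(L (nat_lit 27541091)))
(L (nat_lit 21870947))))
(S (nat_lit 39590) (S (nat_lit 1262) (S (nat_lit 15309) (S (nat_lit 19828) (S (nat_lit 1279) (L (nat_lit 14357288))
(L (nat_lit 26525284)))
(L (nat_lit 3909016)))
(L (nat_lit 7397136)))
(L (nat_lit 26713271)))
(L (nat_lit 25337398)))))
(S (nat_lit 19806) (S (nat_lit 40514) (S (nat_lit 10966) (S (nat_lit 15340) (S (nat_lit 15371) (S (nat_lit 57066) (S (nat_lit 1290) (S (nat_lit 17571) (S (nat_lit 39553) (S (nat_lit 40757) (S (nat_lit 40564) (S (nat_lit 50510) (S (nat_lit 41291) (S (nat_lit 57088) (S (nat_lit 48338) (S (nat_lit 38666) (S (nat_lit 28559) (S (nat_lit 39603) (S (nat_lit 15309) (S (nat_lit 3289) (S (nat_lit 23037) (S (nat_lit 36733) (S (nat_lit 55970) (S (nat_lit 11032) (D (nat_lit 13) (nat_lit 31009316) (nat_lit 19670499) (nat_lit 2308681468161))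
(L (nat_lit 27932003)))
(L (nat_lit 22885666)))
(L (nat_lit 22977925)))
(L (nat_lit 29014308)))
(S (nat_lit 47208) (S (nat_lit 32602) (S (nat_lit 12021) (S (nat_lit 35049) (S (nat_lit 25781) (D (nat_lit 13) (nat_lit 27856361) (nat_lit 25767459) (nat_lit 6776659417219))
(L (nat_lit 27777347)))
(L (nat_lit 27853190)))
(L (nat_lit 27868386)))
(L (nat_lit 21929380)))
(L (nat_lit 28892357))))
(L (nat_lit 1301977)))
(L (nat_lit 18701569)))
(L (nat_lit 19666378)))
(L (nat_lit 27350316)))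
(L (nat_lit 20444330)))
(L (nat_lit 4863225)))
(L (nat_lit 17535750)))
(L (nat_lit 27546668)))
(L (nat_lit 9490841)))
(L (nat_lit 17749127)))
(L (nat_lit 23488867)))
(L (nat_lit 7999929)))
(L (nat_lit 26289836)))
(L (nat_lit 21063046)))
(L (nat_lit 6971565)))
(L (nat_lit 1467081)))
(L (nat_lit 17899258)))
(L (nat_lit 3784056)))
(S (nat_lit 39570) (S (nat_lit 15720) (L (nat_lit 4709752))
(S (nat_lit 20750) (S (nat_lit 37710) (L (nat_lit 5124774))
(S (nat_lit 41497) (S (nat_lit 57038) (S (nat_lit 48351) (L (nat_lit 23564635))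
(L (nat_lit 6106516)))
(L (nat_lit 27823723)))
(L (nat_lit 18449223))))
(L (nat_lit 11622320))))
(L (nat_lit 25476275)))))
(L (nat_lit 25561394)))))
(L (nat_lit 25801738)))))
(S (nat_lit 30699) (S (nat_lit 17521) (S (nat_lit 1944) (S (nat_lit 8823) (S (nat_lit 14) (S (nat_lit 972) (S (nat_lit 35087) (S (nat_lit 54862) (S (nat_lit 17571) (S (nat_lit 50525) (L (nat_lit 13455529))
(L (nat_lit 5961099)))
(L (nat_lit 8305249)))
(L (nat_lit 13652744)))
(L (nat_lit 3678841)))
(L (nat_lit 20187544)))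
(S (nat_lit 19778) (S (nat_lit 40768) (S (nat_lit 41254) (L (nat_lit 23651520))
(L (nat_lit 17424487)))
(L (nat_lit 17424673)))
(S (nat_lit 39542) (S (nat_lit 22432) (L (nat_lit 3971478))
(S (nat_lit 37291) (S (nat_lit 1215) (L (nat_lit 20230331))
(L (nat_lit 19148921)))
(L (nat_lit 20004120))))
(L (nat_lit 25384388)))))
(S (nat_lit 28587) (S (nat_lit 2019) (S (nat_lit 57071) (S (nat_lit 972) (S (nat_lit 1019) (S (nat_lit 21211) (L (nat_lit 3732136))
(L (nat_lit 19086115)))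
(L (nat_lit 12802851)))
(L (nat_lit 26554978)))
(L (nat_lit 13314104)))
(S (nat_lit 21783) (S (nat_lit 28512) (S (nat_lit 64) (L (nat_lit 20001147))
(L (nat_lit 26563971)))
(S (nat_lit 36891) (L (nat_lit 26399084))
(L (nat_lit 18882384))))
(S (nat_lit 41547) (S (nat_lit 2842) (L (nat_lit 12051474))
(S (nat_lit 37274) (S (nat_lit 57024) (S (nat_lit 39542) (S (nat_lit 19826) (S (nat_lit 30763) (S (nat_lit 57071) (S (nat_lit 14538) (S (nat_lit 50351) (L (nat_lit 5456568))
(L (nat_lit 28913925)))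
(S (nat_lit 36911) (L (nat_lit 2374332))
(L (nat_lit 21195203))))
(L (nat_lit 21506981)))
(L (nat_lit 8533720)))
(L (nat_lit 10268855)))
(L (nat_lit 16995418)))
(L (nat_lit 27827873)))
(L (nat_lit 13852756))))
(L (nat_lit 25240205)))))
(S (nat_lit 48351) (S (nat_lit 1003) (S (nat_lit 21755) (S (nat_lit 40562) (S (nat_lit 21479) (L (nat_lit 21182653))
(L (nat_lit 6116806)))
(L (nat_lit 8205027)))
(S (nat_lit 48360) (L (nat_lit 3393979))
(L (nat_lit 4877702))))
(S (nat_lit 15043) (S (nat_lit 1732) (L (nat_lit 12678514))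
(L (nat_lit 20787367)))
(L (nat_lit 9056442))))
(L (nat_lit 25307726)))))
(S (nat_lit 21708) (S (nat_lit 8773) (S (nat_lit 17538) (S (nat_lit 62) (S (nat_lit 40531) (S (nat_lit 1958) (L (nat_lit 12014780))
(L (nat_lit 20719761)))
(L (nat_lit 8041657)))
(L (nat_lit 26936688)))
(S (nat_lit 37302) (S (nat_lit 15371) (S (nat_lit 30761) (L (nat_lit 12705148))
(L (nat_lit 4048245)))
(S (nat_lit 20139) (L (nat_lit 26391923))
(L (nat_lit 2022765))))
(S (nat_lit 57066) (S (nat_lit 19806) (S (nat_lit 21465) (L (nat_lit 19936636))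
(L (nat_lit 15602034)))
(L (nat_lit 14963898)))
(L (nat_lit 25796992)))))
(S (nat_lit 28537) (S (nat_lit 8762) (S (nat_lit 11110) (L (nat_lit 3357433))
(L (nat_lit 20179363)))
(S (nat_lit 28526) (S (nat_lit 1732) (L (nat_lit 30421609))
(L (nat_lit 9450357)))
(S (nat_lit 48290) (S (nat_lit 41547) (S (nat_lit 19789) (S (nat_lit 1763) (L (nat_lit 29607523))
(L (nat_lit 10161040)))
(L (nat_lit 15751977)))
(L (nat_lit 6318578)))
(L (nat_lit 25178858)))))
(S (nat_lit 48301) (S (nat_lit 1246) (S (nat_lit 40531) (S (nat_lit 28512) (S (nat_lit 62) (S (nat_lit 35115) (S (nat_lit 35087) (S (nat_lit 21770) (S (nat_lit 30761) (S (nat_lit 20750) (S (nat_lit 20778) (S (nat_lit 46906) (S (nat_lit 39592) (S (nat_lit 19839) (S (nat_lit 37324) (S (nat_lit 19811) (S (nat_lit 15266) (S (nat_lit 46956) (S (nat_lit 46928) (S (nat_lit 15294) (S (nat_lit 16741) (S (nat_lit 49338) (S (nat_lit 15975) (D (nat_lit 15) (nat_lit 31147046) (nat_lit 25348490) (nat_lit 103287984257))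
(L (nat_lit 30591494)))
(L (nat_lit 21098954)))
(S (nat_lit 38929) (S (nat_lit 50617) (S (nat_lit 19414) (D (nat_lit 15) (nat_lit 31080642) (nat_lit 25282984) (nat_lit 109523866792))
(L (nat_lit 30027237)))
(L (nat_lit 21836005)))
(L (nat_lit 3062102))))
(L (nat_lit 8408568)))
(L (nat_lit 8416912)))
(L (nat_lit 14347618)))
(L (nat_lit 29871458)))
(L (nat_lit 9952315)))
(L (nat_lit 17157181)))
(L (nat_lit 30977107)))
(L (nat_lit 18686004)))
(L (nat_lit 28979238)))
(L (nat_lit 30620386)))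
(L (nat_lit 22952291)))
(L (nat_lit 24275310)))
(L (nat_lit 16631814)))
(L (nat_lit 9467599)))
(L (nat_lit 2896247)))
(L (nat_lit 26947941)))
(L (nat_lit 19098113)))
(L (nat_lit 27955566)))
(S (nat_lit 21010) (S (nat_lit 57086) (S (nat_lit 8762) (S (nat_lit 19811) (S (nat_lit 1019) (S (nat_lit 48351) (S (nat_lit 39570) (S (nat_lit 40531) (S (nat_lit 21507) (S (nat_lit 20750) (S (nat_lit 39592) (S (nat_lit 1726) (S (nat_lit 37274) (S (nat_lit 26943) (S (nat_lit 17571) (S (nat_lit 62) (S (nat_lit 33066) (S (nat_lit 10999) (S (nat_lit 40790) (S (nat_lit 19699) (S (nat_lit 38960) (S (nat_lit 36044) (S (nat_lit 9081) (D (nat_lit 11) (nat_lit 27929777) (nat_lit 25765038) (nat_lit 212843303973))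
(L (nat_lit 27740231)))
(L (nat_lit 3002791)))
(L (nat_lit 3002758)))
(S (nat_lit 32797) (S (nat_lit 30588) (S (nat_lit 32018) (S (nat_lit 37234) (S (nat_lit 39439) (D (nat_lit 13) (nat_lit 25903457) (nat_lit 9934424) (nat_lit 4462739719))
(L (nat_lit 19742915)))
(L (nat_lit 27870435)))
(L (nat_lit 28981602)))
(L (nat_lit 28914763)))
(L (nat_lit 20122173))))
(L (nat_lit 27313767)))
(L (nat_lit 23529722)))
(L (nat_lit 2313101)))
(L (nat_lit 6873271)))
(L (nat_lit 1422167)))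
(L (nat_lit 28790115)))
(L (nat_lit 13656778)))
(L (nat_lit 14452426)))
(L (nat_lit 5001609)))
(L (nat_lit 21389667)))
(L (nat_lit 15476786)))
(L (nat_lit 27281775)))
(L (nat_lit 12374157)))
(L (nat_lit 22517051)))
(L (nat_lit 4420209)))
(L (nat_lit 22516987)))
(L (nat_lit 1264461)))
(L (nat_lit 6051180)))
(S (nat_lit 40774) (S (nat_lit 21465) (S (nat_lit 40531) (S (nat_lit 57086) (S (nat_lit 20750) (S (nat_lit 20993) (S (nat_lit 19811) (S (nat_lit 28543) (S (nat_lit 28512) (S (nat_lit 35115) (S (nat_lit 20778) (S (nat_lit 40805) (S (nat_lit 53364) (S (nat_lit 14018) (S (nat_lit 27887) (S (nat_lit 21496) (S (nat_lit 6728) (S (nat_lit 18635) (S (nat_lit 16691) (S (nat_lit 54505) (D (nat_lit 11) (nat_lit 31076612) (nat_lit 25695819) (nat_lit 106438952193))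
(L (nat_lit 28984676)))
(L (nat_lit 31171106)))
(L (nat_lit 31171075)))
(S (nat_lit 52073) (S (nat_lit 52011) (S (nat_lit 50067) (S (nat_lit 19196) (D (nat_lit 11) (nat_lit 31078407) (nat_lit 25767429) (nat_lit 106438958151))
(L (nat_lit 31011076)))
(L (nat_lit 21295557)))
(L (nat_lit 21295588)))
(L (nat_lit 4595539))))
(L (nat_lit 10963128)))
(L (nat_lit 28710133)))
(L (nat_lit 4646258)))
(L (nat_lit 26398061)))
(L (nat_lit 544585)))
(L (nat_lit 15340796)))
(L (nat_lit 13536629)))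
(L (nat_lit 3363664)))
(L (nat_lit 31162760)))
(L (nat_lit 15838843)))
(L (nat_lit 21401977)))
(L (nat_lit 21403001)))
(L (nat_lit 4674938)))
(L (nat_lit 1716601)))
(L (nat_lit 22098300)))
(L (nat_lit 25310854)))))
(L (nat_lit 25179479)))))
(S (nat_lit 41472) (S (nat_lit 1958) (S (nat_lit 1034) (S (nat_lit 28543) (S (nat_lit 1715) (L (nat_lit 9450294))
(L (nat_lit 20375873)))
(L (nat_lit 19439362)))
(S (nat_lit 20798) (S (nat_lit 35087) (S (nat_lit 41503) (S (nat_lit 50538) (S (nat_lit 8762) (S (nat_lit 54837) (S (nat_lit 40805) (L (nat_lit 2339549))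
(L (nat_lit 2960113)))
(L (nat_lit 13889185)))
(L (nat_lit 6843972)))
(L (nat_lit 5942161)))
(L (nat_lit 27511233)))
(S (nat_lit 47170) (L (nat_lit 17560743))
(L (nat_lit 23277689))))
(S (nat_lit 40562) (S (nat_lit 17927) (L (nat_lit 3388027))
(S (nat_lit 19839) (S (nat_lit 35115) (S (nat_lit 57024) (L (nat_lit 1461065))
(L (nat_lit 14708390)))
(L (nat_lit 8948378)))
(L (nat_lit 3713692))))
(L (nat_lit 25414769)))))
(S (nat_lit 21722) (S (nat_lit 1019) (S (nat_lit 19789) (S (nat_lit 40531) (S (nat_lit 41547) (S (nat_lit 21770) (S (nat_lit 28543) (S (nat_lit 20736) (S (nat_lit 39542) (S (nat_lit 37274) (S (nat_lit 10949) (S (nat_lit 40525) (S (nat_lit 986) (S (nat_lit 1991) (S (nat_lit 41276) (L (nat_lit 1327804))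
(L (nat_lit 27968801)))
(S (nat_lit 39199) (L (nat_lit 3974769))
(L (nat_lit 10095376))))
(L (nat_lit 2931063)))
(L (nat_lit 23486502)))
(L (nat_lit 21181565)))
(L (nat_lit 3367534)))
(L (nat_lit 16995204)))
(L (nat_lit 21424452)))
(L (nat_lit 9144081)))
(L (nat_lit 20985638)))
(L (nat_lit 2317101)))
(L (nat_lit 3355540)))
(S (nat_lit 36704) (L (nat_lit 8418706))
(L (nat_lit 22955144))))
(S (nat_lit 20783) (S (nat_lit 18195) (L (nat_lit 15308124))
(S (nat_lit 40807) (S (nat_lit 21529) (L (nat_lit 28693888))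
(L (nat_lit 31144071)))
(L (nat_lit 315801))))
(S (nat_lit 40547) (S (nat_lit 48323) (S (nat_lit 37274) (S (nat_lit 19789) (S (nat_lit 39542) (S (nat_lit 10949) (S (nat_lit 20800) (S (nat_lit 1014) (S (nat_lit 21770) (S (nat_lit 17093) (L (nat_lit 30057552))
(S (nat_lit 41291) (L (nat_lit 1612377))
(L (nat_lit 23602947))))
(L (nat_lit 7925783)))
(L (nat_lit 13833944)))
(L (nat_lit 5825126)))
(L (nat_lit 7386995)))
(L (nat_lit 10501786)))
(L (nat_lit 22255407)))
(L (nat_lit 10205093)))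
(S (nat_lit 56915) (L (nat_lit 7528851))
(L (nat_lit 22843850))))
(L (nat_lit 25680131)))))
(S (nat_lit 41486) (S (nat_lit 8823) (S (nat_lit 30741) (S (nat_lit 54862) (S (nat_lit 37322) (L (nat_lit 24307079))
(L (nat_lit 10339508)))
(L (nat_lit 27962513)))
(S (nat_lit 41366) (L (nat_lit 2700600))
(L (nat_lit 13727334))))
(S (nat_lit 28587) (S (nat_lit 21704) (L (nat_lit 19951950))
(S (nat_lit 54837) (S (nat_lit 19839) (L (nat_lit 14701415))
(L (nat_lit 4042195)))
(L (nat_lit 19399590))))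
(S (nat_lit 48351) (S (nat_lit 1036) (S (nat_lit 1257) (L (nat_lit 9135521))
(L (nat_lit 13849507)))
(L (nat_lit 11266432)))
(L (nat_lit 25531984)))))
(L (nat_lit 25612328)))))
(L (nat_lit 25466291)))))
(S (nat_lit 37285) (S (nat_lit 8810) (S (nat_lit 8762) (S (nat_lit 1019) (S (nat_lit 14452) (S (nat_lit 14938) (L (nat_lit 19393703))
(L (nat_lit 19949098)))
(S (nat_lit 41567) (S (nat_lit 40542) (L (nat_lit 1269304))
(L (nat_lit 7362381)))
(L (nat_lit 20131930))))
(S (nat_lit 20783) (S (nat_lit 1958) (S (nat_lit 1246) (L (nat_lit 20131960))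
(L (nat_lit 20144577)))
(L (nat_lit 20743504)))
(S (nat_lit 40547) (L (nat_lit 26416535))
(L (nat_lit 25379990)))))
(S (nat_lit 28526) (S (nat_lit 8795) (S (nat_lit 11608) (L (nat_lit 20123033))
(S (nat_lit 41567) (S (nat_lit 35087) (L (nat_lit 5464467))
(L (nat_lit 30608786)))
(L (nat_lit 20131930))))
(S (nat_lit 28559) (S (nat_lit 1776) (S (nat_lit 1290) (L (nat_lit 12601724))
(L (nat_lit 3733130)))
(L (nat_lit 10024580)))
(S (nat_lit 48323) (S (nat_lit 1748) (L (nat_lit 11555225))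
(S (nat_lit 36891) (S (nat_lit 56454) (S (nat_lit 11010) (S (nat_lit 19557) (S (nat_lit 17823) (L (nat_lit 23086301))
(L (nat_lit 13885463)))
(L (nat_lit 13862679)))
(L (nat_lit 23998720)))
(L (nat_lit 10052004)))
(L (nat_lit 18904432))))
(L (nat_lit 25580586)))))
(S (nat_lit 48290) (S (nat_lit 1765) (S (nat_lit 1262) (S (nat_lit 1019) (S (nat_lit 1991) (S (nat_lit 35104) (S (nat_lit 37322) (L (nat_lit 26838316))
(L (nat_lit 14524036)))
(L (nat_lit 13533494)))
(S (nat_lit 34469) (L (nat_lit 13553924))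
(L (nat_lit 26728614))))
(L (nat_lit 19072412)))
(L (nat_lit 26411414)))
(S (nat_lit 21529) (S (nat_lit 39590) (S (nat_lit 20750) (L (nat_lit 20487356))
(L (nat_lit 5880187)))
(L (nat_lit 27838821)))
(S (nat_lit 41293) (S (nat_lit 35087) (S (nat_lit 40757) (S (nat_lit 40818) (L (nat_lit 28513903))
(L (nat_lit 23652709)))
(L (nat_lit 23247224)))
(L (nat_lit 2313625)))
(L (nat_lit 25382991)))))
(L (nat_lit 25838666)))))
(S (nat_lit 28574) (S (nat_lit 75) (S (nat_lit 17560) (S (nat_lit 15371) (S (nat_lit 19806) (S (nat_lit 41519) (L (nat_lit 23378107))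
(L (nat_lit 6445496)))
(L (nat_lit 10238131)))
(L (nat_lit 939373)))
(S (nat_lit 37324) (S (nat_lit 1019) (S (nat_lit 50527) (S (nat_lit 39590) (L (nat_lit 4775293))
(L (nat_lit 24680600)))
(L (nat_lit 20299836)))
(S (nat_lit 17168) (L (nat_lit 12622520))
(L (nat_lit 20123036))))
(S (nat_lit 57088) (S (nat_lit 41304) (L (nat_lit 3714716))
(L (nat_lit 23619753)))
(L (nat_lit 25830883)))))
(S (nat_lit 19839) (S (nat_lit 997) (S (nat_lit 8197) (S (nat_lit 35148) (S (nat_lit 13955) (L (nat_lit 8508956))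
(L (nat_lit 20746695)))
(L (nat_lit 23964033)))
(S (nat_lit 19806) (S (nat_lit 40774) (L (nat_lit 2683188))
(L (nat_lit 27773062)))
(L (nat_lit 30718130))))
(S (nat_lit 20761) (S (nat_lit 21490) (S (nat_lit 39542) (L (nat_lit 217967))
(L (nat_lit 5488438)))
(S (nat_lit 54319) (S (nat_lit 12847) (L (nat_lit 19760369))
(L (nat_lit 20787367)))
(L (nat_lit 15309600))))
(S (nat_lit 40525) (S (nat_lit 15665) (L (nat_lit 17685793))
(S (nat_lit 35135) (S (nat_lit 41243) (L (nat_lit 26641034))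
(L (nat_lit 27404758)))
(L (nat_lit 10343597))))
(L (nat_lit 25562357)))))
(S (nat_lit 39603) (S (nat_lit 17560) (S (nat_lit 8795) (S (nat_lit 48276) (S (nat_lit 41503) (S (nat_lit 54884) (S (nat_lit 35087) (S (nat_lit 30763) (S (nat_lit 19806) (S (nat_lit 50505) (S (nat_lit 40768) (L (nat_lit 16852701))
(L (nat_lit 17391905)))
(L (nat_lit 12084897)))
(L (nat_lit 9958547)))
(L (nat_lit 10269746)))
(L (nat_lit 23301901)))
(L (nat_lit 19456229)))
(L (nat_lit 6976993)))
(L (nat_lit 15756534)))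
(S (nat_lit 35932) (L (nat_lit 13833110))
(L (nat_lit 26775763))))
(S (nat_lit 37324) (S (nat_lit 35087) (S (nat_lit 1715) (L (nat_lit 18921853))
(L (nat_lit 20723878)))
(L (nat_lit 23301901)))
(S (nat_lit 57088) (S (nat_lit 1748) (L (nat_lit 3828134))
(L (nat_lit 11552566)))
(L (nat_lit 25543331)))))
(L (nat_lit 25517504)))))
(S (nat_lit 48338) (S (nat_lit 8812) (S (nat_lit 10949) (S (nat_lit 19789) (S (nat_lit 41547) (L (nat_lit 3660153))
(L (nat_lit 23095785)))
(L (nat_lit 14904468)))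
(S (nat_lit 30713) (S (nat_lit 1019) (S (nat_lit 37291) (S (nat_lit 1036) (S (nat_lit 35087) (L (nat_lit 23117145))
(L (nat_lit 12645995)))
(L (nat_lit 11417748)))
(L (nat_lit 14359299)))
(S (nat_lit 33233) (L (nat_lit 5753211))
(L (nat_lit 19074833))))
(S (nat_lit 50477) (S (nat_lit 41567) (L (nat_lit 1272495))
(S (nat_lit 48290) (S (nat_lit 42) (S (nat_lit 986) (S (nat_lit 1944) (L (nat_lit 9947259))
(L (nat_lit 11651512)))
(S (nat_lit 31299) (L (nat_lit 26467872))
(L (nat_lit 12871702))))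
(L (nat_lit 19374264)))
(L (nat_lit 20137080))))
(L (nat_lit 25895429)))))
(S (nat_lit 28576) (S (nat_lit 14516) (L (nat_lit 13881465))
(S (nat_lit 30774) (S (nat_lit 42) (S (nat_lit 39542) (S (nat_lit 28543) (S (nat_lit 8748) (S (nat_lit 19795) (S (nat_lit 19828) (S (nat_lit 57071) (S (nat_lit 21722) (S (nat_lit 39590) (S (nat_lit 50494) (S (nat_lit 10949) (S (nat_lit 41547) (S (nat_lit 17538) (S (nat_lit 41472) (S (nat_lit 19789) (S (nat_lit 57038) (S (nat_lit 21755) (S (nat_lit 8823) (S (nat_lit 75) (S (nat_lit 48323) (S (nat_lit 986) (S (nat_lit 54879) (S (nat_lit 1034) (S (nat_lit 35087) (S (nat_lit 1019) (S (nat_lit 20736) (S (nat_lit 40531) (S (nat_lit 40564) (S (nat_lit 54837) (S (nat_lit 20811) (S (nat_lit 4844) (S (nat_lit 47268) (S (nat_lit 49892) (S (nat_lit 23763) (S (nat_lit 23796) (S (nat_lit 57231) (S (nat_lit 33013) (S (nat_lit 56986) (S (nat_lit 30451) (D (nat_lit 13) (nat_lit 9528909) (nat_lit 11290801) (nat_lit 7839658676320))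
(L (nat_lit 3984778)))
(L (nat_lit 26850627)))
(S (nat_lit 45534) (S (nat_lit 51366) (S (nat_lit 37128) (D (nat_lit 15) (nat_lit 26952742) (nat_lit 25761192) (nat_lit 7687111720))
(L (nat_lit 28726501)))
(L (nat_lit 30097764)))
(L (nat_lit 26297001))))
(L (nat_lit 13658327)))
(L (nat_lit 8509264)))
(L (nat_lit 8579760)))
(L (nat_lit 28595745)))
(L (nat_lit 16092084)))
(S (nat_lit 21054) (S (nat_lit 40807) (S (nat_lit 1277) (S (nat_lit 19037) (S (nat_lit 29578) (S (nat_lit 10914) (S (nat_lit 17638) (S (nat_lit 42814) (D (nat_lit 13) (nat_lit 26938638) (nat_lit 19670501) (nat_lit 211762118786))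
(L (nat_lit 9330113)))
(L (nat_lit 27647120)))
(L (nat_lit 30060005)))
(L (nat_lit 22889824)))
(S (nat_lit 34002) (S (nat_lit 18822) (S (nat_lit 39166) (S (nat_lit 25823) (S (nat_lit 28443) (D (nat_lit 13) (nat_lit 27998251) (nat_lit 25767461) (nat_lit 6742299711589))
(L (nat_lit 21460224)))
(L (nat_lit 28000545)))
(L (nat_lit 27892749)))
(L (nat_lit 27903171)))
(L (nat_lit 17097380))))
(L (nat_lit 4116007)))
(L (nat_lit 17913766)))
(S (nat_lit 34692) (S (nat_lit 14981) (S (nat_lit 38437) (S (nat_lit 28706) (S (nat_lit 34731) (S (nat_lit 45096) (S (nat_lit 8936) (S (nat_lit 28670) (S (nat_lit 57878) (D (nat_lit 13) (nat_lit 11691596) (nat_lit 9193583) (nat_lit 5780088824000))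
(L (nat_lit 9227651)))
(L (nat_lit 26850565)))
(S (nat_lit 49373) (S (nat_lit 31616) (S (nat_lit 17378) (D (nat_lit 15) (nat_lit 28030026) (nat_lit 25282984) (nat_lit 211560898820))
(L (nat_lit 27996354)))
(L (nat_lit 27930851)))
(L (nat_lit 6073843))))
(L (nat_lit 11955283)))
(L (nat_lit 21263437)))
(L (nat_lit 21248929)))
(L (nat_lit 9139649)))
(L (nat_lit 23360961)))
(L (nat_lit 1830092)))))
(L (nat_lit 31170020)))
(L (nat_lit 27483649)))
(L (nat_lit 27563630)))
(L (nat_lit 27643055)))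
(L (nat_lit 12470660)))
(L (nat_lit 19735937)))
(L (nat_lit 20853028)))
(L (nat_lit 19805473)))
(L (nat_lit 27898209)))
(S (nat_lit 2118) (S (nat_lit 40188) (S (nat_lit 30841) (L (nat_lit 4503161))
(L (nat_lit 26852707)))
(L (nat_lit 26851521)))
(L (nat_lit 2899625))))
(L (nat_lit 27667477)))
(L (nat_lit 26402093)))
(L (nat_lit 26590326)))
(L (nat_lit 21226609)))
(L (nat_lit 13362469)))
(L (nat_lit 8416788)))
(L (nat_lit 17427749)))
(L (nat_lit 24440192)))
(L (nat_lit 18553635)))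
(L (nat_lit 23588132)))
(L (nat_lit 14943833)))
(L (nat_lit 24458424)))
(L (nat_lit 21280825)))
(L (nat_lit 27539474)))
(L (nat_lit 9590670)))
(L (nat_lit 9090173)))
(L (nat_lit 16831239)))
(L (nat_lit 30685271)))
(L (nat_lit 5644984)))
(L (nat_lit 14537894)))
(L (nat_lit 9629265))))
(S (nat_lit 48340) (S (nat_lit 8823) (S (nat_lit 54912) (S (nat_lit 30741) (S (nat_lit 39575) (S (nat_lit 1019) (S (nat_lit 21755) (S (nat_lit 42) (L (nat_lit 9586333))
(L (nat_lit 26523827)))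
(L (nat_lit 11003062)))
(L (nat_lit 20782467)))
(L (nat_lit 12052534)))
(L (nat_lit 30722433)))
(S (nat_lit 57018) (L (nat_lit 5696103))
(L (nat_lit 14489190))))
(S (nat_lit 28587) (S (nat_lit 1034) (S (nat_lit 21722) (S (nat_lit 1975) (L (nat_lit 8479158))
(L (nat_lit 12248545)))
(L (nat_lit 1921478)))
(L (nat_lit 14395452)))
(S (nat_lit 48351) (S (nat_lit 1262) (L (nat_lit 12028539))
(L (nat_lit 5763414)))
(L (nat_lit 25539668)))))
(L (nat_lit 25342199)))))
(L (nat_lit 25337331)))))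
(S (nat_lit 57049) (S (nat_lit 75) (S (nat_lit 1290) (S (nat_lit 40564) (L (nat_lit 28869972))
(L (nat_lit 24680601)))
(S (nat_lit 21054) (S (nat_lit 54879) (L (nat_lit 27823478))
(L (nat_lit 11045653)))
(S (nat_lit 40818) (S (nat_lit 40575) (S (nat_lit 1034) (L (nat_lit 27824807))
(L (nat_lit 19457127)))
(L (nat_lit 27823474)))
(L (nat_lit 25699379)))))
(S (nat_lit 19839) (S (nat_lit 1748) (S (nat_lit 1003) (S (nat_lit 1279) (S (nat_lit 1290) (L (nat_lit 20507840))
(L (nat_lit 19940170)))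
(L (nat_lit 19938054)))
(S (nat_lit 20767) (S (nat_lit 1279) (S (nat_lit 54862) (S (nat_lit 54837) (L (nat_lit 12293597))
(L (nat_lit 19775527)))
(L (nat_lit 11559347)))
(L (nat_lit 10513006)))
(S (nat_lit 40531) (S (nat_lit 37260) (S (nat_lit 57086) (S (nat_lit 39592) (L (nat_lit 6876181))
(L (nat_lit 5821692)))
(L (nat_lit 13200741)))
(L (nat_lit 13638549)))
(L (nat_lit 25540261)))))
(S (nat_lit 21512) (S (nat_lit 54837) (S (nat_lit 28526) (S (nat_lit 1732) (L (nat_lit 12808929))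
(L (nat_lit 12595029)))
(L (nat_lit 9455195)))
(L (nat_lit 16444641)))
(S (nat_lit 41276) (S (nat_lit 1036) (S (nat_lit 54862) (S (nat_lit 35073) (S (nat_lit 10977) (L (nat_lit 2684518))
(L (nat_lit 26981697)))
(L (nat_lit 9485141)))
(L (nat_lit 4411833)))
(S (nat_lit 20800) (S (nat_lit 39592) (S (nat_lit 40562) (S (nat_lit 54868) (L (nat_lit 10017948))
(L (nat_lit 27540067)))
(L (nat_lit 3713879)))
(L (nat_lit 5821692)))
(S (nat_lit 40564) (S (nat_lit 50477) (L (nat_lit 3727637))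
(L (nat_lit 27276874)))
(L (nat_lit 25898127)))))
(L (nat_lit 25666147)))))
(S (nat_lit 39603) (S (nat_lit 1763) (S (nat_lit 21770) (S (nat_lit 41547) (S (nat_lit 1036) (S (nat_lit 41293) (S (nat_lit 48323) (S (nat_lit 1290) (S (nat_lit 54837) (S (nat_lit 35104) (S (nat_lit 48276) (S (nat_lit 57086) (S (nat_lit 40785) (S (nat_lit 6190) (S (nat_lit 23113) (S (nat_lit 21733) (S (nat_lit 39559) (S (nat_lit 1229) (S (nat_lit 10865) (S (nat_lit 9466) (S (nat_lit 56759) (S (nat_lit 19557) (S (nat_lit 20727) (D (nat_lit 13) (nat_lit 29938857) (nat_lit 19054347) (nat_lit 2339920611336))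
(L (nat_lit 19768396)))
(L (nat_lit 28947563)))
(L (nat_lit 20376800)))
(L (nat_lit 31043905)))
(S (nat_lit 23995) (S (nat_lit 12007) (S (nat_lit 29182) (D (nat_lit 15) (nat_lit 27923913) (nat_lit 25758988) (nat_lit 209380908260))
(L (nat_lit 27547011)))
(L (nat_lit 28397030)))
(L (nat_lit 6483413))))
(L (nat_lit 19279680)))
(L (nat_lit 27543630)))
(L (nat_lit 21292110)))
(L (nat_lit 17569108)))
(L (nat_lit 11029563)))
(L (nat_lit 18750179)))
(L (nat_lit 27868516)))
(L (nat_lit 20874694)))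
(L (nat_lit 10023027)))
(L (nat_lit 19072942)))
(L (nat_lit 11073155)))
(L (nat_lit 27832005)))
(L (nat_lit 27840800)))
(L (nat_lit 4772614)))
(L (nat_lit 23650441)))
(L (nat_lit 4780774)))
(S (nat_lit 21527) (S (nat_lit 54884) (S (nat_lit 21041) (S (nat_lit 37260) (S (nat_lit 41547) (S (nat_lit 64) (S (nat_lit 1279) (S (nat_lit 19826) (S (nat_lit 15351) (S (nat_lit 40575) (S (nat_lit 41304) (S (nat_lit 19789) (S (nat_lit 1262) (S (nat_lit 48276) (S (nat_lit 21021) (S (nat_lit 21750) (S (nat_lit 50525) (S (nat_lit 2355) (S (nat_lit 30746) (S (nat_lit 21490) (S (nat_lit 21004) (S (nat_lit 10374) (S (nat_lit 57426) (S (nat_lit 57183) (S (nat_lit 1575) (S (nat_lit 36472) (S (nat_lit 39749) (D (nat_lit 11) (nat_lit 28977294) (nat_lit 19674217) (nat_lit 246163702849))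
(L (nat_lit 29923350)))
(L (nat_lit 27284007)))
(L (nat_lit 27774985)))
(L (nat_lit 16601412)))
(L (nat_lit 16601413)))
(S (nat_lit 24814) (S (nat_lit 31545) (S (nat_lit 38835) (D (nat_lit 11) (nat_lit 18779718) (nat_lit 25346354) (nat_lit 206331546723))
(L (nat_lit 19307578)))
(L (nat_lit 28915008)))
(L (nat_lit 20710891))))
(L (nat_lit 1918196)))
(L (nat_lit 869589)))
(L (nat_lit 9353925)))
(L (nat_lit 11324897)))
(L (nat_lit 10974357)))
(L (nat_lit 21231139)))
(L (nat_lit 21198371)))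
(L (nat_lit 15988352)))
(L (nat_lit 19101088)))
(L (nat_lit 10065464)))
(L (nat_lit 27842569)))
(L (nat_lit 23633085)))
(L (nat_lit 24702304)))
(L (nat_lit 22585188)))
(L (nat_lit 20484907)))
(L (nat_lit 7924788)))
(L (nat_lit 27843723)))
(L (nat_lit 23654592)))
(L (nat_lit 21532521)))
(L (nat_lit 27824874)))
(S (nat_lit 41291) (S (nat_lit 48323) (S (nat_lit 54884) (S (nat_lit 15351) (S (nat_lit 40575) (S (nat_lit 28526) (S (nat_lit 1277) (S (nat_lit 19826) (S (nat_lit 1257) (S (nat_lit 54837) (S (nat_lit 40531) (S (nat_lit 57066) (S (nat_lit 1715) (S (nat_lit 21465) (S (nat_lit 25501) (S (nat_lit 54901) (S (nat_lit 30746) (S (nat_lit 57086) (S (nat_lit 39559) (S (nat_lit 21733) (S (nat_lit 20761) (S (nat_lit 12979) (S (nat_lit 19557) (S (nat_lit 56759) (S (nat_lit 31285) (S (nat_lit 40394) (D (nat_lit 13) (nat_lit 30027138) (nat_lit 19056395) (nat_lit 2374280415270))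
(L (nat_lit 19738881)))
(L (nat_lit 28824772)))
(L (nat_lit 20376614)))
(L (nat_lit 28947749)))
(S (nat_lit 18585) (S (nat_lit 9223) (S (nat_lit 55787) (S (nat_lit 21699) (D (nat_lit 13) (nat_lit 30987433) (nat_lit 19054345) (nat_lit 2446120290309))
(L (nat_lit 19767405)))
(L (nat_lit 20376769)))
(L (nat_lit 31043936)))
(L (nat_lit 14012164))))
(L (nat_lit 30999790)))
(L (nat_lit 31004686)))
(L (nat_lit 23992770)))
(L (nat_lit 19340472)))
(L (nat_lit 10216494)))
(L (nat_lit 27762707)))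
(L (nat_lit 10175233)))
(L (nat_lit 30486093)))
(L (nat_lit 13183841)))
(L (nat_lit 12269313)))
(L (nat_lit 17713158)))
(L (nat_lit 13889185)))
(L (nat_lit 20146723)))
(L (nat_lit 30984549)))
(L (nat_lit 20505607)))
(L (nat_lit 13328644)))
(L (nat_lit 27829890)))
(L (nat_lit 7925313)))
(L (nat_lit 11047796)))
(L (nat_lit 11047797)))
(L (nat_lit 25725143)))))
(L (nat_lit 25904230)))))
(L (nat_lit 25178761)))))
(S (nat_lit 50463) (S (nat_lit 17560) (S (nat_lit 1246) (S (nat_lit 1019) (S (nat_lit 28593) (S (nat_lit 54837) (L (nat_lit 6213965))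
(L (nat_lit 14347303)))
(S (nat_lit 35073) (S (nat_lit 17571) (S (nat_lit 1763) (S (nat_lit 1003) (S (nat_lit 35087) (S (nat_lit 1014) (S (nat_lit 8795) (S (nat_lit 2006) (S (nat_lit 1765) (S (nat_lit 1776) (S (nat_lit 1257) (S (nat_lit 2019) (S (nat_lit 25) (S (nat_lit 50477) (S (nat_lit 35098) (S (nat_lit 8779) (S (nat_lit 17558) (S (nat_lit 1290) (S (nat_lit 35135) (S (nat_lit 50510) (S (nat_lit 35120) (S (nat_lit 35137) (S (nat_lit 54756) (S (nat_lit 30794) (S (nat_lit 1743) (S (nat_lit 986) (S (nat_lit 1958) (S (nat_lit 5184) (S (nat_lit 37970) (S (nat_lit 2877) (S (nat_lit 2634) (S (nat_lit 14044) (S (nat_lit 7175) (D (nat_lit 11) (nat_lit 14538048) (nat_lit 25768107) (nat_lit 180388692000))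
(L (nat_lit 27732083)))
(L (nat_lit 30093382)))
(L (nat_lit 30033220)))
(L (nat_lit 30033221)))
(L (nat_lit 27935973)))
(S (nat_lit 57412) (S (nat_lit 8125) (S (nat_lit 3092) (S (nat_lit 3821) (S (nat_lit 57379) (S (nat_lit 13770) (D (nat_lit 11) (nat_lit 14472484) (nat_lit 25768291) (nat_lit 280246681632))
(L (nat_lit 30127301)))
(L (nat_lit 7214800)))
(L (nat_lit 29905125)))
(L (nat_lit 29905093)))
(L (nat_lit 27934915)))
(L (nat_lit 7079411))))
(L (nat_lit 19000776)))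
(L (nat_lit 11136451)))
(L (nat_lit 14516434)))
(L (nat_lit 10548974)))
(L (nat_lit 8451822)))
(L (nat_lit 8838019)))
(L (nat_lit 9039301)))
(L (nat_lit 10939013)))
(L (nat_lit 8841861)))
(S (nat_lit 21054) (S (nat_lit 41276) (S (nat_lit 21041) (S (nat_lit 28574) (S (nat_lit 21708) (S (nat_lit 37285) (S (nat_lit 48276) (S (nat_lit 19795) (S (nat_lit 39603) (S (nat_lit 40525) (S (nat_lit 21614) (S (nat_lit 12333) (S (nat_lit 9892) (S (nat_lit 12322) (S (nat_lit 57639) (D (nat_lit 11) (nat_lit 30624163) (nat_lit 25767363) (nat_lit 106473555201))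
(L (nat_lit 938410)))
(L (nat_lit 31143014)))
(L (nat_lit 31141958)))
(L (nat_lit 31142083)))
(S (nat_lit 40460) (S (nat_lit 19293) (S (nat_lit 17349) (S (nat_lit 32134) (D (nat_lit 11) (nat_lit 27515393) (nat_lit 25767429) (nat_lit 212843300994))
(L (nat_lit 907687)))
(L (nat_lit 29017347)))
(L (nat_lit 29016322)))
(L (nat_lit 26411664))))
(L (nat_lit 24461436)))
(L (nat_lit 18604102)))
(L (nat_lit 15631017)))
(L (nat_lit 27280007)))
(L (nat_lit 2811245)))
(L (nat_lit 15911755)))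
(L (nat_lit 10277285)))
(L (nat_lit 22049289)))
(L (nat_lit 16800680)))
(S (nat_lit 40818) (S (nat_lit 21507) (S (nat_lit 15351) (S (nat_lit 15340) (S (nat_lit 19828) (S (nat_lit 48351) (S (nat_lit 40575) (S (nat_lit 57038) (S (nat_lit 3007) (S (nat_lit 41254) (S (nat_lit 39575) (S (nat_lit 20750) (S (nat_lit 5479) (S (nat_lit 38948) (S (nat_lit 21949) (S (nat_lit 32616) (D (nat_lit 13) (nat_lit 27842753) (nat_lit 25767459) (nat_lit 6708980095109))
(L (nat_lit 27966755)))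
(L (nat_lit 27700373)))
(L (nat_lit 27866433)))
(S (nat_lit 51126) (S (nat_lit 29877) (S (nat_lit 55699) (S (nat_lit 43355) (S (nat_lit 4463) (D (nat_lit 13) (nat_lit 28690944) (nat_lit 19670499) (nat_lit 1106122966152))
(L (nat_lit 28917061)))
(L (nat_lit 13475927)))
(L (nat_lit 28947680)))
(L (nat_lit 28946723)))
(L (nat_lit 16806132))))
(L (nat_lit 16062107)))
(L (nat_lit 18538538)))
(L (nat_lit 23501573)))
(L (nat_lit 3971540)))
(L (nat_lit 12805732)))
(L (nat_lit 9985053)))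
(L (nat_lit 22821958)))
(L (nat_lit 22601922)))
(L (nat_lit 22578025)))
(L (nat_lit 22605153)))
(L (nat_lit 15759049)))
(L (nat_lit 25699474)))))
(L (nat_lit 8290892)))
(L (nat_lit 7922807)))
(L (nat_lit 2576728)))
(L (nat_lit 11209614)))
(L (nat_lit 13693641)))
(L (nat_lit 6201811)))
(L (nat_lit 11358220)))
(L (nat_lit 26492946)))
(L (nat_lit 5159498)))
(L (nat_lit 14585046)))
(L (nat_lit 7197709)))
(L (nat_lit 26575597)))
(L (nat_lit 8866905)))
(L (nat_lit 26588837)))
(L (nat_lit 19096065)))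
(L (nat_lit 2017799)))
(L (nat_lit 20389760))))
(L (nat_lit 19768705)))
(S (nat_lit 21010) (S (nat_lit 1277) (S (nat_lit 17571) (S (nat_lit 19828) (S (nat_lit 41291) (S (nat_lit 35073) (S (nat_lit 21021) (S (nat_lit 19826) (S (nat_lit 21490) (S (nat_lit 19839) (S (nat_lit 57049) (S (nat_lit 20761) (S (nat_lit 28512) (S (nat_lit 35087) (S (nat_lit 48340) (S (nat_lit 21755) (S (nat_lit 41293) (S (nat_lit 41486) (S (nat_lit 41837) (S (nat_lit 39570) (S (nat_lit 19617) (S (nat_lit 39202) (S (nat_lit 6197) (S (nat_lit 21938) (S (nat_lit 31887) (D (nat_lit 13) (nat_lit 27840550) (nat_lit 25767089) (nat_lit 6708980095109))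
(L (nat_lit 16617162)))
(L (nat_lit 27697828)))
(L (nat_lit 27699841)))
(L (nat_lit 27865281)))
(S (nat_lit 44234) (S (nat_lit 49842) (S (nat_lit 43792) (S (nat_lit 4372) (S (nat_lit 55688) (D (nat_lit 13) (nat_lit 30923012) (nat_lit 25765039) (nat_lit 3509159202055))
(L (nat_lit 28939655)))
(L (nat_lit 30840916)))
(L (nat_lit 28748949)))
(L (nat_lit 28915787)))
(L (nat_lit 18980248))))
(L (nat_lit 4908550)))
(L (nat_lit 28485175)))
(L (nat_lit 18422842)))
(L (nat_lit 1260124)))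
(L (nat_lit 15868758)))
(L (nat_lit 20787209)))
(L (nat_lit 19948075)))
(L (nat_lit 12813206)))
(L (nat_lit 15009588)))
(L (nat_lit 14707062)))
(L (nat_lit 15888038)))
(L (nat_lit 10906740)))
(L (nat_lit 8965273)))
(L (nat_lit 22241293)))
(L (nat_lit 13522113)))
(L (nat_lit 7163393)))
(L (nat_lit 22907086)))
(S (nat_lit 37335) (S (nat_lit 342) (L (nat_lit 22176975))
(L (nat_lit 5850887)))
(S (nat_lit 57099) (S (nat_lit 35073) (S (nat_lit 1715) (L (nat_lit 3817351))
(L (nat_lit 13215773)))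
(L (nat_lit 12839585)))
(L (nat_lit 25512049)))))
(S (nat_lit 21041) (S (nat_lit 10600) (L (nat_lit 5065255))
(S (nat_lit 35073) (S (nat_lit 17571) (S (nat_lit 41260) (S (nat_lit 41291) (S (nat_lit 1019) (S (nat_lit 8795) (S (nat_lit 21021) (S (nat_lit 8762) (S (nat_lit 36221) (S (nat_lit 1014) (S (nat_lit 52016) (S (nat_lit 8823) (S (nat_lit 50494) (S (nat_lit 2006) (S (nat_lit 1003) (S (nat_lit 52002) (S (nat_lit 14013) (S (nat_lit 28942) (S (nat_lit 58384) (D (nat_lit 15) (nat_lit 6874692) (nat_lit 7365138) (nat_lit 1244863522))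
(L (nat_lit 22885666)))
(L (nat_lit 27743585)))
(S (nat_lit 49231) (S (nat_lit 29185) (S (nat_lit 38375) (S (nat_lit 57136) (D (nat_lit 15) (nat_lit 6712993) (nat_lit 4678216) (nat_lit 247028911304))
(L (nat_lit 22955264)))
(L (nat_lit 19360035)))
(L (nat_lit 27741475)))
(L (nat_lit 5694743))))
(L (nat_lit 17901211)))
(L (nat_lit 19769792)))
(L (nat_lit 26758336)))
(L (nat_lit 14996355)))
(L (nat_lit 8270964)))
(L (nat_lit 28393717)))
(L (nat_lit 4894264)))
(L (nat_lit 22949927)))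
(L (nat_lit 7016271)))
(L (nat_lit 22167338)))
(L (nat_lit 6714389)))
(L (nat_lit 14348359)))
(L (nat_lit 7163425)))
(L (nat_lit 7228896)))
(L (nat_lit 7256672)))
(L (nat_lit 12642983))))
(S (nat_lit 40805) (S (nat_lit 1776) (S (nat_lit 57038) (L (nat_lit 6868123))
(L (nat_lit 12094168)))
(S (nat_lit 21540) (S (nat_lit 17510) (L (nat_lit 22263681))
(L (nat_lit 567122)))
(S (nat_lit 41304) (S (nat_lit 21496) (S (nat_lit 14) (S (nat_lit 21021) (S (nat_lit 48276) (S (nat_lit 8795) (S (nat_lit 1019) (S (nat_lit 35098) (S (nat_lit 19795) (S (nat_lit 21026) (S (nat_lit 37274) (S (nat_lit 21708) (S (nat_lit 14212) (S (nat_lit 8736) (S (nat_lit 8741) (S (nat_lit 14800) (S (nat_lit 9437) (S (nat_lit 55452) (S (nat_lit 14816) (S (nat_lit 58156) (S (nat_lit 10135) (D (nat_lit 13) (nat_lit 30754959) (nat_lit 25759179) (nat_lit 2305362534657))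
(L (nat_lit 30027942)))
(L (nat_lit 9259024)))
(L (nat_lit 29958161)))
(L (nat_lit 9325088)))
(L (nat_lit 29962528)))
(S (nat_lit 40703) (S (nat_lit 57142) (S (nat_lit 12819) (S (nat_lit 56444) (S (nat_lit 12607) (S (nat_lit 13839) (D (nat_lit 13) (nat_lit 30756324) (nat_lit 25761134) (nat_lit 2305362534657))
(L (nat_lit 31008291)))
(L (nat_lit 31174851)))
(L (nat_lit 22884520)))
(L (nat_lit 29742596)))
(L (nat_lit 22951109)))
(L (nat_lit 6972866))))
(L (nat_lit 29382022)))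
(L (nat_lit 20147212)))
(L (nat_lit 23083782)))
(L (nat_lit 16109381)))
(L (nat_lit 2318772)))
(L (nat_lit 22244738)))
(L (nat_lit 9515796)))
(L (nat_lit 8449523)))
(L (nat_lit 20418311)))
(L (nat_lit 8238133)))
(L (nat_lit 22244800)))
(L (nat_lit 22821896)))
(L (nat_lit 1261245)))
(L (nat_lit 14928640)))
(L (nat_lit 25222380)))))
(L (nat_lit 25931783)))))
(S (nat_lit 40774) (S (nat_lit 1257) (S (nat_lit 21527) (S (nat_lit 54862) (S (nat_lit 21722) (S (nat_lit 20750) (L (nat_lit 487766))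
(L (nat_lit 5690585)))
(L (nat_lit 10933305)))
(L (nat_lit 5794131)))
(L (nat_lit 16009273)))
(S (nat_lit 21021) (S (nat_lit 1958) (S (nat_lit 41304) (S (nat_lit 41276) (S (nat_lit 17538) (L (nat_lit 22065528))
(L (nat_lit 6418063)))
(L (nat_lit 23095686)))
(L (nat_lit 7166988)))
(S (nat_lit 21722) (S (nat_lit 52638) (L (nat_lit 6342546))
(L (nat_lit 15339270)))
(S (nat_lit 41486) (S (nat_lit 21540) (S (nat_lit 20750) (L (nat_lit 16118934))
(L (nat_lit 7149233)))
(L (nat_lit 5462797)))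
(L (nat_lit 25770120)))))
(S (nat_lit 40785) (S (nat_lit 15356) (S (nat_lit 14) (S (nat_lit 17558) (S (nat_lit 8795) (S (nat_lit 48340) (S (nat_lit 21529) (S (nat_lit 57038) (S (nat_lit 40575) (S (nat_lit 48338) (S (nat_lit 19828) (S (nat_lit 40562) (S (nat_lit 37307) (S (nat_lit 21750) (S (nat_lit 35098) (S (nat_lit 25049) (S (nat_lit 5545) (S (nat_lit 43507) (S (nat_lit 39575) (S (nat_lit 4286) (S (nat_lit 40741) (S (nat_lit 56207) (S (nat_lit 19379) (D (nat_lit 15) (nat_lit 30953668) (nat_lit 25759052) (nat_lit 109523866792))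
(L (nat_lit 29510184)))
(L (nat_lit 15550757)))
(S (nat_lit 45515) (S (nat_lit 31382) (S (nat_lit 10052) (D (nat_lit 15) (nat_lit 27744427) (nat_lit 25761037) (nat_lit 209380908260))
(L (nat_lit 27528879)))
(L (nat_lit 27861444)))
(L (nat_lit 5070126))))
(L (nat_lit 28745910)))
(L (nat_lit 5135600)))
(L (nat_lit 20309441)))
(L (nat_lit 29734036)))
(L (nat_lit 29500919)))
(L (nat_lit 12805763)))
(L (nat_lit 4860444)))
(L (nat_lit 2649330)))
(L (nat_lit 24652547)))
(L (nat_lit 16452861)))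
(L (nat_lit 22199051)))
(L (nat_lit 24645418)))
(L (nat_lit 27476084)))
(L (nat_lit 840074)))
(L (nat_lit 4845804)))
(L (nat_lit 311005)))
(L (nat_lit 671101)))
(L (nat_lit 1502891)))
(S (nat_lit 35120) (S (nat_lit 2019) (S (nat_lit 35104) (S (nat_lit 1034) (S (nat_lit 8795) (S (nat_lit 14) (S (nat_lit 1014) (S (nat_lit 21540) (S (nat_lit 1003) (S (nat_lit 8812) (S (nat_lit 21529) (S (nat_lit 1991) (S (nat_lit 35087) (S (nat_lit 36693) (S (nat_lit 36768) (S (nat_lit 2617) (S (nat_lit 38375) (S (nat_lit 48625) (S (nat_lit 5215) (S (nat_lit 30562) (S (nat_lit 38699) (D (nat_lit 15) (nat_lit 6116688) (nat_lit 16533795) (nat_lit 68853960936))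
(L (nat_lit 27677956)))
(L (nat_lit 22885636)))
(L (nat_lit 27918859)))
(L (nat_lit 21457249)))
(L (nat_lit 21457185)))
(S (nat_lit 7402) (S (nat_lit 29903) (S (nat_lit 50164) (S (nat_lit 57423) (D (nat_lit 15) (nat_lit 8212525) (nat_lit 2646354) (nat_lit 175055837284))
(L (nat_lit 22884643)))
(L (nat_lit 29904132)))
(L (nat_lit 27740484)))
(L (nat_lit 11622906))))
(L (nat_lit 30022178)))
(L (nat_lit 10376644)))
(L (nat_lit 3398415)))
(L (nat_lit 26876017)))
(L (nat_lit 15408965)))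
(L (nat_lit 24021228)))
(L (nat_lit 26225327)))
(L (nat_lit 7400946)))
(L (nat_lit 11179917)))
(L (nat_lit 26459254)))
(L (nat_lit 21867565)))
(L (nat_lit 2679030)))
(L (nat_lit 2825624)))
(S (nat_lit 6051) (L (nat_lit 2377465))
(L (nat_lit 6178035))))
(S (nat_lit 54884) (S (nat_lit 8795) (S (nat_lit 17571) (S (nat_lit 2019) (S (nat_lit 54868) (S (nat_lit 21540) (S (nat_lit 21527) (S (nat_lit 40790) (S (nat_lit 1279) (S (nat_lit 39603) (S (nat_lit 41229) (S (nat_lit 1732) (S (nat_lit 46309) (S (nat_lit 40525) (S (nat_lit 48276) (S (nat_lit 13704) (S (nat_lit 6976) (S (nat_lit 21405) (S (nat_lit 18807) (S (nat_lit 17349) (S (nat_lit 31162) (D (nat_lit 11) (nat_lit 27515393) (nat_lit 25767088) (nat_lit 212843300994))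
(L (nat_lit 4051465)))
(L (nat_lit 27963403)))
(L (nat_lit 28429770)))
(S (nat_lit 49225) (S (nat_lit 29430) (S (nat_lit 32346) (S (nat_lit 15701) (D (nat_lit 11) (nat_lit 27744448) (nat_lit 25765038) (nat_lit 212843302980))
(L (nat_lit 27865347)))
(L (nat_lit 21926377)))
(L (nat_lit 21926344)))
(L (nat_lit 13213724))))
(L (nat_lit 20016520)))
(L (nat_lit 20114950)))
(L (nat_lit 20874478)))
(L (nat_lit 24036645)))
(L (nat_lit 29741509)))
(L (nat_lit 19768773)))
(L (nat_lit 9015741)))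
(L (nat_lit 11047731)))
(L (nat_lit 9353825)))
(L (nat_lit 665521)))
(L (nat_lit 16020163)))
(L (nat_lit 30622738)))
(L (nat_lit 15992540)))
(L (nat_lit 13856818)))
(L (nat_lit 7256672)))
(L (nat_lit 23636741)))
(L (nat_lit 25897007)))))
(L (nat_lit 25213235)))))
(L (nat_lit 25630069)))))
(S (nat_lit 37324) (S (nat_lit 25) (S (nat_lit 1036) (S (nat_lit 15340) (S (nat_lit 864) (L (nat_lit 2009708))
(S (nat_lit 19826) (S (nat_lit 1715) (S (nat_lit 1034) (L (nat_lit 14388038))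
(L (nat_lit 20488317)))
(S (nat_lit 8898) (S (nat_lit 35087) (S (nat_lit 57022) (L (nat_lit 14584393))
(L (nat_lit 20263097)))
(L (nat_lit 8851161)))
(L (nat_lit 19327297))))
(L (nat_lit 22577962))))
(S (nat_lit 35104) (S (nat_lit 972) (S (nat_lit 64) (S (nat_lit 1991) (S (nat_lit 1047) (S (nat_lit 50505) (L (nat_lit 14459553))
(L (nat_lit 11658865)))
(L (nat_lit 13928121)))
(L (nat_lit 26264168)))
(L (nat_lit 14591587)))
(S (nat_lit 20736) (S (nat_lit 1765) (S (nat_lit 1279) (S (nat_lit 21465) (L (nat_lit 4813288))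
(L (nat_lit 16050788)))
(L (nat_lit 5794406)))
(L (nat_lit 12085856)))
(S (nat_lit 40500) (S (nat_lit 2019) (S (nat_lit 30730) (S (nat_lit 15384) (L (nat_lit 11437676))
(L (nat_lit 26717793)))
(L (nat_lit 13718441)))
(L (nat_lit 19830924)))
(L (nat_lit 25797026)))))
(S (nat_lit 54868) (S (nat_lit 31772) (L (nat_lit 13423623))
(S (nat_lit 37285) (S (nat_lit 37322) (S (nat_lit 1019) (S (nat_lit 54862) (S (nat_lit 8795) (S (nat_lit 8471) (L (nat_lit 6309719))
(L (nat_lit 8410525)))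
(L (nat_lit 6706949)))
(L (nat_lit 13882178)))
(L (nat_lit 26428003)))
(L (nat_lit 20316505)))
(L (nat_lit 20507785))))
(L (nat_lit 25580802)))))
(S (nat_lit 20800) (S (nat_lit 1975) (S (nat_lit 37322) (S (nat_lit 1986) (S (nat_lit 20811) (S (nat_lit 37285) (S (nat_lit 14) (S (nat_lit 7770) (L (nat_lit 5455544))
(L (nat_lit 20847789)))
(L (nat_lit 26629194)))
(L (nat_lit 20507784)))
(L (nat_lit 30975154)))
(L (nat_lit 19119011)))
(L (nat_lit 20268185)))
(S (nat_lit 21739) (S (nat_lit 10977) (S (nat_lit 21479) (L (nat_lit 29378895))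
(L (nat_lit 14999574)))
(L (nat_lit 901460)))
(S (nat_lit 41503) (S (nat_lit 9109) (L (nat_lit 21531495))
(S (nat_lit 20798) (S (nat_lit 1748) (S (nat_lit 2019) (S (nat_lit 1279) (L (nat_lit 14454132))
(L (nat_lit 14593633)))
(L (nat_lit 20135992)))
(S (nat_lit 41087) (S (nat_lit 2019) (S (nat_lit 48276) (L (nat_lit 13638548))
(L (nat_lit 20880833)))
(L (nat_lit 20135992)))
(L (nat_lit 20816257))))
(L (nat_lit 897271))))
(L (nat_lit 25630346)))))
(S (nat_lit 40564) (S (nat_lit 1262) (S (nat_lit 19828) (S (nat_lit 1003) (S (nat_lit 15340) (S (nat_lit 54912) (L (nat_lit 6206054))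
(L (nat_lit 14495328)))
(L (nat_lit 26294889)))
(L (nat_lit 9291951)))
(L (nat_lit 4039279)))
(S (nat_lit 21026) (S (nat_lit 2019) (S (nat_lit 15340) (S (nat_lit 20783) (L (nat_lit 738089))
(L (nat_lit 12029783)))
(L (nat_lit 1358459)))
(L (nat_lit 12258124)))
(S (nat_lit 40790) (S (nat_lit 40575) (S (nat_lit 15340) (S (nat_lit 37322) (L (nat_lit 12436661))
(L (nat_lit 17662290)))
(L (nat_lit 7420538)))
(L (nat_lit 27993260)))
(L (nat_lit 25306737)))))
(L (nat_lit 25410144)))))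
(S (nat_lit 19789) (S (nat_lit 8795) (S (nat_lit 1715) (S (nat_lit 1229) (L (nat_lit 28595341))
(L (nat_lit 19304669)))
(L (nat_lit 19310621)))
(S (nat_lit 28559) (S (nat_lit 1776) (S (nat_lit 2019) (S (nat_lit 1047) (L (nat_lit 2644315))
(L (nat_lit 19432825)))
(L (nat_lit 9994937)))
(L (nat_lit 19437753)))
(S (nat_lit 48323) (S (nat_lit 17571) (S (nat_lit 15334) (S (nat_lit 1019) (L (nat_lit 16683592))
(L (nat_lit 20824385)))
(L (nat_lit 22081900)))
(L (nat_lit 1653017)))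
(L (nat_lit 25580586)))))
(S (nat_lit 39553) (S (nat_lit 1748) (S (nat_lit 25821) (L (nat_lit 16619080))
(S (nat_lit 54862) (S (nat_lit 17510) (S (nat_lit 1279) (S (nat_lit 1019) (L (nat_lit 27461044))
(L (nat_lit 10509756)))
(L (nat_lit 10512821)))
(S (nat_lit 37274) (S (nat_lit 30713) (S (nat_lit 1019) (L (nat_lit 17542331))
(L (nat_lit 26232425)))
(L (nat_lit 18899370)))
(S (nat_lit 57038) (S (nat_lit 21529) (L (nat_lit 11317428))
(L (nat_lit 5455700)))
(L (nat_lit 25179754)))))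
(L (nat_lit 4415987))))
(S (nat_lit 21512) (S (nat_lit 997) (S (nat_lit 54862) (S (nat_lit 8779) (S (nat_lit 1290) (L (nat_lit 28532256))
(L (nat_lit 20880835)))
(L (nat_lit 15585571)))
(L (nat_lit 20996465)))
(S (nat_lit 20761) (S (nat_lit 54862) (S (nat_lit 1944) (S (nat_lit 20767) (S (nat_lit 39542) (L (nat_lit 5660422))
(L (nat_lit 5165546)))
(L (nat_lit 5761702)))
(L (nat_lit 5678713)))
(L (nat_lit 21868002)))
(S (nat_lit 40525) (S (nat_lit 8779) (S (nat_lit 35087) (L (nat_lit 16816763))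
(L (nat_lit 20137049)))
(L (nat_lit 15566568)))
(L (nat_lit 25445428)))))
(S (nat_lit 41276) (S (nat_lit 8640) (L (nat_lit 28001635))
(S (nat_lit 54862) (S (nat_lit 2019) (S (nat_lit 57049) (L (nat_lit 18882044))
(L (nat_lit 12601721)))
(S (nat_lit 21783) (S (nat_lit 57049) (L (nat_lit 9465303))
(L (nat_lit 11048601)))
(S (nat_lit 41547) (S (nat_lit 57049) (S (nat_lit 40805) (L (nat_lit 28319188))
(L (nat_lit 27797526)))
(L (nat_lit 27274832)))
(L (nat_lit 25386124)))))
(L (nat_lit 27480483))))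
(L (nat_lit 25870625)))))
(L (nat_lit 25772168)))))
(S (nat_lit 57088) (S (nat_lit 8762) (S (nat_lit 10982) (S (nat_lit 1240) (S (nat_lit 41514) (S (nat_lit 1715) (S (nat_lit 19806) (L (nat_lit 29759078))
(L (nat_lit 15634151)))
(L (nat_lit 19311457)))
(L (nat_lit 27932683)))
(S (nat_lit 21004) (S (nat_lit 21527) (S (nat_lit 19806) (L (nat_lit 19951917))
(L (nat_lit 15633094)))
(L (nat_lit 21866017)))
(S (nat_lit 40768) (S (nat_lit 57055) (S (nat_lit 35087) (L (nat_lit 14851800))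
(L (nat_lit 20137081)))
(L (nat_lit 5981497)))
(L (nat_lit 25352430)))))
(S (nat_lit 30746) (S (nat_lit 17496) (S (nat_lit 21010) (S (nat_lit 21496) (S (nat_lit 1743) (L (nat_lit 1298352))
(L (nat_lit 12768473)))
(L (nat_lit 5925354)))
(L (nat_lit 12216804)))
(S (nat_lit 37260) (S (nat_lit 1763) (S (nat_lit 54862) (L (nat_lit 5523286))
(L (nat_lit 13833046)))
(S (nat_lit 36164) (L (nat_lit 5824327))
(L (nat_lit 19084161))))
(S (nat_lit 57024) (S (nat_lit 3558) (L (nat_lit 13848761))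
(S (nat_lit 54901) (S (nat_lit 1986) (L (nat_lit 4419181))
(L (nat_lit 26556435)))
(L (nat_lit 21406777))))
(L (nat_lit 25363121)))))
(S (nat_lit 50510) (S (nat_lit 1215) (S (nat_lit 53611) (L (nat_lit 5823736))
(S (nat_lit 57066) (S (nat_lit 1701) (S (nat_lit 50525) (S (nat_lit 50538) (S (nat_lit 972) (S (nat_lit 1279) (S (nat_lit 1765) (L (nat_lit 7420537))
(L (nat_lit 5155438)))
(L (nat_lit 11440750)))
(L (nat_lit 19707140)))
(L (nat_lit 10904128)))
(L (nat_lit 5959022)))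
(L (nat_lit 10029465)))
(L (nat_lit 14798598))))
(S (nat_lit 20979) (S (nat_lit 1986) (S (nat_lit 21041) (S (nat_lit 21540) (S (nat_lit 15309) (L (nat_lit 738521))
(L (nat_lit 14935063)))
(L (nat_lit 15404971)))
(L (nat_lit 11612889)))
(L (nat_lit 13436115)))
(S (nat_lit 40743) (S (nat_lit 35087) (S (nat_lit 35137) (S (nat_lit 1944) (L (nat_lit 30024813))
(L (nat_lit 11657837)))
(L (nat_lit 23900200)))
(L (nat_lit 20149637)))
(L (nat_lit 25768195)))))
(L (nat_lit 25433651)))))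
(S (nat_lit 28526) (S (nat_lit 17571) (S (nat_lit 1019) (S (nat_lit 35087) (S (nat_lit 1715) (S (nat_lit 1229) (L (nat_lit 29536935))
(L (nat_lit 12774025)))
(L (nat_lit 12970627)))
(L (nat_lit 19973401)))
(S (nat_lit 20783) (S (nat_lit 35148) (S (nat_lit 1726) (L (nat_lit 26935847))
(L (nat_lit 13214624)))
(L (nat_lit 17985127)))
(S (nat_lit 40547) (S (nat_lit 44598) (L (nat_lit 13273000))
(L (nat_lit 12214688)))
(L (nat_lit 25838849)))))
(S (nat_lit 37335) (S (nat_lit 1969) (S (nat_lit 1726) (S (nat_lit 1240) (L (nat_lit 10579476))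
(L (nat_lit 19303334)))
(L (nat_lit 19309472)))
(S (nat_lit 21733) (S (nat_lit 1229) (S (nat_lit 986) (L (nat_lit 23326080))
(L (nat_lit 19230177)))
(S (nat_lit 39855) (L (nat_lit 4823981))
(L (nat_lit 3796455))))
(S (nat_lit 41497) (S (nat_lit 972) (S (nat_lit 19826) (S (nat_lit 21043) (L (nat_lit 5029237))
(L (nat_lit 12368449)))
(L (nat_lit 22583481)))
(L (nat_lit 8532601)))
(L (nat_lit 25756170)))))
(S (nat_lit 57099) (S (nat_lit 972) (S (nat_lit 2006) (S (nat_lit 997) (S (nat_lit 28537) (S (nat_lit 50477) (S (nat_lit 25) (S (nat_lit 986) (S (nat_lit 2019) (S (nat_lit 57086) (S (nat_lit 8795) (S (nat_lit 17543) (S (nat_lit 13244) (S (nat_lit 30730) (L (nat_lit 29790418))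
(L (nat_lit 10056195)))
(S (nat_lit 21490) (L (nat_lit 5646970))
(L (nat_lit 15002740))))
(L (nat_lit 16478405)))
(L (nat_lit 8109117)))
(L (nat_lit 10671512)))
(L (nat_lit 19088440)))
(L (nat_lit 10938391)))
(L (nat_lit 20327611)))
(L (nat_lit 5153301)))
(L (nat_lit 10172259)))
(L (nat_lit 19140123)))
(S (nat_lit 22855) (L (nat_lit 4661170))
(L (nat_lit 18953126))))
(S (nat_lit 20736) (S (nat_lit 21465) (S (nat_lit 13953) (L (nat_lit 14839399))
(L (nat_lit 12358253)))
(S (nat_lit 55931) (S (nat_lit 54884) (L (nat_lit 21021913))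
(L (nat_lit 5647284)))
(L (nat_lit 30782050))))
(S (nat_lit 40500) (S (nat_lit 2877) (L (nat_lit 5988652))
(S (nat_lit 21496) (S (nat_lit 19826) (L (nat_lit 10334389))
(L (nat_lit 30552778)))
(L (nat_lit 11146158))))
(L (nat_lit 25239987)))))
(L (nat_lit 25825799)))))
(S (nat_lit 48290) (S (nat_lit 11010) (S (nat_lit 1262) (S (nat_lit 39559) (S (nat_lit 48212) (L (nat_lit 18924891))
(L (nat_lit 19083448)))
(L (nat_lit 11155234)))
(S (nat_lit 21026) (S (nat_lit 39559) (S (nat_lit 15351) (S (nat_lit 17571) (L (nat_lit 31000998))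
(L (nat_lit 22975911)))
(L (nat_lit 907687)))
(L (nat_lit 4660889)))
(S (nat_lit 40790) (S (nat_lit 15351) (S (nat_lit 17571) (L (nat_lit 15360102))
(L (nat_lit 25040295)))
(L (nat_lit 1923495)))
(L (nat_lit 25828768)))))
(S (nat_lit 30774) (S (nat_lit 15351) (S (nat_lit 1732) (S (nat_lit 40805) (L (nat_lit 30969511))
(L (nat_lit 23933152)))
(L (nat_lit 20820192)))
(S (nat_lit 35115) (S (nat_lit 14576) (L (nat_lit 12672249))
(S (nat_lit 37291) (S (nat_lit 2006) (S (nat_lit 48276) (S (nat_lit 34757) (S (nat_lit 19795) (S (nat_lit 1593) (L (nat_lit 3458648))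
(L (nat_lit 27544992)))
(L (nat_lit 10242530)))
(L (nat_lit 29765184)))
(L (nat_lit 6208198)))
(L (nat_lit 6206150)))
(L (nat_lit 3065449))))
(S (nat_lit 54879) (S (nat_lit 31102) (S (nat_lit 31588) (L (nat_lit 13474935))
(L (nat_lit 20180141)))
(S (nat_lit 37285) (S (nat_lit 1019) (S (nat_lit 20811) (S (nat_lit 21722) (S (nat_lit 15371) (S (nat_lit 37302) (S (nat_lit 21496) (L (nat_lit 5618333))
(L (nat_lit 21931023)))
(L (nat_lit 2903430)))
(L (nat_lit 15637684)))
(L (nat_lit 15542326)))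
(L (nat_lit 5822684)))
(S (nat_lit 15184) (L (nat_lit 4831578))
(L (nat_lit 20422433))))
(L (nat_lit 19967853))))
(L (nat_lit 25480334)))))
(S (nat_lit 50538) (S (nat_lit 17543) (S (nat_lit 26064) (L (nat_lit 6084007))
(S (nat_lit 35087) (S (nat_lit 20979) (S (nat_lit 21465) (L (nat_lit 14709351))
(L (nat_lit 6172978)))
(L (nat_lit 12464242)))
(L (nat_lit 19952943))))
(S (nat_lit 37307) (S (nat_lit 21512) (S (nat_lit 21026) (S (nat_lit 39603) (L (nat_lit 23076283))
(L (nat_lit 12115841)))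
(L (nat_lit 4661142)))
(L (nat_lit 10946454)))
(S (nat_lit 57071) (S (nat_lit 1765) (S (nat_lit 1279) (L (nat_lit 5788984))
(L (nat_lit 13537899)))
(L (nat_lit 13544037)))
(L (nat_lit 25695444)))))
(L (nat_lit 25548192)))))
(L (nat_lit 25216307)))))
(L (nat_lit 25823469)))))
(L (nat_lit 25362998)))))

theorem rb246_0_6 : run 4 lb246 [] tb246_0_6 kb246 [0, 2008, 50488, 8790] [] = true := by
  decide +kernel

noncomputable def tb179_0 : Tr :=
(S (nat_lit 9044) (S (nat_lit 10987) (S (nat_lit 13687) (S (nat_lit 13418) (S (nat_lit 52) (S (nat_lit 7098) (S (nat_lit 44928) (S (nat_lit 6829) (S (nat_lit 9313) (S (nat_lit 30038) (S (nat_lit 45119) (S (nat_lit 34412) (S (nat_lit 37021) (S (nat_lit 40564) (S (nat_lit 4398) (L (nat_lit 28771574))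
(L (nat_lit 19395936)))
(L (nat_lit 3691865)))
(L (nat_lit 31113540)))
(L (nat_lit 2936144)))
(L (nat_lit 27870528)))
(L (nat_lit 19055963)))
(L (nat_lit 23082331)))
(L (nat_lit 21067304)))
(L (nat_lit 24980002)))
(L (nat_lit 13470038)))
(S (nat_lit 20249) (L (nat_lit 6874132))
(L (nat_lit 13490498))))
(S (nat_lit 33182) (S (nat_lit 46124) (S (nat_lit 530) (S (nat_lit 15585) (S (nat_lit 11478) (S (nat_lit 31229) (L (nat_lit 323280))
(L (nat_lit 31175754)))
(L (nat_lit 8280581)))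
(L (nat_lit 6315952)))
(S (nat_lit 50649) (L (nat_lit 18711894))
(L (nat_lit 5756253))))
(S (nat_lit 49376) (L (nat_lit 23528701))
(L (nat_lit 6010202))))
(S (nat_lit 52946) (S (nat_lit 11254) (S (nat_lit 4398) (S (nat_lit 40775) (S (nat_lit 7098) (S (nat_lit 530) (L (nat_lit 1527164))
(L (nat_lit 26879490)))
(L (nat_lit 21460293)))
(L (nat_lit 23295024)))
(L (nat_lit 26238289)))
(S (nat_lit 31018) (S (nat_lit 14648) (L (nat_lit 606553))
(L (nat_lit 26873168)))
(S (nat_lit 50782) (S (nat_lit 14856) (L (nat_lit 26512946))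
(L (nat_lit 13328489)))
(L (nat_lit 25210608)))))
(L (nat_lit 25182546)))))
(S (nat_lit 33451) (S (nat_lit 6589) (S (nat_lit 9243) (S (nat_lit 6596) (S (nat_lit 11465) (S (nat_lit 40564) (S (nat_lit 6863) (S (nat_lit 10482) (L (nat_lit 414045))
(L (nat_lit 26237417)))
(L (nat_lit 21358049)))
(L (nat_lit 1364910)))
(L (nat_lit 21864898)))
(S (nat_lit 8135) (L (nat_lit 20997609))
(L (nat_lit 8193587))))
(S (nat_lit 29007) (S (nat_lit 6596) (S (nat_lit 40564) (S (nat_lit 47843) (L (nat_lit 12898394))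
(L (nat_lit 1645082)))
(L (nat_lit 1369710)))
(L (nat_lit 8238693)))
(S (nat_lit 48771) (S (nat_lit 44928) (S (nat_lit 48334) (L (nat_lit 26366345))
(L (nat_lit 27401623)))
(S (nat_lit 57969) (L (nat_lit 7161967))
(L (nat_lit 23194959))))
(L (nat_lit 25694919)))))
(S (nat_lit 26353) (S (nat_lit 7098) (S (nat_lit 8806) (S (nat_lit 8786) (S (nat_lit 543) (S (nat_lit 6822) (S (nat_lit 13418) (L (nat_lit 6771490))
(L (nat_lit 13488449)))
(L (nat_lit 7435980)))
(L (nat_lit 8106819)))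
(L (nat_lit 21293509)))
(L (nat_lit 21422184)))
(S (nat_lit 26862) (S (nat_lit 44648) (S (nat_lit 6827) (S (nat_lit 40564) (L (nat_lit 7195724))
(L (nat_lit 23179118)))
(L (nat_lit 6747155)))
(L (nat_lit 8228246)))
(S (nat_lit 46626) (S (nat_lit 7290) (S (nat_lit 11254) (S (nat_lit 28079) (L (nat_lit 13719400))
(L (nat_lit 8121392)))
(L (nat_lit 23538501)))
(L (nat_lit 23093672)))
(L (nat_lit 25313622)))))
(S (nat_lit 46117) (S (nat_lit 44209) (S (nat_lit 8806) (S (nat_lit 8786) (S (nat_lit 37021) (S (nat_lit 11971) (L (nat_lit 1324850))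
(L (nat_lit 26522770)))
(L (nat_lit 4960177)))
(L (nat_lit 1356565)))
(L (nat_lit 1972631)))
(S (nat_lit 53237) (S (nat_lit 33531) (L (nat_lit 10568285))
(L (nat_lit 21791053)))
(L (nat_lit 12637097))))
(L (nat_lit 25277650)))))
(S (nat_lit 53215) (S (nat_lit 6863) (S (nat_lit 8584) (S (nat_lit 6589) (S (nat_lit 8315) (S (nat_lit 7342) (S (nat_lit 20294) (L (nat_lit 1299994))
(L (nat_lit 1532247)))
(L (nat_lit 13180803)))
(L (nat_lit 13474467)))
(L (nat_lit 26817545)))
(S (nat_lit 28348) (S (nat_lit 6589) (S (nat_lit 6596) (S (nat_lit 7112) (S (nat_lit 7114) (S (nat_lit 24162) (L (nat_lit 3463985))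
(L (nat_lit 30419411)))
(L (nat_lit 26295880)))
(L (nat_lit 21053194)))
(L (nat_lit 21837124)))
(L (nat_lit 21836809)))
(S (nat_lit 48112) (S (nat_lit 34849) (S (nat_lit 44706) (S (nat_lit 52946) (L (nat_lit 1467050))
(L (nat_lit 20998480)))
(L (nat_lit 8216065)))
(L (nat_lit 8209060)))
(L (nat_lit 25871553)))))
(S (nat_lit 26627) (S (nat_lit 7342) (S (nat_lit 25402) (S (nat_lit 44706) (S (nat_lit 7098) (S (nat_lit 52) (L (nat_lit 23955790))
(L (nat_lit 8000430)))
(L (nat_lit 14486118)))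
(L (nat_lit 23933121)))
(L (nat_lit 21332909)))
(S (nat_lit 27106) (S (nat_lit 47843) (S (nat_lit 6827) (S (nat_lit 8786) (L (nat_lit 7932475))
(L (nat_lit 6909381)))
(L (nat_lit 23871779)))
(L (nat_lit 7048730)))
(S (nat_lit 46870) (S (nat_lit 44928) (S (nat_lit 4892) (L (nat_lit 21868649))
(L (nat_lit 6349335)))
(L (nat_lit 14743144)))
(L (nat_lit 25761007)))))
(S (nat_lit 46391) (S (nat_lit 10711) (S (nat_lit 44706) (S (nat_lit 8786) (L (nat_lit 21868649))
(L (nat_lit 23366415)))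
(L (nat_lit 23390721)))
(S (nat_lit 30475) (S (nat_lit 44706) (S (nat_lit 13418) (S (nat_lit 24162) (S (nat_lit 7116) (L (nat_lit 21498761))
(L (nat_lit 7978885)))
(L (nat_lit 21467484)))
(L (nat_lit 7370292)))
(L (nat_lit 13442689)))
(S (nat_lit 50239) (S (nat_lit 54176) (S (nat_lit 530) (L (nat_lit 28838194))
(L (nat_lit 7191574)))
(L (nat_lit 17636964)))
(L (nat_lit 25696964)))))
(L (nat_lit 25801739)))))
(L (nat_lit 25544260)))))
(S (nat_lit 30751) (S (nat_lit 5389) (S (nat_lit 4398) (S (nat_lit 13160) (S (nat_lit 8057) (S (nat_lit 5400) (L (nat_lit 12879667))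
(L (nat_lit 4672856)))
(L (nat_lit 23967782)))
(S (nat_lit 32924) (S (nat_lit 7609) (S (nat_lit 10274) (S (nat_lit 15814) (S (nat_lit 7342) (L (nat_lit 12602747))
(L (nat_lit 21436294)))
(L (nat_lit 3361306)))
(L (nat_lit 26912845)))
(L (nat_lit 21892555)))
(S (nat_lit 52688) (S (nat_lit 13098) (L (nat_lit 23356556))
(S (nat_lit 19816) (S (nat_lit 34849) (S (nat_lit 36810) (L (nat_lit 12490445))
(L (nat_lit 23860681)))
(L (nat_lit 1828234)))
(L (nat_lit 8870040))))
(L (nat_lit 25894928)))))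
(S (nat_lit 24162) (S (nat_lit 7544) (S (nat_lit 36810) (S (nat_lit 50717) (S (nat_lit 54176) (L (nat_lit 28391666))
(L (nat_lit 21183365)))
(L (nat_lit 13239211)))
(L (nat_lit 23467322)))
(S (nat_lit 27308) (S (nat_lit 8077) (S (nat_lit 44420) (L (nat_lit 23966019))
(L (nat_lit 23600000)))
(L (nat_lit 23650626)))
(S (nat_lit 47072) (S (nat_lit 34849) (S (nat_lit 36810) (S (nat_lit 27054) (L (nat_lit 31174049))
(L (nat_lit 3893640)))
(L (nat_lit 23472218)))
(L (nat_lit 7787332)))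
(L (nat_lit 25827409)))))
(S (nat_lit 43926) (S (nat_lit 7609) (S (nat_lit 40564) (S (nat_lit 36810) (L (nat_lit 26744425))
(L (nat_lit 12590999)))
(L (nat_lit 23116710)))
(S (nat_lit 27373) (S (nat_lit 34849) (S (nat_lit 52688) (S (nat_lit 19816) (S (nat_lit 49802) (S (nat_lit 5400) (S (nat_lit 40058) (L (nat_lit 19833007))
(L (nat_lit 23117176)))
(L (nat_lit 26684002)))
(L (nat_lit 7081551)))
(L (nat_lit 2803064)))
(L (nat_lit 21249048)))
(L (nat_lit 23501633)))
(S (nat_lit 47137) (S (nat_lit 11971) (S (nat_lit 4892) (S (nat_lit 8315) (L (nat_lit 3760646))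
(L (nat_lit 23924232)))
(L (nat_lit 6819671)))
(L (nat_lit 23555206)))
(L (nat_lit 25726162)))))
(L (nat_lit 25213671)))))
(S (nat_lit 25153) (S (nat_lit 9243) (S (nat_lit 13160) (S (nat_lit 33381) (S (nat_lit 47585) (L (nat_lit 26448309))
(L (nat_lit 6408602)))
(L (nat_lit 23935142)))
(S (nat_lit 32924) (S (nat_lit 543) (L (nat_lit 23862316))
(L (nat_lit 8087011)))
(S (nat_lit 52688) (S (nat_lit 8514) (S (nat_lit 21011) (L (nat_lit 6372116))
(L (nat_lit 21934215)))
(L (nat_lit 23466795)))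
(L (nat_lit 25279700)))))
(S (nat_lit 29007) (S (nat_lit 5400) (S (nat_lit 46626) (S (nat_lit 26880) (S (nat_lit 11478) (S (nat_lit 46117) (S (nat_lit 45119) (S (nat_lit 26593) (S (nat_lit 26398) (S (nat_lit 19424) (L (nat_lit 1426074))
(L (nat_lit 29966627)))
(L (nat_lit 3851517)))
(L (nat_lit 31147049)))
(L (nat_lit 14972022)))
(L (nat_lit 28017902)))
(L (nat_lit 23552261)))
(L (nat_lit 19456355)))
(S (nat_lit 56414) (L (nat_lit 3058350))
(L (nat_lit 2936173))))
(S (nat_lit 25164) (S (nat_lit 26360) (S (nat_lit 26627) (S (nat_lit 31018) (S (nat_lit 50717) (S (nat_lit 7290) (L (nat_lit 11580121))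
(L (nat_lit 1794316)))
(L (nat_lit 3892778)))
(L (nat_lit 18985272)))
(L (nat_lit 18985898)))
(L (nat_lit 31162704)))
(S (nat_lit 44928) (S (nat_lit 31452) (S (nat_lit 24162) (L (nat_lit 28553888))
(L (nat_lit 20984615)))
(L (nat_lit 6311729)))
(L (nat_lit 25478290)))))
(S (nat_lit 48771) (S (nat_lit 56180) (S (nat_lit 57914) (L (nat_lit 4445656))
(L (nat_lit 2576696)))
(S (nat_lit 56828) (S (nat_lit 29192) (S (nat_lit 46644) (L (nat_lit 24179053))
(L (nat_lit 648557)))
(S (nat_lit 47361) (S (nat_lit 753) (L (nat_lit 7394125))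
(L (nat_lit 14455528)))
(L (nat_lit 807277))))
(L (nat_lit 400056))))
(L (nat_lit 25274000)))))
(S (nat_lit 44917) (S (nat_lit 17300) (S (nat_lit 7820) (S (nat_lit 530) (S (nat_lit 40281) (L (nat_lit 7388856))
(L (nat_lit 23467261)))
(L (nat_lit 13456736)))
(S (nat_lit 27584) (S (nat_lit 15814) (S (nat_lit 39782) (L (nat_lit 23108059))
(L (nat_lit 4045418)))
(L (nat_lit 26917993)))
(S (nat_lit 47348) (S (nat_lit 0) (S (nat_lit 28348) (L (nat_lit 24229798))
(L (nat_lit 8045656)))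
(L (nat_lit 1695981)))
(L (nat_lit 25376853)))))
(S (nat_lit 37064) (S (nat_lit 10711) (S (nat_lit 28079) (S (nat_lit 44706) (S (nat_lit 36611) (S (nat_lit 7544) (L (nat_lit 4922220))
(L (nat_lit 23855527)))
(L (nat_lit 23894500)))
(L (nat_lit 23862785)))
(L (nat_lit 8128019)))
(S (nat_lit 30475) (S (nat_lit 35072) (L (nat_lit 1430412))
(S (nat_lit 36611) (S (nat_lit 36810) (S (nat_lit 5400) (L (nat_lit 10512014))
(L (nat_lit 2582122)))
(L (nat_lit 30812836)))
(L (nat_lit 7492461))))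
(S (nat_lit 50239) (S (nat_lit 13693) (L (nat_lit 3030354))
(S (nat_lit 34620) (S (nat_lit 52708) (S (nat_lit 7609) (S (nat_lit 40564) (L (nat_lit 29404628))
(L (nat_lit 7890068)))
(L (nat_lit 14552439)))
(L (nat_lit 27866216)))
(L (nat_lit 23867433))))
(L (nat_lit 25351473)))))
(S (nat_lit 56828) (S (nat_lit 9313) (S (nat_lit 11465) (S (nat_lit 4892) (S (nat_lit 12182) (L (nat_lit 23599906))
(L (nat_lit 23290272)))
(L (nat_lit 8020384)))
(L (nat_lit 8229484)))
(S (nat_lit 29077) (S (nat_lit 20517) (S (nat_lit 12182) (L (nat_lit 12916440))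
(L (nat_lit 23520608)))
(L (nat_lit 3600072)))
(S (nat_lit 48841) (S (nat_lit 17488) (L (nat_lit 13854900))
(S (nat_lit 20307) (S (nat_lit 34412) (L (nat_lit 31009249))
(L (nat_lit 2989522)))
(L (nat_lit 8402707))))
(L (nat_lit 25869668)))))
(L (nat_lit 25415853)))))
(L (nat_lit 25860480)))))
(S (nat_lit 50515) (S (nat_lit 4892) (S (nat_lit 12182) (S (nat_lit 27821) (S (nat_lit 32924) (S (nat_lit 36810) (L (nat_lit 7854141))
(L (nat_lit 23867682)))
(L (nat_lit 24034347)))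
(S (nat_lit 37007) (S (nat_lit 20800) (L (nat_lit 12882772))
(L (nat_lit 22339726)))
(L (nat_lit 3743161))))
(S (nat_lit 31946) (S (nat_lit 0) (S (nat_lit 50782) (S (nat_lit 40564) (S (nat_lit 254) (L (nat_lit 6311822))
(L (nat_lit 7771958)))
(L (nat_lit 7459225)))
(L (nat_lit 27317673)))
(S (nat_lit 19764) (S (nat_lit 15377) (S (nat_lit 26862) (S (nat_lit 49802) (L (nat_lit 28903693))
(L (nat_lit 6743125)))
(L (nat_lit 4515500)))
(S (nat_lit 16745) (L (nat_lit 6720220))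
(L (nat_lit 7933500))))
(S (nat_lit 39528) (S (nat_lit 50782) (S (nat_lit 5638) (L (nat_lit 2700137))
(L (nat_lit 26433581)))
(L (nat_lit 12641001)))
(L (nat_lit 25218285)))))
(S (nat_lit 51710) (S (nat_lit 1036) (S (nat_lit 13160) (S (nat_lit 8315) (L (nat_lit 26524322))
(L (nat_lit 13366376)))
(L (nat_lit 13438162)))
(S (nat_lit 20800) (S (nat_lit 319) (S (nat_lit 7290) (S (nat_lit 27821) (L (nat_lit 28739206))
(L (nat_lit 8140851)))
(L (nat_lit 288180)))
(L (nat_lit 18937134)))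
(S (nat_lit 40564) (S (nat_lit 47137) (S (nat_lit 13160) (S (nat_lit 44648) (S (nat_lit 44706) (L (nat_lit 15409986))
(L (nat_lit 13361505)))
(L (nat_lit 24156942)))
(L (nat_lit 13307658)))
(L (nat_lit 27806731)))
(L (nat_lit 25395823)))))
(L (nat_lit 25773410)))))
(S (nat_lit 24656) (S (nat_lit 17046) (S (nat_lit 14762) (L (nat_lit 26648193))
(S (nat_lit 21011) (S (nat_lit 7820) (S (nat_lit 40071) (S (nat_lit 11688) (L (nat_lit 28526736))
(L (nat_lit 21246105)))
(L (nat_lit 23924013)))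
(L (nat_lit 12967842)))
(L (nat_lit 21337872))))
(S (nat_lit 36810) (S (nat_lit 543) (S (nat_lit 3054) (L (nat_lit 13362496))
(S (nat_lit 44706) (S (nat_lit 26593) (S (nat_lit 7114) (S (nat_lit 47348) (L (nat_lit 8243618))
(L (nat_lit 8109080)))
(L (nat_lit 7421778)))
(L (nat_lit 10358447)))
(L (nat_lit 12902482))))
(S (nat_lit 20307) (S (nat_lit 44648) (S (nat_lit 19764) (S (nat_lit 6827) (L (nat_lit 7882812))
(L (nat_lit 7130563)))
(L (nat_lit 21010842)))
(L (nat_lit 12932250)))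
(S (nat_lit 40071) (S (nat_lit 11688) (S (nat_lit 40564) (S (nat_lit 44706) (L (nat_lit 12605291))
(L (nat_lit 5058931)))
(L (nat_lit 23183275)))
(L (nat_lit 8951481)))
(L (nat_lit 25893933)))))
(S (nat_lit 56574) (S (nat_lit 10482) (S (nat_lit 25164) (S (nat_lit 34412) (L (nat_lit 7425965))
(L (nat_lit 23633828)))
(L (nat_lit 21293540)))
(S (nat_lit 30246) (S (nat_lit 35349) (S (nat_lit 7820) (S (nat_lit 33182) (L (nat_lit 28498443))
(L (nat_lit 23856650)))
(L (nat_lit 12806752)))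
(L (nat_lit 12905026)))
(S (nat_lit 50010) (S (nat_lit 45166) (L (nat_lit 7921813))
(L (nat_lit 23998660)))
(L (nat_lit 25496240)))))
(L (nat_lit 25559721)))))
(S (nat_lit 44420) (S (nat_lit 9313) (S (nat_lit 7290) (S (nat_lit 11465) (S (nat_lit 45166) (S (nat_lit 13418) (L (nat_lit 6347696))
(L (nat_lit 12866435)))
(L (nat_lit 7887001)))
(L (nat_lit 21827948)))
(S (nat_lit 27054) (S (nat_lit 53215) (S (nat_lit 45166) (L (nat_lit 13501001))
(L (nat_lit 23600281)))
(L (nat_lit 18698561)))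
(S (nat_lit 46818) (S (nat_lit 8584) (S (nat_lit 4398) (S (nat_lit 6596) (L (nat_lit 23126410))
(L (nat_lit 23953745)))
(L (nat_lit 19706177)))
(L (nat_lit 12867489)))
(L (nat_lit 25448864)))))
(S (nat_lit 29077) (S (nat_lit 13180) (S (nat_lit 46870) (S (nat_lit 37021) (S (nat_lit 30475) (L (nat_lit 6307450))
(L (nat_lit 13520161)))
(L (nat_lit 13510244)))
(L (nat_lit 7856739)))
(S (nat_lit 32944) (S (nat_lit 44706) (S (nat_lit 20018) (S (nat_lit 5389) (L (nat_lit 28511857))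
(L (nat_lit 2530197)))
(L (nat_lit 14836330)))
(L (nat_lit 12736893)))
(S (nat_lit 52708) (S (nat_lit 254) (S (nat_lit 13368) (S (nat_lit 13687) (L (nat_lit 209532))
(L (nat_lit 13511766)))
(L (nat_lit 2928919)))
(L (nat_lit 8180129)))
(L (nat_lit 25303758)))))
(S (nat_lit 48841) (S (nat_lit 8315) (S (nat_lit 10274) (S (nat_lit 48112) (L (nat_lit 6309562))
(L (nat_lit 27282954)))
(L (nat_lit 24022351)))
(S (nat_lit 28079) (S (nat_lit 8514) (S (nat_lit 8057) (S (nat_lit 44706) (L (nat_lit 29626060))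
(L (nat_lit 12905088)))
(L (nat_lit 23554054)))
(L (nat_lit 23865452)))
(S (nat_lit 47843) (S (nat_lit 10274) (S (nat_lit 32924) (S (nat_lit 8057) (L (nat_lit 7800505))
(L (nat_lit 14520006)))
(L (nat_lit 23869482)))
(L (nat_lit 23498598)))
(L (nat_lit 25937089)))))
(L (nat_lit 25513444)))))
(L (nat_lit 25695542)))))
(L (nat_lit 25253320)))))
(S (nat_lit 28808) (S (nat_lit 14856) (S (nat_lit 4398) (S (nat_lit 8514) (S (nat_lit 10482) (S (nat_lit 0) (S (nat_lit 33182) (L (nat_lit 28706130))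
(L (nat_lit 24035435)))
(L (nat_lit 7942201)))
(S (nat_lit 30246) (S (nat_lit 13617) (S (nat_lit 44917) (L (nat_lit 23270161))
(L (nat_lit 27274989)))
(L (nat_lit 7461273)))
(S (nat_lit 50010) (S (nat_lit 51006) (S (nat_lit 53215) (S (nat_lit 7112) (S (nat_lit 29007) (L (nat_lit 18986364))
(L (nat_lit 12711126)))
(L (nat_lit 14281835)))
(L (nat_lit 27274831)))
(L (nat_lit 12611303)))
(L (nat_lit 25725142)))))
(S (nat_lit 28278) (S (nat_lit 7114) (S (nat_lit 36810) (S (nat_lit 44917) (S (nat_lit 15585) (S (nat_lit 29007) (S (nat_lit 7116) (S (nat_lit 28079) (S (nat_lit 6822) (S (nat_lit 51006) (L (nat_lit 16803430))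
(L (nat_lit 19951111)))
(L (nat_lit 14419590)))
(L (nat_lit 8111969)))
(L (nat_lit 12970661)))
(L (nat_lit 12836028)))
(L (nat_lit 8065966)))
(L (nat_lit 7529940)))
(L (nat_lit 12608169)))
(S (nat_lit 26878) (S (nat_lit 6827) (S (nat_lit 753) (L (nat_lit 13242680))
(L (nat_lit 26844300)))
(L (nat_lit 7999313)))
(S (nat_lit 46642) (S (nat_lit 53215) (S (nat_lit 40564) (S (nat_lit 13180) (L (nat_lit 17850217))
(L (nat_lit 14017218)))
(L (nat_lit 7922836)))
(L (nat_lit 10510867)))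
(L (nat_lit 25713800)))))
(S (nat_lit 48042) (S (nat_lit 11478) (S (nat_lit 37064) (S (nat_lit 34412) (L (nat_lit 18422877))
(L (nat_lit 7932377)))
(L (nat_lit 8086639)))
(S (nat_lit 31242) (S (nat_lit 1036) (S (nat_lit 50239) (L (nat_lit 8413902))
(L (nat_lit 20100409)))
(S (nat_lit 16201) (L (nat_lit 30431436))
(L (nat_lit 13686043))))
(S (nat_lit 51006) (S (nat_lit 2874) (L (nat_lit 9918617))
(S (nat_lit 28758) (S (nat_lit 33132) (S (nat_lit 39528) (S (nat_lit 44928) (S (nat_lit 28029) (L (nat_lit 28644045))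
(L (nat_lit 449449)))
(L (nat_lit 13308840)))
(L (nat_lit 24125357)))
(L (nat_lit 30482029)))
(L (nat_lit 872838))))
(L (nat_lit 25516549)))))
(L (nat_lit 25888044)))))
(S (nat_lit 24162) (S (nat_lit 7820) (S (nat_lit 6827) (S (nat_lit 17362) (L (nat_lit 12668280))
(S (nat_lit 44648) (S (nat_lit 46626) (S (nat_lit 52) (L (nat_lit 13946657))
(L (nat_lit 14291848)))
(L (nat_lit 22163005)))
(L (nat_lit 23127495))))
(S (nat_lit 26591) (S (nat_lit 51006) (S (nat_lit 13160) (L (nat_lit 30093387))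
(L (nat_lit 26682388)))
(L (nat_lit 12611303)))
(S (nat_lit 46355) (S (nat_lit 30475) (S (nat_lit 13418) (L (nat_lit 21869921))
(L (nat_lit 13478465)))
(L (nat_lit 12946136)))
(L (nat_lit 25611434)))))
(S (nat_lit 27584) (S (nat_lit 8315) (S (nat_lit 6827) (S (nat_lit 44917) (S (nat_lit 41658) (L (nat_lit 212733))
(L (nat_lit 13491521)))
(L (nat_lit 23082822)))
(S (nat_lit 22048) (L (nat_lit 13816090))
(L (nat_lit 13883235))))
(S (nat_lit 28079) (S (nat_lit 47361) (L (nat_lit 26849601))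
(L (nat_lit 7363035)))
(S (nat_lit 47843) (S (nat_lit 24445) (S (nat_lit 7116) (S (nat_lit 6596) (L (nat_lit 957100))
(L (nat_lit 7824036)))
(L (nat_lit 13960889)))
(L (nat_lit 21455040)))
(L (nat_lit 25346726)))))
(S (nat_lit 47348) (S (nat_lit 0) (S (nat_lit 8786) (L (nat_lit 8150060))
(L (nat_lit 8215565)))
(S (nat_lit 19764) (S (nat_lit 1036) (S (nat_lit 31452) (S (nat_lit 28348) (S (nat_lit 6827) (L (nat_lit 7364122))
(L (nat_lit 12677707)))
(L (nat_lit 7360302)))
(L (nat_lit 31073665)))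
(L (nat_lit 12622613)))
(S (nat_lit 39528) (S (nat_lit 33132) (S (nat_lit 37064) (S (nat_lit 49802) (L (nat_lit 13881121))
(L (nat_lit 22220687)))
(L (nat_lit 23127405)))
(L (nat_lit 210871)))
(L (nat_lit 25363891)))))
(L (nat_lit 25628979)))))
(S (nat_lit 43926) (S (nat_lit 15814) (S (nat_lit 6845) (S (nat_lit 44209) (S (nat_lit 28079) (S (nat_lit 15085) (S (nat_lit 51216) (L (nat_lit 6410649))
(L (nat_lit 22044911)))
(L (nat_lit 26985825)))
(L (nat_lit 15440737)))
(L (nat_lit 23442521)))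
(S (nat_lit 26609) (S (nat_lit 44706) (S (nat_lit 15085) (L (nat_lit 11998995))
(L (nat_lit 12318081)))
(L (nat_lit 13361505)))
(S (nat_lit 46373) (S (nat_lit 44706) (S (nat_lit 8077) (L (nat_lit 17850121))
(L (nat_lit 12800123)))
(L (nat_lit 28029121)))
(L (nat_lit 25339381)))))
(S (nat_lit 35578) (S (nat_lit 13687) (S (nat_lit 530) (S (nat_lit 37064) (S (nat_lit 44917) (S (nat_lit 36611) (S (nat_lit 254) (S (nat_lit 8077) (S (nat_lit 8265) (S (nat_lit 7609) (L (nat_lit 15921830))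
(L (nat_lit 14255483)))
(L (nat_lit 26292470)))
(L (nat_lit 14344295)))
(L (nat_lit 14439619)))
(L (nat_lit 18729128)))
(L (nat_lit 23278713)))
(L (nat_lit 23129608)))
(S (nat_lit 54088) (L (nat_lit 26449459))
(L (nat_lit 3436054))))
(S (nat_lit 33451) (S (nat_lit 29077) (S (nat_lit 44209) (L (nat_lit 16788275))
(L (nat_lit 11220896)))
(L (nat_lit 31033769)))
(S (nat_lit 53215) (S (nat_lit 8265) (S (nat_lit 31946) (L (nat_lit 28911789))
(L (nat_lit 14395545)))
(L (nat_lit 23441592)))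
(L (nat_lit 25526927)))))
(S (nat_lit 55342) (S (nat_lit 44917) (S (nat_lit 44648) (S (nat_lit 7112) (S (nat_lit 7609) (L (nat_lit 20983596))
(L (nat_lit 13674359)))
(L (nat_lit 7367312)))
(L (nat_lit 24032391)))
(L (nat_lit 27277035)))
(L (nat_lit 25285065)))))
(L (nat_lit 25767055)))))
(S (nat_lit 34620) (S (nat_lit 7116) (S (nat_lit 10935) (S (nat_lit 753) (S (nat_lit 0) (L (nat_lit 29384102))
(S (nat_lit 33509) (L (nat_lit 12604201))
(L (nat_lit 18880921))))
(S (nat_lit 20517) (S (nat_lit 44928) (S (nat_lit 9313) (S (nat_lit 8057) (L (nat_lit 12668248))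
(L (nat_lit 13340456)))
(L (nat_lit 6305682)))
(L (nat_lit 8065967)))
(S (nat_lit 40281) (S (nat_lit 5591) (S (nat_lit 26539) (L (nat_lit 7826452))
(S (nat_lit 44420) (S (nat_lit 15585) (L (nat_lit 26491955))
(L (nat_lit 8194702)))
(L (nat_lit 23391744))))
(S (nat_lit 25355) (S (nat_lit 9313) (S (nat_lit 26593) (S (nat_lit 6845) (S (nat_lit 40564) (L (nat_lit 21532028))
(L (nat_lit 23127435)))
(L (nat_lit 26691875)))
(L (nat_lit 16656997)))
(L (nat_lit 23396795)))
(S (nat_lit 45119) (S (nat_lit 8584) (S (nat_lit 6829) (S (nat_lit 30246) (L (nat_lit 20989739))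
(L (nat_lit 24129018)))
(L (nat_lit 21366697)))
(S (nat_lit 10852) (L (nat_lit 17832541))
(L (nat_lit 12605351))))
(L (nat_lit 25675945)))))
(L (nat_lit 25566912)))))
(S (nat_lit 30699) (S (nat_lit 10274) (S (nat_lit 6829) (S (nat_lit 19764) (S (nat_lit 43926) (L (nat_lit 15363177))
(L (nat_lit 23966049)))
(L (nat_lit 30422630)))
(L (nat_lit 14362746)))
(S (nat_lit 30038) (S (nat_lit 6845) (S (nat_lit 6829) (L (nat_lit 18509125))
(L (nat_lit 13314106)))
(L (nat_lit 7367249)))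
(S (nat_lit 49802) (S (nat_lit 51216) (S (nat_lit 28278) (L (nat_lit 313049))
(L (nat_lit 19799149)))
(L (nat_lit 7353019)))
(L (nat_lit 25380580)))))
(S (nat_lit 50463) (S (nat_lit 10274) (S (nat_lit 12854) (L (nat_lit 26647639))
(S (nat_lit 48112) (S (nat_lit 28758) (S (nat_lit 40281) (L (nat_lit 18914717))
(L (nat_lit 7365138)))
(L (nat_lit 6181414)))
(L (nat_lit 6939169))))
(S (nat_lit 30038) (S (nat_lit 8057) (S (nat_lit 8315) (L (nat_lit 11558828))
(L (nat_lit 23564200)))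
(L (nat_lit 23936038)))
(S (nat_lit 49802) (S (nat_lit 27821) (S (nat_lit 51006) (S (nat_lit 28079) (L (nat_lit 5742453))
(L (nat_lit 7366195)))
(L (nat_lit 19941254)))
(L (nat_lit 8109113)))
(L (nat_lit 25599093)))))
(L (nat_lit 25904135)))))
(S (nat_lit 26880) (S (nat_lit 5389) (S (nat_lit 36810) (S (nat_lit 12599) (L (nat_lit 18180150))
(S (nat_lit 17300) (S (nat_lit 30246) (L (nat_lit 28492427))
(L (nat_lit 6050219)))
(L (nat_lit 6108840))))
(S (nat_lit 45359) (S (nat_lit 23565) (L (nat_lit 22211792))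
(L (nat_lit 24287642)))
(L (nat_lit 7526874))))
(S (nat_lit 25153) (S (nat_lit 6822) (S (nat_lit 35349) (S (nat_lit 30246) (S (nat_lit 28079) (S (nat_lit 51499) (L (nat_lit 26225261))
(L (nat_lit 13296774)))
(L (nat_lit 15980323)))
(L (nat_lit 7754594)))
(L (nat_lit 23468898)))
(S (nat_lit 26586) (S (nat_lit 319) (S (nat_lit 30038) (L (nat_lit 28463405))
(L (nat_lit 7534133)))
(S (nat_lit 19153) (L (nat_lit 4450029))
(L (nat_lit 12933146))))
(S (nat_lit 46350) (S (nat_lit 56828) (S (nat_lit 56375) (S (nat_lit 45166) (S (nat_lit 10987) (S (nat_lit 28029) (L (nat_lit 5860620))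
(L (nat_lit 30836980)))
(L (nat_lit 6895802)))
(L (nat_lit 14738086)))
(L (nat_lit 19030285)))
(L (nat_lit 21225645)))
(L (nat_lit 25365908)))))
(S (nat_lit 44917) (S (nat_lit 6863) (S (nat_lit 24023) (L (nat_lit 8566361))
(S (nat_lit 37064) (S (nat_lit 46350) (S (nat_lit 6634) (S (nat_lit 7112) (L (nat_lit 9359437))
(L (nat_lit 7964092)))
(L (nat_lit 23630633)))
(L (nat_lit 2020774)))
(L (nat_lit 23225709))))
(S (nat_lit 26627) (S (nat_lit 8514) (L (nat_lit 24020301))
(L (nat_lit 23489829)))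
(S (nat_lit 46391) (S (nat_lit 9313) (S (nat_lit 8265) (L (nat_lit 12969699))
(L (nat_lit 23159116)))
(L (nat_lit 7976865)))
(L (nat_lit 25712651)))))
(L (nat_lit 25182452)))))
(S (nat_lit 46644) (S (nat_lit 8994) (S (nat_lit 4681) (S (nat_lit 26609) (S (nat_lit 9313) (S (nat_lit 7114) (L (nat_lit 26849321))
(L (nat_lit 23083322)))
(L (nat_lit 20982266)))
(L (nat_lit 482587)))
(S (nat_lit 24445) (S (nat_lit 7290) (L (nat_lit 26230132))
(L (nat_lit 23077644)))
(S (nat_lit 44209) (S (nat_lit 7820) (S (nat_lit 33182) (L (nat_lit 8109117))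
(L (nat_lit 470619)))
(L (nat_lit 5729897)))
(L (nat_lit 25936064)))))
(S (nat_lit 28758) (S (nat_lit 11688) (S (nat_lit 7114) (S (nat_lit 48042) (S (nat_lit 50463) (L (nat_lit 26948715))
(L (nat_lit 10516111)))
(L (nat_lit 18729067)))
(L (nat_lit 7364091)))
(S (nat_lit 31452) (S (nat_lit 28278) (S (nat_lit 25153) (S (nat_lit 56828) (S (nat_lit 51006) (L (nat_lit 29377908))
(L (nat_lit 802375)))
(L (nat_lit 256751)))
(L (nat_lit 549108)))
(L (nat_lit 31144043)))
(S (nat_lit 51216) (S (nat_lit 8514) (S (nat_lit 26609) (S (nat_lit 30751) (S (nat_lit 25153) (L (nat_lit 6315788))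
(L (nat_lit 6051206)))
(L (nat_lit 10245296)))
(L (nat_lit 488723)))
(L (nat_lit 13420651)))
(L (nat_lit 25185521)))))
(S (nat_lit 48522) (S (nat_lit 7290) (S (nat_lit 11688) (S (nat_lit 43926) (L (nat_lit 29039788))
(L (nat_lit 23116550)))
(L (nat_lit 796335)))
(S (nat_lit 27054) (S (nat_lit 15085) (S (nat_lit 26609) (L (nat_lit 13643386))
(L (nat_lit 604443)))
(L (nat_lit 14436455)))
(S (nat_lit 46818) (S (nat_lit 44648) (S (nat_lit 12182) (L (nat_lit 26235212))
(L (nat_lit 4053415)))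
(L (nat_lit 23629575)))
(L (nat_lit 25560340)))))
(L (nat_lit 25412162)))))
(L (nat_lit 25175606)))))
(S (nat_lit 54384) (S (nat_lit 4398) (S (nat_lit 6827) (S (nat_lit 15585) (S (nat_lit 15814) (S (nat_lit 44648) (S (nat_lit 7114) (S (nat_lit 46640) (L (nat_lit 18889641))
(L (nat_lit 12401781)))
(L (nat_lit 7367127)))
(L (nat_lit 23085831)))
(L (nat_lit 7091940)))
(S (nat_lit 35349) (S (nat_lit 44706) (S (nat_lit 36810) (S (nat_lit 7114) (S (nat_lit 30953) (L (nat_lit 26521685))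
(L (nat_lit 5988590)))
(L (nat_lit 6307579)))
(L (nat_lit 23486756)))
(L (nat_lit 23486570)))
(S (nat_lit 55113) (S (nat_lit 36810) (S (nat_lit 44648) (S (nat_lit 7114) (S (nat_lit 44706) (L (nat_lit 732081))
(L (nat_lit 8106077)))
(L (nat_lit 7368430)))
(L (nat_lit 8246414)))
(L (nat_lit 7980868)))
(L (nat_lit 25725301)))))
(S (nat_lit 26591) (S (nat_lit 5389) (S (nat_lit 40071) (L (nat_lit 18485097))
(L (nat_lit 23148422)))
(L (nat_lit 26236299)))
(S (nat_lit 46355) (S (nat_lit 40071) (S (nat_lit 33132) (S (nat_lit 15814) (L (nat_lit 17619017))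
(L (nat_lit 3404307)))
(L (nat_lit 258668)))
(L (nat_lit 18609411)))
(L (nat_lit 25384385)))))
(S (nat_lit 24162) (S (nat_lit 543) (S (nat_lit 1247) (S (nat_lit 8077) (S (nat_lit 47793) (S (nat_lit 44648) (L (nat_lit 9855026))
(L (nat_lit 13198473)))
(L (nat_lit 3879819)))
(L (nat_lit 1749831)))
(S (nat_lit 21011) (S (nat_lit 48771) (S (nat_lit 47793) (S (nat_lit 27054) (S (nat_lit 47605) (S (nat_lit 36810) (L (nat_lit 10367127))
(L (nat_lit 11120794)))
(L (nat_lit 27440471)))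
(L (nat_lit 7025473)))
(L (nat_lit 3595145)))
(L (nat_lit 27930791)))
(S (nat_lit 40775) (S (nat_lit 0) (S (nat_lit 48771) (S (nat_lit 27841) (S (nat_lit 15377) (L (nat_lit 12835960))
(L (nat_lit 8269940)))
(L (nat_lit 4043335)))
(L (nat_lit 20820135)))
(L (nat_lit 19968775)))
(L (nat_lit 25668226)))))
(S (nat_lit 20307) (S (nat_lit 6827) (S (nat_lit 1247) (S (nat_lit 55342) (S (nat_lit 50782) (L (nat_lit 13217537))
(L (nat_lit 20033820)))
(L (nat_lit 21149545)))
(L (nat_lit 26423936)))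
(S (nat_lit 58696) (L (nat_lit 14297955))
(L (nat_lit 23891216))))
(S (nat_lit 40071) (S (nat_lit 52) (S (nat_lit 36810) (S (nat_lit 17300) (S (nat_lit 8786) (L (nat_lit 619974))
(L (nat_lit 322005)))
(L (nat_lit 3880744)))
(L (nat_lit 8139490)))
(S (nat_lit 19816) (S (nat_lit 20517) (L (nat_lit 7083411))
(L (nat_lit 30418637)))
(S (nat_lit 39580) (S (nat_lit 6827) (S (nat_lit 37064) (L (nat_lit 16797547))
(L (nat_lit 13310786)))
(L (nat_lit 8148451)))
(L (nat_lit 25648264)))))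
(L (nat_lit 25696402)))))
(S (nat_lit 43926) (S (nat_lit 5178) (S (nat_lit 51216) (S (nat_lit 50463) (S (nat_lit 52946) (S (nat_lit 47843) (L (nat_lit 11087995))
(L (nat_lit 6772545)))
(L (nat_lit 21442369)))
(L (nat_lit 12605691)))
(L (nat_lit 12637962)))
(S (nat_lit 24942) (S (nat_lit 5638) (S (nat_lit 13180) (L (nat_lit 3420950))
(L (nat_lit 6435451)))
(S (nat_lit 25402) (S (nat_lit 40281) (L (nat_lit 14015361))
(L (nat_lit 18176769)))
(S (nat_lit 45166) (S (nat_lit 36810) (L (nat_lit 29071777))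
(L (nat_lit 12603211)))
(L (nat_lit 25206293)))))
(S (nat_lit 44706) (S (nat_lit 6863) (S (nat_lit 36810) (S (nat_lit 6827) (S (nat_lit 6589) (S (nat_lit 7833) (L (nat_lit 13913923))
(L (nat_lit 23312227)))
(L (nat_lit 1562843)))
(L (nat_lit 21769665)))
(L (nat_lit 6042347)))
(S (nat_lit 26627) (S (nat_lit 7290) (S (nat_lit 8786) (S (nat_lit 10987) (S (nat_lit 30953) (S (nat_lit 25402) (L (nat_lit 14357722))
(L (nat_lit 21017510)))
(L (nat_lit 10171483)))
(L (nat_lit 1651034)))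
(L (nat_lit 602891)))
(L (nat_lit 23081768)))
(S (nat_lit 46391) (S (nat_lit 36810) (S (nat_lit 50515) (S (nat_lit 48771) (S (nat_lit 46124) (L (nat_lit 8000272))
(L (nat_lit 20001144)))
(L (nat_lit 11448963)))
(L (nat_lit 27373943)))
(L (nat_lit 23867682)))
(L (nat_lit 25496021)))))
(L (nat_lit 25408128)))))
(L (nat_lit 25188742)))))
(L (nat_lit 25339447)))))
(S (nat_lit 48572) (S (nat_lit 7114) (S (nat_lit 14648) (S (nat_lit 8584) (S (nat_lit 13617) (S (nat_lit 50239) (S (nat_lit 6827) (S (nat_lit 44648) (S (nat_lit 7544) (S (nat_lit 31452) (S (nat_lit 7290) (L (nat_lit 6980153))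
(L (nat_lit 12871361)))
(L (nat_lit 17702497)))
(L (nat_lit 13266241)))
(L (nat_lit 13175561)))
(L (nat_lit 23465834)))
(L (nat_lit 27807073)))
(S (nat_lit 33381) (S (nat_lit 36810) (S (nat_lit 10987) (S (nat_lit 1247) (L (nat_lit 12668281))
(L (nat_lit 3848007)))
(L (nat_lit 6820474)))
(L (nat_lit 7517013)))
(S (nat_lit 53145) (S (nat_lit 43926) (S (nat_lit 47072) (S (nat_lit 48522) (L (nat_lit 3693318))
(L (nat_lit 14604454)))
(L (nat_lit 4111701)))
(L (nat_lit 12835585)))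
(L (nat_lit 25563879)))))
(S (nat_lit 28348) (S (nat_lit 5120) (S (nat_lit 20294) (S (nat_lit 1247) (L (nat_lit 26225262))
(L (nat_lit 14312487)))
(L (nat_lit 1333105)))
(S (nat_lit 24884) (S (nat_lit 36810) (S (nat_lit 1247) (L (nat_lit 23356805))
(L (nat_lit 14519943)))
(L (nat_lit 7370478)))
(S (nat_lit 44648) (S (nat_lit 15585) (S (nat_lit 6827) (S (nat_lit 36810) (S (nat_lit 31242) (L (nat_lit 10671952))
(L (nat_lit 14323463)))
(L (nat_lit 401148)))
(L (nat_lit 23891402)))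
(S (nat_lit 51661) (L (nat_lit 10507675))
(L (nat_lit 16784311))))
(L (nat_lit 25496023)))))
(S (nat_lit 48112) (S (nat_lit 14856) (S (nat_lit 36810) (S (nat_lit 55113) (S (nat_lit 44648) (S (nat_lit 6827) (L (nat_lit 1781581))
(L (nat_lit 13333763)))
(L (nat_lit 7354135)))
(L (nat_lit 13639447)))
(L (nat_lit 13377250)))
(S (nat_lit 34620) (S (nat_lit 36810) (S (nat_lit 46640) (S (nat_lit 55113) (S (nat_lit 26627) (S (nat_lit 1247) (L (nat_lit 11963100))
(L (nat_lit 5743447)))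
(L (nat_lit 826869)))
(L (nat_lit 10513911)))
(L (nat_lit 19938219)))
(L (nat_lit 7365358)))
(S (nat_lit 54384) (S (nat_lit 0) (S (nat_lit 51216) (S (nat_lit 6827) (L (nat_lit 6309595))
(L (nat_lit 8148417)))
(L (nat_lit 7360335)))
(L (nat_lit 7122994)))
(L (nat_lit 25408068)))))
(L (nat_lit 25172503)))))
(S (nat_lit 34412) (S (nat_lit 11971) (S (nat_lit 11254) (S (nat_lit 10482) (S (nat_lit 8786) (S (nat_lit 40775) (S (nat_lit 44648) (S (nat_lit 6827) (S (nat_lit 8806) (S (nat_lit 8514) (L (nat_lit 28813394))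
(L (nat_lit 12897027)))
(L (nat_lit 21890441)))
(L (nat_lit 7081552)))
(L (nat_lit 13553957)))
(L (nat_lit 7835290)))
(L (nat_lit 6852373)))
(L (nat_lit 26446324)))
(S (nat_lit 31018) (S (nat_lit 7116) (S (nat_lit 5591) (S (nat_lit 6827) (S (nat_lit 8786) (L (nat_lit 10567293))
(L (nat_lit 21864461)))
(L (nat_lit 23889386)))
(L (nat_lit 11126528)))
(L (nat_lit 23455757)))
(S (nat_lit 50782) (S (nat_lit 10482) (S (nat_lit 8786) (S (nat_lit 40775) (L (nat_lit 21440538))
(L (nat_lit 23996896)))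
(L (nat_lit 23357485)))
(L (nat_lit 23932388)))
(L (nat_lit 25279209)))))
(S (nat_lit 31735) (S (nat_lit 8994) (S (nat_lit 36810) (S (nat_lit 50010) (S (nat_lit 40775) (S (nat_lit 8265) (L (nat_lit 22191949))
(L (nat_lit 23899149)))
(L (nat_lit 23891399)))
(L (nat_lit 3976692)))
(L (nat_lit 7528919)))
(S (nat_lit 28758) (S (nat_lit 25402) (S (nat_lit 36810) (S (nat_lit 40775) (L (nat_lit 3913018))
(L (nat_lit 832135)))
(L (nat_lit 23257547)))
(L (nat_lit 14322598)))
(S (nat_lit 48522) (S (nat_lit 36810) (S (nat_lit 8265) (S (nat_lit 7290) (S (nat_lit 7833) (S (nat_lit 44648) (L (nat_lit 7789408))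
(L (nat_lit 23955758)))
(L (nat_lit 3400182)))
(L (nat_lit 23520576)))
(L (nat_lit 23868427)))
(S (nat_lit 56244) (L (nat_lit 10500795))
(L (nat_lit 7992398))))
(L (nat_lit 25311974)))))
(S (nat_lit 51499) (S (nat_lit 5389) (S (nat_lit 28447) (L (nat_lit 8227383))
(S (nat_lit 40775) (S (nat_lit 44648) (S (nat_lit 16847) (L (nat_lit 3751782))
(L (nat_lit 9582484)))
(L (nat_lit 12637498)))
(L (nat_lit 7385911))))
(S (nat_lit 25153) (S (nat_lit 30246) (S (nat_lit 36810) (S (nat_lit 26862) (S (nat_lit 10711) (S (nat_lit 52688) (L (nat_lit 7130190))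
(L (nat_lit 21806123)))
(L (nat_lit 23868522)))
(L (nat_lit 1371757)))
(L (nat_lit 7752858)))
(L (nat_lit 8312942)))
(S (nat_lit 44917) (S (nat_lit 35271) (L (nat_lit 6309498))
(S (nat_lit 36810) (S (nat_lit 20517) (S (nat_lit 27597) (S (nat_lit 24162) (L (nat_lit 14702937))
(L (nat_lit 4074191)))
(L (nat_lit 1357748)))
(L (nat_lit 4071117)))
(L (nat_lit 8085584))))
(L (nat_lit 25179851)))))
(L (nat_lit 25217360)))))
(S (nat_lit 54176) (S (nat_lit 17071) (S (nat_lit 6827) (S (nat_lit 6220) (L (nat_lit 21160360))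
(S (nat_lit 21011) (S (nat_lit 52) (S (nat_lit 7609) (L (nat_lit 12251183))
(L (nat_lit 21269978)))
(S (nat_lit 19816) (S (nat_lit 30699) (L (nat_lit 2763568))
(L (nat_lit 14313511)))
(S (nat_lit 39580) (S (nat_lit 15814) (L (nat_lit 3878362))
(L (nat_lit 26393811)))
(L (nat_lit 25859438)))))
(L (nat_lit 21015035))))
(S (nat_lit 26591) (S (nat_lit 7609) (S (nat_lit 319) (S (nat_lit 30475) (L (nat_lit 10374597))
(L (nat_lit 18507105)))
(L (nat_lit 26257909)))
(L (nat_lit 26267115)))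
(S (nat_lit 46355) (S (nat_lit 11254) (S (nat_lit 17257) (S (nat_lit 6829) (L (nat_lit 8161904))
(L (nat_lit 23302030)))
(L (nat_lit 26905841)))
(S (nat_lit 29925) (L (nat_lit 23858665))
(L (nat_lit 23472154))))
(L (nat_lit 25898001)))))
(S (nat_lit 36835) (S (nat_lit 1247) (S (nat_lit 36810) (S (nat_lit 6829) (S (nat_lit 6634) (S (nat_lit 35578) (S (nat_lit 30475) (L (nat_lit 20848096))
(L (nat_lit 12898177)))
(L (nat_lit 13347713)))
(L (nat_lit 13282050)))
(L (nat_lit 12799098)))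
(L (nat_lit 23632988)))
(S (nat_lit 21011) (S (nat_lit 6827) (S (nat_lit 3139) (L (nat_lit 21225615))
(S (nat_lit 45119) (S (nat_lit 37021) (S (nat_lit 6822) (S (nat_lit 6829) (S (nat_lit 31018) (S (nat_lit 44928) (S (nat_lit 31242) (L (nat_lit 4781330))
(L (nat_lit 31034887)))
(L (nat_lit 15444900)))
(L (nat_lit 14330629)))
(L (nat_lit 21368154)))
(L (nat_lit 23498534)))
(L (nat_lit 23432972)))
(L (nat_lit 7522810))))
(S (nat_lit 56284) (L (nat_lit 18681206))
(L (nat_lit 7795267))))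
(S (nat_lit 40775) (S (nat_lit 36810) (S (nat_lit 45119) (S (nat_lit 10987) (S (nat_lit 6829) (S (nat_lit 48522) (S (nat_lit 44917) (L (nat_lit 5664114))
(L (nat_lit 23249739)))
(L (nat_lit 16411906)))
(L (nat_lit 23904296)))
(L (nat_lit 15813978)))
(L (nat_lit 23241210)))
(L (nat_lit 404218)))
(L (nat_lit 25628295)))))
(S (nat_lit 56599) (S (nat_lit 52) (S (nat_lit 9187) (L (nat_lit 1595739))
(S (nat_lit 31452) (S (nat_lit 55342) (S (nat_lit 24162) (S (nat_lit 319) (L (nat_lit 28869224))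
(L (nat_lit 12646025)))
(L (nat_lit 3747695)))
(L (nat_lit 21192817)))
(L (nat_lit 14488232))))
(S (nat_lit 19816) (S (nat_lit 20083) (S (nat_lit 27373) (L (nat_lit 5456472))
(L (nat_lit 6350327)))
(L (nat_lit 21794063)))
(S (nat_lit 39580) (S (nat_lit 52099) (L (nat_lit 4762452))
(S (nat_lit 56785) (S (nat_lit 15377) (L (nat_lit 8261228))
(L (nat_lit 6482639)))
(L (nat_lit 13950012))))
(L (nat_lit 25249481)))))
(L (nat_lit 25830816)))))
(L (nat_lit 25344338)))))
(S (nat_lit 26878) (S (nat_lit 4892) (S (nat_lit 15377) (S (nat_lit 10935) (S (nat_lit 40281) (S (nat_lit 13180) (S (nat_lit 7342) (L (nat_lit 1436055))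
(L (nat_lit 13707154)))
(L (nat_lit 26871087)))
(L (nat_lit 7793345)))
(L (nat_lit 8076345)))
(S (nat_lit 35141) (S (nat_lit 10935) (S (nat_lit 8077) (S (nat_lit 50819) (L (nat_lit 3984904))
(L (nat_lit 23600280)))
(L (nat_lit 23279459)))
(L (nat_lit 23280696)))
(S (nat_lit 54905) (S (nat_lit 10935) (S (nat_lit 0) (S (nat_lit 40775) (L (nat_lit 14294912))
(L (nat_lit 7491064)))
(L (nat_lit 7784505)))
(L (nat_lit 7027769)))
(L (nat_lit 25757967)))))
(S (nat_lit 24656) (S (nat_lit 6827) (S (nat_lit 13180) (S (nat_lit 36810) (L (nat_lit 21934155))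
(L (nat_lit 13328457)))
(S (nat_lit 32944) (S (nat_lit 32111) (L (nat_lit 23499623))
(L (nat_lit 23161288)))
(S (nat_lit 52708) (S (nat_lit 27373) (L (nat_lit 12453366))
(S (nat_lit 58140) (L (nat_lit 12657403))
(L (nat_lit 30720183))))
(L (nat_lit 25822510)))))
(S (nat_lit 26591) (S (nat_lit 21011) (S (nat_lit 13160) (S (nat_lit 8057) (L (nat_lit 13409431))
(L (nat_lit 1564424)))
(L (nat_lit 1550098)))
(L (nat_lit 1750951)))
(S (nat_lit 46355) (S (nat_lit 10935) (S (nat_lit 17046) (S (nat_lit 46870) (S (nat_lit 52708) (L (nat_lit 680238))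
(L (nat_lit 27865161)))
(L (nat_lit 16863051)))
(S (nat_lit 26432) (L (nat_lit 21767279))
(L (nat_lit 26234379))))
(S (nat_lit 36445) (S (nat_lit 37174) (L (nat_lit 7424569))
(L (nat_lit 21806119)))
(L (nat_lit 8174646))))
(L (nat_lit 25316843)))))
(S (nat_lit 44420) (S (nat_lit 16847) (S (nat_lit 6829) (S (nat_lit 51216) (S (nat_lit 45166) (S (nat_lit 51710) (L (nat_lit 9213615))
(L (nat_lit 12624787)))
(L (nat_lit 23497510)))
(L (nat_lit 13475425)))
(S (nat_lit 26593) (S (nat_lit 52688) (S (nat_lit 44706) (L (nat_lit 10358194))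
(L (nat_lit 24976897)))
(L (nat_lit 19807274)))
(S (nat_lit 46357) (S (nat_lit 33381) (S (nat_lit 47843) (S (nat_lit 27308) (L (nat_lit 20980558))
(L (nat_lit 14966933)))
(L (nat_lit 1393429)))
(L (nat_lit 1989031)))
(L (nat_lit 25417221)))))
(S (nat_lit 36611) (S (nat_lit 5400) (S (nat_lit 40775) (S (nat_lit 44648) (L (nat_lit 23424143))
(L (nat_lit 13470966)))
(L (nat_lit 18648439)))
(S (nat_lit 25164) (S (nat_lit 20431) (S (nat_lit 6596) (L (nat_lit 285081))
(L (nat_lit 13361323)))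
(S (nat_lit 45166) (S (nat_lit 7342) (L (nat_lit 14557335))
(L (nat_lit 23270286)))
(L (nat_lit 13522982))))
(S (nat_lit 44928) (S (nat_lit 8514) (S (nat_lit 6827) (L (nat_lit 21360065))
(L (nat_lit 12744267)))
(L (nat_lit 13242680)))
(L (nat_lit 25643144)))))
(S (nat_lit 56375) (S (nat_lit 5120) (S (nat_lit 7290) (S (nat_lit 25402) (L (nat_lit 9888385))
(L (nat_lit 14017684)))
(L (nat_lit 23502904)))
(S (nat_lit 24884) (S (nat_lit 26586) (S (nat_lit 10935) (L (nat_lit 23994510))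
(L (nat_lit 21796911)))
(L (nat_lit 31067372)))
(S (nat_lit 44648) (S (nat_lit 51710) (S (nat_lit 47585) (S (nat_lit 54176) (L (nat_lit 5021142))
(L (nat_lit 6442456)))
(L (nat_lit 27507763)))
(L (nat_lit 27474995)))
(L (nat_lit 25772261)))))
(L (nat_lit 25665714)))))
(L (nat_lit 25860610)))))
(S (nat_lit 46642) (S (nat_lit 14648) (S (nat_lit 6589) (S (nat_lit 13617) (S (nat_lit 26593) (S (nat_lit 45166) (S (nat_lit 48334) (L (nat_lit 8162871))
(L (nat_lit 14425202)))
(L (nat_lit 8182177)))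
(L (nat_lit 24972623)))
(S (nat_lit 33381) (S (nat_lit 16847) (S (nat_lit 25355) (S (nat_lit 51499) (L (nat_lit 23108365))
(L (nat_lit 4009527)))
(L (nat_lit 12389943)))
(L (nat_lit 1986765)))
(S (nat_lit 53145) (S (nat_lit 6596) (S (nat_lit 753) (S (nat_lit 11688) (S (nat_lit 28550) (L (nat_lit 14255944))
(L (nat_lit 13388005)))
(L (nat_lit 21765505)))
(L (nat_lit 14473441)))
(S (nat_lit 10642) (L (nat_lit 7061314))
(L (nat_lit 14506309))))
(L (nat_lit 25338295)))))
(S (nat_lit 26353) (S (nat_lit 543) (S (nat_lit 6827) (S (nat_lit 31452) (L (nat_lit 28727553))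
(L (nat_lit 13641340)))
(L (nat_lit 23891402)))
(S (nat_lit 20307) (S (nat_lit 27597) (S (nat_lit 29077) (S (nat_lit 50515) (L (nat_lit 11613074))
(L (nat_lit 11102595)))
(L (nat_lit 30424681)))
(L (nat_lit 6926394)))
(S (nat_lit 40071) (S (nat_lit 32944) (L (nat_lit 14524099))
(L (nat_lit 23889384)))
(L (nat_lit 25532076)))))
(S (nat_lit 46117) (S (nat_lit 11688) (S (nat_lit 753) (S (nat_lit 6596) (L (nat_lit 26287511))
(L (nat_lit 596913)))
(L (nat_lit 13981849)))
(S (nat_lit 31452) (S (nat_lit 10274) (S (nat_lit 24656) (S (nat_lit 56785) (L (nat_lit 705785))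
(L (nat_lit 14390620)))
(L (nat_lit 21281849)))
(L (nat_lit 963304)))
(S (nat_lit 51216) (S (nat_lit 24445) (S (nat_lit 53215) (L (nat_lit 13641554))
(L (nat_lit 17851016)))
(L (nat_lit 840168)))
(L (nat_lit 25892298)))))
(L (nat_lit 25252078)))))
(S (nat_lit 34412) (S (nat_lit 8584) (S (nat_lit 5538) (L (nat_lit 23335355))
(S (nat_lit 33451) (S (nat_lit 50463) (S (nat_lit 35349) (S (nat_lit 44648) (L (nat_lit 17007322))
(L (nat_lit 27269527)))
(L (nat_lit 19930926)))
(L (nat_lit 11564751)))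
(L (nat_lit 30427503))))
(S (nat_lit 28348) (S (nat_lit 8786) (S (nat_lit 29077) (S (nat_lit 44648) (S (nat_lit 15085) (L (nat_lit 13235274))
(L (nat_lit 12690230)))
(L (nat_lit 8227566)))
(S (nat_lit 41572) (S (nat_lit 1942) (L (nat_lit 1583837))
(L (nat_lit 1340143)))
(L (nat_lit 18890600))))
(S (nat_lit 57937) (S (nat_lit 47072) (L (nat_lit 20122171))
(L (nat_lit 20887873)))
(L (nat_lit 23357453))))
(S (nat_lit 48112) (S (nat_lit 44706) (S (nat_lit 6827) (S (nat_lit 43926) (L (nat_lit 23096623))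
(L (nat_lit 27865409)))
(L (nat_lit 23505729)))
(L (nat_lit 8138866)))
(L (nat_lit 25174551)))))
(S (nat_lit 54176) (S (nat_lit 5178) (S (nat_lit 44209) (S (nat_lit 51499) (S (nat_lit 21011) (L (nat_lit 12017568))
(L (nat_lit 21457088)))
(L (nat_lit 7398898)))
(L (nat_lit 23127528)))
(S (nat_lit 24942) (S (nat_lit 17257) (S (nat_lit 17172) (L (nat_lit 11582389))
(S (nat_lit 25402) (S (nat_lit 13617) (L (nat_lit 12904097))
(L (nat_lit 7100805)))
(L (nat_lit 14441828))))
(S (nat_lit 37021) (S (nat_lit 26178) (L (nat_lit 22889546))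
(S (nat_lit 58707) (L (nat_lit 18605127))
(L (nat_lit 23927889))))
(S (nat_lit 56785) (S (nat_lit 8315) (L (nat_lit 13438567))
(L (nat_lit 14414886)))
(L (nat_lit 25542707)))))
(S (nat_lit 44706) (S (nat_lit 4681) (S (nat_lit 28348) (S (nat_lit 48334) (S (nat_lit 36810) (L (nat_lit 17157985))
(L (nat_lit 20716622)))
(L (nat_lit 27958348)))
(L (nat_lit 7366318)))
(S (nat_lit 24445) (S (nat_lit 48334) (S (nat_lit 44648) (S (nat_lit 36810) (L (nat_lit 13985943))
(L (nat_lit 18455644)))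
(L (nat_lit 23956871)))
(L (nat_lit 27777129)))
(S (nat_lit 44209) (S (nat_lit 7544) (S (nat_lit 44648) (S (nat_lit 49802) (L (nat_lit 21536922))
(L (nat_lit 9198703)))
(L (nat_lit 23356558)))
(L (nat_lit 13244199)))
(L (nat_lit 25924816)))))
(L (nat_lit 25344680)))))
(L (nat_lit 25836648)))))
(L (nat_lit 25803816)))))
(L (nat_lit 25185706)))))

theorem rb179_0 : run 4 lb179 [] tb179_0 kb179 (P4 4 2197 2355 2217 5601 0 0 0 1) [] = true := by
  decide +kernel

noncomputable def ta27_4 : Tr :=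
(S (nat_lit 1396) (S (nat_lit 584) (S (nat_lit 2110) (S (nat_lit 4245) (L (nat_lit 498274))
(S (nat_lit 4384) (S (nat_lit 4444) (L (nat_lit 55752))
(L (nat_lit 376450)))
(L (nat_lit 448706))))
(S (nat_lit 4324) (S (nat_lit 1084) (S (nat_lit 4000) (L (nat_lit 770241))
(L (nat_lit 532663)))
(S (nat_lit 5910) (S (nat_lit 4007) (S (nat_lit 3311) (L (nat_lit 153807))
(L (nat_lit 634337)))
(S (nat_lit 4380) (S (nat_lit 2561) (L (nat_lit 229778))
(L (nat_lit 183783)))
(L (nat_lit 432769))))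
(L (nat_lit 404096))))
(S (nat_lit 6538) (S (nat_lit 1385) (S (nat_lit 1061) (S (nat_lit 2241) (L (nat_lit 174673))
(L (nat_lit 372790)))
(S (nat_lit 5208) (L (nat_lit 655601))
(L (nat_lit 76215))))
(S (nat_lit 3599) (S (nat_lit 0) (S (nat_lit 4775) (S (nat_lit 648) (L (nat_lit 308864))
(L (nat_lit 626091)))
(L (nat_lit 528071)))
(S (nat_lit 1841) (L (nat_lit 76277))
(L (nat_lit 51623))))
(S (nat_lit 5813) (S (nat_lit 5910) (S (nat_lit 6214) (S (nat_lit 741) (L (nat_lit 181463))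
(L (nat_lit 218656)))
(L (nat_lit 245440)))
(L (nat_lit 404096)))
(L (nat_lit 601570)))))
(L (nat_lit 605412)))))
(S (nat_lit 2798) (S (nat_lit 0) (S (nat_lit 625) (S (nat_lit 2822) (L (nat_lit 198135))
(L (nat_lit 276501)))
(S (nat_lit 3696) (S (nat_lit 5733) (S (nat_lit 648) (L (nat_lit 176371))
(L (nat_lit 365970)))
(L (nat_lit 197141)))
(L (nat_lit 275104))))
(S (nat_lit 2214) (S (nat_lit 3696) (S (nat_lit 2955) (S (nat_lit 1143) (L (nat_lit 460457))
(L (nat_lit 105070)))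
(L (nat_lit 122247)))
(S (nat_lit 5303) (L (nat_lit 753999))
(L (nat_lit 266927))))
(S (nat_lit 4428) (S (nat_lit 379) (S (nat_lit 3692) (L (nat_lit 122128))
(L (nat_lit 309301)))
(S (nat_lit 3696) (S (nat_lit 2862) (S (nat_lit 6214) (L (nat_lit 496328))
(L (nat_lit 48502)))
(L (nat_lit 341699)))
(L (nat_lit 535136))))
(L (nat_lit 591270)))))
(S (nat_lit 5012) (S (nat_lit 2117) (S (nat_lit 16) (S (nat_lit 1793) (L (nat_lit 299601))
(L (nat_lit 627980)))
(S (nat_lit 2230) (S (nat_lit 6221) (S (nat_lit 1869) (L (nat_lit 623112))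
(L (nat_lit 501842)))
(S (nat_lit 6248) (S (nat_lit 1842) (L (nat_lit 435940))
(L (nat_lit 314415)))
(L (nat_lit 118249))))
(S (nat_lit 4444) (S (nat_lit 0) (S (nat_lit 1482) (L (nat_lit 314385))
(L (nat_lit 637249)))
(L (nat_lit 635942)))
(L (nat_lit 604515)))))
(S (nat_lit 4331) (S (nat_lit 1793) (S (nat_lit 2885) (S (nat_lit 5489) (L (nat_lit 401122))
(L (nat_lit 299506)))
(L (nat_lit 328147)))
(S (nat_lit 4007) (S (nat_lit 671) (S (nat_lit 1061) (L (nat_lit 180599))
(L (nat_lit 85481)))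
(L (nat_lit 426230)))
(S (nat_lit 6221) (S (nat_lit 3357) (L (nat_lit 137873))
(L (nat_lit 760323)))
(L (nat_lit 590311)))))
(S (nat_lit 6545) (S (nat_lit 1482) (S (nat_lit 5169) (L (nat_lit 403511))
(L (nat_lit 186638)))
(S (nat_lit 4729) (S (nat_lit 2430) (L (nat_lit 767169))
(L (nat_lit 393864)))
(L (nat_lit 627055))))
(L (nat_lit 591148)))))
(L (nat_lit 604417)))))
(S (nat_lit 3610) (S (nat_lit 16) (S (nat_lit 1305) (S (nat_lit 1478) (S (nat_lit 648) (L (nat_lit 266739))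
(L (nat_lit 412843)))
(S (nat_lit 3692) (S (nat_lit 5813) (L (nat_lit 563778))
(L (nat_lit 267762)))
(S (nat_lit 5906) (S (nat_lit 5897) (S (nat_lit 5165) (L (nat_lit 426295))
(L (nat_lit 432274)))
(L (nat_lit 180434)))
(L (nat_lit 601100)))))
(S (nat_lit 3519) (S (nat_lit 1061) (S (nat_lit 2031) (S (nat_lit 2293) (L (nat_lit 48466))
(L (nat_lit 87561)))
(L (nat_lit 625033)))
(S (nat_lit 3275) (S (nat_lit 3696) (L (nat_lit 277682))
(L (nat_lit 283791)))
(S (nat_lit 5489) (S (nat_lit 6538) (S (nat_lit 584) (L (nat_lit 694316))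
(L (nat_lit 413734)))
(L (nat_lit 658951)))
(L (nat_lit 598127)))))
(S (nat_lit 5733) (S (nat_lit 1072) (S (nat_lit 3692) (L (nat_lit 360981))
(L (nat_lit 267918)))
(S (nat_lit 3286) (S (nat_lit 3692) (S (nat_lit 648) (L (nat_lit 104917))
(L (nat_lit 631980)))
(L (nat_lit 281612)))
(S (nat_lit 5500) (S (nat_lit 5897) (S (nat_lit 6214) (L (nat_lit 416907))
(L (nat_lit 310981)))
(L (nat_lit 415786)))
(L (nat_lit 597440)))))
(L (nat_lit 600206)))))
(S (nat_lit 2230) (S (nat_lit 648) (S (nat_lit 3286) (S (nat_lit 3709) (S (nat_lit 4419) (L (nat_lit 727088))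
(L (nat_lit 280589)))
(S (nat_lit 5897) (S (nat_lit 2977) (L (nat_lit 449576))
(S (nat_lit 5165) (S (nat_lit 4324) (S (nat_lit 4000) (S (nat_lit 48) (S (nat_lit 277) (L (nat_lit 104981))
(L (nat_lit 511267)))
(S (nat_lit 5489) (L (nat_lit 725265))
(L (nat_lit 665709))))
(L (nat_lit 434917)))
(L (nat_lit 429802)))
(L (nat_lit 170482))))
(L (nat_lit 461042))))
(L (nat_lit 396631)))
(S (nat_lit 2862) (S (nat_lit 3692) (S (nat_lit 6538) (S (nat_lit 1061) (L (nat_lit 80116))
(L (nat_lit 82231)))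
(L (nat_lit 405188)))
(L (nat_lit 277188)))
(S (nat_lit 5076) (S (nat_lit 1530) (S (nat_lit 3692) (L (nat_lit 629936))
(L (nat_lit 77516)))
(S (nat_lit 5906) (S (nat_lit 584) (L (nat_lit 149745))
(L (nat_lit 436279)))
(L (nat_lit 145650))))
(L (nat_lit 595244)))))
(S (nat_lit 4444) (S (nat_lit 584) (S (nat_lit 631) (S (nat_lit 2526) (L (nat_lit 395912))
(L (nat_lit 147114)))
(S (nat_lit 3696) (S (nat_lit 1786) (S (nat_lit 695) (S (nat_lit 1358) (L (nat_lit 478433))
(L (nat_lit 264911)))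
(L (nat_lit 328118)))
(L (nat_lit 281088)))
(L (nat_lit 284032))))
(S (nat_lit 2798) (S (nat_lit 1061) (S (nat_lit 4245) (S (nat_lit 3519) (L (nat_lit 47721))
(L (nat_lit 764418)))
(L (nat_lit 231830)))
(S (nat_lit 3275) (S (nat_lit 2561) (L (nat_lit 756265))
(L (nat_lit 480449)))
(S (nat_lit 5489) (S (nat_lit 1869) (L (nat_lit 729603))
(L (nat_lit 277586)))
(L (nat_lit 598063)))))
(S (nat_lit 5012) (S (nat_lit 3143) (L (nat_lit 18056))
(S (nat_lit 5910) (S (nat_lit 6459) (S (nat_lit 3519) (L (nat_lit 40526))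
(L (nat_lit 398985)))
(L (nat_lit 397961)))
(L (nat_lit 332245))))
(L (nat_lit 604264)))))
(L (nat_lit 598531)))))
(S (nat_lit 5824) (S (nat_lit 1482) (S (nat_lit 16) (S (nat_lit 757) (L (nat_lit 623081))
(S (nat_lit 3683) (S (nat_lit 584) (S (nat_lit 3599) (S (nat_lit 2561) (S (nat_lit 1793) (L (nat_lit 146807))
(L (nat_lit 563350)))
(L (nat_lit 21961)))
(L (nat_lit 415814)))
(L (nat_lit 630307)))
(L (nat_lit 114933))))
(S (nat_lit 2230) (S (nat_lit 3683) (S (nat_lit 3599) (S (nat_lit 584) (S (nat_lit 1143) (L (nat_lit 115398))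
(L (nat_lit 340579)))
(L (nat_lit 398615)))
(L (nat_lit 415814)))
(S (nat_lit 5043) (S (nat_lit 2948) (L (nat_lit 112330))
(L (nat_lit 88618)))
(L (nat_lit 313388))))
(S (nat_lit 4444) (S (nat_lit 1999) (L (nat_lit 350256))
(S (nat_lit 5906) (S (nat_lit 4083) (S (nat_lit 3357) (L (nat_lit 560872))
(L (nat_lit 220675)))
(L (nat_lit 431786)))
(L (nat_lit 150058))))
(L (nat_lit 605538)))))
(S (nat_lit 3696) (S (nat_lit 1869) (S (nat_lit 4563) (S (nat_lit 3692) (S (nat_lit 4887) (L (nat_lit 297708))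
(L (nat_lit 77549)))
(L (nat_lit 299724)))
(S (nat_lit 4779) (S (nat_lit 2683) (L (nat_lit 330228))
(L (nat_lit 436242)))
(S (nat_lit 5076) (S (nat_lit 3692) (S (nat_lit 1610) (L (nat_lit 754929))
(L (nat_lit 120140)))
(L (nat_lit 447684)))
(L (nat_lit 283756)))))
(S (nat_lit 4083) (S (nat_lit 5300) (L (nat_lit 480448))
(S (nat_lit 5813) (S (nat_lit 2230) (S (nat_lit 5012) (L (nat_lit 111336))
(L (nat_lit 121104)))
(L (nat_lit 763055)))
(L (nat_lit 267700))))
(S (nat_lit 6297) (S (nat_lit 5516) (S (nat_lit 2955) (L (nat_lit 314384))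
(L (nat_lit 756103)))
(S (nat_lit 5813) (S (nat_lit 5012) (S (nat_lit 3286) (L (nat_lit 689388))
(L (nat_lit 566359)))
(L (nat_lit 121104)))
(L (nat_lit 267700))))
(L (nat_lit 595183)))))
(S (nat_lit 5910) (S (nat_lit 648) (S (nat_lit 741) (S (nat_lit 5500) (S (nat_lit 5162) (L (nat_lit 122125))
(L (nat_lit 513317)))
(L (nat_lit 53707)))
(S (nat_lit 2955) (S (nat_lit 4083) (S (nat_lit 584) (L (nat_lit 109293))
(L (nat_lit 86536)))
(L (nat_lit 769315)))
(S (nat_lit 5169) (S (nat_lit 204) (L (nat_lit 106003))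
(S (nat_lit 5500) (S (nat_lit 4065) (L (nat_lit 186609))
(L (nat_lit 351619)))
(L (nat_lit 512325))))
(L (nat_lit 607521)))))
(S (nat_lit 2862) (S (nat_lit 2110) (S (nat_lit 5813) (L (nat_lit 340022))
(L (nat_lit 437890)))
(S (nat_lit 4324) (S (nat_lit 3416) (L (nat_lit 756077))
(S (nat_lit 5571) (S (nat_lit 1793) (L (nat_lit 316801))
(L (nat_lit 512257)))
(L (nat_lit 13032))))
(S (nat_lit 6538) (S (nat_lit 0) (S (nat_lit 584) (L (nat_lit 429426))
(L (nat_lit 141846)))
(L (nat_lit 444455)))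
(L (nat_lit 601133)))))
(S (nat_lit 5076) (S (nat_lit 584) (L (nat_lit 340022))
(S (nat_lit 2798) (S (nat_lit 1869) (S (nat_lit 1061) (L (nat_lit 340022))
(L (nat_lit 264911)))
(L (nat_lit 265935)))
(S (nat_lit 5012) (S (nat_lit 4134) (L (nat_lit 763985))
(L (nat_lit 558665)))
(L (nat_lit 605441)))))
(L (nat_lit 593261)))))
(L (nat_lit 601263)))))
(L (nat_lit 592241)))))

theorem ra27_4 : run 3 la27 [] ta27_4 ka27 (P4 3 1 108 152 108 1 0 0 0) [] = true := by
  decide +kernel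

noncomputable def ta29_2 : Tr :=
(S (nat_lit 1953) (S (nat_lit 1077) (S (nat_lit 2862) (S (nat_lit 1073) (S (nat_lit 1629) (L (nat_lit 79122))
(L (nat_lit 636099)))
(L (nat_lit 145001)))
(L (nat_lit 145097)))
(S (nat_lit 3291) (L (nat_lit 177524))
(S (nat_lit 5505) (S (nat_lit 648) (S (nat_lit 6057) (L (nat_lit 738500))
(L (nat_lit 374501)))
(L (nat_lit 112203)))
(L (nat_lit 593322)))))
(S (nat_lit 4167) (S (nat_lit 3843) (S (nat_lit 1482) (S (nat_lit 4437) (S (nat_lit 1073) (S (nat_lit 666) (L (nat_lit 82133))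
(L (nat_lit 318851)))
(L (nat_lit 153933)))
(L (nat_lit 147175)))
(S (nat_lit 3696) (S (nat_lit 2871) (S (nat_lit 2223) (S (nat_lit 5868) (S (nat_lit 2727) (L (nat_lit 7700))
(L (nat_lit 285088)))
(L (nat_lit 264695)))
(L (nat_lit 499734)))
(L (nat_lit 149899)))
(S (nat_lit 5910) (S (nat_lit 1073) (S (nat_lit 1077) (S (nat_lit 2403) (S (nat_lit 4761) (L (nat_lit 120199))
(L (nat_lit 661890)))
(L (nat_lit 78471)))
(L (nat_lit 285154)))
(L (nat_lit 462166)))
(L (nat_lit 594255)))))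
(L (nat_lit 145031)))
(S (nat_lit 6381) (S (nat_lit 671) (S (nat_lit 1305) (S (nat_lit 673) (S (nat_lit 2054) (L (nat_lit 531172))
(L (nat_lit 526710)))
(S (nat_lit 6368) (L (nat_lit 533058))
(L (nat_lit 630862))))
(S (nat_lit 3519) (S (nat_lit 674) (S (nat_lit 3246) (L (nat_lit 342162))
(L (nat_lit 330230)))
(L (nat_lit 384512)))
(S (nat_lit 5733) (S (nat_lit 6048) (S (nat_lit 1073) (L (nat_lit 330383))
(L (nat_lit 286209)))
(L (nat_lit 466661)))
(L (nat_lit 602402)))))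
(S (nat_lit 2885) (S (nat_lit 1629) (S (nat_lit 5102) (S (nat_lit 1477) (L (nat_lit 12902))
(L (nat_lit 220706)))
(L (nat_lit 663633)))
(S (nat_lit 3843) (L (nat_lit 111988))
(S (nat_lit 6057) (S (nat_lit 5076) (S (nat_lit 4437) (S (nat_lit 5085) (S (nat_lit 1073) (S (nat_lit 1129) (L (nat_lit 173459))
(L (nat_lit 501408)))
(L (nat_lit 350721)))
(L (nat_lit 278243)))
(L (nat_lit 559317)))
(L (nat_lit 276195)))
(L (nat_lit 606435)))))
(S (nat_lit 5099) (S (nat_lit 1296) (S (nat_lit 333) (S (nat_lit 1073) (L (nat_lit 412806))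
(L (nat_lit 277590)))
(L (nat_lit 81482)))
(S (nat_lit 3510) (S (nat_lit 3843) (L (nat_lit 111988))
(L (nat_lit 528630)))
(S (nat_lit 5724) (S (nat_lit 1073) (S (nat_lit 5733) (L (nat_lit 173527))
(L (nat_lit 285186)))
(L (nat_lit 285187)))
(L (nat_lit 604235)))))
(L (nat_lit 592208)))))
(L (nat_lit 597473)))))

theorem ra29_2 : run 3 la29 [] ta29_2 ka29 (P4 3 372 370 108 0 0 0 1 2) [] = true := by
  decide +kernel

noncomputable def tb178_5 : Tr :=
(L (nat_lit 25836802))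

theorem rb178_5 : run 4 lb178 [] tb178_5 kb178 (P4 4 1809 4070 192 1809 1 2 0 0) [] = true := by
  decide +kernel

noncomputable def tb182_3 : Tr :=
(L (nat_lit 25768128))

theorem rb182_3 : run 4 lb182 [] tb182_3 kb182 (P4 4 1473 0 5135 0 0 1 0 0) [] = true := by
  decide +kernel

noncomputable def ta13_2 : Tr :=
(L (nat_lit 605440))

theorem ra13_2 : run 3 la13 [] ta13_2 ka13 (P4 3 3 623 79 623 0 0 1 2) [] = true := by
  decide +kernel

end Pool.Agent.MP_92191b_al.K3.E
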