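import Pool.Agent.MP_92191b_al.K3.CR3

/-! Refutation trees. -/

namespace Pool.Agent.MP_92191b_al.K3.E

open Tr

set_option maxRecDepth 100000

noncomputable def tb262_1 : Tr :=
(S (nat_lit 15067) (S (nat_lit 17289) (S (nat_lit 16091) (S (nat_lit 8532) (S (nat_lit 9967) (S (nat_lit 2753) (S (nat_lit 6363) (S (nat_lit 3222) (S (nat_lit 53698) (S (nat_lit 10982) (L (nat_lit 17671844))
(L (nat_lit 601870)))
(L (nat_lit 10292943)))
(L (nat_lit 15427844)))
(L (nat_lit 3595019)))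
(S (nat_lit 42200) (S (nat_lit 3358) (L (nat_lit 2470711))
(L (nat_lit 30807622)))
(L (nat_lit 26588247))))
(S (nat_lit 29731) (S (nat_lit 4386) (S (nat_lit 2250) (S (nat_lit 50224) (S (nat_lit 9746) (L (nat_lit 26749604))
(L (nat_lit 17618211)))
(L (nat_lit 27727431)))
(L (nat_lit 1550098)))
(S (nat_lit 24150) (S (nat_lit 18233) (S (nat_lit 50252) (L (nat_lit 29660566))
(L (nat_lit 13866899)))
(L (nat_lit 22068541)))
(S (nat_lit 43914) (S (nat_lit 50224) (S (nat_lit 18233) (S (nat_lit 43253) (L (nat_lit 8967073))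
(L (nat_lit 27473047)))
(L (nat_lit 24174892)))
(L (nat_lit 27987335)))
(L (nat_lit 25215251)))))
(S (nat_lit 49495) (S (nat_lit 17264) (S (nat_lit 2192) (S (nat_lit 18529) (S (nat_lit 55359) (L (nat_lit 29922613))
(L (nat_lit 12464311)))
(L (nat_lit 22439205)))
(L (nat_lit 15327525)))
(S (nat_lit 37028) (S (nat_lit 23919) (S (nat_lit 6363) (S (nat_lit 9757) (L (nat_lit 28554355))
(L (nat_lit 23080748)))
(L (nat_lit 26369391)))
(L (nat_lit 13231115)))
(S (nat_lit 56792) (S (nat_lit 41996) (S (nat_lit 35151) (S (nat_lit 53698) (L (nat_lit 9630103))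
(L (nat_lit 21832878)))
(L (nat_lit 13473351)))
(L (nat_lit 3859979)))
(L (nat_lit 25271826)))))
(L (nat_lit 25826854)))))
(S (nat_lit 28296) (S (nat_lit 4386) (S (nat_lit 9746) (S (nat_lit 19453) (S (nat_lit 44185) (S (nat_lit 15387) (L (nat_lit 5125802))
(L (nat_lit 26388917)))
(L (nat_lit 24950021)))
(L (nat_lit 16534663)))
(S (nat_lit 19036) (L (nat_lit 24393509))
(L (nat_lit 17618211))))
(S (nat_lit 24150) (S (nat_lit 6325) (S (nat_lit 30460) (S (nat_lit 56792) (L (nat_lit 5909914))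
(L (nat_lit 18998573)))
(L (nat_lit 30872818)))
(S (nat_lit 26089) (S (nat_lit 44185) (S (nat_lit 47105) (L (nat_lit 13884196))
(L (nat_lit 28022313)))
(L (nat_lit 24941872)))
(S (nat_lit 45853) (S (nat_lit 11736) (S (nat_lit 45891) (S (nat_lit 26637) (L (nat_lit 4833031))
(L (nat_lit 14722870)))
(L (nat_lit 23324849)))
(L (nat_lit 23311105)))
(L (nat_lit 25666581)))))
(S (nat_lit 43914) (S (nat_lit 44886) (S (nat_lit 29510) (S (nat_lit 972) (S (nat_lit 23732) (S (nat_lit 22517) (S (nat_lit 58981) (L (nat_lit 30517686))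
(L (nat_lit 8968996)))
(L (nat_lit 20985642)))
(L (nat_lit 21247777)))
(L (nat_lit 2385330)))
(L (nat_lit 12408227)))
(L (nat_lit 23572260)))
(L (nat_lit 25726598)))))
(S (nat_lit 48060) (S (nat_lit 17747) (S (nat_lit 10368) (L (nat_lit 22134075))
(S (nat_lit 16041) (S (nat_lit 22738) (S (nat_lit 15137) (S (nat_lit 56574) (S (nat_lit 24907) (S (nat_lit 54868) (S (nat_lit 44886) (L (nat_lit 10272885))
(L (nat_lit 3729064)))
(L (nat_lit 16451465)))
(L (nat_lit 3682068)))
(L (nat_lit 27996452)))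
(S (nat_lit 48618) (L (nat_lit 6306461))
(L (nat_lit 3812272))))
(S (nat_lit 39930) (L (nat_lit 974188))
(L (nat_lit 3916157))))
(L (nat_lit 22570337))))
(S (nat_lit 37511) (S (nat_lit 44886) (S (nat_lit 9757) (L (nat_lit 242427))
(L (nat_lit 8951607)))
(L (nat_lit 24681252)))
(S (nat_lit 57275) (S (nat_lit 15340) (S (nat_lit 18529) (S (nat_lit 43914) (L (nat_lit 14915260))
(L (nat_lit 14735142)))
(L (nat_lit 22078701)))
(S (nat_lit 35104) (S (nat_lit 41720) (L (nat_lit 18078465))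
(L (nat_lit 12173434)))
(S (nat_lit 54868) (S (nat_lit 2192) (S (nat_lit 22738) (L (nat_lit 28557367))
(L (nat_lit 21202488)))
(L (nat_lit 801078)))
(L (nat_lit 25238067)))))
(L (nat_lit 25249354)))))
(L (nat_lit 25212214)))))
(S (nat_lit 35855) (S (nat_lit 6325) (S (nat_lit 3725) (S (nat_lit 14170) (S (nat_lit 16041) (S (nat_lit 9967) (S (nat_lit 22986) (L (nat_lit 12195322))
(L (nat_lit 11580243)))
(L (nat_lit 17522822)))
(L (nat_lit 24667329)))
(L (nat_lit 26462383)))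
(S (nat_lit 23489) (S (nat_lit 2192) (S (nat_lit 46401) (S (nat_lit 18233) (S (nat_lit 972) (S (nat_lit 17747) (L (nat_lit 20149391))
(L (nat_lit 24338478)))
(L (nat_lit 14278978)))
(L (nat_lit 24952100)))
(L (nat_lit 22816292)))
(S (nat_lit 21956) (S (nat_lit 46401) (S (nat_lit 22718) (S (nat_lit 28834) (S (nat_lit 50778) (L (nat_lit 9980708))
(L (nat_lit 27643428)))
(L (nat_lit 19260524)))
(L (nat_lit 13263108)))
(L (nat_lit 22815268)))
(S (nat_lit 41720) (S (nat_lit 44886) (S (nat_lit 51482) (S (nat_lit 3164) (S (nat_lit 2954) (L (nat_lit 11619739))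
(L (nat_lit 11154212)))
(L (nat_lit 15328265)))
(L (nat_lit 13411969)))
(L (nat_lit 3785514)))
(L (nat_lit 25414767)))))
(S (nat_lit 43253) (S (nat_lit 52916) (S (nat_lit 55133) (S (nat_lit 36810) (S (nat_lit 10724) (L (nat_lit 26262867))
(L (nat_lit 17031746)))
(L (nat_lit 20177346)))
(L (nat_lit 3465805)))
(L (nat_lit 3564139)))
(L (nat_lit 25320717)))))
(S (nat_lit 26089) (S (nat_lit 19514) (S (nat_lit 3482) (S (nat_lit 12375) (L (nat_lit 9012017))
(S (nat_lit 17264) (S (nat_lit 17317) (S (nat_lit 23489) (S (nat_lit 42692) (S (nat_lit 13874) (L (nat_lit 4646633))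
(L (nat_lit 26256882)))
(L (nat_lit 9522584)))
(L (nat_lit 18586404)))
(L (nat_lit 12142372)))
(L (nat_lit 10127151))))
(S (nat_lit 41191) (S (nat_lit 44886) (L (nat_lit 2385615))
(L (nat_lit 15281954)))
(L (nat_lit 26713824))))
(S (nat_lit 39278) (S (nat_lit 16041) (S (nat_lit 33152) (S (nat_lit 29510) (S (nat_lit 23489) (L (nat_lit 257431))
(L (nat_lit 2321911)))
(L (nat_lit 6948345)))
(L (nat_lit 23299577)))
(S (nat_lit 35805) (S (nat_lit 48528) (L (nat_lit 29791543))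
(L (nat_lit 20407492)))
(S (nat_lit 55569) (S (nat_lit 37511) (L (nat_lit 5534382))
(L (nat_lit 17538171)))
(L (nat_lit 25920906)))))
(S (nat_lit 59042) (S (nat_lit 9070) (S (nat_lit 18844) (L (nat_lit 2546439))
(L (nat_lit 23933220)))
(S (nat_lit 28834) (S (nat_lit 23919) (S (nat_lit 49274) (L (nat_lit 28327659))
(L (nat_lit 9917498)))
(L (nat_lit 7452467)))
(S (nat_lit 48598) (S (nat_lit 49274) (L (nat_lit 9560653))
(L (nat_lit 3690247)))
(L (nat_lit 25507429)))))
(L (nat_lit 25184808)))))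
(S (nat_lit 45853) (S (nat_lit 2468) (S (nat_lit 27341) (S (nat_lit 10982) (S (nat_lit 41494) (S (nat_lit 30460) (L (nat_lit 17394917))
(L (nat_lit 13440586)))
(L (nat_lit 6414804)))
(L (nat_lit 6821685)))
(L (nat_lit 6755963)))
(S (nat_lit 22232) (S (nat_lit 3482) (S (nat_lit 49274) (S (nat_lit 49981) (S (nat_lit 37028) (L (nat_lit 18586649))
(L (nat_lit 20448569)))
(L (nat_lit 3691303)))
(L (nat_lit 4050157)))
(S (nat_lit 23246) (S (nat_lit 58057) (S (nat_lit 23732) (L (nat_lit 255726))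
(L (nat_lit 13424897)))
(L (nat_lit 3816697)))
(S (nat_lit 43010) (S (nat_lit 30513) (S (nat_lit 41720) (L (nat_lit 28483309))
(L (nat_lit 27315501)))
(L (nat_lit 12610121)))
(L (nat_lit 25474071)))))
(S (nat_lit 41996) (S (nat_lit 7577) (S (nat_lit 44886) (S (nat_lit 49274) (S (nat_lit 53402) (L (nat_lit 19120900))
(L (nat_lit 17732978)))
(L (nat_lit 4105903)))
(L (nat_lit 23566122)))
(S (nat_lit 27341) (S (nat_lit 13874) (S (nat_lit 32705) (S (nat_lit 44671) (L (nat_lit 26779268))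
(L (nat_lit 24227353)))
(L (nat_lit 24319449)))
(L (nat_lit 24385393)))
(S (nat_lit 47105) (S (nat_lit 43914) (S (nat_lit 31500) (S (nat_lit 57085) (L (nat_lit 24319756))
(L (nat_lit 6102419)))
(L (nat_lit 19109713)))
(L (nat_lit 14738739)))
(L (nat_lit 25526805)))))
(L (nat_lit 25339350)))))
(L (nat_lit 25479556)))))
(S (nat_lit 55619) (S (nat_lit 14170) (S (nat_lit 15137) (S (nat_lit 15387) (S (nat_lit 13388) (S (nat_lit 19514) (L (nat_lit 14881404))
(L (nat_lit 6179182)))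
(L (nat_lit 12808370)))
(S (nat_lit 56773) (L (nat_lit 26292966))
(L (nat_lit 26658983))))
(S (nat_lit 34901) (S (nat_lit 17747) (S (nat_lit 17046) (S (nat_lit 16041) (S (nat_lit 10453) (S (nat_lit 972) (S (nat_lit 29510) (S (nat_lit 22986) (S (nat_lit 12918) (S (nat_lit 11250) (S (nat_lit 15387) (S (nat_lit 55133) (S (nat_lit 15894) (S (nat_lit 207) (D (nat_lit 8) (nat_lit 3502514) (nat_lit 19237648) (nat_lit 209446767616))
(L (nat_lit 6144614)))
(L (nat_lit 4444632)))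
(L (nat_lit 12111992)))
(L (nat_lit 26546830)))
(L (nat_lit 4542223)))
(L (nat_lit 5500657)))
(L (nat_lit 13328520)))
(L (nat_lit 11687725)))
(L (nat_lit 20320536)))
(L (nat_lit 21500155)))
(L (nat_lit 24918368)))
(L (nat_lit 26396331)))
(S (nat_lit 27940) (S (nat_lit 55004) (L (nat_lit 30658702))
(L (nat_lit 26910083)))
(L (nat_lit 26415570))))
(S (nat_lit 54665) (S (nat_lit 11954) (S (nat_lit 17317) (S (nat_lit 19514) (L (nat_lit 3356498))
(L (nat_lit 26626214)))
(L (nat_lit 26814913)))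
(S (nat_lit 31718) (S (nat_lit 41778) (S (nat_lit 56845) (L (nat_lit 20979130))
(L (nat_lit 19162561)))
(L (nat_lit 6104686)))
(S (nat_lit 51482) (S (nat_lit 55133) (S (nat_lit 22014) (S (nat_lit 54868) (L (nat_lit 13331809))
(L (nat_lit 21044633)))
(L (nat_lit 12771911)))
(L (nat_lit 3877370)))
(L (nat_lit 25180807)))))
(L (nat_lit 25447970)))))
(S (nat_lit 33934) (S (nat_lit 13388) (S (nat_lit 42750) (S (nat_lit 36123) (S (nat_lit 56574) (S (nat_lit 51264) (S (nat_lit 26127) (L (nat_lit 28319342))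
(L (nat_lit 13883516)))
(L (nat_lit 5492593)))
(L (nat_lit 13861749)))
(L (nat_lit 23174960)))
(S (nat_lit 52742) (L (nat_lit 12836916))
(L (nat_lit 24347568))))
(S (nat_lit 33152) (S (nat_lit 16312) (S (nat_lit 26127) (S (nat_lit 10453) (S (nat_lit 54915) (S (nat_lit 41778) (L (nat_lit 26320370))
(L (nat_lit 5596750)))
(L (nat_lit 6113646)))
(L (nat_lit 9900795)))
(L (nat_lit 21226671)))
(S (nat_lit 36076) (S (nat_lit 44886) (S (nat_lit 10453) (S (nat_lit 19514) (S (nat_lit 57085) (S (nat_lit 26127) (S (nat_lit 2954) (L (nat_lit 6777879))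
(L (nat_lit 17002085)))
(L (nat_lit 13887075)))
(L (nat_lit 12770684)))
(L (nat_lit 10040064)))
(L (nat_lit 17163442)))
(L (nat_lit 3774907)))
(S (nat_lit 55840) (S (nat_lit 29320) (S (nat_lit 22252) (S (nat_lit 54915) (L (nat_lit 14550699))
(L (nat_lit 21768366)))
(L (nat_lit 21314309)))
(L (nat_lit 13231275)))
(L (nat_lit 25896972)))))
(S (nat_lit 52916) (S (nat_lit 3482) (S (nat_lit 972) (L (nat_lit 5647993))
(L (nat_lit 19325252)))
(S (nat_lit 39502) (S (nat_lit 11811) (L (nat_lit 3396462))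
(L (nat_lit 3403188)))
(L (nat_lit 26935721))))
(L (nat_lit 25413648)))))
(S (nat_lit 53698) (S (nat_lit 2753) (S (nat_lit 35151) (S (nat_lit 55133) (S (nat_lit 44886) (S (nat_lit 4657) (L (nat_lit 7916732))
(L (nat_lit 19949993)))
(L (nat_lit 10041122)))
(L (nat_lit 11323501)))
(S (nat_lit 37664) (L (nat_lit 11581145))
(L (nat_lit 3975758))))
(S (nat_lit 22517) (S (nat_lit 3164) (S (nat_lit 20521) (S (nat_lit 35369) (L (nat_lit 18886479))
(L (nat_lit 9996146)))
(L (nat_lit 3951950)))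
(S (nat_lit 22928) (S (nat_lit 37028) (S (nat_lit 35369) (S (nat_lit 13699) (S (nat_lit 57085) (L (nat_lit 6211978))
(L (nat_lit 19023225)))
(L (nat_lit 10279023)))
(L (nat_lit 31032687)))
(L (nat_lit 31098223)))
(S (nat_lit 42692) (S (nat_lit 55133) (L (nat_lit 3358363))
(L (nat_lit 3793263)))
(L (nat_lit 25242253)))))
(S (nat_lit 42281) (S (nat_lit 3222) (S (nat_lit 8532) (S (nat_lit 49084) (S (nat_lit 52726) (S (nat_lit 6363) (S (nat_lit 5143) (L (nat_lit 12326386))
(L (nat_lit 26326389)))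
(L (nat_lit 15785737)))
(L (nat_lit 27923758)))
(L (nat_lit 14263481)))
(S (nat_lit 52981) (L (nat_lit 13863673))
(L (nat_lit 12818198))))
(S (nat_lit 53360) (L (nat_lit 12371124))
(L (nat_lit 26465424))))
(L (nat_lit 25177527)))))
(L (nat_lit 25759179)))))
(L (nat_lit 25378437)))))
(S (nat_lit 37053) (S (nat_lit 3968) (S (nat_lit 8532) (S (nat_lit 12918) (S (nat_lit 4386) (S (nat_lit 28698) (L (nat_lit 2830713))
(S (nat_lit 35151) (S (nat_lit 13388) (S (nat_lit 16359) (L (nat_lit 5458425))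
(L (nat_lit 26819876)))
(L (nat_lit 12833635)))
(L (nat_lit 23213863))))
(L (nat_lit 7386776)))
(S (nat_lit 32682) (S (nat_lit 24150) (S (nat_lit 55887) (S (nat_lit 13874) (S (nat_lit 22986) (S (nat_lit 2974) (L (nat_lit 21403004))
(L (nat_lit 20168794)))
(L (nat_lit 12627578)))
(L (nat_lit 12644969)))
(L (nat_lit 21029290)))
(L (nat_lit 21029287)))
(S (nat_lit 52446) (S (nat_lit 48598) (S (nat_lit 43914) (S (nat_lit 36123) (S (nat_lit 43253) (S (nat_lit 972) (L (nat_lit 2340754))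
(L (nat_lit 13379731)))
(L (nat_lit 6742757)))
(L (nat_lit 19983786)))
(L (nat_lit 27309362)))
(L (nat_lit 27309426)))
(L (nat_lit 25698021)))))
(S (nat_lit 28296) (S (nat_lit 15387) (S (nat_lit 1839) (S (nat_lit 43683) (L (nat_lit 25082920))
(L (nat_lit 27636755)))
(S (nat_lit 44886) (S (nat_lit 20035) (S (nat_lit 23919) (S (nat_lit 26127) (S (nat_lit 3164) (S (nat_lit 59042) (L (nat_lit 28906984))
(L (nat_lit 19669102)))
(L (nat_lit 11134125)))
(L (nat_lit 17569907)))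
(L (nat_lit 1435058)))
(S (nat_lit 29961) (L (nat_lit 23108492))
(L (nat_lit 21247872))))
(L (nat_lit 8303634))))
(S (nat_lit 35151) (S (nat_lit 20035) (S (nat_lit 9967) (L (nat_lit 11156666))
(L (nat_lit 23858566)))
(S (nat_lit 30419) (L (nat_lit 26467471))
(L (nat_lit 10391989))))
(S (nat_lit 54915) (S (nat_lit 19453) (S (nat_lit 48598) (L (nat_lit 19172793))
(L (nat_lit 3945815)))
(S (nat_lit 39217) (S (nat_lit 23919) (L (nat_lit 7222421))
(L (nat_lit 31031723)))
(S (nat_lit 58981) (S (nat_lit 972) (L (nat_lit 26359430))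
(L (nat_lit 11292068)))
(L (nat_lit 25465366)))))
(L (nat_lit 25761102)))))
(S (nat_lit 48060) (S (nat_lit 17747) (S (nat_lit 16359) (S (nat_lit 24150) (S (nat_lit 9070) (L (nat_lit 22820165))
(L (nat_lit 26260818)))
(L (nat_lit 8446386)))
(S (nat_lit 36123) (S (nat_lit 52446) (S (nat_lit 56088) (S (nat_lit 22738) (S (nat_lit 23947) (S (nat_lit 48528) (L (nat_lit 26772199))
(L (nat_lit 22229860)))
(L (nat_lit 30455495)))
(L (nat_lit 30657644)))
(L (nat_lit 16570472)))
(L (nat_lit 12838627)))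
(S (nat_lit 55887) (S (nat_lit 32682) (S (nat_lit 4183) (S (nat_lit 53698) (S (nat_lit 50252) (L (nat_lit 28560465))
(L (nat_lit 15791349)))
(L (nat_lit 9494998)))
(L (nat_lit 11591099)))
(L (nat_lit 19108282)))
(L (nat_lit 25481326)))))
(S (nat_lit 37511) (S (nat_lit 2753) (S (nat_lit 10453) (S (nat_lit 29510) (S (nat_lit 54915) (L (nat_lit 21163311))
(L (nat_lit 4645239)))
(L (nat_lit 19227695)))
(L (nat_lit 26291602)))
(S (nat_lit 22517) (S (nat_lit 2488) (S (nat_lit 34901) (L (nat_lit 20144303))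
(L (nat_lit 4741992)))
(L (nat_lit 4941192)))
(S (nat_lit 42281) (S (nat_lit 4183) (S (nat_lit 49084) (L (nat_lit 3395097))
(L (nat_lit 20782499)))
(L (nat_lit 11591099)))
(L (nat_lit 25919915)))))
(S (nat_lit 57275) (S (nat_lit 9967) (S (nat_lit 33152) (S (nat_lit 10453) (L (nat_lit 28456311))
(L (nat_lit 17158330)))
(L (nat_lit 23291329)))
(S (nat_lit 33030) (L (nat_lit 26427445))
(L (nat_lit 11166081))))
(L (nat_lit 25320814)))))
(L (nat_lit 25680041)))))
(S (nat_lit 23732) (S (nat_lit 271) (S (nat_lit 11954) (S (nat_lit 10210) (S (nat_lit 49014) (L (nat_lit 12640598))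
(L (nat_lit 16460827)))
(S (nat_lit 29974) (S (nat_lit 44886) (S (nat_lit 30513) (S (nat_lit 16312) (S (nat_lit 17747) (L (nat_lit 29438325))
(L (nat_lit 24372673)))
(L (nat_lit 24306892)))
(L (nat_lit 7787267)))
(L (nat_lit 15030052)))
(S (nat_lit 49738) (S (nat_lit 23919) (S (nat_lit 29521) (S (nat_lit 44886) (L (nat_lit 12257072))
(L (nat_lit 27604644)))
(L (nat_lit 13197573)))
(L (nat_lit 12704553)))
(L (nat_lit 25541186)))))
(S (nat_lit 31718) (S (nat_lit 12941) (S (nat_lit 47105) (S (nat_lit 17747) (S (nat_lit 29250) (S (nat_lit 42692) (L (nat_lit 11452035))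
(L (nat_lit 16698377)))
(L (nat_lit 13328705)))
(L (nat_lit 18047555)))
(L (nat_lit 18663527)))
(S (nat_lit 32705) (S (nat_lit 17747) (S (nat_lit 17557) (L (nat_lit 24544475))
(L (nat_lit 6481549)))
(L (nat_lit 15950898)))
(S (nat_lit 52469) (S (nat_lit 23919) (S (nat_lit 33152) (S (nat_lit 22232) (S (nat_lit 16041) (L (nat_lit 22856961))
(L (nat_lit 24667329)))
(L (nat_lit 13247579)))
(L (nat_lit 20374785)))
(L (nat_lit 7824467)))
(L (nat_lit 25433708)))))
(S (nat_lit 51482) (S (nat_lit 12918) (S (nat_lit 26982) (L (nat_lit 4612310))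
(S (nat_lit 29250) (S (nat_lit 54915) (S (nat_lit 53402) (L (nat_lit 6200974))
(L (nat_lit 5595604)))
(L (nat_lit 14311745)))
(L (nat_lit 12640598))))
(S (nat_lit 32682) (S (nat_lit 29250) (S (nat_lit 22232) (S (nat_lit 3725) (L (nat_lit 6036173))
(L (nat_lit 26972582)))
(L (nat_lit 13295690)))
(L (nat_lit 13263105)))
(S (nat_lit 52446) (S (nat_lit 35855) (S (nat_lit 23919) (S (nat_lit 17747) (S (nat_lit 37081) (S (nat_lit 44886) (L (nat_lit 28545490))
(L (nat_lit 23966914)))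
(L (nat_lit 7796385)))
(L (nat_lit 2811338)))
(L (nat_lit 18015443)))
(S (nat_lit 37016) (L (nat_lit 4798247))
(L (nat_lit 3368434))))
(L (nat_lit 25697428)))))
(L (nat_lit 25173710)))))
(S (nat_lit 20035) (S (nat_lit 3482) (L (nat_lit 19772645))
(S (nat_lit 23246) (S (nat_lit 57085) (L (nat_lit 21792048))
(L (nat_lit 13377154)))
(S (nat_lit 43010) (L (nat_lit 5486264))
(L (nat_lit 25254189)))))
(S (nat_lit 39799) (S (nat_lit 2954) (S (nat_lit 26127) (S (nat_lit 4155) (L (nat_lit 22132585))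
(L (nat_lit 3978515)))
(L (nat_lit 11287109)))
(S (nat_lit 22718) (S (nat_lit 17747) (S (nat_lit 16041) (S (nat_lit 29250) (S (nat_lit 48110) (S (nat_lit 48060) (L (nat_lit 13275944))
(L (nat_lit 22361957)))
(L (nat_lit 20504614)))
(L (nat_lit 12640904)))
(S (nat_lit 35987) (L (nat_lit 7421718))
(L (nat_lit 9102881))))
(S (nat_lit 37726) (L (nat_lit 18650322))
(L (nat_lit 7132609))))
(S (nat_lit 42482) (S (nat_lit 48528) (S (nat_lit 8532) (S (nat_lit 40285) (S (nat_lit 18233) (L (nat_lit 16567401))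
(L (nat_lit 24143241)))
(L (nat_lit 24950018)))
(L (nat_lit 10052997)))
(L (nat_lit 3694439)))
(L (nat_lit 25860548)))))
(L (nat_lit 25664661)))))
(S (nat_lit 43496) (S (nat_lit 13388) (S (nat_lit 5143) (S (nat_lit 10982) (S (nat_lit 21730) (S (nat_lit 20736) (S (nat_lit 44886) (L (nat_lit 29755111))
(L (nat_lit 13205883)))
(L (nat_lit 6435666)))
(L (nat_lit 21404420)))
(S (nat_lit 30746) (S (nat_lit 42750) (S (nat_lit 24421) (S (nat_lit 21730) (S (nat_lit 39799) (L (nat_lit 25080000))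
(L (nat_lit 3840879)))
(L (nat_lit 21404420)))
(L (nat_lit 8839349)))
(L (nat_lit 23866820)))
(S (nat_lit 50510) (S (nat_lit 13198) (S (nat_lit 18529) (L (nat_lit 24376737))
(L (nat_lit 16343333)))
(L (nat_lit 12916563)))
(L (nat_lit 25603780)))))
(S (nat_lit 24907) (S (nat_lit 15340) (S (nat_lit 37081) (S (nat_lit 2468) (S (nat_lit 55359) (L (nat_lit 19096748))
(L (nat_lit 13928187)))
(L (nat_lit 7165377)))
(L (nat_lit 1270444)))
(S (nat_lit 35104) (S (nat_lit 17821) (L (nat_lit 9188374))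
(S (nat_lit 43010) (S (nat_lit 4386) (S (nat_lit 32682) (S (nat_lit 59042) (L (nat_lit 12803195))
(L (nat_lit 21365050)))
(L (nat_lit 24164265)))
(L (nat_lit 7131648)))
(L (nat_lit 13886176))))
(S (nat_lit 54868) (S (nat_lit 9746) (S (nat_lit 22252) (S (nat_lit 17747) (S (nat_lit 50277) (L (nat_lit 6983599))
(L (nat_lit 14331683)))
(L (nat_lit 18044028)))
(L (nat_lit 30521993)))
(S (nat_lit 49166) (S (nat_lit 43253) (L (nat_lit 6819603))
(L (nat_lit 6740120)))
(L (nat_lit 21759277))))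
(L (nat_lit 25723155)))))
(S (nat_lit 44671) (S (nat_lit 30513) (S (nat_lit 23489) (S (nat_lit 55840) (S (nat_lit 27341) (S (nat_lit 28834) (L (nat_lit 26950822))
(L (nat_lit 19704940)))
(L (nat_lit 19096097)))
(L (nat_lit 27462257)))
(L (nat_lit 21193901)))
(L (nat_lit 19696880)))
(L (nat_lit 25243157)))))
(S (nat_lit 33152) (S (nat_lit 48528) (S (nat_lit 893) (L (nat_lit 12739954))
(S (nat_lit 18233) (S (nat_lit 49014) (S (nat_lit 43914) (S (nat_lit 15555) (S (nat_lit 10210) (S (nat_lit 32705) (L (nat_lit 24980867))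
(L (nat_lit 1519227)))
(L (nat_lit 1784058)))
(L (nat_lit 24950950)))
(L (nat_lit 24176038)))
(L (nat_lit 14378305)))
(L (nat_lit 24174985))))
(L (nat_lit 20157979)))
(S (nat_lit 52916) (S (nat_lit 4657) (S (nat_lit 10696) (S (nat_lit 30513) (S (nat_lit 55133) (L (nat_lit 3550007))
(L (nat_lit 3465716)))
(L (nat_lit 19303674)))
(S (nat_lit 30460) (S (nat_lit 46401) (S (nat_lit 39799) (S (nat_lit 42750) (S (nat_lit 30746) (S (nat_lit 22014) (S (nat_lit 17747) (S (nat_lit 55619) (S (nat_lit 30488) (L (nat_lit 7050780))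
(L (nat_lit 18621491)))
(L (nat_lit 8066829)))
(L (nat_lit 24339843)))
(L (nat_lit 13422817)))
(L (nat_lit 9967443)))
(L (nat_lit 10294803)))
(L (nat_lit 3978856)))
(L (nat_lit 18192212)))
(S (nat_lit 50224) (S (nat_lit 27896) (L (nat_lit 18722437))
(S (nat_lit 56331) (S (nat_lit 31500) (S (nat_lit 53402) (L (nat_lit 17375073))
(L (nat_lit 19325285)))
(L (nat_lit 7189185)))
(L (nat_lit 8499963))))
(L (nat_lit 25890033)))))
(S (nat_lit 24421) (S (nat_lit 15831) (S (nat_lit 35468) (L (nat_lit 18178755))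
(S (nat_lit 55887) (S (nat_lit 55619) (S (nat_lit 8532) (L (nat_lit 4112009))
(L (nat_lit 3396365)))
(L (nat_lit 21094823)))
(L (nat_lit 21422186))))
(S (nat_lit 35595) (S (nat_lit 55619) (S (nat_lit 26369) (S (nat_lit 45891) (L (nat_lit 28708213))
(L (nat_lit 13508787)))
(L (nat_lit 9193649)))
(L (nat_lit 10014906)))
(S (nat_lit 55359) (S (nat_lit 35151) (S (nat_lit 30513) (S (nat_lit 28296) (L (nat_lit 30053649))
(L (nat_lit 19215546)))
(L (nat_lit 7787267)))
(S (nat_lit 48372) (L (nat_lit 8807477))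
(L (nat_lit 2778535))))
(L (nat_lit 25742503)))))
(S (nat_lit 44185) (S (nat_lit 16560) (S (nat_lit 19453) (S (nat_lit 44886) (L (nat_lit 8127988))
(L (nat_lit 14767914)))
(L (nat_lit 3987789)))
(S (nat_lit 36324) (S (nat_lit 37081) (S (nat_lit 49274) (L (nat_lit 23488801))
(L (nat_lit 22569251)))
(L (nat_lit 12849848)))
(S (nat_lit 56088) (S (nat_lit 10724) (S (nat_lit 29521) (S (nat_lit 59042) (L (nat_lit 28710507))
(L (nat_lit 19275962)))
(L (nat_lit 778508)))
(L (nat_lit 3728104)))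
(L (nat_lit 25527831)))))
(L (nat_lit 25698324)))))
(L (nat_lit 25364080)))))
(L (nat_lit 25934952)))))
(S (nat_lit 56817) (S (nat_lit 8532) (S (nat_lit 11736) (S (nat_lit 10453) (S (nat_lit 3968) (S (nat_lit 23246) (S (nat_lit 49084) (L (nat_lit 14357785))
(L (nat_lit 10237079)))
(L (nat_lit 21423392)))
(S (nat_lit 23732) (S (nat_lit 42750) (S (nat_lit 49014) (S (nat_lit 42482) (L (nat_lit 13422914))
(L (nat_lit 10259927)))
(L (nat_lit 14355803)))
(L (nat_lit 3879786)))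
(S (nat_lit 43496) (S (nat_lit 23489) (S (nat_lit 35595) (S (nat_lit 33152) (L (nat_lit 11929179))
(L (nat_lit 10151088)))
(L (nat_lit 10182832)))
(L (nat_lit 18572456)))
(L (nat_lit 25932993)))))
(S (nat_lit 30217) (S (nat_lit 2468) (S (nat_lit 16506) (L (nat_lit 3356408))
(S (nat_lit 16803) (S (nat_lit 58057) (S (nat_lit 9000) (L (nat_lit 29436374))
(L (nat_lit 21505794)))
(L (nat_lit 12833913)))
(L (nat_lit 1301262))))
(L (nat_lit 19182339)))
(S (nat_lit 49981) (S (nat_lit 3968) (S (nat_lit 3164) (S (nat_lit 9967) (S (nat_lit 56792) (L (nat_lit 21174189))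
(L (nat_lit 18998573)))
(L (nat_lit 23355777)))
(L (nat_lit 20211073)))
(S (nat_lit 23732) (S (nat_lit 17747) (S (nat_lit 16803) (S (nat_lit 17317) (L (nat_lit 10376643))
(L (nat_lit 24326945)))
(L (nat_lit 22360864)))
(L (nat_lit 24372332)))
(S (nat_lit 43496) (S (nat_lit 16803) (S (nat_lit 51482) (L (nat_lit 12783353))
(L (nat_lit 22229857)))
(S (nat_lit 17208) (L (nat_lit 19294312))
(L (nat_lit 1464632))))
(L (nat_lit 25922831)))))
(L (nat_lit 25891370)))))
(S (nat_lit 31500) (S (nat_lit 11250) (S (nat_lit 2954) (S (nat_lit 9486) (S (nat_lit 35151) (S (nat_lit 6605) (S (nat_lit 55840) (L (nat_lit 26908136))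
(L (nat_lit 20986667)))
(L (nat_lit 519786)))
(L (nat_lit 9954455)))
(L (nat_lit 16816948)))
(S (nat_lit 52330) (S (nat_lit 28764) (L (nat_lit 9113113))
(S (nat_lit 48528) (L (nat_lit 5970733))
(L (nat_lit 25241108))))
(L (nat_lit 17141559))))
(S (nat_lit 31014) (S (nat_lit 14197) (S (nat_lit 47963) (L (nat_lit 13861597))
(L (nat_lit 19301754)))
(S (nat_lit 33934) (S (nat_lit 42482) (S (nat_lit 35151) (S (nat_lit 41996) (S (nat_lit 48528) (S (nat_lit 10210) (S (nat_lit 49285) (S (nat_lit 44886) (L (nat_lit 2517207))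
(L (nat_lit 10393263)))
(L (nat_lit 13814694)))
(L (nat_lit 12191569)))
(L (nat_lit 14587092)))
(L (nat_lit 14348481)))
(L (nat_lit 3978583)))
(L (nat_lit 13995894)))
(L (nat_lit 6069966))))
(S (nat_lit 50778) (S (nat_lit 49285) (S (nat_lit 10749) (S (nat_lit 48528) (S (nat_lit 42750) (S (nat_lit 35151) (S (nat_lit 30746) (L (nat_lit 11592210))
(L (nat_lit 30840459)))
(L (nat_lit 9213518)))
(L (nat_lit 3404366)))
(L (nat_lit 20387035)))
(S (nat_lit 30450) (L (nat_lit 3873711))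
(L (nat_lit 3368342))))
(L (nat_lit 10269317)))
(L (nat_lit 25211092)))))
(S (nat_lit 51264) (S (nat_lit 1966) (S (nat_lit 7577) (S (nat_lit 22718) (S (nat_lit 13388) (L (nat_lit 6480372))
(L (nat_lit 26462657)))
(L (nat_lit 3944013)))
(S (nat_lit 27341) (S (nat_lit 17046) (S (nat_lit 16041) (L (nat_lit 3728759))
(L (nat_lit 15521121)))
(L (nat_lit 10327511)))
(S (nat_lit 47105) (S (nat_lit 35369) (S (nat_lit 10724) (L (nat_lit 17012379))
(L (nat_lit 5498419)))
(L (nat_lit 10085421)))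
(L (nat_lit 25658025)))))
(S (nat_lit 21730) (S (nat_lit 16359) (S (nat_lit 17747) (S (nat_lit 23246) (L (nat_lit 12354997))
(L (nat_lit 21226976)))
(L (nat_lit 24372611)))
(S (nat_lit 36123) (S (nat_lit 23246) (S (nat_lit 55359) (S (nat_lit 36567) (L (nat_lit 3458747))
(L (nat_lit 23323136)))
(L (nat_lit 21115751)))
(L (nat_lit 12839959)))
(S (nat_lit 55887) (S (nat_lit 30488) (S (nat_lit 17557) (L (nat_lit 26612981))
(L (nat_lit 24600899)))
(L (nat_lit 12818171)))
(L (nat_lit 25219374)))))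
(S (nat_lit 41494) (S (nat_lit 3968) (S (nat_lit 42842) (L (nat_lit 3596626))
(S (nat_lit 55133) (S (nat_lit 4386) (L (nat_lit 26840554))
(L (nat_lit 18920761)))
(L (nat_lit 3465807))))
(S (nat_lit 23732) (S (nat_lit 35151) (S (nat_lit 42482) (L (nat_lit 10936961))
(L (nat_lit 9834359)))
(L (nat_lit 23520609)))
(S (nat_lit 43496) (S (nat_lit 52916) (S (nat_lit 49274) (L (nat_lit 15393963))
(L (nat_lit 10117167)))
(L (nat_lit 18080353)))
(L (nat_lit 25441985)))))
(L (nat_lit 25352679)))))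
(L (nat_lit 25342292)))))
(S (nat_lit 28296) (S (nat_lit 8785) (S (nat_lit 4386) (S (nat_lit 26056) (L (nat_lit 26431906))
(S (nat_lit 55619) (S (nat_lit 39278) (S (nat_lit 9746) (S (nat_lit 13388) (S (nat_lit 9070) (L (nat_lit 24513353))
(L (nat_lit 26650738)))
(L (nat_lit 26642122)))
(L (nat_lit 21761263)))
(L (nat_lit 19935547)))
(L (nat_lit 19709095))))
(S (nat_lit 24150) (S (nat_lit 17747) (S (nat_lit 52916) (S (nat_lit 49274) (S (nat_lit 23246) (S (nat_lit 30513) (L (nat_lit 14454068))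
(L (nat_lit 1680794)))
(L (nat_lit 17915689)))
(L (nat_lit 15884595)))
(L (nat_lit 21225955)))
(S (nat_lit 29874) (L (nat_lit 26357973))
(L (nat_lit 2351694))))
(S (nat_lit 43914) (S (nat_lit 23246) (S (nat_lit 43711) (S (nat_lit 49084) (S (nat_lit 16359) (S (nat_lit 48528) (L (nat_lit 15947524))
(L (nat_lit 27504724)))
(L (nat_lit 4437941)))
(L (nat_lit 27512226)))
(L (nat_lit 24347068)))
(L (nat_lit 12813175)))
(L (nat_lit 25759023)))))
(S (nat_lit 28549) (S (nat_lit 19453) (S (nat_lit 10724) (S (nat_lit 15387) (S (nat_lit 41514) (L (nat_lit 17075930))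
(L (nat_lit 18057043)))
(S (nat_lit 30301) (L (nat_lit 6959225))
(L (nat_lit 26874279))))
(S (nat_lit 30488) (S (nat_lit 23597) (L (nat_lit 9864859))
(S (nat_lit 55887) (S (nat_lit 4183) (S (nat_lit 32682) (S (nat_lit 58057) (L (nat_lit 15963737))
(L (nat_lit 10228179)))
(L (nat_lit 13770516)))
(L (nat_lit 14932059)))
(L (nat_lit 10040443))))
(S (nat_lit 50252) (S (nat_lit 13388) (S (nat_lit 42482) (L (nat_lit 15978308))
(L (nat_lit 8180781)))
(L (nat_lit 13403851)))
(L (nat_lit 25213171)))))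
(S (nat_lit 39217) (S (nat_lit 757) (S (nat_lit 10813) (L (nat_lit 7485236))
(S (nat_lit 56088) (S (nat_lit 44886) (S (nat_lit 56845) (S (nat_lit 52446) (S (nat_lit 2468) (L (nat_lit 2937258))
(L (nat_lit 19273514)))
(L (nat_lit 6722356)))
(L (nat_lit 799094)))
(L (nat_lit 23637179)))
(L (nat_lit 18919771))))
(S (nat_lit 50160) (S (nat_lit 854) (L (nat_lit 6480591))
(L (nat_lit 15838941)))
(L (nat_lit 12967988))))
(S (nat_lit 58981) (S (nat_lit 16560) (S (nat_lit 6363) (S (nat_lit 3222) (S (nat_lit 29510) (S (nat_lit 11736) (L (nat_lit 29873473))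
(L (nat_lit 8539919)))
(L (nat_lit 24583225)))
(L (nat_lit 2339603)))
(S (nat_lit 31777) (L (nat_lit 10610068))
(L (nat_lit 26882155))))
(S (nat_lit 36324) (S (nat_lit 55887) (S (nat_lit 36810) (S (nat_lit 57085) (L (nat_lit 21394602))
(L (nat_lit 21775529)))
(L (nat_lit 13392162)))
(L (nat_lit 18932014)))
(S (nat_lit 56088) (S (nat_lit 972) (S (nat_lit 757) (S (nat_lit 56845) (L (nat_lit 21113274))
(L (nat_lit 19301756)))
(L (nat_lit 19760462)))
(L (nat_lit 19673412)))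
(L (nat_lit 25308693)))))
(L (nat_lit 25920752)))))
(S (nat_lit 48313) (S (nat_lit 2192) (S (nat_lit 2974) (S (nat_lit 1986) (S (nat_lit 56574) (L (nat_lit 7365143))
(L (nat_lit 1298352)))
(L (nat_lit 26445548)))
(S (nat_lit 22738) (S (nat_lit 2488) (S (nat_lit 23246) (L (nat_lit 15518891))
(L (nat_lit 21226976)))
(L (nat_lit 7071269)))
(S (nat_lit 42502) (S (nat_lit 11736) (S (nat_lit 9556) (S (nat_lit 15555) (L (nat_lit 12817051))
(L (nat_lit 22274064)))
(L (nat_lit 249745)))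
(L (nat_lit 249649)))
(L (nat_lit 25888108)))))
(S (nat_lit 21956) (S (nat_lit 15387) (S (nat_lit 55083) (S (nat_lit 21750) (S (nat_lit 4211) (S (nat_lit 30460) (S (nat_lit 1966) (S (nat_lit 53698) (S (nat_lit 27123) (L (nat_lit 18013532))
(L (nat_lit 19708193)))
(L (nat_lit 17033395)))
(L (nat_lit 10273444)))
(L (nat_lit 13509783)))
(L (nat_lit 4071927)))
(L (nat_lit 22279181)))
(L (nat_lit 27743524)))
(S (nat_lit 35151) (S (nat_lit 23246) (S (nat_lit 17747) (S (nat_lit 23919) (L (nat_lit 29497746))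
(L (nat_lit 31037861)))
(L (nat_lit 15984195)))
(L (nat_lit 12813051)))
(S (nat_lit 54915) (S (nat_lit 42281) (S (nat_lit 6363) (L (nat_lit 12690258))
(L (nat_lit 26270185)))
(L (nat_lit 27340214)))
(L (nat_lit 25677990)))))
(S (nat_lit 41720) (S (nat_lit 48528) (S (nat_lit 39278) (S (nat_lit 41514) (S (nat_lit 18529) (L (nat_lit 20144516))
(L (nat_lit 4449869)))
(L (nat_lit 27513869)))
(L (nat_lit 19935547)))
(L (nat_lit 20158320)))
(L (nat_lit 25690390)))))
(L (nat_lit 25283081)))))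
(S (nat_lit 48060) (S (nat_lit 4155) (S (nat_lit 9070) (S (nat_lit 6605) (S (nat_lit 16312) (L (nat_lit 11124581))
(L (nat_lit 26949989)))
(S (nat_lit 26369) (S (nat_lit 35369) (S (nat_lit 49014) (L (nat_lit 26948779))
(L (nat_lit 10161627)))
(L (nat_lit 20102523)))
(S (nat_lit 46133) (S (nat_lit 45891) (S (nat_lit 22738) (L (nat_lit 10368609))
(L (nat_lit 21801347)))
(L (nat_lit 27965797)))
(L (nat_lit 25255281)))))
(S (nat_lit 28834) (S (nat_lit 12941) (S (nat_lit 37321) (S (nat_lit 972) (L (nat_lit 26695011))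
(L (nat_lit 26479027)))
(L (nat_lit 10278064)))
(S (nat_lit 32705) (S (nat_lit 972) (S (nat_lit 50510) (L (nat_lit 9593484))
(L (nat_lit 27381227)))
(L (nat_lit 13379731)))
(S (nat_lit 52469) (S (nat_lit 29320) (L (nat_lit 22200169))
(L (nat_lit 12366994)))
(L (nat_lit 25252296)))))
(S (nat_lit 48598) (S (nat_lit 17747) (S (nat_lit 24907) (S (nat_lit 29521) (L (nat_lit 9155705))
(L (nat_lit 24915084)))
(L (nat_lit 21094768)))
(S (nat_lit 37511) (S (nat_lit 35855) (L (nat_lit 405363))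
(L (nat_lit 3794345)))
(S (nat_lit 57275) (S (nat_lit 757) (S (nat_lit 28549) (L (nat_lit 22245761))
(L (nat_lit 19161137)))
(L (nat_lit 19357739)))
(L (nat_lit 25413251)))))
(L (nat_lit 25668261)))))
(S (nat_lit 23919) (S (nat_lit 3725) (S (nat_lit 16091) (S (nat_lit 7359) (S (nat_lit 26637) (S (nat_lit 17747) (L (nat_lit 10360244))
(L (nat_lit 26467715)))
(L (nat_lit 9012077)))
(L (nat_lit 21895341)))
(S (nat_lit 35855) (S (nat_lit 44886) (S (nat_lit 757) (L (nat_lit 18986761))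
(L (nat_lit 8499835)))
(L (nat_lit 13206408)))
(S (nat_lit 55619) (S (nat_lit 9070) (S (nat_lit 44886) (S (nat_lit 10749) (S (nat_lit 49285) (S (nat_lit 5143) (S (nat_lit 16041) (S (nat_lit 44185) (L (nat_lit 28494374))
(L (nat_lit 24950048)))
(L (nat_lit 15509623)))
(L (nat_lit 19307363)))
(L (nat_lit 22439051)))
(L (nat_lit 15328395)))
(L (nat_lit 23586148)))
(L (nat_lit 4828667)))
(L (nat_lit 25244914)))))
(S (nat_lit 23489) (S (nat_lit 13198) (S (nat_lit 23246) (S (nat_lit 51482) (S (nat_lit 29510) (S (nat_lit 44886) (S (nat_lit 28834) (L (nat_lit 19107226))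
(L (nat_lit 5617522)))
(L (nat_lit 27892130)))
(L (nat_lit 746797)))
(L (nat_lit 13409427)))
(L (nat_lit 1779195)))
(S (nat_lit 32962) (S (nat_lit 5533) (L (nat_lit 22846541))
(S (nat_lit 45891) (S (nat_lit 14170) (S (nat_lit 28233) (L (nat_lit 14553801))
(L (nat_lit 21226917)))
(L (nat_lit 22278629)))
(L (nat_lit 23900453))))
(S (nat_lit 52726) (S (nat_lit 6873) (S (nat_lit 4657) (L (nat_lit 28325545))
(L (nat_lit 19306344)))
(S (nat_lit 55165) (S (nat_lit 28834) (S (nat_lit 20364) (L (nat_lit 27755241))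
(L (nat_lit 18485095)))
(L (nat_lit 12709207)))
(L (nat_lit 7870073))))
(L (nat_lit 25511027)))))
(S (nat_lit 43253) (S (nat_lit 29850) (S (nat_lit 43711) (L (nat_lit 13688027))
(L (nat_lit 8446388)))
(S (nat_lit 49285) (S (nat_lit 23631) (L (nat_lit 321974))
(S (nat_lit 50510) (S (nat_lit 39278) (S (nat_lit 22986) (L (nat_lit 8406746))
(L (nat_lit 12818042)))
(L (nat_lit 13854432)))
(L (nat_lit 20753892))))
(L (nat_lit 14397285))))
(L (nat_lit 25902214)))))
(S (nat_lit 43683) (S (nat_lit 16091) (S (nat_lit 23246) (S (nat_lit 13874) (S (nat_lit 757) (L (nat_lit 7955875))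
(L (nat_lit 19085090)))
(L (nat_lit 24944101)))
(S (nat_lit 30611) (L (nat_lit 16567588))
(L (nat_lit 22045999))))
(S (nat_lit 35855) (S (nat_lit 29510) (S (nat_lit 58981) (S (nat_lit 10453) (S (nat_lit 9070) (S (nat_lit 26226) (L (nat_lit 15440957))
(L (nat_lit 28587187)))
(L (nat_lit 7210418)))
(L (nat_lit 12082021)))
(L (nat_lit 7261328)))
(L (nat_lit 18572329)))
(S (nat_lit 55619) (S (nat_lit 4657) (S (nat_lit 45891) (L (nat_lit 6371186))
(L (nat_lit 6962021)))
(S (nat_lit 24421) (S (nat_lit 17747) (L (nat_lit 28354221))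
(L (nat_lit 24943724)))
(S (nat_lit 44185) (S (nat_lit 9746) (S (nat_lit 43914) (L (nat_lit 5519033))
(L (nat_lit 27866215)))
(L (nat_lit 15502579)))
(L (nat_lit 25474720)))))
(L (nat_lit 25539764)))))
(L (nat_lit 25692905)))))
(L (nat_lit 25677993)))))
(L (nat_lit 25319947)))))
(S (nat_lit 34831) (S (nat_lit 19514) (S (nat_lit 15555) (S (nat_lit 13388) (S (nat_lit 17046) (S (nat_lit 17747) (S (nat_lit 14170) (S (nat_lit 18529) (S (nat_lit 4386) (S (nat_lit 48528) (L (nat_lit 28805431))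
(L (nat_lit 22242384)))
(L (nat_lit 1292147)))
(L (nat_lit 4448723)))
(S (nat_lit 54319) (L (nat_lit 15929977))
(L (nat_lit 26461203))))
(S (nat_lit 57914) (S (nat_lit 54319) (L (nat_lit 15929977))
(L (nat_lit 26464704)))
(L (nat_lit 2351572))))
(S (nat_lit 36810) (S (nat_lit 10982) (S (nat_lit 9000) (S (nat_lit 35369) (L (nat_lit 15987893))
(L (nat_lit 6050283)))
(L (nat_lit 7827140)))
(S (nat_lit 30746) (S (nat_lit 53698) (S (nat_lit 55887) (S (nat_lit 7577) (L (nat_lit 3398574))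
(L (nat_lit 26411632)))
(L (nat_lit 8146990)))
(L (nat_lit 19677355)))
(S (nat_lit 50510) (S (nat_lit 28296) (S (nat_lit 30488) (S (nat_lit 48528) (L (nat_lit 24210922))
(L (nat_lit 20410564)))
(L (nat_lit 8149378)))
(L (nat_lit 8149379)))
(L (nat_lit 25243859)))))
(S (nat_lit 56574) (S (nat_lit 16803) (S (nat_lit 17747) (S (nat_lit 28834) (S (nat_lit 17317) (L (nat_lit 16570721))
(L (nat_lit 26887460)))
(L (nat_lit 24947168)))
(L (nat_lit 24371246)))
(S (nat_lit 36567) (S (nat_lit 38293) (S (nat_lit 23947) (S (nat_lit 50252) (L (nat_lit 6685461))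
(L (nat_lit 27668192)))
(L (nat_lit 8054177)))
(L (nat_lit 14289213)))
(S (nat_lit 56331) (S (nat_lit 4262) (L (nat_lit 7943292))
(S (nat_lit 23246) (S (nat_lit 41514) (L (nat_lit 1299900))
(L (nat_lit 27513868)))
(L (nat_lit 12835680))))
(L (nat_lit 25242133)))))
(L (nat_lit 25581641)))))
(S (nat_lit 33152) (S (nat_lit 9000) (S (nat_lit 50277) (L (nat_lit 2308919))
(L (nat_lit 20125243)))
(S (nat_lit 28764) (S (nat_lit 37081) (L (nat_lit 19085464))
(L (nat_lit 18047716)))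
(S (nat_lit 48528) (S (nat_lit 17747) (S (nat_lit 43914) (S (nat_lit 9746) (S (nat_lit 9757) (L (nat_lit 23212839))
(L (nat_lit 10662674)))
(L (nat_lit 10966077)))
(L (nat_lit 24330363)))
(L (nat_lit 26428530)))
(L (nat_lit 25374870)))))
(S (nat_lit 52916) (S (nat_lit 8785) (S (nat_lit 48528) (S (nat_lit 2192) (S (nat_lit 972) (S (nat_lit 9757) (S (nat_lit 56845) (L (nat_lit 13831991))
(L (nat_lit 21066097)))
(L (nat_lit 23626534)))
(L (nat_lit 20721736)))
(L (nat_lit 1270447)))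
(S (nat_lit 50121) (L (nat_lit 7455541))
(L (nat_lit 3366766))))
(S (nat_lit 28549) (S (nat_lit 48528) (S (nat_lit 2192) (S (nat_lit 40500) (S (nat_lit 20521) (S (nat_lit 17747) (S (nat_lit 52469) (L (nat_lit 8467286))
(L (nat_lit 2322094)))
(L (nat_lit 15951427)))
(L (nat_lit 3623755)))
(L (nat_lit 1684328)))
(L (nat_lit 1270447)))
(S (nat_lit 48609) (S (nat_lit 17747) (L (nat_lit 14349418))
(L (nat_lit 8182830)))
(L (nat_lit 3360628))))
(S (nat_lit 48313) (S (nat_lit 9757) (S (nat_lit 35855) (S (nat_lit 44671) (S (nat_lit 23489) (L (nat_lit 23519400))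
(L (nat_lit 21193869)))
(L (nat_lit 23605027)))
(L (nat_lit 6690612)))
(L (nat_lit 10879642)))
(L (nat_lit 25273810)))))
(L (nat_lit 25855281)))))
(S (nat_lit 35319) (S (nat_lit 18233) (S (nat_lit 16041) (L (nat_lit 4810028))
(S (nat_lit 35805) (S (nat_lit 17747) (L (nat_lit 13915261))
(L (nat_lit 18521985)))
(S (nat_lit 55569) (S (nat_lit 16560) (S (nat_lit 43683) (S (nat_lit 2954) (S (nat_lit 8582) (L (nat_lit 18024188))
(L (nat_lit 5774197)))
(L (nat_lit 26432527)))
(L (nat_lit 8503122)))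
(S (nat_lit 36324) (S (nat_lit 48528) (S (nat_lit 271) (L (nat_lit 20342050))
(L (nat_lit 4476686)))
(L (nat_lit 20145602)))
(S (nat_lit 56088) (S (nat_lit 23975) (S (nat_lit 42750) (L (nat_lit 1262514))
(L (nat_lit 13952146)))
(L (nat_lit 12807906)))
(L (nat_lit 25316624)))))
(L (nat_lit 25864302)))))
(S (nat_lit 37997) (S (nat_lit 16312) (S (nat_lit 19453) (S (nat_lit 9556) (S (nat_lit 49981) (L (nat_lit 30417459))
(L (nat_lit 20384551)))
(S (nat_lit 45314) (S (nat_lit 30513) (L (nat_lit 5500656))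
(L (nat_lit 30610998)))
(L (nat_lit 26911916))))
(S (nat_lit 39217) (S (nat_lit 47105) (S (nat_lit 25122) (L (nat_lit 3896684))
(L (nat_lit 7222946)))
(L (nat_lit 16974458)))
(S (nat_lit 58981) (S (nat_lit 1966) (L (nat_lit 9833366))
(S (nat_lit 31580) (S (nat_lit 57085) (L (nat_lit 5806898))
(L (nat_lit 19066249)))
(L (nat_lit 20103419))))
(L (nat_lit 25679914)))))
(S (nat_lit 36076) (S (nat_lit 31663) (L (nat_lit 2509611))
(S (nat_lit 37321) (S (nat_lit 25122) (S (nat_lit 43683) (S (nat_lit 56817) (S (nat_lit 757) (L (nat_lit 728972))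
(L (nat_lit 20440075)))
(L (nat_lit 16478563)))
(L (nat_lit 616875)))
(L (nat_lit 7165346)))
(L (nat_lit 23469208))))
(S (nat_lit 55840) (S (nat_lit 9396) (L (nat_lit 15951488))
(S (nat_lit 50277) (S (nat_lit 32705) (S (nat_lit 49738) (L (nat_lit 10671980))
(L (nat_lit 19965337)))
(L (nat_lit 1470677)))
(L (nat_lit 20125486))))
(L (nat_lit 25189766)))))
(S (nat_lit 57761) (S (nat_lit 9746) (S (nat_lit 28678) (L (nat_lit 17462409))
(S (nat_lit 30217) (S (nat_lit 33152) (S (nat_lit 22928) (L (nat_lit 23423150))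
(L (nat_lit 21903713)))
(L (nat_lit 938289)))
(L (nat_lit 7500178))))
(S (nat_lit 29510) (S (nat_lit 5143) (S (nat_lit 55619) (L (nat_lit 29611180))
(L (nat_lit 14567716)))
(S (nat_lit 24907) (S (nat_lit 15387) (S (nat_lit 48528) (S (nat_lit 36567) (L (nat_lit 23622947))
(L (nat_lit 30486901)))
(L (nat_lit 16392347)))
(L (nat_lit 22949038)))
(S (nat_lit 44671) (S (nat_lit 10453) (S (nat_lit 6363) (L (nat_lit 10172163))
(L (nat_lit 5496313)))
(L (nat_lit 17437543)))
(L (nat_lit 25857547)))))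
(S (nat_lit 49274) (S (nat_lit 2192) (S (nat_lit 13388) (S (nat_lit 56792) (L (nat_lit 29445421))
(L (nat_lit 27741350)))
(L (nat_lit 22167869)))
(S (nat_lit 21956) (L (nat_lit 14772530))
(S (nat_lit 41720) (S (nat_lit 22014) (L (nat_lit 3530138))
(L (nat_lit 13423655)))
(L (nat_lit 25412260)))))
(L (nat_lit 25441953)))))
(L (nat_lit 25862533)))))
(S (nat_lit 55083) (S (nat_lit 16312) (S (nat_lit 3725) (S (nat_lit 21956) (S (nat_lit 47105) (S (nat_lit 23732) (S (nat_lit 28346) (L (nat_lit 4418995))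
(L (nat_lit 14879483)))
(L (nat_lit 21169657)))
(L (nat_lit 18048609)))
(L (nat_lit 3371574)))
(S (nat_lit 23489) (S (nat_lit 50277) (S (nat_lit 22718) (S (nat_lit 56088) (S (nat_lit 17317) (S (nat_lit 21956) (L (nat_lit 28643892))
(L (nat_lit 30620324)))
(L (nat_lit 24571047)))
(L (nat_lit 19075547)))
(L (nat_lit 3363355)))
(L (nat_lit 13833819)))
(S (nat_lit 43253) (S (nat_lit 16560) (S (nat_lit 2954) (S (nat_lit 12941) (L (nat_lit 29577389))
(L (nat_lit 18048610)))
(L (nat_lit 26423908)))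
(L (nat_lit 14896312)))
(L (nat_lit 25680068)))))
(S (nat_lit 36076) (S (nat_lit 3968) (S (nat_lit 8956) (L (nat_lit 619944))
(S (nat_lit 52469) (S (nat_lit 30513) (S (nat_lit 9757) (L (nat_lit 17028120))
(L (nat_lit 21174060)))
(L (nat_lit 19087516)))
(L (nat_lit 20321498))))
(S (nat_lit 23732) (S (nat_lit 12237) (L (nat_lit 8108058))
(S (nat_lit 23246) (S (nat_lit 41494) (S (nat_lit 25122) (L (nat_lit 18012477))
(L (nat_lit 22951080)))
(L (nat_lit 17369895)))
(L (nat_lit 7037967))))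
(S (nat_lit 43496) (S (nat_lit 56845) (L (nat_lit 12801210))
(L (nat_lit 13857444)))
(L (nat_lit 25598071)))))
(S (nat_lit 55840) (S (nat_lit 21956) (S (nat_lit 10210) (S (nat_lit 55569) (S (nat_lit 10749) (S (nat_lit 757) (S (nat_lit 271) (S (nat_lit 47105) (L (nat_lit 3388026))
(L (nat_lit 27478129)))
(L (nat_lit 19044763)))
(L (nat_lit 19235227)))
(L (nat_lit 12247589)))
(L (nat_lit 18923739)))
(S (nat_lit 21464) (L (nat_lit 15929207))
(L (nat_lit 11584251))))
(L (nat_lit 3402294)))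
(L (nat_lit 25790828)))))
(L (nat_lit 25253255)))))
(S (nat_lit 39278) (S (nat_lit 15137) (S (nat_lit 2250) (S (nat_lit 10724) (S (nat_lit 21730) (S (nat_lit 8582) (S (nat_lit 12918) (S (nat_lit 37028) (S (nat_lit 10749) (S (nat_lit 757) (S (nat_lit 2954) (S (nat_lit 18529) (L (nat_lit 5629549))
(L (nat_lit 26819872)))
(L (nat_lit 1918537)))
(L (nat_lit 12805173)))
(L (nat_lit 23290928)))
(L (nat_lit 8111936)))
(L (nat_lit 21497177)))
(L (nat_lit 26845664)))
(S (nat_lit 37249) (L (nat_lit 24439982))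
(L (nat_lit 7735960))))
(S (nat_lit 30488) (S (nat_lit 11954) (S (nat_lit 7745) (L (nat_lit 7819168))
(S (nat_lit 32705) (S (nat_lit 15555) (L (nat_lit 8244240))
(L (nat_lit 6820472)))
(L (nat_lit 7827475))))
(S (nat_lit 31718) (S (nat_lit 26369) (S (nat_lit 29510) (S (nat_lit 18233) (L (nat_lit 31071776))
(L (nat_lit 1843602)))
(L (nat_lit 466555)))
(L (nat_lit 10041499)))
(S (nat_lit 51482) (S (nat_lit 42692) (S (nat_lit 11250) (S (nat_lit 16091) (L (nat_lit 29989284))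
(L (nat_lit 26415602)))
(L (nat_lit 23399928)))
(L (nat_lit 7934520)))
(L (nat_lit 25342663)))))
(S (nat_lit 50252) (S (nat_lit 271) (S (nat_lit 15555) (S (nat_lit 17747) (L (nat_lit 5760615))
(L (nat_lit 26428530)))
(L (nat_lit 8119682)))
(S (nat_lit 20035) (S (nat_lit 27341) (S (nat_lit 29510) (L (nat_lit 11415701))
(L (nat_lit 466555)))
(L (nat_lit 14850747)))
(S (nat_lit 39799) (S (nat_lit 10453) (S (nat_lit 972) (S (nat_lit 37081) (L (nat_lit 29376075))
(L (nat_lit 31068524)))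
(L (nat_lit 9226380)))
(L (nat_lit 26684992)))
(L (nat_lit 25185486)))))
(L (nat_lit 25745542)))))
(S (nat_lit 22014) (S (nat_lit 757) (S (nat_lit 21679) (S (nat_lit 32682) (S (nat_lit 53505) (L (nat_lit 6808288))
(L (nat_lit 22234980)))
(L (nat_lit 7496212)))
(S (nat_lit 48528) (S (nat_lit 24907) (S (nat_lit 25122) (S (nat_lit 43010) (S (nat_lit 42482) (S (nat_lit 15831) (S (nat_lit 43683) (S (nat_lit 10749) (L (nat_lit 15849785))
(L (nat_lit 17424707)))
(L (nat_lit 6774867)))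
(L (nat_lit 22284078)))
(L (nat_lit 27930631)))
(L (nat_lit 23930336)))
(L (nat_lit 14489258)))
(S (nat_lit 54782) (L (nat_lit 20125081))
(L (nat_lit 3356312))))
(L (nat_lit 3630791))))
(S (nat_lit 20521) (S (nat_lit 37053) (S (nat_lit 9070) (S (nat_lit 58981) (S (nat_lit 49084) (S (nat_lit 27123) (L (nat_lit 20788328))
(L (nat_lit 15571552)))
(L (nat_lit 20166466)))
(L (nat_lit 12963716)))
(L (nat_lit 15649896)))
(L (nat_lit 7753603)))
(S (nat_lit 40285) (S (nat_lit 6476) (S (nat_lit 29521) (L (nat_lit 30462374))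
(L (nat_lit 24326976)))
(S (nat_lit 49285) (S (nat_lit 29510) (S (nat_lit 10453) (S (nat_lit 17747) (L (nat_lit 386484))
(L (nat_lit 26426482)))
(L (nat_lit 23455104)))
(L (nat_lit 6962297)))
(L (nat_lit 8270464))))
(L (nat_lit 25242190)))))
(S (nat_lit 41778) (S (nat_lit 13874) (S (nat_lit 8582) (S (nat_lit 21750) (S (nat_lit 43683) (L (nat_lit 12912562))
(L (nat_lit 24582979)))
(L (nat_lit 10647090)))
(S (nat_lit 28346) (S (nat_lit 49285) (S (nat_lit 31718) (S (nat_lit 37997) (L (nat_lit 23457868))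
(L (nat_lit 17105778)))
(L (nat_lit 16805205)))
(L (nat_lit 1979014)))
(S (nat_lit 48110) (S (nat_lit 2192) (S (nat_lit 57085) (S (nat_lit 49285) (L (nat_lit 23280420))
(L (nat_lit 22406592)))
(L (nat_lit 11272784)))
(L (nat_lit 26233386)))
(L (nat_lit 25788656)))))
(S (nat_lit 33638) (S (nat_lit 12941) (S (nat_lit 15555) (S (nat_lit 57761) (S (nat_lit 35151) (S (nat_lit 41996) (L (nat_lit 29371981))
(L (nat_lit 24536289)))
(L (nat_lit 10052782)))
(L (nat_lit 9498002)))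
(L (nat_lit 17000036)))
(S (nat_lit 32705) (S (nat_lit 757) (S (nat_lit 38293) (S (nat_lit 43711) (L (nat_lit 3021420))
(L (nat_lit 24360025)))
(L (nat_lit 17601158)))
(L (nat_lit 20145167)))
(S (nat_lit 52469) (S (nat_lit 757) (S (nat_lit 51264) (S (nat_lit 3222) (L (nat_lit 4004462))
(L (nat_lit 14806600)))
(L (nat_lit 20408577)))
(L (nat_lit 20132891)))
(L (nat_lit 25365971)))))
(S (nat_lit 53402) (S (nat_lit 15555) (S (nat_lit 23732) (S (nat_lit 17747) (S (nat_lit 48313) (S (nat_lit 44671) (L (nat_lit 29432529))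
(L (nat_lit 23618630)))
(L (nat_lit 11427330)))
(L (nat_lit 8174706)))
(L (nat_lit 8074363)))
(S (nat_lit 35319) (S (nat_lit 20035) (S (nat_lit 33934) (L (nat_lit 23489729))
(L (nat_lit 6083046)))
(L (nat_lit 5708692)))
(S (nat_lit 55083) (S (nat_lit 3763) (L (nat_lit 18968039))
(S (nat_lit 42750) (S (nat_lit 49285) (L (nat_lit 3490738))
(L (nat_lit 3360626)))
(L (nat_lit 3387995))))
(L (nat_lit 25697986)))))
(L (nat_lit 25924816)))))
(L (nat_lit 25665587)))))
(S (nat_lit 34901) (S (nat_lit 3725) (S (nat_lit 9000) (S (nat_lit 49981) (S (nat_lit 55619) (L (nat_lit 20066555))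
(L (nat_lit 7915704)))
(L (nat_lit 1720665)))
(S (nat_lit 28764) (S (nat_lit 55083) (L (nat_lit 20145666))
(L (nat_lit 1269307)))
(S (nat_lit 48528) (S (nat_lit 757) (S (nat_lit 5143) (S (nat_lit 17747) (S (nat_lit 49285) (S (nat_lit 4386) (S (nat_lit 10749) (S (nat_lit 55619) (S (nat_lit 43683) (S (nat_lit 55569) (S (nat_lit 30746) (S (nat_lit 20736) (S (nat_lit 35595) (S (nat_lit 57761) (S (nat_lit 41514) (S (nat_lit 12320) (S (nat_lit 55408) (S (nat_lit 3104) (D (nat_lit 10) (nat_lit 11351746) (nat_lit 19408640) (nat_lit 35638088805))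
(L (nat_lit 29644973)))
(L (nat_lit 28794210)))
(L (nat_lit 577789)))
(L (nat_lit 27303660)))
(L (nat_lit 15588581)))
(L (nat_lit 12898117)))
(L (nat_lit 930067)))
(L (nat_lit 13758091)))
(L (nat_lit 20988283)))
(L (nat_lit 16112667)))
(L (nat_lit 21894631)))
(L (nat_lit 21193251)))
(L (nat_lit 16557728)))
(L (nat_lit 14411008)))
(L (nat_lit 26432897)))
(L (nat_lit 1922253)))
(L (nat_lit 1712538)))
(L (nat_lit 25395670)))))
(S (nat_lit 23489) (S (nat_lit 4657) (S (nat_lit 9746) (S (nat_lit 4386) (L (nat_lit 10498931))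
(L (nat_lit 8180225)))
(S (nat_lit 29510) (S (nat_lit 55887) (S (nat_lit 49084) (S (nat_lit 23975) (L (nat_lit 23278616))
(L (nat_lit 1795341)))
(L (nat_lit 8205922)))
(L (nat_lit 16387387)))
(S (nat_lit 49274) (S (nat_lit 49084) (S (nat_lit 757) (L (nat_lit 6477240))
(L (nat_lit 1729931)))
(L (nat_lit 4831046)))
(L (nat_lit 25251055)))))
(S (nat_lit 24421) (S (nat_lit 16359) (S (nat_lit 15831) (S (nat_lit 10749) (S (nat_lit 25122) (L (nat_lit 16012069))
(L (nat_lit 31048036)))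
(L (nat_lit 5460377)))
(L (nat_lit 24383961)))
(S (nat_lit 36123) (S (nat_lit 37321) (S (nat_lit 20035) (L (nat_lit 23258416))
(L (nat_lit 30427560)))
(L (nat_lit 3819368)))
(S (nat_lit 55887) (L (nat_lit 30028936))
(L (nat_lit 25271950)))))
(S (nat_lit 44185) (S (nat_lit 9486) (S (nat_lit 16673) (L (nat_lit 23588129))
(S (nat_lit 39799) (S (nat_lit 48528) (S (nat_lit 28685) (L (nat_lit 23495494))
(L (nat_lit 23527641)))
(L (nat_lit 20145230)))
(L (nat_lit 23567200))))
(S (nat_lit 48853) (L (nat_lit 30944372))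
(L (nat_lit 23599129))))
(L (nat_lit 25837861)))))
(S (nat_lit 43253) (S (nat_lit 15605) (S (nat_lit 17264) (S (nat_lit 972) (S (nat_lit 52726) (L (nat_lit 18093817))
(L (nat_lit 19017615)))
(L (nat_lit 20263064)))
(S (nat_lit 37028) (S (nat_lit 51482) (S (nat_lit 39217) (L (nat_lit 28578226))
(L (nat_lit 8196531)))
(L (nat_lit 7529102)))
(S (nat_lit 56792) (S (nat_lit 10453) (S (nat_lit 757) (L (nat_lit 9624463))
(L (nat_lit 19334427)))
(L (nat_lit 4744938)))
(L (nat_lit 25694888)))))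
(S (nat_lit 35369) (S (nat_lit 4386) (S (nat_lit 39217) (S (nat_lit 10749) (S (nat_lit 39799) (S (nat_lit 44185) (S (nat_lit 41778) (L (nat_lit 10129851))
(L (nat_lit 13821511)))
(L (nat_lit 14865193)))
(L (nat_lit 16969289)))
(L (nat_lit 23085931)))
(L (nat_lit 7455352)))
(S (nat_lit 24150) (S (nat_lit 32705) (L (nat_lit 26523297))
(L (nat_lit 13652249)))
(S (nat_lit 43914) (S (nat_lit 23732) (L (nat_lit 1266543))
(L (nat_lit 22230881)))
(L (nat_lit 25220519)))))
(S (nat_lit 55133) (S (nat_lit 17289) (S (nat_lit 10453) (L (nat_lit 4857240))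
(L (nat_lit 15361191)))
(S (nat_lit 37053) (S (nat_lit 10749) (S (nat_lit 4657) (S (nat_lit 49285) (S (nat_lit 757) (L (nat_lit 28724235))
(L (nat_lit 680358)))
(L (nat_lit 13657803)))
(L (nat_lit 7870292)))
(L (nat_lit 23356803)))
(S (nat_lit 56817) (S (nat_lit 757) (S (nat_lit 9746) (L (nat_lit 212669))
(L (nat_lit 15507043)))
(L (nat_lit 14312707)))
(L (nat_lit 25513136)))))
(L (nat_lit 25900139)))))
(L (nat_lit 25925805)))))
(S (nat_lit 54665) (S (nat_lit 12918) (S (nat_lit 7577) (S (nat_lit 15605) (S (nat_lit 10749) (S (nat_lit 41720) (S (nat_lit 52726) (S (nat_lit 43914) (L (nat_lit 28905962))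
(L (nat_lit 23291296)))
(L (nat_lit 4795897)))
(L (nat_lit 13651850)))
(L (nat_lit 14705908)))
(S (nat_lit 35369) (S (nat_lit 35855) (S (nat_lit 52469) (S (nat_lit 33152) (L (nat_lit 29772065))
(L (nat_lit 14902979)))
(L (nat_lit 8418773)))
(L (nat_lit 23291300)))
(S (nat_lit 55133) (S (nat_lit 10749) (S (nat_lit 41720) (S (nat_lit 25122) (L (nat_lit 1423992))
(L (nat_lit 21894513)))
(L (nat_lit 13848452)))
(L (nat_lit 3363225)))
(L (nat_lit 25789805)))))
(S (nat_lit 27341) (S (nat_lit 13874) (S (nat_lit 23732) (S (nat_lit 17557) (L (nat_lit 30085672))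
(L (nat_lit 16344232)))
(L (nat_lit 17884904)))
(S (nat_lit 33638) (S (nat_lit 6363) (S (nat_lit 17747) (L (nat_lit 30610834))
(L (nat_lit 15984193)))
(L (nat_lit 5485177)))
(S (nat_lit 53402) (S (nat_lit 15605) (S (nat_lit 21956) (S (nat_lit 30746) (L (nat_lit 23598461))
(L (nat_lit 19424298)))
(L (nat_lit 20979259)))
(S (nat_lit 16766) (L (nat_lit 15769458))
(L (nat_lit 7356306))))
(L (nat_lit 25173460)))))
(S (nat_lit 47105) (S (nat_lit 6873) (S (nat_lit 49738) (S (nat_lit 10982) (S (nat_lit 23732) (L (nat_lit 7387896))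
(L (nat_lit 13310009)))
(L (nat_lit 23935204)))
(L (nat_lit 4746986)))
(S (nat_lit 26637) (S (nat_lit 54868) (S (nat_lit 48110) (L (nat_lit 211643))
(L (nat_lit 16995384)))
(L (nat_lit 19693836)))
(S (nat_lit 46401) (S (nat_lit 14170) (S (nat_lit 41514) (L (nat_lit 12841697))
(L (nat_lit 23117579)))
(L (nat_lit 12634955)))
(L (nat_lit 25723254)))))
(L (nat_lit 25631331)))))
(S (nat_lit 32682) (S (nat_lit 7359) (S (nat_lit 4657) (S (nat_lit 28346) (S (nat_lit 56088) (S (nat_lit 35104) (S (nat_lit 29250) (S (nat_lit 55887) (S (nat_lit 51264) (L (nat_lit 9515772))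
(L (nat_lit 7486326)))
(L (nat_lit 1297230)))
(L (nat_lit 19423489)))
(L (nat_lit 2890294)))
(L (nat_lit 14358715)))
(L (nat_lit 19162257)))
(S (nat_lit 24421) (S (nat_lit 3164) (S (nat_lit 43914) (S (nat_lit 4183) (S (nat_lit 15605) (L (nat_lit 9498036))
(L (nat_lit 26510925)))
(L (nat_lit 26614500)))
(L (nat_lit 27276563)))
(S (nat_lit 29690) (L (nat_lit 16959769))
(L (nat_lit 8544943))))
(S (nat_lit 44185) (S (nat_lit 37028) (S (nat_lit 56088) (S (nat_lit 43914) (S (nat_lit 42016) (L (nat_lit 1326747))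
(L (nat_lit 1786760)))
(L (nat_lit 27276563)))
(L (nat_lit 8086704)))
(L (nat_lit 30940274)))
(L (nat_lit 25612581)))))
(S (nat_lit 27123) (S (nat_lit 972) (S (nat_lit 43683) (S (nat_lit 10210) (L (nat_lit 1514355))
(L (nat_lit 15000690)))
(L (nat_lit 2693563)))
(S (nat_lit 20736) (S (nat_lit 37053) (S (nat_lit 57085) (L (nat_lit 15987265))
(L (nat_lit 15337225)))
(L (nat_lit 1467113)))
(S (nat_lit 40500) (S (nat_lit 37053) (S (nat_lit 43711) (L (nat_lit 18059865))
(L (nat_lit 23126225)))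
(L (nat_lit 23302990)))
(L (nat_lit 25309458)))))
(S (nat_lit 46887) (S (nat_lit 15340) (S (nat_lit 2488) (S (nat_lit 10210) (S (nat_lit 31500) (S (nat_lit 55359) (L (nat_lit 15485994))
(L (nat_lit 21259779)))
(L (nat_lit 19341121)))
(L (nat_lit 12215683)))
(S (nat_lit 3379) (L (nat_lit 11593237))
(L (nat_lit 7389851))))
(S (nat_lit 35104) (S (nat_lit 28346) (S (nat_lit 41494) (S (nat_lit 47105) (S (nat_lit 42692) (L (nat_lit 26904812))
(L (nat_lit 10074913)))
(L (nat_lit 19948849)))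
(L (nat_lit 18440420)))
(L (nat_lit 30939285)))
(S (nat_lit 54868) (S (nat_lit 10749) (S (nat_lit 26127) (L (nat_lit 24000867))
(L (nat_lit 7890531)))
(L (nat_lit 16999574)))
(L (nat_lit 25286025)))))
(L (nat_lit 25410710)))))
(S (nat_lit 52446) (S (nat_lit 757) (S (nat_lit 7359) (S (nat_lit 10749) (S (nat_lit 43496) (S (nat_lit 35369) (L (nat_lit 13311128))
(L (nat_lit 23356463)))
(L (nat_lit 9158403)))
(S (nat_lit 29445) (L (nat_lit 12804771))
(L (nat_lit 23289902))))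
(S (nat_lit 27123) (S (nat_lit 5000) (L (nat_lit 1920424))
(S (nat_lit 49285) (S (nat_lit 27341) (L (nat_lit 23081771))
(L (nat_lit 6896483)))
(L (nat_lit 1972876))))
(S (nat_lit 46887) (S (nat_lit 46133) (S (nat_lit 33638) (S (nat_lit 55359) (S (nat_lit 23947) (S (nat_lit 32962) (S (nat_lit 2974) (S (nat_lit 21956) (L (nat_lit 22319577))
(L (nat_lit 17877770)))
(L (nat_lit 19049297)))
(L (nat_lit 20311523)))
(L (nat_lit 18635847)))
(L (nat_lit 19796423)))
(L (nat_lit 20780521)))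
(L (nat_lit 20200632)))
(L (nat_lit 25311848)))))
(S (nat_lit 20521) (S (nat_lit 9556) (S (nat_lit 15387) (S (nat_lit 8532) (L (nat_lit 28914947))
(L (nat_lit 21859755)))
(L (nat_lit 1718151)))
(S (nat_lit 29320) (S (nat_lit 23246) (S (nat_lit 9967) (S (nat_lit 49981) (L (nat_lit 13929208))
(L (nat_lit 6755218)))
(L (nat_lit 14967858)))
(L (nat_lit 31169954)))
(S (nat_lit 49084) (S (nat_lit 23975) (S (nat_lit 23919) (L (nat_lit 29465326))
(L (nat_lit 21095851)))
(L (nat_lit 21194146)))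
(L (nat_lit 25416876)))))
(S (nat_lit 40285) (S (nat_lit 17747) (S (nat_lit 43914) (S (nat_lit 35855) (L (nat_lit 23326766))
(L (nat_lit 6710418)))
(L (nat_lit 14706311)))
(L (nat_lit 24372611)))
(L (nat_lit 25243924)))))
(L (nat_lit 25760171)))))
(L (nat_lit 25770178)))))
(S (nat_lit 59042) (S (nat_lit 16359) (S (nat_lit 15605) (S (nat_lit 17747) (S (nat_lit 9757) (S (nat_lit 39217) (S (nat_lit 29250) (L (nat_lit 10506680))
(L (nat_lit 2967888)))
(L (nat_lit 4896522)))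
(S (nat_lit 29521) (S (nat_lit 11954) (S (nat_lit 17317) (S (nat_lit 22718) (S (nat_lit 43914) (L (nat_lit 12864637))
(L (nat_lit 14701853)))
(L (nat_lit 18190230)))
(L (nat_lit 24332033)))
(S (nat_lit 31718) (S (nat_lit 56845) (S (nat_lit 57085) (L (nat_lit 6483695))
(L (nat_lit 4988557)))
(L (nat_lit 19096748)))
(S (nat_lit 51482) (S (nat_lit 37081) (S (nat_lit 12918) (S (nat_lit 2250) (S (nat_lit 3482) (L (nat_lit 19215418))
(L (nat_lit 3595143)))
(L (nat_lit 6720120)))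
(L (nat_lit 23115096)))
(L (nat_lit 13197415)))
(L (nat_lit 25711875)))))
(S (nat_lit 49285) (S (nat_lit 15137) (S (nat_lit 10210) (L (nat_lit 1533606))
(L (nat_lit 12084338)))
(S (nat_lit 47395) (L (nat_lit 26229010))
(L (nat_lit 9453490))))
(L (nat_lit 25773317)))))
(S (nat_lit 37511) (S (nat_lit 29731) (S (nat_lit 2250) (S (nat_lit 17289) (L (nat_lit 16994209))
(L (nat_lit 24162680)))
(L (nat_lit 8308289)))
(L (nat_lit 7225921)))
(S (nat_lit 57275) (S (nat_lit 1986) (S (nat_lit 11736) (L (nat_lit 19341217))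
(L (nat_lit 26914856)))
(S (nat_lit 21750) (S (nat_lit 20736) (L (nat_lit 28544434))
(L (nat_lit 7222852)))
(S (nat_lit 41514) (S (nat_lit 16803) (S (nat_lit 51264) (L (nat_lit 29033774))
(L (nat_lit 15473718)))
(L (nat_lit 15535477)))
(L (nat_lit 25662185)))))
(L (nat_lit 25679203)))))
(S (nat_lit 35369) (S (nat_lit 17264) (S (nat_lit 16091) (S (nat_lit 43739) (S (nat_lit 22517) (S (nat_lit 43253) (S (nat_lit 271) (S (nat_lit 17317) (L (nat_lit 374488))
(L (nat_lit 15649959)))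
(L (nat_lit 20788361)))
(L (nat_lit 9189092)))
(L (nat_lit 4578093)))
(L (nat_lit 9136546)))
(S (nat_lit 35855) (S (nat_lit 10210) (S (nat_lit 22517) (S (nat_lit 29521) (S (nat_lit 44671) (S (nat_lit 49014) (S (nat_lit 2488) (S (nat_lit 13388) (L (nat_lit 2661019))
(L (nat_lit 6714386)))
(L (nat_lit 15065269)))
(L (nat_lit 9987776)))
(L (nat_lit 24554617)))
(L (nat_lit 6714450)))
(L (nat_lit 5027530)))
(L (nat_lit 15066226)))
(S (nat_lit 55619) (S (nat_lit 13874) (S (nat_lit 17747) (S (nat_lit 40285) (L (nat_lit 22909419))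
(L (nat_lit 24478137)))
(L (nat_lit 26775890)))
(L (nat_lit 26481138)))
(L (nat_lit 25566788)))))
(S (nat_lit 37028) (S (nat_lit 1966) (S (nat_lit 22928) (S (nat_lit 51264) (L (nat_lit 28790049))
(L (nat_lit 14979739)))
(S (nat_lit 37851) (L (nat_lit 17912679))
(L (nat_lit 21891439))))
(S (nat_lit 21730) (S (nat_lit 18233) (S (nat_lit 36810) (S (nat_lit 31500) (L (nat_lit 11233391))
(L (nat_lit 30587156)))
(L (nat_lit 18571618)))
(L (nat_lit 9176530)))
(S (nat_lit 41494) (S (nat_lit 56845) (S (nat_lit 43496) (L (nat_lit 1794474))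
(L (nat_lit 27384232)))
(L (nat_lit 27711780)))
(L (nat_lit 25594197)))))
(S (nat_lit 56792) (S (nat_lit 19453) (S (nat_lit 35104) (S (nat_lit 44185) (L (nat_lit 9627374))
(L (nat_lit 27694388)))
(L (nat_lit 23195953)))
(S (nat_lit 39217) (S (nat_lit 43711) (L (nat_lit 30652097))
(L (nat_lit 27318698)))
(S (nat_lit 58981) (S (nat_lit 972) (S (nat_lit 25122) (S (nat_lit 2192) (L (nat_lit 615912))
(L (nat_lit 19424363)))
(L (nat_lit 31012008)))
(L (nat_lit 2516306)))
(L (nat_lit 25861633)))))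
(L (nat_lit 25694578)))))
(S (nat_lit 55133) (S (nat_lit 17557) (S (nat_lit 3725) (S (nat_lit 55619) (S (nat_lit 2468) (L (nat_lit 29534643))
(L (nat_lit 26875119)))
(L (nat_lit 27473042)))
(S (nat_lit 23489) (S (nat_lit 15387) (S (nat_lit 43683) (S (nat_lit 20521) (S (nat_lit 41494) (L (nat_lit 2989712))
(L (nat_lit 6906308)))
(L (nat_lit 6403672)))
(L (nat_lit 9024539)))
(L (nat_lit 24482232)))
(S (nat_lit 43253) (S (nat_lit 40500) (S (nat_lit 16091) (L (nat_lit 27636914))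
(L (nat_lit 11351188)))
(L (nat_lit 17394824)))
(L (nat_lit 25312968)))))
(S (nat_lit 37321) (S (nat_lit 4754) (S (nat_lit 17747) (L (nat_lit 8414674))
(L (nat_lit 18652739)))
(S (nat_lit 9967) (S (nat_lit 10696) (S (nat_lit 3164) (L (nat_lit 1718653))
(L (nat_lit 19671585)))
(L (nat_lit 17077850)))
(L (nat_lit 17130049))))
(S (nat_lit 57085) (S (nat_lit 19453) (S (nat_lit 43711) (S (nat_lit 5143) (S (nat_lit 22014) (L (nat_lit 28875396))
(L (nat_lit 21148486)))
(L (nat_lit 18986822)))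
(L (nat_lit 27318698)))
(S (nat_lit 39217) (S (nat_lit 25122) (S (nat_lit 10724) (L (nat_lit 12881594))
(L (nat_lit 15535445)))
(L (nat_lit 21829034)))
(S (nat_lit 58981) (S (nat_lit 2753) (S (nat_lit 12918) (S (nat_lit 28549) (L (nat_lit 26229042))
(L (nat_lit 2500434)))
(L (nat_lit 23504952)))
(L (nat_lit 18888618)))
(L (nat_lit 25936097)))))
(L (nat_lit 25762989)))))
(L (nat_lit 25464399)))))
(S (nat_lit 36123) (S (nat_lit 11954) (S (nat_lit 9486) (S (nat_lit 16041) (S (nat_lit 2468) (L (nat_lit 3560298))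
(L (nat_lit 6992673)))
(S (nat_lit 35805) (S (nat_lit 30513) (L (nat_lit 23269232))
(L (nat_lit 12609878)))
(S (nat_lit 55569) (S (nat_lit 17747) (S (nat_lit 50224) (S (nat_lit 4155) (L (nat_lit 2413486))
(L (nat_lit 26336526)))
(L (nat_lit 6837025)))
(L (nat_lit 2938222)))
(L (nat_lit 25222350)))))
(S (nat_lit 29250) (S (nat_lit 14170) (S (nat_lit 10749) (S (nat_lit 16803) (S (nat_lit 45891) (S (nat_lit 41778) (L (nat_lit 13880504))
(L (nat_lit 23923950)))
(L (nat_lit 8937315)))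
(L (nat_lit 10292910)))
(L (nat_lit 10129230)))
(S (nat_lit 33934) (S (nat_lit 41778) (S (nat_lit 16803) (L (nat_lit 5923181))
(L (nat_lit 12422894)))
(L (nat_lit 28019918)))
(S (nat_lit 53698) (S (nat_lit 3482) (L (nat_lit 21405536))
(L (nat_lit 3880253)))
(L (nat_lit 25412293)))))
(S (nat_lit 49014) (S (nat_lit 4183) (S (nat_lit 7577) (S (nat_lit 10210) (L (nat_lit 12642026))
(L (nat_lit 17094779)))
(L (nat_lit 23567265)))
(S (nat_lit 23947) (S (nat_lit 41778) (S (nat_lit 5143) (L (nat_lit 24975404))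
(L (nat_lit 16391011)))
(L (nat_lit 16508097)))
(S (nat_lit 43711) (S (nat_lit 27341) (S (nat_lit 10210) (L (nat_lit 12624692))
(L (nat_lit 23093580)))
(L (nat_lit 19086179)))
(L (nat_lit 25745479)))))
(L (nat_lit 25626902)))))
(S (nat_lit 31718) (S (nat_lit 17289) (S (nat_lit 3968) (S (nat_lit 52446) (S (nat_lit 25122) (S (nat_lit 21750) (S (nat_lit 972) (S (nat_lit 17747) (L (nat_lit 28878871))
(L (nat_lit 6383180)))
(L (nat_lit 4810120)))
(L (nat_lit 22274597)))
(L (nat_lit 7165346)))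
(L (nat_lit 20841711)))
(S (nat_lit 23732) (S (nat_lit 46986) (L (nat_lit 827116))
(S (nat_lit 49738) (S (nat_lit 20035) (S (nat_lit 15831) (S (nat_lit 40285) (S (nat_lit 9486) (L (nat_lit 28902951))
(L (nat_lit 1535626)))
(L (nat_lit 18482521)))
(L (nat_lit 17073912)))
(L (nat_lit 31077605)))
(L (nat_lit 16477290))))
(S (nat_lit 43496) (S (nat_lit 29521) (S (nat_lit 17747) (S (nat_lit 2192) (S (nat_lit 27341) (L (nat_lit 9851069))
(L (nat_lit 15926131)))
(L (nat_lit 222895)))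
(L (nat_lit 15950962)))
(S (nat_lit 39343) (L (nat_lit 9836120))
(L (nat_lit 13178200))))
(L (nat_lit 25679976)))))
(S (nat_lit 37053) (S (nat_lit 10724) (S (nat_lit 29521) (S (nat_lit 41778) (L (nat_lit 29760129))
(L (nat_lit 23864769)))
(L (nat_lit 7051089)))
(S (nat_lit 30488) (S (nat_lit 30513) (S (nat_lit 32962) (S (nat_lit 48528) (S (nat_lit 40285) (L (nat_lit 8307395))
(L (nat_lit 5452660)))
(L (nat_lit 20391067)))
(L (nat_lit 31003950)))
(S (nat_lit 49873) (L (nat_lit 1700078))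
(L (nat_lit 30620389))))
(S (nat_lit 50252) (S (nat_lit 15831) (S (nat_lit 4657) (S (nat_lit 35104) (S (nat_lit 29521) (S (nat_lit 23975) (S (nat_lit 43683) (L (nat_lit 18970086))
(L (nat_lit 551657)))
(L (nat_lit 20985640)))
(L (nat_lit 19278936)))
(L (nat_lit 2498264)))
(L (nat_lit 19399529)))
(L (nat_lit 5646073)))
(L (nat_lit 25308725)))))
(S (nat_lit 56817) (S (nat_lit 6605) (S (nat_lit 38293) (S (nat_lit 48528) (S (nat_lit 28346) (S (nat_lit 50252) (S (nat_lit 25122) (L (nat_lit 18488065))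
(L (nat_lit 6807570)))
(L (nat_lit 828979)))
(L (nat_lit 14970003)))
(L (nat_lit 12256110)))
(L (nat_lit 6963045)))
(S (nat_lit 26369) (S (nat_lit 55569) (S (nat_lit 35595) (S (nat_lit 56792) (L (nat_lit 14568550))
(L (nat_lit 21161480)))
(L (nat_lit 31039598)))
(S (nat_lit 58692) (L (nat_lit 2825626))
(L (nat_lit 7355003))))
(S (nat_lit 46133) (S (nat_lit 44671) (S (nat_lit 15340) (S (nat_lit 10724) (L (nat_lit 16817010))
(L (nat_lit 12400693)))
(L (nat_lit 6939756)))
(L (nat_lit 14804341)))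
(L (nat_lit 25765041)))))
(L (nat_lit 25796099)))))
(S (nat_lit 51482) (S (nat_lit 17046) (S (nat_lit 15555) (S (nat_lit 35104) (S (nat_lit 17289) (L (nat_lit 22251000))
(L (nat_lit 15303992)))
(L (nat_lit 23469176)))
(S (nat_lit 35319) (S (nat_lit 56331) (L (nat_lit 30592302))
(L (nat_lit 21204910)))
(S (nat_lit 55083) (S (nat_lit 23947) (S (nat_lit 18233) (S (nat_lit 13198) (S (nat_lit 52446) (L (nat_lit 1505001))
(L (nat_lit 20181039)))
(L (nat_lit 545641)))
(L (nat_lit 1858862)))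
(L (nat_lit 12815221)))
(L (nat_lit 25248023)))))
(S (nat_lit 36810) (S (nat_lit 3968) (S (nat_lit 29250) (S (nat_lit 43253) (L (nat_lit 1729000))
(L (nat_lit 27483620)))
(L (nat_lit 12640904)))
(S (nat_lit 23732) (S (nat_lit 29521) (S (nat_lit 17747) (S (nat_lit 35104) (S (nat_lit 52446) (S (nat_lit 13198) (L (nat_lit 6313868))
(L (nat_lit 6886254)))
(L (nat_lit 6719382)))
(L (nat_lit 20724003)))
(L (nat_lit 22813804)))
(S (nat_lit 48249) (L (nat_lit 3709563))
(L (nat_lit 13370054))))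
(S (nat_lit 43496) (S (nat_lit 29250) (S (nat_lit 22232) (S (nat_lit 271) (L (nat_lit 21202363))
(L (nat_lit 6304379)))
(L (nat_lit 13262987)))
(L (nat_lit 12601690)))
(L (nat_lit 25441334)))))
(S (nat_lit 56574) (S (nat_lit 9967) (S (nat_lit 29521) (S (nat_lit 35151) (L (nat_lit 29534959))
(L (nat_lit 3583863)))
(L (nat_lit 6906373)))
(S (nat_lit 29731) (S (nat_lit 2250) (S (nat_lit 52726) (L (nat_lit 29036073))
(L (nat_lit 19208079)))
(S (nat_lit 12318) (L (nat_lit 5822780))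
(L (nat_lit 7521912))))
(S (nat_lit 49495) (S (nat_lit 23947) (S (nat_lit 2192) (S (nat_lit 21750) (L (nat_lit 1729900))
(L (nat_lit 1711981)))
(L (nat_lit 7866231)))
(L (nat_lit 13247268)))
(L (nat_lit 25433676)))))
(L (nat_lit 25730197)))))
(L (nat_lit 25934081)))))
(S (nat_lit 55887) (S (nat_lit 12941) (S (nat_lit 2954) (S (nat_lit 13388) (S (nat_lit 4386) (S (nat_lit 7359) (L (nat_lit 1528125))
(L (nat_lit 12816056)))
(L (nat_lit 26424993)))
(S (nat_lit 33152) (S (nat_lit 30217) (S (nat_lit 10982) (L (nat_lit 16009405))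
(L (nat_lit 21835300)))
(L (nat_lit 8212652)))
(S (nat_lit 52916) (S (nat_lit 29731) (S (nat_lit 23732) (L (nat_lit 23268792))
(L (nat_lit 21169967)))
(L (nat_lit 30888070)))
(L (nat_lit 25412788)))))
(S (nat_lit 22718) (S (nat_lit 17747) (S (nat_lit 48110) (S (nat_lit 47105) (S (nat_lit 16312) (S (nat_lit 55619) (L (nat_lit 5468628))
(L (nat_lit 13848728)))
(L (nat_lit 14705875)))
(L (nat_lit 3371633)))
(L (nat_lit 27477043)))
(S (nat_lit 37511) (S (nat_lit 22232) (S (nat_lit 1966) (L (nat_lit 18619442))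
(L (nat_lit 13375541)))
(L (nat_lit 13378115)))
(S (nat_lit 57275) (S (nat_lit 55619) (S (nat_lit 51482) (L (nat_lit 30609132))
(L (nat_lit 12783322)))
(L (nat_lit 27465295)))
(L (nat_lit 25869418)))))
(S (nat_lit 42482) (S (nat_lit 2488) (S (nat_lit 40285) (S (nat_lit 10453) (L (nat_lit 7366130))
(L (nat_lit 10117132)))
(L (nat_lit 23292974)))
(S (nat_lit 22252) (S (nat_lit 33152) (S (nat_lit 43914) (S (nat_lit 36415) (L (nat_lit 219578))
(L (nat_lit 9851069)))
(L (nat_lit 5501615)))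
(S (nat_lit 40492) (L (nat_lit 6740152))
(L (nat_lit 16584299))))
(S (nat_lit 42016) (S (nat_lit 41720) (S (nat_lit 15831) (S (nat_lit 10724) (L (nat_lit 10261907))
(L (nat_lit 10051968)))
(L (nat_lit 24981671)))
(L (nat_lit 27478404)))
(L (nat_lit 25903112)))))
(L (nat_lit 25238038)))))
(S (nat_lit 32705) (S (nat_lit 3482) (S (nat_lit 15387) (S (nat_lit 1546) (L (nat_lit 7763522))
(S (nat_lit 43683) (S (nat_lit 55569) (S (nat_lit 17289) (S (nat_lit 25122) (L (nat_lit 28323314))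
(L (nat_lit 7148979)))
(L (nat_lit 14720697)))
(L (nat_lit 7826549)))
(L (nat_lit 2471675))))
(S (nat_lit 35151) (S (nat_lit 17289) (S (nat_lit 41494) (S (nat_lit 40285) (S (nat_lit 45891) (L (nat_lit 28025935))
(L (nat_lit 12937395)))
(L (nat_lit 27380134)))
(L (nat_lit 16884533)))
(L (nat_lit 3403504)))
(S (nat_lit 54915) (S (nat_lit 52916) (S (nat_lit 29510) (S (nat_lit 24421) (L (nat_lit 15805051))
(L (nat_lit 13820584)))
(L (nat_lit 19360993)))
(L (nat_lit 18967019)))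
(L (nat_lit 25315815)))))
(S (nat_lit 23246) (S (nat_lit 11954) (S (nat_lit 55840) (S (nat_lit 50277) (S (nat_lit 15387) (L (nat_lit 21127591))
(L (nat_lit 7795265)))
(L (nat_lit 20417885)))
(L (nat_lit 21170988)))
(S (nat_lit 31718) (S (nat_lit 49014) (L (nat_lit 6723257))
(L (nat_lit 8294094)))
(S (nat_lit 51482) (S (nat_lit 27341) (S (nat_lit 48528) (S (nat_lit 2192) (S (nat_lit 35369) (L (nat_lit 28499182))
(L (nat_lit 12601691)))
(L (nat_lit 19095629)))
(L (nat_lit 3623783)))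
(L (nat_lit 15735667)))
(L (nat_lit 25928782)))))
(S (nat_lit 43010) (S (nat_lit 3725) (L (nat_lit 1908274))
(S (nat_lit 23489) (S (nat_lit 10210) (L (nat_lit 1534263))
(L (nat_lit 1844626)))
(S (nat_lit 43253) (S (nat_lit 54915) (S (nat_lit 43496) (L (nat_lit 1266510))
(L (nat_lit 16521955)))
(L (nat_lit 27445671)))
(L (nat_lit 25352614)))))
(L (nat_lit 25255149)))))
(S (nat_lit 52469) (S (nat_lit 3164) (S (nat_lit 16615) (L (nat_lit 12191131))
(S (nat_lit 35595) (S (nat_lit 42281) (S (nat_lit 42750) (S (nat_lit 41514) (S (nat_lit 37321) (S (nat_lit 37081) (S (nat_lit 56792) (L (nat_lit 6309561))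
(L (nat_lit 27797682)))
(L (nat_lit 20132673)))
(L (nat_lit 8803512)))
(L (nat_lit 17978185)))
(L (nat_lit 1853000)))
(L (nat_lit 797111)))
(L (nat_lit 13371046))))
(S (nat_lit 22928) (S (nat_lit 6605) (S (nat_lit 2300) (S (nat_lit 40953) (L (nat_lit 23553344))
(L (nat_lit 22274156)))
(S (nat_lit 21956) (S (nat_lit 29510) (S (nat_lit 56845) (L (nat_lit 27529901))
(L (nat_lit 16603303)))
(L (nat_lit 30877345)))
(L (nat_lit 4016523))))
(S (nat_lit 26369) (S (nat_lit 21956) (S (nat_lit 30488) (L (nat_lit 13381284))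
(L (nat_lit 19107759)))
(L (nat_lit 2582806)))
(S (nat_lit 46133) (S (nat_lit 1922) (L (nat_lit 19973960))
(S (nat_lit 10696) (S (nat_lit 21956) (S (nat_lit 36076) (L (nat_lit 12691383))
(L (nat_lit 12609747)))
(L (nat_lit 22505764)))
(L (nat_lit 3682135))))
(L (nat_lit 25927824)))))
(S (nat_lit 42692) (S (nat_lit 19453) (S (nat_lit 14170) (S (nat_lit 31718) (L (nat_lit 23552194))
(L (nat_lit 24291150)))
(L (nat_lit 26460339)))
(S (nat_lit 39217) (S (nat_lit 17264) (S (nat_lit 17046) (L (nat_lit 10302483))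
(L (nat_lit 17012408)))
(L (nat_lit 3940013)))
(S (nat_lit 58981) (S (nat_lit 10210) (S (nat_lit 6605) (S (nat_lit 25122) (S (nat_lit 35104) (L (nat_lit 17403752))
(L (nat_lit 10086786)))
(L (nat_lit 21835268)))
(L (nat_lit 7802557)))
(L (nat_lit 21769602)))
(L (nat_lit 25275085)))))
(L (nat_lit 25700375)))))
(L (nat_lit 25568339)))))
(L (nat_lit 25285032)))))
(L (nat_lit 25577824)))))
(S (nat_lit 54595) (S (nat_lit 4211) (S (nat_lit 10982) (S (nat_lit 11954) (S (nat_lit 11250) (S (nat_lit 3725) (S (nat_lit 3482) (S (nat_lit 2753) (S (nat_lit 29510) (S (nat_lit 13874) (L (nat_lit 29383047))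
(L (nat_lit 24572260)))
(L (nat_lit 12473391)))
(L (nat_lit 19202556)))
(S (nat_lit 6284) (L (nat_lit 12611795))
(L (nat_lit 8418806))))
(S (nat_lit 23489) (S (nat_lit 35855) (S (nat_lit 36123) (S (nat_lit 44671) (S (nat_lit 972) (L (nat_lit 30028033))
(L (nat_lit 26660100)))
(L (nat_lit 12800802)))
(L (nat_lit 20356964)))
(L (nat_lit 18192180)))
(S (nat_lit 43253) (S (nat_lit 3004) (L (nat_lit 6818521))
(S (nat_lit 48110) (S (nat_lit 29510) (S (nat_lit 17317) (S (nat_lit 22718) (S (nat_lit 37997) (S (nat_lit 271) (L (nat_lit 5956975))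
(L (nat_lit 2412302)))
(L (nat_lit 7046555)))
(L (nat_lit 2318959)))
(L (nat_lit 16994052)))
(L (nat_lit 6817589)))
(L (nat_lit 18631814))))
(L (nat_lit 25600709)))))
(S (nat_lit 31014) (S (nat_lit 4386) (S (nat_lit 28455) (L (nat_lit 2381306))
(S (nat_lit 29510) (S (nat_lit 2954) (S (nat_lit 972) (S (nat_lit 48110) (S (nat_lit 5358) (S (nat_lit 53698) (L (nat_lit 29966374))
(L (nat_lit 18917166)))
(L (nat_lit 8476527)))
(L (nat_lit 16851765)))
(L (nat_lit 26847372)))
(L (nat_lit 873807)))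
(L (nat_lit 7026529))))
(S (nat_lit 24150) (S (nat_lit 582) (L (nat_lit 24319416))
(S (nat_lit 6873) (S (nat_lit 42502) (S (nat_lit 22986) (S (nat_lit 21956) (L (nat_lit 18073627))
(L (nat_lit 9025627)))
(L (nat_lit 12899420)))
(L (nat_lit 14395484)))
(L (nat_lit 21085094))))
(S (nat_lit 43914) (S (nat_lit 2468) (S (nat_lit 50224) (L (nat_lit 17392836))
(L (nat_lit 967239)))
(S (nat_lit 28748) (L (nat_lit 5494268))
(L (nat_lit 15586442))))
(L (nat_lit 25220615)))))
(S (nat_lit 50778) (S (nat_lit 3482) (S (nat_lit 17264) (S (nat_lit 29510) (S (nat_lit 3725) (S (nat_lit 49084) (L (nat_lit 28628046))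
(L (nat_lit 9622972)))
(L (nat_lit 19330308)))
(L (nat_lit 7230881)))
(L (nat_lit 26758434)))
(S (nat_lit 23246) (S (nat_lit 52726) (S (nat_lit 22232) (S (nat_lit 54915) (L (nat_lit 28979394))
(L (nat_lit 19738081)))
(L (nat_lit 18118243)))
(L (nat_lit 11342323)))
(S (nat_lit 43010) (S (nat_lit 29510) (S (nat_lit 4183) (S (nat_lit 22517) (L (nat_lit 26948649))
(L (nat_lit 9525691)))
(L (nat_lit 12401749)))
(L (nat_lit 19019559)))
(L (nat_lit 25188655)))))
(L (nat_lit 25562324)))))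
(S (nat_lit 31718) (S (nat_lit 15831) (S (nat_lit 49981) (S (nat_lit 23246) (S (nat_lit 32682) (S (nat_lit 40285) (L (nat_lit 26514867))
(L (nat_lit 18024057)))
(L (nat_lit 19307580)))
(L (nat_lit 6314425)))
(L (nat_lit 6385228)))
(S (nat_lit 35595) (S (nat_lit 10696) (S (nat_lit 32682) (S (nat_lit 3164) (L (nat_lit 15478436))
(L (nat_lit 11289217)))
(L (nat_lit 19330275)))
(S (nat_lit 30460) (S (nat_lit 19084) (L (nat_lit 27367926))
(S (nat_lit 50778) (S (nat_lit 56845) (S (nat_lit 56817) (S (nat_lit 49495) (S (nat_lit 43914) (S (nat_lit 4155) (S (nat_lit 42482) (L (nat_lit 29376071))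
(L (nat_lit 5461871)))
(L (nat_lit 9564658)))
(L (nat_lit 12808307)))
(L (nat_lit 27994497)))
(L (nat_lit 7014254)))
(L (nat_lit 19305386)))
(L (nat_lit 20035835))))
(S (nat_lit 50224) (S (nat_lit 40663) (L (nat_lit 1486457))
(S (nat_lit 45853) (S (nat_lit 22986) (S (nat_lit 58981) (L (nat_lit 20889737))
(L (nat_lit 7255649)))
(L (nat_lit 450835)))
(L (nat_lit 6911361))))
(L (nat_lit 25475218)))))
(S (nat_lit 55359) (S (nat_lit 16041) (S (nat_lit 2974) (L (nat_lit 27708641))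
(L (nat_lit 248379)))
(S (nat_lit 35805) (S (nat_lit 41157) (L (nat_lit 8304659))
(S (nat_lit 56845) (S (nat_lit 24907) (S (nat_lit 40285) (L (nat_lit 1581941))
(L (nat_lit 17433884)))
(L (nat_lit 21408893)))
(L (nat_lit 437107))))
(S (nat_lit 55569) (S (nat_lit 27123) (S (nat_lit 31014) (L (nat_lit 21269049))
(L (nat_lit 18935023)))
(L (nat_lit 19050284)))
(L (nat_lit 25182581)))))
(L (nat_lit 25429463)))))
(S (nat_lit 51482) (S (nat_lit 5358) (S (nat_lit 14170) (S (nat_lit 45891) (S (nat_lit 22986) (S (nat_lit 4155) (S (nat_lit 20521) (S (nat_lit 21730) (L (nat_lit 28354002))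
(L (nat_lit 22945935)))
(L (nat_lit 3814680)))
(L (nat_lit 26522706)))
(L (nat_lit 6723474)))
(L (nat_lit 24371749)))
(S (nat_lit 33934) (S (nat_lit 4155) (S (nat_lit 15387) (S (nat_lit 9757) (L (nat_lit 13476544))
(L (nat_lit 2705195)))
(L (nat_lit 26880480)))
(S (nat_lit 17627) (L (nat_lit 10196412))
(L (nat_lit 3470770))))
(S (nat_lit 53698) (S (nat_lit 34495) (L (nat_lit 6314864))
(S (nat_lit 55619) (S (nat_lit 271) (L (nat_lit 3952941))
(L (nat_lit 20781477)))
(L (nat_lit 19095695))))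
(L (nat_lit 25413221)))))
(S (nat_lit 25122) (S (nat_lit 15340) (S (nat_lit 50252) (S (nat_lit 35805) (S (nat_lit 37511) (L (nat_lit 3909487))
(L (nat_lit 939402)))
(L (nat_lit 13456458)))
(L (nat_lit 830867)))
(S (nat_lit 35104) (S (nat_lit 8532) (S (nat_lit 43253) (L (nat_lit 26424932))
(L (nat_lit 6742166)))
(L (nat_lit 13446851)))
(S (nat_lit 54868) (S (nat_lit 47105) (S (nat_lit 37511) (L (nat_lit 19099171))
(L (nat_lit 9328001)))
(S (nat_lit 58111) (S (nat_lit 52726) (L (nat_lit 3362332))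
(L (nat_lit 17634579)))
(L (nat_lit 18028307))))
(L (nat_lit 25789745)))))
(S (nat_lit 44886) (S (nat_lit 17747) (S (nat_lit 32682) (S (nat_lit 55887) (L (nat_lit 17968793))
(L (nat_lit 3751229)))
(L (nat_lit 8123535)))
(S (nat_lit 37511) (S (nat_lit 59042) (L (nat_lit 21193743))
(L (nat_lit 27480172)))
(S (nat_lit 57275) (S (nat_lit 40500) (L (nat_lit 28421743))
(L (nat_lit 27857322)))
(L (nat_lit 25318794)))))
(L (nat_lit 25756015)))))
(L (nat_lit 25595591)))))
(S (nat_lit 30746) (S (nat_lit 6325) (S (nat_lit 16041) (S (nat_lit 12918) (S (nat_lit 34038) (L (nat_lit 732941))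
(L (nat_lit 3581690)))
(S (nat_lit 32682) (S (nat_lit 5358) (S (nat_lit 36810) (S (nat_lit 53698) (S (nat_lit 30460) (L (nat_lit 6751868))
(L (nat_lit 24670250)))
(L (nat_lit 7868121)))
(L (nat_lit 13374837)))
(L (nat_lit 19698895)))
(S (nat_lit 52446) (S (nat_lit 23246) (S (nat_lit 15555) (L (nat_lit 24511335))
(L (nat_lit 4744806)))
(L (nat_lit 4973805)))
(L (nat_lit 25593076)))))
(S (nat_lit 35805) (S (nat_lit 19453) (S (nat_lit 3164) (S (nat_lit 35855) (L (nat_lit 3986735))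
(L (nat_lit 4114669)))
(L (nat_lit 20390753)))
(S (nat_lit 39217) (S (nat_lit 8004) (L (nat_lit 26651700))
(S (nat_lit 22517) (S (nat_lit 56792) (S (nat_lit 20736) (L (nat_lit 1402576))
(L (nat_lit 15606372)))
(L (nat_lit 2861933)))
(L (nat_lit 30486253))))
(S (nat_lit 58981) (S (nat_lit 6717) (L (nat_lit 19014541))
(S (nat_lit 49495) (S (nat_lit 26369) (S (nat_lit 29510) (S (nat_lit 4155) (L (nat_lit 23175611))
(L (nat_lit 3628249)))
(L (nat_lit 550197)))
(L (nat_lit 30903669)))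
(L (nat_lit 9967193))))
(L (nat_lit 25278151)))))
(S (nat_lit 55569) (S (nat_lit 57275) (S (nat_lit 3222) (S (nat_lit 53698) (S (nat_lit 30460) (L (nat_lit 11408822))
(L (nat_lit 31135114)))
(L (nat_lit 18630853)))
(L (nat_lit 3060328)))
(L (nat_lit 4120010)))
(L (nat_lit 25517600)))))
(S (nat_lit 26089) (S (nat_lit 16041) (S (nat_lit 1966) (S (nat_lit 48528) (S (nat_lit 5358) (L (nat_lit 7090818))
(L (nat_lit 19704847)))
(L (nat_lit 3623783)))
(S (nat_lit 48264) (L (nat_lit 19019655))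
(L (nat_lit 19309377))))
(S (nat_lit 35805) (S (nat_lit 5358) (S (nat_lit 4155) (S (nat_lit 10696) (S (nat_lit 55887) (S (nat_lit 6363) (S (nat_lit 4183) (S (nat_lit 48528) (S (nat_lit 3222) (L (nat_lit 5664327))
(L (nat_lit 15609444)))
(L (nat_lit 12503120)))
(L (nat_lit 15567591)))
(L (nat_lit 10301619)))
(L (nat_lit 3953128)))
(L (nat_lit 21152618)))
(S (nat_lit 36417) (L (nat_lit 11134001))
(L (nat_lit 26837200))))
(S (nat_lit 35189) (L (nat_lit 18951674))
(L (nat_lit 18957162))))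
(S (nat_lit 55569) (S (nat_lit 15137) (S (nat_lit 3222) (S (nat_lit 42692) (S (nat_lit 16312) (L (nat_lit 8033688))
(L (nat_lit 16965478)))
(L (nat_lit 14535009)))
(S (nat_lit 54194) (L (nat_lit 5583666))
(L (nat_lit 3060050))))
(S (nat_lit 34901) (S (nat_lit 22928) (S (nat_lit 5358) (L (nat_lit 15276058))
(L (nat_lit 19677354)))
(L (nat_lit 31009153)))
(S (nat_lit 54665) (S (nat_lit 41514) (S (nat_lit 23732) (L (nat_lit 3466989))
(L (nat_lit 17884375)))
(L (nat_lit 17716299)))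
(L (nat_lit 25173649)))))
(L (nat_lit 25919854)))))
(S (nat_lit 45853) (S (nat_lit 2954) (S (nat_lit 31014) (S (nat_lit 2192) (S (nat_lit 55619) (S (nat_lit 2468) (L (nat_lit 18050692))
(L (nat_lit 15363297)))
(L (nat_lit 19240783)))
(S (nat_lit 11024) (L (nat_lit 19235663))
(L (nat_lit 17032868))))
(L (nat_lit 25013796)))
(S (nat_lit 22718) (S (nat_lit 5358) (S (nat_lit 11250) (S (nat_lit 36810) (S (nat_lit 17317) (S (nat_lit 50224) (L (nat_lit 28546733))
(L (nat_lit 9356004)))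
(L (nat_lit 22981060)))
(L (nat_lit 20883908)))
(L (nat_lit 18460420)))
(L (nat_lit 19705348)))
(S (nat_lit 42482) (S (nat_lit 9376) (L (nat_lit 17903541))
(S (nat_lit 56845) (S (nat_lit 29521) (S (nat_lit 28346) (S (nat_lit 26369) (S (nat_lit 58981) (S (nat_lit 30513) (L (nat_lit 7097392))
(L (nat_lit 12808933)))
(L (nat_lit 8507181)))
(L (nat_lit 9527920)))
(L (nat_lit 19099072)))
(S (nat_lit 44523) (L (nat_lit 19151005))
(L (nat_lit 19661073))))
(L (nat_lit 19308449))))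
(L (nat_lit 25238038)))))
(L (nat_lit 25464277)))))
(S (nat_lit 50510) (S (nat_lit 1986) (S (nat_lit 17557) (S (nat_lit 17264) (S (nat_lit 51482) (S (nat_lit 10724) (S (nat_lit 44671) (L (nat_lit 7737269))
(L (nat_lit 5690150)))
(L (nat_lit 26259181)))
(L (nat_lit 3369612)))
(S (nat_lit 37028) (S (nat_lit 271) (S (nat_lit 36076) (S (nat_lit 55619) (S (nat_lit 51264) (L (nat_lit 10053093))
(L (nat_lit 8204342)))
(L (nat_lit 10183076)))
(L (nat_lit 13555045)))
(S (nat_lit 49425) (L (nat_lit 2581097))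
(L (nat_lit 19044795))))
(S (nat_lit 56792) (S (nat_lit 6325) (S (nat_lit 36076) (S (nat_lit 52469) (S (nat_lit 3164) (S (nat_lit 32682) (L (nat_lit 8034156))
(L (nat_lit 14396323)))
(L (nat_lit 15486147)))
(L (nat_lit 6319571)))
(L (nat_lit 13537651)))
(L (nat_lit 3944141)))
(L (nat_lit 25858502)))))
(S (nat_lit 37321) (S (nat_lit 12941) (S (nat_lit 24150) (S (nat_lit 49285) (S (nat_lit 54868) (L (nat_lit 6200012))
(L (nat_lit 18980252)))
(L (nat_lit 3971788)))
(L (nat_lit 3658044)))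
(S (nat_lit 32705) (S (nat_lit 42750) (S (nat_lit 14170) (S (nat_lit 48528) (L (nat_lit 20135064))
(L (nat_lit 20170596)))
(L (nat_lit 14556179)))
(L (nat_lit 13866867)))
(S (nat_lit 52469) (S (nat_lit 5143) (S (nat_lit 55619) (S (nat_lit 51482) (L (nat_lit 9518995))
(L (nat_lit 20449129)))
(L (nat_lit 27369037)))
(S (nat_lit 13288) (L (nat_lit 20202521))
(L (nat_lit 19084410))))
(L (nat_lit 25797710)))))
(S (nat_lit 57085) (S (nat_lit 9070) (S (nat_lit 51482) (S (nat_lit 56845) (L (nat_lit 401299))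
(L (nat_lit 19302314)))
(L (nat_lit 15604885)))
(S (nat_lit 28834) (S (nat_lit 29320) (S (nat_lit 5358) (S (nat_lit 26637) (L (nat_lit 11986593))
(L (nat_lit 19773796)))
(L (nat_lit 19698895)))
(L (nat_lit 19373922)))
(S (nat_lit 48598) (S (nat_lit 29510) (S (nat_lit 30488) (L (nat_lit 12424629))
(L (nat_lit 11288627)))
(L (nat_lit 6771769)))
(L (nat_lit 25789772)))))
(L (nat_lit 25762960)))))
(S (nat_lit 21750) (S (nat_lit 2250) (S (nat_lit 10724) (S (nat_lit 27341) (S (nat_lit 49084) (L (nat_lit 11998035))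
(L (nat_lit 5759218)))
(L (nat_lit 14882611)))
(S (nat_lit 30488) (S (nat_lit 53366) (L (nat_lit 24371616))
(L (nat_lit 3815640)))
(S (nat_lit 50252) (S (nat_lit 38293) (S (nat_lit 49084) (S (nat_lit 48528) (S (nat_lit 31500) (L (nat_lit 259820))
(L (nat_lit 6477372)))
(L (nat_lit 20390756)))
(L (nat_lit 20157948)))
(L (nat_lit 6755123)))
(L (nat_lit 25728245)))))
(S (nat_lit 22014) (S (nat_lit 9486) (S (nat_lit 41494) (S (nat_lit 38293) (L (nat_lit 21802405))
(L (nat_lit 6414192)))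
(S (nat_lit 58189) (L (nat_lit 218521))
(L (nat_lit 17408801))))
(S (nat_lit 29250) (S (nat_lit 28117) (L (nat_lit 27483279))
(S (nat_lit 55887) (S (nat_lit 757) (S (nat_lit 37053) (L (nat_lit 21934123))
(L (nat_lit 12814231)))
(L (nat_lit 10964026)))
(L (nat_lit 3808701))))
(S (nat_lit 49014) (S (nat_lit 19999) (L (nat_lit 19965338))
(S (nat_lit 23246) (S (nat_lit 56756) (L (nat_lit 26298056))
(L (nat_lit 7364463)))
(L (nat_lit 13329632))))
(L (nat_lit 25628298)))))
(S (nat_lit 41778) (S (nat_lit 4155) (S (nat_lit 5358) (S (nat_lit 6061) (L (nat_lit 12376109))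
(S (nat_lit 35369) (S (nat_lit 26637) (S (nat_lit 22517) (S (nat_lit 4183) (L (nat_lit 28523602))
(L (nat_lit 26916100)))
(L (nat_lit 9221858)))
(L (nat_lit 15377252)))
(L (nat_lit 5977962))))
(L (nat_lit 19698895)))
(S (nat_lit 22783) (S (nat_lit 21437) (L (nat_lit 21390531))
(L (nat_lit 19374945)))
(L (nat_lit 26819779))))
(L (nat_lit 25899232)))))
(S (nat_lit 41514) (S (nat_lit 14170) (S (nat_lit 19603) (L (nat_lit 9631405))
(S (nat_lit 26637) (S (nat_lit 5272) (S (nat_lit 23919) (L (nat_lit 9226383))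
(L (nat_lit 12904165)))
(S (nat_lit 18529) (S (nat_lit 23919) (S (nat_lit 2753) (L (nat_lit 3981001))
(L (nat_lit 19249024)))
(L (nat_lit 11036389)))
(L (nat_lit 24166278))))
(L (nat_lit 8512054))))
(S (nat_lit 33934) (S (nat_lit 4155) (S (nat_lit 5358) (S (nat_lit 4183) (S (nat_lit 26637) (S (nat_lit 55887) (S (nat_lit 18529) (L (nat_lit 28916742))
(L (nat_lit 24535083)))
(L (nat_lit 3816765)))
(L (nat_lit 19693932)))
(L (nat_lit 12205988)))
(L (nat_lit 19698895)))
(L (nat_lit 18988248)))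
(S (nat_lit 53698) (S (nat_lit 7359) (S (nat_lit 36810) (S (nat_lit 8532) (L (nat_lit 26692747))
(L (nat_lit 21017913)))
(L (nat_lit 23323140)))
(S (nat_lit 27123) (S (nat_lit 29320) (S (nat_lit 26637) (L (nat_lit 2541788))
(L (nat_lit 19709031)))
(L (nat_lit 19129521)))
(S (nat_lit 46887) (S (nat_lit 42750) (S (nat_lit 23947) (L (nat_lit 29985192))
(L (nat_lit 21773505)))
(L (nat_lit 27694696)))
(L (nat_lit 25868426)))))
(L (nat_lit 25691750)))))
(L (nat_lit 25213203)))))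
(L (nat_lit 25761259)))))
(S (nat_lit 23975) (S (nat_lit 3968) (S (nat_lit 17747) (S (nat_lit 18233) (S (nat_lit 5358) (S (nat_lit 48528) (S (nat_lit 56088) (S (nat_lit 3482) (S (nat_lit 49014) (S (nat_lit 17289) (L (nat_lit 13922482))
(L (nat_lit 10170489)))
(L (nat_lit 15787720)))
(L (nat_lit 10567389)))
(L (nat_lit 15927159)))
(L (nat_lit 20456292)))
(S (nat_lit 25122) (S (nat_lit 7577) (S (nat_lit 35805) (S (nat_lit 3482) (L (nat_lit 1912246))
(L (nat_lit 8903772)))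
(L (nat_lit 2578344)))
(L (nat_lit 21474429)))
(S (nat_lit 44886) (S (nat_lit 10210) (S (nat_lit 23947) (S (nat_lit 30746) (L (nat_lit 3462927))
(L (nat_lit 2548947)))
(L (nat_lit 2005740)))
(L (nat_lit 14739015)))
(L (nat_lit 25317745)))))
(S (nat_lit 37997) (S (nat_lit 16312) (S (nat_lit 37321) (S (nat_lit 9757) (L (nat_lit 24512359))
(L (nat_lit 2673446)))
(L (nat_lit 17685640)))
(S (nat_lit 36076) (S (nat_lit 2192) (S (nat_lit 49738) (S (nat_lit 17557) (L (nat_lit 8279151))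
(L (nat_lit 22953128)))
(L (nat_lit 6948409)))
(S (nat_lit 58227) (L (nat_lit 6774629))
(L (nat_lit 6776453))))
(S (nat_lit 55840) (S (nat_lit 4155) (S (nat_lit 11901) (L (nat_lit 9582201))
(L (nat_lit 29611425)))
(L (nat_lit 9623993)))
(L (nat_lit 25891211)))))
(S (nat_lit 57761) (S (nat_lit 17557) (S (nat_lit 7577) (S (nat_lit 4155) (S (nat_lit 35805) (S (nat_lit 43253) (L (nat_lit 28597328))
(L (nat_lit 27999368)))
(L (nat_lit 18764904)))
(L (nat_lit 19676421)))
(L (nat_lit 4800391)))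
(S (nat_lit 37321) (S (nat_lit 43253) (S (nat_lit 46133) (S (nat_lit 16312) (L (nat_lit 11210605))
(L (nat_lit 10903392)))
(L (nat_lit 18112260)))
(L (nat_lit 27483279)))
(S (nat_lit 57085) (S (nat_lit 21956) (S (nat_lit 271) (L (nat_lit 4823483))
(L (nat_lit 4482485)))
(L (nat_lit 10027949)))
(L (nat_lit 25318736)))))
(L (nat_lit 25723529)))))
(S (nat_lit 37511) (S (nat_lit 8532) (S (nat_lit 4318) (S (nat_lit 58981) (L (nat_lit 8077401))
(L (nat_lit 21098922)))
(S (nat_lit 26089) (S (nat_lit 42692) (S (nat_lit 12941) (L (nat_lit 14602281))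
(L (nat_lit 5462958)))
(L (nat_lit 9596557)))
(L (nat_lit 31046666))))
(S (nat_lit 28296) (S (nat_lit 15831) (S (nat_lit 49084) (L (nat_lit 8077089))
(L (nat_lit 27498156)))
(S (nat_lit 35595) (S (nat_lit 20600) (L (nat_lit 12625780))
(S (nat_lit 23246) (S (nat_lit 22517) (L (nat_lit 9175789))
(L (nat_lit 9865977)))
(L (nat_lit 4630265))))
(S (nat_lit 55359) (S (nat_lit 972) (L (nat_lit 13864697))
(L (nat_lit 19018506)))
(L (nat_lit 25568437)))))
(S (nat_lit 48060) (S (nat_lit 15831) (S (nat_lit 47105) (L (nat_lit 217500))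
(L (nat_lit 22953063)))
(S (nat_lit 35595) (S (nat_lit 20234) (L (nat_lit 3391350))
(S (nat_lit 36123) (L (nat_lit 4594267))
(L (nat_lit 6137271))))
(S (nat_lit 55359) (S (nat_lit 35151) (S (nat_lit 29510) (L (nat_lit 498392))
(L (nat_lit 19337063)))
(L (nat_lit 9582455)))
(L (nat_lit 25742565)))))
(L (nat_lit 25221485)))))
(S (nat_lit 57275) (S (nat_lit 15555) (S (nat_lit 56845) (L (nat_lit 18046817))
(L (nat_lit 21180601)))
(S (nat_lit 35319) (S (nat_lit 31718) (S (nat_lit 757) (L (nat_lit 28523573))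
(L (nat_lit 13847610)))
(L (nat_lit 19097057)))
(S (nat_lit 55083) (S (nat_lit 21956) (S (nat_lit 16091) (L (nat_lit 210775))
(L (nat_lit 22245861)))
(L (nat_lit 3357369)))
(L (nat_lit 25386158)))))
(L (nat_lit 25399700)))))
(S (nat_lit 23732) (S (nat_lit 10696) (S (nat_lit 11250) (S (nat_lit 16359) (S (nat_lit 4155) (S (nat_lit 43711) (S (nat_lit 5358) (L (nat_lit 9211382))
(L (nat_lit 2928050)))
(L (nat_lit 2929940)))
(L (nat_lit 16898265)))
(S (nat_lit 36123) (S (nat_lit 23947) (S (nat_lit 46887) (L (nat_lit 23312224))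
(L (nat_lit 27962509)))
(L (nat_lit 7386933)))
(S (nat_lit 55887) (S (nat_lit 5358) (S (nat_lit 54915) (L (nat_lit 4641017))
(L (nat_lit 21337595)))
(L (nat_lit 19699112)))
(L (nat_lit 25599554)))))
(S (nat_lit 31014) (S (nat_lit 1986) (S (nat_lit 47105) (S (nat_lit 44671) (S (nat_lit 2954) (L (nat_lit 28416435))
(L (nat_lit 905487)))
(L (nat_lit 5034189)))
(L (nat_lit 1533607)))
(S (nat_lit 21750) (S (nat_lit 15340) (S (nat_lit 29510) (S (nat_lit 13388) (S (nat_lit 56088) (S (nat_lit 2974) (S (nat_lit 32962) (S (nat_lit 35369) (S (nat_lit 2954) (L (nat_lit 14754525))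
(L (nat_lit 716233)))
(L (nat_lit 636778)))
(L (nat_lit 10273378)))
(L (nat_lit 17026171)))
(L (nat_lit 10258158)))
(L (nat_lit 8097649)))
(L (nat_lit 6777907)))
(L (nat_lit 24381292)))
(S (nat_lit 41514) (S (nat_lit 10724) (S (nat_lit 35855) (L (nat_lit 7133325))
(L (nat_lit 12800187)))
(L (nat_lit 17534824)))
(L (nat_lit 25515557)))))
(S (nat_lit 50778) (S (nat_lit 3725) (S (nat_lit 56792) (L (nat_lit 21128680))
(L (nat_lit 7050095)))
(S (nat_lit 23489) (S (nat_lit 12918) (S (nat_lit 56088) (S (nat_lit 39799) (S (nat_lit 37997) (S (nat_lit 48528) (L (nat_lit 465719))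
(L (nat_lit 3630790)))
(L (nat_lit 23411867)))
(L (nat_lit 3645049)))
(L (nat_lit 21792202)))
(S (nat_lit 41404) (S (nat_lit 5358) (L (nat_lit 26328774))
(L (nat_lit 19229711)))
(L (nat_lit 26814607))))
(S (nat_lit 43253) (S (nat_lit 5358) (S (nat_lit 31500) (L (nat_lit 11232429))
(L (nat_lit 4052456)))
(L (nat_lit 18632900)))
(L (nat_lit 25662679)))))
(L (nat_lit 25644102)))))
(S (nat_lit 30460) (S (nat_lit 4155) (S (nat_lit 49495) (S (nat_lit 36567) (S (nat_lit 6325) (S (nat_lit 56792) (S (nat_lit 39799) (S (nat_lit 3164) (L (nat_lit 18026258))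
(L (nat_lit 26845197)))
(L (nat_lit 17603136)))
(L (nat_lit 19056552)))
(L (nat_lit 26525412)))
(L (nat_lit 7463664)))
(L (nat_lit 27376358)))
(S (nat_lit 23919) (S (nat_lit 37028) (S (nat_lit 36567) (S (nat_lit 30488) (S (nat_lit 51264) (S (nat_lit 48060) (S (nat_lit 23947) (L (nat_lit 4415925))
(L (nat_lit 30802666)))
(L (nat_lit 6887277)))
(L (nat_lit 13230400)))
(L (nat_lit 30813922)))
(L (nat_lit 30520043)))
(L (nat_lit 30520038)))
(S (nat_lit 43683) (S (nat_lit 36567) (S (nat_lit 6325) (S (nat_lit 23489) (S (nat_lit 49495) (S (nat_lit 51264) (L (nat_lit 29540006))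
(L (nat_lit 8052751)))
(L (nat_lit 27730660)))
(L (nat_lit 7788697)))
(L (nat_lit 17934075)))
(L (nat_lit 17954539)))
(L (nat_lit 25796688)))))
(S (nat_lit 50224) (S (nat_lit 3482) (S (nat_lit 757) (S (nat_lit 23489) (S (nat_lit 35855) (S (nat_lit 56088) (S (nat_lit 31718) (S (nat_lit 2250) (L (nat_lit 29795909))
(L (nat_lit 19309345)))
(L (nat_lit 19326209)))
(L (nat_lit 14455528)))
(L (nat_lit 31133935)))
(L (nat_lit 2530041)))
(S (nat_lit 48191) (L (nat_lit 20002075))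
(L (nat_lit 374581))))
(S (nat_lit 23246) (S (nat_lit 6873) (S (nat_lit 45853) (S (nat_lit 58981) (S (nat_lit 29510) (S (nat_lit 9486) (L (nat_lit 13504231))
(L (nat_lit 1601226)))
(L (nat_lit 13313083)))
(L (nat_lit 7189555)))
(L (nat_lit 6418157)))
(S (nat_lit 26637) (S (nat_lit 58981) (S (nat_lit 16312) (L (nat_lit 13296810))
(L (nat_lit 16963435)))
(L (nat_lit 6805561)))
(S (nat_lit 46401) (S (nat_lit 29510) (S (nat_lit 41494) (S (nat_lit 44185) (S (nat_lit 58981) (L (nat_lit 11656048))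
(L (nat_lit 21280545)))
(L (nat_lit 1365805)))
(L (nat_lit 17949319)))
(L (nat_lit 7025787)))
(L (nat_lit 25207318)))))
(S (nat_lit 43010) (S (nat_lit 10749) (S (nat_lit 23489) (S (nat_lit 16803) (S (nat_lit 56845) (L (nat_lit 2376443))
(L (nat_lit 452330)))
(L (nat_lit 17665771)))
(L (nat_lit 21804292)))
(S (nat_lit 30513) (S (nat_lit 37081) (S (nat_lit 29521) (L (nat_lit 17919286))
(L (nat_lit 12804247)))
(L (nat_lit 12804836)))
(S (nat_lit 50277) (S (nat_lit 50252) (S (nat_lit 23489) (S (nat_lit 38293) (S (nat_lit 9409) (L (nat_lit 11931387))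
(L (nat_lit 15920872)))
(L (nat_lit 17009459)))
(L (nat_lit 2530102)))
(L (nat_lit 27496173)))
(L (nat_lit 25182550)))))
(L (nat_lit 25181431)))))
(L (nat_lit 25645095)))))
(S (nat_lit 43496) (S (nat_lit 3482) (S (nat_lit 4155) (S (nat_lit 12918) (S (nat_lit 43711) (S (nat_lit 5358) (S (nat_lit 20035) (S (nat_lit 42281) (S (nat_lit 1986) (S (nat_lit 3725) (S (nat_lit 16359) (L (nat_lit 30092399))
(L (nat_lit 24348153)))
(L (nat_lit 26402214)))
(L (nat_lit 5730025)))
(L (nat_lit 10575288)))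
(L (nat_lit 324021)))
(L (nat_lit 9229730)))
(L (nat_lit 9320164)))
(L (nat_lit 4021675)))
(L (nat_lit 9623993)))
(S (nat_lit 23246) (S (nat_lit 16359) (S (nat_lit 5143) (S (nat_lit 28834) (S (nat_lit 44185) (S (nat_lit 22517) (S (nat_lit 43711) (S (nat_lit 40500) (S (nat_lit 19453) (S (nat_lit 40285) (L (nat_lit 23504955))
(L (nat_lit 24505763)))
(L (nat_lit 26332586)))
(L (nat_lit 1395133)))
(L (nat_lit 23115033)))
(L (nat_lit 1828266)))
(L (nat_lit 27923880)))
(L (nat_lit 8512946)))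
(L (nat_lit 19099042)))
(S (nat_lit 36123) (S (nat_lit 22517) (S (nat_lit 9746) (S (nat_lit 35369) (L (nat_lit 29472487))
(L (nat_lit 650667)))
(L (nat_lit 26883361)))
(L (nat_lit 9168290)))
(S (nat_lit 55887) (S (nat_lit 22517) (S (nat_lit 8532) (L (nat_lit 341846))
(L (nat_lit 21226917)))
(L (nat_lit 9231776)))
(L (nat_lit 25599029)))))
(S (nat_lit 43010) (S (nat_lit 12918) (S (nat_lit 4155) (S (nat_lit 43711) (S (nat_lit 20035) (S (nat_lit 16359) (L (nat_lit 3454557))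
(L (nat_lit 26457732)))
(L (nat_lit 22820032)))
(L (nat_lit 24943012)))
(S (nat_lit 23919) (S (nat_lit 5143) (S (nat_lit 4657) (L (nat_lit 309074))
(L (nat_lit 2387381)))
(L (nat_lit 8482229)))
(S (nat_lit 43683) (L (nat_lit 4961656))
(L (nat_lit 25756073)))))
(S (nat_lit 32682) (S (nat_lit 16359) (S (nat_lit 43914) (L (nat_lit 210807))
(L (nat_lit 25077153)))
(S (nat_lit 36123) (S (nat_lit 29510) (L (nat_lit 21902343))
(L (nat_lit 7015865)))
(S (nat_lit 55887) (S (nat_lit 49084) (L (nat_lit 7452413))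
(L (nat_lit 8148387)))
(L (nat_lit 25824560)))))
(S (nat_lit 52446) (S (nat_lit 2974) (S (nat_lit 5143) (L (nat_lit 8838232))
(L (nat_lit 26644134)))
(S (nat_lit 22738) (S (nat_lit 21730) (L (nat_lit 6741016))
(L (nat_lit 21403704)))
(S (nat_lit 42502) (S (nat_lit 42016) (L (nat_lit 2373368))
(L (nat_lit 27691284)))
(L (nat_lit 25933894)))))
(L (nat_lit 25766405)))))
(L (nat_lit 25463286)))))
(L (nat_lit 25386031)))))
(S (nat_lit 43739) (S (nat_lit 972) (S (nat_lit 10724) (S (nat_lit 15340) (S (nat_lit 10696) (S (nat_lit 16312) (S (nat_lit 49285) (S (nat_lit 48313) (S (nat_lit 8532) (L (nat_lit 29961265))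
(L (nat_lit 21865859)))
(L (nat_lit 22423395)))
(L (nat_lit 22425445)))
(L (nat_lit 16998419)))
(S (nat_lit 30460) (S (nat_lit 2488) (S (nat_lit 2974) (L (nat_lit 6199699))
(L (nat_lit 19170714)))
(L (nat_lit 18933128)))
(S (nat_lit 50224) (S (nat_lit 18529) (S (nat_lit 13198) (L (nat_lit 18613864))
(L (nat_lit 607081)))
(L (nat_lit 18146355)))
(L (nat_lit 25695479)))))
(S (nat_lit 35104) (S (nat_lit 15831) (S (nat_lit 4155) (S (nat_lit 41514) (S (nat_lit 48110) (S (nat_lit 29510) (S (nat_lit 2753) (S (nat_lit 11954) (S (nat_lit 23246) (S (nat_lit 37028) (L (nat_lit 3488505))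
(L (nat_lit 30875362)))
(L (nat_lit 21406809)))
(L (nat_lit 9146124)))
(L (nat_lit 8303702)))
(L (nat_lit 24446393)))
(L (nat_lit 18450680)))
(L (nat_lit 6972493)))
(L (nat_lit 3938738)))
(S (nat_lit 35595) (S (nat_lit 36810) (S (nat_lit 35855) (S (nat_lit 35369) (S (nat_lit 36567) (S (nat_lit 36123) (L (nat_lit 28609972))
(L (nat_lit 5846890)))
(L (nat_lit 3400432)))
(L (nat_lit 9178701)))
(L (nat_lit 2319794)))
(L (nat_lit 418539)))
(S (nat_lit 55359) (S (nat_lit 36123) (S (nat_lit 52446) (S (nat_lit 56792) (L (nat_lit 29669954))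
(L (nat_lit 2579304)))
(L (nat_lit 3025647)))
(L (nat_lit 5695050)))
(L (nat_lit 25216743)))))
(S (nat_lit 54868) (S (nat_lit 4386) (S (nat_lit 29510) (S (nat_lit 58981) (S (nat_lit 52446) (S (nat_lit 4155) (S (nat_lit 32705) (L (nat_lit 28454450))
(L (nat_lit 18966732)))
(L (nat_lit 3776952)))
(L (nat_lit 7070863)))
(L (nat_lit 27437491)))
(L (nat_lit 6383027)))
(S (nat_lit 24150) (S (nat_lit 10210) (S (nat_lit 36123) (L (nat_lit 23869544))
(L (nat_lit 6738722)))
(L (nat_lit 21029255)))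
(S (nat_lit 43914) (S (nat_lit 35151) (S (nat_lit 27341) (S (nat_lit 32705) (L (nat_lit 6085935))
(L (nat_lit 17045301)))
(L (nat_lit 19338555)))
(L (nat_lit 2703142)))
(L (nat_lit 25219494)))))
(L (nat_lit 25475187)))))
(S (nat_lit 30488) (S (nat_lit 1986) (S (nat_lit 12941) (S (nat_lit 52726) (S (nat_lit 53698) (S (nat_lit 5358) (S (nat_lit 43253) (L (nat_lit 1324793))
(L (nat_lit 6110952)))
(L (nat_lit 16535560)))
(L (nat_lit 18931919)))
(L (nat_lit 19666190)))
(S (nat_lit 32705) (S (nat_lit 55840) (S (nat_lit 58057) (S (nat_lit 54868) (S (nat_lit 57085) (S (nat_lit 58981) (S (nat_lit 15137) (S (nat_lit 35151) (L (nat_lit 29921527))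
(L (nat_lit 23457248)))
(L (nat_lit 22604034)))
(L (nat_lit 9274989)))
(L (nat_lit 4617587)))
(L (nat_lit 11404691)))
(L (nat_lit 27732083)))
(L (nat_lit 8163891)))
(S (nat_lit 52469) (S (nat_lit 11250) (S (nat_lit 5358) (S (nat_lit 22738) (L (nat_lit 29504723))
(L (nat_lit 22456408)))
(L (nat_lit 2930344)))
(S (nat_lit 41407) (L (nat_lit 14487112))
(L (nat_lit 7755524))))
(L (nat_lit 25181798)))))
(S (nat_lit 21750) (S (nat_lit 15831) (S (nat_lit 29510) (S (nat_lit 23489) (L (nat_lit 28562541))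
(L (nat_lit 8066489)))
(L (nat_lit 276339)))
(S (nat_lit 35595) (S (nat_lit 36810) (S (nat_lit 30513) (S (nat_lit 36567) (L (nat_lit 1613685))
(L (nat_lit 30739182)))
(L (nat_lit 7771898)))
(L (nat_lit 13375209)))
(S (nat_lit 55359) (S (nat_lit 10453) (S (nat_lit 26127) (S (nat_lit 36324) (L (nat_lit 9091941))
(L (nat_lit 1275632)))
(L (nat_lit 11284659)))
(L (nat_lit 15360320)))
(L (nat_lit 25483438)))))
(S (nat_lit 41514) (S (nat_lit 10749) (S (nat_lit 50224) (S (nat_lit 52469) (S (nat_lit 29320) (L (nat_lit 19076664))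
(L (nat_lit 2936113)))
(L (nat_lit 9197954)))
(L (nat_lit 8504057)))
(S (nat_lit 30513) (S (nat_lit 22014) (S (nat_lit 48060) (S (nat_lit 36123) (L (nat_lit 10538829))
(L (nat_lit 892341)))
(L (nat_lit 2928333)))
(L (nat_lit 17981683)))
(S (nat_lit 50277) (S (nat_lit 16041) (S (nat_lit 15555) (L (nat_lit 10278276))
(L (nat_lit 2905478)))
(L (nat_lit 24904072)))
(L (nat_lit 25177494)))))
(L (nat_lit 25861669)))))
(S (nat_lit 50252) (S (nat_lit 9486) (S (nat_lit 15831) (S (nat_lit 17046) (S (nat_lit 41494) (L (nat_lit 2780433))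
(L (nat_lit 2497332)))
(L (nat_lit 26463374)))
(S (nat_lit 35595) (S (nat_lit 35369) (S (nat_lit 52469) (S (nat_lit 16312) (L (nat_lit 10085390))
(L (nat_lit 8808128)))
(L (nat_lit 8810080)))
(L (nat_lit 8578546)))
(S (nat_lit 55359) (S (nat_lit 29510) (S (nat_lit 56574) (S (nat_lit 2192) (S (nat_lit 56792) (S (nat_lit 16312) (L (nat_lit 29688278))
(L (nat_lit 9035948)))
(L (nat_lit 2563834)))
(L (nat_lit 465783)))
(L (nat_lit 14461077)))
(L (nat_lit 18949933)))
(L (nat_lit 25806053)))))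
(S (nat_lit 29250) (S (nat_lit 13874) (S (nat_lit 57761) (S (nat_lit 58981) (L (nat_lit 412954))
(L (nat_lit 21357988)))
(L (nat_lit 18885452)))
(S (nat_lit 33638) (S (nat_lit 17747) (S (nat_lit 29510) (S (nat_lit 58981) (S (nat_lit 3164) (L (nat_lit 28527633))
(L (nat_lit 8479127)))
(L (nat_lit 7246544)))
(L (nat_lit 18179681)))
(S (nat_lit 38195) (L (nat_lit 2827835))
(L (nat_lit 2318740))))
(S (nat_lit 53402) (S (nat_lit 35151) (S (nat_lit 49084) (S (nat_lit 36123) (L (nat_lit 1919400))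
(L (nat_lit 6960930)))
(L (nat_lit 22255100)))
(L (nat_lit 2713062)))
(L (nat_lit 25597300)))))
(S (nat_lit 49014) (S (nat_lit 16312) (S (nat_lit 29510) (S (nat_lit 35151) (S (nat_lit 15340) (S (nat_lit 48060) (L (nat_lit 483080))
(L (nat_lit 8851316)))
(L (nat_lit 745772)))
(L (nat_lit 9058080)))
(L (nat_lit 288429)))
(S (nat_lit 36076) (S (nat_lit 12545) (L (nat_lit 8123780))
(S (nat_lit 52469) (S (nat_lit 59042) (L (nat_lit 8970848))
(L (nat_lit 2314810)))
(L (nat_lit 2518227))))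
(S (nat_lit 55840) (S (nat_lit 32705) (S (nat_lit 10210) (L (nat_lit 9111962))
(L (nat_lit 10224018)))
(L (nat_lit 19074924)))
(L (nat_lit 25346422)))))
(L (nat_lit 25184714)))))
(L (nat_lit 25772168)))))
(S (nat_lit 20736) (S (nat_lit 6325) (S (nat_lit 3222) (S (nat_lit 19514) (S (nat_lit 5358) (S (nat_lit 20521) (S (nat_lit 48528) (L (nat_lit 2733834))
(L (nat_lit 20456292)))
(L (nat_lit 3362639)))
(S (nat_lit 23110) (L (nat_lit 26982408))
(L (nat_lit 9039268))))
(S (nat_lit 39278) (S (nat_lit 2058) (L (nat_lit 6886808))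
(S (nat_lit 21750) (S (nat_lit 271) (S (nat_lit 7577) (S (nat_lit 23947) (L (nat_lit 18935053))
(L (nat_lit 21764580)))
(L (nat_lit 2694032)))
(L (nat_lit 7353978)))
(L (nat_lit 15982674))))
(S (nat_lit 59042) (S (nat_lit 48110) (S (nat_lit 22232) (L (nat_lit 18880987))
(L (nat_lit 8413807)))
(S (nat_lit 49139) (L (nat_lit 2827704))
(L (nat_lit 2315768))))
(L (nat_lit 25381036)))))
(S (nat_lit 22986) (S (nat_lit 15340) (S (nat_lit 43253) (S (nat_lit 56792) (S (nat_lit 52469) (L (nat_lit 29643853))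
(L (nat_lit 6983066)))
(L (nat_lit 7261357)))
(L (nat_lit 7070116)))
(S (nat_lit 35104) (S (nat_lit 5358) (S (nat_lit 16041) (L (nat_lit 17498393))
(L (nat_lit 801384)))
(L (nat_lit 19674308)))
(S (nat_lit 54868) (S (nat_lit 56792) (S (nat_lit 23732) (L (nat_lit 5563119))
(L (nat_lit 31143016)))
(L (nat_lit 6412762)))
(L (nat_lit 25270897)))))
(S (nat_lit 42750) (S (nat_lit 4155) (S (nat_lit 5358) (S (nat_lit 9486) (S (nat_lit 56792) (L (nat_lit 8434268))
(L (nat_lit 6991994)))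
(L (nat_lit 17582088)))
(L (nat_lit 19666127)))
(S (nat_lit 23919) (S (nat_lit 35319) (S (nat_lit 24421) (L (nat_lit 2711976))
(L (nat_lit 30586133)))
(L (nat_lit 20789508)))
(S (nat_lit 43683) (S (nat_lit 41720) (S (nat_lit 43711) (S (nat_lit 58981) (L (nat_lit 29710724))
(L (nat_lit 27627955)))
(L (nat_lit 23224588)))
(L (nat_lit 13650202)))
(L (nat_lit 25352617)))))
(L (nat_lit 25663080)))))
(S (nat_lit 26089) (S (nat_lit 15831) (S (nat_lit 9757) (S (nat_lit 9967) (S (nat_lit 43010) (S (nat_lit 37511) (L (nat_lit 14524129))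
(L (nat_lit 858516)))
(L (nat_lit 16589910)))
(L (nat_lit 15406955)))
(S (nat_lit 29521) (S (nat_lit 8532) (S (nat_lit 17264) (S (nat_lit 56574) (L (nat_lit 13848389))
(L (nat_lit 7214551)))
(L (nat_lit 5721896)))
(S (nat_lit 14217) (L (nat_lit 6843479))
(L (nat_lit 12392077))))
(S (nat_lit 49285) (S (nat_lit 9486) (S (nat_lit 49738) (L (nat_lit 13453568))
(L (nat_lit 13659879)))
(S (nat_lit 12006) (L (nat_lit 17705604))
(L (nat_lit 799434))))
(L (nat_lit 25386065)))))
(S (nat_lit 35595) (S (nat_lit 25700) (L (nat_lit 3776952))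
(S (nat_lit 52446) (S (nat_lit 14170) (S (nat_lit 37053) (S (nat_lit 1986) (S (nat_lit 10696) (S (nat_lit 2250) (S (nat_lit 52726) (S (nat_lit 17046) (S (nat_lit 58057) (S (nat_lit 43010) (S (nat_lit 16312) (L (nat_lit 14702844))
(L (nat_lit 26400134)))
(L (nat_lit 15982614)))
(L (nat_lit 19108685)))
(L (nat_lit 5069168)))
(L (nat_lit 4801416)))
(L (nat_lit 19801134)))
(L (nat_lit 26748641)))
(L (nat_lit 19021016)))
(L (nat_lit 4449008)))
(L (nat_lit 12645062)))
(L (nat_lit 9310646))))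
(S (nat_lit 55359) (S (nat_lit 19514) (S (nat_lit 2974) (S (nat_lit 58057) (L (nat_lit 29960365))
(L (nat_lit 27933798)))
(S (nat_lit 24856) (L (nat_lit 16537826))
(L (nat_lit 745867))))
(S (nat_lit 39278) (S (nat_lit 39217) (S (nat_lit 21956) (S (nat_lit 36076) (L (nat_lit 5825255))
(L (nat_lit 30773651)))
(L (nat_lit 30460173)))
(L (nat_lit 14568583)))
(S (nat_lit 59042) (S (nat_lit 4657) (S (nat_lit 23246) (S (nat_lit 55133) (S (nat_lit 24150) (L (nat_lit 1365903))
(L (nat_lit 30619264)))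
(L (nat_lit 20998511)))
(L (nat_lit 4925293)))
(S (nat_lit 33696) (S (nat_lit 56792) (L (nat_lit 20350888))
(L (nat_lit 2650854)))
(L (nat_lit 19734541))))
(L (nat_lit 25561394)))))
(L (nat_lit 25742439)))))
(S (nat_lit 45853) (S (nat_lit 4657) (S (nat_lit 3968) (S (nat_lit 1966) (S (nat_lit 12552) (L (nat_lit 16979612))
(L (nat_lit 2510105)))
(L (nat_lit 19252068)))
(S (nat_lit 23732) (S (nat_lit 5358) (S (nat_lit 23246) (L (nat_lit 23522310))
(L (nat_lit 20999405)))
(L (nat_lit 19700132)))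
(S (nat_lit 43496) (S (nat_lit 43253) (S (nat_lit 2753) (S (nat_lit 41514) (S (nat_lit 52446) (S (nat_lit 55133) (L (nat_lit 29505094))
(L (nat_lit 19150593)))
(L (nat_lit 9221270)))
(L (nat_lit 24351565)))
(L (nat_lit 26237261)))
(L (nat_lit 27530957)))
(L (nat_lit 25928161)))))
(S (nat_lit 24421) (S (nat_lit 11250) (S (nat_lit 43010) (S (nat_lit 3222) (L (nat_lit 29076932))
(L (nat_lit 8900761)))
(L (nat_lit 23082232)))
(S (nat_lit 31014) (S (nat_lit 41514) (S (nat_lit 55887) (S (nat_lit 52446) (L (nat_lit 6802210))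
(L (nat_lit 27699350)))
(L (nat_lit 27506244)))
(L (nat_lit 704265)))
(S (nat_lit 50778) (S (nat_lit 2974) (S (nat_lit 15555) (L (nat_lit 15373624))
(L (nat_lit 14931780)))
(L (nat_lit 9325649)))
(L (nat_lit 25569428)))))
(S (nat_lit 44185) (S (nat_lit 3968) (S (nat_lit 23489) (S (nat_lit 18529) (S (nat_lit 6873) (S (nat_lit 22517) (L (nat_lit 6411672))
(L (nat_lit 9167949)))
(L (nat_lit 7232557)))
(L (nat_lit 9308813)))
(L (nat_lit 3430841)))
(S (nat_lit 23732) (S (nat_lit 39799) (S (nat_lit 35151) (L (nat_lit 26457764))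
(L (nat_lit 2778534)))
(L (nat_lit 27577765)))
(S (nat_lit 43496) (S (nat_lit 4155) (S (nat_lit 57085) (L (nat_lit 28946692))
(L (nat_lit 27433549)))
(L (nat_lit 18986265)))
(L (nat_lit 25429741)))))
(L (nat_lit 25854473)))))
(L (nat_lit 25773316)))))
(S (nat_lit 40500) (S (nat_lit 16312) (S (nat_lit 5358) (S (nat_lit 9000) (S (nat_lit 10453) (L (nat_lit 20744584))
(L (nat_lit 2900215)))
(S (nat_lit 28764) (S (nat_lit 52916) (L (nat_lit 24330392))
(L (nat_lit 19096035)))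
(S (nat_lit 48528) (S (nat_lit 19453) (S (nat_lit 4657) (S (nat_lit 23246) (S (nat_lit 55619) (S (nat_lit 3725) (L (nat_lit 18548953))
(L (nat_lit 12285103)))
(L (nat_lit 27991215)))
(L (nat_lit 6380987)))
(L (nat_lit 18698496)))
(S (nat_lit 53098) (L (nat_lit 8544975))
(L (nat_lit 26725700))))
(L (nat_lit 25648262)))))
(S (nat_lit 25122) (S (nat_lit 6873) (S (nat_lit 22928) (S (nat_lit 9746) (L (nat_lit 14966688))
(L (nat_lit 26480051)))
(L (nat_lit 31035785)))
(S (nat_lit 26637) (S (nat_lit 12941) (S (nat_lit 26182) (L (nat_lit 23584806))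
(L (nat_lit 23933284)))
(S (nat_lit 32980) (L (nat_lit 31144229))
(L (nat_lit 26414702))))
(S (nat_lit 46401) (S (nat_lit 57761) (S (nat_lit 5143) (L (nat_lit 29559218))
(L (nat_lit 8836962)))
(L (nat_lit 27841703)))
(L (nat_lit 25544748)))))
(S (nat_lit 44886) (S (nat_lit 15340) (S (nat_lit 36123) (S (nat_lit 29320) (L (nat_lit 7968588))
(L (nat_lit 3784555)))
(L (nat_lit 6338423)))
(S (nat_lit 35104) (S (nat_lit 1863) (L (nat_lit 24910925))
(S (nat_lit 36123) (S (nat_lit 5143) (L (nat_lit 24425252))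
(L (nat_lit 8836219)))
(L (nat_lit 23389602))))
(S (nat_lit 54868) (S (nat_lit 35369) (S (nat_lit 29320) (L (nat_lit 12655478))
(L (nat_lit 3782507)))
(L (nat_lit 23344929)))
(L (nat_lit 25288072)))))
(L (nat_lit 25313962)))))
(S (nat_lit 36076) (S (nat_lit 13198) (S (nat_lit 10453) (S (nat_lit 52446) (S (nat_lit 17557) (L (nat_lit 2549320))
(L (nat_lit 7209366)))
(L (nat_lit 7213494)))
(S (nat_lit 30217) (S (nat_lit 36123) (S (nat_lit 52446) (L (nat_lit 12849971))
(L (nat_lit 28023855)))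
(L (nat_lit 23115626)))
(S (nat_lit 49981) (S (nat_lit 35855) (S (nat_lit 17557) (L (nat_lit 17900406))
(L (nat_lit 7259283)))
(L (nat_lit 7083599)))
(L (nat_lit 25901223)))))
(S (nat_lit 32962) (S (nat_lit 12918) (S (nat_lit 54915) (L (nat_lit 6441403))
(L (nat_lit 21771616)))
(S (nat_lit 32682) (S (nat_lit 11250) (S (nat_lit 20521) (L (nat_lit 6386066))
(L (nat_lit 3067307)))
(L (nat_lit 6754070)))
(S (nat_lit 52446) (S (nat_lit 5358) (S (nat_lit 19453) (S (nat_lit 17557) (S (nat_lit 10210) (L (nat_lit 11965018))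
(L (nat_lit 23553346)))
(L (nat_lit 16680307)))
(L (nat_lit 18664676)))
(L (nat_lit 9188996)))
(L (nat_lit 25206292)))))
(S (nat_lit 52726) (S (nat_lit 2753) (S (nat_lit 17264) (S (nat_lit 30488) (S (nat_lit 23246) (L (nat_lit 794317))
(L (nat_lit 6305591)))
(L (nat_lit 8149378)))
(S (nat_lit 43899) (L (nat_lit 19294496))
(L (nat_lit 16968422))))
(S (nat_lit 22517) (S (nat_lit 22718) (S (nat_lit 54915) (S (nat_lit 28296) (S (nat_lit 11250) (L (nat_lit 29507210))
(L (nat_lit 21365977)))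
(L (nat_lit 1846710)))
(L (nat_lit 6043206)))
(L (nat_lit 12973078)))
(S (nat_lit 42281) (S (nat_lit 44671) (S (nat_lit 17264) (S (nat_lit 54915) (L (nat_lit 19327083))
(L (nat_lit 27442822)))
(L (nat_lit 16968422)))
(S (nat_lit 51367) (L (nat_lit 20714863))
(L (nat_lit 24196473))))
(L (nat_lit 25934858)))))
(L (nat_lit 25701459)))))
(S (nat_lit 55840) (S (nat_lit 9757) (S (nat_lit 16091) (S (nat_lit 32962) (S (nat_lit 43253) (S (nat_lit 36123) (L (nat_lit 18572456))
(L (nat_lit 7189559)))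
(L (nat_lit 7167119)))
(L (nat_lit 9006158)))
(S (nat_lit 35855) (S (nat_lit 19514) (S (nat_lit 32705) (L (nat_lit 9187474))
(L (nat_lit 1266476)))
(L (nat_lit 15928114)))
(S (nat_lit 55619) (S (nat_lit 57085) (S (nat_lit 3725) (L (nat_lit 6038253))
(L (nat_lit 20148367)))
(L (nat_lit 27678018)))
(L (nat_lit 25902217)))))
(S (nat_lit 29521) (S (nat_lit 23790) (L (nat_lit 7199172))
(S (nat_lit 32705) (S (nat_lit 27341) (S (nat_lit 2192) (S (nat_lit 48110) (L (nat_lit 212819))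
(L (nat_lit 18023002)))
(L (nat_lit 825751)))
(L (nat_lit 24328251)))
(L (nat_lit 1877395))))
(S (nat_lit 49285) (S (nat_lit 15340) (S (nat_lit 27341) (S (nat_lit 36123) (S (nat_lit 32705) (S (nat_lit 17289) (S (nat_lit 8582) (S (nat_lit 52446) (L (nat_lit 20978236))
(L (nat_lit 6746853)))
(L (nat_lit 3840881)))
(L (nat_lit 24472686)))
(L (nat_lit 1698182)))
(L (nat_lit 7124085)))
(L (nat_lit 19053417)))
(S (nat_lit 48421) (L (nat_lit 1682905))
(L (nat_lit 7464652))))
(L (nat_lit 25565330)))))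
(L (nat_lit 25725542)))))
(L (nat_lit 25594130)))))
(L (nat_lit 25887144)))))
(L (nat_lit 25922954)))))

theorem rb262_1 : run 4 lb262 [] tb262_1 kb262 (P4 4 3082 0 2942 0 0 0 1 0) [] = true := by
  decide +kernel

noncomputable def tb246_0_12 : Tr :=
(S (nat_lit 1246) (S (nat_lit 1991) (S (nat_lit 15323) (S (nat_lit 1019) (S (nat_lit 17560) (S (nat_lit 10997) (S (nat_lit 21529) (S (nat_lit 8748) (L (nat_lit 713009))
(L (nat_lit 6773536)))
(L (nat_lit 14906944)))
(L (nat_lit 7799421)))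
(S (nat_lit 37324) (S (nat_lit 40743) (S (nat_lit 41514) (L (nat_lit 1649084))
(L (nat_lit 23535429)))
(L (nat_lit 8243619)))
(S (nat_lit 57088) (S (nat_lit 8773) (S (nat_lit 54899) (S (nat_lit 8762) (L (nat_lit 19826031))
(L (nat_lit 26682085)))
(L (nat_lit 21830799)))
(L (nat_lit 6780579)))
(L (nat_lit 25339379)))))
(S (nat_lit 20783) (S (nat_lit 1765) (S (nat_lit 20778) (S (nat_lit 1262) (S (nat_lit 52395) (L (nat_lit 1402263))
(L (nat_lit 29573731)))
(L (nat_lit 20149634)))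
(L (nat_lit 22232186)))
(S (nat_lit 21529) (S (nat_lit 48290) (L (nat_lit 22487812))
(L (nat_lit 22245487)))
(S (nat_lit 41293) (S (nat_lit 21783) (S (nat_lit 14) (S (nat_lit 40743) (S (nat_lit 41304) (S (nat_lit 1257) (S (nat_lit 1701) (S (nat_lit 1300) (L (nat_lit 29534707))
(L (nat_lit 22818955)))
(L (nat_lit 13388939)))
(L (nat_lit 20134789)))
(L (nat_lit 1268525)))
(L (nat_lit 970152)))
(L (nat_lit 218620)))
(L (nat_lit 21194213)))
(L (nat_lit 25219498)))))
(S (nat_lit 40547) (S (nat_lit 1185) (S (nat_lit 52315) (L (nat_lit 5730645))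
(L (nat_lit 3859850)))
(S (nat_lit 40542) (S (nat_lit 19811) (S (nat_lit 1986) (S (nat_lit 1975) (S (nat_lit 21783) (S (nat_lit 1262) (S (nat_lit 14) (S (nat_lit 19806) (S (nat_lit 21043) (S (nat_lit 15309) (S (nat_lit 21054) (S (nat_lit 21041) (S (nat_lit 35104) (S (nat_lit 54899) (S (nat_lit 54912) (S (nat_lit 20750) (S (nat_lit 1034) (S (nat_lit 41486) (S (nat_lit 40757) (S (nat_lit 39592) (S (nat_lit 39590) (S (nat_lit 39603) (S (nat_lit 30730) (S (nat_lit 30746) (S (nat_lit 50527) (S (nat_lit 21479) (S (nat_lit 41276) (S (nat_lit 41260) (S (nat_lit 10935) (S (nat_lit 25206) (S (nat_lit 45489) (S (nat_lit 25211) (S (nat_lit 2357) (S (nat_lit 28262) (S (nat_lit 13724) (S (nat_lit 43895) (S (nat_lit 4837) (S (nat_lit 23753) (D (nat_lit 11) (nat_lit 29576581) (nat_lit 19664175) (nat_lit 109590873153))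
(L (nat_lit 23992399)))
(L (nat_lit 30087584)))
(S (nat_lit 48708) (S (nat_lit 28512) (S (nat_lit 32518) (S (nat_lit 35002) (D (nat_lit 13) (nat_lit 13508292) (nat_lit 19128495) (nat_lit 4537734700040))
(L (nat_lit 14901270)))
(L (nat_lit 26746560)))
(L (nat_lit 25835712)))
(L (nat_lit 29776101))))
(L (nat_lit 27762304)))
(L (nat_lit 27462288)))
(L (nat_lit 23313285)))
(L (nat_lit 23207481)))
(L (nat_lit 2759473)))
(S (nat_lit 26497) (S (nat_lit 4978) (S (nat_lit 33943) (S (nat_lit 44241) (S (nat_lit 26508) (S (nat_lit 4470) (S (nat_lit 23154) (S (nat_lit 13305) (S (nat_lit 28127) (S (nat_lit 37291) (D (nat_lit 13) (nat_lit 29807813) (nat_lit 9003119) (nat_lit 214983344162))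
(L (nat_lit 31145218)))
(L (nat_lit 28984611)))
(S (nat_lit 36892) (S (nat_lit 56455) (S (nat_lit 28927) (S (nat_lit 31281) (S (nat_lit 50305) (D (nat_lit 15) (nat_lit 7097827) (nat_lit 12031762) (nat_lit 139593812032))
(L (nat_lit 21168944)))
(L (nat_lit 26951687)))
(L (nat_lit 21455041)))
(L (nat_lit 15487168)))
(L (nat_lit 19671488))))
(L (nat_lit 3592508)))
(L (nat_lit 21194929)))
(L (nat_lit 6963228)))
(L (nat_lit 7258130)))
(L (nat_lit 8055232)))
(L (nat_lit 17459425)))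
(S (nat_lit 57456) (S (nat_lit 48276) (S (nat_lit 37260) (S (nat_lit 25346) (S (nat_lit 12333) (S (nat_lit 6521) (S (nat_lit 52081) (S (nat_lit 15529) (D (nat_lit 13) (nat_lit 30430695) (nat_lit 25767089) (nat_lit 3371720477728))
(L (nat_lit 31080739)))
(L (nat_lit 28710962)))
(L (nat_lit 31077416)))
(L (nat_lit 31141928)))
(S (nat_lit 54523) (S (nat_lit 16382) (S (nat_lit 36259) (S (nat_lit 11051) (S (nat_lit 4037) (D (nat_lit 13) (nat_lit 27611217) (nat_lit 25764975) (nat_lit 6639220594690))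
(L (nat_lit 29072771)))
(L (nat_lit 28907908)))
(L (nat_lit 15649057)))
(L (nat_lit 28788993)))
(L (nat_lit 16489657))))
(L (nat_lit 3032807)))
(L (nat_lit 4877767)))
(L (nat_lit 23991535)))))
(L (nat_lit 21806272)))
(L (nat_lit 27928000)))
(L (nat_lit 16966214)))
(L (nat_lit 31038947)))
(L (nat_lit 20410563)))
(L (nat_lit 31011013)))
(S (nat_lit 51881) (S (nat_lit 24055) (S (nat_lit 32739) (L (nat_lit 1875445))
(L (nat_lit 26948869)))
(L (nat_lit 26948868)))
(L (nat_lit 24190488))))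
(L (nat_lit 5990668)))
(L (nat_lit 5970705)))
(L (nat_lit 5992840)))
(L (nat_lit 7991778)))
(L (nat_lit 6910402)))
(L (nat_lit 2680551)))
(L (nat_lit 21370633)))
(L (nat_lit 21473371)))
(L (nat_lit 21493060)))
(L (nat_lit 2833160)))
(L (nat_lit 22917193)))
(L (nat_lit 22275212)))
(L (nat_lit 696110)))
(L (nat_lit 22916484)))
(L (nat_lit 22481766)))
(L (nat_lit 19663306)))
(L (nat_lit 19362050)))
(L (nat_lit 22911459)))
(L (nat_lit 26915140)))
(L (nat_lit 20408395)))
(L (nat_lit 10153381)))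
(L (nat_lit 17494306))))
(L (nat_lit 25529751)))))
(S (nat_lit 35087) (S (nat_lit 1986) (S (nat_lit 17543) (S (nat_lit 8810) (S (nat_lit 57049) (S (nat_lit 30774) (L (nat_lit 30052654))
(L (nat_lit 4042164)))
(L (nat_lit 12642888)))
(L (nat_lit 26917220)))
(S (nat_lit 37307) (S (nat_lit 28554) (S (nat_lit 50463) (L (nat_lit 29593012))
(L (nat_lit 20134939)))
(L (nat_lit 18145460)))
(S (nat_lit 57071) (S (nat_lit 50527) (S (nat_lit 35073) (S (nat_lit 30774) (L (nat_lit 20297819))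
(L (nat_lit 2575674)))
(L (nat_lit 10151950)))
(L (nat_lit 13438162)))
(L (nat_lit 25448996)))))
(S (nat_lit 21750) (S (nat_lit 1701) (S (nat_lit 2054) (L (nat_lit 30878900))
(S (nat_lit 50488) (S (nat_lit 1215) (S (nat_lit 40575) (S (nat_lit 48290) (L (nat_lit 10532444))
(L (nat_lit 16615731)))
(L (nat_lit 3891564)))
(L (nat_lit 19669101)))
(L (nat_lit 4711016))))
(S (nat_lit 21465) (S (nat_lit 10960) (S (nat_lit 21026) (L (nat_lit 8446390))
(L (nat_lit 30459465)))
(S (nat_lit 27248) (L (nat_lit 22176049))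
(L (nat_lit 21467515))))
(S (nat_lit 41229) (S (nat_lit 19789) (S (nat_lit 54837) (S (nat_lit 17521) (L (nat_lit 8409967))
(L (nat_lit 1635912)))
(L (nat_lit 13694630)))
(L (nat_lit 14881589)))
(L (nat_lit 25316777)))))
(S (nat_lit 41514) (S (nat_lit 1701) (S (nat_lit 40542) (S (nat_lit 21512) (S (nat_lit 972) (L (nat_lit 28655169))
(L (nat_lit 11292034)))
(L (nat_lit 31072641)))
(L (nat_lit 24576778)))
(S (nat_lit 21465) (S (nat_lit 28576) (L (nat_lit 20124090))
(L (nat_lit 9089922)))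
(S (nat_lit 41229) (S (nat_lit 20811) (S (nat_lit 19826) (S (nat_lit 35177) (L (nat_lit 15340459))
(L (nat_lit 11585947)))
(L (nat_lit 15583403)))
(S (nat_lit 51608) (L (nat_lit 26461236))
(L (nat_lit 6414252))))
(L (nat_lit 25250157)))))
(L (nat_lit 25399826)))))
(S (nat_lit 54851) (S (nat_lit 25) (S (nat_lit 15371) (S (nat_lit 10949) (S (nat_lit 40743) (L (nat_lit 17036868))
(L (nat_lit 633277)))
(L (nat_lit 26434981)))
(S (nat_lit 35135) (S (nat_lit 28890) (L (nat_lit 14732538))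
(S (nat_lit 30699) (S (nat_lit 21770) (S (nat_lit 54901) (L (nat_lit 7392828))
(L (nat_lit 21491720)))
(L (nat_lit 21180507)))
(L (nat_lit 13672156))))
(S (nat_lit 54899) (S (nat_lit 1763) (S (nat_lit 40743) (S (nat_lit 30730) (L (nat_lit 7390845))
(L (nat_lit 19831203)))
(L (nat_lit 7451261)))
(L (nat_lit 19968936)))
(L (nat_lit 25542834)))))
(S (nat_lit 19789) (S (nat_lit 1776) (S (nat_lit 57038) (L (nat_lit 19075515))
(L (nat_lit 18936076)))
(S (nat_lit 21540) (S (nat_lit 54837) (L (nat_lit 14901920))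
(L (nat_lit 13692646)))
(S (nat_lit 41304) (S (nat_lit 57038) (L (nat_lit 14882456))
(L (nat_lit 4414350)))
(L (nat_lit 25921003)))))
(S (nat_lit 39553) (S (nat_lit 1975) (S (nat_lit 57099) (S (nat_lit 48351) (S (nat_lit 50319) (L (nat_lit 28327252))
(L (nat_lit 30611087)))
(L (nat_lit 11351156)))
(L (nat_lit 11356271)))
(S (nat_lit 21739) (S (nat_lit 21021) (S (nat_lit 40790) (S (nat_lit 19778) (S (nat_lit 39570) (S (nat_lit 35073) (S (nat_lit 41547) (S (nat_lit 2006) (S (nat_lit 47) (S (nat_lit 8762) (L (nat_lit 3457659))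
(S (nat_lit 28526) (L (nat_lit 13411446))
(S (nat_lit 48290) (L (nat_lit 20220440))
(L (nat_lit 25208557)))))
(L (nat_lit 6985520)))
(L (nat_lit 26416880)))
(L (nat_lit 27269804)))
(L (nat_lit 19984592)))
(L (nat_lit 12248237)))
(L (nat_lit 15791755)))
(L (nat_lit 9492920)))
(L (nat_lit 30453452)))
(S (nat_lit 41503) (S (nat_lit 5281) (L (nat_lit 16839954))
(S (nat_lit 21021) (L (nat_lit 10532628))
(L (nat_lit 30453453))))
(L (nat_lit 25212148)))))
(L (nat_lit 25209550)))))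
(L (nat_lit 25178388)))))
(S (nat_lit 21755) (S (nat_lit 17510) (S (nat_lit 48351) (S (nat_lit 1277) (S (nat_lit 20778) (S (nat_lit 50463) (S (nat_lit 48290) (S (nat_lit 20761) (L (nat_lit 9050028))
(L (nat_lit 16654048)))
(L (nat_lit 15944581)))
(L (nat_lit 14877341)))
(S (nat_lit 22314) (L (nat_lit 26744486))
(L (nat_lit 16700708))))
(S (nat_lit 21041) (S (nat_lit 20778) (S (nat_lit 40564) (S (nat_lit 20761) (S (nat_lit 48290) (S (nat_lit 54912) (S (nat_lit 50463) (S (nat_lit 21512) (S (nat_lit 41304) (S (nat_lit 15351) (S (nat_lit 8790) (S (nat_lit 39590) (S (nat_lit 43017) (S (nat_lit 24853) (S (nat_lit 39553) (S (nat_lit 18649) (S (nat_lit 31883) (S (nat_lit 38201) (S (nat_lit 6469) (D (nat_lit 11) (nat_lit 30118347) (nat_lit 19055371) (nat_lit 71109251268))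
(L (nat_lit 28715745)))
(L (nat_lit 9357825)))
(L (nat_lit 9358848)))
(S (nat_lit 49868) (S (nat_lit 50128) (S (nat_lit 56446) (S (nat_lit 58457) (D (nat_lit 11) (nat_lit 30023854) (nat_lit 19259909) (nat_lit 70970840325))
(L (nat_lit 29951526)))
(L (nat_lit 10309088)))
(L (nat_lit 10308065)))
(L (nat_lit 15009466))))
(L (nat_lit 5090030)))
(L (nat_lit 16474182)))
(L (nat_lit 15070944)))
(L (nat_lit 12399300)))
(L (nat_lit 15583584)))
(L (nat_lit 22309281)))
(L (nat_lit 1270413)))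
(L (nat_lit 16516712)))
(L (nat_lit 14878582)))
(L (nat_lit 16389435)))
(L (nat_lit 15943770)))
(L (nat_lit 15820020)))
(L (nat_lit 7398836)))
(L (nat_lit 21772514)))
(S (nat_lit 40805) (S (nat_lit 10960) (S (nat_lit 41291) (S (nat_lit 40562) (L (nat_lit 8008794))
(L (nat_lit 7915578)))
(L (nat_lit 27308774)))
(L (nat_lit 8172194)))
(L (nat_lit 25407575)))))
(L (nat_lit 16421147)))
(S (nat_lit 37274) (S (nat_lit 1014) (S (nat_lit 30763) (S (nat_lit 21496) (L (nat_lit 5721897))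
(L (nat_lit 701354)))
(L (nat_lit 9093181)))
(S (nat_lit 20778) (S (nat_lit 17558) (S (nat_lit 40564) (S (nat_lit 50527) (S (nat_lit 41260) (S (nat_lit 21512) (L (nat_lit 30461318))
(L (nat_lit 5741179)))
(L (nat_lit 1766639)))
(L (nat_lit 22874600)))
(L (nat_lit 8207936)))
(S (nat_lit 37322) (S (nat_lit 41260) (S (nat_lit 50527) (S (nat_lit 28587) (L (nat_lit 7837273))
(L (nat_lit 10272320)))
(L (nat_lit 15064931)))
(L (nat_lit 3977895)))
(S (nat_lit 57086) (S (nat_lit 8748) (S (nat_lit 50527) (S (nat_lit 40807) (S (nat_lit 41503) (S (nat_lit 48301) (S (nat_lit 12533) (S (nat_lit 30724) (S (nat_lit 39570) (S (nat_lit 35740) (S (nat_lit 21512) (S (nat_lit 40790) (S (nat_lit 1969) (S (nat_lit 48338) (S (nat_lit 19839) (S (nat_lit 8812) (S (nat_lit 6226) (S (nat_lit 6209) (S (nat_lit 26465) (S (nat_lit 19532) (S (nat_lit 14502) (D (nat_lit 13) (nat_lit 30053712) (nat_lit 6906405) (nat_lit 38822543560))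
(L (nat_lit 31175877)))
(L (nat_lit 27384360)))
(L (nat_lit 17132101)))
(L (nat_lit 27932867)))
(S (nat_lit 13320) (S (nat_lit 10144) (S (nat_lit 30333) (S (nat_lit 42625) (D (nat_lit 11) (nat_lit 29036751) (nat_lit 1849929) (nat_lit 103148523681))
(L (nat_lit 29711877)))
(L (nat_lit 22588162)))
(L (nat_lit 29709828)))
(L (nat_lit 10611437))))
(L (nat_lit 6474545)))
(L (nat_lit 2829068)))
(L (nat_lit 4899659)))
(L (nat_lit 20727041)))
(L (nat_lit 24314298)))
(L (nat_lit 14702905)))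
(L (nat_lit 11190083)))
(L (nat_lit 5947142)))
(L (nat_lit 16978552)))
(L (nat_lit 8291918)))
(L (nat_lit 15931065)))
(L (nat_lit 24588164)))
(L (nat_lit 8131150)))
(L (nat_lit 15534728)))
(L (nat_lit 14686998)))
(L (nat_lit 25517444)))))
(S (nat_lit 40542) (S (nat_lit 1019) (S (nat_lit 48301) (L (nat_lit 4421010))
(L (nat_lit 27475127)))
(S (nat_lit 20783) (S (nat_lit 21026) (L (nat_lit 3367319))
(L (nat_lit 1563931)))
(S (nat_lit 40547) (S (nat_lit 37260) (S (nat_lit 41276) (L (nat_lit 30629281))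
(L (nat_lit 27952552)))
(L (nat_lit 10126161)))
(L (nat_lit 25188745)))))
(L (nat_lit 25827876)))))
(S (nat_lit 57038) (S (nat_lit 1975) (S (nat_lit 1763) (S (nat_lit 1034) (S (nat_lit 8823) (S (nat_lit 50527) (S (nat_lit 30699) (L (nat_lit 10510993))
(L (nat_lit 18936359)))
(L (nat_lit 12929954)))
(L (nat_lit 26915943)))
(L (nat_lit 19969961)))
(L (nat_lit 19969960)))
(S (nat_lit 21739) (S (nat_lit 50527) (S (nat_lit 40562) (S (nat_lit 20767) (S (nat_lit 1944) (L (nat_lit 11203695))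
(L (nat_lit 12367429)))
(L (nat_lit 12236709)))
(L (nat_lit 24163642)))
(L (nat_lit 27964643)))
(S (nat_lit 41503) (S (nat_lit 28537) (S (nat_lit 41260) (S (nat_lit 1003) (S (nat_lit 1763) (S (nat_lit 35120) (S (nat_lit 40743) (S (nat_lit 34484) (S (nat_lit 40807) (S (nat_lit 35073) (S (nat_lit 40500) (S (nat_lit 26976) (S (nat_lit 39570) (S (nat_lit 37260) (S (nat_lit 64) (S (nat_lit 57055) (S (nat_lit 27040) (S (nat_lit 1047) (S (nat_lit 50510) (S (nat_lit 2047) (S (nat_lit 29713) (S (nat_lit 18359) (S (nat_lit 21191) (S (nat_lit 31593) (D (nat_lit 13) (nat_lit 27927010) (nat_lit 25662770) (nat_lit 6707939907748))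
(L (nat_lit 21262756)))
(L (nat_lit 10411492)))
(L (nat_lit 29044903)))
(L (nat_lit 21868897)))
(S (nat_lit 51876) (S (nat_lit 19350) (S (nat_lit 12622) (S (nat_lit 17406) (D (nat_lit 11) (nat_lit 26951718) (nat_lit 19672581) (nat_lit 242227302))
(L (nat_lit 27926704)))
(L (nat_lit 29829698)))
(L (nat_lit 27933028)))
(L (nat_lit 7467663))))
(L (nat_lit 22129516)))
(L (nat_lit 2356877)))
(L (nat_lit 1602935)))
(L (nat_lit 15402297)))
(L (nat_lit 7518810)))
(L (nat_lit 20146656)))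
(L (nat_lit 23182717)))
(L (nat_lit 931028)))
(L (nat_lit 24261979)))
(L (nat_lit 19962332)))
(L (nat_lit 18616660)))
(L (nat_lit 26391892)))
(L (nat_lit 24294749)))
(L (nat_lit 20886724)))
(L (nat_lit 18921352)))
(L (nat_lit 9090234)))
(L (nat_lit 1750919)))
(L (nat_lit 18921256)))
(L (nat_lit 25865263)))))
(L (nat_lit 25745669)))))
(S (nat_lit 41519) (S (nat_lit 17558) (S (nat_lit 10960) (S (nat_lit 2006) (S (nat_lit 36719) (L (nat_lit 26228084))
(S (nat_lit 50527) (S (nat_lit 40547) (S (nat_lit 35120) (L (nat_lit 29442258))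
(L (nat_lit 23868613)))
(L (nat_lit 23290275)))
(L (nat_lit 22406627))))
(S (nat_lit 21770) (S (nat_lit 21722) (S (nat_lit 50525) (S (nat_lit 54899) (S (nat_lit 48276) (L (nat_lit 10946136))
(L (nat_lit 22911424)))
(L (nat_lit 16516434)))
(L (nat_lit 22807884)))
(S (nat_lit 40712) (L (nat_lit 26263890))
(L (nat_lit 22405570))))
(S (nat_lit 41534) (S (nat_lit 41229) (S (nat_lit 21026) (L (nat_lit 17833563))
(L (nat_lit 16522848)))
(S (nat_lit 53463) (L (nat_lit 26675573))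
(L (nat_lit 24278381))))
(L (nat_lit 25241143)))))
(S (nat_lit 30724) (S (nat_lit 39553) (S (nat_lit 28554) (S (nat_lit 40575) (S (nat_lit 41260) (L (nat_lit 1308119))
(L (nat_lit 3831242)))
(L (nat_lit 24177096)))
(L (nat_lit 18445664)))
(L (nat_lit 23093615)))
(S (nat_lit 50488) (S (nat_lit 1732) (L (nat_lit 466619))
(S (nat_lit 21496) (S (nat_lit 54901) (L (nat_lit 16389894))
(L (nat_lit 14295971)))
(S (nat_lit 41260) (S (nat_lit 15373) (S (nat_lit 48276) (S (nat_lit 1014) (S (nat_lit 8773) (S (nat_lit 75) (S (nat_lit 20761) (S (nat_lit 10949) (S (nat_lit 40547) (S (nat_lit 21507) (S (nat_lit 28526) (S (nat_lit 1715) (S (nat_lit 43411) (S (nat_lit 43378) (S (nat_lit 5731) (S (nat_lit 1944) (S (nat_lit 5683) (S (nat_lit 50494) (S (nat_lit 31572) (S (nat_lit 6020) (S (nat_lit 38374) (S (nat_lit 49199) (S (nat_lit 48483) (D (nat_lit 13) (nat_lit 25802083) (nat_lit 18997705) (nat_lit 6597246098661))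
(L (nat_lit 30125572)))
(L (nat_lit 29954441)))
(L (nat_lit 19294437)))
(L (nat_lit 29995205)))
(S (nat_lit 58808) (S (nat_lit 29921) (S (nat_lit 52322) (D (nat_lit 15) (nat_lit 27866372) (nat_lit 19664205) (nat_lit 36512500836))
(L (nat_lit 10310796)))
(L (nat_lit 27867365)))
(L (nat_lit 10128954))))
(L (nat_lit 5021421)))
(L (nat_lit 17565318)))
(L (nat_lit 10227090)))
(L (nat_lit 2018758)))
(L (nat_lit 8263404)))
(L (nat_lit 11273868)))
(L (nat_lit 12374192)))
(L (nat_lit 9899957)))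
(L (nat_lit 21455042)))
(L (nat_lit 16999011)))
(L (nat_lit 8178181)))
(L (nat_lit 15271229)))
(L (nat_lit 1601842)))
(L (nat_lit 26432684)))
(L (nat_lit 9059204)))
(L (nat_lit 27924928)))
(L (nat_lit 17441539)))
(L (nat_lit 25179381)))))
(L (nat_lit 25374898)))))
(S (nat_lit 37322) (S (nat_lit 1019) (S (nat_lit 19811) (S (nat_lit 1715) (S (nat_lit 41514) (L (nat_lit 14589505))
(L (nat_lit 23531803)))
(L (nat_lit 19700912)))
(L (nat_lit 9900667)))
(S (nat_lit 20783) (S (nat_lit 11010) (S (nat_lit 50477) (S (nat_lit 21540) (L (nat_lit 8401811))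
(L (nat_lit 21857739)))
(L (nat_lit 22921291)))
(S (nat_lit 54695) (L (nat_lit 14934657))
(L (nat_lit 6755188))))
(S (nat_lit 40547) (S (nat_lit 30774) (S (nat_lit 39575) (S (nat_lit 28512) (S (nat_lit 35087) (S (nat_lit 1014) (S (nat_lit 1763) (S (nat_lit 54879) (S (nat_lit 48307) (S (nat_lit 41260) (S (nat_lit 1715) (S (nat_lit 50488) (S (nat_lit 54313) (S (nat_lit 39542) (S (nat_lit 57024) (S (nat_lit 20767) (S (nat_lit 21465) (S (nat_lit 48301) (S (nat_lit 1240) (S (nat_lit 13945) (S (nat_lit 40368) (S (nat_lit 56732) (S (nat_lit 12984) (S (nat_lit 29142) (D (nat_lit 13) (nat_lit 29994125) (nat_lit 19369739) (nat_lit 2378441164993))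
(L (nat_lit 20358979)))
(L (nat_lit 27577731)))
(L (nat_lit 29992322)))
(L (nat_lit 19805538)))
(S (nat_lit 15757) (S (nat_lit 55754) (S (nat_lit 12051) (S (nat_lit 17977) (S (nat_lit 21672) (D (nat_lit 13) (nat_lit 31179947) (nat_lit 19437321) (nat_lit 2444039915680))
(L (nat_lit 19833253)))
(L (nat_lit 31011077)))
(L (nat_lit 27962916)))
(L (nat_lit 30129441)))
(L (nat_lit 16010362))))
(L (nat_lit 19677473)))
(L (nat_lit 20135683)))
(L (nat_lit 8210852)))
(L (nat_lit 702219)))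
(L (nat_lit 12622711)))
(L (nat_lit 24159736)))
(L (nat_lit 26942510)))
(L (nat_lit 12801859)))
(L (nat_lit 10270902)))
(L (nat_lit 3976879)))
(L (nat_lit 20323202)))
(L (nat_lit 19154753)))
(L (nat_lit 19423489)))
(L (nat_lit 13297768)))
(L (nat_lit 9919397)))
(L (nat_lit 9916474)))
(L (nat_lit 10967909)))
(S (nat_lit 33260) (L (nat_lit 29821513))
(L (nat_lit 3630388))))
(L (nat_lit 25837825)))))
(S (nat_lit 57086) (S (nat_lit 1969) (S (nat_lit 8790) (S (nat_lit 17538) (S (nat_lit 986) (L (nat_lit 28530113))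
(L (nat_lit 26608297)))
(L (nat_lit 26329463)))
(S (nat_lit 28554) (S (nat_lit 1765) (S (nat_lit 1975) (S (nat_lit 997) (L (nat_lit 29608047))
(L (nat_lit 13405894)))
(L (nat_lit 10341828)))
(L (nat_lit 19000687)))
(S (nat_lit 48318) (S (nat_lit 17543) (S (nat_lit 21507) (L (nat_lit 1526136))
(L (nat_lit 21929004)))
(L (nat_lit 1362428)))
(L (nat_lit 25451937)))))
(S (nat_lit 21733) (S (nat_lit 1765) (S (nat_lit 20800) (S (nat_lit 40547) (S (nat_lit 50494) (S (nat_lit 21041) (L (nat_lit 28520530))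
(L (nat_lit 1356507)))
(L (nat_lit 5029448)))
(L (nat_lit 8020387)))
(L (nat_lit 30643790)))
(S (nat_lit 21529) (S (nat_lit 50525) (S (nat_lit 40790) (L (nat_lit 706442))
(L (nat_lit 7399863)))
(L (nat_lit 5709432)))
(S (nat_lit 41293) (S (nat_lit 8790) (S (nat_lit 20761) (S (nat_lit 10949) (S (nat_lit 17571) (S (nat_lit 8748) (S (nat_lit 17496) (S (nat_lit 75) (S (nat_lit 972) (S (nat_lit 41486) (S (nat_lit 39575) (S (nat_lit 39590) (S (nat_lit 40743) (S (nat_lit 55951) (S (nat_lit 52143) (S (nat_lit 19662) (S (nat_lit 9392) (S (nat_lit 6556) (D (nat_lit 15) (nat_lit 30792785) (nat_lit 19664298) (nat_lit 77477255363))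
(L (nat_lit 30095585)))
(L (nat_lit 27899170)))
(S (nat_lit 25055) (S (nat_lit 9635) (S (nat_lit 49698) (S (nat_lit 4811) (S (nat_lit 23028) (S (nat_lit 5509) (D (nat_lit 13) (nat_lit 30823558) (nat_lit 805321) (nat_lit 4398221692962))
(L (nat_lit 30974036)))
(L (nat_lit 25050404)))
(L (nat_lit 30065953)))
(L (nat_lit 30129441)))
(L (nat_lit 27966820)))
(L (nat_lit 2712969))))
(L (nat_lit 29577327)))
(L (nat_lit 31007201)))
(L (nat_lit 25080936)))
(L (nat_lit 4550198)))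
(L (nat_lit 4696666)))
(L (nat_lit 615912)))
(L (nat_lit 26626372)))
(L (nat_lit 8110200)))
(L (nat_lit 779815)))
(L (nat_lit 15474304)))
(L (nat_lit 16094069)))
(L (nat_lit 1712974)))
(L (nat_lit 21390438)))
(L (nat_lit 15540372)))
(L (nat_lit 25382991)))))
(S (nat_lit 41497) (S (nat_lit 17521) (S (nat_lit 10949) (S (nat_lit 8773) (S (nat_lit 40547) (S (nat_lit 8762) (L (nat_lit 5910808))
(L (nat_lit 8178212)))
(L (nat_lit 27461015)))
(L (nat_lit 21017979)))
(L (nat_lit 256531)))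
(S (nat_lit 37285) (S (nat_lit 19806) (S (nat_lit 10949) (L (nat_lit 27309427))
(L (nat_lit 18058067)))
(L (nat_lit 2810221)))
(S (nat_lit 57049) (S (nat_lit 17538) (S (nat_lit 48351) (L (nat_lit 20722822))
(L (nat_lit 22405230)))
(L (nat_lit 22099320)))
(L (nat_lit 25217389)))))
(L (nat_lit 25582666)))))
(L (nat_lit 25646437)))))
(L (nat_lit 25216614)))))
(S (nat_lit 21010) (S (nat_lit 8810) (S (nat_lit 15356) (S (nat_lit 8795) (S (nat_lit 14) (S (nat_lit 17496) (S (nat_lit 21496) (S (nat_lit 8748) (S (nat_lit 10997) (S (nat_lit 21739) (S (nat_lit 15323) (L (nat_lit 24328380))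
(L (nat_lit 26905903)))
(L (nat_lit 5000647)))
(L (nat_lit 26679972)))
(L (nat_lit 17617121)))
(L (nat_lit 8008893)))
(S (nat_lit 18063) (S (nat_lit 21733) (S (nat_lit 21739) (L (nat_lit 24909965))
(L (nat_lit 15380388)))
(L (nat_lit 21823695)))
(L (nat_lit 1270263))))
(S (nat_lit 19778) (S (nat_lit 10982) (S (nat_lit 21739) (S (nat_lit 17543) (S (nat_lit 46055) (L (nat_lit 11031461))
(L (nat_lit 14770389)))
(L (nat_lit 22549259)))
(L (nat_lit 4682069)))
(S (nat_lit 11549) (S (nat_lit 20993) (L (nat_lit 7093892))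
(L (nat_lit 14967456)))
(L (nat_lit 1503445))))
(S (nat_lit 39542) (S (nat_lit 17538) (S (nat_lit 11010) (S (nat_lit 40757) (L (nat_lit 17920372))
(L (nat_lit 7460752)))
(L (nat_lit 1976852)))
(L (nat_lit 1357749)))
(L (nat_lit 25601110)))))
(S (nat_lit 28559) (S (nat_lit 27423) (L (nat_lit 616687))
(S (nat_lit 40575) (S (nat_lit 14) (S (nat_lit 17558) (L (nat_lit 6911492))
(L (nat_lit 6709157)))
(L (nat_lit 7957988)))
(L (nat_lit 8143492))))
(S (nat_lit 48323) (S (nat_lit 21496) (S (nat_lit 43863) (S (nat_lit 17538) (S (nat_lit 10982) (L (nat_lit 26293493))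
(L (nat_lit 895477)))
(L (nat_lit 24393632)))
(S (nat_lit 50505) (S (nat_lit 17538) (S (nat_lit 8790) (S (nat_lit 15351) (L (nat_lit 5524302))
(L (nat_lit 14977941)))
(L (nat_lit 26790240)))
(L (nat_lit 6928289)))
(L (nat_lit 22099325))))
(S (nat_lit 52128) (L (nat_lit 599981))
(L (nat_lit 5590959))))
(L (nat_lit 25934858)))))
(S (nat_lit 35120) (S (nat_lit 1944) (S (nat_lit 10966) (S (nat_lit 40564) (S (nat_lit 20811) (S (nat_lit 10949) (L (nat_lit 21086091))
(L (nat_lit 21771557)))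
(L (nat_lit 15787379)))
(L (nat_lit 1813945)))
(S (nat_lit 30730) (S (nat_lit 21026) (S (nat_lit 20800) (L (nat_lit 7181746))
(L (nat_lit 11583064)))
(S (nat_lit 47691) (S (nat_lit 41229) (L (nat_lit 3457661))
(L (nat_lit 2010546)))
(L (nat_lit 12321206))))
(S (nat_lit 50494) (S (nat_lit 10949) (S (nat_lit 40805) (S (nat_lit 57099) (S (nat_lit 40514) (S (nat_lit 75) (S (nat_lit 41291) (S (nat_lit 21043) (S (nat_lit 1257) (S (nat_lit 21004) (S (nat_lit 35135) (S (nat_lit 8762) (S (nat_lit 1215) (S (nat_lit 972) (S (nat_lit 28587) (S (nat_lit 17560) (S (nat_lit 46252) (S (nat_lit 56274) (S (nat_lit 28860) (S (nat_lit 33773) (S (nat_lit 31290) (D (nat_lit 9) (nat_lit 26883393) (nat_lit 25767085) (nat_lit 244817495298))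
(L (nat_lit 28979555)))
(L (nat_lit 28908657)))
(L (nat_lit 28528034)))
(L (nat_lit 20376768)))
(S (nat_lit 48889) (S (nat_lit 13459) (S (nat_lit 7478) (S (nat_lit 55302) (S (nat_lit 31539) (S (nat_lit 21184) (D (nat_lit 9) (nat_lit 26810817) (nat_lit 19666285) (nat_lit 206427098241))
(L (nat_lit 27932930)))
(L (nat_lit 28901800)))
(L (nat_lit 20376933)))
(L (nat_lit 30854437)))
(L (nat_lit 28724517)))
(L (nat_lit 401113))))
(L (nat_lit 26883298)))
(L (nat_lit 10270432)))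
(L (nat_lit 26627330)))
(L (nat_lit 9211314)))
(L (nat_lit 15517989)))
(L (nat_lit 20758852)))
(L (nat_lit 22282781)))
(L (nat_lit 19971384)))
(L (nat_lit 15519846)))
(L (nat_lit 17878296)))
(L (nat_lit 536249)))
(L (nat_lit 24024553)))
(L (nat_lit 6043957)))
(L (nat_lit 23082234)))
(L (nat_lit 21761324)))
(L (nat_lit 25592392)))))
(S (nat_lit 21708) (S (nat_lit 10977) (S (nat_lit 17558) (S (nat_lit 50477) (L (nat_lit 3625341))
(L (nat_lit 15633715)))
(L (nat_lit 1467732)))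
(S (nat_lit 30741) (S (nat_lit 21496) (S (nat_lit 41486) (S (nat_lit 41271) (S (nat_lit 2006) (S (nat_lit 1701) (S (nat_lit 54912) (S (nat_lit 40500) (S (nat_lit 37322) (S (nat_lit 11010) (S (nat_lit 21479) (S (nat_lit 35073) (S (nat_lit 57088) (S (nat_lit 3262) (S (nat_lit 41254) (S (nat_lit 39553) (S (nat_lit 986) (S (nat_lit 26020) (S (nat_lit 1804) (S (nat_lit 16189) (S (nat_lit 38461) (D (nat_lit 15) (nat_lit 27855401) (nat_lit 25758989) (nat_lit 206264541442))
(L (nat_lit 27866246)))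
(L (nat_lit 27865379)))
(S (nat_lit 52161) (S (nat_lit 15703) (S (nat_lit 30353) (S (nat_lit 19395) (S (nat_lit 40653) (D (nat_lit 13) (nat_lit 27840805) (nat_lit 19054345) (nat_lit 1280002163936))
(L (nat_lit 19735661)))
(L (nat_lit 29996107)))
(L (nat_lit 20375777)))
(L (nat_lit 27865408)))
(L (nat_lit 629583))))
(L (nat_lit 27755114)))
(L (nat_lit 14471177)))
(L (nat_lit 18028373)))
(L (nat_lit 1665231)))
(L (nat_lit 28390773)))
(L (nat_lit 15066787)))
(L (nat_lit 3849095)))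
(L (nat_lit 16667654)))
(L (nat_lit 8057967)))
(L (nat_lit 10056132)))
(L (nat_lit 8309156)))
(L (nat_lit 16591553)))
(L (nat_lit 9587096)))
(L (nat_lit 4076758)))
(L (nat_lit 1981651)))
(L (nat_lit 7197152)))
(L (nat_lit 8146373)))
(S (nat_lit 50505) (S (nat_lit 20767) (S (nat_lit 57066) (L (nat_lit 29046083))
(L (nat_lit 4944239)))
(L (nat_lit 21467517)))
(L (nat_lit 25444502)))))
(S (nat_lit 41472) (S (nat_lit 42) (S (nat_lit 11895) (L (nat_lit 5622704))
(S (nat_lit 21496) (S (nat_lit 41291) (S (nat_lit 10949) (S (nat_lit 20767) (L (nat_lit 18042757))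
(L (nat_lit 6959128)))
(L (nat_lit 1558845)))
(S (nat_lit 45106) (L (nat_lit 1536279))
(L (nat_lit 7026433))))
(L (nat_lit 8303796))))
(S (nat_lit 19806) (S (nat_lit 40547) (S (nat_lit 41291) (S (nat_lit 1975) (S (nat_lit 21496) (S (nat_lit 39592) (S (nat_lit 57049) (S (nat_lit 1215) (S (nat_lit 10949) (S (nat_lit 54901) (S (nat_lit 30730) (S (nat_lit 21770) (S (nat_lit 20761) (S (nat_lit 29477) (S (nat_lit 17538) (S (nat_lit 15309) (S (nat_lit 9923) (S (nat_lit 58854) (S (nat_lit 19811) (S (nat_lit 39305) (S (nat_lit 34202) (S (nat_lit 11853) (S (nat_lit 14472) (D (nat_lit 15) (nat_lit 27774144) (nat_lit 18997517) (nat_lit 38889622630))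
(L (nat_lit 28904872)))
(L (nat_lit 31016193)))
(S (nat_lit 52152) (S (nat_lit 36616) (S (nat_lit 47730) (D (nat_lit 15) (nat_lit 28365070) (nat_lit 19063116) (nat_lit 43052472516))
(L (nat_lit 29511147)))
(L (nat_lit 19740995)))
(L (nat_lit 17065076))))
(L (nat_lit 9318580)))
(L (nat_lit 14806602)))
(L (nat_lit 22350735)))
(L (nat_lit 22407341)))
(L (nat_lit 22546215)))
(L (nat_lit 22918496)))
(L (nat_lit 9287297)))
(L (nat_lit 15306539)))
(L (nat_lit 30984448)))
(L (nat_lit 17537955)))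
(L (nat_lit 27757779)))
(L (nat_lit 7094387)))
(L (nat_lit 9227683)))
(L (nat_lit 21474115)))
(L (nat_lit 24307113)))
(L (nat_lit 21767182)))
(L (nat_lit 19375259)))
(L (nat_lit 1783560)))
(S (nat_lit 42788) (L (nat_lit 15436710))
(L (nat_lit 16948856))))
(S (nat_lit 39570) (S (nat_lit 10949) (S (nat_lit 40785) (L (nat_lit 23291055))
(L (nat_lit 8029965)))
(L (nat_lit 21761324)))
(L (nat_lit 25835841)))))
(L (nat_lit 25610597)))))
(S (nat_lit 54884) (S (nat_lit 2006) (S (nat_lit 11141) (S (nat_lit 21496) (S (nat_lit 86) (L (nat_lit 28854629))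
(L (nat_lit 15753899)))
(L (nat_lit 15395045)))
(S (nat_lit 20811) (S (nat_lit 21496) (S (nat_lit 13045) (L (nat_lit 14836294))
(S (nat_lit 21540) (S (nat_lit 50488) (L (nat_lit 5624591))
(L (nat_lit 14705320)))
(L (nat_lit 15426884))))
(L (nat_lit 15475893)))
(L (nat_lit 14788531))))
(S (nat_lit 21770) (S (nat_lit 21496) (S (nat_lit 10977) (S (nat_lit 39684) (L (nat_lit 24174957))
(S (nat_lit 40575) (S (nat_lit 40562) (S (nat_lit 10960) (L (nat_lit 731919))
(L (nat_lit 7925911)))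
(L (nat_lit 17090616)))
(L (nat_lit 8111293))))
(L (nat_lit 281519)))
(S (nat_lit 35540) (L (nat_lit 15308679))
(L (nat_lit 22047055))))
(S (nat_lit 41534) (S (nat_lit 21496) (S (nat_lit 10977) (S (nat_lit 17571) (S (nat_lit 20767) (S (nat_lit 10949) (L (nat_lit 7817339))
(L (nat_lit 18630949)))
(L (nat_lit 16533670)))
(S (nat_lit 56939) (L (nat_lit 257459))
(L (nat_lit 1460504))))
(S (nat_lit 30661) (L (nat_lit 6896545))
(L (nat_lit 7943320))))
(S (nat_lit 40229) (L (nat_lit 15042136))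
(L (nat_lit 15394983))))
(L (nat_lit 25734167)))))
(L (nat_lit 25448965)))))
(S (nat_lit 28574) (S (nat_lit 8790) (S (nat_lit 10949) (S (nat_lit 8823) (S (nat_lit 1860) (L (nat_lit 1293976))
(S (nat_lit 57038) (S (nat_lit 17538) (S (nat_lit 41486) (S (nat_lit 40547) (L (nat_lit 26915915))
(L (nat_lit 8280481)))
(L (nat_lit 17371942)))
(L (nat_lit 16353656)))
(L (nat_lit 21557508))))
(S (nat_lit 28587) (S (nat_lit 21496) (S (nat_lit 41291) (S (nat_lit 40805) (S (nat_lit 25) (S (nat_lit 14) (S (nat_lit 17571) (S (nat_lit 30741) (S (nat_lit 54912) (S (nat_lit 21026) (S (nat_lit 35120) (S (nat_lit 19811) (S (nat_lit 20736) (S (nat_lit 38209) (S (nat_lit 30541) (S (nat_lit 15026) (S (nat_lit 11878) (S (nat_lit 3562) (D (nat_lit 15) (nat_lit 28825737) (nat_lit 19666189) (nat_lit 42010187971))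
(L (nat_lit 29046052)))
(L (nat_lit 31013091)))
(S (nat_lit 30935) (S (nat_lit 17106) (S (nat_lit 16916) (S (nat_lit 14540) (S (nat_lit 50822) (D (nat_lit 15) (nat_lit 30496139) (nat_lit 19259777) (nat_lit 106367787140))
(L (nat_lit 28760386)))
(L (nat_lit 31045673)))
(L (nat_lit 28909092)))
(L (nat_lit 28790020)))
(L (nat_lit 6778563))))
(L (nat_lit 20459425)))
(L (nat_lit 15772438)))
(L (nat_lit 31008908)))
(L (nat_lit 31080677)))
(L (nat_lit 9125700)))
(L (nat_lit 21170585)))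
(L (nat_lit 16408832)))
(L (nat_lit 8468092)))
(L (nat_lit 26364207)))
(L (nat_lit 6908388)))
(L (nat_lit 20148398)))
(L (nat_lit 7425592)))
(L (nat_lit 1625368)))
(S (nat_lit 27976) (L (nat_lit 5617586))
(L (nat_lit 21327886))))
(S (nat_lit 48351) (S (nat_lit 41679) (L (nat_lit 18618421))
(S (nat_lit 50510) (S (nat_lit 1279) (S (nat_lit 39553) (S (nat_lit 21496) (L (nat_lit 8246757))
(L (nat_lit 11290798)))
(L (nat_lit 23079694)))
(L (nat_lit 9147150)))
(L (nat_lit 22129518))))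
(L (nat_lit 25343284)))))
(S (nat_lit 30713) (S (nat_lit 20811) (S (nat_lit 21496) (S (nat_lit 21465) (L (nat_lit 22812845))
(L (nat_lit 14995268)))
(L (nat_lit 7367311)))
(L (nat_lit 15441828)))
(S (nat_lit 50477) (S (nat_lit 1914) (L (nat_lit 1298936))
(S (nat_lit 17496) (S (nat_lit 15309) (S (nat_lit 57066) (L (nat_lit 2322866))
(L (nat_lit 14967957)))
(L (nat_lit 7112366)))
(L (nat_lit 18520120))))
(L (nat_lit 25732676)))))
(S (nat_lit 28554) (S (nat_lit 1257) (S (nat_lit 17510) (S (nat_lit 8463) (L (nat_lit 21804324))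
(S (nat_lit 40547) (S (nat_lit 41293) (L (nat_lit 8029693))
(L (nat_lit 1842799)))
(L (nat_lit 1515096))))
(L (nat_lit 26916132)))
(S (nat_lit 21021) (S (nat_lit 1726) (S (nat_lit 17510) (S (nat_lit 986) (S (nat_lit 21529) (L (nat_lit 29077578))
(L (nat_lit 22082863)))
(L (nat_lit 14439619)))
(L (nat_lit 22810026)))
(S (nat_lit 21490) (S (nat_lit 20800) (S (nat_lit 21496) (S (nat_lit 21783) (S (nat_lit 20811) (L (nat_lit 28449266))
(L (nat_lit 16483708)))
(L (nat_lit 16488604)))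
(L (nat_lit 31106062)))
(L (nat_lit 30448021)))
(S (nat_lit 41254) (S (nat_lit 32735) (L (nat_lit 18122549))
(S (nat_lit 57099) (S (nat_lit 57086) (S (nat_lit 64) (S (nat_lit 21004) (L (nat_lit 30973973))
(L (nat_lit 16326433)))
(L (nat_lit 13783849)))
(L (nat_lit 15490186)))
(L (nat_lit 15065205))))
(L (nat_lit 25581760)))))
(S (nat_lit 40785) (S (nat_lit 17510) (S (nat_lit 21496) (S (nat_lit 41291) (S (nat_lit 41547) (S (nat_lit 19806) (L (nat_lit 17837721))
(L (nat_lit 16535904)))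
(L (nat_lit 18619013)))
(L (nat_lit 7026433)))
(L (nat_lit 11187968)))
(S (nat_lit 37274) (S (nat_lit 21540) (S (nat_lit 35073) (S (nat_lit 21755) (L (nat_lit 30051632))
(L (nat_lit 22481211)))
(L (nat_lit 8450736)))
(S (nat_lit 55189) (L (nat_lit 30751395))
(L (nat_lit 22059948))))
(S (nat_lit 57038) (S (nat_lit 40564) (S (nat_lit 21755) (S (nat_lit 11010) (S (nat_lit 8823) (S (nat_lit 40500) (S (nat_lit 15371) (S (nat_lit 47955) (S (nat_lit 19839) (S (nat_lit 35120) (S (nat_lit 8779) (S (nat_lit 39553) (S (nat_lit 48002) (S (nat_lit 28207) (S (nat_lit 14197) (S (nat_lit 56382) (S (nat_lit 882) (S (nat_lit 12817) (D (nat_lit 15) (nat_lit 27995180) (nat_lit 6709362) (nat_lit 104227407936))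
(L (nat_lit 31144010)))
(L (nat_lit 29042049)))
(S (nat_lit 57630) (S (nat_lit 29696) (S (nat_lit 16172) (D (nat_lit 15) (nat_lit 29961764) (nat_lit 805133) (nat_lit 6547315847))
(L (nat_lit 28949673)))
(L (nat_lit 15652034)))
(L (nat_lit 30944373))))
(L (nat_lit 28023983)))
(L (nat_lit 12255640)))
(L (nat_lit 16548181)))
(L (nat_lit 16821012)))
(L (nat_lit 6404978)))
(L (nat_lit 10402866)))
(L (nat_lit 8542714)))
(L (nat_lit 2019819)))
(L (nat_lit 22976933)))
(L (nat_lit 25080068)))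
(L (nat_lit 7008640)))
(L (nat_lit 7008672)))
(L (nat_lit 22249915)))
(L (nat_lit 17887573)))
(L (nat_lit 25412292)))))
(L (nat_lit 25865763)))))
(S (nat_lit 48318) (S (nat_lit 42) (S (nat_lit 1337) (L (nat_lit 22840811))
(S (nat_lit 21739) (S (nat_lit 21496) (S (nat_lit 20767) (S (nat_lit 972) (S (nat_lit 1215) (S (nat_lit 1701) (S (nat_lit 21529) (S (nat_lit 21043) (S (nat_lit 28526) (S (nat_lit 48351) (S (nat_lit 1944) (S (nat_lit 30741) (S (nat_lit 57049) (S (nat_lit 50527) (S (nat_lit 1257) (S (nat_lit 21902) (S (nat_lit 21490) (S (nat_lit 1743) (S (nat_lit 35135) (S (nat_lit 43801) (S (nat_lit 17864) (S (nat_lit 11336) (S (nat_lit 16972) (S (nat_lit 24603) (S (nat_lit 24360) (S (nat_lit 49698) (D (nat_lit 11) (nat_lit 25756071) (nat_lit 13387881) (nat_lit 138582130848))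
(L (nat_lit 29963275)))
(L (nat_lit 27674946)))
(L (nat_lit 27674947)))
(L (nat_lit 29995266)))
(L (nat_lit 27898115)))
(S (nat_lit 44551) (S (nat_lit 48741) (S (nat_lit 48498) (S (nat_lit 31572) (S (nat_lit 40208) (S (nat_lit 20377) (D (nat_lit 11) (nat_lit 26917030) (nat_lit 25768107) (nat_lit 139828854880))
(L (nat_lit 28983464)))
(L (nat_lit 21472037)))
(L (nat_lit 28947464)))
(L (nat_lit 19330404)))
(L (nat_lit 19330405)))
(L (nat_lit 16797020))))
(L (nat_lit 1537396)))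
(L (nat_lit 31015082)))
(L (nat_lit 26542643)))
(L (nat_lit 15820522)))
(L (nat_lit 7752613)))
(L (nat_lit 12800901)))
(L (nat_lit 12929954)))
(L (nat_lit 15373692)))
(L (nat_lit 14421332)))
(L (nat_lit 20755813)))
(L (nat_lit 14428737)))
(L (nat_lit 12831653)))
(L (nat_lit 22569131)))
(L (nat_lit 22569317)))
(L (nat_lit 14453107)))
(L (nat_lit 14459059)))
(L (nat_lit 14453075)))
(L (nat_lit 30427627)))
(L (nat_lit 30755296)))
(L (nat_lit 1567399))))
(S (nat_lit 19806) (S (nat_lit 20750) (S (nat_lit 21512) (S (nat_lit 21026) (S (nat_lit 37285) (S (nat_lit 21021) (L (nat_lit 23562120))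
(L (nat_lit 31078474)))
(L (nat_lit 31109256)))
(L (nat_lit 22977952)))
(L (nat_lit 21488995)))
(S (nat_lit 36408) (S (nat_lit 35540) (L (nat_lit 23892333))
(L (nat_lit 24211947)))
(L (nat_lit 21132656))))
(S (nat_lit 39570) (S (nat_lit 10966) (S (nat_lit 17521) (S (nat_lit 20811) (S (nat_lit 17496) (L (nat_lit 12355214))
(L (nat_lit 1754887)))
(L (nat_lit 7114195)))
(L (nat_lit 15945883)))
(S (nat_lit 30730) (S (nat_lit 21465) (L (nat_lit 24939887))
(L (nat_lit 15003795)))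
(S (nat_lit 50494) (S (nat_lit 10982) (S (nat_lit 30774) (S (nat_lit 20761) (L (nat_lit 782727))
(L (nat_lit 16013368)))
(L (nat_lit 30812737)))
(L (nat_lit 23163371)))
(L (nat_lit 25238967)))))
(L (nat_lit 25667265)))))
(L (nat_lit 25928880)))))
(S (nat_lit 48338) (S (nat_lit 17558) (S (nat_lit 10960) (S (nat_lit 1215) (S (nat_lit 50505) (S (nat_lit 20811) (L (nat_lit 15041112))
(L (nat_lit 22848996)))
(L (nat_lit 22848655)))
(S (nat_lit 20979) (S (nat_lit 21496) (S (nat_lit 20811) (S (nat_lit 17510) (S (nat_lit 40807) (L (nat_lit 26510804))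
(L (nat_lit 23327137)))
(L (nat_lit 7097452)))
(L (nat_lit 31179946)))
(L (nat_lit 21767653)))
(S (nat_lit 40743) (S (nat_lit 21479) (S (nat_lit 20811) (S (nat_lit 25) (L (nat_lit 26728619))
(L (nat_lit 1668430)))
(L (nat_lit 6352557)))
(L (nat_lit 22475942)))
(L (nat_lit 25272908)))))
(S (nat_lit 30724) (S (nat_lit 21496) (S (nat_lit 22094) (S (nat_lit 20811) (L (nat_lit 5530101))
(L (nat_lit 22060972)))
(S (nat_lit 50505) (S (nat_lit 20811) (S (nat_lit 21465) (S (nat_lit 20979) (L (nat_lit 30605715))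
(L (nat_lit 31012010)))
(L (nat_lit 31012196)))
(L (nat_lit 22275524)))
(L (nat_lit 11321526))))
(S (nat_lit 31366) (L (nat_lit 666141))
(L (nat_lit 21303800))))
(S (nat_lit 50488) (S (nat_lit 21496) (S (nat_lit 7653) (L (nat_lit 16554164))
(S (nat_lit 19789) (S (nat_lit 50505) (S (nat_lit 21529) (S (nat_lit 21043) (S (nat_lit 20767) (L (nat_lit 12808341))
(L (nat_lit 12235965)))
(L (nat_lit 14692245)))
(L (nat_lit 14882709)))
(L (nat_lit 11092157)))
(L (nat_lit 14900408))))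
(S (nat_lit 50813) (L (nat_lit 500410))
(L (nat_lit 7516856))))
(L (nat_lit 25742505)))))
(S (nat_lit 37322) (S (nat_lit 1732) (S (nat_lit 997) (L (nat_lit 23164174))
(L (nat_lit 20712751)))
(S (nat_lit 21496) (S (nat_lit 1969) (S (nat_lit 17496) (S (nat_lit 8748) (S (nat_lit 50525) (L (nat_lit 6069903))
(L (nat_lit 5642936)))
(S (nat_lit 14282) (L (nat_lit 24910276))
(L (nat_lit 17584353))))
(S (nat_lit 37182) (S (nat_lit 56864) (L (nat_lit 6915951))
(L (nat_lit 6981112)))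
(L (nat_lit 6783765))))
(S (nat_lit 21733) (S (nat_lit 17496) (S (nat_lit 50525) (S (nat_lit 20761) (S (nat_lit 21004) (L (nat_lit 30802163))
(L (nat_lit 16359268)))
(L (nat_lit 21261423)))
(L (nat_lit 10880696)))
(S (nat_lit 26276) (L (nat_lit 5053874))
(L (nat_lit 1841653))))
(S (nat_lit 41497) (S (nat_lit 17496) (S (nat_lit 20767) (S (nat_lit 41291) (S (nat_lit 40805) (L (nat_lit 12093365))
(L (nat_lit 24425496)))
(L (nat_lit 24229080)))
(S (nat_lit 45478) (L (nat_lit 30426484))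
(L (nat_lit 30586229))))
(L (nat_lit 6994968)))
(L (nat_lit 25757966)))))
(S (nat_lit 41260) (S (nat_lit 17496) (S (nat_lit 10949) (L (nat_lit 520842))
(L (nat_lit 7127621)))
(L (nat_lit 1851047)))
(L (nat_lit 25832623)))))
(S (nat_lit 57086) (S (nat_lit 1748) (S (nat_lit 1003) (S (nat_lit 30761) (S (nat_lit 50527) (S (nat_lit 39553) (S (nat_lit 21496) (S (nat_lit 21755) (S (nat_lit 39570) (S (nat_lit 54851) (S (nat_lit 35073) (S (nat_lit 28526) (S (nat_lit 8748) (S (nat_lit 57066) (S (nat_lit 47) (S (nat_lit 40547) (S (nat_lit 17418) (S (nat_lit 19839) (S (nat_lit 51312) (S (nat_lit 17482) (S (nat_lit 38142) (S (nat_lit 34299) (S (nat_lit 54306) (D (nat_lit 15) (nat_lit 12874304) (nat_lit 3950924) (nat_lit 240524468390))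
(L (nat_lit 23537757)))
(L (nat_lit 27998219)))
(S (nat_lit 47164) (S (nat_lit 18194) (S (nat_lit 47201) (D (nat_lit 15) (nat_lit 28000549) (nat_lit 1853834) (nat_lit 7687117960))
(L (nat_lit 21831728)))
(L (nat_lit 30095402)))
(L (nat_lit 13246337))))
(L (nat_lit 30022796)))
(L (nat_lit 15911133)))
(L (nat_lit 3534477)))
(L (nat_lit 835925)))
(L (nat_lit 1761673)))
(L (nat_lit 26918955)))
(L (nat_lit 11223227)))
(L (nat_lit 26222222)))
(L (nat_lit 9462165)))
(L (nat_lit 9454421)))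
(L (nat_lit 11455876)))
(L (nat_lit 24605024)))
(L (nat_lit 31114592)))
(L (nat_lit 8057312)))
(L (nat_lit 24351566)))
(L (nat_lit 27725448)))
(L (nat_lit 31114597)))
(S (nat_lit 20767) (S (nat_lit 21739) (S (nat_lit 21496) (S (nat_lit 9317) (L (nat_lit 9625357))
(S (nat_lit 10935) (S (nat_lit 19789) (S (nat_lit 1986) (L (nat_lit 20178097))
(L (nat_lit 20383627)))
(L (nat_lit 15542421)))
(L (nat_lit 18488064))))
(L (nat_lit 31108576)))
(L (nat_lit 30879361)))
(S (nat_lit 40531) (S (nat_lit 17496) (S (nat_lit 21496) (S (nat_lit 20761) (S (nat_lit 40785) (L (nat_lit 6787989))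
(L (nat_lit 8033101)))
(L (nat_lit 31032559)))
(L (nat_lit 11176440)))
(L (nat_lit 694776)))
(L (nat_lit 25833664)))))
(S (nat_lit 21512) (S (nat_lit 30199) (L (nat_lit 16084114))
(S (nat_lit 50525) (S (nat_lit 54899) (S (nat_lit 8773) (S (nat_lit 20761) (S (nat_lit 17496) (S (nat_lit 20750) (S (nat_lit 10949) (S (nat_lit 19811) (S (nat_lit 40807) (S (nat_lit 21507) (S (nat_lit 25) (S (nat_lit 48351) (S (nat_lit 20696) (S (nat_lit 20736) (S (nat_lit 40493) (S (nat_lit 40477) (S (nat_lit 40488) (S (nat_lit 1240) (S (nat_lit 41389) (S (nat_lit 30730) (S (nat_lit 1144) (S (nat_lit 4837) (S (nat_lit 14087) (S (nat_lit 3774) (S (nat_lit 4048) (S (nat_lit 45532) (S (nat_lit 41918) (D (nat_lit 13) (nat_lit 27318511) (nat_lit 19664393) (nat_lit 6633613754432))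
(L (nat_lit 21390593)))
(L (nat_lit 29999397)))
(L (nat_lit 28809268)))
(L (nat_lit 28875425)))
(L (nat_lit 31016196)))
(S (nat_lit 22609) (S (nat_lit 44241) (S (nat_lit 13601) (S (nat_lit 5792) (S (nat_lit 42805) (S (nat_lit 5334) (D (nat_lit 13) (nat_lit 30920899) (nat_lit 25761072) (nat_lit 2305327896768))
(L (nat_lit 31175968)))
(L (nat_lit 19809601)))
(L (nat_lit 30944930)))
(L (nat_lit 31015139)))
(L (nat_lit 28918083)))
(L (nat_lit 10536788))))
(L (nat_lit 29988174)))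
(L (nat_lit 24544536)))
(L (nat_lit 29050113)))
(L (nat_lit 19068142)))
(L (nat_lit 11583251)))
(L (nat_lit 22066396)))
(L (nat_lit 21227937)))
(L (nat_lit 30749284)))
(L (nat_lit 19363169)))
(L (nat_lit 20722944)))
(L (nat_lit 18918286)))
(L (nat_lit 15342714)))
(L (nat_lit 27507265)))
(L (nat_lit 21261733)))
(L (nat_lit 210773)))
(L (nat_lit 30561649)))
(L (nat_lit 22512888)))
(L (nat_lit 21896303)))
(L (nat_lit 8001019)))
(L (nat_lit 16582002)))
(L (nat_lit 4824472))))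
(S (nat_lit 41276) (S (nat_lit 1003) (S (nat_lit 57066) (S (nat_lit 48318) (S (nat_lit 50527) (L (nat_lit 12755549))
(L (nat_lit 27725448)))
(L (nat_lit 27674976)))
(L (nat_lit 27899232)))
(S (nat_lit 20767) (S (nat_lit 19789) (S (nat_lit 21739) (S (nat_lit 15414) (S (nat_lit 21529) (S (nat_lit 40547) (S (nat_lit 57038) (S (nat_lit 37285) (S (nat_lit 41534) (S (nat_lit 54879) (S (nat_lit 40757) (S (nat_lit 15420) (S (nat_lit 50488) (S (nat_lit 40805) (S (nat_lit 50414) (S (nat_lit 50494) (S (nat_lit 1701) (S (nat_lit 37324) (S (nat_lit 1215) (S (nat_lit 22595) (S (nat_lit 25560) (S (nat_lit 9154) (S (nat_lit 9397) (S (nat_lit 14674) (S (nat_lit 6992) (D (nat_lit 11) (nat_lit 26804460) (nat_lit 19673193) (nat_lit 39832453216))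
(L (nat_lit 31147363)))
(L (nat_lit 27663446)))
(L (nat_lit 30095553)))
(L (nat_lit 30095552)))
(L (nat_lit 27933025)))
(S (nat_lit 57246) (S (nat_lit 49698) (S (nat_lit 18145) (S (nat_lit 17902) (S (nat_lit 33287) (S (nat_lit 47509) (D (nat_lit 11) (nat_lit 25788620) (nat_lit 19674217) (nat_lit 177375183072))
(L (nat_lit 29953546)))
(L (nat_lit 19443457)))
(L (nat_lit 29938880)))
(L (nat_lit 29938881)))
(L (nat_lit 29963616)))
(L (nat_lit 14019639))))
(L (nat_lit 5843385)))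
(L (nat_lit 31007792)))
(L (nat_lit 20342050)))
(L (nat_lit 11305549)))
(L (nat_lit 14451274)))
(L (nat_lit 8099600)))
(L (nat_lit 5923272)))
(L (nat_lit 3891502)))
(L (nat_lit 27887047)))
(L (nat_lit 21098864)))
(L (nat_lit 6310672)))
(L (nat_lit 30427504)))
(L (nat_lit 27318574)))
(L (nat_lit 27483553)))
(L (nat_lit 31136910)))
(L (nat_lit 27740512)))
(L (nat_lit 30755268)))
(L (nat_lit 22943086)))
(S (nat_lit 40531) (S (nat_lit 17496) (S (nat_lit 42) (S (nat_lit 21496) (S (nat_lit 28537) (L (nat_lit 28322229))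
(L (nat_lit 19337592)))
(L (nat_lit 11176440)))
(L (nat_lit 19335544)))
(L (nat_lit 694776)))
(L (nat_lit 25864640)))))
(L (nat_lit 25860515)))))
(L (nat_lit 25822602)))))
(L (nat_lit 25352525)))))
(S (nat_lit 40774) (S (nat_lit 1277) (S (nat_lit 62) (S (nat_lit 1765) (S (nat_lit 1257) (S (nat_lit 17168) (L (nat_lit 7883520))
(S (nat_lit 57049) (S (nat_lit 1986) (L (nat_lit 5795562))
(L (nat_lit 13685641)))
(L (nat_lit 27480237))))
(S (nat_lit 21021) (S (nat_lit 8748) (S (nat_lit 48290) (L (nat_lit 14878330))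
(L (nat_lit 22229797)))
(S (nat_lit 25997) (L (nat_lit 19709281))
(L (nat_lit 26425985))))
(S (nat_lit 40785) (S (nat_lit 40575) (S (nat_lit 57049) (L (nat_lit 29577292))
(L (nat_lit 27504790)))
(S (nat_lit 43879) (L (nat_lit 26366256))
(L (nat_lit 10192781))))
(L (nat_lit 25528013)))))
(S (nat_lit 21529) (S (nat_lit 1715) (S (nat_lit 10960) (S (nat_lit 25) (S (nat_lit 40531) (S (nat_lit 20798) (L (nat_lit 4420053))
(L (nat_lit 256720)))
(L (nat_lit 27479214)))
(L (nat_lit 12612948)))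
(L (nat_lit 8000922)))
(S (nat_lit 21479) (S (nat_lit 9640) (L (nat_lit 7898779))
(S (nat_lit 40575) (S (nat_lit 8812) (L (nat_lit 21896204))
(L (nat_lit 936393)))
(L (nat_lit 8085516))))
(S (nat_lit 41243) (S (nat_lit 10949) (S (nat_lit 17521) (S (nat_lit 8773) (L (nat_lit 873863))
(L (nat_lit 7827639)))
(L (nat_lit 8057008)))
(S (nat_lit 30713) (S (nat_lit 40547) (L (nat_lit 17068212))
(L (nat_lit 1270199)))
(S (nat_lit 50477) (S (nat_lit 58876) (L (nat_lit 26415695))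
(L (nat_lit 3356252)))
(L (nat_lit 25378901)))))
(L (nat_lit 25803782)))))
(S (nat_lit 41293) (S (nat_lit 1279) (S (nat_lit 986) (S (nat_lit 21054) (S (nat_lit 17496) (L (nat_lit 6371964))
(L (nat_lit 1752871)))
(L (nat_lit 21496188)))
(S (nat_lit 20750) (S (nat_lit 17521) (L (nat_lit 29010062))
(L (nat_lit 578473)))
(S (nat_lit 40514) (S (nat_lit 3265) (L (nat_lit 257525))
(L (nat_lit 27723060)))
(L (nat_lit 25499281)))))
(S (nat_lit 21043) (S (nat_lit 24727) (L (nat_lit 970153))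
(S (nat_lit 30724) (S (nat_lit 39553) (S (nat_lit 1732) (S (nat_lit 50510) (S (nat_lit 21507) (L (nat_lit 11417219))
(L (nat_lit 502492)))
(L (nat_lit 20756490)))
(L (nat_lit 19737774)))
(L (nat_lit 24340623)))
(L (nat_lit 24684701))))
(S (nat_lit 40807) (S (nat_lit 17538) (S (nat_lit 8790) (L (nat_lit 15409024))
(L (nat_lit 576423)))
(L (nat_lit 735143)))
(L (nat_lit 25696865)))))
(L (nat_lit 25219374)))))
(S (nat_lit 19826) (S (nat_lit 15356) (S (nat_lit 57049) (S (nat_lit 17571) (L (nat_lit 568244))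
(L (nat_lit 8276480)))
(L (nat_lit 27838633)))
(S (nat_lit 35120) (S (nat_lit 28512) (S (nat_lit 37260) (L (nat_lit 2830584))
(L (nat_lit 19929999)))
(L (nat_lit 12589972)))
(S (nat_lit 54884) (S (nat_lit 1991) (S (nat_lit 8810) (S (nat_lit 17558) (L (nat_lit 16428188))
(L (nat_lit 16385404)))
(S (nat_lit 30624) (L (nat_lit 1593721))
(L (nat_lit 1560956))))
(S (nat_lit 21755) (S (nat_lit 10949) (S (nat_lit 8773) (S (nat_lit 17521) (L (nat_lit 22812015))
(L (nat_lit 18073754)))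
(L (nat_lit 23311514)))
(L (nat_lit 15752509)))
(S (nat_lit 41519) (S (nat_lit 39895) (L (nat_lit 20743473))
(S (nat_lit 48307) (S (nat_lit 37307) (L (nat_lit 9324963))
(L (nat_lit 31139852)))
(L (nat_lit 14452456))))
(L (nat_lit 25419138)))))
(L (nat_lit 25891274)))))
(S (nat_lit 39590) (S (nat_lit 11010) (S (nat_lit 30724) (S (nat_lit 41486) (S (nat_lit 20979) (S (nat_lit 1986) (S (nat_lit 35120) (S (nat_lit 50510) (S (nat_lit 54912) (S (nat_lit 1047) (S (nat_lit 40547) (S (nat_lit 20761) (S (nat_lit 8823) (S (nat_lit 30741) (S (nat_lit 21755) (S (nat_lit 39553) (S (nat_lit 21507) (S (nat_lit 57038) (S (nat_lit 48323) (S (nat_lit 26537) (S (nat_lit 64) (S (nat_lit 47910) (S (nat_lit 32369) (S (nat_lit 29453) (S (nat_lit 37612) (D (nat_lit 11) (nat_lit 28026992) (nat_lit 19672174) (nat_lit 35537326308))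
(L (nat_lit 28859621)))
(L (nat_lit 3067431)))
(L (nat_lit 3067398)))
(S (nat_lit 48717) (S (nat_lit 9463) (S (nat_lit 16677) (S (nat_lit 19593) (D (nat_lit 11) (nat_lit 26946605) (nat_lit 19670192) (nat_lit 173021286))
(L (nat_lit 27926705)))
(L (nat_lit 27933866)))
(L (nat_lit 29860580)))
(L (nat_lit 13362403))))
(L (nat_lit 13312803)))
(L (nat_lit 29873441)))
(L (nat_lit 27839717)))
(L (nat_lit 15653157)))
(L (nat_lit 30583501)))
(L (nat_lit 18427715)))
(L (nat_lit 11191104)))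
(L (nat_lit 17058593)))
(S (nat_lit 28587) (S (nat_lit 54851) (S (nat_lit 1715) (S (nat_lit 21507) (S (nat_lit 50527) (S (nat_lit 8795) (S (nat_lit 17543) (S (nat_lit 40757) (S (nat_lit 55002) (S (nat_lit 15731) (S (nat_lit 19778) (S (nat_lit 19415) (S (nat_lit 18864) (S (nat_lit 15035) (S (nat_lit 18649) (S (nat_lit 8988) (D (nat_lit 13) (nat_lit 18117285) (nat_lit 25544815) (nat_lit 3334041829378))
(L (nat_lit 31046976)))
(L (nat_lit 30126336)))
(L (nat_lit 30097576)))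
(L (nat_lit 27932842)))
(S (nat_lit 37595) (S (nat_lit 42662) (S (nat_lit 49399) (S (nat_lit 17692) (S (nat_lit 30135) (D (nat_lit 13) (nat_lit 27930881) (nat_lit 19670127) (nat_lit 1309160932482))
(L (nat_lit 27351593)))
(L (nat_lit 31135885)))
(L (nat_lit 28744353)))
(L (nat_lit 21427521)))
(L (nat_lit 4072948))))
(L (nat_lit 9467382)))
(L (nat_lit 30060865)))
(L (nat_lit 30064930)))
(L (nat_lit 25006448)))
(L (nat_lit 18125588)))
(L (nat_lit 23368463)))
(L (nat_lit 11202576)))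
(L (nat_lit 30877746)))
(L (nat_lit 2730832)))
(L (nat_lit 11455876)))
(S (nat_lit 48351) (S (nat_lit 30741) (S (nat_lit 50527) (S (nat_lit 41229) (S (nat_lit 57071) (S (nat_lit 41547) (S (nat_lit 35137) (S (nat_lit 39553) (S (nat_lit 4798) (S (nat_lit 39570) (S (nat_lit 35073) (S (nat_lit 28576) (S (nat_lit 41276) (S (nat_lit 1212) (S (nat_lit 49382) (S (nat_lit 19856) (S (nat_lit 24241) (S (nat_lit 3388) (D (nat_lit 13) (nat_lit 30097636) (nat_lit 19668079) (nat_lit 7733127479360))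
(L (nat_lit 30098603)))
(L (nat_lit 23997954)))
(L (nat_lit 24001764)))
(L (nat_lit 15617312)))
(S (nat_lit 32322) (S (nat_lit 32386) (S (nat_lit 38218) (S (nat_lit 9125) (D (nat_lit 11) (nat_lit 31106498) (nat_lit 19193966) (nat_lit 71005445223))
(L (nat_lit 27864545)))
(L (nat_lit 16613995)))
(L (nat_lit 16613962)))
(L (nat_lit 29939938))))
(L (nat_lit 27935011)))
(L (nat_lit 2925010)))
(L (nat_lit 2877895)))
(L (nat_lit 10577427)))
(L (nat_lit 11328032)))
(L (nat_lit 24129358)))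
(L (nat_lit 31066348)))
(L (nat_lit 8411643)))
(L (nat_lit 13330475)))
(L (nat_lit 8801373)))
(L (nat_lit 22376496)))
(L (nat_lit 24393505)))
(L (nat_lit 25316656)))))
(L (nat_lit 22450022)))
(L (nat_lit 27777347)))
(S (nat_lit 20811) (S (nat_lit 1019) (S (nat_lit 40525) (S (nat_lit 446) (L (nat_lit 28643794))
(S (nat_lit 8790) (L (nat_lit 28521524))
(S (nat_lit 47226) (S (nat_lit 21026) (L (nat_lit 14854776))
(L (nat_lit 21465927)))
(L (nat_lit 1338870)))))
(L (nat_lit 10043452)))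
(L (nat_lit 2762513)))
(S (nat_lit 40575) (S (nat_lit 20783) (S (nat_lit 997) (S (nat_lit 2368) (L (nat_lit 5696756))
(S (nat_lit 5551) (S (nat_lit 39542) (L (nat_lit 5553015))
(L (nat_lit 25010660)))
(S (nat_lit 37307) (L (nat_lit 9111032))
(L (nat_lit 23604283)))))
(L (nat_lit 4801850)))
(L (nat_lit 21458179)))
(L (nat_lit 25484772)))))
(L (nat_lit 21768304)))
(L (nat_lit 22307301)))
(L (nat_lit 2894290)))
(L (nat_lit 19118169)))
(L (nat_lit 22885544)))
(L (nat_lit 23243224)))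
(S (nat_lit 58611) (L (nat_lit 14752658))
(L (nat_lit 31142210))))
(S (nat_lit 30774) (S (nat_lit 8922) (S (nat_lit 8790) (L (nat_lit 8172658))
(L (nat_lit 903655)))
(S (nat_lit 54912) (S (nat_lit 35120) (S (nat_lit 20979) (S (nat_lit 1986) (S (nat_lit 50488) (S (nat_lit 41486) (S (nat_lit 10982) (S (nat_lit 1991) (S (nat_lit 41497) (S (nat_lit 972) (S (nat_lit 40562) (S (nat_lit 28866) (L (nat_lit 9835101))
(S (nat_lit 35104) (S (nat_lit 14) (S (nat_lit 25) (S (nat_lit 50477) (S (nat_lit 18341) (L (nat_lit 1262173))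
(L (nat_lit 7159364)))
(L (nat_lit 27473476)))
(L (nat_lit 20714024)))
(L (nat_lit 20343883)))
(L (nat_lit 20880930))))
(L (nat_lit 28027395)))
(S (nat_lit 6646) (L (nat_lit 9062240))
(S (nat_lit 35717) (L (nat_lit 10604957))
(L (nat_lit 19326210)))))
(L (nat_lit 27885839)))
(S (nat_lit 21755) (S (nat_lit 41547) (S (nat_lit 1969) (S (nat_lit 10999) (S (nat_lit 19778) (S (nat_lit 30713) (S (nat_lit 39553) (S (nat_lit 1240) (S (nat_lit 21708) (S (nat_lit 13804) (S (nat_lit 33855) (L (nat_lit 3520186))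
(L (nat_lit 27870500)))
(S (nat_lit 37322) (L (nat_lit 28385686))
(L (nat_lit 17668740))))
(L (nat_lit 1362765)))
(L (nat_lit 20751873)))
(L (nat_lit 12148878)))
(L (nat_lit 30450099)))
(L (nat_lit 16343114)))
(S (nat_lit 26033) (L (nat_lit 15772249))
(S (nat_lit 54521) (L (nat_lit 8565501))
(L (nat_lit 16682632)))))
(L (nat_lit 14418197)))
(L (nat_lit 9175724)))
(S (nat_lit 41519) (S (nat_lit 54879) (S (nat_lit 30741) (S (nat_lit 21733) (S (nat_lit 10949) (S (nat_lit 1262) (S (nat_lit 40768) (S (nat_lit 40807) (S (nat_lit 21021) (S (nat_lit 21739) (S (nat_lit 30699) (S (nat_lit 41534) (S (nat_lit 1944) (S (nat_lit 1014) (S (nat_lit 1047) (S (nat_lit 1765) (S (nat_lit 1732) (S (nat_lit 21479) (S (nat_lit 40562) (S (nat_lit 40547) (S (nat_lit 1602) (S (nat_lit 51350) (S (nat_lit 55760) (S (nat_lit 2171) (S (nat_lit 21866) (S (nat_lit 11261) (S (nat_lit 38374) (S (nat_lit 29446) (S (nat_lit 17822) (D (nat_lit 15) (nat_lit 29966378) (nat_lit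 4994633) (nat_lit 145062168609))
(L (nat_lit 29015265)))
(L (nat_lit 21939493)))
(S (nat_lit 47658) (S (nat_lit 37307) (S (nat_lit 8743) (S (nat_lit 49088) (D (nat_lit 11) (nat_lit 27918763) (nat_lit 7802642) (nat_lit 273682689))
(L (nat_lit 21438552)))
(L (nat_lit 29892759)))
(L (nat_lit 23604101)))
(L (nat_lit 28774987))))
(L (nat_lit 27933770)))
(L (nat_lit 28400102)))
(L (nat_lit 30953824)))
(L (nat_lit 23443640)))
(L (nat_lit 21439672)))
(S (nat_lit 41820) (S (nat_lit 19584) (S (nat_lit 30418) (S (nat_lit 10914) (S (nat_lit 38862) (S (nat_lit 48741) (S (nat_lit 44838) (S (nat_lit 1199) (S (nat_lit 20894) (S (nat_lit 52289) (D (nat_lit 13) (nat_lit 11691596) (nat_lit 8505106) (nat_lit 5780088824000))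
(L (nat_lit 21807296)))
(L (nat_lit 26951873)))
(S (nat_lit 56389) (S (nat_lit 57947) (S (nat_lit 28860) (D (nat_lit 15) (nat_lit 26819750) (nat_lit 12608073) (nat_lit 248239100961))
(L (nat_lit 28982626)))
(L (nat_lit 29906273)))
(L (nat_lit 9962108))))
(L (nat_lit 21195300)))
(L (nat_lit 4713812)))
(L (nat_lit 21433163)))
(L (nat_lit 30846565)))
(L (nat_lit 21939271)))
(L (nat_lit 28977699)))
(S (nat_lit 46780) (S (nat_lit 19647) (S (nat_lit 10797) (S (nat_lit 47040) (S (nat_lit 10803) (S (nat_lit 10289) (S (nat_lit 26985) (S (nat_lit 17527) (S (nat_lit 20488) (S (nat_lit 35510) (D (nat_lit 13) (nat_lit 27989512) (nat_lit 25759142) (nat_lit 6807624914152))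
(L (nat_lit 22987008)))
(L (nat_lit 9297379)))
(S (nat_lit 43035) (S (nat_lit 49232) (S (nat_lit 37608) (D (nat_lit 15) (nat_lit 25794022) (nat_lit 13370953) (nat_lit 141841047585))
(L (nat_lit 19738946)))
(L (nat_lit 29995267)))
(L (nat_lit 1367483))))
(L (nat_lit 27707585)))
(L (nat_lit 28629444)))
(L (nat_lit 19107662)))
(L (nat_lit 19117892)))
(L (nat_lit 11039397)))
(L (nat_lit 15037093)))
(L (nat_lit 2309906)))))
(L (nat_lit 18188214)))
(L (nat_lit 18150455)))
(L (nat_lit 31046662)))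
(L (nat_lit 19768805)))
(L (nat_lit 19840357)))
(L (nat_lit 19842404)))
(S (nat_lit 51414) (S (nat_lit 27925) (S (nat_lit 36656) (L (nat_lit 1327705))
(L (nat_lit 26849540)))
(L (nat_lit 26849538)))
(L (nat_lit 19741922))))
(L (nat_lit 20745609)))
(L (nat_lit 18042690)))
(L (nat_lit 17033268)))
(L (nat_lit 15648810)))
(L (nat_lit 4697906)))
(L (nat_lit 17920582)))
(L (nat_lit 18798881)))
(L (nat_lit 19394818)))
(L (nat_lit 18663498)))
(L (nat_lit 21423178)))
(L (nat_lit 24552289)))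
(L (nat_lit 21799088)))
(L (nat_lit 25630839)))))
(L (nat_lit 26978852)))
(L (nat_lit 27699872)))
(L (nat_lit 27273618)))
(L (nat_lit 19206680)))
(L (nat_lit 21837123)))
(L (nat_lit 30722565)))
(L (nat_lit 4999718))))
(S (nat_lit 50538) (S (nat_lit 10960) (S (nat_lit 20979) (S (nat_lit 30746) (S (nat_lit 41486) (S (nat_lit 54912) (S (nat_lit 1986) (S (nat_lit 35120) (S (nat_lit 47) (S (nat_lit 19839) (S (nat_lit 39553) (S (nat_lit 14709) (L (nat_lit 5658409))
(S (nat_lit 21708) (S (nat_lit 41503) (S (nat_lit 35073) (S (nat_lit 10997) (S (nat_lit 21026) (S (nat_lit 54851) (S (nat_lit 40757) (S (nat_lit 41338) (L (nat_lit 4534936))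
(S (nat_lit 58177) (S (nat_lit 19917) (L (nat_lit 4441688))
(L (nat_lit 26985696)))
(L (nat_lit 13978532))))
(L (nat_lit 25017536)))
(L (nat_lit 16426788)))
(L (nat_lit 15344827)))
(L (nat_lit 16701796)))
(L (nat_lit 30891046)))
(L (nat_lit 23131594)))
(S (nat_lit 49390) (L (nat_lit 11989604))
(L (nat_lit 11343468)))))
(L (nat_lit 27891208)))
(L (nat_lit 21866572)))
(S (nat_lit 19811) (S (nat_lit 39603) (S (nat_lit 25) (S (nat_lit 17538) (S (nat_lit 15323) (S (nat_lit 30741) (S (nat_lit 57024) (S (nat_lit 37335) (S (nat_lit 21770) (S (nat_lit 1991) (S (nat_lit 41243) (S (nat_lit 35104) (S (nat_lit 1290) (S (nat_lit 18354) (S (nat_lit 49705) (S (nat_lit 48318) (S (nat_lit 25731) (S (nat_lit 23872) (S (nat_lit 56526) (S (nat_lit 16625) (S (nat_lit 11171) (D (nat_lit 13) (nat_lit 26761568) (nat_lit 19670565) (nat_lit 110763376897))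
(L (nat_lit 30060773)))
(L (nat_lit 27958720)))
(L (nat_lit 7398990)))
(L (nat_lit 15584577)))
(S (nat_lit 47960) (S (nat_lit 51584) (S (nat_lit 13051) (S (nat_lit 54695) (S (nat_lit 44747) (D (nat_lit 13) (nat_lit 30722225) (nat_lit 25767397) (nat_lit 3578918898887))
(L (nat_lit 28982563)))
(L (nat_lit 28330506)))
(L (nat_lit 30984298)))
(L (nat_lit 28945826)))
(L (nat_lit 25011217))))
(L (nat_lit 20324539)))
(L (nat_lit 29958321)))
(L (nat_lit 6943855)))
(L (nat_lit 3727178)))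
(L (nat_lit 9552822)))
(L (nat_lit 27900227)))
(L (nat_lit 6150534)))
(L (nat_lit 1592166)))
(L (nat_lit 2993873)))
(L (nat_lit 21020519)))
(L (nat_lit 24546150)))
(L (nat_lit 547691)))
(S (nat_lit 37302) (S (nat_lit 30741) (S (nat_lit 41472) (S (nat_lit 1034) (S (nat_lit 41243) (S (nat_lit 21529) (S (nat_lit 1743) (S (nat_lit 48338) (S (nat_lit 37291) (S (nat_lit 40785) (S (nat_lit 57099) (S (nat_lit 17521) (S (nat_lit 39592) (S (nat_lit 34479) (S (nat_lit 25438) (S (nat_lit 23008) (S (nat_lit 5339) (D (nat_lit 11) (nat_lit 30661090) (nat_lit 19672515) (nat_lit 71074644993))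
(L (nat_lit 30126087)))
(L (nat_lit 23556288)))
(L (nat_lit 23587009)))
(S (nat_lit 45543) (S (nat_lit 14229) (S (nat_lit 26981) (S (nat_lit 7911) (D (nat_lit 11) (nat_lit 27445639) (nat_lit 25479619) (nat_lit 212877901920))
(L (nat_lit 29012291)))
(L (nat_lit 21365543)))
(L (nat_lit 28979522)))
(L (nat_lit 26358443))))
(L (nat_lit 17539100)))
(L (nat_lit 26229110)))
(L (nat_lit 27447599)))
(L (nat_lit 2759229)))
(L (nat_lit 20375810)))
(L (nat_lit 5938957)))
(L (nat_lit 4898008)))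
(L (nat_lit 30627200)))
(L (nat_lit 27859985)))
(L (nat_lit 9310960)))
(L (nat_lit 18478435)))
(L (nat_lit 18969967)))
(S (nat_lit 57066) (S (nat_lit 17558) (S (nat_lit 41497) (S (nat_lit 40547) (S (nat_lit 41229) (S (nat_lit 28574) (S (nat_lit 1975) (S (nat_lit 48276) (S (nat_lit 20736) (S (nat_lit 57071) (S (nat_lit 1279) (S (nat_lit 19174) (S (nat_lit 38645) (S (nat_lit 40785) (S (nat_lit 39592) (S (nat_lit 14) (S (nat_lit 23251) (S (nat_lit 36988) (S (nat_lit 16625) (S (nat_lit 3308) (S (nat_lit 11051) (D (nat_lit 13) (nat_lit 27611217) (nat_lit 25765349) (nat_lit 6639220594690))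
(L (nat_lit 27868516)))
(L (nat_lit 28029095)))
(L (nat_lit 27964583)))
(L (nat_lit 27664964)))
(S (nat_lit 27393) (S (nat_lit 45775) (S (nat_lit 54783) (S (nat_lit 52157) (S (nat_lit 32043) (D (nat_lit 13) (nat_lit 26367371) (nat_lit 25767461) (nat_lit 276018888934))
(L (nat_lit 19981736)))
(L (nat_lit 29991052)))
(L (nat_lit 29983175)))
(L (nat_lit 21863533)))
(L (nat_lit 26490932))))
(L (nat_lit 839952)))
(L (nat_lit 18215490)))
(L (nat_lit 10376709)))
(L (nat_lit 27274892)))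
(L (nat_lit 21455170)))
(L (nat_lit 12610118)))
(L (nat_lit 18987883)))
(L (nat_lit 21406530)))
(L (nat_lit 4413979)))
(L (nat_lit 3394382)))
(L (nat_lit 2933077)))
(L (nat_lit 23964812)))
(L (nat_lit 23904391)))
(L (nat_lit 385775)))
(L (nat_lit 382894)))
(L (nat_lit 25889223)))))
(L (nat_lit 797390)))
(L (nat_lit 23603291)))
(S (nat_lit 39575) (S (nat_lit 75) (S (nat_lit 2019) (S (nat_lit 40768) (S (nat_lit 40807) (S (nat_lit 35087) (S (nat_lit 15373) (S (nat_lit 1944) (S (nat_lit 3819) (L (nat_lit 5552762))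
(S (nat_lit 49585) (S (nat_lit 40514) (L (nat_lit 16951898))
(L (nat_lit 27867491)))
(L (nat_lit 23600249))))
(L (nat_lit 10030520)))
(L (nat_lit 25084969)))
(L (nat_lit 18045049)))
(L (nat_lit 27497038)))
(L (nat_lit 27614223)))
(S (nat_lit 21783) (L (nat_lit 4743443))
(S (nat_lit 41547) (S (nat_lit 37324) (L (nat_lit 13866685))
(L (nat_lit 23420973)))
(L (nat_lit 25445426)))))
(L (nat_lit 13510739)))
(L (nat_lit 25242038)))))
(L (nat_lit 20491077)))
(L (nat_lit 14329944)))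
(L (nat_lit 6040270)))
(L (nat_lit 895479)))
(L (nat_lit 30716612)))
(L (nat_lit 7162988)))
(L (nat_lit 797138)))
(L (nat_lit 25628982)))))
(L (nat_lit 25894404)))))
(S (nat_lit 21041) (S (nat_lit 8779) (S (nat_lit 15356) (S (nat_lit 8762) (S (nat_lit 17571) (L (nat_lit 11038805))
(L (nat_lit 6768728)))
(L (nat_lit 6768733)))
(S (nat_lit 35120) (S (nat_lit 21465) (S (nat_lit 20979) (L (nat_lit 6877761))
(L (nat_lit 4476749)))
(L (nat_lit 10571597)))
(S (nat_lit 54884) (S (nat_lit 17496) (S (nat_lit 21527) (L (nat_lit 16978804))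
(L (nat_lit 22229113)))
(L (nat_lit 1883878)))
(L (nat_lit 25793994)))))
(S (nat_lit 28543) (S (nat_lit 1262) (S (nat_lit 10977) (S (nat_lit 41291) (S (nat_lit 40575) (L (nat_lit 4509583))
(L (nat_lit 8120804)))
(L (nat_lit 7072880)))
(S (nat_lit 30741) (S (nat_lit 20800) (S (nat_lit 35115) (S (nat_lit 40500) (L (nat_lit 8226380))
(L (nat_lit 16861533)))
(L (nat_lit 12673671)))
(L (nat_lit 22606987)))
(S (nat_lit 50505) (S (nat_lit 10949) (L (nat_lit 4443581))
(L (nat_lit 1549917)))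
(L (nat_lit 25240175)))))
(S (nat_lit 21026) (S (nat_lit 8812) (S (nat_lit 21583) (L (nat_lit 1560953))
(S (nat_lit 41293) (S (nat_lit 8773) (S (nat_lit 17543) (L (nat_lit 7079535))
(L (nat_lit 1780492)))
(L (nat_lit 1883506)))
(L (nat_lit 9189984))))
(S (nat_lit 28576) (S (nat_lit 19828) (S (nat_lit 20800) (S (nat_lit 75) (S (nat_lit 21739) (S (nat_lit 30761) (L (nat_lit 12743273))
(L (nat_lit 2937196)))
(L (nat_lit 1746424)))
(L (nat_lit 14390553)))
(L (nat_lit 16512256)))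
(S (nat_lit 28630) (L (nat_lit 22100747))
(L (nat_lit 16486281))))
(S (nat_lit 48340) (S (nat_lit 10960) (S (nat_lit 17521) (S (nat_lit 8823) (L (nat_lit 19966424))
(L (nat_lit 1976912)))
(L (nat_lit 1855881)))
(L (nat_lit 1854921)))
(L (nat_lit 25517570)))))
(S (nat_lit 40790) (S (nat_lit 8823) (S (nat_lit 41514) (S (nat_lit 21527) (L (nat_lit 8121360))
(L (nat_lit 16557175)))
(L (nat_lit 24613149)))
(S (nat_lit 28587) (S (nat_lit 10977) (S (nat_lit 8773) (S (nat_lit 15384) (L (nat_lit 6723414))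
(L (nat_lit 1560856)))
(L (nat_lit 23117737)))
(S (nat_lit 33235) (L (nat_lit 4106828))
(L (nat_lit 17910136))))
(S (nat_lit 48351) (S (nat_lit 19811) (S (nat_lit 14) (S (nat_lit 37291) (S (nat_lit 21527) (S (nat_lit 41293) (L (nat_lit 554727))
(L (nat_lit 27798080)))
(L (nat_lit 30617719)))
(L (nat_lit 20246640)))
(L (nat_lit 8140918)))
(L (nat_lit 10229328)))
(L (nat_lit 25667702)))))
(L (nat_lit 25837737)))))
(S (nat_lit 48307) (S (nat_lit 1765) (S (nat_lit 1034) (S (nat_lit 53463) (L (nat_lit 28021222))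
(S (nat_lit 57038) (S (nat_lit 20767) (L (nat_lit 20985609))
(L (nat_lit 30427502)))
(L (nat_lit 4962090))))
(S (nat_lit 20798) (S (nat_lit 57099) (S (nat_lit 21770) (L (nat_lit 17601847))
(L (nat_lit 22229794)))
(L (nat_lit 21768608)))
(S (nat_lit 40562) (S (nat_lit 8795) (L (nat_lit 26978416))
(L (nat_lit 1324821)))
(L (nat_lit 25889008)))))
(S (nat_lit 21529) (S (nat_lit 1229) (S (nat_lit 1138) (S (nat_lit 10960) (S (nat_lit 39418) (L (nat_lit 14601410))
(L (nat_lit 7803732)))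
(L (nat_lit 7355002)))
(S (nat_lit 40531) (S (nat_lit 17521) (S (nat_lit 54868) (L (nat_lit 12452495))
(L (nat_lit 15824182)))
(L (nat_lit 22246541)))
(L (nat_lit 8172724))))
(S (nat_lit 20993) (S (nat_lit 21527) (S (nat_lit 19811) (S (nat_lit 17496) (S (nat_lit 10949) (L (nat_lit 28873044))
(L (nat_lit 26266123)))
(L (nat_lit 1818406)))
(L (nat_lit 15340761)))
(L (nat_lit 11268641)))
(S (nat_lit 40757) (S (nat_lit 3737) (L (nat_lit 5022319))
(S (nat_lit 21527) (S (nat_lit 10960) (S (nat_lit 8748) (S (nat_lit 20761) (L (nat_lit 16994051))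
(L (nat_lit 21890286)))
(L (nat_lit 1888774)))
(L (nat_lit 21801411)))
(L (nat_lit 10531639))))
(L (nat_lit 25795010)))))
(S (nat_lit 41293) (S (nat_lit 2019) (S (nat_lit 21465) (S (nat_lit 21527) (S (nat_lit 8795) (L (nat_lit 17508473))
(L (nat_lit 15444773)))
(L (nat_lit 22066457)))
(L (nat_lit 10580402)))
(S (nat_lit 21783) (S (nat_lit 8762) (S (nat_lit 8748) (L (nat_lit 14882424))
(L (nat_lit 1270228)))
(L (nat_lit 1272397)))
(S (nat_lit 41547) (S (nat_lit 8790) (S (nat_lit 21527) (S (nat_lit 40547) (S (nat_lit 10982) (L (nat_lit 29673585))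
(L (nat_lit 1814318)))
(L (nat_lit 23552135)))
(L (nat_lit 15930073)))
(L (nat_lit 1814873)))
(L (nat_lit 25919979)))))
(L (nat_lit 25271701)))))
(L (nat_lit 25285161)))))
(S (nat_lit 40805) (S (nat_lit 1229) (S (nat_lit 8812) (S (nat_lit 1701) (S (nat_lit 10960) (S (nat_lit 25) (S (nat_lit 50527) (L (nat_lit 7757571))
(L (nat_lit 20410595)))
(L (nat_lit 13865877)))
(S (nat_lit 31047) (L (nat_lit 8174178))
(L (nat_lit 26425954))))
(S (nat_lit 48235) (S (nat_lit 10960) (L (nat_lit 1986089))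
(L (nat_lit 832105)))
(L (nat_lit 2929225))))
(S (nat_lit 28576) (S (nat_lit 1763) (S (nat_lit 15356) (L (nat_lit 3361212))
(L (nat_lit 313885)))
(S (nat_lit 21527) (S (nat_lit 62) (S (nat_lit 28526) (S (nat_lit 39575) (S (nat_lit 20979) (L (nat_lit 30586570))
(L (nat_lit 22885637)))
(L (nat_lit 27541558)))
(L (nat_lit 2345531)))
(L (nat_lit 778608)))
(S (nat_lit 41291) (S (nat_lit 15309) (S (nat_lit 41260) (L (nat_lit 8865949))
(L (nat_lit 23899616)))
(L (nat_lit 24918208)))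
(L (nat_lit 25694487)))))
(S (nat_lit 48340) (S (nat_lit 2019) (S (nat_lit 17521) (S (nat_lit 37307) (S (nat_lit 10982) (L (nat_lit 1717163))
(L (nat_lit 764718)))
(L (nat_lit 20885732)))
(L (nat_lit 26227337)))
(S (nat_lit 21783) (S (nat_lit 10960) (S (nat_lit 17521) (S (nat_lit 10935) (L (nat_lit 17877800))
(L (nat_lit 1850580)))
(L (nat_lit 16519817)))
(L (nat_lit 1849961)))
(S (nat_lit 41547) (S (nat_lit 10960) (S (nat_lit 50527) (S (nat_lit 17521) (S (nat_lit 986) (L (nat_lit 357879))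
(L (nat_lit 2938345)))
(L (nat_lit 18617992)))
(L (nat_lit 27609570)))
(L (nat_lit 15749000)))
(L (nat_lit 25698947)))))
(L (nat_lit 25511554)))))
(S (nat_lit 20993) (S (nat_lit 10949) (S (nat_lit 1003) (S (nat_lit 21496) (S (nat_lit 37274) (L (nat_lit 4896091))
(L (nat_lit 2340788)))
(S (nat_lit 28499) (L (nat_lit 8230636))
(L (nat_lit 7850917))))
(S (nat_lit 20767) (S (nat_lit 14) (S (nat_lit 8773) (S (nat_lit 17521) (L (nat_lit 24128366))
(L (nat_lit 18617929)))
(L (nat_lit 23860649)))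
(L (nat_lit 1843671)))
(S (nat_lit 40531) (S (nat_lit 10960) (S (nat_lit 40818) (S (nat_lit 21529) (S (nat_lit 15323) (S (nat_lit 21770) (S (nat_lit 21507) (S (nat_lit 8773) (L (nat_lit 28773653))
(L (nat_lit 23130476)))
(L (nat_lit 21436201)))
(L (nat_lit 21171769)))
(L (nat_lit 1843764)))
(L (nat_lit 16558661)))
(L (nat_lit 17031219)))
(L (nat_lit 685512)))
(L (nat_lit 25375765)))))
(S (nat_lit 30713) (S (nat_lit 17543) (S (nat_lit 20767) (L (nat_lit 4409789))
(L (nat_lit 968910)))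
(S (nat_lit 37307) (S (nat_lit 41503) (L (nat_lit 314158))
(L (nat_lit 27510926)))
(S (nat_lit 57071) (S (nat_lit 20736) (L (nat_lit 444637))
(L (nat_lit 7227812)))
(L (nat_lit 25279211)))))
(S (nat_lit 50477) (S (nat_lit 972) (S (nat_lit 41534) (S (nat_lit 28537) (L (nat_lit 8173280))
(L (nat_lit 19117859)))
(L (nat_lit 767256)))
(S (nat_lit 20736) (S (nat_lit 50527) (L (nat_lit 2345804))
(L (nat_lit 27964425)))
(S (nat_lit 40500) (S (nat_lit 15384) (L (nat_lit 3393978))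
(L (nat_lit 963893)))
(L (nat_lit 25432499)))))
(L (nat_lit 25419172)))))
(S (nat_lit 40757) (S (nat_lit 15323) (S (nat_lit 8762) (S (nat_lit 40531) (S (nat_lit 17510) (S (nat_lit 17538) (L (nat_lit 28774708))
(L (nat_lit 1592697)))
(L (nat_lit 7073188)))
(L (nat_lit 23896239)))
(S (nat_lit 28526) (S (nat_lit 10960) (S (nat_lit 40562) (L (nat_lit 24146311))
(L (nat_lit 24358968)))
(L (nat_lit 15955122)))
(S (nat_lit 48290) (S (nat_lit 17496) (S (nat_lit 8748) (L (nat_lit 2313101))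
(L (nat_lit 6750996)))
(L (nat_lit 8174647)))
(L (nat_lit 25207349)))))
(S (nat_lit 35087) (S (nat_lit 17527) (S (nat_lit 24333) (L (nat_lit 30918695))
(S (nat_lit 40562) (S (nat_lit 41243) (S (nat_lit 41534) (L (nat_lit 314222))
(L (nat_lit 2863320)))
(L (nat_lit 24428323)))
(L (nat_lit 7882874))))
(S (nat_lit 37291) (S (nat_lit 6651) (L (nat_lit 2878831))
(S (nat_lit 40547) (S (nat_lit 10977) (S (nat_lit 8748) (L (nat_lit 17836633))
(L (nat_lit 23528696)))
(L (nat_lit 7883681)))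
(L (nat_lit 24939943))))
(S (nat_lit 57055) (S (nat_lit 9597) (L (nat_lit 7453273))
(S (nat_lit 41534) (S (nat_lit 37302) (S (nat_lit 972) (L (nat_lit 28749378))
(L (nat_lit 2372402)))
(L (nat_lit 3067271)))
(L (nat_lit 18026232))))
(L (nat_lit 25249384)))))
(S (nat_lit 54851) (S (nat_lit 1262) (S (nat_lit 21054) (S (nat_lit 1986) (L (nat_lit 15394859))
(L (nat_lit 13675411)))
(S (nat_lit 39145) (L (nat_lit 27462130))
(L (nat_lit 12315693))))
(S (nat_lit 21026) (S (nat_lit 11524) (S (nat_lit 40547) (L (nat_lit 9581144))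
(L (nat_lit 8176195)))
(S (nat_lit 17521) (S (nat_lit 8790) (S (nat_lit 40562) (L (nat_lit 781707))
(L (nat_lit 17582307)))
(L (nat_lit 6408696)))
(L (nat_lit 24916105))))
(S (nat_lit 40790) (S (nat_lit 8790) (S (nat_lit 17538) (L (nat_lit 22229921))
(L (nat_lit 6403736)))
(L (nat_lit 6408696)))
(L (nat_lit 25659671)))))
(L (nat_lit 25627243)))))
(L (nat_lit 25515153)))))
(L (nat_lit 25932871)))))
(L (nat_lit 25831471)))))

theorem rb246_0_12 : run 4 lb246 [] tb246_0_12 kb246 [21772, 19795, 15334, 0] [] = true := by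
  decide +kernel

noncomputable def tb179_2 : Tr :=
(S (nat_lit 9044) (S (nat_lit 10987) (S (nat_lit 13687) (S (nat_lit 13418) (S (nat_lit 7342) (S (nat_lit 31946) (S (nat_lit 52) (S (nat_lit 21011) (S (nat_lit 7098) (S (nat_lit 16847) (L (nat_lit 21489800))
(L (nat_lit 606088)))
(L (nat_lit 14495333)))
(L (nat_lit 6802336)))
(L (nat_lit 13243738)))
(L (nat_lit 14389161)))
(S (nat_lit 27106) (S (nat_lit 48314) (S (nat_lit 25164) (S (nat_lit 15814) (L (nat_lit 3689821))
(L (nat_lit 26905033)))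
(L (nat_lit 16839272)))
(L (nat_lit 15817978)))
(S (nat_lit 46870) (S (nat_lit 48314) (S (nat_lit 7098) (L (nat_lit 14470497))
(L (nat_lit 7144109)))
(L (nat_lit 16009242)))
(L (nat_lit 25251339)))))
(S (nat_lit 33182) (S (nat_lit 6822) (S (nat_lit 6827) (S (nat_lit 21011) (L (nat_lit 797294))
(L (nat_lit 6810272)))
(L (nat_lit 8146371)))
(S (nat_lit 26586) (S (nat_lit 15585) (L (nat_lit 5789017))
(L (nat_lit 24125360)))
(S (nat_lit 46350) (S (nat_lit 31018) (S (nat_lit 319) (S (nat_lit 11478) (S (nat_lit 48314) (L (nat_lit 29403887))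
(L (nat_lit 11650995)))
(L (nat_lit 7245391)))
(L (nat_lit 7258757)))
(S (nat_lit 43503) (L (nat_lit 19184795))
(L (nat_lit 17681417))))
(L (nat_lit 25831812)))))
(S (nat_lit 52946) (S (nat_lit 5400) (S (nat_lit 31735) (S (nat_lit 40465) (L (nat_lit 6476218))
(L (nat_lit 22208847)))
(L (nat_lit 16900439)))
(S (nat_lit 25164) (S (nat_lit 45119) (S (nat_lit 56828) (L (nat_lit 26791232))
(L (nat_lit 21391714)))
(L (nat_lit 7456346)))
(S (nat_lit 44928) (S (nat_lit 26360) (S (nat_lit 530) (L (nat_lit 4015721))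
(L (nat_lit 4019536)))
(L (nat_lit 15434075)))
(L (nat_lit 25902218)))))
(L (nat_lit 25182546)))))
(S (nat_lit 33451) (S (nat_lit 13617) (S (nat_lit 46422) (S (nat_lit 7544) (L (nat_lit 2940141))
(L (nat_lit 9222787)))
(S (nat_lit 48042) (S (nat_lit 51499) (S (nat_lit 7116) (S (nat_lit 46818) (S (nat_lit 31018) (L (nat_lit 17934199))
(L (nat_lit 9850789)))
(L (nat_lit 20874509)))
(L (nat_lit 7210669)))
(L (nat_lit 7467661)))
(L (nat_lit 6746757))))
(S (nat_lit 33381) (S (nat_lit 7116) (S (nat_lit 40071) (S (nat_lit 40058) (S (nat_lit 6827) (L (nat_lit 26805548))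
(L (nat_lit 8025571)))
(L (nat_lit 23902282)))
(L (nat_lit 23081766)))
(S (nat_lit 26880) (S (nat_lit 753) (S (nat_lit 16847) (L (nat_lit 28392823))
(L (nat_lit 10032045)))
(L (nat_lit 8983469)))
(S (nat_lit 46644) (S (nat_lit 28278) (L (nat_lit 21258349))
(L (nat_lit 16091028)))
(L (nat_lit 25803846)))))
(S (nat_lit 53145) (S (nat_lit 3399) (L (nat_lit 12972147))
(S (nat_lit 44209) (S (nat_lit 9663) (L (nat_lit 354928))
(S (nat_lit 30246) (S (nat_lit 7098) (S (nat_lit 6827) (S (nat_lit 8806) (S (nat_lit 43926) (S (nat_lit 47348) (L (nat_lit 28891270))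
(L (nat_lit 20145696)))
(L (nat_lit 12610279)))
(L (nat_lit 6742755)))
(L (nat_lit 26662147)))
(L (nat_lit 7048109)))
(L (nat_lit 7369390))))
(L (nat_lit 23196136))))
(L (nat_lit 25345703)))))
(S (nat_lit 53215) (S (nat_lit 9313) (S (nat_lit 19338) (S (nat_lit 14065) (L (nat_lit 26526775))
(L (nat_lit 21473187)))
(S (nat_lit 24445) (S (nat_lit 19903) (L (nat_lit 2700634))
(S (nat_lit 25164) (S (nat_lit 7098) (S (nat_lit 19764) (L (nat_lit 14251329))
(L (nat_lit 10289773)))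
(L (nat_lit 3469933)))
(L (nat_lit 6025704))))
(L (nat_lit 415625))))
(S (nat_lit 29077) (S (nat_lit 7609) (S (nat_lit 17046) (S (nat_lit 33182) (L (nat_lit 8514967))
(L (nat_lit 24036705)))
(L (nat_lit 5058935)))
(S (nat_lit 27373) (S (nat_lit 51216) (S (nat_lit 7342) (S (nat_lit 25164) (L (nat_lit 26332646))
(L (nat_lit 21391682)))
(L (nat_lit 23185318)))
(L (nat_lit 7361949)))
(S (nat_lit 47137) (S (nat_lit 7116) (S (nat_lit 17300) (S (nat_lit 6845) (L (nat_lit 21296576))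
(L (nat_lit 21260737)))
(L (nat_lit 15552864)))
(S (nat_lit 42625) (L (nat_lit 21902661))
(L (nat_lit 6842981))))
(L (nat_lit 25281746)))))
(S (nat_lit 48841) (S (nat_lit 6827) (S (nat_lit 24162) (S (nat_lit 13418) (S (nat_lit 254) (S (nat_lit 14648) (L (nat_lit 7419578))
(L (nat_lit 14223612)))
(L (nat_lit 13849345)))
(L (nat_lit 22882817)))
(L (nat_lit 22882753)))
(S (nat_lit 26591) (S (nat_lit 7290) (L (nat_lit 13249565))
(L (nat_lit 26651265)))
(S (nat_lit 46355) (S (nat_lit 46870) (S (nat_lit 8514) (L (nat_lit 28612150))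
(L (nat_lit 21096812)))
(L (nat_lit 17918566)))
(L (nat_lit 25569857)))))
(L (nat_lit 25509473)))))
(L (nat_lit 25544260)))))
(S (nat_lit 30751) (S (nat_lit 10711) (S (nat_lit 4398) (S (nat_lit 5178) (S (nat_lit 11688) (S (nat_lit 13687) (S (nat_lit 9313) (L (nat_lit 6906956))
(L (nat_lit 16806258)))
(L (nat_lit 3765615)))
(S (nat_lit 51045) (L (nat_lit 23114664))
(L (nat_lit 23097800))))
(L (nat_lit 26532353)))
(S (nat_lit 24162) (S (nat_lit 4892) (S (nat_lit 543) (S (nat_lit 34412) (L (nat_lit 17848665))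
(L (nat_lit 4038098)))
(L (nat_lit 26286764)))
(S (nat_lit 24656) (S (nat_lit 25402) (S (nat_lit 6827) (L (nat_lit 12898080))
(L (nat_lit 21807363)))
(L (nat_lit 14312587)))
(S (nat_lit 44420) (S (nat_lit 6822) (S (nat_lit 13418) (S (nat_lit 6827) (S (nat_lit 7290) (L (nat_lit 5975857))
(L (nat_lit 21258253)))
(L (nat_lit 21401418)))
(L (nat_lit 24442371)))
(S (nat_lit 39319) (L (nat_lit 7093893))
(L (nat_lit 21401383))))
(L (nat_lit 25431479)))))
(S (nat_lit 43926) (S (nat_lit 7342) (S (nat_lit 8584) (S (nat_lit 40564) (L (nat_lit 3929422))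
(L (nat_lit 3404399)))
(L (nat_lit 23625947)))
(S (nat_lit 27106) (S (nat_lit 11688) (S (nat_lit 50782) (S (nat_lit 34412) (L (nat_lit 10239585))
(L (nat_lit 14964859)))
(L (nat_lit 27372050)))
(L (nat_lit 23860527)))
(S (nat_lit 46870) (S (nat_lit 47843) (S (nat_lit 6827) (S (nat_lit 40564) (L (nat_lit 8244365))
(L (nat_lit 8142432)))
(L (nat_lit 23523619)))
(L (nat_lit 6751864)))
(L (nat_lit 25247986)))))
(L (nat_lit 25418895)))))
(S (nat_lit 30475) (S (nat_lit 4681) (S (nat_lit 6863) (S (nat_lit 51499) (S (nat_lit 4892) (S (nat_lit 37064) (L (nat_lit 2579371))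
(L (nat_lit 8303794)))
(L (nat_lit 19307581)))
(L (nat_lit 8132240)))
(S (nat_lit 24558) (L (nat_lit 18889510))
(L (nat_lit 6403836))))
(S (nat_lit 24445) (S (nat_lit 28278) (S (nat_lit 28550) (S (nat_lit 33381) (S (nat_lit 15085) (L (nat_lit 19459179))
(L (nat_lit 24429691)))
(L (nat_lit 20031373)))
(L (nat_lit 10051597)))
(S (nat_lit 28908) (L (nat_lit 12708084))
(L (nat_lit 10600340))))
(S (nat_lit 44209) (S (nat_lit 0) (S (nat_lit 34620) (S (nat_lit 51216) (L (nat_lit 29603489))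
(L (nat_lit 12640502)))
(L (nat_lit 7533132)))
(S (nat_lit 19764) (S (nat_lit 24884) (L (nat_lit 28358279))
(S (nat_lit 25289) (L (nat_lit 21010843))
(L (nat_lit 4011255))))
(S (nat_lit 39528) (S (nat_lit 2816) (L (nat_lit 21499814))
(S (nat_lit 20307) (S (nat_lit 33132) (S (nat_lit 24884) (S (nat_lit 6827) (S (nat_lit 51216) (L (nat_lit 10900667))
(L (nat_lit 15640161)))
(L (nat_lit 14315531)))
(L (nat_lit 7156918)))
(L (nat_lit 23934242)))
(L (nat_lit 4955053))))
(L (nat_lit 25598995)))))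
(L (nat_lit 25579712)))))
(S (nat_lit 50239) (S (nat_lit 254) (S (nat_lit 0) (S (nat_lit 6827) (S (nat_lit 24656) (S (nat_lit 13617) (S (nat_lit 319) (L (nat_lit 6412205))
(L (nat_lit 12692340)))
(L (nat_lit 13392101)))
(L (nat_lit 14425239)))
(S (nat_lit 37222) (L (nat_lit 7015928))
(L (nat_lit 6737085))))
(S (nat_lit 19764) (S (nat_lit 25355) (S (nat_lit 55342) (L (nat_lit 3911930))
(L (nat_lit 19836417)))
(L (nat_lit 14501991)))
(S (nat_lit 39528) (S (nat_lit 7609) (S (nat_lit 34412) (S (nat_lit 24656) (L (nat_lit 9628332))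
(L (nat_lit 13672375)))
(L (nat_lit 2694619)))
(L (nat_lit 13864818)))
(L (nat_lit 25801920)))))
(S (nat_lit 20018) (S (nat_lit 3249) (S (nat_lit 41923) (L (nat_lit 21051305))
(L (nat_lit 21391433)))
(S (nat_lit 30246) (S (nat_lit 48112) (S (nat_lit 27584) (S (nat_lit 7544) (L (nat_lit 5847817))
(L (nat_lit 23870599)))
(L (nat_lit 19667024)))
(L (nat_lit 9192033)))
(L (nat_lit 6041200))))
(S (nat_lit 39782) (S (nat_lit 5400) (S (nat_lit 7609) (S (nat_lit 48042) (S (nat_lit 6827) (L (nat_lit 28001290))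
(L (nat_lit 6714947)))
(L (nat_lit 8786870)))
(L (nat_lit 3057111)))
(S (nat_lit 25164) (S (nat_lit 8057) (S (nat_lit 7098) (L (nat_lit 1953136))
(L (nat_lit 13922917)))
(L (nat_lit 23182716)))
(S (nat_lit 44928) (S (nat_lit 15085) (S (nat_lit 46626) (S (nat_lit 31452) (L (nat_lit 29753994))
(L (nat_lit 13639356)))
(L (nat_lit 27733605)))
(L (nat_lit 24440942)))
(L (nat_lit 25476706)))))
(L (nat_lit 25383057)))))
(L (nat_lit 25343690)))))
(S (nat_lit 50515) (S (nat_lit 14648) (S (nat_lit 8057) (S (nat_lit 8994) (S (nat_lit 8514) (S (nat_lit 8786) (L (nat_lit 23891280))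
(L (nat_lit 17665738)))
(L (nat_lit 21293164)))
(S (nat_lit 28758) (S (nat_lit 35349) (S (nat_lit 39580) (L (nat_lit 5861712))
(L (nat_lit 16865628)))
(L (nat_lit 12871735)))
(S (nat_lit 48522) (S (nat_lit 55113) (S (nat_lit 12182) (S (nat_lit 25402) (S (nat_lit 15085) (L (nat_lit 22229827))
(L (nat_lit 13947003)))
(L (nat_lit 21924205)))
(L (nat_lit 21407805)))
(L (nat_lit 14282050)))
(L (nat_lit 25377506)))))
(S (nat_lit 27821) (S (nat_lit 1036) (S (nat_lit 46644) (L (nat_lit 8305748))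
(L (nat_lit 27900229)))
(S (nat_lit 20800) (S (nat_lit 26169) (L (nat_lit 2418227))
(S (nat_lit 26862) (S (nat_lit 46644) (S (nat_lit 17257) (L (nat_lit 16549237))
(L (nat_lit 12313124)))
(L (nat_lit 27788628)))
(L (nat_lit 14994460))))
(S (nat_lit 40564) (S (nat_lit 5400) (S (nat_lit 26360) (S (nat_lit 15085) (L (nat_lit 23194992))
(L (nat_lit 14391419)))
(L (nat_lit 4103699)))
(L (nat_lit 26978385)))
(L (nat_lit 25210261)))))
(S (nat_lit 47585) (S (nat_lit 7544) (S (nat_lit 31946) (S (nat_lit 46124) (L (nat_lit 8982317))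
(L (nat_lit 4708698)))
(L (nat_lit 6908320)))
(S (nat_lit 27308) (S (nat_lit 45166) (S (nat_lit 39580) (L (nat_lit 16017525))
(L (nat_lit 24002883)))
(L (nat_lit 670598)))
(S (nat_lit 47072) (S (nat_lit 49802) (S (nat_lit 6827) (L (nat_lit 1733126))
(L (nat_lit 6713525)))
(L (nat_lit 6451605)))
(L (nat_lit 25250183)))))
(L (nat_lit 25250160)))))
(S (nat_lit 34412) (S (nat_lit 14856) (S (nat_lit 17257) (S (nat_lit 753) (S (nat_lit 45119) (S (nat_lit 24568) (L (nat_lit 5458393))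
(L (nat_lit 29604545)))
(L (nat_lit 14855094)))
(S (nat_lit 44488) (L (nat_lit 4038165))
(L (nat_lit 1399725))))
(S (nat_lit 37021) (S (nat_lit 45119) (S (nat_lit 28570) (S (nat_lit 17071) (S (nat_lit 32944) (L (nat_lit 29702757))
(L (nat_lit 30954601)))
(L (nat_lit 2711975)))
(L (nat_lit 13422697)))
(S (nat_lit 57935) (L (nat_lit 6950460))
(L (nat_lit 23563544))))
(S (nat_lit 56785) (S (nat_lit 26609) (S (nat_lit 11478) (S (nat_lit 26862) (S (nat_lit 17046) (S (nat_lit 36835) (S (nat_lit 54613) (S (nat_lit 5400) (L (nat_lit 9618170))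
(L (nat_lit 2828793)))
(L (nat_lit 17555623)))
(L (nat_lit 23182122)))
(L (nat_lit 26791204)))
(L (nat_lit 16492572)))
(L (nat_lit 23552134)))
(L (nat_lit 15463715)))
(L (nat_lit 25484673)))))
(S (nat_lit 34620) (S (nat_lit 0) (S (nat_lit 31452) (S (nat_lit 39782) (L (nat_lit 28917987))
(L (nat_lit 1307248)))
(L (nat_lit 13657706)))
(S (nat_lit 19764) (S (nat_lit 27106) (S (nat_lit 27584) (L (nat_lit 29534829))
(L (nat_lit 15435625)))
(S (nat_lit 42093) (L (nat_lit 7901079))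
(L (nat_lit 30908003))))
(S (nat_lit 39528) (S (nat_lit 50239) (L (nat_lit 23376802))
(L (nat_lit 27446636)))
(L (nat_lit 25408562)))))
(S (nat_lit 54384) (S (nat_lit 15585) (S (nat_lit 52946) (S (nat_lit 47843) (L (nat_lit 16977530))
(L (nat_lit 16802408)))
(L (nat_lit 21905763)))
(S (nat_lit 35349) (S (nat_lit 46373) (S (nat_lit 30038) (S (nat_lit 28079) (L (nat_lit 19066347))
(L (nat_lit 14701849)))
(L (nat_lit 18451366)))
(L (nat_lit 27525621)))
(S (nat_lit 55113) (S (nat_lit 13180) (S (nat_lit 7544) (S (nat_lit 25153) (L (nat_lit 29506806))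
(L (nat_lit 30420437)))
(L (nat_lit 13720924)))
(L (nat_lit 8008827)))
(L (nat_lit 25903426)))))
(L (nat_lit 25628885)))))
(S (nat_lit 54176) (S (nat_lit 13687) (S (nat_lit 35349) (S (nat_lit 20673) (L (nat_lit 17844573))
(S (nat_lit 26862) (S (nat_lit 5400) (S (nat_lit 17046) (L (nat_lit 22819137))
(L (nat_lit 26222103)))
(L (nat_lit 5162323)))
(L (nat_lit 4800860))))
(L (nat_lit 13332802)))
(S (nat_lit 33451) (S (nat_lit 6829) (S (nat_lit 17168) (L (nat_lit 20342080))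
(S (nat_lit 46818) (S (nat_lit 39580) (S (nat_lit 46644) (S (nat_lit 11254) (L (nat_lit 23926153))
(L (nat_lit 21901320)))
(L (nat_lit 27277654)))
(L (nat_lit 27744578)))
(L (nat_lit 27919693))))
(S (nat_lit 55542) (L (nat_lit 5565909))
(L (nat_lit 26880110))))
(S (nat_lit 53215) (S (nat_lit 7112) (S (nat_lit 25164) (S (nat_lit 8786) (S (nat_lit 8514) (L (nat_lit 9071107))
(L (nat_lit 21097865)))
(L (nat_lit 21556235)))
(L (nat_lit 21799460)))
(S (nat_lit 26876) (S (nat_lit 8265) (S (nat_lit 13418) (L (nat_lit 13653336))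
(L (nat_lit 12899201)))
(S (nat_lit 14988) (S (nat_lit 28570) (L (nat_lit 18664708))
(L (nat_lit 8841303)))
(L (nat_lit 21399896))))
(S (nat_lit 46640) (S (nat_lit 46162) (S (nat_lit 254) (S (nat_lit 13368) (S (nat_lit 48112) (L (nat_lit 27506775))
(L (nat_lit 8415794)))
(L (nat_lit 13376100)))
(L (nat_lit 13378646)))
(L (nat_lit 12325271)))
(L (nat_lit 25508480)))))
(L (nat_lit 25837641)))))
(L (nat_lit 25692402)))))
(L (nat_lit 25253320)))))
(S (nat_lit 28808) (S (nat_lit 6634) (S (nat_lit 8057) (S (nat_lit 7833) (S (nat_lit 52) (S (nat_lit 7098) (S (nat_lit 7544) (L (nat_lit 26529153))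
(L (nat_lit 23870787)))
(L (nat_lit 12898213)))
(S (nat_lit 19816) (S (nat_lit 6589) (S (nat_lit 11971) (S (nat_lit 2564) (L (nat_lit 583370))
(L (nat_lit 13458755)))
(L (nat_lit 21218085)))
(L (nat_lit 21268239)))
(S (nat_lit 39580) (S (nat_lit 7609) (L (nat_lit 29798083))
(L (nat_lit 21925231)))
(L (nat_lit 25280853)))))
(S (nat_lit 27597) (S (nat_lit 6827) (S (nat_lit 1129) (L (nat_lit 8785564))
(S (nat_lit 7609) (S (nat_lit 7098) (S (nat_lit 6589) (S (nat_lit 24656) (S (nat_lit 30038) (L (nat_lit 16322315))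
(L (nat_lit 13405429)))
(L (nat_lit 21522571)))
(L (nat_lit 21437498)))
(L (nat_lit 13773716)))
(L (nat_lit 21204474))))
(S (nat_lit 33829) (L (nat_lit 14421237))
(L (nat_lit 13831773))))
(S (nat_lit 47361) (S (nat_lit 0) (S (nat_lit 25153) (S (nat_lit 6589) (S (nat_lit 34620) (L (nat_lit 13643603))
(L (nat_lit 974029)))
(L (nat_lit 21836840)))
(L (nat_lit 7091317)))
(S (nat_lit 19764) (S (nat_lit 10935) (S (nat_lit 24162) (S (nat_lit 30246) (L (nat_lit 20849710))
(L (nat_lit 18442283)))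
(L (nat_lit 21016367)))
(L (nat_lit 21169967)))
(S (nat_lit 39528) (S (nat_lit 56599) (S (nat_lit 24656) (S (nat_lit 51710) (S (nat_lit 28079) (L (nat_lit 11460003))
(L (nat_lit 19664424)))
(L (nat_lit 27868199)))
(L (nat_lit 14423690)))
(L (nat_lit 21034407)))
(L (nat_lit 25381901)))))
(L (nat_lit 25733699)))))
(S (nat_lit 27821) (S (nat_lit 6596) (S (nat_lit 11465) (S (nat_lit 11971) (S (nat_lit 25153) (L (nat_lit 17946973))
(L (nat_lit 21769264)))
(L (nat_lit 21935424)))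
(S (nat_lit 31229) (S (nat_lit 24884) (S (nat_lit 20294) (L (nat_lit 10389911))
(L (nat_lit 30672593)))
(L (nat_lit 30684869)))
(S (nat_lit 50993) (S (nat_lit 24884) (S (nat_lit 6589) (L (nat_lit 7800660))
(L (nat_lit 21437466)))
(L (nat_lit 21020923)))
(L (nat_lit 25429459)))))
(S (nat_lit 26360) (S (nat_lit 10711) (S (nat_lit 30751) (S (nat_lit 35141) (S (nat_lit 13687) (L (nat_lit 28656324))
(L (nat_lit 25077838)))
(L (nat_lit 13182075)))
(L (nat_lit 2903405)))
(S (nat_lit 30475) (S (nat_lit 53145) (S (nat_lit 27597) (L (nat_lit 22125082))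
(L (nat_lit 19427525)))
(L (nat_lit 19840167)))
(S (nat_lit 50239) (S (nat_lit 6827) (S (nat_lit 33182) (S (nat_lit 47793) (L (nat_lit 21334555))
(L (nat_lit 9296356)))
(L (nat_lit 16009337)))
(L (nat_lit 14437386)))
(L (nat_lit 25834788)))))
(S (nat_lit 46124) (S (nat_lit 6827) (S (nat_lit 6589) (S (nat_lit 11785) (L (nat_lit 6942797))
(S (nat_lit 27106) (S (nat_lit 27308) (S (nat_lit 54613) (S (nat_lit 5178) (S (nat_lit 50010) (L (nat_lit 28794023))
(L (nat_lit 6876772)))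
(L (nat_lit 749992)))
(L (nat_lit 7244179)))
(L (nat_lit 5521299)))
(L (nat_lit 3763718))))
(S (nat_lit 42875) (L (nat_lit 4111607))
(L (nat_lit 12689114))))
(S (nat_lit 26591) (S (nat_lit 753) (S (nat_lit 27106) (S (nat_lit 54384) (L (nat_lit 15747293))
(L (nat_lit 3403285)))
(L (nat_lit 19842339)))
(S (nat_lit 55706) (L (nat_lit 30911636))
(L (nat_lit 9192129))))
(S (nat_lit 46355) (S (nat_lit 6863) (S (nat_lit 28079) (S (nat_lit 54613) (L (nat_lit 21761296))
(L (nat_lit 28022895)))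
(L (nat_lit 8309808)))
(L (nat_lit 14589667)))
(L (nat_lit 25562421)))))
(L (nat_lit 25626219)))))
(S (nat_lit 47585) (S (nat_lit 15377) (S (nat_lit 9243) (S (nat_lit 24884) (S (nat_lit 6589) (S (nat_lit 8077) (S (nat_lit 5178) (S (nat_lit 4398) (L (nat_lit 28879489))
(L (nat_lit 7942329)))
(L (nat_lit 26980705)))
(L (nat_lit 10149998)))
(L (nat_lit 6895395)))
(S (nat_lit 25694) (L (nat_lit 24471073))
(L (nat_lit 6884142))))
(S (nat_lit 29007) (S (nat_lit 19426) (L (nat_lit 15620136))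
(S (nat_lit 47793) (S (nat_lit 20294) (S (nat_lit 27054) (S (nat_lit 56599) (S (nat_lit 15814) (S (nat_lit 25402) (S (nat_lit 19764) (S (nat_lit 6589) (L (nat_lit 3355291))
(L (nat_lit 14392346)))
(L (nat_lit 22454144)))
(L (nat_lit 2011348)))
(L (nat_lit 5797544)))
(L (nat_lit 6722323)))
(L (nat_lit 24473984)))
(L (nat_lit 4695771)))
(L (nat_lit 8804379))))
(S (nat_lit 48771) (S (nat_lit 54613) (S (nat_lit 7112) (L (nat_lit 806128))
(L (nat_lit 7260544)))
(L (nat_lit 6408054)))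
(L (nat_lit 25825798)))))
(S (nat_lit 35141) (S (nat_lit 8786) (S (nat_lit 13160) (S (nat_lit 5389) (L (nat_lit 8948443))
(L (nat_lit 26595717)))
(L (nat_lit 22515499)))
(S (nat_lit 28550) (S (nat_lit 10274) (S (nat_lit 50463) (L (nat_lit 20506731))
(L (nat_lit 13268006)))
(L (nat_lit 21892431)))
(S (nat_lit 48314) (S (nat_lit 26586) (L (nat_lit 7245517))
(L (nat_lit 24972525)))
(L (nat_lit 25746628)))))
(S (nat_lit 54905) (S (nat_lit 17071) (S (nat_lit 7609) (L (nat_lit 13471366))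
(S (nat_lit 49835) (L (nat_lit 4442006))
(L (nat_lit 21270383))))
(S (nat_lit 36835) (S (nat_lit 52) (S (nat_lit 30751) (L (nat_lit 13643384))
(L (nat_lit 14232354)))
(L (nat_lit 12874467)))
(S (nat_lit 56599) (S (nat_lit 6589) (S (nat_lit 6827) (S (nat_lit 12182) (L (nat_lit 6884765))
(L (nat_lit 26814510)))
(L (nat_lit 21769665)))
(S (nat_lit 36926) (L (nat_lit 21084998))
(L (nat_lit 6808195))))
(L (nat_lit 25432502)))))
(L (nat_lit 25309490)))))
(L (nat_lit 25419172)))))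
(S (nat_lit 26398) (S (nat_lit 6845) (S (nat_lit 6827) (S (nat_lit 6596) (S (nat_lit 9243) (S (nat_lit 11189) (S (nat_lit 7116) (S (nat_lit 11254) (L (nat_lit 12963004))
(L (nat_lit 6715104)))
(L (nat_lit 21904455)))
(L (nat_lit 7026433)))
(S (nat_lit 29007) (S (nat_lit 30475) (S (nat_lit 5591) (L (nat_lit 30530087))
(L (nat_lit 19441788)))
(S (nat_lit 36955) (L (nat_lit 5779346))
(L (nat_lit 24667242))))
(S (nat_lit 48771) (S (nat_lit 50993) (S (nat_lit 8077) (L (nat_lit 14387047))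
(L (nat_lit 13919346)))
(L (nat_lit 27309675)))
(L (nat_lit 25708711)))))
(S (nat_lit 26360) (S (nat_lit 11478) (S (nat_lit 10935) (S (nat_lit 5178) (L (nat_lit 7361981))
(L (nat_lit 16686720)))
(L (nat_lit 23094481)))
(S (nat_lit 31242) (S (nat_lit 5178) (S (nat_lit 26353) (S (nat_lit 6863) (L (nat_lit 4512593))
(L (nat_lit 21536609)))
(L (nat_lit 9950018)))
(L (nat_lit 16686721)))
(S (nat_lit 51006) (S (nat_lit 8627) (L (nat_lit 10203197))
(S (nat_lit 17046) (S (nat_lit 44917) (L (nat_lit 4503317))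
(L (nat_lit 15394080)))
(L (nat_lit 15035541))))
(L (nat_lit 25173583)))))
(S (nat_lit 46124) (S (nat_lit 6863) (S (nat_lit 17046) (S (nat_lit 25402) (S (nat_lit 55113) (L (nat_lit 10027952))
(L (nat_lit 13639445)))
(L (nat_lit 14441611)))
(S (nat_lit 26212) (L (nat_lit 16634180))
(L (nat_lit 2349840))))
(S (nat_lit 54930) (L (nat_lit 26449429))
(L (nat_lit 2647317))))
(L (nat_lit 25647461)))))
(S (nat_lit 26591) (S (nat_lit 13687) (S (nat_lit 48841) (S (nat_lit 52946) (L (nat_lit 9293284))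
(L (nat_lit 19808577)))
(L (nat_lit 14502921)))
(S (nat_lit 33451) (S (nat_lit 30246) (S (nat_lit 34620) (S (nat_lit 5400) (L (nat_lit 7029789))
(L (nat_lit 8873107)))
(L (nat_lit 23080748)))
(S (nat_lit 42826) (L (nat_lit 8933121))
(L (nat_lit 18889515))))
(S (nat_lit 53215) (S (nat_lit 16686) (L (nat_lit 19252005))
(S (nat_lit 55342) (S (nat_lit 27054) (L (nat_lit 14298140))
(L (nat_lit 18920264)))
(L (nat_lit 21440697))))
(L (nat_lit 25690761)))))
(S (nat_lit 46355) (S (nat_lit 5591) (S (nat_lit 12873) (L (nat_lit 7754781))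
(S (nat_lit 51710) (S (nat_lit 7098) (L (nat_lit 21867631))
(L (nat_lit 4041325)))
(L (nat_lit 13504073))))
(S (nat_lit 25355) (S (nat_lit 2611) (L (nat_lit 8818484))
(S (nat_lit 6829) (S (nat_lit 30953) (S (nat_lit 56375) (S (nat_lit 6596) (S (nat_lit 50239) (L (nat_lit 14021315))
(L (nat_lit 14295164)))
(L (nat_lit 21280676)))
(L (nat_lit 21764239)))
(L (nat_lit 31139297)))
(L (nat_lit 13858400))))
(S (nat_lit 45119) (S (nat_lit 17257) (S (nat_lit 46350) (S (nat_lit 46124) (L (nat_lit 19067212))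
(L (nat_lit 6173290)))
(L (nat_lit 27692278)))
(S (nat_lit 37021) (S (nat_lit 26627) (S (nat_lit 14648) (L (nat_lit 9319011))
(L (nat_lit 14225256)))
(L (nat_lit 15331587)))
(S (nat_lit 56785) (L (nat_lit 8228275))
(L (nat_lit 25924849)))))
(L (nat_lit 25761038)))))
(L (nat_lit 25382371)))))
(S (nat_lit 26609) (S (nat_lit 17300) (S (nat_lit 11478) (S (nat_lit 7833) (S (nat_lit 46818) (S (nat_lit 46350) (L (nat_lit 30429487))
(L (nat_lit 27346164)))
(L (nat_lit 5657450)))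
(S (nat_lit 27870) (L (nat_lit 16788090))
(L (nat_lit 26235085))))
(S (nat_lit 31242) (S (nat_lit 592) (L (nat_lit 10027884))
(S (nat_lit 32944) (S (nat_lit 5120) (L (nat_lit 11592087))
(L (nat_lit 8443788)))
(L (nat_lit 9630415))))
(S (nat_lit 51006) (S (nat_lit 11254) (S (nat_lit 5400) (S (nat_lit 47754) (L (nat_lit 9619034))
(L (nat_lit 24142217)))
(L (nat_lit 18925320)))
(S (nat_lit 31018) (S (nat_lit 50239) (L (nat_lit 9464401))
(L (nat_lit 8934521)))
(S (nat_lit 50782) (S (nat_lit 6822) (S (nat_lit 40775) (S (nat_lit 56785) (S (nat_lit 46644) (L (nat_lit 11391053))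
(L (nat_lit 11629165)))
(L (nat_lit 2795308)))
(L (nat_lit 24327970)))
(S (nat_lit 46194) (L (nat_lit 19252004))
(L (nat_lit 2346764))))
(L (nat_lit 25580713)))))
(L (nat_lit 25857329)))))
(S (nat_lit 37064) (S (nat_lit 7820) (S (nat_lit 33182) (S (nat_lit 34620) (S (nat_lit 30751) (L (nat_lit 14592023))
(L (nat_lit 9006531)))
(L (nat_lit 8138871)))
(L (nat_lit 9357424)))
(S (nat_lit 27584) (S (nat_lit 34620) (S (nat_lit 32924) (S (nat_lit 56375) (S (nat_lit 31946) (L (nat_lit 28723394))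
(L (nat_lit 19678560)))
(L (nat_lit 19051802)))
(L (nat_lit 16681202)))
(S (nat_lit 54330) (L (nat_lit 19251290))
(L (nat_lit 23864866))))
(S (nat_lit 47348) (S (nat_lit 27841) (S (nat_lit 48042) (L (nat_lit 16702752))
(L (nat_lit 9069955)))
(S (nat_lit 56642) (S (nat_lit 34620) (L (nat_lit 8851130))
(L (nat_lit 520469)))
(L (nat_lit 31097167))))
(L (nat_lit 25921065)))))
(S (nat_lit 56828) (S (nat_lit 254) (S (nat_lit 28570) (S (nat_lit 54613) (L (nat_lit 14394209))
(L (nat_lit 9103471)))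
(L (nat_lit 19301289)))
(S (nat_lit 20018) (S (nat_lit 27841) (S (nat_lit 28570) (L (nat_lit 13944861))
(L (nat_lit 9224311)))
(L (nat_lit 15926039)))
(S (nat_lit 39782) (S (nat_lit 5389) (S (nat_lit 29077) (L (nat_lit 10153072))
(L (nat_lit 19326273)))
(S (nat_lit 46497) (L (nat_lit 25073007))
(L (nat_lit 19045261))))
(L (nat_lit 25793777)))))
(L (nat_lit 25723622)))))
(S (nat_lit 46373) (S (nat_lit 7820) (S (nat_lit 7136) (L (nat_lit 30727183))
(S (nat_lit 26627) (S (nat_lit 26970) (L (nat_lit 5643123))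
(S (nat_lit 46626) (S (nat_lit 8806) (S (nat_lit 27054) (S (nat_lit 47137) (S (nat_lit 7112) (S (nat_lit 46357) (S (nat_lit 17071) (S (nat_lit 48771) (S (nat_lit 37064) (S (nat_lit 4398) (S (nat_lit 47793) (S (nat_lit 13160) (S (nat_lit 26586) (S (nat_lit 6596) (S (nat_lit 48314) (L (nat_lit 28575190))
(L (nat_lit 11069061)))
(L (nat_lit 596880)))
(L (nat_lit 448391)))
(L (nat_lit 12690228)))
(L (nat_lit 20313538)))
(S (nat_lit 28409) (L (nat_lit 276373))
(S (nat_lit 42922) (L (nat_lit 6723348))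
(L (nat_lit 26237265)))))
(L (nat_lit 23870818)))
(L (nat_lit 974032)))
(L (nat_lit 10402373)))
(L (nat_lit 27659634)))
(L (nat_lit 12970101)))
(L (nat_lit 10292975)))
(L (nat_lit 19278657)))
(L (nat_lit 932151)))
(L (nat_lit 22856003))))
(L (nat_lit 16568331))))
(S (nat_lit 27584) (S (nat_lit 48771) (S (nat_lit 46357) (S (nat_lit 8806) (S (nat_lit 37064) (S (nat_lit 46626) (S (nat_lit 7609) (S (nat_lit 17071) (S (nat_lit 46818) (S (nat_lit 8994) (S (nat_lit 46642) (S (nat_lit 29077) (S (nat_lit 54613) (S (nat_lit 48112) (S (nat_lit 34620) (S (nat_lit 4681) (L (nat_lit 2438780))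
(L (nat_lit 7460653)))
(L (nat_lit 16458876)))
(L (nat_lit 17426439)))
(L (nat_lit 2515318)))
(L (nat_lit 31046728)))
(L (nat_lit 534265)))
(S (nat_lit 28758) (S (nat_lit 4681) (L (nat_lit 2352694))
(L (nat_lit 19805257)))
(S (nat_lit 48522) (S (nat_lit 15585) (L (nat_lit 2938222))
(L (nat_lit 17651012)))
(L (nat_lit 25697460)))))
(L (nat_lit 27919752)))
(L (nat_lit 2549322)))
(L (nat_lit 13552997)))
(L (nat_lit 830060)))
(L (nat_lit 11288224)))
(L (nat_lit 21358114)))
(L (nat_lit 3360530)))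
(L (nat_lit 16475363)))
(S (nat_lit 47348) (S (nat_lit 7672) (S (nat_lit 46357) (L (nat_lit 31040960))
(L (nat_lit 4041327)))
(S (nat_lit 27373) (S (nat_lit 26627) (S (nat_lit 48771) (S (nat_lit 7290) (S (nat_lit 46626) (S (nat_lit 8806) (S (nat_lit 46357) (S (nat_lit 17071) (S (nat_lit 37064) (S (nat_lit 45119) (S (nat_lit 54613) (S (nat_lit 10274) (S (nat_lit 12182) (S (nat_lit 44209) (L (nat_lit 1613404))
(L (nat_lit 13375081)))
(L (nat_lit 23503682)))
(L (nat_lit 21925414)))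
(L (nat_lit 19055527)))
(S (nat_lit 47462) (L (nat_lit 15866520))
(S (nat_lit 53603) (L (nat_lit 8948348))
(L (nat_lit 565848)))))
(L (nat_lit 4779750)))
(L (nat_lit 10402373)))
(L (nat_lit 27921929)))
(L (nat_lit 925425)))
(L (nat_lit 28028419)))
(L (nat_lit 21801377)))
(L (nat_lit 16475333)))
(L (nat_lit 586005)))
(L (nat_lit 19129358))))
(L (nat_lit 25762336)))))
(L (nat_lit 25625162)))))
(S (nat_lit 46162) (S (nat_lit 8077) (S (nat_lit 10987) (S (nat_lit 8994) (S (nat_lit 17174) (L (nat_lit 12707122))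
(S (nat_lit 19816) (S (nat_lit 31018) (L (nat_lit 8935266))
(L (nat_lit 14017554)))
(L (nat_lit 30879459))))
(S (nat_lit 28758) (S (nat_lit 13617) (S (nat_lit 8806) (L (nat_lit 13343868))
(L (nat_lit 7262595)))
(L (nat_lit 26430851)))
(S (nat_lit 48522) (S (nat_lit 52896) (S (nat_lit 47793) (L (nat_lit 13996855))
(L (nat_lit 22327323)))
(L (nat_lit 12300315)))
(L (nat_lit 25367094)))))
(S (nat_lit 30751) (S (nat_lit 13617) (S (nat_lit 6827) (S (nat_lit 48334) (S (nat_lit 7342) (S (nat_lit 19816) (S (nat_lit 15377) (S (nat_lit 24884) (S (nat_lit 50782) (L (nat_lit 2310845))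
(L (nat_lit 13436649)))
(L (nat_lit 7211479)))
(L (nat_lit 15060092)))
(L (nat_lit 10153102)))
(L (nat_lit 13440247)))
(L (nat_lit 11693463)))
(L (nat_lit 12809955)))
(S (nat_lit 33381) (S (nat_lit 6827) (S (nat_lit 28278) (L (nat_lit 5124471))
(L (nat_lit 19194275)))
(L (nat_lit 12809795)))
(S (nat_lit 53145) (S (nat_lit 47072) (S (nat_lit 24884) (S (nat_lit 48334) (S (nat_lit 27373) (S (nat_lit 10711) (L (nat_lit 11627990))
(L (nat_lit 26594412)))
(L (nat_lit 24372672)))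
(L (nat_lit 11695671)))
(L (nat_lit 6354670)))
(L (nat_lit 9889475)))
(L (nat_lit 25567415)))))
(S (nat_lit 50515) (S (nat_lit 7116) (S (nat_lit 7098) (S (nat_lit 9243) (S (nat_lit 7544) (L (nat_lit 6207703))
(L (nat_lit 21806403)))
(L (nat_lit 21523558)))
(L (nat_lit 13896313)))
(L (nat_lit 14347589)))
(L (nat_lit 25465234)))))
(S (nat_lit 27841) (S (nat_lit 7833) (S (nat_lit 46391) (S (nat_lit 19617) (L (nat_lit 19674246))
(S (nat_lit 26353) (S (nat_lit 9243) (S (nat_lit 11189) (S (nat_lit 6827) (S (nat_lit 26360) (S (nat_lit 46870) (S (nat_lit 54905) (L (nat_lit 19046876))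
(L (nat_lit 21770501)))
(L (nat_lit 22844654)))
(L (nat_lit 9188005)))
(L (nat_lit 7081552)))
(L (nat_lit 21800483)))
(L (nat_lit 7892675)))
(L (nat_lit 9188995))))
(S (nat_lit 55902) (L (nat_lit 8581839))
(L (nat_lit 11187075))))
(S (nat_lit 27597) (S (nat_lit 4892) (S (nat_lit 7116) (S (nat_lit 753) (L (nat_lit 18883471))
(L (nat_lit 9016237)))
(L (nat_lit 7006723)))
(S (nat_lit 24656) (S (nat_lit 54613) (S (nat_lit 6827) (S (nat_lit 46642) (S (nat_lit 54905) (L (nat_lit 7791731))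
(L (nat_lit 21770346)))
(L (nat_lit 27952398)))
(L (nat_lit 5031189)))
(L (nat_lit 19294561)))
(S (nat_lit 44420) (S (nat_lit 17257) (S (nat_lit 47137) (S (nat_lit 6827) (L (nat_lit 7078639))
(L (nat_lit 7796291)))
(L (nat_lit 27797056)))
(L (nat_lit 10131308)))
(L (nat_lit 25828866)))))
(S (nat_lit 47361) (S (nat_lit 10987) (S (nat_lit 9243) (S (nat_lit 49802) (S (nat_lit 26353) (L (nat_lit 3453810))
(L (nat_lit 18966921)))
(L (nat_lit 5524365)))
(L (nat_lit 21196227)))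
(S (nat_lit 30751) (S (nat_lit 17046) (S (nat_lit 27106) (L (nat_lit 6450647))
(L (nat_lit 24243438)))
(L (nat_lit 24981577)))
(S (nat_lit 50515) (S (nat_lit 28570) (S (nat_lit 36619) (L (nat_lit 19088259))
(L (nat_lit 21507875)))
(L (nat_lit 30562697)))
(L (nat_lit 25283976)))))
(L (nat_lit 25867402)))))
(S (nat_lit 47605) (S (nat_lit 8786) (S (nat_lit 5120) (S (nat_lit 46350) (S (nat_lit 37021) (L (nat_lit 29512945))
(L (nat_lit 8261324)))
(L (nat_lit 27463372)))
(S (nat_lit 24884) (S (nat_lit 3833) (L (nat_lit 7130284))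
(S (nat_lit 54176) (S (nat_lit 26353) (S (nat_lit 21011) (S (nat_lit 5178) (L (nat_lit 16829785))
(L (nat_lit 19199057)))
(L (nat_lit 1265113)))
(L (nat_lit 19673315)))
(L (nat_lit 5848966))))
(S (nat_lit 44648) (S (nat_lit 35141) (S (nat_lit 28348) (S (nat_lit 7609) (L (nat_lit 5593903))
(L (nat_lit 14585202)))
(L (nat_lit 4891439)))
(L (nat_lit 13470411)))
(L (nat_lit 25791943)))))
(S (nat_lit 28550) (S (nat_lit 15814) (S (nat_lit 5443) (L (nat_lit 27676900))
(S (nat_lit 25153) (S (nat_lit 19816) (S (nat_lit 6829) (L (nat_lit 15927063))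
(L (nat_lit 21794344)))
(L (nat_lit 3813166)))
(L (nat_lit 6042933))))
(S (nat_lit 35578) (S (nat_lit 11688) (S (nat_lit 30751) (S (nat_lit 20083) (L (nat_lit 7356307))
(L (nat_lit 5779380)))
(L (nat_lit 9548658)))
(S (nat_lit 53086) (L (nat_lit 14421235))
(L (nat_lit 8451542))))
(S (nat_lit 55342) (S (nat_lit 54613) (S (nat_lit 26862) (S (nat_lit 28079) (S (nat_lit 8994) (S (nat_lit 44917) (S (nat_lit 30751) (S (nat_lit 35141) (S (nat_lit 27821) (L (nat_lit 3907132))
(L (nat_lit 19664240)))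
(L (nat_lit 9056347)))
(L (nat_lit 19675459)))
(L (nat_lit 12785369)))
(L (nat_lit 6448534)))
(L (nat_lit 8119843)))
(L (nat_lit 9197091)))
(L (nat_lit 27379434)))
(L (nat_lit 25416129)))))
(S (nat_lit 48314) (S (nat_lit 530) (S (nat_lit 26035) (L (nat_lit 9180658))
(S (nat_lit 51216) (S (nat_lit 46391) (L (nat_lit 20506979))
(L (nat_lit 27374155)))
(L (nat_lit 6213066))))
(S (nat_lit 20294) (S (nat_lit 33182) (S (nat_lit 20517) (L (nat_lit 5528123))
(L (nat_lit 16017089)))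
(L (nat_lit 20203297)))
(S (nat_lit 40058) (S (nat_lit 51216) (S (nat_lit 53145) (S (nat_lit 51499) (L (nat_lit 7737052))
(L (nat_lit 27891024)))
(L (nat_lit 27666083)))
(L (nat_lit 27922671)))
(L (nat_lit 25667296)))))
(L (nat_lit 25931787)))))
(L (nat_lit 25441362)))))
(L (nat_lit 25532047)))))
(S (nat_lit 48572) (S (nat_lit 13160) (S (nat_lit 17046) (S (nat_lit 7833) (S (nat_lit 10711) (S (nat_lit 39580) (S (nat_lit 31018) (S (nat_lit 17300) (L (nat_lit 14385464))
(L (nat_lit 12256013)))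
(L (nat_lit 13750025)))
(L (nat_lit 12016387)))
(S (nat_lit 30475) (S (nat_lit 34849) (S (nat_lit 51499) (S (nat_lit 52946) (S (nat_lit 56785) (L (nat_lit 27725042))
(L (nat_lit 21270076)))
(L (nat_lit 17098866)))
(L (nat_lit 27571282)))
(L (nat_lit 1364879)))
(S (nat_lit 50239) (S (nat_lit 19976) (L (nat_lit 15739513))
(S (nat_lit 24656) (S (nat_lit 46870) (S (nat_lit 48522) (L (nat_lit 21867939))
(L (nat_lit 14360356)))
(L (nat_lit 22484284)))
(L (nat_lit 13897494))))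
(L (nat_lit 25480364)))))
(S (nat_lit 27597) (S (nat_lit 11465) (S (nat_lit 24656) (S (nat_lit 21011) (S (nat_lit 47843) (S (nat_lit 37021) (S (nat_lit 31946) (L (nat_lit 10402868))
(L (nat_lit 7051020)))
(L (nat_lit 1763564)))
(L (nat_lit 22482138)))
(L (nat_lit 4662039)))
(S (nat_lit 41121) (L (nat_lit 22221213))
(L (nat_lit 13684651))))
(S (nat_lit 31229) (S (nat_lit 31946) (S (nat_lit 1036) (S (nat_lit 52946) (L (nat_lit 15338874))
(L (nat_lit 1361684)))
(L (nat_lit 13882112)))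
(L (nat_lit 6885134)))
(S (nat_lit 50993) (S (nat_lit 24656) (S (nat_lit 31946) (S (nat_lit 21011) (L (nat_lit 16553641))
(L (nat_lit 12235522)))
(L (nat_lit 13851394)))
(S (nat_lit 41434) (L (nat_lit 10931972))
(L (nat_lit 21020426))))
(L (nat_lit 25708866)))))
(S (nat_lit 47361) (S (nat_lit 6827) (S (nat_lit 24656) (S (nat_lit 46870) (S (nat_lit 31946) (S (nat_lit 7290) (S (nat_lit 39580) (L (nat_lit 16537736))
(L (nat_lit 10971874)))
(L (nat_lit 13652746)))
(L (nat_lit 14438535)))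
(L (nat_lit 16895755)))
(L (nat_lit 16830219)))
(S (nat_lit 7718) (L (nat_lit 26353329))
(L (nat_lit 8162896))))
(L (nat_lit 25791852)))))
(S (nat_lit 36810) (S (nat_lit 24656) (S (nat_lit 47605) (S (nat_lit 7609) (S (nat_lit 6827) (S (nat_lit 24884) (S (nat_lit 54905) (S (nat_lit 27821) (L (nat_lit 29469077))
(L (nat_lit 30653493)))
(L (nat_lit 27610191)))
(L (nat_lit 30752951)))
(L (nat_lit 12832577)))
(S (nat_lit 8903) (L (nat_lit 4106892))
(L (nat_lit 3067339))))
(L (nat_lit 22818890)))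
(L (nat_lit 30719030)))
(S (nat_lit 56574) (S (nat_lit 8514) (S (nat_lit 543) (S (nat_lit 7116) (S (nat_lit 7114) (L (nat_lit 26510804))
(L (nat_lit 6842519)))
(L (nat_lit 13519171)))
(S (nat_lit 20307) (S (nat_lit 6827) (S (nat_lit 6596) (L (nat_lit 21235197))
(L (nat_lit 13737907)))
(L (nat_lit 7114481)))
(S (nat_lit 40071) (S (nat_lit 0) (S (nat_lit 319) (S (nat_lit 753) (L (nat_lit 19274874))
(L (nat_lit 13639602)))
(L (nat_lit 14585513)))
(L (nat_lit 14457441)))
(L (nat_lit 25695911)))))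
(S (nat_lit 28278) (S (nat_lit 7609) (S (nat_lit 45166) (S (nat_lit 40564) (S (nat_lit 46391) (L (nat_lit 14228568))
(L (nat_lit 27826913)))
(L (nat_lit 1372565)))
(L (nat_lit 15605409)))
(L (nat_lit 14585202)))
(S (nat_lit 48042) (S (nat_lit 11189) (S (nat_lit 4681) (S (nat_lit 19764) (S (nat_lit 11465) (L (nat_lit 4418157))
(L (nat_lit 16327708)))
(L (nat_lit 3742605)))
(S (nat_lit 14757) (L (nat_lit 6375255))
(L (nat_lit 18606272))))
(L (nat_lit 7039521)))
(L (nat_lit 25344310)))))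
(L (nat_lit 25904420)))))
(S (nat_lit 32924) (S (nat_lit 6845) (S (nat_lit 10987) (S (nat_lit 15085) (S (nat_lit 40058) (S (nat_lit 50239) (L (nat_lit 22319888))
(L (nat_lit 13927346)))
(L (nat_lit 2408184)))
(S (nat_lit 34849) (S (nat_lit 5510) (L (nat_lit 23955882))
(S (nat_lit 11189) (S (nat_lit 27373) (S (nat_lit 46124) (L (nat_lit 8195761))
(L (nat_lit 27368112)))
(L (nat_lit 15978405)))
(L (nat_lit 23634689))))
(S (nat_lit 54613) (S (nat_lit 7116) (S (nat_lit 39782) (L (nat_lit 29670454))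
(L (nat_lit 24027555)))
(L (nat_lit 6315948)))
(L (nat_lit 25348522)))))
(S (nat_lit 30751) (S (nat_lit 6634) (S (nat_lit 7098) (S (nat_lit 6863) (S (nat_lit 48771) (S (nat_lit 4892) (S (nat_lit 28550) (S (nat_lit 56828) (S (nat_lit 51216) (S (nat_lit 17257) (L (nat_lit 20028890))
(L (nat_lit 14804310)))
(L (nat_lit 8295089)))
(L (nat_lit 27899232)))
(L (nat_lit 2410139)))
(L (nat_lit 3466924)))
(L (nat_lit 13759111)))
(L (nat_lit 23999499)))
(L (nat_lit 21463416)))
(S (nat_lit 26398) (S (nat_lit 7116) (S (nat_lit 40775) (S (nat_lit 48841) (L (nat_lit 11692439))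
(L (nat_lit 14278664)))
(L (nat_lit 10275888)))
(S (nat_lit 58166) (L (nat_lit 15995666))
(L (nat_lit 13982744))))
(S (nat_lit 46162) (S (nat_lit 7098) (S (nat_lit 4892) (S (nat_lit 54905) (S (nat_lit 52946) (L (nat_lit 19172205))
(L (nat_lit 17066034)))
(L (nat_lit 27610191)))
(L (nat_lit 3466924)))
(L (nat_lit 12733816)))
(L (nat_lit 25734786)))))
(S (nat_lit 50515) (S (nat_lit 10274) (S (nat_lit 6827) (S (nat_lit 26353) (S (nat_lit 27821) (L (nat_lit 23326117))
(L (nat_lit 11288197)))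
(L (nat_lit 15296738)))
(L (nat_lit 13332739)))
(S (nat_lit 30038) (S (nat_lit 27373) (S (nat_lit 51710) (S (nat_lit 13617) (L (nat_lit 30124448))
(L (nat_lit 3581719)))
(L (nat_lit 842249)))
(L (nat_lit 6852375)))
(S (nat_lit 49802) (S (nat_lit 5120) (S (nat_lit 40058) (L (nat_lit 19995533))
(L (nat_lit 27764448)))
(L (nat_lit 19163525)))
(L (nat_lit 25791725)))))
(L (nat_lit 25923917)))))
(S (nat_lit 26609) (S (nat_lit 5178) (S (nat_lit 7290) (S (nat_lit 20294) (S (nat_lit 4892) (S (nat_lit 11971) (S (nat_lit 46391) (L (nat_lit 18574657))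
(L (nat_lit 3938896)))
(L (nat_lit 23533355)))
(L (nat_lit 19152704)))
(L (nat_lit 1565419)))
(S (nat_lit 27054) (S (nat_lit 19816) (S (nat_lit 11971) (L (nat_lit 30586538))
(L (nat_lit 8787611)))
(L (nat_lit 16537922)))
(S (nat_lit 46818) (S (nat_lit 24884) (S (nat_lit 17046) (S (nat_lit 20294) (S (nat_lit 19816) (L (nat_lit 14723800))
(L (nat_lit 10393295)))
(L (nat_lit 21249049)))
(L (nat_lit 15408217)))
(L (nat_lit 13661430)))
(L (nat_lit 25506838)))))
(S (nat_lit 24942) (S (nat_lit 13274) (S (nat_lit 44543) (L (nat_lit 12315077))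
(L (nat_lit 30726692)))
(S (nat_lit 28029) (S (nat_lit 4892) (S (nat_lit 15814) (L (nat_lit 30952673))
(L (nat_lit 15435994)))
(L (nat_lit 19174844)))
(L (nat_lit 16668843))))
(S (nat_lit 44706) (S (nat_lit 10987) (S (nat_lit 26353) (S (nat_lit 26360) (S (nat_lit 33381) (L (nat_lit 9548476))
(L (nat_lit 15978371)))
(L (nat_lit 2419312)))
(L (nat_lit 14976914)))
(S (nat_lit 30751) (S (nat_lit 6596) (L (nat_lit 310973))
(L (nat_lit 1368688)))
(S (nat_lit 50515) (S (nat_lit 20800) (S (nat_lit 4892) (L (nat_lit 27558389))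
(L (nat_lit 18145954)))
(L (nat_lit 21280925)))
(L (nat_lit 25276080)))))
(L (nat_lit 25306801)))))
(S (nat_lit 46373) (S (nat_lit 11254) (S (nat_lit 7342) (S (nat_lit 46357) (S (nat_lit 28758) (S (nat_lit 31242) (S (nat_lit 26586) (L (nat_lit 6442393))
(L (nat_lit 8542029)))
(L (nat_lit 19336474)))
(L (nat_lit 8850358)))
(L (nat_lit 27675973)))
(S (nat_lit 27106) (S (nat_lit 54905) (S (nat_lit 26880) (L (nat_lit 8867000))
(L (nat_lit 16376165)))
(L (nat_lit 14290827)))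
(S (nat_lit 46870) (S (nat_lit 8786) (S (nat_lit 26586) (S (nat_lit 530) (L (nat_lit 6173387))
(L (nat_lit 7800726)))
(L (nat_lit 8539578)))
(L (nat_lit 23465739)))
(L (nat_lit 25629943)))))
(S (nat_lit 31018) (S (nat_lit 34849) (S (nat_lit 27373) (S (nat_lit 5178) (S (nat_lit 37021) (S (nat_lit 47843) (S (nat_lit 30038) (S (nat_lit 530) (L (nat_lit 12813915))
(L (nat_lit 26714134)))
(L (nat_lit 19304360)))
(L (nat_lit 22842920)))
(L (nat_lit 11266433)))
(L (nat_lit 11254593)))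
(L (nat_lit 16353195)))
(S (nat_lit 57848) (S (nat_lit 26627) (L (nat_lit 16012097))
(L (nat_lit 19706891)))
(L (nat_lit 16508257))))
(S (nat_lit 50782) (S (nat_lit 8315) (S (nat_lit 30038) (S (nat_lit 34849) (S (nat_lit 47793) (L (nat_lit 28685495))
(L (nat_lit 3569227)))
(L (nat_lit 16491393)))
(L (nat_lit 13209350)))
(S (nat_lit 12995) (L (nat_lit 12062612))
(L (nat_lit 14389128))))
(L (nat_lit 25547952)))))
(L (nat_lit 25763857)))))
(S (nat_lit 52688) (S (nat_lit 13180) (S (nat_lit 7544) (S (nat_lit 8514) (S (nat_lit 52) (S (nat_lit 10274) (S (nat_lit 11465) (S (nat_lit 6827) (S (nat_lit 5178) (L (nat_lit 28977569))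
(L (nat_lit 26695873)))
(L (nat_lit 23904267)))
(L (nat_lit 5532332)))
(L (nat_lit 21260837)))
(L (nat_lit 13473481)))
(S (nat_lit 28278) (S (nat_lit 44420) (S (nat_lit 12182) (L (nat_lit 29764163))
(L (nat_lit 21520576)))
(L (nat_lit 839082)))
(S (nat_lit 48042) (S (nat_lit 52) (L (nat_lit 28563877))
(S (nat_lit 15550) (L (nat_lit 21161414))
(L (nat_lit 14292315))))
(L (nat_lit 25344651)))))
(S (nat_lit 27308) (S (nat_lit 7342) (S (nat_lit 52) (S (nat_lit 8077) (S (nat_lit 6827) (S (nat_lit 28570) (S (nat_lit 40564) (S (nat_lit 26880) (S (nat_lit 50515) (S (nat_lit 28348) (L (nat_lit 9011769))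
(L (nat_lit 18968103)))
(L (nat_lit 22952259)))
(L (nat_lit 16441415)))
(L (nat_lit 3906415)))
(L (nat_lit 30792227)))
(L (nat_lit 21393699)))
(L (nat_lit 13283171)))
(L (nat_lit 8197838)))
(S (nat_lit 27106) (S (nat_lit 34849) (S (nat_lit 40281) (S (nat_lit 10274) (S (nat_lit 46642) (L (nat_lit 30563720))
(L (nat_lit 22029199)))
(L (nat_lit 21401416)))
(L (nat_lit 16802034)))
(L (nat_lit 15913272)))
(S (nat_lit 46870) (S (nat_lit 56574) (S (nat_lit 6827) (S (nat_lit 44420) (L (nat_lit 26449431))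
(L (nat_lit 826903)))
(L (nat_lit 7041475)))
(L (nat_lit 14568523)))
(L (nat_lit 25679139)))))
(S (nat_lit 47072) (S (nat_lit 8584) (S (nat_lit 52) (S (nat_lit 7820) (S (nat_lit 14856) (S (nat_lit 1036) (S (nat_lit 6827) (L (nat_lit 30084586))
(L (nat_lit 23498603)))
(L (nat_lit 13553734)))
(L (nat_lit 12834722)))
(L (nat_lit 21470114)))
(L (nat_lit 14506306)))
(S (nat_lit 28348) (S (nat_lit 10274) (S (nat_lit 52) (S (nat_lit 50239) (L (nat_lit 23152519))
(L (nat_lit 27806826)))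
(L (nat_lit 1518298)))
(L (nat_lit 21246045)))
(S (nat_lit 48112) (S (nat_lit 10274) (S (nat_lit 15585) (S (nat_lit 52) (L (nat_lit 3725223))
(L (nat_lit 6773666)))
(L (nat_lit 2745767)))
(L (nat_lit 1269308)))
(L (nat_lit 25187535)))))
(L (nat_lit 25887111)))))
(S (nat_lit 32944) (S (nat_lit 7098) (S (nat_lit 11688) (S (nat_lit 28348) (S (nat_lit 49802) (S (nat_lit 6827) (L (nat_lit 13425766))
(L (nat_lit 26627083)))
(L (nat_lit 14425173)))
(L (nat_lit 16550503)))
(L (nat_lit 21012401)))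
(S (nat_lit 26862) (S (nat_lit 6822) (S (nat_lit 33451) (S (nat_lit 31018) (S (nat_lit 51499) (L (nat_lit 29740077))
(L (nat_lit 1372658)))
(L (nat_lit 6084008)))
(L (nat_lit 16548214)))
(S (nat_lit 26586) (S (nat_lit 54176) (S (nat_lit 28029) (L (nat_lit 25042031))
(L (nat_lit 16092086)))
(L (nat_lit 27856112)))
(S (nat_lit 46350) (S (nat_lit 20517) (S (nat_lit 10987) (L (nat_lit 27854278))
(L (nat_lit 18142362)))
(L (nat_lit 22037754)))
(L (nat_lit 25890028)))))
(S (nat_lit 46626) (S (nat_lit 5178) (S (nat_lit 34849) (S (nat_lit 17046) (S (nat_lit 53145) (L (nat_lit 26332400))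
(L (nat_lit 27442854)))
(L (nat_lit 11950232)))
(S (nat_lit 38710) (L (nat_lit 20748835))
(L (nat_lit 1469814))))
(S (nat_lit 24942) (S (nat_lit 28348) (S (nat_lit 29077) (L (nat_lit 7801533))
(L (nat_lit 10256818)))
(L (nat_lit 15499474)))
(S (nat_lit 44706) (S (nat_lit 11971) (S (nat_lit 6827) (L (nat_lit 23217528))
(L (nat_lit 23326736)))
(L (nat_lit 9037904)))
(L (nat_lit 25306642)))))
(L (nat_lit 25218599)))))
(S (nat_lit 52708) (S (nat_lit 10987) (S (nat_lit 8242) (S (nat_lit 47137) (L (nat_lit 30651415))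
(L (nat_lit 27577824)))
(S (nat_lit 46124) (S (nat_lit 5389) (S (nat_lit 5178) (S (nat_lit 40564) (L (nat_lit 17997588))
(L (nat_lit 17100885)))
(L (nat_lit 18126707)))
(L (nat_lit 17846522)))
(L (nat_lit 6173290))))
(S (nat_lit 30751) (S (nat_lit 7116) (S (nat_lit 10274) (S (nat_lit 40775) (L (nat_lit 28673711))
(L (nat_lit 24946736)))
(L (nat_lit 21925101)))
(L (nat_lit 5630572)))
(S (nat_lit 50515) (S (nat_lit 26880) (S (nat_lit 47605) (S (nat_lit 15814) (L (nat_lit 6468218))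
(L (nat_lit 7060666)))
(S (nat_lit 57987) (L (nat_lit 19152058))
(L (nat_lit 6107882))))
(L (nat_lit 4579948)))
(L (nat_lit 25480578)))))
(L (nat_lit 25724616)))))
(L (nat_lit 25476837)))))
(L (nat_lit 25185706)))))

theorem rb179_2 : run 4 lb179 [] tb179_2 kb179 (P4 4 2197 2355 2217 5601 0 0 1 2) [] = true := by
  decide +kernel

noncomputable def ta13_4 : Tr :=
(S (nat_lit 267) (S (nat_lit 497) (S (nat_lit 1718) (S (nat_lit 119) (L (nat_lit 766121))
(S (nat_lit 743) (S (nat_lit 593) (S (nat_lit 1302) (S (nat_lit 3851) (S (nat_lit 4520) (S (nat_lit 4) (S (nat_lit 5731) (S (nat_lit 2400) (S (nat_lit 136) (S (nat_lit 542) (S (nat_lit 5450) (S (nat_lit 311) (S (nat_lit 0) (S (nat_lit 2714) (S (nat_lit 538) (D (nat_lit 14) (nat_lit 638308) (nat_lit 662604) (nat_lit 0))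
(L (nat_lit 89610)))
(L (nat_lit 233041)))
(L (nat_lit 433728)))
(L (nat_lit 560807)))
(L (nat_lit 691591)))
(L (nat_lit 732208)))
(L (nat_lit 728453)))
(L (nat_lit 461479)))
(L (nat_lit 657895)))
(L (nat_lit 40623)))
(L (nat_lit 121259)))
(L (nat_lit 311968)))
(L (nat_lit 470754)))
(S (nat_lit 2834) (S (nat_lit 4696) (L (nat_lit 143603))
(L (nat_lit 173619)))
(L (nat_lit 624166))))
(L (nat_lit 8599))))
(S (nat_lit 3932) (S (nat_lit 1241) (S (nat_lit 0) (S (nat_lit 4696) (L (nat_lit 625900))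
(L (nat_lit 672035)))
(L (nat_lit 426599)))
(S (nat_lit 3455) (S (nat_lit 2636) (S (nat_lit 2807) (S (nat_lit 5731) (L (nat_lit 738312))
(L (nat_lit 120231)))
(L (nat_lit 180499)))
(L (nat_lit 497749)))
(S (nat_lit 5669) (S (nat_lit 3851) (S (nat_lit 5171) (L (nat_lit 377875))
(L (nat_lit 500324)))
(L (nat_lit 318540)))
(L (nat_lit 603332)))))
(S (nat_lit 6146) (S (nat_lit 422) (S (nat_lit 3516) (S (nat_lit 5731) (L (nat_lit 633902))
(L (nat_lit 120231)))
(L (nat_lit 413956)))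
(S (nat_lit 2636) (S (nat_lit 4523) (S (nat_lit 2214) (S (nat_lit 3697) (L (nat_lit 87276))
(L (nat_lit 109232)))
(L (nat_lit 497718)))
(L (nat_lit 660784)))
(S (nat_lit 4850) (S (nat_lit 4) (S (nat_lit 1) (L (nat_lit 150894))
(L (nat_lit 400962)))
(L (nat_lit 411938)))
(L (nat_lit 596514)))))
(L (nat_lit 601540)))))
(S (nat_lit 2711) (S (nat_lit 1303) (S (nat_lit 1637) (S (nat_lit 4432) (S (nat_lit 593) (S (nat_lit 5070) (L (nat_lit 494835))
(L (nat_lit 723277)))
(L (nat_lit 384515)))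
(L (nat_lit 340051)))
(S (nat_lit 3851) (S (nat_lit 3516) (S (nat_lit 743) (S (nat_lit 3630) (L (nat_lit 114036))
(L (nat_lit 627083)))
(L (nat_lit 631173)))
(L (nat_lit 758187)))
(S (nat_lit 6065) (S (nat_lit 2214) (L (nat_lit 531506))
(L (nat_lit 285088)))
(L (nat_lit 594254)))))
(S (nat_lit 3517) (S (nat_lit 1483) (L (nat_lit 557767))
(S (nat_lit 3697) (S (nat_lit 4436) (L (nat_lit 701665))
(L (nat_lit 349733)))
(S (nat_lit 5911) (S (nat_lit 4614) (L (nat_lit 449639))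
(L (nat_lit 346627)))
(L (nat_lit 600205)))))
(S (nat_lit 5731) (S (nat_lit 500) (S (nat_lit 2482) (S (nat_lit 3851) (S (nat_lit 2636) (S (nat_lit 4436) (L (nat_lit 722253))
(L (nat_lit 187728)))
(L (nat_lit 482375)))
(L (nat_lit 42451)))
(L (nat_lit 120358)))
(S (nat_lit 2714) (S (nat_lit 315) (L (nat_lit 402483))
(S (nat_lit 3851) (S (nat_lit 8) (S (nat_lit 5264) (S (nat_lit 2214) (S (nat_lit 593) (L (nat_lit 563316))
(L (nat_lit 82664)))
(L (nat_lit 106125)))
(L (nat_lit 510273)))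
(L (nat_lit 18768)))
(L (nat_lit 318476))))
(S (nat_lit 4928) (S (nat_lit 2215) (S (nat_lit 3851) (S (nat_lit 2222) (S (nat_lit 593) (S (nat_lit 3050) (L (nat_lit 364109))
(L (nat_lit 567971)))
(L (nat_lit 448771)))
(L (nat_lit 111955)))
(L (nat_lit 548194)))
(S (nat_lit 4655) (L (nat_lit 495210))
(L (nat_lit 121225))))
(L (nat_lit 597476)))))
(L (nat_lit 592145)))))
(S (nat_lit 4925) (S (nat_lit 1483) (S (nat_lit 4520) (S (nat_lit 268) (S (nat_lit 5168) (S (nat_lit 186) (S (nat_lit 1482) (S (nat_lit 2218) (S (nat_lit 875) (S (nat_lit 533) (S (nat_lit 776) (S (nat_lit 75) (S (nat_lit 5683) (S (nat_lit 4487) (S (nat_lit 4388) (S (nat_lit 4481) (S (nat_lit 791) (S (nat_lit 225) (S (nat_lit 3884) (D (nat_lit 10) (nat_lit 729472) (nat_lit 45270) (nat_lit 0))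
(L (nat_lit 702507)))
(L (nat_lit 14578)))
(L (nat_lit 178890)))
(L (nat_lit 757290)))
(L (nat_lit 403044)))
(L (nat_lit 513194)))
(L (nat_lit 83187)))
(L (nat_lit 580897)))
(L (nat_lit 698821)))
(L (nat_lit 705829)))
(S (nat_lit 6243) (S (nat_lit 4559) (S (nat_lit 2773) (S (nat_lit 2066) (S (nat_lit 5731) (S (nat_lit 3959) (S (nat_lit 5703) (D (nat_lit 8) (nat_lit 415750) (nat_lit 510307) (nat_lit 69861376000))
(L (nat_lit 561739)))
(L (nat_lit 701732)))
(L (nat_lit 284064)))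
(L (nat_lit 348174)))
(L (nat_lit 394551)))
(L (nat_lit 413986)))
(L (nat_lit 115959))))
(L (nat_lit 460082)))
(L (nat_lit 562886)))
(L (nat_lit 181958)))
(L (nat_lit 372788)))
(L (nat_lit 433300)))
(S (nat_lit 6344) (S (nat_lit 5168) (S (nat_lit 1241) (L (nat_lit 41493))
(L (nat_lit 24040)))
(L (nat_lit 172719)))
(L (nat_lit 565394))))
(S (nat_lit 3697) (S (nat_lit 92) (S (nat_lit 6146) (L (nat_lit 732305))
(L (nat_lit 671913)))
(S (nat_lit 2306) (S (nat_lit 2309) (S (nat_lit 186) (L (nat_lit 562388))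
(L (nat_lit 109107)))
(L (nat_lit 759275)))
(S (nat_lit 4520) (S (nat_lit 268) (S (nat_lit 3696) (S (nat_lit 2954) (S (nat_lit 186) (S (nat_lit 6296) (L (nat_lit 75437))
(L (nat_lit 464583)))
(L (nat_lit 122407)))
(L (nat_lit 318479)))
(S (nat_lit 4209) (S (nat_lit 5731) (S (nat_lit 186) (L (nat_lit 630925))
(L (nat_lit 122375)))
(L (nat_lit 113223)))
(L (nat_lit 267889))))
(L (nat_lit 448646)))
(L (nat_lit 590218)))))
(S (nat_lit 5911) (S (nat_lit 3851) (S (nat_lit 5730) (S (nat_lit 743) (S (nat_lit 4523) (S (nat_lit 593) (S (nat_lit 268) (S (nat_lit 740) (S (nat_lit 3455) (S (nat_lit 1189) (S (nat_lit 5201) (S (nat_lit 1191) (S (nat_lit 438) (S (nat_lit 3805) (D (nat_lit 8) (nat_lit 19728) (nat_lit 607492) (nat_lit 34359773186))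
(L (nat_lit 624072)))
(L (nat_lit 45768)))
(L (nat_lit 757104)))
(L (nat_lit 705889)))
(L (nat_lit 232981)))
(L (nat_lit 758031)))
(L (nat_lit 41494)))
(L (nat_lit 435939)))
(L (nat_lit 434915)))
(L (nat_lit 665025)))
(L (nat_lit 247461)))
(L (nat_lit 211522)))
(L (nat_lit 278613)))
(L (nat_lit 594376)))))
(L (nat_lit 592240)))))
(S (nat_lit 2481) (S (nat_lit 422) (S (nat_lit 1) (S (nat_lit 1241) (S (nat_lit 2957) (S (nat_lit 1637) (S (nat_lit 2222) (L (nat_lit 78473))
(L (nat_lit 275637)))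
(L (nat_lit 177898)))
(L (nat_lit 111339)))
(S (nat_lit 3455) (S (nat_lit 5730) (S (nat_lit 4523) (S (nat_lit 1718) (L (nat_lit 693487))
(L (nat_lit 341732)))
(L (nat_lit 333520)))
(L (nat_lit 449641)))
(S (nat_lit 5669) (S (nat_lit 3696) (S (nat_lit 4436) (S (nat_lit 4925) (L (nat_lit 700552))
(L (nat_lit 178484)))
(L (nat_lit 563380)))
(L (nat_lit 77268)))
(L (nat_lit 594127)))))
(S (nat_lit 2215) (S (nat_lit 208) (L (nat_lit 510273))
(S (nat_lit 5021) (S (nat_lit 2222) (S (nat_lit 2957) (S (nat_lit 3696) (S (nat_lit 5731) (S (nat_lit 2714) (S (nat_lit 5264) (S (nat_lit 4520) (S (nat_lit 1637) (S (nat_lit 682) (S (nat_lit 3479) (S (nat_lit 215) (S (nat_lit 4499) (S (nat_lit 1417) (S (nat_lit 3221) (S (nat_lit 4730) (S (nat_lit 2711) (D (nat_lit 8) (nat_lit 691472) (nat_lit 313857) (nat_lit 34359740416))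
(L (nat_lit 499397)))
(L (nat_lit 635911)))
(S (nat_lit 3727) (S (nat_lit 120) (S (nat_lit 2660) (S (nat_lit 4873) (D (nat_lit 8) (nat_lit 382400) (nat_lit 444610) (nat_lit 67108864))
(L (nat_lit 702538)))
(L (nat_lit 11733)))
(L (nat_lit 670980)))
(L (nat_lit 512137))))
(L (nat_lit 578788)))
(L (nat_lit 468018)))
(L (nat_lit 470754)))
(L (nat_lit 635976)))
(S (nat_lit 5669) (S (nat_lit 4810) (S (nat_lit 311) (S (nat_lit 6025) (S (nat_lit 594) (S (nat_lit 4428) (S (nat_lit 40) (S (nat_lit 2213) (S (nat_lit 2486) (S (nat_lit 4390) (D (nat_lit 14) (nat_lit 229812) (nat_lit 138892) (nat_lit 0))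
(L (nat_lit 435350)))
(L (nat_lit 701700)))
(L (nat_lit 672068)))
(L (nat_lit 658888)))
(L (nat_lit 668897)))
(L (nat_lit 664964)))
(L (nat_lit 736392)))
(L (nat_lit 736453)))
(L (nat_lit 729231)))
(L (nat_lit 144660))))
(L (nat_lit 495990)))
(L (nat_lit 375523)))
(L (nat_lit 48500)))
(L (nat_lit 81638)))
(L (nat_lit 502838)))
(L (nat_lit 314753)))
(L (nat_lit 761967)))
(S (nat_lit 4216) (L (nat_lit 493846))
(L (nat_lit 86538))))
(L (nat_lit 49364))))
(S (nat_lit 4429) (S (nat_lit 497) (S (nat_lit 1637) (S (nat_lit 4696) (S (nat_lit 5731) (L (nat_lit 332309))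
(L (nat_lit 120081)))
(L (nat_lit 529990)))
(L (nat_lit 577890)))
(S (nat_lit 2711) (S (nat_lit 1637) (S (nat_lit 92) (S (nat_lit 5730) (L (nat_lit 732273))
(L (nat_lit 501316)))
(L (nat_lit 426230)))
(L (nat_lit 513344)))
(S (nat_lit 4925) (S (nat_lit 1637) (S (nat_lit 1483) (S (nat_lit 2309) (S (nat_lit 4109) (S (nat_lit 3696) (L (nat_lit 481318))
(L (nat_lit 118151)))
(L (nat_lit 469730)))
(L (nat_lit 497387)))
(L (nat_lit 502498)))
(L (nat_lit 499734)))
(L (nat_lit 600485)))))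
(L (nat_lit 595983)))))
(S (nat_lit 2636) (S (nat_lit 1868) (S (nat_lit 95) (S (nat_lit 5021) (S (nat_lit 4520) (L (nat_lit 658983))
(L (nat_lit 112884)))
(L (nat_lit 673025)))
(S (nat_lit 2309) (S (nat_lit 2711) (S (nat_lit 4415) (S (nat_lit 8) (S (nat_lit 2141) (L (nat_lit 242242))
(L (nat_lit 703494)))
(L (nat_lit 7702)))
(L (nat_lit 106964)))
(L (nat_lit 117158)))
(S (nat_lit 4523) (S (nat_lit 5021) (S (nat_lit 4520) (S (nat_lit 497) (L (nat_lit 631203))
(L (nat_lit 637958)))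
(L (nat_lit 342098)))
(L (nat_lit 265780)))
(L (nat_lit 605354)))))
(S (nat_lit 4082) (S (nat_lit 5731) (S (nat_lit 0) (S (nat_lit 1482) (S (nat_lit 95) (S (nat_lit 500) (S (nat_lit 1241) (S (nat_lit 4925) (S (nat_lit 740) (S (nat_lit 2957) (S (nat_lit 268) (S (nat_lit 1526) (S (nat_lit 785) (S (nat_lit 781) (S (nat_lit 6422) (D (nat_lit 14) (nat_lit 638308) (nat_lit 659879) (nat_lit 0))
(L (nat_lit 497844)))
(L (nat_lit 403604)))
(L (nat_lit 377412)))
(L (nat_lit 377476)))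
(L (nat_lit 416034)))
(L (nat_lit 89642)))
(L (nat_lit 41581)))
(L (nat_lit 186792)))
(L (nat_lit 22952)))
(L (nat_lit 413800)))
(L (nat_lit 250337)))
(S (nat_lit 1752) (L (nat_lit 78571))
(L (nat_lit 219279))))
(L (nat_lit 209504)))
(L (nat_lit 667104)))
(S (nat_lit 6296) (S (nat_lit 5168) (S (nat_lit 5021) (S (nat_lit 500) (S (nat_lit 5730) (S (nat_lit 1483) (L (nat_lit 561735))
(L (nat_lit 56776)))
(L (nat_lit 110071)))
(L (nat_lit 396966)))
(L (nat_lit 198196)))
(S (nat_lit 5930) (L (nat_lit 105012))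
(L (nat_lit 500788))))
(L (nat_lit 593319)))))
(S (nat_lit 4850) (S (nat_lit 268) (S (nat_lit 4) (S (nat_lit 4523) (S (nat_lit 4925) (S (nat_lit 3697) (S (nat_lit 4928) (L (nat_lit 267856))
(L (nat_lit 579908)))
(L (nat_lit 113257)))
(L (nat_lit 174768)))
(S (nat_lit 5523) (L (nat_lit 671044))
(L (nat_lit 547107))))
(S (nat_lit 2218) (S (nat_lit 4082) (L (nat_lit 286208))
(L (nat_lit 544962)))
(S (nat_lit 4432) (S (nat_lit 5021) (S (nat_lit 5910) (L (nat_lit 147702))
(L (nat_lit 667815)))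
(L (nat_lit 662017)))
(L (nat_lit 596047)))))
(S (nat_lit 2482) (S (nat_lit 593) (S (nat_lit 2957) (S (nat_lit 2222) (L (nat_lit 56842))
(L (nat_lit 285220)))
(L (nat_lit 757291)))
(S (nat_lit 2807) (L (nat_lit 316961))
(S (nat_lit 5021) (S (nat_lit 1) (S (nat_lit 2957) (S (nat_lit 5910) (S (nat_lit 5731) (L (nat_lit 728546))
(L (nat_lit 665056)))
(L (nat_lit 667969)))
(L (nat_lit 411908)))
(L (nat_lit 18670)))
(L (nat_lit 606310)))))
(S (nat_lit 4696) (S (nat_lit 4436) (S (nat_lit 4614) (S (nat_lit 4432) (S (nat_lit 5021) (S (nat_lit 4520) (S (nat_lit 4928) (S (nat_lit 2309) (S (nat_lit 5731) (S (nat_lit 4884) (S (nat_lit 4624) (S (nat_lit 4655) (S (nat_lit 2175) (D (nat_lit 14) (nat_lit 738474) (nat_lit 694413) (nat_lit 0))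
(L (nat_lit 728143)))
(L (nat_lit 636935)))
(L (nat_lit 56843)))
(L (nat_lit 313856)))
(L (nat_lit 665056)))
(L (nat_lit 467123)))
(L (nat_lit 576584)))
(L (nat_lit 576586)))
(L (nat_lit 656934)))
(L (nat_lit 578851)))
(L (nat_lit 575558)))
(L (nat_lit 361012)))
(L (nat_lit 599555)))))
(L (nat_lit 604233)))))
(S (nat_lit 4695) (S (nat_lit 8) (S (nat_lit 0) (S (nat_lit 1303) (S (nat_lit 95) (S (nat_lit 1718) (L (nat_lit 83218))
(L (nat_lit 634244)))
(L (nat_lit 446475)))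
(S (nat_lit 3517) (S (nat_lit 95) (S (nat_lit 4) (L (nat_lit 689455))
(L (nat_lit 230030)))
(L (nat_lit 249872)))
(S (nat_lit 5731) (S (nat_lit 95) (S (nat_lit 4) (S (nat_lit 2954) (L (nat_lit 198098))
(L (nat_lit 411691)))
(L (nat_lit 411906)))
(S (nat_lit 2769) (L (nat_lit 247919))
(L (nat_lit 426667))))
(L (nat_lit 599089)))))
(S (nat_lit 2214) (S (nat_lit 1303) (S (nat_lit 4850) (S (nat_lit 2807) (S (nat_lit 4523) (L (nat_lit 83218))
(L (nat_lit 524596)))
(L (nat_lit 345205)))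
(L (nat_lit 310292)))
(S (nat_lit 3517) (S (nat_lit 2168) (L (nat_lit 466528))
(S (nat_lit 4082) (S (nat_lit 2603) (L (nat_lit 342198))
(L (nat_lit 280992)))
(L (nat_lit 758988))))
(S (nat_lit 5731) (S (nat_lit 1868) (S (nat_lit 6065) (S (nat_lit 5910) (S (nat_lit 5168) (S (nat_lit 4850) (S (nat_lit 4432) (S (nat_lit 4925) (S (nat_lit 4928) (S (nat_lit 4520) (S (nat_lit 4523) (S (nat_lit 4614) (S (nat_lit 889) (S (nat_lit 2091) (S (nat_lit 3634) (S (nat_lit 1440) (S (nat_lit 6180) (D (nat_lit 8) (nat_lit 85197) (nat_lit 498240) (nat_lit 68721608706))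
(L (nat_lit 695748)))
(L (nat_lit 771429)))
(L (nat_lit 700426)))
(L (nat_lit 767298)))
(S (nat_lit 4477) (S (nat_lit 3058) (S (nat_lit 233) (S (nat_lit 5875) (S (nat_lit 5723) (S (nat_lit 195) (D (nat_lit 10) (nat_lit 213077) (nat_lit 144628) (nat_lit 0))
(L (nat_lit 667718)))
(L (nat_lit 734465)))
(L (nat_lit 533651)))
(L (nat_lit 768352)))
(L (nat_lit 702821)))
(L (nat_lit 437957))))
(L (nat_lit 330293)))
(L (nat_lit 121322)))
(L (nat_lit 121258)))
(L (nat_lit 576836)))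
(L (nat_lit 576868)))
(L (nat_lit 373443)))
(L (nat_lit 576802)))
(L (nat_lit 186891)))
(L (nat_lit 346561)))
(L (nat_lit 663628)))
(L (nat_lit 117966)))
(L (nat_lit 594343)))))
(S (nat_lit 4428) (S (nat_lit 740) (S (nat_lit 5669) (S (nat_lit 5910) (S (nat_lit 5171) (S (nat_lit 4850) (L (nat_lit 149127))
(L (nat_lit 579808)))
(L (nat_lit 373444)))
(L (nat_lit 182662)))
(L (nat_lit 177428)))
(S (nat_lit 2954) (S (nat_lit 5171) (S (nat_lit 2807) (L (nat_lit 46726))
(L (nat_lit 170609)))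
(L (nat_lit 144075)))
(S (nat_lit 5168) (S (nat_lit 4429) (S (nat_lit 4520) (S (nat_lit 5171) (L (nat_lit 384077))
(L (nat_lit 176843)))
(L (nat_lit 118001)))
(L (nat_lit 373814)))
(L (nat_lit 607428)))))
(L (nat_lit 603175)))))
(S (nat_lit 2222) (S (nat_lit 1241) (S (nat_lit 1637) (S (nat_lit 422) (S (nat_lit 2215) (L (nat_lit 563808))
(L (nat_lit 315779)))
(S (nat_lit 1605) (L (nat_lit 252322))
(L (nat_lit 119303))))
(S (nat_lit 3851) (S (nat_lit 3697) (S (nat_lit 3516) (L (nat_lit 44719))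
(L (nat_lit 763362)))
(L (nat_lit 436407)))
(S (nat_lit 6065) (S (nat_lit 6146) (S (nat_lit 3516) (S (nat_lit 2636) (S (nat_lit 268) (L (nat_lit 689424))
(L (nat_lit 345268)))
(L (nat_lit 496231)))
(L (nat_lit 413956)))
(L (nat_lit 668839)))
(L (nat_lit 599426)))))
(S (nat_lit 3455) (S (nat_lit 593) (S (nat_lit 4696) (L (nat_lit 627242))
(L (nat_lit 184838)))
(S (nat_lit 2807) (S (nat_lit 1483) (S (nat_lit 49) (L (nat_lit 109135))
(S (nat_lit 5730) (S (nat_lit 2636) (S (nat_lit 4523) (S (nat_lit 5731) (S (nat_lit 2215) (S (nat_lit 6065) (S (nat_lit 2437) (S (nat_lit 2732) (S (nat_lit 1172) (S (nat_lit 1347) (S (nat_lit 6451) (D (nat_lit 8) (nat_lit 52774) (nat_lit 263634) (nat_lit 68719543297))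
(L (nat_lit 635072)))
(L (nat_lit 415785)))
(L (nat_lit 209504)))
(L (nat_lit 198384)))
(L (nat_lit 722470)))
(L (nat_lit 668992)))
(L (nat_lit 459400)))
(L (nat_lit 284128)))
(L (nat_lit 342627)))
(L (nat_lit 509961)))
(L (nat_lit 114965))))
(S (nat_lit 3671) (L (nat_lit 478528))
(L (nat_lit 202197))))
(S (nat_lit 5021) (S (nat_lit 2218) (S (nat_lit 5730) (L (nat_lit 727524))
(L (nat_lit 285806)))
(L (nat_lit 492105)))
(L (nat_lit 593169)))))
(S (nat_lit 5669) (S (nat_lit 1) (S (nat_lit 5168) (L (nat_lit 177863))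
(L (nat_lit 657647)))
(S (nat_lit 2215) (S (nat_lit 2309) (S (nat_lit 1718) (S (nat_lit 6296) (S (nat_lit 2400) (L (nat_lit 40558))
(L (nat_lit 295476)))
(L (nat_lit 318880)))
(L (nat_lit 283822)))
(S (nat_lit 5757) (L (nat_lit 757964))
(L (nat_lit 464149))))
(S (nat_lit 4429) (S (nat_lit 4696) (L (nat_lit 512040))
(L (nat_lit 184622)))
(L (nat_lit 603145)))))
(L (nat_lit 605318)))))
(S (nat_lit 4436) (S (nat_lit 0) (S (nat_lit 1482) (S (nat_lit 5168) (S (nat_lit 2636) (L (nat_lit 497811))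
(L (nat_lit 477408)))
(L (nat_lit 377874)))
(S (nat_lit 3696) (S (nat_lit 5171) (S (nat_lit 5264) (S (nat_lit 422) (L (nat_lit 514218))
(L (nat_lit 636999)))
(L (nat_lit 667041)))
(L (nat_lit 181866)))
(S (nat_lit 5910) (S (nat_lit 422) (S (nat_lit 95) (L (nat_lit 109014))
(L (nat_lit 250337)))
(L (nat_lit 414791)))
(L (nat_lit 595311)))))
(S (nat_lit 2214) (S (nat_lit 1868) (S (nat_lit 5731) (S (nat_lit 6065) (S (nat_lit 5264) (S (nat_lit 2714) (S (nat_lit 4520) (L (nat_lit 52679))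
(L (nat_lit 333552)))
(L (nat_lit 494837)))
(L (nat_lit 427594)))
(L (nat_lit 467520)))
(S (nat_lit 6164) (S (nat_lit 2714) (L (nat_lit 513250))
(L (nat_lit 502340)))
(L (nat_lit 513127))))
(S (nat_lit 4082) (S (nat_lit 5910) (L (nat_lit 500352))
(L (nat_lit 348303)))
(S (nat_lit 6296) (S (nat_lit 422) (S (nat_lit 2400) (L (nat_lit 284193))
(L (nat_lit 148854)))
(L (nat_lit 624135)))
(L (nat_lit 593262)))))
(S (nat_lit 4428) (S (nat_lit 1868) (S (nat_lit 4432) (S (nat_lit 2807) (L (nat_lit 276096))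
(L (nat_lit 331317)))
(L (nat_lit 557673)))
(S (nat_lit 4082) (S (nat_lit 4614) (L (nat_lit 658700))
(L (nat_lit 545093)))
(S (nat_lit 6296) (S (nat_lit 3516) (S (nat_lit 5669) (S (nat_lit 740) (S (nat_lit 4432) (S (nat_lit 4520) (S (nat_lit 2309) (S (nat_lit 5911) (S (nat_lit 5135) (S (nat_lit 6369) (S (nat_lit 5923) (S (nat_lit 1162) (S (nat_lit 5839) (S (nat_lit 3463) (S (nat_lit 5871) (S (nat_lit 5122) (D (nat_lit 14) (nat_lit 412931) (nat_lit 526580) (nat_lit 0))
(L (nat_lit 535603)))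
(L (nat_lit 631200)))
(L (nat_lit 639114)))
(L (nat_lit 557705)))
(L (nat_lit 664004)))
(L (nat_lit 88553)))
(L (nat_lit 735401)))
(L (nat_lit 735525)))
(L (nat_lit 340150)))
(L (nat_lit 262736)))
(L (nat_lit 360882)))
(L (nat_lit 361070)))
(L (nat_lit 8781)))
(L (nat_lit 182760)))
(L (nat_lit 344180)))
(L (nat_lit 600482)))))
(L (nat_lit 597408)))))
(L (nat_lit 591185)))))
(L (nat_lit 606344)))))

theorem ra13_4 : run 3 la13 [] ta13_4 ka13 (P4 3 3 623 79 623 1 0 0 0) [] = true := by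
  decide +kernel

end Pool.Agent.MP_92191b_al.K3.E
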