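import Pool.Agent.MP_92191b_al.K3.CR4

/-! Refutation trees. -/

namespace Pool.Agent.MP_92191b_al.K3.E

open Tr

set_option maxRecDepth 100000

noncomputable def tb246_0_25 : Tr :=
(S (nat_lit 28512) (S (nat_lit 1257) (S (nat_lit 10966) (S (nat_lit 10977) (S (nat_lit 997) (S (nat_lit 35104) (S (nat_lit 48338) (L (nat_lit 13895256))
(L (nat_lit 16581971)))
(L (nat_lit 23332248)))
(S (nat_lit 20761) (S (nat_lit 15340) (L (nat_lit 29591058))
(L (nat_lit 6686331)))
(S (nat_lit 40525) (S (nat_lit 1776) (S (nat_lit 35104) (S (nat_lit 57024) (S (nat_lit 20783) (S (nat_lit 35120) (S (nat_lit 19826) (S (nat_lit 40807) (S (nat_lit 30699) (S (nat_lit 21004) (S (nat_lit 26966) (S (nat_lit 46454) (S (nat_lit 52860) (S (nat_lit 37307) (S (nat_lit 19839) (S (nat_lit 21708) (S (nat_lit 21496) (S (nat_lit 7774) (S (nat_lit 16025) (S (nat_lit 49356) (S (nat_lit 52272) (D (nat_lit 11) (nat_lit 30890176) (nat_lit 25765040) (nat_lit 106438958151))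
(L (nat_lit 28858725)))
(L (nat_lit 28904968)))
(L (nat_lit 31011072)))
(S (nat_lit 38934) (S (nat_lit 17192) (S (nat_lit 48426) (S (nat_lit 18650) (D (nat_lit 11) (nat_lit 30820581) (nat_lit 25764974) (nat_lit 106473556194))
(L (nat_lit 30128387)))
(L (nat_lit 2968038)))
(L (nat_lit 29510086)))
(L (nat_lit 17880378))))
(L (nat_lit 22210895)))
(L (nat_lit 11421868)))
(L (nat_lit 9231436)))
(L (nat_lit 16903380)))
(L (nat_lit 23987687)))
(L (nat_lit 31163696)))
(L (nat_lit 17847513)))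
(L (nat_lit 4479544)))
(L (nat_lit 30967030)))
(L (nat_lit 23594329)))
(L (nat_lit 21497177)))
(L (nat_lit 23378969)))
(L (nat_lit 6216073)))
(L (nat_lit 13468917)))
(L (nat_lit 18777395)))
(L (nat_lit 19793229)))
(L (nat_lit 25511616)))))
(S (nat_lit 30741) (S (nat_lit 17496) (S (nat_lit 20783) (L (nat_lit 28804437))
(L (nat_lit 7243159)))
(S (nat_lit 37260) (S (nat_lit 8812) (S (nat_lit 1279) (L (nat_lit 9307538))
(S (nat_lit 4456) (S (nat_lit 54851) (S (nat_lit 17527) (L (nat_lit 18892029))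
(L (nat_lit 22873360)))
(L (nat_lit 14387512)))
(L (nat_lit 8947509))))
(S (nat_lit 28576) (S (nat_lit 19811) (S (nat_lit 35148) (L (nat_lit 8783482))
(L (nat_lit 3002919)))
(L (nat_lit 3954897)))
(S (nat_lit 48340) (S (nat_lit 54899) (L (nat_lit 9307539))
(L (nat_lit 19732900)))
(L (nat_lit 25661128)))))
(S (nat_lit 57024) (S (nat_lit 15351) (S (nat_lit 54912) (S (nat_lit 40514) (S (nat_lit 1776) (L (nat_lit 13919808))
(L (nat_lit 19072876)))
(L (nat_lit 17374081)))
(L (nat_lit 19730983)))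
(S (nat_lit 35115) (S (nat_lit 986) (S (nat_lit 1776) (S (nat_lit 19806) (S (nat_lit 54884) (L (nat_lit 5152214))
(L (nat_lit 5820666)))
(L (nat_lit 3953997)))
(L (nat_lit 2628467)))
(S (nat_lit 40825) (S (nat_lit 1776) (L (nat_lit 13915325))
(L (nat_lit 20874572)))
(L (nat_lit 19268455))))
(S (nat_lit 54879) (S (nat_lit 20783) (S (nat_lit 35104) (S (nat_lit 1776) (S (nat_lit 54912) (S (nat_lit 30774) (S (nat_lit 17558) (S (nat_lit 48338) (S (nat_lit 39553) (S (nat_lit 2019) (S (nat_lit 20993) (S (nat_lit 21479) (S (nat_lit 52599) (S (nat_lit 50477) (S (nat_lit 6718) (S (nat_lit 19928) (S (nat_lit 13964) (S (nat_lit 26754) (S (nat_lit 35767) (S (nat_lit 38683) (S (nat_lit 9073) (D (nat_lit 9) (nat_lit 27997378) (nat_lit 25767331) (nat_lit 74294894631))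
(L (nat_lit 28531141)))
(L (nat_lit 22984995)))
(L (nat_lit 22985987)))
(L (nat_lit 12807781)))
(L (nat_lit 28947653)))
(S (nat_lit 39610) (S (nat_lit 7498) (S (nat_lit 53034) (S (nat_lit 16034) (S (nat_lit 51791) (D (nat_lit 9) (nat_lit 31016196) (nat_lit 25759145) (nat_lit 37819129926))
(L (nat_lit 29080648)))
(L (nat_lit 29963403)))
(L (nat_lit 13441603)))
(L (nat_lit 29957507)))
(L (nat_lit 6436441))))
(L (nat_lit 19842338)))
(L (nat_lit 20132952)))
(L (nat_lit 23987500)))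
(L (nat_lit 11105761)))
(L (nat_lit 12158427)))
(L (nat_lit 11551602)))
(L (nat_lit 12442147)))
(L (nat_lit 11962197)))
(L (nat_lit 24479630)))
(L (nat_lit 14281799)))
(L (nat_lit 16520807)))
(L (nat_lit 20841804)))
(L (nat_lit 30808674)))
(S (nat_lit 45045) (L (nat_lit 26384818))
(L (nat_lit 7243377))))
(L (nat_lit 25732247)))))
(L (nat_lit 25216247)))))
(S (nat_lit 50505) (S (nat_lit 62) (S (nat_lit 15340) (L (nat_lit 30606956))
(L (nat_lit 7145068)))
(S (nat_lit 19826) (S (nat_lit 8779) (S (nat_lit 20993) (S (nat_lit 20783) (S (nat_lit 1986) (S (nat_lit 40807) (S (nat_lit 41254) (S (nat_lit 21722) (S (nat_lit 39559) (S (nat_lit 15371) (S (nat_lit 48338) (S (nat_lit 40525) (S (nat_lit 10949) (S (nat_lit 41271) (S (nat_lit 21465) (S (nat_lit 20736) (S (nat_lit 1715) (S (nat_lit 1969) (S (nat_lit 33361) (S (nat_lit 53077) (S (nat_lit 41519) (S (nat_lit 20867) (S (nat_lit 58946) (S (nat_lit 56030) (S (nat_lit 31302) (D (nat_lit 11) (nat_lit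 26805738) (nat_lit 19672176) (nat_lit 173023368))
(L (nat_lit 28845236)))
(L (nat_lit 23393666)))
(L (nat_lit 23557346)))
(S (nat_lit 30328) (S (nat_lit 10586) (S (nat_lit 12044) (S (nat_lit 35257) (D (nat_lit 11) (nat_lit 27951531) (nat_lit 25764974) (nat_lit 212843300001))
(L (nat_lit 27480608)))
(L (nat_lit 27890215)))
(L (nat_lit 27890182)))
(L (nat_lit 28334567))))
(L (nat_lit 7127158)))
(L (nat_lit 14877308)))
(L (nat_lit 27932681)))
(L (nat_lit 11957985)))
(L (nat_lit 12904631)))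
(L (nat_lit 14969442)))
(L (nat_lit 15002210)))
(L (nat_lit 27932866)))
(L (nat_lit 26790149)))
(L (nat_lit 23332686)))
(L (nat_lit 22807919)))
(L (nat_lit 15631732)))
(L (nat_lit 18089628)))
(L (nat_lit 1646043)))
(L (nat_lit 9340436)))
(L (nat_lit 8128079)))
(L (nat_lit 26904075)))
(L (nat_lit 7243159)))
(L (nat_lit 22283739)))
(L (nat_lit 8095130)))
(S (nat_lit 39590) (S (nat_lit 54899) (S (nat_lit 35073) (L (nat_lit 9340656))
(L (nat_lit 13337818)))
(L (nat_lit 11273650)))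
(L (nat_lit 25538710)))))
(L (nat_lit 25699478)))))
(S (nat_lit 30730) (S (nat_lit 1944) (S (nat_lit 10999) (S (nat_lit 1019) (S (nat_lit 19795) (S (nat_lit 1743) (S (nat_lit 41260) (L (nat_lit 24425661))
(L (nat_lit 8402740)))
(L (nat_lit 13474930)))
(L (nat_lit 30672341)))
(S (nat_lit 20783) (S (nat_lit 35104) (S (nat_lit 54899) (S (nat_lit 1776) (S (nat_lit 39553) (L (nat_lit 28901834))
(L (nat_lit 10939074)))
(L (nat_lit 13338441)))
(L (nat_lit 27434418)))
(L (nat_lit 23856428)))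
(S (nat_lit 40547) (S (nat_lit 48307) (S (nat_lit 1958) (S (nat_lit 17496) (L (nat_lit 28877879))
(L (nat_lit 22512856)))
(L (nat_lit 13174600)))
(L (nat_lit 27854216)))
(L (nat_lit 25828432)))))
(S (nat_lit 30763) (S (nat_lit 1776) (S (nat_lit 972) (S (nat_lit 2269) (L (nat_lit 24348058))
(S (nat_lit 35104) (S (nat_lit 997) (S (nat_lit 1743) (S (nat_lit 35073) (L (nat_lit 30416460))
(L (nat_lit 2628439)))
(L (nat_lit 2996498)))
(L (nat_lit 13370613)))
(L (nat_lit 3776268))))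
(S (nat_lit 13781) (L (nat_lit 10274466))
(L (nat_lit 10883858))))
(S (nat_lit 17249) (L (nat_lit 13652218))
(L (nat_lit 19795181))))
(S (nat_lit 50527) (S (nat_lit 8812) (S (nat_lit 40768) (S (nat_lit 41547) (S (nat_lit 972) (S (nat_lit 35104) (S (nat_lit 37335) (S (nat_lit 20778) (S (nat_lit 39592) (S (nat_lit 19806) (S (nat_lit 17543) (S (nat_lit 19811) (S (nat_lit 40575) (S (nat_lit 15334) (S (nat_lit 40743) (S (nat_lit 21739) (S (nat_lit 10949) (S (nat_lit 21041) (S (nat_lit 49917) (S (nat_lit 30919) (S (nat_lit 52324) (S (nat_lit 53497) (S (nat_lit 11581) (S (nat_lit 36977) (S (nat_lit 4976) (S (nat_lit 7040) (D (nat_lit 13) (nat_lit 13755979) (nat_lit 6048298) (nat_lit 3303976997093))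
(L (nat_lit 31047905)))
(L (nat_lit 27934050)))
(L (nat_lit 27996296)))
(L (nat_lit 27668132)))
(L (nat_lit 13523205)))
(L (nat_lit 21835972)))
(S (nat_lit 47493) (S (nat_lit 32145) (S (nat_lit 31789) (S (nat_lit 15955) (S (nat_lit 44473) (D (nat_lit 13) (nat_lit 26429518) (nat_lit 3747320) (nat_lit 277065275396))
(L (nat_lit 28917090)))
(L (nat_lit 28982280)))
(L (nat_lit 28907664)))
(L (nat_lit 16632065)))
(L (nat_lit 16568329))))
(L (nat_lit 30022180)))
(L (nat_lit 22848002)))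
(L (nat_lit 838155)))
(L (nat_lit 1403349)))
(L (nat_lit 27537989)))
(L (nat_lit 24165754)))
(L (nat_lit 1844908)))
(L (nat_lit 2769147)))
(L (nat_lit 866546)))
(L (nat_lit 2898259)))
(L (nat_lit 23214332)))
(L (nat_lit 802034)))
(L (nat_lit 14471271)))
(L (nat_lit 20487938)))
(L (nat_lit 8532754)))
(L (nat_lit 8411949)))
(L (nat_lit 2498325)))
(S (nat_lit 28576) (S (nat_lit 1776) (S (nat_lit 35120) (S (nat_lit 35104) (L (nat_lit 10028876))
(L (nat_lit 23856428)))
(L (nat_lit 18459673)))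
(L (nat_lit 19072473)))
(S (nat_lit 48340) (S (nat_lit 986) (S (nat_lit 35104) (S (nat_lit 972) (S (nat_lit 62) (L (nat_lit 26230378))
(L (nat_lit 13311909)))
(L (nat_lit 11110840)))
(L (nat_lit 13377219)))
(L (nat_lit 13390019)))
(L (nat_lit 25661128)))))
(L (nat_lit 25512483)))))
(S (nat_lit 21708) (S (nat_lit 14) (S (nat_lit 1014) (S (nat_lit 17543) (L (nat_lit 4116874))
(L (nat_lit 26327786)))
(S (nat_lit 20778) (S (nat_lit 1150) (L (nat_lit 1656678))
(S (nat_lit 35120) (S (nat_lit 19806) (S (nat_lit 54912) (L (nat_lit 19802529))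
(L (nat_lit 13783357)))
(L (nat_lit 3461690)))
(L (nat_lit 18632747))))
(S (nat_lit 40542) (S (nat_lit 41271) (L (nat_lit 14504196))
(L (nat_lit 6771460)))
(L (nat_lit 25368114)))))
(S (nat_lit 19778) (S (nat_lit 8812) (S (nat_lit 54899) (S (nat_lit 37274) (S (nat_lit 15356) (L (nat_lit 28621847))
(L (nat_lit 24515339)))
(L (nat_lit 20788485)))
(L (nat_lit 19732900)))
(S (nat_lit 28576) (S (nat_lit 37285) (S (nat_lit 54899) (S (nat_lit 57071) (S (nat_lit 1776) (L (nat_lit 17428773))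
(L (nat_lit 11591500)))
(L (nat_lit 12675282)))
(L (nat_lit 19733645)))
(L (nat_lit 3396397)))
(S (nat_lit 48340) (S (nat_lit 54899) (S (nat_lit 40805) (S (nat_lit 1958) (L (nat_lit 27892781))
(L (nat_lit 13174108)))
(L (nat_lit 2892343)))
(L (nat_lit 10913554)))
(L (nat_lit 25805832)))))
(S (nat_lit 39542) (S (nat_lit 1715) (S (nat_lit 57099) (L (nat_lit 10310084))
(L (nat_lit 11292783)))
(S (nat_lit 21479) (S (nat_lit 40564) (S (nat_lit 17521) (S (nat_lit 37335) (L (nat_lit 29839685))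
(L (nat_lit 14471457)))
(L (nat_lit 6345645)))
(L (nat_lit 18698501)))
(S (nat_lit 41243) (S (nat_lit 48307) (S (nat_lit 40757) (S (nat_lit 1036) (S (nat_lit 19828) (S (nat_lit 37307) (S (nat_lit 30724) (S (nat_lit 8795) (S (nat_lit 21750) (S (nat_lit 997) (S (nat_lit 42) (S (nat_lit 28587) (S (nat_lit 10977) (S (nat_lit 8762) (S (nat_lit 1701) (S (nat_lit 28554) (S (nat_lit 30401) (S (nat_lit 19789) (S (nat_lit 38337) (S (nat_lit 27714) (S (nat_lit 42163) (S (nat_lit 27977) (S (nat_lit 27747) (S (nat_lit 54250) (S (nat_lit 56378) (D (nat_lit 13) (nat_lit 28760071) (nat_lit 4628242) (nat_lit 7725091045))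
(L (nat_lit 22488152)))
(L (nat_lit 22881797)))
(L (nat_lit 27763329)))
(L (nat_lit 27775297)))
(L (nat_lit 30033220)))
(S (nat_lit 53749) (S (nat_lit 6200) (S (nat_lit 16972) (D (nat_lit 15) (nat_lit 27920751) (nat_lit 19664204) (nat_lit 38889622630))
(L (nat_lit 29995267)))
(L (nat_lit 27967745)))
(L (nat_lit 14567745))))
(L (nat_lit 26781250)))
(L (nat_lit 15554697)))
(L (nat_lit 23618816)))
(L (nat_lit 12667226)))
(L (nat_lit 2418285)))
(L (nat_lit 23555333)))
(L (nat_lit 26643830)))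
(L (nat_lit 13472327)))
(L (nat_lit 13488448)))
(L (nat_lit 14419253)))
(L (nat_lit 22822083)))
(L (nat_lit 1916555)))
(L (nat_lit 9321122)))
(L (nat_lit 8835973)))
(L (nat_lit 22200200)))
(L (nat_lit 8933466)))
(L (nat_lit 18108570)))
(L (nat_lit 27382060)))
(L (nat_lit 25242103)))))
(L (nat_lit 25382993)))))
(S (nat_lit 41472) (S (nat_lit 2006) (S (nat_lit 1776) (S (nat_lit 35104) (S (nat_lit 1003) (S (nat_lit 997) (S (nat_lit 35073) (L (nat_lit 10323630))
(L (nat_lit 2814470)))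
(L (nat_lit 13370613)))
(L (nat_lit 19937131)))
(L (nat_lit 23173528)))
(S (nat_lit 8929) (S (nat_lit 56483) (L (nat_lit 18608296))
(L (nat_lit 13337816)))
(L (nat_lit 13857810))))
(S (nat_lit 21770) (S (nat_lit 1279) (S (nat_lit 19795) (L (nat_lit 2315021))
(L (nat_lit 30672341)))
(S (nat_lit 21043) (S (nat_lit 1958) (S (nat_lit 20783) (S (nat_lit 19795) (S (nat_lit 10935) (S (nat_lit 57024) (S (nat_lit 41276) (S (nat_lit 15309) (S (nat_lit 35104) (S (nat_lit 21490) (S (nat_lit 17571) (S (nat_lit 20736) (S (nat_lit 1034) (S (nat_lit 10999) (S (nat_lit 19778) (S (nat_lit 35148) (S (nat_lit 28576) (S (nat_lit 38076) (S (nat_lit 12834) (S (nat_lit 25445) (S (nat_lit 52117) (S (nat_lit 35160) (S (nat_lit 31774) (D (nat_lit 13) (nat_lit 18752535) (nat_lit 25767395) (nat_lit 3472521134180))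
(L (nat_lit 13442784)))
(L (nat_lit 21830113)))
(L (nat_lit 29806848)))
(L (nat_lit 23999744)))
(S (nat_lit 46804) (S (nat_lit 55700) (S (nat_lit 17451) (S (nat_lit 4053) (S (nat_lit 11175) (D (nat_lit 13) (nat_lit 31039501) (nat_lit 25765411) (nat_lit 3338400959552))
(L (nat_lit 31043936)))
(L (nat_lit 29903074)))
(L (nat_lit 29989998)))
(L (nat_lit 15616289)))
(L (nat_lit 29613135))))
(L (nat_lit 26268911)))
(L (nat_lit 10089489)))
(L (nat_lit 23260551)))
(L (nat_lit 22455385)))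
(L (nat_lit 8293938)))
(L (nat_lit 13881219)))
(L (nat_lit 7228557)))
(L (nat_lit 961973)))
(L (nat_lit 22382446)))
(L (nat_lit 23856433)))
(L (nat_lit 8128174)))
(L (nat_lit 25036145)))
(L (nat_lit 12781429)))
(L (nat_lit 26230004)))
(L (nat_lit 30868789)))
(L (nat_lit 30869095)))
(L (nat_lit 13371016)))
(S (nat_lit 40807) (S (nat_lit 54899) (S (nat_lit 997) (L (nat_lit 24446524))
(L (nat_lit 19662062)))
(L (nat_lit 11339407)))
(L (nat_lit 25691413)))))
(S (nat_lit 41534) (S (nat_lit 19795) (S (nat_lit 35104) (S (nat_lit 997) (S (nat_lit 35148) (S (nat_lit 30746) (S (nat_lit 1958) (L (nat_lit 30606738))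
(L (nat_lit 12322263)))
(L (nat_lit 3944659)))
(L (nat_lit 9006465)))
(L (nat_lit 19662374)))
(L (nat_lit 18613961)))
(S (nat_lit 57597) (S (nat_lit 54899) (L (nat_lit 18155226))
(L (nat_lit 27854189)))
(L (nat_lit 30672341))))
(L (nat_lit 25184529)))))
(L (nat_lit 25562697)))))
(S (nat_lit 50494) (S (nat_lit 8823) (S (nat_lit 1246) (S (nat_lit 17571) (S (nat_lit 1986) (S (nat_lit 1743) (L (nat_lit 20388925))
(L (nat_lit 10107001)))
(L (nat_lit 13436115)))
(S (nat_lit 37335) (S (nat_lit 40768) (S (nat_lit 30724) (S (nat_lit 41276) (S (nat_lit 57086) (L (nat_lit 29988231))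
(L (nat_lit 12753498)))
(L (nat_lit 8872513)))
(L (nat_lit 9310829)))
(L (nat_lit 23519521)))
(S (nat_lit 57099) (S (nat_lit 1014) (S (nat_lit 1279) (L (nat_lit 26782273))
(L (nat_lit 26949953)))
(L (nat_lit 12964772)))
(L (nat_lit 25340341)))))
(S (nat_lit 21010) (S (nat_lit 8773) (S (nat_lit 35148) (S (nat_lit 35135) (L (nat_lit 13305639))
(L (nat_lit 18187865)))
(L (nat_lit 31013991)))
(S (nat_lit 28537) (S (nat_lit 1748) (L (nat_lit 13502055))
(L (nat_lit 20410657)))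
(S (nat_lit 48301) (S (nat_lit 17538) (S (nat_lit 35135) (L (nat_lit 20378977))
(L (nat_lit 18187865)))
(L (nat_lit 6744641)))
(L (nat_lit 25375922)))))
(S (nat_lit 40774) (S (nat_lit 2006) (S (nat_lit 1003) (S (nat_lit 1776) (S (nat_lit 1262) (L (nat_lit 2563706))
(L (nat_lit 20444480)))
(L (nat_lit 19099821)))
(S (nat_lit 25595) (L (nat_lit 26411758))
(L (nat_lit 20112590))))
(S (nat_lit 21770) (S (nat_lit 1969) (S (nat_lit 48290) (S (nat_lit 1279) (S (nat_lit 986) (S (nat_lit 19828) (S (nat_lit 31) (S (nat_lit 48340) (S (nat_lit 21004) (S (nat_lit 39603) (S (nat_lit 17560) (S (nat_lit 35104) (S (nat_lit 28543) (S (nat_lit 21054) (S (nat_lit 15356) (S (nat_lit 21564) (S (nat_lit 41657) (S (nat_lit 25925) (S (nat_lit 51405) (S (nat_lit 39454) (D (nat_lit 13) (nat_lit 26821768) (nat_lit 25762339) (nat_lit 2405390355459))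
(L (nat_lit 29996386)))
(L (nat_lit 30121410)))
(L (nat_lit 24001859)))
(L (nat_lit 18786980)))
(S (nat_lit 50138) (S (nat_lit 56668) (S (nat_lit 43820) (S (nat_lit 3635) (S (nat_lit 49833) (D (nat_lit 13) (nat_lit 31147200) (nat_lit 25765413) (nat_lit 3510199389416))
(L (nat_lit 28792100)))
(L (nat_lit 30845975)))
(L (nat_lit 28716214)))
(L (nat_lit 28947681)))
(L (nat_lit 28940365))))
(L (nat_lit 8212932)))
(L (nat_lit 15434108)))
(L (nat_lit 13534793)))
(L (nat_lit 9340470)))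
(L (nat_lit 7527181)))
(L (nat_lit 17504134)))
(L (nat_lit 31015942)))
(L (nat_lit 20112588)))
(L (nat_lit 6948718)))
(L (nat_lit 16077848)))
(L (nat_lit 13407879)))
(L (nat_lit 13310074)))
(L (nat_lit 27936004)))
(S (nat_lit 51420) (L (nat_lit 10970166))
(L (nat_lit 26843652))))
(S (nat_lit 41534) (S (nat_lit 57086) (S (nat_lit 35073) (S (nat_lit 40542) (L (nat_lit 9983780))
(L (nat_lit 27278026)))
(L (nat_lit 10290645)))
(L (nat_lit 19727818)))
(L (nat_lit 25250064)))))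
(L (nat_lit 25824462)))))
(S (nat_lit 28587) (S (nat_lit 15334) (S (nat_lit 1776) (S (nat_lit 30201) (L (nat_lit 2939152))
(S (nat_lit 35135) (S (nat_lit 35104) (S (nat_lit 57055) (S (nat_lit 4276) (L (nat_lit 15903321))
(L (nat_lit 28739178)))
(L (nat_lit 12158489)))
(L (nat_lit 23332248)))
(L (nat_lit 2531124))))
(S (nat_lit 39096) (L (nat_lit 13212796))
(L (nat_lit 19100132))))
(S (nat_lit 35098) (S (nat_lit 75) (S (nat_lit 41503) (S (nat_lit 42) (S (nat_lit 1743) (S (nat_lit 1290) (S (nat_lit 35135) (S (nat_lit 50477) (S (nat_lit 50527) (S (nat_lit 28554) (S (nat_lit 1279) (S (nat_lit 1776) (S (nat_lit 1277) (S (nat_lit 57066) (S (nat_lit 41514) (S (nat_lit 5508) (S (nat_lit 20767) (S (nat_lit 41534) (S (nat_lit 20778) (S (nat_lit 4212) (S (nat_lit 37950) (S (nat_lit 39704) (S (nat_lit 36369) (S (nat_lit 37970) (S (nat_lit 55225) (S (nat_lit 21328) (D (nat_lit 13) (nat_lit 9530093) (nat_lit 8568594) (nat_lit 1346606565381))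
(L (nat_lit 24003778)))
(L (nat_lit 15551656)))
(L (nat_lit 27861445)))
(L (nat_lit 19740931)))
(L (nat_lit 29997315)))
(S (nat_lit 52145) (S (nat_lit 52147) (S (nat_lit 49636) (D (nat_lit 15) (nat_lit 13387971) (nat_lit 25759052) (nat_lit 206165777543))
(L (nat_lit 29007363)))
(L (nat_lit 30058976)))
(L (nat_lit 809352))))
(L (nat_lit 28841547)))
(L (nat_lit 16690916)))
(L (nat_lit 24917062)))
(L (nat_lit 5908984)))
(L (nat_lit 30754404)))
(L (nat_lit 18764037)))
(L (nat_lit 5128567)))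
(L (nat_lit 26973705)))
(L (nat_lit 10371748)))
(L (nat_lit 26235214)))
(L (nat_lit 3951014)))
(L (nat_lit 5661938)))
(L (nat_lit 27495859)))
(L (nat_lit 18187865)))
(L (nat_lit 4081290)))
(L (nat_lit 2567058)))
(L (nat_lit 26918240)))
(L (nat_lit 18541796)))
(S (nat_lit 19839) (S (nat_lit 1743) (S (nat_lit 30699) (S (nat_lit 4276) (L (nat_lit 14471307))
(L (nat_lit 12603771)))
(L (nat_lit 9458575)))
(L (nat_lit 2801577)))
(S (nat_lit 39603) (S (nat_lit 1743) (S (nat_lit 1715) (S (nat_lit 6544) (L (nat_lit 2644775))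
(L (nat_lit 12800804)))
(L (nat_lit 13389832)))
(L (nat_lit 13456644)))
(L (nat_lit 25340589)))))
(S (nat_lit 54862) (S (nat_lit 21507) (S (nat_lit 30713) (L (nat_lit 19119224))
(L (nat_lit 19096068)))
(L (nat_lit 22264956)))
(L (nat_lit 25869480)))))
(S (nat_lit 48351) (S (nat_lit 1034) (S (nat_lit 8773) (S (nat_lit 14683) (L (nat_lit 20319514))
(S (nat_lit 21529) (L (nat_lit 19938681))
(L (nat_lit 11310702))))
(S (nat_lit 28537) (S (nat_lit 35104) (S (nat_lit 37307) (S (nat_lit 35135) (L (nat_lit 3600626))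
(L (nat_lit 18187865)))
(L (nat_lit 14378212)))
(S (nat_lit 47439) (L (nat_lit 12833701))
(L (nat_lit 12846813))))
(S (nat_lit 48301) (S (nat_lit 62) (S (nat_lit 1229) (S (nat_lit 1003) (S (nat_lit 1975) (S (nat_lit 35073) (S (nat_lit 1726) (S (nat_lit 28543) (S (nat_lit 54862) (S (nat_lit 30741) (S (nat_lit 19811) (S (nat_lit 19789) (S (nat_lit 40790) (S (nat_lit 10960) (S (nat_lit 20979) (S (nat_lit 5767) (S (nat_lit 21010) (S (nat_lit 3992) (S (nat_lit 8762) (S (nat_lit 45116) (S (nat_lit 43261) (S (nat_lit 37121) (S (nat_lit 31142) (S (nat_lit 50129) (D (nat_lit 15) (nat_lit 27855274) (nat_lit 19666346) (nat_lit 36512500836))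
(L (nat_lit 10308066)))
(L (nat_lit 27866338)))
(S (nat_lit 42169) (S (nat_lit 11875) (S (nat_lit 49126) (D (nat_lit 15) (nat_lit 31016009) (nat_lit 25761036) (nat_lit 103287984257))
(L (nat_lit 9324721)))
(L (nat_lit 29962595)))
(L (nat_lit 9308724))))
(L (nat_lit 28912753)))
(L (nat_lit 29372726)))
(L (nat_lit 7359036)))
(L (nat_lit 18417510)))
(L (nat_lit 30887105)))
(L (nat_lit 29951430)))
(L (nat_lit 21164458)))
(L (nat_lit 1299931)))
(L (nat_lit 24578919)))
(L (nat_lit 22876495)))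
(L (nat_lit 16421706)))
(L (nat_lit 19161233)))
(L (nat_lit 4963708)))
(L (nat_lit 10225233)))
(L (nat_lit 10225172)))
(L (nat_lit 10290645)))
(L (nat_lit 14503233)))
(L (nat_lit 20407307)))
(L (nat_lit 12931132)))
(L (nat_lit 13539510)))
(L (nat_lit 25897443)))))
(S (nat_lit 20798) (S (nat_lit 1240) (S (nat_lit 57055) (S (nat_lit 986) (L (nat_lit 20381915))
(L (nat_lit 20715696)))
(L (nat_lit 13206841)))
(S (nat_lit 21004) (S (nat_lit 10935) (S (nat_lit 986) (L (nat_lit 14504161))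
(L (nat_lit 20361059)))
(L (nat_lit 26431969)))
(S (nat_lit 40768) (S (nat_lit 35104) (S (nat_lit 1279) (L (nat_lit 18782816))
(L (nat_lit 20454177)))
(L (nat_lit 18619475)))
(L (nat_lit 25339445)))))
(S (nat_lit 40562) (S (nat_lit 57099) (S (nat_lit 1743) (S (nat_lit 39603) (S (nat_lit 20750) (L (nat_lit 22211885))
(L (nat_lit 5657513)))
(L (nat_lit 23872800)))
(L (nat_lit 19066377)))
(L (nat_lit 6048047)))
(L (nat_lit 25932001)))))
(L (nat_lit 25308724)))))
(L (nat_lit 25247031)))))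
(S (nat_lit 21021) (S (nat_lit 41304) (S (nat_lit 15371) (S (nat_lit 8762) (S (nat_lit 10960) (S (nat_lit 17521) (S (nat_lit 41271) (S (nat_lit 42) (S (nat_lit 40774) (L (nat_lit 17474304))
(L (nat_lit 24584348)))
(L (nat_lit 6771865)))
(L (nat_lit 6772482)))
(L (nat_lit 1274326)))
(S (nat_lit 30724) (S (nat_lit 5214) (L (nat_lit 15926103))
(S (nat_lit 20783) (S (nat_lit 35104) (S (nat_lit 1047) (L (nat_lit 11591501))
(L (nat_lit 12623730)))
(L (nat_lit 23861635)))
(L (nat_lit 6981457))))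
(S (nat_lit 50488) (S (nat_lit 17521) (S (nat_lit 35087) (S (nat_lit 21507) (S (nat_lit 1765) (S (nat_lit 30699) (S (nat_lit 41472) (S (nat_lit 57024) (S (nat_lit 1701) (S (nat_lit 21004) (S (nat_lit 35104) (S (nat_lit 21490) (S (nat_lit 33849) (S (nat_lit 986) (S (nat_lit 2006) (S (nat_lit 39559) (S (nat_lit 49332) (S (nat_lit 40827) (S (nat_lit 31302) (S (nat_lit 58180) (S (nat_lit 57683) (S (nat_lit 14739) (D (nat_lit 13) (nat_lit 26975343) (nat_lit 19666310) (nat_lit 6518214885))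
(L (nat_lit 27934913)))
(L (nat_lit 24032517)))
(L (nat_lit 29706660)))
(L (nat_lit 20373607)))
(L (nat_lit 19297600)))
(S (nat_lit 56479) (S (nat_lit 17971) (S (nat_lit 56516) (S (nat_lit 12753) (S (nat_lit 20970) (D (nat_lit 13) (nat_lit 29938981) (nat_lit 19437321) (nat_lit 2344081361152))
(L (nat_lit 19768429)))
(L (nat_lit 28914763)))
(L (nat_lit 20376801)))
(L (nat_lit 31012160)))
(L (nat_lit 11031429))))
(L (nat_lit 11403732)))
(L (nat_lit 26416662)))
(L (nat_lit 19666375)))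
(L (nat_lit 22250906)))
(L (nat_lit 22955114)))
(L (nat_lit 23183672)))
(L (nat_lit 7160516)))
(L (nat_lit 19665291)))
(L (nat_lit 21197871)))
(L (nat_lit 9008517)))
(L (nat_lit 16975702)))
(L (nat_lit 13855328)))
(L (nat_lit 663405)))
(L (nat_lit 20144677)))
(L (nat_lit 24951138)))
(L (nat_lit 25667735)))))
(S (nat_lit 28526) (S (nat_lit 21490) (S (nat_lit 35104) (S (nat_lit 20783) (S (nat_lit 41293) (S (nat_lit 30699) (S (nat_lit 21026) (S (nat_lit 40525) (S (nat_lit 21722) (S (nat_lit 1047) (S (nat_lit 39559) (S (nat_lit 40743) (S (nat_lit 19828) (S (nat_lit 47412) (S (nat_lit 54851) (S (nat_lit 41534) (S (nat_lit 33613) (S (nat_lit 57038) (S (nat_lit 47243) (S (nat_lit 17008) (S (nat_lit 50085) (S (nat_lit 52029) (D (nat_lit 11) (nat_lit 30887942) (nat_lit 25765379) (nat_lit 106438958151))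
(L (nat_lit 28858724)))
(L (nat_lit 28911107)))
(L (nat_lit 31012035)))
(S (nat_lit 48124) (S (nat_lit 11797) (S (nat_lit 38462) (S (nat_lit 36032) (D (nat_lit 11) (nat_lit 27806795) (nat_lit 25767363) (nat_lit 212877906981))
(L (nat_lit 22917289)))
(L (nat_lit 27728482)))
(L (nat_lit 28031266)))
(L (nat_lit 15411042))))
(L (nat_lit 11255898)))
(L (nat_lit 24682338)))
(L (nat_lit 27275542)))
(L (nat_lit 21033355)))
(L (nat_lit 23311264)))
(L (nat_lit 9113422)))
(L (nat_lit 23360901)))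
(L (nat_lit 27559566)))
(L (nat_lit 9307821)))
(L (nat_lit 21333777)))
(L (nat_lit 27690726)))
(L (nat_lit 30449046)))
(L (nat_lit 2971889)))
(L (nat_lit 9135182)))
(L (nat_lit 6981457)))
(L (nat_lit 18089592)))
(L (nat_lit 22888554)))
(S (nat_lit 48290) (S (nat_lit 21490) (S (nat_lit 35104) (S (nat_lit 20783) (S (nat_lit 10966) (S (nat_lit 37291) (S (nat_lit 19826) (S (nat_lit 37285) (S (nat_lit 1748) (S (nat_lit 21755) (S (nat_lit 57099) (S (nat_lit 21770) (S (nat_lit 47673) (S (nat_lit 34083) (S (nat_lit 40564) (S (nat_lit 8369) (S (nat_lit 972) (S (nat_lit 8408) (S (nat_lit 33951) (S (nat_lit 10785) (S (nat_lit 39167) (S (nat_lit 384) (S (nat_lit 10288) (S (nat_lit 35524) (D (nat_lit 13) (nat_lit 27998564) (nat_lit 25759088) (nat_lit 212641813665))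
(L (nat_lit 27831414)))
(L (nat_lit 27744610)))
(L (nat_lit 28029282)))
(L (nat_lit 10407298)))
(L (nat_lit 28625283)))
(S (nat_lit 40867) (S (nat_lit 21368) (S (nat_lit 16473) (S (nat_lit 41393) (D (nat_lit 13) (nat_lit 15736596) (nat_lit 3367504) (nat_lit 4468953384002))
(L (nat_lit 21865585)))
(L (nat_lit 31144292)))
(L (nat_lit 29047140)))
(L (nat_lit 10370229))))
(L (nat_lit 24314301)))
(L (nat_lit 26358346)))
(L (nat_lit 27919880)))
(L (nat_lit 24918086)))
(L (nat_lit 3817352)))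
(L (nat_lit 13658420)))
(L (nat_lit 22243408)))
(L (nat_lit 5720966)))
(L (nat_lit 16521792)))
(L (nat_lit 19203484)))
(L (nat_lit 30626242)))
(L (nat_lit 15565514)))
(L (nat_lit 20186552)))
(L (nat_lit 23927298)))
(L (nat_lit 6752086)))
(L (nat_lit 18089592)))
(L (nat_lit 15620202)))
(L (nat_lit 25698884)))))
(S (nat_lit 35135) (S (nat_lit 62) (S (nat_lit 21043) (S (nat_lit 41254) (S (nat_lit 50494) (S (nat_lit 20811) (S (nat_lit 20783) (S (nat_lit 28574) (S (nat_lit 57055) (S (nat_lit 41486) (S (nat_lit 28543) (S (nat_lit 35104) (S (nat_lit 57086) (S (nat_lit 20761) (S (nat_lit 50463) (S (nat_lit 41276) (S (nat_lit 57024) (S (nat_lit 20993) (S (nat_lit 3506) (S (nat_lit 6253) (S (nat_lit 1034) (S (nat_lit 3534) (S (nat_lit 19789) (S (nat_lit 17521) (S (nat_lit 10960) (S (nat_lit 11010) (S (nat_lit 45602) (S (nat_lit 25763) (S (nat_lit 3823) (S (nat_lit 574) (S (nat_lit 43611) (D (nat_lit 15) (nat_lit 27853134) (nat_lit 1853866) (nat_lit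 1141907616))
(L (nat_lit 29772995)))
(L (nat_lit 27865441)))
(S (nat_lit 52392) (S (nat_lit 19944) (S (nat_lit 56659) (S (nat_lit 13096) (S (nat_lit 9386) (S (nat_lit 51873) (D (nat_lit 13) (nat_lit 8281166) (nat_lit 25282928) (nat_lit 3408232973538))
(L (nat_lit 19309757)))
(L (nat_lit 27894863)))
(L (nat_lit 29992484)))
(L (nat_lit 15617252)))
(L (nat_lit 27869412)))
(L (nat_lit 29371121))))
(L (nat_lit 11681718)))
(L (nat_lit 26480022)))
(L (nat_lit 8277071)))
(L (nat_lit 8179139)))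
(L (nat_lit 8178115)))
(L (nat_lit 3761705)))
(L (nat_lit 1765864)))
(L (nat_lit 19837991)))
(L (nat_lit 31044800)))
(S (nat_lit 22775) (S (nat_lit 20800) (S (nat_lit 21010) (S (nat_lit 57099) (S (nat_lit 35115) (S (nat_lit 57088) (S (nat_lit 25) (S (nat_lit 14) (S (nat_lit 45279) (S (nat_lit 24266) (S (nat_lit 23618) (S (nat_lit 36411) (S (nat_lit 29596) (D (nat_lit 13) (nat_lit 17586528) (nat_lit 25765347) (nat_lit 107548347556))
(L (nat_lit 29081952)))
(L (nat_lit 29043726)))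
(L (nat_lit 15653153)))
(S (nat_lit 52145) (S (nat_lit 45019) (S (nat_lit 41698) (S (nat_lit 58962) (D (nat_lit 13) (nat_lit 15487146) (nat_lit 25767461) (nat_lit 214986594536))
(L (nat_lit 20322363)))
(L (nat_lit 30131240)))
(L (nat_lit 19742891)))
(L (nat_lit 24407086))))
(L (nat_lit 29927008)))
(L (nat_lit 19709221)))
(L (nat_lit 652841)))
(L (nat_lit 27725046)))
(L (nat_lit 17921671)))
(L (nat_lit 21304207)))
(L (nat_lit 21935460)))
(L (nat_lit 15833940)))
(S (nat_lit 42530) (S (nat_lit 42580) (S (nat_lit 26030) (S (nat_lit 42558) (S (nat_lit 26058) (S (nat_lit 17538) (S (nat_lit 54879) (S (nat_lit 30746) (S (nat_lit 986) (S (nat_lit 1969) (S (nat_lit 17124) (S (nat_lit 19125) (S (nat_lit 36921) (D (nat_lit 15) (nat_lit 25791879) (nat_lit 19666252) (nat_lit 1148199174))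
(L (nat_lit 28918955)))
(L (nat_lit 30985505)))
(S (nat_lit 31127) (S (nat_lit 9576) (S (nat_lit 51670) (D (nat_lit 15) (nat_lit 25761004) (nat_lit 19664141) (nat_lit 2186285187))
(L (nat_lit 30055972)))
(L (nat_lit 27545089)))
(L (nat_lit 23323694))))
(L (nat_lit 10056228)))
(L (nat_lit 11103683)))
(L (nat_lit 17372043)))
(L (nat_lit 16019639)))
(L (nat_lit 1796551)))
(L (nat_lit 18951610)))
(L (nat_lit 19704228)))
(L (nat_lit 19840166)))
(L (nat_lit 19310745)))
(L (nat_lit 4846985)))))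
(L (nat_lit 7210486)))
(L (nat_lit 21530470)))
(L (nat_lit 27723368)))
(L (nat_lit 27756166)))
(L (nat_lit 11929304)))
(L (nat_lit 13436490)))
(L (nat_lit 18613865)))
(L (nat_lit 24511768)))
(L (nat_lit 7243409)))
(L (nat_lit 13403752)))
(L (nat_lit 13272874)))
(L (nat_lit 7243345)))
(L (nat_lit 6850204)))
(L (nat_lit 13502024)))
(L (nat_lit 23463690)))
(L (nat_lit 31163787)))
(L (nat_lit 19203644)))
(S (nat_lit 54899) (S (nat_lit 39590) (S (nat_lit 35104) (S (nat_lit 30730) (S (nat_lit 10935) (S (nat_lit 8810) (S (nat_lit 20783) (S (nat_lit 19795) (S (nat_lit 21512) (S (nat_lit 40807) (S (nat_lit 17527) (S (nat_lit 40575) (S (nat_lit 1229) (S (nat_lit 57024) (S (nat_lit 1958) (S (nat_lit 48307) (S (nat_lit 997) (S (nat_lit 37322) (S (nat_lit 28458) (S (nat_lit 25) (S (nat_lit 14) (S (nat_lit 8823) (S (nat_lit 40818) (S (nat_lit 21496) (S (nat_lit 40805) (S (nat_lit 41291) (S (nat_lit 21739) (S (nat_lit 15334) (S (nat_lit 54912) (S (nat_lit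 44241) (S (nat_lit 3876) (S (nat_lit 3147) (S (nat_lit 50822) (S (nat_lit 55495) (S (nat_lit 31162) (D (nat_lit 11) (nat_lit 29711841) (nat_lit 17582371) (nat_lit 177202168032))
(L (nat_lit 7197089)))
(L (nat_lit 13473811)))
(L (nat_lit 29072832)))
(L (nat_lit 31174944)))
(L (nat_lit 31174912)))
(S (nat_lit 51132) (S (nat_lit 55209) (S (nat_lit 8250) (S (nat_lit 7521) (S (nat_lit 35552) (S (nat_lit 51121) (D (nat_lit 11) (nat_lit 29706416) (nat_lit 17391907) (nat_lit 177202168032))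
(L (nat_lit 19765261)))
(L (nat_lit 7195136)))
(L (nat_lit 31046944)))
(L (nat_lit 31046912)))
(L (nat_lit 28949797)))
(L (nat_lit 19375197))))
(L (nat_lit 11291008)))
(L (nat_lit 7082641)))
(L (nat_lit 21771303)))
(L (nat_lit 23868454)))
(L (nat_lit 23868640)))
(L (nat_lit 21771488)))
(L (nat_lit 27991181)))
(L (nat_lit 6918992)))
(L (nat_lit 6916944)))
(L (nat_lit 6723290)))
(S (nat_lit 28719) (S (nat_lit 18076) (S (nat_lit 17560) (S (nat_lit 11010) (S (nat_lit 41271) (S (nat_lit 57411) (S (nat_lit 2006) (S (nat_lit 28587) (S (nat_lit 19789) (S (nat_lit 21708) (S (nat_lit 21479) (S (nat_lit 22868) (S (nat_lit 56663) (S (nat_lit 16488) (S (nat_lit 4051) (S (nat_lit 11162) (D (nat_lit 13) (nat_lit 31041952) (nat_lit 25765039) (nat_lit 3338400959552))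
(L (nat_lit 31044804)))
(L (nat_lit 29904160)))
(L (nat_lit 30096458)))
(L (nat_lit 10377696)))
(S (nat_lit 32395) (S (nat_lit 26187) (S (nat_lit 52115) (S (nat_lit 35156) (S (nat_lit 32008) (D (nat_lit 13) (nat_lit 18747112) (nat_lit 25767089) (nat_lit 3471480946819))
(L (nat_lit 13441079)))
(L (nat_lit 21829647)))
(L (nat_lit 29806819)))
(L (nat_lit 23998659)))
(L (nat_lit 27888877))))
(L (nat_lit 10941463)))
(L (nat_lit 5066092)))
(L (nat_lit 22877518)))
(L (nat_lit 9221204)))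
(L (nat_lit 13918914)))
(L (nat_lit 6317623)))
(L (nat_lit 6809282)))
(L (nat_lit 6475289)))
(L (nat_lit 7261229)))
(L (nat_lit 28528132)))
(S (nat_lit 28953) (S (nat_lit 8790) (S (nat_lit 64) (S (nat_lit 37637) (S (nat_lit 50488) (S (nat_lit 15373) (S (nat_lit 30713) (S (nat_lit 1246) (S (nat_lit 8773) (S (nat_lit 47) (S (nat_lit 1014) (S (nat_lit 37654) (S (nat_lit 8717) (S (nat_lit 54747) (S (nat_lit 12331) (S (nat_lit 45480) (S (nat_lit 51279) (D (nat_lit 13) (nat_lit 31066412) (nat_lit 25767023) (nat_lit 3578918898887))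
(L (nat_lit 28823778)))
(L (nat_lit 29016292)))
(L (nat_lit 30985537)))
(L (nat_lit 22882352)))
(S (nat_lit 43746) (S (nat_lit 42885) (S (nat_lit 36185) (S (nat_lit 56778) (S (nat_lit 50385) (D (nat_lit 13) (nat_lit 26881165) (nat_lit 25764977) (nat_lit 242699370758))
(L (nat_lit 29612544)))
(L (nat_lit 29965509)))
(L (nat_lit 28745906)))
(L (nat_lit 22439018)))
(L (nat_lit 20420765))))
(L (nat_lit 11324525)))
(L (nat_lit 10514156)))
(L (nat_lit 13440246)))
(L (nat_lit 23892300)))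
(L (nat_lit 18931919)))
(L (nat_lit 30984453)))
(L (nat_lit 6435638)))
(L (nat_lit 27922765)))
(L (nat_lit 14969970)))
(L (nat_lit 7244398)))
(L (nat_lit 7189088)))
(L (nat_lit 27821270)))))
(L (nat_lit 20743532)))
(L (nat_lit 9209551)))
(L (nat_lit 11405041)))
(L (nat_lit 3972598)))
(L (nat_lit 11437623)))
(L (nat_lit 9209520)))
(L (nat_lit 27985384)))
(L (nat_lit 6817622)))
(L (nat_lit 23365551)))
(L (nat_lit 11437649)))
(L (nat_lit 15992596)))
(L (nat_lit 30770769)))
(L (nat_lit 24020333)))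
(L (nat_lit 26412596)))
(L (nat_lit 30934295)))
(L (nat_lit 31130897)))
(L (nat_lit 24643402)))
(L (nat_lit 25353642)))))
(L (nat_lit 23921997)))
(S (nat_lit 40785) (S (nat_lit 17521) (S (nat_lit 1715) (S (nat_lit 15309) (S (nat_lit 10935) (S (nat_lit 20993) (S (nat_lit 41293) (S (nat_lit 40542) (S (nat_lit 41254) (S (nat_lit 54884) (S (nat_lit 30724) (S (nat_lit 19795) (S (nat_lit 41497) (S (nat_lit 20783) (S (nat_lit 19096) (S (nat_lit 40743) (S (nat_lit 21708) (S (nat_lit 21041) (S (nat_lit 9671) (S (nat_lit 17560) (S (nat_lit 23388) (S (nat_lit 13993) (S (nat_lit 26187) (S (nat_lit 51629) (S (nat_lit 27491) (S (nat_lit 13266) (D (nat_lit 13) (nat_lit 17584264) (nat_lit 18618949) (nat_lit 6741188284481))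
(L (nat_lit 27796192)))
(L (nat_lit 28027328)))
(L (nat_lit 29806786)))
(L (nat_lit 23998659)))
(L (nat_lit 27930851)))
(S (nat_lit 36916) (S (nat_lit 15191) (S (nat_lit 16698) (S (nat_lit 50325) (D (nat_lit 13) (nat_lit 28496425) (nat_lit 19259941) (nat_lit 1379960718464))
(L (nat_lit 6318705)))
(L (nat_lit 29904067)))
(L (nat_lit 27900098)))
(L (nat_lit 1947923))))
(L (nat_lit 6950704)))
(L (nat_lit 29917397)))
(L (nat_lit 1632967)))
(L (nat_lit 22212972)))
(L (nat_lit 24554341)))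
(L (nat_lit 28791978)))
(L (nat_lit 7264641)))
(L (nat_lit 27695125)))
(L (nat_lit 30868789)))
(L (nat_lit 2833193)))
(L (nat_lit 27676714)))
(L (nat_lit 24512263)))
(L (nat_lit 17847114)))
(L (nat_lit 7164288)))
(L (nat_lit 7164352)))
(L (nat_lit 26779329)))
(S (nat_lit 35073) (S (nat_lit 39542) (S (nat_lit 41293) (S (nat_lit 10960) (S (nat_lit 19828) (S (nat_lit 41271) (L (nat_lit 29046922))
(L (nat_lit 17705700)))
(L (nat_lit 2478991)))
(L (nat_lit 23280514)))
(L (nat_lit 23279772)))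
(L (nat_lit 23279706)))
(S (nat_lit 54837) (S (nat_lit 57024) (S (nat_lit 1036) (S (nat_lit 10982) (S (nat_lit 35104) (L (nat_lit 10205953))
(L (nat_lit 18777398)))
(L (nat_lit 604381)))
(L (nat_lit 20166747)))
(L (nat_lit 13541089)))
(L (nat_lit 25220550)))))
(S (nat_lit 21479) (S (nat_lit 8779) (S (nat_lit 64) (S (nat_lit 20800) (S (nat_lit 35148) (S (nat_lit 57071) (S (nat_lit 54884) (S (nat_lit 1986) (S (nat_lit 39542) (S (nat_lit 57024) (S (nat_lit 30699) (S (nat_lit 1743) (S (nat_lit 28576) (S (nat_lit 37335) (S (nat_lit 46723) (S (nat_lit 39559) (S (nat_lit 20783) (S (nat_lit 1246) (S (nat_lit 1047) (S (nat_lit 14770) (S (nat_lit 47) (S (nat_lit 56739) (S (nat_lit 56759) (S (nat_lit 58703) (S (nat_lit 32257) (D (nat_lit 11) (nat_lit 10310768) (nat_lit 19672581) (nat_lit 36749451400))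
(L (nat_lit 28981602)))
(L (nat_lit 20346081)))
(L (nat_lit 20376800)))
(S (nat_lit 57700) (S (nat_lit 18440) (S (nat_lit 9837) (S (nat_lit 12267) (D (nat_lit 11) (nat_lit 25835527) (nat_lit 19672515) (nat_lit 138415299))
(L (nat_lit 27695284)))
(L (nat_lit 27662484)))
(L (nat_lit 30093447)))
(L (nat_lit 20851235))))
(L (nat_lit 18956509)))
(L (nat_lit 4940199)))
(L (nat_lit 19428546)))
(L (nat_lit 19030223)))
(L (nat_lit 21929379)))
(L (nat_lit 27723028)))
(L (nat_lit 1372911)))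
(L (nat_lit 8867964)))
(L (nat_lit 12935223)))
(L (nat_lit 9950082)))
(L (nat_lit 16995200)))
(L (nat_lit 21470113)))
(L (nat_lit 5689626)))
(L (nat_lit 6115849)))
(L (nat_lit 5559149)))
(L (nat_lit 27709668)))
(L (nat_lit 9589306)))
(L (nat_lit 16044869)))
(L (nat_lit 12931099)))
(L (nat_lit 8213026)))
(S (nat_lit 41243) (S (nat_lit 40564) (S (nat_lit 28543) (S (nat_lit 39592) (S (nat_lit 17543) (S (nat_lit 40807) (S (nat_lit 40514) (S (nat_lit 40542) (S (nat_lit 50463) (S (nat_lit 50494) (S (nat_lit 39542) (S (nat_lit 17571) (S (nat_lit 39570) (S (nat_lit 57086) (S (nat_lit 28574) (S (nat_lit 31) (S (nat_lit 21733) (S (nat_lit 1944) (S (nat_lit 972) (S (nat_lit 24095) (S (nat_lit 24073) (S (nat_lit 1246) (S (nat_lit 41576) (S (nat_lit 48351) (S (nat_lit 54884) (S (nat_lit 20430) (S (nat_lit 9567) (S (nat_lit 10296) (S (nat_lit 624) (S (nat_lit 31120) (S (nat_lit 21221) (D (nat_lit 11) (nat_lit 27993102) (nat_lit 25768291) (nat_lit 146063497318))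
(L (nat_lit 27793590)))
(L (nat_lit 27478401)))
(L (nat_lit 27806979)))
(L (nat_lit 27740449)))
(L (nat_lit 27740417)))
(S (nat_lit 35454) (S (nat_lit 35697) (S (nat_lit 40864) (S (nat_lit 19134) (S (nat_lit 20249) (D (nat_lit 11) (nat_lit 25788807) (nat_lit 19673195) (nat_lit 210695684128))
(L (nat_lit 27797590)))
(L (nat_lit 29411881)))
(L (nat_lit 19806311)))
(L (nat_lit 19231109)))
(L (nat_lit 10535546))))
(L (nat_lit 14567620)))
(L (nat_lit 14266145)))
(L (nat_lit 28917029)))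
(L (nat_lit 14494369)))
(L (nat_lit 6805347)))
(L (nat_lit 7263781)))
(L (nat_lit 4994322)))
(L (nat_lit 6042930)))
(L (nat_lit 22452312)))
(L (nat_lit 7425870)))
(L (nat_lit 2609497)))
(L (nat_lit 27728052)))
(L (nat_lit 17093376)))
(L (nat_lit 7753848)))
(L (nat_lit 16994426)))
(L (nat_lit 12866339)))
(L (nat_lit 12832795)))
(L (nat_lit 1528650)))
(L (nat_lit 7492400)))
(L (nat_lit 8212654)))
(L (nat_lit 872686)))
(L (nat_lit 27840521)))
(L (nat_lit 10244482)))
(L (nat_lit 17584262)))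
(L (nat_lit 25304535)))))
(S (nat_lit 37285) (S (nat_lit 1991) (S (nat_lit 1732) (S (nat_lit 10960) (S (nat_lit 35104) (L (nat_lit 9012666))
(L (nat_lit 18450185)))
(S (nat_lit 30724) (S (nat_lit 35148) (L (nat_lit 10126809))
(L (nat_lit 9947905)))
(S (nat_lit 50488) (S (nat_lit 42) (S (nat_lit 19795) (L (nat_lit 26497412))
(L (nat_lit 9916162)))
(L (nat_lit 7157939)))
(L (nat_lit 25210480)))))
(S (nat_lit 21496) (S (nat_lit 17538) (S (nat_lit 10977) (S (nat_lit 21512) (S (nat_lit 40514) (L (nat_lit 20154286))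
(L (nat_lit 18108600)))
(L (nat_lit 31103361)))
(S (nat_lit 30633) (L (nat_lit 12867772))
(L (nat_lit 23923057))))
(S (nat_lit 37302) (S (nat_lit 31) (S (nat_lit 40807) (L (nat_lit 28776467))
(L (nat_lit 23922054)))
(L (nat_lit 19340099)))
(S (nat_lit 57066) (S (nat_lit 35135) (S (nat_lit 21490) (L (nat_lit 28395146))
(L (nat_lit 858676)))
(L (nat_lit 10121636)))
(L (nat_lit 25463253)))))
(S (nat_lit 41260) (S (nat_lit 30724) (S (nat_lit 1765) (S (nat_lit 40562) (S (nat_lit 19778) (S (nat_lit 37307) (S (nat_lit 1036) (S (nat_lit 30774) (S (nat_lit 17538) (S (nat_lit 20979) (S (nat_lit 1240) (S (nat_lit 57086) (S (nat_lit 39603) (S (nat_lit 24340) (S (nat_lit 41291) (S (nat_lit 57055) (S (nat_lit 50463) (S (nat_lit 20761) (S (nat_lit 38920) (S (nat_lit 21941) (S (nat_lit 31599) (S (nat_lit 6479) (D (nat_lit 13) (nat_lit 27999238) (nat_lit 25767087) (nat_lit 6708980095109))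
(L (nat_lit 27665088)))
(L (nat_lit 15824522)))
(L (nat_lit 19776682)))
(S (nat_lit 43988) (S (nat_lit 55970) (S (nat_lit 50138) (S (nat_lit 18184) (D (nat_lit 11) (nat_lit 27935076) (nat_lit 19259568) (nat_lit 35710342341))
(L (nat_lit 29991425)))
(L (nat_lit 4019622)))
(L (nat_lit 4018599)))
(L (nat_lit 4443672))))
(L (nat_lit 21906534)))
(L (nat_lit 4442038)))
(L (nat_lit 21077805)))
(L (nat_lit 18589443)))
(L (nat_lit 29381936)))
(L (nat_lit 27809894)))
(L (nat_lit 21773636)))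
(L (nat_lit 3941908)))
(L (nat_lit 1913171)))
(L (nat_lit 18697568)))
(L (nat_lit 30561583)))
(L (nat_lit 3021390)))
(L (nat_lit 13718346)))
(L (nat_lit 30659697)))
(L (nat_lit 24374785)))
(L (nat_lit 18923306)))
(L (nat_lit 24143181)))
(L (nat_lit 25178357)))))
(S (nat_lit 21755) (S (nat_lit 1229) (S (nat_lit 1014) (S (nat_lit 2019) (S (nat_lit 57024) (S (nat_lit 30774) (S (nat_lit 30699) (S (nat_lit 21540) (S (nat_lit 48290) (S (nat_lit 10966) (S (nat_lit 19826) (S (nat_lit 1047) (S (nat_lit 20783) (S (nat_lit 7922) (S (nat_lit 17543) (S (nat_lit 47202) (S (nat_lit 1262) (S (nat_lit 21770) (S (nat_lit 34569) (S (nat_lit 1944) (S (nat_lit 19970) (S (nat_lit 20639) (S (nat_lit 17445) (S (nat_lit 40421) (D (nat_lit 13) (nat_lit 15736597) (nat_lit 3367502) (nat_lit 5533065054241))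
(L (nat_lit 21864529)))
(L (nat_lit 31144261)))
(L (nat_lit 29047109)))
(S (nat_lit 29334) (S (nat_lit 29382) (S (nat_lit 29630) (S (nat_lit 40918) (S (nat_lit 8227) (S (nat_lit 35296) (D (nat_lit 13) (nat_lit 29010960) (nat_lit 19664263) (nat_lit 1136123845829))
(L (nat_lit 27776352)))
(L (nat_lit 30905991)))
(L (nat_lit 21871719)))
(L (nat_lit 28815041)))
(L (nat_lit 28823841)))
(L (nat_lit 20406378))))
(L (nat_lit 3794347)))
(L (nat_lit 29572834)))
(L (nat_lit 30977760)))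
(L (nat_lit 13851773)))
(L (nat_lit 30974627)))
(L (nat_lit 16591890)))
(L (nat_lit 28869907)))
(L (nat_lit 6963353)))
(L (nat_lit 12835682)))
(L (nat_lit 3971825)))
(L (nat_lit 26745571)))
(L (nat_lit 13886547)))
(L (nat_lit 30458099)))
(L (nat_lit 31070752)))
(L (nat_lit 2996534)))
(L (nat_lit 12589943)))
(L (nat_lit 14587954)))
(S (nat_lit 25742) (L (nat_lit 16961755))
(L (nat_lit 12768136))))
(S (nat_lit 20993) (S (nat_lit 1240) (S (nat_lit 41271) (L (nat_lit 3625834))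
(L (nat_lit 27775172)))
(S (nat_lit 21004) (S (nat_lit 40575) (S (nat_lit 37260) (L (nat_lit 22217146))
(L (nat_lit 14489653)))
(L (nat_lit 24978882)))
(S (nat_lit 40768) (S (nat_lit 35104) (S (nat_lit 41254) (S (nat_lit 48307) (S (nat_lit 21540) (L (nat_lit 28556993))
(L (nat_lit 7401101)))
(L (nat_lit 27859490)))
(L (nat_lit 23463690)))
(L (nat_lit 18619475)))
(L (nat_lit 25450511)))))
(S (nat_lit 40757) (S (nat_lit 35104) (S (nat_lit 40564) (S (nat_lit 35073) (L (nat_lit 3697255))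
(L (nat_lit 19962768)))
(L (nat_lit 23861669)))
(S (nat_lit 50356) (L (nat_lit 16929607))
(L (nat_lit 18613961))))
(L (nat_lit 25443479)))))
(S (nat_lit 41519) (S (nat_lit 35104) (S (nat_lit 1034) (S (nat_lit 19778) (S (nat_lit 30774) (S (nat_lit 19839) (S (nat_lit 1765) (S (nat_lit 1975) (S (nat_lit 50488) (S (nat_lit 28576) (S (nat_lit 35087) (S (nat_lit 37322) (S (nat_lit 19795) (S (nat_lit 39313) (S (nat_lit 54879) (S (nat_lit 9932) (S (nat_lit 57088) (S (nat_lit 29437) (S (nat_lit 21770) (S (nat_lit 58828) (S (nat_lit 11829) (S (nat_lit 4117) (S (nat_lit 51798) (D (nat_lit 15) (nat_lit 31164684) (nat_lit 25761100) (nat_lit 111702807719))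
(L (nat_lit 28914912)))
(L (nat_lit 31147237)))
(S (nat_lit 32054) (S (nat_lit 50826) (S (nat_lit 42885) (D (nat_lit 15) (nat_lit 27548097) (nat_lit 19666314) (nat_lit 42012287237))
(L (nat_lit 18212421)))
(L (nat_lit 28914981)))
(L (nat_lit 13422784))))
(L (nat_lit 24615713)))
(L (nat_lit 1945879)))
(L (nat_lit 14897272)))
(L (nat_lit 11154492)))
(L (nat_lit 10290765)))
(L (nat_lit 15847174)))
(L (nat_lit 251389)))
(L (nat_lit 3814712)))
(L (nat_lit 9229484)))
(L (nat_lit 4080914)))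
(L (nat_lit 3491666)))
(L (nat_lit 27308370)))
(L (nat_lit 18921290)))
(L (nat_lit 9491899)))
(L (nat_lit 8971346)))
(L (nat_lit 9091164)))
(L (nat_lit 9255588)))
(S (nat_lit 20798) (S (nat_lit 21465) (S (nat_lit 48290) (L (nat_lit 28655670))
(L (nat_lit 27271757)))
(L (nat_lit 871724)))
(S (nat_lit 40562) (S (nat_lit 40805) (S (nat_lit 1748) (L (nat_lit 20182192))
(L (nat_lit 14485096)))
(L (nat_lit 24374816)))
(L (nat_lit 25700470)))))
(L (nat_lit 18454616)))
(L (nat_lit 25827744)))))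
(S (nat_lit 57049) (S (nat_lit 1726) (S (nat_lit 15356) (S (nat_lit 28587) (S (nat_lit 1229) (S (nat_lit 19826) (S (nat_lit 28526) (S (nat_lit 8779) (L (nat_lit 24459012))
(L (nat_lit 905769)))
(L (nat_lit 17877770)))
(L (nat_lit 2880043)))
(L (nat_lit 19307330)))
(L (nat_lit 24449808)))
(S (nat_lit 35120) (S (nat_lit 1003) (S (nat_lit 19789) (S (nat_lit 30699) (S (nat_lit 2019) (L (nat_lit 10256853))
(L (nat_lit 11622873)))
(L (nat_lit 8450548)))
(S (nat_lit 32555) (L (nat_lit 20148334))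
(L (nat_lit 8447694))))
(S (nat_lit 20767) (S (nat_lit 37307) (S (nat_lit 50527) (S (nat_lit 30699) (S (nat_lit 21527) (S (nat_lit 54592) (S (nat_lit 48338) (S (nat_lit 35115) (S (nat_lit 48351) (S (nat_lit 57024) (S (nat_lit 15384) (S (nat_lit 21708) (S (nat_lit 1215) (S (nat_lit 15276) (S (nat_lit 1624) (S (nat_lit 48912) (S (nat_lit 16706) (S (nat_lit 16036) (S (nat_lit 51557) (D (nat_lit 13) (nat_lit 30492945) (nat_lit 25759179) (nat_lit 106372865250))
(L (nat_lit 29078663)))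
(L (nat_lit 31011849)))
(L (nat_lit 30755328)))
(L (nat_lit 28946720)))
(S (nat_lit 49867) (S (nat_lit 11311) (S (nat_lit 26750) (S (nat_lit 38672) (S (nat_lit 12738) (S (nat_lit 20237) (D (nat_lit 13) (nat_lit 27612236) (nat_lit 25760972) (nat_lit 6807624914152))
(L (nat_lit 27993570)))
(L (nat_lit 27577519)))
(L (nat_lit 27897285)))
(L (nat_lit 27675872)))
(L (nat_lit 27865413)))
(L (nat_lit 4612778))))
(L (nat_lit 30736853)))
(L (nat_lit 26850565)))
(L (nat_lit 22130509)))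
(L (nat_lit 17748256)))
(L (nat_lit 13541024)))
(L (nat_lit 20097934)))
(L (nat_lit 8477486)))
(L (nat_lit 27756203)))
(L (nat_lit 29904970)))
(L (nat_lit 15405273)))
(L (nat_lit 16838868)))
(L (nat_lit 20778189)))
(L (nat_lit 17574565)))
(S (nat_lit 40531) (S (nat_lit 997) (S (nat_lit 30741) (S (nat_lit 1958) (S (nat_lit 37322) (L (nat_lit 10088461))
(L (nat_lit 23954890)))
(L (nat_lit 13212828)))
(L (nat_lit 24393505)))
(L (nat_lit 13403380)))
(L (nat_lit 25864366)))))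
(S (nat_lit 54884) (S (nat_lit 1047) (S (nat_lit 1986) (L (nat_lit 12439600))
(L (nat_lit 12406861)))
(S (nat_lit 53954) (L (nat_lit 23299921))
(L (nat_lit 13338440))))
(L (nat_lit 25891275)))))
(S (nat_lit 21490) (S (nat_lit 17543) (S (nat_lit 40564) (S (nat_lit 39592) (S (nat_lit 5812) (L (nat_lit 220077))
(S (nat_lit 41243) (S (nat_lit 21783) (S (nat_lit 20811) (L (nat_lit 1814906))
(L (nat_lit 550258)))
(L (nat_lit 7890066)))
(L (nat_lit 24198394))))
(L (nat_lit 23457806)))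
(L (nat_lit 24162222)))
(S (nat_lit 37307) (S (nat_lit 1732) (S (nat_lit 39553) (S (nat_lit 30699) (L (nat_lit 29371022))
(L (nat_lit 17695958)))
(L (nat_lit 27306702)))
(S (nat_lit 21496) (S (nat_lit 20783) (S (nat_lit 41503) (S (nat_lit 20736) (L (nat_lit 8783484))
(L (nat_lit 455242)))
(L (nat_lit 503701)))
(L (nat_lit 15042455)))
(S (nat_lit 41260) (S (nat_lit 48290) (S (nat_lit 1240) (L (nat_lit 2350489))
(L (nat_lit 3942094)))
(L (nat_lit 27921802)))
(L (nat_lit 25408532)))))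
(S (nat_lit 57071) (S (nat_lit 64) (S (nat_lit 35148) (S (nat_lit 28543) (S (nat_lit 57024) (S (nat_lit 28576) (S (nat_lit 20798) (S (nat_lit 20767) (S (nat_lit 20750) (S (nat_lit 21540) (S (nat_lit 21507) (S (nat_lit 35135) (S (nat_lit 41519) (S (nat_lit 35104) (S (nat_lit 14) (S (nat_lit 44338) (S (nat_lit 28574) (S (nat_lit 57099) (S (nat_lit 25) (S (nat_lit 35137) (S (nat_lit 24294) (S (nat_lit 23889) (S (nat_lit 36190) (S (nat_lit 30356) (D (nat_lit 13) (nat_lit 17618985) (nat_lit 25765039) (nat_lit 107548347556))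
(L (nat_lit 29014211)))
(L (nat_lit 28973509)))
(L (nat_lit 15587555)))
(S (nat_lit 58200) (S (nat_lit 58233) (S (nat_lit 45505) (S (nat_lit 41698) (S (nat_lit 52388) (D (nat_lit 13) (nat_lit 15487265) (nat_lit 25767089) (nat_lit 213946407175))
(L (nat_lit 19295424)))
(L (nat_lit 30098658)))
(L (nat_lit 19743077)))
(L (nat_lit 29964643)))
(L (nat_lit 4581007))))
(L (nat_lit 12736765)))
(L (nat_lit 6353461)))
(L (nat_lit 12741319)))
(L (nat_lit 10140516)))
(L (nat_lit 21019964)))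
(L (nat_lit 6319793)))
(L (nat_lit 23141784)))
(L (nat_lit 6973824)))
(L (nat_lit 10257999)))
(L (nat_lit 8132146)))
(L (nat_lit 224754)))
(L (nat_lit 14832393)))
(L (nat_lit 15043348)))
(L (nat_lit 31167015)))
(L (nat_lit 13295656)))
(L (nat_lit 13540373)))
(L (nat_lit 13179651)))
(L (nat_lit 18731296)))
(S (nat_lit 19828) (L (nat_lit 28644014))
(S (nat_lit 39592) (S (nat_lit 30298) (L (nat_lit 9060099))
(L (nat_lit 6836253)))
(L (nat_lit 25317769)))))
(L (nat_lit 25701394)))))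
(S (nat_lit 41254) (S (nat_lit 35104) (S (nat_lit 21698) (L (nat_lit 22840841))
(S (nat_lit 35120) (S (nat_lit 40564) (S (nat_lit 39590) (S (nat_lit 41547) (S (nat_lit 40575) (S (nat_lit 41534) (S (nat_lit 14) (S (nat_lit 28526) (S (nat_lit 10935) (S (nat_lit 17543) (S (nat_lit 50538) (S (nat_lit 39603) (S (nat_lit 21527) (S (nat_lit 20979) (S (nat_lit 21739) (S (nat_lit 19346) (S (nat_lit 19795) (S (nat_lit 37322) (S (nat_lit 39046) (S (nat_lit 29704) (S (nat_lit 44003) (S (nat_lit 50592) (S (nat_lit 3362) (D (nat_lit 15) (nat_lit 29446413) (nat_lit 19666312) (nat_lit 75296218341))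
(L (nat_lit 30791203)))
(L (nat_lit 21424386)))
(S (nat_lit 53495) (S (nat_lit 55726) (S (nat_lit 46789) (D (nat_lit 15) (nat_lit 27775113) (nat_lit 18997516) (nat_lit 38894870786))
(L (nat_lit 19373241)))
(L (nat_lit 28917029)))
(L (nat_lit 4827706))))
(L (nat_lit 17617252)))
(L (nat_lit 19239853)))
(L (nat_lit 20410693)))
(L (nat_lit 9044750)))
(L (nat_lit 28780724)))
(L (nat_lit 22278191)))
(L (nat_lit 14863642)))
(L (nat_lit 11253537)))
(L (nat_lit 11342290)))
(L (nat_lit 15537460)))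
(L (nat_lit 22320910)))
(L (nat_lit 6849300)))
(L (nat_lit 9915141)))
(L (nat_lit 20133980)))
(L (nat_lit 8951546)))
(L (nat_lit 17587210)))
(L (nat_lit 17587429)))
(L (nat_lit 23653733)))
(S (nat_lit 44776) (L (nat_lit 23298460))
(L (nat_lit 18084453))))
(L (nat_lit 3877401))))
(L (nat_lit 18089747)))
(L (nat_lit 25756942)))))
(L (nat_lit 25923920)))))
(L (nat_lit 25384485)))))
(S (nat_lit 48276) (S (nat_lit 17521) (S (nat_lit 1701) (S (nat_lit 10935) (S (nat_lit 15356) (S (nat_lit 8810) (S (nat_lit 16414) (L (nat_lit 23391653))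
(S (nat_lit 17527) (S (nat_lit 15309) (S (nat_lit 40768) (L (nat_lit 1940916))
(L (nat_lit 17402635)))
(L (nat_lit 24315417)))
(L (nat_lit 7144886))))
(S (nat_lit 28574) (S (nat_lit 37307) (S (nat_lit 54862) (S (nat_lit 21750) (S (nat_lit 39590) (S (nat_lit 57055) (S (nat_lit 41291) (S (nat_lit 1215) (S (nat_lit 54899) (S (nat_lit 39570) (S (nat_lit 40514) (S (nat_lit 30548) (S (nat_lit 30774) (S (nat_lit 10779) (S (nat_lit 39553) (S (nat_lit 38229) (S (nat_lit 10826) (S (nat_lit 3975) (S (nat_lit 34037) (S (nat_lit 11555) (D (nat_lit 15) (nat_lit 27742565) (nat_lit 25282954) (nat_lit 207403293922))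
(L (nat_lit 28031298)))
(L (nat_lit 27965666)))
(S (nat_lit 12368) (S (nat_lit 5299) (S (nat_lit 55896) (D (nat_lit 15) (nat_lit 31097166) (nat_lit 19666189) (nat_lit 76344791168))
(L (nat_lit 28433834)))
(L (nat_lit 31079650)))
(L (nat_lit 7825090))))
(L (nat_lit 28556962)))
(L (nat_lit 29951370)))
(L (nat_lit 23963823)))
(L (nat_lit 18211493)))
(L (nat_lit 14282017)))
(L (nat_lit 9111065)))
(L (nat_lit 9583258)))
(L (nat_lit 4515347)))
(L (nat_lit 4814250)))
(L (nat_lit 19293507)))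
(L (nat_lit 6853398)))
(L (nat_lit 27335091)))
(L (nat_lit 24648453)))
(L (nat_lit 15979365)))
(L (nat_lit 14537026)))
(L (nat_lit 14438443)))
(S (nat_lit 48338) (S (nat_lit 15309) (S (nat_lit 19778) (S (nat_lit 57038) (S (nat_lit 54851) (L (nat_lit 28510708))
(L (nat_lit 15984228)))
(L (nat_lit 14935652)))
(L (nat_lit 22456068)))
(L (nat_lit 695768)))
(L (nat_lit 25303663)))))
(S (nat_lit 35120) (S (nat_lit 8773) (S (nat_lit 1229) (L (nat_lit 19934713))
(L (nat_lit 13408406)))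
(S (nat_lit 28537) (L (nat_lit 20157293))
(S (nat_lit 48301) (S (nat_lit 21512) (S (nat_lit 1215) (S (nat_lit 21026) (L (nat_lit 26415538))
(L (nat_lit 15769177)))
(L (nat_lit 12870245)))
(S (nat_lit 34553) (L (nat_lit 26225140))
(L (nat_lit 22504801))))
(L (nat_lit 25892264)))))
(S (nat_lit 54884) (S (nat_lit 1743) (S (nat_lit 19778) (L (nat_lit 12607862))
(L (nat_lit 8409593)))
(S (nat_lit 21507) (S (nat_lit 20783) (S (nat_lit 50488) (L (nat_lit 16679595))
(L (nat_lit 4445965)))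
(L (nat_lit 14687833)))
(S (nat_lit 41271) (S (nat_lit 54862) (S (nat_lit 1229) (S (nat_lit 1958) (L (nat_lit 14799101))
(L (nat_lit 12374466)))
(L (nat_lit 11325890)))
(L (nat_lit 27283944)))
(L (nat_lit 25186825)))))
(L (nat_lit 25249999)))))
(S (nat_lit 30699) (S (nat_lit 8773) (S (nat_lit 42) (S (nat_lit 711) (S (nat_lit 1290) (L (nat_lit 8411918))
(L (nat_lit 13338841)))
(S (nat_lit 21043) (S (nat_lit 15356) (L (nat_lit 26908844))
(L (nat_lit 7917628)))
(L (nat_lit 12079288))))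
(S (nat_lit 19806) (S (nat_lit 986) (S (nat_lit 1279) (S (nat_lit 1215) (L (nat_lit 3882298))
(L (nat_lit 11087993)))
(L (nat_lit 13553985)))
(S (nat_lit 55515) (L (nat_lit 2993774))
(L (nat_lit 2931063))))
(S (nat_lit 39570) (S (nat_lit 21054) (S (nat_lit 41271) (S (nat_lit 10982) (S (nat_lit 40807) (L (nat_lit 28561921))
(L (nat_lit 733103)))
(L (nat_lit 26530860)))
(L (nat_lit 23076620)))
(L (nat_lit 5021138)))
(L (nat_lit 25475808)))))
(S (nat_lit 28537) (S (nat_lit 1215) (S (nat_lit 6434) (L (nat_lit 1977812))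
(S (nat_lit 57038) (S (nat_lit 1014) (S (nat_lit 21770) (S (nat_lit 40531) (S (nat_lit 19778) (S (nat_lit 2019) (S (nat_lit 35098) (S (nat_lit 37260) (S (nat_lit 20783) (S (nat_lit 41254) (S (nat_lit 1047) (S (nat_lit 8810) (S (nat_lit 21883) (S (nat_lit 20798) (S (nat_lit 21755) (S (nat_lit 5278) (S (nat_lit 15758) (S (nat_lit 16001) (S (nat_lit 57623) (S (nat_lit 39685) (S (nat_lit 954) (D (nat_lit 11) (nat_lit 31142027) (nat_lit 25768105) (nat_lit 279242083523))
(L (nat_lit 31144257)))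
(L (nat_lit 28847744)))
(L (nat_lit 28935591)))
(L (nat_lit 31043938)))
(L (nat_lit 31043939)))
(S (nat_lit 39994) (S (nat_lit 678) (S (nat_lit 42327) (S (nat_lit 43056) (S (nat_lit 57413) (S (nat_lit 40867) (D (nat_lit 11) (nat_lit 31068400) (nat_lit 25768291) (nat_lit 279380495555))
(L (nat_lit 19806346)))
(L (nat_lit 22880800)))
(L (nat_lit 15621408)))
(L (nat_lit 15621376)))
(L (nat_lit 30028069)))
(L (nat_lit 10227220))))
(L (nat_lit 11192130)))
(L (nat_lit 14995233)))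
(L (nat_lit 19801169)))
(L (nat_lit 17138300)))
(L (nat_lit 20889770)))
(L (nat_lit 17918663)))
(L (nat_lit 6314393)))
(L (nat_lit 14489653)))
(L (nat_lit 13296962)))
(L (nat_lit 13654264)))
(L (nat_lit 14880694)))
(L (nat_lit 24343727)))
(L (nat_lit 30624256)))
(L (nat_lit 10965890)))
(L (nat_lit 11199564))))
(S (nat_lit 46222) (S (nat_lit 52783) (L (nat_lit 18542949))
(L (nat_lit 2580851)))
(L (nat_lit 12766553))))
(S (nat_lit 48301) (S (nat_lit 15351) (S (nat_lit 19789) (S (nat_lit 1003) (S (nat_lit 40757) (S (nat_lit 35087) (L (nat_lit 29414822))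
(L (nat_lit 2324175)))
(L (nat_lit 964983)))
(L (nat_lit 5059956)))
(L (nat_lit 16586100)))
(S (nat_lit 39715) (S (nat_lit 37260) (L (nat_lit 11563728))
(L (nat_lit 23266812)))
(L (nat_lit 14768505))))
(L (nat_lit 25836713)))))
(S (nat_lit 50463) (S (nat_lit 1776) (S (nat_lit 1257) (S (nat_lit 1014) (S (nat_lit 37260) (S (nat_lit 35104) (L (nat_lit 15533331))
(L (nat_lit 13371081)))
(L (nat_lit 14485158)))
(L (nat_lit 20134786)))
(L (nat_lit 12781491)))
(S (nat_lit 21540) (S (nat_lit 40785) (S (nat_lit 21490) (S (nat_lit 20783) (S (nat_lit 40807) (S (nat_lit 62) (S (nat_lit 48338) (S (nat_lit 19839) (L (nat_lit 9622317))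
(L (nat_lit 16084083)))
(L (nat_lit 11339253)))
(L (nat_lit 12912349)))
(L (nat_lit 27985230)))
(L (nat_lit 30606928)))
(L (nat_lit 15042420)))
(L (nat_lit 27461139)))
(S (nat_lit 41304) (S (nat_lit 21021) (S (nat_lit 20783) (S (nat_lit 8762) (S (nat_lit 21770) (S (nat_lit 15334) (S (nat_lit 19778) (S (nat_lit 1991) (S (nat_lit 21708) (S (nat_lit 1246) (S (nat_lit 57038) (S (nat_lit 21529) (S (nat_lit 1763) (S (nat_lit 1036) (S (nat_lit 41514) (S (nat_lit 28245) (S (nat_lit 53493) (S (nat_lit 34019) (S (nat_lit 47961) (S (nat_lit 357) (S (nat_lit 36435) (S (nat_lit 28990) (S (nat_lit 31904) (S (nat_lit 35938) (S (nat_lit 40956) (D (nat_lit 13) (nat_lit 27901284) (nat_lit 19664331) (nat_lit 2237714799751))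
(L (nat_lit 30054945)))
(L (nat_lit 19329030)))
(L (nat_lit 21869641)))
(L (nat_lit 21869764)))
(L (nat_lit 28979397)))
(S (nat_lit 58581) (S (nat_lit 49660) (S (nat_lit 52106) (S (nat_lit 36921) (S (nat_lit 35452) (S (nat_lit 39984) (D (nat_lit 13) (nat_lit 26881508) (nat_lit 25759086) (nat_lit 6604587242725))
(L (nat_lit 30060035)))
(L (nat_lit 19329216)))
(L (nat_lit 28979211)))
(L (nat_lit 14588481)))
(L (nat_lit 13488387)))
(L (nat_lit 16048866))))
(L (nat_lit 19763625)))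
(L (nat_lit 1299248)))
(L (nat_lit 29036845)))
(L (nat_lit 30057516)))
(L (nat_lit 18753555)))
(L (nat_lit 20448043)))
(L (nat_lit 13316001)))
(L (nat_lit 21198208)))
(L (nat_lit 4420302)))
(L (nat_lit 5720443)))
(L (nat_lit 1975699)))
(L (nat_lit 11585117)))
(L (nat_lit 2315025)))
(L (nat_lit 26235305)))
(L (nat_lit 4420304)))
(L (nat_lit 223821)))
(L (nat_lit 30606960)))
(L (nat_lit 14878579)))
(L (nat_lit 25446050)))))
(L (nat_lit 25418273)))))
(S (nat_lit 21465) (S (nat_lit 17543) (S (nat_lit 17571) (S (nat_lit 31) (S (nat_lit 41486) (S (nat_lit 15334) (S (nat_lit 41514) (S (nat_lit 15384) (S (nat_lit 21496) (S (nat_lit 40805) (S (nat_lit 19828) (S (nat_lit 21527) (S (nat_lit 19806) (S (nat_lit 20783) (S (nat_lit 20811) (S (nat_lit 35104) (S (nat_lit 35073) (S (nat_lit 37260) (S (nat_lit 7459) (S (nat_lit 34463) (S (nat_lit 17389) (S (nat_lit 10408) (S (nat_lit 58824) (S (nat_lit 56394) (D (nat_lit 11) (nat_lit 31178790) (nat_lit 25765381)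 (nat_lit 106473562152))
(L (nat_lit 29015332)))
(L (nat_lit 28625379)))
(L (nat_lit 31011139)))
(S (nat_lit 34270) (S (nat_lit 9939) (S (nat_lit 12369) (S (nat_lit 55420) (D (nat_lit 11) (nat_lit 31103425) (nat_lit 25765317) (nat_lit 106473555201))
(L (nat_lit 28331430)))
(L (nat_lit 31048744)))
(L (nat_lit 31047688)))
(L (nat_lit 13511862))))
(L (nat_lit 26844548)))
(L (nat_lit 4991598)))
(L (nat_lit 19931025)))
(L (nat_lit 2562746)))
(L (nat_lit 10074200)))
(L (nat_lit 30639571)))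
(L (nat_lit 30869095)))
(L (nat_lit 21296640)))
(L (nat_lit 8107875)))
(L (nat_lit 21361710)))
(L (nat_lit 27806944)))
(L (nat_lit 16698592)))
(L (nat_lit 357783)))
(L (nat_lit 18173981)))
(L (nat_lit 783692)))
(L (nat_lit 18206872)))
(L (nat_lit 1945909)))
(S (nat_lit 37335) (S (nat_lit 8773) (S (nat_lit 1215) (S (nat_lit 21708) (L (nat_lit 10548844))
(L (nat_lit 30582163)))
(S (nat_lit 40635) (L (nat_lit 22580603))
(L (nat_lit 14428773))))
(S (nat_lit 28537) (S (nat_lit 57086) (S (nat_lit 41243) (S (nat_lit 1014) (L (nat_lit 28529025))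
(L (nat_lit 20780268)))
(L (nat_lit 25077937)))
(L (nat_lit 27860356)))
(S (nat_lit 48301) (S (nat_lit 20783) (S (nat_lit 19789) (S (nat_lit 48318) (L (nat_lit 5452411))
(L (nat_lit 16049760)))
(L (nat_lit 21841251)))
(L (nat_lit 22807977)))
(L (nat_lit 25377970)))))
(S (nat_lit 57099) (S (nat_lit 8922) (L (nat_lit 16537703))
(S (nat_lit 20783) (S (nat_lit 19778) (S (nat_lit 10935) (S (nat_lit 40564) (L (nat_lit 30953642))
(L (nat_lit 24974731)))
(L (nat_lit 15782694)))
(L (nat_lit 15782667)))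
(L (nat_lit 16524865))))
(L (nat_lit 25531831)))))
(S (nat_lit 37307) (S (nat_lit 15309) (S (nat_lit 1975) (S (nat_lit 19795) (S (nat_lit 20783) (S (nat_lit 21041) (S (nat_lit 10982) (S (nat_lit 54899) (S (nat_lit 35148) (S (nat_lit 1246) (S (nat_lit 8779) (S (nat_lit 35104) (S (nat_lit 57099) (S (nat_lit 40531) (S (nat_lit 47) (S (nat_lit 48429) (S (nat_lit 37684) (S (nat_lit 4039) (S (nat_lit 4022) (S (nat_lit 30939) (D (nat_lit 15) (nat_lit 26913968) (nat_lit 13176584) (nat_lit 104221116486))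
(L (nat_lit 27963495)))
(L (nat_lit 27933891)))
(S (nat_lit 54703) (S (nat_lit 12745) (S (nat_lit 8396) (S (nat_lit 52879) (S (nat_lit 26018) (S (nat_lit 13320) (D (nat_lit 13) (nat_lit 31077634) (nat_lit 19273912) (nat_lit 2267913755844))
(L (nat_lit 29827127)))
(L (nat_lit 27383176)))
(L (nat_lit 29965600)))
(L (nat_lit 27870465)))
(L (nat_lit 27868448)))
(L (nat_lit 8279084))))
(L (nat_lit 3388157)))
(L (nat_lit 6349454)))
(L (nat_lit 8230512)))
(L (nat_lit 7829120)))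
(L (nat_lit 15472231)))
(L (nat_lit 9854040)))
(L (nat_lit 7897691)))
(L (nat_lit 6113766)))
(L (nat_lit 2699022)))
(L (nat_lit 21772613)))
(L (nat_lit 8206387)))
(L (nat_lit 22032697)))
(L (nat_lit 22191545)))
(L (nat_lit 21765571)))
(S (nat_lit 21739) (S (nat_lit 20767) (S (nat_lit 20783) (S (nat_lit 19795) (L (nat_lit 15995797))
(L (nat_lit 15637589)))
(L (nat_lit 30629281)))
(L (nat_lit 800117)))
(S (nat_lit 41503) (S (nat_lit 50488) (S (nat_lit 1047) (S (nat_lit 40564) (L (nat_lit 13690506))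
(L (nat_lit 27302510)))
(L (nat_lit 8974514)))
(L (nat_lit 27474594)))
(L (nat_lit 25662708)))))
(S (nat_lit 35073) (S (nat_lit 1300) (S (nat_lit 40702) (L (nat_lit 20213902))
(L (nat_lit 14905493)))
(S (nat_lit 21010) (S (nat_lit 40743) (S (nat_lit 37260) (L (nat_lit 2308764))
(L (nat_lit 17003233)))
(L (nat_lit 18476138)))
(L (nat_lit 4991444))))
(S (nat_lit 54837) (S (nat_lit 8773) (S (nat_lit 1257) (S (nat_lit 1776) (S (nat_lit 8762) (L (nat_lit 23269917))
(L (nat_lit 8074053)))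
(L (nat_lit 13856786)))
(S (nat_lit 32540) (L (nat_lit 1262514))
(L (nat_lit 12800931))))
(S (nat_lit 28537) (S (nat_lit 35098) (S (nat_lit 57086) (S (nat_lit 50477) (L (nat_lit 29890706))
(L (nat_lit 11560524)))
(L (nat_lit 12322380)))
(L (nat_lit 18027096)))
(S (nat_lit 48301) (S (nat_lit 20783) (S (nat_lit 19789) (S (nat_lit 20993) (L (nat_lit 13178203))
(L (nat_lit 21824880)))
(L (nat_lit 21841251)))
(L (nat_lit 22807977)))
(L (nat_lit 25210295)))))
(L (nat_lit 25868295)))))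
(S (nat_lit 57071) (S (nat_lit 8823) (S (nat_lit 1034) (S (nat_lit 1014) (S (nat_lit 20783) (S (nat_lit 48323) (L (nat_lit 20243468))
(L (nat_lit 22437931)))
(L (nat_lit 22406529)))
(L (nat_lit 26426052)))
(S (nat_lit 20798) (S (nat_lit 75) (S (nat_lit 10960) (S (nat_lit 8790) (L (nat_lit 20341894))
(L (nat_lit 7167392)))
(L (nat_lit 26939784)))
(L (nat_lit 20484966)))
(S (nat_lit 40562) (S (nat_lit 24950) (L (nat_lit 3404366))
(S (nat_lit 28559) (S (nat_lit 47) (L (nat_lit 4763354))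
(L (nat_lit 19730827)))
(L (nat_lit 24684603))))
(L (nat_lit 25408631)))))
(S (nat_lit 28587) (S (nat_lit 1279) (S (nat_lit 35104) (S (nat_lit 57066) (S (nat_lit 39575) (S (nat_lit 37260) (L (nat_lit 6689403))
(L (nat_lit 13671253)))
(L (nat_lit 18492442)))
(L (nat_lit 19162496)))
(L (nat_lit 23855497)))
(S (nat_lit 21043) (S (nat_lit 40790) (L (nat_lit 26220949))
(L (nat_lit 8030618)))
(S (nat_lit 40807) (S (nat_lit 54912) (L (nat_lit 24278411))
(L (nat_lit 12406894)))
(L (nat_lit 25691477)))))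
(S (nat_lit 48351) (S (nat_lit 21411) (S (nat_lit 26946) (L (nat_lit 11317267))
(L (nat_lit 11179916)))
(S (nat_lit 57038) (S (nat_lit 40531) (S (nat_lit 20783) (S (nat_lit 54879) (S (nat_lit 41503) (S (nat_lit 10999) (S (nat_lit 28537) (S (nat_lit 21507) (S (nat_lit 1229) (S (nat_lit 57086) (S (nat_lit 28576) (S (nat_lit 25477) (S (nat_lit 1732) (S (nat_lit 19826) (S (nat_lit 30774) (S (nat_lit 40525) (S (nat_lit 37335) (S (nat_lit 31554) (S (nat_lit 48462) (S (nat_lit 16473) (S (nat_lit 31817) (S (nat_lit 21690) (D (nat_lit 13) (nat_lit 29006957) (nat_lit 18988809) (nat_lit 1345601012834))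
(L (nat_lit 10343533)))
(L (nat_lit 29011489)))
(L (nat_lit 30987620)))
(L (nat_lit 25083236)))
(S (nat_lit 57374) (S (nat_lit 4840) (S (nat_lit 57413) (S (nat_lit 435) (S (nat_lit 58882) (S (nat_lit 16931) (D (nat_lit 13) (nat_lit 31081826) (nat_lit 25348301) (nat_lit 3401689859205))
(L (nat_lit 30791109)))
(L (nat_lit 28975248)))
(L (nat_lit 31068646)))
(L (nat_lit 28975584)))
(L (nat_lit 31145285)))
(L (nat_lit 28424532))))
(L (nat_lit 14471424)))
(L (nat_lit 24537195)))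
(L (nat_lit 2452916)))
(L (nat_lit 22164266)))
(L (nat_lit 12051104)))
(L (nat_lit 971147)))
(L (nat_lit 30918851)))
(L (nat_lit 5709652)))
(L (nat_lit 11080560)))
(L (nat_lit 5709532)))
(L (nat_lit 24974700)))
(L (nat_lit 341658)))
(L (nat_lit 27506308)))
(L (nat_lit 5972752)))
(L (nat_lit 15470183)))
(L (nat_lit 27273684)))
(L (nat_lit 13543012))))
(L (nat_lit 25547888)))))
(L (nat_lit 25603813)))))
(S (nat_lit 41229) (S (nat_lit 17543) (S (nat_lit 1246) (S (nat_lit 8762) (S (nat_lit 20783) (S (nat_lit 41514) (S (nat_lit 41486) (L (nat_lit 30625217))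
(L (nat_lit 324055)))
(L (nat_lit 18649803)))
(L (nat_lit 974215)))
(S (nat_lit 28526) (S (nat_lit 20736) (L (nat_lit 796051))
(L (nat_lit 6375836)))
(S (nat_lit 48290) (S (nat_lit 48318) (S (nat_lit 15340) (L (nat_lit 214899))
(L (nat_lit 7167362)))
(L (nat_lit 22439265)))
(L (nat_lit 25398837)))))
(S (nat_lit 21010) (S (nat_lit 15384) (S (nat_lit 20811) (S (nat_lit 8762) (S (nat_lit 10977) (S (nat_lit 15334) (S (nat_lit 62) (S (nat_lit 50463) (S (nat_lit 41514) (S (nat_lit 1290) (S (nat_lit 31) (S (nat_lit 41260) (S (nat_lit 52992) (S (nat_lit 46324) (S (nat_lit 6995) (S (nat_lit 39575) (S (nat_lit 19526) (S (nat_lit 19576) (S (nat_lit 16660) (S (nat_lit 31127) (D (nat_lit 11) (nat_lit 27925550) (nat_lit 25767024) (nat_lit 212843300994))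
(L (nat_lit 27930914)))
(L (nat_lit 27712833)))
(L (nat_lit 27678052)))
(S (nat_lit 20178) (S (nat_lit 32328) (S (nat_lit 29412) (S (nat_lit 17900) (D (nat_lit 11) (nat_lit 27932679) (nat_lit 25767022) (nat_lit 212843302980))
(L (nat_lit 27932995)))
(L (nat_lit 21067210)))
(L (nat_lit 21067243)))
(L (nat_lit 13817084))))
(L (nat_lit 27549060)))
(L (nat_lit 29383083)))
(L (nat_lit 29928064)))
(L (nat_lit 7525292)))
(L (nat_lit 17495360)))
(L (nat_lit 1560424)))
(L (nat_lit 11460037)))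
(L (nat_lit 17603603)))
(L (nat_lit 12604326)))
(L (nat_lit 20297637)))
(L (nat_lit 6770842)))
(L (nat_lit 1493926)))
(L (nat_lit 21761418)))
(L (nat_lit 22587300)))
(L (nat_lit 6485710)))
(S (nat_lit 40774) (S (nat_lit 28554) (S (nat_lit 41260) (S (nat_lit 20979) (L (nat_lit 29862066))
(L (nat_lit 6910341)))
(L (nat_lit 27281895)))
(L (nat_lit 9172110)))
(L (nat_lit 25211092)))))
(S (nat_lit 37307) (S (nat_lit 1776) (S (nat_lit 10949) (S (nat_lit 54899) (S (nat_lit 1014) (S (nat_lit 40774) (L (nat_lit 2733835))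
(L (nat_lit 18052769)))
(L (nat_lit 26431532)))
(L (nat_lit 19675307)))
(S (nat_lit 30713) (S (nat_lit 1014) (S (nat_lit 19839) (S (nat_lit 1257) (S (nat_lit 2019) (S (nat_lit 29375) (S (nat_lit 40575) (S (nat_lit 19778) (S (nat_lit 1240) (S (nat_lit 15356) (S (nat_lit 1034) (S (nat_lit 38656) (S (nat_lit 15309) (S (nat_lit 8823) (S (nat_lit 10999) (S (nat_lit 38673) (S (nat_lit 41276) (S (nat_lit 19795) (S (nat_lit 13097) (S (nat_lit 52117) (S (nat_lit 27632) (S (nat_lit 35160) (S (nat_lit 31774) (D (nat_lit 13) (nat_lit 18752534) (nat_lit 25479651) (nat_lit 3437121241189))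
(L (nat_lit 20848128)))
(L (nat_lit 19732896)))
(L (nat_lit 20856064)))
(L (nat_lit 29967616)))
(S (nat_lit 16677) (S (nat_lit 23032) (S (nat_lit 36428) (S (nat_lit 30786) (S (nat_lit 56717) (D (nat_lit 13) (nat_lit 18149396) (nat_lit 25765349) (nat_lit 3437121241189))
(L (nat_lit 30126336)))
(L (nat_lit 12472465)))
(L (nat_lit 21489705)))
(L (nat_lit 23652677)))
(L (nat_lit 19939080))))
(L (nat_lit 30683778)))
(L (nat_lit 1301946)))
(L (nat_lit 27810080)))
(L (nat_lit 6754011)))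
(L (nat_lit 698776)))
(L (nat_lit 24328217)))
(L (nat_lit 1751882)))
(L (nat_lit 13673366)))
(L (nat_lit 26792132)))
(L (nat_lit 20029359)))
(L (nat_lit 2308763)))
(L (nat_lit 27823475)))
(L (nat_lit 13856356)))
(L (nat_lit 13831026)))
(L (nat_lit 19098701)))
(L (nat_lit 10185804)))
(L (nat_lit 2322124)))
(S (nat_lit 50477) (S (nat_lit 10982) (S (nat_lit 15351) (L (nat_lit 1624938))
(L (nat_lit 7189056)))
(L (nat_lit 7188531)))
(L (nat_lit 25830917)))))
(S (nat_lit 21540) (S (nat_lit 1763) (S (nat_lit 1014) (S (nat_lit 35104) (L (nat_lit 19829129))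
(L (nat_lit 20481961)))
(S (nat_lit 40374) (L (nat_lit 20813258))
(L (nat_lit 20135842))))
(S (nat_lit 21527) (S (nat_lit 13839) (S (nat_lit 21026) (L (nat_lit 6385296))
(L (nat_lit 21168539)))
(S (nat_lit 54862) (S (nat_lit 39590) (S (nat_lit 20783) (S (nat_lit 48301) (L (nat_lit 10973793))
(L (nat_lit 20819084)))
(L (nat_lit 15950999)))
(L (nat_lit 27789035)))
(L (nat_lit 21500281))))
(S (nat_lit 41291) (S (nat_lit 40805) (S (nat_lit 35104) (S (nat_lit 8762) (S (nat_lit 39590) (L (nat_lit 24413594))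
(L (nat_lit 27789035)))
(L (nat_lit 21196324)))
(L (nat_lit 23347970)))
(L (nat_lit 27987465)))
(L (nat_lit 25217576)))))
(S (nat_lit 41304) (S (nat_lit 986) (S (nat_lit 41243) (S (nat_lit 35137) (L (nat_lit 23889104))
(L (nat_lit 9210540)))
(L (nat_lit 27415014)))
(S (nat_lit 20750) (S (nat_lit 40575) (S (nat_lit 42) (L (nat_lit 28708211))
(L (nat_lit 7158464)))
(L (nat_lit 27493843)))
(S (nat_lit 40514) (S (nat_lit 39590) (S (nat_lit 40818) (S (nat_lit 30730) (S (nat_lit 10935) (L (nat_lit 18689764))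
(L (nat_lit 18652801)))
(L (nat_lit 9982883)))
(L (nat_lit 18622083)))
(L (nat_lit 28029098)))
(L (nat_lit 25564534)))))
(L (nat_lit 25698482)))))
(S (nat_lit 57071) (S (nat_lit 1991) (S (nat_lit 1969) (S (nat_lit 50463) (S (nat_lit 1763) (L (nat_lit 12171105))
(L (nat_lit 20198305)))
(L (nat_lit 13467892)))
(S (nat_lit 21733) (S (nat_lit 28554) (S (nat_lit 1763) (L (nat_lit 29765280))
(L (nat_lit 20198305)))
(L (nat_lit 9860705)))
(S (nat_lit 41497) (S (nat_lit 40575) (S (nat_lit 40774) (S (nat_lit 40531) (L (nat_lit 30638514))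
(L (nat_lit 27922798)))
(L (nat_lit 27961390)))
(L (nat_lit 28018120)))
(L (nat_lit 25804810)))))
(S (nat_lit 21755) (S (nat_lit 8762) (S (nat_lit 40564) (S (nat_lit 20783) (S (nat_lit 20979) (S (nat_lit 10960) (S (nat_lit 45501) (S (nat_lit 35104) (S (nat_lit 54912) (S (nat_lit 1014) (S (nat_lit 57086) (S (nat_lit 50477) (S (nat_lit 40790) (S (nat_lit 6182) (S (nat_lit 39553) (S (nat_lit 6188) (S (nat_lit 39559) (S (nat_lit 23115) (S (nat_lit 23109) (S (nat_lit 2090) (S (nat_lit 17896) (S (nat_lit 36041) (D (nat_lit 15) (nat_lit 27864143) (nat_lit 25761160) (nat_lit 206264541442))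
(L (nat_lit 27866121)))
(L (nat_lit 27865349)))
(S (nat_lit 3241) (S (nat_lit 12972) (S (nat_lit 28930) (D (nat_lit 15) (nat_lit 27921710) (nat_lit 25759146) (nat_lit 209380908260))
(L (nat_lit 27745537)))
(L (nat_lit 27935043)))
(L (nat_lit 21238577))))
(L (nat_lit 10967843)))
(L (nat_lit 20312208)))
(L (nat_lit 5731977)))
(L (nat_lit 11199502)))
(L (nat_lit 5877519)))
(L (nat_lit 11327598)))
(L (nat_lit 18213047)))
(L (nat_lit 11158309)))
(L (nat_lit 11929426)))
(L (nat_lit 11157412)))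
(L (nat_lit 11714357)))
(L (nat_lit 20873516)))
(L (nat_lit 29036939)))
(L (nat_lit 6976898)))
(L (nat_lit 21826954)))
(L (nat_lit 974215)))
(L (nat_lit 23303577)))
(L (nat_lit 7368085)))
(S (nat_lit 41519) (S (nat_lit 75) (S (nat_lit 15351) (S (nat_lit 40531) (L (nat_lit 5526318))
(L (nat_lit 18511200)))
(L (nat_lit 7025568)))
(S (nat_lit 19839) (S (nat_lit 40564) (S (nat_lit 40790) (L (nat_lit 319893))
(L (nat_lit 27477568)))
(L (nat_lit 27826752)))
(S (nat_lit 39603) (S (nat_lit 40785) (S (nat_lit 47) (S (nat_lit 17558) (L (nat_lit 28561796))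
(L (nat_lit 24469644)))
(L (nat_lit 19166596)))
(L (nat_lit 27480611)))
(L (nat_lit 25308812)))))
(L (nat_lit 25493910)))))
(L (nat_lit 25793772)))))
(L (nat_lit 25568339)))))
(S (nat_lit 37285) (S (nat_lit 64) (S (nat_lit 15371) (S (nat_lit 15323) (S (nat_lit 1748) (S (nat_lit 972) (S (nat_lit 10949) (L (nat_lit 341596))
(L (nat_lit 23077309)))
(L (nat_lit 20717956)))
(S (nat_lit 21512) (S (nat_lit 20783) (S (nat_lit 40774) (L (nat_lit 957036))
(L (nat_lit 7826580)))
(L (nat_lit 6319511)))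
(S (nat_lit 41276) (S (nat_lit 21043) (S (nat_lit 1290) (L (nat_lit 8174145))
(L (nat_lit 12606312)))
(L (nat_lit 6850173)))
(L (nat_lit 25352497)))))
(S (nat_lit 35087) (S (nat_lit 8779) (L (nat_lit 1751977))
(S (nat_lit 28543) (S (nat_lit 35104) (S (nat_lit 28587) (S (nat_lit 19826) (S (nat_lit 28526) (S (nat_lit 1986) (S (nat_lit 6533) (L (nat_lit 19021177))
(L (nat_lit 24969608)))
(L (nat_lit 10107811)))
(L (nat_lit 24317339)))
(L (nat_lit 15572118)))
(L (nat_lit 3796359)))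
(L (nat_lit 31038850)))
(S (nat_lit 48307) (S (nat_lit 37307) (S (nat_lit 37322) (S (nat_lit 50505) (S (nat_lit 41472) (S (nat_lit 21054) (L (nat_lit 30130214))
(L (nat_lit 14937234)))
(L (nat_lit 17952114)))
(L (nat_lit 28025217)))
(L (nat_lit 23429529)))
(S (nat_lit 49875) (L (nat_lit 18040952))
(L (nat_lit 30685236))))
(L (nat_lit 25565922)))))
(S (nat_lit 54851) (S (nat_lit 8795) (S (nat_lit 21733) (S (nat_lit 40500) (S (nat_lit 1047) (S (nat_lit 39570) (S (nat_lit 19826) (S (nat_lit 41514) (L (nat_lit 29535764))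
(L (nat_lit 250701)))
(L (nat_lit 15069892)))
(L (nat_lit 27545741)))
(L (nat_lit 20476260)))
(L (nat_lit 8294803)))
(L (nat_lit 16325412)))
(S (nat_lit 28559) (S (nat_lit 21043) (L (nat_lit 18449789))
(S (nat_lit 41615) (L (nat_lit 14850651))
(L (nat_lit 7026872))))
(S (nat_lit 48323) (S (nat_lit 28574) (S (nat_lit 39570) (S (nat_lit 19795) (S (nat_lit 39553) (S (nat_lit 50488) (S (nat_lit 30713) (S (nat_lit 15334) (S (nat_lit 7245) (L (nat_lit 5586521))
(L (nat_lit 11352244)))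
(L (nat_lit 8147116)))
(L (nat_lit 19441573)))
(L (nat_lit 20166841)))
(L (nat_lit 11458735)))
(L (nat_lit 16424061)))
(L (nat_lit 27545741)))
(L (nat_lit 19694927)))
(L (nat_lit 25286091)))))
(L (nat_lit 25692875)))))
(S (nat_lit 35135) (S (nat_lit 8762) (S (nat_lit 1034) (S (nat_lit 41229) (L (nat_lit 20287897))
(L (nat_lit 27691595)))
(S (nat_lit 20798) (S (nat_lit 28721) (L (nat_lit 16803090))
(S (nat_lit 41271) (L (nat_lit 7391643))
(L (nat_lit 6307547))))
(S (nat_lit 40562) (S (nat_lit 20811) (S (nat_lit 10949) (S (nat_lit 21770) (L (nat_lit 5973400))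
(L (nat_lit 30428710)))
(L (nat_lit 6352403)))
(L (nat_lit 6352339)))
(L (nat_lit 25474787)))))
(S (nat_lit 28526) (S (nat_lit 1257) (S (nat_lit 1743) (S (nat_lit 986) (L (nat_lit 13855925))
(L (nat_lit 12931100)))
(L (nat_lit 12932002)))
(S (nat_lit 21021) (S (nat_lit 41243) (S (nat_lit 35148) (L (nat_lit 29513161))
(L (nat_lit 18181205)))
(L (nat_lit 7257271)))
(S (nat_lit 40785) (S (nat_lit 35120) (S (nat_lit 35104) (L (nat_lit 8440252))
(L (nat_lit 9176684)))
(L (nat_lit 2745549)))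
(L (nat_lit 25868515)))))
(S (nat_lit 48290) (S (nat_lit 14) (S (nat_lit 31771) (L (nat_lit 4550220))
(S (nat_lit 37307) (S (nat_lit 50494) (S (nat_lit 41514) (S (nat_lit 48307) (S (nat_lit 62) (S (nat_lit 35148) (S (nat_lit 48338) (S (nat_lit 41486) (S (nat_lit 48340) (S (nat_lit 35104) (S (nat_lit 48318) (S (nat_lit 42) (S (nat_lit 50538) (S (nat_lit 41519) (S (nat_lit 31) (S (nat_lit 20811) (S (nat_lit 50488) (S (nat_lit 50510) (S (nat_lit 37322) (S (nat_lit 41503) (S (nat_lit 50505) (S (nat_lit 37274) (S (nat_lit 41472) (S (nat_lit 20798) (S (nat_lit 20736) (S (nat_lit 35137) (S (nat_lit 48323) (S (nat_lit 14027) (S (nat_lit 58367) (S (nat_lit 56180) (S (nat_lit 47167) (S (nat_lit 14055) (S (nat_lit 52114) (S (nat_lit 40201) (S (nat_lit 1743) (S (nat_lit 1229) (S (nat_lit 36886) (S (nat_lit 28736) (D (nat_lit 13) (nat_lit 6083014) (nat_lit 19664295) (nat_lit 1101868044455))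
(L (nat_lit 27893153)))
(L (nat_lit 19294432)))
(L (nat_lit 19294400)))
(S (nat_lit 15415) (S (nat_lit 20979) (S (nat_lit 17639) (D (nat_lit 9) (nat_lit 10356210) (nat_lit 18425603) (nat_lit 174049075425))
(L (nat_lit 20342085)))
(L (nat_lit 25768195)))
(L (nat_lit 19934124))))
(L (nat_lit 29415942)))
(L (nat_lit 29961637)))
(L (nat_lit 29994125)))
(L (nat_lit 30854436)))
(L (nat_lit 31044964)))
(L (nat_lit 31043876)))
(S (nat_lit 21334) (S (nat_lit 31389) (S (nat_lit 38598) (S (nat_lit 38631) (S (nat_lit 21345) (S (nat_lit 29224) (S (nat_lit 31361) (S (nat_lit 8100) (S (nat_lit 34791) (S (nat_lit 2106) (S (nat_lit 36201) (D (nat_lit 9) (nat_lit 12438048) (nat_lit 4796173) (nat_lit 108654497826))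
(L (nat_lit 26817706)))
(L (nat_lit 9193859)))
(S (nat_lit 49424) (S (nat_lit 57423) (S (nat_lit 1732) (S (nat_lit 51622) (D (nat_lit 13) (nat_lit 4016367) (nat_lit 19666310) (nat_lit 2200203043045))
(L (nat_lit 29545867)))
(L (nat_lit 13444773)))
(L (nat_lit 22884643)))
(L (nat_lit 24446765))))
(L (nat_lit 27318667)))
(L (nat_lit 27931753)))
(L (nat_lit 21132556)))
(L (nat_lit 23164173)))
(L (nat_lit 21050282)))
(L (nat_lit 21132682)))
(L (nat_lit 21067146)))
(S (nat_lit 46569) (S (nat_lit 21479) (S (nat_lit 21465) (S (nat_lit 11111) (S (nat_lit 39067) (S (nat_lit 36151) (S (nat_lit 30861) (D (nat_lit 11) (nat_lit 11358383) (nat_lit 25767022) (nat_lit 206400754821))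
(L (nat_lit 21064230)))
(L (nat_lit 28397995)))
(L (nat_lit 28397962)))
(S (nat_lit 39752) (S (nat_lit 57390) (S (nat_lit 52373) (S (nat_lit 49457) (D (nat_lit 11) (nat_lit 16665829) (nat_lit 25767024) (nat_lit 103321640199))
(L (nat_lit 30127273)))
(L (nat_lit 30126184)))
(L (nat_lit 22951237)))
(L (nat_lit 5977930))))
(L (nat_lit 22344068)))
(L (nat_lit 22345185)))
(L (nat_lit 4549076)))))
(L (nat_lit 27661003)))
(L (nat_lit 30787298)))
(L (nat_lit 21302093)))
(L (nat_lit 21864496)))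
(L (nat_lit 6409659)))
(L (nat_lit 8949371)))
(L (nat_lit 6070678)))
(L (nat_lit 17605684)))
(L (nat_lit 30752324)))
(L (nat_lit 4729779)))
(L (nat_lit 11145625)))
(L (nat_lit 247482)))
(L (nat_lit 14490741)))
(L (nat_lit 6783576)))
(L (nat_lit 27596212)))
(L (nat_lit 283564)))
(L (nat_lit 5135782)))
(L (nat_lit 9175443)))
(L (nat_lit 11137475)))
(L (nat_lit 6738722)))
(L (nat_lit 27709610)))
(L (nat_lit 8993884)))
(L (nat_lit 13540502)))
(L (nat_lit 16012066)))
(L (nat_lit 6771525)))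
(L (nat_lit 27526733)))
(L (nat_lit 3894763))))
(S (nat_lit 5277) (L (nat_lit 26230410))
(L (nat_lit 7361393))))
(L (nat_lit 25407605)))))
(S (nat_lit 54899) (S (nat_lit 1215) (S (nat_lit 1701) (S (nat_lit 35104) (S (nat_lit 35148) (S (nat_lit 1743) (S (nat_lit 1257) (L (nat_lit 29577328))
(L (nat_lit 20776456)))
(L (nat_lit 20782594)))
(L (nat_lit 3761543)))
(S (nat_lit 41691) (S (nat_lit 35148) (L (nat_lit 20719041))
(L (nat_lit 2712966)))
(L (nat_lit 10224019))))
(S (nat_lit 49837) (S (nat_lit 39590) (L (nat_lit 26615991))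
(L (nat_lit 27996330)))
(L (nat_lit 9522585))))
(S (nat_lit 20979) (S (nat_lit 1715) (S (nat_lit 1257) (S (nat_lit 37307) (S (nat_lit 14) (L (nat_lit 18919772))
(L (nat_lit 19118949)))
(L (nat_lit 10244140)))
(L (nat_lit 20789477)))
(S (nat_lit 21479) (S (nat_lit 20783) (S (nat_lit 30774) (S (nat_lit 35148) (S (nat_lit 20778) (L (nat_lit 7367095))
(L (nat_lit 5913384)))
(L (nat_lit 8836000)))
(L (nat_lit 9026464)))
(L (nat_lit 22814115)))
(S (nat_lit 41243) (S (nat_lit 39590) (S (nat_lit 41514) (S (nat_lit 35120) (L (nat_lit 29890610))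
(L (nat_lit 8966981)))
(L (nat_lit 6345485)))
(L (nat_lit 23861425)))
(L (nat_lit 25770209)))))
(S (nat_lit 40743) (S (nat_lit 39590) (S (nat_lit 35104) (S (nat_lit 30730) (S (nat_lit 57055) (S (nat_lit 20783) (L (nat_lit 11417718))
(L (nat_lit 388688)))
(L (nat_lit 12285346)))
(L (nat_lit 17570370)))
(L (nat_lit 23861634)))
(L (nat_lit 23861424)))
(L (nat_lit 25567843)))))
(L (nat_lit 25336244)))))
(S (nat_lit 19828) (S (nat_lit 15334) (S (nat_lit 47) (S (nat_lit 17538) (S (nat_lit 14979) (L (nat_lit 456019))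
(S (nat_lit 40805) (S (nat_lit 35135) (L (nat_lit 18189916))
(L (nat_lit 2996810)))
(L (nat_lit 542968))))
(S (nat_lit 37302) (S (nat_lit 25094) (L (nat_lit 13931097))
(S (nat_lit 28554) (S (nat_lit 48351) (S (nat_lit 40743) (L (nat_lit 24944004))
(L (nat_lit 24450493)))
(L (nat_lit 22450983)))
(L (nat_lit 9172110))))
(S (nat_lit 57066) (S (nat_lit 1748) (S (nat_lit 1036) (L (nat_lit 1401238))
(L (nat_lit 8935168)))
(S (nat_lit 26946) (L (nat_lit 927158))
(L (nat_lit 11557276))))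
(L (nat_lit 25450881)))))
(S (nat_lit 19811) (S (nat_lit 15309) (S (nat_lit 10935) (S (nat_lit 35120) (S (nat_lit 48290) (S (nat_lit 14) (S (nat_lit 20778) (S (nat_lit 19826) (S (nat_lit 19795) (S (nat_lit 21490) (L (nat_lit 8568536))
(L (nat_lit 30727214)))
(L (nat_lit 21764174)))
(L (nat_lit 15506582)))
(L (nat_lit 22217516)))
(L (nat_lit 26425988)))
(L (nat_lit 22245764)))
(L (nat_lit 3068111)))
(L (nat_lit 6808598)))
(S (nat_lit 35073) (S (nat_lit 14) (S (nat_lit 50488) (S (nat_lit 1743) (L (nat_lit 29446568))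
(L (nat_lit 13282180)))
(L (nat_lit 27284816)))
(S (nat_lit 37170) (S (nat_lit 20800) (L (nat_lit 6082926))
(L (nat_lit 22255438)))
(L (nat_lit 26431941))))
(S (nat_lit 54837) (S (nat_lit 28543) (S (nat_lit 57086) (S (nat_lit 54879) (L (nat_lit 24020391))
(L (nat_lit 5662342)))
(L (nat_lit 10945114)))
(S (nat_lit 38336) (L (nat_lit 479485))
(L (nat_lit 3914505))))
(L (nat_lit 25919728)))))
(S (nat_lit 39575) (S (nat_lit 17538) (S (nat_lit 10977) (S (nat_lit 21708) (S (nat_lit 1991) (S (nat_lit 8812) (S (nat_lit 54879) (S (nat_lit 35135) (S (nat_lit 57086) (S (nat_lit 28559) (S (nat_lit 12076) (S (nat_lit 57038) (L (nat_lit 9835193))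
(L (nat_lit 27777317)))
(S (nat_lit 19839) (S (nat_lit 14) (S (nat_lit 40525) (S (nat_lit 50510) (S (nat_lit 30763) (S (nat_lit 15373) (S (nat_lit 54837) (S (nat_lit 41243) (L (nat_lit 6788698))
(L (nat_lit 27572865)))
(L (nat_lit 14603456)))
(L (nat_lit 22982850)))
(L (nat_lit 19341373)))
(L (nat_lit 20851236)))
(S (nat_lit 43414) (L (nat_lit 1596230))
(L (nat_lit 7789376))))
(L (nat_lit 20179428)))
(S (nat_lit 42312) (S (nat_lit 50510) (L (nat_lit 7460654))
(L (nat_lit 27867179)))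
(L (nat_lit 30976114)))))
(L (nat_lit 25072845)))
(L (nat_lit 27859332)))
(L (nat_lit 18652338)))
(L (nat_lit 27996327)))
(L (nat_lit 7989265)))
(L (nat_lit 12056130)))
(L (nat_lit 7523738)))
(L (nat_lit 1811865)))
(L (nat_lit 6406744)))
(L (nat_lit 25871403)))))
(S (nat_lit 35098) (S (nat_lit 11010) (S (nat_lit 8773) (S (nat_lit 15384) (S (nat_lit 28574) (S (nat_lit 39542) (S (nat_lit 30724) (S (nat_lit 8812) (S (nat_lit 42) (S (nat_lit 17538) (S (nat_lit 54315) (L (nat_lit 4537977))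
(L (nat_lit 29839714)))
(L (nat_lit 7040175)))
(L (nat_lit 13914296)))
(L (nat_lit 7221890)))
(L (nat_lit 30610029)))
(L (nat_lit 18731301)))
(L (nat_lit 3002795)))
(L (nat_lit 6438520)))
(S (nat_lit 28537) (S (nat_lit 17543) (S (nat_lit 30730) (S (nat_lit 28543) (S (nat_lit 20783) (S (nat_lit 37291) (S (nat_lit 8812) (S (nat_lit 41293) (L (nat_lit 7897851))
(L (nat_lit 6405753)))
(L (nat_lit 21115688)))
(L (nat_lit 9340339)))
(L (nat_lit 15951459)))
(L (nat_lit 2890316)))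
(L (nat_lit 2858429)))
(S (nat_lit 31372) (L (nat_lit 23434096))
(L (nat_lit 733437))))
(S (nat_lit 48301) (S (nat_lit 1701) (L (nat_lit 14700923))
(L (nat_lit 26579347)))
(L (nat_lit 25834851)))))
(S (nat_lit 30774) (S (nat_lit 8795) (S (nat_lit 35104) (S (nat_lit 39603) (S (nat_lit 1743) (L (nat_lit 10375681))
(L (nat_lit 10336962)))
(L (nat_lit 12063421)))
(S (nat_lit 52019) (L (nat_lit 31071651))
(L (nat_lit 17899128))))
(S (nat_lit 28559) (S (nat_lit 1944) (S (nat_lit 28587) (L (nat_lit 3527534))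
(L (nat_lit 10270272)))
(S (nat_lit 21708) (S (nat_lit 35120) (S (nat_lit 54899) (S (nat_lit 28537) (S (nat_lit 57055) (S (nat_lit 54837) (S (nat_lit 1991) (S (nat_lit 41486) (S (nat_lit 52885) (L (nat_lit 28350998))
(L (nat_lit 9005477)))
(L (nat_lit 23505048)))
(L (nat_lit 12842166)))
(L (nat_lit 19831822)))
(L (nat_lit 27891821)))
(L (nat_lit 4013673)))
(L (nat_lit 27624013)))
(L (nat_lit 31035597)))
(S (nat_lit 41472) (S (nat_lit 19806) (S (nat_lit 37307) (S (nat_lit 1229) (L (nat_lit 13980451))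
(L (nat_lit 3561321)))
(L (nat_lit 8840242)))
(L (nat_lit 9950048)))
(L (nat_lit 25349545)))))
(S (nat_lit 48323) (S (nat_lit 21043) (S (nat_lit 21529) (S (nat_lit 37291) (L (nat_lit 6483567))
(L (nat_lit 2905513)))
(L (nat_lit 5455765)))
(L (nat_lit 11550613)))
(L (nat_lit 25734852)))))
(S (nat_lit 50538) (S (nat_lit 10960) (S (nat_lit 17543) (S (nat_lit 20979) (L (nat_lit 4403837))
(L (nat_lit 7163269)))
(S (nat_lit 35011) (L (nat_lit 575704))
(L (nat_lit 6834237))))
(S (nat_lit 30724) (S (nat_lit 1257) (S (nat_lit 28543) (S (nat_lit 1743) (S (nat_lit 20750) (L (nat_lit 26229108))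
(L (nat_lit 5656793)))
(L (nat_lit 13882274)))
(L (nat_lit 4117033)))
(S (nat_lit 5496) (S (nat_lit 35104) (L (nat_lit 22047983))
(L (nat_lit 30725506)))
(L (nat_lit 13685672))))
(S (nat_lit 50488) (S (nat_lit 21507) (S (nat_lit 41534) (L (nat_lit 1855856))
(L (nat_lit 16994112)))
(S (nat_lit 29222) (S (nat_lit 20783) (L (nat_lit 15307066))
(L (nat_lit 22242723)))
(L (nat_lit 14865193))))
(L (nat_lit 25826696)))))
(L (nat_lit 25515424)))))
(S (nat_lit 54862) (S (nat_lit 1215) (S (nat_lit 28543) (S (nat_lit 1986) (S (nat_lit 41276) (S (nat_lit 30724) (S (nat_lit 10966) (S (nat_lit 4330) (S (nat_lit 30713) (S (nat_lit 5501) (S (nat_lit 5496) (S (nat_lit 21043) (S (nat_lit 40525) (S (nat_lit 35120) (S (nat_lit 21722) (S (nat_lit 8810) (S (nat_lit 20767) (S (nat_lit 39570) (S (nat_lit 23829) (S (nat_lit 44722) (S (nat_lit 40147) (S (nat_lit 58615) (S (nat_lit 17008) (D (nat_lit 15) (nat_lit 30986408) (nat_lit 25759052) (nat_lit 103289033890))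
(L (nat_lit 29963434)))
(L (nat_lit 10373573)))
(S (nat_lit 43328) (S (nat_lit 28952) (S (nat_lit 12239) (D (nat_lit 15) (nat_lit 27742565) (nat_lit 25759114) (nat_lit 209380908260))
(L (nat_lit 27528878)))
(L (nat_lit 27856363)))
(L (nat_lit 18997766))))
(L (nat_lit 19764557)))
(L (nat_lit 9981980)))
(L (nat_lit 27926668)))
(L (nat_lit 12045496)))
(L (nat_lit 7524796)))
(L (nat_lit 21372672)))
(L (nat_lit 13390020)))
(L (nat_lit 18475110)))
(L (nat_lit 12080004)))
(L (nat_lit 28017032)))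
(L (nat_lit 27369036)))
(L (nat_lit 16802378)))
(L (nat_lit 31107244)))
(L (nat_lit 26740297)))
(L (nat_lit 30452114)))
(L (nat_lit 27959683)))
(L (nat_lit 12014467)))
(L (nat_lit 3955081)))
(S (nat_lit 20979) (S (nat_lit 57099) (S (nat_lit 40805) (S (nat_lit 1986) (S (nat_lit 20783) (S (nat_lit 20778) (S (nat_lit 8812) (S (nat_lit 30699) (S (nat_lit 8810) (S (nat_lit 21496) (S (nat_lit 39570) (S (nat_lit 39559) (S (nat_lit 19826) (S (nat_lit 41243) (S (nat_lit 4962) (S (nat_lit 41547) (S (nat_lit 40807) (S (nat_lit 22167) (S (nat_lit 28451) (S (nat_lit 12241) (S (nat_lit 332) (S (nat_lit 19542) (S (nat_lit 28952) (D (nat_lit 13) (nat_lit 27674880) (nat_lit 25282123) (nat_lit 6604860790849))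
(L (nat_lit 27867458)))
(L (nat_lit 27772969)))
(L (nat_lit 27859457)))
(L (nat_lit 27773185)))
(S (nat_lit 36018) (S (nat_lit 36043) (S (nat_lit 24125) (S (nat_lit 4253) (S (nat_lit 30186) (D (nat_lit 13) (nat_lit 27840834) (nat_lit 25765039) (nat_lit 6707939907748))
(L (nat_lit 15567563)))
(L (nat_lit 27926050)))
(L (nat_lit 27666053)))
(L (nat_lit 27866341)))
(L (nat_lit 17011605))))
(L (nat_lit 4536924)))
(L (nat_lit 9517660)))
(L (nat_lit 7160883)))
(L (nat_lit 1293171)))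
(L (nat_lit 2009744)))
(L (nat_lit 10192441)))
(L (nat_lit 10963843)))
(L (nat_lit 5927463)))
(L (nat_lit 14929669)))
(L (nat_lit 26556565)))
(L (nat_lit 8901441)))
(L (nat_lit 14853906)))
(L (nat_lit 30625836)))
(L (nat_lit 21759401)))
(L (nat_lit 13675443)))
(L (nat_lit 27275574)))
(L (nat_lit 12339617)))
(S (nat_lit 40743) (S (nat_lit 35104) (S (nat_lit 30724) (S (nat_lit 28543) (S (nat_lit 21021) (S (nat_lit 30713) (S (nat_lit 21465) (S (nat_lit 5923) (S (nat_lit 48301) (S (nat_lit 19826) (S (nat_lit 41534) (S (nat_lit 20778) (S (nat_lit 14) (S (nat_lit 10966) (S (nat_lit 21026) (S (nat_lit 57099) (S (nat_lit 28554) (S (nat_lit 21722) (S (nat_lit 37260) (S (nat_lit 50311) (S (nat_lit 16706) (S (nat_lit 9897) (S (nat_lit 1624) (S (nat_lit 57649) (D (nat_lit 13) (nat_lit 30853441) (nat_lit 25345330) (nat_lit 3304041155618))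
(L (nat_lit 875942)))
(L (nat_lit 31031783)))
(L (nat_lit 30951652)))
(L (nat_lit 29905154)))
(S (nat_lit 56234) (S (nat_lit 52297) (S (nat_lit 45056) (S (nat_lit 39111) (S (nat_lit 2276) (D (nat_lit 13) (nat_lit 27642368) (nat_lit 19672613) (nat_lit 1103002404069))
(L (nat_lit 28916069)))
(L (nat_lit 28914946)))
(L (nat_lit 14591095)))
(L (nat_lit 28913857)))
(L (nat_lit 7359405))))
(L (nat_lit 20842022)))
(L (nat_lit 21366696)))
(L (nat_lit 24195452)))
(L (nat_lit 5722427)))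
(L (nat_lit 14902880)))
(L (nat_lit 23922088)))
(L (nat_lit 26431600)))
(L (nat_lit 12223340)))
(L (nat_lit 27997192)))
(L (nat_lit 3689849)))
(L (nat_lit 27928995)))
(L (nat_lit 27830850)))
(L (nat_lit 420425)))
(L (nat_lit 3031626)))
(L (nat_lit 21183333)))
(L (nat_lit 10027416)))
(L (nat_lit 24326328)))
(L (nat_lit 23861634)))
(L (nat_lit 25338476)))))
(L (nat_lit 25383084)))))
(S (nat_lit 39592) (S (nat_lit 17558) (S (nat_lit 1991) (S (nat_lit 8779) (S (nat_lit 20783) (S (nat_lit 40564) (S (nat_lit 41293) (L (nat_lit 29589909))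
(L (nat_lit 3906969)))
(L (nat_lit 28023168)))
(L (nat_lit 22242691)))
(L (nat_lit 23927170)))
(S (nat_lit 21755) (S (nat_lit 19811) (S (nat_lit 57066) (S (nat_lit 1944) (S (nat_lit 10960) (S (nat_lit 30741) (S (nat_lit 8795) (S (nat_lit 28576) (S (nat_lit 1036) (S (nat_lit 1246) (L (nat_lit 28449335))
(S (nat_lit 55023) (S (nat_lit 1257) (L (nat_lit 14330941))
(L (nat_lit 13676434)))
(S (nat_lit 57012) (S (nat_lit 35104) (L (nat_lit 3466645))
(L (nat_lit 24025475)))
(L (nat_lit 20067707)))))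
(S (nat_lit 20800) (S (nat_lit 40500) (S (nat_lit 1019) (S (nat_lit 7769) (S (nat_lit 21739) (S (nat_lit 25999) (L (nat_lit 5454461))
(L (nat_lit 14880628)))
(L (nat_lit 16394145)))
(S (nat_lit 21733) (S (nat_lit 997) (S (nat_lit 41514) (S (nat_lit 31178) (L (nat_lit 2471548))
(S (nat_lit 37307) (S (nat_lit 14955) (L (nat_lit 29530547))
(L (nat_lit 27728450)))
(L (nat_lit 23162346))))
(L (nat_lit 9320530)))
(L (nat_lit 8478607)))
(S (nat_lit 56244) (L (nat_lit 18655351))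
(L (nat_lit 8274625)))))
(L (nat_lit 26905993)))
(L (nat_lit 27529619)))
(S (nat_lit 40564) (S (nat_lit 20783) (S (nat_lit 972) (S (nat_lit 8810) (S (nat_lit 38926) (S (nat_lit 58668) (L (nat_lit 6818708))
(L (nat_lit 26980612)))
(S (nat_lit 48290) (S (nat_lit 15323) (S (nat_lit 17560) (S (nat_lit 40768) (L (nat_lit 6818488))
(L (nat_lit 24035553)))
(L (nat_lit 18795746)))
(L (nat_lit 22243877)))
(L (nat_lit 12062611))))
(S (nat_lit 28574) (S (nat_lit 20778) (S (nat_lit 21739) (S (nat_lit 39590) (S (nat_lit 54901) (S (nat_lit 57071) (S (nat_lit 54899) (S (nat_lit 41547) (S (nat_lit 40575) (S (nat_lit 1958) (S (nat_lit 986) (S (nat_lit 54912) (S (nat_lit 48290) (S (nat_lit 11610) (S (nat_lit 5080) (S (nat_lit 11327) (S (nat_lit 26703) (S (nat_lit 6922) (S (nat_lit 31027) (S (nat_lit 33542) (S (nat_lit 3045) (S (nat_lit 4848) (S (nat_lit 54079) (D (nat_lit 13) (nat_lit 29643203) (nat_lit 19274499) (nat_lit 2272307216611))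
(L (nat_lit 30097666)))
(L (nat_lit 30097730)))
(S (nat_lit 6507) (S (nat_lit 20979) (S (nat_lit 33851) (S (nat_lit 46936) (S (nat_lit 32603) (S (nat_lit 30309) (D (nat_lit 13) (nat_lit 13754985) (nat_lit 3951080) (nat_lit 2204498002022))
(L (nat_lit 26593700)))
(L (nat_lit 3951016)))
(L (nat_lit 13420869)))
(L (nat_lit 13420867)))
(L (nat_lit 25768195)))
(L (nat_lit 13243768))))
(L (nat_lit 27308274)))
(L (nat_lit 12474880)))
(L (nat_lit 19734670)))
(L (nat_lit 19969862)))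
(L (nat_lit 14011201)))
(L (nat_lit 12969633)))
(S (nat_lit 35309) (S (nat_lit 7408) (S (nat_lit 35304) (S (nat_lit 6052) (S (nat_lit 33056) (S (nat_lit 11813) (S (nat_lit 41293) (S (nat_lit 35547) (S (nat_lit 31421) (D (nat_lit 11) (nat_lit 27608704) (nat_lit 25768105) (nat_lit 145128200358))
(L (nat_lit 27900164)))
(L (nat_lit 27870563)))
(S (nat_lit 45775) (S (nat_lit 40743) (S (nat_lit 33851) (S (nat_lit 46936) (S (nat_lit 43532) (S (nat_lit 58665) (D (nat_lit 13) (nat_lit 14017125) (nat_lit 6048015) (nat_lit 2202413310147))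
(L (nat_lit 26593700)))
(L (nat_lit 19699112)))
(L (nat_lit 13420869)))
(L (nat_lit 13420867)))
(L (nat_lit 25768195)))
(L (nat_lit 1627516))))
(L (nat_lit 14331749)))
(L (nat_lit 27462289)))
(L (nat_lit 30129474)))
(L (nat_lit 27870530)))
(L (nat_lit 27868482)))
(S (nat_lit 44801) (S (nat_lit 52299) (S (nat_lit 54521) (S (nat_lit 3308) (S (nat_lit 25087) (S (nat_lit 12980) (S (nat_lit 14816) (S (nat_lit 14811) (S (nat_lit 56222) (D (nat_lit 15) (nat_lit 30772973) (nat_lit 7496242) (nat_lit 212840220768))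
(L (nat_lit 20887813)))
(L (nat_lit 31013120)))
(S (nat_lit 15712) (S (nat_lit 10598) (S (nat_lit 38468) (D (nat_lit 15) (nat_lit 29379082) (nat_lit 16960266) (nat_lit 211770410022))
(L (nat_lit 9292322)))
(L (nat_lit 28944771)))
(L (nat_lit 18761768))))
(L (nat_lit 14458995)))
(L (nat_lit 2499261)))
(L (nat_lit 12818262)))
(L (nat_lit 8302610)))
(L (nat_lit 28529125)))
(L (nat_lit 29965539)))))
(L (nat_lit 11448405)))
(L (nat_lit 21337902)))
(L (nat_lit 14457015)))
(L (nat_lit 14458007)))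
(L (nat_lit 27842914)))
(L (nat_lit 27842883)))
(L (nat_lit 6037133)))
(L (nat_lit 11325924)))
(L (nat_lit 10937363)))
(L (nat_lit 4927834)))
(L (nat_lit 5157205)))
(L (nat_lit 7263340)))
(S (nat_lit 48338) (S (nat_lit 28554) (S (nat_lit 13302) (S (nat_lit 35098) (S (nat_lit 8123) (L (nat_lit 17868444))
(L (nat_lit 19297509)))
(L (nat_lit 2967916)))
(S (nat_lit 57099) (S (nat_lit 17560) (S (nat_lit 37291) (S (nat_lit 41291) (L (nat_lit 5810904))
(L (nat_lit 24407587)))
(L (nat_lit 13920962)))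
(L (nat_lit 22440130)))
(L (nat_lit 10884919))))
(L (nat_lit 2717006)))
(L (nat_lit 25657685)))))
(L (nat_lit 19671460)))
(L (nat_lit 7264643)))
(L (nat_lit 25711750)))))
(L (nat_lit 30787596)))
(L (nat_lit 7761973)))
(L (nat_lit 30674324)))
(L (nat_lit 1275282)))
(L (nat_lit 10063256)))
(L (nat_lit 27894145)))
(L (nat_lit 2780554)))
(S (nat_lit 41519) (S (nat_lit 10960) (S (nat_lit 8779) (L (nat_lit 1710491))
(L (nat_lit 7071106)))
(L (nat_lit 26236296)))
(L (nat_lit 25821553)))))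
(S (nat_lit 37322) (S (nat_lit 1776) (S (nat_lit 20783) (S (nat_lit 1257) (S (nat_lit 41514) (S (nat_lit 31) (S (nat_lit 35104) (L (nat_lit 7357303))
(L (nat_lit 8510877)))
(L (nat_lit 26871086)))
(L (nat_lit 23299916)))
(L (nat_lit 11175449)))
(S (nat_lit 52258) (L (nat_lit 20808073))
(L (nat_lit 12191161))))
(S (nat_lit 21540) (S (nat_lit 10935) (S (nat_lit 20783) (S (nat_lit 1279) (L (nat_lit 19400583))
(L (nat_lit 26445390)))
(L (nat_lit 14878329)))
(S (nat_lit 30699) (S (nat_lit 35104) (S (nat_lit 31) (S (nat_lit 37260) (L (nat_lit 22218138))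
(L (nat_lit 13830037)))
(L (nat_lit 19760585)))
(L (nat_lit 23332248)))
(S (nat_lit 50463) (S (nat_lit 40757) (S (nat_lit 40785) (L (nat_lit 24314797))
(L (nat_lit 27461139)))
(L (nat_lit 27859392)))
(L (nat_lit 25183879)))))
(S (nat_lit 41304) (S (nat_lit 25) (S (nat_lit 40564) (S (nat_lit 40547) (L (nat_lit 30606989))
(L (nat_lit 17850953)))
(L (nat_lit 8213888)))
(S (nat_lit 19789) (S (nat_lit 1262) (S (nat_lit 30713) (L (nat_lit 9274771))
(L (nat_lit 9309774)))
(L (nat_lit 9258562)))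
(S (nat_lit 39553) (S (nat_lit 41514) (S (nat_lit 35104) (L (nat_lit 5971756))
(L (nat_lit 23463688)))
(S (nat_lit 44567) (L (nat_lit 12437582))
(L (nat_lit 16836297))))
(L (nat_lit 25412322)))))
(L (nat_lit 25380018)))))
(S (nat_lit 57086) (S (nat_lit 8810) (S (nat_lit 75) (S (nat_lit 36498) (L (nat_lit 4996407))
(S (nat_lit 40564) (S (nat_lit 11148) (L (nat_lit 4659899))
(S (nat_lit 48351) (S (nat_lit 54912) (S (nat_lit 37302) (S (nat_lit 21755) (L (nat_lit 5531029))
(L (nat_lit 11143577)))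
(L (nat_lit 23871809)))
(L (nat_lit 11102592)))
(L (nat_lit 6106516))))
(L (nat_lit 27989387))))
(S (nat_lit 19839) (S (nat_lit 39575) (S (nat_lit 1047) (S (nat_lit 1748) (L (nat_lit 14911068))
(L (nat_lit 12436630)))
(L (nat_lit 4965753)))
(L (nat_lit 11327908)))
(S (nat_lit 39603) (S (nat_lit 30699) (S (nat_lit 40514) (S (nat_lit 19826) (L (nat_lit 8975971))
(L (nat_lit 14851895)))
(L (nat_lit 18796899)))
(L (nat_lit 17499354)))
(L (nat_lit 25307820)))))
(S (nat_lit 28574) (S (nat_lit 17538) (S (nat_lit 20778) (S (nat_lit 20979) (L (nat_lit 21165448))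
(L (nat_lit 6474138)))
(L (nat_lit 30789676)))
(S (nat_lit 37302) (S (nat_lit 4956) (L (nat_lit 4991383))
(S (nat_lit 48351) (S (nat_lit 35104) (S (nat_lit 54899) (S (nat_lit 1215) (L (nat_lit 16116915))
(L (nat_lit 9178701)))
(L (nat_lit 11352645)))
(S (nat_lit 38164) (L (nat_lit 22166310))
(L (nat_lit 2660989))))
(L (nat_lit 27890054))))
(S (nat_lit 57066) (S (nat_lit 1279) (S (nat_lit 1748) (L (nat_lit 10289555))
(L (nat_lit 20781441)))
(S (nat_lit 4848) (L (nat_lit 23227759))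
(L (nat_lit 11424132))))
(L (nat_lit 25693559)))))
(S (nat_lit 48338) (S (nat_lit 1958) (S (nat_lit 11545) (L (nat_lit 17560715))
(S (nat_lit 54899) (S (nat_lit 37260) (S (nat_lit 1246) (L (nat_lit 4897113))
(L (nat_lit 19740004)))
(L (nat_lit 14491296)))
(L (nat_lit 27690322))))
(S (nat_lit 21722) (S (nat_lit 40564) (S (nat_lit 21026) (S (nat_lit 21512) (L (nat_lit 22348686))
(L (nat_lit 15468136)))
(L (nat_lit 15474274)))
(L (nat_lit 27512975)))
(S (nat_lit 41486) (S (nat_lit 15452) (S (nat_lit 42054) (L (nat_lit 20383097))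
(L (nat_lit 20407621)))
(S (nat_lit 54899) (S (nat_lit 14299) (L (nat_lit 18678443))
(S (nat_lit 40564) (S (nat_lit 40542) (S (nat_lit 21783) (S (nat_lit 30724) (L (nat_lit 18474122))
(L (nat_lit 14494871)))
(L (nat_lit 21856493)))
(L (nat_lit 16962312)))
(L (nat_lit 8207936))))
(L (nat_lit 27625101))))
(L (nat_lit 25563782)))))
(L (nat_lit 25592490)))))
(L (nat_lit 25762181)))))
(L (nat_lit 25731650)))))
(S (nat_lit 57049) (S (nat_lit 1257) (S (nat_lit 1246) (S (nat_lit 17510) (S (nat_lit 2006) (S (nat_lit 21540) (L (nat_lit 12783256))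
(L (nat_lit 5465555)))
(L (nat_lit 13832087)))
(S (nat_lit 37274) (S (nat_lit 1763) (S (nat_lit 25) (S (nat_lit 28526) (S (nat_lit 35087) (L (nat_lit 12801147))
(L (nat_lit 18047685)))
(L (nat_lit 19084197)))
(L (nat_lit 12785371)))
(L (nat_lit 20133763)))
(S (nat_lit 57038) (S (nat_lit 1034) (S (nat_lit 48301) (S (nat_lit 25) (S (nat_lit 14) (S (nat_lit 50538) (S (nat_lit 57024) (S (nat_lit 35115) (L (nat_lit 16784989))
(L (nat_lit 13230247)))
(L (nat_lit 27475681)))
(L (nat_lit 11120733)))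
(L (nat_lit 19086149)))
(L (nat_lit 12593882)))
(L (nat_lit 10512818)))
(S (nat_lit 20798) (S (nat_lit 1975) (S (nat_lit 1986) (S (nat_lit 20811) (L (nat_lit 24638602))
(L (nat_lit 6022602)))
(L (nat_lit 13478597)))
(L (nat_lit 13486215)))
(S (nat_lit 40562) (S (nat_lit 48290) (S (nat_lit 25) (S (nat_lit 14) (S (nat_lit 21529) (L (nat_lit 20048266))
(L (nat_lit 6077034)))
(L (nat_lit 19086181)))
(L (nat_lit 19099822)))
(L (nat_lit 27504755)))
(L (nat_lit 25414768)))))
(L (nat_lit 25676906)))))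
(S (nat_lit 21010) (S (nat_lit 1726) (S (nat_lit 35104) (S (nat_lit 1229) (S (nat_lit 28526) (S (nat_lit 20979) (S (nat_lit 39542) (S (nat_lit 37260) (S (nat_lit 21479) (S (nat_lit 1776) (S (nat_lit 35073) (S (nat_lit 57099) (S (nat_lit 48338) (S (nat_lit 57071) (S (nat_lit 11010) (S (nat_lit 1944) (S (nat_lit 27514) (S (nat_lit 8823) (S (nat_lit 1034) (S (nat_lit 14977) (S (nat_lit 40818) (S (nat_lit 15277) (S (nat_lit 33324) (S (nat_lit 18578) (S (nat_lit 31363) (S (nat_lit 17860) (S (nat_lit 20249) (D (nat_lit 13) (nat_lit 27985287) (nat_lit 25761004) (nat_lit 6806619361512))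
(L (nat_lit 19769888)))
(L (nat_lit 27898889)))
(L (nat_lit 27544003)))
(L (nat_lit 27896291)))
(L (nat_lit 27899235)))
(S (nat_lit 20826) (S (nat_lit 19578) (S (nat_lit 9476) (S (nat_lit 10909) (S (nat_lit 39649) (S (nat_lit 16919) (D (nat_lit 13) (nat_lit 26947840) (nat_lit 19664240) (nat_lit 2205473246403))
(L (nat_lit 27930758)))
(L (nat_lit 28976303)))
(L (nat_lit 30855338)))
(L (nat_lit 30846626)))
(L (nat_lit 28976643)))
(L (nat_lit 17134739))))
(L (nat_lit 17848701)))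
(L (nat_lit 28889376)))
(L (nat_lit 19441724)))
(L (nat_lit 23570552)))
(L (nat_lit 29890246)))
(L (nat_lit 19240749)))
(L (nat_lit 26561649)))
(L (nat_lit 27339252)))
(L (nat_lit 6052175)))
(L (nat_lit 19671119)))
(L (nat_lit 20148240)))
(L (nat_lit 26936652)))
(L (nat_lit 21052326)))
(L (nat_lit 19984870)))
(L (nat_lit 27481541)))
(L (nat_lit 4845962)))
(L (nat_lit 12645683)))
(L (nat_lit 13200519)))
(L (nat_lit 13534483)))
(S (nat_lit 21490) (S (nat_lit 54899) (S (nat_lit 28526) (S (nat_lit 37260) (S (nat_lit 39590) (S (nat_lit 40790) (S (nat_lit 17543) (S (nat_lit 28559) (S (nat_lit 19789) (S (nat_lit 1776) (S (nat_lit 35137) (S (nat_lit 40542) (S (nat_lit 15309) (S (nat_lit 49132) (S (nat_lit 21708) (S (nat_lit 37335) (S (nat_lit 9803) (S (nat_lit 19678) (S (nat_lit 39575) (S (nat_lit 39188) (S (nat_lit 11822) (S (nat_lit 34052) (D (nat_lit 15) (nat_lit 31080555) (nat_lit 805133) (nat_lit 4569698533))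
(L (nat_lit 27743584)))
(S (nat_lit 36694) (S (nat_lit 11626) (S (nat_lit 42781) (D (nat_lit 15) (nat_lit 31001129) (nat_lit 25761162) (nat_lit 105467974817))
(L (nat_lit 28792161)))
(L (nat_lit 31179105)))
(L (nat_lit 27960396))))
(L (nat_lit 22218572)))
(L (nat_lit 24581994)))
(L (nat_lit 21394660)))
(L (nat_lit 666415)))
(L (nat_lit 20278689)))
(L (nat_lit 22941099)))
(L (nat_lit 4956017)))
(L (nat_lit 22845889)))
(L (nat_lit 23281476)))
(L (nat_lit 9061400)))
(L (nat_lit 14353657)))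
(L (nat_lit 3366456)))
(L (nat_lit 19676170)))
(L (nat_lit 22886596)))
(L (nat_lit 27925890)))
(L (nat_lit 6004248)))
(L (nat_lit 20146191)))
(S (nat_lit 48441) (L (nat_lit 5959113))
(L (nat_lit 19101060))))
(L (nat_lit 10913618)))
(S (nat_lit 41254) (S (nat_lit 1047) (S (nat_lit 37260) (S (nat_lit 39542) (S (nat_lit 19826) (S (nat_lit 20800) (S (nat_lit 35104) (S (nat_lit 19789) (S (nat_lit 21783) (S (nat_lit 21739) (S (nat_lit 54884) (S (nat_lit 28526) (S (nat_lit 28543) (S (nat_lit 21465) (S (nat_lit 4754) (S (nat_lit 21529) (S (nat_lit 1277) (S (nat_lit 22362) (S (nat_lit 35087) (S (nat_lit 21722) (S (nat_lit 10197) (S (nat_lit 10865) (S (nat_lit 16697) (S (nat_lit 50821) (D (nat_lit 11) (nat_lit 31138180) (nat_lit 25479280) (nat_lit 106438952193))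
(L (nat_lit 28907905)))
(L (nat_lit 30592455)))
(L (nat_lit 30591430)))
(S (nat_lit 26023) (S (nat_lit 51340) (S (nat_lit 58630) (S (nat_lit 15767) (D (nat_lit 11) (nat_lit 31013154) (nat_lit 25544814) (nat_lit 106438959144))
(L (nat_lit 30091747)))
(L (nat_lit 2969095)))
(L (nat_lit 2968070)))
(L (nat_lit 16354058))))
(L (nat_lit 15607958)))
(L (nat_lit 8418868)))
(L (nat_lit 27727891)))
(L (nat_lit 13362400)))
(L (nat_lit 30626181)))
(L (nat_lit 5979914)))
(L (nat_lit 15280002)))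
(L (nat_lit 4119080)))
(L (nat_lit 19101060)))
(L (nat_lit 27840554)))
(L (nat_lit 10635768)))
(L (nat_lit 14902915)))
(L (nat_lit 21172797)))
(L (nat_lit 13370985)))
(L (nat_lit 14719829)))
(L (nat_lit 2674009)))
(L (nat_lit 27475588)))
(L (nat_lit 20146223)))
(L (nat_lit 20448633)))
(L (nat_lit 25319631)))))
(S (nat_lit 40774) (S (nat_lit 986) (S (nat_lit 21529) (S (nat_lit 48301) (L (nat_lit 13769339))
(L (nat_lit 27798679)))
(L (nat_lit 10599252)))
(S (nat_lit 20750) (S (nat_lit 21529) (S (nat_lit 54884) (S (nat_lit 1776) (L (nat_lit 16443748))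
(L (nat_lit 13337945)))
(L (nat_lit 4772779)))
(L (nat_lit 5978488)))
(S (nat_lit 40514) (S (nat_lit 54884) (S (nat_lit 57099) (S (nat_lit 39542) (S (nat_lit 21529) (S (nat_lit 30763) (L (nat_lit 3405271))
(L (nat_lit 19248157)))
(L (nat_lit 5460815)))
(L (nat_lit 11555633)))
(L (nat_lit 27928992)))
(L (nat_lit 5990858)))
(L (nat_lit 25428657)))))
(L (nat_lit 25866593)))))
(S (nat_lit 21021) (S (nat_lit 15340) (S (nat_lit 17496) (S (nat_lit 2019) (S (nat_lit 1246) (S (nat_lit 8762) (L (nat_lit 26739926))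
(L (nat_lit 6315853)))
(L (nat_lit 19096719)))
(S (nat_lit 21783) (S (nat_lit 35073) (L (nat_lit 23279709))
(L (nat_lit 20133948)))
(S (nat_lit 41547) (S (nat_lit 28543) (L (nat_lit 29923347))
(L (nat_lit 3939916)))
(L (nat_lit 25696931)))))
(L (nat_lit 16516309)))
(S (nat_lit 35104) (S (nat_lit 20783) (S (nat_lit 1991) (S (nat_lit 17375) (L (nat_lit 13736539))
(S (nat_lit 37260) (S (nat_lit 41304) (S (nat_lit 1036) (S (nat_lit 39575) (S (nat_lit 28526) (S (nat_lit 57088) (S (nat_lit 1765) (S (nat_lit 48318) (S (nat_lit 19795) (S (nat_lit 40542) (S (nat_lit 8812) (S (nat_lit 21479) (S (nat_lit 19789) (S (nat_lit 15309) (S (nat_lit 1229) (S (nat_lit 9328) (S (nat_lit 40774) (S (nat_lit 50477) (S (nat_lit 22352) (S (nat_lit 12255) (S (nat_lit 35052) (S (nat_lit 25061) (S (nat_lit 32320) (D (nat_lit 13) (nat_lit 27931843) (nat_lit 25767023) (nat_lit 6776659417219))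
(L (nat_lit 21490016)))
(L (nat_lit 16698721)))
(L (nat_lit 7176848)))
(L (nat_lit 28979429)))
(S (nat_lit 36040) (S (nat_lit 14299) (S (nat_lit 23277) (S (nat_lit 30782) (S (nat_lit 6705) (S (nat_lit 55754) (D (nat_lit 13) (nat_lit 17164928) (nat_lit 25762927) (nat_lit 1240208515266))
(L (nat_lit 29512167)))
(L (nat_lit 27829952)))
(L (nat_lit 12472805)))
(L (nat_lit 23652709)))
(L (nat_lit 30096672)))
(L (nat_lit 10981302))))
(L (nat_lit 4941100)))
(L (nat_lit 10137756)))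
(L (nat_lit 4419127)))
(L (nat_lit 11273904)))
(L (nat_lit 7362352)))
(L (nat_lit 3365743)))
(L (nat_lit 11424193)))
(L (nat_lit 1567991)))
(L (nat_lit 24295739)))
(L (nat_lit 15364201)))
(L (nat_lit 6009670)))
(L (nat_lit 26491493)))
(L (nat_lit 5587827)))
(L (nat_lit 30460173)))
(L (nat_lit 11190330)))
(L (nat_lit 13861684)))
(L (nat_lit 27461261)))
(L (nat_lit 19963727))))
(S (nat_lit 21755) (S (nat_lit 15908) (L (nat_lit 1299868))
(S (nat_lit 40564) (S (nat_lit 39592) (S (nat_lit 1715) (S (nat_lit 1765) (S (nat_lit 54884) (S (nat_lit 41304) (S (nat_lit 57071) (S (nat_lit 19811) (S (nat_lit 20993) (S (nat_lit 1944) (S (nat_lit 17560) (S (nat_lit 30713) (S (nat_lit 21733) (S (nat_lit 40514) (S (nat_lit 47789) (S (nat_lit 47758) (S (nat_lit 36149) (S (nat_lit 38127) (S (nat_lit 50658) (S (nat_lit 54107) (S (nat_lit 49205) (S (nat_lit 38386) (D (nat_lit 13) (nat_lit 26807723) (nat_lit 25761225) (nat_lit 8803611546853))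
(L (nat_lit 28979334)))
(L (nat_lit 30126337)))
(L (nat_lit 29958320)))
(L (nat_lit 29954503)))
(L (nat_lit 19294401)))
(S (nat_lit 39728) (S (nat_lit 52392) (S (nat_lit 438) (S (nat_lit 57421) (S (nat_lit 56690) (S (nat_lit 51895) (D (nat_lit 13) (nat_lit 31078756) (nat_lit 19666288) (nat_lit 71039099141))
(L (nat_lit 24588130)))
(L (nat_lit 22884422)))
(L (nat_lit 22884580)))
(L (nat_lit 30061892)))
(L (nat_lit 30061797)))
(L (nat_lit 10375555))))
(L (nat_lit 354894)))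
(L (nat_lit 14899009)))
(L (nat_lit 27695747)))
(L (nat_lit 11103310)))
(L (nat_lit 9495116)))
(L (nat_lit 6778594)))
(L (nat_lit 26593699)))
(L (nat_lit 21248928)))
(L (nat_lit 10403863)))
(L (nat_lit 11653624)))
(L (nat_lit 27826355)))
(L (nat_lit 10900324)))
(L (nat_lit 14589541)))
(L (nat_lit 5034440)))
(L (nat_lit 4772776)))
(L (nat_lit 27990400))))
(S (nat_lit 41519) (S (nat_lit 20800) (S (nat_lit 37260) (S (nat_lit 47) (S (nat_lit 41304) (S (nat_lit 41243) (S (nat_lit 21004) (S (nat_lit 10949) (S (nat_lit 48340) (S (nat_lit 57086) (S (nat_lit 28587) (S (nat_lit 1986) (S (nat_lit 41472) (S (nat_lit 37324) (S (nat_lit 21490) (S (nat_lit 40757) (S (nat_lit 39603) (S (nat_lit 19789) (S (nat_lit 30746) (S (nat_lit 16758) (S (nat_lit 18828) (S (nat_lit 49469) (S (nat_lit 31285) (S (nat_lit 41123) (D (nat_lit 13) (nat_lit 31067526) (nat_lit 18990859) (nat_lit 2478399719521))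
(L (nat_lit 19738913)))
(L (nat_lit 28824804)))
(L (nat_lit 19330087)))
(L (nat_lit 28947715)))
(S (nat_lit 30138) (S (nat_lit 19102) (S (nat_lit 52052) (S (nat_lit 44556) (S (nat_lit 22521) (D (nat_lit 13) (nat_lit 27856361) (nat_lit 4795960) (nat_lit 207305578564))
(L (nat_lit 28918053)))
(L (nat_lit 17738465)))
(L (nat_lit 16667875)))
(L (nat_lit 27866339)))
(L (nat_lit 29435566))))
(L (nat_lit 2647755)))
(L (nat_lit 2344757)))
(L (nat_lit 6105773)))
(L (nat_lit 18117280)))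
(L (nat_lit 21839914)))
(L (nat_lit 20751408)))
(L (nat_lit 6690395)))
(L (nat_lit 26710227)))
(L (nat_lit 19377242)))
(L (nat_lit 11295884)))
(L (nat_lit 14421704)))
(L (nat_lit 21194830)))
(L (nat_lit 6472413)))
(L (nat_lit 6437782)))
(L (nat_lit 27990029)))
(L (nat_lit 6755127)))
(L (nat_lit 3644090)))
(L (nat_lit 21201304)))
(L (nat_lit 25665718)))))
(L (nat_lit 7243345)))
(S (nat_lit 54868) (S (nat_lit 37260) (L (nat_lit 28542545))
(L (nat_lit 14484693)))
(L (nat_lit 25442914)))))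
(S (nat_lit 40785) (S (nat_lit 42) (S (nat_lit 972) (S (nat_lit 10966) (S (nat_lit 40564) (L (nat_lit 7361049))
(L (nat_lit 27808064)))
(S (nat_lit 30730) (S (nat_lit 54884) (S (nat_lit 28574) (S (nat_lit 40542) (L (nat_lit 6752115))
(L (nat_lit 17847048)))
(L (nat_lit 30921060)))
(L (nat_lit 4772779)))
(S (nat_lit 50494) (S (nat_lit 57055) (L (nat_lit 13272377))
(L (nat_lit 27336301)))
(L (nat_lit 25614627)))))
(S (nat_lit 20736) (S (nat_lit 17527) (S (nat_lit 35098) (L (nat_lit 11595155))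
(L (nat_lit 18683219)))
(S (nat_lit 37291) (S (nat_lit 39603) (S (nat_lit 20811) (L (nat_lit 11661843))
(L (nat_lit 7014156)))
(L (nat_lit 10676691)))
(S (nat_lit 57055) (S (nat_lit 28574) (S (nat_lit 35098) (S (nat_lit 54899) (L (nat_lit 29623949))
(L (nat_lit 11962008)))
(L (nat_lit 13511859)))
(L (nat_lit 13408403)))
(L (nat_lit 25613385)))))
(S (nat_lit 40500) (S (nat_lit 1732) (S (nat_lit 54899) (S (nat_lit 1975) (L (nat_lit 28807506))
(L (nat_lit 19967823)))
(L (nat_lit 27623858)))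
(S (nat_lit 21496) (S (nat_lit 40743) (S (nat_lit 28526) (L (nat_lit 29507146))
(L (nat_lit 19116964)))
(L (nat_lit 27543724)))
(S (nat_lit 41260) (S (nat_lit 474) (L (nat_lit 2323859))
(S (nat_lit 54884) (S (nat_lit 40542) (S (nat_lit 41293) (S (nat_lit 50510) (S (nat_lit 48351) (S (nat_lit 54851) (S (nat_lit 28574) (S (nat_lit 30724) (S (nat_lit 40575) (S (nat_lit 28559) (S (nat_lit 21540) (S (nat_lit 2006) (S (nat_lit 1715) (S (nat_lit 11010) (S (nat_lit 19795) (S (nat_lit 19789) (S (nat_lit 15351) (S (nat_lit 8812) (S (nat_lit 17364) (S (nat_lit 37159) (S (nat_lit 23763) (S (nat_lit 55754) (S (nat_lit 30782) (D (nat_lit 13) (nat_lit 18016904) (nat_lit 25765411) (nat_lit 3438161428643))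
(L (nat_lit 11424228)))
(L (nat_lit 29708769)))
(L (nat_lit 23652676)))
(L (nat_lit 21489921)))
(S (nat_lit 51623) (S (nat_lit 51629) (S (nat_lit 28131) (S (nat_lit 35156) (S (nat_lit 32737) (D (nat_lit 13) (nat_lit 18755264) (nat_lit 25479717) (nat_lit 3437121241189))
(L (nat_lit 20847661)))
(L (nat_lit 19732493)))
(L (nat_lit 20858050)))
(L (nat_lit 29967554)))
(L (nat_lit 4773112))))
(L (nat_lit 518856)))
(L (nat_lit 15584577)))
(L (nat_lit 9463316)))
(L (nat_lit 9897624)))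
(L (nat_lit 18542662)))
(L (nat_lit 13216577)))
(L (nat_lit 13520128)))
(L (nat_lit 31147179)))
(L (nat_lit 30692397)))
(L (nat_lit 23928292)))
(L (nat_lit 30624909)))
(L (nat_lit 30593389)))
(L (nat_lit 5459853)))
(L (nat_lit 10674926)))
(L (nat_lit 5847288)))
(L (nat_lit 23280729)))
(L (nat_lit 24319756)))
(L (nat_lit 11064228))))
(L (nat_lit 25676807)))))
(L (nat_lit 25799074)))))
(S (nat_lit 19806) (S (nat_lit 8773) (S (nat_lit 21783) (S (nat_lit 40542) (S (nat_lit 21026) (S (nat_lit 20783) (S (nat_lit 57086) (S (nat_lit 54884) (S (nat_lit 8810) (S (nat_lit 1246) (S (nat_lit 20979) (S (nat_lit 19789) (S (nat_lit 1763) (S (nat_lit 21496) (S (nat_lit 41276) (S (nat_lit 50488) (S (nat_lit 3835) (S (nat_lit 54901) (S (nat_lit 21722) (S (nat_lit 21043) (S (nat_lit 20800) (S (nat_lit 48340) (S (nat_lit 19826) (S (nat_lit 41556) (S (nat_lit 51583) (S (nat_lit 57901) (S (nat_lit 9692) (D (nat_lit 11) (nat_lit 28976578) (nat_lit 19194307) (nat_lit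 35606536296))
(L (nat_lit 30973540)))
(L (nat_lit 16587365)))
(L (nat_lit 16587332)))
(S (nat_lit 56722) (S (nat_lit 30445) (S (nat_lit 36763) (S (nat_lit 32294) (D (nat_lit 11) (nat_lit 27966633) (nat_lit 19194371) (nat_lit 35710341348))
(L (nat_lit 28935718)))
(L (nat_lit 10341856)))
(L (nat_lit 10340833)))
(L (nat_lit 20814209))))
(L (nat_lit 15429957)))
(L (nat_lit 5941164)))
(L (nat_lit 14800216)))
(L (nat_lit 14767448)))
(L (nat_lit 15553856)))
(L (nat_lit 4859820)))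
(L (nat_lit 5908236)))
(L (nat_lit 10511021)))
(L (nat_lit 9061528)))
(L (nat_lit 30887237)))
(L (nat_lit 26429987)))
(L (nat_lit 14937795)))
(L (nat_lit 6919612)))
(L (nat_lit 10544782)))
(L (nat_lit 26366317)))
(L (nat_lit 10572719)))
(L (nat_lit 27933834)))
(L (nat_lit 16516438)))
(L (nat_lit 14740822)))
(L (nat_lit 23075660)))
(S (nat_lit 57877) (L (nat_lit 23356800))
(L (nat_lit 10511827))))
(S (nat_lit 28537) (S (nat_lit 1036) (S (nat_lit 1715) (S (nat_lit 17571) (L (nat_lit 23083815))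
(L (nat_lit 16666913)))
(L (nat_lit 5034440)))
(S (nat_lit 20800) (S (nat_lit 54884) (S (nat_lit 1229) (L (nat_lit 26295666))
(L (nat_lit 6083017)))
(L (nat_lit 27578820)))
(S (nat_lit 40564) (S (nat_lit 25) (S (nat_lit 986) (S (nat_lit 1958) (L (nat_lit 13659507))
(L (nat_lit 19676482)))
(L (nat_lit 19676329)))
(L (nat_lit 12808341)))
(L (nat_lit 25395823)))))
(S (nat_lit 48301) (S (nat_lit 64) (S (nat_lit 1229) (S (nat_lit 21722) (S (nat_lit 30699) (S (nat_lit 15334) (L (nat_lit 29606034))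
(L (nat_lit 15520099)))
(L (nat_lit 13652188)))
(L (nat_lit 5132744)))
(L (nat_lit 6083017)))
(S (nat_lit 19828) (S (nat_lit 40542) (S (nat_lit 41293) (S (nat_lit 1958) (L (nat_lit 28523201))
(L (nat_lit 6043894)))
(L (nat_lit 17059932)))
(L (nat_lit 3657981)))
(S (nat_lit 39592) (S (nat_lit 48307) (S (nat_lit 10935) (L (nat_lit 15519784))
(L (nat_lit 26432033)))
(L (nat_lit 11948153)))
(L (nat_lit 25497199)))))
(L (nat_lit 25897132)))))
(S (nat_lit 39570) (S (nat_lit 1262) (S (nat_lit 37291) (S (nat_lit 20811) (S (nat_lit 48338) (S (nat_lit 35135) (L (nat_lit 27624013))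
(L (nat_lit 9209421)))
(L (nat_lit 14491237)))
(L (nat_lit 7014156)))
(S (nat_lit 48662) (L (nat_lit 20887563))
(L (nat_lit 23142157))))
(S (nat_lit 21026) (S (nat_lit 8790) (S (nat_lit 41293) (S (nat_lit 21540) (S (nat_lit 41519) (L (nat_lit 11239864))
(L (nat_lit 18057848)))
(L (nat_lit 21095661)))
(L (nat_lit 27460174)))
(S (nat_lit 28554) (S (nat_lit 41243) (S (nat_lit 20783) (S (nat_lit 62) (S (nat_lit 54884) (S (nat_lit 20811) (S (nat_lit 41486) (S (nat_lit 50494) (S (nat_lit 21733) (S (nat_lit 1975) (S (nat_lit 46063) (S (nat_lit 972) (S (nat_lit 13243) (S (nat_lit 18377) (S (nat_lit 40921) (S (nat_lit 38127) (S (nat_lit 596) (S (nat_lit 31142) (S (nat_lit 28712) (D (nat_lit 9) (nat_lit 27963589) (nat_lit 1847881) (nat_lit 243943933953))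
(L (nat_lit 28029066)))
(L (nat_lit 28030123)))
(L (nat_lit 27963563)))
(L (nat_lit 12841569)))
(L (nat_lit 29807875)))
(S (nat_lit 20187) (S (nat_lit 15673) (S (nat_lit 18103) (S (nat_lit 1546) (S (nat_lit 31413) (D (nat_lit 9) (nat_lit 27894892) (nat_lit 25764972) (nat_lit 105430129800))
(L (nat_lit 27964520)))
(L (nat_lit 27656903)))
(L (nat_lit 27697860)))
(L (nat_lit 27664997)))
(L (nat_lit 20098956))))
(L (nat_lit 14978778)))
(L (nat_lit 26806605)))
(L (nat_lit 29983950)))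
(L (nat_lit 5760340)))
(L (nat_lit 1656679)))
(L (nat_lit 12060249)))
(L (nat_lit 7243254)))
(L (nat_lit 12369939)))
(L (nat_lit 5821291)))
(L (nat_lit 7260304)))
(L (nat_lit 12215683)))
(L (nat_lit 27573430)))
(S (nat_lit 48318) (S (nat_lit 21783) (S (nat_lit 57066) (S (nat_lit 20783) (L (nat_lit 14800220))
(L (nat_lit 14706249)))
(L (nat_lit 12182976)))
(L (nat_lit 4409106)))
(L (nat_lit 25759142)))))
(S (nat_lit 40790) (S (nat_lit 8810) (S (nat_lit 40547) (L (nat_lit 1875567))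
(L (nat_lit 27958659)))
(S (nat_lit 28574) (S (nat_lit 35135) (L (nat_lit 29407847))
(L (nat_lit 13408436)))
(S (nat_lit 48338) (S (nat_lit 21540) (S (nat_lit 54884) (S (nat_lit 57099) (S (nat_lit 54862) (S (nat_lit 41271) (L (nat_lit 5946650))
(L (nat_lit 23568130)))
(L (nat_lit 11456689)))
(L (nat_lit 10899547)))
(L (nat_lit 11064229)))
(L (nat_lit 30621715)))
(L (nat_lit 25317741)))))
(L (nat_lit 25657622)))))
(L (nat_lit 25481388)))))
(L (nat_lit 25312562)))))
(L (nat_lit 25184592)))))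
(L (nat_lit 25215188))))

theorem rb246_0_25 : run 4 lb246 [] tb246_0_25 kb246 [0, 41536, 50525] [8748] = true := by
  decide +kernel

noncomputable def tb246_0_21 : Tr :=
(S (nat_lit 17560) (S (nat_lit 1215) (S (nat_lit 8823) (S (nat_lit 1034) (S (nat_lit 10999) (S (nat_lit 15356) (S (nat_lit 17538) (S (nat_lit 10949) (S (nat_lit 39592) (S (nat_lit 1701) (S (nat_lit 2006) (S (nat_lit 20783) (S (nat_lit 41293) (S (nat_lit 21490) (S (nat_lit 30730) (S (nat_lit 24248) (S (nat_lit 54868) (S (nat_lit 35115) (S (nat_lit 57049) (S (nat_lit 48338) (S (nat_lit 2429) (S (nat_lit 18134) (S (nat_lit 37641) (S (nat_lit 37884) (S (nat_lit 40864) (S (nat_lit 16947) (S (nat_lit 20006) (D (nat_lit 11) (nat_lit 25788807) (nat_lit 19674217) (nat_lit 210695684128))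
(L (nat_lit 27830391)))
(L (nat_lit 29411849)))
(L (nat_lit 19807335)))
(L (nat_lit 19231141)))
(L (nat_lit 19231140)))
(S (nat_lit 28983) (S (nat_lit 9445) (S (nat_lit 58393) (S (nat_lit 51103) (S (nat_lit 40242) (S (nat_lit 353) (D (nat_lit 9) (nat_lit 28978627) (nat_lit 19259813) (nat_lit 77351359590))
(L (nat_lit 28788963)))
(L (nat_lit 29923969)))
(L (nat_lit 16600323)))
(L (nat_lit 16599331)))
(L (nat_lit 29965601)))
(L (nat_lit 23397788))))
(L (nat_lit 12269476)))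
(L (nat_lit 12322415)))
(L (nat_lit 27478403)))
(L (nat_lit 8975541)))
(L (nat_lit 27663971)))
(L (nat_lit 29015050)))
(L (nat_lit 2857741)))
(L (nat_lit 874702)))
(L (nat_lit 23177628)))
(L (nat_lit 7095875)))
(L (nat_lit 14357789)))
(L (nat_lit 19310338)))
(L (nat_lit 18182165)))
(L (nat_lit 1783068)))
(L (nat_lit 734552)))
(S (nat_lit 37223) (L (nat_lit 6705212))
(L (nat_lit 1783595))))
(S (nat_lit 30763) (S (nat_lit 1975) (S (nat_lit 54884) (S (nat_lit 17538) (S (nat_lit 54868) (S (nat_lit 48276) (L (nat_lit 13914235))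
(L (nat_lit 14523009)))
(L (nat_lit 14572649)))
(L (nat_lit 898694)))
(L (nat_lit 27898922)))
(S (nat_lit 20228) (L (nat_lit 8238263))
(L (nat_lit 5584539))))
(S (nat_lit 50527) (S (nat_lit 1701) (S (nat_lit 1975) (S (nat_lit 35120) (S (nat_lit 17538) (S (nat_lit 20783) (S (nat_lit 54868) (S (nat_lit 1003) (L (nat_lit 21144460))
(L (nat_lit 9090917)))
(L (nat_lit 19184419)))
(L (nat_lit 21333433)))
(L (nat_lit 8205952)))
(L (nat_lit 20722731)))
(L (nat_lit 19739690)))
(S (nat_lit 25929) (L (nat_lit 30618802))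
(L (nat_lit 26817673))))
(L (nat_lit 25496055)))))
(S (nat_lit 20798) (S (nat_lit 1014) (S (nat_lit 1701) (S (nat_lit 17682) (S (nat_lit 15384) (L (nat_lit 6993825))
(L (nat_lit 7852153)))
(S (nat_lit 57049) (S (nat_lit 972) (L (nat_lit 8950675))
(L (nat_lit 8786520)))
(L (nat_lit 18889049))))
(L (nat_lit 13929235)))
(S (nat_lit 20778) (S (nat_lit 20783) (S (nat_lit 17571) (S (nat_lit 17538) (S (nat_lit 75) (S (nat_lit 14) (S (nat_lit 54901) (S (nat_lit 41514) (S (nat_lit 42) (S (nat_lit 1765) (S (nat_lit 8748) (S (nat_lit 1743) (S (nat_lit 56683) (S (nat_lit 1262) (S (nat_lit 30730) (S (nat_lit 54899) (S (nat_lit 20800) (S (nat_lit 41519) (S (nat_lit 2818) (S (nat_lit 58382) (S (nat_lit 28688) (S (nat_lit 6980) (D (nat_lit 15) (nat_lit 6113739) (nat_lit 1841586) (nat_lit 36710783076))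
(L (nat_lit 29510123)))
(L (nat_lit 27347499)))
(L (nat_lit 16590404)))
(S (nat_lit 38598) (S (nat_lit 13714) (S (nat_lit 29191) (S (nat_lit 57373) (D (nat_lit 15) (nat_lit 3598985) (nat_lit 794002) (nat_lit 69895195848))
(L (nat_lit 29012324)))
(L (nat_lit 27677026)))
(L (nat_lit 27677028)))
(L (nat_lit 10389073))))
(L (nat_lit 18483514)))
(L (nat_lit 7037344)))
(L (nat_lit 16325380)))
(L (nat_lit 24397731)))
(L (nat_lit 19759497)))
(L (nat_lit 6040019)))
(L (nat_lit 12603672)))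
(L (nat_lit 7885600)))
(L (nat_lit 26950794)))
(L (nat_lit 7820161)))
(L (nat_lit 16919259)))
(L (nat_lit 10646038)))
(L (nat_lit 26229046)))
(L (nat_lit 19435801)))
(L (nat_lit 7015832)))
(L (nat_lit 2017585)))
(S (nat_lit 40493) (L (nat_lit 1795376))
(L (nat_lit 7100803))))
(S (nat_lit 40542) (S (nat_lit 21783) (S (nat_lit 40564) (S (nat_lit 41503) (S (nat_lit 62) (L (nat_lit 5626364))
(L (nat_lit 7038468)))
(L (nat_lit 17616196)))
(L (nat_lit 1372782)))
(L (nat_lit 16550227)))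
(L (nat_lit 25836584)))))
(S (nat_lit 40562) (S (nat_lit 8748) (S (nat_lit 11010) (S (nat_lit 21739) (S (nat_lit 40768) (L (nat_lit 23471160))
(L (nat_lit 23184633)))
(L (nat_lit 2018759)))
(S (nat_lit 30325) (L (nat_lit 17109781))
(L (nat_lit 6470392))))
(S (nat_lit 28512) (S (nat_lit 17538) (S (nat_lit 15373) (S (nat_lit 20783) (S (nat_lit 39603) (S (nat_lit 37335) (S (nat_lit 30699) (S (nat_lit 21507) (S (nat_lit 986) (S (nat_lit 48290) (S (nat_lit 41486) (S (nat_lit 1969) (S (nat_lit 15323) (S (nat_lit 1991) (S (nat_lit 54522) (S (nat_lit 19828) (S (nat_lit 7680) (S (nat_lit 1732) (S (nat_lit 17201) (S (nat_lit 33745) (S (nat_lit 58430) (S (nat_lit 31078) (S (nat_lit 20590) (S (nat_lit 58695) (D (nat_lit 13) (nat_lit 26842413) (nat_lit 25761191) (nat_lit 3397652514))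
(L (nat_lit 30093506)))
(L (nat_lit 28726563)))
(L (nat_lit 28938728)))
(L (nat_lit 20376582)))
(L (nat_lit 28943843)))
(S (nat_lit 21626) (S (nat_lit 29874) (S (nat_lit 55249) (S (nat_lit 58181) (S (nat_lit 47537) (S (nat_lit 29377) (D (nat_lit 13) (nat_lit 26908138) (nat_lit 25759179) (nat_lit 7705172644100))
(L (nat_lit 28811314)))
(L (nat_lit 14902885)))
(L (nat_lit 14582375)))
(L (nat_lit 13489508)))
(L (nat_lit 29012165)))
(L (nat_lit 3883814))))
(L (nat_lit 19227662)))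
(L (nat_lit 19806378)))
(L (nat_lit 9626037)))
(L (nat_lit 26630315)))
(L (nat_lit 19231921)))
(L (nat_lit 1764747)))
(L (nat_lit 9624122)))
(L (nat_lit 23444256)))
(L (nat_lit 27478564)))
(L (nat_lit 20277699)))
(L (nat_lit 483603)))
(L (nat_lit 17035284)))
(L (nat_lit 16927494)))
(L (nat_lit 24679303)))
(L (nat_lit 7100803)))
(L (nat_lit 1656584)))
(L (nat_lit 1956231)))
(S (nat_lit 48276) (S (nat_lit 21739) (S (nat_lit 17571) (S (nat_lit 20778) (L (nat_lit 14324987))
(L (nat_lit 6985516)))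
(L (nat_lit 1518453)))
(S (nat_lit 34708) (S (nat_lit 11010) (L (nat_lit 1986828))
(L (nat_lit 15912216)))
(L (nat_lit 2018759))))
(L (nat_lit 25172500)))))
(L (nat_lit 25474785)))))
(S (nat_lit 28587) (S (nat_lit 25) (S (nat_lit 17496) (S (nat_lit 8779) (S (nat_lit 20800) (S (nat_lit 30774) (S (nat_lit 17521) (L (nat_lit 31008781))
(L (nat_lit 1879629)))
(L (nat_lit 9286208)))
(L (nat_lit 7126164)))
(S (nat_lit 43047) (L (nat_lit 19695855))
(L (nat_lit 1467977))))
(S (nat_lit 37260) (S (nat_lit 21496) (S (nat_lit 20767) (S (nat_lit 17571) (S (nat_lit 15371) (S (nat_lit 48276) (S (nat_lit 41534) (S (nat_lit 40805) (S (nat_lit 41293) (S (nat_lit 20783) (S (nat_lit 1969) (S (nat_lit 21750) (S (nat_lit 48290) (S (nat_lit 35087) (S (nat_lit 20778) (S (nat_lit 32982) (S (nat_lit 26302) (S (nat_lit 26313) (S (nat_lit 57071) (S (nat_lit 46185) (S (nat_lit 57639) (S (nat_lit 1630) (S (nat_lit 9423) (S (nat_lit 39920) (S (nat_lit 46174) (D (nat_lit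 9) (nat_lit 30691745) (nat_lit 25759113) (nat_lit 3492943911))
(L (nat_lit 12782386)))
(L (nat_lit 13456426)))
(L (nat_lit 30120451)))
(L (nat_lit 29807971)))
(L (nat_lit 22950241)))
(S (nat_lit 55209) (S (nat_lit 29229) (S (nat_lit 32145) (S (nat_lit 20196) (S (nat_lit 17899) (S (nat_lit 1543) (D (nat_lit 9) (nat_lit 27609230) (nat_lit 25765251) (nat_lit 4500594759))
(L (nat_lit 27656839)))
(L (nat_lit 27667077)))
(L (nat_lit 13540933)))
(L (nat_lit 21869824)))
(L (nat_lit 21868832)))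
(L (nat_lit 7490109))))
(L (nat_lit 19306346)))
(L (nat_lit 1687399)))
(L (nat_lit 23261486)))
(L (nat_lit 18890598)))
(L (nat_lit 6771836)))
(L (nat_lit 2339604)))
(L (nat_lit 15987268)))
(L (nat_lit 30642738)))
(L (nat_lit 20116999)))
(L (nat_lit 6308695)))
(L (nat_lit 1850677)))
(L (nat_lit 8130288)))
(L (nat_lit 9187350)))
(L (nat_lit 13856385)))
(L (nat_lit 24307055)))
(L (nat_lit 18214997)))
(L (nat_lit 7090196)))
(L (nat_lit 30749717)))
(S (nat_lit 57024) (S (nat_lit 4537) (L (nat_lit 6481488))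
(S (nat_lit 20783) (S (nat_lit 15371) (S (nat_lit 57049) (L (nat_lit 29773990))
(L (nat_lit 12832921)))
(L (nat_lit 1435060)))
(L (nat_lit 30416464))))
(L (nat_lit 25679073)))))
(S (nat_lit 19789) (S (nat_lit 64) (S (nat_lit 1701) (S (nat_lit 972) (S (nat_lit 54912) (S (nat_lit 41254) (L (nat_lit 16936521))
(L (nat_lit 8783637)))
(L (nat_lit 27596181)))
(S (nat_lit 38615) (L (nat_lit 2348846))
(L (nat_lit 2697996))))
(S (nat_lit 55309) (L (nat_lit 20723968))
(L (nat_lit 10052996))))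
(S (nat_lit 19828) (S (nat_lit 17521) (S (nat_lit 21043) (S (nat_lit 40500) (S (nat_lit 21496) (S (nat_lit 8810) (S (nat_lit 1701) (S (nat_lit 40757) (S (nat_lit 41276) (S (nat_lit 45808) (S (nat_lit 20798) (S (nat_lit 28512) (S (nat_lit 19795) (S (nat_lit 1958) (S (nat_lit 42555) (S (nat_lit 1036) (S (nat_lit 17115) (S (nat_lit 9116) (S (nat_lit 40605) (S (nat_lit 12810) (S (nat_lit 36916) (D (nat_lit 13) (nat_lit 27447849) (nat_lit 18988809) (nat_lit 1280002163936))
(L (nat_lit 19329066)))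
(L (nat_lit 29739426)))
(L (nat_lit 19294499)))
(L (nat_lit 27865443)))
(S (nat_lit 29352) (S (nat_lit 29869) (S (nat_lit 29385) (S (nat_lit 58190) (S (nat_lit 50913) (S (nat_lit 21217) (D (nat_lit 13) (nat_lit 26850597) (nat_lit 18997707) (nat_lit 1108109168900))
(L (nat_lit 28034119)))
(L (nat_lit 30125605)))
(L (nat_lit 29986217)))
(L (nat_lit 20355905)))
(L (nat_lit 20375780)))
(L (nat_lit 6050000))))
(L (nat_lit 20856133)))
(L (nat_lit 29010094)))
(L (nat_lit 19307677)))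
(L (nat_lit 21246722)))
(L (nat_lit 3690748)))
(L (nat_lit 6867745)))
(L (nat_lit 21303705)))
(L (nat_lit 24350104)))
(L (nat_lit 2552489)))
(L (nat_lit 12159384)))
(L (nat_lit 14837354)))
(L (nat_lit 30749717)))
(L (nat_lit 1469714)))
(L (nat_lit 7198084)))
(L (nat_lit 16559283)))
(S (nat_lit 39592) (S (nat_lit 1701) (S (nat_lit 26318) (L (nat_lit 13773561))
(L (nat_lit 6444441)))
(S (nat_lit 51161) (L (nat_lit 2716105))
(L (nat_lit 26292595))))
(L (nat_lit 25338292)))))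
(S (nat_lit 39553) (S (nat_lit 17543) (S (nat_lit 1701) (S (nat_lit 13566) (L (nat_lit 14535009))
(S (nat_lit 21479) (S (nat_lit 41271) (S (nat_lit 48338) (S (nat_lit 47) (S (nat_lit 20993) (S (nat_lit 8812) (S (nat_lit 21496) (S (nat_lit 8748) (S (nat_lit 50527) (S (nat_lit 40805) (S (nat_lit 15371) (S (nat_lit 37291) (S (nat_lit 39590) (S (nat_lit 40514) (S (nat_lit 16493) (S (nat_lit 35998) (S (nat_lit 13030) (S (nat_lit 19395) (S (nat_lit 28135) (S (nat_lit 57205) (D (nat_lit 15) (nat_lit 30130184) (nat_lit 19063208) (nat_lit 73216887912))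
(L (nat_lit 20884005)))
(L (nat_lit 28914981)))
(S (nat_lit 22169) (S (nat_lit 19088) (S (nat_lit 46485) (S (nat_lit 2609) (S (nat_lit 48622) (S (nat_lit 4053) (D (nat_lit 13) (nat_lit 30093384) (nat_lit 805068) (nat_lit 3356532996))
(L (nat_lit 30942884)))
(L (nat_lit 21456936)))
(L (nat_lit 29905251)))
(L (nat_lit 21840069)))
(L (nat_lit 27998405)))
(L (nat_lit 15408281))))
(L (nat_lit 28715620)))
(L (nat_lit 24492837)))
(L (nat_lit 29986159)))
(L (nat_lit 1664368)))
(L (nat_lit 24904235)))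
(L (nat_lit 31037858)))
(L (nat_lit 17391973)))
(L (nat_lit 18589784)))
(L (nat_lit 20341769)))
(L (nat_lit 23109081)))
(L (nat_lit 30749717)))
(L (nat_lit 454345)))
(L (nat_lit 31014242)))
(L (nat_lit 1911377)))
(L (nat_lit 27401717)))
(L (nat_lit 17110779)))
(L (nat_lit 11122713))))
(S (nat_lit 41073) (S (nat_lit 20958) (L (nat_lit 3366764))
(L (nat_lit 13473011)))
(L (nat_lit 12129037))))
(S (nat_lit 24046) (S (nat_lit 41271) (L (nat_lit 30749280))
(L (nat_lit 18655940)))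
(L (nat_lit 26645226))))
(L (nat_lit 25563477)))))
(S (nat_lit 48351) (S (nat_lit 986) (S (nat_lit 1701) (S (nat_lit 8810) (S (nat_lit 35135) (S (nat_lit 1969) (S (nat_lit 57086) (L (nat_lit 4790683))
(L (nat_lit 27645070)))
(L (nat_lit 13201604)))
(L (nat_lit 23214890)))
(S (nat_lit 28574) (S (nat_lit 57055) (S (nat_lit 54868) (S (nat_lit 1969) (S (nat_lit 37302) (S (nat_lit 21004) (S (nat_lit 21490) (S (nat_lit 50538) (S (nat_lit 20783) (S (nat_lit 35135) (S (nat_lit 41304) (S (nat_lit 40818) (S (nat_lit 41472) (S (nat_lit 40757) (S (nat_lit 40441) (S (nat_lit 35098) (S (nat_lit 39559) (S (nat_lit 8812) (S (nat_lit 41519) (S (nat_lit 17543) (S (nat_lit 1162) (S (nat_lit 21823) (S (nat_lit 25727) (S (nat_lit 23557) (S (nat_lit 4120) (D (nat_lit 15) (nat_lit 30051816) (nat_lit 2902348) (nat_lit 1052897))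
(L (nat_lit 30081450)))
(L (nat_lit 23519459)))
(S (nat_lit 46257) (S (nat_lit 2788) (S (nat_lit 7005) (S (nat_lit 8477) (S (nat_lit 44245) (S (nat_lit 27931) (D (nat_lit 13) (nat_lit 31101168) (nat_lit 18997452) (nat_lit 2271232394436))
(L (nat_lit 28944867)))
(L (nat_lit 28913857)))
(L (nat_lit 30119985)))
(L (nat_lit 30128388)))
(L (nat_lit 27965764)))
(L (nat_lit 26302796))))
(L (nat_lit 28812996)))
(L (nat_lit 29370959)))
(L (nat_lit 6943756)))
(L (nat_lit 3038577)))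
(L (nat_lit 453256)))
(L (nat_lit 16849561)))
(L (nat_lit 10204317)))
(L (nat_lit 26630501)))
(L (nat_lit 18417545)))
(L (nat_lit 8809651)))
(L (nat_lit 18612435)))
(L (nat_lit 18618387)))
(L (nat_lit 9592249)))
(L (nat_lit 12248144)))
(L (nat_lit 20723968)))
(L (nat_lit 22447978)))
(L (nat_lit 22454116)))
(L (nat_lit 9024666)))
(L (nat_lit 19198468)))
(L (nat_lit 27663970)))
(L (nat_lit 5873081)))
(S (nat_lit 48338) (S (nat_lit 37291) (S (nat_lit 54868) (S (nat_lit 39553) (L (nat_lit 29753927))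
(L (nat_lit 18475331)))
(L (nat_lit 11123586)))
(L (nat_lit 2735384)))
(L (nat_lit 25317711)))))
(L (nat_lit 19292514)))
(S (nat_lit 20750) (S (nat_lit 17496) (S (nat_lit 42) (L (nat_lit 6788696))
(L (nat_lit 12703097)))
(S (nat_lit 37260) (S (nat_lit 21645) (L (nat_lit 11620892))
(S (nat_lit 54868) (S (nat_lit 1701) (S (nat_lit 41497) (S (nat_lit 40564) (S (nat_lit 1257) (S (nat_lit 37302) (S (nat_lit 1986) (S (nat_lit 41260) (S (nat_lit 30746) (S (nat_lit 21755) (S (nat_lit 15384) (S (nat_lit 21512) (S (nat_lit 41254) (S (nat_lit 40768) (S (nat_lit 8874) (S (nat_lit 40525) (S (nat_lit 6040) (S (nat_lit 55193) (S (nat_lit 5326) (S (nat_lit 6055) (S (nat_lit 51174) (S (nat_lit 33315) (D (nat_lit 11) (nat_lit 31015235) (nat_lit 17582371) (nat_lit 214817800352))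
(L (nat_lit 12805699)))
(L (nat_lit 13886484)))
(L (nat_lit 31145218)))
(L (nat_lit 31145250)))
(L (nat_lit 29047074)))
(S (nat_lit 50570) (S (nat_lit 11335) (S (nat_lit 55436) (S (nat_lit 50688) (S (nat_lit 11578) (S (nat_lit 33558) (D (nat_lit 11) (nat_lit 31010339) (nat_lit 17582249) (nat_lit 214921609376))
(L (nat_lit 12871232)))
(L (nat_lit 28716769)))
(L (nat_lit 19358855)))
(L (nat_lit 28942885)))
(L (nat_lit 28946725)))
(L (nat_lit 6370069))))
(L (nat_lit 27692779)))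
(L (nat_lit 27866305)))
(L (nat_lit 630543)))
(L (nat_lit 6915855)))
(L (nat_lit 20997512)))
(L (nat_lit 17461318)))
(L (nat_lit 16084576)))
(L (nat_lit 30683187)))
(L (nat_lit 3846393)))
(L (nat_lit 14329881)))
(L (nat_lit 13918357)))
(L (nat_lit 9261069)))
(L (nat_lit 7884889)))
(L (nat_lit 6712001)))
(L (nat_lit 14017619)))
(L (nat_lit 19798403))))
(S (nat_lit 57024) (S (nat_lit 41472) (S (nat_lit 21722) (L (nat_lit 2501337))
(L (nat_lit 1463545)))
(L (nat_lit 27666021)))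
(L (nat_lit 25724149)))))
(S (nat_lit 40514) (S (nat_lit 21733) (S (nat_lit 1701) (S (nat_lit 13091) (L (nat_lit 19019659))
(S (nat_lit 37302) (S (nat_lit 54868) (S (nat_lit 20783) (S (nat_lit 21041) (S (nat_lit 21527) (S (nat_lit 21708) (S (nat_lit 40790) (S (nat_lit 50505) (S (nat_lit 21722) (S (nat_lit 30423) (S (nat_lit 57038) (S (nat_lit 38334) (S (nat_lit 19828) (S (nat_lit 57908) (S (nat_lit 54884) (S (nat_lit 19839) (S (nat_lit 10908) (S (nat_lit 8006) (S (nat_lit 14445) (S (nat_lit 31141) (D (nat_lit 15) (nat_lit 28395758) (nat_lit 18997642) (nat_lit 37849437351))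
(L (nat_lit 16697572)))
(L (nat_lit 27891080)))
(S (nat_lit 12813) (S (nat_lit 54987) (S (nat_lit 47724) (D (nat_lit 15) (nat_lit 27806854) (nat_lit 19063208) (nat_lit 42012287237))
(L (nat_lit 29739554)))
(L (nat_lit 15551810)))
(L (nat_lit 20507689))))
(L (nat_lit 22455481)))
(L (nat_lit 15521895)))
(L (nat_lit 15815531)))
(L (nat_lit 28974627)))
(L (nat_lit 21537603)))
(L (nat_lit 21835944)))
(L (nat_lit 12110968)))
(L (nat_lit 15475427)))
(L (nat_lit 16111362)))
(L (nat_lit 22295707)))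
(L (nat_lit 23226761)))
(L (nat_lit 31042947)))
(L (nat_lit 11251769)))
(L (nat_lit 4960505)))
(L (nat_lit 7094883)))
(L (nat_lit 14262146)))
(L (nat_lit 20378944))))
(L (nat_lit 20360964)))
(L (nat_lit 1470151)))
(L (nat_lit 25515024)))))
(L (nat_lit 25540160)))))
(S (nat_lit 20979) (S (nat_lit 1229) (S (nat_lit 62) (S (nat_lit 1765) (S (nat_lit 39631) (L (nat_lit 19340412))
(S (nat_lit 54868) (S (nat_lit 28512) (L (nat_lit 19432827))
(L (nat_lit 31130830)))
(L (nat_lit 19268889))))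
(S (nat_lit 21529) (S (nat_lit 40419) (L (nat_lit 14222154))
(S (nat_lit 41229) (S (nat_lit 19811) (S (nat_lit 54868) (S (nat_lit 48307) (S (nat_lit 54899) (S (nat_lit 17510) (S (nat_lit 57099) (S (nat_lit 1003) (S (nat_lit 37291) (S (nat_lit 35115) (S (nat_lit 19839) (S (nat_lit 45498) (S (nat_lit 23118) (S (nat_lit 3630) (S (nat_lit 681) (S (nat_lit 57156) (S (nat_lit 16476) (D (nat_lit 15) (nat_lit 31146119) (nat_lit 25761160) (nat_lit 109523866792))
(L (nat_lit 29991332)))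
(L (nat_lit 16664932)))
(S (nat_lit 50155) (S (nat_lit 15975) (S (nat_lit 39336) (D (nat_lit 15) (nat_lit 25761190) (nat_lit 19664298) (nat_lit 1148199174))
(L (nat_lit 28948739)))
(L (nat_lit 30591495)))
(L (nat_lit 18139161))))
(L (nat_lit 2824600)))
(L (nat_lit 8965989)))
(L (nat_lit 30686852)))
(L (nat_lit 22843847)))
(L (nat_lit 30690478)))
(L (nat_lit 13726313)))
(L (nat_lit 26593728)))
(L (nat_lit 19730855)))
(L (nat_lit 17878858)))
(L (nat_lit 19264933)))
(L (nat_lit 13704796)))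
(L (nat_lit 14262146)))
(L (nat_lit 16049764)))
(L (nat_lit 6886252))))
(S (nat_lit 41293) (S (nat_lit 20783) (S (nat_lit 41229) (S (nat_lit 40542) (S (nat_lit 1726) (S (nat_lit 986) (L (nat_lit 2924055))
(L (nat_lit 8803171)))
(L (nat_lit 26805770)))
(L (nat_lit 3663594)))
(L (nat_lit 1699180)))
(L (nat_lit 7079504)))
(L (nat_lit 25214567)))))
(S (nat_lit 19826) (S (nat_lit 1290) (S (nat_lit 10982) (S (nat_lit 39542) (S (nat_lit 41229) (S (nat_lit 1743) (S (nat_lit 1726) (S (nat_lit 1047) (S (nat_lit 35135) (S (nat_lit 10935) (S (nat_lit 39603) (S (nat_lit 28554) (S (nat_lit 35115) (S (nat_lit 40525) (S (nat_lit 21043) (S (nat_lit 21200) (S (nat_lit 46743) (S (nat_lit 27414) (S (nat_lit 34238) (S (nat_lit 25780) (S (nat_lit 2287) (D (nat_lit 13) (nat_lit 30998922) (nat_lit 9003491) (nat_lit 107542151233))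
(L (nat_lit 28914915)))
(L (nat_lit 18965927)))
(L (nat_lit 28913769)))
(L (nat_lit 29071437)))
(S (nat_lit 54281) (S (nat_lit 15281) (S (nat_lit 47720) (S (nat_lit 5494) (D (nat_lit 9) (nat_lit 10357266) (nat_lit 12324428) (nat_lit 275990546624))
(L (nat_lit 28777088)))
(L (nat_lit 19773729)))
(L (nat_lit 31047936)))
(L (nat_lit 29796500))))
(L (nat_lit 829105)))
(L (nat_lit 14770795)))
(L (nat_lit 3784956)))
(L (nat_lit 9127068)))
(L (nat_lit 24518844)))
(L (nat_lit 18012967)))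
(L (nat_lit 1874422)))
(L (nat_lit 20094765)))
(L (nat_lit 26985642)))
(L (nat_lit 26810917)))
(L (nat_lit 26877037)))
(L (nat_lit 2017645)))
(L (nat_lit 25004522)))
(L (nat_lit 16348202)))
(S (nat_lit 21054) (S (nat_lit 20783) (S (nat_lit 41229) (S (nat_lit 21496) (S (nat_lit 57038) (L (nat_lit 5630572))
(L (nat_lit 15372074)))
(L (nat_lit 15394826)))
(L (nat_lit 6712900)))
(L (nat_lit 7095875)))
(S (nat_lit 40818) (S (nat_lit 28510) (L (nat_lit 21148454))
(S (nat_lit 41229) (S (nat_lit 37291) (S (nat_lit 54868) (L (nat_lit 20487293))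
(L (nat_lit 19437657)))
(L (nat_lit 9963128)))
(L (nat_lit 1486706))))
(L (nat_lit 25712776)))))
(S (nat_lit 39590) (S (nat_lit 1036) (S (nat_lit 37274) (S (nat_lit 40575) (S (nat_lit 15371) (S (nat_lit 1726) (S (nat_lit 21750) (S (nat_lit 21512) (S (nat_lit 2006) (S (nat_lit 2784) (S (nat_lit 48307) (S (nat_lit 75) (S (nat_lit 10999) (S (nat_lit 44129) (S (nat_lit 10966) (S (nat_lit 19795) (S (nat_lit 18220) (S (nat_lit 21396) (S (nat_lit 39412) (S (nat_lit 17397) (S (nat_lit 43784) (S (nat_lit 23597) (D (nat_lit 13) (nat_lit 26949640) (nat_lit 19668143) (nat_lit 5566351016961))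
(L (nat_lit 27351526)))
(L (nat_lit 16666949)))
(L (nat_lit 27860483)))
(L (nat_lit 19808450)))
(L (nat_lit 27867362)))
(S (nat_lit 32362) (S (nat_lit 38194) (S (nat_lit 28866) (D (nat_lit 11) (nat_lit 29073923) (nat_lit 19193966) (nat_lit 35641138311))
(L (nat_lit 28908068)))
(L (nat_lit 3067275)))
(L (nat_lit 21001488))))
(L (nat_lit 9929405)))
(L (nat_lit 7887683)))
(L (nat_lit 10216590)))
(L (nat_lit 18475234)))
(L (nat_lit 20452665)))
(L (nat_lit 13751176)))
(L (nat_lit 28874899)))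
(L (nat_lit 13722838)))
(L (nat_lit 11453527)))
(L (nat_lit 30889157)))
(L (nat_lit 20061102)))
(L (nat_lit 17696082)))
(L (nat_lit 17571490)))
(L (nat_lit 20783621)))
(S (nat_lit 20800) (S (nat_lit 17496) (S (nat_lit 48307) (S (nat_lit 15309) (L (nat_lit 29066448))
(L (nat_lit 8128238)))
(L (nat_lit 22146441)))
(L (nat_lit 6307512)))
(S (nat_lit 40564) (S (nat_lit 15384) (S (nat_lit 10977) (S (nat_lit 1732) (L (nat_lit 29477322))
(L (nat_lit 14503232)))
(L (nat_lit 26490528)))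
(S (nat_lit 52506) (L (nat_lit 19404647))
(L (nat_lit 6723445))))
(L (nat_lit 25475221)))))
(L (nat_lit 25495094)))))
(S (nat_lit 20993) (S (nat_lit 8823) (S (nat_lit 1279) (S (nat_lit 20783) (S (nat_lit 17571) (S (nat_lit 41229) (S (nat_lit 17538) (L (nat_lit 29790854))
(L (nat_lit 1338773)))
(L (nat_lit 1666443)))
(L (nat_lit 7247285)))
(L (nat_lit 7005571)))
(S (nat_lit 21043) (S (nat_lit 17538) (S (nat_lit 17558) (S (nat_lit 20736) (S (nat_lit 41472) (S (nat_lit 30741) (S (nat_lit 16150) (S (nat_lit 8810) (S (nat_lit 14) (S (nat_lit 64) (S (nat_lit 20800) (S (nat_lit 62) (S (nat_lit 41229) (S (nat_lit 41514) (S (nat_lit 54868) (S (nat_lit 25) (S (nat_lit 30724) (S (nat_lit 21010) (S (nat_lit 17571) (S (nat_lit 17700) (S (nat_lit 50170) (S (nat_lit 17733) (S (nat_lit 27959) (S (nat_lit 29808) (D (nat_lit 13) (nat_lit 7229893) (nat_lit 25479717) (nat_lit 74125023335))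
(L (nat_lit 872904)))
(L (nat_lit 27576803)))
(L (nat_lit 29961295)))
(L (nat_lit 29961764)))
(S (nat_lit 26032) (S (nat_lit 8974) (S (nat_lit 38603) (S (nat_lit 58669) (D (nat_lit 13) (nat_lit 3066223) (nat_lit 25767461) (nat_lit 36644755715))
(L (nat_lit 20887813)))
(L (nat_lit 21407618)))
(L (nat_lit 29795970)))
(L (nat_lit 29904007))))
(L (nat_lit 22424416)))
(L (nat_lit 15485121)))
(L (nat_lit 8443293)))
(L (nat_lit 26853698)))
(L (nat_lit 27885836)))
(L (nat_lit 663308)))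
(L (nat_lit 23964812)))
(L (nat_lit 8087044)))
(L (nat_lit 732568)))
(L (nat_lit 8120707)))
(L (nat_lit 223702)))
(L (nat_lit 26707317)))
(L (nat_lit 28935563)))
(L (nat_lit 3432852)))
(L (nat_lit 27889035)))
(L (nat_lit 15329604)))
(L (nat_lit 26871178)))
(L (nat_lit 7979193)))
(S (nat_lit 40807) (S (nat_lit 28678) (L (nat_lit 7181038))
(S (nat_lit 37285) (S (nat_lit 21708) (L (nat_lit 8099226))
(L (nat_lit 21426283)))
(L (nat_lit 2347416))))
(L (nat_lit 25181771)))))
(S (nat_lit 28587) (S (nat_lit 1019) (S (nat_lit 54868) (S (nat_lit 15371) (L (nat_lit 26415727))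
(L (nat_lit 24307115)))
(L (nat_lit 4921756)))
(S (nat_lit 20783) (S (nat_lit 40444) (L (nat_lit 10933024))
(S (nat_lit 41254) (S (nat_lit 40785) (S (nat_lit 39590) (S (nat_lit 54868) (S (nat_lit 41229) (S (nat_lit 57066) (S (nat_lit 50463) (S (nat_lit 19806) (S (nat_lit 47250) (S (nat_lit 40562) (S (nat_lit 54879) (S (nat_lit 14941) (S (nat_lit 1969) (S (nat_lit 1290) (S (nat_lit 344) (S (nat_lit 31178) (S (nat_lit 17349) (S (nat_lit 32614) (S (nat_lit 328) (S (nat_lit 19103) (D (nat_lit 13) (nat_lit 27479584) (nat_lit 25761136) (nat_lit 208515698756))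
(L (nat_lit 27866182)))
(L (nat_lit 27865344)))
(L (nat_lit 21934154)))
(L (nat_lit 28629475)))
(L (nat_lit 21868770)))
(S (nat_lit 36163) (S (nat_lit 20196) (S (nat_lit 36161) (S (nat_lit 48934) (S (nat_lit 35401) (S (nat_lit 13844) (D (nat_lit 13) (nat_lit 25549348) (nat_lit 19664108) (nat_lit 1282643080))
(L (nat_lit 29961600)))
(L (nat_lit 19740928)))
(L (nat_lit 13473810)))
(L (nat_lit 29037033)))
(L (nat_lit 13540933)))
(L (nat_lit 28525718))))
(L (nat_lit 26232490)))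
(L (nat_lit 11989012)))
(L (nat_lit 15030426)))
(L (nat_lit 6169015)))
(L (nat_lit 1810968)))
(L (nat_lit 29960579)))
(L (nat_lit 30523078)))
(L (nat_lit 20890817)))
(L (nat_lit 27894144)))
(L (nat_lit 23457156)))
(L (nat_lit 19799148)))
(L (nat_lit 17565419)))
(L (nat_lit 18191067)))
(L (nat_lit 6931577))))
(S (nat_lit 40547) (S (nat_lit 54868) (S (nat_lit 57066) (L (nat_lit 5465494))
(L (nat_lit 11406741)))
(L (nat_lit 19798403)))
(L (nat_lit 25182487)))))
(S (nat_lit 48351) (S (nat_lit 1986) (S (nat_lit 19826) (S (nat_lit 21496) (S (nat_lit 57038) (S (nat_lit 54868) (S (nat_lit 1047) (S (nat_lit 41254) (S (nat_lit 1776) (S (nat_lit 40805) (S (nat_lit 39559) (S (nat_lit 48517) (S (nat_lit 57049) (S (nat_lit 50505) (S (nat_lit 8779) (S (nat_lit 9188) (S (nat_lit 40500) (S (nat_lit 15334) (S (nat_lit 14) (S (nat_lit 1765) (S (nat_lit 7257) (S (nat_lit 43350) (S (nat_lit 37172) (S (nat_lit 55776) (S (nat_lit 50436) (D (nat_lit 13) (nat_lit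 26300717) (nat_lit 25765039) (nat_lit 242699370758))
(L (nat_lit 8550031)))
(L (nat_lit 24001706)))
(L (nat_lit 6317741)))
(L (nat_lit 29906178)))
(S (nat_lit 12252) (S (nat_lit 12241) (S (nat_lit 31658) (S (nat_lit 6426) (S (nat_lit 15464) (D (nat_lit 13) (nat_lit 27543936) (nat_lit 25767025) (nat_lit 6674620487681))
(L (nat_lit 28916778)))
(L (nat_lit 27921897)))
(L (nat_lit 27662913)))
(L (nat_lit 27931908)))
(L (nat_lit 17069637))))
(L (nat_lit 12505477)))
(L (nat_lit 19951082)))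
(L (nat_lit 1846860)))
(L (nat_lit 27609164)))
(L (nat_lit 29954475)))
(L (nat_lit 15277922)))
(L (nat_lit 22127067)))
(L (nat_lit 18887033)))
(L (nat_lit 29996357)))
(L (nat_lit 5519253)))
(L (nat_lit 18621122)))
(L (nat_lit 10192344)))
(L (nat_lit 17393770)))
(L (nat_lit 4780403)))
(L (nat_lit 21076377)))
(L (nat_lit 14880562)))
(L (nat_lit 16075520)))
(L (nat_lit 15912315)))
(S (nat_lit 21750) (S (nat_lit 20778) (S (nat_lit 21479) (L (nat_lit 349658))
(L (nat_lit 21347355)))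
(L (nat_lit 21151528)))
(S (nat_lit 41514) (S (nat_lit 20783) (S (nat_lit 41229) (S (nat_lit 35098) (S (nat_lit 21512) (L (nat_lit 2513117))
(L (nat_lit 22351761)))
(L (nat_lit 2964819)))
(L (nat_lit 7180876)))
(L (nat_lit 7007619)))
(L (nat_lit 25855245)))))
(L (nat_lit 25530934)))))
(S (nat_lit 40757) (S (nat_lit 1047) (S (nat_lit 1975) (S (nat_lit 21540) (S (nat_lit 17543) (S (nat_lit 54884) (L (nat_lit 28706473))
(L (nat_lit 19163588)))
(L (nat_lit 8239781)))
(S (nat_lit 48142) (L (nat_lit 2385363))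
(L (nat_lit 7925378))))
(S (nat_lit 21739) (S (nat_lit 6680) (L (nat_lit 1688426))
(S (nat_lit 35135) (S (nat_lit 19826) (S (nat_lit 37322) (S (nat_lit 21733) (L (nat_lit 8533657))
(L (nat_lit 21371681)))
(L (nat_lit 30594506)))
(L (nat_lit 21857802)))
(L (nat_lit 2702122))))
(S (nat_lit 41503) (S (nat_lit 28543) (S (nat_lit 35120) (S (nat_lit 57086) (S (nat_lit 15351) (S (nat_lit 28537) (S (nat_lit 19778) (S (nat_lit 8762) (S (nat_lit 10935) (S (nat_lit 19826) (S (nat_lit 54901) (S (nat_lit 21529) (S (nat_lit 18875) (S (nat_lit 49847) (S (nat_lit 21722) (S (nat_lit 11627) (S (nat_lit 45795) (S (nat_lit 36672) (D (nat_lit 15) (nat_lit 27893280) (nat_lit 19664205) (nat_lit 39931907175))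
(L (nat_lit 28910766)))
(L (nat_lit 22574405)))
(S (nat_lit 51791) (S (nat_lit 15959) (S (nat_lit 53057) (S (nat_lit 32750) (D (nat_lit 15) (nat_lit 2306932) (nat_lit 6035890) (nat_lit 36677356744))
(L (nat_lit 28981506)))
(L (nat_lit 15586410)))
(L (nat_lit 31176810)))
(L (nat_lit 12086355))))
(L (nat_lit 22873544)))
(L (nat_lit 23262445)))
(L (nat_lit 287468)))
(L (nat_lit 587061)))
(L (nat_lit 13995772)))
(L (nat_lit 21497177)))
(L (nat_lit 23266808)))
(L (nat_lit 16829258)))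
(L (nat_lit 10042489)))
(L (nat_lit 24601955)))
(L (nat_lit 860814)))
(L (nat_lit 27645381)))
(L (nat_lit 9551545)))
(S (nat_lit 58589) (S (nat_lit 21490) (L (nat_lit 602954))
(L (nat_lit 421575)))
(L (nat_lit 2412952))))
(L (nat_lit 25310858)))))
(S (nat_lit 20811) (S (nat_lit 41229) (S (nat_lit 41514) (S (nat_lit 10960) (S (nat_lit 40531) (S (nat_lit 39553) (S (nat_lit 39603) (S (nat_lit 39575) (S (nat_lit 37335) (S (nat_lit 40500) (S (nat_lit 28543) (S (nat_lit 7161) (S (nat_lit 21041) (S (nat_lit 37285) (S (nat_lit 35120) (S (nat_lit 13584) (S (nat_lit 19828) (S (nat_lit 41343) (S (nat_lit 6780) (S (nat_lit 16472) (S (nat_lit 19366) (S (nat_lit 53769) (D (nat_lit 13) (nat_lit 31174793) (nat_lit 25544815) (nat_lit 3303000968257))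
(L (nat_lit 13454533)))
(L (nat_lit 31164874)))
(L (nat_lit 30825729)))
(L (nat_lit 31110401)))
(S (nat_lit 57486) (S (nat_lit 52786) (S (nat_lit 30575) (S (nat_lit 16028) (S (nat_lit 27996) (S (nat_lit 32033) (D (nat_lit 9) (nat_lit 27862533) (nat_lit 1650072) (nat_lit 145163977986))
(L (nat_lit 28915008)))
(L (nat_lit 13552834)))
(L (nat_lit 31011168)))
(L (nat_lit 28914018)))
(L (nat_lit 28913856)))
(L (nat_lit 13987525))))
(L (nat_lit 30784098)))
(L (nat_lit 29466069)))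
(L (nat_lit 9836219)))
(L (nat_lit 2665331)))
(L (nat_lit 21506850)))
(L (nat_lit 28351084)))
(L (nat_lit 3070220)))
(L (nat_lit 23400859)))
(L (nat_lit 2478620)))
(L (nat_lit 23179120)))
(L (nat_lit 23925036)))
(L (nat_lit 23958024)))
(L (nat_lit 23434031)))
(L (nat_lit 833906)))
(L (nat_lit 258611)))
(L (nat_lit 1945971)))
(S (nat_lit 40575) (S (nat_lit 37274) (S (nat_lit 40774) (S (nat_lit 39590) (S (nat_lit 21750) (S (nat_lit 41229) (S (nat_lit 15371) (S (nat_lit 47) (S (nat_lit 8812) (S (nat_lit 20783) (S (nat_lit 39553) (S (nat_lit 48338) (S (nat_lit 1732) (S (nat_lit 41472) (S (nat_lit 56264) (S (nat_lit 15334) (S (nat_lit 57086) (S (nat_lit 50510) (S (nat_lit 1014) (S (nat_lit 44977) (S (nat_lit 18864) (S (nat_lit 39190) (S (nat_lit 5433) (S (nat_lit 8868) (D (nat_lit 13) (nat_lit 27854156) (nat_lit 25767397) (nat_lit 6639220594690))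
(L (nat_lit 27865344)))
(L (nat_lit 28822756)))
(L (nat_lit 22918372)))
(L (nat_lit 28981354)))
(S (nat_lit 57010) (S (nat_lit 43371) (S (nat_lit 56946) (S (nat_lit 50217) (S (nat_lit 29624) (D (nat_lit 13) (nat_lit 26913933) (nat_lit 25765411) (nat_lit 276018888934))
(L (nat_lit 22456345)))
(L (nat_lit 30063811)))
(L (nat_lit 29416871)))
(L (nat_lit 30033188)))
(L (nat_lit 3496476))))
(L (nat_lit 20289421)))
(L (nat_lit 15518917)))
(L (nat_lit 21366539)))
(L (nat_lit 26691907)))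
(L (nat_lit 18764101)))
(L (nat_lit 24311209)))
(L (nat_lit 2960853)))
(L (nat_lit 27893157)))
(L (nat_lit 25012367)))
(L (nat_lit 21434249)))
(L (nat_lit 23442211)))
(L (nat_lit 488043)))
(L (nat_lit 24469988)))
(L (nat_lit 23366043)))
(L (nat_lit 21768741)))
(L (nat_lit 27610628)))
(L (nat_lit 2797785)))
(S (nat_lit 47661) (S (nat_lit 55491) (L (nat_lit 1393405))
(L (nat_lit 23085834)))
(L (nat_lit 10377324))))
(L (nat_lit 25746788)))))
(L (nat_lit 25514466)))))
(S (nat_lit 40743) (S (nat_lit 1034) (S (nat_lit 1715) (S (nat_lit 1975) (S (nat_lit 1240) (S (nat_lit 54868) (S (nat_lit 28554) (S (nat_lit 20783) (S (nat_lit 35115) (S (nat_lit 39542) (S (nat_lit 19789) (S (nat_lit 40774) (S (nat_lit 48307) (S (nat_lit 30699) (S (nat_lit 50510) (S (nat_lit 28526) (S (nat_lit 23576) (S (nat_lit 21783) (S (nat_lit 5693) (S (nat_lit 21496) (S (nat_lit 2827) (S (nat_lit 29452) (S (nat_lit 11785) (D (nat_lit 15) (nat_lit 27868450) (nat_lit 25761036)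 (nat_lit 206263491809))
(L (nat_lit 28914790)))
(L (nat_lit 9358885)))
(S (nat_lit 52316) (S (nat_lit 16947) (S (nat_lit 10909) (S (nat_lit 1172) (D (nat_lit 13) (nat_lit 31009184) (nat_lit 25279858) (nat_lit 3337360772098))
(L (nat_lit 29862998)))
(L (nat_lit 29992452)))
(L (nat_lit 29739456)))
(L (nat_lit 28325480))))
(L (nat_lit 21767648)))
(L (nat_lit 5003628)))
(L (nat_lit 30482930)))
(L (nat_lit 4673448)))
(L (nat_lit 18887435)))
(L (nat_lit 13183908)))
(L (nat_lit 9258004)))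
(L (nat_lit 13725416)))
(L (nat_lit 3034478)))
(L (nat_lit 22458211)))
(L (nat_lit 27861476)))
(L (nat_lit 10089952)))
(L (nat_lit 960081)))
(L (nat_lit 9342574)))
(L (nat_lit 14360355)))
(L (nat_lit 13424868)))
(S (nat_lit 40344) (S (nat_lit 43805) (L (nat_lit 19303302))
(L (nat_lit 19296453)))
(L (nat_lit 20821220))))
(S (nat_lit 21479) (S (nat_lit 62) (S (nat_lit 8810) (S (nat_lit 35098) (S (nat_lit 40790) (L (nat_lit 29796531))
(L (nat_lit 27761846)))
(L (nat_lit 2866525)))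
(S (nat_lit 20434) (S (nat_lit 997) (L (nat_lit 26659947))
(L (nat_lit 19268859)))
(L (nat_lit 1482677))))
(S (nat_lit 19826) (S (nat_lit 28537) (S (nat_lit 57038) (S (nat_lit 40500) (S (nat_lit 41293) (S (nat_lit 20767) (S (nat_lit 54868) (S (nat_lit 21465) (S (nat_lit 1986) (S (nat_lit 28512) (S (nat_lit 14) (S (nat_lit 29175) (S (nat_lit 30774) (S (nat_lit 19828) (S (nat_lit 1279) (S (nat_lit 40757) (S (nat_lit 48992) (S (nat_lit 15508) (S (nat_lit 12089) (S (nat_lit 52297) (S (nat_lit 8006) (S (nat_lit 36485) (D (nat_lit 13) (nat_lit 28365009) (nat_lit 13945605) (nat_lit 242702620835))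
(L (nat_lit 22423396)))
(L (nat_lit 31112384)))
(L (nat_lit 21901386)))
(L (nat_lit 30093635)))
(S (nat_lit 36924) (S (nat_lit 16458) (S (nat_lit 23133) (S (nat_lit 37172) (S (nat_lit 50436) (D (nat_lit 13) (nat_lit 25384109) (nat_lit 19670501) (nat_lit 180523073729))
(L (nat_lit 30000321)))
(L (nat_lit 28745906)))
(L (nat_lit 9362981)))
(L (nat_lit 31174884)))
(L (nat_lit 16011042))))
(L (nat_lit 29542793)))
(L (nat_lit 2701690)))
(L (nat_lit 9360801)))
(L (nat_lit 9295267)))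
(L (nat_lit 9295265)))
(L (nat_lit 536186)))
(L (nat_lit 6688599)))
(L (nat_lit 2563740)))
(L (nat_lit 12027827)))
(L (nat_lit 8269971)))
(L (nat_lit 14555251)))
(L (nat_lit 22394040)))
(L (nat_lit 24914336)))
(L (nat_lit 17976234)))
(L (nat_lit 27463276)))
(L (nat_lit 25048387)))
(S (nat_lit 39590) (S (nat_lit 37274) (S (nat_lit 40768) (S (nat_lit 1262) (S (nat_lit 41271) (L (nat_lit 2629495))
(L (nat_lit 23556203)))
(L (nat_lit 13994775)))
(L (nat_lit 17424454)))
(L (nat_lit 16994212)))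
(L (nat_lit 25729765)))))
(S (nat_lit 41243) (S (nat_lit 15356) (S (nat_lit 39542) (S (nat_lit 10999) (S (nat_lit 21004) (L (nat_lit 14249995))
(L (nat_lit 6940164)))
(L (nat_lit 966898)))
(L (nat_lit 24179178)))
(S (nat_lit 35120) (S (nat_lit 39553) (S (nat_lit 28543) (S (nat_lit 40531) (S (nat_lit 37335) (S (nat_lit 39590) (S (nat_lit 21465) (S (nat_lit 11010) (S (nat_lit 15351) (S (nat_lit 1014) (S (nat_lit 21733) (S (nat_lit 2019) (S (nat_lit 41260) (S (nat_lit 57049) (S (nat_lit 37291) (S (nat_lit 54912) (S (nat_lit 19795) (S (nat_lit 1246) (S (nat_lit 15334) (S (nat_lit 17543) (S (nat_lit 57086) (S (nat_lit 39190) (S (nat_lit 15278) (S (nat_lit 18892) (S (nat_lit 19350) (S (nat_lit 8988) (D (nat_lit 13) (nat_lit 17855145) (nat_lit 25544881) (nat_lit 3335082016832))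
(L (nat_lit 31046976)))
(L (nat_lit 27662421)))
(L (nat_lit 30126337)))
(L (nat_lit 30097544)))
(S (nat_lit 56934) (S (nat_lit 10558) (S (nat_lit 8396) (S (nat_lit 52879) (S (nat_lit 23831) (S (nat_lit 13320) (D (nat_lit 13) (nat_lit 31077634) (nat_lit 19274936) (nat_lit 2267913755844))
(L (nat_lit 29859895)))
(L (nat_lit 27383208)))
(L (nat_lit 29964576)))
(L (nat_lit 27869441)))
(L (nat_lit 27867424)))
(L (nat_lit 22483197))))
(L (nat_lit 19230149)))
(L (nat_lit 1592106)))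
(L (nat_lit 1815931)))
(L (nat_lit 14328641)))
(L (nat_lit 4114735)))
(L (nat_lit 19672142)))
(L (nat_lit 2847144)))
(L (nat_lit 27281773)))
(L (nat_lit 18543840)))
(L (nat_lit 18946521)))
(L (nat_lit 30808769)))
(L (nat_lit 13478963)))
(L (nat_lit 6708096)))
(L (nat_lit 6715104)))
(L (nat_lit 871819)))
(L (nat_lit 27820746)))
(L (nat_lit 2697999)))
(L (nat_lit 18008875)))
(L (nat_lit 8803074)))
(L (nat_lit 27662025)))
(S (nat_lit 54884) (S (nat_lit 21465) (S (nat_lit 30763) (L (nat_lit 3613373))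
(L (nat_lit 31044616)))
(S (nat_lit 54725) (L (nat_lit 30517685))
(L (nat_lit 309138))))
(L (nat_lit 25466386)))))
(L (nat_lit 25304534)))))
(S (nat_lit 20798) (S (nat_lit 1047) (S (nat_lit 21465) (S (nat_lit 54868) (S (nat_lit 1986) (S (nat_lit 41503) (S (nat_lit 75) (S (nat_lit 20783) (S (nat_lit 19826) (S (nat_lit 1732) (S (nat_lit 39553) (S (nat_lit 17521) (S (nat_lit 49355) (S (nat_lit 17527) (S (nat_lit 15309) (S (nat_lit 42) (S (nat_lit 10977) (S (nat_lit 29868) (S (nat_lit 58668) (S (nat_lit 5585) (S (nat_lit 5552) (S (nat_lit 16162) (D (nat_lit 15) (nat_lit 30050671) (nat_lit 19664140) (nat_lit 74356690022))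
(L (nat_lit 28001570)))
(L (nat_lit 31113505)))
(S (nat_lit 52339) (S (nat_lit 24021) (S (nat_lit 51903) (D (nat_lit 15) (nat_lit 26917895) (nat_lit 25761101) (nat_lit 8727300167))
(L (nat_lit 13856820)))
(L (nat_lit 28982563)))
(L (nat_lit 1798663))))
(L (nat_lit 30060740)))
(L (nat_lit 22331420)))
(L (nat_lit 6736056)))
(L (nat_lit 6804665)))
(L (nat_lit 24123929)))
(L (nat_lit 7199853)))
(L (nat_lit 9354261)))
(L (nat_lit 7092374)))
(L (nat_lit 24166777)))
(L (nat_lit 2967887)))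
(L (nat_lit 2640217)))
(L (nat_lit 716169)))
(L (nat_lit 6838361)))
(L (nat_lit 18664676)))
(L (nat_lit 13887571)))
(L (nat_lit 14555219)))
(L (nat_lit 864627)))
(S (nat_lit 20811) (S (nat_lit 75) (S (nat_lit 15323) (S (nat_lit 41229) (S (nat_lit 20169) (L (nat_lit 1449875))
(L (nat_lit 7212653)))
(L (nat_lit 6450797)))
(S (nat_lit 15647) (S (nat_lit 8810) (S (nat_lit 15664) (S (nat_lit 17521) (S (nat_lit 41503) (S (nat_lit 21540) (S (nat_lit 40818) (S (nat_lit 54901) (S (nat_lit 30774) (S (nat_lit 42) (S (nat_lit 21529) (S (nat_lit 17543) (S (nat_lit 31) (S (nat_lit 30763) (S (nat_lit 21479) (S (nat_lit 30730) (S (nat_lit 54851) (S (nat_lit 54899) (S (nat_lit 4779) (S (nat_lit 42589) (S (nat_lit 17608) (S (nat_lit 50214) (S (nat_lit 30319) (D (nat_lit 13) (nat_lit 8213550) (nat_lit 25765039) (nat_lit 77349489860))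
(L (nat_lit 28397031)))
(L (nat_lit 24550179)))
(L (nat_lit 29050114)))
(L (nat_lit 29050112)))
(S (nat_lit 53522) (S (nat_lit 58912) (S (nat_lit 8952) (S (nat_lit 25334) (S (nat_lit 38388) (D (nat_lit 13) (nat_lit 3000873) (nat_lit 25767025) (nat_lit 36644755715))
(L (nat_lit 28916068)))
(L (nat_lit 28034274)))
(L (nat_lit 29761716)))
(L (nat_lit 29544842)))
(L (nat_lit 30640690))))
(L (nat_lit 27614381)))
(L (nat_lit 5465711)))
(L (nat_lit 10388045)))
(L (nat_lit 30560742)))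
(L (nat_lit 31034605)))
(L (nat_lit 8226293)))
(L (nat_lit 1505002)))
(L (nat_lit 22839722)))
(L (nat_lit 1517491)))
(L (nat_lit 2747815)))
(L (nat_lit 11985939)))
(L (nat_lit 2891219)))
(L (nat_lit 7461645)))
(L (nat_lit 18075428)))
(L (nat_lit 8131027)))
(L (nat_lit 9277843)))
(L (nat_lit 1972909)))
(L (nat_lit 252749))))
(S (nat_lit 19839) (S (nat_lit 21783) (S (nat_lit 41514) (S (nat_lit 40542) (S (nat_lit 15323) (S (nat_lit 1290) (L (nat_lit 16918419))
(L (nat_lit 9145196)))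
(L (nat_lit 6319821)))
(L (nat_lit 24941805)))
(L (nat_lit 6775891)))
(L (nat_lit 15499507)))
(S (nat_lit 39603) (S (nat_lit 41514) (S (nat_lit 40500) (S (nat_lit 15373) (S (nat_lit 28574) (S (nat_lit 41271) (L (nat_lit 21083016))
(L (nat_lit 18083891)))
(L (nat_lit 17985875)))
(L (nat_lit 15034419)))
(L (nat_lit 17965939)))
(L (nat_lit 27722963)))
(L (nat_lit 25543763)))))
(S (nat_lit 40575) (S (nat_lit 41260) (S (nat_lit 39590) (S (nat_lit 28587) (S (nat_lit 37274) (S (nat_lit 21750) (S (nat_lit 1246) (S (nat_lit 28554) (S (nat_lit 3756) (S (nat_lit 10966) (S (nat_lit 24862) (S (nat_lit 41293) (S (nat_lit 1763) (S (nat_lit 19795) (S (nat_lit 48301) (S (nat_lit 10960) (S (nat_lit 37307) (S (nat_lit 54862) (S (nat_lit 21791) (S (nat_lit 57980) (S (nat_lit 25950) (S (nat_lit 31876) (S (nat_lit 2361) (D (nat_lit 13) (nat_lit 29964611) (nat_lit 19672547) (nat_lit 2206642243720))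
(L (nat_lit 31043873)))
(L (nat_lit 28033313)))
(L (nat_lit 23300879)))
(L (nat_lit 30032129)))
(S (nat_lit 56453) (S (nat_lit 17358) (S (nat_lit 10554) (S (nat_lit 32108) (D (nat_lit 11) (nat_lit 27994252) (nat_lit 25479685) (nat_lit 212843300001))
(L (nat_lit 27853320)))
(L (nat_lit 27577762)))
(L (nat_lit 27576739)))
(L (nat_lit 28914854))))
(L (nat_lit 21193123)))
(L (nat_lit 31043812)))
(L (nat_lit 16567433)))
(L (nat_lit 22255033)))
(L (nat_lit 31077480)))
(L (nat_lit 10357488)))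
(L (nat_lit 3725159)))
(L (nat_lit 30118411)))
(L (nat_lit 23594857)))
(L (nat_lit 28999918)))
(L (nat_lit 3908400)))
(L (nat_lit 12636006)))
(L (nat_lit 16519379)))
(L (nat_lit 10368709)))
(L (nat_lit 9621052)))
(S (nat_lit 43883) (S (nat_lit 8865) (L (nat_lit 9016078))
(L (nat_lit 3908400)))
(L (nat_lit 17582437))))
(L (nat_lit 17845034)))
(L (nat_lit 25208460)))))
(S (nat_lit 40562) (S (nat_lit 15334) (S (nat_lit 1748) (S (nat_lit 10949) (S (nat_lit 21739) (S (nat_lit 21004) (S (nat_lit 35137) (L (nat_lit 17662662))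
(L (nat_lit 18713321)))
(L (nat_lit 1908431)))
(L (nat_lit 8309806)))
(S (nat_lit 21823) (L (nat_lit 26397162))
(L (nat_lit 243453))))
(S (nat_lit 21512) (S (nat_lit 10949) (S (nat_lit 8812) (S (nat_lit 15351) (S (nat_lit 40807) (S (nat_lit 20783) (S (nat_lit 39603) (L (nat_lit 3949909))
(L (nat_lit 23925190)))
(L (nat_lit 6810774)))
(L (nat_lit 16864601)))
(L (nat_lit 650608)))
(L (nat_lit 21111323)))
(L (nat_lit 6319694)))
(S (nat_lit 41276) (S (nat_lit 21141) (S (nat_lit 41271) (S (nat_lit 41304) (L (nat_lit 9925683))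
(L (nat_lit 24167773)))
(L (nat_lit 17035379)))
(S (nat_lit 21465) (S (nat_lit 40774) (S (nat_lit 39592) (S (nat_lit 40768) (L (nat_lit 17985099))
(L (nat_lit 24537377)))
(L (nat_lit 27993507)))
(L (nat_lit 24942022)))
(L (nat_lit 309074))))
(L (nat_lit 25336215)))))
(S (nat_lit 35098) (S (nat_lit 20624) (S (nat_lit 58454) (L (nat_lit 17109815))
(L (nat_lit 17027844)))
(S (nat_lit 39603) (S (nat_lit 41271) (S (nat_lit 37285) (S (nat_lit 28574) (S (nat_lit 10982) (S (nat_lit 15373) (S (nat_lit 19806) (S (nat_lit 21465) (S (nat_lit 21054) (S (nat_lit 20783) (S (nat_lit 1776) (S (nat_lit 1257) (S (nat_lit 21739) (S (nat_lit 1969) (S (nat_lit 986) (S (nat_lit 54868) (S (nat_lit 48290) (S (nat_lit 50477) (S (nat_lit 1279) (S (nat_lit 62) (S (nat_lit 37307) (S (nat_lit 57086) (S (nat_lit 54899) (S (nat_lit 41486) (S (nat_lit 1726) (S (nat_lit 47403) (S (nat_lit 39575) (S (nat_lit 33574) (S (nat_lit 57024) (S (nat_lit 54837) (S (nat_lit 40531)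 (S (nat_lit 39553) (S (nat_lit 30798) (S (nat_lit 38160) (S (nat_lit 36216) (S (nat_lit 11825) (D (nat_lit 11) (nat_lit 27965447) (nat_lit 25767365) (nat_lit 212877906981))
(L (nat_lit 27898149)))
(L (nat_lit 22312389)))
(L (nat_lit 22312420)))
(S (nat_lit 40459) (S (nat_lit 12993) (S (nat_lit 38710) (S (nat_lit 10563) (D (nat_lit 11) (nat_lit 27860141) (nat_lit 25767427) (nat_lit 212877903009))
(L (nat_lit 28891396)))
(L (nat_lit 905770)))
(L (nat_lit 28858629)))
(L (nat_lit 26884102))))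
(L (nat_lit 24549129)))
(L (nat_lit 18490144)))
(L (nat_lit 14537952)))
(L (nat_lit 13489376)))
(L (nat_lit 13333606)))
(L (nat_lit 27575876)))
(L (nat_lit 13552681)))
(L (nat_lit 12657402)))
(L (nat_lit 2516310)))
(L (nat_lit 13784843)))
(L (nat_lit 12736267)))
(L (nat_lit 13723371)))
(L (nat_lit 12740331)))
(S (nat_lit 21043) (S (nat_lit 1958) (S (nat_lit 53723) (S (nat_lit 8482) (S (nat_lit 34261) (S (nat_lit 1246) (S (nat_lit 40564) (S (nat_lit 27966) (S (nat_lit 8790) (S (nat_lit 48301) (S (nat_lit 1944) (S (nat_lit 10864) (S (nat_lit 19967) (S (nat_lit 29963) (S (nat_lit 32614) (S (nat_lit 15930) (S (nat_lit 17338) (D (nat_lit 13) (nat_lit 27546799) (nat_lit 25759088) (nat_lit 3509197080706))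
(L (nat_lit 27960868)))
(L (nat_lit 28904903)))
(L (nat_lit 10407361)))
(L (nat_lit 10341828)))
(L (nat_lit 19834337)))
(S (nat_lit 47908) (S (nat_lit 48448) (S (nat_lit 26960) (S (nat_lit 35903) (S (nat_lit 51423) (S (nat_lit 36174) (D (nat_lit 13) (nat_lit 26593453) (nat_lit 25759022) (nat_lit 4398215503077))
(L (nat_lit 19293378)))
(L (nat_lit 30061610)))
(L (nat_lit 28592581)))
(L (nat_lit 28942816)))
(L (nat_lit 19771584)))
(L (nat_lit 14458564))))
(L (nat_lit 20341929)))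
(L (nat_lit 20823209)))
(L (nat_lit 21864864)))
(L (nat_lit 13241594)))
(L (nat_lit 17007193)))
(L (nat_lit 12740262)))
(L (nat_lit 16784984)))
(L (nat_lit 7244526)))
(L (nat_lit 13535977)))
(L (nat_lit 12882589)))
(S (nat_lit 40807) (S (nat_lit 41291) (S (nat_lit 50494) (S (nat_lit 40542) (S (nat_lit 28537) (S (nat_lit 40525) (S (nat_lit 20800) (S (nat_lit 35115) (S (nat_lit 8748) (S (nat_lit 19826) (S (nat_lit 2614) (S (nat_lit 23023) (S (nat_lit 46449) (S (nat_lit 2631) (S (nat_lit 25976) (D (nat_lit 13) (nat_lit 29689234) (nat_lit 15470153) (nat_lit 104223217729))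
(L (nat_lit 23490913)))
(L (nat_lit 30966406)))
(L (nat_lit 28916839)))
(L (nat_lit 28916992)))
(S (nat_lit 46047) (S (nat_lit 54267) (S (nat_lit 46977) (S (nat_lit 7025) (D (nat_lit 11) (nat_lit 31139980) (nat_lit 25479342) (nat_lit 106438957062))
(L (nat_lit 31043875)))
(L (nat_lit 2971146)))
(L (nat_lit 2970123)))
(L (nat_lit 3988748))))
(L (nat_lit 15402331)))
(L (nat_lit 1784582)))
(L (nat_lit 20051310)))
(L (nat_lit 14934592)))
(L (nat_lit 17391840)))
(L (nat_lit 8414647)))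
(L (nat_lit 16803058)))
(L (nat_lit 12289465)))
(L (nat_lit 28021288)))
(L (nat_lit 25734721)))))
(L (nat_lit 27473476)))
(L (nat_lit 27472452)))
(L (nat_lit 27662946)))
(L (nat_lit 26497505)))
(L (nat_lit 20029979)))
(L (nat_lit 30656961)))
(L (nat_lit 13830067)))
(L (nat_lit 13830003)))
(L (nat_lit 30606929)))
(L (nat_lit 30416371)))
(L (nat_lit 16094099)))
(L (nat_lit 30876819)))
(L (nat_lit 7491377)))
(L (nat_lit 7884581)))
(L (nat_lit 18213477)))
(L (nat_lit 2863912)))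
(L (nat_lit 18652274)))
(L (nat_lit 23859687))))
(S (nat_lit 54862) (S (nat_lit 21739) (S (nat_lit 21465) (S (nat_lit 20783) (S (nat_lit 54868) (L (nat_lit 23433659))
(L (nat_lit 14256008)))
(L (nat_lit 388534)))
(L (nat_lit 649609)))
(L (nat_lit 22983815)))
(L (nat_lit 25708898)))))
(L (nat_lit 25692470)))))
(L (nat_lit 25506994)))))
(S (nat_lit 37324) (S (nat_lit 10935) (S (nat_lit 31) (S (nat_lit 15384) (S (nat_lit 40774) (S (nat_lit 41260) (S (nat_lit 40542) (S (nat_lit 8823) (L (nat_lit 2964692))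
(L (nat_lit 7837433)))
(L (nat_lit 24588036)))
(L (nat_lit 23900389)))
(S (nat_lit 46933) (S (nat_lit 40531) (L (nat_lit 8022029))
(L (nat_lit 7829157)))
(L (nat_lit 23898158))))
(S (nat_lit 35148) (S (nat_lit 24293) (S (nat_lit 42806) (L (nat_lit 13422759))
(L (nat_lit 8545901)))
(S (nat_lit 41260) (S (nat_lit 40774) (L (nat_lit 352725))
(L (nat_lit 23900203)))
(L (nat_lit 23892206))))
(S (nat_lit 54912) (S (nat_lit 15373) (S (nat_lit 21041) (S (nat_lit 21527) (L (nat_lit 5094614))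
(L (nat_lit 838864)))
(L (nat_lit 7130128)))
(S (nat_lit 35137) (S (nat_lit 986) (S (nat_lit 2019) (S (nat_lit 30741) (S (nat_lit 41486) (L (nat_lit 20747501))
(L (nat_lit 23445282)))
(L (nat_lit 8839776)))
(L (nat_lit 13638296)))
(S (nat_lit 4118) (L (nat_lit 7008269))
(L (nat_lit 8835905))))
(S (nat_lit 54901) (S (nat_lit 40525) (S (nat_lit 40785) (L (nat_lit 22177286))
(L (nat_lit 17887475)))
(L (nat_lit 9887796)))
(L (nat_lit 25352713)))))
(L (nat_lit 25315632)))))
(S (nat_lit 19795) (S (nat_lit 17521) (S (nat_lit 8823) (S (nat_lit 40514) (S (nat_lit 41243) (L (nat_lit 23954668))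
(L (nat_lit 1949014)))
(L (nat_lit 1949046)))
(S (nat_lit 28587) (S (nat_lit 5310) (L (nat_lit 28022894))
(S (nat_lit 40774) (S (nat_lit 40785) (L (nat_lit 24189404))
(L (nat_lit 2320077)))
(L (nat_lit 10131247))))
(S (nat_lit 48351) (S (nat_lit 1986) (S (nat_lit 28537) (L (nat_lit 5912456))
(L (nat_lit 9322082)))
(L (nat_lit 26716178)))
(L (nat_lit 25661718)))))
(S (nat_lit 37285) (S (nat_lit 1262) (S (nat_lit 8810) (S (nat_lit 28576) (S (nat_lit 28537) (L (nat_lit 17433384))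
(L (nat_lit 10294897)))
(L (nat_lit 8898584)))
(L (nat_lit 26713701)))
(S (nat_lit 21026) (S (nat_lit 8810) (S (nat_lit 40768) (L (nat_lit 18456481))
(L (nat_lit 9853697)))
(L (nat_lit 26713700)))
(S (nat_lit 40790) (S (nat_lit 28537) (S (nat_lit 40562) (L (nat_lit 17439522))
(L (nat_lit 3689720)))
(L (nat_lit 2766632)))
(L (nat_lit 25319760)))))
(S (nat_lit 57049) (S (nat_lit 42) (S (nat_lit 20736) (L (nat_lit 5663955))
(S (nat_lit 26493) (L (nat_lit 6386067))
(L (nat_lit 6451821))))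
(S (nat_lit 19806) (S (nat_lit 1986) (S (nat_lit 19839) (S (nat_lit 35073) (L (nat_lit 17886791))
(L (nat_lit 3928302)))
(L (nat_lit 9168321)))
(S (nat_lit 6306) (L (nat_lit 465719))
(L (nat_lit 3626923))))
(S (nat_lit 39570) (S (nat_lit 40542) (L (nat_lit 8475437))
(L (nat_lit 16995076)))
(L (nat_lit 25829516)))))
(L (nat_lit 25209488)))))
(S (nat_lit 39559) (S (nat_lit 15384) (S (nat_lit 15340) (S (nat_lit 1991) (S (nat_lit 41243) (L (nat_lit 12432434))
(L (nat_lit 8993816)))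
(S (nat_lit 21755) (S (nat_lit 15309) (S (nat_lit 40805) (L (nat_lit 2778416))
(L (nat_lit 314936)))
(L (nat_lit 8180782)))
(S (nat_lit 41519) (S (nat_lit 39542) (S (nat_lit 30741) (S (nat_lit 30724) (S (nat_lit 33606) (L (nat_lit 14316646))
(L (nat_lit 25009568)))
(L (nat_lit 8403767)))
(L (nat_lit 9980704)))
(L (nat_lit 23312504)))
(L (nat_lit 25681184)))))
(S (nat_lit 35104) (S (nat_lit 41260) (S (nat_lit 40774) (L (nat_lit 23954668))
(L (nat_lit 23112494)))
(L (nat_lit 23302958)))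
(S (nat_lit 54868) (S (nat_lit 15309) (S (nat_lit 225) (L (nat_lit 17538074))
(S (nat_lit 39592) (S (nat_lit 30746) (S (nat_lit 17510) (S (nat_lit 48276) (S (nat_lit 1986) (S (nat_lit 56713) (L (nat_lit 3390172))
(L (nat_lit 18730209)))
(L (nat_lit 5586680)))
(L (nat_lit 27998433)))
(L (nat_lit 7114260)))
(L (nat_lit 8940597)))
(L (nat_lit 23411737))))
(L (nat_lit 22807047)))
(L (nat_lit 25794636)))))
(S (nat_lit 35148) (S (nat_lit 42) (S (nat_lit 41503) (S (nat_lit 28537) (S (nat_lit 30713) (S (nat_lit 36867) (S (nat_lit 24103) (L (nat_lit 3355261))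
(L (nat_lit 1731824)))
(L (nat_lit 28462318)))
(L (nat_lit 8451507)))
(L (nat_lit 9322082)))
(L (nat_lit 2766634)))
(S (nat_lit 19806) (S (nat_lit 31667) (L (nat_lit 2640650))
(S (nat_lit 40768) (S (nat_lit 41534) (L (nat_lit 17917638))
(L (nat_lit 23635776)))
(L (nat_lit 23471873))))
(S (nat_lit 39570) (S (nat_lit 28678) (S (nat_lit 21722) (S (nat_lit 41534) (S (nat_lit 15309) (L (nat_lit 24969702))
(L (nat_lit 22569991)))
(L (nat_lit 17542912)))
(L (nat_lit 11091001)))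
(S (nat_lit 40790) (S (nat_lit 10949) (S (nat_lit 15334) (S (nat_lit 41260) (L (nat_lit 23115686))
(L (nat_lit 23564540)))
(L (nat_lit 26268012)))
(L (nat_lit 26265902)))
(L (nat_lit 24002729))))
(L (nat_lit 25666241)))))
(S (nat_lit 54912) (S (nat_lit 1047) (S (nat_lit 1986) (S (nat_lit 17510) (S (nat_lit 28537) (S (nat_lit 19826) (S (nat_lit 50494) (S (nat_lit 40525) (S (nat_lit 21722) (S (nat_lit 57066) (S (nat_lit 35098) (S (nat_lit 11260) (L (nat_lit 2373274))
(S (nat_lit 17496) (S (nat_lit 28689) (L (nat_lit 217530))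
(L (nat_lit 21198306)))
(L (nat_lit 255479))))
(L (nat_lit 12784285)))
(L (nat_lit 19801472)))
(L (nat_lit 30803622)))
(L (nat_lit 23469888)))
(L (nat_lit 12289837)))
(L (nat_lit 31163914)))
(L (nat_lit 18027314)))
(L (nat_lit 24917099)))
(S (nat_lit 20907) (L (nat_lit 8876147))
(L (nat_lit 14484754))))
(S (nat_lit 20811) (S (nat_lit 7523) (L (nat_lit 8087045))
(S (nat_lit 17510) (S (nat_lit 997) (S (nat_lit 21722) (S (nat_lit 40547) (S (nat_lit 1986) (S (nat_lit 35098) (S (nat_lit 15356) (S (nat_lit 50494) (S (nat_lit 19826) (S (nat_lit 28537) (S (nat_lit 21708) (S (nat_lit 64) (L (nat_lit 1777553))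
(L (nat_lit 19458274)))
(S (nat_lit 37693) (L (nat_lit 6405722))
(L (nat_lit 16380009))))
(L (nat_lit 19129484)))
(L (nat_lit 30940901)))
(L (nat_lit 13180803)))
(L (nat_lit 7157412)))
(L (nat_lit 3389085)))
(L (nat_lit 20782597)))
(L (nat_lit 9454454)))
(L (nat_lit 21427240)))
(L (nat_lit 19702831)))
(L (nat_lit 7900796))))
(S (nat_lit 40575) (S (nat_lit 41304) (S (nat_lit 40818) (S (nat_lit 40774) (L (nat_lit 29000166))
(L (nat_lit 23114539)))
(L (nat_lit 2344755)))
(L (nat_lit 8439603)))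
(L (nat_lit 25221578)))))
(L (nat_lit 25761070)))))
(L (nat_lit 25243957)))))
(S (nat_lit 30699) (S (nat_lit 62) (S (nat_lit 1003) (S (nat_lit 15373) (S (nat_lit 1290) (S (nat_lit 40525) (L (nat_lit 6960187))
(L (nat_lit 17750059)))
(S (nat_lit 52090) (S (nat_lit 10982) (L (nat_lit 30919875))
(L (nat_lit 871630)))
(L (nat_lit 14584018))))
(S (nat_lit 35137) (S (nat_lit 37274) (S (nat_lit 37302) (S (nat_lit 35087) (S (nat_lit 972) (S (nat_lit 41514) (S (nat_lit 8823) (S (nat_lit 31) (S (nat_lit 1653) (L (nat_lit 16849561))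
(S (nat_lit 15371) (S (nat_lit 31566) (L (nat_lit 15867485))
(L (nat_lit 28727488)))
(L (nat_lit 17457291))))
(L (nat_lit 7155796)))
(L (nat_lit 8042336)))
(L (nat_lit 9069580)))
(L (nat_lit 14470466)))
(L (nat_lit 9172356)))
(L (nat_lit 23344929)))
(L (nat_lit 23279364)))
(S (nat_lit 54901) (S (nat_lit 1229) (S (nat_lit 35120) (S (nat_lit 19789) (L (nat_lit 14553461))
(L (nat_lit 8984431)))
(L (nat_lit 20886724)))
(S (nat_lit 17009) (S (nat_lit 1743) (L (nat_lit 14291197))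
(L (nat_lit 13817769)))
(L (nat_lit 14225629))))
(L (nat_lit 25314518)))))
(S (nat_lit 20767) (S (nat_lit 8810) (S (nat_lit 8773) (S (nat_lit 8748) (S (nat_lit 47) (S (nat_lit 41514) (S (nat_lit 37302) (S (nat_lit 25) (S (nat_lit 42810) (L (nat_lit 11684408))
(L (nat_lit 28973072)))
(L (nat_lit 19077039)))
(L (nat_lit 13949728)))
(L (nat_lit 23228620)))
(L (nat_lit 7822085)))
(L (nat_lit 244376)))
(L (nat_lit 26683575)))
(S (nat_lit 28574) (S (nat_lit 25) (S (nat_lit 15373) (S (nat_lit 17543) (L (nat_lit 28492021))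
(L (nat_lit 635690)))
(L (nat_lit 6478363)))
(S (nat_lit 19690) (L (nat_lit 1324948))
(L (nat_lit 13889717))))
(S (nat_lit 48338) (S (nat_lit 37302) (S (nat_lit 41486) (S (nat_lit 8773) (S (nat_lit 20736) (S (nat_lit 8823) (S (nat_lit 48276) (S (nat_lit 17543) (S (nat_lit 17521) (S (nat_lit 25) (S (nat_lit 54851) (S (nat_lit 40768) (L (nat_lit 242396))
(L (nat_lit 27903201)))
(L (nat_lit 27477604)))
(S (nat_lit 40192) (L (nat_lit 11156668))
(L (nat_lit 6943266))))
(L (nat_lit 7369360)))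
(L (nat_lit 7434802)))
(L (nat_lit 14522388)))
(L (nat_lit 6477208)))
(L (nat_lit 6894748)))
(L (nat_lit 7126627)))
(L (nat_lit 7192192)))
(L (nat_lit 14584181)))
(L (nat_lit 25854379)))))
(S (nat_lit 40531) (S (nat_lit 15373) (S (nat_lit 41486) (S (nat_lit 40562) (S (nat_lit 37302) (S (nat_lit 8773) (S (nat_lit 41514) (S (nat_lit 37274) (S (nat_lit 31) (S (nat_lit 21860) (L (nat_lit 3457723))
(S (nat_lit 39553) (S (nat_lit 8779) (S (nat_lit 8748) (S (nat_lit 37307) (S (nat_lit 40768) (L (nat_lit 16449785))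
(L (nat_lit 27678948)))
(L (nat_lit 9180908)))
(L (nat_lit 23599872)))
(L (nat_lit 23927330)))
(L (nat_lit 23958024))))
(L (nat_lit 26909123)))
(L (nat_lit 2323988)))
(L (nat_lit 27416073)))
(L (nat_lit 7130257)))
(L (nat_lit 2379569)))
(L (nat_lit 24678648)))
(S (nat_lit 48994) (L (nat_lit 6474204))
(L (nat_lit 24306929))))
(S (nat_lit 35137) (S (nat_lit 41514) (S (nat_lit 8773) (S (nat_lit 37274) (S (nat_lit 40500) (S (nat_lit 30730) (S (nat_lit 35115) (S (nat_lit 8823) (S (nat_lit 14020) (L (nat_lit 26543666))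
(S (nat_lit 40757) (L (nat_lit 7456347))
(L (nat_lit 17127298))))
(L (nat_lit 1392376)))
(L (nat_lit 8517262)))
(L (nat_lit 9361923)))
(L (nat_lit 17044093)))
(L (nat_lit 2313998)))
(L (nat_lit 800360)))
(L (nat_lit 23553221)))
(S (nat_lit 54901) (S (nat_lit 32587) (S (nat_lit 1732) (L (nat_lit 22177223))
(L (nat_lit 26725383)))
(S (nat_lit 40785) (S (nat_lit 41271) (S (nat_lit 43885) (L (nat_lit 19021021))
(L (nat_lit 13785000)))
(L (nat_lit 3663058)))
(L (nat_lit 9950237))))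
(L (nat_lit 25665587)))))
(L (nat_lit 25643365)))))
(S (nat_lit 19826) (S (nat_lit 15373) (S (nat_lit 21783) (S (nat_lit 15941) (L (nat_lit 15028000))
(S (nat_lit 35135) (S (nat_lit 40564) (L (nat_lit 14354681))
(L (nat_lit 4018511)))
(L (nat_lit 8841396))))
(S (nat_lit 41187) (S (nat_lit 10982) (L (nat_lit 14326845))
(L (nat_lit 7165412)))
(L (nat_lit 15499507))))
(S (nat_lit 35137) (S (nat_lit 15470) (L (nat_lit 9213617))
(S (nat_lit 35135) (S (nat_lit 40818) (S (nat_lit 28574) (S (nat_lit 30713) (S (nat_lit 41534) (L (nat_lit 30617623))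
(L (nat_lit 2673880)))
(L (nat_lit 2318771)))
(L (nat_lit 9274803)))
(S (nat_lit 40971) (L (nat_lit 2877898))
(L (nat_lit 2826028))))
(L (nat_lit 23589002))))
(S (nat_lit 54901) (S (nat_lit 35135) (S (nat_lit 17543) (S (nat_lit 2019) (S (nat_lit 48276) (S (nat_lit 997) (S (nat_lit 1047) (L (nat_lit 3567826))
(L (nat_lit 14361625)))
(L (nat_lit 9230848)))
(L (nat_lit 13861531)))
(L (nat_lit 20148677)))
(S (nat_lit 37208) (L (nat_lit 23923948))
(L (nat_lit 24211694))))
(S (nat_lit 45462) (L (nat_lit 2509609))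
(L (nat_lit 2693935))))
(L (nat_lit 25342632)))))
(S (nat_lit 39590) (S (nat_lit 1748) (S (nat_lit 10908) (L (nat_lit 13824615))
(S (nat_lit 37274) (S (nat_lit 40575) (S (nat_lit 41553) (L (nat_lit 30808737))
(L (nat_lit 17747137)))
(L (nat_lit 17652068)))
(L (nat_lit 13641433))))
(S (nat_lit 21512) (S (nat_lit 37274) (S (nat_lit 40807) (S (nat_lit 40575) (L (nat_lit 23082235))
(L (nat_lit 24682276)))
(L (nat_lit 17011289)))
(S (nat_lit 56956) (S (nat_lit 1229) (L (nat_lit 2796061))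
(L (nat_lit 12872854)))
(L (nat_lit 13641433))))
(S (nat_lit 41276) (S (nat_lit 10999) (S (nat_lit 22107) (S (nat_lit 40575) (L (nat_lit 25009568))
(L (nat_lit 23316258)))
(S (nat_lit 35148) (S (nat_lit 28576) (S (nat_lit 40575) (L (nat_lit 17734706))
(L (nat_lit 23316258)))
(L (nat_lit 3498705)))
(L (nat_lit 23442522))))
(S (nat_lit 30763) (S (nat_lit 41514) (S (nat_lit 37274) (S (nat_lit 41260) (L (nat_lit 25008544))
(L (nat_lit 3624188)))
(L (nat_lit 30652100)))
(L (nat_lit 8868893)))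
(S (nat_lit 50527) (S (nat_lit 1014) (S (nat_lit 37302) (L (nat_lit 20182161))
(L (nat_lit 17747297)))
(L (nat_lit 9261101)))
(L (nat_lit 25343191)))))
(L (nat_lit 25352497)))))
(L (nat_lit 25690859)))))
(S (nat_lit 50463) (S (nat_lit 1986) (S (nat_lit 10982) (S (nat_lit 1257) (S (nat_lit 1047) (L (nat_lit 17663186))
(L (nat_lit 13509651)))
(S (nat_lit 21021) (L (nat_lit 13918227))
(S (nat_lit 40785) (L (nat_lit 17036307))
(L (nat_lit 25219308)))))
(S (nat_lit 30746) (S (nat_lit 15340) (S (nat_lit 57066) (L (nat_lit 6707227))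
(L (nat_lit 15001152)))
(S (nat_lit 35104) (L (nat_lit 8852243))
(S (nat_lit 54868) (S (nat_lit 19778) (S (nat_lit 1014) (L (nat_lit 12437549))
(L (nat_lit 8574892)))
(L (nat_lit 8804261)))
(L (nat_lit 25805059)))))
(S (nat_lit 50510) (S (nat_lit 1246) (S (nat_lit 1958) (S (nat_lit 20761) (L (nat_lit 20747501))
(L (nat_lit 15295526)))
(L (nat_lit 26818598)))
(S (nat_lit 21010) (S (nat_lit 20811) (L (nat_lit 28625380))
(L (nat_lit 16636100)))
(S (nat_lit 40774) (S (nat_lit 21540) (L (nat_lit 23313465))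
(L (nat_lit 14902291)))
(L (nat_lit 25307605)))))
(L (nat_lit 25440307)))))
(S (nat_lit 21750) (S (nat_lit 1036) (S (nat_lit 47) (S (nat_lit 20366) (L (nat_lit 2796335))
(S (nat_lit 40774) (L (nat_lit 17662162))
(L (nat_lit 2766201))))
(S (nat_lit 19811) (S (nat_lit 39590) (S (nat_lit 28576) (S (nat_lit 48301) (S (nat_lit 10982) (S (nat_lit 40547) (S (nat_lit 50488) (S (nat_lit 8007) (L (nat_lit 3390076))
(L (nat_lit 10153507)))
(L (nat_lit 4864345)))
(L (nat_lit 3629335)))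
(L (nat_lit 23965220)))
(L (nat_lit 27317585)))
(L (nat_lit 9866973)))
(L (nat_lit 17527946)))
(S (nat_lit 39575) (S (nat_lit 17496) (S (nat_lit 28587) (S (nat_lit 57038) (S (nat_lit 40542) (S (nat_lit 38227) (L (nat_lit 4865337))
(L (nat_lit 24511709)))
(L (nat_lit 24493828)))
(L (nat_lit 4453070)))
(L (nat_lit 30784598)))
(L (nat_lit 26262741)))
(L (nat_lit 25282155)))))
(S (nat_lit 20800) (S (nat_lit 22916) (S (nat_lit 47396) (L (nat_lit 11550647))
(L (nat_lit 23469114)))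
(S (nat_lit 48301) (S (nat_lit 38191) (L (nat_lit 6447693))
(S (nat_lit 39590) (S (nat_lit 40514) (S (nat_lit 1958) (S (nat_lit 10966) (S (nat_lit 57038) (S (nat_lit 28587) (S (nat_lit 19795) (S (nat_lit 19778) (S (nat_lit 39570) (S (nat_lit 64) (S (nat_lit 18328) (S (nat_lit 46528) (L (nat_lit 12097240))
(L (nat_lit 19707236)))
(S (nat_lit 28554) (S (nat_lit 15334) (S (nat_lit 21021) (L (nat_lit 4469437))
(L (nat_lit 15393059)))
(L (nat_lit 22278627)))
(L (nat_lit 2860474))))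
(L (nat_lit 13522147)))
(L (nat_lit 27742342)))
(S (nat_lit 22397) (L (nat_lit 4510605))
(S (nat_lit 54456) (S (nat_lit 42666) (L (nat_lit 13706099))
(L (nat_lit 22886690)))
(L (nat_lit 3547927)))))
(L (nat_lit 15632009)))
(L (nat_lit 9223744)))
(L (nat_lit 14928984)))
(L (nat_lit 1359450)))
(L (nat_lit 20234048)))
(L (nat_lit 17059864)))
(L (nat_lit 11040453))))
(L (nat_lit 4439895))))
(S (nat_lit 40564) (S (nat_lit 8790) (S (nat_lit 1104) (L (nat_lit 15565011))
(S (nat_lit 20778) (S (nat_lit 21868) (S (nat_lit 19795) (L (nat_lit 8900636))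
(L (nat_lit 21469277)))
(S (nat_lit 40818) (S (nat_lit 14) (L (nat_lit 486611))
(L (nat_lit 19086428)))
(L (nat_lit 16801578))))
(L (nat_lit 15398114))))
(S (nat_lit 28554) (S (nat_lit 1765) (S (nat_lit 20979) (L (nat_lit 9524015))
(L (nat_lit 1503507)))
(S (nat_lit 30815) (L (nat_lit 7422835))
(L (nat_lit 26320494))))
(S (nat_lit 48318) (S (nat_lit 20778) (S (nat_lit 14) (S (nat_lit 35098) (S (nat_lit 17558) (S (nat_lit 54884) (S (nat_lit 39590) (S (nat_lit 19806) (S (nat_lit 19795) (S (nat_lit 41243) (L (nat_lit 4406872))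
(L (nat_lit 7176848)))
(L (nat_lit 30716579)))
(L (nat_lit 10227436)))
(L (nat_lit 28023985)))
(L (nat_lit 27541156)))
(L (nat_lit 6708413)))
(L (nat_lit 30654082)))
(S (nat_lit 32855) (S (nat_lit 15052) (L (nat_lit 21436327))
(L (nat_lit 19087205)))
(L (nat_lit 1855946))))
(S (nat_lit 35442) (L (nat_lit 581846))
(L (nat_lit 16699618))))
(L (nat_lit 25928161)))))
(L (nat_lit 25280107)))))
(S (nat_lit 41514) (S (nat_lit 10999) (S (nat_lit 17521) (S (nat_lit 21783) (S (nat_lit 15356) (S (nat_lit 21054) (L (nat_lit 8008730))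
(L (nat_lit 7038405)))
(L (nat_lit 7163917)))
(L (nat_lit 8181805)))
(S (nat_lit 37285) (S (nat_lit 15373) (S (nat_lit 41260) (L (nat_lit 11105292))
(L (nat_lit 7009295)))
(L (nat_lit 388563)))
(S (nat_lit 57049) (S (nat_lit 410) (L (nat_lit 23630041))
(S (nat_lit 17496) (S (nat_lit 10982) (S (nat_lit 15323) (L (nat_lit 28393683))
(L (nat_lit 6352436)))
(L (nat_lit 6835229)))
(L (nat_lit 24944097))))
(L (nat_lit 25377346)))))
(S (nat_lit 30763) (S (nat_lit 8790) (S (nat_lit 28721) (L (nat_lit 16784093))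
(S (nat_lit 41291) (S (nat_lit 40774) (L (nat_lit 15517891))
(L (nat_lit 16936149)))
(L (nat_lit 17558723))))
(S (nat_lit 28554) (S (nat_lit 1003) (S (nat_lit 40542) (S (nat_lit 35115) (L (nat_lit 26681394))
(L (nat_lit 23343905)))
(L (nat_lit 17432829)))
(L (nat_lit 8577524)))
(S (nat_lit 48318) (S (nat_lit 40818) (L (nat_lit 6146253))
(L (nat_lit 16799963)))
(L (nat_lit 25484705)))))
(S (nat_lit 50527) (S (nat_lit 17496) (S (nat_lit 20750) (S (nat_lit 8748) (L (nat_lit 20004056))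
(L (nat_lit 21807111)))
(L (nat_lit 423127)))
(S (nat_lit 37260) (S (nat_lit 47) (S (nat_lit 8748) (S (nat_lit 41497) (S (nat_lit 50510) (S (nat_lit 64) (S (nat_lit 37307) (S (nat_lit 11583) (L (nat_lit 11948220))
(S (nat_lit 19778) (L (nat_lit 14833515))
(L (nat_lit 30609041))))
(L (nat_lit 17737746)))
(L (nat_lit 7917595)))
(L (nat_lit 15504595)))
(L (nat_lit 17094684)))
(L (nat_lit 17458369)))
(L (nat_lit 26683414)))
(S (nat_lit 57024) (S (nat_lit 40818) (L (nat_lit 29367698))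
(L (nat_lit 27345107)))
(L (nat_lit 25925649)))))
(L (nat_lit 25867273)))))
(L (nat_lit 25868549)))))
(L (nat_lit 25664532)))))
(S (nat_lit 57088) (S (nat_lit 1732) (S (nat_lit 1958) (S (nat_lit 54899) (S (nat_lit 21010) (L (nat_lit 21468074))
(S (nat_lit 37467) (L (nat_lit 29829299))
(L (nat_lit 4999654))))
(L (nat_lit 14505098)))
(S (nat_lit 21722) (S (nat_lit 1246) (S (nat_lit 40743) (L (nat_lit 415064))
(L (nat_lit 18000755)))
(L (nat_lit 19737025)))
(S (nat_lit 41486) (S (nat_lit 31) (S (nat_lit 1246) (S (nat_lit 997) (L (nat_lit 8786773))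
(L (nat_lit 19165230)))
(L (nat_lit 20785636)))
(S (nat_lit 19795) (S (nat_lit 28587) (L (nat_lit 9004047))
(L (nat_lit 2745614)))
(S (nat_lit 39559) (L (nat_lit 17436921))
(L (nat_lit 25643081)))))
(L (nat_lit 25546800)))))
(S (nat_lit 21496) (S (nat_lit 17527) (S (nat_lit 64) (S (nat_lit 1262) (S (nat_lit 20783) (S (nat_lit 1765) (S (nat_lit 48338) (L (nat_lit 19204942))
(L (nat_lit 16112389)))
(L (nat_lit 26779237)))
(L (nat_lit 15900281)))
(S (nat_lit 21026) (S (nat_lit 20783) (S (nat_lit 21755) (L (nat_lit 1720571))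
(L (nat_lit 7390843)))
(L (nat_lit 957846)))
(S (nat_lit 40790) (S (nat_lit 20750) (S (nat_lit 42) (L (nat_lit 1713593))
(L (nat_lit 19342240)))
(S (nat_lit 48645) (L (nat_lit 24674525))
(L (nat_lit 6438838))))
(L (nat_lit 25823505)))))
(S (nat_lit 19828) (S (nat_lit 10935) (S (nat_lit 15309) (S (nat_lit 50510) (S (nat_lit 39559) (L (nat_lit 11358255))
(L (nat_lit 4693813)))
(L (nat_lit 28027918)))
(L (nat_lit 26975248)))
(L (nat_lit 18652180)))
(S (nat_lit 39592) (S (nat_lit 41254) (S (nat_lit 20155) (L (nat_lit 17748072))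
(S (nat_lit 28587) (S (nat_lit 40564) (S (nat_lit 21465) (L (nat_lit 23261575))
(L (nat_lit 7760019)))
(L (nat_lit 18149524)))
(L (nat_lit 24450990))))
(S (nat_lit 48142) (L (nat_lit 607451))
(L (nat_lit 17368281))))
(L (nat_lit 25528943)))))
(S (nat_lit 37291) (S (nat_lit 47) (S (nat_lit 8812) (S (nat_lit 25542) (L (nat_lit 1781177))
(S (nat_lit 48758) (L (nat_lit 1781177))
(L (nat_lit 19672111))))
(S (nat_lit 28576) (S (nat_lit 997) (S (nat_lit 35073) (L (nat_lit 31048742))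
(L (nat_lit 12611831)))
(L (nat_lit 19296485)))
(S (nat_lit 48340) (S (nat_lit 1229) (S (nat_lit 1726) (L (nat_lit 12593941))
(L (nat_lit 19197999)))
(S (nat_lit 24964) (L (nat_lit 7799731))
(L (nat_lit 5872496))))
(L (nat_lit 25661064)))))
(S (nat_lit 19811) (S (nat_lit 17496) (S (nat_lit 10977) (S (nat_lit 10982) (S (nat_lit 28576) (S (nat_lit 15323) (L (nat_lit 18797610))
(L (nat_lit 1843919)))
(L (nat_lit 9947192)))
(L (nat_lit 618702)))
(L (nat_lit 8238262)))
(S (nat_lit 55462) (L (nat_lit 17575027))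
(L (nat_lit 513241))))
(S (nat_lit 39575) (S (nat_lit 332) (S (nat_lit 8823) (L (nat_lit 838927))
(L (nat_lit 23261486)))
(S (nat_lit 10960) (S (nat_lit 17571) (S (nat_lit 17543) (S (nat_lit 41243) (S (nat_lit 28512) (L (nat_lit 24427579))
(L (nat_lit 19359936)))
(L (nat_lit 27664033)))
(L (nat_lit 18714836)))
(L (nat_lit 16061049)))
(L (nat_lit 217008))))
(L (nat_lit 25483652)))))
(S (nat_lit 57055) (S (nat_lit 11010) (S (nat_lit 986) (S (nat_lit 40564) (S (nat_lit 29223) (L (nat_lit 17706132))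
(L (nat_lit 15308860)))
(L (nat_lit 8148111)))
(S (nat_lit 54290) (S (nat_lit 21722) (L (nat_lit 26546581))
(L (nat_lit 21165296)))
(L (nat_lit 26628449))))
(S (nat_lit 30774) (S (nat_lit 17496) (S (nat_lit 40768) (S (nat_lit 40564) (L (nat_lit 20181039))
(L (nat_lit 1365401)))
(L (nat_lit 7734012)))
(S (nat_lit 37260) (S (nat_lit 40564) (S (nat_lit 40805) (L (nat_lit 2408153))
(L (nat_lit 17582151)))
(L (nat_lit 27317519)))
(S (nat_lit 57024) (S (nat_lit 21004) (S (nat_lit 47) (L (nat_lit 682189))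
(L (nat_lit 13931132)))
(L (nat_lit 1449845)))
(L (nat_lit 25384481)))))
(S (nat_lit 50538) (S (nat_lit 47) (S (nat_lit 75) (S (nat_lit 20811) (L (nat_lit 19738848))
(L (nat_lit 902515)))
(L (nat_lit 13505191)))
(S (nat_lit 19811) (S (nat_lit 997) (S (nat_lit 20798) (L (nat_lit 29445328))
(L (nat_lit 30520566)))
(S (nat_lit 40112) (L (nat_lit 13948804))
(L (nat_lit 11137541))))
(S (nat_lit 39575) (S (nat_lit 21010) (S (nat_lit 40500) (S (nat_lit 39592) (L (nat_lit 28484018))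
(L (nat_lit 5992655)))
(L (nat_lit 17404253)))
(L (nat_lit 14903445)))
(L (nat_lit 25634870)))))
(L (nat_lit 25570388)))))
(L (nat_lit 25286056)))))
(S (nat_lit 41260) (S (nat_lit 2006) (S (nat_lit 1975) (S (nat_lit 2019) (S (nat_lit 1277) (L (nat_lit 9167917))
(L (nat_lit 26947808)))
(S (nat_lit 21783) (S (nat_lit 40531) (L (nat_lit 27483589))
(L (nat_lit 24947141)))
(S (nat_lit 41547) (S (nat_lit 15384) (S (nat_lit 21624) (L (nat_lit 6874199))
(L (nat_lit 24405037)))
(S (nat_lit 53596) (L (nat_lit 324270))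
(L (nat_lit 6886254))))
(L (nat_lit 25921869)))))
(S (nat_lit 21739) (S (nat_lit 3280) (S (nat_lit 1240) (L (nat_lit 1762857))
(L (nat_lit 8843285)))
(S (nat_lit 10982) (L (nat_lit 969965))
(L (nat_lit 7155733))))
(S (nat_lit 41503) (S (nat_lit 1240) (S (nat_lit 40531) (S (nat_lit 48351) (L (nat_lit 351054))
(L (nat_lit 27604084)))
(L (nat_lit 17142425)))
(S (nat_lit 21004) (S (nat_lit 21010) (S (nat_lit 64) (L (nat_lit 6202837))
(L (nat_lit 933109)))
(L (nat_lit 16534571)))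
(S (nat_lit 40768) (S (nat_lit 40525) (S (nat_lit 40564) (S (nat_lit 54901) (L (nat_lit 12903445))
(L (nat_lit 14230588)))
(L (nat_lit 18083925)))
(L (nat_lit 1656057)))
(L (nat_lit 25559349)))))
(L (nat_lit 25310548)))))
(S (nat_lit 21770) (S (nat_lit 11010) (S (nat_lit 40807) (S (nat_lit 1290) (L (nat_lit 26555414))
(L (nat_lit 11235373)))
(L (nat_lit 23392430)))
(S (nat_lit 30774) (S (nat_lit 40531) (S (nat_lit 37322) (L (nat_lit 9325613))
(L (nat_lit 9229765)))
(L (nat_lit 18205884)))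
(S (nat_lit 50538) (S (nat_lit 1162) (L (nat_lit 4673451))
(S (nat_lit 40531) (S (nat_lit 54912) (S (nat_lit 41377) (L (nat_lit 27611182))
(L (nat_lit 19676388)))
(L (nat_lit 27857166)))
(L (nat_lit 1259316))))
(L (nat_lit 25344308)))))
(S (nat_lit 41534) (S (nat_lit 15351) (S (nat_lit 15356) (L (nat_lit 10236949))
(L (nat_lit 736508)))
(S (nat_lit 35115) (S (nat_lit 8810) (S (nat_lit 28554) (S (nat_lit 41254) (L (nat_lit 6939012))
(L (nat_lit 23158990)))
(L (nat_lit 9193889)))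
(S (nat_lit 28574) (S (nat_lit 2134) (L (nat_lit 8900516))
(L (nat_lit 9260449)))
(S (nat_lit 48338) (S (nat_lit 1290) (S (nat_lit 1975) (L (nat_lit 29761184))
(L (nat_lit 12739242)))
(L (nat_lit 9139653)))
(L (nat_lit 25802923)))))
(S (nat_lit 54879) (S (nat_lit 10977) (S (nat_lit 40774) (L (nat_lit 29379824))
(L (nat_lit 18192057)))
(S (nat_lit 30741) (S (nat_lit 20767) (S (nat_lit 35180) (L (nat_lit 22230818))
(L (nat_lit 26424500)))
(L (nat_lit 7091845)))
(S (nat_lit 50505) (S (nat_lit 50510) (S (nat_lit 40564) (S (nat_lit 40774) (S (nat_lit 8790) (S (nat_lit 54884) (L (nat_lit 30968148))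
(L (nat_lit 27674852)))
(L (nat_lit 17369465)))
(L (nat_lit 17976697)))
(L (nat_lit 17585477)))
(L (nat_lit 27544622)))
(L (nat_lit 25463252)))))
(L (nat_lit 25276791)))))
(L (nat_lit 25250001)))))
(L (nat_lit 25865696)))))
(L (nat_lit 25530029)))))

theorem rb246_0_21 : run 4 lb246 [] tb246_0_21 kb246 [0, 41536, 30761, 8795] [] = true := by
  decide +kernel

noncomputable def tb179_4 : Tr :=
(S (nat_lit 9044) (S (nat_lit 10987) (S (nat_lit 13687) (S (nat_lit 13418) (S (nat_lit 6827) (S (nat_lit 30699) (S (nat_lit 45166) (L (nat_lit 24584097))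
(L (nat_lit 8041345)))
(L (nat_lit 24364929)))
(S (nat_lit 26591) (S (nat_lit 9313) (S (nat_lit 52) (S (nat_lit 15585) (S (nat_lit 47072) (L (nat_lit 22508832))
(L (nat_lit 7792257)))
(L (nat_lit 24985922)))
(L (nat_lit 7428634)))
(L (nat_lit 23571329)))
(S (nat_lit 46355) (S (nat_lit 40071) (S (nat_lit 51006) (S (nat_lit 9313) (S (nat_lit 8786) (L (nat_lit 12193307))
(L (nat_lit 7073220)))
(L (nat_lit 21474209)))
(L (nat_lit 22875407)))
(L (nat_lit 17632530)))
(L (nat_lit 25251307)))))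
(S (nat_lit 33182) (S (nat_lit 7116) (S (nat_lit 39580) (S (nat_lit 7098) (S (nat_lit 13180) (S (nat_lit 6822) (S (nat_lit 46355) (S (nat_lit 530) (L (nat_lit 28715189))
(L (nat_lit 8226544)))
(L (nat_lit 16854616)))
(L (nat_lit 7785625)))
(L (nat_lit 8269910)))
(L (nat_lit 21840197)))
(L (nat_lit 23159118)))
(L (nat_lit 21052761)))
(S (nat_lit 52946) (S (nat_lit 7290) (S (nat_lit 7116) (S (nat_lit 11254) (S (nat_lit 19816) (S (nat_lit 29077) (S (nat_lit 5400) (L (nat_lit 6319543))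
(L (nat_lit 17878360)))
(L (nat_lit 18888024)))
(L (nat_lit 15817048)))
(L (nat_lit 26334477)))
(L (nat_lit 23149912)))
(L (nat_lit 26235274)))
(L (nat_lit 25182546)))))
(S (nat_lit 33451) (S (nat_lit 7116) (S (nat_lit 5638) (S (nat_lit 7098) (S (nat_lit 17300) (S (nat_lit 5400) (S (nat_lit 48042) (L (nat_lit 18574661))
(L (nat_lit 7191235)))
(L (nat_lit 15781208)))
(L (nat_lit 4018541)))
(L (nat_lit 23964749)))
(S (nat_lit 25402) (S (nat_lit 399) (L (nat_lit 23240558))
(S (nat_lit 11254) (S (nat_lit 0) (S (nat_lit 6822) (S (nat_lit 35349) (L (nat_lit 290293))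
(L (nat_lit 23261550)))
(L (nat_lit 7736984)))
(L (nat_lit 6926360)))
(L (nat_lit 21335917))))
(S (nat_lit 45166) (S (nat_lit 7098) (S (nat_lit 9107) (L (nat_lit 21528925))
(S (nat_lit 43926) (S (nat_lit 27054) (L (nat_lit 28905806))
(L (nat_lit 24392576)))
(L (nat_lit 6142291))))
(L (nat_lit 13470068)))
(L (nat_lit 25526709)))))
(S (nat_lit 26880) (S (nat_lit 7098) (S (nat_lit 43926) (S (nat_lit 17481) (L (nat_lit 19438749))
(L (nat_lit 18952536)))
(L (nat_lit 23968064)))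
(S (nat_lit 26862) (S (nat_lit 47072) (L (nat_lit 10031512))
(L (nat_lit 2013525)))
(S (nat_lit 46626) (S (nat_lit 40058) (S (nat_lit 27054) (S (nat_lit 47793) (L (nat_lit 28597664))
(L (nat_lit 1471830)))
(L (nat_lit 16581974)))
(L (nat_lit 2938192)))
(L (nat_lit 25316716)))))
(S (nat_lit 46644) (S (nat_lit 14648) (S (nat_lit 55342) (S (nat_lit 5591) (L (nat_lit 16550228))
(L (nat_lit 26809676)))
(L (nat_lit 21506916)))
(S (nat_lit 34412) (S (nat_lit 1036) (S (nat_lit 11465) (L (nat_lit 14767449))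
(L (nat_lit 23619904)))
(L (nat_lit 20474176)))
(S (nat_lit 54176) (S (nat_lit 29077) (S (nat_lit 46124) (L (nat_lit 16091771))
(L (nat_lit 16850552)))
(L (nat_lit 8470136)))
(L (nat_lit 25771110)))))
(L (nat_lit 25691476)))))
(S (nat_lit 53215) (S (nat_lit 13418) (S (nat_lit 5389) (S (nat_lit 24162) (S (nat_lit 14856) (S (nat_lit 8057) (L (nat_lit 4502201))
(L (nat_lit 1943957)))
(L (nat_lit 26400265)))
(L (nat_lit 17640160)))
(S (nat_lit 25153) (S (nat_lit 40071) (S (nat_lit 52) (S (nat_lit 44648) (S (nat_lit 26878) (S (nat_lit 51006) (S (nat_lit 51499) (L (nat_lit 3615453))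
(L (nat_lit 22883813)))
(L (nat_lit 22875439)))
(L (nat_lit 24699169)))
(L (nat_lit 24143150)))
(L (nat_lit 1944270)))
(L (nat_lit 16807218)))
(S (nat_lit 44917) (S (nat_lit 24162) (S (nat_lit 6822) (L (nat_lit 503513))
(L (nat_lit 23523524)))
(L (nat_lit 22883471)))
(L (nat_lit 25603124)))))
(S (nat_lit 33182) (S (nat_lit 7116) (S (nat_lit 55113) (S (nat_lit 46818) (S (nat_lit 7098) (S (nat_lit 44648) (L (nat_lit 1913174))
(L (nat_lit 23082232)))
(L (nat_lit 21840197)))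
(L (nat_lit 16807252)))
(L (nat_lit 27286864)))
(L (nat_lit 21052761)))
(S (nat_lit 52946) (S (nat_lit 7116) (S (nat_lit 7098) (S (nat_lit 19816) (S (nat_lit 5400) (S (nat_lit 8786) (S (nat_lit 51006) (L (nat_lit 29439318))
(L (nat_lit 15306630)))
(L (nat_lit 7167428)))
(L (nat_lit 26939729)))
(L (nat_lit 3942964)))
(L (nat_lit 13435558)))
(L (nat_lit 23149912)))
(L (nat_lit 25897507)))))
(L (nat_lit 25544260)))))
(S (nat_lit 30751) (S (nat_lit 5591) (S (nat_lit 7820) (S (nat_lit 6822) (S (nat_lit 19816) (S (nat_lit 8265) (L (nat_lit 21924233))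
(L (nat_lit 23377762)))
(S (nat_lit 49878) (L (nat_lit 23266190))
(L (nat_lit 15477442))))
(S (nat_lit 26586) (S (nat_lit 543) (S (nat_lit 13368) (S (nat_lit 26862) (L (nat_lit 18890538))
(L (nat_lit 10216460)))
(L (nat_lit 4961094)))
(L (nat_lit 8106040)))
(S (nat_lit 46350) (S (nat_lit 42545) (L (nat_lit 21763341))
(S (nat_lit 46626) (S (nat_lit 254) (S (nat_lit 26880) (S (nat_lit 50010) (S (nat_lit 28570) (L (nat_lit 28903692))
(L (nat_lit 9222723)))
(L (nat_lit 27668066)))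
(L (nat_lit 9223779)))
(L (nat_lit 12818013)))
(L (nat_lit 10969174))))
(L (nat_lit 25593044)))))
(S (nat_lit 27584) (S (nat_lit 753) (S (nat_lit 56375) (S (nat_lit 31018) (L (nat_lit 12324375))
(L (nat_lit 17616160)))
(L (nat_lit 6887247)))
(S (nat_lit 20517) (S (nat_lit 28570) (S (nat_lit 7116) (L (nat_lit 28424810))
(L (nat_lit 3843640)))
(S (nat_lit 44979) (L (nat_lit 16952247))
(L (nat_lit 19217155))))
(S (nat_lit 40281) (S (nat_lit 27106) (S (nat_lit 46626) (S (nat_lit 31229) (L (nat_lit 29077824))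
(L (nat_lit 17555808)))
(L (nat_lit 17393987)))
(L (nat_lit 14804215)))
(L (nat_lit 25499187)))))
(S (nat_lit 47348) (S (nat_lit 24445) (S (nat_lit 6829) (S (nat_lit 10482) (S (nat_lit 40564) (S (nat_lit 31229) (L (nat_lit 30115150))
(L (nat_lit 17391968)))
(L (nat_lit 7454332)))
(L (nat_lit 16953016)))
(L (nat_lit 7081582)))
(L (nat_lit 21029417)))
(L (nat_lit 25923825)))))
(S (nat_lit 25355) (S (nat_lit 1036) (S (nat_lit 8786) (S (nat_lit 46626) (S (nat_lit 51216) (L (nat_lit 5557817))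
(L (nat_lit 9464431)))
(S (nat_lit 56450) (L (nat_lit 18901359))
(L (nat_lit 17394019))))
(S (nat_lit 28550) (S (nat_lit 3563) (L (nat_lit 30721170))
(S (nat_lit 9313) (S (nat_lit 20294) (L (nat_lit 4502387))
(L (nat_lit 9490969)))
(L (nat_lit 20985737))))
(S (nat_lit 48314) (S (nat_lit 56785) (S (nat_lit 46357) (S (nat_lit 51006) (S (nat_lit 56599) (S (nat_lit 28570) (S (nat_lit 11465) (L (nat_lit 3690409))
(L (nat_lit 15788651)))
(L (nat_lit 19765635)))
(L (nat_lit 14233408)))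
(L (nat_lit 22875559)))
(L (nat_lit 17434441)))
(L (nat_lit 15855210)))
(L (nat_lit 25283018)))))
(S (nat_lit 20800) (S (nat_lit 15585) (S (nat_lit 26360) (S (nat_lit 47605) (L (nat_lit 3846490))
(L (nat_lit 22574403)))
(L (nat_lit 15817049)))
(S (nat_lit 35349) (S (nat_lit 30038) (S (nat_lit 7544) (L (nat_lit 768905))
(L (nat_lit 14456149)))
(L (nat_lit 3977557)))
(S (nat_lit 55113) (S (nat_lit 530) (S (nat_lit 39580) (L (nat_lit 26333518))
(L (nat_lit 27378004)))
(L (nat_lit 6149456)))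
(L (nat_lit 25444407)))))
(S (nat_lit 40564) (S (nat_lit 13617) (S (nat_lit 50239) (S (nat_lit 54176) (S (nat_lit 39782) (S (nat_lit 31229) (L (nat_lit 29571253))
(L (nat_lit 1652057)))
(L (nat_lit 1266104)))
(L (nat_lit 7093860)))
(L (nat_lit 14358649)))
(S (nat_lit 33381) (S (nat_lit 28079) (S (nat_lit 47072) (L (nat_lit 10218915))
(L (nat_lit 1784152)))
(L (nat_lit 15009403)))
(S (nat_lit 53145) (S (nat_lit 27106) (S (nat_lit 31229) (L (nat_lit 13758059))
(L (nat_lit 25076096)))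
(L (nat_lit 7051119)))
(L (nat_lit 25399735)))))
(L (nat_lit 25701984)))))
(S (nat_lit 45119) (S (nat_lit 543) (S (nat_lit 8786) (S (nat_lit 44648) (S (nat_lit 1247) (S (nat_lit 52946) (L (nat_lit 29993040))
(L (nat_lit 20989272)))
(L (nat_lit 26414736)))
(L (nat_lit 27594446)))
(S (nat_lit 28550) (S (nat_lit 26353) (S (nat_lit 47137) (L (nat_lit 28419694))
(L (nat_lit 7455639)))
(L (nat_lit 9154584)))
(S (nat_lit 48314) (S (nat_lit 52688) (S (nat_lit 5120) (L (nat_lit 14453975))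
(L (nat_lit 26775241)))
(L (nat_lit 27528880)))
(L (nat_lit 25725643)))))
(S (nat_lit 20307) (S (nat_lit 7833) (S (nat_lit 1247) (S (nat_lit 44420) (L (nat_lit 5060199))
(L (nat_lit 14993560)))
(L (nat_lit 14519670)))
(S (nat_lit 27597) (S (nat_lit 28570) (S (nat_lit 9313) (L (nat_lit 10341857))
(L (nat_lit 23148457)))
(L (nat_lit 9222883)))
(S (nat_lit 47361) (S (nat_lit 17046) (S (nat_lit 52896) (S (nat_lit 4892) (L (nat_lit 5616535))
(L (nat_lit 6819702)))
(L (nat_lit 21067020)))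
(L (nat_lit 24359064)))
(L (nat_lit 25254093)))))
(S (nat_lit 40071) (S (nat_lit 12182) (S (nat_lit 8514) (S (nat_lit 33182) (L (nat_lit 5789049))
(L (nat_lit 23389699)))
(S (nat_lit 58688) (S (nat_lit 28957) (L (nat_lit 2405299))
(L (nat_lit 23365016)))
(L (nat_lit 23243160))))
(L (nat_lit 21499751)))
(L (nat_lit 25709859)))))
(L (nat_lit 25728279)))))
(S (nat_lit 50515) (S (nat_lit 11254) (S (nat_lit 7820) (S (nat_lit 11465) (S (nat_lit 11688) (S (nat_lit 6596) (L (nat_lit 29635732))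
(L (nat_lit 13173085)))
(L (nat_lit 21770378)))
(S (nat_lit 31229) (S (nat_lit 6822) (S (nat_lit 30475) (L (nat_lit 6369978))
(L (nat_lit 19054471)))
(L (nat_lit 23889101)))
(S (nat_lit 50993) (S (nat_lit 6863) (L (nat_lit 7945304))
(L (nat_lit 21082955)))
(L (nat_lit 25708619)))))
(S (nat_lit 27584) (S (nat_lit 9313) (S (nat_lit 44420) (S (nat_lit 10482) (L (nat_lit 5693751))
(L (nat_lit 17555497)))
(L (nat_lit 14741131)))
(S (nat_lit 29077) (S (nat_lit 8265) (S (nat_lit 0) (L (nat_lit 12602745))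
(L (nat_lit 19963289)))
(L (nat_lit 4993609)))
(S (nat_lit 48841) (S (nat_lit 31229) (S (nat_lit 8315) (S (nat_lit 56785) (L (nat_lit 7178864))
(L (nat_lit 316825)))
(L (nat_lit 26674790)))
(L (nat_lit 9495148)))
(L (nat_lit 25540257)))))
(S (nat_lit 47348) (S (nat_lit 44648) (S (nat_lit 51216) (S (nat_lit 6822) (S (nat_lit 28348) (L (nat_lit 26491031))
(L (nat_lit 15499943)))
(L (nat_lit 21375778)))
(L (nat_lit 14702410)))
(S (nat_lit 46226) (L (nat_lit 23990665))
(L (nat_lit 7393688))))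
(L (nat_lit 25303728)))))
(S (nat_lit 31018) (S (nat_lit 13368) (S (nat_lit 7098) (S (nat_lit 39528) (L (nat_lit 601965))
(L (nat_lit 4792237)))
(S (nat_lit 26862) (S (nat_lit 28550) (S (nat_lit 37064) (L (nat_lit 17034263))
(L (nat_lit 11232429)))
(S (nat_lit 39660) (L (nat_lit 13639357))
(L (nat_lit 19193901))))
(S (nat_lit 46626) (S (nat_lit 20307) (L (nat_lit 30115085))
(L (nat_lit 1875629)))
(L (nat_lit 25215591)))))
(S (nat_lit 33132) (S (nat_lit 6863) (S (nat_lit 10935) (S (nat_lit 8265) (L (nat_lit 4960537))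
(L (nat_lit 23892301)))
(L (nat_lit 21029351)))
(S (nat_lit 26627) (S (nat_lit 45166) (S (nat_lit 31452) (L (nat_lit 21115814))
(L (nat_lit 7221856)))
(L (nat_lit 24948774)))
(S (nat_lit 46391) (S (nat_lit 4398) (S (nat_lit 25402) (L (nat_lit 11580153))
(L (nat_lit 6992641)))
(L (nat_lit 6337272)))
(L (nat_lit 25284880)))))
(S (nat_lit 52896) (S (nat_lit 10935) (S (nat_lit 4398) (S (nat_lit 28278) (L (nat_lit 1274540))
(L (nat_lit 16025494)))
(L (nat_lit 18919769)))
(S (nat_lit 30699) (S (nat_lit 8584) (S (nat_lit 0) (L (nat_lit 22438919))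
(L (nat_lit 602328)))
(S (nat_lit 47191) (L (nat_lit 21829094))
(L (nat_lit 5457815))))
(S (nat_lit 50463) (S (nat_lit 24942) (S (nat_lit 46357) (S (nat_lit 29077) (L (nat_lit 453847))
(L (nat_lit 5090807)))
(L (nat_lit 11931321)))
(L (nat_lit 21803112)))
(L (nat_lit 25186511)))))
(L (nat_lit 25399916)))))
(S (nat_lit 50782) (S (nat_lit 254) (S (nat_lit 11465) (S (nat_lit 530) (S (nat_lit 7098) (S (nat_lit 17046) (S (nat_lit 6596) (L (nat_lit 18924924))
(L (nat_lit 21279621)))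
(L (nat_lit 26222103)))
(L (nat_lit 3910573)))
(L (nat_lit 26262870)))
(S (nat_lit 31229) (S (nat_lit 26878) (S (nat_lit 44648) (S (nat_lit 530) (S (nat_lit 20517) (L (nat_lit 26981696))
(L (nat_lit 30844641)))
(L (nat_lit 14493410)))
(L (nat_lit 27823351)))
(S (nat_lit 43013) (L (nat_lit 18936143))
(L (nat_lit 1591608))))
(S (nat_lit 50993) (S (nat_lit 0) (S (nat_lit 6829) (S (nat_lit 44648) (S (nat_lit 46644) (S (nat_lit 543) (S (nat_lit 28550) (L (nat_lit 2407032))
(L (nat_lit 9145165)))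
(L (nat_lit 8119341)))
(L (nat_lit 20472838)))
(L (nat_lit 27307415)))
(L (nat_lit 23858510)))
(L (nat_lit 20144512)))
(L (nat_lit 25615370)))))
(S (nat_lit 20018) (S (nat_lit 17046) (S (nat_lit 26878) (S (nat_lit 20294) (S (nat_lit 24488) (L (nat_lit 12191663))
(S (nat_lit 26862) (S (nat_lit 20517) (S (nat_lit 24162) (L (nat_lit 2562810))
(L (nat_lit 21838176)))
(L (nat_lit 30449357)))
(L (nat_lit 15280931))))
(L (nat_lit 14737750)))
(L (nat_lit 16113810)))
(S (nat_lit 23617) (L (nat_lit 5647254))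
(L (nat_lit 14702968))))
(S (nat_lit 39782) (S (nat_lit 7098) (S (nat_lit 7116) (S (nat_lit 52323) (L (nat_lit 7355004))
(L (nat_lit 28523107)))
(L (nat_lit 3521145)))
(S (nat_lit 26862) (S (nat_lit 46644) (S (nat_lit 13180) (S (nat_lit 44648) (S (nat_lit 17046) (S (nat_lit 43926) (L (nat_lit 6853304))
(L (nat_lit 5825254)))
(L (nat_lit 22917195)))
(L (nat_lit 24611655)))
(L (nat_lit 13985379)))
(S (nat_lit 49669) (L (nat_lit 2899286))
(L (nat_lit 17852007))))
(S (nat_lit 46626) (S (nat_lit 46644) (S (nat_lit 30953) (L (nat_lit 29870437))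
(L (nat_lit 680490)))
(L (nat_lit 12335717)))
(L (nat_lit 25936195)))))
(L (nat_lit 25416065)))))
(L (nat_lit 25570482)))))
(L (nat_lit 25253320)))))
(S (nat_lit 28808) (S (nat_lit 7342) (S (nat_lit 319) (S (nat_lit 530) (S (nat_lit 15689) (L (nat_lit 599920))
(S (nat_lit 45166) (S (nat_lit 26776) (L (nat_lit 13471401))
(S (nat_lit 44648) (S (nat_lit 47605) (S (nat_lit 51216) (L (nat_lit 9951072))
(L (nat_lit 8237236)))
(L (nat_lit 9252946)))
(L (nat_lit 12871364))))
(L (nat_lit 12968609))))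
(S (nat_lit 20294) (S (nat_lit 8265) (S (nat_lit 7609) (S (nat_lit 51499) (S (nat_lit 52) (S (nat_lit 35578) (L (nat_lit 6769787))
(L (nat_lit 23182552)))
(L (nat_lit 13268322)))
(L (nat_lit 1536343)))
(S (nat_lit 18077) (S (nat_lit 4398) (L (nat_lit 1748845))
(L (nat_lit 19116217)))
(L (nat_lit 23299918))))
(S (nat_lit 28029) (S (nat_lit 31229) (S (nat_lit 46640) (S (nat_lit 48042) (L (nat_lit 2935179))
(L (nat_lit 22319980)))
(L (nat_lit 27960704)))
(L (nat_lit 19301721)))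
(S (nat_lit 47793) (S (nat_lit 40564) (L (nat_lit 21268985))
(L (nat_lit 17585291)))
(L (nat_lit 25244918)))))
(S (nat_lit 40058) (S (nat_lit 10935) (S (nat_lit 7609) (S (nat_lit 5178) (L (nat_lit 17848666))
(L (nat_lit 733561)))
(L (nat_lit 26269163)))
(S (nat_lit 30699) (S (nat_lit 7609) (S (nat_lit 40281) (S (nat_lit 52708) (L (nat_lit 3929422))
(L (nat_lit 19727849)))
(L (nat_lit 24396608)))
(L (nat_lit 10538831)))
(S (nat_lit 50463) (S (nat_lit 7609) (S (nat_lit 1036) (L (nat_lit 14296091))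
(L (nat_lit 13507168)))
(L (nat_lit 12638059)))
(L (nat_lit 25887953)))))
(L (nat_lit 25481728)))))
(S (nat_lit 20083) (S (nat_lit 17046) (S (nat_lit 5178) (S (nat_lit 5002) (L (nat_lit 9854009))
(S (nat_lit 54613) (S (nat_lit 4892) (S (nat_lit 52688) (S (nat_lit 35141) (S (nat_lit 19816) (L (nat_lit 29998153))
(L (nat_lit 10131311)))
(L (nat_lit 18730091)))
(L (nat_lit 17901490)))
(S (nat_lit 31071) (L (nat_lit 25013422))
(L (nat_lit 26496418))))
(L (nat_lit 9167233))))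
(S (nat_lit 36898) (L (nat_lit 26254834))
(L (nat_lit 1290904))))
(S (nat_lit 36810) (S (nat_lit 34545) (S (nat_lit 17652) (L (nat_lit 21833806))
(L (nat_lit 20263001)))
(S (nat_lit 48841) (S (nat_lit 35141) (S (nat_lit 13160) (L (nat_lit 24457304))
(L (nat_lit 13438698)))
(L (nat_lit 13262922)))
(L (nat_lit 22816780))))
(S (nat_lit 56574) (S (nat_lit 10300) (L (nat_lit 600974))
(S (nat_lit 39580) (S (nat_lit 51710) (S (nat_lit 5178) (L (nat_lit 29726226))
(L (nat_lit 482681)))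
(L (nat_lit 27306574)))
(L (nat_lit 24947235))))
(L (nat_lit 25516546)))))
(S (nat_lit 39847) (S (nat_lit 17257) (S (nat_lit 26586) (S (nat_lit 44648) (S (nat_lit 13418) (S (nat_lit 6845) (S (nat_lit 24656) (L (nat_lit 13504169))
(L (nat_lit 9047577)))
(L (nat_lit 6807363)))
(L (nat_lit 2961040)))
(L (nat_lit 9496268)))
(S (nat_lit 33786) (L (nat_lit 24230265))
(L (nat_lit 24980556))))
(S (nat_lit 37021) (S (nat_lit 8077) (S (nat_lit 50550) (L (nat_lit 9212528))
(L (nat_lit 23280699)))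
(S (nat_lit 27841) (S (nat_lit 39580) (S (nat_lit 52946) (L (nat_lit 30721731))
(L (nat_lit 1565042)))
(L (nat_lit 23192105)))
(S (nat_lit 47605) (S (nat_lit 34849) (S (nat_lit 44209) (L (nat_lit 18146017))
(L (nat_lit 27645472)))
(L (nat_lit 23364495)))
(L (nat_lit 25712962)))))
(S (nat_lit 56785) (S (nat_lit 15377) (S (nat_lit 31242) (S (nat_lit 27821) (S (nat_lit 24656) (L (nat_lit 20852807))
(L (nat_lit 9080249)))
(L (nat_lit 24448411)))
(L (nat_lit 24514470)))
(S (nat_lit 57203) (S (nat_lit 3995) (L (nat_lit 9093209))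
(L (nat_lit 483208)))
(L (nat_lit 511818))))
(L (nat_lit 25701427)))))
(L (nat_lit 25693864)))))
(S (nat_lit 27106) (S (nat_lit 11688) (S (nat_lit 14856) (S (nat_lit 13687) (S (nat_lit 50239) (S (nat_lit 27841) (L (nat_lit 7799512))
(L (nat_lit 24327288)))
(L (nat_lit 22485177)))
(S (nat_lit 33451) (S (nat_lit 18852) (L (nat_lit 7824567))
(S (nat_lit 40058) (S (nat_lit 26878) (S (nat_lit 10482) (S (nat_lit 36835) (L (nat_lit 26727466))
(L (nat_lit 23899621)))
(L (nat_lit 10018934)))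
(L (nat_lit 24142127)))
(L (nat_lit 23553034))))
(S (nat_lit 53215) (S (nat_lit 7116) (S (nat_lit 4398) (L (nat_lit 9467412))
(L (nat_lit 18885080)))
(L (nat_lit 14328920)))
(L (nat_lit 25182857)))))
(S (nat_lit 34620) (S (nat_lit 5178) (S (nat_lit 8946) (L (nat_lit 24129392))
(S (nat_lit 48314) (S (nat_lit 27841) (S (nat_lit 543) (S (nat_lit 0) (L (nat_lit 10663764))
(L (nat_lit 799303)))
(L (nat_lit 6304441)))
(L (nat_lit 19084376)))
(L (nat_lit 13917240))))
(S (nat_lit 11289) (L (nat_lit 4595288))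
(L (nat_lit 761368))))
(S (nat_lit 54384) (S (nat_lit 17071) (S (nat_lit 48314) (S (nat_lit 26627) (S (nat_lit 13687) (S (nat_lit 28079) (L (nat_lit 9172515))
(L (nat_lit 19336409)))
(L (nat_lit 13994902)))
(L (nat_lit 14799129)))
(L (nat_lit 6071763)))
(S (nat_lit 36835) (S (nat_lit 26862) (S (nat_lit 47585) (L (nat_lit 12047481))
(L (nat_lit 20416824)))
(L (nat_lit 8443756)))
(S (nat_lit 56599) (S (nat_lit 543) (S (nat_lit 34412) (S (nat_lit 40564) (L (nat_lit 9964370))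
(L (nat_lit 1828230)))
(L (nat_lit 3430873)))
(L (nat_lit 14388536)))
(L (nat_lit 25830444)))))
(L (nat_lit 25498253)))))
(S (nat_lit 31452) (S (nat_lit 6863) (S (nat_lit 10274) (S (nat_lit 14648) (S (nat_lit 28348) (S (nat_lit 8806) (S (nat_lit 36611) (L (nat_lit 13769554))
(L (nat_lit 20199268)))
(L (nat_lit 2006769)))
(L (nat_lit 24667393)))
(L (nat_lit 663005)))
(S (nat_lit 30038) (S (nat_lit 14648) (S (nat_lit 29077) (S (nat_lit 39528) (L (nat_lit 6736987))
(L (nat_lit 17735264)))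
(L (nat_lit 13296964)))
(L (nat_lit 22552421)))
(S (nat_lit 49802) (S (nat_lit 8994) (S (nat_lit 33451) (S (nat_lit 17046) (L (nat_lit 8412014))
(L (nat_lit 22420568)))
(L (nat_lit 23145327)))
(L (nat_lit 23207320)))
(L (nat_lit 25668324)))))
(S (nat_lit 26627) (S (nat_lit 13368) (S (nat_lit 17046) (L (nat_lit 826838))
(L (nat_lit 2437817)))
(S (nat_lit 33132) (S (nat_lit 17046) (S (nat_lit 5178) (S (nat_lit 40071) (S (nat_lit 27373) (L (nat_lit 6135188))
(L (nat_lit 24372238)))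
(L (nat_lit 24982819)))
(L (nat_lit 19340377)))
(L (nat_lit 16785145)))
(S (nat_lit 52896) (S (nat_lit 4681) (S (nat_lit 753) (L (nat_lit 30823616))
(L (nat_lit 13672185)))
(L (nat_lit 2518632)))
(L (nat_lit 25856455)))))
(S (nat_lit 46391) (S (nat_lit 9313) (S (nat_lit 12182) (S (nat_lit 48771) (S (nat_lit 26398) (S (nat_lit 48522) (S (nat_lit 28550) (S (nat_lit 11189) (S (nat_lit 46124) (L (nat_lit 26527791))
(L (nat_lit 16896344)))
(L (nat_lit 8126965)))
(L (nat_lit 2684149)))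
(L (nat_lit 12192558)))
(L (nat_lit 2477496)))
(L (nat_lit 13847395)))
(L (nat_lit 3925356)))
(S (nat_lit 29077) (S (nat_lit 27373) (S (nat_lit 9204) (L (nat_lit 30416370))
(L (nat_lit 3460600)))
(S (nat_lit 46468) (L (nat_lit 21350240))
(L (nat_lit 30940338))))
(S (nat_lit 48841) (S (nat_lit 28348) (S (nat_lit 44420) (S (nat_lit 47348) (L (nat_lit 421111))
(L (nat_lit 17884777)))
(L (nat_lit 14720664)))
(L (nat_lit 15751015)))
(L (nat_lit 25509540)))))
(L (nat_lit 25801985)))))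
(S (nat_lit 51216) (S (nat_lit 8994) (S (nat_lit 11478) (S (nat_lit 55113) (S (nat_lit 28278) (S (nat_lit 10935) (L (nat_lit 18881455))
(L (nat_lit 8076345)))
(L (nat_lit 31071619)))
(L (nat_lit 3710805)))
(S (nat_lit 31242) (S (nat_lit 30699) (L (nat_lit 29601844))
(L (nat_lit 16830714)))
(S (nat_lit 51006) (S (nat_lit 753) (S (nat_lit 43926) (L (nat_lit 14702906))
(L (nat_lit 23079759)))
(L (nat_lit 19963448)))
(L (nat_lit 25531830)))))
(S (nat_lit 28758) (S (nat_lit 54905) (S (nat_lit 46124) (S (nat_lit 47585) (S (nat_lit 31946) (L (nat_lit 4572860))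
(L (nat_lit 30790050)))
(L (nat_lit 6011258)))
(L (nat_lit 17041016)))
(L (nat_lit 19673163)))
(S (nat_lit 48522) (S (nat_lit 7290) (S (nat_lit 7833) (S (nat_lit 50010) (S (nat_lit 7544) (S (nat_lit 12182) (L (nat_lit 26874314))
(L (nat_lit 8543054)))
(L (nat_lit 26646677)))
(L (nat_lit 1879728)))
(S (nat_lit 30069) (L (nat_lit 14291882))
(L (nat_lit 8402774))))
(S (nat_lit 27054) (S (nat_lit 17046) (S (nat_lit 5178) (S (nat_lit 26878) (L (nat_lit 8575854))
(L (nat_lit 15569202)))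
(L (nat_lit 16454472)))
(L (nat_lit 24517720)))
(S (nat_lit 46818) (S (nat_lit 35349) (S (nat_lit 6863) (S (nat_lit 30699) (S (nat_lit 24162) (L (nat_lit 30901830))
(L (nat_lit 30419665)))
(L (nat_lit 30416438)))
(L (nat_lit 12623613)))
(S (nat_lit 47000) (L (nat_lit 6951483))
(L (nat_lit 5971386))))
(L (nat_lit 25493940)))))
(L (nat_lit 25712647)))))
(L (nat_lit 25833696)))))
(S (nat_lit 46870) (S (nat_lit 8994) (S (nat_lit 13617) (S (nat_lit 13687) (S (nat_lit 48042) (S (nat_lit 47072) (L (nat_lit 28333388))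
(L (nat_lit 27680067)))
(L (nat_lit 27680099)))
(S (nat_lit 33451) (S (nat_lit 5178) (S (nat_lit 40564) (S (nat_lit 28348) (L (nat_lit 22812750))
(L (nat_lit 7366318)))
(L (nat_lit 8119374)))
(L (nat_lit 19341153)))
(S (nat_lit 53215) (S (nat_lit 8077) (S (nat_lit 7290) (S (nat_lit 10935) (S (nat_lit 44648) (L (nat_lit 29439220))
(L (nat_lit 10030926)))
(L (nat_lit 8010809)))
(L (nat_lit 23504952)))
(L (nat_lit 23278403)))
(L (nat_lit 25710664)))))
(S (nat_lit 33381) (S (nat_lit 5178) (S (nat_lit 26353) (S (nat_lit 44648) (S (nat_lit 11478) (L (nat_lit 6776451))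
(L (nat_lit 26680899)))
(L (nat_lit 24162126)))
(L (nat_lit 9951256)))
(S (nat_lit 24604) (S (nat_lit 4066) (L (nat_lit 7227074))
(L (nat_lit 16555060)))
(L (nat_lit 19340376))))
(S (nat_lit 53145) (S (nat_lit 15377) (S (nat_lit 27821) (S (nat_lit 34849) (S (nat_lit 48042) (L (nat_lit 17750341))
(L (nat_lit 2843949)))
(L (nat_lit 7786616)))
(L (nat_lit 24240518)))
(S (nat_lit 35141) (S (nat_lit 753) (S (nat_lit 5178) (L (nat_lit 16961355))
(L (nat_lit 19340409)))
(L (nat_lit 18882105)))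
(S (nat_lit 54905) (S (nat_lit 43506) (L (nat_lit 10605454))
(L (nat_lit 19341155)))
(L (nat_lit 25530061)))))
(L (nat_lit 25339319)))))
(S (nat_lit 28758) (S (nat_lit 15585) (S (nat_lit 49802) (S (nat_lit 5591) (S (nat_lit 20307) (L (nat_lit 31005153))
(L (nat_lit 22846949)))
(L (nat_lit 20209774)))
(L (nat_lit 5742328)))
(S (nat_lit 35349) (S (nat_lit 11971) (S (nat_lit 26955) (L (nat_lit 20046030))
(S (nat_lit 47137) (S (nat_lit 25153) (L (nat_lit 901766))
(L (nat_lit 5948203)))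
(L (nat_lit 18450310))))
(S (nat_lit 31735) (S (nat_lit 5178) (S (nat_lit 27821) (S (nat_lit 40058) (L (nat_lit 9007181))
(L (nat_lit 484694)))
(L (nat_lit 24223129)))
(L (nat_lit 728601)))
(S (nat_lit 51499) (S (nat_lit 28570) (S (nat_lit 9243) (S (nat_lit 20018) (L (nat_lit 22130939))
(L (nat_lit 15279193)))
(L (nat_lit 23889350)))
(L (nat_lit 9208375)))
(L (nat_lit 25805061)))))
(S (nat_lit 55113) (S (nat_lit 1247) (S (nat_lit 44648) (S (nat_lit 8077) (S (nat_lit 28278) (L (nat_lit 28822818))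
(L (nat_lit 16408933)))
(L (nat_lit 12724050)))
(L (nat_lit 10063694)))
(S (nat_lit 21011) (S (nat_lit 33182) (S (nat_lit 55342) (L (nat_lit 9556781))
(L (nat_lit 13741753)))
(L (nat_lit 20219449)))
(S (nat_lit 40775) (S (nat_lit 30475) (S (nat_lit 11254) (L (nat_lit 8106752))
(L (nat_lit 2501463)))
(L (nat_lit 13500727)))
(L (nat_lit 25217392)))))
(L (nat_lit 25442359)))))
(S (nat_lit 48522) (S (nat_lit 7112) (S (nat_lit 543) (S (nat_lit 55113) (S (nat_lit 13368) (S (nat_lit 44209) (S (nat_lit 40281) (L (nat_lit 3912987))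
(L (nat_lit 5644027)))
(L (nat_lit 11933305)))
(L (nat_lit 4890072)))
(L (nat_lit 14457911)))
(S (nat_lit 20307) (S (nat_lit 33182) (S (nat_lit 52896) (S (nat_lit 31242) (S (nat_lit 20294) (S (nat_lit 44648) (L (nat_lit 4890173))
(L (nat_lit 14738678)))
(L (nat_lit 21762571)))
(L (nat_lit 9230853)))
(L (nat_lit 21205804)))
(L (nat_lit 15470218)))
(S (nat_lit 40071) (S (nat_lit 28029) (S (nat_lit 15585) (S (nat_lit 47361) (L (nat_lit 4988468))
(L (nat_lit 22581032)))
(L (nat_lit 6479353)))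
(L (nat_lit 24482572)))
(L (nat_lit 25505939)))))
(S (nat_lit 26876) (S (nat_lit 11478) (S (nat_lit 13180) (L (nat_lit 15060835))
(L (nat_lit 13246275)))
(S (nat_lit 31242) (S (nat_lit 5638) (S (nat_lit 5178) (S (nat_lit 6589) (S (nat_lit 11688) (L (nat_lit 728605))
(L (nat_lit 26877376)))
(L (nat_lit 26302702)))
(L (nat_lit 16489560)))
(S (nat_lit 25402) (S (nat_lit 9243) (S (nat_lit 17046) (L (nat_lit 16852634))
(L (nat_lit 24682242)))
(L (nat_lit 21169688)))
(S (nat_lit 45166) (S (nat_lit 46117) (S (nat_lit 17257) (L (nat_lit 4660955))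
(L (nat_lit 10259862)))
(L (nat_lit 18579705)))
(L (nat_lit 25377441)))))
(S (nat_lit 51006) (S (nat_lit 7290) (S (nat_lit 26353) (S (nat_lit 6596) (L (nat_lit 1515162))
(L (nat_lit 514955)))
(L (nat_lit 30874647)))
(S (nat_lit 44356) (L (nat_lit 5759188))
(L (nat_lit 8444345))))
(L (nat_lit 25579654)))))
(S (nat_lit 46640) (S (nat_lit 13617) (S (nat_lit 46124) (S (nat_lit 5178) (S (nat_lit 4681) (L (nat_lit 8096528))
(L (nat_lit 18607177)))
(L (nat_lit 19340376)))
(S (nat_lit 58358) (L (nat_lit 20723718))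
(L (nat_lit 22847013))))
(S (nat_lit 33381) (S (nat_lit 8806) (S (nat_lit 31946) (S (nat_lit 8077) (S (nat_lit 319) (L (nat_lit 6314555))
(L (nat_lit 8095567)))
(L (nat_lit 23332687)))
(L (nat_lit 4581813)))
(S (nat_lit 46440) (L (nat_lit 10280323))
(L (nat_lit 7852899))))
(S (nat_lit 53145) (S (nat_lit 40281) (S (nat_lit 10274) (S (nat_lit 25153) (S (nat_lit 31242) (S (nat_lit 11688) (L (nat_lit 29530644))
(L (nat_lit 26713238)))
(L (nat_lit 17604323)))
(L (nat_lit 11551448)))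
(L (nat_lit 21425256)))
(L (nat_lit 16787163)))
(L (nat_lit 25339629)))))
(L (nat_lit 25732211)))))
(L (nat_lit 25365044)))))
(L (nat_lit 25542839)))))
(S (nat_lit 48572) (S (nat_lit 6845) (S (nat_lit 5591) (S (nat_lit 10935) (S (nat_lit 9313) (S (nat_lit 26627) (S (nat_lit 753) (S (nat_lit 11189) (S (nat_lit 44928) (S (nat_lit 26878) (S (nat_lit 17257) (L (nat_lit 7967569))
(L (nat_lit 14868726)))
(L (nat_lit 9986199)))
(L (nat_lit 23175675)))
(L (nat_lit 21766625)))
(L (nat_lit 18892024)))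
(S (nat_lit 44038) (L (nat_lit 7491993))
(L (nat_lit 18980345))))
(S (nat_lit 29077) (S (nat_lit 17257) (S (nat_lit 27841) (L (nat_lit 10032632))
(L (nat_lit 24937962)))
(L (nat_lit 26512787)))
(S (nat_lit 48841) (S (nat_lit 5400) (S (nat_lit 34412) (S (nat_lit 47348) (L (nat_lit 7393201))
(L (nat_lit 2866424)))
(L (nat_lit 3722585)))
(S (nat_lit 50188) (L (nat_lit 19456353))
(L (nat_lit 26262866))))
(L (nat_lit 25804129)))))
(S (nat_lit 30699) (S (nat_lit 11478) (S (nat_lit 34412) (S (nat_lit 48334) (S (nat_lit 5178) (S (nat_lit 17071) (S (nat_lit 6829) (S (nat_lit 17257) (S (nat_lit 7114) (S (nat_lit 31018) (S (nat_lit 46216) (L (nat_lit 667165))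
(L (nat_lit 14454408)))
(L (nat_lit 19268920)))
(L (nat_lit 5827304)))
(L (nat_lit 5628524)))
(L (nat_lit 21426217)))
(L (nat_lit 16976822)))
(L (nat_lit 26630250)))
(L (nat_lit 20421721)))
(S (nat_lit 51040) (L (nat_lit 26761539))
(L (nat_lit 11046834))))
(S (nat_lit 31242) (S (nat_lit 17300) (S (nat_lit 16847) (S (nat_lit 40564) (S (nat_lit 48334) (S (nat_lit 5389) (L (nat_lit 30529805))
(L (nat_lit 9262125)))
(L (nat_lit 6102769)))
(L (nat_lit 3882859)))
(L (nat_lit 24297352)))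
(S (nat_lit 26418) (L (nat_lit 10308717))
(L (nat_lit 5979452))))
(S (nat_lit 51006) (S (nat_lit 29077) (S (nat_lit 27308) (L (nat_lit 28739927))
(L (nat_lit 19152707)))
(S (nat_lit 47286) (L (nat_lit 21764581))
(L (nat_lit 18890077))))
(L (nat_lit 25581606)))))
(S (nat_lit 50463) (S (nat_lit 6589) (S (nat_lit 870) (L (nat_lit 26531884))
(S (nat_lit 7833) (S (nat_lit 30475) (L (nat_lit 29827127))
(L (nat_lit 1357719)))
(L (nat_lit 3453688))))
(S (nat_lit 26353) (S (nat_lit 8057) (S (nat_lit 319) (S (nat_lit 56574) (L (nat_lit 13687131))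
(L (nat_lit 6478704)))
(L (nat_lit 14389096)))
(S (nat_lit 27821) (S (nat_lit 44648) (L (nat_lit 22517575))
(L (nat_lit 24677193)))
(S (nat_lit 47585) (S (nat_lit 17257) (S (nat_lit 51710) (L (nat_lit 12914264))
(L (nat_lit 27870247)))
(L (nat_lit 15490276)))
(L (nat_lit 25934888)))))
(S (nat_lit 46117) (S (nat_lit 5389) (S (nat_lit 48334) (S (nat_lit 6829) (S (nat_lit 46644) (S (nat_lit 26627) (S (nat_lit 50993) (S (nat_lit 44928) (S (nat_lit 26586) (L (nat_lit 12423667))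
(L (nat_lit 5915898)))
(L (nat_lit 15461636)))
(L (nat_lit 20350328)))
(L (nat_lit 16570627)))
(L (nat_lit 22586397)))
(L (nat_lit 26887488)))
(L (nat_lit 15915289)))
(L (nat_lit 26228427)))
(L (nat_lit 25679912)))))
(L (nat_lit 25221327)))))
(S (nat_lit 25355) (S (nat_lit 5178) (S (nat_lit 7833) (S (nat_lit 11478) (S (nat_lit 4398) (S (nat_lit 10482) (L (nat_lit 9460189))
(L (nat_lit 20986137)))
(L (nat_lit 7353080)))
(L (nat_lit 7819416)))
(S (nat_lit 27597) (S (nat_lit 34849) (S (nat_lit 17046) (S (nat_lit 14648) (S (nat_lit 17257) (L (nat_lit 11376182))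
(L (nat_lit 15445857)))
(L (nat_lit 12474481)))
(L (nat_lit 14687928)))
(L (nat_lit 1828234)))
(S (nat_lit 47361) (S (nat_lit 44648) (S (nat_lit 11478) (S (nat_lit 56375) (S (nat_lit 20800) (L (nat_lit 3858637))
(L (nat_lit 21271992)))
(L (nat_lit 27530829)))
(L (nat_lit 20978104)))
(L (nat_lit 8293782)))
(L (nat_lit 25242349)))))
(S (nat_lit 24942) (S (nat_lit 14648) (S (nat_lit 11478) (S (nat_lit 11254) (S (nat_lit 17300) (S (nat_lit 48334) (S (nat_lit 10935) (S (nat_lit 9313) (L (nat_lit 6443887))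
(L (nat_lit 23561096)))
(L (nat_lit 6948345)))
(L (nat_lit 20061753)))
(L (nat_lit 24166150)))
(L (nat_lit 21080912)))
(S (nat_lit 50847) (L (nat_lit 21831075))
(L (nat_lit 23465799))))
(S (nat_lit 34412) (S (nat_lit 2108) (L (nat_lit 13899702))
(S (nat_lit 31242) (S (nat_lit 30751) (S (nat_lit 47843) (L (nat_lit 30120047))
(L (nat_lit 17391720)))
(L (nat_lit 18952536)))
(L (nat_lit 17600070))))
(S (nat_lit 54176) (S (nat_lit 52946) (S (nat_lit 47843) (L (nat_lit 22191612))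
(L (nat_lit 17108600)))
(L (nat_lit 19336536)))
(L (nat_lit 25824710)))))
(S (nat_lit 44706) (S (nat_lit 14648) (S (nat_lit 27538) (L (nat_lit 26523297))
(S (nat_lit 34096) (L (nat_lit 24123960))
(L (nat_lit 12904033))))
(S (nat_lit 48961) (S (nat_lit 34412) (L (nat_lit 11964029))
(L (nat_lit 20483417)))
(L (nat_lit 26807633))))
(L (nat_lit 25896017)))))
(S (nat_lit 45119) (S (nat_lit 8806) (S (nat_lit 49802) (S (nat_lit 54905) (S (nat_lit 36611) (L (nat_lit 9949272))
(L (nat_lit 3434061)))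
(L (nat_lit 21466392)))
(L (nat_lit 6786648)))
(S (nat_lit 28570) (S (nat_lit 5178) (S (nat_lit 36835) (S (nat_lit 37144) (L (nat_lit 3581811))
(S (nat_lit 56828) (S (nat_lit 34849) (L (nat_lit 15946595))
(L (nat_lit 23994479)))
(L (nat_lit 2497272))))
(L (nat_lit 12710474)))
(S (nat_lit 47287) (S (nat_lit 36835) (L (nat_lit 545610))
(L (nat_lit 7959008)))
(L (nat_lit 26524289))))
(S (nat_lit 48334) (S (nat_lit 11478) (S (nat_lit 1577) (L (nat_lit 14487112))
(S (nat_lit 44648) (S (nat_lit 17300) (S (nat_lit 46355) (S (nat_lit 10987) (S (nat_lit 26627) (S (nat_lit 44917) (S (nat_lit 46644) (S (nat_lit 7112) (S (nat_lit 17071) (S (nat_lit 44313) (L (nat_lit 4570779))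
(L (nat_lit 2005743)))
(L (nat_lit 10378284)))
(L (nat_lit 14600386)))
(L (nat_lit 22554435)))
(L (nat_lit 25040331)))
(L (nat_lit 5957905)))
(L (nat_lit 23369613)))
(L (nat_lit 4052272)))
(L (nat_lit 26608358)))
(L (nat_lit 8228247))))
(S (nat_lit 31242) (S (nat_lit 15725) (L (nat_lit 5003533))
(S (nat_lit 54905) (S (nat_lit 28348) (L (nat_lit 24294250))
(L (nat_lit 19139128)))
(L (nat_lit 14440522))))
(S (nat_lit 51006) (S (nat_lit 1247) (S (nat_lit 26878) (S (nat_lit 8994) (S (nat_lit 34412) (L (nat_lit 28822819))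
(L (nat_lit 23956816)))
(L (nat_lit 2826094)))
(L (nat_lit 15376440)))
(L (nat_lit 14323559)))
(L (nat_lit 25630004)))))
(L (nat_lit 25599090)))))
(L (nat_lit 25741417)))))
(S (nat_lit 26609) (S (nat_lit 1247) (S (nat_lit 10935) (S (nat_lit 543) (S (nat_lit 49802) (S (nat_lit 17257) (S (nat_lit 26353) (L (nat_lit 19372960))
(L (nat_lit 15440952)))
(L (nat_lit 3531158)))
(L (nat_lit 22220344)))
(S (nat_lit 20307) (S (nat_lit 26360) (L (nat_lit 308921))
(S (nat_lit 39134) (L (nat_lit 16558135))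
(L (nat_lit 9558585))))
(S (nat_lit 40071) (S (nat_lit 37064) (S (nat_lit 44648) (S (nat_lit 20083) (L (nat_lit 29035887))
(L (nat_lit 8444408)))
(L (nat_lit 23410500)))
(L (nat_lit 11220800)))
(L (nat_lit 25250093)))))
(S (nat_lit 30699) (S (nat_lit 5178) (S (nat_lit 6508) (L (nat_lit 19062989))
(S (nat_lit 40281) (S (nat_lit 26876) (S (nat_lit 56599) (S (nat_lit 44917) (S (nat_lit 11254) (S (nat_lit 46162) (S (nat_lit 25164) (S (nat_lit 46626) (S (nat_lit 8806) (S (nat_lit 7114) (S (nat_lit 30953) (L (nat_lit 2760251))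
(L (nat_lit 30984419)))
(S (nat_lit 46483) (L (nat_lit 2410073))
(L (nat_lit 5940046))))
(L (nat_lit 26395368)))
(L (nat_lit 27315565)))
(L (nat_lit 31172687)))
(L (nat_lit 22177999)))
(L (nat_lit 16418664)))
(L (nat_lit 24647737)))
(L (nat_lit 16519754)))
(L (nat_lit 9101424)))
(L (nat_lit 24175146))))
(S (nat_lit 24942) (S (nat_lit 27584) (S (nat_lit 20294) (L (nat_lit 29504139))
(L (nat_lit 8446487)))
(L (nat_lit 18932265)))
(S (nat_lit 44706) (S (nat_lit 4565) (L (nat_lit 4514541))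
(S (nat_lit 17257) (S (nat_lit 43926) (S (nat_lit 51216) (L (nat_lit 19968902))
(L (nat_lit 13248321)))
(L (nat_lit 12803905)))
(L (nat_lit 24436780))))
(L (nat_lit 25417807)))))
(S (nat_lit 50463) (S (nat_lit 8806) (S (nat_lit 10482) (S (nat_lit 19816) (L (nat_lit 11581113))
(L (nat_lit 21467480)))
(L (nat_lit 23324130)))
(S (nat_lit 28570) (S (nat_lit 4892) (S (nat_lit 12182) (S (nat_lit 27106) (L (nat_lit 23900201))
(L (nat_lit 19670563)))
(L (nat_lit 16327488)))
(L (nat_lit 16390976)))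
(S (nat_lit 48334) (S (nat_lit 7609) (S (nat_lit 319) (L (nat_lit 10344928))
(L (nat_lit 19973960)))
(L (nat_lit 10536786)))
(L (nat_lit 25678114)))))
(L (nat_lit 25378433)))))
(S (nat_lit 21011) (S (nat_lit 6827) (S (nat_lit 17257) (S (nat_lit 24656) (L (nat_lit 13339996))
(L (nat_lit 22809900)))
(S (nat_lit 37021) (L (nat_lit 7769818))
(S (nat_lit 56785) (S (nat_lit 5178) (S (nat_lit 34849) (S (nat_lit 46350) (S (nat_lit 46626) (S (nat_lit 6596) (S (nat_lit 50515) (L (nat_lit 29657588))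
(L (nat_lit 13421891)))
(L (nat_lit 6382256)))
(L (nat_lit 22070087)))
(L (nat_lit 27479458)))
(L (nat_lit 16666980)))
(S (nat_lit 37666) (L (nat_lit 26973670))
(L (nat_lit 16488264))))
(L (nat_lit 25933866)))))
(S (nat_lit 26591) (S (nat_lit 13160) (S (nat_lit 47843) (S (nat_lit 44648) (L (nat_lit 15404378))
(L (nat_lit 15633719)))
(L (nat_lit 22940881)))
(S (nat_lit 32924) (S (nat_lit 46350) (L (nat_lit 12193680))
(L (nat_lit 11931355)))
(S (nat_lit 52688) (S (nat_lit 49802) (S (nat_lit 44420) (L (nat_lit 10882963))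
(L (nat_lit 23891467)))
(L (nat_lit 9014680)))
(L (nat_lit 25251210)))))
(S (nat_lit 46355) (S (nat_lit 7820) (S (nat_lit 11478) (S (nat_lit 50782) (S (nat_lit 8806) (S (nat_lit 10935) (S (nat_lit 56785) (S (nat_lit 34849) (L (nat_lit 30081358))
(L (nat_lit 15911754)))
(L (nat_lit 21501177)))
(L (nat_lit 23109177)))
(L (nat_lit 7987587)))
(L (nat_lit 27636288)))
(L (nat_lit 21389571)))
(S (nat_lit 27584) (S (nat_lit 34849) (S (nat_lit 50782) (S (nat_lit 46350) (S (nat_lit 28278) (S (nat_lit 56785) (L (nat_lit 29546951))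
(L (nat_lit 16047161)))
(L (nat_lit 16414051)))
(L (nat_lit 1780652)))
(L (nat_lit 13274393)))
(S (nat_lit 40943) (L (nat_lit 12192152))
(L (nat_lit 16419192))))
(S (nat_lit 47348) (S (nat_lit 30843) (L (nat_lit 12203873))
(S (nat_lit 34849) (S (nat_lit 5178) (S (nat_lit 6863) (S (nat_lit 11478) (L (nat_lit 18491448))
(L (nat_lit 7755833)))
(L (nat_lit 12640565)))
(L (nat_lit 19340408)))
(L (nat_lit 15059777))))
(L (nat_lit 25381378)))))
(L (nat_lit 25243217)))))
(S (nat_lit 40775) (S (nat_lit 7116) (S (nat_lit 6596) (S (nat_lit 30751) (S (nat_lit 6589) (L (nat_lit 3913081))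
(L (nat_lit 26974595)))
(L (nat_lit 24647032)))
(S (nat_lit 26360) (S (nat_lit 4026) (L (nat_lit 9111064))
(S (nat_lit 7098) (S (nat_lit 29007) (S (nat_lit 45119) (L (nat_lit 19232291))
(L (nat_lit 2672920)))
(L (nat_lit 9926341)))
(L (nat_lit 7392825))))
(S (nat_lit 46124) (S (nat_lit 17460) (S (nat_lit 47843) (L (nat_lit 931430))
(L (nat_lit 27610627)))
(S (nat_lit 56828) (S (nat_lit 31018) (S (nat_lit 31735) (L (nat_lit 6010662))
(L (nat_lit 712976)))
(L (nat_lit 18935305)))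
(L (nat_lit 18913816))))
(L (nat_lit 25287211)))))
(S (nat_lit 26880) (S (nat_lit 8057) (S (nat_lit 34849) (S (nat_lit 47348) (L (nat_lit 29964330))
(L (nat_lit 10042176)))
(L (nat_lit 1743256)))
(S (nat_lit 27821) (S (nat_lit 27584) (S (nat_lit 15085) (S (nat_lit 12182) (L (nat_lit 3842616))
(L (nat_lit 18426688)))
(L (nat_lit 10155393)))
(L (nat_lit 16507104)))
(S (nat_lit 47585) (S (nat_lit 15085) (S (nat_lit 10711) (L (nat_lit 15003297))
(L (nat_lit 14787383)))
(L (nat_lit 24945025)))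
(L (nat_lit 25410579)))))
(S (nat_lit 46644) (S (nat_lit 44420) (S (nat_lit 51710) (S (nat_lit 4398) (L (nat_lit 17569141))
(L (nat_lit 602456)))
(L (nat_lit 598456)))
(L (nat_lit 661944)))
(L (nat_lit 25512485)))))
(L (nat_lit 25207254)))))
(S (nat_lit 46373) (S (nat_lit 8514) (S (nat_lit 7609) (S (nat_lit 6589) (S (nat_lit 31229) (S (nat_lit 47072) (S (nat_lit 6596) (S (nat_lit 34849) (L (nat_lit 7045968))
(L (nat_lit 23389569)))
(L (nat_lit 26532016)))
(L (nat_lit 27999555)))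
(L (nat_lit 1357435)))
(S (nat_lit 26353) (S (nat_lit 53145) (S (nat_lit 9243) (L (nat_lit 24224153))
(L (nat_lit 8144579)))
(L (nat_lit 27711683)))
(S (nat_lit 46117) (S (nat_lit 13617) (S (nat_lit 10935) (L (nat_lit 14491267))
(L (nat_lit 23632952)))
(L (nat_lit 24328312)))
(L (nat_lit 25657554)))))
(S (nat_lit 27373) (S (nat_lit 13687) (S (nat_lit 50993) (S (nat_lit 29077) (S (nat_lit 5178) (L (nat_lit 12845939))
(L (nat_lit 19181689)))
(L (nat_lit 13423972)))
(L (nat_lit 20743563)))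
(S (nat_lit 33451) (S (nat_lit 9243) (S (nat_lit 27841) (S (nat_lit 13368) (S (nat_lit 17046) (S (nat_lit 29077) (L (nat_lit 11550393))
(L (nat_lit 1747453)))
(L (nat_lit 14706997)))
(L (nat_lit 13832825)))
(L (nat_lit 16549207)))
(L (nat_lit 17460451)))
(S (nat_lit 53215) (S (nat_lit 17046) (S (nat_lit 50782) (S (nat_lit 19816) (L (nat_lit 747727))
(L (nat_lit 2907470)))
(L (nat_lit 11952306)))
(L (nat_lit 26401072)))
(L (nat_lit 25510998)))))
(S (nat_lit 47137) (S (nat_lit 10274) (S (nat_lit 17046) (S (nat_lit 15377) (L (nat_lit 4081355))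
(L (nat_lit 26397965)))
(L (nat_lit 22191577)))
(S (nat_lit 30038) (S (nat_lit 11478) (S (nat_lit 8994) (S (nat_lit 34849) (S (nat_lit 40058) (S (nat_lit 5178) (S (nat_lit 46117) (L (nat_lit 10965019))
(L (nat_lit 22327353)))
(L (nat_lit 1356627)))
(L (nat_lit 23111224)))
(L (nat_lit 1364814)))
(L (nat_lit 16916056)))
(L (nat_lit 3630662)))
(S (nat_lit 49802) (S (nat_lit 26360) (S (nat_lit 13368) (S (nat_lit 15585) (L (nat_lit 9169345))
(L (nat_lit 16948889)))
(L (nat_lit 6720120)))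
(L (nat_lit 3907376)))
(L (nat_lit 25659976)))))
(L (nat_lit 25218254)))))
(S (nat_lit 28278) (S (nat_lit 9313) (S (nat_lit 10482) (S (nat_lit 46355) (S (nat_lit 39847) (L (nat_lit 29740172))
(L (nat_lit 11243001)))
(L (nat_lit 17501464)))
(S (nat_lit 30246) (S (nat_lit 30475) (S (nat_lit 19764) (L (nat_lit 22213033))
(L (nat_lit 14687868)))
(L (nat_lit 30723521)))
(S (nat_lit 50010) (S (nat_lit 17046) (L (nat_lit 1972844))
(L (nat_lit 22584408)))
(L (nat_lit 25397684)))))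
(S (nat_lit 29077) (S (nat_lit 254) (S (nat_lit 753) (S (nat_lit 34849) (S (nat_lit 46391) (S (nat_lit 50993) (L (nat_lit 28758186))
(L (nat_lit 14965848)))
(L (nat_lit 11136481)))
(L (nat_lit 1427192)))
(L (nat_lit 1687864)))
(S (nat_lit 20018) (S (nat_lit 33381) (S (nat_lit 5400) (S (nat_lit 27308) (S (nat_lit 50010) (L (nat_lit 4472413))
(L (nat_lit 1666475)))
(L (nat_lit 6715011)))
(L (nat_lit 16026200)))
(L (nat_lit 30824675)))
(S (nat_lit 39782) (S (nat_lit 27308) (S (nat_lit 35578) (S (nat_lit 46355) (S (nat_lit 34849) (L (nat_lit 4083052))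
(L (nat_lit 1495879)))
(L (nat_lit 10906179)))
(L (nat_lit 1266508)))
(L (nat_lit 24522627)))
(L (nat_lit 25311447)))))
(S (nat_lit 48841) (S (nat_lit 753) (S (nat_lit 12182) (S (nat_lit 46355) (L (nat_lit 483914))
(L (nat_lit 22908363)))
(L (nat_lit 23505728)))
(S (nat_lit 20517) (S (nat_lit 3793) (L (nat_lit 4795212))
(S (nat_lit 12182) (S (nat_lit 5178) (S (nat_lit 50463) (S (nat_lit 10711) (L (nat_lit 28493450))
(L (nat_lit 3882794)))
(L (nat_lit 12644039)))
(L (nat_lit 8870720)))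
(L (nat_lit 21408578))))
(S (nat_lit 40281) (S (nat_lit 52946) (S (nat_lit 7098) (S (nat_lit 30475) (L (nat_lit 17495393))
(L (nat_lit 11030337)))
(L (nat_lit 8096312)))
(L (nat_lit 11559442)))
(L (nat_lit 25798144)))))
(L (nat_lit 25668260)))))
(S (nat_lit 48042) (S (nat_lit 0) (S (nat_lit 6829) (S (nat_lit 7290) (S (nat_lit 34849) (L (nat_lit 26608948))
(L (nat_lit 8119681)))
(L (nat_lit 23332248)))
(S (nat_lit 26593) (S (nat_lit 24445) (S (nat_lit 14856) (S (nat_lit 46355) (L (nat_lit 6686394))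
(L (nat_lit 20317995)))
(L (nat_lit 9463437)))
(L (nat_lit 21389385)))
(S (nat_lit 46357) (S (nat_lit 34849) (S (nat_lit 5178) (L (nat_lit 6686396))
(L (nat_lit 1464696)))
(L (nat_lit 1462648)))
(L (nat_lit 25595250)))))
(S (nat_lit 19764) (S (nat_lit 20307) (S (nat_lit 46870) (S (nat_lit 39580) (S (nat_lit 52896) (S (nat_lit 46355) (S (nat_lit 30751) (S (nat_lit 17046) (L (nat_lit 28483030))
(L (nat_lit 14688021)))
(L (nat_lit 3427736)))
(L (nat_lit 17730867)))
(L (nat_lit 19108749)))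
(L (nat_lit 17705667)))
(L (nat_lit 22519619)))
(S (nat_lit 32808) (L (nat_lit 7012762))
(L (nat_lit 22028045))))
(S (nat_lit 39528) (S (nat_lit 34849) (S (nat_lit 5178) (S (nat_lit 7544) (S (nat_lit 753) (S (nat_lit 35349) (S (nat_lit 37021) (L (nat_lit 10531767))
(L (nat_lit 7528369)))
(L (nat_lit 18111610)))
(L (nat_lit 20715050)))
(L (nat_lit 26950915)))
(S (nat_lit 40643) (L (nat_lit 16328792))
(L (nat_lit 20230976))))
(L (nat_lit 4639096)))
(L (nat_lit 25592051)))))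
(L (nat_lit 25282955)))))
(L (nat_lit 25175539)))))
(L (nat_lit 25185706)))))

theorem rb179_4 : run 4 lb179 [] tb179_4 kb179 (P4 4 2197 2355 2217 5601 1 0 0 0) [] = true := by
  decide +kernel

noncomputable def ta13_1 : Tr :=
(S (nat_lit 836) (S (nat_lit 1482) (S (nat_lit 1302) (S (nat_lit 1718) (S (nat_lit 740) (S (nat_lit 4784) (L (nat_lit 342194))
(L (nat_lit 436274)))
(L (nat_lit 214071)))
(S (nat_lit 3932) (L (nat_lit 148755))
(S (nat_lit 6146) (S (nat_lit 4) (S (nat_lit 6119) (S (nat_lit 700) (L (nat_lit 39442))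
(L (nat_lit 465601)))
(L (nat_lit 625095)))
(L (nat_lit 216174)))
(L (nat_lit 606436)))))
(S (nat_lit 3516) (S (nat_lit 92) (S (nat_lit 422) (S (nat_lit 4432) (S (nat_lit 5911) (S (nat_lit 5706) (L (nat_lit 402581))
(L (nat_lit 393897)))
(L (nat_lit 665987)))
(L (nat_lit 668745)))
(L (nat_lit 629282)))
(S (nat_lit 3012) (L (nat_lit 771143))
(S (nat_lit 6439) (S (nat_lit 2605) (L (nat_lit 215181))
(L (nat_lit 659823)))
(L (nat_lit 229814)))))
(S (nat_lit 5730) (S (nat_lit 1303) (S (nat_lit 3697) (S (nat_lit 92) (S (nat_lit 2143) (L (nat_lit 366039))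
(L (nat_lit 53738)))
(S (nat_lit 5469) (L (nat_lit 299573))
(L (nat_lit 398583))))
(S (nat_lit 5027) (L (nat_lit 416939))
(L (nat_lit 437394))))
(S (nat_lit 3517) (S (nat_lit 3495) (L (nat_lit 253381))
(L (nat_lit 721449)))
(S (nat_lit 5731) (S (nat_lit 497) (S (nat_lit 5021) (L (nat_lit 342130))
(L (nat_lit 198225)))
(L (nat_lit 436804)))
(L (nat_lit 592298)))))
(L (nat_lit 601134)))))
(S (nat_lit 3696) (S (nat_lit 1483) (S (nat_lit 1303) (S (nat_lit 1868) (L (nat_lit 698817))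
(S (nat_lit 4978) (S (nat_lit 3516) (S (nat_lit 4520) (L (nat_lit 412779))
(L (nat_lit 669834)))
(L (nat_lit 568374)))
(L (nat_lit 174518))))
(S (nat_lit 3517) (S (nat_lit 743) (L (nat_lit 112978))
(L (nat_lit 218191)))
(S (nat_lit 5731) (S (nat_lit 267) (L (nat_lit 692678))
(L (nat_lit 284845)))
(L (nat_lit 592295)))))
(S (nat_lit 3697) (S (nat_lit 500) (S (nat_lit 3971) (L (nat_lit 174705))
(S (nat_lit 4223) (L (nat_lit 174705))
(L (nat_lit 76339))))
(S (nat_lit 2714) (L (nat_lit 174486))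
(S (nat_lit 4928) (S (nat_lit 4850) (S (nat_lit 889) (L (nat_lit 460052))
(L (nat_lit 769344)))
(L (nat_lit 309888)))
(L (nat_lit 593136)))))
(S (nat_lit 5911) (S (nat_lit 1241) (S (nat_lit 5730) (S (nat_lit 2306) (L (nat_lit 120077))
(L (nat_lit 286113)))
(L (nat_lit 266679)))
(S (nat_lit 3455) (S (nat_lit 267) (S (nat_lit 4523) (L (nat_lit 174701))
(L (nat_lit 660753)))
(L (nat_lit 431411)))
(S (nat_lit 5669) (S (nat_lit 1718) (L (nat_lit 110870))
(L (nat_lit 497846)))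
(L (nat_lit 595368)))))
(L (nat_lit 602248)))))
(S (nat_lit 5910) (S (nat_lit 422) (S (nat_lit 267) (S (nat_lit 497) (S (nat_lit 6146) (L (nat_lit 202449))
(L (nat_lit 415879)))
(S (nat_lit 2143) (S (nat_lit 4401) (L (nat_lit 47719))
(L (nat_lit 636096)))
(L (nat_lit 447844))))
(S (nat_lit 2481) (S (nat_lit 59) (L (nat_lit 179878))
(S (nat_lit 4520) (S (nat_lit 2807) (S (nat_lit 5308) (L (nat_lit 310946))
(L (nat_lit 630865)))
(L (nat_lit 478401)))
(L (nat_lit 524970))))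
(S (nat_lit 4695) (S (nat_lit 3517) (S (nat_lit 59) (L (nat_lit 267731))
(S (nat_lit 2245) (S (nat_lit 2098) (L (nat_lit 529127))
(L (nat_lit 760352)))
(L (nat_lit 143639))))
(S (nat_lit 5703) (L (nat_lit 346562))
(L (nat_lit 404535))))
(L (nat_lit 597133)))))
(S (nat_lit 2636) (S (nat_lit 1303) (S (nat_lit 500) (S (nat_lit 55) (L (nat_lit 545027))
(S (nat_lit 4520) (S (nat_lit 1718) (S (nat_lit 1483) (S (nat_lit 1243) (S (nat_lit 1528) (S (nat_lit 1200) (S (nat_lit 785) (S (nat_lit 39) (S (nat_lit 1526) (S (nat_lit 1984) (S (nat_lit 1521) (S (nat_lit 8) (D (nat_lit 14) (nat_lit 199158) (nat_lit 230093) (nat_lit 0))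
(L (nat_lit 401093)))
(L (nat_lit 770273)))
(L (nat_lit 233104)))
(L (nat_lit 331438)))
(L (nat_lit 670791)))
(L (nat_lit 178422)))
(L (nat_lit 493194)))
(L (nat_lit 724425)))
(L (nat_lit 688586)))
(L (nat_lit 24009)))
(S (nat_lit 3932) (S (nat_lit 5168) (S (nat_lit 4432) (S (nat_lit 3697) (S (nat_lit 4614) (S (nat_lit 1675) (S (nat_lit 4622) (S (nat_lit 4428) (S (nat_lit 6286) (S (nat_lit 4427) (S (nat_lit 2251) (S (nat_lit 2441) (S (nat_lit 2811) (S (nat_lit 43) (D (nat_lit 14) (nat_lit 262644) (nat_lit 7820) (nat_lit 0))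
(L (nat_lit 265967)))
(L (nat_lit 275172)))
(L (nat_lit 286084)))
(L (nat_lit 626056)))
(L (nat_lit 464242)))
(L (nat_lit 444609)))
(L (nat_lit 525030)))
(L (nat_lit 393831)))
(S (nat_lit 2481) (S (nat_lit 3455) (S (nat_lit 6002) (S (nat_lit 5956) (S (nat_lit 2436) (S (nat_lit 609) (S (nat_lit 377) (S (nat_lit 2011) (S (nat_lit 2160) (S (nat_lit 4035) (D (nat_lit 12) (nat_lit 575558) (nat_lit 219653) (nat_lit 0))
(L (nat_lit 230127)))
(L (nat_lit 738595)))
(L (nat_lit 283725)))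
(L (nat_lit 695809)))
(L (nat_lit 695340)))
(L (nat_lit 446602)))
(L (nat_lit 547141)))
(L (nat_lit 705856)))
(L (nat_lit 576773)))
(L (nat_lit 478376))))
(L (nat_lit 82261)))
(L (nat_lit 430761)))
(L (nat_lit 137838)))
(L (nat_lit 494251)))
(S (nat_lit 6146) (S (nat_lit 2981) (S (nat_lit 5911) (S (nat_lit 4226) (S (nat_lit 2957) (D (nat_lit 8) (nat_lit 444608) (nat_lit 602304) (nat_lit 35501638656))
(L (nat_lit 411908)))
(L (nat_lit 726252)))
(L (nat_lit 659912)))
(L (nat_lit 495242)))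
(L (nat_lit 603273)))))
(L (nat_lit 360884))))
(S (nat_lit 6118) (L (nat_lit 363991))
(L (nat_lit 625904))))
(S (nat_lit 5695) (L (nat_lit 153064))
(L (nat_lit 149772))))
(S (nat_lit 4850) (S (nat_lit 95) (S (nat_lit 1302) (L (nat_lit 512071))
(S (nat_lit 6366) (S (nat_lit 1637) (L (nat_lit 332428))
(L (nat_lit 245783)))
(L (nat_lit 84393))))
(S (nat_lit 2309) (S (nat_lit 2186) (L (nat_lit 328270))
(S (nat_lit 2214) (S (nat_lit 207) (L (nat_lit 266956))
(S (nat_lit 5731) (S (nat_lit 4696) (L (nat_lit 315841))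
(L (nat_lit 531638)))
(L (nat_lit 671847))))
(L (nat_lit 481472))))
(S (nat_lit 4523) (S (nat_lit 1) (L (nat_lit 47719))
(S (nat_lit 2206) (S (nat_lit 4082) (S (nat_lit 5168) (L (nat_lit 364021))
(L (nat_lit 434196)))
(L (nat_lit 141902)))
(L (nat_lit 52431))))
(L (nat_lit 599521)))))
(L (nat_lit 591367)))))
(L (nat_lit 600207)))))
(S (nat_lit 3050) (S (nat_lit 740) (S (nat_lit 1302) (S (nat_lit 268) (S (nat_lit 2807) (S (nat_lit 2215) (S (nat_lit 156) (L (nat_lit 466037))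
(L (nat_lit 50823)))
(L (nat_lit 262578)))
(L (nat_lit 349697)))
(S (nat_lit 2482) (S (nat_lit 0) (S (nat_lit 8) (S (nat_lit 4925) (S (nat_lit 4520) (S (nat_lit 4614) (L (nat_lit 10679))
(L (nat_lit 11852)))
(L (nat_lit 48810)))
(L (nat_lit 212645)))
(L (nat_lit 623984)))
(L (nat_lit 433202)))
(S (nat_lit 4696) (S (nat_lit 2222) (S (nat_lit 422) (S (nat_lit 1482) (L (nat_lit 11702))
(L (nat_lit 634240)))
(L (nat_lit 634400)))
(L (nat_lit 460459)))
(L (nat_lit 607458)))))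
(S (nat_lit 3516) (S (nat_lit 4432) (S (nat_lit 3744) (L (nat_lit 565300))
(S (nat_lit 4928) (S (nat_lit 3696) (S (nat_lit 1303) (S (nat_lit 3932) (S (nat_lit 4850) (S (nat_lit 4614) (S (nat_lit 4520) (S (nat_lit 4377) (S (nat_lit 2368) (S (nat_lit 2736) (S (nat_lit 3082) (S (nat_lit 921) (S (nat_lit 4406) (S (nat_lit 1596) (S (nat_lit 6180) (S (nat_lit 8) (D (nat_lit 8) (nat_lit 314413) (nat_lit 498240) (nat_lit 32832))
(L (nat_lit 394986)))
(L (nat_lit 80183)))
(L (nat_lit 769314)))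
(L (nat_lit 283729)))
(L (nat_lit 702503)))
(L (nat_lit 466657)))
(L (nat_lit 630144)))
(L (nat_lit 412897)))
(S (nat_lit 4950) (S (nat_lit 1997) (S (nat_lit 2616) (S (nat_lit 4271) (S (nat_lit 439) (S (nat_lit 1366) (S (nat_lit 6046) (S (nat_lit 3714) (S (nat_lit 2058) (S (nat_lit 2758) (D (nat_lit 12) (nat_lit 413766) (nat_lit 150863) (nat_lit 0))
(L (nat_lit 88302)))
(L (nat_lit 435906)))
(L (nat_lit 696704)))
(L (nat_lit 635236)))
(L (nat_lit 761312)))
(L (nat_lit 700705)))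
(L (nat_lit 690600)))
(L (nat_lit 414794)))
(L (nat_lit 449796)))
(L (nat_lit 393525))))
(L (nat_lit 524530)))
(L (nat_lit 577861)))
(L (nat_lit 22769)))
(L (nat_lit 767205)))
(L (nat_lit 633905)))
(L (nat_lit 447841)))
(L (nat_lit 200180))))
(S (nat_lit 6239) (S (nat_lit 4850) (L (nat_lit 564339))
(L (nat_lit 576585)))
(L (nat_lit 578818))))
(S (nat_lit 5730) (S (nat_lit 4) (S (nat_lit 2636) (S (nat_lit 3455) (L (nat_lit 43509))
(L (nat_lit 769220)))
(L (nat_lit 212640)))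
(S (nat_lit 2218) (S (nat_lit 2758) (L (nat_lit 341170))
(S (nat_lit 5910) (S (nat_lit 1483) (S (nat_lit 2481) (L (nat_lit 730225))
(L (nat_lit 466593)))
(L (nat_lit 22985)))
(L (nat_lit 397895))))
(S (nat_lit 4432) (S (nat_lit 1483) (S (nat_lit 678) (S (nat_lit 4377) (L (nat_lit 9718))
(L (nat_lit 426599)))
(S (nat_lit 3851) (S (nat_lit 4614) (L (nat_lit 449889))
(L (nat_lit 667139)))
(L (nat_lit 42668))))
(S (nat_lit 2577) (L (nat_lit 170455))
(L (nat_lit 56685))))
(L (nat_lit 602370)))))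
(L (nat_lit 594347)))))
(S (nat_lit 2954) (S (nat_lit 186) (S (nat_lit 8) (S (nat_lit 1090) (S (nat_lit 4905) (L (nat_lit 333301))
(L (nat_lit 247853)))
(S (nat_lit 5858) (S (nat_lit 5883) (S (nat_lit 1) (S (nat_lit 6065) (S (nat_lit 4928) (L (nat_lit 578571))
(L (nat_lit 544068)))
(L (nat_lit 19820)))
(L (nat_lit 19881)))
(L (nat_lit 444737)))
(L (nat_lit 20812))))
(S (nat_lit 2222) (S (nat_lit 1303) (S (nat_lit 3696) (S (nat_lit 4928) (S (nat_lit 2309) (L (nat_lit 700587))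
(L (nat_lit 768170)))
(L (nat_lit 183632)))
(L (nat_lit 445760)))
(L (nat_lit 314848)))
(S (nat_lit 4436) (S (nat_lit 4928) (S (nat_lit 4520) (S (nat_lit 4523) (L (nat_lit 284165))
(L (nat_lit 543755)))
(L (nat_lit 566420)))
(L (nat_lit 658769)))
(L (nat_lit 591371)))))
(S (nat_lit 2400) (S (nat_lit 92) (S (nat_lit 6296) (S (nat_lit 497) (L (nat_lit 698445))
(L (nat_lit 436837)))
(L (nat_lit 467552)))
(S (nat_lit 2306) (S (nat_lit 4928) (S (nat_lit 3696) (S (nat_lit 2676) (L (nat_lit 43729))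
(L (nat_lit 296404)))
(L (nat_lit 314816)))
(L (nat_lit 665713)))
(S (nat_lit 4520) (S (nat_lit 2482) (S (nat_lit 2481) (S (nat_lit 3696) (S (nat_lit 2957) (L (nat_lit 76278))
(L (nat_lit 756106)))
(L (nat_lit 764288)))
(L (nat_lit 771360)))
(S (nat_lit 6482) (S (nat_lit 3696) (L (nat_lit 174484))
(L (nat_lit 766272)))
(L (nat_lit 501410))))
(L (nat_lit 598096)))))
(S (nat_lit 4614) (S (nat_lit 92) (S (nat_lit 4928) (S (nat_lit 3336) (L (nat_lit 496852))
(L (nat_lit 727525)))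
(L (nat_lit 576741)))
(S (nat_lit 2306) (S (nat_lit 4523) (L (nat_lit 374866))
(L (nat_lit 565268)))
(S (nat_lit 4520) (S (nat_lit 2309) (L (nat_lit 563285))
(S (nat_lit 5317) (S (nat_lit 4432) (L (nat_lit 41644))
(L (nat_lit 564342)))
(L (nat_lit 313361))))
(L (nat_lit 605323)))))
(L (nat_lit 592236)))))
(S (nat_lit 5168) (S (nat_lit 4) (S (nat_lit 1303) (S (nat_lit 3697) (S (nat_lit 6146) (S (nat_lit 4520) (S (nat_lit 4850) (S (nat_lit 2400) (S (nat_lit 1302) (S (nat_lit 4928) (S (nat_lit 3696) (S (nat_lit 3800) (S (nat_lit 2165) (S (nat_lit 5198) (S (nat_lit 1083) (S (nat_lit 1637) (S (nat_lit 5994) (S (nat_lit 1910) (S (nat_lit 2819) (S (nat_lit 4910) (S (nat_lit 5689) (D (nat_lit 12) (nat_lit 667938) (nat_lit 630863) (nat_lit 0))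
(L (nat_lit 465046)))
(L (nat_lit 631269)))
(L (nat_lit 622982)))
(L (nat_lit 40556)))
(L (nat_lit 761379)))
(L (nat_lit 577547)))
(L (nat_lit 411842)))
(L (nat_lit 209505)))
(L (nat_lit 411872)))
(S (nat_lit 6065) (S (nat_lit 4523) (S (nat_lit 0) (S (nat_lit 1) (S (nat_lit 2807) (S (nat_lit 4925) (S (nat_lit 1868) (S (nat_lit 443) (S (nat_lit 1294) (S (nat_lit 5533) (S (nat_lit 4104) (D (nat_lit 8) (nat_lit 546048) (nat_lit 477444) (nat_lit 34395422784))
(L (nat_lit 401590)))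
(L (nat_lit 281057)))
(L (nat_lit 734467)))
(S (nat_lit 5692) (S (nat_lit 6513) (S (nat_lit 1826) (S (nat_lit 4059) (S (nat_lit 4271) (S (nat_lit 3623) (S (nat_lit 6190) (D (nat_lit 8) (nat_lit 628230) (nat_lit 477408) (nat_lit 34393360450))
(L (nat_lit 738528)))
(L (nat_lit 268013)))
(L (nat_lit 470753)))
(L (nat_lit 662051)))
(L (nat_lit 661889)))
(L (nat_lit 738499)))
(L (nat_lit 694656))))
(L (nat_lit 575842)))
(L (nat_lit 670052)))
(L (nat_lit 761968)))
(L (nat_lit 393428)))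
(L (nat_lit 393426)))
(L (nat_lit 655819)))
(L (nat_lit 460427))))
(L (nat_lit 765312)))
(L (nat_lit 278212)))
(L (nat_lit 468676)))
(L (nat_lit 765445)))
(L (nat_lit 14580)))
(L (nat_lit 366256)))
(L (nat_lit 396935)))
(S (nat_lit 5150) (L (nat_lit 78503))
(L (nat_lit 300717))))
(S (nat_lit 2341) (L (nat_lit 19851))
(S (nat_lit 5786) (S (nat_lit 2400) (S (nat_lit 944) (L (nat_lit 8695))
(L (nat_lit 43447)))
(L (nat_lit 280229)))
(L (nat_lit 634272)))))
(S (nat_lit 2218) (S (nat_lit 500) (S (nat_lit 3696) (L (nat_lit 174546))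
(L (nat_lit 275105)))
(S (nat_lit 2714) (S (nat_lit 2807) (L (nat_lit 346221))
(L (nat_lit 347651)))
(S (nat_lit 4928) (S (nat_lit 1303) (S (nat_lit 2165) (L (nat_lit 477413))
(S (nat_lit 2482) (S (nat_lit 1482) (L (nat_lit 480423))
(L (nat_lit 515238)))
(L (nat_lit 83622))))
(S (nat_lit 5686) (L (nat_lit 150056))
(L (nat_lit 379948))))
(L (nat_lit 604230)))))
(S (nat_lit 4432) (S (nat_lit 422) (S (nat_lit 1868) (L (nat_lit 329420))
(L (nat_lit 511017)))
(S (nat_lit 2636) (S (nat_lit 2482) (S (nat_lit 3851) (L (nat_lit 232143))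
(L (nat_lit 145067)))
(L (nat_lit 501411)))
(S (nat_lit 4850) (S (nat_lit 4520) (S (nat_lit 4614) (S (nat_lit 6146) (S (nat_lit 886) (L (nat_lit 263575))
(L (nat_lit 503456)))
(L (nat_lit 231826)))
(L (nat_lit 348707)))
(L (nat_lit 524530)))
(L (nat_lit 605193)))))
(L (nat_lit 597442)))))
(L (nat_lit 593355)))))
(S (nat_lit 5264) (S (nat_lit 1) (S (nat_lit 1303) (S (nat_lit 268) (S (nat_lit 8) (S (nat_lit 497) (S (nat_lit 5730) (S (nat_lit 4695) (S (nat_lit 3851) (S (nat_lit 1241) (S (nat_lit 4428) (S (nat_lit 4520) (S (nat_lit 364) (S (nat_lit 4948) (S (nat_lit 95) (S (nat_lit 4308) (S (nat_lit 537) (S (nat_lit 277) (S (nat_lit 311) (D (nat_lit 14) (nat_lit 607370) (nat_lit 727181) (nat_lit 0))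
(L (nat_lit 563844)))
(L (nat_lit 656939)))
(L (nat_lit 345825)))
(L (nat_lit 318543)))
(L (nat_lit 75440)))
(L (nat_lit 697888)))
(L (nat_lit 513376)))
(L (nat_lit 113874)))
(L (nat_lit 578599)))
(L (nat_lit 308406)))
(L (nat_lit 311904)))
(L (nat_lit 311872)))
(L (nat_lit 447682)))
(L (nat_lit 436837)))
(L (nat_lit 411973)))
(S (nat_lit 2482) (S (nat_lit 3662) (L (nat_lit 235061))
(S (nat_lit 3851) (S (nat_lit 8) (S (nat_lit 743) (S (nat_lit 4695) (S (nat_lit 1482) (L (nat_lit 763393))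
(L (nat_lit 637281)))
(L (nat_lit 671968)))
(S (nat_lit 932) (L (nat_lit 215213))
(L (nat_lit 42669))))
(L (nat_lit 426730)))
(L (nat_lit 42604))))
(S (nat_lit 4696) (S (nat_lit 2714) (S (nat_lit 4695) (S (nat_lit 3851) (S (nat_lit 2711) (S (nat_lit 743) (S (nat_lit 6146) (S (nat_lit 5915) (S (nat_lit 2514) (S (nat_lit 2741) (D (nat_lit 8) (nat_lit 413888) (nat_lit 295410) (nat_lit 67141665))
(L (nat_lit 526675)))
(L (nat_lit 428618)))
(L (nat_lit 690730)))
(L (nat_lit 666796)))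
(L (nat_lit 231990)))
(L (nat_lit 113352)))
(L (nat_lit 308832)))
(L (nat_lit 149064)))
(S (nat_lit 4910) (L (nat_lit 186701))
(L (nat_lit 247889))))
(L (nat_lit 607459)))))
(S (nat_lit 3517) (S (nat_lit 0) (S (nat_lit 2400) (S (nat_lit 1482) (L (nat_lit 732672))
(L (nat_lit 632975)))
(L (nat_lit 49767)))
(S (nat_lit 2214) (S (nat_lit 2309) (S (nat_lit 2482) (S (nat_lit 5669) (L (nat_lit 625063))
(L (nat_lit 170639)))
(L (nat_lit 511147)))
(L (nat_lit 509963)))
(S (nat_lit 4428) (S (nat_lit 2218) (S (nat_lit 3851) (L (nat_lit 738656))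
(L (nat_lit 276064)))
(L (nat_lit 754959)))
(L (nat_lit 590214)))))
(S (nat_lit 5731) (S (nat_lit 500) (S (nat_lit 3851) (S (nat_lit 2636) (S (nat_lit 1868) (L (nat_lit 697388))
(L (nat_lit 501911)))
(L (nat_lit 378960)))
(L (nat_lit 313420)))
(S (nat_lit 2714) (S (nat_lit 27) (S (nat_lit 5021) (L (nat_lit 215493))
(L (nat_lit 542913)))
(S (nat_lit 5444) (L (nat_lit 170573))
(L (nat_lit 85415))))
(S (nat_lit 4928) (S (nat_lit 5669) (L (nat_lit 104949))
(L (nat_lit 661989)))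
(L (nat_lit 600517)))))
(L (nat_lit 594129)))))
(S (nat_lit 2215) (S (nat_lit 268) (S (nat_lit 4385) (L (nat_lit 498805))
(S (nat_lit 4520) (S (nat_lit 4436) (S (nat_lit 497) (S (nat_lit 1303) (S (nat_lit 3516) (S (nat_lit 2481) (S (nat_lit 1241) (L (nat_lit 668808))
(L (nat_lit 482438)))
(L (nat_lit 468116)))
(L (nat_lit 173492)))
(L (nat_lit 380389)))
(L (nat_lit 54696)))
(L (nat_lit 525650)))
(L (nat_lit 42386))))
(S (nat_lit 2482) (S (nat_lit 4) (S (nat_lit 2481) (S (nat_lit 2214) (S (nat_lit 2807) (S (nat_lit 6146) (S (nat_lit 2585) (S (nat_lit 2614) (S (nat_lit 5303) (S (nat_lit 1585) (S (nat_lit 5475) (S (nat_lit 4361) (S (nat_lit 392) (S (nat_lit 2762) (S (nat_lit 5108) (D (nat_lit 12) (nat_lit 511202) (nat_lit 499264) (nat_lit 0))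
(L (nat_lit 220239)))
(L (nat_lit 734467)))
(L (nat_lit 104919)))
(L (nat_lit 18764)))
(L (nat_lit 394856)))
(L (nat_lit 427624)))
(L (nat_lit 279668)))
(L (nat_lit 279602)))
(L (nat_lit 578883)))
(L (nat_lit 462407)))
(L (nat_lit 760353)))
(L (nat_lit 459398)))
(L (nat_lit 511265)))
(S (nat_lit 2218) (S (nat_lit 5669) (S (nat_lit 2714) (S (nat_lit 4105) (L (nat_lit 317956))
(L (nat_lit 81239)))
(L (nat_lit 114248)))
(L (nat_lit 282767)))
(S (nat_lit 4432) (S (nat_lit 2714) (S (nat_lit 6065) (L (nat_lit 19945))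
(L (nat_lit 460427)))
(L (nat_lit 510054)))
(L (nat_lit 603240)))))
(S (nat_lit 4696) (S (nat_lit 2711) (S (nat_lit 4520) (S (nat_lit 1303) (S (nat_lit 4436) (S (nat_lit 3455) (S (nat_lit 2714) (L (nat_lit 13524))
(L (nat_lit 244292)))
(L (nat_lit 251300)))
(L (nat_lit 580779)))
(L (nat_lit 379948)))
(L (nat_lit 524530)))
(S (nat_lit 3144) (L (nat_lit 118060))
(L (nat_lit 84358))))
(L (nat_lit 607398)))))
(S (nat_lit 4429) (S (nat_lit 1483) (S (nat_lit 4318) (S (nat_lit 4075) (L (nat_lit 48744))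
(L (nat_lit 492203)))
(S (nat_lit 4520) (S (nat_lit 237) (L (nat_lit 396011))
(S (nat_lit 1482) (S (nat_lit 4) (S (nat_lit 2400) (S (nat_lit 2222) (L (nat_lit 186886))
(L (nat_lit 497813)))
(L (nat_lit 478278)))
(L (nat_lit 216142)))
(L (nat_lit 11730))))
(L (nat_lit 565921))))
(S (nat_lit 3697) (S (nat_lit 267) (S (nat_lit 2008) (L (nat_lit 263730))
(S (nat_lit 2957) (S (nat_lit 5669) (S (nat_lit 5021) (S (nat_lit 186) (S (nat_lit 5168) (S (nat_lit 2218) (S (nat_lit 595) (S (nat_lit 3009) (S (nat_lit 3880) (S (nat_lit 2274) (S (nat_lit 4420) (S (nat_lit 74) (S (nat_lit 4389) (D (nat_lit 14) (nat_lit 543751) (nat_lit 20717) (nat_lit 0))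
(L (nat_lit 244917)))
(L (nat_lit 345701)))
(L (nat_lit 738531)))
(L (nat_lit 399972)))
(L (nat_lit 412865)))
(L (nat_lit 247822)))
(L (nat_lit 692527)))
(L (nat_lit 767235)))
(L (nat_lit 434853)))
(L (nat_lit 404562)))
(L (nat_lit 281089)))
(L (nat_lit 663693)))
(L (nat_lit 264781))))
(S (nat_lit 2481) (S (nat_lit 51) (L (nat_lit 397650))
(S (nat_lit 1482) (S (nat_lit 1303) (S (nat_lit 3455) (L (nat_lit 170418))
(L (nat_lit 562854)))
(L (nat_lit 85479)))
(L (nat_lit 496358))))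
(S (nat_lit 4695) (S (nat_lit 1482) (S (nat_lit 186) (S (nat_lit 4520) (L (nat_lit 695470))
(L (nat_lit 543939)))
(L (nat_lit 180966)))
(S (nat_lit 6326) (L (nat_lit 563777))
(L (nat_lit 568498))))
(L (nat_lit 595180)))))
(S (nat_lit 5911) (S (nat_lit 1303) (S (nat_lit 4520) (S (nat_lit 2954) (S (nat_lit 3932) (S (nat_lit 4614) (S (nat_lit 2714) (L (nat_lit 723334))
(L (nat_lit 461141)))
(L (nat_lit 543045)))
(L (nat_lit 84204)))
(L (nat_lit 559315)))
(L (nat_lit 383363)))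
(S (nat_lit 6033) (S (nat_lit 136) (L (nat_lit 341012))
(L (nat_lit 380325)))
(L (nat_lit 150951))))
(L (nat_lit 600240)))))
(L (nat_lit 591273)))))
(L (nat_lit 593263)))))

theorem ra13_1 : run 3 la13 [] ta13_1 ka13 (P4 3 3 623 79 623 0 0 1 0) [] = true := by
  decide +kernel

end Pool.Agent.MP_92191b_al.K3.E
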