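import Pool.Agent.MP_92191b_al.K3.CR5

/-! Refutation trees. -/

namespace Pool.Agent.MP_92191b_al.K3.E

open Tr

set_option maxRecDepth 100000

noncomputable def tb81_1 : Tr :=
(S (nat_lit 13877) (S (nat_lit 13183) (S (nat_lit 17033) (S (nat_lit 1) (S (nat_lit 8036) (S (nat_lit 8) (S (nat_lit 13391) (S (nat_lit 4) (S (nat_lit 14677) (L (nat_lit 14455062))
(S (nat_lit 34387) (S (nat_lit 29515) (L (nat_lit 969073))
(L (nat_lit 7074336)))
(L (nat_lit 8142403))))
(S (nat_lit 39451) (L (nat_lit 8172629))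
(L (nat_lit 26646613))))
(L (nat_lit 7784508)))
(L (nat_lit 6703261)))
(S (nat_lit 27800) (S (nat_lit 33155) (S (nat_lit 29514) (S (nat_lit 39536) (L (nat_lit 3546715))
(L (nat_lit 27657559)))
(S (nat_lit 31133) (S (nat_lit 22749) (L (nat_lit 402198))
(L (nat_lit 12881714)))
(L (nat_lit 7098914))))
(L (nat_lit 445226)))
(S (nat_lit 47564) (S (nat_lit 52919) (S (nat_lit 11501) (S (nat_lit 19772) (S (nat_lit 45188) (S (nat_lit 2499) (S (nat_lit 59025) (S (nat_lit 16082) (S (nat_lit 1042) (S (nat_lit 26084) (L (nat_lit 17076987))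
(L (nat_lit 17156992)))
(L (nat_lit 26267886)))
(L (nat_lit 420082)))
(L (nat_lit 18892683)))
(L (nat_lit 26269006)))
(L (nat_lit 8122754)))
(L (nat_lit 30656688)))
(L (nat_lit 7735932)))
(L (nat_lit 1461003)))
(L (nat_lit 25213141)))))
(S (nat_lit 19765) (S (nat_lit 2985) (S (nat_lit 5399) (S (nat_lit 7364) (S (nat_lit 10707) (L (nat_lit 18051093))
(L (nat_lit 26691593)))
(L (nat_lit 13214781)))
(S (nat_lit 25163) (S (nat_lit 30472) (S (nat_lit 36101) (L (nat_lit 17844472))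
(L (nat_lit 20353927)))
(L (nat_lit 12896285)))
(S (nat_lit 44927) (S (nat_lit 14138) (S (nat_lit 44435) (S (nat_lit 26642) (L (nat_lit 28484114))
(L (nat_lit 19424481)))
(L (nat_lit 452855)))
(L (nat_lit 14506209)))
(L (nat_lit 25353454)))))
(S (nat_lit 22749) (S (nat_lit 8585) (S (nat_lit 50480) (S (nat_lit 52001) (S (nat_lit 51693) (S (nat_lit 45188) (L (nat_lit 28554851))
(L (nat_lit 27676896)))
(L (nat_lit 13539412)))
(L (nat_lit 5466734)))
(L (nat_lit 5468780)))
(S (nat_lit 28349) (S (nat_lit 35846) (S (nat_lit 1042) (S (nat_lit 4) (S (nat_lit 45188) (L (nat_lit 26811438))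
(L (nat_lit 782572)))
(L (nat_lit 26228392)))
(L (nat_lit 3054286)))
(L (nat_lit 18216114)))
(S (nat_lit 48113) (S (nat_lit 52001) (S (nat_lit 21755) (S (nat_lit 20805) (S (nat_lit 14622) (S (nat_lit 45188) (S (nat_lit 51693) (L (nat_lit 2342775))
(L (nat_lit 2988500)))
(L (nat_lit 12832792)))
(L (nat_lit 13986432)))
(L (nat_lit 554227)))
(L (nat_lit 22158224)))
(L (nat_lit 12784250)))
(L (nat_lit 25384482)))))
(S (nat_lit 42513) (S (nat_lit 51693) (S (nat_lit 23705) (S (nat_lit 30472) (S (nat_lit 52001) (L (nat_lit 24350200))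
(L (nat_lit 13439656)))
(L (nat_lit 13453322)))
(S (nat_lit 30588) (L (nat_lit 6873698))
(L (nat_lit 22976931))))
(L (nat_lit 27772936)))
(L (nat_lit 25931946)))))
(S (nat_lit 39529) (S (nat_lit 15335) (S (nat_lit 5399) (S (nat_lit 6878) (S (nat_lit 59026) (S (nat_lit 6593) (S (nat_lit 31929) (S (nat_lit 22263) (L (nat_lit 28842723))
(L (nat_lit 12711250)))
(L (nat_lit 13814012)))
(L (nat_lit 8193617)))
(L (nat_lit 12612854)))
(L (nat_lit 21557473)))
(S (nat_lit 25163) (S (nat_lit 29514) (S (nat_lit 49279) (L (nat_lit 28523074))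
(L (nat_lit 7534130)))
(L (nat_lit 18620596)))
(S (nat_lit 44927) (S (nat_lit 59026) (S (nat_lit 19497) (S (nat_lit 52440) (S (nat_lit 55610) (S (nat_lit 12166) (L (nat_lit 26748643))
(L (nat_lit 3950829)))
(L (nat_lit 19795181)))
(L (nat_lit 12645993)))
(L (nat_lit 22037753)))
(L (nat_lit 20999408)))
(L (nat_lit 25855433)))))
(S (nat_lit 35099) (S (nat_lit 12165) (S (nat_lit 56558) (L (nat_lit 14550262))
(L (nat_lit 14321576)))
(S (nat_lit 31929) (S (nat_lit 33415) (S (nat_lit 50236) (S (nat_lit 5399) (L (nat_lit 4729719))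
(L (nat_lit 19308449)))
(L (nat_lit 14583402)))
(L (nat_lit 1366831)))
(S (nat_lit 51693) (S (nat_lit 33415) (L (nat_lit 19763535))
(L (nat_lit 23863375)))
(L (nat_lit 25341617)))))
(S (nat_lit 54863) (S (nat_lit 18579) (L (nat_lit 24127001))
(S (nat_lit 19497) (S (nat_lit 59026) (S (nat_lit 4202) (S (nat_lit 19495) (S (nat_lit 6593) (L (nat_lit 17847146))
(L (nat_lit 7190085)))
(L (nat_lit 15946939)))
(L (nat_lit 12472738)))
(L (nat_lit 12672348)))
(L (nat_lit 11560469))))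
(L (nat_lit 25930148)))))
(L (nat_lit 25206351)))))
(S (nat_lit 36797) (S (nat_lit 5399) (S (nat_lit 17539) (S (nat_lit 16340) (S (nat_lit 59023) (S (nat_lit 54151) (L (nat_lit 17587239))
(L (nat_lit 7133699)))
(L (nat_lit 8411053)))
(S (nat_lit 36104) (S (nat_lit 59023) (S (nat_lit 38255) (S (nat_lit 14623) (L (nat_lit 5467538))
(L (nat_lit 1785767)))
(L (nat_lit 14323625)))
(L (nat_lit 6707105)))
(S (nat_lit 55868) (S (nat_lit 58019) (S (nat_lit 59026) (S (nat_lit 13391) (L (nat_lit 26649185))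
(L (nat_lit 22233985)))
(L (nat_lit 7164973)))
(L (nat_lit 13297831)))
(L (nat_lit 25397810)))))
(S (nat_lit 37303) (S (nat_lit 5879) (S (nat_lit 1) (S (nat_lit 59025) (L (nat_lit 544090))
(L (nat_lit 414971)))
(S (nat_lit 22087) (L (nat_lit 12972609))
(L (nat_lit 26647106))))
(S (nat_lit 25643) (S (nat_lit 2528) (L (nat_lit 30787297))
(S (nat_lit 59026) (S (nat_lit 3455) (S (nat_lit 48353) (S (nat_lit 22264) (L (nat_lit 8576569))
(L (nat_lit 12637993)))
(L (nat_lit 10916659)))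
(L (nat_lit 3549079)))
(L (nat_lit 13378614))))
(S (nat_lit 45407) (S (nat_lit 52440) (S (nat_lit 22264) (S (nat_lit 59023) (L (nat_lit 5938744))
(L (nat_lit 12676467)))
(L (nat_lit 12964989)))
(L (nat_lit 6838365)))
(L (nat_lit 25868580)))))
(S (nat_lit 57067) (S (nat_lit 53666) (S (nat_lit 45188) (S (nat_lit 29514) (S (nat_lit 18674) (L (nat_lit 7891122))
(L (nat_lit 13440585)))
(L (nat_lit 13181860)))
(L (nat_lit 23097735)))
(L (nat_lit 18763043)))
(L (nat_lit 25712777)))))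
(S (nat_lit 25163) (S (nat_lit 9748) (S (nat_lit 7364) (S (nat_lit 28589) (S (nat_lit 6878) (S (nat_lit 26084) (L (nat_lit 12508704))
(L (nat_lit 13805463)))
(L (nat_lit 26760267)))
(L (nat_lit 12948243)))
(S (nat_lit 27128) (S (nat_lit 49278) (S (nat_lit 52180) (L (nat_lit 29936963))
(L (nat_lit 13491239)))
(L (nat_lit 19931707)))
(S (nat_lit 46892) (S (nat_lit 59026) (S (nat_lit 49278) (S (nat_lit 32677) (S (nat_lit 42027) (S (nat_lit 6320) (L (nat_lit 28745907))
(L (nat_lit 26590327)))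
(L (nat_lit 24969552)))
(L (nat_lit 17567335)))
(L (nat_lit 22028859)))
(L (nat_lit 27679783)))
(L (nat_lit 25730101)))))
(S (nat_lit 29512) (S (nat_lit 51793) (S (nat_lit 42659) (S (nat_lit 4) (L (nat_lit 7061249))
(L (nat_lit 12799099)))
(L (nat_lit 5464783)))
(S (nat_lit 52441) (S (nat_lit 42659) (S (nat_lit 3) (S (nat_lit 1) (S (nat_lit 35360) (S (nat_lit 38255) (S (nat_lit 59025) (L (nat_lit 3501741))
(L (nat_lit 19270907)))
(L (nat_lit 14386393)))
(L (nat_lit 20718701)))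
(L (nat_lit 13656308)))
(L (nat_lit 13656711)))
(S (nat_lit 43469) (S (nat_lit 57067) (S (nat_lit 41522) (L (nat_lit 24948841))
(L (nat_lit 351024)))
(L (nat_lit 5678681)))
(L (nat_lit 6480310))))
(L (nat_lit 554663))))
(S (nat_lit 49276) (S (nat_lit 39313) (L (nat_lit 12938262))
(S (nat_lit 59023) (S (nat_lit 30716) (S (nat_lit 3) (S (nat_lit 30471) (L (nat_lit 1614741))
(L (nat_lit 8007772)))
(L (nat_lit 13656711)))
(L (nat_lit 13641587)))
(L (nat_lit 7081462))))
(L (nat_lit 25772102)))))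
(S (nat_lit 44927) (S (nat_lit 6878) (S (nat_lit 16544) (S (nat_lit 1209) (L (nat_lit 13865842))
(S (nat_lit 51694) (S (nat_lit 22749) (S (nat_lit 14138) (S (nat_lit 9747) (S (nat_lit 30471) (S (nat_lit 22929) (S (nat_lit 1994) (L (nat_lit 19304698))
(L (nat_lit 11682460)))
(L (nat_lit 281020)))
(L (nat_lit 8210851)))
(L (nat_lit 17533736)))
(L (nat_lit 24309040)))
(L (nat_lit 6476592)))
(L (nat_lit 7467693))))
(S (nat_lit 36308) (S (nat_lit 27903) (L (nat_lit 20297754))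
(S (nat_lit 29511) (S (nat_lit 3849) (L (nat_lit 30753505))
(S (nat_lit 29515) (S (nat_lit 59030) (S (nat_lit 14138) (S (nat_lit 22749) (S (nat_lit 7367) (L (nat_lit 13854804))
(L (nat_lit 934099)))
(L (nat_lit 6476654)))
(L (nat_lit 24295741)))
(L (nat_lit 6309528)))
(L (nat_lit 5647282))))
(L (nat_lit 7244246))))
(S (nat_lit 56072) (S (nat_lit 1042) (S (nat_lit 49275) (S (nat_lit 22929) (S (nat_lit 38255) (S (nat_lit 22749) (S (nat_lit 15335) (S (nat_lit 55610) (L (nat_lit 4991474))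
(L (nat_lit 14551348)))
(L (nat_lit 7050157)))
(L (nat_lit 13422817)))
(L (nat_lit 16916402)))
(L (nat_lit 22571300)))
(L (nat_lit 7531988)))
(S (nat_lit 3310) (L (nat_lit 16951222))
(L (nat_lit 12642549))))
(L (nat_lit 25443442)))))
(L (nat_lit 14550730)))
(L (nat_lit 25593545)))))
(S (nat_lit 56561) (S (nat_lit 7367) (S (nat_lit 3455) (S (nat_lit 6146) (S (nat_lit 59026) (S (nat_lit 12651) (S (nat_lit 15596) (L (nat_lit 2021801))
(L (nat_lit 7756705)))
(L (nat_lit 26593327)))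
(L (nat_lit 13390983)))
(S (nat_lit 25910) (S (nat_lit 39536) (S (nat_lit 33155) (S (nat_lit 13182) (S (nat_lit 18488) (S (nat_lit 19502) (S (nat_lit 1) (S (nat_lit 15596) (L (nat_lit 12780283))
(L (nat_lit 6854300)))
(L (nat_lit 1296795)))
(L (nat_lit 3358644)))
(L (nat_lit 10646190)))
(L (nat_lit 13508224)))
(L (nat_lit 446843)))
(L (nat_lit 5676760)))
(S (nat_lit 45674) (S (nat_lit 9751) (S (nat_lit 8585) (L (nat_lit 27472919))
(L (nat_lit 26837510)))
(L (nat_lit 8802331)))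
(L (nat_lit 25566326)))))
(S (nat_lit 23219) (S (nat_lit 16547) (S (nat_lit 45848) (S (nat_lit 39259) (L (nat_lit 26524852))
(L (nat_lit 1471207)))
(L (nat_lit 13552928)))
(S (nat_lit 36311) (S (nat_lit 1) (S (nat_lit 13182) (S (nat_lit 29515) (S (nat_lit 2500) (S (nat_lit 1041) (L (nat_lit 9562831))
(L (nat_lit 11458050)))
(L (nat_lit 19824972)))
(S (nat_lit 31783) (L (nat_lit 1814449))
(L (nat_lit 12800768))))
(L (nat_lit 13803161)))
(S (nat_lit 4537) (L (nat_lit 17696360))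
(L (nat_lit 13198531))))
(S (nat_lit 56075) (S (nat_lit 42693) (S (nat_lit 49278) (S (nat_lit 45851) (L (nat_lit 17161091))
(L (nat_lit 13551842)))
(L (nat_lit 7527216)))
(L (nat_lit 14601444)))
(L (nat_lit 25631794)))))
(S (nat_lit 42983) (S (nat_lit 6878) (S (nat_lit 22749) (S (nat_lit 13650) (S (nat_lit 49278) (L (nat_lit 26794057))
(L (nat_lit 14557206)))
(L (nat_lit 13215619)))
(L (nat_lit 12771635)))
(S (nat_lit 26642) (S (nat_lit 43469) (S (nat_lit 20805) (L (nat_lit 20324378))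
(L (nat_lit 900338)))
(L (nat_lit 23634753)))
(S (nat_lit 46406) (S (nat_lit 59025) (S (nat_lit 59026) (L (nat_lit 26224053))
(L (nat_lit 671527)))
(L (nat_lit 214651)))
(L (nat_lit 25216213)))))
(L (nat_lit 25582880)))))
(S (nat_lit 27131) (S (nat_lit 7364) (S (nat_lit 8822) (S (nat_lit 28589) (S (nat_lit 52001) (S (nat_lit 6878) (S (nat_lit 26645) (S (nat_lit 52441) (L (nat_lit 1617656))
(L (nat_lit 7226977)))
(L (nat_lit 9078544)))
(L (nat_lit 6852405)))
(L (nat_lit 27441363)))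
(L (nat_lit 18000819)))
(L (nat_lit 26388947)))
(S (nat_lit 27128) (S (nat_lit 1994) (S (nat_lit 50074) (L (nat_lit 14411041))
(S (nat_lit 52179) (S (nat_lit 23219) (S (nat_lit 6878) (L (nat_lit 696113))
(L (nat_lit 7008400)))
(L (nat_lit 30966473)))
(L (nat_lit 3466865))))
(S (nat_lit 21758) (S (nat_lit 47564) (S (nat_lit 33902) (L (nat_lit 4606886))
(L (nat_lit 6475289)))
(L (nat_lit 6746291)))
(S (nat_lit 41522) (S (nat_lit 21940) (S (nat_lit 56558) (S (nat_lit 17538) (S (nat_lit 13391) (L (nat_lit 1360818))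
(L (nat_lit 24375409)))
(L (nat_lit 7887744)))
(L (nat_lit 14346529)))
(S (nat_lit 22750) (S (nat_lit 56558) (S (nat_lit 10952) (L (nat_lit 3501713))
(L (nat_lit 18082965)))
(L (nat_lit 14344326)))
(L (nat_lit 7016236))))
(L (nat_lit 25821638)))))
(S (nat_lit 46892) (S (nat_lit 11501) (S (nat_lit 13651) (S (nat_lit 10952) (L (nat_lit 13650267))
(L (nat_lit 7835571)))
(L (nat_lit 12624819)))
(S (nat_lit 31265) (S (nat_lit 6593) (S (nat_lit 59026) (S (nat_lit 42027) (S (nat_lit 8) (L (nat_lit 564893))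
(L (nat_lit 13402455)))
(L (nat_lit 14427251)))
(L (nat_lit 468883)))
(L (nat_lit 12903539)))
(S (nat_lit 51029) (S (nat_lit 52001) (S (nat_lit 10952) (S (nat_lit 8036) (L (nat_lit 28325171))
(L (nat_lit 13404371)))
(L (nat_lit 6786963)))
(L (nat_lit 13377683)))
(L (nat_lit 25864578)))))
(L (nat_lit 25695507)))))
(S (nat_lit 46895) (S (nat_lit 6881) (S (nat_lit 3941) (S (nat_lit 10708) (S (nat_lit 3) (S (nat_lit 1042) (S (nat_lit 52001) (L (nat_lit 31100237))
(L (nat_lit 27660499)))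
(L (nat_lit 26777717)))
(L (nat_lit 7079410)))
(L (nat_lit 26402218)))
(S (nat_lit 23705) (S (nat_lit 59025) (S (nat_lit 33902) (L (nat_lit 8568691))
(L (nat_lit 7083601)))
(L (nat_lit 21763409)))
(S (nat_lit 43469) (S (nat_lit 22749) (S (nat_lit 59026) (L (nat_lit 258547))
(L (nat_lit 7099440)))
(L (nat_lit 6747314)))
(L (nat_lit 25869416)))))
(S (nat_lit 26645) (S (nat_lit 8825) (S (nat_lit 6878) (S (nat_lit 27128) (S (nat_lit 22749) (L (nat_lit 10645011))
(L (nat_lit 7128243)))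
(L (nat_lit 6876179)))
(L (nat_lit 7259219)))
(S (nat_lit 28589) (S (nat_lit 57067) (S (nat_lit 6593) (S (nat_lit 10952) (S (nat_lit 22263) (L (nat_lit 18517899))
(L (nat_lit 13346594)))
(L (nat_lit 8162707)))
(L (nat_lit 516371)))
(L (nat_lit 6070675)))
(S (nat_lit 48353) (S (nat_lit 46892) (S (nat_lit 41519) (S (nat_lit 22749) (S (nat_lit 15335) (S (nat_lit 43730) (L (nat_lit 8175669))
(L (nat_lit 808422)))
(L (nat_lit 798349)))
(L (nat_lit 12771571)))
(L (nat_lit 350650)))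
(L (nat_lit 7528883)))
(L (nat_lit 25313003)))))
(S (nat_lit 46409) (S (nat_lit 12165) (S (nat_lit 14622) (S (nat_lit 13391) (S (nat_lit 43730) (S (nat_lit 13650) (S (nat_lit 31930) (L (nat_lit 30124049))
(L (nat_lit 24469889)))
(L (nat_lit 13691526)))
(L (nat_lit 7099874)))
(L (nat_lit 22817905)))
(L (nat_lit 22253453)))
(S (nat_lit 31929) (S (nat_lit 1) (S (nat_lit 58016) (S (nat_lit 45848) (L (nat_lit 16964985))
(L (nat_lit 6801594)))
(L (nat_lit 1389428)))
(S (nat_lit 18679) (L (nat_lit 2008597))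
(L (nat_lit 12781179))))
(S (nat_lit 51693) (S (nat_lit 44845) (L (nat_lit 6839389))
(S (nat_lit 48353) (S (nat_lit 10952) (S (nat_lit 44435) (S (nat_lit 55868) (L (nat_lit 5486200))
(L (nat_lit 9868178)))
(L (nat_lit 13412962)))
(L (nat_lit 8162707)))
(L (nat_lit 22405509))))
(L (nat_lit 25727220)))))
(L (nat_lit 25791761)))))
(L (nat_lit 25742532)))))
(L (nat_lit 25540289)))))
(S (nat_lit 32947) (S (nat_lit 7364) (S (nat_lit 15335) (S (nat_lit 4907) (S (nat_lit 12913) (S (nat_lit 20806) (S (nat_lit 52440) (L (nat_lit 5680761))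
(L (nat_lit 6737949)))
(L (nat_lit 6410813)))
(S (nat_lit 32677) (S (nat_lit 1991) (S (nat_lit 6881) (S (nat_lit 8822) (S (nat_lit 36104) (L (nat_lit 28356208))
(L (nat_lit 12906674)))
(L (nat_lit 1700079)))
(L (nat_lit 8044572)))
(L (nat_lit 13891168)))
(S (nat_lit 52441) (S (nat_lit 59026) (S (nat_lit 57067) (S (nat_lit 22263) (S (nat_lit 52001) (S (nat_lit 8822) (L (nat_lit 6042835))
(L (nat_lit 26361482)))
(L (nat_lit 7090355)))
(L (nat_lit 30451440)))
(L (nat_lit 21898384)))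
(L (nat_lit 480508)))
(L (nat_lit 25771082)))))
(S (nat_lit 24671) (S (nat_lit 16547) (S (nat_lit 22263) (S (nat_lit 18491) (S (nat_lit 19768) (L (nat_lit 26587842))
(L (nat_lit 9040354)))
(L (nat_lit 9211314)))
(L (nat_lit 836979)))
(S (nat_lit 36311) (S (nat_lit 59025) (S (nat_lit 30716) (L (nat_lit 13332805))
(L (nat_lit 13683065)))
(L (nat_lit 7099907)))
(S (nat_lit 56075) (S (nat_lit 15667) (L (nat_lit 12703064))
(S (nat_lit 50480) (S (nat_lit 29512) (L (nat_lit 7214672))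
(L (nat_lit 6046034)))
(L (nat_lit 13470035))))
(L (nat_lit 25509474)))))
(S (nat_lit 44435) (S (nat_lit 9751) (S (nat_lit 10952) (S (nat_lit 5882) (L (nat_lit 5003500))
(L (nat_lit 253468)))
(L (nat_lit 8176229)))
(S (nat_lit 29515) (S (nat_lit 5882) (S (nat_lit 8822) (S (nat_lit 20806) (S (nat_lit 51693) (L (nat_lit 30840951))
(L (nat_lit 13266952)))
(L (nat_lit 840943)))
(L (nat_lit 6746821)))
(L (nat_lit 702812)))
(S (nat_lit 49279) (S (nat_lit 36104) (S (nat_lit 8036) (S (nat_lit 28589) (L (nat_lit 12806322))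
(L (nat_lit 13412467)))
(L (nat_lit 12635048)))
(S (nat_lit 54809) (L (nat_lit 24482363))
(L (nat_lit 13412530))))
(L (nat_lit 25188907)))))
(L (nat_lit 25701494)))))
(S (nat_lit 35099) (S (nat_lit 2500) (S (nat_lit 27496) (L (nat_lit 30769586))
(S (nat_lit 29512) (S (nat_lit 10952) (S (nat_lit 17538) (L (nat_lit 28327250))
(L (nat_lit 24242511)))
(L (nat_lit 8011965)))
(L (nat_lit 12784530))))
(S (nat_lit 22264) (S (nat_lit 12987) (S (nat_lit 57066) (L (nat_lit 29724303))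
(L (nat_lit 21898385)))
(S (nat_lit 32676) (S (nat_lit 39258) (L (nat_lit 2795377))
(L (nat_lit 23962801)))
(L (nat_lit 24450863))))
(S (nat_lit 42028) (S (nat_lit 22263) (S (nat_lit 52001) (S (nat_lit 20806) (S (nat_lit 19765) (S (nat_lit 23966) (L (nat_lit 937350))
(L (nat_lit 18666566)))
(L (nat_lit 3362205)))
(L (nat_lit 825877)))
(L (nat_lit 13376100)))
(S (nat_lit 25262) (L (nat_lit 3941783))
(L (nat_lit 12637031))))
(L (nat_lit 25928753)))))
(S (nat_lit 54863) (S (nat_lit 3455) (S (nat_lit 10708) (S (nat_lit 8825) (S (nat_lit 36104) (L (nat_lit 12489328))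
(L (nat_lit 12643017)))
(S (nat_lit 40689) (L (nat_lit 5807709))
(L (nat_lit 26588275))))
(S (nat_lit 30472) (S (nat_lit 52441) (S (nat_lit 51693) (L (nat_lit 28554853))
(L (nat_lit 13539348)))
(L (nat_lit 13342535)))
(S (nat_lit 50236) (S (nat_lit 8) (S (nat_lit 51694) (L (nat_lit 24163677))
(L (nat_lit 20115910)))
(L (nat_lit 14469445)))
(L (nat_lit 25831441)))))
(S (nat_lit 23219) (S (nat_lit 4202) (S (nat_lit 19768) (S (nat_lit 32416) (S (nat_lit 6146) (S (nat_lit 36311) (L (nat_lit 28520628))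
(L (nat_lit 1817977)))
(L (nat_lit 26942849)))
(L (nat_lit 13997693)))
(S (nat_lit 27867) (L (nat_lit 30418671))
(L (nat_lit 8435636))))
(S (nat_lit 23966) (S (nat_lit 3) (S (nat_lit 39529) (L (nat_lit 5458395))
(L (nat_lit 24511740)))
(L (nat_lit 13409920)))
(S (nat_lit 43730) (S (nat_lit 10952) (S (nat_lit 47564) (L (nat_lit 11170304))
(L (nat_lit 6741146)))
(L (nat_lit 6341308)))
(L (nat_lit 25891302)))))
(S (nat_lit 42983) (S (nat_lit 5660) (S (nat_lit 5879) (S (nat_lit 48350) (L (nat_lit 26776167))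
(L (nat_lit 13817082)))
(L (nat_lit 19118109)))
(S (nat_lit 25424) (S (nat_lit 16082) (S (nat_lit 36104) (L (nat_lit 6074953))
(L (nat_lit 843145)))
(L (nat_lit 24701095)))
(S (nat_lit 45188) (S (nat_lit 43098) (S (nat_lit 59026) (L (nat_lit 13364481))
(L (nat_lit 9178547)))
(S (nat_lit 50480) (S (nat_lit 25646) (S (nat_lit 36104) (L (nat_lit 3566151))
(L (nat_lit 684399)))
(L (nat_lit 14604516)))
(L (nat_lit 13477043))))
(L (nat_lit 25560311)))))
(L (nat_lit 25549839)))))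
(L (nat_lit 25933156)))))
(S (nat_lit 27128) (S (nat_lit 2499) (S (nat_lit 4202) (S (nat_lit 40219) (L (nat_lit 15029274))
(S (nat_lit 59026) (S (nat_lit 20806) (S (nat_lit 5882) (S (nat_lit 13391) (S (nat_lit 8825) (S (nat_lit 4) (S (nat_lit 17538) (L (nat_lit 4796764))
(L (nat_lit 6941057)))
(L (nat_lit 14458499)))
(L (nat_lit 347548)))
(L (nat_lit 7112336)))
(L (nat_lit 12423702)))
(S (nat_lit 36613) (L (nat_lit 10546707))
(L (nat_lit 7045661))))
(L (nat_lit 6373084))))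
(S (nat_lit 23966) (S (nat_lit 15335) (S (nat_lit 22750) (S (nat_lit 1041) (S (nat_lit 28586) (L (nat_lit 14251297))
(L (nat_lit 30583317)))
(L (nat_lit 8941284)))
(L (nat_lit 6485493)))
(S (nat_lit 35099) (S (nat_lit 59026) (S (nat_lit 52001) (S (nat_lit 45188) (S (nat_lit 46121) (S (nat_lit 17539) (L (nat_lit 14938693))
(L (nat_lit 276059)))
(L (nat_lit 27546085)))
(L (nat_lit 28033312)))
(L (nat_lit 15470803)))
(L (nat_lit 19676202)))
(S (nat_lit 54863) (S (nat_lit 59026) (S (nat_lit 26642) (S (nat_lit 1) (L (nat_lit 25084967))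
(L (nat_lit 254389)))
(L (nat_lit 24939947)))
(L (nat_lit 220697)))
(L (nat_lit 25629012)))))
(S (nat_lit 43730) (S (nat_lit 4910) (S (nat_lit 20806) (S (nat_lit 22750) (S (nat_lit 29512) (S (nat_lit 45674) (S (nat_lit 41522) (S (nat_lit 4907) (S (nat_lit 13391) (L (nat_lit 4515404))
(L (nat_lit 24946800)))
(L (nat_lit 6348348)))
(L (nat_lit 18645238)))
(L (nat_lit 12801144)))
(L (nat_lit 19087517)))
(L (nat_lit 7113140)))
(L (nat_lit 6345277)))
(S (nat_lit 24674) (S (nat_lit 59026) (S (nat_lit 42513) (S (nat_lit 52001) (L (nat_lit 23454767))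
(L (nat_lit 12867333)))
(L (nat_lit 9889505)))
(L (nat_lit 15471859)))
(S (nat_lit 44438) (S (nat_lit 45410) (S (nat_lit 26642) (S (nat_lit 17539) (L (nat_lit 2354830))
(L (nat_lit 6941058)))
(L (nat_lit 15501002)))
(L (nat_lit 7115287)))
(L (nat_lit 25222570)))))
(L (nat_lit 25904322)))))
(S (nat_lit 22263) (S (nat_lit 13182) (S (nat_lit 12165) (S (nat_lit 10952) (S (nat_lit 36104) (S (nat_lit 55610) (L (nat_lit 18084448))
(L (nat_lit 8177284)))
(L (nat_lit 13410324)))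
(L (nat_lit 21793100)))
(S (nat_lit 31929) (S (nat_lit 4) (S (nat_lit 33155) (L (nat_lit 6309684))
(L (nat_lit 30822723)))
(L (nat_lit 14452393)))
(S (nat_lit 51693) (S (nat_lit 58019) (S (nat_lit 29512) (S (nat_lit 4) (L (nat_lit 19431803))
(L (nat_lit 13375573)))
(L (nat_lit 30822725)))
(L (nat_lit 13486087)))
(L (nat_lit 25511951)))))
(S (nat_lit 32946) (S (nat_lit 6878) (S (nat_lit 46895) (L (nat_lit 29538643))
(L (nat_lit 27436531)))
(S (nat_lit 26642) (S (nat_lit 8036) (S (nat_lit 41522) (S (nat_lit 22264) (S (nat_lit 4) (L (nat_lit 13173671))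
(L (nat_lit 12634953)))
(L (nat_lit 745897)))
(L (nat_lit 344760)))
(L (nat_lit 314256)))
(S (nat_lit 46406) (L (nat_lit 14936115))
(L (nat_lit 25789866)))))
(S (nat_lit 52710) (S (nat_lit 12166) (S (nat_lit 16547) (S (nat_lit 18488) (L (nat_lit 2453232))
(L (nat_lit 24937804)))
(L (nat_lit 24946048)))
(S (nat_lit 31930) (S (nat_lit 39529) (S (nat_lit 56075) (L (nat_lit 19825062))
(L (nat_lit 532274)))
(L (nat_lit 11579996)))
(S (nat_lit 51694) (S (nat_lit 8825) (S (nat_lit 52001) (L (nat_lit 13539015))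
(L (nat_lit 12771605)))
(L (nat_lit 6469213)))
(L (nat_lit 25495152)))))
(L (nat_lit 25310551)))))
(S (nat_lit 42027) (S (nat_lit 8036) (S (nat_lit 46121) (S (nat_lit 26642) (S (nat_lit 4) (S (nat_lit 13391) (S (nat_lit 26354) (L (nat_lit 6744115))
(L (nat_lit 9197616)))
(L (nat_lit 7095348)))
(S (nat_lit 23996) (L (nat_lit 242516))
(L (nat_lit 26804527))))
(L (nat_lit 15789267)))
(L (nat_lit 12366963)))
(S (nat_lit 27800) (S (nat_lit 19767) (L (nat_lit 29558259))
(L (nat_lit 15959827)))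
(S (nat_lit 47564) (S (nat_lit 40569) (S (nat_lit 50480) (L (nat_lit 832851))
(L (nat_lit 27495827)))
(L (nat_lit 27506739)))
(L (nat_lit 25476243)))))
(L (nat_lit 25937220)))))
(S (nat_lit 46892) (S (nat_lit 13650) (S (nat_lit 6881) (S (nat_lit 5399) (S (nat_lit 59025) (S (nat_lit 30716) (S (nat_lit 50235) (L (nat_lit 22405667))
(L (nat_lit 13803133)))
(L (nat_lit 14502213)))
(L (nat_lit 12801085)))
(S (nat_lit 25163) (S (nat_lit 13651) (S (nat_lit 49278) (L (nat_lit 14348613))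
(L (nat_lit 13856324)))
(L (nat_lit 12642643)))
(S (nat_lit 44927) (S (nat_lit 10707) (S (nat_lit 30472) (L (nat_lit 29787883))
(L (nat_lit 12754807)))
(L (nat_lit 3956201)))
(L (nat_lit 25385411)))))
(S (nat_lit 26645) (S (nat_lit 3) (S (nat_lit 40569) (S (nat_lit 46118) (S (nat_lit 59023) (L (nat_lit 18057011))
(L (nat_lit 7095475)))
(L (nat_lit 6074579)))
(L (nat_lit 1915123)))
(S (nat_lit 19767) (S (nat_lit 52001) (S (nat_lit 13182) (L (nat_lit 12911542))
(L (nat_lit 602489)))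
(L (nat_lit 27441363)))
(S (nat_lit 39531) (S (nat_lit 27131) (L (nat_lit 26266924))
(L (nat_lit 30655603)))
(L (nat_lit 25218535)))))
(S (nat_lit 46409) (S (nat_lit 7367) (S (nat_lit 48353) (S (nat_lit 55868) (L (nat_lit 23250729))
(L (nat_lit 19665287)))
(L (nat_lit 14422325)))
(S (nat_lit 27131) (S (nat_lit 55868) (S (nat_lit 17538) (L (nat_lit 26398183))
(L (nat_lit 1687896)))
(L (nat_lit 19675143)))
(S (nat_lit 46895) (S (nat_lit 55868) (S (nat_lit 58019) (L (nat_lit 16345095))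
(L (nat_lit 21555395)))
(L (nat_lit 8129133)))
(L (nat_lit 25871431)))))
(L (nat_lit 25220369)))))
(S (nat_lit 33414) (S (nat_lit 4202) (S (nat_lit 9915) (L (nat_lit 20387996))
(S (nat_lit 49278) (S (nat_lit 51694) (S (nat_lit 59026) (S (nat_lit 22929) (S (nat_lit 6320) (L (nat_lit 7858755))
(L (nat_lit 10241600)))
(L (nat_lit 13232170)))
(L (nat_lit 19099137)))
(L (nat_lit 22581564)))
(L (nat_lit 9835414))))
(S (nat_lit 23966) (S (nat_lit 5399) (S (nat_lit 39259) (S (nat_lit 52001) (S (nat_lit 53666) (L (nat_lit 5097097))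
(L (nat_lit 27286055)))
(L (nat_lit 9194885)))
(L (nat_lit 20326273)))
(S (nat_lit 25163) (S (nat_lit 59023) (S (nat_lit 3) (S (nat_lit 23219) (L (nat_lit 23081277))
(L (nat_lit 4415341)))
(L (nat_lit 1258355)))
(L (nat_lit 421607)))
(S (nat_lit 44927) (S (nat_lit 45188) (S (nat_lit 8) (S (nat_lit 8036) (L (nat_lit 9464243))
(L (nat_lit 12216836)))
(L (nat_lit 1881835)))
(L (nat_lit 13373687)))
(L (nat_lit 25386092)))))
(S (nat_lit 43730) (S (nat_lit 19494) (S (nat_lit 54150) (S (nat_lit 45188) (S (nat_lit 55868) (S (nat_lit 53179) (L (nat_lit 29874498))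
(L (nat_lit 27988521)))
(L (nat_lit 16538631)))
(L (nat_lit 27660599)))
(L (nat_lit 17920585)))
(S (nat_lit 39258) (S (nat_lit 10707) (S (nat_lit 15335) (S (nat_lit 3166) (S (nat_lit 32946) (S (nat_lit 52001) (L (nat_lit 9319604))
(L (nat_lit 6709429)))
(L (nat_lit 23895180)))
(L (nat_lit 20452262)))
(L (nat_lit 24947108)))
(L (nat_lit 23862691)))
(S (nat_lit 59022) (S (nat_lit 42027) (S (nat_lit 52001) (L (nat_lit 28874805))
(L (nat_lit 8577427)))
(L (nat_lit 27313895)))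
(L (nat_lit 25767461)))))
(L (nat_lit 25661718)))))
(S (nat_lit 53178) (S (nat_lit 3941) (S (nat_lit 10952) (S (nat_lit 16082) (S (nat_lit 55865) (S (nat_lit 48350) (L (nat_lit 9483868))
(L (nat_lit 27693706)))
(L (nat_lit 27857231)))
(S (nat_lit 33838) (L (nat_lit 749031))
(L (nat_lit 10596957))))
(S (nat_lit 30716) (S (nat_lit 12477) (L (nat_lit 18646355))
(S (nat_lit 59026) (S (nat_lit 42027) (S (nat_lit 35099) (L (nat_lit 20998477))
(L (nat_lit 13455685)))
(L (nat_lit 3944787)))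
(L (nat_lit 2893334))))
(S (nat_lit 50480) (S (nat_lit 39531) (S (nat_lit 22929) (L (nat_lit 17963859))
(L (nat_lit 6113706)))
(L (nat_lit 11554269)))
(L (nat_lit 25666707)))))
(S (nat_lit 23705) (S (nat_lit 17539) (S (nat_lit 45254) (L (nat_lit 631226))
(S (nat_lit 59030) (S (nat_lit 56072) (S (nat_lit 59022) (S (nat_lit 8) (S (nat_lit 42694) (S (nat_lit 35846) (S (nat_lit 5879) (S (nat_lit 32415) (S (nat_lit 34033) (L (nat_lit 12722808))
(S (nat_lit 46121) (S (nat_lit 8825) (L (nat_lit 6439577))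
(L (nat_lit 7008804)))
(L (nat_lit 10614259))))
(L (nat_lit 10575727)))
(L (nat_lit 547624)))
(L (nat_lit 30609037)))
(L (nat_lit 7422684)))
(L (nat_lit 26221078)))
(L (nat_lit 606057)))
(L (nat_lit 19405944)))
(L (nat_lit 19676168))))
(S (nat_lit 37303) (S (nat_lit 31642) (L (nat_lit 12753528))
(S (nat_lit 48353) (S (nat_lit 52001) (S (nat_lit 2985) (S (nat_lit 42027) (L (nat_lit 9230381))
(L (nat_lit 27698916)))
(L (nat_lit 17733811)))
(L (nat_lit 12871827)))
(L (nat_lit 4575021))))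
(S (nat_lit 57067) (S (nat_lit 29512) (S (nat_lit 44927) (L (nat_lit 20988152))
(L (nat_lit 13412065)))
(L (nat_lit 19669504)))
(L (nat_lit 25896077)))))
(S (nat_lit 43469) (S (nat_lit 3) (S (nat_lit 26087) (S (nat_lit 42027) (S (nat_lit 59023) (L (nat_lit 14229410))
(L (nat_lit 224819)))
(L (nat_lit 14418290)))
(L (nat_lit 1634950)))
(S (nat_lit 19767) (S (nat_lit 52441) (L (nat_lit 13888161))
(L (nat_lit 9223844)))
(S (nat_lit 39531) (S (nat_lit 52001) (S (nat_lit 10708) (L (nat_lit 29375110))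
(L (nat_lit 17619975)))
(L (nat_lit 27441766)))
(L (nat_lit 25800806)))))
(L (nat_lit 25410615)))))
(L (nat_lit 25483781)))))
(L (nat_lit 25709892)))))
(S (nat_lit 52711) (S (nat_lit 1994) (S (nat_lit 8) (S (nat_lit 12913) (S (nat_lit 14623) (S (nat_lit 13182) (S (nat_lit 19497) (L (nat_lit 12670301))
(L (nat_lit 26224241)))
(L (nat_lit 12935319)))
(S (nat_lit 34387) (S (nat_lit 37303) (L (nat_lit 10935137))
(L (nat_lit 10227091)))
(S (nat_lit 54151) (S (nat_lit 29514) (S (nat_lit 8822) (L (nat_lit 12124944))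
(L (nat_lit 6723228)))
(L (nat_lit 13380162)))
(L (nat_lit 25279763)))))
(S (nat_lit 32677) (S (nat_lit 6320) (S (nat_lit 29511) (S (nat_lit 59026) (S (nat_lit 5399) (S (nat_lit 16544) (L (nat_lit 16787069))
(L (nat_lit 5591581)))
(L (nat_lit 20123564)))
(L (nat_lit 19273052)))
(L (nat_lit 19296394)))
(S (nat_lit 26084) (S (nat_lit 8036) (S (nat_lit 42027) (S (nat_lit 8822) (L (nat_lit 12625715))
(L (nat_lit 455893)))
(L (nat_lit 23860592)))
(L (nat_lit 13688093)))
(S (nat_lit 45848) (S (nat_lit 37303) (S (nat_lit 25643) (S (nat_lit 45851) (S (nat_lit 51029) (L (nat_lit 28892326))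
(L (nat_lit 13391200)))
(L (nat_lit 12963616)))
(L (nat_lit 14423622)))
(L (nat_lit 14427714)))
(L (nat_lit 25805928)))))
(S (nat_lit 52441) (S (nat_lit 6320) (S (nat_lit 18491) (S (nat_lit 6878) (S (nat_lit 30471) (L (nat_lit 29689456))
(L (nat_lit 11158556)))
(L (nat_lit 13235339)))
(L (nat_lit 26556434)))
(S (nat_lit 26084) (S (nat_lit 12912) (S (nat_lit 59026) (S (nat_lit 52001) (L (nat_lit 16830685))
(L (nat_lit 13376164)))
(L (nat_lit 12611178)))
(L (nat_lit 12062614)))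
(S (nat_lit 45848) (S (nat_lit 59025) (S (nat_lit 29511) (S (nat_lit 59026) (S (nat_lit 13391) (S (nat_lit 22749) (L (nat_lit 5648246))
(L (nat_lit 6747840)))
(L (nat_lit 6737981)))
(L (nat_lit 6714515)))
(L (nat_lit 225936)))
(L (nat_lit 6690427)))
(L (nat_lit 25767394)))))
(L (nat_lit 25935044)))))
(S (nat_lit 19772) (S (nat_lit 8036) (S (nat_lit 827) (L (nat_lit 798413))
(S (nat_lit 29512) (L (nat_lit 6709060))
(L (nat_lit 12150929))))
(S (nat_lit 27800) (S (nat_lit 16448) (L (nat_lit 2926289))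
(S (nat_lit 53178) (S (nat_lit 19768) (S (nat_lit 27128) (S (nat_lit 52919) (S (nat_lit 52001) (S (nat_lit 6593) (L (nat_lit 7199921))
(L (nat_lit 8205395)))
(L (nat_lit 27664531)))
(L (nat_lit 12239683)))
(L (nat_lit 19702832)))
(L (nat_lit 3601065)))
(L (nat_lit 19020157))))
(S (nat_lit 47564) (S (nat_lit 5660) (S (nat_lit 28349) (S (nat_lit 3) (L (nat_lit 26427413))
(L (nat_lit 18881388)))
(L (nat_lit 18881083)))
(S (nat_lit 25424) (S (nat_lit 41315) (L (nat_lit 5676946))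
(S (nat_lit 52919) (S (nat_lit 36104) (S (nat_lit 19495) (L (nat_lit 28710134))
(L (nat_lit 26613479)))
(L (nat_lit 11965049)))
(L (nat_lit 3557722))))
(S (nat_lit 45188) (S (nat_lit 19494) (S (nat_lit 18491) (S (nat_lit 11501) (S (nat_lit 55124) (S (nat_lit 6146) (S (nat_lit 3941) (S (nat_lit 42694) (S (nat_lit 52441) (S (nat_lit 9747) (S (nat_lit 16701) (L (nat_lit 3037552))
(S (nat_lit 26357) (S (nat_lit 26087) (S (nat_lit 10708) (S (nat_lit 42983) (S (nat_lit 31929) (L (nat_lit 11043548))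
(L (nat_lit 19739877)))
(L (nat_lit 27933922)))
(L (nat_lit 21096935)))
(L (nat_lit 21492032)))
(L (nat_lit 2863417))))
(L (nat_lit 15552834)))
(L (nat_lit 8982349)))
(L (nat_lit 9964373)))
(L (nat_lit 20345896)))
(L (nat_lit 20326461)))
(L (nat_lit 3567986)))
(L (nat_lit 7761939)))
(L (nat_lit 18630663)))
(L (nat_lit 5662005)))
(L (nat_lit 25412290)))))
(L (nat_lit 25180840)))))
(S (nat_lit 39536) (S (nat_lit 8825) (S (nat_lit 6881) (S (nat_lit 6590) (S (nat_lit 10952) (S (nat_lit 5879) (S (nat_lit 33155) (L (nat_lit 10614417))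
(L (nat_lit 20147248)))
(L (nat_lit 18060892)))
(L (nat_lit 7363996)))
(L (nat_lit 8094108)))
(S (nat_lit 26645) (S (nat_lit 59026) (S (nat_lit 22750) (L (nat_lit 13198472))
(L (nat_lit 21403805)))
(L (nat_lit 19279004)))
(S (nat_lit 46409) (S (nat_lit 17539) (S (nat_lit 59026) (S (nat_lit 2499) (L (nat_lit 22348720))
(L (nat_lit 17138611)))
(L (nat_lit 224787)))
(L (nat_lit 454003)))
(L (nat_lit 25799857)))))
(S (nat_lit 28589) (S (nat_lit 5660) (S (nat_lit 29514) (S (nat_lit 27131) (L (nat_lit 29531725))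
(L (nat_lit 19064265)))
(L (nat_lit 7094850)))
(S (nat_lit 25424) (S (nat_lit 33155) (S (nat_lit 24671) (L (nat_lit 3843641))
(L (nat_lit 30834934)))
(L (nat_lit 20343915)))
(S (nat_lit 45188) (S (nat_lit 23705) (S (nat_lit 59026) (S (nat_lit 29511) (L (nat_lit 4800828))
(L (nat_lit 24513352)))
(L (nat_lit 12610899)))
(S (nat_lit 58348) (L (nat_lit 9459256))
(L (nat_lit 18056953))))
(L (nat_lit 25570390)))))
(S (nat_lit 48353) (S (nat_lit 16340) (S (nat_lit 12913) (S (nat_lit 39258) (S (nat_lit 19502) (S (nat_lit 49275) (S (nat_lit 25910) (S (nat_lit 38255) (S (nat_lit 43469) (S (nat_lit 43055) (L (nat_lit 280186))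
(S (nat_lit 54151) (L (nat_lit 2342620))
(L (nat_lit 16853782))))
(L (nat_lit 24944685)))
(L (nat_lit 14552436)))
(L (nat_lit 10966137)))
(L (nat_lit 3359604)))
(L (nat_lit 12214658)))
(L (nat_lit 10509882)))
(L (nat_lit 11592365)))
(S (nat_lit 36104) (S (nat_lit 12912) (S (nat_lit 46895) (L (nat_lit 12358385))
(L (nat_lit 6111443)))
(L (nat_lit 5857673)))
(S (nat_lit 55868) (S (nat_lit 6593) (S (nat_lit 16735) (L (nat_lit 13866867))
(S (nat_lit 31265) (S (nat_lit 22930) (S (nat_lit 12913) (S (nat_lit 49275) (S (nat_lit 25910) (S (nat_lit 43469) (S (nat_lit 38255) (S (nat_lit 55610) (S (nat_lit 19502) (S (nat_lit 25163) (L (nat_lit 9625517))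
(S (nat_lit 30174) (L (nat_lit 12030584))
(L (nat_lit 21770345))))
(L (nat_lit 5724070)))
(L (nat_lit 27641477)))
(L (nat_lit 702683)))
(L (nat_lit 27959343)))
(L (nat_lit 8238817)))
(L (nat_lit 3566932)))
(L (nat_lit 12082084)))
(L (nat_lit 12468965)))
(L (nat_lit 19268459))))
(L (nat_lit 13179717)))
(L (nat_lit 25594569)))))
(L (nat_lit 25669188)))))
(L (nat_lit 25802052)))))
(S (nat_lit 21758) (S (nat_lit 18491) (S (nat_lit 9750) (S (nat_lit 34386) (S (nat_lit 40570) (S (nat_lit 16544) (S (nat_lit 46406) (S (nat_lit 38252) (S (nat_lit 50480) (S (nat_lit 29511) (L (nat_lit 23564039))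
(L (nat_lit 24342606)))
(L (nat_lit 11071637)))
(L (nat_lit 6113769)))
(L (nat_lit 11357328)))
(S (nat_lit 55964) (L (nat_lit 5535188))
(L (nat_lit 15466836))))
(L (nat_lit 8075321)))
(S (nat_lit 49090) (S (nat_lit 45188) (L (nat_lit 24943725))
(L (nat_lit 13439721)))
(L (nat_lit 11221180))))
(S (nat_lit 29514) (S (nat_lit 14623) (S (nat_lit 16547) (S (nat_lit 16544) (S (nat_lit 13182) (S (nat_lit 8215) (L (nat_lit 22230787))
(L (nat_lit 5591579)))
(L (nat_lit 26563725)))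
(L (nat_lit 24938831)))
(L (nat_lit 26970503)))
(S (nat_lit 34387) (S (nat_lit 29512) (S (nat_lit 34386) (S (nat_lit 6320) (S (nat_lit 45188) (S (nat_lit 16547) (L (nat_lit 15298598))
(L (nat_lit 10670653)))
(L (nat_lit 13332770)))
(L (nat_lit 18650696)))
(L (nat_lit 11222204)))
(L (nat_lit 5618514)))
(S (nat_lit 54151) (S (nat_lit 1634) (L (nat_lit 4989550))
(S (nat_lit 29512) (S (nat_lit 29511) (S (nat_lit 15335) (S (nat_lit 59026) (L (nat_lit 28705012))
(L (nat_lit 18902535)))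
(L (nat_lit 16796029)))
(L (nat_lit 19067402)))
(L (nat_lit 24537413))))
(L (nat_lit 25279050)))))
(S (nat_lit 49278) (S (nat_lit 19502) (S (nat_lit 40570) (S (nat_lit 45188) (S (nat_lit 32415) (S (nat_lit 19765) (L (nat_lit 1616723))
(L (nat_lit 16345128)))
(L (nat_lit 13997692)))
(L (nat_lit 24917282)))
(L (nat_lit 1841870)))
(S (nat_lit 39266) (S (nat_lit 32676) (S (nat_lit 10707) (L (nat_lit 28356854))
(L (nat_lit 3939950)))
(L (nat_lit 1844694)))
(S (nat_lit 59030) (S (nat_lit 16676) (L (nat_lit 4659804))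
(S (nat_lit 45848) (S (nat_lit 59022) (S (nat_lit 33414) (S (nat_lit 6323) (L (nat_lit 18654390))
(L (nat_lit 16114306)))
(L (nat_lit 4995413)))
(L (nat_lit 9006629)))
(L (nat_lit 6909410))))
(L (nat_lit 25824460)))))
(L (nat_lit 25933992)))))
(S (nat_lit 38255) (S (nat_lit 16547) (S (nat_lit 861) (S (nat_lit 34386) (L (nat_lit 7519833))
(L (nat_lit 20717057)))
(S (nat_lit 46406) (S (nat_lit 14676) (L (nat_lit 17140441))
(S (nat_lit 34386) (S (nat_lit 18488) (S (nat_lit 56072) (S (nat_lit 31929) (S (nat_lit 40570) (S (nat_lit 55124) (S (nat_lit 43730) (L (nat_lit 26744948))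
(L (nat_lit 24190733)))
(L (nat_lit 11066115)))
(L (nat_lit 24674553)))
(L (nat_lit 6812694)))
(L (nat_lit 27611311)))
(L (nat_lit 22541447)))
(L (nat_lit 20717089))))
(L (nat_lit 12239777))))
(S (nat_lit 36311) (S (nat_lit 40570) (S (nat_lit 52441) (S (nat_lit 49278) (S (nat_lit 34386) (S (nat_lit 42514) (S (nat_lit 57067) (L (nat_lit 20322151))
(L (nat_lit 12867737)))
(L (nat_lit 5694773)))
(L (nat_lit 23870721)))
(L (nat_lit 13818235)))
(L (nat_lit 6721145)))
(S (nat_lit 49921) (L (nat_lit 13306695))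
(L (nat_lit 18552889))))
(S (nat_lit 56075) (S (nat_lit 5232) (S (nat_lit 6036) (L (nat_lit 7826579))
(L (nat_lit 31071377)))
(S (nat_lit 59026) (S (nat_lit 34386) (S (nat_lit 17030) (S (nat_lit 40570) (S (nat_lit 45188) (L (nat_lit 10027420))
(L (nat_lit 27985289)))
(L (nat_lit 8076345)))
(L (nat_lit 15472788)))
(S (nat_lit 51819) (L (nat_lit 21146383))
(L (nat_lit 23870601))))
(L (nat_lit 21198337))))
(L (nat_lit 25645410)))))
(S (nat_lit 58019) (S (nat_lit 6323) (S (nat_lit 17539) (S (nat_lit 45188) (S (nat_lit 40570) (L (nat_lit 577318))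
(L (nat_lit 8108089)))
(L (nat_lit 23866380)))
(S (nat_lit 37303) (S (nat_lit 35846) (S (nat_lit 34386) (S (nat_lit 51029) (S (nat_lit 40570) (L (nat_lit 29935938))
(L (nat_lit 10205957)))
(L (nat_lit 20341088)))
(L (nat_lit 3891468)))
(S (nat_lit 55556) (L (nat_lit 12912406))
(L (nat_lit 12333700))))
(S (nat_lit 57067) (S (nat_lit 8) (S (nat_lit 59030) (L (nat_lit 24939943))
(L (nat_lit 27862092)))
(L (nat_lit 19695115)))
(L (nat_lit 25699907)))))
(S (nat_lit 26087) (S (nat_lit 11501) (S (nat_lit 46406) (S (nat_lit 43469) (S (nat_lit 40570) (L (nat_lit 21872809))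
(L (nat_lit 1817350)))
(L (nat_lit 27843777)))
(L (nat_lit 12239777)))
(S (nat_lit 31265) (S (nat_lit 36308) (S (nat_lit 39258) (S (nat_lit 55868) (L (nat_lit 4711794))
(L (nat_lit 1562503)))
(L (nat_lit 11322551)))
(L (nat_lit 13279040)))
(S (nat_lit 51029) (S (nat_lit 33415) (S (nat_lit 59026) (L (nat_lit 26589858))
(L (nat_lit 19676481)))
(L (nat_lit 4995443)))
(L (nat_lit 25180842)))))
(S (nat_lit 45851) (S (nat_lit 3941) (S (nat_lit 27223) (L (nat_lit 12911226))
(S (nat_lit 45188) (S (nat_lit 17030) (S (nat_lit 50236) (L (nat_lit 29689334))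
(L (nat_lit 6479353)))
(L (nat_lit 15468198)))
(L (nat_lit 13455584))))
(S (nat_lit 23705) (S (nat_lit 40570) (S (nat_lit 42167) (L (nat_lit 579336))
(S (nat_lit 44435) (S (nat_lit 22930) (L (nat_lit 29859863))
(L (nat_lit 31012902)))
(L (nat_lit 12847704))))
(L (nat_lit 8108089)))
(S (nat_lit 43469) (S (nat_lit 51693) (S (nat_lit 55610) (S (nat_lit 40570) (S (nat_lit 22930) (S (nat_lit 5879) (L (nat_lit 9835193))
(L (nat_lit 18946862)))
(L (nat_lit 13199648)))
(L (nat_lit 8075321)))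
(L (nat_lit 19270906)))
(L (nat_lit 13468918)))
(L (nat_lit 25834598)))))
(L (nat_lit 25279830)))))
(L (nat_lit 25730226)))))
(S (nat_lit 41522) (S (nat_lit 13651) (S (nat_lit 16082) (S (nat_lit 13650) (S (nat_lit 15335) (S (nat_lit 36104) (L (nat_lit 19800077))
(L (nat_lit 6339508)))
(L (nat_lit 6340252)))
(S (nat_lit 33414) (S (nat_lit 20722) (L (nat_lit 631320))
(S (nat_lit 54863) (S (nat_lit 17033) (L (nat_lit 22937837))
(L (nat_lit 24257357)))
(L (nat_lit 27307663))))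
(S (nat_lit 53178) (S (nat_lit 48353) (S (nat_lit 11501) (S (nat_lit 39266) (S (nat_lit 52001) (S (nat_lit 1991) (S (nat_lit 15596) (L (nat_lit 5552728))
(L (nat_lit 17095555)))
(L (nat_lit 5741148)))
(L (nat_lit 12872293)))
(L (nat_lit 11156505)))
(L (nat_lit 5618579)))
(L (nat_lit 12391149)))
(L (nat_lit 25450572)))))
(S (nat_lit 35846) (S (nat_lit 37940) (S (nat_lit 29845) (L (nat_lit 8801464))
(L (nat_lit 8150468)))
(S (nat_lit 59026) (S (nat_lit 50381) (L (nat_lit 18622084))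
(S (nat_lit 52001) (S (nat_lit 4) (S (nat_lit 40570) (L (nat_lit 15979296))
(L (nat_lit 23364124)))
(L (nat_lit 805167)))
(L (nat_lit 7158437))))
(L (nat_lit 804455))))
(S (nat_lit 55610) (S (nat_lit 5399) (S (nat_lit 3455) (S (nat_lit 59026) (S (nat_lit 39531) (S (nat_lit 2985) (L (nat_lit 23960098))
(L (nat_lit 1291154)))
(L (nat_lit 23502720)))
(L (nat_lit 27281095)))
(L (nat_lit 5828855)))
(S (nat_lit 25163) (S (nat_lit 24671) (S (nat_lit 19767) (L (nat_lit 8008515))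
(L (nat_lit 22034183)))
(L (nat_lit 22819040)))
(S (nat_lit 44927) (S (nat_lit 49275) (S (nat_lit 22263) (L (nat_lit 24228777))
(L (nat_lit 13346594)))
(L (nat_lit 27660938)))
(L (nat_lit 25549870)))))
(L (nat_lit 25742564)))))
(S (nat_lit 33415) (S (nat_lit 12912) (S (nat_lit 2500) (S (nat_lit 29514) (S (nat_lit 4910) (S (nat_lit 26642) (L (nat_lit 20749826))
(L (nat_lit 24167673)))
(L (nat_lit 26260138)))
(L (nat_lit 7094850)))
(S (nat_lit 22264) (S (nat_lit 8) (S (nat_lit 54150) (L (nat_lit 29377161))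
(L (nat_lit 6085161)))
(L (nat_lit 1460573)))
(S (nat_lit 42028) (S (nat_lit 29512) (L (nat_lit 6984497))
(L (nat_lit 7098449)))
(L (nat_lit 25896357)))))
(S (nat_lit 32676) (S (nat_lit 4) (S (nat_lit 8) (S (nat_lit 55868) (S (nat_lit 59022) (S (nat_lit 23219) (L (nat_lit 16834473))
(L (nat_lit 12724022)))
(L (nat_lit 619887)))
(L (nat_lit 1483572)))
(L (nat_lit 1460573)))
(S (nat_lit 19768) (S (nat_lit 29512) (S (nat_lit 37303) (S (nat_lit 59030) (L (nat_lit 29908162))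
(L (nat_lit 13373064)))
(L (nat_lit 14421640)))
(L (nat_lit 6711936)))
(S (nat_lit 39532) (S (nat_lit 44438) (L (nat_lit 12938262))
(L (nat_lit 23112494)))
(L (nat_lit 25409154)))))
(S (nat_lit 52440) (S (nat_lit 6496) (L (nat_lit 13374741))
(S (nat_lit 26642) (S (nat_lit 36311) (S (nat_lit 15335) (L (nat_lit 16785172))
(L (nat_lit 7096805)))
(L (nat_lit 7144047)))
(L (nat_lit 24937680))))
(L (nat_lit 25312532)))))
(S (nat_lit 53179) (S (nat_lit 5660) (S (nat_lit 32999) (S (nat_lit 59023) (L (nat_lit 6685588))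
(L (nat_lit 27285031)))
(S (nat_lit 42513) (S (nat_lit 56558) (S (nat_lit 19495) (S (nat_lit 54150) (L (nat_lit 218684))
(L (nat_lit 19129856)))
(L (nat_lit 5521206)))
(L (nat_lit 14386488)))
(L (nat_lit 6051120))))
(S (nat_lit 25424) (S (nat_lit 39529) (S (nat_lit 22264) (L (nat_lit 21031305))
(L (nat_lit 21791145)))
(L (nat_lit 27657461)))
(S (nat_lit 45188) (S (nat_lit 2985) (S (nat_lit 59026) (S (nat_lit 17030) (S (nat_lit 59023) (S (nat_lit 14138) (L (nat_lit 29383047))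
(L (nat_lit 22195772)))
(L (nat_lit 863798)))
(L (nat_lit 22808070)))
(L (nat_lit 670972)))
(S (nat_lit 22749) (S (nat_lit 44435) (S (nat_lit 26357) (L (nat_lit 2876719))
(L (nat_lit 16516682)))
(L (nat_lit 27712736)))
(S (nat_lit 42513) (S (nat_lit 54150) (S (nat_lit 52001) (L (nat_lit 23228936))
(L (nat_lit 12769030)))
(L (nat_lit 27512352)))
(L (nat_lit 25598689)))))
(L (nat_lit 25465582)))))
(L (nat_lit 25803784)))))
(L (nat_lit 25205206)))))
(L (nat_lit 25527950)))))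
(S (nat_lit 33641) (S (nat_lit 11501) (S (nat_lit 4202) (S (nat_lit 19495) (S (nat_lit 8) (S (nat_lit 4) (S (nat_lit 59022) (S (nat_lit 49276) (S (nat_lit 30716) (S (nat_lit 53666) (S (nat_lit 29515) (S (nat_lit 39531) (S (nat_lit 23219) (S (nat_lit 25424) (S (nat_lit 59030) (S (nat_lit 40701) (S (nat_lit 8013) (S (nat_lit 36471) (S (nat_lit 16547) (S (nat_lit 32676) (S (nat_lit 7367) (L (nat_lit 3785080))
(L (nat_lit 717257)))
(L (nat_lit 24670217)))
(S (nat_lit 56075) (S (nat_lit 37302) (S (nat_lit 32416) (L (nat_lit 7420668))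
(L (nat_lit 30787968)))
(L (nat_lit 31040896)))
(L (nat_lit 25869666))))
(L (nat_lit 22946336)))
(L (nat_lit 22954181)))
(L (nat_lit 26253997)))
(L (nat_lit 12611144)))
(L (nat_lit 11564502)))
(L (nat_lit 30811223)))
(L (nat_lit 5666470)))
(L (nat_lit 5665515)))
(L (nat_lit 17854770)))
(L (nat_lit 18904428)))
(L (nat_lit 7736025)))
(L (nat_lit 27679849)))
(L (nat_lit 18899400)))
(S (nat_lit 19772) (S (nat_lit 29515) (L (nat_lit 5643123))
(L (nat_lit 5665515)))
(S (nat_lit 39536) (S (nat_lit 59025) (L (nat_lit 18884461))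
(L (nat_lit 6712933)))
(L (nat_lit 25593206)))))
(S (nat_lit 39259) (S (nat_lit 16544) (S (nat_lit 9750) (S (nat_lit 19767) (L (nat_lit 23464252))
(L (nat_lit 3395501)))
(S (nat_lit 29514) (S (nat_lit 39529) (S (nat_lit 29515) (L (nat_lit 26228297))
(L (nat_lit 6308440)))
(L (nat_lit 5666005)))
(S (nat_lit 49278) (S (nat_lit 29515) (S (nat_lit 8) (S (nat_lit 55865) (S (nat_lit 45410) (L (nat_lit 5677970))
(L (nat_lit 6175398)))
(L (nat_lit 16323495)))
(L (nat_lit 19293354)))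
(L (nat_lit 6687325)))
(L (nat_lit 25760136)))))
(S (nat_lit 36308) (S (nat_lit 12166) (S (nat_lit 10707) (S (nat_lit 59026) (S (nat_lit 45851) (L (nat_lit 29959681))
(L (nat_lit 6944160)))
(L (nat_lit 12658579)))
(L (nat_lit 5794473)))
(S (nat_lit 31930) (S (nat_lit 50236) (S (nat_lit 45851) (L (nat_lit 23462141))
(L (nat_lit 6909346)))
(L (nat_lit 7265292)))
(S (nat_lit 51694) (S (nat_lit 3) (S (nat_lit 36104) (L (nat_lit 8073307))
(L (nat_lit 6738969)))
(L (nat_lit 7112147)))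
(L (nat_lit 25834724)))))
(S (nat_lit 56072) (S (nat_lit 8825) (S (nat_lit 49278) (S (nat_lit 59026) (L (nat_lit 29374186))
(L (nat_lit 6897441)))
(L (nat_lit 3746704)))
(S (nat_lit 28589) (S (nat_lit 54863) (S (nat_lit 8) (S (nat_lit 58705) (L (nat_lit 13822667))
(L (nat_lit 26677834)))
(L (nat_lit 6704317)))
(L (nat_lit 20998509)))
(S (nat_lit 48353) (S (nat_lit 1041) (S (nat_lit 54863) (S (nat_lit 18949) (L (nat_lit 2866525))
(L (nat_lit 12593011)))
(L (nat_lit 12249229)))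
(L (nat_lit 19803181)))
(L (nat_lit 25802021)))))
(L (nat_lit 25926767)))))
(S (nat_lit 59023) (S (nat_lit 3) (S (nat_lit 18491) (S (nat_lit 56866) (L (nat_lit 17536313))
(S (nat_lit 59026) (S (nat_lit 36101) (S (nat_lit 25424) (S (nat_lit 54863) (S (nat_lit 52441) (S (nat_lit 37302) (L (nat_lit 21890471))
(L (nat_lit 23596903)))
(L (nat_lit 7048973)))
(L (nat_lit 27480205)))
(L (nat_lit 30430663)))
(L (nat_lit 6806617)))
(L (nat_lit 6313869))))
(S (nat_lit 38255) (S (nat_lit 12913) (S (nat_lit 59025) (S (nat_lit 5399) (S (nat_lit 41519) (S (nat_lit 13391) (S (nat_lit 50821) (L (nat_lit 26562669))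
(L (nat_lit 21404697)))
(L (nat_lit 6746691)))
(L (nat_lit 6996832)))
(L (nat_lit 18524065)))
(L (nat_lit 6715075)))
(S (nat_lit 34031) (S (nat_lit 25424) (L (nat_lit 13727466))
(L (nat_lit 11949145)))
(L (nat_lit 5692295))))
(S (nat_lit 58019) (S (nat_lit 4737) (L (nat_lit 6070958))
(S (nat_lit 25424) (S (nat_lit 26354) (S (nat_lit 59026) (S (nat_lit 32676) (L (nat_lit 29821299))
(L (nat_lit 8146959)))
(L (nat_lit 12611175)))
(L (nat_lit 15435595)))
(L (nat_lit 16798009))))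
(L (nat_lit 25732114)))))
(L (nat_lit 7757939)))
(L (nat_lit 25431725)))))
(S (nat_lit 23966) (S (nat_lit 3455) (S (nat_lit 17538) (S (nat_lit 13182) (S (nat_lit 36101) (S (nat_lit 3) (L (nat_lit 11928281))
(L (nat_lit 26608263)))
(L (nat_lit 6885849)))
(S (nat_lit 40863) (L (nat_lit 22393728))
(L (nat_lit 13508224))))
(S (nat_lit 37302) (S (nat_lit 12912) (S (nat_lit 24674) (S (nat_lit 25424) (S (nat_lit 42028) (S (nat_lit 35099) (L (nat_lit 6345213))
(L (nat_lit 23080815)))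
(L (nat_lit 23500552)))
(L (nat_lit 21205804)))
(L (nat_lit 21423394)))
(L (nat_lit 23519429)))
(S (nat_lit 57066) (S (nat_lit 12913) (S (nat_lit 55610) (S (nat_lit 12165) (L (nat_lit 7452283))
(L (nat_lit 26795080)))
(L (nat_lit 6081959)))
(S (nat_lit 32677) (S (nat_lit 51693) (S (nat_lit 25424) (S (nat_lit 20806) (L (nat_lit 26979342))
(L (nat_lit 21805280)))
(L (nat_lit 6706978)))
(L (nat_lit 20886538)))
(S (nat_lit 52441) (S (nat_lit 2499) (S (nat_lit 4907) (S (nat_lit 36104) (L (nat_lit 1483573))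
(L (nat_lit 6720121)))
(L (nat_lit 6741794)))
(L (nat_lit 18925479)))
(L (nat_lit 25499309)))))
(L (nat_lit 25241233)))))
(S (nat_lit 23219) (S (nat_lit 12913) (S (nat_lit 12166) (S (nat_lit 53178) (S (nat_lit 10708) (S (nat_lit 35846) (S (nat_lit 48350) (S (nat_lit 35099) (S (nat_lit 40569) (L (nat_lit 1437357))
(L (nat_lit 18698280)))
(L (nat_lit 20124091)))
(L (nat_lit 20298778)))
(L (nat_lit 30624941)))
(L (nat_lit 3943020)))
(L (nat_lit 18765895)))
(S (nat_lit 31930) (S (nat_lit 45410) (S (nat_lit 19765) (L (nat_lit 31167693))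
(L (nat_lit 21426185)))
(L (nat_lit 6842455)))
(S (nat_lit 51694) (S (nat_lit 32676) (L (nat_lit 21796877))
(L (nat_lit 7794708)))
(L (nat_lit 25658987)))))
(S (nat_lit 32677) (S (nat_lit 8036) (S (nat_lit 29515) (S (nat_lit 33155) (L (nat_lit 30424277))
(L (nat_lit 23498105)))
(L (nat_lit 18632715)))
(S (nat_lit 27800) (S (nat_lit 20806) (S (nat_lit 25163) (S (nat_lit 20805) (L (nat_lit 8132149))
(L (nat_lit 769896)))
(L (nat_lit 6741857)))
(L (nat_lit 22069094)))
(S (nat_lit 47564) (S (nat_lit 35099) (S (nat_lit 30472) (S (nat_lit 4) (S (nat_lit 35846) (S (nat_lit 8) (S (nat_lit 8822) (L (nat_lit 30750739))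
(L (nat_lit 6723381)))
(L (nat_lit 19275685)))
(L (nat_lit 20319015)))
(L (nat_lit 19326242)))
(L (nat_lit 1711985)))
(L (nat_lit 18518826)))
(L (nat_lit 25561299)))))
(S (nat_lit 52441) (S (nat_lit 13968) (L (nat_lit 7123093))
(S (nat_lit 35846) (S (nat_lit 25424) (S (nat_lit 59026) (S (nat_lit 35099) (S (nat_lit 59022) (S (nat_lit 28586) (S (nat_lit 29515) (S (nat_lit 50236) (L (nat_lit 24570886))
(L (nat_lit 27647460)))
(L (nat_lit 18025053)))
(L (nat_lit 17985226)))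
(L (nat_lit 12594875)))
(L (nat_lit 9148271)))
(L (nat_lit 13250337)))
(L (nat_lit 17011511)))
(L (nat_lit 23269165))))
(L (nat_lit 25924999)))))
(S (nat_lit 42983) (S (nat_lit 17030) (S (nat_lit 4258) (L (nat_lit 21896676))
(S (nat_lit 28349) (S (nat_lit 48629) (L (nat_lit 6687543))
(S (nat_lit 49276) (S (nat_lit 49279) (L (nat_lit 3797265))
(L (nat_lit 9833209)))
(L (nat_lit 7754656))))
(L (nat_lit 8028977))))
(S (nat_lit 36794) (S (nat_lit 9705) (L (nat_lit 7925344))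
(S (nat_lit 28349) (S (nat_lit 49279) (S (nat_lit 35099) (S (nat_lit 35360) (L (nat_lit 23655494))
(L (nat_lit 423282)))
(L (nat_lit 18518393)))
(L (nat_lit 7925312)))
(L (nat_lit 8031088))))
(S (nat_lit 56558) (S (nat_lit 4) (S (nat_lit 8) (S (nat_lit 33155) (S (nat_lit 36308) (S (nat_lit 22930) (L (nat_lit 21902441))
(L (nat_lit 13209917)))
(L (nat_lit 1324729)))
(L (nat_lit 23474017)))
(L (nat_lit 6344593)))
(S (nat_lit 31797) (L (nat_lit 6710357))
(L (nat_lit 7791700))))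
(L (nat_lit 25305556)))))
(L (nat_lit 25320937)))))
(S (nat_lit 43730) (S (nat_lit 18491) (S (nat_lit 1041) (S (nat_lit 12913) (S (nat_lit 2606) (L (nat_lit 19965501))
(S (nat_lit 10708) (S (nat_lit 12165) (S (nat_lit 16340) (L (nat_lit 4973807))
(L (nat_lit 9341647)))
(L (nat_lit 9193487)))
(L (nat_lit 23867402))))
(S (nat_lit 58087) (S (nat_lit 48646) (L (nat_lit 2863323))
(L (nat_lit 6687666)))
(L (nat_lit 18605313))))
(S (nat_lit 20805) (S (nat_lit 5882) (S (nat_lit 14138) (S (nat_lit 6593) (L (nat_lit 18608420))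
(L (nat_lit 602986)))
(L (nat_lit 26229383)))
(S (nat_lit 25646) (S (nat_lit 52001) (S (nat_lit 46409) (S (nat_lit 55865) (S (nat_lit 33902) (S (nat_lit 15335) (L (nat_lit 28491402))
(L (nat_lit 6320626)))
(L (nat_lit 23247097)))
(L (nat_lit 27514369)))
(L (nat_lit 11067411)))
(L (nat_lit 6709395)))
(S (nat_lit 45410) (S (nat_lit 4907) (L (nat_lit 15735420))
(S (nat_lit 5717) (L (nat_lit 23446304))
(L (nat_lit 6947324))))
(L (nat_lit 25409622)))))
(S (nat_lit 40569) (S (nat_lit 14623) (L (nat_lit 25050466))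
(S (nat_lit 34387) (S (nat_lit 32946) (S (nat_lit 42028) (S (nat_lit 19768) (S (nat_lit 42693) (L (nat_lit 24543453))
(L (nat_lit 23214920)))
(L (nat_lit 2716137)))
(L (nat_lit 13980480)))
(L (nat_lit 23261735)))
(S (nat_lit 54151) (S (nat_lit 3455) (L (nat_lit 26945549))
(L (nat_lit 10645942)))
(L (nat_lit 25415170)))))
(L (nat_lit 25278771)))))
(S (nat_lit 38255) (S (nat_lit 2985) (S (nat_lit 12651) (S (nat_lit 13391) (S (nat_lit 56072) (L (nat_lit 783913))
(L (nat_lit 15900594)))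
(L (nat_lit 6981552)))
(S (nat_lit 32415) (S (nat_lit 35846) (S (nat_lit 8) (S (nat_lit 59022) (S (nat_lit 33902) (S (nat_lit 22264) (S (nat_lit 8036) (L (nat_lit 29413744))
(L (nat_lit 436925)))
(L (nat_lit 30843616)))
(L (nat_lit 6208818)))
(L (nat_lit 8410619)))
(S (nat_lit 50205) (L (nat_lit 26659137))
(L (nat_lit 26642155))))
(L (nat_lit 3519065)))
(S (nat_lit 52179) (S (nat_lit 47564) (S (nat_lit 50236) (S (nat_lit 27131) (L (nat_lit 15911786))
(L (nat_lit 15900595)))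
(L (nat_lit 20877516)))
(L (nat_lit 5698150)))
(L (nat_lit 25728619)))))
(S (nat_lit 22749) (S (nat_lit 4) (S (nat_lit 23835) (S (nat_lit 25163) (L (nat_lit 26846255))
(L (nat_lit 5676761)))
(S (nat_lit 47564) (S (nat_lit 8) (S (nat_lit 15335) (S (nat_lit 52179) (S (nat_lit 6590) (L (nat_lit 10930360))
(L (nat_lit 23567108)))
(L (nat_lit 12878459)))
(L (nat_lit 22049194)))
(L (nat_lit 19275685)))
(L (nat_lit 5629616))))
(S (nat_lit 19768) (S (nat_lit 39536) (S (nat_lit 44927) (S (nat_lit 35846) (L (nat_lit 9450106))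
(L (nat_lit 3785977)))
(L (nat_lit 23504705)))
(L (nat_lit 23495499)))
(S (nat_lit 39532) (S (nat_lit 28586) (S (nat_lit 59030) (L (nat_lit 12604699))
(L (nat_lit 421076)))
(L (nat_lit 3978451)))
(L (nat_lit 25801801)))))
(S (nat_lit 42513) (S (nat_lit 12912) (S (nat_lit 15335) (S (nat_lit 47564) (S (nat_lit 55124) (L (nat_lit 28463561))
(L (nat_lit 13919282)))
(L (nat_lit 7191141)))
(S (nat_lit 52774) (L (nat_lit 5452410))
(L (nat_lit 6320719))))
(S (nat_lit 32676) (S (nat_lit 59026) (S (nat_lit 52001) (L (nat_lit 5527036))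
(L (nat_lit 7082604)))
(L (nat_lit 6319728)))
(S (nat_lit 52440) (L (nat_lit 7784634))
(L (nat_lit 25925001)))))
(L (nat_lit 25415822)))))
(S (nat_lit 58019) (S (nat_lit 19495) (S (nat_lit 1041) (S (nat_lit 59026) (L (nat_lit 3547027))
(L (nat_lit 19297415)))
(S (nat_lit 20805) (S (nat_lit 52001) (S (nat_lit 19498) (L (nat_lit 18783283))
(L (nat_lit 6172179)))
(L (nat_lit 6709395)))
(S (nat_lit 40569) (S (nat_lit 46118) (S (nat_lit 35846) (S (nat_lit 25643) (S (nat_lit 28589) (L (nat_lit 13653803))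
(L (nat_lit 9933587)))
(L (nat_lit 7433836)))
(L (nat_lit 18550567)))
(L (nat_lit 18108474)))
(L (nat_lit 25466418)))))
(S (nat_lit 39259) (S (nat_lit 15335) (S (nat_lit 32676) (S (nat_lit 28260) (L (nat_lit 6449555))
(L (nat_lit 23085961)))
(S (nat_lit 54100) (S (nat_lit 25424) (S (nat_lit 48113) (S (nat_lit 59026) (S (nat_lit 7364) (S (nat_lit 30472) (L (nat_lit 21215321))
(L (nat_lit 12777127)))
(L (nat_lit 21927335)))
(L (nat_lit 12807780)))
(L (nat_lit 221715)))
(L (nat_lit 11556652)))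
(L (nat_lit 8146959))))
(S (nat_lit 41571) (L (nat_lit 6886225))
(L (nat_lit 7354290))))
(S (nat_lit 59023) (S (nat_lit 3) (S (nat_lit 51191) (L (nat_lit 5452408))
(S (nat_lit 52001) (S (nat_lit 59030) (S (nat_lit 59025) (S (nat_lit 32947) (S (nat_lit 47564) (S (nat_lit 45674) (S (nat_lit 46406) (L (nat_lit 1878581))
(L (nat_lit 27645345)))
(L (nat_lit 23467224)))
(L (nat_lit 5553848)))
(L (nat_lit 8947352)))
(L (nat_lit 8410555)))
(L (nat_lit 8410894)))
(L (nat_lit 6437651))))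
(L (nat_lit 26613875)))
(L (nat_lit 25838759)))))
(L (nat_lit 25514158)))))
(L (nat_lit 25920717)))))
(S (nat_lit 31265) (S (nat_lit 3941) (S (nat_lit 12652) (S (nat_lit 4) (S (nat_lit 19502) (S (nat_lit 8) (S (nat_lit 59023) (L (nat_lit 5666035))
(L (nat_lit 6707108)))
(L (nat_lit 6895525)))
(S (nat_lit 39266) (S (nat_lit 28349) (S (nat_lit 3) (L (nat_lit 19268987))
(L (nat_lit 18888551)))
(S (nat_lit 43030) (S (nat_lit 55124) (L (nat_lit 15879545))
(L (nat_lit 12366465)))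
(L (nat_lit 18883441))))
(S (nat_lit 59030) (S (nat_lit 10708) (S (nat_lit 23219) (S (nat_lit 8) (S (nat_lit 10952) (L (nat_lit 26694730))
(L (nat_lit 7094421)))
(L (nat_lit 1461131)))
(L (nat_lit 21390560)))
(L (nat_lit 15474340)))
(L (nat_lit 25628296)))))
(S (nat_lit 19768) (S (nat_lit 39258) (S (nat_lit 25910) (L (nat_lit 405269))
(L (nat_lit 22420601)))
(L (nat_lit 23488803)))
(S (nat_lit 39532) (S (nat_lit 2986) (S (nat_lit 47275) (L (nat_lit 5021292))
(S (nat_lit 52001) (S (nat_lit 59026) (S (nat_lit 25424) (L (nat_lit 8008825))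
(L (nat_lit 5035308)))
(L (nat_lit 12611178)))
(L (nat_lit 4418158))))
(S (nat_lit 22750) (S (nat_lit 19772) (S (nat_lit 1042) (L (nat_lit 13373748))
(L (nat_lit 2354926)))
(S (nat_lit 47543) (L (nat_lit 4826928))
(L (nat_lit 3362609))))
(S (nat_lit 42514) (S (nat_lit 33455) (L (nat_lit 8809525))
(S (nat_lit 36308) (S (nat_lit 23966) (L (nat_lit 23248712))
(L (nat_lit 30430413)))
(L (nat_lit 11712249))))
(L (nat_lit 25679019)))))
(L (nat_lit 25375860)))))
(S (nat_lit 32416) (S (nat_lit 16547) (S (nat_lit 2500) (S (nat_lit 4) (S (nat_lit 28349) (L (nat_lit 17007412))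
(L (nat_lit 7423611)))
(S (nat_lit 20201) (L (nat_lit 19806400))
(L (nat_lit 18919707))))
(S (nat_lit 22264) (S (nat_lit 22930) (L (nat_lit 12497970))
(L (nat_lit 5585716)))
(S (nat_lit 42028) (S (nat_lit 6320) (S (nat_lit 30471) (L (nat_lit 4437629))
(L (nat_lit 30580336)))
(S (nat_lit 15406) (L (nat_lit 24952871))
(L (nat_lit 3941964))))
(L (nat_lit 25928160)))))
(S (nat_lit 36311) (S (nat_lit 1042) (S (nat_lit 12913) (S (nat_lit 13183) (L (nat_lit 28657709))
(L (nat_lit 13245346)))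
(L (nat_lit 26759175)))
(S (nat_lit 20806) (S (nat_lit 59025) (S (nat_lit 37302) (L (nat_lit 6687356))
(L (nat_lit 20005670)))
(L (nat_lit 12785277)))
(S (nat_lit 40570) (S (nat_lit 23219) (S (nat_lit 1) (L (nat_lit 24224313))
(L (nat_lit 19096622)))
(L (nat_lit 21365049)))
(L (nat_lit 25898501)))))
(S (nat_lit 56075) (S (nat_lit 9748) (S (nat_lit 28586) (S (nat_lit 26084) (S (nat_lit 22749) (S (nat_lit 1991) (L (nat_lit 28588084))
(L (nat_lit 3818813)))
(L (nat_lit 2609962)))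
(L (nat_lit 21151558)))
(S (nat_lit 52095) (L (nat_lit 26780325))
(L (nat_lit 19391499))))
(S (nat_lit 29512) (S (nat_lit 1991) (S (nat_lit 29514) (S (nat_lit 28586) (S (nat_lit 1041) (L (nat_lit 30624290))
(L (nat_lit 18979385)))
(L (nat_lit 19772645)))
(L (nat_lit 24539330)))
(L (nat_lit 13277986)))
(S (nat_lit 49276) (S (nat_lit 659) (L (nat_lit 422502))
(S (nat_lit 59026) (S (nat_lit 27800) (S (nat_lit 25424) (L (nat_lit 3550131))
(L (nat_lit 21376089)))
(L (nat_lit 7736953)))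
(L (nat_lit 802410))))
(L (nat_lit 25377477)))))
(L (nat_lit 25692530)))))
(S (nat_lit 52180) (S (nat_lit 1042) (S (nat_lit 19497) (S (nat_lit 3) (S (nat_lit 25643) (S (nat_lit 25424) (L (nat_lit 7762007))
(L (nat_lit 6706201)))
(L (nat_lit 11450981)))
(L (nat_lit 12805203)))
(S (nat_lit 39261) (S (nat_lit 27800) (S (nat_lit 59026) (L (nat_lit 24518561))
(L (nat_lit 6688377)))
(L (nat_lit 7736953)))
(S (nat_lit 59025) (S (nat_lit 59026) (S (nat_lit 35099) (S (nat_lit 1) (S (nat_lit 25424) (L (nat_lit 12817112))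
(L (nat_lit 22415143)))
(L (nat_lit 12812922)))
(L (nat_lit 13298859)))
(L (nat_lit 27659879)))
(L (nat_lit 25836681)))))
(S (nat_lit 20806) (S (nat_lit 1994) (S (nat_lit 38252) (S (nat_lit 3166) (S (nat_lit 4907) (L (nat_lit 6836000))
(L (nat_lit 7008736)))
(L (nat_lit 20202368)))
(L (nat_lit 13781337)))
(S (nat_lit 21758) (S (nat_lit 28934) (L (nat_lit 18551590))
(S (nat_lit 41519) (S (nat_lit 22930) (L (nat_lit 23996800))
(L (nat_lit 21832096)))
(L (nat_lit 27516320))))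
(S (nat_lit 41522) (S (nat_lit 813) (S (nat_lit 19767) (L (nat_lit 1394483))
(L (nat_lit 8841888)))
(S (nat_lit 55124) (S (nat_lit 6593) (S (nat_lit 57067) (L (nat_lit 20112720))
(L (nat_lit 12370563)))
(L (nat_lit 1565258)))
(L (nat_lit 21390689))))
(L (nat_lit 25303696)))))
(S (nat_lit 40570) (S (nat_lit 6146) (S (nat_lit 99) (L (nat_lit 4596344))
(S (nat_lit 11582) (L (nat_lit 8272480))
(L (nat_lit 28716051))))
(S (nat_lit 25910) (S (nat_lit 33902) (S (nat_lit 33155) (S (nat_lit 52711) (L (nat_lit 22231160))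
(L (nat_lit 19235385)))
(L (nat_lit 20359289)))
(S (nat_lit 53584) (L (nat_lit 19195299))
(L (nat_lit 20393017))))
(S (nat_lit 45674) (S (nat_lit 21755) (S (nat_lit 42027) (S (nat_lit 27800) (L (nat_lit 28757099))
(L (nat_lit 7763557)))
(L (nat_lit 24544071)))
(S (nat_lit 52807) (L (nat_lit 7078451))
(L (nat_lit 8144480))))
(L (nat_lit 25376451)))))
(L (nat_lit 25409653)))))
(L (nat_lit 25320906)))))
(S (nat_lit 23705) (S (nat_lit 19502) (S (nat_lit 49276) (L (nat_lit 29756998))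
(L (nat_lit 9853797)))
(S (nat_lit 39266) (S (nat_lit 12473) (S (nat_lit 19494) (S (nat_lit 16082) (S (nat_lit 19772) (S (nat_lit 9747) (S (nat_lit 3455) (S (nat_lit 14138) (L (nat_lit 16557794))
(S (nat_lit 33902) (L (nat_lit 15813946))
(S (nat_lit 53666) (L (nat_lit 26818787))
(L (nat_lit 25349361)))))
(L (nat_lit 20324256)))
(L (nat_lit 21390660)))
(L (nat_lit 21404517)))
(L (nat_lit 8802213)))
(L (nat_lit 24536357)))
(S (nat_lit 32237) (S (nat_lit 33155) (S (nat_lit 23219) (S (nat_lit 19494) (S (nat_lit 19772) (S (nat_lit 9747) (S (nat_lit 6146) (S (nat_lit 16082) (S (nat_lit 12165) (S (nat_lit 2499) (S (nat_lit 36210) (L (nat_lit 5712635))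
(S (nat_lit 41600) (L (nat_lit 12054548))
(S (nat_lit 52441) (S (nat_lit 42694) (S (nat_lit 1994) (S (nat_lit 26357) (S (nat_lit 1042) (L (nat_lit 6750812))
(L (nat_lit 20878859)))
(L (nat_lit 24604965)))
(S (nat_lit 32012) (L (nat_lit 7489208))
(L (nat_lit 20267874))))
(L (nat_lit 27795573)))
(L (nat_lit 15602903)))))
(L (nat_lit 8307762)))
(S (nat_lit 31929) (S (nat_lit 22263) (S (nat_lit 34386) (S (nat_lit 15228) (L (nat_lit 3501619))
(S (nat_lit 40570) (S (nat_lit 57067) (S (nat_lit 1) (L (nat_lit 15365130))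
(L (nat_lit 18921256)))
(L (nat_lit 27889096)))
(S (nat_lit 45775) (L (nat_lit 1598837))
(L (nat_lit 17093753)))))
(L (nat_lit 14939776)))
(L (nat_lit 21803362)))
(S (nat_lit 51693) (S (nat_lit 42027) (S (nat_lit 54150) (S (nat_lit 3150) (S (nat_lit 30716) (L (nat_lit 6406034))
(L (nat_lit 17639077)))
(S (nat_lit 4615) (L (nat_lit 17967956))
(S (nat_lit 17030) (L (nat_lit 24360088))
(L (nat_lit 24277448)))))
(L (nat_lit 17523969)))
(L (nat_lit 12281316)))
(L (nat_lit 25834723)))))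
(L (nat_lit 26609970)))
(L (nat_lit 26617911)))
(L (nat_lit 21194244)))
(L (nat_lit 21404517)))
(S (nat_lit 39179) (L (nat_lit 1449628))
(L (nat_lit 11618041))))
(L (nat_lit 30811872)))
(L (nat_lit 30822721)))
(S (nat_lit 52001) (S (nat_lit 9747) (S (nat_lit 19494) (S (nat_lit 16082) (S (nat_lit 19772) (S (nat_lit 52919) (S (nat_lit 42983) (S (nat_lit 6146) (S (nat_lit 6590) (S (nat_lit 16337) (S (nat_lit 6320) (S (nat_lit 17030) (S (nat_lit 38255) (S (nat_lit 35360) (S (nat_lit 58016) (L (nat_lit 18506759))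
(L (nat_lit 9956067)))
(L (nat_lit 20885610)))
(L (nat_lit 12316067)))
(S (nat_lit 36794) (S (nat_lit 49279) (S (nat_lit 5882) (S (nat_lit 8825) (L (nat_lit 5617555))
(L (nat_lit 8296175)))
(L (nat_lit 19732997)))
(L (nat_lit 22408736)))
(S (nat_lit 56558) (S (nat_lit 2986) (S (nat_lit 35360) (S (nat_lit 58019) (L (nat_lit 9520728))
(L (nat_lit 13536628)))
(L (nat_lit 962930)))
(L (nat_lit 15604451)))
(L (nat_lit 25462228)))))
(L (nat_lit 18189917)))
(L (nat_lit 4644189)))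
(S (nat_lit 26354) (S (nat_lit 36101) (S (nat_lit 19498) (S (nat_lit 45410) (S (nat_lit 31159) (L (nat_lit 3490458))
(L (nat_lit 29776068)))
(L (nat_lit 6414774)))
(S (nat_lit 39262) (S (nat_lit 19768) (S (nat_lit 40569) (S (nat_lit 57066) (S (nat_lit 43890) (L (nat_lit 3545816))
(L (nat_lit 21833152)))
(L (nat_lit 10610257)))
(L (nat_lit 3948234)))
(L (nat_lit 8809123)))
(S (nat_lit 59026) (S (nat_lit 27800) (S (nat_lit 25424) (S (nat_lit 49279) (S (nat_lit 20394) (L (nat_lit 12095283))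
(S (nat_lit 32416) (S (nat_lit 22750) (S (nat_lit 51694) (S (nat_lit 8822) (L (nat_lit 2340442))
(L (nat_lit 15651883)))
(L (nat_lit 669510)))
(L (nat_lit 30922018)))
(S (nat_lit 34469) (L (nat_lit 23380120))
(L (nat_lit 16872658)))))
(L (nat_lit 7763520)))
(L (nat_lit 31142985)))
(L (nat_lit 31137316)))
(L (nat_lit 25181430)))))
(L (nat_lit 19984839)))
(S (nat_lit 46118) (S (nat_lit 45848) (S (nat_lit 55865) (S (nat_lit 8825) (S (nat_lit 35360) (S (nat_lit 49279) (S (nat_lit 36794) (S (nat_lit 25646) (L (nat_lit 4442036))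
(L (nat_lit 17493316)))
(L (nat_lit 30888227)))
(L (nat_lit 10371813)))
(L (nat_lit 13533771)))
(S (nat_lit 28589) (S (nat_lit 7364) (S (nat_lit 39532) (S (nat_lit 54863) (S (nat_lit 42693) (L (nat_lit 7484027))
(L (nat_lit 16624356)))
(L (nat_lit 16624196)))
(L (nat_lit 11136111)))
(L (nat_lit 9343379)))
(S (nat_lit 48353) (S (nat_lit 25424) (S (nat_lit 53666) (S (nat_lit 44435) (S (nat_lit 25646) (L (nat_lit 1423099))
(L (nat_lit 22810958)))
(L (nat_lit 27712704)))
(L (nat_lit 27438736)))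
(L (nat_lit 16868039)))
(L (nat_lit 25597237)))))
(L (nat_lit 27869319)))
(L (nat_lit 27763831)))
(L (nat_lit 25755856)))))
(L (nat_lit 26608360)))
(L (nat_lit 23462727)))
(L (nat_lit 10880602)))
(L (nat_lit 21372772)))
(L (nat_lit 24538404)))
(L (nat_lit 22422649)))
(L (nat_lit 21373017)))
(L (nat_lit 25311848)))))
(S (nat_lit 59030) (S (nat_lit 6146) (L (nat_lit 4597403))
(L (nat_lit 4609928)))
(L (nat_lit 25826510)))))
(S (nat_lit 43469) (S (nat_lit 10952) (S (nat_lit 8822) (S (nat_lit 3455) (S (nat_lit 19502) (S (nat_lit 36104) (L (nat_lit 6450895))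
(L (nat_lit 6353519)))
(L (nat_lit 16327772)))
(S (nat_lit 23219) (S (nat_lit 26354) (S (nat_lit 55868) (S (nat_lit 38252) (L (nat_lit 28485045))
(L (nat_lit 6867841)))
(L (nat_lit 1845871)))
(L (nat_lit 24917221)))
(S (nat_lit 42983) (S (nat_lit 53179) (S (nat_lit 22749) (L (nat_lit 14881651))
(L (nat_lit 6720307)))
(L (nat_lit 933206)))
(L (nat_lit 25206477)))))
(S (nat_lit 28586) (S (nat_lit 12473) (S (nat_lit 26642) (S (nat_lit 3165) (L (nat_lit 29375827))
(L (nat_lit 26556467)))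
(L (nat_lit 5827827)))
(S (nat_lit 32237) (S (nat_lit 59026) (S (nat_lit 22929) (L (nat_lit 4451731))
(L (nat_lit 6437683)))
(L (nat_lit 867571)))
(S (nat_lit 52001) (S (nat_lit 10615) (S (nat_lit 53346) (L (nat_lit 31134152))
(L (nat_lit 3983725)))
(S (nat_lit 25424) (S (nat_lit 59026) (S (nat_lit 48113) (S (nat_lit 4) (L (nat_lit 1337008))
(L (nat_lit 1841653)))
(L (nat_lit 27462320)))
(L (nat_lit 12607274)))
(L (nat_lit 7016859))))
(L (nat_lit 25630869)))))
(S (nat_lit 48350) (S (nat_lit 12166) (S (nat_lit 26357) (S (nat_lit 59026) (S (nat_lit 25163) (L (nat_lit 2931955))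
(L (nat_lit 6948654)))
(L (nat_lit 421479)))
(L (nat_lit 19674219)))
(S (nat_lit 31930) (S (nat_lit 26357) (S (nat_lit 50235) (S (nat_lit 46406) (S (nat_lit 48113) (L (nat_lit 11064411))
(L (nat_lit 7094880)))
(L (nat_lit 17164371)))
(L (nat_lit 27930635)))
(L (nat_lit 24209867)))
(S (nat_lit 51694) (S (nat_lit 32416) (S (nat_lit 9142) (L (nat_lit 5497235))
(L (nat_lit 12937824)))
(S (nat_lit 42683) (L (nat_lit 6340435))
(L (nat_lit 875725))))
(L (nat_lit 25891275)))))
(L (nat_lit 25800132)))))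
(S (nat_lit 30716) (S (nat_lit 5882) (S (nat_lit 8822) (S (nat_lit 32947) (S (nat_lit 28349) (S (nat_lit 24227) (L (nat_lit 11586351))
(L (nat_lit 23075692)))
(L (nat_lit 19437657)))
(L (nat_lit 3502734)))
(S (nat_lit 28586) (S (nat_lit 2141) (L (nat_lit 8412665))
(S (nat_lit 27128) (S (nat_lit 26645) (S (nat_lit 54863) (L (nat_lit 17682660))
(L (nat_lit 13866834)))
(L (nat_lit 15510707)))
(L (nat_lit 24372240))))
(S (nat_lit 48350) (S (nat_lit 25163) (S (nat_lit 26354) (L (nat_lit 567189))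
(L (nat_lit 24904945)))
(S (nat_lit 26475) (S (nat_lit 6593) (L (nat_lit 843119))
(L (nat_lit 14387050)))
(L (nat_lit 5946151))))
(L (nat_lit 25343691)))))
(S (nat_lit 25646) (S (nat_lit 1042) (S (nat_lit 7139) (L (nat_lit 30811189))
(S (nat_lit 52001) (S (nat_lit 55865) (S (nat_lit 59026) (S (nat_lit 26087) (L (nat_lit 17406756))
(L (nat_lit 13805243)))
(L (nat_lit 6884793)))
(L (nat_lit 3403501)))
(L (nat_lit 14903475))))
(S (nat_lit 20806) (S (nat_lit 24671) (S (nat_lit 19498) (L (nat_lit 17025083))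
(L (nat_lit 24129051)))
(S (nat_lit 55189) (L (nat_lit 23112153))
(L (nat_lit 16833785))))
(S (nat_lit 40570) (S (nat_lit 19497) (S (nat_lit 39529) (L (nat_lit 1451644))
(L (nat_lit 16783961)))
(L (nat_lit 26429029)))
(L (nat_lit 25734196)))))
(S (nat_lit 45410) (S (nat_lit 8825) (S (nat_lit 27800) (S (nat_lit 45407) (L (nat_lit 24224281))
(L (nat_lit 6723162)))
(S (nat_lit 54580) (L (nat_lit 17011321))
(L (nat_lit 14688051))))
(S (nat_lit 28589) (S (nat_lit 25163) (S (nat_lit 33902) (L (nat_lit 7028893))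
(L (nat_lit 23444257)))
(S (nat_lit 55495) (L (nat_lit 12938291))
(L (nat_lit 7005228))))
(S (nat_lit 48353) (S (nat_lit 28164) (L (nat_lit 4596344))
(S (nat_lit 36101) (S (nat_lit 25163) (L (nat_lit 4439673))
(L (nat_lit 6741113)))
(L (nat_lit 7115501))))
(L (nat_lit 25679108)))))
(L (nat_lit 25270926)))))
(S (nat_lit 50480) (S (nat_lit 6881) (S (nat_lit 57406) (S (nat_lit 15441) (L (nat_lit 13821608))
(L (nat_lit 13453633)))
(S (nat_lit 59026) (S (nat_lit 8036) (S (nat_lit 22263) (L (nat_lit 30424307))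
(L (nat_lit 827891)))
(L (nat_lit 13405862)))
(L (nat_lit 6373171))))
(S (nat_lit 26645) (S (nat_lit 6593) (S (nat_lit 42027) (S (nat_lit 48353) (S (nat_lit 26087) (L (nat_lit 2995478))
(L (nat_lit 22517081)))
(L (nat_lit 5597587)))
(L (nat_lit 13755731)))
(L (nat_lit 12707123)))
(S (nat_lit 46409) (S (nat_lit 16337) (S (nat_lit 25163) (L (nat_lit 342712))
(S (nat_lit 37212) (L (nat_lit 22519867))
(L (nat_lit 22447911))))
(S (nat_lit 36101) (S (nat_lit 13182) (S (nat_lit 44438) (L (nat_lit 635256))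
(L (nat_lit 13262890)))
(L (nat_lit 13263169)))
(S (nat_lit 55865) (S (nat_lit 36797) (S (nat_lit 8822) (S (nat_lit 19497) (L (nat_lit 30025252))
(L (nat_lit 18048611)))
(L (nat_lit 1438227)))
(L (nat_lit 13453633)))
(L (nat_lit 25613385)))))
(L (nat_lit 25871649)))))
(L (nat_lit 25666148)))))
(L (nat_lit 25824463)))))
(S (nat_lit 51029) (S (nat_lit 3941) (S (nat_lit 2986) (S (nat_lit 17539) (S (nat_lit 11332) (L (nat_lit 4596344))
(S (nat_lit 55610) (S (nat_lit 39258) (S (nat_lit 19502) (S (nat_lit 49275) (S (nat_lit 25910) (S (nat_lit 52180) (S (nat_lit 33415) (S (nat_lit 30472) (S (nat_lit 6878) (S (nat_lit 52440) (L (nat_lit 16795869))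
(L (nat_lit 22279249)))
(S (nat_lit 26642) (S (nat_lit 8825) (S (nat_lit 38252) (S (nat_lit 33155) (S (nat_lit 52440) (L (nat_lit 280221))
(L (nat_lit 6352559)))
(L (nat_lit 8471129)))
(L (nat_lit 30984265)))
(L (nat_lit 502611)))
(S (nat_lit 46406) (S (nat_lit 32946) (L (nat_lit 30673552))
(L (nat_lit 20113958)))
(L (nat_lit 25855403)))))
(L (nat_lit 1984999)))
(L (nat_lit 15485960)))
(L (nat_lit 20065037)))
(L (nat_lit 414566)))
(L (nat_lit 9465302)))
(L (nat_lit 24535048)))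
(L (nat_lit 23490851)))
(L (nat_lit 19296485))))
(S (nat_lit 37303) (S (nat_lit 42560) (L (nat_lit 3559335))
(S (nat_lit 55610) (S (nat_lit 52180) (S (nat_lit 39258) (S (nat_lit 19502) (S (nat_lit 33415) (S (nat_lit 25910) (S (nat_lit 50236) (S (nat_lit 39536) (S (nat_lit 3165) (S (nat_lit 52001) (S (nat_lit 17538) (S (nat_lit 38255) (S (nat_lit 48353) (S (nat_lit 5879) (L (nat_lit 2412060))
(L (nat_lit 11661900)))
(L (nat_lit 20353338)))
(L (nat_lit 20079982)))
(L (nat_lit 449447)))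
(L (nat_lit 20388612)))
(S (nat_lit 22929) (S (nat_lit 1991) (L (nat_lit 30911077))
(L (nat_lit 20824354)))
(S (nat_lit 42693) (S (nat_lit 25424) (L (nat_lit 14752599))
(L (nat_lit 4940012)))
(L (nat_lit 25643236)))))
(L (nat_lit 24315728)))
(L (nat_lit 324018)))
(L (nat_lit 16996131)))
(L (nat_lit 20444484)))
(L (nat_lit 24535296)))
(L (nat_lit 23490851)))
(L (nat_lit 20014349)))
(L (nat_lit 19269882))))
(S (nat_lit 57067) (S (nat_lit 7153) (L (nat_lit 15405864))
(S (nat_lit 33415) (S (nat_lit 39258) (S (nat_lit 52180) (S (nat_lit 19502) (S (nat_lit 49275) (S (nat_lit 55610) (S (nat_lit 10708) (S (nat_lit 25910) (S (nat_lit 20806) (S (nat_lit 7273) (S (nat_lit 22264) (S (nat_lit 27131) (S (nat_lit 53178) (L (nat_lit 19015065))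
(L (nat_lit 10946391)))
(L (nat_lit 30709237)))
(L (nat_lit 30774988)))
(S (nat_lit 36797) (S (nat_lit 13183) (S (nat_lit 16337) (S (nat_lit 52440) (L (nat_lit 15045309))
(L (nat_lit 27318665)))
(L (nat_lit 15274791)))
(L (nat_lit 925326)))
(S (nat_lit 44502) (S (nat_lit 19768) (S (nat_lit 33155) (L (nat_lit 15335801))
(L (nat_lit 23996961)))
(L (nat_lit 21366697)))
(L (nat_lit 20475105)))))
(L (nat_lit 746027)))
(L (nat_lit 5726920)))
(L (nat_lit 5627793)))
(L (nat_lit 4616841)))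
(L (nat_lit 20855042)))
(L (nat_lit 3551154)))
(L (nat_lit 20017357)))
(L (nat_lit 19950121)))
(L (nat_lit 15485960))))
(L (nat_lit 25272909)))))
(S (nat_lit 22750) (S (nat_lit 14623) (S (nat_lit 12241) (L (nat_lit 11712125))
(S (nat_lit 12652) (S (nat_lit 53179) (S (nat_lit 19502) (S (nat_lit 49275) (S (nat_lit 39258) (S (nat_lit 25910) (S (nat_lit 39536) (S (nat_lit 42028) (S (nat_lit 31930) (S (nat_lit 16544) (S (nat_lit 10707) (L (nat_lit 384445))
(L (nat_lit 5728937)))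
(S (nat_lit 35524) (S (nat_lit 12912) (L (nat_lit 5844508))
(L (nat_lit 18159510)))
(S (nat_lit 45819) (S (nat_lit 21755) (L (nat_lit 7756923))
(L (nat_lit 8292977)))
(L (nat_lit 17582185)))))
(L (nat_lit 30694416)))
(L (nat_lit 3928553)))
(L (nat_lit 27494129)))
(L (nat_lit 6076134)))
(L (nat_lit 19950121)))
(L (nat_lit 20114952)))
(L (nat_lit 26619456)))
(L (nat_lit 12260175)))
(L (nat_lit 12119154))))
(S (nat_lit 34387) (S (nat_lit 6477) (L (nat_lit 20123535))
(S (nat_lit 39258) (S (nat_lit 19502) (S (nat_lit 2500) (S (nat_lit 55610) (S (nat_lit 39536) (S (nat_lit 25910) (S (nat_lit 49275) (S (nat_lit 12652) (S (nat_lit 53179) (S (nat_lit 51694) (S (nat_lit 36893) (S (nat_lit 866) (S (nat_lit 2638) (S (nat_lit 36281) (L (nat_lit 2407035))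
(L (nat_lit 24949863)))
(L (nat_lit 11360704)))
(L (nat_lit 3465655)))
(S (nat_lit 50236) (S (nat_lit 58016) (S (nat_lit 57066) (L (nat_lit 28450290))
(L (nat_lit 12847771)))
(L (nat_lit 27336430)))
(S (nat_lit 50633) (S (nat_lit 31902) (L (nat_lit 14882488))
(L (nat_lit 6076074)))
(L (nat_lit 14360385)))))
(L (nat_lit 12700486)))
(L (nat_lit 21262415)))
(L (nat_lit 12354221)))
(L (nat_lit 22035368)))
(L (nat_lit 5644151)))
(L (nat_lit 23491940)))
(L (nat_lit 4616841)))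
(L (nat_lit 2451957)))
(L (nat_lit 3551124)))
(L (nat_lit 1466249))))
(S (nat_lit 54151) (S (nat_lit 8036) (S (nat_lit 19502) (S (nat_lit 52001) (S (nat_lit 53179) (S (nat_lit 22264) (S (nat_lit 12652) (S (nat_lit 20805) (S (nat_lit 49275) (S (nat_lit 3455) (S (nat_lit 13182) (L (nat_lit 3457724))
(L (nat_lit 26358342)))
(L (nat_lit 20317063)))
(L (nat_lit 9465364)))
(L (nat_lit 22845954)))
(L (nat_lit 12359058)))
(L (nat_lit 456392)))
(L (nat_lit 27758931)))
(L (nat_lit 27474099)))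
(L (nat_lit 3551154)))
(S (nat_lit 11621) (L (nat_lit 4406035))
(L (nat_lit 12904627))))
(L (nat_lit 25516578)))))
(S (nat_lit 42514) (S (nat_lit 17033) (S (nat_lit 11332) (L (nat_lit 4596344))
(S (nat_lit 55610) (S (nat_lit 19502) (S (nat_lit 13651) (S (nat_lit 44438) (S (nat_lit 39258) (S (nat_lit 39536) (S (nat_lit 49275) (S (nat_lit 27131) (S (nat_lit 2499) (S (nat_lit 18488) (L (nat_lit 14821114))
(L (nat_lit 2879975)))
(S (nat_lit 22263) (S (nat_lit 58016) (L (nat_lit 8532733))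
(L (nat_lit 19760681)))
(S (nat_lit 42027) (S (nat_lit 25646) (S (nat_lit 6590) (L (nat_lit 8010843))
(L (nat_lit 7155733)))
(L (nat_lit 11033349)))
(L (nat_lit 25219438)))))
(L (nat_lit 14914137)))
(L (nat_lit 7763650)))
(L (nat_lit 11121413)))
(L (nat_lit 23490851)))
(L (nat_lit 12376482)))
(L (nat_lit 7159361)))
(L (nat_lit 24535296)))
(L (nat_lit 19296393))))
(S (nat_lit 36797) (S (nat_lit 49275) (S (nat_lit 19502) (S (nat_lit 39258) (S (nat_lit 25910) (S (nat_lit 39536) (S (nat_lit 55610) (S (nat_lit 32416) (S (nat_lit 46895) (S (nat_lit 4910) (S (nat_lit 5879) (S (nat_lit 26084) (L (nat_lit 2600568))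
(L (nat_lit 30919970)))
(S (nat_lit 19652) (S (nat_lit 13028) (L (nat_lit 4896027))
(L (nat_lit 19072844)))
(S (nat_lit 27681) (S (nat_lit 48693) (S (nat_lit 10816) (L (nat_lit 2596506))
(L (nat_lit 1297292)))
(L (nat_lit 18556805)))
(L (nat_lit 897640)))))
(L (nat_lit 18918845)))
(L (nat_lit 18699369)))
(L (nat_lit 17629458)))
(L (nat_lit 19296484)))
(L (nat_lit 27277035)))
(L (nat_lit 5643993)))
(L (nat_lit 30823779)))
(L (nat_lit 5648274)))
(L (nat_lit 8096624)))
(S (nat_lit 56561) (S (nat_lit 4263) (L (nat_lit 23869728))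
(S (nat_lit 39258) (S (nat_lit 19502) (S (nat_lit 55865) (S (nat_lit 39536) (S (nat_lit 13651) (S (nat_lit 41519) (S (nat_lit 24674) (S (nat_lit 37302) (S (nat_lit 12912) (L (nat_lit 5522011))
(L (nat_lit 3391096)))
(L (nat_lit 20221340)))
(L (nat_lit 5157547)))
(L (nat_lit 483942)))
(L (nat_lit 7159361)))
(L (nat_lit 23491940)))
(L (nat_lit 14420647)))
(L (nat_lit 3551124)))
(L (nat_lit 1471209))))
(L (nat_lit 25245384)))))
(L (nat_lit 25415825)))))
(S (nat_lit 23705) (S (nat_lit 16337) (S (nat_lit 12166) (S (nat_lit 17033) (S (nat_lit 15596) (S (nat_lit 59030) (S (nat_lit 39532) (L (nat_lit 22195023))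
(L (nat_lit 5458735)))
(L (nat_lit 2893266)))
(S (nat_lit 52811) (L (nat_lit 12932156))
(L (nat_lit 24701249))))
(S (nat_lit 36797) (S (nat_lit 19498) (L (nat_lit 10404513))
(L (nat_lit 5531341)))
(S (nat_lit 56561) (S (nat_lit 6532) (L (nat_lit 6997922))
(S (nat_lit 41519) (S (nat_lit 6590) (S (nat_lit 39262) (S (nat_lit 44927) (L (nat_lit 1465096))
(L (nat_lit 12607305)))
(L (nat_lit 23078328)))
(L (nat_lit 26981605)))
(L (nat_lit 6949274))))
(L (nat_lit 25245010)))))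
(S (nat_lit 31930) (S (nat_lit 13183) (S (nat_lit 23084) (S (nat_lit 36259) (L (nat_lit 5846236))
(L (nat_lit 22394657)))
(S (nat_lit 39529) (S (nat_lit 59026) (S (nat_lit 48350) (L (nat_lit 30805703))
(L (nat_lit 20263962)))
(L (nat_lit 403065)))
(L (nat_lit 24158063))))
(S (nat_lit 32947) (S (nat_lit 59026) (S (nat_lit 1) (S (nat_lit 35360) (L (nat_lit 23998784))
(L (nat_lit 23471163)))
(L (nat_lit 19302185)))
(L (nat_lit 6952749)))
(S (nat_lit 52711) (S (nat_lit 46406) (S (nat_lit 32946) (S (nat_lit 33155) (L (nat_lit 30760078))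
(L (nat_lit 23496491)))
(L (nat_lit 30758029)))
(L (nat_lit 12337301)))
(L (nat_lit 25309833)))))
(S (nat_lit 51694) (S (nat_lit 13650) (S (nat_lit 35099) (S (nat_lit 59023) (S (nat_lit 22930) (L (nat_lit 7026529))
(L (nat_lit 13183096)))
(L (nat_lit 18902317)))
(L (nat_lit 12784217)))
(S (nat_lit 33414) (S (nat_lit 4202) (S (nat_lit 8825) (S (nat_lit 25424) (L (nat_lit 21926129))
(L (nat_lit 21369145)))
(L (nat_lit 21147501)))
(S (nat_lit 47275) (L (nat_lit 2006637))
(L (nat_lit 15604823))))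
(S (nat_lit 53178) (S (nat_lit 5882) (S (nat_lit 15335) (S (nat_lit 1) (L (nat_lit 20124461))
(L (nat_lit 243477)))
(L (nat_lit 22221709)))
(L (nat_lit 244599)))
(L (nat_lit 25792845)))))
(L (nat_lit 25888048)))))
(S (nat_lit 36101) (S (nat_lit 6320) (S (nat_lit 20465) (S (nat_lit 46892) (L (nat_lit 5522139))
(L (nat_lit 22161264)))
(S (nat_lit 59026) (S (nat_lit 8036) (S (nat_lit 52001) (S (nat_lit 22264) (S (nat_lit 33155) (L (nat_lit 5491131))
(L (nat_lit 30621748)))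
(L (nat_lit 836949)))
(L (nat_lit 27664531)))
(S (nat_lit 12572) (L (nat_lit 17583143))
(L (nat_lit 13376693))))
(L (nat_lit 13244199))))
(S (nat_lit 26084) (S (nat_lit 4910) (S (nat_lit 14958) (L (nat_lit 6036140))
(S (nat_lit 25163) (S (nat_lit 36308) (L (nat_lit 18416487))
(L (nat_lit 12061369)))
(L (nat_lit 5791033))))
(S (nat_lit 24674) (S (nat_lit 19772) (S (nat_lit 52001) (S (nat_lit 25424) (S (nat_lit 52919) (L (nat_lit 5694025))
(L (nat_lit 18080323)))
(L (nat_lit 7029536)))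
(L (nat_lit 8546926)))
(L (nat_lit 21213369)))
(S (nat_lit 44438) (S (nat_lit 39896) (L (nat_lit 12710539))
(S (nat_lit 45410) (S (nat_lit 8036) (S (nat_lit 52001) (S (nat_lit 22750) (S (nat_lit 13650) (L (nat_lit 4606200))
(L (nat_lit 12624472)))
(L (nat_lit 2929382)))
(L (nat_lit 27474597)))
(L (nat_lit 801448)))
(L (nat_lit 13410391))))
(L (nat_lit 25473078)))))
(S (nat_lit 45848) (S (nat_lit 12652) (S (nat_lit 1) (S (nat_lit 46409) (L (nat_lit 18419494))
(L (nat_lit 20720097)))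
(L (nat_lit 6344123)))
(S (nat_lit 32416) (S (nat_lit 52440) (S (nat_lit 36311) (L (nat_lit 30657581))
(L (nat_lit 23176763)))
(L (nat_lit 601871)))
(S (nat_lit 52180) (S (nat_lit 35846) (S (nat_lit 36311) (S (nat_lit 29511) (L (nat_lit 26589269))
(L (nat_lit 30822660)))
(L (nat_lit 23180505)))
(L (nat_lit 3709746)))
(L (nat_lit 25255367)))))
(L (nat_lit 25282862)))))
(S (nat_lit 55865) (S (nat_lit 13650) (S (nat_lit 6878) (S (nat_lit 18945) (L (nat_lit 10228274))
(S (nat_lit 59025) (S (nat_lit 7367) (L (nat_lit 8098573))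
(L (nat_lit 13554761)))
(L (nat_lit 13182757))))
(S (nat_lit 26642) (S (nat_lit 25646) (S (nat_lit 28586) (S (nat_lit 8036) (S (nat_lit 3) (L (nat_lit 29756008))
(L (nat_lit 8160908)))
(L (nat_lit 452821)))
(L (nat_lit 3493337)))
(L (nat_lit 14590039)))
(S (nat_lit 46406) (S (nat_lit 5936) (L (nat_lit 22221241))
(S (nat_lit 25646) (S (nat_lit 29514) (S (nat_lit 26357) (L (nat_lit 11078575))
(L (nat_lit 3926507)))
(L (nat_lit 18620438)))
(L (nat_lit 3941006))))
(L (nat_lit 25543299)))))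
(S (nat_lit 33414) (S (nat_lit 6881) (S (nat_lit 8036) (S (nat_lit 59023) (L (nat_lit 23076717))
(L (nat_lit 19678375)))
(L (nat_lit 10238565)))
(S (nat_lit 26645) (S (nat_lit 10952) (S (nat_lit 29514) (L (nat_lit 12624506))
(L (nat_lit 24912420)))
(S (nat_lit 20866) (L (nat_lit 9137165))
(L (nat_lit 18621621))))
(S (nat_lit 46409) (S (nat_lit 35360) (S (nat_lit 37303) (S (nat_lit 59026) (S (nat_lit 8) (L (nat_lit 3569259))
(L (nat_lit 13230219)))
(L (nat_lit 12783411)))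
(L (nat_lit 14362402)))
(L (nat_lit 30821419)))
(L (nat_lit 25215253)))))
(S (nat_lit 53178) (S (nat_lit 6881) (S (nat_lit 3344) (L (nat_lit 7931353))
(S (nat_lit 39259) (S (nat_lit 39261) (S (nat_lit 59026) (L (nat_lit 13268107))
(L (nat_lit 19672205)))
(L (nat_lit 30811285)))
(L (nat_lit 7946049))))
(S (nat_lit 26645) (S (nat_lit 18488) (S (nat_lit 52001) (S (nat_lit 3) (L (nat_lit 19293318))
(L (nat_lit 12838529)))
(L (nat_lit 6109397)))
(L (nat_lit 2931028)))
(S (nat_lit 46409) (S (nat_lit 10952) (S (nat_lit 33415) (L (nat_lit 7355064))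
(L (nat_lit 31131144)))
(L (nat_lit 795244)))
(L (nat_lit 25209585)))))
(L (nat_lit 25901411)))))
(L (nat_lit 25760013)))))
(S (nat_lit 43469) (S (nat_lit 17538) (S (nat_lit 6878) (S (nat_lit 8585) (S (nat_lit 32946) (S (nat_lit 42983) (L (nat_lit 14018208))
(L (nat_lit 23431672)))
(L (nat_lit 2681205)))
(S (nat_lit 28349) (S (nat_lit 34387) (S (nat_lit 54150) (L (nat_lit 6753881))
(L (nat_lit 18763008)))
(L (nat_lit 7420723)))
(S (nat_lit 48113) (S (nat_lit 36311) (S (nat_lit 10952) (S (nat_lit 15596) (L (nat_lit 9460152))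
(L (nat_lit 22047085)))
(L (nat_lit 16517491)))
(S (nat_lit 37121) (S (nat_lit 10952) (L (nat_lit 26460342))
(L (nat_lit 16517491)))
(L (nat_lit 6982575))))
(L (nat_lit 25725203)))))
(S (nat_lit 26642) (S (nat_lit 12651) (S (nat_lit 9750) (S (nat_lit 2986) (S (nat_lit 18491) (L (nat_lit 28707435))
(L (nat_lit 26779329)))
(L (nat_lit 1502918)))
(S (nat_lit 31178) (L (nat_lit 6703224))
(L (nat_lit 23464153))))
(S (nat_lit 32415) (S (nat_lit 38949) (L (nat_lit 24374723))
(S (nat_lit 46118) (S (nat_lit 10952) (L (nat_lit 13436618))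
(L (nat_lit 7094885)))
(L (nat_lit 22852651))))
(S (nat_lit 52179) (S (nat_lit 9204) (L (nat_lit 930471))
(S (nat_lit 19767) (S (nat_lit 1) (L (nat_lit 3557594))
(L (nat_lit 6350229)))
(L (nat_lit 30803622))))
(L (nat_lit 25900292)))))
(S (nat_lit 46406) (S (nat_lit 19502) (S (nat_lit 5502) (L (nat_lit 7049661))
(S (nat_lit 52919) (S (nat_lit 1) (L (nat_lit 5643869))
(L (nat_lit 7759426)))
(L (nat_lit 11929240))))
(S (nat_lit 39266) (S (nat_lit 8036) (S (nat_lit 9747) (S (nat_lit 2986) (S (nat_lit 49279) (L (nat_lit 10906679))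
(L (nat_lit 20326425)))
(L (nat_lit 747820)))
(L (nat_lit 21373730)))
(L (nat_lit 23128616)))
(S (nat_lit 59030) (S (nat_lit 14622) (S (nat_lit 45674) (L (nat_lit 18635009))
(L (nat_lit 23527640)))
(L (nat_lit 12839061)))
(L (nat_lit 25771266)))))
(L (nat_lit 25734849)))))
(S (nat_lit 37302) (S (nat_lit 12912) (S (nat_lit 10708) (S (nat_lit 12165) (S (nat_lit 42028) (S (nat_lit 32947) (S (nat_lit 52001) (L (nat_lit 29002094))
(L (nat_lit 27662515)))
(L (nat_lit 15342435)))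
(L (nat_lit 3940789)))
(S (nat_lit 30131) (L (nat_lit 26223278))
(L (nat_lit 6076072))))
(S (nat_lit 30472) (S (nat_lit 52001) (S (nat_lit 32416) (S (nat_lit 42028) (S (nat_lit 25424) (L (nat_lit 16992280))
(L (nat_lit 6705952)))
(L (nat_lit 3954028)))
(L (nat_lit 5923274)))
(S (nat_lit 56291) (L (nat_lit 6437496))
(L (nat_lit 12773992))))
(S (nat_lit 50236) (S (nat_lit 8036) (S (nat_lit 42028) (S (nat_lit 6878) (S (nat_lit 24674) (L (nat_lit 1399194))
(L (nat_lit 14441728)))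
(L (nat_lit 12945052)))
(S (nat_lit 49165) (L (nat_lit 3356345))
(L (nat_lit 23864433))))
(S (nat_lit 44383) (L (nat_lit 11591097))
(L (nat_lit 26577584))))
(L (nat_lit 25833546)))))
(S (nat_lit 32676) (S (nat_lit 10952) (S (nat_lit 33902) (S (nat_lit 33542) (L (nat_lit 8106785))
(L (nat_lit 13660743)))
(L (nat_lit 23266097)))
(S (nat_lit 30716) (S (nat_lit 8036) (S (nat_lit 1041) (L (nat_lit 1470706))
(L (nat_lit 19130476)))
(L (nat_lit 14019173)))
(S (nat_lit 50480) (S (nat_lit 52001) (S (nat_lit 39261) (S (nat_lit 25646) (L (nat_lit 25080001))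
(L (nat_lit 30839464)))
(L (nat_lit 20213905)))
(L (nat_lit 20111814)))
(L (nat_lit 25676132)))))
(S (nat_lit 52440) (S (nat_lit 13182) (S (nat_lit 3) (L (nat_lit 20297569))
(L (nat_lit 7124609)))
(S (nat_lit 32946) (S (nat_lit 2985) (S (nat_lit 2500) (L (nat_lit 965291))
(L (nat_lit 20357179)))
(L (nat_lit 20375722)))
(S (nat_lit 52710) (S (nat_lit 51694) (S (nat_lit 6146) (S (nat_lit 10952) (L (nat_lit 5163430))
(L (nat_lit 16551251)))
(L (nat_lit 19983752)))
(L (nat_lit 20264769)))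
(L (nat_lit 25320966)))))
(L (nat_lit 25771267)))))
(S (nat_lit 57066) (S (nat_lit 6881) (S (nat_lit 13183) (S (nat_lit 1) (S (nat_lit 4) (S (nat_lit 45674) (L (nat_lit 29760566))
(L (nat_lit 7059267)))
(L (nat_lit 6894403)))
(S (nat_lit 35071) (L (nat_lit 3593030))
(L (nat_lit 6736674))))
(S (nat_lit 32947) (S (nat_lit 29514) (S (nat_lit 17539) (S (nat_lit 1) (L (nat_lit 26332497))
(L (nat_lit 7078479)))
(L (nat_lit 6940845)))
(S (nat_lit 42318) (L (nat_lit 30810194))
(L (nat_lit 30822410))))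
(S (nat_lit 52711) (S (nat_lit 52001) (S (nat_lit 6590) (S (nat_lit 48113) (L (nat_lit 6740896))
(L (nat_lit 27481104)))
(L (nat_lit 6783763)))
(L (nat_lit 6689555)))
(L (nat_lit 25505942)))))
(S (nat_lit 26645) (S (nat_lit 2499) (S (nat_lit 21853) (L (nat_lit 23889383))
(S (nat_lit 27128) (S (nat_lit 46121) (S (nat_lit 4) (L (nat_lit 18886107))
(L (nat_lit 6743157)))
(L (nat_lit 11645747)))
(L (nat_lit 24940935))))
(S (nat_lit 22263) (S (nat_lit 13650) (S (nat_lit 28589) (S (nat_lit 19768) (L (nat_lit 30415251))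
(L (nat_lit 30821666)))
(L (nat_lit 19217529)))
(S (nat_lit 26258) (L (nat_lit 12592019))
(L (nat_lit 12624473))))
(S (nat_lit 42027) (S (nat_lit 1074) (L (nat_lit 804117))
(S (nat_lit 12651) (S (nat_lit 16337) (L (nat_lit 2516585))
(L (nat_lit 24548103)))
(L (nat_lit 12377538))))
(L (nat_lit 25276755)))))
(S (nat_lit 46409) (S (nat_lit 17539) (S (nat_lit 19494) (S (nat_lit 6590) (L (nat_lit 8303670))
(L (nat_lit 7059204)))
(L (nat_lit 24383279)))
(S (nat_lit 37303) (S (nat_lit 44039) (L (nat_lit 6690490))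
(S (nat_lit 59026) (S (nat_lit 16340) (S (nat_lit 8036) (L (nat_lit 24210891))
(L (nat_lit 12356115)))
(L (nat_lit 26649281)))
(L (nat_lit 7095905))))
(S (nat_lit 57067) (S (nat_lit 30299) (L (nat_lit 5643091))
(S (nat_lit 48350) (S (nat_lit 44438) (S (nat_lit 22929) (L (nat_lit 28805363))
(L (nat_lit 6842483)))
(L (nat_lit 11963034)))
(L (nat_lit 16115731))))
(L (nat_lit 25447568)))))
(L (nat_lit 25283889)))))
(L (nat_lit 25254279)))))
(L (nat_lit 25411267)))))
(L (nat_lit 25496238)))))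
(S (nat_lit 53405) (S (nat_lit 9750) (S (nat_lit 52001) (S (nat_lit 3941) (S (nat_lit 17033) (S (nat_lit 14138) (S (nat_lit 44927) (S (nat_lit 45410) (S (nat_lit 5660) (L (nat_lit 18028437))
(L (nat_lit 18902407)))
(L (nat_lit 5028488)))
(L (nat_lit 14871239)))
(S (nat_lit 33902) (S (nat_lit 25163) (S (nat_lit 59030) (S (nat_lit 59026) (S (nat_lit 25643) (S (nat_lit 22321) (S (nat_lit 45410) (L (nat_lit 5521017))
(L (nat_lit 5693686)))
(L (nat_lit 26226132)))
(L (nat_lit 11178553)))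
(L (nat_lit 12801828)))
(L (nat_lit 18889944)))
(S (nat_lit 51362) (S (nat_lit 10707) (L (nat_lit 7190645))
(L (nat_lit 10225142)))
(L (nat_lit 14604513))))
(S (nat_lit 53666) (S (nat_lit 55124) (S (nat_lit 59026) (S (nat_lit 39531) (S (nat_lit 49276) (S (nat_lit 40569) (S (nat_lit 13182) (S (nat_lit 5399) (S (nat_lit 39945) (L (nat_lit 19425476))
(L (nat_lit 9859122)))
(L (nat_lit 18542817)))
(L (nat_lit 7921847)))
(L (nat_lit 10239027)))
(L (nat_lit 22221681)))
(L (nat_lit 16807559)))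
(L (nat_lit 21370201)))
(L (nat_lit 21164459)))
(L (nat_lit 25377908)))))
(S (nat_lit 36797) (S (nat_lit 3165) (S (nat_lit 5660) (S (nat_lit 4) (S (nat_lit 16894) (L (nat_lit 221717))
(L (nat_lit 28725255)))
(L (nat_lit 19292265)))
(S (nat_lit 57240) (L (nat_lit 17648898))
(L (nat_lit 20321191))))
(S (nat_lit 22929) (S (nat_lit 13651) (S (nat_lit 55124) (L (nat_lit 21435144))
(L (nat_lit 27828338)))
(L (nat_lit 6103606)))
(S (nat_lit 42693) (S (nat_lit 46118) (S (nat_lit 59026) (S (nat_lit 55868) (S (nat_lit 2499) (S (nat_lit 1991) (L (nat_lit 4650195))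
(L (nat_lit 19023622)))
(L (nat_lit 5165478)))
(L (nat_lit 8141505)))
(L (nat_lit 868039)))
(L (nat_lit 6003128)))
(L (nat_lit 25251118)))))
(S (nat_lit 56561) (S (nat_lit 6878) (S (nat_lit 55124) (S (nat_lit 59026) (S (nat_lit 13650) (S (nat_lit 59030) (L (nat_lit 14934037))
(L (nat_lit 2311768)))
(L (nat_lit 6344248)))
(L (nat_lit 21370201)))
(L (nat_lit 18883341)))
(S (nat_lit 26642) (S (nat_lit 41519) (S (nat_lit 55124) (S (nat_lit 46121) (L (nat_lit 28983334))
(L (nat_lit 5708536)))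
(L (nat_lit 19273080)))
(S (nat_lit 57913) (L (nat_lit 12020292))
(L (nat_lit 2779526))))
(S (nat_lit 46406) (S (nat_lit 4) (S (nat_lit 55124) (S (nat_lit 5660) (S (nat_lit 41519) (S (nat_lit 56075) (L (nat_lit 28485044))
(L (nat_lit 7459226)))
(L (nat_lit 23568570)))
(L (nat_lit 26619586)))
(L (nat_lit 27580461)))
(S (nat_lit 7384) (L (nat_lit 6930179))
(L (nat_lit 6703195))))
(L (nat_lit 25693427)))))
(L (nat_lit 25462324)))))
(S (nat_lit 23705) (S (nat_lit 35360) (S (nat_lit 59026) (S (nat_lit 49276) (S (nat_lit 25910) (S (nat_lit 5660) (S (nat_lit 3455) (S (nat_lit 19767) (S (nat_lit 19502) (S (nat_lit 1) (S (nat_lit 39258) (S (nat_lit 9751) (S (nat_lit 49275) (S (nat_lit 59025) (S (nat_lit 39259) (S (nat_lit 47564) (S (nat_lit 6170) (S (nat_lit 6005) (S (nat_lit 58622) (S (nat_lit 16544) (S (nat_lit 52180) (S (nat_lit 52179) (L (nat_lit 3811770))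
(L (nat_lit 27934978)))
(L (nat_lit 27934976)))
(S (nat_lit 56072) (S (nat_lit 24674) (S (nat_lit 14622) (L (nat_lit 21052730))
(L (nat_lit 13490432)))
(L (nat_lit 31076608)))
(L (nat_lit 25854471))))
(L (nat_lit 16021187)))
(L (nat_lit 12898333)))
(S (nat_lit 28184) (S (nat_lit 36479) (S (nat_lit 43157) (S (nat_lit 22550) (S (nat_lit 28349) (S (nat_lit 22263) (S (nat_lit 27131) (S (nat_lit 26642) (L (nat_lit 2599609))
(L (nat_lit 31047819)))
(L (nat_lit 31048036)))
(S (nat_lit 42027) (S (nat_lit 32416) (S (nat_lit 36308) (L (nat_lit 7420668))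
(L (nat_lit 20854016)))
(L (nat_lit 19739904)))
(L (nat_lit 25277159))))
(L (nat_lit 31113224)))
(L (nat_lit 24277293)))
(L (nat_lit 22180143)))
(L (nat_lit 22114605)))
(S (nat_lit 56408) (S (nat_lit 51653) (S (nat_lit 53258) (S (nat_lit 7376) (S (nat_lit 48113) (S (nat_lit 13182) (S (nat_lit 55868) (S (nat_lit 17030) (L (nat_lit 1422076))
(L (nat_lit 22507811)))
(L (nat_lit 27514401)))
(S (nat_lit 52710) (S (nat_lit 42514) (S (nat_lit 40570) (L (nat_lit 16884314))
(L (nat_lit 27841638)))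
(L (nat_lit 27776166)))
(L (nat_lit 25768070))))
(L (nat_lit 27271731)))
(L (nat_lit 27285993)))
(L (nat_lit 514953)))
(L (nat_lit 1923625)))
(L (nat_lit 28950849)))))
(L (nat_lit 5644053)))
(L (nat_lit 30805735)))
(L (nat_lit 21376059)))
(L (nat_lit 9833332)))
(L (nat_lit 21367659)))
(L (nat_lit 7737018)))
(L (nat_lit 7752762)))
(L (nat_lit 5657884)))
(L (nat_lit 21372028)))
(L (nat_lit 10909378)))
(L (nat_lit 26612455)))
(L (nat_lit 10879705)))
(L (nat_lit 22421657)))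
(L (nat_lit 21370105)))
(L (nat_lit 5646130)))
(S (nat_lit 43469) (S (nat_lit 6590) (S (nat_lit 6878) (S (nat_lit 32415) (S (nat_lit 12913) (S (nat_lit 16340) (S (nat_lit 22749) (S (nat_lit 53666) (L (nat_lit 21203759))
(L (nat_lit 16964423)))
(L (nat_lit 7015868)))
(L (nat_lit 26886339)))
(L (nat_lit 10051972)))
(L (nat_lit 14377220)))
(S (nat_lit 26642) (S (nat_lit 17119) (L (nat_lit 29755698))
(S (nat_lit 44927) (S (nat_lit 54863) (S (nat_lit 19693) (L (nat_lit 24026532))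
(L (nat_lit 7355000)))
(L (nat_lit 20996587)))
(L (nat_lit 23083783))))
(S (nat_lit 46406) (S (nat_lit 32415) (S (nat_lit 21755) (S (nat_lit 49276) (S (nat_lit 30472) (L (nat_lit 6707386))
(L (nat_lit 1919185)))
(L (nat_lit 20095857)))
(L (nat_lit 1841559)))
(S (nat_lit 50643) (L (nat_lit 581385))
(L (nat_lit 14311618))))
(L (nat_lit 25286059)))))
(S (nat_lit 26354) (S (nat_lit 19494) (S (nat_lit 42983) (S (nat_lit 52919) (S (nat_lit 19497) (S (nat_lit 39266) (S (nat_lit 26084) (S (nat_lit 26357) (S (nat_lit 52441) (S (nat_lit 39532) (S (nat_lit 56075) (L (nat_lit 9551452))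
(L (nat_lit 2877833)))
(L (nat_lit 11955316)))
(L (nat_lit 3035408)))
(L (nat_lit 8508176)))
(L (nat_lit 17372475)))
(L (nat_lit 7757600)))
(L (nat_lit 24522563)))
(L (nat_lit 27659914)))
(L (nat_lit 7756546)))
(S (nat_lit 39258) (S (nat_lit 15596) (S (nat_lit 42983) (L (nat_lit 15819127))
(L (nat_lit 23462727)))
(L (nat_lit 26616449)))
(S (nat_lit 59022) (S (nat_lit 15596) (L (nat_lit 29756136))
(L (nat_lit 22440257)))
(L (nat_lit 25386097)))))
(S (nat_lit 46118) (S (nat_lit 5882) (S (nat_lit 15596) (S (nat_lit 54863) (S (nat_lit 5660) (S (nat_lit 49276) (L (nat_lit 28324085))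
(L (nat_lit 16487275)))
(L (nat_lit 26235180)))
(L (nat_lit 4739416)))
(L (nat_lit 7196067)))
(S (nat_lit 25646) (S (nat_lit 42983) (S (nat_lit 55865) (S (nat_lit 39266) (S (nat_lit 1991) (S (nat_lit 36797) (S (nat_lit 52919) (L (nat_lit 28320179))
(L (nat_lit 11620920)))
(L (nat_lit 12720914)))
(L (nat_lit 12720919)))
(L (nat_lit 14474498)))
(L (nat_lit 27693735)))
(L (nat_lit 7395770)))
(S (nat_lit 45410) (S (nat_lit 12651) (S (nat_lit 40569) (S (nat_lit 1042) (L (nat_lit 8175667))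
(L (nat_lit 12688122)))
(L (nat_lit 27506739)))
(L (nat_lit 5030100)))
(L (nat_lit 25254220)))))
(L (nat_lit 25645099)))))
(L (nat_lit 25410614)))))
(L (nat_lit 5661350)))
(S (nat_lit 29514) (S (nat_lit 12473) (S (nat_lit 29512) (L (nat_lit 3549789))
(L (nat_lit 420550)))
(S (nat_lit 32237) (S (nat_lit 9748) (L (nat_lit 6690581))
(S (nat_lit 29512) (S (nat_lit 6146) (S (nat_lit 35846) (L (nat_lit 28710470))
(L (nat_lit 11947161)))
(S (nat_lit 25910) (S (nat_lit 19767) (L (nat_lit 9857042))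
(L (nat_lit 3546899)))
(S (nat_lit 45674) (S (nat_lit 3) (S (nat_lit 1) (L (nat_lit 26628289))
(L (nat_lit 6686331)))
(L (nat_lit 6686579)))
(L (nat_lit 25368022)))))
(S (nat_lit 49276) (L (nat_lit 29776065))
(L (nat_lit 25382988)))))
(S (nat_lit 52001) (S (nat_lit 5399) (S (nat_lit 29512) (S (nat_lit 18491) (S (nat_lit 45255) (L (nat_lit 16538913))
(S (nat_lit 46895) (S (nat_lit 45410) (S (nat_lit 45851) (S (nat_lit 53666) (S (nat_lit 36101) (S (nat_lit 10708) (S (nat_lit 24671) (L (nat_lit 28841303))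
(L (nat_lit 1857774)))
(L (nat_lit 15485124)))
(L (nat_lit 5915463)))
(L (nat_lit 17852039)))
(L (nat_lit 27829888)))
(L (nat_lit 4534968)))
(L (nat_lit 17966995))))
(S (nat_lit 38255) (S (nat_lit 12912) (S (nat_lit 31929) (S (nat_lit 59030) (S (nat_lit 56075) (L (nat_lit 21161449))
(L (nat_lit 19766656)))
(L (nat_lit 7148946)))
(S (nat_lit 58478) (S (nat_lit 20955) (L (nat_lit 6951385))
(L (nat_lit 12831653)))
(L (nat_lit 14490213))))
(S (nat_lit 32676) (S (nat_lit 2500) (S (nat_lit 59026) (S (nat_lit 5660) (S (nat_lit 16547) (L (nat_lit 20842919))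
(L (nat_lit 5940796)))
(L (nat_lit 19950025)))
(L (nat_lit 6911396)))
(S (nat_lit 48517) (L (nat_lit 22449501))
(L (nat_lit 19327016))))
(S (nat_lit 52440) (S (nat_lit 10952) (S (nat_lit 19502) (S (nat_lit 39531) (S (nat_lit 45848) (S (nat_lit 3455) (S (nat_lit 42514) (L (nat_lit 3581690))
(L (nat_lit 6041908)))
(L (nat_lit 26424407)))
(L (nat_lit 6475692)))
(L (nat_lit 23295052)))
(L (nat_lit 26432898)))
(S (nat_lit 11762) (L (nat_lit 8001454))
(L (nat_lit 7114348))))
(L (nat_lit 25603158)))))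
(S (nat_lit 58019) (S (nat_lit 1994) (S (nat_lit 29511) (S (nat_lit 29515) (S (nat_lit 26087) (S (nat_lit 59030) (S (nat_lit 45674) (S (nat_lit 50235) (L (nat_lit 9276108))
(L (nat_lit 6479630)))
(L (nat_lit 1266074)))
(L (nat_lit 19666310)))
(L (nat_lit 21164366)))
(L (nat_lit 19073809)))
(S (nat_lit 33969) (L (nat_lit 19302713))
(L (nat_lit 19261890))))
(S (nat_lit 21758) (S (nat_lit 53666) (S (nat_lit 44435) (S (nat_lit 55865) (S (nat_lit 27131) (L (nat_lit 6445564))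
(L (nat_lit 19701189)))
(L (nat_lit 21492871)))
(L (nat_lit 12236920)))
(L (nat_lit 19076944)))
(S (nat_lit 41522) (S (nat_lit 5660) (S (nat_lit 53666) (S (nat_lit 46118) (S (nat_lit 56558) (S (nat_lit 15596) (S (nat_lit 59026) (S (nat_lit 15394) (L (nat_lit 4507539))
(L (nat_lit 19939642)))
(L (nat_lit 2901703)))
(L (nat_lit 8073276)))
(L (nat_lit 19236312)))
(L (nat_lit 18122456)))
(L (nat_lit 18028306)))
(L (nat_lit 19950025)))
(L (nat_lit 25838632)))))
(L (nat_lit 25497292)))))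
(L (nat_lit 19098048)))
(S (nat_lit 25163) (S (nat_lit 29512) (S (nat_lit 10708) (S (nat_lit 3455) (S (nat_lit 39529) (S (nat_lit 25910) (S (nat_lit 46895) (S (nat_lit 12165) (S (nat_lit 39852) (L (nat_lit 27712521))
(L (nat_lit 7763555)))
(L (nat_lit 11276756)))
(L (nat_lit 22811079)))
(L (nat_lit 221934)))
(L (nat_lit 24343566)))
(S (nat_lit 23219) (S (nat_lit 34442) (L (nat_lit 7007407))
(S (nat_lit 35846) (S (nat_lit 59023) (S (nat_lit 13650) (S (nat_lit 46892) (L (nat_lit 5457594))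
(L (nat_lit 5938618)))
(L (nat_lit 6339225)))
(L (nat_lit 220729)))
(L (nat_lit 6688409))))
(S (nat_lit 42983) (S (nat_lit 6323) (S (nat_lit 18491) (S (nat_lit 52710) (L (nat_lit 16385866))
(L (nat_lit 19046157)))
(L (nat_lit 24918023)))
(L (nat_lit 12097366)))
(L (nat_lit 25212615)))))
(S (nat_lit 30472) (S (nat_lit 36276) (S (nat_lit 24290) (L (nat_lit 607450))
(L (nat_lit 5661418)))
(S (nat_lit 39529) (S (nat_lit 58019) (S (nat_lit 5660) (S (nat_lit 25910) (L (nat_lit 30650389))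
(L (nat_lit 217497)))
(L (nat_lit 19837961)))
(L (nat_lit 19832227)))
(L (nat_lit 24129788))))
(S (nat_lit 50236) (S (nat_lit 14622) (S (nat_lit 33902) (S (nat_lit 44438) (S (nat_lit 59026) (S (nat_lit 5660) (S (nat_lit 2985) (L (nat_lit 275347))
(L (nat_lit 256720)))
(L (nat_lit 19949804)))
(L (nat_lit 21368615)))
(L (nat_lit 830124)))
(L (nat_lit 6485585)))
(S (nat_lit 34386) (S (nat_lit 29511) (S (nat_lit 10952) (S (nat_lit 48113) (S (nat_lit 50235) (L (nat_lit 29039629))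
(L (nat_lit 16683627)))
(L (nat_lit 7004704)))
(L (nat_lit 15952485)))
(S (nat_lit 42609) (L (nat_lit 607609))
(L (nat_lit 959120))))
(S (nat_lit 54150) (S (nat_lit 59030) (S (nat_lit 8822) (S (nat_lit 3) (S (nat_lit 1) (S (nat_lit 4907) (L (nat_lit 5688536))
(L (nat_lit 19329250)))
(L (nat_lit 13656648)))
(L (nat_lit 13656338)))
(L (nat_lit 21926347)))
(L (nat_lit 9047822)))
(L (nat_lit 25509015)))))
(L (nat_lit 25271921)))))
(L (nat_lit 19073937)))
(S (nat_lit 44927) (S (nat_lit 3165) (S (nat_lit 6881) (S (nat_lit 55868) (S (nat_lit 10952) (S (nat_lit 14138) (S (nat_lit 34387) (L (nat_lit 18180835))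
(L (nat_lit 8075448)))
(L (nat_lit 10500701)))
(L (nat_lit 21767621)))
(L (nat_lit 21772481)))
(S (nat_lit 26645) (S (nat_lit 29512) (S (nat_lit 31930) (S (nat_lit 55868) (S (nat_lit 23705) (L (nat_lit 30772940))
(L (nat_lit 12912438)))
(L (nat_lit 1845965)))
(L (nat_lit 30687250)))
(L (nat_lit 19270539)))
(S (nat_lit 46409) (S (nat_lit 29512) (S (nat_lit 32677) (S (nat_lit 59026) (S (nat_lit 41522) (S (nat_lit 25643) (S (nat_lit 55868) (S (nat_lit 12651) (S (nat_lit 56561) (L (nat_lit 26334761))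
(L (nat_lit 14411942)))
(L (nat_lit 18623138)))
(L (nat_lit 10228276)))
(L (nat_lit 22811176)))
(L (nat_lit 27319750)))
(L (nat_lit 2895472)))
(L (nat_lit 19327169)))
(L (nat_lit 24126353)))
(L (nat_lit 25870506)))))
(S (nat_lit 22929) (S (nat_lit 6590) (S (nat_lit 36104) (S (nat_lit 29512) (S (nat_lit 13651) (S (nat_lit 57066) (S (nat_lit 12166) (S (nat_lit 21755) (L (nat_lit 10508797))
(L (nat_lit 8144450)))
(L (nat_lit 5529050)))
(L (nat_lit 5563797)))
(L (nat_lit 8229427)))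
(L (nat_lit 24908294)))
(L (nat_lit 682377)))
(S (nat_lit 26354) (S (nat_lit 10707) (S (nat_lit 29512) (L (nat_lit 19335480))
(L (nat_lit 24126353)))
(L (nat_lit 12322230)))
(S (nat_lit 46118) (S (nat_lit 29515) (S (nat_lit 2985) (S (nat_lit 50480) (L (nat_lit 30117104))
(L (nat_lit 5463450)))
(L (nat_lit 256435)))
(L (nat_lit 13199552)))
(L (nat_lit 25932810)))))
(S (nat_lit 42693) (S (nat_lit 6558) (L (nat_lit 12807874))
(S (nat_lit 29512) (S (nat_lit 8585) (S (nat_lit 50480) (S (nat_lit 1) (S (nat_lit 14138) (S (nat_lit 18413) (S (nat_lit 52179) (S (nat_lit 16340) (L (nat_lit 16024438))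
(L (nat_lit 22980995)))
(L (nat_lit 27773124)))
(L (nat_lit 30427374)))
(L (nat_lit 2317200)))
(L (nat_lit 20144515)))
(L (nat_lit 13541523)))
(S (nat_lit 28349) (S (nat_lit 14138) (S (nat_lit 5660) (S (nat_lit 36797) (S (nat_lit 40570) (L (nat_lit 18518918))
(L (nat_lit 24670315)))
(L (nat_lit 11029249)))
(L (nat_lit 18797792)))
(L (nat_lit 22243873)))
(S (nat_lit 48113) (S (nat_lit 10952) (S (nat_lit 42983) (S (nat_lit 51693) (L (nat_lit 1786170))
(L (nat_lit 7521110)))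
(L (nat_lit 2309911)))
(S (nat_lit 30662) (L (nat_lit 8119469))
(L (nat_lit 795091))))
(L (nat_lit 25696339)))))
(L (nat_lit 24125912))))
(L (nat_lit 25802794)))))
(L (nat_lit 25375427)))))
(L (nat_lit 25860236)))))
(S (nat_lit 49278) (S (nat_lit 5660) (S (nat_lit 52001) (S (nat_lit 59026) (S (nat_lit 3941) (S (nat_lit 55124) (S (nat_lit 9748) (S (nat_lit 8) (S (nat_lit 13391) (S (nat_lit 59022) (S (nat_lit 39529) (S (nat_lit 23219) (S (nat_lit 39259) (S (nat_lit 19767) (S (nat_lit 45674) (S (nat_lit 4) (S (nat_lit 35846) (S (nat_lit 29515) (S (nat_lit 29511) (S (nat_lit 31265) (S (nat_lit 14138) (S (nat_lit 55243) (S (nat_lit 53733) (S (nat_lit 28000) (S (nat_lit 32676) (S (nat_lit 50235) (S (nat_lit 4910) (L (nat_lit 8817370))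
(L (nat_lit 6845090)))
(L (nat_lit 6779555)))
(S (nat_lit 52440) (S (nat_lit 46406) (S (nat_lit 55868) (L (nat_lit 3489436))
(L (nat_lit 27317613)))
(L (nat_lit 27317675)))
(L (nat_lit 25695915))))
(L (nat_lit 2314685)))
(L (nat_lit 22220685)))
(L (nat_lit 30128353)))
(S (nat_lit 22600) (S (nat_lit 49377) (S (nat_lit 12651) (S (nat_lit 42513) (S (nat_lit 52711) (S (nat_lit 2499) (L (nat_lit 14790363))
(L (nat_lit 3036526)))
(L (nat_lit 27645070)))
(L (nat_lit 27579534)))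
(S (nat_lit 52179) (S (nat_lit 21758) (S (nat_lit 36308) (L (nat_lit 8436443))
(L (nat_lit 30755266)))
(L (nat_lit 31070658)))
(L (nat_lit 25245289))))
(L (nat_lit 14734557)))
(S (nat_lit 51591) (S (nat_lit 36730) (S (nat_lit 44371) (S (nat_lit 13183) (S (nat_lit 45851) (S (nat_lit 52179) (L (nat_lit 1425148))
(L (nat_lit 27773035)))
(L (nat_lit 13477504)))
(S (nat_lit 32947) (S (nat_lit 12913) (S (nat_lit 44435) (S (nat_lit 3165) (L (nat_lit 13173980))
(L (nat_lit 14764970)))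
(L (nat_lit 23593898)))
(L (nat_lit 21501866)))
(L (nat_lit 25690451))))
(L (nat_lit 22507625)))
(L (nat_lit 2662294)))
(L (nat_lit 10512916)))))
(L (nat_lit 24512857)))
(L (nat_lit 6705244)))
(L (nat_lit 6706080)))
(L (nat_lit 3563826)))
(L (nat_lit 19292451)))
(L (nat_lit 23469176)))
(L (nat_lit 3547059)))
(L (nat_lit 4599635)))
(L (nat_lit 11955286)))
(L (nat_lit 4617832)))
(L (nat_lit 19295523)))
(L (nat_lit 22424700)))
(L (nat_lit 19293355)))
(L (nat_lit 23472928)))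
(L (nat_lit 27679073)))
(S (nat_lit 23705) (S (nat_lit 35360) (S (nat_lit 33155) (S (nat_lit 39536) (S (nat_lit 19768) (S (nat_lit 9748) (S (nat_lit 25910) (S (nat_lit 39258) (S (nat_lit 11501) (S (nat_lit 9751) (S (nat_lit 49275) (S (nat_lit 3) (S (nat_lit 14623) (S (nat_lit 45848) (S (nat_lit 45851) (S (nat_lit 41519) (L (nat_lit 2437816))
(L (nat_lit 344951)))
(L (nat_lit 24505856)))
(L (nat_lit 24505888)))
(S (nat_lit 34387) (S (nat_lit 31929) (S (nat_lit 30471) (L (nat_lit 1296953))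
(L (nat_lit 10608496)))
(L (nat_lit 18986236)))
(S (nat_lit 54151) (S (nat_lit 44438) (S (nat_lit 52710) (S (nat_lit 26084) (L (nat_lit 4405912))
(L (nat_lit 22384185)))
(L (nat_lit 17127168)))
(L (nat_lit 27961390)))
(L (nat_lit 25901251)))))
(L (nat_lit 1449657)))
(L (nat_lit 9833115)))
(L (nat_lit 21367163)))
(L (nat_lit 3560829)))
(L (nat_lit 10901379)))
(L (nat_lit 21372707)))
(L (nat_lit 23470880)))
(L (nat_lit 9849976)))
(L (nat_lit 5655928)))
(L (nat_lit 5662066)))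
(L (nat_lit 8804409)))
(S (nat_lit 43469) (S (nat_lit 15596) (S (nat_lit 52919) (S (nat_lit 9748) (S (nat_lit 1) (S (nat_lit 39266) (S (nat_lit 49279) (S (nat_lit 19494) (S (nat_lit 59025) (S (nat_lit 19495) (S (nat_lit 19772) (S (nat_lit 51029) (S (nat_lit 8036) (S (nat_lit 6881) (S (nat_lit 7367) (S (nat_lit 17538) (S (nat_lit 36308) (L (nat_lit 1295097))
(L (nat_lit 5130761)))
(L (nat_lit 7458737)))
(L (nat_lit 24026565)))
(S (nat_lit 26645) (S (nat_lit 20806) (S (nat_lit 8822) (S (nat_lit 52711) (L (nat_lit 5942749))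
(L (nat_lit 21771618)))
(L (nat_lit 15651850)))
(L (nat_lit 14735211)))
(S (nat_lit 46409) (S (nat_lit 58016) (S (nat_lit 56075) (S (nat_lit 36101) (S (nat_lit 56561) (L (nat_lit 11558829))
(L (nat_lit 14394243)))
(L (nat_lit 23569283)))
(L (nat_lit 19215418)))
(L (nat_lit 15009528)))
(L (nat_lit 25709825)))))
(L (nat_lit 9857205)))
(L (nat_lit 27675722)))
(L (nat_lit 22415147)))
(L (nat_lit 22425377)))
(L (nat_lit 19297507)))
(L (nat_lit 22417195)))
(L (nat_lit 27676864)))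
(L (nat_lit 20343042)))
(L (nat_lit 6709858)))
(L (nat_lit 10899610)))
(L (nat_lit 1469003)))
(L (nat_lit 22421629)))
(L (nat_lit 25345238)))))
(L (nat_lit 19295274)))
(L (nat_lit 8809125)))
(S (nat_lit 25424) (S (nat_lit 59026) (L (nat_lit 19269513))
(L (nat_lit 415530)))
(S (nat_lit 45188) (S (nat_lit 17030) (S (nat_lit 42513) (S (nat_lit 26357) (S (nat_lit 40570) (L (nat_lit 24548233))
(L (nat_lit 10163740)))
(L (nat_lit 3939827)))
(L (nat_lit 23866544)))
(S (nat_lit 36794) (S (nat_lit 12651) (S (nat_lit 41657) (L (nat_lit 26431534))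
(S (nat_lit 44927) (S (nat_lit 14138) (S (nat_lit 2500) (L (nat_lit 28771047))
(L (nat_lit 8120369)))
(L (nat_lit 12602684)))
(L (nat_lit 12803192))))
(S (nat_lit 32415) (S (nat_lit 13790) (S (nat_lit 26234) (L (nat_lit 18916145))
(L (nat_lit 23486722)))
(S (nat_lit 53666) (S (nat_lit 58016) (S (nat_lit 5879) (L (nat_lit 9616057))
(L (nat_lit 9526030)))
(L (nat_lit 12656314)))
(L (nat_lit 17596660))))
(S (nat_lit 52179) (S (nat_lit 9137) (L (nat_lit 6177418))
(S (nat_lit 28589) (S (nat_lit 33902) (S (nat_lit 33415) (L (nat_lit 20750753))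
(L (nat_lit 20877679)))
(L (nat_lit 31036656)))
(L (nat_lit 19371786))))
(L (nat_lit 25479556)))))
(S (nat_lit 56558) (S (nat_lit 5399) (S (nat_lit 42028) (S (nat_lit 45848) (L (nat_lit 12636536))
(L (nat_lit 12765496)))
(L (nat_lit 4010728)))
(S (nat_lit 25163) (S (nat_lit 19497) (S (nat_lit 59022) (L (nat_lit 5657853))
(L (nat_lit 27286831)))
(S (nat_lit 39261) (L (nat_lit 13660402))
(S (nat_lit 59025) (L (nat_lit 28326133))
(L (nat_lit 25836683)))))
(S (nat_lit 44927) (S (nat_lit 14138) (S (nat_lit 33415) (L (nat_lit 13652903))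
(L (nat_lit 8437400)))
(L (nat_lit 13854834)))
(L (nat_lit 25175758)))))
(L (nat_lit 25693556)))))
(L (nat_lit 25182518)))))
(L (nat_lit 25772226)))))
(L (nat_lit 25927204)))))

theorem rb81_1 : run 4 lb81 [] tb81_1 kb81 (P4 4 2366 0 3275 2366 0 0 1 0) [] = true := by
  decide +kernel

noncomputable def tb246_0_8 : Tr :=
(S (nat_lit 48318) (S (nat_lit 997) (S (nat_lit 1765) (S (nat_lit 8795) (S (nat_lit 1743) (S (nat_lit 17571) (S (nat_lit 54912) (S (nat_lit 1003) (L (nat_lit 12775014))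
(L (nat_lit 12757845)))
(L (nat_lit 14232352)))
(S (nat_lit 37335) (S (nat_lit 1958) (S (nat_lit 31) (S (nat_lit 50538) (S (nat_lit 54862) (S (nat_lit 1019) (S (nat_lit 1262) (S (nat_lit 35087) (S (nat_lit 8773) (S (nat_lit 21010) (S (nat_lit 21783) (S (nat_lit 21733) (S (nat_lit 30713) (S (nat_lit 30763) (S (nat_lit 21490) (S (nat_lit 10935) (S (nat_lit 41260) (S (nat_lit 10419) (S (nat_lit 28574) (S (nat_lit 32602) (S (nat_lit 35234) (S (nat_lit 33033) (S (nat_lit 47738) (S (nat_lit 11993) (S (nat_lit 52134) (D (nat_lit 13) (nat_lit 25796689) (nat_lit 19667491) (nat_lit 4638802711557))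
(L (nat_lit 29794914)))
(L (nat_lit 27927043)))
(L (nat_lit 19393606)))
(L (nat_lit 28916806)))
(L (nat_lit 28917061)))
(S (nat_lit 50334) (S (nat_lit 4090) (S (nat_lit 23644) (S (nat_lit 36192) (S (nat_lit 43758) (S (nat_lit 34215) (D (nat_lit 13) (nat_lit 25860268) (nat_lit 10242531) (nat_lit 74222436551))
(L (nat_lit 19341338)))
(L (nat_lit 28335590)))
(L (nat_lit 28749412)))
(L (nat_lit 10345925)))
(L (nat_lit 31109445)))
(L (nat_lit 21399303))))
(L (nat_lit 24615781)))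
(L (nat_lit 14535817)))
(L (nat_lit 24128988)))
(L (nat_lit 26791975)))
(L (nat_lit 5677876)))
(L (nat_lit 19357890)))
(L (nat_lit 18932139)))
(L (nat_lit 15278104)))
(L (nat_lit 14902915)))
(L (nat_lit 15341318)))
(L (nat_lit 20982203)))
(L (nat_lit 12834905)))
(L (nat_lit 19726759)))
(L (nat_lit 19776583)))
(L (nat_lit 14396163)))
(L (nat_lit 11725236)))
(L (nat_lit 13467956)))
(S (nat_lit 17682) (L (nat_lit 12772660))
(L (nat_lit 13422726))))
(S (nat_lit 57099) (S (nat_lit 50538) (S (nat_lit 1958) (S (nat_lit 54912) (L (nat_lit 14013185))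
(L (nat_lit 4632373)))
(L (nat_lit 13200518)))
(L (nat_lit 4598580)))
(L (nat_lit 25342662)))))
(S (nat_lit 21507) (S (nat_lit 8823) (S (nat_lit 37335) (S (nat_lit 35087) (S (nat_lit 39553) (L (nat_lit 17571428))
(L (nat_lit 10884885)))
(L (nat_lit 12809828)))
(L (nat_lit 20812198)))
(S (nat_lit 28587) (S (nat_lit 35087) (S (nat_lit 19839) (S (nat_lit 20736) (L (nat_lit 20233274))
(L (nat_lit 11932282)))
(L (nat_lit 15439622)))
(L (nat_lit 12608203)))
(S (nat_lit 48351) (S (nat_lit 1277) (S (nat_lit 54862) (S (nat_lit 37335) (S (nat_lit 1036) (L (nat_lit 12097112))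
(L (nat_lit 8967973)))
(L (nat_lit 20343878)))
(L (nat_lit 4664086)))
(L (nat_lit 20851232)))
(L (nat_lit 25546113)))))
(S (nat_lit 41271) (S (nat_lit 15351) (S (nat_lit 37335) (S (nat_lit 35120) (S (nat_lit 1240) (S (nat_lit 1262) (L (nat_lit 11383360))
(L (nat_lit 20817312)))
(L (nat_lit 26608331)))
(L (nat_lit 10163739)))
(L (nat_lit 31004071)))
(S (nat_lit 35115) (S (nat_lit 57038) (L (nat_lit 28512876))
(L (nat_lit 12808805)))
(S (nat_lit 54879) (S (nat_lit 1240) (S (nat_lit 1019) (S (nat_lit 1958) (L (nat_lit 26527361))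
(L (nat_lit 20343942)))
(L (nat_lit 20410625)))
(L (nat_lit 12873813)))
(L (nat_lit 25249109)))))
(L (nat_lit 25678084)))))
(S (nat_lit 28559) (S (nat_lit 25) (S (nat_lit 1958) (S (nat_lit 32819) (S (nat_lit 50463) (L (nat_lit 16899323))
(L (nat_lit 20888615)))
(S (nat_lit 35087) (S (nat_lit 972) (S (nat_lit 37322) (S (nat_lit 1969) (L (nat_lit 5648309))
(L (nat_lit 12159918)))
(L (nat_lit 17597780)))
(L (nat_lit 14428740)))
(L (nat_lit 12802169))))
(S (nat_lit 21722) (S (nat_lit 54837) (L (nat_lit 20297885))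
(L (nat_lit 11556379)))
(S (nat_lit 41486) (S (nat_lit 28574) (S (nat_lit 1246) (S (nat_lit 28543) (L (nat_lit 24193967))
(L (nat_lit 19832354)))
(L (nat_lit 26265966)))
(L (nat_lit 19765423)))
(L (nat_lit 25271799)))))
(S (nat_lit 19789) (S (nat_lit 1034) (S (nat_lit 35120) (S (nat_lit 75) (S (nat_lit 1277) (S (nat_lit 57049) (S (nat_lit 1279) (L (nat_lit 18904430))
(L (nat_lit 14586438)))
(L (nat_lit 4762390)))
(L (nat_lit 26782432)))
(L (nat_lit 26782368)))
(L (nat_lit 2665147)))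
(S (nat_lit 20798) (S (nat_lit 1958) (S (nat_lit 15334) (L (nat_lit 28909985))
(L (nat_lit 24651963)))
(S (nat_lit 41351) (L (nat_lit 13455499))
(L (nat_lit 13413024))))
(S (nat_lit 40562) (S (nat_lit 37335) (S (nat_lit 31) (S (nat_lit 1958) (S (nat_lit 37307) (S (nat_lit 1262) (S (nat_lit 40531) (S (nat_lit 48290) (S (nat_lit 50538) (S (nat_lit 41497) (S (nat_lit 57088) (S (nat_lit 21739) (S (nat_lit 1743) (S (nat_lit 19811) (S (nat_lit 56162) (S (nat_lit 41276) (S (nat_lit 54899) (S (nat_lit 21021) (S (nat_lit 17496) (S (nat_lit 39570) (S (nat_lit 44826) (S (nat_lit 45091) (S (nat_lit 58877) (S (nat_lit 38200) (S (nat_lit 8926) (D (nat_lit 13) (nat_lit 28911695) (nat_lit 19672549) (nat_lit 1209202377954))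
(L (nat_lit 31142243)))
(L (nat_lit 22982822)))
(L (nat_lit 22879310)))
(L (nat_lit 30129412)))
(S (nat_lit 50067) (S (nat_lit 4252) (S (nat_lit 29421) (S (nat_lit 10537) (S (nat_lit 17650) (D (nat_lit 13) (nat_lit 27926638) (nat_lit 25765411) (nat_lit 6674620487681))
(L (nat_lit 28915938)))
(L (nat_lit 27928037)))
(L (nat_lit 27931972)))
(L (nat_lit 27930852)))
(L (nat_lit 17442939))))
(L (nat_lit 23143245)))
(L (nat_lit 24943631)))
(L (nat_lit 21762568)))
(L (nat_lit 6035892)))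
(L (nat_lit 27515024)))
(L (nat_lit 12113765)))
(L (nat_lit 22810833)))
(L (nat_lit 19736685)))
(L (nat_lit 21468938)))
(L (nat_lit 27675688)))
(L (nat_lit 17950997)))
(L (nat_lit 12340640)))
(L (nat_lit 11579994)))
(L (nat_lit 23988591)))
(L (nat_lit 26706537)))
(L (nat_lit 20878891)))
(L (nat_lit 20342918)))
(L (nat_lit 13715770)))
(L (nat_lit 31003046)))
(L (nat_lit 25474785)))))
(S (nat_lit 39553) (S (nat_lit 8382) (S (nat_lit 15550) (L (nat_lit 4406937))
(L (nat_lit 19840322)))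
(S (nat_lit 54862) (S (nat_lit 1036) (S (nat_lit 1279) (S (nat_lit 1019) (S (nat_lit 1763) (S (nat_lit 1277) (L (nat_lit 9356470))
(L (nat_lit 14601225)))
(L (nat_lit 20886723)))
(L (nat_lit 26434704)))
(L (nat_lit 11267492)))
(S (nat_lit 17472) (S (nat_lit 37307) (L (nat_lit 13931129))
(L (nat_lit 20878574)))
(L (nat_lit 9344405))))
(L (nat_lit 18885113))))
(L (nat_lit 25401071)))))
(S (nat_lit 48323) (S (nat_lit 17543) (S (nat_lit 17571) (S (nat_lit 1036) (S (nat_lit 1701) (S (nat_lit 1279) (S (nat_lit 1262) (L (nat_lit 29625934))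
(L (nat_lit 14484071)))
(L (nat_lit 14553670)))
(L (nat_lit 11685644)))
(L (nat_lit 11441774)))
(S (nat_lit 37335) (S (nat_lit 1215) (S (nat_lit 25) (L (nat_lit 11933460))
(L (nat_lit 13178234)))
(L (nat_lit 14461509)))
(S (nat_lit 57099) (S (nat_lit 30741) (L (nat_lit 2388372))
(L (nat_lit 14600327)))
(L (nat_lit 25832561)))))
(S (nat_lit 37307) (S (nat_lit 8810) (S (nat_lit 1240) (S (nat_lit 21733) (S (nat_lit 21490) (S (nat_lit 31) (L (nat_lit 5792427))
(L (nat_lit 12846932)))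
(L (nat_lit 10937397)))
(L (nat_lit 10937365)))
(S (nat_lit 3589) (L (nat_lit 18552747))
(L (nat_lit 14450932))))
(S (nat_lit 28574) (S (nat_lit 43740) (S (nat_lit 37302) (S (nat_lit 41472) (L (nat_lit 30520566))
(L (nat_lit 970092)))
(L (nat_lit 13760071)))
(S (nat_lit 50463) (S (nat_lit 1246) (L (nat_lit 11620922))
(L (nat_lit 13264225)))
(L (nat_lit 20147215))))
(S (nat_lit 48338) (S (nat_lit 1036) (S (nat_lit 1279) (S (nat_lit 48276) (S (nat_lit 64) (S (nat_lit 1958) (S (nat_lit 1726) (S (nat_lit 1944) (S (nat_lit 50463) (S (nat_lit 37274) (S (nat_lit 37335) (S (nat_lit 50510) (S (nat_lit 25) (S (nat_lit 2019) (S (nat_lit 1776) (S (nat_lit 52535) (S (nat_lit 62) (S (nat_lit 48290) (S (nat_lit 50538) (S (nat_lit 52488) (S (nat_lit 35073) (S (nat_lit 13574) (S (nat_lit 13552) (S (nat_lit 54932) (S (nat_lit 57362) (D (nat_lit 11) (nat_lit 809264) (nat_lit 19404553) (nat_lit 68927129602))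
(L (nat_lit 6419150)))
(L (nat_lit 14906051)))
(L (nat_lit 29610501)))
(S (nat_lit 56133) (S (nat_lit 30925) (S (nat_lit 57638) (S (nat_lit 40936) (S (nat_lit 20150) (S (nat_lit 28981) (D (nat_lit 9) (nat_lit 8177681) (nat_lit 25764973) (nat_lit 107378578695))
(L (nat_lit 27773156)))
(L (nat_lit 23599227)))
(L (nat_lit 30027879)))
(L (nat_lit 9325092)))
(L (nat_lit 27740357)))
(L (nat_lit 17673953))))
(L (nat_lit 2858522)))
(L (nat_lit 22420539)))
(L (nat_lit 22418747)))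
(L (nat_lit 12017445)))
(L (nat_lit 26745572)))
(L (nat_lit 13330628)))
(L (nat_lit 12874771)))
(L (nat_lit 12867640)))
(L (nat_lit 19699055)))
(L (nat_lit 22296634)))
(L (nat_lit 9213365)))
(L (nat_lit 9172046)))
(L (nat_lit 22584379)))
(L (nat_lit 26332587)))
(L (nat_lit 13235397)))
(L (nat_lit 26662022)))
(L (nat_lit 26949672)))
(L (nat_lit 12499584)))
(L (nat_lit 11071076)))
(S (nat_lit 3115) (L (nat_lit 4679989))
(L (nat_lit 4772186))))
(L (nat_lit 25304685)))))
(S (nat_lit 57071) (S (nat_lit 10966) (S (nat_lit 35115) (L (nat_lit 2383662))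
(L (nat_lit 20210144)))
(S (nat_lit 30730) (S (nat_lit 54884) (S (nat_lit 54879) (S (nat_lit 50510) (S (nat_lit 2019) (S (nat_lit 1776) (L (nat_lit 10195788))
(L (nat_lit 20453560)))
(L (nat_lit 20453528)))
(L (nat_lit 20212260)))
(L (nat_lit 11620110)))
(L (nat_lit 4477402)))
(S (nat_lit 50494) (S (nat_lit 21932) (S (nat_lit 54879) (S (nat_lit 54868) (S (nat_lit 1215) (L (nat_lit 3907000))
(L (nat_lit 11323565)))
(L (nat_lit 5035400)))
(L (nat_lit 5033294)))
(S (nat_lit 35135) (S (nat_lit 1229) (S (nat_lit 21367) (L (nat_lit 11090693))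
(L (nat_lit 4776519)))
(L (nat_lit 19697873)))
(L (nat_lit 20742570))))
(L (nat_lit 25773314)))))
(L (nat_lit 25279146)))))
(L (nat_lit 25742347)))))
(S (nat_lit 21529) (S (nat_lit 8762) (S (nat_lit 40790) (S (nat_lit 10949) (S (nat_lit 57066) (S (nat_lit 15384) (S (nat_lit 17521) (L (nat_lit 29861537))
(L (nat_lit 26425923)))
(L (nat_lit 931125)))
(L (nat_lit 27993472)))
(S (nat_lit 30713) (S (nat_lit 37335) (L (nat_lit 30557493))
(L (nat_lit 20341862)))
(S (nat_lit 50477) (S (nat_lit 35148) (S (nat_lit 17521) (S (nat_lit 50505) (L (nat_lit 22034247))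
(L (nat_lit 5698151)))
(L (nat_lit 26415693)))
(L (nat_lit 13406517)))
(L (nat_lit 25366037)))))
(L (nat_lit 223639)))
(S (nat_lit 28526) (S (nat_lit 57049) (S (nat_lit 39590) (S (nat_lit 54879) (S (nat_lit 30774) (S (nat_lit 1019) (S (nat_lit 35087) (L (nat_lit 20080943))
(L (nat_lit 19953035)))
(L (nat_lit 26238345)))
(L (nat_lit 24940967)))
(L (nat_lit 27823477)))
(L (nat_lit 27838820)))
(L (nat_lit 5458332)))
(S (nat_lit 48290) (S (nat_lit 1776) (S (nat_lit 31) (S (nat_lit 1257) (S (nat_lit 1229) (S (nat_lit 39542) (S (nat_lit 57038) (S (nat_lit 1958) (S (nat_lit 57066) (S (nat_lit 39570) (S (nat_lit 20800) (S (nat_lit 21479) (S (nat_lit 37335) (S (nat_lit 1748) (S (nat_lit 28537) (S (nat_lit 1279) (S (nat_lit 15899) (S (nat_lit 62) (S (nat_lit 15927) (S (nat_lit 50674) (S (nat_lit 35137) (S (nat_lit 41260) (S (nat_lit 41519) (S (nat_lit 47035) (S (nat_lit 13232) (S (nat_lit 7744) (S (nat_lit 17628) (S (nat_lit 9915) (S (nat_lit 29881)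 (D (nat_lit 13) (nat_lit 26919947) (nat_lit 19668079) (nat_lit 5703922093059))
(L (nat_lit 28941425)))
(L (nat_lit 31014952)))
(L (nat_lit 28948832)))
(L (nat_lit 29826629)))
(L (nat_lit 27991428)))
(S (nat_lit 48121) (S (nat_lit 38231) (S (nat_lit 34968) (S (nat_lit 6728) (S (nat_lit 25796) (D (nat_lit 13) (nat_lit 31069520) (nat_lit 9003183) (nat_lit 39862731014))
(L (nat_lit 27931720)))
(L (nat_lit 30094596)))
(L (nat_lit 19442748)))
(L (nat_lit 27865313)))
(L (nat_lit 14930073))))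
(L (nat_lit 2779441)))
(L (nat_lit 23901408)))
(L (nat_lit 23900386)))
(L (nat_lit 26979744)))
(L (nat_lit 4781429)))
(L (nat_lit 26981514)))
(L (nat_lit 4421229)))
(L (nat_lit 8410894)))
(L (nat_lit 3362296)))
(L (nat_lit 2611517)))
(L (nat_lit 23212346)))
(L (nat_lit 16588449)))
(L (nat_lit 12424783)))
(L (nat_lit 4678994)))
(L (nat_lit 21250235)))
(L (nat_lit 12335254)))
(L (nat_lit 12782296)))
(L (nat_lit 27900197)))
(L (nat_lit 12865693)))
(S (nat_lit 14460) (L (nat_lit 12606251))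
(L (nat_lit 20808941))))
(S (nat_lit 13234) (S (nat_lit 1279) (L (nat_lit 26286580))
(L (nat_lit 10578542)))
(L (nat_lit 20388954))))
(S (nat_lit 21540) (S (nat_lit 10949) (S (nat_lit 17496) (L (nat_lit 20135960))
(L (nat_lit 22218511)))
(S (nat_lit 30713) (S (nat_lit 54912) (S (nat_lit 1246) (L (nat_lit 22063886))
(L (nat_lit 14519979)))
(L (nat_lit 6108469)))
(S (nat_lit 50477) (S (nat_lit 48323) (S (nat_lit 48301) (S (nat_lit 37274) (S (nat_lit 21507) (S (nat_lit 50538) (S (nat_lit 21512) (S (nat_lit 1944) (S (nat_lit 48276) (S (nat_lit 14449) (S (nat_lit 31) (S (nat_lit 50463) (S (nat_lit 14443) (S (nat_lit 50527) (S (nat_lit 37324) (S (nat_lit 8455) (S (nat_lit 35120) (S (nat_lit 40805) (S (nat_lit 1067) (S (nat_lit 32140) (S (nat_lit 39349) (D (nat_lit 15) (nat_lit 14501929) (nat_lit 18997581) (nat_lit 34367085831))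
(L (nat_lit 21438340)))
(L (nat_lit 27729602)))
(S (nat_lit 49231) (S (nat_lit 7142) (S (nat_lit 20362) (S (nat_lit 28716) (S (nat_lit 55479) (D (nat_lit 13) (nat_lit 12339619) (nat_lit 25758956) (nat_lit 6598251651301))
(L (nat_lit 28810359)))
(L (nat_lit 27829300)))
(L (nat_lit 23589153)))
(L (nat_lit 27933984)))
(L (nat_lit 793233))))
(L (nat_lit 2632410)))
(L (nat_lit 17936276)))
(L (nat_lit 17851114)))
(L (nat_lit 17435864)))
(L (nat_lit 27664402)))
(L (nat_lit 4911627)))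
(L (nat_lit 28001472)))
(L (nat_lit 13468948)))
(L (nat_lit 28511854)))
(L (nat_lit 27984327)))
(L (nat_lit 12366437)))
(L (nat_lit 22987912)))
(L (nat_lit 12405871)))
(L (nat_lit 22981154)))
(L (nat_lit 2313996)))
(L (nat_lit 22241420)))
(L (nat_lit 27841764)))
(L (nat_lit 25414149)))))
(S (nat_lit 41304) (S (nat_lit 62) (S (nat_lit 21043) (S (nat_lit 50510) (S (nat_lit 37285) (S (nat_lit 35115) (S (nat_lit 1986) (S (nat_lit 50538) (S (nat_lit 41276) (S (nat_lit 19601) (S (nat_lit 19570) (S (nat_lit 17538) (S (nat_lit 35137) (S (nat_lit 29426) (S (nat_lit 41503) (S (nat_lit 19806) (S (nat_lit 29454) (S (nat_lit 40542) (S (nat_lit 39575) (S (nat_lit 25925) (S (nat_lit 13727) (S (nat_lit 55056) (S (nat_lit 55970) (S (nat_lit 32243) (D (nat_lit 13) (nat_lit 27960368) (nat_lit 4573969) (nat_lit 277065275396))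
(L (nat_lit 20840870)))
(L (nat_lit 15550690)))
(L (nat_lit 29966626)))
(L (nat_lit 27900130)))
(S (nat_lit 50632) (S (nat_lit 35794) (S (nat_lit 5719) (D (nat_lit 15) (nat_lit 27928962) (nat_lit 25758989) (nat_lit 210520710373))
(L (nat_lit 29012011)))
(L (nat_lit 903686)))
(L (nat_lit 26710359))))
(L (nat_lit 27543108)))
(L (nat_lit 3862765)))
(L (nat_lit 16799528)))
(L (nat_lit 22133116)))
(L (nat_lit 8532633)))
(L (nat_lit 17061049)))
(L (nat_lit 8839219)))
(L (nat_lit 22342833)))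
(L (nat_lit 27885991)))
(L (nat_lit 27478400)))
(L (nat_lit 27269712)))
(L (nat_lit 27891111)))
(L (nat_lit 20811980)))
(L (nat_lit 10018997)))
(L (nat_lit 23637181)))
(L (nat_lit 20034474)))
(L (nat_lit 12083812)))
(S (nat_lit 19826) (S (nat_lit 40768) (S (nat_lit 1019) (L (nat_lit 20125114))
(L (nat_lit 19952039)))
(L (nat_lit 18776373)))
(S (nat_lit 39590) (S (nat_lit 31) (S (nat_lit 40768) (S (nat_lit 57071) (L (nat_lit 12667228))
(L (nat_lit 11233292)))
(L (nat_lit 24406095)))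
(L (nat_lit 14516533)))
(L (nat_lit 25316907)))))
(L (nat_lit 25698980)))))
(L (nat_lit 25183978)))))
(S (nat_lit 41293) (S (nat_lit 8748) (S (nat_lit 42) (S (nat_lit 31) (S (nat_lit 37307) (S (nat_lit 17571) (S (nat_lit 986) (L (nat_lit 8448620))
(L (nat_lit 26619521)))
(L (nat_lit 26613447)))
(L (nat_lit 3436084)))
(S (nat_lit 19795) (S (nat_lit 17543) (L (nat_lit 12845908))
(L (nat_lit 16020532)))
(S (nat_lit 39559) (S (nat_lit 54884) (L (nat_lit 29636788))
(L (nat_lit 13918228)))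
(L (nat_lit 25270927)))))
(S (nat_lit 19806) (S (nat_lit 17496) (S (nat_lit 21004) (S (nat_lit 35087) (S (nat_lit 50538) (S (nat_lit 20767) (L (nat_lit 12705702))
(L (nat_lit 5753606)))
(L (nat_lit 20069159)))
(L (nat_lit 2318957)))
(S (nat_lit 28491) (L (nat_lit 16548084))
(L (nat_lit 1679150))))
(S (nat_lit 27688) (L (nat_lit 9999123))
(L (nat_lit 704262))))
(S (nat_lit 39570) (S (nat_lit 986) (S (nat_lit 1732) (S (nat_lit 21010) (L (nat_lit 933238))
(L (nat_lit 5157076)))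
(S (nat_lit 30849) (L (nat_lit 10632891))
(L (nat_lit 26691751))))
(S (nat_lit 20750) (S (nat_lit 1732) (S (nat_lit 40562) (S (nat_lit 21490) (S (nat_lit 41497) (S (nat_lit 20800) (S (nat_lit 30730) (S (nat_lit 21739) (S (nat_lit 28537) (S (nat_lit 21540) (S (nat_lit 41519) (S (nat_lit 31) (S (nat_lit 50538) (S (nat_lit 35137) (S (nat_lit 16371) (S (nat_lit 15384) (S (nat_lit 40785) (S (nat_lit 10051) (S (nat_lit 49912) (S (nat_lit 23276) (S (nat_lit 17891) (S (nat_lit 48866) (D (nat_lit 13) (nat_lit 25828369) (nat_lit 5842424) (nat_lit 173986158785))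
(L (nat_lit 21258788)))
(L (nat_lit 27931691)))
(L (nat_lit 23490816)))
(L (nat_lit 30093568)))
(S (nat_lit 41825) (S (nat_lit 29664) (S (nat_lit 58434) (S (nat_lit 10559) (D (nat_lit 15) (nat_lit 10358417) (nat_lit 8440590) (nat_lit 144151122115))
(L (nat_lit 27869473)))
(L (nat_lit 23604411)))
(L (nat_lit 21456131)))
(L (nat_lit 7127127))))
(L (nat_lit 2610493)))
(L (nat_lit 7262318)))
(L (nat_lit 28400074)))
(L (nat_lit 3004657)))
(L (nat_lit 10966816)))
(L (nat_lit 26707220)))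
(L (nat_lit 6447510)))
(L (nat_lit 11011770)))
(L (nat_lit 18918193)))
(L (nat_lit 21761511)))
(L (nat_lit 19137296)))
(L (nat_lit 7125600)))
(L (nat_lit 27901959)))
(L (nat_lit 21425255)))
(L (nat_lit 27806823)))
(L (nat_lit 19737775)))
(S (nat_lit 40514) (S (nat_lit 1257) (L (nat_lit 11614873))
(L (nat_lit 19086211)))
(L (nat_lit 25592455)))))
(L (nat_lit 25284941)))))
(S (nat_lit 28512) (S (nat_lit 1290) (S (nat_lit 40575) (S (nat_lit 19826) (S (nat_lit 37291) (S (nat_lit 21026) (L (nat_lit 15000754))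
(L (nat_lit 21760423)))
(L (nat_lit 9136642)))
(L (nat_lit 15427908)))
(L (nat_lit 27842916)))
(S (nat_lit 21054) (S (nat_lit 1019) (S (nat_lit 37307) (S (nat_lit 28574) (S (nat_lit 57024) (S (nat_lit 28543) (S (nat_lit 57086) (S (nat_lit 35087) (S (nat_lit 40564) (S (nat_lit 21026) (S (nat_lit 62) (S (nat_lit 1047) (S (nat_lit 1726) (S (nat_lit 41243) (S (nat_lit 41271) (S (nat_lit 41503) (S (nat_lit 39553) (S (nat_lit 39575) (S (nat_lit 17836) (S (nat_lit 54884) (S (nat_lit 41472) (S (nat_lit 37602) (S (nat_lit 6752) (S (nat_lit 11082) (S (nat_lit 16395) (S (nat_lit 36976) (S (nat_lit 14922) (D (nat_lit 13) (nat_lit 27854156) (nat_lit 25544879) (nat_lit 6673580300320))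
(L (nat_lit 29016356)))
(L (nat_lit 22982794)))
(L (nat_lit 28726562)))
(L (nat_lit 29013280)))
(S (nat_lit 51291) (S (nat_lit 15456) (S (nat_lit 32571) (S (nat_lit 5476) (S (nat_lit 12722) (D (nat_lit 13) (nat_lit 27929027) (nat_lit 25767087) (nat_lit 6674620487681))
(L (nat_lit 27920904)))
(L (nat_lit 27930981)))
(L (nat_lit 15857291)))
(L (nat_lit 28919072)))
(L (nat_lit 17899229))))
(L (nat_lit 10638159)))
(L (nat_lit 24547179)))
(L (nat_lit 11325455)))
(L (nat_lit 20508005)))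
(L (nat_lit 11191205)))
(L (nat_lit 11092738)))
(L (nat_lit 18755204)))
(L (nat_lit 18154259)))
(L (nat_lit 8782520)))
(L (nat_lit 12966971)))
(L (nat_lit 13343768)))
(L (nat_lit 20505925)))
(L (nat_lit 30629248)))
(L (nat_lit 17504412)))
(L (nat_lit 20182093)))
(L (nat_lit 4857614)))
(L (nat_lit 13343832)))
(L (nat_lit 19766319)))
(L (nat_lit 24944037)))
(L (nat_lit 20191054)))
(L (nat_lit 19952041)))
(S (nat_lit 40818) (S (nat_lit 1986) (S (nat_lit 1763) (S (nat_lit 1277) (L (nat_lit 19436328))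
(L (nat_lit 19937161)))
(L (nat_lit 20472870)))
(S (nat_lit 21750) (S (nat_lit 21026) (S (nat_lit 1958) (S (nat_lit 39590) (L (nat_lit 28355031))
(L (nat_lit 27406678)))
(L (nat_lit 10225297)))
(S (nat_lit 58632) (L (nat_lit 19099729))
(L (nat_lit 15769179))))
(S (nat_lit 41514) (S (nat_lit 35087) (S (nat_lit 10982) (S (nat_lit 37335) (L (nat_lit 11166245))
(L (nat_lit 8853269)))
(L (nat_lit 553674)))
(L (nat_lit 23300877)))
(L (nat_lit 25831501)))))
(L (nat_lit 25926797)))))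
(S (nat_lit 48276) (S (nat_lit 31) (S (nat_lit 15334) (S (nat_lit 19828) (S (nat_lit 19789) (L (nat_lit 220078))
(L (nat_lit 14935189)))
(L (nat_lit 9172386)))
(S (nat_lit 35098) (S (nat_lit 37322) (S (nat_lit 35137) (S (nat_lit 1003) (S (nat_lit 25) (S (nat_lit 2006) (S (nat_lit 35087) (S (nat_lit 1019) (S (nat_lit 41254) (S (nat_lit 42) (S (nat_lit 35120) (S (nat_lit 48351) (S (nat_lit 21010) (S (nat_lit 2019) (S (nat_lit 37302) (S (nat_lit 1047) (S (nat_lit 35115) (S (nat_lit 41243) (S (nat_lit 14979) (S (nat_lit 7969) (S (nat_lit 28931) (S (nat_lit 20119) (S (nat_lit 28964) (S (nat_lit 40238) (S (nat_lit 56158) (S (nat_lit 52326) (D (nat_lit 13) (nat_lit 4037356) (nat_lit 10981138) (nat_lit 1244567636224))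
(L (nat_lit 14602531)))
(L (nat_lit 22342051)))
(L (nat_lit 30126373)))
(L (nat_lit 27830912)))
(L (nat_lit 23589120)))
(S (nat_lit 54960) (S (nat_lit 31372) (S (nat_lit 21365) (S (nat_lit 39964) (S (nat_lit 57152) (S (nat_lit 51354) (D (nat_lit 13) (nat_lit 12389069) (nat_lit 10983186) (nat_lit 6874330074116))
(L (nat_lit 14602498)))
(L (nat_lit 22950026)))
(L (nat_lit 30061828)))
(L (nat_lit 23619781)))
(L (nat_lit 27932899)))
(L (nat_lit 7521883))))
(L (nat_lit 2320111)))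
(L (nat_lit 27478188)))
(L (nat_lit 6383063)))
(L (nat_lit 18113152)))
(L (nat_lit 13949977)))
(L (nat_lit 3951951)))
(L (nat_lit 26237385)))
(L (nat_lit 31109473)))
(L (nat_lit 12406145)))
(L (nat_lit 9036845)))
(L (nat_lit 12670296)))
(L (nat_lit 6885199)))
(L (nat_lit 26237321)))
(L (nat_lit 12799065)))
(L (nat_lit 12805826)))
(L (nat_lit 12808373)))
(L (nat_lit 12805301)))
(L (nat_lit 2994856)))
(L (nat_lit 23240558)))
(S (nat_lit 54862) (S (nat_lit 1019) (S (nat_lit 30713) (S (nat_lit 35087) (S (nat_lit 57066) (L (nat_lit 19100097))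
(L (nat_lit 11232705)))
(L (nat_lit 12799065)))
(L (nat_lit 19084377)))
(L (nat_lit 20121020)))
(L (nat_lit 25643176)))))
(S (nat_lit 19795) (S (nat_lit 1290) (S (nat_lit 1776) (S (nat_lit 1036) (L (nat_lit 18980686))
(L (nat_lit 19830182)))
(L (nat_lit 14583465)))
(L (nat_lit 20510053)))
(S (nat_lit 39559) (S (nat_lit 21026) (S (nat_lit 50494) (L (nat_lit 925423))
(L (nat_lit 20857960)))
(S (nat_lit 38914) (L (nat_lit 4867389))
(L (nat_lit 12344704))))
(L (nat_lit 25821640)))))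
(L (nat_lit 25827344)))))
(L (nat_lit 25433679)))))
(S (nat_lit 20761) (S (nat_lit 1748) (S (nat_lit 10982) (S (nat_lit 1726) (S (nat_lit 35115) (S (nat_lit 21043) (L (nat_lit 12184993))
(L (nat_lit 30480974)))
(L (nat_lit 30483022)))
(S (nat_lit 21490) (S (nat_lit 15323) (S (nat_lit 57066) (S (nat_lit 1019) (L (nat_lit 12799067))
(L (nat_lit 13477475)))
(L (nat_lit 14978717)))
(S (nat_lit 35087) (S (nat_lit 1279) (S (nat_lit 57071) (S (nat_lit 11010) (L (nat_lit 19232293))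
(L (nat_lit 16689268)))
(L (nat_lit 27349230)))
(L (nat_lit 19405604)))
(S (nat_lit 54851) (S (nat_lit 50538) (S (nat_lit 57099) (L (nat_lit 5491101))
(L (nat_lit 4674343)))
(L (nat_lit 12390991)))
(L (nat_lit 25385037)))))
(S (nat_lit 41254) (S (nat_lit 10999) (S (nat_lit 1307) (L (nat_lit 1646076))
(S (nat_lit 20993) (S (nat_lit 15356) (S (nat_lit 8812) (S (nat_lit 39590) (S (nat_lit 20750) (L (nat_lit 28654147))
(L (nat_lit 12406960)))
(L (nat_lit 4550198)))
(L (nat_lit 6802211)))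
(L (nat_lit 1324850)))
(L (nat_lit 16353033))))
(S (nat_lit 30763) (S (nat_lit 8812) (S (nat_lit 20993) (S (nat_lit 41486) (S (nat_lit 10977) (L (nat_lit 15857288))
(L (nat_lit 23498104)))
(L (nat_lit 27892784)))
(L (nat_lit 21422121)))
(S (nat_lit 26312) (L (nat_lit 1362702))
(L (nat_lit 7495441))))
(S (nat_lit 50527) (S (nat_lit 57071) (S (nat_lit 8812) (L (nat_lit 7788601))
(L (nat_lit 23522344)))
(L (nat_lit 27707435)))
(L (nat_lit 25306679)))))
(L (nat_lit 25762341)))))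
(S (nat_lit 30746) (S (nat_lit 17543) (S (nat_lit 1081) (S (nat_lit 22831) (L (nat_lit 14225661))
(L (nat_lit 5490485)))
(S (nat_lit 54851) (S (nat_lit 39559) (S (nat_lit 57099) (L (nat_lit 12152225))
(L (nat_lit 27437681)))
(L (nat_lit 27544686)))
(L (nat_lit 16425765))))
(S (nat_lit 37307) (S (nat_lit 1279) (S (nat_lit 31) (L (nat_lit 18950062))
(L (nat_lit 20013326)))
(S (nat_lit 11892) (L (nat_lit 20145573))
(L (nat_lit 20847009))))
(S (nat_lit 57071) (S (nat_lit 1290) (S (nat_lit 1279) (S (nat_lit 48323) (S (nat_lit 1743) (S (nat_lit 39559) (S (nat_lit 21490) (S (nat_lit 1003) (S (nat_lit 25) (S (nat_lit 14) (S (nat_lit 54912) (S (nat_lit 48307) (S (nat_lit 30730) (S (nat_lit 55321) (S (nat_lit 28587) (S (nat_lit 40743) (S (nat_lit 40562) (S (nat_lit 10997) (S (nat_lit 15307) (S (nat_lit 53804) (S (nat_lit 26464) (S (nat_lit 25930) (S (nat_lit 28620) (S (nat_lit 58935) (D (nat_lit 13) (nat_lit 26268075) (nat_lit 25761969) (nat_lit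 1241248702720))
(L (nat_lit 20177315)))
(L (nat_lit 28907968)))
(L (nat_lit 25042000)))
(L (nat_lit 22606082)))
(L (nat_lit 30131458)))
(S (nat_lit 17651) (S (nat_lit 9811) (S (nat_lit 29714) (S (nat_lit 23849) (S (nat_lit 37199) (D (nat_lit 13) (nat_lit 27576497) (nat_lit 25764977) (nat_lit 6777699604580))
(L (nat_lit 28031019)))
(L (nat_lit 4114856)))
(L (nat_lit 21868898)))
(L (nat_lit 28979520)))
(L (nat_lit 9073188))))
(L (nat_lit 925358)))
(L (nat_lit 24162552)))
(L (nat_lit 10033004)))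
(L (nat_lit 2936112)))
(L (nat_lit 20719628)))
(L (nat_lit 9863768)))
(L (nat_lit 20185500)))
(L (nat_lit 5680021)))
(L (nat_lit 12638027)))
(L (nat_lit 12841666)))
(L (nat_lit 13264229)))
(L (nat_lit 11134469)))
(L (nat_lit 11324526)))
(L (nat_lit 13477938)))
(L (nat_lit 13719466)))
(L (nat_lit 20877707)))
(S (nat_lit 21054) (S (nat_lit 1715) (S (nat_lit 39559) (S (nat_lit 37335) (S (nat_lit 54901) (S (nat_lit 986) (S (nat_lit 42) (S (nat_lit 1019) (S (nat_lit 41271) (S (nat_lit 1975) (S (nat_lit 39553) (S (nat_lit 48351) (S (nat_lit 41486) (S (nat_lit 17527) (S (nat_lit 54868) (S (nat_lit 29155) (S (nat_lit 37452) (S (nat_lit 40757) (S (nat_lit 41229) (S (nat_lit 8629) (S (nat_lit 6281) (S (nat_lit 32882) (S (nat_lit 35055) (S (nat_lit 13005) (D (nat_lit 13) (nat_lit 31111461) (nat_lit 19667121) (nat_lit 6839970368579))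
(L (nat_lit 29079723)))
(L (nat_lit 22913473)))
(L (nat_lit 22921476)))
(L (nat_lit 31113473)))
(S (nat_lit 50898) (S (nat_lit 11081) (S (nat_lit 17379) (S (nat_lit 36737) (S (nat_lit 3484) (D (nat_lit 13) (nat_lit 27887016) (nat_lit 25765041) (nat_lit 6639220594690))
(L (nat_lit 28790017)))
(L (nat_lit 27663410)))
(L (nat_lit 27663013)))
(L (nat_lit 27964644)))
(L (nat_lit 4963611))))
(L (nat_lit 24520548)))
(L (nat_lit 27864544)))
(L (nat_lit 29888789)))
(L (nat_lit 10513996)))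
(L (nat_lit 11234690)))
(L (nat_lit 16048739)))
(L (nat_lit 18455704)))
(L (nat_lit 5066032)))
(L (nat_lit 23282844)))
(L (nat_lit 14489226)))
(L (nat_lit 8853267)))
(L (nat_lit 9060444)))
(L (nat_lit 283193)))
(L (nat_lit 26662083)))
(L (nat_lit 16328547)))
(L (nat_lit 2518726)))
(L (nat_lit 5533140)))
(S (nat_lit 13323) (L (nat_lit 23162406))
(L (nat_lit 19196385))))
(S (nat_lit 40818) (S (nat_lit 972) (S (nat_lit 1019) (S (nat_lit 37291) (S (nat_lit 1279) (S (nat_lit 35087) (S (nat_lit 28576) (S (nat_lit 39542) (S (nat_lit 21004) (S (nat_lit 28559) (S (nat_lit 57024) (S (nat_lit 21733) (S (nat_lit 48338) (S (nat_lit 40531) (S (nat_lit 32844) (S (nat_lit 15334) (S (nat_lit 20778) (S (nat_lit 20409) (S (nat_lit 27774) (S (nat_lit 11812) (S (nat_lit 35500) (S (nat_lit 10354) (S (nat_lit 13463) (D (nat_lit 9) (nat_lit 27968771) (nat_lit 25767301) (nat_lit 138715143336))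
(L (nat_lit 27966819)))
(L (nat_lit 28821827)))
(L (nat_lit 14902881)))
(L (nat_lit 28789091)))
(L (nat_lit 21874017)))
(S (nat_lit 35743) (S (nat_lit 7025) (S (nat_lit 53253) (S (nat_lit 40827) (S (nat_lit 18440) (S (nat_lit 48678) (D (nat_lit 9) (nat_lit 31041681) (nat_lit 25761133) (nat_lit 37819129926))
(L (nat_lit 21839205)))
(L (nat_lit 29995145)))
(L (nat_lit 19277600)))
(L (nat_lit 13520129)))
(L (nat_lit 29995265)))
(L (nat_lit 550259))))
(L (nat_lit 12336243)))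
(L (nat_lit 22508681)))
(L (nat_lit 29434325)))
(L (nat_lit 10270341)))
(L (nat_lit 4847018)))
(L (nat_lit 4835114)))
(L (nat_lit 12589757)))
(L (nat_lit 12866619)))
(L (nat_lit 4644651)))
(L (nat_lit 27861445)))
(L (nat_lit 13295656)))
(L (nat_lit 13509221)))
(L (nat_lit 12882555)))
(L (nat_lit 13916066)))
(L (nat_lit 13442199)))
(L (nat_lit 20721802)))
(L (nat_lit 25418213)))))
(L (nat_lit 25466606)))))
(S (nat_lit 50510) (S (nat_lit 1991) (S (nat_lit 8823) (S (nat_lit 1036) (S (nat_lit 1279) (S (nat_lit 39603) (S (nat_lit 39559) (L (nat_lit 5915464))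
(L (nat_lit 24189742)))
(L (nat_lit 24495904)))
(L (nat_lit 13512257)))
(L (nat_lit 12833573)))
(S (nat_lit 28587) (S (nat_lit 57086) (S (nat_lit 57049) (S (nat_lit 1036) (L (nat_lit 5057104))
(L (nat_lit 4758325)))
(L (nat_lit 12497075)))
(L (nat_lit 12219780)))
(S (nat_lit 48351) (S (nat_lit 57099) (S (nat_lit 1765) (S (nat_lit 48290) (S (nat_lit 1958) (L (nat_lit 4421011))
(L (nat_lit 20756800)))
(L (nat_lit 11013941)))
(L (nat_lit 4471604)))
(S (nat_lit 58395) (S (nat_lit 21043) (L (nat_lit 7226977))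
(L (nat_lit 22919270)))
(L (nat_lit 12401344))))
(L (nat_lit 25677057)))))
(S (nat_lit 21755) (S (nat_lit 17510) (S (nat_lit 54912) (S (nat_lit 19828) (S (nat_lit 21026) (S (nat_lit 1279) (L (nat_lit 28451406))
(L (nat_lit 10513007)))
(L (nat_lit 12337760)))
(L (nat_lit 15501928)))
(L (nat_lit 27407974)))
(S (nat_lit 37274) (S (nat_lit 39575) (S (nat_lit 48301) (L (nat_lit 12432992))
(L (nat_lit 4450924)))
(L (nat_lit 5134762)))
(S (nat_lit 57038) (S (nat_lit 54899) (S (nat_lit 21026) (L (nat_lit 11448928))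
(L (nat_lit 16681575)))
(L (nat_lit 12154276)))
(L (nat_lit 25725236)))))
(S (nat_lit 41519) (S (nat_lit 29341) (S (nat_lit 34030) (L (nat_lit 5534167))
(L (nat_lit 13523046)))
(S (nat_lit 37260) (S (nat_lit 1279) (S (nat_lit 21490) (S (nat_lit 54879) (L (nat_lit 21195168))
(L (nat_lit 10574606)))
(L (nat_lit 10579694)))
(S (nat_lit 11892) (L (nat_lit 20180078))
(L (nat_lit 20847009))))
(L (nat_lit 19930961))))
(L (nat_lit 25823622)))))
(L (nat_lit 25278709)))))
(S (nat_lit 21512) (S (nat_lit 1743) (S (nat_lit 75) (S (nat_lit 8762) (S (nat_lit 35087) (S (nat_lit 17521) (S (nat_lit 39184) (S (nat_lit 21783) (S (nat_lit 39559) (S (nat_lit 39553) (S (nat_lit 50494) (S (nat_lit 41486) (S (nat_lit 40500) (S (nat_lit 9844) (S (nat_lit 37302) (S (nat_lit 49112) (S (nat_lit 9802) (S (nat_lit 42) (S (nat_lit 52003) (S (nat_lit 16195) (S (nat_lit 25285) (D (nat_lit 15) (nat_lit 27870281) (nat_lit 25758989) (nat_lit 207403293922))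
(L (nat_lit 27775329)))
(L (nat_lit 27934051)))
(S (nat_lit 53808) (S (nat_lit 41841) (S (nat_lit 35442) (D (nat_lit 15) (nat_lit 13931410) (nat_lit 5677656) (nat_lit 137442104579))
(L (nat_lit 29047943)))
(L (nat_lit 28982343)))
(L (nat_lit 12505637))))
(L (nat_lit 1516281)))
(L (nat_lit 28838534)))
(L (nat_lit 28968359)))
(L (nat_lit 13722246)))
(L (nat_lit 11955808)))
(L (nat_lit 8295021)))
(L (nat_lit 27676710)))
(L (nat_lit 15603826)))
(L (nat_lit 11987092)))
(L (nat_lit 27341108)))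
(L (nat_lit 10514092)))
(L (nat_lit 22047114)))
(L (nat_lit 26226070)))
(L (nat_lit 23078297)))
(S (nat_lit 28526) (S (nat_lit 35087) (S (nat_lit 39575) (S (nat_lit 57055) (S (nat_lit 21004) (L (nat_lit 16491640))
(L (nat_lit 5134639)))
(L (nat_lit 11983993)))
(L (nat_lit 5128810)))
(L (nat_lit 19953035)))
(S (nat_lit 48290) (S (nat_lit 1290) (S (nat_lit 50494) (L (nat_lit 15750953))
(L (nat_lit 22955299)))
(S (nat_lit 30094) (L (nat_lit 26445266))
(L (nat_lit 20487320))))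
(L (nat_lit 25365231)))))
(S (nat_lit 19839) (S (nat_lit 21026) (S (nat_lit 17496) (S (nat_lit 21783) (S (nat_lit 28574) (S (nat_lit 54901) (S (nat_lit 10935) (L (nat_lit 28793061))
(L (nat_lit 673543)))
(L (nat_lit 19678402)))
(L (nat_lit 9930361)))
(L (nat_lit 22244493)))
(L (nat_lit 16418567)))
(S (nat_lit 55463) (L (nat_lit 15947520))
(L (nat_lit 22179209))))
(S (nat_lit 39603) (S (nat_lit 1701) (S (nat_lit 1215) (S (nat_lit 50494) (S (nat_lit 54901) (L (nat_lit 348972))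
(L (nat_lit 12333730)))
(L (nat_lit 11627954)))
(S (nat_lit 57263) (L (nat_lit 5591453))
(L (nat_lit 13754986))))
(S (nat_lit 21465) (S (nat_lit 54899) (S (nat_lit 39559) (S (nat_lit 57066) (S (nat_lit 50505) (S (nat_lit 54862) (S (nat_lit 48338) (L (nat_lit 8880946))
(L (nat_lit 22179242)))
(L (nat_lit 12077209)))
(L (nat_lit 22472032)))
(L (nat_lit 11111183)))
(L (nat_lit 4910536)))
(L (nat_lit 12335748)))
(S (nat_lit 41229) (S (nat_lit 1036) (S (nat_lit 35087) (S (nat_lit 21010) (L (nat_lit 24020391))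
(L (nat_lit 12031764)))
(L (nat_lit 9487995)))
(L (nat_lit 12840517)))
(L (nat_lit 25603218)))))
(L (nat_lit 25307602)))))
(S (nat_lit 21507) (S (nat_lit 8810) (S (nat_lit 938) (L (nat_lit 17139321))
(S (nat_lit 1262) (S (nat_lit 54912) (S (nat_lit 20750) (S (nat_lit 39575) (L (nat_lit 21120283))
(L (nat_lit 11165713)))
(L (nat_lit 5591825)))
(L (nat_lit 6105712)))
(L (nat_lit 5742173))))
(S (nat_lit 28574) (S (nat_lit 1944) (S (nat_lit 1215) (L (nat_lit 22191885))
(L (nat_lit 12755577)))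
(S (nat_lit 21708) (S (nat_lit 57055) (S (nat_lit 54912) (S (nat_lit 39575) (L (nat_lit 7456376))
(L (nat_lit 5564822)))
(L (nat_lit 11987552)))
(L (nat_lit 15500595)))
(S (nat_lit 41472) (S (nat_lit 35087) (S (nat_lit 10997) (S (nat_lit 40807) (S (nat_lit 57071) (S (nat_lit 14) (S (nat_lit 50463) (S (nat_lit 50477) (S (nat_lit 39559) (S (nat_lit 39570) (S (nat_lit 21739) (S (nat_lit 11814) (S (nat_lit 20979) (S (nat_lit 19826) (S (nat_lit 41486) (S (nat_lit 35098) (S (nat_lit 28576) (S (nat_lit 5722) (S (nat_lit 18570) (S (nat_lit 5711) (S (nat_lit 39202) (S (nat_lit 8887) (D (nat_lit 13) (nat_lit 27283943) (nat_lit 25767397) (nat_lit 6640260782144))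
(L (nat_lit 27967746)))
(L (nat_lit 27664467)))
(L (nat_lit 27964770)))
(L (nat_lit 27963586)))
(S (nat_lit 37382) (S (nat_lit 10869) (S (nat_lit 4104) (S (nat_lit 49370) (S (nat_lit 17706) (D (nat_lit 13) (nat_lit 30754861) (nat_lit 25765413) (nat_lit 3372760665089))
(L (nat_lit 29479335)))
(L (nat_lit 28716181)))
(L (nat_lit 31139332)))
(L (nat_lit 31142085)))
(L (nat_lit 21427275))))
(L (nat_lit 30853315)))
(L (nat_lit 23094697)))
(L (nat_lit 27434487)))
(L (nat_lit 15867767)))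
(L (nat_lit 31011077)))
(L (nat_lit 28774058)))
(L (nat_lit 22374849)))
(L (nat_lit 5913350)))
(L (nat_lit 6075700)))
(L (nat_lit 11068997)))
(L (nat_lit 12092276)))
(L (nat_lit 12610218)))
(L (nat_lit 11422245)))
(L (nat_lit 16849529)))
(L (nat_lit 8308325)))
(L (nat_lit 9487995)))
(L (nat_lit 25546149)))))
(S (nat_lit 48338) (S (nat_lit 972) (S (nat_lit 1944) (S (nat_lit 50505) (S (nat_lit 57071) (L (nat_lit 11105292))
(L (nat_lit 12472805)))
(L (nat_lit 12357233)))
(L (nat_lit 6039148)))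
(S (nat_lit 20736) (S (nat_lit 54868) (S (nat_lit 54912) (S (nat_lit 57038) (L (nat_lit 27461228))
(L (nat_lit 4780650)))
(L (nat_lit 27442791)))
(L (nat_lit 27657833)))
(S (nat_lit 40500) (S (nat_lit 54899) (S (nat_lit 57086) (L (nat_lit 29656501))
(L (nat_lit 5862764)))
(L (nat_lit 5862765)))
(L (nat_lit 25505874)))))
(L (nat_lit 25592181)))))
(S (nat_lit 41271) (S (nat_lit 1215) (S (nat_lit 1701) (S (nat_lit 48634) (S (nat_lit 33503) (L (nat_lit 26288753))
(L (nat_lit 10546801)))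
(S (nat_lit 54868) (S (nat_lit 39592) (S (nat_lit 21783) (S (nat_lit 57038) (L (nat_lit 28329171))
(L (nat_lit 12501605)))
(L (nat_lit 22570123)))
(L (nat_lit 12061308)))
(L (nat_lit 5533292))))
(S (nat_lit 48994) (S (nat_lit 15994) (L (nat_lit 6202802))
(L (nat_lit 11947780)))
(L (nat_lit 11963001))))
(S (nat_lit 20979) (S (nat_lit 469) (L (nat_lit 30750304))
(S (nat_lit 35087) (S (nat_lit 30741) (S (nat_lit 21739) (S (nat_lit 15340) (L (nat_lit 18112325))
(L (nat_lit 16849531)))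
(L (nat_lit 22505607)))
(L (nat_lit 17737313)))
(L (nat_lit 3679867))))
(S (nat_lit 40743) (S (nat_lit 35087) (S (nat_lit 40807) (S (nat_lit 1036) (S (nat_lit 1019) (S (nat_lit 37335) (S (nat_lit 47178) (S (nat_lit 37274) (S (nat_lit 64) (S (nat_lit 50505) (S (nat_lit 39542) (S (nat_lit 34534) (S (nat_lit 57024) (S (nat_lit 30763) (S (nat_lit 972) (S (nat_lit 27624) (S (nat_lit 27688) (S (nat_lit 40575) (S (nat_lit 9382) (S (nat_lit 40145) (S (nat_lit 29135) (S (nat_lit 56242) (S (nat_lit 13949) (S (nat_lit 30615) (D (nat_lit 13) (nat_lit 26842412) (nat_lit 19664294) (nat_lit 4404560531685))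
(L (nat_lit 28811284)))
(L (nat_lit 28596740)))
(L (nat_lit 23653730)))
(L (nat_lit 28823746)))
(L (nat_lit 28984676)))
(S (nat_lit 54466) (S (nat_lit 21655) (S (nat_lit 12044) (S (nat_lit 36034) (S (nat_lit 37444) (D (nat_lit 13) (nat_lit 27894959) (nat_lit 25728585) (nat_lit 6776659417219))
(L (nat_lit 27965701)))
(L (nat_lit 9293280)))
(L (nat_lit 28944865)))
(L (nat_lit 19838305)))
(L (nat_lit 12938820))))
(L (nat_lit 17586346)))
(L (nat_lit 3000686)))
(L (nat_lit 26628453)))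
(L (nat_lit 12915320)))
(L (nat_lit 17156930)))
(L (nat_lit 4446129)))
(L (nat_lit 22278528)))
(L (nat_lit 23523621)))
(L (nat_lit 15508660)))
(L (nat_lit 7899770)))
(L (nat_lit 13850745)))
(L (nat_lit 5727508)))
(L (nat_lit 20819361)))
(L (nat_lit 14491235)))
(L (nat_lit 4942214)))
(L (nat_lit 23094699)))
(L (nat_lit 12842596)))
(L (nat_lit 25769128)))))
(L (nat_lit 25662739)))))
(S (nat_lit 41276) (S (nat_lit 1047) (S (nat_lit 10997) (S (nat_lit 64) (S (nat_lit 8748) (S (nat_lit 15384) (L (nat_lit 30974562))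
(L (nat_lit 7224928)))
(L (nat_lit 6752020)))
(S (nat_lit 19828) (S (nat_lit 21529) (S (nat_lit 15340) (S (nat_lit 28574) (S (nat_lit 40790) (S (nat_lit 1701) (S (nat_lit 21755) (S (nat_lit 54912) (S (nat_lit 39553) (L (nat_lit 26416813))
(L (nat_lit 27863183)))
(L (nat_lit 27629166)))
(L (nat_lit 14721657)))
(L (nat_lit 9515641)))
(L (nat_lit 3037609)))
(L (nat_lit 19392869)))
(L (nat_lit 26773096)))
(L (nat_lit 22143342)))
(S (nat_lit 39592) (S (nat_lit 1290) (S (nat_lit 57038) (L (nat_lit 7429560))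
(L (nat_lit 27823722)))
(L (nat_lit 5796210)))
(L (nat_lit 25541218)))))
(S (nat_lit 30761) (S (nat_lit 8748) (S (nat_lit 54899) (S (nat_lit 41514) (L (nat_lit 20323140))
(L (nat_lit 17598187)))
(L (nat_lit 19367755)))
(S (nat_lit 28512) (S (nat_lit 54868) (S (nat_lit 8810) (S (nat_lit 41486) (L (nat_lit 30115207))
(L (nat_lit 24545064)))
(L (nat_lit 26543727)))
(L (nat_lit 19793289)))
(S (nat_lit 48276) (S (nat_lit 1019) (S (nat_lit 37260) (L (nat_lit 9143708))
(L (nat_lit 13829973)))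
(L (nat_lit 10514838)))
(L (nat_lit 25206294)))))
(S (nat_lit 50525) (S (nat_lit 10949) (S (nat_lit 1776) (S (nat_lit 48276) (L (nat_lit 18935117))
(L (nat_lit 20121454)))
(S (nat_lit 46946) (L (nat_lit 10882648))
(L (nat_lit 13831832))))
(S (nat_lit 30713) (S (nat_lit 28543) (S (nat_lit 1732) (S (nat_lit 1019) (S (nat_lit 20993) (L (nat_lit 19435367))
(L (nat_lit 5126518)))
(L (nat_lit 11142556)))
(L (nat_lit 20784303)))
(L (nat_lit 13174077)))
(S (nat_lit 50477) (S (nat_lit 21367) (L (nat_lit 8227441))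
(S (nat_lit 21529) (S (nat_lit 21043) (L (nat_lit 27284814))
(L (nat_lit 12121700)))
(L (nat_lit 5807704))))
(L (nat_lit 25414149)))))
(L (nat_lit 25788750)))))
(S (nat_lit 20811) (S (nat_lit 10999) (S (nat_lit 1240) (S (nat_lit 17496) (S (nat_lit 21783) (S (nat_lit 57066) (L (nat_lit 285454))
(L (nat_lit 11652571)))
(L (nat_lit 15753131)))
(L (nat_lit 16538816)))
(S (nat_lit 21004) (S (nat_lit 17560) (S (nat_lit 19778) (L (nat_lit 10060558))
(L (nat_lit 20981241)))
(S (nat_lit 34955) (L (nat_lit 7226486))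
(L (nat_lit 7264272))))
(S (nat_lit 40768) (S (nat_lit 21054) (S (nat_lit 21010) (L (nat_lit 29623885))
(L (nat_lit 16387851)))
(L (nat_lit 15817946)))
(L (nat_lit 25452036)))))
(S (nat_lit 30763) (S (nat_lit 1277) (S (nat_lit 17096) (L (nat_lit 5720870))
(S (nat_lit 57049) (S (nat_lit 54879) (S (nat_lit 48340) (L (nat_lit 12258843))
(L (nat_lit 27602967)))
(L (nat_lit 5976838)))
(L (nat_lit 6011228))))
(S (nat_lit 21041) (S (nat_lit 1019) (S (nat_lit 54879) (S (nat_lit 37335) (S (nat_lit 37324) (L (nat_lit 30115184))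
(L (nat_lit 9277168)))
(L (nat_lit 9288289)))
(L (nat_lit 16556672)))
(L (nat_lit 20815235)))
(S (nat_lit 40805) (S (nat_lit 15351) (S (nat_lit 17221) (L (nat_lit 7189061))
(L (nat_lit 30969543)))
(L (nat_lit 7736984)))
(L (nat_lit 25415200)))))
(S (nat_lit 50527) (S (nat_lit 10966) (S (nat_lit 53719) (L (nat_lit 12117106))
(S (nat_lit 54879) (S (nat_lit 39570) (S (nat_lit 1215) (L (nat_lit 6201750))
(L (nat_lit 5531245)))
(L (nat_lit 24001888)))
(L (nat_lit 5531278))))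
(S (nat_lit 30730) (S (nat_lit 21010) (S (nat_lit 986) (S (nat_lit 1262) (L (nat_lit 14257033))
(L (nat_lit 20284176)))
(L (nat_lit 20212195)))
(S (nat_lit 21433) (L (nat_lit 16418072))
(L (nat_lit 12324527))))
(S (nat_lit 50494) (S (nat_lit 1969) (S (nat_lit 54868) (S (nat_lit 20800) (S (nat_lit 57055) (S (nat_lit 54912) (L (nat_lit 19121336))
(L (nat_lit 5761638)))
(L (nat_lit 6178099)))
(L (nat_lit 834150)))
(L (nat_lit 11319907)))
(L (nat_lit 19702273)))
(L (nat_lit 25249079)))))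
(L (nat_lit 25315880)))))
(S (nat_lit 40575) (S (nat_lit 10997) (S (nat_lit 1240) (S (nat_lit 2019) (S (nat_lit 17496) (S (nat_lit 21540) (S (nat_lit 54901) (S (nat_lit 39559) (S (nat_lit 11010) (S (nat_lit 57071) (S (nat_lit 54912) (S (nat_lit 40562) (S (nat_lit 36012) (S (nat_lit 21750) (S (nat_lit 35087) (S (nat_lit 8773) (S (nat_lit 19826) (S (nat_lit 41472) (S (nat_lit 52303) (S (nat_lit 13001) (S (nat_lit 55732) (S (nat_lit 29700) (S (nat_lit 5697) (S (nat_lit 29197) (D (nat_lit 15) (nat_lit 27543598) (nat_lit 25758989) (nat_lit 211560898820))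
(L (nat_lit 27858956)))
(L (nat_lit 27806981)))
(S (nat_lit 47200) (S (nat_lit 19087) (S (nat_lit 4129) (D (nat_lit 15) (nat_lit 29875337) (nat_lit 19666252) (nat_lit 74356690022))
(L (nat_lit 30907104)))
(L (nat_lit 28940738)))
(L (nat_lit 10574734))))
(L (nat_lit 18718742)))
(L (nat_lit 28557461)))
(L (nat_lit 16014113)))
(L (nat_lit 421235)))
(L (nat_lit 21798437)))
(L (nat_lit 8148108)))
(L (nat_lit 9258693)))
(L (nat_lit 8141907)))
(L (nat_lit 29924373)))
(L (nat_lit 28030177)))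
(L (nat_lit 6113582)))
(L (nat_lit 5530286)))
(L (nat_lit 8041313)))
(L (nat_lit 12470350)))
(L (nat_lit 5842860)))
(L (nat_lit 5790970)))
(L (nat_lit 1885927)))
(L (nat_lit 19809603)))
(S (nat_lit 21004) (S (nat_lit 1036) (L (nat_lit 5676669))
(S (nat_lit 54104) (L (nat_lit 16916088))
(L (nat_lit 20506694))))
(S (nat_lit 40768) (S (nat_lit 41547) (S (nat_lit 40774) (L (nat_lit 19939709))
(L (nat_lit 23991662)))
(L (nat_lit 24986947)))
(L (nat_lit 25339599)))))
(S (nat_lit 30761) (S (nat_lit 8762) (S (nat_lit 39559) (S (nat_lit 21540) (S (nat_lit 1019) (S (nat_lit 11010) (S (nat_lit 37335) (S (nat_lit 41486) (S (nat_lit 15309) (S (nat_lit 986) (S (nat_lit 28576) (S (nat_lit 41519) (S (nat_lit 19811) (S (nat_lit 39553) (S (nat_lit 21708) (S (nat_lit 17560) (S (nat_lit 17527) (S (nat_lit 57674) (S (nat_lit 40743) (S (nat_lit 10319) (S (nat_lit 28395) (S (nat_lit 13005) (S (nat_lit 5795) (S (nat_lit 51367) (S (nat_lit 35055) (D (nat_lit 13)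 (nat_lit 31112297) (nat_lit 19672549) (nat_lit 2444039915680))
(L (nat_lit 22914496)))
(L (nat_lit 25084256)))
(L (nat_lit 31113504)))
(L (nat_lit 29079909)))
(S (nat_lit 50384) (S (nat_lit 37130) (S (nat_lit 53808) (S (nat_lit 6055) (S (nat_lit 43529) (S (nat_lit 4599) (D (nat_lit 13) (nat_lit 15488136) (nat_lit 15950405) (nat_lit 6775580562466))
(L (nat_lit 31139296)))
(L (nat_lit 28976672)))
(L (nat_lit 30887106)))
(L (nat_lit 20889827)))
(L (nat_lit 28950754)))
(L (nat_lit 2617035))))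
(L (nat_lit 28912751)))
(L (nat_lit 27894179)))
(L (nat_lit 29925426)))
(L (nat_lit 867944)))
(L (nat_lit 1665576)))
(L (nat_lit 10611309)))
(L (nat_lit 5463887)))
(L (nat_lit 3628875)))
(L (nat_lit 27494807)))
(L (nat_lit 19776521)))
(L (nat_lit 19709281)))
(L (nat_lit 14687929)))
(L (nat_lit 25068785)))
(L (nat_lit 20820070)))
(L (nat_lit 1980999)))
(L (nat_lit 26433955)))
(L (nat_lit 8095661)))
(L (nat_lit 6172949)))
(S (nat_lit 26246) (S (nat_lit 40785) (L (nat_lit 19434378))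
(L (nat_lit 9930579)))
(L (nat_lit 7399827))))
(S (nat_lit 50525) (S (nat_lit 15351) (S (nat_lit 21043) (S (nat_lit 11010) (S (nat_lit 1229) (S (nat_lit 15371) (S (nat_lit 21540) (S (nat_lit 39559) (S (nat_lit 54837) (S (nat_lit 19789) (S (nat_lit 28174) (S (nat_lit 20979) (S (nat_lit 8421) (S (nat_lit 47647) (S (nat_lit 14521) (S (nat_lit 57088) (S (nat_lit 33975) (S (nat_lit 56722) (S (nat_lit 10829) (S (nat_lit 1193) (S (nat_lit 7765) (S (nat_lit 10354) (D (nat_lit 13) (nat_lit 26973638) (nat_lit 19140365) (nat_lit 4504556863494))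
(L (nat_lit 27896194)))
(L (nat_lit 29997344)))
(L (nat_lit 30723521)))
(L (nat_lit 28945856)))
(L (nat_lit 20886849)))
(S (nat_lit 35760) (S (nat_lit 51340) (S (nat_lit 18457) (D (nat_lit 15) (nat_lit 27855401) (nat_lit 1853708) (nat_lit 6548365480))
(L (nat_lit 29961603)))
(L (nat_lit 16604357)))
(L (nat_lit 17424458))))
(L (nat_lit 5907373)))
(L (nat_lit 29542766)))
(L (nat_lit 29035886)))
(L (nat_lit 7894628)))
(L (nat_lit 14971461)))
(L (nat_lit 22306991)))
(L (nat_lit 22954339)))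
(L (nat_lit 27461079)))
(L (nat_lit 27526645)))
(L (nat_lit 15992595)))
(L (nat_lit 15599178)))
(L (nat_lit 26324656)))
(L (nat_lit 7008673)))
(L (nat_lit 7132577)))
(S (nat_lit 35115) (S (nat_lit 1229) (S (nat_lit 1991) (L (nat_lit 18889085))
(L (nat_lit 20071206)))
(L (nat_lit 20343138)))
(S (nat_lit 54879) (S (nat_lit 1290) (L (nat_lit 5809852))
(L (nat_lit 5992812)))
(L (nat_lit 25240142)))))
(L (nat_lit 25547140)))))
(L (nat_lit 25726163)))))
(L (nat_lit 25497201)))))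
(S (nat_lit 40525) (S (nat_lit 75) (S (nat_lit 1279) (S (nat_lit 1014) (S (nat_lit 17543) (S (nat_lit 1763) (S (nat_lit 1034) (S (nat_lit 1047) (S (nat_lit 1277) (L (nat_lit 2674503))
(L (nat_lit 13651847)))
(L (nat_lit 14589106)))
(L (nat_lit 14357385)))
(L (nat_lit 10163088)))
(S (nat_lit 37307) (S (nat_lit 1701) (S (nat_lit 1215) (S (nat_lit 1763) (L (nat_lit 21258414))
(L (nat_lit 26939944)))
(L (nat_lit 13964889)))
(L (nat_lit 13774425)))
(S (nat_lit 57071) (S (nat_lit 1743) (S (nat_lit 1763) (S (nat_lit 35120) (L (nat_lit 16854964))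
(L (nat_lit 13390020)))
(L (nat_lit 20471846)))
(L (nat_lit 19228781)))
(L (nat_lit 25243188)))))
(S (nat_lit 20778) (S (nat_lit 8773) (S (nat_lit 21507) (S (nat_lit 54837) (S (nat_lit 35087) (S (nat_lit 39542) (S (nat_lit 1748) (S (nat_lit 17543) (S (nat_lit 37260) (S (nat_lit 21026) (S (nat_lit 4728) (S (nat_lit 21722) (S (nat_lit 57088) (S (nat_lit 30699) (S (nat_lit 10982) (S (nat_lit 21465) (S (nat_lit 57049) (S (nat_lit 19789) (S (nat_lit 4844) (S (nat_lit 36979) (S (nat_lit 29689) (S (nat_lit 31296) (D (nat_lit 11) (nat_lit 28019022) (nat_lit 19063089) (nat_lit 281355194404))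
(L (nat_lit 28908037)))
(L (nat_lit 4114859)))
(L (nat_lit 4115882)))
(S (nat_lit 58565) (S (nat_lit 58640) (S (nat_lit 51350) (S (nat_lit 15757) (D (nat_lit 11) (nat_lit 28971467) (nat_lit 19259502) (nat_lit 35641139304))
(L (nat_lit 31043941)))
(L (nat_lit 16602279)))
(L (nat_lit 16601094)))
(L (nat_lit 25077283))))
(L (nat_lit 21900462)))
(L (nat_lit 21216003)))
(L (nat_lit 5647994)))
(L (nat_lit 18721843)))
(L (nat_lit 18882449)))
(L (nat_lit 5912425)))
(L (nat_lit 15304454)))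
(L (nat_lit 20996518)))
(L (nat_lit 7258688)))
(L (nat_lit 19950118)))
(L (nat_lit 18551563)))
(L (nat_lit 9466480)))
(L (nat_lit 11556657)))
(L (nat_lit 30421610)))
(L (nat_lit 15750395)))
(L (nat_lit 14702441)))
(S (nat_lit 28537) (S (nat_lit 21527) (L (nat_lit 7017233))
(L (nat_lit 16494369)))
(S (nat_lit 48301) (S (nat_lit 57049) (S (nat_lit 54837) (L (nat_lit 12908129))
(L (nat_lit 12506624)))
(L (nat_lit 12817171)))
(L (nat_lit 25209516)))))
(S (nat_lit 40542) (S (nat_lit 15373) (S (nat_lit 1019) (S (nat_lit 17543) (S (nat_lit 10982) (S (nat_lit 1765) (S (nat_lit 8795) (L (nat_lit 6206706))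
(L (nat_lit 8240179)))
(L (nat_lit 14582343)))
(L (nat_lit 8244270)))
(L (nat_lit 26651698)))
(L (nat_lit 12612199)))
(S (nat_lit 35137) (S (nat_lit 1763) (S (nat_lit 50525) (S (nat_lit 1748) (S (nat_lit 1034) (S (nat_lit 31) (L (nat_lit 26685154))
(L (nat_lit 19149634)))
(L (nat_lit 14390153)))
(L (nat_lit 26466721)))
(L (nat_lit 15031108)))
(L (nat_lit 13552742)))
(S (nat_lit 54901) (S (nat_lit 35120) (S (nat_lit 28537) (L (nat_lit 8410928))
(L (nat_lit 12611177)))
(L (nat_lit 13308811)))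
(L (nat_lit 25611304)))))
(L (nat_lit 25187850)))))
(S (nat_lit 21043) (S (nat_lit 1944) (S (nat_lit 972) (S (nat_lit 35148) (S (nat_lit 50505) (S (nat_lit 47) (L (nat_lit 16869963))
(L (nat_lit 14527077)))
(L (nat_lit 5695079)))
(L (nat_lit 3980902)))
(S (nat_lit 42184) (L (nat_lit 20716657))
(L (nat_lit 8840804))))
(S (nat_lit 21708) (S (nat_lit 1262) (S (nat_lit 57038) (S (nat_lit 54868) (S (nat_lit 41271) (L (nat_lit 26459253))
(L (nat_lit 27513380)))
(L (nat_lit 27821673)))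
(L (nat_lit 27276907)))
(S (nat_lit 21026) (S (nat_lit 54912) (L (nat_lit 22985830))
(L (nat_lit 27440743)))
(S (nat_lit 40790) (S (nat_lit 21529) (S (nat_lit 54912) (L (nat_lit 13686567))
(L (nat_lit 12392046)))
(L (nat_lit 14967392)))
(L (nat_lit 25823625)))))
(S (nat_lit 41472) (S (nat_lit 1776) (S (nat_lit 35120) (S (nat_lit 54879) (S (nat_lit 30741) (S (nat_lit 21010) (S (nat_lit 39590) (S (nat_lit 35087) (S (nat_lit 37260) (S (nat_lit 28559) (S (nat_lit 41547) (S (nat_lit 26165) (S (nat_lit 3353) (S (nat_lit 41291) (S (nat_lit 8779) (S (nat_lit 40564) (S (nat_lit 6445) (S (nat_lit 9154) (S (nat_lit 19308) (S (nat_lit 55059) (D (nat_lit 15) (nat_lit 30023200) (nat_lit 19664296) (nat_lit 68759395560))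
(L (nat_lit 29964610)))
(L (nat_lit 27901154)))
(S (nat_lit 50848) (S (nat_lit 43074) (S (nat_lit 12261) (S (nat_lit 21316) (S (nat_lit 11546) (S (nat_lit 29186) (D (nat_lit 13) (nat_lit 30028992) (nat_lit 18997638) (nat_lit 6667037186275))
(L (nat_lit 27547109)))
(L (nat_lit 29074510)))
(L (nat_lit 28628451)))
(L (nat_lit 29082979)))
(L (nat_lit 29082913)))
(L (nat_lit 16521303))))
(L (nat_lit 4748874)))
(L (nat_lit 1816921)))
(L (nat_lit 23631995)))
(L (nat_lit 23343873)))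
(L (nat_lit 10020023)))
(L (nat_lit 26791078)))
(L (nat_lit 16870059)))
(L (nat_lit 24678649)))
(L (nat_lit 19962703)))
(L (nat_lit 20385081)))
(L (nat_lit 28029099)))
(L (nat_lit 7245268)))
(L (nat_lit 14585446)))
(L (nat_lit 11623246)))
(L (nat_lit 13211467)))
(S (nat_lit 21540) (S (nat_lit 39570) (S (nat_lit 37322) (L (nat_lit 29961388))
(L (nat_lit 14522948)))
(L (nat_lit 27579905)))
(S (nat_lit 41304) (S (nat_lit 35115) (S (nat_lit 37285) (S (nat_lit 62) (L (nat_lit 19161232))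
(L (nat_lit 7921846)))
(L (nat_lit 30976182)))
(L (nat_lit 30985383)))
(L (nat_lit 25451970)))))
(L (nat_lit 25764972)))))
(S (nat_lit 40807) (S (nat_lit 8748) (S (nat_lit 2019) (S (nat_lit 27406) (L (nat_lit 8000920))
(S (nat_lit 40805) (S (nat_lit 1257) (L (nat_lit 1370548))
(L (nat_lit 20285324)))
(L (nat_lit 18588480))))
(S (nat_lit 21783) (S (nat_lit 15309) (S (nat_lit 35120) (L (nat_lit 3906382))
(L (nat_lit 13217605)))
(L (nat_lit 8045312)))
(S (nat_lit 41547) (S (nat_lit 17538) (S (nat_lit 21507) (L (nat_lit 19951110))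
(L (nat_lit 972331)))
(L (nat_lit 1687897)))
(L (nat_lit 25379459)))))
(S (nat_lit 28512) (S (nat_lit 1732) (S (nat_lit 1229) (S (nat_lit 30774) (S (nat_lit 30699) (L (nat_lit 19166689))
(L (nat_lit 19458272)))
(L (nat_lit 19020550)))
(L (nat_lit 19151680)))
(S (nat_lit 31329) (L (nat_lit 20353798))
(L (nat_lit 12602183))))
(S (nat_lit 48276) (S (nat_lit 1919) (S (nat_lit 1776) (L (nat_lit 13306202))
(L (nat_lit 14585170)))
(S (nat_lit 40564) (S (nat_lit 50494) (S (nat_lit 40768) (S (nat_lit 40774) (S (nat_lit 1975) (S (nat_lit 1765) (S (nat_lit 1019) (S (nat_lit 21527) (S (nat_lit 21722) (S (nat_lit 17558) (S (nat_lit 35120) (S (nat_lit 37335) (S (nat_lit 23371) (S (nat_lit 19789) (S (nat_lit 5247) (S (nat_lit 20979) (S (nat_lit 30741) (S (nat_lit 4596) (S (nat_lit 58381) (S (nat_lit 30451) (S (nat_lit 903) (S (nat_lit 21104) (S (nat_lit 23028) (D (nat_lit 9) (nat_lit 28661187) (nat_lit 15846153) (nat_lit 109793283300))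
(L (nat_lit 28596706)))
(L (nat_lit 28982343)))
(L (nat_lit 30757345)))
(L (nat_lit 21871937)))
(L (nat_lit 28982531)))
(S (nat_lit 23534) (S (nat_lit 51560) (S (nat_lit 41555) (S (nat_lit 6481) (S (nat_lit 57911) (D (nat_lit 13) (nat_lit 31009905) (nat_lit 25767397) (nat_lit 3509159202055))
(L (nat_lit 28909059)))
(L (nat_lit 31048996)))
(L (nat_lit 28917988)))
(L (nat_lit 28917986)))
(L (nat_lit 24026255))))
(L (nat_lit 14584422)))
(L (nat_lit 22948261)))
(L (nat_lit 28791105)))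
(L (nat_lit 3031380)))
(L (nat_lit 27350442)))
(L (nat_lit 23553313)))
(L (nat_lit 23472155)))
(L (nat_lit 24510813)))
(L (nat_lit 21372674)))
(L (nat_lit 21507939)))
(L (nat_lit 12802819)))
(L (nat_lit 3055215)))
(L (nat_lit 12935809)))
(L (nat_lit 25048102)))
(L (nat_lit 24513286)))
(L (nat_lit 6026665)))
(L (nat_lit 1795494))))
(L (nat_lit 25710598)))))
(L (nat_lit 25187662)))))
(S (nat_lit 19839) (S (nat_lit 17538) (S (nat_lit 1763) (S (nat_lit 10982) (S (nat_lit 54868) (S (nat_lit 17521) (L (nat_lit 5893542))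
(L (nat_lit 26973552)))
(L (nat_lit 16018550)))
(S (nat_lit 30746) (S (nat_lit 40805) (S (nat_lit 2006) (L (nat_lit 14601225))
(L (nat_lit 6213158)))
(L (nat_lit 10171136)))
(S (nat_lit 50510) (S (nat_lit 1070) (L (nat_lit 27348240))
(S (nat_lit 15356) (S (nat_lit 48323) (S (nat_lit 19806) (L (nat_lit 23376645))
(L (nat_lit 22306989)))
(L (nat_lit 27348173)))
(L (nat_lit 22287900))))
(L (nat_lit 25253070)))))
(S (nat_lit 21527) (S (nat_lit 1003) (S (nat_lit 54837) (L (nat_lit 11448929))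
(L (nat_lit 28018118)))
(S (nat_lit 20767) (S (nat_lit 21739) (S (nat_lit 28587) (S (nat_lit 20979) (L (nat_lit 28482964))
(L (nat_lit 22884520)))
(L (nat_lit 30750272)))
(L (nat_lit 21931489)))
(S (nat_lit 40531) (S (nat_lit 54868) (S (nat_lit 21004) (S (nat_lit 15309) (L (nat_lit 26288566))
(L (nat_lit 15522822)))
(L (nat_lit 15330310)))
(L (nat_lit 5823801)))
(L (nat_lit 25184710)))))
(S (nat_lit 41291) (S (nat_lit 15371) (S (nat_lit 19806) (S (nat_lit 1279) (S (nat_lit 1240) (S (nat_lit 35148) (L (nat_lit 19065382))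
(L (nat_lit 23969057)))
(L (nat_lit 14460609)))
(L (nat_lit 12603674)))
(S (nat_lit 33570) (L (nat_lit 26490592))
(L (nat_lit 22536512))))
(S (nat_lit 35135) (S (nat_lit 19795) (S (nat_lit 48338) (L (nat_lit 1830374))
(L (nat_lit 22211949)))
(S (nat_lit 52604) (L (nat_lit 20873517))
(L (nat_lit 3644180))))
(S (nat_lit 54899) (S (nat_lit 20767) (S (nat_lit 57055) (L (nat_lit 21054279))
(L (nat_lit 5559740)))
(L (nat_lit 11561460)))
(L (nat_lit 25336242)))))
(L (nat_lit 25365046)))))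
(S (nat_lit 37302) (S (nat_lit 10935) (S (nat_lit 1257) (S (nat_lit 1277) (S (nat_lit 1958) (L (nat_lit 10013504))
(L (nat_lit 20375592)))
(S (nat_lit 11585) (L (nat_lit 11232768))
(L (nat_lit 20485373))))
(S (nat_lit 21021) (S (nat_lit 986) (S (nat_lit 17496) (S (nat_lit 48351) (L (nat_lit 19982577))
(L (nat_lit 16378145)))
(L (nat_lit 7004207)))
(L (nat_lit 20000624)))
(S (nat_lit 40785) (S (nat_lit 21119) (S (nat_lit 8748) (L (nat_lit 23162310))
(L (nat_lit 6839073)))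
(S (nat_lit 40805) (S (nat_lit 8748) (L (nat_lit 5790599))
(L (nat_lit 14934657)))
(L (nat_lit 23148295))))
(L (nat_lit 25547788)))))
(S (nat_lit 30699) (S (nat_lit 17560) (S (nat_lit 986) (S (nat_lit 28512) (S (nat_lit 41254) (L (nat_lit 28875392))
(L (nat_lit 24519424)))
(L (nat_lit 31080486)))
(L (nat_lit 2386608)))
(S (nat_lit 37324) (S (nat_lit 986) (S (nat_lit 1036) (S (nat_lit 40575) (S (nat_lit 21770) (S (nat_lit 28559) (S (nat_lit 19789) (S (nat_lit 8609) (L (nat_lit 5587645))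
(L (nat_lit 11235776)))
(L (nat_lit 21206894)))
(L (nat_lit 8476495)))
(L (nat_lit 11243313)))
(L (nat_lit 23864332)))
(L (nat_lit 13348608)))
(S (nat_lit 30352) (L (nat_lit 20442278))
(L (nat_lit 14471335))))
(S (nat_lit 57088) (S (nat_lit 1991) (S (nat_lit 19795) (S (nat_lit 48301) (S (nat_lit 1262) (L (nat_lit 21236125))
(L (nat_lit 5908240)))
(L (nat_lit 11561585)))
(L (nat_lit 8507151)))
(S (nat_lit 20002) (L (nat_lit 22038278))
(L (nat_lit 13982464))))
(L (nat_lit 25628328)))))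
(S (nat_lit 50463) (S (nat_lit 15373) (S (nat_lit 42) (S (nat_lit 1765) (L (nat_lit 25079975))
(S (nat_lit 14968) (L (nat_lit 16690752))
(L (nat_lit 20480807))))
(S (nat_lit 19806) (S (nat_lit 1701) (L (nat_lit 13551936))
(L (nat_lit 9516819)))
(S (nat_lit 39570) (S (nat_lit 57024) (S (nat_lit 41534) (L (nat_lit 22033658))
(L (nat_lit 27463190)))
(L (nat_lit 5101030)))
(L (nat_lit 25280198)))))
(S (nat_lit 35137) (S (nat_lit 1279) (S (nat_lit 1765) (L (nat_lit 12281216))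
(L (nat_lit 5159495)))
(L (nat_lit 11450945)))
(S (nat_lit 54901) (S (nat_lit 21722) (S (nat_lit 40757) (L (nat_lit 16079648))
(L (nat_lit 27901120)))
(S (nat_lit 50353) (L (nat_lit 18584326))
(L (nat_lit 7791266))))
(L (nat_lit 25595123)))))
(L (nat_lit 25382929)))))
(S (nat_lit 57066) (S (nat_lit 1986) (S (nat_lit 1036) (S (nat_lit 30730) (S (nat_lit 28587) (S (nat_lit 37335) (S (nat_lit 1019) (S (nat_lit 1991) (S (nat_lit 21722) (S (nat_lit 1229) (L (nat_lit 11014997))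
(L (nat_lit 20278722)))
(L (nat_lit 5132624)))
(L (nat_lit 19732592)))
(S (nat_lit 32781) (S (nat_lit 41186) (L (nat_lit 31067560))
(L (nat_lit 26910113)))
(L (nat_lit 19952041))))
(L (nat_lit 30822688)))
(S (nat_lit 49915) (L (nat_lit 13411474))
(L (nat_lit 19021116))))
(S (nat_lit 50416) (S (nat_lit 41497) (L (nat_lit 27540629))
(L (nat_lit 27647055)))
(L (nat_lit 8477453))))
(S (nat_lit 40408) (S (nat_lit 21507) (S (nat_lit 4737) (L (nat_lit 19807302))
(L (nat_lit 5690681)))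
(S (nat_lit 41271) (S (nat_lit 13093) (L (nat_lit 2617990))
(L (nat_lit 20181008)))
(L (nat_lit 25180873))))
(L (nat_lit 13343493))))
(S (nat_lit 21750) (S (nat_lit 1036) (S (nat_lit 35087) (S (nat_lit 41472) (S (nat_lit 30730) (S (nat_lit 54899) (S (nat_lit 28587) (S (nat_lit 1991) (S (nat_lit 21739) (S (nat_lit 1019) (S (nat_lit 20750) (S (nat_lit 1748) (L (nat_lit 2629244))
(L (nat_lit 5103016)))
(L (nat_lit 6167185)))
(L (nat_lit 10515024)))
(L (nat_lit 8310209)))
(L (nat_lit 20169852)))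
(L (nat_lit 9227649)))
(L (nat_lit 11103407)))
(L (nat_lit 30724205)))
(L (nat_lit 23962732)))
(S (nat_lit 41119) (S (nat_lit 58206) (L (nat_lit 5588604))
(L (nat_lit 20308485)))
(L (nat_lit 12836980))))
(S (nat_lit 20722) (S (nat_lit 21010) (S (nat_lit 21479) (S (nat_lit 24336) (L (nat_lit 19831300))
(L (nat_lit 4874727)))
(L (nat_lit 14980761)))
(S (nat_lit 40774) (S (nat_lit 2092) (L (nat_lit 6172917))
(L (nat_lit 5166535)))
(L (nat_lit 25207285))))
(L (nat_lit 13337355))))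
(S (nat_lit 41514) (S (nat_lit 17521) (S (nat_lit 35148) (S (nat_lit 15309) (L (nat_lit 1600070))
(L (nat_lit 1271472)))
(L (nat_lit 20752769)))
(S (nat_lit 37285) (S (nat_lit 21605) (S (nat_lit 1003) (L (nat_lit 19095725))
(L (nat_lit 12805792)))
(S (nat_lit 41291) (S (nat_lit 1944) (S (nat_lit 1019) (L (nat_lit 12848858))
(L (nat_lit 26238288)))
(L (nat_lit 20720748)))
(L (nat_lit 24653569))))
(S (nat_lit 57049) (S (nat_lit 37223) (L (nat_lit 28022957))
(S (nat_lit 54879) (S (nat_lit 1944) (S (nat_lit 50505) (S (nat_lit 21783) (S (nat_lit 48301) (S (nat_lit 972) (S (nat_lit 41497) (S (nat_lit 41534) (S (nat_lit 47) (S (nat_lit 54899) (S (nat_lit 57086) (S (nat_lit 8748) (S (nat_lit 20811) (S (nat_lit 20750) (S (nat_lit 1019) (S (nat_lit 20767) (S (nat_lit 17496) (S (nat_lit 35087) (S (nat_lit 37335) (S (nat_lit 28587) (S (nat_lit 30774) (S (nat_lit 35148) (S (nat_lit 21739) (S (nat_lit 28543) (S (nat_lit 37291) (S (nat_lit 19778) (S (nat_lit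 17560) (S (nat_lit 8795) (S (nat_lit 196) (S (nat_lit 7287) (S (nat_lit 4963) (S (nat_lit 34478) (S (nat_lit 3824) (S (nat_lit 46318) (S (nat_lit 24822) (D (nat_lit 9) (nat_lit 27869474) (nat_lit 19277573) (nat_lit 241660170246))
(L (nat_lit 19835919)))
(L (nat_lit 19427589)))
(L (nat_lit 31043844)))
(L (nat_lit 28951812)))
(L (nat_lit 28913924)))
(S (nat_lit 46242) (S (nat_lit 5935) (S (nat_lit 52759) (S (nat_lit 3019) (S (nat_lit 44357) (S (nat_lit 8198) (D (nat_lit 9) (nat_lit 28945489) (nat_lit 19670405) (nat_lit 103113037893))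
(L (nat_lit 30842532)))
(L (nat_lit 22457402)))
(L (nat_lit 28914882)))
(L (nat_lit 28946656)))
(L (nat_lit 28913890)))
(L (nat_lit 31047750))))
(S (nat_lit 42662) (S (nat_lit 54491) (S (nat_lit 47930) (S (nat_lit 42625) (S (nat_lit 8656) (S (nat_lit 44734) (S (nat_lit 23015) (S (nat_lit 20901) (S (nat_lit 41807) (S (nat_lit 24805) (D (nat_lit 15) (nat_lit 7096431) (nat_lit 12339683) (nat_lit 138519052322))
(L (nat_lit 19164707)))
(L (nat_lit 28913891)))
(S (nat_lit 24319) (S (nat_lit 34319) (S (nat_lit 24954) (S (nat_lit 41880) (D (nat_lit 15) (nat_lit 25762341) (nat_lit 12148781) (nat_lit 106302736552))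
(L (nat_lit 13486340)))
(L (nat_lit 13453450)))
(L (nat_lit 27865445)))
(L (nat_lit 20850829))))
(L (nat_lit 14569545)))
(L (nat_lit 19373081)))
(L (nat_lit 27895822)))
(L (nat_lit 12181580)))
(L (nat_lit 10073890)))
(L (nat_lit 10041122)))
(S (nat_lit 43556) (S (nat_lit 33950) (S (nat_lit 6483) (S (nat_lit 53519) (S (nat_lit 26174) (S (nat_lit 33855) (S (nat_lit 45270) (S (nat_lit 52803) (S (nat_lit 41073) (S (nat_lit 20901) (D (nat_lit 15) (nat_lit 25761318) (nat_lit 10051662) (nat_lit 206163675202))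
(L (nat_lit 19276547)))
(L (nat_lit 19277570)))
(L (nat_lit 13453538)))
(S (nat_lit 46318) (S (nat_lit 6011) (S (nat_lit 7000) (S (nat_lit 44237) (S (nat_lit 13605) (S (nat_lit 1882) (D (nat_lit 13) (nat_lit 31000008) (nat_lit 25760973) (nat_lit 105260449925))
(L (nat_lit 31049061)))
(L (nat_lit 29960236)))
(L (nat_lit 19001834)))
(L (nat_lit 29963621)))
(L (nat_lit 29996229)))
(L (nat_lit 19731759))))
(L (nat_lit 12897058)))
(L (nat_lit 12903010)))
(L (nat_lit 8991523)))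
(L (nat_lit 9003427)))
(L (nat_lit 19161507)))
(L (nat_lit 5754202)))))
(L (nat_lit 6371123)))
(L (nat_lit 7212534)))
(L (nat_lit 10074201)))
(L (nat_lit 2727357)))
(L (nat_lit 2694557)))
(L (nat_lit 16697665)))
(L (nat_lit 13472359)))
(L (nat_lit 19763623)))
(L (nat_lit 19705217)))
(L (nat_lit 20753825)))
(L (nat_lit 8408473)))
(L (nat_lit 22242785)))
(L (nat_lit 6212043)))
(L (nat_lit 11371927)))
(L (nat_lit 14963897)))
(L (nat_lit 12291578)))
(L (nat_lit 7038400)))
(L (nat_lit 12944210)))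
(L (nat_lit 19235661)))
(L (nat_lit 12882743)))
(L (nat_lit 27799232)))
(L (nat_lit 27640545)))
(L (nat_lit 2903309)))
(L (nat_lit 27506275)))
(L (nat_lit 11307661)))
(L (nat_lit 13519201)))
(L (nat_lit 19195053)))
(L (nat_lit 27993262))))
(L (nat_lit 25864578)))))
(L (nat_lit 25304813)))))
(L (nat_lit 25614657)))))
(S (nat_lit 39603) (S (nat_lit 10982) (S (nat_lit 8779) (S (nat_lit 1748) (S (nat_lit 17543) (S (nat_lit 57049) (S (nat_lit 21540) (S (nat_lit 21722) (L (nat_lit 4954957))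
(L (nat_lit 1922534)))
(L (nat_lit 14735612)))
(L (nat_lit 12097299)))
(L (nat_lit 22287118)))
(S (nat_lit 21512) (S (nat_lit 15373) (S (nat_lit 40807) (S (nat_lit 19795) (S (nat_lit 17558) (L (nat_lit 861870))
(L (nat_lit 8259150)))
(L (nat_lit 14961411)))
(L (nat_lit 23389601)))
(L (nat_lit 6959874)))
(S (nat_lit 41276) (S (nat_lit 21043) (S (nat_lit 17558) (S (nat_lit 17543) (L (nat_lit 17920274))
(L (nat_lit 22096654)))
(L (nat_lit 8291918)))
(L (nat_lit 15000161)))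
(L (nat_lit 25517201)))))
(S (nat_lit 28543) (S (nat_lit 17543) (S (nat_lit 17649) (S (nat_lit 20750) (L (nat_lit 14228384))
(L (nat_lit 30757345)))
(S (nat_lit 37335) (S (nat_lit 1019) (S (nat_lit 57086) (S (nat_lit 19811) (S (nat_lit 1748) (L (nat_lit 13923909))
(L (nat_lit 26402214)))
(L (nat_lit 9343601)))
(L (nat_lit 27662916)))
(S (nat_lit 40391) (L (nat_lit 14568550))
(L (nat_lit 13639446))))
(L (nat_lit 14298881))))
(S (nat_lit 37307) (S (nat_lit 10966) (S (nat_lit 41291) (L (nat_lit 6420204))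
(L (nat_lit 23359011)))
(L (nat_lit 16011355)))
(S (nat_lit 57071) (S (nat_lit 1854) (S (nat_lit 35115) (L (nat_lit 18093756))
(L (nat_lit 20018542)))
(S (nat_lit 21540) (S (nat_lit 15340) (L (nat_lit 18109561))
(L (nat_lit 6382131)))
(L (nat_lit 11066116))))
(L (nat_lit 25466420)))))
(S (nat_lit 48307) (S (nat_lit 1991) (S (nat_lit 1701) (S (nat_lit 1215) (S (nat_lit 21054) (L (nat_lit 15277084))
(L (nat_lit 12081925)))
(L (nat_lit 20722792)))
(L (nat_lit 20722978)))
(S (nat_lit 21755) (S (nat_lit 37322) (S (nat_lit 17527) (S (nat_lit 28512) (S (nat_lit 21722) (S (nat_lit 8812) (L (nat_lit 17128632))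
(L (nat_lit 7490316)))
(L (nat_lit 7960034)))
(L (nat_lit 19099662)))
(L (nat_lit 1696045)))
(S (nat_lit 39852) (L (nat_lit 20280705))
(L (nat_lit 20322491))))
(S (nat_lit 41519) (S (nat_lit 20800) (S (nat_lit 20798) (S (nat_lit 21722) (S (nat_lit 2006) (S (nat_lit 50477) (S (nat_lit 10966) (S (nat_lit 21733) (S (nat_lit 10977) (S (nat_lit 40500) (S (nat_lit 25) (S (nat_lit 39592) (S (nat_lit 19811) (S (nat_lit 39590) (S (nat_lit 28537) (S (nat_lit 48323) (S (nat_lit 30761) (S (nat_lit 28512) (S (nat_lit 1014) (S (nat_lit 30763) (S (nat_lit 30774) (S (nat_lit 2019) (S (nat_lit 13082) (S (nat_lit 11884) (S (nat_lit 11398) (L (nat_lit 25336214))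
(L (nat_lit 20890880)))
(L (nat_lit 20888770)))
(S (nat_lit 57024) (S (nat_lit 57038) (S (nat_lit 37322) (S (nat_lit 17538) (S (nat_lit 37324) (S (nat_lit 54868) (S (nat_lit 17527) (S (nat_lit 54884) (S (nat_lit 8866) (S (nat_lit 6453) (S (nat_lit 41703) (S (nat_lit 8864) (S (nat_lit 18638) (S (nat_lit 51423) (S (nat_lit 18640) (S (nat_lit 24341) (S (nat_lit 32371) (S (nat_lit 21540) (D (nat_lit 13) (nat_lit 27282955) (nat_lit 19672239) (nat_lit 1171721815236))
(L (nat_lit 14741129)))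
(L (nat_lit 10407360)))
(S (nat_lit 41071) (S (nat_lit 9626) (S (nat_lit 41087) (D (nat_lit 13) (nat_lit 25348396) (nat_lit 7091779) (nat_lit 6703508850753))
(L (nat_lit 19831203)))
(L (nat_lit 27963589)))
(L (nat_lit 2533017))))
(L (nat_lit 30985286)))
(L (nat_lit 19739874)))
(L (nat_lit 29940963)))
(L (nat_lit 19293540)))
(L (nat_lit 8549072)))
(L (nat_lit 13913891)))
(S (nat_lit 36417) (S (nat_lit 29856) (S (nat_lit 55958) (S (nat_lit 4091) (S (nat_lit 20136) (S (nat_lit 43356) (S (nat_lit 1819) (S (nat_lit 6538) (S (nat_lit 23072) (D (nat_lit 15) (nat_lit 30498061) (nat_lit 2902440) (nat_lit 1141907616))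
(L (nat_lit 23566521)))
(L (nat_lit 30096708)))
(S (nat_lit 56698) (S (nat_lit 50434) (S (nat_lit 20665) (D (nat_lit 13) (nat_lit 10228301) (nat_lit 11290735) (nat_lit 8972358877216))
(L (nat_lit 19292421)))
(L (nat_lit 26816835)))
(L (nat_lit 22512391))))
(L (nat_lit 891282)))
(L (nat_lit 28328242)))
(L (nat_lit 30429576)))
(L (nat_lit 28902605)))
(L (nat_lit 28916931)))
(S (nat_lit 40163) (S (nat_lit 30342) (S (nat_lit 51850) (S (nat_lit 56444) (S (nat_lit 42870) (S (nat_lit 10534) (S (nat_lit 20676) (S (nat_lit 50434) (S (nat_lit 20665) (D (nat_lit 13) (nat_lit 10228301) (nat_lit 11291107) (nat_lit 8972358877216))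
(L (nat_lit 19292421)))
(L (nat_lit 26816835)))
(S (nat_lit 42540) (S (nat_lit 26022) (D (nat_lit 15) (nat_lit 25382275) (nat_lit 19666252) (nat_lit 1144000645))
(L (nat_lit 27865315)))
(L (nat_lit 8996610))))
(L (nat_lit 27789895)))
(L (nat_lit 7176594)))
(L (nat_lit 28508562)))
(L (nat_lit 8307394)))
(L (nat_lit 28562818)))
(L (nat_lit 19433690)))))
(L (nat_lit 27999275)))
(L (nat_lit 16587363)))
(L (nat_lit 21097864)))
(L (nat_lit 31080488)))
(L (nat_lit 7199105)))
(L (nat_lit 31071620)))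
(L (nat_lit 21872932)))
(L (nat_lit 13344608))))
(L (nat_lit 12087939)))
(L (nat_lit 30749248)))
(L (nat_lit 30876354)))
(L (nat_lit 11353794)))
(L (nat_lit 3627911)))
(L (nat_lit 14262116)))
(L (nat_lit 4958682)))
(L (nat_lit 30419378)))
(L (nat_lit 11220804)))
(L (nat_lit 16013371)))
(L (nat_lit 27611554)))
(L (nat_lit 13424777)))
(L (nat_lit 8229452)))
(L (nat_lit 16042913)))
(L (nat_lit 11093793)))
(L (nat_lit 16048706)))
(L (nat_lit 5498604)))
(L (nat_lit 12115990)))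
(L (nat_lit 21375744)))
(L (nat_lit 12118755)))
(S (nat_lit 47933) (L (nat_lit 5821756))
(L (nat_lit 12121696))))
(L (nat_lit 25496176)))))
(L (nat_lit 25559314)))))
(S (nat_lit 30746) (S (nat_lit 1991) (S (nat_lit 1776) (S (nat_lit 1262) (S (nat_lit 37302) (S (nat_lit 1257) (L (nat_lit 11629137))
(L (nat_lit 12636473)))
(L (nat_lit 13918849)))
(L (nat_lit 20137730)))
(S (nat_lit 21540) (S (nat_lit 57024) (S (nat_lit 54868) (L (nat_lit 11929181))
(L (nat_lit 5529145)))
(L (nat_lit 12316192)))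
(S (nat_lit 41304) (S (nat_lit 37302) (S (nat_lit 1003) (L (nat_lit 18440513))
(L (nat_lit 13852852)))
(L (nat_lit 14377127)))
(L (nat_lit 25745732)))))
(S (nat_lit 21755) (S (nat_lit 1290) (S (nat_lit 15634) (L (nat_lit 4726707))
(S (nat_lit 21540) (S (nat_lit 21043) (L (nat_lit 4409017))
(L (nat_lit 22549318)))
(L (nat_lit 5774099))))
(S (nat_lit 21054) (S (nat_lit 21529) (S (nat_lit 37335) (S (nat_lit 57024) (L (nat_lit 19164303))
(L (nat_lit 6024742)))
(L (nat_lit 20343910)))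
(L (nat_lit 22555456)))
(S (nat_lit 40818) (S (nat_lit 37302) (S (nat_lit 1715) (L (nat_lit 19303238))
(L (nat_lit 9852737)))
(L (nat_lit 20726112)))
(L (nat_lit 25690482)))))
(S (nat_lit 41519) (S (nat_lit 1047) (S (nat_lit 21783) (S (nat_lit 57024) (S (nat_lit 20798) (S (nat_lit 28576) (S (nat_lit 15334) (S (nat_lit 54884) (S (nat_lit 37291) (S (nat_lit 21043) (L (nat_lit 28758187))
(L (nat_lit 6853213)))
(L (nat_lit 10389200)))
(L (nat_lit 12097208)))
(L (nat_lit 17615170)))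
(L (nat_lit 9626316)))
(L (nat_lit 5818619)))
(L (nat_lit 13342747)))
(S (nat_lit 53854) (L (nat_lit 4965724))
(L (nat_lit 4774140))))
(S (nat_lit 20811) (S (nat_lit 22916) (L (nat_lit 20423552))
(S (nat_lit 41304) (L (nat_lit 576891))
(L (nat_lit 9145819))))
(S (nat_lit 40575) (S (nat_lit 41547) (S (nat_lit 15334) (S (nat_lit 54884) (S (nat_lit 40790) (L (nat_lit 3399472))
(L (nat_lit 27624048)))
(L (nat_lit 27999428)))
(S (nat_lit 28484) (L (nat_lit 18795689))
(L (nat_lit 8107163))))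
(S (nat_lit 46701) (L (nat_lit 10602388))
(L (nat_lit 8471197))))
(L (nat_lit 25222634)))))
(L (nat_lit 25215590)))))
(S (nat_lit 50510) (S (nat_lit 1726) (S (nat_lit 40807) (S (nat_lit 5686) (L (nat_lit 3714996))
(S (nat_lit 54884) (S (nat_lit 35087) (S (nat_lit 57066) (S (nat_lit 41293) (L (nat_lit 30097665))
(L (nat_lit 27369039)))
(L (nat_lit 27381103)))
(L (nat_lit 12603306)))
(L (nat_lit 4483821))))
(L (nat_lit 27349262)))
(S (nat_lit 21490) (S (nat_lit 1036) (S (nat_lit 27525) (L (nat_lit 6073005))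
(S (nat_lit 54884) (S (nat_lit 1732) (S (nat_lit 49920) (L (nat_lit 26357170))
(L (nat_lit 10576494)))
(L (nat_lit 20275680)))
(L (nat_lit 13721812))))
(S (nat_lit 20800) (S (nat_lit 1765) (S (nat_lit 54884) (S (nat_lit 57024) (S (nat_lit 54862) (L (nat_lit 10501725))
(L (nat_lit 4743507)))
(L (nat_lit 4758205)))
(L (nat_lit 4776619)))
(L (nat_lit 19442432)))
(S (nat_lit 40564) (S (nat_lit 57086) (S (nat_lit 40805) (L (nat_lit 11031707))
(L (nat_lit 27791047)))
(L (nat_lit 12407950)))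
(L (nat_lit 25409685)))))
(S (nat_lit 41254) (S (nat_lit 1279) (S (nat_lit 21529) (S (nat_lit 20800) (S (nat_lit 15351) (L (nat_lit 12096093))
(L (nat_lit 22309006)))
(L (nat_lit 5553045)))
(S (nat_lit 22412) (L (nat_lit 5647218))
(L (nat_lit 6011722))))
(S (nat_lit 18322) (S (nat_lit 56961) (L (nat_lit 9360559))
(L (nat_lit 20177376)))
(L (nat_lit 20506795))))
(L (nat_lit 25240117)))))
(L (nat_lit 25278707)))))
(L (nat_lit 25713766)))))
(L (nat_lit 25304815)))))
(L (nat_lit 25478817)))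

theorem rb246_0_8 : run 4 lb246 [] tb246_0_8 kb246 [0, 2008, 50488] [8790, 28554] = true := by
  decide +kernel

noncomputable def tb179_1 : Tr :=
(S (nat_lit 9044) (S (nat_lit 10987) (S (nat_lit 13687) (S (nat_lit 13418) (S (nat_lit 8584) (S (nat_lit 9313) (S (nat_lit 8315) (S (nat_lit 7342) (S (nat_lit 6829) (L (nat_lit 12692311))
(L (nat_lit 13858405)))
(L (nat_lit 21361154)))
(L (nat_lit 12767112)))
(L (nat_lit 23082921)))
(S (nat_lit 28348) (S (nat_lit 51216) (S (nat_lit 26627) (S (nat_lit 40281) (S (nat_lit 19764) (L (nat_lit 18116161))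
(L (nat_lit 14698748)))
(L (nat_lit 23078429)))
(L (nat_lit 10154433)))
(L (nat_lit 13472424)))
(S (nat_lit 48112) (S (nat_lit 6827) (S (nat_lit 31452) (S (nat_lit 50717) (L (nat_lit 13407849))
(L (nat_lit 22914593)))
(L (nat_lit 30683809)))
(S (nat_lit 13121) (L (nat_lit 6307450))
(L (nat_lit 6706205))))
(L (nat_lit 25251367)))))
(S (nat_lit 33182) (S (nat_lit 7116) (S (nat_lit 39580) (S (nat_lit 0) (S (nat_lit 8806) (S (nat_lit 46124) (L (nat_lit 28426583))
(L (nat_lit 12472837)))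
(L (nat_lit 8307427)))
(L (nat_lit 7130157)))
(L (nat_lit 23159118)))
(L (nat_lit 21052761)))
(S (nat_lit 52946) (S (nat_lit 7116) (S (nat_lit 19816) (S (nat_lit 7098) (S (nat_lit 7290) (S (nat_lit 6845) (S (nat_lit 6827) (L (nat_lit 30419534))
(L (nat_lit 23269233)))
(L (nat_lit 23078769)))
(L (nat_lit 26227336)))
(L (nat_lit 23970117)))
(L (nat_lit 21927246)))
(L (nat_lit 23149912)))
(L (nat_lit 25182546)))))
(S (nat_lit 33451) (S (nat_lit 6634) (S (nat_lit 17300) (S (nat_lit 8806) (S (nat_lit 7098) (S (nat_lit 44209) (S (nat_lit 11478) (S (nat_lit 6845) (S (nat_lit 11189) (S (nat_lit 35349) (S (nat_lit 30699) (L (nat_lit 11069459))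
(L (nat_lit 3830310)))
(L (nat_lit 23654503)))
(L (nat_lit 7832285)))
(L (nat_lit 7358941)))
(L (nat_lit 26908166)))
(L (nat_lit 1786792)))
(L (nat_lit 21825901)))
(L (nat_lit 26595874)))
(S (nat_lit 37064) (S (nat_lit 11688) (S (nat_lit 44706) (S (nat_lit 44209) (L (nat_lit 1517240))
(L (nat_lit 1856040)))
(L (nat_lit 23867585)))
(L (nat_lit 1882792)))
(S (nat_lit 56828) (S (nat_lit 7833) (S (nat_lit 6827) (L (nat_lit 26852704))
(L (nat_lit 7795427)))
(L (nat_lit 21048141)))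
(L (nat_lit 25408692)))))
(S (nat_lit 26398) (S (nat_lit 17257) (S (nat_lit 10274) (L (nat_lit 21859881))
(L (nat_lit 26849352)))
(S (nat_lit 37021) (S (nat_lit 7116) (S (nat_lit 43926) (S (nat_lit 7544) (S (nat_lit 44209) (L (nat_lit 9867154))
(L (nat_lit 1533545)))
(L (nat_lit 23357825)))
(L (nat_lit 15296832)))
(L (nat_lit 7891621)))
(S (nat_lit 56785) (S (nat_lit 20800) (S (nat_lit 51710) (L (nat_lit 7048635))
(L (nat_lit 2632595)))
(L (nat_lit 14790264)))
(L (nat_lit 25529964)))))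
(S (nat_lit 46162) (S (nat_lit 5120) (S (nat_lit 9649) (L (nat_lit 4572859))
(S (nat_lit 26353) (S (nat_lit 11478) (S (nat_lit 13418) (L (nat_lit 16798630))
(L (nat_lit 26936657)))
(L (nat_lit 21390375)))
(L (nat_lit 16017463))))
(S (nat_lit 24884) (S (nat_lit 543) (S (nat_lit 8315) (S (nat_lit 35349) (L (nat_lit 30131270))
(L (nat_lit 9466446)))
(L (nat_lit 21467046)))
(L (nat_lit 6867779)))
(S (nat_lit 44648) (S (nat_lit 36810) (S (nat_lit 35349) (L (nat_lit 18904302))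
(L (nat_lit 23861358)))
(L (nat_lit 23867531)))
(L (nat_lit 25220396)))))
(L (nat_lit 25742344)))))
(S (nat_lit 53215) (S (nat_lit 5400) (S (nat_lit 7833) (S (nat_lit 7116) (S (nat_lit 7098) (S (nat_lit 8514) (S (nat_lit 13418) (S (nat_lit 21011) (S (nat_lit 17429) (L (nat_lit 2513240))
(L (nat_lit 21795368)))
(L (nat_lit 15471830)))
(L (nat_lit 26947107)))
(L (nat_lit 14422388)))
(L (nat_lit 26970630)))
(L (nat_lit 6318701)))
(S (nat_lit 27597) (S (nat_lit 55342) (S (nat_lit 7116) (S (nat_lit 51710) (L (nat_lit 19425634))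
(L (nat_lit 600876)))
(L (nat_lit 7901880)))
(L (nat_lit 715208)))
(S (nat_lit 47361) (S (nat_lit 7116) (S (nat_lit 19764) (S (nat_lit 7098) (S (nat_lit 28278) (S (nat_lit 6845) (S (nat_lit 543) (S (nat_lit 24445) (S (nat_lit 51216) (L (nat_lit 22194065))
(L (nat_lit 8073405)))
(L (nat_lit 350093)))
(L (nat_lit 8309187)))
(L (nat_lit 20981584)))
(L (nat_lit 19278725)))
(L (nat_lit 21840197)))
(L (nat_lit 30650977)))
(L (nat_lit 6853305)))
(L (nat_lit 25693928)))))
(S (nat_lit 25164) (S (nat_lit 11254) (S (nat_lit 7609) (S (nat_lit 20307) (L (nat_lit 12905554))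
(L (nat_lit 14700294)))
(L (nat_lit 21295552)))
(S (nat_lit 31018) (S (nat_lit 48042) (S (nat_lit 36810) (S (nat_lit 40775) (L (nat_lit 16887416))
(L (nat_lit 18655383)))
(L (nat_lit 750958)))
(S (nat_lit 55972) (L (nat_lit 26543729))
(L (nat_lit 17935286))))
(S (nat_lit 50782) (L (nat_lit 21335952))
(L (nat_lit 25646341)))))
(S (nat_lit 44928) (S (nat_lit 17100) (L (nat_lit 7460412))
(S (nat_lit 36810) (S (nat_lit 52) (L (nat_lit 13421891))
(L (nat_lit 26336591)))
(L (nat_lit 18631753))))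
(L (nat_lit 25632914)))))
(L (nat_lit 25544260)))))
(S (nat_lit 30751) (S (nat_lit 5638) (S (nat_lit 8077) (S (nat_lit 15377) (S (nat_lit 13099) (L (nat_lit 15650114))
(S (nat_lit 25153) (S (nat_lit 37064) (L (nat_lit 30837355))
(L (nat_lit 8290834)))
(L (nat_lit 962285))))
(S (nat_lit 35141) (S (nat_lit 27054) (S (nat_lit 47793) (S (nat_lit 7833) (S (nat_lit 28550) (S (nat_lit 31735) (L (nat_lit 30089328))
(L (nat_lit 30465360)))
(L (nat_lit 24437189)))
(L (nat_lit 3781482)))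
(L (nat_lit 8543117)))
(L (nat_lit 2388685)))
(S (nat_lit 54905) (S (nat_lit 40071) (S (nat_lit 0) (L (nat_lit 30023043))
(L (nat_lit 19673281)))
(L (nat_lit 24916229)))
(L (nat_lit 25768043)))))
(S (nat_lit 27841) (S (nat_lit 10274) (S (nat_lit 32944) (S (nat_lit 15377) (S (nat_lit 36810) (S (nat_lit 44706) (L (nat_lit 8246413))
(L (nat_lit 10236577)))
(L (nat_lit 20721739)))
(L (nat_lit 26816587)))
(L (nat_lit 20754505)))
(S (nat_lit 30038) (S (nat_lit 26360) (S (nat_lit 6863) (L (nat_lit 3939827))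
(L (nat_lit 12689269)))
(L (nat_lit 18952537)))
(S (nat_lit 49802) (S (nat_lit 50782) (S (nat_lit 48771) (L (nat_lit 22950025))
(L (nat_lit 27439815)))
(L (nat_lit 3847048)))
(L (nat_lit 25446948)))))
(S (nat_lit 47605) (S (nat_lit 52) (S (nat_lit 52688) (S (nat_lit 45112) (L (nat_lit 21369148))
(L (nat_lit 12343713)))
(L (nat_lit 5561264)))
(S (nat_lit 19816) (S (nat_lit 47072) (S (nat_lit 27106) (S (nat_lit 13368) (L (nat_lit 22096348))
(L (nat_lit 6370167)))
(L (nat_lit 19000558)))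
(L (nat_lit 17461571)))
(S (nat_lit 39580) (S (nat_lit 47072) (S (nat_lit 27106) (L (nat_lit 29644322))
(L (nat_lit 19677474)))
(L (nat_lit 20822339)))
(L (nat_lit 25242133)))))
(L (nat_lit 25865326)))))
(S (nat_lit 25402) (S (nat_lit 7609) (S (nat_lit 6827) (S (nat_lit 9243) (S (nat_lit 530) (S (nat_lit 15814) (S (nat_lit 15377) (L (nat_lit 6753917))
(L (nat_lit 26878031)))
(L (nat_lit 22129114)))
(L (nat_lit 26871153)))
(S (nat_lit 33125) (L (nat_lit 6976001))
(L (nat_lit 6418128))))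
(S (nat_lit 26591) (S (nat_lit 5389) (L (nat_lit 24415709))
(S (nat_lit 51543) (L (nat_lit 21892486))
(L (nat_lit 8842949))))
(S (nat_lit 46355) (S (nat_lit 51216) (S (nat_lit 8315) (S (nat_lit 25164) (L (nat_lit 18917295))
(L (nat_lit 7071823)))
(L (nat_lit 14392227)))
(L (nat_lit 8302772)))
(L (nat_lit 25570323)))))
(S (nat_lit 27373) (S (nat_lit 13160) (S (nat_lit 6822) (S (nat_lit 7342) (L (nat_lit 806223))
(L (nat_lit 1517495)))
(L (nat_lit 7015833)))
(S (nat_lit 32924) (S (nat_lit 34714) (L (nat_lit 7080501))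
(S (nat_lit 49802) (S (nat_lit 31946) (S (nat_lit 24942) (L (nat_lit 28391794))
(L (nat_lit 14380384)))
(L (nat_lit 24907273)))
(L (nat_lit 6917528))))
(S (nat_lit 52688) (S (nat_lit 13418) (L (nat_lit 22809967))
(L (nat_lit 13928370)))
(L (nat_lit 25475124)))))
(S (nat_lit 47137) (S (nat_lit 15585) (S (nat_lit 47605) (L (nat_lit 6808660))
(L (nat_lit 7098851)))
(S (nat_lit 35349) (S (nat_lit 46626) (S (nat_lit 10711) (S (nat_lit 24162) (S (nat_lit 26353) (L (nat_lit 23193031))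
(L (nat_lit 16050883)))
(L (nat_lit 16805234)))
(L (nat_lit 17583457)))
(L (nat_lit 2419372)))
(S (nat_lit 55113) (S (nat_lit 9243) (L (nat_lit 1469094))
(L (nat_lit 21195952)))
(L (nat_lit 25792934)))))
(L (nat_lit 25218414)))))
(S (nat_lit 45166) (S (nat_lit 15814) (S (nat_lit 26398) (S (nat_lit 6827) (S (nat_lit 46626) (S (nat_lit 11478) (S (nat_lit 36835) (S (nat_lit 14856) (S (nat_lit 26586) (L (nat_lit 15871923))
(L (nat_lit 24986695)))
(L (nat_lit 24359842)))
(L (nat_lit 7855224)))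
(L (nat_lit 7759587)))
(L (nat_lit 27415917)))
(S (nat_lit 49371) (L (nat_lit 4943184))
(L (nat_lit 23889386))))
(S (nat_lit 55682) (S (nat_lit 58231) (L (nat_lit 16789396))
(L (nat_lit 23855440)))
(L (nat_lit 24309161))))
(S (nat_lit 35578) (S (nat_lit 6863) (S (nat_lit 40058) (S (nat_lit 34849) (L (nat_lit 16424865))
(L (nat_lit 16510241)))
(L (nat_lit 23897104)))
(S (nat_lit 26627) (S (nat_lit 50717) (S (nat_lit 54905) (S (nat_lit 8315) (S (nat_lit 46117) (S (nat_lit 56828) (S (nat_lit 50782) (L (nat_lit 12757627))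
(L (nat_lit 3846029)))
(L (nat_lit 243384)))
(L (nat_lit 20035433)))
(L (nat_lit 26465393)))
(L (nat_lit 4809997)))
(S (nat_lit 53325) (L (nat_lit 14880565))
(L (nat_lit 14770090))))
(S (nat_lit 46391) (S (nat_lit 10935) (L (nat_lit 9984929))
(L (nat_lit 23862753)))
(L (nat_lit 25860547)))))
(S (nat_lit 55342) (S (nat_lit 8584) (S (nat_lit 46373) (L (nat_lit 10373633))
(L (nat_lit 17098305)))
(S (nat_lit 28348) (S (nat_lit 13687) (L (nat_lit 13347585))
(L (nat_lit 24685473)))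
(S (nat_lit 48112) (S (nat_lit 2069) (L (nat_lit 14899108))
(S (nat_lit 48522) (S (nat_lit 20294) (S (nat_lit 6827) (S (nat_lit 14856) (L (nat_lit 14330657))
(L (nat_lit 12398645)))
(L (nat_lit 6950736)))
(L (nat_lit 14999638)))
(L (nat_lit 1732134))))
(L (nat_lit 25251086)))))
(L (nat_lit 25869481)))))
(L (nat_lit 25548941)))))
(S (nat_lit 50515) (S (nat_lit 8806) (S (nat_lit 8584) (S (nat_lit 2343) (S (nat_lit 36810) (L (nat_lit 12595127))
(L (nat_lit 13391947)))
(S (nat_lit 8514) (S (nat_lit 6822) (S (nat_lit 13617) (L (nat_lit 28843094))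
(L (nat_lit 13412067)))
(L (nat_lit 21801348)))
(L (nat_lit 21146009))))
(S (nat_lit 28348) (S (nat_lit 6822) (S (nat_lit 33451) (S (nat_lit 44706) (S (nat_lit 31735) (L (nat_lit 28741970))
(L (nat_lit 24936781)))
(L (nat_lit 15489217)))
(L (nat_lit 9228833)))
(S (nat_lit 42883) (L (nat_lit 24347406))
(L (nat_lit 7130532))))
(S (nat_lit 48112) (S (nat_lit 5591) (S (nat_lit 27584) (S (nat_lit 34849) (L (nat_lit 14904932))
(L (nat_lit 31170945)))
(L (nat_lit 19667025)))
(S (nat_lit 25355) (S (nat_lit 8077) (S (nat_lit 38562) (L (nat_lit 5490297))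
(L (nat_lit 15605783)))
(L (nat_lit 12802170)))
(S (nat_lit 45119) (S (nat_lit 17071) (S (nat_lit 6822) (S (nat_lit 24570) (L (nat_lit 6436506))
(L (nat_lit 7868026)))
(L (nat_lit 21801348)))
(L (nat_lit 14881370)))
(L (nat_lit 25741568)))))
(L (nat_lit 25805834)))))
(S (nat_lit 28570) (S (nat_lit 11478) (S (nat_lit 17071) (S (nat_lit 6827) (S (nat_lit 5120) (S (nat_lit 13180) (S (nat_lit 47843) (L (nat_lit 1496348))
(L (nat_lit 17393768)))
(L (nat_lit 26816616)))
(L (nat_lit 807150)))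
(S (nat_lit 51073) (L (nat_lit 22450520))
(L (nat_lit 21400892))))
(S (nat_lit 36835) (S (nat_lit 6827) (S (nat_lit 45166) (S (nat_lit 5120) (S (nat_lit 39580) (L (nat_lit 9058361))
(L (nat_lit 6085999)))
(L (nat_lit 807150)))
(L (nat_lit 7768980)))
(L (nat_lit 23858635)))
(S (nat_lit 56599) (S (nat_lit 6829) (S (nat_lit 15678) (L (nat_lit 6477580))
(S (nat_lit 26609) (S (nat_lit 46391) (S (nat_lit 26862) (S (nat_lit 30953) (S (nat_lit 37064) (S (nat_lit 46640) (S (nat_lit 48771) (S (nat_lit 8111) (L (nat_lit 8240800))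
(S (nat_lit 8786) (S (nat_lit 10661) (L (nat_lit 1390301))
(S (nat_lit 15464) (L (nat_lit 4472408))
(S (nat_lit 46644) (S (nat_lit 26360) (S (nat_lit 30699) (L (nat_lit 8404572))
(L (nat_lit 31135791)))
(L (nat_lit 31169029)))
(L (nat_lit 20279309)))))
(S (nat_lit 11891) (L (nat_lit 5496314))
(L (nat_lit 15002308)))))
(L (nat_lit 15853191)))
(L (nat_lit 20309376)))
(L (nat_lit 12815099)))
(L (nat_lit 8903769)))
(L (nat_lit 15461733)))
(L (nat_lit 1628442)))
(L (nat_lit 9619929))))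
(S (nat_lit 50351) (L (nat_lit 7788698))
(L (nat_lit 21801070))))
(L (nat_lit 25275830)))))
(S (nat_lit 31242) (S (nat_lit 7098) (S (nat_lit 26627) (S (nat_lit 50717) (S (nat_lit 25164) (L (nat_lit 12370964))
(L (nat_lit 17616010)))
(L (nat_lit 3830315)))
(L (nat_lit 25014561)))
(S (nat_lit 26862) (S (nat_lit 15814) (S (nat_lit 17046) (L (nat_lit 28399920))
(L (nat_lit 16949015)))
(S (nat_lit 35578) (S (nat_lit 44928) (S (nat_lit 46162) (L (nat_lit 22309281))
(L (nat_lit 17583299)))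
(L (nat_lit 9898930)))
(S (nat_lit 55342) (S (nat_lit 40281) (L (nat_lit 7361359))
(L (nat_lit 10054144)))
(L (nat_lit 25636019)))))
(S (nat_lit 46626) (S (nat_lit 9200) (L (nat_lit 926320))
(L (nat_lit 11065089)))
(L (nat_lit 25444963)))))
(S (nat_lit 51006) (S (nat_lit 13687) (S (nat_lit 44209) (S (nat_lit 530) (S (nat_lit 37021) (L (nat_lit 16864637))
(L (nat_lit 12881846)))
(L (nat_lit 13475926)))
(L (nat_lit 27378248)))
(S (nat_lit 33451) (S (nat_lit 44706) (S (nat_lit 6863) (S (nat_lit 6829) (L (nat_lit 12964769))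
(L (nat_lit 7127154)))
(L (nat_lit 21084011)))
(L (nat_lit 15489098)))
(S (nat_lit 53215) (S (nat_lit 254) (S (nat_lit 13617) (L (nat_lit 12774741))
(L (nat_lit 8149379)))
(L (nat_lit 8147025)))
(L (nat_lit 25741320)))))
(L (nat_lit 25859345)))))
(S (nat_lit 48334) (S (nat_lit 7098) (S (nat_lit 6845) (S (nat_lit 7544) (S (nat_lit 7116) (S (nat_lit 254) (L (nat_lit 22231971))
(L (nat_lit 6718076)))
(L (nat_lit 21497177)))
(L (nat_lit 21397852)))
(S (nat_lit 26609) (S (nat_lit 543) (L (nat_lit 1365869))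
(L (nat_lit 26287789)))
(S (nat_lit 46373) (S (nat_lit 52708) (L (nat_lit 4673417))
(L (nat_lit 21116185)))
(L (nat_lit 25643265)))))
(S (nat_lit 26862) (S (nat_lit 254) (S (nat_lit 44928) (S (nat_lit 46644) (S (nat_lit 28079) (L (nat_lit 20134754))
(L (nat_lit 803432)))
(L (nat_lit 18621091)))
(L (nat_lit 1854799)))
(S (nat_lit 45338) (L (nat_lit 18630727))
(L (nat_lit 14418166))))
(S (nat_lit 46626) (S (nat_lit 46373) (S (nat_lit 11189) (S (nat_lit 46357) (S (nat_lit 36835) (S (nat_lit 26398) (S (nat_lit 29007) (S (nat_lit 7112) (S (nat_lit 31242) (S (nat_lit 56828) (S (nat_lit 26627) (S (nat_lit 8861) (L (nat_lit 4608313))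
(S (nat_lit 13743) (L (nat_lit 22361277))
(S (nat_lit 47072) (L (nat_lit 29760533))
(L (nat_lit 27335061)))))
(L (nat_lit 5823242)))
(L (nat_lit 21895277)))
(L (nat_lit 8406804)))
(L (nat_lit 21897328)))
(L (nat_lit 18571459)))
(L (nat_lit 15880009)))
(L (nat_lit 18111613)))
(L (nat_lit 11987557)))
(S (nat_lit 52073) (L (nat_lit 12289965))
(L (nat_lit 23279363))))
(S (nat_lit 57928) (S (nat_lit 46945) (L (nat_lit 6952717))
(L (nat_lit 13363270)))
(L (nat_lit 12316688))))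
(L (nat_lit 25307702)))))
(L (nat_lit 25494092)))))
(L (nat_lit 25253320)))))
(S (nat_lit 28808) (S (nat_lit 5638) (S (nat_lit 5120) (S (nat_lit 17257) (S (nat_lit 12182) (S (nat_lit 6822) (S (nat_lit 8514) (S (nat_lit 6829) (S (nat_lit 21011) (L (nat_lit 23621674))
(L (nat_lit 16443527)))
(L (nat_lit 7114290)))
(L (nat_lit 3940044)))
(S (nat_lit 26532) (L (nat_lit 26761413))
(L (nat_lit 4991692))))
(S (nat_lit 31946) (S (nat_lit 35195) (S (nat_lit 32924) (L (nat_lit 959212))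
(L (nat_lit 10390930)))
(S (nat_lit 54905) (S (nat_lit 6822) (S (nat_lit 6829) (L (nat_lit 13831092))
(L (nat_lit 7114351)))
(L (nat_lit 21793997)))
(L (nat_lit 4990573))))
(S (nat_lit 51710) (S (nat_lit 51006) (S (nat_lit 6589) (S (nat_lit 15085) (S (nat_lit 6827) (S (nat_lit 28550) (L (nat_lit 29377782))
(L (nat_lit 24921130)))
(L (nat_lit 7737171)))
(L (nat_lit 13273467)))
(L (nat_lit 13490371)))
(L (nat_lit 19951014)))
(L (nat_lit 25312467)))))
(S (nat_lit 37021) (S (nat_lit 11688) (S (nat_lit 10935) (S (nat_lit 0) (S (nat_lit 46642) (S (nat_lit 8514) (S (nat_lit 753) (L (nat_lit 13688747))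
(L (nat_lit 20749484)))
(L (nat_lit 3972500)))
(L (nat_lit 11288289)))
(L (nat_lit 8127052)))
(L (nat_lit 793231)))
(S (nat_lit 31452) (S (nat_lit 24445) (S (nat_lit 27106) (S (nat_lit 6863) (S (nat_lit 17071) (L (nat_lit 19261923))
(L (nat_lit 22062523)))
(L (nat_lit 12702570)))
(L (nat_lit 3941998)))
(S (nat_lit 34045) (L (nat_lit 5971759))
(L (nat_lit 9158744))))
(S (nat_lit 51216) (S (nat_lit 28631) (L (nat_lit 9581211))
(S (nat_lit 46642) (S (nat_lit 10935) (S (nat_lit 6863) (S (nat_lit 44706) (L (nat_lit 18618947))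
(L (nat_lit 27505281)))
(L (nat_lit 26555969)))
(L (nat_lit 16535776)))
(L (nat_lit 22815791))))
(L (nat_lit 25440438)))))
(S (nat_lit 56785) (S (nat_lit 319) (S (nat_lit 28079) (S (nat_lit 44420) (S (nat_lit 35141) (L (nat_lit 6754197))
(L (nat_lit 20254265)))
(L (nat_lit 13405835)))
(L (nat_lit 19358913)))
(S (nat_lit 20083) (S (nat_lit 1790) (L (nat_lit 9188069))
(S (nat_lit 26586) (S (nat_lit 7290) (S (nat_lit 47843) (L (nat_lit 14472515))
(L (nat_lit 9224245)))
(L (nat_lit 9220116)))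
(L (nat_lit 5648092))))
(S (nat_lit 39847) (S (nat_lit 26586) (S (nat_lit 32924) (S (nat_lit 26880) (S (nat_lit 49802) (L (nat_lit 14972513))
(L (nat_lit 27954509)))
(L (nat_lit 19707975)))
(L (nat_lit 30871275)))
(L (nat_lit 31133063)))
(L (nat_lit 25930926)))))
(L (nat_lit 25929249)))))
(S (nat_lit 24884) (S (nat_lit 530) (S (nat_lit 6845) (S (nat_lit 37021) (S (nat_lit 44420) (L (nat_lit 29370839))
(L (nat_lit 23358508)))
(L (nat_lit 4516406)))
(S (nat_lit 26609) (S (nat_lit 33182) (S (nat_lit 13368) (S (nat_lit 11465) (L (nat_lit 29852359))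
(L (nat_lit 6908354)))
(L (nat_lit 8096217)))
(L (nat_lit 9195568)))
(S (nat_lit 46373) (S (nat_lit 13418) (S (nat_lit 56828) (L (nat_lit 26478069))
(L (nat_lit 13882208)))
(S (nat_lit 26166) (S (nat_lit 56009) (L (nat_lit 26651232))
(L (nat_lit 12963682)))
(L (nat_lit 24416177))))
(L (nat_lit 25633973)))))
(S (nat_lit 20294) (S (nat_lit 15085) (S (nat_lit 11478) (S (nat_lit 254) (L (nat_lit 12226351))
(L (nat_lit 6705953)))
(L (nat_lit 5937689)))
(S (nat_lit 34849) (S (nat_lit 33182) (S (nat_lit 28079) (L (nat_lit 17093409))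
(L (nat_lit 16488571)))
(L (nat_lit 16044155)))
(S (nat_lit 54613) (S (nat_lit 39528) (S (nat_lit 53215) (L (nat_lit 24906151))
(L (nat_lit 17584481)))
(L (nat_lit 5840813)))
(L (nat_lit 25860207)))))
(S (nat_lit 40058) (S (nat_lit 13368) (S (nat_lit 30751) (S (nat_lit 44209) (S (nat_lit 46626) (L (nat_lit 26978691))
(L (nat_lit 780621)))
(L (nat_lit 3953901)))
(L (nat_lit 24909165)))
(S (nat_lit 33132) (S (nat_lit 10935) (S (nat_lit 48314) (L (nat_lit 29788373))
(L (nat_lit 5551029)))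
(L (nat_lit 16548551)))
(S (nat_lit 52896) (S (nat_lit 27821) (S (nat_lit 30038) (L (nat_lit 24513382))
(L (nat_lit 24294312)))
(L (nat_lit 3940048)))
(L (nat_lit 25386468)))))
(L (nat_lit 25678923)))))
(S (nat_lit 44648) (S (nat_lit 530) (S (nat_lit 319) (S (nat_lit 6827) (S (nat_lit 6863) (S (nat_lit 30246) (L (nat_lit 23111568))
(L (nat_lit 19841129)))
(L (nat_lit 12702571)))
(L (nat_lit 13242186)))
(S (nat_lit 20083) (S (nat_lit 13617) (S (nat_lit 9243) (L (nat_lit 23109390))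
(L (nat_lit 5466830)))
(L (nat_lit 6039277)))
(S (nat_lit 39847) (S (nat_lit 33182) (S (nat_lit 15085) (S (nat_lit 27821) (L (nat_lit 28417430))
(L (nat_lit 24907176)))
(L (nat_lit 13408374)))
(L (nat_lit 20713002)))
(L (nat_lit 25221609)))))
(S (nat_lit 20294) (S (nat_lit 10482) (S (nat_lit 46818) (L (nat_lit 2413112))
(L (nat_lit 9498038)))
(S (nat_lit 30246) (S (nat_lit 13617) (S (nat_lit 52) (S (nat_lit 51006) (L (nat_lit 6306491))
(L (nat_lit 13209383)))
(L (nat_lit 13458755)))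
(L (nat_lit 6011654)))
(S (nat_lit 50010) (S (nat_lit 15814) (S (nat_lit 26609) (S (nat_lit 28079) (S (nat_lit 51216) (L (nat_lit 24160016))
(L (nat_lit 7902907)))
(L (nat_lit 15439995)))
(L (nat_lit 9452283)))
(L (nat_lit 14855866)))
(L (nat_lit 25759950)))))
(S (nat_lit 40058) (S (nat_lit 254) (S (nat_lit 28029) (S (nat_lit 30699) (L (nat_lit 8409500))
(L (nat_lit 24329274)))
(L (nat_lit 30843926)))
(S (nat_lit 20018) (S (nat_lit 10482) (S (nat_lit 48334) (S (nat_lit 33451) (S (nat_lit 50717) (L (nat_lit 29004203))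
(L (nat_lit 15570571)))
(L (nat_lit 9519704)))
(L (nat_lit 11272599)))
(L (nat_lit 14870185)))
(S (nat_lit 39782) (S (nat_lit 6589) (S (nat_lit 28758) (L (nat_lit 24350606))
(L (nat_lit 5787930)))
(L (nat_lit 7045562)))
(L (nat_lit 25793745)))))
(L (nat_lit 25679202)))))
(L (nat_lit 25219374)))))
(S (nat_lit 25402) (S (nat_lit 9243) (S (nat_lit 7114) (S (nat_lit 15585) (S (nat_lit 56599) (S (nat_lit 44928) (S (nat_lit 11189) (L (nat_lit 24229671))
(L (nat_lit 18654849)))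
(L (nat_lit 13387848)))
(L (nat_lit 14441514)))
(S (nat_lit 35349) (S (nat_lit 56785) (S (nat_lit 28758) (S (nat_lit 30246) (L (nat_lit 17565974))
(L (nat_lit 24913378)))
(L (nat_lit 12656564)))
(L (nat_lit 14605537)))
(S (nat_lit 55113) (S (nat_lit 13617) (S (nat_lit 35578) (S (nat_lit 8057) (L (nat_lit 13510273))
(L (nat_lit 10336900)))
(L (nat_lit 13364329)))
(L (nat_lit 7761637)))
(L (nat_lit 25351591)))))
(S (nat_lit 26878) (S (nat_lit 4681) (S (nat_lit 52896) (S (nat_lit 26353) (S (nat_lit 50010) (L (nat_lit 17868474))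
(L (nat_lit 3501492)))
(L (nat_lit 24916195)))
(L (nat_lit 19131405)))
(S (nat_lit 24445) (S (nat_lit 6651) (L (nat_lit 8141473))
(S (nat_lit 39528) (S (nat_lit 20800) (S (nat_lit 31018) (L (nat_lit 3942839))
(L (nat_lit 8441773)))
(L (nat_lit 22249880)))
(L (nat_lit 24374284))))
(S (nat_lit 44209) (S (nat_lit 32924) (S (nat_lit 0) (S (nat_lit 28079) (L (nat_lit 28905772))
(L (nat_lit 24603752)))
(L (nat_lit 6893625)))
(L (nat_lit 15851764)))
(L (nat_lit 25928160)))))
(S (nat_lit 46642) (S (nat_lit 8584) (S (nat_lit 17257) (S (nat_lit 48841) (S (nat_lit 11189) (S (nat_lit 46391) (S (nat_lit 56599) (L (nat_lit 8043610))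
(L (nat_lit 14296121)))
(L (nat_lit 17140531)))
(L (nat_lit 7134350)))
(L (nat_lit 12408225)))
(S (nat_lit 56677) (L (nat_lit 20988218))
(L (nat_lit 10238561))))
(S (nat_lit 28348) (S (nat_lit 46391) (S (nat_lit 35578) (S (nat_lit 11189) (S (nat_lit 25153) (S (nat_lit 17257) (L (nat_lit 16116449))
(L (nat_lit 10142561)))
(L (nat_lit 12059352)))
(L (nat_lit 15958803)))
(L (nat_lit 13298913)))
(L (nat_lit 22574369)))
(S (nat_lit 48112) (S (nat_lit 48841) (S (nat_lit 753) (S (nat_lit 15085) (S (nat_lit 46391) (S (nat_lit 7544) (L (nat_lit 11984737))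
(L (nat_lit 23357825)))
(L (nat_lit 20311489)))
(L (nat_lit 24550145)))
(L (nat_lit 1680953)))
(L (nat_lit 16427777)))
(L (nat_lit 25870529)))))
(L (nat_lit 25530959)))))
(S (nat_lit 29007) (S (nat_lit 6822) (S (nat_lit 5178) (S (nat_lit 30246) (S (nat_lit 35349) (L (nat_lit 8941685))
(L (nat_lit 18614918)))
(L (nat_lit 18614484)))
(S (nat_lit 24942) (S (nat_lit 753) (S (nat_lit 39847) (L (nat_lit 9886497))
(L (nat_lit 1846958)))
(L (nat_lit 14440673)))
(S (nat_lit 44706) (S (nat_lit 10536) (L (nat_lit 5033386))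
(S (nat_lit 14856) (S (nat_lit 47585) (L (nat_lit 29787814))
(L (nat_lit 5840314)))
(L (nat_lit 24586146))))
(L (nat_lit 25311880)))))
(S (nat_lit 26586) (S (nat_lit 5591) (S (nat_lit 27308) (S (nat_lit 44917) (S (nat_lit 28348) (L (nat_lit 4648651))
(L (nat_lit 24208935)))
(L (nat_lit 15066228)))
(S (nat_lit 30149) (L (nat_lit 5032269))
(L (nat_lit 15425795))))
(S (nat_lit 25355) (S (nat_lit 21221) (L (nat_lit 8411705))
(S (nat_lit 48522) (S (nat_lit 56375) (L (nat_lit 21054214))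
(L (nat_lit 21764239)))
(L (nat_lit 1273398))))
(S (nat_lit 45119) (S (nat_lit 26353) (S (nat_lit 30699) (S (nat_lit 36611) (L (nat_lit 26265223))
(L (nat_lit 30618804)))
(L (nat_lit 31065638)))
(L (nat_lit 24903886)))
(L (nat_lit 25793868)))))
(S (nat_lit 46350) (S (nat_lit 7833) (S (nat_lit 11688) (S (nat_lit 47793) (S (nat_lit 27054) (L (nat_lit 13917025))
(L (nat_lit 30683156)))
(L (nat_lit 9351348)))
(L (nat_lit 9187508)))
(S (nat_lit 27597) (S (nat_lit 48042) (S (nat_lit 26593) (S (nat_lit 32924) (L (nat_lit 19826926))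
(L (nat_lit 30488820)))
(L (nat_lit 19268984)))
(L (nat_lit 8816564)))
(S (nat_lit 47361) (S (nat_lit 753) (S (nat_lit 30246) (S (nat_lit 11254) (L (nat_lit 1718118))
(L (nat_lit 24029357)))
(L (nat_lit 13391913)))
(L (nat_lit 11294861)))
(L (nat_lit 25700406)))))
(L (nat_lit 25412226)))))
(S (nat_lit 48771) (S (nat_lit 8514) (S (nat_lit 50515) (S (nat_lit 5120) (S (nat_lit 7833) (L (nat_lit 22604936))
(L (nat_lit 20997485)))
(L (nat_lit 1856905)))
(S (nat_lit 52294) (L (nat_lit 12464739))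
(L (nat_lit 6076759))))
(S (nat_lit 28278) (S (nat_lit 26353) (S (nat_lit 47072) (S (nat_lit 7116) (L (nat_lit 10186149))
(L (nat_lit 14558228)))
(L (nat_lit 1729929)))
(L (nat_lit 24915977)))
(S (nat_lit 48042) (S (nat_lit 7116) (S (nat_lit 11189) (S (nat_lit 7544) (L (nat_lit 6053102))
(L (nat_lit 9072033)))
(L (nat_lit 4943052)))
(S (nat_lit 26880) (S (nat_lit 753) (S (nat_lit 28079) (S (nat_lit 39528) (L (nat_lit 19941291))
(L (nat_lit 17729126)))
(L (nat_lit 24134875)))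
(L (nat_lit 14440673)))
(S (nat_lit 46644) (S (nat_lit 27054) (S (nat_lit 30699) (L (nat_lit 10228429))
(L (nat_lit 31137313)))
(L (nat_lit 31142209)))
(L (nat_lit 25727348)))))
(L (nat_lit 25822633)))))
(L (nat_lit 25896389)))))
(S (nat_lit 45166) (S (nat_lit 15814) (S (nat_lit 13180) (S (nat_lit 9313) (S (nat_lit 17828) (L (nat_lit 17542264))
(S (nat_lit 40071) (S (nat_lit 28348) (L (nat_lit 24514440))
(L (nat_lit 14700327)))
(L (nat_lit 23862316))))
(S (nat_lit 29077) (S (nat_lit 44706) (S (nat_lit 39528) (S (nat_lit 36810) (L (nat_lit 31071649))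
(L (nat_lit 13391945)))
(L (nat_lit 25067757)))
(L (nat_lit 23390721)))
(S (nat_lit 48841) (S (nat_lit 40564) (S (nat_lit 753) (S (nat_lit 44706) (L (nat_lit 29613573))
(L (nat_lit 13391978)))
(L (nat_lit 13392161)))
(L (nat_lit 8142437)))
(L (nat_lit 25667671)))))
(S (nat_lit 32944) (S (nat_lit 8786) (S (nat_lit 15085) (S (nat_lit 6845) (L (nat_lit 9890467))
(L (nat_lit 23390657)))
(S (nat_lit 29875) (L (nat_lit 6469492))
(L (nat_lit 10275201))))
(S (nat_lit 28550) (S (nat_lit 28348) (S (nat_lit 44706) (S (nat_lit 4398) (L (nat_lit 7418617))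
(L (nat_lit 829843)))
(L (nat_lit 24976896)))
(L (nat_lit 25004238)))
(S (nat_lit 48314) (S (nat_lit 54384) (S (nat_lit 13617) (L (nat_lit 28332459))
(L (nat_lit 24918243)))
(L (nat_lit 9231405)))
(L (nat_lit 25726603)))))
(S (nat_lit 52708) (S (nat_lit 7833) (S (nat_lit 15085) (S (nat_lit 24884) (S (nat_lit 26627) (L (nat_lit 21857767))
(L (nat_lit 9220117)))
(L (nat_lit 21247129)))
(L (nat_lit 26984737)))
(S (nat_lit 27597) (S (nat_lit 47605) (S (nat_lit 45119) (L (nat_lit 24408175))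
(L (nat_lit 24638567)))
(L (nat_lit 6108903)))
(S (nat_lit 47361) (S (nat_lit 44706) (S (nat_lit 28079) (S (nat_lit 6827) (S (nat_lit 8265) (S (nat_lit 4398) (L (nat_lit 28714037))
(L (nat_lit 831858)))
(L (nat_lit 10269252)))
(L (nat_lit 14470155)))
(L (nat_lit 15461633)))
(L (nat_lit 28029281)))
(L (nat_lit 25726324)))))
(L (nat_lit 25515118)))))
(S (nat_lit 35578) (S (nat_lit 7114) (S (nat_lit 7833) (S (nat_lit 30246) (S (nat_lit 44706) (S (nat_lit 34620) (S (nat_lit 13617) (L (nat_lit 28695973))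
(L (nat_lit 12835589)))
(L (nat_lit 8088066)))
(L (nat_lit 23862353)))
(L (nat_lit 13363305)))
(S (nat_lit 27597) (S (nat_lit 33381) (L (nat_lit 13822633))
(L (nat_lit 10220653)))
(S (nat_lit 47361) (S (nat_lit 45119) (S (nat_lit 44706) (L (nat_lit 10305155))
(L (nat_lit 10215936)))
(L (nat_lit 23358574)))
(L (nat_lit 25743717)))))
(S (nat_lit 26878) (S (nat_lit 6589) (S (nat_lit 51710) (S (nat_lit 44928) (S (nat_lit 20083) (L (nat_lit 30875329))
(L (nat_lit 10216933)))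
(L (nat_lit 12699995)))
(L (nat_lit 14898048)))
(S (nat_lit 26353) (S (nat_lit 46818) (S (nat_lit 17257) (S (nat_lit 44706) (L (nat_lit 24512330))
(L (nat_lit 10312193)))
(L (nat_lit 10238564)))
(L (nat_lit 10342817)))
(S (nat_lit 46117) (S (nat_lit 26609) (S (nat_lit 44706) (S (nat_lit 5120) (S (nat_lit 19764) (L (nat_lit 29658796))
(L (nat_lit 9451100)))
(L (nat_lit 519479)))
(L (nat_lit 10312192)))
(S (nat_lit 28238) (L (nat_lit 13757813))
(L (nat_lit 10191323))))
(L (nat_lit 25769187)))))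
(S (nat_lit 46642) (S (nat_lit 10935) (S (nat_lit 12730) (L (nat_lit 4628218))
(S (nat_lit 36810) (S (nat_lit 15085) (S (nat_lit 51006) (S (nat_lit 28278) (L (nat_lit 11990629))
(L (nat_lit 31130988)))
(L (nat_lit 15035444)))
(L (nat_lit 12878523)))
(L (nat_lit 797207))))
(S (nat_lit 30699) (S (nat_lit 44706) (S (nat_lit 30953) (L (nat_lit 8109953))
(L (nat_lit 17441665)))
(L (nat_lit 24584065)))
(S (nat_lit 50463) (S (nat_lit 6827) (S (nat_lit 47072) (L (nat_lit 18076449))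
(L (nat_lit 9856707)))
(L (nat_lit 13266955)))
(L (nat_lit 25730102)))))
(L (nat_lit 25793000)))))
(S (nat_lit 55342) (S (nat_lit 10987) (S (nat_lit 10274) (S (nat_lit 46357) (S (nat_lit 56828) (S (nat_lit 34412) (S (nat_lit 21011) (L (nat_lit 11155611))
(L (nat_lit 11679417)))
(L (nat_lit 15360072)))
(L (nat_lit 418472)))
(L (nat_lit 27659945)))
(S (nat_lit 30038) (S (nat_lit 0) (S (nat_lit 44706) (S (nat_lit 56828) (L (nat_lit 11952243))
(L (nat_lit 254637)))
(L (nat_lit 10235986)))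
(L (nat_lit 6718041)))
(S (nat_lit 49802) (S (nat_lit 19764) (S (nat_lit 35349) (L (nat_lit 22420537))
(L (nat_lit 18616661)))
(L (nat_lit 10028941)))
(L (nat_lit 25864269)))))
(S (nat_lit 30751) (S (nat_lit 8265) (S (nat_lit 13368) (S (nat_lit 26862) (S (nat_lit 28550) (S (nat_lit 4398) (L (nat_lit 22907087))
(L (nat_lit 252377)))
(L (nat_lit 24436781)))
(L (nat_lit 24260397)))
(S (nat_lit 46720) (L (nat_lit 17140377))
(L (nat_lit 13863641))))
(S (nat_lit 28029) (S (nat_lit 5120) (S (nat_lit 36810) (L (nat_lit 10228301))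
(L (nat_lit 799093)))
(S (nat_lit 48738) (L (nat_lit 24510715))
(L (nat_lit 19664263))))
(S (nat_lit 47793) (S (nat_lit 13368) (S (nat_lit 27054) (S (nat_lit 46644) (L (nat_lit 20982701))
(L (nat_lit 2899558)))
(L (nat_lit 2845004)))
(L (nat_lit 6720373)))
(L (nat_lit 25614505)))))
(S (nat_lit 50515) (S (nat_lit 13180) (S (nat_lit 44706) (S (nat_lit 254) (L (nat_lit 7093924))
(L (nat_lit 7125601)))
(L (nat_lit 12771114)))
(S (nat_lit 32944) (S (nat_lit 7116) (S (nat_lit 10482) (S (nat_lit 27054) (L (nat_lit 21279864))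
(L (nat_lit 2845005)))
(L (nat_lit 14705321)))
(L (nat_lit 5630572)))
(S (nat_lit 52708) (S (nat_lit 11254) (S (nat_lit 10482) (S (nat_lit 30953) (S (nat_lit 28029) (L (nat_lit 6973985))
(L (nat_lit 24570025)))
(L (nat_lit 931061)))
(L (nat_lit 17127545)))
(L (nat_lit 26324557)))
(L (nat_lit 25834755)))))
(L (nat_lit 25275056)))))
(L (nat_lit 25277686)))))
(L (nat_lit 25549217)))))
(S (nat_lit 48572) (S (nat_lit 8994) (S (nat_lit 4398) (S (nat_lit 7820) (S (nat_lit 15814) (S (nat_lit 15085) (S (nat_lit 10935) (L (nat_lit 29571094))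
(L (nat_lit 18652212)))
(L (nat_lit 14438503)))
(S (nat_lit 35578) (S (nat_lit 13617) (S (nat_lit 753) (L (nat_lit 13366593))
(L (nat_lit 13392160)))
(L (nat_lit 26415789)))
(S (nat_lit 55342) (S (nat_lit 11688) (L (nat_lit 26446294))
(L (nat_lit 20984057)))
(L (nat_lit 25377971)))))
(S (nat_lit 27584) (S (nat_lit 6827) (S (nat_lit 33451) (S (nat_lit 56599) (S (nat_lit 7544) (L (nat_lit 1796647))
(L (nat_lit 21764481)))
(L (nat_lit 1552147)))
(L (nat_lit 15510611)))
(S (nat_lit 26564) (S (nat_lit 33451) (L (nat_lit 14702907))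
(L (nat_lit 15510611)))
(L (nat_lit 7114227))))
(S (nat_lit 47348) (S (nat_lit 10987) (S (nat_lit 11688) (S (nat_lit 14648) (S (nat_lit 40058) (L (nat_lit 24316314))
(L (nat_lit 12205080)))
(L (nat_lit 1261180)))
(L (nat_lit 16553576)))
(S (nat_lit 30751) (S (nat_lit 49802) (S (nat_lit 54905) (S (nat_lit 56375) (S (nat_lit 254) (L (nat_lit 30554695))
(L (nat_lit 26425953)))
(L (nat_lit 19141112)))
(L (nat_lit 19018040)))
(L (nat_lit 20064824)))
(S (nat_lit 50515) (S (nat_lit 11688) (S (nat_lit 28348) (S (nat_lit 40058) (S (nat_lit 753) (L (nat_lit 14736199))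
(L (nat_lit 26237165)))
(L (nat_lit 24426584)))
(L (nat_lit 14701784)))
(L (nat_lit 499320)))
(L (nat_lit 25277032)))))
(L (nat_lit 25217264)))))
(S (nat_lit 24162) (S (nat_lit 6822) (S (nat_lit 6829) (S (nat_lit 6827) (S (nat_lit 11189) (S (nat_lit 56599) (S (nat_lit 40775) (S (nat_lit 34412) (L (nat_lit 21506948))
(L (nat_lit 15518792)))
(L (nat_lit 17616064)))
(L (nat_lit 14298885)))
(S (nat_lit 18668) (L (nat_lit 26594691))
(L (nat_lit 21181596))))
(S (nat_lit 44605) (L (nat_lit 21202460))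
(L (nat_lit 21775371))))
(S (nat_lit 26593) (S (nat_lit 12182) (S (nat_lit 1036) (L (nat_lit 18586464))
(L (nat_lit 13889125)))
(L (nat_lit 3368526)))
(S (nat_lit 46357) (S (nat_lit 31018) (S (nat_lit 9243) (S (nat_lit 11971) (L (nat_lit 7127154))
(L (nat_lit 26685056)))
(L (nat_lit 26947687)))
(L (nat_lit 10259986)))
(L (nat_lit 25904169)))))
(S (nat_lit 26586) (S (nat_lit 10935) (S (nat_lit 53145) (S (nat_lit 51006) (S (nat_lit 8514) (L (nat_lit 3370732))
(L (nat_lit 12191501)))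
(L (nat_lit 14768935)))
(L (nat_lit 21937319)))
(S (nat_lit 30358) (L (nat_lit 22234916))
(L (nat_lit 15786695))))
(S (nat_lit 46350) (S (nat_lit 10935) (S (nat_lit 753) (S (nat_lit 29007) (S (nat_lit 50717) (S (nat_lit 6827) (L (nat_lit 22949991))
(L (nat_lit 21775619)))
(L (nat_lit 3401422)))
(L (nat_lit 13328487)))
(S (nat_lit 46716) (L (nat_lit 17584449))
(L (nat_lit 1858090))))
(S (nat_lit 38125) (L (nat_lit 21214364))
(L (nat_lit 21791206))))
(L (nat_lit 25243277)))))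
(S (nat_lit 43926) (S (nat_lit 254) (S (nat_lit 6978) (S (nat_lit 1094) (L (nat_lit 13658487))
(L (nat_lit 5466615)))
(S (nat_lit 27054) (S (nat_lit 44706) (S (nat_lit 53215) (S (nat_lit 20294) (S (nat_lit 10935) (L (nat_lit 11168785))
(L (nat_lit 7037408)))
(L (nat_lit 15474775)))
(L (nat_lit 19443457)))
(L (nat_lit 27744449)))
(L (nat_lit 12216333))))
(S (nat_lit 20018) (S (nat_lit 51216) (S (nat_lit 27597) (L (nat_lit 14905366))
(L (nat_lit 14706902)))
(L (nat_lit 14706934)))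
(S (nat_lit 39782) (S (nat_lit 11478) (S (nat_lit 8514) (L (nat_lit 2021680))
(L (nat_lit 23870819)))
(S (nat_lit 31242) (S (nat_lit 33381) (S (nat_lit 53215) (L (nat_lit 5709620))
(L (nat_lit 27929615)))
(L (nat_lit 30595462)))
(S (nat_lit 51006) (S (nat_lit 54613) (S (nat_lit 10935) (L (nat_lit 26459747))
(L (nat_lit 6312719)))
(L (nat_lit 7071855)))
(L (nat_lit 25795727)))))
(L (nat_lit 25559659)))))
(L (nat_lit 25209299)))))
(S (nat_lit 28758) (S (nat_lit 6845) (S (nat_lit 6827) (S (nat_lit 543) (S (nat_lit 7116) (S (nat_lit 31242) (S (nat_lit 254) (S (nat_lit 29077) (S (nat_lit 50463) (S (nat_lit 13418) (S (nat_lit 5638) (S (nat_lit 5120) (S (nat_lit 46642) (L (nat_lit 22353807))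
(L (nat_lit 2800953)))
(L (nat_lit 17879943)))
(L (nat_lit 5944171)))
(L (nat_lit 13486122)))
(L (nat_lit 5980070)))
(L (nat_lit 24503372)))
(L (nat_lit 13407851)))
(L (nat_lit 13724231)))
(S (nat_lit 28714) (L (nat_lit 23860464))
(L (nat_lit 6315576))))
(S (nat_lit 20307) (S (nat_lit 12843) (L (nat_lit 30431597))
(S (nat_lit 46642) (S (nat_lit 31242) (S (nat_lit 33132) (S (nat_lit 52946) (S (nat_lit 39528) (S (nat_lit 48334) (L (nat_lit 24549159))
(L (nat_lit 14485224)))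
(L (nat_lit 5644211)))
(L (nat_lit 19359787)))
(L (nat_lit 15821079)))
(L (nat_lit 8809189)))
(L (nat_lit 22034745))))
(S (nat_lit 40071) (S (nat_lit 7116) (S (nat_lit 9180) (L (nat_lit 24131837))
(S (nat_lit 31242) (S (nat_lit 5120) (S (nat_lit 46642) (S (nat_lit 46350) (S (nat_lit 29077) (S (nat_lit 44706) (S (nat_lit 6863) (S (nat_lit 54613) (L (nat_lit 2445721))
(L (nat_lit 9093988)))
(L (nat_lit 12946172)))
(L (nat_lit 27450737)))
(L (nat_lit 31042017)))
(L (nat_lit 22472775)))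
(L (nat_lit 2899689)))
(L (nat_lit 840073)))
(L (nat_lit 1449748))))
(L (nat_lit 13655942)))
(L (nat_lit 25728678)))))
(S (nat_lit 26591) (S (nat_lit 7544) (S (nat_lit 54613) (S (nat_lit 25402) (S (nat_lit 8584) (L (nat_lit 29371055))
(L (nat_lit 13849626)))
(L (nat_lit 13851393)))
(L (nat_lit 17557796)))
(S (nat_lit 27308) (S (nat_lit 39580) (L (nat_lit 23316291))
(L (nat_lit 23390723)))
(S (nat_lit 47072) (S (nat_lit 46391) (S (nat_lit 36810) (S (nat_lit 28029) (L (nat_lit 19109808))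
(L (nat_lit 405082)))
(L (nat_lit 23472218)))
(L (nat_lit 1848629)))
(L (nat_lit 25565889)))))
(S (nat_lit 46355) (S (nat_lit 11465) (S (nat_lit 34620) (S (nat_lit 8786) (L (nat_lit 1362833))
(L (nat_lit 598492)))
(S (nat_lit 54321) (S (nat_lit 26360) (L (nat_lit 26522774))
(L (nat_lit 3946091)))
(L (nat_lit 23587074))))
(S (nat_lit 31229) (S (nat_lit 54613) (S (nat_lit 30699) (S (nat_lit 46117) (S (nat_lit 48334) (S (nat_lit 6863) (S (nat_lit 26593) (S (nat_lit 33820) (L (nat_lit 28319254))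
(L (nat_lit 22035709)))
(L (nat_lit 24545128)))
(L (nat_lit 21077873)))
(L (nat_lit 27957324)))
(L (nat_lit 28024194)))
(L (nat_lit 19089217)))
(L (nat_lit 17557796)))
(S (nat_lit 50993) (S (nat_lit 6589) (S (nat_lit 37021) (S (nat_lit 24656) (L (nat_lit 13725971))
(L (nat_lit 22472962)))
(L (nat_lit 1534195)))
(S (nat_lit 39306) (L (nat_lit 446844))
(L (nat_lit 760250))))
(L (nat_lit 25928130)))))
(L (nat_lit 25396723)))))
(S (nat_lit 26609) (S (nat_lit 15085) (S (nat_lit 32924) (S (nat_lit 27821) (L (nat_lit 31099273))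
(L (nat_lit 24906120)))
(S (nat_lit 38681) (S (nat_lit 30038) (L (nat_lit 1275283))
(L (nat_lit 19696006)))
(L (nat_lit 10226068))))
(S (nat_lit 34849) (S (nat_lit 28704) (S (nat_lit 49802) (L (nat_lit 5021234))
(L (nat_lit 27462035)))
(S (nat_lit 33132) (S (nat_lit 28029) (S (nat_lit 31242) (S (nat_lit 50463) (L (nat_lit 17098867))
(L (nat_lit 14878646)))
(L (nat_lit 16804582)))
(L (nat_lit 14977812)))
(L (nat_lit 15436550))))
(S (nat_lit 54613) (S (nat_lit 17071) (S (nat_lit 16847) (S (nat_lit 48771) (S (nat_lit 40564) (S (nat_lit 13180) (L (nat_lit 29402830))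
(L (nat_lit 614702)))
(L (nat_lit 24362917)))
(L (nat_lit 968327)))
(S (nat_lit 38425) (L (nat_lit 24328100))
(L (nat_lit 24319917))))
(S (nat_lit 36835) (S (nat_lit 37362) (S (nat_lit 38192) (L (nat_lit 4572793))
(L (nat_lit 15752103)))
(S (nat_lit 50463) (S (nat_lit 5120) (S (nat_lit 6827) (S (nat_lit 31242) (S (nat_lit 14648) (L (nat_lit 434006))
(L (nat_lit 289488)))
(L (nat_lit 24539271)))
(L (nat_lit 21197840)))
(L (nat_lit 808238)))
(L (nat_lit 12800928))))
(S (nat_lit 56599) (S (nat_lit 25049) (L (nat_lit 18919342))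
(S (nat_lit 34412) (S (nat_lit 6589) (S (nat_lit 50993) (S (nat_lit 9313) (S (nat_lit 46355) (S (nat_lit 26880) (S (nat_lit 9942) (L (nat_lit 1325973))
(L (nat_lit 1566312)))
(L (nat_lit 30424679)))
(L (nat_lit 3563795)))
(L (nat_lit 26913252)))
(L (nat_lit 20199170)))
(S (nat_lit 26353) (S (nat_lit 11465) (S (nat_lit 44928) (S (nat_lit 20517) (L (nat_lit 5491566))
(L (nat_lit 4086061)))
(L (nat_lit 3632744)))
(L (nat_lit 21293068)))
(S (nat_lit 46117) (S (nat_lit 46640) (S (nat_lit 31229) (S (nat_lit 48314) (S (nat_lit 27427) (L (nat_lit 5519994))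
(L (nat_lit 26977728)))
(L (nat_lit 5121679)))
(L (nat_lit 24158617)))
(L (nat_lit 27278027)))
(L (nat_lit 25277682)))))
(L (nat_lit 11065433))))
(L (nat_lit 25660039)))))
(L (nat_lit 25579690)))))
(S (nat_lit 46373) (S (nat_lit 10482) (S (nat_lit 7544) (S (nat_lit 51216) (S (nat_lit 27141) (L (nat_lit 22045194))
(S (nat_lit 46818) (S (nat_lit 31242) (S (nat_lit 48112) (L (nat_lit 29016169))
(L (nat_lit 22308943)))
(L (nat_lit 9923141)))
(L (nat_lit 20199265))))
(L (nat_lit 12610154)))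
(S (nat_lit 27308) (S (nat_lit 12769) (L (nat_lit 24942703))
(S (nat_lit 15585) (S (nat_lit 20018) (S (nat_lit 52708) (L (nat_lit 12435011))
(L (nat_lit 19214457)))
(L (nat_lit 15270731)))
(L (nat_lit 24132487))))
(S (nat_lit 47072) (S (nat_lit 46818) (S (nat_lit 29007) (L (nat_lit 4940167))
(L (nat_lit 1779164)))
(S (nat_lit 51356) (L (nat_lit 6310800))
(L (nat_lit 5594028))))
(L (nat_lit 25892112)))))
(S (nat_lit 30246) (S (nat_lit 8315) (S (nat_lit 31452) (S (nat_lit 31242) (S (nat_lit 7833) (S (nat_lit 53215) (L (nat_lit 26460180))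
(L (nat_lit 16804179)))
(L (nat_lit 13274328)))
(L (nat_lit 14280742)))
(L (nat_lit 11554673)))
(S (nat_lit 28079) (S (nat_lit 15814) (S (nat_lit 44706) (S (nat_lit 54613) (S (nat_lit 13617) (S (nat_lit 26586) (S (nat_lit 36810) (S (nat_lit 8265) (S (nat_lit 47361) (L (nat_lit 18515165))
(L (nat_lit 22048200)))
(L (nat_lit 12902422)))
(L (nat_lit 10503866)))
(L (nat_lit 5489558)))
(L (nat_lit 26977388)))
(L (nat_lit 9167233)))
(L (nat_lit 15458497)))
(L (nat_lit 15445114)))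
(S (nat_lit 47843) (S (nat_lit 56785) (S (nat_lit 44706) (S (nat_lit 55342) (S (nat_lit 54613) (S (nat_lit 9243) (S (nat_lit 14648) (S (nat_lit 31242) (S (nat_lit 13617) (S (nat_lit 26586) (L (nat_lit 4569720))
(L (nat_lit 24513788)))
(L (nat_lit 3955079)))
(L (nat_lit 8867898)))
(L (nat_lit 12466788)))
(L (nat_lit 6416916)))
(L (nat_lit 28025249)))
(L (nat_lit 28032193)))
(L (nat_lit 10215936)))
(L (nat_lit 28025900)))
(L (nat_lit 25666147)))))
(S (nat_lit 50010) (S (nat_lit 6822) (S (nat_lit 31242) (S (nat_lit 55113) (S (nat_lit 54613) (L (nat_lit 28686454))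
(L (nat_lit 21391527)))
(L (nat_lit 21795302)))
(L (nat_lit 16800518)))
(S (nat_lit 26586) (S (nat_lit 5192) (S (nat_lit 54613) (L (nat_lit 22045967))
(L (nat_lit 9158780)))
(S (nat_lit 46642) (S (nat_lit 5120) (S (nat_lit 50463) (S (nat_lit 7290) (L (nat_lit 10122253))
(L (nat_lit 9057024)))
(L (nat_lit 22069094)))
(S (nat_lit 51032) (L (nat_lit 24002567))
(L (nat_lit 17886921))))
(L (nat_lit 22029198))))
(S (nat_lit 46350) (S (nat_lit 5806) (L (nat_lit 19340037))
(S (nat_lit 31242) (S (nat_lit 54613) (S (nat_lit 35141) (L (nat_lit 28723488))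
(L (nat_lit 20744587)))
(L (nat_lit 19196014)))
(L (nat_lit 30805574))))
(L (nat_lit 25560711)))))
(L (nat_lit 25516078)))))
(L (nat_lit 25764017)))))
(S (nat_lit 48522) (S (nat_lit 5400) (S (nat_lit 15814) (S (nat_lit 34620) (S (nat_lit 0) (S (nat_lit 48841) (L (nat_lit 14453010))
(L (nat_lit 16536897)))
(L (nat_lit 7090753)))
(S (nat_lit 49112) (L (nat_lit 10257007))
(L (nat_lit 10966138))))
(S (nat_lit 35578) (S (nat_lit 7116) (S (nat_lit 7098) (S (nat_lit 23366) (L (nat_lit 14549607))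
(S (nat_lit 52896) (S (nat_lit 26627) (L (nat_lit 19270537))
(L (nat_lit 19696106)))
(L (nat_lit 17009559))))
(S (nat_lit 32538) (L (nat_lit 4779347))
(L (nat_lit 26264916))))
(S (nat_lit 57351) (L (nat_lit 9157819))
(L (nat_lit 4111974))))
(S (nat_lit 55342) (S (nat_lit 30246) (S (nat_lit 52896) (S (nat_lit 44706) (S (nat_lit 13617) (S (nat_lit 20294) (L (nat_lit 14585449))
(L (nat_lit 22811179)))
(L (nat_lit 13832888)))
(L (nat_lit 12839584)))
(L (nat_lit 21367591)))
(L (nat_lit 13363305)))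
(L (nat_lit 25340371)))))
(S (nat_lit 25164) (S (nat_lit 13180) (S (nat_lit 13701) (L (nat_lit 22585125))
(S (nat_lit 26880) (S (nat_lit 11478) (S (nat_lit 24656) (L (nat_lit 8808500))
(L (nat_lit 14294784)))
(S (nat_lit 35902) (L (nat_lit 14328706))
(L (nat_lit 26558179))))
(L (nat_lit 1883750))))
(S (nat_lit 32944) (S (nat_lit 7477) (S (nat_lit 34975) (L (nat_lit 27464271))
(L (nat_lit 895726)))
(S (nat_lit 46870) (S (nat_lit 44706) (S (nat_lit 54613) (L (nat_lit 20285852))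
(L (nat_lit 27575414)))
(L (nat_lit 27729536)))
(L (nat_lit 22849058))))
(S (nat_lit 52708) (S (nat_lit 50515) (S (nat_lit 26880) (S (nat_lit 46626) (S (nat_lit 39782) (S (nat_lit 26700) (L (nat_lit 11554734))
(L (nat_lit 26510957)))
(L (nat_lit 27677770)))
(L (nat_lit 27722100)))
(L (nat_lit 24951107)))
(L (nat_lit 5532272)))
(L (nat_lit 25757160)))))
(S (nat_lit 44928) (S (nat_lit 5178) (S (nat_lit 7112) (S (nat_lit 17046) (S (nat_lit 34849) (S (nat_lit 46870) (L (nat_lit 30556468))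
(L (nat_lit 22945315)))
(L (nat_lit 1830254)))
(S (nat_lit 21337) (L (nat_lit 18121588))
(L (nat_lit 26444309))))
(S (nat_lit 26876) (S (nat_lit 2810) (L (nat_lit 13264130))
(S (nat_lit 24656) (L (nat_lit 24275368))
(L (nat_lit 2017802))))
(S (nat_lit 46640) (S (nat_lit 37064) (S (nat_lit 29007) (S (nat_lit 34849) (S (nat_lit 29077) (L (nat_lit 13721876))
(L (nat_lit 17911128)))
(L (nat_lit 10907361)))
(L (nat_lit 18079619)))
(L (nat_lit 20722790)))
(L (nat_lit 25708715)))))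
(S (nat_lit 24942) (S (nat_lit 53145) (S (nat_lit 48042) (S (nat_lit 50010) (L (nat_lit 2499192))
(L (nat_lit 16510057)))
(L (nat_lit 22343788)))
(L (nat_lit 12316780)))
(S (nat_lit 44706) (S (nat_lit 530) (S (nat_lit 46818) (S (nat_lit 5120) (S (nat_lit 39782) (L (nat_lit 5905326))
(L (nat_lit 27676747)))
(L (nat_lit 20441381)))
(L (nat_lit 27664406)))
(S (nat_lit 20294) (S (nat_lit 49802) (S (nat_lit 54613) (S (nat_lit 6827) (L (nat_lit 12802234))
(L (nat_lit 13307754)))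
(L (nat_lit 27576705)))
(L (nat_lit 14420309)))
(S (nat_lit 40058) (S (nat_lit 8806) (S (nat_lit 54613) (S (nat_lit 52946) (L (nat_lit 21799460))
(L (nat_lit 27543665)))
(L (nat_lit 28034337)))
(S (nat_lit 47666) (L (nat_lit 15802229))
(L (nat_lit 23247162))))
(L (nat_lit 25481296)))))
(L (nat_lit 25304721)))))
(L (nat_lit 25891153)))))
(L (nat_lit 25892878)))))
(L (nat_lit 25185706)))))

theorem rb179_1 : run 4 lb179 [] tb179_1 kb179 (P4 4 2197 2355 2217 5601 0 0 1 0) [] = true := by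
  decide +kernel

noncomputable def ta39_3 : Tr :=
(S (nat_lit 1626) (S (nat_lit 1724) (S (nat_lit 173) (S (nat_lit 1867) (S (nat_lit 1548) (S (nat_lit 4616) (S (nat_lit 94) (L (nat_lit 696494))
(L (nat_lit 235182)))
(L (nat_lit 577890)))
(L (nat_lit 557670)))
(S (nat_lit 4081) (S (nat_lit 2381) (L (nat_lit 73239))
(L (nat_lit 462571)))
(S (nat_lit 6295) (S (nat_lit 2875) (S (nat_lit 1646) (S (nat_lit 2953) (L (nat_lit 72215))
(L (nat_lit 265687)))
(L (nat_lit 243734)))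
(L (nat_lit 515393)))
(L (nat_lit 600580)))))
(S (nat_lit 2387) (S (nat_lit 2481) (S (nat_lit 472) (L (nat_lit 480295))
(S (nat_lit 1636) (S (nat_lit 2619) (S (nat_lit 5732) (S (nat_lit 5397) (S (nat_lit 3489) (L (nat_lit 171447))
(L (nat_lit 309366)))
(L (nat_lit 84456)))
(L (nat_lit 211587)))
(L (nat_lit 209539)))
(L (nat_lit 561524))))
(S (nat_lit 3237) (S (nat_lit 2806) (S (nat_lit 4585) (L (nat_lit 307219))
(L (nat_lit 477441)))
(L (nat_lit 754895)))
(S (nat_lit 3912) (S (nat_lit 4329) (L (nat_lit 178886))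
(L (nat_lit 40591)))
(L (nat_lit 498836)))))
(S (nat_lit 4601) (S (nat_lit 909) (S (nat_lit 1636) (S (nat_lit 3594) (L (nat_lit 229811))
(L (nat_lit 350595)))
(L (nat_lit 636225)))
(S (nat_lit 3123) (S (nat_lit 3518) (S (nat_lit 2656) (S (nat_lit 5020) (L (nat_lit 732578))
(L (nat_lit 41614)))
(L (nat_lit 692614)))
(L (nat_lit 250275)))
(S (nat_lit 5337) (S (nat_lit 2953) (S (nat_lit 2806) (S (nat_lit 5417) (S (nat_lit 5130) (S (nat_lit 2083) (S (nat_lit 5039) (S (nat_lit 5438) (S (nat_lit 1165) (S (nat_lit 2695) (D (nat_lit 12) (nat_lit 216580) (nat_lit 600113) (nat_lit 1075906562))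
(L (nat_lit 412899)))
(L (nat_lit 379948)))
(L (nat_lit 693703)))
(L (nat_lit 309330)))
(L (nat_lit 118279)))
(L (nat_lit 120327)))
(L (nat_lit 514277)))
(L (nat_lit 246903)))
(L (nat_lit 84424)))
(L (nat_lit 590032)))))
(L (nat_lit 594129)))))
(S (nat_lit 3938) (S (nat_lit 1867) (S (nat_lit 1144) (S (nat_lit 3131) (S (nat_lit 739) (S (nat_lit 2381) (L (nat_lit 138708))
(L (nat_lit 307253)))
(L (nat_lit 533058)))
(L (nat_lit 310293)))
(S (nat_lit 3358) (S (nat_lit 661) (S (nat_lit 5341) (L (nat_lit 315473))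
(L (nat_lit 361164)))
(L (nat_lit 376452)))
(S (nat_lit 5572) (S (nat_lit 2806) (S (nat_lit 5241) (S (nat_lit 173) (S (nat_lit 2381) (S (nat_lit 5345) (S (nat_lit 5118) (S (nat_lit 684) (S (nat_lit 5697) (S (nat_lit 2774) (S (nat_lit 2596) (D (nat_lit 12) (nat_lit 242400) (nat_lit 263760) (nat_lit 1101728319520))
(L (nat_lit 431851)))
(L (nat_lit 382371)))
(L (nat_lit 725358)))
(L (nat_lit 659881)))
(L (nat_lit 200272)))
(L (nat_lit 86443)))
(L (nat_lit 465973)))
(L (nat_lit 120203)))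
(L (nat_lit 105879)))
(S (nat_lit 4237) (L (nat_lit 246839))
(L (nat_lit 513127))))
(L (nat_lit 591371)))))
(S (nat_lit 4081) (S (nat_lit 1380) (S (nat_lit 5089) (S (nat_lit 3624) (L (nat_lit 348239))
(L (nat_lit 86441)))
(S (nat_lit 5791) (S (nat_lit 5572) (L (nat_lit 372787))
(L (nat_lit 85260)))
(L (nat_lit 558323))))
(S (nat_lit 3594) (S (nat_lit 2381) (S (nat_lit 3518) (S (nat_lit 2308) (S (nat_lit 6074) (L (nat_lit 315407))
(L (nat_lit 84334)))
(L (nat_lit 762336)))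
(L (nat_lit 413889)))
(L (nat_lit 512139)))
(S (nat_lit 5808) (S (nat_lit 2115) (S (nat_lit 5167) (S (nat_lit 661) (L (nat_lit 229810))
(L (nat_lit 427658)))
(L (nat_lit 514057)))
(L (nat_lit 496203)))
(L (nat_lit 606347)))))
(S (nat_lit 6295) (S (nat_lit 6543) (S (nat_lit 5241) (S (nat_lit 2381) (S (nat_lit 661) (S (nat_lit 2806) (L (nat_lit 22986))
(L (nat_lit 500325)))
(L (nat_lit 433205)))
(L (nat_lit 499424)))
(L (nat_lit 662544)))
(L (nat_lit 85547)))
(L (nat_lit 595152)))))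
(S (nat_lit 6152) (S (nat_lit 1144) (S (nat_lit 188) (S (nat_lit 4329) (S (nat_lit 4081) (L (nat_lit 216480))
(L (nat_lit 48503)))
(L (nat_lit 755241)))
(S (nat_lit 2402) (S (nat_lit 1867) (L (nat_lit 705889))
(L (nat_lit 626182)))
(S (nat_lit 4616) (S (nat_lit 2953) (S (nat_lit 6295) (L (nat_lit 732578))
(L (nat_lit 21926)))
(L (nat_lit 411875)))
(L (nat_lit 600576)))))
(S (nat_lit 3358) (S (nat_lit 1548) (S (nat_lit 5089) (L (nat_lit 544097))
(L (nat_lit 579719)))
(S (nat_lit 3762) (S (nat_lit 5089) (S (nat_lit 4695) (L (nat_lit 313057))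
(L (nat_lit 149804)))
(L (nat_lit 201423)))
(S (nat_lit 5976) (S (nat_lit 1005) (L (nat_lit 375988))
(S (nat_lit 5089) (S (nat_lit 1192) (L (nat_lit 383153))
(L (nat_lit 761996)))
(L (nat_lit 576650))))
(L (nat_lit 590310)))))
(S (nat_lit 5572) (S (nat_lit 173) (S (nat_lit 5241) (S (nat_lit 2859) (L (nat_lit 379426))
(S (nat_lit 3860) (S (nat_lit 4833) (S (nat_lit 6064) (L (nat_lit 372853))
(L (nat_lit 467030)))
(L (nat_lit 253317)))
(L (nat_lit 316428))))
(S (nat_lit 6093) (L (nat_lit 89609))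
(L (nat_lit 498711))))
(S (nat_lit 2387) (S (nat_lit 2773) (S (nat_lit 6023) (L (nat_lit 691468))
(L (nat_lit 300718)))
(S (nat_lit 5417) (S (nat_lit 6295) (S (nat_lit 909) (S (nat_lit 1380) (S (nat_lit 2115) (S (nat_lit 2806) (S (nat_lit 739) (S (nat_lit 3131) (S (nat_lit 2908) (S (nat_lit 2481) (S (nat_lit 1825) (S (nat_lit 873) (D (nat_lit 12) (nat_lit 545801) (nat_lit 594224) (nat_lit 1134945108033))
(L (nat_lit 108112)))
(L (nat_lit 699437)))
(L (nat_lit 202294)))
(L (nat_lit 264911)))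
(L (nat_lit 756077)))
(L (nat_lit 527977)))
(L (nat_lit 770245)))
(L (nat_lit 502341)))
(L (nat_lit 300718)))
(L (nat_lit 244915)))
(L (nat_lit 253345)))
(L (nat_lit 148786))))
(S (nat_lit 4601) (S (nat_lit 909) (S (nat_lit 2806) (S (nat_lit 3860) (S (nat_lit 2619) (L (nat_lit 11735))
(L (nat_lit 209076)))
(L (nat_lit 527019)))
(L (nat_lit 18023)))
(S (nat_lit 4973) (L (nat_lit 295631))
(L (nat_lit 461042))))
(L (nat_lit 598402)))))
(L (nat_lit 607556)))))
(L (nat_lit 602308)))))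
(S (nat_lit 3840) (S (nat_lit 173) (S (nat_lit 1304) (S (nat_lit 1548) (S (nat_lit 5341) (S (nat_lit 6295) (S (nat_lit 1646) (S (nat_lit 5345) (S (nat_lit 5808) (S (nat_lit 3317) (S (nat_lit 4151) (S (nat_lit 6238) (D (nat_lit 12) (nat_lit 688364) (nat_lit 18824) (nat_lit 1136088122432))
(L (nat_lit 693734)))
(L (nat_lit 726566)))
(L (nat_lit 245475)))
(L (nat_lit 501347)))
(L (nat_lit 426324)))
(L (nat_lit 492234)))
(L (nat_lit 464086)))
(L (nat_lit 376420)))
(S (nat_lit 3762) (S (nat_lit 3123) (S (nat_lit 6295) (S (nat_lit 2822) (S (nat_lit 2806) (L (nat_lit 282734))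
(L (nat_lit 755242)))
(L (nat_lit 547846)))
(L (nat_lit 81606)))
(L (nat_lit 559814)))
(S (nat_lit 5976) (S (nat_lit 5572) (S (nat_lit 405) (L (nat_lit 307319))
(L (nat_lit 445701)))
(L (nat_lit 498401)))
(L (nat_lit 603332)))))
(S (nat_lit 3518) (S (nat_lit 405) (S (nat_lit 5341) (L (nat_lit 738312))
(L (nat_lit 374369)))
(S (nat_lit 2619) (S (nat_lit 5572) (S (nat_lit 2806) (S (nat_lit 4329) (L (nat_lit 235181))
(L (nat_lit 755243)))
(L (nat_lit 755242)))
(L (nat_lit 252356)))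
(S (nat_lit 4833) (S (nat_lit 3860) (S (nat_lit 6152) (S (nat_lit 2953) (S (nat_lit 4329) (S (nat_lit 3027) (S (nat_lit 548) (S (nat_lit 4715) (S (nat_lit 6238) (D (nat_lit 12) (nat_lit 760844) (nat_lit 592264) (nat_lit 2233417663521))
(L (nat_lit 693517)))
(L (nat_lit 688649)))
(L (nat_lit 525030)))
(L (nat_lit 758062)))
(L (nat_lit 341174)))
(L (nat_lit 396535)))
(L (nat_lit 664996)))
(L (nat_lit 309856)))
(L (nat_lit 602282)))))
(S (nat_lit 5732) (S (nat_lit 917) (S (nat_lit 5167) (S (nat_lit 5572) (S (nat_lit 1867) (S (nat_lit 2481) (L (nat_lit 397992))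
(L (nat_lit 75372)))
(L (nat_lit 631201)))
(L (nat_lit 448833)))
(L (nat_lit 514056)))
(S (nat_lit 3131) (S (nat_lit 3938) (S (nat_lit 989) (S (nat_lit 6074) (S (nat_lit 612) (L (nat_lit 14583))
(L (nat_lit 350284)))
(L (nat_lit 413770)))
(L (nat_lit 54695)))
(L (nat_lit 120233)))
(S (nat_lit 5345) (S (nat_lit 2481) (S (nat_lit 2806) (S (nat_lit 2619) (L (nat_lit 731589))
(L (nat_lit 217507)))
(L (nat_lit 465504)))
(L (nat_lit 500884)))
(L (nat_lit 592205)))))
(L (nat_lit 604200)))))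
(S (nat_lit 2387) (S (nat_lit 1724) (S (nat_lit 2098) (S (nat_lit 6187) (L (nat_lit 311348))
(L (nat_lit 187819)))
(S (nat_lit 3203) (S (nat_lit 5732) (S (nat_lit 5167) (S (nat_lit 5337) (S (nat_lit 4522) (S (nat_lit 3064) (S (nat_lit 1690) (S (nat_lit 4548) (S (nat_lit 3587) (S (nat_lit 1499) (D (nat_lit 12) (nat_lit 413988) (nat_lit 361040) (nat_lit 2050))
(L (nat_lit 701546)))
(L (nat_lit 172597)))
(L (nat_lit 107116)))
(L (nat_lit 401492)))
(L (nat_lit 705704)))
(L (nat_lit 534213)))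
(L (nat_lit 510119)))
(L (nat_lit 494249)))
(L (nat_lit 286113)))
(S (nat_lit 5022) (S (nat_lit 971) (L (nat_lit 23856))
(L (nat_lit 514123)))
(L (nat_lit 757037)))))
(S (nat_lit 3938) (S (nat_lit 592) (S (nat_lit 661) (L (nat_lit 629804))
(L (nat_lit 310913)))
(S (nat_lit 2806) (S (nat_lit 3762) (S (nat_lit 3518) (S (nat_lit 3027) (L (nat_lit 434883))
(L (nat_lit 768290)))
(L (nat_lit 758184)))
(L (nat_lit 532564)))
(S (nat_lit 5020) (S (nat_lit 4695) (S (nat_lit 1636) (L (nat_lit 445731))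
(L (nat_lit 512008)))
(L (nat_lit 313516)))
(L (nat_lit 598528)))))
(S (nat_lit 6152) (S (nat_lit 267) (S (nat_lit 909) (L (nat_lit 56524))
(L (nat_lit 481446)))
(S (nat_lit 2481) (S (nat_lit 3027) (S (nat_lit 909) (L (nat_lit 332398))
(L (nat_lit 470627)))
(L (nat_lit 7574)))
(S (nat_lit 4695) (S (nat_lit 661) (S (nat_lit 3027) (S (nat_lit 4595) (S (nat_lit 5572) (S (nat_lit 4130) (L (nat_lit 263703))
(L (nat_lit 700489)))
(L (nat_lit 661612)))
(L (nat_lit 12596)))
(L (nat_lit 399540)))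
(L (nat_lit 401028)))
(L (nat_lit 606496)))))
(L (nat_lit 599460)))))
(S (nat_lit 4601) (S (nat_lit 661) (S (nat_lit 3850) (S (nat_lit 5572) (S (nat_lit 2806) (S (nat_lit 267) (S (nat_lit 6152) (S (nat_lit 913) (S (nat_lit 6543) (S (nat_lit 4595) (S (nat_lit 94) (S (nat_lit 5732) (S (nat_lit 3594) (S (nat_lit 917) (S (nat_lit 2521) (S (nat_lit 212) (S (nat_lit 6450) (S (nat_lit 5371) (S (nat_lit 2504) (S (nat_lit 4284) (S (nat_lit 5620) (S (nat_lit 1836) (D (nat_lit 12) (nat_lit 77367) (nat_lit 543008) (nat_lit 2201171789858))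
(L (nat_lit 764450)))
(L (nat_lit 414946)))
(L (nat_lit 700706)))
(L (nat_lit 531507)))
(L (nat_lit 479522)))
(L (nat_lit 735490)))
(L (nat_lit 672032)))
(S (nat_lit 6258) (S (nat_lit 6033) (S (nat_lit 1208) (D (nat_lit 10) (nat_lit 416099) (nat_lit 605226) (nat_lit 1141899264))
(L (nat_lit 736359)))
(L (nat_lit 266959)))
(L (nat_lit 342725))))
(L (nat_lit 526678)))
(L (nat_lit 348302)))
(L (nat_lit 276532)))
(L (nat_lit 435380)))
(L (nat_lit 580866)))
(L (nat_lit 20009)))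
(L (nat_lit 121385)))
(L (nat_lit 176743)))
(L (nat_lit 350380)))
(L (nat_lit 755210)))
(L (nat_lit 296625)))
(L (nat_lit 263856)))
(S (nat_lit 2875) (S (nat_lit 1636) (S (nat_lit 5572) (S (nat_lit 6543) (S (nat_lit 2806) (S (nat_lit 4595) (S (nat_lit 3938) (S (nat_lit 3027) (S (nat_lit 3203) (L (nat_lit 248908))
(L (nat_lit 766121)))
(L (nat_lit 761378)))
(L (nat_lit 433267)))
(L (nat_lit 532162)))
(L (nat_lit 762400)))
(L (nat_lit 279267)))
(L (nat_lit 498401)))
(L (nat_lit 558452)))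
(S (nat_lit 5089) (S (nat_lit 94) (S (nat_lit 5572) (S (nat_lit 3027) (S (nat_lit 1646) (S (nat_lit 6543) (S (nat_lit 3203) (S (nat_lit 5206) (S (nat_lit 3471) (S (nat_lit 2747) (S (nat_lit 2090) (S (nat_lit 4189) (D (nat_lit 12) (nat_lit 598436) (nat_lit 345669) (nat_lit 68786620482))
(L (nat_lit 689578)))
(L (nat_lit 731617)))
(L (nat_lit 213011)))
(L (nat_lit 630241)))
(L (nat_lit 703656)))
(L (nat_lit 559719)))
(L (nat_lit 668963)))
(L (nat_lit 197014)))
(L (nat_lit 563382)))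
(L (nat_lit 241846)))
(L (nat_lit 86505)))
(L (nat_lit 605322)))))
(L (nat_lit 598193)))))
(S (nat_lit 6054) (S (nat_lit 1304) (S (nat_lit 173) (S (nat_lit 592) (S (nat_lit 4522) (S (nat_lit 4695) (L (nat_lit 154864))
(L (nat_lit 299543)))
(L (nat_lit 671013)))
(S (nat_lit 2806) (S (nat_lit 3007) (L (nat_lit 245783))
(S (nat_lit 4695) (S (nat_lit 1646) (S (nat_lit 5572) (S (nat_lit 5337) (S (nat_lit 4522) (S (nat_lit 989) (S (nat_lit 3594) (S (nat_lit 135) (S (nat_lit 1534) (S (nat_lit 2149) (S (nat_lit 5352) (D (nat_lit 12) (nat_lit 736579) (nat_lit 403009) (nat_lit 2199056875554))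
(L (nat_lit 349665)))
(L (nat_lit 446535)))
(L (nat_lit 482563)))
(L (nat_lit 728141)))
(L (nat_lit 577577)))
(L (nat_lit 21993)))
(L (nat_lit 566885)))
(L (nat_lit 373943)))
(L (nat_lit 88587)))
(L (nat_lit 176503)))
(L (nat_lit 665088))))
(S (nat_lit 5020) (S (nat_lit 405) (S (nat_lit 3594) (L (nat_lit 513127))
(L (nat_lit 577859)))
(L (nat_lit 636227)))
(L (nat_lit 596512)))))
(S (nat_lit 2387) (S (nat_lit 1646) (S (nat_lit 5337) (S (nat_lit 813) (L (nat_lit 145126))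
(L (nat_lit 636934)))
(L (nat_lit 670823)))
(S (nat_lit 3860) (S (nat_lit 813) (S (nat_lit 94) (S (nat_lit 739) (S (nat_lit 167) (L (nat_lit 414979))
(L (nat_lit 433824)))
(L (nat_lit 533556)))
(L (nat_lit 435221)))
(S (nat_lit 6524) (L (nat_lit 374400))
(L (nat_lit 529030))))
(S (nat_lit 6074) (S (nat_lit 3123) (S (nat_lit 813) (L (nat_lit 310386))
(L (nat_lit 216450)))
(L (nat_lit 46727)))
(L (nat_lit 600450)))))
(S (nat_lit 4601) (S (nat_lit 1636) (S (nat_lit 6543) (S (nat_lit 5572) (S (nat_lit 5690) (S (nat_lit 2875) (L (nat_lit 142738))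
(L (nat_lit 329455)))
(L (nat_lit 760323)))
(L (nat_lit 659724)))
(L (nat_lit 88617)))
(S (nat_lit 3850) (S (nat_lit 2481) (S (nat_lit 661) (L (nat_lit 696492))
(L (nat_lit 310324)))
(L (nat_lit 87277)))
(S (nat_lit 6064) (S (nat_lit 5089) (S (nat_lit 5341) (S (nat_lit 6295) (S (nat_lit 6074) (S (nat_lit 2308) (S (nat_lit 813) (S (nat_lit 3410) (S (nat_lit 5061) (S (nat_lit 989) (D (nat_lit 12) (nat_lit 662604) (nat_lit 84358) (nat_lit 1169338466305))
(L (nat_lit 640135)))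
(L (nat_lit 499397)))
(L (nat_lit 656808)))
(L (nat_lit 637186)))
(L (nat_lit 459031)))
(L (nat_lit 340544)))
(L (nat_lit 23920)))
(L (nat_lit 343748)))
(L (nat_lit 558695)))
(L (nat_lit 591213)))))
(L (nat_lit 598193)))))
(S (nat_lit 3518) (S (nat_lit 167) (S (nat_lit 909) (S (nat_lit 173) (S (nat_lit 2806) (S (nat_lit 5808) (L (nat_lit 45670))
(L (nat_lit 285742)))
(L (nat_lit 247461)))
(S (nat_lit 395) (S (nat_lit 3066) (L (nat_lit 396903))
(L (nat_lit 631920)))
(L (nat_lit 249969))))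
(S (nat_lit 3123) (S (nat_lit 3762) (S (nat_lit 5572) (S (nat_lit 813) (S (nat_lit 2953) (L (nat_lit 730256))
(L (nat_lit 402051)))
(L (nat_lit 85542)))
(L (nat_lit 85510)))
(L (nat_lit 759334)))
(S (nat_lit 5337) (S (nat_lit 813) (S (nat_lit 5808) (S (nat_lit 1646) (S (nat_lit 6543) (S (nat_lit 4081) (S (nat_lit 843) (S (nat_lit 4807) (S (nat_lit 2979) (S (nat_lit 156) (S (nat_lit 5368) (D (nat_lit 12) (nat_lit 529650) (nat_lit 310849) (nat_lit 1100586483712))
(L (nat_lit 532162)))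
(L (nat_lit 547106)))
(L (nat_lit 700609)))
(L (nat_lit 462507)))
(L (nat_lit 564930)))
(L (nat_lit 546859)))
(L (nat_lit 213731)))
(L (nat_lit 243799)))
(L (nat_lit 501443)))
(L (nat_lit 85543)))
(L (nat_lit 601200)))))
(S (nat_lit 2381) (S (nat_lit 917) (S (nat_lit 3317) (L (nat_lit 263825))
(S (nat_lit 5417) (S (nat_lit 3427) (L (nat_lit 312996))
(S (nat_lit 4833) (S (nat_lit 5241) (S (nat_lit 2953) (L (nat_lit 557303))
(L (nat_lit 318476)))
(L (nat_lit 515238)))
(L (nat_lit 316835))))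
(L (nat_lit 233037))))
(S (nat_lit 2071) (L (nat_lit 137901))
(S (nat_lit 6114) (S (nat_lit 2619) (L (nat_lit 153870))
(L (nat_lit 481605)))
(L (nat_lit 546890)))))
(S (nat_lit 4595) (S (nat_lit 3088) (S (nat_lit 1144) (L (nat_lit 39532))
(L (nat_lit 340545)))
(S (nat_lit 3171) (S (nat_lit 5572) (L (nat_lit 11730))
(L (nat_lit 72364)))
(S (nat_lit 4833) (S (nat_lit 1519) (L (nat_lit 310325))
(S (nat_lit 3203) (S (nat_lit 2953) (S (nat_lit 1361) (L (nat_lit 45331))
(L (nat_lit 733475)))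
(L (nat_lit 318508)))
(L (nat_lit 759949))))
(L (nat_lit 547944)))))
(L (nat_lit 602155)))))
(S (nat_lit 5732) (S (nat_lit 813) (S (nat_lit 2115) (S (nat_lit 2806) (S (nat_lit 989) (S (nat_lit 2387) (L (nat_lit 723430))
(L (nat_lit 754928)))
(L (nat_lit 531141)))
(S (nat_lit 5265) (L (nat_lit 575656))
(L (nat_lit 250990))))
(S (nat_lit 4329) (S (nat_lit 4695) (S (nat_lit 2619) (S (nat_lit 1867) (S (nat_lit 3123) (S (nat_lit 5167) (S (nat_lit 6064) (S (nat_lit 3762) (S (nat_lit 4522) (S (nat_lit 3938) (S (nat_lit 3131) (S (nat_lit 989) (S (nat_lit 3127) (S (nat_lit 639) (S (nat_lit 2845) (S (nat_lit 6097) (S (nat_lit 276) (S (nat_lit 4964) (D (nat_lit 12) (nat_lit 41679) (nat_lit 602339) (nat_lit 1100621023297))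
(L (nat_lit 413921)))
(L (nat_lit 667873)))
(L (nat_lit 512354)))
(L (nat_lit 671012)))
(S (nat_lit 5840) (S (nat_lit 3020) (S (nat_lit 316) (S (nat_lit 798) (D (nat_lit 8) (nat_lit 727427) (nat_lit 532530) (nat_lit 34637826))
(L (nat_lit 730528)))
(L (nat_lit 770059)))
(L (nat_lit 480545)))
(L (nat_lit 771211))))
(L (nat_lit 765476)))
(L (nat_lit 628879)))
(L (nat_lit 151018)))
(L (nat_lit 531573)))
(L (nat_lit 565856)))
(L (nat_lit 177396)))
(L (nat_lit 361875)))
(L (nat_lit 148694)))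
(L (nat_lit 146646)))
(L (nat_lit 510305)))
(L (nat_lit 55565)))
(L (nat_lit 659757)))
(S (nat_lit 6543) (S (nat_lit 5167) (S (nat_lit 1380) (S (nat_lit 2619) (S (nat_lit 909) (S (nat_lit 2806) (S (nat_lit 2481) (S (nat_lit 5916) (S (nat_lit 2354) (S (nat_lit 5560) (S (nat_lit 2287) (D (nat_lit 12) (nat_lit 595367) (nat_lit 142928) (nat_lit 1081408))
(L (nat_lit 656590)))
(L (nat_lit 624881)))
(L (nat_lit 448768)))
(L (nat_lit 253105)))
(L (nat_lit 758312)))
(L (nat_lit 511232)))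
(L (nat_lit 536131)))
(L (nat_lit 209539)))
(L (nat_lit 534147)))
(L (nat_lit 665091)))
(L (nat_lit 603493)))))
(S (nat_lit 3027) (S (nat_lit 173) (S (nat_lit 6074) (S (nat_lit 3938) (L (nat_lit 728448))
(L (nat_lit 87465)))
(L (nat_lit 655724)))
(S (nat_lit 2387) (S (nat_lit 1380) (S (nat_lit 2115) (L (nat_lit 568435))
(L (nat_lit 512293)))
(L (nat_lit 632195)))
(S (nat_lit 4601) (S (nat_lit 6152) (S (nat_lit 2481) (L (nat_lit 138646))
(L (nat_lit 75316)))
(L (nat_lit 299442)))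
(L (nat_lit 604330)))))
(S (nat_lit 5241) (S (nat_lit 173) (S (nat_lit 661) (S (nat_lit 4695) (L (nat_lit 328117))
(L (nat_lit 528629)))
(L (nat_lit 627022)))
(S (nat_lit 2387) (S (nat_lit 1724) (S (nat_lit 3850) (L (nat_lit 692496))
(L (nat_lit 548161)))
(L (nat_lit 56839)))
(S (nat_lit 4601) (S (nat_lit 2308) (L (nat_lit 700455))
(L (nat_lit 515360)))
(L (nat_lit 599216)))))
(L (nat_lit 594222)))))
(L (nat_lit 594125)))))
(L (nat_lit 597445)))))

theorem ra39_3 : run 3 la39 [] ta39_3 ka39 (P4 3 490 0 695 490 0 1 0 0) [] = true := by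
  decide +kernel

end Pool.Agent.MP_92191b_al.K3.E
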