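import Pool.Agent.MP_92191b_al.K3.CR6

/-! Refutation trees. -/

namespace Pool.Agent.MP_92191b_al.K3.E

open Tr

set_option maxRecDepth 100000

noncomputable def tb264_4 : Tr :=
(S (nat_lit 16303) (S (nat_lit 11954) (S (nat_lit 6866) (S (nat_lit 2192) (S (nat_lit 15840) (S (nat_lit 10761) (S (nat_lit 3429) (S (nat_lit 10704) (S (nat_lit 18958) (S (nat_lit 39787) (S (nat_lit 18011) (L (nat_lit 3743224))
(L (nat_lit 24273102)))
(L (nat_lit 23293998)))
(L (nat_lit 24634471)))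
(L (nat_lit 15045494)))
(S (nat_lit 42876) (S (nat_lit 12171) (S (nat_lit 10704) (L (nat_lit 19709097))
(L (nat_lit 3524438)))
(L (nat_lit 3666294)))
(L (nat_lit 26790213))))
(S (nat_lit 30525) (S (nat_lit 19500) (S (nat_lit 509) (S (nat_lit 0) (L (nat_lit 19100751))
(L (nat_lit 26811436)))
(L (nat_lit 20744496)))
(S (nat_lit 58947) (L (nat_lit 10981140))
(L (nat_lit 26807753))))
(S (nat_lit 50289) (S (nat_lit 3164) (S (nat_lit 1724) (L (nat_lit 16359265))
(L (nat_lit 2925014)))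
(L (nat_lit 26479279)))
(L (nat_lit 25789648)))))
(S (nat_lit 35604) (S (nat_lit 7561) (S (nat_lit 12171) (S (nat_lit 13864) (L (nat_lit 16092019))
(L (nat_lit 13371763)))
(L (nat_lit 26563729)))
(S (nat_lit 27325) (S (nat_lit 44685) (S (nat_lit 33685) (L (nat_lit 5616501))
(L (nat_lit 3470899)))
(L (nat_lit 6038067)))
(S (nat_lit 47089) (S (nat_lit 18011) (S (nat_lit 38057) (S (nat_lit 48589) (L (nat_lit 26815596))
(L (nat_lit 1697257)))
(L (nat_lit 23891465)))
(L (nat_lit 16375914)))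
(L (nat_lit 25757966)))))
(S (nat_lit 55368) (S (nat_lit 19226) (S (nat_lit 33652) (S (nat_lit 32401) (L (nat_lit 12291613))
(L (nat_lit 11209277)))
(L (nat_lit 16114338)))
(S (nat_lit 38990) (S (nat_lit 32660) (S (nat_lit 10704) (L (nat_lit 30740019))
(L (nat_lit 17565417)))
(L (nat_lit 4711078)))
(S (nat_lit 58754) (S (nat_lit 21786) (S (nat_lit 8572) (L (nat_lit 19701281))
(L (nat_lit 21053290)))
(L (nat_lit 14689139)))
(L (nat_lit 25799822)))))
(L (nat_lit 25212151)))))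
(S (nat_lit 21956) (S (nat_lit 6370) (S (nat_lit 15143) (S (nat_lit 3937) (S (nat_lit 2022) (S (nat_lit 57539) (L (nat_lit 30749377))
(L (nat_lit 21011310)))
(L (nat_lit 20149260)))
(L (nat_lit 26876453)))
(S (nat_lit 34907) (S (nat_lit 13921) (S (nat_lit 1724) (L (nat_lit 19074555))
(L (nat_lit 13372758)))
(L (nat_lit 22547771)))
(S (nat_lit 54671) (S (nat_lit 57539) (S (nat_lit 20558) (L (nat_lit 10206049))
(L (nat_lit 22158225)))
(L (nat_lit 2629492)))
(L (nat_lit 25250128)))))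
(S (nat_lit 26134) (S (nat_lit 3429) (S (nat_lit 13921) (S (nat_lit 52899) (S (nat_lit 58044) (L (nat_lit 28527761))
(L (nat_lit 3521149)))
(L (nat_lit 21928045)))
(S (nat_lit 28836) (L (nat_lit 26779269))
(L (nat_lit 10631834))))
(S (nat_lit 23193) (S (nat_lit 21025) (S (nat_lit 57821) (S (nat_lit 5172) (L (nat_lit 2313757))
(L (nat_lit 26970353)))
(L (nat_lit 13371764)))
(L (nat_lit 21110606)))
(S (nat_lit 42957) (S (nat_lit 3672) (S (nat_lit 57539) (S (nat_lit 55581) (S (nat_lit 9067) (S (nat_lit 39264) (S (nat_lit 49058) (S (nat_lit 50510) (L (nat_lit 1946835))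
(L (nat_lit 22100843)))
(L (nat_lit 22143279)))
(L (nat_lit 23465833)))
(L (nat_lit 21464346)))
(L (nat_lit 14411041)))
(L (nat_lit 21797996)))
(L (nat_lit 19128769)))
(L (nat_lit 25368019)))))
(S (nat_lit 45898) (S (nat_lit 15122) (S (nat_lit 15632) (S (nat_lit 2722) (L (nat_lit 16395324))
(L (nat_lit 26479276)))
(L (nat_lit 24475105)))
(S (nat_lit 34886) (S (nat_lit 57539) (S (nat_lit 30746) (L (nat_lit 17570934))
(L (nat_lit 2374483)))
(L (nat_lit 2629554)))
(S (nat_lit 54650) (S (nat_lit 1724) (S (nat_lit 40322) (S (nat_lit 42919) (S (nat_lit 45853) (L (nat_lit 9007521))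
(L (nat_lit 9342357)))
(L (nat_lit 7079413)))
(L (nat_lit 17075062)))
(L (nat_lit 14454440)))
(L (nat_lit 25177840)))))
(L (nat_lit 25303508)))))
(S (nat_lit 41720) (S (nat_lit 5157) (S (nat_lit 3672) (S (nat_lit 43703) (S (nat_lit 13864) (S (nat_lit 22741) (S (nat_lit 54859) (L (nat_lit 10884918))
(L (nat_lit 20996648)))
(L (nat_lit 22168363)))
(L (nat_lit 8784758)))
(L (nat_lit 16549142)))
(S (nat_lit 23436) (S (nat_lit 41550) (S (nat_lit 9530) (L (nat_lit 15833850))
(L (nat_lit 26415539)))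
(L (nat_lit 9177651)))
(S (nat_lit 43200) (S (nat_lit 20023) (S (nat_lit 5178) (L (nat_lit 19231233))
(L (nat_lit 26393256)))
(L (nat_lit 15946813)))
(L (nat_lit 25251118)))))
(S (nat_lit 24921) (S (nat_lit 15331) (S (nat_lit 10982) (S (nat_lit 58044) (S (nat_lit 23701) (L (nat_lit 29546026))
(L (nat_lit 21925418)))
(L (nat_lit 21148554)))
(L (nat_lit 7149107)))
(S (nat_lit 35095) (S (nat_lit 31005) (S (nat_lit 33180) (S (nat_lit 33198) (S (nat_lit 2496) (L (nat_lit 28355149))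
(L (nat_lit 26547763)))
(L (nat_lit 23111228)))
(L (nat_lit 30885926)))
(L (nat_lit 30525990)))
(S (nat_lit 54859) (S (nat_lit 6589) (S (nat_lit 33135) (S (nat_lit 5172) (L (nat_lit 1515315))
(L (nat_lit 11406803)))
(L (nat_lit 23310460)))
(S (nat_lit 30201) (L (nat_lit 13748570))
(L (nat_lit 21246010))))
(L (nat_lit 25186696)))))
(S (nat_lit 44685) (S (nat_lit 3937) (S (nat_lit 30468) (S (nat_lit 34901) (S (nat_lit 13416) (L (nat_lit 28726496))
(L (nat_lit 25003559)))
(L (nat_lit 20809254)))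
(L (nat_lit 24479290)))
(S (nat_lit 23701) (S (nat_lit 21089) (L (nat_lit 3907067))
(S (nat_lit 40322) (S (nat_lit 32178) (S (nat_lit 2022) (S (nat_lit 34907) (L (nat_lit 2520714))
(L (nat_lit 8161904)))
(L (nat_lit 13507301)))
(L (nat_lit 2680150)))
(L (nat_lit 18615911))))
(S (nat_lit 43465) (S (nat_lit 33180) (S (nat_lit 21786) (L (nat_lit 1265213))
(L (nat_lit 5097163)))
(L (nat_lit 23858540)))
(L (nat_lit 25824810)))))
(L (nat_lit 25904138)))))
(L (nat_lit 25205421)))))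
(S (nat_lit 26630) (S (nat_lit 8572) (S (nat_lit 1504) (S (nat_lit 17544) (S (nat_lit 3164) (S (nat_lit 58754) (S (nat_lit 2722) (S (nat_lit 43200) (S (nat_lit 9530) (L (nat_lit 3404307))
(L (nat_lit 26334697)))
(L (nat_lit 24946112)))
(L (nat_lit 15379514)))
(L (nat_lit 18904428)))
(L (nat_lit 26495521)))
(S (nat_lit 22078) (L (nat_lit 26263146))
(L (nat_lit 26324593))))
(S (nat_lit 21268) (S (nat_lit 5172) (S (nat_lit 55581) (S (nat_lit 13864) (S (nat_lit 36290) (S (nat_lit 43200) (L (nat_lit 5558747))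
(L (nat_lit 24520545)))
(L (nat_lit 12017472)))
(L (nat_lit 9211382)))
(L (nat_lit 16420680)))
(S (nat_lit 24936) (S (nat_lit 58044) (S (nat_lit 30746) (S (nat_lit 43703) (L (nat_lit 2891342))
(L (nat_lit 16555712)))
(L (nat_lit 24647498)))
(L (nat_lit 3977930)))
(S (nat_lit 44700) (S (nat_lit 11422) (S (nat_lit 6370) (L (nat_lit 19307675))
(L (nat_lit 16603393)))
(L (nat_lit 21764577)))
(L (nat_lit 25627338)))))
(S (nat_lit 41032) (S (nat_lit 19500) (S (nat_lit 33135) (S (nat_lit 33198) (S (nat_lit 4631) (L (nat_lit 26423940))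
(L (nat_lit 26293558)))
(L (nat_lit 5590893)))
(L (nat_lit 15373158)))
(S (nat_lit 39264) (S (nat_lit 44183) (S (nat_lit 50769) (L (nat_lit 24585372))
(L (nat_lit 15066262)))
(L (nat_lit 23897635)))
(S (nat_lit 59028) (S (nat_lit 24756) (L (nat_lit 13490314))
(S (nat_lit 33685) (S (nat_lit 38722) (S (nat_lit 7826) (L (nat_lit 30054818))
(L (nat_lit 21460322)))
(L (nat_lit 2681078)))
(L (nat_lit 15347555))))
(L (nat_lit 25433557)))))
(L (nat_lit 25661813)))))
(S (nat_lit 28336) (S (nat_lit 10704) (S (nat_lit 16526) (S (nat_lit 43465) (S (nat_lit 42957) (L (nat_lit 19435335))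
(L (nat_lit 24951109)))
(L (nat_lit 24952133)))
(S (nat_lit 36290) (S (nat_lit 55581) (S (nat_lit 40322) (S (nat_lit 5172) (L (nat_lit 8935608))
(L (nat_lit 26971592)))
(L (nat_lit 28019984)))
(L (nat_lit 15994709)))
(S (nat_lit 56054) (S (nat_lit 26134) (S (nat_lit 29294) (L (nat_lit 29468272))
(L (nat_lit 19668111)))
(L (nat_lit 17474401)))
(L (nat_lit 25445090)))))
(S (nat_lit 30468) (S (nat_lit 34901) (S (nat_lit 18011) (S (nat_lit 18516) (S (nat_lit 26152) (S (nat_lit 19500) (L (nat_lit 9867123))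
(L (nat_lit 22297689)))
(L (nat_lit 5086612)))
(L (nat_lit 9288292)))
(L (nat_lit 22552320)))
(L (nat_lit 30940800)))
(S (nat_lit 50232) (S (nat_lit 37775) (S (nat_lit 26152) (S (nat_lit 24942) (S (nat_lit 57821) (S (nat_lit 49076) (L (nat_lit 8873665))
(L (nat_lit 14441609)))
(L (nat_lit 19173260)))
(L (nat_lit 14458529)))
(L (nat_lit 1875693)))
(L (nat_lit 4726612)))
(L (nat_lit 25543828)))))
(S (nat_lit 48100) (S (nat_lit 259) (S (nat_lit 42957) (S (nat_lit 27590) (S (nat_lit 27325) (L (nat_lit 24326299))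
(L (nat_lit 15945880)))
(L (nat_lit 16524866)))
(S (nat_lit 43868) (L (nat_lit 19665448))
(L (nat_lit 2931306))))
(S (nat_lit 20023) (S (nat_lit 4631) (S (nat_lit 5178) (S (nat_lit 43703) (S (nat_lit 52165) (L (nat_lit 5725994))
(L (nat_lit 8950425)))
(L (nat_lit 8975040)))
(L (nat_lit 8870753)))
(S (nat_lit 24395) (S (nat_lit 51942) (S (nat_lit 24419) (S (nat_lit 15122) (L (nat_lit 3722090))
(L (nat_lit 22220221)))
(L (nat_lit 9195598)))
(L (nat_lit 27763425)))
(S (nat_lit 44159) (S (nat_lit 17544) (S (nat_lit 52165) (S (nat_lit 31005) (L (nat_lit 29074914))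
(L (nat_lit 5940796)))
(L (nat_lit 8950425)))
(L (nat_lit 6378009)))
(L (nat_lit 25368236)))))
(S (nat_lit 39787) (S (nat_lit 18958) (S (nat_lit 12974) (L (nat_lit 16525335))
(S (nat_lit 44706) (S (nat_lit 27590) (S (nat_lit 13864) (L (nat_lit 11274929))
(L (nat_lit 9222259)))
(L (nat_lit 25069777)))
(L (nat_lit 4988435))))
(S (nat_lit 38722) (S (nat_lit 53416) (S (nat_lit 51942) (L (nat_lit 24338575))
(L (nat_lit 22586145)))
(L (nat_lit 17141622)))
(S (nat_lit 58486) (S (nat_lit 24419) (S (nat_lit 15122) (L (nat_lit 24288763))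
(L (nat_lit 5528988)))
(L (nat_lit 17571990)))
(L (nat_lit 25724147)))))
(L (nat_lit 25580585)))))
(L (nat_lit 25364047)))))
(S (nat_lit 46394) (S (nat_lit 16526) (S (nat_lit 10704) (S (nat_lit 7826) (S (nat_lit 50256) (S (nat_lit 57821) (S (nat_lit 44216) (L (nat_lit 29075596))
(L (nat_lit 23855499)))
(L (nat_lit 10226380)))
(L (nat_lit 14393187)))
(S (nat_lit 27590) (S (nat_lit 11422) (S (nat_lit 18958) (L (nat_lit 3743290))
(L (nat_lit 26969610)))
(L (nat_lit 3985613)))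
(S (nat_lit 47354) (S (nat_lit 27833) (S (nat_lit 48574) (S (nat_lit 26134) (L (nat_lit 31169708))
(L (nat_lit 22815105)))
(L (nat_lit 22350705)))
(L (nat_lit 19666256)))
(L (nat_lit 25382338)))))
(S (nat_lit 30468) (S (nat_lit 7826) (S (nat_lit 2722) (S (nat_lit 32660) (S (nat_lit 2022) (L (nat_lit 2416185))
(L (nat_lit 6025420)))
(L (nat_lit 24223598)))
(L (nat_lit 26490005)))
(S (nat_lit 27590) (S (nat_lit 972) (L (nat_lit 8097337))
(L (nat_lit 9177676)))
(S (nat_lit 47354) (S (nat_lit 32660) (S (nat_lit 13864) (L (nat_lit 25075233))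
(L (nat_lit 13372790)))
(L (nat_lit 24245454)))
(L (nat_lit 25667298)))))
(S (nat_lit 50232) (S (nat_lit 13218) (L (nat_lit 16074905))
(S (nat_lit 54665) (S (nat_lit 48574) (S (nat_lit 12637) (S (nat_lit 56845) (S (nat_lit 26353) (L (nat_lit 9263589))
(L (nat_lit 16535593)))
(L (nat_lit 27925953)))
(L (nat_lit 26592407)))
(L (nat_lit 22811144)))
(L (nat_lit 9198112))))
(L (nat_lit 25462350)))))
(S (nat_lit 36290) (S (nat_lit 40322) (S (nat_lit 55581) (S (nat_lit 5172) (S (nat_lit 13864) (S (nat_lit 45853) (S (nat_lit 17055) (S (nat_lit 15632) (S (nat_lit 23436) (S (nat_lit 45898) (S (nat_lit 50256) (S (nat_lit 39528) (L (nat_lit 7522781))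
(L (nat_lit 5895372)))
(L (nat_lit 2880011)))
(L (nat_lit 27308743)))
(L (nat_lit 8128019)))
(L (nat_lit 6950799)))
(L (nat_lit 26938889)))
(L (nat_lit 23433037)))
(L (nat_lit 9146222)))
(L (nat_lit 26971592)))
(L (nat_lit 16486216)))
(L (nat_lit 28019984)))
(S (nat_lit 56054) (S (nat_lit 4655) (S (nat_lit 1724) (S (nat_lit 40789) (S (nat_lit 45916) (S (nat_lit 13864) (L (nat_lit 29908138))
(L (nat_lit 13372011)))
(L (nat_lit 12590933)))
(L (nat_lit 18489185)))
(S (nat_lit 13789) (L (nat_lit 17470747))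
(L (nat_lit 2934006))))
(S (nat_lit 24419) (S (nat_lit 972) (S (nat_lit 1724) (L (nat_lit 2450032))
(L (nat_lit 14454440)))
(S (nat_lit 20736) (S (nat_lit 58754) (S (nat_lit 15143) (S (nat_lit 37308) (L (nat_lit 30117320))
(L (nat_lit 2378170)))
(L (nat_lit 22234269)))
(L (nat_lit 7134348)))
(S (nat_lit 40500) (S (nat_lit 29249) (S (nat_lit 20558) (L (nat_lit 11383958))
(L (nat_lit 30594471)))
(L (nat_lit 24602793)))
(L (nat_lit 25758090)))))
(S (nat_lit 44183) (S (nat_lit 7023) (S (nat_lit 7689) (L (nat_lit 15037556))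
(L (nat_lit 15855828)))
(S (nat_lit 12171) (S (nat_lit 52962) (S (nat_lit 11743) (S (nat_lit 33685) (L (nat_lit 6984557))
(L (nat_lit 16048278)))
(L (nat_lit 18012038)))
(L (nat_lit 3952167)))
(L (nat_lit 17932148))))
(L (nat_lit 25597174)))))
(L (nat_lit 25278802)))))
(L (nat_lit 25540259)))))
(S (nat_lit 31718) (S (nat_lit 509) (S (nat_lit 11422) (S (nat_lit 2977) (S (nat_lit 5157) (S (nat_lit 42250) (S (nat_lit 7561) (S (nat_lit 6325) (S (nat_lit 16526) (S (nat_lit 50769) (L (nat_lit 29595244))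
(L (nat_lit 20309137)))
(L (nat_lit 8937650)))
(L (nat_lit 18998541)))
(L (nat_lit 21160270)))
(L (nat_lit 24436780)))
(L (nat_lit 19063272)))
(S (nat_lit 22741) (S (nat_lit 4655) (S (nat_lit 6589) (S (nat_lit 16526) (L (nat_lit 29533836))
(L (nat_lit 24939975)))
(L (nat_lit 7069742)))
(L (nat_lit 26387959)))
(S (nat_lit 42505) (S (nat_lit 27590) (S (nat_lit 29294) (S (nat_lit 13864) (S (nat_lit 50769) (L (nat_lit 3924175))
(L (nat_lit 3564790)))
(L (nat_lit 8785779)))
(L (nat_lit 2315771)))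
(L (nat_lit 6802491)))
(L (nat_lit 25475253)))))
(S (nat_lit 31186) (S (nat_lit 17317) (S (nat_lit 17544) (S (nat_lit 5457) (L (nat_lit 5621623))
(S (nat_lit 53416) (S (nat_lit 3164) (L (nat_lit 26577582))
(L (nat_lit 15280961)))
(L (nat_lit 16976755))))
(S (nat_lit 37308) (S (nat_lit 18516) (S (nat_lit 46394) (L (nat_lit 13803445))
(L (nat_lit 18620001)))
(L (nat_lit 24294218)))
(S (nat_lit 57072) (S (nat_lit 32660) (S (nat_lit 35095) (S (nat_lit 33135) (L (nat_lit 8581620))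
(L (nat_lit 5658407)))
(L (nat_lit 4018481)))
(L (nat_lit 30514796)))
(L (nat_lit 25277030)))))
(S (nat_lit 37081) (S (nat_lit 17544) (S (nat_lit 26630) (S (nat_lit 23193) (L (nat_lit 9179603))
(L (nat_lit 30624195)))
(L (nat_lit 15572577)))
(S (nat_lit 37308) (S (nat_lit 54650) (S (nat_lit 12171) (S (nat_lit 19764) (L (nat_lit 28591717))
(L (nat_lit 8434515)))
(L (nat_lit 21077841)))
(L (nat_lit 17043316)))
(S (nat_lit 57072) (S (nat_lit 10704) (S (nat_lit 3164) (S (nat_lit 28831) (L (nat_lit 30756385))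
(L (nat_lit 24546621)))
(L (nat_lit 19217217)))
(L (nat_lit 14789462)))
(L (nat_lit 25465271)))))
(S (nat_lit 56845) (S (nat_lit 17055) (S (nat_lit 45853) (S (nat_lit 18958) (S (nat_lit 36533) (S (nat_lit 10704) (L (nat_lit 19186844))
(L (nat_lit 9625424)))
(L (nat_lit 3535316)))
(L (nat_lit 26707655)))
(L (nat_lit 15044436)))
(S (nat_lit 36819) (S (nat_lit 0) (S (nat_lit 1724) (S (nat_lit 259) (L (nat_lit 2530195))
(L (nat_lit 7125696)))
(L (nat_lit 13176646)))
(S (nat_lit 39420) (S (nat_lit 44700) (L (nat_lit 5823335))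
(L (nat_lit 15459553)))
(L (nat_lit 14437600))))
(S (nat_lit 56583) (S (nat_lit 23193) (L (nat_lit 24317403))
(L (nat_lit 30608851)))
(L (nat_lit 25186761)))))
(L (nat_lit 25676967)))))
(S (nat_lit 50950) (S (nat_lit 10761) (S (nat_lit 29294) (S (nat_lit 27325) (S (nat_lit 48100) (S (nat_lit 23939) (S (nat_lit 50769) (S (nat_lit 35396) (S (nat_lit 31132) (L (nat_lit 30456456))
(L (nat_lit 3940048)))
(L (nat_lit 12707466)))
(L (nat_lit 12707527)))
(L (nat_lit 13377216)))
(L (nat_lit 16978681)))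
(L (nat_lit 24340622)))
(L (nat_lit 3370483)))
(S (nat_lit 30525) (S (nat_lit 8572) (S (nat_lit 15143) (S (nat_lit 7826) (S (nat_lit 47089) (S (nat_lit 9608) (S (nat_lit 5178) (S (nat_lit 43200) (S (nat_lit 31507) (S (nat_lit 13864) (L (nat_lit 3457723))
(L (nat_lit 11287235)))
(L (nat_lit 24437904)))
(L (nat_lit 24474672)))
(L (nat_lit 20096849)))
(L (nat_lit 19439428)))
(L (nat_lit 20122044)))
(L (nat_lit 21170684)))
(L (nat_lit 13830780)))
(L (nat_lit 21195236)))
(S (nat_lit 50289) (S (nat_lit 34907) (S (nat_lit 1724) (S (nat_lit 36819) (S (nat_lit 9046) (S (nat_lit 18958) (L (nat_lit 30726625))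
(L (nat_lit 16548182)))
(L (nat_lit 6996123)))
(L (nat_lit 12755799)))
(L (nat_lit 2925014)))
(L (nat_lit 20122105)))
(L (nat_lit 25381285)))))
(L (nat_lit 25337488)))))
(S (nat_lit 20273) (S (nat_lit 15143) (S (nat_lit 19500) (S (nat_lit 9548) (S (nat_lit 58044) (S (nat_lit 1724) (S (nat_lit 53416) (S (nat_lit 45916) (L (nat_lit 26662955))
(L (nat_lit 24339536)))
(L (nat_lit 8261011)))
(L (nat_lit 26578608)))
(L (nat_lit 14880381)))
(S (nat_lit 29312) (S (nat_lit 36819) (S (nat_lit 42505) (L (nat_lit 11723254))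
(L (nat_lit 24918150)))
(L (nat_lit 13536565)))
(S (nat_lit 49076) (S (nat_lit 31935) (S (nat_lit 13864) (L (nat_lit 15951456))
(L (nat_lit 8785779)))
(L (nat_lit 19457160)))
(L (nat_lit 25594471)))))
(S (nat_lit 39264) (S (nat_lit 18516) (S (nat_lit 28810) (S (nat_lit 29312) (S (nat_lit 31935) (L (nat_lit 30588115))
(L (nat_lit 30987400)))
(L (nat_lit 19697129)))
(L (nat_lit 12637001)))
(L (nat_lit 2315119)))
(S (nat_lit 59028) (S (nat_lit 8957) (S (nat_lit 7689) (L (nat_lit 7264739))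
(L (nat_lit 19107660)))
(S (nat_lit 47793) (S (nat_lit 57310) (S (nat_lit 13864) (S (nat_lit 17544) (S (nat_lit 37081) (L (nat_lit 29368822))
(L (nat_lit 10913619)))
(L (nat_lit 6370165)))
(L (nat_lit 13277275)))
(L (nat_lit 12081989)))
(L (nat_lit 22115787))))
(L (nat_lit 25255121)))))
(S (nat_lit 34907) (S (nat_lit 9046) (S (nat_lit 29294) (S (nat_lit 16053) (S (nat_lit 44700) (S (nat_lit 36819) (S (nat_lit 48100) (S (nat_lit 50232) (L (nat_lit 30127114))
(L (nat_lit 16456859)))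
(L (nat_lit 22584473)))
(L (nat_lit 23870601)))
(L (nat_lit 8089745)))
(L (nat_lit 22550681)))
(L (nat_lit 18044059)))
(L (nat_lit 6996123)))
(S (nat_lit 54671) (S (nat_lit 12896) (S (nat_lit 3672) (S (nat_lit 56054) (S (nat_lit 28810) (L (nat_lit 30097542))
(L (nat_lit 30790080)))
(L (nat_lit 15916905)))
(S (nat_lit 23436) (S (nat_lit 40322) (S (nat_lit 47089) (L (nat_lit 29531607))
(L (nat_lit 3913574)))
(L (nat_lit 24677658)))
(S (nat_lit 43200) (S (nat_lit 10704) (S (nat_lit 30492) (L (nat_lit 29482352))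
(L (nat_lit 19668485)))
(L (nat_lit 3949814)))
(L (nat_lit 25821552)))))
(S (nat_lit 32660) (S (nat_lit 6370) (S (nat_lit 1504) (S (nat_lit 50232) (L (nat_lit 1262299))
(L (nat_lit 16636971)))
(L (nat_lit 26286484)))
(S (nat_lit 26134) (S (nat_lit 57539) (S (nat_lit 23436) (S (nat_lit 36290) (L (nat_lit 17124377))
(L (nat_lit 30528969)))
(L (nat_lit 30657550)))
(L (nat_lit 11016052)))
(S (nat_lit 45898) (S (nat_lit 972) (L (nat_lit 8129229))
(L (nat_lit 20711756)))
(L (nat_lit 25211156)))))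
(S (nat_lit 52424) (S (nat_lit 11422) (S (nat_lit 50232) (S (nat_lit 8572) (S (nat_lit 10761) (S (nat_lit 24921) (L (nat_lit 30588523))
(L (nat_lit 30820360)))
(L (nat_lit 5463545)))
(L (nat_lit 5463547)))
(L (nat_lit 8571291)))
(S (nat_lit 31186) (S (nat_lit 24452) (S (nat_lit 57310) (S (nat_lit 48574) (S (nat_lit 37308) (S (nat_lit 10704) (L (nat_lit 3892777))
(L (nat_lit 17587525)))
(L (nat_lit 3590426)))
(L (nat_lit 1852105)))
(L (nat_lit 19052361)))
(L (nat_lit 16900470)))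
(S (nat_lit 50950) (S (nat_lit 8572) (S (nat_lit 49058) (S (nat_lit 7826) (S (nat_lit 5178) (S (nat_lit 1504) (S (nat_lit 47793) (S (nat_lit 1724) (L (nat_lit 14752376))
(L (nat_lit 12967779)))
(L (nat_lit 6745826)))
(L (nat_lit 20039035)))
(L (nat_lit 19046223)))
(L (nat_lit 12799132)))
(L (nat_lit 27479181)))
(L (nat_lit 26435041)))
(L (nat_lit 25680097)))))
(L (nat_lit 25287948)))))
(L (nat_lit 25762242)))))
(S (nat_lit 40037) (S (nat_lit 259) (S (nat_lit 17782) (S (nat_lit 2192) (S (nat_lit 16526) (S (nat_lit 9061) (S (nat_lit 44216) (L (nat_lit 6045974))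
(L (nat_lit 24241546)))
(L (nat_lit 23569466)))
(L (nat_lit 24907207)))
(S (nat_lit 21956) (S (nat_lit 40322) (S (nat_lit 19500) (L (nat_lit 28645008))
(L (nat_lit 25082955)))
(L (nat_lit 24918055)))
(S (nat_lit 41720) (S (nat_lit 7668) (L (nat_lit 16976788))
(S (nat_lit 41032) (S (nat_lit 58486) (S (nat_lit 32178) (S (nat_lit 35817) (S (nat_lit 22928) (S (nat_lit 15840) (S (nat_lit 28029) (S (nat_lit 43703) (S (nat_lit 34207) (L (nat_lit 13704952))
(S (nat_lit 35396) (S (nat_lit 6388) (L (nat_lit 892372))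
(L (nat_lit 6213837)))
(S (nat_lit 37151) (L (nat_lit 6818520))
(L (nat_lit 355983)))))
(L (nat_lit 14556182)))
(L (nat_lit 8271428)))
(L (nat_lit 7042565)))
(L (nat_lit 11692599)))
(L (nat_lit 6753141)))
(L (nat_lit 2614614)))
(L (nat_lit 13556810)))
(L (nat_lit 24240554))))
(L (nat_lit 25789995)))))
(S (nat_lit 37546) (S (nat_lit 18958) (S (nat_lit 44183) (S (nat_lit 40322) (L (nat_lit 8161782))
(L (nat_lit 5779066)))
(L (nat_lit 24295275)))
(S (nat_lit 38668) (S (nat_lit 13864) (L (nat_lit 24551513))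
(L (nat_lit 12849014)))
(L (nat_lit 802503))))
(S (nat_lit 57310) (S (nat_lit 15137) (S (nat_lit 56054) (S (nat_lit 18293) (L (nat_lit 30583318))
(L (nat_lit 18059090)))
(L (nat_lit 14388570)))
(S (nat_lit 34901) (S (nat_lit 28831) (S (nat_lit 13888) (L (nat_lit 24228774))
(L (nat_lit 8470267)))
(L (nat_lit 9223904)))
(S (nat_lit 54665) (S (nat_lit 13864) (S (nat_lit 1724) (S (nat_lit 48574) (L (nat_lit 29808833))
(L (nat_lit 3952876)))
(L (nat_lit 2906448)))
(L (nat_lit 13371766)))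
(L (nat_lit 25727186)))))
(L (nat_lit 25601078)))))
(S (nat_lit 20023) (S (nat_lit 2496) (S (nat_lit 17055) (S (nat_lit 13371) (S (nat_lit 24452) (L (nat_lit 29700804))
(L (nat_lit 22503466)))
(L (nat_lit 8118820)))
(S (nat_lit 36819) (S (nat_lit 1724) (S (nat_lit 40322) (S (nat_lit 45898) (S (nat_lit 13864) (L (nat_lit 29959184))
(L (nat_lit 24157039)))
(L (nat_lit 2530009)))
(L (nat_lit 6008688)))
(L (nat_lit 2892246)))
(S (nat_lit 56583) (S (nat_lit 38057) (S (nat_lit 52165) (L (nat_lit 29611149))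
(L (nat_lit 22980128)))
(L (nat_lit 23257454)))
(L (nat_lit 25797124)))))
(S (nat_lit 22260) (S (nat_lit 5157) (S (nat_lit 15331) (S (nat_lit 13371) (S (nat_lit 41550) (S (nat_lit 42250) (L (nat_lit 24277327))
(L (nat_lit 24437281)))
(L (nat_lit 778795)))
(L (nat_lit 8118818)))
(L (nat_lit 8099386)))
(L (nat_lit 18604072)))
(S (nat_lit 42024) (S (nat_lit 4631) (S (nat_lit 56845) (S (nat_lit 13371) (S (nat_lit 23436) (L (nat_lit 22456377))
(L (nat_lit 13378611)))
(L (nat_lit 26980390)))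
(L (nat_lit 2306931)))
(S (nat_lit 24395) (S (nat_lit 36819) (S (nat_lit 45916) (L (nat_lit 26235403))
(L (nat_lit 779536)))
(L (nat_lit 6202094)))
(S (nat_lit 44159) (S (nat_lit 1724) (S (nat_lit 48574) (S (nat_lit 13864) (S (nat_lit 31005) (L (nat_lit 30064930))
(L (nat_lit 24540294)))
(L (nat_lit 13340518)))
(L (nat_lit 11274892)))
(L (nat_lit 12881782)))
(L (nat_lit 25313591)))))
(L (nat_lit 25666210)))))
(S (nat_lit 39787) (S (nat_lit 6589) (S (nat_lit 13888) (S (nat_lit 44700) (S (nat_lit 1724) (S (nat_lit 31005) (L (nat_lit 14801181))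
(L (nat_lit 9549466)))
(L (nat_lit 10259926)))
(L (nat_lit 24579323)))
(S (nat_lit 33652) (S (nat_lit 31005) (S (nat_lit 6866) (S (nat_lit 24452) (S (nat_lit 41720) (L (nat_lit 7255745))
(L (nat_lit 10945178)))
(L (nat_lit 30515670)))
(L (nat_lit 6939696)))
(L (nat_lit 24224657)))
(S (nat_lit 53416) (S (nat_lit 1724) (S (nat_lit 30468) (S (nat_lit 57821) (L (nat_lit 21118825))
(L (nat_lit 27725513)))
(L (nat_lit 18571305)))
(L (nat_lit 12947286)))
(L (nat_lit 25283918)))))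
(S (nat_lit 26353) (S (nat_lit 9061) (S (nat_lit 18293) (S (nat_lit 16053) (S (nat_lit 46394) (L (nat_lit 3612566))
(L (nat_lit 18633027)))
(L (nat_lit 24579978)))
(L (nat_lit 24579292)))
(S (nat_lit 28825) (S (nat_lit 7408) (L (nat_lit 17569414))
(S (nat_lit 50510) (S (nat_lit 46394) (S (nat_lit 19226) (S (nat_lit 29312) (S (nat_lit 7561) (L (nat_lit 28942821))
(L (nat_lit 11264384)))
(L (nat_lit 6786747)))
(L (nat_lit 3005804)))
(L (nat_lit 22392888)))
(L (nat_lit 12302362))))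
(S (nat_lit 48589) (S (nat_lit 31005) (S (nat_lit 33652) (S (nat_lit 18516) (L (nat_lit 2472757))
(L (nat_lit 24551234)))
(L (nat_lit 15477814)))
(L (nat_lit 24245735)))
(L (nat_lit 25788748)))))
(S (nat_lit 46117) (S (nat_lit 16053) (S (nat_lit 19169) (L (nat_lit 22486171))
(S (nat_lit 36819) (S (nat_lit 44700) (S (nat_lit 50510) (S (nat_lit 43703) (S (nat_lit 8069) (S (nat_lit 35095) (L (nat_lit 16487179))
(L (nat_lit 18605128)))
(L (nat_lit 12013412)))
(L (nat_lit 24274342)))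
(L (nat_lit 11422764)))
(L (nat_lit 24985889)))
(L (nat_lit 5493646))))
(L (nat_lit 24578952)))
(L (nat_lit 25474754)))))
(L (nat_lit 25252392)))))
(L (nat_lit 25347722)))))
(S (nat_lit 51482) (S (nat_lit 0) (S (nat_lit 9530) (S (nat_lit 4175) (S (nat_lit 15331) (S (nat_lit 18958) (S (nat_lit 18293) (L (nat_lit 12342692))
(L (nat_lit 26883143)))
(L (nat_lit 10207043)))
(S (nat_lit 35095) (S (nat_lit 40322) (S (nat_lit 11422) (L (nat_lit 3980873))
(L (nat_lit 23257641)))
(L (nat_lit 28032009)))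
(S (nat_lit 54859) (S (nat_lit 5157) (S (nat_lit 24395) (S (nat_lit 37081) (S (nat_lit 6388) (L (nat_lit 20319515))
(L (nat_lit 26236109)))
(L (nat_lit 10564435)))
(L (nat_lit 516406)))
(L (nat_lit 1818376)))
(L (nat_lit 25409122)))))
(S (nat_lit 23939) (S (nat_lit 48100) (S (nat_lit 6388) (S (nat_lit 3164) (S (nat_lit 37775) (S (nat_lit 16769) (S (nat_lit 59028) (L (nat_lit 3623132))
(L (nat_lit 13242185)))
(L (nat_lit 1858925)))
(L (nat_lit 17734834)))
(L (nat_lit 19677351)))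
(L (nat_lit 20323418)))
(S (nat_lit 58634) (L (nat_lit 6042278))
(L (nat_lit 22814145))))
(S (nat_lit 43703) (S (nat_lit 13864) (S (nat_lit 5157) (S (nat_lit 37081) (S (nat_lit 12896) (S (nat_lit 31005) (S (nat_lit 57310) (L (nat_lit 19304263))
(L (nat_lit 27271635)))
(L (nat_lit 836295)))
(L (nat_lit 16566528)))
(L (nat_lit 7370195)))
(S (nat_lit 26698) (L (nat_lit 3928555))
(L (nat_lit 26969359))))
(S (nat_lit 33628) (S (nat_lit 3937) (L (nat_lit 8032044))
(L (nat_lit 26545804)))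
(S (nat_lit 53392) (S (nat_lit 36290) (L (nat_lit 26970479))
(L (nat_lit 12914514)))
(L (nat_lit 25450947)))))
(L (nat_lit 25566946)))))
(S (nat_lit 29294) (S (nat_lit 15840) (S (nat_lit 4655) (S (nat_lit 35817) (S (nat_lit 34907) (L (nat_lit 7094418))
(L (nat_lit 7890530)))
(L (nat_lit 6836065)))
(S (nat_lit 24419) (S (nat_lit 2496) (S (nat_lit 39787) (S (nat_lit 46117) (S (nat_lit 2977) (L (nat_lit 22262843))
(L (nat_lit 17522822)))
(L (nat_lit 22512857)))
(L (nat_lit 24258105)))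
(L (nat_lit 15443780)))
(S (nat_lit 44183) (S (nat_lit 33652) (S (nat_lit 24936) (S (nat_lit 30525) (L (nat_lit 29575585))
(L (nat_lit 13412965)))
(L (nat_lit 3561322)))
(L (nat_lit 15469846)))
(L (nat_lit 25441857)))))
(S (nat_lit 35604) (S (nat_lit 12896) (S (nat_lit 29312) (S (nat_lit 46394) (S (nat_lit 1724) (S (nat_lit 31507) (L (nat_lit 12356053))
(L (nat_lit 19702925)))
(L (nat_lit 13391878)))
(L (nat_lit 12096120)))
(S (nat_lit 44001) (S (nat_lit 1724) (L (nat_lit 2599767))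
(L (nat_lit 13391878)))
(L (nat_lit 6435699))))
(S (nat_lit 22063) (L (nat_lit 7080467))
(L (nat_lit 26320556))))
(S (nat_lit 55368) (S (nat_lit 9548) (S (nat_lit 7229) (L (nat_lit 2450899))
(S (nat_lit 33652) (S (nat_lit 50510) (L (nat_lit 24416111))
(L (nat_lit 14999603)))
(L (nat_lit 2895283))))
(S (nat_lit 29312) (S (nat_lit 31507) (S (nat_lit 1724) (S (nat_lit 37081) (L (nat_lit 12914393))
(L (nat_lit 12869747)))
(L (nat_lit 19664358)))
(L (nat_lit 19702925)))
(S (nat_lit 49076) (S (nat_lit 30468) (S (nat_lit 2192) (L (nat_lit 19995469))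
(L (nat_lit 7884645)))
(L (nat_lit 19063022)))
(L (nat_lit 25315629)))))
(L (nat_lit 25310886)))))
(S (nat_lit 49058) (S (nat_lit 13864) (S (nat_lit 6325) (S (nat_lit 16769) (S (nat_lit 12896) (S (nat_lit 36139) (L (nat_lit 7460410))
(L (nat_lit 3924363)))
(L (nat_lit 3942867)))
(L (nat_lit 22406189)))
(S (nat_lit 26089) (S (nat_lit 18307) (L (nat_lit 2842829))
(S (nat_lit 24921) (S (nat_lit 26152) (S (nat_lit 56054) (S (nat_lit 28336) (L (nat_lit 30690755))
(L (nat_lit 8161007)))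
(L (nat_lit 2630394)))
(L (nat_lit 22028141)))
(L (nat_lit 7126035))))
(S (nat_lit 45853) (S (nat_lit 12896) (S (nat_lit 50256) (S (nat_lit 16769) (S (nat_lit 18516) (L (nat_lit 29938697))
(L (nat_lit 26393290)))
(L (nat_lit 22850605)))
(L (nat_lit 22843915)))
(S (nat_lit 29612) (L (nat_lit 22328379))
(L (nat_lit 10237011))))
(L (nat_lit 25276144)))))
(S (nat_lit 33628) (S (nat_lit 11422) (S (nat_lit 26630) (S (nat_lit 13371) (S (nat_lit 24942) (L (nat_lit 26646611))
(L (nat_lit 7125075)))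
(L (nat_lit 22242349)))
(L (nat_lit 15507041)))
(S (nat_lit 31906) (L (nat_lit 6011098))
(L (nat_lit 6069901))))
(S (nat_lit 53392) (S (nat_lit 54671) (S (nat_lit 40037) (S (nat_lit 56583) (S (nat_lit 24452) (L (nat_lit 28724576))
(L (nat_lit 14410049)))
(L (nat_lit 6703259)))
(L (nat_lit 27477142)))
(L (nat_lit 17391936)))
(L (nat_lit 25565891)))))
(L (nat_lit 25253101)))))
(S (nat_lit 19764) (S (nat_lit 13371) (S (nat_lit 18516) (S (nat_lit 19710) (L (nat_lit 3985740))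
(S (nat_lit 37081) (S (nat_lit 42957) (S (nat_lit 45898) (S (nat_lit 34907) (L (nat_lit 8259185))
(L (nat_lit 16568544)))
(L (nat_lit 2923213)))
(L (nat_lit 2935306)))
(L (nat_lit 13246273))))
(S (nat_lit 38280) (S (nat_lit 24936) (S (nat_lit 16769) (L (nat_lit 3397389))
(L (nat_lit 22568966)))
(S (nat_lit 41652) (L (nat_lit 2384435))
(L (nat_lit 22490977))))
(S (nat_lit 58044) (S (nat_lit 18011) (L (nat_lit 433915))
(S (nat_lit 37775) (L (nat_lit 1482547))
(S (nat_lit 57539) (S (nat_lit 16769) (S (nat_lit 10761) (L (nat_lit 22262939))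
(L (nat_lit 3579828)))
(L (nat_lit 22405133)))
(L (nat_lit 25452000)))))
(L (nat_lit 25180776)))))
(S (nat_lit 33135) (S (nat_lit 17055) (S (nat_lit 29312) (S (nat_lit 40322) (L (nat_lit 12029560))
(L (nat_lit 9584250)))
(S (nat_lit 29636) (L (nat_lit 15900531))
(L (nat_lit 3847015))))
(S (nat_lit 36819) (S (nat_lit 35396) (S (nat_lit 13921) (L (nat_lit 10915666))
(L (nat_lit 11144730)))
(S (nat_lit 47385) (L (nat_lit 10085421))
(L (nat_lit 10094445))))
(S (nat_lit 56583) (S (nat_lit 4688) (S (nat_lit 50510) (L (nat_lit 2006604))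
(L (nat_lit 11266060)))
(S (nat_lit 24452) (S (nat_lit 15331) (L (nat_lit 28383948))
(L (nat_lit 22279244)))
(S (nat_lit 44216) (S (nat_lit 33180) (S (nat_lit 9067) (L (nat_lit 21045004))
(L (nat_lit 15044439)))
(L (nat_lit 15470151)))
(L (nat_lit 25633473)))))
(L (nat_lit 25343659)))))
(S (nat_lit 52899) (S (nat_lit 18293) (S (nat_lit 3937) (S (nat_lit 2022) (S (nat_lit 52424) (S (nat_lit 9061) (S (nat_lit 56583) (L (nat_lit 20165411))
(L (nat_lit 3882857)))
(L (nat_lit 3057324)))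
(L (nat_lit 27641868)))
(L (nat_lit 4119820)))
(L (nat_lit 26873164)))
(S (nat_lit 38057) (S (nat_lit 43465) (S (nat_lit 28831) (S (nat_lit 17317) (S (nat_lit 52424) (S (nat_lit 52962) (L (nat_lit 2388716))
(L (nat_lit 1664364)))
(L (nat_lit 20874508)))
(L (nat_lit 26805612)))
(L (nat_lit 9555724)))
(L (nat_lit 15982612)))
(S (nat_lit 57821) (S (nat_lit 2022) (S (nat_lit 35817) (S (nat_lit 17317) (S (nat_lit 24936) (S (nat_lit 37775) (L (nat_lit 24540198))
(L (nat_lit 14424242)))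
(L (nat_lit 22490266)))
(L (nat_lit 16993466)))
(L (nat_lit 20393114)))
(L (nat_lit 26970380)))
(L (nat_lit 25834569)))))
(L (nat_lit 25320966)))))
(S (nat_lit 39528) (S (nat_lit 10728) (S (nat_lit 8572) (S (nat_lit 1724) (S (nat_lit 5178) (S (nat_lit 2722) (S (nat_lit 43703) (L (nat_lit 2940206))
(L (nat_lit 23114568)))
(L (nat_lit 5528401)))
(L (nat_lit 26611923)))
(S (nat_lit 44810) (L (nat_lit 7957516))
(L (nat_lit 26286550))))
(S (nat_lit 28336) (S (nat_lit 35978) (L (nat_lit 26773750))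
(S (nat_lit 42250) (S (nat_lit 23073) (L (nat_lit 3776364))
(S (nat_lit 33135) (S (nat_lit 21786) (L (nat_lit 4796794))
(L (nat_lit 7364461)))
(L (nat_lit 15980386))))
(L (nat_lit 11198849))))
(S (nat_lit 48100) (S (nat_lit 3975) (L (nat_lit 6048049))
(S (nat_lit 44706) (S (nat_lit 45916) (S (nat_lit 35817) (S (nat_lit 46394) (S (nat_lit 9530) (L (nat_lit 24364869))
(L (nat_lit 21830797)))
(L (nat_lit 20288026)))
(L (nat_lit 13343585)))
(L (nat_lit 14964481)))
(L (nat_lit 6038963))))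
(L (nat_lit 25377505)))))
(S (nat_lit 30492) (S (nat_lit 6388) (S (nat_lit 11241) (S (nat_lit 18293) (S (nat_lit 6589) (S (nat_lit 4631) (L (nat_lit 26971687))
(L (nat_lit 19120993)))
(L (nat_lit 26817731)))
(L (nat_lit 26391762)))
(S (nat_lit 31005) (S (nat_lit 26445) (L (nat_lit 15851890))
(S (nat_lit 47597) (S (nat_lit 24921) (S (nat_lit 56297) (S (nat_lit 50510) (L (nat_lit 28726469))
(L (nat_lit 6075082)))
(L (nat_lit 15783784)))
(L (nat_lit 17615105)))
(L (nat_lit 18604102))))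
(S (nat_lit 50769) (S (nat_lit 44216) (S (nat_lit 28336) (S (nat_lit 509) (S (nat_lit 1724) (S (nat_lit 40789) (L (nat_lit 8274103))
(L (nat_lit 24332129)))
(L (nat_lit 12657526)))
(L (nat_lit 12813142)))
(L (nat_lit 15304618)))
(L (nat_lit 3502796)))
(L (nat_lit 25633410)))))
(S (nat_lit 26152) (S (nat_lit 2192) (S (nat_lit 32660) (S (nat_lit 28810) (L (nat_lit 12689082))
(L (nat_lit 18652242)))
(L (nat_lit 24616027)))
(S (nat_lit 21956) (S (nat_lit 24936) (S (nat_lit 29294) (L (nat_lit 18586715))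
(L (nat_lit 24229735)))
(L (nat_lit 21455137)))
(S (nat_lit 41720) (S (nat_lit 21786) (S (nat_lit 29294) (L (nat_lit 3910042))
(L (nat_lit 24319789)))
(L (nat_lit 4414253)))
(L (nat_lit 25411670)))))
(S (nat_lit 45916) (S (nat_lit 9061) (S (nat_lit 30525) (S (nat_lit 56054) (L (nat_lit 30130373))
(L (nat_lit 2383322)))
(L (nat_lit 7789658)))
(S (nat_lit 28825) (S (nat_lit 58044) (S (nat_lit 6866) (L (nat_lit 18751077))
(L (nat_lit 4567676)))
(L (nat_lit 13403848)))
(S (nat_lit 48589) (S (nat_lit 27325) (L (nat_lit 18679494))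
(L (nat_lit 24294214)))
(L (nat_lit 25282924)))))
(L (nat_lit 25244885)))))
(S (nat_lit 50256) (S (nat_lit 1724) (S (nat_lit 15632) (S (nat_lit 4766) (L (nat_lit 10604060))
(S (nat_lit 24452) (S (nat_lit 13864) (S (nat_lit 31186) (L (nat_lit 4814094))
(L (nat_lit 16948893)))
(L (nat_lit 24547147)))
(L (nat_lit 762732))))
(S (nat_lit 35396) (S (nat_lit 13864) (S (nat_lit 24452) (S (nat_lit 33135) (S (nat_lit 40322) (S (nat_lit 26630) (S (nat_lit 21786) (S (nat_lit 37546) (L (nat_lit 5485272))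
(L (nat_lit 23360557)))
(L (nat_lit 30415564)))
(L (nat_lit 5944697)))
(L (nat_lit 18624101)))
(L (nat_lit 6167180)))
(L (nat_lit 13760203)))
(S (nat_lit 34304) (L (nat_lit 7833211))
(L (nat_lit 14421702))))
(S (nat_lit 55160) (S (nat_lit 6325) (S (nat_lit 45766) (L (nat_lit 7943969))
(L (nat_lit 22589281)))
(S (nat_lit 58612) (L (nat_lit 5563085))
(L (nat_lit 12160909))))
(L (nat_lit 25277778)))))
(L (nat_lit 2532182)))
(L (nat_lit 25498068)))))
(L (nat_lit 25611270)))))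
(L (nat_lit 25527950)))))
(S (nat_lit 36067) (S (nat_lit 11743) (S (nat_lit 4655) (S (nat_lit 12637) (S (nat_lit 8069) (S (nat_lit 17544) (S (nat_lit 1261) (L (nat_lit 29888106))
(L (nat_lit 9062145)))
(L (nat_lit 22321009)))
(S (nat_lit 27833) (S (nat_lit 34907) (L (nat_lit 23566091))
(L (nat_lit 7358171)))
(S (nat_lit 47597) (S (nat_lit 30525) (S (nat_lit 54650) (S (nat_lit 6589) (S (nat_lit 15840) (L (nat_lit 14832892))
(L (nat_lit 3551029)))
(L (nat_lit 21077434)))
(L (nat_lit 17438074)))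
(L (nat_lit 18047062)))
(L (nat_lit 25630837)))))
(S (nat_lit 32401) (S (nat_lit 6589) (S (nat_lit 15840) (S (nat_lit 45916) (S (nat_lit 40322) (L (nat_lit 7860406))
(L (nat_lit 16930727)))
(L (nat_lit 23934209)))
(S (nat_lit 35604) (L (nat_lit 23392334))
(S (nat_lit 55368) (S (nat_lit 52944) (L (nat_lit 12214349))
(L (nat_lit 3891719)))
(L (nat_lit 25448901)))))
(S (nat_lit 26353) (S (nat_lit 42024) (S (nat_lit 27833) (S (nat_lit 34886) (S (nat_lit 49013) (S (nat_lit 21488) (S (nat_lit 20736) (S (nat_lit 34907) (S (nat_lit 13416) (S (nat_lit 28810) (L (nat_lit 3458712))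
(L (nat_lit 24616093)))
(L (nat_lit 7820162)))
(L (nat_lit 30688404)))
(L (nat_lit 31039629)))
(L (nat_lit 10642902)))
(L (nat_lit 5789944)))
(L (nat_lit 8001425)))
(L (nat_lit 8296017)))
(L (nat_lit 16523442)))
(S (nat_lit 46117) (S (nat_lit 7942) (L (nat_lit 6962331))
(S (nat_lit 20736) (S (nat_lit 20558) (L (nat_lit 11680626))
(L (nat_lit 16026455)))
(L (nat_lit 22456474))))
(L (nat_lit 25762210)))))
(S (nat_lit 52165) (S (nat_lit 13864) (S (nat_lit 30525) (S (nat_lit 26152) (L (nat_lit 30121413))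
(L (nat_lit 22218605)))
(L (nat_lit 18024310)))
(S (nat_lit 33628) (S (nat_lit 54650) (L (nat_lit 28460406))
(L (nat_lit 6961058)))
(S (nat_lit 53392) (S (nat_lit 30525) (S (nat_lit 6589) (L (nat_lit 6721144))
(L (nat_lit 6805562)))
(L (nat_lit 18047062)))
(L (nat_lit 25185487)))))
(L (nat_lit 25838949)))))
(S (nat_lit 24419) (S (nat_lit 5178) (S (nat_lit 18011) (S (nat_lit 5157) (S (nat_lit 18293) (S (nat_lit 29294) (L (nat_lit 6754009))
(L (nat_lit 4105837)))
(L (nat_lit 15899474)))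
(S (nat_lit 24921) (S (nat_lit 34886) (S (nat_lit 44700) (S (nat_lit 28810) (L (nat_lit 24667210))
(L (nat_lit 630604)))
(L (nat_lit 24517441)))
(S (nat_lit 58137) (L (nat_lit 5501394))
(L (nat_lit 15752507))))
(S (nat_lit 44685) (S (nat_lit 58044) (S (nat_lit 38057) (S (nat_lit 17317) (L (nat_lit 26757290))
(L (nat_lit 6200854)))
(L (nat_lit 23244315)))
(L (nat_lit 9622043)))
(L (nat_lit 25480239)))))
(S (nat_lit 37775) (S (nat_lit 17782) (S (nat_lit 23193) (S (nat_lit 27833) (L (nat_lit 9352310))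
(L (nat_lit 16520776)))
(L (nat_lit 22419272)))
(S (nat_lit 37546) (S (nat_lit 44494) (L (nat_lit 311033))
(S (nat_lit 45853) (S (nat_lit 31186) (S (nat_lit 36290) (S (nat_lit 30746) (S (nat_lit 15632) (S (nat_lit 10761) (L (nat_lit 30782578))
(L (nat_lit 5758169)))
(L (nat_lit 15642179)))
(L (nat_lit 17045145)))
(L (nat_lit 23249735)))
(L (nat_lit 17012562)))
(L (nat_lit 8951545))))
(S (nat_lit 57310) (S (nat_lit 56845) (S (nat_lit 38990) (L (nat_lit 29988140))
(L (nat_lit 24036486)))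
(L (nat_lit 451958)))
(L (nat_lit 25793869)))))
(S (nat_lit 57539) (S (nat_lit 4175) (S (nat_lit 2873) (L (nat_lit 898422))
(S (nat_lit 21488) (S (nat_lit 18516) (L (nat_lit 23469888))
(L (nat_lit 2825753)))
(L (nat_lit 30803190))))
(S (nat_lit 23939) (S (nat_lit 12171) (S (nat_lit 19764) (L (nat_lit 1973836))
(L (nat_lit 21372737)))
(L (nat_lit 15902297)))
(S (nat_lit 43703) (S (nat_lit 42957) (S (nat_lit 47354) (S (nat_lit 48595) (L (nat_lit 13817208))
(L (nat_lit 27643052)))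
(L (nat_lit 778608)))
(S (nat_lit 52877) (L (nat_lit 18146450))
(L (nat_lit 23631722))))
(L (nat_lit 25825487)))))
(L (nat_lit 25613504)))))
(S (nat_lit 24942) (S (nat_lit 11954) (S (nat_lit 3672) (S (nat_lit 49058) (S (nat_lit 57310) (S (nat_lit 40789) (L (nat_lit 18949932))
(L (nat_lit 10273377)))
(L (nat_lit 20981212)))
(L (nat_lit 22134072)))
(S (nat_lit 23436) (S (nat_lit 18958) (S (nat_lit 0) (L (nat_lit 12342753))
(L (nat_lit 26615393)))
(L (nat_lit 17835643)))
(S (nat_lit 43200) (S (nat_lit 5172) (L (nat_lit 5645948))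
(L (nat_lit 15914890)))
(L (nat_lit 25396848)))))
(S (nat_lit 31718) (S (nat_lit 2722) (S (nat_lit 8572) (L (nat_lit 26433057))
(L (nat_lit 12236954)))
(S (nat_lit 22486) (S (nat_lit 53392) (S (nat_lit 16053) (S (nat_lit 38990) (S (nat_lit 21488) (L (nat_lit 9887829))
(L (nat_lit 5566096)))
(L (nat_lit 14591124)))
(L (nat_lit 9230480)))
(L (nat_lit 16803435)))
(S (nat_lit 42250) (S (nat_lit 29312) (S (nat_lit 56054) (L (nat_lit 31102406))
(L (nat_lit 14325018)))
(L (nat_lit 12902547)))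
(L (nat_lit 25865604)))))
(S (nat_lit 51482) (S (nat_lit 10306) (L (nat_lit 3744315))
(S (nat_lit 52962) (S (nat_lit 42250) (S (nat_lit 19226) (S (nat_lit 35817) (S (nat_lit 57072) (L (nat_lit 10941025))
(L (nat_lit 11015803)))
(L (nat_lit 2796986)))
(L (nat_lit 26400110)))
(L (nat_lit 24273164)))
(L (nat_lit 3951980))))
(L (nat_lit 25709703)))))
(S (nat_lit 44706) (S (nat_lit 17055) (S (nat_lit 6325) (S (nat_lit 53392) (S (nat_lit 11422) (S (nat_lit 55160) (S (nat_lit 7826) (S (nat_lit 16526) (S (nat_lit 40789) (S (nat_lit 47089) (L (nat_lit 29470198))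
(L (nat_lit 19953067)))
(L (nat_lit 23552321)))
(L (nat_lit 22210055)))
(L (nat_lit 23590025)))
(L (nat_lit 4009613)))
(L (nat_lit 6047369)))
(L (nat_lit 5960134)))
(L (nat_lit 10229456)))
(S (nat_lit 36819) (S (nat_lit 16053) (S (nat_lit 44700) (S (nat_lit 44685) (S (nat_lit 27325) (S (nat_lit 40037) (L (nat_lit 18580234))
(L (nat_lit 23257546)))
(L (nat_lit 30920838)))
(L (nat_lit 5645171)))
(L (nat_lit 27495890)))
(S (nat_lit 35817) (S (nat_lit 33685) (S (nat_lit 49076) (L (nat_lit 16633121))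
(L (nat_lit 5937658)))
(L (nat_lit 31079558)))
(S (nat_lit 55581) (S (nat_lit 5172) (S (nat_lit 6325) (L (nat_lit 18779446))
(L (nat_lit 6049226)))
(L (nat_lit 20385017)))
(L (nat_lit 25211530)))))
(S (nat_lit 56583) (S (nat_lit 11954) (S (nat_lit 29294) (L (nat_lit 20322154))
(L (nat_lit 3953901)))
(S (nat_lit 31718) (S (nat_lit 41550) (S (nat_lit 40322) (L (nat_lit 5797611))
(L (nat_lit 5796118)))
(L (nat_lit 7045659)))
(S (nat_lit 51482) (S (nat_lit 29294) (S (nat_lit 24936) (S (nat_lit 11422) (L (nat_lit 4111571))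
(L (nat_lit 23248123)))
(L (nat_lit 13890706)))
(L (nat_lit 3941997)))
(L (nat_lit 25364108)))))
(L (nat_lit 25892942)))))
(L (nat_lit 25319848)))))
(S (nat_lit 44183) (S (nat_lit 4688) (S (nat_lit 6370) (S (nat_lit 13549) (L (nat_lit 10603340))
(S (nat_lit 30492) (S (nat_lit 28029) (S (nat_lit 18011) (S (nat_lit 21488) (S (nat_lit 39528) (L (nat_lit 24515930))
(L (nat_lit 24025132)))
(L (nat_lit 386550)))
(L (nat_lit 16456892)))
(L (nat_lit 11423916)))
(L (nat_lit 1852726))))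
(S (nat_lit 26134) (S (nat_lit 24020) (L (nat_lit 3846364))
(S (nat_lit 50289) (S (nat_lit 21488) (S (nat_lit 18011) (S (nat_lit 9046) (S (nat_lit 53392) (S (nat_lit 24921) (S (nat_lit 43200) (S (nat_lit 19500) (S (nat_lit 50769) (S (nat_lit 48589) (L (nat_lit 374426))
(L (nat_lit 11133996)))
(L (nat_lit 3794470)))
(L (nat_lit 4117963)))
(L (nat_lit 5666411)))
(L (nat_lit 22487937)))
(L (nat_lit 27954630)))
(L (nat_lit 7005265)))
(L (nat_lit 16049826)))
(L (nat_lit 5629430)))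
(L (nat_lit 7095382))))
(S (nat_lit 45898) (S (nat_lit 21488) (S (nat_lit 19041) (L (nat_lit 6897820))
(S (nat_lit 43200) (S (nat_lit 49076) (S (nat_lit 794) (S (nat_lit 46117) (L (nat_lit 2813133))
(L (nat_lit 11267459)))
(L (nat_lit 11242908)))
(L (nat_lit 5675642)))
(L (nat_lit 23889355))))
(S (nat_lit 32040) (L (nat_lit 7079350))
(L (nat_lit 386550))))
(L (nat_lit 25395668)))))
(S (nat_lit 24452) (S (nat_lit 4631) (S (nat_lit 12414) (S (nat_lit 15331) (S (nat_lit 56845) (S (nat_lit 47793) (S (nat_lit 59028) (S (nat_lit 51699) (S (nat_lit 43200) (S (nat_lit 50289) (S (nat_lit 10982) (L (nat_lit 6473437))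
(L (nat_lit 1668334)))
(L (nat_lit 9258006)))
(L (nat_lit 6980059)))
(L (nat_lit 10401846)))
(L (nat_lit 6772549)))
(L (nat_lit 3568886)))
(L (nat_lit 7090294)))
(L (nat_lit 15471926)))
(S (nat_lit 32178) (S (nat_lit 15331) (L (nat_lit 26580500))
(L (nat_lit 26258838)))
(S (nat_lit 51942) (L (nat_lit 5535286))
(L (nat_lit 25662708)))))
(L (nat_lit 18645270)))
(S (nat_lit 44216) (S (nat_lit 11241) (S (nat_lit 3164) (S (nat_lit 35095) (S (nat_lit 21488) (S (nat_lit 50232) (S (nat_lit 31935) (S (nat_lit 53416) (S (nat_lit 28825) (S (nat_lit 41032) (S (nat_lit 15632) (S (nat_lit 56583) (L (nat_lit 5585497))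
(L (nat_lit 1292027)))
(L (nat_lit 8278499)))
(L (nat_lit 9082799)))
(L (nat_lit 31102440)))
(L (nat_lit 7802806)))
(L (nat_lit 30521718)))
(L (nat_lit 27726070)))
(L (nat_lit 10937366)))
(L (nat_lit 9319542)))
(L (nat_lit 2581878)))
(S (nat_lit 31005) (S (nat_lit 8265) (S (nat_lit 50289) (S (nat_lit 50256) (S (nat_lit 3164) (S (nat_lit 20558) (S (nat_lit 44159) (L (nat_lit 3841934))
(L (nat_lit 27829431)))
(L (nat_lit 11690390)))
(L (nat_lit 15010646)))
(L (nat_lit 345974)))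
(L (nat_lit 804054)))
(L (nat_lit 5027158)))
(S (nat_lit 50769) (S (nat_lit 44159) (S (nat_lit 57310) (S (nat_lit 33685) (S (nat_lit 33652) (L (nat_lit 23652390))
(L (nat_lit 14803286)))
(L (nat_lit 14999702)))
(L (nat_lit 27276630)))
(L (nat_lit 27505846)))
(L (nat_lit 25544847)))))
(L (nat_lit 25624951)))))
(L (nat_lit 25444438)))))
(S (nat_lit 31507) (S (nat_lit 9046) (S (nat_lit 13864) (S (nat_lit 15143) (S (nat_lit 15840) (S (nat_lit 29312) (L (nat_lit 10260022))
(L (nat_lit 3775341)))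
(S (nat_lit 35604) (S (nat_lit 50510) (L (nat_lit 20324162))
(L (nat_lit 12850906)))
(S (nat_lit 55368) (S (nat_lit 52944) (S (nat_lit 47089) (L (nat_lit 1711884))
(L (nat_lit 9917285)))
(L (nat_lit 12372514)))
(L (nat_lit 25577701)))))
(S (nat_lit 34907) (S (nat_lit 36819) (S (nat_lit 31718) (S (nat_lit 44700) (S (nat_lit 42024) (S (nat_lit 16053) (S (nat_lit 9067) (L (nat_lit 16043195))
(L (nat_lit 23117082)))
(L (nat_lit 15502583)))
(L (nat_lit 23520514)))
(L (nat_lit 23538843)))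
(L (nat_lit 6837403)))
(L (nat_lit 23870601)))
(S (nat_lit 54671) (S (nat_lit 19500) (S (nat_lit 56583) (L (nat_lit 4612710))
(L (nat_lit 7212503)))
(S (nat_lit 39264) (S (nat_lit 55368) (S (nat_lit 54665) (L (nat_lit 1335826))
(L (nat_lit 2385553)))
(L (nat_lit 16550103)))
(S (nat_lit 59028) (S (nat_lit 29294) (S (nat_lit 38280) (S (nat_lit 56297) (L (nat_lit 29435285))
(L (nat_lit 6778597)))
(L (nat_lit 13831802)))
(L (nat_lit 7093861)))
(L (nat_lit 25431509)))))
(L (nat_lit 25250278)))))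
(S (nat_lit 33628) (S (nat_lit 13371) (S (nat_lit 27590) (S (nat_lit 54665) (S (nat_lit 52424) (S (nat_lit 38057) (L (nat_lit 28739794))
(L (nat_lit 12422764)))
(L (nat_lit 2825996)))
(L (nat_lit 21765200)))
(S (nat_lit 39998) (L (nat_lit 17032835))
(L (nat_lit 1828049))))
(S (nat_lit 33135) (S (nat_lit 7826) (S (nat_lit 33685) (S (nat_lit 48595) (L (nat_lit 26458259))
(L (nat_lit 12247424)))
(L (nat_lit 6471478)))
(S (nat_lit 27590) (S (nat_lit 33198) (S (nat_lit 37775) (S (nat_lit 27833) (L (nat_lit 29039076))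
(L (nat_lit 30906086)))
(L (nat_lit 30841570)))
(L (nat_lit 14803527)))
(S (nat_lit 47354) (S (nat_lit 50256) (S (nat_lit 27833) (L (nat_lit 5585565))
(L (nat_lit 3761608)))
(L (nat_lit 14411107)))
(L (nat_lit 25646119)))))
(S (nat_lit 52899) (S (nat_lit 54665) (S (nat_lit 15056) (L (nat_lit 6310801))
(S (nat_lit 54671) (S (nat_lit 15840) (L (nat_lit 3698310))
(L (nat_lit 17647718)))
(L (nat_lit 21194801))))
(S (nat_lit 57872) (S (nat_lit 4175) (L (nat_lit 6983532))
(L (nat_lit 15586374)))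
(L (nat_lit 2313784))))
(L (nat_lit 25866564)))))
(S (nat_lit 53392) (S (nat_lit 12414) (S (nat_lit 15122) (S (nat_lit 34907) (S (nat_lit 26134) (S (nat_lit 20273) (L (nat_lit 28915750))
(L (nat_lit 21376768)))
(L (nat_lit 17472353)))
(L (nat_lit 20505734)))
(S (nat_lit 34886) (S (nat_lit 56845) (S (nat_lit 52165) (S (nat_lit 57310) (S (nat_lit 4631) (S (nat_lit 21488) (S (nat_lit 22486) (L (nat_lit 13213725))
(L (nat_lit 1762697)))
(L (nat_lit 7792257)))
(L (nat_lit 6788950)))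
(L (nat_lit 12873846)))
(L (nat_lit 20288365)))
(L (nat_lit 6959289)))
(S (nat_lit 54650) (S (nat_lit 56845) (S (nat_lit 29294) (L (nat_lit 6337275))
(L (nat_lit 2675963)))
(L (nat_lit 6743716)))
(L (nat_lit 25451906)))))
(S (nat_lit 32178) (S (nat_lit 6589) (S (nat_lit 6325) (S (nat_lit 50256) (L (nat_lit 30805574))
(L (nat_lit 2924054)))
(S (nat_lit 45700) (S (nat_lit 17317) (L (nat_lit 7934764))
(L (nat_lit 3660154)))
(L (nat_lit 19064077))))
(S (nat_lit 26353) (S (nat_lit 2192) (S (nat_lit 35095) (S (nat_lit 29294) (S (nat_lit 28831) (L (nat_lit 2857742))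
(L (nat_lit 24241457)))
(L (nat_lit 24241455)))
(L (nat_lit 8939106)))
(L (nat_lit 16784060)))
(S (nat_lit 46117) (S (nat_lit 2192) (S (nat_lit 48589) (S (nat_lit 794) (S (nat_lit 26134) (S (nat_lit 48100) (L (nat_lit 20777201))
(L (nat_lit 7082487)))
(L (nat_lit 17570500)))
(L (nat_lit 26745444)))
(L (nat_lit 10937957)))
(L (nat_lit 16784247)))
(L (nat_lit 25645065)))))
(S (nat_lit 51942) (S (nat_lit 3672) (S (nat_lit 0) (S (nat_lit 16769) (L (nat_lit 19402534))
(L (nat_lit 10151365)))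
(L (nat_lit 18899148)))
(S (nat_lit 23436) (S (nat_lit 22064) (L (nat_lit 5553787))
(S (nat_lit 41720) (S (nat_lit 794) (S (nat_lit 21488) (S (nat_lit 53416) (S (nat_lit 58044) (S (nat_lit 22928) (S (nat_lit 27590) (L (nat_lit 10571195))
(L (nat_lit 1566281)))
(L (nat_lit 11684251)))
(L (nat_lit 27900098)))
(L (nat_lit 18211859)))
(L (nat_lit 7760918)))
(L (nat_lit 13539941)))
(L (nat_lit 5159562))))
(S (nat_lit 43200) (S (nat_lit 24942) (S (nat_lit 27590) (S (nat_lit 259) (S (nat_lit 36290) (S (nat_lit 37081) (L (nat_lit 28740264))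
(L (nat_lit 11317366)))
(L (nat_lit 7050777)))
(L (nat_lit 19699209)))
(L (nat_lit 6350291)))
(L (nat_lit 7116431)))
(L (nat_lit 25741323)))))
(L (nat_lit 25218385)))))
(L (nat_lit 25181803)))))
(S (nat_lit 28810) (S (nat_lit 15840) (S (nat_lit 1724) (S (nat_lit 14078) (L (nat_lit 5881084))
(S (nat_lit 44706) (S (nat_lit 43465) (L (nat_lit 13720824))
(L (nat_lit 7112364)))
(L (nat_lit 5552829))))
(S (nat_lit 21488) (S (nat_lit 18091) (L (nat_lit 6471508))
(S (nat_lit 53392) (S (nat_lit 794) (S (nat_lit 44706) (L (nat_lit 401204))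
(L (nat_lit 7757601)))
(L (nat_lit 19173169)))
(L (nat_lit 27692246))))
(S (nat_lit 41252) (S (nat_lit 8265) (S (nat_lit 5172) (S (nat_lit 6325) (L (nat_lit 6073910))
(L (nat_lit 11658957)))
(S (nat_lit 21382) (L (nat_lit 12359408))
(L (nat_lit 9126072))))
(S (nat_lit 28029) (S (nat_lit 52944) (S (nat_lit 9548) (L (nat_lit 15309977))
(L (nat_lit 9104805)))
(L (nat_lit 19357734)))
(S (nat_lit 47793) (S (nat_lit 24936) (S (nat_lit 28825) (L (nat_lit 6407896))
(L (nat_lit 24941937)))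
(L (nat_lit 7025820)))
(L (nat_lit 25603810)))))
(L (nat_lit 25483713)))))
(S (nat_lit 35604) (S (nat_lit 15143) (S (nat_lit 21488) (S (nat_lit 11337) (L (nat_lit 5655398))
(S (nat_lit 53392) (S (nat_lit 6589) (S (nat_lit 35396) (L (nat_lit 30063722))
(L (nat_lit 12964705)))
(L (nat_lit 13928210)))
(L (nat_lit 5946246))))
(L (nat_lit 22439137)))
(S (nat_lit 34907) (S (nat_lit 21488) (S (nat_lit 14017) (L (nat_lit 30520534))
(S (nat_lit 53392) (S (nat_lit 54665) (S (nat_lit 27833) (S (nat_lit 21025) (L (nat_lit 4105619))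
(L (nat_lit 30891179)))
(L (nat_lit 18968006)))
(L (nat_lit 8480306)))
(L (nat_lit 5531094))))
(S (nat_lit 23836) (L (nat_lit 15918455))
(L (nat_lit 5566129))))
(S (nat_lit 54671) (S (nat_lit 17055) (S (nat_lit 54665) (S (nat_lit 21488) (S (nat_lit 53392) (S (nat_lit 28336) (S (nat_lit 2496) (L (nat_lit 28481940))
(L (nat_lit 6402931)))
(L (nat_lit 11323534)))
(L (nat_lit 18182850)))
(L (nat_lit 21423270)))
(L (nat_lit 19409730)))
(L (nat_lit 24984713)))
(L (nat_lit 25174514)))))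
(S (nat_lit 55368) (S (nat_lit 6589) (S (nat_lit 37380) (S (nat_lit 53392) (L (nat_lit 7116309))
(L (nat_lit 19303644)))
(S (nat_lit 57072) (S (nat_lit 35396) (S (nat_lit 22260) (S (nat_lit 32660) (S (nat_lit 15331) (L (nat_lit 6878389))
(L (nat_lit 22852899)))
(L (nat_lit 13749094)))
(L (nat_lit 12711186)))
(L (nat_lit 18665578)))
(L (nat_lit 12083905))))
(S (nat_lit 26353) (S (nat_lit 2496) (L (nat_lit 24223661))
(S (nat_lit 22260) (S (nat_lit 13864) (S (nat_lit 794) (L (nat_lit 17533739))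
(L (nat_lit 9170341)))
(L (nat_lit 14397282)))
(S (nat_lit 42024) (S (nat_lit 4655) (S (nat_lit 40500) (S (nat_lit 27833) (S (nat_lit 1724) (L (nat_lit 10400951))
(L (nat_lit 2748872)))
(L (nat_lit 15459398)))
(L (nat_lit 3427180)))
(S (nat_lit 18419) (L (nat_lit 5940761))
(L (nat_lit 19300573))))
(L (nat_lit 25663111)))))
(S (nat_lit 46117) (S (nat_lit 895) (L (nat_lit 8500083))
(S (nat_lit 26630) (S (nat_lit 11098) (L (nat_lit 11986967))
(S (nat_lit 44183) (S (nat_lit 8069) (S (nat_lit 6388) (S (nat_lit 52165) (S (nat_lit 13864) (L (nat_lit 783725))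
(L (nat_lit 24950854)))
(L (nat_lit 3522423)))
(L (nat_lit 10375553)))
(L (nat_lit 21076848)))
(L (nat_lit 11325987))))
(L (nat_lit 6075765))))
(L (nat_lit 25919880)))))
(L (nat_lit 25897411)))))
(S (nat_lit 48574) (S (nat_lit 7826) (S (nat_lit 11241) (S (nat_lit 3429) (S (nat_lit 44216) (S (nat_lit 49058) (S (nat_lit 5178) (L (nat_lit 16492419))
(L (nat_lit 20391033)))
(L (nat_lit 6006264)))
(L (nat_lit 27731062)))
(S (nat_lit 23193) (S (nat_lit 4688) (S (nat_lit 31718) (S (nat_lit 52165) (S (nat_lit 59028) (L (nat_lit 12645063))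
(L (nat_lit 27731587)))
(L (nat_lit 6385207)))
(L (nat_lit 7049100)))
(L (nat_lit 6345181)))
(S (nat_lit 42957) (S (nat_lit 56297) (S (nat_lit 9548) (S (nat_lit 44706) (L (nat_lit 3465901))
(L (nat_lit 27731584)))
(L (nat_lit 17468733)))
(L (nat_lit 5711732)))
(L (nat_lit 25742506)))))
(S (nat_lit 31005) (S (nat_lit 8572) (S (nat_lit 52165) (S (nat_lit 49076) (S (nat_lit 2722) (S (nat_lit 51699) (S (nat_lit 29249) (L (nat_lit 7920796))
(L (nat_lit 6341493)))
(L (nat_lit 10119313)))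
(L (nat_lit 26618005)))
(L (nat_lit 14436489)))
(L (nat_lit 22539402)))
(L (nat_lit 26429583)))
(S (nat_lit 50769) (S (nat_lit 8572) (S (nat_lit 29312) (S (nat_lit 29294) (S (nat_lit 2722) (S (nat_lit 10704) (S (nat_lit 29249) (S (nat_lit 40500) (L (nat_lit 29558323))
(L (nat_lit 18423965)))
(L (nat_lit 19734669)))
(L (nat_lit 12207256)))
(L (nat_lit 7199889)))
(L (nat_lit 12149903)))
(L (nat_lit 12371093)))
(L (nat_lit 13855895)))
(L (nat_lit 25564871)))))
(S (nat_lit 27590) (S (nat_lit 794) (S (nat_lit 6866) (S (nat_lit 0) (S (nat_lit 57072) (S (nat_lit 29294) (L (nat_lit 29791942))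
(L (nat_lit 2680423)))
(L (nat_lit 12870241)))
(S (nat_lit 50418) (L (nat_lit 26741046))
(L (nat_lit 14247137))))
(S (nat_lit 26630) (S (nat_lit 54671) (S (nat_lit 17544) (L (nat_lit 7262353))
(L (nat_lit 1356661)))
(L (nat_lit 19728625)))
(S (nat_lit 46394) (S (nat_lit 31125) (L (nat_lit 18980376))
(S (nat_lit 42505) (L (nat_lit 14392381))
(L (nat_lit 15985812))))
(L (nat_lit 25496177)))))
(S (nat_lit 20558) (S (nat_lit 30822) (L (nat_lit 31106560))
(S (nat_lit 33685) (S (nat_lit 509) (S (nat_lit 12171) (L (nat_lit 10974355))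
(L (nat_lit 16555158)))
(L (nat_lit 6414160)))
(L (nat_lit 14978934))))
(S (nat_lit 40322) (S (nat_lit 2639) (L (nat_lit 16557206))
(S (nat_lit 21488) (S (nat_lit 33198) (L (nat_lit 5623664))
(L (nat_lit 14801766)))
(L (nat_lit 16583926))))
(L (nat_lit 25463190)))))
(S (nat_lit 47354) (S (nat_lit 2722) (S (nat_lit 29249) (S (nat_lit 31718) (L (nat_lit 16391322))
(L (nat_lit 24910990)))
(S (nat_lit 37905) (L (nat_lit 8848149))
(L (nat_lit 11993909))))
(S (nat_lit 22486) (L (nat_lit 28658833))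
(S (nat_lit 42250) (S (nat_lit 2977) (S (nat_lit 53449) (S (nat_lit 29249) (S (nat_lit 19226) (L (nat_lit 2893420))
(L (nat_lit 12280908)))
(L (nat_lit 18678069)))
(L (nat_lit 21772422)))
(L (nat_lit 17555590)))
(L (nat_lit 25725237)))))
(L (nat_lit 25313865)))))
(L (nat_lit 25516485)))))
(S (nat_lit 51271) (S (nat_lit 3429) (S (nat_lit 4175) (S (nat_lit 4631) (S (nat_lit 6370) (S (nat_lit 38057) (S (nat_lit 24452) (S (nat_lit 53392) (S (nat_lit 15137) (L (nat_lit 30097543))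
(L (nat_lit 5913821)))
(L (nat_lit 6150598)))
(L (nat_lit 6136279)))
(L (nat_lit 20169637)))
(S (nat_lit 26134) (S (nat_lit 12637) (S (nat_lit 53392) (S (nat_lit 23701) (S (nat_lit 39787) (L (nat_lit 4762237))
(L (nat_lit 23214857)))
(L (nat_lit 11177905)))
(L (nat_lit 17491298)))
(L (nat_lit 26366320)))
(S (nat_lit 45898) (S (nat_lit 33652) (S (nat_lit 10728) (S (nat_lit 24452) (S (nat_lit 9530) (S (nat_lit 15137) (S (nat_lit 31005) (S (nat_lit 50510) (L (nat_lit 10967098))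
(L (nat_lit 5694155)))
(L (nat_lit 5960911)))
(L (nat_lit 6168208)))
(L (nat_lit 26432685)))
(L (nat_lit 5624217)))
(L (nat_lit 6004249)))
(L (nat_lit 3367350)))
(L (nat_lit 25866247)))))
(S (nat_lit 24395) (S (nat_lit 31072) (L (nat_lit 10227373))
(S (nat_lit 38722) (S (nat_lit 18011) (S (nat_lit 8572) (S (nat_lit 19500) (S (nat_lit 21956) (L (nat_lit 9586425))
(L (nat_lit 22886506)))
(L (nat_lit 22285785)))
(L (nat_lit 6200818)))
(L (nat_lit 22887618)))
(L (nat_lit 3462925))))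
(S (nat_lit 44159) (S (nat_lit 18516) (S (nat_lit 53416) (L (nat_lit 29610496))
(L (nat_lit 17403755)))
(S (nat_lit 38280) (S (nat_lit 36819) (S (nat_lit 8265) (L (nat_lit 28872266))
(L (nat_lit 23224777)))
(L (nat_lit 5662069)))
(S (nat_lit 58044) (S (nat_lit 15211) (L (nat_lit 22514909))
(S (nat_lit 17317) (S (nat_lit 18011) (S (nat_lit 9485) (S (nat_lit 1261) (L (nat_lit 28458603))
(L (nat_lit 5731910)))
(L (nat_lit 15477413)))
(L (nat_lit 3677972)))
(L (nat_lit 14765863))))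
(L (nat_lit 25383428)))))
(L (nat_lit 25743649)))))
(S (nat_lit 23939) (S (nat_lit 15137) (S (nat_lit 8572) (S (nat_lit 30525) (S (nat_lit 43465) (L (nat_lit 1745840))
(L (nat_lit 16443562)))
(S (nat_lit 39066) (L (nat_lit 18888923))
(L (nat_lit 13272937))))
(S (nat_lit 28336) (S (nat_lit 1261) (S (nat_lit 10728) (S (nat_lit 19226) (S (nat_lit 52424) (S (nat_lit 15840) (S (nat_lit 42250) (L (nat_lit 12118167))
(L (nat_lit 14474529)))
(L (nat_lit 3713845)))
(L (nat_lit 27830293)))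
(L (nat_lit 25011745)))
(L (nat_lit 3710680)))
(L (nat_lit 6118822)))
(S (nat_lit 48100) (S (nat_lit 24452) (S (nat_lit 3672) (S (nat_lit 12637) (L (nat_lit 22319609))
(L (nat_lit 21487904)))
(L (nat_lit 20492064)))
(L (nat_lit 5711609)))
(L (nat_lit 25694455)))))
(S (nat_lit 34901) (S (nat_lit 41032) (S (nat_lit 53392) (S (nat_lit 54859) (S (nat_lit 13371) (L (nat_lit 30620259))
(L (nat_lit 8053252)))
(L (nat_lit 11997913)))
(L (nat_lit 5599855)))
(L (nat_lit 5741177)))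
(S (nat_lit 54665) (S (nat_lit 19226) (S (nat_lit 22260) (S (nat_lit 7561) (S (nat_lit 42250) (L (nat_lit 12868760))
(L (nat_lit 10904193)))
(L (nat_lit 21160358)))
(L (nat_lit 17949350)))
(S (nat_lit 38990) (S (nat_lit 12896) (S (nat_lit 37775) (L (nat_lit 18779752))
(L (nat_lit 20716716)))
(L (nat_lit 18668614)))
(S (nat_lit 58754) (S (nat_lit 19500) (S (nat_lit 47089) (S (nat_lit 35604) (L (nat_lit 30627267))
(L (nat_lit 19981830)))
(L (nat_lit 27440774)))
(L (nat_lit 16389400)))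
(L (nat_lit 25711752)))))
(L (nat_lit 25770242)))))
(S (nat_lit 43703) (S (nat_lit 2977) (S (nat_lit 1504) (S (nat_lit 46394) (S (nat_lit 972) (L (nat_lit 20756648))
(L (nat_lit 20275340)))
(L (nat_lit 20723043)))
(S (nat_lit 21268) (S (nat_lit 52962) (S (nat_lit 3164) (S (nat_lit 55581) (L (nat_lit 28970224))
(L (nat_lit 5949194)))
(L (nat_lit 15295655)))
(L (nat_lit 11147020)))
(S (nat_lit 41032) (S (nat_lit 54859) (S (nat_lit 33685) (S (nat_lit 50510) (L (nat_lit 26465698))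
(L (nat_lit 5778291)))
(L (nat_lit 20471942)))
(L (nat_lit 11035235)))
(L (nat_lit 25249351)))))
(S (nat_lit 22741) (S (nat_lit 5157) (S (nat_lit 794) (S (nat_lit 972) (S (nat_lit 24452) (L (nat_lit 28399019))
(L (nat_lit 6005209)))
(L (nat_lit 9220706)))
(L (nat_lit 9146161)))
(S (nat_lit 24921) (S (nat_lit 17317) (S (nat_lit 15143) (L (nat_lit 17672928))
(L (nat_lit 3427152)))
(L (nat_lit 3582742)))
(S (nat_lit 44685) (S (nat_lit 8265) (S (nat_lit 6370) (L (nat_lit 17965692))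
(L (nat_lit 5959949)))
(L (nat_lit 13422763)))
(L (nat_lit 25934858)))))
(S (nat_lit 42505) (S (nat_lit 6866) (S (nat_lit 22486) (S (nat_lit 12637) (S (nat_lit 19500) (S (nat_lit 49076) (L (nat_lit 24264518))
(L (nat_lit 5758727)))
(L (nat_lit 16389336)))
(L (nat_lit 15885623)))
(L (nat_lit 13296900)))
(S (nat_lit 26630) (S (nat_lit 33198) (S (nat_lit 38990) (S (nat_lit 49076) (S (nat_lit 1261) (S (nat_lit 22486) (S (nat_lit 35396) (S (nat_lit 43465) (L (nat_lit 16559252))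
(L (nat_lit 1630887)))
(L (nat_lit 374644)))
(L (nat_lit 30555784)))
(L (nat_lit 26363494)))
(L (nat_lit 15871608)))
(L (nat_lit 30594534)))
(L (nat_lit 23402042)))
(S (nat_lit 46394) (S (nat_lit 20736) (S (nat_lit 49076) (L (nat_lit 8119437))
(L (nat_lit 5675640)))
(S (nat_lit 24086) (L (nat_lit 5485176))
(L (nat_lit 6377292))))
(L (nat_lit 25745763)))))
(L (nat_lit 25461489)))))
(L (nat_lit 25407510)))))
(S (nat_lit 23193) (S (nat_lit 13921) (S (nat_lit 17317) (S (nat_lit 15840) (S (nat_lit 11422) (S (nat_lit 8265) (L (nat_lit 7483994))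
(L (nat_lit 12215469)))
(L (nat_lit 6972589)))
(S (nat_lit 35604) (S (nat_lit 48595) (S (nat_lit 44159) (S (nat_lit 35095) (L (nat_lit 29572805))
(L (nat_lit 18683497)))
(L (nat_lit 13201579)))
(L (nat_lit 12334263)))
(S (nat_lit 55368) (S (nat_lit 51699) (S (nat_lit 59028) (L (nat_lit 29638710))
(L (nat_lit 21761419)))
(L (nat_lit 22374917)))
(L (nat_lit 25570421)))))
(S (nat_lit 37081) (S (nat_lit 58754) (S (nat_lit 44216) (S (nat_lit 59028) (S (nat_lit 35396) (S (nat_lit 15137) (S (nat_lit 22928) (S (nat_lit 37775) (L (nat_lit 28430887))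
(L (nat_lit 24022220)))
(L (nat_lit 18762081)))
(L (nat_lit 22101926)))
(L (nat_lit 18665825)))
(L (nat_lit 9262531)))
(S (nat_lit 57732) (L (nat_lit 24026286))
(L (nat_lit 12342721))))
(L (nat_lit 12835994)))
(S (nat_lit 56845) (S (nat_lit 21488) (S (nat_lit 33652) (S (nat_lit 37775) (S (nat_lit 794) (L (nat_lit 13789555))
(L (nat_lit 11046678)))
(L (nat_lit 9342452)))
(L (nat_lit 6754198)))
(L (nat_lit 5645238)))
(L (nat_lit 25239217)))))
(S (nat_lit 33685) (S (nat_lit 2022) (S (nat_lit 18011) (S (nat_lit 46394) (S (nat_lit 54650) (L (nat_lit 14439530))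
(L (nat_lit 27823412)))
(L (nat_lit 27953488)))
(S (nat_lit 37775) (S (nat_lit 6665) (L (nat_lit 30707123))
(S (nat_lit 44216) (S (nat_lit 59028) (S (nat_lit 23701) (S (nat_lit 30525) (S (nat_lit 12637) (L (nat_lit 28868851))
(L (nat_lit 26946701)))
(L (nat_lit 30688869)))
(L (nat_lit 30661644)))
(L (nat_lit 13184835)))
(L (nat_lit 24516426))))
(S (nat_lit 57539) (S (nat_lit 36290) (S (nat_lit 29312) (L (nat_lit 2924141))
(L (nat_lit 12357107)))
(L (nat_lit 6819732)))
(L (nat_lit 25216212)))))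
(S (nat_lit 21786) (S (nat_lit 15137) (S (nat_lit 24936) (S (nat_lit 2977) (S (nat_lit 29312) (S (nat_lit 19226) (S (nat_lit 36290) (L (nat_lit 29856087))
(L (nat_lit 12316845)))
(L (nat_lit 22373921)))
(L (nat_lit 30906515)))
(L (nat_lit 15648995)))
(S (nat_lit 26744) (L (nat_lit 24311085))
(L (nat_lit 21389450))))
(S (nat_lit 34901) (S (nat_lit 4631) (S (nat_lit 12414) (S (nat_lit 15331) (L (nat_lit 28510743))
(L (nat_lit 6307702)))
(L (nat_lit 26876417)))
(L (nat_lit 6869857)))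
(S (nat_lit 54665) (S (nat_lit 51699) (L (nat_lit 9190579))
(L (nat_lit 27827350)))
(L (nat_lit 25442946)))))
(S (nat_lit 41550) (S (nat_lit 17055) (S (nat_lit 29312) (L (nat_lit 7835256))
(L (nat_lit 12422579)))
(S (nat_lit 36819) (S (nat_lit 12637) (S (nat_lit 33180) (S (nat_lit 29294) (L (nat_lit 29441266))
(L (nat_lit 7093429)))
(L (nat_lit 16518726)))
(L (nat_lit 12343440)))
(S (nat_lit 56583) (S (nat_lit 29312) (S (nat_lit 36290) (S (nat_lit 24936) (S (nat_lit 49058) (S (nat_lit 45898) (L (nat_lit 28711617))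
(L (nat_lit 24948993)))
(L (nat_lit 27841673)))
(L (nat_lit 11997042)))
(L (nat_lit 20254233)))
(L (nat_lit 13470963)))
(L (nat_lit 25184713)))))
(L (nat_lit 25378835)))))
(S (nat_lit 53449) (S (nat_lit 53416) (S (nat_lit 9061) (S (nat_lit 24536) (S (nat_lit 57821) (L (nat_lit 4833094))
(L (nat_lit 4613737)))
(S (nat_lit 31095) (S (nat_lit 29312) (S (nat_lit 53392) (S (nat_lit 38280) (L (nat_lit 4890044))
(L (nat_lit 31034575)))
(L (nat_lit 5942780)))
(L (nat_lit 31034607)))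
(L (nat_lit 15044438))))
(S (nat_lit 28825) (S (nat_lit 7031) (L (nat_lit 5821288))
(S (nat_lit 31005) (S (nat_lit 38280) (S (nat_lit 53392) (L (nat_lit 9852986))
(L (nat_lit 10216899)))
(L (nat_lit 20717058)))
(L (nat_lit 17156252))))
(S (nat_lit 48589) (S (nat_lit 33180) (S (nat_lit 12896) (S (nat_lit 27590) (S (nat_lit 57821) (L (nat_lit 1886758))
(L (nat_lit 21769733)))
(L (nat_lit 12028691)))
(L (nat_lit 3721500)))
(L (nat_lit 5877308)))
(L (nat_lit 25517536)))))
(L (nat_lit 27463094)))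
(L (nat_lit 25308723)))))
(S (nat_lit 42957) (S (nat_lit 11241) (S (nat_lit 13416) (S (nat_lit 8069) (S (nat_lit 972) (S (nat_lit 3164) (S (nat_lit 31935) (L (nat_lit 7944376))
(L (nat_lit 30738870)))
(L (nat_lit 8867649)))
(S (nat_lit 40340) (L (nat_lit 8175168))
(L (nat_lit 12913240))))
(L (nat_lit 23925222)))
(S (nat_lit 33180) (S (nat_lit 5172) (S (nat_lit 18293) (S (nat_lit 20273) (L (nat_lit 20843821))
(L (nat_lit 15915289)))
(L (nat_lit 15961940)))
(S (nat_lit 24936) (S (nat_lit 18293) (S (nat_lit 35817) (S (nat_lit 9485) (L (nat_lit 30890089))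
(L (nat_lit 23869575)))
(L (nat_lit 12062300)))
(L (nat_lit 15961938)))
(S (nat_lit 44700) (S (nat_lit 59028) (S (nat_lit 44706) (L (nat_lit 480504))
(L (nat_lit 8139393)))
(L (nat_lit 27463249)))
(L (nat_lit 25411762)))))
(S (nat_lit 52944) (S (nat_lit 21488) (S (nat_lit 15137) (S (nat_lit 54650) (S (nat_lit 1261) (S (nat_lit 15840) (L (nat_lit 19260931))
(L (nat_lit 6110886)))
(L (nat_lit 6118790)))
(L (nat_lit 27856176)))
(L (nat_lit 13505158)))
(L (nat_lit 6111878)))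
(L (nat_lit 25792007)))))
(S (nat_lit 31005) (S (nat_lit 4175) (S (nat_lit 15122) (S (nat_lit 12637) (S (nat_lit 33198) (S (nat_lit 47597) (S (nat_lit 57072) (L (nat_lit 24947168))
(L (nat_lit 27694790)))
(L (nat_lit 28022246)))
(L (nat_lit 10032700)))
(L (nat_lit 26879117)))
(S (nat_lit 34886) (S (nat_lit 2496) (S (nat_lit 8069) (S (nat_lit 6325) (S (nat_lit 17544) (L (nat_lit 17967835))
(L (nat_lit 26949702)))
(L (nat_lit 26331594)))
(L (nat_lit 23401296)))
(S (nat_lit 57429) (L (nat_lit 23334364))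
(L (nat_lit 17733286))))
(S (nat_lit 54650) (S (nat_lit 52944) (S (nat_lit 21488) (S (nat_lit 51482) (S (nat_lit 30492) (S (nat_lit 972) (L (nat_lit 19052889))
(L (nat_lit 10897560)))
(L (nat_lit 24911363)))
(L (nat_lit 27692307)))
(L (nat_lit 5860838)))
(L (nat_lit 19055430)))
(L (nat_lit 25833824)))))
(S (nat_lit 23939) (S (nat_lit 6325) (S (nat_lit 12637) (S (nat_lit 46117) (S (nat_lit 8265) (L (nat_lit 12119062))
(L (nat_lit 4874476)))
(L (nat_lit 6082766)))
(L (nat_lit 21356685)))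
(S (nat_lit 26089) (S (nat_lit 32178) (S (nat_lit 1504) (S (nat_lit 10601) (L (nat_lit 4617830))
(L (nat_lit 5938620)))
(L (nat_lit 19731758)))
(S (nat_lit 45221) (L (nat_lit 4891406))
(L (nat_lit 30971126))))
(S (nat_lit 45853) (S (nat_lit 45898) (S (nat_lit 3937) (L (nat_lit 14327651))
(L (nat_lit 26906154)))
(L (nat_lit 13295626)))
(L (nat_lit 25805834)))))
(S (nat_lit 43703) (S (nat_lit 3937) (S (nat_lit 48595) (S (nat_lit 18516) (L (nat_lit 30052839))
(L (nat_lit 24972712)))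
(L (nat_lit 27952520)))
(S (nat_lit 23701) (S (nat_lit 3672) (S (nat_lit 32660) (L (nat_lit 24473617))
(L (nat_lit 30596550)))
(L (nat_lit 15369995)))
(S (nat_lit 43465) (S (nat_lit 48100) (L (nat_lit 17466652))
(L (nat_lit 704394)))
(L (nat_lit 25179476)))))
(L (nat_lit 25400045)))))
(S (nat_lit 50769) (S (nat_lit 13864) (S (nat_lit 18958) (S (nat_lit 43200) (S (nat_lit 8265) (S (nat_lit 26630) (L (nat_lit 12916345))
(L (nat_lit 30519915)))
(L (nat_lit 26611958)))
(L (nat_lit 14319995)))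
(S (nat_lit 38722) (S (nat_lit 57310) (S (nat_lit 972) (L (nat_lit 13298915))
(L (nat_lit 13372010)))
(L (nat_lit 12611926)))
(S (nat_lit 58486) (S (nat_lit 54671) (L (nat_lit 2373242))
(L (nat_lit 17918566)))
(L (nat_lit 25544291)))))
(S (nat_lit 33628) (S (nat_lit 4688) (S (nat_lit 22928) (L (nat_lit 30751798))
(S (nat_lit 49923) (L (nat_lit 3747664))
(L (nat_lit 18156470))))
(S (nat_lit 34447) (L (nat_lit 21903585))
(L (nat_lit 7073219))))
(S (nat_lit 53392) (S (nat_lit 2022) (S (nat_lit 21488) (S (nat_lit 57539) (S (nat_lit 30492) (S (nat_lit 12637) (L (nat_lit 16080741))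
(L (nat_lit 21356685)))
(L (nat_lit 10897596)))
(L (nat_lit 13506283)))
(S (nat_lit 41162) (L (nat_lit 7935452))
(L (nat_lit 7758870))))
(S (nat_lit 21786) (S (nat_lit 13297) (L (nat_lit 21761262))
(S (nat_lit 56297) (S (nat_lit 33685) (L (nat_lit 14519910))
(L (nat_lit 6470518)))
(L (nat_lit 5946216))))
(S (nat_lit 41550) (S (nat_lit 15514) (L (nat_lit 19795148))
(S (nat_lit 21488) (S (nat_lit 37546) (S (nat_lit 43703) (L (nat_lit 18617683))
(L (nat_lit 24536256)))
(L (nat_lit 20718021)))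
(L (nat_lit 5645238))))
(L (nat_lit 25249483)))))
(L (nat_lit 25921742)))))
(L (nat_lit 25632918)))))
(L (nat_lit 25531923)))))
(L (nat_lit 25792813)))))
(S (nat_lit 55831) (S (nat_lit 10704) (S (nat_lit 4175) (S (nat_lit 6370) (S (nat_lit 9046) (S (nat_lit 47793) (S (nat_lit 17317) (S (nat_lit 50769) (L (nat_lit 2449812))
(L (nat_lit 15027044)))
(L (nat_lit 6206183)))
(S (nat_lit 47874) (S (nat_lit 41252) (S (nat_lit 50769) (L (nat_lit 6447572))
(L (nat_lit 12402838)))
(L (nat_lit 17665270)))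
(L (nat_lit 3815307))))
(S (nat_lit 28810) (S (nat_lit 47469) (S (nat_lit 46784) (L (nat_lit 3456633))
(L (nat_lit 16093914)))
(S (nat_lit 47793) (S (nat_lit 43141) (S (nat_lit 17170) (L (nat_lit 11653560))
(L (nat_lit 27368076)))
(S (nat_lit 50950) (S (nat_lit 33628) (L (nat_lit 7997848))
(L (nat_lit 16081602)))
(L (nat_lit 10607161))))
(L (nat_lit 4040428))))
(S (nat_lit 48574) (S (nat_lit 2496) (S (nat_lit 44216) (S (nat_lit 43200) (S (nat_lit 44183) (S (nat_lit 6866) (L (nat_lit 11647609))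
(L (nat_lit 12931132)))
(L (nat_lit 12235930)))
(L (nat_lit 27380014)))
(S (nat_lit 44297) (S (nat_lit 15908) (S (nat_lit 43859) (S (nat_lit 46117) (S (nat_lit 8069) (L (nat_lit 5677789))
(L (nat_lit 26448624)))
(L (nat_lit 17931993)))
(L (nat_lit 26760203)))
(L (nat_lit 18554720)))
(L (nat_lit 4007630))))
(S (nat_lit 22260) (S (nat_lit 50769) (S (nat_lit 33628) (S (nat_lit 29294) (S (nat_lit 12171) (S (nat_lit 20558) (S (nat_lit 15122) (S (nat_lit 6589) (S (nat_lit 18293) (S (nat_lit 13434) (S (nat_lit 57072) (L (nat_lit 29437679))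
(L (nat_lit 19699206)))
(L (nat_lit 7453336)))
(L (nat_lit 18016871)))
(L (nat_lit 13473842)))
(L (nat_lit 5923184)))
(L (nat_lit 15570966)))
(L (nat_lit 17933913)))
(L (nat_lit 19240813)))
(L (nat_lit 16446658)))
(L (nat_lit 15475798)))
(S (nat_lit 42024) (S (nat_lit 50769) (S (nat_lit 48595) (S (nat_lit 33628) (S (nat_lit 12171) (S (nat_lit 27833) (S (nat_lit 29249) (L (nat_lit 21473436))
(L (nat_lit 12282031)))
(L (nat_lit 10603995)))
(L (nat_lit 15849290)))
(L (nat_lit 16446658)))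
(L (nat_lit 12247589)))
(L (nat_lit 12334164)))
(L (nat_lit 25546768)))))
(L (nat_lit 25858252)))))
(S (nat_lit 26134) (S (nat_lit 7826) (S (nat_lit 12896) (S (nat_lit 10356) (S (nat_lit 50686) (L (nat_lit 6075046))
(L (nat_lit 26544749)))
(S (nat_lit 10761) (S (nat_lit 12171) (S (nat_lit 21786) (S (nat_lit 509) (S (nat_lit 22741) (L (nat_lit 8305379))
(L (nat_lit 12027765)))
(L (nat_lit 6053136)))
(L (nat_lit 14769372)))
(L (nat_lit 5913416)))
(L (nat_lit 3645334))))
(S (nat_lit 32660) (S (nat_lit 56054) (S (nat_lit 15143) (S (nat_lit 57539) (L (nat_lit 28690880))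
(L (nat_lit 21270382)))
(L (nat_lit 12847988)))
(L (nat_lit 21150569)))
(S (nat_lit 52424) (S (nat_lit 50769) (S (nat_lit 19500) (S (nat_lit 9061) (S (nat_lit 55368) (S (nat_lit 24942) (L (nat_lit 29465201))
(L (nat_lit 21292113)))
(L (nat_lit 27409621)))
(L (nat_lit 26566117)))
(L (nat_lit 16702661)))
(L (nat_lit 13393122)))
(L (nat_lit 25825486)))))
(S (nat_lit 27590) (S (nat_lit 13888) (S (nat_lit 12171) (S (nat_lit 17317) (S (nat_lit 509) (S (nat_lit 16918) (S (nat_lit 56054) (S (nat_lit 48100) (L (nat_lit 5459452))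
(L (nat_lit 7092804)))
(L (nat_lit 19205997)))
(L (nat_lit 12773590)))
(L (nat_lit 18989931)))
(L (nat_lit 3600103)))
(L (nat_lit 5583732)))
(S (nat_lit 33652) (S (nat_lit 20558) (S (nat_lit 33685) (S (nat_lit 15122) (L (nat_lit 5773944))
(L (nat_lit 4105968)))
(L (nat_lit 14934166)))
(L (nat_lit 6852438)))
(S (nat_lit 53416) (S (nat_lit 20558) (S (nat_lit 5178) (S (nat_lit 17317) (S (nat_lit 57013) (S (nat_lit 30492) (S (nat_lit 6325) (L (nat_lit 345753))
(L (nat_lit 5759722)))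
(L (nat_lit 7898966)))
(L (nat_lit 17141590)))
(L (nat_lit 9957089)))
(L (nat_lit 19839329)))
(L (nat_lit 30969110)))
(L (nat_lit 25246035)))))
(S (nat_lit 47354) (S (nat_lit 5172) (S (nat_lit 47597) (S (nat_lit 4688) (L (nat_lit 9922241))
(L (nat_lit 26679018)))
(L (nat_lit 17132261)))
(S (nat_lit 24936) (S (nat_lit 2977) (S (nat_lit 51482) (S (nat_lit 44706) (S (nat_lit 28810) (L (nat_lit 15502550))
(L (nat_lit 5742296)))
(L (nat_lit 10205985)))
(L (nat_lit 3972812)))
(L (nat_lit 9134220)))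
(S (nat_lit 44700) (S (nat_lit 41252) (S (nat_lit 12171) (S (nat_lit 28029) (L (nat_lit 7462704))
(L (nat_lit 8022466)))
(L (nat_lit 21465928)))
(S (nat_lit 47487) (L (nat_lit 11646716))
(L (nat_lit 3563862))))
(L (nat_lit 25931201)))))
(L (nat_lit 25318608)))))
(S (nat_lit 45898) (S (nat_lit 509) (S (nat_lit 9046) (S (nat_lit 34886) (S (nat_lit 33628) (S (nat_lit 50769) (S (nat_lit 33180) (S (nat_lit 21956) (S (nat_lit 12171) (S (nat_lit 44159) (S (nat_lit 44685) (S (nat_lit 20558) (S (nat_lit 47793) (S (nat_lit 41252) (S (nat_lit 9530) (S (nat_lit 35095) (S (nat_lit 18516) (S (nat_lit 28831) (S (nat_lit 49076) (L (nat_lit 17965656))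
(L (nat_lit 16587365)))
(L (nat_lit 30790833)))
(S (nat_lit 38280) (S (nat_lit 57821) (S (nat_lit 47354) (S (nat_lit 36819) (L (nat_lit 374522))
(L (nat_lit 30986530)))
(L (nat_lit 927313)))
(L (nat_lit 27494836)))
(S (nat_lit 58044) (S (nat_lit 43465) (S (nat_lit 48595) (S (nat_lit 2722) (S (nat_lit 21025) (L (nat_lit 11930265))
(L (nat_lit 22506820)))
(L (nat_lit 18937105)))
(L (nat_lit 20373672)))
(L (nat_lit 1989969)))
(L (nat_lit 25180533)))))
(L (nat_lit 23312290)))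
(L (nat_lit 26975373)))
(L (nat_lit 7265763)))
(L (nat_lit 17443867)))
(L (nat_lit 15439897)))
(L (nat_lit 5720347)))
(L (nat_lit 12113082)))
(L (nat_lit 6077000)))
(L (nat_lit 3623850)))
(L (nat_lit 14945884)))
(L (nat_lit 15490276)))
(L (nat_lit 3929295)))
(L (nat_lit 8183168)))
(S (nat_lit 46087) (L (nat_lit 3494732))
(L (nat_lit 2810376))))
(S (nat_lit 20273) (S (nat_lit 9046) (S (nat_lit 9485) (S (nat_lit 11241) (L (nat_lit 8513076))
(L (nat_lit 26331686)))
(L (nat_lit 15487269)))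
(L (nat_lit 14803159)))
(S (nat_lit 40037) (S (nat_lit 29444) (L (nat_lit 17424740))
(S (nat_lit 33652) (S (nat_lit 20558) (L (nat_lit 6720342))
(L (nat_lit 30641590)))
(L (nat_lit 2319087))))
(L (nat_lit 25417872)))))
(L (nat_lit 25494253)))))
(S (nat_lit 23939) (S (nat_lit 8265) (S (nat_lit 16053) (S (nat_lit 18958) (S (nat_lit 37546) (S (nat_lit 40037) (S (nat_lit 2192) (S (nat_lit 51942) (S (nat_lit 13864) (S (nat_lit 3164) (S (nat_lit 12896) (S (nat_lit 4631) (S (nat_lit 6325) (L (nat_lit 15783785))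
(S (nat_lit 26089) (S (nat_lit 33652) (L (nat_lit 13831864))
(L (nat_lit 12159389)))
(S (nat_lit 45853) (S (nat_lit 52899) (S (nat_lit 31718) (S (nat_lit 51699) (S (nat_lit 9154) (L (nat_lit 7870204))
(L (nat_lit 30622341)))
(L (nat_lit 15638085)))
(S (nat_lit 33316) (L (nat_lit 3649112))
(L (nat_lit 6481550))))
(L (nat_lit 3840539)))
(L (nat_lit 25761037)))))
(L (nat_lit 26367498)))
(L (nat_lit 26331526)))
(L (nat_lit 26675414)))
(L (nat_lit 10500979)))
(L (nat_lit 6306614)))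
(L (nat_lit 8159638)))
(L (nat_lit 12501046)))
(L (nat_lit 5551987)))
(S (nat_lit 38668) (L (nat_lit 1336822))
(L (nat_lit 12336739))))
(S (nat_lit 35817) (S (nat_lit 18958) (S (nat_lit 37546) (S (nat_lit 40037) (S (nat_lit 2192) (S (nat_lit 20023) (S (nat_lit 51942) (S (nat_lit 3164) (S (nat_lit 4631) (S (nat_lit 13864) (S (nat_lit 32660) (S (nat_lit 9067) (S (nat_lit 41550) (L (nat_lit 26220980))
(L (nat_lit 28000451)))
(S (nat_lit 28831) (S (nat_lit 55368) (L (nat_lit 8405657))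
(L (nat_lit 11323909)))
(S (nat_lit 48595) (S (nat_lit 21786) (L (nat_lit 762427))
(L (nat_lit 10503900)))
(L (nat_lit 25277714)))))
(L (nat_lit 13753627)))
(L (nat_lit 26630251)))
(L (nat_lit 18082999)))
(L (nat_lit 26675414)))
(L (nat_lit 6306614)))
(L (nat_lit 15332672)))
(L (nat_lit 8159638)))
(L (nat_lit 12501046)))
(S (nat_lit 57256) (S (nat_lit 20558) (L (nat_lit 30705046))
(L (nat_lit 30707126)))
(L (nat_lit 6042963))))
(S (nat_lit 38644) (L (nat_lit 1467766))
(L (nat_lit 24493923))))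
(S (nat_lit 55581) (S (nat_lit 17317) (S (nat_lit 15331) (L (nat_lit 5488438))
(L (nat_lit 16979830)))
(S (nat_lit 37081) (S (nat_lit 20558) (S (nat_lit 51942) (S (nat_lit 18958) (S (nat_lit 11743) (S (nat_lit 2192) (S (nat_lit 15632) (S (nat_lit 15840) (S (nat_lit 13864) (S (nat_lit 27259) (L (nat_lit 3550941))
(L (nat_lit 23444320)))
(L (nat_lit 22425443)))
(L (nat_lit 25013424)))
(L (nat_lit 15365226)))
(L (nat_lit 17597718)))
(L (nat_lit 21460102)))
(L (nat_lit 1631574)))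
(L (nat_lit 5087670)))
(L (nat_lit 16559126)))
(S (nat_lit 56845) (S (nat_lit 50769) (S (nat_lit 18958) (S (nat_lit 13864) (S (nat_lit 39787) (S (nat_lit 40037) (S (nat_lit 3164) (S (nat_lit 9061) (S (nat_lit 52424) (S (nat_lit 21786) (S (nat_lit 4859) (L (nat_lit 1426170))
(L (nat_lit 10968961)))
(L (nat_lit 1776188)))
(L (nat_lit 960979)))
(L (nat_lit 26265192)))
(L (nat_lit 17130678)))
(L (nat_lit 16887702)))
(L (nat_lit 24548729)))
(L (nat_lit 8415702)))
(L (nat_lit 24493923)))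
(L (nat_lit 3633398)))
(L (nat_lit 25614689)))))
(L (nat_lit 25210446)))))
(S (nat_lit 28029) (S (nat_lit 12171) (S (nat_lit 56845) (S (nat_lit 21956) (S (nat_lit 4631) (L (nat_lit 26231094))
(L (nat_lit 7923894)))
(L (nat_lit 30934326)))
(L (nat_lit 9187510)))
(L (nat_lit 15837046)))
(S (nat_lit 47793) (S (nat_lit 17317) (S (nat_lit 20558) (S (nat_lit 24452) (L (nat_lit 17682502))
(L (nat_lit 17162294)))
(L (nat_lit 14999606)))
(L (nat_lit 9933622)))
(L (nat_lit 25540322)))))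
(S (nat_lit 43703) (S (nat_lit 794) (S (nat_lit 4655) (L (nat_lit 8295862))
(S (nat_lit 24419) (L (nat_lit 3465654))
(S (nat_lit 44183) (L (nat_lit 12083222))
(L (nat_lit 25690327)))))
(S (nat_lit 20558) (S (nat_lit 6325) (S (nat_lit 10982) (S (nat_lit 12171) (S (nat_lit 56583) (S (nat_lit 51482) (S (nat_lit 24936) (L (nat_lit 21085432))
(L (nat_lit 17031905)))
(L (nat_lit 13423753)))
(L (nat_lit 19045232)))
(S (nat_lit 36889) (L (nat_lit 3391098))
(L (nat_lit 16524342))))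
(S (nat_lit 30746) (S (nat_lit 12896) (S (nat_lit 34907) (S (nat_lit 52899) (S (nat_lit 16526) (L (nat_lit 15509189))
(L (nat_lit 24241671)))
(L (nat_lit 17493030)))
(L (nat_lit 23904294)))
(L (nat_lit 21797900)))
(S (nat_lit 50510) (S (nat_lit 16769) (S (nat_lit 56583) (S (nat_lit 8265) (S (nat_lit 57310) (L (nat_lit 28686420))
(L (nat_lit 19407932)))
(L (nat_lit 14473225)))
(L (nat_lit 14454505)))
(L (nat_lit 24653605)))
(L (nat_lit 25603093)))))
(S (nat_lit 26089) (S (nat_lit 2496) (S (nat_lit 26630) (S (nat_lit 27325) (S (nat_lit 57310) (L (nat_lit 24225613))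
(L (nat_lit 21239632)))
(L (nat_lit 5452631)))
(S (nat_lit 46037) (L (nat_lit 16109629))
(L (nat_lit 8500085))))
(S (nat_lit 22260) (S (nat_lit 6589) (S (nat_lit 26152) (S (nat_lit 28029) (S (nat_lit 29312) (L (nat_lit 1754984))
(L (nat_lit 24546619)))
(L (nat_lit 7753756)))
(L (nat_lit 30888193)))
(L (nat_lit 21094638)))
(S (nat_lit 42024) (S (nat_lit 44216) (S (nat_lit 46394) (L (nat_lit 11717018))
(L (nat_lit 16896376)))
(S (nat_lit 47900) (L (nat_lit 4070128))
(L (nat_lit 3909018))))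
(L (nat_lit 25663143)))))
(S (nat_lit 45853) (S (nat_lit 2022) (S (nat_lit 39787) (S (nat_lit 44700) (S (nat_lit 36533) (S (nat_lit 36819) (L (nat_lit 16787196))
(L (nat_lit 7901077)))
(L (nat_lit 3693945)))
(L (nat_lit 14865224)))
(L (nat_lit 3778105)))
(S (nat_lit 21786) (S (nat_lit 509) (S (nat_lit 12171) (S (nat_lit 33652) (L (nat_lit 5619451))
(L (nat_lit 16119522)))
(L (nat_lit 16522294)))
(L (nat_lit 26402064)))
(S (nat_lit 41550) (S (nat_lit 6644) (S (nat_lit 50510) (L (nat_lit 15437021))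
(L (nat_lit 27799237)))
(S (nat_lit 33652) (S (nat_lit 12171) (S (nat_lit 48574) (L (nat_lit 30033091))
(L (nat_lit 3946706)))
(L (nat_lit 16522294)))
(L (nat_lit 15472691))))
(L (nat_lit 25182953)))))
(L (nat_lit 25345738)))))
(S (nat_lit 40322) (S (nat_lit 24452) (L (nat_lit 3465654))
(L (nat_lit 13739894)))
(L (nat_lit 25901317)))))
(L (nat_lit 25579590)))))
(S (nat_lit 30468) (S (nat_lit 15143) (S (nat_lit 9061) (S (nat_lit 2977) (S (nat_lit 259) (S (nat_lit 29312) (L (nat_lit 8123537))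
(S (nat_lit 39309) (L (nat_lit 26816835))
(L (nat_lit 19372901))))
(S (nat_lit 20023) (S (nat_lit 12637) (L (nat_lit 8110236))
(L (nat_lit 21537946)))
(S (nat_lit 39787) (S (nat_lit 41252) (S (nat_lit 42024) (S (nat_lit 18958) (L (nat_lit 7861396))
(L (nat_lit 22578522)))
(L (nat_lit 3875630)))
(L (nat_lit 24416049)))
(L (nat_lit 25579560)))))
(S (nat_lit 22741) (S (nat_lit 2028) (L (nat_lit 13977658))
(S (nat_lit 33652) (S (nat_lit 58754) (S (nat_lit 20558) (S (nat_lit 33685) (L (nat_lit 15522953))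
(L (nat_lit 6819702)))
(L (nat_lit 6852438)))
(L (nat_lit 15037588)))
(L (nat_lit 14803627))))
(S (nat_lit 42505) (S (nat_lit 17317) (S (nat_lit 18011) (S (nat_lit 27590) (S (nat_lit 38990) (S (nat_lit 28029) (L (nat_lit 376441))
(L (nat_lit 5911465)))
(L (nat_lit 8089740)))
(L (nat_lit 25075168)))
(S (nat_lit 45073) (L (nat_lit 6308475))
(L (nat_lit 26646644))))
(S (nat_lit 37081) (S (nat_lit 9046) (S (nat_lit 37546) (S (nat_lit 38990) (L (nat_lit 7456473))
(L (nat_lit 8311948)))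
(L (nat_lit 23524392)))
(L (nat_lit 7790738)))
(S (nat_lit 56845) (S (nat_lit 27590) (S (nat_lit 22486) (S (nat_lit 33652) (L (nat_lit 8041626))
(L (nat_lit 16114403)))
(L (nat_lit 21773449)))
(S (nat_lit 40866) (L (nat_lit 14021811))
(L (nat_lit 19373211))))
(L (nat_lit 25664691)))))
(L (nat_lit 25666243)))))
(S (nat_lit 28825) (S (nat_lit 11241) (S (nat_lit 2977) (S (nat_lit 19226) (S (nat_lit 37308) (S (nat_lit 7561) (S (nat_lit 17317) (L (nat_lit 2640120))
(L (nat_lit 11618102)))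
(L (nat_lit 14409798)))
(L (nat_lit 14436422)))
(L (nat_lit 18689172)))
(S (nat_lit 22741) (L (nat_lit 11955348))
(S (nat_lit 42505) (S (nat_lit 22928) (L (nat_lit 28362988))
(L (nat_lit 30871766)))
(L (nat_lit 25887020)))))
(S (nat_lit 31005) (S (nat_lit 18011) (S (nat_lit 26295) (L (nat_lit 10175549))
(S (nat_lit 42505) (S (nat_lit 12968) (L (nat_lit 7801718))
(S (nat_lit 32660) (S (nat_lit 38990) (S (nat_lit 23939) (L (nat_lit 28592645))
(L (nat_lit 7758528)))
(L (nat_lit 5695796)))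
(L (nat_lit 7529070))))
(L (nat_lit 23380124))))
(S (nat_lit 37775) (S (nat_lit 40037) (S (nat_lit 27590) (S (nat_lit 16526) (S (nat_lit 27325) (S (nat_lit 50510) (L (nat_lit 14492357))
(L (nat_lit 20046315)))
(L (nat_lit 19084096)))
(L (nat_lit 16884412)))
(L (nat_lit 19831856)))
(S (nat_lit 51176) (L (nat_lit 25076785))
(L (nat_lit 24363064))))
(S (nat_lit 57539) (S (nat_lit 2192) (S (nat_lit 51699) (S (nat_lit 3937) (S (nat_lit 8572) (L (nat_lit 26691755))
(L (nat_lit 5881706)))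
(L (nat_lit 19047244)))
(L (nat_lit 7921716)))
(L (nat_lit 19668516)))
(L (nat_lit 25214698)))))
(S (nat_lit 50769) (S (nat_lit 47089) (S (nat_lit 44685) (S (nat_lit 49076) (L (nat_lit 9915266))
(L (nat_lit 27505253)))
(L (nat_lit 27558513)))
(S (nat_lit 47900) (S (nat_lit 19736) (L (nat_lit 17901430))
(L (nat_lit 12693366)))
(L (nat_lit 3927462))))
(L (nat_lit 25281159)))))
(S (nat_lit 48589) (S (nat_lit 15840) (S (nat_lit 13921) (S (nat_lit 12896) (S (nat_lit 58754) (S (nat_lit 6325) (L (nat_lit 26714725))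
(L (nat_lit 3655963)))
(L (nat_lit 3896684)))
(L (nat_lit 3950982)))
(S (nat_lit 33685) (S (nat_lit 20558) (S (nat_lit 33652) (S (nat_lit 40037) (L (nat_lit 23366478))
(L (nat_lit 23191856)))
(L (nat_lit 7081398)))
(L (nat_lit 7114166)))
(S (nat_lit 53449) (S (nat_lit 20558) (S (nat_lit 46394) (L (nat_lit 10665782))
(L (nat_lit 4005489)))
(L (nat_lit 30641590)))
(L (nat_lit 25832962)))))
(S (nat_lit 35604) (S (nat_lit 11743) (S (nat_lit 20558) (S (nat_lit 2192) (S (nat_lit 21025) (S (nat_lit 24419) (S (nat_lit 27833) (L (nat_lit 29368726))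
(L (nat_lit 25072070)))
(L (nat_lit 13927035)))
(L (nat_lit 16702566)))
(L (nat_lit 26691877)))
(L (nat_lit 15962006)))
(S (nat_lit 31507) (S (nat_lit 18350) (L (nat_lit 21369084))
(S (nat_lit 19764) (S (nat_lit 35817) (S (nat_lit 31005) (S (nat_lit 24921) (L (nat_lit 6705957))
(L (nat_lit 3973619)))
(L (nat_lit 10138780)))
(L (nat_lit 23119100)))
(L (nat_lit 3774876))))
(S (nat_lit 51271) (S (nat_lit 42505) (S (nat_lit 20558) (S (nat_lit 48574) (L (nat_lit 9554765))
(L (nat_lit 16421084)))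
(L (nat_lit 15962006)))
(S (nat_lit 57145) (L (nat_lit 4507508))
(L (nat_lit 16457916))))
(L (nat_lit 25344242)))))
(S (nat_lit 55368) (S (nat_lit 12896) (S (nat_lit 28205) (L (nat_lit 3776432))
(S (nat_lit 46394) (S (nat_lit 33685) (L (nat_lit 28495238))
(L (nat_lit 16343179)))
(L (nat_lit 11662960))))
(L (nat_lit 3726620)))
(L (nat_lit 25723622)))))
(L (nat_lit 25863589)))))
(S (nat_lit 34907) (S (nat_lit 10761) (S (nat_lit 13921) (S (nat_lit 9485) (S (nat_lit 44183) (S (nat_lit 33628) (S (nat_lit 972) (S (nat_lit 17544) (L (nat_lit 28970348))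
(L (nat_lit 18092665)))
(L (nat_lit 26479212)))
(L (nat_lit 16015970)))
(L (nat_lit 27542113)))
(S (nat_lit 13236) (S (nat_lit 31507) (L (nat_lit 3848107))
(L (nat_lit 19705990)))
(L (nat_lit 8872085))))
(S (nat_lit 33685) (S (nat_lit 20558) (S (nat_lit 17317) (S (nat_lit 44183) (L (nat_lit 11711350))
(L (nat_lit 14980982)))
(L (nat_lit 11618070)))
(L (nat_lit 7114166)))
(S (nat_lit 53449) (S (nat_lit 20558) (S (nat_lit 51699) (S (nat_lit 2192) (L (nat_lit 9222294))
(L (nat_lit 1598742)))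
(L (nat_lit 8302742)))
(L (nat_lit 30641590)))
(L (nat_lit 25303571)))))
(S (nat_lit 30525) (S (nat_lit 2496) (S (nat_lit 13434) (S (nat_lit 11241) (S (nat_lit 45898) (L (nat_lit 2647284))
(L (nat_lit 7004237)))
(L (nat_lit 4568793)))
(S (nat_lit 33198) (S (nat_lit 30492) (S (nat_lit 50950) (S (nat_lit 40500) (L (nat_lit 15064121))
(L (nat_lit 3486331)))
(L (nat_lit 14932156)))
(L (nat_lit 18589884)))
(S (nat_lit 52962) (S (nat_lit 814) (L (nat_lit 3646105))
(S (nat_lit 41252) (S (nat_lit 22741) (S (nat_lit 18958) (S (nat_lit 17544) (S (nat_lit 2722) (S (nat_lit 7826) (L (nat_lit 7391029))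
(L (nat_lit 4005333)))
(L (nat_lit 3847450)))
(L (nat_lit 7434863)))
(L (nat_lit 1630058)))
(L (nat_lit 3983846)))
(L (nat_lit 3760614))))
(L (nat_lit 25698421)))))
(S (nat_lit 22260) (S (nat_lit 33628) (S (nat_lit 17440) (L (nat_lit 8030780))
(S (nat_lit 20558) (S (nat_lit 30492) (S (nat_lit 12637) (S (nat_lit 24419) (L (nat_lit 22975757))
(L (nat_lit 30855242)))
(L (nat_lit 12371653)))
(L (nat_lit 31011107)))
(L (nat_lit 7126038))))
(S (nat_lit 53320) (S (nat_lit 47597) (L (nat_lit 7434739))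
(L (nat_lit 18423898)))
(L (nat_lit 15458374))))
(S (nat_lit 42024) (S (nat_lit 30492) (S (nat_lit 51699) (S (nat_lit 31005) (S (nat_lit 33628) (S (nat_lit 2192) (L (nat_lit 3429232))
(L (nat_lit 17603702)))
(L (nat_lit 3564235)))
(L (nat_lit 30769716)))
(S (nat_lit 52978) (L (nat_lit 3749705))
(L (nat_lit 8302646))))
(L (nat_lit 7960069)))
(L (nat_lit 25937186)))))
(S (nat_lit 50289) (S (nat_lit 13864) (S (nat_lit 2192) (S (nat_lit 51699) (L (nat_lit 30907414))
(L (nat_lit 27761814)))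
(L (nat_lit 26412598)))
(S (nat_lit 33628) (S (nat_lit 2192) (S (nat_lit 20558) (S (nat_lit 3164) (S (nat_lit 37546) (S (nat_lit 44216) (S (nat_lit 8265) (S (nat_lit 20736) (S (nat_lit 24395) (S (nat_lit 17544) (S (nat_lit 54859) (S (nat_lit 39264) (L (nat_lit 3458808))
(L (nat_lit 23283493)))
(L (nat_lit 11028572)))
(L (nat_lit 7968185)))
(L (nat_lit 10305558)))
(L (nat_lit 14764316)))
(L (nat_lit 12358134)))
(L (nat_lit 24176011)))
(L (nat_lit 5988720)))
(L (nat_lit 14756726)))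
(L (nat_lit 16619542)))
(L (nat_lit 7125078)))
(S (nat_lit 53392) (S (nat_lit 40037) (L (nat_lit 12488182))
(L (nat_lit 27509814)))
(L (nat_lit 25188719)))))
(L (nat_lit 25250064)))))
(S (nat_lit 54671) (S (nat_lit 15331) (S (nat_lit 13888) (S (nat_lit 42692) (S (nat_lit 51699) (L (nat_lit 8295862))
(L (nat_lit 7517078)))
(L (nat_lit 27726038)))
(S (nat_lit 33652) (S (nat_lit 24452) (S (nat_lit 20558) (S (nat_lit 33685) (S (nat_lit 31005) (S (nat_lit 58486) (L (nat_lit 20813254))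
(L (nat_lit 5160182)))
(L (nat_lit 30876758)))
(L (nat_lit 6438774)))
(L (nat_lit 6471510)))
(L (nat_lit 30876790)))
(S (nat_lit 53416) (S (nat_lit 20558) (S (nat_lit 12414) (L (nat_lit 7487414))
(L (nat_lit 1547094)))
(L (nat_lit 30969110)))
(L (nat_lit 25540662)))))
(S (nat_lit 35095) (S (nat_lit 13371) (S (nat_lit 12637) (S (nat_lit 972) (S (nat_lit 50510) (L (nat_lit 15820390))
(L (nat_lit 12064474)))
(L (nat_lit 13372010)))
(S (nat_lit 32401) (S (nat_lit 22260) (S (nat_lit 20558) (L (nat_lit 6976589))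
(L (nat_lit 30588521)))
(L (nat_lit 9953298)))
(S (nat_lit 52165) (S (nat_lit 22928) (S (nat_lit 11422) (S (nat_lit 55581) (S (nat_lit 0) (L (nat_lit 28940673))
(L (nat_lit 13198374)))
(L (nat_lit 28020016)))
(L (nat_lit 21193249)))
(S (nat_lit 47437) (L (nat_lit 3858984))
(L (nat_lit 30741047))))
(L (nat_lit 25832933)))))
(S (nat_lit 33135) (S (nat_lit 15840) (S (nat_lit 33180) (S (nat_lit 24921) (S (nat_lit 2977) (L (nat_lit 1297265))
(L (nat_lit 16933579)))
(L (nat_lit 3884378)))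
(L (nat_lit 807462)))
(S (nat_lit 35604) (S (nat_lit 43703) (S (nat_lit 22260) (S (nat_lit 20273) (L (nat_lit 13756038))
(L (nat_lit 30607862)))
(L (nat_lit 17932986)))
(L (nat_lit 27676742)))
(S (nat_lit 55368) (S (nat_lit 3429) (S (nat_lit 50950) (L (nat_lit 21215010))
(L (nat_lit 20167868)))
(L (nat_lit 3858954)))
(L (nat_lit 25443447)))))
(S (nat_lit 52899) (S (nat_lit 9485) (S (nat_lit 7826) (S (nat_lit 2977) (L (nat_lit 28461606))
(L (nat_lit 26642118)))
(L (nat_lit 23295025)))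
(S (nat_lit 29249) (S (nat_lit 12896) (S (nat_lit 47354) (S (nat_lit 53449) (S (nat_lit 21268) (L (nat_lit 28561856))
(L (nat_lit 31070255)))
(L (nat_lit 19741867)))
(L (nat_lit 18606121)))
(L (nat_lit 3811740)))
(S (nat_lit 49013) (S (nat_lit 2022) (S (nat_lit 33628) (S (nat_lit 55160) (L (nat_lit 18618451))
(L (nat_lit 19217464)))
(L (nat_lit 4012406)))
(L (nat_lit 3929641)))
(L (nat_lit 25821485)))))
(L (nat_lit 25565303)))))
(S (nat_lit 54859) (S (nat_lit 3672) (S (nat_lit 0) (S (nat_lit 3429) (S (nat_lit 2977) (S (nat_lit 18958) (S (nat_lit 2192) (S (nat_lit 32660) (S (nat_lit 3164) (L (nat_lit 12808278))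
(L (nat_lit 11307414)))
(L (nat_lit 19373856)))
(L (nat_lit 1853994)))
(L (nat_lit 503418)))
(L (nat_lit 26364331)))
(L (nat_lit 14880377)))
(S (nat_lit 19764) (S (nat_lit 10761) (S (nat_lit 48589) (S (nat_lit 3429) (S (nat_lit 57072) (L (nat_lit 26336681))
(L (nat_lit 12077857)))
(L (nat_lit 9259120)))
(L (nat_lit 14501993)))
(L (nat_lit 3664489)))
(S (nat_lit 39528) (S (nat_lit 57072) (S (nat_lit 9061) (S (nat_lit 3429) (S (nat_lit 6866) (L (nat_lit 14534793))
(L (nat_lit 2680427)))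
(L (nat_lit 11374192)))
(L (nat_lit 6735930)))
(L (nat_lit 27693670)))
(L (nat_lit 25578720)))))
(S (nat_lit 23436) (S (nat_lit 1724) (S (nat_lit 18219) (L (nat_lit 4672363))
(L (nat_lit 2444145)))
(S (nat_lit 21488) (S (nat_lit 33685) (S (nat_lit 12896) (L (nat_lit 28594723))
(L (nat_lit 16533760)))
(L (nat_lit 6840467)))
(S (nat_lit 41252) (S (nat_lit 20558) (S (nat_lit 33628) (S (nat_lit 52361) (L (nat_lit 3359356))
(L (nat_lit 11031360)))
(L (nat_lit 30805206)))
(L (nat_lit 4037046)))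
(L (nat_lit 25772257)))))
(S (nat_lit 43200) (S (nat_lit 9548) (S (nat_lit 44700) (L (nat_lit 2580723))
(L (nat_lit 27728019)))
(S (nat_lit 29312) (S (nat_lit 33180) (S (nat_lit 2192) (L (nat_lit 28330225))
(L (nat_lit 26757381)))
(L (nat_lit 14993468)))
(S (nat_lit 49076) (S (nat_lit 8961) (L (nat_lit 28027365))
(S (nat_lit 17544) (S (nat_lit 16769) (S (nat_lit 52424) (L (nat_lit 542941))
(L (nat_lit 27445516)))
(L (nat_lit 24666118)))
(L (nat_lit 15805049))))
(L (nat_lit 25419172)))))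
(L (nat_lit 25577513)))))
(L (nat_lit 25181491)))))
(L (nat_lit 25379424)))))
(S (nat_lit 50232) (S (nat_lit 16053) (S (nat_lit 8572) (S (nat_lit 6388) (S (nat_lit 4631) (S (nat_lit 58486) (S (nat_lit 20273) (S (nat_lit 31935) (L (nat_lit 16015410))
(L (nat_lit 6808724)))
(L (nat_lit 21905450)))
(L (nat_lit 9157756)))
(S (nat_lit 24395) (S (nat_lit 33685) (S (nat_lit 26353) (S (nat_lit 54859) (L (nat_lit 29505781))
(L (nat_lit 10501942)))
(L (nat_lit 19826088)))
(L (nat_lit 20451174)))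
(S (nat_lit 44159) (S (nat_lit 39528) (S (nat_lit 45853) (L (nat_lit 12866369))
(L (nat_lit 15633621)))
(S (nat_lit 48201) (L (nat_lit 18892154))
(L (nat_lit 25068966))))
(L (nat_lit 25306646)))))
(S (nat_lit 26152) (S (nat_lit 33652) (S (nat_lit 20558) (S (nat_lit 33685) (S (nat_lit 9548) (S (nat_lit 50510) (L (nat_lit 24359067))
(L (nat_lit 22850084)))
(L (nat_lit 26843279)))
(L (nat_lit 6819702)))
(L (nat_lit 6852438)))
(S (nat_lit 53614) (L (nat_lit 13314203))
(L (nat_lit 7081398))))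
(S (nat_lit 45916) (S (nat_lit 17782) (S (nat_lit 31507) (S (nat_lit 20558) (S (nat_lit 58754) (L (nat_lit 2317197))
(L (nat_lit 6315884)))
(L (nat_lit 6477712)))
(L (nat_lit 24308976)))
(S (nat_lit 37546) (S (nat_lit 8265) (S (nat_lit 24452) (S (nat_lit 18958) (L (nat_lit 26331658))
(L (nat_lit 16548182)))
(L (nat_lit 30867798)))
(L (nat_lit 12334260)))
(S (nat_lit 57310) (S (nat_lit 104) (L (nat_lit 27434455))
(S (nat_lit 509) (S (nat_lit 44216) (L (nat_lit 26320278))
(L (nat_lit 15459371)))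
(L (nat_lit 3987760))))
(L (nat_lit 25892233)))))
(L (nat_lit 25560775)))))
(S (nat_lit 28336) (S (nat_lit 11241) (S (nat_lit 9067) (S (nat_lit 35095) (S (nat_lit 31718) (S (nat_lit 17317) (L (nat_lit 22374412))
(L (nat_lit 22974764)))
(L (nat_lit 24550553)))
(S (nat_lit 41123) (L (nat_lit 5151127))
(L (nat_lit 2864440))))
(S (nat_lit 28831) (S (nat_lit 20273) (S (nat_lit 36290) (S (nat_lit 31718) (S (nat_lit 31935) (L (nat_lit 29862628))
(L (nat_lit 13984918)))
(L (nat_lit 24550553)))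
(L (nat_lit 23400333)))
(L (nat_lit 15855275)))
(S (nat_lit 48595) (S (nat_lit 18011) (S (nat_lit 36819) (L (nat_lit 7463664))
(L (nat_lit 30641621)))
(L (nat_lit 22920416)))
(L (nat_lit 25209234)))))
(S (nat_lit 31005) (S (nat_lit 31507) (S (nat_lit 27325) (L (nat_lit 6772892))
(L (nat_lit 24586397)))
(L (nat_lit 24948870)))
(S (nat_lit 50769) (S (nat_lit 19226) (S (nat_lit 9548) (L (nat_lit 7850136))
(L (nat_lit 26717331)))
(L (nat_lit 22555805)))
(L (nat_lit 25499279)))))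
(S (nat_lit 48100) (S (nat_lit 11422) (S (nat_lit 7826) (S (nat_lit 55160) (L (nat_lit 10602140))
(L (nat_lit 3952973)))
(S (nat_lit 27590) (S (nat_lit 9176) (L (nat_lit 3944077))
(S (nat_lit 55160) (S (nat_lit 27325) (S (nat_lit 36290) (L (nat_lit 15009682))
(L (nat_lit 23554304)))
(L (nat_lit 7262351)))
(L (nat_lit 16526913))))
(S (nat_lit 47354) (S (nat_lit 31718) (S (nat_lit 29294) (L (nat_lit 29962529))
(L (nat_lit 6403707)))
(L (nat_lit 6745237)))
(L (nat_lit 25382370)))))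
(S (nat_lit 31186) (S (nat_lit 5768) (L (nat_lit 22584195))
(S (nat_lit 44700) (S (nat_lit 41252) (S (nat_lit 31718) (S (nat_lit 45853) (S (nat_lit 20558) (S (nat_lit 24419) (S (nat_lit 36290) (L (nat_lit 29743651))
(L (nat_lit 1763783)))
(L (nat_lit 17584355)))
(L (nat_lit 7016337)))
(L (nat_lit 24678151)))
(L (nat_lit 7254165)))
(L (nat_lit 25070832)))
(L (nat_lit 10237664))))
(S (nat_lit 50950) (S (nat_lit 27590) (S (nat_lit 23833) (L (nat_lit 10607000))
(S (nat_lit 31935) (S (nat_lit 42505) (S (nat_lit 29249) (S (nat_lit 58044) (L (nat_lit 8076474))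
(L (nat_lit 1877617)))
(L (nat_lit 19153049)))
(L (nat_lit 9956500)))
(L (nat_lit 18998641))))
(S (nat_lit 46516) (S (nat_lit 46498) (L (nat_lit 6411183))
(L (nat_lit 9049593)))
(L (nat_lit 14896185))))
(L (nat_lit 25894061)))))
(L (nat_lit 25376823)))))
(S (nat_lit 35817) (S (nat_lit 3429) (S (nat_lit 6325) (S (nat_lit 972) (S (nat_lit 29312) (S (nat_lit 58044) (S (nat_lit 41252) (S (nat_lit 18011) (L (nat_lit 20178063))
(L (nat_lit 3426100)))
(L (nat_lit 3547958)))
(L (nat_lit 3983786)))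
(L (nat_lit 3983597)))
(S (nat_lit 20736) (S (nat_lit 52944) (S (nat_lit 56583) (S (nat_lit 55160) (S (nat_lit 11422) (S (nat_lit 41252) (L (nat_lit 6443416))
(L (nat_lit 18418938)))
(L (nat_lit 16387322)))
(L (nat_lit 16584330)))
(L (nat_lit 19292299)))
(L (nat_lit 3976725)))
(S (nat_lit 40500) (S (nat_lit 31507) (S (nat_lit 42250) (L (nat_lit 12372110))
(L (nat_lit 14344481)))
(L (nat_lit 19175277)))
(L (nat_lit 25250125)))))
(S (nat_lit 26089) (S (nat_lit 18011) (S (nat_lit 19500) (L (nat_lit 22482790))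
(L (nat_lit 22416600)))
(L (nat_lit 3426100)))
(S (nat_lit 45853) (S (nat_lit 38057) (L (nat_lit 15371577))
(L (nat_lit 30707404)))
(L (nat_lit 25530064)))))
(S (nat_lit 23193) (S (nat_lit 13371) (S (nat_lit 10982) (S (nat_lit 33652) (L (nat_lit 11652972))
(L (nat_lit 7015864)))
(S (nat_lit 30746) (S (nat_lit 38280) (S (nat_lit 27590) (L (nat_lit 12077209))
(L (nat_lit 7080688)))
(L (nat_lit 14436362)))
(S (nat_lit 50510) (S (nat_lit 18958) (S (nat_lit 51482) (S (nat_lit 50289) (S (nat_lit 6370) (L (nat_lit 6971844))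
(L (nat_lit 11689869)))
(L (nat_lit 20719632)))
(L (nat_lit 14869191)))
(L (nat_lit 22071146)))
(L (nat_lit 25923820)))))
(S (nat_lit 33135) (S (nat_lit 1261) (S (nat_lit 24936) (S (nat_lit 31935) (L (nat_lit 30869067))
(L (nat_lit 6468188)))
(L (nat_lit 21376800)))
(S (nat_lit 21025) (S (nat_lit 33628) (S (nat_lit 56297) (S (nat_lit 20558) (S (nat_lit 56583) (S (nat_lit 47597) (L (nat_lit 4536119))
(L (nat_lit 4677971)))
(L (nat_lit 15748011)))
(L (nat_lit 7015867)))
(L (nat_lit 27960836)))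
(L (nat_lit 15392875)))
(S (nat_lit 40789) (S (nat_lit 57821) (S (nat_lit 33685) (L (nat_lit 30098566))
(L (nat_lit 16387947)))
(L (nat_lit 7998906)))
(L (nat_lit 25664693)))))
(S (nat_lit 52899) (S (nat_lit 7826) (S (nat_lit 20558) (S (nat_lit 58754) (L (nat_lit 15636171))
(L (nat_lit 1787750)))
(L (nat_lit 15962006)))
(S (nat_lit 27590) (S (nat_lit 20558) (S (nat_lit 21025) (S (nat_lit 30746) (L (nat_lit 8908384))
(L (nat_lit 25079850)))
(L (nat_lit 1263229)))
(L (nat_lit 14999606)))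
(S (nat_lit 47354) (S (nat_lit 30746) (S (nat_lit 20558) (S (nat_lit 32178) (L (nat_lit 3060455))
(L (nat_lit 17142364)))
(L (nat_lit 3971696)))
(L (nat_lit 3944076)))
(L (nat_lit 25306611)))))
(L (nat_lit 25926180)))))
(S (nat_lit 42957) (S (nat_lit 8572) (S (nat_lit 33180) (S (nat_lit 56583) (S (nat_lit 6325) (S (nat_lit 49076) (L (nat_lit 7523150))
(L (nat_lit 15885555)))
(L (nat_lit 19696909)))
(L (nat_lit 6471541)))
(S (nat_lit 46278) (L (nat_lit 6689650))
(L (nat_lit 16012132))))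
(S (nat_lit 28336) (S (nat_lit 1504) (S (nat_lit 24419) (S (nat_lit 20273) (S (nat_lit 24936) (S (nat_lit 49076) (L (nat_lit 29646304))
(L (nat_lit 22253325)))
(L (nat_lit 3616474)))
(L (nat_lit 16329883)))
(S (nat_lit 26739) (L (nat_lit 16026235))
(L (nat_lit 14295875))))
(S (nat_lit 21268) (S (nat_lit 20558) (S (nat_lit 20273) (S (nat_lit 17544) (L (nat_lit 28392070))
(L (nat_lit 16012129)))
(L (nat_lit 16669834)))
(L (nat_lit 12116549)))
(S (nat_lit 41032) (S (nat_lit 259) (S (nat_lit 39264) (L (nat_lit 29595374))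
(L (nat_lit 14225257)))
(L (nat_lit 19699209)))
(L (nat_lit 25837859)))))
(S (nat_lit 48100) (S (nat_lit 19226) (S (nat_lit 31935) (S (nat_lit 33685) (L (nat_lit 18988838))
(L (nat_lit 7126163)))
(L (nat_lit 6804636)))
(S (nat_lit 38990) (S (nat_lit 22486) (S (nat_lit 18516) (S (nat_lit 34907) (L (nat_lit 21456096))
(L (nat_lit 20759686)))
(L (nat_lit 22548330)))
(L (nat_lit 9197708)))
(S (nat_lit 58754) (S (nat_lit 9067) (S (nat_lit 41252) (L (nat_lit 24612120))
(L (nat_lit 18779478)))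
(L (nat_lit 6721275)))
(L (nat_lit 25345394)))))
(L (nat_lit 25443905)))))
(L (nat_lit 25381998)))))
(S (nat_lit 55581) (S (nat_lit 8572) (S (nat_lit 13371) (S (nat_lit 15331) (S (nat_lit 13291) (L (nat_lit 14583061))
(S (nat_lit 26630) (S (nat_lit 53416) (L (nat_lit 9958550))
(L (nat_lit 18749494)))
(L (nat_lit 5937691))))
(S (nat_lit 35095) (S (nat_lit 11388) (L (nat_lit 13183909))
(S (nat_lit 38722) (S (nat_lit 32178) (S (nat_lit 48595) (S (nat_lit 18011) (L (nat_lit 20069593))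
(L (nat_lit 3432204)))
(L (nat_lit 22130236)))
(L (nat_lit 8001050)))
(L (nat_lit 3928583))))
(S (nat_lit 54859) (S (nat_lit 38280) (S (nat_lit 0) (S (nat_lit 28810) (L (nat_lit 5937724))
(L (nat_lit 5938717)))
(L (nat_lit 14425665)))
(L (nat_lit 14360324)))
(L (nat_lit 25177713)))))
(S (nat_lit 33135) (S (nat_lit 9485) (S (nat_lit 20273) (S (nat_lit 12637) (S (nat_lit 7826) (S (nat_lit 54671) (S (nat_lit 31935) (L (nat_lit 3359452))
(L (nat_lit 6808726)))
(L (nat_lit 17064084)))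
(L (nat_lit 23960720)))
(L (nat_lit 16568455)))
(L (nat_lit 15295626)))
(S (nat_lit 29249) (S (nat_lit 54859) (S (nat_lit 11422) (L (nat_lit 21534076))
(L (nat_lit 21765668)))
(L (nat_lit 16507139)))
(S (nat_lit 49013) (S (nat_lit 2722) (S (nat_lit 5172) (S (nat_lit 20736) (L (nat_lit 6774935))
(L (nat_lit 16075930)))
(L (nat_lit 16658112)))
(L (nat_lit 20819084)))
(L (nat_lit 25174453)))))
(S (nat_lit 52899) (S (nat_lit 23193) (S (nat_lit 52962) (S (nat_lit 7826) (S (nat_lit 2722) (L (nat_lit 14328677))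
(L (nat_lit 19278660)))
(L (nat_lit 23960720)))
(L (nat_lit 3751751)))
(S (nat_lit 51051) (L (nat_lit 3726150))
(L (nat_lit 2018826))))
(L (nat_lit 25376386)))))
(S (nat_lit 28336) (S (nat_lit 0) (S (nat_lit 17055) (S (nat_lit 49076) (S (nat_lit 11241) (S (nat_lit 15840) (S (nat_lit 5172) (S (nat_lit 21268) (L (nat_lit 29827219))
(L (nat_lit 15833940)))
(L (nat_lit 16700552)))
(L (nat_lit 15583398)))
(L (nat_lit 15846150)))
(L (nat_lit 15977221)))
(S (nat_lit 36819) (S (nat_lit 12637) (S (nat_lit 20273) (L (nat_lit 16997531))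
(L (nat_lit 16361627)))
(L (nat_lit 16568455)))
(S (nat_lit 56583) (S (nat_lit 5157) (S (nat_lit 24452) (L (nat_lit 30121004))
(L (nat_lit 13984481)))
(L (nat_lit 16048179)))
(L (nat_lit 25411236)))))
(S (nat_lit 19764) (S (nat_lit 12171) (S (nat_lit 26353) (L (nat_lit 17701942))
(S (nat_lit 28621) (L (nat_lit 7979163))
(L (nat_lit 15802199))))
(S (nat_lit 31935) (S (nat_lit 7561) (S (nat_lit 50289) (S (nat_lit 19226) (L (nat_lit 14507361))
(L (nat_lit 25019528)))
(L (nat_lit 16424771)))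
(S (nat_lit 44384) (L (nat_lit 4898012))
(L (nat_lit 26683543))))
(S (nat_lit 51699) (S (nat_lit 21268) (S (nat_lit 27833) (L (nat_lit 7457338))
(L (nat_lit 16700644)))
(L (nat_lit 15963741)))
(L (nat_lit 25823441)))))
(S (nat_lit 39528) (S (nat_lit 6325) (S (nat_lit 33198) (S (nat_lit 5178) (L (nat_lit 18630698))
(L (nat_lit 16669889)))
(L (nat_lit 16408900)))
(S (nat_lit 26089) (S (nat_lit 972) (S (nat_lit 56054) (S (nat_lit 41720) (S (nat_lit 15143) (L (nat_lit 6881752))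
(L (nat_lit 26427442)))
(L (nat_lit 12077860)))
(L (nat_lit 15856980)))
(S (nat_lit 33849) (L (nat_lit 22912012))
(L (nat_lit 11101325))))
(S (nat_lit 45853) (S (nat_lit 26630) (L (nat_lit 15371483))
(S (nat_lit 33612) (L (nat_lit 7243255))
(L (nat_lit 25009697))))
(L (nat_lit 25734229)))))
(L (nat_lit 25598003)))))
(S (nat_lit 48100) (S (nat_lit 13371) (S (nat_lit 18958) (S (nat_lit 27590) (S (nat_lit 972) (L (nat_lit 4579894))
(L (nat_lit 26358344)))
(L (nat_lit 19340345)))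
(S (nat_lit 38722) (S (nat_lit 26089) (S (nat_lit 20558) (S (nat_lit 56054) (S (nat_lit 49058) (L (nat_lit 30809668))
(L (nat_lit 28023949)))
(L (nat_lit 27385351)))
(L (nat_lit 31165712)))
(L (nat_lit 7835445)))
(S (nat_lit 58486) (S (nat_lit 54650) (S (nat_lit 33628) (L (nat_lit 27963748))
(L (nat_lit 31165931)))
(L (nat_lit 8413040)))
(L (nat_lit 25476211)))))
(S (nat_lit 33135) (S (nat_lit 1261) (S (nat_lit 15137) (S (nat_lit 31935) (S (nat_lit 5178) (S (nat_lit 33180) (L (nat_lit 9625113))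
(L (nat_lit 16699430)))
(L (nat_lit 20880897)))
(L (nat_lit 14491203)))
(L (nat_lit 14556738)))
(S (nat_lit 21025) (S (nat_lit 27590) (S (nat_lit 54665) (L (nat_lit 13917338))
(L (nat_lit 794192)))
(L (nat_lit 15769179)))
(S (nat_lit 40789) (S (nat_lit 39528) (S (nat_lit 34901) (S (nat_lit 31935) (S (nat_lit 4175) (L (nat_lit 28968459))
(L (nat_lit 15375452)))
(L (nat_lit 14556212)))
(L (nat_lit 23076377)))
(L (nat_lit 27303501)))
(L (nat_lit 25634404)))))
(S (nat_lit 52899) (S (nat_lit 20558) (S (nat_lit 20273) (S (nat_lit 21268) (S (nat_lit 30746) (L (nat_lit 22547769))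
(L (nat_lit 4106805)))
(L (nat_lit 30655541)))
(L (nat_lit 8995995)))
(S (nat_lit 37972) (S (nat_lit 43582) (L (nat_lit 20407616))
(L (nat_lit 22908140)))
(L (nat_lit 15962006))))
(L (nat_lit 25566786)))))
(L (nat_lit 25796065)))))
(L (nat_lit 25178760)))))
(L (nat_lit 25462326)))))
(L (nat_lit 25927200)))))

theorem rb264_4 : run 4 lb264 [] tb264_4 kb264 (P4 4 2472 2352 6241 2352 1 0 0 0) [] = true := by
  decide +kernel

noncomputable def tb246_0_11 : Tr :=
(S (nat_lit 57066) (S (nat_lit 1732) (S (nat_lit 2006) (S (nat_lit 1776) (S (nat_lit 11010) (S (nat_lit 1003) (S (nat_lit 1277) (S (nat_lit 1975) (S (nat_lit 30831) (L (nat_lit 11694548))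
(L (nat_lit 4509553)))
(L (nat_lit 6114791)))
(L (nat_lit 11423264)))
(L (nat_lit 10997568)))
(S (nat_lit 30774) (S (nat_lit 54879) (S (nat_lit 1003) (S (nat_lit 1277) (S (nat_lit 50505) (S (nat_lit 1034) (L (nat_lit 14764903))
(L (nat_lit 13886583)))
(L (nat_lit 12880573)))
(L (nat_lit 26791200)))
(L (nat_lit 26725728)))
(L (nat_lit 12373472)))
(S (nat_lit 50538) (S (nat_lit 1246) (S (nat_lit 1229) (S (nat_lit 1003) (S (nat_lit 24099) (L (nat_lit 3662407))
(L (nat_lit 20210049)))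
(L (nat_lit 18885455)))
(S (nat_lit 5765) (S (nat_lit 1003) (S (nat_lit 24104) (L (nat_lit 214868))
(L (nat_lit 19404027)))
(L (nat_lit 19259567)))
(L (nat_lit 12693181))))
(S (nat_lit 16995) (S (nat_lit 40531) (L (nat_lit 19373116))
(L (nat_lit 27774144)))
(L (nat_lit 8539982))))
(L (nat_lit 25499217)))))
(S (nat_lit 21540) (S (nat_lit 17560) (S (nat_lit 1036) (S (nat_lit 8243) (L (nat_lit 20341986))
(S (nat_lit 20811) (S (nat_lit 54884) (L (nat_lit 21247747))
(L (nat_lit 27576335)))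
(L (nat_lit 22553788))))
(S (nat_lit 20800) (S (nat_lit 17970) (L (nat_lit 12754837))
(S (nat_lit 54862) (S (nat_lit 21041) (L (nat_lit 7883584))
(L (nat_lit 31142919)))
(L (nat_lit 11581081))))
(S (nat_lit 40564) (S (nat_lit 972) (S (nat_lit 35073) (L (nat_lit 23114599))
(L (nat_lit 12590842)))
(L (nat_lit 13389122)))
(L (nat_lit 25417125)))))
(S (nat_lit 37324) (S (nat_lit 15340) (S (nat_lit 20800) (S (nat_lit 40500) (S (nat_lit 50505) (L (nat_lit 5584541))
(L (nat_lit 22318493)))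
(L (nat_lit 8244612)))
(L (nat_lit 22274127)))
(S (nat_lit 35104) (S (nat_lit 997) (S (nat_lit 1277) (L (nat_lit 13707899))
(L (nat_lit 12609225)))
(L (nat_lit 20018414)))
(S (nat_lit 54868) (S (nat_lit 997) (L (nat_lit 12373475))
(L (nat_lit 13726964)))
(L (nat_lit 25901161)))))
(S (nat_lit 57088) (S (nat_lit 1975) (S (nat_lit 1701) (S (nat_lit 6226) (L (nat_lit 14583495))
(S (nat_lit 57038) (S (nat_lit 21750) (S (nat_lit 21722) (S (nat_lit 21512) (S (nat_lit 1944) (S (nat_lit 62) (S (nat_lit 1763) (S (nat_lit 15373) (S (nat_lit 15323) (S (nat_lit 8748) (L (nat_lit 30934731))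
(L (nat_lit 14935680)))
(L (nat_lit 6311759)))
(S (nat_lit 35137) (S (nat_lit 1277) (S (nat_lit 10935) (L (nat_lit 3395033))
(L (nat_lit 15984256)))
(L (nat_lit 12881814)))
(S (nat_lit 54901) (S (nat_lit 54851) (S (nat_lit 1034) (S (nat_lit 50505) (S (nat_lit 21733) (L (nat_lit 7452379))
(L (nat_lit 21897761)))
(L (nat_lit 12455601)))
(L (nat_lit 9326081)))
(L (nat_lit 27959844)))
(L (nat_lit 25765315)))))
(L (nat_lit 12487376)))
(S (nat_lit 953) (L (nat_lit 18539595))
(L (nat_lit 8276112))))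
(L (nat_lit 12326476)))
(L (nat_lit 21437315)))
(L (nat_lit 21291056)))
(L (nat_lit 21454857)))
(L (nat_lit 21017882))))
(S (nat_lit 3258) (L (nat_lit 12193644))
(L (nat_lit 12170329))))
(S (nat_lit 21739) (S (nat_lit 28559) (L (nat_lit 14962528))
(L (nat_lit 31012069)))
(S (nat_lit 41503) (S (nat_lit 9900) (L (nat_lit 3034600))
(S (nat_lit 28559) (S (nat_lit 1763) (L (nat_lit 26463279))
(L (nat_lit 20133761)))
(L (nat_lit 30494154))))
(L (nat_lit 25212245)))))
(L (nat_lit 25338358)))))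
(S (nat_lit 41304) (S (nat_lit 10966) (S (nat_lit 11104) (S (nat_lit 1047) (L (nat_lit 23326146))
(L (nat_lit 14360386)))
(S (nat_lit 50488) (S (nat_lit 17571) (S (nat_lit 37322) (S (nat_lit 57038) (S (nat_lit 17521) (S (nat_lit 39553) (S (nat_lit 57088) (S (nat_lit 41497) (S (nat_lit 15340) (S (nat_lit 1277) (S (nat_lit 1246) (S (nat_lit 21722) (S (nat_lit 41254) (S (nat_lit 35087) (S (nat_lit 17543) (S (nat_lit 40525) (S (nat_lit 10997) (S (nat_lit 30713) (S (nat_lit 20750) (S (nat_lit 48338) (S (nat_lit 15651) (S (nat_lit 51797) (S (nat_lit 13843) (S (nat_lit 13600) (S (nat_lit 55299) (S (nat_lit 32127) (D (nat_lit 11) (nat_lit 31009283) (nat_lit 17391723) (nat_lit 248103796896))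
(L (nat_lit 970121)))
(L (nat_lit 20278661)))
(L (nat_lit 31015109)))
(L (nat_lit 31015108)))
(L (nat_lit 28918116)))
(S (nat_lit 33591) (S (nat_lit 56171) (S (nat_lit 5095) (S (nat_lit 50853) (S (nat_lit 43044) (S (nat_lit 55442) (D (nat_lit 11) (nat_lit 31007173) (nat_lit 25610595) (nat_lit 280488905955))
(L (nat_lit 937415)))
(L (nat_lit 28967401)))
(L (nat_lit 28713541)))
(L (nat_lit 31142084)))
(L (nat_lit 29045092)))
(L (nat_lit 27505749))))
(L (nat_lit 12406959)))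
(L (nat_lit 6718105)))
(L (nat_lit 24985892)))
(L (nat_lit 26838474)))
(L (nat_lit 23332686)))
(L (nat_lit 275218)))
(L (nat_lit 3846457)))
(L (nat_lit 23141134)))
(L (nat_lit 15857288)))
(L (nat_lit 14295876)))
(L (nat_lit 4108598)))
(L (nat_lit 22911089)))
(L (nat_lit 6413071)))
(L (nat_lit 12734313)))
(L (nat_lit 5101935)))
(L (nat_lit 700763)))
(L (nat_lit 12635450)))
(L (nat_lit 20809070)))
(L (nat_lit 6910031)))
(L (nat_lit 12608104))))
(S (nat_lit 30730) (S (nat_lit 1969) (S (nat_lit 54884) (S (nat_lit 54868) (L (nat_lit 10570299))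
(L (nat_lit 14452328)))
(L (nat_lit 19150692)))
(S (nat_lit 21733) (S (nat_lit 31159) (L (nat_lit 286510))
(S (nat_lit 40514) (S (nat_lit 21021) (S (nat_lit 1246) (S (nat_lit 37322) (L (nat_lit 13534546))
(L (nat_lit 14222683)))
(L (nat_lit 10629786)))
(L (nat_lit 30448365)))
(L (nat_lit 3545752))))
(S (nat_lit 41497) (S (nat_lit 28559) (S (nat_lit 37322) (S (nat_lit 1944) (S (nat_lit 972) (S (nat_lit 1246) (S (nat_lit 1763) (S (nat_lit 28587) (S (nat_lit 8812) (S (nat_lit 20800) (S (nat_lit 39575) (S (nat_lit 30699) (S (nat_lit 1701) (S (nat_lit 54837) (S (nat_lit 35148) (S (nat_lit 10982) (S (nat_lit 1034) (S (nat_lit 4473) (S (nat_lit 9679) (S (nat_lit 16938) (S (nat_lit 16209) (S (nat_lit 37882) (S (nat_lit 40873) (S (nat_lit 20240) (D (nat_lit 11) (nat_lit 25800897) (nat_lit 19673443) (nat_lit 245020786752))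
(L (nat_lit 19773450)))
(L (nat_lit 28777091)))
(L (nat_lit 28908065)))
(L (nat_lit 30952705)))
(L (nat_lit 30952737)))
(S (nat_lit 21212) (S (nat_lit 15966) (S (nat_lit 15723) (S (nat_lit 21181) (S (nat_lit 38832) (S (nat_lit 39932) (D (nat_lit 11) (nat_lit 25767943) (nat_lit 19673195) (nat_lit 245020786752))
(L (nat_lit 28846166)))
(L (nat_lit 28935561)))
(L (nat_lit 19839079)))
(L (nat_lit 30952644)))
(L (nat_lit 30952645)))
(L (nat_lit 20809937))))
(L (nat_lit 28521025)))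
(L (nat_lit 13518953)))
(L (nat_lit 6402869)))
(L (nat_lit 10052718)))
(L (nat_lit 13829821)))
(L (nat_lit 13716792)))
(L (nat_lit 19732961)))
(L (nat_lit 24404016)))
(L (nat_lit 30944341)))
(L (nat_lit 17745960)))
(L (nat_lit 19311738)))
(L (nat_lit 19423489)))
(L (nat_lit 11350660)))
(L (nat_lit 13722186)))
(L (nat_lit 13951589)))
(L (nat_lit 14517620)))
(L (nat_lit 24229083)))
(L (nat_lit 25565205)))))
(S (nat_lit 50494) (S (nat_lit 20993) (S (nat_lit 972) (S (nat_lit 28559) (S (nat_lit 35104) (S (nat_lit 54879) (S (nat_lit 1763) (S (nat_lit 57088) (S (nat_lit 33000) (S (nat_lit 48276) (S (nat_lit 46037) (S (nat_lit 48338) (S (nat_lit 37260) (S (nat_lit 8812) (S (nat_lit 57038) (S (nat_lit 41519) (S (nat_lit 40547) (S (nat_lit 10999) (S (nat_lit 38832) (S (nat_lit 16928) (S (nat_lit 20104) (S (nat_lit 1677) (S (nat_lit 28940) (S (nat_lit 18386) (D (nat_lit 9) (nat_lit 30091749) (nat_lit 19672453) (nat_lit 6515887239))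
(L (nat_lit 27664005)))
(L (nat_lit 27481632)))
(L (nat_lit 31141961)))
(L (nat_lit 28725605)))
(L (nat_lit 28980421)))
(S (nat_lit 52821) (S (nat_lit 434) (S (nat_lit 677) (S (nat_lit 47418) (S (nat_lit 29912) (S (nat_lit 53095) (D (nat_lit 11) (nat_lit 30031915) (nat_lit 17582187) (nat_lit 142807761088))
(L (nat_lit 14967955)))
(L (nat_lit 14706246)))
(L (nat_lit 29077675)))
(L (nat_lit 31109346)))
(L (nat_lit 31109347)))
(L (nat_lit 14910327))))
(L (nat_lit 26853602)))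
(L (nat_lit 17698409)))
(L (nat_lit 2939302)))
(L (nat_lit 6137266)))
(L (nat_lit 7212748)))
(L (nat_lit 13885249)))
(L (nat_lit 13960979)))
(L (nat_lit 29643140)))
(L (nat_lit 20411398)))
(L (nat_lit 28574285)))
(L (nat_lit 13391912)))
(L (nat_lit 12870337)))
(L (nat_lit 16043776)))
(L (nat_lit 19995564)))
(L (nat_lit 18956106)))
(L (nat_lit 18964906)))
(L (nat_lit 14967456)))
(L (nat_lit 25448866)))))
(L (nat_lit 25450668)))))
(S (nat_lit 21770) (S (nat_lit 2019) (S (nat_lit 1257) (S (nat_lit 1975) (S (nat_lit 8779) (S (nat_lit 35120) (L (nat_lit 26293958))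
(L (nat_lit 12871396)))
(S (nat_lit 28543) (S (nat_lit 1246) (S (nat_lit 1776) (L (nat_lit 13914016))
(L (nat_lit 14583123)))
(L (nat_lit 10950517)))
(S (nat_lit 48307) (S (nat_lit 986) (S (nat_lit 1003) (S (nat_lit 1246) (S (nat_lit 39570) (L (nat_lit 26426485))
(L (nat_lit 12193613)))
(L (nat_lit 11376270)))
(L (nat_lit 11375247)))
(L (nat_lit 19268423)))
(L (nat_lit 25278770)))))
(S (nat_lit 21739) (S (nat_lit 10997) (S (nat_lit 1003) (L (nat_lit 4484597))
(L (nat_lit 11003061)))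
(S (nat_lit 30761) (S (nat_lit 1246) (S (nat_lit 28587) (L (nat_lit 13782887))
(L (nat_lit 18656833)))
(L (nat_lit 9278933)))
(S (nat_lit 50525) (S (nat_lit 1246) (S (nat_lit 57071) (L (nat_lit 15573669))
(L (nat_lit 27347182)))
(L (nat_lit 10544597)))
(L (nat_lit 25544292)))))
(S (nat_lit 41503) (S (nat_lit 14262) (L (nat_lit 13774773))
(S (nat_lit 28559) (S (nat_lit 40500) (S (nat_lit 30761) (S (nat_lit 35135) (L (nat_lit 20186895))
(L (nat_lit 13245593)))
(L (nat_lit 19340441)))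
(L (nat_lit 7419515)))
(L (nat_lit 3946122))))
(L (nat_lit 25634465)))))
(S (nat_lit 21021) (S (nat_lit 42) (S (nat_lit 21739) (S (nat_lit 57049) (S (nat_lit 20979) (S (nat_lit 57038) (L (nat_lit 5524888))
(L (nat_lit 15584549)))
(L (nat_lit 22295738)))
(L (nat_lit 21868713)))
(S (nat_lit 50316) (L (nat_lit 1261242))
(L (nat_lit 1718023))))
(S (nat_lit 19806) (S (nat_lit 1246) (S (nat_lit 986) (S (nat_lit 48307) (L (nat_lit 13722839))
(L (nat_lit 4963113)))
(S (nat_lit 21921) (L (nat_lit 19804166))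
(L (nat_lit 19672545))))
(S (nat_lit 57195) (L (nat_lit 19378017))
(L (nat_lit 8545781))))
(S (nat_lit 39570) (S (nat_lit 1277) (S (nat_lit 986) (S (nat_lit 20800) (S (nat_lit 1969) (S (nat_lit 1246) (L (nat_lit 13501030))
(L (nat_lit 10643119)))
(L (nat_lit 3973685)))
(L (nat_lit 22545222)))
(L (nat_lit 20747719)))
(S (nat_lit 50674) (L (nat_lit 21857584))
(L (nat_lit 8933248))))
(L (nat_lit 25863341)))))
(S (nat_lit 40785) (S (nat_lit 1986) (S (nat_lit 1765) (S (nat_lit 15334) (S (nat_lit 10960) (L (nat_lit 10236546))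
(L (nat_lit 1551995)))
(L (nat_lit 1748411)))
(S (nat_lit 21529) (S (nat_lit 40525) (S (nat_lit 50488) (L (nat_lit 12609845))
(L (nat_lit 4928328)))
(L (nat_lit 1956078)))
(S (nat_lit 41293) (S (nat_lit 28559) (S (nat_lit 20798) (S (nat_lit 19811) (L (nat_lit 26782308))
(L (nat_lit 22517578)))
(L (nat_lit 766265)))
(L (nat_lit 19194927)))
(L (nat_lit 25220398)))))
(S (nat_lit 21750) (S (nat_lit 1246) (S (nat_lit 1763) (S (nat_lit 57088) (S (nat_lit 1969) (S (nat_lit 37335) (L (nat_lit 11589177))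
(L (nat_lit 13996821)))
(L (nat_lit 13758676)))
(L (nat_lit 19296483)))
(S (nat_lit 29128) (L (nat_lit 20504835))
(L (nat_lit 26981416))))
(S (nat_lit 20926) (S (nat_lit 57088) (L (nat_lit 13267296))
(L (nat_lit 12215312)))
(L (nat_lit 5453652))))
(S (nat_lit 41514) (S (nat_lit 1034) (S (nat_lit 1240) (S (nat_lit 28526) (L (nat_lit 18023219))
(L (nat_lit 19074619)))
(L (nat_lit 19166223)))
(S (nat_lit 52372) (L (nat_lit 4548050))
(L (nat_lit 26758247))))
(L (nat_lit 25214665)))))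
(L (nat_lit 25868579)))))
(S (nat_lit 21783) (S (nat_lit 10949) (S (nat_lit 10935) (S (nat_lit 57071) (S (nat_lit 15371) (S (nat_lit 40514) (S (nat_lit 15373) (S (nat_lit 10960) (S (nat_lit 40500) (S (nat_lit 10977) (S (nat_lit 15309) (S (nat_lit 1743) (S (nat_lit 10982) (S (nat_lit 1277) (S (nat_lit 11010) (S (nat_lit 28587) (S (nat_lit 30450) (S (nat_lit 57848) (S (nat_lit 2835) (S (nat_lit 32118) (S (nat_lit 52125) (S (nat_lit 2910) (S (nat_lit 54943) (S (nat_lit 55996) (D (nat_lit 15) (nat_lit 4115791) (nat_lit 18630763) (nat_lit 34527745287))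
(L (nat_lit 20886753)))
(L (nat_lit 22503749)))
(L (nat_lit 30096519)))
(L (nat_lit 29804738)))
(L (nat_lit 27712704)))
(S (nat_lit 45505) (S (nat_lit 36514) (S (nat_lit 45441) (D (nat_lit 15) (nat_lit 8244270) (nat_lit 25759052) (nat_lit 107648910469))
(L (nat_lit 9533009)))
(L (nat_lit 27930914)))
(L (nat_lit 2563705))))
(L (nat_lit 4476716)))
(L (nat_lit 5453402)))
(L (nat_lit 24950048)))
(L (nat_lit 481095)))
(L (nat_lit 26981664)))
(L (nat_lit 26980549)))
(L (nat_lit 13445828)))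
(L (nat_lit 1761486)))
(L (nat_lit 1914228)))
(L (nat_lit 1701258)))
(L (nat_lit 1274477)))
(L (nat_lit 6907921)))
(L (nat_lit 1486490)))
(L (nat_lit 1499786)))
(L (nat_lit 14770858)))
(L (nat_lit 15754887)))
(S (nat_lit 30713) (S (nat_lit 34197) (L (nat_lit 19293322))
(S (nat_lit 57071) (S (nat_lit 30724) (S (nat_lit 25) (S (nat_lit 1748) (S (nat_lit 1743) (S (nat_lit 14) (S (nat_lit 30699) (S (nat_lit 47) (S (nat_lit 1262) (S (nat_lit 1246) (S (nat_lit 1279) (S (nat_lit 28576) (S (nat_lit 21755) (S (nat_lit 21750) (S (nat_lit 54912) (S (nat_lit 57086) (S (nat_lit 30730) (S (nat_lit 54868) (S (nat_lit 7614) (S (nat_lit 1715) (S (nat_lit 1215) (S (nat_lit 39997) (S (nat_lit 39964) (S (nat_lit 50586) (S (nat_lit 38712) (S (nat_lit 7223) (S (nat_lit 32545) (D (nat_lit 13) (nat_lit 10275235) (nat_lit 25760972) (nat_lit 3299814380680))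
(L (nat_lit 28781248)))
(L (nat_lit 31144192)))
(L (nat_lit 27930697)))
(L (nat_lit 21902692)))
(L (nat_lit 30029092)))
(S (nat_lit 55971) (S (nat_lit 48905) (S (nat_lit 35525) (S (nat_lit 20130) (S (nat_lit 13471) (S (nat_lit 29839) (D (nat_lit 13) (nat_lit 10244546) (nat_lit 25758957) (nat_lit 1102804327560))
(L (nat_lit 22588164)))
(L (nat_lit 27967813)))
(L (nat_lit 29007980)))
(L (nat_lit 22983786)))
(L (nat_lit 29008293)))
(L (nat_lit 4727669))))
(L (nat_lit 5890442)))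
(L (nat_lit 20343816)))
(L (nat_lit 27930882)))
(L (nat_lit 10612428)))
(L (nat_lit 8942146)))
(L (nat_lit 6110580)))
(L (nat_lit 27775264)))
(L (nat_lit 8148044)))
(L (nat_lit 8150402)))
(L (nat_lit 18458435)))
(S (nat_lit 31837) (L (nat_lit 21496153))
(L (nat_lit 9136545))))
(L (nat_lit 11002497)))
(S (nat_lit 16625) (L (nat_lit 15340893))
(L (nat_lit 13273865))))
(L (nat_lit 7461680)))
(L (nat_lit 30431783)))
(L (nat_lit 12624759)))
(L (nat_lit 12590809)))
(L (nat_lit 19929872)))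
(L (nat_lit 12645717)))
(S (nat_lit 54932) (L (nat_lit 7190144))
(L (nat_lit 30625155))))
(L (nat_lit 21258789))))
(S (nat_lit 50477) (S (nat_lit 50488) (S (nat_lit 57071) (S (nat_lit 50463) (S (nat_lit 1246) (S (nat_lit 447) (L (nat_lit 4049199))
(S (nat_lit 1743) (S (nat_lit 57055) (S (nat_lit 933) (L (nat_lit 30519947))
(S (nat_lit 1257) (S (nat_lit 42) (S (nat_lit 35087) (S (nat_lit 28574) (S (nat_lit 50527) (S (nat_lit 50525) (S (nat_lit 21739) (S (nat_lit 1765) (S (nat_lit 1279) (S (nat_lit 21733) (S (nat_lit 28559) (S (nat_lit 40525) (S (nat_lit 28554) (S (nat_lit 3240) (S (nat_lit 6480) (S (nat_lit 50505) (S (nat_lit 5184) (S (nat_lit 32118) (S (nat_lit 30336) (D (nat_lit 15) (nat_lit 14436519) (nat_lit 25761100) (nat_lit 103083413732))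
(L (nat_lit 22607106)))
(L (nat_lit 27860353)))
(S (nat_lit 29883) (S (nat_lit 31151) (S (nat_lit 29855) (D (nat_lit 15) (nat_lit 14437573) (nat_lit 19666314) (nat_lit 34363936932))
(L (nat_lit 22587264)))
(L (nat_lit 28028384)))
(L (nat_lit 28949546))))
(L (nat_lit 5849467)))
(L (nat_lit 31049061)))
(L (nat_lit 12373070)))
(L (nat_lit 8479406)))
(L (nat_lit 10061337)))
(L (nat_lit 8482509)))
(L (nat_lit 8192719)))
(L (nat_lit 26295572)))
(L (nat_lit 26491988)))
(L (nat_lit 1716999)))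
(L (nat_lit 15532371)))
(L (nat_lit 15540274)))
(L (nat_lit 4038319)))
(L (nat_lit 3624217)))
(L (nat_lit 1370828)))
(L (nat_lit 5756153))))
(L (nat_lit 27695222)))
(L (nat_lit 12031705))))
(L (nat_lit 11198913)))
(L (nat_lit 27283695)))
(L (nat_lit 15517925)))
(L (nat_lit 14702345)))
(L (nat_lit 25659669)))))
(S (nat_lit 41547) (S (nat_lit 17496) (S (nat_lit 10966) (S (nat_lit 8748) (S (nat_lit 19839) (S (nat_lit 39590) (L (nat_lit 8914804))
(L (nat_lit 11010778)))
(L (nat_lit 16475206)))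
(L (nat_lit 7365328)))
(S (nat_lit 30730) (S (nat_lit 15334) (S (nat_lit 8748) (S (nat_lit 20750) (L (nat_lit 800488))
(L (nat_lit 6897411)))
(L (nat_lit 8085952)))
(S (nat_lit 41457) (L (nat_lit 12865565))
(L (nat_lit 14709385))))
(S (nat_lit 50494) (S (nat_lit 28587) (S (nat_lit 8748) (S (nat_lit 40547) (L (nat_lit 13343589))
(L (nat_lit 1973841)))
(L (nat_lit 8085520)))
(L (nat_lit 19772672)))
(L (nat_lit 25921033)))))
(S (nat_lit 37260) (S (nat_lit 1958) (S (nat_lit 15309) (S (nat_lit 50527) (L (nat_lit 13277212))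
(L (nat_lit 20791522)))
(S (nat_lit 39703) (S (nat_lit 56225) (L (nat_lit 13333542))
(L (nat_lit 20817967)))
(L (nat_lit 14877369))))
(S (nat_lit 21722) (S (nat_lit 57088) (S (nat_lit 1701) (S (nat_lit 21739) (S (nat_lit 57038) (S (nat_lit 1246) (S (nat_lit 39603) (L (nat_lit 550260))
(L (nat_lit 5069286)))
(L (nat_lit 20295835)))
(L (nat_lit 20997422)))
(L (nat_lit 21491847)))
(S (nat_lit 41068) (L (nat_lit 19019691))
(L (nat_lit 19276953))))
(L (nat_lit 13438195)))
(S (nat_lit 41486) (S (nat_lit 997) (S (nat_lit 30761) (L (nat_lit 19952075))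
(L (nat_lit 9209516)))
(S (nat_lit 20761) (S (nat_lit 19806) (S (nat_lit 28587) (S (nat_lit 35115) (L (nat_lit 4639655))
(L (nat_lit 30968149)))
(L (nat_lit 30594438)))
(L (nat_lit 30889280)))
(S (nat_lit 40525) (S (nat_lit 48338) (S (nat_lit 15371) (L (nat_lit 17065141))
(L (nat_lit 7791796)))
(L (nat_lit 27434671)))
(L (nat_lit 25791727)))))
(L (nat_lit 25580866)))))
(S (nat_lit 57024) (S (nat_lit 1726) (S (nat_lit 30439) (S (nat_lit 21722) (S (nat_lit 1066) (L (nat_lit 21799024))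
(L (nat_lit 21043675)))
(L (nat_lit 21271035)))
(S (nat_lit 50505) (S (nat_lit 54879) (L (nat_lit 19186528))
(L (nat_lit 21803175)))
(L (nat_lit 15517863))))
(S (nat_lit 21490) (S (nat_lit 28512) (S (nat_lit 1246) (S (nat_lit 40531) (L (nat_lit 28525748))
(L (nat_lit 27472544)))
(L (nat_lit 11390094)))
(S (nat_lit 41143) (L (nat_lit 2961781))
(L (nat_lit 13310848))))
(S (nat_lit 41254) (S (nat_lit 10977) (S (nat_lit 15351) (L (nat_lit 21390688))
(L (nat_lit 17670325)))
(L (nat_lit 23961775)))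
(L (nat_lit 25248981)))))
(L (nat_lit 25861601)))))
(L (nat_lit 25386437)))))
(S (nat_lit 41534) (S (nat_lit 1215) (S (nat_lit 8823) (S (nat_lit 41503) (S (nat_lit 41472) (S (nat_lit 8773) (S (nat_lit 1701) (S (nat_lit 39423) (L (nat_lit 26299601))
(S (nat_lit 43806) (L (nat_lit 26293463))
(L (nat_lit 865926))))
(L (nat_lit 11613784)))
(L (nat_lit 21771618)))
(L (nat_lit 24491195)))
(L (nat_lit 24950084)))
(S (nat_lit 28587) (S (nat_lit 1763) (S (nat_lit 41472) (S (nat_lit 57038) (S (nat_lit 1246) (S (nat_lit 28559) (S (nat_lit 41503) (S (nat_lit 1701) (S (nat_lit 28537) (S (nat_lit 62) (S (nat_lit 57088) (S (nat_lit 1277) (S (nat_lit 21750) (S (nat_lit 21722) (S (nat_lit 38694) (L (nat_lit 9454168))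
(S (nat_lit 40525) (S (nat_lit 40575) (S (nat_lit 40547) (S (nat_lit 20767) (S (nat_lit 20798) (S (nat_lit 3749) (S (nat_lit 4040) (S (nat_lit 6317) (S (nat_lit 3777) (S (nat_lit 44144) (S (nat_lit 43305) (S (nat_lit 39570) (S (nat_lit 33524) (S (nat_lit 8018) (S (nat_lit 10559) (S (nat_lit 30699) (S (nat_lit 29695) (S (nat_lit 49886) (S (nat_lit 37460) (S (nat_lit 37105) (D (nat_lit 13) (nat_lit 13995795) (nat_lit 3646226) (nat_lit 7703260037349))
(L (nat_lit 26982593)))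
(L (nat_lit 16537825)))
(L (nat_lit 21775553)))
(L (nat_lit 21773505)))
(L (nat_lit 25836736)))
(S (nat_lit 41926) (S (nat_lit 50477) (S (nat_lit 2032) (S (nat_lit 47193) (D (nat_lit 11) (nat_lit 5795530) (nat_lit 2411280) (nat_lit 206227832931))
(L (nat_lit 21807397)))
(L (nat_lit 21771524)))
(L (nat_lit 25834756)))
(L (nat_lit 17849128))))
(L (nat_lit 29894242)))
(L (nat_lit 2482738)))
(L (nat_lit 27579937)))
(L (nat_lit 2759502)))
(L (nat_lit 21768579)))
(L (nat_lit 21533577)))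
(L (nat_lit 24579357)))
(L (nat_lit 21474179)))
(S (nat_lit 10982) (S (nat_lit 11010) (S (nat_lit 15373) (S (nat_lit 54884) (S (nat_lit 52268) (S (nat_lit 39570) (S (nat_lit 8748) (S (nat_lit 37285) (S (nat_lit 21026) (S (nat_lit 1014) (S (nat_lit 13031) (S (nat_lit 19335) (S (nat_lit 5964) (S (nat_lit 58174) (S (nat_lit 29136) (S (nat_lit 49962) (S (nat_lit 41926) (D (nat_lit 15) (nat_lit 9275983) (nat_lit 17582187) (nat_lit 137511342088))
(L (nat_lit 21376185)))
(L (nat_lit 30060715)))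
(L (nat_lit 22475011)))
(L (nat_lit 30127393)))
(L (nat_lit 27963649)))
(S (nat_lit 24714) (S (nat_lit 5679) (D (nat_lit 15) (nat_lit 18718739) (nat_lit 2711946) (nat_lit 240524465414))
(L (nat_lit 27547109)))
(L (nat_lit 927345))))
(L (nat_lit 10897437)))
(L (nat_lit 11359340)))
(L (nat_lit 22486201)))
(L (nat_lit 2964104)))
(L (nat_lit 15474369)))
(L (nat_lit 4911623)))
(L (nat_lit 28495272)))
(L (nat_lit 27890122)))
(L (nat_lit 1568425)))
(L (nat_lit 1701287)))
(S (nat_lit 26542) (S (nat_lit 48318) (S (nat_lit 5800) (S (nat_lit 5331) (S (nat_lit 8810) (S (nat_lit 2827) (S (nat_lit 17558) (S (nat_lit 44568) (S (nat_lit 34465) (S (nat_lit 42046) (S (nat_lit 18878) (S (nat_lit 30699) (S (nat_lit 28712) (S (nat_lit 38443) (S (nat_lit 58634) (S (nat_lit 37105) (D (nat_lit 13) (nat_lit 12947219) (nat_lit 3713810) (nat_lit 2204493684965))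
(L (nat_lit 26982593)))
(L (nat_lit 16537793)))
(L (nat_lit 16535745)))
(L (nat_lit 21775585)))
(L (nat_lit 25836736)))
(S (nat_lit 35148) (S (nat_lit 15065) (S (nat_lit 44233) (D (nat_lit 11) (nat_lit 25919825) (nat_lit 18984717) (nat_lit 214817800352))
(L (nat_lit 28428744)))
(L (nat_lit 31081731)))
(L (nat_lit 12916348))))
(L (nat_lit 15570261)))
(L (nat_lit 21230670)))
(L (nat_lit 22917440)))
(L (nat_lit 18179218)))
(L (nat_lit 21049132)))
(L (nat_lit 971243)))
(L (nat_lit 31178944)))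
(L (nat_lit 25011344)))
(L (nat_lit 27870560)))
(L (nat_lit 21500157)))))
(L (nat_lit 21793073)))
(L (nat_lit 21760491)))
(L (nat_lit 10109082)))
(L (nat_lit 10175362)))
(L (nat_lit 24512267))))
(L (nat_lit 21099856)))
(L (nat_lit 21034539)))
(L (nat_lit 8402685)))
(L (nat_lit 21149545)))
(L (nat_lit 26948965)))
(L (nat_lit 2969001)))
(L (nat_lit 26588242)))
(L (nat_lit 669479)))
(L (nat_lit 10243524)))
(L (nat_lit 20296859)))
(L (nat_lit 27774058)))
(L (nat_lit 6895459)))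
(S (nat_lit 21527) (S (nat_lit 41503) (L (nat_lit 7354040))
(L (nat_lit 27774087)))
(S (nat_lit 41291) (S (nat_lit 57088) (L (nat_lit 5164304))
(L (nat_lit 21771304)))
(L (nat_lit 25931816)))))
(S (nat_lit 48351) (S (nat_lit 57088) (S (nat_lit 57038) (S (nat_lit 48323) (S (nat_lit 48301) (S (nat_lit 2161) (L (nat_lit 4476441))
(S (nat_lit 6544) (L (nat_lit 4470489))
(L (nat_lit 23082762))))
(L (nat_lit 22066952)))
(L (nat_lit 11088954)))
(L (nat_lit 20985146)))
(L (nat_lit 21771304)))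
(L (nat_lit 25318670)))))
(S (nat_lit 20979) (S (nat_lit 1246) (S (nat_lit 15373) (S (nat_lit 37324) (L (nat_lit 18730024))
(L (nat_lit 14535688)))
(S (nat_lit 35137) (S (nat_lit 17510) (L (nat_lit 5131720))
(L (nat_lit 26234126)))
(S (nat_lit 54901) (S (nat_lit 39590) (S (nat_lit 11010) (L (nat_lit 8539705))
(L (nat_lit 16076608)))
(L (nat_lit 5000529)))
(L (nat_lit 25516076)))))
(S (nat_lit 21010) (S (nat_lit 17558) (S (nat_lit 41472) (S (nat_lit 57038) (S (nat_lit 19811) (S (nat_lit 62) (S (nat_lit 41243) (S (nat_lit 41503) (S (nat_lit 21512) (S (nat_lit 41293) (S (nat_lit 37285) (S (nat_lit 37307) (S (nat_lit 10949) (L (nat_lit 212573))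
(S (nat_lit 36505) (S (nat_lit 29831) (S (nat_lit 40531) (L (nat_lit 5485149))
(L (nat_lit 27930821)))
(L (nat_lit 26760384)))
(L (nat_lit 221004))))
(L (nat_lit 20458308)))
(L (nat_lit 4018633)))
(L (nat_lit 17571397)))
(L (nat_lit 11177403)))
(L (nat_lit 27506337)))
(L (nat_lit 27860417)))
(L (nat_lit 19838123)))
(L (nat_lit 22144395)))
(L (nat_lit 5164459)))
(S (nat_lit 42669) (L (nat_lit 550505))
(L (nat_lit 6402653))))
(S (nat_lit 37322) (S (nat_lit 13059) (L (nat_lit 2665080))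
(S (nat_lit 20767) (S (nat_lit 54884) (L (nat_lit 4039124))
(L (nat_lit 27994564)))
(L (nat_lit 6803205))))
(S (nat_lit 57086) (S (nat_lit 10977) (S (nat_lit 50510) (L (nat_lit 1434068))
(L (nat_lit 4469400)))
(S (nat_lit 58472) (L (nat_lit 8405844))
(L (nat_lit 8205460))))
(L (nat_lit 25517508)))))
(S (nat_lit 40774) (S (nat_lit 40562) (S (nat_lit 48301) (S (nat_lit 39590) (S (nat_lit 21739) (L (nat_lit 29537620))
(L (nat_lit 1854951)))
(L (nat_lit 4961626)))
(L (nat_lit 5492497)))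
(L (nat_lit 24229703)))
(L (nat_lit 25530031)))))
(S (nat_lit 40743) (S (nat_lit 10997) (S (nat_lit 8823) (S (nat_lit 1701) (L (nat_lit 10373504))
(L (nat_lit 12882520)))
(S (nat_lit 28587) (S (nat_lit 2082) (S (nat_lit 19826) (L (nat_lit 904528))
(L (nat_lit 15584394)))
(S (nat_lit 54884) (S (nat_lit 21465) (L (nat_lit 23388303))
(L (nat_lit 937387)))
(L (nat_lit 4470456))))
(S (nat_lit 48351) (S (nat_lit 21739) (L (nat_lit 28456554))
(L (nat_lit 1560327)))
(L (nat_lit 25530774)))))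
(S (nat_lit 30761) (S (nat_lit 28587) (S (nat_lit 600) (L (nat_lit 18538757))
(S (nat_lit 19826) (S (nat_lit 37324) (L (nat_lit 9220768))
(L (nat_lit 17681416)))
(L (nat_lit 15584613))))
(L (nat_lit 4052358)))
(S (nat_lit 50525) (S (nat_lit 11010) (S (nat_lit 21465) (S (nat_lit 8773) (L (nat_lit 28691970))
(L (nat_lit 478587)))
(L (nat_lit 5558093)))
(S (nat_lit 30774) (S (nat_lit 35137) (S (nat_lit 8773) (S (nat_lit 54879) (L (nat_lit 8501111))
(L (nat_lit 13946688)))
(L (nat_lit 26758312)))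
(L (nat_lit 9588556)))
(S (nat_lit 50538) (S (nat_lit 20767) (S (nat_lit 28587) (L (nat_lit 12767083))
(L (nat_lit 18206464)))
(L (nat_lit 16109312)))
(L (nat_lit 25308753)))))
(L (nat_lit 25345707)))))
(L (nat_lit 25512044)))))
(L (nat_lit 25250342)))))
(S (nat_lit 21496) (S (nat_lit 15373) (S (nat_lit 62) (S (nat_lit 1991) (S (nat_lit 1969) (S (nat_lit 15351) (S (nat_lit 57038) (S (nat_lit 2019) (S (nat_lit 21527) (S (nat_lit 15323) (S (nat_lit 21722) (S (nat_lit 397) (L (nat_lit 29677647))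
(S (nat_lit 11010) (S (nat_lit 50525) (S (nat_lit 40525) (S (nat_lit 19789) (S (nat_lit 19811) (S (nat_lit 54912) (S (nat_lit 35135) (S (nat_lit 48290) (S (nat_lit 35073) (S (nat_lit 17558) (S (nat_lit 8779) (S (nat_lit 21043) (S (nat_lit 37285) (S (nat_lit 39542) (S (nat_lit 1743) (S (nat_lit 35511) (S (nat_lit 40743) (S (nat_lit 5467) (S (nat_lit 18578) (S (nat_lit 58953) (S (nat_lit 45514) (S (nat_lit 28602) (D (nat_lit 13) (nat_lit 26877317) (nat_lit 19672239) (nat_lit 145123180738))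
(L (nat_lit 20852961)))
(L (nat_lit 2973162)))
(L (nat_lit 29761123)))
(L (nat_lit 27712769)))
(S (nat_lit 42882) (S (nat_lit 49095) (S (nat_lit 3613) (S (nat_lit 30455) (S (nat_lit 56961) (D (nat_lit 13) (nat_lit 30065835) (nat_lit 19670129) (nat_lit 2477359532160))
(L (nat_lit 24033472)))
(L (nat_lit 21869640)))
(L (nat_lit 30023044)))
(L (nat_lit 21459204)))
(L (nat_lit 21195792))))
(L (nat_lit 619912)))
(L (nat_lit 22813155)))
(L (nat_lit 13298882)))
(L (nat_lit 11111898)))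
(L (nat_lit 31107522)))
(L (nat_lit 12079940)))
(L (nat_lit 15554664)))
(L (nat_lit 22955332)))
(L (nat_lit 2956016)))
(L (nat_lit 22914437)))
(L (nat_lit 13491557)))
(L (nat_lit 4811056)))
(L (nat_lit 30709328)))
(L (nat_lit 31036782)))
(L (nat_lit 27613701)))
(L (nat_lit 5961098)))
(L (nat_lit 356788))))
(L (nat_lit 11100608)))
(L (nat_lit 26970506)))
(L (nat_lit 14968887)))
(L (nat_lit 13306104)))
(L (nat_lit 15377189)))
(L (nat_lit 7155861)))
(L (nat_lit 13376228)))
(S (nat_lit 21755) (S (nat_lit 15323) (S (nat_lit 20817) (L (nat_lit 4993610))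
(S (nat_lit 21465) (S (nat_lit 57088) (S (nat_lit 57038) (S (nat_lit 15351) (S (nat_lit 21722) (S (nat_lit 21750) (S (nat_lit 21527) (S (nat_lit 21783) (S (nat_lit 10977) (S (nat_lit 21507) (S (nat_lit 40790) (S (nat_lit 21479) (S (nat_lit 57024) (S (nat_lit 57055) (S (nat_lit 19066) (S (nat_lit 57099) (S (nat_lit 9670) (S (nat_lit 28587) (S (nat_lit 40774) (S (nat_lit 15356) (S (nat_lit 15384) (S (nat_lit 40500) (S (nat_lit 28554) (S (nat_lit 51092) (S (nat_lit 23116) (S (nat_lit 11161) (S (nat_lit 55753) (S (nat_lit 36902) (D (nat_lit 13) (nat_lit 7260271) (nat_lit 25765347) (nat_lit 38725130344))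
(L (nat_lit 21373763)))
(L (nat_lit 29708709)))
(L (nat_lit 29762242)))
(L (nat_lit 27926916)))
(S (nat_lit 51659) (S (nat_lit 27523) (S (nat_lit 32786) (S (nat_lit 33009) (S (nat_lit 45684) (D (nat_lit 13) (nat_lit 3986737) (nat_lit 9194021) (nat_lit 9043193202693))
(L (nat_lit 28626403)))
(L (nat_lit 19341468)))
(L (nat_lit 20410626)))
(L (nat_lit 27900228)))
(L (nat_lit 1452664))))
(L (nat_lit 18587836)))
(L (nat_lit 25015618)))
(L (nat_lit 22983937)))
(L (nat_lit 22918340)))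
(L (nat_lit 17985190)))
(L (nat_lit 18009862)))
(L (nat_lit 22905387)))
(L (nat_lit 5726823)))
(L (nat_lit 29032871)))
(L (nat_lit 4478864)))
(L (nat_lit 4773798)))
(L (nat_lit 30547446)))
(L (nat_lit 18489186)))
(L (nat_lit 30908100)))
(S (nat_lit 25034) (S (nat_lit 12516) (L (nat_lit 19996219))
(L (nat_lit 7891616)))
(S (nat_lit 56773) (L (nat_lit 10670621))
(L (nat_lit 18680182)))))
(L (nat_lit 30988515)))
(L (nat_lit 15928182)))
(L (nat_lit 10642125)))
(L (nat_lit 22405265)))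
(L (nat_lit 26496142)))
(L (nat_lit 10538798)))
(L (nat_lit 4541945)))
(L (nat_lit 8211597))))
(S (nat_lit 15890) (S (nat_lit 16862) (L (nat_lit 26525812))
(L (nat_lit 8106820)))
(L (nat_lit 1887627))))
(S (nat_lit 41519) (S (nat_lit 21465) (S (nat_lit 21527) (S (nat_lit 15351) (S (nat_lit 20800) (S (nat_lit 57088) (S (nat_lit 57038) (S (nat_lit 20750) (S (nat_lit 21750) (S (nat_lit 19778) (S (nat_lit 19828) (S (nat_lit 21004) (S (nat_lit 50477) (S (nat_lit 8762) (S (nat_lit 11010) (S (nat_lit 54899) (S (nat_lit 35120) (S (nat_lit 25483) (S (nat_lit 40743) (S (nat_lit 37291) (S (nat_lit 1229) (S (nat_lit 30761) (S (nat_lit 39575) (S (nat_lit 40575) (S (nat_lit 2063) (S (nat_lit 18604) (S (nat_lit 36035) (S (nat_lit 11794) (S (nat_lit 43513) (D (nat_lit 13) (nat_lit 30058575) (nat_lit 12771634) (nat_lit 173986155719))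
(L (nat_lit 14976852)))
(L (nat_lit 27867330)))
(L (nat_lit 15584359)))
(L (nat_lit 28910117)))
(S (nat_lit 18081) (S (nat_lit 16969) (S (nat_lit 42315) (S (nat_lit 17444) (S (nat_lit 57414) (S (nat_lit 40113) (D (nat_lit 13) (nat_lit 30999889) (nat_lit 25348518) (nat_lit 3408292520100))
(L (nat_lit 19294465)))
(L (nat_lit 28914822)))
(L (nat_lit 31040960)))
(L (nat_lit 28723424)))
(L (nat_lit 31043810)))
(L (nat_lit 28813495))))
(L (nat_lit 18548616)))
(L (nat_lit 6072945)))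
(L (nat_lit 19252409)))
(L (nat_lit 26398928)))
(L (nat_lit 9339414)))
(L (nat_lit 24031493)))
(L (nat_lit 13535444)))
(L (nat_lit 10244109)))
(L (nat_lit 5764682)))
(L (nat_lit 1453656)))
(L (nat_lit 8171635)))
(L (nat_lit 12269444)))
(L (nat_lit 30693889)))
(L (nat_lit 30549428)))
(L (nat_lit 30451376)))
(L (nat_lit 11199011)))
(L (nat_lit 15276801)))
(L (nat_lit 11455909)))
(L (nat_lit 19205037)))
(L (nat_lit 30448206)))
(L (nat_lit 26780853)))
(L (nat_lit 8238785)))
(L (nat_lit 7752580)))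
(L (nat_lit 25511522)))))
(S (nat_lit 19826) (S (nat_lit 1715) (S (nat_lit 8790) (S (nat_lit 19298) (L (nat_lit 7837586))
(S (nat_lit 40774) (S (nat_lit 21783) (S (nat_lit 19839) (L (nat_lit 22113671))
(L (nat_lit 16117377)))
(L (nat_lit 14944922)))
(L (nat_lit 373556))))
(S (nat_lit 28554) (S (nat_lit 10960) (S (nat_lit 57099) (L (nat_lit 15303495))
(L (nat_lit 15536839)))
(L (nat_lit 8146371)))
(S (nat_lit 48318) (S (nat_lit 986) (S (nat_lit 30741) (S (nat_lit 2019) (L (nat_lit 544124))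
(L (nat_lit 19833283)))
(L (nat_lit 14427809)))
(S (nat_lit 51567) (L (nat_lit 11325824))
(L (nat_lit 10912445))))
(L (nat_lit 25921902)))))
(S (nat_lit 21479) (S (nat_lit 1763) (S (nat_lit 21755) (S (nat_lit 19806) (S (nat_lit 21026) (L (nat_lit 30656897))
(L (nat_lit 15951456)))
(L (nat_lit 21460134)))
(S (nat_lit 55171) (L (nat_lit 22545624))
(L (nat_lit 15653032))))
(S (nat_lit 21527) (S (nat_lit 8795) (S (nat_lit 8773) (L (nat_lit 15823529))
(L (nat_lit 7884707)))
(S (nat_lit 28697) (L (nat_lit 10368707))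
(L (nat_lit 7425807))))
(S (nat_lit 41291) (S (nat_lit 2162) (L (nat_lit 3428270))
(S (nat_lit 41534) (S (nat_lit 21739) (L (nat_lit 16515752))
(L (nat_lit 7851160)))
(L (nat_lit 276247))))
(L (nat_lit 25283110)))))
(S (nat_lit 41243) (S (nat_lit 1279) (S (nat_lit 20811) (S (nat_lit 50538) (S (nat_lit 40531) (L (nat_lit 28495151))
(L (nat_lit 27773958)))
(L (nat_lit 15551591)))
(S (nat_lit 39304) (L (nat_lit 15270267))
(L (nat_lit 21554346))))
(S (nat_lit 21043) (S (nat_lit 17521) (S (nat_lit 19789) (S (nat_lit 20767) (L (nat_lit 7794869))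
(L (nat_lit 16687285)))
(L (nat_lit 15985845)))
(L (nat_lit 8145346)))
(S (nat_lit 40807) (S (nat_lit 54837) (S (nat_lit 21054) (S (nat_lit 21004) (L (nat_lit 15003764))
(L (nat_lit 14969877)))
(L (nat_lit 22027738)))
(L (nat_lit 28018119)))
(L (nat_lit 25177678)))))
(L (nat_lit 25613539)))))
(S (nat_lit 39590) (S (nat_lit 1969) (S (nat_lit 997) (S (nat_lit 25) (S (nat_lit 20778) (S (nat_lit 39592) (L (nat_lit 13305610))
(L (nat_lit 17985748)))
(S (nat_lit 57371) (L (nat_lit 704794))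
(L (nat_lit 6470362))))
(S (nat_lit 51633) (L (nat_lit 13403818))
(L (nat_lit 6746292))))
(S (nat_lit 20761) (S (nat_lit 54899) (S (nat_lit 20736) (L (nat_lit 30672372))
(L (nat_lit 14831498)))
(L (nat_lit 21359759)))
(S (nat_lit 40525) (S (nat_lit 13457) (L (nat_lit 8183201))
(S (nat_lit 19789) (S (nat_lit 1765) (S (nat_lit 41254) (S (nat_lit 21722) (S (nat_lit 19839) (L (nat_lit 29789766))
(L (nat_lit 15036032)))
(L (nat_lit 7787673)))
(L (nat_lit 27575413)))
(L (nat_lit 12709237)))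
(L (nat_lit 9885853))))
(L (nat_lit 25593547)))))
(S (nat_lit 21733) (S (nat_lit 15384) (S (nat_lit 6534) (L (nat_lit 16862982))
(S (nat_lit 15351) (S (nat_lit 21755) (S (nat_lit 10949) (S (nat_lit 21490) (L (nat_lit 29794913))
(L (nat_lit 22447911)))
(L (nat_lit 8162894)))
(L (nat_lit 7854912)))
(L (nat_lit 6704312))))
(S (nat_lit 35148) (S (nat_lit 50477) (S (nat_lit 50505) (S (nat_lit 21490) (L (nat_lit 28401007))
(L (nat_lit 10569524)))
(L (nat_lit 15503015)))
(L (nat_lit 15573077)))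
(S (nat_lit 54912) (S (nat_lit 18431) (L (nat_lit 15280189))
(S (nat_lit 57086) (S (nat_lit 15334) (L (nat_lit 6471511))
(L (nat_lit 7386779)))
(L (nat_lit 15068805))))
(L (nat_lit 25836615)))))
(S (nat_lit 41497) (S (nat_lit 1958) (S (nat_lit 1215) (S (nat_lit 1047) (S (nat_lit 28559) (L (nat_lit 7794305))
(L (nat_lit 12709075)))
(L (nat_lit 26942948)))
(S (nat_lit 8191) (L (nat_lit 10883858))
(L (nat_lit 8818450))))
(S (nat_lit 21722) (S (nat_lit 34761) (L (nat_lit 3581717))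
(S (nat_lit 40525) (S (nat_lit 20767) (S (nat_lit 21010) (L (nat_lit 22409392))
(L (nat_lit 30461387)))
(L (nat_lit 15060741)))
(L (nat_lit 24518405))))
(S (nat_lit 41486) (S (nat_lit 17560) (S (nat_lit 28574) (S (nat_lit 41291) (L (nat_lit 16554692))
(L (nat_lit 7058241)))
(L (nat_lit 24298282)))
(S (nat_lit 18208) (L (nat_lit 11389105))
(L (nat_lit 669481))))
(L (nat_lit 25285094)))))
(L (nat_lit 25797124)))))
(L (nat_lit 25539734)))))
(S (nat_lit 35137) (S (nat_lit 1034) (S (nat_lit 2006) (S (nat_lit 18913) (L (nat_lit 28363985))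
(S (nat_lit 21527) (S (nat_lit 21465) (S (nat_lit 50538) (S (nat_lit 50488) (S (nat_lit 57088) (S (nat_lit 1975) (S (nat_lit 1003) (S (nat_lit 57038) (S (nat_lit 21722) (S (nat_lit 1229) (S (nat_lit 39553) (S (nat_lit 54862) (S (nat_lit 1748) (S (nat_lit 49367) (S (nat_lit 40774) (S (nat_lit 17521) (S (nat_lit 58651) (S (nat_lit 15371) (S (nat_lit 15309) (S (nat_lit 29863) (S (nat_lit 24357) (S (nat_lit 35916) (S (nat_lit 42315) (S (nat_lit 12098) (D (nat_lit 15) (nat_lit 958124) (nat_lit 4442892) (nat_lit 209550705732))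
(L (nat_lit 31016193)))
(L (nat_lit 15617160)))
(L (nat_lit 21539004)))
(S (nat_lit 32602) (S (nat_lit 51897) (S (nat_lit 24009) (D (nat_lit 15) (nat_lit 26909153) (nat_lit 25761101) (nat_lit 8727300167))
(L (nat_lit 28970475)))
(L (nat_lit 13858368)))
(L (nat_lit 30121476))))
(L (nat_lit 7795393)))
(L (nat_lit 24157721)))
(L (nat_lit 25042340)))
(L (nat_lit 26905034)))
(L (nat_lit 26972496)))
(L (nat_lit 17600171)))
(L (nat_lit 21900736)))
(L (nat_lit 19734608)))
(L (nat_lit 12423667)))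
(L (nat_lit 12161871)))
(L (nat_lit 13232167)))
(L (nat_lit 7967227)))
(L (nat_lit 15584517)))
(L (nat_lit 19738790)))
(L (nat_lit 19738945)))
(L (nat_lit 12340240)))
(L (nat_lit 27774306)))
(L (nat_lit 27610624)))
(L (nat_lit 14995330)))
(L (nat_lit 31143105))))
(S (nat_lit 21770) (S (nat_lit 1215) (S (nat_lit 50488) (S (nat_lit 21739) (L (nat_lit 806344))
(L (nat_lit 7491037)))
(L (nat_lit 15584611)))
(L (nat_lit 12930169)))
(S (nat_lit 41534) (S (nat_lit 30774) (S (nat_lit 20767) (L (nat_lit 30854336))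
(L (nat_lit 380413)))
(L (nat_lit 9227345)))
(L (nat_lit 25900224)))))
(S (nat_lit 20798) (S (nat_lit 50488) (S (nat_lit 1715) (S (nat_lit 10977) (S (nat_lit 8748) (S (nat_lit 48340) (S (nat_lit 1290) (S (nat_lit 40525) (S (nat_lit 19811) (S (nat_lit 17558) (S (nat_lit 40774) (S (nat_lit 11621) (S (nat_lit 1991) (S (nat_lit 1014) (S (nat_lit 15384) (S (nat_lit 15684) (S (nat_lit 35087) (S (nat_lit 54899) (S (nat_lit 31159) (S (nat_lit 37335) (S (nat_lit 25288) (S (nat_lit 54240) (S (nat_lit 29086) (S (nat_lit 57905) (S (nat_lit 18928) (D (nat_lit 13) (nat_lit 27930113) (nat_lit 17156216) (nat_lit 241662433381))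
(L (nat_lit 30030955)))
(L (nat_lit 22878318)))
(L (nat_lit 22878628)))
(L (nat_lit 22955268)))
(S (nat_lit 37234) (S (nat_lit 24075) (S (nat_lit 17674) (S (nat_lit 50205) (S (nat_lit 10587) (S (nat_lit 43327) (D (nat_lit 13) (nat_lit 25856365) (nat_lit 7096495) (nat_lit 7765573501956))
(L (nat_lit 2972106)))
(L (nat_lit 27711499)))
(L (nat_lit 29794019)))
(L (nat_lit 29612483)))
(L (nat_lit 27482593)))
(L (nat_lit 29956109))))
(L (nat_lit 8873569)))
(L (nat_lit 18455736)))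
(L (nat_lit 6116719)))
(L (nat_lit 19968939)))
(L (nat_lit 13436550)))
(L (nat_lit 1503942)))
(L (nat_lit 14516467)))
(L (nat_lit 14524992)))
(L (nat_lit 22296320)))
(L (nat_lit 8178830)))
(L (nat_lit 6709428)))
(L (nat_lit 14947159)))
(L (nat_lit 27352367)))
(L (nat_lit 6006232)))
(L (nat_lit 27593175)))
(L (nat_lit 14902292)))
(S (nat_lit 21604) (L (nat_lit 8244396))
(L (nat_lit 18729127))))
(S (nat_lit 21479) (S (nat_lit 50510) (S (nat_lit 20993) (S (nat_lit 50505) (S (nat_lit 20736) (L (nat_lit 1647005))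
(L (nat_lit 21064072)))
(L (nat_lit 6080967)))
(L (nat_lit 22949344)))
(L (nat_lit 22851813)))
(S (nat_lit 41243) (S (nat_lit 40774) (S (nat_lit 28559) (S (nat_lit 41503) (L (nat_lit 25015430))
(L (nat_lit 937450)))
(L (nat_lit 30723525)))
(L (nat_lit 8162805)))
(L (nat_lit 25304752)))))
(L (nat_lit 14733128)))
(S (nat_lit 40562) (S (nat_lit 21739) (S (nat_lit 50488) (S (nat_lit 28587) (S (nat_lit 50510) (S (nat_lit 28559) (S (nat_lit 21708) (S (nat_lit 40805) (S (nat_lit 21465) (S (nat_lit 57038) (S (nat_lit 28537) (S (nat_lit 40807) (S (nat_lit 57071) (S (nat_lit 21722) (S (nat_lit 28512) (S (nat_lit 57099) (S (nat_lit 40757) (S (nat_lit 35098) (S (nat_lit 40790) (S (nat_lit 42) (S (nat_lit 50527) (S (nat_lit 1391) (S (nat_lit 37123) (S (nat_lit 23099) (S (nat_lit 24233) (S (nat_lit 30294) (D (nat_lit 13) (nat_lit 17649702) (nat_lit 25765413) (nat_lit 108588534917))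
(L (nat_lit 28791074)))
(L (nat_lit 28332554)))
(L (nat_lit 14972544)))
(L (nat_lit 28625380)))
(S (nat_lit 3849) (S (nat_lit 51661) (S (nat_lit 41696) (S (nat_lit 45503) (S (nat_lit 57990) (D (nat_lit 13) (nat_lit 15550472) (nat_lit 25767395) (nat_lit 214986594536))
(L (nat_lit 29962410)))
(L (nat_lit 30821635)))
(L (nat_lit 29805892)))
(L (nat_lit 29996292)))
(L (nat_lit 30758032))))
(L (nat_lit 13443714)))
(L (nat_lit 696856)))
(L (nat_lit 704792)))
(L (nat_lit 23117149)))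
(L (nat_lit 7771031)))
(L (nat_lit 27929088)))
(L (nat_lit 31144161)))
(L (nat_lit 15271163)))
(L (nat_lit 11211694)))
(L (nat_lit 8065966)))
(L (nat_lit 8867619)))
(L (nat_lit 4443950)))
(L (nat_lit 7752858)))
(L (nat_lit 27512320)))
(L (nat_lit 16600171)))
(L (nat_lit 30723525)))
(L (nat_lit 14961720)))
(L (nat_lit 30592390)))
(L (nat_lit 13552776)))
(L (nat_lit 7491069)))
(L (nat_lit 25900259)))))
(S (nat_lit 54901) (S (nat_lit 17560) (S (nat_lit 1743) (S (nat_lit 15351) (S (nat_lit 28587) (S (nat_lit 8773) (S (nat_lit 11010) (L (nat_lit 13782790))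
(L (nat_lit 479046)))
(L (nat_lit 8146338)))
(L (nat_lit 19772672)))
(S (nat_lit 35115) (L (nat_lit 5492155))
(S (nat_lit 54879) (S (nat_lit 30746) (S (nat_lit 20662) (L (nat_lit 16928554))
(L (nat_lit 10931261)))
(S (nat_lit 40824) (L (nat_lit 14863579))
(L (nat_lit 13945883))))
(L (nat_lit 25240142)))))
(S (nat_lit 21507) (S (nat_lit 1763) (S (nat_lit 19826) (S (nat_lit 1215) (L (nat_lit 1527033))
(L (nat_lit 10931973)))
(L (nat_lit 14863146)))
(S (nat_lit 21527) (S (nat_lit 20767) (L (nat_lit 15485961))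
(L (nat_lit 5943512)))
(S (nat_lit 41291) (S (nat_lit 20811) (S (nat_lit 19826) (L (nat_lit 16697448))
(L (nat_lit 15584427)))
(S (nat_lit 24075) (L (nat_lit 8008544))
(L (nat_lit 15787219))))
(L (nat_lit 25891366)))))
(S (nat_lit 41271) (S (nat_lit 1257) (S (nat_lit 50538) (S (nat_lit 17543) (L (nat_lit 1389305))
(L (nat_lit 870954)))
(L (nat_lit 15551591)))
(S (nat_lit 21021) (S (nat_lit 21722) (S (nat_lit 21054) (L (nat_lit 22126350))
(L (nat_lit 21284611)))
(L (nat_lit 16343264)))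
(S (nat_lit 40785) (S (nat_lit 11010) (S (nat_lit 15340) (S (nat_lit 20993) (L (nat_lit 9057027))
(L (nat_lit 16343079)))
(L (nat_lit 7759554)))
(L (nat_lit 1527623)))
(L (nat_lit 25832965)))))
(L (nat_lit 25664626)))))
(S (nat_lit 37324) (S (nat_lit 1991) (S (nat_lit 17521) (S (nat_lit 8812) (S (nat_lit 48301) (S (nat_lit 40774) (L (nat_lit 29855462))
(L (nat_lit 831860)))
(L (nat_lit 22918498)))
(L (nat_lit 26358007)))
(S (nat_lit 37285) (S (nat_lit 21527) (S (nat_lit 48340) (L (nat_lit 5003501))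
(L (nat_lit 5695176)))
(S (nat_lit 30591) (L (nat_lit 13654953))
(L (nat_lit 16622710))))
(S (nat_lit 57049) (S (nat_lit 39590) (S (nat_lit 1748) (L (nat_lit 6135219))
(L (nat_lit 19132803)))
(L (nat_lit 5774166)))
(L (nat_lit 25678147)))))
(S (nat_lit 21755) (S (nat_lit 15309) (S (nat_lit 10935) (S (nat_lit 1047) (L (nat_lit 30657921))
(L (nat_lit 19185688)))
(L (nat_lit 21773351)))
(S (nat_lit 35073) (S (nat_lit 40805) (S (nat_lit 48301) (S (nat_lit 40547) (L (nat_lit 28543564))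
(L (nat_lit 27285927)))
(L (nat_lit 16408744)))
(S (nat_lit 52557) (L (nat_lit 7485048))
(L (nat_lit 7884608))))
(S (nat_lit 54837) (S (nat_lit 1763) (S (nat_lit 47) (S (nat_lit 57049) (L (nat_lit 12219504))
(L (nat_lit 21936450)))
(L (nat_lit 19002608)))
(S (nat_lit 39441) (L (nat_lit 14689021))
(L (nat_lit 19423334))))
(L (nat_lit 25711622)))))
(S (nat_lit 41519) (S (nat_lit 1277) (S (nat_lit 50477) (S (nat_lit 1047) (L (nat_lit 18009339))
(L (nat_lit 19407896)))
(L (nat_lit 13240632)))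
(S (nat_lit 21041) (S (nat_lit 30724) (S (nat_lit 20767) (L (nat_lit 29609132))
(L (nat_lit 478429)))
(L (nat_lit 30657987)))
(S (nat_lit 40805) (S (nat_lit 4347) (L (nat_lit 13946753))
(S (nat_lit 48301) (S (nat_lit 40774) (L (nat_lit 12406306))
(L (nat_lit 479110)))
(L (nat_lit 14601385))))
(L (nat_lit 25899081)))))
(L (nat_lit 25854257)))))
(S (nat_lit 57088) (S (nat_lit 1776) (S (nat_lit 38947) (S (nat_lit 40575) (L (nat_lit 10609296))
(L (nat_lit 27508755)))
(S (nat_lit 54879) (S (nat_lit 21527) (S (nat_lit 21722) (S (nat_lit 57038) (S (nat_lit 54851) (S (nat_lit 21465) (S (nat_lit 21750) (S (nat_lit 1748) (S (nat_lit 1726) (S (nat_lit 62) (S (nat_lit 20859) (L (nat_lit 9356996))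
(S (nat_lit 30746) (S (nat_lit 1257) (S (nat_lit 50525) (S (nat_lit 50463) (S (nat_lit 48338) (S (nat_lit 40575) (S (nat_lit 14434) (S (nat_lit 15334) (S (nat_lit 34200) (S (nat_lit 20750) (S (nat_lit 8762) (S (nat_lit 41293) (S (nat_lit 8475) (S (nat_lit 8635) (S (nat_lit 1627) (S (nat_lit 18324) (S (nat_lit 28725) (S (nat_lit 16367) (S (nat_lit 2129) (D (nat_lit 13) (nat_lit 25773280) (nat_lit 19435271) (nat_lit 9008694955104))
(L (nat_lit 29809984)))
(L (nat_lit 27527887)))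
(L (nat_lit 3067367)))
(L (nat_lit 28592609)))
(L (nat_lit 31043779)))
(S (nat_lit 52399) (S (nat_lit 58886) (S (nat_lit 57414) (S (nat_lit 10883) (S (nat_lit 12595) (S (nat_lit 412) (D (nat_lit 13) (nat_lit 31005745) (nat_lit 25761136) (nat_lit 104257855528))
(L (nat_lit 29510152)))
(L (nat_lit 29903170)))
(L (nat_lit 30123522)))
(L (nat_lit 22885635)))
(L (nat_lit 22884546)))
(L (nat_lit 19340129))))
(L (nat_lit 22878253)))
(L (nat_lit 7158368)))
(L (nat_lit 7090756)))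
(L (nat_lit 15294817)))
(L (nat_lit 18685669)))
(L (nat_lit 7050129)))
(L (nat_lit 4647563)))
(L (nat_lit 18604200)))
(L (nat_lit 6050218)))
(L (nat_lit 5764743)))
(L (nat_lit 5961162)))
(L (nat_lit 19763436)))
(L (nat_lit 10409508))))
(S (nat_lit 2330) (L (nat_lit 9995963))
(L (nat_lit 13502187))))
(S (nat_lit 6262) (L (nat_lit 16836818))
(L (nat_lit 12671259))))
(S (nat_lit 15032) (L (nat_lit 26260203))
(L (nat_lit 19743880))))
(L (nat_lit 21926441)))
(L (nat_lit 15314754)))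
(L (nat_lit 12013349)))
(L (nat_lit 12046117)))
(L (nat_lit 21361713)))
(S (nat_lit 46053) (L (nat_lit 15413091))
(L (nat_lit 15847270))))
(L (nat_lit 16011008))))
(S (nat_lit 21540) (S (nat_lit 8779) (S (nat_lit 41676) (L (nat_lit 4610822))
(S (nat_lit 54879) (S (nat_lit 20800) (S (nat_lit 21465) (L (nat_lit 15781082))
(L (nat_lit 14994586)))
(L (nat_lit 15425861)))
(L (nat_lit 21373117))))
(S (nat_lit 28543) (S (nat_lit 54879) (S (nat_lit 21512) (S (nat_lit 40768) (S (nat_lit 47) (S (nat_lit 21783) (S (nat_lit 21722) (S (nat_lit 21465) (S (nat_lit 40785) (S (nat_lit 57071) (S (nat_lit 21527) (S (nat_lit 30746) (S (nat_lit 53340) (S (nat_lit 62) (S (nat_lit 57055) (S (nat_lit 54868) (S (nat_lit 40531) (S (nat_lit 64) (S (nat_lit 1844) (S (nat_lit 48890) (S (nat_lit 55770) (S (nat_lit 58200) (D (nat_lit 11) (nat_lit 16665767) (nat_lit 25765317) (nat_lit 103356244200))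
(L (nat_lit 29895703)))
(L (nat_lit 30093416)))
(L (nat_lit 21902597)))
(S (nat_lit 38684) (S (nat_lit 32506) (S (nat_lit 30562) (S (nat_lit 36450) (D (nat_lit 11) (nat_lit 11425315) (nat_lit 25765379) (nat_lit 206435356836))
(L (nat_lit 27284939)))
(L (nat_lit 20853953)))
(L (nat_lit 20852928)))
(L (nat_lit 969256))))
(L (nat_lit 19425475)))
(L (nat_lit 24480217)))
(L (nat_lit 5643062)))
(L (nat_lit 5675830)))
(L (nat_lit 19227824)))
(L (nat_lit 16648437)))
(L (nat_lit 19836970)))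
(L (nat_lit 16567555)))
(L (nat_lit 10564468)))
(L (nat_lit 7402035)))
(L (nat_lit 7500397)))
(L (nat_lit 15536806)))
(L (nat_lit 14965509)))
(L (nat_lit 13922884)))
(L (nat_lit 24382286)))
(L (nat_lit 15489379)))
(L (nat_lit 5891559)))
(S (nat_lit 48307) (S (nat_lit 54879) (S (nat_lit 21722) (S (nat_lit 50505) (S (nat_lit 50494) (S (nat_lit 21490) (S (nat_lit 48340) (S (nat_lit 972) (L (nat_lit 28936651))
(L (nat_lit 4646472)))
(L (nat_lit 5616281)))
(L (nat_lit 21370941)))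
(L (nat_lit 4484530)))
(L (nat_lit 6005147)))
(L (nat_lit 21267929)))
(L (nat_lit 5662037)))
(L (nat_lit 25272049)))))
(S (nat_lit 41304) (S (nat_lit 25816) (S (nat_lit 20750) (L (nat_lit 5811900))
(L (nat_lit 22297787)))
(S (nat_lit 54879) (S (nat_lit 21527) (S (nat_lit 57038) (S (nat_lit 54851) (S (nat_lit 21722) (S (nat_lit 21465) (S (nat_lit 21750) (S (nat_lit 40575) (S (nat_lit 62) (S (nat_lit 40547) (S (nat_lit 40525) (S (nat_lit 41254) (S (nat_lit 21783) (S (nat_lit 28537) (L (nat_lit 28839282))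
(L (nat_lit 9137570)))
(S (nat_lit 39682) (S (nat_lit 10966) (S (nat_lit 39660) (S (nat_lit 20767) (S (nat_lit 20798) (S (nat_lit 30746) (S (nat_lit 28537) (S (nat_lit 19789) (S (nat_lit 40743) (S (nat_lit 1290) (S (nat_lit 39570) (S (nat_lit 37307) (S (nat_lit 44255) (S (nat_lit 42882) (S (nat_lit 42904) (S (nat_lit 45820) (S (nat_lit 4992) (D (nat_lit 11) (nat_lit 27930851) (nat_lit 19672176) (nat_lit 35710339074))
(L (nat_lit 28981254)))
(L (nat_lit 21374881)))
(L (nat_lit 29871361)))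
(L (nat_lit 29935907)))
(S (nat_lit 52559) (S (nat_lit 25927) (S (nat_lit 23011) (S (nat_lit 28254) (D (nat_lit 11) (nat_lit 30028936) (nat_lit 16518514) (nat_lit 103114015905))
(L (nat_lit 4049385)))
(L (nat_lit 23988715)))
(L (nat_lit 23988682)))
(L (nat_lit 30555723))))
(L (nat_lit 16894859)))
(L (nat_lit 17458343)))
(L (nat_lit 19401576)))
(L (nat_lit 27379981)))
(L (nat_lit 15308649)))
(L (nat_lit 18886513)))
(L (nat_lit 19675364)))
(L (nat_lit 830192)))
(L (nat_lit 961166)))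
(L (nat_lit 13424962)))
(L (nat_lit 447305)))
(L (nat_lit 4774140))))
(L (nat_lit 18777831)))
(L (nat_lit 27346228)))
(L (nat_lit 27935817)))
(L (nat_lit 766891)))
(L (nat_lit 27303378)))
(L (nat_lit 11170829)))
(L (nat_lit 15298699)))
(L (nat_lit 15332576)))
(L (nat_lit 12013349)))
(L (nat_lit 12046117)))
(S (nat_lit 52605) (S (nat_lit 40805) (L (nat_lit 18176865))
(L (nat_lit 27512352)))
(L (nat_lit 14962529))))
(L (nat_lit 16011008))))
(L (nat_lit 25431725)))))
(L (nat_lit 25349609)))))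
(L (nat_lit 25510934)))))
(S (nat_lit 41260) (S (nat_lit 1969) (S (nat_lit 15340) (S (nat_lit 8823) (S (nat_lit 10966) (S (nat_lit 40525) (S (nat_lit 40564) (S (nat_lit 10997) (L (nat_lit 29890123))
(L (nat_lit 8053900)))
(L (nat_lit 1846863)))
(S (nat_lit 49858) (L (nat_lit 8173216))
(L (nat_lit 23469888))))
(S (nat_lit 12505) (L (nat_lit 17944891))
(L (nat_lit 7421531))))
(S (nat_lit 28587) (S (nat_lit 986) (S (nat_lit 28559) (S (nat_lit 10997) (S (nat_lit 2019) (S (nat_lit 15371) (S (nat_lit 15309) (S (nat_lit 41291) (S (nat_lit 40547) (S (nat_lit 1014) (S (nat_lit 21041) (S (nat_lit 48318) (S (nat_lit 21010) (S (nat_lit 62) (S (nat_lit 40960) (S (nat_lit 850) (S (nat_lit 41503) (S (nat_lit 30746) (S (nat_lit 39592) (S (nat_lit 1726) (S (nat_lit 8473) (S (nat_lit 3280) (S (nat_lit 25441) (S (nat_lit 23011) (S (nat_lit 34544) (D (nat_lit 11) (nat_lit 31136290) (nat_lit 16520777) (nat_lit 206227735809))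
(L (nat_lit 10407331)))
(L (nat_lit 25043429)))
(L (nat_lit 25043396)))
(L (nat_lit 27963589)))
(S (nat_lit 41624) (S (nat_lit 53776) (S (nat_lit 46972) (S (nat_lit 45527) (D (nat_lit 11) (nat_lit 26913186) (nat_lit 16966217) (nat_lit 206227735809))
(L (nat_lit 21865987)))
(L (nat_lit 9260453)))
(L (nat_lit 9259428)))
(L (nat_lit 30740207))))
(L (nat_lit 12160570)))
(L (nat_lit 24913283)))
(L (nat_lit 9980987)))
(L (nat_lit 23989582)))
(L (nat_lit 28425429)))
(L (nat_lit 30081327)))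
(L (nat_lit 13343933)))
(L (nat_lit 12195293)))
(L (nat_lit 4485620)))
(L (nat_lit 1782075)))
(L (nat_lit 12605322)))
(L (nat_lit 1272215)))
(L (nat_lit 1847574)))
(L (nat_lit 7111406)))
(L (nat_lit 448394)))
(L (nat_lit 19399529)))
(L (nat_lit 26903916)))
(L (nat_lit 24385359)))
(S (nat_lit 20750) (S (nat_lit 15309) (L (nat_lit 7198734))
(L (nat_lit 15499509)))
(S (nat_lit 40514) (S (nat_lit 10966) (S (nat_lit 57038) (L (nat_lit 29797396))
(L (nat_lit 19833966)))
(L (nat_lit 7945307)))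
(L (nat_lit 25442947)))))
(S (nat_lit 48351) (S (nat_lit 35148) (S (nat_lit 21529) (L (nat_lit 4115847))
(L (nat_lit 11376021)))
(S (nat_lit 37012) (L (nat_lit 14455498))
(L (nat_lit 10275201))))
(L (nat_lit 25499214)))))
(S (nat_lit 35104) (S (nat_lit 1763) (S (nat_lit 921) (S (nat_lit 28587) (L (nat_lit 13177738))
(L (nat_lit 19709217)))
(S (nat_lit 28559) (S (nat_lit 1975) (S (nat_lit 1036) (S (nat_lit 1003) (L (nat_lit 28757312))
(L (nat_lit 13848389)))
(L (nat_lit 2649365)))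
(S (nat_lit 15780) (L (nat_lit 14330937))
(L (nat_lit 13684551))))
(L (nat_lit 9561555))))
(S (nat_lit 21527) (S (nat_lit 40743) (S (nat_lit 10935) (S (nat_lit 986) (S (nat_lit 40500) (L (nat_lit 7963034))
(L (nat_lit 7965083)))
(L (nat_lit 9016797)))
(L (nat_lit 16570593)))
(S (nat_lit 52266) (L (nat_lit 6916507))
(L (nat_lit 9548379))))
(S (nat_lit 41291) (S (nat_lit 40525) (S (nat_lit 21722) (S (nat_lit 35073) (S (nat_lit 19811) (S (nat_lit 30741) (S (nat_lit 1991) (S (nat_lit 40547) (S (nat_lit 28559) (S (nat_lit 57088) (S (nat_lit 41229) (S (nat_lit 15351) (S (nat_lit 986) (S (nat_lit 37307) (S (nat_lit 17496) (S (nat_lit 54862) (S (nat_lit 1229) (S (nat_lit 11796) (S (nat_lit 21010) (S (nat_lit 16995) (S (nat_lit 39570) (S (nat_lit 17674) (S (nat_lit 10666) (S (nat_lit 49338) (S (nat_lit 52585) (S (nat_lit 4130) (S (nat_lit 46922) (D (nat_lit 13) (nat_lit 28025248) (nat_lit 19343107) (nat_lit 2234666652838))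
(L (nat_lit 28593635)))
(L (nat_lit 31145153)))
(L (nat_lit 29412905)))
(L (nat_lit 14971525)))
(L (nat_lit 29997413)))
(S (nat_lit 44978) (S (nat_lit 34544) (S (nat_lit 39203) (S (nat_lit 48929) (S (nat_lit 18849) (D (nat_lit 13) (nat_lit 31073328) (nat_lit 15059717) (nat_lit 138586262728))
(L (nat_lit 28984456)))
(L (nat_lit 25067913)))
(L (nat_lit 22911362)))
(L (nat_lit 22986083)))
(L (nat_lit 19376002))))
(L (nat_lit 24415803)))
(L (nat_lit 16010328)))
(L (nat_lit 22538593)))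
(L (nat_lit 28911040)))
(L (nat_lit 18979697)))
(L (nat_lit 27464118)))
(L (nat_lit 18651189)))
(L (nat_lit 30525644)))
(L (nat_lit 20211729)))
(L (nat_lit 7030657)))
(L (nat_lit 1363389)))
(L (nat_lit 13454563)))
(L (nat_lit 9551765)))
(L (nat_lit 23904577)))
(L (nat_lit 12622647)))
(L (nat_lit 30520694)))
(L (nat_lit 21095632)))
(L (nat_lit 23298894)))
(L (nat_lit 1373872)))
(L (nat_lit 24383246)))
(L (nat_lit 25900072)))))
(S (nat_lit 54868) (S (nat_lit 14) (S (nat_lit 1257) (S (nat_lit 30774) (S (nat_lit 986) (S (nat_lit 28587) (L (nat_lit 11932564))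
(L (nat_lit 19774535)))
(L (nat_lit 14472545)))
(L (nat_lit 14470215)))
(S (nat_lit 21021) (S (nat_lit 1726) (S (nat_lit 1715) (S (nat_lit 8810) (L (nat_lit 15533770))
(L (nat_lit 26838442)))
(L (nat_lit 19707910)))
(L (nat_lit 19702304)))
(S (nat_lit 40785) (S (nat_lit 1792) (L (nat_lit 26743434))
(S (nat_lit 21529) (S (nat_lit 21054) (S (nat_lit 19839) (S (nat_lit 1215) (S (nat_lit 19826) (L (nat_lit 28578260))
(L (nat_lit 15402361)))
(L (nat_lit 19226732)))
(L (nat_lit 14872199)))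
(L (nat_lit 4746611)))
(L (nat_lit 6082862))))
(L (nat_lit 25530899)))))
(S (nat_lit 19778) (S (nat_lit 15373) (S (nat_lit 21512) (S (nat_lit 21026) (L (nat_lit 435093))
(L (nat_lit 21359728)))
(L (nat_lit 22048049)))
(S (nat_lit 35137) (S (nat_lit 1792) (S (nat_lit 30741) (L (nat_lit 24552357))
(L (nat_lit 10057089)))
(S (nat_lit 21529) (S (nat_lit 39570) (S (nat_lit 37335) (S (nat_lit 1726) (S (nat_lit 50510) (L (nat_lit 11079193))
(L (nat_lit 27339404)))
(L (nat_lit 19186592)))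
(L (nat_lit 30872885)))
(L (nat_lit 24000865)))
(L (nat_lit 16548148))))
(S (nat_lit 54901) (S (nat_lit 48318) (S (nat_lit 11010) (S (nat_lit 48338) (L (nat_lit 28687075))
(L (nat_lit 16381066)))
(L (nat_lit 16665856)))
(L (nat_lit 6086055)))
(L (nat_lit 25763884)))))
(S (nat_lit 39542) (S (nat_lit 986) (S (nat_lit 28587) (S (nat_lit 50538) (S (nat_lit 21041) (S (nat_lit 37335) (S (nat_lit 40547) (S (nat_lit 35115) (S (nat_lit 41472) (S (nat_lit 28559) (S (nat_lit 1014) (S (nat_lit 40768) (S (nat_lit 51889) (S (nat_lit 35954) (S (nat_lit 1748) (S (nat_lit 1036) (S (nat_lit 28537) (S (nat_lit 21507) (S (nat_lit 24819) (S (nat_lit 28204) (S (nat_lit 9830) (S (nat_lit 17696) (S (nat_lit 49962) (D (nat_lit 13) (nat_lit 25835688) (nat_lit 19194403) (nat_lit 214882680869))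
(L (nat_lit 19096590)))
(L (nat_lit 31039502)))
(L (nat_lit 27480141)))
(L (nat_lit 27932932)))
(S (nat_lit 46046) (S (nat_lit 19657) (S (nat_lit 2325) (S (nat_lit 23530) (S (nat_lit 6560) (S (nat_lit 53726) (D (nat_lit 13) (nat_lit 28025250) (nat_lit 19085061) (nat_lit 1134112740456))
(L (nat_lit 28592578)))
(L (nat_lit 31142146)))
(L (nat_lit 28979522)))
(L (nat_lit 27772999)))
(L (nat_lit 29967716)))
(L (nat_lit 8483219))))
(L (nat_lit 14851891)))
(L (nat_lit 19129826)))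
(L (nat_lit 12905029)))
(L (nat_lit 26696774)))
(L (nat_lit 26643079)))
(L (nat_lit 17716327)))
(L (nat_lit 27894862)))
(L (nat_lit 13489442)))
(L (nat_lit 18967759)))
(L (nat_lit 24440197)))
(L (nat_lit 20247726)))
(L (nat_lit 8258999)))
(L (nat_lit 20746511)))
(L (nat_lit 5024278)))
(L (nat_lit 12161937)))
(S (nat_lit 41846) (L (nat_lit 2932053))
(L (nat_lit 19705377))))
(S (nat_lit 53973) (L (nat_lit 10613236))
(L (nat_lit 13414049))))
(L (nat_lit 25797712)))))
(L (nat_lit 25444438)))))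
(S (nat_lit 21733) (S (nat_lit 1246) (S (nat_lit 10999) (S (nat_lit 1036) (S (nat_lit 1003) (L (nat_lit 2406040))
(L (nat_lit 11383988)))
(S (nat_lit 20800) (S (nat_lit 8795) (L (nat_lit 3437045))
(L (nat_lit 7157380)))
(S (nat_lit 40564) (S (nat_lit 64) (S (nat_lit 10960) (L (nat_lit 12353940))
(L (nat_lit 8179139)))
(L (nat_lit 7518842)))
(L (nat_lit 25466447)))))
(S (nat_lit 30763) (S (nat_lit 20855) (S (nat_lit 50477) (L (nat_lit 4663125))
(L (nat_lit 13541461)))
(S (nat_lit 40547) (S (nat_lit 2006) (S (nat_lit 40514) (L (nat_lit 19051771))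
(L (nat_lit 7959009)))
(L (nat_lit 19805440)))
(L (nat_lit 1761703))))
(S (nat_lit 50527) (S (nat_lit 28554) (S (nat_lit 35087) (S (nat_lit 57099) (L (nat_lit 19050319))
(L (nat_lit 11290703)))
(L (nat_lit 20842890)))
(S (nat_lit 41908) (S (nat_lit 44997) (L (nat_lit 5529391))
(L (nat_lit 19084317)))
(L (nat_lit 9997108))))
(L (nat_lit 25856489)))))
(S (nat_lit 21010) (S (nat_lit 8790) (S (nat_lit 1765) (S (nat_lit 40547) (S (nat_lit 20798) (S (nat_lit 19806) (L (nat_lit 20411527))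
(L (nat_lit 15487111)))
(L (nat_lit 21858855)))
(L (nat_lit 1988999)))
(S (nat_lit 21529) (S (nat_lit 40547) (S (nat_lit 15351) (S (nat_lit 10977) (L (nat_lit 7178711))
(L (nat_lit 548743)))
(L (nat_lit 739207)))
(L (nat_lit 24939911)))
(S (nat_lit 41293) (S (nat_lit 21004) (S (nat_lit 57099) (S (nat_lit 57024) (S (nat_lit 64) (S (nat_lit 21043) (S (nat_lit 42) (S (nat_lit 41254) (S (nat_lit 10997) (L (nat_lit 7423741))
(S (nat_lit 11564) (L (nat_lit 3489400))
(L (nat_lit 1431965))))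
(L (nat_lit 27418151)))
(L (nat_lit 18999847)))
(L (nat_lit 21280893)))
(L (nat_lit 19262479)))
(L (nat_lit 12288879)))
(L (nat_lit 19730855)))
(L (nat_lit 11961205)))
(L (nat_lit 25219374)))))
(S (nat_lit 28554) (S (nat_lit 19872) (S (nat_lit 20993) (L (nat_lit 4595476))
(L (nat_lit 4847047)))
(S (nat_lit 57099) (S (nat_lit 21043) (S (nat_lit 21004) (S (nat_lit 25) (S (nat_lit 64) (S (nat_lit 57024) (S (nat_lit 42) (S (nat_lit 57071) (S (nat_lit 75) (S (nat_lit 41254) (S (nat_lit 21026) (S (nat_lit 28526) (S (nat_lit 57038) (S (nat_lit 28574) (S (nat_lit 21041) (S (nat_lit 41276) (S (nat_lit 41291) (S (nat_lit 40531) (S (nat_lit 21708) (S (nat_lit 21783) (S (nat_lit 40547) (S (nat_lit 40542) (S (nat_lit 41304) (S (nat_lit 28537) (S (nat_lit 57088) (S (nat_lit 20979) (S (nat_lit 21054) (S (nat_lit 62) (S (nat_lit 47) (S (nat_lit 32738) (S (nat_lit 27241) (S (nat_lit 32981) (S (nat_lit 15471) (S (nat_lit 39441) (S (nat_lit 37690) (S (nat_lit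 30612) (D (nat_lit 9) (nat_lit 11389377) (nat_lit 16526514) (nat_lit 6482365608))
(L (nat_lit 26712116)))
(L (nat_lit 15951489)))
(S (nat_lit 52147) (S (nat_lit 45746) (S (nat_lit 52158) (S (nat_lit 15432) (D (nat_lit 13) (nat_lit 1920521) (nat_lit 25761967) (nat_lit 8870187605126))
(L (nat_lit 9263585)))
(L (nat_lit 30054575)))
(L (nat_lit 16584422)))
(L (nat_lit 8150496))))
(L (nat_lit 19675328)))
(L (nat_lit 16994053)))
(L (nat_lit 27919662)))
(S (nat_lit 36433) (S (nat_lit 24233) (S (nat_lit 36394) (S (nat_lit 22867) (S (nat_lit 23613) (S (nat_lit 20163) (S (nat_lit 50463) (S (nat_lit 1181) (D (nat_lit 9) (nat_lit 11295759) (nat_lit 15911288) (nat_lit 3291519204))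
(L (nat_lit 23568129)))
(L (nat_lit 25836736)))
(S (nat_lit 56499) (S (nat_lit 15356) (S (nat_lit 55803) (S (nat_lit 11058) (D (nat_lit 13) (nat_lit 5066251) (nat_lit 25380975) (nat_lit 1168403176644))
(L (nat_lit 9264577)))
(L (nat_lit 29858999)))
(L (nat_lit 22887621)))
(L (nat_lit 18667778))))
(L (nat_lit 27935940)))
(L (nat_lit 27342132)))
(L (nat_lit 14569764)))
(L (nat_lit 13455652)))
(S (nat_lit 48432) (S (nat_lit 58706) (S (nat_lit 19747) (S (nat_lit 19758) (S (nat_lit 1343) (S (nat_lit 1358) (S (nat_lit 11030) (S (nat_lit 54507) (S (nat_lit 56482) (S (nat_lit 46083) (D (nat_lit 13) (nat_lit 16664715) (nat_lit 19095729) (nat_lit 8865891551233))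
(L (nat_lit 19441787)))
(L (nat_lit 20888837)))
(L (nat_lit 28919107)))
(S (nat_lit 22565) (S (nat_lit 45709) (S (nat_lit 52083) (S (nat_lit 41659) (D (nat_lit 13) (nat_lit 16635914) (nat_lit 25761969) (nat_lit 9005480220675))
(L (nat_lit 22918467)))
(L (nat_lit 8311266)))
(L (nat_lit 28825796)))
(L (nat_lit 13688650))))
(L (nat_lit 27792631)))
(L (nat_lit 27729079)))
(L (nat_lit 27793063)))
(L (nat_lit 27808963)))
(L (nat_lit 7401036)))
(L (nat_lit 2613990)))))
(L (nat_lit 19153949)))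
(L (nat_lit 19424426)))
(L (nat_lit 15982341)))
(L (nat_lit 16664837)))
(L (nat_lit 11340528)))
(L (nat_lit 13243773)))
(L (nat_lit 18635947)))
(L (nat_lit 8278124)))
(L (nat_lit 27919783)))
(L (nat_lit 8096252)))
(L (nat_lit 7942332)))
(L (nat_lit 27959470)))
(L (nat_lit 16829192)))
(L (nat_lit 16802376)))
(L (nat_lit 7026466)))
(L (nat_lit 24572074)))
(L (nat_lit 19375909)))
(L (nat_lit 25038218)))
(L (nat_lit 31099217)))
(L (nat_lit 1689415)))
(L (nat_lit 1818936)))
(L (nat_lit 13519077)))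
(L (nat_lit 12708211)))
(L (nat_lit 12420661)))
(L (nat_lit 13502709)))
(L (nat_lit 7738261)))
(L (nat_lit 21095727)))
(L (nat_lit 21291119)))
(L (nat_lit 12339617))))
(S (nat_lit 48318) (S (nat_lit 1290) (S (nat_lit 1944) (S (nat_lit 40525) (S (nat_lit 21043) (S (nat_lit 50525) (L (nat_lit 258639))
(L (nat_lit 22214090)))
(L (nat_lit 22345089)))
(L (nat_lit 1663279)))
(S (nat_lit 52334) (L (nat_lit 4743445))
(L (nat_lit 13932307))))
(S (nat_lit 21054) (S (nat_lit 38469) (S (nat_lit 15371) (L (nat_lit 29468335))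
(L (nat_lit 22471818)))
(S (nat_lit 40564) (S (nat_lit 41243) (S (nat_lit 40547) (S (nat_lit 28559) (S (nat_lit 37307) (S (nat_lit 41291) (S (nat_lit 21755) (L (nat_lit 14604640))
(L (nat_lit 16056921)))
(L (nat_lit 24392451)))
(L (nat_lit 13749130)))
(L (nat_lit 18986890)))
(L (nat_lit 27285927)))
(L (nat_lit 27853254)))
(L (nat_lit 3466863))))
(S (nat_lit 40818) (S (nat_lit 1748) (S (nat_lit 1034) (S (nat_lit 39570) (S (nat_lit 986) (L (nat_lit 14251018))
(L (nat_lit 19137021)))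
(L (nat_lit 12248577)))
(S (nat_lit 16967) (L (nat_lit 4571805))
(L (nat_lit 19433789))))
(S (nat_lit 2072) (L (nat_lit 12334100))
(L (nat_lit 4867453))))
(L (nat_lit 25926700)))))
(L (nat_lit 25725607)))))
(S (nat_lit 40774) (S (nat_lit 1765) (S (nat_lit 50510) (S (nat_lit 8810) (L (nat_lit 1373749))
(L (nat_lit 8278191)))
(L (nat_lit 27375829)))
(S (nat_lit 21529) (S (nat_lit 28574) (S (nat_lit 21043) (S (nat_lit 41254) (L (nat_lit 8130965))
(L (nat_lit 1940207)))
(L (nat_lit 4505493)))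
(L (nat_lit 30580213)))
(S (nat_lit 41293) (S (nat_lit 64) (S (nat_lit 40807) (S (nat_lit 57024) (S (nat_lit 42) (S (nat_lit 57099) (S (nat_lit 25) (S (nat_lit 21739) (S (nat_lit 75) (S (nat_lit 41254) (S (nat_lit 1047) (S (nat_lit 21755) (S (nat_lit 1003) (S (nat_lit 52837) (L (nat_lit 16786073))
(L (nat_lit 20825440)))
(L (nat_lit 20785327)))
(L (nat_lit 8313216)))
(S (nat_lit 3641) (L (nat_lit 24352317))
(S (nat_lit 11080) (S (nat_lit 40514) (S (nat_lit 19747) (L (nat_lit 4597468))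
(L (nat_lit 14524437)))
(L (nat_lit 27539638)))
(L (nat_lit 14605506)))))
(L (nat_lit 17424487)))
(L (nat_lit 19409761)))
(L (nat_lit 11006101)))
(L (nat_lit 12808373)))
(L (nat_lit 4581909)))
(L (nat_lit 12899201)))
(L (nat_lit 11387925)))
(L (nat_lit 23861359)))
(L (nat_lit 8278031)))
(L (nat_lit 25710727)))))
(L (nat_lit 25643051)))))
(S (nat_lit 41497) (S (nat_lit 10966) (S (nat_lit 997) (S (nat_lit 10982) (S (nat_lit 54884) (L (nat_lit 18473189))
(L (nat_lit 27339503)))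
(S (nat_lit 30746) (S (nat_lit 35148) (S (nat_lit 1262) (L (nat_lit 20378884))
(L (nat_lit 19766384)))
(L (nat_lit 17982773)))
(S (nat_lit 50510) (S (nat_lit 1279) (S (nat_lit 39553) (L (nat_lit 28757159))
(L (nat_lit 27863215)))
(L (nat_lit 4074901)))
(L (nat_lit 25694421)))))
(S (nat_lit 20761) (S (nat_lit 15340) (S (nat_lit 12040) (L (nat_lit 6714018))
(S (nat_lit 15371) (S (nat_lit 8762) (S (nat_lit 20993) (S (nat_lit 17571) (L (nat_lit 4579863))
(L (nat_lit 1397583)))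
(L (nat_lit 14944183)))
(L (nat_lit 1302351)))
(L (nat_lit 434066))))
(S (nat_lit 35437) (S (nat_lit 55461) (L (nat_lit 12149838))
(L (nat_lit 1371758)))
(L (nat_lit 26935689))))
(S (nat_lit 40525) (S (nat_lit 10960) (S (nat_lit 15340) (S (nat_lit 21010) (S (nat_lit 17571) (S (nat_lit 21862) (L (nat_lit 25008271))
(L (nat_lit 7199105)))
(L (nat_lit 6976929)))
(L (nat_lit 2012533)))
(L (nat_lit 8086914)))
(S (nat_lit 30724) (S (nat_lit 15371) (S (nat_lit 41547) (S (nat_lit 10935) (S (nat_lit 21722) (S (nat_lit 21010) (L (nat_lit 4856315))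
(L (nat_lit 1765862)))
(L (nat_lit 1653510)))
(L (nat_lit 8159951)))
(L (nat_lit 7146125)))
(L (nat_lit 1565042)))
(S (nat_lit 50488) (S (nat_lit 11077) (L (nat_lit 26299725))
(S (nat_lit 39553) (S (nat_lit 16026) (L (nat_lit 26299725))
(S (nat_lit 21722) (S (nat_lit 19806) (S (nat_lit 37260) (S (nat_lit 1003) (S (nat_lit 10935) (S (nat_lit 30763) (S (nat_lit 21490) (S (nat_lit 17571) (S (nat_lit 41547) (S (nat_lit 20750) (S (nat_lit 28587) (S (nat_lit 21010) (S (nat_lit 1743) (S (nat_lit 48276) (S (nat_lit 30327) (S (nat_lit 18882) (S (nat_lit 49881) (S (nat_lit 31177) (S (nat_lit 45822) (S (nat_lit 11654) (S (nat_lit 4261) (S (nat_lit 31078) (S (nat_lit 3764) (D (nat_lit 13) (nat_lit 28908992) (nat_lit 1853808) (nat_lit 5497700783169))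
(L (nat_lit 27963685)))
(L (nat_lit 28725477)))
(L (nat_lit 28980548)))
(L (nat_lit 31047691)))
(L (nat_lit 17004163)))
(S (nat_lit 44621) (S (nat_lit 5316) (S (nat_lit 55665) (D (nat_lit 15) (nat_lit 31101447) (nat_lit 25761036) (nat_lit 105470070912))
(L (nat_lit 28398026)))
(L (nat_lit 31076641)))
(L (nat_lit 3626825))))
(L (nat_lit 21196814)))
(L (nat_lit 13406551)))
(L (nat_lit 15751977)))
(L (nat_lit 27514926)))
(L (nat_lit 13803257)))
(L (nat_lit 2011508)))
(L (nat_lit 9286740)))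
(L (nat_lit 14964483)))
(L (nat_lit 18680457)))
(L (nat_lit 1463111)))
(L (nat_lit 30705173)))
(L (nat_lit 31106531)))
(L (nat_lit 1888743)))
(L (nat_lit 10969269)))
(L (nat_lit 17467207)))
(L (nat_lit 21052262)))
(L (nat_lit 16322905))))
(L (nat_lit 17424520))))
(L (nat_lit 25213271)))))
(L (nat_lit 25516142)))))
(S (nat_lit 30730) (S (nat_lit 1763) (S (nat_lit 1701) (S (nat_lit 1215) (S (nat_lit 28559) (S (nat_lit 40525) (L (nat_lit 2011442))
(L (nat_lit 3793446)))
(L (nat_lit 12670795)))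
(L (nat_lit 9023609)))
(S (nat_lit 21465) (S (nat_lit 30746) (S (nat_lit 19826) (L (nat_lit 5688231))
(L (nat_lit 2444825)))
(L (nat_lit 16854869)))
(S (nat_lit 41229) (S (nat_lit 48301) (S (nat_lit 1215) (L (nat_lit 19312420))
(L (nat_lit 19673256)))
(L (nat_lit 20812200)))
(L (nat_lit 25594227)))))
(S (nat_lit 21527) (S (nat_lit 40805) (S (nat_lit 50505) (S (nat_lit 54868) (L (nat_lit 28432721))
(L (nat_lit 19694897)))
(L (nat_lit 22099783)))
(L (nat_lit 18139904)))
(S (nat_lit 41291) (S (nat_lit 40525) (S (nat_lit 21010) (S (nat_lit 28587) (S (nat_lit 39553) (S (nat_lit 54899) (S (nat_lit 20800) (S (nat_lit 54868) (S (nat_lit 21722) (S (nat_lit 37260) (S (nat_lit 1262) (S (nat_lit 8790) (S (nat_lit 57088) (S (nat_lit 40575) (S (nat_lit 39575) (S (nat_lit 41229) (S (nat_lit 23092) (S (nat_lit 6172) (S (nat_lit 22355) (S (nat_lit 37007) (S (nat_lit 19115) (D (nat_lit 15) (nat_lit 27870564) (nat_lit 25761101) (nat_lit 206264541442))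
(L (nat_lit 28913800)))
(L (nat_lit 10341856)))
(S (nat_lit 41315) (S (nat_lit 11308) (S (nat_lit 18604) (S (nat_lit 29474) (S (nat_lit 43513) (D (nat_lit 13) (nat_lit 30049487) (nat_lit 12706377) (nat_lit 172945968358))
(L (nat_lit 14976852)))
(L (nat_lit 27897249)))
(L (nat_lit 27868480)))
(L (nat_lit 27867392)))
(L (nat_lit 14527543))))
(L (nat_lit 14261371)))
(L (nat_lit 15026200)))
(L (nat_lit 1945011)))
(L (nat_lit 17607702)))
(L (nat_lit 27508755)))
(L (nat_lit 19205628)))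
(L (nat_lit 21083015)))
(L (nat_lit 12780311)))
(L (nat_lit 3852103)))
(L (nat_lit 31012902)))
(L (nat_lit 19694120)))
(L (nat_lit 30939221)))
(L (nat_lit 19366232)))
(L (nat_lit 11100675)))
(S (nat_lit 48273) (L (nat_lit 1548151))
(L (nat_lit 18453254))))
(S (nat_lit 52504) (S (nat_lit 41569) (L (nat_lit 1880342))
(L (nat_lit 6885132)))
(L (nat_lit 1274510))))
(L (nat_lit 1337908)))
(L (nat_lit 25284102)))))
(S (nat_lit 50494) (S (nat_lit 15340) (S (nat_lit 7386) (L (nat_lit 26264852))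
(S (nat_lit 21041) (S (nat_lit 21465) (L (nat_lit 17899346))
(L (nat_lit 22317498)))
(L (nat_lit 12372480))))
(S (nat_lit 35104) (S (nat_lit 17543) (S (nat_lit 10977) (S (nat_lit 15356) (S (nat_lit 40525) (S (nat_lit 21010) (S (nat_lit 21722) (S (nat_lit 15384) (S (nat_lit 1944) (S (nat_lit 39575) (S (nat_lit 40807) (S (nat_lit 28559) (S (nat_lit 34717) (S (nat_lit 8011) (S (nat_lit 47232) (S (nat_lit 8762) (S (nat_lit 1034) (S (nat_lit 54222) (S (nat_lit 1290) (S (nat_lit 47294) (S (nat_lit 1207) (S (nat_lit 19576) (S (nat_lit 16928) (S (nat_lit 10911) (S (nat_lit 53307) (S (nat_lit 9467) (D (nat_lit 13) (nat_lit 26980546) (nat_lit 19664395) (nat_lit 8796201130179))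
(L (nat_lit 30853130)))
(L (nat_lit 24033537)))
(L (nat_lit 30053929)))
(L (nat_lit 27695748)))
(L (nat_lit 27678052)))
(S (nat_lit 35402) (S (nat_lit 17869) (S (nat_lit 48981) (S (nat_lit 57883) (S (nat_lit 16395) (S (nat_lit 2041) (D (nat_lit 15) (nat_lit 10277004) (nat_lit 8145379) (nat_lit 283467975943))
(L (nat_lit 27867393)))
(L (nat_lit 27895854)))
(L (nat_lit 9325061)))
(L (nat_lit 29991456)))
(L (nat_lit 27898144)))
(L (nat_lit 1580820))))
(L (nat_lit 18946584)))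
(L (nat_lit 13929144)))
(L (nat_lit 29036812)))
(L (nat_lit 26267177)))
(L (nat_lit 1534229)))
(L (nat_lit 1500874)))
(L (nat_lit 7965486)))
(L (nat_lit 26840303)))
(L (nat_lit 12676339)))
(L (nat_lit 17100917)))
(L (nat_lit 11649624)))
(L (nat_lit 11646552)))
(L (nat_lit 2019598)))
(L (nat_lit 1679281)))
(L (nat_lit 2007727)))
(L (nat_lit 27690293)))
(L (nat_lit 7426589)))
(S (nat_lit 11787) (L (nat_lit 2412431))
(L (nat_lit 7162033))))
(S (nat_lit 37307) (S (nat_lit 28559) (S (nat_lit 40525) (S (nat_lit 48318) (S (nat_lit 20800) (S (nat_lit 21010) (L (nat_lit 6012122))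
(L (nat_lit 6959876)))
(L (nat_lit 14999700)))
(L (nat_lit 27538080)))
(L (nat_lit 9834325)))
(L (nat_lit 17913675)))
(S (nat_lit 57071) (S (nat_lit 20800) (S (nat_lit 28559) (S (nat_lit 40525) (S (nat_lit 28554) (L (nat_lit 9090818))
(L (nat_lit 12903073)))
(L (nat_lit 27886895)))
(L (nat_lit 12883797)))
(L (nat_lit 14999700)))
(L (nat_lit 25252076)))))
(S (nat_lit 54868) (S (nat_lit 1743) (S (nat_lit 1304) (L (nat_lit 10998907))
(S (nat_lit 21041) (S (nat_lit 21479) (L (nat_lit 10945180))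
(L (nat_lit 10573744)))
(L (nat_lit 16566498))))
(S (nat_lit 21507) (S (nat_lit 21041) (S (nat_lit 17571) (S (nat_lit 48338) (L (nat_lit 5125397))
(L (nat_lit 10932410)))
(L (nat_lit 22947953)))
(S (nat_lit 30118) (L (nat_lit 22126041))
(L (nat_lit 5024311))))
(S (nat_lit 41271) (S (nat_lit 166) (S (nat_lit 40525) (L (nat_lit 4573013))
(L (nat_lit 27860078)))
(L (nat_lit 12372079)))
(L (nat_lit 25836587)))))
(L (nat_lit 25270993)))))
(L (nat_lit 25461325)))))
(L (nat_lit 25463317)))))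
(L (nat_lit 25513413)))))
(L (nat_lit 25273749)))

theorem rb246_0_11 : run 4 lb246 [] tb246_0_11 kb246 [0, 21772, 31] [17538, 37302] = true := by
  decide +kernel

noncomputable def tb183_4 : Tr :=
(S (nat_lit 10036) (S (nat_lit 2226) (S (nat_lit 6077) (S (nat_lit 3456) (S (nat_lit 17544) (S (nat_lit 16585) (S (nat_lit 28041) (S (nat_lit 46733) (L (nat_lit 24417690))
(L (nat_lit 12902517)))
(L (nat_lit 18964749)))
(S (nat_lit 36430) (L (nat_lit 18681170))
(L (nat_lit 26294854))))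
(S (nat_lit 37308) (S (nat_lit 8798) (S (nat_lit 41255) (S (nat_lit 4431) (S (nat_lit 8762) (L (nat_lit 17370987))
(L (nat_lit 21767279)))
(L (nat_lit 6447635)))
(L (nat_lit 17162358)))
(L (nat_lit 26525252)))
(S (nat_lit 57072) (S (nat_lit 31765) (L (nat_lit 11690575))
(S (nat_lit 32922) (S (nat_lit 47867) (L (nat_lit 26845573))
(L (nat_lit 17064513)))
(L (nat_lit 20013478))))
(L (nat_lit 25252263)))))
(S (nat_lit 23220) (S (nat_lit 6115) (S (nat_lit 6580) (S (nat_lit 4431) (L (nat_lit 16648871))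
(L (nat_lit 19030438)))
(L (nat_lit 26236329)))
(S (nat_lit 25879) (S (nat_lit 12668) (S (nat_lit 16585) (S (nat_lit 41735) (L (nat_lit 4630359))
(L (nat_lit 16343236)))
(L (nat_lit 8905281)))
(L (nat_lit 12312590)))
(S (nat_lit 45643) (S (nat_lit 8798) (S (nat_lit 46124) (S (nat_lit 26355) (L (nat_lit 8474478))
(L (nat_lit 14976602)))
(L (nat_lit 16850618)))
(S (nat_lit 47629) (L (nat_lit 8475164))
(L (nat_lit 21049199))))
(L (nat_lit 25514157)))))
(S (nat_lit 42984) (S (nat_lit 12160) (S (nat_lit 16569) (S (nat_lit 28571) (L (nat_lit 17651013))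
(L (nat_lit 9230413)))
(L (nat_lit 26846320)))
(S (nat_lit 31924) (S (nat_lit 58277) (S (nat_lit 28521) (L (nat_lit 5726055))
(L (nat_lit 31066630)))
(L (nat_lit 7497266)))
(S (nat_lit 51688) (S (nat_lit 13169) (S (nat_lit 50505) (L (nat_lit 12670236))
(L (nat_lit 22332161)))
(L (nat_lit 323986)))
(L (nat_lit 25729207)))))
(L (nat_lit 25182546)))))
(S (nat_lit 25841) (S (nat_lit 1727) (S (nat_lit 14894) (S (nat_lit 50010) (S (nat_lit 52686) (S (nat_lit 8764) (L (nat_lit 27822390))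
(L (nat_lit 26256887)))
(L (nat_lit 27901121)))
(L (nat_lit 3745275)))
(S (nat_lit 34658) (S (nat_lit 26344) (S (nat_lit 58277) (L (nat_lit 545610))
(L (nat_lit 15505522)))
(L (nat_lit 2967177)))
(S (nat_lit 54422) (S (nat_lit 48443) (L (nat_lit 19089219))
(S (nat_lit 54840) (S (nat_lit 3454) (S (nat_lit 56583) (L (nat_lit 29577292))
(L (nat_lit 13886180)))
(L (nat_lit 6110452)))
(L (nat_lit 19832193))))
(L (nat_lit 25428500)))))
(S (nat_lit 21491) (S (nat_lit 17544) (S (nat_lit 4431) (S (nat_lit 34608) (L (nat_lit 5560080))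
(L (nat_lit 8210020)))
(L (nat_lit 8309249)))
(S (nat_lit 37308) (S (nat_lit 16585) (L (nat_lit 5697094))
(S (nat_lit 43534) (L (nat_lit 12735335))
(L (nat_lit 17716513))))
(S (nat_lit 57072) (S (nat_lit 19235) (S (nat_lit 20970) (L (nat_lit 307834))
(S (nat_lit 54881) (S (nat_lit 28) (S (nat_lit 43) (S (nat_lit 10522) (L (nat_lit 3436055))
(L (nat_lit 15310939)))
(L (nat_lit 20232347)))
(L (nat_lit 7425467)))
(L (nat_lit 10569554))))
(L (nat_lit 16362241)))
(L (nat_lit 25250215)))))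
(S (nat_lit 41255) (S (nat_lit 17544) (S (nat_lit 21005) (S (nat_lit 16585) (L (nat_lit 23381083))
(L (nat_lit 26533281)))
(L (nat_lit 6916912)))
(S (nat_lit 37308) (S (nat_lit 52686) (S (nat_lit 33014) (L (nat_lit 5493550))
(S (nat_lit 54881) (S (nat_lit 18715) (L (nat_lit 21531868))
(L (nat_lit 16441537)))
(L (nat_lit 5556052))))
(L (nat_lit 21488678)))
(S (nat_lit 57072) (S (nat_lit 8339) (L (nat_lit 5882726))
(L (nat_lit 26853601)))
(L (nat_lit 25244262)))))
(L (nat_lit 25254097)))))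
(S (nat_lit 45605) (S (nat_lit 13129) (S (nat_lit 56) (S (nat_lit 17566) (S (nat_lit 4431) (S (nat_lit 54851) (S (nat_lit 57102) (L (nat_lit 30580146))
(L (nat_lit 12733255)))
(L (nat_lit 21498168)))
(L (nat_lit 6481331)))
(L (nat_lit 26577485)))
(S (nat_lit 19820) (S (nat_lit 50050) (S (nat_lit 12668) (L (nat_lit 10302611))
(L (nat_lit 21423329)))
(S (nat_lit 54805) (L (nat_lit 3775340))
(L (nat_lit 9024601))))
(S (nat_lit 39584) (S (nat_lit 30741) (S (nat_lit 29760) (L (nat_lit 18052246))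
(L (nat_lit 6885232)))
(S (nat_lit 49383) (L (nat_lit 5788957))
(L (nat_lit 17567062))))
(L (nat_lit 25887115)))))
(S (nat_lit 32893) (S (nat_lit 3942) (S (nat_lit 21531) (L (nat_lit 2485779))
(S (nat_lit 56641) (L (nat_lit 3750698))
(L (nat_lit 14803187))))
(S (nat_lit 23706) (S (nat_lit 8339) (S (nat_lit 13081) (L (nat_lit 28907661))
(L (nat_lit 9159524)))
(S (nat_lit 24747) (L (nat_lit 26792289))
(L (nat_lit 12846963))))
(S (nat_lit 43470) (S (nat_lit 37322) (S (nat_lit 17071) (S (nat_lit 23220) (L (nat_lit 10934112))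
(L (nat_lit 6746290)))
(L (nat_lit 15295591)))
(S (nat_lit 52624) (L (nat_lit 17664371))
(L (nat_lit 9044846))))
(L (nat_lit 25280818)))))
(S (nat_lit 52657) (S (nat_lit 8807) (S (nat_lit 14358) (L (nat_lit 3579731))
(S (nat_lit 34914) (L (nat_lit 20840781))
(L (nat_lit 26911884))))
(S (nat_lit 28571) (S (nat_lit 31139) (L (nat_lit 21807243))
(S (nat_lit 52708) (S (nat_lit 32933) (L (nat_lit 28876384))
(L (nat_lit 9037189)))
(L (nat_lit 17963827))))
(S (nat_lit 48335) (S (nat_lit 23218) (S (nat_lit 21491) (L (nat_lit 6182278))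
(L (nat_lit 21065222)))
(L (nat_lit 21032358)))
(L (nat_lit 25527021)))))
(L (nat_lit 25364110)))))
(L (nat_lit 25544257)))))
(S (nat_lit 21990) (S (nat_lit 5629) (S (nat_lit 4399) (S (nat_lit 15312) (S (nat_lit 35087) (S (nat_lit 10522) (L (nat_lit 29571809))
(L (nat_lit 2798971)))
(L (nat_lit 18045700)))
(S (nat_lit 35076) (S (nat_lit 54422) (S (nat_lit 18715) (S (nat_lit 35087) (L (nat_lit 26257069))
(L (nat_lit 18045019)))
(L (nat_lit 8577459)))
(L (nat_lit 9191041)))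
(S (nat_lit 54840) (S (nat_lit 16585) (S (nat_lit 13180) (L (nat_lit 15960793))
(L (nat_lit 14013562)))
(L (nat_lit 8413619)))
(L (nat_lit 25713921)))))
(S (nat_lit 24163) (S (nat_lit 28) (S (nat_lit 3456) (S (nat_lit 5591) (S (nat_lit 47381) (L (nat_lit 3743130))
(L (nat_lit 18680179)))
(L (nat_lit 9225824)))
(L (nat_lit 3662163)))
(S (nat_lit 19792) (S (nat_lit 3456) (S (nat_lit 4460) (L (nat_lit 13673335))
(S (nat_lit 19820) (S (nat_lit 17055) (S (nat_lit 7791) (S (nat_lit 24216) (S (nat_lit 14894) (S (nat_lit 1241) (S (nat_lit 4427) (S (nat_lit 2254) (S (nat_lit 19655) (L (nat_lit 2674909))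
(S (nat_lit 43965) (S (nat_lit 41723) (S (nat_lit 21531) (S (nat_lit 12770) (L (nat_lit 12724925))
(L (nat_lit 14537921)))
(S (nat_lit 52488) (L (nat_lit 1261276))
(L (nat_lit 219052))))
(L (nat_lit 27859365)))
(S (nat_lit 46737) (L (nat_lit 28770580))
(L (nat_lit 15029152)))))
(L (nat_lit 7794339)))
(L (nat_lit 18116791)))
(L (nat_lit 5862921)))
(L (nat_lit 22232995)))
(L (nat_lit 9594258)))
(L (nat_lit 21795053)))
(L (nat_lit 22250969)))
(L (nat_lit 9226661))))
(S (nat_lit 4347) (L (nat_lit 11963187))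
(L (nat_lit 9113390))))
(S (nat_lit 39556) (S (nat_lit 5009) (L (nat_lit 5486387))
(S (nat_lit 26344) (L (nat_lit 10039356))
(L (nat_lit 9328034))))
(L (nat_lit 25821609)))))
(S (nat_lit 43927) (S (nat_lit 1281) (S (nat_lit 55044) (L (nat_lit 17921737))
(S (nat_lit 56583) (S (nat_lit 41295) (S (nat_lit 37322) (S (nat_lit 45643) (L (nat_lit 29070701))
(L (nat_lit 9213584)))
(L (nat_lit 8581774)))
(L (nat_lit 8974978)))
(L (nat_lit 8807140))))
(S (nat_lit 21045) (S (nat_lit 25879) (S (nat_lit 4809) (L (nat_lit 11358592))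
(S (nat_lit 16585) (S (nat_lit 35138) (S (nat_lit 47867) (L (nat_lit 17888628))
(L (nat_lit 6840339)))
(L (nat_lit 18440421)))
(L (nat_lit 14704947))))
(L (nat_lit 10934016)))
(S (nat_lit 40809) (S (nat_lit 6115) (S (nat_lit 54372) (S (nat_lit 28571) (S (nat_lit 13129) (L (nat_lit 7098880))
(L (nat_lit 26433059)))
(L (nat_lit 17979675)))
(L (nat_lit 18538820)))
(L (nat_lit 18077504)))
(L (nat_lit 25743557)))))
(L (nat_lit 25734324)))))
(S (nat_lit 25393) (S (nat_lit 14358) (S (nat_lit 43) (S (nat_lit 8339) (S (nat_lit 50539) (S (nat_lit 57072) (L (nat_lit 30608853))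
(L (nat_lit 19161600)))
(L (nat_lit 27645443)))
(S (nat_lit 17435) (S (nat_lit 47381) (L (nat_lit 13656745))
(L (nat_lit 18516777)))
(L (nat_lit 13760230))))
(S (nat_lit 19807) (S (nat_lit 50505) (S (nat_lit 35087) (L (nat_lit 13273994))
(L (nat_lit 9101860)))
(L (nat_lit 22328475)))
(S (nat_lit 39571) (S (nat_lit 57102) (S (nat_lit 54372) (S (nat_lit 57072) (L (nat_lit 13408437))
(L (nat_lit 19194368)))
(L (nat_lit 9101485)))
(L (nat_lit 11292849)))
(L (nat_lit 25464341)))))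
(S (nat_lit 34122) (S (nat_lit 17574) (S (nat_lit 29426) (L (nat_lit 13502150))
(S (nat_lit 43965) (S (nat_lit 1241) (L (nat_lit 22331297))
(L (nat_lit 11093920)))
(L (nat_lit 4675495))))
(S (nat_lit 37338) (S (nat_lit 37278) (S (nat_lit 42982) (L (nat_lit 23496614))
(L (nat_lit 15926036)))
(S (nat_lit 50872) (L (nat_lit 3987915))
(L (nat_lit 13881404))))
(S (nat_lit 57102) (S (nat_lit 43927) (S (nat_lit 35095) (L (nat_lit 13854867))
(L (nat_lit 12800770)))
(S (nat_lit 53967) (L (nat_lit 16109597))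
(L (nat_lit 12608201))))
(L (nat_lit 25833824)))))
(S (nat_lit 53886) (S (nat_lit 12668) (S (nat_lit 17688) (L (nat_lit 21043645))
(S (nat_lit 57072) (S (nat_lit 28526) (S (nat_lit 21491) (S (nat_lit 22018) (L (nat_lit 30608972))
(L (nat_lit 2994485)))
(L (nat_lit 21120283)))
(L (nat_lit 2312115)))
(L (nat_lit 19423520))))
(S (nat_lit 32432) (S (nat_lit 1149) (L (nat_lit 30593325))
(S (nat_lit 22018) (S (nat_lit 21531) (S (nat_lit 5591) (S (nat_lit 35087) (L (nat_lit 8484557))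
(L (nat_lit 18543909)))
(L (nat_lit 8577644)))
(L (nat_lit 22306829)))
(L (nat_lit 17978280))))
(S (nat_lit 52196) (S (nat_lit 17574) (S (nat_lit 10941) (L (nat_lit 26819750))
(L (nat_lit 18043809)))
(S (nat_lit 56140) (L (nat_lit 3794344))
(L (nat_lit 1537671))))
(L (nat_lit 25760264)))))
(L (nat_lit 25921900)))))
(S (nat_lit 45157) (S (nat_lit 4437) (S (nat_lit 10482) (S (nat_lit 8757) (S (nat_lit 25879) (L (nat_lit 6443547))
(L (nat_lit 21160359)))
(S (nat_lit 40712) (L (nat_lit 12689050))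
(L (nat_lit 21185592))))
(S (nat_lit 30246) (S (nat_lit 6729) (L (nat_lit 15736694))
(S (nat_lit 10941) (S (nat_lit 1281) (L (nat_lit 6182438))
(L (nat_lit 12670794)))
(L (nat_lit 18075833))))
(S (nat_lit 50010) (S (nat_lit 40809) (S (nat_lit 57072) (L (nat_lit 21372801))
(L (nat_lit 13521152)))
(L (nat_lit 8212524)))
(L (nat_lit 25496052)))))
(S (nat_lit 24201) (S (nat_lit 17071) (S (nat_lit 4431) (S (nat_lit 26441) (L (nat_lit 2891219))
(S (nat_lit 47381) (S (nat_lit 26344) (S (nat_lit 46119) (L (nat_lit 22574214))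
(L (nat_lit 18763878)))
(L (nat_lit 9311887)))
(L (nat_lit 22315824))))
(L (nat_lit 26593793)))
(L (nat_lit 22471936)))
(S (nat_lit 43965) (S (nat_lit 8798) (S (nat_lit 47381) (S (nat_lit 56599) (S (nat_lit 16585) (L (nat_lit 6452659))
(L (nat_lit 14934099)))
(L (nat_lit 27547104)))
(L (nat_lit 10311104)))
(S (nat_lit 28562) (S (nat_lit 24216) (S (nat_lit 56599) (S (nat_lit 35087) (L (nat_lit 2322867))
(L (nat_lit 9079567)))
(L (nat_lit 3953873)))
(L (nat_lit 8578451)))
(S (nat_lit 48326) (S (nat_lit 43) (S (nat_lit 43959) (S (nat_lit 31924) (S (nat_lit 54840) (L (nat_lit 28794023))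
(L (nat_lit 5797141)))
(L (nat_lit 4481522)))
(L (nat_lit 27640915)))
(S (nat_lit 49485) (L (nat_lit 2414043))
(L (nat_lit 12899483))))
(L (nat_lit 25474131)))))
(L (nat_lit 25923046)))))
(L (nat_lit 25613451)))))
(S (nat_lit 41754) (S (nat_lit 15312) (S (nat_lit 8764) (S (nat_lit 24216) (S (nat_lit 6591) (S (nat_lit 13169) (S (nat_lit 2254) (S (nat_lit 43927) (S (nat_lit 14894) (S (nat_lit 4427) (S (nat_lit 7791) (S (nat_lit 39584) (S (nat_lit 815) (L (nat_lit 2533980))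
(S (nat_lit 8798) (S (nat_lit 45643) (S (nat_lit 17071) (S (nat_lit 43965) (L (nat_lit 4572763))
(L (nat_lit 23487713)))
(L (nat_lit 17042323)))
(L (nat_lit 27967808)))
(L (nat_lit 6704253))))
(L (nat_lit 23429530)))
(L (nat_lit 9123929)))
(L (nat_lit 7181036)))
(L (nat_lit 13538578)))
(L (nat_lit 11088057)))
(L (nat_lit 7524763)))
(L (nat_lit 26527396)))
(S (nat_lit 36460) (L (nat_lit 3524438))
(L (nat_lit 778695))))
(S (nat_lit 51559) (S (nat_lit 10858) (L (nat_lit 16082561))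
(L (nat_lit 6972801)))
(L (nat_lit 21795206))))
(S (nat_lit 28528) (S (nat_lit 15353) (S (nat_lit 15323) (S (nat_lit 3942) (S (nat_lit 11011) (L (nat_lit 16668811))
(L (nat_lit 8269938)))
(L (nat_lit 19095632)))
(S (nat_lit 37016) (L (nat_lit 20989734))
(L (nat_lit 24126317))))
(S (nat_lit 35117) (S (nat_lit 18715) (S (nat_lit 41255) (L (nat_lit 6898843))
(L (nat_lit 8839905)))
(S (nat_lit 22400) (L (nat_lit 13197664))
(L (nat_lit 5530317))))
(S (nat_lit 54881) (S (nat_lit 41255) (S (nat_lit 43) (L (nat_lit 9852026))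
(L (nat_lit 19183803)))
(L (nat_lit 23381825)))
(L (nat_lit 25742692)))))
(S (nat_lit 48292) (S (nat_lit 17566) (S (nat_lit 401) (L (nat_lit 22584096))
(S (nat_lit 21959) (S (nat_lit 46119) (S (nat_lit 8798) (S (nat_lit 21491) (S (nat_lit 24216) (S (nat_lit 43927) (L (nat_lit 30121069))
(L (nat_lit 11133101)))
(L (nat_lit 21868865)))
(L (nat_lit 5627760)))
(L (nat_lit 26629381)))
(L (nat_lit 11403766)))
(L (nat_lit 22082027))))
(S (nat_lit 37330) (S (nat_lit 10941) (S (nat_lit 24216) (S (nat_lit 23706) (S (nat_lit 5591) (L (nat_lit 12771666))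
(L (nat_lit 18441538)))
(L (nat_lit 11309680)))
(L (nat_lit 21796230)))
(L (nat_lit 21791175)))
(S (nat_lit 57094) (S (nat_lit 10941) (S (nat_lit 21971) (S (nat_lit 24216) (L (nat_lit 28982440))
(L (nat_lit 21796230)))
(L (nat_lit 12818263)))
(L (nat_lit 23265752)))
(L (nat_lit 25539734)))))
(L (nat_lit 25824681)))))
(S (nat_lit 35076) (S (nat_lit 10977) (S (nat_lit 14894) (S (nat_lit 14500) (L (nat_lit 26628201))
(S (nat_lit 24216) (S (nat_lit 46119) (S (nat_lit 4431) (S (nat_lit 43965) (S (nat_lit 17514) (S (nat_lit 32933) (S (nat_lit 37330) (S (nat_lit 50469) (S (nat_lit 23218) (L (nat_lit 14550388))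
(L (nat_lit 18046753)))
(L (nat_lit 12613287)))
(L (nat_lit 8982320)))
(L (nat_lit 2731451)))
(L (nat_lit 16568512)))
(L (nat_lit 28033031)))
(L (nat_lit 16489312)))
(L (nat_lit 28023232)))
(L (nat_lit 21390657))))
(S (nat_lit 34658) (S (nat_lit 15353) (S (nat_lit 43959) (L (nat_lit 31177767))
(L (nat_lit 11353729)))
(S (nat_lit 37127) (L (nat_lit 13201696))
(L (nat_lit 26780850))))
(S (nat_lit 54422) (S (nat_lit 27617) (S (nat_lit 37322) (L (nat_lit 26263174))
(L (nat_lit 17603730)))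
(L (nat_lit 19169753)))
(L (nat_lit 25836648)))))
(S (nat_lit 30741) (S (nat_lit 24216) (S (nat_lit 30822) (L (nat_lit 17946407))
(S (nat_lit 43965) (S (nat_lit 57072) (S (nat_lit 17071) (L (nat_lit 24001543))
(L (nat_lit 24568064)))
(L (nat_lit 27570784)))
(L (nat_lit 13340519))))
(L (nat_lit 10218881)))
(S (nat_lit 50505) (S (nat_lit 11009) (S (nat_lit 12071) (L (nat_lit 26258899))
(S (nat_lit 49524) (S (nat_lit 17071) (L (nat_lit 9079356))
(L (nat_lit 2547923)))
(L (nat_lit 22160142))))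
(S (nat_lit 30773) (S (nat_lit 37278) (S (nat_lit 18715) (S (nat_lit 26389) (L (nat_lit 3864103))
(L (nat_lit 9106447)))
(L (nat_lit 3859883)))
(L (nat_lit 9157440)))
(S (nat_lit 50537) (S (nat_lit 3871) (L (nat_lit 5788890))
(S (nat_lit 57072) (S (nat_lit 43927) (S (nat_lit 50469) (S (nat_lit 50541) (S (nat_lit 4431) (L (nat_lit 29379918))
(L (nat_lit 18605344)))
(L (nat_lit 12018272)))
(L (nat_lit 27510369)))
(L (nat_lit 12051170)))
(L (nat_lit 6181169))))
(L (nat_lit 25316588)))))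
(L (nat_lit 25772198)))))
(S (nat_lit 54840) (S (nat_lit 15331) (S (nat_lit 10941) (S (nat_lit 13129) (S (nat_lit 27617) (L (nat_lit 24666215))
(L (nat_lit 16444455)))
(L (nat_lit 7353238)))
(S (nat_lit 30705) (S (nat_lit 35087) (S (nat_lit 28571) (S (nat_lit 17071) (S (nat_lit 24216) (S (nat_lit 3940) (S (nat_lit 26353) (L (nat_lit 29590037))
(L (nat_lit 2693528)))
(L (nat_lit 9860212)))
(L (nat_lit 8545747)))
(L (nat_lit 12204154)))
(L (nat_lit 9011771)))
(L (nat_lit 18587739)))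
(S (nat_lit 50469) (S (nat_lit 6115) (S (nat_lit 35087) (L (nat_lit 29379014))
(L (nat_lit 23268923)))
(S (nat_lit 33041) (L (nat_lit 4660019))
(L (nat_lit 26759178))))
(L (nat_lit 25412756)))))
(S (nat_lit 35095) (S (nat_lit 8807) (S (nat_lit 27617) (S (nat_lit 43927) (S (nat_lit 17055) (S (nat_lit 13180) (S (nat_lit 6580) (S (nat_lit 24216) (S (nat_lit 3456) (L (nat_lit 29475529))
(L (nat_lit 19129520)))
(L (nat_lit 8786739)))
(L (nat_lit 12817202)))
(L (nat_lit 6481518)))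
(L (nat_lit 24360708)))
(L (nat_lit 24359682)))
(L (nat_lit 16051936)))
(S (nat_lit 28571) (S (nat_lit 10573) (L (nat_lit 26367370))
(S (nat_lit 56097) (S (nat_lit 49524) (L (nat_lit 3371630))
(L (nat_lit 2315022)))
(L (nat_lit 19267867))))
(S (nat_lit 48335) (S (nat_lit 10522) (S (nat_lit 54851) (L (nat_lit 28528749))
(L (nat_lit 6006573)))
(L (nat_lit 21184261)))
(L (nat_lit 25868548)))))
(S (nat_lit 54859) (S (nat_lit 17544) (S (nat_lit 48335) (S (nat_lit 26355) (S (nat_lit 27617) (S (nat_lit 52686) (S (nat_lit 38513) (S (nat_lit 1727) (S (nat_lit 39584) (S (nat_lit 24216) (S (nat_lit 4431) (L (nat_lit 6438489))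
(L (nat_lit 18605344)))
(L (nat_lit 21375777)))
(L (nat_lit 6036918)))
(L (nat_lit 14473318)))
(L (nat_lit 14255385)))
(L (nat_lit 27343590)))
(L (nat_lit 16616007)))
(L (nat_lit 16012032)))
(L (nat_lit 6050061)))
(S (nat_lit 37308) (S (nat_lit 6596) (S (nat_lit 30705) (S (nat_lit 21531) (L (nat_lit 28365319))
(L (nat_lit 5788587)))
(L (nat_lit 24133415)))
(L (nat_lit 23388709)))
(S (nat_lit 57072) (S (nat_lit 9113) (L (nat_lit 21368093))
(S (nat_lit 46119) (S (nat_lit 24216) (S (nat_lit 21491) (S (nat_lit 43959) (L (nat_lit 2417203))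
(L (nat_lit 28034151)))
(L (nat_lit 6177480)))
(L (nat_lit 22843783)))
(L (nat_lit 27865345))))
(L (nat_lit 25448960)))))
(L (nat_lit 25209457)))))
(L (nat_lit 25927200)))))
(L (nat_lit 25253414)))))
(S (nat_lit 29800) (S (nat_lit 16569) (S (nat_lit 1727) (S (nat_lit 11011) (S (nat_lit 5629) (S (nat_lit 15353) (S (nat_lit 25279) (L (nat_lit 19053382))
(S (nat_lit 41782) (S (nat_lit 32944) (S (nat_lit 43470) (S (nat_lit 28521) (S (nat_lit 40769) (S (nat_lit 15323) (S (nat_lit 10482) (L (nat_lit 16834866))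
(L (nat_lit 23399342)))
(L (nat_lit 15443069)))
(L (nat_lit 25011280)))
(L (nat_lit 9244368)))
(L (nat_lit 9260484)))
(L (nat_lit 15521027)))
(L (nat_lit 6112564))))
(L (nat_lit 1943181)))
(S (nat_lit 25393) (S (nat_lit 18679) (L (nat_lit 14733693))
(S (nat_lit 22427) (L (nat_lit 14733693))
(L (nat_lit 19236283))))
(S (nat_lit 45157) (S (nat_lit 50537) (S (nat_lit 28103) (L (nat_lit 28449485))
(L (nat_lit 14903011)))
(L (nat_lit 13295844)))
(L (nat_lit 25384449)))))
(S (nat_lit 30775) (S (nat_lit 14844) (S (nat_lit 12646) (L (nat_lit 29437463))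
(L (nat_lit 26588805)))
(S (nat_lit 34608) (S (nat_lit 48285) (S (nat_lit 17071) (S (nat_lit 49524) (L (nat_lit 15884970))
(L (nat_lit 22408206)))
(L (nat_lit 24569093)))
(L (nat_lit 12193309)))
(S (nat_lit 54372) (S (nat_lit 2581) (L (nat_lit 11965366))
(S (nat_lit 17071) (L (nat_lit 17981719))
(L (nat_lit 9884795))))
(L (nat_lit 25593545)))))
(S (nat_lit 50539) (S (nat_lit 17558) (S (nat_lit 6580) (L (nat_lit 8541721))
(L (nat_lit 26232023)))
(S (nat_lit 37322) (S (nat_lit 39571) (S (nat_lit 12668) (L (nat_lit 28740264))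
(L (nat_lit 5067272)))
(L (nat_lit 4708105)))
(S (nat_lit 57086) (S (nat_lit 17071) (S (nat_lit 43955) (S (nat_lit 9996) (L (nat_lit 28460407))
(L (nat_lit 10902437)))
(L (nat_lit 11198917)))
(L (nat_lit 2711975)))
(L (nat_lit 25761964)))))
(L (nat_lit 25868393)))))
(S (nat_lit 21491) (S (nat_lit 10522) (S (nat_lit 17514) (S (nat_lit 7853) (S (nat_lit 18749) (S (nat_lit 3454) (L (nat_lit 9598519))
(L (nat_lit 26590945)))
(L (nat_lit 22458144)))
(S (nat_lit 58660) (L (nat_lit 26612423))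
(L (nat_lit 26778675))))
(S (nat_lit 37278) (S (nat_lit 17071) (S (nat_lit 48290) (S (nat_lit 48285) (L (nat_lit 29985287))
(L (nat_lit 20178368)))
(L (nat_lit 13688618)))
(L (nat_lit 14901363)))
(S (nat_lit 57042) (S (nat_lit 28103) (S (nat_lit 25355) (L (nat_lit 26578487))
(L (nat_lit 31049024)))
(L (nat_lit 19096752)))
(L (nat_lit 25677830)))))
(S (nat_lit 30286) (S (nat_lit 28) (S (nat_lit 28562) (S (nat_lit 37330) (L (nat_lit 2705191))
(L (nat_lit 10335875)))
(L (nat_lit 13198597)))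
(S (nat_lit 19792) (S (nat_lit 48292) (S (nat_lit 14894) (L (nat_lit 24340622))
(L (nat_lit 2673884)))
(L (nat_lit 22062924)))
(S (nat_lit 39556) (S (nat_lit 25198) (L (nat_lit 15553546))
(S (nat_lit 35117) (S (nat_lit 32432) (L (nat_lit 2608349))
(L (nat_lit 24552473)))
(L (nat_lit 13214565))))
(L (nat_lit 25282767)))))
(S (nat_lit 50050) (S (nat_lit 45941) (L (nat_lit 1268561))
(S (nat_lit 54422) (S (nat_lit 34172) (S (nat_lit 8277) (S (nat_lit 4452) (S (nat_lit 39556) (S (nat_lit 24191) (S (nat_lit 15323) (S (nat_lit 58243) (S (nat_lit 1241) (S (nat_lit 43927) (S (nat_lit 25355) (L (nat_lit 14721692))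
(L (nat_lit 17637984)))
(L (nat_lit 14933763)))
(L (nat_lit 11295825)))
(L (nat_lit 2867078)))
(L (nat_lit 8139461)))
(L (nat_lit 8477484)))
(L (nat_lit 17911004)))
(L (nat_lit 7214801)))
(L (nat_lit 4925976)))
(L (nat_lit 6382098)))
(L (nat_lit 21182584))))
(L (nat_lit 25867552)))))
(S (nat_lit 41255) (S (nat_lit 3940) (S (nat_lit 10977) (S (nat_lit 35138) (S (nat_lit 32933) (L (nat_lit 23228656))
(L (nat_lit 9127749)))
(L (nat_lit 18216677)))
(S (nat_lit 30741) (S (nat_lit 35138) (S (nat_lit 47867) (L (nat_lit 10256919))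
(L (nat_lit 8938211)))
(L (nat_lit 13176651)))
(S (nat_lit 50505) (S (nat_lit 54881) (S (nat_lit 5591) (S (nat_lit 26344) (S (nat_lit 39571) (L (nat_lit 22070521))
(L (nat_lit 23537411)))
(L (nat_lit 8819543)))
(L (nat_lit 9211500)))
(L (nat_lit 15993682)))
(L (nat_lit 25250182)))))
(S (nat_lit 23704) (S (nat_lit 13129) (S (nat_lit 41735) (S (nat_lit 10941) (S (nat_lit 10977) (L (nat_lit 16353560))
(L (nat_lit 908623)))
(L (nat_lit 17850982)))
(L (nat_lit 24338948)))
(S (nat_lit 32893) (S (nat_lit 8277) (S (nat_lit 10941) (L (nat_lit 24371244))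
(L (nat_lit 23266776)))
(S (nat_lit 43406) (L (nat_lit 23291301))
(L (nat_lit 21397720))))
(S (nat_lit 52657) (S (nat_lit 54422) (S (nat_lit 40809) (S (nat_lit 35095) (L (nat_lit 3561689))
(L (nat_lit 18048707)))
(L (nat_lit 17832603)))
(L (nat_lit 17878790)))
(L (nat_lit 25364111)))))
(S (nat_lit 43468) (S (nat_lit 15323) (S (nat_lit 17071) (S (nat_lit 41735) (S (nat_lit 8807) (L (nat_lit 7200160))
(L (nat_lit 23585028)))
(L (nat_lit 23322669)))
(S (nat_lit 53751) (L (nat_lit 22456197))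
(L (nat_lit 24175082))))
(S (nat_lit 35087) (S (nat_lit 28562) (S (nat_lit 3456) (S (nat_lit 52708) (L (nat_lit 19456259))
(L (nat_lit 21115161)))
(L (nat_lit 9134597)))
(L (nat_lit 9190981)))
(S (nat_lit 54851) (S (nat_lit 22018) (S (nat_lit 6580) (L (nat_lit 3599570))
(L (nat_lit 6309594)))
(L (nat_lit 9285748)))
(L (nat_lit 25221515)))))
(L (nat_lit 25506932)))))
(L (nat_lit 25565921)))))
(S (nat_lit 36333) (S (nat_lit 13150) (S (nat_lit 28) (S (nat_lit 1727) (S (nat_lit 12668) (S (nat_lit 56) (S (nat_lit 3456) (S (nat_lit 6589) (S (nat_lit 43955) (L (nat_lit 17652743))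
(L (nat_lit 12214661)))
(L (nat_lit 13474866)))
(L (nat_lit 10576494)))
(S (nat_lit 6068) (L (nat_lit 12724150))
(L (nat_lit 13342780))))
(S (nat_lit 17960) (L (nat_lit 12281009))
(L (nat_lit 12148750))))
(S (nat_lit 21491) (S (nat_lit 12668) (S (nat_lit 18715) (S (nat_lit 46153) (L (nat_lit 18729153))
(L (nat_lit 18686659)))
(L (nat_lit 26557494)))
(S (nat_lit 20347) (L (nat_lit 26917894))
(L (nat_lit 2696733))))
(S (nat_lit 41255) (S (nat_lit 10482) (S (nat_lit 12668) (S (nat_lit 27617) (S (nat_lit 10941) (S (nat_lit 6589) (L (nat_lit 28384821))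
(L (nat_lit 21268238)))
(L (nat_lit 21225857)))
(L (nat_lit 30418513)))
(S (nat_lit 44141) (L (nat_lit 4924301))
(L (nat_lit 26564782))))
(S (nat_lit 32532) (L (nat_lit 2005649))
(L (nat_lit 15459522))))
(L (nat_lit 25314022)))))
(S (nat_lit 19792) (S (nat_lit 11013) (S (nat_lit 8339) (S (nat_lit 5629) (S (nat_lit 12668) (L (nat_lit 30051566))
(L (nat_lit 18682099)))
(L (nat_lit 18213540)))
(S (nat_lit 17375) (L (nat_lit 12641588))
(L (nat_lit 12635976))))
(S (nat_lit 30777) (S (nat_lit 12668) (S (nat_lit 24163) (S (nat_lit 18715) (L (nat_lit 4018512))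
(L (nat_lit 18178198)))
(L (nat_lit 21226669)))
(L (nat_lit 9462195)))
(S (nat_lit 50541) (S (nat_lit 35703) (L (nat_lit 11592150))
(S (nat_lit 43927) (S (nat_lit 8339) (S (nat_lit 12668) (S (nat_lit 8762) (S (nat_lit 28562) (L (nat_lit 1683772))
(L (nat_lit 18113619)))
(L (nat_lit 6342483)))
(L (nat_lit 12423699)))
(L (nat_lit 4409173)))
(L (nat_lit 11557340))))
(L (nat_lit 25629044)))))
(S (nat_lit 39556) (S (nat_lit 2195) (S (nat_lit 27617) (S (nat_lit 58763) (S (nat_lit 18715) (S (nat_lit 17071) (S (nat_lit 36819) (S (nat_lit 37338) (S (nat_lit 23524) (L (nat_lit 21118858))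
(L (nat_lit 26911889)))
(L (nat_lit 10270869)))
(L (nat_lit 12816213)))
(L (nat_lit 22470848)))
(S (nat_lit 33245) (L (nat_lit 18649397))
(L (nat_lit 18633771))))
(L (nat_lit 13213537)))
(S (nat_lit 47291) (L (nat_lit 18449693))
(L (nat_lit 24667328))))
(S (nat_lit 21959) (S (nat_lit 24546) (L (nat_lit 17866394))
(S (nat_lit 54422) (S (nat_lit 47805) (S (nat_lit 32410) (S (nat_lit 12668) (S (nat_lit 4431) (S (nat_lit 7853) (L (nat_lit 8305843))
(L (nat_lit 13541090)))
(L (nat_lit 20389729)))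
(L (nat_lit 18179251)))
(L (nat_lit 8061773)))
(L (nat_lit 6373142)))
(L (nat_lit 18685571))))
(S (nat_lit 41723) (S (nat_lit 5560) (S (nat_lit 20379) (L (nat_lit 24605738))
(L (nat_lit 17065011)))
(S (nat_lit 58763) (S (nat_lit 47381) (S (nat_lit 24191) (S (nat_lit 29760) (S (nat_lit 53936) (S (nat_lit 36819) (S (nat_lit 33124) (L (nat_lit 290382))
(L (nat_lit 22855973)))
(L (nat_lit 18181269)))
(L (nat_lit 7901850)))
(L (nat_lit 13183004)))
(L (nat_lit 22340748)))
(L (nat_lit 18455610)))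
(L (nat_lit 1580794))))
(L (nat_lit 25205174)))))
(L (nat_lit 25461327)))))
(S (nat_lit 32914) (S (nat_lit 9996) (S (nat_lit 13169) (S (nat_lit 3454) (S (nat_lit 6115) (L (nat_lit 2610460))
(L (nat_lit 16620564)))
(S (nat_lit 18100) (L (nat_lit 23462696))
(L (nat_lit 20788452))))
(S (nat_lit 32933) (S (nat_lit 12668) (S (nat_lit 26344) (S (nat_lit 32922) (L (nat_lit 5127415))
(L (nat_lit 23388576)))
(L (nat_lit 24175855)))
(S (nat_lit 42138) (L (nat_lit 12148879))
(L (nat_lit 18427069))))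
(S (nat_lit 52697) (S (nat_lit 47805) (S (nat_lit 17514) (S (nat_lit 28571) (L (nat_lit 29595375))
(L (nat_lit 18731269)))
(L (nat_lit 18043681)))
(L (nat_lit 18211892)))
(L (nat_lit 25281780)))))
(S (nat_lit 29760) (S (nat_lit 1767) (S (nat_lit 6215) (L (nat_lit 4579799))
(S (nat_lit 50469) (S (nat_lit 3454) (L (nat_lit 8946360))
(L (nat_lit 20487195)))
(L (nat_lit 27475126))))
(S (nat_lit 21531) (S (nat_lit 30705) (S (nat_lit 37278) (L (nat_lit 23126254))
(L (nat_lit 13849472)))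
(L (nat_lit 13849376)))
(S (nat_lit 41295) (S (nat_lit 35095) (S (nat_lit 50537) (L (nat_lit 2520744))
(L (nat_lit 15488010)))
(L (nat_lit 30462505)))
(L (nat_lit 25219561)))))
(S (nat_lit 49524) (S (nat_lit 24191) (S (nat_lit 19820) (S (nat_lit 36819) (S (nat_lit 18715) (S (nat_lit 54422) (S (nat_lit 50010) (S (nat_lit 15323) (S (nat_lit 47319) (S (nat_lit 43927) (S (nat_lit 41570) (L (nat_lit 7486109))
(L (nat_lit 16832331)))
(L (nat_lit 27778216)))
(L (nat_lit 8306277)))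
(L (nat_lit 22810154)))
(L (nat_lit 8784726)))
(L (nat_lit 19741734)))
(L (nat_lit 8509261)))
(L (nat_lit 31142987)))
(S (nat_lit 29854) (L (nat_lit 20072265))
(L (nat_lit 22159185))))
(S (nat_lit 56674) (L (nat_lit 10040348))
(L (nat_lit 10229206))))
(L (nat_lit 25219310)))))
(S (nat_lit 52678) (S (nat_lit 12160) (S (nat_lit 10977) (S (nat_lit 58365) (L (nat_lit 18780533))
(L (nat_lit 1880747)))
(S (nat_lit 30741) (S (nat_lit 45157) (S (nat_lit 57086) (L (nat_lit 7495437))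
(L (nat_lit 15467890)))
(L (nat_lit 13408932)))
(S (nat_lit 50505) (S (nat_lit 36349) (S (nat_lit 54422) (S (nat_lit 57072) (L (nat_lit 8469147))
(L (nat_lit 21803264)))
(L (nat_lit 18620033)))
(L (nat_lit 18145057)))
(L (nat_lit 25446784)))))
(S (nat_lit 31924) (S (nat_lit 4452) (S (nat_lit 2195) (S (nat_lit 2226) (S (nat_lit 43927) (S (nat_lit 41255) (L (nat_lit 3742573))
(L (nat_lit 17914074)))
(L (nat_lit 12130061)))
(L (nat_lit 19738726)))
(S (nat_lit 43740) (S (nat_lit 36819) (S (nat_lit 28571) (L (nat_lit 4862823))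
(L (nat_lit 31038575)))
(L (nat_lit 30984546)))
(L (nat_lit 6914557))))
(S (nat_lit 24216) (S (nat_lit 43965) (S (nat_lit 36349) (S (nat_lit 27617) (S (nat_lit 6077) (L (nat_lit 29609996))
(L (nat_lit 18647414)))
(L (nat_lit 24943760)))
(L (nat_lit 18653203)))
(L (nat_lit 12302177)))
(S (nat_lit 43980) (S (nat_lit 30177) (L (nat_lit 17833722))
(S (nat_lit 52657) (S (nat_lit 30741) (L (nat_lit 30904659))
(L (nat_lit 31176000)))
(L (nat_lit 12289870))))
(L (nat_lit 25923919)))))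
(S (nat_lit 51688) (S (nat_lit 5591) (S (nat_lit 21531) (S (nat_lit 37308) (L (nat_lit 28869874))
(L (nat_lit 30846071)))
(L (nat_lit 30972947)))
(L (nat_lit 18441472)))
(L (nat_lit 25517165)))))
(L (nat_lit 25886958)))))
(S (nat_lit 56097) (S (nat_lit 10941) (S (nat_lit 17514) (S (nat_lit 19235) (S (nat_lit 5591) (S (nat_lit 24191) (L (nat_lit 29917895))
(L (nat_lit 9889509)))
(L (nat_lit 16534850)))
(S (nat_lit 38999) (S (nat_lit 12099) (L (nat_lit 17883379))
(S (nat_lit 25393) (S (nat_lit 15312) (L (nat_lit 14710438))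
(L (nat_lit 6349520)))
(L (nat_lit 22241796))))
(S (nat_lit 58763) (S (nat_lit 4431) (S (nat_lit 47867) (S (nat_lit 24191) (S (nat_lit 54422) (S (nat_lit 11013) (S (nat_lit 10977) (S (nat_lit 25393) (L (nat_lit 29376852))
(L (nat_lit 6817557)))
(L (nat_lit 7457240)))
(L (nat_lit 16380039)))
(L (nat_lit 8437586)))
(L (nat_lit 21768366)))
(L (nat_lit 6938641)))
(S (nat_lit 32554) (L (nat_lit 26358375))
(L (nat_lit 1533575))))
(L (nat_lit 25599715)))))
(S (nat_lit 37278) (S (nat_lit 29760) (S (nat_lit 25393) (S (nat_lit 54859) (S (nat_lit 58763) (S (nat_lit 4431) (L (nat_lit 4923150))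
(L (nat_lit 16653395)))
(L (nat_lit 12605816)))
(L (nat_lit 15782697)))
(L (nat_lit 1266448)))
(L (nat_lit 6345520)))
(S (nat_lit 57042) (S (nat_lit 15331) (S (nat_lit 26344) (S (nat_lit 43468) (S (nat_lit 29760) (L (nat_lit 29579683))
(L (nat_lit 6345582)))
(L (nat_lit 27494092)))
(L (nat_lit 18918222)))
(S (nat_lit 35095) (L (nat_lit 12800155))
(S (nat_lit 54859) (S (nat_lit 9996) (S (nat_lit 21531) (S (nat_lit 58763) (L (nat_lit 535225))
(L (nat_lit 20997670)))
(L (nat_lit 14898084)))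
(L (nat_lit 14734250)))
(L (nat_lit 25859345)))))
(L (nat_lit 25184743)))))
(S (nat_lit 30705) (S (nat_lit 8277) (S (nat_lit 15374) (S (nat_lit 37116) (L (nat_lit 19267962))
(L (nat_lit 19235356)))
(S (nat_lit 35138) (S (nat_lit 1727) (S (nat_lit 14358) (S (nat_lit 45157) (S (nat_lit 37330) (L (nat_lit 5646133))
(L (nat_lit 2930249)))
(L (nat_lit 9496240)))
(L (nat_lit 26660906)))
(L (nat_lit 4584983)))
(S (nat_lit 54902) (S (nat_lit 17071) (S (nat_lit 50050) (S (nat_lit 24191) (L (nat_lit 28878007))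
(L (nat_lit 10107749)))
(L (nat_lit 6349335)))
(L (nat_lit 2548947)))
(L (nat_lit 25529007)))))
(S (nat_lit 28041) (S (nat_lit 10977) (S (nat_lit 39571) (S (nat_lit 46108) (S (nat_lit 23706) (L (nat_lit 19441536))
(L (nat_lit 22841646)))
(L (nat_lit 18557795)))
(S (nat_lit 41911) (L (nat_lit 26781408))
(L (nat_lit 18745684))))
(S (nat_lit 30741) (S (nat_lit 57042) (S (nat_lit 4431) (S (nat_lit 3942) (S (nat_lit 54840) (L (nat_lit 17533272))
(L (nat_lit 14327585)))
(L (nat_lit 11986530)))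
(L (nat_lit 7824498)))
(L (nat_lit 18899495)))
(S (nat_lit 50505) (S (nat_lit 39577) (S (nat_lit 52678) (S (nat_lit 17071) (S (nat_lit 45157) (S (nat_lit 58763) (S (nat_lit 12646) (L (nat_lit 516470))
(L (nat_lit 12367488)))
(L (nat_lit 19802254)))
(L (nat_lit 25048420)))
(L (nat_lit 2318924)))
(L (nat_lit 11121724)))
(L (nat_lit 10969205)))
(L (nat_lit 25441430)))))
(S (nat_lit 47805) (S (nat_lit 6580) (S (nat_lit 28521) (S (nat_lit 5629) (L (nat_lit 29400654))
(L (nat_lit 19306554)))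
(L (nat_lit 18078778)))
(S (nat_lit 26344) (S (nat_lit 1767) (S (nat_lit 19820) (L (nat_lit 18041669))
(L (nat_lit 22158777)))
(L (nat_lit 10158925)))
(S (nat_lit 46108) (S (nat_lit 8762) (S (nat_lit 54851) (L (nat_lit 11691543))
(L (nat_lit 27272815)))
(L (nat_lit 17566442)))
(L (nat_lit 25570946)))))
(L (nat_lit 25312873)))))
(S (nat_lit 50469) (S (nat_lit 17055) (S (nat_lit 17574) (S (nat_lit 21045) (S (nat_lit 28526) (S (nat_lit 41735) (L (nat_lit 4409107))
(L (nat_lit 11583066)))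
(L (nat_lit 12592729)))
(L (nat_lit 22045036)))
(S (nat_lit 37338) (S (nat_lit 27966) (L (nat_lit 5026070))
(S (nat_lit 58277) (S (nat_lit 24216) (S (nat_lit 14844) (L (nat_lit 17681414))
(L (nat_lit 13422761)))
(L (nat_lit 22439265)))
(L (nat_lit 12969140))))
(S (nat_lit 57102) (S (nat_lit 3942) (S (nat_lit 52657) (L (nat_lit 19304201))
(L (nat_lit 11962195)))
(L (nat_lit 19096066)))
(L (nat_lit 25532049)))))
(S (nat_lit 36819) (S (nat_lit 3456) (S (nat_lit 13129) (S (nat_lit 43927) (L (nat_lit 28738898))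
(L (nat_lit 11592149)))
(S (nat_lit 30357) (L (nat_lit 14708426))
(L (nat_lit 1270294))))
(S (nat_lit 23220) (S (nat_lit 3022) (L (nat_lit 12470444))
(S (nat_lit 52196) (S (nat_lit 39571) (S (nat_lit 1281) (S (nat_lit 35095) (S (nat_lit 45643) (S (nat_lit 8798) (L (nat_lit 21064944))
(L (nat_lit 21050652)))
(L (nat_lit 7229613)))
(L (nat_lit 23325809)))
(L (nat_lit 19951082)))
(L (nat_lit 6181198)))
(L (nat_lit 22030220))))
(S (nat_lit 42984) (S (nat_lit 8762) (L (nat_lit 20980187))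
(S (nat_lit 23786) (S (nat_lit 877) (L (nat_lit 20111815))
(L (nat_lit 14937205)))
(L (nat_lit 1306349))))
(L (nat_lit 25610344)))))
(S (nat_lit 56583) (S (nat_lit 14358) (S (nat_lit 28502) (L (nat_lit 2926316))
(S (nat_lit 39571) (S (nat_lit 26353) (S (nat_lit 5629) (L (nat_lit 6181071))
(L (nat_lit 8442299)))
(L (nat_lit 3658568)))
(L (nat_lit 27763893))))
(S (nat_lit 34122) (S (nat_lit 25202) (L (nat_lit 7222386))
(S (nat_lit 40809) (S (nat_lit 6115) (S (nat_lit 50010) (L (nat_lit 23241552))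
(L (nat_lit 6319792)))
(L (nat_lit 11562421)))
(L (nat_lit 23637147))))
(S (nat_lit 53886) (S (nat_lit 2171) (L (nat_lit 18764967))
(S (nat_lit 40809) (S (nat_lit 42984) (S (nat_lit 17071) (L (nat_lit 16802410))
(L (nat_lit 9495116)))
(L (nat_lit 8066523)))
(L (nat_lit 18548093))))
(L (nat_lit 25496055)))))
(L (nat_lit 25179445)))))
(L (nat_lit 25743680)))))
(L (nat_lit 25377909)))))
(S (nat_lit 49564) (S (nat_lit 8277) (S (nat_lit 15331) (S (nat_lit 6077) (S (nat_lit 1241) (S (nat_lit 5591) (S (nat_lit 10977) (S (nat_lit 57072) (L (nat_lit 29950342))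
(L (nat_lit 15327489)))
(L (nat_lit 26298822)))
(L (nat_lit 16556642)))
(S (nat_lit 21005) (S (nat_lit 48292) (S (nat_lit 10941) (L (nat_lit 6448812))
(L (nat_lit 16515414)))
(L (nat_lit 15771257)))
(S (nat_lit 40769) (S (nat_lit 9123) (L (nat_lit 12355276))
(S (nat_lit 28562) (S (nat_lit 32432) (S (nat_lit 19807) (S (nat_lit 53936) (L (nat_lit 26290581))
(L (nat_lit 18689106)))
(L (nat_lit 22317870)))
(L (nat_lit 24349452)))
(L (nat_lit 10206329))))
(L (nat_lit 25797712)))))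
(S (nat_lit 25841) (S (nat_lit 18715) (S (nat_lit 23218) (S (nat_lit 1281) (S (nat_lit 23704) (S (nat_lit 15323) (L (nat_lit 28544467))
(L (nat_lit 24364900)))
(L (nat_lit 30661745)))
(L (nat_lit 26459781)))
(L (nat_lit 22396769)))
(S (nat_lit 38479) (S (nat_lit 28) (S (nat_lit 48335) (S (nat_lit 52657) (L (nat_lit 3600691))
(L (nat_lit 10531670)))
(L (nat_lit 12053619)))
(L (nat_lit 7156322)))
(S (nat_lit 58243) (S (nat_lit 10941) (S (nat_lit 21971) (S (nat_lit 47319) (S (nat_lit 5591) (S (nat_lit 21005) (L (nat_lit 12741878))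
(L (nat_lit 22881794)))
(L (nat_lit 19676482)))
(L (nat_lit 27541091)))
(L (nat_lit 9485947)))
(L (nat_lit 7093857)))
(L (nat_lit 25726667)))))
(S (nat_lit 45605) (S (nat_lit 8339) (S (nat_lit 23220) (S (nat_lit 13129) (S (nat_lit 8762) (S (nat_lit 43980) (S (nat_lit 4399) (L (nat_lit 1263353))
(L (nat_lit 26466480)))
(L (nat_lit 24580934)))
(L (nat_lit 26423413)))
(L (nat_lit 13369686)))
(L (nat_lit 12881532)))
(S (nat_lit 28103) (S (nat_lit 10977) (S (nat_lit 45157) (S (nat_lit 42982) (L (nat_lit 14010457))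
(L (nat_lit 24943628)))
(L (nat_lit 14902945)))
(S (nat_lit 22604) (L (nat_lit 21022075))
(L (nat_lit 543097))))
(S (nat_lit 47867) (S (nat_lit 17071) (S (nat_lit 14358) (S (nat_lit 43955) (S (nat_lit 50541) (L (nat_lit 14821976))
(L (nat_lit 11198912)))
(L (nat_lit 12234906)))
(L (nat_lit 13377123)))
(L (nat_lit 26268940)))
(L (nat_lit 25380579)))))
(L (nat_lit 25308748)))))
(S (nat_lit 35095) (S (nat_lit 10482) (S (nat_lit 4431) (S (nat_lit 38999) (S (nat_lit 38513) (S (nat_lit 39577) (L (nat_lit 4646603))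
(L (nat_lit 10576559)))
(L (nat_lit 6349486)))
(L (nat_lit 20454489)))
(S (nat_lit 24195) (S (nat_lit 21990) (S (nat_lit 24201) (S (nat_lit 30741) (L (nat_lit 8834945))
(L (nat_lit 10226289)))
(L (nat_lit 3629267)))
(L (nat_lit 21553408)))
(S (nat_lit 43959) (S (nat_lit 35138) (S (nat_lit 45643) (S (nat_lit 42984) (L (nat_lit 2312085))
(L (nat_lit 13880445)))
(L (nat_lit 23303609)))
(L (nat_lit 9593362)))
(L (nat_lit 25925713)))))
(S (nat_lit 30246) (S (nat_lit 1767) (S (nat_lit 30286) (S (nat_lit 13150) (L (nat_lit 245590))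
(L (nat_lit 13442786)))
(L (nat_lit 18041944)))
(S (nat_lit 21531) (S (nat_lit 5201) (L (nat_lit 22045129))
(S (nat_lit 26355) (S (nat_lit 52196) (S (nat_lit 56583) (L (nat_lit 22113549))
(L (nat_lit 9036226)))
(L (nat_lit 3911468)))
(L (nat_lit 3429292))))
(S (nat_lit 41295) (S (nat_lit 10522) (S (nat_lit 22018) (L (nat_lit 27663412))
(L (nat_lit 8836216)))
(S (nat_lit 16498) (S (nat_lit 19807) (L (nat_lit 3988749))
(L (nat_lit 2422293)))
(L (nat_lit 9492268))))
(L (nat_lit 25897412)))))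
(S (nat_lit 50010) (S (nat_lit 15323) (S (nat_lit 24083) (L (nat_lit 26259670))
(S (nat_lit 48290) (S (nat_lit 14358) (S (nat_lit 31924) (S (nat_lit 53936) (S (nat_lit 26353) (L (nat_lit 19073432))
(L (nat_lit 3952847)))
(L (nat_lit 10243584)))
(L (nat_lit 7161965)))
(L (nat_lit 13411939)))
(L (nat_lit 27483524))))
(S (nat_lit 51652) (S (nat_lit 48290) (L (nat_lit 5129492))
(L (nat_lit 20181103)))
(L (nat_lit 24145165))))
(L (nat_lit 25508514)))))
(S (nat_lit 54859) (S (nat_lit 18749) (S (nat_lit 8339) (S (nat_lit 9996) (S (nat_lit 17071) (S (nat_lit 47381) (L (nat_lit 26289804))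
(L (nat_lit 17031315)))
(L (nat_lit 22241329)))
(S (nat_lit 53071) (L (nat_lit 9190978))
(L (nat_lit 26433614))))
(S (nat_lit 28103) (S (nat_lit 10809) (L (nat_lit 21012024))
(S (nat_lit 16569) (S (nat_lit 17071) (S (nat_lit 30773) (S (nat_lit 48292) (L (nat_lit 8838201))
(L (nat_lit 16409922)))
(L (nat_lit 14472420)))
(L (nat_lit 22221713)))
(L (nat_lit 10537497))))
(S (nat_lit 47867) (S (nat_lit 50541) (S (nat_lit 43468) (S (nat_lit 56097) (L (nat_lit 15805302))
(L (nat_lit 14377285)))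
(L (nat_lit 23093452)))
(L (nat_lit 12247424)))
(L (nat_lit 25378995)))))
(S (nat_lit 38513) (S (nat_lit 6589) (S (nat_lit 193) (S (nat_lit 38999) (L (nat_lit 23990760))
(L (nat_lit 8061497)))
(S (nat_lit 39577) (S (nat_lit 35117) (S (nat_lit 16569) (S (nat_lit 42982) (L (nat_lit 29034923))
(L (nat_lit 7485145)))
(L (nat_lit 15303001)))
(L (nat_lit 12847769)))
(L (nat_lit 23388238))))
(S (nat_lit 26353) (S (nat_lit 6077) (S (nat_lit 3942) (L (nat_lit 19019689))
(L (nat_lit 19325284)))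
(L (nat_lit 11690606)))
(S (nat_lit 46117) (S (nat_lit 3942) (S (nat_lit 10482) (S (nat_lit 32922) (L (nat_lit 25069962))
(L (nat_lit 2744525)))
(L (nat_lit 4612715)))
(L (nat_lit 12305188)))
(L (nat_lit 25631363)))))
(S (nat_lit 58277) (S (nat_lit 14358) (S (nat_lit 30286) (S (nat_lit 32789) (L (nat_lit 24129849))
(S (nat_lit 38999) (S (nat_lit 17071) (S (nat_lit 56583) (S (nat_lit 53936) (S (nat_lit 28) (S (nat_lit 21990) (S (nat_lit 25355) (L (nat_lit 17943801))
(L (nat_lit 14559350)))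
(L (nat_lit 17934258)))
(L (nat_lit 14490644)))
(L (nat_lit 2674505)))
(L (nat_lit 9228738)))
(L (nat_lit 2548947)))
(L (nat_lit 636806))))
(L (nat_lit 5946744)))
(S (nat_lit 55967) (S (nat_lit 14250) (L (nat_lit 16392218))
(L (nat_lit 16042818)))
(L (nat_lit 22808781))))
(L (nat_lit 25367026)))))
(L (nat_lit 25382988)))))
(S (nat_lit 28041) (S (nat_lit 13180) (S (nat_lit 12160) (S (nat_lit 3456) (S (nat_lit 24235) (S (nat_lit 19807) (L (nat_lit 26905806))
(L (nat_lit 3658072)))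
(S (nat_lit 43927) (S (nat_lit 50539) (S (nat_lit 39346) (L (nat_lit 7434864))
(L (nat_lit 616717)))
(L (nat_lit 27661586)))
(L (nat_lit 12607828))))
(S (nat_lit 23220) (S (nat_lit 4399) (S (nat_lit 30705) (L (nat_lit 30117387))
(L (nat_lit 24616122)))
(L (nat_lit 6806714)))
(S (nat_lit 42984) (S (nat_lit 6115) (S (nat_lit 12668) (S (nat_lit 17544) (S (nat_lit 34172) (L (nat_lit 17832882))
(L (nat_lit 20177408)))
(L (nat_lit 24442272)))
(L (nat_lit 10052782)))
(S (nat_lit 7961) (L (nat_lit 18923370))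
(L (nat_lit 2760560))))
(L (nat_lit 25662803)))))
(S (nat_lit 31924) (S (nat_lit 13129) (S (nat_lit 10941) (S (nat_lit 48326) (S (nat_lit 8807) (L (nat_lit 14483731))
(L (nat_lit 21405541)))
(L (nat_lit 14472298)))
(S (nat_lit 30705) (S (nat_lit 6596) (S (nat_lit 6591) (S (nat_lit 56) (S (nat_lit 43468) (S (nat_lit 13150) (S (nat_lit 50050) (L (nat_lit 3023383))
(L (nat_lit 16602250)))
(L (nat_lit 7144175)))
(L (nat_lit 13983552)))
(L (nat_lit 13500630)))
(L (nat_lit 12878710)))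
(L (nat_lit 12903603)))
(S (nat_lit 50469) (S (nat_lit 28528) (S (nat_lit 13150) (S (nat_lit 25393) (L (nat_lit 22066394))
(L (nat_lit 22246916)))
(L (nat_lit 22879650)))
(L (nat_lit 30618211)))
(L (nat_lit 25219526)))))
(S (nat_lit 32893) (S (nat_lit 24201) (S (nat_lit 19807) (S (nat_lit 40809) (S (nat_lit 10482) (L (nat_lit 927158))
(L (nat_lit 26628290)))
(L (nat_lit 10293715)))
(L (nat_lit 22330211)))
(S (nat_lit 43893) (S (nat_lit 4431) (L (nat_lit 214835))
(L (nat_lit 6440819)))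
(L (nat_lit 8544879))))
(S (nat_lit 52657) (S (nat_lit 19885) (L (nat_lit 5061842))
(S (nat_lit 39577) (S (nat_lit 22018) (S (nat_lit 56113) (L (nat_lit 432794))
(L (nat_lit 27563446)))
(L (nat_lit 18666755)))
(L (nat_lit 17916585))))
(L (nat_lit 25613448)))))
(S (nat_lit 51688) (S (nat_lit 6596) (S (nat_lit 13090) (S (nat_lit 12118) (L (nat_lit 278170))
(L (nat_lit 22382445)))
(S (nat_lit 14844) (S (nat_lit 21959) (S (nat_lit 36349) (L (nat_lit 29605046))
(L (nat_lit 12139364)))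
(L (nat_lit 10027885)))
(L (nat_lit 22158189))))
(S (nat_lit 58231) (L (nat_lit 24273263))
(L (nat_lit 26804779))))
(L (nat_lit 25348429)))))
(S (nat_lit 32944) (S (nat_lit 28) (S (nat_lit 12668) (S (nat_lit 26344) (S (nat_lit 27555) (S (nat_lit 19807) (S (nat_lit 17514) (S (nat_lit 56097) (S (nat_lit 24201) (S (nat_lit 17071) (S (nat_lit 37322) (L (nat_lit 9583225))
(L (nat_lit 31014026)))
(L (nat_lit 10031611)))
(L (nat_lit 3564134)))
(L (nat_lit 19456323)))
(L (nat_lit 26415669)))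
(L (nat_lit 10238659)))
(L (nat_lit 15032997)))
(L (nat_lit 10306610)))
(S (nat_lit 52052) (S (nat_lit 40488) (L (nat_lit 26597922))
(L (nat_lit 16602338)))
(L (nat_lit 11723342))))
(S (nat_lit 19792) (S (nat_lit 56097) (S (nat_lit 35507) (L (nat_lit 10084800))
(S (nat_lit 48335) (S (nat_lit 53886) (S (nat_lit 12668) (L (nat_lit 20185870))
(L (nat_lit 18440515)))
(L (nat_lit 3055095)))
(L (nat_lit 27892847))))
(L (nat_lit 9995125)))
(S (nat_lit 39556) (S (nat_lit 19952) (S (nat_lit 19820) (L (nat_lit 14837047))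
(L (nat_lit 16548459)))
(S (nat_lit 48335) (S (nat_lit 19820) (S (nat_lit 56097) (S (nat_lit 53886) (S (nat_lit 17558) (L (nat_lit 2760590))
(L (nat_lit 16078756)))
(L (nat_lit 21323917)))
(L (nat_lit 10018935)))
(L (nat_lit 22544633)))
(L (nat_lit 5069355))))
(L (nat_lit 25854158)))))
(S (nat_lit 52708) (S (nat_lit 6589) (S (nat_lit 6199) (S (nat_lit 10482) (L (nat_lit 6105618))
(L (nat_lit 9855030)))
(S (nat_lit 53886) (S (nat_lit 17071) (S (nat_lit 38999) (S (nat_lit 56583) (S (nat_lit 34172) (S (nat_lit 50050) (S (nat_lit 26360) (S (nat_lit 43927) (S (nat_lit 3940) (L (nat_lit 15977628))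
(L (nat_lit 11951227)))
(L (nat_lit 11000985)))
(L (nat_lit 19661322)))
(L (nat_lit 22887498)))
(L (nat_lit 31013897)))
(L (nat_lit 13816187)))
(L (nat_lit 19952940)))
(S (nat_lit 36763) (L (nat_lit 1537299))
(L (nat_lit 22536448))))
(L (nat_lit 21404731))))
(S (nat_lit 26353) (S (nat_lit 11011) (S (nat_lit 53886) (S (nat_lit 21990) (L (nat_lit 8273600))
(L (nat_lit 21291118)))
(L (nat_lit 27689576)))
(S (nat_lit 30775) (S (nat_lit 34658) (S (nat_lit 1767) (S (nat_lit 56097) (S (nat_lit 43980) (L (nat_lit 8972995))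
(L (nat_lit 27629010)))
(L (nat_lit 19292483)))
(L (nat_lit 9962323)))
(L (nat_lit 16328825)))
(S (nat_lit 50539) (S (nat_lit 17071) (S (nat_lit 6115) (L (nat_lit 28943373))
(L (nat_lit 5068202)))
(L (nat_lit 2711756)))
(L (nat_lit 25539298)))))
(S (nat_lit 46117) (S (nat_lit 6077) (S (nat_lit 12668) (S (nat_lit 41735) (S (nat_lit 48326) (S (nat_lit 56097) (S (nat_lit 34658) (S (nat_lit 21531) (S (nat_lit 57072) (S (nat_lit 32922) (L (nat_lit 2315737))
(L (nat_lit 10075164)))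
(L (nat_lit 11657655)))
(L (nat_lit 16507108)))
(L (nat_lit 16348198)))
(L (nat_lit 16110437)))
(L (nat_lit 4776522)))
(L (nat_lit 16343051)))
(L (nat_lit 18687553)))
(S (nat_lit 25841) (S (nat_lit 28) (S (nat_lit 9996) (S (nat_lit 56) (L (nat_lit 1923310))
(L (nat_lit 7497142)))
(L (nat_lit 6138358)))
(L (nat_lit 19194274)))
(S (nat_lit 45605) (S (nat_lit 54252) (L (nat_lit 31011910))
(S (nat_lit 56097) (S (nat_lit 34172) (S (nat_lit 21005) (L (nat_lit 4814060))
(L (nat_lit 12157808)))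
(L (nat_lit 31009872)))
(L (nat_lit 9995127))))
(L (nat_lit 25732705)))))
(L (nat_lit 25276658)))))
(L (nat_lit 25548259)))))
(S (nat_lit 47805) (S (nat_lit 16585) (S (nat_lit 10522) (S (nat_lit 15312) (S (nat_lit 10941) (S (nat_lit 3940) (S (nat_lit 39577) (S (nat_lit 5591) (L (nat_lit 29466066))
(L (nat_lit 26821801)))
(L (nat_lit 18145155)))
(L (nat_lit 26230471)))
(L (nat_lit 15769273)))
(S (nat_lit 35076) (S (nat_lit 50469) (S (nat_lit 56583) (S (nat_lit 50505) (L (nat_lit 2343763))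
(L (nat_lit 22340993)))
(L (nat_lit 21897294)))
(L (nat_lit 22279616)))
(S (nat_lit 54840) (S (nat_lit 43955) (S (nat_lit 43980) (S (nat_lit 17071) (L (nat_lit 29375111))
(L (nat_lit 14802203)))
(L (nat_lit 5070279)))
(L (nat_lit 11034372)))
(L (nat_lit 25648230)))))
(S (nat_lit 30286) (S (nat_lit 6580) (S (nat_lit 58763) (S (nat_lit 21971) (S (nat_lit 52708) (L (nat_lit 13201478))
(L (nat_lit 12342350)))
(L (nat_lit 18441445)))
(L (nat_lit 27694386)))
(S (nat_lit 26344) (S (nat_lit 56599) (S (nat_lit 24201) (L (nat_lit 17883383))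
(L (nat_lit 2832199)))
(L (nat_lit 8836864)))
(S (nat_lit 46108) (S (nat_lit 3456) (S (nat_lit 6077) (L (nat_lit 2319799))
(L (nat_lit 2745708)))
(S (nat_lit 32981) (L (nat_lit 30425394))
(L (nat_lit 5693714))))
(L (nat_lit 25417091)))))
(S (nat_lit 50050) (S (nat_lit 22018) (S (nat_lit 21990) (S (nat_lit 17071) (S (nat_lit 18715) (S (nat_lit 24201) (S (nat_lit 19807) (S (nat_lit 32893) (L (nat_lit 9326081))
(L (nat_lit 3593565)))
(L (nat_lit 30922083)))
(L (nat_lit 22361920)))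
(L (nat_lit 18655283)))
(L (nat_lit 22520891)))
(L (nat_lit 9356961)))
(S (nat_lit 41710) (L (nat_lit 8550124))
(L (nat_lit 2842929))))
(L (nat_lit 25212551)))))
(S (nat_lit 36349) (S (nat_lit 8764) (S (nat_lit 6589) (S (nat_lit 41295) (S (nat_lit 46108) (L (nat_lit 3462924))
(L (nat_lit 27273623)))
(L (nat_lit 7158803)))
(S (nat_lit 26353) (S (nat_lit 52196) (S (nat_lit 36333) (S (nat_lit 52678) (L (nat_lit 13309865))
(L (nat_lit 27559347)))
(L (nat_lit 12798138)))
(S (nat_lit 58856) (L (nat_lit 30659043))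
(L (nat_lit 22252430))))
(S (nat_lit 46117) (S (nat_lit 1422) (L (nat_lit 17944328))
(S (nat_lit 37322) (S (nat_lit 22018) (S (nat_lit 46108) (L (nat_lit 13786393))
(L (nat_lit 18076729)))
(L (nat_lit 22907148)))
(L (nat_lit 10322508))))
(L (nat_lit 25624823)))))
(S (nat_lit 28528) (S (nat_lit 2226) (S (nat_lit 4431) (S (nat_lit 52697) (S (nat_lit 19807) (S (nat_lit 34658) (L (nat_lit 30605714))
(L (nat_lit 7897689)))
(L (nat_lit 10127901)))
(L (nat_lit 21291428)))
(S (nat_lit 56917) (L (nat_lit 8574456))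
(L (nat_lit 7487347))))
(S (nat_lit 21990) (S (nat_lit 52708) (S (nat_lit 17071) (S (nat_lit 47381) (L (nat_lit 17886451))
(L (nat_lit 22274530)))
(L (nat_lit 9953920)))
(L (nat_lit 18216051)))
(S (nat_lit 41754) (S (nat_lit 28103) (S (nat_lit 17071) (L (nat_lit 16863014))
(L (nat_lit 9495987)))
(S (nat_lit 54319) (L (nat_lit 4678006))
(L (nat_lit 16556211))))
(L (nat_lit 25431442)))))
(S (nat_lit 48292) (S (nat_lit 13158) (S (nat_lit 1422) (L (nat_lit 2532275))
(S (nat_lit 3940) (S (nat_lit 32933) (S (nat_lit 34608) (S (nat_lit 6077) (L (nat_lit 5754635))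
(L (nat_lit 18146915)))
(L (nat_lit 20778221)))
(L (nat_lit 20245924)))
(L (nat_lit 10345580))))
(S (nat_lit 32922) (S (nat_lit 34122) (S (nat_lit 17071) (S (nat_lit 38999) (L (nat_lit 2763196))
(L (nat_lit 20356185)))
(L (nat_lit 22242412)))
(L (nat_lit 30689324)))
(S (nat_lit 52686) (S (nat_lit 28521) (S (nat_lit 35138) (L (nat_lit 5498291))
(L (nat_lit 31007757)))
(L (nat_lit 17844444)))
(L (nat_lit 25889004)))))
(L (nat_lit 25824588)))))
(S (nat_lit 56113) (S (nat_lit 17514) (S (nat_lit 17544) (S (nat_lit 32432) (S (nat_lit 34122) (S (nat_lit 43980) (S (nat_lit 21990) (S (nat_lit 18749) (S (nat_lit 8764) (L (nat_lit 28838130))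
(L (nat_lit 7358139)))
(L (nat_lit 24260156)))
(L (nat_lit 22339664)))
(L (nat_lit 10902337)))
(L (nat_lit 6745701)))
(L (nat_lit 24349113)))
(S (nat_lit 37308) (S (nat_lit 43468) (S (nat_lit 32922) (S (nat_lit 36333) (L (nat_lit 2898601))
(L (nat_lit 20724842)))
(L (nat_lit 23864736)))
(S (nat_lit 46016) (L (nat_lit 3746577))
(L (nat_lit 8411921))))
(S (nat_lit 57072) (S (nat_lit 13535) (S (nat_lit 14750) (L (nat_lit 11322980))
(L (nat_lit 6053382)))
(S (nat_lit 18715) (S (nat_lit 50537) (S (nat_lit 10941) (L (nat_lit 30129409))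
(L (nat_lit 7856737)))
(L (nat_lit 22820875)))
(L (nat_lit 11296257))))
(L (nat_lit 25243957)))))
(S (nat_lit 37278) (S (nat_lit 29444) (L (nat_lit 16613958))
(S (nat_lit 43927) (S (nat_lit 24201) (S (nat_lit 21990) (S (nat_lit 38999) (S (nat_lit 48285) (S (nat_lit 19807) (S (nat_lit 43955) (S (nat_lit 30777) (L (nat_lit 15996636))
(L (nat_lit 10138401)))
(L (nat_lit 27961516)))
(L (nat_lit 9528047)))
(L (nat_lit 27472512)))
(L (nat_lit 13881155)))
(L (nat_lit 3953031)))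
(L (nat_lit 8851282)))
(L (nat_lit 23271181))))
(S (nat_lit 57042) (S (nat_lit 21990) (S (nat_lit 35117) (S (nat_lit 22018) (S (nat_lit 43955) (S (nat_lit 54372) (S (nat_lit 18749) (S (nat_lit 10522) (S (nat_lit 37308) (S (nat_lit 3456) (S (nat_lit 32914) (L (nat_lit 14754396))
(L (nat_lit 9175478)))
(L (nat_lit 20422777)))
(L (nat_lit 23865857)))
(L (nat_lit 21406469)))
(L (nat_lit 8546802)))
(L (nat_lit 27578818)))
(L (nat_lit 23345988)))
(L (nat_lit 2990737)))
(S (nat_lit 35927) (L (nat_lit 21345089))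
(L (nat_lit 9527794))))
(S (nat_lit 22800) (S (nat_lit 22557) (L (nat_lit 640220))
(L (nat_lit 2810247)))
(L (nat_lit 10150272))))
(L (nat_lit 25414112)))))
(L (nat_lit 25764257)))))
(L (nat_lit 25550372)))))
(L (nat_lit 25185734)))))

theorem rb183_4 : run 4 lb183 [] tb183_4 kb183 (P4 4 743 0 4082 6403 1 0 0 0) [] = true := by
  decide +kernel

noncomputable def ta35_5 : Tr :=
(S (nat_lit 509) (S (nat_lit 1715) (S (nat_lit 650) (S (nat_lit 4686) (S (nat_lit 2310) (S (nat_lit 2879) (S (nat_lit 259) (L (nat_lit 693518))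
(L (nat_lit 15046)))
(L (nat_lit 761376)))
(S (nat_lit 2769) (S (nat_lit 1387) (S (nat_lit 259) (L (nat_lit 11980))
(L (nat_lit 429766)))
(L (nat_lit 382468)))
(L (nat_lit 310324))))
(S (nat_lit 4875) (L (nat_lit 186577))
(L (nat_lit 314881))))
(S (nat_lit 2331) (L (nat_lit 374370))
(L (nat_lit 632226))))
(S (nat_lit 3929) (S (nat_lit 650) (S (nat_lit 2399) (S (nat_lit 4686) (S (nat_lit 5486) (S (nat_lit 4525) (S (nat_lit 2539) (L (nat_lit 201175))
(L (nat_lit 514123)))
(L (nat_lit 376384)))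
(L (nat_lit 671753)))
(L (nat_lit 526922)))
(S (nat_lit 2858) (S (nat_lit 2580) (S (nat_lit 1387) (S (nat_lit 1439) (S (nat_lit 5486) (S (nat_lit 2179) (S (nat_lit 3212) (S (nat_lit 723) (S (nat_lit 4721) (S (nat_lit 6181) (D (nat_lit 2) (nat_lit 665743) (nat_lit 50546) (nat_lit 68787634241))
(L (nat_lit 766240)))
(L (nat_lit 689607)))
(L (nat_lit 88397)))
(L (nat_lit 73205)))
(L (nat_lit 465476)))
(L (nat_lit 515081)))
(L (nat_lit 757222)))
(L (nat_lit 629868)))
(L (nat_lit 628844)))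
(L (nat_lit 314416))))
(S (nat_lit 3155) (L (nat_lit 380322))
(L (nat_lit 636194))))
(S (nat_lit 6143) (S (nat_lit 650) (S (nat_lit 4560) (L (nat_lit 108208))
(S (nat_lit 4686) (S (nat_lit 791) (L (nat_lit 10774))
(S (nat_lit 2311) (S (nat_lit 5426) (S (nat_lit 2948) (S (nat_lit 590) (S (nat_lit 697) (S (nat_lit 3252) (S (nat_lit 5203) (S (nat_lit 2144) (S (nat_lit 2534) (S (nat_lit 1407) (D (nat_lit 2) (nat_lit 738565) (nat_lit 13682) (nat_lit 68787635265))
(L (nat_lit 333363)))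
(L (nat_lit 345267)))
(L (nat_lit 43596)))
(L (nat_lit 77489)))
(L (nat_lit 738474)))
(L (nat_lit 246436)))
(L (nat_lit 72337)))
(L (nat_lit 393525)))
(L (nat_lit 660719)))
(L (nat_lit 178551))))
(L (nat_lit 175757))))
(S (nat_lit 2328) (L (nat_lit 110006))
(L (nat_lit 636258))))
(L (nat_lit 593100)))))
(S (nat_lit 2723) (S (nat_lit 665) (S (nat_lit 1553) (S (nat_lit 836) (S (nat_lit 5219) (S (nat_lit 2804) (S (nat_lit 3630) (S (nat_lit 5815) (L (nat_lit 74133))
(L (nat_lit 10988)))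
(L (nat_lit 502499)))
(L (nat_lit 770371)))
(L (nat_lit 737603)))
(L (nat_lit 245473)))
(S (nat_lit 3767) (S (nat_lit 4687) (S (nat_lit 1281) (S (nat_lit 671) (S (nat_lit 5426) (L (nat_lit 427282))
(L (nat_lit 497223)))
(L (nat_lit 170640)))
(L (nat_lit 185582)))
(L (nat_lit 170575)))
(S (nat_lit 5981) (S (nat_lit 3692) (S (nat_lit 734) (L (nat_lit 702693))
(L (nat_lit 628815)))
(L (nat_lit 307909)))
(L (nat_lit 595467)))))
(S (nat_lit 2879) (S (nat_lit 1058) (S (nat_lit 2473) (L (nat_lit 723217))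
(L (nat_lit 122094)))
(S (nat_lit 3272) (S (nat_lit 3692) (S (nat_lit 1387) (S (nat_lit 3212) (S (nat_lit 5378) (L (nat_lit 688401))
(L (nat_lit 120359)))
(L (nat_lit 758247)))
(L (nat_lit 469601)))
(L (nat_lit 757998)))
(S (nat_lit 5486) (S (nat_lit 2472) (S (nat_lit 590) (S (nat_lit 2311) (S (nat_lit 5099) (S (nat_lit 5426) (S (nat_lit 734) (S (nat_lit 4327) (S (nat_lit 206) (S (nat_lit 3407) (S (nat_lit 2066) (S (nat_lit 2017) (S (nat_lit 1605) (S (nat_lit 3087) (S (nat_lit 2512) (S (nat_lit 2262) (S (nat_lit 2669) (D (nat_lit 12) (nat_lit 14578) (nat_lit 276534) (nat_lit 0))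
(L (nat_lit 559315)))
(L (nat_lit 693703)))
(L (nat_lit 143634)))
(L (nat_lit 241844)))
(L (nat_lit 762031)))
(L (nat_lit 762403)))
(L (nat_lit 662947)))
(L (nat_lit 722255)))
(L (nat_lit 493291)))
(L (nat_lit 249872)))
(L (nat_lit 39479)))
(L (nat_lit 138740)))
(L (nat_lit 655816)))
(L (nat_lit 477224)))
(L (nat_lit 312963)))
(L (nat_lit 477352)))
(L (nat_lit 606215)))))
(S (nat_lit 5093) (S (nat_lit 650) (S (nat_lit 5486) (S (nat_lit 6230) (S (nat_lit 5906) (S (nat_lit 5815) (S (nat_lit 5162) (S (nat_lit 1553) (S (nat_lit 259) (S (nat_lit 2310) (S (nat_lit 1104) (S (nat_lit 2857) (S (nat_lit 320) (S (nat_lit 5377) (S (nat_lit 4875) (S (nat_lit 3976) (S (nat_lit 541) (S (nat_lit 780) (D (nat_lit 12) (nat_lit 111893) (nat_lit 735302) (nat_lit 0))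
(L (nat_lit 569057)))
(L (nat_lit 282018)))
(L (nat_lit 83255)))
(L (nat_lit 375957)))
(L (nat_lit 384081)))
(L (nat_lit 566948)))
(L (nat_lit 316900)))
(L (nat_lit 697828)))
(L (nat_lit 515426)))
(L (nat_lit 429364)))
(L (nat_lit 82571)))
(L (nat_lit 671818)))
(L (nat_lit 659914)))
(L (nat_lit 659946)))
(L (nat_lit 460114)))
(L (nat_lit 501778)))
(S (nat_lit 2864) (S (nat_lit 2113) (L (nat_lit 177736))
(L (nat_lit 496853)))
(S (nat_lit 5078) (S (nat_lit 1715) (L (nat_lit 120081))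
(L (nat_lit 578633)))
(L (nat_lit 602216)))))
(L (nat_lit 594472)))))
(S (nat_lit 4937) (S (nat_lit 836) (S (nat_lit 2214) (S (nat_lit 2113) (S (nat_lit 1715) (S (nat_lit 671) (S (nat_lit 6163) (S (nat_lit 2926) (S (nat_lit 2242) (S (nat_lit 293) (S (nat_lit 1436) (S (nat_lit 320) (D (nat_lit 10) (nat_lit 374400) (nat_lit 591239) (nat_lit 34359804929))
(L (nat_lit 564342)))
(L (nat_lit 724360)))
(L (nat_lit 365201)))
(L (nat_lit 348547)))
(L (nat_lit 667688)))
(L (nat_lit 578598)))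
(L (nat_lit 640224)))
(L (nat_lit 512071)))
(L (nat_lit 501444)))
(S (nat_lit 3060) (L (nat_lit 313060))
(L (nat_lit 110836))))
(S (nat_lit 3050) (S (nat_lit 4687) (S (nat_lit 1845) (L (nat_lit 300468))
(S (nat_lit 4856) (S (nat_lit 5216) (L (nat_lit 344210))
(S (nat_lit 5486) (S (nat_lit 6143) (S (nat_lit 650) (S (nat_lit 6230) (L (nat_lit 697389))
(L (nat_lit 477255)))
(L (nat_lit 182640)))
(L (nat_lit 462034)))
(L (nat_lit 316431))))
(L (nat_lit 229874))))
(L (nat_lit 232979)))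
(S (nat_lit 5264) (S (nat_lit 97) (S (nat_lit 665) (S (nat_lit 5486) (S (nat_lit 6230) (L (nat_lit 10676))
(L (nat_lit 249996)))
(L (nat_lit 232141)))
(L (nat_lit 119334)))
(S (nat_lit 2311) (S (nat_lit 5093) (S (nat_lit 4327) (S (nat_lit 6143) (L (nat_lit 250961))
(L (nat_lit 461417)))
(L (nat_lit 757130)))
(L (nat_lit 669704)))
(S (nat_lit 4525) (S (nat_lit 5099) (S (nat_lit 6230) (S (nat_lit 5486) (S (nat_lit 5981) (S (nat_lit 650) (S (nat_lit 3929) (S (nat_lit 734) (S (nat_lit 2879) (S (nat_lit 3411) (S (nat_lit 428) (S (nat_lit 4699) (S (nat_lit 1693) (S (nat_lit 3083) (S (nat_lit 2262) (S (nat_lit 4116) (S (nat_lit 4416) (S (nat_lit 4618) (D (nat_lit 12) (nat_lit 14578) (nat_lit 80583) (nat_lit 0))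
(L (nat_lit 449542)))
(L (nat_lit 461141)))
(L (nat_lit 699441)))
(L (nat_lit 578848)))
(L (nat_lit 658827)))
(L (nat_lit 732644)))
(L (nat_lit 351374)))
(L (nat_lit 449728)))
(L (nat_lit 24009)))
(L (nat_lit 147048)))
(L (nat_lit 532133)))
(L (nat_lit 548037)))
(L (nat_lit 175696)))
(L (nat_lit 118186)))
(L (nat_lit 120199)))
(L (nat_lit 400466)))
(L (nat_lit 563250)))
(L (nat_lit 590190)))))
(L (nat_lit 591213)))))
(L (nat_lit 607334)))))

theorem ra35_5 : run 3 la35 [] ta35_5 ka35 (P4 3 1 108 468 708 1 2 0 0) [] = true := by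
  decide +kernel

noncomputable def ta29_4 : Tr :=
(S (nat_lit 1953) (S (nat_lit 1077) (S (nat_lit 3287) (S (nat_lit 1629) (S (nat_lit 648) (S (nat_lit 657) (S (nat_lit 9) (L (nat_lit 414826))
(L (nat_lit 15974)))
(L (nat_lit 179819)))
(L (nat_lit 308402)))
(L (nat_lit 210098)))
(L (nat_lit 13587)))
(S (nat_lit 3291) (S (nat_lit 1073) (S (nat_lit 3054) (L (nat_lit 48342))
(S (nat_lit 3315) (S (nat_lit 3318) (S (nat_lit 671) (S (nat_lit 670) (S (nat_lit 673) (S (nat_lit 5879) (S (nat_lit 3179) (S (nat_lit 615) (S (nat_lit 533) (S (nat_lit 3097) (S (nat_lit 333) (D (nat_lit 0) (nat_lit 114998) (nat_lit 399538) (nat_lit 35500589121))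
(L (nat_lit 262546)))
(L (nat_lit 655564)))
(L (nat_lit 481288)))
(L (nat_lit 696770)))
(L (nat_lit 9749)))
(L (nat_lit 733194)))
(L (nat_lit 415754)))
(L (nat_lit 415786)))
(S (nat_lit 5099) (L (nat_lit 12629))
(L (nat_lit 598160))))
(L (nat_lit 703716)))
(L (nat_lit 695310))))
(S (nat_lit 3287) (S (nat_lit 1629) (S (nat_lit 4222) (L (nat_lit 197263))
(L (nat_lit 564869)))
(L (nat_lit 242866)))
(S (nat_lit 5501) (L (nat_lit 767232))
(L (nat_lit 593167)))))
(S (nat_lit 5505) (S (nat_lit 1305) (S (nat_lit 657) (S (nat_lit 1629) (L (nat_lit 381346))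
(L (nat_lit 242866)))
(L (nat_lit 106092)))
(L (nat_lit 466532)))
(L (nat_lit 593322)))))
(S (nat_lit 4167) (S (nat_lit 648) (S (nat_lit 673) (S (nat_lit 3843) (S (nat_lit 1944) (S (nat_lit 1296) (S (nat_lit 3357) (S (nat_lit 5910) (S (nat_lit 3709) (S (nat_lit 5685) (S (nat_lit 5537) (S (nat_lit 1515) (D (nat_lit 2) (nat_lit 757254) (nat_lit 568896) (nat_lit 1075873794))
(L (nat_lit 738407)))
(L (nat_lit 213170)))
(L (nat_lit 700610)))
(L (nat_lit 701635)))
(L (nat_lit 379025)))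
(L (nat_lit 760325)))
(L (nat_lit 639113)))
(L (nat_lit 638305)))
(L (nat_lit 444611)))
(S (nat_lit 2887) (S (nat_lit 4542) (S (nat_lit 6518) (L (nat_lit 631296))
(L (nat_lit 433330)))
(S (nat_lit 5289) (L (nat_lit 105073))
(L (nat_lit 242773))))
(S (nat_lit 5101) (S (nat_lit 6048) (L (nat_lit 12971))
(S (nat_lit 6324) (L (nat_lit 427654))
(L (nat_lit 15573))))
(L (nat_lit 590095)))))
(L (nat_lit 374373)))
(S (nat_lit 6381) (S (nat_lit 648) (S (nat_lit 333) (S (nat_lit 2531) (S (nat_lit 9) (S (nat_lit 2530) (S (nat_lit 674) (S (nat_lit 209) (S (nat_lit 453) (S (nat_lit 6096) (S (nat_lit 6423) (D (nat_lit 0) (nat_lit 115275) (nat_lit 433732) (nat_lit 68191296))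
(L (nat_lit 691659)))
(L (nat_lit 695712)))
(L (nat_lit 213139)))
(L (nat_lit 49770)))
(L (nat_lit 114966)))
(L (nat_lit 281743)))
(L (nat_lit 200082)))
(S (nat_lit 3287) (S (nat_lit 6372) (L (nat_lit 329109))
(L (nat_lit 665121)))
(L (nat_lit 414855))))
(S (nat_lit 2547) (S (nat_lit 670) (S (nat_lit 5910) (L (nat_lit 362995))
(L (nat_lit 413831)))
(S (nat_lit 4034) (L (nat_lit 756107))
(L (nat_lit 639111))))
(S (nat_lit 4761) (S (nat_lit 1081) (L (nat_lit 176710))
(S (nat_lit 5464) (S (nat_lit 4437) (S (nat_lit 5085) (S (nat_lit 5869) (S (nat_lit 5050) (S (nat_lit 3333) (S (nat_lit 5910) (S (nat_lit 1202) (S (nat_lit 1491) (S (nat_lit 3661) (D (nat_lit 2) (nat_lit 12870) (nat_lit 411840) (nat_lit 69860360256))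
(L (nat_lit 200301)))
(L (nat_lit 695439)))
(L (nat_lit 316962)))
(L (nat_lit 151921)))
(L (nat_lit 667690)))
(L (nat_lit 503521)))
(L (nat_lit 434850)))
(L (nat_lit 659883)))
(L (nat_lit 663968)))
(L (nat_lit 216581))))
(L (nat_lit 590218)))))
(L (nat_lit 636197)))
(L (nat_lit 597473)))))

theorem ra29_4 : run 3 la29 [] ta29_4 ka29 (P4 3 372 370 108 0 1 0 0 0) [] = true := by
  decide +kernel

noncomputable def tb81_0 : Tr :=
(L (nat_lit 25835840))

theorem rb81_0 : run 4 lb81 [] tb81_0 kb81 (P4 4 2366 0 3275 2366 0 0 0 1) [] = true := by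
  decide +kernel

noncomputable def ta14_5 : Tr :=
(L (nat_lit 605440))

theorem ra14_5 : run 3 la14 [] ta14_5 ka14 (P4 3 3 623 502 623 1 2 0 0) [] = true := by
  decide +kernel

noncomputable def ta39_4 : Tr :=
(L (nat_lit 605442))

theorem ra39_4 : run 3 la39 [] ta39_4 ka39 (P4 3 490 0 695 490 1 0 0 0) [] = true := by
  decide +kernel

end Pool.Agent.MP_92191b_al.K3.E
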