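import Pool.Agent.MP_92191b_al.K3.ClsD

/-! The exhaustive search. -/

namespace Pool.Agent.MP_92191b_al.K3

open Finset Function Equiv K6 X

namespace ClsAux

/-- Depth first search. -/
def dfs (T : Nat) (L : List (Nat × Nat)) : List (List Nat) → Nat → Nat → Bool
  | [], a, c => Nat.beq a c && L.any fun e => Nat.beq e.1 c
  | s :: r, a, c => cond (s.any fun q => c.testBit q) (dfs T L r a c)
      (s.all fun q => !a.testBit q || dfs T L r (a &&& T >>> (81 * q)) (c ||| 1 <<< q))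

theorem sound {T : Nat} {L : List (Nat × Nat)} (I : Nat → Prop)
    (hT : ∀ q q', I q → I q' → (T >>> (81 * q)).testBit q' = true) :
    ∀ (S : List (List Nat)) (a c : Nat), dfs T L S a c = true → (∀ s ∈ S, ∃ q ∈ s, I q) →
      (∀ q, I q → a.testBit q = true) → (∀ q, c.testBit q = true → I q) →
      ∃ e ∈ L, ∀ q, I q ↔ e.1.testBit q = true
  | [], a, c, h, _, ha, hc => by
    simp only [dfs, Bool.and_eq_true, Nat.beq_eq, List.any_eq_true] at h
    obtain ⟨rfl, e, he, rfl⟩ := h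
    exact ⟨e, he, fun q => ⟨ha q, hc q⟩⟩
  | s :: r, a, c, h, hS, ha, hc => by
    have hr : ∀ s ∈ r, ∃ q ∈ s, I q := fun s hs => hS s (List.mem_cons_of_mem _ hs)
    rw [dfs] at h
    cases hb : (s.any fun q => c.testBit q) with
    | true =>
      rw [hb, cond_true] at h
      exact sound I hT r a c h hr ha hc
    | false =>
      rw [hb, cond_false, List.all_eq_true] at h
      obtain ⟨q, hq, hI⟩ := hS s List.mem_cons_self
      have h1 := h q hq
      rw [ha q hI, Bool.not_true, Bool.false_or] at h1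
      refine sound I hT r _ _ h1 hr (fun q' h' => ?_) fun q' h' => ?_
      · rw [Nat.testBit_and, ha q' h', hT q q' hI h', Bool.and_self]
      · rw [Nat.testBit_or, Bool.or_eq_true, Nat.one_shiftLeft, Nat.testBit_two_pow] at h'
        rcases h' with h' | h'
        · exact hc q' h'
        · rwa [← of_decide_eq_true h']

theorem run : dfs tab lw sts (2 ^ 81 - 1) 0 = true := by decide +kernel

theorem tab_ok : ∀ c1 c2 d1 d2 c1' c2' d1' d2' : Fin 3,
    (tab >>> (81 * enc c1 c2 d1 d2)).testBit (enc c1' c2' d1' d2') = true ∨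
    (nq c1 c1' + nq c2 c2' = nq d1 d1' + nq d2 d2' ∧
      ¬(c1 = c1' ∧ c2 = c2' ∧ d1 = d1' ∧ d2 = d2')) := by decide +kernel

theorem sts_ok : ∀ s ∈ sts, ∃ a b a' b' : Fin 3, ∀ d1 d2 : Fin 3,
    enc (af a b d1) (af a' b' d2) d1 d2 ∈ s := by decide +kernel

theorem top_ok : ∀ c1 c2 d1 d2 : Fin 3, (2 ^ 81 - 1).testBit (enc c1 c2 d1 d2) = true := by
  decide +kernel

theorem enc_inj : ∀ c1 c2 d1 d2 c1' c2' d1' d2' : Fin 3,
    enc c1 c2 d1 d2 = enc c1' c2' d1' d2' → c1 = c1' ∧ c2 = c2' ∧ d1 = d1' ∧ d2 = d2' := by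
  intro c1 c2 d1 d2 c1' c2' d1' d2' h
  simp only [enc] at h
  refine ⟨Fin.ext ?_, Fin.ext ?_, Fin.ext ?_, Fin.ext ?_⟩ <;> omega

end ClsAux

end Pool.Agent.MP_92191b_al.K3
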