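import Pool.Agent.MP_92191b_al.K3.ClsD

/-! The types of the solutions. -/

namespace Pool.Agent.MP_92191b_al.K3

open Finset Function Equiv K6 X

namespace ClsAux

/-- The conclusion. -/
def Con (P : R4 (Fin 3)) : Prop :=
  (∃ x1 x2, Is1 P x1 x2) ∨ (∃ y1 y2, Is2 P y1 y2) ∨ (∃ x1 x2 y1 y2, Is3 P x1 x2 y1 y2) ∨
    (∃ x1 x2 y1 y2, Is4 P x1 x2 y1 y2) ∨ (∃ τ y, Is5a P τ y) ∨ (∃ τ y, Is5b P τ y) ∨
    (∃ τ x, Is6a P τ x) ∨ (∃ τ x, Is6b P τ x) ∨ Exc P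

/-- The type of the relation is given by the code. -/
def Ok (P : R4 (Fin 3)) (w : Nat) : Nat → Prop
  | 1 => Is1 P (dg w 0) (dg w 1)
  | 2 => Is2 P (dg w 0) (dg w 1)
  | 3 => Is3 P (dg w 0) (dg w 1) (dg w 2) (dg w 3)
  | 4 => Is4 P (dg w 0) (dg w 1) (dg w 2) (dg w 3)
  | 5 => Is5a P (af (dg w 0) (dg w 1)) (dg w 2)
  | 6 => Is5b P (af (dg w 0) (dg w 1)) (dg w 2)
  | 7 => Is6a P (af (dg w 0) (dg w 1)) (dg w 2)
  | 8 => Is6b P (af (dg w 0) (dg w 1)) (dg w 2)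
  | 9 => Is8 P (dg w 0) (dg w 1) (dg w 2) (dg w 3) (dg w 4) (dg w 5)
  | 10 => Is8 (dual P) (dg w 0) (dg w 1) (dg w 2) (dg w 3) (dg w 4) (dg w 5)
  | 11 => Is9 P (af (dg w 0) (dg w 1)) (af (dg w 2) (dg w 3)) (af (dg w 4) (dg w 5))
      (af (dg w 6) (dg w 7))
  | _ => False

instance (m w t : Nat) : Decidable (Ok (R m) w t) := by
  unfold Ok
  split <;> first
    | (simp only [Is1, Is2, Is3, Is4, Is5a, Is5b, Is6a, Is6b, Is8, Is9, dual]; infer_instance)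
    | infer_instance

theorem Ok.con {P : R4 (Fin 3)} {w t : Nat} (h : Ok P w t) : Con P := by
  unfold Ok at h
  unfold Con Exc
  split at h
  · exact .inl ⟨_, _, h⟩
  · exact .inr (.inl ⟨_, _, h⟩)
  · exact .inr (.inr (.inl ⟨_, _, _, _, h⟩))
  · exact .inr (.inr (.inr (.inl ⟨_, _, _, _, h⟩)))
  · exact .inr (.inr (.inr (.inr (.inl ⟨_, _, h⟩))))
  · exact .inr (.inr (.inr (.inr (.inr (.inl ⟨_, _, h⟩)))))
  · exact .inr (.inr (.inr (.inr (.inr (.inr (.inl ⟨_, _, h⟩))))))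
  · exact .inr (.inr (.inr (.inr (.inr (.inr (.inr (.inl ⟨_, _, h⟩)))))))
  · exact .inr (.inr (.inr (.inr (.inr (.inr (.inr (.inr (.inl ⟨_, _, _, _, _, _, h⟩))))))))
  · exact .inr (.inr (.inr (.inr (.inr (.inr (.inr (.inr (.inr (.inl
      ⟨_, _, _, _, _, _, h⟩)))))))))
  · exact .inr (.inr (.inr (.inr (.inr (.inr (.inr (.inr (.inr (.inr ⟨_, _, _, _, h⟩)))))))))
  · exact h.elim

theorem lw_ok : ∀ e ∈ lw, Ok (R e.1) (e.2 / 12) (e.2 % 12) := by decide +kernel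

end ClsAux

end Pool.Agent.MP_92191b_al.K3
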