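import Pool.Agent.MP_92191b_al.K3.ClsT

/-! Cells, masks and permutations over three letters. -/

namespace Pool.Agent.MP_92191b_al.K3

open Finset Function Equiv K6 X

namespace ClsAux

/-- The number of a cell. -/
def enc (c1 c2 d1 d2 : Fin 3) : Nat := 27 * c1.val + 9 * c2.val + 3 * d1.val + d2.val

/-- The relation given by a bit mask. -/
def R (m : Nat) : R4 (Fin 3) := fun c1 c2 d1 d2 => m.testBit (enc c1 c2 d1 d2) = true

instance (m : Nat) (c1 c2 d1 d2 : Fin 3) : Decidable (R m c1 c2 d1 d2) :=
  inferInstanceAs (Decidable (_ = _))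

/-- The six permutations. -/
def af (a b : Fin 3) : Perm (Fin 3) where
  toFun x := if a = 0 then x + b else b - x
  invFun y := if a = 0 then y - b else b - y
  left_inv x := by revert x a b; decide
  right_inv x := by revert x a b; decide

/-- Digits. -/
def dg (w i : Nat) : Fin 3 := ⟨w / 3 ^ i % 3, Nat.mod_lt _ (by decide)⟩

/-- All solutions. -/
def lw : List (Nat × Nat) := lw0 ++ (lw1 ++ (lw2 ++ (lw3 ++ (lw4 ++ lw5))))

end ClsAux

end Pool.Agent.MP_92191b_al.K3
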