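import Pool.Agent.MP_92191b_al.X.Defs

/-! Definitions and intermediate statements for the case of three letters. -/

set_option linter.unusedSectionVars false

namespace Pool.Agent.MP_92191b_al.K3

open Finset Function Equiv K6 X

variable {ι : Type} [Fintype ι] [DecidableEq ι]

/-- The plane given by a pair of orthogonal Latin squares. -/
def Is9 (P : R4 (Fin 3)) (s1 s2 t1 t2 : Perm (Fin 3)) : Prop :=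
  ∀ c1 c2 d1 d2, P c1 c2 d1 d2 ↔ t1 d1 = s1 c1 + s2 c2 ∧ t2 d2 = s1 c1 + 2 * s2 c2

/-- The three exceptional kinds of planes. -/
def Exc (P : R4 (Fin 3)) : Prop :=
  (∃ a0 a1 x0 x1 y1 y2, Is8 P a0 a1 x0 x1 y1 y2) ∨
  (∃ a0 a1 x0 x1 y1 y2, Is8 (dual P) a0 a1 x0 x1 y1 y2) ∨ ∃ s1 s2 t1 t2, Is9 P s1 s2 t1 t2

/-- No plane section in any frame is exceptional. -/
def NoX (T : Rel2 ι (Fin 3)) : Prop :=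
  ∀ (π ρ : Perm ι) (σ : ι → Perm (Fin 3)) (i j : ι), i ≠ j →
    ¬Exc (pl (fun c d => T (c ∘ π) (d ∘ ρ)) σ i j)

structure Good3 (T : Rel2 ι (Fin 3)) : Prop where
  good : K6.Good T
  nox : NoX T

structure Nice3 (Q : R6 (Fin 3)) : Prop where
  sec : Sec Q
  nox : ∀ Q', Orb Q Q' → ∀ σ, ¬Exc (p12 Q' σ)

/-- The exceptional pairs of length four. -/
def Exo4 (C D : Finset (ι → Fin 3)) : Prop :=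
  Fintype.card ι = 4 ∧ ((HasD C 3 ∧ HasD D 2 ∧ HasD D 4) ∨ (HasD C 2 ∧ HasD C 4 ∧ HasD D 3))

/-- The exceptional pairs of length five. -/
def Exo5 (C D : Finset (ι → Fin 3)) : Prop :=
  Fintype.card ι = 5 ∧ HasD C 3 ∧ HasD D 1 ∧ HasD D 2 ∧ HasD D 4 ∧ HasD D 5 ∧
    ∀ j, ∃ x x' b b', b ≠ b' ∧ Fib D j x = {b} ∧ Fib D j x' = {b'}

structure GP3 (C D : Finset (ι → Fin 3)) : Prop where
  gp : GP C D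
  nox : NoX fun c d => c ∈ C ∧ d ∈ D
  nex : ¬Exo4 C D

variable (ι) in
/-- Exceptional planes only occur in exceptional pairs. -/
def StmtH : Prop :=
  ∀ C D : Finset (ι → Fin 3), GP C D → ¬Exo4 C D → ¬Exo5 C D → NoX fun c d => c ∈ C ∧ d ∈ D

/-- The classification of planes. -/
def StmtCls3 : Prop :=
  ∀ P : R4 (Fin 3), Plane P →
    (∃ x1 x2, Is1 P x1 x2) ∨ (∃ y1 y2, Is2 P y1 y2) ∨ (∃ x1 x2 y1 y2, Is3 P x1 x2 y1 y2) ∨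
    (∃ x1 x2 y1 y2, Is4 P x1 x2 y1 y2) ∨ (∃ τ y, Is5a P τ y) ∨ (∃ τ y, Is5b P τ y) ∨
    (∃ τ x, Is6a P τ x) ∨ (∃ τ x, Is6b P τ x) ∨ Exc P

def StmtF3 : Prop :=
  ∀ (Q : R6 (Fin 3)) (σ : Perm (Fin 3)) (x1 x2 y1 y2 : Fin 3), Nice3 Q →
    Is4 (p12 Q σ) x1 x2 y1 y2 →
    (∃ μ, ∀ b1 b2 w, b1 ≠ y1 → b2 ≠ y2 → Q x1 x2 (σ w) b1 b2 w → w = μ) ∨
    ∃ m, (∀ a1 a2 w, a1 ≠ x1 ∨ a2 ≠ x2 → Q a1 a2 (σ w) y1 y2 w → w = m) ∧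
      ((∀ b1 b2 w b1' b2' w', b1 ≠ y1 → b2 ≠ y2 → b1' ≠ y1 → b2' ≠ y2 →
          Q x1 x2 (σ w) b1 b2 w → Q x1 x2 (σ w') b1' b2' w' → b1 = b1' ∨ b2 = b2' →
          w ≠ m → w' ≠ m → b1 = b1' ∧ b2 = b2') ∨
        ((∀ b1 b2 w b1' b2' w', b1 ≠ y1 → b2 ≠ y2 → b1' ≠ y1 → b2' ≠ y2 →
          Q x1 x2 (σ w) b1 b2 w → Q x1 x2 (σ w') b1' b2' w' → b1 = b1' ∨ b2 = b2' →
          w = w' → b1 = b1' ∧ b2 = b2') ∧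
        ∀ b1 b2 w, b1 ≠ y1 → b2 ≠ y2 → Q x1 x2 (σ w) b1 b2 w → w ≠ m))

def StmtLam3 : Prop :=
  ∀ (Q : R6 (Fin 3)) (σ : Perm (Fin 3)) (x1 x2 y1 y2 μ : Fin 3), Nice3 Q →
    Is4 (p12 Q σ) x1 x2 y1 y2 →
    (∀ b1 b2, b1 ≠ y1 → b2 ≠ y2 → Q x1 x2 (σ μ) b1 b2 μ) →
    (∀ a1 a2 w, a1 ≠ x1 ∨ a2 ≠ x2 → Q a1 a2 (σ w) y1 y2 w → w = μ) ∨
    ∃ p, p ≠ μ ∧ (∀ a1 a2 w, a1 ≠ x1 ∨ a2 ≠ x2 → Q a1 a2 (σ w) y1 y2 w → w = p ∨ w = μ) ∧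
      ∀ a1 a2 a1' a2', a1 ≠ x1 ∨ a2 ≠ x2 → a1' ≠ x1 ∨ a2' ≠ x2 →
        Q a1 a2 (σ μ) y1 y2 μ → Q a1' a2' (σ μ) y1 y2 μ → a1 = a1' ∧ a2 = a2'

def StmtPhi6 : Prop :=
  ∀ (Q : R6 (Fin 3)) (σ τ : Perm (Fin 3)) (x : Fin 3) (φ : Fin 3 → Fin 3 → Fin 3), Nice3 Q →
    Is6b (p12 Q σ) τ x → (∀ a b, Q a x (σ (φ a b)) (τ b) b (φ a b)) →
    (∀ a a' b, φ a b = φ a' b) ∨
    ∃ a0 b0 μ ν, μ ≠ ν ∧ ∀ a b, φ a b = if b = b0 ∧ a ≠ a0 then ν else μ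

end Pool.Agent.MP_92191b_al.K3
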