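import Pool.Agent.MP_92191b_al.K3.Defs

/-! Intermediate statements for three letters when no plane is exceptional. -/

set_option linter.unusedSectionVars false

namespace Pool.Agent.MP_92191b_al.K3

open Finset Function Equiv K6 X

/-- The alphabet. -/
abbrev α : Type := Fin 3

variable {ι : Type} [Fintype ι] [DecidableEq ι]

theorem card3 : Fintype.card α = 3 := Fintype.card_fin 3

theorem hk3 : 3 ≤ Fintype.card α := card3.ge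

/-- A tight relation without distance one on the left and without exceptional planes. -/
structure Good (T : Rel2 ι α) : Prop where
  tight : Tight T
  no1 : ∀ c c' d, T c d → T c' d → hammingDist c c' ≠ 1
  nox : NoX T

structure GQ (C D : Finset (ι → α)) : Prop where
  sep : K6.Sep C D
  big : Fintype.card α ^ Fintype.card ι ≤ C.card * D.card
  no1 : ∀ c ∈ C, ∀ c' ∈ C, hammingDist c c' ≠ 1
  nox : NoX fun c d => c ∈ C ∧ d ∈ D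
  nex : ¬Exo4 C D

theorem GQ.gp {C D : Finset (ι → α)} (h : GQ C D) : K6.GP C D := ⟨h.sep, h.big, h.no1⟩

structure Cen3 (C : Finset (ι → α)) (F : Finset ι → Prop) : Prop where
  cen : Cen C F
  no8 : ∀ (z : ι → α) (i j : ι), i ≠ j → ∀ a0 a1 x0 x1, ¬Q8 (cpl C F z i j) a0 a1 x0 x1

theorem NoX.frame {T : Rel2 ι α} (h : NoX T) (π ρ : Perm ι) :
    NoX fun c d => T (c ∘ π) (d ∘ ρ) := fun π' ρ' σ i j hij =>
  h (π.trans π') (ρ.trans ρ') σ i j hij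

theorem NoX.pl {T : Rel2 ι α} (h : NoX T) (σ : ι → Perm α) {i j : ι} (hij : i ≠ j) :
    ¬Exc (pl T σ i j) := h 1 1 σ i j hij

theorem Nice3.orb {Q Q' : R6 α} (h : Nice3 Q) (h' : Orb Q Q') : Nice3 Q' :=
  ⟨h.sec.orb h', fun _ h'' => h.nox _ (h'.trans h'')⟩

theorem Nice3.x12 {Q : R6 α} (h : Nice3 Q) (σ : Perm α) : ¬Exc (p12 Q σ) := h.nox _ Orb.refl σ

theorem Nice3.x13 {Q : R6 α} (h : Nice3 Q) (σ : Perm α) : ¬Exc (p13 Q σ) :=
  h.nox _ Orb.refl.s23 σ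

theorem Nice3.x32 {Q : R6 α} (h : Nice3 Q) (σ : Perm α) : ¬Exc (p32 Q σ) :=
  h.nox _ Orb.refl.s13 σ

theorem Nice3.x23 {Q : R6 α} (h : Nice3 Q) (σ : Perm α) : ¬Exc (p23 Q σ) :=
  h.nox _ Orb.refl.s12.s23 σ

theorem Nice3.x31 {Q : R6 α} (h : Nice3 Q) (σ : Perm α) : ¬Exc (p31 Q σ) :=
  h.nox _ Orb.refl.s12.s13 σ

def StmtRL : Prop :=
  ∀ (P : R4 α) (σ : Perm α) (x : α) (e : α → α), Plane P → ¬Exc P →
    (∀ y, P (σ (e y)) x (e y) y) →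
    (∃ w, ∀ y, e y = w) ∨ (∃ y0 w, Single e y0 w ∧ Is4 P (σ w) x (e y0) y0) ∨
    ∃ τ : Perm α, (∀ y, e y = τ y) ∧ Is6b P τ x

def StmtBlock : Prop :=
  ∀ (P : R4 α) (x1 x2 y1 y2 : α), Plane P →
    (∀ b1 b2, b1 ≠ y1 → b2 ≠ y2 → P x1 x2 b1 b2) → Is1 P x1 x2 ∨ Is4 P x1 x2 y1 y2

variable (ι) in
def StmtNice : Prop :=
  ∀ T : Rel2 ι α, Good T → ∀ (σ : ι → Perm α) (i j l : ι),
    i ≠ j → l ≠ i → l ≠ j → Nice3 (sec T σ i j l)

variable (ι) in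
def StmtGRL : Prop :=
  ∀ T : Rel2 ι α, Good T → ∀ (σ : ι → Perm α) (i j : ι) (x : α)
    (c d : α → ι → α), i ≠ j → RLine T σ j x c d →
    (∃ w, ∀ b, d b i = w) ∨
    (∃ b0 w, Single (fun b => d b i) b0 w ∧ Is4 (pl T σ i j) (σ i w) x (d b0 i) b0) ∨
    ∃ τ : Perm α, (∀ b, d b i = τ b) ∧ Is6b (pl T σ i j) τ x

variable (ι) in
def StmtGF : Prop :=
  ∀ T : Rel2 ι α, Good T → ∀ (σ : ι → Perm α) (i j r : ι)
    (x1 x2 y1 y2 : α), i ≠ j → r ≠ i → r ≠ j → Is4 (pl T σ i j) x1 x2 y1 y2 →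
    (∃ μ, ∀ c d, Far T σ i j y1 y2 c d → d r = μ) ∨
    ∃ m, (∀ c d, Arm T σ i j x1 x2 y1 y2 c d → d r = m) ∧
      ((∀ c d c' d', Far T σ i j y1 y2 c d → Far T σ i j y1 y2 c' d' →
          d i = d' i ∨ d j = d' j → d r ≠ m → d' r ≠ m → d = d') ∨
        ((∀ c d c' d', Far T σ i j y1 y2 c d → Far T σ i j y1 y2 c' d' →
          d i = d' i ∨ d j = d' j → d r = d' r → d = d') ∧
        ∀ c d, Far T σ i j y1 y2 c d → d r ≠ m))

variable (ι) in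
def StmtGLam : Prop :=
  ∀ T : Rel2 ι α, Good T → ∀ (σ : ι → Perm α) (i j r : ι)
    (x1 x2 y1 y2 : α), i ≠ j → r ≠ i → r ≠ j → Is4 (pl T σ i j) x1 x2 y1 y2 →
    (∃ m, ∀ c d, Arm T σ i j x1 x2 y1 y2 c d → d r = m) ∨
    ∃ p μ, p ≠ μ ∧ (∀ c d, Far T σ i j y1 y2 c d → d r = μ) ∧
      (∀ c d, Arm T σ i j x1 x2 y1 y2 c d → d r = p ∨ d r = μ) ∧
      ∀ c d c' d', Arm T σ i j x1 x2 y1 y2 c d → Arm T σ i j x1 x2 y1 y2 c' d' →
        d r = μ → d' r = μ → c = c'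

variable (ι) in
def StmtAlpha : Prop :=
  ∀ T : Rel2 ι α, Good T → ∀ (σ : ι → Perm α) (i j l : ι)
    (x b1 b2 wi wl : α) (c d : α → ι → α), i ≠ j → l ≠ j → i ≠ l → b1 ≠ b2 →
    RLine T σ j x c d → Single (fun b => d b i) b1 wi → Single (fun b => d b l) b2 wl →
    Is4 (pl T σ j i) x (σ i wi) b1 (d b1 i) ∧
    ∀ τ : Perm α, τ b1 = x →
      Is4 (pl T (update σ j τ) i l) (σ i wi) (σ l wl) (d b1 i) wl ∧
      (∀ c' d', Arm T (update σ j τ) i l (σ i wi) (σ l wl) (d b1 i) wl c' d' → d' j = b1) ∧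
      (∃ c' d', Cell T (update σ j τ) i l c' d' ∧ d' i = wi ∧ d' l = d b2 l ∧ d' j = b2) ∧
      ∀ c' d', Far T (update σ j τ) i l (d b1 i) wl c' d' → d' i = wi ∨ d' l = d b2 l →
        d' j = b1 ∨ (d' i = wi ∧ d' l = d b2 l)

variable (ι) in
def StmtDS1 : Prop :=
  ∀ T : Rel2 ι α, Good T → ∀ (σ : ι → Perm α) (i j l : ι)
    (x b1 b2 wi wl : α) (c d : α → ι → α) (τ : Perm α), i ≠ j → l ≠ j → i ≠ l → b1 ≠ b2 →
    RLine T σ j x c d → Single (fun b => d b i) b1 wi → Single (fun b => d b l) b2 wl →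
    τ b1 = x →
    (∃ r, r ≠ i ∧ r ≠ l ∧ SepAt T (update σ j τ) i l (σ i wi) (σ l wl) (d b1 i) wl r) ∧
    ∀ r, r ≠ i → r ≠ l → SepAt T (update σ j τ) i l (σ i wi) (σ l wl) (d b1 i) wl r →
      r ≠ j ∧ ∃ μ, Single (fun b => d b r) b1 μ ∧
        (∀ c' d', Arm T (update σ j τ) i l (σ i wi) (σ l wl) (d b1 i) wl c' d' →
          d' r = d b1 r ∨ d' r = μ) ∧
        ∀ c' d' c'' d'', Arm T (update σ j τ) i l (σ i wi) (σ l wl) (d b1 i) wl c' d' →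
          Arm T (update σ j τ) i l (σ i wi) (σ l wl) (d b1 i) wl c'' d'' →
          d' r = μ → d'' r = μ → c' = c''

variable (ι) in
def StmtDS2 : Prop :=
  ∀ T : Rel2 ι α, Good T → ∀ (σ : ι → Perm α) (i j l l2 r : ι)
    (x b1 b2 wi wl wl2 : α) (c d : α → ι → α) (τ : Perm α), i ≠ j → l ≠ j → l2 ≠ j → i ≠ l →
    i ≠ l2 → l ≠ l2 → b1 ≠ b2 → RLine T σ j x c d → Single (fun b => d b i) b1 wi →
    Single (fun b => d b l) b2 wl → Single (fun b => d b l2) b2 wl2 → τ b1 = x →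
    r ≠ i → r ≠ l → r ≠ l2 → SepAt T (update σ j τ) i l (σ i wi) (σ l wl) (d b1 i) wl r →
    SepAt T (update σ j τ) i l2 (σ i wi) (σ l2 wl2) (d b1 i) wl2 r → False

variable (ι) in
def StmtDS : Prop :=
  ∀ T : Rel2 ι α, Good T → ∀ (σ : ι → Perm α) (i j l : ι)
    (x b1 b2 wi wl : α) (c d : α → ι → α), i ≠ j → l ≠ j →
    RLine T σ j x c d → Single (fun b => d b i) b1 wi → Single (fun b => d b l) b2 wl → b1 = b2

variable (ι) in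
def StmtNo6 : Prop :=
  ∀ T : Rel2 ι α, Good T → ∀ (σ : ι → Perm α) (i j : ι) (τ : Perm α)
    (x : α), i ≠ j → ¬Is6b (pl T σ i j) τ x

variable (ι) in
def StmtLine : Prop :=
  ∀ T : Rel2 ι α, Good T → ∀ (σ : ι → Perm α) (j : ι),
    (∃ y c d, KLine T σ j y c d) ∨
    ∃ x c d b0, RLine T σ j x c d ∧
      (∀ b b', b ≠ b0 → b' ≠ b0 → ∀ r, r ≠ j → d b r = d b' r) ∧
      ((∀ b b' r, r ≠ j → d b r = d b' r) ∨ ∃ σ' c' d', KLine T σ' j b0 c' d')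

variable (ι) in
def StmtLab : Prop :=
  ∀ C D : Finset (ι → α), GQ C D → ∀ (σ : ι → Perm α) (j : ι),
    (∀ c ∈ C, ∀ d ∈ D, (∀ r, r ≠ j → c r = σ r (d r)) → Fib D j d = Set.univ) ∨
    ∃ b, ∀ c ∈ C, ∀ d ∈ D, (∀ r, r ≠ j → c r = σ r (d r)) → Fib D j d = {b} ∨ Fib D j d = {b}ᶜ

open Classical in
variable (ι) in
def StmtSw2 : Prop :=
  ∀ C D : Finset (ι → α), GQ C D → ∀ (j : ι) (z : α),
    (∃ x b, b ≠ z ∧ (Fib D j x = {b} ∨ Fib D j x = {b}ᶜ)) →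
    (univ.filter fun x : ι → α => x j = z ∧ ∃ b, b ≠ z ∧ Fib D j x = {b}ᶜ).card <
      (univ.filter fun x : ι → α => x j = z ∧ ∃ b, b ≠ z ∧ Fib D j x = {b}).card

variable (ι) in
/-- Switching, without the two extra properties. -/
def StmtSw0 : Prop :=
  ∀ C D : Finset (ι → α), GQ C D → ∀ (j : ι) (z : α),
    (∃ x b, b ≠ z ∧ (Fib D j x = {b} ∨ Fib D j x = {b}ᶜ)) →
    ∃ D', K6.GP C D' ∧ SwRel D D' j z ∧
      (∀ r v, r ≠ j → (D'.filter fun d => d r = v).card = (D.filter fun d => d r = v).card) ∧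
      (D.filter fun d => d j = z).card < (D'.filter fun d => d j = z).card

variable (ι) in
/-- A switched pair is not exceptional. -/
def StmtSwX : Prop :=
  ∀ C D D' : Finset (ι → α), GQ C D → 2 ≤ C.card → K6.GP C D' → ∀ (j : ι) (z : α),
    SwRel D D' j z → ¬Exo4 C D' ∧ ¬Exo5 C D'

variable (ι) in
def StmtSw : Prop :=
  ∀ C D : Finset (ι → α), GQ C D → 2 ≤ C.card → ∀ (j : ι) (z : α),
    (∃ x b, b ≠ z ∧ (Fib D j x = {b} ∨ Fib D j x = {b}ᶜ)) →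
    ∃ D', GQ C D' ∧ SwRel D D' j z ∧
      (∀ r v, r ≠ j → (D'.filter fun d => d r = v).card = (D.filter fun d => d r = v).card) ∧
      (D.filter fun d => d j = z).card < (D'.filter fun d => d j = z).card

variable (ι) in
def StmtToCen : Prop :=
  ∀ C D : Finset (ι → α), GQ C D → 2 ≤ C.card → ∀ ζ : ι → α,
    (∀ d ∈ D, ∀ j v, d j ≠ ζ j → v ≠ ζ j → update d j v ∈ D) → Concl C D

variable (ι) in
def StmtA : Prop := ∀ C D : Finset (ι → α), GQ C D → 2 ≤ C.card → Concl C D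

def StmtCP : Prop :=
  ∀ W : W2 α, CPlane W →
    (∃ x1 x2, Q1 W x1 x2) ∨ Q2 W ∨ (∃ x1 x2, Q3 W x1 x2) ∨ (∃ x1 x2, Q4 W x1 x2) ∨
    (∃ τ, Q5a W τ) ∨ (∃ τ, Q5b W τ) ∨ ∃ a0 a1 x0 x1, Q8 W a0 a1 x0 x1

def StmtCK : Prop :=
  ∀ (W : W2 α) (z : α) (e : α → α), CPlane W →
    (∀ a, W (e a) a (nz (e a) z) false) →
    (∀ a, e a = z) ∨ (∃ a0, Single e a0 z ∧ Q3 W (e a0) a0) ∨
    (∃ a0 a1, a0 ≠ a1 ∧ (∀ a, a ≠ a0 → a ≠ a1 → e a = z) ∧ e a0 ≠ z ∧ e a1 ≠ z ∧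
      Q8 W (e a0) (e a1) a1 a0) ∨
    ∃ τ : Perm α, (∀ a, e a = τ a) ∧ Q5b W τ

variable (ι) in
def StmtDown : Prop :=
  ∀ (C : Finset (ι → α)) (F : Finset ι → Prop), Cen3 C F → ∀ V l, F (insert l V) → F V

variable (ι) in
def StmtKL : Prop :=
  ∀ (C : Finset (ι → α)) (F : Finset ι → Prop) (J : ℕ), Cen C F →
    (∀ V V', V' ⊆ V → F V → F V') → (∀ V V', F V → F V' → (V ∪ V').card ≤ J) →
    (∃ V V', F V ∧ F V' ∧ (V ∪ V').card = J) →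
    ∀ V l, F V → (∀ r, r ∉ V → ¬F (insert r V)) → l ∉ V →
      (∃ c ∈ C, ∃ c' ∈ C, hammingDist c c' = J + 1) ∧ KLP α F J V l

variable (ι) in
def StmtFam : Prop :=
  ∀ (F : Finset ι → Prop) (J : ℕ), (∀ V V', V' ⊆ V → F V → F V') →
    (∀ V V', F V → F V' → (V ∪ V').card ≤ J) →
    (∀ V l, F V → (∀ r, r ∉ V → ¬F (insert r V)) → l ∉ V → KLP α F J V l) →
    F ∅ → ¬F univ →
    ∃ (E : Finset ι) (e : ℕ), 2 * e + E.card = J ∧
      E.card + Fintype.card α * e + 1 ≤ Fintype.card ι ∧ ∀ V, F V ↔ (V \ E).card ≤ e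

variable (ι) in
def StmtCenA : Prop :=
  ∀ (C : Finset (ι → α)) (F : Finset ι → Prop), Cen3 C F →
    2 ≤ C.card → ∃ (E : Finset ι) (e : ℕ), E.card + Fintype.card α * e + 1 ≤ Fintype.card ι ∧
      (∀ V, F V ↔ (V \ E).card ≤ e) ∧
      ∃ c ∈ C, ∃ c' ∈ C, hammingDist c c' = 2 * e + E.card + 1

end Pool.Agent.MP_92191b_al.K3
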