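import Pool.Agent.MP_92191b_al.K3.Defs

/-! Definitions and intermediate statements for the exclusion of exceptional planes. -/

set_option linter.unusedSectionVars false

namespace Pool.Agent.MP_92191b_al.K3

open Finset Function Equiv K6 X

variable {ι : Type} [Fintype ι] [DecidableEq ι]

/-! ### Systems of sections -/

abbrev Pt (n : ℕ) : Type := Fin n → Fin 3

abbrev Rn (n : ℕ) : Type := Pt n → Pt n → Prop

/-- Append a letter. -/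
def sn {n : ℕ} (x : Pt n) (a : Fin 3) : Pt (n + 1) := Fin.snoc (α := fun _ => Fin 3) x a

/-- The face on which the last letters agree. -/
def face {n : ℕ} (R : Rn (n + 1)) : Rn n := fun x y => ∃ a, R (sn x a) (sn y a)

/-- The action of an element of the wreath product. -/
def wr (σ : ι → Perm (Fin 3)) (π : Perm ι) (x : ι → Fin 3) : ι → Fin 3 := fun l => σ l (x (π l))

/-- The closure properties of the family of all sections of a pair of codes. -/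
structure Sys (S : ∀ n, Rn n → Prop) : Prop where
  tight : ∀ n R, S n R → Tight R
  act : ∀ n R (σ : Fin n → Perm (Fin 3)) (π : Perm (Fin n)) (τ : Fin n → Perm (Fin 3))
    (ρ : Perm (Fin n)), S n R → S n fun x y => R (wr σ π x) (wr τ ρ y)
  dual : ∀ n R, S n R → S n fun x y => R y x
  face : ∀ n R, S (n + 1) R → S n (face R)
  eq : ∀ n R, S n R → ∀ x y x' y' z w z' w', R x y → R x' y' → R z w → R z' w' → x ≠ x' →
    hammingDist x x' = hammingDist w w' → ∃ R', S (n + 1) R' ∧ K3.face R' = R ∧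
      ∃ a a' b b', R' (sn x a) (sn y a) ∧ R' (sn x' a') (sn y' a') ∧ R' (sn z b) (sn w b) ∧
        R' (sn z' b') (sn w' b') ∧ ¬(a = a' ↔ b = b')
  lift : ∀ R, S 4 R → ∀ x y x' y' z w z' w' u v u' v', R x y → R x' y' → R z w → R z' w' →
    R u v → R u' v' → hammingDist x x' = 3 → hammingDist w w' = 2 → hammingDist v v' = 4 →
    ∃ R', S 5 R' ∧ K3.face R' = R

/-- The standard dual hybrid plane. -/
def KH (c1 c2 d1 d2 : Fin 3) : Prop :=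
  (c1 = 0 ∧ c2 ≠ 0 ∧ d1 ≠ 0 ∧ d2 = d1) ∨ (c1 ≠ 0 ∧ c2 = 0 ∧ d1 ≠ 0 ∧ d2 = 2 * d1) ∨
    (c1 = 0 ∧ c2 = 0 ∧ d1 = 0 ∧ d2 = 0)

/-- There is no plane given by orthogonal Latin squares. -/
def StmtA9 : Prop :=
  ∀ S, Sys S → ∀ R : Rn 2, S 2 R → ¬∀ c1 c2 : Fin 3, R ![c1, c2] ![c1 + c2, c1 + 2 * c2]

/-- Sections in three coordinates over a dual hybrid plane. -/
def StmtPL3 : Prop :=
  ∀ S, Sys S → ∀ R : Rn 3, S 3 R →
    (∀ c1 c2 d1 d2, KH c1 c2 d1 d2 → ∃ a, R ![c1, c2, a] ![d1, d2, a]) → R ![0, 1, 1] ![1, 1, 1] →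
    ∃ τ : Perm (Fin 3), τ 1 = 1 ∧
      (∀ x d1 d2 d3, R x ![d1, d2, τ d3] → R x ![2 * d1, 2 * d2, τ d3] ∧
        R x ![d1, 2 * d2, τ (2 * d3)] ∧ R x ![d2, d1, τ d3] ∧ R x ![d1, d3, τ d2]) ∧
      ∀ d1 d2 d3, R ![0, 1, 1] ![d1, d2, τ d3] → (d1 = 0 ∧ d2 = 0 ∧ d3 = 0) ∨ d1 * d2 * d3 = 1

/-- A pair of codes without common distances and of the largest possible sizes. -/
structure TP3 (C D : Finset (ι → Fin 3)) : Prop where
  sep : K6.Sep C D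
  big : 3 ^ Fintype.card ι ≤ C.card * D.card

/-- The section of `T` in the coordinates `p`. -/
def sct {n : ℕ} (T : Rel2 ι (Fin 3)) (p : Fin n ↪ ι) : Rn n := fun x y =>
  ∃ c d, T c d ∧ (∀ l, c (p l) = x l) ∧ (∀ l, d (p l) = y l) ∧ ∀ r, (∀ l, r ≠ p l) → c r = d r

/-- All sections of a pair of codes and of the dual pair. -/
def Sct (C D : Finset (ι → Fin 3)) (n : ℕ) (R : Rn n) : Prop :=
  ∃ (σ : ι → Perm (Fin 3)) (π : Perm ι) (τ : ι → Perm (Fin 3)) (ρ : Perm ι) (p : Fin n ↪ ι),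
    R = sct (fun c d => wr σ π c ∈ C ∧ wr τ ρ d ∈ D) p ∨
    R = sct (fun c d => wr σ π c ∈ D ∧ wr τ ρ d ∈ C) p

variable (ι) in
def StmtSys : Prop :=
  ∀ C D : Finset (ι → Fin 3), TP3 C D → ¬Exo4 C D → Sys (Sct C D)

/-! ### Half cubes -/

/-- The word `d` lies in one of the two pairs of a dual hybrid plane in the coordinates `a, b`
of the second code with centre `u, v`. -/
def GC (C D : Finset (ι → Fin 3)) (d : ι → Fin 3) (a b : ι) (u v : Fin 3) : Prop :=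
  a ≠ b ∧ ∃ (σ : ι → Perm (Fin 3)) (π : Perm ι) (τ : ι → Perm (Fin 3)) (c' d' : ι → Fin 3),
    τ a 0 = u ∧ τ b 0 = v ∧ d = wr τ 1 d' ∧ d ∈ D ∧ wr σ π c' ∈ C ∧ c' a = 0 ∧ c' b = 1 ∧
    d' a = 1 ∧ d' b = 1 ∧ (∀ r, r ≠ a → r ≠ b → c' r = d' r) ∧
    ∀ c1 c2 d1 d2, KH c1 c2 d1 d2 → ∃ c'' d'', wr σ π c'' ∈ C ∧ wr τ 1 d'' ∈ D ∧ c'' a = c1 ∧
      c'' b = c2 ∧ d'' a = d1 ∧ d'' b = d2 ∧ ∀ r, r ≠ a → r ≠ b → c'' r = d'' r

/-- The local propagation property of a predicate `G`. -/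
structure Loc (D : Finset (ι → Fin 3)) (G : (ι → Fin 3) → ι → ι → Fin 3 → Fin 3 → Prop) :
    Prop where
  ne : ∀ d a b u v, G d a b u v → a ≠ b ∧ d a ≠ u ∧ d b ≠ v
  step : ∀ d a b u v r, G d a b u v → r ≠ a → r ≠ b → ∃ w, d r ≠ w ∧
    (∀ d' ∈ D, (∀ s, s ≠ a → s ≠ b → s ≠ r → d' s = d s) →
      (d' a = u ∧ d' b = v ∧ d' r = w) ∨
      (d' a ≠ u ∧ d' b ≠ v ∧ d' r ≠ w ∧ Even (hammingDist d' d))) ∧
    ∀ d', (∀ s, s ≠ a → s ≠ b → s ≠ r → d' s = d s) → d' a ≠ u → d' b ≠ v → d' r ≠ w →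
      Even (hammingDist d' d) → d' ∈ D ∧ G d' a b u v ∧ G d' b a v u ∧ G d' a r u w ∧
        G d' r a w u ∧ G d' b r v w ∧ G d' r b w v

variable (ι) in
def StmtLoc : Prop :=
  ∀ C D : Finset (ι → Fin 3), Sys (Sct C D) → Loc D (GC C D)

/-- Among the words avoiding `ζ` everywhere, `D` consists of those at even distance from `d0`. -/
structure Half (D : Finset (ι → Fin 3)) (ζ d0 : ι → Fin 3) : Prop where
  off : ∀ l, d0 l ≠ ζ l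
  mem : ∀ y, (∀ l, y l ≠ ζ l) → (y ∈ D ↔ Even (hammingDist y d0))

variable (ι) in
def StmtProp : Prop :=
  3 ≤ Fintype.card ι → ∀ (D : Finset (ι → Fin 3)) G, Loc D G → ∀ d a b u v, G d a b u v →
    ∃ ζ, Half D ζ d

variable (ι) in
def StmtOdd : Prop :=
  ∀ C : Finset (ι → Fin 3), (∀ c ∈ C, ∀ c' ∈ C, c ≠ c' → Odd (hammingDist c c')) →
    C.card ≤ 2 * Fintype.card ι + 2

variable (ι) in
def StmtKraft : Prop :=
  ∀ (C : Finset (ι → Fin 3)) (c : ι → Fin 3) (δ : ℕ), c ∈ C →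
    (∀ c' ∈ C, c' ≠ c → δ ≤ hammingDist c c') →
    (∀ z : ι → Fin 3, (∀ l, c l ≠ z l) → ∃ c' ∈ C, c' ≠ c ∧ ∀ l, c' l ≠ z l) →
    2 ^ δ + 1 ≤ C.card

variable (ι) in
def StmtTwo : Prop :=
  1 ≤ Fintype.card ι → ∀ (C D : Finset (ι → Fin 3)) (ζ d0 : ι → Fin 3), TP3 C D → Half D ζ d0 →
    (∀ c ∈ C, ∀ c' ∈ C, c ≠ c' → Odd (hammingDist c c')) ∧
    ∀ (z : ι → Fin 3), ∀ c ∈ C, (∀ l, c l ≠ z l) → (∃ c' ∈ C, c' ≠ c ∧ ∀ l, c' l ≠ z l) ∧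
      ∀ c' ∈ C, ∀ d ∈ D, (∀ l, c' l = z l ↔ d l = ζ l) → ∀ l, d l ≠ ζ l

variable (ι) in
def StmtBall : Prop :=
  ∀ (C D : Finset (ι → Fin 3)) (ζ d0 : ι → Fin 3) (M ρ : ℕ), TP3 C D → Half D ζ d0 →
    (∀ c ∈ C, ∀ c' ∈ C, hammingDist c c' ≤ M) → M + ρ + 1 = Fintype.card ι → 1 ≤ M →
    (∀ y ∈ D, (∃ l, y l = ζ l) → hammingDist y ζ ≤ ρ) → (∃ y ∈ D, ∃ l, y l = ζ l) →
    ∀ y, hammingDist y ζ = ρ → y ∈ D

variable (ι) in
/-- The sizes of small balls and of the half cube, and distances between their points. -/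
def StmtSz : Prop :=
  ∀ ζ : ι → Fin 3,
    (∀ ρ, (univ.filter fun y : ι → Fin 3 => hammingDist y ζ ≤ ρ).card ≤
      2 ^ ρ * 2 ^ Fintype.card ι) ∧
    (univ.filter fun y : ι → Fin 3 => hammingDist y ζ ≤ 1).card = 2 * Fintype.card ι + 1 ∧
    (∀ d0 : ι → Fin 3, (∀ l, d0 l ≠ ζ l) → 1 ≤ Fintype.card ι →
      (univ.filter fun y : ι → Fin 3 => (∀ l, y l ≠ ζ l) ∧ Even (hammingDist y d0)).card =
        2 ^ (Fintype.card ι - 1)) ∧
    (∀ (d0 y : ι → Fin 3) (s : ℕ), (∀ l, d0 l ≠ ζ l) → (∃ l, y l = ζ l) →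
      Fintype.card ι ≤ s + hammingDist y ζ → s ≤ Fintype.card ι →
      ∃ h : ι → Fin 3, (∀ l, h l ≠ ζ l) ∧ Even (hammingDist h d0) ∧ hammingDist y h = s) ∧
    (∀ (d0 : ι → Fin 3) (s : ℕ), (∀ l, d0 l ≠ ζ l) → s ≤ Fintype.card ι →
      ∃ h : ι → Fin 3, (∀ l, h l ≠ ζ l) ∧ hammingDist h d0 = s) ∧
    ∀ ρ s, ρ ≤ Fintype.card ι → s ≤ 2 * ρ → s ≤ Fintype.card ι →
      ∃ y y' : ι → Fin 3, hammingDist y ζ = ρ ∧ hammingDist y' ζ = ρ ∧ hammingDist y y' = s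

variable (ι) in
def StmtFin : Prop :=
  3 ≤ Fintype.card ι → ∀ (C D : Finset (ι → Fin 3)) (ζ d0 : ι → Fin 3), TP3 C D → Half D ζ d0 →
    Exo4 C D ∨ Exo5 C D

end Pool.Agent.MP_92191b_al.K3
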