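import Pool.Agent.MP_92191b_al.G.Mask
import Pool.Agent.MP_92191b_al.K3.HDefs

/-! A checker for finite refutations in systems of sections over three letters.  A cell in `n`
coordinates is a number below `3 ^ (2 n)`; its first `n` digits form the first word. -/

namespace Pool.Agent.MP_92191b_al.K3.E

open G K6 Finset Equiv

def fN (x : ℕ) (f : ℕ → ℕ) : ℕ := Nat.rec (f 0) (fun n _ => f (Nat.succ n)) x

theorem fN_eq (x : ℕ) (f : ℕ → ℕ) : fN x f = f x := by cases x <;> rfl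

def fB (x : ℕ) (f : ℕ → Bool) : Bool := Nat.rec (f 0) (fun n _ => f (Nat.succ n)) x

theorem fB_eq (x : ℕ) (f : ℕ → Bool) : fB x f = f x := by cases x <;> rfl

theorem tb_and (a b x : ℕ) : (Nat.land a b).testBit x = (a.testBit x && b.testBit x) :=
  Nat.testBit_and a b x

theorem tb_or (a b x : ℕ) : (Nat.lor a b).testBit x = (a.testBit x || b.testBit x) :=
  Nat.testBit_or a b x

theorem tb_xor (a b x : ℕ) : (Nat.xor a b).testBit x = (a.testBit x ^^ b.testBit x) :=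
  Nat.testBit_xor a b x

theorem tb_bit (c x : ℕ) : (Nat.shiftLeft 1 c).testBit x = decide (c = x) := by
  rw [show Nat.shiftLeft 1 c = 2 ^ c from Nat.one_shiftLeft c, Nat.testBit_two_pow]

theorem rec_true {a b : Bool} (h : (Bool.rec false a b : Bool) = true) : a = true ∧ b = true := by
  cases b
  · exact absurd h Bool.false_ne_true
  · exact ⟨h, rfl⟩

/-! ### Digits and words -/

theorem dg_mod {d l : ℕ} (hl : l < d) (u : ℕ) : dg 3 l (u % 3 ^ d) = dg 3 l u := by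
  conv_rhs => rw [← Nat.mod_add_div' u (3 ^ d)]
  rw [dg_add (by norm_num) hl]

theorem dg_div (d l u : ℕ) : dg 3 l (u / 3 ^ d) = dg 3 (d + l) u := by
  rw [dg, dg, pow_add, Nat.div_div_eq_div_mul]

theorem dg_hi {d a : ℕ} (ha : a < 3 ^ d) (l b : ℕ) : dg 3 (d + l) (a + b * 3 ^ d) = dg 3 l b := by
  rw [← dg_div, Nat.add_mul_div_right _ _ (by positivity), Nat.div_eq_of_lt ha, zero_add]

def dgt (o c l : ℕ) : Fin 3 := ⟨dg 3 (o + l) c, dg_lt (by norm_num) _ _⟩

def RN (n : ℕ) (R : Rn n) (f g : ℕ → Fin 3) : Prop := R (fun l => f l) (fun l => g l)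

/-- The cell `c` belongs to `R`. -/
def W (n : ℕ) (R : Rn n) (c : ℕ) : Prop := RN n R (dgt 0 c) (dgt n c)

theorem RN.congr {n : ℕ} {R : Rn n} {f g f' g' : ℕ → Fin 3} (h : RN n R f g)
    (h1 : ∀ l < n, f l = f' l) (h2 : ∀ l < n, g l = g' l) : RN n R f' g' := by
  unfold RN at h ⊢
  rwa [← funext fun l : Fin n => h1 l l.2, ← funext fun l : Fin n => h2 l l.2]

def hd (n o c c' : ℕ) : ℕ := ∑ l ∈ range n, nq (dg 3 (o + l) c) (dg 3 (o + l) c')

theorem ham (n o c c' : ℕ) :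
    hammingDist (fun l : Fin n => dgt o c l) (fun l => dgt o c' l) = hd n o c c' := by
  rw [hd, ← Fin.sum_univ_eq_sum_range fun l => nq (dg 3 (o + l) c) (dg 3 (o + l) c'),
    hammingDist, card_filter]
  refine sum_congr rfl fun l _ => ?_
  simp only [nq, dgt, ne_eq, Fin.mk.injEq, ite_not]

theorem code {n : ℕ} (x y : Pt n) : ∃ c < 3 ^ (2 * n),
    (fun l : Fin n => dgt 0 c l) = x ∧ (fun l : Fin n => dgt n c l) = y := by
  let f : ℕ → ℕ := fun j =>
    if h : j < n then x ⟨j, h⟩ else if h : j - n < n then y ⟨j - n, h⟩ else 0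
  have hf : ∀ j < 2 * n, f j < 3 := fun j _ => by
    simp only [f]
    split_ifs
    · exact Fin.is_lt _
    · exact Fin.is_lt _
    · norm_num
  refine ⟨_, enc_lt _ hf, funext fun l => Fin.ext ?_, funext fun l => Fin.ext ?_⟩
  · have := l.2
    simp only [dgt, zero_add]
    rw [dg_enc _ hf l (by omega)]
    simp [f]
  · have := l.2
    simp only [dgt]
    rw [dg_enc _ hf (n + l) (by omega)]
    simp [f]

theorem sepW {n c c' : ℕ} {R : Rn n} (hT : Tight R) (h : c < 3 ^ (2 * n)) (h' : c' < 3 ^ (2 * n))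
    (w : W n R c) (w' : W n R c') (e : hd n 0 c c' = hd n n c c') : c = c' := by
  obtain ⟨e1, e2⟩ := hT.sep _ _ _ _ w w' (by rw [ham, ham, e])
  refine dg_ext _ _ _ h h' fun j hj => ?_
  by_cases h1 : j < n
  · simpa [dgt] using congrFun e1 ⟨j, h1⟩
  · obtain ⟨l, rfl⟩ := Nat.exists_eq_add_of_le (Nat.le_of_not_lt h1)
    simpa [dgt] using congrFun e2 ⟨l, by omega⟩

/-! ### Masks -/

def NE (n j v : ℕ) : ℕ := Nat.xor (ful 3 n) (G.E 3 n j v)

def EQ (n j v : ℕ) : ℕ := Nat.lor (G.E 3 n j v) 0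

theorem tb_EQ {n j v x : ℕ} (hj : j < 2 * n) (hx : x < 3 ^ (2 * n)) (e : dg 3 j x = v) :
    (EQ n j v).testBit x = true := by
  rw [EQ, tb_or, tb_E hj (e ▸ dg_lt (by norm_num) _ _) hx, decide_eq_true e, Bool.true_or]

def cn (n o x : ℕ) : T3 :=
  cnts (fun l => fN (o + l) fun j => fN (dg 3 l x) fun v => Nat.lor (NE n j v) 0) n

theorem cn_val {n o x c : ℕ} (hn : n ≤ 7) (ho : o ≤ n) (hc : c < 3 ^ (2 * n)) :
    (cn n o x).val c = ∑ l ∈ range n, nq (dg 3 l x) (dg 3 (o + l) c) := by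
  rw [cn, (val_cnts _ c n hn).1]
  refine sum_congr rfl fun l hl => ?_
  have := mem_range.1 hl
  rw [fN_eq, fN_eq, tb_or, Nat.zero_testBit, Bool.or_false, NE, tb_xor, tb_ful hc,
    tb_E (by omega) (dg_lt (by norm_num) _ _) hc, nq]
  by_cases h : dg 3 l x = dg 3 (o + l) c
  · simp [h]
  · simp [h, Ne.symm h]

/-- The cells that are compatible with the cell `c`. -/
def kp (n c : ℕ) : ℕ := cond (Nat.blt c (3 ^ (2 * n)))
  (fN (c % 3 ^ n) fun x => fN (c / 3 ^ n) fun y =>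
    Nat.lor (Nat.lor (Nat.lor (Nat.xor (cn n 0 x).a (cn n n y).a)
      (Nat.xor (cn n 0 x).b (cn n n y).b)) (Nat.xor (cn n 0 x).c (cn n n y).c))
      (Nat.shiftLeft 1 c)) (ful 3 n)

theorem kp_spec {n c c' : ℕ} {R : Rn n} (hn : n ≤ 7) (hT : Tight R) (h' : c' < 3 ^ (2 * n))
    (w : W n R c) (w' : W n R c') : (kp n c).testBit c' = true := by
  unfold kp
  cases hb : Nat.blt c (3 ^ (2 * n))
  · exact tb_ful h'
  have h : c < 3 ^ (2 * n) := by simpa using hb
  rw [cond_true, fN_eq, fN_eq]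
  by_contra hc
  simp only [tb_or, tb_xor, tb_bit, Bool.or_eq_true, not_or, Bool.not_eq_true, bne_eq_false_iff_eq,
    decide_eq_false_iff_not] at hc
  obtain ⟨⟨⟨ha, hb⟩, hc⟩, hne⟩ := hc
  refine hne (sepW hT h h' w w' ?_)
  have e : (cn n 0 (c % 3 ^ n)).val c' = (cn n n (c / 3 ^ n)).val c' := by
    rw [T3.val, T3.val, ha, hb, hc]
  rw [cn_val hn (by omega) h', cn_val hn le_rfl h'] at e
  refine (sum_congr rfl fun l hl => ?_).trans (e.trans (sum_congr rfl fun l _ => ?_))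
  · rw [dg_mod (mem_range.1 hl), zero_add]
  · rw [dg_div]

/-- The six permutations of three letters. -/
def pm (s v : ℕ) : ℕ := 77742444 / 3 ^ (3 * (s % 6) + v) % 3

theorem pm_lt (s v : ℕ) : pm s v < 3 := Nat.mod_lt _ (by norm_num)

theorem pm_perm (s : ℕ) : ∃ σ : Perm (Fin 3), ∀ v : Fin 3, (σ v : ℕ) = pm s v := by
  have h : ∀ s < 6, ∀ u v : Fin 3, pm s u = pm s v → u = v := by decide
  have e : ∀ v, pm (s % 6) v = pm s v := fun v => by rw [pm, pm, Nat.mod_mod]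
  have hi : Function.Injective fun v : Fin 3 => (⟨pm s v, pm_lt _ _⟩ : Fin 3) := fun u v huv =>
    h (s % 6) (Nat.mod_lt _ (by norm_num)) u v (by rw [e, e]; exact congrArg Fin.val huv)
  exact ⟨Equiv.ofBijective _ (Finite.injective_iff_bijective.1 hi), fun _ => rfl⟩

def okP (n p : ℕ) : Bool :=
  allLt (fun u => Nat.blt (dg 8 u p) n && allLt (fun v => !Nat.beq (dg 8 u p) (dg 8 v p)) u) n

def pc5 (t0 t1 t2 t3 t4 : ℕ) : ℕ :=
  Nat.add (Nat.div t0 6) (Nat.mul 8 (Nat.add (Nat.div t1 6) (Nat.mul 8 (Nat.add (Nat.div t2 6)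
    (Nat.mul 8 (Nat.add (Nat.div t3 6) (Nat.mul 8 (Nat.div t4 6))))))))

def pc (z : ℕ) : ℕ := pc5 (dg 32 0 z) (dg 32 1 z) (dg 32 2 z) (dg 32 3 z) (dg 32 4 z)

theorem dg_pc (z l : ℕ) (hl : l < 5) : dg 8 l (pc z) = dg 32 l z / 6 := by
  have h := fun j => dg_lt (k := 32) (by norm_num) j z
  have h0 := h 0
  have h1 := h 1
  have h2 := h 2
  have h3 := h 3
  have h4 := h 4
  rw [dg, pc, pc5]
  simp only [Nat.add_eq, Nat.mul_eq, show ∀ a, Nat.div a 6 = a / 6 from fun _ => rfl]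
  interval_cases l <;> norm_num <;> omega

theorem frame {n z : ℕ} (hn : n ≤ 5) (h : okP n (pc z) = true) :
    (∀ l < n, dg 32 l z / 6 < n) ∧ ∃ (σ : Fin n → Perm (Fin 3)) (π : Perm (Fin n)),
      ∀ (f : ℕ → Fin 3) (l : Fin n),
        (wr σ π (fun l => f l) l : ℕ) = pm (dg 32 l z) (f (dg 32 l z / 6)) := by
  rw [okP, allLt_iff] at h
  have h1 : ∀ l < n, dg 32 l z / 6 < n := fun l hl => by
    rw [← dg_pc z l (by omega)]
    simpa using (Bool.and_eq_true_iff.1 (h l hl)).1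
  have h2 : ∀ u < n, ∀ v < u, dg 32 u z / 6 ≠ dg 32 v z / 6 := fun u hu v hv => by
    rw [← dg_pc z u (by omega), ← dg_pc z v (by omega)]
    have := (allLt_iff _ _).1 (Bool.and_eq_true_iff.1 (h u hu)).2 v hv
    intro e
    rw [e, Nat.beq_refl] at this
    exact absurd this (by decide)
  have hi : Function.Injective fun l : Fin n => (⟨dg 32 l z / 6, h1 l l.2⟩ : Fin n) := by
    intro u v huv
    have e : dg 32 u z / 6 = dg 32 v z / 6 := congrArg Fin.val huv
    rcases lt_trichotomy (u : ℕ) v with h | h | h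
    · exact absurd e.symm (h2 v v.2 u h)
    · exact Fin.ext h
    · exact absurd e (h2 u u.2 v h)
  choose σ hσ using pm_perm
  exact ⟨h1, fun l => σ (dg 32 l z), Equiv.ofBijective _ (Finite.injective_iff_bijective.1 hi),
    fun f l => hσ _ _⟩

def tie (n l t : ℕ) : ℕ := cond (Nat.blt l n)
  (fN (n + t / 6) fun j => fN (pm t 0) fun a => fN (pm t 1) fun b => fN (pm t 2) fun c =>
    Nat.lor (Nat.lor (Nat.land (EQ n l a) (EQ n j 0)) (Nat.land (EQ n l b) (EQ n j 1)))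
      (Nat.land (EQ n l c) (EQ n j 2))) (ful 3 n)

theorem tie_spec {n l t c : ℕ} (hc : c < 3 ^ (2 * n))
    (h : l < n → t / 6 < n ∧ dg 3 l c = pm t (dg 3 (n + t / 6) c)) :
    (tie n l t).testBit c = true := by
  unfold tie
  cases hb : Nat.blt l n
  · exact tb_ful hc
  have hl : l < n := by simpa using hb
  obtain ⟨h1, h2⟩ := h hl
  rw [cond_true, fN_eq, fN_eq, fN_eq, fN_eq, tb_or, tb_or, tb_and, tb_and, tb_and]
  have h3 : dg 3 (n + t / 6) c < 3 := dg_lt (by norm_num) _ _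
  generalize hv : dg 3 (n + t / 6) c = v at h2 h3
  interval_cases v <;> simp [tb_EQ (by omega : l < 2 * n) hc h2, tb_EQ (by omega) hc hv]

/-- No cell of the state `z` is alive. -/
def lf (n z al : ℕ) : Bool :=
  fB (Nat.mod z 32) fun t0 => fB (Nat.mod (Nat.div z 32) 32) fun t1 =>
  fB (Nat.mod (Nat.div z 1024) 32) fun t2 => fB (Nat.mod (Nat.div z 32768) 32) fun t3 =>
  fB (Nat.mod (Nat.div z 1048576) 32) fun t4 => fB (pc5 t0 t1 t2 t3 t4) fun p =>
  Bool.rec false (Nat.beq (Nat.land (Nat.land (Nat.land (Nat.land (Nat.land al (tie n 0 t0))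
    (tie n 1 t1)) (tie n 2 t2)) (tie n 3 t3)) (tie n 4 t4)) 0) (okP n p)

def Al (n : ℕ) (R : Rn n) (al : ℕ) : Prop := ∀ c < 3 ^ (2 * n), W n R c → al.testBit c = true

def Ps (n : ℕ) (R : Rn n) (ps : ℕ) : Prop := ∀ c, ps.testBit c = true → W n R c

theorem lf_spec {n z al : ℕ} {R : Rn n} (hn : n ≤ 5) (hT : Tight R) (h : lf n z al = true)
    (ha : Al n R al) : False := by
  have e0 : Nat.mod z 32 = dg 32 0 z := by rw [dg, pow_zero, Nat.div_one]; rfl
  have e1 : Nat.mod (Nat.div z 32) 32 = dg 32 1 z := rfl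
  have e2 : Nat.mod (Nat.div z 1024) 32 = dg 32 2 z := rfl
  have e3 : Nat.mod (Nat.div z 32768) 32 = dg 32 3 z := rfl
  have e4 : Nat.mod (Nat.div z 1048576) 32 = dg 32 4 z := rfl
  rw [lf, fB_eq, fB_eq, fB_eq, fB_eq, fB_eq, fB_eq, e0, e1, e2, e3, e4] at h
  obtain ⟨h1, h2⟩ := rec_true h
  obtain ⟨lt, σ, π, hf⟩ := frame hn h2
  obtain ⟨x, y, r, e⟩ := hT.ex σ π
  obtain ⟨c, hc, rfl, rfl⟩ := code x y
  have key : ∀ l, (tie n l (dg 32 l z)).testBit c = true := fun l =>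
    tie_spec hc fun hl => ⟨lt l hl, by
      have := (congrArg Fin.val (e ⟨l, hl⟩)).trans (hf (dgt n c) ⟨l, hl⟩)
      simpa [dgt] using this⟩
  have := congrArg (fun m => Nat.testBit m c) (Nat.eq_of_beq_eq_true h1)
  simp [key, ha c hc r] at this

/-! ### Images of excluded configurations -/

/-- No section in `d` coordinates contains all cells of `K`. -/
def DeadC (d : ℕ) (K : List ℕ) : Prop :=
  ∀ S, Sys S → ∀ R : Rn d, S d R → (∀ u ∈ K, W d R u) → False

theorem face_RN {n : ℕ} {R : Rn (n + 1)} {f g : ℕ → Fin 3} (h : RN (n + 1) R f g)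
    (e : f n = g n) : RN n (face R) f g := by
  have key : ∀ f : ℕ → Fin 3, sn (fun l : Fin n => f l) (f n) = fun l : Fin (n + 1) => f l :=
    fun f => funext fun l => by
      refine Fin.lastCases ?_ (fun i => ?_) l <;> simp [sn]
  exact ⟨f n, by rw [key f, e, key g]; exact h⟩

theorem faces {S : ∀ n, Rn n → Prop} (hS : Sys S) {d n : ℕ} (h : d ≤ n) :
    ∀ R : Rn n, S n R → ∃ R' : Rn d, S d R' ∧
      ∀ f g, RN n R f g → (∀ l, d ≤ l → l < n → f l = g l) → RN d R' f g := by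
  induction n, h using Nat.le_induction with
  | base => exact fun R hR => ⟨R, hR, fun _ _ h _ => h⟩
  | succ n h ih =>
    intro R hR
    obtain ⟨R', h1, h2⟩ := ih _ (hS.face n R hR)
    exact ⟨R', h1, fun f g r e =>
      h2 f g (face_RN r (e n h (by omega))) fun l h3 h4 => e l h3 (by omega)⟩

def ax (n g x : ℕ) : ℕ := enc 3 (fun l => pm (dg 32 l g) (dg 3 (dg 32 l g / 6) x)) n

theorem W_ax {n g h : ℕ} {S : ∀ n, Rn n → Prop} (hS : Sys S) {R : Rn n} (hR : S n R) (hn : n ≤ 5)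
    (hg : okP n (pc g) = true) (hh : okP n (pc h) = true) : ∃ R', S n R' ∧ ∀ x y,
      W n R (ax n g x + ax n h y * 3 ^ n) → RN n R' (dgt 0 x) (dgt 0 y) := by
  obtain ⟨-, σ, π, h1⟩ := frame hn hg
  obtain ⟨-, τ, ρ, h2⟩ := frame hn hh
  refine ⟨_, hS.act n R σ π τ ρ hR, fun x y w => ?_⟩
  have a1 : wr σ π (fun l => dgt 0 x l) = fun l : Fin n => dgt 0 (ax n g x + ax n h y * 3 ^ n) l :=
    funext fun l => Fin.ext (by
      rw [h1]
      simp only [dgt, zero_add]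
      rw [dg_add (by norm_num) l.2, ax, dg_enc _ (fun _ _ => pm_lt _ _) _ l.2])
  have a2 : wr τ ρ (fun l => dgt 0 y l) = fun l : Fin n => dgt n (ax n g x + ax n h y * 3 ^ n) l :=
    funext fun l => Fin.ext (by
      rw [h2]
      simp only [dgt, zero_add]
      rw [ax, dg_hi (enc_lt _ fun _ _ => pm_lt _ _), ax, dg_enc _ (fun _ _ => pm_lt _ _) _ l.2])
  show R _ _
  rw [a1, a2]
  exact w

def img (n d g h : ℕ) (b : Bool) (u f : ℕ) : ℕ :=
  fN (u % 3 ^ d + f * 3 ^ d) fun x => fN (u / 3 ^ d % 3 ^ d + f * 3 ^ d) fun y =>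
    cond b (Nat.add (ax n g y) (Nat.mul (ax n h x) (3 ^ n)))
      (Nat.add (ax n g x) (Nat.mul (ax n h y) (3 ^ n)))

noncomputable def allI (n d g h : ℕ) (b : Bool) (ps : ℕ) (K : List ℕ) : ℕ → Bool :=
  List.rec (fun _ => true) (fun u _ r f =>
    Bool.rec false (r (f / 32)) (Nat.testBit ps (img n d g h b u (f % 32)))) K

theorem allI_spec {n d g h : ℕ} {b : Bool} {ps : ℕ} (K : List ℕ) : ∀ f,
    allI n d g h b ps K f = true → ∀ u ∈ K, ∃ f, ps.testBit (img n d g h b u f) = true := by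
  induction K with
  | nil => intro _ _ u hu; exact absurd hu List.not_mem_nil
  | cons v K ih =>
    intro f hf u hu
    obtain ⟨h1, h2⟩ := rec_true hf
    rcases List.mem_cons.1 hu with rfl | hu
    · exact ⟨_, h2⟩
    · exact ih _ h1 u hu

/-- An image of the configuration number `i / 2` of the library is known to be present. -/
noncomputable def dl (n : ℕ) (lib : List (ℕ × List ℕ)) (i g h f ps : ℕ) : Bool :=
  Option.rec false (fun e => Nat.ble e.1 n && fB (pc g) (fun p => okP n p && true) &&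
    fB (pc h) (fun p => okP n p && true) && allI n e.1 g h (Nat.beq (i % 2) 1) ps e.2 f) lib[i / 2]?

theorem dl_spec {n i g h f ps : ℕ} {lib : List (ℕ × List ℕ)} {S : ∀ n, Rn n → Prop} (hS : Sys S)
    {R : Rn n} (hR : S n R) (hn : n ≤ 5) (hl : ∀ e ∈ lib, DeadC e.1 e.2)
    (hd : dl n lib i g h f ps = true) (hp : Ps n R ps) : False := by
  unfold dl at hd
  cases he : lib[i / 2]? with
  | none => rw [he] at hd; exact absurd hd Bool.false_ne_true
  | some e =>
    rw [he] at hd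
    simp only [fB_eq, Bool.and_eq_true, and_true, Nat.ble_eq] at hd
    obtain ⟨⟨⟨h1, h2⟩, h3⟩, h4⟩ := hd
    obtain ⟨R1, s1, r1⟩ := W_ax hS hR hn h2 h3
    obtain ⟨R2, s2, r2⟩ : ∃ R2, S n R2 ∧ ∀ u f, W n R (img n e.1 g h (Nat.beq (i % 2) 1) u f) →
        RN n R2 (dgt 0 (u % 3 ^ e.1 + f * 3 ^ e.1))
          (dgt 0 (u / 3 ^ e.1 % 3 ^ e.1 + f * 3 ^ e.1)) := by
      cases Nat.beq (i % 2) 1
      · exact ⟨R1, s1, fun u f w => r1 _ _ (by rwa [img, fN_eq, fN_eq] at w)⟩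
      · exact ⟨_, hS.dual n R1 s1, fun u f w => r1 _ _ (by rwa [img, fN_eq, fN_eq] at w)⟩
    obtain ⟨R3, s3, r3⟩ := faces hS h1 R2 s2
    refine hl e (List.mem_of_getElem? he) S hS R3 s3 fun u hu => ?_
    obtain ⟨f, hf⟩ := allI_spec _ _ h4 u hu
    have hpos : 0 < 3 ^ e.1 := by positivity
    refine (r3 _ _ (r2 u f (hp _ hf)) fun l hl _ => Fin.ext ?_).congr
      (fun l hl => Fin.ext ?_) fun l hl => Fin.ext ?_
    · obtain ⟨j, rfl⟩ := Nat.exists_eq_add_of_le hl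
      simp only [dgt, zero_add]
      rw [dg_hi (Nat.mod_lt _ hpos), dg_hi (Nat.mod_lt _ hpos)]
    · simp only [dgt, zero_add]
      rw [dg_add (by norm_num) hl, dg_mod hl]
    · simp only [dgt, zero_add]
      rw [dg_add (by norm_num) hl, dg_mod hl, dg_div]

/-! ### The checker -/

inductive Tr where
  | L (z : ℕ) : Tr
  | S (c : ℕ) (t u : Tr) : Tr
  | D (i g h f : ℕ) : Tr
  | A (i : ℕ) : Tr

noncomputable def sl (sub : List (List ℕ × List ℕ)) (i al ps : ℕ) : Bool :=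
  Option.rec false (fun e => e.1.all (Nat.testBit ps) && e.2.all fun c => !Nat.testBit al c) sub[i]?

noncomputable def chk (n : ℕ) (lib : List (ℕ × List ℕ)) (sub : List (List ℕ × List ℕ)) (t : Tr) :
    ℕ → ℕ → Bool :=
  Tr.rec (fun z al _ => lf n z al)
    (fun c _ _ ht hu al ps => Bool.rec false (hu (Nat.xor al (Nat.shiftLeft 1 c)) ps)
      (ht (Nat.land al (kp n c)) (Nat.lor ps (Nat.shiftLeft 1 c))))
    (fun i g h f _ ps => dl n lib i g h f ps) (fun i al ps => sl sub i al ps) t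

theorem Al.kp {n al c : ℕ} {R : Rn n} (hn : n ≤ 7) (hT : Tight R) (h : Al n R al) (w : W n R c) :
    Al n R (Nat.land al (kp n c)) := fun x hx wx => by
  rw [tb_and, h x hx wx, kp_spec hn hT hx w wx, Bool.and_self]

theorem Al.neg {n al c : ℕ} {R : Rn n} (h : Al n R al) (w : c < 3 ^ (2 * n) → ¬W n R c) :
    Al n R (Nat.xor al (Nat.shiftLeft 1 c)) := fun x hx wx => by
  rw [tb_xor, h x hx wx, tb_bit, decide_eq_false (by rintro rfl; exact w hx wx), Bool.xor_false]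

theorem Ps.add {n ps c : ℕ} {R : Rn n} (h : Ps n R ps) (w : W n R c) :
    Ps n R (Nat.lor ps (Nat.shiftLeft 1 c)) := fun x hx => by
  rw [tb_or, tb_bit, Bool.or_eq_true, decide_eq_true_iff] at hx
  rcases hx with hx | rfl
  · exact h x hx
  · exact w

theorem chk_sound {n : ℕ} {lib : List (ℕ × List ℕ)} {sub : List (List ℕ × List ℕ)}
    {S : ∀ n, Rn n → Prop} (hS : Sys S) {R : Rn n} (hR : S n R) (hn : n ≤ 5)
    (hl : ∀ e ∈ lib, DeadC e.1 e.2)
    (hs : ∀ e ∈ sub, (∀ c ∈ e.1, W n R c) → (∀ c ∈ e.2, c < 3 ^ (2 * n) → ¬W n R c) → False)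
    (t : Tr) : ∀ al ps, chk n lib sub t al ps = true → Al n R al → Ps n R ps → False := by
  have hT := hS.tight n R hR
  induction t with
  | L z => exact fun al ps h ha _ => lf_spec hn hT h ha
  | S c t u ht hu =>
    intro al ps h ha hp
    obtain ⟨h1, h2⟩ := rec_true h
    by_cases w : W n R c
    · exact ht _ _ h2 (ha.kp (by omega) hT w) (hp.add w)
    · exact hu _ _ h1 (ha.neg fun _ => w) hp
  | D i g h f => exact fun al ps h _ hp => dl_spec hS hR hn hl h hp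
  | A i =>
    intro al ps h ha hp
    change sl sub i al ps = true at h
    unfold sl at h
    cases he : sub[i]? with
    | none => rw [he] at h; exact absurd h Bool.false_ne_true
    | some e =>
      rw [he] at h
      simp only [Bool.and_eq_true, List.all_eq_true, Bool.not_eq_true'] at h
      refine hs e (List.mem_of_getElem? he) (fun c hc => hp c (h.1 c hc)) fun c hc lt w => ?_
      have := h.2 c hc
      rw [ha c lt w] at this
      exact absurd this (by decide)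

/-! ### Extensions by one coordinate -/

def lift (d u a : ℕ) : ℕ := (u % 3 ^ d + a * 3 ^ d) + (u / 3 ^ d % 3 ^ d + a * 3 ^ d) * 3 ^ (d + 1)

theorem W_lift {d u : ℕ} {R : Rn (d + 1)} (a : Fin 3) : W (d + 1) R (lift d u a) ↔
    R (sn (fun l => dgt 0 u l) a) (sn (fun l => dgt d u l) a) := by
  have hpos : 0 < 3 ^ d := by positivity
  have ha := a.2
  have h0 : dg 3 0 a = a := by rw [dg, pow_zero, Nat.div_one, Nat.mod_eq_of_lt ha]
  have lt : u % 3 ^ d + a * 3 ^ d < 3 ^ (d + 1) := by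
    have := Nat.mod_lt u hpos
    have : (a : ℕ) * 3 ^ d ≤ 2 * 3 ^ d := Nat.mul_le_mul_right _ (by omega)
    omega
  have e1 : (fun l : Fin (d + 1) => dgt 0 (lift d u a) l) = sn (fun l => dgt 0 u l) a := by
    funext l
    refine Fin.lastCases (Fin.ext ?_) (fun i => Fin.ext ?_) l
    · simp only [sn, Fin.snoc_last, dgt, zero_add, Fin.val_last, lift]
      rw [dg_add (by norm_num) (by omega)]
      exact (dg_hi (Nat.mod_lt u hpos) 0 a).trans h0
    · have := i.2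
      simp only [sn, Fin.snoc_castSucc, dgt, zero_add, Fin.val_castSucc, lift]
      rw [dg_add (by norm_num) (by omega), dg_add (by norm_num) this, dg_mod this]
  have e2 : (fun l : Fin (d + 1) => dgt (d + 1) (lift d u a) l) = sn (fun l => dgt d u l) a := by
    funext l
    refine Fin.lastCases (Fin.ext ?_) (fun i => Fin.ext ?_) l
    · simp only [sn, Fin.snoc_last, dgt, Fin.val_last, lift]
      rw [dg_hi lt]
      exact (dg_hi (Nat.mod_lt (u / 3 ^ d) hpos) 0 a).trans h0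
    · have := i.2
      simp only [sn, Fin.snoc_castSucc, dgt, Fin.val_castSucc, lift]
      rw [dg_hi lt, dg_add (by norm_num) this, dg_mod this, dg_div]
  rw [W, RN, e1, e2]

def kk (d u : ℕ) : ℕ := fN (lift d u 0) fun a => fN (lift d u 1) fun b => fN (lift d u 2) fun c =>
  Nat.lor (Nat.lor (kp (d + 1) a) (kp (d + 1) b)) (kp (d + 1) c)

noncomputable def al0 (d : ℕ) (K P N : List ℕ) : ℕ :=
  List.rec (List.rec (List.rec (ful 3 (d + 1)) (fun c _ r => Nat.xor r (Nat.shiftLeft 1 c)) N)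
    (fun c _ r => Nat.land r (kp (d + 1) c)) P) (fun c _ r => Nat.land r (kk d c)) K

noncomputable def ps0 (P : List ℕ) : ℕ :=
  List.rec 0 (fun c _ r => Nat.lor r (Nat.shiftLeft 1 c)) P

theorem al0_spec {d : ℕ} {R : Rn (d + 1)} (hd : d < 5) (hT : Tight R) (K P N : List ℕ)
    (hK : ∀ u ∈ K, W d (face R) u) (hP : ∀ c ∈ P, W (d + 1) R c)
    (hN : ∀ c ∈ N, c < 3 ^ (2 * (d + 1)) → ¬W (d + 1) R c) : Al (d + 1) R (al0 d K P N) := by
  induction K with
  | nil =>
    induction P with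
    | nil =>
      induction N with
      | nil => exact fun c hc _ => tb_ful hc
      | cons c N ih =>
        exact (ih fun x hx => hN x (List.mem_cons_of_mem _ hx)).neg (hN c List.mem_cons_self)
    | cons c P ih =>
      exact (ih fun x hx => hP x (List.mem_cons_of_mem _ hx)).kp (by omega) hT
        (hP c List.mem_cons_self)
  | cons u K ih =>
    intro x hx wx
    obtain ⟨a, ha⟩ := hK u List.mem_cons_self
    have h1 := kp_spec (by omega) hT hx ((W_lift a).2 ha) wx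
    have h2 : (kk d u).testBit x = true := by
      rw [kk, fN_eq, fN_eq, fN_eq, tb_or, tb_or]
      fin_cases a <;> simp at h1 <;> simp [h1]
    exact (tb_and _ _ _).trans (by
      rw [h2, Bool.and_true]
      exact ih (fun x hx => hK x (List.mem_cons_of_mem _ hx)) x hx wx)

theorem ps0_spec {n : ℕ} {R : Rn n} (P : List ℕ) (hP : ∀ c ∈ P, W n R c) : Ps n R (ps0 P) := by
  induction P with
  | nil => intro c hc; exact absurd hc (by rw [show ps0 [] = 0 from rfl]; simp)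
  | cons c P ih =>
    exact (ih fun x hx => hP x (List.mem_cons_of_mem _ hx)).add (hP c List.mem_cons_self)

/-- No section in `d + 1` coordinates has the cells `K` in its face, contains `P` and avoids `N`. -/
def Dead (d : ℕ) (K P N : List ℕ) : Prop :=
  ∀ S, Sys S → ∀ R : Rn (d + 1), S (d + 1) R → (∀ u ∈ K, W d (face R) u) →
    (∀ c ∈ P, W (d + 1) R c) → (∀ c ∈ N, c < 3 ^ (2 * (d + 1)) → ¬W (d + 1) R c) → False

def All {β : Type} (p : β → Prop) : List β → Prop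
  | [] => True
  | e :: l => p e ∧ All p l

theorem All.mem {β : Type} {p : β → Prop} {l : List β} (h : All p l) : ∀ e ∈ l, p e := by
  induction l with
  | nil => exact fun e he => absurd he List.not_mem_nil
  | cons a l ih =>
    intro e he
    rcases List.mem_cons.1 he with rfl | he
    · exact h.1
    · exact ih h.2 e he

noncomputable def run (d : ℕ) (lib : List (ℕ × List ℕ)) (sub : List (List ℕ × List ℕ)) (t : Tr)
    (K P N : List ℕ) : Bool :=
  Nat.blt d 5 && chk (d + 1) lib sub t (al0 d K P N) (ps0 P)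

theorem dead_of {d : ℕ} {lib : List (ℕ × List ℕ)} {sub : List (List ℕ × List ℕ)} {t : Tr}
    {K P N : List ℕ} (h : run d lib sub t K P N = true) (hl : All (fun e => DeadC e.1 e.2) lib)
    (hs : All (fun e => Dead d K e.1 e.2) sub) : Dead d K P N := by
  intro S hS R hR hK hP hN
  obtain ⟨h1, h2⟩ := Bool.and_eq_true_iff.1 h
  have hd : d < 5 := by simpa using h1
  exact chk_sound hS hR hd hl.mem (fun e he => hs.mem e he S hS R hR hK) t _ _ h2
    (al0_spec hd (hS.tight _ R hR) K P N hK hP hN) (ps0_spec P hP)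

theorem norm {d : ℕ} {S : ∀ n, Rn n → Prop} (hS : Sys S) {R : Rn (d + 1)} (hR : S (d + 1) R)
    (μ : Perm (Fin 3)) : ∃ R', S (d + 1) R' ∧ (∀ x y, face R x y → face R' x y) ∧
      ∀ x y a, R (sn x (μ a)) (sn y (μ a)) → R' (sn x a) (sn y a) := by
  let σ : Fin (d + 1) → Perm (Fin 3) := fun l => if l = Fin.last d then μ else 1
  have key : ∀ x a, wr σ 1 (sn x a) = sn x (μ a) := fun x a => funext fun l => by
    refine Fin.lastCases ?_ (fun i => ?_) l
    · simp [wr, sn, σ]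
    · simp [wr, sn, σ, Fin.castSucc_ne_last]
  have h : ∀ x y a, R (sn x (μ a)) (sn y (μ a)) → R (wr σ 1 (sn x a)) (wr σ 1 (sn y a)) :=
    fun x y a r => by rwa [key, key]
  exact ⟨_, hS.act _ R σ 1 σ 1 hR,
    fun x y ⟨a, r⟩ => ⟨μ.symm a, h x y _ (by rwa [apply_symm_apply])⟩, h⟩

def P4 (d u1 u2 u3 u4 a1 a2 a3 a4 : ℕ) : List ℕ :=
  [lift d u1 a1, lift d u2 a2, lift d u3 a3, lift d u4 a4]

theorem pats : ∀ a a' b b' : Fin 3, ¬(a = a' ↔ b = b') → ∃ μ : Perm (Fin 3),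
    ∃ p ∈ [((0 : Fin 3), (0 : Fin 3), (0 : Fin 3), (1 : Fin 3)), (0, 0, 1, 0), (0, 0, 1, 2),
      (0, 1, 0, 0), (1, 0, 0, 0), (1, 2, 0, 0)],
      μ p.1 = a ∧ μ p.2.1 = a' ∧ μ p.2.2.1 = b ∧ μ p.2.2.2 = b' := by
  decide +kernel

theorem eqRule {d : ℕ} {K : List ℕ} (u1 u2 u3 u4 : ℕ)
    (h : u1 ∈ K ∧ u2 ∈ K ∧ u3 ∈ K ∧ u4 ∈ K ∧ hd d 0 u1 u2 ≠ 0 ∧ hd d 0 u1 u2 = hd d d u3 u4)
    (h1 : Dead d K (P4 d u1 u2 u3 u4 0 0 0 1) []) (h2 : Dead d K (P4 d u1 u2 u3 u4 0 0 1 0) [])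
    (h3 : Dead d K (P4 d u1 u2 u3 u4 0 0 1 2) []) (h4 : Dead d K (P4 d u1 u2 u3 u4 0 1 0 0) [])
    (h5 : Dead d K (P4 d u1 u2 u3 u4 1 0 0 0) []) (h6 : Dead d K (P4 d u1 u2 u3 u4 1 2 0 0) []) :
    DeadC d K := by
  intro S hS R hR hK
  obtain ⟨m1, m2, m3, m4, n0, e⟩ := h
  obtain ⟨R1, s1, rfl, a, a', b, b', r1, r2, r3, r4, ne⟩ := hS.eq d R hR _ _ _ _ _ _ _ _
    (hK u1 m1) (hK u2 m2) (hK u3 m3) (hK u4 m4)
    (fun e => n0 (by rw [← ham, e, hammingDist_self])) (by rw [ham, ham, e])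
  obtain ⟨μ, p, hp, rfl, rfl, rfl, rfl⟩ := pats a a' b b' ne
  obtain ⟨R2, s2, f2, g2⟩ := norm hS s1 μ
  have fin : Dead d K (P4 d u1 u2 u3 u4 p.1 p.2.1 p.2.2.1 p.2.2.2) [] → False := fun h =>
    h S hS R2 s2 (fun u hu => f2 _ _ (hK u hu)) (fun c hc => by
      simp only [P4, List.mem_cons, List.not_mem_nil, or_false] at hc
      rcases hc with rfl | rfl | rfl | rfl
      exacts [(W_lift _).2 (g2 _ _ _ r1), (W_lift _).2 (g2 _ _ _ r2), (W_lift _).2 (g2 _ _ _ r3),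
        (W_lift _).2 (g2 _ _ _ r4)]) fun c hc => absurd hc List.not_mem_nil
  simp only [List.mem_cons, List.not_mem_nil, or_false] at hp
  rcases hp with rfl | rfl | rfl | rfl | rfl | rfl
  exacts [fin h1, fin h2, fin h3, fin h4, fin h5, fin h6]

theorem liftRule {K : List ℕ} (u1 u2 u3 u4 u5 u6 : ℕ)
    (h : u1 ∈ K ∧ u2 ∈ K ∧ u3 ∈ K ∧ u4 ∈ K ∧ u5 ∈ K ∧ u6 ∈ K ∧ hd 4 0 u1 u2 = 3 ∧
      hd 4 4 u3 u4 = 2 ∧ hd 4 4 u5 u6 = 4) (h1 : Dead 4 K [lift 4 u1 0] []) : DeadC 4 K := by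
  intro S hS R hR hK
  obtain ⟨m1, m2, m3, m4, m5, m6, e1, e2, e3⟩ := h
  obtain ⟨R1, s1, rfl⟩ := hS.lift R hR _ _ _ _ _ _ _ _ _ _ _ _ (hK u1 m1) (hK u2 m2) (hK u3 m3)
    (hK u4 m4) (hK u5 m5) (hK u6 m6) (by rw [ham, e1]) (by rw [ham, e2]) (by rw [ham, e3])
  obtain ⟨a, r⟩ := hK u1 m1
  obtain ⟨μ, rfl⟩ := exists_perm1 (0 : Fin 3) a
  obtain ⟨R2, s2, f2, g2⟩ := norm hS s1 μ
  exact h1 S hS R2 s2 (fun u hu => f2 _ _ (hK u hu)) (fun c hc => by
    rw [List.mem_singleton.1 hc]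
    exact (W_lift 0).2 (g2 _ _ _ r)) fun c hc => absurd hc List.not_mem_nil

end Pool.Agent.MP_92191b_al.K3.E
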