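import Pool.Agent.MP_92191b_al.K3.NXB

/-! Colourings of a cross plane by a third coordinate. -/

namespace Pool.Agent.MP_92191b_al.K3

open Finset Function Equiv K6 X

namespace NX

def OKF (F G : α → α → α) : Prop :=
  (∃ μ, ∀ i j, i ≠ 0 → j ≠ 0 → F i j = μ) ∨
  ∃ m, (∀ i j, i = 0 ∨ j = 0 → i ≠ 0 ∨ j ≠ 0 → G i j = m) ∧
    ((∀ i j i' j', i ≠ 0 → j ≠ 0 → i' ≠ 0 → j' ≠ 0 → i = i' ∨ j = j' → F i j ≠ m → F i' j' ≠ m →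
        i = i' ∧ j = j') ∨
      ((∀ i j i' j', i ≠ 0 → j ≠ 0 → i' ≠ 0 → j' ≠ 0 → i = i' ∨ j = j' → F i j = F i' j' →
        i = i' ∧ j = j') ∧ ∀ i j, i ≠ 0 → j ≠ 0 → F i j ≠ m))

def OKL (F G : α → α → α) : Prop :=
  ∀ μ, (∀ i j, i ≠ 0 → j ≠ 0 → F i j = μ) →
    (∀ i j, i = 0 ∨ j = 0 → i ≠ 0 ∨ j ≠ 0 → G i j = μ) ∨
    ∃ p, p ≠ μ ∧ (∀ i j, i = 0 ∨ j = 0 → i ≠ 0 ∨ j ≠ 0 → G i j = p ∨ G i j = μ) ∧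
      ∀ i j, i = 0 ∨ j = 0 → i ≠ 0 ∨ j ≠ 0 → G i j = μ →
        ∀ i' j', i' = 0 ∨ j' = 0 → i' ≠ 0 ∨ j' ≠ 0 → G i' j' = μ → i = i' ∧ j = j'

set_option synthInstance.maxSize 100000 in
instance (F G : α → α → α) : Decidable (OKF F G) := by unfold OKF; infer_instance

set_option synthInstance.maxSize 100000 in
instance (F G : α → α → α) : Decidable (OKL F G) := by unfold OKL; infer_instance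

def cF (n : ℕ) (i j : α) : α := f3 (n / 3 ^ (3 * i.val + j.val))

def cG (n : ℕ) (i j : α) : α := f3 (n / 3 ^ (9 + 3 * i.val + j.val))

def good4 (n k : ℕ) : Bool := decide
  ((∀ i j : α, i ≠ 0 → j ≠ 0 →
      k.testBit (ew (1, 3, 9) (1, 3, 9) 0 0 (cF n i j) i j (cF n i j)) = true) ∧
    (∀ i j : α, i = 0 ∨ j = 0 → i ≠ 0 ∨ j ≠ 0 →
      k.testBit (ew (1, 3, 9) (1, 3, 9) i j (cG n i j) 0 0 (cG n i j)) = true) ∧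
    OKF (cF n) (cG n) ∧ OKL (cF n) (cG n))

set_option maxRecDepth 100000 in
def t4 : Tr :=
  (.B 0 36 (.P 2 (.P 4 (.P 36 (.P 38 (.P 84 (.P 86 (.P 88 (.P 98 (.P 100 (.P 158 (.P 170 (.B 0 63
  (.P 2 (.P 4 (.P 36 (.P 38 (.P 96 (.P 98 (.P 122 (.P 124 (.P 126 (.P 192 (.B 0 45 (.P 2 (.P 4
  (.P 12 (.P 14 (.P 16 (.P 84 (.P 86 (.B 0 72 (.P 120 (.B 0 1 (.P 2 (.P 12 (.P 14 (.P 24 (.B 0 2
  (.P 12 (.P 14 (.P 72 (.P 84 (.B 0 3 (.B 0 6 (.G 0) z z) z z))))) (.P 14 (.P 24 (.P 26 (.P 28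
  (.P 72 (.P 84 (.P 86 (.P 98 (.P 100 (.P 146 (.B 0 3 z (.B 0 6 z (.G 14585103) z) z)))))))))))
  (.P 4 (.P 12 (.P 14 (.P 28 (.P 50 (.P 110 (.P 156 (.P 168 (.P 170 (.P 192 (.P 12 (.B 0 3 z z
  (.B 0 6 z z (.G 29170206))))))))))))))))))) (.P 4 (.P 14 (.P 18 (.P 26 (.P 50 (.P 62 (.P 84 (.P
  86 (.P 88 (.P 96 (.P 98 (.P 108 (.P 110 (.P 112 (.B 0 2 (.P 12 (.B 0 3 z (.B 0 6 z (.G 767637)
  z) z)) (.B 0 3 (.P 12 (.B 0 6 z (.G 15057495) z)) (.B 0 6 (.G 14939397) (.G 15116544) z) z)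
  z))))))))))))))) (.P 14 (.P 16 (.P 24 (.P 50 (.P 84 (.P 88 (.P 98 (.P 100 (.P 102 (.P 132 (.B 0
  2 (.P 12 (.B 0 3 z z (.B 0 6 z z (.G 1535274)))) z (.B 0 3 (.P 12 (.B 0 6 z z (.G 30114990))) z
  (.B 0 6 (.G 29878794) z (.G 30233088)))))))))))))))) (.P 48 (.P 50 (.P 60 (.P 62 (.P 64 (.P 72
  (.P 74 (.P 76 (.P 78 (.B 0 1 (.B 0 2 (.B 0 3 (.B 0 6 (.G 6561) z z) z z) z z) z z)))))))))) (.P
  12 (.P 14 (.P 24 (.P 26 (.P 28 (.P 74 (.P 76 (.P 84 (.P 86 (.P 88 (.P 110 (.P 112 (.P 120 (.B 0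
  1 (.B 0 2 (.B 0 3 (.B 0 6 (.G 13122) z z) z z) z z) z z)))))))))))))))))))))) (.P 12 (.P 60 (.P
  74 (.P 76 (.P 78 (.P 80 (.P 82 (.P 84 (.P 86 (.P 88 (.B 0 1 (.B 0 2 (.B 0 3 (.B 0 6 (.B 0 72
  (.G 2187) z z) z z) z z) z z) z z))))))))))) (.P 24 (.P 38 (.P 40 (.P 48 (.P 50 (.P 52 (.P 60
  (.P 72 (.P 74 (.P 76 (.P 86 (.P 88 (.P 90 (.P 110 (.P 112 (.B 0 1 (.B 0 2 (.B 0 3 (.B 0 6 (.B 0
  72 (.G 4374) z z) z z) z z) z z) z z))))))))))))))))))))))))))) (.P 24 (.P 48 (.P 74 (.P 76 (.P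
  98 (.P 100 (.P 102 (.P 108 (.P 110 (.P 112 (.P 122 (.P 124 (.P 126 (.P 144 (.P 146 (.P 148 (.P
  168 (.P 182 (.P 184 (.P 192 (.P 2 (.P 4 (.P 14 (.P 16 (.P 26 (.P 28 (.P 36 (.P 38 (.P 40 (.P 50
  (.P 60 (.P 64 (.B 0 45 (.P 2 (.P 4 (.P 12 (.P 14 (.P 16 (.P 72 (.P 74 (.B 0 1 (.B 0 2 (.B 0 3
  (.B 0 6 (.B 0 72 (.G 243) z z) z z) z z) z z) z z)))))))) (.P 76 (.P 86 (.P 88 (.P 158 (.P 160
  (.B 2 39 (.B 0 1 z (.P 14 (.P 16 (.P 38 (.B 0 2 z (.B 0 3 z (.B 0 6 z (.B 0 72 z (.G 15125535)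
  (.G 15132096)) z) z) z)))) (.P 14 (.P 16 (.P 74 (.P 110 (.B 0 2 z z (.B 0 3 z z (.B 0 6 z z (.B
  0 72 (.G 30235518) z z))))))))) z z)))))) (.P 24 (.P 26 (.P 28 (.P 74 (.P 86 (.P 88 (.P 96 (.P
  110 (.P 112 (.B 0 1 (.B 0 2 (.B 0 3 (.B 0 6 (.B 0 72 (.G 4617) z z) z z) z z) z z) z
  z))))))))))))))))))))))))))))))))))))))))))) (.P 12 (.P 60 (.P 72 (.P 84 (.P 98 (.P 100 (.P 102
  (.P 108 (.P 110 (.P 112 (.P 122 (.P 124 (.P 126 (.P 146 (.P 148 (.P 156 (.P 192 (.P 2 (.P 4 (.P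
  14 (.P 16 (.P 18 (.P 24 (.P 26 (.P 28 (.P 38 (.P 40 (.P 48 (.P 60 (.P 64 (.B 0 45 (.P 2 (.P 12
  (.P 14 (.P 16 (.P 74 (.P 110 (.B 0 1 (.B 0 2 (.B 0 3 (.B 0 6 (.B 0 72 (.G 486) z z) z z) z z) z
  z) z z))))))) (.P 12 (.P 14 (.P 60 (.P 62 (.P 64 (.P 74 (.P 76 (.P 78 (.B 0 1 (.B 0 2 (.B 0 3
  (.B 0 6 (.B 0 72 (.G 2673) z z) z z) z z) z z) z z))))))))) (.P 86 (.P 88 (.P 120 (.P 158 (.P
  160 (.B 2 39 (.B 0 1 z (.P 4 (.P 14 (.P 16 (.P 74 (.P 110 (.B 0 2 z (.B 0 3 z (.B 0 6 z (.B 0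
  72 (.G 15121404) z z) z) z) z)))))) (.P 14 (.P 16 (.P 38 (.B 0 2 z z (.B 0 3 z z (.B 0 6 z z
  (.B 0 72 z (.G 30244509) (.G 30251070))))))))) z
  z))))))))))))))))))))))))))))))))))))))))))))))))) (.P 12 (.P 24 (.P 74 (.P 76 (.P 86 (.P 88
  (.P 98 (.P 100 (.P 146 (.P 158 (.P 170 (.B 0 63 (.P 2 (.P 4 (.P 14 (.P 16 (.P 18 (.P 26 (.P 28
  (.P 36 (.P 38 (.P 40 (.P 42 (.P 50 (.P 54 (.P 64 (.P 74 (.P 76 (.P 86 (.P 88 (.P 90 (.P 96 (.P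
  98 (.P 100 (.P 102 (.P 108 (.P 110 (.P 112 (.P 144 (.P 146 (.P 148 (.P 194 (.P 4 (.P 14 (.P 16
  (.B 0 45 (.P 2 (.P 4 (.P 14 (.P 16 (.B 72 36 z (.B 0 1 (.P 12 (.P 14 (.P 16 (.P 74 (.B 0 2 (.B
  0 3 (.B 0 6 (.B 0 72 (.G 81) z (.G 13203)) z z) z z) z z))))) z (.P 14 (.P 16 (.P 38 (.P 110
  (.B 0 2 z z (.B 0 3 z z (.B 0 6 z z (.B 0 72 z (.G 30239730) z))))))))) z))))) (.P 74 (.P 78
  (.P 86 (.P 88 (.P 122 (.P 158 (.P 160 (.B 0 1 z (.B 0 2 z (.B 0 3 z (.B 0 6 z (.B 0 72 z (.G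
  15125373) z) z) z) z) z)))))))) (.P 72 (.P 86 (.P 88 (.P 110 (.P 112 (.P 122 (.P 158 (.P 160
  (.B 0 1 z (.B 0 2 z (.B 0 3 z (.B 0 6 z (.B 0 72 z (.G 15127560) z) z) z) z)
  z))))))))))))))))))))))))))))))))))))))))))) (.P 24 (.P 48 (.P 74 (.P 76 (.P 98 (.P 122 (.P 124
  (.P 132 (.P 156 (.B 0 45 (.P 2 (.P 4 (.P 14 (.P 16 (.P 24 (.P 26 (.P 28 (.P 36 (.P 38 (.P 40
  (.P 50 (.P 60 (.P 62 (.P 64 (.P 66 (.P 72 (.P 74 (.P 76 (.P 84 (.P 86 (.P 88 (.P 110 (.P 112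
  (.P 122 (.P 158 (.P 160 (.B 0 1 z (.B 0 2 z (.B 0 3 z (.B 0 6 z (.B 0 72 z (.G 15123429) z) z)
  z) z) z))))))))))))))))))))))))))) (.P 12 (.P 26 (.P 28 (.P 48 (.P 50 (.P 52 (.P 60 (.P 74 (.P
  76 (.B 0 72 (.P 2 (.P 4 (.P 14 (.P 16 (.P 18 (.B 0 1 z (.B 0 2 z (.B 0 3 z (.B 0 6 z (.G
  15119055) z) z) z) z)))))) (.B 0 1 (.P 2 (.P 12 (.P 14 (.P 16 (.P 24 (.P 36 (.B 0 2 (.B 0 3 (.B
  0 6 (.G 9072) (.G 186219) z) (.P 2 (.P 14 (.P 16 (.B 0 6 (.G 68121) z z)))) z) (.P 14 (.P 28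
  (.B 0 3 (.B 0 6 (.G 14357979) z z) z z))) z))))))) (.P 4 (.P 14 (.P 26 (.B 0 2 (.P 12 (.P 14
  (.P 16 (.B 0 3 (.B 0 6 (.G 540513) z z) z z)))) (.P 14 (.P 36 (.P 48 (.P 52 (.B 0 3 z (.B 0 6 z
  (.G 15125616) z) z))))) (.P 4 (.P 14 (.P 24 (.P 26 (.P 86 (.P 90 (.P 96 (.P 108 (.P 156 (.P 158
  (.P 182 (.B 0 3 z z (.B 0 6 z z (.G 29710719)))))))))))))))))) (.P 14 (.P 24 (.P 26 (.P 40 (.P
  86 (.P 88 (.P 90 (.P 98 (.B 0 2 z (.P 14 (.P 28 (.B 0 3 z z (.B 0 6 z z (.G 15893253))))) (.B 0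
  3 z (.P 16 (.B 0 6 z z (.G 30183111))) (.B 0 6 z (.G 30065013) (.G 30242160))))))))))))) (.P 12
  (.P 14 (.P 16 (.P 24 (.P 38 (.P 40 (.P 72 (.P 110 (.P 112 (.P 132 (.P 158 (.P 160 (.B 0 1 z (.B
  0 2 z (.B 0 3 z (.B 0 6 z (.G 15132177) z) z) z) z))))))))))))))))))))))) (.P 24 (.P 28 (.P 48
  (.P 50 (.P 62 (.P 72 (.P 76 (.P 84 (.P 86 (.P 88 (.P 90 (.P 96 (.P 110 (.P 112 (.P 120 (.P 122
  (.P 144 (.P 158 (.P 160 (.B 0 1 z (.B 0 2 z (.B 0 3 z (.B 0 6 z (.B 0 72 z (.G 15127803) z) z)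
  z) z) z)))))))))))))))))))))))))))))) (.P 12 (.P 14 (.P 16 (.P 60 (.P 72 (.P 74 (.P 76 (.P 84
  (.P 98 (.P 100 (.P 102 (.P 108 (.P 110 (.P 112 (.P 120 (.P 122 (.P 146 (.P 148 (.P 150 (.P 170
  (.P 2 (.P 4 (.P 14 (.P 16 (.P 18 (.P 26 (.P 28 (.P 36 (.P 38 (.P 40 (.P 76 (.P 112 (.B 0 45 (.P
  2 (.P 4 (.P 12 (.P 14 (.P 16 (.B 0 1 z (.B 0 2 z (.B 0 3 z (.B 0 6 z (.B 0 72 z (.G 15123672)
  z) z) z) z) z)))))) (.P 12 (.P 38 (.P 86 (.P 88 (.P 110 (.P 112 (.P 158 (.P 160 (.B 0 1 z (.B 0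
  2 z (.B 0 3 z (.B 0 6 z (.B 0 72 z (.G 15125859) z) z) z) z) z))))))))) (.P 24 (.P 26 (.P 28
  (.B 36 36 z (.B 0 1 (.P 2 (.P 12 (.P 14 (.P 16 (.P 110 (.B 0 2 (.B 0 3 (.B 0 6 (.B 0 72 z (.G
  11502) z) z z) z z) z z)))))) z (.P 14 (.P 16 (.P 48 (.B 0 2 z z (.B 0 3 z z (.B 0 6 z z (.B 0
  72 (.G 30238029) z (.G 30251151))))))))) z))))))))))))))))))))))))))))))))))))))))))))))))) (.P
  48 (.P 60 (.P 72 (.P 86 (.P 88 (.P 98 (.P 100 (.P 110 (.P 112 (.P 158 (.P 170 (.B 0 63 (.P 2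
  (.P 4 (.P 14 (.P 16 (.P 26 (.P 28 (.P 36 (.P 38 (.P 40 (.P 42 (.P 50 (.P 52 (.P 76 (.P 84 (.P
  86 (.P 88 (.P 96 (.P 98 (.P 100 (.P 108 (.P 110 (.P 122 (.P 146 (.P 148 (.P 182 (.P 194 (.P 4
  (.P 12 (.P 16 (.B 0 45 (.P 2 (.P 4 (.P 14 (.P 16 (.B 12 63 z (.B 84 63 z (.B 0 1 (.P 12 (.P 14
  (.P 16 (.P 84 (.B 0 2 (.B 0 3 (.B 0 6 (.B 0 72 (.G 162) (.G 6723) z) z z) z z) z z))))) (.P 14
  (.P 16 (.P 38 (.P 74 (.B 0 2 z (.B 0 3 z (.B 0 6 z (.B 0 72 z z (.G 15129828)) z) z) z))))) z)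
  z) z))))) (.P 12 (.P 14 (.P 74 (.P 76 (.P 120 (.P 146 (.P 148 (.B 0 1 z z (.B 0 2 z z (.B 0 3 z
  z (.B 0 6 z z (.B 0 72 z z (.G 30248559))))))))))))) (.P 72 (.P 74 (.P 86 (.P 88 (.P 90 (.P 98
  (.P 122 (.P 158 (.P 160 (.B 0 1 z z (.B 0 2 z z (.B 0 3 z z (.B 0 6 z z (.B 0 72 z z (.G
  30250746))))))))))))))))))))))))))))))))))))))))))))) (.P 24 (.P 48 (.P 50 (.P 52 (.P 74 (.P 76
  (.P 98 (.P 100 (.P 102 (.P 108 (.P 110 (.P 112 (.P 114 (.P 120 (.P 122 (.P 124 (.P 146 (.P 148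
  (.P 192 (.P 2 (.P 4 (.P 12 (.P 14 (.P 16 (.P 18 (.P 26 (.P 28 (.P 52 (.B 0 45 (.P 2 (.P 4 (.P
  14 (.P 16 (.P 48 (.B 0 1 z z (.B 0 2 z z (.B 0 3 z z (.B 0 6 z z (.B 0 72 z z (.G
  30246615))))))))))) (.P 12 (.P 14 (.P 16 (.B 12 63 z (.B 0 1 (.P 2 (.P 12 (.P 14 (.P 16 (.P 74
  (.B 0 2 (.B 0 3 (.B 0 6 (.B 0 72 z z (.G 15714)) z z) z z) z z)))))) (.P 14 (.P 16 (.P 18 (.B 0
  2 z (.B 0 3 z (.B 0 6 z (.B 0 72 (.G 15119136) (.G 15125697) z) z) z) z)))) z) z)))) (.P 86 (.P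
  88 (.P 90 (.P 108 (.P 122 (.P 146 (.P 148 (.B 0 1 z z (.B 0 2 z z (.B 0 3 z z (.B 0 6 z z (.B 0
  72 z z (.G 30250989)))))))))))))))))))))))))))))))))))))))))) (.P 12 (.P 60 (.P 72 (.P 84 (.P
  98 (.P 110 (.P 122 (.P 124 (.P 168 (.P 194 (.B 0 45 (.P 2 (.P 4 (.P 14 (.P 16 (.P 24 (.P 26 (.P
  28 (.P 36 (.P 38 (.P 40 (.P 48 (.P 62 (.P 64 (.P 74 (.P 86 (.P 88 (.P 90 (.P 96 (.P 100 (.P 122
  (.P 144 (.P 158 (.P 160 (.B 0 1 z z (.B 0 2 z z (.B 0 3 z z (.B 0 6 z z (.B 0 72 z z (.G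
  30246858))))))))))))))))))))))))))))) (.P 12 (.P 14 (.P 16 (.P 26 (.P 28 (.P 38 (.P 60 (.P 62
  (.P 74 (.P 76 (.P 86 (.P 88 (.P 90 (.P 96 (.P 98 (.P 100 (.P 110 (.P 112 (.P 114 (.P 120 (.P
  122 (.P 134 (.P 156 (.P 158 (.P 160 (.P 2 (.P 4 (.B 0 1 z z (.B 0 2 z z (.B 0 3 z z (.B 0 6 z z
  (.B 0 72 z z (.G 30249045))))))))))))))))))))))))))))))))) (.P 24 (.P 26 (.P 28 (.P 30 (.P 48
  (.P 50 (.P 52 (.P 86 (.P 110 (.P 112 (.B 0 72 (.P 2 (.P 4 (.P 12 (.P 14 (.P 16 (.B 0 1 z z (.B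
  0 2 z z (.B 0 3 z z (.B 0 6 z z (.G 30238110)))))))))) (.P 48 (.P 50 (.P 52 (.P 60 (.P 62 (.P
  74 (.P 76 (.P 84 (.P 146 (.P 148 (.B 0 1 z z (.B 0 2 z z (.B 0 3 z z (.B 0 6 z z (.G
  30244671))))))))))))))) (.P 12 (.B 0 1 (.P 2 (.P 12 (.P 14 (.P 16 (.P 24 (.P 36 (.B 0 2 (.B 0 3
  (.B 0 6 (.G 18144) z (.G 372438)) z (.P 16 (.B 0 6 (.G 136242) z z))) z (.P 4 (.P 14 (.P 16 (.B
  0 3 (.B 0 6 (.G 28715958) z z) z z))))))))))) (.P 4 (.P 14 (.P 24 (.P 84 (.P 88 (.P 96 (.B 0 2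
  z (.B 0 3 z (.B 0 6 z (.G 15134688) (.G 15311835)) (.P 16 (.B 0 6 z (.G 15193737) z))) (.P 14
  (.P 28 (.B 0 3 z (.B 0 6 z (.G 29483595) z) z)))))))))) (.P 14 (.P 26 (.P 28 (.P 40 (.P 88 (.B
  0 2 (.P 12 (.P 14 (.P 16 (.B 0 3 (.B 0 6 (.G 1081026) z z) z z)))) (.P 14 (.P 24 (.P 26 (.P 36
  (.P 84 (.P 96 (.P 98 (.P 156 (.B 0 3 z (.B 0 6 z (.G 15666129) z) z))))))))) (.P 4 (.P 14 (.P
  36 (.P 40 (.P 44 (.P 52 (.B 0 3 z z (.B 0 6 z z (.G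
  30251232))))))))))))))))))))))))))))))))))))))))))))))))))))

theorem c4 : run good4 t4 0 (start 99) = true := by decide +kernel

theorem is4n (hC : StmtCls3) {Q : R6 α} (hN : Nice3 Q) (h4 : Is4 (p12 Q 1) 0 0 0 0) :
    ∃ F G : α → α → α, (∀ i j, i ≠ 0 → j ≠ 0 → Q 0 0 (F i j) i j (F i j)) ∧
      (∀ i j, i = 0 ∨ j = 0 → i ≠ 0 ∨ j ≠ 0 → Q i j (G i j) 0 0 (G i j)) ∧ OKF F G ∧ OKL F G := by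
  obtain ⟨n, k, hK, h⟩ := run_start (pats hC hN)
    (pat0 (by omega) fun e he => (h4 _ _ _ _).trans (pat4 0 0 0 0 e he)) good4 t4 c4
  obtain ⟨h1, h2, h3⟩ := of_decide_eq_true h
  exact ⟨cF n, cG n, fun i j hi hj => of_kn hK (h1 i j hi hj),
    fun i j hi hj => of_kn hK (h2 i j hi hj), h3⟩

theorem sw1 : ∀ x c : α, swap 0 x c = x ↔ c = 0 := by decide

theorem sw2 : ∀ x c : α, swap 0 x c = 0 ↔ c = x := by decide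

theorem is4g (hC : StmtCls3) {Q : R6 α} {σ : Perm α} {x1 x2 y1 y2 : α} (hN : Nice3 Q)
    (h4 : Is4 (p12 Q σ) x1 x2 y1 y2) :
    ∃ F G : α → α → α, OKF F G ∧ OKL F G ∧
      (∀ b1 b2 w, b1 ≠ y1 → b2 ≠ y2 → Q x1 x2 (σ w) b1 b2 w →
        w = F (swap 0 y1 b1) (swap 0 y2 b2)) ∧
      ∀ a1 a2 w, a1 ≠ x1 ∨ a2 ≠ x2 → Q a1 a2 (σ w) y1 y2 w →
        w = G (swap 0 x1 a1) (swap 0 x2 a2) ∧ (swap 0 x1 a1 = 0 ∨ swap 0 x2 a2 = 0) ∧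
          (swap 0 x1 a1 ≠ 0 ∨ swap 0 x2 a2 ≠ 0) := by
  obtain ⟨F, G, h1, h2, h3, h5⟩ := is4n hC
    (nice_rl hN (swap 0 x1) (swap 0 x2) σ (swap 0 y1) (swap 0 y2) 1) fun c1 c2 d1 d2 =>
      (h4 (swap 0 x1 c1) (swap 0 x2 c2) (swap 0 y1 d1) (swap 0 y2 d2)).trans
        (by simp only [ne_eq, sw1])
  refine ⟨F, G, h3, h5, fun b1 b2 w e1 e2 h => col_uniq hN.sec.sep h ?_, fun a1 a2 w e h => ?_⟩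
  · simpa [rl6] using h1 (swap 0 y1 b1) (swap 0 y2 b2) (by rwa [ne_eq, sw2]) (by rwa [ne_eq, sw2])
  · have e1 : swap 0 x1 a1 = 0 ∨ swap 0 x2 a2 = 0 := by
      rw [sw2, sw2]
      rcases (h4 a1 a2 y1 y2).1 ⟨w, h⟩ with h' | h'
      exacts [absurd rfl h'.2.2.1, h'.1]
    have e2 : swap 0 x1 a1 ≠ 0 ∨ swap 0 x2 a2 ≠ 0 := by rwa [ne_eq, ne_eq, sw2, sw2]
    exact ⟨col_uniq hN.sec.sep h (by simpa [rl6] using h2 _ _ e1 e2), e1, e2⟩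

end NX

open NX in
theorem fLem (hC : StmtCls3) : StmtF3 := by
  intro Q σ x1 x2 y1 y2 hN h4
  obtain ⟨F, G, hF, -, h1, h2⟩ := is4g hC hN h4
  have n0 : ∀ {y b : α}, b ≠ y → swap 0 y b ≠ 0 := fun h => by rwa [ne_eq, sw2]
  rcases hF with ⟨μ, h⟩ | ⟨m, hm, h⟩
  · exact Or.inl ⟨μ, fun b1 b2 w e1 e2 q => (h1 _ _ _ e1 e2 q).trans (h _ _ (n0 e1) (n0 e2))⟩
  refine Or.inr ⟨m, fun a1 a2 w e q => ?_, ?_⟩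
  · obtain ⟨e0, e1, e2⟩ := h2 _ _ _ e q
    exact e0.trans (hm _ _ e1 e2)
  rcases h with h | ⟨h, h'⟩
  · refine Or.inl fun b1 b2 w b1' b2' w' e1 e2 e1' e2' q q' ho n n' => ?_
    rw [h1 _ _ _ e1 e2 q] at n
    rw [h1 _ _ _ e1' e2' q'] at n'
    simpa using h _ _ _ _ (n0 e1) (n0 e2) (n0 e1') (n0 e2') (by simpa using ho) n n'
  · refine Or.inr ⟨fun b1 b2 w b1' b2' w' e1 e2 e1' e2' q q' ho n => ?_, fun b1 b2 w e1 e2 q => ?_⟩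
    · rw [h1 _ _ _ e1 e2 q, h1 _ _ _ e1' e2' q'] at n
      simpa using h _ _ _ _ (n0 e1) (n0 e2) (n0 e1') (n0 e2') (by simpa using ho) n
    · rw [h1 _ _ _ e1 e2 q]
      exact h' _ _ (n0 e1) (n0 e2)

open NX in
theorem lam (hC : StmtCls3) : StmtLam3 := by
  intro Q σ x1 x2 y1 y2 μ hN h4 hμ
  obtain ⟨F, G, -, hL, h1, h2⟩ := is4g hC hN h4
  have n1 : ∀ {y i : α}, i ≠ 0 → swap 0 y i ≠ y := fun h => by rwa [ne_eq, sw1]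
  rcases hL μ fun i j hi hj => by
      simpa using (h1 _ _ _ (n1 hi) (n1 hj) (hμ _ _ (n1 hi) (n1 hj))).symm with
    h | ⟨p, hp, h, h'⟩
  · refine Or.inl fun a1 a2 w e q => ?_
    obtain ⟨e0, e1, e2⟩ := h2 _ _ _ e q
    exact e0.trans (h _ _ e1 e2)
  · refine Or.inr ⟨p, hp, fun a1 a2 w e q => ?_, fun a1 a2 a1' a2' e e' q q' => ?_⟩
    · obtain ⟨e0, e1, e2⟩ := h2 _ _ _ e q
      rw [e0]
      exact h _ _ e1 e2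
    · obtain ⟨e0, e1, e2⟩ := h2 _ _ _ e q
      obtain ⟨e0', e1', e2'⟩ := h2 _ _ _ e' q'
      simpa using h' _ _ e1 e2 e0.symm _ _ e1' e2' e0'.symm

end Pool.Agent.MP_92191b_al.K3
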