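import Pool.Agent.MP_92191b_al.K3.HDefs

/-! Exceptional planes only occur in exceptional pairs: the assembly. -/

set_option linter.unusedSectionVars false

namespace Pool.Agent.MP_92191b_al.K3

open Finset Function Equiv K6 X

variable {ι : Type} [Fintype ι] [DecidableEq ι]

namespace HAsm

/-- Replace the entries at `i` and `j`. -/
def fr (σ : ι → Perm (Fin 3)) (i j : ι) (p q : Perm (Fin 3)) : ι → Perm (Fin 3) :=
  fun r => if r = i then p else if r = j then q else σ r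

theorem fr_i (σ : ι → Perm (Fin 3)) (i j : ι) (p q : Perm (Fin 3)) : fr σ i j p q i = p := by
  simp [fr]

theorem fr_j (σ : ι → Perm (Fin 3)) {i j : ι} (hij : i ≠ j) (p q : Perm (Fin 3)) :
    fr σ i j p q j = q := by
  simp [fr, hij.symm]

theorem fr_off (σ : ι → Perm (Fin 3)) {i j r : ι} (hi : r ≠ i) (hj : r ≠ j)
    (p q : Perm (Fin 3)) : fr σ i j p q r = σ r := by
  simp [fr, hi, hj]

theorem wr_comp (σ : ι → Perm (Fin 3)) (π : Perm ι) (c : ι → Fin 3) :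
    wr σ 1 c ∘ π = wr (σ ∘ π) π c := rfl

theorem frame {T : Rel2 ι (Fin 3)} {σ : ι → Perm (Fin 3)} {i j : ι} (hij : i ≠ j)
    (p q u v : Perm (Fin 3)) {c1 c2 d1 d2 : Fin 3}
    (h : pl T σ i j (p c1) (q c2) (u d1) (v d2)) :
    ∃ c d, T (wr (fr σ i j p q) 1 c) (wr (fr (fun _ => 1) i j u v) 1 d) ∧ c i = c1 ∧ c j = c2 ∧
      d i = d1 ∧ d j = d2 ∧ ∀ r, r ≠ i → r ≠ j → c r = d r := by
  obtain ⟨c, d, ⟨hT, hoff⟩, h1, h2, h3, h4⟩ := h
  refine ⟨fun r => (fr σ i j p q r).symm (c r), fun r => (fr (fun _ => 1) i j u v r).symm (d r),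
    ?_, ?_, ?_, ?_, ?_, ?_⟩
  · have e1 : wr (fr σ i j p q) 1 (fun r => (fr σ i j p q r).symm (c r)) = c := by
      funext l; simp [wr]
    have e2 : wr (fr (fun _ => 1) i j u v) 1
        (fun r => (fr (fun _ => 1) i j u v r).symm (d r)) = d := by
      funext l; simp [wr]
    rw [e1, e2]; exact hT
  · simp only [fr_i, h1, Equiv.symm_apply_apply]
  · simp only [fr_j _ hij, h2, Equiv.symm_apply_apply]
  · simp only [fr_i, h3, Equiv.symm_apply_apply]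
  · simp only [fr_j _ hij, h4, Equiv.symm_apply_apply]
  · intro r hi hj
    simp only [fr_off _ hi hj, hoff r hi hj, Equiv.symm_apply_apply]
    rfl

theorem dist_comp (ρ : Perm ι) (x y : ι → Fin 3) :
    hammingDist (x ∘ ρ) (y ∘ ρ) = hammingDist x y := by
  unfold hammingDist
  refine Finset.card_bij (fun l _ => ρ l) ?_ ?_ ?_
  · intro l hl; simpa using hl
  · intro a _ b _ h; exact ρ.injective h
  · intro b hb
    exact ⟨ρ.symm b, by simpa using hb, by simp⟩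

theorem dist_all {x y : ι → Fin 3} (h : ∀ l, x l ≠ y l) : hammingDist x y = Fintype.card ι := by
  unfold hammingDist
  rw [Finset.filter_true_of_mem fun l _ => h l, Finset.card_univ]

/-- The code `D` with permuted coordinates. -/
def pm (D : Finset (ι → Fin 3)) (ρ : Perm ι) : Finset (ι → Fin 3) :=
  univ.filter fun d => d ∘ ρ ∈ D

theorem mem_pm {D : Finset (ι → Fin 3)} {ρ : Perm ι} {d : ι → Fin 3} :
    d ∈ pm D ρ ↔ d ∘ ρ ∈ D := by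
  simp [pm]

theorem card_pm (D : Finset (ι → Fin 3)) (ρ : Perm ι) : D.card ≤ (pm D ρ).card := by
  refine Finset.card_le_card_of_injOn (fun d => d ∘ ρ.symm) ?_ ?_
  · intro d hd
    have e : (d ∘ ρ.symm) ∘ ρ = d := by funext l; simp
    rw [Finset.mem_coe, mem_pm]
    change (d ∘ ρ.symm) ∘ ρ ∈ D
    rw [e]; exact hd
  · intro a _ b _ h
    funext l
    simpa using congrFun h (ρ l)

theorem tp_pm {C D : Finset (ι → Fin 3)} (h : TP3 C D) (ρ : Perm ι) : TP3 C (pm D ρ) where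
  sep := fun c hc c' hc' d hd d' hd' e =>
    h.sep c hc c' hc' _ (mem_pm.mp hd) _ (mem_pm.mp hd') (by rw [dist_comp]; exact e)
  big := h.big.trans (Nat.mul_le_mul_left _ (card_pm D ρ))

theorem hasD_pm {D : Finset (ι → Fin 3)} {ρ : Perm ι} {s : ℕ} (h : HasD (pm D ρ) s) :
    HasD D s := by
  obtain ⟨x, hx, y, hy, e⟩ := h
  exact ⟨_, mem_pm.mp hx, _, mem_pm.mp hy, by rw [dist_comp]; exact e⟩

theorem fib_pm (D : Finset (ι → Fin 3)) (ρ : Perm ι) (j : ι) (x : ι → Fin 3) :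
    Fib D j (x ∘ ρ) = Fib (pm D ρ) (ρ j) x := by
  ext v
  change update (x ∘ ρ) j v ∈ D ↔ update x (ρ j) v ∈ pm D ρ
  rw [mem_pm, Function.update_comp_eq_of_injective x ρ.injective]

theorem exo4_pm {C D : Finset (ι → Fin 3)} {ρ : Perm ι} (h : Exo4 C (pm D ρ)) : Exo4 C D := by
  obtain ⟨h1, ⟨h2, h3, h4⟩ | ⟨h2, h3, h4⟩⟩ := h
  · exact ⟨h1, Or.inl ⟨h2, hasD_pm h3, hasD_pm h4⟩⟩
  · exact ⟨h1, Or.inr ⟨h2, h3, hasD_pm h4⟩⟩

theorem exo5_pm {C D : Finset (ι → Fin 3)} {ρ : Perm ι} (h : Exo5 C (pm D ρ)) : Exo5 C D := by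
  obtain ⟨h1, h2, h3, h4, h5, h6, h7⟩ := h
  refine ⟨h1, h2, hasD_pm h3, hasD_pm h4, hasD_pm h5, hasD_pm h6, fun j => ?_⟩
  obtain ⟨x, x', b, b', hb, e, e'⟩ := h7 (ρ j)
  exact ⟨x ∘ ρ, x' ∘ ρ, b, b', hb, by rw [fib_pm, e], by rw [fib_pm, e']⟩

theorem tp_symm {C D : Finset (ι → Fin 3)} (h : TP3 C D) : TP3 D C where
  sep := fun d hd d' hd' c hc c' hc' e => by
    have := h.sep c hc c' hc' d hd d' hd' e.symm
    rw [this, hammingDist_self] at e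
    exact hammingDist_eq_zero.mp e
  big := by rw [mul_comm]; exact h.big

theorem exo4_symm {C D : Finset (ι → Fin 3)} (h : Exo4 D C) : Exo4 C D := by
  obtain ⟨h1, ⟨h2, h3, h4⟩ | ⟨h2, h3, h4⟩⟩ := h
  · exact ⟨h1, Or.inr ⟨h3, h4, h2⟩⟩
  · exact ⟨h1, Or.inl ⟨h4, h2, h3⟩⟩

theorem exists_perm : ∀ a0 a1 : Fin 3, a0 ≠ a1 → ∃ u : Perm (Fin 3), u 1 = a0 ∧ u 2 = a1 := by
  decide

theorem kh_of_is8 {P : R4 (Fin 3)} {a0 a1 x0 x1 y1 y2 : Fin 3}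
    (h : Is8 (dual P) a0 a1 x0 x1 y1 y2) :
    ∃ p q u v : Perm (Fin 3), ∀ c1 c2 d1 d2, KH c1 c2 d1 d2 → P (p c1) (q c2) (u d1) (v d2) := by
  obtain ⟨ha, hx, hP⟩ := h
  obtain ⟨u, hu1, hu2⟩ := exists_perm a0 a1 ha
  obtain ⟨v, hv1, hv2⟩ := exists_perm x0 x1 hx
  refine ⟨swap 0 y1, swap 0 y2, u, v, fun c1 c2 d1 d2 hk => ?_⟩
  have hp0 : swap (0 : Fin 3) y1 0 = y1 := swap_apply_left _ _
  have hq0 : swap (0 : Fin 3) y2 0 = y2 := swap_apply_left _ _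
  have hp : ∀ c, c ≠ 0 → swap (0 : Fin 3) y1 c ≠ y1 := fun c hc e =>
    hc ((swap (0 : Fin 3) y1).injective (e.trans hp0.symm))
  have hq : ∀ c, c ≠ 0 → swap (0 : Fin 3) y2 c ≠ y2 := fun c hc e =>
    hc ((swap (0 : Fin 3) y2).injective (e.trans hq0.symm))
  have h12 : ∀ d : Fin 3, d ≠ 0 → d = 1 ∨ d = 2 := by decide
  refine (hP (u d1) (v d2) (swap 0 y1 c1) (swap 0 y2 c2)).mpr ?_
  rcases hk with ⟨e1, e2, e3, e4⟩ | ⟨e1, e2, e3, e4⟩ | ⟨e1, e2, e3, e4⟩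
  · refine Or.inl ⟨?_, by rw [e1, hp0], hq _ e2⟩
    rcases h12 d1 e3 with e | e
    · exact Or.inl ⟨by rw [e, hu1], by rw [e4, e, hv1]⟩
    · exact Or.inr ⟨by rw [e, hu2], by rw [e4, e, hv2]⟩
  · refine Or.inr (Or.inl ⟨?_, hp _ e1, by rw [e2, hq0]⟩)
    rcases h12 d1 e3 with e | e
    · have e5 : d2 = 2 := by rw [e4, e]; rfl
      exact Or.inl ⟨by rw [e, hu1], by rw [e5, hv2]⟩
    · have e5 : d2 = 1 := by rw [e4, e]; rfl
      exact Or.inr ⟨by rw [e, hu2], by rw [e5, hv1]⟩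
  · refine Or.inr (Or.inr ⟨?_, ?_, ?_, ?_, by rw [e1, hp0], by rw [e2, hq0]⟩)
    · rw [e3, ← hu1]; exact u.injective.ne (by decide)
    · rw [e3, ← hu2]; exact u.injective.ne (by decide)
    · rw [e4, ← hv1]; exact v.injective.ne (by decide)
    · rw [e4, ← hv2]; exact v.injective.ne (by decide)

theorem main (hSys : StmtSys ι) (hLoc : StmtLoc ι) (hProp : StmtProp ι) (hFin : StmtFin ι)
    {C D : Finset (ι → Fin 3)} (h : TP3 C D) (h4 : ¬Exo4 C D) {π ρ : Perm ι}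
    {σ : ι → Perm (Fin 3)} {i j : ι} (hij : i ≠ j) {a0 a1 x0 x1 y1 y2 : Fin 3}
    (h8 : Is8 (dual (pl (fun c d => c ∘ π ∈ C ∧ d ∘ ρ ∈ D) σ i j)) a0 a1 x0 x1 y1 y2) :
    Exo5 C D := by
  obtain ⟨p, q, u, v, hP⟩ := kh_of_is8 h8
  have tp := tp_pm h ρ
  have h4' : ¬Exo4 C (pm D ρ) := fun e => h4 (exo4_pm e)
  have hcell : ∀ c1 c2 d1 d2, KH c1 c2 d1 d2 → ∃ c d, wr (fr σ i j p q ∘ π) π c ∈ C ∧
      wr (fr (fun _ => 1) i j u v) 1 d ∈ pm D ρ ∧ c i = c1 ∧ c j = c2 ∧ d i = d1 ∧ d j = d2 ∧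
      ∀ r, r ≠ i → r ≠ j → c r = d r := by
    intro c1 c2 d1 d2 hk
    obtain ⟨c, d, ⟨e1, e2⟩, e3⟩ := frame hij p q u v (hP c1 c2 d1 d2 hk)
    exact ⟨c, d, e1, mem_pm.mpr e2, e3⟩
  obtain ⟨cA, dA, hA1, hA2, hA3, hA4, hA5, hA6, hA7⟩ := hcell 0 1 1 1 (Or.inl (by decide))
  have h3 : 3 ≤ Fintype.card ι := by
    by_contra hlt
    have hall : ∀ r, r = i ∨ r = j := by
      intro r
      by_contra hr
      push Not at hr
      apply hlt
      have := Finset.card_le_univ ({r, i, j} : Finset ι)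
      rwa [Finset.card_eq_three.mpr ⟨r, i, j, hr.1, hr.2, hij, rfl⟩] at this
    obtain ⟨cB, -, hB1, -, hB3, hB4, -⟩ := hcell 1 0 1 2 (Or.inr (Or.inl (by decide)))
    obtain ⟨-, dC, -, hC2, -, -, hC5, hC6, -⟩ := hcell 0 1 2 2 (Or.inl (by decide))
    have hc : ∀ l, wr (fr σ i j p q ∘ π) π cA l ≠ wr (fr σ i j p q ∘ π) π cB l := by
      intro l e
      have e' : cA (π l) = cB (π l) := ((fr σ i j p q ∘ π) l).injective e
      rcases hall (π l) with e1 | e1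
      · rw [e1, hA3, hB3] at e'; exact absurd e' (by decide)
      · rw [e1, hA4, hB4] at e'; exact absurd e' (by decide)
    have hd : ∀ l, wr (fr (fun _ => 1) i j u v) 1 dA l ≠ wr (fr (fun _ => 1) i j u v) 1 dC l := by
      intro l e
      have e' : dA l = dC l := (fr (fun _ => 1) i j u v l).injective e
      rcases hall l with e1 | e1
      · rw [e1, hA5, hC5] at e'; exact absurd e' (by decide)
      · rw [e1, hA6, hC6] at e'; exact absurd e' (by decide)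
    have := tp.sep _ hA1 _ hB1 _ hA2 _ hC2 (by rw [dist_all hc, dist_all hd])
    exact hc i (congrFun this i)
  have gc : GC C (pm D ρ) (wr (fr (fun _ => 1) i j u v) 1 dA) i j (u 0) (v 0) :=
    ⟨hij, fr σ i j p q ∘ π, π, fr (fun _ => 1) i j u v, cA, dA, by rw [fr_i], by rw [fr_j _ hij],
      rfl, hA2, hA1, hA3, hA4, hA5, hA6, hA7, hcell⟩
  obtain ⟨ζ, hζ⟩ := hProp h3 _ _ (hLoc C _ (hSys C _ tp h4')) _ _ _ _ _ gc
  rcases hFin h3 C _ ζ _ tp hζ with e | e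
  · exact absurd e h4'
  · exact exo5_pm e

theorem no9 (hSys : StmtSys ι) (hA9 : StmtA9) {C D : Finset (ι → Fin 3)} (h : TP3 C D)
    (h4 : ¬Exo4 C D) {π ρ : Perm ι} {σ : ι → Perm (Fin 3)} {i j : ι} (hij : i ≠ j)
    {s1 s2 t1 t2 : Perm (Fin 3)}
    (h9 : Is9 (pl (fun c d => c ∘ π ∈ C ∧ d ∘ ρ ∈ D) σ i j) s1 s2 t1 t2) : False := by
  have hinj : Injective (![i, j] : Fin 2 → ι) := by
    intro a b e
    fin_cases a <;> fin_cases b
    · rfl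
    · exact absurd e hij
    · exact absurd e.symm hij
    · rfl
  refine hA9 (Sct C D) (hSys C D h h4) _ ⟨fr σ i j s1.symm s2.symm ∘ π, π,
    fr (fun _ => 1) i j t1.symm t2.symm ∘ ρ, ρ, ⟨![i, j], hinj⟩, Or.inl rfl⟩ fun c1 c2 => ?_
  obtain ⟨c, d, hT, e1, e2, e3, e4, e5⟩ := frame hij s1.symm s2.symm t1.symm t2.symm
    ((h9 (s1.symm c1) (s2.symm c2) (t1.symm (c1 + c2)) (t2.symm (c1 + 2 * c2))).mpr (by simp))
  refine ⟨c, d, hT, fun l => ?_, fun l => ?_, fun r hr => e5 r (hr 0) (hr 1)⟩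
  · fin_cases l
    · exact e1
    · exact e2
  · fin_cases l
    · exact e3
    · exact e4

theorem dual_pl (C D : Finset (ι → Fin 3)) (π ρ : Perm ι) (σ : ι → Perm (Fin 3)) (i j : ι) :
    dual (pl (fun c d => c ∘ ρ ∈ D ∧ d ∘ π ∈ C) (fun r => (σ r).symm) i j) =
      pl (fun c d => c ∘ π ∈ C ∧ d ∘ ρ ∈ D) σ i j := by
  funext c1 c2 d1 d2
  apply propext
  constructor
  · rintro ⟨d, c, ⟨⟨e1, e2⟩, e3⟩, e4, e5, e6, e7⟩
    exact ⟨c, d, ⟨⟨e2, e1⟩, fun r hi hj => by rw [e3 r hi hj]; simp⟩, e6, e7, e4, e5⟩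
  · rintro ⟨c, d, ⟨⟨e1, e2⟩, e3⟩, e4, e5, e6, e7⟩
    exact ⟨d, c, ⟨⟨e2, e1⟩, fun r hi hj => by rw [e3 r hi hj]; simp⟩, e6, e7, e4, e5⟩

end HAsm

theorem hThm (hSys : StmtSys ι) (hA9 : StmtA9) (hLoc : StmtLoc ι) (hProp : StmtProp ι)
    (hFin : StmtFin ι) : StmtH ι := by
  intro C D hGP h4 h5 π ρ σ i j hij hE
  have tp : TP3 C D := ⟨hGP.sep, by simpa using hGP.big⟩
  rcases hE with ⟨a0, a1, x0, x1, y1, y2, h8⟩ | ⟨a0, a1, x0, x1, y1, y2, h8⟩ | ⟨s1, s2, t1, t2, h9⟩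
  · have h8' : Is8 (dual (pl (fun c d => c ∘ ρ ∈ D ∧ d ∘ π ∈ C) (fun r => (σ r).symm) i j))
        a0 a1 x0 x1 y1 y2 := by
      rw [HAsm.dual_pl]; exact h8
    obtain ⟨-, -, ⟨x, hx, y, hy, e⟩, -⟩ := HAsm.main hSys hLoc hProp hFin (HAsm.tp_symm tp)
      (fun e => h4 (HAsm.exo4_symm e)) hij h8'
    exact hGP.no1 x hx y hy e
  · exact h5 (HAsm.main hSys hLoc hProp hFin tp h4 hij h8)
  · exact HAsm.no9 hSys hA9 tp h4 hij h9

end Pool.Agent.MP_92191b_al.K3
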