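import Pool.Agent.MP_92191b_al.K3.H9c
import Pool.Agent.MP_92191b_al.K3.HAsm

/-! Without hybrid planes, planes given by orthogonal Latin squares only occur in the exceptional
pairs of length four. -/

set_option linter.unusedSectionVars false

namespace Pool.Agent.MP_92191b_al.K3

open Finset Function Equiv K6 X

variable {ι : Type} [Fintype ι] [DecidableEq ι]

namespace H9

open G

def f3 (u : ℕ) : Fin 3 := Fin.ofNat 3 u

theorem en3 : En 3 f3 where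
  inj := by decide
  surj := by decide

def en (n : ℕ) [NeZero n] (u : ℕ) : Fin n := Fin.ofNat n u

theorem frame3 : Fr 3 3 (en 3) (fun _ => f3) (fun _ => f3) :=
  ⟨by decide, fun _ _ => en3, fun _ _ => en3⟩

theorem frame4 : Fr 3 4 (en 4) (fun _ => f3) (fun _ => f3) :=
  ⟨by decide, fun _ _ => en3, fun _ _ => en3⟩

instance decIn (n : ℕ) [NeZero n] (c d : Pt n) (D : ℕ) :
    Decidable (In 3 n (en n) (fun _ => f3) (fun _ => f3) c d D) := by
  unfold In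
  infer_instance

theorem inh {n : ℕ} [NeZero n] {R : Rn n} {c d : Pt n} {D : ℕ} (h : R c d)
    (hI : In 3 n (en n) (fun _ => f3) (fun _ => f3) c d D) :
    Inh 3 n R (fun _ => 1) (en n) (fun _ => f3) (fun _ => f3) D :=
  ⟨c, d, h, fun r hr => absurd (by simp [en]) (hr r r.2), hI⟩

def Fy (D : ℕ) (l p a b : Fin 3) : Prop :=
  pp D l = p ∧ fr 3 D l = true ∧ sc D l / 3 = a ∧ sc D l % 3 = b

def Ty (D : ℕ) (l p : Fin 3) (h : Perm (Fin 3)) : Prop :=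
  pp D l = p ∧ fr 3 D l = false ∧ ∀ v : Fin 3, sg 3 D l v = h v

instance (D : ℕ) (l p a b : Fin 3) : Decidable (Fy D l p a b) := by unfold Fy; infer_instance
instance (D : ℕ) (l p : Fin 3) (h : Perm (Fin 3)) : Decidable (Ty D l p h) := by
  unfold Ty; infer_instance

theorem en_val (l : Fin 3) : en 3 l = l := by simp [en]
theorem f3_val (l : Fin 3) : f3 l = l := by simp [f3]

theorem Fy.out {D : ℕ} {l p a b : Fin 3} (h : Fy D l p a b) {c d : Pt 3}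
    (hI : In 3 3 (en 3) (fun _ => f3) (fun _ => f3) c d D) : c l = a ∧ d p = b := by
  rcases hI l l.2 with ⟨-, h1, h2⟩ | ⟨h1, -⟩
  · rw [h.1, h.2.2.2, en_val] at h2
    rw [h.2.2.1, en_val] at h1
    exact ⟨h1.trans (f3_val a), h2.trans (f3_val b)⟩
  · rw [h.2.1] at h1
    exact absurd h1 (by decide)

theorem Ty.out {D : ℕ} {l p : Fin 3} {g : Perm (Fin 3)} (h : Ty D l p g) {c d : Pt 3}
    (hI : In 3 3 (en 3) (fun _ => f3) (fun _ => f3) c d D) : c l = g (d p) := by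
  rcases hI l l.2 with ⟨h1, -⟩ | ⟨-, h1⟩
  · rw [h.2.1] at h1
    exact absurd h1 (by decide)
  · have := h1 (d p) (d p).2 (by rw [h.1, en_val]; exact (f3_val _).symm)
    rw [en_val, h.2.2] at this
    exact this.trans (f3_val _)

def pm : ℕ → Perm (Fin 3)
  | 0 => 1
  | 1 => swap 1 2
  | 2 => swap 0 1
  | 3 => swap 0 1 * swap 1 2
  | 4 => swap 1 2 * swap 0 1
  | _ => swap 0 2

instance decKH (c1 c2 d1 d2 : Fin 3) : Decidable (KH c1 c2 d1 d2) := by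
  unfold KH
  infer_instance

def Sp (g : Gl) (c1 c2 d1 d2 : Fin 3) : Prop :=
  ∃ D ∈ g.l, Fy D (pm g.p 0) (pm g.q 0) (pm g.f0 c1) (pm g.g0 d1) ∧
    Fy D (pm g.p 1) (pm g.q 1) (pm g.f1 c2) (pm g.g1 d2) ∧ Ty D (pm g.p 2) (pm g.q 2) (pm g.h)

instance (g : Gl) (c1 c2 d1 d2 : Fin 3) : Decidable (Sp g c1 c2 d1 d2) := by
  unfold Sp; infer_instance

theorem gls_spec : ∀ g ∈ gls, ∀ c1 c2 d1 d2, KH c1 c2 d1 d2 →
    (g.fl = false ∧ Sp g c1 c2 d1 d2) ∨ (g.fl = true ∧ Sp g d1 d2 c1 c2) := by decide +kernel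

theorem rowL_spec : ∀ D ∈ rowL, ∃ a b : Fin 3, ∀ w : Fin 3, (a = 0 → w = if b = 2 then 1 else 0) →
    In 3 3 (en 3) (fun _ => f3) (fun _ => f3) ![a, b, w] ![a + b, a + 2 * b, w] D := by
  decide +kernel

theorem conL_spec : ∀ D ∈ conL, ∃ a b : Fin 3,
    In 3 3 (en 3) (fun _ => f3) (fun _ => f3) ![a, b, 0] ![a + b, a + 2 * b, 0] D := by
  decide +kernel

theorem fourL_spec : ∀ t u : Fin 4, ∀ D ∈ fourL t u, ∃ a b : Fin 3,
    In 3 4 (en 4) (fun _ => f3) (fun _ => f3) ![a, b, lin t a b, lin u a b]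
      ![a + b, a + 2 * b, lin t a b, lin u a b] D := by decide +kernel

variable {S : ∀ n, Rn n → Prop}

/-- No plane of the system is a dual hybrid plane. -/
def No8 (S : ∀ n, Rn n → Prop) : Prop :=
  ∀ R : Rn 2, S 2 R → ¬∀ c1 c2 d1 d2, KH c1 c2 d1 d2 → R ![c1, c2] ![d1, d2]

theorem hyb (hS : Sys S) (h8 : No8 S) {R : Rn 3} (hR : S 3 R) (π ρ f0 f1 g0 g1 h : Perm (Fin 3))
    (H : ∀ c1 c2 d1 d2, KH c1 c2 d1 d2 → ∃ c d, R c d ∧ c (π 0) = f0 c1 ∧ c (π 1) = f1 c2 ∧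
      d (ρ 0) = g0 d1 ∧ d (ρ 1) = g1 d2 ∧ c (π 2) = h (d (ρ 2))) : False := by
  refine h8 _ (hS.face 2 _ (hS.act 3 R (fun l => ![f0, f1, h] (π⁻¹ l)) π⁻¹
    (fun l => ![g0, g1, 1] (ρ⁻¹ l)) ρ⁻¹ hR)) fun c1 c2 d1 d2 hk => ?_
  obtain ⟨c, d, hcd, e1, e2, e3, e4, e5⟩ := H c1 c2 d1 d2 hk
  refine ⟨d (ρ 2), ?_⟩
  convert hcd using 1
  · funext l
    obtain ⟨l, rfl⟩ := π.surjective l
    simp only [wr, Perm.coe_inv, symm_apply_apply]
    fin_cases l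
    · exact e1.symm
    · exact e2.symm
    · exact e5.symm
  · funext l
    obtain ⟨l, rfl⟩ := ρ.surjective l
    simp only [wr, Perm.coe_inv, symm_apply_apply]
    fin_cases l
    · exact e3.symm
    · exact e4.symm
    · rfl

/-- A colouring of the plane by a third coordinate. -/
def Tet (R : Rn 3) (φ : Fin 3 → Fin 3 → Fin 3) : Prop :=
  ∀ a b, R ![a, b, φ a b] ![a + b, a + 2 * b, φ a b]

theorem row0 (hS : Sys S) (h8 : No8 S) {R : Rn 3} (hR : S 3 R) {φ : Fin 3 → Fin 3 → Fin 3}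
    (H : Tet R φ) (h0 : φ 0 0 = 0) (h1 : φ 0 1 = 0) (h2 : φ 0 2 = 1) : False := by
  obtain ⟨l, hl, hI⟩ := frame3.run (by norm_num) (by norm_num) (hS.tight _ _ hR) (fun _ => 1) rowC
    fun D hD => by
      obtain ⟨a, b, h⟩ := rowL_spec D hD
      refine inh (H a b) (h _ ?_)
      rintro rfl
      fin_cases b
      exacts [h0, h1, h2]
  obtain ⟨g, hg, rfl⟩ := List.mem_map.1 hl
  cases hf : g.fl
  · refine hyb hS h8 hR (pm g.p) (pm g.q) (pm g.f0) (pm g.f1) (pm g.g0) (pm g.g1) (pm g.h)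
      fun c1 c2 d1 d2 hk => ?_
    obtain ⟨-, D, hD, e1, e2, e3⟩ := (gls_spec g hg c1 c2 d1 d2 hk).resolve_right (by simp [hf])
    obtain ⟨c, d, hcd, -, m⟩ := hI D hD
    exact ⟨c, d, hcd, (e1.out m).1, (e2.out m).1, (e1.out m).2, (e2.out m).2, e3.out m⟩
  · refine hyb hS h8 (hS.dual _ _ hR) (pm g.q) (pm g.p) (pm g.g0) (pm g.g1) (pm g.f0) (pm g.f1)
      (pm g.h)⁻¹ fun c1 c2 d1 d2 hk => ?_
    obtain ⟨-, D, hD, e1, e2, e3⟩ := (gls_spec g hg c1 c2 d1 d2 hk).resolve_left (by simp [hf])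
    obtain ⟨c, d, hcd, -, m⟩ := hI D hD
    exact ⟨d, c, hcd, (e1.out m).2, (e2.out m).2, (e1.out m).1, (e2.out m).1, by simp [e3.out m]⟩

theorem wr3 (p q s : Perm (Fin 3)) (x y z : Fin 3) :
    wr ![p, q, s] 1 ![x, y, z] = ![p x, q y, s z] := by
  funext l
  fin_cases l <;> rfl

theorem ex_perm : ∀ x y : Fin 3, x ≠ y → ∃ n < 6, pm n 0 = x ∧ pm n 1 = y := by decide

theorem row (hS : Sys S) (h8 : No8 S) {R : Rn 3} (hR : S 3 R) {φ : Fin 3 → Fin 3 → Fin 3}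
    (H : Tet R φ) (a b : Fin 3) (h : φ a b = φ a (b + 1)) : φ a (b + 2) = φ a b := by
  by_contra hne
  obtain ⟨n, -, e0, e1⟩ := ex_perm _ _ (Ne.symm hne)
  refine row0 hS h8 (hS.act 3 R ![Equiv.addLeft a, Equiv.addLeft b, pm n] 1
    ![Equiv.addLeft (a + b), Equiv.addLeft (a + 2 * b), pm n] 1 hR)
    (φ := fun x y => (pm n)⁻¹ (φ (a + x) (b + y))) (fun x y => ?_) ?_ ?_ ?_
  · simp only [wr3, Equiv.coe_addLeft, Perm.coe_inv, apply_symm_apply]
    have := H (a + x) (b + y)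
    have r1 : ∀ a b x y : Fin 3, a + x + (b + y) = a + b + (x + y) := by decide
    have r2 : ∀ a b x y : Fin 3, a + x + 2 * (b + y) = a + 2 * b + (x + 2 * y) := by decide
    rwa [r1, r2] at this
  · simp [← e0]
  · simp [← h, ← e0]
  · simp [← e1]

theorem swp (hS : Sys S) {R : Rn 3} (hR : S 3 R) {φ : Fin 3 → Fin 3 → Fin 3} (H : Tet R φ) :
    ∃ R', S 3 R' ∧ Tet R' fun a b => φ b a := by
  refine ⟨_, hS.act 3 R (fun _ => 1) (swap 0 1) ![1, swap 1 2, 1] 1 hR, fun a b => ?_⟩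
  have e : ∀ a b : Fin 3, swap (1 : Fin 3) 2 (a + 2 * b) = b + 2 * a := by decide
  convert H b a using 1
  · funext l
    fin_cases l <;> rfl
  · rw [wr3, e, add_comm a b]
    rfl

theorem dua (hS : Sys S) {R : Rn 3} (hR : S 3 R) {φ : Fin 3 → Fin 3 → Fin 3} (H : Tet R φ) :
    ∃ R', S 3 R' ∧ Tet R' fun x y => φ (2 * (x + y)) (2 * (x + 2 * y)) := by
  refine ⟨_, hS.act 3 _ (fun _ => 1) 1 ![swap 1 2, swap 1 2, 1] 1 (hS.dual 3 R hR),
    fun x y => ?_⟩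
  have e : ∀ a : Fin 3, swap (1 : Fin 3) 2 a = 2 * a := by decide
  have e1 : ∀ x y : Fin 3, 2 * (x + y) + 2 * (x + 2 * y) = x := by decide
  have e2 : ∀ x y : Fin 3, 2 * (x + y) + 2 * (2 * (x + 2 * y)) = y := by decide
  have := H (2 * (x + y)) (2 * (x + 2 * y))
  rw [e1, e2] at this
  rw [wr3, e, e]
  exact this

theorem con (hS : Sys S) {R : Rn 3} (hR : S 3 R) {w : Fin 3} (H : Tet R fun _ _ => w) : False := by
  refine frame3.refute (by norm_num) (by norm_num) (hS.tight _ _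
    (hS.act 3 R ![1, 1, swap 0 w] 1 ![1, 1, swap 0 w] 1 hR)) (fun _ => 1) conC fun D hD => ?_
  obtain ⟨a, b, h⟩ := conL_spec D hD
  refine inh ?_ h
  rw [wr3, wr3, swap_apply_left]
  exact H a b

def Rw (φ : Fin 3 → Fin 3 → Fin 3) : Prop := ∀ a b, φ a b = φ a (b + 1) → φ a (b + 2) = φ a b

instance (φ : Fin 3 → Fin 3 → Fin 3) : Decidable (Rw φ) := by unfold Rw; infer_instance

def Af (φ : Fin 3 → Fin 3 → Fin 3) : Prop :=
  Rw φ → (Rw fun a b => φ b a) → (Rw fun x y => φ (2 * (x + y)) (2 * (x + 2 * y))) →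
    (Rw fun y x => φ (2 * (x + y)) (2 * (x + 2 * y))) →
    (∀ a b, φ a b = φ 0 0) ∨ ∃ t, ∃ n < 6, ∀ a b, φ a b = pm n (lin t a b)

instance (φ : Fin 3 → Fin 3 → Fin 3) : Decidable (Af φ) := by unfold Af; infer_instance

theorem af : ∀ x0 x1 x2 x3 x4 x5 x6 x7 x8 : Fin 3,
    Af ![![x0, x1, x2], ![x3, x4, x5], ![x6, x7, x8]] := by decide +kernel

theorem three (hS : Sys S) (h8 : No8 S) {R : Rn 3} (hR : S 3 R) {φ : Fin 3 → Fin 3 → Fin 3}
    (H : Tet R φ) : ∃ t, ∃ ψ : Perm (Fin 3), ∀ a b, φ a b = ψ (lin t a b) := by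
  have e : φ = ![![φ 0 0, φ 0 1, φ 0 2], ![φ 1 0, φ 1 1, φ 1 2], ![φ 2 0, φ 2 1, φ 2 2]] := by
    funext a b
    fin_cases a <;> fin_cases b <;> rfl
  have h : Af φ := by
    rw [e]
    exact af _ _ _ _ _ _ _ _ _
  obtain ⟨R1, s1, t1⟩ := swp hS hR H
  obtain ⟨R2, s2, t2⟩ := dua hS hR H
  obtain ⟨R3, s3, t3⟩ := swp hS s2 t2
  rcases h (row hS h8 hR H) (row hS h8 s1 t1) (row hS h8 s2 t2) (row hS h8 s3 t3) with
    h | ⟨t, n, -, h⟩
  · exact (con hS hR (w := φ 0 0) fun a b => by simpa only [h a b] using H a b).elim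
  · exact ⟨t, _, h⟩

theorem four (hS : Sys S) {R : Rn 4} (hR : S 4 R) {t u : Fin 4} {ψ χ : Perm (Fin 3)}
    (H : ∀ a b, R ![a, b, ψ (lin t a b), χ (lin u a b)]
      ![a + b, a + 2 * b, ψ (lin t a b), χ (lin u a b)]) : Cmp t u := by
  refine (fourC t u).resolve_right fun hr => ?_
  refine frame4.refute (by norm_num) (by norm_num) (hS.tight _ _
    (hS.act 4 R ![1, 1, ψ, χ] 1 ![1, 1, ψ, χ] 1 hR)) (fun _ => 1) hr fun D hD => ?_
  obtain ⟨a, b, h⟩ := fourL_spec t u D hD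
  refine inh ?_ h
  convert H a b using 1 <;> funext l <;> fin_cases l <;> rfl

theorem main (hSys : StmtSys ι) (hLoc : StmtLoc ι) (hProp : StmtProp ι) (hFin : StmtFin ι)
    {C D : Finset (ι → Fin 3)} (h : TP3 C D) (h4 : ¬Exo4 C D) {π ρ : Perm ι}
    {σ τ : ι → Perm (Fin 3)} {p : Fin 2 ↪ ι}
    (H : ∀ c1 c2 d1 d2, KH c1 c2 d1 d2 →
      sct (fun c d => wr σ π c ∈ C ∧ wr τ ρ d ∈ D) p ![c1, c2] ![d1, d2]) : Exo5 C D := by
  have hij : p 0 ≠ p 1 := p.injective.ne (by decide)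
  have tp := HAsm.tp_pm h ρ
  have h4' : ¬Exo4 C (HAsm.pm D ρ) := fun e => h4 (HAsm.exo4_pm e)
  have hcell : ∀ c1 c2 d1 d2, KH c1 c2 d1 d2 → ∃ c d, wr σ π c ∈ C ∧
      wr (τ ∘ ρ.symm) 1 d ∈ HAsm.pm D ρ ∧ c (p 0) = c1 ∧ c (p 1) = c2 ∧ d (p 0) = d1 ∧
      d (p 1) = d2 ∧ ∀ r, r ≠ p 0 → r ≠ p 1 → c r = d r := by
    intro c1 c2 d1 d2 hk
    obtain ⟨c, d, ⟨e1, e2⟩, e3, e4, e5⟩ := H c1 c2 d1 d2 hk
    refine ⟨c, d, e1, HAsm.mem_pm.mpr ?_, e3 0, e3 1, e4 0, e4 1, fun r h1 h2 => e5 r fun l => ?_⟩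
    · convert e2 using 1
      funext l
      simp [wr]
    · fin_cases l
      exacts [h1, h2]
  obtain ⟨cA, dA, hA1, hA2, hA3, hA4, hA5, hA6, hA7⟩ := hcell 0 1 1 1 (Or.inl (by decide))
  have h3 : 3 ≤ Fintype.card ι := by
    by_contra hlt
    have hall : ∀ r, r = p 0 ∨ r = p 1 := by
      intro r
      by_contra hr
      push Not at hr
      apply hlt
      have := Finset.card_le_univ ({r, p 0, p 1} : Finset ι)
      rwa [Finset.card_eq_three.mpr ⟨r, p 0, p 1, hr.1, hr.2, hij, rfl⟩] at this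
    obtain ⟨cB, -, hB1, -, hB3, hB4, -⟩ := hcell 1 0 1 2 (Or.inr (Or.inl (by decide)))
    obtain ⟨-, dC, -, hC2, -, -, hC5, hC6, -⟩ := hcell 0 1 2 2 (Or.inl (by decide))
    have hc : ∀ l, wr σ π cA l ≠ wr σ π cB l := by
      intro l e
      have e' : cA (π l) = cB (π l) := (σ l).injective e
      rcases hall (π l) with e1 | e1
      · rw [e1, hA3, hB3] at e'; exact absurd e' (by decide)
      · rw [e1, hA4, hB4] at e'; exact absurd e' (by decide)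
    have hd : ∀ l, wr (τ ∘ ρ.symm) 1 dA l ≠ wr (τ ∘ ρ.symm) 1 dC l := by
      intro l e
      have e' : dA l = dC l := ((τ ∘ ρ.symm) l).injective e
      rcases hall l with e1 | e1
      · rw [e1, hA5, hC5] at e'; exact absurd e' (by decide)
      · rw [e1, hA6, hC6] at e'; exact absurd e' (by decide)
    have := tp.sep _ hA1 _ hB1 _ hA2 _ hC2 (by rw [HAsm.dist_all hc, HAsm.dist_all hd])
    exact hc (p 0) (congrFun this (p 0))
  have gc : GC C (HAsm.pm D ρ) (wr (τ ∘ ρ.symm) 1 dA) (p 0) (p 1) _ _ :=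
    ⟨hij, σ, π, τ ∘ ρ.symm, cA, dA, rfl, rfl, rfl, hA2, hA1, hA3, hA4, hA5, hA6, hA7, hcell⟩
  obtain ⟨ζ, hζ⟩ := hProp h3 _ _ (hLoc C _ (hSys C _ tp h4')) _ _ _ _ _ gc
  rcases hFin h3 C _ ζ _ tp hζ with e | e
  · exact absurd e h4'
  · exact HAsm.exo5_pm e

/-- The distance from the first cell, up to the other coordinates. -/
def dc (a b : Fin 3) : ℕ := nq 0 a + nq 0 b
def dd (a b : Fin 3) : ℕ := nq 0 (a + b) + nq 0 (a + 2 * b)
def dl (t : Fin 4) (a b : Fin 3) : ℕ := nq (lin t 0 0) (lin t a b)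

theorem cmp3 : ∀ t u v : Fin 4, Cmp t u → Cmp t v → ¬Cmp u v := by decide

theorem one : ∀ t : Fin 4, ∃ a b x y : Fin 3, ¬(a = 0 ∧ b = 0) ∧
    dc a b + dl t a b = dd x y + dl t x y := by decide +kernel

theorem two : ∀ t u : Fin 4, Cmp t u →
    ((∃ a b, dc a b + (dl t a b + dl u a b) = 3) ∧ (∃ a b, dd a b + (dl t a b + dl u a b) = 2) ∧
      ∃ a b, dd a b + (dl t a b + dl u a b) = 4) ∨
    ((∃ a b, dc a b + (dl t a b + dl u a b) = 2) ∧ (∃ a b, dc a b + (dl t a b + dl u a b) = 4) ∧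
      ∃ a b, dd a b + (dl t a b + dl u a b) = 3) := by decide +kernel

theorem split {i j : ι} (hij : i ≠ j) (x y : ι → Fin 3) : hammingDist x y =
    nq (x i) (y i) + nq (x j) (y j) + ∑ r ∈ univ \ {i, j}, nq (x r) (y r) := by
  have h1 : hammingDist x y = ∑ t, nq (x t) (y t) := by
    rw [hammingDist, card_filter]
    exact sum_congr rfl fun t _ => by simp [nq]
  rw [h1, ← sum_sdiff (subset_univ {i, j}), sum_pair hij, add_comm]

theorem no9 {C D : Finset (ι → Fin 3)} (hS : Sys (Sct C D)) (h8 : No8 (Sct C D)) (h : TP3 C D)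
    {π ρ : Perm ι} {σ τ : ι → Perm (Fin 3)} {i j : ι} (hij : i ≠ j)
    (H : ∀ a b : Fin 3, ∃ c d, (wr σ π c ∈ C ∧ wr τ ρ d ∈ D) ∧ c i = a ∧ c j = b ∧ d i = a + b ∧
      d j = a + 2 * b ∧ ∀ r, r ≠ i → r ≠ j → c r = d r) : Exo4 C D := by
  choose c d hT c1 c2 d1 d2 off using H
  have h3 : ∀ r, ∃ t, ∃ ψ : Perm (Fin 3), r ≠ i → r ≠ j → ∀ a b, d a b r = ψ (lin t a b) := by
    intro r
    by_cases hr : r ≠ i ∧ r ≠ j
    swap
    · exact ⟨0, 1, fun h1 h2 => absurd ⟨h1, h2⟩ hr⟩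
    obtain ⟨hri, hrj⟩ := hr
    let p : Fin 3 ↪ ι := ⟨![i, j, r], by
      intro u v huv
      fin_cases u <;> fin_cases v <;> simp_all [eq_comm]⟩
    obtain ⟨t, ψ, e⟩ := three hS h8 (φ := fun a b => d a b r) ⟨σ, π, τ, ρ, p, Or.inl rfl⟩
      fun a b => ⟨c a b, d a b, hT a b, fun l => by
        fin_cases l
        exacts [c1 a b, c2 a b, off a b r hri hrj], fun l => by
        fin_cases l
        exacts [d1 a b, d2 a b, rfl], fun s hs => off a b s (hs 0) (hs 1)⟩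
    exact ⟨t, ψ, fun _ _ => e⟩
  choose t ψ ht using h3
  have h4 : ∀ r s, r ≠ i → r ≠ j → s ≠ i → s ≠ j → r ≠ s → Cmp (t r) (t s) := by
    intro r s hri hrj hsi hsj hrs
    let p : Fin 4 ↪ ι := ⟨![i, j, r, s], by
      intro u v huv
      fin_cases u <;> fin_cases v <;> simp_all [eq_comm]⟩
    refine four hS (ψ := ψ r) (χ := ψ s) ⟨σ, π, τ, ρ, p, Or.inl rfl⟩ fun a b =>
      ⟨c a b, d a b, hT a b, fun l => ?_, fun l => ?_, fun s hs => off a b s (hs 0) (hs 1)⟩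
    · fin_cases l
      exacts [c1 a b, c2 a b, (off a b r hri hrj).trans (ht r hri hrj a b),
        (off a b s hsi hsj).trans (ht s hsi hsj a b)]
    · fin_cases l
      exacts [d1 a b, d2 a b, ht r hri hrj a b, ht s hsi hsj a b]
  have mO : ∀ r, r ∈ univ \ {i, j} ↔ r ≠ i ∧ r ≠ j := fun r => by simp
  have eD : ∀ a b, hammingDist (wr τ ρ (d 0 0)) (wr τ ρ (d a b)) =
      dd a b + ∑ r ∈ univ \ {i, j}, dl (t r) a b := by
    intro a b
    rw [show hammingDist (wr τ ρ (d 0 0)) (wr τ ρ (d a b)) = _ from K6.Glue.dist_wreath τ ρ _ _,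
      split hij, d1, d1, d2, d2]
    congr 1
    refine sum_congr rfl fun r hr => ?_
    obtain ⟨h1, h2⟩ := (mO r).1 hr
    simp [ht r h1 h2, dl, nq]
  have eC : ∀ a b, hammingDist (wr σ π (c 0 0)) (wr σ π (c a b)) =
      dc a b + ∑ r ∈ univ \ {i, j}, dl (t r) a b := by
    intro a b
    rw [show hammingDist (wr σ π (c 0 0)) (wr σ π (c a b)) = _ from K6.Glue.dist_wreath σ π _ _,
      split hij, c1, c1, c2, c2]
    congr 1
    refine sum_congr rfl fun r hr => ?_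
    obtain ⟨h1, h2⟩ := (mO r).1 hr
    simp [off _ _ r h1 h2, ht r h1 h2, dl, nq]
  have sep : ∀ a b x y, dc a b + ∑ r ∈ univ \ {i, j}, dl (t r) a b =
      dd x y + ∑ r ∈ univ \ {i, j}, dl (t r) x y → a = 0 ∧ b = 0 := by
    intro a b x y e
    have e1 := h.sep _ (hT 0 0).1 _ (hT a b).1 _ (hT 0 0).2 _ (hT x y).2 (by rw [eC, eD, e])
    have e2 : ∀ r, c 0 0 r = c a b r := fun r => by
      simpa [wr] using congrFun e1 (π.symm r)
    exact ⟨by rw [← c1 a b, ← e2, c1], by rw [← c2 a b, ← e2, c2]⟩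
  have hc : (univ \ {i, j} : Finset ι).card + 2 = Fintype.card ι := by
    rw [← card_pair hij, card_sdiff_add_card_eq_card (subset_univ _), card_univ]
  generalize (univ \ {i, j} : Finset ι) = O at mO eD eC sep hc
  by_cases k3 : 2 < O.card
  · obtain ⟨r, hr, s, hs, u, hu, n1, n2, n3⟩ := two_lt_card.1 k3
    rw [mO] at hr hs hu
    exact (cmp3 _ _ _ (h4 r s hr.1 hr.2 hs.1 hs.2 n1) (h4 r u hr.1 hr.2 hu.1 hu.2 n2)
      (h4 s u hs.1 hs.2 hu.1 hu.2 n3)).elim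
  have k : O.card = 0 ∨ O.card = 1 ∨ O.card = 2 := by omega
  rcases k with k | k | k
  · rw [card_eq_zero.1 k] at sep
    exact absurd (sep 0 1 1 1 (by simp only [sum_empty]; decide)).2 (by decide)
  · obtain ⟨r, rfl⟩ := card_eq_one.1 k
    obtain ⟨a, b, x, y, n, e⟩ := one (t r)
    exact absurd (sep a b x y (by simpa only [sum_singleton] using e)) n
  · obtain ⟨r, s, hrs, rfl⟩ := card_eq_two.1 k
    have hr := (mO r).1 (by simp)
    have hs := (mO s).1 (by simp)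
    simp only [sum_pair hrs] at eC eD
    have kC : ∀ n, (∃ a b, dc a b + (dl (t r) a b + dl (t s) a b) = n) → HasD C n :=
      fun n ⟨a, b, e⟩ => ⟨_, (hT 0 0).1, _, (hT a b).1, (eC a b).trans e⟩
    have kD : ∀ n, (∃ a b, dd a b + (dl (t r) a b + dl (t s) a b) = n) → HasD D n :=
      fun n ⟨a, b, e⟩ => ⟨_, (hT 0 0).2, _, (hT a b).2, (eD a b).trans e⟩
    refine ⟨by omega, (two _ _ (h4 r s hr.1 hr.2 hs.1 hs.2 hrs)).imp ?_ ?_⟩
    · exact fun e => ⟨kC _ e.1, kD _ e.2.1, kD _ e.2.2⟩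
    · exact fun e => ⟨kC _ e.1, kC _ e.2.1, kD _ e.2.2⟩

end H9

theorem hThm9 (hSys : StmtSys ι) (hLoc : StmtLoc ι) (hProp : StmtProp ι) (hFin : StmtFin ι) :
    StmtH ι := by
  intro C D hGP h4 h5 π ρ σ i j hij hE
  have tp : TP3 C D := ⟨hGP.sep, by simpa using hGP.big⟩
  rcases hE with ⟨a0, a1, x0, x1, y1, y2, h8⟩ | ⟨a0, a1, x0, x1, y1, y2, h8⟩ | ⟨s1, s2, t1, t2, h9⟩
  · have h8' : Is8 (dual (pl (fun c d => c ∘ ρ ∈ D ∧ d ∘ π ∈ C) (fun r => (σ r).symm) i j))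
        a0 a1 x0 x1 y1 y2 := by
      rw [HAsm.dual_pl]; exact h8
    obtain ⟨-, -, ⟨x, hx, y, hy, e⟩, -⟩ := HAsm.main hSys hLoc hProp hFin (HAsm.tp_symm tp)
      (fun e => h4 (HAsm.exo4_symm e)) hij h8'
    exact hGP.no1 x hx y hy e
  · exact h5 (HAsm.main hSys hLoc hProp hFin tp h4 hij h8)
  · refine h4 (H9.no9 (hSys C D tp h4) ?_ tp (π := π) (ρ := ρ)
      (σ := HAsm.fr σ i j s1.symm s2.symm ∘ π)
      (τ := HAsm.fr (fun _ => 1) i j t1.symm t2.symm ∘ ρ) hij fun a b => ?_)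
    · rintro R ⟨σ', π', τ', ρ', p, rfl | rfl⟩ H
      · exact h5 (H9.main hSys hLoc hProp hFin tp h4 H)
      · obtain ⟨-, -, ⟨x, hx, y, hy, e⟩, -⟩ := H9.main hSys hLoc hProp hFin (HAsm.tp_symm tp)
          (fun e => h4 (HAsm.exo4_symm e)) H
        exact hGP.no1 x hx y hy e
    · exact HAsm.frame hij s1.symm s2.symm t1.symm t2.symm
        ((h9 (s1.symm a) (s2.symm b) (t1.symm (a + b)) (t2.symm (a + 2 * b))).mpr (by simp))

end Pool.Agent.MP_92191b_al.K3
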