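import Pool.Agent.MP_92191b_al.K3.Defs2

/-! A checker for proof trees about sets of numbers whose plane projections belong to a list of
252 patterns. -/

namespace Pool.Agent.MP_92191b_al.K3.NX

/-- A cell of a plane with the set of patterns containing it. -/
structure Ce where
  o : ℕ
  c1 : ℕ
  c2 : ℕ
  d1 : ℕ
  d2 : ℕ

def cells : List Ce :=
  [⟨0x24000900024000900804000100800000027800000100000020100ec40201, 0, 0, 0, 0⟩,
   ⟨0x2400120090002400100800020100000004b8000002000000402015a80202, 1, 0, 0, 0⟩,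
   ⟨0x240024240009000020100004020000000938000004000000804023700204, 2, 0, 0, 0⟩,
   ⟨0x4800090410010400402000080400000003c8000008000001008046380208, 0, 1, 0, 0⟩,
   ⟨0x4800122000480010804000100800000005d0000010000002010085540210, 1, 1, 0, 0⟩,
   ⟨0x4800240082002081008000201000000009e00000200000040201038c0220, 2, 1, 0, 0⟩,
   ⟨0x900009208008200201000040200000000e48000040000008040201d80240, 0, 2, 0, 0⟩,
   ⟨0x900012040201008402000080400000000e90000080000010080402b40280, 1, 2, 0, 0⟩,
   ⟨0x900024001040041804000100800000000f200001000000201008046c0300, 2, 2, 0, 0⟩,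
   ⟨0x900024000024001200800020100004004f000000200000040001d88040401, 0, 0, 1, 0⟩,
   ⟨0x9000480009000480010000402000080097000000400000080002b50080402, 1, 0, 1, 0⟩,
   ⟨0x90009002400120000200008040001001270000008000001000046e0100404, 2, 0, 1, 0⟩,
   ⟨0x12000240041002080040001008000200079000001000000200008c70200408, 0, 1, 1, 0⟩,
   ⟨0x120004802000500020800020100004000ba000002000000400010aa8400410, 1, 1, 1, 0⟩,
   ⟨0x1200090000820041010000402000080013c000004000000800020718800420, 2, 1, 1, 0⟩,
   ⟨0x240002402080104002000080400010001c90000080000010000403b1000440, 0, 2, 1, 0⟩,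
   ⟨0x240004800402020104000100800020001d200001000000200008056a000480, 1, 2, 1, 0⟩,
   ⟨0x240009000010400828000201000040001e40000200000040001008dc000500, 2, 2, 1, 0⟩,
   ⟨0x240009000000240024000040200008049e000000400000080001b1008040801, 0, 0, 2, 0⟩,
   ⟨0x240012000009000900000080400010092e0000008000001000016a010080802, 1, 0, 2, 0⟩,
   ⟨0x240024000240024000000100800020124e000001000000200000dc020100804, 2, 0, 2, 0⟩,
   ⟨0x48000900004100410000020100004020f20000020000004000018e040200808, 0, 1, 2, 0⟩,
   ⟨0x480012000200060004000402000080417400000400000080000155080400810, 1, 1, 2, 0⟩,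
   ⟨0x4800240000082008200008040001008278000008000001000000e3100800820, 2, 1, 2, 0⟩,
   ⟨0x900009000208020800001008000201039200001000000200000076201000840, 0, 2, 2, 0⟩,
   ⟨0x90001200004020402000201000040203a4000020000004000000ad402000880, 1, 2, 2, 0⟩,
   ⟨0x90002400000104010400402000080403c80000400000080000011b804000900, 2, 2, 2, 0⟩,
   ⟨0x410010400004800090080400000013c0201000000001008076200000041001, 0, 0, 0, 1⟩,
   ⟨0x410020800120002400100800000025c04020000000020100ad400000081002, 1, 0, 0, 1⟩,
   ⟨0x410041004800090000201000000049c080400000000402011b800000101004, 2, 0, 0, 1⟩,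
   ⟨0x82001040082001040040200000001e41008000000008040231c00000201008, 0, 1, 0, 1⟩,
   ⟨0x82002080400088001080400000002e8201000000001008042aa00000401010, 1, 1, 0, 1⟩,
   ⟨0x82004100010400208100800000004f0402000000002010081c600000801020, 2, 1, 0, 1⟩,
   ⟨0x10400104041000820020100000000724804000000004020100ec00001001040, 0, 2, 0, 1⟩,
   ⟨0x104002080080401008402000000007490080000000080402015a00002001080, 1, 2, 0, 1⟩,
   ⟨0x104004100002080041804000000007920100000000100804023600004001100, 2, 2, 0, 1⟩,
   ⟨0x20004800100048001200800020027800020000800020000ec40200008002001, 0, 0, 1, 1⟩,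
   ⟨0x2000500020120004800100004004b8000400010000400015a80400010002002, 1, 0, 1, 1⟩,
   ⟨0x200060004480012000020000800938000800020000800023700800020002004, 2, 0, 1, 1⟩,
   ⟨0x4000880010820020800400010003c8001000040001000046381000040002008, 0, 1, 1, 1⟩,
   ⟨0x4000900024000900020800020005d0002000080002000085542000080002010, 1, 1, 1, 1⟩,
   ⟨0x4000a00040104004101000040009e00040001000040001038c4000100002020, 2, 1, 1, 1⟩,
   ⟨0x800108001410010400200008000e48008000200008000201d88000200002040, 0, 2, 1, 1⟩,
   ⟨0x800110002080402010400010000e90010000400010000402b50000400002080, 1, 2, 1, 1⟩,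
   ⟨0x800120004002080082800020000f200200008000200008046e0000800002100, 2, 2, 1, 1⟩,
   ⟨0x820020800048002400004024f000000001008040000d88040201000004001, 0, 0, 2, 1⟩,
   ⟨0x8200410012000900000080497000000002010080000b50080402000004002, 1, 0, 2, 1⟩,
   ⟨0x82008204800240000001009270000000040201000006e0100804000004004, 2, 0, 2, 1⟩,
   ⟨0x10400208082004100000201079000000008040200000c70201008000004008, 0, 1, 2, 1⟩,
   ⟨0x104004104000a00040004020ba000000010080400000aa8402010000004010, 1, 1, 2, 1⟩,
   ⟨0x1040082001040082000080413c000000020100800000718804020000004020, 2, 1, 2, 1⟩,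
   ⟨0x208002084100208000010081c90000000402010000003b1008040000004040, 0, 2, 2, 1⟩,
   ⟨0x208004100804040200020101d200000008040200000056a010080000004080, 1, 2, 2, 1⟩,
   ⟨0x208008200020801040040201e40000001008040000008dc020100000004100, 2, 2, 2, 1⟩,
   ⟨0x208008200000900009000009e010080002010000403b1000000200000048001, 0, 0, 0, 2⟩,
   ⟨0x208010400024000240000012e0201000040200008056a000000400000088002, 1, 0, 0, 2⟩,
   ⟨0x208020800900009000000024e040200008040001008dc000000800000108004, 2, 0, 0, 2⟩,
   ⟨0x41000820010400104000000f20804000100800020118e000001000000208008, 0, 1, 0, 2⟩,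
   ⟨0x410010400800108001000017410080002010000402155000002000000408010, 1, 1, 0, 2⟩,
   ⟨0x4100208000208002080000278201000040200008040e3000004000000808020, 2, 1, 0, 2⟩,
   ⟨0x820008200820008200000039240200008040001008076000008000001008040, 0, 2, 0, 2⟩,
   ⟨0x82001040010080100800003a4804000100800020100ad000010000002008080, 1, 2, 0, 2⟩,
   ⟨0x82002080000410004100003c90080002010000402011b000020000004008100, 2, 2, 0, 2⟩,
   ⟨0x402010080009000120013c0001000040200008076201000040000008010001, 0, 0, 1, 2⟩,
   ⟨0x402020100240004800025c00020000804000100ad402000080000010010002, 1, 0, 1, 2⟩,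
   ⟨0x402040209000120000049c000400010080002011b804000100000020010004, 2, 0, 1, 2⟩,
   ⟨0x80401008104002080001e40008000201000040231c08000200000040010008, 0, 1, 1, 2⟩,
   ⟨0x80402010800110002002e8001000040200008042aa10000400000080010010, 1, 1, 1, 2⟩,
   ⟨0x80404020020800410004f0002000080400010081c620000800000100010020, 2, 1, 1, 2⟩,
   ⟨0x10080100882001040000724004000100800020100ec40001000000200010040, 0, 2, 1, 2⟩,
   ⟨0x100802010100802010007480080002010000402015a80002000000400010080, 1, 2, 1, 2⟩,
   ⟨0x100804020004100082007900100004020000804023700004000000800010100, 2, 2, 1, 2⟩,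
   ⟨0x104004100090002427800000000804000100ec40201008000001000020001, 0, 0, 2, 2⟩,
   ⟨0x10400820240009004b8000000010080002015a80402010000002000020002, 1, 0, 2, 2⟩,
   ⟨0x1040104900024000938000000020100004023700804020000004000020004, 2, 0, 2, 2⟩,
   ⟨0x20800411040041003c8000000040200008046381008040000008000020008, 0, 1, 2, 2⟩,
   ⟨0x20800828001200045d0000000080400010085542010080000010000020010, 1, 1, 2, 2⟩,
   ⟨0x20801040208008209e00000001008000201038c4020100000020000020020, 2, 1, 2, 2⟩,
   ⟨0x4100041820020800e48000000201000040201d88040200000040000020040, 0, 2, 2, 2⟩,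
   ⟨0x4100082100804020e90000000402000080402b50080400000080000020080, 1, 2, 2, 2⟩,
   ⟨0x4100104004100104f200000008040001008046e0100800000100000020100, 2, 2, 2, 2⟩]

/-- A plane: weights of the four free coordinates and the three offsets of the tied pair. -/
structure Pl where
  a1 : ℕ
  a2 : ℕ
  b1 : ℕ
  b2 : ℕ
  o0 : ℕ
  o1 : ℕ
  o2 : ℕ

def Pl.m (p : Pl) : ℕ := 2 ^ p.o0 ||| 2 ^ p.o1 ||| 2 ^ p.o2

def base (p : Pl) (e : Ce) : ℕ := e.c1 * p.a1 + e.c2 * p.a2 + e.d1 * p.b1 + e.d2 * p.b2

def wt : ℕ → ℕ × ℕ × ℕ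
  | 0 => (1, 3, 9)
  | 1 => (3, 1, 9)
  | 2 => (1, 9, 3)
  | 3 => (9, 1, 3)
  | 4 => (3, 9, 1)
  | _ => (9, 3, 1)

def pm : ℕ → ℕ × ℕ × ℕ
  | 0 => (0, 1, 2)
  | 1 => (0, 2, 1)
  | 2 => (1, 0, 2)
  | 3 => (1, 2, 0)
  | 4 => (2, 0, 1)
  | _ => (2, 1, 0)

def mkPl (a b s : ℕ × ℕ × ℕ) : Pl :=
  ⟨a.1, a.2.1, 27 * b.1, 27 * b.2.1, s.1 * a.2.2, s.2.1 * a.2.2 + 27 * b.2.2,
    s.2.2 * a.2.2 + 54 * b.2.2⟩

def plane (n : ℕ) : Pl := mkPl (wt (n % 6)) (wt (n / 6 % 6)) (pm (n / 36))

def alive (p : Pl) (m k d : ℕ) : List Ce → ℕ → ℕ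
  | [], A => A
  | e :: l, A => alive p m k d l
      (bif Nat.beq ((k >>> base p e) &&& m) 0 then
        (bif Nat.beq ((d >>> base p e) &&& m) m then A &&& ((2 ^ 252 - 1) ^^^ e.o) else A)
      else A &&& e.o)

def kill (p : Pl) (m A : ℕ) : List Ce → ℕ → ℕ
  | [], d => d
  | e :: l, d => kill p m A l (bif Nat.beq (A &&& e.o) 0 then d ||| (m <<< base p e) else d)

def al (p : Pl) (k d : ℕ) : ℕ := alive p p.m k d cells (2 ^ 252 - 1)

inductive Tr
  | G (n : ℕ)
  | X (p : ℕ)
  | P (p : ℕ) (t : Tr)
  | B (p q : ℕ) (t0 t1 t2 : Tr)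

def z : Tr := .G 0

def nth (q : ℕ) : Ce := cells.getD q ⟨0, 0, 0, 0, 0⟩

def run (good : ℕ → ℕ → Bool) : Tr → ℕ → ℕ → Bool
  | .G n, k, _ => good n k
  | .X p, k, d => Nat.beq (al (plane p) k d) 0
  | .P p t, k, d => run good t k (kill (plane p) (plane p).m (al (plane p) k d) cells d)
  | .B p q t0 t1 t2, k, d =>
      Nat.blt q 81 && Nat.beq (al (plane p) k d &&& (nth q).o) (al (plane p) k d) &&
      (d.testBit (base (plane p) (nth q) + (plane p).o0) ||
        run good t0 (k ||| 2 ^ (base (plane p) (nth q) + (plane p).o0)) d) &&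
      (d.testBit (base (plane p) (nth q) + (plane p).o1) ||
        run good t1 (k ||| 2 ^ (base (plane p) (nth q) + (plane p).o1)) d) &&
      (d.testBit (base (plane p) (nth q) + (plane p).o2) ||
        run good t2 (k ||| 2 ^ (base (plane p) (nth q) + (plane p).o2)) d)

variable {S : ℕ → Prop}

def Kn (S : ℕ → Prop) (k : ℕ) : Prop := ∀ u, k.testBit u = true → S u

def Dd (S : ℕ → Prop) (d : ℕ) : Prop := ∀ u, d.testBit u = true → ¬S u

def Sin (S : ℕ → Prop) (p : Pl) (e : Ce) : Prop :=
  S (base p e + p.o0) ∨ S (base p e + p.o1) ∨ S (base p e + p.o2)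

/-- The projection to the plane `p` is the pattern number `t`. -/
def Pat (S : ℕ → Prop) (p : Pl) (t : ℕ) : Prop :=
  t < 252 ∧ ∀ e ∈ cells, Sin S p e ↔ e.o.testBit t = true

theorem tb_m (p : Pl) (i : ℕ) : p.m.testBit i = true ↔ i = p.o0 ∨ i = p.o1 ∨ i = p.o2 := by
  simp only [Pl.m, Nat.testBit_or, Nat.testBit_two_pow, Bool.or_eq_true, decide_eq_true_eq,
    or_assoc]
  simp only [eq_comm]

theorem alive_ok {p : Pl} {k d t : ℕ} (hK : Kn S k) (hD : Dd S d) (ht : t < 252) (l : List Ce) :
    (∀ e ∈ l, Sin S p e ↔ e.o.testBit t = true) → ∀ A : ℕ, A.testBit t = true →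
      (alive p p.m k d l A).testBit t = true := by
  induction l with
  | nil => exact fun _ A hA => hA
  | cons e l ih =>
    intro hl A hA
    have he := hl e List.mem_cons_self
    refine ih (fun e' h => hl e' (List.mem_cons_of_mem _ h)) _ ?_
    cases h1 : Nat.beq ((k >>> base p e) &&& p.m) 0
    · obtain ⟨i, hi⟩ := Nat.exists_testBit_of_ne_zero (Nat.ne_of_beq_eq_false h1)
      rw [Nat.testBit_and, Bool.and_eq_true, tb_m, Nat.testBit_shiftRight] at hi
      have hs := hK _ hi.1
      have : Sin S p e := by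
        rcases hi.2 with rfl | rfl | rfl
        exacts [Or.inl hs, Or.inr (Or.inl hs), Or.inr (Or.inr hs)]
      simp only [cond_false, Nat.testBit_and, hA, he.1 this, Bool.and_self]
    · cases h2 : Nat.beq ((d >>> base p e) &&& p.m) p.m
      · simpa only [cond_true, cond_false] using hA
      · have h3 := Nat.eq_of_beq_eq_true h2
        have h4 : ∀ i, p.m.testBit i = true → ¬S (base p e + i) := by
          intro i hi
          rw [← h3, Nat.testBit_and, Bool.and_eq_true, Nat.testBit_shiftRight] at hi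
          exact hD _ hi.1
        have h5 : e.o.testBit t = false := by
          rw [← Bool.not_eq_true, ← he]
          rintro (h | h | h) <;> exact h4 _ (by simp [tb_m]) h
        simp only [cond_true, Nat.testBit_and, hA, Nat.testBit_xor, h5,
          Nat.testBit_two_pow_sub_one, ht, decide_true, Bool.xor_false, Bool.and_self]

theorem al_ok {p : Pl} {k d t : ℕ} (hK : Kn S k) (hD : Dd S d) (h : Pat S p t) :
    (al p k d).testBit t = true :=
  alive_ok hK hD h.1 cells h.2 _ (by simp only [Nat.testBit_two_pow_sub_one, h.1, decide_true])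

theorem kill_ok {p : Pl} {A t : ℕ} (hA : A.testBit t = true) (l : List Ce) :
    (∀ e ∈ l, Sin S p e ↔ e.o.testBit t = true) → ∀ d, Dd S d → Dd S (kill p p.m A l d) := by
  induction l with
  | nil => exact fun _ d hd => hd
  | cons e l ih =>
    intro hl d hd
    have he := hl e List.mem_cons_self
    refine ih (fun e' h => hl e' (List.mem_cons_of_mem _ h)) _ ?_
    cases h1 : Nat.beq (A &&& e.o) 0
    · simpa only [cond_false] using hd
    · have h2 : ¬Sin S p e := by
        intro hs
        have := congrArg (fun x => Nat.testBit x t) (Nat.eq_of_beq_eq_true h1)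
        simp [Nat.testBit_and, hA, he.1 hs] at this
      intro u hu hs
      simp only [cond_true, Nat.testBit_or, Bool.or_eq_true, Nat.testBit_shiftLeft,
        Bool.and_eq_true, decide_eq_true_eq, tb_m] at hu
      rcases hu with hu | ⟨hb, hu⟩
      · exact hd u hu hs
      · obtain ⟨i, rfl⟩ := Nat.exists_eq_add_of_le hb
        rw [Nat.add_sub_cancel_left] at hu
        refine h2 ?_
        rcases hu with rfl | rfl | rfl
        exacts [Or.inl hs, Or.inr (Or.inl hs), Or.inr (Or.inr hs)]

theorem Kn.add {k u : ℕ} (hK : Kn S k) (hu : S u) : Kn S (k ||| 2 ^ u) := by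
  intro v hv
  rw [Nat.testBit_or, Bool.or_eq_true, Nat.testBit_two_pow, decide_eq_true_eq] at hv
  rcases hv with hv | rfl
  exacts [hK v hv, hu]

theorem nth_mem {q : ℕ} (hq : q < 81) : nth q ∈ cells := by
  have h : q < cells.length := hq
  rw [nth, List.getD_eq_getElem _ _ h]
  exact List.getElem_mem h

theorem run_ok (hP : ∀ n, ∃ t, Pat S (plane n) t) (good : ℕ → ℕ → Bool) (tr : Tr) :
    ∀ k d, Kn S k → Dd S d → run good tr k d = true → ∃ n k, Kn S k ∧ good n k = true := by
  induction tr with
  | G n => exact fun k d hK _ h => ⟨n, k, hK, h⟩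
  | X p =>
    intro k d hK hD h
    obtain ⟨t, ht⟩ := hP p
    have := al_ok hK hD ht
    rw [Nat.eq_of_beq_eq_true h] at this
    simp at this
  | P p tr ih =>
    intro k d hK hD h
    obtain ⟨t, ht⟩ := hP p
    exact ih _ _ hK (kill_ok (al_ok hK hD ht) cells ht.2 d hD) h
  | B p q t0 t1 t2 ih0 ih1 ih2 =>
    intro k d hK hD h
    obtain ⟨t, ht⟩ := hP p
    simp only [run, Bool.and_eq_true, Bool.or_eq_true, Nat.blt_eq] at h
    obtain ⟨⟨⟨⟨hq, hA⟩, h0⟩, h1⟩, h2⟩ := h
    have h3 := al_ok hK hD ht
    rw [← Nat.eq_of_beq_eq_true hA, Nat.testBit_and, Bool.and_eq_true] at h3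
    rcases (ht.2 _ (nth_mem hq)).2 h3.2 with hs | hs | hs
    · exact ih0 _ _ (hK.add hs) hD (h0.resolve_left fun h => hD _ h hs)
    · exact ih1 _ _ (hK.add hs) hD (h1.resolve_left fun h => hD _ h hs)
    · exact ih2 _ _ (hK.add hs) hD (h2.resolve_left fun h => hD _ h hs)

/-- The start mask: everything outside the pattern `t` of the first plane is dead. -/
def start (t : ℕ) : ℕ := kill (plane 0) (plane 0).m (2 ^ t) cells 0

theorem run_start (hP : ∀ n, ∃ t, Pat S (plane n) t) {t : ℕ} (h0 : Pat S (plane 0) t)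
    (good : ℕ → ℕ → Bool) (tr : Tr) (h : run good tr 0 (start t) = true) :
    ∃ n k, Kn S k ∧ good n k = true :=
  run_ok hP good tr 0 _ (fun u hu => by simp at hu)
    (kill_ok (by simp [Nat.testBit_two_pow]) cells h0.2 0 fun u hu => by simp at hu) h

end Pool.Agent.MP_92191b_al.K3.NX
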