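import Pool.Agent.MP_92191b_al.K3.NX

/-! Sections in three coordinates as sets of numbers; renaming letters. -/

namespace Pool.Agent.MP_92191b_al.K3.NX

open Finset Function Equiv K6 X

def f3 (n : ℕ) : α := Fin.ofNat 3 n

theorem f3_val {n : ℕ} (h : n < 3) : (f3 n).val = n := Nat.mod_eq_of_lt h

def SQ (Q : R6 α) (n : ℕ) : Prop :=
  Q (f3 n) (f3 (n / 3)) (f3 (n / 9)) (f3 (n / 27)) (f3 (n / 81)) (f3 (n / 243))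

def ew (a b : ℕ × ℕ × ℕ) (c1 c2 c3 d1 d2 d3 : α) : ℕ :=
  c1.val * a.1 + c2.val * a.2.1 + c3.val * a.2.2 +
    27 * (d1.val * b.1 + d2.val * b.2.1 + d3.val * b.2.2)

def R (S : ℕ → Prop) (a b : ℕ × ℕ × ℕ) : R6 α := fun c1 c2 c3 d1 d2 d3 =>
  S (ew a b c1 c2 c3 d1 d2 d3)

theorem R_SQ (Q : R6 α) : R (SQ Q) (1, 3, 9) (1, 3, 9) = Q := by
  funext c1 c2 c3 d1 d2 d3
  have := c1.isLt; have := c2.isLt; have := c3.isLt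
  have := d1.isLt; have := d2.isLt; have := d3.isLt
  simp only [R, SQ, ew]
  congr 1 <;> refine Fin.ext ?_ <;> simp only [f3, Fin.ofNat] <;> omega

variable {S : ℕ → Prop} {Q : R6 α}

theorem oc12 {a1 a2 a3 : ℕ} {b : ℕ × ℕ × ℕ} (h : Orb Q (R S (a1, a2, a3) b)) :
    Orb Q (R S (a2, a1, a3) b) := by
  convert h.c12 using 1
  funext c1 c2 c3 d1 d2 d3
  simp only [R, K6.c12, ew]
  congr 1
  ring

theorem oc23 {a1 a2 a3 : ℕ} {b : ℕ × ℕ × ℕ} (h : Orb Q (R S (a1, a2, a3) b)) :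
    Orb Q (R S (a1, a3, a2) b) := by
  convert h.c23 using 1
  funext c1 c2 c3 d1 d2 d3
  simp only [R, K6.c23, ew]
  congr 1
  ring

theorem od12 {b1 b2 b3 : ℕ} {a : ℕ × ℕ × ℕ} (h : Orb Q (R S a (b1, b2, b3))) :
    Orb Q (R S a (b2, b1, b3)) := by
  convert h.d12 using 1
  funext c1 c2 c3 d1 d2 d3
  simp only [R, K6.d12, ew]
  congr 1
  ring

theorem od23 {b1 b2 b3 : ℕ} {a : ℕ × ℕ × ℕ} (h : Orb Q (R S a (b1, b2, b3))) :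
    Orb Q (R S a (b1, b3, b2)) := by
  convert h.d23 using 1
  funext c1 c2 c3 d1 d2 d3
  simp only [R, K6.d23, ew]
  congr 1
  ring

theorem orb_R (Q : R6 α) (m n : ℕ) : Orb Q (R (SQ Q) (wt m) (wt n)) := by
  have h0 : Orb Q (R (SQ Q) (1, 3, 9) (1, 3, 9)) := by rw [R_SQ]; exact Orb.refl
  have h1 : Orb Q (R (SQ Q) (1, 3, 9) (wt n)) := by
    unfold wt
    split
    exacts [h0, od12 h0, od23 h0, od12 (od23 h0), od23 (od12 h0), od12 (od23 (od12 h0))]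
  generalize wt n = b at h1
  unfold wt
  split
  exacts [h1, oc12 h1, oc23 h1, oc12 (oc23 h1), oc23 (oc12 h1), oc12 (oc23 (oc12 h1))]

theorem ex_pm (s : ℕ) : ∃ σ : Perm α,
    (σ 0).val = (pm s).1 ∧ (σ 1).val = (pm s).2.1 ∧ (σ 2).val = (pm s).2.2 := by
  unfold pm
  split <;> decide

theorem cells_lt : ∀ e ∈ cells, e.c1 < 3 ∧ e.c2 < 3 ∧ e.d1 < 3 ∧ e.d2 < 3 := by decide +kernel

theorem sin_iff {a b s : ℕ × ℕ × ℕ} {σ : Perm α} (h0 : (σ 0).val = s.1) (h1 : (σ 1).val = s.2.1)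
    (h2 : (σ 2).val = s.2.2) {e : Ce} (he : e ∈ cells) :
    Sin S (mkPl a b s) e ↔ p12 (R S a b) σ (f3 e.c1) (f3 e.c2) (f3 e.d1) (f3 e.d2) := by
  obtain ⟨l1, l2, l3, l4⟩ := cells_lt e he
  have e0 : base (mkPl a b s) e + (mkPl a b s).o0 =
      ew a b (f3 e.c1) (f3 e.c2) (σ 0) (f3 e.d1) (f3 e.d2) 0 := by
    simp only [base, mkPl, ew, f3_val, l1, l2, l3, l4, h0, Fin.val_zero]; ring
  have e1 : base (mkPl a b s) e + (mkPl a b s).o1 =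
      ew a b (f3 e.c1) (f3 e.c2) (σ 1) (f3 e.d1) (f3 e.d2) 1 := by
    simp only [base, mkPl, ew, f3_val, l1, l2, l3, l4, h1, Fin.val_one]; ring
  have e2 : base (mkPl a b s) e + (mkPl a b s).o2 =
      ew a b (f3 e.c1) (f3 e.c2) (σ 2) (f3 e.d1) (f3 e.d2) 2 := by
    simp only [base, mkPl, ew, f3_val, l1, l2, l3, l4, h2, Fin.val_two]; ring
  rw [Sin, e0, e1, e2]
  refine ⟨?_, ?_⟩
  · rintro (h | h | h) <;> exact ⟨_, h⟩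
  · rintro ⟨w, hw⟩
    fin_cases w
    exacts [Or.inl hw, Or.inr (Or.inl hw), Or.inr (Or.inr hw)]

def ix (τ : Perm α) : ℕ := 2 * (τ 0).val + if τ 2 < τ 1 then 1 else 0

theorem ix_lt : ∀ τ : Perm α, ix τ < 6 := by decide +kernel

theorem pat1 : ∀ x1 x2 : α, ∀ e ∈ cells, (f3 e.c1 = x1 ∧ f3 e.c2 = x2) ↔
    e.o.testBit (x1.val + 3 * x2.val) = true := by decide +kernel

theorem pat2 : ∀ y1 y2 : α, ∀ e ∈ cells, (f3 e.d1 = y1 ∧ f3 e.d2 = y2) ↔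
    e.o.testBit (9 + y1.val + 3 * y2.val) = true := by decide +kernel

theorem pat3 : ∀ x1 x2 y1 y2 : α, ∀ e ∈ cells,
    ((f3 e.c1 = x1 ∧ f3 e.c2 = x2 ∧ (f3 e.d1 = y1 ∨ f3 e.d2 = y2)) ∨
      (f3 e.c1 ≠ x1 ∧ f3 e.c2 ≠ x2 ∧ f3 e.d1 = y1 ∧ f3 e.d2 = y2)) ↔
    e.o.testBit (18 + x1.val + 3 * x2.val + 9 * y1.val + 27 * y2.val) = true := by decide +kernel

theorem pat4 : ∀ x1 x2 y1 y2 : α, ∀ e ∈ cells,
    ((f3 e.c1 = x1 ∧ f3 e.c2 = x2 ∧ f3 e.d1 ≠ y1 ∧ f3 e.d2 ≠ y2) ∨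
      ((f3 e.c1 = x1 ∨ f3 e.c2 = x2) ∧ f3 e.d1 = y1 ∧ f3 e.d2 = y2)) ↔
    e.o.testBit (99 + x1.val + 3 * x2.val + 9 * y1.val + 27 * y2.val) = true := by decide +kernel

theorem pat5a : ∀ (τ : Perm α) (y : α), ∀ e ∈ cells, (f3 e.c1 = τ (f3 e.c2) ∧ f3 e.d1 = y) ↔
    e.o.testBit (180 + 3 * ix τ + y.val) = true := by decide +kernel

theorem pat5b : ∀ (τ : Perm α) (y : α), ∀ e ∈ cells, (f3 e.c1 = τ (f3 e.c2) ∧ f3 e.d2 = y) ↔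
    e.o.testBit (198 + 3 * ix τ + y.val) = true := by decide +kernel

theorem pat6a : ∀ (τ : Perm α) (x : α), ∀ e ∈ cells, (f3 e.d1 = τ (f3 e.d2) ∧ f3 e.c1 = x) ↔
    e.o.testBit (216 + 3 * ix τ + x.val) = true := by decide +kernel

theorem pat6b : ∀ (τ : Perm α) (x : α), ∀ e ∈ cells, (f3 e.d1 = τ (f3 e.d2) ∧ f3 e.c2 = x) ↔
    e.o.testBit (234 + 3 * ix τ + x.val) = true := by decide +kernel

theorem has_pat (hC : StmtCls3) {P : R4 α} (hP : Plane P) (hx : ¬Exc P) : ∃ t, t < 252 ∧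
    ∀ e ∈ cells, P (f3 e.c1) (f3 e.c2) (f3 e.d1) (f3 e.d2) ↔ e.o.testBit t = true := by
  rcases hC P hP with ⟨x1, x2, h⟩ | ⟨x1, x2, h⟩ | ⟨x1, x2, y1, y2, h⟩ | ⟨x1, x2, y1, y2, h⟩ |
    ⟨τ, y, h⟩ | ⟨τ, y, h⟩ | ⟨τ, y, h⟩ | ⟨τ, y, h⟩ | h
  · exact ⟨_, by omega, fun e he => (h _ _ _ _).trans (pat1 x1 x2 e he)⟩
  · exact ⟨_, by omega, fun e he => (h _ _ _ _).trans (pat2 x1 x2 e he)⟩
  · exact ⟨_, by omega, fun e he => (h _ _ _ _).trans (pat3 x1 x2 y1 y2 e he)⟩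
  · exact ⟨_, by omega, fun e he => (h _ _ _ _).trans (pat4 x1 x2 y1 y2 e he)⟩
  · exact ⟨_, by have := ix_lt τ; omega, fun e he => (h _ _ _ _).trans (pat5a τ y e he)⟩
  · exact ⟨_, by have := ix_lt τ; omega, fun e he => (h _ _ _ _).trans (pat5b τ y e he)⟩
  · exact ⟨_, by have := ix_lt τ; omega, fun e he => (h _ _ _ _).trans (pat6a τ y e he)⟩
  · exact ⟨_, by have := ix_lt τ; omega, fun e he => (h _ _ _ _).trans (pat6b τ y e he)⟩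
  · exact absurd h hx

theorem pats (hC : StmtCls3) (hN : Nice3 Q) (n : ℕ) : ∃ t, Pat (SQ Q) (plane n) t := by
  obtain ⟨σ, h0, h1, h2⟩ := ex_pm (n / 36)
  have hO := orb_R Q (n % 6) (n / 6 % 6)
  obtain ⟨t, ht, h⟩ := has_pat hC ((hN.sec.orb hO).plane12 σ) (hN.nox _ hO σ)
  exact ⟨t, ht, fun e he => (sin_iff h0 h1 h2 he).trans (h e he)⟩

theorem pat0 {t : ℕ} (ht : t < 252) (h : ∀ e ∈ cells,
    p12 Q 1 (f3 e.c1) (f3 e.c2) (f3 e.d1) (f3 e.d2) ↔ e.o.testBit t = true) :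
    Pat (SQ Q) (plane 0) t := by
  refine ⟨ht, fun e he => Iff.trans ?_ (h e he)⟩
  have := sin_iff (S := SQ Q) (a := (1, 3, 9)) (b := (1, 3, 9)) (s := (0, 1, 2)) (σ := 1)
    rfl rfl rfl he
  rwa [R_SQ] at this

theorem of_kn {k : ℕ} (hK : Kn (SQ Q) k) {c1 c2 c3 d1 d2 d3 : α}
    (h : k.testBit (ew (1, 3, 9) (1, 3, 9) c1 c2 c3 d1 d2 d3) = true) : Q c1 c2 c3 d1 d2 d3 := by
  rw [← R_SQ Q]
  exact hK _ h

/-! ### Renaming letters -/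

def rl4 (P : R4 α) (s1 s2 t1 t2 : Perm α) : R4 α := fun c1 c2 d1 d2 =>
  P (s1 c1) (s2 c2) (t1 d1) (t2 d2)

def rl6 (Q : R6 α) (s1 s2 s3 t1 t2 t3 : Perm α) : R6 α := fun c1 c2 c3 d1 d2 d3 =>
  Q (s1 c1) (s2 c2) (s3 c3) (t1 d1) (t2 d2) (t3 d3)

theorem is8_rl {P : R4 α} {s1 s2 t1 t2 : Perm α} {a0 a1 x0 x1 y1 y2 : α}
    (h : Is8 (rl4 P s1 s2 t1 t2) a0 a1 x0 x1 y1 y2) :
    Is8 P (s1 a0) (s1 a1) (s2 x0) (s2 x1) (t1 y1) (t2 y2) := by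
  refine ⟨s1.injective.ne h.1, s2.injective.ne h.2.1, fun c1 c2 d1 d2 => ?_⟩
  have := h.2.2 (s1.symm c1) (s2.symm c2) (t1.symm d1) (t2.symm d2)
  simpa only [rl4, apply_symm_apply, ne_eq, symm_apply_eq] using this

theorem exc_rl {P : R4 α} {s1 s2 t1 t2 : Perm α} (h : Exc (rl4 P s1 s2 t1 t2)) : Exc P := by
  rcases h with ⟨a0, a1, x0, x1, y1, y2, h⟩ | ⟨a0, a1, x0, x1, y1, y2, h⟩ | ⟨u1, u2, v1, v2, h⟩
  · exact Or.inl ⟨_, _, _, _, _, _, is8_rl h⟩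
  · exact Or.inr (Or.inl ⟨_, _, _, _, _, _, is8_rl (P := dual P) h⟩)
  · refine Or.inr (Or.inr ⟨u1 * s1⁻¹, u2 * s2⁻¹, v1 * t1⁻¹, v2 * t2⁻¹, fun c1 c2 d1 d2 => ?_⟩)
    have := h (s1⁻¹ c1) (s2⁻¹ c2) (t1⁻¹ d1) (t2⁻¹ d2)
    simpa only [rl4, Perm.coe_inv, apply_symm_apply, Perm.mul_apply] using this

theorem orb_rl {s1 s2 s3 t1 t2 t3 : Perm α} {Q'' : R6 α}
    (h : Orb (rl6 Q s1 s2 s3 t1 t2 t3) Q'') :
    ∃ Q' u1 u2 u3 v1 v2 v3, Orb Q Q' ∧ Q'' = rl6 Q' u1 u2 u3 v1 v2 v3 := by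
  induction h with
  | refl => exact ⟨Q, _, _, _, _, _, _, Orb.refl, rfl⟩
  | c12 _ ih =>
    obtain ⟨Q', u1, u2, u3, v1, v2, v3, h1, rfl⟩ := ih
    exact ⟨_, u2, u1, u3, v1, v2, v3, h1.c12, rfl⟩
  | c23 _ ih =>
    obtain ⟨Q', u1, u2, u3, v1, v2, v3, h1, rfl⟩ := ih
    exact ⟨_, u1, u3, u2, v1, v2, v3, h1.c23, rfl⟩
  | d12 _ ih =>
    obtain ⟨Q', u1, u2, u3, v1, v2, v3, h1, rfl⟩ := ih
    exact ⟨_, u1, u2, u3, v2, v1, v3, h1.d12, rfl⟩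
  | d23 _ ih =>
    obtain ⟨Q', u1, u2, u3, v1, v2, v3, h1, rfl⟩ := ih
    exact ⟨_, u1, u2, u3, v1, v3, v2, h1.d23, rfl⟩

theorem nice_rl (h : Nice3 Q) (s1 s2 s3 t1 t2 t3 : Perm α) :
    Nice3 (rl6 Q s1 s2 s3 t1 t2 t3) := by
  refine ⟨⟨?_, fun Q'' hQ σ1 σ2 σ3 => ?_⟩, fun Q'' hQ σ hx => ?_⟩
  · intro c1 c2 c3 d1 d2 d3 c1' c2' c3' d1' d2' d3' h1 h2 he
    simpa using h.sec.sep _ _ _ _ _ _ _ _ _ _ _ _ h1 h2 (by simpa using he)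
  · obtain ⟨Q', u1, u2, u3, v1, v2, v3, h1, rfl⟩ := orb_rl hQ
    obtain ⟨d1, d2, d3, hd⟩ := h.sec.ex _ h1 (u1 * σ1 * v1⁻¹) (u2 * σ2 * v2⁻¹) (u3 * σ3 * v3⁻¹)
    exact ⟨v1⁻¹ d1, v2⁻¹ d2, v3⁻¹ d3, by simpa [rl6] using hd⟩
  · obtain ⟨Q', u1, u2, u3, v1, v2, v3, h1, rfl⟩ := orb_rl hQ
    refine h.nox _ h1 (u3 * σ * v3⁻¹) (exc_rl (s1 := u1) (s2 := u2) (t1 := v1) (t2 := v2) ?_)
    convert hx using 1
    funext c1 c2 d1 d2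
    refine propext ⟨?_, ?_⟩
    · rintro ⟨w, hw⟩
      exact ⟨v3⁻¹ w, by simpa [rl6] using hw⟩
    · rintro ⟨w, hw⟩
      exact ⟨v3 w, by simpa [rl6] using hw⟩

theorem col_uniq {σ : Perm α} (h : Sep3 Q) {c1 c2 d1 d2 w w' : α}
    (h1 : Q c1 c2 (σ w) d1 d2 w) (h2 : Q c1 c2 (σ w') d1 d2 w') : w = w' :=
  (h _ _ _ _ _ _ _ _ _ _ _ _ h1 h2 (by simp)).2.2.2.2.2

end Pool.Agent.MP_92191b_al.K3.NX
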