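import Pool.Agent.MP_92191b_al.K3.CDead

/-! Sections in three coordinates over a dual hybrid plane. -/

namespace Pool.Agent.MP_92191b_al.K3

open K6 Finset Equiv

namespace E

def cd (a b c d e f : Fin 3) : ℕ := a + 3 * b + 9 * c + 27 * d + 81 * e + 243 * f

theorem cd_spec : ∀ a b c d e f : Fin 3, cd a b c d e f < 3 ^ (2 * (2 + 1)) ∧
    dgt 0 (cd a b c d e f) 0 = a ∧ dgt 0 (cd a b c d e f) 1 = b ∧ dgt 0 (cd a b c d e f) 2 = c ∧
    dgt 3 (cd a b c d e f) 0 = d ∧ dgt 3 (cd a b c d e f) 1 = e ∧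
    dgt 3 (cd a b c d e f) 2 = f := by
  decide +kernel

theorem vec3 (x : Pt 3) : x = ![x 0, x 1, x 2] := by
  funext l
  fin_cases l <;> rfl

theorem W_cd (R : Rn 3) (a b c d e f : Fin 3) :
    W 3 R (cd a b c d e f) ↔ R ![a, b, c] ![d, e, f] := by
  obtain ⟨-, h1, h2, h3, h4, h5, h6⟩ := cd_spec a b c d e f
  rw [W, RN, vec3 fun l => dgt 0 _ l, vec3 fun l => dgt 3 _ l]
  exact iff_of_eq (congrArg₂ R (congr(![$h1, $h2, $h3])) (congr(![$h4, $h5, $h6])))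

theorem sn2 (x : Pt 2) (a : Fin 3) : sn x a = ![x 0, x 1, a] := by
  funext l
  fin_cases l <;> rfl

theorem kpl_spec : ∀ u ∈ kpl, KH (dgt 0 u 0) (dgt 0 u 1) (dgt 2 u 0) (dgt 2 u 1) := by
  unfold KH
  decide +kernel

theorem goal {S : ∀ n, Rn n → Prop} (hS : Sys S) {R : Rn 3} (hR : S 3 R)
    (hK : ∀ c1 c2 d1 d2, KH c1 c2 d1 d2 → ∃ a, R ![c1, c2, a] ![d1, d2, a])
    (h0 : R ![0, 1, 1] ![1, 1, 1]) : ∃ g ∈ gpl, ∀ c ∈ g.1, W 3 R c := by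
  by_contra hc
  have hl : All (fun e => DeadC e.1 e.2) lpl :=
    ⟨da7, da27, da26, da29, da14, da13, da35, da39, da37, trivial⟩
  have hP : ∀ c ∈ [363], W 3 R c := fun c h => by
    rw [List.mem_singleton.1 h]
    exact (W_cd R 0 1 1 1 1 1).2 h0
  refine chk_sound hS hR (by norm_num) hl.mem (fun e he h _ => hc ⟨e, he, h⟩) tpl _ _
    (Bool.and_eq_true_iff.1 rpl).2
    (al0_spec (d := 2) (by norm_num) (hS.tight _ R hR) kpl [363] [] (fun u hu => ?_) hP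
      fun c h => absurd h List.not_mem_nil) (ps0_spec _ hP)
  obtain ⟨a, ha⟩ := hK _ _ _ _ (kpl_spec u hu)
  exact ⟨a, by rw [sn2, sn2]; exact ha⟩

theorem gpl_exact : ∀ g ∈ gpl, al0 2 [] g.1 [] = ps0 g.1 := by
  decide +kernel

def B (m : ℕ) (a b c d e f : Fin 3) : Prop := m.testBit (cd a b c d e f) = true

instance (m : ℕ) (a b c d e f : Fin 3) : Decidable (B m a b c d e f) := by
  unfold B
  infer_instance

theorem gpl_inv : ∀ g ∈ gpl, ∃ τ ∈ [(1 : Perm (Fin 3)), swap 0 2], τ 1 = 1 ∧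
    (∀ a b c d1 d2 d3, B (ps0 g.1) a b c d1 d2 (τ d3) →
      B (ps0 g.1) a b c (2 * d1) (2 * d2) (τ d3) ∧ B (ps0 g.1) a b c d1 (2 * d2) (τ (2 * d3)) ∧
      B (ps0 g.1) a b c d2 d1 (τ d3) ∧ B (ps0 g.1) a b c d1 d3 (τ d2)) ∧
    ∀ d1 d2 d3, B (ps0 g.1) 0 1 1 d1 d2 (τ d3) → (d1 = 0 ∧ d2 = 0 ∧ d3 = 0) ∨ d1 * d2 * d3 = 1 := by
  decide +kernel

end E

open E in
theorem pl3 : StmtPL3 := by
  intro S hS R hR hK h0
  obtain ⟨g, hg, hw⟩ := goal hS hR hK h0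
  have ex : ∀ a b c d e f, R ![a, b, c] ![d, e, f] ↔ B (ps0 g.1) a b c d e f := by
    intro a b c d e f
    rw [← W_cd R]
    refine ⟨fun w => ?_, ps0_spec _ hw _⟩
    rw [B, ← gpl_exact g hg]
    exact al0_spec (d := 2) (by norm_num) (hS.tight _ R hR) [] g.1 []
      (fun c h => absurd h List.not_mem_nil) hw (fun c h => absurd h List.not_mem_nil) _
      (cd_spec a b c d e f).1 w
  obtain ⟨τ, -, h1, h2, h3⟩ := gpl_inv g hg
  refine ⟨τ, h1, fun x d1 d2 d3 => ?_, fun d1 d2 d3 h => h3 d1 d2 d3 ((ex _ _ _ _ _ _).1 h)⟩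
  rw [vec3 x]
  simp only [ex]
  exact h2 _ _ _ d1 d2 d3

end Pool.Agent.MP_92191b_al.K3
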