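import Pool.Agent.MP_92191b_al.K3.NXB

/-! Colourings of a diagonal plane by a third coordinate. -/

namespace Pool.Agent.MP_92191b_al.K3

open Finset Function Equiv K6 X

namespace NX

def OK6 (φ : α → α → α) : Prop :=
  (∀ a a' b, φ a b = φ a' b) ∨
    ∃ a0 b0 μ ν, μ ≠ ν ∧ ∀ a b, φ a b = if b = b0 ∧ a ≠ a0 then ν else μ

instance (φ : α → α → α) : Decidable (OK6 φ) := by unfold OK6; infer_instance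

def c6 (n : ℕ) (a b : α) : α := f3 (n / 3 ^ (3 * a.val + b.val))

def good6 (n k : ℕ) : Bool := decide
  ((∀ a b : α, k.testBit (ew (1, 3, 9) (1, 3, 9) a 0 (c6 n a b) b b (c6 n a b)) = true) ∧
    OK6 (c6 n))

set_option maxRecDepth 100000 in
def t6 : Tr :=
  (.B 0 0 (.P 2 (.P 4 (.P 12 (.P 14 (.P 16 (.P 24 (.P 26 (.P 28 (.P 36 (.B 0 1 (.P 2 (.P 12 (.P
  14 (.P 24 (.P 48 (.P 88 (.B 0 2 (.P 2 (.P 12 (.P 14 (.P 24 (.P 48 (.P 160 (.B 0 36 (.P 2 (.P 4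
  (.P 36 (.P 76 (.P 84 (.P 86 (.P 112 (.P 120 (.P 122 (.P 124 (.P 132 (.P 156 (.P 158 (.P 160 (.P
  168 (.B 0 37 (.P 16 (.P 72 (.P 74 (.P 76 (.B 0 38 (.B 0 72 (.P 120 (.B 0 73 (.P 52 (.P 72 (.P
  74 (.B 0 74 (.G 0) z z)))) (.P 48 (.P 52 (.P 60 (.P 72 (.P 84 (.P 88 (.B 0 74 z (.G 6804)
  z))))))) (.P 12 (.P 14 (.P 16 (.P 72 (.P 88 (.B 0 74 z z (.G 13608))))))))) (.P 48 (.P 50 (.P
  52 (.P 60 (.P 74 (.P 84 (.P 86 (.P 96 (.P 120 (.B 2 72 z (.B 4 9 z z (.B 12 45 z z (.B 12 63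
  (.B 14 45 z z (.B 24 63 (.B 0 73 (.P 52 (.P 72 (.P 88 (.B 0 74 z (.G 6570) z)))) (.B 0 74 (.G
  252) (.G 6813) z) z) z z)) z z))) z)))))))))) (.P 12 (.P 14 (.P 16 (.P 24 (.P 48 (.P 50 (.P 72
  (.P 110 (.P 120 (.B 2 72 z z (.B 38 72 z z (.B 0 73 (.P 120 (.B 0 74 z z (.G 13140))) z (.B 0
  74 (.G 504) z (.G 13626))))))))))))))) z z))))) (.P 4 (.P 12 (.P 16 (.P 24 (.P 48 (.P 50 (.P 72
  (.P 84 (.B 0 38 z (.B 0 72 (.B 0 73 (.B 0 74 (.G 2268) z z) z z) z z) z))))))))) (.P 16 (.P 18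
  (.P 20 (.P 24 (.P 72 (.P 74 (.P 84 (.B 0 38 z z (.B 0 72 (.B 0 73 (.B 0 74 (.G 4536) z z) z z)
  z z))))))))))))))))))))))))) (.P 12 (.P 24 (.P 74 (.P 76 (.P 80 (.P 84 (.P 86 (.P 88 (.P 96 (.P
  98 (.P 108 (.P 112 (.P 120 (.P 132 (.P 144 (.P 146 (.B 0 37 (.P 2 (.P 4 (.P 16 (.P 36 (.P 40
  (.P 48 (.P 72 (.P 84 (.B 0 38 z (.B 0 72 (.B 0 73 (.B 0 74 (.G 2190) z z) z z) z z) z)))))))))
  (.P 4 (.B 0 38 (.P 2 (.P 4 (.P 16 (.P 36 (.P 40 (.P 48 (.P 72 (.B 0 72 (.B 0 73 (.B 0 74 (.G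
  84) z z) z z) z z)))))))) (.P 40 (.B 0 72 (.P 2 (.P 4 (.P 16 (.P 40 (.B 0 73 (.B 0 74 (.G 2271)
  z z) z z))))) (.P 48 (.P 50 (.P 52 (.P 72 (.P 88 (.B 0 73 z (.B 0 74 z (.G 9084) z) z)))))) (.P
  72 (.P 74 (.P 88 (.P 120 (.B 0 73 z z (.B 0 74 z z (.G 15897))))))))) z)) z)))))))))))))))))
  (.P 48 (.P 60 (.P 72 (.P 74 (.P 76 (.P 84 (.P 86 (.P 88 (.P 90 (.P 96 (.P 98 (.P 100 (.P 102
  (.P 108 (.P 120 (.P 132 (.P 144 (.B 0 37 (.P 2 (.P 4 (.P 12 (.P 16 (.P 72 (.P 74 (.P 84 (.B 0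
  38 z z (.B 0 72 (.B 0 73 (.B 0 74 (.G 4380) z z) z z) z z))))))))) z (.P 16 (.B 0 38 (.P 2 (.P
  4 (.P 12 (.P 16 (.P 72 (.P 74 (.B 0 72 (.B 0 73 (.B 0 74 (.G 168) z z) z z) z z))))))) z (.P 4
  (.P 52 (.B 0 72 (.P 2 (.P 4 (.P 12 (.P 16 (.B 0 73 (.B 0 74 (.G 4542) z z) z z))))) (.P 74 (.P
  84 (.P 88 (.P 120 (.B 0 73 z (.B 0 74 z (.G 11355) z) z))))) (.P 12 (.P 16 (.P 36 (.P 52 (.B 0
  73 z z (.B 0 74 z z (.G 18168))))))))))))))))))))))))))))))))))))) (.P 14 (.P 26 (.P 28 (.P 50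
  (.P 62 (.P 74 (.P 84 (.P 86 (.P 88 (.P 100 (.P 110 (.P 112 (.P 120 (.P 124 (.B 0 36 z (.B 0 37
  z (.B 0 38 z (.B 0 72 z (.B 0 73 z (.B 0 74 z (.G 9813) z) z) z) z) z) z))))))))))))))) (.P 4
  (.P 14 (.P 16 (.P 26 (.P 40 (.P 50 (.P 62 (.P 74 (.P 84 (.P 86 (.P 108 (.P 110 (.P 112 (.P 116
  (.P 120 (.P 124 (.P 144 (.P 146 (.P 156 (.B 0 36 z z (.B 0 37 z z (.B 0 38 z z (.B 0 72 z z (.B
  0 73 z z (.B 0 74 z z (.G 19626))))))))))))))))))))))))))))))))) (.P 4 (.P 14 (.P 24 (.P 26 (.P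
  38 (.P 40 (.P 48 (.P 50 (.P 62 (.P 74 (.P 84 (.P 86 (.P 88 (.P 92 (.P 96 (.P 98 (.P 100 (.P 108
  (.P 110 (.P 112 (.P 120 (.P 122 (.P 124 (.P 126 (.P 132 (.P 144 (.P 148 (.P 156 (.B 0 2 (.P 12
  (.P 16 (.P 36 (.B 0 36 z (.B 0 37 z (.B 0 38 z (.B 0 72 z (.B 0 73 z (.B 0 74 z (.G 9111) z) z)
  z) z) z) z)))) (.P 14 (.P 16 (.P 18 (.P 48 (.P 74 (.B 0 36 (.B 0 37 (.B 0 38 (.B 0 72 (.B 0 73
  (.B 0 74 (.G 756) z z) z z) z z) z z) z z) z z)))))) z))))))))))))))))))))))))))))) (.P 14 (.P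
  24 (.P 26 (.P 38 (.P 40 (.P 48 (.P 50 (.P 62 (.P 86 (.P 88 (.P 90 (.P 92 (.P 96 (.P 98 (.P 100
  (.P 108 (.P 110 (.P 112 (.P 116 (.P 120 (.P 122 (.P 124 (.P 128 (.P 134 (.P 146 (.P 158 (.B 0 2
  (.P 12 (.P 16 (.P 36 (.B 0 36 z z (.B 0 37 z z (.B 0 38 z z (.B 0 72 z z (.B 0 73 z z (.B 0 74
  z z (.G 18222)))))))))) z (.P 14 (.P 16 (.P 18 (.P 24 (.P 48 (.P 72 (.B 0 36 (.B 0 37 (.B 0 38
  (.B 0 72 (.B 0 73 (.B 0 74 (.G 1512) z z) z z) z z) z z) z z) z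
  z)))))))))))))))))))))))))))))))))))))))))))) (.P 14 (.P 16 (.P 26 (.P 28 (.P 50 (.P 52 (.P 62
  (.P 64 (.B 0 1 (.P 2 (.P 12 (.P 14 (.P 18 (.P 24 (.P 26 (.P 36 (.P 40 (.P 48 (.P 60 (.P 74 (.P
  84 (.P 86 (.P 88 (.P 90 (.P 92 (.P 96 (.P 98 (.P 100 (.P 108 (.P 110 (.B 0 2 (.P 12 (.P 16 (.P
  36 (.B 0 36 z (.B 0 37 z (.B 0 38 z (.B 0 72 z (.B 0 73 z (.B 0 74 z (.G 9085) z) z) z) z) z)
  z)))) (.P 14 (.P 16 (.P 18 (.P 24 (.P 48 (.P 52 (.B 0 36 (.B 0 37 (.B 0 38 (.B 0 72 (.B 0 73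
  (.B 0 74 (.G 730) z z) z z) z z) z z) z z) z z))))))) z)))))))))))))))))))))) (.P 4 (.P 14 (.P
  26 (.P 50 (.P 62 (.P 74 (.P 84 (.P 88 (.B 0 2 (.P 2 (.P 12 (.P 14 (.P 16 (.P 24 (.P 26 (.P 40
  (.P 44 (.P 48 (.P 52 (.P 72 (.P 74 (.B 0 36 (.B 0 37 (.B 0 38 (.B 0 72 (.B 0 73 (.B 0 74 (.G
  28) z z) z z) z z) z z) z z) z z))))))))))))) (.P 14 (.P 26 (.P 40 (.P 84 (.P 160 (.B 0 36 (.P
  2 (.P 4 (.P 8 (.P 12 (.P 16 (.P 24 (.P 28 (.P 36 (.P 38 (.P 42 (.P 48 (.P 50 (.P 64 (.P 86 (.P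
  88 (.P 144 (.B 0 37 (.P 2 (.P 12 (.B 0 38 (.P 2 (.P 12 (.B 0 72 (.P 2 (.P 4 (.P 12 (.P 16 (.B 0
  73 (.B 0 74 (.G 757) z z) z z))))) (.P 48 (.P 52 (.P 72 (.P 88 (.B 0 73 z (.B 0 74 z (.G 7570)
  z) z))))) (.P 12 (.P 16 (.P 38 (.P 48 (.B 0 73 z z (.B 0 74 z z (.G 14383)))))))))) (.P 12 (.P
  14 (.P 16 (.P 36 (.B 0 72 z (.B 0 73 z (.B 0 74 z (.G 9757) z) z) z))))) z))) (.P 4 (.P 8 (.P
  12 (.B 0 38 (.B 0 72 z (.B 0 73 z (.B 0 74 z (.G 7651) z) z) z) z z)))) z))))))))))))))))) (.P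
  12 (.P 16 (.P 24 (.P 40 (.P 48 (.P 52 (.P 60 (.P 64 (.P 76 (.P 86 (.P 88 (.P 90 (.P 96 (.P 98
  (.P 112 (.P 4 (.P 12 (.B 0 37 (.P 2 (.P 4 (.P 12 (.B 0 38 (.B 0 72 z (.B 0 73 z (.B 0 74 z (.G
  7573) z) z) z) z z)))) (.P 12 (.P 36 (.P 52 (.B 0 38 z (.B 0 72 (.P 2 (.P 12 (.P 14 (.P 16 (.B
  4 12 z z (.B 4 76 (.B 4 77 (.B 0 73 (.B 0 74 (.G 3028) (.G 9589) z) (.P 48 (.B 0 74 (.G 3271) z
  z)) z) z z) z z)))))) (.P 48 (.P 122 (.B 0 73 (.P 2 (.P 4 (.P 16 (.B 0 74 (.G 3037) z z)))) (.P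
  48 (.P 72 (.P 88 (.B 0 74 z (.G 9841) z)))) (.P 12 (.P 16 (.P 24 (.P 26 (.P 28 (.B 0 74 z z (.G
  16645)))))))))) (.P 12 (.P 16 (.P 24 (.P 26 (.P 38 (.P 122 (.B 2 12 (.B 2 13 (.B 2 30 (.B 2 31
  (.B 2 75 z z (.B 36 75 z z (.B 0 73 z (.P 48 (.B 0 74 z z (.G 16411))) (.B 0 74 z (.G 10093)
  (.G 16654))))) z z) z z) z z) z z)))))))) z)))) (.P 16 (.P 18 (.P 20 (.P 24 (.P 36 (.P 38 (.P
  72 (.B 0 38 z z (.B 0 72 z (.B 0 73 z (.B 0 74 z (.G 12109) z) z) z)))))))))))))))))))))))))))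
  (.P 48 (.P 52 (.P 60 (.P 72 (.P 86 (.P 88 (.P 98 (.P 100 (.P 110 (.P 124 (.P 144 (.P 156 (.B 0
  37 z (.P 4 (.P 8 (.P 12 (.P 14 (.P 16 (.P 36 (.P 40 (.B 0 38 z z (.B 0 72 z (.B 0 73 z (.B 0 74
  z (.G 12031) z) z) z))))))))) (.P 16 (.P 24 (.B 0 38 z (.P 12 (.P 14 (.P 16 (.P 36 (.B 0 72 z
  (.B 0 73 z (.B 0 74 z (.G 9925) z) z) z))))) (.P 4 (.P 52 (.B 0 72 (.P 2 (.P 12 (.P 16 (.P 48
  (.B 0 73 (.B 0 74 (.G 5299) z z) z z))))) (.P 48 (.P 52 (.P 72 (.P 88 (.B 0 73 z (.B 0 74 z (.G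
  12112) z) z))))) (.P 12 (.P 16 (.P 26 (.P 36 (.P 48 (.B 0 73 z z (.B 0 74 z z (.G
  18925))))))))))))))))))))))))))))))))) (.P 4 (.P 14 (.P 16 (.P 18 (.P 22 (.P 24 (.P 26 (.P 30
  (.P 34 (.P 36 (.P 38 (.P 40 (.P 48 (.P 52 (.P 60 (.P 74 (.P 84 (.P 86 (.P 100 (.P 108 (.P 112
  (.P 156 (.B 0 36 z z (.B 0 37 z z (.B 0 38 z z (.B 0 72 z z (.B 0 73 z z (.B 0 74 z z (.G
  19654)))))))))))))))))))))))))))))))))))))) (.P 14 (.P 26 (.P 40 (.P 48 (.P 50 (.P 62 (.P 74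
  (.P 86 (.P 88 (.P 90 (.P 92 (.P 96 (.P 98 (.P 100 (.P 108 (.P 110 (.P 112 (.P 114 (.P 120 (.P
  122 (.P 124 (.P 126 (.P 158 (.P 160 (.B 0 2 z (.P 14 (.P 16 (.P 18 (.P 24 (.P 26 (.P 48 (.B 0
  36 z z (.B 0 37 z z (.B 0 38 z z (.B 0 72 z z (.B 0 73 z z (.B 0 74 z z (.G 18952)))))))))))))
  (.P 14 (.P 16 (.P 18 (.P 24 (.P 48 (.B 0 36 z (.B 0 37 z (.B 0 38 z (.B 0 72 z (.B 0 73 z (.B 0
  74 z (.G 10597) z) z) z) z) z) z)))))))))))))))))))))))))))))))))))))))) (.P 14 (.P 16 (.P 26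
  (.P 28 (.P 50 (.P 52 (.P 62 (.P 64 (.B 0 1 (.P 2 (.P 12 (.P 14 (.P 18 (.P 24 (.P 26 (.P 30 (.P
  36 (.P 48 (.P 50 (.P 86 (.P 88 (.P 90 (.P 92 (.P 96 (.P 98 (.P 100 (.P 108 (.P 122 (.B 0 2 (.P
  12 (.P 16 (.P 36 (.B 0 36 z z (.B 0 37 z z (.B 0 38 z z (.B 0 72 z z (.B 0 73 z z (.B 0 74 z z
  (.G 18170)))))))))) z (.P 14 (.P 16 (.P 18 (.P 26 (.P 40 (.P 48 (.B 0 36 (.B 0 37 (.B 0 38 (.B
  0 72 (.B 0 73 (.B 0 74 (.G 1460) z z) z z) z z) z z) z z) z z))))))))))))))))))))))))))) (.P 4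
  (.P 14 (.P 24 (.P 26 (.P 50 (.P 62 (.P 74 (.P 84 (.P 86 (.P 88 (.P 90 (.P 92 (.P 96 (.P 98 (.P
  100 (.P 108 (.P 110 (.P 112 (.P 122 (.P 134 (.P 144 (.P 148 (.B 0 2 z (.P 14 (.P 16 (.P 18 (.P
  24 (.P 26 (.P 48 (.B 0 36 z z (.B 0 37 z z (.B 0 38 z z (.B 0 72 z z (.B 0 73 z z (.B 0 74 z z
  (.G 18926))))))))))))) (.P 14 (.P 16 (.P 18 (.P 24 (.P 26 (.P 48 (.B 0 36 z (.B 0 37 z (.B 0 38
  z (.B 0 72 z (.B 0 73 z (.B 0 74 z (.G 10571) z) z) z) z) z) z))))))))))))))))))))))))))))))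
  (.P 14 (.P 26 (.P 40 (.P 50 (.P 62 (.P 88 (.P 100 (.P 110 (.B 0 2 (.P 2 (.P 12 (.P 14 (.P 18
  (.P 24 (.P 26 (.P 28 (.P 36 (.P 38 (.P 42 (.P 48 (.P 52 (.P 76 (.P 84 (.P 86 (.P 100 (.B 0 36
  (.B 0 37 (.B 0 38 (.B 0 72 (.B 0 73 (.B 0 74 (.G 56) z z) z z) z z) z z) z z) z
  z))))))))))))))))) (.P 14 (.P 18 (.P 22 (.P 24 (.P 26 (.P 28 (.P 30 (.P 34 (.P 36 (.P 38 (.P 40
  (.P 42 (.P 44 (.P 48 (.P 52 (.P 72 (.P 76 (.P 80 (.P 84 (.P 88 (.P 120 (.B 0 36 z (.B 0 37 z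
  (.B 0 38 z (.B 0 72 z (.B 0 73 z (.B 0 74 z (.G 9869) z) z) z) z) z) z))))))))))))))))))))))
  (.P 4 (.P 14 (.P 156 (.P 160 (.B 0 36 (.P 2 (.P 4 (.P 8 (.P 12 (.P 24 (.P 36 (.P 38 (.P 48 (.P
  52 (.P 54 (.P 60 (.P 62 (.P 74 (.P 76 (.P 84 (.P 120 (.P 122 (.B 0 37 (.P 2 (.B 0 38 (.P 2 (.B
  0 72 (.P 2 (.P 4 (.P 12 (.P 16 (.B 0 73 (.B 0 74 (.G 1514) z z) z z))))) (.P 48 (.P 52 (.P 62
  (.P 64 (.P 72 (.P 84 (.P 88 (.B 0 73 z (.B 0 74 z (.G 8327) z) z)))))))) (.P 12 (.P 14 (.P 16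
  (.P 36 (.P 48 (.B 0 73 z z (.B 0 74 z z (.G 15140)))))))))) z (.P 4 (.P 8 (.P 48 (.B 0 72 z z
  (.B 0 73 z z (.B 0 74 z z (.G 19514))))))))) z (.P 16 (.P 36 (.P 48 (.B 0 38 (.B 0 72 z z (.B 0
  73 z z (.B 0 74 z z (.G 15302)))) z z)))))))))))))))))))))) (.P 12 (.P 16 (.P 24 (.P 40 (.P 48
  (.P 74 (.P 76 (.P 84 (.P 86 (.P 88 (.P 108 (.P 120 (.B 0 37 z (.P 4 (.P 16 (.B 0 38 z (.P 40
  (.P 48 (.B 0 72 (.P 2 (.P 12 (.P 16 (.P 48 (.B 0 73 (.B 0 74 (.G 3785) z z) z z))))) (.P 48 (.P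
  50 (.P 52 (.P 62 (.P 72 (.P 84 (.P 88 (.B 0 73 z (.B 0 74 z (.G 10598) z) z)))))))) (.P 12 (.P
  14 (.P 16 (.P 24 (.P 36 (.P 38 (.P 48 (.B 0 73 z z (.B 0 74 z z (.G 17411))))))))))))) (.P 4
  (.P 8 (.P 16 (.P 48 (.P 52 (.P 88 (.P 120 (.B 0 72 z z (.B 0 73 z z (.B 0 74 z z (.G
  19598)))))))))))))) (.P 16 (.P 18 (.P 20 (.P 24 (.P 36 (.P 48 (.P 52 (.B 0 38 z (.B 0 72 z z
  (.B 0 73 z z (.B 0 74 z z (.G 17492)))) z))))))))))))))))))))) (.P 48 (.P 52 (.P 60 (.P 72 (.P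
  76 (.P 84 (.P 86 (.P 88 (.P 90 (.P 96 (.P 98 (.P 108 (.P 4 (.P 12 (.B 0 37 (.P 2 (.P 12 (.P 16
  (.P 24 (.P 26 (.P 48 (.B 0 38 (.B 0 72 z z (.B 0 73 z z (.B 0 74 z z (.G 15146)))) z z)))))))
  (.P 4 (.P 8 (.P 14 (.P 16 (.P 48 (.P 74 (.B 0 38 z (.B 0 72 z z (.B 0 73 z z (.B 0 74 z z (.G
  17414)))) z))))))) (.P 16 (.P 36 (.P 40 (.B 0 38 z z (.B 0 72 (.P 2 (.P 14 (.P 16 (.P 18 (.P 48
  (.B 4 15 z (.B 4 79 (.B 4 80 (.B 0 73 (.B 0 74 (.G 6056) z (.G 19178)) z (.P 12 (.B 0 74 (.G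
  6542) z z))) z z) z z) z)))))) (.P 48 (.P 52 (.P 60 (.P 62 (.P 74 (.P 76 (.P 84 (.P 88 (.P 96
  (.B 2 15 (.B 2 16 (.B 2 33 (.B 2 34 (.B 2 78 z (.B 12 51 z z (.B 0 73 z (.B 0 74 z (.G 12869)
  (.G 19430)) (.P 12 (.B 0 74 z (.G 13112) z)))) z) z z) z z) z z) z z)))))))))) (.P 122 (.B 0 73
  (.P 2 (.P 12 (.P 16 (.B 0 74 (.G 6074) z z)))) (.P 4 (.P 8 (.P 12 (.B 0 74 z (.G 12878) z))))
  (.P 12 (.P 16 (.B 0 74 z z (.G 19682))))))))))))))))))))))))))))))))))))))))))))))))))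

theorem ch6 : run good6 t6 0 (start 234) = true := by decide +kernel

theorem is6n (hC : StmtCls3) {Q : R6 α} (hN : Nice3 Q) (h6 : Is6b (p12 Q 1) 1 0) :
    ∃ φ : α → α → α, (∀ a b, Q a 0 (φ a b) b b (φ a b)) ∧ OK6 φ := by
  obtain ⟨n, k, hK, h⟩ := run_start (pats hC hN)
    (pat0 (t := 234) (by omega) fun e he => (h6 _ _ _ _).trans (pat6b 1 0 e he)) good6 t6 ch6
  obtain ⟨h1, h2⟩ := of_decide_eq_true h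
  exact ⟨c6 n, fun a b => of_kn hK (h1 a b), h2⟩

end NX

open NX in
theorem phi6 (hC : StmtCls3) : StmtPhi6 := by
  intro Q σ τ x φ hN h6 hφ
  have sw1 : ∀ x c : α, swap 0 x c = x ↔ c = 0 := by decide
  obtain ⟨ψ, h1, h2⟩ := is6n hC (nice_rl hN 1 (swap 0 x) σ τ 1 1) fun c1 c2 d1 d2 =>
    (h6 c1 (swap 0 x c2) (τ d1) d2).trans
      (by simp only [sw1, EmbeddingLike.apply_eq_iff_eq, Perm.coe_one, id])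
  have : φ = ψ := by
    funext a b
    exact col_uniq hN.sec.sep (hφ a b) (by simpa [rl6] using h1 a b)
  subst this
  exact h2

end Pool.Agent.MP_92191b_al.K3
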